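import Pool.Agent.Lib_MP_fa6e45.RJ0

/-!
MP_fa6e45_co, stage 9: straight-side patterns with `8` sides, raw data (generated by a program).
-/

namespace Pool.Agent.Lib_MP_fa6e45

/-- nodes -/
noncomputable def rD8k_20_0 : List RJ :=
  [.s (nat_lit 18) (nat_lit 0xc4e0) (nat_lit 3) (nat_lit 0x533800005338000052430000524300005227000052270000578a0000578a000066a9000066a90000582400005824000058240000582400005a9300005a93) (nat_lit 0x1371000013710000146600001466000014820000148200000f1f00000f1f000000000000000000000e8500000e8500000e8500000e8500000c1600000c16)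
    (nat_lit 0xe46c3fc70fb483ed20fad84d260f3bc515514ce061a81213c44b3112cc41f711c8847220da94391b0fb483ed20d0a03eb6110644edf14ce053381213c44b30ee44480911c8844ac0fb483ed20f77446ff0cbec3dc110c904db21490c5243101a043be118d04022133644f4f0fb483ed20fa4c3ddd0d0bc3dc11116038961490c3cef10ef843be117b843be0def4462d0fad84d260f7043dc1120cc3cef161704c9a1489c50f310e8843a210e8843a21184443e10d0a03eb60d0bc32fb0f694483313658430808e3c5227100f847bc1116043a20e3544f2513b7c51550e2584db210c204c9a121ac486b14dc04cfc12414779d0ffc44c6912dd04abe110643cef11160432413658585c121ac486b15e28578a132847b390e51449050f4103f7a14ce061a80f3bc52431489c50f315e284cfc0d1d466a9160905824190785488186f46a5314ce053381490c524308e3c522715e28537019aa434751609058241bed8602016a4c6329112cc44b310ef843be11ef043a21ece4779d1609058241068c499f10424499f13038347c1213c484f10ef84068100f843a213284490516090582411e2c41a31267c499f13b284c0e1202441f710ef8402210e8843a2124144c691808054881267c499f1267c4bb3121c84c0e0ee4444b3117b846341116043a20e5143ff11bed8641e1267c41091267c499f130384c0e112b04722118b44f4f13c9443e10fde84abe18ca46a5313038347c130384c0e139f44e7d11c8847220def44cd90e35446110f4104b7416a4c61bd13b284c0e130384872139f44e7d)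
    (nat_lit 0xe46cc4e031380c4e031380c4e031380c4e031380c4e031380c4e031380c4e031380c4e00ff1c391b31380c4e031380c4e031380c4e031380c4e031380c4e031380c4e031380c4e00fb483ed20f774c4e031380c4e031380c4e031380c4e031380c4e031380c4e031380c4e00fb483ed211bfc3ddd31380c4e031380c4e031380c4e031380c4e031380c4e031380c4e00fad834280cbec342f120ccc4e031380c4e031380c4e031380c4e031380c4e031380c4e0134983eb60f7043dc10f3bc483331380c4e031380c4e031380c4e031380c4e031380c4e00f3bc441910c904458161704d96121acc4e031380c4e031380c4e031380c4e031380c4e0145544edf136c83896132684308121ac486b31380c4e031380c4e031380c4e031380c4e014ce053381490c52431489c238f14dc0578a0d1d4c4e031380c4e031380c4e031380c4e0186a053381490c3cef143cc5227133f0578a19aa4347531380c4e031380c4e031380c4e01213c484f101a043be10e88403e124144ca11609058241068cc4e031380c4e031380c4e0112cc44b310ef843be10e8847bc1de747b391609058241267c41a331380c4e031380c4e0112cc3b91118d045ee10e8844580ffc4394519078673110424499f1267cc4e031380c4e0107dc48091008843be10e8843a2131a449051522060201267c499f12ecc499f31380c4e011c8847221336437bd1184438d512dd03d04186f45a93130384eca121c84c0e139f4c4e011c8844ac13d3c462d10f844f2512af83f7a1a94c63290d1f04c0e130384c0e139f44e7d)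
    (nat_lit 5) (nat_lit 47)
    [[nat_lit 0,nat_lit 0,nat_lit 14,nat_lit 10],[nat_lit 0,nat_lit 3,nat_lit 12],[nat_lit 0,nat_lit 9,nat_lit 10],
    [nat_lit 0,nat_lit 9,nat_lit 11],[nat_lit 0,nat_lit 11,nat_lit 0,nat_lit 14],[nat_lit 0,nat_lit 11,nat_lit 9],
    [nat_lit 0,nat_lit 11,nat_lit 12,nat_lit 14],[nat_lit 0,nat_lit 11,nat_lit 14,nat_lit 12],[nat_lit 0,nat_lit 11,
    nat_lit 15,nat_lit 12],[nat_lit 0,nat_lit 13,nat_lit 2],[nat_lit 0,nat_lit 14,nat_lit 0,nat_lit 11],[nat_lit 0,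
    nat_lit 14,nat_lit 5],[nat_lit 0,nat_lit 14,nat_lit 10,nat_lit 0],[nat_lit 0,nat_lit 14,nat_lit 11,nat_lit 12],
    [nat_lit 0,nat_lit 15,nat_lit 5],[nat_lit 1,nat_lit 1,nat_lit 11,nat_lit 15],[nat_lit 1,nat_lit 3,nat_lit 12],
    [nat_lit 1,nat_lit 4,nat_lit 14],[nat_lit 1,nat_lit 4,nat_lit 15],[nat_lit 1,nat_lit 8,nat_lit 10],[nat_lit 1,
    nat_lit 10,nat_lit 1,nat_lit 15],[nat_lit 1,nat_lit 10,nat_lit 8],[nat_lit 1,nat_lit 11,nat_lit 8],[nat_lit 1,
    nat_lit 11,nat_lit 15,nat_lit 1],[nat_lit 1,nat_lit 13,nat_lit 2],[nat_lit 1,nat_lit 13,nat_lit 10,nat_lit 15],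
    [nat_lit 1,nat_lit 13,nat_lit 14,nat_lit 10],[nat_lit 1,nat_lit 13,nat_lit 15,nat_lit 10],[nat_lit 1,nat_lit 15,
    nat_lit 1,nat_lit 10],[nat_lit 1,nat_lit 15,nat_lit 13,nat_lit 10],[nat_lit 2,nat_lit 6],[nat_lit 2,nat_lit 7],
    [nat_lit 2,nat_lit 12,nat_lit 12],[nat_lit 2,nat_lit 13,nat_lit 12],[nat_lit 2,nat_lit 13,nat_lit 13],[nat_lit 3,
    nat_lit 6],[nat_lit 3,nat_lit 7],[nat_lit 3,nat_lit 12,nat_lit 12],[nat_lit 3,nat_lit 13,nat_lit 12],[nat_lit 3,
    nat_lit 13,nat_lit 13],[nat_lit 4,nat_lit 8],[nat_lit 4,nat_lit 9],[nat_lit 4,nat_lit 12,nat_lit 14],[nat_lit 4,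
    nat_lit 12,nat_lit 15],[nat_lit 4,nat_lit 13,nat_lit 15],[nat_lit 4,nat_lit 15,nat_lit 12],[nat_lit 4,nat_lit 15,
    nat_lit 13],[nat_lit 5,nat_lit 8],[nat_lit 5,nat_lit 9],[nat_lit 5,nat_lit 12,nat_lit 14],[nat_lit 5,nat_lit 13,
    nat_lit 14],[nat_lit 5,nat_lit 14,nat_lit 12],[nat_lit 5,nat_lit 14,nat_lit 13],[nat_lit 5,nat_lit 15,nat_lit 13],
    [nat_lit 6,nat_lit 10,nat_lit 14],[nat_lit 6,nat_lit 11,nat_lit 14],[nat_lit 6,nat_lit 11,nat_lit 15],[nat_lit 6,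
    nat_lit 14,nat_lit 10],[nat_lit 6,nat_lit 14,nat_lit 11],[nat_lit 7,nat_lit 10,nat_lit 15],[nat_lit 7,nat_lit 11,
    nat_lit 15],[nat_lit 7,nat_lit 14,nat_lit 10],[nat_lit 7,nat_lit 15,nat_lit 10],[nat_lit 7,nat_lit 15,nat_lit 11],
    [nat_lit 8,nat_lit 10,nat_lit 12],[nat_lit 8,nat_lit 11,nat_lit 12],[nat_lit 8,nat_lit 11,nat_lit 13],[nat_lit 8,
    nat_lit 12,nat_lit 10],[nat_lit 8,nat_lit 12,nat_lit 11],[nat_lit 8,nat_lit 13,nat_lit 10],[nat_lit 8,nat_lit 13,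
    nat_lit 11],[nat_lit 9,nat_lit 10,nat_lit 12],[nat_lit 9,nat_lit 10,nat_lit 13],[nat_lit 9,nat_lit 11,nat_lit 12],
    [nat_lit 9,nat_lit 11,nat_lit 13],[nat_lit 9,nat_lit 12,nat_lit 10],[nat_lit 9,nat_lit 13,nat_lit 10],[nat_lit 9,
    nat_lit 13,nat_lit 11],[nat_lit 10,nat_lit 12,nat_lit 13,nat_lit 14],[nat_lit 10,nat_lit 13,nat_lit 12,
    nat_lit 14],[nat_lit 10,nat_lit 13,nat_lit 12,nat_lit 15],[nat_lit 10,nat_lit 13,nat_lit 13,nat_lit 14],
    [nat_lit 10,nat_lit 13,nat_lit 14,nat_lit 12],[nat_lit 10,nat_lit 13,nat_lit 14,nat_lit 13],[nat_lit 10,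
    nat_lit 13,nat_lit 15,nat_lit 12],[nat_lit 10,nat_lit 15,nat_lit 12,nat_lit 12],[nat_lit 11,nat_lit 12,nat_lit 15,
    nat_lit 12],[nat_lit 11,nat_lit 13,nat_lit 13,nat_lit 14],[nat_lit 11,nat_lit 13,nat_lit 14,nat_lit 12],
    [nat_lit 11,nat_lit 13,nat_lit 15,nat_lit 12],[nat_lit 11,nat_lit 14,nat_lit 13,nat_lit 12],[nat_lit 11,
    nat_lit 15,nat_lit 12,nat_lit 12],[nat_lit 11,nat_lit 15,nat_lit 12,nat_lit 13],[nat_lit 11,nat_lit 15,nat_lit 13,
    nat_lit 12]]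
    [nat_lit 0x100ea,nat_lit 0x103c,nat_lit 0x109a,nat_lit 0x109b,nat_lit 0x10b0e,nat_lit 0x10b9,nat_lit 0x10bce,
    nat_lit 0x10bec,nat_lit 0x10bfc,nat_lit 0x10d2,nat_lit 0x10e0b,nat_lit 0x10e5,nat_lit 0x10ea0,nat_lit 0x10ebc,
    nat_lit 0x10f5,nat_lit 0x111bf,nat_lit 0x113c,nat_lit 0x114e,nat_lit 0x114f,nat_lit 0x118a,nat_lit 0x11a1f,
    nat_lit 0x11a8,nat_lit 0x11b8,nat_lit 0x11bf1,nat_lit 0x11d2,nat_lit 0x11daf,nat_lit 0x11dea,nat_lit 0x11dfa,
    nat_lit 0x11f1a,nat_lit 0x11fda,nat_lit 294,nat_lit 295,nat_lit 0x12cc,nat_lit 0x12dc,nat_lit 0x12dd,nat_lit 310,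
    nat_lit 311,nat_lit 0x13cc,nat_lit 0x13dc,nat_lit 0x13dd,nat_lit 328,nat_lit 329,nat_lit 0x14ce,nat_lit 0x14cf,
    nat_lit 0x14df,nat_lit 0x14fc,nat_lit 0x14fd,nat_lit 344,nat_lit 345,nat_lit 0x15ce,nat_lit 0x15de,nat_lit 0x15ec,
    nat_lit 0x15ed,nat_lit 0x15fd,nat_lit 0x16ae,nat_lit 0x16be,nat_lit 0x16bf,nat_lit 0x16ea,nat_lit 0x16eb,
    nat_lit 0x17af,nat_lit 0x17bf,nat_lit 0x17ea,nat_lit 0x17fa,nat_lit 0x17fb,nat_lit 0x18ac,nat_lit 0x18bc,
    nat_lit 0x18bd,nat_lit 0x18ca,nat_lit 0x18cb,nat_lit 0x18da,nat_lit 0x18db,nat_lit 0x19ac,nat_lit 0x19ad,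
    nat_lit 0x19bc,nat_lit 0x19bd,nat_lit 0x19ca,nat_lit 0x19da,nat_lit 0x19db,nat_lit 0x1acde,nat_lit 0x1adce,
    nat_lit 0x1adcf,nat_lit 0x1adde,nat_lit 0x1adec,nat_lit 0x1aded,nat_lit 0x1adfc,nat_lit 0x1afcc,nat_lit 0x1bcfc,
    nat_lit 0x1bdde,nat_lit 0x1bdec,nat_lit 0x1bdfc,nat_lit 0x1bedc,nat_lit 0x1bfcc,nat_lit 0x1bfcd,nat_lit 0x1bfdc]
    [[[nat_lit 0,nat_lit 0,nat_lit 14,nat_lit 10],[nat_lit 0,nat_lit 3,nat_lit 12],[nat_lit 0,nat_lit 9,nat_lit 10],
    [nat_lit 0,nat_lit 9,nat_lit 11],[nat_lit 0,nat_lit 11,nat_lit 0,nat_lit 14],[nat_lit 0,nat_lit 11,nat_lit 9],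
    [nat_lit 0,nat_lit 11,nat_lit 12,nat_lit 14],[nat_lit 0,nat_lit 11,nat_lit 14,nat_lit 12],[nat_lit 0,nat_lit 11,
    nat_lit 15,nat_lit 12],[nat_lit 0,nat_lit 13,nat_lit 2],[nat_lit 0,nat_lit 14,nat_lit 0,nat_lit 11],[nat_lit 0,
    nat_lit 14,nat_lit 5]],[[nat_lit 0,nat_lit 14,nat_lit 10,nat_lit 0],[nat_lit 0,nat_lit 14,nat_lit 11,nat_lit 12],
    [nat_lit 0,nat_lit 15,nat_lit 5],[nat_lit 1,nat_lit 1,nat_lit 11,nat_lit 15],[nat_lit 1,nat_lit 3,nat_lit 12],
    [nat_lit 1,nat_lit 4,nat_lit 14],[nat_lit 1,nat_lit 4,nat_lit 15],[nat_lit 1,nat_lit 8,nat_lit 10],[nat_lit 1,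
    nat_lit 10,nat_lit 1,nat_lit 15],[nat_lit 1,nat_lit 10,nat_lit 8],[nat_lit 1,nat_lit 11,nat_lit 8],[nat_lit 1,
    nat_lit 11,nat_lit 15,nat_lit 1]],[[nat_lit 1,nat_lit 13,nat_lit 2],[nat_lit 1,nat_lit 13,nat_lit 10,nat_lit 15],
    [nat_lit 1,nat_lit 13,nat_lit 14,nat_lit 10],[nat_lit 1,nat_lit 13,nat_lit 15,nat_lit 10],[nat_lit 1,nat_lit 15,
    nat_lit 1,nat_lit 10],[nat_lit 1,nat_lit 15,nat_lit 13,nat_lit 10],[nat_lit 2,nat_lit 0,nat_lit 13],[nat_lit 2,
    nat_lit 1,nat_lit 13],[nat_lit 2,nat_lit 6],[nat_lit 2,nat_lit 7],[nat_lit 2,nat_lit 12,nat_lit 12],[nat_lit 2,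
    nat_lit 13,nat_lit 12]],[[nat_lit 2,nat_lit 13,nat_lit 13],[nat_lit 3,nat_lit 6],[nat_lit 3,nat_lit 7],[nat_lit 3,
    nat_lit 12,nat_lit 0],[nat_lit 3,nat_lit 12,nat_lit 1],[nat_lit 3,nat_lit 12,nat_lit 12],[nat_lit 3,nat_lit 13,
    nat_lit 12],[nat_lit 3,nat_lit 13,nat_lit 13],[nat_lit 4,nat_lit 8],[nat_lit 4,nat_lit 9],[nat_lit 4,nat_lit 12,
    nat_lit 14],[nat_lit 4,nat_lit 12,nat_lit 15]],[[nat_lit 4,nat_lit 13,nat_lit 15],[nat_lit 4,nat_lit 14,
    nat_lit 1],[nat_lit 4,nat_lit 15,nat_lit 1],[nat_lit 4,nat_lit 15,nat_lit 12],[nat_lit 4,nat_lit 15,nat_lit 13],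
    [nat_lit 5,nat_lit 0,nat_lit 14],[nat_lit 5,nat_lit 0,nat_lit 15],[nat_lit 5,nat_lit 8],[nat_lit 5,nat_lit 9],
    [nat_lit 5,nat_lit 12,nat_lit 14],[nat_lit 5,nat_lit 13,nat_lit 14],[nat_lit 5,nat_lit 14,nat_lit 12]],
    [[nat_lit 5,nat_lit 14,nat_lit 13],[nat_lit 5,nat_lit 15,nat_lit 13],[nat_lit 6,nat_lit 2],[nat_lit 6,nat_lit 3],
    [nat_lit 6,nat_lit 10,nat_lit 14],[nat_lit 6,nat_lit 11,nat_lit 14],[nat_lit 6,nat_lit 11,nat_lit 15],[nat_lit 6,
    nat_lit 14,nat_lit 10],[nat_lit 6,nat_lit 14,nat_lit 11],[nat_lit 7,nat_lit 2],[nat_lit 7,nat_lit 3],[nat_lit 7,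
    nat_lit 10,nat_lit 15]],[[nat_lit 7,nat_lit 11,nat_lit 15],[nat_lit 7,nat_lit 14,nat_lit 10],[nat_lit 7,
    nat_lit 15,nat_lit 10],[nat_lit 7,nat_lit 15,nat_lit 11],[nat_lit 8,nat_lit 1,nat_lit 10],[nat_lit 8,nat_lit 1,
    nat_lit 11],[nat_lit 8,nat_lit 4],[nat_lit 8,nat_lit 5],[nat_lit 8,nat_lit 10,nat_lit 1],[nat_lit 8,nat_lit 10,
    nat_lit 12],[nat_lit 8,nat_lit 11,nat_lit 12],[nat_lit 8,nat_lit 11,nat_lit 13]],[[nat_lit 8,nat_lit 12,
    nat_lit 10],[nat_lit 8,nat_lit 12,nat_lit 11],[nat_lit 8,nat_lit 13,nat_lit 10],[nat_lit 8,nat_lit 13,nat_lit 11],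
    [nat_lit 9,nat_lit 0,nat_lit 11],[nat_lit 9,nat_lit 4],[nat_lit 9,nat_lit 5],[nat_lit 9,nat_lit 10,nat_lit 0],
    [nat_lit 9,nat_lit 10,nat_lit 12],[nat_lit 9,nat_lit 10,nat_lit 13],[nat_lit 9,nat_lit 11,nat_lit 0],[nat_lit 9,
    nat_lit 11,nat_lit 12]],[[nat_lit 9,nat_lit 11,nat_lit 13],[nat_lit 9,nat_lit 12,nat_lit 10],[nat_lit 9,
    nat_lit 13,nat_lit 10],[nat_lit 9,nat_lit 13,nat_lit 11],[nat_lit 10,nat_lit 0,nat_lit 0,nat_lit 14],[nat_lit 10,
    nat_lit 0,nat_lit 9],[nat_lit 10,nat_lit 1,nat_lit 8],[nat_lit 10,nat_lit 1,nat_lit 13,nat_lit 14],[nat_lit 10,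
    nat_lit 1,nat_lit 13,nat_lit 15],[nat_lit 10,nat_lit 1,nat_lit 15,nat_lit 1],[nat_lit 10,nat_lit 1,nat_lit 15,
    nat_lit 13],[nat_lit 10,nat_lit 6,nat_lit 14]],[[nat_lit 10,nat_lit 7,nat_lit 14],[nat_lit 10,nat_lit 7,
    nat_lit 15],[nat_lit 10,nat_lit 8,nat_lit 1],[nat_lit 10,nat_lit 8,nat_lit 12],[nat_lit 10,nat_lit 8,nat_lit 13],
    [nat_lit 10,nat_lit 9,nat_lit 12],[nat_lit 10,nat_lit 9,nat_lit 13],[nat_lit 10,nat_lit 12,nat_lit 8],[nat_lit 10,
    nat_lit 12,nat_lit 9],[nat_lit 10,nat_lit 12,nat_lit 13,nat_lit 14],[nat_lit 10,nat_lit 13,nat_lit 9],[nat_lit 10,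
    nat_lit 13,nat_lit 12,nat_lit 14]],[[nat_lit 10,nat_lit 13,nat_lit 12,nat_lit 15],[nat_lit 10,nat_lit 13,
    nat_lit 13,nat_lit 14],[nat_lit 10,nat_lit 13,nat_lit 14,nat_lit 12],[nat_lit 10,nat_lit 13,nat_lit 14,
    nat_lit 13],[nat_lit 10,nat_lit 13,nat_lit 15,nat_lit 12],[nat_lit 10,nat_lit 14,nat_lit 6],[nat_lit 10,
    nat_lit 15,nat_lit 1,nat_lit 13],[nat_lit 10,nat_lit 15,nat_lit 7],[nat_lit 10,nat_lit 15,nat_lit 12,nat_lit 12],
    [nat_lit 11,nat_lit 0,nat_lit 9],[nat_lit 11,nat_lit 0,nat_lit 14,nat_lit 0],[nat_lit 11,nat_lit 6,nat_lit 14]],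
    [[nat_lit 11,nat_lit 7,nat_lit 15],[nat_lit 11,nat_lit 8,nat_lit 1],[nat_lit 11,nat_lit 8,nat_lit 12],[nat_lit 11,
    nat_lit 8,nat_lit 13],[nat_lit 11,nat_lit 9,nat_lit 0],[nat_lit 11,nat_lit 9,nat_lit 13],[nat_lit 11,nat_lit 12,
    nat_lit 0,nat_lit 14],[nat_lit 11,nat_lit 12,nat_lit 8],[nat_lit 11,nat_lit 12,nat_lit 9],[nat_lit 11,nat_lit 12,
    nat_lit 14,nat_lit 0],[nat_lit 11,nat_lit 12,nat_lit 15,nat_lit 12],[nat_lit 11,nat_lit 13,nat_lit 8]],
    [[nat_lit 11,nat_lit 13,nat_lit 9],[nat_lit 11,nat_lit 13,nat_lit 13,nat_lit 14],[nat_lit 11,nat_lit 13,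
    nat_lit 14,nat_lit 12],[nat_lit 11,nat_lit 13,nat_lit 15,nat_lit 12],[nat_lit 11,nat_lit 14,nat_lit 6],
    [nat_lit 11,nat_lit 14,nat_lit 12,nat_lit 0],[nat_lit 11,nat_lit 14,nat_lit 13,nat_lit 12],[nat_lit 11,nat_lit 15,
    nat_lit 1,nat_lit 1],[nat_lit 11,nat_lit 15,nat_lit 6],[nat_lit 11,nat_lit 15,nat_lit 7],[nat_lit 11,nat_lit 15,
    nat_lit 12,nat_lit 0],[nat_lit 11,nat_lit 15,nat_lit 12,nat_lit 12]],[[nat_lit 11,nat_lit 15,nat_lit 12,
    nat_lit 13],[nat_lit 11,nat_lit 15,nat_lit 13,nat_lit 12],[nat_lit 12,nat_lit 0,nat_lit 3],[nat_lit 12,nat_lit 0,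
    nat_lit 11,nat_lit 14],[nat_lit 12,nat_lit 0,nat_lit 11,nat_lit 15],[nat_lit 12,nat_lit 0,nat_lit 14,nat_lit 11],
    [nat_lit 12,nat_lit 1,nat_lit 3],[nat_lit 12,nat_lit 2,nat_lit 12],[nat_lit 12,nat_lit 2,nat_lit 13],[nat_lit 12,
    nat_lit 3,nat_lit 12],[nat_lit 12,nat_lit 3,nat_lit 13],[nat_lit 12,nat_lit 4,nat_lit 15]],[[nat_lit 12,nat_lit 5,
    nat_lit 14],[nat_lit 12,nat_lit 8,nat_lit 10],[nat_lit 12,nat_lit 8,nat_lit 11],[nat_lit 12,nat_lit 9,nat_lit 10],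
    [nat_lit 12,nat_lit 9,nat_lit 11],[nat_lit 12,nat_lit 10,nat_lit 8],[nat_lit 12,nat_lit 10,nat_lit 9],[nat_lit 12,
    nat_lit 10,nat_lit 13,nat_lit 14],[nat_lit 12,nat_lit 10,nat_lit 13,nat_lit 15],[nat_lit 12,nat_lit 10,nat_lit 15,
    nat_lit 12],[nat_lit 12,nat_lit 11,nat_lit 8],[nat_lit 12,nat_lit 11,nat_lit 12,nat_lit 15]],[[nat_lit 12,
    nat_lit 11,nat_lit 13,nat_lit 14],[nat_lit 12,nat_lit 11,nat_lit 13,nat_lit 15],[nat_lit 12,nat_lit 11,nat_lit 14,
    nat_lit 13],[nat_lit 12,nat_lit 11,nat_lit 15,nat_lit 12],[nat_lit 12,nat_lit 11,nat_lit 15,nat_lit 13],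
    [nat_lit 12,nat_lit 12,nat_lit 2],[nat_lit 12,nat_lit 12,nat_lit 3],[nat_lit 12,nat_lit 12,nat_lit 10,nat_lit 15],
    [nat_lit 12,nat_lit 12,nat_lit 11,nat_lit 15],[nat_lit 12,nat_lit 13,nat_lit 11,nat_lit 15],[nat_lit 12,
    nat_lit 13,nat_lit 14,nat_lit 10],[nat_lit 12,nat_lit 14,nat_lit 0,nat_lit 11]],[[nat_lit 12,nat_lit 14,
    nat_lit 4],[nat_lit 12,nat_lit 14,nat_lit 5],[nat_lit 12,nat_lit 14,nat_lit 10,nat_lit 13],[nat_lit 12,nat_lit 15,
    nat_lit 4],[nat_lit 12,nat_lit 15,nat_lit 10,nat_lit 13],[nat_lit 12,nat_lit 15,nat_lit 12,nat_lit 11],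
    [nat_lit 13,nat_lit 2,nat_lit 0],[nat_lit 13,nat_lit 2,nat_lit 1],[nat_lit 13,nat_lit 2,nat_lit 13],[nat_lit 13,
    nat_lit 3,nat_lit 13],[nat_lit 13,nat_lit 4,nat_lit 15],[nat_lit 13,nat_lit 5,nat_lit 14]],[[nat_lit 13,nat_lit 5,
    nat_lit 15],[nat_lit 13,nat_lit 8,nat_lit 11],[nat_lit 13,nat_lit 9,nat_lit 10],[nat_lit 13,nat_lit 9,nat_lit 11],
    [nat_lit 13,nat_lit 10,nat_lit 1,nat_lit 15],[nat_lit 13,nat_lit 10,nat_lit 8],[nat_lit 13,nat_lit 10,nat_lit 9],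
    [nat_lit 13,nat_lit 10,nat_lit 13,nat_lit 14],[nat_lit 13,nat_lit 10,nat_lit 15,nat_lit 1],[nat_lit 13,nat_lit 11,
    nat_lit 8],[nat_lit 13,nat_lit 11,nat_lit 9],[nat_lit 13,nat_lit 11,nat_lit 15,nat_lit 12]],[[nat_lit 13,
    nat_lit 12,nat_lit 2],[nat_lit 13,nat_lit 12,nat_lit 3],[nat_lit 13,nat_lit 12,nat_lit 11,nat_lit 14],[nat_lit 13,
    nat_lit 12,nat_lit 11,nat_lit 15],[nat_lit 13,nat_lit 12,nat_lit 14,nat_lit 10],[nat_lit 13,nat_lit 12,nat_lit 15,
    nat_lit 10],[nat_lit 13,nat_lit 13,nat_lit 2],[nat_lit 13,nat_lit 13,nat_lit 3],[nat_lit 13,nat_lit 13,nat_lit 14,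
    nat_lit 10],[nat_lit 13,nat_lit 13,nat_lit 14,nat_lit 11],[nat_lit 13,nat_lit 14,nat_lit 5],[nat_lit 13,
    nat_lit 14,nat_lit 10,nat_lit 1]],[[nat_lit 13,nat_lit 14,nat_lit 10,nat_lit 12],[nat_lit 13,nat_lit 14,
    nat_lit 10,nat_lit 13],[nat_lit 13,nat_lit 14,nat_lit 11,nat_lit 13],[nat_lit 13,nat_lit 14,nat_lit 12,
    nat_lit 10],[nat_lit 13,nat_lit 14,nat_lit 12,nat_lit 11],[nat_lit 13,nat_lit 14,nat_lit 13,nat_lit 10],
    [nat_lit 13,nat_lit 15,nat_lit 4],[nat_lit 13,nat_lit 15,nat_lit 10,nat_lit 1],[nat_lit 13,nat_lit 15,nat_lit 12,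
    nat_lit 10],[nat_lit 13,nat_lit 15,nat_lit 12,nat_lit 11],[nat_lit 14,nat_lit 0,nat_lit 11,nat_lit 0],[nat_lit 14,
    nat_lit 0,nat_lit 11,nat_lit 12]],[[nat_lit 14,nat_lit 1,nat_lit 4],[nat_lit 14,nat_lit 4,nat_lit 12],[nat_lit 14,
    nat_lit 5,nat_lit 0],[nat_lit 14,nat_lit 5,nat_lit 12],[nat_lit 14,nat_lit 5,nat_lit 13],[nat_lit 14,nat_lit 6,
    nat_lit 10],[nat_lit 14,nat_lit 6,nat_lit 11],[nat_lit 14,nat_lit 10,nat_lit 0,nat_lit 0],[nat_lit 14,nat_lit 10,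
    nat_lit 1,nat_lit 13],[nat_lit 14,nat_lit 10,nat_lit 6],[nat_lit 14,nat_lit 10,nat_lit 7],[nat_lit 14,nat_lit 10,
    nat_lit 12,nat_lit 13]],[[nat_lit 14,nat_lit 10,nat_lit 13,nat_lit 12],[nat_lit 14,nat_lit 10,nat_lit 13,
    nat_lit 13],[nat_lit 14,nat_lit 11,nat_lit 6],[nat_lit 14,nat_lit 11,nat_lit 12,nat_lit 0],[nat_lit 14,nat_lit 11,
    nat_lit 13,nat_lit 13],[nat_lit 14,nat_lit 12,nat_lit 0,nat_lit 11],[nat_lit 14,nat_lit 12,nat_lit 5],[nat_lit 14,
    nat_lit 12,nat_lit 10,nat_lit 13],[nat_lit 14,nat_lit 12,nat_lit 11,nat_lit 13],[nat_lit 14,nat_lit 13,nat_lit 5],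
    [nat_lit 14,nat_lit 13,nat_lit 10,nat_lit 13],[nat_lit 14,nat_lit 13,nat_lit 12,nat_lit 11]],[[nat_lit 15,
    nat_lit 1,nat_lit 1,nat_lit 11],[nat_lit 15,nat_lit 1,nat_lit 4],[nat_lit 15,nat_lit 1,nat_lit 10,nat_lit 1],
    [nat_lit 15,nat_lit 1,nat_lit 13,nat_lit 10],[nat_lit 15,nat_lit 4,nat_lit 12],[nat_lit 15,nat_lit 4,nat_lit 13],
    [nat_lit 15,nat_lit 5,nat_lit 0],[nat_lit 15,nat_lit 6,nat_lit 11],[nat_lit 15,nat_lit 7,nat_lit 10],[nat_lit 15,
    nat_lit 7,nat_lit 11],[nat_lit 15,nat_lit 10,nat_lit 1,nat_lit 13],[nat_lit 15,nat_lit 10,nat_lit 7]],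
    [[nat_lit 15,nat_lit 10,nat_lit 13,nat_lit 12],[nat_lit 15,nat_lit 11,nat_lit 7],[nat_lit 15,nat_lit 12,nat_lit 0,
    nat_lit 11],[nat_lit 15,nat_lit 12,nat_lit 4],[nat_lit 15,nat_lit 12,nat_lit 10,nat_lit 13],[nat_lit 15,
    nat_lit 12,nat_lit 11,nat_lit 12],[nat_lit 15,nat_lit 12,nat_lit 11,nat_lit 13],[nat_lit 15,nat_lit 12,nat_lit 12,
    nat_lit 10],[nat_lit 15,nat_lit 12,nat_lit 12,nat_lit 11],[nat_lit 15,nat_lit 12,nat_lit 13,nat_lit 11],
    [nat_lit 15,nat_lit 13,nat_lit 4],[nat_lit 15,nat_lit 13,nat_lit 5]],[[nat_lit 15,nat_lit 13,nat_lit 10,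
    nat_lit 1],[nat_lit 15,nat_lit 13,nat_lit 12,nat_lit 11]]]
    [[nat_lit 12,nat_lit 39,nat_lit 91,nat_lit 94,nat_lit 130,nat_lit 136,nat_lit 141,nat_lit 149,nat_lit 154,
    nat_lit 198,nat_lit 238,nat_lit 242],[nat_lit 247,nat_lit 255,nat_lit 270,nat_lit 23,nat_lit 40,nat_lit 49,
    nat_lit 50,nat_lit 80,nat_lit 105,nat_lit 110,nat_lit 133,nat_lit 151],[nat_lit 199,nat_lit 212,nat_lit 227,
    nat_lit 235,nat_lit 266,nat_lit 288,nat_lit 9,nat_lit 24,nat_lit 62,nat_lit 69,nat_lit 185,nat_lit 216],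
    [nat_lit 222,nat_lit 63,nat_lit 70,nat_lit 158,nat_lit 162,nat_lit 186,nat_lit 217,nat_lit 223,nat_lit 78,
    nat_lit 89,nat_lit 192,nat_lit 195],[nat_lit 234,nat_lit 240,nat_lit 265,nat_lit 279,nat_lit 286,nat_lit 11,
    nat_lit 14,nat_lit 79,nat_lit 90,nat_lit 193,nat_lit 226,nat_lit 258],[nat_lit 261,nat_lit 287,nat_lit 32,
    nat_lit 37,nat_lit 125,nat_lit 148,nat_lit 152,nat_lit 249,nat_lit 254,nat_lit 33,nat_lit 38,nat_lit 127],
    [nat_lit 153,nat_lit 250,nat_lit 275,nat_lit 277,nat_lit 21,nat_lit 22,nat_lit 44,nat_lit 55,nat_lit 102,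
    nat_lit 115,nat_lit 139,nat_lit 143],[nat_lit 173,nat_lit 178,nat_lit 209,nat_lit 213,nat_lit 5,nat_lit 45,
    nat_lit 56,nat_lit 101,nat_lit 116,nat_lit 118,nat_lit 129,nat_lit 140],[nat_lit 144,nat_lit 174,nat_lit 210,
    nat_lit 214,nat_lit 0,nat_lit 2,nat_lit 19,nat_lit 26,nat_lit 27,nat_lit 28,nat_lit 29,nat_lit 67],[nat_lit 73,
    nat_lit 74,nat_lit 76,nat_lit 84,nat_lit 86,nat_lit 97,nat_lit 98,nat_lit 169,nat_lit 171,nat_lit 190,nat_lit 206,
    nat_lit 220],[nat_lit 221,nat_lit 224,nat_lit 231,nat_lit 233,nat_lit 236,nat_lit 245,nat_lit 267,nat_lit 272,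
    nat_lit 283,nat_lit 3,nat_lit 10,nat_lit 68],[nat_lit 75,nat_lit 77,nat_lit 85,nat_lit 87,nat_lit 88,nat_lit 99,
    nat_lit 161,nat_lit 170,nat_lit 172,nat_lit 191,nat_lit 197,nat_lit 205],[nat_lit 207,nat_lit 225,nat_lit 232,
    nat_lit 237,nat_lit 246,nat_lit 257,nat_lit 263,nat_lit 264,nat_lit 271,nat_lit 273,nat_lit 278,nat_lit 284],
    [nat_lit 285,nat_lit 289,nat_lit 1,nat_lit 7,nat_lit 8,nat_lit 13,nat_lit 16,nat_lit 34,nat_lit 35,nat_lit 41,
    nat_lit 42,nat_lit 51],[nat_lit 59,nat_lit 81,nat_lit 82,nat_lit 92,nat_lit 95,nat_lit 111,nat_lit 113,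
    nat_lit 122,nat_lit 124,nat_lit 128,nat_lit 134,nat_lit 142],[nat_lit 146,nat_lit 147,nat_lit 150,nat_lit 155,
    nat_lit 157,nat_lit 163,nat_lit 165,nat_lit 177,nat_lit 183,nat_lit 215,nat_lit 228,nat_lit 239],[nat_lit 241,
    nat_lit 243,nat_lit 252,nat_lit 268,nat_lit 276,nat_lit 281,nat_lit 30,nat_lit 31,nat_lit 36,nat_lit 43,
    nat_lit 52,nat_lit 60],[nat_lit 61,nat_lit 83,nat_lit 93,nat_lit 96,nat_lit 106,nat_lit 112,nat_lit 114,
    nat_lit 123,nat_lit 126,nat_lit 135,nat_lit 137,nat_lit 156],[nat_lit 164,nat_lit 166,nat_lit 182,nat_lit 184,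
    nat_lit 194,nat_lit 196,nat_lit 200,nat_lit 201,nat_lit 229,nat_lit 230,nat_lit 244,nat_lit 248],[nat_lit 251,
    nat_lit 253,nat_lit 256,nat_lit 259,nat_lit 260,nat_lit 262,nat_lit 269,nat_lit 274,nat_lit 280,nat_lit 282,
    nat_lit 4,nat_lit 6],[nat_lit 17,nat_lit 46,nat_lit 53,nat_lit 57,nat_lit 58,nat_lit 64,nat_lit 65,nat_lit 100,
    nat_lit 103,nat_lit 107,nat_lit 108,nat_lit 117],[nat_lit 119,nat_lit 121,nat_lit 131,nat_lit 138,nat_lit 145,
    nat_lit 159,nat_lit 168,nat_lit 175,nat_lit 180,nat_lit 203,nat_lit 211,nat_lit 218],[nat_lit 15,nat_lit 18,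
    nat_lit 20,nat_lit 25,nat_lit 47,nat_lit 48,nat_lit 54,nat_lit 66,nat_lit 71,nat_lit 72,nat_lit 104,nat_lit 109],
    [nat_lit 120,nat_lit 132,nat_lit 160,nat_lit 167,nat_lit 176,nat_lit 179,nat_lit 181,nat_lit 187,nat_lit 188,
    nat_lit 189,nat_lit 202,nat_lit 204],[nat_lit 208,nat_lit 219]]
    [[nat_lit 100,nat_lit 158,nat_lit 101,nat_lit 129,nat_lit 238,nat_lit 88,nat_lit 239,nat_lit 159,nat_lit 160,
    nat_lit 30,nat_lit 130,nat_lit 53],[nat_lit 0,nat_lit 161,nat_lit 54,nat_lit 264,nat_lit 162,nat_lit 240,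
    nat_lit 265,nat_lit 102,nat_lit 266,nat_lit 76,nat_lit 77,nat_lit 15],[nat_lit 31,nat_lit 267,nat_lit 103,
    nat_lit 104,nat_lit 105,nat_lit 106,nat_lit 198,nat_lit 199,nat_lit 62,nat_lit 69,nat_lit 163,nat_lit 164],
    [nat_lit 200,nat_lit 63,nat_lit 70,nat_lit 1,nat_lit 16,nat_lit 165,nat_lit 166,nat_lit 201,nat_lit 78,nat_lit 89,
    nat_lit 241,nat_lit 268],[nat_lit 269,nat_lit 17,nat_lit 18,nat_lit 167,nat_lit 202,nat_lit 242,nat_lit 270,
    nat_lit 79,nat_lit 90,nat_lit 243,nat_lit 244,nat_lit 168],[nat_lit 203,nat_lit 204,nat_lit 32,nat_lit 37,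
    nat_lit 245,nat_lit 246,nat_lit 271,nat_lit 107,nat_lit 131,nat_lit 33,nat_lit 38,nat_lit 272],[nat_lit 273,
    nat_lit 108,nat_lit 109,nat_lit 132,nat_lit 110,nat_lit 133,nat_lit 44,nat_lit 55,nat_lit 19,nat_lit 169,
    nat_lit 170,nat_lit 205],[nat_lit 111,nat_lit 134,nat_lit 112,nat_lit 135,nat_lit 136,nat_lit 45,nat_lit 56,
    nat_lit 2,nat_lit 171,nat_lit 206,nat_lit 3,nat_lit 172],[nat_lit 207,nat_lit 113,nat_lit 114,nat_lit 137,
    nat_lit 247,nat_lit 91,nat_lit 80,nat_lit 248,nat_lit 274,nat_lit 20,nat_lit 208,nat_lit 249],[nat_lit 250,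
    nat_lit 275,nat_lit 21,nat_lit 173,nat_lit 209,nat_lit 174,nat_lit 210,nat_lit 81,nat_lit 92,nat_lit 251,
    nat_lit 93,nat_lit 252],[nat_lit 276,nat_lit 253,nat_lit 175,nat_lit 211,nat_lit 176,nat_lit 64,nat_lit 212,
    nat_lit 71,nat_lit 177,nat_lit 94,nat_lit 4,nat_lit 254],[nat_lit 277,nat_lit 22,nat_lit 178,nat_lit 213,
    nat_lit 5,nat_lit 214,nat_lit 255,nat_lit 82,nat_lit 95,nat_lit 6,nat_lit 179,nat_lit 83],[nat_lit 96,nat_lit 256,
    nat_lit 180,nat_lit 181,nat_lit 65,nat_lit 7,nat_lit 182,nat_lit 23,nat_lit 66,nat_lit 72,nat_lit 8,nat_lit 183],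
    [nat_lit 215,nat_lit 184,nat_lit 39,nat_lit 257,nat_lit 278,nat_lit 138,nat_lit 40,nat_lit 185,nat_lit 216,
    nat_lit 186,nat_lit 217,nat_lit 279],[nat_lit 258,nat_lit 115,nat_lit 139,nat_lit 116,nat_lit 140,nat_lit 84,
    nat_lit 97,nat_lit 259,nat_lit 280,nat_lit 187,nat_lit 85,nat_lit 281],[nat_lit 260,nat_lit 282,nat_lit 218,
    nat_lit 188,nat_lit 219,nat_lit 34,nat_lit 41,nat_lit 283,nat_lit 284,nat_lit 285,nat_lit 117,nat_lit 141],
    [nat_lit 46,nat_lit 57,nat_lit 220,nat_lit 47,nat_lit 221,nat_lit 142,nat_lit 9,nat_lit 24,nat_lit 222,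
    nat_lit 223,nat_lit 286,nat_lit 261],[nat_lit 287,nat_lit 143,nat_lit 118,nat_lit 144,nat_lit 288,nat_lit 86,
    nat_lit 98,nat_lit 262,nat_lit 25,nat_lit 87,nat_lit 99,nat_lit 189],[nat_lit 35,nat_lit 42,nat_lit 263,
    nat_lit 289,nat_lit 119,nat_lit 120,nat_lit 36,nat_lit 43,nat_lit 121,nat_lit 145,nat_lit 58,nat_lit 26],
    [nat_lit 190,nat_lit 224,nat_lit 225,nat_lit 122,nat_lit 146,nat_lit 123,nat_lit 48,nat_lit 27,nat_lit 124,
    nat_lit 147,nat_lit 10,nat_lit 191],[nat_lit 49,nat_lit 192,nat_lit 11,nat_lit 193,nat_lit 226,nat_lit 125,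
    nat_lit 148,nat_lit 12,nat_lit 227,nat_lit 67,nat_lit 73,nat_lit 228],[nat_lit 194,nat_lit 229,nat_lit 68,
    nat_lit 13,nat_lit 230,nat_lit 149,nat_lit 59,nat_lit 231,nat_lit 232,nat_lit 60,nat_lit 233,nat_lit 150],
    [nat_lit 151,nat_lit 50,nat_lit 28,nat_lit 126,nat_lit 195,nat_lit 234,nat_lit 14,nat_lit 152,nat_lit 127,
    nat_lit 153,nat_lit 235,nat_lit 74],[nat_lit 196,nat_lit 75,nat_lit 154,nat_lit 51,nat_lit 236,nat_lit 197,
    nat_lit 237,nat_lit 128,nat_lit 155,nat_lit 156,nat_lit 52,nat_lit 61],[nat_lit 29,nat_lit 157]]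
    [[[],[],[nat_lit 250],[nat_lit 250],[],[],[],[],[],[nat_lit 246,nat_lit 257,nat_lit 263],[nat_lit 238,nat_lit 242,
    nat_lit 247,nat_lit 255],[nat_lit 238,nat_lit 242,nat_lit 247,nat_lit 255]],[[nat_lit 238,nat_lit 242,nat_lit 247,
    nat_lit 255],[nat_lit 238,nat_lit 242,nat_lit 247,nat_lit 255],[nat_lit 244,nat_lit 248,nat_lit 251,nat_lit 253,
    nat_lit 256,nat_lit 259,nat_lit 260,nat_lit 262],[],[nat_lit 40],[nat_lit 37],[nat_lit 37],[],[nat_lit 41,
    nat_lit 42],[nat_lit 41,nat_lit 42],[],[]],[[],[],[],[],[nat_lit 43],[nat_lit 43],[nat_lit 9],[],[],[nat_lit 11,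
    nat_lit 14],[nat_lit 4,nat_lit 6],[nat_lit 3,nat_lit 10]],[[nat_lit 3,nat_lit 10],[nat_lit 55],[],[nat_lit 53,
    nat_lit 57,nat_lit 58],[nat_lit 53,nat_lit 57,nat_lit 58],[nat_lit 53,nat_lit 57,nat_lit 58],[],[],[],
    [nat_lit 33],[],[]],[[],[],[nat_lit 30,nat_lit 31,nat_lit 36],[nat_lit 30,nat_lit 31,nat_lit 36],[nat_lit 30,
    nat_lit 31,nat_lit 36],[nat_lit 69],[nat_lit 69],[nat_lit 73,nat_lit 74],[],[],[nat_lit 75],[]],[[],[],[],
    [nat_lit 49,nat_lit 50],[nat_lit 51],[nat_lit 45],[nat_lit 45],[],[],[nat_lit 89],[],[nat_lit 92,nat_lit 95]],[[],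
    [nat_lit 91,nat_lit 94],[nat_lit 93,nat_lit 96],[nat_lit 93,nat_lit 96],[nat_lit 66],[nat_lit 66],[],[nat_lit 63],
    [],[],[],[]],[[nat_lit 64,nat_lit 65],[nat_lit 64,nat_lit 65],[nat_lit 68],[nat_lit 68],[],[nat_lit 148,
    nat_lit 152],[],[nat_lit 134,nat_lit 142,nat_lit 146,nat_lit 147,nat_lit 150,nat_lit 155,nat_lit 157],
    [nat_lit 134,nat_lit 142,nat_lit 146,nat_lit 147,nat_lit 150,nat_lit 155,nat_lit 157],[nat_lit 134,nat_lit 142,
    nat_lit 146,nat_lit 147,nat_lit 150,nat_lit 155,nat_lit 157],[nat_lit 129,nat_lit 140,nat_lit 144],[nat_lit 129,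
    nat_lit 140,nat_lit 144]],[[nat_lit 129,nat_lit 140,nat_lit 144],[nat_lit 131,nat_lit 138,nat_lit 145],[],[],[],
    [],[],[],[],[],[],[]],[[nat_lit 79],[nat_lit 79],[nat_lit 76,nat_lit 84,nat_lit 86],[nat_lit 76,nat_lit 84,
    nat_lit 86],[nat_lit 76,nat_lit 84,nat_lit 86],[],[],[],[],[],[nat_lit 77,nat_lit 85,nat_lit 87],[nat_lit 77,
    nat_lit 85,nat_lit 87]],[[nat_lit 77,nat_lit 85,nat_lit 87],[nat_lit 77,nat_lit 85,nat_lit 87],[nat_lit 77,
    nat_lit 85,nat_lit 87],[nat_lit 77,nat_lit 85,nat_lit 87],[nat_lit 77,nat_lit 85,nat_lit 87],[],[nat_lit 83],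
    [nat_lit 83],[nat_lit 83],[nat_lit 216,nat_lit 222],[nat_lit 216,nat_lit 222],[nat_lit 209,nat_lit 213]],
    [[nat_lit 226],[nat_lit 206,nat_lit 220,nat_lit 221,nat_lit 224,nat_lit 231,nat_lit 233,nat_lit 236],[nat_lit 206,
    nat_lit 220,nat_lit 221,nat_lit 224,nat_lit 231,nat_lit 233,nat_lit 236],[nat_lit 206,nat_lit 220,nat_lit 221,
    nat_lit 224,nat_lit 231,nat_lit 233,nat_lit 236],[],[],[nat_lit 203,nat_lit 211,nat_lit 218],[nat_lit 203,
    nat_lit 211,nat_lit 218],[nat_lit 203,nat_lit 211,nat_lit 218],[nat_lit 203,nat_lit 211,nat_lit 218],[nat_lit 203,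
    nat_lit 211,nat_lit 218],[nat_lit 205,nat_lit 207,nat_lit 225,nat_lit 232,nat_lit 237]],[[nat_lit 205,nat_lit 207,
    nat_lit 225,nat_lit 232,nat_lit 237],[nat_lit 205,nat_lit 207,nat_lit 225,nat_lit 232,nat_lit 237],[nat_lit 205,
    nat_lit 207,nat_lit 225,nat_lit 232,nat_lit 237],[nat_lit 205,nat_lit 207,nat_lit 225,nat_lit 232,nat_lit 237],
    [nat_lit 198],[nat_lit 198],[nat_lit 198],[nat_lit 200,nat_lit 201,nat_lit 229,nat_lit 230],[nat_lit 200,
    nat_lit 201,nat_lit 229,nat_lit 230],[nat_lit 200,nat_lit 201,nat_lit 229,nat_lit 230],[nat_lit 200,nat_lit 201,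
    nat_lit 229,nat_lit 230],[nat_lit 200,nat_lit 201,nat_lit 229,nat_lit 230]],[[nat_lit 200,nat_lit 201,nat_lit 229,
    nat_lit 230],[nat_lit 200,nat_lit 201,nat_lit 229,nat_lit 230],[],[],[],[],[nat_lit 104,nat_lit 109,nat_lit 120],
    [],[],[nat_lit 105,nat_lit 110],[nat_lit 105,nat_lit 110],[nat_lit 125]],[[],[],[],[nat_lit 127],[nat_lit 127],
    [nat_lit 111,nat_lit 113,nat_lit 122,nat_lit 124,nat_lit 128],[nat_lit 111,nat_lit 113,nat_lit 122,nat_lit 124,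
    nat_lit 128],[nat_lit 111,nat_lit 113,nat_lit 122,nat_lit 124,nat_lit 128],[nat_lit 111,nat_lit 113,nat_lit 122,
    nat_lit 124,nat_lit 128],[nat_lit 111,nat_lit 113,nat_lit 122,nat_lit 124,nat_lit 128],[nat_lit 101,nat_lit 116,
    nat_lit 118],[nat_lit 101,nat_lit 116,nat_lit 118]],[[nat_lit 101,nat_lit 116,nat_lit 118],[nat_lit 101,
    nat_lit 116,nat_lit 118],[nat_lit 101,nat_lit 116,nat_lit 118],[nat_lit 101,nat_lit 116,nat_lit 118],[nat_lit 101,
    nat_lit 116,nat_lit 118],[nat_lit 100,nat_lit 103,nat_lit 107,nat_lit 108,nat_lit 117,nat_lit 119,nat_lit 121],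
    [nat_lit 100,nat_lit 103,nat_lit 107,nat_lit 108,nat_lit 117,nat_lit 119,nat_lit 121],[nat_lit 100,nat_lit 103,
    nat_lit 107,nat_lit 108,nat_lit 117,nat_lit 119,nat_lit 121],[nat_lit 100,nat_lit 103,nat_lit 107,nat_lit 108,
    nat_lit 117,nat_lit 119,nat_lit 121],[],[],[]],[[],[],[],[nat_lit 106,nat_lit 112,nat_lit 114,nat_lit 123,
    nat_lit 126],[nat_lit 106,nat_lit 112,nat_lit 114,nat_lit 123,nat_lit 126],[nat_lit 106,nat_lit 112,nat_lit 114,
    nat_lit 123,nat_lit 126],[nat_lit 265,nat_lit 279,nat_lit 286],[nat_lit 265,nat_lit 279,nat_lit 286],[nat_lit 265,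
    nat_lit 279,nat_lit 286],[nat_lit 266,nat_lit 288],[],[]],[[],[nat_lit 267,nat_lit 272,nat_lit 283],[nat_lit 275,
    nat_lit 277],[nat_lit 275,nat_lit 277],[nat_lit 268,nat_lit 276,nat_lit 281],[nat_lit 268,nat_lit 276,
    nat_lit 281],[nat_lit 268,nat_lit 276,nat_lit 281],[nat_lit 268,nat_lit 276,nat_lit 281],[nat_lit 268,nat_lit 276,
    nat_lit 281],[],[],[]],[[],[],[],[],[],[],[nat_lit 264,nat_lit 271,nat_lit 273,nat_lit 278,nat_lit 284,
    nat_lit 285,nat_lit 289],[nat_lit 264,nat_lit 271,nat_lit 273,nat_lit 278,nat_lit 284,nat_lit 285,nat_lit 289],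
    [nat_lit 264,nat_lit 271,nat_lit 273,nat_lit 278,nat_lit 284,nat_lit 285,nat_lit 289],[nat_lit 264,nat_lit 271,
    nat_lit 273,nat_lit 278,nat_lit 284,nat_lit 285,nat_lit 289],[nat_lit 270],[nat_lit 270]],[[nat_lit 270],
    [nat_lit 270],[nat_lit 270],[nat_lit 270],[nat_lit 270],[nat_lit 270],[nat_lit 269,nat_lit 274,nat_lit 280,
    nat_lit 282],[nat_lit 269,nat_lit 274,nat_lit 280,nat_lit 282],[nat_lit 269,nat_lit 274,nat_lit 280,nat_lit 282],
    [nat_lit 269,nat_lit 274,nat_lit 280,nat_lit 282],[nat_lit 185],[nat_lit 185]],[[nat_lit 160,nat_lit 167,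
    nat_lit 176,nat_lit 179,nat_lit 181,nat_lit 187,nat_lit 188,nat_lit 189],[],[nat_lit 158,nat_lit 162,nat_lit 186],
    [nat_lit 158,nat_lit 162,nat_lit 186],[nat_lit 158,nat_lit 162,nat_lit 186],[nat_lit 173,nat_lit 178],
    [nat_lit 173,nat_lit 178],[nat_lit 163,nat_lit 165,nat_lit 177,nat_lit 183],[nat_lit 163,nat_lit 165,nat_lit 177,
    nat_lit 183],[nat_lit 163,nat_lit 165,nat_lit 177,nat_lit 183],[nat_lit 163,nat_lit 165,nat_lit 177,nat_lit 183],
    [nat_lit 163,nat_lit 165,nat_lit 177,nat_lit 183]],[[nat_lit 163,nat_lit 165,nat_lit 177,nat_lit 183],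
    [nat_lit 163,nat_lit 165,nat_lit 177,nat_lit 183],[nat_lit 174],[nat_lit 174],[nat_lit 174],[nat_lit 159,
    nat_lit 168,nat_lit 175,nat_lit 180],[nat_lit 159,nat_lit 168,nat_lit 175,nat_lit 180],[nat_lit 159,nat_lit 168,
    nat_lit 175,nat_lit 180],[nat_lit 159,nat_lit 168,nat_lit 175,nat_lit 180],[nat_lit 161,nat_lit 170,nat_lit 172,
    nat_lit 191,nat_lit 197],[nat_lit 161,nat_lit 170,nat_lit 172,nat_lit 191,nat_lit 197],[nat_lit 161,nat_lit 170,
    nat_lit 172,nat_lit 191,nat_lit 197]],[[nat_lit 15,nat_lit 18,nat_lit 20,nat_lit 25],[nat_lit 15,nat_lit 18,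
    nat_lit 20,nat_lit 25],[nat_lit 15,nat_lit 18,nat_lit 20,nat_lit 25],[nat_lit 15,nat_lit 18,nat_lit 20,
    nat_lit 25],[],[],[],[nat_lit 21,nat_lit 22],[],[],[nat_lit 16],[nat_lit 16]],[[nat_lit 16],[],[nat_lit 17],
    [nat_lit 17],[nat_lit 17],[nat_lit 17],[nat_lit 17],[nat_lit 17],[nat_lit 17],[nat_lit 17],[],[]],[[],[]]]
    (nat_lit 290) [nat_lit 0,nat_lit 1,nat_lit 2,nat_lit 3,nat_lit 4,nat_lit 5,nat_lit 6,nat_lit 7,nat_lit 8,
    nat_lit 9,nat_lit 10,nat_lit 11,nat_lit 12,nat_lit 13,nat_lit 14,nat_lit 15,nat_lit 16,nat_lit 17,nat_lit 18,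
    nat_lit 19,nat_lit 20,nat_lit 21,nat_lit 22,nat_lit 23,nat_lit 24,nat_lit 25,nat_lit 26,nat_lit 27,nat_lit 28,
    nat_lit 29,nat_lit 32,nat_lit 33,nat_lit 34,nat_lit 35,nat_lit 36,nat_lit 37,nat_lit 38,nat_lit 41,nat_lit 42,
    nat_lit 43,nat_lit 44,nat_lit 45,nat_lit 46,nat_lit 47,nat_lit 48,nat_lit 51,nat_lit 52,nat_lit 55,nat_lit 56,
    nat_lit 57,nat_lit 58,nat_lit 59,nat_lit 60,nat_lit 61,nat_lit 64,nat_lit 65,nat_lit 66,nat_lit 67,nat_lit 68,
    nat_lit 71,nat_lit 72,nat_lit 73,nat_lit 74,nat_lit 75,nat_lit 81,nat_lit 82,nat_lit 83,nat_lit 84,nat_lit 85,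
    nat_lit 86,nat_lit 87,nat_lit 92,nat_lit 93,nat_lit 95,nat_lit 96,nat_lit 97,nat_lit 98,nat_lit 99,nat_lit 117,
    nat_lit 119,nat_lit 120,nat_lit 121,nat_lit 122,nat_lit 123,nat_lit 124,nat_lit 128,nat_lit 142,nat_lit 145,
    nat_lit 146,nat_lit 147,nat_lit 150,nat_lit 155,nat_lit 156,nat_lit 157]
    [[[nat_lit 12],[],[nat_lit 9],[],[],[nat_lit 11,nat_lit 14],[],[],[],[nat_lit 5],[nat_lit 0,nat_lit 2],[nat_lit 3,
    nat_lit 10],[nat_lit 1,nat_lit 7,nat_lit 8,nat_lit 13],[],[nat_lit 4,nat_lit 6],[]],[[],[nat_lit 23],[nat_lit 24],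
    [],[],[],[],[],[nat_lit 21,nat_lit 22],[],[nat_lit 19,nat_lit 26,nat_lit 27,nat_lit 28,nat_lit 29],[],
    [nat_lit 16],[],[nat_lit 17],[nat_lit 15,nat_lit 18,nat_lit 20,nat_lit 25]],[[],[],[],[],[],[],[nat_lit 32],
    [nat_lit 33],[],[],[],[],[nat_lit 34,nat_lit 35],[nat_lit 30,nat_lit 31,nat_lit 36],[],[]],[[nat_lit 39],
    [nat_lit 40],[],[],[],[],[nat_lit 37],[nat_lit 38],[],[],[],[],[nat_lit 41,nat_lit 42],[nat_lit 43],[],[]],[[],
    [nat_lit 49,nat_lit 50],[],[],[],[],[],[],[nat_lit 44],[nat_lit 45],[],[],[nat_lit 51],[nat_lit 52],[nat_lit 46],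
    [nat_lit 47,nat_lit 48]],[[],[],[],[],[],[],[],[],[nat_lit 55],[nat_lit 56],[],[],[nat_lit 59],[nat_lit 60,
    nat_lit 61],[nat_lit 53,nat_lit 57,nat_lit 58],[nat_lit 54]],[[],[],[nat_lit 62],[nat_lit 63],[],[],[],[],[],[],
    [nat_lit 67],[nat_lit 68],[],[],[nat_lit 64,nat_lit 65],[nat_lit 66]],[[],[],[nat_lit 69],[nat_lit 70],[],[],[],
    [],[],[],[nat_lit 73,nat_lit 74],[nat_lit 75],[],[],[],[nat_lit 71,nat_lit 72]],[[],[nat_lit 80],[],[],
    [nat_lit 78],[nat_lit 79],[],[],[],[],[nat_lit 76,nat_lit 84,nat_lit 86],[nat_lit 77,nat_lit 85,nat_lit 87],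
    [nat_lit 81,nat_lit 82],[nat_lit 83],[],[]],[[nat_lit 91,nat_lit 94],[],[],[],[nat_lit 89],[nat_lit 90],[],[],[],
    [],[nat_lit 97,nat_lit 98],[nat_lit 88,nat_lit 99],[nat_lit 92,nat_lit 95],[nat_lit 93,nat_lit 96],[],[]],[[],
    [nat_lit 105,nat_lit 110],[],[],[],[],[nat_lit 125],[nat_lit 127],[nat_lit 102,nat_lit 115],[nat_lit 101,
    nat_lit 116,nat_lit 118],[],[],[nat_lit 111,nat_lit 113,nat_lit 122,nat_lit 124,nat_lit 128],[nat_lit 106,
    nat_lit 112,nat_lit 114,nat_lit 123,nat_lit 126],[nat_lit 100,nat_lit 103,nat_lit 107,nat_lit 108,nat_lit 117,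
    nat_lit 119,nat_lit 121],[nat_lit 104,nat_lit 109,nat_lit 120]],[[nat_lit 130,nat_lit 136,nat_lit 141,nat_lit 149,
    nat_lit 154],[nat_lit 133,nat_lit 151],[],[],[],[],[nat_lit 148,nat_lit 152],[nat_lit 153],[nat_lit 139,
    nat_lit 143],[nat_lit 129,nat_lit 140,nat_lit 144],[],[],[nat_lit 134,nat_lit 142,nat_lit 146,nat_lit 147,
    nat_lit 150,nat_lit 155,nat_lit 157],[nat_lit 135,nat_lit 137,nat_lit 156],[nat_lit 131,nat_lit 138,nat_lit 145],
    [nat_lit 132]],[[],[],[nat_lit 185],[nat_lit 158,nat_lit 162,nat_lit 186],[nat_lit 192,nat_lit 195],[nat_lit 193],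
    [],[],[nat_lit 173,nat_lit 178],[nat_lit 174],[nat_lit 169,nat_lit 171,nat_lit 190],[nat_lit 161,nat_lit 170,
    nat_lit 172,nat_lit 191,nat_lit 197],[nat_lit 163,nat_lit 165,nat_lit 177,nat_lit 183],[nat_lit 164,nat_lit 166,
    nat_lit 182,nat_lit 184,nat_lit 194,nat_lit 196],[nat_lit 159,nat_lit 168,nat_lit 175,nat_lit 180],[nat_lit 160,
    nat_lit 167,nat_lit 176,nat_lit 179,nat_lit 181,nat_lit 187,nat_lit 188,nat_lit 189]],[[nat_lit 198],[nat_lit 199,
    nat_lit 212,nat_lit 227,nat_lit 235],[nat_lit 216,nat_lit 222],[nat_lit 217,nat_lit 223],[nat_lit 234],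
    [nat_lit 226],[],[],[nat_lit 209,nat_lit 213],[nat_lit 210,nat_lit 214],[nat_lit 206,nat_lit 220,nat_lit 221,
    nat_lit 224,nat_lit 231,nat_lit 233,nat_lit 236],[nat_lit 205,nat_lit 207,nat_lit 225,nat_lit 232,nat_lit 237],
    [nat_lit 215,nat_lit 228],[nat_lit 200,nat_lit 201,nat_lit 229,nat_lit 230],[nat_lit 203,nat_lit 211,nat_lit 218],
    [nat_lit 202,nat_lit 204,nat_lit 208,nat_lit 219]],[[nat_lit 238,nat_lit 242,nat_lit 247,nat_lit 255],[],[],[],
    [nat_lit 240],[nat_lit 258,nat_lit 261],[nat_lit 249,nat_lit 254],[nat_lit 250],[],[],[nat_lit 245],[nat_lit 246,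
    nat_lit 257,nat_lit 263],[nat_lit 239,nat_lit 241,nat_lit 243,nat_lit 252],[nat_lit 244,nat_lit 248,nat_lit 251,
    nat_lit 253,nat_lit 256,nat_lit 259,nat_lit 260,nat_lit 262],[],[]],[[nat_lit 270],[nat_lit 266,nat_lit 288],[],
    [],[nat_lit 265,nat_lit 279,nat_lit 286],[nat_lit 287],[],[nat_lit 275,nat_lit 277],[],[],[nat_lit 267,
    nat_lit 272,nat_lit 283],[nat_lit 264,nat_lit 271,nat_lit 273,nat_lit 278,nat_lit 284,nat_lit 285,nat_lit 289],
    [nat_lit 268,nat_lit 276,nat_lit 281],[nat_lit 269,nat_lit 274,nat_lit 280,nat_lit 282],[],[]]]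
    [[[nat_lit 0,nat_lit 0,nat_lit 0x400000000000000000000000000000000000000000000000000000000000000,
    nat_lit 0x400000000000000000000000000000000000000000000000000000000000000,nat_lit 0,nat_lit 0,nat_lit 0,nat_lit 0,
    nat_lit 0],[nat_lit 0x820040000000000000000000000000000000000000000000000000000000000000,
    nat_lit 0x8084400000000000000000000000000000000000000000000000000000000000,
    nat_lit 0x8084400000000000000000000000000000000000000000000000000000000000,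
    nat_lit 0x8084400000000000000000000000000000000000000000000000000000000000,
    nat_lit 0x8084400000000000000000000000000000000000000000000000000000000000,
    nat_lit 0x592910000000000000000000000000000000000000000000000000000000000000,nat_lit 0,nat_lit 0x10000000000,
    nat_lit 0x2000000000],[nat_lit 0x2000000000,nat_lit 0,nat_lit 0x60000000000,nat_lit 0x60000000000,nat_lit 0,
    nat_lit 0,nat_lit 0,nat_lit 0,nat_lit 0],[nat_lit 0,nat_lit 0x80000000000,nat_lit 0x80000000000,nat_lit 512,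
    nat_lit 0,nat_lit 0,nat_lit 0x4800,nat_lit 80,nat_lit 0x408],[nat_lit 0x408,nat_lit 0x80000000000000,nat_lit 0,
    nat_lit 0x620000000000000,nat_lit 0x620000000000000,nat_lit 0x620000000000000,nat_lit 0,nat_lit 0,nat_lit 0],
    [nat_lit 0x200000000,nat_lit 0,nat_lit 0,nat_lit 0,nat_lit 0,nat_lit 0x10c0000000,nat_lit 0x10c0000000,
    nat_lit 0x10c0000000,nat_lit 0x200000000000000000],[nat_lit 0x200000000000000000,nat_lit 0x6000000000000000000,
    nat_lit 0,nat_lit 0,nat_lit 0x8000000000000000000,nat_lit 0,nat_lit 0,nat_lit 0,nat_lit 0],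
    [nat_lit 0x6000000000000,nat_lit 0x8000000000000,nat_lit 0x200000000000,nat_lit 0x200000000000,nat_lit 0,
    nat_lit 0,nat_lit 0x20000000000000000000000,nat_lit 0,nat_lit 0x900000000000000000000000],[nat_lit 0,
    nat_lit 0x480000000000000000000000,nat_lit 0x1200000000000000000000000,nat_lit 0x1200000000000000000000000,
    nat_lit 0x40000000000000000,nat_lit 0x40000000000000000,nat_lit 0,nat_lit 0x8000000000000000,nat_lit 0]],
    [[nat_lit 0,nat_lit 0,nat_lit 0,nat_lit 0x30000000000000000,nat_lit 0x30000000000000000,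
    nat_lit 0x100000000000000000,nat_lit 0x100000000000000000,nat_lit 0,
    nat_lit 0x110000000000000000000000000000000000000],[nat_lit 0,nat_lit 0x284c404000000000000000000000000000000000,
    nat_lit 0x284c404000000000000000000000000000000000,nat_lit 0x284c404000000000000000000000000000000000,
    nat_lit 0x1100200000000000000000000000000000000,nat_lit 0x1100200000000000000000000000000000000,
    nat_lit 0x1100200000000000000000000000000000000,nat_lit 0x2040800000000000000000000000000000000,nat_lit 0],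
    [nat_lit 0,nat_lit 0,nat_lit 0,nat_lit 0,nat_lit 0,nat_lit 0,nat_lit 0,nat_lit 0,nat_lit 0],
    [nat_lit 0x80000000000000000000,nat_lit 0x80000000000000000000,nat_lit 0x5010000000000000000000,
    nat_lit 0x5010000000000000000000,nat_lit 0x5010000000000000000000,nat_lit 0,nat_lit 0,nat_lit 0,nat_lit 0],
    [nat_lit 0,nat_lit 0xa020000000000000000000,nat_lit 0xa020000000000000000000,nat_lit 0xa020000000000000000000,
    nat_lit 0xa020000000000000000000,nat_lit 0xa020000000000000000000,nat_lit 0xa020000000000000000000,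
    nat_lit 0xa020000000000000000000,nat_lit 0],[nat_lit 0x800000000000000000000,nat_lit 0x800000000000000000000,
    nat_lit 0x800000000000000000000,nat_lit 0x41000000000000000000000000000000000000000000000000000000,
    nat_lit 0x41000000000000000000000000000000000000000000000000000000,
    nat_lit 0x220000000000000000000000000000000000000000000000000000,
    nat_lit 0x400000000000000000000000000000000000000000000000000000000,
    nat_lit 0x128130004000000000000000000000000000000000000000000000000000,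
    nat_lit 0x128130004000000000000000000000000000000000000000000000000000],
    [nat_lit 0x128130004000000000000000000000000000000000000000000000000000,nat_lit 0,nat_lit 0,
    nat_lit 0x4080800000000000000000000000000000000000000000000000000,
    nat_lit 0x4080800000000000000000000000000000000000000000000000000,
    nat_lit 0x4080800000000000000000000000000000000000000000000000000,
    nat_lit 0x4080800000000000000000000000000000000000000000000000000,
    nat_lit 0x4080800000000000000000000000000000000000000000000000000,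
    nat_lit 0x21020000a000000000000000000000000000000000000000000000000000],
    [nat_lit 0x21020000a000000000000000000000000000000000000000000000000000,
    nat_lit 0x21020000a000000000000000000000000000000000000000000000000000,
    nat_lit 0x21020000a000000000000000000000000000000000000000000000000000,
    nat_lit 0x21020000a000000000000000000000000000000000000000000000000000,
    nat_lit 0x40000000000000000000000000000000000000000000000000,
    nat_lit 0x40000000000000000000000000000000000000000000000000,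
    nat_lit 0x40000000000000000000000000000000000000000000000000,
    nat_lit 0x6000000300000000000000000000000000000000000000000000000000,
    nat_lit 0x6000000300000000000000000000000000000000000000000000000000],
    [nat_lit 0x6000000300000000000000000000000000000000000000000000000000,
    nat_lit 0x6000000300000000000000000000000000000000000000000000000000,
    nat_lit 0x6000000300000000000000000000000000000000000000000000000000,
    nat_lit 0x6000000300000000000000000000000000000000000000000000000000,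
    nat_lit 0x6000000300000000000000000000000000000000000000000000000000,nat_lit 0,nat_lit 0,nat_lit 0,nat_lit 0]],
    [[nat_lit 0x1002100000000000000000000000000,nat_lit 0,nat_lit 0,nat_lit 0x4200000000000000000000000000,
    nat_lit 0x4200000000000000000000000000,nat_lit 0x20000000000000000000000000000000,nat_lit 0,nat_lit 0,nat_lit 0],
    [nat_lit 0x80000000000000000000000000000000,nat_lit 0x80000000000000000000000000000000,
    nat_lit 0x114028000000000000000000000000000,nat_lit 0x114028000000000000000000000000000,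
    nat_lit 0x114028000000000000000000000000000,nat_lit 0x114028000000000000000000000000000,
    nat_lit 0x114028000000000000000000000000000,nat_lit 0x500020000000000000000000000000,
    nat_lit 0x500020000000000000000000000000],[nat_lit 0x500020000000000000000000000000,
    nat_lit 0x500020000000000000000000000000,nat_lit 0x500020000000000000000000000000,
    nat_lit 0x500020000000000000000000000000,nat_lit 0x500020000000000000000000000000,
    nat_lit 0x2a01890000000000000000000000000,nat_lit 0x2a01890000000000000000000000000,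
    nat_lit 0x2a01890000000000000000000000000,nat_lit 0x2a01890000000000000000000000000],[nat_lit 0,nat_lit 0,
    nat_lit 0,nat_lit 0,nat_lit 0,nat_lit 0,nat_lit 0x48050400000000000000000000000000,
    nat_lit 0x48050400000000000000000000000000,nat_lit 0x48050400000000000000000000000000],
    [nat_lit 0x408002000000000000000000000000000000000000000000000000000000000000000000,
    nat_lit 0x408002000000000000000000000000000000000000000000000000000000000000000000,
    nat_lit 0x408002000000000000000000000000000000000000000000000000000000000000000000,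
    nat_lit 0x1000004000000000000000000000000000000000000000000000000000000000000000000,nat_lit 0,nat_lit 0,nat_lit 0,
    nat_lit 0x80108000000000000000000000000000000000000000000000000000000000000000000,
    nat_lit 0x2800000000000000000000000000000000000000000000000000000000000000000000],
    [nat_lit 0x2800000000000000000000000000000000000000000000000000000000000000000000,
    nat_lit 0x21010000000000000000000000000000000000000000000000000000000000000000000,
    nat_lit 0x21010000000000000000000000000000000000000000000000000000000000000000000,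
    nat_lit 0x21010000000000000000000000000000000000000000000000000000000000000000000,
    nat_lit 0x21010000000000000000000000000000000000000000000000000000000000000000000,
    nat_lit 0x21010000000000000000000000000000000000000000000000000000000000000000000,nat_lit 0,nat_lit 0,nat_lit 0],
    [nat_lit 0,nat_lit 0,nat_lit 0,nat_lit 0,nat_lit 0,nat_lit 0,
    nat_lit 0x2304281000000000000000000000000000000000000000000000000000000000000000000,
    nat_lit 0x2304281000000000000000000000000000000000000000000000000000000000000000000,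
    nat_lit 0x2304281000000000000000000000000000000000000000000000000000000000000000000],
    [nat_lit 0x2304281000000000000000000000000000000000000000000000000000000000000000000,
    nat_lit 0x40000000000000000000000000000000000000000000000000000000000000000000,
    nat_lit 0x40000000000000000000000000000000000000000000000000000000000000000000,
    nat_lit 0x40000000000000000000000000000000000000000000000000000000000000000000,
    nat_lit 0x40000000000000000000000000000000000000000000000000000000000000000000,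
    nat_lit 0x40000000000000000000000000000000000000000000000000000000000000000000,
    nat_lit 0x40000000000000000000000000000000000000000000000000000000000000000000,
    nat_lit 0x40000000000000000000000000000000000000000000000000000000000000000000,
    nat_lit 0x40000000000000000000000000000000000000000000000000000000000000000000],
    [nat_lit 0x50420000000000000000000000000000000000000000000000000000000000000000000,
    nat_lit 0x50420000000000000000000000000000000000000000000000000000000000000000000,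
    nat_lit 0x50420000000000000000000000000000000000000000000000000000000000000000000,
    nat_lit 0x50420000000000000000000000000000000000000000000000000000000000000000000,
    nat_lit 0x20000000000000000000000000000000000000000000000,
    nat_lit 0x20000000000000000000000000000000000000000000000,
    nat_lit 0x382900810000000000000000000000000000000000000000,nat_lit 0,
    nat_lit 0x40000044000000000000000000000000000000000000000]],
    [[nat_lit 0x40000044000000000000000000000000000000000000000,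
    nat_lit 0x40000044000000000000000000000000000000000000000,nat_lit 0x420000000000000000000000000000000000000000000,
    nat_lit 0x420000000000000000000000000000000000000000000,nat_lit 0x8200280000000000000000000000000000000000000000,
    nat_lit 0x8200280000000000000000000000000000000000000000,nat_lit 0x8200280000000000000000000000000000000000000000,
    nat_lit 0x8200280000000000000000000000000000000000000000,
    nat_lit 0x8200280000000000000000000000000000000000000000],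
    [nat_lit 0x8200280000000000000000000000000000000000000000,
    nat_lit 0x8200280000000000000000000000000000000000000000,nat_lit 0x40000000000000000000000000000000000000000000,
    nat_lit 0x40000000000000000000000000000000000000000000,nat_lit 0x40000000000000000000000000000000000000000000,
    nat_lit 0x1081008000000000000000000000000000000000000000,nat_lit 0x1081008000000000000000000000000000000000000000,
    nat_lit 0x1081008000000000000000000000000000000000000000,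
    nat_lit 0x1081008000000000000000000000000000000000000000],
    [nat_lit 0x20800014020000000000000000000000000000000000000000,
    nat_lit 0x20800014020000000000000000000000000000000000000000,
    nat_lit 0x20800014020000000000000000000000000000000000000000,nat_lit 0x2148000,nat_lit 0x2148000,
    nat_lit 0x2148000,nat_lit 0x2148000,nat_lit 0,nat_lit 0],[nat_lit 0,nat_lit 0x600000,nat_lit 0,nat_lit 0,
    nat_lit 0x10000,nat_lit 0x10000,nat_lit 0x10000,nat_lit 0,nat_lit 0x20000],[nat_lit 0x20000,nat_lit 0x20000,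
    nat_lit 0x20000,nat_lit 0x20000,nat_lit 0x20000,nat_lit 0x20000,nat_lit 0x20000,nat_lit 0,nat_lit 0],[nat_lit 0,
    nat_lit 0]]]
    [[[[nat_lit 0,nat_lit 0,nat_lit 0x400000000000000000000000000000000000000000000000000000000000000,
    nat_lit 0x400000000000000000000000000000000000000000000000000000000000000,nat_lit 0,nat_lit 0,nat_lit 0,nat_lit 0,
    nat_lit 0],[nat_lit 0x800040000000000000000000000000000000000000000000000000000000000000,
    nat_lit 0x4400000000000000000000000000000000000000000000000000000000000,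
    nat_lit 0x4400000000000000000000000000000000000000000000000000000000000,
    nat_lit 0x4400000000000000000000000000000000000000000000000000000000000,
    nat_lit 0x4400000000000000000000000000000000000000000000000000000000000,nat_lit 0,nat_lit 0,nat_lit 0x10000000000,
    nat_lit 0],[nat_lit 0x2000000000,nat_lit 0,nat_lit 0,nat_lit 0x20000000000,nat_lit 0,nat_lit 0,nat_lit 0,
    nat_lit 0,nat_lit 0],[nat_lit 0,nat_lit 0x80000000000,nat_lit 0,nat_lit 512,nat_lit 0,nat_lit 0,nat_lit 0x800,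
    nat_lit 16,nat_lit 0],[nat_lit 8,nat_lit 0x80000000000000,nat_lit 0,nat_lit 0,nat_lit 0x420000000000000,
    nat_lit 0x420000000000000,nat_lit 0,nat_lit 0,nat_lit 0],[nat_lit 0x200000000,nat_lit 0,nat_lit 0,nat_lit 0,
    nat_lit 0,nat_lit 0x1040000000,nat_lit 0x1040000000,nat_lit 0,nat_lit 0x200000000000000000],
    [nat_lit 0x200000000000000000,nat_lit 0x6000000000000000000,nat_lit 0,nat_lit 0,nat_lit 0,nat_lit 0,nat_lit 0,
    nat_lit 0,nat_lit 0],[nat_lit 0x6000000000000,nat_lit 0,nat_lit 0x200000000000,nat_lit 0x200000000000,nat_lit 0,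
    nat_lit 0,nat_lit 0x20000000000000000000000,nat_lit 0,nat_lit 0],[nat_lit 0,nat_lit 0x400000000000000000000000,
    nat_lit 0x1200000000000000000000000,nat_lit 0,nat_lit 0x40000000000000000,nat_lit 0,nat_lit 0,
    nat_lit 0x8000000000000000,nat_lit 0]],[[nat_lit 0,nat_lit 0,nat_lit 0,nat_lit 0x20000000000000000,
    nat_lit 0x20000000000000000,nat_lit 0,nat_lit 0,nat_lit 0,nat_lit 0x110000000000000000000000000000000000000],
    [nat_lit 0,nat_lit 0,nat_lit 0,nat_lit 0x804004000000000000000000000000000000000,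
    nat_lit 0x1000200000000000000000000000000000000,nat_lit 0x1000200000000000000000000000000000000,
    nat_lit 0x1000200000000000000000000000000000000,nat_lit 0x2040000000000000000000000000000000000,nat_lit 0],
    [nat_lit 0,nat_lit 0,nat_lit 0,nat_lit 0,nat_lit 0,nat_lit 0,nat_lit 0,nat_lit 0,nat_lit 0],
    [nat_lit 0x80000000000000000000,nat_lit 0x80000000000000000000,nat_lit 0x5010000000000000000000,
    nat_lit 0x5010000000000000000000,nat_lit 0,nat_lit 0,nat_lit 0,nat_lit 0,nat_lit 0],[nat_lit 0,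
    nat_lit 0x2000000000000000000000,nat_lit 0,nat_lit 0,nat_lit 0x2000000000000000000000,nat_lit 0,nat_lit 0,
    nat_lit 0x2000000000000000000000,nat_lit 0],[nat_lit 0x800000000000000000000,nat_lit 0,
    nat_lit 0x800000000000000000000,nat_lit 0x40000000000000000000000000000000000000000000000000000000,
    nat_lit 0x40000000000000000000000000000000000000000000000000000000,nat_lit 0,
    nat_lit 0x400000000000000000000000000000000000000000000000000000000,
    nat_lit 0x128130004000000000000000000000000000000000000000000000000000,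
    nat_lit 0x128130004000000000000000000000000000000000000000000000000000],[nat_lit 0,nat_lit 0,nat_lit 0,nat_lit 0,
    nat_lit 0,nat_lit 0,nat_lit 0,nat_lit 0x4080000000000000000000000000000000000000000000000000000,
    nat_lit 0x210000008000000000000000000000000000000000000000000000000000],
    [nat_lit 0x210000008000000000000000000000000000000000000000000000000000,
    nat_lit 0x210000008000000000000000000000000000000000000000000000000000,nat_lit 0,
    nat_lit 0x210000008000000000000000000000000000000000000000000000000000,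
    nat_lit 0x40000000000000000000000000000000000000000000000000,
    nat_lit 0x40000000000000000000000000000000000000000000000000,
    nat_lit 0x40000000000000000000000000000000000000000000000000,
    nat_lit 0x6000000100000000000000000000000000000000000000000000000000,
    nat_lit 0x6000000100000000000000000000000000000000000000000000000000],[nat_lit 0,
    nat_lit 0x6000000100000000000000000000000000000000000000000000000000,
    nat_lit 0x6000000100000000000000000000000000000000000000000000000000,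
    nat_lit 0x6000000100000000000000000000000000000000000000000000000000,nat_lit 0,nat_lit 0,nat_lit 0,nat_lit 0,
    nat_lit 0]],[[nat_lit 0x1002100000000000000000000000000,nat_lit 0,nat_lit 0,
    nat_lit 0x4200000000000000000000000000,nat_lit 0,nat_lit 0x20000000000000000000000000000000,nat_lit 0,nat_lit 0,
    nat_lit 0],[nat_lit 0,nat_lit 0,nat_lit 0x104028000000000000000000000000000,nat_lit 0,
    nat_lit 0x104028000000000000000000000000000,nat_lit 0x104028000000000000000000000000000,nat_lit 0,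
    nat_lit 0x400020000000000000000000000000,nat_lit 0x400020000000000000000000000000],
    [nat_lit 0x400020000000000000000000000000,nat_lit 0x400020000000000000000000000000,
    nat_lit 0x400020000000000000000000000000,nat_lit 0x400020000000000000000000000000,
    nat_lit 0x400020000000000000000000000000,nat_lit 0,nat_lit 0x2201090000000000000000000000000,
    nat_lit 0x2201090000000000000000000000000,nat_lit 0x2201090000000000000000000000000],[nat_lit 0,nat_lit 0,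
    nat_lit 0,nat_lit 0,nat_lit 0,nat_lit 0,nat_lit 0,nat_lit 0x8000000000000000000000000000000,
    nat_lit 0x8000000000000000000000000000000],
    [nat_lit 0x8000000000000000000000000000000000000000000000000000000000000000000000,nat_lit 0,
    nat_lit 0x8002000000000000000000000000000000000000000000000000000000000000000000,nat_lit 0,nat_lit 0,nat_lit 0,
    nat_lit 0,nat_lit 0,nat_lit 0x2800000000000000000000000000000000000000000000000000000000000000000000],
    [nat_lit 0x2800000000000000000000000000000000000000000000000000000000000000000000,nat_lit 0,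
    nat_lit 0x20000000000000000000000000000000000000000000000000000000000000000000000,nat_lit 0,
    nat_lit 0x20000000000000000000000000000000000000000000000000000000000000000000000,nat_lit 0,nat_lit 0,nat_lit 0,
    nat_lit 0],[nat_lit 0,nat_lit 0,nat_lit 0,nat_lit 0,nat_lit 0,nat_lit 0,
    nat_lit 0x2100080000000000000000000000000000000000000000000000000000000000000000000,
    nat_lit 0x2100080000000000000000000000000000000000000000000000000000000000000000000,nat_lit 0],[nat_lit 0,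
    nat_lit 0x40000000000000000000000000000000000000000000000000000000000000000000,
    nat_lit 0x40000000000000000000000000000000000000000000000000000000000000000000,
    nat_lit 0x40000000000000000000000000000000000000000000000000000000000000000000,
    nat_lit 0x40000000000000000000000000000000000000000000000000000000000000000000,
    nat_lit 0x40000000000000000000000000000000000000000000000000000000000000000000,
    nat_lit 0x40000000000000000000000000000000000000000000000000000000000000000000,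
    nat_lit 0x40000000000000000000000000000000000000000000000000000000000000000000,
    nat_lit 0x40000000000000000000000000000000000000000000000000000000000000000000],[nat_lit 0,
    nat_lit 0x50000000000000000000000000000000000000000000000000000000000000000000000,
    nat_lit 0x50000000000000000000000000000000000000000000000000000000000000000000000,
    nat_lit 0x50000000000000000000000000000000000000000000000000000000000000000000000,nat_lit 0,nat_lit 0,
    nat_lit 0x382900810000000000000000000000000000000000000000,nat_lit 0,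
    nat_lit 0x40000000000000000000000000000000000000000000000]],[[nat_lit 0,
    nat_lit 0x40000040000000000000000000000000000000000000000,nat_lit 0x420000000000000000000000000000000000000000000,
    nat_lit 0x420000000000000000000000000000000000000000000,nat_lit 0,nat_lit 0,nat_lit 0,
    nat_lit 0x280000000000000000000000000000000000000000,nat_lit 0],
    [nat_lit 0x280000000000000000000000000000000000000000,nat_lit 0x280000000000000000000000000000000000000000,
    nat_lit 0,nat_lit 0,nat_lit 0,nat_lit 0,nat_lit 0,nat_lit 0x1080008000000000000000000000000000000000000000,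
    nat_lit 0x1080008000000000000000000000000000000000000000],[nat_lit 0,
    nat_lit 0x20000010000000000000000000000000000000000000000000,nat_lit 0,nat_lit 0,nat_lit 0x2148000,
    nat_lit 0x2148000,nat_lit 0,nat_lit 0,nat_lit 0],[nat_lit 0,nat_lit 0x600000,nat_lit 0,nat_lit 0,nat_lit 0,
    nat_lit 0x10000,nat_lit 0x10000,nat_lit 0,nat_lit 0],[nat_lit 0,nat_lit 0,nat_lit 0,nat_lit 0,nat_lit 0,nat_lit 0,
    nat_lit 0,nat_lit 0,nat_lit 0],[nat_lit 0,nat_lit 0]]],[[[nat_lit 0,nat_lit 0,nat_lit 0,nat_lit 0,nat_lit 0,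
    nat_lit 0,nat_lit 0,nat_lit 0,nat_lit 0],[nat_lit 0,nat_lit 0,
    nat_lit 0x4000000000000000000000000000000000000000000000000000000000000,nat_lit 0,nat_lit 0,nat_lit 0,nat_lit 0,
    nat_lit 0,nat_lit 0],[nat_lit 0,nat_lit 0,nat_lit 0,nat_lit 0,nat_lit 0,nat_lit 0,nat_lit 0,nat_lit 0,nat_lit 0],
    [nat_lit 0,nat_lit 0,nat_lit 0,nat_lit 0,nat_lit 0,nat_lit 0,nat_lit 0,nat_lit 0,nat_lit 0],[nat_lit 0,nat_lit 0,
    nat_lit 0,nat_lit 0,nat_lit 0,nat_lit 0x20000000000000,nat_lit 0,nat_lit 0,nat_lit 0],[nat_lit 0,nat_lit 0,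
    nat_lit 0,nat_lit 0,nat_lit 0,nat_lit 0x1000000000,nat_lit 0,nat_lit 0,nat_lit 0x200000000000000000],[nat_lit 0,
    nat_lit 0,nat_lit 0,nat_lit 0,nat_lit 0,nat_lit 0,nat_lit 0,nat_lit 0,nat_lit 0],[nat_lit 0x4000000000000,
    nat_lit 0,nat_lit 0,nat_lit 0,nat_lit 0,nat_lit 0,nat_lit 0x20000000000000000000000,nat_lit 0,nat_lit 0],
    [nat_lit 0,nat_lit 0,nat_lit 0,nat_lit 0,nat_lit 0,nat_lit 0,nat_lit 0,nat_lit 0x8000000000000000,nat_lit 0]],
    [[nat_lit 0,nat_lit 0,nat_lit 0,nat_lit 0,nat_lit 0,nat_lit 0,nat_lit 0,nat_lit 0,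
    nat_lit 0x10000000000000000000000000000000000000],[nat_lit 0,nat_lit 0,nat_lit 0,nat_lit 0,nat_lit 0,nat_lit 0,
    nat_lit 0,nat_lit 0,nat_lit 0],[nat_lit 0,nat_lit 0,nat_lit 0,nat_lit 0,nat_lit 0,nat_lit 0,nat_lit 0,nat_lit 0,
    nat_lit 0],[nat_lit 0,nat_lit 0x80000000000000000000,nat_lit 0,nat_lit 0,nat_lit 0,nat_lit 0,nat_lit 0,nat_lit 0,
    nat_lit 0],[nat_lit 0,nat_lit 0,nat_lit 0,nat_lit 0,nat_lit 0,nat_lit 0,nat_lit 0,nat_lit 0,nat_lit 0],[nat_lit 0,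
    nat_lit 0,nat_lit 0,nat_lit 0,nat_lit 0x40000000000000000000000000000000000000000000000000000000,nat_lit 0,
    nat_lit 0,nat_lit 0,nat_lit 0x100000000000000000000000000000000000000000000000000000000],[nat_lit 0,nat_lit 0,
    nat_lit 0,nat_lit 0,nat_lit 0,nat_lit 0,nat_lit 0,nat_lit 0,nat_lit 0],[nat_lit 0,nat_lit 0,nat_lit 0,nat_lit 0,
    nat_lit 0,nat_lit 0,nat_lit 0,nat_lit 0,nat_lit 0],[nat_lit 0,nat_lit 0,nat_lit 0,nat_lit 0,nat_lit 0,nat_lit 0,
    nat_lit 0,nat_lit 0,nat_lit 0]],[[nat_lit 0,nat_lit 0,nat_lit 0,nat_lit 0x200000000000000000000000000,nat_lit 0,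
    nat_lit 0,nat_lit 0,nat_lit 0,nat_lit 0],[nat_lit 0,nat_lit 0,nat_lit 0,nat_lit 0,nat_lit 0,nat_lit 0,nat_lit 0,
    nat_lit 0,nat_lit 0],[nat_lit 0,nat_lit 0,nat_lit 0,nat_lit 0x400000000000000000000000000000,nat_lit 0,nat_lit 0,
    nat_lit 0,nat_lit 0,nat_lit 0],[nat_lit 0,nat_lit 0,nat_lit 0,nat_lit 0,nat_lit 0,nat_lit 0,nat_lit 0,nat_lit 0,
    nat_lit 0],[nat_lit 0,nat_lit 0,nat_lit 0,nat_lit 0,nat_lit 0,nat_lit 0,nat_lit 0,nat_lit 0,
    nat_lit 0x800000000000000000000000000000000000000000000000000000000000000000000],[nat_lit 0,nat_lit 0,nat_lit 0,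
    nat_lit 0,nat_lit 0,nat_lit 0,nat_lit 0,nat_lit 0,nat_lit 0],[nat_lit 0,nat_lit 0,nat_lit 0,nat_lit 0,nat_lit 0,
    nat_lit 0,nat_lit 0x100000000000000000000000000000000000000000000000000000000000000000000000,nat_lit 0,nat_lit 0],
    [nat_lit 0,nat_lit 0,nat_lit 0,nat_lit 0,nat_lit 0,nat_lit 0,nat_lit 0,nat_lit 0,nat_lit 0],[nat_lit 0,nat_lit 0,
    nat_lit 0,nat_lit 0,nat_lit 0,nat_lit 0,nat_lit 0,nat_lit 0,nat_lit 0]],[[nat_lit 0,nat_lit 0,nat_lit 0,
    nat_lit 0x400000000000000000000000000000000000000000000,nat_lit 0,nat_lit 0,nat_lit 0,nat_lit 0,nat_lit 0],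
    [nat_lit 0,nat_lit 0x200000000000000000000000000000000000000000,nat_lit 0,nat_lit 0,nat_lit 0,nat_lit 0,nat_lit 0,
    nat_lit 0,nat_lit 0],[nat_lit 0,nat_lit 0,nat_lit 0,nat_lit 0,nat_lit 0x40000,nat_lit 0,nat_lit 0,nat_lit 0,
    nat_lit 0],[nat_lit 0,nat_lit 0,nat_lit 0,nat_lit 0,nat_lit 0,nat_lit 0,nat_lit 0,nat_lit 0,nat_lit 0],[nat_lit 0,
    nat_lit 0,nat_lit 0,nat_lit 0,nat_lit 0,nat_lit 0,nat_lit 0,nat_lit 0,nat_lit 0],[nat_lit 0,nat_lit 0]]]]
    (nat_lit 2) (nat_lit 1) (nat_lit 81)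
    [[nat_lit 2,nat_lit 17,nat_lit 257,nat_lit 0x10001,nat_lit 0x10101,nat_lit 0x100001,nat_lit 0x100101,
    nat_lit 0x1100001,nat_lit 0x10100001,nat_lit 0x1000001,nat_lit 0x1000101,nat_lit 0x11000001,nat_lit 0x10000001],
    [nat_lit 32,nat_lit 272,nat_lit 0x10010,nat_lit 0x1010010,nat_lit 0x110010,nat_lit 0x100010,nat_lit 0x101010,
    nat_lit 0x1100010,nat_lit 0x10100010,nat_lit 0x1000010,nat_lit 0x10000010,nat_lit 0x11000010,nat_lit 0x20000010],
    [nat_lit 512,nat_lit 0x1100,nat_lit 0x101100,nat_lit 0x100100,nat_lit 0x1100100,nat_lit 0x10100100,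
    nat_lit 0x1000100,nat_lit 0x2000100,nat_lit 0x10000100,nat_lit 0x20000100],[nat_lit 0x2000,nat_lit 0x3000,
    nat_lit 0x102000,nat_lit 0x1002000,nat_lit 0x11000,nat_lit 0x101000,nat_lit 0x1101000,nat_lit 0x201000,
    nat_lit 0x1001000,nat_lit 0x10001000],[nat_lit 0x20000,nat_lit 0x1020000,nat_lit 0x110000,nat_lit 0x1010000,
    nat_lit 0x2010000,nat_lit 0x10010000,nat_lit 0x10110000,nat_lit 0x11010000],[nat_lit 0x200000,nat_lit 0x300000,
    nat_lit 0x1200000,nat_lit 0x1100000,nat_lit 0x2100000,nat_lit 0x11100000,nat_lit 0x10100000,nat_lit 0x10200000,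
    nat_lit 0x20100000],[nat_lit 0x2000000,nat_lit 0x3000000,nat_lit 0x12000000,nat_lit 0x11000000,
    nat_lit 0x21000000],[nat_lit 0x20000000,nat_lit 0x30000000]]
    [.c (nat_lit 1) (nat_lit 2),.c (nat_lit 0) (nat_lit 0x11003),.c (nat_lit 0) (nat_lit 0x80000803),
    .c (nat_lit 0) (nat_lit 0xc0318043),.c (nat_lit 0) (nat_lit 0xc6000002),.c (nat_lit 0) (nat_lit 0xc6318843),
    .c (nat_lit 3) (nat_lit 0x104210062),.c (nat_lit 0) (nat_lit 0xc6318043),.c (nat_lit 0) (nat_lit 0xc6318843),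
    .c (nat_lit 1) (nat_lit 0x802),.r (nat_lit 0xdb8) (nat_lit 5) [nat_lit 0x1080210061,nat_lit 0x4018041],
    .c (nat_lit 0) (nat_lit 0xc6318043),.c (nat_lit 0) (nat_lit 0x80000803),.c (nat_lit 2) (nat_lit 2),
    .r (nat_lit 0xdb3) (nat_lit 3) [nat_lit 0x1084200061,nat_lit 0x210001],.r (nat_lit 0xdb8) (nat_lit 5) [nat_lit 65,
    nat_lit 0x1084200061],.c (nat_lit 0) (nat_lit 0x6018002),.r (nat_lit 0xdb5) (nat_lit 11) [nat_lit 0x1800000861,
    nat_lit 65],.r (nat_lit 0xdb7) (nat_lit 10) [nat_lit 65,nat_lit 0x1800000861],.c (nat_lit 0) (nat_lit 0x318002),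
    .r (nat_lit 0xdb3) (nat_lit 3) [nat_lit 0x1800018861,nat_lit 0x210001],.c (nat_lit 2) (nat_lit 0x84220862),
    .c (nat_lit 0) (nat_lit 0x10005),.r (nat_lit 0xc3c) (nat_lit 14) [nat_lit 65,nat_lit 0x4200001,
    nat_lit 0x1080000001,nat_lit 0x1806318801,nat_lit 0x18c0318801],
    .r (nat_lit 0xdb8) (nat_lit 5) [nat_lit 0x80000041,nat_lit 0x1004200061],
    .r (nat_lit 0xdb8) (nat_lit 5) [nat_lit 0x100200042,nat_lit 0x2008200062],.c (nat_lit 3) (nat_lit 2),
    .r (nat_lit 0xdb8) (nat_lit 5) [nat_lit 0x1084200061,nat_lit 65],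
    .r (nat_lit 0xdda) (nat_lit 6) [nat_lit 0x6000001,nat_lit 0x6020001,nat_lit 0x4200001,nat_lit 0x1065290a1,
    nat_lit 0x1445290a1,nat_lit 0x4104421481],.r (nat_lit 0xdec) (nat_lit 10) [nat_lit 0x18c0000041,
    nat_lit 0x86318861,nat_lit 0x86300861,nat_lit 0x1080000001,nat_lit 0x144210c41,nat_lit 0x148621481],
    .c (nat_lit 3) (nat_lit 0x104210862),.r (nat_lit 0xdb3) (nat_lit 3) [nat_lit 0x318861,nat_lit 0x210001],
    .c (nat_lit 0) (nat_lit 0x80000003),.r (nat_lit 0xdb8) (nat_lit 5) [nat_lit 0x1080200061,nat_lit 0x4000041],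
    .c (nat_lit 0) (nat_lit 0x80000803),.r (nat_lit 0xdb8) (nat_lit 5) [nat_lit 0x1880200041,nat_lit 0x2004000061],
    .c (nat_lit 4) (nat_lit 2),.r (nat_lit 0xa5c) (nat_lit 10) [nat_lit 0x3180000001,nat_lit 65,nat_lit 0xc600061,
    nat_lit 0xe030041,nat_lit 0x300c000061],.r (nat_lit 0xc3c) (nat_lit 14) [nat_lit 0x18c4018861,nat_lit 0x4200001,
    nat_lit 0x1080000001,nat_lit 0x1806318801,nat_lit 0x18c0318801],
    .r (nat_lit 0x428) (nat_lit 11) [nat_lit 0x5008000061,nat_lit 0xa000041,nat_lit 0xaaceb5a861,nat_lit 0x5280000001,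
    nat_lit 0x4000081,nat_lit 0x10a000a1],.r (nat_lit 0xdb3) (nat_lit 3) [nat_lit 65,nat_lit 0x210001],
    .c (nat_lit 0) (nat_lit 0xc6018c43),.r (nat_lit 0xdb8) (nat_lit 5) [nat_lit 0x1800018861,nat_lit 0x2084210c41],
    .c (nat_lit 3) (nat_lit 0x2082210a2),.r (nat_lit 0xdb5) (nat_lit 11) [nat_lit 0x10041,nat_lit 0x1800018861],
    .c (nat_lit 0) (nat_lit 0xc6018c43),.c (nat_lit 5) (nat_lit 2),
    .r (nat_lit 0xdec) (nat_lit 10) [nat_lit 0x1806318861,nat_lit 65,nat_lit 0x10041,nat_lit 0x1080000001,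
    nat_lit 0xc0000061,nat_lit 0x2000a1],.c (nat_lit 0) (nat_lit 0xc0318043),.c (nat_lit 0) (nat_lit 0xc0318c43),
    .r (nat_lit 0xdb3) (nat_lit 3) [nat_lit 0x4000041,nat_lit 0x210001],
    .r (nat_lit 0xdda) (nat_lit 6) [nat_lit 0x6000001,nat_lit 0x6020001,nat_lit 0x4200001,nat_lit 0x106000081,
    nat_lit 0x144000081,nat_lit 0x41040000a1],.r (nat_lit 0xdb8) (nat_lit 5) [nat_lit 0x1084410c41,nat_lit 0x318861],
    .c (nat_lit 3) (nat_lit 0x104000003),.c (nat_lit 6) (nat_lit 2),.r (nat_lit 0xde8) (nat_lit 12) [nat_lit 65,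
    nat_lit 0x4200001,nat_lit 0x6020001,nat_lit 0x6000001,nat_lit 0xc30cc63481,nat_lit 0x39c0739861],
    .r (nat_lit 0xdec) (nat_lit 10) [nat_lit 0x1004210c41,nat_lit 0x280a529061,nat_lit 0x280a519061,
    nat_lit 0x1080000001,nat_lit 0x20c8421441,nat_lit 0x4010a42481],.c (nat_lit 0) (nat_lit 0xc6318c45),
    .c (nat_lit 0) (nat_lit 0xc6318c43),.c (nat_lit 0) (nat_lit 0xc6318043),.c (nat_lit 0) (nat_lit 0xc6318843),
    .r (nat_lit 0xdb7) (nat_lit 10) [nat_lit 0x1084410c41,nat_lit 0x28c6519061],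
    .r (nat_lit 0xc3c) (nat_lit 14) [nat_lit 0x1084410c41,nat_lit 0x4200001,nat_lit 0x1080000001,nat_lit 0x1806318801,
    nat_lit 0x18c0318801],.c (nat_lit 7) (nat_lit 2),.r (nat_lit 0xdb5) (nat_lit 11) [nat_lit 0x4010041,
    nat_lit 0x1806018861],.c (nat_lit 0) (nat_lit 0xc6318c43),.c (nat_lit 0) (nat_lit 0x80000003),
    .r (nat_lit 0xdda) (nat_lit 6) [nat_lit 0x6000001,nat_lit 0x6020001,nat_lit 0x4200001,nat_lit 0x206000081,
    nat_lit 0x4000081,nat_lit 0x40040000a1],.c (nat_lit 8) (nat_lit 2),.r (nat_lit 0xde0) (nat_lit 11) [nat_lit 65,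
    nat_lit 0x10001,nat_lit 0x200001,nat_lit 0x4000001,nat_lit 0x180000041,nat_lit 0x3000000061]]]

/-- nodes -/
noncomputable def rD8k_20_1 : List RJ :=
  [.l (nat_lit 11) (nat_lit 480) (nat_lit 3) (nat_lit 0xe7000000e7000000e7000000e7000000ef000000ef00000120000000fc000000e7000000e7000000e4000000e4000000e2000000e2000000d7000000d7) (nat_lit 0x390000003900000039000000390000003100000031000000240000000000000039000000390000003c0000003c0000003e0000003e0000004900000049)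
    (nat_lit 0x1402484209c17c2c8618f31743185a8ab1262a44f09a15c280570ae0f02d87691d12c2004c8bf1422dc580a215c270570ae1002d8789251342104e8c314a2ec560a615c210610ae16c2d85d8ef16c308438ab12228c5109016c2c85b0b616c2a85b8ef16c2f85c8ab17e354680be0f02f85b08017c2d8658ef2444a8598b31622c44d0a623a3cc779251de3bc441201ce39c720781c4388678d71da30c5d8f11962dc6c08818630c600c81842d04d8a5100318610842542f8618e714c2b85a8ab16e2a44f09a12c2e85b09a2442d8618e71342985b8ab16e2a44f09e17e2ac558c31662ac640781562ac540bc14c2684788d1322d44389d1662e4600e416e2d4500a81682984d89b16e2a4518bb1623545a0e21522a45309a1482b04788b14224c488a51622fc610e216e2dc5a0a61402904e899144268480a614c2f8528d713c2684d88d13222c52092160278510ac1343404d8cf13c2784d88f13a23c550a4)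
    (nat_lit 0x140780f01e03c0780f01e03c0780f01e03c0780f01e0124280f01e03c0780f01e03c0780f01e03c0780f01e01082b8571e03c0780f01e03c0780f01e03c0780f01e01382b8570ae3c0780f01e03c0780f01e03c0780f01e017c1e0400b616c780f01e03c0780f01e03c0780f01e01642d85b0b61542d8f01e03c0780f01e03c0780f01e01863b4788bb16e32c441e03c0780f01e03c0780f01e01e6474928ef1de3bc900883c0780f01e03c0780f01e01742584d0b616c488738c314c780f01e03c0780f01e018c200420c217c4a8738c315c298f01e03c0780f01e016a2644e8871722cc720c016a2dc541e03c0780f01e01562fc618ab1562cc3c0c81562ac5e0a83c0780f01e01262845289117e2c4710c216e2dc530b4148780f01e01522dc5d8a31aa2c4710b41522a44d0a6158290f01e013c2c0560a21a02686789b13c2784789b11e274521e01342885309017c2986b8a51342784689b116264490a4)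
    (nat_lit 4) (nat_lit 98)
    [[nat_lit 2,nat_lit 18,nat_lit 258,nat_lit 0x1002,nat_lit 17,nat_lit 33,nat_lit 273,nat_lit 0x1000011,
    nat_lit 0x10000011,nat_lit 257,nat_lit 513,nat_lit 0x1000101,nat_lit 0x10000101,nat_lit 0x10101,nat_lit 0x1001,
    nat_lit 0x2001,nat_lit 0x1001001,nat_lit 0x10001001,nat_lit 0x10001,nat_lit 0x100001,nat_lit 0x1000001,
    nat_lit 0x11000001,nat_lit 0x10000001,nat_lit 0x10100001],[nat_lit 32,nat_lit 272,nat_lit 0x1010,
    nat_lit 0x1001010,nat_lit 0x10010,nat_lit 0x100010,nat_lit 0x1000010,nat_lit 0x1000110,nat_lit 0x10000010,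
    nat_lit 0x10000110,nat_lit 0x10001010],[nat_lit 512,nat_lit 0x1100,nat_lit 0x10100,nat_lit 0x20100,
    nat_lit 0x100100,nat_lit 0x10100100,nat_lit 0x1000100,nat_lit 0x1010100,nat_lit 0x1001100,nat_lit 0x1100100,
    nat_lit 0x10000100,nat_lit 0x10010100],[nat_lit 0x2000,nat_lit 0x11000,nat_lit 0x1001000,nat_lit 0x11001000,
    nat_lit 0x10001000,nat_lit 0x20001000],[nat_lit 0x20000,nat_lit 0x30000,nat_lit 0x110000],[nat_lit 0x200000,
    nat_lit 0x1100000,nat_lit 0x11100000,nat_lit 0x10100000,nat_lit 0x20100000],[nat_lit 0x2000000,nat_lit 0x11000000,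
    nat_lit 0x21000000],[nat_lit 0x20000000]]
    [.c (nat_lit 1) (nat_lit 2),.c (nat_lit 0) (nat_lit 0x553543),.c (nat_lit 0) (nat_lit 0x553543),
    .r (nat_lit 0x1100) (nat_lit 14) [nat_lit 0x20220031,nat_lit 33,nat_lit 0x200031,nat_lit 0x2224301,
    nat_lit 0x333201],.c (nat_lit 0) (nat_lit 0x3555545),.c (nat_lit 0) (nat_lit 0x3575543),
    .c (nat_lit 0) (nat_lit 0x2550545),.c (nat_lit 5) (nat_lit 0x233023),.c (nat_lit 5) (nat_lit 0x233323),
    .c (nat_lit 0) (nat_lit 0x330323),.r (nat_lit 0xdb5) (nat_lit 14) [nat_lit 0x30030021,nat_lit 0x20242031],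
    .c (nat_lit 0) (nat_lit 0x330023),.c (nat_lit 0) (nat_lit 0x330323),
    .r (nat_lit 0xdb7) (nat_lit 13) [nat_lit 0x22220031,nat_lit 0x33002021],.c (nat_lit 5) (nat_lit 0x2420003),
    .r (nat_lit 0xdb5) (nat_lit 14) [nat_lit 0x20420031,nat_lit 0x30302021],
    .r (nat_lit 0xd41) (nat_lit 4) [nat_lit 0x37979621,nat_lit 0x40464051,nat_lit 0x600001,nat_lit 0x26202031,
    nat_lit 0x30304021],.r (nat_lit 0xd41) (nat_lit 4) [nat_lit 0x37977621,nat_lit 0x40460051,nat_lit 0x600001,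
    nat_lit 0x26200031,nat_lit 0x30306021],.c (nat_lit 0) (nat_lit 0x33323),.c (nat_lit 0) (nat_lit 0x3555543),
    .c (nat_lit 0) (nat_lit 0x330023),.r (nat_lit 0x1100) (nat_lit 14) [nat_lit 0x22031,nat_lit 0x20203021,
    nat_lit 0x30002031,nat_lit 0x2224301,nat_lit 0x333201],.c (nat_lit 0) (nat_lit 0x330323),
    .r (nat_lit 0xf5d) (nat_lit 4) [nat_lit 0x2222301,nat_lit 0x2224301,nat_lit 0x3333221,nat_lit 0x333201,
    nat_lit 0x2422331],.c (nat_lit 2) (nat_lit 2),.c (nat_lit 0) (nat_lit 0x330323),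
    .r (nat_lit 0xf3f) (nat_lit 10) [nat_lit 0x35033231,nat_lit 0x2000001,nat_lit 0x35533221,nat_lit 0x24422321,
    nat_lit 0x24033231],.c (nat_lit 4) (nat_lit 0x2242032),.c (nat_lit 0) (nat_lit 0x33323),
    .c (nat_lit 0) (nat_lit 0x3555545),.c (nat_lit 0) (nat_lit 0x3353023),.c (nat_lit 0) (nat_lit 0x330023),
    .c (nat_lit 0) (nat_lit 0x3353323),.c (nat_lit 0) (nat_lit 0x330323),.c (nat_lit 4) (nat_lit 0x2242232),
    .c (nat_lit 3) (nat_lit 2),.c (nat_lit 0) (nat_lit 0x2022003),.r (nat_lit 0xd41) (nat_lit 4) [nat_lit 0x5757631,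
    nat_lit 0x5020041,nat_lit 0x600001,nat_lit 0x4030021,nat_lit 0x2026031],.c (nat_lit 5) (nat_lit 0x403002),
    .r (nat_lit 0xdb5) (nat_lit 14) [nat_lit 33,nat_lit 0x222031],.r (nat_lit 0xdb7) (nat_lit 13) [nat_lit 0x220031,
    nat_lit 0x2021],.c (nat_lit 0) (nat_lit 0x2405),.c (nat_lit 5) (nat_lit 0x203302),
    .c (nat_lit 0) (nat_lit 0x3355522),.r (nat_lit 0xdb7) (nat_lit 13) [nat_lit 0x222031,nat_lit 33],
    .c (nat_lit 0) (nat_lit 0x2005),.c (nat_lit 5) (nat_lit 0x203002),.c (nat_lit 4) (nat_lit 2),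
    .c (nat_lit 0) (nat_lit 0x3553322),.r (nat_lit 0xdb7) (nat_lit 13) [nat_lit 0x3021,nat_lit 0x224031],
    .r (nat_lit 0xdb5) (nat_lit 14) [nat_lit 0x222031,nat_lit 33],.r (nat_lit 0xdb7) (nat_lit 13) [nat_lit 33,
    nat_lit 0x222031],.r (nat_lit 0xdb5) (nat_lit 14) [nat_lit 0x220031,nat_lit 0x2021],.c (nat_lit 5) (nat_lit 2),
    .c (nat_lit 0) (nat_lit 0xd06004),.r (nat_lit 0xdb7) (nat_lit 13) [nat_lit 0x2200031,nat_lit 0x3022021],
    .c (nat_lit 6) (nat_lit 2),.c (nat_lit 0) (nat_lit 0x3333023),.c (nat_lit 0) (nat_lit 0x2000302),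
    .c (nat_lit 0) (nat_lit 0x3333323),.c (nat_lit 0) (nat_lit 0x2000002),.c (nat_lit 7) (nat_lit 2),
    .c (nat_lit 5) (nat_lit 0x400203),.r (nat_lit 0xd41) (nat_lit 4) [nat_lit 0x7779621,nat_lit 0x64051,
    nat_lit 0x600001,nat_lit 0x6002031,nat_lit 0x4021],.c (nat_lit 8) (nat_lit 2)],
    .l (nat_lit 14) (nat_lit 0xf00) (nat_lit 3) (nat_lit 0x713000007130000071500000715000006f7000006f7000006ff000006ff000006ff000006ff0000072b0000072b000008ee000008ee000006fe000006fe) (nat_lit 0x1db000001db000001d9000001d9000001f7000001f7000001ef000001ef000001ef000001ef000001c3000001c30000000000000000000001f0000001f0)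
    (nat_lit 0x14e04b814e84ca1480530150054014a052815405401ad43c0148c52d144053814e853a15005081540524149052412705ac1c4c713164c4b514e84ca1540564147851e149850213284fa15485521e0c7c9149452514e853a14f055014b851e1498526145852613085421cdc77d144448b1420530147851e140050014204f8146050813305441e44787141c4e5150052014b851e14005001420508142051813305341de476f13ac48d1490540149850214204f814005101440510131053c1de4767142c48d1540540149852614205081400500144051014f053c1e64787142c50f149052814984fa14605081440510144052012d053c1bfc6ff13cc475149052814584ca142051814405101440510155053c17204e7147c51516b0540150855214d054414f053c14f053c1e005681c9471314dc6721270550130855213304cc14f04c415504b426607801cac72b22389c91c4c3c01df47c91dbc7871e1c767139c6ff1cac71311804be1bf86fe1c4c6b51cdc7831de47911e6477917206ff1cac72523b84601bd06fe12d452d122c52512344e5143c48d145447527246721bf86fe15b050e164c523144452513ac507142c50b147c4f322385371bd06fe163856c)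
    (nat_lit 0x14e0f003c00f003c00f003c00f003c00f003c00f003c00f003c00f0012e05383c00f003c00f003c00f003c00f003c00f003c00f003c00f0014e853a1540f003c00f003c00f003c00f003c00f003c00f003c00f00132853a15905503c00f003c00f003c00f003c00f003c00f003c00f001480540147852e1400f003c00f003c00f003c00f003c00f003c00f0014c0508147851e14005003c00f003c00f003c00f003c00f003c00f001500550149852614205081400f003c00f003c00f003c00f003c00f001500524140852613e050814405003c00f003c00f003c00f003c00f0014a05241328516146050814405101440f003c00f003c00f003c00f0014a052413e85261420518144051014805103c00f003c00f003c00f00154049c15484c213304cc131053c12d05541e00f003c00f003c00f0015005ac1548542151053414f053c14f053c15a07803c00f003c00f001ad47131e0c7371e447791de47991bfc5c81c9472b1180f003c00f000f007131f2477d1e1c76f1d9c7871bfc4e71c4c72b12f84603c00f00148c5931494511141c4eb142c50b13cc51f14dc88e1bf86f415b0f0014b44b5149448b139448d123450f11d451519c89591bf86fe143856c)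
    (nat_lit 5) (nat_lit 69)
    [[nat_lit 2,nat_lit 17,nat_lit 0x100101,nat_lit 0x1001,nat_lit 0x2001,nat_lit 0x11001,nat_lit 0x101001,
    nat_lit 0x1001001,nat_lit 0x10001001,nat_lit 0x10001,nat_lit 0x20001,nat_lit 0x110001,nat_lit 0x1010001,
    nat_lit 0x100001,nat_lit 0x200001,nat_lit 0x1100001,nat_lit 0x10100001,nat_lit 0x1000001,nat_lit 0x11000001,
    nat_lit 0x10000001],[nat_lit 32,nat_lit 48,nat_lit 272,nat_lit 0x1010,nat_lit 0x10001010,nat_lit 0x10000010],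
    [nat_lit 0x1100,nat_lit 0x1001100,nat_lit 0x10100,nat_lit 0x100100,nat_lit 0x1000100,nat_lit 0x10000100,
    nat_lit 0x11000100],[nat_lit 0x2000,nat_lit 0x11000,nat_lit 0x101000,nat_lit 0x1001000,nat_lit 0x10001000],
    [nat_lit 0x20000,nat_lit 0x110000,nat_lit 0x1010000,nat_lit 0x10010000],[nat_lit 0x200000,nat_lit 0x1100000,
    nat_lit 0x10100000],[nat_lit 0x2000000,nat_lit 0x11000000],[nat_lit 0x20000000]]
    [.c (nat_lit 1) (nat_lit 2),.r (nat_lit 0xdba) (nat_lit 5) [nat_lit 0x1080000003,nat_lit 0x18000198e3],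
    .c (nat_lit 1) (nat_lit 0xc6020cc7),.c (nat_lit 0) (nat_lit 0xe042019),.c (nat_lit 1) (nat_lit 0x11406),
    .c (nat_lit 0) (nat_lit 0x10003100d),.c (nat_lit 0) (nat_lit 0x14a51018d),
    .r (nat_lit 0xdc2) (nat_lit 5) [nat_lit 0x1080000003,nat_lit 65],
    .r (nat_lit 0xdb5) (nat_lit 5) [nat_lit 0x1080000003,nat_lit 0x18c00018e3],.c (nat_lit 0) (nat_lit 0x80020007),
    .r (nat_lit 0xdba) (nat_lit 5) [nat_lit 0x1080000003,nat_lit 0x38c05198c3],
    .r (nat_lit 0xdba) (nat_lit 5) [nat_lit 0x1080000003,nat_lit 0x18043000c3],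
    .r (nat_lit 0xdbe) (nat_lit 10) [nat_lit 0x1806319803,nat_lit 0x18043000c3],.c (nat_lit 0) (nat_lit 0xc6310cc7),
    .r (nat_lit 0xdba) (nat_lit 5) [nat_lit 0x1080000003,nat_lit 0x1088011cc3],
    .r (nat_lit 0xdbe) (nat_lit 10) [nat_lit 0x1806319803,nat_lit 0x1088011cc3],
    .r (nat_lit 0xdb7) (nat_lit 5) [nat_lit 0x1806319803,nat_lit 0x2084211cc3],
    .r (nat_lit 0x487) (nat_lit 10) [nat_lit 0x1000040003,nat_lit 0x4020003,nat_lit 0x80048003,nat_lit 0x228003,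
    nat_lit 0x2580e3,nat_lit 0x3200c3],.r (nat_lit 0xdb6) (nat_lit 10) [nat_lit 0x1806319803,nat_lit 0x10042100e3],
    .r (nat_lit 0x488) (nat_lit 1) [nat_lit 0x18c6331803,nat_lit 0x2580e3,nat_lit 0x3200c3,nat_lit 0x228003,
    nat_lit 0x80048003,nat_lit 0x4020003],.c (nat_lit 2) (nat_lit 2),
    .r (nat_lit 0x489) (nat_lit 11) [nat_lit 0x1c00000c2,nat_lit 0x280a52b0a1,nat_lit 0x21000000a1,nat_lit 0xc0040042,
    nat_lit 0x88000061,nat_lit 129],.c (nat_lit 0) (nat_lit 0x650000c),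
    .r (nat_lit 0xdb6) (nat_lit 10) [nat_lit 0x1806319803,nat_lit 0x10840200e3],
    .r (nat_lit 0xdb4) (nat_lit 11) [nat_lit 0x4200003,nat_lit 0x63018e3],
    .r (nat_lit 0x48a) (nat_lit 1) [nat_lit 0x18c6331803,nat_lit 0x800780e3,nat_lit 0xc00400c3,nat_lit 0x228003,
    nat_lit 0x80048003,nat_lit 0x4020003],.c (nat_lit 0) (nat_lit 0x20100d),
    .r (nat_lit 0xdb7) (nat_lit 5) [nat_lit 0x1806319803,nat_lit 0x10042100e3],
    .r (nat_lit 0xdba) (nat_lit 5) [nat_lit 0x1080000003,nat_lit 0x28c63198c3],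
    .r (nat_lit 0xdba) (nat_lit 5) [nat_lit 0x1080000003,nat_lit 65],
    .r (nat_lit 0xdbe) (nat_lit 10) [nat_lit 0x1806319803,nat_lit 65],
    .r (nat_lit 0xdb7) (nat_lit 5) [nat_lit 0x1806319803,nat_lit 0x10062000c3],.c (nat_lit 0) (nat_lit 0x300004),
    .c (nat_lit 4) (nat_lit 2),.c (nat_lit 0) (nat_lit 0x80002007),.c (nat_lit 0) (nat_lit 0xc63198c7),
    .c (nat_lit 0) (nat_lit 0x6000807),.c (nat_lit 0) (nat_lit 0x80000807),.c (nat_lit 5) (nat_lit 2),
    .c (nat_lit 2) (nat_lit 0x4318cc7),.c (nat_lit 0) (nat_lit 0x80000009),.c (nat_lit 0) (nat_lit 0x80000007),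
    .c (nat_lit 6) (nat_lit 2),.c (nat_lit 0) (nat_lit 0xc6318cc9),.c (nat_lit 0) (nat_lit 0xc6318cc7),
    .c (nat_lit 7) (nat_lit 2),.c (nat_lit 0) (nat_lit 0x6000009),.c (nat_lit 8) (nat_lit 2)]]

/-- nodes -/
noncomputable def rD8k_20_2 : List RJ :=
  [.l (nat_lit 16) (nat_lit 0x21c0) (nat_lit 4) (nat_lit 0x12cd000012cd0000106c00000f9200000fb600000fb600000d7000001420000011060000127400000f6b00000f6b00000ee600000ee600000fbf00000fbf) (nat_lit 0x153000001530000048e000003b40000046a0000046a00000000000006b0000001ac0000031a000004b5000004b50000053a0000053a0000046100000461)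
    (nat_lit 0x117a117a0e510eab0e750e7512cd0c2f0861109f0cc00d8a0d9308610e6c0e5a117a117a0ed10f19082308230a450caf1121195f0a6a07380d930d130eda0ec80f190eab121e0cb80b700b7006c00ffc15a015da0c370bb70ad60ee00c0b0c0b0ed10e510b04121e0b280b28144008e20be60c200bef0a610a7c0be60b1f0b3108230e750b280b700b4c0b4c100e09060e8607ee09730d010a7c096a0b430b3108230e750b280b700b4c0b4c100e09060e8607ee09730d010ad60a7c0b430b310caf0c2f08e20ffc09060906121e06c009c409fe08bb083f085a09c408fd08b50a4512cd144006c0100e100e127e121e127411060f6b0f6b113c12a60ed30f3f195f109f0c2015da07ee07ee110609fe0f5a0f8e08910c510c4c0bcc0ca50a4f112108610be615a00e860e86127409c411e40f5a0c410dbf06c00b720ea10e8f07380d8a0a610bb70d010d010f6b083f0dbf0c510c7e099a09b50baf13ca11840a6a0cc00bef0c37097309730f6b08bb0c4108910ba80c7e08d90a31103c0df60d1308610be60ee00a7c096a12a609c40b720bcc0a310baf06c008ba0bdd0bdd0d930d930a7c0ad60ad60a7c113c085a06c00c4c08d909b509ac06c00a970a850ec80e5a0b310c0b0b310b310f3f08b50e8f0a4f0df611840a850bdd0b5e0b5e0eda0e6c0b1f0c0b0b430b430ed308fd0ea10ca5103c13ca0a970bdd0b5e0b5e)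
    (nat_lit 0x117a21c021c021c021c021c021c021c021c021c021c021c021c021c021c021c0117a117a21c021c021c021c021c021c021c021c021c021c021c021c021c021c00e510ed1121e21c021c021c021c021c021c021c021c021c021c021c021c021c00eab0f190cb8121e21c021c021c021c021c021c021c021c021c021c021c021c00e7508230b700b280b4c21c021c021c021c021c021c021c021c021c021c021c00e7508230b700b280b4c0b4c21c021c021c021c021c021c021c021c021c021c012cd0a4506c011c4100e100e0fa221c021c021c021c021c021c021c021c021c00c2f0caf0d8008e20906090606c00fa221c021c021c021c021c021c021c021c00861112110840be60e860e8609c412740f5a21c021c021c021c021c021c021c0109f101110be0c2007ee07ee09fe11060f8e0f5a21c021c021c021c021c021c00cc00a6a0c370bef0973097308bb0f6b08910c410c7e21c021c021c021c021c00d8a07380bb70a610d010d01083f0f6b0c510dbf099a0c7e21c021c021c021c00d930d930ad60a7c0a7c0ad6085a113c0c4c06c009b508d906c021c021c021c008610d130ee00be6096a0a7c09c412a60bcc0b720baf0a3108ba06c021c021c00e6c0eda0c0b0b1f0b430b4308fd0ed30ca50ea113ca103c0bdd0a970b5e21c00e5a0ec80c0b0b310b310b3108b50f3f0a4f0e8f11840df60bdd0a850b5e0b5e)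
    (nat_lit 4) (nat_lit 111)
    [[nat_lit 2,nat_lit 17,nat_lit 33,nat_lit 0x1011,nat_lit 0x100011,nat_lit 0x1001,nat_lit 0x10001,
    nat_lit 0x1010001,nat_lit 0x10010001,nat_lit 0x100001,nat_lit 0x1000001,nat_lit 0x10000001,nat_lit 0x10001001],
    [nat_lit 32,nat_lit 48,nat_lit 64,nat_lit 304,nat_lit 0x1030,nat_lit 288,nat_lit 0x10000120,nat_lit 0x1020,
    nat_lit 0x101020,nat_lit 0x100020,nat_lit 0x1000020,nat_lit 0x10000020,nat_lit 272,nat_lit 528,nat_lit 0x1110,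
    nat_lit 0x100110,nat_lit 0x10000110,nat_lit 0x1000110,nat_lit 0x1010,nat_lit 0x10001110,nat_lit 0x11010,
    nat_lit 0x101010,nat_lit 0x10101010,nat_lit 0x10010,nat_lit 0x1010010,nat_lit 0x10010010,nat_lit 0x100010,
    nat_lit 0x200010,nat_lit 0x10100010,nat_lit 0x1000010,nat_lit 0x1100010,nat_lit 0x10000010],[nat_lit 512,
    nat_lit 0x10000200,nat_lit 0x1100,nat_lit 0x1200,nat_lit 0x1001100,nat_lit 0x10001100,nat_lit 0x101100,
    nat_lit 0x10100,nat_lit 0x1010100,nat_lit 0x10010100,nat_lit 0x100100,nat_lit 0x100200,nat_lit 0x10101100,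
    nat_lit 0x1100100,nat_lit 0x10100100,nat_lit 0x1000100,nat_lit 0x10000100],[nat_lit 0x2000,nat_lit 0x11000,
    nat_lit 0x1011000,nat_lit 0x101000,nat_lit 0x1101000,nat_lit 0x10011000,nat_lit 0x10101000],[nat_lit 0x20000,
    nat_lit 0x110000,nat_lit 0x1010000,nat_lit 0x2020000,nat_lit 0x1110000,nat_lit 0x10010000],[nat_lit 0x200000,
    nat_lit 0x1100000,nat_lit 0x10100000],[nat_lit 0x2000000,nat_lit 0x11000000],[]]
    [.c (nat_lit 1) (nat_lit 2),.c (nat_lit 0) (nat_lit 0x3305045),.r (nat_lit 0xdae) (nat_lit 0) [nat_lit 0x2200002,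
    nat_lit 0x22084542,nat_lit 0x22001,nat_lit 0x33055402],.c (nat_lit 4) (nat_lit 0x2208454),
    .c (nat_lit 0) (nat_lit 0x2305545),.c (nat_lit 0) (nat_lit 0x2024005),.c (nat_lit 0) (nat_lit 0x252998d),
    .c (nat_lit 4) (nat_lit 0x2028405),.c (nat_lit 4) (nat_lit 0x2028005),.c (nat_lit 0) (nat_lit 0x2305545),
    .c (nat_lit 0) (nat_lit 0x3305045),.c (nat_lit 0) (nat_lit 0x3305545),.c (nat_lit 0) (nat_lit 0x3002),
    .c (nat_lit 2) (nat_lit 2),.r (nat_lit 0xb5a) (nat_lit 7) [nat_lit 0x66000002,nat_lit 0x7d7d0c52,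
    nat_lit 0x7d7ddc52,nat_lit 0x6600002,nat_lit 33],.r (nat_lit 0xb5b) (nat_lit 7) [nat_lit 0x22000001,
    nat_lit 0x59590832,nat_lit 0x59599832,nat_lit 0x2200001,nat_lit 34],
    .r (nat_lit 0x48e) (nat_lit 13) [nat_lit 0x35350442,nat_lit 0x282445d2,nat_lit 0x7355482,nat_lit 0x24284552,
    nat_lit 33,nat_lit 0x2200052],.r (nat_lit 0x48f) (nat_lit 0) [nat_lit 0x20031,nat_lit 0x33095442,
    nat_lit 0x24284552,nat_lit 33,nat_lit 0x422c4592,nat_lit 0x333b5461],
    .r (nat_lit 0x490) (nat_lit 13) [nat_lit 0x35350442,nat_lit 0x282445d2,nat_lit 0x7355482,nat_lit 0x24284552,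
    nat_lit 33,nat_lit 0x2200052],.c (nat_lit 0) (nat_lit 0x2300004),.r (nat_lit 0x491) (nat_lit 13) [nat_lit 0x22031,
    nat_lit 0x333b5461,nat_lit 0x422c4592,nat_lit 33,nat_lit 0x24284552,nat_lit 0x33095442],
    .c (nat_lit 4) (nat_lit 0x222a452),.r (nat_lit 0x492) (nat_lit 11) [nat_lit 0x33355431,nat_lit 0x33352431,
    nat_lit 97,nat_lit 0x43355492,nat_lit 0x222a4521,nat_lit 0x28244552],
    .r (nat_lit 0xdb2) (nat_lit 12) [nat_lit 0x24240542,nat_lit 0x33350431],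
    .r (nat_lit 0xdb2) (nat_lit 12) [nat_lit 0x24244542,nat_lit 0x33353431],
    .r (nat_lit 0xdb2) (nat_lit 12) [nat_lit 33,nat_lit 0x30350452],.c (nat_lit 0) (nat_lit 0x735544),
    .c (nat_lit 0) (nat_lit 0x3539544),.c (nat_lit 4) (nat_lit 0x202c454),.c (nat_lit 1) (nat_lit 0x3025545),
    .c (nat_lit 1) (nat_lit 0x3025045),.r (nat_lit 0xdae) (nat_lit 0) [nat_lit 0x2200002,nat_lit 33,nat_lit 0x22001,
    nat_lit 0x33055402],.c (nat_lit 0) (nat_lit 0x3539544),.r (nat_lit 0xdb2) (nat_lit 12) [nat_lit 0x32050042,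
    nat_lit 0x3300452],.r (nat_lit 0x493) (nat_lit 13) [nat_lit 0x22001,nat_lit 0x222a4541,nat_lit 0x3395452,
    nat_lit 0x303d5452,nat_lit 0x333b5431,nat_lit 0x224c4542],.c (nat_lit 0) (nat_lit 0x3002),
    .c (nat_lit 0) (nat_lit 0x325545),.c (nat_lit 0) (nat_lit 0x335045),.c (nat_lit 0) (nat_lit 0x335545),
    .c (nat_lit 0) (nat_lit 0x335545),.c (nat_lit 0) (nat_lit 0x4335545),.c (nat_lit 0) (nat_lit 0x335545),
    .c (nat_lit 0) (nat_lit 0x3305045),.c (nat_lit 0) (nat_lit 0x335045),.c (nat_lit 0) (nat_lit 0x3305545),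
    .c (nat_lit 3) (nat_lit 2),.c (nat_lit 0) (nat_lit 0x300002),.c (nat_lit 0) (nat_lit 0x3539544),
    .c (nat_lit 0) (nat_lit 0x3537542),.c (nat_lit 0) (nat_lit 0x3302),.c (nat_lit 0) (nat_lit 0x3002),
    .c (nat_lit 0) (nat_lit 0x3539544),.c (nat_lit 0) (nat_lit 0x2200005),.c (nat_lit 0) (nat_lit 0x2300504),
    .c (nat_lit 0) (nat_lit 0x2300004),.c (nat_lit 0) (nat_lit 0x2200005),.c (nat_lit 0) (nat_lit 0x300302),
    .c (nat_lit 0) (nat_lit 0x303002),.c (nat_lit 0) (nat_lit 0x300302),.c (nat_lit 0) (nat_lit 0x300002),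
    .c (nat_lit 0) (nat_lit 0x2300504),.c (nat_lit 0) (nat_lit 0x2300004),.c (nat_lit 4) (nat_lit 2),
    .c (nat_lit 0) (nat_lit 0x2024005),.c (nat_lit 0) (nat_lit 0x3302),.c (nat_lit 0) (nat_lit 0x2002003),
    .c (nat_lit 0) (nat_lit 0x3302),.c (nat_lit 0) (nat_lit 0x3002),.c (nat_lit 0) (nat_lit 0x3002),
    .c (nat_lit 5) (nat_lit 2),.c (nat_lit 0) (nat_lit 0x2000003),.c (nat_lit 0) (nat_lit 0x335045),
    .r (nat_lit 0x494) (nat_lit 6) [nat_lit 0x22001,nat_lit 0x32004022,nat_lit 0x53354422,nat_lit 0x20205032,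
    nat_lit 0x3001,nat_lit 0x20003031],.c (nat_lit 0) (nat_lit 0x335045),.c (nat_lit 0) (nat_lit 0x335545),
    .c (nat_lit 6) (nat_lit 2),.c (nat_lit 1) (nat_lit 0x20302),.c (nat_lit 1) (nat_lit 0x20002),
    .c (nat_lit 7) (nat_lit 2),.c (nat_lit 4) (nat_lit 0x4203)],
    .l (nat_lit 11) (nat_lit 480) (nat_lit 4) (nat_lit 0x1800000010c000000fc000000fc00000106000001060000010f0000010f000001130000011b00000115000001150000011b0000011b0000013000000130) (nat_lit 0x740000000000000084000000840000007a0000007a0000007100000071000000650000006d0000006b0000006b00000065000000650000005000000050)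
    (nat_lit 0x1486007e0ee20c180a291b2365148a9152aa46c98130130290440881242486289b1363144a8a118a22c650d61103b83c0781042083288b12e1945689d0fa28c8a08e1103f03c0781042083c88b12e1944c88912e28ca90cc124180410821182305f8951522ac4789b1022645b0b6124418410821182305f8951522ac4789b1ea2ec550b613646c4588b12a2544609e1541e04509c1542d85f86b18a5143c86517e2fc5b08c154288490941542a8468bf18a514328651562ac5107817c238540a815c300468c313646c4b8971522a4550aa18c2f8530b00c02d8658ab1424544489d13626c4a09c1602a05509a1a02e86291b12a4544c8ad11e23c4908a14c2a05d0aa18c2c06291b11646c518a3176264550b616c300580ba0c0298658b518a5544b87d1ea204550aa0c02b8630d016c180658cb1ac4c06608e16c2d85f86b15630c8d91b1962d4530e01944c0a91141542d8468bf196234628c519632c700a6)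
    (nat_lit 0x148780f01e03c0780f01e03c0780f01e03c0780f01e0300290f01e03c0780f01e03c0780f01e03c0780f01e01f82203c1e03c0780f01e03c0780f01e03c0780f01e01dc2203c0783c0780f01e03c0780f01e03c0780f01e020c24841082118780f01e03c0780f01e03c0780f01e00c024841082118230f01e03c0780f01e03c0780f01e023e3143287917e2fc461e03c0780f01e03c0780f01e01ea26c4588b12a2544f08c3c0780f01e03c0780f01e021226c4b8971522a4550aa17c780f01e03c0780f01e0216314328651562ac3c0a211c2f8f01e03c0780f01e01de2545689911e23c45092150298551e03c0780f01e01f62844e88913626c4e0941502c04d0aa3c0780f01e02aa3143e8971023d4550aa15c180680c60c0780f01e023622c518a31322ec5b0aa1802d85d0b014c180f01e02143288a11816c2a85f88d11a32c628c519632c531e022c358470cc16c2d8358bf1862ac7f8fd16a32c700a6)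
    (nat_lit 5) (nat_lit 79)
    [[nat_lit 2,nat_lit 0x1002,nat_lit 0x10002,nat_lit 17,nat_lit 0x10101,nat_lit 0x1000101,nat_lit 0x1001,
    nat_lit 0x1011,nat_lit 0x11001,nat_lit 0x1001001,nat_lit 0x10001,nat_lit 0x1010001,nat_lit 0x20001,
    nat_lit 0x110001,nat_lit 0x100001,nat_lit 0x1100001],[nat_lit 32,nat_lit 48,nat_lit 64,nat_lit 0x1020,
    nat_lit 0x1001020,nat_lit 0x10020,nat_lit 0x100020,nat_lit 0x1000020,nat_lit 272,nat_lit 0x1010,nat_lit 0x1110,
    nat_lit 0x2010,nat_lit 0x11010,nat_lit 0x101010,nat_lit 0x1001010,nat_lit 0x10010,nat_lit 0x1010010,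
    nat_lit 0x110010,nat_lit 0x100010,nat_lit 0x100110,nat_lit 0x200010,nat_lit 0x1100010,nat_lit 0x1000010,
    nat_lit 0x1000110,nat_lit 0x2000010],[nat_lit 512,nat_lit 0x10200,nat_lit 0x100200,nat_lit 0x1100,
    nat_lit 0x1001100,nat_lit 0x11100,nat_lit 0x10100,nat_lit 0x20100,nat_lit 0x1010100,nat_lit 0x110100,
    nat_lit 0x100100,nat_lit 0x200100,nat_lit 0x1100100,nat_lit 0x10100100,nat_lit 0x1000100,nat_lit 0x2000100,
    nat_lit 0x10000100],[nat_lit 0x2000,nat_lit 0x1002000,nat_lit 0x11000,nat_lit 0x21000,nat_lit 0x1011000,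
    nat_lit 0x101000,nat_lit 0x1101000,nat_lit 0x10101000,nat_lit 0x1001000,nat_lit 0x2001000],[nat_lit 0x20000,
    nat_lit 0x30000,nat_lit 0x1020000,nat_lit 0x110000,nat_lit 0x1110000,nat_lit 0x10110000,nat_lit 0x1010000,
    nat_lit 0x2010000],[nat_lit 0x200000,nat_lit 0x300000,nat_lit 0x1200000,nat_lit 0x10200000,nat_lit 0x1100000,
    nat_lit 0x2100000,nat_lit 0x11100000,nat_lit 0x10100000,nat_lit 0x20100000],[nat_lit 0x2000000,nat_lit 0x3000000,
    nat_lit 0x11000000],[nat_lit 0x20000000]]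
    [.c (nat_lit 1) (nat_lit 2),.c (nat_lit 0) (nat_lit 0xa000c02),.c (nat_lit 0) (nat_lit 0xa018002),
    .r (nat_lit 0xdb2) (nat_lit 11) [nat_lit 65,nat_lit 0x11044200a2],.c (nat_lit 6) (nat_lit 0xc0201485),
    .c (nat_lit 0) (nat_lit 0x802210a4),.c (nat_lit 0) (nat_lit 0x6000c02),.c (nat_lit 0) (nat_lit 0xca001c04),
    .c (nat_lit 0) (nat_lit 0x6018c02),.c (nat_lit 0) (nat_lit 0x6000c02),.c (nat_lit 0) (nat_lit 0x6018002),
    .c (nat_lit 0) (nat_lit 0x6018002),.c (nat_lit 0) (nat_lit 0x6028002),.c (nat_lit 0) (nat_lit 0xa328004),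
    .r (nat_lit 0xdba) (nat_lit 6) [nat_lit 0x200001,nat_lit 65],.r (nat_lit 0x1103) (nat_lit 12) [nat_lit 0x218001,
    nat_lit 0x10001,nat_lit 0x18c6539061,nat_lit 0x80010041,nat_lit 0xc0018041],.c (nat_lit 2) (nat_lit 2),
    .r (nat_lit 0x440) (nat_lit 8) [nat_lit 0xc600001,nat_lit 0xc030001,nat_lit 0x39cc739841,nat_lit 65,
    nat_lit 0x33260000a2,nat_lit 0xe000001],.r (nat_lit 0x44a) (nat_lit 8) [nat_lit 0x4000001,nat_lit 0x400001,
    nat_lit 0x20001,nat_lit 0x4a4a94a042,nat_lit 66,nat_lit 0x2200000062],.c (nat_lit 0) (nat_lit 0x80000803),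
    .c (nat_lit 0) (nat_lit 0x80000803),.c (nat_lit 0) (nat_lit 0x80010003),
    .r (nat_lit 0xbf9) (nat_lit 11) [nat_lit 0x30001,nat_lit 0x3b4edcb002,nat_lit 0x2940549041,nat_lit 0x420ce824a1,
    nat_lit 0x1080220c41],.c (nat_lit 0) (nat_lit 0x80000003),.c (nat_lit 0) (nat_lit 0xa329485),
    .c (nat_lit 0) (nat_lit 0x80001005),.r (nat_lit 0x1103) (nat_lit 12) [nat_lit 0x218001,nat_lit 0x10001,
    nat_lit 0x18c6338841,nat_lit 0x80310861,nat_lit 0xc0318861],.r (nat_lit 0xdba) (nat_lit 6) [nat_lit 0x200001,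
    nat_lit 0x11040400a2],.r (nat_lit 0xdba) (nat_lit 6) [nat_lit 0x200001,nat_lit 0x11044200a2],
    .c (nat_lit 0) (nat_lit 0x80201005),.c (nat_lit 0) (nat_lit 0x80000803),.c (nat_lit 0) (nat_lit 0x80020005),
    .c (nat_lit 0) (nat_lit 0x80010003),.c (nat_lit 0) (nat_lit 0x80220005),.c (nat_lit 0) (nat_lit 0x80200005),
    .c (nat_lit 0) (nat_lit 0x6018c43),.r (nat_lit 0x10d0) (nat_lit 3) [nat_lit 0x4010061,nat_lit 0x4200061,
    nat_lit 65,nat_lit 0x6000041,nat_lit 0x1806529002],.c (nat_lit 6) (nat_lit 0xc0200004),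
    .c (nat_lit 0) (nat_lit 0x86000005),.c (nat_lit 0) (nat_lit 0xa329485),.c (nat_lit 0) (nat_lit 0x80000003),
    .c (nat_lit 3) (nat_lit 2),.r (nat_lit 0xdba) (nat_lit 6) [nat_lit 0x200001,nat_lit 0x1800329062],
    .r (nat_lit 0x1103) (nat_lit 12) [nat_lit 0x218001,nat_lit 0x10001,nat_lit 0x6018041,nat_lit 0x1800519061,
    nat_lit 0x1940539061],.r (nat_lit 0xdbb) (nat_lit 13) [nat_lit 0x18065010a2,nat_lit 0x218041],
    .c (nat_lit 4) (nat_lit 0x882220a4),.r (nat_lit 0x44b) (nat_lit 6) [nat_lit 0x4010001,nat_lit 0xa318041,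
    nat_lit 0x108e000c41,nat_lit 0x180c0010a2,nat_lit 0x6000001,nat_lit 0x19540010a2],
    .r (nat_lit 0xdbb) (nat_lit 13) [nat_lit 0x18060290a2,nat_lit 65],
    .r (nat_lit 0x44b) (nat_lit 6) [nat_lit 0x4010001,nat_lit 0xa500041,nat_lit 0x108e310c41,nat_lit 0x180c4290a2,
    nat_lit 0x6000001,nat_lit 0x19544290a2],.c (nat_lit 4) (nat_lit 0x882030a4),
    .r (nat_lit 0xdba) (nat_lit 6) [nat_lit 0x200001,nat_lit 0x18040290a2],.c (nat_lit 0) (nat_lit 0xca029485),
    .c (nat_lit 0) (nat_lit 0xca229485),.c (nat_lit 0) (nat_lit 0xca029c85),.c (nat_lit 0) (nat_lit 0x84010862),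
    .c (nat_lit 0) (nat_lit 0xca32a485),.c (nat_lit 0) (nat_lit 0xa329485),.c (nat_lit 0) (nat_lit 0xca329485),
    .c (nat_lit 4) (nat_lit 2),.r (nat_lit 0xba1) (nat_lit 15) [nat_lit 0x4010001,nat_lit 0x428041,nat_lit 0x10001,
    nat_lit 0x1806529002,nat_lit 0x1080020061],.c (nat_lit 4) (nat_lit 0x18802),
    .r (nat_lit 0xdb2) (nat_lit 11) [nat_lit 0x1100410062,nat_lit 0x4010042],
    .r (nat_lit 0xba1) (nat_lit 15) [nat_lit 0x4010001,nat_lit 0x218041,nat_lit 0x10001,nat_lit 0x1806529002,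
    nat_lit 0x1080210061],.c (nat_lit 0) (nat_lit 0x200805),.c (nat_lit 0) (nat_lit 0x80201005),
    .c (nat_lit 0) (nat_lit 0x301c04),.c (nat_lit 0) (nat_lit 0x80001005),.c (nat_lit 0) (nat_lit 0x80000803),
    .c (nat_lit 5) (nat_lit 2),.r (nat_lit 0xdb2) (nat_lit 11) [nat_lit 0x1100600062,nat_lit 0x4320042],
    .r (nat_lit 0xba1) (nat_lit 15) [nat_lit 0x4010001,nat_lit 65,nat_lit 0x10001,nat_lit 0x1806529002,
    nat_lit 0x1080400061],.c (nat_lit 0) (nat_lit 0x210005),.c (nat_lit 0) (nat_lit 0x80220005),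
    .c (nat_lit 0) (nat_lit 0x338004),.c (nat_lit 0) (nat_lit 0x80020005),.c (nat_lit 0) (nat_lit 0x80010003),
    .c (nat_lit 6) (nat_lit 2),.r (nat_lit 0xdb2) (nat_lit 11) [nat_lit 0x110e000082,nat_lit 0x8210061],
    .c (nat_lit 0) (nat_lit 0x6200003),.c (nat_lit 4) (nat_lit 0x201003),.c (nat_lit 0) (nat_lit 0xa200005),
    .c (nat_lit 0) (nat_lit 0x6018c43),.r (nat_lit 0xdba) (nat_lit 6) [nat_lit 0x200001,nat_lit 0x80000041],
    .r (nat_lit 0xdb2) (nat_lit 11) [nat_lit 0x1106000082,nat_lit 0x4210061],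
    .r (nat_lit 0xb0d) (nat_lit 2) [nat_lit 0x5006000082,nat_lit 0x6000081,nat_lit 0x58175ad002,nat_lit 0x40500a1,
    nat_lit 0x4a000a1],.c (nat_lit 7) (nat_lit 2),.c (nat_lit 0) (nat_lit 0x8a329485),
    .c (nat_lit 0) (nat_lit 0x6000003),.c (nat_lit 8) (nat_lit 2)]]

/-- nodes -/
noncomputable def rD8k_20_3 : List RJ :=
  [.l (nat_lit 13) (nat_lit 0x780) (nat_lit 3) (nat_lit 0x40f0000040f000004fc000003ec0000041600000410000003df00000437000003f50000044b000003fa000005b60000045b000003ed00000508000003aa) (nat_lit 0x1a7000001a7000001ca000000ba000001a6000001a00000017f000001d70000016b000001c100000000000001bc000001c90000015b0000020c000000ae)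
    (nat_lit 0x1bc089849235512e09bc50c23c116093881e2531930b304063610f10de043a3550f687845282381ba093881e25325a11684063611aa8d547804c81ab0e106fa3a11c88cdc6ac2701998e843c01e010e89245703c012509304da26d10788043c01e011187b43c01e00f089bc49838410c078058223b17d89549742cc1d5931c40c3680f68970494356106086057623915287b49682c615c8f5440036211c08f04da3a111c88ec58426610107d057e22310b07803c02bf14a0a184da37d15d8b046182c210109d886e1ff132078045638912709384023370f689544ec1f418307809e23031160a683e63511ba08b041e3911528bec40420219f0c188fa28f0f00bc047e391129894c3c02701630b303fe2231478c0c7f41e011e89b44cc3ee207903c3c035625a12e886e2bf23e93c4b6c3fa1f6916c72451a22d0b303da3a11ea931c3c01e01780a688b626d1400c0049e3ad25a0c9844633315c8eac4c82160f008b07da23d1120a003c233f1b08d843c01e01b10da07122bf1c88d44a343ee19f8eb443845a101880c3c01e010008184561e011f87cc7242660f0893c3c021c)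
    (nat_lit 0x1bc1e00f007803c01e00f007803c01e00f007803c01e00f007801130de0f007803c01e00f007803c01e00f007803c01e00f0078012488747807803c01e00f007803c01e00f007803c01e00f007801aa8d549903c03c01e00f007803c01e00f007803c01e00f0078012e07b46ac24a10c1e00f007803c01e00f007803c01e00f00780137878470824c0f00860f007803c01e00f007803c01e00f007801430a506fa26d1608aec5847803c01e00f007803c01e00f0078011e08e074226d11d88e44cc2c23c01e00f007803c01e00f007801160dd072220f17d8a944042021831e00f007803c01e00f00780127093866e20112a87b43e82760f00c18f007803c01e00f00780207903c6ac1e025d12d057e43727891f47f47803c01e00f00780129894c4e01e01660b184461ff1818a3c3c03fa3c01e00f0078019310b86662231d58ae442c264116078047a3ed1401e00f0078016610607421ed20d8f543c01e014d0bc04da45b1800a00f00780101880c3c01e010308003c022b0f988fc4cc39212787844387801b08d843c01e01b40d8857e3891a88e447803c01d68cfc78021c)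
    (nat_lit 5) (nat_lit 83)
    [[nat_lit 2,nat_lit 3,nat_lit 0x10002,nat_lit 0x1000002,nat_lit 17,nat_lit 0x10011,nat_lit 0x1000011,
    nat_lit 0x1000101,nat_lit 0x1001,nat_lit 0x11001,nat_lit 0x1001001,nat_lit 0x10001,nat_lit 0x1010001,
    nat_lit 0x100001,nat_lit 0x200001,nat_lit 0x1100001,nat_lit 0x10100001,nat_lit 0x1000001,nat_lit 0x2000001,
    nat_lit 0x11000001,nat_lit 0x10000001,nat_lit 0x10010001,nat_lit 0x20000001],[nat_lit 32,nat_lit 0x1020,
    nat_lit 0x10020,nat_lit 272,nat_lit 0x10110,nat_lit 0x1010,nat_lit 0x11010,nat_lit 0x2010,nat_lit 0x1001010,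
    nat_lit 0x10001010,nat_lit 0x10010,nat_lit 0x20010,nat_lit 0x10010010,nat_lit 0x110010,nat_lit 0x10100010,
    nat_lit 0x1000010],[nat_lit 0x10100,nat_lit 0x1000100,nat_lit 0x1000200,nat_lit 0x10000100],[nat_lit 0x2000,
    nat_lit 0x12000,nat_lit 0x11000,nat_lit 0x21000,nat_lit 0x111000,nat_lit 0x10011000,nat_lit 0x101000,
    nat_lit 0x201000,nat_lit 0x10101000,nat_lit 0x1001000,nat_lit 0x10001000,nat_lit 0x20001000],[nat_lit 0x20000,
    nat_lit 0x110000,nat_lit 0x210000,nat_lit 0x10110000,nat_lit 0x1010000,nat_lit 0x10010000,nat_lit 0x20010000],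
    [nat_lit 0x200000,nat_lit 0x300000,nat_lit 0x10200000,nat_lit 0x1100000,nat_lit 0x10100000,nat_lit 0x20100000],
    [nat_lit 0x11000000],[nat_lit 0x20000000]]
    [.c (nat_lit 1) (nat_lit 2),.c (nat_lit 0) (nat_lit 0x1c0318cc3),.c (nat_lit 0) (nat_lit 0x1c6318cc3),
    .c (nat_lit 0) (nat_lit 0x1c6318cc3),.c (nat_lit 0) (nat_lit 0x1c03180c7),.c (nat_lit 0) (nat_lit 0x34e528d87),
    .c (nat_lit 0) (nat_lit 0x34e528d87),.c (nat_lit 0) (nat_lit 0xc6000002),.c (nat_lit 0) (nat_lit 0x1c0318cc7),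
    .c (nat_lit 0) (nat_lit 0x34e529587),.c (nat_lit 0) (nat_lit 0x34e529587),.c (nat_lit 0) (nat_lit 0x34e529587),
    .c (nat_lit 1) (nat_lit 0x4000002),.c (nat_lit 0) (nat_lit 0x1c0300cc7),.c (nat_lit 0) (nat_lit 0x28006),
    .r (nat_lit 0xdb6) (nat_lit 10) [nat_lit 0x210003,nat_lit 0x60198e3],.c (nat_lit 0) (nat_lit 0x318006),
    .c (nat_lit 0) (nat_lit 0x34e529587),.c (nat_lit 0) (nat_lit 0x1ca318cc3),
    .r (nat_lit 0xdb6) (nat_lit 10) [nat_lit 0x210003,nat_lit 0x3198e3],.c (nat_lit 0) (nat_lit 0x1c0018cc7),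
    .r (nat_lit 0xdb7) (nat_lit 5) [nat_lit 0x210003,nat_lit 65],.c (nat_lit 0) (nat_lit 0x500006),
    .c (nat_lit 2) (nat_lit 2),.c (nat_lit 0) (nat_lit 0x1c03188c7),.c (nat_lit 0) (nat_lit 0x1ce3188c7),
    .c (nat_lit 0) (nat_lit 0x34e3194c6),.c (nat_lit 0) (nat_lit 0x34e3194c6),.c (nat_lit 0) (nat_lit 0x1c03180c7),
    .c (nat_lit 0) (nat_lit 0x1ce3180c7),.c (nat_lit 0) (nat_lit 0x340528d87),.c (nat_lit 0) (nat_lit 0x1ce3180c7),
    .c (nat_lit 0) (nat_lit 0x300c06),.c (nat_lit 0) (nat_lit 0x1ce3180c7),.c (nat_lit 0) (nat_lit 0x35a528d87),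
    .c (nat_lit 0) (nat_lit 0x300c06),.c (nat_lit 0) (nat_lit 0x18c06),.c (nat_lit 0) (nat_lit 0x318c06),
    .c (nat_lit 0) (nat_lit 0x1ce3180c7),.c (nat_lit 0) (nat_lit 0x80000003),.c (nat_lit 0) (nat_lit 0x80000003),
    .c (nat_lit 0) (nat_lit 0x65a529586),.c (nat_lit 0) (nat_lit 0x34e518cc6),.c (nat_lit 4) (nat_lit 2),
    .c (nat_lit 0) (nat_lit 0x34e529587),.c (nat_lit 0) (nat_lit 0x1ce318cc7),.c (nat_lit 0) (nat_lit 0x35a529587),
    .c (nat_lit 0) (nat_lit 0x1ce300cc7),.c (nat_lit 0) (nat_lit 0x1ce018cc7),.c (nat_lit 0) (nat_lit 0x1c0300cc7),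
    .c (nat_lit 0) (nat_lit 0x28006),.c (nat_lit 0) (nat_lit 0x318006),.c (nat_lit 0) (nat_lit 0x1ce318cc7),
    .c (nat_lit 0) (nat_lit 0x1c0018cc7),.c (nat_lit 0) (nat_lit 0x500006),.c (nat_lit 5) (nat_lit 2),
    .c (nat_lit 0) (nat_lit 0x1ce300cc7),.c (nat_lit 0) (nat_lit 0x28006),.c (nat_lit 0) (nat_lit 0x318006),
    .c (nat_lit 0) (nat_lit 0x6000003),.c (nat_lit 0) (nat_lit 0x1ce018cc7),.c (nat_lit 0) (nat_lit 0x500006),
    .c (nat_lit 6) (nat_lit 2),.c (nat_lit 0) (nat_lit 0x18002),.c (nat_lit 0) (nat_lit 0x328006),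
    .c (nat_lit 0) (nat_lit 0x1ce300cc7),.c (nat_lit 0) (nat_lit 0x318006),.c (nat_lit 0) (nat_lit 0x518006),
    .c (nat_lit 0) (nat_lit 0x1ce018cc7),.c (nat_lit 8) (nat_lit 2)]]

/-- nodes -/
noncomputable def rD8k_20_4 : List RJ :=
  [.s (nat_lit 16) (nat_lit 0x2580) (nat_lit 4) (nat_lit 0x13d0000013d0000010340000103400001286000012860000113800001138000012220000122200001278000012780000135d0000135d000017f7000017f7) (nat_lit 0x42700000427000007c3000007c30000057100000571000006bf000006bf000005d5000005d50000057f0000057f0000049a0000049a0000000000000000)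
    (nat_lit 0xd6f0fa90c0d0ce90e5f0c250c650d410da10ddd0f2d0d0f1676108a13d013d00fa90d6f0e470c0d10990e5f0d110d110ddf0dfb0e510e6514c00ed412f413d00c0d0ce9087108710ac308890975073b0a4b0a5f0b170ad10b9a0b9a126e0aaa0e470c0d087108710d570ac3094d092f0a4b0a5f0c130a4f0b2c0b2c126e10340e5f0c250ac308890d5b0d150bc709330d170cd90d750d1b0dec0c8e128612f410990e5f0d570ac30b7b0d5b0a910bc70d5d0b170bb30d070dec0dec125612c40d110d41092f073b0bc709330c130c130b630c990bb90b0d0c600df2113811380d110c65094d09750a910bc70b370c130b470b630bb90bb90c9e0d16115611380dfb0ddd0a5f0a5f0b170cd90b630c990c4d0b8f0c2b0cbf0d880d8812ce12220ddf0da10a4b0a4b0d5d0d170b470b630c4d0c4d0cfd0ca30bda0e20136412b80e650d0f0a4f0ad10d070d1b0bb90b0d0ca30cbf0c610cf90d480d8412d214260e510f2d0c130b170bb30d750bb90bb90cfd0c2b0cf90c610dde0dde112412780ed4108a0b2c0b9a0dec0c8e0d160df20e200d880dde0d840ec30ec31281135d14c016760b2c0b9a0dec0dec0c9e0c600bda0d880dde0d480ec30ec3135d135d13d013d010340aaa12c412f41138113812b8122212781426135d135d10b717f712f413d0126e126e1256128611561138136412ce112412d2135d128117f710b7)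
    (nat_lit 0xd6f2580258025802580258025802580258025802580258025802580258025800fa90d6f258025802580258025802580258025802580258025802580258025800c0d0e47087125802580258025802580258025802580258025802580258025800ce90c0d087108712580258025802580258025802580258025802580258025800e5f10990ac30d570d5b258025802580258025802580258025802580258025800c250e5f08890ac30d150d5b25802580258025802580258025802580258025800c650d110975094d0bc70a910c132580258025802580258025802580258025800d410d11073b092f09330bc70c130c13258025802580258025802580258025800da10ddf0a4b0a4b0d170d5d0b630b470c4d25802580258025802580258025800ddd0dfb0a5f0a5f0cd90b170c990b630b8f0c4d2580258025802580258025800f2d0e510b170c130d750bb30bb90bb90c2b0cfd0c61258025802580258025800d0f0e650ad10a4f0d1b0d070b0d0bb90cbf0ca30cf90c612580258025802580167614c00b9a0b2c0dec0dec0c600c9e0d880bda0d480dde0ec3258025802580108a0ed40b9a0b2c0c8e0dec0df20d160d880e200d840dde0ec30ec32580258013d012f4126e126e128612561138115612ce136412d211241281135d10b7258013d013d00aaa103412f412c411381138122212b814261278135d135d17f710b7)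
    (nat_lit 5) (nat_lit 79)
    [[nat_lit 0,nat_lit 4],[nat_lit 0,nat_lit 5],[nat_lit 0,nat_lit 8,nat_lit 13],[nat_lit 0,nat_lit 9,nat_lit 12],
    [nat_lit 0,nat_lit 9,nat_lit 13],[nat_lit 0,nat_lit 10],[nat_lit 0,nat_lit 11],[nat_lit 0,nat_lit 12,nat_lit 9],
    [nat_lit 0,nat_lit 13,nat_lit 8],[nat_lit 0,nat_lit 13,nat_lit 9],[nat_lit 1,nat_lit 4],[nat_lit 1,nat_lit 5],
    [nat_lit 1,nat_lit 8,nat_lit 12],[nat_lit 1,nat_lit 8,nat_lit 13],[nat_lit 1,nat_lit 9,nat_lit 12],[nat_lit 1,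
    nat_lit 10],[nat_lit 1,nat_lit 11],[nat_lit 1,nat_lit 12,nat_lit 8],[nat_lit 1,nat_lit 12,nat_lit 9],[nat_lit 1,
    nat_lit 13,nat_lit 8],[nat_lit 2,nat_lit 7,nat_lit 9],[nat_lit 2,nat_lit 8,nat_lit 6],[nat_lit 2,nat_lit 8,
    nat_lit 7],[nat_lit 2,nat_lit 14],[nat_lit 2,nat_lit 15],[nat_lit 3,nat_lit 6,nat_lit 9],[nat_lit 3,nat_lit 7,
    nat_lit 9],[nat_lit 3,nat_lit 8,nat_lit 6],[nat_lit 3,nat_lit 14],[nat_lit 3,nat_lit 15],[nat_lit 4,nat_lit 4,
    nat_lit 6],[nat_lit 4,nat_lit 5,nat_lit 6],[nat_lit 4,nat_lit 5,nat_lit 7],[nat_lit 4,nat_lit 6,nat_lit 4],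
    [nat_lit 4,nat_lit 7,nat_lit 11],[nat_lit 4,nat_lit 10,nat_lit 6],[nat_lit 4,nat_lit 11,nat_lit 6],[nat_lit 4,
    nat_lit 12,nat_lit 15],[nat_lit 4,nat_lit 13,nat_lit 14],[nat_lit 4,nat_lit 13,nat_lit 15],[nat_lit 4,nat_lit 15,
    nat_lit 13],[nat_lit 5,nat_lit 5,nat_lit 7],[nat_lit 5,nat_lit 7,nat_lit 5],[nat_lit 5,nat_lit 7,nat_lit 10],
    [nat_lit 5,nat_lit 7,nat_lit 11],[nat_lit 5,nat_lit 10,nat_lit 6],[nat_lit 5,nat_lit 12,nat_lit 14],[nat_lit 5,
    nat_lit 14,nat_lit 12],[nat_lit 5,nat_lit 14,nat_lit 13],[nat_lit 5,nat_lit 15,nat_lit 12],[nat_lit 6,nat_lit 10,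
    nat_lit 11],[nat_lit 6,nat_lit 13,nat_lit 8,nat_lit 10],[nat_lit 7,nat_lit 10,nat_lit 11],[nat_lit 7,nat_lit 11,
    nat_lit 9,nat_lit 12],[nat_lit 8,nat_lit 14,nat_lit 12,nat_lit 12],[nat_lit 8,nat_lit 14,nat_lit 13,nat_lit 13],
    [nat_lit 9,nat_lit 12,nat_lit 12,nat_lit 15],[nat_lit 9,nat_lit 13,nat_lit 13,nat_lit 15],[nat_lit 10,nat_lit 12,
    nat_lit 14],[nat_lit 10,nat_lit 12,nat_lit 15],[nat_lit 10,nat_lit 13,nat_lit 14],[nat_lit 10,nat_lit 14,
    nat_lit 12],[nat_lit 10,nat_lit 14,nat_lit 13],[nat_lit 10,nat_lit 15,nat_lit 12],[nat_lit 10,nat_lit 15,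
    nat_lit 13],[nat_lit 11,nat_lit 12,nat_lit 14],[nat_lit 11,nat_lit 12,nat_lit 15],[nat_lit 11,nat_lit 13,
    nat_lit 14],[nat_lit 11,nat_lit 13,nat_lit 15],[nat_lit 11,nat_lit 14,nat_lit 13],[nat_lit 11,nat_lit 15,
    nat_lit 12],[nat_lit 11,nat_lit 15,nat_lit 13]]
    [nat_lit 260,nat_lit 261,nat_lit 0x108d,nat_lit 0x109c,nat_lit 0x109d,nat_lit 266,nat_lit 267,nat_lit 0x10c9,
    nat_lit 0x10d8,nat_lit 0x10d9,nat_lit 276,nat_lit 277,nat_lit 0x118c,nat_lit 0x118d,nat_lit 0x119c,nat_lit 282,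
    nat_lit 283,nat_lit 0x11c8,nat_lit 0x11c9,nat_lit 0x11d8,nat_lit 0x1279,nat_lit 0x1286,nat_lit 0x1287,nat_lit 302,
    nat_lit 303,nat_lit 0x1369,nat_lit 0x1379,nat_lit 0x1386,nat_lit 318,nat_lit 319,nat_lit 0x1446,nat_lit 0x1456,
    nat_lit 0x1457,nat_lit 0x1464,nat_lit 0x147b,nat_lit 0x14a6,nat_lit 0x14b6,nat_lit 0x14cf,nat_lit 0x14de,
    nat_lit 0x14df,nat_lit 0x14fd,nat_lit 0x1557,nat_lit 0x1575,nat_lit 0x157a,nat_lit 0x157b,nat_lit 0x15a6,
    nat_lit 0x15ce,nat_lit 0x15ec,nat_lit 0x15ed,nat_lit 0x15fc,nat_lit 0x16ab,nat_lit 0x16d8a,nat_lit 0x17ab,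
    nat_lit 0x17b9c,nat_lit 0x18ecc,nat_lit 0x18edd,nat_lit 0x19ccf,nat_lit 0x19ddf,nat_lit 0x1ace,nat_lit 0x1acf,
    nat_lit 0x1ade,nat_lit 0x1aec,nat_lit 0x1aed,nat_lit 0x1afc,nat_lit 0x1afd,nat_lit 0x1bce,nat_lit 0x1bcf,
    nat_lit 0x1bde,nat_lit 0x1bdf,nat_lit 0x1bed,nat_lit 0x1bfc,nat_lit 0x1bfd]
    [[[nat_lit 0,nat_lit 4],[nat_lit 0,nat_lit 5],[nat_lit 0,nat_lit 8,nat_lit 13],[nat_lit 0,nat_lit 9,nat_lit 12],
    [nat_lit 0,nat_lit 9,nat_lit 13],[nat_lit 0,nat_lit 10],[nat_lit 0,nat_lit 11],[nat_lit 0,nat_lit 12,nat_lit 9],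
    [nat_lit 0,nat_lit 13,nat_lit 8],[nat_lit 0,nat_lit 13,nat_lit 9],[nat_lit 1,nat_lit 4],[nat_lit 1,nat_lit 5]],
    [[nat_lit 1,nat_lit 8,nat_lit 12],[nat_lit 1,nat_lit 8,nat_lit 13],[nat_lit 1,nat_lit 9,nat_lit 12],[nat_lit 1,
    nat_lit 10],[nat_lit 1,nat_lit 11],[nat_lit 1,nat_lit 12,nat_lit 8],[nat_lit 1,nat_lit 12,nat_lit 9],[nat_lit 1,
    nat_lit 13,nat_lit 8],[nat_lit 2,nat_lit 7,nat_lit 9],[nat_lit 2,nat_lit 8,nat_lit 6],[nat_lit 2,nat_lit 8,
    nat_lit 7],[nat_lit 2,nat_lit 14]],[[nat_lit 2,nat_lit 15],[nat_lit 3,nat_lit 6,nat_lit 9],[nat_lit 3,nat_lit 7,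
    nat_lit 9],[nat_lit 3,nat_lit 8,nat_lit 6],[nat_lit 3,nat_lit 14],[nat_lit 3,nat_lit 15],[nat_lit 4,nat_lit 0],
    [nat_lit 4,nat_lit 1],[nat_lit 4,nat_lit 4,nat_lit 6],[nat_lit 4,nat_lit 5,nat_lit 6],[nat_lit 4,nat_lit 5,
    nat_lit 7],[nat_lit 4,nat_lit 6,nat_lit 4]],[[nat_lit 4,nat_lit 7,nat_lit 11],[nat_lit 4,nat_lit 10,nat_lit 6],
    [nat_lit 4,nat_lit 11,nat_lit 6],[nat_lit 4,nat_lit 12,nat_lit 15],[nat_lit 4,nat_lit 13,nat_lit 14],[nat_lit 4,
    nat_lit 13,nat_lit 15],[nat_lit 4,nat_lit 15,nat_lit 13],[nat_lit 5,nat_lit 0],[nat_lit 5,nat_lit 1],[nat_lit 5,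
    nat_lit 5,nat_lit 7],[nat_lit 5,nat_lit 6,nat_lit 4],[nat_lit 5,nat_lit 7,nat_lit 4]],[[nat_lit 5,nat_lit 7,
    nat_lit 5],[nat_lit 5,nat_lit 7,nat_lit 10],[nat_lit 5,nat_lit 7,nat_lit 11],[nat_lit 5,nat_lit 10,nat_lit 6],
    [nat_lit 5,nat_lit 12,nat_lit 14],[nat_lit 5,nat_lit 14,nat_lit 12],[nat_lit 5,nat_lit 14,nat_lit 13],[nat_lit 5,
    nat_lit 15,nat_lit 12],[nat_lit 6,nat_lit 2,nat_lit 8],[nat_lit 6,nat_lit 3,nat_lit 8],[nat_lit 6,nat_lit 4,
    nat_lit 4],[nat_lit 6,nat_lit 4,nat_lit 5]],[[nat_lit 6,nat_lit 4,nat_lit 10],[nat_lit 6,nat_lit 4,nat_lit 11],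
    [nat_lit 6,nat_lit 5,nat_lit 10],[nat_lit 6,nat_lit 9,nat_lit 3],[nat_lit 6,nat_lit 10,nat_lit 11],[nat_lit 6,
    nat_lit 13,nat_lit 8,nat_lit 10],[nat_lit 7,nat_lit 2,nat_lit 8],[nat_lit 7,nat_lit 4,nat_lit 5],[nat_lit 7,
    nat_lit 5,nat_lit 5],[nat_lit 7,nat_lit 9,nat_lit 2],[nat_lit 7,nat_lit 9,nat_lit 3],[nat_lit 7,nat_lit 10,
    nat_lit 5]],[[nat_lit 7,nat_lit 10,nat_lit 11],[nat_lit 7,nat_lit 11,nat_lit 4],[nat_lit 7,nat_lit 11,nat_lit 5],
    [nat_lit 7,nat_lit 11,nat_lit 9,nat_lit 12],[nat_lit 8,nat_lit 0,nat_lit 13],[nat_lit 8,nat_lit 1,nat_lit 12],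
    [nat_lit 8,nat_lit 1,nat_lit 13],[nat_lit 8,nat_lit 6,nat_lit 2],[nat_lit 8,nat_lit 6,nat_lit 3],[nat_lit 8,
    nat_lit 7,nat_lit 2],[nat_lit 8,nat_lit 10,nat_lit 6,nat_lit 13],[nat_lit 8,nat_lit 12,nat_lit 1]],[[nat_lit 8,
    nat_lit 13,nat_lit 0],[nat_lit 8,nat_lit 13,nat_lit 1],[nat_lit 8,nat_lit 14,nat_lit 12,nat_lit 12],[nat_lit 8,
    nat_lit 14,nat_lit 13,nat_lit 13],[nat_lit 9,nat_lit 0,nat_lit 12],[nat_lit 9,nat_lit 0,nat_lit 13],[nat_lit 9,
    nat_lit 1,nat_lit 12],[nat_lit 9,nat_lit 2,nat_lit 7],[nat_lit 9,nat_lit 3,nat_lit 6],[nat_lit 9,nat_lit 3,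
    nat_lit 7],[nat_lit 9,nat_lit 12,nat_lit 0],[nat_lit 9,nat_lit 12,nat_lit 1]],[[nat_lit 9,nat_lit 12,nat_lit 7,
    nat_lit 11],[nat_lit 9,nat_lit 12,nat_lit 12,nat_lit 15],[nat_lit 9,nat_lit 13,nat_lit 0],[nat_lit 9,nat_lit 13,
    nat_lit 13,nat_lit 15],[nat_lit 10,nat_lit 0],[nat_lit 10,nat_lit 1],[nat_lit 10,nat_lit 5,nat_lit 7],[nat_lit 10,
    nat_lit 6,nat_lit 4],[nat_lit 10,nat_lit 6,nat_lit 5],[nat_lit 10,nat_lit 6,nat_lit 13,nat_lit 8],[nat_lit 10,
    nat_lit 11,nat_lit 6],[nat_lit 10,nat_lit 11,nat_lit 7]],[[nat_lit 10,nat_lit 12,nat_lit 14],[nat_lit 10,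
    nat_lit 12,nat_lit 15],[nat_lit 10,nat_lit 13,nat_lit 14],[nat_lit 10,nat_lit 14,nat_lit 12],[nat_lit 10,
    nat_lit 14,nat_lit 13],[nat_lit 10,nat_lit 15,nat_lit 12],[nat_lit 10,nat_lit 15,nat_lit 13],[nat_lit 11,
    nat_lit 0],[nat_lit 11,nat_lit 1],[nat_lit 11,nat_lit 4,nat_lit 7],[nat_lit 11,nat_lit 5,nat_lit 7],[nat_lit 11,
    nat_lit 6,nat_lit 4]],[[nat_lit 11,nat_lit 6,nat_lit 10],[nat_lit 11,nat_lit 7,nat_lit 10],[nat_lit 11,nat_lit 9,
    nat_lit 12,nat_lit 7],[nat_lit 11,nat_lit 12,nat_lit 14],[nat_lit 11,nat_lit 12,nat_lit 15],[nat_lit 11,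
    nat_lit 13,nat_lit 14],[nat_lit 11,nat_lit 13,nat_lit 15],[nat_lit 11,nat_lit 14,nat_lit 13],[nat_lit 11,
    nat_lit 15,nat_lit 12],[nat_lit 11,nat_lit 15,nat_lit 13],[nat_lit 12,nat_lit 0,nat_lit 9],[nat_lit 12,nat_lit 1,
    nat_lit 8]],[[nat_lit 12,nat_lit 1,nat_lit 9],[nat_lit 12,nat_lit 5,nat_lit 14],[nat_lit 12,nat_lit 5,nat_lit 15],
    [nat_lit 12,nat_lit 7,nat_lit 11,nat_lit 9],[nat_lit 12,nat_lit 8,nat_lit 1],[nat_lit 12,nat_lit 8,nat_lit 14,
    nat_lit 12],[nat_lit 12,nat_lit 9,nat_lit 0],[nat_lit 12,nat_lit 9,nat_lit 1],[nat_lit 12,nat_lit 10,nat_lit 14],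
    [nat_lit 12,nat_lit 10,nat_lit 15],[nat_lit 12,nat_lit 11,nat_lit 15],[nat_lit 12,nat_lit 12,nat_lit 8,
    nat_lit 14]],[[nat_lit 12,nat_lit 12,nat_lit 15,nat_lit 9],[nat_lit 12,nat_lit 14,nat_lit 5],[nat_lit 12,
    nat_lit 14,nat_lit 10],[nat_lit 12,nat_lit 14,nat_lit 11],[nat_lit 12,nat_lit 15,nat_lit 4],[nat_lit 12,
    nat_lit 15,nat_lit 9,nat_lit 12],[nat_lit 12,nat_lit 15,nat_lit 10],[nat_lit 12,nat_lit 15,nat_lit 11],
    [nat_lit 13,nat_lit 0,nat_lit 8],[nat_lit 13,nat_lit 0,nat_lit 9],[nat_lit 13,nat_lit 1,nat_lit 8],[nat_lit 13,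
    nat_lit 4,nat_lit 15]],[[nat_lit 13,nat_lit 5,nat_lit 14],[nat_lit 13,nat_lit 8,nat_lit 0],[nat_lit 13,nat_lit 8,
    nat_lit 1],[nat_lit 13,nat_lit 8,nat_lit 10,nat_lit 6],[nat_lit 13,nat_lit 8,nat_lit 14,nat_lit 13],[nat_lit 13,
    nat_lit 9,nat_lit 0],[nat_lit 13,nat_lit 10,nat_lit 14],[nat_lit 13,nat_lit 10,nat_lit 15],[nat_lit 13,nat_lit 11,
    nat_lit 14],[nat_lit 13,nat_lit 11,nat_lit 15],[nat_lit 13,nat_lit 13,nat_lit 8,nat_lit 14],[nat_lit 13,
    nat_lit 13,nat_lit 15,nat_lit 9]],[[nat_lit 13,nat_lit 14,nat_lit 4],[nat_lit 13,nat_lit 14,nat_lit 10],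
    [nat_lit 13,nat_lit 14,nat_lit 11],[nat_lit 13,nat_lit 15,nat_lit 4],[nat_lit 13,nat_lit 15,nat_lit 9,nat_lit 13],
    [nat_lit 13,nat_lit 15,nat_lit 11],[nat_lit 14,nat_lit 2],[nat_lit 14,nat_lit 3],[nat_lit 14,nat_lit 4,
    nat_lit 13],[nat_lit 14,nat_lit 5,nat_lit 12],[nat_lit 14,nat_lit 10,nat_lit 12],[nat_lit 14,nat_lit 10,
    nat_lit 13]],[[nat_lit 14,nat_lit 11,nat_lit 12],[nat_lit 14,nat_lit 11,nat_lit 13],[nat_lit 14,nat_lit 12,
    nat_lit 5],[nat_lit 14,nat_lit 12,nat_lit 10],[nat_lit 14,nat_lit 12,nat_lit 12,nat_lit 8],[nat_lit 14,nat_lit 13,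
    nat_lit 5],[nat_lit 14,nat_lit 13,nat_lit 10],[nat_lit 14,nat_lit 13,nat_lit 11],[nat_lit 14,nat_lit 13,
    nat_lit 13,nat_lit 8],[nat_lit 15,nat_lit 2],[nat_lit 15,nat_lit 3],[nat_lit 15,nat_lit 4,nat_lit 12]],
    [[nat_lit 15,nat_lit 4,nat_lit 13],[nat_lit 15,nat_lit 9,nat_lit 12,nat_lit 12],[nat_lit 15,nat_lit 9,nat_lit 13,
    nat_lit 13],[nat_lit 15,nat_lit 10,nat_lit 12],[nat_lit 15,nat_lit 11,nat_lit 12],[nat_lit 15,nat_lit 11,
    nat_lit 13],[nat_lit 15,nat_lit 12,nat_lit 5],[nat_lit 15,nat_lit 12,nat_lit 10],[nat_lit 15,nat_lit 12,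
    nat_lit 11],[nat_lit 15,nat_lit 13,nat_lit 4],[nat_lit 15,nat_lit 13,nat_lit 10],[nat_lit 15,nat_lit 13,
    nat_lit 11]]]
    [[nat_lit 30,nat_lit 43,nat_lit 84,nat_lit 94,nat_lit 98,nat_lit 100,nat_lit 115,nat_lit 138,nat_lit 157,
    nat_lit 161,nat_lit 31,nat_lit 44],[nat_lit 83,nat_lit 85,nat_lit 95,nat_lit 101,nat_lit 116,nat_lit 136,
    nat_lit 139,nat_lit 158,nat_lit 69,nat_lit 79,nat_lit 81,nat_lit 174],[nat_lit 189,nat_lit 63,nat_lit 70,
    nat_lit 80,nat_lit 175,nat_lit 190,nat_lit 0,nat_lit 10,nat_lit 35,nat_lit 46,nat_lit 47,nat_lit 58],[nat_lit 73,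
    nat_lit 103,nat_lit 119,nat_lit 148,nat_lit 168,nat_lit 171,nat_lit 201,nat_lit 1,nat_lit 11,nat_lit 48,
    nat_lit 59,nat_lit 67],[nat_lit 68,nat_lit 71,nat_lit 74,nat_lit 104,nat_lit 145,nat_lit 182,nat_lit 185,
    nat_lit 198,nat_lit 21,nat_lit 27,nat_lit 32,nat_lit 33],[nat_lit 37,nat_lit 38,nat_lit 51,nat_lit 92,nat_lit 106,
    nat_lit 159,nat_lit 22,nat_lit 34,nat_lit 45,nat_lit 91,nat_lit 93,nat_lit 102],[nat_lit 107,nat_lit 117,
    nat_lit 118,nat_lit 122,nat_lit 8,nat_lit 17,nat_lit 19,nat_lit 56,nat_lit 57,nat_lit 66,nat_lit 105,nat_lit 131],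
    [nat_lit 152,nat_lit 154,nat_lit 184,nat_lit 188,nat_lit 7,nat_lit 9,nat_lit 18,nat_lit 20,nat_lit 25,nat_lit 26,
    nat_lit 130,nat_lit 132],[nat_lit 135,nat_lit 144,nat_lit 153,nat_lit 167,nat_lit 5,nat_lit 15,nat_lit 49,
    nat_lit 60,nat_lit 62,nat_lit 65,nat_lit 120,nat_lit 121],[nat_lit 146,nat_lit 150,nat_lit 169,nat_lit 183,
    nat_lit 186,nat_lit 199,nat_lit 202,nat_lit 6,nat_lit 16,nat_lit 36,nat_lit 50,nat_lit 61],[nat_lit 64,nat_lit 72,
    nat_lit 96,nat_lit 147,nat_lit 151,nat_lit 170,nat_lit 173,nat_lit 187,nat_lit 200,nat_lit 203,nat_lit 3,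
    nat_lit 12],[nat_lit 14,nat_lit 53,nat_lit 55,nat_lit 75,nat_lit 77,nat_lit 86,nat_lit 88,nat_lit 90,nat_lit 111,
    nat_lit 113,nat_lit 128,nat_lit 137],[nat_lit 149,nat_lit 177,nat_lit 178,nat_lit 180,nat_lit 191,nat_lit 193,
    nat_lit 195,nat_lit 196,nat_lit 2,nat_lit 4,nat_lit 13,nat_lit 42],[nat_lit 54,nat_lit 76,nat_lit 78,nat_lit 82,
    nat_lit 87,nat_lit 89,nat_lit 112,nat_lit 114,nat_lit 127,nat_lit 129,nat_lit 160,nat_lit 172],[nat_lit 176,
    nat_lit 179,nat_lit 181,nat_lit 192,nat_lit 194,nat_lit 197,nat_lit 23,nat_lit 28,nat_lit 40,nat_lit 52,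
    nat_lit 108,nat_lit 110],[nat_lit 123,nat_lit 125,nat_lit 133,nat_lit 140,nat_lit 143,nat_lit 156,nat_lit 162,
    nat_lit 164,nat_lit 166,nat_lit 24,nat_lit 29,nat_lit 39],[nat_lit 41,nat_lit 97,nat_lit 99,nat_lit 109,
    nat_lit 124,nat_lit 126,nat_lit 134,nat_lit 141,nat_lit 142,nat_lit 155,nat_lit 163,nat_lit 165]]
    [[nat_lit 30,nat_lit 43,nat_lit 152,nat_lit 130,nat_lit 153,nat_lit 100,nat_lit 115,nat_lit 88,nat_lit 76,
    nat_lit 89,nat_lit 31,nat_lit 44],[nat_lit 131,nat_lit 154,nat_lit 132,nat_lit 101,nat_lit 116,nat_lit 77,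
    nat_lit 90,nat_lit 78,nat_lit 91,nat_lit 56,nat_lit 66,nat_lit 174],[nat_lit 189,nat_lit 92,nat_lit 93,nat_lit 57,
    nat_lit 175,nat_lit 190,nat_lit 0,nat_lit 10,nat_lit 58,nat_lit 59,nat_lit 67,nat_lit 32],[nat_lit 117,nat_lit 60,
    nat_lit 61,nat_lit 191,nat_lit 176,nat_lit 192,nat_lit 155,nat_lit 1,nat_lit 11,nat_lit 68,nat_lit 33,nat_lit 34],
    [nat_lit 45,nat_lit 102,nat_lit 118,nat_lit 62,nat_lit 177,nat_lit 133,nat_lit 156,nat_lit 134,nat_lit 79,
    nat_lit 80,nat_lit 35,nat_lit 46],[nat_lit 103,nat_lit 119,nat_lit 104,nat_lit 25,nat_lit 120,nat_lit 105,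
    nat_lit 81,nat_lit 47,nat_lit 48,nat_lit 20,nat_lit 26,nat_lit 49],[nat_lit 121,nat_lit 36,nat_lit 50,nat_lit 135,
    nat_lit 157,nat_lit 136,nat_lit 158,nat_lit 21,nat_lit 27,nat_lit 22,nat_lit 159,nat_lit 12],[nat_lit 2,
    nat_lit 13,nat_lit 137,nat_lit 160,nat_lit 138,nat_lit 161,nat_lit 139,nat_lit 69,nat_lit 63,nat_lit 70,nat_lit 3,
    nat_lit 14],[nat_lit 122,nat_lit 193,nat_lit 4,nat_lit 194,nat_lit 5,nat_lit 15,nat_lit 71,nat_lit 37,nat_lit 51,
    nat_lit 82,nat_lit 64,nat_lit 72],[nat_lit 178,nat_lit 195,nat_lit 179,nat_lit 140,nat_lit 162,nat_lit 141,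
    nat_lit 163,nat_lit 6,nat_lit 16,nat_lit 73,nat_lit 74,nat_lit 38],[nat_lit 106,nat_lit 107,nat_lit 75,
    nat_lit 180,nat_lit 196,nat_lit 181,nat_lit 197,nat_lit 164,nat_lit 142,nat_lit 165,nat_lit 94,nat_lit 83],
    [nat_lit 95,nat_lit 182,nat_lit 198,nat_lit 96,nat_lit 17,nat_lit 143,nat_lit 7,nat_lit 18,nat_lit 183,
    nat_lit 199,nat_lit 200,nat_lit 184],[nat_lit 97,nat_lit 52,nat_lit 108,nat_lit 123,nat_lit 39,nat_lit 144,
    nat_lit 109,nat_lit 124,nat_lit 84,nat_lit 98,nat_lit 85,nat_lit 201],[nat_lit 185,nat_lit 8,nat_lit 19,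
    nat_lit 65,nat_lit 166,nat_lit 9,nat_lit 186,nat_lit 202,nat_lit 187,nat_lit 203,nat_lit 188,nat_lit 99],
    [nat_lit 40,nat_lit 110,nat_lit 125,nat_lit 41,nat_lit 167,nat_lit 126,nat_lit 23,nat_lit 28,nat_lit 168,
    nat_lit 145,nat_lit 146,nat_lit 169],[nat_lit 147,nat_lit 170,nat_lit 53,nat_lit 111,nat_lit 86,nat_lit 54,
    nat_lit 112,nat_lit 127,nat_lit 87,nat_lit 24,nat_lit 29,nat_lit 148],[nat_lit 171,nat_lit 149,nat_lit 172,
    nat_lit 150,nat_lit 151,nat_lit 173,nat_lit 55,nat_lit 113,nat_lit 128,nat_lit 42,nat_lit 114,nat_lit 129]]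
    [[[],[nat_lit 175],[nat_lit 183,nat_lit 186],[],[],[nat_lit 177,nat_lit 178,nat_lit 180],[],[],[nat_lit 187],
    [nat_lit 187],[nat_lit 27],[]],[[],[],[],[],[nat_lit 25,nat_lit 26],[nat_lit 28],[nat_lit 28],[],[nat_lit 1],
    [nat_lit 5],[nat_lit 5],[]],[[nat_lit 2,nat_lit 4],[],[nat_lit 48],[nat_lit 49],[nat_lit 43],[nat_lit 54],[],
    [nat_lit 24],[nat_lit 21],[],[],[]],[[],[],[nat_lit 20],[nat_lit 23],[],[],[],[nat_lit 69],[],[nat_lit 70],
    [nat_lit 66],[nat_lit 67,nat_lit 68,nat_lit 71,nat_lit 74]],[[nat_lit 67,nat_lit 68,nat_lit 71,nat_lit 74],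
    [nat_lit 67,nat_lit 68,nat_lit 71,nat_lit 74],[nat_lit 67,nat_lit 68,nat_lit 71,nat_lit 74],[nat_lit 75],[],[],[],
    [],[nat_lit 35],[nat_lit 31],[nat_lit 32,nat_lit 33,nat_lit 37,nat_lit 38],[nat_lit 32,nat_lit 33,nat_lit 37,
    nat_lit 38]],[[nat_lit 32,nat_lit 33,nat_lit 37,nat_lit 38],[nat_lit 32,nat_lit 33,nat_lit 37,nat_lit 38],[],
    [nat_lit 34],[],[nat_lit 36],[],[nat_lit 92],[],[nat_lit 91,nat_lit 93],[nat_lit 91,nat_lit 93],[nat_lit 88,
    nat_lit 90]],[[nat_lit 88,nat_lit 90],[],[],[],[],[],[],[nat_lit 56,nat_lit 57],[nat_lit 56,nat_lit 57],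
    [nat_lit 59],[],[]],[[nat_lit 61,nat_lit 64],[nat_lit 61,nat_lit 64],[],[],[],[],[nat_lit 124,nat_lit 126],
    [nat_lit 119],[nat_lit 116],[nat_lit 116],[nat_lit 123,nat_lit 125],[nat_lit 123,nat_lit 125]],[[nat_lit 123,
    nat_lit 125],[nat_lit 123,nat_lit 125],[],[],[nat_lit 79,nat_lit 81],[],[nat_lit 80],[],[],[],[],[]],[[],[],[],
    [nat_lit 84],[nat_lit 84],[nat_lit 76,nat_lit 78,nat_lit 82,nat_lit 87],[nat_lit 76,nat_lit 78,nat_lit 82,
    nat_lit 87],[],[nat_lit 155,nat_lit 163,nat_lit 165],[nat_lit 159],[],[nat_lit 152,nat_lit 154]],[[nat_lit 152,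
    nat_lit 154],[],[],[nat_lit 156,nat_lit 162,nat_lit 164,nat_lit 166],[nat_lit 156,nat_lit 162,nat_lit 164,
    nat_lit 166],[nat_lit 170,nat_lit 173],[nat_lit 170,nat_lit 173],[nat_lit 157,nat_lit 161],[nat_lit 160,
    nat_lit 172],[nat_lit 160,nat_lit 172],[],[nat_lit 109]],[[nat_lit 109],[],[],[nat_lit 104],[],[],[nat_lit 102,
    nat_lit 107],[nat_lit 102,nat_lit 107],[nat_lit 111,nat_lit 113],[nat_lit 111,nat_lit 113],[],[nat_lit 108,
    nat_lit 110]],[[nat_lit 108,nat_lit 110],[nat_lit 100],[nat_lit 100],[nat_lit 100],[nat_lit 112,nat_lit 114],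
    [nat_lit 112,nat_lit 114],[nat_lit 112,nat_lit 114],[nat_lit 112,nat_lit 114],[nat_lit 189],[nat_lit 189],[],[]],
    [[nat_lit 190],[nat_lit 199,nat_lit 202],[nat_lit 199,nat_lit 202],[nat_lit 199,nat_lit 202],[nat_lit 199,
    nat_lit 202],[],[nat_lit 191,nat_lit 193,nat_lit 195,nat_lit 196],[nat_lit 191,nat_lit 193,nat_lit 195,
    nat_lit 196],[],[],[nat_lit 200,nat_lit 203],[nat_lit 200,nat_lit 203]],[[],[],[],[nat_lit 192,nat_lit 194,
    nat_lit 197],[nat_lit 192,nat_lit 194,nat_lit 197],[nat_lit 192,nat_lit 194,nat_lit 197],[nat_lit 148],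
    [nat_lit 136,nat_lit 139],[],[],[nat_lit 137,nat_lit 149],[nat_lit 137,nat_lit 149]],[[nat_lit 130,nat_lit 132,
    nat_lit 135,nat_lit 144],[nat_lit 130,nat_lit 132,nat_lit 135,nat_lit 144],[nat_lit 133,nat_lit 140,nat_lit 143],
    [nat_lit 133,nat_lit 140,nat_lit 143],[nat_lit 133,nat_lit 140,nat_lit 143],[nat_lit 147,nat_lit 151],
    [nat_lit 147,nat_lit 151],[nat_lit 147,nat_lit 151],[nat_lit 147,nat_lit 151],[nat_lit 10],[],[]],[[],[],[],
    [nat_lit 12,nat_lit 14],[nat_lit 18],[nat_lit 18],[],[],[],[nat_lit 16],[nat_lit 16],[nat_lit 16]]]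
    (nat_lit 204) [nat_lit 0,nat_lit 1,nat_lit 2,nat_lit 3,nat_lit 4,nat_lit 5,nat_lit 6,nat_lit 7,nat_lit 8,
    nat_lit 9,nat_lit 10,nat_lit 11,nat_lit 12,nat_lit 13,nat_lit 14,nat_lit 15,nat_lit 16,nat_lit 17,nat_lit 18,
    nat_lit 19,nat_lit 20,nat_lit 21,nat_lit 22,nat_lit 23,nat_lit 24,nat_lit 25,nat_lit 26,nat_lit 27,nat_lit 28,
    nat_lit 29,nat_lit 32,nat_lit 33,nat_lit 34,nat_lit 35,nat_lit 36,nat_lit 37,nat_lit 38,nat_lit 39,nat_lit 40,
    nat_lit 41,nat_lit 42,nat_lit 45,nat_lit 48,nat_lit 49,nat_lit 50,nat_lit 51,nat_lit 52,nat_lit 53,nat_lit 54,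
    nat_lit 55,nat_lit 64,nat_lit 65,nat_lit 72,nat_lit 75,nat_lit 86,nat_lit 87,nat_lit 97,nat_lit 99,nat_lit 108,
    nat_lit 109,nat_lit 110,nat_lit 111,nat_lit 112,nat_lit 113,nat_lit 114,nat_lit 123,nat_lit 124,nat_lit 125,
    nat_lit 126,nat_lit 127,nat_lit 128,nat_lit 129]
    [[[],[],[],[],[nat_lit 0],[nat_lit 1],[],[],[nat_lit 8],[nat_lit 7,nat_lit 9],[nat_lit 5],[nat_lit 6],[nat_lit 3],
    [nat_lit 2,nat_lit 4],[],[]],[[],[],[],[],[nat_lit 10],[nat_lit 11],[],[],[nat_lit 17,nat_lit 19],[nat_lit 18],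
    [nat_lit 15],[nat_lit 16],[nat_lit 12,nat_lit 14],[nat_lit 13],[],[]],[[],[],[],[],[],[],[nat_lit 21],
    [nat_lit 22],[],[nat_lit 20],[],[],[],[],[nat_lit 23],[nat_lit 24]],[[],[],[],[],[],[],[nat_lit 27],[],[],
    [nat_lit 25,nat_lit 26],[],[],[],[],[nat_lit 28],[nat_lit 29]],[[nat_lit 30],[nat_lit 31],[],[],[nat_lit 35],[],
    [nat_lit 32,nat_lit 33,nat_lit 37,nat_lit 38],[nat_lit 34],[],[],[],[nat_lit 36],[],[nat_lit 42],[nat_lit 40],
    [nat_lit 39,nat_lit 41]],[[nat_lit 43],[nat_lit 44],[],[],[nat_lit 46,nat_lit 47],[nat_lit 48],[nat_lit 51],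
    [nat_lit 45],[],[],[nat_lit 49],[nat_lit 50],[nat_lit 53,nat_lit 55],[nat_lit 54],[nat_lit 52],[]],[[],[],[],
    [nat_lit 63],[nat_lit 58],[nat_lit 59],[],[],[nat_lit 56,nat_lit 57],[],[nat_lit 60,nat_lit 62,nat_lit 65],
    [nat_lit 61,nat_lit 64],[],[],[],[]],[[],[],[nat_lit 69],[nat_lit 70],[nat_lit 73],[nat_lit 67,nat_lit 68,
    nat_lit 71,nat_lit 74],[],[],[nat_lit 66],[],[],[nat_lit 72],[nat_lit 75],[],[],[]],[[nat_lit 84],[nat_lit 83,
    nat_lit 85],[nat_lit 79,nat_lit 81],[nat_lit 80],[],[],[],[],[],[],[],[],[nat_lit 77,nat_lit 86],[nat_lit 76,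
    nat_lit 78,nat_lit 82,nat_lit 87],[],[]],[[nat_lit 94,nat_lit 98],[nat_lit 95],[],[],[],[],[nat_lit 92],
    [nat_lit 91,nat_lit 93],[],[],[],[nat_lit 96],[nat_lit 88,nat_lit 90],[nat_lit 89],[],[nat_lit 97,nat_lit 99]],
    [[nat_lit 100],[nat_lit 101],[],[],[nat_lit 103],[nat_lit 104],[nat_lit 106],[nat_lit 102,nat_lit 107],
    [nat_lit 105],[],[],[],[nat_lit 111,nat_lit 113],[nat_lit 112,nat_lit 114],[nat_lit 108,nat_lit 110],
    [nat_lit 109]],[[nat_lit 115],[nat_lit 116],[],[],[nat_lit 119],[],[],[nat_lit 117,nat_lit 118,nat_lit 122],[],[],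
    [nat_lit 120,nat_lit 121],[],[nat_lit 128],[nat_lit 127,nat_lit 129],[nat_lit 123,nat_lit 125],[nat_lit 124,
    nat_lit 126]],[[nat_lit 138],[nat_lit 136,nat_lit 139],[],[],[nat_lit 148],[nat_lit 145],[],[],[nat_lit 131],
    [nat_lit 130,nat_lit 132,nat_lit 135,nat_lit 144],[nat_lit 146,nat_lit 150],[nat_lit 147,nat_lit 151],
    [nat_lit 137,nat_lit 149],[],[nat_lit 133,nat_lit 140,nat_lit 143],[nat_lit 134,nat_lit 141,nat_lit 142]],
    [[nat_lit 157,nat_lit 161],[nat_lit 158],[],[],[nat_lit 168,nat_lit 171],[],[nat_lit 159],[],[nat_lit 152,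
    nat_lit 154],[nat_lit 153,nat_lit 167],[nat_lit 169],[nat_lit 170,nat_lit 173],[],[nat_lit 160,nat_lit 172],
    [nat_lit 156,nat_lit 162,nat_lit 164,nat_lit 166],[nat_lit 155,nat_lit 163,nat_lit 165]],[[],[],[nat_lit 174],
    [nat_lit 175],[],[nat_lit 182,nat_lit 185],[],[],[nat_lit 184,nat_lit 188],[],[nat_lit 183,nat_lit 186],
    [nat_lit 187],[nat_lit 177,nat_lit 178,nat_lit 180],[nat_lit 176,nat_lit 179,nat_lit 181],[],[]],[[],[],
    [nat_lit 189],[nat_lit 190],[nat_lit 201],[nat_lit 198],[],[],[],[],[nat_lit 199,nat_lit 202],[nat_lit 200,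
    nat_lit 203],[nat_lit 191,nat_lit 193,nat_lit 195,nat_lit 196],[nat_lit 192,nat_lit 194,nat_lit 197],[],[]]]
    [[[nat_lit 0,nat_lit 0x80000000000000000000000000000000000000000000,
    nat_lit 0x48000000000000000000000000000000000000000000000,nat_lit 0,nat_lit 0,
    nat_lit 0x1600000000000000000000000000000000000000000000,nat_lit 0,nat_lit 0,
    nat_lit 0x80000000000000000000000000000000000000000000000],
    [nat_lit 0x80000000000000000000000000000000000000000000000,nat_lit 0x8000000,nat_lit 0,nat_lit 0,nat_lit 0,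
    nat_lit 0,nat_lit 0,nat_lit 0x6000000,nat_lit 0x10000000],[nat_lit 0x10000000,nat_lit 0,nat_lit 2,nat_lit 32,
    nat_lit 32,nat_lit 0,nat_lit 20,nat_lit 0,nat_lit 0x1000000000000],[nat_lit 0x2000000000000,nat_lit 0x80000000000,
    nat_lit 0x40000000000000,nat_lit 0,nat_lit 0x1000000,nat_lit 0x200000,nat_lit 0,nat_lit 0,nat_lit 0],[nat_lit 0,
    nat_lit 0,nat_lit 0x100000,nat_lit 0x800000,nat_lit 0,nat_lit 0,nat_lit 0,nat_lit 0x200000000000000000,nat_lit 0],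
    [nat_lit 0x400000000000000000,nat_lit 0x40000000000000000,nat_lit 0x4980000000000000000,
    nat_lit 0x4980000000000000000,nat_lit 0x4980000000000000000,nat_lit 0x4980000000000000000,
    nat_lit 0x8000000000000000000,nat_lit 0,nat_lit 0],[nat_lit 0,nat_lit 0,nat_lit 0x800000000,nat_lit 0x80000000,
    nat_lit 0x6300000000,nat_lit 0x6300000000,nat_lit 0x6300000000,nat_lit 0x6300000000,nat_lit 0],
    [nat_lit 0x400000000,nat_lit 0,nat_lit 0x1000000000,nat_lit 0,nat_lit 0x100000000000000000000000,nat_lit 0,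
    nat_lit 0x280000000000000000000000,nat_lit 0x280000000000000000000000,nat_lit 0x50000000000000000000000],
    [nat_lit 0x50000000000000000000000,nat_lit 0,nat_lit 0,nat_lit 0,nat_lit 0,nat_lit 0,nat_lit 0,
    nat_lit 0x300000000000000,nat_lit 0x300000000000000]],[[nat_lit 0x800000000000000,nat_lit 0,nat_lit 0,
    nat_lit 0x12000000000000000,nat_lit 0x12000000000000000,nat_lit 0,nat_lit 0,nat_lit 0,nat_lit 0],
    [nat_lit 0x50000000000000000000000000000000,nat_lit 0x800000000000000000000000000000,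
    nat_lit 0x100000000000000000000000000000,nat_lit 0x100000000000000000000000000000,
    nat_lit 0x28000000000000000000000000000000,nat_lit 0x28000000000000000000000000000000,
    nat_lit 0x28000000000000000000000000000000,nat_lit 0x28000000000000000000000000000000,nat_lit 0],[nat_lit 0,
    nat_lit 0x280000000000000000000,nat_lit 0,nat_lit 0x100000000000000000000,nat_lit 0,nat_lit 0,nat_lit 0,nat_lit 0,
    nat_lit 0],[nat_lit 0,nat_lit 0,nat_lit 0,nat_lit 0x1000000000000000000000,nat_lit 0x1000000000000000000000,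
    nat_lit 0x8450000000000000000000,nat_lit 0x8450000000000000000000,nat_lit 0,
    nat_lit 0x280800000000000000000000000000000000000000],[nat_lit 0x8000000000000000000000000000000000000000,
    nat_lit 0,nat_lit 0x500000000000000000000000000000000000000,nat_lit 0x500000000000000000000000000000000000000,
    nat_lit 0,nat_lit 0,nat_lit 0x541000000000000000000000000000000000000000,
    nat_lit 0x541000000000000000000000000000000000000000,nat_lit 0x24000000000000000000000000000000000000000000],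
    [nat_lit 0x24000000000000000000000000000000000000000000,nat_lit 0x22000000000000000000000000000000000000000,
    nat_lit 0x10010000000000000000000000000000000000000000,nat_lit 0x10010000000000000000000000000000000000000000,
    nat_lit 0,nat_lit 0x2000000000000000000000000000,nat_lit 0x2000000000000000000000000000,nat_lit 0,nat_lit 0],
    [nat_lit 0x100000000000000000000000000,nat_lit 0,nat_lit 0,nat_lit 0x840000000000000000000000000,
    nat_lit 0x840000000000000000000000000,nat_lit 0x28000000000000000000000000000,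
    nat_lit 0x28000000000000000000000000000,nat_lit 0,nat_lit 0x5000000000000000000000000000],
    [nat_lit 0x5000000000000000000000000000,nat_lit 0x10000000000000000000000000,nat_lit 0x10000000000000000000000000,
    nat_lit 0x10000000000000000000000000,nat_lit 0x50000000000000000000000000000,
    nat_lit 0x50000000000000000000000000000,nat_lit 0x50000000000000000000000000000,
    nat_lit 0x50000000000000000000000000000,nat_lit 0x200000000000000000000000000000000000000000000000],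
    [nat_lit 0x200000000000000000000000000000000000000000000000,nat_lit 0,nat_lit 0,
    nat_lit 0x400000000000000000000000000000000000000000000000,
    nat_lit 0x480000000000000000000000000000000000000000000000000,
    nat_lit 0x480000000000000000000000000000000000000000000000000,
    nat_lit 0x480000000000000000000000000000000000000000000000000,
    nat_lit 0x480000000000000000000000000000000000000000000000000,nat_lit 0]],
    [[nat_lit 0x1a800000000000000000000000000000000000000000000000,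
    nat_lit 0x1a800000000000000000000000000000000000000000000000,nat_lit 0,nat_lit 0,
    nat_lit 0x900000000000000000000000000000000000000000000000000,
    nat_lit 0x900000000000000000000000000000000000000000000000000,nat_lit 0,nat_lit 0,nat_lit 0],
    [nat_lit 0x25000000000000000000000000000000000000000000000000,
    nat_lit 0x25000000000000000000000000000000000000000000000000,
    nat_lit 0x25000000000000000000000000000000000000000000000000,nat_lit 0x10000000000000000000000000000000000000,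
    nat_lit 0x90000000000000000000000000000000000,nat_lit 0,nat_lit 0,
    nat_lit 0x20020000000000000000000000000000000000,nat_lit 0x20020000000000000000000000000000000000],
    [nat_lit 0x1009400000000000000000000000000000000,nat_lit 0x1009400000000000000000000000000000000,
    nat_lit 0x902000000000000000000000000000000000,nat_lit 0x902000000000000000000000000000000000,
    nat_lit 0x902000000000000000000000000000000000,nat_lit 0x88000000000000000000000000000000000000,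
    nat_lit 0x88000000000000000000000000000000000000,nat_lit 0x88000000000000000000000000000000000000,
    nat_lit 0x88000000000000000000000000000000000000],[nat_lit 0x400,nat_lit 0,nat_lit 0,nat_lit 0,nat_lit 0,
    nat_lit 0,nat_lit 0x5000,nat_lit 0x40000,nat_lit 0x40000],[nat_lit 0,nat_lit 0,nat_lit 0,nat_lit 0x10000,
    nat_lit 0x10000,nat_lit 0x10000]]]
    [[[[nat_lit 0,nat_lit 0x80000000000000000000000000000000000000000000,
    nat_lit 0x40000000000000000000000000000000000000000000000,nat_lit 0,nat_lit 0,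
    nat_lit 0x1000000000000000000000000000000000000000000000,nat_lit 0,nat_lit 0,nat_lit 0],[nat_lit 0,
    nat_lit 0x8000000,nat_lit 0,nat_lit 0,nat_lit 0,nat_lit 0,nat_lit 0,nat_lit 0x4000000,nat_lit 0],[nat_lit 0,
    nat_lit 0,nat_lit 2,nat_lit 32,nat_lit 0,nat_lit 0,nat_lit 0,nat_lit 0,nat_lit 0],[nat_lit 0,nat_lit 0,nat_lit 0,
    nat_lit 0,nat_lit 0,nat_lit 0,nat_lit 0,nat_lit 0,nat_lit 0],[nat_lit 0,nat_lit 0,nat_lit 0,nat_lit 0,nat_lit 0,
    nat_lit 0,nat_lit 0,nat_lit 0,nat_lit 0],[nat_lit 0x400000000000000000,nat_lit 0,nat_lit 0,nat_lit 0,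
    nat_lit 0x100000000000000000,nat_lit 0,nat_lit 0,nat_lit 0,nat_lit 0],[nat_lit 0,nat_lit 0,nat_lit 0x800000000,
    nat_lit 0,nat_lit 0x4000000000,nat_lit 0,nat_lit 0,nat_lit 0,nat_lit 0],[nat_lit 0,nat_lit 0,nat_lit 0,nat_lit 0,
    nat_lit 0,nat_lit 0,nat_lit 0,nat_lit 0x80000000000000000000000,nat_lit 0],[nat_lit 0,nat_lit 0,nat_lit 0,
    nat_lit 0,nat_lit 0,nat_lit 0,nat_lit 0,nat_lit 0,nat_lit 0x100000000000000]],[[nat_lit 0,nat_lit 0,nat_lit 0,
    nat_lit 0,nat_lit 0,nat_lit 0,nat_lit 0,nat_lit 0,nat_lit 0],[nat_lit 0x10000000000000000000000000000000,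
    nat_lit 0,nat_lit 0,nat_lit 0x100000000000000000000000000000,nat_lit 0,nat_lit 0,nat_lit 0,nat_lit 0,nat_lit 0],
    [nat_lit 0,nat_lit 0x80000000000000000000,nat_lit 0,nat_lit 0,nat_lit 0,nat_lit 0,nat_lit 0,nat_lit 0,nat_lit 0],
    [nat_lit 0,nat_lit 0,nat_lit 0,nat_lit 0,nat_lit 0x1000000000000000000000,nat_lit 0,nat_lit 0,nat_lit 0,
    nat_lit 0x200000000000000000000000000000000000000000],[nat_lit 0,nat_lit 0,
    nat_lit 0x100000000000000000000000000000000000000,nat_lit 0,nat_lit 0,nat_lit 0,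
    nat_lit 0x40000000000000000000000000000000000000000,nat_lit 0,nat_lit 0],[nat_lit 0,nat_lit 0,nat_lit 0,
    nat_lit 0x10000000000000000000000000000000000000000,nat_lit 0,nat_lit 0,nat_lit 0,nat_lit 0,nat_lit 0],[nat_lit 0,
    nat_lit 0,nat_lit 0,nat_lit 0,nat_lit 0x40000000000000000000000000,nat_lit 0,nat_lit 0,nat_lit 0,nat_lit 0],
    [nat_lit 0x1000000000000000000000000000,nat_lit 0,nat_lit 0x10000000000000000000000000,nat_lit 0,nat_lit 0,
    nat_lit 0,nat_lit 0,nat_lit 0x40000000000000000000000000000,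
    nat_lit 0x200000000000000000000000000000000000000000000000],[nat_lit 0,nat_lit 0,nat_lit 0,nat_lit 0,nat_lit 0,
    nat_lit 0,nat_lit 0,nat_lit 0,nat_lit 0]],[[nat_lit 0x2000000000000000000000000000000000000000000000000,nat_lit 0,
    nat_lit 0,nat_lit 0,nat_lit 0,nat_lit 0,nat_lit 0,nat_lit 0,nat_lit 0],[nat_lit 0,nat_lit 0,nat_lit 0,nat_lit 0,
    nat_lit 0x80000000000000000000000000000000000,nat_lit 0,nat_lit 0,nat_lit 0,nat_lit 0],[nat_lit 0,nat_lit 0,
    nat_lit 0,nat_lit 0,nat_lit 0,nat_lit 0,nat_lit 0,nat_lit 0,nat_lit 0x80000000000000000000000000000000000000],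
    [nat_lit 0x400,nat_lit 0,nat_lit 0,nat_lit 0,nat_lit 0,nat_lit 0,nat_lit 0,nat_lit 0x40000,nat_lit 0],[nat_lit 0,
    nat_lit 0,nat_lit 0,nat_lit 0,nat_lit 0x10000,nat_lit 0]]]]
    (nat_lit 1) (nat_lit 3) (nat_lit 27)
    [[nat_lit 2,nat_lit 0x10001,nat_lit 0x1000001],[nat_lit 32,nat_lit 272,nat_lit 0x1000110,nat_lit 0x1010,
    nat_lit 0x1001010,nat_lit 0x101010,nat_lit 0x10010,nat_lit 0x110010,nat_lit 0x1010010,nat_lit 0x100010,
    nat_lit 0x1100010,nat_lit 0x1000010,nat_lit 0x2000010],[nat_lit 512,nat_lit 768,nat_lit 0x10200,nat_lit 0x100200,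
    nat_lit 0x1000200,nat_lit 0x1100,nat_lit 0x2100,nat_lit 0x11100,nat_lit 0x1001100,nat_lit 0x10100,nat_lit 0x20100,
    nat_lit 0x110100,nat_lit 0x1010100,nat_lit 0x100100,nat_lit 0x1100100,nat_lit 0x1000100,nat_lit 0x2000100,
    nat_lit 0x10000100],[nat_lit 0x2000,nat_lit 0x3000,nat_lit 0x12000,nat_lit 0x102000,nat_lit 0x1002000,
    nat_lit 0x11000,nat_lit 0x21000,nat_lit 0x111000,nat_lit 0x1011000,nat_lit 0x2011000,nat_lit 0x101000,
    nat_lit 0x1101000,nat_lit 0x1001000,nat_lit 0x2001000,nat_lit 0x11001000,nat_lit 0x10001000,nat_lit 0x10101000],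
    [nat_lit 0x20000,nat_lit 0x30000,nat_lit 0x120000,nat_lit 0x1020000,nat_lit 0x2020000,nat_lit 0x110000,
    nat_lit 0x210000,nat_lit 0x1110000,nat_lit 0x1120000,nat_lit 0x2110000,nat_lit 0x10110000,nat_lit 0x1010000,
    nat_lit 0x2010000,nat_lit 0x3010000,nat_lit 0x11010000,nat_lit 0x10010000],[nat_lit 0x200000,nat_lit 0x1200000,
    nat_lit 0x2200000,nat_lit 0x1100000,nat_lit 0x2100000,nat_lit 0x3100000,nat_lit 0x10100000],[nat_lit 0x2000000,
    nat_lit 0x3000000,nat_lit 0x4000000,nat_lit 0x12000000,nat_lit 0x11000000],[nat_lit 0x20000000]]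
    [.c (nat_lit 1) (nat_lit 2),.c (nat_lit 0) (nat_lit 0x80010003),.c (nat_lit 0) (nat_lit 0x80010003),
    .c (nat_lit 2) (nat_lit 2),.r (nat_lit 0xdb3) (nat_lit 9) [nat_lit 0x4210061,nat_lit 0x1800318801],
    .c (nat_lit 2) (nat_lit 0x300802),.c (nat_lit 0) (nat_lit 0x84000803),
    .r (nat_lit 0xdc2) (nat_lit 10) [nat_lit 0x18c6018801,nat_lit 0x1084010061],.c (nat_lit 0) (nat_lit 0x80210062),
    .c (nat_lit 1) (nat_lit 0x80020803),.r (nat_lit 0xdb5) (nat_lit 11) [nat_lit 0x6000861,nat_lit 65],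
    .r (nat_lit 0xdb3) (nat_lit 9) [nat_lit 0x1000210061,nat_lit 0x1800318801],
    .r (nat_lit 0xdb3) (nat_lit 9) [nat_lit 0x18c6000861,nat_lit 0x1800318801],.c (nat_lit 2) (nat_lit 0x84211062),
    .r (nat_lit 0xdba) (nat_lit 10) [nat_lit 0x18c6018801,nat_lit 65],.r (nat_lit 0x536) (nat_lit 0) [nat_lit 0x20001,
    nat_lit 0x420041,nat_lit 0x8028061,nat_lit 0x100040081,nat_lit 0x20000280a1,nat_lit 0x294a549061],
    .c (nat_lit 3) (nat_lit 2),.r (nat_lit 0xdb5) (nat_lit 11) [nat_lit 0x8c200061,nat_lit 0xd2300841],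
    .r (nat_lit 0xb9d) (nat_lit 11) [nat_lit 0x40001,nat_lit 0x5a5a95a041,nat_lit 0x300a018041,nat_lit 0x22100200a1,
    nat_lit 0x1808018041],.r (nat_lit 0xdb5) (nat_lit 11) [nat_lit 0x1804018861,nat_lit 0x100a010041],
    .r (nat_lit 0xdb3) (nat_lit 9) [nat_lit 0x8200061,nat_lit 0x1800318801],.c (nat_lit 0) (nat_lit 0x4400003),
    .r (nat_lit 0xdb5) (nat_lit 11) [nat_lit 0xc6200041,nat_lit 0x80300861],.c (nat_lit 0) (nat_lit 0x84200003),
    .c (nat_lit 0) (nat_lit 0x84200003),.c (nat_lit 0) (nat_lit 0x84200003),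
    .r (nat_lit 0x537) (nat_lit 6) [nat_lit 0x495294a001,nat_lit 0x2110421401,nat_lit 0x7298a72c61,
    nat_lit 0x294a029001,nat_lit 0x7adab5a841,nat_lit 0x5190631c61],.r (nat_lit 0xb9d) (nat_lit 11) [nat_lit 0x40001,
    nat_lit 0x49d2749841,nat_lit 0x4080200c41,nat_lit 0x1005010a1,nat_lit 0x90200c41],
    .c (nat_lit 1) (nat_lit 0x80220003),.c (nat_lit 1) (nat_lit 0xc6010c43),
    .r (nat_lit 0xdb3) (nat_lit 9) [nat_lit 0x18c0018861,nat_lit 0x1800318801],.c (nat_lit 0) (nat_lit 0x200c03),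
    .r (nat_lit 0xdba) (nat_lit 10) [nat_lit 0x18c6018801,nat_lit 0x6010041],.c (nat_lit 0) (nat_lit 0x200003),
    .c (nat_lit 4) (nat_lit 2),.r (nat_lit 0xdb5) (nat_lit 11) [nat_lit 0xc0400042,nat_lit 0x8a501062],
    .r (nat_lit 0x10d3) (nat_lit 2) [nat_lit 0x180a529061,nat_lit 0x18c0000041,nat_lit 0x1108000061,nat_lit 0x10001,
    nat_lit 0x1940400041],.r (nat_lit 0xdb5) (nat_lit 11) [nat_lit 0x1004410c41,nat_lit 0x180a519061],
    .r (nat_lit 0x538) (nat_lit 2) [nat_lit 0x152000041,nat_lit 0x114000061,nat_lit 0x4200001,nat_lit 0x156010041,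
    nat_lit 0x88000001,nat_lit 0x110c000061],.c (nat_lit 0) (nat_lit 0x104000005),
    .c (nat_lit 0) (nat_lit 0x104000003),.c (nat_lit 0) (nat_lit 0x318c43),.c (nat_lit 0) (nat_lit 0x104000005),
    .c (nat_lit 0) (nat_lit 0x104000003),.c (nat_lit 0) (nat_lit 0x146529485),.c (nat_lit 0) (nat_lit 0x318c43),
    .c (nat_lit 0) (nat_lit 0x188000005),.c (nat_lit 0) (nat_lit 0x104000003),
    .r (nat_lit 0xdb5) (nat_lit 11) [nat_lit 0x200041,nat_lit 0x6300861],
    .r (nat_lit 0x10d3) (nat_lit 2) [nat_lit 0x28ca529061,nat_lit 65,nat_lit 0x88000061,nat_lit 0x10001,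
    nat_lit 0xc0400041],.r (nat_lit 0xdb3) (nat_lit 9) [nat_lit 0x1004410c41,nat_lit 0x1800318801],
    .c (nat_lit 5) (nat_lit 2),.r (nat_lit 0x539) (nat_lit 8) [nat_lit 0x39ce039801,nat_lit 65,nat_lit 0x180d00001,
    nat_lit 0xc600001,nat_lit 0x3000c30061,nat_lit 0x3800d00041],.r (nat_lit 0x537) (nat_lit 6) [nat_lit 0x495294a001,
    nat_lit 0x2110421401,nat_lit 0x6210862461,nat_lit 0x294a029001,nat_lit 0x6a5294a041,nat_lit 0x4108421461],
    .c (nat_lit 0) (nat_lit 0x104000003),.c (nat_lit 1) (nat_lit 0x100020003),.c (nat_lit 0) (nat_lit 0x318c43),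
    .r (nat_lit 0xb9d) (nat_lit 11) [nat_lit 0x40001,nat_lit 0x394a539041,nat_lit 0x5108411441,nat_lit 0x281292a0a1,
    nat_lit 0x1118411441],.c (nat_lit 1) (nat_lit 0x6310c43),.r (nat_lit 0xb9d) (nat_lit 11) [nat_lit 0x40001,
    nat_lit 0x59ce749841,nat_lit 0x3084200c41,nat_lit 0x210a5010a1,nat_lit 0x1894200c41],
    .r (nat_lit 0xdb3) (nat_lit 9) [nat_lit 0xc6018861,nat_lit 0x1800318801],
    .r (nat_lit 0xdc2) (nat_lit 10) [nat_lit 0x18c6018801,nat_lit 0x1088210c41],.c (nat_lit 0) (nat_lit 0x80000005),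
    .c (nat_lit 0) (nat_lit 0x80000c03),.r (nat_lit 0xdba) (nat_lit 10) [nat_lit 0x18c6018801,nat_lit 0x1800010041],
    .c (nat_lit 0) (nat_lit 0x80000003),.c (nat_lit 0) (nat_lit 0x80000003),.c (nat_lit 6) (nat_lit 2),
    .r (nat_lit 0xdb3) (nat_lit 9) [nat_lit 0x294a329061,nat_lit 0x1800318801],.c (nat_lit 2) (nat_lit 0x1084220a2),
    .c (nat_lit 0) (nat_lit 0xc6319443),.r (nat_lit 0xdba) (nat_lit 10) [nat_lit 0x18c6018801,nat_lit 0x1084220c41],
    .r (nat_lit 0x536) (nat_lit 0) [nat_lit 0x20001,nat_lit 0x1084640c41,nat_lit 0x18c4348861,nat_lit 0x2208481481,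
    nat_lit 0x14a5690a1,nat_lit 0x39ce769861],.c (nat_lit 0) (nat_lit 0xc6318c43),.c (nat_lit 7) (nat_lit 2),
    .r (nat_lit 0x53a) (nat_lit 4) [nat_lit 0x39ce039801,nat_lit 0x318c661c41,nat_lit 0x3198631c01,
    nat_lit 0x69dad6b001,nat_lit 0x618c631c61,nat_lit 65],.r (nat_lit 0x53b) (nat_lit 4) [nat_lit 0x294a029001,
    nat_lit 0x4210882442,nat_lit 0x2110421401,nat_lit 0x495294a001,nat_lit 0x8210842462,nat_lit 66],
    .c (nat_lit 0) (nat_lit 0x80000003),.c (nat_lit 0) (nat_lit 0x18003),.c (nat_lit 8) (nat_lit 2)]]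

/-- nodes -/
noncomputable def rD8k_20_5 : List RJ :=
  [.l (nat_lit 16) (nat_lit 0x2c88) (nat_lit 4) (nat_lit 0x19020000128300001569000013e10000140b000016f9000016ec0000166c000017550000148c0000153700000f67000013f6000013f600000f6700001899) (nat_lit 0x67f00000000000005210000039900000209000004f7000002960000021600000476000001ad0000099b000003cb0000050c0000050c000000690000099b)
    (nat_lit 0x1283167a12bb156916f9140b166c16ec20722193134318ab08e80994189910560c0412830c040eea0b220eea105d106d0af50c16105d0f950d770d77121a105d0eea15690eea11d0136011d0179318ab1016134c0bce14b608e808e815000bce0c0412bb10420eea13430eea13dd14f50f6b123408e8138a0ed50ed5137808e80eea140b0eea11d00ed80d921175108a0c210fcc0a701040105d105d14c80a700b2216f91343136014f00ed8146314e31cbc206708e8132e14b614b6169008e8106d16ec14f518ab14e3108a093b14d61276153f0a8808e81656165616830a88105d166c13dd17931463117513d6093b11f614bf0ae5128f163216320bc50ae50c1621931234134c20670fcc14bf153f1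2f115a808e8138a1435143516ec08e80af520720f6b10161cbc0c2111f61276101612f109b010c11234116c10af08e80f9518ab138a14b6132e1040128f08e810c1138a09b0116c1234116c08e808e8105d134308e80bce08e80a700ae50a8809b008e808e809b00a5b0a5b196009940d7709940ed508e814b6105d16321656116c14350a5b116c0b220bce0fb10a5b0d7708e80ed508e814b6105d16321656123414350a5b12340a760b22129e0a5b105d105608e80bce08e80a700ae50a8808e808e8099408e80a5b0a5b1a0c0a40121a189913781500169014c80bc5168310af16ec196008e8129e0fb11ab81a0c)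
    (nat_lit 0x12832c882c882c882c882c882c882c882c882c882c882c882c882c882c882c88167a12832c882c882c882c882c882c882c882c882c882c882c882c882c882c8812bb0c040eea2c882c882c882c882c882c882c882c882c882c882c882c882c8815690eea11d00eea2c882c882c882c882c882c882c882c882c882c882c882c8816f90b22136013430ed82c882c882c882c882c882c882c882c882c882c882c88140b0eea11d00eea0d920ed82c882c882c882c882c882c882c882c882c882c88166c105d179313dd11751463093b2c882c882c882c882c882c882c882c882c8816ec106d18ab14f5108a14e314d6093b2c882c882c882c882c882c882c882c8820720af510160f6b0c211cbc127611f612f12c882c882c882c882c882c882c8821930c16134c12340fcc2067153f14bf15a812f12c882c882c882c882c882c881343105d0bce08e80a7008e80a880ae508e809b009b02c882c882c882c882c8818ab0f9514b6138a1040132e08e8128f138a10c1116c09b02c882c882c882c8808e80d7708e80ed5105d140a134316321435123412340a5b0b222c882c882c8809940d7708e80ed5105d14b6134316321435116c116c0a5b0bce0b222c882c881899121a14b611d0135811d013700bc511d010af08e811d00fb1129e127c2c881056105d0bce08e80a7008e80a880ae508e808e808e809940a5b0a5b0a40127c)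
    (nat_lit 5) (nat_lit 281)
    [[nat_lit 2,nat_lit 17,nat_lit 33,nat_lit 0x1000021,nat_lit 273,nat_lit 0x1011,nat_lit 0x100011,nat_lit 0x1000011,
    nat_lit 0x1000111,nat_lit 0x10000011,nat_lit 0x10001011,nat_lit 257,nat_lit 514,nat_lit 0x1102,nat_lit 0x10102,
    nat_lit 289,nat_lit 529,nat_lit 513,nat_lit 769,nat_lit 0x1201,nat_lit 0x10201,nat_lit 0x100201,nat_lit 0x1000201,
    nat_lit 0x1101,nat_lit 0x2101,nat_lit 0x101101,nat_lit 0x1001101,nat_lit 0x10101,nat_lit 0x20101,nat_lit 0x100101,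
    nat_lit 0x200101,nat_lit 0x1000101,nat_lit 0x10000101,nat_lit 0x1001,nat_lit 0x101001,nat_lit 0x10001,
    nat_lit 0x20001,nat_lit 0x10011,nat_lit 0x10111,nat_lit 0x11101,nat_lit 0x110101,nat_lit 0x1010101,
    nat_lit 0x11001,nat_lit 0x30001,nat_lit 0x110001,nat_lit 0x100001,nat_lit 0x1000001,nat_lit 0x1001001,
    nat_lit 0x10000001,nat_lit 0x10001001],[nat_lit 32,nat_lit 48,nat_lit 288,nat_lit 0x1000020,nat_lit 0x11000020,
    nat_lit 0x10000020,nat_lit 0x20000020,nat_lit 272,nat_lit 528,nat_lit 0x100110,nat_lit 0x1000110,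
    nat_lit 0x10000110,nat_lit 0x10110,nat_lit 0x1010,nat_lit 0x10001010,nat_lit 0x100010,nat_lit 0x10100010,
    nat_lit 0x1000010,nat_lit 0x11000110,nat_lit 0x2000010,nat_lit 0x11000010,nat_lit 0x10000010,nat_lit 0x20001010,
    nat_lit 0x11100010,nat_lit 0x20000010],[nat_lit 512,nat_lit 768,nat_lit 0x400,nat_lit 0x10300,nat_lit 0x1200,
    nat_lit 0x10200,nat_lit 0x20200,nat_lit 0x100200,nat_lit 0x1000200,nat_lit 0x1100,nat_lit 0x11100,
    nat_lit 0x101100,nat_lit 0x10100,nat_lit 0x20100,nat_lit 0x30100,nat_lit 0x100100,nat_lit 0x110100,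
    nat_lit 0x200100,nat_lit 0x120100,nat_lit 0x1000100,nat_lit 0x1010100,nat_lit 0x10000100],[nat_lit 0x2000,
    nat_lit 0x11000,nat_lit 0x1001000],[nat_lit 0x20000,nat_lit 0x30000,nat_lit 0x40000,nat_lit 0x110000,
    nat_lit 0x10010000],[nat_lit 0x200000,nat_lit 0x1100000,nat_lit 0x10100000],[nat_lit 0x2000000,
    nat_lit 0x11000000],[nat_lit 0x20000000]]
    [.c (nat_lit 1) (nat_lit 2),.c (nat_lit 0) (nat_lit 0x6318043),.r (nat_lit 0xde7) (nat_lit 1) [nat_lit 0x300001,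
    nat_lit 0x4200001,nat_lit 0x1800210041,nat_lit 0x2000528041,nat_lit 0x1800228041,nat_lit 0x1180320061],
    .r (nat_lit 0x53f) (nat_lit 1) [nat_lit 0x1800220041,nat_lit 0x18001,nat_lit 0x1800020041,nat_lit 0x10041,
    nat_lit 0x10c63388a1,nat_lit 0x1004028061],.c (nat_lit 0) (nat_lit 0x6518043),.c (nat_lit 0) (nat_lit 0xc0300802),
    .c (nat_lit 1) (nat_lit 0x80018c02),.r (nat_lit 0xde7) (nat_lit 1) [nat_lit 0x300001,nat_lit 0x4200001,
    nat_lit 0x1800220041,nat_lit 0x2000518041,nat_lit 0x1800218041,nat_lit 0x1180310061],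
    .r (nat_lit 0xdb8) (nat_lit 3) [nat_lit 0x88200c41,nat_lit 0x6000861],.c (nat_lit 1) (nat_lit 0x80000c02),
    .c (nat_lit 0) (nat_lit 0xc0300802),.c (nat_lit 0) (nat_lit 0x86318c43),.c (nat_lit 1) (nat_lit 0x10a529483),
    .c (nat_lit 0) (nat_lit 0x144010862),.c (nat_lit 0) (nat_lit 0x140210862),
    .r (nat_lit 0xdb8) (nat_lit 3) [nat_lit 0x88218c41,nat_lit 0x6010861],
    .r (nat_lit 0xdb8) (nat_lit 5) [nat_lit 0x80010001,nat_lit 0x88200c41],
    .r (nat_lit 97) (nat_lit 15) [nat_lit 0x1884210c81,nat_lit 0xc000001,nat_lit 0x1288421441,nat_lit 0x600001,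
    nat_lit 0x194a529061,nat_lit 0x214a529061],.r (nat_lit 0x540) (nat_lit 15) [nat_lit 0x1884210c81,
    nat_lit 0x14000001,nat_lit 0x240c631c41,nat_lit 0xa00001,nat_lit 0x29ce739861,nat_lit 0x31ce739861],
    .c (nat_lit 0) (nat_lit 0xc0300802),.c (nat_lit 0) (nat_lit 0xc6000002),
    .r (nat_lit 0x8ca) (nat_lit 15) [nat_lit 0x1884310c81,nat_lit 0xc600001,nat_lit 0x1288221441,nat_lit 0x194a329061,
    nat_lit 0x214a329061],.r (nat_lit 0xdb8) (nat_lit 5) [nat_lit 0x80010001,nat_lit 0x88210c41],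
    .c (nat_lit 0) (nat_lit 0xc0300802),.c (nat_lit 0) (nat_lit 0x1c6b19844),.c (nat_lit 0) (nat_lit 0xc4000862),
    .c (nat_lit 4) (nat_lit 0x4410862),.c (nat_lit 0) (nat_lit 0xc6000002),.c (nat_lit 0) (nat_lit 0x1d6318c44),
    .c (nat_lit 0) (nat_lit 0x6300043),.r (nat_lit 0xdb8) (nat_lit 3) [nat_lit 0xc0218861,nat_lit 0x104010c41],
    .c (nat_lit 0) (nat_lit 0x6518c43),.c (nat_lit 0) (nat_lit 0x6318043),.c (nat_lit 0) (nat_lit 0xc0300802),
    .c (nat_lit 0) (nat_lit 0x318002),.c (nat_lit 0) (nat_lit 0xc6010002),.c (nat_lit 0) (nat_lit 0x14a000002),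
    .c (nat_lit 0) (nat_lit 0x6000c02),.c (nat_lit 0) (nat_lit 0xc0210062),.c (nat_lit 0) (nat_lit 0x140010862),
    .c (nat_lit 2) (nat_lit 0x300843),.c (nat_lit 0) (nat_lit 0xc0210862),.c (nat_lit 0) (nat_lit 0xc6300002),
    .c (nat_lit 0) (nat_lit 0x1ce000002),.c (nat_lit 0) (nat_lit 0xc6010002),.c (nat_lit 0) (nat_lit 0x6300043),
    .c (nat_lit 0) (nat_lit 0x6318c43),.c (nat_lit 0) (nat_lit 0xc0301002),.c (nat_lit 0) (nat_lit 0x6318043),
    .c (nat_lit 0) (nat_lit 0x300002),.c (nat_lit 2) (nat_lit 2),.r (nat_lit 0x96c) (nat_lit 2) [nat_lit 0x68081,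
    nat_lit 0x18000001,nat_lit 0x31ce739801,nat_lit 129,nat_lit 0x3000600a1],.c (nat_lit 0) (nat_lit 0xc6310843),
    .r (nat_lit 0x96c) (nat_lit 2) [nat_lit 0x48081,nat_lit 0x18000001,nat_lit 0x31ce739801,nat_lit 0x20081,
    nat_lit 0x3000400a1],.r (nat_lit 0xde7) (nat_lit 1) [nat_lit 0x300001,nat_lit 0x4200001,nat_lit 0x210041,
    nat_lit 0x3000528041,nat_lit 0x228041,nat_lit 0x180320061],.c (nat_lit 0) (nat_lit 0xc6318843),
    .c (nat_lit 1) (nat_lit 0x100001402),.c (nat_lit 0) (nat_lit 0xc6318843),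
    .r (nat_lit 0xbb1) (nat_lit 12) [nat_lit 0x10800001,nat_lit 0x200040001,nat_lit 0x48001,nat_lit 0x294a521061,
    nat_lit 0x214a529061],.c (nat_lit 0) (nat_lit 0xc6300843),.c (nat_lit 0) (nat_lit 0xc6310043),
    .c (nat_lit 0) (nat_lit 0xc6318843),.c (nat_lit 1) (nat_lit 0x80318043),
    .r (nat_lit 0xdb8) (nat_lit 3) [nat_lit 0x18041,nat_lit 0x84210061],.c (nat_lit 0) (nat_lit 0x300002),
    .c (nat_lit 0) (nat_lit 0xc0010803),.c (nat_lit 0) (nat_lit 0xc6300843),.c (nat_lit 2) (nat_lit 0x802),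
    .c (nat_lit 0) (nat_lit 0xc6300043),.r (nat_lit 0x96c) (nat_lit 2) [nat_lit 0x28081,nat_lit 0x18000001,
    nat_lit 0x31ce739801,nat_lit 0x40081,nat_lit 0x3000200a1],.c (nat_lit 0) (nat_lit 0xc6318043),
    .c (nat_lit 0) (nat_lit 0xc0000803),.c (nat_lit 0) (nat_lit 0x300002),.c (nat_lit 1) (nat_lit 0x100018c02),
    .c (nat_lit 0) (nat_lit 0xc6318843),.c (nat_lit 3) (nat_lit 2),.r (nat_lit 97) (nat_lit 15) [nat_lit 65,
    nat_lit 0xc000001,nat_lit 0x348c631c42,nat_lit 0x600001,nat_lit 0x39ce739862,nat_lit 0x31ce739862],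
    .r (nat_lit 0x541) (nat_lit 15) [nat_lit 65,nat_lit 0x10000001,nat_lit 0x4610842442,nat_lit 0x800001,
    nat_lit 0x4a5294a062,nat_lit 0x425294a062],.r (nat_lit 0x542) (nat_lit 14) [nat_lit 0x314e729861,
    nat_lit 0x490c631c41,nat_lit 0x314e739861,nat_lit 0x490c831c41,nat_lit 0x398c631c41,nat_lit 0x414a739861],
    .r (nat_lit 0x543) (nat_lit 9) [nat_lit 0x18ce310881,nat_lit 129,nat_lit 0x118c210ca1,nat_lit 0x84000a1,
    nat_lit 0x18ce318881,nat_lit 0x80000a1],.r (nat_lit 0xbb2) (nat_lit 14) [nat_lit 0x28ca531061,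
    nat_lit 0x30ca529061,nat_lit 0x28ca529061,nat_lit 0x14a00001,nat_lit 0x2308421441],
    .c (nat_lit 0) (nat_lit 0xce318c42),.r (nat_lit 0x544) (nat_lit 12) [nat_lit 0x2146329061,nat_lit 0x1988221441,
    nat_lit 0x2908421441,nat_lit 0x114a329061,nat_lit 0x2908221441,nat_lit 0x114a319061],
    .r (nat_lit 0xbb1) (nat_lit 12) [nat_lit 0x10800001,nat_lit 0x200040001,nat_lit 0x48001,nat_lit 0x294a511061,
    nat_lit 0x214a539061],.r (nat_lit 0xdb8) (nat_lit 5) [nat_lit 0x80010001,nat_lit 65],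
    .c (nat_lit 0) (nat_lit 0xce718c44),.c (nat_lit 1) (nat_lit 0x86000c43),
    .r (nat_lit 0x8ca) (nat_lit 15) [nat_lit 0x19c6318881,nat_lit 0xc600001,nat_lit 0x1184210c41,nat_lit 0x1806318861,
    nat_lit 0x2006318861],.c (nat_lit 0) (nat_lit 0xce318c42),.c (nat_lit 0) (nat_lit 0x1e6739cc4),
    .c (nat_lit 0) (nat_lit 0xc6300843),.r (nat_lit 0xde7) (nat_lit 1) [nat_lit 0x300001,nat_lit 0x4200001,
    nat_lit 0x1806220861,nat_lit 0x2006518861,nat_lit 0x1806218861,nat_lit 0x1184310c41],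
    .c (nat_lit 0) (nat_lit 0xc6310843),.c (nat_lit 0) (nat_lit 0xce328c42),.c (nat_lit 0) (nat_lit 0xc6318c45),
    .c (nat_lit 1) (nat_lit 0x80318c43),.c (nat_lit 0) (nat_lit 0xc6318843),.c (nat_lit 4) (nat_lit 2),
    .c (nat_lit 0) (nat_lit 0xc6300002),.r (nat_lit 0xdb8) (nat_lit 3) [nat_lit 65,nat_lit 0x84200061],
    .c (nat_lit 5) (nat_lit 2),.c (nat_lit 0) (nat_lit 0x1e6739cc4),.c (nat_lit 0) (nat_lit 0x15a529482),
    .r (nat_lit 0xdb8) (nat_lit 3) [nat_lit 0x84200061,nat_lit 65],.r (nat_lit 0xdb8) (nat_lit 3) [nat_lit 0x84000061,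
    nat_lit 0x200041],.c (nat_lit 6) (nat_lit 2),.c (nat_lit 0) (nat_lit 0xc0010003),
    .c (nat_lit 4) (nat_lit 0x410003),.c (nat_lit 7) (nat_lit 2),.c (nat_lit 0) (nat_lit 0xc0000003),
    .c (nat_lit 8) (nat_lit 2)]]

/-- nodes -/
noncomputable def rD8k_20_6 : List RJ :=
  [.l (nat_lit 14) (nat_lit 0xde0) (nat_lit 4) (nat_lit 0x550000006ac000005ba000005da00000609000006090000066700000667000006b8000006b80000066b0000066b00000716000004fe000006530000052f) (nat_lit 0x6a000001c60000013c0000015c0000010d0000010d000000af000000af0000005e0000005e000000ab000000ab0000021800000000000001e7000000c3)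
    (nat_lit 0x128031a12b03f6110c3c30d94529094053e129435b128056a0da44d119484a01818550170463917f469313186f018045fd1008250130c60315403f60f9044e105c41711a44e9158055c25ac6970e205ba106458918184ac12783e413344cd0f5c52b11282501d24475110867411cc5e318e43c3133441713f04fc221855a19946ff13106900c943ef0e284c61704443133441713f04fc221855a1b8477b11306a00e943cb0e685461a4c52914ac4e9156855a0fa05b8131c2dd1fe8486113c77912005f017f43650f5c469221888618f03e81c6c60925685e609fc5a910d05a41bc053e094055c1dec6ff18242dd18c05d61b2c4fb128031a18347c5131825011285601b846651c6c4c71968630183460d0f586b8186c7d317f435b11d46971a80690179848618344fb17005c009d466b1c9867218044a51d2496b11304c425687fa18346cb17005c0115466b11a83b6094056a19d05ba0f2c3ef16a47791ae031a19ac66b1bc071614bc65110084a011083880e9432509fc44f0f584a0115427518986f00b4c43b180c4d1178c58915184c616905f01f4c7c50ed867210ec6510c10250130c36911cc4190e6838a10d0480186c60d11a87260b4c52f0ee0304)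
    (nat_lit 0x1280de03780de03780de03780de03780de03780de03780de03780de00c684a03780de03780de03780de03780de03780de03780de03780de012b06060f90de03780de03780de03780de03780de03780de03780de00fd855011383e43780de03780de03780de03780de03780de03780de0110c5c1105c4cd13f0de03780de03780de03780de03780de03780de00f0c639105c4cd13f04fc3780de03780de03780de03780de03780de00d945fd11a43d71fb87ee0fa0de03780de03780de03780de03780de014a469313a452b156855a16e03e83780de03780de03780de03780de009404c6158044a19946e1131c71b18c0de03780de03780de03780de014f86f01570250199c6670b7460917586303780de03780de03780de01294601218c749131044c1fe895a1b2c60d1700de03780de03780de00d6c5fd1a5c4751a406a012185e613ec60d17005c03780de03780de012804020e204420c943a5113c27f12803d609d44551bc0de03780de015a825016e86740fbc3cb1de45a90c684a016ac66b1c586f03780de00da44c310644730e2839a120043417b461b1c9846a14bc2d30c10de0134460316245e3131854617c05a41d547d319c83b6194443b0940304)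
    (nat_lit 5) (nat_lit 107)
    [[nat_lit 2,nat_lit 3,nat_lit 4,nat_lit 18,nat_lit 19,nat_lit 0x10000012,nat_lit 0x10002,nat_lit 0x100002,
    nat_lit 0x100003,nat_lit 0x1000002,nat_lit 0x10000002,nat_lit 0x10000003,nat_lit 17,nat_lit 273,nat_lit 0x10011,
    nat_lit 0x100011,nat_lit 0x1011,nat_lit 0x100012,nat_lit 0x10000011,nat_lit 0x10000111,nat_lit 257,
    nat_lit 0x10000101,nat_lit 0x10001,nat_lit 0x10101,nat_lit 0x100001,nat_lit 0x100111,nat_lit 0x200001,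
    nat_lit 0x1100001,nat_lit 0x10100001,nat_lit 0x1000001,nat_lit 0x1000101,nat_lit 0x10000001],[nat_lit 32,
    nat_lit 272,nat_lit 0x1110,nat_lit 0x100110,nat_lit 0x10100110,nat_lit 0x10000110,nat_lit 0x1010,
    nat_lit 0x10001010,nat_lit 0x2010,nat_lit 0x11010,nat_lit 0x10011010,nat_lit 0x1001010,nat_lit 0x11001010,
    nat_lit 0x10010,nat_lit 0x10010010,nat_lit 0x10110,nat_lit 0x110010,nat_lit 0x1010010,nat_lit 0x100010,
    nat_lit 0x101010,nat_lit 0x200010,nat_lit 0x1100010,nat_lit 0x10100010,nat_lit 0x1000010,nat_lit 0x11000010,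
    nat_lit 0x10000010,nat_lit 0x20000010],[nat_lit 512,nat_lit 0x1100,nat_lit 0x100100,nat_lit 0x1100100,
    nat_lit 0x10000100,nat_lit 0x10001100],[nat_lit 0x2000,nat_lit 0x11000,nat_lit 0x1011000,nat_lit 0x1101000,
    nat_lit 0x1001000,nat_lit 0x2001000,nat_lit 0x10001000,nat_lit 0x10002000,nat_lit 0x10011000,nat_lit 0x11001000,
    nat_lit 0x12001000],[nat_lit 0x20000,nat_lit 0x30000,nat_lit 0x1020000,nat_lit 0x1010000,nat_lit 0x2010000,
    nat_lit 0x1110000,nat_lit 0x10010000],[nat_lit 0x200000,nat_lit 0x1100000,nat_lit 0x2100000,nat_lit 0x10100000],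
    [nat_lit 0x2000000,nat_lit 0x3000000,nat_lit 0x11000000],[nat_lit 0x20000000]]
    [.c (nat_lit 1) (nat_lit 2),.c (nat_lit 0) (nat_lit 0xc6521485),.c (nat_lit 3) (nat_lit 0x420003),
    .c (nat_lit 0) (nat_lit 0xc6521485),.c (nat_lit 0) (nat_lit 0xc6521485),.c (nat_lit 0) (nat_lit 0xc6521485),
    .c (nat_lit 3) (nat_lit 0x410803),.c (nat_lit 0) (nat_lit 0x6511485),.c (nat_lit 3) (nat_lit 0x80830005),
    .c (nat_lit 3) (nat_lit 0x410003),.c (nat_lit 0) (nat_lit 0xc6521487),.c (nat_lit 0) (nat_lit 0xc6521485),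
    .c (nat_lit 0) (nat_lit 0xc6521485),.r (nat_lit 0xdac) (nat_lit 5) [nat_lit 0x1080000002,nat_lit 0x4010001,
    nat_lit 0x8a300082,nat_lit 0x18c00010a2],.c (nat_lit 0) (nat_lit 0xc6500085),.c (nat_lit 0) (nat_lit 0x6511485),
    .c (nat_lit 0) (nat_lit 0x6018004),.c (nat_lit 0) (nat_lit 0x6511485),.c (nat_lit 0) (nat_lit 0xc6521485),
    .c (nat_lit 3) (nat_lit 0x848010a4),.c (nat_lit 0) (nat_lit 0x210003),
    .r (nat_lit 0xdbe) (nat_lit 8) [nat_lit 0x4000001,nat_lit 0x8a300082],.c (nat_lit 0) (nat_lit 0xc6500085),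
    .c (nat_lit 0) (nat_lit 0x300c02),.c (nat_lit 1) (nat_lit 0xc0010004),.c (nat_lit 0) (nat_lit 0xc0518004),
    .c (nat_lit 0) (nat_lit 0x86501485),.c (nat_lit 3) (nat_lit 0x80810005),.c (nat_lit 0) (nat_lit 0x8a91250d),
    .c (nat_lit 0) (nat_lit 0xc6501485),.c (nat_lit 0) (nat_lit 0x300002),.c (nat_lit 0) (nat_lit 0xc652148d),
    .c (nat_lit 2) (nat_lit 2),.r (nat_lit 0xdb8) (nat_lit 11) [nat_lit 0x80200002,nat_lit 65],
    .c (nat_lit 0) (nat_lit 0xca919484),.r (nat_lit 0xdac) (nat_lit 5) [nat_lit 0x1080000002,nat_lit 0x4010001,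
    nat_lit 0x188a000082,nat_lit 0xc03010a2],.c (nat_lit 3) (nat_lit 0x48110a4),
    .r (nat_lit 0x9c0) (nat_lit 9) [nat_lit 0x18d63290c1,nat_lit 0x1094221481,nat_lit 0x5280000002,
    nat_lit 0x18c03310a1,nat_lit 0x18c03290a1],.r (nat_lit 0xdac) (nat_lit 5) [nat_lit 0x1080000002,nat_lit 0x4010001,
    nat_lit 65,nat_lit 0x180a3010a2],.c (nat_lit 3) (nat_lit 0x80c110a4),.c (nat_lit 0) (nat_lit 0xd2519486),
    .c (nat_lit 0) (nat_lit 0x8a4124ac),.c (nat_lit 1) (nat_lit 0xc0510085),.c (nat_lit 0) (nat_lit 0x8a4110ac),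
    .c (nat_lit 1) (nat_lit 0xc0511485),.c (nat_lit 0) (nat_lit 0xc6518887),.c (nat_lit 0) (nat_lit 0xc6500085),
    .c (nat_lit 0) (nat_lit 0x300c02),.c (nat_lit 0) (nat_lit 0x6518085),
    .r (nat_lit 0xdbe) (nat_lit 8) [nat_lit 0x4000001,nat_lit 0x180a3010a2],.c (nat_lit 0) (nat_lit 0x10651948d),
    .c (nat_lit 0) (nat_lit 0xc6000004),.c (nat_lit 0) (nat_lit 0x106519487),.c (nat_lit 0) (nat_lit 0x6519485),
    .c (nat_lit 0) (nat_lit 0x6511485),.c (nat_lit 0) (nat_lit 0xc6519487),.c (nat_lit 0) (nat_lit 0xc6501485),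
    .c (nat_lit 0) (nat_lit 0xc6521485),.r (nat_lit 0x1107) (nat_lit 13) [nat_lit 0x1800200002,nat_lit 0x10001,
    nat_lit 0x4000001,nat_lit 0x1080000002,nat_lit 0x88221482],.c (nat_lit 3) (nat_lit 2),
    .c (nat_lit 0) (nat_lit 0xca919484),.c (nat_lit 0) (nat_lit 0x80200005),.c (nat_lit 0) (nat_lit 0xc0700004),
    .r (nat_lit 0xdba) (nat_lit 13) [nat_lit 65,nat_lit 0x80200002],.c (nat_lit 0) (nat_lit 0xca919484),
    .c (nat_lit 4) (nat_lit 2),.c (nat_lit 0) (nat_lit 0x6000c02),.c (nat_lit 0) (nat_lit 0xa000c02),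
    .c (nat_lit 0) (nat_lit 0xce000004),.c (nat_lit 0) (nat_lit 0x6000002),.c (nat_lit 0) (nat_lit 0xa000002),
    .r (nat_lit 0xdbe) (nat_lit 8) [nat_lit 0x4000001,nat_lit 65],.c (nat_lit 0) (nat_lit 0x6000c02),
    .c (nat_lit 0) (nat_lit 0x6000c02),.c (nat_lit 0) (nat_lit 0x6000002),.c (nat_lit 0) (nat_lit 0xa000002),
    .c (nat_lit 5) (nat_lit 2),.r (nat_lit 0xda8) (nat_lit 14) [nat_lit 65,nat_lit 0x638042,nat_lit 0x18ca311062,
    nat_lit 0x4000001],.r (nat_lit 0xda8) (nat_lit 14) [nat_lit 0x10041,nat_lit 0x628042,nat_lit 0x18ca301062,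
    nat_lit 0x4000001],.c (nat_lit 3) (nat_lit 0x400803),.r (nat_lit 0xda8) (nat_lit 14) [nat_lit 0x20041,
    nat_lit 0x618042,nat_lit 0x18ca319062,nat_lit 0x4000001],.r (nat_lit 0x9c0) (nat_lit 9) [nat_lit 0x2aeab4d1a2,
    nat_lit 0x10140200a1,nat_lit 0x5280000002,nat_lit 0x1800030081,nat_lit 0x1800028081],
    .c (nat_lit 0) (nat_lit 0xc6518887),.c (nat_lit 6) (nat_lit 2),.c (nat_lit 0) (nat_lit 0x6519485),
    .r (nat_lit 0x9c0) (nat_lit 9) [nat_lit 0x2aeabad1a2,nat_lit 0x10140000a1,nat_lit 0x5280000002,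
    nat_lit 0x1800050081,nat_lit 0x1800000081],.c (nat_lit 0) (nat_lit 0x10651948d),.c (nat_lit 7) (nat_lit 2),
    .r (nat_lit 0xda8) (nat_lit 14) [nat_lit 0x30041,nat_lit 0x600042,nat_lit 0x18ca329062,nat_lit 0x4000001],
    .c (nat_lit 0) (nat_lit 0xc6519487),.c (nat_lit 8) (nat_lit 2)],
    .l (nat_lit 17) (nat_lit 0x7080) (nat_lit 3) (nat_lit 0x46fb00003de2000042900000429000003dba000046a80000408e0000455400003daa0000487e00005f340000495e0000482800003daa0000436800003eaf) (nat_lit 0x21520000183900001ca400001ca40000188c0000217a000019e000001ea6000016b60000218a000015d6000000000000218a0000170c0000208500001bcc)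
    (nat_lit 0x149d0bb084fac2b9416c2097985c40254a169209918624a46fb12a5070804cec2b2f0e8b0a4e84100213e12ff071a043f81fc2139e071a04ddc1c500e2c0968038402216109f0ae504bd8256614bf087505140234226b608c305be0428010830b2883cf426c4104009f584a5c25ec1502084585180225a26ba08c505c0042900f2f0b2f0434c26c40e3409798422c21d4135f073f843981f141382070804d581c200e18095a03f6c249612ff0b6105408297e17d009af85ca028020e1008a4861a446a8122d0bca0525c2dc00fe10952844b42342140107c505274206414ec075f0565854600e100a60841e8258610fe0b880518028a017280873056e8293a174f08f283840455411e50bb8047f428c80e34099184628230c11490708047941d7c137a070804e783daa0e700e7f0384021de139e0b4909ae84d6c0e1009c105d3c29d818e409bd06550487e1b4214e804ff22c2e0e2811bec852042802354070808aa85460243f0f6a84e605f341f17120a083a033d813770c4945c002df0186909ab038402b2c195409cf0671027301c080c94879502eb012d00708059782ca21794095a05dc0298229d00e7f064a4482812c00c4704f461c200e2c095283cbc2106122d070c047941c201b420738070203e2e0e10096003a4a21de110b0acbc4d8826c416e009258519025861617087785d6033d810ef070804614279c0e10099d8434c1e7a149707ed847f420f413fc87080795041d00e9289e8c3c54230a)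
    (nat_lit 0x149d1c200e100708038401c200e100708038401c200e100708038401c200e100708017610a4e8e100708038401c200e100708038401c200e100708038401c200e100708013eb082004bd8708038401c200e100708038401c200e100708038401c200e100708015ca084f84acc25ec38401c200e100708038401c200e100708038401c200e100708016c2097f852fc2a04135f1c200e100708038401c200e100708038401c200e100708012f3071a043a821160e7f09af8e100708038401c200e100708038401c200e10070801710087f0514028c010e60b9405274708038401c200e100708038401c200e100708012a507f084684225a0f8a0a00840c8293a38401c200e100708038401c200e1007080169209cf07be83d3613820708053b02e9e137a1c200e100708038401c200e10070801323071a0461823140e1008a483af823ca0e1009bd0e100708038401c200e1007080189289bb85be02e0013560c34856581c20139e0caa04e60708038401c200e1007080237d87140850042900e1011aa0833445541ed50e100be68273038401c200e100708012a507160420c1e5e0e1809168384023ca0e700da107c5c381012c01c200e10070800e100968059442cbc12b40bca053042ee01c441062070e03252188e09600e1007080133b070803cf421a60fdb0a4b841e823fa0e1009fe483a03ca813d187494461470801597888584d8826c4124b0b7004b0c28c810ef0b0b867b02eb00e10087784f38230a)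
    (nat_lit 4) (nat_lit 133)
    [[nat_lit 2,nat_lit 3,nat_lit 18,nat_lit 0x1002,nat_lit 0x10002,nat_lit 0x1000002,nat_lit 0x10000002,nat_lit 17,
    nat_lit 33,nat_lit 0x10011,nat_lit 0x1000011,nat_lit 0x10000011,nat_lit 0x100011,nat_lit 0x1001,nat_lit 0x1011,
    nat_lit 0x2001,nat_lit 0x11001,nat_lit 0x101001,nat_lit 0x10001001,nat_lit 0x10001,nat_lit 0x1010001,
    nat_lit 0x10010001,nat_lit 0x20001,nat_lit 0x100001,nat_lit 0x1100001,nat_lit 0x10100001,nat_lit 0x1000001,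
    nat_lit 0x1001001,nat_lit 0x2000001,nat_lit 0x11000001,nat_lit 0x10000001,nat_lit 0x20000001],[nat_lit 32,
    nat_lit 0x100020,nat_lit 0x10000020,nat_lit 0x101010,nat_lit 0x10001010,nat_lit 0x10010,nat_lit 0x110010,
    nat_lit 0x10010010,nat_lit 0x100010,nat_lit 0x10100010,nat_lit 0x1000010,nat_lit 0x1100010,nat_lit 0x11000010,
    nat_lit 0x10000010,nat_lit 0x20000010],[nat_lit 512,nat_lit 0x1100,nat_lit 0x101100,nat_lit 0x110100,
    nat_lit 0x10010100,nat_lit 0x100100,nat_lit 0x10000100],[nat_lit 0x2000,nat_lit 0x102000,nat_lit 0x11000,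
    nat_lit 0x111000,nat_lit 0x10011000,nat_lit 0x101000,nat_lit 0x201000,nat_lit 0x1101000,nat_lit 0x10101000,
    nat_lit 0x10001000],[nat_lit 0x20000,nat_lit 0x110000,nat_lit 0x1110000,nat_lit 0x10110000,nat_lit 0x1010000,
    nat_lit 0x11010000,nat_lit 0x10010000],[nat_lit 0x200000,nat_lit 0x1100000,nat_lit 0x11100000,nat_lit 0x10100000],
    [nat_lit 0x2000000,nat_lit 0x12000000,nat_lit 0x11000000],[nat_lit 0x20000000]]
    [.c (nat_lit 1) (nat_lit 2),.r (nat_lit 0xdba) (nat_lit 14) [nat_lit 0x3433231,nat_lit 0x20001],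
    .r (nat_lit 0xdb1) (nat_lit 5) [nat_lit 0x33200231,nat_lit 0x20200001,nat_lit 0x22000001,nat_lit 0x22001],
    .c (nat_lit 0) (nat_lit 0x33002),.r (nat_lit 0xdba) (nat_lit 14) [nat_lit 0x233231,nat_lit 0x20001],
    .r (nat_lit 0xdb1) (nat_lit 5) [nat_lit 0x33203231,nat_lit 0x20200001,nat_lit 0x22000001,nat_lit 0x22001],
    .r (nat_lit 0xdb5) (nat_lit 3) [nat_lit 0x20001,nat_lit 0x2300021],.c (nat_lit 0) (nat_lit 0x3303023),
    .r (nat_lit 0xc0d) (nat_lit 7) [nat_lit 0x54555401,nat_lit 0x22327341,nat_lit 0x77372651,nat_lit 0x80800001,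
    nat_lit 0x22322341],.r (nat_lit 0xdb1) (nat_lit 5) [nat_lit 0x30000231,nat_lit 0x20200001,nat_lit 0x22000001,
    nat_lit 0x22001],.r (nat_lit 0xc0d) (nat_lit 7) [nat_lit 0x54555401,nat_lit 0x22323341,nat_lit 0x77373651,
    nat_lit 0x80800001,nat_lit 0x22326341],.c (nat_lit 1) (nat_lit 0x20302),.c (nat_lit 0) (nat_lit 0x3303023),
    .c (nat_lit 0) (nat_lit 0x33002),.c (nat_lit 0) (nat_lit 0x3302),.c (nat_lit 0) (nat_lit 0x55002),
    .c (nat_lit 0) (nat_lit 0x303002),.c (nat_lit 0) (nat_lit 0x33002),.c (nat_lit 0) (nat_lit 0x33002),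
    .c (nat_lit 1) (nat_lit 0x320002),.r (nat_lit 0xdb1) (nat_lit 5) [nat_lit 0x30003231,nat_lit 0x20200001,
    nat_lit 0x22000001,nat_lit 0x22001],.r (nat_lit 0xdb5) (nat_lit 3) [nat_lit 0x20001,nat_lit 33],
    .r (nat_lit 0xdba) (nat_lit 14) [nat_lit 0x2033231,nat_lit 0x20001],.c (nat_lit 0) (nat_lit 0x3323323),
    .c (nat_lit 0) (nat_lit 0x3303323),.c (nat_lit 0) (nat_lit 0x3303023),.c (nat_lit 0) (nat_lit 0x3303323),
    .c (nat_lit 0) (nat_lit 0x3002),.r (nat_lit 0xc0d) (nat_lit 7) [nat_lit 0x54555401,nat_lit 0x22322341,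
    nat_lit 0x77377651,nat_lit 0x80800001,nat_lit 0x2232a341],.c (nat_lit 1) (nat_lit 0x20002),
    .c (nat_lit 0) (nat_lit 0x3303023),.r (nat_lit 0xc2b) (nat_lit 4) [nat_lit 0x55455401,nat_lit 0x88001,
    nat_lit 0xc4444501,nat_lit 0x54555401,nat_lit 0x77377651],.c (nat_lit 2) (nat_lit 2),
    .c (nat_lit 0) (nat_lit 0x3333223),.c (nat_lit 0) (nat_lit 0x3333223),.c (nat_lit 1) (nat_lit 0x3320023),
    .c (nat_lit 0) (nat_lit 0x3302),.c (nat_lit 0) (nat_lit 0x3033023),.c (nat_lit 0) (nat_lit 0x3033023),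
    .c (nat_lit 1) (nat_lit 0x340302),.c (nat_lit 0) (nat_lit 0x3333223),.c (nat_lit 0) (nat_lit 0x3333223),
    .c (nat_lit 2) (nat_lit 514),.c (nat_lit 0) (nat_lit 0x3333023),.c (nat_lit 0) (nat_lit 0x3333023),
    .c (nat_lit 0) (nat_lit 0x30203),.c (nat_lit 0) (nat_lit 0x3333223),.c (nat_lit 3) (nat_lit 2),
    .c (nat_lit 0) (nat_lit 0x5335322),.c (nat_lit 0) (nat_lit 0x5335322),.c (nat_lit 1) (nat_lit 0x23323),
    .c (nat_lit 0) (nat_lit 0x3300002),.r (nat_lit 0xdba) (nat_lit 14) [nat_lit 33,nat_lit 0x20001],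
    .c (nat_lit 0) (nat_lit 0x2000203),.c (nat_lit 4) (nat_lit 2),.c (nat_lit 0) (nat_lit 0x3337322),
    .c (nat_lit 0) (nat_lit 0x303002),.c (nat_lit 0) (nat_lit 0x303002),.c (nat_lit 0) (nat_lit 0x303002),
    .r (nat_lit 0xdb1) (nat_lit 5) [nat_lit 33,nat_lit 0x20200001,nat_lit 0x22000001,nat_lit 0x22001],
    .r (nat_lit 0x560) (nat_lit 2) [nat_lit 0x54535431,nat_lit 0x47424521,nat_lit 0x3200001,nat_lit 0x54533431,
    nat_lit 0x22000001,nat_lit 0x45444521],.c (nat_lit 1) (nat_lit 0x3320323),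
    .r (nat_lit 0xc0d) (nat_lit 7) [nat_lit 0x54555401,nat_lit 0x33323251,nat_lit 0x33373241,nat_lit 0x80800001,
    nat_lit 0x33326251],.r (nat_lit 0xdb7) (nat_lit 3) [nat_lit 33,nat_lit 0x20022031],.c (nat_lit 5) (nat_lit 2),
    .c (nat_lit 0) (nat_lit 0x3233323),.c (nat_lit 0) (nat_lit 0x3033323),.c (nat_lit 0) (nat_lit 0x3033023),
    .c (nat_lit 0) (nat_lit 0x3033323),.c (nat_lit 1) (nat_lit 0x340002),.c (nat_lit 0) (nat_lit 0x3033023),
    .c (nat_lit 6) (nat_lit 2),.c (nat_lit 0) (nat_lit 0x3333325),.c (nat_lit 0) (nat_lit 0x3333325),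
    .c (nat_lit 0) (nat_lit 0x3333223),.c (nat_lit 7) (nat_lit 2),.c (nat_lit 0) (nat_lit 0x3333323),
    .c (nat_lit 0) (nat_lit 0x30003),.c (nat_lit 8) (nat_lit 2)]]

/-- nodes -/
noncomputable def rD8k_20_7 : List RJ :=
  [.l (nat_lit 13) (nat_lit 0x5a0) (nat_lit 3) (nat_lit 0x34a000002ba000002f7000002f7000002b600000340000002f200000332000002d00000041e0000038c0000034600000344000002ba0000032a000002d6) (nat_lit 0x164000000d40000012700000127000000de00000168000000ec0000012c000000000000014e000000d80000009200000164000000da00000148000000f4)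
    (nat_lit 0x1070a2844621b13608204fc20812007f04e42b80e305a04042600b408383261930e605a031418e15d05a035016e0b407802f41c60c9886c3741be10c863c41e1db1d887b443e2650c9895c30e1f10c9888c36c1ba10c863c4161d71d987bc43e2650c7894c3121ed0b4082031e18f0e605a030818a15b05a03501680b407702dc1c60e609b043221914807305082140b407a84f02ae0e6060041c2720c708203ae1db10a062841c19817905d06004380b4082035420e0c509f841620f142061048c20e19907902d02a00e709603d42420b407f03de1ed0f505a03c817416806083f023e0b40ba02d01dc15d09007663b10b40ad86642f220f0b4064438c15c10e05ac21e0b70ae04ca26515705a05404381c608f83802fa19a0b5869c29a0d409c843e21f13c06a02d030019107e04b41c016509b060c2520f005a04a62570c007704b020821c0ba04d82d60f009f83f81680b4071831e1930e605a039c16815c05a05943340b407802d01c60e309803da1f1139071848420e10f07704a429a0e305a04042240bd080831218710705b83d41aa16b05a060c34e0b407f02f4202)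
    (nat_lit 0x1071680b405a02d01680b405a02d01680b405a02d01680b405a01450838b405a02d01680b405a02d01680b405a02d01680b405a0111864c3745a02d01680b405a02d01680b405a02d01680b405a010d864c37c1ba2d01680b405a02d01680b405a02d01680b405a013607304322190e61680b405a02d01680b405a02d01680b405a010405a031e18f0b40730b405a02d01680b405a02d01680b405a013f062841e20b0c20a1041c5a02d01680b405a02d01680b405a010406383b61d70c5085033020e2d01680b405a02d01680b405a01200ae85ee2f715b05a05e42ec1681680b405a02d01680b405a00fe05a03da1ef0b407a82e81e40c10b40b405a02d01680b405a013906a043e21f0d409e06001680fc0c403805a02d01680b405a015c05b84ca2650b40ab86ec2a011f0b405f41c02d01680b405a00e305a032618f0b407302d01ce0b40ae06682ca0f01680b405a00b407804ae2530ee06004102581680d105ac26c13f0780b405a010105e830e1890b708383541ea0b40b5869c3060fe05a04045a013007183e21ed0e309c841c2420ee08785342520b40718448202)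
    (nat_lit 5) (nat_lit 83)
    [[nat_lit 2,nat_lit 18,nat_lit 0x1002,nat_lit 0x1000002,nat_lit 17,nat_lit 33,nat_lit 0x1011,nat_lit 0x100011,
    nat_lit 0x1000011,nat_lit 0x10000011,nat_lit 0x1001,nat_lit 0x101001,nat_lit 0x10001001,nat_lit 0x10001,
    nat_lit 0x10011,nat_lit 0x10010001,nat_lit 0x11001,nat_lit 0x100001,nat_lit 0x1100001,nat_lit 0x10100001,
    nat_lit 0x1000001,nat_lit 0x1001001,nat_lit 0x2000001,nat_lit 0x11000001,nat_lit 0x10000001],[nat_lit 32,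
    nat_lit 0x100020,nat_lit 0x10000020,nat_lit 0x101010,nat_lit 0x10001010,nat_lit 0x10010,nat_lit 0x110010,
    nat_lit 0x10010010,nat_lit 0x100010,nat_lit 0x200010,nat_lit 0x10100010,nat_lit 0x1000010,nat_lit 0x1100010,
    nat_lit 0x11000010,nat_lit 0x10000010,nat_lit 0x20000010],[nat_lit 512,nat_lit 768,nat_lit 0x1100,
    nat_lit 0x101100,nat_lit 0x110100,nat_lit 0x10010100,nat_lit 0x100100,nat_lit 0x10100100,nat_lit 0x1000100,
    nat_lit 0x10000100],[nat_lit 0x11000,nat_lit 0x101000,nat_lit 0x111000,nat_lit 0x201000,nat_lit 0x1101000,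
    nat_lit 0x10101000,nat_lit 0x10001000,nat_lit 0x10011000],[nat_lit 0x20000,nat_lit 0x110000,nat_lit 0x210000,
    nat_lit 0x1110000,nat_lit 0x10110000,nat_lit 0x1010000,nat_lit 0x10010000,nat_lit 0x11010000],[nat_lit 0x200000,
    nat_lit 0x300000,nat_lit 0x1200000,nat_lit 0x1100000,nat_lit 0x2100000,nat_lit 0x11100000,nat_lit 0x10100000],
    [nat_lit 0x2000000,nat_lit 0x3000000,nat_lit 0x12000000,nat_lit 0x11000000],[nat_lit 0x20000000]]
    [.c (nat_lit 1) (nat_lit 2),.r (nat_lit 0xdb1) (nat_lit 5) [nat_lit 0x18c4000861,nat_lit 0x1004000001,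
    nat_lit 0x1080000001,nat_lit 0x210001],.c (nat_lit 0) (nat_lit 0x318002),
    .r (nat_lit 0xdb1) (nat_lit 5) [nat_lit 0x18c4018861,nat_lit 0x1004000001,nat_lit 0x1080000001,nat_lit 0x210001],
    .c (nat_lit 0) (nat_lit 0xc6018043),.r (nat_lit 0xc0d) (nat_lit 7) [nat_lit 0x290a529001,nat_lit 0x1086238c81,
    nat_lit 0x39c67118a1,nat_lit 0x4010000001,nat_lit 0x1086210c81],.c (nat_lit 0) (nat_lit 0x18c02),
    .c (nat_lit 0) (nat_lit 0xc6018043),.r (nat_lit 0xc0d) (nat_lit 7) [nat_lit 0x290a529001,nat_lit 0x1086218c81,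
    nat_lit 0x39c67198a1,nat_lit 0x4010000001,nat_lit 0x1086230c81],.c (nat_lit 1) (nat_lit 0x200c02),
    .c (nat_lit 0) (nat_lit 0x318002),.c (nat_lit 0) (nat_lit 0x318002),.c (nat_lit 0) (nat_lit 0x318002),
    .c (nat_lit 1) (nat_lit 0x6200002),.r (nat_lit 0xdb1) (nat_lit 5) [nat_lit 0x1800000861,nat_lit 0x1004000001,
    nat_lit 0x1080000001,nat_lit 0x210001],.r (nat_lit 0xdb5) (nat_lit 3) [nat_lit 0x200001,nat_lit 65],
    .c (nat_lit 0) (nat_lit 0x6018002),.c (nat_lit 0) (nat_lit 0xc6218c43),.c (nat_lit 0) (nat_lit 0xc6018c43),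
    .c (nat_lit 0) (nat_lit 0xc6018043),.c (nat_lit 0) (nat_lit 0xc6018c43),.c (nat_lit 0) (nat_lit 0x18002),
    .r (nat_lit 0xc0d) (nat_lit 7) [nat_lit 0x290a529001,nat_lit 0x1086210c81,nat_lit 0x39c67398a1,
    nat_lit 0x4010000001,nat_lit 0x1086250c81],.c (nat_lit 1) (nat_lit 0x200002),.c (nat_lit 0) (nat_lit 0xc6018043),
    .c (nat_lit 2) (nat_lit 2),.c (nat_lit 0) (nat_lit 0xc6318843),.c (nat_lit 0) (nat_lit 0xc6318843),
    .c (nat_lit 1) (nat_lit 0xc6200043),.c (nat_lit 0) (nat_lit 0x18c02),.c (nat_lit 0) (nat_lit 0xc0318043),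
    .c (nat_lit 0) (nat_lit 0xc0318043),.c (nat_lit 1) (nat_lit 0x6400c02),.c (nat_lit 0) (nat_lit 0xc6318843),
    .r (nat_lit 0x1109) (nat_lit 11) [nat_lit 0x10001,nat_lit 0x200001,nat_lit 0x4000001,nat_lit 0x80000001,
    nat_lit 0x1000000001],.c (nat_lit 0) (nat_lit 0xc6318843),.c (nat_lit 2) (nat_lit 0x802),
    .c (nat_lit 0) (nat_lit 0xc6318043),.c (nat_lit 0) (nat_lit 0xc6318043),.c (nat_lit 0) (nat_lit 0x300803),
    .c (nat_lit 0) (nat_lit 0xc6318843),.c (nat_lit 3) (nat_lit 2),.c (nat_lit 0) (nat_lit 0x4ce739cc4),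
    .c (nat_lit 0) (nat_lit 0x146328c42),.c (nat_lit 0) (nat_lit 0x146328c42),.c (nat_lit 1) (nat_lit 0x218c43),
    .c (nat_lit 0) (nat_lit 0xc6000002),.r (nat_lit 0xdba) (nat_lit 14) [nat_lit 65,nat_lit 0x200001],
    .r (nat_lit 0xdb1) (nat_lit 5) [nat_lit 0x1800200041,nat_lit 0x1004000001,nat_lit 0x1080000001,nat_lit 0x210001],
    .c (nat_lit 0) (nat_lit 0x80000003),.c (nat_lit 0) (nat_lit 0x80000803),.c (nat_lit 0) (nat_lit 0x6018002),
    .r (nat_lit 0xdb1) (nat_lit 5) [nat_lit 65,nat_lit 0x1004000001,nat_lit 0x1080000001,nat_lit 0x210001],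
    .c (nat_lit 0) (nat_lit 0x6018002),.r (nat_lit 0x1109) (nat_lit 11) [nat_lit 0x10001,nat_lit 0x200001,
    nat_lit 0x4000001,nat_lit 0x80000001,nat_lit 0x1000000001],.c (nat_lit 1) (nat_lit 0xc6200c43),
    .r (nat_lit 0xc0d) (nat_lit 7) [nat_lit 0x290a529001,nat_lit 0x18c62188a1,nat_lit 0x18c6718881,
    nat_lit 0x4010000001,nat_lit 0x18c62308a1],.r (nat_lit 0xdb7) (nat_lit 3) [nat_lit 65,nat_lit 0x1000210061],
    .c (nat_lit 0) (nat_lit 0x6018002),.c (nat_lit 5) (nat_lit 2),.c (nat_lit 0) (nat_lit 0xc4318c43),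
    .r (nat_lit 0xdba) (nat_lit 14) [nat_lit 0x2004210c41,nat_lit 0x200001],.c (nat_lit 0) (nat_lit 0xc0318c43),
    .c (nat_lit 0) (nat_lit 0xc0318043),.c (nat_lit 0) (nat_lit 0xc0318c43),.c (nat_lit 0) (nat_lit 0xc0318043),
    .c (nat_lit 1) (nat_lit 0x6400002),.c (nat_lit 6) (nat_lit 2),
    .r (nat_lit 0xdba) (nat_lit 14) [nat_lit 0x3084210c42,nat_lit 0x200001],
    .r (nat_lit 0x1109) (nat_lit 11) [nat_lit 0x10001,nat_lit 0x200001,nat_lit 0x4000001,nat_lit 0x80000001,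
    nat_lit 0x1000000001],.c (nat_lit 0) (nat_lit 0xc6318c45),.c (nat_lit 0) (nat_lit 0xc6318c43),
    .c (nat_lit 0) (nat_lit 0xc6318c45),.c (nat_lit 0) (nat_lit 0xc6318843),.c (nat_lit 7) (nat_lit 2),
    .r (nat_lit 0xb95) (nat_lit 5) [nat_lit 0x300c000001,nat_lit 0x69ce739861,nat_lit 65,nat_lit 0x3180000001,
    nat_lit 0x600061],.c (nat_lit 0) (nat_lit 0xc6318c43),.c (nat_lit 0) (nat_lit 0x300003),
    .c (nat_lit 8) (nat_lit 2)],
    .l (nat_lit 13) (nat_lit 0x780) (nat_lit 4) (nat_lit 0x3e2000003e2000003ec000003c8000003de000003de000003e3000003e3000003e3000003e3000003de000003de000003e6000003e60000053000000484) (nat_lit 0x14e0000014e000001680000014400000152000001520000014d0000014d0000014d0000014d00000152000001520000014a0000014a000000ac00000000)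
    (nat_lit 0x1e013b04bc28e1480a404ce2951348a5452027027609f066c43a14a0f004f429e1440a4052a28d14a8a545202902820a5068c44a14f0a385082a81510a6853e2a714f8a7c53c29a11d0a8842818013d09784c028413b09d84f627b14d8aa44ec27610709f86383c81480a404ec29a1460a304c62911488a4451826c14a0a5069c44e1440a404ec2a21460a3050e2911428a1c50028c14a0a506644321468a544f62a71488a4454029614b0a8052229d1228a9466e3e314a899c4f629f143898c52c2a014b0a5850a29114c8a6c66e3e314a8a5455229f1438a4452c2a014b0a5851e29114c8a946ca3e314a89a453629f1428a4452c29614b0a585222911228a946ae3e314809c04ec29a14609b052229d1488a4450028c14a0a506bc4321480a404ec29e1400a3050a2911488a3c51828014a0a5069c42214a09f04fc2a214a0a505362a51528a9452829412c0a706743e628213b041c23a14a0a505322451228a6452829414e09605c43e622510e879018021911387c63e31f18f8c8444321f30f984605301a30cd86382141990d3866e3371ab8d9469c35e1710ce8300230)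
    (nat_lit 0x1e01e00f007803c01e00f007803c01e00f007803c01e00f007802760f00f007803c01e00f007803c01e00f007803c01e00f0078012f09e85087803c01e00f007803c01e00f007803c01e00f007801470a785502843c01e00f007803c01e00f007803c01e00f007801480a205442761461e00f007803c01e00f007803c01e00f007801480a405342761460a30f007803c01e00f007803c01e00f007801338a5453e27b1318a1c5407803c01e00f007803c01e00f0078014a8a3454e27b1488a4452c2a03c01e00f007803c01e00f007801348a5453e29b1488a1452c29614b1e00f007803c01e00f0078014a8a5453e2a91488a1c54029614b0a58f007803c01e00f007801480a4053c2761460a005222851478a445007803c01e00f007801380a405342761360a3053a2911488a445182803c01e00f0078024c12b047420e14a0a5048a29914c891452829412c1e00f0078013e0a5054427e14a0a5054a29b1528a9452829414e0960f0078019b0d1842831c1a70cc866e3371b28d5c6bc34e19d0b884607801ef0fe83003c81fb0fd87c63e31f18f8c7ec3f61f30e38a60230)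
    (nat_lit 4) (nat_lit 83)
    [[nat_lit 2,nat_lit 3,nat_lit 0x1000002,nat_lit 0x2000002,nat_lit 17,nat_lit 0x1000011,nat_lit 0x1000101,
    nat_lit 0x1001,nat_lit 0x10001,nat_lit 0x1010001,nat_lit 0x1100001,nat_lit 0x1000001,nat_lit 0x2000001,
    nat_lit 0x11000001],[nat_lit 32,nat_lit 48,nat_lit 0x1020,nat_lit 0x10020,nat_lit 0x1000020,nat_lit 272,
    nat_lit 0x1010,nat_lit 0x1110,nat_lit 0x101010,nat_lit 0x1001010,nat_lit 0x10001010,nat_lit 0x10010,
    nat_lit 0x10110,nat_lit 0x110010,nat_lit 0x1010010,nat_lit 0x10010010,nat_lit 0x100010,nat_lit 0x1000010,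
    nat_lit 0x1000110,nat_lit 0x1100010,nat_lit 0x2000010,nat_lit 0x11000010],[nat_lit 512,nat_lit 0x100200,
    nat_lit 0x1100,nat_lit 0x10100,nat_lit 0x100100,nat_lit 0x200100,nat_lit 0x1000100,nat_lit 0x10000100],
    [nat_lit 0x2000,nat_lit 0x11000,nat_lit 0x101000,nat_lit 0x1001000,nat_lit 0x10001000],[nat_lit 0x20000,
    nat_lit 0x110000,nat_lit 0x1010000,nat_lit 0x10010000],[nat_lit 0x200000,nat_lit 0x1100000,nat_lit 0x10100000],
    [nat_lit 0x2000000,nat_lit 0x11000000],[]]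
    [.c (nat_lit 1) (nat_lit 2),.c (nat_lit 0) (nat_lit 0x600d004),.c (nat_lit 0) (nat_lit 0x2005002),
    .c (nat_lit 4) (nat_lit 0x404003),.c (nat_lit 0) (nat_lit 0x3302),.c (nat_lit 0) (nat_lit 0x3302),
    .c (nat_lit 0) (nat_lit 0x33002),.c (nat_lit 0) (nat_lit 0x202003),.r (nat_lit 0xdb6) (nat_lit 11) [nat_lit 33,
    nat_lit 0x33333201],.r (nat_lit 0xb9d) (nat_lit 11) [nat_lit 0x8001,nat_lit 0x7997b831,nat_lit 0x20073061,
    nat_lit 0x48044051,nat_lit 0x20823031],.c (nat_lit 0) (nat_lit 0x2220232),.c (nat_lit 0) (nat_lit 0x202003),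
    .r (nat_lit 0xeaa) (nat_lit 15) [nat_lit 0x33533201,nat_lit 0x220001,nat_lit 0x20400001,nat_lit 0x3332021,
    nat_lit 0x2300001],.c (nat_lit 1) (nat_lit 0x2002),.c (nat_lit 2) (nat_lit 2),
    .r (nat_lit 0xb7c) (nat_lit 1) [nat_lit 0x7d07d621,nat_lit 0x6700001,nat_lit 0x6031,nat_lit 0x660001,nat_lit 33],
    .r (nat_lit 0xdba) (nat_lit 6) [nat_lit 0x22004031,nat_lit 0x33303201],.c (nat_lit 0) (nat_lit 0x3000502),
    .r (nat_lit 116) (nat_lit 13) [nat_lit 33,nat_lit 0x33335231,nat_lit 0x20004041,nat_lit 0x2003051,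
    nat_lit 0x203031,nat_lit 0x22021],.r (nat_lit 0xdb3) (nat_lit 13) [nat_lit 0x222031,nat_lit 0x3033201],
    .c (nat_lit 1) (nat_lit 0x204203),.r (nat_lit 0xdb6) (nat_lit 11) [nat_lit 0x22222031,nat_lit 0x33333201],
    .r (nat_lit 0xdb6) (nat_lit 11) [nat_lit 0x300231,nat_lit 0x33333201],
    .r (nat_lit 0xdb3) (nat_lit 13) [nat_lit 0x2022031,nat_lit 0x3033201],.c (nat_lit 0) (nat_lit 770),
    .c (nat_lit 0) (nat_lit 0x2200203),.c (nat_lit 0) (nat_lit 0x3030302),.c (nat_lit 0) (nat_lit 0x222032),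
    .r (nat_lit 0xeaa) (nat_lit 15) [nat_lit 0x33533201,nat_lit 0x220001,nat_lit 0x20400001,nat_lit 0x33300021,
    nat_lit 0x2300001],.c (nat_lit 1) (nat_lit 0x3004302),.r (nat_lit 0xdb3) (nat_lit 13) [nat_lit 0x33300231,
    nat_lit 0x3033201],.r (nat_lit 0xdba) (nat_lit 10) [nat_lit 0x33303201,nat_lit 33],
    .c (nat_lit 2) (nat_lit 0x30202),.c (nat_lit 2) (nat_lit 0x2222432),.r (nat_lit 117) (nat_lit 0) [nat_lit 0x4001,
    nat_lit 0x44021,nat_lit 0x405031,nat_lit 0x4005051,nat_lit 0x40008041,nat_lit 0x55559431],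
    .c (nat_lit 0) (nat_lit 770),.c (nat_lit 3) (nat_lit 2),.r (nat_lit 0xdb6) (nat_lit 11) [nat_lit 0x3203231,
    nat_lit 0x33333201],.c (nat_lit 0) (nat_lit 0x2220003),.c (nat_lit 0) (nat_lit 0x2040003),
    .c (nat_lit 1) (nat_lit 0x3302323),.r (nat_lit 0xdb6) (nat_lit 11) [nat_lit 0x35335431,nat_lit 0x33333201],
    .c (nat_lit 0) (nat_lit 0x20303),.c (nat_lit 0) (nat_lit 0x20003),.c (nat_lit 4) (nat_lit 2),
    .c (nat_lit 0) (nat_lit 0x2400003),.c (nat_lit 0) (nat_lit 0x33323),.c (nat_lit 0) (nat_lit 0x200005),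
    .c (nat_lit 0) (nat_lit 0x200003),.c (nat_lit 5) (nat_lit 2),.c (nat_lit 0) (nat_lit 0x3555545),
    .c (nat_lit 0) (nat_lit 0x4600005),.r (nat_lit 0xdba) (nat_lit 6) [nat_lit 33,nat_lit 0x33303201],
    .c (nat_lit 6) (nat_lit 2),.c (nat_lit 0) (nat_lit 0x3333523),.c (nat_lit 0) (nat_lit 0x3333323),
    .c (nat_lit 7) (nat_lit 2),.c (nat_lit 0) (nat_lit 0x3003)]]

/-- nodes -/
noncomputable def rD8k_20_8 : List RJ :=
  [.l (nat_lit 15) (nat_lit 0x1e00) (nat_lit 3) (nat_lit 0xc9000000c9000000c7600000c7600000cda00000cda00000cf300000cf300000c9e00000c9e00000e4a00000e4a00000f2000000f2000000c9d00000c9d) (nat_lit 0x29000000290000002aa000002aa00000246000002460000022d0000022d0000028200000282000000d6000000d600000000000000000000028300000283)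
    (nat_lit 0x140028d04dd0a1a156429284e28a57141c283837a0b40195419885068a2713c8280058709e615ec25385548aab141c2af05dd0e3418ec32404ec89f313cc286856409e813d024204cd899d0ef426b85d00ba0192031d84f98a0d161c26e85880ac8146028c04e18a55109c26f85d00abe1b701dc04f98a25129c29285180908151025405718aad16742b788850daa19503368541891515ec2ac851809e814d02a205718aad11c4296082b0cf61ca033685318a551556295c52a899d155a2ab45630af212fe28ec60e8d9319ea228450408fa155227144e1899b15c62b8c57f0ac6153a29c438a8bf919e633cc53809c8157828384df09ae14b02b785388a3b148027905e40b9c1a8c469855c8a1b141c2838427077a11c42ce854e897f143829005e40bc818b442e854a8a1b1c682d0055f0ba019ec36a85fc8d9317902e704ac0d741c9439285e38c0b17741bd05d00ba020ac442838a8c1d17902f206ba095812d439288fa9239192019883b80c7619b4336867988a1217446987250e4a115c3c808b1917d18ec32a86dc0c901ca032a06798cf518b435184b50e4a1e4022b86418c9d13e6289c5128a0d14aa24544e408fa1436286c91c8c0b193a45f45000a1a13b228344f989f314c62a0c5380a08152a2ae48fa8bc71906458c4f30a00)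
    (nat_lit 0x14007800f001e003c007800f001e003c007800f001e003c007800f001e0014682800f001e003c007800f001e003c007800f001e003c007800f001e0013742c385641e003c007800f001e003c007800f001e003c007800f001e00143427984f40ac83c007800f001e003c007800f001e003c007800f001e0015642bd84f40a3015107800f001e003c007800f001e003c007800f001e00149425384840a3012a02a20f001e003c007800f001e003c007800f001e00138a2aa44cd89c315c62b8c5631e003c007800f001e003c007800f001e0014ae2aac4ce8a55155a2ab45790ac63c007800f001e003c007800f001e00141c28383bd084e167423884bf8a9d14807800f001e003c007800f001e00141c2af04d709be15bc296051d8a7113c82900f001e003c007800f001e000de82ee85d00ba02084415860e871517902f204ac1e003c007800f001e00168038d05d00abe1b5433d86c98bf917382f206ba09583c007800f001e00195431d86480db81950394067a8cf31a8c3168725096a115c7800f001e000cc4324063b077019b433684508cf3223c3ba87250e4a1e4022b8f001e00141a27644f989f31506298c5040a7015722a545e390cd2076320c5001e00144e27cc5068a25122a295447d09c81436286c605900f20aa327450d0a00)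
    (nat_lit 5) (nat_lit 79)
    [[nat_lit 2,nat_lit 0x10002,nat_lit 0x100002,nat_lit 0x10000011,nat_lit 0x10101,nat_lit 0x10000101,nat_lit 0x1001,
    nat_lit 0x101001,nat_lit 0x1001001,nat_lit 0x10001,nat_lit 0x1010001,nat_lit 0x10010001,nat_lit 0x100001,
    nat_lit 0x1100001,nat_lit 0x10100001,nat_lit 0x1000001,nat_lit 0x11000001,nat_lit 0x10000001],[nat_lit 32,
    nat_lit 48,nat_lit 0x1000020,nat_lit 0x10000020,nat_lit 272,nat_lit 0x1000110,nat_lit 0x1001010,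
    nat_lit 0x10001010,nat_lit 0x10010,nat_lit 0x100010,nat_lit 0x1000010,nat_lit 0x10000010,nat_lit 0x20000010],
    [nat_lit 512,nat_lit 768,nat_lit 0x1100,nat_lit 0x10100,nat_lit 0x11100,nat_lit 0x1010100,nat_lit 0x10010100,
    nat_lit 0x1000100,nat_lit 0x10000100,nat_lit 0x10001100,nat_lit 0x10100100,nat_lit 0x11000100,nat_lit 0x20000100],
    [nat_lit 0x2000,nat_lit 0x1002000,nat_lit 0x11000,nat_lit 0x1011000,nat_lit 0x101000,nat_lit 0x201000,
    nat_lit 0x1101000,nat_lit 0x10101000,nat_lit 0x1001000,nat_lit 0x2001000,nat_lit 0x11001000,nat_lit 0x10001000],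
    [nat_lit 0x20000,nat_lit 0x110000,nat_lit 0x1010000,nat_lit 0x1110000,nat_lit 0x10010000,nat_lit 0x10110000],
    [nat_lit 0x200000,nat_lit 0x1200000,nat_lit 0x1100000,nat_lit 0x11100000,nat_lit 0x10100000],[nat_lit 0x2000000,
    nat_lit 0x11000000,nat_lit 0x21000000],[nat_lit 0x20000000]]
    [.c (nat_lit 1) (nat_lit 2),.r (nat_lit 0xdb2) (nat_lit 11) [nat_lit 0x1084400c41,nat_lit 0x1806318801],
    .r (nat_lit 0xbd3) (nat_lit 11) [nat_lit 0x3000600001,nat_lit 0x28041,nat_lit 0x39ced19861,nat_lit 0x180600001,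
    nat_lit 0xc020061],.r (nat_lit 0xdb6) (nat_lit 8) [nat_lit 0x1004210061,nat_lit 0x1806318801],
    .c (nat_lit 0) (nat_lit 0x300c02),.c (nat_lit 0) (nat_lit 0x511404),.c (nat_lit 0) (nat_lit 0xc0318043),
    .r (nat_lit 0xdb5) (nat_lit 13) [nat_lit 0x88010062,nat_lit 0x1806300801],
    .r (nat_lit 0xdc2) (nat_lit 14) [nat_lit 0x4000001,nat_lit 0x6000861],.c (nat_lit 8) (nat_lit 0x84210062),
    .c (nat_lit 0) (nat_lit 0xa518085),.c (nat_lit 0) (nat_lit 0x6318043),.c (nat_lit 1) (nat_lit 0x802),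
    .r (nat_lit 0x110b) (nat_lit 12) [nat_lit 0x80200001,nat_lit 0x1008210c01,nat_lit 0x1806300801,
    nat_lit 0x18ca519061,nat_lit 0x2008411441],.r (nat_lit 0x1106) (nat_lit 12) [nat_lit 0x80200001,
    nat_lit 0x1008210c01,nat_lit 0x1806300801,nat_lit 0x2008411441,nat_lit 0x18ca519061],
    .c (nat_lit 0) (nat_lit 0x6318043),.c (nat_lit 0) (nat_lit 0x6318043),.c (nat_lit 0) (nat_lit 0x6318043),
    .c (nat_lit 2) (nat_lit 2),.c (nat_lit 7) (nat_lit 0x100030003),.c (nat_lit 0) (nat_lit 0x140038004),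
    .r (nat_lit 0xdba) (nat_lit 14) [nat_lit 0x4000001,nat_lit 0x1080400061],.c (nat_lit 0) (nat_lit 0xc6528c42),
    .c (nat_lit 0) (nat_lit 0xc6528c42),.c (nat_lit 0) (nat_lit 0x6018002),.c (nat_lit 0) (nat_lit 0xa018004),
    .r (nat_lit 0xdba) (nat_lit 5) [nat_lit 65,nat_lit 0x4000001],.r (nat_lit 0xdb2) (nat_lit 11) [nat_lit 0x10041,
    nat_lit 0x1806318801],.c (nat_lit 0) (nat_lit 0x100030005),.c (nat_lit 0) (nat_lit 0x80010003),
    .c (nat_lit 2) (nat_lit 0x10002),.c (nat_lit 3) (nat_lit 2),.c (nat_lit 0) (nat_lit 0xced39cc2),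
    .r (nat_lit 0xdb2) (nat_lit 11) [nat_lit 0x84210061,nat_lit 0x1806318801],
    .r (nat_lit 0xdb5) (nat_lit 13) [nat_lit 0x1088210c42,nat_lit 0x1806300801],.c (nat_lit 1) (nat_lit 0xc0018843),
    .r (nat_lit 0x1106) (nat_lit 12) [nat_lit 0x80200001,nat_lit 0x1008210c01,nat_lit 0x1806300801,
    nat_lit 0x20c8210c61,nat_lit 0x180a318841],.r (nat_lit 0x110b) (nat_lit 12) [nat_lit 0x80200001,
    nat_lit 0x1008210c01,nat_lit 0x1806300801,nat_lit 0x180a318841,nat_lit 0x20c8210c61],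
    .r (nat_lit 0xdb6) (nat_lit 8) [nat_lit 65,nat_lit 0x1806318801],.r (nat_lit 0xdb5) (nat_lit 13) [nat_lit 65,
    nat_lit 0x1806300801],.c (nat_lit 0) (nat_lit 0xa518c42),.c (nat_lit 0) (nat_lit 0x510004),
    .r (nat_lit 0xdb2) (nat_lit 11) [nat_lit 0x1004210061,nat_lit 0x1806318801],.c (nat_lit 0) (nat_lit 0xc6518c42),
    .c (nat_lit 4) (nat_lit 2),.r (nat_lit 75) (nat_lit 11) [nat_lit 0x1100000061,nat_lit 0x43400000c1,
    nat_lit 0x1c000001,nat_lit 0x59faf7b8a1,nat_lit 0x2980000081,nat_lit 0x2200e000a1],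
    .c (nat_lit 0) (nat_lit 0xc0318043),.r (nat_lit 0xdb6) (nat_lit 8) [nat_lit 0x1008210c41,nat_lit 0x1806318801],
    .c (nat_lit 0) (nat_lit 0xc0318c43),.r (nat_lit 0xdb5) (nat_lit 13) [nat_lit 0x88000062,nat_lit 0x1806300801],
    .r (nat_lit 0xdc2) (nat_lit 14) [nat_lit 0x4000001,nat_lit 0x6018861],
    .r (nat_lit 0xdb5) (nat_lit 13) [nat_lit 0x84000061,nat_lit 0x1806300801],
    .r (nat_lit 0xdba) (nat_lit 14) [nat_lit 0x4000001,nat_lit 65],.c (nat_lit 2) (nat_lit 0x104040003),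
    .c (nat_lit 2) (nat_lit 0x84020003),.c (nat_lit 0) (nat_lit 0x4000005),.c (nat_lit 5) (nat_lit 2),
    .c (nat_lit 8) (nat_lit 0x84210862),.c (nat_lit 0) (nat_lit 0x6318043),.c (nat_lit 0) (nat_lit 0xce739cc5),
    .c (nat_lit 0) (nat_lit 0x6318043),.c (nat_lit 0) (nat_lit 0x6318c43),.c (nat_lit 6) (nat_lit 2),
    .r (nat_lit 0x110b) (nat_lit 12) [nat_lit 0x80200001,nat_lit 0x1008210c01,nat_lit 0x1806300801,
    nat_lit 0x18ca529061,nat_lit 0x2008421441],.c (nat_lit 0) (nat_lit 0x6318c43),.c (nat_lit 0) (nat_lit 0x6318c43),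
    .c (nat_lit 0) (nat_lit 0x6318c43),.c (nat_lit 7) (nat_lit 2),.c (nat_lit 0) (nat_lit 0x80000007),
    .c (nat_lit 0) (nat_lit 0x100000007),.c (nat_lit 8) (nat_lit 2)],
    .l (nat_lit 13) (nat_lit 0x780) (nat_lit 4) (nat_lit 0x3c4000003c40000033d0000033d000003aa000004b60000040d0000040d00000438000004380000039700000397000003a5000003ad000003a50000031b) (nat_lit 0xf2000000f20000017900000179000000000000010c000000a9000000a90000007e0000007e0000011f0000011f00000109000001110000019b00000111)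
    (nat_lit 0x12e0b4852a2950c0090863634f17009285922a515d8c3445234510909704ce24b21f077063631b13f0e7054a2a51b38acc3be2fb1258a5454028419e885447c21a15f8afc43c2e60f608b04301801338a545402a016588c43cc21a15f893443c2e611207a04301800ee090846221521207086e63731320f6859e28b1a68a6438a2a921f060059633d2df109081a40d1d314707e233514b8e945ce3a518d8d3c43421a2068dcc50025c1f88e3c5dc3801820a8896c41218d8c6c3cc23e2068dcc6c82801f88e3c5003481820bf06dc2ca1ce092849a2bf28e0f6871e38f1b00ee86322b71b08e5453a32713f0b8057e2bf1d309907e23f11dd0d806923191f5907c53a3571528a945cc2e619a8a2c69038018c8adc30027812f09584c41ca1528b2443c21e1f88b3c5002ee1a48c644f01801470a183442861598c343d022c1d28a645f82a220f8e5450c25614e0a503cc2941b38aec4481ec14b8d346083041f58d8451c25e1520a7030029c17d8d143001801d28aa45944121ab8c9c50c1ca14e0a504142940ef88a443021817387146dc4b614e8a743442620c0079830020a)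
    (nat_lit 0x12e1e00f007803c01e00f007803c01e00f007803c01e00f007801690970f007803c01e00f007803c01e00f007803c01e00f0078014a899c5407803c01e00f007803c01e00f007803c01e00f0078014a892c5082a03c01e00f007803c01e00f007803c01e00f007800c00e4867a2cb1ae1e00f007803c01e00f007803c01e00f00780121077042a2310e10d70f007803c01e00f007803c01e00f0078018d8c6c47c1e61b990345007803c01e00f007803c01e00f007801a78c6c43421a1b990344b82803c01e00f007803c01e00f0078017009f857e2bf1320e987e23f11b01e00f007803c01e00f007801250e7057e24d1ed147071e38f1dd0d80f007803c01e00f007801648a9443c21e1678fc45dc28018c8d243007803c01e00f007801528a945cc2e61458cd470034815b8c644f01803c01e00f0078015d8d9c3d82241a68a5c6083041b08fac4bc28e14e1e00f007801868acc4581e814c8e945442fc1ca907c4ac28614a0a70f00780114877c4302180e28b9c84436e14e8a744c41a20f306004147801a28bec3001801548e947342ca1938d5c39428614a0a7052820a)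
    (nat_lit 5) (nat_lit 199)
    [[nat_lit 2,nat_lit 3,nat_lit 0x1000003,nat_lit 18,nat_lit 0x1000012,nat_lit 258,nat_lit 514,nat_lit 0x100002,
    nat_lit 0x1000002,nat_lit 0x10000002,nat_lit 0x1000102,nat_lit 0x2000002,nat_lit 17,nat_lit 33,nat_lit 273,
    nat_lit 0x100011,nat_lit 0x1000011,nat_lit 0x1000111,nat_lit 529,nat_lit 0x10011,nat_lit 0x2000011,
    nat_lit 0x10000011,nat_lit 257,nat_lit 513,nat_lit 0x1000101,nat_lit 769,nat_lit 0x10000101,nat_lit 0x1001,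
    nat_lit 0x1001001,nat_lit 0x1010001,nat_lit 0x100001,nat_lit 0x1100001,nat_lit 0x10100001,nat_lit 0x11100001,
    nat_lit 0x1000001,nat_lit 0x2000001,nat_lit 0x10000001,nat_lit 0x11000002,nat_lit 0x11000001],[nat_lit 32,
    nat_lit 0x1000020,nat_lit 272,nat_lit 528,nat_lit 0x1000110,nat_lit 0x10010,nat_lit 0x1010010,nat_lit 0x100010,
    nat_lit 0x1100010,nat_lit 0x1000010,nat_lit 0x2000010,nat_lit 0x11000010,nat_lit 0x10000010],[nat_lit 512,
    nat_lit 768,nat_lit 0x400,nat_lit 0x1000200,nat_lit 0x10000200,nat_lit 0x1100,nat_lit 0x10100,nat_lit 0x100100,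
    nat_lit 0x10100100,nat_lit 0x1000100,nat_lit 0x1100100,nat_lit 0x11000100,nat_lit 0x10000100],[nat_lit 0x2000,
    nat_lit 0x1001000,nat_lit 0x11001000,nat_lit 0x10001000,nat_lit 0x20001000],[nat_lit 0x20000,nat_lit 0x1020000,
    nat_lit 0x1010000,nat_lit 0x2010000,nat_lit 0x10010000],[nat_lit 0x1100000,nat_lit 0x11100000,nat_lit 0x10100000,
    nat_lit 0x20200000,nat_lit 0x20100000],[nat_lit 0x2000000,nat_lit 0x11000000,nat_lit 0x21000000],
    [nat_lit 0x20000000,nat_lit 0x30000000]]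
    [.c (nat_lit 1) (nat_lit 2),.r (nat_lit 0x5c5) (nat_lit 4) [nat_lit 65,nat_lit 0x180d00081,nat_lit 0xc600061,
    nat_lit 0x3000c000a1,nat_lit 0x39ce039861,nat_lit 0x30001],.r (nat_lit 0x5c7) (nat_lit 11) [nat_lit 0x4a5234a061,
    nat_lit 0x318c031c41,nat_lit 0x6b5a05b0a1,nat_lit 0x6294452c41,nat_lit 0x73a0273c81,nat_lit 0x5a5655a861],
    .r (nat_lit 0x5c6) (nat_lit 1) [nat_lit 0x140810081,nat_lit 0x80500061,nat_lit 0xc0200041,nat_lit 65,
    nat_lit 0x1047000a1,nat_lit 0x1080000061],.r (nat_lit 0x5c8) (nat_lit 4) [nat_lit 0xc0400042,nat_lit 0x80500041,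
    nat_lit 0x90400062,nat_lit 0x2080400061,nat_lit 0x49d254a062,nat_lit 0x20001],
    .r (nat_lit 0x923) (nat_lit 6) [nat_lit 0x4200000001,nat_lit 129,nat_lit 0x8500041,nat_lit 0xa500041,
    nat_lit 0x108400a1],.c (nat_lit 6) (nat_lit 0x421003),.c (nat_lit 0) (nat_lit 0x28c02),
    .r (nat_lit 0x5a1) (nat_lit 11) [nat_lit 0x39ce339861,nat_lit 0x2108021441,nat_lit 0x4a5203a0a1,
    nat_lit 0x5210442441,nat_lit 0x5298252c81,nat_lit 0x49d254a061],
    .r (nat_lit 0xdb3) (nat_lit 1) [nat_lit 0xc6218861,nat_lit 0x80500041],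
    .r (nat_lit 0x5c9) (nat_lit 11) [nat_lit 0x6500041,nat_lit 0x10001,nat_lit 0x18c0218861,nat_lit 0x10088000a1,
    nat_lit 0x8400061,nat_lit 0x8a900081],.r (nat_lit 0x5ca) (nat_lit 12) [nat_lit 0x2000800042,nat_lit 0x18c6018801,
    nat_lit 0x10061,nat_lit 66,nat_lit 0x500062,nat_lit 0x100900062],
    .r (nat_lit 0xdb3) (nat_lit 1) [nat_lit 0x6018861,nat_lit 0x300041],
    .r (nat_lit 0x5cb) (nat_lit 1) [nat_lit 0xa400810121,nat_lit 0x5a40500081,nat_lit 0x3100200061,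
    nat_lit 0x2940000041,nat_lit 0x1080000001,nat_lit 0x8b447000c1],
    .r (nat_lit 0x5a1) (nat_lit 11) [nat_lit 0x394a539861,nat_lit 0x2084221441,nat_lit 0x494a53a0a1,
    nat_lit 0x518c642441,nat_lit 0x5190652c81,nat_lit 0x494e74a061],.c (nat_lit 0) (nat_lit 0x6018c02),
    .r (nat_lit 0x5c5) (nat_lit 4) [nat_lit 0xc0400041,nat_lit 0x80500081,nat_lit 0x8c200061,nat_lit 0x31004000a1,
    nat_lit 0x394e539861,nat_lit 0x30001],.r (nat_lit 0x5ca) (nat_lit 12) [nat_lit 0x20c6a00042,nat_lit 0x18c6018801,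
    nat_lit 0x84310061,nat_lit 0xc6200042,nat_lit 0x84700062,nat_lit 0x184b00062],
    .r (nat_lit 0x5c9) (nat_lit 11) [nat_lit 0xca300041,nat_lit 0x10001,nat_lit 0x1804018861,nat_lit 0x11104000a1,
    nat_lit 0x8c200061,nat_lit 0xd2500081],.c (nat_lit 0) (nat_lit 0x80210862),
    .r (nat_lit 0x5c7) (nat_lit 11) [nat_lit 0x49d274a061,nat_lit 0x310c431c41,nat_lit 0x6a5a95b0a1,
    nat_lit 0x6214852c41,nat_lit 0x72a0a73c81,nat_lit 0x59d695a861],.c (nat_lit 2) (nat_lit 0x4018002),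
    .c (nat_lit 7) (nat_lit 0x318002),.r (nat_lit 0x5cc) (nat_lit 10) [nat_lit 0x18ce518841,nat_lit 0x1012500081,
    nat_lit 0x6300041,nat_lit 0x904000a1,nat_lit 0x8400061,nat_lit 0x8200061],
    .r (nat_lit 0x5c2) (nat_lit 4) [nat_lit 0x39ce039801,nat_lit 0x69d6b6b061,nat_lit 0x3190231c81,
    nat_lit 0x9314a63441,nat_lit 0x84300a1,nat_lit 0x6300041],.r (nat_lit 0x5cd) (nat_lit 0) [nat_lit 0x4300042,
    nat_lit 65,nat_lit 0x1047000c2,nat_lit 0x20066000e2,nat_lit 0x18c6018861,nat_lit 0x4210061],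
    .r (nat_lit 0xdb3) (nat_lit 5) [nat_lit 0x80300041,nat_lit 0x18c6318801],.c (nat_lit 0) (nat_lit 0x80010003),
    .c (nat_lit 0) (nat_lit 0xc0218002),.c (nat_lit 0) (nat_lit 0x1084008a4),.c (nat_lit 0) (nat_lit 0x210803),
    .c (nat_lit 0) (nat_lit 0x18c02),.r (nat_lit 0xdbe) (nat_lit 11) [nat_lit 0x18c6018801,nat_lit 0x80300041],
    .c (nat_lit 0) (nat_lit 0x18c02),.r (nat_lit 0xdb3) (nat_lit 5) [nat_lit 0x84300041,nat_lit 0x18c6318801],
    .r (nat_lit 0x923) (nat_lit 6) [nat_lit 0x4200000001,nat_lit 0x8400081,nat_lit 0xc300041,nat_lit 0x6300041,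
    nat_lit 0x84400a1],.c (nat_lit 0) (nat_lit 0x6010003),.r (nat_lit 0x5c5) (nat_lit 4) [nat_lit 0x200041,
    nat_lit 0x180900081,nat_lit 0xc400061,nat_lit 0x30008000a1,nat_lit 0x39ce339861,nat_lit 0x30001],
    .c (nat_lit 1) (nat_lit 0x10002),.c (nat_lit 2) (nat_lit 2),.r (nat_lit 0x5c6) (nat_lit 1) [nat_lit 0x241010081,
    nat_lit 0x100900061,nat_lit 0x140600041,nat_lit 0xc0400041,nat_lit 0x204f000a1,nat_lit 0x1100500061],
    .r (nat_lit 0xdb3) (nat_lit 5) [nat_lit 65,nat_lit 0x18c6318801],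
    .r (nat_lit 0x5c2) (nat_lit 4) [nat_lit 0x39ce039801,nat_lit 0x6952d6b061,nat_lit 0x3088631c81,
    nat_lit 0x9290c63441,nat_lit 0x1100300a1,nat_lit 0xca000041],.r (nat_lit 0x923) (nat_lit 6) [nat_lit 0x4200000001,
    nat_lit 0x140800081,nat_lit 0xc8000041,nat_lit 0xca000041,nat_lit 0x1100400a1],
    .c (nat_lit 0) (nat_lit 0x80210862),.c (nat_lit 0) (nat_lit 0x80220862),
    .r (nat_lit 0xdbe) (nat_lit 11) [nat_lit 0x18c6018801,nat_lit 65],.c (nat_lit 0) (nat_lit 0x6000c02),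
    .c (nat_lit 1) (nat_lit 0x6020002),.r (nat_lit 0x5a1) (nat_lit 11) [nat_lit 0x394e739861,nat_lit 0x2088421441,
    nat_lit 0x495293a0a1,nat_lit 0x5190842441,nat_lit 0x5198a52c81,nat_lit 0x495294a061],
    .r (nat_lit 0xdb3) (nat_lit 1) [nat_lit 0x6318861,nat_lit 65],
    .r (nat_lit 0x569) (nat_lit 7) [nat_lit 0x1806318841,nat_lit 0x100010101,nat_lit 0xc00000a1,nat_lit 65,
    nat_lit 0xc0200061,nat_lit 0xc40000e1],.c (nat_lit 3) (nat_lit 2),
    .r (nat_lit 0xae0) (nat_lit 13) [nat_lit 0xe700041,nat_lit 0x18c600a1,nat_lit 0x6b5a06b001,nat_lit 0x6300000001,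
    nat_lit 129],.r (nat_lit 0x5ce) (nat_lit 13) [nat_lit 0x10001,nat_lit 0x4a6298a042,nat_lit 0x2012038041,
    nat_lit 66,nat_lit 0x110030061,nat_lit 0x10840062],.r (nat_lit 0xbf9) (nat_lit 5) [nat_lit 0x39ce039801,
    nat_lit 0x618c631c01,nat_lit 0x4100421441,nat_lit 0x8a4091a0a1,nat_lit 0x28c0318841],
    .c (nat_lit 0) (nat_lit 0x400803),.c (nat_lit 0) (nat_lit 0x80200003),.c (nat_lit 0) (nat_lit 0xc6018c43),
    .c (nat_lit 0) (nat_lit 0x400803),.c (nat_lit 0) (nat_lit 0x400803),.c (nat_lit 0) (nat_lit 0x200803),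
    .c (nat_lit 0) (nat_lit 0x200803),.c (nat_lit 7) (nat_lit 0x300002),.c (nat_lit 0) (nat_lit 0x218003),
    .c (nat_lit 4) (nat_lit 2),.c (nat_lit 0) (nat_lit 0x80000003),.c (nat_lit 0) (nat_lit 0x80000003),
    .c (nat_lit 0) (nat_lit 0x80010003),.c (nat_lit 0) (nat_lit 0x100000c05),.c (nat_lit 5) (nat_lit 2),
    .c (nat_lit 0) (nat_lit 0x1044210a2),.c (nat_lit 0) (nat_lit 0xc6318c43),.c (nat_lit 0) (nat_lit 0x84410862),
    .c (nat_lit 0) (nat_lit 0x14a529c85),.c (nat_lit 0) (nat_lit 0x805),.c (nat_lit 0) (nat_lit 0x200803),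
    .c (nat_lit 0) (nat_lit 0x400803),.r (nat_lit 0x5cd) (nat_lit 0) [nat_lit 0x10020062,nat_lit 0xc220061,
    nat_lit 0x1280600e2,nat_lit 0x202a0680c2,nat_lit 0x18d2338841,nat_lit 0xa018041],
    .c (nat_lit 0) (nat_lit 0x400803),.c (nat_lit 7) (nat_lit 2),.c (nat_lit 0) (nat_lit 0x18003),
    .c (nat_lit 0) (nat_lit 0x6000003),.c (nat_lit 8) (nat_lit 2),.c (nat_lit 0) (nat_lit 0x80200003)]]

/-- nodes -/
noncomputable def rD8k_20_9 : List RJ :=
  [.l (nat_lit 12) (nat_lit 960) (nat_lit 4) (nat_lit 0x1ca0000017e000001760000017200000176000001d2000001a2000001960000019e0000019e000001a7000001a7000001e0000001e0000001b40000018e) (nat_lit 0x62000000160000006e0000006a0000000e0000006a0000004a0000003e000000420000004200000039000000390000000000000000000000520000002c)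
    (nat_lit 0x16819c1c01cc0c01601ec18c15417019b1bd23c1b817821011c1681081141dc1241340e80dc13c1231452081840c018c1141cc0f810c1c011412c0cc13413413719d13c1981240c01081c00ec0f81b41081280c01301301771a917c1e41201401241601081141dc12412c0e80c41340cb13d17c1380c01401dc0c01b41c01c81dc1681940f41a819918d0e41b81801a60e818c0c00cc1940e814016016c1801832051a21a224c2641341ec12812c16812c14c1401401540db15d15c18015c17413c1701301341a813415418015c15c17b1791942200e01ac0dc1541301340f40c414016c15c15c1671651a022c1201901451bd1a919d18d13d15d2051651790e016e1891a518917912319b1771371990cb0db18316717b16e0e01a71a716717b1841b81e41981b81381801a222c2201a71a51e01e01841b420823c17c13c0e417c15c1a21a01941a71891e01e011c1b418c2101400c01a61401742641901ac17b1791b41b40f01880c01781201241800c015c24c1200e016718911c1841540f0)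
    (nat_lit 0x1683c03c03c03c03c03c03c03c03c03c03c03c03c03c03c019c1683c03c03c03c03c03c03c03c03c03c03c03c03c03c01c01080f83c03c03c03c03c03c03c03c03c03c03c03c03c01cc11410c0f83c03c03c03c03c03c03c03c03c03c03c03c00c01dc1c01b41dc3c03c03c03c03c03c03c03c03c03c03c01601241141081241dc3c03c03c03c03c03c03c03c03c03c01ec13412c12812c1681403c03c03c03c03c03c03c03c03c018c0e80cc0c00e81941601403c03c03c03c03c03c03c03c01540dc1341300c40f416c14015c3c03c03c03c03c03c03c017013c1341301341a818015415c15c3c03c03c03c03c03c018b1231371770cb1991830db17b1670e03c03c03c03c03c01bd14519d1a913d18d20515d17916516e0e03c03c03c03c023c20813c17c17c0e41a215c1941a01891a71e03c03c03c01b81841981e41381b81a218022022c1a51a71e01e03c03c01780c01241200c01801e415c0e012018916718411c0f03c020018c0c01401401a61801741ac19017917b1b41b41880f0)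
    (nat_lit 5) (nat_lit 107)
    [[nat_lit 2,nat_lit 3,nat_lit 0x1002,nat_lit 0x100002,nat_lit 0x1000002,nat_lit 0x10100002,nat_lit 17,
    nat_lit 0x100011,nat_lit 257,nat_lit 0x1001,nat_lit 0x1011001,nat_lit 0x101001,nat_lit 0x1101001,
    nat_lit 0x1001001,nat_lit 0x10101001,nat_lit 0x1010001,nat_lit 0x100001,nat_lit 0x1110001,nat_lit 0x1100001,
    nat_lit 0x10100001,nat_lit 0x11100001,nat_lit 0x1000001,nat_lit 0x2000001,nat_lit 0x10000001,nat_lit 0x11000001],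
    [nat_lit 272,nat_lit 0x10010,nat_lit 0x1010010,nat_lit 0x100010,nat_lit 0x100110,nat_lit 0x110010,
    nat_lit 0x1100010,nat_lit 0x1000010],[nat_lit 512,nat_lit 768,nat_lit 0x400,nat_lit 0x100200,nat_lit 0x10100200,
    nat_lit 0x1100,nat_lit 0x101100,nat_lit 0x10100,nat_lit 0x20100,nat_lit 0x110100,nat_lit 0x1010100,
    nat_lit 0x10010100,nat_lit 0x100100,nat_lit 0x10100100,nat_lit 0x1000100,nat_lit 0x10000100],[nat_lit 0x2000,
    nat_lit 0x102000,nat_lit 0x10002000,nat_lit 0x11000,nat_lit 0x1011000,nat_lit 0x10011000,nat_lit 0x101000,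
    nat_lit 0x111000,nat_lit 0x1101000,nat_lit 0x10101000,nat_lit 0x10102000,nat_lit 0x1001000,nat_lit 0x2001000,
    nat_lit 0x11001000,nat_lit 0x10001000,nat_lit 0x20001000],[nat_lit 0x20000,nat_lit 0x120000,nat_lit 0x1020000,
    nat_lit 0x110000,nat_lit 0x1110000,nat_lit 0x10110000,nat_lit 0x1010000,nat_lit 0x2010000,nat_lit 0x10010000,
    nat_lit 0x20010000],[nat_lit 0x200000,nat_lit 0x1100000,nat_lit 0x10100000,nat_lit 0x11100000,nat_lit 0x20100000],
    [nat_lit 0x2000000,nat_lit 0x3000000,nat_lit 0x11000000,nat_lit 0x21000000],[nat_lit 0x20000000]]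
    [.c (nat_lit 1) (nat_lit 2),.r (nat_lit 0x5c5) (nat_lit 4) [nat_lit 65,nat_lit 0x180d00081,nat_lit 0xc600061,
    nat_lit 0x3000c000a1,nat_lit 0x39ce039861,nat_lit 0x30001],.c (nat_lit 0) (nat_lit 0x140048c04),
    .c (nat_lit 0) (nat_lit 0x28c02),.r (nat_lit 0x5a1) (nat_lit 11) [nat_lit 0x39ce339861,nat_lit 0x2108021441,
    nat_lit 0x4a5203a0a1,nat_lit 0x5210442441,nat_lit 0x5298252c81,nat_lit 0x49d254a061],
    .c (nat_lit 0) (nat_lit 0x28c02),.r (nat_lit 0xdb3) (nat_lit 1) [nat_lit 0x6018861,nat_lit 0x300041],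
    .c (nat_lit 0) (nat_lit 0x6018c02),.c (nat_lit 7) (nat_lit 0x318002),.c (nat_lit 0) (nat_lit 0x80010003),
    .c (nat_lit 8) (nat_lit 0x6300c43),.r (nat_lit 0xdb3) (nat_lit 5) [nat_lit 0x1084210061,nat_lit 0x18c6318801],
    .c (nat_lit 0) (nat_lit 0xc0028c02),.c (nat_lit 0) (nat_lit 0xc0218002),.c (nat_lit 7) (nat_lit 0x80010803),
    .c (nat_lit 0) (nat_lit 0x1084008a4),.c (nat_lit 0) (nat_lit 0x210803),.c (nat_lit 0) (nat_lit 0x84218062),
    .c (nat_lit 0) (nat_lit 0x18c02),.r (nat_lit 0xdbe) (nat_lit 11) [nat_lit 0x18c6018801,nat_lit 0x80300041],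
    .c (nat_lit 0) (nat_lit 0x18c02),.r (nat_lit 0xdb3) (nat_lit 5) [nat_lit 0x84300041,nat_lit 0x18c6318801],
    .r (nat_lit 0x923) (nat_lit 6) [nat_lit 0x4200000001,nat_lit 0x8400081,nat_lit 0xc300041,nat_lit 0x6300041,
    nat_lit 0x84400a1],.c (nat_lit 0) (nat_lit 0x6010003),.c (nat_lit 1) (nat_lit 0x10002),
    .r (nat_lit 0xdb3) (nat_lit 5) [nat_lit 65,nat_lit 0x18c6318801],.c (nat_lit 0) (nat_lit 0x80210862),
    .c (nat_lit 0) (nat_lit 0x80220862),.r (nat_lit 0xdbe) (nat_lit 11) [nat_lit 0x18c6018801,nat_lit 65],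
    .c (nat_lit 0) (nat_lit 0x6300c02),.c (nat_lit 0) (nat_lit 0x80210862),.c (nat_lit 0) (nat_lit 0x6000c02),
    .c (nat_lit 1) (nat_lit 0x6020002),.c (nat_lit 3) (nat_lit 2),.r (nat_lit 0xae0) (nat_lit 13) [nat_lit 0xe700041,
    nat_lit 0x18c600a1,nat_lit 0x6b5a06b001,nat_lit 0x6300000001,nat_lit 129],
    .r (nat_lit 0x5ce) (nat_lit 13) [nat_lit 0x10001,nat_lit 0x4a6298a042,nat_lit 0x2012038041,nat_lit 66,
    nat_lit 0x110030061,nat_lit 0x10840062],.c (nat_lit 0) (nat_lit 0x400803),.c (nat_lit 0) (nat_lit 0x400803),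
    .c (nat_lit 0) (nat_lit 0x80200003),.r (nat_lit 0xdb3) (nat_lit 1) [nat_lit 0x18ca328841,nat_lit 0x1084010061],
    .c (nat_lit 0) (nat_lit 0xc6018c43),.r (nat_lit 0x569) (nat_lit 7) [nat_lit 0x38ca739861,nat_lit 0x895317c121,
    nat_lit 0x4088842481,nat_lit 0x28c6529061,nat_lit 0x2004621441,nat_lit 0x6110c634c1],
    .c (nat_lit 1) (nat_lit 0xc6010043),.r (nat_lit 0xdbe) (nat_lit 11) [nat_lit 0x18c6018801,nat_lit 0x1800300861],
    .c (nat_lit 0) (nat_lit 0xc6018c43),.c (nat_lit 0) (nat_lit 0x400803),.c (nat_lit 0) (nat_lit 0x400803),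
    .c (nat_lit 0) (nat_lit 0x200803),.c (nat_lit 0) (nat_lit 0x218003),.c (nat_lit 4) (nat_lit 2),
    .c (nat_lit 1) (nat_lit 0x100040803),.r (nat_lit 0xdb3) (nat_lit 1) [nat_lit 0x28c6318841,nat_lit 0x2080000061],
    .r (nat_lit 0xdb3) (nat_lit 1) [nat_lit 65,nat_lit 0x6318861],
    .r (nat_lit 0x569) (nat_lit 7) [nat_lit 0x180a529061,nat_lit 0x11293a121,nat_lit 0xc8421481,nat_lit 0x6318861,
    nat_lit 0xc4410c41,nat_lit 0xd0631cc1],.c (nat_lit 1) (nat_lit 0x6310c43),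
    .r (nat_lit 0x5a1) (nat_lit 11) [nat_lit 0x49ce749841,nat_lit 0x3108431461,nat_lit 0x6a5295a081,
    nat_lit 0x6210852461,nat_lit 0x7298a72ca1,nat_lit 0x59d295a041],.r (nat_lit 0x110d) (nat_lit 11) [nat_lit 0x10001,
    nat_lit 0x200001,nat_lit 0x4000001,nat_lit 0x80000001,nat_lit 0x1000000001],.c (nat_lit 1) (nat_lit 0x80020803),
    .r (nat_lit 0x923) (nat_lit 6) [nat_lit 0x4200000001,nat_lit 0x20088200a1,nat_lit 0x100c010061,
    nat_lit 0x1006010061,nat_lit 0x2808020081],.r (nat_lit 0x110d) (nat_lit 11) [nat_lit 0x10001,nat_lit 0x200001,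
    nat_lit 0x4000001,nat_lit 0x80000001,nat_lit 0x1000000001],.c (nat_lit 0) (nat_lit 0x80000003),
    .r (nat_lit 0xdbe) (nat_lit 11) [nat_lit 0x18c6018801,nat_lit 0x1080010061],.c (nat_lit 0) (nat_lit 0x80000003),
    .c (nat_lit 0) (nat_lit 0x80010003),.c (nat_lit 0) (nat_lit 0x100000c05),.c (nat_lit 5) (nat_lit 2),
    .r (nat_lit 0xdb3) (nat_lit 5) [nat_lit 0x2800519062,nat_lit 0x18c6318801],.c (nat_lit 0) (nat_lit 0x1044210a2),
    .r (nat_lit 0x923) (nat_lit 6) [nat_lit 0x4200000001,nat_lit 0x29404010a1,nat_lit 0x18c8300861,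
    nat_lit 0x18ca300861,nat_lit 0x2110441481],.r (nat_lit 0xdb3) (nat_lit 5) [nat_lit 0x1800300861,
    nat_lit 0x18c6318801],.r (nat_lit 0x5c2) (nat_lit 4) [nat_lit 0x39ce039801,nat_lit 0x5956b6a841,
    nat_lit 0x1090230ca1,nat_lit 0x8294a62c61,nat_lit 0x2108431481,nat_lit 0x18c6300861],
    .c (nat_lit 0) (nat_lit 0xc6318c43),.c (nat_lit 0) (nat_lit 0x84410862),.c (nat_lit 0) (nat_lit 0x14a529c85),
    .c (nat_lit 0) (nat_lit 0xc6018c43),.c (nat_lit 6) (nat_lit 2),.c (nat_lit 0) (nat_lit 0x805),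
    .c (nat_lit 0) (nat_lit 0x400803),.c (nat_lit 0) (nat_lit 0x200803),.c (nat_lit 0) (nat_lit 0x400803),
    .c (nat_lit 7) (nat_lit 2),.r (nat_lit 0x5c2) (nat_lit 4) [nat_lit 0x39ce039801,nat_lit 0x69dad6b061,
    nat_lit 0x3198631c81,nat_lit 0x9318c63441,nat_lit 0x300a1,nat_lit 65],.c (nat_lit 0) (nat_lit 0x18003),
    .c (nat_lit 0) (nat_lit 0x6000003),.c (nat_lit 8) (nat_lit 2)],
    .l (nat_lit 12) (nat_lit 552) (nat_lit 3) (nat_lit 0x1550000017400000153000000ff000001350000011b0000012d0000012d0000010a000000ff000000ff00000129000000ff000001060000010300000119) (nat_lit 0x1f0000007500000021000000590000003f0000004700000047000000750000006a0000004b000000750000006e000000750000005b00000071)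
    (nat_lit 0x13d1140e01140f313011510e0e00eb1210ea0ab0fa0fa0ef17413d0ff1530f813511a1130ff08a13e10712e17d13912e1531140de13211411418c12f0d60fc08a0de0ba0c91100ba0ff0e008a0de0c80c00f909c08a0a20b408a09108a08a08e1351300c01140f80f60e10cc0c008a0ea0c00c70c00da0c40f80f30c81140de0f80b80d40a60b10b408a08a0a80c008a11310e09c12f0d40cc0e60ca0d40df0e00b80df0d40db0df11a1150f918c0b80e10a00e60b80c30e20950c30b80d20bc08a0eb0a20fc0b108a0c30df0b80e60bf09509c0950a80950ff0e008a0d60a60c00b80d408a0b80b408a09108a09a08e1070ea08a0de08a0c00950b808a0950b408a09108a0a408e13e1210b408a0b40ea0e20e00b40bf0de0b40bf0b40b40b817d0fa08a0c90a80c00b80d408a0950b408a09108a08d08a12e0ab0910ba08a0c70c30df09109c0bf09109c0910a009512e0ef08e0ba08a0c40bc0df08e0950b808e09508a0e408e1390fa08a1100c00da0d20db09a0a80b40a40a008d0e00e4)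
    (nat_lit 0x13d22822822822822822822822822822822822822822822811413d2282282282282282282282282282282282282282280e00ff0de2282282282282282282282282282282282282281141531320de2282282282282282282282282282282282280f30f81140c80f82282282282282282282282282282282281301351140c00f60f822822822822822822822822822822811511a18c0f90e10b80e622822822822822822822822822810e11312f09c0cc0d40ca0e62282282282282282282282280e00ff0d608a0c00a60d40b80b82282282282282282282280eb08a0fc0a208a0b10df0c30e60b822822822822822822812113e08a0b40ea0b40e00e20bf0b40b42282282282282280ea1070de08a0c008a0b809509508a08a0b42282282282280ab11b0ba0910c708a0df0c309c0910910bf0912282282280fa1140c908a0c00a80d40b809508a08a0b408a0912282280fa12411008a0da0c00db0d20a809a0a40b408d0a00e42280ef1180ba08e0c408a0df0bc09508e08e0b808a09508e0e4)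
    (nat_lit 5) (nat_lit 83)
    [[nat_lit 2,nat_lit 18,nat_lit 258,nat_lit 0x1002,nat_lit 17,nat_lit 33,nat_lit 273,nat_lit 0x1011,
    nat_lit 0x100011,nat_lit 0x1000011,nat_lit 257,nat_lit 513,nat_lit 0x1101,nat_lit 0x100101,nat_lit 0x1000101,
    nat_lit 0x1001,nat_lit 0x2001,nat_lit 0x101001,nat_lit 0x1001001,nat_lit 0x10001001,nat_lit 0x10001,
    nat_lit 0x100001,nat_lit 0x1000001,nat_lit 0x2000001],[nat_lit 32,nat_lit 48,nat_lit 288,nat_lit 0x1020,
    nat_lit 0x100020,nat_lit 0x1000020,nat_lit 272,nat_lit 528,nat_lit 0x1110,nat_lit 0x100110,nat_lit 0x1000110,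
    nat_lit 0x1010,nat_lit 0x2010,nat_lit 0x101010,nat_lit 0x1001010,nat_lit 0x10001010,nat_lit 0x10010,
    nat_lit 0x100010,nat_lit 0x110010,nat_lit 0x1100010,nat_lit 0x1000010,nat_lit 0x1010010,nat_lit 0x2000010],
    [nat_lit 512,nat_lit 768,nat_lit 0x1200,nat_lit 0x1000200,nat_lit 0x1100,nat_lit 0x2100,nat_lit 0x101100,
    nat_lit 0x1001100,nat_lit 0x10100,nat_lit 0x100100,nat_lit 0x110100,nat_lit 0x1000100,nat_lit 0x1010100,
    nat_lit 0x1100100,nat_lit 0x2000100],[nat_lit 0x2000,nat_lit 0x102000,nat_lit 0x10002000,nat_lit 0x11000,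
    nat_lit 0x111000,nat_lit 0x101000,nat_lit 0x1001000,nat_lit 0x10001000],[nat_lit 0x20000,nat_lit 0x110000],
    [nat_lit 0x200000,nat_lit 0x1100000],[nat_lit 0x2000000,nat_lit 0x11000000],[]]
    [.c (nat_lit 1) (nat_lit 2),.c (nat_lit 0) (nat_lit 0x6528c83),.c (nat_lit 0) (nat_lit 0x6519483),
    .c (nat_lit 0) (nat_lit 0x6529483),.c (nat_lit 0) (nat_lit 0x6528085),
    .r (nat_lit 0xdb4) (nat_lit 6) [nat_lit 0x4000001,nat_lit 0x218041],
    .r (nat_lit 0xdb4) (nat_lit 6) [nat_lit 0x4000001,nat_lit 65],.c (nat_lit 0) (nat_lit 0x86528085),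
    .c (nat_lit 0) (nat_lit 0x318043),.c (nat_lit 5) (nat_lit 0x80400803),.c (nat_lit 0) (nat_lit 0x6501485),
    .r (nat_lit 0xdb4) (nat_lit 6) [nat_lit 0x4000001,nat_lit 0x310041],.c (nat_lit 0) (nat_lit 0x86501485),
    .c (nat_lit 0) (nat_lit 0x300c43),.c (nat_lit 5) (nat_lit 0x80410003),.c (nat_lit 0) (nat_lit 0xc6529485),
    .c (nat_lit 0) (nat_lit 0x6529483),.c (nat_lit 6) (nat_lit 0x4210862),.c (nat_lit 0) (nat_lit 0xc6529483),
    .r (nat_lit 0xb26) (nat_lit 6) [nat_lit 0x39da76b0e1,nat_lit 0xca5110a1,nat_lit 0x3088421481,nat_lit 0x88421481,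
    nat_lit 0x104210c41],.c (nat_lit 6) (nat_lit 0xc4300002),.c (nat_lit 0) (nat_lit 0x318c43),
    .c (nat_lit 0) (nat_lit 0xc6529483),.r (nat_lit 0x6e9) (nat_lit 14) [nat_lit 0x4198c73481,nat_lit 0x295294a061,
    nat_lit 0x49dad6b0a1,nat_lit 0x1088421441,nat_lit 0x28ce739861,nat_lit 0x18c6529061],.c (nat_lit 2) (nat_lit 2),
    .r (nat_lit 0xb26) (nat_lit 6) [nat_lit 0x69da0fb0c2,nat_lit 65,nat_lit 0x3000030061,nat_lit 0x30061,
    nat_lit 0x180030062],.r (nat_lit 0xb26) (nat_lit 6) [nat_lit 0x69da7cb0c2,nat_lit 0x310041,nat_lit 0x3000220061,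
    nat_lit 0x220061,nat_lit 0x180220062],.r (nat_lit 0x6ea) (nat_lit 15) [nat_lit 0x80200001,nat_lit 0x140028041,
    nat_lit 0x1148218c41,nat_lit 0x1906310861,nat_lit 0xc0000001,nat_lit 0x86310861],
    .r (nat_lit 0xb26) (nat_lit 6) [nat_lit 0x39ce0998c1,nat_lit 0xc0018081,nat_lit 0x30800400a1,nat_lit 0x800400a1,
    nat_lit 0x100020061],.r (nat_lit 466) (nat_lit 14) [nat_lit 0x80010001,nat_lit 0x11c0028041,nat_lit 0xc0000001,
    nat_lit 0x140028041,nat_lit 0x104020061,nat_lit 0x1906310861],.c (nat_lit 2) (nat_lit 0x18802),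
    .r (nat_lit 0xb26) (nat_lit 6) [nat_lit 0x69dad9b0c2,nat_lit 0x520041,nat_lit 0x3000410061,nat_lit 0x410061,
    nat_lit 0x180410062],.r (nat_lit 0x6ea) (nat_lit 15) [nat_lit 0x80200001,nat_lit 0x140318041,nat_lit 0x1148000c41,
    nat_lit 0x1906000861,nat_lit 0xc0000001,nat_lit 0x86000861],.r (nat_lit 0xb26) (nat_lit 6) [nat_lit 0x39ce7698c1,
    nat_lit 0xc0510081,nat_lit 0x30804200a1,nat_lit 0x804200a1,nat_lit 0x100210061],
    .r (nat_lit 466) (nat_lit 14) [nat_lit 0x80010001,nat_lit 0x11c0318041,nat_lit 0xc0000001,nat_lit 0x140318041,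
    nat_lit 0x104210061,nat_lit 0x1906000861],.c (nat_lit 0) (nat_lit 0x6528085),.c (nat_lit 0) (nat_lit 0x6528c83),
    .c (nat_lit 0) (nat_lit 0x318043),.r (nat_lit 0xb26) (nat_lit 6) [nat_lit 0x6380c1,nat_lit 0x2088431481,
    nat_lit 0x10ca5010a1,nat_lit 0x28ca5010a1,nat_lit 0x1886300861],.c (nat_lit 0) (nat_lit 0xc02),
    .c (nat_lit 0) (nat_lit 0x80200803),.c (nat_lit 0) (nat_lit 0x4000805),.c (nat_lit 0) (nat_lit 0xc6519442),
    .r (nat_lit 0xdbb) (nat_lit 6) [nat_lit 0x84010061,nat_lit 0x10001],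
    .r (nat_lit 0xdb4) (nat_lit 6) [nat_lit 0x4000001,nat_lit 0x1000200041],.c (nat_lit 6) (nat_lit 0x4200803),
    .r (nat_lit 0xdbb) (nat_lit 6) [nat_lit 0x88010062,nat_lit 0x10001],.c (nat_lit 3) (nat_lit 2),
    .r (nat_lit 0xb26) (nat_lit 6) [nat_lit 0x69db36b0c2,nat_lit 0x730041,nat_lit 0x3000600061,nat_lit 0x600061,
    nat_lit 0x180600062],.r (nat_lit 0x6ea) (nat_lit 15) [nat_lit 0x80200001,nat_lit 0x140500041,nat_lit 0x1148310c41,
    nat_lit 0x1906218861,nat_lit 0xc0000001,nat_lit 0x86218861],.r (nat_lit 466) (nat_lit 14) [nat_lit 0x80010001,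
    nat_lit 0x11c0500041,nat_lit 0xc0000001,nat_lit 0x140500041,nat_lit 0x104400061,nat_lit 0x1906218861],
    .c (nat_lit 0) (nat_lit 0x6501485),.c (nat_lit 0) (nat_lit 0x6519483),.c (nat_lit 0) (nat_lit 0x300c43),
    .r (nat_lit 0xb26) (nat_lit 6) [nat_lit 193,nat_lit 0x2088051481,nat_lit 0x10ca0290a1,nat_lit 0x28ca0290a1,
    nat_lit 0x1886018861],.c (nat_lit 0) (nat_lit 0x80210003),.c (nat_lit 0) (nat_lit 0x4010005),
    .c (nat_lit 0) (nat_lit 0xc6528c42),.r (nat_lit 0xdb4) (nat_lit 6) [nat_lit 0x4000001,nat_lit 0x1000010041],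
    .c (nat_lit 6) (nat_lit 0x4210003),.r (nat_lit 0xdbb) (nat_lit 6) [nat_lit 0x84200061,nat_lit 0x10001],
    .r (nat_lit 0xdbb) (nat_lit 6) [nat_lit 0x88200062,nat_lit 0x10001],.c (nat_lit 4) (nat_lit 2),
    .r (nat_lit 0xdbb) (nat_lit 1) [nat_lit 0x1008210c41,nat_lit 0x10001],.c (nat_lit 5) (nat_lit 0x1048210a2),
    .r (nat_lit 0xdbb) (nat_lit 1) [nat_lit 65,nat_lit 0x10001],.c (nat_lit 5) (nat_lit 0x80410862),
    .c (nat_lit 0) (nat_lit 0x318c43),.c (nat_lit 0) (nat_lit 0xc6529485),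
    .r (nat_lit 0xdbb) (nat_lit 6) [nat_lit 0x1088210c41,nat_lit 0x10001],.c (nat_lit 5) (nat_lit 2),
    .r (nat_lit 0xdbb) (nat_lit 6) [nat_lit 65,nat_lit 0x10001],.c (nat_lit 6) (nat_lit 2),
    .c (nat_lit 0) (nat_lit 0xc0318c43),.c (nat_lit 7) (nat_lit 2),.c (nat_lit 0) (nat_lit 0x80000002)]]

/-- nodes -/
noncomputable def rD8k_20_10 : List RJ :=
  [.l (nat_lit 14) (nat_lit 0xb40) (nat_lit 3) (nat_lit 0x5f4000005f40000060f0000060f000005ce000006080000058c000006b00000080c0000065c000005fd000005fd000005e8000005e8000005e2000005e8) (nat_lit 0x21800000218000001fd000001fd000002040000023e0000015c00000280000001b0000000000000020f0000020f0000022400000224000002240000022a)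
    (nat_lit 0x10603dc0fdc3f710803b60f6048811104e00dfc4750f2839a0f403c40f704180ff43f70fc03e0126035012002e4109c3a9101835e0f403ca0fdc3f70fa041210bc3cb1f0c38f126c60f11c83c40fac3a90ebc3af0ff43f710483e80f843d11ec437d14c46a510903ee0fac3eb0fac3cd0f803b60f443cb0f703900f7037810c02d00efc2ed0f083860ea83a40fc04200f8442f11003dc12b038812504980fe435110b03a20b403de0d404880df438f0e2037816802d0121058c0efc3410da03680ce031a12603d81ec47c312b03dc21c05a00f506b00dec4f50b5839616802d00b904e01a9460f12602d01ac058c18204f01bcc7291e7870e1aa0798120044414c449b12504300f504841250608105c44d10c83a20ea04980ea44750fb83c40d442ed13d4341113472912104060dcc40f0f643d9109c37f10904720fe43bf0dec3bf105c6f30ef84840f643d9103c3a30d7839a0fac3a90e883860e583680e8870e0f6440f0fd03f410a83be10183ca0fac3eb10b03c20b5836810c879e0f643730f103f40f283be0f283c40f343af0f783a40b4031a12607980e8c3d90ef83be0f103b80f403d00fac3af0b403aa16803380ea06a8103c3d90f2842a0f103c4)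
    (nat_lit 0x1060b402d00b402d00b402d00b402d00b402d00b402d00b402d00b400f704182d00b402d00b402d00b402d00b402d00b402d00b402d00b400fdc3fd0fa0b402d00b402d00b402d00b402d00b402d00b402d00b400fdc3f710483e82d00b402d00b402d00b402d00b402d00b402d00b4010803f010bc3e10f70b402d00b402d00b402d00b402d00b402d00b400ed83e00f2c3d10e403dc2d00b402d00b402d00b402d00b402d00b400f604981f0c7b10f704ac1680b402d00b402d00b402d00b402d00b4012203500e3c37d0de03880b405a02d00b402d00b402d00b402d00b401110480126c53110c049412103d41820b402d00b402d00b402d00b4013802e4183c6a50b4049816306b013c06082d00b402d00b402d00b400dfc42711c84240efc3f90efc37b198c4171210b402d00b402d00b4011d43a90f103ee0bb43510d044f5188444d10184842d00b402d00b400f284060fac3eb0f0842c0da02d61ab84320dcc3d90fd0b402d00b400e6835e0ea43eb0e183a20da039619c83a2103c3d90fd03f42d00b400f403d00ebc3eb0ea82d00ce05a016803a80f6440f10a83ca0f10b400f103ca0ebc3cd0e903de0c682d01aa04980f643a30ef83be0ee03c4)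
    (nat_lit 3) (nat_lit 83)
    [[nat_lit 2,nat_lit 0x10002,nat_lit 0x100002,nat_lit 17,nat_lit 0x10011,nat_lit 0x100011,nat_lit 0x10000011,
    nat_lit 257,nat_lit 0x10101,nat_lit 0x10000101,nat_lit 0x100101,nat_lit 0x101001,nat_lit 0x10001001,
    nat_lit 0x10001,nat_lit 0x110001,nat_lit 0x10010001,nat_lit 0x100001,nat_lit 0x1100001,nat_lit 0x200001,
    nat_lit 0x10100001,nat_lit 0x1000001,nat_lit 0x1010001,nat_lit 0x10000001],[nat_lit 32,nat_lit 0x10020,
    nat_lit 0x10000020,nat_lit 0x100020,nat_lit 272,nat_lit 0x10110,nat_lit 0x100110,nat_lit 0x10000110,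
    nat_lit 0x101010,nat_lit 0x10001010,nat_lit 0x10010,nat_lit 0x110010,nat_lit 0x10010010,nat_lit 0x20010,
    nat_lit 0x1010010,nat_lit 0x100010,nat_lit 0x1000010,nat_lit 0x10000010],[nat_lit 512,nat_lit 0x100200,
    nat_lit 0x101100,nat_lit 0x10100,nat_lit 0x110100,nat_lit 0x1010100,nat_lit 0x100100,nat_lit 0x200100,
    nat_lit 0x1000100,nat_lit 0x10000100,nat_lit 0x10001100,nat_lit 0x10100100],[nat_lit 0x2000,nat_lit 0x11000,
    nat_lit 0x111000,nat_lit 0x101000,nat_lit 0x10101000,nat_lit 0x10001000],[nat_lit 0x110000,nat_lit 0x10010000],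
    [nat_lit 0x200000,nat_lit 0x1100000,nat_lit 0x10100000],[nat_lit 0x2000000,nat_lit 0x11000000],
    [nat_lit 0x20000000]]
    [.c (nat_lit 1) (nat_lit 2),.r (nat_lit 0xdb3) (nat_lit 3) [nat_lit 0x400a33,nat_lit 0x82403],
    .r (nat_lit 0xdb3) (nat_lit 7) [nat_lit 0x410003,nat_lit 0x80633],.c (nat_lit 0) (nat_lit 0x487),
    .r (nat_lit 0xdb3) (nat_lit 3) [nat_lit 0x403633,nat_lit 0x82403],
    .r (nat_lit 0xdb3) (nat_lit 7) [nat_lit 0x410003,nat_lit 0x83033],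
    .r (nat_lit 0xdb2) (nat_lit 7) [nat_lit 0x410003,nat_lit 0x83033],.c (nat_lit 0) (nat_lit 0x2087),
    .r (nat_lit 0xdb3) (nat_lit 3) [nat_lit 0x418633,nat_lit 0x82403],
    .r (nat_lit 0xdb2) (nat_lit 7) [nat_lit 0x410003,nat_lit 0x98033],
    .r (nat_lit 0xdb3) (nat_lit 7) [nat_lit 0x410003,nat_lit 0x98033],.c (nat_lit 0) (nat_lit 0xc00c6),
    .c (nat_lit 0) (nat_lit 0xc00c6),.r (nat_lit 0xdb8) (nat_lit 5) [nat_lit 0x2633,nat_lit 0x410003],
    .r (nat_lit 0xdb2) (nat_lit 7) [nat_lit 0x410003,nat_lit 0x61b5bb],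
    .r (nat_lit 0xdb3) (nat_lit 7) [nat_lit 0x410003,nat_lit 0x61b5bb],
    .r (nat_lit 0xdbb) (nat_lit 0) [nat_lit 0x80633,nat_lit 0x402003],
    .r (nat_lit 0xdb3) (nat_lit 7) [nat_lit 0x410003,nat_lit 17],.r (nat_lit 0xdb3) (nat_lit 7) [nat_lit 0x410003,
    nat_lit 0x100436],.r (nat_lit 0xdb3) (nat_lit 3) [nat_lit 0xdb1bb,nat_lit 0x82403],
    .c (nat_lit 0) (nat_lit 0x10087),.r (nat_lit 0xdb3) (nat_lit 3) [nat_lit 0x4c0633,nat_lit 0x82403],
    .r (nat_lit 0xdbb) (nat_lit 8) [nat_lit 0x80633,nat_lit 0x402003],.c (nat_lit 2) (nat_lit 2),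
    .r (nat_lit 0xdb3) (nat_lit 3) [nat_lit 0x405033,nat_lit 0x82403],
    .r (nat_lit 0xdb2) (nat_lit 7) [nat_lit 0x410003,nat_lit 0x85433],
    .r (nat_lit 0xdb3) (nat_lit 7) [nat_lit 0x410003,nat_lit 0x85433],.c (nat_lit 0) (nat_lit 0x2407),
    .r (nat_lit 0xdb3) (nat_lit 3) [nat_lit 0x41b033,nat_lit 0x82403],
    .r (nat_lit 0xdb3) (nat_lit 7) [nat_lit 0x410003,nat_lit 0x9b433],
    .r (nat_lit 0xdb2) (nat_lit 7) [nat_lit 0x410003,nat_lit 0x9b433],.c (nat_lit 0) (nat_lit 0xc0606),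
    .c (nat_lit 0) (nat_lit 0xc0606),.r (nat_lit 0xdb8) (nat_lit 5) [nat_lit 17,nat_lit 0x410003],
    .r (nat_lit 0xdb2) (nat_lit 7) [nat_lit 0x410003,nat_lit 0x6181bb],
    .r (nat_lit 0xdb3) (nat_lit 7) [nat_lit 0x410003,nat_lit 0x6181bb],
    .r (nat_lit 0xdb3) (nat_lit 3) [nat_lit 0x803036,nat_lit 0x82403],
    .r (nat_lit 0xdb3) (nat_lit 3) [nat_lit 0x4c3033,nat_lit 0x82403],.r (nat_lit 0xdbb) (nat_lit 0) [nat_lit 0x83033,
    nat_lit 0x402003],.c (nat_lit 0) (nat_lit 0x10407),.r (nat_lit 0xdbb) (nat_lit 8) [nat_lit 0x83033,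
    nat_lit 0x402003],.c (nat_lit 3) (nat_lit 2),.r (nat_lit 0xdb3) (nat_lit 7) [nat_lit 0x410003,nat_lit 0xa8433],
    .c (nat_lit 0) (nat_lit 0xc3006),.r (nat_lit 0xdb8) (nat_lit 5) [nat_lit 0x1a033,nat_lit 0x410003],
    .r (nat_lit 0xdb2) (nat_lit 7) [nat_lit 0x410003,nat_lit 0x6031bb],
    .r (nat_lit 0xdb3) (nat_lit 3) [nat_lit 0x4d8033,nat_lit 0x82403],.r (nat_lit 0xdbb) (nat_lit 0) [nat_lit 0x98033,
    nat_lit 0x402003],.r (nat_lit 0xdb3) (nat_lit 7) [nat_lit 0x410003,nat_lit 0x118836],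
    .c (nat_lit 0) (nat_lit 0x12007),.r (nat_lit 0xdbb) (nat_lit 8) [nat_lit 0x98033,nat_lit 0x402003],
    .c (nat_lit 0) (nat_lit 0xc3006),.r (nat_lit 0xdb3) (nat_lit 3) [nat_lit 0xc37bb,nat_lit 0x82403],
    .c (nat_lit 4) (nat_lit 2),.r (nat_lit 0xdb3) (nat_lit 3) [nat_lit 17,nat_lit 0x82403],
    .r (nat_lit 0xdbb) (nat_lit 8) [nat_lit 0x1b7bb,nat_lit 0x402003],
    .r (nat_lit 0xdb3) (nat_lit 7) [nat_lit 0x410003,nat_lit 0x680433],
    .r (nat_lit 0xdb8) (nat_lit 5) [nat_lit 0xd87bb,nat_lit 0x410003],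
    .r (nat_lit 0xdb2) (nat_lit 7) [nat_lit 0x410003,nat_lit 0x680433],.c (nat_lit 0) (nat_lit 0xdb6f7),
    .c (nat_lit 0) (nat_lit 0xdb6f7),.c (nat_lit 6) (nat_lit 2),.r (nat_lit 0xdbb) (nat_lit 0) [nat_lit 17,
    nat_lit 0x402003],.c (nat_lit 0) (nat_lit 0xdb6f7),.c (nat_lit 7) (nat_lit 2),
    .r (nat_lit 0xdbb) (nat_lit 8) [nat_lit 17,nat_lit 0x402003],.c (nat_lit 8) (nat_lit 2)],
    .l (nat_lit 12) (nat_lit 720) (nat_lit 3) (nat_lit 0x148000001480000014900000149000001480000014800000149000001490000019a0000019a0000014b0000014b00000149000001490000014d0000014d) (nat_lit 0x520000005200000051000000510000005200000052000000510000005100000000000000000000004f0000004f00000051000000510000004d0000004d)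
    (nat_lit 0x1080fc0f70f70fc1080db0f714812a0f90f30e10f70fb0fb0fe1080f70f71080fe0d11031301460f90e10f70ed0fb0fb0f70f70f00f00eb0f70fa0e616116f1041120f80f80ea0fc0f70f70f40f00eb0f70fa0e616116f1041120f80f80ea0fc0fe1080f70f71080fa0d11031301460f90e10f70ed0fb0fb1080fc0eb0eb0fc10810d0f71400d80f90f90e10f50fb0fb1030f70e60e60f71031680f21491330fc1020f80f80f61120d10db0fa0fa10d0d11de1681151490d81060c80be11a0c414612a16f16f0d814614913318e0b418517f18116b16917d13014816116114013011514919a18e15114b16514f1531670e10f31121120f90e110610214b17f0f60fc0e00f40fe0e20f90f91041040f90f90d80fc1511850fc0f60fa0fa0fe0f40ed0f70f80f80f50ed0be0f814f16b0fa0f41020f80fc0fc0f70e10f80f80e10f70c80f81651810fa0e00f81020fc0fc0fb0fb0fc0fc0fb0fb0c411216717d0f40e20fc0fc1161000fb0fb0ea0ea0fb0fb11a0f61531690fe0fe0fc0fc0fa116)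
    (nat_lit 0x1082d02d02d02d02d02d02d02d02d02d02d02d02d02d02d00fc1082d02d02d02d02d02d02d02d02d02d02d02d02d02d00f70f70f02d02d02d02d02d02d02d02d02d02d02d02d02d00f70f70f00f02d02d02d02d02d02d02d02d02d02d02d02d00fc1080eb0eb1082d02d02d02d02d02d02d02d02d02d02d01080fe0f70f70fa1082d02d02d02d02d02d02d02d02d02d00db0d10fa0fa0d110d1682d02d02d02d02d02d02d02d02d00f71030e60e61030f70f21682d02d02d02d02d02d02d02d014813016116113014014911518e2d02d02d02d02d02d02d012a14616f16f1460d81331490b418e2d02d02d02d02d02d00f90f91041040f90f90fc0d81851510f62d02d02d02d02d00f30e11121120e10f910210617f14b0fc0f62d02d02d02d00e10f70f80f80f70e10f80c81811650e00fa1022d02d02d00f70ed0f80f80ed0f50f80be16b14f0f40fa0f81022d02d00fb0fb0ea0ea0fb0fb0f611a1691530fe0fe0fc0fc1162d00fb0fb0fc0fc0fb0fb1120c417d1670e20f40fc0fc100116)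
    (nat_lit 3) (nat_lit 49)
    [[nat_lit 2,nat_lit 17,nat_lit 0x10011,nat_lit 257,nat_lit 0x10101,nat_lit 0x10001,nat_lit 0x110001,
    nat_lit 0x10010001,nat_lit 0x100001,nat_lit 0x1000001,nat_lit 0x1010001,nat_lit 0x10000001],[nat_lit 32,
    nat_lit 0x10020,nat_lit 272,nat_lit 0x10110,nat_lit 0x100110,nat_lit 0x10000110,nat_lit 0x10010,nat_lit 0x110010,
    nat_lit 0x10010010,nat_lit 0x20010,nat_lit 0x1010010,nat_lit 0x100010,nat_lit 0x1000010,nat_lit 0x10000010],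
    [nat_lit 512,nat_lit 0x10100,nat_lit 0x110100,nat_lit 0x10010100,nat_lit 0x100100,nat_lit 0x1000100,
    nat_lit 0x10000100],[nat_lit 0x2000,nat_lit 0x11000,nat_lit 0x101000,nat_lit 0x10001000],[nat_lit 0x110000,
    nat_lit 0x1110000,nat_lit 0x1010000,nat_lit 0x10010000,nat_lit 0x10020000,nat_lit 0x11010000],[nat_lit 0x200000,
    nat_lit 0x1100000,nat_lit 0x10100000],[nat_lit 0x2000000,nat_lit 0x11000000],[nat_lit 0x20000000]]
    [.c (nat_lit 1) (nat_lit 2),.c (nat_lit 0) (nat_lit 0x487),.r (nat_lit 0xdb3) (nat_lit 3) [nat_lit 0x403633,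
    nat_lit 0x82403],.c (nat_lit 0) (nat_lit 0x2087),.r (nat_lit 0xdb3) (nat_lit 3) [nat_lit 0x418633,
    nat_lit 0x82403],.r (nat_lit 0xdb8) (nat_lit 5) [nat_lit 0x2633,nat_lit 0x410003],
    .r (nat_lit 0xdb2) (nat_lit 7) [nat_lit 0x410003,nat_lit 0x61b5bb],
    .r (nat_lit 0xdb3) (nat_lit 7) [nat_lit 0x410003,nat_lit 0x61b5bb],
    .r (nat_lit 0xdbb) (nat_lit 0) [nat_lit 0x80633,nat_lit 0x402003],.c (nat_lit 0) (nat_lit 0x10087),
    .r (nat_lit 0xdb3) (nat_lit 3) [nat_lit 0x4c0633,nat_lit 0x82403],.r (nat_lit 0xdbb) (nat_lit 8) [nat_lit 0x80633,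
    nat_lit 0x402003],.c (nat_lit 2) (nat_lit 2),.r (nat_lit 0xdb3) (nat_lit 3) [nat_lit 0x405033,nat_lit 0x82403],
    .c (nat_lit 0) (nat_lit 0x2407),.r (nat_lit 0xdb3) (nat_lit 3) [nat_lit 0x41b033,nat_lit 0x82403],
    .r (nat_lit 0xdb3) (nat_lit 7) [nat_lit 0x410003,nat_lit 0x9b433],
    .r (nat_lit 0xdb2) (nat_lit 7) [nat_lit 0x410003,nat_lit 0x9b433],.r (nat_lit 0xdb8) (nat_lit 5) [nat_lit 17,
    nat_lit 0x410003],.r (nat_lit 0xdb2) (nat_lit 7) [nat_lit 0x410003,nat_lit 0x6181bb],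
    .r (nat_lit 0xdb3) (nat_lit 7) [nat_lit 0x410003,nat_lit 0x6181bb],
    .r (nat_lit 0xdb3) (nat_lit 3) [nat_lit 0x803036,nat_lit 0x82403],
    .r (nat_lit 0xdb3) (nat_lit 3) [nat_lit 0x4c3033,nat_lit 0x82403],.r (nat_lit 0xdbb) (nat_lit 0) [nat_lit 0x83033,
    nat_lit 0x402003],.c (nat_lit 0) (nat_lit 0x10407),.r (nat_lit 0xdbb) (nat_lit 8) [nat_lit 0x83033,
    nat_lit 0x402003],.c (nat_lit 3) (nat_lit 2),.r (nat_lit 0xdb8) (nat_lit 5) [nat_lit 0x1a033,nat_lit 0x410003],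
    .r (nat_lit 0xdb2) (nat_lit 7) [nat_lit 0x410003,nat_lit 0x6031bb],
    .r (nat_lit 0xdb3) (nat_lit 7) [nat_lit 0x410003,nat_lit 0x6031bb],
    .r (nat_lit 0xdbb) (nat_lit 0) [nat_lit 0x98033,nat_lit 0x402003],.c (nat_lit 0) (nat_lit 0x12007),
    .r (nat_lit 0xdbb) (nat_lit 8) [nat_lit 0x98033,nat_lit 0x402003],.c (nat_lit 4) (nat_lit 2),
    .r (nat_lit 0xdb3) (nat_lit 3) [nat_lit 17,nat_lit 0x82403],.r (nat_lit 0xdb3) (nat_lit 7) [nat_lit 0x410003,
    nat_lit 0x680433],.r (nat_lit 0xdb2) (nat_lit 7) [nat_lit 0x410003,nat_lit 0x680433],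
    .c (nat_lit 0) (nat_lit 0xdb6f7),.r (nat_lit 0xdb2) (nat_lit 7) [nat_lit 0x410003,nat_lit 0x69b1bb],
    .r (nat_lit 0xdb8) (nat_lit 5) [nat_lit 0xc2033,nat_lit 0x410003],.c (nat_lit 0) (nat_lit 0xdb6f7),
    .r (nat_lit 0x1110) (nat_lit 11) [nat_lit 0x401,nat_lit 0x2001,nat_lit 0x10001,nat_lit 0x80001,nat_lit 0x400001],
    .r (nat_lit 0xdb3) (nat_lit 7) [nat_lit 0x410003,nat_lit 0x69b1bb],.c (nat_lit 6) (nat_lit 2),
    .r (nat_lit 0xdbb) (nat_lit 0) [nat_lit 17,nat_lit 0x402003],.c (nat_lit 0) (nat_lit 0xdb6f7),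
    .c (nat_lit 7) (nat_lit 2),.r (nat_lit 0xdbb) (nat_lit 8) [nat_lit 17,nat_lit 0x402003],
    .c (nat_lit 8) (nat_lit 2)],
    .l (nat_lit 14) (nat_lit 0xb40) (nat_lit 3) (nat_lit 0x6d4000005a0000005600000056000000558000005580000055b0000055b000005580000055800000558000005580000056b0000056b0000057800000612) (nat_lit 0x1340000000000000174000001740000017c0000017c00000179000001790000017c0000017c0000017c0000017c0000016900000169000000c20000015c)
    (nat_lit 0x16806d40cc05601560558156c33f1c786b80b4055815ac56b18482f011b05a0109042c109042c10a44271220422110841a10dc437137844410b05600f903ec0f903ec0fa43e70fb83e20f903800fdc3d9127840410903300fb03e40f903e40fcc4030f983e40f703e40d943f7127842010b05580f903ec0f003dc0f7c3df0f703d00f703da0f4c3f71b1848e10905580f903e40ed83c00f7c3df0f703e60f703dc0efc3ef1ac847a109c33f100c3e70f7c3df0f604080f7c3df0f7c3df0dd03f2126442f10a455b0fcc3e90f7c3df0f883d80f7c3df0f7c3df0fc83f40ce43ff10886b80f903e20f983d00f7c3df0f703dc0f683dc0fbc3ef12583fc122071e0f983ee0f703dc0f7c3df0e283dc0f703dc0fbc37512583fa10685580f903800f703da0f7c3df0f703dc115842e0fc43ef0b403fc11082d00f703e40f703dc0f7c3df0f703da0f704560fbc3ef12583fc10dc56b0fdc3d90fbc3f70fd03f20dd43ef0fbc3ef10084021cc440f10dc56b0d943f70efc3d30fc83740fbc3ef0fbc3f110084021cc440f11102f0108040411e848e0ffc42f0fe83fc0ff03fc103c40f12d841c1378612127849e1ac86c60ce4499125849612582d01cc473115404b6)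
    (nat_lit 0x1680b402d00b402d00b402d00b402d00b402d00b402d00b402d00b401b505a02d00b402d00b402d00b402d00b402d00b402d00b402d00b400cc04240f90b402d00b402d00b402d00b402d00b402d00b402d00b40158042c0fb03e42d00b402d00b402d00b402d00b402d00b402d00b4015604240f903e40f00b402d00b402d00b402d00b402d00b402d00b40156042c0fb03e40f703c02d00b402d00b402d00b402d00b402d00b40156c4290fa43f30f7c3df0f60b402d00b402d00b402d00b402d00b400cfc4270f9c4030f7c3df10203d82d00b402d00b402d00b402d00b401c784880fb83e60f703dc0f7c3df0f70b402d00b402d00b402d00b401ae04220f883e40f403e60f7c3df0f703dc2d00b402d00b402d00b400b404420f903dc0f703dc0f7c3df0f683dc1158b402d00b402d00b40156041a0e003e40f683dc0f7c3df0f703dc10b84562d00b402d00b4015ac4370fdc3650f4c3bf0dd03f20fbc3ef0fc43ef1008b402d00b4015ac4370f643f70fdc3ef0fc83f40fbc3750fbc3ef10084022d00b4016804de127849e1ab06ac126433912584960b404961afc6ad12d8b400bc04441010420123847a10bc3ff0ff03fa0ff03fc103c40f10704b6)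
    (nat_lit 4) (nat_lit 59)
    [[nat_lit 2,nat_lit 257,nat_lit 273,nat_lit 513,nat_lit 0x1101,nat_lit 0x10101,nat_lit 0x100101,nat_lit 0x1000101,
    nat_lit 0x10000101,nat_lit 0x1001,nat_lit 0x10001,nat_lit 0x10011,nat_lit 0x11001,nat_lit 0x10010001,
    nat_lit 0x1000001,nat_lit 0x10000001],[nat_lit 32,nat_lit 272,nat_lit 0x10000110,nat_lit 0x1010,nat_lit 0x10010,
    nat_lit 0x11010,nat_lit 0x100010,nat_lit 0x101010,nat_lit 0x1000010,nat_lit 0x1000110,nat_lit 0x1001010,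
    nat_lit 0x2000010,nat_lit 0x10000010],[nat_lit 512,nat_lit 0x1100,nat_lit 0x10100,nat_lit 0x10010100,
    nat_lit 0x100100,nat_lit 0x1000100,nat_lit 0x11000100,nat_lit 0x10000100,nat_lit 0x10001100,nat_lit 0x10100100],
    [nat_lit 0x2000,nat_lit 0x11000,nat_lit 0x101000,nat_lit 0x1001000],[nat_lit 0x20000,nat_lit 0x110000,
    nat_lit 0x1010000,nat_lit 0x10010000],[nat_lit 0x200000,nat_lit 0x1100000,nat_lit 0x10100000],[nat_lit 0x2000000,
    nat_lit 0x11000000],[]]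
    [.c (nat_lit 1) (nat_lit 2),.r (nat_lit 0xdb3) (nat_lit 11) [nat_lit 0x2200001,nat_lit 0x3003231],
    .c (nat_lit 0) (nat_lit 0x573004),.c (nat_lit 0) (nat_lit 0x33202),.c (nat_lit 3) (nat_lit 0x2046005),
    .r (nat_lit 0xdbb) (nat_lit 11) [nat_lit 0x2200001,nat_lit 0x3000231],.c (nat_lit 0) (nat_lit 0x2430454),
    .r (nat_lit 0xdbb) (nat_lit 11) [nat_lit 0x2200001,nat_lit 0x3003231],
    .r (nat_lit 0xdb3) (nat_lit 12) [nat_lit 0x2220031,nat_lit 0x35530402],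
    .r (nat_lit 0xdb5) (nat_lit 10) [nat_lit 0x35035402,nat_lit 0x24420052],
    .r (nat_lit 0xdb3) (nat_lit 11) [nat_lit 0x2200001,nat_lit 0x5333432],.c (nat_lit 0) (nat_lit 0x330002),
    .r (nat_lit 0xdb3) (nat_lit 12) [nat_lit 0x24424052,nat_lit 0x35530402],.c (nat_lit 1) (nat_lit 0x20302),
    .r (nat_lit 0xdb3) (nat_lit 11) [nat_lit 0x2200001,nat_lit 0x5335432],.r (nat_lit 0xdb2) (nat_lit 13) [nat_lit 33,
    nat_lit 0x20024002],.c (nat_lit 2) (nat_lit 2),.r (nat_lit 0xdb3) (nat_lit 12) [nat_lit 33,nat_lit 0x35530402],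
    .r (nat_lit 0xdb3) (nat_lit 11) [nat_lit 0x2200001,nat_lit 0x5333221],
    .r (nat_lit 0xdbb) (nat_lit 11) [nat_lit 0x2200001,nat_lit 0x39535442],.c (nat_lit 3) (nat_lit 0x302302),
    .r (nat_lit 0xdb3) (nat_lit 11) [nat_lit 0x2200001,nat_lit 0x39539442],.c (nat_lit 1) (nat_lit 0x3043545),
    .r (nat_lit 0xdb3) (nat_lit 11) [nat_lit 0x2200001,nat_lit 0x7535423],.c (nat_lit 3) (nat_lit 0x302002),
    .r (nat_lit 0xdb5) (nat_lit 10) [nat_lit 0x35035402,nat_lit 33],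
    .r (nat_lit 0xdb3) (nat_lit 11) [nat_lit 0x2200001,nat_lit 0x39535442],
    .r (nat_lit 0xdb2) (nat_lit 15) [nat_lit 0x2200001,nat_lit 0x39530442],.c (nat_lit 0) (nat_lit 0x200203),
    .c (nat_lit 3) (nat_lit 2),.c (nat_lit 0) (nat_lit 0x2002405),.c (nat_lit 0) (nat_lit 0x2002405),
    .r (nat_lit 0xdb3) (nat_lit 11) [nat_lit 0x2200001,nat_lit 0x3300231],
    .r (nat_lit 0xdb3) (nat_lit 12) [nat_lit 0x28424542,nat_lit 0x35530402],.c (nat_lit 0) (nat_lit 0x2002005),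
    .r (nat_lit 0xdb3) (nat_lit 11) [nat_lit 0x2200001,nat_lit 0x3303231],.c (nat_lit 0) (nat_lit 0x2003),
    .r (nat_lit 0xdb2) (nat_lit 15) [nat_lit 0x2200001,nat_lit 0x3300231],
    .r (nat_lit 0xdb3) (nat_lit 11) [nat_lit 0x2200001,nat_lit 0x20030042],.c (nat_lit 4) (nat_lit 2),
    .c (nat_lit 0) (nat_lit 0x2030405),.r (nat_lit 0xdbb) (nat_lit 11) [nat_lit 0x2200001,nat_lit 33],
    .c (nat_lit 0) (nat_lit 0x2030005),.c (nat_lit 5) (nat_lit 2),.c (nat_lit 3) (nat_lit 0x2446054),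
    .c (nat_lit 5) (nat_lit 514),.c (nat_lit 0) (nat_lit 0x30203),.c (nat_lit 6) (nat_lit 2),
    .c (nat_lit 3) (nat_lit 0x2446454),.c (nat_lit 0) (nat_lit 0x3553045),.c (nat_lit 7) (nat_lit 2),
    .c (nat_lit 0) (nat_lit 0x30003)]]

/-- nodes -/
noncomputable def rD8k_20_11 : List RJ :=
  [.l (nat_lit 13) (nat_lit 0x780) (nat_lit 4) (nat_lit 0x498000003180000033e0000033e00000318000004540000039100000391000003e600000380000003d0000003d0000003e8000003e80000038600000426) (nat_lit 0x180000000000000015a0000015a0000004400000180000001070000010700000118000000b2000000c8000000c8000000b0000000b00000007200000112)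
    (nat_lit 0x23210207c43e20c011907963d11c00e707e03d019e0f8084c3860ce119037c1be142067038e1cd0fc06004a025018a0bb04041820df0f883c01e019f06f863a2871130b583e427e1890a383001800df0f883c01e019f06f863a2831130b583e427a1890a383001800ce119037c1be144067038e1cd0fe06004a025018a0bb0404182142060067c33e2080a2069a34d1bc0e887e03d01060f607443420e68f445062871a6873451428a11a8b7c52a28d17089f4be64170e38f2c63a31d1a6871c51428a1178b7c4fe30b1708b846d218d0c00e705ac2d61d106005be2df1460cd063c3682140e006742d40fc0e0044c2261bc07f045e2351800a305702b82000d6061c27e1280f404f427e1e8094061628d15c0da05002701880c806bc18e1280fc03e41f21f809404fe29515c0c786102801900c806cc2f21760f8051c28e1ec0bb05c227d1ac0e006403201820ce06ac2d618a0cf06243121060c505c22e120010a06403101380c106ec2d60c10e183001801a1060831a41713f0b505e418e16b0b5878033c10110983001801d108086d25f31870ce86cc35e1bb0d588883c0)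
    (nat_lit 0x2321e00f007803c01e00f007803c01e00f007803c01e00f007802041190f007803c01e00f007803c01e00f007803c01e00f007801f106f83c07803c01e00f007803c01e00f007803c01e00f007801f106f83c01e03c01e00f007803c01e00f007803c01e00f007800c00a1067c33e1441e00f007803c01e00f007803c01e00f0078018e067037c1be0ce0a20f007803c01e00f007803c01e00f007801a3871c63a31d0e38d1c5147803c01e00f007803c01e00f007801a6873450e2830e68d3451428a3c01e00f007803c01e00f007801be07e044c2260fe0de046a22f1461e00f007803c01e00f0078018006005ac2d60c00c005be2df19a0a30f007803c01e00f007801e809403e41f21280f4052a27f18f0ae05007803c01e00f007801e809404fc27a1280f4051a30b1b40ae04e02803c01e00f0078019e0c5062431218a08305c22e11c610006203201821e00f007801f00bb051c28e1760f604fa2e11c00d6064032019c0c10f007801c108083001801010e0880636919d0c386bc3661ab0dd860078018106083001800c10c0880618d16a09f831c2f216b0b58600300)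
    (nat_lit 4) (nat_lit 139)
    [[nat_lit 0x1000002,nat_lit 17,nat_lit 0x100011,nat_lit 257,nat_lit 0x1000101,nat_lit 513,nat_lit 0x1001,
    nat_lit 0x11001,nat_lit 0x1001001,nat_lit 0x1010001,nat_lit 0x100001,nat_lit 0x110001,nat_lit 0x1100001,
    nat_lit 0x10100001,nat_lit 0x10100101,nat_lit 0x10110001,nat_lit 0x11100001,nat_lit 0x1000001,nat_lit 0x2000002,
    nat_lit 0x1000011,nat_lit 0x2000101,nat_lit 0x2000001,nat_lit 0x2010001,nat_lit 0x3000001,nat_lit 0x11000001,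
    nat_lit 0x10000001,nat_lit 0x10010001],[nat_lit 32,nat_lit 272,nat_lit 0x10010,nat_lit 0x100010,nat_lit 0x100110,
    nat_lit 0x101010,nat_lit 0x110010,nat_lit 0x1100010,nat_lit 0x1000010,nat_lit 0x10000010],[nat_lit 512,
    nat_lit 0x1000200,nat_lit 0x1100,nat_lit 0x10100,nat_lit 0x100100,nat_lit 0x10100100,nat_lit 0x1000100,
    nat_lit 0x2000100,nat_lit 0x10000100],[nat_lit 0x2000,nat_lit 0x11000,nat_lit 0x10111000,nat_lit 0x111000,
    nat_lit 0x101000,nat_lit 0x10101000,nat_lit 0x1001000,nat_lit 0x11101000,nat_lit 0x1101000,nat_lit 0x2001000,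
    nat_lit 0x10001000],[nat_lit 0x20000,nat_lit 0x110000,nat_lit 0x10110000,nat_lit 0x1010000,nat_lit 0x10010000],
    [nat_lit 0x200000,nat_lit 0x10200000,nat_lit 0x1100000,nat_lit 0x2100000,nat_lit 0x10100000,nat_lit 0x20200000,
    nat_lit 0x11100000,nat_lit 0x12100000],[nat_lit 0x2000000,nat_lit 0x3000000,nat_lit 0x11000000],
    [nat_lit 0x20000000]]
    [.r (nat_lit 0xade) (nat_lit 10) [nat_lit 0x64000031,nat_lit 0x220001,nat_lit 0x2001,nat_lit 0x2000021,
    nat_lit 0x5000021],.r (nat_lit 0xdb3) (nat_lit 1) [nat_lit 0x66220073,nat_lit 0x3000021],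
    .c (nat_lit 0) (nat_lit 0x6020276),.c (nat_lit 0) (nat_lit 0x7033067),
    .r (nat_lit 0xdb3) (nat_lit 1) [nat_lit 0x66202073,nat_lit 0x7023063],
    .r (nat_lit 0xdb3) (nat_lit 6) [nat_lit 0x63366d3,nat_lit 0x7023063],
    .r (nat_lit 0xdb7) (nat_lit 11) [nat_lit 0x22000001,nat_lit 0x3000021],.c (nat_lit 0) (nat_lit 0x7733006),
    .r (nat_lit 0xdb3) (nat_lit 6) [nat_lit 0x62336d3,nat_lit 0x7322063],.c (nat_lit 0) (nat_lit 0x3300002),
    .c (nat_lit 0) (nat_lit 0x7033367),.c (nat_lit 0) (nat_lit 0x3300002),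
    .r (nat_lit 0xdb3) (nat_lit 5) [nat_lit 0x60244763,nat_lit 0x20000001],
    .r (nat_lit 0xdb7) (nat_lit 11) [nat_lit 0x22000001,nat_lit 0x60422763],.c (nat_lit 0) (nat_lit 0x6022076),
    .c (nat_lit 0) (nat_lit 0x20276),.r (nat_lit 0xdb3) (nat_lit 6) [nat_lit 0x53333651,nat_lit 0x60244763],
    .r (nat_lit 0xdb4) (nat_lit 8) [nat_lit 33,nat_lit 0x66202073],.r (nat_lit 0x7a0) (nat_lit 8) [nat_lit 0x70333601,
    nat_lit 0x66000001,nat_lit 0x400072,nat_lit 0x2001,nat_lit 0x40062,nat_lit 0xd000072],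
    .r (nat_lit 0xadf) (nat_lit 8) [nat_lit 0xd7555c71,nat_lit 0xc6000071,nat_lit 0x440001,nat_lit 0x4001,
    nat_lit 0x6000061],.r (nat_lit 0xadf) (nat_lit 8) [nat_lit 0xd7573c71,nat_lit 0xc6032071,nat_lit 0x440001,
    nat_lit 0x4001,nat_lit 0x6023061],.r (nat_lit 0x9cb) (nat_lit 8) [nat_lit 0xdd555c71,nat_lit 0xcc000001,
    nat_lit 0x400071,nat_lit 0x4001,nat_lit 0x40061],.c (nat_lit 0) (nat_lit 0x3300002),
    .r (nat_lit 0x7a1) (nat_lit 10) [nat_lit 0x66000071,nat_lit 0x200001,nat_lit 0x2001,nat_lit 0x20001,nat_lit 97,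
    nat_lit 0x7000061],.c (nat_lit 1) (nat_lit 0x200002),.r (nat_lit 0xfa7) (nat_lit 0) [nat_lit 0x2001,
    nat_lit 0x22000031,nat_lit 0x220003,nat_lit 33,nat_lit 0x30001],.c (nat_lit 0) (nat_lit 0x3300002),
    .c (nat_lit 2) (nat_lit 2),.r (nat_lit 0xdb3) (nat_lit 5) [nat_lit 33,nat_lit 0x20000001],
    .r (nat_lit 0xdb7) (nat_lit 11) [nat_lit 0x22000001,nat_lit 0x60220073],.c (nat_lit 0) (nat_lit 0x7730367),
    .r (nat_lit 0xdb7) (nat_lit 11) [nat_lit 0x22000001,nat_lit 0x33000231],.c (nat_lit 0) (nat_lit 0x33006),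
    .r (nat_lit 0xfa7) (nat_lit 0) [nat_lit 0x2001,nat_lit 0x66202763,nat_lit 0x220003,nat_lit 0x303673,
    nat_lit 0x30001],.r (nat_lit 0xdb7) (nat_lit 6) [nat_lit 0x22000001,nat_lit 0x33000231],
    .r (nat_lit 0xdb3) (nat_lit 5) [nat_lit 0x24066,nat_lit 0x20000001],.c (nat_lit 0) (nat_lit 0x7730367),
    .c (nat_lit 3) (nat_lit 2),.r (nat_lit 0xdb3) (nat_lit 5) [nat_lit 0x23063,nat_lit 0x20000001],
    .c (nat_lit 0) (nat_lit 0x20207),.r (nat_lit 0xdb3) (nat_lit 6) [nat_lit 0xd73376c3,nat_lit 0x60024073],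
    .c (nat_lit 0) (nat_lit 0x7033067),.c (nat_lit 0) (nat_lit 0x7733067),.c (nat_lit 0) (nat_lit 0x3207),
    .r (nat_lit 0xdb3) (nat_lit 5) [nat_lit 0x42066,nat_lit 0x20000001],.c (nat_lit 0) (nat_lit 0x7733067),
    .c (nat_lit 4) (nat_lit 2),.r (nat_lit 0xdb3) (nat_lit 1) [nat_lit 33,nat_lit 0x60220073],
    .r (nat_lit 0x7a2) (nat_lit 10) [nat_lit 0x66022761,nat_lit 0x200001,nat_lit 0x2001,nat_lit 0x20001,
    nat_lit 0x33671,nat_lit 0x7033671],.r (nat_lit 0x7a3) (nat_lit 10) [nat_lit 0x66000001,nat_lit 0x7222761,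
    nat_lit 0x2001,nat_lit 0x6003671,nat_lit 0xd022761,nat_lit 0x6033671],
    .r (nat_lit 0xaf4) (nat_lit 8) [nat_lit 0x77533661,nat_lit 0xcc000001,nat_lit 0x66422761,nat_lit 0x4001,
    nat_lit 0x77023671],.c (nat_lit 2) (nat_lit 0x7702367),.c (nat_lit 0) (nat_lit 0x20007),
    .r (nat_lit 0xdb3) (nat_lit 5) [nat_lit 0x33000231,nat_lit 0x20000001],
    .r (nat_lit 0xdb3) (nat_lit 6) [nat_lit 0xc63227c3,nat_lit 0x33000231],
    .r (nat_lit 0xdb3) (nat_lit 5) [nat_lit 0x322063,nat_lit 0x20000001],.r (nat_lit 0xdbe) (nat_lit 13) [nat_lit 33,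
    nat_lit 0x22000001],.c (nat_lit 5) (nat_lit 2),.r (nat_lit 0xdb3) (nat_lit 6) [nat_lit 33,nat_lit 0x7322676],
    .r (nat_lit 0xdb3) (nat_lit 1) [nat_lit 0x66422763,nat_lit 0x7303673],.c (nat_lit 0) (nat_lit 0x2000003),
    .c (nat_lit 0) (nat_lit 0x2000003),.c (nat_lit 6) (nat_lit 2),.r (nat_lit 0xaf4) (nat_lit 8) [nat_lit 97,
    nat_lit 0xcc000001,nat_lit 0xcc844d61,nat_lit 0x4001,nat_lit 0xdd505c71],.c (nat_lit 0) (nat_lit 0x7733367),
    .r (nat_lit 0xc43) (nat_lit 4) [nat_lit 0xcc000001,nat_lit 0x40061,nat_lit 0x4001,nat_lit 0x400071,nat_lit 97],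
    .c (nat_lit 0) (nat_lit 0x7730367),.c (nat_lit 2) (nat_lit 0xdd505c7),.c (nat_lit 0) (nat_lit 0x7733367),
    .r (nat_lit 0xdb3) (nat_lit 5) [nat_lit 0x66244763,nat_lit 0x20000001],.c (nat_lit 7) (nat_lit 2),
    .r (nat_lit 0xdb3) (nat_lit 5) [nat_lit 0x22023,nat_lit 0x20000001],.c (nat_lit 0) (nat_lit 0x300003),
    .c (nat_lit 8) (nat_lit 2)],
    .l (nat_lit 13) (nat_lit 0x780) (nat_lit 4) (nat_lit 0x3c4000003c400000368000003d000000359000003590000033600000336000003280000032800000326000003260000032b0000032b000002a800000384) (nat_lit 0xc0000000c000000000000006800000077000000770000009a0000009a000000a8000000a8000000aa000000aa000000a5000000a50000004c00000128)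
    (nat_lit 0x1e00f2078835c1a595445f031018e0c186303001c091846f029c1dc0f005d835c11790d46541f418e080863434c18f8ffc6f02e81ae0d705003002138f247d03ec1470b003bc2be13b8b0c6282401760f107a02801db8d647283981940ca064c3261958cac3002a821a95446b23c91400b8857e261158894c55e2af15a0ad061a2311178d2c76e4271710a0057e2bf1588ac455e2af1590ad064e2370fa0c407303ec15f898453829c1470a3851828c1458a445d82101950be07283e815f8afc53029c1450a3851827414f8a446002141010c186502c0158894c51c28e14c0a104fc28213e8a0c61c1f218e0c7065028e1588ac451428e1400a6050c27e14689ec5ec2061a60c0064c2be1578abc4e828c13f0a0850827c13d89e45b41f418d0c6064c1de1578abc51828c14309f85182841478a043301fc1ff91846562c315a0ad052229113d8a0c50227914409d85c21f518f8e046562771590ad053e28b14689f451e27b1430a205be2031740a7055024011b88c442821010307c83f81f410187d43f41801bc0de03003141938c346002ec17b0c383302da16f8b846501fa)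
    (nat_lit 0x1e01e00f007803c01e00f007803c01e00f007803c01e00f007801e40f00f007803c01e00f007803c01e00f007803c01e00f007801e20bb05007803c01e00f007803c01e00f007803c01e00f007801ae0d706002803c01e00f007803c01e00f007803c01e00f007801a588bc84e3b71401e00f007803c01e00f007803c01e00f007802a890d47923591710a00f007803c01e00f007803c01e00f0078017c0ca87d039415f8afc5387803c01e00f007803c01e00f0078018807d07d83981308afc53829c3c01e00f007803c01e00f0078018e0c7051c3281588ac451c28a14c1e00f007803c01e00f0078018308085803281298ac451c28e1420a60f007803c01e00f0078018c0c683bc3261578abc51828c13f0a185087803c01e00f007801800d3057c3261578abc51827414109f84f82843c01e00f007801c08c7c4ee32b15a0ac851629f13e8a344f628f1441e00f007802308ffc58632b15a0ad052229114189ec4f228113b0a20f007801bc0de06281801868c9c5d83001870bd85b41981708b7c3f478014e0ba04802a811888dc4202140f908183e81fc0fa880c3001fa)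
    (nat_lit 4) (nat_lit 83)
    [[nat_lit 2,nat_lit 3,nat_lit 18,nat_lit 258,nat_lit 0x1002,nat_lit 0x10002,nat_lit 0x100002,nat_lit 0x1000002,
    nat_lit 0x1000102,nat_lit 17,nat_lit 33,nat_lit 273,nat_lit 0x1011,nat_lit 257,nat_lit 513,nat_lit 0x1101,
    nat_lit 0x10101,nat_lit 0x1000101,nat_lit 514,nat_lit 0x100101,nat_lit 0x1001,nat_lit 0x10001,nat_lit 0x11001,
    nat_lit 0x100001,nat_lit 0x1000001,nat_lit 0x1000011,nat_lit 0x1001001,nat_lit 0x1010001,nat_lit 0x2000001,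
    nat_lit 0x11000001,nat_lit 0x10000001],[nat_lit 32,nat_lit 272,nat_lit 0x1110,nat_lit 0x1010,nat_lit 0x10010,
    nat_lit 0x100010,nat_lit 0x1000010],[nat_lit 512,nat_lit 0x1100,nat_lit 0x10100,nat_lit 0x100100,
    nat_lit 0x1000100,nat_lit 0x10000100],[nat_lit 0x2000,nat_lit 0x11000,nat_lit 0x101000,nat_lit 0x1001000,
    nat_lit 0x10001000],[nat_lit 0x20000,nat_lit 0x110000,nat_lit 0x10010000],[nat_lit 0x200000],[nat_lit 0x2000000,
    nat_lit 0x11000000],[]]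
    [.c (nat_lit 1) (nat_lit 2),.r (nat_lit 0xd1f) (nat_lit 14) [nat_lit 0xc001,nat_lit 65,nat_lit 0xd0060041,
    nat_lit 0xc060001,nat_lit 0xc0c70051],.r (nat_lit 0xdb1) (nat_lit 10) [nat_lit 0x2001,nat_lit 0x200001,
    nat_lit 0x30003021,nat_lit 0x2000001],.c (nat_lit 0) (nat_lit 0x2303323),.c (nat_lit 0) (nat_lit 0x553543),
    .c (nat_lit 0) (nat_lit 0x2303323),.r (nat_lit 0xdb1) (nat_lit 10) [nat_lit 0x2001,nat_lit 0x200001,
    nat_lit 0x33000021,nat_lit 0x2000001],.r (nat_lit 0xf40) (nat_lit 9) [nat_lit 0x2003001,nat_lit 0x2001,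
    nat_lit 0x23233231,nat_lit 0x24001,nat_lit 0x22226321],.c (nat_lit 5) (nat_lit 0x2323323),
    .c (nat_lit 0) (nat_lit 0x2020203),.r (nat_lit 0xdb8) (nat_lit 6) [nat_lit 0x20204031,nat_lit 0x32005021],
    .c (nat_lit 2) (nat_lit 0x222432),.c (nat_lit 0) (nat_lit 0x330023),.c (nat_lit 0) (nat_lit 0x2333323),
    .c (nat_lit 0) (nat_lit 0x553543),.c (nat_lit 0) (nat_lit 0x330023),.c (nat_lit 0) (nat_lit 0x2303323),
    .r (nat_lit 0xdb8) (nat_lit 6) [nat_lit 0x3033231,nat_lit 0x4222321],.c (nat_lit 2) (nat_lit 0x444852),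
    .c (nat_lit 2) (nat_lit 0x22632),.c (nat_lit 0) (nat_lit 0x330323),.c (nat_lit 0) (nat_lit 0x2020203),
    .r (nat_lit 0xdb7) (nat_lit 13) [nat_lit 0x30300021,nat_lit 0x3231],.c (nat_lit 0) (nat_lit 0x2220003),
    .r (nat_lit 0xdb1) (nat_lit 10) [nat_lit 0x2001,nat_lit 0x200001,nat_lit 33,nat_lit 0x2000001],
    .c (nat_lit 5) (nat_lit 0x2040203),.r (nat_lit 0x10f8) (nat_lit 9) [nat_lit 0x2003001,nat_lit 0x2001,
    nat_lit 0x24001,nat_lit 0x3335201,nat_lit 0x2200321],.c (nat_lit 0) (nat_lit 0x30002),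
    .r (nat_lit 0xee3) (nat_lit 6) [nat_lit 0x22402301,nat_lit 0x33303201,nat_lit 0x44404521,nat_lit 0x46606721,
    nat_lit 0x55707631],.c (nat_lit 0) (nat_lit 0x2000002),.c (nat_lit 0) (nat_lit 0x333323),
    .c (nat_lit 2) (nat_lit 2),.c (nat_lit 0) (nat_lit 0x330023),.c (nat_lit 0) (nat_lit 0x330023),
    .c (nat_lit 0) (nat_lit 0x2403),.c (nat_lit 0) (nat_lit 0x2020203),.c (nat_lit 2) (nat_lit 0x300202),
    .r (nat_lit 0xdb8) (nat_lit 6) [nat_lit 0x202031,nat_lit 0x2003021],.c (nat_lit 3) (nat_lit 2),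
    .c (nat_lit 0) (nat_lit 0x330323),.c (nat_lit 0) (nat_lit 0x2303323),.c (nat_lit 0) (nat_lit 0x30323),
    .c (nat_lit 2) (nat_lit 0x2222632),.c (nat_lit 0) (nat_lit 0x333323),.c (nat_lit 4) (nat_lit 2),
    .r (nat_lit 0xdbb) (nat_lit 1) [nat_lit 33,nat_lit 0x2001],.c (nat_lit 0) (nat_lit 0x402005),
    .c (nat_lit 0) (nat_lit 0x3330323),.r (nat_lit 0xdb7) (nat_lit 13) [nat_lit 33,nat_lit 0x30303231],
    .c (nat_lit 5) (nat_lit 2),.c (nat_lit 0) (nat_lit 0x2220003),.r (nat_lit 0xdb8) (nat_lit 6) [nat_lit 33,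
    nat_lit 0x2200031],.c (nat_lit 6) (nat_lit 2),.c (nat_lit 7) (nat_lit 2),.c (nat_lit 0) (nat_lit 0x2000002)]]

/-- nodes -/
noncomputable def rD8k_20_12 : List RJ :=
  [.l (nat_lit 11) (nat_lit 480) (nat_lit 3) (nat_lit 0x10b0000010b0000010900000109000001020000010c00000107000001070000010c000000fc000001040000011000000168000001040000010900000109) (nat_lit 0x5d0000005d0000005f0000005f0000005c0000006600000061000000610000006c0000005c000000580000006400000064000000000000005f0000005f)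
    (nat_lit 0x1702e0570ac136294550aa12226c408a714e204560ae1702e0560ac15e294550aa13e2bc4d8a714e204560921582b0550a015a28c540a813a2b49d8a517e484500aa1582b84b0aa15a28c5409813a2b49d8a517e4845509614a294518a316c2c0508a112c2984909e1641e05088915e26c568ad16c2d8558ab14c2d8510a81701e0568891542a84c0a8156284500a01362aca189d18e4645e0981542a8540a8156284530a01362aca189d18e4645e0a815e26c568ad16c298558ab14c2c0510a81501e05688913e2444e89d14c2584d89b12c298520981303f04e89d14e29c528a51502784e89d1302a05609a140410598a51362049d93b144248a19431482885c0ac0f04409d92d102204909210f01e08c9191f81e0881041105a09d93d14e29c5f8bf1702c8638c71302a03c0a0140220518a51242b84b0aa1122245409813a224968a514a4f4550aa1582b0550a015a2845e0bc13a2b49d8b31464ec500aa)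
    (nat_lit 0x170780f01e03c0780f01e03c0780f01e03c0780f01e01702e0f01e03c0780f01e03c0780f01e03c0780f01e015c2b0551e03c0780f01e03c0780f01e03c0780f01e01582b0500aa3c0780f01e03c0780f01e03c0780f01e01362bc568ad16c780f01e03c0780f01e03c0780f01e014a294518a31602d8f01e03c0780f01e03c0780f01e01542a8540a81422ac501e03c0780f01e03c0780f01e01542a8540981422ac500a03c0780f01e03c0780f01e012227c4e89d12c2984d89b14c780f01e03c0780f01e01362bc568ad14c2d8558ab160298f01e03c0780f01e010226c9692d1242889592b144290561e03c0780f01e014e29c528a513c2a04e89d1502604d0ac3c0780f01e014e29c5f8bf1642e0638c715026050078110780f01e01022048a9150f01e0899130f03f0821021e0220f01e01582b0500aa1422b45e0bc15a2745992d22a28c551e015c248550961122244c0a811227452913202294550aa)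
    (nat_lit 4) (nat_lit 83)
    [[nat_lit 2,nat_lit 0x1002,nat_lit 0x100002,nat_lit 0x1011,nat_lit 0x100011,nat_lit 0x10000011,nat_lit 0x100101,
    nat_lit 0x10000101,nat_lit 0x1001,nat_lit 0x2001,nat_lit 0x101001,nat_lit 0x10001001,nat_lit 0x10001,
    nat_lit 0x100001,nat_lit 0x10100001,nat_lit 0x1000001,nat_lit 0x1001001,nat_lit 0x1100001,nat_lit 0x10000001],
    [nat_lit 32,nat_lit 48,nat_lit 0x1020,nat_lit 0x100020,nat_lit 0x10000020,nat_lit 272,nat_lit 0x1110,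
    nat_lit 0x100110,nat_lit 0x10000110,nat_lit 0x1010,nat_lit 0x2010,nat_lit 0x101010,nat_lit 0x10001010,
    nat_lit 0x11010,nat_lit 0x100010,nat_lit 0x10100010,nat_lit 0x1001010,nat_lit 0x1100010,nat_lit 0x10000010],
    [nat_lit 512,nat_lit 0x10000200,nat_lit 0x1100,nat_lit 0x11100,nat_lit 0x10001100,nat_lit 0x100100,
    nat_lit 0x100200,nat_lit 0x110100,nat_lit 0x10100100,nat_lit 0x10000100,nat_lit 0x10010100,nat_lit 0x11000100],
    [nat_lit 0x2000,nat_lit 0x11000,nat_lit 0x101000,nat_lit 0x1001000,nat_lit 0x10001000],[nat_lit 0x20000,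
    nat_lit 0x110000,nat_lit 0x1010000,nat_lit 0x10010000],[nat_lit 0x200000,nat_lit 0x1100000,nat_lit 0x10100000],
    [nat_lit 0x2000000,nat_lit 0x11000000],[nat_lit 0x20000000]]
    [.c (nat_lit 1) (nat_lit 2),.r (nat_lit 0xdb3) (nat_lit 15) [nat_lit 0x2002003,nat_lit 0x225063],
    .r (nat_lit 0xdb2) (nat_lit 15) [nat_lit 0x2002003,nat_lit 0x225063],.c (nat_lit 0) (nat_lit 0x300306),
    .c (nat_lit 0) (nat_lit 0x300306),.c (nat_lit 0) (nat_lit 0x300306),.c (nat_lit 0) (nat_lit 0x3000306),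
    .c (nat_lit 0) (nat_lit 0x3000306),.c (nat_lit 0) (nat_lit 0x3333067),
    .r (nat_lit 0xdb3) (nat_lit 15) [nat_lit 0x2002003,nat_lit 0x443066],.c (nat_lit 0) (nat_lit 0x3333067),
    .c (nat_lit 0) (nat_lit 0x3333067),.c (nat_lit 0) (nat_lit 0x2207),.c (nat_lit 0) (nat_lit 0x3333067),
    .c (nat_lit 0) (nat_lit 0x3333067),.c (nat_lit 0) (nat_lit 0x20207),
    .r (nat_lit 0xdb3) (nat_lit 15) [nat_lit 0x2002003,nat_lit 0x23063],
    .r (nat_lit 0xdb2) (nat_lit 15) [nat_lit 0x2002003,nat_lit 0x23063],.c (nat_lit 0) (nat_lit 0x3333067),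
    .c (nat_lit 2) (nat_lit 2),.c (nat_lit 0) (nat_lit 0x300002),.c (nat_lit 0) (nat_lit 0x500006),
    .c (nat_lit 0) (nat_lit 0x500006),.c (nat_lit 0) (nat_lit 0x500006),.c (nat_lit 0) (nat_lit 0x3300006),
    .c (nat_lit 0) (nat_lit 0x3300006),.c (nat_lit 0) (nat_lit 0x3300006),.c (nat_lit 0) (nat_lit 0x3300006),
    .r (nat_lit 0xdb3) (nat_lit 15) [nat_lit 0x2002003,nat_lit 0x3220063],
    .r (nat_lit 0x7e1) (nat_lit 3) [nat_lit 0x20000001,nat_lit 0x2000001,nat_lit 0x2001,nat_lit 0x53555c72,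
    nat_lit 0x200001,nat_lit 0x20001],.r (nat_lit 0xdb8) (nat_lit 13) [nat_lit 0x333673,nat_lit 0x2002003],
    .r (nat_lit 0xdb2) (nat_lit 15) [nat_lit 0x2002003,nat_lit 0x30003673],.c (nat_lit 0) (nat_lit 0x303006),
    .r (nat_lit 0xdb2) (nat_lit 15) [nat_lit 0x2002003,nat_lit 0x3220063],
    .r (nat_lit 0xdb3) (nat_lit 15) [nat_lit 0x2002003,nat_lit 0x30003673],.c (nat_lit 0) (nat_lit 0x330006),
    .c (nat_lit 0) (nat_lit 0x330006),.r (nat_lit 0xdb8) (nat_lit 13) [nat_lit 0x23000063,nat_lit 0x2002003],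
    .c (nat_lit 3) (nat_lit 2),.c (nat_lit 0) (nat_lit 0x5000006),.r (nat_lit 0xdb3) (nat_lit 15) [nat_lit 0x2002003,
    nat_lit 0x30220063],.c (nat_lit 0) (nat_lit 0x3003006),.r (nat_lit 0xdb2) (nat_lit 15) [nat_lit 0x2002003,
    nat_lit 0x3003673],.r (nat_lit 0xdb2) (nat_lit 15) [nat_lit 0x2002003,nat_lit 0x30220063],
    .c (nat_lit 0) (nat_lit 0x5000006),.c (nat_lit 0) (nat_lit 0x3003006),
    .r (nat_lit 0xdb3) (nat_lit 15) [nat_lit 0x2002003,nat_lit 0x3003673],.r (nat_lit 0xdb8) (nat_lit 13) [nat_lit 33,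
    nat_lit 0x2002003],.c (nat_lit 0) (nat_lit 0x3003006),.c (nat_lit 0) (nat_lit 0x3030006),
    .c (nat_lit 4) (nat_lit 2),.c (nat_lit 0) (nat_lit 0x3330367),.c (nat_lit 0) (nat_lit 0x3333367),
    .c (nat_lit 0) (nat_lit 0x3303367),.c (nat_lit 0) (nat_lit 0x3333367),.c (nat_lit 5) (nat_lit 2),
    .c (nat_lit 0) (nat_lit 0x3330367),.c (nat_lit 0) (nat_lit 0x22007),.c (nat_lit 0) (nat_lit 0x3330367),
    .c (nat_lit 6) (nat_lit 2),.c (nat_lit 0) (nat_lit 0x3303367),.c (nat_lit 0) (nat_lit 0x3333367),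
    .c (nat_lit 7) (nat_lit 2),.c (nat_lit 0) (nat_lit 0x3303367),.c (nat_lit 8) (nat_lit 2)]]

/-- nodes -/
noncomputable def rD8k_20_13 : List RJ :=
  [.s (nat_lit 17) (nat_lit 0x6900) (nat_lit 5) (nat_lit 0x310300003103000029070000289700002a7300002a7300002c25000029bd00002c2500002efd00003627000036270000311100003111000030d9000030d9) (nat_lit 0x5240000052400000d9000000d2000000bb400000bb400000c6a00000a020000072a00000a02000000000000000000000516000005160000054e0000054e)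
    (nat_lit 0x15ef8af7c3e9623e312a789d1c493227011ed289c04620631031a3a8afb4576a27e115ef8af7c40c623e312a78953c449a270120ae8aae44136287b1e388cfa4576a1c9d11f188f8c36ee1be70ea98818c31ca1f051532885444216118319848d16447721335103187d2c360e1b770e718738c385a1ee911c087f94512e2897119688e0442a2234912a789d1c39c620630f3587afc3972207111a4881c454e6285f12ae89574529a257912a78953c39c61d530f5f879ac3b6a20710e5c881c47ffe3deb12ae84fe44a4a2525138089c043dd21f051038881c43f76222308c1889dc7b1232b513878460c4dae26d7112689264385a18e50eda872e43aa61fbb114987eec6ca22b7d12538929c48de246f155c89c043fca21511038881c43f762277119d8888c584a2c251387869ec4dae26d720ae8f69447022a650e5c88d244526118313e988cec5dfa2efd119d8a79c535e29af143d8c40c512e11831ef58a17c56fa32b5177e8b0946c4e362718888c4443a1a3785104d8c40c512e210b1fff8a9cc6ca23d89177e8b0946c4e362718888c44461b24b5119f48afb44702345909fc89574494e118314f3869ec6222311108c18afec57862bc31e388d1d4465a330912ae89574494e270f119d89c3c6222311115fd8460c5f2e2bc30e4e89f84469213351292895e448de26d714d789b5c96a2378515e18af0c46062b8b15da8aed442a223b912928a53448de26d714d789b5c61b21d0d17cb8af0c57162303)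
    (nat_lit 0x15ef9a400d200690034801a400d200690034801a400d200690034801a400d200690015ef8af7cd200690034801a400d200690034801a400d200690034801a400d20069000fa58818c36ee690034801a400d200690034801a400d200690034801a400d200690011f188f8c37ce1b7734801a400d200690034801a400d200690034801a400d200690012a78953c3aa61ce30f359a400d200690034801a400d200690034801a400d200690013a38953c40c61ce30f5f879acd200690034801a400d200690034801a400d2006900124c8893431ca1c2d0e5c876d43f76690034801a400d200690034801a400d2006900138089c043e0a1ee91038881c444461fbb34801a400d200690034801a400d20069001b0e0cf4054ca238111a4872e423062293119d9a400d200690034801a400d200690013808aae442a21fe51038881c444ee1fbb111188cecd200690034801a400d200690018818826c4216289715398f7b87b12365116128bbf46c4e690034801a400d200690018670a1ec23062897142f8b99860d82b7d16128bbf46c4e362734801a400d20069001a3a8f1c46612232d12ae895744e1e24a7138788cec6222311108c19a400d200690015f68cf4054d0238112ae84fe4230624a70d3d8a79c6222311115fd8460cd200690015da8aed44772215114a6894944dae246f136b8a6bc3a1a30d915e18be5c4606690013f087274266a234912bc894944dae246f136b8a6bc69983bcc15e18af0c57162303)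
    (nat_lit 5) (nat_lit 147)
    [[nat_lit 0,nat_lit 3,nat_lit 8,nat_lit 12],[nat_lit 0,nat_lit 4],[nat_lit 0,nat_lit 5],[nat_lit 0,nat_lit 6,
    nat_lit 8,nat_lit 12],[nat_lit 0,nat_lit 6,nat_lit 8,nat_lit 13],[nat_lit 0,nat_lit 8,nat_lit 12,nat_lit 2],
    [nat_lit 0,nat_lit 8,nat_lit 14],[nat_lit 0,nat_lit 8,nat_lit 15],[nat_lit 0,nat_lit 9,nat_lit 2,nat_lit 13],
    [nat_lit 0,nat_lit 9,nat_lit 6,nat_lit 13],[nat_lit 0,nat_lit 9,nat_lit 7,nat_lit 12],[nat_lit 0,nat_lit 9,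
    nat_lit 14],[nat_lit 0,nat_lit 13,nat_lit 9,nat_lit 7],[nat_lit 0,nat_lit 14,nat_lit 8],[nat_lit 0,nat_lit 14,
    nat_lit 9],[nat_lit 0,nat_lit 15,nat_lit 9],[nat_lit 1,nat_lit 3,nat_lit 13,nat_lit 9],[nat_lit 1,nat_lit 4],
    [nat_lit 1,nat_lit 5],[nat_lit 1,nat_lit 6,nat_lit 8,nat_lit 12],[nat_lit 1,nat_lit 8,nat_lit 14],[nat_lit 1,
    nat_lit 8,nat_lit 15],[nat_lit 1,nat_lit 9,nat_lit 15],[nat_lit 1,nat_lit 12,nat_lit 3,nat_lit 8],[nat_lit 1,
    nat_lit 12,nat_lit 7,nat_lit 8],[nat_lit 1,nat_lit 12,nat_lit 9,nat_lit 7],[nat_lit 1,nat_lit 13,nat_lit 6,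
    nat_lit 8],[nat_lit 1,nat_lit 13,nat_lit 9,nat_lit 2],[nat_lit 1,nat_lit 13,nat_lit 9,nat_lit 7],[nat_lit 1,
    nat_lit 14,nat_lit 9],[nat_lit 1,nat_lit 15,nat_lit 8],[nat_lit 1,nat_lit 15,nat_lit 9],[nat_lit 2,nat_lit 2,
    nat_lit 12],[nat_lit 2,nat_lit 6,nat_lit 12],[nat_lit 2,nat_lit 7,nat_lit 12],[nat_lit 2,nat_lit 7,nat_lit 13],
    [nat_lit 2,nat_lit 8,nat_lit 10,nat_lit 12],[nat_lit 2,nat_lit 12,nat_lit 2],[nat_lit 2,nat_lit 12,nat_lit 7],
    [nat_lit 2,nat_lit 13,nat_lit 7],[nat_lit 2,nat_lit 13,nat_lit 9,nat_lit 10],[nat_lit 2,nat_lit 14],[nat_lit 2,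
    nat_lit 15],[nat_lit 3,nat_lit 3,nat_lit 13],[nat_lit 3,nat_lit 6,nat_lit 12],[nat_lit 3,nat_lit 6,nat_lit 13],
    [nat_lit 3,nat_lit 11,nat_lit 8,nat_lit 12],[nat_lit 3,nat_lit 12,nat_lit 6],[nat_lit 3,nat_lit 13,nat_lit 3],
    [nat_lit 3,nat_lit 13,nat_lit 6],[nat_lit 3,nat_lit 13,nat_lit 7],[nat_lit 3,nat_lit 13,nat_lit 11,nat_lit 9],
    [nat_lit 3,nat_lit 14],[nat_lit 3,nat_lit 15],[nat_lit 4,nat_lit 10],[nat_lit 4,nat_lit 11],[nat_lit 5,
    nat_lit 10],[nat_lit 5,nat_lit 11],[nat_lit 6,nat_lit 6,nat_lit 13],[nat_lit 6,nat_lit 8,nat_lit 10,nat_lit 13],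
    [nat_lit 6,nat_lit 8,nat_lit 12,nat_lit 10],[nat_lit 6,nat_lit 8,nat_lit 12,nat_lit 11],[nat_lit 6,nat_lit 10,
    nat_lit 12,nat_lit 8],[nat_lit 6,nat_lit 13,nat_lit 6],[nat_lit 6,nat_lit 14],[nat_lit 6,nat_lit 15],[nat_lit 7,
    nat_lit 7,nat_lit 12],[nat_lit 7,nat_lit 9,nat_lit 13,nat_lit 11],[nat_lit 7,nat_lit 10,nat_lit 13,nat_lit 9],
    [nat_lit 7,nat_lit 11,nat_lit 13,nat_lit 9],[nat_lit 7,nat_lit 12,nat_lit 7],[nat_lit 7,nat_lit 12,nat_lit 11,
    nat_lit 9],[nat_lit 7,nat_lit 14],[nat_lit 7,nat_lit 15],[nat_lit 8,nat_lit 10,nat_lit 14],[nat_lit 8,nat_lit 11,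
    nat_lit 14],[nat_lit 8,nat_lit 11,nat_lit 15],[nat_lit 8,nat_lit 14,nat_lit 10],[nat_lit 8,nat_lit 15,nat_lit 10],
    [nat_lit 8,nat_lit 15,nat_lit 11],[nat_lit 9,nat_lit 10,nat_lit 14],[nat_lit 9,nat_lit 11,nat_lit 14],[nat_lit 9,
    nat_lit 11,nat_lit 15],[nat_lit 9,nat_lit 14,nat_lit 10],[nat_lit 9,nat_lit 15,nat_lit 10],[nat_lit 9,nat_lit 15,
    nat_lit 11]]
    [nat_lit 0x1038c,nat_lit 260,nat_lit 261,nat_lit 0x1068c,nat_lit 0x1068d,nat_lit 0x108c2,nat_lit 0x108e,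
    nat_lit 0x108f,nat_lit 0x1092d,nat_lit 0x1096d,nat_lit 0x1097c,nat_lit 0x109e,nat_lit 0x10d97,nat_lit 0x10e8,
    nat_lit 0x10e9,nat_lit 0x10f9,nat_lit 0x113d9,nat_lit 276,nat_lit 277,nat_lit 0x1168c,nat_lit 0x118e,
    nat_lit 0x118f,nat_lit 0x119f,nat_lit 0x11c38,nat_lit 0x11c78,nat_lit 0x11c97,nat_lit 0x11d68,nat_lit 0x11d92,
    nat_lit 0x11d97,nat_lit 0x11e9,nat_lit 0x11f8,nat_lit 0x11f9,nat_lit 0x122c,nat_lit 0x126c,nat_lit 0x127c,
    nat_lit 0x127d,nat_lit 0x128ac,nat_lit 0x12c2,nat_lit 0x12c7,nat_lit 0x12d7,nat_lit 0x12d9a,nat_lit 302,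
    nat_lit 303,nat_lit 0x133d,nat_lit 0x136c,nat_lit 0x136d,nat_lit 0x13b8c,nat_lit 0x13c6,nat_lit 0x13d3,
    nat_lit 0x13d6,nat_lit 0x13d7,nat_lit 0x13db9,nat_lit 318,nat_lit 319,nat_lit 330,nat_lit 331,nat_lit 346,
    nat_lit 347,nat_lit 0x166d,nat_lit 0x168ad,nat_lit 0x168ca,nat_lit 0x168cb,nat_lit 0x16ac8,nat_lit 0x16d6,
    nat_lit 366,nat_lit 367,nat_lit 0x177c,nat_lit 0x179db,nat_lit 0x17ad9,nat_lit 0x17bd9,nat_lit 0x17c7,
    nat_lit 0x17cb9,nat_lit 382,nat_lit 383,nat_lit 0x18ae,nat_lit 0x18be,nat_lit 0x18bf,nat_lit 0x18ea,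
    nat_lit 0x18fa,nat_lit 0x18fb,nat_lit 0x19ae,nat_lit 0x19be,nat_lit 0x19bf,nat_lit 0x19ea,nat_lit 0x19fa,
    nat_lit 0x19fb]
    [[[nat_lit 0,nat_lit 3,nat_lit 8,nat_lit 12],[nat_lit 0,nat_lit 4],[nat_lit 0,nat_lit 5],[nat_lit 0,nat_lit 6,
    nat_lit 8,nat_lit 12],[nat_lit 0,nat_lit 6,nat_lit 8,nat_lit 13],[nat_lit 0,nat_lit 8,nat_lit 12,nat_lit 2],
    [nat_lit 0,nat_lit 8,nat_lit 14],[nat_lit 0,nat_lit 8,nat_lit 15],[nat_lit 0,nat_lit 9,nat_lit 2,nat_lit 13],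
    [nat_lit 0,nat_lit 9,nat_lit 6,nat_lit 13],[nat_lit 0,nat_lit 9,nat_lit 7,nat_lit 12],[nat_lit 0,nat_lit 9,
    nat_lit 14]],[[nat_lit 0,nat_lit 13,nat_lit 9,nat_lit 7],[nat_lit 0,nat_lit 14,nat_lit 8],[nat_lit 0,nat_lit 14,
    nat_lit 9],[nat_lit 0,nat_lit 15,nat_lit 9],[nat_lit 1,nat_lit 3,nat_lit 13,nat_lit 9],[nat_lit 1,nat_lit 4],
    [nat_lit 1,nat_lit 5],[nat_lit 1,nat_lit 6,nat_lit 8,nat_lit 12],[nat_lit 1,nat_lit 8,nat_lit 14],[nat_lit 1,
    nat_lit 8,nat_lit 15],[nat_lit 1,nat_lit 9,nat_lit 15],[nat_lit 1,nat_lit 12,nat_lit 3,nat_lit 8]],[[nat_lit 1,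
    nat_lit 12,nat_lit 7,nat_lit 8],[nat_lit 1,nat_lit 12,nat_lit 9,nat_lit 7],[nat_lit 1,nat_lit 13,nat_lit 6,
    nat_lit 8],[nat_lit 1,nat_lit 13,nat_lit 9,nat_lit 2],[nat_lit 1,nat_lit 13,nat_lit 9,nat_lit 7],[nat_lit 1,
    nat_lit 14,nat_lit 9],[nat_lit 1,nat_lit 15,nat_lit 8],[nat_lit 1,nat_lit 15,nat_lit 9],[nat_lit 2,nat_lit 0,
    nat_lit 8,nat_lit 12],[nat_lit 2,nat_lit 1,nat_lit 13,nat_lit 9],[nat_lit 2,nat_lit 2,nat_lit 12],[nat_lit 2,
    nat_lit 6,nat_lit 12]],[[nat_lit 2,nat_lit 7,nat_lit 12],[nat_lit 2,nat_lit 7,nat_lit 13],[nat_lit 2,nat_lit 8,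
    nat_lit 10,nat_lit 12],[nat_lit 2,nat_lit 12,nat_lit 2],[nat_lit 2,nat_lit 12,nat_lit 7],[nat_lit 2,nat_lit 13,
    nat_lit 0,nat_lit 9],[nat_lit 2,nat_lit 13,nat_lit 7],[nat_lit 2,nat_lit 13,nat_lit 9,nat_lit 10],[nat_lit 2,
    nat_lit 14],[nat_lit 2,nat_lit 15],[nat_lit 3,nat_lit 3,nat_lit 13],[nat_lit 3,nat_lit 6,nat_lit 12]],[[nat_lit 3,
    nat_lit 6,nat_lit 13],[nat_lit 3,nat_lit 8,nat_lit 1,nat_lit 12],[nat_lit 3,nat_lit 8,nat_lit 12,nat_lit 0],
    [nat_lit 3,nat_lit 11,nat_lit 8,nat_lit 12],[nat_lit 3,nat_lit 12,nat_lit 6],[nat_lit 3,nat_lit 13,nat_lit 3],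
    [nat_lit 3,nat_lit 13,nat_lit 6],[nat_lit 3,nat_lit 13,nat_lit 7],[nat_lit 3,nat_lit 13,nat_lit 9,nat_lit 1],
    [nat_lit 3,nat_lit 13,nat_lit 11,nat_lit 9],[nat_lit 3,nat_lit 14],[nat_lit 3,nat_lit 15]],[[nat_lit 4,nat_lit 0],
    [nat_lit 4,nat_lit 1],[nat_lit 4,nat_lit 10],[nat_lit 4,nat_lit 11],[nat_lit 5,nat_lit 0],[nat_lit 5,nat_lit 1],
    [nat_lit 5,nat_lit 10],[nat_lit 5,nat_lit 11],[nat_lit 6,nat_lit 3,nat_lit 12],[nat_lit 6,nat_lit 3,nat_lit 13],
    [nat_lit 6,nat_lit 6,nat_lit 13],[nat_lit 6,nat_lit 8,nat_lit 1,nat_lit 13]],[[nat_lit 6,nat_lit 8,nat_lit 10,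
    nat_lit 13],[nat_lit 6,nat_lit 8,nat_lit 12,nat_lit 0],[nat_lit 6,nat_lit 8,nat_lit 12,nat_lit 1],[nat_lit 6,
    nat_lit 8,nat_lit 12,nat_lit 10],[nat_lit 6,nat_lit 8,nat_lit 12,nat_lit 11],[nat_lit 6,nat_lit 8,nat_lit 13,
    nat_lit 0],[nat_lit 6,nat_lit 10,nat_lit 12,nat_lit 8],[nat_lit 6,nat_lit 12,nat_lit 2],[nat_lit 6,nat_lit 12,
    nat_lit 3],[nat_lit 6,nat_lit 13,nat_lit 0,nat_lit 9],[nat_lit 6,nat_lit 13,nat_lit 3],[nat_lit 6,nat_lit 13,
    nat_lit 6]],[[nat_lit 6,nat_lit 14],[nat_lit 6,nat_lit 15],[nat_lit 7,nat_lit 0,nat_lit 13,nat_lit 9],[nat_lit 7,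
    nat_lit 1,nat_lit 12,nat_lit 9],[nat_lit 7,nat_lit 1,nat_lit 13,nat_lit 9],[nat_lit 7,nat_lit 2,nat_lit 12],
    [nat_lit 7,nat_lit 2,nat_lit 13],[nat_lit 7,nat_lit 3,nat_lit 13],[nat_lit 7,nat_lit 7,nat_lit 12],[nat_lit 7,
    nat_lit 8,nat_lit 1,nat_lit 12],[nat_lit 7,nat_lit 9,nat_lit 13,nat_lit 11],[nat_lit 7,nat_lit 10,nat_lit 13,
    nat_lit 9]],[[nat_lit 7,nat_lit 11,nat_lit 13,nat_lit 9],[nat_lit 7,nat_lit 12,nat_lit 0,nat_lit 9],[nat_lit 7,
    nat_lit 12,nat_lit 2],[nat_lit 7,nat_lit 12,nat_lit 7],[nat_lit 7,nat_lit 12,nat_lit 11,nat_lit 9],[nat_lit 7,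
    nat_lit 13,nat_lit 2],[nat_lit 7,nat_lit 14],[nat_lit 7,nat_lit 15],[nat_lit 8,nat_lit 0,nat_lit 14],[nat_lit 8,
    nat_lit 1,nat_lit 12,nat_lit 3],[nat_lit 8,nat_lit 1,nat_lit 12,nat_lit 7],[nat_lit 8,nat_lit 1,nat_lit 13,
    nat_lit 6]],[[nat_lit 8,nat_lit 1,nat_lit 15],[nat_lit 8,nat_lit 6,nat_lit 10,nat_lit 12],[nat_lit 8,nat_lit 10,
    nat_lit 12,nat_lit 2],[nat_lit 8,nat_lit 10,nat_lit 13,nat_lit 6],[nat_lit 8,nat_lit 10,nat_lit 14],[nat_lit 8,
    nat_lit 11,nat_lit 14],[nat_lit 8,nat_lit 11,nat_lit 15],[nat_lit 8,nat_lit 12,nat_lit 0,nat_lit 3],[nat_lit 8,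
    nat_lit 12,nat_lit 0,nat_lit 6],[nat_lit 8,nat_lit 12,nat_lit 1,nat_lit 6],[nat_lit 8,nat_lit 12,nat_lit 2,
    nat_lit 0],[nat_lit 8,nat_lit 12,nat_lit 3,nat_lit 11]],[[nat_lit 8,nat_lit 12,nat_lit 10,nat_lit 6],[nat_lit 8,
    nat_lit 12,nat_lit 11,nat_lit 6],[nat_lit 8,nat_lit 13,nat_lit 0,nat_lit 6],[nat_lit 8,nat_lit 14,nat_lit 0],
    [nat_lit 8,nat_lit 14,nat_lit 1],[nat_lit 8,nat_lit 14,nat_lit 10],[nat_lit 8,nat_lit 15,nat_lit 0],[nat_lit 8,
    nat_lit 15,nat_lit 1],[nat_lit 8,nat_lit 15,nat_lit 10],[nat_lit 8,nat_lit 15,nat_lit 11],[nat_lit 9,nat_lit 0,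
    nat_lit 14],[nat_lit 9,nat_lit 0,nat_lit 15]],[[nat_lit 9,nat_lit 1,nat_lit 3,nat_lit 13],[nat_lit 9,nat_lit 1,
    nat_lit 14],[nat_lit 9,nat_lit 1,nat_lit 15],[nat_lit 9,nat_lit 2,nat_lit 1,nat_lit 13],[nat_lit 9,nat_lit 2,
    nat_lit 13,nat_lit 0],[nat_lit 9,nat_lit 3,nat_lit 13,nat_lit 11],[nat_lit 9,nat_lit 6,nat_lit 13,nat_lit 0],
    [nat_lit 9,nat_lit 7,nat_lit 0,nat_lit 13],[nat_lit 9,nat_lit 7,nat_lit 1,nat_lit 12],[nat_lit 9,nat_lit 7,
    nat_lit 1,nat_lit 13],[nat_lit 9,nat_lit 7,nat_lit 10,nat_lit 13],[nat_lit 9,nat_lit 7,nat_lit 11,nat_lit 13]],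
    [[nat_lit 9,nat_lit 7,nat_lit 12,nat_lit 0],[nat_lit 9,nat_lit 7,nat_lit 12,nat_lit 11],[nat_lit 9,nat_lit 10,
    nat_lit 2,nat_lit 13],[nat_lit 9,nat_lit 10,nat_lit 14],[nat_lit 9,nat_lit 11,nat_lit 14],[nat_lit 9,nat_lit 11,
    nat_lit 15],[nat_lit 9,nat_lit 13,nat_lit 11,nat_lit 7],[nat_lit 9,nat_lit 14,nat_lit 0],[nat_lit 9,nat_lit 14,
    nat_lit 10],[nat_lit 9,nat_lit 15,nat_lit 1],[nat_lit 9,nat_lit 15,nat_lit 10],[nat_lit 9,nat_lit 15,nat_lit 11]],
    [[nat_lit 10,nat_lit 2,nat_lit 13,nat_lit 9],[nat_lit 10,nat_lit 4],[nat_lit 10,nat_lit 5],[nat_lit 10,nat_lit 6,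
    nat_lit 8,nat_lit 12],[nat_lit 10,nat_lit 8,nat_lit 14],[nat_lit 10,nat_lit 8,nat_lit 15],[nat_lit 10,nat_lit 9,
    nat_lit 14],[nat_lit 10,nat_lit 9,nat_lit 15],[nat_lit 10,nat_lit 12,nat_lit 2,nat_lit 8],[nat_lit 10,nat_lit 12,
    nat_lit 8,nat_lit 6],[nat_lit 10,nat_lit 13,nat_lit 6,nat_lit 8],[nat_lit 10,nat_lit 13,nat_lit 9,nat_lit 7]],
    [[nat_lit 10,nat_lit 14,nat_lit 8],[nat_lit 10,nat_lit 14,nat_lit 9],[nat_lit 11,nat_lit 4],[nat_lit 11,
    nat_lit 5],[nat_lit 11,nat_lit 6,nat_lit 8,nat_lit 12],[nat_lit 11,nat_lit 7,nat_lit 9,nat_lit 13],[nat_lit 11,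
    nat_lit 8,nat_lit 12,nat_lit 3],[nat_lit 11,nat_lit 8,nat_lit 15],[nat_lit 11,nat_lit 9,nat_lit 3,nat_lit 13],
    [nat_lit 11,nat_lit 9,nat_lit 7,nat_lit 12],[nat_lit 11,nat_lit 9,nat_lit 15],[nat_lit 11,nat_lit 13,nat_lit 9,
    nat_lit 7]],[[nat_lit 11,nat_lit 14,nat_lit 8],[nat_lit 11,nat_lit 14,nat_lit 9],[nat_lit 11,nat_lit 15,
    nat_lit 8],[nat_lit 11,nat_lit 15,nat_lit 9],[nat_lit 12,nat_lit 0,nat_lit 3,nat_lit 8],[nat_lit 12,nat_lit 0,
    nat_lit 6,nat_lit 8],[nat_lit 12,nat_lit 0,nat_lit 9,nat_lit 7],[nat_lit 12,nat_lit 1,nat_lit 6,nat_lit 8],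
    [nat_lit 12,nat_lit 2,nat_lit 0,nat_lit 8],[nat_lit 12,nat_lit 2,nat_lit 2],[nat_lit 12,nat_lit 2,nat_lit 6],
    [nat_lit 12,nat_lit 2,nat_lit 7]],[[nat_lit 12,nat_lit 2,nat_lit 8,nat_lit 10],[nat_lit 12,nat_lit 3,nat_lit 6],
    [nat_lit 12,nat_lit 3,nat_lit 8,nat_lit 1],[nat_lit 12,nat_lit 3,nat_lit 11,nat_lit 8],[nat_lit 12,nat_lit 6,
    nat_lit 3],[nat_lit 12,nat_lit 7,nat_lit 2],[nat_lit 12,nat_lit 7,nat_lit 7],[nat_lit 12,nat_lit 7,nat_lit 8,
    nat_lit 1],[nat_lit 12,nat_lit 8,nat_lit 6,nat_lit 10],[nat_lit 12,nat_lit 9,nat_lit 7,nat_lit 1],[nat_lit 12,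
    nat_lit 10,nat_lit 6,nat_lit 8],[nat_lit 12,nat_lit 11,nat_lit 6,nat_lit 8]],[[nat_lit 12,nat_lit 11,nat_lit 9,
    nat_lit 7],[nat_lit 13,nat_lit 0,nat_lit 6,nat_lit 8],[nat_lit 13,nat_lit 0,nat_lit 9,nat_lit 2],[nat_lit 13,
    nat_lit 0,nat_lit 9,nat_lit 6],[nat_lit 13,nat_lit 2,nat_lit 7],[nat_lit 13,nat_lit 3,nat_lit 3],[nat_lit 13,
    nat_lit 3,nat_lit 6],[nat_lit 13,nat_lit 6,nat_lit 3],[nat_lit 13,nat_lit 6,nat_lit 6],[nat_lit 13,nat_lit 6,
    nat_lit 8,nat_lit 1],[nat_lit 13,nat_lit 6,nat_lit 8,nat_lit 10],[nat_lit 13,nat_lit 7,nat_lit 2]],[[nat_lit 13,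
    nat_lit 7,nat_lit 3],[nat_lit 13,nat_lit 9,nat_lit 1,nat_lit 3],[nat_lit 13,nat_lit 9,nat_lit 2,nat_lit 1],
    [nat_lit 13,nat_lit 9,nat_lit 7,nat_lit 0],[nat_lit 13,nat_lit 9,nat_lit 7,nat_lit 1],[nat_lit 13,nat_lit 9,
    nat_lit 7,nat_lit 10],[nat_lit 13,nat_lit 9,nat_lit 7,nat_lit 11],[nat_lit 13,nat_lit 9,nat_lit 10,nat_lit 2],
    [nat_lit 13,nat_lit 11,nat_lit 7,nat_lit 9],[nat_lit 13,nat_lit 11,nat_lit 9,nat_lit 3],[nat_lit 14,nat_lit 0,
    nat_lit 8],[nat_lit 14,nat_lit 0,nat_lit 9]],[[nat_lit 14,nat_lit 1,nat_lit 8],[nat_lit 14,nat_lit 2],[nat_lit 14,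
    nat_lit 3],[nat_lit 14,nat_lit 6],[nat_lit 14,nat_lit 7],[nat_lit 14,nat_lit 8,nat_lit 0],[nat_lit 14,nat_lit 8,
    nat_lit 10],[nat_lit 14,nat_lit 8,nat_lit 11],[nat_lit 14,nat_lit 9,nat_lit 0],[nat_lit 14,nat_lit 9,nat_lit 1],
    [nat_lit 14,nat_lit 9,nat_lit 10],[nat_lit 14,nat_lit 9,nat_lit 11]],[[nat_lit 14,nat_lit 10,nat_lit 8],
    [nat_lit 14,nat_lit 10,nat_lit 9],[nat_lit 15,nat_lit 0,nat_lit 8],[nat_lit 15,nat_lit 1,nat_lit 8],[nat_lit 15,
    nat_lit 1,nat_lit 9],[nat_lit 15,nat_lit 2],[nat_lit 15,nat_lit 3],[nat_lit 15,nat_lit 6],[nat_lit 15,nat_lit 7],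
    [nat_lit 15,nat_lit 8,nat_lit 1],[nat_lit 15,nat_lit 8,nat_lit 11],[nat_lit 15,nat_lit 9,nat_lit 0]],[[nat_lit 15,
    nat_lit 9,nat_lit 1],[nat_lit 15,nat_lit 9,nat_lit 11],[nat_lit 15,nat_lit 10,nat_lit 8],[nat_lit 15,nat_lit 10,
    nat_lit 9],[nat_lit 15,nat_lit 11,nat_lit 8],[nat_lit 15,nat_lit 11,nat_lit 9]]]
    [[nat_lit 50,nat_lit 60,nat_lit 64,nat_lit 73,nat_lit 77,nat_lit 118,nat_lit 123,nat_lit 126,nat_lit 136,
    nat_lit 138,nat_lit 144,nat_lit 151],[nat_lit 219,nat_lit 233,nat_lit 236,nat_lit 251,nat_lit 56,nat_lit 61,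
    nat_lit 65,nat_lit 74,nat_lit 124,nat_lit 127,nat_lit 153,nat_lit 194],[nat_lit 199,nat_lit 201,nat_lit 213,
    nat_lit 218,nat_lit 220,nat_lit 237,nat_lit 249,nat_lit 252,nat_lit 5,nat_lit 27,nat_lit 39,nat_lit 79],
    [nat_lit 98,nat_lit 101,nat_lit 110,nat_lit 189,nat_lit 197,nat_lit 206,nat_lit 215,nat_lit 223,nat_lit 229,
    nat_lit 245,nat_lit 53,nat_lit 80],[nat_lit 82,nat_lit 105,nat_lit 115,nat_lit 174,nat_lit 196,nat_lit 209,
    nat_lit 211,nat_lit 216,nat_lit 217,nat_lit 225,nat_lit 230,nat_lit 246],[nat_lit 1,nat_lit 17,nat_lit 157,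
    nat_lit 170,nat_lit 2,nat_lit 18,nat_lit 158,nat_lit 171,nat_lit 52,nat_lit 54,nat_lit 83,nat_lit 107],
    [nat_lit 111,nat_lit 116,nat_lit 117,nat_lit 120,nat_lit 121,nat_lit 122,nat_lit 165,nat_lit 190,nat_lit 193,
    nat_lit 207,nat_lit 210,nat_lit 212],[nat_lit 231,nat_lit 247,nat_lit 12,nat_lit 25,nat_lit 28,nat_lit 40,
    nat_lit 42,nat_lit 55,nat_lit 99,nat_lit 106,nat_lit 150,nat_lit 167],[nat_lit 179,nat_lit 186,nat_lit 191,
    nat_lit 198,nat_lit 204,nat_lit 208,nat_lit 232,nat_lit 248,nat_lit 13,nat_lit 23,nat_lit 24,nat_lit 26],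
    [nat_lit 30,nat_lit 78,nat_lit 164,nat_lit 166,nat_lit 168,nat_lit 180,nat_lit 182,nat_lit 184,nat_lit 185,
    nat_lit 187,nat_lit 188,nat_lit 195],[nat_lit 202,nat_lit 203,nat_lit 205,nat_lit 226,nat_lit 228,nat_lit 240,
    nat_lit 242,nat_lit 243,nat_lit 254,nat_lit 256,nat_lit 14,nat_lit 15],[nat_lit 16,nat_lit 29,nat_lit 31,
    nat_lit 33,nat_lit 41,nat_lit 57,nat_lit 81,nat_lit 86,nat_lit 87,nat_lit 88,nat_lit 95,nat_lit 96],[nat_lit 97,
    nat_lit 100,nat_lit 156,nat_lit 169,nat_lit 181,nat_lit 183,nat_lit 224,nat_lit 227,nat_lit 241,nat_lit 244,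
    nat_lit 255,nat_lit 257],[nat_lit 43,nat_lit 62,nat_lit 66,nat_lit 75,nat_lit 125,nat_lit 128,nat_lit 152,
    nat_lit 154,nat_lit 192,nat_lit 200,nat_lit 214,nat_lit 221],[nat_lit 234,nat_lit 238,nat_lit 63,nat_lit 67,
    nat_lit 76,nat_lit 94,nat_lit 119,nat_lit 129,nat_lit 137,nat_lit 145,nat_lit 155,nat_lit 222],[nat_lit 235,
    nat_lit 239,nat_lit 250,nat_lit 253,nat_lit 0,nat_lit 3,nat_lit 10,nat_lit 19,nat_lit 32,nat_lit 34,nat_lit 35,
    nat_lit 36],[nat_lit 38,nat_lit 47,nat_lit 49,nat_lit 51,nat_lit 68,nat_lit 89,nat_lit 92,nat_lit 93,nat_lit 109,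
    nat_lit 140,nat_lit 159,nat_lit 172],[nat_lit 177,nat_lit 4,nat_lit 8,nat_lit 9,nat_lit 37,nat_lit 46,nat_lit 48,
    nat_lit 69,nat_lit 70,nat_lit 71,nat_lit 72,nat_lit 90],[nat_lit 91,nat_lit 132,nat_lit 135,nat_lit 139,
    nat_lit 141,nat_lit 142,nat_lit 143,nat_lit 146,nat_lit 173,nat_lit 176,nat_lit 6,nat_lit 11],[nat_lit 20,
    nat_lit 44,nat_lit 58,nat_lit 84,nat_lit 102,nat_lit 104,nat_lit 112,nat_lit 113,nat_lit 130,nat_lit 133,
    nat_lit 147,nat_lit 148],[nat_lit 160,nat_lit 162,nat_lit 7,nat_lit 21,nat_lit 22,nat_lit 45,nat_lit 59,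
    nat_lit 85,nat_lit 103,nat_lit 108,nat_lit 114,nat_lit 131],[nat_lit 134,nat_lit 149,nat_lit 161,nat_lit 163,
    nat_lit 175,nat_lit 178]]
    [[nat_lit 184,nat_lit 60,nat_lit 64,nat_lit 185,nat_lit 205,nat_lit 32,nat_lit 226,nat_lit 242,nat_lit 206,
    nat_lit 207,nat_lit 186,nat_lit 227],[nat_lit 86,nat_lit 104,nat_lit 130,nat_lit 131,nat_lit 132,nat_lit 61,
    nat_lit 65,nat_lit 187,nat_lit 228,nat_lit 243,nat_lit 244,nat_lit 105],[nat_lit 106,nat_lit 87,nat_lit 107,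
    nat_lit 33,nat_lit 88,nat_lit 133,nat_lit 108,nat_lit 134,nat_lit 188,nat_lit 135,nat_lit 189,nat_lit 190],
    [nat_lit 191,nat_lit 208,nat_lit 192,nat_lit 34,nat_lit 89,nat_lit 136,nat_lit 90,nat_lit 156,nat_lit 229,
    nat_lit 245,nat_lit 209,nat_lit 193],[nat_lit 210,nat_lit 194,nat_lit 0,nat_lit 195,nat_lit 68,nat_lit 46,
    nat_lit 69,nat_lit 91,nat_lit 16,nat_lit 137,nat_lit 230,nat_lit 246],[nat_lit 1,nat_lit 17,nat_lit 157,
    nat_lit 170,nat_lit 2,nat_lit 18,nat_lit 158,nat_lit 171,nat_lit 196,nat_lit 211,nat_lit 212,nat_lit 213],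
    [nat_lit 214,nat_lit 3,nat_lit 19,nat_lit 159,nat_lit 172,nat_lit 4,nat_lit 109,nat_lit 35,nat_lit 47,nat_lit 138,
    nat_lit 48,nat_lit 70],[nat_lit 231,nat_lit 247,nat_lit 139,nat_lit 140,nat_lit 141,nat_lit 197,nat_lit 215,
    nat_lit 216,nat_lit 198,nat_lit 199,nat_lit 173,nat_lit 142],[nat_lit 143,nat_lit 144,nat_lit 36,nat_lit 92,
    nat_lit 145,nat_lit 37,nat_lit 232,nat_lit 248,nat_lit 233,nat_lit 49,nat_lit 93,nat_lit 71],[nat_lit 249,
    nat_lit 200,nat_lit 38,nat_lit 72,nat_lit 234,nat_lit 235,nat_lit 250,nat_lit 50,nat_lit 73,nat_lit 74,nat_lit 5,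
    nat_lit 174],[nat_lit 75,nat_lit 76,nat_lit 77,nat_lit 6,nat_lit 20,nat_lit 160,nat_lit 7,nat_lit 21,nat_lit 161,
    nat_lit 175,nat_lit 236,nat_lit 251],[nat_lit 217,nat_lit 237,nat_lit 252,nat_lit 218,nat_lit 8,nat_lit 176,
    nat_lit 9,nat_lit 219,nat_lit 201,nat_lit 220,nat_lit 221,nat_lit 222],[nat_lit 10,nat_lit 177,nat_lit 223,
    nat_lit 238,nat_lit 239,nat_lit 253,nat_lit 94,nat_lit 11,nat_lit 162,nat_lit 22,nat_lit 163,nat_lit 178],
    [nat_lit 146,nat_lit 62,nat_lit 66,nat_lit 202,nat_lit 240,nat_lit 254,nat_lit 241,nat_lit 255,nat_lit 110,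
    nat_lit 78,nat_lit 111,nat_lit 95],[nat_lit 112,nat_lit 147,nat_lit 63,nat_lit 67,nat_lit 203,nat_lit 224,
    nat_lit 51,nat_lit 256,nat_lit 225,nat_lit 204,nat_lit 257,nat_lit 96],[nat_lit 113,nat_lit 148,nat_lit 114,
    nat_lit 149,nat_lit 115,nat_lit 116,nat_lit 97,nat_lit 117,nat_lit 118,nat_lit 39,nat_lit 79,nat_lit 98],
    [nat_lit 164,nat_lit 80,nat_lit 23,nat_lit 119,nat_lit 52,nat_lit 40,nat_lit 99,nat_lit 24,nat_lit 165,nat_lit 25,
    nat_lit 120,nat_lit 121],[nat_lit 100,nat_lit 122,nat_lit 41,nat_lit 81,nat_lit 101,nat_lit 53,nat_lit 82,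
    nat_lit 54,nat_lit 83,nat_lit 26,nat_lit 166,nat_lit 42],[nat_lit 55,nat_lit 56,nat_lit 27,nat_lit 12,nat_lit 28,
    nat_lit 167,nat_lit 179,nat_lit 43,nat_lit 150,nat_lit 57,nat_lit 123,nat_lit 151],[nat_lit 124,nat_lit 44,
    nat_lit 58,nat_lit 84,nat_lit 102,nat_lit 13,nat_lit 168,nat_lit 180,nat_lit 14,nat_lit 29,nat_lit 169,
    nat_lit 181],[nat_lit 125,nat_lit 152,nat_lit 126,nat_lit 127,nat_lit 153,nat_lit 45,nat_lit 59,nat_lit 85,
    nat_lit 103,nat_lit 30,nat_lit 182,nat_lit 15],[nat_lit 31,nat_lit 183,nat_lit 128,nat_lit 154,nat_lit 129,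
    nat_lit 155]]
    [[[nat_lit 237],[nat_lit 231],[nat_lit 230],[nat_lit 226,nat_lit 228,nat_lit 240],[nat_lit 226,nat_lit 228,
    nat_lit 240],[nat_lit 234,nat_lit 238],[nat_lit 234,nat_lit 238],[nat_lit 234,nat_lit 238],[nat_lit 232],
    [nat_lit 232],[nat_lit 232],[nat_lit 232]],[[nat_lit 235,nat_lit 239],[nat_lit 233,nat_lit 236],[nat_lit 233,
    nat_lit 236],[],[nat_lit 56],[nat_lit 52,nat_lit 54],[nat_lit 53],[],[],[],[nat_lit 55],[nat_lit 58]],
    [[nat_lit 58],[nat_lit 58],[],[],[],[nat_lit 50],[nat_lit 46,nat_lit 48],[nat_lit 46,nat_lit 48],[nat_lit 5],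
    [nat_lit 7],[nat_lit 1],[nat_lit 13]],[[nat_lit 2],[nat_lit 2],[],[nat_lit 6,nat_lit 11],[nat_lit 6,nat_lit 11],
    [],[],[],[],[nat_lit 4,nat_lit 8,nat_lit 9],[nat_lit 65],[]],[[],[nat_lit 66],[nat_lit 66],[],[],[nat_lit 67],
    [nat_lit 67],[nat_lit 67],[nat_lit 67],[nat_lit 67],[nat_lit 64],[]],[[nat_lit 39],[nat_lit 45],[nat_lit 32,
    nat_lit 34,nat_lit 35,nat_lit 36,nat_lit 38],[nat_lit 33,nat_lit 41],[nat_lit 98,nat_lit 101],[nat_lit 103],
    [nat_lit 89,nat_lit 92,nat_lit 93],[nat_lit 86,nat_lit 87,nat_lit 88,nat_lit 95,nat_lit 96,nat_lit 97,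
    nat_lit 100],[nat_lit 61],[nat_lit 61],[],[nat_lit 62]],[[nat_lit 62],[nat_lit 62],[nat_lit 62],[nat_lit 62],
    [nat_lit 62],[nat_lit 62],[],[],[],[nat_lit 63],[nat_lit 63],[nat_lit 63]],[[nat_lit 60],[],[],[nat_lit 131,
    nat_lit 134,nat_lit 149],[nat_lit 131,nat_lit 134,nat_lit 149],[],[],[nat_lit 153],[],[nat_lit 152,nat_lit 154],
    [nat_lit 150],[nat_lit 140]],[[],[nat_lit 130,nat_lit 133,nat_lit 147,nat_lit 148],[nat_lit 130,nat_lit 133,
    nat_lit 147,nat_lit 148],[nat_lit 130,nat_lit 133,nat_lit 147,nat_lit 148],[nat_lit 130,nat_lit 133,nat_lit 147,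
    nat_lit 148],[nat_lit 137,nat_lit 145,nat_lit 155],[nat_lit 136,nat_lit 138,nat_lit 144,nat_lit 151],[nat_lit 132,
    nat_lit 135,nat_lit 139,nat_lit 141,nat_lit 142,nat_lit 143,nat_lit 146],[nat_lit 79],[nat_lit 85],[nat_lit 85],
    [nat_lit 85]],[[nat_lit 85],[nat_lit 78],[nat_lit 68],[nat_lit 68],[nat_lit 68],[nat_lit 81],[nat_lit 81],
    [nat_lit 84],[nat_lit 84],[nat_lit 84],[nat_lit 84],[nat_lit 84]],[[nat_lit 84],[nat_lit 84],[nat_lit 76],
    [nat_lit 73,nat_lit 77],[nat_lit 73,nat_lit 77],[nat_lit 73,nat_lit 77],[nat_lit 69,nat_lit 70,nat_lit 71,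
    nat_lit 72],[nat_lit 69,nat_lit 70,nat_lit 71,nat_lit 72],[nat_lit 69,nat_lit 70,nat_lit 71,nat_lit 72],
    [nat_lit 69,nat_lit 70,nat_lit 71,nat_lit 72],[],[]],[[nat_lit 175,nat_lit 178],[nat_lit 175,nat_lit 178],
    [nat_lit 175,nat_lit 178],[nat_lit 170],[nat_lit 170],[],[nat_lit 180,nat_lit 182],[nat_lit 171],[nat_lit 171],
    [nat_lit 171],[nat_lit 171],[nat_lit 171]],[[nat_lit 171],[nat_lit 171],[nat_lit 172,nat_lit 177],[nat_lit 172,
    nat_lit 177],[nat_lit 181,nat_lit 183],[nat_lit 181,nat_lit 183],[],[],[],[nat_lit 173,nat_lit 176],[nat_lit 173,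
    nat_lit 176],[nat_lit 173,nat_lit 176]],[[],[nat_lit 107,nat_lit 111,nat_lit 116,nat_lit 117,nat_lit 120,
    nat_lit 121,nat_lit 122],[nat_lit 105,nat_lit 115],[],[nat_lit 125,nat_lit 128],[nat_lit 125,nat_lit 128],
    [nat_lit 106],[nat_lit 106],[nat_lit 104,nat_lit 112,nat_lit 113],[nat_lit 104,nat_lit 112,nat_lit 113],
    [nat_lit 119,nat_lit 129],[nat_lit 119,nat_lit 129]],[[nat_lit 118,nat_lit 123,nat_lit 126],[nat_lit 118,
    nat_lit 123,nat_lit 126],[nat_lit 207,nat_lit 210,nat_lit 212],[nat_lit 209,nat_lit 211,nat_lit 216,nat_lit 217,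
    nat_lit 225],[nat_lit 205],[],[nat_lit 214,nat_lit 221],[nat_lit 214,nat_lit 221],[nat_lit 208],[nat_lit 208],
    [nat_lit 208],[nat_lit 222]],[[nat_lit 219],[nat_lit 219],[],[],[],[],[],[nat_lit 161,nat_lit 163],[nat_lit 157],
    [nat_lit 157],[nat_lit 157],[nat_lit 157]],[[nat_lit 157],[],[],[],[nat_lit 164,nat_lit 166,nat_lit 168],
    [nat_lit 158],[nat_lit 158],[nat_lit 158],[],[nat_lit 167],[nat_lit 159],[nat_lit 156,nat_lit 169]],[[nat_lit 156,
    nat_lit 169],[nat_lit 245],[nat_lit 245],[nat_lit 245],[],[nat_lit 249,nat_lit 252],[nat_lit 249,nat_lit 252],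
    [nat_lit 242,nat_lit 243,nat_lit 254,nat_lit 256],[nat_lit 242,nat_lit 243,nat_lit 254,nat_lit 256],[nat_lit 242,
    nat_lit 243,nat_lit 254,nat_lit 256],[nat_lit 242,nat_lit 243,nat_lit 254,nat_lit 256],[]],[[],[nat_lit 248],
    [nat_lit 248],[nat_lit 248],[nat_lit 248],[nat_lit 248],[nat_lit 248],[nat_lit 248],[nat_lit 244,nat_lit 255,
    nat_lit 257],[nat_lit 244,nat_lit 255,nat_lit 257],[nat_lit 189,nat_lit 197],[nat_lit 189,nat_lit 197]],[[],[],
    [nat_lit 194,nat_lit 199,nat_lit 201],[nat_lit 184,nat_lit 185,nat_lit 187,nat_lit 188,nat_lit 195,nat_lit 202,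
    nat_lit 203],[],[nat_lit 192,nat_lit 200],[nat_lit 192,nat_lit 200],[nat_lit 192,nat_lit 200],[nat_lit 186,
    nat_lit 191,nat_lit 198,nat_lit 204],[nat_lit 186,nat_lit 191,nat_lit 198,nat_lit 204],[nat_lit 186,nat_lit 191,
    nat_lit 198,nat_lit 204],[nat_lit 186,nat_lit 191,nat_lit 198,nat_lit 204]],[[],[],[nat_lit 27],[nat_lit 21,
    nat_lit 22],[nat_lit 21,nat_lit 22],[nat_lit 17],[],[nat_lit 23,nat_lit 24,nat_lit 26,nat_lit 30],[nat_lit 18],[],
    [],[nat_lit 25,nat_lit 28]],[[nat_lit 25,nat_lit 28],[nat_lit 25,nat_lit 28],[nat_lit 19],[nat_lit 19],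
    [nat_lit 16,nat_lit 29,nat_lit 31],[nat_lit 16,nat_lit 29,nat_lit 31]]]
    (nat_lit 258) [nat_lit 0,nat_lit 1,nat_lit 2,nat_lit 3,nat_lit 4,nat_lit 5,nat_lit 6,nat_lit 7,nat_lit 8,
    nat_lit 9,nat_lit 10,nat_lit 11,nat_lit 12,nat_lit 13,nat_lit 14,nat_lit 15,nat_lit 16,nat_lit 17,nat_lit 18,
    nat_lit 19,nat_lit 20,nat_lit 21,nat_lit 22,nat_lit 23,nat_lit 24,nat_lit 25,nat_lit 26,nat_lit 27,nat_lit 28,
    nat_lit 29,nat_lit 30,nat_lit 31,nat_lit 34,nat_lit 35,nat_lit 36,nat_lit 37,nat_lit 38,nat_lit 39,nat_lit 40,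
    nat_lit 42,nat_lit 43,nat_lit 44,nat_lit 45,nat_lit 46,nat_lit 47,nat_lit 48,nat_lit 51,nat_lit 52,nat_lit 53,
    nat_lit 54,nat_lit 55,nat_lit 57,nat_lit 58,nat_lit 59,nat_lit 62,nat_lit 63,nat_lit 66,nat_lit 67,nat_lit 70,
    nat_lit 72,nat_lit 75,nat_lit 76,nat_lit 78,nat_lit 83,nat_lit 84,nat_lit 85,nat_lit 92,nat_lit 94,nat_lit 95,
    nat_lit 96,nat_lit 99,nat_lit 100,nat_lit 102,nat_lit 103,nat_lit 112,nat_lit 113,nat_lit 114,nat_lit 125,
    nat_lit 128,nat_lit 129,nat_lit 147,nat_lit 148,nat_lit 149,nat_lit 152,nat_lit 154,nat_lit 155]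
    [[[],[],[nat_lit 5],[],[nat_lit 1],[nat_lit 2],[],[nat_lit 12],[nat_lit 13],[nat_lit 14,nat_lit 15],[],[],
    [nat_lit 0,nat_lit 3,nat_lit 10],[nat_lit 4,nat_lit 8,nat_lit 9],[nat_lit 6,nat_lit 11],[nat_lit 7]],[[],[],
    [nat_lit 27],[],[nat_lit 17],[nat_lit 18],[],[nat_lit 25,nat_lit 28],[nat_lit 23,nat_lit 24,nat_lit 26,
    nat_lit 30],[nat_lit 16,nat_lit 29,nat_lit 31],[],[],[nat_lit 19],[],[nat_lit 20],[nat_lit 21,nat_lit 22]],[[],[],
    [nat_lit 39],[],[],[],[],[nat_lit 40,nat_lit 42],[],[nat_lit 33,nat_lit 41],[nat_lit 43],[],[nat_lit 32,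
    nat_lit 34,nat_lit 35,nat_lit 36,nat_lit 38],[nat_lit 37],[nat_lit 44],[nat_lit 45]],[[nat_lit 50],[nat_lit 56],
    [],[nat_lit 53],[],[],[nat_lit 52,nat_lit 54],[nat_lit 55],[],[nat_lit 57],[],[],[nat_lit 47,nat_lit 49,
    nat_lit 51],[nat_lit 46,nat_lit 48],[nat_lit 58],[nat_lit 59]],[[nat_lit 60],[nat_lit 61],[],[],[],[],[],[],[],[],
    [nat_lit 62],[nat_lit 63],[],[],[],[]],[[nat_lit 64],[nat_lit 65],[],[],[],[],[],[],[],[],[nat_lit 66],
    [nat_lit 67],[],[],[],[]],[[nat_lit 73,nat_lit 77],[nat_lit 74],[nat_lit 79],[nat_lit 80,nat_lit 82],[],[],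
    [nat_lit 83],[],[nat_lit 78],[nat_lit 81],[nat_lit 75],[nat_lit 76],[nat_lit 68],[nat_lit 69,nat_lit 70,
    nat_lit 71,nat_lit 72],[nat_lit 84],[nat_lit 85]],[[],[],[nat_lit 98,nat_lit 101],[],[],[],[],[nat_lit 99],[],
    [nat_lit 86,nat_lit 87,nat_lit 88,nat_lit 95,nat_lit 96,nat_lit 97,nat_lit 100],[],[nat_lit 94],[nat_lit 89,
    nat_lit 92,nat_lit 93],[nat_lit 90,nat_lit 91],[nat_lit 102],[nat_lit 103]],[[nat_lit 118,nat_lit 123,
    nat_lit 126],[nat_lit 124,nat_lit 127],[nat_lit 110],[nat_lit 105,nat_lit 115],[],[],[nat_lit 107,nat_lit 111,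
    nat_lit 116,nat_lit 117,nat_lit 120,nat_lit 121,nat_lit 122],[nat_lit 106],[],[],[nat_lit 125,nat_lit 128],
    [nat_lit 119,nat_lit 129],[nat_lit 109],[],[nat_lit 104,nat_lit 112,nat_lit 113],[nat_lit 108,nat_lit 114]],
    [[nat_lit 136,nat_lit 138,nat_lit 144,nat_lit 151],[nat_lit 153],[],[],[],[],[],[nat_lit 150],[],[],[nat_lit 152,
    nat_lit 154],[nat_lit 137,nat_lit 145,nat_lit 155],[nat_lit 140],[nat_lit 132,nat_lit 135,nat_lit 139,nat_lit 141,
    nat_lit 142,nat_lit 143,nat_lit 146],[nat_lit 130,nat_lit 133,nat_lit 147,nat_lit 148],[nat_lit 131,nat_lit 134,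
    nat_lit 149]],[[],[],[],[],[nat_lit 157],[nat_lit 158],[nat_lit 165],[nat_lit 167],[nat_lit 164,nat_lit 166,
    nat_lit 168],[nat_lit 156,nat_lit 169],[],[],[nat_lit 159],[],[nat_lit 160,nat_lit 162],[nat_lit 161,
    nat_lit 163]],[[],[],[],[nat_lit 174],[nat_lit 170],[nat_lit 171],[],[nat_lit 179],[nat_lit 180,nat_lit 182],
    [nat_lit 181,nat_lit 183],[],[],[nat_lit 172,nat_lit 177],[nat_lit 173,nat_lit 176],[],[nat_lit 175,nat_lit 178]],
    [[],[nat_lit 194,nat_lit 199,nat_lit 201],[nat_lit 189,nat_lit 197],[nat_lit 196],[],[],[nat_lit 190,nat_lit 193],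
    [nat_lit 186,nat_lit 191,nat_lit 198,nat_lit 204],[nat_lit 184,nat_lit 185,nat_lit 187,nat_lit 188,nat_lit 195,
    nat_lit 202,nat_lit 203],[],[nat_lit 192,nat_lit 200],[],[],[],[],[]],[[nat_lit 219],[nat_lit 213,nat_lit 218,
    nat_lit 220],[nat_lit 206,nat_lit 215,nat_lit 223],[nat_lit 209,nat_lit 211,nat_lit 216,nat_lit 217,nat_lit 225],
    [],[],[nat_lit 207,nat_lit 210,nat_lit 212],[nat_lit 208],[nat_lit 205],[nat_lit 224],[nat_lit 214,nat_lit 221],
    [nat_lit 222],[],[],[],[]],[[nat_lit 233,nat_lit 236],[nat_lit 237],[nat_lit 229],[nat_lit 230],[],[],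
    [nat_lit 231],[nat_lit 232],[nat_lit 226,nat_lit 228,nat_lit 240],[nat_lit 227,nat_lit 241],[nat_lit 234,
    nat_lit 238],[nat_lit 235,nat_lit 239],[],[],[],[]],[[nat_lit 251],[nat_lit 249,nat_lit 252],[nat_lit 245],
    [nat_lit 246],[],[],[nat_lit 247],[nat_lit 248],[nat_lit 242,nat_lit 243,nat_lit 254,nat_lit 256],[nat_lit 244,
    nat_lit 255,nat_lit 257],[],[nat_lit 250,nat_lit 253],[],[],[],[]]]
    [[[nat_lit 0x200000000000000000000000000000000000000000000000000000000000,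
    nat_lit 0x8000000000000000000000000000000000000000000000000000000000,
    nat_lit 0x4000000000000000000000000000000000000000000000000000000000,
    nat_lit 0x1001400000000000000000000000000000000000000000000000000000000,
    nat_lit 0x1001400000000000000000000000000000000000000000000000000000000,
    nat_lit 0x440000000000000000000000000000000000000000000000000000000000,
    nat_lit 0x440000000000000000000000000000000000000000000000000000000000,
    nat_lit 0x440000000000000000000000000000000000000000000000000000000000,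
    nat_lit 0x10000000000000000000000000000000000000000000000000000000000],
    [nat_lit 0x10000000000000000000000000000000000000000000000000000000000,
    nat_lit 0x10000000000000000000000000000000000000000000000000000000000,
    nat_lit 0x10000000000000000000000000000000000000000000000000000000000,
    nat_lit 0x880000000000000000000000000000000000000000000000000000000000,
    nat_lit 0x120000000000000000000000000000000000000000000000000000000000,
    nat_lit 0x120000000000000000000000000000000000000000000000000000000000,nat_lit 0,nat_lit 0x100000000000000,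
    nat_lit 0x50000000000000],[nat_lit 0x20000000000000,nat_lit 0,nat_lit 0,nat_lit 0,nat_lit 0x80000000000000,
    nat_lit 0x400000000000000,nat_lit 0x400000000000000,nat_lit 0x400000000000000,nat_lit 0],[nat_lit 0,nat_lit 0,
    nat_lit 0x4000000000000,nat_lit 0x1400000000000,nat_lit 0x1400000000000,nat_lit 32,nat_lit 128,nat_lit 2,
    nat_lit 0x2000],[nat_lit 4,nat_lit 4,nat_lit 0,nat_lit 0x840,nat_lit 0x840,nat_lit 0,nat_lit 0,nat_lit 0,
    nat_lit 0],[nat_lit 784,nat_lit 0x20000000000000000,nat_lit 0,nat_lit 0,nat_lit 0x40000000000000000,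
    nat_lit 0x40000000000000000,nat_lit 0,nat_lit 0,nat_lit 0x80000000000000000],[nat_lit 0x80000000000000000,
    nat_lit 0x80000000000000000,nat_lit 0x80000000000000000,nat_lit 0x80000000000000000,nat_lit 0x10000000000000000,
    nat_lit 0,nat_lit 0x8000000000,nat_lit 0x200000000000,nat_lit 0x5d00000000],[nat_lit 0x20200000000,
    nat_lit 0x24000000000000000000000000,nat_lit 0x80000000000000000000000000,nat_lit 0x320000000000000000000000,
    nat_lit 0x1381c000000000000000000000,nat_lit 0x2000000000000000,nat_lit 0x2000000000000000,nat_lit 0,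
    nat_lit 0x4000000000000000],[nat_lit 0x4000000000000000,nat_lit 0x4000000000000000,nat_lit 0x4000000000000000,
    nat_lit 0x4000000000000000,nat_lit 0x4000000000000000,nat_lit 0x4000000000000000,nat_lit 0,nat_lit 0,nat_lit 0]],
    [[nat_lit 0x8000000000000000,nat_lit 0x8000000000000000,nat_lit 0x8000000000000000,nat_lit 0x1000000000000000,
    nat_lit 0,nat_lit 0,nat_lit 0x20004800000000000000000000000000000000,
    nat_lit 0x20004800000000000000000000000000000000,nat_lit 0],[nat_lit 0,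
    nat_lit 0x200000000000000000000000000000000000000,nat_lit 0,nat_lit 0x500000000000000000000000000000000000000,
    nat_lit 0x40000000000000000000000000000000000000,nat_lit 0x100000000000000000000000000000000000,nat_lit 0,
    nat_lit 0x18002400000000000000000000000000000000,nat_lit 0x18002400000000000000000000000000000000],
    [nat_lit 0x18002400000000000000000000000000000000,nat_lit 0x18002400000000000000000000000000000000,
    nat_lit 0x802020000000000000000000000000000000000,nat_lit 0x81050000000000000000000000000000000000,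
    nat_lit 0x4e89000000000000000000000000000000000,nat_lit 0x80000000000000000000,nat_lit 0x2000000000000000000000,
    nat_lit 0x2000000000000000000000,nat_lit 0x2000000000000000000000],[nat_lit 0x2000000000000000000000,
    nat_lit 0x40000000000000000000,nat_lit 0x100000000000000000,nat_lit 0x100000000000000000,
    nat_lit 0x100000000000000000,nat_lit 0x200000000000000000000,nat_lit 0x200000000000000000000,
    nat_lit 0x1000000000000000000000,nat_lit 0x1000000000000000000000],[nat_lit 0x1000000000000000000000,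
    nat_lit 0x1000000000000000000000,nat_lit 0x1000000000000000000000,nat_lit 0x1000000000000000000000,
    nat_lit 0x1000000000000000000000,nat_lit 0x10000000000000000000,nat_lit 0x22000000000000000000,
    nat_lit 0x22000000000000000000,nat_lit 0x22000000000000000000],[nat_lit 0x1e00000000000000000,
    nat_lit 0x1e00000000000000000,nat_lit 0x1e00000000000000000,nat_lit 0x1e00000000000000000,nat_lit 0,nat_lit 0,
    nat_lit 0x480000000000000000000000000000000000000000000,nat_lit 0x480000000000000000000000000000000000000000000,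
    nat_lit 0x480000000000000000000000000000000000000000000],[nat_lit 0x4000000000000000000000000000000000000000000,
    nat_lit 0x4000000000000000000000000000000000000000000,nat_lit 0,
    nat_lit 0x5000000000000000000000000000000000000000000000,nat_lit 0x8000000000000000000000000000000000000000000,
    nat_lit 0x8000000000000000000000000000000000000000000,nat_lit 0x8000000000000000000000000000000000000000000,
    nat_lit 0x8000000000000000000000000000000000000000000,nat_lit 0x8000000000000000000000000000000000000000000],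
    [nat_lit 0x8000000000000000000000000000000000000000000,nat_lit 0x8000000000000000000000000000000000000000000,
    nat_lit 0x210000000000000000000000000000000000000000000,nat_lit 0x210000000000000000000000000000000000000000000,
    nat_lit 0xa000000000000000000000000000000000000000000000,nat_lit 0xa000000000000000000000000000000000000000000000,
    nat_lit 0,nat_lit 0,nat_lit 0],[nat_lit 0x120000000000000000000000000000000000000000000,
    nat_lit 0x120000000000000000000000000000000000000000000,nat_lit 0x120000000000000000000000000000000000000000000,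
    nat_lit 0,nat_lit 0x7308800000000000000000000000000,nat_lit 0x80200000000000000000000000000,nat_lit 0,
    nat_lit 0x120000000000000000000000000000000,nat_lit 0x120000000000000000000000000000000]],
    [[nat_lit 0x400000000000000000000000000,nat_lit 0x400000000000000000000000000,
    nat_lit 0x30100000000000000000000000000,nat_lit 0x30100000000000000000000000000,
    nat_lit 0x200800000000000000000000000000000,nat_lit 0x200800000000000000000000000000000,
    nat_lit 0x48400000000000000000000000000000,nat_lit 0x48400000000000000000000000000000,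
    nat_lit 0x148000000000000000000000000000000000000000000000000000],
    [nat_lit 0x2030a0000000000000000000000000000000000000000000000000000,
    nat_lit 0x2000000000000000000000000000000000000000000000000000,nat_lit 0,
    nat_lit 0x20400000000000000000000000000000000000000000000000000000,
    nat_lit 0x20400000000000000000000000000000000000000000000000000000,
    nat_lit 0x10000000000000000000000000000000000000000000000000000,
    nat_lit 0x10000000000000000000000000000000000000000000000000000,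
    nat_lit 0x10000000000000000000000000000000000000000000000000000,
    nat_lit 0x40000000000000000000000000000000000000000000000000000000],
    [nat_lit 0x8000000000000000000000000000000000000000000000000000000,
    nat_lit 0x8000000000000000000000000000000000000000000000000000000,nat_lit 0,nat_lit 0,nat_lit 0,nat_lit 0,
    nat_lit 0,nat_lit 0xa0000000000000000000000000000000000000000,nat_lit 0x2000000000000000000000000000000000000000],
    [nat_lit 0x2000000000000000000000000000000000000000,nat_lit 0x2000000000000000000000000000000000000000,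
    nat_lit 0x2000000000000000000000000000000000000000,nat_lit 0x2000000000000000000000000000000000000000,nat_lit 0,
    nat_lit 0,nat_lit 0,nat_lit 0x1500000000000000000000000000000000000000000,
    nat_lit 0x4000000000000000000000000000000000000000],[nat_lit 0x4000000000000000000000000000000000000000,
    nat_lit 0x4000000000000000000000000000000000000000,nat_lit 0,nat_lit 0x800000000000000000000000000000000000000000,
    nat_lit 0x8000000000000000000000000000000000000000,nat_lit 0x2001000000000000000000000000000000000000000,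
    nat_lit 0x2001000000000000000000000000000000000000000,
    nat_lit 0x20000000000000000000000000000000000000000000000000000000000000,
    nat_lit 0x20000000000000000000000000000000000000000000000000000000000000],
    [nat_lit 0x20000000000000000000000000000000000000000000000000000000000000,nat_lit 0,
    nat_lit 0x1200000000000000000000000000000000000000000000000000000000000000,
    nat_lit 0x1200000000000000000000000000000000000000000000000000000000000000,
    nat_lit 0x1400c000000000000000000000000000000000000000000000000000000000000,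
    nat_lit 0x1400c000000000000000000000000000000000000000000000000000000000000,
    nat_lit 0x1400c000000000000000000000000000000000000000000000000000000000000,
    nat_lit 0x1400c000000000000000000000000000000000000000000000000000000000000,nat_lit 0],[nat_lit 0,
    nat_lit 0x100000000000000000000000000000000000000000000000000000000000000,
    nat_lit 0x100000000000000000000000000000000000000000000000000000000000000,
    nat_lit 0x100000000000000000000000000000000000000000000000000000000000000,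
    nat_lit 0x100000000000000000000000000000000000000000000000000000000000000,
    nat_lit 0x100000000000000000000000000000000000000000000000000000000000000,
    nat_lit 0x100000000000000000000000000000000000000000000000000000000000000,
    nat_lit 0x100000000000000000000000000000000000000000000000000000000000000,
    nat_lit 0x28010000000000000000000000000000000000000000000000000000000000000],
    [nat_lit 0x28010000000000000000000000000000000000000000000000000000000000000,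
    nat_lit 0x20200000000000000000000000000000000000000000000000,
    nat_lit 0x20200000000000000000000000000000000000000000000000,nat_lit 0,nat_lit 0,
    nat_lit 0x284000000000000000000000000000000000000000000000000,
    nat_lit 0xc081b0000000000000000000000000000000000000000000000,nat_lit 0,
    nat_lit 0x101000000000000000000000000000000000000000000000000],
    [nat_lit 0x101000000000000000000000000000000000000000000000000,
    nat_lit 0x101000000000000000000000000000000000000000000000000,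
    nat_lit 0x1040840000000000000000000000000000000000000000000000,
    nat_lit 0x1040840000000000000000000000000000000000000000000000,
    nat_lit 0x1040840000000000000000000000000000000000000000000000,
    nat_lit 0x1040840000000000000000000000000000000000000000000000,nat_lit 0,nat_lit 0,nat_lit 0x8000000]],
    [[nat_lit 0x600000,nat_lit 0x600000,nat_lit 0x20000,nat_lit 0,nat_lit 0x45800000,nat_lit 0x40000,nat_lit 0,
    nat_lit 0,nat_lit 0x12000000],[nat_lit 0x12000000,nat_lit 0x12000000,nat_lit 0x80000,nat_lit 0x80000,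
    nat_lit 0xa0010000,nat_lit 0xa0010000]]]
    [[[[nat_lit 0,nat_lit 0x8000000000000000000000000000000000000000000000000000000000,
    nat_lit 0x4000000000000000000000000000000000000000000000000000000000,
    nat_lit 0x1000400000000000000000000000000000000000000000000000000000000,
    nat_lit 0x1000400000000000000000000000000000000000000000000000000000000,
    nat_lit 0x400000000000000000000000000000000000000000000000000000000000,
    nat_lit 0x400000000000000000000000000000000000000000000000000000000000,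
    nat_lit 0x400000000000000000000000000000000000000000000000000000000000,nat_lit 0],[nat_lit 0,nat_lit 0,nat_lit 0,
    nat_lit 0x800000000000000000000000000000000000000000000000000000000000,
    nat_lit 0x20000000000000000000000000000000000000000000000000000000000,
    nat_lit 0x20000000000000000000000000000000000000000000000000000000000,nat_lit 0,nat_lit 0x100000000000000,
    nat_lit 0x10000000000000],[nat_lit 0x20000000000000,nat_lit 0,nat_lit 0,nat_lit 0,nat_lit 0,nat_lit 0,nat_lit 0,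
    nat_lit 0x400000000000000,nat_lit 0],[nat_lit 0,nat_lit 0,nat_lit 0,nat_lit 0,nat_lit 0x400000000000,nat_lit 32,
    nat_lit 0,nat_lit 2,nat_lit 0],[nat_lit 0,nat_lit 4,nat_lit 0,nat_lit 64,nat_lit 0,nat_lit 0,nat_lit 0,nat_lit 0,
    nat_lit 0],[nat_lit 16,nat_lit 0x20000000000000000,nat_lit 0,nat_lit 0,nat_lit 0,nat_lit 0x40000000000000000,
    nat_lit 0,nat_lit 0,nat_lit 0x80000000000000000],[nat_lit 0x80000000000000000,nat_lit 0,
    nat_lit 0x80000000000000000,nat_lit 0x80000000000000000,nat_lit 0x10000000000000000,nat_lit 0,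
    nat_lit 0x8000000000,nat_lit 0x200000000000,nat_lit 0x5500000000],[nat_lit 0x200000000,
    nat_lit 0x4000000000000000000000000,nat_lit 0x80000000000000000000000000,nat_lit 0x100000000000000000000000,
    nat_lit 0x1181c000000000000000000000,nat_lit 0,nat_lit 0x2000000000000000,nat_lit 0,nat_lit 0],
    [nat_lit 0x4000000000000000,nat_lit 0x4000000000000000,nat_lit 0x4000000000000000,nat_lit 0x4000000000000000,
    nat_lit 0x4000000000000000,nat_lit 0x4000000000000000,nat_lit 0,nat_lit 0,nat_lit 0]],[[nat_lit 0,nat_lit 0,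
    nat_lit 0x8000000000000000,nat_lit 0x1000000000000000,nat_lit 0,nat_lit 0,
    nat_lit 0x4000000000000000000000000000000000,nat_lit 0,nat_lit 0],[nat_lit 0,
    nat_lit 0x200000000000000000000000000000000000000,nat_lit 0,nat_lit 0,nat_lit 0,
    nat_lit 0x100000000000000000000000000000000000,nat_lit 0,nat_lit 0,
    nat_lit 0x8000400000000000000000000000000000000],[nat_lit 0x8000000000000000000000000000000000000,
    nat_lit 0x8000400000000000000000000000000000000,nat_lit 0,nat_lit 0,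
    nat_lit 0x481000000000000000000000000000000000,nat_lit 0x80000000000000000000,nat_lit 0,nat_lit 0,nat_lit 0],
    [nat_lit 0,nat_lit 0,nat_lit 0,nat_lit 0,nat_lit 0,nat_lit 0,nat_lit 0,nat_lit 0,nat_lit 0],
    [nat_lit 0x1000000000000000000000,nat_lit 0x1000000000000000000000,nat_lit 0,nat_lit 0,
    nat_lit 0x1000000000000000000000,nat_lit 0x10000000000000000000,nat_lit 0x20000000000000000000,nat_lit 0,
    nat_lit 0],[nat_lit 0,nat_lit 0x1200000000000000000,nat_lit 0,nat_lit 0x1600000000000000000,nat_lit 0,nat_lit 0,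
    nat_lit 0x480000000000000000000000000000000000000000000,nat_lit 0,
    nat_lit 0x480000000000000000000000000000000000000000000],[nat_lit 0,nat_lit 0,nat_lit 0,nat_lit 0,nat_lit 0,
    nat_lit 0x8000000000000000000000000000000000000000000,nat_lit 0x8000000000000000000000000000000000000000000,
    nat_lit 0x8000000000000000000000000000000000000000000,nat_lit 0],
    [nat_lit 0x8000000000000000000000000000000000000000000,nat_lit 0x8000000000000000000000000000000000000000000,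
    nat_lit 0,nat_lit 0x210000000000000000000000000000000000000000000,
    nat_lit 0xa000000000000000000000000000000000000000000000,nat_lit 0,nat_lit 0,nat_lit 0,nat_lit 0],
    [nat_lit 0x100000000000000000000000000000000000000000000,nat_lit 0,
    nat_lit 0x100000000000000000000000000000000000000000000,nat_lit 0,nat_lit 0x6108800000000000000000000000000,
    nat_lit 0,nat_lit 0,nat_lit 0x100000000000000000000000000000000,nat_lit 0x100000000000000000000000000000000]],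
    [[nat_lit 0,nat_lit 0,nat_lit 0x10100000000000000000000000000,nat_lit 0,
    nat_lit 0x200000000000000000000000000000000,nat_lit 0x200000000000000000000000000000000,
    nat_lit 0x8400000000000000000000000000000,nat_lit 0x8400000000000000000000000000000,nat_lit 0],
    [nat_lit 0x30a0000000000000000000000000000000000000000000000000000,
    nat_lit 0x2000000000000000000000000000000000000000000000000000,nat_lit 0,nat_lit 0,
    nat_lit 0x20000000000000000000000000000000000000000000000000000000,nat_lit 0,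
    nat_lit 0x10000000000000000000000000000000000000000000000000000,nat_lit 0,nat_lit 0],[nat_lit 0,nat_lit 0,
    nat_lit 0,nat_lit 0,nat_lit 0,nat_lit 0,nat_lit 0,nat_lit 0,nat_lit 0x2000000000000000000000000000000000000000],
    [nat_lit 0x2000000000000000000000000000000000000000,nat_lit 0x2000000000000000000000000000000000000000,
    nat_lit 0x2000000000000000000000000000000000000000,nat_lit 0,nat_lit 0,nat_lit 0,nat_lit 0,
    nat_lit 0x400000000000000000000000000000000000000000,nat_lit 0],[nat_lit 0,nat_lit 0,nat_lit 0,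
    nat_lit 0x800000000000000000000000000000000000000000,nat_lit 0,
    nat_lit 0x2000000000000000000000000000000000000000000,nat_lit 0,
    nat_lit 0x20000000000000000000000000000000000000000000000000000000000000,nat_lit 0],[nat_lit 0,nat_lit 0,
    nat_lit 0x1000000000000000000000000000000000000000000000000000000000000000,nat_lit 0,nat_lit 0,nat_lit 0,
    nat_lit 0x14004000000000000000000000000000000000000000000000000000000000000,
    nat_lit 0x14004000000000000000000000000000000000000000000000000000000000000,nat_lit 0],[nat_lit 0,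
    nat_lit 0x100000000000000000000000000000000000000000000000000000000000000,
    nat_lit 0x100000000000000000000000000000000000000000000000000000000000000,
    nat_lit 0x100000000000000000000000000000000000000000000000000000000000000,
    nat_lit 0x100000000000000000000000000000000000000000000000000000000000000,
    nat_lit 0x100000000000000000000000000000000000000000000000000000000000000,
    nat_lit 0x100000000000000000000000000000000000000000000000000000000000000,nat_lit 0,nat_lit 0],[nat_lit 0,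
    nat_lit 0x200000000000000000000000000000000000000000000000,nat_lit 0,nat_lit 0,nat_lit 0,
    nat_lit 0x200000000000000000000000000000000000000000000000000,
    nat_lit 0xc001b0000000000000000000000000000000000000000000000,nat_lit 0,nat_lit 0],[nat_lit 0,nat_lit 0,nat_lit 0,
    nat_lit 0x1000040000000000000000000000000000000000000000000000,
    nat_lit 0x1000040000000000000000000000000000000000000000000000,
    nat_lit 0x1000040000000000000000000000000000000000000000000000,nat_lit 0,nat_lit 0,nat_lit 0]],[[nat_lit 0,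
    nat_lit 0x600000,nat_lit 0x20000,nat_lit 0,nat_lit 0,nat_lit 0x40000,nat_lit 0,nat_lit 0,nat_lit 0],
    [nat_lit 0x12000000,nat_lit 0x12000000,nat_lit 0x80000,nat_lit 0,nat_lit 0xa0010000,nat_lit 0]]],[[[nat_lit 0,
    nat_lit 0,nat_lit 0,nat_lit 0x400000000000000000000000000000000000000000000000000000000,
    nat_lit 0x400000000000000000000000000000000000000000000000000000000,nat_lit 0,
    nat_lit 0x400000000000000000000000000000000000000000000000000000000000,nat_lit 0,nat_lit 0],[nat_lit 0,nat_lit 0,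
    nat_lit 0,nat_lit 0,nat_lit 0,nat_lit 0,nat_lit 0,nat_lit 0,nat_lit 0],[nat_lit 0,nat_lit 0,nat_lit 0,nat_lit 0,
    nat_lit 0,nat_lit 0,nat_lit 0,nat_lit 0,nat_lit 0],[nat_lit 0,nat_lit 0,nat_lit 0,nat_lit 0,nat_lit 0,nat_lit 0,
    nat_lit 0,nat_lit 0,nat_lit 0],[nat_lit 0,nat_lit 0,nat_lit 0,nat_lit 0,nat_lit 0,nat_lit 0,nat_lit 0,nat_lit 0,
    nat_lit 0],[nat_lit 0,nat_lit 0x20000000000000000,nat_lit 0,nat_lit 0,nat_lit 0,nat_lit 0,nat_lit 0,nat_lit 0,
    nat_lit 0],[nat_lit 0,nat_lit 0,nat_lit 0x80000000000000000,nat_lit 0,nat_lit 0,nat_lit 0,nat_lit 0x8000000000,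
    nat_lit 0,nat_lit 0x100000000],[nat_lit 0,nat_lit 0x4000000000000000000000000,
    nat_lit 0x80000000000000000000000000,nat_lit 0,nat_lit 0x8000000000000000000000,nat_lit 0,
    nat_lit 0x2000000000000000,nat_lit 0,nat_lit 0],[nat_lit 0,nat_lit 0,nat_lit 0,nat_lit 0,nat_lit 0,
    nat_lit 0x4000000000000000,nat_lit 0,nat_lit 0,nat_lit 0]],[[nat_lit 0,nat_lit 0,nat_lit 0,
    nat_lit 0x1000000000000000,nat_lit 0,nat_lit 0,nat_lit 0,nat_lit 0,nat_lit 0],[nat_lit 0,nat_lit 0,nat_lit 0,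
    nat_lit 0,nat_lit 0,nat_lit 0,nat_lit 0,nat_lit 0,nat_lit 0x8000000000000000000000000000000000000],[nat_lit 0,
    nat_lit 0,nat_lit 0,nat_lit 0,nat_lit 0x401000000000000000000000000000000000,nat_lit 0,nat_lit 0,nat_lit 0,
    nat_lit 0],[nat_lit 0,nat_lit 0,nat_lit 0,nat_lit 0,nat_lit 0,nat_lit 0,nat_lit 0,nat_lit 0,nat_lit 0],[nat_lit 0,
    nat_lit 0x1000000000000000000000,nat_lit 0,nat_lit 0,nat_lit 0x1000000000000000000000,nat_lit 0,nat_lit 0,
    nat_lit 0,nat_lit 0],[nat_lit 0,nat_lit 0,nat_lit 0,nat_lit 0x200000000000000000,nat_lit 0,nat_lit 0,nat_lit 0,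
    nat_lit 0,nat_lit 0],[nat_lit 0,nat_lit 0,nat_lit 0,nat_lit 0,nat_lit 0,
    nat_lit 0x8000000000000000000000000000000000000000000,nat_lit 0,
    nat_lit 0x8000000000000000000000000000000000000000000,nat_lit 0],[nat_lit 0,nat_lit 0,nat_lit 0,
    nat_lit 0x210000000000000000000000000000000000000000000,nat_lit 0,nat_lit 0,nat_lit 0,nat_lit 0,nat_lit 0],
    [nat_lit 0,nat_lit 0,nat_lit 0,nat_lit 0,nat_lit 0x6000000000000000000000000000000,nat_lit 0,nat_lit 0,nat_lit 0,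
    nat_lit 0]],[[nat_lit 0,nat_lit 0,nat_lit 0,nat_lit 0,nat_lit 0x200000000000000000000000000000000,
    nat_lit 0x200000000000000000000000000000000,nat_lit 0,nat_lit 0,nat_lit 0],
    [nat_lit 0x20000000000000000000000000000000000000000000000000000,
    nat_lit 0x2000000000000000000000000000000000000000000000000000,nat_lit 0,nat_lit 0,nat_lit 0,nat_lit 0,nat_lit 0,
    nat_lit 0,nat_lit 0],[nat_lit 0,nat_lit 0,nat_lit 0,nat_lit 0,nat_lit 0,nat_lit 0,nat_lit 0,nat_lit 0,nat_lit 0],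
    [nat_lit 0x2000000000000000000000000000000000000000,nat_lit 0,nat_lit 0,nat_lit 0,nat_lit 0,nat_lit 0,nat_lit 0,
    nat_lit 0,nat_lit 0],[nat_lit 0,nat_lit 0,nat_lit 0,nat_lit 0x800000000000000000000000000000000000000000,
    nat_lit 0,nat_lit 0,nat_lit 0,nat_lit 0,nat_lit 0],[nat_lit 0,nat_lit 0,nat_lit 0,nat_lit 0,nat_lit 0,nat_lit 0,
    nat_lit 0,nat_lit 0,nat_lit 0],[nat_lit 0,nat_lit 0,nat_lit 0,nat_lit 0,nat_lit 0,nat_lit 0,nat_lit 0,nat_lit 0,
    nat_lit 0],[nat_lit 0,nat_lit 0,nat_lit 0,nat_lit 0,nat_lit 0,nat_lit 0,nat_lit 0,nat_lit 0,nat_lit 0],[nat_lit 0,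
    nat_lit 0,nat_lit 0,nat_lit 0,nat_lit 0,nat_lit 0,nat_lit 0,nat_lit 0,nat_lit 0]],[[nat_lit 0,nat_lit 0,nat_lit 0,
    nat_lit 0,nat_lit 0,nat_lit 0,nat_lit 0,nat_lit 0,nat_lit 0],[nat_lit 0x12000000,nat_lit 0,nat_lit 0,nat_lit 0,
    nat_lit 0x80000000,nat_lit 0]]]]
    (nat_lit 2) (nat_lit 1) (nat_lit 81)
    [[nat_lit 2,nat_lit 0x1000002,nat_lit 17,nat_lit 0x1000011,nat_lit 0x10011,nat_lit 0x1000101,nat_lit 0x10000101,
    nat_lit 0x1001,nat_lit 0x11001,nat_lit 0x1001001,nat_lit 0x10001,nat_lit 0x110001,nat_lit 0x1010001,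
    nat_lit 0x100001,nat_lit 0x1100001,nat_lit 0x1000001,nat_lit 0x2000001,nat_lit 0x11000001,nat_lit 0x10000001],
    [nat_lit 32,nat_lit 48,nat_lit 64,nat_lit 80,nat_lit 0x1030,nat_lit 0x10030,nat_lit 0x100030,nat_lit 0x1020,
    nat_lit 0x11020,nat_lit 0x10020,nat_lit 0x20020,nat_lit 0x100020,nat_lit 0x110020,nat_lit 0x1010020,nat_lit 272,
    nat_lit 0x1000110,nat_lit 0x1010,nat_lit 0x11010,nat_lit 0x21010,nat_lit 0x101010,nat_lit 0x2010,nat_lit 0x10010,
    nat_lit 0x20010,nat_lit 0x110010,nat_lit 0x1010010,nat_lit 0x100010,nat_lit 0x200010,nat_lit 0x1100010,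
    nat_lit 0x1000010,nat_lit 0x1011010,nat_lit 0x2000010,nat_lit 0x10010010],[nat_lit 0x1100,nat_lit 0x1001100,
    nat_lit 0x1010100,nat_lit 0x1100100,nat_lit 0x1000100,nat_lit 0x2000100,nat_lit 0x11000100,nat_lit 0x10000100],
    [nat_lit 0x2000,nat_lit 0x12000,nat_lit 0x102000,nat_lit 0x11000,nat_lit 0x22000,nat_lit 0x21000,nat_lit 0x111000,
    nat_lit 0x1011000,nat_lit 0x2011000,nat_lit 0x10011000,nat_lit 0x101000,nat_lit 0x201000,nat_lit 0x1101000,
    nat_lit 0x1001000,nat_lit 0x2001000],[nat_lit 0x20000,nat_lit 0x30000,nat_lit 0x120000,nat_lit 0x1020000,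
    nat_lit 0x110000,nat_lit 0x210000,nat_lit 0x1110000,nat_lit 0x1010000,nat_lit 0x2010000,nat_lit 0x11010000,
    nat_lit 0x10010000],[nat_lit 0x200000,nat_lit 0x300000,nat_lit 0x1200000,nat_lit 0x1100000,nat_lit 0x2100000,
    nat_lit 0x11100000,nat_lit 0x10100000],[nat_lit 0x2000000,nat_lit 0x3000000,nat_lit 0x12000000,
    nat_lit 0x11000000],[nat_lit 0x20000000]]
    [.c (nat_lit 1) (nat_lit 2),.c (nat_lit 0) (nat_lit 0xca528083),.c (nat_lit 0) (nat_lit 0x6300043),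
    .c (nat_lit 0) (nat_lit 0x6300043),.c (nat_lit 2) (nat_lit 0x84220062),.c (nat_lit 2) (nat_lit 0x80220803),
    .c (nat_lit 0) (nat_lit 0x318c02),.c (nat_lit 0) (nat_lit 0x318043),.c (nat_lit 2) (nat_lit 0x80230062),
    .c (nat_lit 0) (nat_lit 0x318043),.c (nat_lit 0) (nat_lit 0xc6328043),.c (nat_lit 0) (nat_lit 0xca528c83),
    .c (nat_lit 0) (nat_lit 0x6300043),.c (nat_lit 1) (nat_lit 0x802),.c (nat_lit 0) (nat_lit 0xca528c83),
    .c (nat_lit 0) (nat_lit 0x6318043),.r (nat_lit 0x9be) (nat_lit 8) [nat_lit 0x48001,nat_lit 0x2a52902061,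
    nat_lit 0x2200000061,nat_lit 0x10040001,nat_lit 0x800001],.r (nat_lit 0xd78) (nat_lit 6) [nat_lit 0x180000001,
    nat_lit 0xc000001,nat_lit 0x1000610061,nat_lit 0x30001,nat_lit 0x1000028081],.c (nat_lit 0) (nat_lit 0xc6318043),
    .c (nat_lit 2) (nat_lit 2),.r (nat_lit 0xb3f) (nat_lit 8) [nat_lit 0x39ced39841,nat_lit 0x180700041,
    nat_lit 0xc030001,nat_lit 65,nat_lit 0x600061],.c (nat_lit 7) (nat_lit 0x100040003),
    .r (nat_lit 0x7e5) (nat_lit 11) [nat_lit 0xa00061,nat_lit 0x50014000a1,nat_lit 0x14000001,nat_lit 0x5aeb55a841,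
    nat_lit 0x280b00041,nat_lit 65],.c (nat_lit 7) (nat_lit 0x104030003),
    .r (nat_lit 0x9be) (nat_lit 8) [nat_lit 0x48001,nat_lit 0x39ced01841,nat_lit 0x1284500c41,nat_lit 0x10040001,
    nat_lit 0x800001],.r (nat_lit 0x984) (nat_lit 3) [nat_lit 0x10040001,nat_lit 0x1084410c41,nat_lit 0x18c6418861,
    nat_lit 0x214a8290a1,nat_lit 0x39ced39841],.r (nat_lit 0xb3f) (nat_lit 8) [nat_lit 0x3a4eb39841,
    nat_lit 0x100500041,nat_lit 0xc030001,nat_lit 0xc0200041,nat_lit 0x80400061],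
    .r (nat_lit 0x9be) (nat_lit 8) [nat_lit 0x48001,nat_lit 0x3a4eb01841,nat_lit 0x1204300c41,nat_lit 0x10040001,
    nat_lit 0x800001],.r (nat_lit 0xd78) (nat_lit 6) [nat_lit 0x180000001,nat_lit 0xc000001,nat_lit 0x1084410c41,
    nat_lit 0x30001,nat_lit 0x114a4290a1],.r (nat_lit 0x7e6) (nat_lit 13) [nat_lit 0x1000400001,nat_lit 0x294a929062,
    nat_lit 66,nat_lit 0x80300001,nat_lit 0x2110821442,nat_lit 0x294a901062],
    .r (nat_lit 0xdbe) (nat_lit 8) [nat_lit 0x1004400061,nat_lit 0x80000001],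
    .r (nat_lit 0xb3f) (nat_lit 8) [nat_lit 0x294a929041,nat_lit 0x1204310c41,nat_lit 0xc030001,nat_lit 0x1084410c41,
    nat_lit 0x18c6218861],.c (nat_lit 0) (nat_lit 0xc0028002),.c (nat_lit 0) (nat_lit 0xc6528c42),
    .c (nat_lit 0) (nat_lit 0xc6528c42),.c (nat_lit 2) (nat_lit 0x6010002),
    .r (nat_lit 0xd78) (nat_lit 6) [nat_lit 0x180000001,nat_lit 0xc000001,nat_lit 0x1004610c41,nat_lit 0x30001,
    nat_lit 0x100a0290a1],.r (nat_lit 0x7e6) (nat_lit 13) [nat_lit 0x1000400001,nat_lit 0x28cab29062,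
    nat_lit 0xc0200042,nat_lit 0x80300001,nat_lit 0x2090a21442,nat_lit 0x28cab01062],
    .r (nat_lit 0xdbe) (nat_lit 8) [nat_lit 0x1084200061,nat_lit 0x80000001],
    .r (nat_lit 0xb3f) (nat_lit 8) [nat_lit 0x3ace939841,nat_lit 0x80300041,nat_lit 0xc030001,nat_lit 0x140400041,
    nat_lit 0x100200061],.c (nat_lit 0) (nat_lit 0x6300043),.r (nat_lit 0xe45) (nat_lit 15) [nat_lit 0xc0200001,
    nat_lit 0x80000001,nat_lit 0x1100000001,nat_lit 0x4000001,nat_lit 0x80300041],.c (nat_lit 2) (nat_lit 0x84220862),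
    .c (nat_lit 0) (nat_lit 0x6300043),.c (nat_lit 0) (nat_lit 0x6300c43),
    .r (nat_lit 0x982) (nat_lit 3) [nat_lit 0x10040001,nat_lit 0x2000800001,nat_lit 0x2800000001,nat_lit 0x1800500081,
    nat_lit 0x1a5254a0a1],.c (nat_lit 0) (nat_lit 0x6300c43),.c (nat_lit 0) (nat_lit 0x80020003),
    .c (nat_lit 0) (nat_lit 0xc6018002),.r (nat_lit 0xb3f) (nat_lit 8) [nat_lit 0x19ce539861,nat_lit 0x2180200061,
    nat_lit 0xc030001,nat_lit 0x2000800061,nat_lit 0x2800300041],.c (nat_lit 0) (nat_lit 0x18002),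
    .c (nat_lit 0) (nat_lit 0xca518c42),.c (nat_lit 0) (nat_lit 0xca518c42),
    .r (nat_lit 0x982) (nat_lit 3) [nat_lit 0x10040001,nat_lit 0x2000800001,nat_lit 0x2800000001,nat_lit 0x19405290a1,
    nat_lit 0x1952529081],.c (nat_lit 2) (nat_lit 0x80220003),.r (nat_lit 0xdbe) (nat_lit 8) [nat_lit 65,
    nat_lit 0x80000001],.r (nat_lit 0x7e7) (nat_lit 8) [nat_lit 0x2004000061,nat_lit 0x38ca318841,nat_lit 0x80000001,
    nat_lit 0x2800000041,nat_lit 0x200001,nat_lit 0x2004010061],.c (nat_lit 0) (nat_lit 0x6518c42),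
    .c (nat_lit 0) (nat_lit 0x6518c42),.c (nat_lit 4) (nat_lit 2),.r (nat_lit 0xd78) (nat_lit 6) [nat_lit 0x180000001,
    nat_lit 0xc000001,nat_lit 0x10c4810c41,nat_lit 0x30001,nat_lit 0x110a5290a1],
    .r (nat_lit 0xdbe) (nat_lit 8) [nat_lit 0x1104000061,nat_lit 0x80000001],.c (nat_lit 0) (nat_lit 0x318043),
    .r (nat_lit 0x7e6) (nat_lit 13) [nat_lit 0x1000400001,nat_lit 0x280ad29062,nat_lit 0x140400042,nat_lit 0x80300001,
    nat_lit 0x2010c21442,nat_lit 0x280ad01062],.r (nat_lit 0xe45) (nat_lit 15) [nat_lit 0xc0200001,nat_lit 0x80000001,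
    nat_lit 0x1100000001,nat_lit 0x4000001,nat_lit 65],.c (nat_lit 2) (nat_lit 0x80230862),
    .c (nat_lit 0) (nat_lit 0x318043),.r (nat_lit 0xdbe) (nat_lit 8) [nat_lit 0x8210c41,nat_lit 0x80000001],
    .c (nat_lit 0) (nat_lit 0x6000002),.c (nat_lit 0) (nat_lit 0x318c43),
    .r (nat_lit 0x982) (nat_lit 3) [nat_lit 0x10040001,nat_lit 0x2000800001,nat_lit 0x2800000001,nat_lit 0x1940000081,
    nat_lit 0x195294a0a1],.c (nat_lit 0) (nat_lit 0x318c43),.c (nat_lit 0) (nat_lit 0x88000003),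
    .r (nat_lit 0xb3f) (nat_lit 8) [nat_lit 0x194e739861,nat_lit 0x2200000061,nat_lit 0xc030001,nat_lit 0x2080600061,
    nat_lit 0x28c0000041],.c (nat_lit 5) (nat_lit 2),.r (nat_lit 0x7e8) (nat_lit 10) [nat_lit 65,nat_lit 0x180000001,
    nat_lit 0x3198631c41,nat_lit 0x600001,nat_lit 0x39ce701861,nat_lit 0x3000000001],
    .c (nat_lit 0) (nat_lit 0xca528c83),.c (nat_lit 0) (nat_lit 0xca528083),.c (nat_lit 0) (nat_lit 0xc6328c43),
    .c (nat_lit 0) (nat_lit 0xca529483),.c (nat_lit 0) (nat_lit 0xca529483),.c (nat_lit 0) (nat_lit 0x6318043),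
    .r (nat_lit 0x984) (nat_lit 3) [nat_lit 0x10040001,nat_lit 0x2000800061,nat_lit 0x2800000041,nat_lit 129,
    nat_lit 0x2a5294a061],.r (nat_lit 0xdbe) (nat_lit 8) [nat_lit 0x1088210c41,nat_lit 0x80000001],
    .c (nat_lit 0) (nat_lit 0xc6318043),.c (nat_lit 6) (nat_lit 2),.r (nat_lit 0xb6f) (nat_lit 3) [nat_lit 0xc000061,
    nat_lit 0x318cc31c41,nat_lit 0x30041,nat_lit 0x39ce739861,nat_lit 0x3b5ad6b061],
    .c (nat_lit 0) (nat_lit 0xca529483),.c (nat_lit 0) (nat_lit 0x6318c43),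
    .r (nat_lit 0x9be) (nat_lit 8) [nat_lit 0x48001,nat_lit 0x2a5291a061,nat_lit 0x2200018061,nat_lit 0x10040001,
    nat_lit 0x800001],.r (nat_lit 0xd78) (nat_lit 6) [nat_lit 0x180000001,nat_lit 0xc000001,nat_lit 0x1000600061,
    nat_lit 0x30001,nat_lit 0x1000000081],.c (nat_lit 0) (nat_lit 0xc6318c43),.c (nat_lit 7) (nat_lit 2),
    .r (nat_lit 0xb3f) (nat_lit 8) [nat_lit 0x3b5ad6b062,nat_lit 0x3300000062,nat_lit 0xc030001,nat_lit 0x3000c00062,
    nat_lit 0x3800000042],.r (nat_lit 0x7e9) (nat_lit 11) [nat_lit 0x2800000041,nat_lit 0x1000000081,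
    nat_lit 0x14000001,nat_lit 0x3aeab5a861,nat_lit 0x2280000061,nat_lit 0x2000a00061],
    .r (nat_lit 0xb3f) (nat_lit 8) [nat_lit 0x29ce739861,nat_lit 0x1180000061,nat_lit 0xc030001,nat_lit 0x1000600061,
    nat_lit 0x1800000041],.c (nat_lit 8) (nat_lit 2)]]

/-- nodes -/
noncomputable def rD8k_20_14 : List RJ :=
  [.l (nat_lit 15) (nat_lit 0x13b0) (nat_lit 4) (nat_lit 0x8ab000008ab0000086d000008ad000008ba000008ba000008d8000008d80000093600000aae00000a4300000a430000088d0000088d000008260000093a) (nat_lit 0x203000002030000020100000241000001f4000001f4000001d6000001d600000000000001780000006b0000006b00000221000002210000017400000288)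
    (nat_lit 0xd881c7835506c40d6e1a943a8867f06921c646080b700b50140039b86230d501b1036d066a0d7e192c3b286911156276442007a00c101dd836e85b70cd41b1036c062c0d7a19241f8868f121a199438b08020d70193036e86670db41aa835606d80d461ae41a486d711be1c6c42105c20d181be03a586390c961a9435c86490d8c1b1837f06fa16742b403f1881d0d0a1a643a306320d7e1adc35186bd0d8c1b1837406e411c021d842787250d0619a43ce06300d2219fc36b868f0dc81be82e7070214041d7044e88470d721adc3b206660eca1d441a483f10dd01bf838105ce11c01d805b48b130c9a1adc3bf05fc13b21c6438d866510ec2b403b0075c0d201ef846588c30ed210643a3071811560d2446f890d11c02ce84700a0212341a405218a430de2223430508260f402dc02e108020e4a207458988471486230c4ec0b6c104420887188957108030404210716109e1f8c5b4889d1486232c42209d81044208852c857f0eec140037c064c0cd21a6435b86b7111a10644110822115020001a486050c1016a034606b80d061a1432686b90de21da441108220e7422a038c86050b6e188c31c86670c6018c82fe0666104c1c602bf89570c0a18143ca04d00dba1cdc3a586dd0f381d183bf07640c141d1852c8e310e320d243a80794)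
    (nat_lit 0xd884ec09d813b027604ec09d813b027604ec09d813b027604ec09d813b00e3c1b109d813b027604ec09d813b027604ec09d813b027604ec09d813b00d541b6836c13b027604ec09d813b027604ec09d813b027604ec09d813b00d8819a831606d827604ec09d813b027604ec09d813b027604ec09d813b00d6e1afc35e86a30d8c4ec09d813b027604ec09d813b027604ec09d813b00d4a192c32486b90d8c1b189d813b027604ec09d813b027604ec09d813b00ea21d941f883490dfc1ba02e713b027604ec09d813b027604ec09d813b00cfe1a4434786d70df41b9038105ce27604ec09d813b027604ec09d813b0069222ac48688df132823804ed08e00d204ec09d813b027604ec09d813b00e322764332871b15a021d83ae07600f7c1a409d813b027604ec09d813b01820210038b08420fc6213c44e8a5f1196290c4ec13b027604ec09d813b016e01e8040105c2103a1c9442389b31186290c5b609d827604ec09d813b00b50182035c068c0d0a1a0c35c864d0ed21bc4411082211504ec09d813b00a001dd832606f80d3219a435b86b7083222344110822100022a09d813b00e6e1b7436e874b0e8c1e703b2077e0e8c18285b58a5906921c643ca13b00c4616dc33386390c6418c033305fc0e3020984ab857f0c0a18142680794)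
    (nat_lit 4) (nat_lit 101)
    [[nat_lit 2,nat_lit 18,nat_lit 0x10000002,nat_lit 17,nat_lit 34,nat_lit 33,nat_lit 273,nat_lit 0x1011,
    nat_lit 0x10011,nat_lit 0x100011,nat_lit 0x1000011,nat_lit 0x10000011,nat_lit 0x1001,nat_lit 0x1002,
    nat_lit 0x10001001,nat_lit 0x11001,nat_lit 0x1001001,nat_lit 0x10001,nat_lit 0x20001,nat_lit 0x1010001,
    nat_lit 0x100001,nat_lit 0x1000001,nat_lit 0x1000002,nat_lit 0x1000101,nat_lit 0x11000001,nat_lit 0x10000001,
    nat_lit 0x10010001],[nat_lit 32,nat_lit 272,nat_lit 0x1010,nat_lit 0x10001010,nat_lit 0x2010,nat_lit 0x10010,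
    nat_lit 0x20010,nat_lit 0x1010010,nat_lit 0x10010010,nat_lit 0x100010,nat_lit 0x101010,nat_lit 0x1100010,
    nat_lit 0x10100010,nat_lit 0x1000010,nat_lit 0x11000010,nat_lit 0x10000010,nat_lit 0x20000010],[nat_lit 0x1100,
    nat_lit 0x1010100,nat_lit 0x100100,nat_lit 0x1000100],[nat_lit 0x2000,nat_lit 0x11000,nat_lit 0x1001000,
    nat_lit 0x10001000,nat_lit 0x10011000,nat_lit 0x11011000,nat_lit 0x10101000,nat_lit 0x11001000,
    nat_lit 0x20001000],[nat_lit 0x20000,nat_lit 0x30000,nat_lit 0x1020000,nat_lit 0x110000,nat_lit 0x1010000,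
    nat_lit 0x1110000,nat_lit 0x2010000,nat_lit 0x11010000,nat_lit 0x10010000],[nat_lit 0x200000,nat_lit 0x1100000,
    nat_lit 0x2100000,nat_lit 0x10100000],[nat_lit 0x2000000,nat_lit 0x11000000],[nat_lit 0x20000000]]
    [.c (nat_lit 1) (nat_lit 2),.c (nat_lit 0) (nat_lit 0x3333223),.r (nat_lit 0xdb7) (nat_lit 3) [nat_lit 0x2005021,
    nat_lit 0x33032231],.c (nat_lit 0) (nat_lit 0x3333023),.r (nat_lit 0x9d6) (nat_lit 6) [nat_lit 0x44000001,
    nat_lit 0x30400001,nat_lit 0x5021,nat_lit 0x20004001,nat_lit 0x75550431],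
    .r (nat_lit 0x912) (nat_lit 11) [nat_lit 0x55553431,nat_lit 0x66000001,nat_lit 0x55523431,nat_lit 0x44a42521,
    nat_lit 0x22223341],.c (nat_lit 0) (nat_lit 0x30302),.r (nat_lit 0xdb4) (nat_lit 11) [nat_lit 0x202001,
    nat_lit 0x300231],.c (nat_lit 0) (nat_lit 0x3330023),.r (nat_lit 0xdb3) (nat_lit 12) [nat_lit 0x30203021,
    nat_lit 0x20020001],.c (nat_lit 0) (nat_lit 0x3333223),.c (nat_lit 0) (nat_lit 0x3333023),
    .r (nat_lit 0xdb7) (nat_lit 3) [nat_lit 0x3021,nat_lit 0x30030231],.c (nat_lit 4) (nat_lit 0x200502),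
    .c (nat_lit 4) (nat_lit 0x200302),.c (nat_lit 4) (nat_lit 0x203302),
    .r (nat_lit 0xdb3) (nat_lit 12) [nat_lit 0x30030231,nat_lit 0x20020001],.c (nat_lit 1) (nat_lit 0x3202),
    .r (nat_lit 0xdb7) (nat_lit 3) [nat_lit 0x2053021,nat_lit 0x33020231],.c (nat_lit 0) (nat_lit 0x3330023),
    .c (nat_lit 0) (nat_lit 0x2000403),.c (nat_lit 0) (nat_lit 0x3333023),.c (nat_lit 0) (nat_lit 0x3333223),
    .c (nat_lit 0) (nat_lit 0x30302),.c (nat_lit 0) (nat_lit 0x3333023),.c (nat_lit 1) (nat_lit 514),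
    .r (nat_lit 0xdb7) (nat_lit 3) [nat_lit 0x2033021,nat_lit 0x33000231],.c (nat_lit 2) (nat_lit 2),
    .r (nat_lit 0xdb3) (nat_lit 12) [nat_lit 33,nat_lit 0x20020001],.c (nat_lit 0) (nat_lit 0x3033323),
    .r (nat_lit 0xdb4) (nat_lit 11) [nat_lit 0x202001,nat_lit 0x303231],
    .r (nat_lit 0xdbb) (nat_lit 10) [nat_lit 0x2333231,nat_lit 0x202001],.c (nat_lit 0) (nat_lit 0x3330323),
    .c (nat_lit 0) (nat_lit 0x3332323),.c (nat_lit 0) (nat_lit 0x3330023),.c (nat_lit 0) (nat_lit 0x3330323),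
    .r (nat_lit 0x1116) (nat_lit 1) [nat_lit 0x20001,nat_lit 0x22000001,nat_lit 0x200001,nat_lit 33,
    nat_lit 0x53333231],.c (nat_lit 0) (nat_lit 0x3300002),.c (nat_lit 4) (nat_lit 0x233323),
    .r (nat_lit 0xdb3) (nat_lit 12) [nat_lit 0x30200021,nat_lit 0x20020001],.c (nat_lit 0) (nat_lit 0x3333223),
    .c (nat_lit 0) (nat_lit 0x3333023),.c (nat_lit 0) (nat_lit 0x3333323),.c (nat_lit 0) (nat_lit 0x3333323),
    .c (nat_lit 0) (nat_lit 0x350002),.c (nat_lit 0) (nat_lit 0x33002),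
    .r (nat_lit 0xdb7) (nat_lit 3) [nat_lit 0x22200031,nat_lit 0x53333221],
    .r (nat_lit 0xdb4) (nat_lit 11) [nat_lit 0x202001,nat_lit 0x20320021],.c (nat_lit 4) (nat_lit 2),
    .r (nat_lit 0xdb7) (nat_lit 3) [nat_lit 0x30021,nat_lit 0x30003231],.c (nat_lit 0) (nat_lit 0x3033323),
    .r (nat_lit 0xdb7) (nat_lit 3) [nat_lit 33,nat_lit 0x30033231],.c (nat_lit 4) (nat_lit 0x203002),
    .r (nat_lit 0x1116) (nat_lit 1) [nat_lit 0x20001,nat_lit 0x22000001,nat_lit 0x200001,nat_lit 0x303231,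
    nat_lit 0x53030021],.c (nat_lit 0) (nat_lit 0x5300004),.r (nat_lit 0xdb3) (nat_lit 12) [nat_lit 0x30033231,
    nat_lit 0x20020001],.c (nat_lit 4) (nat_lit 0x200002),.c (nat_lit 5) (nat_lit 2),
    .r (nat_lit 0xdb7) (nat_lit 3) [nat_lit 0x2070021,nat_lit 0x33043231],.c (nat_lit 0) (nat_lit 0x3332323),
    .c (nat_lit 0) (nat_lit 0x2004003),.c (nat_lit 0) (nat_lit 0x3330323),
    .r (nat_lit 0xdb4) (nat_lit 11) [nat_lit 0x202001,nat_lit 33],.r (nat_lit 0x9d7) (nat_lit 6) [nat_lit 0x88000001,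
    nat_lit 0x50800001,nat_lit 0x40008001,nat_lit 0xb9959851,nat_lit 0x30050041],.c (nat_lit 0) (nat_lit 0x3330323),
    .c (nat_lit 1) (nat_lit 0x3402),.c (nat_lit 6) (nat_lit 2),.r (nat_lit 0xdbb) (nat_lit 10) [nat_lit 33,
    nat_lit 0x202001],.r (nat_lit 0xdb4) (nat_lit 11) [nat_lit 0x202001,nat_lit 0x20040022],
    .c (nat_lit 0) (nat_lit 0x2000005),.c (nat_lit 7) (nat_lit 2),.c (nat_lit 0) (nat_lit 0x3333323),
    .c (nat_lit 8) (nat_lit 2)],
    .l (nat_lit 12) (nat_lit 840) (nat_lit 4) (nat_lit 0x1a4000001a40000016f000001640000017b0000017b000001750000017500000191000001570000013a0000014f000001590000016f0000013e0000017f) (nat_lit 0x400000003500000029000000290000002f0000002f0000004d00000013000000550000006a000000350000004b0000002500000066)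
    (nat_lit 0x1a41a41d91c914621215812c0f710c14f13a17d17817f13c1a41a417f16f13620214815615710c15113a1d01cb12513916f1c90a813a16512b1c51851221890a810513f12214a0a817f1d90b80a817513b1c318311717e0dd0fa12f1190a80a820221213b12b1041be11f11212e0da12611119c1620e111513614617516515210415314c0d415b13311e0e20a819f16315612c18318514c11215314611b15b1a81650f211d1851731481581c31c515311f1461531221620f80b50d812a1d51c310c10c17e18915b0da16215b19a17e13c12d0a816e1891931570f71171220d412e12211b13219a1020ed0c410613211713a13a0fa10511e1110b51650ed12d0eb0a80df0ef17513215114f0dd0a81331260f81a810213c12e0eb0f410410b0e91cb1781191220a816212a11d10616e1040ef1240da1341191d017d12f13f0e219c0d80f20c40a80f40df14a12414c10913913c0a80a81631151c31731171930e913210911910b0c812517f0a814a19f0e11d518513218910b17514c13415a10b)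
    (nat_lit 0x1a43483483483483483483483483483483483483483483481a41a43483483483483483483483483483483483483483481d917f0a83483483483483483483483483483483483483481c916f13a0a834834834834834834834834834834834834814613616517510434834834834834834834834834834834821220212b13b1be1043483483483483483483483483483481581481c51c311f15315334834834834834834834834834812c15618518311214c1461533483483483483483483483480f715712211712e0d411b12219a34834834834834834834810c10c18917e0da15b15b16217e19a34834834834834834814f1510a80dd1261331a80f813c1020eb34834834834834813a13a1050fa11111e1650b512d0ed0a80eb34834834834817d1d013f12f19c0e20f20d80a80c40df0f41243483483481781cb1221191620a811d12a16e1060ef1040da12434834817f12514a0a80e119f1851c018913217510b13414c10b34813c1390a80a811516317319e1931171320e91191090c810b)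
    (nat_lit 5) (nat_lit 103)
    [[nat_lit 2,nat_lit 3,nat_lit 0x1000002,nat_lit 0x2000002,nat_lit 17,nat_lit 273,nat_lit 0x1011,nat_lit 0x100011,
    nat_lit 0x1000011,nat_lit 33,nat_lit 257,nat_lit 0x1000101,nat_lit 513,nat_lit 0x1000201,nat_lit 0x10101,
    nat_lit 0x100101,nat_lit 0x1001,nat_lit 0x100001,nat_lit 0x1100001,nat_lit 0x1000001,nat_lit 0x2000001,
    nat_lit 0x3000001,nat_lit 0x2000101,nat_lit 0x10000001],[nat_lit 32,nat_lit 288,nat_lit 0x1020,nat_lit 0x10020,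
    nat_lit 272,nat_lit 528,nat_lit 0x1110,nat_lit 0x10110,nat_lit 0x100110,nat_lit 0x1000110,nat_lit 0x1010,
    nat_lit 0x11010,nat_lit 0x101010,nat_lit 0x1001010,nat_lit 0x10010,nat_lit 0x110010,nat_lit 0x100010,
    nat_lit 0x1100010,nat_lit 0x1000010,nat_lit 0x2000010],[nat_lit 512,nat_lit 768,nat_lit 0x1200,nat_lit 0x100200,
    nat_lit 0x1000200,nat_lit 0x1000300,nat_lit 0x2000200,nat_lit 0x1100,nat_lit 0x11100,nat_lit 0x101100,
    nat_lit 0x10100,nat_lit 0x20100,nat_lit 0x110100,nat_lit 0x100100,nat_lit 0x1000100,nat_lit 0x1001100,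
    nat_lit 0x1010100,nat_lit 0x1100100,nat_lit 0x2000100,nat_lit 0x3000100,nat_lit 0x10000100,nat_lit 0x10010100],
    [nat_lit 0x2000,nat_lit 0x11000,nat_lit 0x101000,nat_lit 0x201000,nat_lit 0x1001000,nat_lit 0x10001000,
    nat_lit 0x10101000],[nat_lit 0x20000,nat_lit 0x110000,nat_lit 0x10010000],[nat_lit 0x200000,nat_lit 0x300000,
    nat_lit 0x1100000],[nat_lit 0x2000000,nat_lit 0x3000000,nat_lit 0x4000000],[]]
    [.c (nat_lit 1) (nat_lit 2),.r (nat_lit 0xda8) (nat_lit 6) [nat_lit 0x38041,nat_lit 0xc038042,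
    nat_lit 0x2946011062,nat_lit 0x80010001],.r (nat_lit 0xda8) (nat_lit 6) [nat_lit 0x28041,nat_lit 0xc028042,
    nat_lit 0x2946001062,nat_lit 0x80010001],.r (nat_lit 0x9c1) (nat_lit 8) [nat_lit 0x4000000001,nat_lit 0x200020061,
    nat_lit 0x10028042,nat_lit 0x8c5202c0e2,nat_lit 0x20041],.c (nat_lit 0) (nat_lit 0x14a310887),
    .c (nat_lit 0) (nat_lit 0xc6000043),.c (nat_lit 0) (nat_lit 0x14a300885),
    .r (nat_lit 0xdb7) (nat_lit 6) [nat_lit 0x80010001,nat_lit 0xc0000861],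
    .r (nat_lit 0x1092) (nat_lit 0) [nat_lit 0x318041,nat_lit 0x1000000001,nat_lit 0x100210061,nat_lit 0x200001,
    nat_lit 0x310041],.r (nat_lit 0xdb7) (nat_lit 6) [nat_lit 0x80010001,nat_lit 0x18c0200861],
    .c (nat_lit 0) (nat_lit 0xc6018043),.r (nat_lit 0xdb4) (nat_lit 13) [nat_lit 0x200001,nat_lit 0x300861],
    .c (nat_lit 1) (nat_lit 0x300802),.r (nat_lit 0xda8) (nat_lit 6) [nat_lit 0x6018041,nat_lit 0x8018042,
    nat_lit 0x2940019062,nat_lit 0x80010001],.c (nat_lit 0) (nat_lit 0xa300c04),.c (nat_lit 0) (nat_lit 0x6018043),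
    .c (nat_lit 0) (nat_lit 0x14a328885),.c (nat_lit 0) (nat_lit 0x8a328887),
    .r (nat_lit 0x1092) (nat_lit 0) [nat_lit 0x1800018041,nat_lit 0x1000000001,nat_lit 0x1100010061,nat_lit 0x200001,
    nat_lit 0x1800010041],.c (nat_lit 1) (nat_lit 0x802),.r (nat_lit 0xda8) (nat_lit 6) [nat_lit 0x18041,
    nat_lit 0xc018042,nat_lit 0x2946019062,nat_lit 0x80010001],.r (nat_lit 0x9c1) (nat_lit 8) [nat_lit 0x4000000001,
    nat_lit 0x200010061,nat_lit 0x10018042,nat_lit 0x8c5205c0e2,nat_lit 0x30041],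
    .r (nat_lit 0x9c2) (nat_lit 6) [nat_lit 0xc018041,nat_lit 0x7bca04b8e1,nat_lit 0x6050081,nat_lit 0x7000000001,
    nat_lit 0x6028081],.r (nat_lit 0xdbb) (nat_lit 6) [nat_lit 0x1080010061,nat_lit 0x200001],
    .c (nat_lit 2) (nat_lit 2),.r (nat_lit 0xdb7) (nat_lit 11) [nat_lit 0x80010001,nat_lit 0x18c0218861],
    .r (nat_lit 0xeef) (nat_lit 6) [nat_lit 0x2000500041,nat_lit 0x400061,nat_lit 65,nat_lit 0x2200021441,
    nat_lit 0x2940029061],.r (nat_lit 0x1116) (nat_lit 10) [nat_lit 0x20c6500042,nat_lit 0x80000001,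
    nat_lit 0x84400062,nat_lit 0x80010001,nat_lit 0x2ac6029062],.c (nat_lit 0) (nat_lit 0xc6220c47),
    .c (nat_lit 0) (nat_lit 0x14a411487),.c (nat_lit 0) (nat_lit 0xc6000043),
    .r (nat_lit 0x1116) (nat_lit 10) [nat_lit 0x10c6300041,nat_lit 0x80000001,nat_lit 0x84200061,nat_lit 0x80010001,
    nat_lit 0x1940018861],.r (nat_lit 0xdb7) (nat_lit 11) [nat_lit 0x80010001,nat_lit 0xc0018861],
    .c (nat_lit 0) (nat_lit 0xc6000c43),.c (nat_lit 0) (nat_lit 0x14a300885),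
    .r (nat_lit 0xdb4) (nat_lit 13) [nat_lit 0x200001,nat_lit 0x1000300041],
    .r (nat_lit 0xeef) (nat_lit 6) [nat_lit 0x1000300041,nat_lit 0x1000200061,nat_lit 0x1800200041,
    nat_lit 0x1200221441,nat_lit 0x1940329061],.c (nat_lit 0) (nat_lit 0x14a300c85),
    .r (nat_lit 0xdbb) (nat_lit 6) [nat_lit 0x1000300041,nat_lit 0x200001],
    .r (nat_lit 0x1116) (nat_lit 10) [nat_lit 0x10c6300042,nat_lit 0x80000001,nat_lit 0x1084200062,nat_lit 0x80010001,
    nat_lit 0x1ac6329062],.c (nat_lit 2) (nat_lit 0xc0010002),.r (nat_lit 0xdb7) (nat_lit 6) [nat_lit 0x80010001,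
    nat_lit 0xc0018861],.c (nat_lit 0) (nat_lit 0x14a311487),.r (nat_lit 0x1092) (nat_lit 0) [nat_lit 0x300041,
    nat_lit 0x1000000001,nat_lit 0x100200061,nat_lit 0x200001,nat_lit 0x320041],.c (nat_lit 3) (nat_lit 2),
    .c (nat_lit 0) (nat_lit 0xc6218c43),.c (nat_lit 0) (nat_lit 0xc6218c43),.c (nat_lit 0) (nat_lit 0x8a429487),
    .c (nat_lit 1) (nat_lit 0x301002),.r (nat_lit 0xdb4) (nat_lit 13) [nat_lit 0x200001,nat_lit 0x4318861],
    .r (nat_lit 0xda8) (nat_lit 6) [nat_lit 0x6000041,nat_lit 0x8000042,nat_lit 0x2940029062,nat_lit 0x80010001],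
    .c (nat_lit 0) (nat_lit 0xc6218c43),.r (nat_lit 0x1092) (nat_lit 0) [nat_lit 0x1800318861,nat_lit 0x1000000001,
    nat_lit 0x1100210c41,nat_lit 0x200001,nat_lit 0x1800310861],.c (nat_lit 0) (nat_lit 0x6218c43),
    .c (nat_lit 0) (nat_lit 0x4200003),.c (nat_lit 0) (nat_lit 0xce318c42),
    .r (nat_lit 0x1116) (nat_lit 10) [nat_lit 0xc6000041,nat_lit 0x80000001,nat_lit 0x1084000061,nat_lit 0x80010001,
    nat_lit 0x140318861],.c (nat_lit 0) (nat_lit 0x106218c47),.c (nat_lit 0) (nat_lit 0xc6018c43),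
    .c (nat_lit 0) (nat_lit 0xc6000c43),.c (nat_lit 0) (nat_lit 0x6000002),.c (nat_lit 0) (nat_lit 0x6018c43),
    .r (nat_lit 0xdb4) (nat_lit 13) [nat_lit 0x200001,nat_lit 0x318861],
    .r (nat_lit 0x9c2) (nat_lit 6) [nat_lit 0xc000041,nat_lit 0x7bca07b8e1,nat_lit 0x6070081,nat_lit 0x7000000001,
    nat_lit 0x6000081],.r (nat_lit 0x1116) (nat_lit 10) [nat_lit 0x1000000061,nat_lit 0x80000001,nat_lit 65,
    nat_lit 0x80010001,nat_lit 0x19c6318841],.c (nat_lit 0) (nat_lit 0xd2518c46),.c (nat_lit 4) (nat_lit 2),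
    .r (nat_lit 0xdbb) (nat_lit 1) [nat_lit 65,nat_lit 0x200001],.c (nat_lit 0) (nat_lit 0xa328885),
    .r (nat_lit 0xeef) (nat_lit 6) [nat_lit 65,nat_lit 0x2000000061,nat_lit 0x2800400041,nat_lit 0x200421441,
    nat_lit 0x140529061],.c (nat_lit 0) (nat_lit 0x14a329487),.r (nat_lit 0xdbe) (nat_lit 13) [nat_lit 65,
    nat_lit 0x80010001],.c (nat_lit 0) (nat_lit 0xc0000002),.c (nat_lit 5) (nat_lit 2),
    .r (nat_lit 0xdbb) (nat_lit 6) [nat_lit 65,nat_lit 0x200001],.c (nat_lit 0) (nat_lit 0x156329486),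
    .c (nat_lit 6) (nat_lit 2),.r (nat_lit 0xfb8) (nat_lit 6) [nat_lit 65,nat_lit 0x3800600041,nat_lit 0x3000000061,
    nat_lit 0x300631c41,nat_lit 0x1c0739861],.c (nat_lit 0) (nat_lit 0x8a329487),.c (nat_lit 7) (nat_lit 2),
    .r (nat_lit 0xda8) (nat_lit 6) [nat_lit 65,nat_lit 0xc000042,nat_lit 0x2946029062,nat_lit 0x80010001],
    .r (nat_lit 0x9c1) (nat_lit 8) [nat_lit 0x4000000001,nat_lit 0x200000061,nat_lit 0x10000042,nat_lit 0x8c5208c0e2,
    nat_lit 0x40041]]]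

/-- nodes -/
noncomputable def rD8k_20_15 : List RJ :=
  [.l (nat_lit 16) (nat_lit 0x30c0) (nat_lit 4) (nat_lit 0x16620000166200001655000016550000164d00001483000014bf000014bf00001173000015830000185c0000185c00001ac600001ac6000016a3000016a3) (nat_lit 0x4640000046400000471000004710000064300000479000006070000060700000543000009530000026a0000026a00000000000000000000042300000423)
    (nat_lit 0x12181232112b11f1101f1097105b105b11170dab107e106c1a5e16e4123f0ffd11fe121811bd11f10f6911e911ad11ad10fd0d9110300fea19dc1662123f106511f111f111e411e40ec012100fcc110415200bb013eb140d182f1a1d12180eb811bd112b0ff011e40f1811dc104e0f54132c0c081cb31cd516a318911384123211e9109711dc1210110413c81140114008200cfa11a711c9164d0d8512f011dc0f69101f0f180ec00e4011040e7c0e7c10e80b301219121912e314831060106011ad105b0f5411040e7c11400eb80eb80f7c0b6c125510ad14bf14bf109c123c11ad105b104e0fcc0e7c11400eb80eb80f0c0b6c123b10ad14bf12c1100012080d910dab0c080bb00b300cfa0b6c0b6c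0dd8082011070f791007118d0d500d5010fd1117132c152010e808200f0c0f7c10400dd8158713190cb3131514ec14ec0fea106c1cd5140d121911c910ad10ad13190f79186015f214d015ee14411d091030107e1cb313eb121911a7123b1255158711071ace18601724185c13b71c7f166216e418911a1d14830d8512c114bf1315118d185c15ee128015ea1a1d17db19dc1a5e16a3182f12e3164d14bf14bf0cb31007172414d01ac6128018e516a310650ffd12320eb8106011dc1208123c14ec0d501c7f1d0916a317db0e841280123f123f13841218106012f01000109c14ec0d5013b7144118e51a1d124c0e84)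
    (nat_lit 0x121830c030c030c030c030c030c030c030c030c030c030c030c030c030c030c01232121830c030c030c030c030c030c030c030c030c030c030c030c030c030c0112b11bd11e430c030c030c030c030c030c030c030c030c030c030c030c030c011f111f111e411e430c030c030c030c030c030c030c030c030c030c030c030c0101f0f690ec00f18110430c030c030c030c030c030c030c030c030c030c030c0109711e9121011dc13c8110430c030c030c030c030c030c030c030c030c030c0105b11ad0fcc104e11400e7c0eb830c030c030c030c030c030c030c030c030c0105b11ad11040f5411400e7c0eb80eb830c030c030c030c030c030c030c030c0111710fd1520132c082010e80f7c0f0c0dd830c030c030c030c030c030c030c00dab0d910bb00c080cfa0b300b6c0b6c08200dd830c030c030c030c030c030c0107e103013eb1cb311a712191255123b11071587186030c030c030c030c030c0106c0fea140d1cd511c9121910ad10ad0f79131915f2186030c030c030c030c01a5e19dc182f16a3164d12e314bf14bf10070cb314d01724128030c030c030c016e416621a1d18910d85148314bf12c1118d131515ee185c15ea128030c030c0123f123f1218138412f01060109c10000d5014ec144113b71a1d18e50e8430c00ffd10650eb8123211dc1060123c12080d5014ec1d091c7f17db16a312800e84)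
    (nat_lit 5) (nat_lit 81)
    [[nat_lit 2,nat_lit 3,nat_lit 0x1001,nat_lit 0x2001,nat_lit 0x11001,nat_lit 0x101001,nat_lit 0x1001001,
    nat_lit 0x10001001,nat_lit 0x10001,nat_lit 0x1010001,nat_lit 0x110001,nat_lit 0x100001,nat_lit 0x1000001,
    nat_lit 0x10000001],[nat_lit 32,nat_lit 272,nat_lit 0x1010,nat_lit 0x101010,nat_lit 0x2010,nat_lit 0x11010,
    nat_lit 0x10010,nat_lit 0x100010],[nat_lit 0x1100,nat_lit 0x101100,nat_lit 0x10100,nat_lit 0x100100,
    nat_lit 0x10000100],[nat_lit 0x2000,nat_lit 0x3000,nat_lit 0x103000,nat_lit 0x12000,nat_lit 0x102000,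
    nat_lit 0x112000,nat_lit 0x1002000,nat_lit 0x10002000,nat_lit 0x11000,nat_lit 0x21000,nat_lit 0x111000,
    nat_lit 0x1011000,nat_lit 0x10011000,nat_lit 0x101000,nat_lit 0x202000,nat_lit 0x201000,nat_lit 0x1101000,
    nat_lit 0x10101000,nat_lit 0x1001000,nat_lit 0x10001000,nat_lit 0x11001000],[nat_lit 0x20000,nat_lit 0x30000,
    nat_lit 0x120000,nat_lit 0x1020000,nat_lit 0x110000,nat_lit 0x1110000,nat_lit 0x1010000,nat_lit 0x10010000],
    [nat_lit 0x200000,nat_lit 0x1100000,nat_lit 0x10100000],[nat_lit 0x2000000,nat_lit 0x11000000],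
    [nat_lit 0x20000000]]
    [.c (nat_lit 1) (nat_lit 2),.r (nat_lit 0xda8) (nat_lit 8) [nat_lit 65,nat_lit 0x3000038042,nat_lit 0x180a511062,
    nat_lit 0x4000001],.c (nat_lit 0) (nat_lit 0x1c4d69191),.c (nat_lit 1) (nat_lit 0x6000802),
    .c (nat_lit 1) (nat_lit 0xc6001004),.c (nat_lit 0) (nat_lit 0xc0528885),
    .r (nat_lit 0x9c0) (nat_lit 6) [nat_lit 0x59ab54d1a2,nat_lit 0x940200a1,nat_lit 0xa00001,nat_lit 0xc0030081,
    nat_lit 0xc0028081],.r (nat_lit 0xdb7) (nat_lit 8) [nat_lit 0x4000001,nat_lit 0x6000861],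
    .c (nat_lit 0) (nat_lit 0x8ed69191),.r (nat_lit 0x9c0) (nat_lit 6) [nat_lit 0x1816b2a8e1,nat_lit 0x10140200a1,
    nat_lit 0xa00001,nat_lit 0x1800030081,nat_lit 0x1800028081],.c (nat_lit 0) (nat_lit 0x6528885),
    .c (nat_lit 0) (nat_lit 0xc6529085),.c (nat_lit 1) (nat_lit 0x802),.r (nat_lit 0xdb2) (nat_lit 13) [nat_lit 65,
    nat_lit 0x1088000002],.c (nat_lit 2) (nat_lit 2),.r (nat_lit 0xdb2) (nat_lit 13) [nat_lit 0x4210061,
    nat_lit 0x1088000002],.r (nat_lit 0xdac) (nat_lit 7) [nat_lit 0x200001,nat_lit 0x4010001,nat_lit 65,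
    nat_lit 0x18ca501002],.r (nat_lit 0xdb7) (nat_lit 8) [nat_lit 0x4000001,nat_lit 0x10c0000082],
    .r (nat_lit 0xdb8) (nat_lit 13) [nat_lit 0x84200061,nat_lit 0xc0010041],
    .r (nat_lit 0xdb8) (nat_lit 13) [nat_lit 0x10884000a2,nat_lit 0x18c0020082],
    .r (nat_lit 0xdac) (nat_lit 7) [nat_lit 0x200001,nat_lit 0x4010001,nat_lit 0x1880000082,nat_lit 0x18ca501002],
    .r (nat_lit 0xdbe) (nat_lit 10) [nat_lit 65,nat_lit 0x4000001],.c (nat_lit 0) (nat_lit 0x4200005),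
    .r (nat_lit 0x9c0) (nat_lit 6) [nat_lit 0x18165290c1,nat_lit 0x1014421481,nat_lit 0xa00001,nat_lit 0x18005310a1,
    nat_lit 0x18005290a1],.c (nat_lit 0) (nat_lit 0x80200005),.r (nat_lit 0xda8) (nat_lit 8) [nat_lit 0x18c05410a2,
    nat_lit 0x50c05290a4,nat_lit 0x1892529084,nat_lit 0x4000001],.r (nat_lit 0xdb8) (nat_lit 13) [nat_lit 65,
    nat_lit 0x4210061],.c (nat_lit 4) (nat_lit 2),.c (nat_lit 0) (nat_lit 0x1e4d6b591),
    .c (nat_lit 0) (nat_lit 0xcc529485),.c (nat_lit 0) (nat_lit 0x94d6b591),.c (nat_lit 0) (nat_lit 0xcc529485),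
    .c (nat_lit 0) (nat_lit 0x4318c43),.c (nat_lit 1) (nat_lit 0x6001002),
    .r (nat_lit 0xdb2) (nat_lit 13) [nat_lit 0xc0010041,nat_lit 0x1088000002],.c (nat_lit 4) (nat_lit 0xc4000004),
    .c (nat_lit 0) (nat_lit 0x284d6b591),.c (nat_lit 0) (nat_lit 0x4318c43),.c (nat_lit 1) (nat_lit 0xc6002004),
    .r (nat_lit 0xdb2) (nat_lit 13) [nat_lit 0x18c0020082,nat_lit 0x1088000002],.c (nat_lit 0) (nat_lit 0xcc529485),
    .r (nat_lit 0xda8) (nat_lit 8) [nat_lit 0x180a511061,nat_lit 0x200a529062,nat_lit 66,nat_lit 0x4000001],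
    .r (nat_lit 0x9c2) (nat_lit 12) [nat_lit 0x50d294a0a2,nat_lit 0x198a529182,nat_lit 0x28d294a0a1,nat_lit 0xe00001,
    nat_lit 0x28d29320a1],.c (nat_lit 0) (nat_lit 0xc4529485),.r (nat_lit 0xe34) (nat_lit 1) [nat_lit 0x10001,
    nat_lit 0x1000000001,nat_lit 0x4000001,nat_lit 0x180a0290a1,nat_lit 0x1008421481],
    .c (nat_lit 0) (nat_lit 0x1c4d6b591),.r (nat_lit 0xdbe) (nat_lit 8) [nat_lit 0x4000001,nat_lit 65],
    .r (nat_lit 0xdb7) (nat_lit 8) [nat_lit 0x4000001,nat_lit 0x6018861],.c (nat_lit 5) (nat_lit 2),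
    .c (nat_lit 0) (nat_lit 0x48ed6b591),.c (nat_lit 0) (nat_lit 0x186529485),.c (nat_lit 1) (nat_lit 0xc0001002),
    .c (nat_lit 0) (nat_lit 0x186529485),.c (nat_lit 0) (nat_lit 0x86529485),.c (nat_lit 0) (nat_lit 0x8ed6b591),
    .r (nat_lit 0xdbe) (nat_lit 8) [nat_lit 0x4000001,nat_lit 0x1880000082],.c (nat_lit 6) (nat_lit 2),
    .c (nat_lit 0) (nat_lit 0xc6529489),.r (nat_lit 0x1118) (nat_lit 0) [nat_lit 0x18001,nat_lit 65,
    nat_lit 0x1000018001,nat_lit 0x4010001,nat_lit 0x200001],.c (nat_lit 7) (nat_lit 2),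
    .r (nat_lit 0xdb2) (nat_lit 13) [nat_lit 0x10041,nat_lit 0x1088000002],.c (nat_lit 8) (nat_lit 2)],
    .l (nat_lit 17) (nat_lit 0x5280) (nat_lit 4) (nat_lit 0x21420000276e000028ad000028ad00002ba600002a6c000023c0000023c00000233900002339000024df000024df000022b2000021e40000241100002411) (nat_lit 0x43800000a64000002f9000002f90000013a00000000000007e6000007e60000086d0000086d000006c7000006c7000009c2000008f40000079500000795)
    (nat_lit 0xe8506db822021e4913dd08c78370413660afa85edc43ba155d0f78055b8335a19ad119b0742848ea247517b10ab18316c181414578a2bc403228170ca4029403fb22067123a8792444b825b417738a2b42e3217990c6809c486c2018380f2e8811c4230257c123a844044b68225c14e98a2b4311620c715b70e6c074901c700ca487ee43e7826ee156308c78515a28ad15360ae9814a0216014578add449be19b10e070294062b229b317b109ee853a62ee714990a9b03568228613858a74438a61bd3105506810519a21270c0a04d98418e179911430858028101bda119288c9448da17ed0dd70887828f21c2b0c5b06e08311617190d5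a0294037b414080da986d4c4d1620bd0f5408b283a921c2b145785edc7360271214e88add436a623250b8406b3028e81c720cbb842cc32fc16fa1457857d456dc18d013858a2bc36a623250b4805c2037701c720cbb85b0c41841de2140b8557438e018380de9866c4417a17ed0e39071c8433422540c6f8729440541d4a100c88774749036100e298937c4d16246d0ddc051d039f8219a0d8e86fac40541d4a0528055b83f7220470d02029404594221e0b61842cc37d61ca50c7806b6827761b1d0ca407bc032921e5d1055070383d501bae0cbb865dc363a18df1139063c0349e1a4f1033866b44ddc257c10938a6cc38561c2b0ef105be83a941d4a0d2786c742a18122c0fec866b43e78211814668c5643a9214791061065f84054202a0d2784eec2fd8150c)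
    (nat_lit 0xe8514a00a5005280294014a00a5005280294014a00a5005280294014a00a50052800db707428a5005280294014a00a5005280294014a00a5005280294014a00a50052800880891d444b85280294014a00a5005280294014a00a5005280294014a00a50052800f24891d44b68225c294014a00a5005280294014a00a5005280294014a00a500528013dd0bd885dce29d3153614a00a5005280294014a00a5005280294014a00a5005280118f0ab18515a28ad15d30a9b0a5005280294014a00a5005280294014a00a50052800dc1062d82e32188b052806ad028105280294014a00a5005280294014a00a500528009b3060502f3220c710b008a1837b41408294014a00a5005280294014a00a50052800afa8a2bc31a02b6e145789c2c464a1b530b8414a00a5005280294014a00a50052800bdb8a2bc4e2439b015ba8a744464a1b530d6605c20a5005280294014a00a500528010ee880645a88311a126f8714c48da268b0a3a06ee043345280294014a00a50052800aae8a05c30701c700cd886f4c2fda20bd0e39071c844a8219a294014a00a50052800f78065203cba19490e07082a8375c1ea80cbb865dc31be1b1d0c7814a00a50052800ab702940408e1b510528068103b6c22ca085985b0c394a1beb0d6d063c0a50052800cd687f6442301f3c0f648a33428f21d490cbf083084054202a09dd8693c2a1852800cd68819c4af826ee124f8849c38561c2b0b7d077883a941d4a0d8e8693c2458150c)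
    (nat_lit 5) (nat_lit 193)
    [[nat_lit 2,nat_lit 3,nat_lit 18,nat_lit 0x1002,nat_lit 0x10002,nat_lit 0x10000002,nat_lit 17,nat_lit 33,
    nat_lit 273,nat_lit 0x1011,nat_lit 0x10011,nat_lit 0x100011,nat_lit 0x10000011,nat_lit 0x10000012,
    nat_lit 0x10001011,nat_lit 257,nat_lit 0x1001,nat_lit 0x2001,nat_lit 0x11001,nat_lit 0x10001001,nat_lit 0x10001,
    nat_lit 0x20001,nat_lit 0x110001,nat_lit 0x10010001,nat_lit 0x1000001,nat_lit 0x1001001,nat_lit 0x10000001],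
    [nat_lit 32,nat_lit 48,nat_lit 288,nat_lit 0x1020,nat_lit 0x100020,nat_lit 0x10000020,nat_lit 272,nat_lit 0x1110,
    nat_lit 0x10001110,nat_lit 0x100110,nat_lit 0x10000110,nat_lit 0x11000110,nat_lit 0x1010,nat_lit 0x2010,
    nat_lit 0x10002010,nat_lit 0x101010,nat_lit 0x1001010,nat_lit 0x11001010,nat_lit 0x10001010,nat_lit 0x10010,
    nat_lit 0x11010,nat_lit 0x110010,nat_lit 0x11010010,nat_lit 0x10010010,nat_lit 0x10020010,nat_lit 0x100010,
    nat_lit 0x200010,nat_lit 0x10100010,nat_lit 0x10110010,nat_lit 0x1000010,nat_lit 0x11000010,nat_lit 0x1000110,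
    nat_lit 0x10000010,nat_lit 0x20000010,nat_lit 0x20001010],[nat_lit 512,nat_lit 0x1000200,nat_lit 0x1100,
    nat_lit 0x2100,nat_lit 0x11100,nat_lit 0x1001100,nat_lit 0x10100,nat_lit 0x110100,nat_lit 0x100100,
    nat_lit 0x10000100,nat_lit 0x11000100],[nat_lit 0x2000,nat_lit 0x3000,nat_lit 0x11000,nat_lit 0x10011000,
    nat_lit 0x10001000,nat_lit 0x20001000],[nat_lit 0x20000,nat_lit 0x30000,nat_lit 0x40000,nat_lit 0x120000,
    nat_lit 0x1020000,nat_lit 0x10020000,nat_lit 0x110000,nat_lit 0x10120000,nat_lit 0x1110000,nat_lit 0x10110000,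
    nat_lit 0x1010000,nat_lit 0x11010000,nat_lit 0x10010000,nat_lit 0x20010000],[],[nat_lit 0x2000000,
    nat_lit 0x11000000],[nat_lit 0x20000000]]
    [.c (nat_lit 1) (nat_lit 2),.c (nat_lit 0) (nat_lit 0x1ce73c8c9),.c (nat_lit 0) (nat_lit 0xc6319843),
    .c (nat_lit 0) (nat_lit 0x1ce7128c9),.c (nat_lit 5) (nat_lit 0x4001402),.c (nat_lit 0) (nat_lit 0x1ce73a8c9),
    .c (nat_lit 0) (nat_lit 0xc6319843),.r (nat_lit 0xd79) (nat_lit 13) [nat_lit 0x10000001,nat_lit 0x4000040001,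
    nat_lit 0x290a529061,nat_lit 0x848001,nat_lit 129],.r (nat_lit 0xdb4) (nat_lit 10) [nat_lit 0x1000000001,
    nat_lit 0x218041],.c (nat_lit 0) (nat_lit 0xc6301043),.c (nat_lit 0) (nat_lit 0xc0318843),
    .c (nat_lit 5) (nat_lit 0x4318043),.c (nat_lit 0) (nat_lit 0xc6319043),.c (nat_lit 0) (nat_lit 0xc6319043),
    .c (nat_lit 0) (nat_lit 0xc6300843),.r (nat_lit 0xdbb) (nat_lit 10) [nat_lit 0x1004010061,nat_lit 65],
    .c (nat_lit 1) (nat_lit 0x18802),.c (nat_lit 0) (nat_lit 0x1ce7508c9),.c (nat_lit 5) (nat_lit 0x4018c02),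
    .c (nat_lit 0) (nat_lit 0x1ce7108c9),.c (nat_lit 0) (nat_lit 0x1c47388c9),
    .r (nat_lit 0xdbe) (nat_lit 10) [nat_lit 0x86300861,nat_lit 0x4000001],.c (nat_lit 0) (nat_lit 0xc6000802),
    .c (nat_lit 5) (nat_lit 0x4000c02),.r (nat_lit 0xdb8) (nat_lit 10) [nat_lit 0x1000010001,nat_lit 0x18041],
    .r (nat_lit 0xdac) (nat_lit 4) [nat_lit 0x1000200001,nat_lit 0x80318041,nat_lit 0x1000000001,
    nat_lit 0x1800000861],.c (nat_lit 1) (nat_lit 0x802),.c (nat_lit 2) (nat_lit 2),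
    .r (nat_lit 0xda8) (nat_lit 14) [nat_lit 0x398e739862,nat_lit 0x39ce791864,nat_lit 0x18c6318844,
    nat_lit 0x4000001],.r (nat_lit 0x846) (nat_lit 11) [nat_lit 0x300001,nat_lit 0x2946c29061,nat_lit 0x1000200001,
    nat_lit 0x80500001,nat_lit 0x2108d21441,nat_lit 0x18c6618801],.r (nat_lit 0xd79) (nat_lit 13) [nat_lit 0x10000001,
    nat_lit 0x4000040001,nat_lit 0x290a339061,nat_lit 0x848001,nat_lit 0x520081],
    .r (nat_lit 231) (nat_lit 2) [nat_lit 0x24000001,nat_lit 0x194a529061,nat_lit 0x194a571061,nat_lit 0x58c6318901,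
    nat_lit 0x194ae29061,nat_lit 0x2a9294a0a1],.r (nat_lit 0xd79) (nat_lit 13) [nat_lit 0x10000001,
    nat_lit 0x4000040001,nat_lit 0x290a539061,nat_lit 0x848001,nat_lit 0x20081],
    .r (nat_lit 0xdbb) (nat_lit 12) [nat_lit 65,nat_lit 0x1000000001],
    .r (nat_lit 0xdb4) (nat_lit 10) [nat_lit 0x1000000001,nat_lit 65],
    .r (nat_lit 0xdac) (nat_lit 4) [nat_lit 0x1000200001,nat_lit 0x1800018861,nat_lit 0x1000000001,
    nat_lit 0x80300041],.r (nat_lit 232) (nat_lit 11) [nat_lit 0x300001,nat_lit 0xc0818861,nat_lit 0x1000200001,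
    nat_lit 0x80500001,nat_lit 0x84910c41,nat_lit 0x18c6618801],.r (nat_lit 0xdb4) (nat_lit 10) [nat_lit 0x1000000001,
    nat_lit 0x200041],.c (nat_lit 0) (nat_lit 0x84710868),.c (nat_lit 0) (nat_lit 0xc6330c49),
    .c (nat_lit 0) (nat_lit 0xc6330c45),.c (nat_lit 0) (nat_lit 0x1ce751cc9),.c (nat_lit 5) (nat_lit 0x4300c43),
    .r (nat_lit 0xdc2) (nat_lit 10) [nat_lit 0x1000010001,nat_lit 0x1800018861],
    .r (nat_lit 0x1116) (nat_lit 3) [nat_lit 0x218001,nat_lit 0x1800018861,nat_lit 0x1000010001,nat_lit 0x4000001,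
    nat_lit 0x1086310c81],.c (nat_lit 0) (nat_lit 0xc6310c45),.c (nat_lit 0) (nat_lit 0xc4318c45),
    .c (nat_lit 0) (nat_lit 0x1c4711cc9),.c (nat_lit 0) (nat_lit 0x1ce210868),
    .r (nat_lit 0xdbb) (nat_lit 10) [nat_lit 0x2004210c41,nat_lit 0x1800300861],.c (nat_lit 0) (nat_lit 0x1c4739cc9),
    .c (nat_lit 0) (nat_lit 0x28ea52968),.r (nat_lit 0xdbe) (nat_lit 10) [nat_lit 65,nat_lit 0x4000001],
    .c (nat_lit 0) (nat_lit 0x2c6318c44),.c (nat_lit 5) (nat_lit 0x4318c43),.c (nat_lit 1) (nat_lit 0x318843),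
    .r (nat_lit 0xdba) (nat_lit 10) [nat_lit 0x1000010001,nat_lit 65],
    .r (nat_lit 0xdc2) (nat_lit 10) [nat_lit 0x1000010001,nat_lit 0x1800318861],.c (nat_lit 5) (nat_lit 0xc4018c43),
    .c (nat_lit 0) (nat_lit 0xc6318c49),.c (nat_lit 0) (nat_lit 0xc6318c45),.c (nat_lit 0) (nat_lit 0x1ce711cc9),
    .c (nat_lit 3) (nat_lit 2),.c (nat_lit 0) (nat_lit 0x300002),
    .r (nat_lit 0xdbb) (nat_lit 10) [nat_lit 0x1004200061,nat_lit 0x310041],
    .r (nat_lit 0x1116) (nat_lit 3) [nat_lit 0x218001,nat_lit 0x80500041,nat_lit 0x1000010001,nat_lit 0x4000001,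
    nat_lit 0x18c66188a1],.r (nat_lit 0xdc2) (nat_lit 10) [nat_lit 0x1000010001,nat_lit 0x300041],
    .c (nat_lit 0) (nat_lit 0x318802),.r (nat_lit 0x1116) (nat_lit 3) [nat_lit 0x218001,nat_lit 65,
    nat_lit 0x1000010001,nat_lit 0x4000001,nat_lit 0x18863188a1],.c (nat_lit 0) (nat_lit 0xc6000002),
    .r (nat_lit 0xdb8) (nat_lit 10) [nat_lit 0x1000010001,nat_lit 0x1004000061],
    .r (nat_lit 0xdbb) (nat_lit 10) [nat_lit 0x1004000061,nat_lit 0x10041],.c (nat_lit 0) (nat_lit 0x300802),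
    .c (nat_lit 4) (nat_lit 2),.c (nat_lit 0) (nat_lit 0x1ce791cc9),.c (nat_lit 0) (nat_lit 0x1c4711cc9),
    .c (nat_lit 5) (nat_lit 0x4018002),.c (nat_lit 1) (nat_lit 0x19002),.c (nat_lit 0) (nat_lit 0x1ce711cc9),
    .c (nat_lit 5) (nat_lit 2),.r (nat_lit 0xda8) (nat_lit 14) [nat_lit 65,nat_lit 0x1c0060042,nat_lit 0x288a529062,
    nat_lit 0x4000001],.c (nat_lit 2) (nat_lit 0x148529483),.c (nat_lit 0) (nat_lit 0x146000004),
    .r (nat_lit 0xdbb) (nat_lit 12) [nat_lit 0x1880318861,nat_lit 0x1000000001],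
    .r (nat_lit 0xdbe) (nat_lit 10) [nat_lit 0x86318861,nat_lit 0x4000001],.c (nat_lit 0) (nat_lit 0x146000004),
    .c (nat_lit 0) (nat_lit 0xc0000002),.c (nat_lit 0) (nat_lit 0xc6300002),.c (nat_lit 0) (nat_lit 0xc0000002),
    .r (nat_lit 0xdac) (nat_lit 4) [nat_lit 0x1000200001,nat_lit 65,nat_lit 0x1000000001,nat_lit 0x1880318861],
    .r (nat_lit 0xdb4) (nat_lit 10) [nat_lit 0x1000000001,nat_lit 0x1800018861],.c (nat_lit 0) (nat_lit 0x1c4739cc9),
    .c (nat_lit 5) (nat_lit 0x4000002),.c (nat_lit 7) (nat_lit 2),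
    .r (nat_lit 0xdb8) (nat_lit 10) [nat_lit 0x1000010001,nat_lit 65],.c (nat_lit 8) (nat_lit 2)]]

/-- nodes -/
noncomputable def rD8k_20_16 : List RJ :=
  [.l (nat_lit 15) (nat_lit 0x102c) (nat_lit 4) (nat_lit 0xaa20000076200000818000007be000007bc0000086b000007b3000007b600000716000006de0000075a00000946000008760000095e000009df000009df) (nat_lit 0x34000000000000002e40000028a00000237000002e6000002ec000002ef000003c40000038c0000015c00000348000001440000022c000000c3000000c3)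
    (nat_lit 0x11842ff83df0818067823083d6062809d01c584ad075a12bc13684ef89df085c230823f04d8084810b823b0482073c0cf03600532067814d834f869f09b020602c105820ba414c82e306300678123035e04d00da814c82fa8a3708fc1ef829405820ba413602e304e406780e3033104760cf413602fa8a37085c230826c05320ae012202bb048207f00cf038d05320678164037c86f908480cf02e905d20c6815c031d057c094e0d5840105d609bc18fc4998933090418a027206300af8120832804c406780db032b846b09c8125060f893908ec1eb02e305c60c7415d828c0650067810a819e04280ce41498379840d06781c581c6048c06ac0cf0215036c07300cf030f04841170202032e8653073c13a019e033c094e0fe019e033c06780e602e1039610481dd030d861b0a641d6823b04d00bac14c8214046b072c121019e03f00c2c13b8446840d0d80256833106bc10041c6819e06570b841878311033c10041c6860f879f0a6c136826c05320c7e164029304940ee8202038d04ee102c20483cf87b30678257833d06d409bc0cf033904e4104822e040106161034205844d889b0d3e277c51b8a3712661be420689390c36194c3cf840d11361ecc48e091c0d3e277c2fa85f512661be43798c1f0c36197460f888d11361e7c3e0091c)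
    (nat_lit 0x118440b0816102c205840b0816102c205840b0816102c205840b0816102c17fc2308816102c205840b0816102c205840b0816102c205840b0816102c0f7c11f82c1102c205840b0816102c205840b0816102c205840b0816102c103013602c10582205840b0816102c205840b0816102c205840b0816102c067810902e905d20ae040b0816102c205840b0816102c205840b0816102c0f8810b829904d8091015c0816102c205840b0816102c205840b0816102c0f5811d82e305c60aec18e8328102c205840b0816102c205840b0816102c0c50120831804e4090415f02620650205840b0816102c205840b0816102c09d00e7819e033c07f0129c19e033c073040b0816102c205840b0816102c0cf00cf0246038c06780d581b6042a06780e60816102c205840b0816102c12b41b0035e06620e34200832b833c0c3c170819e102c205840b0816102c0eb414c826804760a641758235842809080e581f8033c205840b0816102c0cf00cf036a067a0678137827206720d241f8c30b0802102c40b0816102c09b414d829904d80b2018fc24a052610101dd0277071a10242058816102c13be1a7c2fa85f50df224cc4c386f30cba186c4468c1f0f3e226c48e102c13be1a7c4c788f10df224cc468840d0ca6186c206879f0f66226c48e091c)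
    (nat_lit 6) (nat_lit 141)
    [[nat_lit 0x1001,nat_lit 0x2001,nat_lit 0x11001,nat_lit 0x20001,nat_lit 0x1001001,nat_lit 0x1010001],[nat_lit 272,
    nat_lit 0x10110,nat_lit 0x10010,nat_lit 0x11010,nat_lit 0x20010,nat_lit 0x1010010,nat_lit 0x10010010,
    nat_lit 0x100010,nat_lit 0x101010,nat_lit 0x111010,nat_lit 0x1101010,nat_lit 0x10101010,nat_lit 0x110010,
    nat_lit 0x200010,nat_lit 0x1100010,nat_lit 0x10100010,nat_lit 0x10110010,nat_lit 0x11100010,nat_lit 0x20100010,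
    nat_lit 0x1000010,nat_lit 0x10000010],[nat_lit 512,nat_lit 768,nat_lit 0x400,nat_lit 0x10300,nat_lit 0x1200,
    nat_lit 0x2200,nat_lit 0x10200,nat_lit 0x11200,nat_lit 0x20200,nat_lit 0x1000200,nat_lit 0x1100,nat_lit 0x2100,
    nat_lit 0x11100,nat_lit 0x101100,nat_lit 0x1001100,nat_lit 0x102100,nat_lit 0x10100,nat_lit 0x20100,
    nat_lit 0x12100,nat_lit 0x21100,nat_lit 0x1011100,nat_lit 0x111100,nat_lit 0x110100,nat_lit 0x1010100,
    nat_lit 0x10010100,nat_lit 0x100100,nat_lit 0x10100100,nat_lit 0x1000100,nat_lit 0x10000100],[nat_lit 0x2000,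
    nat_lit 0x3000,nat_lit 0x4000,nat_lit 0x13000,nat_lit 0x103000,nat_lit 0x1003000,nat_lit 0x10003000,
    nat_lit 0x12000,nat_lit 0x22000,nat_lit 0x112000,nat_lit 0x1012000,nat_lit 0x102000,nat_lit 0x10102000,
    nat_lit 0x202000,nat_lit 0x1002000,nat_lit 0x1102000,nat_lit 0x2002000,nat_lit 0x10002000,nat_lit 0x11000,
    nat_lit 0x10012000,nat_lit 0x21000,nat_lit 0x111000,nat_lit 0x10111000,nat_lit 0x1011000,nat_lit 0x10011000,
    nat_lit 0x101000,nat_lit 0x201000,nat_lit 0x10201000,nat_lit 0x1101000,nat_lit 0x10101000,nat_lit 0x11101000,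
    nat_lit 0x1001000,nat_lit 0x11002000,nat_lit 0x2001000,nat_lit 0x11001000,nat_lit 0x10001000,nat_lit 0x20101000],
    [nat_lit 0x20000,nat_lit 0x120000,nat_lit 0x10020000,nat_lit 0x110000,nat_lit 0x10110000,nat_lit 0x1010000,
    nat_lit 0x1110000,nat_lit 0x10010000],[nat_lit 0x200000,nat_lit 0x1200000,nat_lit 0x10200000,nat_lit 0x1100000,
    nat_lit 0x10100000,nat_lit 0x20200000,nat_lit 0x11100000],[nat_lit 0x2000000,nat_lit 0x11000000],[]]
    [.c (nat_lit 0) (nat_lit 0x2104102248),.c (nat_lit 0) (nat_lit 0x2104102244),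
    .c (nat_lit 0) (nat_lit 0x2100103248),.c (nat_lit 2) (nat_lit 0x2004002005),.c (nat_lit 0) (nat_lit 0x2104100248),
    .c (nat_lit 0) (nat_lit 0x3003004),.c (nat_lit 0) (nat_lit 0x2000080005),
    .r (nat_lit 0xcb0) (nat_lit 2) [nat_lit 0x8010a000242,nat_lit 0x80104180242,nat_lit 0x180180000342,
    nat_lit 0x1472491cc102,nat_lit 0xc0085000202],.c (nat_lit 0) (nat_lit 0x2002000005),
    .c (nat_lit 2) (nat_lit 0x20c00c3105),.r (nat_lit 0xcb0) (nat_lit 2) [nat_lit 0x80206000242,nat_lit 0x80200180242,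
    nat_lit 0x180307000342,nat_lit 0x1472c71cc102,nat_lit 0xc00c0000202],
    .r (nat_lit 0xd25) (nat_lit 12) [nat_lit 0xc7149250242,nat_lit 0x82200000241,nat_lit 0xc2140000201,
    nat_lit 0xc2140200202,nat_lit 0x83140000202],.r (nat_lit 0x9a4) (nat_lit 7) [nat_lit 0x86100000242,
    nat_lit 0xc0140000201,nat_lit 0xc0140180202,nat_lit 0x800c0000102,nat_lit 0x100386000442],
    .c (nat_lit 0) (nat_lit 0x2080000005),.c (nat_lit 2) (nat_lit 0x20030c3105),.c (nat_lit 2) (nat_lit 0x40000c3105),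
    .c (nat_lit 0) (nat_lit 0x2082144),.c (nat_lit 0) (nat_lit 0x2080144),
    .r (nat_lit 0xcb0) (nat_lit 2) [nat_lit 0x84106000242,nat_lit 0x84100180242,nat_lit 0x186187000342,
    nat_lit 0x1492471cc102,nat_lit 0xc5080000202],.r (nat_lit 0xcb0) (nat_lit 2) [nat_lit 0x88006000242,
    nat_lit 0x88000180242,nat_lit 0x18c007000342,nat_lit 0x14b1c71cc102,nat_lit 0xc9180000202],
    .r (nat_lit 0xd25) (nat_lit 12) [nat_lit 0xc3249250242,nat_lit 0x86100000241,nat_lit 0xc3000000201,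
    nat_lit 0xc3000200202,nat_lit 0x87000000202],.r (nat_lit 0x9a4) (nat_lit 7) [nat_lit 0x8a000000242,
    nat_lit 0xc5000000201,nat_lit 0xc5000180202,nat_lit 0x83000000102,nat_lit 0x108186000442],
    .r (nat_lit 0xd25) (nat_lit 12) [nat_lit 0x1cb349250202,nat_lit 0xc3000000201,nat_lit 0x86100000241,
    nat_lit 0x86100200242,nat_lit 0x182100000242],.r (nat_lit 0xcb0) (nat_lit 2) [nat_lit 0xc5006000202,
    nat_lit 0xc5000180202,nat_lit 0x7007000302,nat_lit 0xc51c71cc142,nat_lit 0x84180000242],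
    .r (nat_lit 0x808) (nat_lit 1) [nat_lit 0xc3000000202,nat_lit 0x84000000241,nat_lit 0x84000080242,
    nat_lit 0x82000000142,nat_lit 0xc5002000202,nat_lit 0xc50c30c4102],
    .r (nat_lit 0xd7e) (nat_lit 8) [nat_lit 0x840001c0242,nat_lit 0x80080001,nat_lit 0xc51450c8002,nat_lit 0x2080001,
    nat_lit 0x800000c0002],.r (nat_lit 0x809) (nat_lit 1) [nat_lit 0x86104109002,nat_lit 0x14b2cb2d4142,
    nat_lit 0x2082085102,nat_lit 0xc51450c8002,nat_lit 0x30c30c4002,nat_lit 0x84106109002],.c (nat_lit 3) (nat_lit 2),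
    .r (nat_lit 0xcb0) (nat_lit 2) [nat_lit 0x60000c1,nat_lit 0x6180142,nat_lit 0x180006000344,nat_lit 0x1cd353358104,
    nat_lit 0x187000102],.r (nat_lit 0x80a) (nat_lit 2) [nat_lit 0x8000141,nat_lit 0x41000c1,nat_lit 0x1000040000c2,
    nat_lit 129,nat_lit 0x14924d250082,nat_lit 0x105000081],.r (nat_lit 0x80a) (nat_lit 2) [nat_lit 0x86000141,
    nat_lit 0x86200142,nat_lit 0x200086000144,nat_lit 0xc2000102,nat_lit 0x2514d7460104,nat_lit 0x187000102],
    .r (nat_lit 0x80b) (nat_lit 2) [nat_lit 0xc5144148241,nat_lit 0xc5144188242,nat_lit 0x1030c20c4142,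
    nat_lit 0x84106109202,nat_lit 0xc5147148081,nat_lit 0x84385109202],.c (nat_lit 2) (nat_lit 0x20c3003103),
    .r (nat_lit 0xcb0) (nat_lit 2) [nat_lit 0x8a000142,nat_lit 0x84180142,nat_lit 0x180180000344,
    nat_lit 0x1cd3d1358104,nat_lit 0x83000081],.r (nat_lit 0x80c) (nat_lit 11) [nat_lit 0xc5004148241,
    nat_lit 0x92005109202,nat_lit 0x84385109202,nat_lit 0x1cd3d1358102,nat_lit 0x8400a109202,nat_lit 0x1830020c4142],
    .r (nat_lit 0x80a) (nat_lit 2) [nat_lit 0x104000141,nat_lit 0x821000c1,nat_lit 0x1000820000c2,nat_lit 0xc2000081,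
    nat_lit 0x1492cb250082,nat_lit 0x83000081],.c (nat_lit 0) (nat_lit 0x80003),
    .r (nat_lit 0xcb0) (nat_lit 2) [nat_lit 0xc5146148242,nat_lit 0xc5140088242,nat_lit 0x71c71cc342,
    nat_lit 0xc5147148102,nat_lit 0x84280109202],.c (nat_lit 2) (nat_lit 0x21450c5205),
    .r (nat_lit 0x80b) (nat_lit 2) [nat_lit 0xc5000148241,nat_lit 0xc5000188242,nat_lit 0x1030000c4142,
    nat_lit 0x8400a109202,nat_lit 0x1492cb250102,nat_lit 0x84280109202],
    .r (nat_lit 0x80b) (nat_lit 2) [nat_lit 0xc0140148241,nat_lit 0xc0140188242,nat_lit 0x1000c00c4142,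
    nat_lit 0x8010a109202,nat_lit 0x14b24b250102,nat_lit 0x80380109202],
    .r (nat_lit 0x9a4) (nat_lit 7) [nat_lit 0x8a100109202,nat_lit 0xc5140148241,nat_lit 0xc5140088242,
    nat_lit 0x830c00c4142,nat_lit 0x108386211402],.c (nat_lit 2) (nat_lit 0x40c50c5205),
    .c (nat_lit 1) (nat_lit 0x2084005),.r (nat_lit 0xcb0) (nat_lit 2) [nat_lit 0x840000c1,nat_lit 0x102180142,
    nat_lit 0x180307000344,nat_lit 0x1cd44f358104,nat_lit 0x83000102],.c (nat_lit 2) (nat_lit 0x41430c5205),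
    .r (nat_lit 0x80c) (nat_lit 11) [nat_lit 0xc5100148241,nat_lit 0x92140109202,nat_lit 0x84280109202,
    nat_lit 0x1cd44f358102,nat_lit 0x8414e109202,nat_lit 0x1830800c4142],
    .r (nat_lit 0x809) (nat_lit 1) [nat_lit 0x86104109002,nat_lit 0x1492cb250102,nat_lit 0x82000142,
    nat_lit 0xc51450c8002,nat_lit 0x30c30c4002,nat_lit 0x84106109002],
    .r (nat_lit 0x80c) (nat_lit 11) [nat_lit 0xc0000148241,nat_lit 0x8e000109202,nat_lit 0x80380109202,
    nat_lit 0x1cf3cf358102,nat_lit 0x8000e109202,nat_lit 0x1800000c4142],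
    .r (nat_lit 0xcb0) (nat_lit 2) [nat_lit 0x2088000142,nat_lit 0x2082180142,nat_lit 0x186187000344,
    nat_lit 0x1cf3cf358104,nat_lit 0x3103000102],.c (nat_lit 0) (nat_lit 0x2080005),
    .c (nat_lit 0) (nat_lit 0x2080005),.c (nat_lit 1) (nat_lit 0x80084005),.c (nat_lit 0) (nat_lit 0x80080005),
    .c (nat_lit 0) (nat_lit 0x80003),.c (nat_lit 0) (nat_lit 0x80005),.c (nat_lit 4) (nat_lit 2),
    .c (nat_lit 0) (nat_lit 0x630c306648),.c (nat_lit 0) (nat_lit 0x2104102242),.c (nat_lit 0) (nat_lit 0x6308302648),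
    .c (nat_lit 0) (nat_lit 0x620c302648),.c (nat_lit 0) (nat_lit 0x2104104242),.c (nat_lit 0) (nat_lit 0x630c306648),
    .c (nat_lit 2) (nat_lit 0x2143145205),.c (nat_lit 2) (nat_lit 0x20c00c3103),.c (nat_lit 2) (nat_lit 0x40c3145205),
    .c (nat_lit 0) (nat_lit 0x2102100244),.c (nat_lit 2) (nat_lit 0x20c5145205),.c (nat_lit 0) (nat_lit 0x2084100244),
    .c (nat_lit 2) (nat_lit 0x20030c3103),.c (nat_lit 0) (nat_lit 0x2104104244),.c (nat_lit 0) (nat_lit 0x2084100244),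
    .c (nat_lit 0) (nat_lit 0x2104104244),.c (nat_lit 0) (nat_lit 0x2104102244),
    .r (nat_lit 0xcb0) (nat_lit 2) [nat_lit 0xc5002148242,nat_lit 0xc5005088242,nat_lit 0x700d1cc342,
    nat_lit 0xc51c5148102,nat_lit 0x84184109202],.c (nat_lit 0) (nat_lit 0x2102100244),
    .r (nat_lit 0x80b) (nat_lit 2) [nat_lit 0xc5105148241,nat_lit 0xc5105188242,nat_lit 0x1030830c4142,
    nat_lit 0x8414e109202,nat_lit 0xc51c5148081,nat_lit 0x84184109202],
    .r (nat_lit 0x80b) (nat_lit 2) [nat_lit 0xc0005148241,nat_lit 0xc0005188242,nat_lit 0x1000030c4142,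
    nat_lit 0x8000e109202,nat_lit 0x14b2c9250102,nat_lit 0x80284109202],
    .r (nat_lit 0xd7e) (nat_lit 8) [nat_lit 0x840040c9202,nat_lit 0x80080001,nat_lit 0xc51450c8002,nat_lit 0x2080001,
    nat_lit 0x800000c0002],.r (nat_lit 0x9a4) (nat_lit 7) [nat_lit 0x8a004109202,nat_lit 0xc5005148241,
    nat_lit 0xc5005088242,nat_lit 0x830030c4142,nat_lit 0x10818e211402],
    .r (nat_lit 0xd25) (nat_lit 12) [nat_lit 0xc3245148202,nat_lit 0x86104109201,nat_lit 0xc3005148241,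
    nat_lit 0xc3005108242,nat_lit 0x87005148242],.r (nat_lit 0xcb0) (nat_lit 2) [nat_lit 0xc0142148242,
    nat_lit 0xc0145088242,nat_lit 0x1cd1cc342,nat_lit 0xc7145148102,nat_lit 0x80284109202],
    .r (nat_lit 0x80b) (nat_lit 2) [nat_lit 0xc4145148241,nat_lit 0xc4145188242,nat_lit 0x1020c30c4142,
    nat_lit 0x8510e109202,nat_lit 0xc7145148081,nat_lit 0x85384109202],
    .r (nat_lit 0xd7e) (nat_lit 8) [nat_lit 0x801040c9202,nat_lit 0x80080001,nat_lit 0xc51450c8002,nat_lit 0x2080001,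
    nat_lit 0x800000c0002],.r (nat_lit 0x9a4) (nat_lit 7) [nat_lit 0x86104109202,nat_lit 0xc0145148241,
    nat_lit 0xc0145088242,nat_lit 0x800c30c4142,nat_lit 0x10038e211402],
    .r (nat_lit 0xd25) (nat_lit 12) [nat_lit 0xc7145148202,nat_lit 0x82204109201,nat_lit 0xc2145148241,
    nat_lit 0xc2145108242,nat_lit 0x83145148242],.c (nat_lit 0) (nat_lit 0x2084104244),
    .r (nat_lit 0xd25) (nat_lit 12) [nat_lit 0x1cb34d358242,nat_lit 0xc3005148241,nat_lit 0x86104109201,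
    nat_lit 0x86104309202,nat_lit 0x182104109202],.c (nat_lit 0) (nat_lit 0x2104104242),
    .r (nat_lit 0x80d) (nat_lit 1) [nat_lit 0x86104109202,nat_lit 0xc5145148241,nat_lit 0xc51450c8242,
    nat_lit 0x30c30c4142,nat_lit 0x84106109202,nat_lit 129],.r (nat_lit 0xcb0) (nat_lit 2) [nat_lit 0x8410a109202,
    nat_lit 0x84104289202,nat_lit 0x18618018d302,nat_lit 0xc51451480c1,nat_lit 0xc5085148242],
    .r (nat_lit 0x9a4) (nat_lit 7) [nat_lit 0xc2145148242,nat_lit 0x84104109201,nat_lit 0x84104289202,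
    nat_lit 0x102082085102,nat_lit 0x1490c3250442],.r (nat_lit 0x80e) (nat_lit 1) [nat_lit 0x86104109001,
    nat_lit 0x1cb34d358142,nat_lit 0xc7145148102,nat_lit 0xc51450c8001,nat_lit 0x30c30c4001,nat_lit 0x84106109001],
    .c (nat_lit 5) (nat_lit 2),.r (nat_lit 0xcb0) (nat_lit 2) [nat_lit 0x2106000142,nat_lit 0x2100180142,
    nat_lit 0x18630d000344,nat_lit 0x1cf44d358104,nat_lit 0x3080000102],.c (nat_lit 0) (nat_lit 0x2000003),
    .c (nat_lit 1) (nat_lit 0x82004005),.c (nat_lit 0) (nat_lit 0x82000005),.c (nat_lit 0) (nat_lit 0x2000003),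
    .c (nat_lit 0) (nat_lit 0x82000005),.c (nat_lit 0) (nat_lit 0x2000005),.c (nat_lit 6) (nat_lit 2),
    .c (nat_lit 0) (nat_lit 0x80000003),.c (nat_lit 0) (nat_lit 0x80000003),.c (nat_lit 0) (nat_lit 0x80000003),
    .c (nat_lit 0) (nat_lit 0x80000005),.r (nat_lit 0x80f) (nat_lit 4) [nat_lit 0xc51450c8002,nat_lit 0x30c30c4002,
    nat_lit 0x84106109002,nat_lit 0x84184109002,nat_lit 0x86104109002,nat_lit 0xc31451480c2],
    .c (nat_lit 2) (nat_lit 0x20c0000004),.c (nat_lit 7) (nat_lit 2),.c (nat_lit 2) (nat_lit 0x2000000002)]]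

/-- nodes -/
noncomputable def rD8k_20_17 : List RJ :=
  [.l (nat_lit 18) (nat_lit 0x8e80) (nat_lit 4) (nat_lit 0x413d0000389f00003c5900003c59000036bb00003eb300003a4500003a4500003ed900003ed900003b9b00003b9b00004951000049510000497a0000497a) (nat_lit 0x10db0000083d00000d2100000d2100000ac7000012bf00000f3500000f3500000aa100000aa100000ddf00000ddf00000029000000290000000000000000)
    (nat_lit 0xd21039000b9f83f06072001c80103382cb60cd783a260de003604120b82556104f43a6f083f034840b5182b7e0b2a01ffc0b518296a0e6183b420ab002ac00d29838760b6d4389f0adf83f060d47036000c64827d207f802e540c6e02ddc0b9e822f20f0c03c300e0dc40290b5182e7e0d470351c0c648299a083102f380ae2031b80b2c823d60a1c030101395c564907ff01c800a66827d20a7801e1809e1827860daf8387a0d3f02f0c07288385a0f1644a7b0b2a01c800c64831920cfb029e00bdf82f7e0e0e83b2610b603ce8084283cc21101452270a5a82cb60bce02e540bdf8278608ff02b1008e402fa40b8b8283e09aa02818150ec57c50b51840ce083101fe00bdf827860ff0023fc0be9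02fa407ee82c66109b043dc0daec3a450ed083a260c6e02ddc0ec98387a0be902fa40d0e01f8809ce830fa0fac04b5c0c04c36890e618335e0ae2031b80e0e836be0be9023900eb0034380913830fa10c904fd00f0cc273d0ab00360408f5822f20f3a02f0c0b198283e0c3e830fa07270273414c38481e0fb6437270ab0037800b2c82e7a10b6034fc07ee82e2e09138273a098401c9c119883b7215d644fa70e1d825560c0403c300f308385a10f70281813f404b5c0edc8481e0d47050d4114bc3e610d298482e0a1c03c30084281ca2109b026a810c903eb011988530e124a0351c1407c49510e27c3a6f1592440291489c4a7b0e91457c509cf4368913e9c3727125443e6110980497a0b6d4413d1395c3837110143c590daec543b0f0cc301315d643ed91407c452f125e84260)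
    (nat_lit 0xd2108e8023a008e8023a008e8023a008e8023a008e8023a008e8023a008e8023a008e800e400348423a008e8023a008e8023a008e8023a008e8023a008e8023a008e8023a008e800b9f82d460d4708e8023a008e8023a008e8023a008e8023a008e8023a008e8023a008e800fc182b7e0d800351c23a008e8023a008e8023a008e8023a008e8023a008e8023a008e80072002ca80c64831920a7808e8023a008e8023a008e8023a008e8023a008e8023a008e80072001ffc09f48299a0786029e023a008e8023a008e8023a008e8023a008e8023a008e80103382d4607f8020c409e182f7e08ff08e8023a008e8023a008e8023a008e8023a008e800b2d8296a0b9502f3809e182f7e0ac4023fc23a008e8023a008e8023a008e8023a008e800cd7839860c6e02b880daf8383a08e402fa40d0e08e8023a008e8023a008e8023a008e800e8983b420b77031b80e1e83b260be902fa407e20343823a008e8023a008e8023a008e800de002ac00b9e82cb20d3f042d80b8b81fba09ce8244e072708e8023a008e8023a008e800d8102ac008bc823d60bc303ce80a0f82c660c3e830fa09cd01c9c23a008e8023a008e800e48834a60f0c0287007288210a09aa0426c0fac0432412d8846620d4708e8023a008e800955838760f0c030100e1683cc20a06043dc12d704fd0120783b7214350351c23a008e80104f42db50e0dc4e570f164440514e8c36bb0c04c3c330fb645461114bc501f109808e800e9bc389f100a45649129ec522715b843a450da24273d0dc9c4e770f9844951125e84260)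
    (nat_lit 4) (nat_lit 79)
    [[nat_lit 2,nat_lit 0x1101,nat_lit 0x1001,nat_lit 0x2001,nat_lit 0x11001,nat_lit 0x10000001],[nat_lit 32,
    nat_lit 0x10010,nat_lit 0x110010,nat_lit 0x1010010,nat_lit 0x10010010,nat_lit 0x100010,nat_lit 0x200010,
    nat_lit 0x1100010,nat_lit 0x10100010,nat_lit 0x20100010,nat_lit 0x100110,nat_lit 0x1000010,nat_lit 0x1000110,
    nat_lit 0x11000010,nat_lit 0x10000010],[nat_lit 512,nat_lit 768,nat_lit 0x400,nat_lit 0x10300,nat_lit 0x1000300,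
    nat_lit 0x1200,nat_lit 0x10200,nat_lit 0x20200,nat_lit 0x1000200,nat_lit 0x10000200,nat_lit 0x1100,nat_lit 0x2100,
    nat_lit 0x11100,nat_lit 0x1001100,nat_lit 0x10001100,nat_lit 0x10100,nat_lit 0x20100,nat_lit 0x110100,
    nat_lit 0x1010100,nat_lit 0x10010100,nat_lit 0x100100,nat_lit 0x1100100,nat_lit 0x10100100,nat_lit 0x1000100,
    nat_lit 0x2000100,nat_lit 0x11000100,nat_lit 0x10000100],[nat_lit 0x2000,nat_lit 0x12000,nat_lit 0x1002000,
    nat_lit 0x11000,nat_lit 0x21000,nat_lit 0x111000,nat_lit 0x1011000,nat_lit 0x10011000,nat_lit 0x101000,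
    nat_lit 0x1001000,nat_lit 0x10001000,nat_lit 0x10002000],[nat_lit 0x20000,nat_lit 0x30000,nat_lit 0x120000,
    nat_lit 0x1020000,nat_lit 0x10020000,nat_lit 0x110000,nat_lit 0x210000,nat_lit 0x1110000,nat_lit 0x10110000,
    nat_lit 0x1010000,nat_lit 0x2010000,nat_lit 0x11010000,nat_lit 0x10010000],[nat_lit 0x200000,nat_lit 0x300000,
    nat_lit 0x1200000,nat_lit 0x10200000,nat_lit 0x20200000,nat_lit 0x1100000,nat_lit 0x11100000,nat_lit 0x10100000,
    nat_lit 0x20100000],[nat_lit 0x2000000,nat_lit 0x11000000],[nat_lit 0x20000000]]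
    [.c (nat_lit 1) (nat_lit 2),.c (nat_lit 0) (nat_lit 0x2440398),.c (nat_lit 0) (nat_lit 0x2444298),
    .c (nat_lit 0) (nat_lit 0x2444294),.c (nat_lit 0) (nat_lit 0x2404398),
    .r (nat_lit 0xdff) (nat_lit 6) [nat_lit 0x230002,nat_lit 0x2030002,nat_lit 0x33042,nat_lit 0x22002,
    nat_lit 0x3333402],.c (nat_lit 2) (nat_lit 2),.c (nat_lit 0) (nat_lit 0x2020005),
    .r (nat_lit 0xdbb) (nat_lit 11) [nat_lit 0x22202052,nat_lit 0x33533442],
    .r (nat_lit 0xdb7) (nat_lit 6) [nat_lit 0x202002,nat_lit 0x3003452],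
    .r (nat_lit 0xdbe) (nat_lit 13) [nat_lit 0x33533442,nat_lit 0x202002],.c (nat_lit 0) (nat_lit 0x2200005),
    .r (nat_lit 0xdbb) (nat_lit 11) [nat_lit 0x24002052,nat_lit 0x35333442],
    .r (nat_lit 0xdb7) (nat_lit 6) [nat_lit 0x202002,nat_lit 0x303452],
    .r (nat_lit 0xdbe) (nat_lit 13) [nat_lit 0x35333442,nat_lit 0x202002],
    .r (nat_lit 0x111b) (nat_lit 11) [nat_lit 0x2001,nat_lit 0x20001,nat_lit 0x200001,nat_lit 0x2000001,
    nat_lit 0x20000001],.r (nat_lit 0xdbb) (nat_lit 11) [nat_lit 0x22022052,nat_lit 0x33353442],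
    .r (nat_lit 0xdba) (nat_lit 10) [nat_lit 0x2002002,nat_lit 33],.r (nat_lit 0xdb7) (nat_lit 6) [nat_lit 0x202002,
    nat_lit 0x3323452],.r (nat_lit 0xdae) (nat_lit 10) [nat_lit 0x3333402,nat_lit 0x22002,nat_lit 0x2002002,
    nat_lit 0x3003452],.r (nat_lit 0x10d2) (nat_lit 6) [nat_lit 0x230002,nat_lit 0x2030002,nat_lit 0x2222542,
    nat_lit 0x22002,nat_lit 0x3333402],.c (nat_lit 3) (nat_lit 2),.r (nat_lit 0xdbb) (nat_lit 11) [nat_lit 0x20064054,
    nat_lit 0x305b5844],.r (nat_lit 0xc5e) (nat_lit 5) [nat_lit 0x44032,nat_lit 0x4040032,nat_lit 0x450022,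
    nat_lit 0x37555802,nat_lit 34],.r (nat_lit 0xc5e) (nat_lit 5) [nat_lit 0x268054,nat_lit 0x8260054,
    nat_lit 0x670044,nat_lit 0x37555802,nat_lit 0x320044],.r (nat_lit 0xdff) (nat_lit 6) [nat_lit 0x230002,
    nat_lit 0x2030002,nat_lit 0x20031,nat_lit 0x22002,nat_lit 0x3333402],
    .r (nat_lit 0xdae) (nat_lit 10) [nat_lit 0x3333402,nat_lit 0x22002,nat_lit 0x2002002,nat_lit 0x230042],
    .r (nat_lit 0xdbb) (nat_lit 11) [nat_lit 0x20244054,nat_lit 0x30795844],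
    .r (nat_lit 0xc5e) (nat_lit 5) [nat_lit 0x224032,nat_lit 0x4220032,nat_lit 0x230022,nat_lit 0x37555802,
    nat_lit 0x320022],.c (nat_lit 0) (nat_lit 0x2003),.c (nat_lit 0) (nat_lit 0x2003),
    .r (nat_lit 0xdbb) (nat_lit 11) [nat_lit 0x3300452,nat_lit 0x2030042],.c (nat_lit 2) (nat_lit 0x2553585),
    .r (nat_lit 0xdae) (nat_lit 10) [nat_lit 0x3333402,nat_lit 0x22002,nat_lit 0x2002002,nat_lit 33],
    .r (nat_lit 0xdbe) (nat_lit 13) [nat_lit 0x35535852,nat_lit 0x202002],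
    .r (nat_lit 0xdb7) (nat_lit 6) [nat_lit 0x202002,nat_lit 33],.c (nat_lit 1) (nat_lit 0x22405),
    .r (nat_lit 0xdbb) (nat_lit 11) [nat_lit 0x20424054,nat_lit 0x30975844],
    .r (nat_lit 0xdbb) (nat_lit 11) [nat_lit 0x22224054,nat_lit 0x33775844],.c (nat_lit 0) (nat_lit 0x22005),
    .c (nat_lit 0) (nat_lit 0x22005),.c (nat_lit 1) (nat_lit 0x202405),.c (nat_lit 0) (nat_lit 0x202005),
    .c (nat_lit 0) (nat_lit 0x202005),.c (nat_lit 0) (nat_lit 0x2003),
    .r (nat_lit 0xdb7) (nat_lit 6) [nat_lit 0x202002,nat_lit 0x35525854],.c (nat_lit 2) (nat_lit 0x2003004),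
    .c (nat_lit 0) (nat_lit 0x2005),.c (nat_lit 4) (nat_lit 2),.c (nat_lit 2) (nat_lit 0x2535585),
    .c (nat_lit 0) (nat_lit 0x2444494),.r (nat_lit 0xdbb) (nat_lit 11) [nat_lit 0x3030452,nat_lit 0x2300042],
    .r (nat_lit 0xdae) (nat_lit 10) [nat_lit 0x3333402,nat_lit 0x22002,nat_lit 0x2002002,nat_lit 0x320042],
    .r (nat_lit 0xdae) (nat_lit 10) [nat_lit 0x3333402,nat_lit 0x22002,nat_lit 0x2002002,nat_lit 0x3020042],
    .r (nat_lit 0xdbe) (nat_lit 13) [nat_lit 0x35355852,nat_lit 0x202002],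
    .r (nat_lit 0xdb7) (nat_lit 6) [nat_lit 0x202002,nat_lit 0x320042],
    .r (nat_lit 0xdbb) (nat_lit 11) [nat_lit 0x330452,nat_lit 33],.r (nat_lit 0xdb7) (nat_lit 6) [nat_lit 0x202002,
    nat_lit 0x35535852],.r (nat_lit 0xdbe) (nat_lit 13) [nat_lit 33,nat_lit 0x202002],
    .c (nat_lit 0) (nat_lit 0x2444294),.c (nat_lit 5) (nat_lit 2),.r (nat_lit 0xdbb) (nat_lit 11) [nat_lit 0x20604054,
    nat_lit 0x30b55844],.r (nat_lit 0xdbb) (nat_lit 11) [nat_lit 0x22404054,nat_lit 0x33955844],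
    .c (nat_lit 0) (nat_lit 0x20003),.c (nat_lit 0) (nat_lit 0x20003),.c (nat_lit 1) (nat_lit 0x220405),
    .r (nat_lit 0xdbb) (nat_lit 11) [nat_lit 0x24204054,nat_lit 0x35755844],.c (nat_lit 0) (nat_lit 0x220005),
    .c (nat_lit 0) (nat_lit 0x220005),.c (nat_lit 0) (nat_lit 0x20003),
    .r (nat_lit 0xdb7) (nat_lit 6) [nat_lit 0x202002,nat_lit 0x35305854],.c (nat_lit 2) (nat_lit 0x2030004),
    .c (nat_lit 0) (nat_lit 0x20005),.c (nat_lit 6) (nat_lit 2),.r (nat_lit 0xdbb) (nat_lit 11) [nat_lit 0x26004054,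
    nat_lit 0x37555844],.c (nat_lit 0) (nat_lit 0x200003),.c (nat_lit 0) (nat_lit 0x200003),
    .r (nat_lit 0x111b) (nat_lit 11) [nat_lit 0x2001,nat_lit 0x20001,nat_lit 0x200001,nat_lit 0x2000001,
    nat_lit 0x20000001],.c (nat_lit 0) (nat_lit 0x200003),.c (nat_lit 2) (nat_lit 0x2300004),
    .c (nat_lit 0) (nat_lit 0x200005),.r (nat_lit 0xdbe) (nat_lit 13) [nat_lit 0x37555844,nat_lit 0x202002],
    .c (nat_lit 7) (nat_lit 2),.c (nat_lit 2) (nat_lit 0x2000002),.c (nat_lit 8) (nat_lit 2)],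
    .l (nat_lit 15) (nat_lit 0x16e0) (nat_lit 3) (nat_lit 0xbca00000cb600000cae00000b9000000c4f00000c4f000010cc00000e5a00000ccd00000ccd00000bf800000bf800000be600000d0600000b2600000cd6) (nat_lit 0x416000005020000053c0000041e0000047d0000047d0000027200000000000003ff000003ff000004d4000004d4000003c6000004e6000003f6000005a6)
    (nat_lit 0x1568230036e06740e9a1d344970c4e0e8e1a3433906de10081b903ea05b813202ad02dc08980e4a1c4c5490db20e861b743f107ca11e01f404fc0a40113019d044c07a00e6a27cc60b0dc2118e21843ed094e0b701f202dc07080b701b702dc0898105a1c4c48f0aca0f5e1e4442706f20f941aa83cd05ea0e261d3438989f3113021b84ee8b35103421403bd875d1112175c40586a90e4a1d344168735110022604ee8c4f1d203b183a5877b10e21da43ea869d1b6431385650dc2189e2cd43f2101e199a33345fc05b81a24305866b0b3e152424b848f0c1613ba27743a607e41462296c4c306e4159427385d10a0a0dba1a343c888611d8c214052d8ccd16e035a83cf88230f621f9c48086f10e861d1c3d788c71d2020685188ccd12ec2dc03c687f9120e1a8c47786bb0f941b78379094e0ef61d7437205b80ff2208c434067c113c1df844306520fc419c842707da0e961dec4c30bf80f1a1e7c3fe086810641c4840105e60fa01b9035507c80ed2175c4e70c160d461f9c389077e111818a043a064011e020103e505b810e222245650d12120e1ec4419089e121022304be0760148016e02f507080d3a1aa45050b3e0d761bc42f306520ec0190039805b813f01f503cd05b80faa202c5d10cd611de2404401088612f821d03740730)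
    (nat_lit 0x15685b80b7016e02dc05b80b7016e02dc05b80b7016e02dc05b80b7016e011802ad0b7016e02dc05b80b7016e02dc05b80b7016e02dc05b80b7016e00db816e044c16e02dc05b80b7016e02dc05b80b7016e02dc05b80b7016e00ce822603d008982dc05b80b7016e02dc05b80b7016e02dc05b80b7016e00e9a1c9439a882d11305b80b7016e02dc05b80b7016e02dc05b80b7016e00e9a1c4c4f9871310dc2260b7016e02dc05b80b7016e02dc05b80b7016e0125c2a4860b091e13ba27743f216e02dc05b80b7016e02dc05b80b7016e0189c36c86e10aca166a313c80f07e42dc05b80b7016e02dc05b80b7016e00e8e1d0c46387af103439b06668a3116e05b80b7016e02dc05b80b7016e00d1a1b74430879110a036c86668a5b1ad42dc0b7016e02dc05b80b7016e00ce41f883ed084e0ef61d2c5fc09860f3e1e3443416e02dc05b80b7016e00dbc1f284a706f20eba1dec2dc06e410461fe433e08682dc05b80b7016e0100823c02dc07ca111221c46890aca0f62241c44f083211185b80b7016e00dc81f403e406aa0bae1da460b09ce0fce1a8c3bf07120c502230b7016e00fa827e02dc079a10161f5466b0ba2120223bc443080210e825f039816e00b70290038405ea0d521a7459f0a0a0de21aec32905e60c801d802dc0730)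
    (nat_lit 4) (nat_lit 86)
    [[nat_lit 2,nat_lit 3,nat_lit 258,nat_lit 0x100002,nat_lit 0x1000002,nat_lit 18,nat_lit 0x1002,nat_lit 17,
    nat_lit 0x1000011,nat_lit 0x100011,nat_lit 257,nat_lit 513,nat_lit 0x100101,nat_lit 0x1000101,nat_lit 0x10000101,
    nat_lit 0x1001,nat_lit 0x10001001,nat_lit 0x100001,nat_lit 0x1100001,nat_lit 0x10100001,nat_lit 0x1000001,
    nat_lit 0x1001001,nat_lit 0x2000001,nat_lit 0x11000001,nat_lit 0x10000001],[nat_lit 32,nat_lit 0x100020,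
    nat_lit 0x1000020,nat_lit 272,nat_lit 0x100110,nat_lit 528,nat_lit 0x1010,nat_lit 0x1110,nat_lit 0x10001010,
    nat_lit 0x100010,nat_lit 0x1100010,nat_lit 0x10100010,nat_lit 0x1000010,nat_lit 0x1000110,nat_lit 0x1001010,
    nat_lit 0x2000010,nat_lit 0x11000010,nat_lit 0x10000010],[nat_lit 512,nat_lit 0x10000200,nat_lit 0x10200,
    nat_lit 0x100200,nat_lit 0x1100,nat_lit 0x1200,nat_lit 0x10001100,nat_lit 0x10100,nat_lit 0x100100,
    nat_lit 0x1100100,nat_lit 0x10100100,nat_lit 0x1000100,nat_lit 0x1000200,nat_lit 0x1010100,nat_lit 0x11000100,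
    nat_lit 0x10000100,nat_lit 0x10010100],[nat_lit 0x10101000,nat_lit 0x1001000,nat_lit 0x11001000,
    nat_lit 0x10001000],[nat_lit 0x20000,nat_lit 0x110000],[nat_lit 0x200000,nat_lit 0x1100000,nat_lit 0x11100000,
    nat_lit 0x10100000],[nat_lit 0x2000000,nat_lit 0x3000000,nat_lit 0x12000000,nat_lit 0x11000000],
    [nat_lit 0x20000000]]
    [.c (nat_lit 1) (nat_lit 2),.c (nat_lit 0) (nat_lit 0x2000702),.r (nat_lit 0xdb4) (nat_lit 6) [nat_lit 0x200001,
    nat_lit 0x23021],.c (nat_lit 0) (nat_lit 0x2300904),.c (nat_lit 0) (nat_lit 0x2000502),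
    .c (nat_lit 0) (nat_lit 0x2003502),.r (nat_lit 0xdb3) (nat_lit 13) [nat_lit 0x33558452,nat_lit 0x22400002],
    .c (nat_lit 1) (nat_lit 0x3202),.c (nat_lit 0) (nat_lit 0x2003302),.c (nat_lit 0) (nat_lit 0x2305504),
    .r (nat_lit 0xdbb) (nat_lit 5) [nat_lit 0x23021,nat_lit 0x200001],.c (nat_lit 1) (nat_lit 0x3000602),
    .c (nat_lit 1) (nat_lit 0x3300404),.r (nat_lit 0xdb4) (nat_lit 6) [nat_lit 0x200001,nat_lit 0x20021],
    .r (nat_lit 0xe98) (nat_lit 11) [nat_lit 0x2001,nat_lit 0x20001,nat_lit 0x3550451,nat_lit 0x200001,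
    nat_lit 0x2000001],.r (nat_lit 0xdba) (nat_lit 11) [nat_lit 33,nat_lit 0x220001],
    .c (nat_lit 1) (nat_lit 0x3355845),.c (nat_lit 0) (nat_lit 0x200205),.c (nat_lit 0) (nat_lit 0x2300504),
    .r (nat_lit 0xdb6) (nat_lit 11) [nat_lit 0x202001,nat_lit 0x3021],.c (nat_lit 1) (nat_lit 514),
    .r (nat_lit 0xdb3) (nat_lit 13) [nat_lit 0x33554452,nat_lit 0x22400002],.c (nat_lit 0) (nat_lit 0x2000302),
    .r (nat_lit 0xdba) (nat_lit 11) [nat_lit 0x33554452,nat_lit 0x220001],.r (nat_lit 0xdb3) (nat_lit 13) [nat_lit 33,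
    nat_lit 0x22400002],.c (nat_lit 2) (nat_lit 2),.c (nat_lit 0) (nat_lit 0x2309004),
    .c (nat_lit 0) (nat_lit 0x2005002),.r (nat_lit 0xdbb) (nat_lit 5) [nat_lit 33,nat_lit 0x200001],
    .c (nat_lit 1) (nat_lit 0x3305804),.c (nat_lit 1) (nat_lit 0x3003802),
    .r (nat_lit 0xdba) (nat_lit 11) [nat_lit 0x32021,nat_lit 0x220001],
    .r (nat_lit 0xdb6) (nat_lit 11) [nat_lit 0x202001,nat_lit 0x303231],.c (nat_lit 1) (nat_lit 0x3350445),
    .c (nat_lit 0) (nat_lit 0x202005),.c (nat_lit 0) (nat_lit 0x2305004),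
    .r (nat_lit 0xdb6) (nat_lit 11) [nat_lit 0x202001,nat_lit 0x30021],.c (nat_lit 1) (nat_lit 0x3402),
    .r (nat_lit 0xdb4) (nat_lit 6) [nat_lit 0x200001,nat_lit 0x2021],
    .r (nat_lit 0xdb3) (nat_lit 13) [nat_lit 0x33500452,nat_lit 0x22400002],.c (nat_lit 0) (nat_lit 0x2003002),
    .r (nat_lit 0xdba) (nat_lit 11) [nat_lit 0x33500452,nat_lit 0x220001],
    .r (nat_lit 0xdb3) (nat_lit 13) [nat_lit 0x32021,nat_lit 0x22400002],.c (nat_lit 3) (nat_lit 2),
    .c (nat_lit 0) (nat_lit 0x2355545),.c (nat_lit 1) (nat_lit 0x3030402),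
    .r (nat_lit 0xdbb) (nat_lit 5) [nat_lit 0x33040042,nat_lit 0x200001],.c (nat_lit 0) (nat_lit 0x2355545),
    .c (nat_lit 0) (nat_lit 0x2355545),.c (nat_lit 0) (nat_lit 0x2355545),.c (nat_lit 0) (nat_lit 0x2060007),
    .c (nat_lit 0) (nat_lit 0x260000d),.c (nat_lit 1) (nat_lit 0x3300804),
    .r (nat_lit 0xdb3) (nat_lit 13) [nat_lit 0x33004042,nat_lit 0x22400002],
    .r (nat_lit 0xdbb) (nat_lit 5) [nat_lit 0x20021,nat_lit 0x200001],.c (nat_lit 1) (nat_lit 0x3000802),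
    .c (nat_lit 0) (nat_lit 0x30002),.r (nat_lit 0xe98) (nat_lit 11) [nat_lit 0x2001,nat_lit 0x20001,
    nat_lit 0x3555451,nat_lit 0x200001,nat_lit 0x2000001],.c (nat_lit 0) (nat_lit 0x2355549),
    .r (nat_lit 0xdb6) (nat_lit 11) [nat_lit 0x202001,nat_lit 0x32500042],
    .r (nat_lit 0xdb4) (nat_lit 6) [nat_lit 0x200001,nat_lit 0x300231],
    .r (nat_lit 0xdba) (nat_lit 11) [nat_lit 0x2021,nat_lit 0x220001],.c (nat_lit 1) (nat_lit 0x3355445),
    .c (nat_lit 0) (nat_lit 0x2355545),.c (nat_lit 5) (nat_lit 2),.c (nat_lit 0) (nat_lit 0x2240005),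
    .c (nat_lit 6) (nat_lit 2),.c (nat_lit 0) (nat_lit 0x200003),.r (nat_lit 0xdb6) (nat_lit 11) [nat_lit 0x202001,
    nat_lit 33],.r (nat_lit 0x111c) (nat_lit 6) [nat_lit 0x622321,nat_lit 0x333231,nat_lit 0x332231,nat_lit 0x323231,
    nat_lit 0x4222321],.c (nat_lit 7) (nat_lit 2),.c (nat_lit 0) (nat_lit 0x2000002),
    .r (nat_lit 0xdba) (nat_lit 11) [nat_lit 0x33550452,nat_lit 0x220001],
    .r (nat_lit 0xdb3) (nat_lit 13) [nat_lit 0x2021,nat_lit 0x22400002],.c (nat_lit 8) (nat_lit 2)]]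

/-- nodes -/
noncomputable def rD8k_20_18 : List RJ :=
  [.l (nat_lit 13) (nat_lit 0x5a0) (nat_lit 3) (nat_lit 0x35300000353000003500000035000000352000003520000039e000004ba0000035b0000035b0000034d0000034d00000362000003620000032c0000032c) (nat_lit 0x167000001670000016a0000016a0000016800000168000000000000011c0000015f0000015f0000016d0000016d00000158000001580000018e0000018e)
    (nat_lit 0xf707b03a61e90f887ac3062310fa08103b41da103882c38a1b90f607b83e21e90f9879c67e2370fa07603ac1dc103881c38a1c50f487a43d41e60f407806d822c0fd88143ae1e30fc08203801b60f8874c3cc1ea0ec07a06ec2340f8875c3b21e30f708283841b80f387ac3d01e00f507a86d82460f987343a61e510208103b41ce0f987c43b01e80f507a86b82360f9883c3ca1df0fe07d03941be11b88c446822c11b091870428212288d446e231126091841420e19f860c6ec36c1ae0db09743821b58d6c6de3690b40d1863832c0ec08103ae20510787346b62350f007f04141de101878473a3c70fa07d03e21fb0f987cc6d62450e107804001ee0ef87543b22030ee07683c61e30ef87946d22310f7077841c21a0df878c37e1e30eb07683b21d70f2874c6de23710008283fc20e0fa87d435e1d7103882c4142080fa081068c2460ea87843ea1e30f907b03c01d4103881c3dc1f80fe08102d024c0ef880c3ea1bf10507c83c01d40e286e43701b60df073865820e1018f1c3ae1e30ea075032419e0e287143841c00e5076863820a0ec8e7435e1bf0f0078033c192)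
    (nat_lit 0xf71680b405a02d01680b405a02d01680b405a02d01680b405a00f607b8b405a02d01680b405a02d01680b405a02d01680b405a00e987c43d45a02d01680b405a02d01680b405a02d01680b405a00f487a43cc1ea2d01680b405a02d01680b405a02d01680b405a00f887cc3d01d80f51680b405a02d01680b405a02d01680b405a00f5879c3c01e80f507a8b405a02d01680b405a02d01680b405a00c18cfc6d83741b50d707045a02d01680b405a02d01680b405a011888dc45823412308d85043822d01680b405a02d01680b405a00fa07d03f61f10f987cc48a36b0f01680b405a02d01680b405a0102076040a1d70e6883c46a35b0fe0780b405a02d01680b405a00ed07583ae1d90e9879446e359105080041c5a02d01680b405a00ed07703c61e30f2877c46235f0ef07b843420e2d01680b405a0103881c3f01ee10207f0498168101877c37e1f50f91680b405a0105881c41020a10207d048c3460f087543c61f50f607c8b405a00e287143801c20ed072841431c1c6876437e1af0f007803245a00dc871436c1b80e706f841c32c1c5880c3c61d70ea075033c192)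
    (nat_lit 4) (nat_lit 122)
    [[nat_lit 2,nat_lit 3,nat_lit 18,nat_lit 258,nat_lit 0x100002,nat_lit 0x1000002,nat_lit 0x10000002,nat_lit 17,
    nat_lit 273,nat_lit 0x10011,nat_lit 0x1000011,nat_lit 257,nat_lit 0x100101,nat_lit 0x1000101,nat_lit 0x10000101,
    nat_lit 0x1101,nat_lit 0x1011,nat_lit 0x101001,nat_lit 0x1001001,nat_lit 0x10001001,nat_lit 0x10001,
    nat_lit 0x10010001,nat_lit 0x100001,nat_lit 0x200001,nat_lit 0x1100001,nat_lit 0x10100001,nat_lit 0x1000001,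
    nat_lit 0x2000001,nat_lit 0x11000001,nat_lit 0x10000001,nat_lit 0x20000001],[nat_lit 32,nat_lit 272,
    nat_lit 0x1110,nat_lit 0x100110,nat_lit 0x1010,nat_lit 0x10010,nat_lit 0x10110,nat_lit 0x11010,nat_lit 0x1010010,
    nat_lit 0x100010,nat_lit 0x101010,nat_lit 0x1000010,nat_lit 0x10000010],[nat_lit 512,nat_lit 0x1100,
    nat_lit 0x10010100,nat_lit 0x100100,nat_lit 0x200100,nat_lit 0x1100100,nat_lit 0x1000100,nat_lit 0x1001100,
    nat_lit 0x11000100,nat_lit 0x10000100,nat_lit 0x20000100],[nat_lit 0x2000,nat_lit 0x3000,nat_lit 0x102000,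
    nat_lit 0x1002000,nat_lit 0x10002000,nat_lit 0x101000,nat_lit 0x1001000,nat_lit 0x10001000],[nat_lit 0x10010000],
    [nat_lit 0x200000,nat_lit 0x1100000,nat_lit 0x10100000],[nat_lit 0x2000000,nat_lit 0x11000000],
    [nat_lit 0x20000000]]
    [.c (nat_lit 1) (nat_lit 2),.r (nat_lit 0xd44) (nat_lit 9) [nat_lit 0x7006021,nat_lit 0x70777631,
    nat_lit 0x6600031,nat_lit 0x66060031,nat_lit 0x7000021],.c (nat_lit 0) (nat_lit 0x3500202),
    .r (nat_lit 0xd45) (nat_lit 3) [nat_lit 0x5004021,nat_lit 0x64062031,nat_lit 0x2003021,nat_lit 0x5003021,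
    nat_lit 0x4602031],.r (nat_lit 0xd46) (nat_lit 9) [nat_lit 0x6001,nat_lit 0x73757631,nat_lit 0x600001,
    nat_lit 0x64080031,nat_lit 0x5030021],.r (nat_lit 0xd45) (nat_lit 3) [nat_lit 0x5006021,nat_lit 0x64060031,
    nat_lit 0x2000021,nat_lit 0x5000021,nat_lit 0x4600031],.r (nat_lit 0xd46) (nat_lit 9) [nat_lit 0x6001,
    nat_lit 0x73777631,nat_lit 0x600001,nat_lit 0x64060031,nat_lit 0x5000021],.c (nat_lit 0) (nat_lit 0x2202003),
    .r (nat_lit 0xdb2) (nat_lit 6) [nat_lit 0x22222031,nat_lit 0x22000001],.c (nat_lit 0) (nat_lit 0x3530002),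
    .r (nat_lit 0xdb2) (nat_lit 6) [nat_lit 0x22220031,nat_lit 0x22000001],
    .r (nat_lit 0xdbb) (nat_lit 3) [nat_lit 0x30030231,nat_lit 0x3021],.c (nat_lit 1) (nat_lit 0x203302),
    .r (nat_lit 0xf3f) (nat_lit 12) [nat_lit 0x20224321,nat_lit 0x30333201,nat_lit 0x20220321,nat_lit 0x30230231,
    nat_lit 0x75775631],.c (nat_lit 1) (nat_lit 0x200302),.c (nat_lit 0) (nat_lit 0x2022232),
    .c (nat_lit 0) (nat_lit 0x2022232),.c (nat_lit 0) (nat_lit 0x2022232),.c (nat_lit 0) (nat_lit 0x2022432),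
    .c (nat_lit 0) (nat_lit 0x2024232),.c (nat_lit 0) (nat_lit 0x332002),.c (nat_lit 0) (nat_lit 0x334002),
    .c (nat_lit 0) (nat_lit 0x2202003),.r (nat_lit 0xf62) (nat_lit 11) [nat_lit 0x22040031,nat_lit 0x2001,
    nat_lit 0x200001,nat_lit 0x2000001,nat_lit 0x33333201],.c (nat_lit 1) (nat_lit 0x203002),
    .r (nat_lit 0xf62) (nat_lit 11) [nat_lit 0x22020031,nat_lit 0x2001,nat_lit 0x200001,nat_lit 0x2000001,
    nat_lit 0x33333201],.r (nat_lit 0xdbb) (nat_lit 3) [nat_lit 0x30033231,nat_lit 33],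
    .r (nat_lit 0xf3f) (nat_lit 12) [nat_lit 0x20226321,nat_lit 0x30333201,nat_lit 0x20222321,nat_lit 0x30233231,
    nat_lit 0x75777631],.c (nat_lit 1) (nat_lit 0x200002),.c (nat_lit 0) (nat_lit 0x2200003),
    .r (nat_lit 0xf62) (nat_lit 11) [nat_lit 0x22000031,nat_lit 0x2001,nat_lit 0x200001,nat_lit 0x2000001,
    nat_lit 0x33333201],.c (nat_lit 2) (nat_lit 2),.c (nat_lit 0) (nat_lit 0x2004203),
    .r (nat_lit 0xf62) (nat_lit 11) [nat_lit 0x22220321,nat_lit 0x2001,nat_lit 0x200001,nat_lit 0x2000001,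
    nat_lit 0x33333201],.c (nat_lit 0) (nat_lit 0x2004203),.r (nat_lit 0xd46) (nat_lit 9) [nat_lit 0x6001,
    nat_lit 0x75555421,nat_lit 0x600001,nat_lit 0x62282321,nat_lit 0x3333231],.c (nat_lit 1) (nat_lit 0x2420003),
    .c (nat_lit 0) (nat_lit 0x30302),.r (nat_lit 0x817) (nat_lit 15) [nat_lit 0x3034231,nat_lit 0x75755421,
    nat_lit 0x2622321,nat_lit 0x60001,nat_lit 0x3033231,nat_lit 0x4033231],.c (nat_lit 0) (nat_lit 0x30002),
    .c (nat_lit 0) (nat_lit 0x2202003),.c (nat_lit 1) (nat_lit 0x230323),.c (nat_lit 0) (nat_lit 0x2004003),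
    .c (nat_lit 0) (nat_lit 0x2200003),.c (nat_lit 3) (nat_lit 2),.c (nat_lit 0) (nat_lit 0x3330023),
    .c (nat_lit 0) (nat_lit 0x32302),.c (nat_lit 0) (nat_lit 0x302203),.c (nat_lit 0) (nat_lit 0x2004203),
    .r (nat_lit 0xdbb) (nat_lit 3) [nat_lit 0x33000231,nat_lit 0x2033021],.c (nat_lit 3) (nat_lit 514),
    .r (nat_lit 0xdb2) (nat_lit 6) [nat_lit 0x33000231,nat_lit 0x22000001],
    .r (nat_lit 0xdbb) (nat_lit 3) [nat_lit 0x33030231,nat_lit 0x2003021],.c (nat_lit 0) (nat_lit 0x300203),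
    .c (nat_lit 0) (nat_lit 0x2000203),.c (nat_lit 4) (nat_lit 2),.r (nat_lit 0x817) (nat_lit 15) [nat_lit 0x77770631,
    nat_lit 33,nat_lit 0x66c66721,nat_lit 0x60001,nat_lit 0x77777631,nat_lit 0x70777631],
    .r (nat_lit 0xdbb) (nat_lit 3) [nat_lit 0x22402321,nat_lit 0x53535431],.c (nat_lit 0) (nat_lit 0x6444452),
    .r (nat_lit 0xdbb) (nat_lit 3) [nat_lit 0x22422321,nat_lit 0x53555431],.c (nat_lit 0) (nat_lit 0x3330023),
    .c (nat_lit 0) (nat_lit 0x3330323),.c (nat_lit 0) (nat_lit 0x3333023),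
    .r (nat_lit 0xdb2) (nat_lit 6) [nat_lit 0x20021,nat_lit 0x22000001],.c (nat_lit 6) (nat_lit 2),
    .c (nat_lit 0) (nat_lit 0x302003),.c (nat_lit 6) (nat_lit 0x2002),.c (nat_lit 7) (nat_lit 2),
    .c (nat_lit 0) (nat_lit 0x300003),.c (nat_lit 8) (nat_lit 2)]]

/-- nodes -/
noncomputable def rD8k_20_19 : List RJ :=
  [.s (nat_lit 17) (nat_lit 0x7800) (nat_lit 4) (nat_lit 0x361d0000361d00003164000031640000328400003284000031c4000031c400003c8000003c800000433c0000433c00003c9200003c92000037d9000037d9) (nat_lit 0xd1f00000d1f000011d8000011d8000010b8000010b80000117800001178000006bc000006bc0000000000000000000006aa000006aa00000b6300000b63)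
    (nat_lit 0x14940a3f848362445142f8a05c494a243317b088f4c83563b63172089e9455742aba147f0a4a0488a244513008a104464a24a517b08bd84783a35d517358bdcc5574285612228911439601f8c1056082b03fd81f5015780b0a062c83164168f092e84bae270912228906c3f181cb01056082b03ea01fec15780b0a062c8320015ab0aae8469e248114208a05c415820ac10e6087303f18210c15960b1906508323c16ad0af684e96268513008a17c415820ac10e6087303f18210c15960b1906508317c15ed0af684f2625051252890cc3fd81f501086084303f60204c16080b22063883260169b0ac6846ce26611192892943ea01fec0fc607e305c701fb015840ac204be031c4169b0ac6863de34e917b088f4c58502c2816320b19056102c881ae209f6079003c8013a7106a8623a2f0117b08bd8455e02af015960acb056102c101ae20d71079003c801aeb140c857ae311d1aea8ed8c6400316418be0c8f0638832601e400f20051c0433c1e490f2486fb237d91e0e906ac62c8316419420ca104be031c41e400f200867828e01e490f2487f4e402717b989e94557424ba15ed0af6856342b1a2819106a879243c9216cd0d7a04b42312f17358b90456ac2d1e15ed0b5685a6c2d361aeb09d3879243c9219c20b668625e312f142b0aae849022709128289a1469d22661188e8bc04804e37d918978c4bc5b502eda155d0aae8469e25d713c989d2c63de236715eb8c4747f4e37d918978968458ec2da8)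
    (nat_lit 0x14941e000f00078003c001e000f00078003c001e000f00078003c001e000f0007800147f0a4a0f00078003c001e000f00078003c001e000f00078003c001e000f0007800120d89114396078003c001e000f00078003c001e000f00078003c001e000f00078001222891143f181cb03c001e000f00078003c001e000f00078003c001e000f0007800142f89804415820ac10e61e000f00078003c001e000f00078003c001e000f0007800140b8a104415820ac10e608730f00078003c001e000f00078003c001e000f0007800125288c943fd81f500fc607e303f6078003c001e000f00078003c001e000f00078001219892943ea01fec10860843040981fb03c001e000f00078003c001e000f000780017b08bd8455e02af015960acb058202b081ae21e000f00078003c001e000f000780011e98bd8458502c2816320b19059102b0813ec0d710f00078003c001e000f000780020d58f07462c8316419420ca10638825f01e400f20051c078003c001e000f00078001db18d75462c83200191e0c5f064c031c41e400f200867828e03c001e000f000780017208b9ac5a3c2b5616ad0af685a6c2d3613a70d75879243c9216cd1e000f000780013d28bdcc49742aba15ed0af6856342b1a20d513ea879243c921af40b668f0007800155d0aae84bae234f13a589e4c46ce31ef188e8af5c6fb23fa712d08c4bc5b507800155d0a1584e1224811342894144cc234e917808c4746fb2402718978c4bc5db42da8)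
    (nat_lit 5) (nat_lit 37)
    [[nat_lit 0,nat_lit 0,nat_lit 10],[nat_lit 0,nat_lit 2,nat_lit 12],[nat_lit 0,nat_lit 2,nat_lit 13],[nat_lit 0,
    nat_lit 3,nat_lit 12],[nat_lit 0,nat_lit 3,nat_lit 13],[nat_lit 0,nat_lit 5],[nat_lit 0,nat_lit 10,nat_lit 0],
    [nat_lit 0,nat_lit 10,nat_lit 15],[nat_lit 0,nat_lit 13,nat_lit 2],[nat_lit 0,nat_lit 14,nat_lit 10],[nat_lit 0,
    nat_lit 14,nat_lit 11],[nat_lit 0,nat_lit 15,nat_lit 10],[nat_lit 1,nat_lit 1,nat_lit 11],[nat_lit 1,nat_lit 3,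
    nat_lit 12],[nat_lit 1,nat_lit 4],[nat_lit 1,nat_lit 10,nat_lit 15],[nat_lit 1,nat_lit 11,nat_lit 1],[nat_lit 1,
    nat_lit 11,nat_lit 14],[nat_lit 1,nat_lit 11,nat_lit 15],[nat_lit 1,nat_lit 12,nat_lit 2],[nat_lit 1,nat_lit 12,
    nat_lit 3],[nat_lit 1,nat_lit 13,nat_lit 2],[nat_lit 1,nat_lit 13,nat_lit 3],[nat_lit 1,nat_lit 14,nat_lit 11],
    [nat_lit 2,nat_lit 6],[nat_lit 2,nat_lit 7],[nat_lit 2,nat_lit 13,nat_lit 15],[nat_lit 2,nat_lit 14,nat_lit 12],
    [nat_lit 2,nat_lit 14,nat_lit 13],[nat_lit 2,nat_lit 15,nat_lit 12],[nat_lit 2,nat_lit 15,nat_lit 13],[nat_lit 3,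
    nat_lit 6],[nat_lit 3,nat_lit 7],[nat_lit 3,nat_lit 12,nat_lit 14],[nat_lit 3,nat_lit 12,nat_lit 15],[nat_lit 3,
    nat_lit 13,nat_lit 14],[nat_lit 3,nat_lit 13,nat_lit 15],[nat_lit 3,nat_lit 14,nat_lit 12],[nat_lit 4,nat_lit 8,
    nat_lit 12],[nat_lit 4,nat_lit 8,nat_lit 13],[nat_lit 4,nat_lit 9,nat_lit 12],[nat_lit 4,nat_lit 9,nat_lit 13],
    [nat_lit 4,nat_lit 12,nat_lit 9],[nat_lit 4,nat_lit 13,nat_lit 9],[nat_lit 4,nat_lit 14],[nat_lit 4,nat_lit 15],
    [nat_lit 5,nat_lit 8,nat_lit 12],[nat_lit 5,nat_lit 8,nat_lit 13],[nat_lit 5,nat_lit 12,nat_lit 8],[nat_lit 5,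
    nat_lit 12,nat_lit 9],[nat_lit 5,nat_lit 13,nat_lit 8],[nat_lit 5,nat_lit 13,nat_lit 9],[nat_lit 5,nat_lit 14],
    [nat_lit 5,nat_lit 15],[nat_lit 6,nat_lit 8,nat_lit 10],[nat_lit 6,nat_lit 9,nat_lit 10],[nat_lit 6,nat_lit 10,
    nat_lit 8],[nat_lit 6,nat_lit 10,nat_lit 9],[nat_lit 6,nat_lit 11,nat_lit 8],[nat_lit 6,nat_lit 11,nat_lit 9],
    [nat_lit 7,nat_lit 8,nat_lit 10],[nat_lit 7,nat_lit 8,nat_lit 11],[nat_lit 7,nat_lit 9,nat_lit 10],[nat_lit 7,
    nat_lit 9,nat_lit 11],[nat_lit 7,nat_lit 11,nat_lit 8],[nat_lit 7,nat_lit 11,nat_lit 9],[nat_lit 8,nat_lit 14,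
    nat_lit 11,nat_lit 12],[nat_lit 8,nat_lit 15,nat_lit 12,nat_lit 10],[nat_lit 8,nat_lit 15,nat_lit 12,nat_lit 11],
    [nat_lit 9,nat_lit 10,nat_lit 13,nat_lit 14],[nat_lit 9,nat_lit 11,nat_lit 13,nat_lit 14],[nat_lit 9,nat_lit 13,
    nat_lit 10,nat_lit 15],[nat_lit 10,nat_lit 14,nat_lit 14],[nat_lit 10,nat_lit 14,nat_lit 15],[nat_lit 10,
    nat_lit 15,nat_lit 14],[nat_lit 10,nat_lit 15,nat_lit 15],[nat_lit 11,nat_lit 14,nat_lit 14],[nat_lit 11,
    nat_lit 14,nat_lit 15],[nat_lit 11,nat_lit 15,nat_lit 14],[nat_lit 11,nat_lit 15,nat_lit 15]]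
    [nat_lit 0x100a,nat_lit 0x102c,nat_lit 0x102d,nat_lit 0x103c,nat_lit 0x103d,nat_lit 261,nat_lit 0x10a0,
    nat_lit 0x10af,nat_lit 0x10d2,nat_lit 0x10ea,nat_lit 0x10eb,nat_lit 0x10fa,nat_lit 0x111b,nat_lit 0x113c,
    nat_lit 276,nat_lit 0x11af,nat_lit 0x11b1,nat_lit 0x11be,nat_lit 0x11bf,nat_lit 0x11c2,nat_lit 0x11c3,
    nat_lit 0x11d2,nat_lit 0x11d3,nat_lit 0x11eb,nat_lit 294,nat_lit 295,nat_lit 0x12df,nat_lit 0x12ec,nat_lit 0x12ed,
    nat_lit 0x12fc,nat_lit 0x12fd,nat_lit 310,nat_lit 311,nat_lit 0x13ce,nat_lit 0x13cf,nat_lit 0x13de,nat_lit 0x13df,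
    nat_lit 0x13ec,nat_lit 0x148c,nat_lit 0x148d,nat_lit 0x149c,nat_lit 0x149d,nat_lit 0x14c9,nat_lit 0x14d9,
    nat_lit 334,nat_lit 335,nat_lit 0x158c,nat_lit 0x158d,nat_lit 0x15c8,nat_lit 0x15c9,nat_lit 0x15d8,nat_lit 0x15d9,
    nat_lit 350,nat_lit 351,nat_lit 0x168a,nat_lit 0x169a,nat_lit 0x16a8,nat_lit 0x16a9,nat_lit 0x16b8,nat_lit 0x16b9,
    nat_lit 0x178a,nat_lit 0x178b,nat_lit 0x179a,nat_lit 0x179b,nat_lit 0x17b8,nat_lit 0x17b9,nat_lit 0x18ebc,
    nat_lit 0x18fca,nat_lit 0x18fcb,nat_lit 0x19ade,nat_lit 0x19bde,nat_lit 0x19daf,nat_lit 0x1aee,nat_lit 0x1aef,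
    nat_lit 0x1afe,nat_lit 0x1aff,nat_lit 0x1bee,nat_lit 0x1bef,nat_lit 0x1bfe,nat_lit 0x1bff]
    [[[nat_lit 0,nat_lit 0,nat_lit 10],[nat_lit 0,nat_lit 2,nat_lit 12],[nat_lit 0,nat_lit 2,nat_lit 13],[nat_lit 0,
    nat_lit 3,nat_lit 12],[nat_lit 0,nat_lit 3,nat_lit 13],[nat_lit 0,nat_lit 5],[nat_lit 0,nat_lit 10,nat_lit 0],
    [nat_lit 0,nat_lit 10,nat_lit 15],[nat_lit 0,nat_lit 13,nat_lit 2],[nat_lit 0,nat_lit 14,nat_lit 10],[nat_lit 0,
    nat_lit 14,nat_lit 11],[nat_lit 0,nat_lit 15,nat_lit 10]],[[nat_lit 1,nat_lit 1,nat_lit 11],[nat_lit 1,nat_lit 3,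
    nat_lit 12],[nat_lit 1,nat_lit 4],[nat_lit 1,nat_lit 10,nat_lit 15],[nat_lit 1,nat_lit 11,nat_lit 1],[nat_lit 1,
    nat_lit 11,nat_lit 14],[nat_lit 1,nat_lit 11,nat_lit 15],[nat_lit 1,nat_lit 12,nat_lit 2],[nat_lit 1,nat_lit 12,
    nat_lit 3],[nat_lit 1,nat_lit 13,nat_lit 2],[nat_lit 1,nat_lit 13,nat_lit 3],[nat_lit 1,nat_lit 14,nat_lit 11]],
    [[nat_lit 2,nat_lit 0,nat_lit 13],[nat_lit 2,nat_lit 1,nat_lit 12],[nat_lit 2,nat_lit 1,nat_lit 13],[nat_lit 2,
    nat_lit 6],[nat_lit 2,nat_lit 7],[nat_lit 2,nat_lit 12,nat_lit 0],[nat_lit 2,nat_lit 13,nat_lit 0],[nat_lit 2,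
    nat_lit 13,nat_lit 15],[nat_lit 2,nat_lit 14,nat_lit 12],[nat_lit 2,nat_lit 14,nat_lit 13],[nat_lit 2,nat_lit 15,
    nat_lit 12],[nat_lit 2,nat_lit 15,nat_lit 13]],[[nat_lit 3,nat_lit 1,nat_lit 12],[nat_lit 3,nat_lit 1,nat_lit 13],
    [nat_lit 3,nat_lit 6],[nat_lit 3,nat_lit 7],[nat_lit 3,nat_lit 12,nat_lit 0],[nat_lit 3,nat_lit 12,nat_lit 1],
    [nat_lit 3,nat_lit 12,nat_lit 14],[nat_lit 3,nat_lit 12,nat_lit 15],[nat_lit 3,nat_lit 13,nat_lit 0],[nat_lit 3,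
    nat_lit 13,nat_lit 14],[nat_lit 3,nat_lit 13,nat_lit 15],[nat_lit 3,nat_lit 14,nat_lit 12]],[[nat_lit 4,
    nat_lit 1],[nat_lit 4,nat_lit 8,nat_lit 12],[nat_lit 4,nat_lit 8,nat_lit 13],[nat_lit 4,nat_lit 9,nat_lit 12],
    [nat_lit 4,nat_lit 9,nat_lit 13],[nat_lit 4,nat_lit 12,nat_lit 9],[nat_lit 4,nat_lit 13,nat_lit 9],[nat_lit 4,
    nat_lit 14],[nat_lit 4,nat_lit 15],[nat_lit 5,nat_lit 0],[nat_lit 5,nat_lit 8,nat_lit 12],[nat_lit 5,nat_lit 8,
    nat_lit 13]],[[nat_lit 5,nat_lit 12,nat_lit 8],[nat_lit 5,nat_lit 12,nat_lit 9],[nat_lit 5,nat_lit 13,nat_lit 8],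
    [nat_lit 5,nat_lit 13,nat_lit 9],[nat_lit 5,nat_lit 14],[nat_lit 5,nat_lit 15],[nat_lit 6,nat_lit 2],[nat_lit 6,
    nat_lit 3],[nat_lit 6,nat_lit 8,nat_lit 10],[nat_lit 6,nat_lit 9,nat_lit 10],[nat_lit 6,nat_lit 10,nat_lit 8],
    [nat_lit 6,nat_lit 10,nat_lit 9]],[[nat_lit 6,nat_lit 11,nat_lit 8],[nat_lit 6,nat_lit 11,nat_lit 9],[nat_lit 7,
    nat_lit 2],[nat_lit 7,nat_lit 3],[nat_lit 7,nat_lit 8,nat_lit 10],[nat_lit 7,nat_lit 8,nat_lit 11],[nat_lit 7,
    nat_lit 9,nat_lit 10],[nat_lit 7,nat_lit 9,nat_lit 11],[nat_lit 7,nat_lit 11,nat_lit 8],[nat_lit 7,nat_lit 11,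
    nat_lit 9],[nat_lit 8,nat_lit 5,nat_lit 12],[nat_lit 8,nat_lit 5,nat_lit 13]],[[nat_lit 8,nat_lit 6,nat_lit 10],
    [nat_lit 8,nat_lit 6,nat_lit 11],[nat_lit 8,nat_lit 7,nat_lit 11],[nat_lit 8,nat_lit 10,nat_lit 6],[nat_lit 8,
    nat_lit 10,nat_lit 7],[nat_lit 8,nat_lit 11,nat_lit 7],[nat_lit 8,nat_lit 12,nat_lit 4],[nat_lit 8,nat_lit 12,
    nat_lit 5],[nat_lit 8,nat_lit 13,nat_lit 4],[nat_lit 8,nat_lit 13,nat_lit 5],[nat_lit 8,nat_lit 14,nat_lit 11,
    nat_lit 12],[nat_lit 8,nat_lit 15,nat_lit 12,nat_lit 10]],[[nat_lit 8,nat_lit 15,nat_lit 12,nat_lit 11],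
    [nat_lit 9,nat_lit 4,nat_lit 12],[nat_lit 9,nat_lit 4,nat_lit 13],[nat_lit 9,nat_lit 5,nat_lit 12],[nat_lit 9,
    nat_lit 5,nat_lit 13],[nat_lit 9,nat_lit 6,nat_lit 10],[nat_lit 9,nat_lit 6,nat_lit 11],[nat_lit 9,nat_lit 7,
    nat_lit 11],[nat_lit 9,nat_lit 10,nat_lit 6],[nat_lit 9,nat_lit 10,nat_lit 7],[nat_lit 9,nat_lit 10,nat_lit 13,
    nat_lit 14],[nat_lit 9,nat_lit 11,nat_lit 7]],[[nat_lit 9,nat_lit 11,nat_lit 13,nat_lit 14],[nat_lit 9,nat_lit 12,
    nat_lit 4],[nat_lit 9,nat_lit 13,nat_lit 4],[nat_lit 9,nat_lit 13,nat_lit 10,nat_lit 15],[nat_lit 10,nat_lit 0,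
    nat_lit 0],[nat_lit 10,nat_lit 0,nat_lit 14],[nat_lit 10,nat_lit 0,nat_lit 15],[nat_lit 10,nat_lit 6,nat_lit 8],
    [nat_lit 10,nat_lit 6,nat_lit 9],[nat_lit 10,nat_lit 7,nat_lit 8],[nat_lit 10,nat_lit 7,nat_lit 9],[nat_lit 10,
    nat_lit 8,nat_lit 6]],[[nat_lit 10,nat_lit 8,nat_lit 15,nat_lit 12],[nat_lit 10,nat_lit 9,nat_lit 6],[nat_lit 10,
    nat_lit 13,nat_lit 14,nat_lit 9],[nat_lit 10,nat_lit 14,nat_lit 14],[nat_lit 10,nat_lit 14,nat_lit 15],
    [nat_lit 10,nat_lit 15,nat_lit 0],[nat_lit 10,nat_lit 15,nat_lit 1],[nat_lit 10,nat_lit 15,nat_lit 9,nat_lit 13],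
    [nat_lit 10,nat_lit 15,nat_lit 14],[nat_lit 10,nat_lit 15,nat_lit 15],[nat_lit 11,nat_lit 0,nat_lit 14],
    [nat_lit 11,nat_lit 1,nat_lit 1]],[[nat_lit 11,nat_lit 1,nat_lit 14],[nat_lit 11,nat_lit 7,nat_lit 8],[nat_lit 11,
    nat_lit 7,nat_lit 9],[nat_lit 11,nat_lit 8,nat_lit 6],[nat_lit 11,nat_lit 8,nat_lit 7],[nat_lit 11,nat_lit 8,
    nat_lit 15,nat_lit 12],[nat_lit 11,nat_lit 9,nat_lit 6],[nat_lit 11,nat_lit 9,nat_lit 7],[nat_lit 11,nat_lit 12,
    nat_lit 8,nat_lit 14],[nat_lit 11,nat_lit 13,nat_lit 14,nat_lit 9],[nat_lit 11,nat_lit 14,nat_lit 1],[nat_lit 11,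
    nat_lit 14,nat_lit 14]],[[nat_lit 11,nat_lit 14,nat_lit 15],[nat_lit 11,nat_lit 15,nat_lit 1],[nat_lit 11,
    nat_lit 15,nat_lit 14],[nat_lit 11,nat_lit 15,nat_lit 15],[nat_lit 12,nat_lit 0,nat_lit 2],[nat_lit 12,nat_lit 0,
    nat_lit 3],[nat_lit 12,nat_lit 1,nat_lit 3],[nat_lit 12,nat_lit 2,nat_lit 1],[nat_lit 12,nat_lit 2,nat_lit 14],
    [nat_lit 12,nat_lit 2,nat_lit 15],[nat_lit 12,nat_lit 3,nat_lit 1],[nat_lit 12,nat_lit 3,nat_lit 14]],
    [[nat_lit 12,nat_lit 4,nat_lit 8],[nat_lit 12,nat_lit 4,nat_lit 9],[nat_lit 12,nat_lit 5,nat_lit 8],[nat_lit 12,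
    nat_lit 8,nat_lit 5],[nat_lit 12,nat_lit 8,nat_lit 14,nat_lit 11],[nat_lit 12,nat_lit 9,nat_lit 4],[nat_lit 12,
    nat_lit 9,nat_lit 5],[nat_lit 12,nat_lit 10,nat_lit 8,nat_lit 15],[nat_lit 12,nat_lit 11,nat_lit 8,nat_lit 15],
    [nat_lit 12,nat_lit 14,nat_lit 3],[nat_lit 12,nat_lit 15,nat_lit 3],[nat_lit 13,nat_lit 0,nat_lit 2]],
    [[nat_lit 13,nat_lit 0,nat_lit 3],[nat_lit 13,nat_lit 2,nat_lit 0],[nat_lit 13,nat_lit 2,nat_lit 1],[nat_lit 13,
    nat_lit 2,nat_lit 14],[nat_lit 13,nat_lit 2,nat_lit 15],[nat_lit 13,nat_lit 3,nat_lit 1],[nat_lit 13,nat_lit 4,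
    nat_lit 8],[nat_lit 13,nat_lit 4,nat_lit 9],[nat_lit 13,nat_lit 5,nat_lit 8],[nat_lit 13,nat_lit 8,nat_lit 5],
    [nat_lit 13,nat_lit 9,nat_lit 4],[nat_lit 13,nat_lit 9,nat_lit 5]],[[nat_lit 13,nat_lit 10,nat_lit 15,nat_lit 9],
    [nat_lit 13,nat_lit 14,nat_lit 3],[nat_lit 13,nat_lit 14,nat_lit 9,nat_lit 10],[nat_lit 13,nat_lit 14,nat_lit 9,
    nat_lit 11],[nat_lit 13,nat_lit 15,nat_lit 2],[nat_lit 13,nat_lit 15,nat_lit 3],[nat_lit 14,nat_lit 1,nat_lit 11],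
    [nat_lit 14,nat_lit 3,nat_lit 12],[nat_lit 14,nat_lit 3,nat_lit 13],[nat_lit 14,nat_lit 4],[nat_lit 14,nat_lit 5],
    [nat_lit 14,nat_lit 9,nat_lit 10,nat_lit 13]],[[nat_lit 14,nat_lit 9,nat_lit 11,nat_lit 13],[nat_lit 14,
    nat_lit 10,nat_lit 0],[nat_lit 14,nat_lit 10,nat_lit 14],[nat_lit 14,nat_lit 10,nat_lit 15],[nat_lit 14,
    nat_lit 11,nat_lit 0],[nat_lit 14,nat_lit 11,nat_lit 1],[nat_lit 14,nat_lit 11,nat_lit 12,nat_lit 8],[nat_lit 14,
    nat_lit 11,nat_lit 14],[nat_lit 14,nat_lit 11,nat_lit 15],[nat_lit 14,nat_lit 12,nat_lit 2],[nat_lit 14,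
    nat_lit 12,nat_lit 3],[nat_lit 14,nat_lit 13,nat_lit 2]],[[nat_lit 14,nat_lit 14,nat_lit 10],[nat_lit 14,
    nat_lit 14,nat_lit 11],[nat_lit 14,nat_lit 15,nat_lit 10],[nat_lit 14,nat_lit 15,nat_lit 11],[nat_lit 15,
    nat_lit 0,nat_lit 10],[nat_lit 15,nat_lit 1,nat_lit 10],[nat_lit 15,nat_lit 1,nat_lit 11],[nat_lit 15,nat_lit 2,
    nat_lit 13],[nat_lit 15,nat_lit 3,nat_lit 12],[nat_lit 15,nat_lit 3,nat_lit 13],[nat_lit 15,nat_lit 4],
    [nat_lit 15,nat_lit 5]],[[nat_lit 15,nat_lit 9,nat_lit 13,nat_lit 10],[nat_lit 15,nat_lit 10,nat_lit 0],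
    [nat_lit 15,nat_lit 10,nat_lit 14],[nat_lit 15,nat_lit 10,nat_lit 15],[nat_lit 15,nat_lit 11,nat_lit 14],
    [nat_lit 15,nat_lit 11,nat_lit 15],[nat_lit 15,nat_lit 12,nat_lit 2],[nat_lit 15,nat_lit 12,nat_lit 10,nat_lit 8],
    [nat_lit 15,nat_lit 12,nat_lit 11,nat_lit 8],[nat_lit 15,nat_lit 13,nat_lit 2],[nat_lit 15,nat_lit 14,nat_lit 10],
    [nat_lit 15,nat_lit 14,nat_lit 11]],[[nat_lit 15,nat_lit 15,nat_lit 10],[nat_lit 15,nat_lit 15,nat_lit 11]]]
    [[nat_lit 6,nat_lit 29,nat_lit 30,nat_lit 40,nat_lit 44,nat_lit 57,nat_lit 112,nat_lit 125,nat_lit 169,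
    nat_lit 193,nat_lit 196,nat_lit 217],[nat_lit 16,nat_lit 41,nat_lit 48,nat_lit 126,nat_lit 131,nat_lit 142,
    nat_lit 145,nat_lit 151,nat_lit 154,nat_lit 170,nat_lit 173,nat_lit 197],[nat_lit 8,nat_lit 19,nat_lit 21,
    nat_lit 66,nat_lit 74,nat_lit 148,nat_lit 167,nat_lit 184,nat_lit 201,nat_lit 203,nat_lit 222,nat_lit 225],
    [nat_lit 20,nat_lit 22,nat_lit 67,nat_lit 75,nat_lit 149,nat_lit 150,nat_lit 165,nat_lit 166,nat_lit 168,
    nat_lit 181,nat_lit 185,nat_lit 202],[nat_lit 14,nat_lit 90,nat_lit 92,nat_lit 109,nat_lit 110,nat_lit 161,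
    nat_lit 178,nat_lit 189,nat_lit 214,nat_lit 5,nat_lit 91,nat_lit 93],[nat_lit 159,nat_lit 162,nat_lit 177,
    nat_lit 179,nat_lit 190,nat_lit 215,nat_lit 27,nat_lit 38,nat_lit 87,nat_lit 104,nat_lit 119,nat_lit 121],
    [nat_lit 135,nat_lit 138,nat_lit 28,nat_lit 39,nat_lit 88,nat_lit 89,nat_lit 105,nat_lit 107,nat_lit 136,
    nat_lit 139,nat_lit 60,nat_lit 62],[nat_lit 70,nat_lit 72,nat_lit 80,nat_lit 115,nat_lit 117,nat_lit 133,
    nat_lit 156,nat_lit 158,nat_lit 174,nat_lit 176,nat_lit 198,nat_lit 223],[nat_lit 224,nat_lit 53,nat_lit 54,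
    nat_lit 61,nat_lit 63,nat_lit 71,nat_lit 73,nat_lit 81,nat_lit 116,nat_lit 118,nat_lit 122,nat_lit 134],
    [nat_lit 141,nat_lit 157,nat_lit 175,nat_lit 180,nat_lit 0,nat_lit 9,nat_lit 11,nat_lit 68,nat_lit 69,nat_lit 76,
    nat_lit 78,nat_lit 84],[nat_lit 95,nat_lit 101,nat_lit 182,nat_lit 204,nat_lit 206,nat_lit 208,nat_lit 209,
    nat_lit 216,nat_lit 226,nat_lit 228,nat_lit 10,nat_lit 12],[nat_lit 23,nat_lit 77,nat_lit 79,nat_lit 85,
    nat_lit 86,nat_lit 96,nat_lit 102,nat_lit 103,nat_lit 160,nat_lit 183,nat_lit 186,nat_lit 205],[nat_lit 207,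
    nat_lit 210,nat_lit 227,nat_lit 229,nat_lit 1,nat_lit 3,nat_lit 13,nat_lit 25,nat_lit 32,nat_lit 34,nat_lit 36,
    nat_lit 47],[nat_lit 49,nat_lit 51,nat_lit 58,nat_lit 82,nat_lit 94,nat_lit 97,nat_lit 99,nat_lit 120,nat_lit 137,
    nat_lit 187,nat_lit 212,nat_lit 2],[nat_lit 4,nat_lit 24,nat_lit 26,nat_lit 33,nat_lit 35,nat_lit 37,nat_lit 50,
    nat_lit 52,nat_lit 59,nat_lit 83,nat_lit 98,nat_lit 100],[nat_lit 127,nat_lit 188,nat_lit 191,nat_lit 192,
    nat_lit 211,nat_lit 213,nat_lit 17,nat_lit 42,nat_lit 45,nat_lit 55,nat_lit 64,nat_lit 106],[nat_lit 108,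
    nat_lit 113,nat_lit 123,nat_lit 128,nat_lit 130,nat_lit 132,nat_lit 140,nat_lit 143,nat_lit 146,nat_lit 152,
    nat_lit 155,nat_lit 171],[nat_lit 194,nat_lit 199,nat_lit 218,nat_lit 220,nat_lit 7,nat_lit 15,nat_lit 18,
    nat_lit 31,nat_lit 43,nat_lit 46,nat_lit 56,nat_lit 65],[nat_lit 111,nat_lit 114,nat_lit 124,nat_lit 129,
    nat_lit 144,nat_lit 147,nat_lit 153,nat_lit 163,nat_lit 164,nat_lit 172,nat_lit 195,nat_lit 200],[nat_lit 219,
    nat_lit 221]]
    [[nat_lit 112,nat_lit 148,nat_lit 167,nat_lit 149,nat_lit 168,nat_lit 57,nat_lit 0,nat_lit 208,nat_lit 24,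
    nat_lit 113,nat_lit 130,nat_lit 114],[nat_lit 131,nat_lit 150,nat_lit 48,nat_lit 209,nat_lit 12,nat_lit 186,
    nat_lit 210,nat_lit 25,nat_lit 36,nat_lit 26,nat_lit 37,nat_lit 132],[nat_lit 169,nat_lit 151,nat_lit 170,
    nat_lit 66,nat_lit 74,nat_lit 1,nat_lit 2,nat_lit 211,nat_lit 152,nat_lit 171,nat_lit 153,nat_lit 172],
    [nat_lit 154,nat_lit 173,nat_lit 67,nat_lit 75,nat_lit 3,nat_lit 13,nat_lit 187,nat_lit 212,nat_lit 4,nat_lit 188,
    nat_lit 213,nat_lit 155],[nat_lit 14,nat_lit 156,nat_lit 174,nat_lit 157,nat_lit 175,nat_lit 97,nat_lit 98,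
    nat_lit 189,nat_lit 214,nat_lit 5,nat_lit 158,nat_lit 176],[nat_lit 82,nat_lit 99,nat_lit 83,nat_lit 100,
    nat_lit 190,nat_lit 215,nat_lit 27,nat_lit 38,nat_lit 115,nat_lit 116,nat_lit 84,nat_lit 101],[nat_lit 85,
    nat_lit 102,nat_lit 28,nat_lit 39,nat_lit 117,nat_lit 133,nat_lit 118,nat_lit 134,nat_lit 86,nat_lit 103,
    nat_lit 159,nat_lit 177],[nat_lit 119,nat_lit 135,nat_lit 136,nat_lit 68,nat_lit 76,nat_lit 77,nat_lit 49,
    nat_lit 58,nat_lit 50,nat_lit 59,nat_lit 160,nat_lit 120],[nat_lit 137,nat_lit 161,nat_lit 178,nat_lit 162,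
    nat_lit 179,nat_lit 121,nat_lit 138,nat_lit 139,nat_lit 69,nat_lit 78,nat_lit 191,nat_lit 79],[nat_lit 192,
    nat_lit 51,nat_lit 52,nat_lit 216,nat_lit 6,nat_lit 193,nat_lit 217,nat_lit 87,nat_lit 104,nat_lit 88,nat_lit 105,
    nat_lit 70],[nat_lit 163,nat_lit 71,nat_lit 106,nat_lit 194,nat_lit 218,nat_lit 7,nat_lit 15,nat_lit 180,
    nat_lit 195,nat_lit 219,nat_lit 196,nat_lit 16],[nat_lit 197,nat_lit 89,nat_lit 107,nat_lit 72,nat_lit 80,
    nat_lit 164,nat_lit 73,nat_lit 81,nat_lit 198,nat_lit 108,nat_lit 17,nat_lit 199],[nat_lit 220,nat_lit 18,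
    nat_lit 200,nat_lit 221,nat_lit 29,nat_lit 40,nat_lit 41,nat_lit 19,nat_lit 201,nat_lit 222,nat_lit 20,
    nat_lit 202],[nat_lit 90,nat_lit 109,nat_lit 91,nat_lit 60,nat_lit 140,nat_lit 53,nat_lit 61,nat_lit 223,
    nat_lit 224,nat_lit 42,nat_lit 43,nat_lit 30],[nat_lit 44,nat_lit 8,nat_lit 21,nat_lit 203,nat_lit 225,nat_lit 22,
    nat_lit 92,nat_lit 110,nat_lit 93,nat_lit 62,nat_lit 54,nat_lit 63],[nat_lit 111,nat_lit 45,nat_lit 122,
    nat_lit 141,nat_lit 31,nat_lit 46,nat_lit 142,nat_lit 165,nat_lit 181,nat_lit 55,nat_lit 64,nat_lit 182],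
    [nat_lit 183,nat_lit 9,nat_lit 204,nat_lit 226,nat_lit 10,nat_lit 23,nat_lit 94,nat_lit 205,nat_lit 227,
    nat_lit 32,nat_lit 47,nat_lit 33],[nat_lit 123,nat_lit 143,nat_lit 124,nat_lit 144,nat_lit 125,nat_lit 126,
    nat_lit 145,nat_lit 184,nat_lit 166,nat_lit 185,nat_lit 56,nat_lit 65],[nat_lit 127,nat_lit 11,nat_lit 206,
    nat_lit 228,nat_lit 207,nat_lit 229,nat_lit 34,nat_lit 95,nat_lit 96,nat_lit 35,nat_lit 128,nat_lit 146],
    [nat_lit 129,nat_lit 147]]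
    [[[nat_lit 201,nat_lit 203],[nat_lit 189],[nat_lit 189],[nat_lit 197],[nat_lit 197],[nat_lit 202],[nat_lit 187],
    [nat_lit 187],[nat_lit 186,nat_lit 205,nat_lit 207],[nat_lit 193,nat_lit 196],[nat_lit 193,nat_lit 196],
    [nat_lit 188,nat_lit 191,nat_lit 192]],[[nat_lit 43,nat_lit 46],[nat_lit 41],[nat_lit 38],[nat_lit 36,nat_lit 47],
    [],[],[],[nat_lit 42,nat_lit 45],[nat_lit 42,nat_lit 45],[],[],[nat_lit 40,nat_lit 44]],[[nat_lit 8],[nat_lit 7],
    [nat_lit 7],[],[nat_lit 5],[],[nat_lit 10],[nat_lit 10],[nat_lit 6],[nat_lit 6],[nat_lit 2,nat_lit 4],[nat_lit 2,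
    nat_lit 4]],[[nat_lit 65],[nat_lit 65],[nat_lit 60,nat_lit 62],[],[nat_lit 64],[nat_lit 64],[nat_lit 64],
    [nat_lit 64],[],[],[],[nat_lit 57]],[[nat_lit 31],[],[],[nat_lit 28],[nat_lit 28],[],[],[nat_lit 29,nat_lit 30],
    [nat_lit 24,nat_lit 26,nat_lit 33,nat_lit 35],[nat_lit 74],[nat_lit 76,nat_lit 78],[nat_lit 76,nat_lit 78]],[[],
    [],[nat_lit 77,nat_lit 79],[nat_lit 77,nat_lit 79],[],[],[],[nat_lit 48],[],[],[nat_lit 49,nat_lit 51],
    [nat_lit 49,nat_lit 51]],[[nat_lit 53,nat_lit 54],[nat_lit 53,nat_lit 54],[nat_lit 109,nat_lit 110],[],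
    [nat_lit 101],[nat_lit 101],[nat_lit 105,nat_lit 107],[nat_lit 105,nat_lit 107],[],[],[nat_lit 67],[nat_lit 67]],
    [[nat_lit 70,nat_lit 72],[nat_lit 70,nat_lit 72],[],[],[],[nat_lit 71,nat_lit 73],[],[],[],[],[],[]],[[],
    [nat_lit 135,nat_lit 138],[nat_lit 135,nat_lit 138],[],[],[nat_lit 133],[nat_lit 133],[],[nat_lit 137],
    [nat_lit 137],[nat_lit 137],[nat_lit 134,nat_lit 141]],[[nat_lit 134,nat_lit 141],[nat_lit 130,nat_lit 132,
    nat_lit 140,nat_lit 143,nat_lit 146],[],[],[],[],[],[],[],[nat_lit 91,nat_lit 93],[nat_lit 91,nat_lit 93],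
    [nat_lit 84,nat_lit 95]],[[nat_lit 84,nat_lit 95],[nat_lit 88,nat_lit 89],[nat_lit 85,nat_lit 86,nat_lit 96],[],
    [],[nat_lit 83],[nat_lit 83],[nat_lit 83],[nat_lit 83],[nat_lit 83],[nat_lit 167,nat_lit 184],[nat_lit 172]],
    [[nat_lit 172],[nat_lit 177,nat_lit 179],[nat_lit 177,nat_lit 179],[nat_lit 182],[nat_lit 182],[nat_lit 182],[],
    [],[nat_lit 171],[nat_lit 183],[nat_lit 169],[nat_lit 169]],[[nat_lit 169],[],[],[],[],[],[nat_lit 114,
    nat_lit 124,nat_lit 129],[],[],[],[nat_lit 126],[nat_lit 126]],[[nat_lit 119,nat_lit 121],[nat_lit 119,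
    nat_lit 121],[],[],[],[],[],[nat_lit 120],[nat_lit 116,nat_lit 118,nat_lit 122],[nat_lit 112,nat_lit 125],
    [nat_lit 127],[nat_lit 222,nat_lit 225]],[[nat_lit 222,nat_lit 225],[nat_lit 214],[nat_lit 214],[nat_lit 214],
    [nat_lit 214],[],[],[],[],[nat_lit 208,nat_lit 209,nat_lit 216,nat_lit 226,nat_lit 228],[],[]],[[nat_lit 212],
    [nat_lit 217],[nat_lit 217],[nat_lit 217],[nat_lit 211,nat_lit 213],[nat_lit 211,nat_lit 213],[nat_lit 153,
    nat_lit 163,nat_lit 164],[nat_lit 151,nat_lit 154],[nat_lit 151,nat_lit 154],[],[nat_lit 149,nat_lit 150,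
    nat_lit 165,nat_lit 166],[]],[[],[],[],[],[nat_lit 157],[nat_lit 157],[nat_lit 157],[nat_lit 157],[nat_lit 157],
    [nat_lit 152,nat_lit 155],[nat_lit 152,nat_lit 155],[nat_lit 160]],[[],[],[],[],[nat_lit 19,nat_lit 21],
    [nat_lit 15,nat_lit 18],[nat_lit 15,nat_lit 18],[nat_lit 14],[nat_lit 16],[nat_lit 16],[],[nat_lit 20,
    nat_lit 22]],[[],[nat_lit 13],[nat_lit 13],[nat_lit 13],[],[],[nat_lit 17],[nat_lit 17],[nat_lit 17],[nat_lit 12,
    nat_lit 23],[],[]],[[],[]]]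
    (nat_lit 230) [nat_lit 0,nat_lit 1,nat_lit 2,nat_lit 3,nat_lit 4,nat_lit 5,nat_lit 6,nat_lit 7,nat_lit 8,
    nat_lit 9,nat_lit 10,nat_lit 11,nat_lit 12,nat_lit 13,nat_lit 14,nat_lit 15,nat_lit 16,nat_lit 17,nat_lit 18,
    nat_lit 19,nat_lit 20,nat_lit 21,nat_lit 22,nat_lit 23,nat_lit 27,nat_lit 28,nat_lit 31,nat_lit 32,nat_lit 33,
    nat_lit 34,nat_lit 35,nat_lit 38,nat_lit 39,nat_lit 42,nat_lit 43,nat_lit 45,nat_lit 46,nat_lit 47,nat_lit 49,
    nat_lit 50,nat_lit 51,nat_lit 52,nat_lit 53,nat_lit 54,nat_lit 55,nat_lit 56,nat_lit 58,nat_lit 59,nat_lit 60,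
    nat_lit 61,nat_lit 62,nat_lit 63,nat_lit 64,nat_lit 65,nat_lit 68,nat_lit 69,nat_lit 70,nat_lit 71,nat_lit 72,
    nat_lit 73,nat_lit 76,nat_lit 77,nat_lit 78,nat_lit 79,nat_lit 80,nat_lit 81,nat_lit 94,nat_lit 95,nat_lit 96,
    nat_lit 106,nat_lit 108,nat_lit 111,nat_lit 123,nat_lit 124,nat_lit 128,nat_lit 129,nat_lit 143,nat_lit 144,
    nat_lit 146,nat_lit 147]
    [[[nat_lit 6],[],[nat_lit 8],[],[],[nat_lit 5],[],[],[],[],[nat_lit 0,nat_lit 9,nat_lit 11],[nat_lit 10],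
    [nat_lit 1,nat_lit 3],[nat_lit 2,nat_lit 4],[],[nat_lit 7]],[[],[nat_lit 16],[nat_lit 19,nat_lit 21],[nat_lit 20,
    nat_lit 22],[nat_lit 14],[],[],[],[],[],[],[nat_lit 12,nat_lit 23],[nat_lit 13],[],[nat_lit 17],[nat_lit 15,
    nat_lit 18]],[[nat_lit 29,nat_lit 30],[],[],[],[],[],[nat_lit 27],[nat_lit 28],[],[],[],[],[nat_lit 25,nat_lit 32,
    nat_lit 34],[nat_lit 24,nat_lit 26,nat_lit 33,nat_lit 35],[],[nat_lit 31]],[[nat_lit 40,nat_lit 44],[nat_lit 41],
    [],[],[],[],[nat_lit 38],[nat_lit 39],[],[],[],[],[nat_lit 36,nat_lit 47],[nat_lit 37],[nat_lit 42,nat_lit 45],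
    [nat_lit 43,nat_lit 46]],[[],[nat_lit 48],[],[],[],[],[],[],[],[nat_lit 53,nat_lit 54],[],[],[nat_lit 49,
    nat_lit 51],[nat_lit 50,nat_lit 52],[nat_lit 55],[nat_lit 56]],[[nat_lit 57],[],[],[],[],[],[],[],[nat_lit 60,
    nat_lit 62],[nat_lit 61,nat_lit 63],[],[],[nat_lit 58],[nat_lit 59],[nat_lit 64],[nat_lit 65]],[[],[],
    [nat_lit 66],[nat_lit 67],[],[],[],[],[nat_lit 70,nat_lit 72],[nat_lit 71,nat_lit 73],[nat_lit 68,nat_lit 69],[],
    [],[],[],[]],[[],[],[nat_lit 74],[nat_lit 75],[],[],[],[],[nat_lit 80],[nat_lit 81],[nat_lit 76,nat_lit 78],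
    [nat_lit 77,nat_lit 79],[],[],[],[]],[[],[],[],[],[nat_lit 90,nat_lit 92],[nat_lit 91,nat_lit 93],[nat_lit 87],
    [nat_lit 88,nat_lit 89],[],[],[nat_lit 84,nat_lit 95],[nat_lit 85,nat_lit 86,nat_lit 96],[nat_lit 82,nat_lit 94],
    [nat_lit 83],[],[]],[[],[],[],[],[nat_lit 109,nat_lit 110],[],[nat_lit 104],[nat_lit 105,nat_lit 107],[],[],
    [nat_lit 101],[nat_lit 102,nat_lit 103],[nat_lit 97,nat_lit 99],[nat_lit 98,nat_lit 100],[nat_lit 106,
    nat_lit 108],[nat_lit 111]],[[nat_lit 112,nat_lit 125],[nat_lit 126],[],[],[],[],[nat_lit 119,nat_lit 121],[],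
    [nat_lit 115,nat_lit 117],[nat_lit 116,nat_lit 118,nat_lit 122],[],[],[nat_lit 120],[nat_lit 127],[nat_lit 113,
    nat_lit 123,nat_lit 128],[nat_lit 114,nat_lit 124,nat_lit 129]],[[],[nat_lit 131,nat_lit 142,nat_lit 145],[],[],
    [],[],[nat_lit 135,nat_lit 138],[nat_lit 136,nat_lit 139],[nat_lit 133],[nat_lit 134,nat_lit 141],[],[],
    [nat_lit 137],[],[nat_lit 130,nat_lit 132,nat_lit 140,nat_lit 143,nat_lit 146],[nat_lit 144,nat_lit 147]],[[],
    [nat_lit 151,nat_lit 154],[nat_lit 148],[nat_lit 149,nat_lit 150,nat_lit 165,nat_lit 166],[nat_lit 161],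
    [nat_lit 159,nat_lit 162],[],[],[nat_lit 156,nat_lit 158],[nat_lit 157],[],[nat_lit 160],[],[],[nat_lit 152,
    nat_lit 155],[nat_lit 153,nat_lit 163,nat_lit 164]],[[nat_lit 169],[nat_lit 170,nat_lit 173],[nat_lit 167,
    nat_lit 184],[nat_lit 168,nat_lit 181,nat_lit 185],[nat_lit 178],[nat_lit 177,nat_lit 179],[],[],[nat_lit 174,
    nat_lit 176],[nat_lit 175,nat_lit 180],[nat_lit 182],[nat_lit 183],[],[],[nat_lit 171],[nat_lit 172]],
    [[nat_lit 193,nat_lit 196],[nat_lit 197],[nat_lit 201,nat_lit 203],[nat_lit 202],[nat_lit 189],[nat_lit 190],[],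
    [],[nat_lit 198],[],[nat_lit 204,nat_lit 206],[nat_lit 186,nat_lit 205,nat_lit 207],[nat_lit 187],[nat_lit 188,
    nat_lit 191,nat_lit 192],[nat_lit 194,nat_lit 199],[nat_lit 195,nat_lit 200]],[[nat_lit 217],[],[nat_lit 222,
    nat_lit 225],[],[nat_lit 214],[nat_lit 215],[],[],[nat_lit 223,nat_lit 224],[],[nat_lit 208,nat_lit 209,
    nat_lit 216,nat_lit 226,nat_lit 228],[nat_lit 210,nat_lit 227,nat_lit 229],[nat_lit 212],[nat_lit 211,
    nat_lit 213],[nat_lit 218,nat_lit 220],[nat_lit 219,nat_lit 221]]]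
    [[[nat_lit 0xa00000000000000000000000000000000000000000000000000,
    nat_lit 0x200000000000000000000000000000000000000000000000,
    nat_lit 0x200000000000000000000000000000000000000000000000,
    nat_lit 0x20000000000000000000000000000000000000000000000000,
    nat_lit 0x20000000000000000000000000000000000000000000000000,
    nat_lit 0x400000000000000000000000000000000000000000000000000,
    nat_lit 0x80000000000000000000000000000000000000000000000,
    nat_lit 0x80000000000000000000000000000000000000000000000,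
    nat_lit 0xa000040000000000000000000000000000000000000000000000],
    [nat_lit 0x12000000000000000000000000000000000000000000000000,
    nat_lit 0x12000000000000000000000000000000000000000000000000,
    nat_lit 0x1900000000000000000000000000000000000000000000000,nat_lit 0x480000000000,nat_lit 0x20000000000,
    nat_lit 0x4000000000,nat_lit 0x801000000000,nat_lit 0,nat_lit 0],[nat_lit 0,nat_lit 0x240000000000,
    nat_lit 0x240000000000,nat_lit 0,nat_lit 0,nat_lit 0x110000000000,nat_lit 256,nat_lit 128,nat_lit 128],[nat_lit 0,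
    nat_lit 32,nat_lit 0,nat_lit 0x400,nat_lit 0x400,nat_lit 64,nat_lit 64,nat_lit 20,nat_lit 20],
    [nat_lit 0x20000000000000000,nat_lit 0x20000000000000000,nat_lit 0x5000000000000000,nat_lit 0,
    nat_lit 0x10000000000000000,nat_lit 0x10000000000000000,nat_lit 0x10000000000000000,nat_lit 0x10000000000000000,
    nat_lit 0],[nat_lit 0,nat_lit 0,nat_lit 0x200000000000000,nat_lit 0x80000000,nat_lit 0,nat_lit 0,
    nat_lit 0x10000000,nat_lit 0x10000000,nat_lit 0],[nat_lit 0,nat_lit 0x60000000,nat_lit 0xa05000000,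
    nat_lit 0x4000000000000000000,nat_lit 0x50000000000000000000,nat_lit 0x50000000000000000000,nat_lit 0,nat_lit 0,
    nat_lit 0xa0000000000000000000],[nat_lit 0xa0000000000000000000,nat_lit 0,nat_lit 0,nat_lit 0,
    nat_lit 0x1000000000000,nat_lit 0,nat_lit 0,nat_lit 0xa000000000000,nat_lit 0xa000000000000],
    [nat_lit 0x60000000000000,nat_lit 0x60000000000000,nat_lit 0x6000000000000000000000000000,nat_lit 0,
    nat_lit 0x20000000000000000000000000,nat_lit 0x20000000000000000000000000,nat_lit 0xa00000000000000000000000000,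
    nat_lit 0xa00000000000000000000000000,nat_lit 0]],[[nat_lit 0,nat_lit 0x80000000000000000,
    nat_lit 0x80000000000000000,nat_lit 0x1400000000000000000,nat_lit 0x1400000000000000000,nat_lit 0,nat_lit 0,
    nat_lit 0,nat_lit 0x2800000000000000000],[nat_lit 0,nat_lit 0,nat_lit 0,nat_lit 0,nat_lit 0,nat_lit 0,nat_lit 0,
    nat_lit 0x48000000000000000000000000000000000,nat_lit 0x48000000000000000000000000000000000],[nat_lit 0,nat_lit 0,
    nat_lit 0x2000000000000000000000000000000000,nat_lit 0x2000000000000000000000000000000000,nat_lit 0,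
    nat_lit 0x20000000000000000000000000000000000,nat_lit 0x20000000000000000000000000000000000,
    nat_lit 0x20000000000000000000000000000000000,nat_lit 0x204000000000000000000000000000000000],
    [nat_lit 0x204000000000000000000000000000000000,nat_lit 0x4901400000000000000000000000000000000,nat_lit 0,
    nat_lit 0,nat_lit 0,nat_lit 0,nat_lit 0,nat_lit 0,nat_lit 0],[nat_lit 0x280000000000000000000000,
    nat_lit 0x280000000000000000000000,nat_lit 0x801000000000000000000000,nat_lit 0x801000000000000000000000,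
    nat_lit 0x30000000000000000000000,nat_lit 0x1006000000000000000000000,nat_lit 0,nat_lit 0,
    nat_lit 0x800000000000000000000],[nat_lit 0x800000000000000000000,nat_lit 0x800000000000000000000,
    nat_lit 0x800000000000000000000,nat_lit 0x800000000000000000000,
    nat_lit 0x10000800000000000000000000000000000000000000000,nat_lit 0x10000000000000000000000000000000000000000000,
    nat_lit 0x10000000000000000000000000000000000000000000,nat_lit 0xa00000000000000000000000000000000000000000000,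
    nat_lit 0xa00000000000000000000000000000000000000000000],
    [nat_lit 0x4000000000000000000000000000000000000000000000,
    nat_lit 0x4000000000000000000000000000000000000000000000,nat_lit 0x4000000000000000000000000000000000000000000000,
    nat_lit 0,nat_lit 0,nat_lit 0x8000000000000000000000000000000000000000000,
    nat_lit 0x8000000000000000000000000000000000000000000000,nat_lit 0x2000000000000000000000000000000000000000000,
    nat_lit 0x2000000000000000000000000000000000000000000],[nat_lit 0x2000000000000000000000000000000000000000000,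
    nat_lit 0,nat_lit 0,nat_lit 0,nat_lit 0,nat_lit 0,nat_lit 0x210040000000000000000000000000000,nat_lit 0,
    nat_lit 0],[nat_lit 0,nat_lit 0x40000000000000000000000000000000,nat_lit 0x40000000000000000000000000000000,
    nat_lit 0x2800000000000000000000000000000,nat_lit 0x2800000000000000000000000000000,nat_lit 0,nat_lit 0,nat_lit 0,
    nat_lit 0]],[[nat_lit 0,nat_lit 0x1000000000000000000000000000000,nat_lit 0x4500000000000000000000000000000,
    nat_lit 0x20010000000000000000000000000000,nat_lit 0x80000000000000000000000000000000,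
    nat_lit 0x240000000000000000000000000000000000000000000000000000000,
    nat_lit 0x240000000000000000000000000000000000000000000000000000000,
    nat_lit 0x400000000000000000000000000000000000000000000000000000,
    nat_lit 0x400000000000000000000000000000000000000000000000000000],
    [nat_lit 0x400000000000000000000000000000000000000000000000000000,
    nat_lit 0x400000000000000000000000000000000000000000000000000000,nat_lit 0,nat_lit 0,nat_lit 0,nat_lit 0,
    nat_lit 0x1401030000000000000000000000000000000000000000000000000000,nat_lit 0,nat_lit 0],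
    [nat_lit 0x100000000000000000000000000000000000000000000000000000,
    nat_lit 0x2000000000000000000000000000000000000000000000000000000,
    nat_lit 0x2000000000000000000000000000000000000000000000000000000,
    nat_lit 0x2000000000000000000000000000000000000000000000000000000,
    nat_lit 0x280000000000000000000000000000000000000000000000000000,
    nat_lit 0x280000000000000000000000000000000000000000000000000000,
    nat_lit 0x180200000000000000000000000000000000000000,nat_lit 0x480000000000000000000000000000000000000,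
    nat_lit 0x480000000000000000000000000000000000000],[nat_lit 0,
    nat_lit 0x600060000000000000000000000000000000000000,nat_lit 0,nat_lit 0,nat_lit 0,nat_lit 0,nat_lit 0,
    nat_lit 0x2000000000000000000000000000000000000000,nat_lit 0x2000000000000000000000000000000000000000],
    [nat_lit 0x2000000000000000000000000000000000000000,nat_lit 0x2000000000000000000000000000000000000000,
    nat_lit 0x2000000000000000000000000000000000000000,nat_lit 0x900000000000000000000000000000000000000,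
    nat_lit 0x900000000000000000000000000000000000000,nat_lit 0x10000000000000000000000000000000000000000,nat_lit 0,
    nat_lit 0,nat_lit 0],[nat_lit 0,nat_lit 0x280000,nat_lit 0x48000,nat_lit 0x48000,nat_lit 0x4000,nat_lit 0x10000,
    nat_lit 0x10000,nat_lit 0,nat_lit 0x500000],[nat_lit 0,nat_lit 0x2000,nat_lit 0x2000,nat_lit 0x2000,nat_lit 0,
    nat_lit 0,nat_lit 0x20000,nat_lit 0x20000,nat_lit 0x20000],[nat_lit 0x801000,nat_lit 0,nat_lit 0,nat_lit 0,
    nat_lit 0]]]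
    []
    (nat_lit 0) (nat_lit 64) (nat_lit 64)
    [[nat_lit 2,nat_lit 17,nat_lit 0x1001,nat_lit 0x10001,nat_lit 0x110001,nat_lit 0x1010001,nat_lit 0x10010001,
    nat_lit 0x100001,nat_lit 0x200001,nat_lit 0x1100001,nat_lit 0x1000001,nat_lit 0x2000001,nat_lit 0x11000001,
    nat_lit 0x10000001],[nat_lit 32,nat_lit 0x1001010,nat_lit 0x10010,nat_lit 0x1010010,nat_lit 0x100010,
    nat_lit 0x1100010,nat_lit 0x110010,nat_lit 0x1000010,nat_lit 0x2000010,nat_lit 0x10000010],[nat_lit 512,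
    nat_lit 0x10100,nat_lit 0x100100,nat_lit 0x1000100],[nat_lit 0x2000,nat_lit 0x11000,nat_lit 0x21000,
    nat_lit 0x1011000,nat_lit 0x10011000,nat_lit 0x101000,nat_lit 0x10101000,nat_lit 0x1001000,nat_lit 0x2001000,
    nat_lit 0x11001000,nat_lit 0x10001000],[nat_lit 0x20000,nat_lit 0x30000,nat_lit 0x120000,nat_lit 0x1020000,
    nat_lit 0x10020000,nat_lit 0x110000,nat_lit 0x210000,nat_lit 0x1110000,nat_lit 0x10110000,nat_lit 0x1010000,
    nat_lit 0x2010000,nat_lit 0x11010000,nat_lit 0x10010000,nat_lit 0x20010000],[nat_lit 0x200000,nat_lit 0x300000,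
    nat_lit 0x1200000,nat_lit 0x10200000,nat_lit 0x1100000,nat_lit 0x2100000,nat_lit 0x11100000,nat_lit 0x10100000],
    [nat_lit 0x2000000,nat_lit 0x3000000,nat_lit 0x4000000,nat_lit 0x12000000,nat_lit 0x11000000,nat_lit 0x21000000],
    [nat_lit 0x20000000]]
    [.c (nat_lit 1) (nat_lit 2),.c (nat_lit 0) (nat_lit 0xc6318043),.r (nat_lit 0xdb8) (nat_lit 11) [nat_lit 65,
    nat_lit 0x1806000861],.c (nat_lit 0) (nat_lit 0x80200803),.c (nat_lit 0) (nat_lit 0x80200803),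
    .c (nat_lit 1) (nat_lit 0xc0000802),.r (nat_lit 0x814) (nat_lit 4) [nat_lit 0x210001,nat_lit 0x28c6b28841,
    nat_lit 0x1080810061,nat_lit 0x518041,nat_lit 0x4500001,nat_lit 0x1000610061],.c (nat_lit 0) (nat_lit 0x201003),
    .r (nat_lit 0xdb5) (nat_lit 13) [nat_lit 0x200001,nat_lit 0x1088020061],.c (nat_lit 0) (nat_lit 0x80200803),
    .c (nat_lit 0) (nat_lit 0xc6318043),.r (nat_lit 0xdbf) (nat_lit 8) [nat_lit 0x200001,nat_lit 0x80018041],
    .r (nat_lit 0xdb8) (nat_lit 11) [nat_lit 0x80000041,nat_lit 0x18c6000861],.c (nat_lit 1) (nat_lit 0x802),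
    .c (nat_lit 2) (nat_lit 2),.c (nat_lit 0) (nat_lit 0x80210862),.c (nat_lit 0) (nat_lit 0x6318c43),
    .c (nat_lit 0) (nat_lit 0x6318c43),.r (nat_lit 3) (nat_lit 9) [nat_lit 65,nat_lit 0x200001,nat_lit 0x1084000001,
    nat_lit 0x1000200001],.r (nat_lit 0xdb5) (nat_lit 13) [nat_lit 0x200001,nat_lit 0x300861],
    .c (nat_lit 2) (nat_lit 0x146518c42),.c (nat_lit 0) (nat_lit 0xc6318043),.c (nat_lit 0) (nat_lit 0x6318c43),
    .c (nat_lit 0) (nat_lit 0xc6318c43),.c (nat_lit 3) (nat_lit 2),.c (nat_lit 0) (nat_lit 0x80010003),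
    .r (nat_lit 0xdb5) (nat_lit 13) [nat_lit 0x200001,nat_lit 0x1084210061],.c (nat_lit 0) (nat_lit 0x80010003),
    .c (nat_lit 4) (nat_lit 2),.c (nat_lit 1) (nat_lit 0xc6001002),.r (nat_lit 0x814) (nat_lit 4) [nat_lit 0x210001,
    nat_lit 0x3946b18841,nat_lit 0x2100800061,nat_lit 0x18c0500041,nat_lit 0x4500001,nat_lit 0x2080600061],
    .r (nat_lit 0xdb8) (nat_lit 11) [nat_lit 0x1800010041,nat_lit 0x6018861],
    .r (nat_lit 0xdb5) (nat_lit 13) [nat_lit 0x200001,nat_lit 0x10041],.c (nat_lit 0) (nat_lit 0x84200003),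
    .c (nat_lit 0) (nat_lit 0x6300002),.r (nat_lit 0xdbf) (nat_lit 8) [nat_lit 0x200001,nat_lit 65],
    .r (nat_lit 324) (nat_lit 4) [nat_lit 0xc0010041,nat_lit 0x1806318861,nat_lit 0x80200061,nat_lit 65,
    nat_lit 0x10c0000041,nat_lit 0x1040000a1],.c (nat_lit 2) (nat_lit 0x146529483),
    .r (nat_lit 0xdb8) (nat_lit 11) [nat_lit 0x10041,nat_lit 0x1806018861],.c (nat_lit 5) (nat_lit 2),
    .r (nat_lit 325) (nat_lit 0) [nat_lit 0x600001,nat_lit 0x630001,nat_lit 0x69cf339841,nat_lit 0x3180c00061,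
    nat_lit 65,nat_lit 0xcd00001],.c (nat_lit 0) (nat_lit 0x100200003),.c (nat_lit 0) (nat_lit 0x100200003),
    .r (nat_lit 323) (nat_lit 4) [nat_lit 0x10041,nat_lit 0x28c63188a1,nat_lit 0x200061,nat_lit 0x1080000081,
    nat_lit 0x40000a1,nat_lit 0x1000000041],.c (nat_lit 0) (nat_lit 0x104410863),
    .r (nat_lit 3) (nat_lit 9) [nat_lit 0x28ca318841,nat_lit 0x200001,nat_lit 0x1084000001,nat_lit 0x1000200001],
    .c (nat_lit 0) (nat_lit 0x100200003),.c (nat_lit 0) (nat_lit 0x80200003),.c (nat_lit 0) (nat_lit 0x80000c03),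
    .c (nat_lit 0) (nat_lit 0x6318c43),.c (nat_lit 1) (nat_lit 0xc0001002),.c (nat_lit 0) (nat_lit 0x80200003),
    .r (nat_lit 0x814) (nat_lit 4) [nat_lit 0x210001,nat_lit 0x28c6b18841,nat_lit 0x1080800061,nat_lit 0x500041,
    nat_lit 0x4500001,nat_lit 0x1000600061],.c (nat_lit 6) (nat_lit 2),
    .r (nat_lit 0xdb5) (nat_lit 13) [nat_lit 0x200001,nat_lit 0x210c020062],
    .r (nat_lit 326) (nat_lit 4) [nat_lit 0x210001,nat_lit 0x18c4d18861,nat_lit 0x8aa00041,nat_lit 0x1008700061,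
    nat_lit 0x4500001,nat_lit 0xa800041],.r (nat_lit 0xdb5) (nat_lit 13) [nat_lit 0x200001,nat_lit 0x1088010061],
    .c (nat_lit 0) (nat_lit 0x80200003),.c (nat_lit 0) (nat_lit 0x100200003),.c (nat_lit 0) (nat_lit 0x80200003),
    .c (nat_lit 0) (nat_lit 0x200005),.c (nat_lit 7) (nat_lit 2),.r (nat_lit 327) (nat_lit 15) [nat_lit 0x630001,
    nat_lit 0x180038041,nat_lit 0x3000038061,nat_lit 0xc060001,nat_lit 65,nat_lit 0x38001],
    .r (nat_lit 0x847) (nat_lit 6) [nat_lit 0x208000042,nat_lit 0x6400001,nat_lit 0x4a5a94a062,nat_lit 0x4020001,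
    nat_lit 0x4000001,nat_lit 66],.r (nat_lit 0xdbf) (nat_lit 8) [nat_lit 0x200001,nat_lit 0x80000041],
    .c (nat_lit 0) (nat_lit 0xc6318c43),.r (nat_lit 0xdb8) (nat_lit 11) [nat_lit 0x80010041,nat_lit 0x18c6018861],
    .c (nat_lit 8) (nat_lit 2)]]

/-- nodes -/
noncomputable def rD8k_20_20 : List RJ :=
  [.l (nat_lit 11) (nat_lit 480) (nat_lit 3) (nat_lit 0x11400000114000000df000000df000000dc000000dc000000df000000df000000cc000000e8000000dd000000dd000000d8000000d8000000d8000000ec) (nat_lit 0x3500000035000000380000003800000035000000350000002c0000004800000037000000370000003c0000003c000000280000003c)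
    (nat_lit 0x228450808fb2003c87791b0fc330628dd18c208760a4228450728df1dc380628f11d0330568dd1c4360680ce1be3ec530aa12a284550981662c4540a815a34c5b8991ca404550a614e29c5a0a2182254540a21562dc508a31c03c8538a1158290548a716c22848897140280490981dc400538951702b0508a7154250548a31402803c0a01e246c5109814e29c5509616a274540ae14627c498a318a3bc5a0aa1422a4550aa16625c540a81422a45b8a71983304a8b11282284b89d140210478951182404a0921d01f8608b31542d8598b5178280558b10f02986008a1ba374510a814625c540ae162254560a618629c8f8d515a314540a8152244540a815623c530ac17a284858c11b02085b8d31402805489f14c240508a70f8270640801c4318558ad140280508a30f02305e8c31381f07209c19c29051899140260538a3114248608d51382006109c1a03b0508b70f02485b8931802508591f1c8320620c2)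
    (nat_lit 0x228780f01e03c0780f01e03c0780f01e03c0780f01e0228450f01e03c0780f01e03c0780f01e03c0780f01e0202394531e03c0780f01e03c0780f01e03c0780f01e01f637c550a63c0780f01e03c0780f01e03c0780f01e02003b84a8a7158780f01e03c0780f01e03c0780f01e01e4380508a71482b0f01e03c0780f01e03c0780f01e01de314550b4152284551e03c0780f01e03c0780f01e02363c44c0a214e29c4b0aa3c0780f01e03c0780f01e00fc3a0598c116c2a85a8b3140780f01e03c0780f01e0198330588951142504e897108280f01e03c0780f01e018a2b4540a81222a4540a811e2ac561e03c0780f01e01ba374540a212e28c570a812a2c4530ac3c0780f01e018c388568ab140280518a11181e0618bd0f8780f01e0104360698b71402804f8a9120298538a11381f0f01e01d83405b8a11241e0498b712830087909190390611e01483384c8a3130280518a71242286a8c11002704e0c2)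
    (nat_lit 5) (nat_lit 61)
    [[nat_lit 2,nat_lit 0x100002,nat_lit 17,nat_lit 0x1011,nat_lit 0x1001,nat_lit 0x2001,nat_lit 0x101001,
    nat_lit 0x10001,nat_lit 0x10011,nat_lit 0x11001,nat_lit 0x110001,nat_lit 0x100001,nat_lit 0x100011,
    nat_lit 0x200001,nat_lit 0x1100001,nat_lit 0x100101,nat_lit 0x1000001,nat_lit 0x1001001,nat_lit 0x1000011,
    nat_lit 0x10000001],[nat_lit 32,nat_lit 48,nat_lit 0x1020,nat_lit 0x10020,nat_lit 0x100020,nat_lit 272,
    nat_lit 0x1010,nat_lit 0x1110,nat_lit 0x2010,nat_lit 0x11010,nat_lit 0x101010,nat_lit 0x10001010,nat_lit 0x10010,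
    nat_lit 0x100010,nat_lit 0x100110,nat_lit 0x1000010,nat_lit 0x10000010],[nat_lit 512,nat_lit 0x1100,
    nat_lit 0x101100,nat_lit 0x10100,nat_lit 0x100100,nat_lit 0x1100100,nat_lit 0x1000100,nat_lit 0x10000100,
    nat_lit 0x10001100],[nat_lit 0x2000,nat_lit 0x102000,nat_lit 0x11000,nat_lit 0x101000,nat_lit 0x1001000,
    nat_lit 0x10001000],[nat_lit 0x20000,nat_lit 0x110000,nat_lit 0x1010000],[nat_lit 0x200000,nat_lit 0x1100000],
    [nat_lit 0x2000000],[]]
    [.c (nat_lit 1) (nat_lit 2),.r (nat_lit 0x84a) (nat_lit 10) [nat_lit 0x18c66398c3,nat_lit 0x10005000e3,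
    nat_lit 0x80200003,nat_lit 0x45000e3,nat_lit 0x200041,nat_lit 0x310061],.c (nat_lit 0) (nat_lit 0x211c07),
    .r (nat_lit 376) (nat_lit 3) [nat_lit 0x18863600c3,nat_lit 0x18003300c3,nat_lit 0x10044680e3,nat_lit 0x10001,
    nat_lit 0x10042580e1,nat_lit 0x28ca5618c3],.c (nat_lit 0) (nat_lit 0x80011c07),
    .r (nat_lit 376) (nat_lit 3) [nat_lit 0x28803600c3,nat_lit 0x28043300c3,nat_lit 0x20004680e3,nat_lit 0x10001,
    nat_lit 0x20002580e1,nat_lit 0x38c65618c3],.r (nat_lit 0xdbb) (nat_lit 10) [nat_lit 0x18003300c3,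
    nat_lit 0x80200003],.c (nat_lit 0) (nat_lit 0x14a20358d),.c (nat_lit 0) (nat_lit 0xc6011cc7),
    .c (nat_lit 0) (nat_lit 0x6311cc7),.r (nat_lit 0xdb2) (nat_lit 8) [nat_lit 0x10001,nat_lit 0x18861],
    .r (nat_lit 0xdb8) (nat_lit 10) [nat_lit 65,nat_lit 0x10001],.r (nat_lit 0xdbb) (nat_lit 10) [nat_lit 0x63300c3,
    nat_lit 0x80200003],.r (nat_lit 0x84b) (nat_lit 10) [nat_lit 0x294ac6b0c3,nat_lit 0x20009000e3,
    nat_lit 0x100400003,nat_lit 0x89000e3,nat_lit 0x400041,nat_lit 0x520061],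
    .r (nat_lit 0x84c) (nat_lit 15) [nat_lit 0x2002300e6,nat_lit 0x40002300e6,nat_lit 0x4a5279e0e6,nat_lit 0x3380c2,
    nat_lit 0x20001,nat_lit 0x218042],.c (nat_lit 0) (nat_lit 0x6018006),.c (nat_lit 0) (nat_lit 0xc63000c7),
    .c (nat_lit 7) (nat_lit 0xc0019806),.c (nat_lit 7) (nat_lit 0x319806),.c (nat_lit 0) (nat_lit 0x210007),
    .c (nat_lit 2) (nat_lit 2),.r (nat_lit 0x991) (nat_lit 15) [nat_lit 0x80200001,nat_lit 0x1006000041,
    nat_lit 0x18c43398a1,nat_lit 0x6330041,nat_lit 0x4200061],.r (nat_lit 0x991) (nat_lit 15) [nat_lit 0x80200001,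
    nat_lit 0x200a0000c3,nat_lit 0x19c479c9a3,nat_lit 0x180a7900c3,nat_lit 0x10086000e3],
    .c (nat_lit 0) (nat_lit 0xc6219cc7),.c (nat_lit 0) (nat_lit 0xc6219cc7),
    .r (nat_lit 0xdb3) (nat_lit 14) [nat_lit 0x10060000c3,nat_lit 0x1082001a3],.c (nat_lit 2) (nat_lit 0xc0200006),
    .r (nat_lit 0xdb2) (nat_lit 8) [nat_lit 0x10001,nat_lit 65],.r (nat_lit 0x991) (nat_lit 15) [nat_lit 0x80200001,
    nat_lit 0x10060000c3,nat_lit 0x11c679c9a3,nat_lit 0x28067900c3,nat_lit 0x20046000e3],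
    .c (nat_lit 0) (nat_lit 0x6019cc7),.c (nat_lit 0) (nat_lit 0x6019cc7),
    .r (nat_lit 0xdb3) (nat_lit 14) [nat_lit 0x860000c3,nat_lit 0x20082001a3],.c (nat_lit 0) (nat_lit 0xc6011cc7),
    .c (nat_lit 1) (nat_lit 0x320006),.c (nat_lit 0) (nat_lit 0x6310006),
    .r (nat_lit 376) (nat_lit 3) [nat_lit 0x860300c3,nat_lit 65,nat_lit 0x42380e3,nat_lit 0x10001,nat_lit 0x40280e1,
    nat_lit 0x18ca3318c3],.c (nat_lit 0) (nat_lit 0x210007),.c (nat_lit 3) (nat_lit 2),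
    .r (nat_lit 0xdb3) (nat_lit 14) [nat_lit 65,nat_lit 0x21002001a3],.c (nat_lit 0) (nat_lit 0xca000006),
    .r (nat_lit 0xdbb) (nat_lit 4) [nat_lit 0x10001,nat_lit 65],.r (nat_lit 0xdb3) (nat_lit 14) [nat_lit 0x11000000e3,
    nat_lit 0x140200183],.c (nat_lit 0) (nat_lit 0x6000c02),.c (nat_lit 0) (nat_lit 0x6201c06),
    .c (nat_lit 0) (nat_lit 0xca319cc6),.c (nat_lit 1) (nat_lit 0x84020007),.c (nat_lit 4) (nat_lit 2),
    .c (nat_lit 0) (nat_lit 0x86319cc7),.c (nat_lit 0) (nat_lit 0x6311cc7),.c (nat_lit 1) (nat_lit 0xc0020006),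
    .r (nat_lit 376) (nat_lit 3) [nat_lit 0x18800300c3,nat_lit 0x18040000c3,nat_lit 0x10002380e3,nat_lit 0x10001,
    nat_lit 0x10000280e1,nat_lit 0x28c63318c3],.c (nat_lit 0) (nat_lit 0x80010007),.c (nat_lit 5) (nat_lit 2),
    .c (nat_lit 0) (nat_lit 0xc6219cc7),.c (nat_lit 0) (nat_lit 0xc63000c7),.c (nat_lit 6) (nat_lit 2),
    .r (nat_lit 0xdbb) (nat_lit 10) [nat_lit 65,nat_lit 0x80200003],.c (nat_lit 7) (nat_lit 2)]]

end Pool.Agent.Lib_MP_fa6e45
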