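import Pool.Agent.Lib_MP_fa6e45.DQ8k_0d
import Pool.Agent.Lib_MP_fa6e45.RD8k_20

/-!
MP_fa6e45_co, stage 9: straight-side patterns with `8` sides, part of a certificate (generated by a program).
-/

namespace Pool.Agent.Lib_MP_fa6e45

theorem cD8k_0_k20_0 : allI cD8k_0_c (rjL dJ cD8k_0_q rD8k_20_0) 4352 = true := by
  decide +kernel

theorem cD8k_0_k20_1 : allI cD8k_0_c (rjL dJ cD8k_0_q rD8k_20_1) 4353 = true := by
  decide +kernel

theorem cD8k_0_k20_2 : allI cD8k_0_c (rjL dJ cD8k_0_q rD8k_20_2) 4355 = true := by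
  decide +kernel

theorem cD8k_0_k20_3 : allI cD8k_0_c (rjL dJ cD8k_0_q rD8k_20_3) 4357 = true := by
  decide +kernel

theorem cD8k_0_k20_4 : allI cD8k_0_c (rjL dJ cD8k_0_q rD8k_20_4) 4358 = true := by
  decide +kernel

theorem cD8k_0_k20_5 : allI cD8k_0_c (rjL dJ cD8k_0_q rD8k_20_5) 4359 = true := by
  decide +kernel

theorem cD8k_0_k20_6 : allI cD8k_0_c (rjL dJ cD8k_0_q rD8k_20_6) 4360 = true := by
  decide +kernel

theorem cD8k_0_k20_7 : allI cD8k_0_c (rjL dJ cD8k_0_q rD8k_20_7) 4362 = true := by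
  decide +kernel

theorem cD8k_0_k20_8 : allI cD8k_0_c (rjL dJ cD8k_0_q rD8k_20_8) 4364 = true := by
  decide +kernel

theorem cD8k_0_k20_9 : allI cD8k_0_c (rjL dJ cD8k_0_q rD8k_20_9) 4366 = true := by
  decide +kernel

theorem cD8k_0_k20_10 : allI cD8k_0_c (rjL dJ cD8k_0_q rD8k_20_10) 4368 = true := by
  decide +kernel

theorem cD8k_0_k20_11 : allI cD8k_0_c (rjL dJ cD8k_0_q rD8k_20_11) 4371 = true := by
  decide +kernel

theorem cD8k_0_k20_12 : allI cD8k_0_c (rjL dJ cD8k_0_q rD8k_20_12) 4373 = true := by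
  decide +kernel

theorem cD8k_0_k20_13 : allI cD8k_0_c (rjL dJ cD8k_0_q rD8k_20_13) 4374 = true := by
  decide +kernel

theorem cD8k_0_k20_14 : allI cD8k_0_c (rjL dJ cD8k_0_q rD8k_20_14) 4375 = true := by
  decide +kernel

theorem cD8k_0_k20_15 : allI cD8k_0_c (rjL dJ cD8k_0_q rD8k_20_15) 4377 = true := by
  decide +kernel

theorem cD8k_0_k20_16 : allI cD8k_0_c (rjL dJ cD8k_0_q rD8k_20_16) 4379 = true := by
  decide +kernel

theorem cD8k_0_k20_17 : allI cD8k_0_c (rjL dJ cD8k_0_q rD8k_20_17) 4380 = true := by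
  decide +kernel

theorem cD8k_0_k20_18 : allI cD8k_0_c (rjL dJ cD8k_0_q rD8k_20_18) 4382 = true := by
  decide +kernel

theorem cD8k_0_k20_19 : allI cD8k_0_c (rjL dJ cD8k_0_q rD8k_20_19) 4383 = true := by
  decide +kernel

theorem cD8k_0_k20_20 : allI cD8k_0_c (rjL dJ cD8k_0_q rD8k_20_20) 4384 = true := by
  decide +kernel

/-- nodes -/
noncomputable def cD8k_0_n20 : List (QJ PN) :=
  rjL dJ cD8k_0_q rD8k_20_0 ++ (rjL dJ cD8k_0_q rD8k_20_1 ++ (rjL dJ cD8k_0_q rD8k_20_2 ++ (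
    rjL dJ cD8k_0_q rD8k_20_3 ++ (rjL dJ cD8k_0_q rD8k_20_4 ++ (rjL dJ cD8k_0_q rD8k_20_5 ++ (
    rjL dJ cD8k_0_q rD8k_20_6 ++ (rjL dJ cD8k_0_q rD8k_20_7 ++ (rjL dJ cD8k_0_q rD8k_20_8 ++ (
    rjL dJ cD8k_0_q rD8k_20_9 ++ (rjL dJ cD8k_0_q rD8k_20_10 ++ (rjL dJ cD8k_0_q rD8k_20_11 ++ (
    rjL dJ cD8k_0_q rD8k_20_12 ++ (rjL dJ cD8k_0_q rD8k_20_13 ++ (rjL dJ cD8k_0_q rD8k_20_14 ++ (
    rjL dJ cD8k_0_q rD8k_20_15 ++ (rjL dJ cD8k_0_q rD8k_20_16 ++ (rjL dJ cD8k_0_q rD8k_20_17 ++ (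
    rjL dJ cD8k_0_q rD8k_20_18 ++ (rjL dJ cD8k_0_q rD8k_20_19 ++
    rjL dJ cD8k_0_q rD8k_20_20)))))))))))))))))))

theorem cD8k_0_k20 : allI cD8k_0_c cD8k_0_n20 4352 = true := by
  refine allI_appQ (k := 1) cD8k_0_k20_0 (by decide +kernel) ?_
  refine allI_appQ (k := 2) cD8k_0_k20_1 (by decide +kernel) ?_
  refine allI_appQ (k := 2) cD8k_0_k20_2 (by decide +kernel) ?_
  refine allI_appQ (k := 1) cD8k_0_k20_3 (by decide +kernel) ?_
  refine allI_appQ (k := 1) cD8k_0_k20_4 (by decide +kernel) ?_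
  refine allI_appQ (k := 1) cD8k_0_k20_5 (by decide +kernel) ?_
  refine allI_appQ (k := 2) cD8k_0_k20_6 (by decide +kernel) ?_
  refine allI_appQ (k := 2) cD8k_0_k20_7 (by decide +kernel) ?_
  refine allI_appQ (k := 2) cD8k_0_k20_8 (by decide +kernel) ?_
  refine allI_appQ (k := 2) cD8k_0_k20_9 (by decide +kernel) ?_
  refine allI_appQ (k := 3) cD8k_0_k20_10 (by decide +kernel) ?_
  refine allI_appQ (k := 2) cD8k_0_k20_11 (by decide +kernel) ?_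
  refine allI_appQ (k := 1) cD8k_0_k20_12 (by decide +kernel) ?_
  refine allI_appQ (k := 1) cD8k_0_k20_13 (by decide +kernel) ?_
  refine allI_appQ (k := 2) cD8k_0_k20_14 (by decide +kernel) ?_
  refine allI_appQ (k := 2) cD8k_0_k20_15 (by decide +kernel) ?_
  refine allI_appQ (k := 1) cD8k_0_k20_16 (by decide +kernel) ?_
  refine allI_appQ (k := 2) cD8k_0_k20_17 (by decide +kernel) ?_
  refine allI_appQ (k := 1) cD8k_0_k20_18 (by decide +kernel) ?_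
  refine allI_appQ (k := 1) cD8k_0_k20_19 (by decide +kernel) ?_
  exact cD8k_0_k20_20

theorem cD8k_0_l20 : cD8k_0_n20.length = 33 := by
  decide +kernel

end Pool.Agent.Lib_MP_fa6e45
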