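import Pool.Agent.Lib_MP_fa6e45.DQ8k_0d
import Pool.Agent.Lib_MP_fa6e45.RD8k_21

/-!
MP_fa6e45_co, stage 9: straight-side patterns with `8` sides, part of a certificate (generated by a program).
-/

namespace Pool.Agent.Lib_MP_fa6e45

theorem cD8k_0_k21_0 : allI cD8k_0_c (rjL dJ cD8k_0_q rD8k_21_0) 4385 = true := by
  decide +kernel

theorem cD8k_0_k21_1 : allI cD8k_0_c (rjL dJ cD8k_0_q rD8k_21_1) 4387 = true := by
  decide +kernel

theorem cD8k_0_k21_2 : allI cD8k_0_c (rjL dJ cD8k_0_q rD8k_21_2) 4389 = true := by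
  decide +kernel

theorem cD8k_0_k21_3 : allI cD8k_0_c (rjL dJ cD8k_0_q rD8k_21_3) 4392 = true := by
  decide +kernel

theorem cD8k_0_k21_4 : allI cD8k_0_c (rjL dJ cD8k_0_q rD8k_21_4) 4394 = true := by
  decide +kernel

theorem cD8k_0_k21_5 : allI cD8k_0_c (rjL dJ cD8k_0_q rD8k_21_5) 4396 = true := by
  decide +kernel

theorem cD8k_0_k21_6 : allI cD8k_0_c (rjL dJ cD8k_0_q rD8k_21_6) 4398 = true := by
  decide +kernel

theorem cD8k_0_k21_7 : allI cD8k_0_c (rjL dJ cD8k_0_q rD8k_21_7) 4400 = true := by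
  decide +kernel

theorem cD8k_0_k21_8 : allI cD8k_0_c (rjL dJ cD8k_0_q rD8k_21_8) 4403 = true := by
  decide +kernel

theorem cD8k_0_k21_9 : allI cD8k_0_c (rjL dJ cD8k_0_q rD8k_21_9) 4405 = true := by
  decide +kernel

theorem cD8k_0_k21_10 : allI cD8k_0_c (rjL dJ cD8k_0_q rD8k_21_10) 4407 = true := by
  decide +kernel

theorem cD8k_0_k21_11 : allI cD8k_0_c (rjL dJ cD8k_0_q rD8k_21_11) 4409 = true := by
  decide +kernel

theorem cD8k_0_k21_12 : allI cD8k_0_c (rjL dJ cD8k_0_q rD8k_21_12) 4411 = true := by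
  decide +kernel

theorem cD8k_0_k21_13 : allI cD8k_0_c (rjL dJ cD8k_0_q rD8k_21_13) 4413 = true := by
  decide +kernel

theorem cD8k_0_k21_14 : allI cD8k_0_c (rjL dJ cD8k_0_q rD8k_21_14) 4414 = true := by
  decide +kernel

theorem cD8k_0_k21_15 : allI cD8k_0_c (rjL dJ cD8k_0_q rD8k_21_15) 4416 = true := by
  decide +kernel

theorem cD8k_0_k21_16 : allI cD8k_0_c (rjL dJ cD8k_0_q rD8k_21_16) 4418 = true := by
  decide +kernel

theorem cD8k_0_k21_17 : allI cD8k_0_c (rjL dJ cD8k_0_q rD8k_21_17) 4421 = true := by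
  decide +kernel

theorem cD8k_0_k21_18 : allI cD8k_0_c (rjL dJ cD8k_0_q rD8k_21_18) 4424 = true := by
  decide +kernel

theorem cD8k_0_k21_19 : allI cD8k_0_c (rjL dJ cD8k_0_q rD8k_21_19) 4426 = true := by
  decide +kernel

theorem cD8k_0_k21_20 : allI cD8k_0_c (rjL dJ cD8k_0_q rD8k_21_20) 4427 = true := by
  decide +kernel

theorem cD8k_0_k21_21 : allI cD8k_0_c (rjL dJ cD8k_0_q rD8k_21_21) 4430 = true := by
  decide +kernel

theorem cD8k_0_k21_22 : allI cD8k_0_c (rjL dJ cD8k_0_q rD8k_21_22) 4432 = true := by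
  decide +kernel

theorem cD8k_0_k21_23 : allI cD8k_0_c (rjL dJ cD8k_0_q rD8k_21_23) 4434 = true := by
  decide +kernel

theorem cD8k_0_k21_24 : allI cD8k_0_c (rjL dJ cD8k_0_q rD8k_21_24) 4436 = true := by
  decide +kernel

theorem cD8k_0_k21_25 : allI cD8k_0_c (rjL dJ cD8k_0_q rD8k_21_25) 4438 = true := by
  decide +kernel

theorem cD8k_0_k21_26 : allI cD8k_0_c (rjL dJ cD8k_0_q rD8k_21_26) 4441 = true := by
  decide +kernel

theorem cD8k_0_k21_27 : allI cD8k_0_c (rjL dJ cD8k_0_q rD8k_21_27) 4443 = true := by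
  decide +kernel

theorem cD8k_0_k21_28 : allI cD8k_0_c (rjL dJ cD8k_0_q rD8k_21_28) 4445 = true := by
  decide +kernel

theorem cD8k_0_k21_29 : allI cD8k_0_c (rjL dJ cD8k_0_q rD8k_21_29) 4446 = true := by
  decide +kernel

theorem cD8k_0_k21_30 : allI cD8k_0_c (rjL dJ cD8k_0_q rD8k_21_30) 4448 = true := by
  decide +kernel

theorem cD8k_0_k21_31 : allI cD8k_0_c (rjL dJ cD8k_0_q rD8k_21_31) 4450 = true := by
  decide +kernel

theorem cD8k_0_k21_32 : allI cD8k_0_c (rjL dJ cD8k_0_q rD8k_21_32) 4452 = true := by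
  decide +kernel

theorem cD8k_0_k21_33 : allI cD8k_0_c (rjL dJ cD8k_0_q rD8k_21_33) 4454 = true := by
  decide +kernel

theorem cD8k_0_k21_34 : allI cD8k_0_c (rjL dJ cD8k_0_q rD8k_21_34) 4456 = true := by
  decide +kernel

theorem cD8k_0_k21_35 : allI cD8k_0_c (rjL dJ cD8k_0_q rD8k_21_35) 4458 = true := by
  decide +kernel

theorem cD8k_0_k21_36 : allI cD8k_0_c (rjL dJ cD8k_0_q rD8k_21_36) 4461 = true := by
  decide +kernel

theorem cD8k_0_k21_37 : allI cD8k_0_c (rjL dJ cD8k_0_q rD8k_21_37) 4463 = true := by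
  decide +kernel

theorem cD8k_0_k21_38 : allI cD8k_0_c (rjL dJ cD8k_0_q rD8k_21_38) 4466 = true := by
  decide +kernel

theorem cD8k_0_k21_39 : allI cD8k_0_c (rjL dJ cD8k_0_q rD8k_21_39) 4469 = true := by
  decide +kernel

theorem cD8k_0_k21_40 : allI cD8k_0_c (rjL dJ cD8k_0_q rD8k_21_40) 4471 = true := by
  decide +kernel

theorem cD8k_0_k21_41 : allI cD8k_0_c (rjL dJ cD8k_0_q rD8k_21_41) 4473 = true := by
  decide +kernel

theorem cD8k_0_k21_42 : allI cD8k_0_c (rjL dJ cD8k_0_q rD8k_21_42) 4475 = true := by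
  decide +kernel

theorem cD8k_0_k21_43 : allI cD8k_0_c (rjL dJ cD8k_0_q rD8k_21_43) 4476 = true := by
  decide +kernel

theorem cD8k_0_k21_44 : allI cD8k_0_c (rjL dJ cD8k_0_q rD8k_21_44) 4478 = true := by
  decide +kernel

theorem cD8k_0_k21_45 : allI cD8k_0_c (rjL dJ cD8k_0_q rD8k_21_45) 4480 = true := by
  decide +kernel

theorem cD8k_0_k21_46 : allI cD8k_0_c (rjL dJ cD8k_0_q rD8k_21_46) 4482 = true := by
  decide +kernel

/-- nodes -/
noncomputable def cD8k_0_n21 : List (QJ PN) :=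
  rjL dJ cD8k_0_q rD8k_21_0 ++ (rjL dJ cD8k_0_q rD8k_21_1 ++ (rjL dJ cD8k_0_q rD8k_21_2 ++ (
    rjL dJ cD8k_0_q rD8k_21_3 ++ (rjL dJ cD8k_0_q rD8k_21_4 ++ (rjL dJ cD8k_0_q rD8k_21_5 ++ (
    rjL dJ cD8k_0_q rD8k_21_6 ++ (rjL dJ cD8k_0_q rD8k_21_7 ++ (rjL dJ cD8k_0_q rD8k_21_8 ++ (
    rjL dJ cD8k_0_q rD8k_21_9 ++ (rjL dJ cD8k_0_q rD8k_21_10 ++ (rjL dJ cD8k_0_q rD8k_21_11 ++ (
    rjL dJ cD8k_0_q rD8k_21_12 ++ (rjL dJ cD8k_0_q rD8k_21_13 ++ (rjL dJ cD8k_0_q rD8k_21_14 ++ (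
    rjL dJ cD8k_0_q rD8k_21_15 ++ (rjL dJ cD8k_0_q rD8k_21_16 ++ (rjL dJ cD8k_0_q rD8k_21_17 ++ (
    rjL dJ cD8k_0_q rD8k_21_18 ++ (rjL dJ cD8k_0_q rD8k_21_19 ++ (rjL dJ cD8k_0_q rD8k_21_20 ++ (
    rjL dJ cD8k_0_q rD8k_21_21 ++ (rjL dJ cD8k_0_q rD8k_21_22 ++ (rjL dJ cD8k_0_q rD8k_21_23 ++ (
    rjL dJ cD8k_0_q rD8k_21_24 ++ (rjL dJ cD8k_0_q rD8k_21_25 ++ (rjL dJ cD8k_0_q rD8k_21_26 ++ (
    rjL dJ cD8k_0_q rD8k_21_27 ++ (rjL dJ cD8k_0_q rD8k_21_28 ++ (rjL dJ cD8k_0_q rD8k_21_29 ++ (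
    rjL dJ cD8k_0_q rD8k_21_30 ++ (rjL dJ cD8k_0_q rD8k_21_31 ++ (rjL dJ cD8k_0_q rD8k_21_32 ++ (
    rjL dJ cD8k_0_q rD8k_21_33 ++ (rjL dJ cD8k_0_q rD8k_21_34 ++ (rjL dJ cD8k_0_q rD8k_21_35 ++ (
    rjL dJ cD8k_0_q rD8k_21_36 ++ (rjL dJ cD8k_0_q rD8k_21_37 ++ (rjL dJ cD8k_0_q rD8k_21_38 ++ (
    rjL dJ cD8k_0_q rD8k_21_39 ++ (rjL dJ cD8k_0_q rD8k_21_40 ++ (rjL dJ cD8k_0_q rD8k_21_41 ++ (
    rjL dJ cD8k_0_q rD8k_21_42 ++ (rjL dJ cD8k_0_q rD8k_21_43 ++ (rjL dJ cD8k_0_q rD8k_21_44 ++ (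
    rjL dJ cD8k_0_q rD8k_21_45 ++
    rjL dJ cD8k_0_q rD8k_21_46)))))))))))))))))))))))))))))))))))))))))))))

theorem cD8k_0_k21 : allI cD8k_0_c cD8k_0_n21 4385 = true := by
  refine allI_appQ (k := 2) cD8k_0_k21_0 (by decide +kernel) ?_
  refine allI_appQ (k := 2) cD8k_0_k21_1 (by decide +kernel) ?_
  refine allI_appQ (k := 3) cD8k_0_k21_2 (by decide +kernel) ?_
  refine allI_appQ (k := 2) cD8k_0_k21_3 (by decide +kernel) ?_
  refine allI_appQ (k := 2) cD8k_0_k21_4 (by decide +kernel) ?_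
  refine allI_appQ (k := 2) cD8k_0_k21_5 (by decide +kernel) ?_
  refine allI_appQ (k := 2) cD8k_0_k21_6 (by decide +kernel) ?_
  refine allI_appQ (k := 3) cD8k_0_k21_7 (by decide +kernel) ?_
  refine allI_appQ (k := 2) cD8k_0_k21_8 (by decide +kernel) ?_
  refine allI_appQ (k := 2) cD8k_0_k21_9 (by decide +kernel) ?_
  refine allI_appQ (k := 2) cD8k_0_k21_10 (by decide +kernel) ?_
  refine allI_appQ (k := 2) cD8k_0_k21_11 (by decide +kernel) ?_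
  refine allI_appQ (k := 2) cD8k_0_k21_12 (by decide +kernel) ?_
  refine allI_appQ (k := 1) cD8k_0_k21_13 (by decide +kernel) ?_
  refine allI_appQ (k := 2) cD8k_0_k21_14 (by decide +kernel) ?_
  refine allI_appQ (k := 2) cD8k_0_k21_15 (by decide +kernel) ?_
  refine allI_appQ (k := 3) cD8k_0_k21_16 (by decide +kernel) ?_
  refine allI_appQ (k := 3) cD8k_0_k21_17 (by decide +kernel) ?_
  refine allI_appQ (k := 2) cD8k_0_k21_18 (by decide +kernel) ?_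
  refine allI_appQ (k := 1) cD8k_0_k21_19 (by decide +kernel) ?_
  refine allI_appQ (k := 3) cD8k_0_k21_20 (by decide +kernel) ?_
  refine allI_appQ (k := 2) cD8k_0_k21_21 (by decide +kernel) ?_
  refine allI_appQ (k := 2) cD8k_0_k21_22 (by decide +kernel) ?_
  refine allI_appQ (k := 2) cD8k_0_k21_23 (by decide +kernel) ?_
  refine allI_appQ (k := 2) cD8k_0_k21_24 (by decide +kernel) ?_
  refine allI_appQ (k := 3) cD8k_0_k21_25 (by decide +kernel) ?_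
  refine allI_appQ (k := 2) cD8k_0_k21_26 (by decide +kernel) ?_
  refine allI_appQ (k := 2) cD8k_0_k21_27 (by decide +kernel) ?_
  refine allI_appQ (k := 1) cD8k_0_k21_28 (by decide +kernel) ?_
  refine allI_appQ (k := 2) cD8k_0_k21_29 (by decide +kernel) ?_
  refine allI_appQ (k := 2) cD8k_0_k21_30 (by decide +kernel) ?_
  refine allI_appQ (k := 2) cD8k_0_k21_31 (by decide +kernel) ?_
  refine allI_appQ (k := 2) cD8k_0_k21_32 (by decide +kernel) ?_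
  refine allI_appQ (k := 2) cD8k_0_k21_33 (by decide +kernel) ?_
  refine allI_appQ (k := 2) cD8k_0_k21_34 (by decide +kernel) ?_
  refine allI_appQ (k := 3) cD8k_0_k21_35 (by decide +kernel) ?_
  refine allI_appQ (k := 2) cD8k_0_k21_36 (by decide +kernel) ?_
  refine allI_appQ (k := 3) cD8k_0_k21_37 (by decide +kernel) ?_
  refine allI_appQ (k := 3) cD8k_0_k21_38 (by decide +kernel) ?_
  refine allI_appQ (k := 2) cD8k_0_k21_39 (by decide +kernel) ?_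
  refine allI_appQ (k := 2) cD8k_0_k21_40 (by decide +kernel) ?_
  refine allI_appQ (k := 2) cD8k_0_k21_41 (by decide +kernel) ?_
  refine allI_appQ (k := 1) cD8k_0_k21_42 (by decide +kernel) ?_
  refine allI_appQ (k := 2) cD8k_0_k21_43 (by decide +kernel) ?_
  refine allI_appQ (k := 2) cD8k_0_k21_44 (by decide +kernel) ?_
  refine allI_appQ (k := 2) cD8k_0_k21_45 (by decide +kernel) ?_
  exact cD8k_0_k21_46

theorem cD8k_0_l21 : cD8k_0_n21.length = 100 := by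
  decide +kernel

end Pool.Agent.Lib_MP_fa6e45
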