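import Pool.Agent.Lib_MP_fa6e45.DQ8k_0d
import Pool.Agent.Lib_MP_fa6e45.RD8k_22

/-!
MP_fa6e45_co, stage 9: straight-side patterns with `8` sides, part of a certificate (generated by a program).
-/

namespace Pool.Agent.Lib_MP_fa6e45

theorem cD8k_0_k22_0 : allI cD8k_0_c (rjL dJ cD8k_0_q rD8k_22_0) 4485 = true := by
  decide +kernel

theorem cD8k_0_k22_1 : allI cD8k_0_c (rjL dJ cD8k_0_q rD8k_22_1) 4488 = true := by
  decide +kernel

theorem cD8k_0_k22_2 : allI cD8k_0_c (rjL dJ cD8k_0_q rD8k_22_2) 4491 = true := by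
  decide +kernel

theorem cD8k_0_k22_3 : allI cD8k_0_c (rjL dJ cD8k_0_q rD8k_22_3) 4494 = true := by
  decide +kernel

theorem cD8k_0_k22_4 : allI cD8k_0_c (rjL dJ cD8k_0_q rD8k_22_4) 4497 = true := by
  decide +kernel

theorem cD8k_0_k22_5 : allI cD8k_0_c (rjL dJ cD8k_0_q rD8k_22_5) 4499 = true := by
  decide +kernel

theorem cD8k_0_k22_6 : allI cD8k_0_c (rjL dJ cD8k_0_q rD8k_22_6) 4501 = true := by
  decide +kernel

theorem cD8k_0_k22_7 : allI cD8k_0_c (rjL dJ cD8k_0_q rD8k_22_7) 4504 = true := by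
  decide +kernel

theorem cD8k_0_k22_8 : allI cD8k_0_c (rjL dJ cD8k_0_q rD8k_22_8) 4507 = true := by
  decide +kernel

theorem cD8k_0_k22_9 : allI cD8k_0_c (rjL dJ cD8k_0_q rD8k_22_9) 4509 = true := by
  decide +kernel

theorem cD8k_0_k22_10 : allI cD8k_0_c (rjL dJ cD8k_0_q rD8k_22_10) 4511 = true := by
  decide +kernel

theorem cD8k_0_k22_11 : allI cD8k_0_c (rjL dJ cD8k_0_q rD8k_22_11) 4513 = true := by
  decide +kernel

theorem cD8k_0_k22_12 : allI cD8k_0_c (rjL dJ cD8k_0_q rD8k_22_12) 4515 = true := by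
  decide +kernel

theorem cD8k_0_k22_13 : allI cD8k_0_c (rjL dJ cD8k_0_q rD8k_22_13) 4518 = true := by
  decide +kernel

theorem cD8k_0_k22_14 : allI cD8k_0_c (rjL dJ cD8k_0_q rD8k_22_14) 4521 = true := by
  decide +kernel

theorem cD8k_0_k22_15 : allI cD8k_0_c (rjL dJ cD8k_0_q rD8k_22_15) 4523 = true := by
  decide +kernel

theorem cD8k_0_k22_16 : allI cD8k_0_c (rjL dJ cD8k_0_q rD8k_22_16) 4526 = true := by
  decide +kernel

theorem cD8k_0_k22_17 : allI cD8k_0_c (rjL dJ cD8k_0_q rD8k_22_17) 4528 = true := by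
  decide +kernel

theorem cD8k_0_k22_18 : allI cD8k_0_c (rjL dJ cD8k_0_q rD8k_22_18) 4530 = true := by
  decide +kernel

theorem cD8k_0_k22_19 : allI cD8k_0_c (rjL dJ cD8k_0_q rD8k_22_19) 4532 = true := by
  decide +kernel

theorem cD8k_0_k22_20 : allI cD8k_0_c (rjL dJ cD8k_0_q rD8k_22_20) 4535 = true := by
  decide +kernel

theorem cD8k_0_k22_21 : allI cD8k_0_c (rjL dJ cD8k_0_q rD8k_22_21) 4537 = true := by
  decide +kernel

theorem cD8k_0_k22_22 : allI cD8k_0_c (rjL dJ cD8k_0_q rD8k_22_22) 4540 = true := by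
  decide +kernel

theorem cD8k_0_k22_23 : allI cD8k_0_c (rjL dJ cD8k_0_q rD8k_22_23) 4543 = true := by
  decide +kernel

theorem cD8k_0_k22_24 : allI cD8k_0_c (rjL dJ cD8k_0_q rD8k_22_24) 4546 = true := by
  decide +kernel

theorem cD8k_0_k22_25 : allI cD8k_0_c (rjL dJ cD8k_0_q rD8k_22_25) 4548 = true := by
  decide +kernel

theorem cD8k_0_k22_26 : allI cD8k_0_c (rjL dJ cD8k_0_q rD8k_22_26) 4550 = true := by
  decide +kernel

theorem cD8k_0_k22_27 : allI cD8k_0_c (rjL dJ cD8k_0_q rD8k_22_27) 4553 = true := by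
  decide +kernel

theorem cD8k_0_k22_28 : allI cD8k_0_c (rjL dJ cD8k_0_q rD8k_22_28) 4556 = true := by
  decide +kernel

theorem cD8k_0_k22_29 : allI cD8k_0_c (rjL dJ cD8k_0_q rD8k_22_29) 4558 = true := by
  decide +kernel

theorem cD8k_0_k22_30 : allI cD8k_0_c (rjL dJ cD8k_0_q rD8k_22_30) 4561 = true := by
  decide +kernel

theorem cD8k_0_k22_31 : allI cD8k_0_c (rjL dJ cD8k_0_q rD8k_22_31) 4564 = true := by
  decide +kernel

theorem cD8k_0_k22_32 : allI cD8k_0_c (rjL dJ cD8k_0_q rD8k_22_32) 4567 = true := by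
  decide +kernel

theorem cD8k_0_k22_33 : allI cD8k_0_c (rjL dJ cD8k_0_q rD8k_22_33) 4569 = true := by
  decide +kernel

theorem cD8k_0_k22_34 : allI cD8k_0_c (rjL dJ cD8k_0_q rD8k_22_34) 4571 = true := by
  decide +kernel

theorem cD8k_0_k22_35 : allI cD8k_0_c (rjL dJ cD8k_0_q rD8k_22_35) 4573 = true := by
  decide +kernel

theorem cD8k_0_k22_36 : allI cD8k_0_c (rjL dJ cD8k_0_q rD8k_22_36) 4575 = true := by
  decide +kernel

theorem cD8k_0_k22_37 : allI cD8k_0_c (rjL dJ cD8k_0_q rD8k_22_37) 4577 = true := by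
  decide +kernel

theorem cD8k_0_k22_38 : allI cD8k_0_c (rjL dJ cD8k_0_q rD8k_22_38) 4579 = true := by
  decide +kernel

theorem cD8k_0_k22_39 : allI cD8k_0_c (rjL dJ cD8k_0_q rD8k_22_39) 4581 = true := by
  decide +kernel

theorem cD8k_0_k22_40 : allI cD8k_0_c (rjL dJ cD8k_0_q rD8k_22_40) 4583 = true := by
  decide +kernel

theorem cD8k_0_k22_41 : allI cD8k_0_c (rjL dJ cD8k_0_q rD8k_22_41) 4585 = true := by
  decide +kernel

theorem cD8k_0_k22_42 : allI cD8k_0_c (rjL dJ cD8k_0_q rD8k_22_42) 4587 = true := by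
  decide +kernel

theorem cD8k_0_k22_43 : allI cD8k_0_c (rjL dJ cD8k_0_q rD8k_22_43) 4589 = true := by
  decide +kernel

theorem cD8k_0_k22_44 : allI cD8k_0_c (rjL dJ cD8k_0_q rD8k_22_44) 4591 = true := by
  decide +kernel

theorem cD8k_0_k22_45 : allI cD8k_0_c (rjL dJ cD8k_0_q rD8k_22_45) 4593 = true := by
  decide +kernel

/-- nodes -/
noncomputable def cD8k_0_n22 : List (QJ PN) :=
  rjL dJ cD8k_0_q rD8k_22_0 ++ (rjL dJ cD8k_0_q rD8k_22_1 ++ (rjL dJ cD8k_0_q rD8k_22_2 ++ (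
    rjL dJ cD8k_0_q rD8k_22_3 ++ (rjL dJ cD8k_0_q rD8k_22_4 ++ (rjL dJ cD8k_0_q rD8k_22_5 ++ (
    rjL dJ cD8k_0_q rD8k_22_6 ++ (rjL dJ cD8k_0_q rD8k_22_7 ++ (rjL dJ cD8k_0_q rD8k_22_8 ++ (
    rjL dJ cD8k_0_q rD8k_22_9 ++ (rjL dJ cD8k_0_q rD8k_22_10 ++ (rjL dJ cD8k_0_q rD8k_22_11 ++ (
    rjL dJ cD8k_0_q rD8k_22_12 ++ (rjL dJ cD8k_0_q rD8k_22_13 ++ (rjL dJ cD8k_0_q rD8k_22_14 ++ (
    rjL dJ cD8k_0_q rD8k_22_15 ++ (rjL dJ cD8k_0_q rD8k_22_16 ++ (rjL dJ cD8k_0_q rD8k_22_17 ++ (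
    rjL dJ cD8k_0_q rD8k_22_18 ++ (rjL dJ cD8k_0_q rD8k_22_19 ++ (rjL dJ cD8k_0_q rD8k_22_20 ++ (
    rjL dJ cD8k_0_q rD8k_22_21 ++ (rjL dJ cD8k_0_q rD8k_22_22 ++ (rjL dJ cD8k_0_q rD8k_22_23 ++ (
    rjL dJ cD8k_0_q rD8k_22_24 ++ (rjL dJ cD8k_0_q rD8k_22_25 ++ (rjL dJ cD8k_0_q rD8k_22_26 ++ (
    rjL dJ cD8k_0_q rD8k_22_27 ++ (rjL dJ cD8k_0_q rD8k_22_28 ++ (rjL dJ cD8k_0_q rD8k_22_29 ++ (
    rjL dJ cD8k_0_q rD8k_22_30 ++ (rjL dJ cD8k_0_q rD8k_22_31 ++ (rjL dJ cD8k_0_q rD8k_22_32 ++ (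
    rjL dJ cD8k_0_q rD8k_22_33 ++ (rjL dJ cD8k_0_q rD8k_22_34 ++ (rjL dJ cD8k_0_q rD8k_22_35 ++ (
    rjL dJ cD8k_0_q rD8k_22_36 ++ (rjL dJ cD8k_0_q rD8k_22_37 ++ (rjL dJ cD8k_0_q rD8k_22_38 ++ (
    rjL dJ cD8k_0_q rD8k_22_39 ++ (rjL dJ cD8k_0_q rD8k_22_40 ++ (rjL dJ cD8k_0_q rD8k_22_41 ++ (
    rjL dJ cD8k_0_q rD8k_22_42 ++ (rjL dJ cD8k_0_q rD8k_22_43 ++ (rjL dJ cD8k_0_q rD8k_22_44 ++
    rjL dJ cD8k_0_q rD8k_22_45))))))))))))))))))))))))))))))))))))))))))))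

theorem cD8k_0_k22 : allI cD8k_0_c cD8k_0_n22 4485 = true := by
  refine allI_appQ (k := 3) cD8k_0_k22_0 (by decide +kernel) ?_
  refine allI_appQ (k := 3) cD8k_0_k22_1 (by decide +kernel) ?_
  refine allI_appQ (k := 3) cD8k_0_k22_2 (by decide +kernel) ?_
  refine allI_appQ (k := 3) cD8k_0_k22_3 (by decide +kernel) ?_
  refine allI_appQ (k := 2) cD8k_0_k22_4 (by decide +kernel) ?_
  refine allI_appQ (k := 2) cD8k_0_k22_5 (by decide +kernel) ?_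
  refine allI_appQ (k := 3) cD8k_0_k22_6 (by decide +kernel) ?_
  refine allI_appQ (k := 3) cD8k_0_k22_7 (by decide +kernel) ?_
  refine allI_appQ (k := 2) cD8k_0_k22_8 (by decide +kernel) ?_
  refine allI_appQ (k := 2) cD8k_0_k22_9 (by decide +kernel) ?_
  refine allI_appQ (k := 2) cD8k_0_k22_10 (by decide +kernel) ?_
  refine allI_appQ (k := 2) cD8k_0_k22_11 (by decide +kernel) ?_
  refine allI_appQ (k := 3) cD8k_0_k22_12 (by decide +kernel) ?_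
  refine allI_appQ (k := 3) cD8k_0_k22_13 (by decide +kernel) ?_
  refine allI_appQ (k := 2) cD8k_0_k22_14 (by decide +kernel) ?_
  refine allI_appQ (k := 3) cD8k_0_k22_15 (by decide +kernel) ?_
  refine allI_appQ (k := 2) cD8k_0_k22_16 (by decide +kernel) ?_
  refine allI_appQ (k := 2) cD8k_0_k22_17 (by decide +kernel) ?_
  refine allI_appQ (k := 2) cD8k_0_k22_18 (by decide +kernel) ?_
  refine allI_appQ (k := 3) cD8k_0_k22_19 (by decide +kernel) ?_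
  refine allI_appQ (k := 2) cD8k_0_k22_20 (by decide +kernel) ?_
  refine allI_appQ (k := 3) cD8k_0_k22_21 (by decide +kernel) ?_
  refine allI_appQ (k := 3) cD8k_0_k22_22 (by decide +kernel) ?_
  refine allI_appQ (k := 3) cD8k_0_k22_23 (by decide +kernel) ?_
  refine allI_appQ (k := 2) cD8k_0_k22_24 (by decide +kernel) ?_
  refine allI_appQ (k := 2) cD8k_0_k22_25 (by decide +kernel) ?_
  refine allI_appQ (k := 3) cD8k_0_k22_26 (by decide +kernel) ?_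
  refine allI_appQ (k := 3) cD8k_0_k22_27 (by decide +kernel) ?_
  refine allI_appQ (k := 2) cD8k_0_k22_28 (by decide +kernel) ?_
  refine allI_appQ (k := 3) cD8k_0_k22_29 (by decide +kernel) ?_
  refine allI_appQ (k := 3) cD8k_0_k22_30 (by decide +kernel) ?_
  refine allI_appQ (k := 3) cD8k_0_k22_31 (by decide +kernel) ?_
  refine allI_appQ (k := 2) cD8k_0_k22_32 (by decide +kernel) ?_
  refine allI_appQ (k := 2) cD8k_0_k22_33 (by decide +kernel) ?_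
  refine allI_appQ (k := 2) cD8k_0_k22_34 (by decide +kernel) ?_
  refine allI_appQ (k := 2) cD8k_0_k22_35 (by decide +kernel) ?_
  refine allI_appQ (k := 2) cD8k_0_k22_36 (by decide +kernel) ?_
  refine allI_appQ (k := 2) cD8k_0_k22_37 (by decide +kernel) ?_
  refine allI_appQ (k := 2) cD8k_0_k22_38 (by decide +kernel) ?_
  refine allI_appQ (k := 2) cD8k_0_k22_39 (by decide +kernel) ?_
  refine allI_appQ (k := 2) cD8k_0_k22_40 (by decide +kernel) ?_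
  refine allI_appQ (k := 2) cD8k_0_k22_41 (by decide +kernel) ?_
  refine allI_appQ (k := 2) cD8k_0_k22_42 (by decide +kernel) ?_
  refine allI_appQ (k := 2) cD8k_0_k22_43 (by decide +kernel) ?_
  refine allI_appQ (k := 2) cD8k_0_k22_44 (by decide +kernel) ?_
  exact cD8k_0_k22_45

theorem cD8k_0_l22 : cD8k_0_n22.length = 110 := by
  decide +kernel

end Pool.Agent.Lib_MP_fa6e45
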