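import Pool.Agent.Lib_MP_fa6e45.DQ8k_0d
import Pool.Agent.Lib_MP_fa6e45.RD8k_23

/-!
MP_fa6e45_co, stage 9: straight-side patterns with `8` sides, part of a certificate (generated by a program).
-/

namespace Pool.Agent.Lib_MP_fa6e45

theorem cD8k_0_k23_0 : allI cD8k_0_c (rjL dJ cD8k_0_q rD8k_23_0) 4595 = true := by
  decide +kernel

theorem cD8k_0_k23_1 : allI cD8k_0_c (rjL dJ cD8k_0_q rD8k_23_1) 4597 = true := by
  decide +kernel

theorem cD8k_0_k23_2 : allI cD8k_0_c (rjL dJ cD8k_0_q rD8k_23_2) 4599 = true := by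
  decide +kernel

theorem cD8k_0_k23_3 : allI cD8k_0_c (rjL dJ cD8k_0_q rD8k_23_3) 4601 = true := by
  decide +kernel

theorem cD8k_0_k23_4 : allI cD8k_0_c (rjL dJ cD8k_0_q rD8k_23_4) 4603 = true := by
  decide +kernel

theorem cD8k_0_k23_5 : allI cD8k_0_c (rjL dJ cD8k_0_q rD8k_23_5) 4605 = true := by
  decide +kernel

theorem cD8k_0_k23_6 : allI cD8k_0_c (rjL dJ cD8k_0_q rD8k_23_6) 4608 = true := by
  decide +kernel

theorem cD8k_0_k23_7 : allI cD8k_0_c (rjL dJ cD8k_0_q rD8k_23_7) 4610 = true := by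
  decide +kernel

theorem cD8k_0_k23_8 : allI cD8k_0_c (rjL dJ cD8k_0_q rD8k_23_8) 4613 = true := by
  decide +kernel

theorem cD8k_0_k23_9 : allI cD8k_0_c (rjL dJ cD8k_0_q rD8k_23_9) 4615 = true := by
  decide +kernel

theorem cD8k_0_k23_10 : allI cD8k_0_c (rjL dJ cD8k_0_q rD8k_23_10) 4617 = true := by
  decide +kernel

theorem cD8k_0_k23_11 : allI cD8k_0_c (rjL dJ cD8k_0_q rD8k_23_11) 4620 = true := by
  decide +kernel

theorem cD8k_0_k23_12 : allI cD8k_0_c (rjL dJ cD8k_0_q rD8k_23_12) 4623 = true := by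
  decide +kernel

theorem cD8k_0_k23_13 : allI cD8k_0_c (rjL dJ cD8k_0_q rD8k_23_13) 4626 = true := by
  decide +kernel

theorem cD8k_0_k23_14 : allI cD8k_0_c (rjL dJ cD8k_0_q rD8k_23_14) 4628 = true := by
  decide +kernel

theorem cD8k_0_k23_15 : allI cD8k_0_c (rjL dJ cD8k_0_q rD8k_23_15) 4630 = true := by
  decide +kernel

theorem cD8k_0_k23_16 : allI cD8k_0_c (rjL dJ cD8k_0_q rD8k_23_16) 4632 = true := by
  decide +kernel

theorem cD8k_0_k23_17 : allI cD8k_0_c (rjL dJ cD8k_0_q rD8k_23_17) 4634 = true := by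
  decide +kernel

theorem cD8k_0_k23_18 : allI cD8k_0_c (rjL dJ cD8k_0_q rD8k_23_18) 4636 = true := by
  decide +kernel

theorem cD8k_0_k23_19 : allI cD8k_0_c (rjL dJ cD8k_0_q rD8k_23_19) 4638 = true := by
  decide +kernel

theorem cD8k_0_k23_20 : allI cD8k_0_c (rjL dJ cD8k_0_q rD8k_23_20) 4641 = true := by
  decide +kernel

theorem cD8k_0_k23_21 : allI cD8k_0_c (rjL dJ cD8k_0_q rD8k_23_21) 4643 = true := by
  decide +kernel

theorem cD8k_0_k23_22 : allI cD8k_0_c (rjL dJ cD8k_0_q rD8k_23_22) 4646 = true := by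
  decide +kernel

theorem cD8k_0_k23_23 : allI cD8k_0_c (rjL dJ cD8k_0_q rD8k_23_23) 4648 = true := by
  decide +kernel

theorem cD8k_0_k23_24 : allI cD8k_0_c (rjL dJ cD8k_0_q rD8k_23_24) 4650 = true := by
  decide +kernel

theorem cD8k_0_k23_25 : allI cD8k_0_c (rjL dJ cD8k_0_q rD8k_23_25) 4652 = true := by
  decide +kernel

theorem cD8k_0_k23_26 : allI cD8k_0_c (rjL dJ cD8k_0_q rD8k_23_26) 4655 = true := by
  decide +kernel

theorem cD8k_0_k23_27 : allI cD8k_0_c (rjL dJ cD8k_0_q rD8k_23_27) 4657 = true := by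
  decide +kernel

theorem cD8k_0_k23_28 : allI cD8k_0_c (rjL dJ cD8k_0_q rD8k_23_28) 4659 = true := by
  decide +kernel

theorem cD8k_0_k23_29 : allI cD8k_0_c (rjL dJ cD8k_0_q rD8k_23_29) 4661 = true := by
  decide +kernel

theorem cD8k_0_k23_30 : allI cD8k_0_c (rjL dJ cD8k_0_q rD8k_23_30) 4663 = true := by
  decide +kernel

theorem cD8k_0_k23_31 : allI cD8k_0_c (rjL dJ cD8k_0_q rD8k_23_31) 4665 = true := by
  decide +kernel

theorem cD8k_0_k23_32 : allI cD8k_0_c (rjL dJ cD8k_0_q rD8k_23_32) 4667 = true := by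
  decide +kernel

theorem cD8k_0_k23_33 : allI cD8k_0_c (rjL dJ cD8k_0_q rD8k_23_33) 4669 = true := by
  decide +kernel

theorem cD8k_0_k23_34 : allI cD8k_0_c (rjL dJ cD8k_0_q rD8k_23_34) 4672 = true := by
  decide +kernel

theorem cD8k_0_k23_35 : allI cD8k_0_c (rjL dJ cD8k_0_q rD8k_23_35) 4674 = true := by
  decide +kernel

theorem cD8k_0_k23_36 : allI cD8k_0_c (rjL dJ cD8k_0_q rD8k_23_36) 4677 = true := by
  decide +kernel

theorem cD8k_0_k23_37 : allI cD8k_0_c (rjL dJ cD8k_0_q rD8k_23_37) 4680 = true := by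
  decide +kernel

theorem cD8k_0_k23_38 : allI cD8k_0_c (rjL dJ cD8k_0_q rD8k_23_38) 4683 = true := by
  decide +kernel

theorem cD8k_0_k23_39 : allI cD8k_0_c (rjL dJ cD8k_0_q rD8k_23_39) 4685 = true := by
  decide +kernel

theorem cD8k_0_k23_40 : allI cD8k_0_c (rjL dJ cD8k_0_q rD8k_23_40) 4687 = true := by
  decide +kernel

theorem cD8k_0_k23_41 : allI cD8k_0_c (rjL dJ cD8k_0_q rD8k_23_41) 4689 = true := by
  decide +kernel

theorem cD8k_0_k23_42 : allI cD8k_0_c (rjL dJ cD8k_0_q rD8k_23_42) 4691 = true := by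
  decide +kernel

theorem cD8k_0_k23_43 : allI cD8k_0_c (rjL dJ cD8k_0_q rD8k_23_43) 4693 = true := by
  decide +kernel

theorem cD8k_0_k23_44 : allI cD8k_0_c (rjL dJ cD8k_0_q rD8k_23_44) 4695 = true := by
  decide +kernel

theorem cD8k_0_k23_45 : allI cD8k_0_c (rjL dJ cD8k_0_q rD8k_23_45) 4697 = true := by
  decide +kernel

theorem cD8k_0_k23_46 : allI cD8k_0_c (rjL dJ cD8k_0_q rD8k_23_46) 4700 = true := by
  decide +kernel

/-- nodes -/
noncomputable def cD8k_0_n23 : List (QJ PN) :=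
  rjL dJ cD8k_0_q rD8k_23_0 ++ (rjL dJ cD8k_0_q rD8k_23_1 ++ (rjL dJ cD8k_0_q rD8k_23_2 ++ (
    rjL dJ cD8k_0_q rD8k_23_3 ++ (rjL dJ cD8k_0_q rD8k_23_4 ++ (rjL dJ cD8k_0_q rD8k_23_5 ++ (
    rjL dJ cD8k_0_q rD8k_23_6 ++ (rjL dJ cD8k_0_q rD8k_23_7 ++ (rjL dJ cD8k_0_q rD8k_23_8 ++ (
    rjL dJ cD8k_0_q rD8k_23_9 ++ (rjL dJ cD8k_0_q rD8k_23_10 ++ (rjL dJ cD8k_0_q rD8k_23_11 ++ (
    rjL dJ cD8k_0_q rD8k_23_12 ++ (rjL dJ cD8k_0_q rD8k_23_13 ++ (rjL dJ cD8k_0_q rD8k_23_14 ++ (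
    rjL dJ cD8k_0_q rD8k_23_15 ++ (rjL dJ cD8k_0_q rD8k_23_16 ++ (rjL dJ cD8k_0_q rD8k_23_17 ++ (
    rjL dJ cD8k_0_q rD8k_23_18 ++ (rjL dJ cD8k_0_q rD8k_23_19 ++ (rjL dJ cD8k_0_q rD8k_23_20 ++ (
    rjL dJ cD8k_0_q rD8k_23_21 ++ (rjL dJ cD8k_0_q rD8k_23_22 ++ (rjL dJ cD8k_0_q rD8k_23_23 ++ (
    rjL dJ cD8k_0_q rD8k_23_24 ++ (rjL dJ cD8k_0_q rD8k_23_25 ++ (rjL dJ cD8k_0_q rD8k_23_26 ++ (
    rjL dJ cD8k_0_q rD8k_23_27 ++ (rjL dJ cD8k_0_q rD8k_23_28 ++ (rjL dJ cD8k_0_q rD8k_23_29 ++ (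
    rjL dJ cD8k_0_q rD8k_23_30 ++ (rjL dJ cD8k_0_q rD8k_23_31 ++ (rjL dJ cD8k_0_q rD8k_23_32 ++ (
    rjL dJ cD8k_0_q rD8k_23_33 ++ (rjL dJ cD8k_0_q rD8k_23_34 ++ (rjL dJ cD8k_0_q rD8k_23_35 ++ (
    rjL dJ cD8k_0_q rD8k_23_36 ++ (rjL dJ cD8k_0_q rD8k_23_37 ++ (rjL dJ cD8k_0_q rD8k_23_38 ++ (
    rjL dJ cD8k_0_q rD8k_23_39 ++ (rjL dJ cD8k_0_q rD8k_23_40 ++ (rjL dJ cD8k_0_q rD8k_23_41 ++ (
    rjL dJ cD8k_0_q rD8k_23_42 ++ (rjL dJ cD8k_0_q rD8k_23_43 ++ (rjL dJ cD8k_0_q rD8k_23_44 ++ (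
    rjL dJ cD8k_0_q rD8k_23_45 ++
    rjL dJ cD8k_0_q rD8k_23_46)))))))))))))))))))))))))))))))))))))))))))))

theorem cD8k_0_k23 : allI cD8k_0_c cD8k_0_n23 4595 = true := by
  refine allI_appQ (k := 2) cD8k_0_k23_0 (by decide +kernel) ?_
  refine allI_appQ (k := 2) cD8k_0_k23_1 (by decide +kernel) ?_
  refine allI_appQ (k := 2) cD8k_0_k23_2 (by decide +kernel) ?_
  refine allI_appQ (k := 2) cD8k_0_k23_3 (by decide +kernel) ?_
  refine allI_appQ (k := 2) cD8k_0_k23_4 (by decide +kernel) ?_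
  refine allI_appQ (k := 3) cD8k_0_k23_5 (by decide +kernel) ?_
  refine allI_appQ (k := 2) cD8k_0_k23_6 (by decide +kernel) ?_
  refine allI_appQ (k := 3) cD8k_0_k23_7 (by decide +kernel) ?_
  refine allI_appQ (k := 2) cD8k_0_k23_8 (by decide +kernel) ?_
  refine allI_appQ (k := 2) cD8k_0_k23_9 (by decide +kernel) ?_
  refine allI_appQ (k := 3) cD8k_0_k23_10 (by decide +kernel) ?_
  refine allI_appQ (k := 3) cD8k_0_k23_11 (by decide +kernel) ?_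
  refine allI_appQ (k := 3) cD8k_0_k23_12 (by decide +kernel) ?_
  refine allI_appQ (k := 2) cD8k_0_k23_13 (by decide +kernel) ?_
  refine allI_appQ (k := 2) cD8k_0_k23_14 (by decide +kernel) ?_
  refine allI_appQ (k := 2) cD8k_0_k23_15 (by decide +kernel) ?_
  refine allI_appQ (k := 2) cD8k_0_k23_16 (by decide +kernel) ?_
  refine allI_appQ (k := 2) cD8k_0_k23_17 (by decide +kernel) ?_
  refine allI_appQ (k := 2) cD8k_0_k23_18 (by decide +kernel) ?_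
  refine allI_appQ (k := 3) cD8k_0_k23_19 (by decide +kernel) ?_
  refine allI_appQ (k := 2) cD8k_0_k23_20 (by decide +kernel) ?_
  refine allI_appQ (k := 3) cD8k_0_k23_21 (by decide +kernel) ?_
  refine allI_appQ (k := 2) cD8k_0_k23_22 (by decide +kernel) ?_
  refine allI_appQ (k := 2) cD8k_0_k23_23 (by decide +kernel) ?_
  refine allI_appQ (k := 2) cD8k_0_k23_24 (by decide +kernel) ?_
  refine allI_appQ (k := 3) cD8k_0_k23_25 (by decide +kernel) ?_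
  refine allI_appQ (k := 2) cD8k_0_k23_26 (by decide +kernel) ?_
  refine allI_appQ (k := 2) cD8k_0_k23_27 (by decide +kernel) ?_
  refine allI_appQ (k := 2) cD8k_0_k23_28 (by decide +kernel) ?_
  refine allI_appQ (k := 2) cD8k_0_k23_29 (by decide +kernel) ?_
  refine allI_appQ (k := 2) cD8k_0_k23_30 (by decide +kernel) ?_
  refine allI_appQ (k := 2) cD8k_0_k23_31 (by decide +kernel) ?_
  refine allI_appQ (k := 2) cD8k_0_k23_32 (by decide +kernel) ?_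
  refine allI_appQ (k := 3) cD8k_0_k23_33 (by decide +kernel) ?_
  refine allI_appQ (k := 2) cD8k_0_k23_34 (by decide +kernel) ?_
  refine allI_appQ (k := 3) cD8k_0_k23_35 (by decide +kernel) ?_
  refine allI_appQ (k := 3) cD8k_0_k23_36 (by decide +kernel) ?_
  refine allI_appQ (k := 3) cD8k_0_k23_37 (by decide +kernel) ?_
  refine allI_appQ (k := 2) cD8k_0_k23_38 (by decide +kernel) ?_
  refine allI_appQ (k := 2) cD8k_0_k23_39 (by decide +kernel) ?_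
  refine allI_appQ (k := 2) cD8k_0_k23_40 (by decide +kernel) ?_
  refine allI_appQ (k := 2) cD8k_0_k23_41 (by decide +kernel) ?_
  refine allI_appQ (k := 2) cD8k_0_k23_42 (by decide +kernel) ?_
  refine allI_appQ (k := 2) cD8k_0_k23_43 (by decide +kernel) ?_
  refine allI_appQ (k := 2) cD8k_0_k23_44 (by decide +kernel) ?_
  refine allI_appQ (k := 3) cD8k_0_k23_45 (by decide +kernel) ?_
  exact cD8k_0_k23_46

theorem cD8k_0_l23 : cD8k_0_n23.length = 107 := by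
  decide +kernel

end Pool.Agent.Lib_MP_fa6e45
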