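import Pool.Agent.Lib_MP_fa6e45.DQ8k_0d
import Pool.Agent.Lib_MP_fa6e45.RD8k_24

/-!
MP_fa6e45_co, stage 9: straight-side patterns with `8` sides, part of a certificate (generated by a program).
-/

namespace Pool.Agent.Lib_MP_fa6e45

theorem cD8k_0_k24_0 : allI cD8k_0_c (rjL dJ cD8k_0_q rD8k_24_0) 4702 = true := by
  decide +kernel

theorem cD8k_0_k24_1 : allI cD8k_0_c (rjL dJ cD8k_0_q rD8k_24_1) 4704 = true := by
  decide +kernel

theorem cD8k_0_k24_2 : allI cD8k_0_c (rjL dJ cD8k_0_q rD8k_24_2) 4707 = true := by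
  decide +kernel

theorem cD8k_0_k24_3 : allI cD8k_0_c (rjL dJ cD8k_0_q rD8k_24_3) 4709 = true := by
  decide +kernel

theorem cD8k_0_k24_4 : allI cD8k_0_c (rjL dJ cD8k_0_q rD8k_24_4) 4711 = true := by
  decide +kernel

theorem cD8k_0_k24_5 : allI cD8k_0_c (rjL dJ cD8k_0_q rD8k_24_5) 4713 = true := by
  decide +kernel

theorem cD8k_0_k24_6 : allI cD8k_0_c (rjL dJ cD8k_0_q rD8k_24_6) 4715 = true := by
  decide +kernel

theorem cD8k_0_k24_7 : allI cD8k_0_c (rjL dJ cD8k_0_q rD8k_24_7) 4717 = true := by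
  decide +kernel

theorem cD8k_0_k24_8 : allI cD8k_0_c (rjL dJ cD8k_0_q rD8k_24_8) 4719 = true := by
  decide +kernel

theorem cD8k_0_k24_9 : allI cD8k_0_c (rjL dJ cD8k_0_q rD8k_24_9) 4720 = true := by
  decide +kernel

theorem cD8k_0_k24_10 : allI cD8k_0_c (rjL dJ cD8k_0_q rD8k_24_10) 4722 = true := by
  decide +kernel

theorem cD8k_0_k24_11 : allI cD8k_0_c (rjL dJ cD8k_0_q rD8k_24_11) 4724 = true := by
  decide +kernel

theorem cD8k_0_k24_12 : allI cD8k_0_c (rjL dJ cD8k_0_q rD8k_24_12) 4726 = true := by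
  decide +kernel

theorem cD8k_0_k24_13 : allI cD8k_0_c (rjL dJ cD8k_0_q rD8k_24_13) 4728 = true := by
  decide +kernel

theorem cD8k_0_k24_14 : allI cD8k_0_c (rjL dJ cD8k_0_q rD8k_24_14) 4730 = true := by
  decide +kernel

theorem cD8k_0_k24_15 : allI cD8k_0_c (rjL dJ cD8k_0_q rD8k_24_15) 4732 = true := by
  decide +kernel

theorem cD8k_0_k24_16 : allI cD8k_0_c (rjL dJ cD8k_0_q rD8k_24_16) 4733 = true := by
  decide +kernel

theorem cD8k_0_k24_17 : allI cD8k_0_c (rjL dJ cD8k_0_q rD8k_24_17) 4735 = true := by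
  decide +kernel

theorem cD8k_0_k24_18 : allI cD8k_0_c (rjL dJ cD8k_0_q rD8k_24_18) 4737 = true := by
  decide +kernel

theorem cD8k_0_k24_19 : allI cD8k_0_c (rjL dJ cD8k_0_q rD8k_24_19) 4739 = true := by
  decide +kernel

theorem cD8k_0_k24_20 : allI cD8k_0_c (rjL dJ cD8k_0_q rD8k_24_20) 4741 = true := by
  decide +kernel

theorem cD8k_0_k24_21 : allI cD8k_0_c (rjL dJ cD8k_0_q rD8k_24_21) 4744 = true := by
  decide +kernel

theorem cD8k_0_k24_22 : allI cD8k_0_c (rjL dJ cD8k_0_q rD8k_24_22) 4746 = true := by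
  decide +kernel

theorem cD8k_0_k24_23 : allI cD8k_0_c (rjL dJ cD8k_0_q rD8k_24_23) 4748 = true := by
  decide +kernel

theorem cD8k_0_k24_24 : allI cD8k_0_c (rjL dJ cD8k_0_q rD8k_24_24) 4749 = true := by
  decide +kernel

theorem cD8k_0_k24_25 : allI cD8k_0_c (rjL dJ cD8k_0_q rD8k_24_25) 4750 = true := by
  decide +kernel

theorem cD8k_0_k24_26 : allI cD8k_0_c (rjL dJ cD8k_0_q rD8k_24_26) 4751 = true := by
  decide +kernel

theorem cD8k_0_k24_27 : allI cD8k_0_c (rjL dJ cD8k_0_q rD8k_24_27) 4752 = true := by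
  decide +kernel

theorem cD8k_0_k24_28 : allI cD8k_0_c (rjL dJ cD8k_0_q rD8k_24_28) 4754 = true := by
  decide +kernel

theorem cD8k_0_k24_29 : allI cD8k_0_c (rjL dJ cD8k_0_q rD8k_24_29) 4755 = true := by
  decide +kernel

theorem cD8k_0_k24_30 : allI cD8k_0_c (rjL dJ cD8k_0_q rD8k_24_30) 4757 = true := by
  decide +kernel

theorem cD8k_0_k24_31 : allI cD8k_0_c (rjL dJ cD8k_0_q rD8k_24_31) 4759 = true := by
  decide +kernel

theorem cD8k_0_k24_32 : allI cD8k_0_c (rjL dJ cD8k_0_q rD8k_24_32) 4761 = true := by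
  decide +kernel

theorem cD8k_0_k24_33 : allI cD8k_0_c (rjL dJ cD8k_0_q rD8k_24_33) 4763 = true := by
  decide +kernel

theorem cD8k_0_k24_34 : allI cD8k_0_c (rjL dJ cD8k_0_q rD8k_24_34) 4766 = true := by
  decide +kernel

theorem cD8k_0_k24_35 : allI cD8k_0_c (rjL dJ cD8k_0_q rD8k_24_35) 4768 = true := by
  decide +kernel

theorem cD8k_0_k24_36 : allI cD8k_0_c (rjL dJ cD8k_0_q rD8k_24_36) 4771 = true := by
  decide +kernel

theorem cD8k_0_k24_37 : allI cD8k_0_c (rjL dJ cD8k_0_q rD8k_24_37) 4773 = true := by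
  decide +kernel

theorem cD8k_0_k24_38 : allI cD8k_0_c (rjL dJ cD8k_0_q rD8k_24_38) 4775 = true := by
  decide +kernel

theorem cD8k_0_k24_39 : allI cD8k_0_c (rjL dJ cD8k_0_q rD8k_24_39) 4777 = true := by
  decide +kernel

/-- nodes -/
noncomputable def cD8k_0_n24 : List (QJ PN) :=
  rjL dJ cD8k_0_q rD8k_24_0 ++ (rjL dJ cD8k_0_q rD8k_24_1 ++ (rjL dJ cD8k_0_q rD8k_24_2 ++ (
    rjL dJ cD8k_0_q rD8k_24_3 ++ (rjL dJ cD8k_0_q rD8k_24_4 ++ (rjL dJ cD8k_0_q rD8k_24_5 ++ (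
    rjL dJ cD8k_0_q rD8k_24_6 ++ (rjL dJ cD8k_0_q rD8k_24_7 ++ (rjL dJ cD8k_0_q rD8k_24_8 ++ (
    rjL dJ cD8k_0_q rD8k_24_9 ++ (rjL dJ cD8k_0_q rD8k_24_10 ++ (rjL dJ cD8k_0_q rD8k_24_11 ++ (
    rjL dJ cD8k_0_q rD8k_24_12 ++ (rjL dJ cD8k_0_q rD8k_24_13 ++ (rjL dJ cD8k_0_q rD8k_24_14 ++ (
    rjL dJ cD8k_0_q rD8k_24_15 ++ (rjL dJ cD8k_0_q rD8k_24_16 ++ (rjL dJ cD8k_0_q rD8k_24_17 ++ (
    rjL dJ cD8k_0_q rD8k_24_18 ++ (rjL dJ cD8k_0_q rD8k_24_19 ++ (rjL dJ cD8k_0_q rD8k_24_20 ++ (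
    rjL dJ cD8k_0_q rD8k_24_21 ++ (rjL dJ cD8k_0_q rD8k_24_22 ++ (rjL dJ cD8k_0_q rD8k_24_23 ++ (
    rjL dJ cD8k_0_q rD8k_24_24 ++ (rjL dJ cD8k_0_q rD8k_24_25 ++ (rjL dJ cD8k_0_q rD8k_24_26 ++ (
    rjL dJ cD8k_0_q rD8k_24_27 ++ (rjL dJ cD8k_0_q rD8k_24_28 ++ (rjL dJ cD8k_0_q rD8k_24_29 ++ (
    rjL dJ cD8k_0_q rD8k_24_30 ++ (rjL dJ cD8k_0_q rD8k_24_31 ++ (rjL dJ cD8k_0_q rD8k_24_32 ++ (
    rjL dJ cD8k_0_q rD8k_24_33 ++ (rjL dJ cD8k_0_q rD8k_24_34 ++ (rjL dJ cD8k_0_q rD8k_24_35 ++ (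
    rjL dJ cD8k_0_q rD8k_24_36 ++ (rjL dJ cD8k_0_q rD8k_24_37 ++ (rjL dJ cD8k_0_q rD8k_24_38 ++
    rjL dJ cD8k_0_q rD8k_24_39))))))))))))))))))))))))))))))))))))))

theorem cD8k_0_k24 : allI cD8k_0_c cD8k_0_n24 4702 = true := by
  refine allI_appQ (k := 2) cD8k_0_k24_0 (by decide +kernel) ?_
  refine allI_appQ (k := 3) cD8k_0_k24_1 (by decide +kernel) ?_
  refine allI_appQ (k := 2) cD8k_0_k24_2 (by decide +kernel) ?_
  refine allI_appQ (k := 2) cD8k_0_k24_3 (by decide +kernel) ?_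
  refine allI_appQ (k := 2) cD8k_0_k24_4 (by decide +kernel) ?_
  refine allI_appQ (k := 2) cD8k_0_k24_5 (by decide +kernel) ?_
  refine allI_appQ (k := 2) cD8k_0_k24_6 (by decide +kernel) ?_
  refine allI_appQ (k := 2) cD8k_0_k24_7 (by decide +kernel) ?_
  refine allI_appQ (k := 1) cD8k_0_k24_8 (by decide +kernel) ?_
  refine allI_appQ (k := 2) cD8k_0_k24_9 (by decide +kernel) ?_
  refine allI_appQ (k := 2) cD8k_0_k24_10 (by decide +kernel) ?_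
  refine allI_appQ (k := 2) cD8k_0_k24_11 (by decide +kernel) ?_
  refine allI_appQ (k := 2) cD8k_0_k24_12 (by decide +kernel) ?_
  refine allI_appQ (k := 2) cD8k_0_k24_13 (by decide +kernel) ?_
  refine allI_appQ (k := 2) cD8k_0_k24_14 (by decide +kernel) ?_
  refine allI_appQ (k := 1) cD8k_0_k24_15 (by decide +kernel) ?_
  refine allI_appQ (k := 2) cD8k_0_k24_16 (by decide +kernel) ?_
  refine allI_appQ (k := 2) cD8k_0_k24_17 (by decide +kernel) ?_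
  refine allI_appQ (k := 2) cD8k_0_k24_18 (by decide +kernel) ?_
  refine allI_appQ (k := 2) cD8k_0_k24_19 (by decide +kernel) ?_
  refine allI_appQ (k := 3) cD8k_0_k24_20 (by decide +kernel) ?_
  refine allI_appQ (k := 2) cD8k_0_k24_21 (by decide +kernel) ?_
  refine allI_appQ (k := 2) cD8k_0_k24_22 (by decide +kernel) ?_
  refine allI_appQ (k := 1) cD8k_0_k24_23 (by decide +kernel) ?_
  refine allI_appQ (k := 1) cD8k_0_k24_24 (by decide +kernel) ?_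
  refine allI_appQ (k := 1) cD8k_0_k24_25 (by decide +kernel) ?_
  refine allI_appQ (k := 1) cD8k_0_k24_26 (by decide +kernel) ?_
  refine allI_appQ (k := 2) cD8k_0_k24_27 (by decide +kernel) ?_
  refine allI_appQ (k := 1) cD8k_0_k24_28 (by decide +kernel) ?_
  refine allI_appQ (k := 2) cD8k_0_k24_29 (by decide +kernel) ?_
  refine allI_appQ (k := 2) cD8k_0_k24_30 (by decide +kernel) ?_
  refine allI_appQ (k := 2) cD8k_0_k24_31 (by decide +kernel) ?_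
  refine allI_appQ (k := 2) cD8k_0_k24_32 (by decide +kernel) ?_
  refine allI_appQ (k := 3) cD8k_0_k24_33 (by decide +kernel) ?_
  refine allI_appQ (k := 2) cD8k_0_k24_34 (by decide +kernel) ?_
  refine allI_appQ (k := 3) cD8k_0_k24_35 (by decide +kernel) ?_
  refine allI_appQ (k := 2) cD8k_0_k24_36 (by decide +kernel) ?_
  refine allI_appQ (k := 2) cD8k_0_k24_37 (by decide +kernel) ?_
  refine allI_appQ (k := 2) cD8k_0_k24_38 (by decide +kernel) ?_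
  exact cD8k_0_k24_39

theorem cD8k_0_l24 : cD8k_0_n24.length = 76 := by
  decide +kernel

end Pool.Agent.Lib_MP_fa6e45
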