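import Pool.Agent.Lib_MP_fa6e45.DQ8k_0d
import Pool.Agent.Lib_MP_fa6e45.RD8k_26

/-!
MP_fa6e45_co, stage 9: straight-side patterns with `8` sides, part of a certificate (generated by a program).
-/

namespace Pool.Agent.Lib_MP_fa6e45

theorem cD8k_0_k26_0 : allI cD8k_0_c (rjL dJ cD8k_0_q rD8k_26_0) 4882 = true := by
  decide +kernel

theorem cD8k_0_k26_1 : allI cD8k_0_c (rjL dJ cD8k_0_q rD8k_26_1) 4884 = true := by
  decide +kernel

theorem cD8k_0_k26_2 : allI cD8k_0_c (rjL dJ cD8k_0_q rD8k_26_2) 4886 = true := by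
  decide +kernel

theorem cD8k_0_k26_3 : allI cD8k_0_c (rjL dJ cD8k_0_q rD8k_26_3) 4888 = true := by
  decide +kernel

theorem cD8k_0_k26_4 : allI cD8k_0_c (rjL dJ cD8k_0_q rD8k_26_4) 4890 = true := by
  decide +kernel

theorem cD8k_0_k26_5 : allI cD8k_0_c (rjL dJ cD8k_0_q rD8k_26_5) 4893 = true := by
  decide +kernel

theorem cD8k_0_k26_6 : allI cD8k_0_c (rjL dJ cD8k_0_q rD8k_26_6) 4895 = true := by
  decide +kernel

theorem cD8k_0_k26_7 : allI cD8k_0_c (rjL dJ cD8k_0_q rD8k_26_7) 4897 = true := by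
  decide +kernel

theorem cD8k_0_k26_8 : allI cD8k_0_c (rjL dJ cD8k_0_q rD8k_26_8) 4899 = true := by
  decide +kernel

theorem cD8k_0_k26_9 : allI cD8k_0_c (rjL dJ cD8k_0_q rD8k_26_9) 4901 = true := by
  decide +kernel

theorem cD8k_0_k26_10 : allI cD8k_0_c (rjL dJ cD8k_0_q rD8k_26_10) 4903 = true := by
  decide +kernel

theorem cD8k_0_k26_11 : allI cD8k_0_c (rjL dJ cD8k_0_q rD8k_26_11) 4905 = true := by
  decide +kernel

theorem cD8k_0_k26_12 : allI cD8k_0_c (rjL dJ cD8k_0_q rD8k_26_12) 4906 = true := by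
  decide +kernel

theorem cD8k_0_k26_13 : allI cD8k_0_c (rjL dJ cD8k_0_q rD8k_26_13) 4908 = true := by
  decide +kernel

theorem cD8k_0_k26_14 : allI cD8k_0_c (rjL dJ cD8k_0_q rD8k_26_14) 4910 = true := by
  decide +kernel

theorem cD8k_0_k26_15 : allI cD8k_0_c (rjL dJ cD8k_0_q rD8k_26_15) 4912 = true := by
  decide +kernel

theorem cD8k_0_k26_16 : allI cD8k_0_c (rjL dJ cD8k_0_q rD8k_26_16) 4913 = true := by
  decide +kernel

theorem cD8k_0_k26_17 : allI cD8k_0_c (rjL dJ cD8k_0_q rD8k_26_17) 4915 = true := by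
  decide +kernel

theorem cD8k_0_k26_18 : allI cD8k_0_c (rjL dJ cD8k_0_q rD8k_26_18) 4917 = true := by
  decide +kernel

theorem cD8k_0_k26_19 : allI cD8k_0_c (rjL dJ cD8k_0_q rD8k_26_19) 4919 = true := by
  decide +kernel

theorem cD8k_0_k26_20 : allI cD8k_0_c (rjL dJ cD8k_0_q rD8k_26_20) 4920 = true := by
  decide +kernel

theorem cD8k_0_k26_21 : allI cD8k_0_c (rjL dJ cD8k_0_q rD8k_26_21) 4922 = true := by
  decide +kernel

theorem cD8k_0_k26_22 : allI cD8k_0_c (rjL dJ cD8k_0_q rD8k_26_22) 4924 = true := by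
  decide +kernel

theorem cD8k_0_k26_23 : allI cD8k_0_c (rjL dJ cD8k_0_q rD8k_26_23) 4925 = true := by
  decide +kernel

theorem cD8k_0_k26_24 : allI cD8k_0_c (rjL dJ cD8k_0_q rD8k_26_24) 4926 = true := by
  decide +kernel

theorem cD8k_0_k26_25 : allI cD8k_0_c (rjL dJ cD8k_0_q rD8k_26_25) 4927 = true := by
  decide +kernel

theorem cD8k_0_k26_26 : allI cD8k_0_c (rjL dJ cD8k_0_q rD8k_26_26) 4929 = true := by
  decide +kernel

theorem cD8k_0_k26_27 : allI cD8k_0_c (rjL dJ cD8k_0_q rD8k_26_27) 4931 = true := by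
  decide +kernel

theorem cD8k_0_k26_28 : allI cD8k_0_c (rjL dJ cD8k_0_q rD8k_26_28) 4933 = true := by
  decide +kernel

theorem cD8k_0_k26_29 : allI cD8k_0_c (rjL dJ cD8k_0_q rD8k_26_29) 4935 = true := by
  decide +kernel

theorem cD8k_0_k26_30 : allI cD8k_0_c (rjL dJ cD8k_0_q rD8k_26_30) 4937 = true := by
  decide +kernel

theorem cD8k_0_k26_31 : allI cD8k_0_c (rjL dJ cD8k_0_q rD8k_26_31) 4939 = true := by
  decide +kernel

theorem cD8k_0_k26_32 : allI cD8k_0_c (rjL dJ cD8k_0_q rD8k_26_32) 4941 = true := by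
  decide +kernel

theorem cD8k_0_k26_33 : allI cD8k_0_c (rjL dJ cD8k_0_q rD8k_26_33) 4944 = true := by
  decide +kernel

theorem cD8k_0_k26_34 : allI cD8k_0_c (rjL dJ cD8k_0_q rD8k_26_34) 4946 = true := by
  decide +kernel

theorem cD8k_0_k26_35 : allI cD8k_0_c (rjL dJ cD8k_0_q rD8k_26_35) 4948 = true := by
  decide +kernel

theorem cD8k_0_k26_36 : allI cD8k_0_c (rjL dJ cD8k_0_q rD8k_26_36) 4950 = true := by
  decide +kernel

theorem cD8k_0_k26_37 : allI cD8k_0_c (rjL dJ cD8k_0_q rD8k_26_37) 4951 = true := by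
  decide +kernel

theorem cD8k_0_k26_38 : allI cD8k_0_c (rjL dJ cD8k_0_q rD8k_26_38) 4953 = true := by
  decide +kernel

theorem cD8k_0_k26_39 : allI cD8k_0_c (rjL dJ cD8k_0_q rD8k_26_39) 4955 = true := by
  decide +kernel

/-- nodes -/
noncomputable def cD8k_0_n26 : List (QJ PN) :=
  rjL dJ cD8k_0_q rD8k_26_0 ++ (rjL dJ cD8k_0_q rD8k_26_1 ++ (rjL dJ cD8k_0_q rD8k_26_2 ++ (
    rjL dJ cD8k_0_q rD8k_26_3 ++ (rjL dJ cD8k_0_q rD8k_26_4 ++ (rjL dJ cD8k_0_q rD8k_26_5 ++ (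
    rjL dJ cD8k_0_q rD8k_26_6 ++ (rjL dJ cD8k_0_q rD8k_26_7 ++ (rjL dJ cD8k_0_q rD8k_26_8 ++ (
    rjL dJ cD8k_0_q rD8k_26_9 ++ (rjL dJ cD8k_0_q rD8k_26_10 ++ (rjL dJ cD8k_0_q rD8k_26_11 ++ (
    rjL dJ cD8k_0_q rD8k_26_12 ++ (rjL dJ cD8k_0_q rD8k_26_13 ++ (rjL dJ cD8k_0_q rD8k_26_14 ++ (
    rjL dJ cD8k_0_q rD8k_26_15 ++ (rjL dJ cD8k_0_q rD8k_26_16 ++ (rjL dJ cD8k_0_q rD8k_26_17 ++ (
    rjL dJ cD8k_0_q rD8k_26_18 ++ (rjL dJ cD8k_0_q rD8k_26_19 ++ (rjL dJ cD8k_0_q rD8k_26_20 ++ (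
    rjL dJ cD8k_0_q rD8k_26_21 ++ (rjL dJ cD8k_0_q rD8k_26_22 ++ (rjL dJ cD8k_0_q rD8k_26_23 ++ (
    rjL dJ cD8k_0_q rD8k_26_24 ++ (rjL dJ cD8k_0_q rD8k_26_25 ++ (rjL dJ cD8k_0_q rD8k_26_26 ++ (
    rjL dJ cD8k_0_q rD8k_26_27 ++ (rjL dJ cD8k_0_q rD8k_26_28 ++ (rjL dJ cD8k_0_q rD8k_26_29 ++ (
    rjL dJ cD8k_0_q rD8k_26_30 ++ (rjL dJ cD8k_0_q rD8k_26_31 ++ (rjL dJ cD8k_0_q rD8k_26_32 ++ (
    rjL dJ cD8k_0_q rD8k_26_33 ++ (rjL dJ cD8k_0_q rD8k_26_34 ++ (rjL dJ cD8k_0_q rD8k_26_35 ++ (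
    rjL dJ cD8k_0_q rD8k_26_36 ++ (rjL dJ cD8k_0_q rD8k_26_37 ++ (rjL dJ cD8k_0_q rD8k_26_38 ++
    rjL dJ cD8k_0_q rD8k_26_39))))))))))))))))))))))))))))))))))))))

theorem cD8k_0_k26 : allI cD8k_0_c cD8k_0_n26 4882 = true := by
  refine allI_appQ (k := 2) cD8k_0_k26_0 (by decide +kernel) ?_
  refine allI_appQ (k := 2) cD8k_0_k26_1 (by decide +kernel) ?_
  refine allI_appQ (k := 2) cD8k_0_k26_2 (by decide +kernel) ?_
  refine allI_appQ (k := 2) cD8k_0_k26_3 (by decide +kernel) ?_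
  refine allI_appQ (k := 3) cD8k_0_k26_4 (by decide +kernel) ?_
  refine allI_appQ (k := 2) cD8k_0_k26_5 (by decide +kernel) ?_
  refine allI_appQ (k := 2) cD8k_0_k26_6 (by decide +kernel) ?_
  refine allI_appQ (k := 2) cD8k_0_k26_7 (by decide +kernel) ?_
  refine allI_appQ (k := 2) cD8k_0_k26_8 (by decide +kernel) ?_
  refine allI_appQ (k := 2) cD8k_0_k26_9 (by decide +kernel) ?_
  refine allI_appQ (k := 2) cD8k_0_k26_10 (by decide +kernel) ?_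
  refine allI_appQ (k := 1) cD8k_0_k26_11 (by decide +kernel) ?_
  refine allI_appQ (k := 2) cD8k_0_k26_12 (by decide +kernel) ?_
  refine allI_appQ (k := 2) cD8k_0_k26_13 (by decide +kernel) ?_
  refine allI_appQ (k := 2) cD8k_0_k26_14 (by decide +kernel) ?_
  refine allI_appQ (k := 1) cD8k_0_k26_15 (by decide +kernel) ?_
  refine allI_appQ (k := 2) cD8k_0_k26_16 (by decide +kernel) ?_
  refine allI_appQ (k := 2) cD8k_0_k26_17 (by decide +kernel) ?_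
  refine allI_appQ (k := 2) cD8k_0_k26_18 (by decide +kernel) ?_
  refine allI_appQ (k := 1) cD8k_0_k26_19 (by decide +kernel) ?_
  refine allI_appQ (k := 2) cD8k_0_k26_20 (by decide +kernel) ?_
  refine allI_appQ (k := 2) cD8k_0_k26_21 (by decide +kernel) ?_
  refine allI_appQ (k := 1) cD8k_0_k26_22 (by decide +kernel) ?_
  refine allI_appQ (k := 1) cD8k_0_k26_23 (by decide +kernel) ?_
  refine allI_appQ (k := 1) cD8k_0_k26_24 (by decide +kernel) ?_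
  refine allI_appQ (k := 2) cD8k_0_k26_25 (by decide +kernel) ?_
  refine allI_appQ (k := 2) cD8k_0_k26_26 (by decide +kernel) ?_
  refine allI_appQ (k := 2) cD8k_0_k26_27 (by decide +kernel) ?_
  refine allI_appQ (k := 2) cD8k_0_k26_28 (by decide +kernel) ?_
  refine allI_appQ (k := 2) cD8k_0_k26_29 (by decide +kernel) ?_
  refine allI_appQ (k := 2) cD8k_0_k26_30 (by decide +kernel) ?_
  refine allI_appQ (k := 2) cD8k_0_k26_31 (by decide +kernel) ?_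
  refine allI_appQ (k := 3) cD8k_0_k26_32 (by decide +kernel) ?_
  refine allI_appQ (k := 2) cD8k_0_k26_33 (by decide +kernel) ?_
  refine allI_appQ (k := 2) cD8k_0_k26_34 (by decide +kernel) ?_
  refine allI_appQ (k := 2) cD8k_0_k26_35 (by decide +kernel) ?_
  refine allI_appQ (k := 1) cD8k_0_k26_36 (by decide +kernel) ?_
  refine allI_appQ (k := 2) cD8k_0_k26_37 (by decide +kernel) ?_
  refine allI_appQ (k := 2) cD8k_0_k26_38 (by decide +kernel) ?_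
  exact cD8k_0_k26_39

theorem cD8k_0_l26 : cD8k_0_n26.length = 75 := by
  decide +kernel

end Pool.Agent.Lib_MP_fa6e45
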