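import Pool.Agent.Lib_MP_fa6e45.DQ8k_0d
import Pool.Agent.Lib_MP_fa6e45.RD8k_27

/-!
MP_fa6e45_co, stage 9: straight-side patterns with `8` sides, part of a certificate (generated by a program).
-/

namespace Pool.Agent.Lib_MP_fa6e45

theorem cD8k_0_k27_0 : allI cD8k_0_c (rjL dJ cD8k_0_q rD8k_27_0) 4957 = true := by
  decide +kernel

theorem cD8k_0_k27_1 : allI cD8k_0_c (rjL dJ cD8k_0_q rD8k_27_1) 4959 = true := by
  decide +kernel

theorem cD8k_0_k27_2 : allI cD8k_0_c (rjL dJ cD8k_0_q rD8k_27_2) 4961 = true := by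
  decide +kernel

theorem cD8k_0_k27_3 : allI cD8k_0_c (rjL dJ cD8k_0_q rD8k_27_3) 4963 = true := by
  decide +kernel

theorem cD8k_0_k27_4 : allI cD8k_0_c (rjL dJ cD8k_0_q rD8k_27_4) 4965 = true := by
  decide +kernel

theorem cD8k_0_k27_5 : allI cD8k_0_c (rjL dJ cD8k_0_q rD8k_27_5) 4967 = true := by
  decide +kernel

theorem cD8k_0_k27_6 : allI cD8k_0_c (rjL dJ cD8k_0_q rD8k_27_6) 4970 = true := by
  decide +kernel

theorem cD8k_0_k27_7 : allI cD8k_0_c (rjL dJ cD8k_0_q rD8k_27_7) 4972 = true := by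
  decide +kernel

theorem cD8k_0_k27_8 : allI cD8k_0_c (rjL dJ cD8k_0_q rD8k_27_8) 4975 = true := by
  decide +kernel

theorem cD8k_0_k27_9 : allI cD8k_0_c (rjL dJ cD8k_0_q rD8k_27_9) 4978 = true := by
  decide +kernel

theorem cD8k_0_k27_10 : allI cD8k_0_c (rjL dJ cD8k_0_q rD8k_27_10) 4980 = true := by
  decide +kernel

theorem cD8k_0_k27_11 : allI cD8k_0_c (rjL dJ cD8k_0_q rD8k_27_11) 4982 = true := by
  decide +kernel

theorem cD8k_0_k27_12 : allI cD8k_0_c (rjL dJ cD8k_0_q rD8k_27_12) 4985 = true := by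
  decide +kernel

theorem cD8k_0_k27_13 : allI cD8k_0_c (rjL dJ cD8k_0_q rD8k_27_13) 4988 = true := by
  decide +kernel

theorem cD8k_0_k27_14 : allI cD8k_0_c (rjL dJ cD8k_0_q rD8k_27_14) 4991 = true := by
  decide +kernel

theorem cD8k_0_k27_15 : allI cD8k_0_c (rjL dJ cD8k_0_q rD8k_27_15) 4993 = true := by
  decide +kernel

theorem cD8k_0_k27_16 : allI cD8k_0_c (rjL dJ cD8k_0_q rD8k_27_16) 4995 = true := by
  decide +kernel

theorem cD8k_0_k27_17 : allI cD8k_0_c (rjL dJ cD8k_0_q rD8k_27_17) 4997 = true := by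
  decide +kernel

theorem cD8k_0_k27_18 : allI cD8k_0_c (rjL dJ cD8k_0_q rD8k_27_18) 4999 = true := by
  decide +kernel

theorem cD8k_0_k27_19 : allI cD8k_0_c (rjL dJ cD8k_0_q rD8k_27_19) 5002 = true := by
  decide +kernel

theorem cD8k_0_k27_20 : allI cD8k_0_c (rjL dJ cD8k_0_q rD8k_27_20) 5005 = true := by
  decide +kernel

theorem cD8k_0_k27_21 : allI cD8k_0_c (rjL dJ cD8k_0_q rD8k_27_21) 5007 = true := by
  decide +kernel

theorem cD8k_0_k27_22 : allI cD8k_0_c (rjL dJ cD8k_0_q rD8k_27_22) 5009 = true := by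
  decide +kernel

theorem cD8k_0_k27_23 : allI cD8k_0_c (rjL dJ cD8k_0_q rD8k_27_23) 5011 = true := by
  decide +kernel

theorem cD8k_0_k27_24 : allI cD8k_0_c (rjL dJ cD8k_0_q rD8k_27_24) 5013 = true := by
  decide +kernel

theorem cD8k_0_k27_25 : allI cD8k_0_c (rjL dJ cD8k_0_q rD8k_27_25) 5015 = true := by
  decide +kernel

theorem cD8k_0_k27_26 : allI cD8k_0_c (rjL dJ cD8k_0_q rD8k_27_26) 5018 = true := by
  decide +kernel

theorem cD8k_0_k27_27 : allI cD8k_0_c (rjL dJ cD8k_0_q rD8k_27_27) 5020 = true := by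
  decide +kernel

theorem cD8k_0_k27_28 : allI cD8k_0_c (rjL dJ cD8k_0_q rD8k_27_28) 5022 = true := by
  decide +kernel

theorem cD8k_0_k27_29 : allI cD8k_0_c (rjL dJ cD8k_0_q rD8k_27_29) 5024 = true := by
  decide +kernel

theorem cD8k_0_k27_30 : allI cD8k_0_c (rjL dJ cD8k_0_q rD8k_27_30) 5026 = true := by
  decide +kernel

theorem cD8k_0_k27_31 : allI cD8k_0_c (rjL dJ cD8k_0_q rD8k_27_31) 5028 = true := by
  decide +kernel

theorem cD8k_0_k27_32 : allI cD8k_0_c (rjL dJ cD8k_0_q rD8k_27_32) 5030 = true := by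
  decide +kernel

theorem cD8k_0_k27_33 : allI cD8k_0_c (rjL dJ cD8k_0_q rD8k_27_33) 5032 = true := by
  decide +kernel

theorem cD8k_0_k27_34 : allI cD8k_0_c (rjL dJ cD8k_0_q rD8k_27_34) 5034 = true := by
  decide +kernel

theorem cD8k_0_k27_35 : allI cD8k_0_c (rjL dJ cD8k_0_q rD8k_27_35) 5036 = true := by
  decide +kernel

theorem cD8k_0_k27_36 : allI cD8k_0_c (rjL dJ cD8k_0_q rD8k_27_36) 5038 = true := by
  decide +kernel

theorem cD8k_0_k27_37 : allI cD8k_0_c (rjL dJ cD8k_0_q rD8k_27_37) 5040 = true := by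
  decide +kernel

theorem cD8k_0_k27_38 : allI cD8k_0_c (rjL dJ cD8k_0_q rD8k_27_38) 5042 = true := by
  decide +kernel

theorem cD8k_0_k27_39 : allI cD8k_0_c (rjL dJ cD8k_0_q rD8k_27_39) 5044 = true := by
  decide +kernel

theorem cD8k_0_k27_40 : allI cD8k_0_c (rjL dJ cD8k_0_q rD8k_27_40) 5046 = true := by
  decide +kernel

theorem cD8k_0_k27_41 : allI cD8k_0_c (rjL dJ cD8k_0_q rD8k_27_41) 5048 = true := by
  decide +kernel

theorem cD8k_0_k27_42 : allI cD8k_0_c (rjL dJ cD8k_0_q rD8k_27_42) 5049 = true := by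
  decide +kernel

theorem cD8k_0_k27_43 : allI cD8k_0_c (rjL dJ cD8k_0_q rD8k_27_43) 5050 = true := by
  decide +kernel

theorem cD8k_0_k27_44 : allI cD8k_0_c (rjL dJ cD8k_0_q rD8k_27_44) 5051 = true := by
  decide +kernel

theorem cD8k_0_k27_45 : allI cD8k_0_c (rjL dJ cD8k_0_q rD8k_27_45) 5053 = true := by
  decide +kernel

/-- nodes -/
noncomputable def cD8k_0_n27 : List (QJ PN) :=
  rjL dJ cD8k_0_q rD8k_27_0 ++ (rjL dJ cD8k_0_q rD8k_27_1 ++ (rjL dJ cD8k_0_q rD8k_27_2 ++ (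
    rjL dJ cD8k_0_q rD8k_27_3 ++ (rjL dJ cD8k_0_q rD8k_27_4 ++ (rjL dJ cD8k_0_q rD8k_27_5 ++ (
    rjL dJ cD8k_0_q rD8k_27_6 ++ (rjL dJ cD8k_0_q rD8k_27_7 ++ (rjL dJ cD8k_0_q rD8k_27_8 ++ (
    rjL dJ cD8k_0_q rD8k_27_9 ++ (rjL dJ cD8k_0_q rD8k_27_10 ++ (rjL dJ cD8k_0_q rD8k_27_11 ++ (
    rjL dJ cD8k_0_q rD8k_27_12 ++ (rjL dJ cD8k_0_q rD8k_27_13 ++ (rjL dJ cD8k_0_q rD8k_27_14 ++ (
    rjL dJ cD8k_0_q rD8k_27_15 ++ (rjL dJ cD8k_0_q rD8k_27_16 ++ (rjL dJ cD8k_0_q rD8k_27_17 ++ (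
    rjL dJ cD8k_0_q rD8k_27_18 ++ (rjL dJ cD8k_0_q rD8k_27_19 ++ (rjL dJ cD8k_0_q rD8k_27_20 ++ (
    rjL dJ cD8k_0_q rD8k_27_21 ++ (rjL dJ cD8k_0_q rD8k_27_22 ++ (rjL dJ cD8k_0_q rD8k_27_23 ++ (
    rjL dJ cD8k_0_q rD8k_27_24 ++ (rjL dJ cD8k_0_q rD8k_27_25 ++ (rjL dJ cD8k_0_q rD8k_27_26 ++ (
    rjL dJ cD8k_0_q rD8k_27_27 ++ (rjL dJ cD8k_0_q rD8k_27_28 ++ (rjL dJ cD8k_0_q rD8k_27_29 ++ (
    rjL dJ cD8k_0_q rD8k_27_30 ++ (rjL dJ cD8k_0_q rD8k_27_31 ++ (rjL dJ cD8k_0_q rD8k_27_32 ++ (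
    rjL dJ cD8k_0_q rD8k_27_33 ++ (rjL dJ cD8k_0_q rD8k_27_34 ++ (rjL dJ cD8k_0_q rD8k_27_35 ++ (
    rjL dJ cD8k_0_q rD8k_27_36 ++ (rjL dJ cD8k_0_q rD8k_27_37 ++ (rjL dJ cD8k_0_q rD8k_27_38 ++ (
    rjL dJ cD8k_0_q rD8k_27_39 ++ (rjL dJ cD8k_0_q rD8k_27_40 ++ (rjL dJ cD8k_0_q rD8k_27_41 ++ (
    rjL dJ cD8k_0_q rD8k_27_42 ++ (rjL dJ cD8k_0_q rD8k_27_43 ++ (rjL dJ cD8k_0_q rD8k_27_44 ++
    rjL dJ cD8k_0_q rD8k_27_45))))))))))))))))))))))))))))))))))))))))))))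

theorem cD8k_0_k27 : allI cD8k_0_c cD8k_0_n27 4957 = true := by
  refine allI_appQ (k := 2) cD8k_0_k27_0 (by decide +kernel) ?_
  refine allI_appQ (k := 2) cD8k_0_k27_1 (by decide +kernel) ?_
  refine allI_appQ (k := 2) cD8k_0_k27_2 (by decide +kernel) ?_
  refine allI_appQ (k := 2) cD8k_0_k27_3 (by decide +kernel) ?_
  refine allI_appQ (k := 2) cD8k_0_k27_4 (by decide +kernel) ?_
  refine allI_appQ (k := 3) cD8k_0_k27_5 (by decide +kernel) ?_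
  refine allI_appQ (k := 2) cD8k_0_k27_6 (by decide +kernel) ?_
  refine allI_appQ (k := 3) cD8k_0_k27_7 (by decide +kernel) ?_
  refine allI_appQ (k := 3) cD8k_0_k27_8 (by decide +kernel) ?_
  refine allI_appQ (k := 2) cD8k_0_k27_9 (by decide +kernel) ?_
  refine allI_appQ (k := 2) cD8k_0_k27_10 (by decide +kernel) ?_
  refine allI_appQ (k := 3) cD8k_0_k27_11 (by decide +kernel) ?_
  refine allI_appQ (k := 3) cD8k_0_k27_12 (by decide +kernel) ?_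
  refine allI_appQ (k := 3) cD8k_0_k27_13 (by decide +kernel) ?_
  refine allI_appQ (k := 2) cD8k_0_k27_14 (by decide +kernel) ?_
  refine allI_appQ (k := 2) cD8k_0_k27_15 (by decide +kernel) ?_
  refine allI_appQ (k := 2) cD8k_0_k27_16 (by decide +kernel) ?_
  refine allI_appQ (k := 2) cD8k_0_k27_17 (by decide +kernel) ?_
  refine allI_appQ (k := 3) cD8k_0_k27_18 (by decide +kernel) ?_
  refine allI_appQ (k := 3) cD8k_0_k27_19 (by decide +kernel) ?_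
  refine allI_appQ (k := 2) cD8k_0_k27_20 (by decide +kernel) ?_
  refine allI_appQ (k := 2) cD8k_0_k27_21 (by decide +kernel) ?_
  refine allI_appQ (k := 2) cD8k_0_k27_22 (by decide +kernel) ?_
  refine allI_appQ (k := 2) cD8k_0_k27_23 (by decide +kernel) ?_
  refine allI_appQ (k := 2) cD8k_0_k27_24 (by decide +kernel) ?_
  refine allI_appQ (k := 3) cD8k_0_k27_25 (by decide +kernel) ?_
  refine allI_appQ (k := 2) cD8k_0_k27_26 (by decide +kernel) ?_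
  refine allI_appQ (k := 2) cD8k_0_k27_27 (by decide +kernel) ?_
  refine allI_appQ (k := 2) cD8k_0_k27_28 (by decide +kernel) ?_
  refine allI_appQ (k := 2) cD8k_0_k27_29 (by decide +kernel) ?_
  refine allI_appQ (k := 2) cD8k_0_k27_30 (by decide +kernel) ?_
  refine allI_appQ (k := 2) cD8k_0_k27_31 (by decide +kernel) ?_
  refine allI_appQ (k := 2) cD8k_0_k27_32 (by decide +kernel) ?_
  refine allI_appQ (k := 2) cD8k_0_k27_33 (by decide +kernel) ?_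
  refine allI_appQ (k := 2) cD8k_0_k27_34 (by decide +kernel) ?_
  refine allI_appQ (k := 2) cD8k_0_k27_35 (by decide +kernel) ?_
  refine allI_appQ (k := 2) cD8k_0_k27_36 (by decide +kernel) ?_
  refine allI_appQ (k := 2) cD8k_0_k27_37 (by decide +kernel) ?_
  refine allI_appQ (k := 2) cD8k_0_k27_38 (by decide +kernel) ?_
  refine allI_appQ (k := 2) cD8k_0_k27_39 (by decide +kernel) ?_
  refine allI_appQ (k := 2) cD8k_0_k27_40 (by decide +kernel) ?_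
  refine allI_appQ (k := 1) cD8k_0_k27_41 (by decide +kernel) ?_
  refine allI_appQ (k := 1) cD8k_0_k27_42 (by decide +kernel) ?_
  refine allI_appQ (k := 1) cD8k_0_k27_43 (by decide +kernel) ?_
  refine allI_appQ (k := 2) cD8k_0_k27_44 (by decide +kernel) ?_
  exact cD8k_0_k27_45

theorem cD8k_0_l27 : cD8k_0_n27.length = 97 := by
  decide +kernel

end Pool.Agent.Lib_MP_fa6e45
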