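import Pool.Agent.Lib_MP_fa6e45.DQ8k_0d
import Pool.Agent.Lib_MP_fa6e45.RD8k_28

/-!
MP_fa6e45_co, stage 9: straight-side patterns with `8` sides, part of a certificate (generated by a program).
-/

namespace Pool.Agent.Lib_MP_fa6e45

theorem cD8k_0_k28_0 : allI cD8k_0_c (rjL dJ cD8k_0_q rD8k_28_0) 5054 = true := by
  decide +kernel

theorem cD8k_0_k28_1 : allI cD8k_0_c (rjL dJ cD8k_0_q rD8k_28_1) 5056 = true := by
  decide +kernel

theorem cD8k_0_k28_2 : allI cD8k_0_c (rjL dJ cD8k_0_q rD8k_28_2) 5058 = true := by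
  decide +kernel

theorem cD8k_0_k28_3 : allI cD8k_0_c (rjL dJ cD8k_0_q rD8k_28_3) 5060 = true := by
  decide +kernel

theorem cD8k_0_k28_4 : allI cD8k_0_c (rjL dJ cD8k_0_q rD8k_28_4) 5062 = true := by
  decide +kernel

theorem cD8k_0_k28_5 : allI cD8k_0_c (rjL dJ cD8k_0_q rD8k_28_5) 5064 = true := by
  decide +kernel

theorem cD8k_0_k28_6 : allI cD8k_0_c (rjL dJ cD8k_0_q rD8k_28_6) 5066 = true := by
  decide +kernel

theorem cD8k_0_k28_7 : allI cD8k_0_c (rjL dJ cD8k_0_q rD8k_28_7) 5068 = true := by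
  decide +kernel

theorem cD8k_0_k28_8 : allI cD8k_0_c (rjL dJ cD8k_0_q rD8k_28_8) 5070 = true := by
  decide +kernel

theorem cD8k_0_k28_9 : allI cD8k_0_c (rjL dJ cD8k_0_q rD8k_28_9) 5072 = true := by
  decide +kernel

theorem cD8k_0_k28_10 : allI cD8k_0_c (rjL dJ cD8k_0_q rD8k_28_10) 5074 = true := by
  decide +kernel

theorem cD8k_0_k28_11 : allI cD8k_0_c (rjL dJ cD8k_0_q rD8k_28_11) 5076 = true := by
  decide +kernel

theorem cD8k_0_k28_12 : allI cD8k_0_c (rjL dJ cD8k_0_q rD8k_28_12) 5078 = true := by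
  decide +kernel

theorem cD8k_0_k28_13 : allI cD8k_0_c (rjL dJ cD8k_0_q rD8k_28_13) 5081 = true := by
  decide +kernel

theorem cD8k_0_k28_14 : allI cD8k_0_c (rjL dJ cD8k_0_q rD8k_28_14) 5083 = true := by
  decide +kernel

theorem cD8k_0_k28_15 : allI cD8k_0_c (rjL dJ cD8k_0_q rD8k_28_15) 5085 = true := by
  decide +kernel

theorem cD8k_0_k28_16 : allI cD8k_0_c (rjL dJ cD8k_0_q rD8k_28_16) 5087 = true := by
  decide +kernel

theorem cD8k_0_k28_17 : allI cD8k_0_c (rjL dJ cD8k_0_q rD8k_28_17) 5089 = true := by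
  decide +kernel

theorem cD8k_0_k28_18 : allI cD8k_0_c (rjL dJ cD8k_0_q rD8k_28_18) 5090 = true := by
  decide +kernel

theorem cD8k_0_k28_19 : allI cD8k_0_c (rjL dJ cD8k_0_q rD8k_28_19) 5092 = true := by
  decide +kernel

theorem cD8k_0_k28_20 : allI cD8k_0_c (rjL dJ cD8k_0_q rD8k_28_20) 5094 = true := by
  decide +kernel

theorem cD8k_0_k28_21 : allI cD8k_0_c (rjL dJ cD8k_0_q rD8k_28_21) 5096 = true := by
  decide +kernel

theorem cD8k_0_k28_22 : allI cD8k_0_c (rjL dJ cD8k_0_q rD8k_28_22) 5098 = true := by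
  decide +kernel

theorem cD8k_0_k28_23 : allI cD8k_0_c (rjL dJ cD8k_0_q rD8k_28_23) 5100 = true := by
  decide +kernel

theorem cD8k_0_k28_24 : allI cD8k_0_c (rjL dJ cD8k_0_q rD8k_28_24) 5102 = true := by
  decide +kernel

theorem cD8k_0_k28_25 : allI cD8k_0_c (rjL dJ cD8k_0_q rD8k_28_25) 5104 = true := by
  decide +kernel

theorem cD8k_0_k28_26 : allI cD8k_0_c (rjL dJ cD8k_0_q rD8k_28_26) 5106 = true := by
  decide +kernel

theorem cD8k_0_k28_27 : allI cD8k_0_c (rjL dJ cD8k_0_q rD8k_28_27) 5107 = true := by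
  decide +kernel

theorem cD8k_0_k28_28 : allI cD8k_0_c (rjL dJ cD8k_0_q rD8k_28_28) 5109 = true := by
  decide +kernel

theorem cD8k_0_k28_29 : allI cD8k_0_c (rjL dJ cD8k_0_q rD8k_28_29) 5111 = true := by
  decide +kernel

theorem cD8k_0_k28_30 : allI cD8k_0_c (rjL dJ cD8k_0_q rD8k_28_30) 5113 = true := by
  decide +kernel

theorem cD8k_0_k28_31 : allI cD8k_0_c (rjL dJ cD8k_0_q rD8k_28_31) 5115 = true := by
  decide +kernel

theorem cD8k_0_k28_32 : allI cD8k_0_c (rjL dJ cD8k_0_q rD8k_28_32) 5117 = true := by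
  decide +kernel

theorem cD8k_0_k28_33 : allI cD8k_0_c (rjL dJ cD8k_0_q rD8k_28_33) 5119 = true := by
  decide +kernel

theorem cD8k_0_k28_34 : allI cD8k_0_c (rjL dJ cD8k_0_q rD8k_28_34) 5121 = true := by
  decide +kernel

theorem cD8k_0_k28_35 : allI cD8k_0_c (rjL dJ cD8k_0_q rD8k_28_35) 5123 = true := by
  decide +kernel

theorem cD8k_0_k28_36 : allI cD8k_0_c (rjL dJ cD8k_0_q rD8k_28_36) 5125 = true := by
  decide +kernel

/-- nodes -/
noncomputable def cD8k_0_n28 : List (QJ PN) :=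
  rjL dJ cD8k_0_q rD8k_28_0 ++ (rjL dJ cD8k_0_q rD8k_28_1 ++ (rjL dJ cD8k_0_q rD8k_28_2 ++ (
    rjL dJ cD8k_0_q rD8k_28_3 ++ (rjL dJ cD8k_0_q rD8k_28_4 ++ (rjL dJ cD8k_0_q rD8k_28_5 ++ (
    rjL dJ cD8k_0_q rD8k_28_6 ++ (rjL dJ cD8k_0_q rD8k_28_7 ++ (rjL dJ cD8k_0_q rD8k_28_8 ++ (
    rjL dJ cD8k_0_q rD8k_28_9 ++ (rjL dJ cD8k_0_q rD8k_28_10 ++ (rjL dJ cD8k_0_q rD8k_28_11 ++ (
    rjL dJ cD8k_0_q rD8k_28_12 ++ (rjL dJ cD8k_0_q rD8k_28_13 ++ (rjL dJ cD8k_0_q rD8k_28_14 ++ (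
    rjL dJ cD8k_0_q rD8k_28_15 ++ (rjL dJ cD8k_0_q rD8k_28_16 ++ (rjL dJ cD8k_0_q rD8k_28_17 ++ (
    rjL dJ cD8k_0_q rD8k_28_18 ++ (rjL dJ cD8k_0_q rD8k_28_19 ++ (rjL dJ cD8k_0_q rD8k_28_20 ++ (
    rjL dJ cD8k_0_q rD8k_28_21 ++ (rjL dJ cD8k_0_q rD8k_28_22 ++ (rjL dJ cD8k_0_q rD8k_28_23 ++ (
    rjL dJ cD8k_0_q rD8k_28_24 ++ (rjL dJ cD8k_0_q rD8k_28_25 ++ (rjL dJ cD8k_0_q rD8k_28_26 ++ (
    rjL dJ cD8k_0_q rD8k_28_27 ++ (rjL dJ cD8k_0_q rD8k_28_28 ++ (rjL dJ cD8k_0_q rD8k_28_29 ++ (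
    rjL dJ cD8k_0_q rD8k_28_30 ++ (rjL dJ cD8k_0_q rD8k_28_31 ++ (rjL dJ cD8k_0_q rD8k_28_32 ++ (
    rjL dJ cD8k_0_q rD8k_28_33 ++ (rjL dJ cD8k_0_q rD8k_28_34 ++ (rjL dJ cD8k_0_q rD8k_28_35 ++
    rjL dJ cD8k_0_q rD8k_28_36)))))))))))))))))))))))))))))))))))

theorem cD8k_0_k28 : allI cD8k_0_c cD8k_0_n28 5054 = true := by
  refine allI_appQ (k := 2) cD8k_0_k28_0 (by decide +kernel) ?_
  refine allI_appQ (k := 2) cD8k_0_k28_1 (by decide +kernel) ?_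
  refine allI_appQ (k := 2) cD8k_0_k28_2 (by decide +kernel) ?_
  refine allI_appQ (k := 2) cD8k_0_k28_3 (by decide +kernel) ?_
  refine allI_appQ (k := 2) cD8k_0_k28_4 (by decide +kernel) ?_
  refine allI_appQ (k := 2) cD8k_0_k28_5 (by decide +kernel) ?_
  refine allI_appQ (k := 2) cD8k_0_k28_6 (by decide +kernel) ?_
  refine allI_appQ (k := 2) cD8k_0_k28_7 (by decide +kernel) ?_
  refine allI_appQ (k := 2) cD8k_0_k28_8 (by decide +kernel) ?_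
  refine allI_appQ (k := 2) cD8k_0_k28_9 (by decide +kernel) ?_
  refine allI_appQ (k := 2) cD8k_0_k28_10 (by decide +kernel) ?_
  refine allI_appQ (k := 2) cD8k_0_k28_11 (by decide +kernel) ?_
  refine allI_appQ (k := 3) cD8k_0_k28_12 (by decide +kernel) ?_
  refine allI_appQ (k := 2) cD8k_0_k28_13 (by decide +kernel) ?_
  refine allI_appQ (k := 2) cD8k_0_k28_14 (by decide +kernel) ?_
  refine allI_appQ (k := 2) cD8k_0_k28_15 (by decide +kernel) ?_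
  refine allI_appQ (k := 2) cD8k_0_k28_16 (by decide +kernel) ?_
  refine allI_appQ (k := 1) cD8k_0_k28_17 (by decide +kernel) ?_
  refine allI_appQ (k := 2) cD8k_0_k28_18 (by decide +kernel) ?_
  refine allI_appQ (k := 2) cD8k_0_k28_19 (by decide +kernel) ?_
  refine allI_appQ (k := 2) cD8k_0_k28_20 (by decide +kernel) ?_
  refine allI_appQ (k := 2) cD8k_0_k28_21 (by decide +kernel) ?_
  refine allI_appQ (k := 2) cD8k_0_k28_22 (by decide +kernel) ?_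
  refine allI_appQ (k := 2) cD8k_0_k28_23 (by decide +kernel) ?_
  refine allI_appQ (k := 2) cD8k_0_k28_24 (by decide +kernel) ?_
  refine allI_appQ (k := 2) cD8k_0_k28_25 (by decide +kernel) ?_
  refine allI_appQ (k := 1) cD8k_0_k28_26 (by decide +kernel) ?_
  refine allI_appQ (k := 2) cD8k_0_k28_27 (by decide +kernel) ?_
  refine allI_appQ (k := 2) cD8k_0_k28_28 (by decide +kernel) ?_
  refine allI_appQ (k := 2) cD8k_0_k28_29 (by decide +kernel) ?_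
  refine allI_appQ (k := 2) cD8k_0_k28_30 (by decide +kernel) ?_
  refine allI_appQ (k := 2) cD8k_0_k28_31 (by decide +kernel) ?_
  refine allI_appQ (k := 2) cD8k_0_k28_32 (by decide +kernel) ?_
  refine allI_appQ (k := 2) cD8k_0_k28_33 (by decide +kernel) ?_
  refine allI_appQ (k := 2) cD8k_0_k28_34 (by decide +kernel) ?_
  refine allI_appQ (k := 2) cD8k_0_k28_35 (by decide +kernel) ?_
  exact cD8k_0_k28_36

theorem cD8k_0_l28 : cD8k_0_n28.length = 72 := by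
  decide +kernel

end Pool.Agent.Lib_MP_fa6e45
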