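import Pool.Agent.Lib_MP_fa6e45.DQ8k_0d
import Pool.Agent.Lib_MP_fa6e45.RD8k_29

/-!
MP_fa6e45_co, stage 9: straight-side patterns with `8` sides, part of a certificate (generated by a program).
-/

namespace Pool.Agent.Lib_MP_fa6e45

theorem cD8k_0_k29_0 : allI cD8k_0_c (rjL dJ cD8k_0_q rD8k_29_0) 5126 = true := by
  decide +kernel

theorem cD8k_0_k29_1 : allI cD8k_0_c (rjL dJ cD8k_0_q rD8k_29_1) 5127 = true := by
  decide +kernel

theorem cD8k_0_k29_2 : allI cD8k_0_c (rjL dJ cD8k_0_q rD8k_29_2) 5129 = true := by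
  decide +kernel

theorem cD8k_0_k29_3 : allI cD8k_0_c (rjL dJ cD8k_0_q rD8k_29_3) 5131 = true := by
  decide +kernel

theorem cD8k_0_k29_4 : allI cD8k_0_c (rjL dJ cD8k_0_q rD8k_29_4) 5133 = true := by
  decide +kernel

theorem cD8k_0_k29_5 : allI cD8k_0_c (rjL dJ cD8k_0_q rD8k_29_5) 5135 = true := by
  decide +kernel

theorem cD8k_0_k29_6 : allI cD8k_0_c (rjL dJ cD8k_0_q rD8k_29_6) 5137 = true := by
  decide +kernel

theorem cD8k_0_k29_7 : allI cD8k_0_c (rjL dJ cD8k_0_q rD8k_29_7) 5139 = true := by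
  decide +kernel

theorem cD8k_0_k29_8 : allI cD8k_0_c (rjL dJ cD8k_0_q rD8k_29_8) 5142 = true := by
  decide +kernel

theorem cD8k_0_k29_9 : allI cD8k_0_c (rjL dJ cD8k_0_q rD8k_29_9) 5144 = true := by
  decide +kernel

theorem cD8k_0_k29_10 : allI cD8k_0_c (rjL dJ cD8k_0_q rD8k_29_10) 5146 = true := by
  decide +kernel

theorem cD8k_0_k29_11 : allI cD8k_0_c (rjL dJ cD8k_0_q rD8k_29_11) 5148 = true := by
  decide +kernel

theorem cD8k_0_k29_12 : allI cD8k_0_c (rjL dJ cD8k_0_q rD8k_29_12) 5150 = true := by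
  decide +kernel

theorem cD8k_0_k29_13 : allI cD8k_0_c (rjL dJ cD8k_0_q rD8k_29_13) 5152 = true := by
  decide +kernel

theorem cD8k_0_k29_14 : allI cD8k_0_c (rjL dJ cD8k_0_q rD8k_29_14) 5154 = true := by
  decide +kernel

theorem cD8k_0_k29_15 : allI cD8k_0_c (rjL dJ cD8k_0_q rD8k_29_15) 5156 = true := by
  decide +kernel

theorem cD8k_0_k29_16 : allI cD8k_0_c (rjL dJ cD8k_0_q rD8k_29_16) 5158 = true := by
  decide +kernel

theorem cD8k_0_k29_17 : allI cD8k_0_c (rjL dJ cD8k_0_q rD8k_29_17) 5160 = true := by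
  decide +kernel

theorem cD8k_0_k29_18 : allI cD8k_0_c (rjL dJ cD8k_0_q rD8k_29_18) 5162 = true := by
  decide +kernel

theorem cD8k_0_k29_19 : allI cD8k_0_c (rjL dJ cD8k_0_q rD8k_29_19) 5164 = true := by
  decide +kernel

theorem cD8k_0_k29_20 : allI cD8k_0_c (rjL dJ cD8k_0_q rD8k_29_20) 5166 = true := by
  decide +kernel

theorem cD8k_0_k29_21 : allI cD8k_0_c (rjL dJ cD8k_0_q rD8k_29_21) 5168 = true := by
  decide +kernel

theorem cD8k_0_k29_22 : allI cD8k_0_c (rjL dJ cD8k_0_q rD8k_29_22) 5170 = true := by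
  decide +kernel

theorem cD8k_0_k29_23 : allI cD8k_0_c (rjL dJ cD8k_0_q rD8k_29_23) 5173 = true := by
  decide +kernel

theorem cD8k_0_k29_24 : allI cD8k_0_c (rjL dJ cD8k_0_q rD8k_29_24) 5175 = true := by
  decide +kernel

theorem cD8k_0_k29_25 : allI cD8k_0_c (rjL dJ cD8k_0_q rD8k_29_25) 5177 = true := by
  decide +kernel

theorem cD8k_0_k29_26 : allI cD8k_0_c (rjL dJ cD8k_0_q rD8k_29_26) 5178 = true := by
  decide +kernel

theorem cD8k_0_k29_27 : allI cD8k_0_c (rjL dJ cD8k_0_q rD8k_29_27) 5179 = true := by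
  decide +kernel

theorem cD8k_0_k29_28 : allI cD8k_0_c (rjL dJ cD8k_0_q rD8k_29_28) 5181 = true := by
  decide +kernel

theorem cD8k_0_k29_29 : allI cD8k_0_c (rjL dJ cD8k_0_q rD8k_29_29) 5183 = true := by
  decide +kernel

theorem cD8k_0_k29_30 : allI cD8k_0_c (rjL dJ cD8k_0_q rD8k_29_30) 5186 = true := by
  decide +kernel

theorem cD8k_0_k29_31 : allI cD8k_0_c (rjL dJ cD8k_0_q rD8k_29_31) 5189 = true := by
  decide +kernel

/-- nodes -/
noncomputable def cD8k_0_n29 : List (QJ PN) :=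
  rjL dJ cD8k_0_q rD8k_29_0 ++ (rjL dJ cD8k_0_q rD8k_29_1 ++ (rjL dJ cD8k_0_q rD8k_29_2 ++ (
    rjL dJ cD8k_0_q rD8k_29_3 ++ (rjL dJ cD8k_0_q rD8k_29_4 ++ (rjL dJ cD8k_0_q rD8k_29_5 ++ (
    rjL dJ cD8k_0_q rD8k_29_6 ++ (rjL dJ cD8k_0_q rD8k_29_7 ++ (rjL dJ cD8k_0_q rD8k_29_8 ++ (
    rjL dJ cD8k_0_q rD8k_29_9 ++ (rjL dJ cD8k_0_q rD8k_29_10 ++ (rjL dJ cD8k_0_q rD8k_29_11 ++ (
    rjL dJ cD8k_0_q rD8k_29_12 ++ (rjL dJ cD8k_0_q rD8k_29_13 ++ (rjL dJ cD8k_0_q rD8k_29_14 ++ (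
    rjL dJ cD8k_0_q rD8k_29_15 ++ (rjL dJ cD8k_0_q rD8k_29_16 ++ (rjL dJ cD8k_0_q rD8k_29_17 ++ (
    rjL dJ cD8k_0_q rD8k_29_18 ++ (rjL dJ cD8k_0_q rD8k_29_19 ++ (rjL dJ cD8k_0_q rD8k_29_20 ++ (
    rjL dJ cD8k_0_q rD8k_29_21 ++ (rjL dJ cD8k_0_q rD8k_29_22 ++ (rjL dJ cD8k_0_q rD8k_29_23 ++ (
    rjL dJ cD8k_0_q rD8k_29_24 ++ (rjL dJ cD8k_0_q rD8k_29_25 ++ (rjL dJ cD8k_0_q rD8k_29_26 ++ (
    rjL dJ cD8k_0_q rD8k_29_27 ++ (rjL dJ cD8k_0_q rD8k_29_28 ++ (rjL dJ cD8k_0_q rD8k_29_29 ++ (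
    rjL dJ cD8k_0_q rD8k_29_30 ++ rjL dJ cD8k_0_q rD8k_29_31))))))))))))))))))))))))))))))

theorem cD8k_0_k29 : allI cD8k_0_c cD8k_0_n29 5126 = true := by
  refine allI_appQ (k := 1) cD8k_0_k29_0 (by decide +kernel) ?_
  refine allI_appQ (k := 2) cD8k_0_k29_1 (by decide +kernel) ?_
  refine allI_appQ (k := 2) cD8k_0_k29_2 (by decide +kernel) ?_
  refine allI_appQ (k := 2) cD8k_0_k29_3 (by decide +kernel) ?_
  refine allI_appQ (k := 2) cD8k_0_k29_4 (by decide +kernel) ?_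
  refine allI_appQ (k := 2) cD8k_0_k29_5 (by decide +kernel) ?_
  refine allI_appQ (k := 2) cD8k_0_k29_6 (by decide +kernel) ?_
  refine allI_appQ (k := 3) cD8k_0_k29_7 (by decide +kernel) ?_
  refine allI_appQ (k := 2) cD8k_0_k29_8 (by decide +kernel) ?_
  refine allI_appQ (k := 2) cD8k_0_k29_9 (by decide +kernel) ?_
  refine allI_appQ (k := 2) cD8k_0_k29_10 (by decide +kernel) ?_
  refine allI_appQ (k := 2) cD8k_0_k29_11 (by decide +kernel) ?_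
  refine allI_appQ (k := 2) cD8k_0_k29_12 (by decide +kernel) ?_
  refine allI_appQ (k := 2) cD8k_0_k29_13 (by decide +kernel) ?_
  refine allI_appQ (k := 2) cD8k_0_k29_14 (by decide +kernel) ?_
  refine allI_appQ (k := 2) cD8k_0_k29_15 (by decide +kernel) ?_
  refine allI_appQ (k := 2) cD8k_0_k29_16 (by decide +kernel) ?_
  refine allI_appQ (k := 2) cD8k_0_k29_17 (by decide +kernel) ?_
  refine allI_appQ (k := 2) cD8k_0_k29_18 (by decide +kernel) ?_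
  refine allI_appQ (k := 2) cD8k_0_k29_19 (by decide +kernel) ?_
  refine allI_appQ (k := 2) cD8k_0_k29_20 (by decide +kernel) ?_
  refine allI_appQ (k := 2) cD8k_0_k29_21 (by decide +kernel) ?_
  refine allI_appQ (k := 3) cD8k_0_k29_22 (by decide +kernel) ?_
  refine allI_appQ (k := 2) cD8k_0_k29_23 (by decide +kernel) ?_
  refine allI_appQ (k := 2) cD8k_0_k29_24 (by decide +kernel) ?_
  refine allI_appQ (k := 1) cD8k_0_k29_25 (by decide +kernel) ?_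
  refine allI_appQ (k := 1) cD8k_0_k29_26 (by decide +kernel) ?_
  refine allI_appQ (k := 2) cD8k_0_k29_27 (by decide +kernel) ?_
  refine allI_appQ (k := 2) cD8k_0_k29_28 (by decide +kernel) ?_
  refine allI_appQ (k := 3) cD8k_0_k29_29 (by decide +kernel) ?_
  refine allI_appQ (k := 3) cD8k_0_k29_30 (by decide +kernel) ?_
  exact cD8k_0_k29_31

theorem cD8k_0_l29 : cD8k_0_n29.length = 64 := by
  decide +kernel

end Pool.Agent.Lib_MP_fa6e45
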