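import Pool.Agent.Lib_MP_fa6e45.RJ0

/-!
MP_fa6e45_co, stage 9: straight-side patterns with `8` sides, raw data (generated by a program).
-/

namespace Pool.Agent.Lib_MP_fa6e45

/-- nodes -/
noncomputable def rD8k_3_0 : List RJ :=
  [.h (nat_lit 6) (nat_lit 3) (nat_lit 4) (nat_lit 0xa0000001000000016000000140000000e000000080000000200000000) (nat_lit 0x600000000000000000000000000000000000000060000000600000006) (nat_lit 0x600000006000000000000000300000009000000090000000c0000000c) (nat_lit 6) (nat_lit 9) (nat_lit 0x200700000129000001080) (nat_lit 0x10008000ef882bffffff40008f44ccffffffbffe52b291fffcb8a6212e2ffffffc5822be9537fffffeffffff8a5255c295fff8a91ffffff7ffcc445b5fff96b0a9bfff2600ef0751ffffff11ac72dffeffffff89ce3e31e97fffffdffffff1580a43fff24b0f27ffc41fffffffbffe28d0dffff84c7fff0a77ff85302c3fff879fffdfff06f0587fffffe14f0ba7ffe204fff7fffffc4e620efff8903fff1a10abfffc368ffffffbffe10b0de7ffc349ffe12e8bbbffe2b5fff7fffffc4912587ffc7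a042dffffff89d84adfff7ffc7643bbfff126496fffeffffffbfffffe2a5157cb17ffffff15d4b845ffffffffbffe5492e47ffcb0c65fffffff8c906c8fff9cc5005ffffff7fffffdffffff4000958516fff114c99dffeffffffa00037e22f7ff862c427fff7fffffdfff2cb98f8cf7ffffff1678b2ffff3599b7ffffffefff9d20f91fff46a26b3fffffe42420e12cfffefffa7b9667ffe565b0cbffdffffff7fffffc5872b7fffcdf26843bb7ffbfffffe2aa94f3ffe65a3ab1c9bfffffe30a9b80d0bffffff7fffffdfff449a799485ffffff23211bdfff5542a01775ffeffffffbffebc469e7ff993ad41fffb943ffdffffff5092827fffa1231b3ffd424ffffffa82671734e7ffe8266a6310fffe826580292fffe8263ddffffffbfffffeffffffbfff413a127ffa827413a09895fffe143fff7ffc0580afffffffbffef9d0237fffffdffffff7ffdbe8eb6fffbdb3ffcf81025fffc115ffeffffffbfffffeffffffbfffffe),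
    
    .h (nat_lit 12) (nat_lit 3) (nat_lit 4) (nat_lit 0x1a000000260000001e0000001a0000000e000000020000000000000000) (nat_lit 0xc000000000000000000000000000000000000000c0000000c0000000c) (nat_lit 0x60000000600000000000000000000000c0000000c0000000f00000009) (nat_lit 12) (nat_lit 9) (nat_lit 0x20070000018c000002100) (nat_lit 0x10068033453ffce06fffb89deb3ffe0607fffffcf4f048fffc55848dffffffbfffffe803078e00c4cdfff7ffcce475e4aa7ffbfffffe8031ba104692dfff7fffffd00652cae87fffffefffa6f9655ffe60c34a3ffdffffff7fffffdfff),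
    
    .h (nat_lit 3) (nat_lit 1) (nat_lit 7) (nat_lit 0x800000005000000060000000100000000000000030000000400000001) (nat_lit 0x200000002000000010000000300000004000000010000000000000003) (nat_lit 0x3000000000000000000000000000000000000000000000000) (nat_lit 2) (nat_lit 0) (nat_lit 0x200700000021000000580) (nat_lit 0x4019f8eeab692fff9f4bffffff074ffffffe1e2fffe00bfff),
    
    .h (nat_lit 6) (nat_lit 1) (nat_lit 3) (nat_lit 0xa0000001000000012000000100000000e000000080000000600000000) (nat_lit 0x600000000000000000000000000000000000000000000000000000006) (nat_lit 0x300000003000000000000000000000003000000090000000600000006) (nat_lit 0) (nat_lit 3) (nat_lit 0x2007000000c6000000840) (nat_lit 0x10003eba393ffc7e1453fffbfffffe8001fcd0cfffe3f52293ffdffffff7ffd400aec544ab2942dffffff7fffffc989484fffd32a8dbfff22effffffefffac5152e9ec4797ffbfffffe527a597ffc90440efffbffe7f43b77fffffdfff4b4a07fffe862fff1e47fffffe3ed9e23ffc81dfffa0d3ffdffffff23bd263ffe4c7295bffdfff49c2663ffca575767ffd4e6a8651f7ffbfffffeffffffbfffffe),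
    
    .h (nat_lit 12) (nat_lit 3) (nat_lit 5) (nat_lit 0x1e0000001e000000180000000c000000160000000a0000000400000000) (nat_lit 0xc000000060000000900000009000000000000000c0000000f0000000f) (nat_lit 0xc00000000000000000000000000000000) (nat_lit 12) (nat_lit 0) (nat_lit 0x2007000000840000014a0) (nat_lit 0x1004802401165dffefffae07ffd0046b3fff9f1dfff73f7ffbfffffe173053c147ffe1b38a2fffdffffff7ffcdc45d22467ff9194704fff7fffffcb7f5c22847ffcd6cffffffbffffff),
    
    .h (nat_lit 6) (nat_lit 1) (nat_lit 2) (nat_lit 0x100000001600000008000000080000000e0000000c0000000600000000) (nat_lit 0x600000000000000060000000300000003000000030000000300000009) (nat_lit 0x600000006000000060000000600000000000000000000000600000006) (nat_lit 3) (nat_lit 6) (nat_lit 0x200700000084000000a50) (nat_lit 0x726433a62bffe78643bd20bffdffffff7ffcd4a6772d2fffcb4fffeffffff9624b39fff3397fff435a1afffa88dffffff511bffe4791dffffc981ffe212ffffffdfff331972bffe664fff1937fffffe0920817ffe4b1fff401bffe7dafff7ffcde2788fff225fffe80d3b8a4bbfffffe52b2bbd8d9ffffff7fffffcaa8686401bfffffeffffffa00dfff),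
    
    .h (nat_lit 6) (nat_lit 3) (nat_lit 5) (nat_lit 0xc00000012000000100000000a00000006000000000000000400000004) (nat_lit 0x300000003000000030000000300000000000000060000000900000006) (nat_lit 0x600000000000000000000000600000006000000060000000600000006) (nat_lit 3) (nat_lit 6) (nat_lit 0x200700000084000000a50) (nat_lit 0x40020006e93817ffbfff00033f9e03ffe68c39cffffffdffffff21a519bffe4ffa791502a27fff7fffffdfff430a4a919dffefff9fa8ed9ffe4101db3ffdffffff50912ce8fafffa0bfffdfffa121e97fffffeffffffbfff00034f9b4fffe6ac3527fffffdfff8001ab0d8fffeffffff8db86f4fff9b9bffc79840efffbffe7523ef7ff9237ffffff7fffffdfff),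
    
    .h (nat_lit 6) (nat_lit 1) (nat_lit 2) (nat_lit 0xe000000140000000a000000080000000e0000000c0000000600000000) (nat_lit 0x600000000000000060000000300000003000000030000000300000009) (nat_lit 0x600000006000000060000000600000000000000000000000600000006) (nat_lit 3) (nat_lit 6) (nat_lit 0x200700000084000000a50) (nat_lit 0x4014bfc711fffa53fffdfff802aff9bc300511effffffcfb01820f47fffffeffffffbfffffe431a773ffebbefff401bffedea75ffffc258516fff041c611ffe8037ffcd1f006ffffffbfffffe8037fffffdfff),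
    
    .h (nat_lit 6) (nat_lit 1) (nat_lit 2) (nat_lit 0x80000000200000000000000060000000c0000000c0000000600000000) (nat_lit 0x300000003000000030000000300000003000000000000000000000006) (nat_lit 0x60000000c0000000c0000000600000000000000000000000600000006) (nat_lit 3) (nat_lit 6) (nat_lit 0x200700000108000000630) (nat_lit 0x1000800339fffed68fff3bd5fb3ffefffc001d81fff8003bd5cccec0ffffffbfffffe7f604e4347ffefff8035e28fcc75aba03fffffeffffff829a12bfff0a8c4c2273fff0efa84dffeffffffbffe0230753e6a84dffffff7ffdd0cd54fff3689931fff6147ffbfffffea13509a84dffffff5099336970ffffffbffeb83563fffd64fffe53bffffffdffffff7fffffdffffff7ffe0010006ad35d3ffec60fff7ffe000c1affffff9aa2d3c63e7ffbffec47fff2fa9697fff5f2fffbffec7cfff7ffd96adc5ffffffbfffffe8003ca825fffefffc0004f5000238ffffffc2fd1fb939cbe1ffe23352d7ffdffffff0d8c5ddfffa5ad2d7ffc22707f7ffbfffffeffffffbfff000a5ad2d7ffdfff8002dc7fffffea5ad2d7ffd4b57427ffbffed3376fffffffdffffff7fffffdffe),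
    
    .t (nat_lit 68),
    .t (nat_lit 69),
    .t (nat_lit 70),
    .t (nat_lit 71),
    .t (nat_lit 72),
    .t (nat_lit 73),
    .t (nat_lit 74),
    .t (nat_lit 75),
    .t (nat_lit 76)]

/-- nodes -/
noncomputable def rD8k_3_1 : List RJ :=
  [.t (nat_lit 77),
    .t (nat_lit 78),
    .t (nat_lit 79),
    .t (nat_lit 80),
    .t (nat_lit 81),
    .t (nat_lit 82),
    .t (nat_lit 83),
    .t (nat_lit 84),
    .t (nat_lit 85),
    .t (nat_lit 86),
    .t (nat_lit 87),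
    .t (nat_lit 88),
    .t (nat_lit 89),
    .t (nat_lit 90),
    .t (nat_lit 91),
    .t (nat_lit 92),
    .t (nat_lit 93),
    .t (nat_lit 94),
    .t (nat_lit 95),
    .t (nat_lit 96)]

/-- nodes -/
noncomputable def rD8k_3_2 : List RJ :=
  [.l (nat_lit 17) (nat_lit 0x462c) (nat_lit 5) (nat_lit 0x214700002147000028a4000028a40000231d0000207d00001e270000206f000025dd000025dd00001eb500001a7e00001e4e000021f100001e2700001e27) (nat_lit 0x75d0000075d000000000000000000000827000005870000083500000a7d000002c7000002c700000e26000009ef000006b300000a5600000a7d00000a7d)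
    (nat_lit 0x106208788428e1e990c9004f78338817de0e6307a002fbc16880cf6043002d9417540dc0083103d6e214708c506f00322414380d1b062d02ee817580c4c02ec832f016ea10a387a645148270e1187896b44c7625bd12ee897744b7a22ff10e8867ec2e9a20230f5b8851c3ea828a4103f88c7440de1ff10f9787fb4465a206f10f88619c4c122edf0de004f78463a25ad0c9609b9841b0189e0f4e0815835bc1fdc05d904060314018a008c50648040fe230f0d75064b02abc160012eb09e401a4812220f0405d9029d815760a1c05f783fe225bd0b0006278183011160fe6079281d880c180bff0641027540f6c0c890671040de263b0aaf0836030740c180ed4076a01ea816800d1b061882be40bb20c5a07a003fda25dd13c8081583b501e4a118b08c582adc1bee14b5079f0355c1ae60d1b073183e5e25dd12eb07a703b501fcc118b08c582de01bee13d80730838601a040bac05a2040de22ff091107f702d000c180df706fb81ea814c60caf054982be40bb20bba05f78465a25bd069206b781ea80ec40b78055b818b00f540bff040a02c640f6c05d90430030ce19fb0bb20406030c419040e61079f0205015260c1804fe01e280f9e0c4c067b043e221d10f0402ec8346c17fe13d80a5a82ffc195e0d9f060c02dd417740b7505d505dbe20230abb0628017640f6c0d0206b981ed80bb20bba03e7828a413aa0cbc05b284c12174d0a76062802be413aa0e1806ab82c6415f20b7503c5017641452)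
    (nat_lit 0x1062118b08c58462c2316118b08c58462c2316118b08c58462c2316118b08c58462c10f1083108c58462c2316118b08c58462c2316118b08c58462c2316118b08c58462c10a387adc5148462c2316118b08c58462c2316118b08c58462c2316118b08c58462c0f4c8851c4e1c28a42316118b08c58462c2316118b08c58462c2316118b08c58462c0c9004628461e207f0c96118b08c58462c2316118b08c58462c2316118b08c58462c09ef06f004b5a231d1373064b08c58462c2316118b08c58462c2316118b08c58462c0ce2064484c76206f106c055781830462c2316118b08c58462c2316118b08c58462c0bef050e04b7a1ff10c4f05800222c0c182316118b08c58462c2316118b08c58462c0e63068d84bba1f2f0f4e097583f981da8118b118b08c58462c2316118b08c58462c0f40062d04bba1fed102b09e403c941da8118b08c588c58462c2316118b08c58462c0bef05dd04b7a232d0d6f034901d880f540ab705bc01ea8462c2316118b08c58462c0b4405d6045fe206f0fee04888183016800df706fb8298c0f542316118b08c58462c0cf60626043a221f105d9078202ffc1a3614b509ec032bc17fe0c18118b08c58462c086002ec833f61867080c05d90320818620f3e073082a4c102809fc060c08c58462c0b65065e02e9a26090c50053b0275415f20d57070c02be41632078a05ba828a4462c0baa05ba840462ba30c50055d81ed80bb20d730681017640f6c07cf05dd027541452)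
    (nat_lit 4) (nat_lit 291)
    [[nat_lit 2,nat_lit 3,nat_lit 259,nat_lit 515,nat_lit 0x10003,nat_lit 18,nat_lit 0x100012,nat_lit 258,nat_lit 514,
    nat_lit 0x10102,nat_lit 0x10002,nat_lit 0x20002,nat_lit 0x100002,nat_lit 0x100102,nat_lit 0x10000002,nat_lit 4,
    nat_lit 19,nat_lit 274,nat_lit 0x10012,nat_lit 0x100112,nat_lit 770,nat_lit 0x10202,nat_lit 0x20102,
    nat_lit 0x1002,nat_lit 0x30002,nat_lit 0x110002,nat_lit 0x10010002,nat_lit 17,nat_lit 33,nat_lit 273,nat_lit 529,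
    nat_lit 0x10111,nat_lit 0x10011,nat_lit 0x20011,nat_lit 0x100011,nat_lit 0x100111,nat_lit 0x100211,
    nat_lit 0x110111,nat_lit 0x110011,nat_lit 0x10100011,nat_lit 0x10000011,nat_lit 257,nat_lit 513,nat_lit 769,
    nat_lit 0x10201,nat_lit 0x1101,nat_lit 0x10101,nat_lit 0x20101,nat_lit 0x100101,nat_lit 0x10000101,nat_lit 0x1001,
    nat_lit 0x10001,nat_lit 0x20001,nat_lit 0x30001,nat_lit 0x40001,nat_lit 0x110001,nat_lit 0x10010001,
    nat_lit 0x100001,nat_lit 0x100201,nat_lit 0x110101,nat_lit 0x10100001,nat_lit 0x120001,nat_lit 0x1010001,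
    nat_lit 0x10000001,nat_lit 0x10010101,nat_lit 0x10020001],[nat_lit 32,nat_lit 288,nat_lit 0x100020,
    nat_lit 0x10000020,nat_lit 272,nat_lit 528,nat_lit 0x100210,nat_lit 0x10110,nat_lit 0x10210,nat_lit 0x100110,
    nat_lit 0x10100110,nat_lit 0x10000110,nat_lit 0x10010,nat_lit 0x20010,nat_lit 0x110010,nat_lit 0x10010010,
    nat_lit 0x110110,nat_lit 0x20110,nat_lit 0x100010,nat_lit 0x200110,nat_lit 0x10110010,nat_lit 0x200010,
    nat_lit 0x10100010,nat_lit 0x1000010,nat_lit 0x10000010],[nat_lit 512,nat_lit 768,nat_lit 0x400,nat_lit 0x10300,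
    nat_lit 0x1200,nat_lit 0x10200,nat_lit 0x20200,nat_lit 0x30200,nat_lit 0x100200,nat_lit 0x10000200,nat_lit 0x1100,
    nat_lit 0x11100,nat_lit 0x10100,nat_lit 0x20100,nat_lit 0x30100,nat_lit 0x110100,nat_lit 0x10010100,
    nat_lit 0x40100,nat_lit 0x100100,nat_lit 0x10100100,nat_lit 0x10000100],[nat_lit 0x11000,nat_lit 0x1001000,
    nat_lit 0x10001000],[nat_lit 0x20000,nat_lit 0x30000,nat_lit 0x40000,nat_lit 0x50000,nat_lit 0x120000,
    nat_lit 0x10020000,nat_lit 0x110000,nat_lit 0x10110000,nat_lit 0x10010000],[nat_lit 0x200000,nat_lit 0x10200000,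
    nat_lit 0x10100000],[nat_lit 0x11000000],[nat_lit 0x20000000]]
    [.c (nat_lit 1) (nat_lit 2),.c (nat_lit 0) (nat_lit 0x6c09),.c (nat_lit 8) (nat_lit 0x30704),
    .r (nat_lit 78) (nat_lit 0) [nat_lit 0x60507042,nat_lit 0x30002002,nat_lit 0x70426051,nat_lit 0x80307042,
    nat_lit 0x62507041,nat_lit 0x270406051],.c (nat_lit 8) (nat_lit 0x3000704),.c (nat_lit 0) (nat_lit 0x2403),
    .r (nat_lit 741) (nat_lit 1) [nat_lit 0x35021,nat_lit 0x535350402,nat_lit 0x200026031,nat_lit 0x50003d041,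
    nat_lit 0x40024e052,nat_lit 0x202024031],.c (nat_lit 0) (nat_lit 0x46809),.c (nat_lit 8) (nat_lit 0x30302),
    .c (nat_lit 8) (nat_lit 0x3030504),.c (nat_lit 0) (nat_lit 0x4006809),.c (nat_lit 8) (nat_lit 0x3000302),
    .c (nat_lit 0) (nat_lit 0x20000403),.c (nat_lit 0) (nat_lit 0x40020605),.c (nat_lit 8) (nat_lit 770),
    .c (nat_lit 8) (nat_lit 0x502),.c (nat_lit 0) (nat_lit 0x2403),.c (nat_lit 0) (nat_lit 0x24605),
    .c (nat_lit 0) (nat_lit 0x2004605),.r (nat_lit 78) (nat_lit 0) [nat_lit 0x460244052,nat_lit 0x30002002,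
    nat_lit 0x570335041,nat_lit 0x240222031,nat_lit 0x462244051,nat_lit 0x370355041],
    .r (nat_lit 78) (nat_lit 0) [nat_lit 0x60705042,nat_lit 0x30002002,nat_lit 0x70624051,nat_lit 0x40303021,
    nat_lit 0x62705041,nat_lit 0x270604051],.r (nat_lit 78) (nat_lit 0) [nat_lit 0x20303021,nat_lit 0x30002002,
    nat_lit 0x50424051,nat_lit 0x60305042,nat_lit 0x42505041,nat_lit 0x250404051],
    .r (nat_lit 78) (nat_lit 0) [nat_lit 0x20305042,nat_lit 0x30002002,nat_lit 0x30224051,nat_lit 0x20003021,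
    nat_lit 0x22305041,nat_lit 0x230204051],.r (nat_lit 741) (nat_lit 1) [nat_lit 0x202000031,nat_lit 0x535350402,
    nat_lit 0x3002021,nat_lit 0x4025051,nat_lit 0x5206042,nat_lit 33],.r (nat_lit 78) (nat_lit 0) [nat_lit 0x3021,
    nat_lit 0x30002002,nat_lit 0x24051,nat_lit 0x20205042,nat_lit 0x2005041,nat_lit 0x200004051],
    .c (nat_lit 0) (nat_lit 0x42000605),.r (nat_lit 78) (nat_lit 0) [nat_lit 0x20003021,nat_lit 0x30002002,
    nat_lit 0x50024051,nat_lit 0x60205042,nat_lit 0x42005041,nat_lit 0x250004051],.c (nat_lit 0) (nat_lit 0x2403),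
    .r (nat_lit 0x891) (nat_lit 2) [nat_lit 0x535340452,nat_lit 0x50021,nat_lit 0x20001,nat_lit 0x282052,
    nat_lit 0x2000001,nat_lit 0x20093042],.c (nat_lit 0) (nat_lit 0x24605),.c (nat_lit 0) (nat_lit 0x22203),
    .c (nat_lit 0) (nat_lit 0x2024405),.c (nat_lit 0) (nat_lit 0x2004605),.c (nat_lit 0) (nat_lit 0x2002203),
    .r (nat_lit 0x891) (nat_lit 2) [nat_lit 0x35300452,nat_lit 0x300030021,nat_lit 0x20001,nat_lit 0x400242052,
    nat_lit 0x2000001,nat_lit 0x520053042],.r (nat_lit 741) (nat_lit 1) [nat_lit 0x357042,nat_lit 0x535350402,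
    nat_lit 0x40024a052,nat_lit 0x50033b041,nat_lit 0x200226031,nat_lit 0x404246052],
    .r (nat_lit 78) (nat_lit 0) [nat_lit 0x460442052,nat_lit 0x30002002,nat_lit 0x570533041,nat_lit 0x480642052,
    nat_lit 0x462442051,nat_lit 0x370553041],.r (nat_lit 78) (nat_lit 0) [nat_lit 0x480242052,nat_lit 0x30002002,
    nat_lit 0x590333041,nat_lit 0x4a0442052,nat_lit 0x482242051,nat_lit 0x390353041],
    .r (nat_lit 741) (nat_lit 1) [nat_lit 0x30057042,nat_lit 0x535350402,nat_lit 0x42004a052,nat_lit 0x53003b041,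
    nat_lit 0x42024c052,nat_lit 0x424046052],.r (nat_lit 78) (nat_lit 0) [nat_lit 0x460042052,nat_lit 0x30002002,
    nat_lit 0x570033041,nat_lit 0x480242052,nat_lit 0x462042051,nat_lit 0x370053041],.c (nat_lit 0) (nat_lit 0x2203),
    .c (nat_lit 1) (nat_lit 0x30204),.c (nat_lit 0) (nat_lit 0x86409),.c (nat_lit 8) (nat_lit 0x70304),
    .c (nat_lit 8) (nat_lit 0x3050304),.r (nat_lit 741) (nat_lit 1) [nat_lit 0x404203052,nat_lit 0x535350402,
    nat_lit 0x5306042,nat_lit 0x4227051,nat_lit 0x3004021,nat_lit 0x302042],.c (nat_lit 0) (nat_lit 0x4046409),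
    .c (nat_lit 8) (nat_lit 0x5030304),.c (nat_lit 0) (nat_lit 0x40020605),.c (nat_lit 8) (nat_lit 0x30304),
    .r (nat_lit 78) (nat_lit 0) [nat_lit 0x65003042,nat_lit 0x30002002,nat_lit 0x74022051,nat_lit 0x85203042,
    nat_lit 0x63003041,nat_lit 0x274002051],.c (nat_lit 1) (nat_lit 0x3000204),.c (nat_lit 0) (nat_lit 0x8006409),
    .c (nat_lit 8) (nat_lit 0x7000304),.r (nat_lit 78) (nat_lit 0) [nat_lit 0x30003042,nat_lit 0x30002002,
    nat_lit 0x20022051,nat_lit 0x203042,nat_lit 0x32003041,nat_lit 0x220002051],.c (nat_lit 0) (nat_lit 0x42000605),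
    .c (nat_lit 8) (nat_lit 0x3000304),.c (nat_lit 0) (nat_lit 0x20000403),.c (nat_lit 0) (nat_lit 0x20020203),
    .c (nat_lit 0) (nat_lit 0x42020405),.c (nat_lit 0) (nat_lit 0x20000203),.c (nat_lit 0) (nat_lit 0x22000203),
    .c (nat_lit 0) (nat_lit 0x40424254),.c (nat_lit 0) (nat_lit 0x6409),
    .r (nat_lit 78) (nat_lit 0) [nat_lit 0x40303042,nat_lit 0x30002002,nat_lit 0x50222051,nat_lit 0x60003042,
    nat_lit 0x42303041,nat_lit 0x250202051],.r (nat_lit 78) (nat_lit 0) [nat_lit 0x20003042,nat_lit 0x30002002,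
    nat_lit 0x30022051,nat_lit 0x40203042,nat_lit 0x22003041,nat_lit 0x230002051],.c (nat_lit 2) (nat_lit 2),
    .r (nat_lit 0x891) (nat_lit 2) [nat_lit 0x535043452,nat_lit 0x392042,nat_lit 0x20001,nat_lit 0x240031,
    nat_lit 0x2000001,nat_lit 0x20390042],.r (nat_lit 741) (nat_lit 1) [nat_lit 0x200055022,nat_lit 0x535350402,
    nat_lit 0x200048032,nat_lit 0x300039021,nat_lit 0x20024a032,nat_lit 0x204044032],
    .r (nat_lit 741) (nat_lit 1) [nat_lit 0x200053021,nat_lit 0x535350402,nat_lit 0x44031,nat_lit 0x79041,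
    nat_lit 0x28a052,nat_lit 0x2042031],.c (nat_lit 0) (nat_lit 0x42009),.c (nat_lit 0) (nat_lit 0x42005),
    .r (nat_lit 741) (nat_lit 1) [nat_lit 0x333021,nat_lit 0x535350402,nat_lit 0x200224031,nat_lit 0x500539041,
    nat_lit 0x40064a052,nat_lit 0x202222031],.c (nat_lit 0) (nat_lit 0x2022005),.c (nat_lit 0) (nat_lit 0x4086009),
    .r (nat_lit 0x891) (nat_lit 2) [nat_lit 0x35003452,nat_lit 0x500352042,nat_lit 0x20001,nat_lit 0x200220031,
    nat_lit 0x2000001,nat_lit 0x520350042],.r (nat_lit 78) (nat_lit 0) [nat_lit 0x460240052,nat_lit 0x30002002,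
    nat_lit 0x570330041,nat_lit 0x240220031,nat_lit 0x462240051,nat_lit 0x370350041],.c (nat_lit 0) (nat_lit 0x46009),
    .c (nat_lit 0) (nat_lit 0x4002009),.c (nat_lit 0) (nat_lit 0x4002005),
    .r (nat_lit 0x891) (nat_lit 2) [nat_lit 0x5303452,nat_lit 0x530052042,nat_lit 0x20001,nat_lit 0x420240052,
    nat_lit 0x2000001,nat_lit 0x300030021],.c (nat_lit 0) (nat_lit 0x4006009),
    .r (nat_lit 741) (nat_lit 1) [nat_lit 0x30355042,nat_lit 0x535350402,nat_lit 0x420248052,nat_lit 0x530339041,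
    nat_lit 0x42044a052,nat_lit 0x424244052],.c (nat_lit 0) (nat_lit 0x8046009),.c (nat_lit 2) (nat_lit 0x30002002),
    .r (nat_lit 748) (nat_lit 3) [nat_lit 0x500030021,nat_lit 0x20001,nat_lit 0x800242052,nat_lit 0xd35593442,
    nat_lit 0x200000001,nat_lit 0x820240052],.r (nat_lit 78) (nat_lit 0) [nat_lit 0x240020031,nat_lit 0x30002002,
    nat_lit 0x590030041,nat_lit 0x4a0240052,nat_lit 0x482040051,nat_lit 0x390050041],
    .r (nat_lit 741) (nat_lit 1) [nat_lit 0x35022,nat_lit 0x535350402,nat_lit 0x400028032,nat_lit 0x500009021,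
    nat_lit 0x40022a032,nat_lit 0x404024032],.r (nat_lit 741) (nat_lit 1) [nat_lit 0x33021,nat_lit 0x535350402,
    nat_lit 0x200024031,nat_lit 0x500039041,nat_lit 0x40024a052,nat_lit 0x202022031],
    .r (nat_lit 78) (nat_lit 0) [nat_lit 0x545303452,nat_lit 0x30002002,nat_lit 0x454222541,nat_lit 0x565003452,
    nat_lit 0x543303451,nat_lit 0x654202541],.c (nat_lit 0) (nat_lit 0x2005),.c (nat_lit 3) (nat_lit 2),
    .c (nat_lit 0) (nat_lit 0xc6009),.c (nat_lit 8) (nat_lit 0x50002),.c (nat_lit 8) (nat_lit 0x3070004),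
    .r (nat_lit 741) (nat_lit 1) [nat_lit 0x202203031,nat_lit 0x535350402,nat_lit 0x3304021,nat_lit 0x4429051,
    nat_lit 0x530a042,nat_lit 0x302021],.c (nat_lit 0) (nat_lit 0x4086009),.c (nat_lit 8) (nat_lit 0x3030002),
    .r (nat_lit 78) (nat_lit 0) [nat_lit 0x300021,nat_lit 0x30002002,nat_lit 0x420051,nat_lit 0x20300042,
    nat_lit 0x2500041,nat_lit 0x200400051],.c (nat_lit 0) (nat_lit 0x20040003),.c (nat_lit 8) (nat_lit 0x30002),
    .r (nat_lit 78) (nat_lit 0) [nat_lit 0x65300042,nat_lit 0x30002002,nat_lit 0x74220051,nat_lit 0x43000021,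
    nat_lit 0x63300041,nat_lit 0x274200051],.r (nat_lit 741) (nat_lit 1) [nat_lit 0x424205052,nat_lit 0x535350402,
    nat_lit 0x35308042,nat_lit 0x24229051,nat_lit 0x3500a042,nat_lit 0x30304042],.c (nat_lit 1) (nat_lit 0x3030404),
    .c (nat_lit 0) (nat_lit 0x8046009),.c (nat_lit 8) (nat_lit 0x7030004),.c (nat_lit 0) (nat_lit 0x42060005),
    .c (nat_lit 8) (nat_lit 0x3030004),.r (nat_lit 78) (nat_lit 0) [nat_lit 0x30300042,nat_lit 0x30002002,
    nat_lit 0x20220051,nat_lit 33,nat_lit 0x32300041,nat_lit 0x220200051],.c (nat_lit 0) (nat_lit 0x20040003),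
    .c (nat_lit 0) (nat_lit 0x20020003),.c (nat_lit 0) (nat_lit 0x46009),
    .r (nat_lit 78) (nat_lit 0) [nat_lit 0x23000021,nat_lit 0x30002002,nat_lit 0x54020051,nat_lit 0x65200042,
    nat_lit 0x43000041,nat_lit 0x254000051],.c (nat_lit 0) (nat_lit 0x84648498),
    .r (nat_lit 741) (nat_lit 1) [nat_lit 0x202003031,nat_lit 0x535350402,nat_lit 0x3004021,nat_lit 0x4029051,
    nat_lit 0x520a042,nat_lit 0x2021],.c (nat_lit 5) (nat_lit 2),.c (nat_lit 0) (nat_lit 0xc006009),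
    .c (nat_lit 8) (nat_lit 0x5000002),.r (nat_lit 78) (nat_lit 0) [nat_lit 0x30000021,nat_lit 0x30002002,
    nat_lit 0x40020051,nat_lit 0x30200042,nat_lit 0x52000041,nat_lit 0x240000051],.c (nat_lit 0) (nat_lit 0x24000003),
    .c (nat_lit 8) (nat_lit 0x3000002),.c (nat_lit 0) (nat_lit 0x24000003),.c (nat_lit 0) (nat_lit 0x22000003),
    .c (nat_lit 0) (nat_lit 0x4006009),.c (nat_lit 6) (nat_lit 2),.r (nat_lit 741) (nat_lit 1) [nat_lit 0x300003021,
    nat_lit 0x535350402,nat_lit 0x400004031,nat_lit 0x900029041,nat_lit 0x80020a052,nat_lit 0x402002031],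
    .c (nat_lit 0) (nat_lit 0x20000005),.c (nat_lit 0) (nat_lit 0x42424252),.c (nat_lit 8) (nat_lit 2)]]

/-- nodes -/
noncomputable def rD8k_3_3 : List RJ :=
  [.l (nat_lit 10) (nat_lit 240) (nat_lit 4) (nat_lit 0x5700000057000000600000006000000067000000670000006c0000006c00000068000000680000006c0000006c00000070000000700000006100000051) (nat_lit 0x19000000190000001000000010000000090000000900000004000000040000000800000008000000040000000400000000000000000000001f0000000f)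
    (nat_lit 0xf83e16c47128521344514c4f14c5f15c5b0e0480f83e154471184e13c5313c4b14c5f15c5b0e04811c471405015c49180641305c1605c18060104511545b1405015c571905c190741105c150520f43f1385215c491785e11c6317c571c4571e47f0d0641184a15c571705e18c6314c4f24c631c4771585c14c451706418c631e06a19064160741a03c1445313c4d1906018c4721878190641f098108441345312c4f1d05c13c57190640c042230641c85413c8313c531904c14c5f19064180301e0642707e0f47117c5f1705c18c57260741906414868150581242914c531105824c711f0581e08c1a0521b06c1245b16c5b148601dc7f1103c1f8541b0581c8701446115c57150601c47910868270721b0541c07214461120480fc511706414c531c48316c2918461108520e0380f44115834134510f44f12449144510c842)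
    (nat_lit 0xf8f03c0f03c0f03c0f03c0f03c0f03c0f03c0f00f83e3c0f03c0f03c0f03c0f03c0f03c0f03c0f016c55140f03c0f03c0f03c0f03c0f03c0f03c0f011c47140503c0f03c0f03c0f03c0f03c0f03c0f01284615c57178f03c0f03c0f03c0f03c0f03c0f01484e124571785e3c0f03c0f03c0f03c0f03c0f01344f1806411c631e0f03c0f03c0f03c0f03c0f0114531905c18c631a8783c0f03c0f03c0f03c0f014c4f1306417c53190640c0f03c0f03c0f03c0f013c4b1707415c4f19064108303c0f03c0f03c0f014c53160441c4931607c23078148f03c0f03c0f017c5f1705c15c631d098190641a0523c0f03c0f015c57180541e4711a0421c89c1506c1c8f03c0f016c5b180521fc770f0441507e1606c1c0723c0f00e0381043d0d0561444d13c3d1244914451108f0120481443f1905c14c5320c710a45b1846114842)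
    (nat_lit 5) (nat_lit 133)
    [[nat_lit 2,nat_lit 3,nat_lit 258,nat_lit 0x10002,nat_lit 0x100002,nat_lit 0x1000002,nat_lit 0x10000002,
    nat_lit 514,nat_lit 17,nat_lit 273,nat_lit 0x10011,nat_lit 257,nat_lit 513,nat_lit 0x1000101,nat_lit 0x10000101,
    nat_lit 0x1001,nat_lit 0x1002,nat_lit 0x1001001,nat_lit 0x10001001,nat_lit 0x10001,nat_lit 0x10010001,
    nat_lit 0x10101,nat_lit 0x100001,nat_lit 0x110001,nat_lit 0x200001,nat_lit 0x1100001,nat_lit 0x10100001,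
    nat_lit 0x1000001,nat_lit 0x2000001,nat_lit 0x11000001,nat_lit 0x10000001,nat_lit 0x11000101,nat_lit 0x20000001],
    [nat_lit 32,nat_lit 272,nat_lit 0x10010,nat_lit 0x10010010,nat_lit 0x1000010,nat_lit 0x10000010],[nat_lit 512,
    nat_lit 0x1100,nat_lit 0x100100,nat_lit 0x1000100,nat_lit 0x11000100,nat_lit 0x10000100],[nat_lit 0x2000,
    nat_lit 0x3000,nat_lit 0x4000,nat_lit 0x102000,nat_lit 0x10002000,nat_lit 0x11000,nat_lit 0x101000,
    nat_lit 0x1001000,nat_lit 0x10001000,nat_lit 0x20001000],[nat_lit 0x110000,nat_lit 0x10110000,nat_lit 0x1010000,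
    nat_lit 0x10010000,nat_lit 0x20010000],[nat_lit 0x200000,nat_lit 0x1100000,nat_lit 0x11100000,nat_lit 0x10100000,
    nat_lit 0x10200000,nat_lit 0x20100000],[nat_lit 0x2000000,nat_lit 0x12000000,nat_lit 0x11000000,
    nat_lit 0x21000000],[nat_lit 0x20000000,nat_lit 0x30000000]]
    [.c (nat_lit 1) (nat_lit 2),.c (nat_lit 0) (nat_lit 0x80001803),.c (nat_lit 0) (nat_lit 0x80001803),
    .r (nat_lit 0x9c0) (nat_lit 4) [nat_lit 0x55ad6b628e1,nat_lit 0x40000a400a1,nat_lit 0xa5000000001,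
    nat_lit 0x50014048081,nat_lit 0x50280048081],.c (nat_lit 2) (nat_lit 0x4021003),
    .c (nat_lit 0) (nat_lit 0x18c6319843),.c (nat_lit 0) (nat_lit 0x80001003),.c (nat_lit 2) (nat_lit 0x140021402),
    .c (nat_lit 0) (nat_lit 0x11003),.c (nat_lit 2) (nat_lit 0xc0010c02),.c (nat_lit 0) (nat_lit 0x1800018802),
    .c (nat_lit 0) (nat_lit 0x80001803),.r (nat_lit 0x9c0) (nat_lit 4) [nat_lit 0xbbad6b3a8c1,nat_lit 0x4800a28081,
    nat_lit 0xa5000000001,nat_lit 0x40140200a1,nat_lit 0x42800200a1],.c (nat_lit 3) (nat_lit 0x1104210062),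
    .c (nat_lit 0) (nat_lit 0x80001003),.c (nat_lit 0) (nat_lit 0x80200803),.c (nat_lit 2) (nat_lit 0x221003),
    .c (nat_lit 0) (nat_lit 0x18c6018843),.c (nat_lit 2) (nat_lit 0x220803),.c (nat_lit 2) (nat_lit 0x1000020803),
    .r (nat_lit 0x9c0) (nat_lit 4) [nat_lit 0x55ad6b328e1,nat_lit 0x40000a200a1,nat_lit 0xa5000000001,
    nat_lit 0x50014028081,nat_lit 0x50280028081],.c (nat_lit 0) (nat_lit 0x18c0000002),
    .c (nat_lit 0) (nat_lit 0x84000803),.c (nat_lit 3) (nat_lit 0x1104000803),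
    .r (nat_lit 0x9c0) (nat_lit 4) [nat_lit 0xb5896b328e1,nat_lit 0x200a200a1,nat_lit 0xa5000000001,
    nat_lit 0x254028081,nat_lit 0x80028081],.c (nat_lit 0) (nat_lit 0x18c0318843),.c (nat_lit 2) (nat_lit 0x4020803),
    .c (nat_lit 0) (nat_lit 0x18c6319843),.r (nat_lit 0x9c2) (nat_lit 5) [nat_lit 0x5294a519061,nat_lit 0x318c63308c1,
    nat_lit 0x9499292a0a1,nat_lit 0xe7000000001,nat_lit 0x94a4c92a0a1],.c (nat_lit 0) (nat_lit 0x18c6319043),
    .c (nat_lit 1) (nat_lit 0x802),.r (nat_lit 0x9c0) (nat_lit 4) [nat_lit 0x5594a5010c1,nat_lit 0x40108e01481,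
    nat_lit 0xa5000000001,nat_lit 0x5014c5010a1,nat_lit 0x5018a5010a1],.c (nat_lit 0) (nat_lit 0x80000803),
    .c (nat_lit 2) (nat_lit 2),.r (nat_lit 0x9c0) (nat_lit 4) [nat_lit 0xb8ad71028c1,nat_lit 0x2800600081,
    nat_lit 0xa5000000001,nat_lit 0x20144000a1,nat_lit 0x22804000a1],.c (nat_lit 0) (nat_lit 0x2800038004),
    .c (nat_lit 0) (nat_lit 0x1800028002),.c (nat_lit 3) (nat_lit 0x1184200862),.c (nat_lit 0) (nat_lit 0x10005),
    .c (nat_lit 3) (nat_lit 2),.c (nat_lit 0) (nat_lit 0x100600007),.c (nat_lit 0) (nat_lit 0x10c000007),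
    .r (nat_lit 0x9c2) (nat_lit 5) [nat_lit 0x300c6318861,nat_lit 0x97a529320c1,nat_lit 0x5028a5290a1,
    nat_lit 0xe7000000001,nat_lit 0x501545290a1],.c (nat_lit 3) (nat_lit 0x1104210862),
    .c (nat_lit 0) (nat_lit 0x80000007),.c (nat_lit 4) (nat_lit 2),.c (nat_lit 3) (nat_lit 0x100600003),
    .c (nat_lit 7) (nat_lit 0x294a429483),.c (nat_lit 3) (nat_lit 0x104400003),
    .r (nat_lit 0x9c0) (nat_lit 4) [nat_lit 0xb5ac4b028e1,nat_lit 0x10a000a1,nat_lit 0xa5000000001,nat_lit 0x4000081,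
    nat_lit 0x292000081],.r (nat_lit 0x9c0) (nat_lit 4) [nat_lit 0x55acab028e1,nat_lit 0x40008a000a1,
    nat_lit 0xa5000000001,nat_lit 0x5000c000081,nat_lit 0x5028a000081],.c (nat_lit 2) (nat_lit 0x4220003),
    .c (nat_lit 0) (nat_lit 0x18c6218c43),.c (nat_lit 0) (nat_lit 0x80200003),.c (nat_lit 2) (nat_lit 0x220003),
    .r (nat_lit 0x9c0) (nat_lit 4) [nat_lit 0x55956b028e1,nat_lit 0x40100a000a1,nat_lit 0xa5000000001,
    nat_lit 0x50154000081,nat_lit 0x50180000081],.c (nat_lit 3) (nat_lit 0x1104000003),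
    .c (nat_lit 0) (nat_lit 0x11ce739cc7),.c (nat_lit 2) (nat_lit 0x1000020003),
    .r (nat_lit 0x9c0) (nat_lit 4) [nat_lit 0x55ad6b028e1,nat_lit 0x40000a000a1,nat_lit 0xa5000000001,
    nat_lit 0x50014000081,nat_lit 0x50280000081],.c (nat_lit 6) (nat_lit 2),.c (nat_lit 0) (nat_lit 0x18c4318c43),
    .c (nat_lit 0) (nat_lit 0x2944529485),.c (nat_lit 0) (nat_lit 0x84000003),
    .r (nat_lit 0x9c0) (nat_lit 4) [nat_lit 0xb5896b028e1,nat_lit 0x200a000a1,nat_lit 0xa5000000001,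
    nat_lit 0x254000081,nat_lit 0x80000081],.c (nat_lit 2) (nat_lit 0x4020003),.c (nat_lit 7) (nat_lit 2),
    .r (nat_lit 0x9c2) (nat_lit 5) [nat_lit 0x5294a529061,nat_lit 0x318c63608c1,nat_lit 0x9499294a0a1,
    nat_lit 0xe7000000001,nat_lit 0x94a4c94a0a1],.c (nat_lit 0) (nat_lit 0x18c6318c49),
    .c (nat_lit 0) (nat_lit 0x18c6318c45),.c (nat_lit 8) (nat_lit 2),.c (nat_lit 0) (nat_lit 0x80000003)],
    .l (nat_lit 14) (nat_lit 0xf30) (nat_lit 3) (nat_lit 0x748000007ad0000072a0000072a0000066b000007bc0000086e0000072a00000654000006d9000006c90000078b000006ef000006c2000006d8000005e6) (nat_lit 0xc1000001260000014400000144000000b2000002030000014400000000000001950000021a000000e3000001a5000001ac0000017f0000028800000196)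
    (nat_lit 0x157055c181060422c055c18108b017a05ba1320608158054413003cc1bb055c19a466927506801a0092c18605aa0f3060815f062e14943cc19a460414405e613e4527173c45116544f9191c5851f248a9173461919a4604144051019e0527179854b19ac66b191c66b1a1c767122c64b1a0055c149c5271e6053e0f3066b0fc04510f303f010204ec0f8c3cc27508b019e04f927c879819e07bc14405a21b6460818405100f3062624b08b0152c4511ef066b1ca85861ba065422e07e01b086ef0f306d81a0060417985cf19e03cc179872a16905101d4067811f0458105859416a85ba19ac4f9168845114406540f3043a1b104a012a03cc0f305c018605e819ac59514403f016906e80f303cc1b1053415305e40fb0654182060819ac58518203f019e07e014d04a0157069c103047c10305140f304c8191c6471b643cc1d408b81b106c41aa055c156060c162052018b85441d9c8a914404ec11606ef17903cc183047c186057018105e015f05601a1c7c9184040811f06c215304a8156040c1600618188052c0f303cc192c61918983cc16506d819505c0148051414b05e012304d814944c0122c5cd0f303e310583cc0fb03cc162040c1880604109048c)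
    (nat_lit 0x1570f303cc0f303cc0f303cc0f303cc0f303cc0f303cc0f303cc0f30157055c3cc0f303cc0f303cc0f303cc0f303cc0f303cc0f303cc0f3018106691440f303cc0f303cc0f303cc0f303cc0f303cc0f303cc0f30181066917985103cc0f303cc0f303cc0f303cc0f303cc0f303cc0f3022c09d413e46781e60f303cc0f303cc0f303cc0f303cc0f303cc0f301570680149c52714f87983cc0f303cc0f303cc0f303cc0f303cc0f301810680173c5e60f306781ca8f303cc0f303cc0f303cc0f303cc0f3022c092c114454b19ac7bc161872a3cc0f303cc0f303cc0f303cc0f3017a0618165466b0fc05101ba05a40f30f303cc0f303cc0f303cc0f3016e85aa13e466b11445a2195051010e83cc3cc0f303cc0f303cc0f3013203cc191c6470f306d922e07501b106c41570f303cc0f303cc0f301820608161466b0fc06081f8067812805341a7055c3cc0f303cc0f30158057c1f2468710206101b0847c12a054c10305581860f303cc0f30151062e22a476713b05101bbc4580f305e411f060c15c06183cc0f301300525173448b0f8c3cc0f304160f303ec103058818106201230f300f303cc186464b0f306261b6059417006541450520178052c136048c)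
    (nat_lit 6) (nat_lit 101)
    [[nat_lit 2,nat_lit 3,nat_lit 258,nat_lit 0x1002,nat_lit 0x10002,nat_lit 0x100002,nat_lit 0x10000002,nat_lit 17,
    nat_lit 0x100011,nat_lit 257,nat_lit 513,nat_lit 0x100101,nat_lit 0x10000101,nat_lit 0x1001,nat_lit 0x1011,
    nat_lit 0x1101,nat_lit 0x2001,nat_lit 0x101001,nat_lit 0x10001001,nat_lit 0x10001,nat_lit 0x10011,
    nat_lit 0x110001,nat_lit 0x10010001,nat_lit 0x1010001,nat_lit 0x100001,nat_lit 0x1100001,nat_lit 0x10100001,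
    nat_lit 0x1000001,nat_lit 0x11000001,nat_lit 0x10000001,nat_lit 0x20000001],[nat_lit 32,nat_lit 272,nat_lit 288,
    nat_lit 0x1110,nat_lit 0x100110,nat_lit 0x10000110,nat_lit 0x1010,nat_lit 0x2010,nat_lit 0x101010,nat_lit 0x10010,
    nat_lit 0x20010,nat_lit 0x100010,nat_lit 0x10000010],[nat_lit 512,nat_lit 0x1100,nat_lit 0x100100,
    nat_lit 0x101100,nat_lit 0x1000100,nat_lit 0x10000100,nat_lit 0x10001100],[nat_lit 0x2000,nat_lit 0x3000,
    nat_lit 0x102000,nat_lit 0x11000,nat_lit 0x101000,nat_lit 0x1001000,nat_lit 0x10001000],[nat_lit 0x20000,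
    nat_lit 0x110000,nat_lit 0x1110000,nat_lit 0x1010000],[nat_lit 0x1100000],[nat_lit 0x2000000,nat_lit 0x11000000],
    [nat_lit 0x20000000]]
    [.c (nat_lit 1) (nat_lit 2),.c (nat_lit 0) (nat_lit 0x1071c30c3187),.c (nat_lit 0) (nat_lit 0x20d345142313),
    .c (nat_lit 0) (nat_lit 0x107649249613),.c (nat_lit 2) (nat_lit 0x100302000007),
    .c (nat_lit 0) (nat_lit 0x1071c30c3187),.c (nat_lit 0) (nat_lit 0x20d345085313),
    .c (nat_lit 0) (nat_lit 0x80180000007),.r (nat_lit 0xdb2) (nat_lit 6) [nat_lit 0x3007080000183,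
    nat_lit 0x2006002000003],.c (nat_lit 0) (nat_lit 0x80180002007),.c (nat_lit 0) (nat_lit 0x1071c30ca193),
    .c (nat_lit 2) (nat_lit 0x64820801c6),.c (nat_lit 0) (nat_lit 0x1071c3104193),
    .c (nat_lit 0) (nat_lit 0x1c30c3187),.c (nat_lit 0) (nat_lit 0x86185145313),.c (nat_lit 0) (nat_lit 0x1c30c0187),
    .c (nat_lit 0) (nat_lit 0x1467cb2cb793),.c (nat_lit 0) (nat_lit 0x1c30c3187),.c (nat_lit 0) (nat_lit 0x1c3003187),
    .c (nat_lit 0) (nat_lit 0x1071c40c3193),.c (nat_lit 0) (nat_lit 0xc01c3000006),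
    .c (nat_lit 0) (nat_lit 0x1461850821d2),.c (nat_lit 0) (nat_lit 0x30c0006),.c (nat_lit 0) (nat_lit 0x80003000006),
    .c (nat_lit 0) (nat_lit 0x1071c30c3187),.c (nat_lit 0) (nat_lit 0xcc304104352),
    .c (nat_lit 2) (nat_lit 0x64820021c6),.c (nat_lit 0) (nat_lit 0x8d345145313),
    .c (nat_lit 2) (nat_lit 0x80300080007),.c (nat_lit 0) (nat_lit 0x80180080007),
    .c (nat_lit 0) (nat_lit 0x1071c3283193),.c (nat_lit 2) (nat_lit 2),.c (nat_lit 0) (nat_lit 0x80180002007),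
    .c (nat_lit 0) (nat_lit 0x14dc4514b312),.c (nat_lit 0) (nat_lit 0xcc3030c4193),
    .r (nat_lit 162) (nat_lit 7) [nat_lit 0x100100003,nat_lit 0x31d90c3246486,nat_lit 0x31c00c32461c6,
    nat_lit 0x4140003,nat_lit 0x61c00c30061c6,nat_lit 0x2198082207186],.c (nat_lit 0) (nat_lit 0xc7643249192),
    .c (nat_lit 0) (nat_lit 0x2100000003),.c (nat_lit 0) (nat_lit 0xc60030c3187),
    .c (nat_lit 2) (nat_lit 0x803020821c6),.c (nat_lit 0) (nat_lit 0xc76490c3192),.c (nat_lit 0) (nat_lit 0x5000006),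
    .c (nat_lit 2) (nat_lit 0x866020821c6),.c (nat_lit 0) (nat_lit 0x80180080007),.c (nat_lit 3) (nat_lit 2),
    .c (nat_lit 1) (nat_lit 0x107000003006),.c (nat_lit 0) (nat_lit 0x14634514030d),
    .c (nat_lit 0) (nat_lit 0x1c30c0187),.c (nat_lit 0) (nat_lit 0xc71c30c4193),.c (nat_lit 0) (nat_lit 0x82007),
    .c (nat_lit 0) (nat_lit 0x146345082313),.c (nat_lit 4) (nat_lit 2),.c (nat_lit 0) (nat_lit 0x146345145307),
    .c (nat_lit 0) (nat_lit 0x14634514530d),.c (nat_lit 0) (nat_lit 0x146342145313),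
    .c (nat_lit 0) (nat_lit 0x14634514530d),.c (nat_lit 0) (nat_lit 0xc01c30c3187),
    .c (nat_lit 1) (nat_lit 0x1070000c0006),.c (nat_lit 5) (nat_lit 2),.r (nat_lit 0xdb2) (nat_lit 6) [nat_lit 129,
    nat_lit 0x2006002000003],.c (nat_lit 1) (nat_lit 0x871c00c3187),.c (nat_lit 0) (nat_lit 0x80003000006),
    .c (nat_lit 2) (nat_lit 0x864820821c6),.c (nat_lit 7) (nat_lit 2),.c (nat_lit 0) (nat_lit 0xc71c3103193),
    .c (nat_lit 8) (nat_lit 2)]]

/-- nodes -/
noncomputable def rD8k_3_4 : List RJ :=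
  [.l (nat_lit 13) (nat_lit 0x780) (nat_lit 5) (nat_lit 0x33900000373000003b1000003b1000002ed000003b900000400000004000000049a0000049a0000042b0000034d000003aa000003aa000002ef000003a9) (nat_lit 0x12700000161000000e9000000e9000000e1000001ad0000009a0000009a00000000000000000000014d0000006f000000f0000000f0000000f1000001ab)
    (nat_lit 0x109076049425c12c05f852a29f2998c543c434812f898c49018012b08484f028a0a006e05ce2d9235893446838c14189e44ec1c814509705ac2be168085887a4691948e8c4dc24a1608acc58020613c09285902d6168081062e3431d8868c4c03421608b0459c2060dc05f84082160f005008c22531768bb434027e0fe88044041420a009605a02d016c0780a5a31f249924c4d834a1648b1459020e16c8a7c68646918f894c51836620007c856e2b71880c4061e2551738a5462e43d296918469428c20010007d63910d50c206663891268c543463a32498bb48001f224d12d86aa42b13b09c876645523594cc7623292498bb4800400165126872642b0ef07786563cd1c60d2068424a1a509f87222b721590ac95458c12e8bd428044c11a07884c026e13606807d62b71c98d543e84aa12e897448419613c898c5822b316288046103100ef09c84ba2f51630b185861ff141897c5822c116487f43543100ef09d84ba25d15f0b1858e1ff0e4060040c20610705087122551e6915432c44c0ff87fc3d014013b092059c2c0164080866630f1958ecc4841401638b0c5701e8)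
    (nat_lit 0x1091e00f007803c01e00f007803c01e00f007803c01e00f007800ec0848f007803c01e00f007803c01e00f007803c01e00f0078012509e05ac7803c01e00f007803c01e00f007803c01e00f0078012e0a2857c2d63c01e00f007803c01e00f007803c01e00f0078012c05005a02d00f01e00f007803c01e00f007803c01e00f007800bf06e042c2040a00780f007803c01e00f007803c01e00f0078014a8b9c87a3172268f545187803c01e00f007803c01e00f0078014f8b648d23431298c7c6cc28c3c01e00f007803c01e00f0078029990b46523b1176924c80040024d1e00f007803c01e00f0078018a89347461a317691543e440025b1268f007803c01e00f007800f108d04dc2600d009b056e3eb1aa8e4c9547803c01e00f007801a40e3049434213f0d2856e3911f690acb184aa3c01e00f0078012f8a0c5822c10fe8b246201aa13b07784ba25d1631e00f0078013189e45662c11008b1462030813907785ea25d1630b18f0078012409d85802ce1010b2061e3331d98cac2802421618b1c3d07800c0072040c2060a108384aa3891d48f345001960ff87fc2801e8)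
    (nat_lit 5) (nat_lit 139)
    [[nat_lit 2,nat_lit 3,nat_lit 259,nat_lit 18,nat_lit 258,nat_lit 0x100102,nat_lit 0x10000102,nat_lit 0x10002,
    nat_lit 0x100002,nat_lit 0x10100002,nat_lit 0x1000002,nat_lit 0x10000002,nat_lit 17,nat_lit 273,nat_lit 0x10011,
    nat_lit 0x100011,nat_lit 0x10000011,nat_lit 257,nat_lit 514,nat_lit 0x100101,nat_lit 0x200101,nat_lit 0x10100101,
    nat_lit 0x1000101,nat_lit 0x10000101,nat_lit 0x20000101,nat_lit 0x1001001,nat_lit 0x10001001,nat_lit 0x10001,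
    nat_lit 0x10010001,nat_lit 0x100001,nat_lit 0x200001,nat_lit 0x10200001,nat_lit 0x1100001,nat_lit 0x10100001,
    nat_lit 0x20100001,nat_lit 0x1000001,nat_lit 0x11000001,nat_lit 0x10000001,nat_lit 0x20000001],[nat_lit 32,
    nat_lit 0x1020,nat_lit 272,nat_lit 528,nat_lit 0x100110,nat_lit 0x1000110,nat_lit 0x10000110,nat_lit 0x1010,
    nat_lit 0x11010,nat_lit 0x1001010,nat_lit 0x10001010,nat_lit 0x10010,nat_lit 0x10110,nat_lit 0x20010,
    nat_lit 0x110010,nat_lit 0x10010010,nat_lit 0x100010,nat_lit 0x200010,nat_lit 0x10100010,nat_lit 0x1000010,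
    nat_lit 0x10000010,nat_lit 0x20000010],[nat_lit 0x10100,nat_lit 0x100100,nat_lit 0x200100,nat_lit 0x1100100,
    nat_lit 0x10100100,nat_lit 0x11100100,nat_lit 0x1000100,nat_lit 0x10000100,nat_lit 0x11000100],[nat_lit 0x11000,
    nat_lit 0x1101000,nat_lit 0x10101000,nat_lit 0x1001000],[nat_lit 0x20000,nat_lit 0x10010000,nat_lit 0x10110000],
    [nat_lit 0x200000,nat_lit 0x300000,nat_lit 0x10300000,nat_lit 0x1200000,nat_lit 0x10200000,nat_lit 0x20300000,
    nat_lit 0x20200000,nat_lit 0x1100000,nat_lit 0x11100000,nat_lit 0x10100000,nat_lit 0x20100000,nat_lit 0x30100000],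
    [nat_lit 0x2000000,nat_lit 0x11000000,nat_lit 0x21000000],[nat_lit 0x20000000,nat_lit 0x30000000]]
    [.c (nat_lit 1) (nat_lit 2),.c (nat_lit 0) (nat_lit 0x39ce73c8c9),.c (nat_lit 0) (nat_lit 0x18c6319843),
    .c (nat_lit 2) (nat_lit 0x201402),.c (nat_lit 0) (nat_lit 0x18c6319843),.c (nat_lit 0) (nat_lit 0x18c6301043),
    .c (nat_lit 0) (nat_lit 0x18c6319043),.r (nat_lit 0xdb7) (nat_lit 3) [nat_lit 0x80000001,nat_lit 0xc0310861],
    .c (nat_lit 0) (nat_lit 0x39ce7128c9),.c (nat_lit 2) (nat_lit 0x419402),.c (nat_lit 0) (nat_lit 0x1000001803),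
    .c (nat_lit 0) (nat_lit 0x39ce73a8c9),.c (nat_lit 0) (nat_lit 0x39ce2388c9),.c (nat_lit 0) (nat_lit 0x18c6018843),
    .c (nat_lit 5) (nat_lit 0x80300c02),.c (nat_lit 2) (nat_lit 0x218c02),.c (nat_lit 2) (nat_lit 0x200c02),
    .c (nat_lit 0) (nat_lit 0x18c6319843),.c (nat_lit 5) (nat_lit 0x280a528083),.c (nat_lit 0) (nat_lit 0x18c6301043),
    .c (nat_lit 0) (nat_lit 0x18c6310843),.c (nat_lit 0) (nat_lit 0x18c6300843),.c (nat_lit 5) (nat_lit 0x86318043),
    .c (nat_lit 0) (nat_lit 0x18c6319043),.c (nat_lit 0) (nat_lit 0x18c6318843),.c (nat_lit 0) (nat_lit 0x79de73bcc8),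
    .c (nat_lit 0) (nat_lit 0x6000002),.c (nat_lit 2) (nat_lit 0xc0400c02),
    .r (nat_lit 0xdb7) (nat_lit 3) [nat_lit 0x80000001,nat_lit 0xc0300861],.c (nat_lit 1) (nat_lit 0x18802),
    .c (nat_lit 0) (nat_lit 0x39ce7508c9),.c (nat_lit 2) (nat_lit 0x428c02),.c (nat_lit 0) (nat_lit 0x1000011003),
    .c (nat_lit 0) (nat_lit 0x39ce7108c9),.c (nat_lit 2) (nat_lit 0x418c02),.c (nat_lit 0) (nat_lit 0x1000001803),
    .c (nat_lit 0) (nat_lit 0x1000001003),.c (nat_lit 1) (nat_lit 0x802),.c (nat_lit 0) (nat_lit 0x39ce7388c9),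
    .c (nat_lit 2) (nat_lit 2),.c (nat_lit 0) (nat_lit 0xa300004),.c (nat_lit 0) (nat_lit 0x18c6218c43),
    .c (nat_lit 5) (nat_lit 0x280a329483),.c (nat_lit 0) (nat_lit 0x294a201485),
    .r (nat_lit 0xdb7) (nat_lit 3) [nat_lit 0x80000001,nat_lit 65],.c (nat_lit 0) (nat_lit 0x294a229485),
    .c (nat_lit 0) (nat_lit 0xa300004),.c (nat_lit 0) (nat_lit 0xc6200002),.c (nat_lit 1) (nat_lit 0x1004201003),
    .c (nat_lit 0) (nat_lit 0x6000002),.r (nat_lit 0xdb7) (nat_lit 3) [nat_lit 0x80000001,nat_lit 0xc4318861],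
    .c (nat_lit 0) (nat_lit 0x20082210a4),.c (nat_lit 3) (nat_lit 0x280a329483),.c (nat_lit 5) (nat_lit 0x80318002),
    .c (nat_lit 5) (nat_lit 0x80300002),.c (nat_lit 0) (nat_lit 0x39ce211cc9),.c (nat_lit 2) (nat_lit 0x228002),
    .c (nat_lit 2) (nat_lit 0x218002),.c (nat_lit 0) (nat_lit 0x2000600005),.c (nat_lit 0) (nat_lit 0x39ce239cc9),
    .c (nat_lit 2) (nat_lit 0x200002),.c (nat_lit 0) (nat_lit 0x388e739cc9),.c (nat_lit 0) (nat_lit 0x18c6330c49),
    .c (nat_lit 0) (nat_lit 0x18c6330c45),.c (nat_lit 5) (nat_lit 0x86300c43),.c (nat_lit 0) (nat_lit 0x18c6310c45),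
    .r (nat_lit 0xdb7) (nat_lit 3) [nat_lit 0x80000001,nat_lit 0x4300041],.r (nat_lit 0xdbe) (nat_lit 8) [nat_lit 65,
    nat_lit 0x80000001],.c (nat_lit 0) (nat_lit 0x18c6318c49),.c (nat_lit 5) (nat_lit 0x86318c43),
    .c (nat_lit 0) (nat_lit 0xce000002),.c (nat_lit 0) (nat_lit 0x79de779cc8),.c (nat_lit 0) (nat_lit 0xa018002),
    .c (nat_lit 2) (nat_lit 0x1004400003),.c (nat_lit 5) (nat_lit 2),.c (nat_lit 2) (nat_lit 0xc0400002),
    .r (nat_lit 0xdb7) (nat_lit 3) [nat_lit 0x80000001,nat_lit 0xc0018861],.c (nat_lit 6) (nat_lit 2),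
    .c (nat_lit 0) (nat_lit 0x39ce791cc9),.c (nat_lit 2) (nat_lit 0x438002),.c (nat_lit 0) (nat_lit 0x1000030003),
    .c (nat_lit 0) (nat_lit 0x39ce751cc9),.r (nat_lit 0xdb7) (nat_lit 3) [nat_lit 0x80000001,nat_lit 0x18c0418861],
    .c (nat_lit 2) (nat_lit 0x428002),.c (nat_lit 0) (nat_lit 0x1000030003),.c (nat_lit 0) (nat_lit 0x1000020003),
    .c (nat_lit 1) (nat_lit 0x19002),.c (nat_lit 0) (nat_lit 0x39ce711cc9),.c (nat_lit 2) (nat_lit 0x418002),
    .c (nat_lit 7) (nat_lit 2),.c (nat_lit 0) (nat_lit 0x1000000007),.c (nat_lit 0) (nat_lit 0x2000000007),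
    .c (nat_lit 8) (nat_lit 2),.c (nat_lit 0) (nat_lit 0x39ce739cc9)],
    .l (nat_lit 14) (nat_lit 0xb40) (nat_lit 3) (nat_lit 0x532000005320000052c0000052c000005410000054100000694000005a0000005c6000005c60000054a0000054a00000544000005440000052000000520) (nat_lit 0x1620000016200000168000001680000015300000153000000f400000000000000ce000000ce0000014a0000014a00000150000001500000017400000174)
    (nat_lit 0x10c03ee0fa03dc0f7c3e508505320d2c46410183400f403c40ef83a60fe84300fd03ca0fac3eb08b05320d442940f403820fa03ca0eb03be0f283dc0ee039a0f643af182052013106700fe84f50f703f40d603b20fd03e80ee03b80f643d91880538134067c0f103e20f883c40ec82570fac3e50f643af0f883fa08bc54111cc28b103c385154840f0ebc3c70fac3df0f643d911083e20f18541134c4730fdc34f1cc45ee0f343af14c853214e05201504541168064019b864d0d344ea158854414801e008b021418806080f1822f14005a013cc4d20fcc3ed097046b10b042c0a5046419f067011cc28b134864d15844a4118445b11d84d919f06460d4434b13404c4134c47313cc66e13e05610b7c47c10a047013e84c40e083400f884f50d3c3850fb44ea11f045b10184000e2059713bc4240f404060f103fa0fdc40f0fcc34d0b7c46111b04060fa03fa0fd04060f283c40f103f417b840f11ac54411c04d90fe85970f103880ec83e20fa03d00f883dc1cc4552097056210a04760fa03880fd03c40fa03d00ef83a6095c3b20ebc3c710b01e0131064610184240f403e20ef83ac0eb03be0ec83580f343af10b052013e867c0fd04ef0fa03b20e383be)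
    (nat_lit 0x10c0b402d00b402d00b402d00b402d00b402d00b402d00b402d00b400fb84302d00b402d00b402d00b402d00b402d00b402d00b402d00b400fa03f40ee0b402d00b402d00b402d00b402d00b402d00b402d00b400f703ca0e683b82d00b402d00b402d00b402d00b402d00b402d00b400f7c3eb0f643d90f88b402d00b402d00b402d00b402d00b402d00b400f943eb0ebc3d90fe83e22d00b402d00b402d00b402d00b402d00b40085022c177860808bc3c61680b402d00b402d00b402d00b402d00b4014c85321480538150454119005a02d00b402d00b402d00b402d00b400d2c35113104d011cc4d319b84f31584b402d00b402d00b402d00b40119029419906640a2c47319344a812905612d00b402d00b402d00b4010183d00fe83c4103c3f70d343f311842df1018b402d00b402d00b400d0038213d43e20e1434f13a83ed116c47c10004062d00b402d00b400f403e80f703e21548731158825c11d84280e203e80f10b402d00b400f103ca0fd03c4103c5ee151046b1364470165c3fa0e203c42d00b400ef83ac0d603b20ebc3cd148042c19484fa13bc3f40ec83e80ef8b400e983be0ec82570f1c3af078042c18e84c410904060f883d00eb03be)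
    (nat_lit 5) (nat_lit 101)
    [[nat_lit 2,nat_lit 3,nat_lit 0x10002,nat_lit 0x100002,nat_lit 0x1000002,nat_lit 0x10000002,nat_lit 17,
    nat_lit 0x10011,nat_lit 0x1000011,nat_lit 257,nat_lit 0x10101,nat_lit 0x100101,nat_lit 0x10000101,
    nat_lit 0x101001,nat_lit 0x10001001,nat_lit 0x10001,nat_lit 0x110001,nat_lit 0x10010001,nat_lit 0x100001,
    nat_lit 0x1100001,nat_lit 0x1000001,nat_lit 0x2000001,nat_lit 0x11000001,nat_lit 0x10000001],[nat_lit 32,
    nat_lit 272,nat_lit 288,nat_lit 0x10000110,nat_lit 0x1010,nat_lit 0x10001010,nat_lit 0x10010,nat_lit 0x1000010,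
    nat_lit 0x10000010],[nat_lit 512,nat_lit 0x10000200,nat_lit 0x1100,nat_lit 0x10001100,nat_lit 0x101100,
    nat_lit 0x10100,nat_lit 0x110100,nat_lit 0x10010100,nat_lit 0x100100,nat_lit 0x10100100,nat_lit 0x1000100,
    nat_lit 0x1100100,nat_lit 0x11000100,nat_lit 0x10000100],[nat_lit 0x2000,nat_lit 0x10011000,nat_lit 0x101000,
    nat_lit 0x10101000,nat_lit 0x1101000,nat_lit 0x10001000,nat_lit 0x20001000],[nat_lit 0x110000,nat_lit 0x1110000,
    nat_lit 0x10010000,nat_lit 0x10020000,nat_lit 0x11010000],[nat_lit 0x200000,nat_lit 0x1100000,nat_lit 0x10100000],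
    [nat_lit 0x2000000,nat_lit 0x3000000,nat_lit 0x11000000],[nat_lit 0x20000000]]
    [.c (nat_lit 1) (nat_lit 2),.c (nat_lit 0) (nat_lit 0x1800001805),.c (nat_lit 0) (nat_lit 0x1804001005),
    .c (nat_lit 0) (nat_lit 0x18c6329085),.c (nat_lit 0) (nat_lit 0x1880001005),.c (nat_lit 8) (nat_lit 0xc02),
    .c (nat_lit 8) (nat_lit 0x1800000c04),.r (nat_lit 0xb37) (nat_lit 9) [nat_lit 0x200844100a2,nat_lit 0x80018082,
    nat_lit 0x318ca91a0a2,nat_lit 0xc0018082,nat_lit 0x4010002],.r (nat_lit 0xb37) (nat_lit 9) [nat_lit 0x210044100a2,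
    nat_lit 0x1900018082,nat_lit 0x3014a91a0a2,nat_lit 0x1800018082,nat_lit 0x4010002],
    .c (nat_lit 0) (nat_lit 0x11003),.c (nat_lit 0) (nat_lit 0x4021805),.c (nat_lit 2) (nat_lit 0x10c6300085),
    .c (nat_lit 0) (nat_lit 0x10803),.c (nat_lit 0) (nat_lit 0x840200a4),.c (nat_lit 0) (nat_lit 0x300804),
    .c (nat_lit 1) (nat_lit 0x6000804),.c (nat_lit 0) (nat_lit 0x18c0328885),.c (nat_lit 8) (nat_lit 0x6000c04),
    .c (nat_lit 0) (nat_lit 0x18c6329085),.c (nat_lit 0) (nat_lit 0x1806328885),.c (nat_lit 1) (nat_lit 0xc0000804),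
    .c (nat_lit 0) (nat_lit 0x1900000805),.c (nat_lit 8) (nat_lit 0xc0000c04),.c (nat_lit 0) (nat_lit 0x1800000805),
    .c (nat_lit 2) (nat_lit 2),.c (nat_lit 0) (nat_lit 0x2000030007),.c (nat_lit 0) (nat_lit 0x2800038006),
    .c (nat_lit 0) (nat_lit 0x1800038006),.c (nat_lit 0) (nat_lit 0x180070000c),.c (nat_lit 0) (nat_lit 0x100070000c),
    .c (nat_lit 8) (nat_lit 0x1806000004),.c (nat_lit 8) (nat_lit 0x18c0000004),
    .r (nat_lit 0xb37) (nat_lit 9) [nat_lit 0x200044000a2,nat_lit 0x80000041,nat_lit 0x3194a92a0a2,nat_lit 65,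
    nat_lit 0x4010002],.c (nat_lit 3) (nat_lit 2),.c (nat_lit 2) (nat_lit 0x1000020003),
    .r (nat_lit 0xb37) (nat_lit 9) [nat_lit 65,nat_lit 0x201044000a2,nat_lit 0x5194ed2a082,nat_lit 0x200044000a2,
    nat_lit 0x4010002],.c (nat_lit 0) (nat_lit 0x518008),.c (nat_lit 8) (nat_lit 0x18c6000c85),
    .c (nat_lit 0) (nat_lit 0x8010009),.c (nat_lit 2) (nat_lit 0x10c0300c85),.c (nat_lit 0) (nat_lit 0x8030009),
    .r (nat_lit 462) (nat_lit 3) [nat_lit 0x6318dca3582,nat_lit 0x839ce03b1a2,nat_lit 0x318c60190a1,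
    nat_lit 0x360c60190a2,nat_lit 0x5294af2a0c1,nat_lit 0x31b060190a2],
    .r (nat_lit 0xb37) (nat_lit 9) [nat_lit 0x21088411482,nat_lit 0x18860190a2,nat_lit 0x300c6919082,
    nat_lit 0x18c60190a2,nat_lit 0x4010002],.c (nat_lit 0) (nat_lit 0x100010009),
    .c (nat_lit 2) (nat_lit 0x1006300c85),.c (nat_lit 0) (nat_lit 0x100030009),.c (nat_lit 0) (nat_lit 0x10005),
    .c (nat_lit 4) (nat_lit 2),.c (nat_lit 0) (nat_lit 0x6700004),.c (nat_lit 8) (nat_lit 0x18c6028c85),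
    .c (nat_lit 1) (nat_lit 0x18c6028885),.c (nat_lit 0) (nat_lit 0x40208a4),.c (nat_lit 0) (nat_lit 0x300002),
    .c (nat_lit 0) (nat_lit 0x500002),.c (nat_lit 0) (nat_lit 0x18c8328c85),.c (nat_lit 0) (nat_lit 0x1804328c85),
    .c (nat_lit 0) (nat_lit 0x1804000005),.c (nat_lit 8) (nat_lit 0x6000002),.c (nat_lit 8) (nat_lit 0xc6000004),
    .c (nat_lit 6) (nat_lit 2),.c (nat_lit 0) (nat_lit 0x1906328c8d),.c (nat_lit 0) (nat_lit 0x18c6328c87),
    .c (nat_lit 7) (nat_lit 2),.c (nat_lit 0) (nat_lit 0x1980000005),.c (nat_lit 0) (nat_lit 0x1880000005),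
    .c (nat_lit 8) (nat_lit 2)]]

/-- nodes -/
noncomputable def rD8k_3_5 : List RJ :=
  [.l (nat_lit 13) (nat_lit 0x720) (nat_lit 3) (nat_lit 0x37e0000037e0000038a0000038e000004760000049c000003a3000003a3000003de00000340000003a3000003a30000036e000003660000031a0000037e) (nat_lit 0x11e0000011e0000010e000001120000000000000026000000f9000000f90000015c000000be000000f9000000f9000001360000012e0000011e00000182)
    (nat_lit 0x13009804e026c1b00ba06fa43b13409605f22cf0f807204c01fc13009805b826c1bf09105ca3a31340b105ea2c70ee07204c01e813609b07202781360be051a2910f609b063224b13407b04d827416e09c09503901c70da04da2bb12e0b304da2bb12409805c01c81220ba06d02f822808a070237d17a0f806fa3531c20dc06b03041bf0d8071c26c27c11407463a31a010b079a3a31d80e703902c01d190ec5762911d18df44b824e1238b944f82aa163892c5461d71728df44da28d1d18e0454c25c1228b944342b813c89d45da221162096059826c2160f805ca2e513a0c905ca2e71540d0039025013409a04b81ec1a00bd048a24710209d048e2470f208603b01c81638b3c57624b1d18d4c5702aa1238b9c54828a13189d447e24717a8be44da3191e68df443427c1238b943e42a414889d461a1f90e407204c01ec1ce0dc04ea24b10c0d004ea2751300be03b81c80ee07c04902681d80e104f22c70f20aa05222630e409804901e40f407f03902741600c104421d70e409403f22470f207204a820013009805c026c0e40d605da2a30ec072061a23f12407704c0254)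
    (nat_lit 0x1301c80e407203901c80e407203901c80e407203901c80e407201300980e407203901c80e407203901c80e407203901c80e407201380b707207203901c80e407203901c80e407203901c80e4072013609b04f03903901c80e407203901c80e407203901c80e407201b00df84d838e2281c80e407203901c80e407203901c80e4072017409105f03681141140e407203901c80e407203901c80e407201be8b9451a26d1c08e8c4b87203901c80e407203901c80e4072021d8e8c5222bb1be8e8c49c25c3901c80e407203901c80e4072013409a03d825c17a0d0048e24513a1c80e407203901c80e4072012c0b104d82cc1f010b05ca2e519209d0e407203901c80e4072017c8bd463226d1be8f344f821a172891c5487203901c80e407201678b1c4962bb1a98e8c5542b8173891c5142a43901c80e407200f807704d02481c20ec058e27915407904c62911301c80e407200e407203d82601b80e704962751a008604ea27517c0980e4072013009804d82e01ac07205462ed0e4076047e30d0ee09204a87200fe07a04e81c81820b003ae221128072048e1f90e40790400254)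
    (nat_lit 4) (nat_lit 133)
    [[nat_lit 2,nat_lit 3,nat_lit 18,nat_lit 258,nat_lit 0x1002,nat_lit 0x10002,nat_lit 0x1000002,nat_lit 0x10000002,
    nat_lit 17,nat_lit 33,nat_lit 273,nat_lit 0x1011,nat_lit 0x10011,nat_lit 0x1000011,nat_lit 0x10000011,nat_lit 257,
    nat_lit 513,nat_lit 0x1101,nat_lit 0x10101,nat_lit 0x1001,nat_lit 0x2001,nat_lit 0x11001,nat_lit 0x1001001,
    nat_lit 0x10001001,nat_lit 0x10001,nat_lit 0x1010001,nat_lit 0x100001,nat_lit 0x100011,nat_lit 0x100101,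
    nat_lit 0x101001,nat_lit 0x200001,nat_lit 0x1100001,nat_lit 0x10100001,nat_lit 0x1000001,nat_lit 0x11000001,
    nat_lit 0x10000001,nat_lit 0x10010001,nat_lit 0x20000001],[nat_lit 32,nat_lit 0x1000020,nat_lit 0x10000020,
    nat_lit 288,nat_lit 0x10020,nat_lit 272,nat_lit 528,nat_lit 0x10110,nat_lit 0x1000110,nat_lit 0x1010,
    nat_lit 0x1001010,nat_lit 0x10001010,nat_lit 0x11010,nat_lit 0x10010,nat_lit 0x1000010,nat_lit 0x11000010,
    nat_lit 0x10000010,nat_lit 0x20000010],[nat_lit 512,nat_lit 0x1000200,nat_lit 0x1100,nat_lit 0x10100,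
    nat_lit 0x1000100,nat_lit 0x10000100],[nat_lit 0x2000,nat_lit 0x11000,nat_lit 0x1001000,nat_lit 0x10001000],
    [nat_lit 0x20000,nat_lit 0x30000,nat_lit 0x1010000],[nat_lit 0x1100000,nat_lit 0x10100000],[nat_lit 0x11000000],
    [nat_lit 0x20000000]]
    [.c (nat_lit 1) (nat_lit 2),.c (nat_lit 0) (nat_lit 515),.c (nat_lit 0) (nat_lit 0x2407),
    .c (nat_lit 0) (nat_lit 0x4200080d),.c (nat_lit 0) (nat_lit 0x20407),.c (nat_lit 0) (nat_lit 0x30333267),
    .c (nat_lit 3) (nat_lit 0x62222376),.c (nat_lit 0) (nat_lit 0x3333366d),.c (nat_lit 0) (nat_lit 0x2207),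
    .c (nat_lit 0) (nat_lit 0x4207),.c (nat_lit 3) (nat_lit 0x3306),.c (nat_lit 0) (nat_lit 0x22207),
    .c (nat_lit 5) (nat_lit 0x3306),.c (nat_lit 7) (nat_lit 0x3306),.c (nat_lit 8) (nat_lit 0x3306),
    .c (nat_lit 0) (nat_lit 0x4200040d),.c (nat_lit 7) (nat_lit 0x73333566),.c (nat_lit 3) (nat_lit 0x30306),
    .c (nat_lit 0) (nat_lit 0x2233326d),.c (nat_lit 0) (nat_lit 0x20207),.c (nat_lit 0) (nat_lit 0x40207),
    .c (nat_lit 5) (nat_lit 0x30306),.c (nat_lit 7) (nat_lit 0x30306),.c (nat_lit 8) (nat_lit 0x30306),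
    .c (nat_lit 0) (nat_lit 0x30333067),.c (nat_lit 0) (nat_lit 0x30333067),.c (nat_lit 0) (nat_lit 0x200207),
    .c (nat_lit 0) (nat_lit 0x303306),.c (nat_lit 0) (nat_lit 0x7373376c),.c (nat_lit 0) (nat_lit 0x330306),
    .c (nat_lit 0) (nat_lit 0x500306),.c (nat_lit 5) (nat_lit 0x30033067),.c (nat_lit 0) (nat_lit 0x250050c),
    .c (nat_lit 0) (nat_lit 0x30333067),.c (nat_lit 8) (nat_lit 0x33333067),.c (nat_lit 0) (nat_lit 0x20000207),
    .c (nat_lit 8) (nat_lit 0x3000306),.c (nat_lit 7) (nat_lit 0x33333067),.c (nat_lit 2) (nat_lit 2),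
    .c (nat_lit 8) (nat_lit 0x33332367),.c (nat_lit 3) (nat_lit 0x20004007),.c (nat_lit 8) (nat_lit 0x20004007),
    .c (nat_lit 8) (nat_lit 0x3005006),.c (nat_lit 0) (nat_lit 0x4200400d),.c (nat_lit 8) (nat_lit 0x40002007),
    .c (nat_lit 8) (nat_lit 0x33003006),.c (nat_lit 8) (nat_lit 0x3330367),.c (nat_lit 0) (nat_lit 0x22007),
    .c (nat_lit 8) (nat_lit 0x33300367),.c (nat_lit 3) (nat_lit 0x20022007),.c (nat_lit 8) (nat_lit 0x3033006),
    .c (nat_lit 0) (nat_lit 0x30330367),.c (nat_lit 3) (nat_lit 0x62220276),.c (nat_lit 0) (nat_lit 0x2222327c),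
    .c (nat_lit 0) (nat_lit 0x3333236d),.c (nat_lit 3) (nat_lit 0x40002007),.c (nat_lit 3) (nat_lit 2),
    .c (nat_lit 8) (nat_lit 0x23333367),.c (nat_lit 0) (nat_lit 0x4204000d),.c (nat_lit 0) (nat_lit 0x42000007),
    .r (nat_lit 0xdbe) (nat_lit 10) [nat_lit 0x2020003,nat_lit 33],.c (nat_lit 0) (nat_lit 0x20000007),
    .c (nat_lit 4) (nat_lit 2),.c (nat_lit 0) (nat_lit 0x30303367),.c (nat_lit 3) (nat_lit 0x62202276),
    .c (nat_lit 0) (nat_lit 0x3332336d),.c (nat_lit 5) (nat_lit 2),.c (nat_lit 8) (nat_lit 0x3000002),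
    .c (nat_lit 0) (nat_lit 0x30333367),.c (nat_lit 8) (nat_lit 0x33033367),.c (nat_lit 3) (nat_lit 0x20200007),
    .c (nat_lit 3) (nat_lit 0x42222276),.c (nat_lit 8) (nat_lit 2)],
    .l (nat_lit 12) (nat_lit 720) (nat_lit 3) (nat_lit 0x14b0000014b00000168000001a0000001780000016c0000014b0000014b0000014a0000014a0000013c000001540000014b0000014b0000014e0000014e) (nat_lit 0x550000005500000000000000380000003400000028000000550000005500000056000000560000004c0000006400000055000000550000005200000052)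
    (nat_lit 0xf60f61bd10d11d1231000f60f50e51050ef0f00f60f90f90f60f61c31131231230ea0fc0f50eb0ff0db0f60f60ff0ff11310d16813012e0c811d10711e11e11c10410d1131161161c31bd1a01680ba17814b14114a0b40c413c1bd1c314e0c01231231780c814e1501b91d51221220b41141b11b30b40b412311d0ba12e13814e0fd11710810c11a0fc11d12111a1200fc0f61411071171d51000f610110f0f50f50f00fc0f30f30ea10014b11d0fd1b90e41000ef0f50ff0db0f60f61090f30eb0e50b411e10c1220f510f1001060fe0ec0fb0f50ee0f80f50f514a11e1081220ef1011001000e60e60f50f50f00e40db0ef13c1040fc1140db0f50e60ec0f00cc0fb0ff0ea0ea0ff1050c411c11a0b40ff0f50e60fe1140f01050ff1021020f60f61c31131211b30f60fc0f50f50ff0ff0f60ea0f30f30f60f01bd10d11d1b10f60f00f50fb1050fb0f00f60f90f90ff0f90c01161200b40f30f30e40f81020ea0f90f31021020ff0f914e11611a0b41090f30f00ee1020ea0f90f30fc102)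
    (nat_lit 0xf62d02d02d02d02d02d02d02d02d02d02d02d02d02d02d00f60f62d02d02d02d02d02d02d02d02d02d02d02d02d02d01bd1c31682d02d02d02d02d02d02d02d02d02d02d02d02d010d1131301682d02d02d02d02d02d02d02d02d02d02d02d011d12312e0ba14e2d02d02d02d02d02d02d02d02d02d02d01231230c817815014e2d02d02d02d02d02d02d02d02d02d01000ea11d14b1b90fd1002d02d02d02d02d02d02d02d02d00f60fc1071411d51170f61002d02d02d02d02d02d02d02d00f50f511e14a1221081010ef1002d02d02d02d02d02d02d00e50eb11e0b412210c10f0f51061002d02d02d02d02d02d01050ff11c0c40b411a0f50ff0fe0e60f02d02d02d02d02d00ef0db10413c1140fc0f50db0ec0e60cc0f02d02d02d02d00f00f610d1a91af11d0f00f60fb0f50fb1050f62d02d02d00f60f61131a91b31210fc0f60f50f50ff0ff0ea0f62d02d00f90ff11614e0b411a0f31090ee0f00ea1020f30f91022d00f90ff1160c00b41200f30f30f80e40ea1020f30f9102102)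
    (nat_lit 6) (nat_lit 61)
    [[nat_lit 2,nat_lit 17,nat_lit 0x100011,nat_lit 0x1000011,nat_lit 257,nat_lit 0x1101,nat_lit 0x100101,
    nat_lit 0x1000101,nat_lit 0x1001,nat_lit 0x101001,nat_lit 0x1001001,nat_lit 0x10001,nat_lit 0x11001,
    nat_lit 0x20001,nat_lit 0x110001,nat_lit 0x100001,nat_lit 0x200001,nat_lit 0x1100001,nat_lit 0x1000001,
    nat_lit 0x10000001,nat_lit 0x10001001,nat_lit 0x11000001],[nat_lit 32,nat_lit 272,nat_lit 0x1010,
    nat_lit 0x1001010,nat_lit 0x10010,nat_lit 0x10110,nat_lit 0x10000010,nat_lit 0x10000110],[nat_lit 512,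
    nat_lit 0x1200,nat_lit 0x10200,nat_lit 0x100200,nat_lit 0x1000200,nat_lit 0x1100,nat_lit 0x10001100,
    nat_lit 0x1001100,nat_lit 0x10100,nat_lit 0x20100,nat_lit 0x10010100,nat_lit 0x100100,nat_lit 0x101100,
    nat_lit 0x110100,nat_lit 0x1100100,nat_lit 0x10100100,nat_lit 0x1000100,nat_lit 0x1010100,nat_lit 0x11000100,
    nat_lit 0x10000100],[nat_lit 0x2000,nat_lit 0x11000,nat_lit 0x1011000,nat_lit 0x101000,nat_lit 0x1101000,
    nat_lit 0x1001000,nat_lit 0x10001000,nat_lit 0x11001000],[nat_lit 0x20000,nat_lit 0x1010000,nat_lit 0x10010000],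
    [nat_lit 0x200000,nat_lit 0x1100000,nat_lit 0x10100000],[],[nat_lit 0x20000000]]
    [.c (nat_lit 1) (nat_lit 2),.c (nat_lit 0) (nat_lit 0x408000000d),
    .r (nat_lit 0xb35) (nat_lit 9) [nat_lit 0x2000080000003,nat_lit 0x50031451cc006,nat_lit 0x51431441cc006,
    nat_lit 0x4102000180346,nat_lit 0x2002000000003],.c (nat_lit 0) (nat_lit 0x10008410634c),
    .c (nat_lit 0) (nat_lit 0x80002005),.c (nat_lit 3) (nat_lit 0xc014600c),.c (nat_lit 5) (nat_lit 0x10008800600d),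
    .c (nat_lit 3) (nat_lit 0xc30030c6187),.c (nat_lit 0) (nat_lit 0x100080007),
    .r (nat_lit 0xdb3) (nat_lit 6) [nat_lit 0x2000080000003,nat_lit 0x5103005180306],
    .r (nat_lit 0xdb3) (nat_lit 6) [nat_lit 0x2000080000003,nat_lit 0x30000c00061c3],
    .c (nat_lit 0) (nat_lit 0x6210000031),.c (nat_lit 0) (nat_lit 0x82080007),
    .r (nat_lit 0xdb3) (nat_lit 6) [nat_lit 0x2000080000003,nat_lit 0x102200180346],
    .c (nat_lit 0) (nat_lit 0xc0003000006),.c (nat_lit 0) (nat_lit 0x80080000007),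
    .c (nat_lit 0) (nat_lit 0x846240000030),.c (nat_lit 0) (nat_lit 0x400410634c),
    .r (nat_lit 0xb35) (nat_lit 9) [nat_lit 0x2000080000003,nat_lit 0x50031451cc006,nat_lit 0x51431441cc006,
    nat_lit 0x2080082187183,nat_lit 0x2002000000003],.c (nat_lit 0) (nat_lit 0xe200000031),
    .c (nat_lit 0) (nat_lit 0x6200400031),.r (nat_lit 0xdb3) (nat_lit 6) [nat_lit 0x2000080000003,
    nat_lit 0x31000c31861c9],.c (nat_lit 2) (nat_lit 2),.r (nat_lit 0xdb9) (nat_lit 5) [nat_lit 0x2000080000003,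
    nat_lit 129],.c (nat_lit 3) (nat_lit 0x30000cc006),.c (nat_lit 5) (nat_lit 0x1400c400730d),
    .c (nat_lit 3) (nat_lit 0x3003006006),.r (nat_lit 0xb35) (nat_lit 9) [nat_lit 0x2000080000003,
    nat_lit 0x50031451cc006,nat_lit 0x51431441cc006,nat_lit 0x800801801c3,nat_lit 0x2002000000003],
    .c (nat_lit 0) (nat_lit 0x2000000009),.r (nat_lit 0xdb3) (nat_lit 6) [nat_lit 0x2000080000003,nat_lit 129],
    .c (nat_lit 3) (nat_lit 2),.r (nat_lit 0xdb3) (nat_lit 6) [nat_lit 0x2000080000003,nat_lit 0x100003000186],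
    .c (nat_lit 5) (nat_lit 0x2002003),.c (nat_lit 5) (nat_lit 0x80008006007),.c (nat_lit 0) (nat_lit 0x10408410b34c),
    .c (nat_lit 0) (nat_lit 0x10600d),.c (nat_lit 0) (nat_lit 0x82007),.c (nat_lit 0) (nat_lit 0x10408400334c),
    .c (nat_lit 0) (nat_lit 0x2002007),.c (nat_lit 0) (nat_lit 0x5005006),
    .r (nat_lit 0xdb3) (nat_lit 6) [nat_lit 0x2000080000003,nat_lit 0x800801801c3],
    .r (nat_lit 0xdb3) (nat_lit 6) [nat_lit 0x2000080000003,nat_lit 0x3080000000183],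
    .r (nat_lit 0xb35) (nat_lit 9) [nat_lit 0x2000080000003,nat_lit 0x50031451cc006,nat_lit 0x51431441cc006,
    nat_lit 0x20000021801c3,nat_lit 0x2002000000003],.c (nat_lit 0) (nat_lit 0xc0003000006),
    .c (nat_lit 0) (nat_lit 0x408410734c),.c (nat_lit 0) (nat_lit 0xc0000005006),
    .r (nat_lit 0xdb3) (nat_lit 6) [nat_lit 0x2000080000003,nat_lit 0x500314518c346],
    .c (nat_lit 0) (nat_lit 0x10408010034c),.r (nat_lit 0xdb9) (nat_lit 5) [nat_lit 0x2000080000003,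
    nat_lit 0x500314518c346],.c (nat_lit 0) (nat_lit 0x2003),.c (nat_lit 4) (nat_lit 2),
    .c (nat_lit 0) (nat_lit 0x408000d),.c (nat_lit 3) (nat_lit 0x1450c000630d),.c (nat_lit 3) (nat_lit 0xc00000c6006),
    .c (nat_lit 0) (nat_lit 0x40840c634c),.c (nat_lit 5) (nat_lit 0x10408c00634c),.c (nat_lit 1) (nat_lit 0x800c0006),
    .r (nat_lit 0xdb3) (nat_lit 6) [nat_lit 0x2000080000003,nat_lit 0x510314018c34c],.c (nat_lit 5) (nat_lit 2),
    .r (nat_lit 0xdb3) (nat_lit 6) [nat_lit 0x2000080000003,nat_lit 0x510300518c34c],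
    .c (nat_lit 5) (nat_lit 0x2000002),.c (nat_lit 6) (nat_lit 2),.c (nat_lit 3) (nat_lit 0x50c514630d),
    .c (nat_lit 5) (nat_lit 0xc0004000006),.c (nat_lit 8) (nat_lit 2)]]

/-- nodes -/
noncomputable def rD8k_3_6 : List RJ :=
  [.l (nat_lit 16) (nat_lit 0x23a0) (nat_lit 3) (nat_lit 0x11060000110600000f5e00000f5e00000d6e00000da200000e20000010e800000f8600000f8600000d4000000f8000000fa000000fa000000fb400000d4a) (nat_lit 0x1a8000001a800000364000003980000001e000002e6000001800000018000000186000003c60000016600000166000003bc00000152)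
    (nat_lit 0x11d011060e160f5e0da20d6e10e80cd8102213ca0fb40d400d960fa00d4a0fb4129a11d00f5e0f5e0d6e0d6e10e80e200fd6137e0b040d400d960fa00d4a0b040f5e0f5e0db60c220bfa0bc60b480cac0dde0dde0dd80b4812a812740ad810160f5e0e160be00db60bfa0bc60f400aa20e540dde0dd80bbe112c10f80ba20e0c0d6e0d6e0bc60bc60be00bac0d500a880bc80bee08e809320c080c080afa08e80d6e0da20bfa0bfa0c140be00d840abc0bfc0c22091c09dc0c540c3c0b2e08e80e200cd80aa20cac0abc0a880e0209640ca00ca00c9a0a8010220fba0a640cb610e810e80f400b480d840d5010ca0e020f680f680f620d2213e6137e08e81154137e13ca0dde0dde0c220bee0f680ca00e060e060a040bc00c620e200bca09d00fd610220e540dde0bfc0bc80f680ca00e060e060b5e0bc00e200dec0bca0b920d400d400bbe0b4809dc09320d220a800bc00bc00bee097a0e7c0e7c08e80bee0b040fb40dd80dd8091c08e80f620c9a0b5e0a040eca0bee0e320e1a0bc40eca0fa00fa010f812740c3c0c08137e0fba0dec0e200e1a0e7c0d9e0d6a0bb00e360d960d96112c12a80c540c0813e610220e200c620e320e7c0c480d9e0be40e4e0b040fb40e0c101608e808e811540cb60b9209d00eca0bee0e4e0e360e0210540d4a0d4a0ba20ad80b2e0afa08e80a640bca0bca0bc408e80be40bb0098e0e02)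
    (nat_lit 0x11d023a023a023a023a023a023a023a023a023a023a023a023a023a023a023a0110611d023a023a023a023a023a023a023a023a023a023a023a023a023a023a00e160f5e0db623a023a023a023a023a023a023a023a023a023a023a023a023a00f5e0f5e0c220db623a023a023a023a023a023a023a023a023a023a023a023a00da20d6e0bfa0bfa0be023a023a023a023a023a023a023a023a023a023a023a00d6e0d6e0bc60bc60bac0be023a023a023a023a023a023a023a023a023a023a010e810e80b480f400d500d840e0223a023a023a023a023a023a023a023a023a00cd80e200cac0aa20a880abc09640e0223a023a023a023a023a023a023a023a010220fd60dde0e540bc80bfc0ca00f680e0623a023a023a023a023a023a023a013ca137e0dde0dde0bee0c220ca00f680e060e0623a023a023a023a023a023a00fb40b040dd80dd808e8091c0c9a0f620a040b5e0bee23a023a023a023a023a00d400d400b480bbe093209dc0a800d220bc00bc0097a0bee23a023a023a023a00d960d9612a8112c0c080c54102213e60c620e200e7c0e320d9e23a023a023a00fa00fa0127410f80c080c3c0fba137e0e200dec0e7c0e1a0d6a0d9e23a023a00d4a0d4a0ad80ba20afa0b2e0a6408e80bca0bca08e80bc40bb00be40e0223a00fb40b0410160e0c08e808e80cb6115409d00b920bee0eca0e360e4e10540e02)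
    (nat_lit 5) (nat_lit 61)
    [[nat_lit 2,nat_lit 0x1002,nat_lit 0x100002,nat_lit 17,nat_lit 0x100011,nat_lit 257,nat_lit 0x1101,
    nat_lit 0x100101,nat_lit 0x1001,nat_lit 0x101001,nat_lit 0x10001,nat_lit 0x11001,nat_lit 0x110001,nat_lit 0x10101,
    nat_lit 0x10010001,nat_lit 0x100001,nat_lit 0x200001,nat_lit 0x1000001,nat_lit 0x1001001,nat_lit 0x1100001,
    nat_lit 0x10000001],[nat_lit 32,nat_lit 272,nat_lit 0x1010,nat_lit 0x100010,nat_lit 0x10000010],[nat_lit 512,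
    nat_lit 0x1200,nat_lit 0x100200,nat_lit 0x1100,nat_lit 0x101100,nat_lit 0x10100,nat_lit 0x110100,nat_lit 0x100100,
    nat_lit 0x200100,nat_lit 0x1100100,nat_lit 0x10100100,nat_lit 0x1000100,nat_lit 0x10000100],[nat_lit 0x2000,
    nat_lit 0x11000,nat_lit 0x101000,nat_lit 0x1001000],[nat_lit 0x20000,nat_lit 0x110000,nat_lit 0x1010000,
    nat_lit 0x1110000,nat_lit 0x10010000],[nat_lit 0x200000,nat_lit 0x1100000,nat_lit 0x10100000],[nat_lit 0x2000000,
    nat_lit 0x11000000],[]]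
    [.c (nat_lit 1) (nat_lit 2),.c (nat_lit 0) (nat_lit 0x2100000807),.c (nat_lit 0) (nat_lit 0x1880718cc7),
    .c (nat_lit 0) (nat_lit 0x8c000007),.c (nat_lit 0) (nat_lit 0x1880718cc7),.c (nat_lit 0) (nat_lit 0x1080000007),
    .c (nat_lit 0) (nat_lit 0x1080000807),.c (nat_lit 0) (nat_lit 0x8e718cc7),.c (nat_lit 0) (nat_lit 0x8c000807),
    .c (nat_lit 0) (nat_lit 0x180e7180c7),.c (nat_lit 0) (nat_lit 0x2080600007),.c (nat_lit 2) (nat_lit 0x98600807),
    .c (nat_lit 0) (nat_lit 0xe018cc7),.c (nat_lit 0) (nat_lit 0xe018cc7),.c (nat_lit 0) (nat_lit 0x80718006),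
    .c (nat_lit 0) (nat_lit 0x180e718cc7),.c (nat_lit 0) (nat_lit 0x281ad29587),.c (nat_lit 0) (nat_lit 0x2080000007),
    .c (nat_lit 2) (nat_lit 0x98000807),.c (nat_lit 0) (nat_lit 0xe718cc7),.c (nat_lit 0) (nat_lit 0x1080010007),
    .c (nat_lit 2) (nat_lit 2),.c (nat_lit 0) (nat_lit 0x110c000007),.c (nat_lit 0) (nat_lit 0x8c000807),
    .c (nat_lit 0) (nat_lit 0x1880718cc7),.c (nat_lit 0) (nat_lit 0x100e018006),.c (nat_lit 3) (nat_lit 2),
    .c (nat_lit 0) (nat_lit 0x2100000807),.c (nat_lit 0) (nat_lit 0x110e718cc7),.c (nat_lit 0) (nat_lit 0x1080000807),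
    .c (nat_lit 0) (nat_lit 0x8e7180c7),.c (nat_lit 0) (nat_lit 0x1000600007),.c (nat_lit 0) (nat_lit 0xe018cc7),
    .c (nat_lit 3) (nat_lit 0x208c6108e6),.c (nat_lit 0) (nat_lit 0x189ad29587),.c (nat_lit 0) (nat_lit 0xe718cc7),
    .c (nat_lit 2) (nat_lit 0xa46008e6),.c (nat_lit 0) (nat_lit 0x1000000007),.c (nat_lit 0) (nat_lit 0x1080010007),
    .c (nat_lit 4) (nat_lit 2),.c (nat_lit 0) (nat_lit 0x1000600807),.c (nat_lit 0) (nat_lit 0x180e7180c7),
    .c (nat_lit 0) (nat_lit 0x1000000807),.c (nat_lit 5) (nat_lit 2),.c (nat_lit 0) (nat_lit 0x18ce018cc7),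
    .c (nat_lit 2) (nat_lit 0x8200003),.c (nat_lit 0) (nat_lit 0x110c0108e6),.c (nat_lit 0) (nat_lit 0x80718006),
    .c (nat_lit 6) (nat_lit 2),.c (nat_lit 0) (nat_lit 0x18ce718cc7),.c (nat_lit 0) (nat_lit 0x180e700cc7),
    .c (nat_lit 7) (nat_lit 2),.c (nat_lit 0) (nat_lit 0x80018006)],
    .l (nat_lit 11) (nat_lit 480) (nat_lit 5) (nat_lit 0xd8000000d8000000dd000000dd000000d7000000d7000000cf000000cf000000b3000000db000000d6000000d6000000f8000000f8000000bf000000bf) (nat_lit 0x20000000200000001b0000001b000000210000002100000029000000290000001d00000045000000220000002200000000000000000000003900000039)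
    (nat_lit 0x1483185c8b317e294578b515e24c530ae2103884f89f170290618bd16e2dc4688d17624c5b0ae1fc3605489f17a2cc610c21bc2d85a0b41902e85d8bb1ba3745c07e1862e4550c21ac2f05a0a61442c8929251ba3545b0a416e2945e0b61883384a0940a02485e8d31ae1b45109e16e2fc6b0de170310570ae1742304c8af15e35c4c07a11a2d4530b415c250560a4170228568ad1e63ac470be11a2bc5a0b415c2504f0ac1642285688f1ea3b44b0a612624c590ba1182484508a1681d8398911462cc3d0541762bc510c8174140590b81b82d0588b91a636c5506e15c2b8928bb15e34c478ad1722445a096214378548a516c298928bb1322f4568ad1621cc5a0b4204358498c31b03886a8dd1ae1b4768eb1b62cc6b0de1a43e0678931fc4206e8dd15e35c7a8f31a628c8110a1f03485f8bf13e27c5207e0f4278530be0dc150618a517e24c2b08615227c5b0b81302884b08e1541e8498a917e33c3c056)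
    (nat_lit 0x148780f01e03c0780f01e03c0780f01e03c0780f01e018c290f01e03c0780f01e03c0780f01e03c0780f01e017230c611e03c0780f01e03c0780f01e03c0780f01e01662f4610c23c0780f01e03c0780f01e03c0780f01e017e2dc6f0d6188780f01e03c0780f01e03c0780f01e014a2dc5b0bc19c310f01e03c0780f01e03c0780f01e015e2345a0b41282b8561e03c0780f01e03c0780f01e016a2345a0a61282b8520ac3c0780f01e03c0780f01e015e2ec640a20a02e85c0b2168780f01e03c0780f01e012624c5d0b21242304508a0ec2d0f01e03c0780f01e014c2d85d91517a264568ad0e62c45a1e03c0780f01e015c2b85d9251a62bc5688f1222e44b0b43c0780f01e02103f86e8dd1ae2bc798f514634c851021a4780f01e01c43606e8d50da35c758ed16636c6f0d61f0348f01e013e2a45c0b6144260470960f42a85489319e2fc2b1e013e27c3f0a413c1e85f0a60a81b8528c31262fc43056)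
    (nat_lit 5) (nat_lit 149)
    [[nat_lit 2,nat_lit 3,nat_lit 4,nat_lit 5,nat_lit 0x1003,nat_lit 0x100003,nat_lit 18,nat_lit 258,nat_lit 0x1002,
    nat_lit 0x101002,nat_lit 0x10002,nat_lit 0x11002,nat_lit 0x100002,nat_lit 0x1000002,nat_lit 0x10000002,
    nat_lit 0x2002,nat_lit 17,nat_lit 0x100011,nat_lit 257,nat_lit 0x1101,nat_lit 0x1001,nat_lit 0x2001,
    nat_lit 0x11001,nat_lit 0x101001,nat_lit 0x102001,nat_lit 0x1001001,nat_lit 0x10001001,nat_lit 0x10001,
    nat_lit 0x110001,nat_lit 0x1010001,nat_lit 0x10010001,nat_lit 0x100001,nat_lit 0x1100001,nat_lit 0x10100001,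
    nat_lit 0x1000001,nat_lit 0x10000001],[nat_lit 32,nat_lit 0x1010,nat_lit 0x101010,nat_lit 0x100010,
    nat_lit 0x1000010],[nat_lit 512,nat_lit 0x1100,nat_lit 0x1200,nat_lit 0x11100,nat_lit 0x101100,nat_lit 0x1001100,
    nat_lit 0x10001100,nat_lit 0x10100,nat_lit 0x100100,nat_lit 0x110100,nat_lit 0x10000100,nat_lit 0x10010100],
    [nat_lit 0x2000,nat_lit 0x102000,nat_lit 0x11000,nat_lit 0x111000,nat_lit 0x10011000,nat_lit 0x101000,
    nat_lit 0x202000,nat_lit 0x201000,nat_lit 0x10101000,nat_lit 0x1001000,nat_lit 0x10001000],[nat_lit 0x20000,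
    nat_lit 0x110000,nat_lit 0x1010000,nat_lit 0x10010000],[nat_lit 0x200000,nat_lit 0x1100000,nat_lit 0x10100000],
    [nat_lit 0x2000000,nat_lit 0x11000000],[nat_lit 0x20000000]]
    [.c (nat_lit 1) (nat_lit 2),.c (nat_lit 0) (nat_lit 0x4010003),.c (nat_lit 4) (nat_lit 0x112000006),
    .c (nat_lit 0) (nat_lit 0x28a0000d),.c (nat_lit 0) (nat_lit 0x118a0000d),.c (nat_lit 0) (nat_lit 0x8200003),
    .c (nat_lit 0) (nat_lit 0x4010003),.c (nat_lit 0) (nat_lit 0x1010000007),.c (nat_lit 4) (nat_lit 0x8a000006),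
    .c (nat_lit 0) (nat_lit 0x90600007),.c (nat_lit 0) (nat_lit 0x10a0300d),
    .r (nat_lit 0xdbb) (nat_lit 5) [nat_lit 0x211006300e3,nat_lit 0x329ce7398c3],.c (nat_lit 0) (nat_lit 0x8200003),
    .c (nat_lit 2) (nat_lit 0x18c4731cc7),.c (nat_lit 0) (nat_lit 0x10a0000d),.c (nat_lit 2) (nat_lit 0x108060007),
    .c (nat_lit 0) (nat_lit 0x4010003),.c (nat_lit 3) (nat_lit 0x2006738006),.c (nat_lit 0) (nat_lit 0x1010000007),
    .c (nat_lit 0) (nat_lit 0x1088000007),.c (nat_lit 0) (nat_lit 0x84030007),.c (nat_lit 0) (nat_lit 0x208a0000d),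
    .c (nat_lit 2) (nat_lit 0x84061807),.c (nat_lit 0) (nat_lit 0x90600007),.c (nat_lit 0) (nat_lit 0x108600007),
    .r (nat_lit 0xdbb) (nat_lit 5) [nat_lit 0x6018861,nat_lit 0x18c00300c3],.c (nat_lit 2) (nat_lit 0x84060007),
    .c (nat_lit 4) (nat_lit 0x106001c06),.c (nat_lit 0) (nat_lit 0x4200803),.c (nat_lit 3) (nat_lit 0x10c07380c7),
    .r (nat_lit 0xdbb) (nat_lit 5) [nat_lit 0x200806300e3,nat_lit 0x3194e7398c3],.c (nat_lit 0) (nat_lit 0x8200003),
    .c (nat_lit 0) (nat_lit 0x18c4039cc7),.c (nat_lit 0) (nat_lit 0x4200003),.c (nat_lit 0) (nat_lit 0x294036b58d),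
    .c (nat_lit 4) (nat_lit 0x106000006),.c (nat_lit 2) (nat_lit 2),.c (nat_lit 0) (nat_lit 0x80020007),
    .r (nat_lit 0xdbb) (nat_lit 5) [nat_lit 0x2180e0000c3,nat_lit 0x300c00018e3],
    .r (nat_lit 0xdbe) (nat_lit 10) [nat_lit 65,nat_lit 0x18ce739803],.c (nat_lit 0) (nat_lit 0x10846198e6),
    .c (nat_lit 3) (nat_lit 2),.c (nat_lit 0) (nat_lit 0x110000000d),.c (nat_lit 2) (nat_lit 0x28c0060006),
    .c (nat_lit 0) (nat_lit 0x5a40006418),.c (nat_lit 3) (nat_lit 0x10c0700006),.c (nat_lit 0) (nat_lit 0x1808c631ac),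
    .c (nat_lit 0) (nat_lit 0x5a40000018),.c (nat_lit 0) (nat_lit 0x1000002009),
    .r (nat_lit 0xdba) (nat_lit 5) [nat_lit 0x210001,nat_lit 65],.r (nat_lit 0xdbb) (nat_lit 5) [nat_lit 0x6218041,
    nat_lit 0x18c07318e3],.c (nat_lit 0) (nat_lit 0x1000000009),.c (nat_lit 0) (nat_lit 0x1800001404),
    .c (nat_lit 4) (nat_lit 2),.c (nat_lit 0) (nat_lit 0x80200003),.c (nat_lit 0) (nat_lit 0x100a0300d),
    .c (nat_lit 0) (nat_lit 0x80401005),.c (nat_lit 3) (nat_lit 0x2080001807),.c (nat_lit 0) (nat_lit 0x80200003),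
    .c (nat_lit 3) (nat_lit 0x2140d00006),.r (nat_lit 0xdba) (nat_lit 5) [nat_lit 0x210001,nat_lit 0x2180e0000c3],
    .c (nat_lit 0) (nat_lit 0x80400005),.c (nat_lit 2) (nat_lit 0x1806731cc7),.c (nat_lit 0) (nat_lit 0x100a0000d),
    .c (nat_lit 5) (nat_lit 2),.c (nat_lit 0) (nat_lit 0x201003),.r (nat_lit 0xdbb) (nat_lit 5) [nat_lit 0x18ce0018e3,
    nat_lit 65],.c (nat_lit 2) (nat_lit 0x20803),.c (nat_lit 6) (nat_lit 2),.c (nat_lit 0) (nat_lit 0x18c6339cc7),
    .c (nat_lit 0) (nat_lit 0x200005),.c (nat_lit 7) (nat_lit 2),.r (nat_lit 0xdbb) (nat_lit 5) [nat_lit 0x18ce0398e3,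
    nat_lit 0x10041],.c (nat_lit 8) (nat_lit 2)]]

/-- nodes -/
noncomputable def rD8k_3_7 : List RJ :=
  [.l (nat_lit 13) (nat_lit 0x5a0) (nat_lit 4) (nat_lit 0x274000002b80000033a0000033a000003020000030200000277000002770000029500000295000002870000029b00000273000002730000027300000273) (nat_lit 0x82000000c600000000000000000000003800000038000000c3000000c3000000a5000000a50000009f000000b3000000c7000000c7000000c7000000c7)
    (nat_lit 0xf906b85d021a0da06d84921bb0ce873c3aa1c10d785ec35a1bd11b07c870c2b810e0a0058a237109884c4322050de848449624915c086867433a16008d04ee2db14a87146d628710d89cc4e62a71c30ba067433a1b60c0834a27114a8a4c63223513989cc5f232d14006d86042341680b284821d51578cbc4c624f0c086f438e23b10e06d06d82c016b0b4055623f1388bc44661eb11d88ec46223b11b86ec4e22db11f87542401a811b05983b01b00d807804701b0162892434a27715589043681200fd07482401c40d806c0360128109873c5261c51788cbc3a41660f807c03ec1ba12b0a1826c1ce109867452a2951388abc3f42360f807c03ec1e20cf073839c1aa102870446a2870f5893c3881b00f106e83d01d40f207003e41f010c875463236b119898c2401d80fb07d83f81e80fc075040c20409085ec4e627311d86f43601e00e70a183a81c00be06b03581880de86bc4e621b11d86043601b00cf09583f01e40d805f03381ac12486f465a2a711d88ec2501b00d507384081f00d606203541a812586b45f2273118871c3602380e704d840c1f20ce06b03581aa)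
    (nat_lit 0xf91680b405a02d01680b405a02d01680b405a02d01680b405a00d707c8b405a02d01680b405a02d01680b405a02d01680b405a01740e186745a02d01680b405a02d01680b405a02d01680b405a010d0ae067433a2d01680b405a02d01680b405a02d01680b405a00da087058036c1681680b405a02d01680b405a02d01680b405a00db0a004683021650b40b405a02d01680b405a02d01680b405a01248b144ee1a51208aac2405a02d01680b405a02d01680b405a00dd88dc5b62710ea88fc3501202d01680b405a02d01680b405a00ce884c52a29515789c446c1fa0f81680b405a02d01680b405a00e7884c38a2931978bc42cc1d20f807c0b405a02d01680b405a00ea88646d631913188cc3b01200fb07d83d05a02d01680b405a00e0881450e23512787ac3601c40dd07883a81e82d01680b405a00d786f44362730c088ec3601b012b06783c81f80be1680b405a00bd84844e62730de88ec3c01b014307383801d40d605f0b405a00d6892c4e62f90e388c44701b009b07383e42060d606703545a00de892454e32d11d88ec3601280e706a83e02040c406b03501aa)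
    (nat_lit 5) (nat_lit 83)
    [[nat_lit 2,nat_lit 3,nat_lit 18,nat_lit 0x1002,nat_lit 0x10002,nat_lit 17,nat_lit 33,nat_lit 273,nat_lit 0x1011,
    nat_lit 0x10011,nat_lit 0x100011,nat_lit 0x10000011,nat_lit 257,nat_lit 0x1101,nat_lit 0x10101,nat_lit 0x1001,
    nat_lit 0x2001,nat_lit 0x11001,nat_lit 0x10001001,nat_lit 0x21001,nat_lit 0x10001,nat_lit 0x20001,
    nat_lit 0x100001,nat_lit 0x110001,nat_lit 0x10000001,nat_lit 0x10010001],[nat_lit 32,nat_lit 48,nat_lit 288,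
    nat_lit 0x10020,nat_lit 0x100020,nat_lit 0x10000020,nat_lit 272,nat_lit 0x10110,nat_lit 0x10000110,nat_lit 0x1110,
    nat_lit 0x1010,nat_lit 0x10001010,nat_lit 0x2010,nat_lit 0x11010,nat_lit 0x10010,nat_lit 0x20010,
    nat_lit 0x10010010,nat_lit 0x100010,nat_lit 0x100110,nat_lit 0x110010,nat_lit 0x10100010,nat_lit 0x1000010,
    nat_lit 0x10000010,nat_lit 0x20000010],[nat_lit 512,nat_lit 0x1200,nat_lit 0x10200,nat_lit 0x1100,
    nat_lit 0x10001100,nat_lit 0x11100,nat_lit 0x10100,nat_lit 0x20100,nat_lit 0x21100,nat_lit 0x30100,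
    nat_lit 0x110100,nat_lit 0x10010100,nat_lit 0x100100,nat_lit 0x10000100],[nat_lit 0x2000,nat_lit 0x12000,
    nat_lit 0x11000,nat_lit 0x21000,nat_lit 0x1001000,nat_lit 0x10001000],[nat_lit 0x20000,nat_lit 0x30000,
    nat_lit 0x40000,nat_lit 0x110000,nat_lit 0x1010000,nat_lit 0x10010000],[nat_lit 0x10100000],[],
    [nat_lit 0x20000000]]
    [.c (nat_lit 1) (nat_lit 2),.r (nat_lit 0xdbb) (nat_lit 8) [nat_lit 0x20000000001,nat_lit 0x318c6020861],
    .c (nat_lit 1) (nat_lit 0x18c02),.c (nat_lit 0) (nat_lit 0x1084210c62),.c (nat_lit 1) (nat_lit 0x6000c02),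
    .c (nat_lit 0) (nat_lit 0x10803),.c (nat_lit 2) (nat_lit 0x18c02),.c (nat_lit 1) (nat_lit 0x318002),
    .c (nat_lit 1) (nat_lit 0x18c6301043),.c (nat_lit 2) (nat_lit 0x6000c02),.c (nat_lit 1) (nat_lit 0xc0018802),
    .c (nat_lit 1) (nat_lit 0x18002),.c (nat_lit 1) (nat_lit 0x300802),.c (nat_lit 0) (nat_lit 0x1084010062),
    .c (nat_lit 1) (nat_lit 0x6300002),.c (nat_lit 1) (nat_lit 0x18c6318843),.c (nat_lit 0) (nat_lit 0x21084508a2),
    .c (nat_lit 1) (nat_lit 0x18c0319043),.c (nat_lit 0) (nat_lit 0x1084210062),.c (nat_lit 1) (nat_lit 0x18c4319843),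
    .c (nat_lit 0) (nat_lit 0x4000803),.c (nat_lit 2) (nat_lit 0xa010c02),.c (nat_lit 1) (nat_lit 0xc0001002),
    .c (nat_lit 1) (nat_lit 0xc6000802),.c (nat_lit 1) (nat_lit 0x802),.c (nat_lit 1) (nat_lit 0x6000002),
    .c (nat_lit 2) (nat_lit 2),.c (nat_lit 0) (nat_lit 0x318c6918e5),.c (nat_lit 2) (nat_lit 0x318002),
    .c (nat_lit 0) (nat_lit 0x31946718e5),.c (nat_lit 0) (nat_lit 0x80020003),.c (nat_lit 2) (nat_lit 0x18002),
    .c (nat_lit 0) (nat_lit 0x210003),.c (nat_lit 2) (nat_lit 0x6300002),.c (nat_lit 1) (nat_lit 0x318802),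
    .c (nat_lit 1) (nat_lit 0x18c6000843),.r (nat_lit 0xdbb) (nat_lit 8) [nat_lit 0x20000000001,nat_lit 65],
    .c (nat_lit 1) (nat_lit 0x18c6300843),.c (nat_lit 1) (nat_lit 0x294a519883),
    .r (nat_lit 0xdb3) (nat_lit 8) [nat_lit 0x20000000001,nat_lit 65],.c (nat_lit 2) (nat_lit 0x6010002),
    .c (nat_lit 0) (nat_lit 0x319c6518e5),.c (nat_lit 2) (nat_lit 0x6000002),.c (nat_lit 0) (nat_lit 0x80020003),
    .c (nat_lit 1) (nat_lit 0xc0319002),.c (nat_lit 0) (nat_lit 0x84010003),.c (nat_lit 1) (nat_lit 0xc0019002),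
    .c (nat_lit 0) (nat_lit 0x2084220863),.c (nat_lit 0) (nat_lit 0x10003),.c (nat_lit 1) (nat_lit 0x18802),
    .c (nat_lit 3) (nat_lit 2),.c (nat_lit 0) (nat_lit 0x1084310862),.c (nat_lit 1) (nat_lit 0x6500802),
    .c (nat_lit 1) (nat_lit 0x18c6018043),.c (nat_lit 0) (nat_lit 0x1084010862),.c (nat_lit 1) (nat_lit 0x18c0018843),
    .c (nat_lit 0) (nat_lit 0x4200003),.c (nat_lit 2) (nat_lit 0xa310002),.c (nat_lit 1) (nat_lit 0x18c4019043),
    .c (nat_lit 0) (nat_lit 0x1090410863),.c (nat_lit 1) (nat_lit 0xc6301002),.c (nat_lit 1) (nat_lit 0x6300802),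
    .c (nat_lit 1) (nat_lit 0xc0301802),.c (nat_lit 1) (nat_lit 0x301002),.c (nat_lit 4) (nat_lit 2),
    .c (nat_lit 1) (nat_lit 0x2946529883),.r (nat_lit 0xdbb) (nat_lit 8) [nat_lit 0x20000000001,nat_lit 0xc0200041],
    .r (nat_lit 0xdb3) (nat_lit 8) [nat_lit 0x20000000001,nat_lit 0xc0200041],.c (nat_lit 1) (nat_lit 0xc6319043),
    .c (nat_lit 1) (nat_lit 0x18c6318043),.c (nat_lit 5) (nat_lit 2),.c (nat_lit 0) (nat_lit 0x31a46318e5),
    .c (nat_lit 0) (nat_lit 0x21184210a3),.c (nat_lit 0) (nat_lit 0x88000003),.c (nat_lit 0) (nat_lit 0x2088210863),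
    .c (nat_lit 0) (nat_lit 0x4000003),.c (nat_lit 1) (nat_lit 0xc0001802),.c (nat_lit 8) (nat_lit 2)],
    .l (nat_lit 12) (nat_lit 900) (nat_lit 4) (nat_lit 0x198000001a2000001ab000001ab000001ce0000016b000001a90000016800000182000001820000019e000001de00000172000001c4000001f8000001c2) (nat_lit 0x56000000600000004d0000004d0000008d0000002a000000900000004f00000076000000760000001a0000005a00000034000000860000003600000000)
    (nat_lit 0xb413822f1fd10b12613a18e0c812218813e1640d816221614c0b41871550f618014219a0b40b41aa14815211c0ba1a21551fd15615e0d714f19317b1351051911c91771032031c718722f15e15611b18110713514f14f18113d1c11351bd18118012618114f1681a412418216c16c1a415a1c41580b41840f610b11b0d70de1680c411c12a10c1510b422c1c00f016b19a18e13517b11c18210215a19014a0b411a1751231730b414213a1071930c41240d81021380f218c10e0b40b41321680b412214f10510c16c0f214a10c10c1960e214e0be11a2020b40c814f13512a16c13819010c10c19612814a0be14c1b614813e13d1c90b415a10e11a1280e21c21441360ea1c21a21aa1881811911511a418c0b41961961a41c21e41581e21c211c0d81351031c01580b41230be0be1580ea15a10c1321381521641c117722c1c40b417514a14e1e413619015a1101c41a22161811c716b1841680b41b62021c21a21c41381c21f80ba1621bd2030f00b413217314c11a1e21c211013218c1c2)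
    (nat_lit 0xb43843843843843843843843843843843843843843843841380b438438438438438438438438438438438438438438422f1871563843843843843843843843843843843843843841fd15515e15638438438438438438438438438438438438410b0f60d711b16838438438438438438438438438438438412618014f1811a416838438438438438438438438438438413a1421931071240c410238438438438438438438438438418e19a17b13518211c15a1023843843843843843843843840c80b413514f16c12a19013810c3843843843843843843841220b410514f16c10c14a0f210c10c3843843843843843841881aa1911811a41510b418c1961961c238438438438438413e1481c913d15a0b411a10e0e21281441c23843843843841641521771c11c41d01750b414e14a13616815a3843843840d811c1031351581c01230b40be0be0ea15810c15a3843841620ba18b1bd0b40f017313211a14c1681e21321101c23841ee1a21c718118416b0b41681a61b61a21c21381681f81c2)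
    (nat_lit 6) (nat_lit 113)
    [[nat_lit 17,nat_lit 0x10011,nat_lit 0x11011,nat_lit 0x20011,nat_lit 0x1001,nat_lit 0x11001,nat_lit 0x10001,
    nat_lit 0x20001,nat_lit 0x100001,nat_lit 0x100101,nat_lit 0x101001,nat_lit 0x110001,nat_lit 0x120001,
    nat_lit 0x200001,nat_lit 0x210001,nat_lit 0x1100001,nat_lit 0x1110001,nat_lit 0x10100001,nat_lit 0x10000001,
    nat_lit 0x10010001,nat_lit 0x10000011,nat_lit 0x10010011,nat_lit 0x10011001,nat_lit 0x10110001,
    nat_lit 0x20010001],[nat_lit 32,nat_lit 0x1020,nat_lit 0x10020,nat_lit 272,nat_lit 0x10110,nat_lit 0x1010,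
    nat_lit 0x2010,nat_lit 0x10001010,nat_lit 0x11010,nat_lit 0x10010,nat_lit 0x20010,nat_lit 0x1010010,
    nat_lit 0x20110,nat_lit 0x11110,nat_lit 0x110110,nat_lit 0x110010,nat_lit 0x10010010,nat_lit 0x1000010,
    nat_lit 0x10000010,nat_lit 0x20000010],[nat_lit 512,nat_lit 0x1100,nat_lit 0x10100,nat_lit 0x11100,
    nat_lit 0x20100,nat_lit 0x110100,nat_lit 0x10010100,nat_lit 0x100100,nat_lit 0x1000100,nat_lit 0x10000100,
    nat_lit 0x10001100],[nat_lit 0x2000,nat_lit 0x3000,nat_lit 0x1002000,nat_lit 0x10002000,nat_lit 0x20002000,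
    nat_lit 0x12000,nat_lit 0x11000,nat_lit 0x10011000,nat_lit 0x1011000,nat_lit 0x101000,nat_lit 0x111000,
    nat_lit 0x10101000,nat_lit 0x1001000,nat_lit 0x10001000,nat_lit 0x11001000,nat_lit 0x20001000,nat_lit 0x30001000],
    [nat_lit 0x20000,nat_lit 0x30000,nat_lit 0x120000,nat_lit 0x110000,nat_lit 0x1110000,nat_lit 0x1010000,
    nat_lit 0x10010000],[nat_lit 0x200000,nat_lit 0x1100000,nat_lit 0x10100000,nat_lit 0x20100000],
    [nat_lit 0x2000000],[nat_lit 0x20000000,nat_lit 0x30000000,nat_lit 0x40000000]]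
    [.c (nat_lit 0) (nat_lit 0xc00c0000006),.c (nat_lit 4) (nat_lit 0x84080080007),
    .c (nat_lit 1) (nat_lit 0xc31800c0006),.c (nat_lit 0) (nat_lit 0x800c0140006),
    .c (nat_lit 0) (nat_lit 0x2080000007),.c (nat_lit 0) (nat_lit 0x31400c0006),.c (nat_lit 0) (nat_lit 0xc00c0006),
    .c (nat_lit 0) (nat_lit 0x800c0140006),.c (nat_lit 5) (nat_lit 0xc3003083187),
    .c (nat_lit 0) (nat_lit 0x20020801c6),.c (nat_lit 5) (nat_lit 0xc0003183187),
    .c (nat_lit 0) (nat_lit 0x821420021c6),.c (nat_lit 0) (nat_lit 0x820020c21c6),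
    .c (nat_lit 0) (nat_lit 0x422210410c58),.c (nat_lit 0) (nat_lit 0x194294294f5e),
    .c (nat_lit 0) (nat_lit 0x20000821c6),.c (nat_lit 0) (nat_lit 0x821c00021c6),
    .c (nat_lit 0) (nat_lit 0x820c20821c6),.c (nat_lit 5) (nat_lit 0xc0100006),.c (nat_lit 0) (nat_lit 0xc00c0006),
    .c (nat_lit 0) (nat_lit 0xc00c0000006),.c (nat_lit 0) (nat_lit 0xc00c00c0006),
    .c (nat_lit 1) (nat_lit 0x30800c0006),.c (nat_lit 0) (nat_lit 0x820820021c6),.c (nat_lit 0) (nat_lit 0xc00c0006),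
    .c (nat_lit 2) (nat_lit 2),.c (nat_lit 0) (nat_lit 0x143000000006),.c (nat_lit 0) (nat_lit 0x1400000c0006),
    .c (nat_lit 5) (nat_lit 0xc0000103006),.c (nat_lit 0) (nat_lit 0xc00000c3006),
    .c (nat_lit 0) (nat_lit 0x20a00000001f),.c (nat_lit 0) (nat_lit 0x84000000007),
    .c (nat_lit 5) (nat_lit 0xc3000100006),.c (nat_lit 0) (nat_lit 0xc30000c0006),
    .r (nat_lit 92) (nat_lit 11) [nat_lit 0x5000005380303,nat_lit 0x20003820001c3,nat_lit 0x53cf3c53ea7c3,
    nat_lit 0x500000a000303,nat_lit 0x8380008000643,nat_lit 0x400000b000783],.c (nat_lit 0) (nat_lit 0xc0000140006),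
    .c (nat_lit 0) (nat_lit 0xc00030c0006),.c (nat_lit 4) (nat_lit 0x84000102007),
    .c (nat_lit 1) (nat_lit 0xc31000c3006),.c (nat_lit 0) (nat_lit 0x8a28a0007de),
    .c (nat_lit 1) (nat_lit 0x21820021c6),.c (nat_lit 2) (nat_lit 0x800000c0006),
    .c (nat_lit 5) (nat_lit 0xc0003100006),.c (nat_lit 5) (nat_lit 0xc0000200006),
    .r (nat_lit 192) (nat_lit 10) [nat_lit 0x204000003,nat_lit 0x100440000003,nat_lit 0x140100003,
    nat_lit 0x4000500000003,nat_lit 0x4100000003,nat_lit 0x30002c0000183],.c (nat_lit 3) (nat_lit 2),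
    .c (nat_lit 0) (nat_lit 0x82000002007),.c (nat_lit 0) (nat_lit 0x84007),.c (nat_lit 0) (nat_lit 0x2000082007),
    .c (nat_lit 0) (nat_lit 0x143006),.c (nat_lit 5) (nat_lit 0xc30c3100187),.c (nat_lit 5) (nat_lit 0x83006),
    .c (nat_lit 0) (nat_lit 0xc30c30c0187),.c (nat_lit 1) (nat_lit 0x102002007),.c (nat_lit 0) (nat_lit 0x2003),
    .c (nat_lit 1) (nat_lit 0x2100002007),.c (nat_lit 4) (nat_lit 2),.c (nat_lit 0) (nat_lit 0x2000000003),
    .c (nat_lit 0) (nat_lit 0x4002000007),.c (nat_lit 0) (nat_lit 0x84000000007),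
    .c (nat_lit 1) (nat_lit 0x4100000007),.c (nat_lit 0) (nat_lit 0x4000080007),.c (nat_lit 1) (nat_lit 0x2100080007),
    .c (nat_lit 0) (nat_lit 0xa000200019),.c (nat_lit 0) (nat_lit 0x2002080007),
    .c (nat_lit 0) (nat_lit 0xc00c30c3187),.r (nat_lit 92) (nat_lit 11) [nat_lit 0x500514028c343,
    nat_lit 0x2002400087183,nat_lit 0x53c514f14c783,nat_lit 0x500514e14c343,nat_lit 0x8388200219603,
    nat_lit 0x400b2c02de7c3],.c (nat_lit 0) (nat_lit 0xc00c30c3187),.c (nat_lit 0) (nat_lit 0x82002000007),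
    .c (nat_lit 0) (nat_lit 0x2000000009),.c (nat_lit 1) (nat_lit 0x2102000007),.c (nat_lit 0) (nat_lit 0x2000000005),
    .c (nat_lit 0) (nat_lit 0x6000000009),.c (nat_lit 5) (nat_lit 2),.c (nat_lit 0) (nat_lit 0xc0002),
    .c (nat_lit 0) (nat_lit 0x1041041c434c),.c (nat_lit 0) (nat_lit 0xc30c3003187),
    .c (nat_lit 5) (nat_lit 0xc30c0103187),.c (nat_lit 0) (nat_lit 0x408000d),.c (nat_lit 0) (nat_lit 0xc0000080007),
    .c (nat_lit 6) (nat_lit 2),.c (nat_lit 0) (nat_lit 0xc30c00c3187),.c (nat_lit 1) (nat_lit 0xc30830c3187),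
    .c (nat_lit 0) (nat_lit 0x14514514530b),.c (nat_lit 7) (nat_lit 2),.c (nat_lit 8) (nat_lit 2),
    .c (nat_lit 0) (nat_lit 0x6000000009),.c (nat_lit 5) (nat_lit 0x100002)]]

/-- nodes -/
noncomputable def rD8k_3_8 : List RJ :=
  [.l (nat_lit 12) (nat_lit 960) (nat_lit 3) (nat_lit 0x1c6000001fc0000019e000001c8000001c80000019a0000020a0000018a0000018f000001830000019f000001b1000001f7000001f70000017f0000019f) (nat_lit 0xe00000044000000420000006c00000070000000420000008000000000000000870000007b000000590000006b00000013000000130000006b0000008b)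
    (nat_lit 0x1e01c611413e1241841461c214714b15d15b1d71c315b1331fa1e018619016e19c11a0f017518d1a31891fd1e91ad1a119013e17a12623a1901121bc11f18514513315b18b10b0ff1861141b617a2301860f01c80f51a519910112519315d13d19c1841861901581560f00f019d1a51911a91b518b1cd1cd16e12423023a12a1580f019a12711f1031671351871331030f01c21c81bc19a0f018a20a14b1b91b118b2032351d11d111a1460f01120f00f010e18a10310f13111f18b1bd11f0ff18d14b1a518511f1a510f1b91081100f012417c17c1240f01751470f511f12719d10314b0fc10812a11817413c1180f018915b1011331671a911f18b11812417a13419418c12c1101a315d1991451031911311b112a0f018c17a17a19e1361561e91c319318b18718b1bd23513c17c19e18c1b41b019c1901fd1d712515b1351b518b20317417c17a1941e41b419416c1a113313d0ff1031cd0ff1d10f00f015611016c1900f00f41ad15b15d10b1331cd11f1d111812413612c19419c0f00f0)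
    (nat_lit 0x1e03c03c03c03c03c03c03c03c03c03c03c03c03c03c03c01c61e03c03c03c03c03c03c03c03c03c03c03c03c03c03c011418617a3c03c03c03c03c03c03c03c03c03c03c03c03c013e19012617a3c03c03c03c03c03c03c03c03c03c03c03c012416e23a2301583c03c03c03c03c03c03c03c03c03c03c018419c1901861561583c03c03c03c03c03c03c03c03c03c014611a1120f00f00f018a3c03c03c03c03c03c03c03c03c01c20f01bc1c80f019a20a18a3c03c03c03c03c03c03c03c014717511f0f519d12714b1031083c03c03c03c03c03c03c014b18d1851a51a511f1b910f1101083c03c03c03c03c03c015d1a31451991911031b11310f012a17a3c03c03c03c03c015b1891331011a916718b11f12411813417a3c03c03c03c01d71fd15b1251b513520318b17c17419417a1b43c03c03c01c31e918b19318b1872351bd17c13c18c19e1b01b43c03c015b1ad10b15d1cd1331d111f12411812c13619c1940f03c01331a10ff13d1cd1031d10ff0f00f011015619016c0f40f0)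
    (nat_lit 6) (nat_lit 71)
    [[nat_lit 2,nat_lit 3,nat_lit 258,nat_lit 0x1002,nat_lit 0x1000002,nat_lit 17,nat_lit 257,nat_lit 0x1101,
    nat_lit 0x1000101,nat_lit 0x1001,nat_lit 0x2001,nat_lit 0x11001,nat_lit 0x1001001,nat_lit 0x10001,
    nat_lit 0x110001,nat_lit 0x10010001,nat_lit 0x100001,nat_lit 0x200001,nat_lit 0x1100001,nat_lit 0x1000001,
    nat_lit 0x10000001],[nat_lit 32,nat_lit 272,nat_lit 0x1010,nat_lit 0x100010,nat_lit 0x1000010],[nat_lit 512,
    nat_lit 0x1200,nat_lit 0x1100,nat_lit 0x2100,nat_lit 0x11100,nat_lit 0x1001100,nat_lit 0x10100,nat_lit 0x110100,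
    nat_lit 0x10010100,nat_lit 0x100100,nat_lit 0x1100100,nat_lit 0x1000100,nat_lit 0x10000100],[nat_lit 0x2000,
    nat_lit 0x3000,nat_lit 0x12000,nat_lit 0x1002000,nat_lit 0x11000,nat_lit 0x111000,nat_lit 0x10011000,
    nat_lit 0x101000,nat_lit 0x201000,nat_lit 0x1001000,nat_lit 0x1101000,nat_lit 0x10001000],[nat_lit 0x20000,
    nat_lit 0x120000,nat_lit 0x110000,nat_lit 0x210000,nat_lit 0x10110000,nat_lit 0x1010000,nat_lit 0x11010000,
    nat_lit 0x10010000],[nat_lit 0x200000,nat_lit 0x10100000],[nat_lit 0x2000000,nat_lit 0x11000000],[]]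
    [.c (nat_lit 1) (nat_lit 2),.c (nat_lit 0) (nat_lit 0x347185145309),.c (nat_lit 0) (nat_lit 0x34718514530d),
    .c (nat_lit 0) (nat_lit 0x343085145309),.c (nat_lit 6) (nat_lit 0x100080000003),
    .c (nat_lit 0) (nat_lit 0x347184145319),.c (nat_lit 0) (nat_lit 0x34718514530d),
    .c (nat_lit 0) (nat_lit 0x1c00030c3187),.c (nat_lit 0) (nat_lit 0x3470c5145309),
    .c (nat_lit 1) (nat_lit 0x3080000004),.c (nat_lit 0) (nat_lit 0x3420c5145309),
    .c (nat_lit 0) (nat_lit 0x1c00030c0187),.c (nat_lit 6) (nat_lit 0x202080000005),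
    .c (nat_lit 0) (nat_lit 0x347185144319),.c (nat_lit 0) (nat_lit 0x9474c514d318),
    .c (nat_lit 0) (nat_lit 0x347185104319),.c (nat_lit 0) (nat_lit 0x80080000003),
    .c (nat_lit 0) (nat_lit 0x7472c5145308),.c (nat_lit 0) (nat_lit 0xc0000000002),
    .c (nat_lit 0) (nat_lit 0x3470c5145309),.c (nat_lit 0) (nat_lit 0x347185105319),.c (nat_lit 2) (nat_lit 2),
    .r (nat_lit 0xbaa) (nat_lit 12) [nat_lit 0xd18600514c342,nat_lit 0x100001,nat_lit 0xc000000000001,
    nat_lit 0x4000001,nat_lit 0x100000001],.c (nat_lit 0) (nat_lit 0x3461c4145319),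
    .c (nat_lit 0) (nat_lit 0x6471c914530c),.r (nat_lit 0xbaa) (nat_lit 12) [nat_lit 0x1860c0000181,nat_lit 0x100001,
    nat_lit 0xc000000000001,nat_lit 0x4000001,nat_lit 0x100000001],.c (nat_lit 3) (nat_lit 2),
    .r (nat_lit 927) (nat_lit 9) [nat_lit 0x80000001,nat_lit 0xd1c714514c002,nat_lit 0xc18610410d181,nat_lit 0x80001,
    nat_lit 0x6000000000001,nat_lit 0x2000001],.c (nat_lit 0) (nat_lit 0x3461c5145319),
    .c (nat_lit 0) (nat_lit 0x3461c514530d),.c (nat_lit 0) (nat_lit 0x1c00030c0187),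
    .c (nat_lit 0) (nat_lit 0x3431c5145309),.c (nat_lit 0) (nat_lit 0x34718514030d),
    .c (nat_lit 6) (nat_lit 0x60618410034c),.r (nat_lit 0xbaa) (nat_lit 12) [nat_lit 0xd18614000c342,nat_lit 0x100001,
    nat_lit 0xc000000000001,nat_lit 0x4000001,nat_lit 0x100000001],
    .r (nat_lit 0xbaa) (nat_lit 12) [nat_lit 0x49214514c344,nat_lit 0x100001,nat_lit 0xc000000000001,
    nat_lit 0x4000001,nat_lit 0x100000001],.c (nat_lit 0) (nat_lit 0xc0000000002),
    .c (nat_lit 0) (nat_lit 0x3471c514530d),.c (nat_lit 0) (nat_lit 0x34718500530d),.c (nat_lit 4) (nat_lit 2),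
    .c (nat_lit 0) (nat_lit 0x3461c5145309),.c (nat_lit 0) (nat_lit 0x3461c514030d),
    .c (nat_lit 6) (nat_lit 0x102000000003),.c (nat_lit 0) (nat_lit 0x3461c5144319),
    .c (nat_lit 0) (nat_lit 0x9531c514d318),.c (nat_lit 0) (nat_lit 0x3461c5104319),
    .c (nat_lit 0) (nat_lit 0x82000000003),.c (nat_lit 0) (nat_lit 0x74b1c5145308),
    .c (nat_lit 0) (nat_lit 0x3431c5145309),.c (nat_lit 0) (nat_lit 0xc0000000002),
    .c (nat_lit 0) (nat_lit 0x3461c5105319),.c (nat_lit 5) (nat_lit 2),.c (nat_lit 0) (nat_lit 0x6471c514d30c),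
    .r (nat_lit 0xbaa) (nat_lit 12) [nat_lit 0x61860000801c1,nat_lit 0x100001,nat_lit 0xc000000000001,
    nat_lit 0x4000001,nat_lit 0x100000001],.c (nat_lit 0) (nat_lit 0x6471c5147306),
    .c (nat_lit 0) (nat_lit 0x6471c524930c),.c (nat_lit 0) (nat_lit 0x3471c514030d),
    .r (nat_lit 0xbaa) (nat_lit 12) [nat_lit 0x1860030c0181,nat_lit 0x100001,nat_lit 0xc000000000001,
    nat_lit 0x4000001,nat_lit 0x100000001],.c (nat_lit 0) (nat_lit 0x82007),.c (nat_lit 6) (nat_lit 2),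
    .r (nat_lit 0xbaa) (nat_lit 12) [nat_lit 0x61860020001c1,nat_lit 0x100001,nat_lit 0xc000000000001,
    nat_lit 0x4000001,nat_lit 0x100000001],.c (nat_lit 7) (nat_lit 2),.c (nat_lit 0) (nat_lit 0x3471c500530d)],
    .l (nat_lit 13) (nat_lit 0x5a0) (nat_lit 3) (nat_lit 0x2a30000025f00000257000002570000027e0000028a0000029b0000029b000002520000022a000002ae000002ae0000022a0000022a0000025e000002ce) (nat_lit 0x6f0000002b000000770000007700000044000000500000003300000033000000a40000007c0000002000000020000000a4000000a40000000000000070)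
    (nat_lit 0x1680de845820e1c88b443f42700b488dc44622f11485a45461971130b402d41e8167883c3dc22c0dd878c3ca1850dd86ec4fa1710f408383c01aa1098a14448170136886446e23711888343761e70b508b042c1e0109881c4a01ca12186cc46e2370d9890c3b221d1078b4440e28514a07e04e624b0ed075839c1ce0d207684fc20e1678e444262131230a504562570c008a04d425e12005a05141c611609c039417012b892c49c268101892c5f22e112587dc2d21d10f707e84a022411589cc4d024e0ea887c5822a910585d45162570f188dc366219114075843e24b0c007585682540c105a05901ce0dd85a448626d0c007683aa2030ea06003cc20a0b406184fc1960c288bc46e23712f07385522e1105095051c24011708b868825c0f2888c46e23713507385822f90f30ad051c28e105082868825c0dd85a448620d0b407682ea1f70c305a041422e0b406185141ba0dd88a4366231120069041624b0b4060841422e0b405a058c1ba0b8865c43a1e70e308384ae1d10cb07384b825c0dd06e846820c13e8a8c3b21bb14509f851616913f0b206883441630a28398234)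
    (nat_lit 0x1681680b405a02d01680b405a02d01680b405a02d01680b405a01bd0b40b405a02d01680b405a02d01680b405a02d01680b405a011605a83c05a02d01680b405a02d01680b405a02d01680b405a010707a03541e02d01680b405a02d01680b405a02d01680b405a01c88b3c42621314a1680b405a02d01680b405a02d01680b405a0168883c50a2070fc0a50b405a02d01680b405a02d01680b405a00fd07b844825013988ac49c5a02d01680b405a02d01680b405a013808b02e01ca125895c4d024e2d01680b405a02d01680b405a00b486ec4da2430ed06004061d50c01680b405a02d01680b405a011b878c4321b30eb08a049621f0eb0600b405a02d01680b405a0111879446e2370e709a85f22c115a079851c5a02d01680b405a0117861446e2370e709785c22a912a082848028e2d01680b405a011486ec4621b30d2090049620b0c105a045c20a0b41680b405a00b486ec41a2430ed05a03ee1750b4061845c20a0c305a0b405a015189f43761d913f0a282d228b16409f86883441450b184685a00cb85c43ce21d10707183a22570e706584b825c0dd06e8418234)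
    (nat_lit 5) (nat_lit 101)
    [[nat_lit 2,nat_lit 18,nat_lit 0x1002,nat_lit 0x10000002,nat_lit 17,nat_lit 0x1001,nat_lit 0x10001,
    nat_lit 0x10011,nat_lit 0x11001,nat_lit 0x10010001,nat_lit 0x100001,nat_lit 0x1000001,nat_lit 0x1000011,
    nat_lit 0x1001001,nat_lit 0x1100001,nat_lit 0x11000001,nat_lit 0x10000001],[nat_lit 32,nat_lit 48,nat_lit 0x1020,
    nat_lit 0x10020,nat_lit 0x100020,nat_lit 0x1000020,nat_lit 0x10000020,nat_lit 272,nat_lit 0x1110,nat_lit 0x100110,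
    nat_lit 0x10000110,nat_lit 0x1010,nat_lit 0x2010,nat_lit 0x11010,nat_lit 0x101010,nat_lit 0x10001010,
    nat_lit 0x1001010,nat_lit 0x10010,nat_lit 0x100010,nat_lit 0x110010,nat_lit 0x1000010,nat_lit 0x1010010,
    nat_lit 0x11000010,nat_lit 0x10000010],[nat_lit 512,nat_lit 0x1100,nat_lit 0x100100,nat_lit 0x1000100,
    nat_lit 0x10000100],[nat_lit 0x2000,nat_lit 0x3000,nat_lit 0x102000,nat_lit 0x10002000,nat_lit 0x11000,
    nat_lit 0x1011000,nat_lit 0x101000,nat_lit 0x1001000,nat_lit 0x10001000,nat_lit 0x11001000],[nat_lit 0x20000,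
    nat_lit 0x110000,nat_lit 0x1010000,nat_lit 0x10010000,nat_lit 0x11010000],[nat_lit 0x200000,nat_lit 0x1100000],
    [nat_lit 0x2000000,nat_lit 0x12000000,nat_lit 0x11000000],[]]
    [.c (nat_lit 1) (nat_lit 2),.c (nat_lit 0) (nat_lit 0x80001805),.c (nat_lit 0) (nat_lit 0x1000001805),
    .c (nat_lit 6) (nat_lit 0x8000803),.c (nat_lit 0) (nat_lit 0x80001805),.c (nat_lit 0) (nat_lit 0x1000001805),
    .c (nat_lit 1) (nat_lit 0x300804),.c (nat_lit 0) (nat_lit 0x80201005),.c (nat_lit 0) (nat_lit 0x1000201005),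
    .c (nat_lit 6) (nat_lit 0x10200805),.c (nat_lit 0) (nat_lit 0x4000803),.c (nat_lit 0) (nat_lit 0x188a318085),
    .c (nat_lit 0) (nat_lit 0x188a318085),.c (nat_lit 0) (nat_lit 0xa318085),.c (nat_lit 6) (nat_lit 0x18d0318085),
    .c (nat_lit 6) (nat_lit 0x18d8318085),.c (nat_lit 0) (nat_lit 0x80000805),.c (nat_lit 2) (nat_lit 2),
    .r (nat_lit 947) (nat_lit 1) [nat_lit 0x3b00600082,nat_lit 0x7334ed3b122,nat_lit 0x30007000a2,nat_lit 0x630002,
    nat_lit 65,nat_lit 0x63800000082],.r (nat_lit 947) (nat_lit 1) [nat_lit 0x32b00600082,nat_lit 0x3134ed3b122,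
    nat_lit 0x220007000a2,nat_lit 0x630002,nat_lit 0x31000000082,nat_lit 0x21800000041],
    .c (nat_lit 0) (nat_lit 0x188a018c85),.c (nat_lit 6) (nat_lit 0xcc000002),.c (nat_lit 0) (nat_lit 0x391a739d8d),
    .c (nat_lit 6) (nat_lit 0xc8000002),.c (nat_lit 6) (nat_lit 0xd0018004),
    .r (nat_lit 637) (nat_lit 12) [nat_lit 0x45f5eb7f122,nat_lit 0x2101c2000a2,nat_lit 0x31b80300081,
    nat_lit 0x210002000a1,nat_lit 0x210002700a2,nat_lit 0x74000700182],.c (nat_lit 0) (nat_lit 0x8a018004),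
    .c (nat_lit 1) (nat_lit 0x80011005),.c (nat_lit 2) (nat_lit 0x1880000004),
    .r (nat_lit 947) (nat_lit 1) [nat_lit 0x51b00600082,nat_lit 0x21b4ed3b122,nat_lit 0x410007000a2,nat_lit 0x630002,
    nat_lit 0x31000000041,nat_lit 0x21800000082],.c (nat_lit 0) (nat_lit 0xa018c85),
    .c (nat_lit 6) (nat_lit 0x18d8000004),.c (nat_lit 6) (nat_lit 0x18d0000004),.c (nat_lit 0) (nat_lit 0xda739d8d),
    .c (nat_lit 0) (nat_lit 0x8060000d),.c (nat_lit 0) (nat_lit 0x1800318c85),.c (nat_lit 6) (nat_lit 0xc8300004),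
    .c (nat_lit 1) (nat_lit 0x10082118a4),.c (nat_lit 0) (nat_lit 0x188a018c85),.c (nat_lit 6) (nat_lit 0x1808318c85),
    .c (nat_lit 0) (nat_lit 0x80000007),.c (nat_lit 3) (nat_lit 2),.c (nat_lit 6) (nat_lit 0x1810018004),
    .c (nat_lit 0) (nat_lit 0x8a018004),.c (nat_lit 6) (nat_lit 0x18c8300c85),.c (nat_lit 0) (nat_lit 0x18002),
    .c (nat_lit 4) (nat_lit 2),.r (nat_lit 947) (nat_lit 1) [nat_lit 0x70300600082,nat_lit 0x63b4ed3b122,
    nat_lit 0x600007000a2,nat_lit 0x630002,nat_lit 0x73000000082,nat_lit 65],.c (nat_lit 6) (nat_lit 0x180c000002),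
    .c (nat_lit 6) (nat_lit 0x1808000002),.c (nat_lit 0) (nat_lit 0x100060000d),.c (nat_lit 0) (nat_lit 0x10ca018c85),
    .c (nat_lit 0) (nat_lit 0xc0318c85),.c (nat_lit 1) (nat_lit 0x882118a4),.c (nat_lit 0) (nat_lit 0x1000000007),
    .c (nat_lit 6) (nat_lit 0xc8318c85),.c (nat_lit 5) (nat_lit 2),.c (nat_lit 0) (nat_lit 0x4200003),
    .c (nat_lit 0) (nat_lit 0x188a018c85),.c (nat_lit 0) (nat_lit 0x80200005),.c (nat_lit 6) (nat_lit 0x18d8018c85),
    .c (nat_lit 6) (nat_lit 2),.c (nat_lit 0) (nat_lit 0x1800318c85),.c (nat_lit 7) (nat_lit 2),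
    .c (nat_lit 6) (nat_lit 0x18d0318c83),.r (nat_lit 637) (nat_lit 12) [nat_lit 0x45d56b5d102,nat_lit 0x21120211482,
    nat_lit 0x31a863190a1,nat_lit 0x21104211481,nat_lit 0x21104281482,nat_lit 0x7434e73b1a2]]]

/-- nodes -/
noncomputable def rD8k_3_9 : List RJ :=
  [.l (nat_lit 13) (nat_lit 0x5f0) (nat_lit 4) (nat_lit 0x338000003380000029800000254000002be000003020000033b0000033b00000378000002ae000002980000025c000002da000002da0000025c000002d0) (nat_lit 0x400000004000000124000000e000000076000000ba0000003d0000003d000000ca000000000000011c000000e00000009e0000009e000000a80000011c)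
    (nat_lit 0x17c0be04282581970be85422fb10709184382501850c2852021c17c0be03f025817b0b084d22eb0f50b184382181730b9852021c12c09602601b811907e859a2271070ca826023c0fd07e83e01300fc08502601300dd06685321f30cb0ac82702380df07082601381610be83341fa13608104462a509808f032c1d2110088042c19a17b0cb837423214609b058a2c50a40c083e422210c04c04b41e61758bec3e62271628a945fc2fe1388cec6a634b14e8a4444e26b1348a845322cd162888c5fc2fe0f98cec54a29d10d888c70a3c9163091856432a18108f067633b1360de05ac31609809506542de0f5083832c20e0a404c03e627113609b03241ce0a0095041c19610c094047023c111074853a34b0e70c582701300fb07e84a024c10e08702701300f9065854a3530c90b582801380fd06f82881401730c283841fa098088044629112a095037c1fa11e08f04641821730c2837c1fa10c088043629d0a004c03f41f611e08f04641be10e08702701300f3066879226b0cb0b7828024c0df06082881401480a402601f012d085870a2271070ca828825011908c8450144)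
    (nat_lit 0x17c17c0be05f02f817c0be05f02f817c0be05f02f817c0be05f017c0be0be05f02f817c0be05f02f817c0be05f02f817c0be05f010a07e02605f02f817c0be05f02f817c0be05f02f817c0be05f012c09603701302f817c0be05f02f817c0be05f02f817c0be05f01970bd84641ba13617c0be05f02f817c0be05f02f817c0be05f017d0b083f419a10209b0be05f02f817c0be05f02f817c0be05f015089a459a2991118b145fc5f02f817c0be05f02f817c0be05f017d8bac44e1f31528b145fc2fe2f817c0be05f02f817c0be05f010707a841c19609805204e21f313617c0be05f02f817c0be05f01230b186542b211e0c0867633b1bc09b0be05f02f817c0be05f010e08702601380cb07c86462a516b06482705f02f817c0be05f012808604782380e9088869629d18b07382601382f817c0be05f01850b983f41be110086053a21b09805003ec1fa11e17c0be05f01850b983f41c211004c052222312a09503f41be11e08f0be05f01480a403e013010b096844e38519508384a014411908c82885f010e08702601380cd07984d639d15906584981400c106f8280144)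
    (nat_lit 6) (nat_lit 111)
    [[nat_lit 2,nat_lit 3,nat_lit 4,nat_lit 0x1000003,nat_lit 18,nat_lit 258,nat_lit 514,nat_lit 0x100002,
    nat_lit 0x1000002,nat_lit 0x2000002,nat_lit 17,nat_lit 273,nat_lit 0x1011,nat_lit 0x100011,nat_lit 0x1000011,
    nat_lit 257,nat_lit 513,nat_lit 0x100101,nat_lit 0x1000101,nat_lit 0x2000101,nat_lit 769,nat_lit 0x1000201,
    nat_lit 0x1111,nat_lit 0x10000101,nat_lit 0x1001,nat_lit 0x10011,nat_lit 0x100001,nat_lit 0x1100001,
    nat_lit 0x1000001,nat_lit 0x2000001,nat_lit 0x3000001,nat_lit 0x1000111,nat_lit 0x2000011,nat_lit 0x11000001,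
    nat_lit 0x10000001],[nat_lit 32,nat_lit 0x1020,nat_lit 0x101020,nat_lit 0x100020,nat_lit 272,nat_lit 528,
    nat_lit 0x1110,nat_lit 0x100110,nat_lit 0x1000110,nat_lit 0x1010,nat_lit 0x101110,nat_lit 0x1210,nat_lit 0x11010,
    nat_lit 0x101010,nat_lit 0x201010,nat_lit 0x1001010,nat_lit 0x10010,nat_lit 0x100010,nat_lit 0x200010,
    nat_lit 0x1100010,nat_lit 0x1000010,nat_lit 0x2000010,nat_lit 0x1000210],[nat_lit 512,nat_lit 768,nat_lit 0x400,
    nat_lit 0x1000300,nat_lit 0x1200,nat_lit 0x100200,nat_lit 0x1000200,nat_lit 0x2000200,nat_lit 0x10000200,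
    nat_lit 0x1100,nat_lit 0x100100,nat_lit 0x1100100,nat_lit 0x1100200,nat_lit 0x1000100,nat_lit 0x1001100,
    nat_lit 0x1010100,nat_lit 0x2000100,nat_lit 0x2100100,nat_lit 0x3000100,nat_lit 0x11000100,nat_lit 0x10000100],
    [nat_lit 0x2000,nat_lit 0x11000,nat_lit 0x101000,nat_lit 0x1001000,nat_lit 0x10001000],[nat_lit 0x110000,
    nat_lit 0x1010000,nat_lit 0x10010000],[nat_lit 0x200000,nat_lit 0x1100000,nat_lit 0x2100000],[nat_lit 0x2000000,
    nat_lit 0x3000000,nat_lit 0x4000000,nat_lit 0x12000000,nat_lit 0x11000000],[]]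
    [.c (nat_lit 1) (nat_lit 2),.c (nat_lit 4) (nat_lit 0xc0080002),
    .r (nat_lit 0xdbb) (nat_lit 13) [nat_lit 0x3000000081,nat_lit 0x2080000000003],
    .r (nat_lit 0xdbb) (nat_lit 4) [nat_lit 0x3000000081,nat_lit 0x2080000000003],.c (nat_lit 0) (nat_lit 0x80002003),
    .c (nat_lit 4) (nat_lit 0x3140180006),.r (nat_lit 0xdbb) (nat_lit 13) [nat_lit 0x143000000183,
    nat_lit 0x2080000000003],.c (nat_lit 0) (nat_lit 0x82000003),.c (nat_lit 0) (nat_lit 0x14510d1c330d),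
    .c (nat_lit 4) (nat_lit 0x10400c30c346),.c (nat_lit 0) (nat_lit 0x80002003),.c (nat_lit 0) (nat_lit 0x2100006007),
    .c (nat_lit 0) (nat_lit 0x80084005),.r (nat_lit 0xdb7) (nat_lit 11) [nat_lit 0x2002000000003,
    nat_lit 0x30c00000061c3],.c (nat_lit 0) (nat_lit 0x14518d1c030d),.c (nat_lit 1) (nat_lit 0x3080000006),
    .c (nat_lit 4) (nat_lit 0x50c0180006),.c (nat_lit 0) (nat_lit 0x2106000007),
    .c (nat_lit 0) (nat_lit 0x14000d1c330d),.c (nat_lit 4) (nat_lit 0x10208c30c346),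
    .r (nat_lit 0xdbb) (nat_lit 13) [nat_lit 0xc0000000081,nat_lit 0x2080000000003],
    .r (nat_lit 0xdbb) (nat_lit 4) [nat_lit 0x143000000183,nat_lit 0x2080000000003],
    .c (nat_lit 0) (nat_lit 0x50c01cd00c),.r (nat_lit 0xdb7) (nat_lit 11) [nat_lit 0x2002000000003,
    nat_lit 0x31451c01c6183],.c (nat_lit 0) (nat_lit 0x10018a00d),.c (nat_lit 4) (nat_lit 0x80080186007),
    .c (nat_lit 0) (nat_lit 0x82000003),.c (nat_lit 0) (nat_lit 0x1451801cd30d),
    .c (nat_lit 0) (nat_lit 0x14500d1c730d),.c (nat_lit 1) (nat_lit 0x10418c18c346),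
    .c (nat_lit 0) (nat_lit 0x34d2654db90d),.c (nat_lit 0) (nat_lit 0x14008d1c030d),
    .c (nat_lit 0) (nat_lit 0x14500d1c7307),.r (nat_lit 0xdb4) (nat_lit 14) [nat_lit 0x2080000000003,nat_lit 129],
    .r (nat_lit 0xdbb) (nat_lit 13) [nat_lit 129,nat_lit 0x2080000000003],.c (nat_lit 2) (nat_lit 2),
    .r (nat_lit 0xdb4) (nat_lit 14) [nat_lit 0x2080000000003,nat_lit 0x30c01c01861c3],
    .r (nat_lit 0x9f5) (nat_lit 5) [nat_lit 0xb2c064d4de1c3,nat_lit 0x102200141,nat_lit 0x183240101,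
    nat_lit 0xa280000000003,nat_lit 0x861000c1],.r (nat_lit 0xdb4) (nat_lit 14) [nat_lit 0x2080000000003,
    nat_lit 0x51401c700c1c6],.c (nat_lit 0) (nat_lit 0x2000002007),.c (nat_lit 0) (nat_lit 0x4000004007),
    .c (nat_lit 0) (nat_lit 0x400018a00d),.r (nat_lit 0xdb7) (nat_lit 11) [nat_lit 0x2002000000003,
    nat_lit 0x30030000061c3],.c (nat_lit 0) (nat_lit 0x14014d1c730d),.c (nat_lit 0) (nat_lit 0x82005),
    .r (nat_lit 0xdbb) (nat_lit 4) [nat_lit 0x30030000061c3,nat_lit 0x2080000000003],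
    .c (nat_lit 0) (nat_lit 0x90001cf00c),.c (nat_lit 0) (nat_lit 0x1400001c300c),
    .r (nat_lit 0xdb4) (nat_lit 14) [nat_lit 0x2080000000003,nat_lit 0x30c00000061c3],
    .r (nat_lit 0x9f5) (nat_lit 5) [nat_lit 0xb2c04cd65e1c3,nat_lit 0x202100141,nat_lit 0x83140101,
    nat_lit 0xa280000000003,nat_lit 0x1060800c1],.c (nat_lit 0) (nat_lit 0xc30c7003187),
    .r (nat_lit 0xdbb) (nat_lit 13) [nat_lit 0x20020001801c3,nat_lit 0x2080000000003],
    .c (nat_lit 2) (nat_lit 0x3002002),.r (nat_lit 0xdb4) (nat_lit 14) [nat_lit 0x2080000000003,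
    nat_lit 0x51400071cc1c6],.r (nat_lit 0xdb7) (nat_lit 6) [nat_lit 0x2002000000003,nat_lit 0x30030000061c3],
    .c (nat_lit 0) (nat_lit 0x14514d1cb30d),.c (nat_lit 0) (nat_lit 0x14514d1cb307),
    .c (nat_lit 0) (nat_lit 0x14414d1c330d),.c (nat_lit 3) (nat_lit 2),.c (nat_lit 4) (nat_lit 0x3000080002),
    .r (nat_lit 0xdbb) (nat_lit 13) [nat_lit 0x242000000183,nat_lit 0x2080000000003],
    .r (nat_lit 0xdbb) (nat_lit 4) [nat_lit 0xc0000000081,nat_lit 0x2080000000003],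
    .r (nat_lit 0xdbb) (nat_lit 4) [nat_lit 0x31c31c71c6183,nat_lit 0x2080000000003],
    .c (nat_lit 0) (nat_lit 0x2002000003),.c (nat_lit 0) (nat_lit 0x14414d1c330d),
    .c (nat_lit 4) (nat_lit 0x10010c30c346),.r (nat_lit 0xdb7) (nat_lit 11) [nat_lit 0x2002000000003,
    nat_lit 0x31c31c01c6183],.c (nat_lit 0) (nat_lit 0x400018a00d),.c (nat_lit 0) (nat_lit 0x2002000003),
    .c (nat_lit 0) (nat_lit 0x1461401cd30d),.c (nat_lit 0) (nat_lit 0x1461401cd30d),
    .c (nat_lit 0) (nat_lit 0x14014d1c730d),.c (nat_lit 4) (nat_lit 0x800861861c6),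
    .c (nat_lit 0) (nat_lit 0x210c18c34c),.c (nat_lit 1) (nat_lit 0x10220c18c346),
    .c (nat_lit 0) (nat_lit 0x1401471cd307),.c (nat_lit 0) (nat_lit 0x3493654db90d),
    .r (nat_lit 0xdb4) (nat_lit 14) [nat_lit 0x2080000000003,nat_lit 0xc2000000183],
    .r (nat_lit 0xdbb) (nat_lit 13) [nat_lit 0xc2000000183,nat_lit 0x2080000000003],.c (nat_lit 4) (nat_lit 2),
    .c (nat_lit 0) (nat_lit 0xc00000c0006),.c (nat_lit 0) (nat_lit 0x2080003),.c (nat_lit 1) (nat_lit 0x821860061c6),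
    .r (nat_lit 0xdb4) (nat_lit 14) [nat_lit 0x2080000000003,nat_lit 0x30c01c71c6183],
    .r (nat_lit 0xdbb) (nat_lit 13) [nat_lit 0x20021800001c3,nat_lit 0x2080000000003],
    .c (nat_lit 0) (nat_lit 0xc514d1cd30d),.c (nat_lit 0) (nat_lit 0xc0000000002),.c (nat_lit 6) (nat_lit 2),
    .c (nat_lit 0) (nat_lit 0x14514b1cd30d),.c (nat_lit 0) (nat_lit 0x14514b1cd307),.c (nat_lit 7) (nat_lit 2),
    .c (nat_lit 0) (nat_lit 0x14514d1cb305),.c (nat_lit 1) (nat_lit 0x208318318646),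
    .r (nat_lit 0xdbb) (nat_lit 13) [nat_lit 0x410630630d183,nat_lit 0x2080000000003],
    .r (nat_lit 0xdbb) (nat_lit 4) [nat_lit 129,nat_lit 0x2080000000003]],
    .l (nat_lit 11) (nat_lit 390) (nat_lit 4) (nat_lit 0xb9000000b9000000a4000000a4000000b200000098000000a2000000a200000088000000c0000000a5000000a5000000ae000000ae0000009b000000bb) (nat_lit 0x7000000070000001c0000001c000000280000000e0000001e0000001e00000000000000380000001b0000001b00000012000000120000000500000025)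
    (nat_lit 0x1042c85889d1221744d89917621c4c09e1de3e45a08e1642084e89d14e33c578b10fa2044f08c11a25c5a09413a274320880cc2584307016c1604c8c51242486789913a2c4420640f0258430861941b0608ed1181b8768b719e1744b0961142a04a09809c1e85d8710d01a04c89314e2443c0660b42283c07a11c1505388b1402784a87f162264430700f42604809a1281b0378911081984e86315e26c430860f0250430901481a8328871202404b85910221c360580a81e83506c1101383686b134260418630fa2ec650b611c13852094184220448a51943285d87f118278768c51161c44389114a1ac3708815e2bc4f06413c2606089914e2ec3286f1121b44506e12624c2708012e3e43709213c1a048066194260498af1382705788911a3bc460921401a048084194268498af138270578891282385b8990fe24c2c8630fe18c40064112224270761682d0768cf12a2644b89d17620c2709e15e2bc5b04e)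
    (nat_lit 0x104618c318630c618c318630c618c318630c618c3186164208c318630c618c318630c618c318630c618c31861622743218630c618c318630c618c318630c618c318613a2744406430c618c318630c618c318630c618c318612229c33078114618c318630c618c318630c618c31860ba33c4b096150228c318630c618c318630c618c31861362bc430861281e04818630c618c318630c618c31861322c4380861301e84d09030c618c318630c618c31861761f45a0c609c2384a0a4110618c318630c618c318610e2042c06c0f41503606a09c220c318630c618c31861302784c8c117629c378650da2243718630c618c318613c230628e90e222c488870d62944406e30c618c31861de2344908c0d02804209013432857893138618c31861f225c4906e0d02783309013032857893138270c31861682d0678ed1322544e8971062ec4f04e15e2bc2718611c2504c8b71261fc318590c61fc320801122243b04e)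
    (nat_lit 5) (nat_lit 79)
    [[nat_lit 2,nat_lit 3,nat_lit 4,nat_lit 259,nat_lit 258,nat_lit 514,nat_lit 0x1002,nat_lit 0x10002,
    nat_lit 0x100002,nat_lit 17,nat_lit 0x10011,nat_lit 257,nat_lit 0x10101,nat_lit 513,nat_lit 0x1101,
    nat_lit 0x100101,nat_lit 0x10000101,nat_lit 0x1001,nat_lit 0x11001,nat_lit 0x101001,nat_lit 0x10001,
    nat_lit 0x100001,nat_lit 0x110001,nat_lit 0x10000001],[nat_lit 32,nat_lit 272,nat_lit 0x10110,nat_lit 0x1010,
    nat_lit 0x10010,nat_lit 0x20010,nat_lit 0x110010,nat_lit 0x1010010,nat_lit 0x100010,nat_lit 0x200010,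
    nat_lit 0x1100010,nat_lit 0x1000010,nat_lit 0x2000010],[nat_lit 512,nat_lit 768,nat_lit 0x1200,nat_lit 0x10200,
    nat_lit 0x1100,nat_lit 0x101100,nat_lit 0x2100,nat_lit 0x11100,nat_lit 0x10100,nat_lit 0x110100,nat_lit 0x100100,
    nat_lit 0x1100100,nat_lit 0x10000100,nat_lit 0x10001100],[nat_lit 0x2000,nat_lit 0x102000,nat_lit 0x11000,
    nat_lit 0x111000,nat_lit 0x1011000,nat_lit 0x101000,nat_lit 0x202000,nat_lit 0x201000,nat_lit 0x1101000,
    nat_lit 0x2101000,nat_lit 0x10101000,nat_lit 0x1001000,nat_lit 0x10001000,nat_lit 0x10011000],[nat_lit 0x20000,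
    nat_lit 0x1020000,nat_lit 0x110000,nat_lit 0x1110000,nat_lit 0x1010000,nat_lit 0x2010000,nat_lit 0x10010000],
    [nat_lit 0x200000,nat_lit 0x1100000,nat_lit 0x2100000,nat_lit 0x11100000,nat_lit 0x10100000],[nat_lit 0x2000000,
    nat_lit 0x3000000,nat_lit 0x11000000],[nat_lit 0x20000000]]
    [.c (nat_lit 1) (nat_lit 2),.c (nat_lit 0) (nat_lit 0xc003009),.c (nat_lit 2) (nat_lit 0x21003),
    .c (nat_lit 2) (nat_lit 0x241805),.c (nat_lit 0) (nat_lit 0xc402009),.c (nat_lit 2) (nat_lit 0x220803),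
    .c (nat_lit 0) (nat_lit 0x4001003),.c (nat_lit 0) (nat_lit 0x28ca329085),.c (nat_lit 2) (nat_lit 0x1000040803),
    .c (nat_lit 0) (nat_lit 0x10803),.c (nat_lit 2) (nat_lit 0x20882400a4),.c (nat_lit 1) (nat_lit 0x300804),
    .c (nat_lit 0) (nat_lit 0x28ca028885),.c (nat_lit 0) (nat_lit 0xc801009),.c (nat_lit 0) (nat_lit 0x8201805),
    .c (nat_lit 2) (nat_lit 0x2000280805),.c (nat_lit 2) (nat_lit 0x240805),.c (nat_lit 0) (nat_lit 0x4001003),
    .c (nat_lit 5) (nat_lit 0x28d2329484),.c (nat_lit 0) (nat_lit 0x401c001009),.c (nat_lit 0) (nat_lit 0x28ca329085),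
    .c (nat_lit 0) (nat_lit 0x401c001009),.c (nat_lit 2) (nat_lit 0xca320085),.c (nat_lit 0) (nat_lit 0xc001009),
    .c (nat_lit 2) (nat_lit 2),.c (nat_lit 0) (nat_lit 0x210005),.c (nat_lit 2) (nat_lit 0x20880408a4),
    .c (nat_lit 5) (nat_lit 0x28ce338c82),.r (nat_lit 0xdb3) (nat_lit 0) [nat_lit 0x1460190a2,nat_lit 0x41204421482],
    .c (nat_lit 2) (nat_lit 0x20882508a2),.c (nat_lit 0) (nat_lit 0x882188a4),.c (nat_lit 0) (nat_lit 0x294a348c84),
    .c (nat_lit 2) (nat_lit 0x1000030003),.r (nat_lit 0xdb3) (nat_lit 0) [nat_lit 0x1000300042,nat_lit 0x40100610062],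
    .c (nat_lit 0) (nat_lit 0x28c0058004),.c (nat_lit 0) (nat_lit 0x14c048008),.c (nat_lit 1) (nat_lit 0x80011003),
    .c (nat_lit 3) (nat_lit 2),.c (nat_lit 0) (nat_lit 0xcc00009),.c (nat_lit 0) (nat_lit 0x4400003),
    .c (nat_lit 0) (nat_lit 0x28ca428c85),.c (nat_lit 0) (nat_lit 0x4400003),.c (nat_lit 0) (nat_lit 0xc0028c85),
    .c (nat_lit 0) (nat_lit 0x703060000d),.c (nat_lit 5) (nat_lit 0x28d2528c84),.c (nat_lit 0) (nat_lit 0x28ca428c85),
    .c (nat_lit 2) (nat_lit 0xca020c85),.c (nat_lit 0) (nat_lit 0x401c400009),.c (nat_lit 5) (nat_lit 0x28d2349505),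
    .c (nat_lit 0) (nat_lit 0xc400009),.c (nat_lit 0) (nat_lit 0x4200003),.c (nat_lit 4) (nat_lit 2),
    .c (nat_lit 0) (nat_lit 0x200c000005),.c (nat_lit 0) (nat_lit 0x11c0769d8d),.c (nat_lit 0) (nat_lit 0x146549509),
    .c (nat_lit 2) (nat_lit 0x20002a08a4),.c (nat_lit 1) (nat_lit 0x1806000802),.c (nat_lit 2) (nat_lit 0x2008020003),
    .c (nat_lit 2) (nat_lit 0x2004040003),.c (nat_lit 0) (nat_lit 0x4956000008),.c (nat_lit 0) (nat_lit 0x18c6000002),
    .c (nat_lit 2) (nat_lit 0x1004020003),.r (nat_lit 0xdb3) (nat_lit 0) [nat_lit 0x21080000061,nat_lit 0x1800410082],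
    .c (nat_lit 0) (nat_lit 0x4000005),.r (nat_lit 0xdb3) (nat_lit 0) [nat_lit 0x65190a2,nat_lit 0x41104821482],
    .c (nat_lit 5) (nat_lit 2),.c (nat_lit 0) (nat_lit 0x813c882228),.c (nat_lit 0) (nat_lit 0x18ca328c83),
    .c (nat_lit 0) (nat_lit 0x4128aa2aac),.c (nat_lit 2) (nat_lit 0x20082608a4),.c (nat_lit 0) (nat_lit 0x2a4a328c86),
    .c (nat_lit 0) (nat_lit 0x28ca328c87),.c (nat_lit 6) (nat_lit 2),.r (nat_lit 0xdb3) (nat_lit 0) [nat_lit 65,
    nat_lit 0x411004100a2],.c (nat_lit 0) (nat_lit 0x19c0000006),.c (nat_lit 0) (nat_lit 0x11c000000c),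
    .c (nat_lit 2) (nat_lit 0x1000040003),.c (nat_lit 7) (nat_lit 2),.c (nat_lit 0) (nat_lit 0x1c0030004),
    .c (nat_lit 0) (nat_lit 0xc0000002),.c (nat_lit 8) (nat_lit 2)]]

/-- nodes -/
noncomputable def rD8k_3_10 : List RJ :=
  [.l (nat_lit 16) (nat_lit 0x3fc0) (nat_lit 4) (nat_lit 0x186200001df600001c8e00001c8e000020220000202200001cab00001cab00001cab00001cab00001b0a00001b0a00001b7e00001b7e000017e6000017e6) (nat_lit 0x22c000007c000000394000003940000000000000000000003770000037700000377000003770000051800000518000004a4000004a40000083c0000083c)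
    (nat_lit 0x18fa1234138413841008173014eb13891af914eb134a134a161819c410260fda1fc018fa1e581a620f961df61a7f13db13fb11a118de18de186c0cc017041aae1a62138418fa15042332189821f527771917191724081dfa12f617ea118e15381e58138418fa18fa27281c8e18491dcb1741191721c61bb816a81614158415381df617301c8e18981b6e20221cab121118691d791ce01ce01a98112e193019280f9610082728233220221b6e1cab1cab2247275719d81b0a13241b7e1948194013db13891dcb27771cab12110e88193419341934179311f716ad19391cc91cc91a7f14eb184921f51cab1cab19340e881a961934189b19ed17ff1a8b146f146f11a114eb1917191727571d791934193416da1934150f1631180716ff146f147713fb1af917411917224718691a961934193416da179317931e151807146f147718de134a1bb81dfa1b0a1ce019ed11f71793163115f215f2165e16660cc00cc018de134a21c6240819d81ce0189b17931793150f13dc15f2166616660cc80cc00cc019c4161417ea1b7e112e1a8b1939180716ff166616661ce818f013421342186c161816a812f613241a9817ff16ad1e1518071666165e193c1ce8138e13421aae0fda1538153819401928146f1cc9147714770cc00cc0134213420d500d48170410261584118e19481930146f1cc9146f146f0cc80cc0138e13420e180d50)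
    (nat_lit 0x18fa3fc03fc03fc03fc03fc03fc03fc03fc03fc03fc03fc03fc03fc03fc03fc0123418fa3fc03fc03fc03fc03fc03fc03fc03fc03fc03fc03fc03fc03fc03fc013841e5818fa3fc03fc03fc03fc03fc03fc03fc03fc03fc03fc03fc03fc03fc013841a62150418fa3fc03fc03fc03fc03fc03fc03fc03fc03fc03fc03fc03fc010080f96231a231a1b6e3fc03fc03fc03fc03fc03fc03fc03fc03fc03fc03fc017301df618981c8e20221b6e3fc03fc03fc03fc03fc03fc03fc03fc03fc03fc014eb1a7f21f518491cab1cab0e883fc03fc03fc03fc03fc03fc03fc03fc03fc0138913db275f1dcb12111cab19340e883fc03fc03fc03fc03fc03fc03fc03fc01af913fb191717411869224719341a9616da3fc03fc03fc03fc03fc03fc03fc014eb11a1191719171d7921a919341934193416da3fc03fc03fc03fc03fc03fc0134a18de240821c61ce019d81793189b150f179315f23fc03fc03fc03fc03fc0134a18de1dfa1bb81ce01b0a11f719ed1631179315f215f23fc03fc03fc03fc01618186c12f616a81a98132416ad17ff18071e15165e16661ce83fc03fc03fc019c40cc017ea1614112e1b7e19391a8b16ff18071666166618f01ce83fc03fc010261704118e1584193019481cc9146f146f146f0cc00cc81342138e0d503fc00fda1aae15381538192819401cc9146f147714770cc00cc0134213420d480d50)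
    (nat_lit 5) (nat_lit 133)
    [[nat_lit 2,nat_lit 3,nat_lit 4,nat_lit 259,nat_lit 18,nat_lit 0x10000012,nat_lit 258,nat_lit 514,nat_lit 0x1002,
    nat_lit 0x10002,nat_lit 0x1000002,nat_lit 0x10000002,nat_lit 17,nat_lit 273,nat_lit 0x10011,nat_lit 0x100011,
    nat_lit 0x1000011,nat_lit 0x10000011,nat_lit 0x1011,nat_lit 257,nat_lit 513,nat_lit 0x1101,nat_lit 0x10101,
    nat_lit 0x10000101,nat_lit 0x1000101,nat_lit 0x1001,nat_lit 0x10001001,nat_lit 0x10001,nat_lit 0x10010001,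
    nat_lit 0x100001,nat_lit 0x10100001,nat_lit 0x1000001,nat_lit 0x1001001,nat_lit 0x10000001],[nat_lit 32,
    nat_lit 272,nat_lit 0x10000110,nat_lit 0x1010,nat_lit 0x10010,nat_lit 0x10010010,nat_lit 0x100010,
    nat_lit 0x10100010,nat_lit 0x1000010,nat_lit 0x11000010,nat_lit 0x10000010,nat_lit 0x20000010],[nat_lit 512,
    nat_lit 0x1100,nat_lit 0x10001100,nat_lit 0x10100,nat_lit 0x20100,nat_lit 0x100100,nat_lit 0x10000100],
    [nat_lit 0x2000,nat_lit 0x11000,nat_lit 0x10101000,nat_lit 0x1001000,nat_lit 0x11001000,nat_lit 0x10001000,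
    nat_lit 0x20001000],[nat_lit 0x20000,nat_lit 0x30000,nat_lit 0x40000,nat_lit 0x120000,nat_lit 0x10020000,
    nat_lit 0x110000,nat_lit 0x11010000,nat_lit 0x10010000,nat_lit 0x10110000],[nat_lit 0x200000,nat_lit 0x10100000,
    nat_lit 0x11100000],[nat_lit 0x2000000,nat_lit 0x11000000],[nat_lit 0x20000000]]
    [.c (nat_lit 1) (nat_lit 2),.c (nat_lit 0) (nat_lit 0x4001805),.c (nat_lit 8) (nat_lit 0x1402),
    .c (nat_lit 3) (nat_lit 0x80001c04),.c (nat_lit 0) (nat_lit 0x4001803),.c (nat_lit 0) (nat_lit 0x4001003),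
    .c (nat_lit 0) (nat_lit 0x19400300d),.c (nat_lit 4) (nat_lit 0xc0020c02),.c (nat_lit 3) (nat_lit 0x80018c02),
    .c (nat_lit 0) (nat_lit 0x301400300d),.c (nat_lit 0) (nat_lit 0x18ca529085),.c (nat_lit 8) (nat_lit 0xc02),
    .c (nat_lit 0) (nat_lit 0x4001803),.c (nat_lit 0) (nat_lit 0x88001805),.c (nat_lit 0) (nat_lit 0x1008001805),
    .r (nat_lit 0xdb7) (nat_lit 14) [nat_lit 0x3014a519002,nat_lit 65],.c (nat_lit 4) (nat_lit 0x18c0520085),
    .c (nat_lit 0) (nat_lit 0x4001003),.c (nat_lit 0) (nat_lit 0x4010803),.c (nat_lit 8) (nat_lit 0xc0000c04),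
    .r (nat_lit 0xdb3) (nat_lit 1) [nat_lit 0x22800418082,nat_lit 0x3100a5010a2],.c (nat_lit 4) (nat_lit 0xc0020c04),
    .r (nat_lit 0xdb3) (nat_lit 1) [nat_lit 0x1800418082,nat_lit 0x6300861],.c (nat_lit 3) (nat_lit 0x80000c04),
    .c (nat_lit 0) (nat_lit 0x10084208a4),.c (nat_lit 0) (nat_lit 0x1406180d),
    .r (nat_lit 0xdb3) (nat_lit 1) [nat_lit 0x20000018082,nat_lit 0x3180a0010a2],
    .c (nat_lit 8) (nat_lit 0x1800000c04),.c (nat_lit 3) (nat_lit 0x1900000c04),.c (nat_lit 0) (nat_lit 0x201003),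
    .c (nat_lit 0) (nat_lit 0x200803),.c (nat_lit 0) (nat_lit 0x18ca529085),.c (nat_lit 0) (nat_lit 0x10884010a4),
    .c (nat_lit 0) (nat_lit 0x4000805),.c (nat_lit 2) (nat_lit 2),.c (nat_lit 0) (nat_lit 0x84000005),
    .c (nat_lit 0) (nat_lit 0x19400000d),.c (nat_lit 0) (nat_lit 0x8030007),.c (nat_lit 0) (nat_lit 0x1004000005),
    .c (nat_lit 0) (nat_lit 0x301400000d),.r (nat_lit 0xdbe) (nat_lit 10) [nat_lit 65,nat_lit 0x3014a519002],
    .c (nat_lit 4) (nat_lit 0x4220003),.r (nat_lit 0xdb7) (nat_lit 14) [nat_lit 0x3014a519002,nat_lit 0x21110421482],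
    .r (nat_lit 0xdb3) (nat_lit 1) [nat_lit 0x180a0190a2,nat_lit 65],.c (nat_lit 0) (nat_lit 0x4000007),
    .c (nat_lit 0) (nat_lit 0x8000007),.c (nat_lit 3) (nat_lit 2),
    .r (nat_lit 0xdb3) (nat_lit 1) [nat_lit 0x21800000082,nat_lit 0x3000a0190a2],
    .r (nat_lit 0xdb7) (nat_lit 14) [nat_lit 0x3014a519002,nat_lit 0x11084100a2],
    .c (nat_lit 3) (nat_lit 0x1880000004),.r (nat_lit 0xdb7) (nat_lit 14) [nat_lit 0x3014a519002,
    nat_lit 0x411080100a2],.c (nat_lit 0) (nat_lit 0x100600007),.c (nat_lit 0) (nat_lit 0x19400000d),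
    .c (nat_lit 4) (nat_lit 2),.r (nat_lit 0xdb3) (nat_lit 1) [nat_lit 65,nat_lit 0x180a0190a2],
    .c (nat_lit 0) (nat_lit 0x518004),.c (nat_lit 0) (nat_lit 0x2110811128),.c (nat_lit 0) (nat_lit 0x2110831128),
    .c (nat_lit 3) (nat_lit 0x80018002),.c (nat_lit 4) (nat_lit 0x10002),.c (nat_lit 5) (nat_lit 2),
    .r (nat_lit 0xdb7) (nat_lit 14) [nat_lit 0x3014a519002,nat_lit 0x601080100a2],
    .c (nat_lit 2) (nat_lit 0x2008000003),.c (nat_lit 0) (nat_lit 0x2800700006),.c (nat_lit 4) (nat_lit 0x1800020002),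
    .c (nat_lit 0) (nat_lit 0x2000600007),.c (nat_lit 0) (nat_lit 0x2198c619ac),.c (nat_lit 0) (nat_lit 0x301400000d),
    .c (nat_lit 0) (nat_lit 0x1800700006),.c (nat_lit 6) (nat_lit 2),.c (nat_lit 0) (nat_lit 0x200005),
    .c (nat_lit 0) (nat_lit 0x31ac0619ac),.c (nat_lit 7) (nat_lit 2),.c (nat_lit 0) (nat_lit 0x18ca528c87),
    .c (nat_lit 8) (nat_lit 2)],
    .l (nat_lit 13) (nat_lit 0x780) (nat_lit 4) (nat_lit 0x37d000003c3000003d8000003d8000004b8000004b8000003c0000003c00000037e0000037e00000362000003e0000003af000003af0000035e0000035e) (nat_lit 0xf50000013b000000e0000000e00000000000000000000000f8000000f80000013a0000013a000000d80000015600000109000001090000015a0000015a)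
    (nat_lit 0x11809084da29d1de8c9450a2851218a7c54a2271520ca84461f316708c05c62e322d8f0c5962cb15c8c545d625113106004d22691718a745f02f81ec0f604a824815d0a788742521678b3c5ac2d617189b45f02f81d40f605402e01d70a78a5c3461058c245ac32e1e18c947b03d825c12e07803f015d0ef874c25217f860471c42222d8ef47503d825c12e07203c01e113186ec3161cf8ebc6bc3f21658a145c02481e00fc03002c81690ad85d02261118c8444c2761658a145402541c80f005101801510a1860828616f8f7441426618a8a7c53c29e2630ef850c2b61140a1030020c13a89644481fc15c890c75c2ba1e10ae85442d212208a054c22813a89d4448224128889c68c25218b094850c226114083051420c12c89644102081758a94a5c43a1bb0e986082e8153060061028a16b8b5c3a01d00c00ca86122cf1d786047ba32113a89645ae2591ae0a984aa2551310a904162cf1cf8bfc5be22313a89d45ae25916b0d7050a25513487cc65c2d61f910884cc27611207f03a020812a89543a81d4134888c5ac2d61af0e3841422611208903a020814289544081d4)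
    (nat_lit 0x1181e00f007803c01e00f007803c01e00f007803c01e00f0078012108c0f007803c01e00f007803c01e00f007803c01e00f007801368b8c5f07803c01e00f007803c01e00f007803c01e00f0078014e8b8c5f02f83c01e00f007803c01e00f007803c01e00f007801de916c7b03a825c1e00f007803c01e00f007803c01e00f007801928f0c7b03d825c12e0f007803c01e00f007803c01e00f007801428b2c4a82a01e00e403007803c01e00f007803c01e00f007801428b2c4902e01f80f005901803c01e00f007803c01e00f007801218ae45743ae15d0f085a42a21141e00f007803c01e00f0078014f8c5453c29e1df131856c28614208a0f007803c01e00f007801528bac87452e1d30dd85d03040c00a985147803c01e00f0078011389444a43461290c5844c28610608a041828a3c01e00f00780152098859e20b17f8e7c4462df13a89d44b22d71ae1e00f00780195060059e3090c08ebc6423dd12c89d44b22d71530d70f0078011189a45ac2d61c70d7844c20a11208904101d012a8a143a87800f989a45ac32e1eb0fc84ec2660fe08904101d012a89543a81d4)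
    (nat_lit 5) (nat_lit 133)
    [[nat_lit 2,nat_lit 3,nat_lit 4,nat_lit 18,nat_lit 258,nat_lit 0x1002,nat_lit 0x10002,nat_lit 0x10000002,
    nat_lit 17,nat_lit 273,nat_lit 0x1011,nat_lit 0x10011,nat_lit 0x1000011,nat_lit 0x10000011,nat_lit 257,
    nat_lit 513,nat_lit 0x1101,nat_lit 0x10101,nat_lit 0x10000101,nat_lit 0x1000101,nat_lit 0x1001,nat_lit 0x2001,
    nat_lit 0x11001,nat_lit 0x10001001,nat_lit 0x10001,nat_lit 0x20001,nat_lit 0x10010001,nat_lit 0x100011,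
    nat_lit 0x1000001,nat_lit 0x10000001,nat_lit 0x20000001],[nat_lit 32,nat_lit 272,nat_lit 0x1110,nat_lit 0x100110,
    nat_lit 0x10000110,nat_lit 0x1010,nat_lit 0x2010,nat_lit 0x10001010,nat_lit 0x10010,nat_lit 0x11010,
    nat_lit 0x110010,nat_lit 0x10010010,nat_lit 0x100010,nat_lit 0x1000010,nat_lit 0x11000010,nat_lit 0x1000110,
    nat_lit 0x1001010,nat_lit 0x1100010,nat_lit 0x10000010,nat_lit 0x20000010],[nat_lit 512,nat_lit 0x1200,
    nat_lit 0x1100,nat_lit 0x2200,nat_lit 0x2100,nat_lit 0x11100,nat_lit 0x101100,nat_lit 0x10001100,nat_lit 0x10100,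
    nat_lit 0x20100,nat_lit 0x100100,nat_lit 0x10000100,nat_lit 0x20000100],[nat_lit 0x2000,nat_lit 0x3000,
    nat_lit 0x11000,nat_lit 0x21000,nat_lit 0x1001000,nat_lit 0x10001000],[nat_lit 0x20000,nat_lit 0x30000,
    nat_lit 0x40000,nat_lit 0x1020000,nat_lit 0x10020000,nat_lit 0x1010000,nat_lit 0x10010000],[],[nat_lit 0x2000000,
    nat_lit 0x11000000],[nat_lit 0x20000000,nat_lit 0x30000000]]
    [.c (nat_lit 1) (nat_lit 2),.c (nat_lit 0) (nat_lit 0x294a328883),.c (nat_lit 3) (nat_lit 0x8002402),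
    .c (nat_lit 0) (nat_lit 0x18c6018843),.c (nat_lit 3) (nat_lit 0x4001402),.c (nat_lit 0) (nat_lit 0x294a318083),
    .c (nat_lit 0) (nat_lit 0x294a328885),.c (nat_lit 0) (nat_lit 0x294a328083),.c (nat_lit 0) (nat_lit 0x200805),
    .r (nat_lit 0xdb3) (nat_lit 6) [nat_lit 0x30000300861,nat_lit 0x18041],.c (nat_lit 0) (nat_lit 0x18c6000043),
    .c (nat_lit 2) (nat_lit 0x1084210062),.c (nat_lit 0) (nat_lit 0x28c6319442),.c (nat_lit 0) (nat_lit 0x18c6018043),
    .c (nat_lit 0) (nat_lit 0x2946328c83),.r (nat_lit 0xdb3) (nat_lit 6) [nat_lit 0x50006519062,nat_lit 0x4018042],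
    .c (nat_lit 3) (nat_lit 0x4018c02),.c (nat_lit 0) (nat_lit 0x2946328c83),.c (nat_lit 3) (nat_lit 0x4000c02),
    .c (nat_lit 2) (nat_lit 0x1004200803),.c (nat_lit 1) (nat_lit 0x18802),.c (nat_lit 0) (nat_lit 0x294a300c83),
    .c (nat_lit 0) (nat_lit 0x294a300c85),.c (nat_lit 0) (nat_lit 0x294a318c83),.c (nat_lit 0) (nat_lit 0x294a328885),
    .c (nat_lit 2) (nat_lit 0x21086208a2),.c (nat_lit 0) (nat_lit 0x294a328c85),.c (nat_lit 0) (nat_lit 0x140301c04),
    .c (nat_lit 2) (nat_lit 0x1800200c02),.c (nat_lit 1) (nat_lit 0x802),.c (nat_lit 0) (nat_lit 0x294a328c83),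
    .c (nat_lit 2) (nat_lit 2),.c (nat_lit 0) (nat_lit 0x18c0018c43),
    .r (nat_lit 0xdb3) (nat_lit 6) [nat_lit 0x30000018861,nat_lit 0x300041],.c (nat_lit 0) (nat_lit 0xc6300002),
    .r (nat_lit 0xdb3) (nat_lit 6) [nat_lit 0x30000318861,nat_lit 65],.c (nat_lit 0) (nat_lit 0x210003),
    .c (nat_lit 0) (nat_lit 0x18c6010c43),.c (nat_lit 0) (nat_lit 0x18c6000c43),.c (nat_lit 2) (nat_lit 0x1084410862),
    .c (nat_lit 2) (nat_lit 0x1084200862),.c (nat_lit 0) (nat_lit 0x1946318c42),.c (nat_lit 2) (nat_lit 0x1084210862),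
    .c (nat_lit 0) (nat_lit 0x1946318c42),.r (nat_lit 0xdb3) (nat_lit 6) [nat_lit 0x500c6318841,
    nat_lit 0x20084000061],.c (nat_lit 0) (nat_lit 0x28c6318c42),.c (nat_lit 0) (nat_lit 0x1806000002),
    .c (nat_lit 0) (nat_lit 0x28c6328c42),.c (nat_lit 0) (nat_lit 0xad5eb7bdc6),.c (nat_lit 0) (nat_lit 0x200003),
    .c (nat_lit 0) (nat_lit 0x18c6018c43),.c (nat_lit 3) (nat_lit 2),
    .r (nat_lit 0xdb3) (nat_lit 6) [nat_lit 0x50006329062,nat_lit 0x4300042],.c (nat_lit 0) (nat_lit 0x2946319483),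
    .r (nat_lit 0xb05) (nat_lit 9) [nat_lit 0x4000001,nat_lit 0x40100000001,nat_lit 0x400001,nat_lit 0x9494a54a062,
    nat_lit 0x2000000001],.c (nat_lit 3) (nat_lit 0x4028002),.c (nat_lit 0) (nat_lit 0x2946319483),
    .c (nat_lit 2) (nat_lit 0x84410003),.c (nat_lit 3) (nat_lit 0x4018002),.c (nat_lit 0) (nat_lit 0x4a4654a509),
    .c (nat_lit 2) (nat_lit 0x21044210a2),.c (nat_lit 2) (nat_lit 0x84200003),.c (nat_lit 0) (nat_lit 0x2946329483),
    .c (nat_lit 3) (nat_lit 0x4000002),.c (nat_lit 4) (nat_lit 2),.c (nat_lit 0) (nat_lit 0x294a311483),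
    .c (nat_lit 0) (nat_lit 0x294a311485),.c (nat_lit 2) (nat_lit 0x21086110a2),.c (nat_lit 2) (nat_lit 0x1800218002),
    .c (nat_lit 1) (nat_lit 0x19002),.c (nat_lit 5) (nat_lit 2),
    .r (nat_lit 0x8a8) (nat_lit 11) [nat_lit 0x739c0739861,nat_lit 0xc0300000001,nat_lit 0x69180631c41,nat_lit 129,
    nat_lit 0x739c0639861],.r (nat_lit 0xb05) (nat_lit 9) [nat_lit 0x4000001,nat_lit 0x40100000001,nat_lit 0x400001,
    nat_lit 66,nat_lit 0x2000000001],.r (nat_lit 0xdb3) (nat_lit 6) [nat_lit 0x32000000042,nat_lit 0x32800529062],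
    .c (nat_lit 2) (nat_lit 0x21086210a2),.r (nat_lit 0xdac) (nat_lit 4) [nat_lit 0x1000200001,nat_lit 65,
    nat_lit 0x1000000001,nat_lit 0x31800318801],.c (nat_lit 0) (nat_lit 0x294a329487),.c (nat_lit 7) (nat_lit 2),
    .c (nat_lit 2) (nat_lit 0x1800200002),.c (nat_lit 8) (nat_lit 2),.c (nat_lit 0) (nat_lit 0x294a329483)]]

/-- nodes -/
noncomputable def rD8k_3_11 : List RJ :=
  [.s (nat_lit 14) (nat_lit 0x960) (nat_lit 4) (nat_lit 0x3df000003df000003df000003df0000039e0000039e000003e60000048a000003bb000003bb00000444000004440000047200000472000004b3000004b3) (nat_lit 0xd4000000d4000000d4000000d4000001150000011500000029000000cd000000f8000000f80000006f0000006f00000041000000410000000000000000)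
    (nat_lit 0xcbc30b0c8c3230b282ca0ed83060b9c2e70e581fe0e784680f7c27f0c2c32f0cbc30b0b282be0ed83120cbc2e70ac83700da03840f1c3f10c2c3230c5c30b0b282a60ed83120b9c2e70e283280e3045c0eec4150cbc3230c8c3170b282ca0f3831206642c30af83700c203900f7c3190af82ca0b282a60a242710e642d10a9828e0cf447d108c40f0e184340b282ca0b282ca06bc2890e342d10a981b40cbc3c914fc52b0ea839e0c483060c483120b442d112bc3f309502d606a43770e943a50f982040ed83b60f383b60e3439911844af07903920f8441b0f8c193122848a0b9c2e70b0c2e706d028e0e482d60b0c2c318084fa0de83b40eec4210cbc2e706642e70a982a607902540b0c2c3115034c0de837a14b45930dc01fe0dc03280f2447d106c3770d304fa0f543d508ac2fb11104440ac83960af838a0cbc33d0f841a911506020f543d5100c4030de84440e104680e4045c14ac40f064c3a50de83b4100c2fb10c443111304720da039e0c2038c14fc4230f8c3a50de837a100c22b10c443117484720fc427f0c644150e784341228204164c421111044411c847212cc4b30f1c3df0f7c3bb0ea838612283e614b43bb0de8444174844c12cc4b3)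
    (nat_lit 0xcbc96025809602580960258096025809602580960258096025809600c2c32f25809602580960258096025809602580960258096025809600c8c32f0c5c9602580960258096025809602580960258096025809600c8c30b0c2c3172580960258096025809602580960258096025809600b282ca0b282ca0a24960258096025809602580960258096025809600b282be0a982ca09c4289258096025809602580960258096025809600ed83b60ed83ce0e6438d12bc96025809602580960258096025809600c183120c483120b442d10fcc4af25809602580960258096025809600b9c32f0b9c1990a982a609501e40b0c9602580960258096025809600b9c2e70b9c2c30a381b40b583920b0c2c32580960258096025809600e582b20e282be0cf432f06a43e113c438d0f549602580960258096007f83700ca037011f43c90ddc41b139434c0f543d5258096025809600e783680e30308108c52e0e943e30de837a08ac40310c4960258096011a03841170390103c4640e941930ed037a0bec33c10c443125809600f7c3c70eec3df0e183aa0f9848a0eec52d111037a11305a512cc96009fc3f1105431910d039e081048a10843e811104440e5c47212cc4b3)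
    (nat_lit 5) (nat_lit 113)
    [[nat_lit 0,nat_lit 2,nat_lit 13],[nat_lit 0,nat_lit 5,nat_lit 3,nat_lit 9],[nat_lit 0,nat_lit 6],[nat_lit 0,
    nat_lit 7],[nat_lit 1,nat_lit 6],[nat_lit 1,nat_lit 7],[nat_lit 1,nat_lit 8,nat_lit 2,nat_lit 4],[nat_lit 1,
    nat_lit 12,nat_lit 3],[nat_lit 2,nat_lit 4,nat_lit 4,nat_lit 8],[nat_lit 2,nat_lit 4,nat_lit 12],[nat_lit 2,
    nat_lit 4,nat_lit 13],[nat_lit 2,nat_lit 4,nat_lit 14],[nat_lit 2,nat_lit 4,nat_lit 15],[nat_lit 2,nat_lit 10],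
    [nat_lit 2,nat_lit 11],[nat_lit 2,nat_lit 12,nat_lit 5],[nat_lit 2,nat_lit 13,nat_lit 5],[nat_lit 2,nat_lit 14,
    nat_lit 5],[nat_lit 3,nat_lit 4,nat_lit 12],[nat_lit 3,nat_lit 4,nat_lit 13],[nat_lit 3,nat_lit 4,nat_lit 15],
    [nat_lit 3,nat_lit 9,nat_lit 5,nat_lit 5],[nat_lit 3,nat_lit 10],[nat_lit 3,nat_lit 11],[nat_lit 3,nat_lit 12,
    nat_lit 5],[nat_lit 3,nat_lit 13,nat_lit 5],[nat_lit 3,nat_lit 14,nat_lit 5],[nat_lit 3,nat_lit 15,nat_lit 5],
    [nat_lit 4,nat_lit 6],[nat_lit 4,nat_lit 7],[nat_lit 5,nat_lit 6],[nat_lit 5,nat_lit 7],[nat_lit 8,nat_lit 10,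
    nat_lit 12],[nat_lit 8,nat_lit 10,nat_lit 13],[nat_lit 8,nat_lit 11,nat_lit 12],[nat_lit 8,nat_lit 11,nat_lit 13],
    [nat_lit 8,nat_lit 11,nat_lit 15],[nat_lit 8,nat_lit 12,nat_lit 10],[nat_lit 8,nat_lit 12,nat_lit 11],[nat_lit 8,
    nat_lit 13,nat_lit 10],[nat_lit 8,nat_lit 14,nat_lit 10],[nat_lit 8,nat_lit 14,nat_lit 11],[nat_lit 8,nat_lit 15,
    nat_lit 10],[nat_lit 8,nat_lit 15,nat_lit 11],[nat_lit 9,nat_lit 10,nat_lit 13],[nat_lit 9,nat_lit 10,nat_lit 14],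
    [nat_lit 9,nat_lit 10,nat_lit 15],[nat_lit 9,nat_lit 11,nat_lit 12],[nat_lit 9,nat_lit 11,nat_lit 13],[nat_lit 9,
    nat_lit 11,nat_lit 14],[nat_lit 9,nat_lit 11,nat_lit 15],[nat_lit 9,nat_lit 12,nat_lit 10],[nat_lit 9,nat_lit 12,
    nat_lit 11],[nat_lit 9,nat_lit 13,nat_lit 10],[nat_lit 9,nat_lit 13,nat_lit 11],[nat_lit 9,nat_lit 14,nat_lit 10],
    [nat_lit 12,nat_lit 12,nat_lit 12],[nat_lit 12,nat_lit 12,nat_lit 13],[nat_lit 12,nat_lit 12,nat_lit 14],
    [nat_lit 12,nat_lit 13,nat_lit 12],[nat_lit 12,nat_lit 13,nat_lit 13],[nat_lit 12,nat_lit 13,nat_lit 14],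
    [nat_lit 12,nat_lit 13,nat_lit 15],[nat_lit 12,nat_lit 14,nat_lit 12],[nat_lit 12,nat_lit 14,nat_lit 13],
    [nat_lit 12,nat_lit 14,nat_lit 14],[nat_lit 12,nat_lit 14,nat_lit 15],[nat_lit 12,nat_lit 15,nat_lit 13],
    [nat_lit 12,nat_lit 15,nat_lit 14],[nat_lit 13,nat_lit 13,nat_lit 13],[nat_lit 13,nat_lit 13,nat_lit 15],
    [nat_lit 13,nat_lit 14,nat_lit 15],[nat_lit 13,nat_lit 15,nat_lit 13],[nat_lit 13,nat_lit 15,nat_lit 14],
    [nat_lit 13,nat_lit 15,nat_lit 15],[nat_lit 14,nat_lit 14,nat_lit 14],[nat_lit 14,nat_lit 14,nat_lit 15],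
    [nat_lit 14,nat_lit 15,nat_lit 14],[nat_lit 14,nat_lit 15,nat_lit 15],[nat_lit 15,nat_lit 15,nat_lit 15]]
    [nat_lit 0x102d,nat_lit 0x10539,nat_lit 262,nat_lit 263,nat_lit 278,nat_lit 279,nat_lit 0x11824,nat_lit 0x11c3,
    nat_lit 0x12448,nat_lit 0x124c,nat_lit 0x124d,nat_lit 0x124e,nat_lit 0x124f,nat_lit 298,nat_lit 299,
    nat_lit 0x12c5,nat_lit 0x12d5,nat_lit 0x12e5,nat_lit 0x134c,nat_lit 0x134d,nat_lit 0x134f,nat_lit 0x13955,
    nat_lit 314,nat_lit 315,nat_lit 0x13c5,nat_lit 0x13d5,nat_lit 0x13e5,nat_lit 0x13f5,nat_lit 326,nat_lit 327,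
    nat_lit 342,nat_lit 343,nat_lit 0x18ac,nat_lit 0x18ad,nat_lit 0x18bc,nat_lit 0x18bd,nat_lit 0x18bf,nat_lit 0x18ca,
    nat_lit 0x18cb,nat_lit 0x18da,nat_lit 0x18ea,nat_lit 0x18eb,nat_lit 0x18fa,nat_lit 0x18fb,nat_lit 0x19ad,
    nat_lit 0x19ae,nat_lit 0x19af,nat_lit 0x19bc,nat_lit 0x19bd,nat_lit 0x19be,nat_lit 0x19bf,nat_lit 0x19ca,
    nat_lit 0x19cb,nat_lit 0x19da,nat_lit 0x19db,nat_lit 0x19ea,nat_lit 0x1ccc,nat_lit 0x1ccd,nat_lit 0x1cce,
    nat_lit 0x1cdc,nat_lit 0x1cdd,nat_lit 0x1cde,nat_lit 0x1cdf,nat_lit 0x1cec,nat_lit 0x1ced,nat_lit 0x1cee,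
    nat_lit 0x1cef,nat_lit 0x1cfd,nat_lit 0x1cfe,nat_lit 0x1ddd,nat_lit 0x1ddf,nat_lit 0x1def,nat_lit 0x1dfd,
    nat_lit 0x1dfe,nat_lit 0x1dff,nat_lit 0x1eee,nat_lit 0x1eef,nat_lit 0x1efe,nat_lit 0x1eff,nat_lit 0x1fff]
    [[[nat_lit 0,nat_lit 2,nat_lit 13],[nat_lit 0,nat_lit 5,nat_lit 3,nat_lit 9],[nat_lit 0,nat_lit 6],[nat_lit 0,
    nat_lit 7],[nat_lit 1,nat_lit 6],[nat_lit 1,nat_lit 7],[nat_lit 1,nat_lit 8,nat_lit 2,nat_lit 4],[nat_lit 1,
    nat_lit 12,nat_lit 3],[nat_lit 2,nat_lit 4,nat_lit 1,nat_lit 8],[nat_lit 2,nat_lit 4,nat_lit 4,nat_lit 8],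
    [nat_lit 2,nat_lit 4,nat_lit 12],[nat_lit 2,nat_lit 4,nat_lit 13]],[[nat_lit 2,nat_lit 4,nat_lit 14],[nat_lit 2,
    nat_lit 4,nat_lit 15],[nat_lit 2,nat_lit 10],[nat_lit 2,nat_lit 11],[nat_lit 2,nat_lit 12,nat_lit 5],[nat_lit 2,
    nat_lit 13,nat_lit 0],[nat_lit 2,nat_lit 13,nat_lit 5],[nat_lit 2,nat_lit 14,nat_lit 5],[nat_lit 3,nat_lit 1,
    nat_lit 12],[nat_lit 3,nat_lit 4,nat_lit 12],[nat_lit 3,nat_lit 4,nat_lit 13],[nat_lit 3,nat_lit 4,nat_lit 15]],
    [[nat_lit 3,nat_lit 9,nat_lit 0,nat_lit 5],[nat_lit 3,nat_lit 9,nat_lit 5,nat_lit 5],[nat_lit 3,nat_lit 10],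
    [nat_lit 3,nat_lit 11],[nat_lit 3,nat_lit 12,nat_lit 5],[nat_lit 3,nat_lit 13,nat_lit 5],[nat_lit 3,nat_lit 14,
    nat_lit 5],[nat_lit 3,nat_lit 15,nat_lit 5],[nat_lit 4,nat_lit 1,nat_lit 8,nat_lit 2],[nat_lit 4,nat_lit 4,
    nat_lit 8,nat_lit 2],[nat_lit 4,nat_lit 6],[nat_lit 4,nat_lit 7]],[[nat_lit 4,nat_lit 8,nat_lit 2,nat_lit 4],
    [nat_lit 4,nat_lit 12,nat_lit 2],[nat_lit 4,nat_lit 12,nat_lit 3],[nat_lit 4,nat_lit 13,nat_lit 2],[nat_lit 4,
    nat_lit 13,nat_lit 3],[nat_lit 4,nat_lit 14,nat_lit 2],[nat_lit 4,nat_lit 15,nat_lit 2],[nat_lit 4,nat_lit 15,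
    nat_lit 3],[nat_lit 5,nat_lit 2,nat_lit 12],[nat_lit 5,nat_lit 2,nat_lit 13],[nat_lit 5,nat_lit 2,nat_lit 14],
    [nat_lit 5,nat_lit 3,nat_lit 9,nat_lit 0]],[[nat_lit 5,nat_lit 3,nat_lit 9,nat_lit 5],[nat_lit 5,nat_lit 3,
    nat_lit 12],[nat_lit 5,nat_lit 3,nat_lit 13],[nat_lit 5,nat_lit 3,nat_lit 14],[nat_lit 5,nat_lit 3,nat_lit 15],
    [nat_lit 5,nat_lit 5,nat_lit 3,nat_lit 9],[nat_lit 5,nat_lit 6],[nat_lit 5,nat_lit 7],[nat_lit 6,nat_lit 0],
    [nat_lit 6,nat_lit 1],[nat_lit 6,nat_lit 4],[nat_lit 6,nat_lit 5]],[[nat_lit 7,nat_lit 0],[nat_lit 7,nat_lit 1],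
    [nat_lit 7,nat_lit 4],[nat_lit 7,nat_lit 5],[nat_lit 8,nat_lit 2,nat_lit 4,nat_lit 1],[nat_lit 8,nat_lit 2,
    nat_lit 4,nat_lit 4],[nat_lit 8,nat_lit 10,nat_lit 12],[nat_lit 8,nat_lit 10,nat_lit 13],[nat_lit 8,nat_lit 11,
    nat_lit 12],[nat_lit 8,nat_lit 11,nat_lit 13],[nat_lit 8,nat_lit 11,nat_lit 15],[nat_lit 8,nat_lit 12,
    nat_lit 10]],[[nat_lit 8,nat_lit 12,nat_lit 11],[nat_lit 8,nat_lit 13,nat_lit 10],[nat_lit 8,nat_lit 14,
    nat_lit 10],[nat_lit 8,nat_lit 14,nat_lit 11],[nat_lit 8,nat_lit 15,nat_lit 10],[nat_lit 8,nat_lit 15,nat_lit 11],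
    [nat_lit 9,nat_lit 0,nat_lit 5,nat_lit 3],[nat_lit 9,nat_lit 5,nat_lit 5,nat_lit 3],[nat_lit 9,nat_lit 10,
    nat_lit 13],[nat_lit 9,nat_lit 10,nat_lit 14],[nat_lit 9,nat_lit 10,nat_lit 15],[nat_lit 9,nat_lit 11,
    nat_lit 12]],[[nat_lit 9,nat_lit 11,nat_lit 13],[nat_lit 9,nat_lit 11,nat_lit 14],[nat_lit 9,nat_lit 11,
    nat_lit 15],[nat_lit 9,nat_lit 12,nat_lit 10],[nat_lit 9,nat_lit 12,nat_lit 11],[nat_lit 9,nat_lit 13,nat_lit 10],
    [nat_lit 9,nat_lit 13,nat_lit 11],[nat_lit 9,nat_lit 14,nat_lit 10],[nat_lit 10,nat_lit 2],[nat_lit 10,nat_lit 3],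
    [nat_lit 10,nat_lit 8,nat_lit 12],[nat_lit 10,nat_lit 8,nat_lit 13]],[[nat_lit 10,nat_lit 8,nat_lit 14],
    [nat_lit 10,nat_lit 8,nat_lit 15],[nat_lit 10,nat_lit 9,nat_lit 12],[nat_lit 10,nat_lit 9,nat_lit 13],[nat_lit 10,
    nat_lit 9,nat_lit 14],[nat_lit 10,nat_lit 12,nat_lit 8],[nat_lit 10,nat_lit 13,nat_lit 8],[nat_lit 10,nat_lit 13,
    nat_lit 9],[nat_lit 10,nat_lit 14,nat_lit 9],[nat_lit 10,nat_lit 15,nat_lit 9],[nat_lit 11,nat_lit 2],[nat_lit 11,
    nat_lit 3]],[[nat_lit 11,nat_lit 8,nat_lit 12],[nat_lit 11,nat_lit 8,nat_lit 14],[nat_lit 11,nat_lit 8,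
    nat_lit 15],[nat_lit 11,nat_lit 9,nat_lit 12],[nat_lit 11,nat_lit 9,nat_lit 13],[nat_lit 11,nat_lit 12,nat_lit 8],
    [nat_lit 11,nat_lit 12,nat_lit 9],[nat_lit 11,nat_lit 13,nat_lit 8],[nat_lit 11,nat_lit 13,nat_lit 9],[nat_lit 11,
    nat_lit 14,nat_lit 9],[nat_lit 11,nat_lit 15,nat_lit 8],[nat_lit 11,nat_lit 15,nat_lit 9]],[[nat_lit 12,nat_lit 2,
    nat_lit 4],[nat_lit 12,nat_lit 3,nat_lit 1],[nat_lit 12,nat_lit 3,nat_lit 4],[nat_lit 12,nat_lit 5,nat_lit 2],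
    [nat_lit 12,nat_lit 5,nat_lit 3],[nat_lit 12,nat_lit 8,nat_lit 10],[nat_lit 12,nat_lit 8,nat_lit 11],[nat_lit 12,
    nat_lit 9,nat_lit 11],[nat_lit 12,nat_lit 10,nat_lit 8],[nat_lit 12,nat_lit 10,nat_lit 9],[nat_lit 12,nat_lit 11,
    nat_lit 8],[nat_lit 12,nat_lit 11,nat_lit 9]],[[nat_lit 12,nat_lit 12,nat_lit 12],[nat_lit 12,nat_lit 12,
    nat_lit 13],[nat_lit 12,nat_lit 12,nat_lit 14],[nat_lit 12,nat_lit 13,nat_lit 12],[nat_lit 12,nat_lit 13,
    nat_lit 13],[nat_lit 12,nat_lit 13,nat_lit 14],[nat_lit 12,nat_lit 13,nat_lit 15],[nat_lit 12,nat_lit 14,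
    nat_lit 12],[nat_lit 12,nat_lit 14,nat_lit 13],[nat_lit 12,nat_lit 14,nat_lit 14],[nat_lit 12,nat_lit 14,
    nat_lit 15],[nat_lit 12,nat_lit 15,nat_lit 13]],[[nat_lit 12,nat_lit 15,nat_lit 14],[nat_lit 13,nat_lit 0,
    nat_lit 2],[nat_lit 13,nat_lit 2,nat_lit 4],[nat_lit 13,nat_lit 3,nat_lit 4],[nat_lit 13,nat_lit 5,nat_lit 2],
    [nat_lit 13,nat_lit 5,nat_lit 3],[nat_lit 13,nat_lit 8,nat_lit 10],[nat_lit 13,nat_lit 8,nat_lit 11],[nat_lit 13,
    nat_lit 9,nat_lit 10],[nat_lit 13,nat_lit 9,nat_lit 11],[nat_lit 13,nat_lit 10,nat_lit 8],[nat_lit 13,nat_lit 10,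
    nat_lit 9]],[[nat_lit 13,nat_lit 11,nat_lit 9],[nat_lit 13,nat_lit 12,nat_lit 12],[nat_lit 13,nat_lit 12,
    nat_lit 13],[nat_lit 13,nat_lit 12,nat_lit 14],[nat_lit 13,nat_lit 12,nat_lit 15],[nat_lit 13,nat_lit 13,
    nat_lit 12],[nat_lit 13,nat_lit 13,nat_lit 13],[nat_lit 13,nat_lit 13,nat_lit 15],[nat_lit 13,nat_lit 14,
    nat_lit 12],[nat_lit 13,nat_lit 14,nat_lit 15],[nat_lit 13,nat_lit 15,nat_lit 12],[nat_lit 13,nat_lit 15,
    nat_lit 13]],[[nat_lit 13,nat_lit 15,nat_lit 14],[nat_lit 13,nat_lit 15,nat_lit 15],[nat_lit 14,nat_lit 2,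
    nat_lit 4],[nat_lit 14,nat_lit 5,nat_lit 2],[nat_lit 14,nat_lit 5,nat_lit 3],[nat_lit 14,nat_lit 9,nat_lit 10],
    [nat_lit 14,nat_lit 9,nat_lit 11],[nat_lit 14,nat_lit 10,nat_lit 8],[nat_lit 14,nat_lit 10,nat_lit 9],[nat_lit 14,
    nat_lit 11,nat_lit 8],[nat_lit 14,nat_lit 12,nat_lit 12],[nat_lit 14,nat_lit 12,nat_lit 13]],[[nat_lit 14,
    nat_lit 12,nat_lit 14],[nat_lit 14,nat_lit 12,nat_lit 15],[nat_lit 14,nat_lit 13,nat_lit 12],[nat_lit 14,
    nat_lit 13,nat_lit 15],[nat_lit 14,nat_lit 14,nat_lit 12],[nat_lit 14,nat_lit 14,nat_lit 14],[nat_lit 14,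
    nat_lit 14,nat_lit 15],[nat_lit 14,nat_lit 15,nat_lit 12],[nat_lit 14,nat_lit 15,nat_lit 13],[nat_lit 14,
    nat_lit 15,nat_lit 14],[nat_lit 14,nat_lit 15,nat_lit 15],[nat_lit 15,nat_lit 2,nat_lit 4]],[[nat_lit 15,
    nat_lit 3,nat_lit 4],[nat_lit 15,nat_lit 5,nat_lit 3],[nat_lit 15,nat_lit 8,nat_lit 11],[nat_lit 15,nat_lit 9,
    nat_lit 10],[nat_lit 15,nat_lit 9,nat_lit 11],[nat_lit 15,nat_lit 10,nat_lit 8],[nat_lit 15,nat_lit 11,nat_lit 8],
    [nat_lit 15,nat_lit 12,nat_lit 13],[nat_lit 15,nat_lit 12,nat_lit 14],[nat_lit 15,nat_lit 13,nat_lit 12],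
    [nat_lit 15,nat_lit 13,nat_lit 13],[nat_lit 15,nat_lit 13,nat_lit 14]],[[nat_lit 15,nat_lit 13,nat_lit 15],
    [nat_lit 15,nat_lit 14,nat_lit 12],[nat_lit 15,nat_lit 14,nat_lit 13],[nat_lit 15,nat_lit 14,nat_lit 14],
    [nat_lit 15,nat_lit 14,nat_lit 15],[nat_lit 15,nat_lit 15,nat_lit 13],[nat_lit 15,nat_lit 15,nat_lit 14],
    [nat_lit 15,nat_lit 15,nat_lit 15]]]
    [[nat_lit 17,nat_lit 47,nat_lit 56,nat_lit 60,nat_lit 57,nat_lit 61,nat_lit 64,nat_lit 121,nat_lit 32,nat_lit 33,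
    nat_lit 37,nat_lit 39],[nat_lit 41,nat_lit 42,nat_lit 92,nat_lit 106,nat_lit 123,nat_lit 145,nat_lit 148,
    nat_lit 171,nat_lit 7,nat_lit 38,nat_lit 40,nat_lit 43],[nat_lit 78,nat_lit 79,nat_lit 93,nat_lit 107,nat_lit 124,
    nat_lit 149,nat_lit 172,nat_lit 193,nat_lit 6,nat_lit 36,nat_lit 58,nat_lit 62],[nat_lit 65,nat_lit 120,
    nat_lit 122,nat_lit 146,nat_lit 147,nat_lit 170,nat_lit 191,nat_lit 192,nat_lit 16,nat_lit 18,nat_lit 19,
    nat_lit 24],[nat_lit 25,nat_lit 28,nat_lit 29,nat_lit 30,nat_lit 31,nat_lit 48,nat_lit 59,nat_lit 63,nat_lit 2,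
    nat_lit 4,nat_lit 34,nat_lit 54],[nat_lit 3,nat_lit 5,nat_lit 35,nat_lit 55,nat_lit 8,nat_lit 9,nat_lit 101,
    nat_lit 102,nat_lit 113,nat_lit 115,nat_lit 118,nat_lit 128],[nat_lit 130,nat_lit 154,nat_lit 175,nat_lit 177,
    nat_lit 197,nat_lit 198,nat_lit 1,nat_lit 53,nat_lit 103,nat_lit 104,nat_lit 105,nat_lit 114],[nat_lit 116,
    nat_lit 117,nat_lit 119,nat_lit 129,nat_lit 131,nat_lit 155,nat_lit 156,nat_lit 176,nat_lit 14,nat_lit 26,
    nat_lit 71,nat_lit 73],[nat_lit 74,nat_lit 76,nat_lit 87,nat_lit 89,nat_lit 91,nat_lit 125,nat_lit 150,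
    nat_lit 152,nat_lit 173,nat_lit 195,nat_lit 15,nat_lit 27],[nat_lit 72,nat_lit 75,nat_lit 77,nat_lit 88,
    nat_lit 90,nat_lit 126,nat_lit 127,nat_lit 151,nat_lit 153,nat_lit 174,nat_lit 194,nat_lit 196],[nat_lit 10,
    nat_lit 20,nat_lit 21,nat_lit 44,nat_lit 49,nat_lit 66,nat_lit 68,nat_lit 83,nat_lit 94,nat_lit 98,nat_lit 108,
    nat_lit 111],[nat_lit 132,nat_lit 135,nat_lit 139,nat_lit 157,nat_lit 161,nat_lit 164,nat_lit 166,nat_lit 178,
    nat_lit 182,nat_lit 184,nat_lit 187,nat_lit 201],[nat_lit 205,nat_lit 0,nat_lit 11,nat_lit 22,nat_lit 45,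
    nat_lit 50,nat_lit 67,nat_lit 69,nat_lit 80,nat_lit 84,nat_lit 95,nat_lit 99],[nat_lit 112,nat_lit 133,
    nat_lit 136,nat_lit 140,nat_lit 143,nat_lit 158,nat_lit 162,nat_lit 167,nat_lit 179,nat_lit 188,nat_lit 199,
    nat_lit 202],[nat_lit 206,nat_lit 209,nat_lit 12,nat_lit 46,nat_lit 51,nat_lit 81,nat_lit 85,nat_lit 96,
    nat_lit 100,nat_lit 109,nat_lit 134,nat_lit 137],[nat_lit 141,nat_lit 144,nat_lit 159,nat_lit 168,nat_lit 180,
    nat_lit 185,nat_lit 189,nat_lit 200,nat_lit 203,nat_lit 207,nat_lit 210,nat_lit 13],[nat_lit 23,nat_lit 52,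
    nat_lit 70,nat_lit 82,nat_lit 86,nat_lit 97,nat_lit 110,nat_lit 138,nat_lit 142,nat_lit 160,nat_lit 163,
    nat_lit 165],[nat_lit 169,nat_lit 181,nat_lit 183,nat_lit 186,nat_lit 190,nat_lit 204,nat_lit 208,nat_lit 211]]
    [[nat_lit 145,nat_lit 78,nat_lit 56,nat_lit 60,nat_lit 57,nat_lit 61,nat_lit 32,nat_lit 20,nat_lit 64,nat_lit 65,
    nat_lit 120,nat_lit 146],[nat_lit 170,nat_lit 191,nat_lit 92,nat_lit 106,nat_lit 44,nat_lit 0,nat_lit 45,
    nat_lit 46,nat_lit 121,nat_lit 122,nat_lit 147,nat_lit 192],[nat_lit 47,nat_lit 48,nat_lit 93,nat_lit 107,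
    nat_lit 49,nat_lit 50,nat_lit 51,nat_lit 52,nat_lit 8,nat_lit 9,nat_lit 58,nat_lit 62],[nat_lit 33,nat_lit 10,
    nat_lit 21,nat_lit 11,nat_lit 22,nat_lit 12,nat_lit 13,nat_lit 23,nat_lit 123,nat_lit 148,nat_lit 171,nat_lit 1],
    [nat_lit 53,nat_lit 124,nat_lit 149,nat_lit 172,nat_lit 193,nat_lit 79,nat_lit 59,nat_lit 63,nat_lit 2,nat_lit 4,
    nat_lit 34,nat_lit 54],[nat_lit 3,nat_lit 5,nat_lit 35,nat_lit 55,nat_lit 6,nat_lit 36,nat_lit 125,nat_lit 150,
    nat_lit 126,nat_lit 151,nat_lit 194,nat_lit 94],[nat_lit 108,nat_lit 95,nat_lit 96,nat_lit 109,nat_lit 97,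
    nat_lit 110,nat_lit 24,nat_lit 25,nat_lit 152,nat_lit 173,nat_lit 195,nat_lit 127],[nat_lit 153,nat_lit 174,
    nat_lit 196,nat_lit 98,nat_lit 111,nat_lit 99,nat_lit 112,nat_lit 100,nat_lit 14,nat_lit 26,nat_lit 128,
    nat_lit 154],[nat_lit 175,nat_lit 197,nat_lit 129,nat_lit 155,nat_lit 176,nat_lit 66,nat_lit 67,nat_lit 80,
    nat_lit 81,nat_lit 82,nat_lit 15,nat_lit 27],[nat_lit 130,nat_lit 177,nat_lit 198,nat_lit 131,nat_lit 156,
    nat_lit 68,nat_lit 83,nat_lit 69,nat_lit 84,nat_lit 85,nat_lit 70,nat_lit 86],[nat_lit 37,nat_lit 7,nat_lit 38,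
    nat_lit 16,nat_lit 28,nat_lit 101,nat_lit 113,nat_lit 114,nat_lit 71,nat_lit 87,nat_lit 72,nat_lit 88],
    [nat_lit 132,nat_lit 157,nat_lit 178,nat_lit 133,nat_lit 158,nat_lit 179,nat_lit 199,nat_lit 134,nat_lit 159,
    nat_lit 180,nat_lit 200,nat_lit 160],[nat_lit 181,nat_lit 17,nat_lit 39,nat_lit 40,nat_lit 18,nat_lit 29,
    nat_lit 102,nat_lit 115,nat_lit 103,nat_lit 116,nat_lit 73,nat_lit 89],[nat_lit 90,nat_lit 135,nat_lit 161,
    nat_lit 182,nat_lit 201,nat_lit 136,nat_lit 162,nat_lit 202,nat_lit 137,nat_lit 203,nat_lit 138,nat_lit 163],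
    [nat_lit 183,nat_lit 204,nat_lit 41,nat_lit 19,nat_lit 30,nat_lit 104,nat_lit 117,nat_lit 74,nat_lit 91,
    nat_lit 75,nat_lit 139,nat_lit 164],[nat_lit 184,nat_lit 205,nat_lit 140,nat_lit 206,nat_lit 141,nat_lit 185,
    nat_lit 207,nat_lit 142,nat_lit 165,nat_lit 186,nat_lit 208,nat_lit 42],[nat_lit 43,nat_lit 31,nat_lit 118,
    nat_lit 105,nat_lit 119,nat_lit 76,nat_lit 77,nat_lit 166,nat_lit 187,nat_lit 143,nat_lit 167,nat_lit 188],
    [nat_lit 209,nat_lit 144,nat_lit 168,nat_lit 189,nat_lit 210,nat_lit 169,nat_lit 190,nat_lit 211]]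
    [[[nat_lit 170],[nat_lit 172],[nat_lit 175,nat_lit 177],[],[],[nat_lit 24,nat_lit 25,nat_lit 28,nat_lit 29,
    nat_lit 30,nat_lit 31],[nat_lit 26],[],[nat_lit 2],[nat_lit 2],[nat_lit 2],[nat_lit 2]],[[nat_lit 2],[nat_lit 2],
    [],[nat_lit 1],[],[],[],[],[nat_lit 52],[nat_lit 54],[nat_lit 54],[nat_lit 54]],[[nat_lit 55],[nat_lit 55],
    [nat_lit 44,nat_lit 49],[nat_lit 53],[nat_lit 46,nat_lit 51],[],[nat_lit 47],[nat_lit 45,nat_lit 50],[nat_lit 13],
    [],[nat_lit 8,nat_lit 9],[nat_lit 16,nat_lit 18,nat_lit 19]],[[nat_lit 14],[nat_lit 12],[nat_lit 12],[nat_lit 15],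
    [nat_lit 15],[nat_lit 17],[nat_lit 11],[nat_lit 11],[nat_lit 62],[nat_lit 62],[nat_lit 62],[nat_lit 61]],
    [[nat_lit 61],[nat_lit 61],[nat_lit 61],[nat_lit 61],[nat_lit 61],[],[],[nat_lit 63],[nat_lit 32,nat_lit 33,
    nat_lit 37,nat_lit 39,nat_lit 41,nat_lit 42],[],[nat_lit 34],[nat_lit 38,nat_lit 40,nat_lit 43]],[[],[nat_lit 82,
    nat_lit 86],[],[nat_lit 78,nat_lit 79],[nat_lit 58],[nat_lit 58],[],[],[],[],[],[]],[[],[],[nat_lit 56],
    [nat_lit 56],[],[],[nat_lit 106],[nat_lit 107],[nat_lit 108,nat_lit 111],[nat_lit 108,nat_lit 111],[nat_lit 108,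
    nat_lit 111],[nat_lit 114,nat_lit 116,nat_lit 117,nat_lit 119]],[[nat_lit 114,nat_lit 116,nat_lit 117,
    nat_lit 119],[nat_lit 114,nat_lit 116,nat_lit 117,nat_lit 119],[nat_lit 114,nat_lit 116,nat_lit 117,nat_lit 119],
    [nat_lit 109],[nat_lit 109],[],[],[],[nat_lit 65],[nat_lit 64],[nat_lit 71,nat_lit 73,nat_lit 74,nat_lit 76],
    [nat_lit 71,nat_lit 73,nat_lit 74,nat_lit 76]],[[nat_lit 71,nat_lit 73,nat_lit 74,nat_lit 76],[nat_lit 71,
    nat_lit 73,nat_lit 74,nat_lit 76],[],[],[],[],[nat_lit 72,nat_lit 75,nat_lit 77],[nat_lit 72,nat_lit 75,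
    nat_lit 77],[],[nat_lit 67,nat_lit 69],[nat_lit 146,nat_lit 147],[]],[[nat_lit 150,nat_lit 152],[nat_lit 150,
    nat_lit 152],[nat_lit 150,nat_lit 152],[],[],[nat_lit 159,nat_lit 168],[nat_lit 159,nat_lit 168],[nat_lit 151,
    nat_lit 153],[nat_lit 151,nat_lit 153],[],[nat_lit 158,nat_lit 162,nat_lit 167],[nat_lit 158,nat_lit 162,
    nat_lit 167]],[[],[],[],[nat_lit 93],[nat_lit 93],[],[],[],[nat_lit 94,nat_lit 98],[nat_lit 94,nat_lit 98],
    [nat_lit 103,nat_lit 104,nat_lit 105],[nat_lit 103,nat_lit 104,nat_lit 105]],[[nat_lit 96,nat_lit 100],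
    [nat_lit 96,nat_lit 100],[nat_lit 96,nat_lit 100],[],[],[],[],[],[],[],[],[nat_lit 95,nat_lit 99]],[[nat_lit 95,
    nat_lit 99],[],[nat_lit 191,nat_lit 192],[],[nat_lit 193],[nat_lit 193],[nat_lit 195],[nat_lit 195],[],[],
    [nat_lit 201,nat_lit 205],[nat_lit 201,nat_lit 205]],[[],[nat_lit 200,nat_lit 203,nat_lit 207,nat_lit 210],
    [nat_lit 200,nat_lit 203,nat_lit 207,nat_lit 210],[nat_lit 200,nat_lit 203,nat_lit 207,nat_lit 210],[nat_lit 200,
    nat_lit 203,nat_lit 207,nat_lit 210],[nat_lit 194,nat_lit 196],[nat_lit 194,nat_lit 196],[nat_lit 194,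
    nat_lit 196],[],[],[nat_lit 199,nat_lit 202,nat_lit 206,nat_lit 209],[nat_lit 199,nat_lit 202,nat_lit 206,
    nat_lit 209]],[[nat_lit 199,nat_lit 202,nat_lit 206,nat_lit 209],[nat_lit 199,nat_lit 202,nat_lit 206,
    nat_lit 209],[nat_lit 120,nat_lit 122],[nat_lit 124],[nat_lit 124],[],[],[nat_lit 132,nat_lit 135,nat_lit 139],
    [nat_lit 132,nat_lit 135,nat_lit 139],[nat_lit 129,nat_lit 131],[nat_lit 134,nat_lit 137,nat_lit 141,nat_lit 144],
    [nat_lit 134,nat_lit 137,nat_lit 141,nat_lit 144]],[[nat_lit 134,nat_lit 137,nat_lit 141,nat_lit 144],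
    [nat_lit 134,nat_lit 137,nat_lit 141,nat_lit 144],[nat_lit 126,nat_lit 127],[nat_lit 126,nat_lit 127],[],[],[],
    [nat_lit 133,nat_lit 136,nat_lit 140,nat_lit 143],[nat_lit 133,nat_lit 136,nat_lit 140,nat_lit 143],[nat_lit 133,
    nat_lit 136,nat_lit 140,nat_lit 143],[nat_lit 133,nat_lit 136,nat_lit 140,nat_lit 143],[nat_lit 6]],[[],
    [nat_lit 7],[],[nat_lit 5],[nat_lit 5],[],[],[],[],[],[],[]],[[],[],[],[],[],[],[],[]]]
    (nat_lit 212) [nat_lit 0,nat_lit 1,nat_lit 2,nat_lit 3,nat_lit 4,nat_lit 5,nat_lit 6,nat_lit 7,nat_lit 9,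
    nat_lit 10,nat_lit 11,nat_lit 12,nat_lit 13,nat_lit 14,nat_lit 15,nat_lit 16,nat_lit 18,nat_lit 19,nat_lit 21,
    nat_lit 22,nat_lit 23,nat_lit 25,nat_lit 26,nat_lit 27,nat_lit 28,nat_lit 29,nat_lit 30,nat_lit 31,nat_lit 34,
    nat_lit 35,nat_lit 54,nat_lit 55,nat_lit 66,nat_lit 67,nat_lit 68,nat_lit 69,nat_lit 70,nat_lit 71,nat_lit 72,
    nat_lit 73,nat_lit 74,nat_lit 75,nat_lit 76,nat_lit 77,nat_lit 80,nat_lit 81,nat_lit 82,nat_lit 83,nat_lit 84,
    nat_lit 85,nat_lit 86,nat_lit 87,nat_lit 88,nat_lit 89,nat_lit 90,nat_lit 91,nat_lit 132,nat_lit 133,nat_lit 134,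
    nat_lit 135,nat_lit 136,nat_lit 137,nat_lit 138,nat_lit 139,nat_lit 140,nat_lit 141,nat_lit 142,nat_lit 143,
    nat_lit 144,nat_lit 162,nat_lit 163,nat_lit 165,nat_lit 167,nat_lit 168,nat_lit 169,nat_lit 185,nat_lit 186,
    nat_lit 189,nat_lit 190,nat_lit 211]
    [[[],[],[],[],[],[],[nat_lit 2],[nat_lit 3],[],[nat_lit 1],[],[],[],[nat_lit 0],[],[]],[[],[],[],[nat_lit 7],
    [nat_lit 6],[],[nat_lit 4],[nat_lit 5],[],[],[],[],[],[],[],[]],[[nat_lit 17],[],[],[],[],[nat_lit 16,nat_lit 18,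
    nat_lit 19],[],[],[nat_lit 8,nat_lit 9],[],[nat_lit 14],[nat_lit 15],[nat_lit 10],[nat_lit 11],[nat_lit 12],
    [nat_lit 13]],[[],[],[],[],[],[nat_lit 24,nat_lit 25,nat_lit 28,nat_lit 29,nat_lit 30,nat_lit 31],[],[],[],[],
    [nat_lit 26],[nat_lit 27],[nat_lit 20,nat_lit 21],[nat_lit 22],[],[nat_lit 23]],[[],[],[nat_lit 32,nat_lit 33,
    nat_lit 37,nat_lit 39,nat_lit 41,nat_lit 42],[nat_lit 38,nat_lit 40,nat_lit 43],[nat_lit 36],[],[nat_lit 34],
    [nat_lit 35],[],[],[],[],[],[],[],[]],[[nat_lit 47],[],[],[],[],[nat_lit 48],[nat_lit 54],[nat_lit 55],[],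
    [nat_lit 53],[],[],[nat_lit 44,nat_lit 49],[nat_lit 45,nat_lit 50],[nat_lit 46,nat_lit 51],[nat_lit 52]],
    [[nat_lit 56],[nat_lit 57],[],[],[nat_lit 58],[nat_lit 59],[],[],[],[],[],[],[],[],[],[]],[[nat_lit 60],
    [nat_lit 61],[],[],[nat_lit 62],[nat_lit 63],[],[],[],[],[],[],[],[],[],[]],[[],[nat_lit 64],[],[],[nat_lit 65],
    [],[],[],[],[],[nat_lit 71,nat_lit 73,nat_lit 74,nat_lit 76],[nat_lit 72,nat_lit 75,nat_lit 77],[nat_lit 66,
    nat_lit 68],[nat_lit 67,nat_lit 69],[],[nat_lit 70]],[[],[],[],[nat_lit 78,nat_lit 79],[],[],[],[],[],[],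
    [nat_lit 87,nat_lit 89,nat_lit 91],[nat_lit 88,nat_lit 90],[nat_lit 83],[nat_lit 80,nat_lit 84],[nat_lit 81,
    nat_lit 85],[nat_lit 82,nat_lit 86]],[[],[],[nat_lit 92],[nat_lit 93],[],[],[],[],[nat_lit 101,nat_lit 102],
    [nat_lit 103,nat_lit 104,nat_lit 105],[],[],[nat_lit 94,nat_lit 98],[nat_lit 95,nat_lit 99],[nat_lit 96,
    nat_lit 100],[nat_lit 97]],[[],[],[nat_lit 106],[nat_lit 107],[],[],[],[],[nat_lit 113,nat_lit 115,nat_lit 118],
    [nat_lit 114,nat_lit 116,nat_lit 117,nat_lit 119],[],[],[nat_lit 108,nat_lit 111],[nat_lit 112],[nat_lit 109],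
    [nat_lit 110]],[[],[nat_lit 121],[nat_lit 123],[nat_lit 124],[nat_lit 120,nat_lit 122],[],[],[],[nat_lit 128,
    nat_lit 130],[nat_lit 129,nat_lit 131],[nat_lit 125],[nat_lit 126,nat_lit 127],[nat_lit 132,nat_lit 135,
    nat_lit 139],[nat_lit 133,nat_lit 136,nat_lit 140,nat_lit 143],[nat_lit 134,nat_lit 137,nat_lit 141,nat_lit 144],
    [nat_lit 138,nat_lit 142]],[[],[],[nat_lit 145,nat_lit 148],[nat_lit 149],[nat_lit 146,nat_lit 147],[],[],[],
    [nat_lit 154],[nat_lit 155,nat_lit 156],[nat_lit 150,nat_lit 152],[nat_lit 151,nat_lit 153],[nat_lit 157,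
    nat_lit 161,nat_lit 164,nat_lit 166],[nat_lit 158,nat_lit 162,nat_lit 167],[nat_lit 159,nat_lit 168],[nat_lit 160,
    nat_lit 163,nat_lit 165,nat_lit 169]],[[],[],[nat_lit 171],[nat_lit 172],[nat_lit 170],[],[],[],[nat_lit 175,
    nat_lit 177],[nat_lit 176],[nat_lit 173],[nat_lit 174],[nat_lit 178,nat_lit 182,nat_lit 184,nat_lit 187],
    [nat_lit 179,nat_lit 188],[nat_lit 180,nat_lit 185,nat_lit 189],[nat_lit 181,nat_lit 183,nat_lit 186,
    nat_lit 190]],[[],[],[],[nat_lit 193],[nat_lit 191,nat_lit 192],[],[],[],[nat_lit 197,nat_lit 198],[],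
    [nat_lit 195],[nat_lit 194,nat_lit 196],[nat_lit 201,nat_lit 205],[nat_lit 199,nat_lit 202,nat_lit 206,
    nat_lit 209],[nat_lit 200,nat_lit 203,nat_lit 207,nat_lit 210],[nat_lit 204,nat_lit 208,nat_lit 211]]]
    [[[nat_lit 0x4000000000000000000000000000000000000000000,nat_lit 0x10000000000000000000000000000000000000000000,
    nat_lit 0x280000000000000000000000000000000000000000000,nat_lit 0,nat_lit 0,nat_lit 0xf3000000,nat_lit 0x4000000,
    nat_lit 0,nat_lit 4],[nat_lit 4,nat_lit 4,nat_lit 4,nat_lit 4,nat_lit 4,nat_lit 0,nat_lit 2,nat_lit 0,nat_lit 0],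
    [nat_lit 0,nat_lit 0,nat_lit 0x10000000000000,nat_lit 0x40000000000000,nat_lit 0x40000000000000,
    nat_lit 0x40000000000000,nat_lit 0x80000000000000,nat_lit 0x80000000000000,nat_lit 0x2100000000000],
    [nat_lit 0x20000000000000,nat_lit 0x8400000000000,nat_lit 0,nat_lit 0x800000000000,nat_lit 0x4200000000000,
    nat_lit 0x2000,nat_lit 0,nat_lit 768,nat_lit 0xd0000],[nat_lit 0x4000,nat_lit 0x1000,nat_lit 0x1000,
    nat_lit 0x8000,nat_lit 0x8000,nat_lit 0x20000,nat_lit 0x800,nat_lit 0x800,nat_lit 0x4000000000000000],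
    [nat_lit 0x4000000000000000,nat_lit 0x4000000000000000,nat_lit 0x2000000000000000,nat_lit 0x2000000000000000,
    nat_lit 0x2000000000000000,nat_lit 0x2000000000000000,nat_lit 0x2000000000000000,nat_lit 0x2000000000000000,
    nat_lit 0],[nat_lit 0,nat_lit 0x8000000000000000,nat_lit 0x6a300000000,nat_lit 0,nat_lit 0x400000000,
    nat_lit 0x94000000000,nat_lit 0,nat_lit 0x4400000000000000000000,nat_lit 0],[nat_lit 0xc0000000000000000000,
    nat_lit 0x400000000000000,nat_lit 0x400000000000000,nat_lit 0,nat_lit 0,nat_lit 0,nat_lit 0,nat_lit 0,nat_lit 0],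
    [nat_lit 0,nat_lit 0,nat_lit 0x100000000000000,nat_lit 0x100000000000000,nat_lit 0,nat_lit 0,
    nat_lit 0x400000000000000000000000000,nat_lit 0x800000000000000000000000000,
    nat_lit 0x9000000000000000000000000000]],[[nat_lit 0x9000000000000000000000000000,
    nat_lit 0x9000000000000000000000000000,nat_lit 0xb40000000000000000000000000000,
    nat_lit 0xb40000000000000000000000000000,nat_lit 0xb40000000000000000000000000000,
    nat_lit 0xb40000000000000000000000000000,nat_lit 0x2000000000000000000000000000,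
    nat_lit 0x2000000000000000000000000000,nat_lit 0],[nat_lit 0,nat_lit 0,nat_lit 0x20000000000000000,
    nat_lit 0x10000000000000000,nat_lit 0x16800000000000000000,nat_lit 0x16800000000000000000,
    nat_lit 0x16800000000000000000,nat_lit 0x16800000000000000000,nat_lit 0],[nat_lit 0,nat_lit 0,nat_lit 0,
    nat_lit 0x29000000000000000000,nat_lit 0x29000000000000000000,nat_lit 0,nat_lit 0x280000000000000000,
    nat_lit 0xc000000000000000000000000000000000000,nat_lit 0],[nat_lit 0x140000000000000000000000000000000000000,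
    nat_lit 0x140000000000000000000000000000000000000,nat_lit 0x140000000000000000000000000000000000000,nat_lit 0,
    nat_lit 0,nat_lit 0x1008000000000000000000000000000000000000000,
    nat_lit 0x1008000000000000000000000000000000000000000,nat_lit 0x280000000000000000000000000000000000000,
    nat_lit 0x280000000000000000000000000000000000000],[nat_lit 0,
    nat_lit 0x844000000000000000000000000000000000000000,nat_lit 0x844000000000000000000000000000000000000000,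
    nat_lit 0,nat_lit 0,nat_lit 0,nat_lit 0x200000000000000000000000,nat_lit 0x200000000000000000000000,nat_lit 0],
    [nat_lit 0,nat_lit 0,nat_lit 0x4400000000000000000000000,nat_lit 0x4400000000000000000000000,
    nat_lit 0x380000000000000000000000000,nat_lit 0x380000000000000000000000000,nat_lit 0x11000000000000000000000000,
    nat_lit 0x11000000000000000000000000,nat_lit 0x11000000000000000000000000],[nat_lit 0,nat_lit 0,nat_lit 0,
    nat_lit 0,nat_lit 0,nat_lit 0,nat_lit 0,nat_lit 0,nat_lit 0x8800000000000000000000000],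
    [nat_lit 0x8800000000000000000000000,nat_lit 0,nat_lit 0x1800000000000000000000000000000000000000000000000,
    nat_lit 0,nat_lit 0x2000000000000000000000000000000000000000000000000,
    nat_lit 0x2000000000000000000000000000000000000000000000000,
    nat_lit 0x8000000000000000000000000000000000000000000000000,
    nat_lit 0x8000000000000000000000000000000000000000000000000,nat_lit 0],[nat_lit 0,
    nat_lit 0x2200000000000000000000000000000000000000000000000000,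
    nat_lit 0x2200000000000000000000000000000000000000000000000000,nat_lit 0,
    nat_lit 0x48900000000000000000000000000000000000000000000000000,
    nat_lit 0x48900000000000000000000000000000000000000000000000000,
    nat_lit 0x48900000000000000000000000000000000000000000000000000,
    nat_lit 0x48900000000000000000000000000000000000000000000000000,
    nat_lit 0x14000000000000000000000000000000000000000000000000]],
    [[nat_lit 0x14000000000000000000000000000000000000000000000000,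
    nat_lit 0x14000000000000000000000000000000000000000000000000,nat_lit 0,nat_lit 0,
    nat_lit 0x24480000000000000000000000000000000000000000000000000,
    nat_lit 0x24480000000000000000000000000000000000000000000000000,
    nat_lit 0x24480000000000000000000000000000000000000000000000000,
    nat_lit 0x24480000000000000000000000000000000000000000000000000,nat_lit 0x5000000000000000000000000000000],
    [nat_lit 0x10000000000000000000000000000000,nat_lit 0x10000000000000000000000000000000,nat_lit 0,nat_lit 0,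
    nat_lit 0x89000000000000000000000000000000000,nat_lit 0x89000000000000000000000000000000000,
    nat_lit 0xa00000000000000000000000000000000,nat_lit 0x1224000000000000000000000000000000000,
    nat_lit 0x1224000000000000000000000000000000000],[nat_lit 0x1224000000000000000000000000000000000,
    nat_lit 0x1224000000000000000000000000000000000,nat_lit 0xc0000000000000000000000000000000,
    nat_lit 0xc0000000000000000000000000000000,nat_lit 0,nat_lit 0,nat_lit 0,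
    nat_lit 0x912000000000000000000000000000000000,nat_lit 0x912000000000000000000000000000000000],
    [nat_lit 0x912000000000000000000000000000000000,nat_lit 0x912000000000000000000000000000000000,nat_lit 64,
    nat_lit 0,nat_lit 128,nat_lit 0,nat_lit 32,nat_lit 32,nat_lit 0],[nat_lit 0,nat_lit 0,nat_lit 0,nat_lit 0,
    nat_lit 0,nat_lit 0,nat_lit 0,nat_lit 0,nat_lit 0],[nat_lit 0,nat_lit 0,nat_lit 0,nat_lit 0,nat_lit 0]]]
    [[[[nat_lit 0,nat_lit 0x10000000000000000000000000000000000000000000,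
    nat_lit 0x280000000000000000000000000000000000000000000,nat_lit 0,nat_lit 0,nat_lit 0x61000000,nat_lit 0,
    nat_lit 0,nat_lit 4],[nat_lit 0,nat_lit 4,nat_lit 0,nat_lit 0,nat_lit 4,nat_lit 0,nat_lit 0,nat_lit 0,nat_lit 0],
    [nat_lit 0,nat_lit 0,nat_lit 0,nat_lit 0,nat_lit 0,nat_lit 0,nat_lit 0,nat_lit 0,nat_lit 0],[nat_lit 0,nat_lit 0,
    nat_lit 0,nat_lit 0,nat_lit 0,nat_lit 0,nat_lit 0,nat_lit 0,nat_lit 0],[nat_lit 0,nat_lit 0,nat_lit 0,nat_lit 0,
    nat_lit 0,nat_lit 0,nat_lit 0,nat_lit 0,nat_lit 0],[nat_lit 0,nat_lit 0,nat_lit 0,nat_lit 0,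
    nat_lit 0x2000000000000000,nat_lit 0,nat_lit 0x2000000000000000,nat_lit 0x2000000000000000,nat_lit 0],[nat_lit 0,
    nat_lit 0,nat_lit 0x68000000000,nat_lit 0,nat_lit 0,nat_lit 0,nat_lit 0,nat_lit 0x4400000000000000000000,
    nat_lit 0],[nat_lit 0,nat_lit 0,nat_lit 0,nat_lit 0,nat_lit 0,nat_lit 0,nat_lit 0,nat_lit 0,nat_lit 0],[nat_lit 0,
    nat_lit 0,nat_lit 0x100000000000000,nat_lit 0x100000000000000,nat_lit 0,nat_lit 0,nat_lit 0,nat_lit 0,
    nat_lit 0x8000000000000000000000000000]],[[nat_lit 0,nat_lit 0,nat_lit 0,nat_lit 0x800000000000000000000000000000,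
    nat_lit 0,nat_lit 0x800000000000000000000000000000,nat_lit 0x2000000000000000000000000000,
    nat_lit 0x2000000000000000000000000000,nat_lit 0],[nat_lit 0,nat_lit 0,nat_lit 0,nat_lit 0,nat_lit 0,nat_lit 0,
    nat_lit 0x4800000000000000000,nat_lit 0,nat_lit 0],[nat_lit 0,nat_lit 0,nat_lit 0,nat_lit 0x1000000000000000000,
    nat_lit 0,nat_lit 0,nat_lit 0x280000000000000000,nat_lit 0,nat_lit 0],[nat_lit 0,
    nat_lit 0x100000000000000000000000000000000000000,nat_lit 0,nat_lit 0,nat_lit 0,nat_lit 0,nat_lit 0,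
    nat_lit 0x200000000000000000000000000000000000000,nat_lit 0],[nat_lit 0,nat_lit 0,
    nat_lit 0x40000000000000000000000000000000000000000,nat_lit 0,nat_lit 0,nat_lit 0,nat_lit 0,nat_lit 0,nat_lit 0],
    [nat_lit 0,nat_lit 0,nat_lit 0x4000000000000000000000000,nat_lit 0,nat_lit 0x200000000000000000000000000,
    nat_lit 0,nat_lit 0x1000000000000000000000000,nat_lit 0,nat_lit 0],[nat_lit 0,nat_lit 0,nat_lit 0,nat_lit 0,
    nat_lit 0,nat_lit 0,nat_lit 0,nat_lit 0,nat_lit 0],[nat_lit 0,nat_lit 0,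
    nat_lit 0x800000000000000000000000000000000000000000000000,nat_lit 0,nat_lit 0,
    nat_lit 0x2000000000000000000000000000000000000000000000000,nat_lit 0,nat_lit 0,nat_lit 0],[nat_lit 0,nat_lit 0,
    nat_lit 0,nat_lit 0,nat_lit 0,nat_lit 0,nat_lit 0,nat_lit 0,nat_lit 0]],
    [[nat_lit 0x10000000000000000000000000000000000000000000000000,nat_lit 0,nat_lit 0,nat_lit 0,nat_lit 0,nat_lit 0,
    nat_lit 0,nat_lit 0,nat_lit 0x1000000000000000000000000000000],[nat_lit 0,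
    nat_lit 0x10000000000000000000000000000000,nat_lit 0,nat_lit 0,nat_lit 0x1000000000000000000000000000000000,
    nat_lit 0,nat_lit 0,nat_lit 0,nat_lit 0],[nat_lit 0,nat_lit 0,nat_lit 0,nat_lit 0,nat_lit 0,nat_lit 0,nat_lit 0,
    nat_lit 0,nat_lit 0],[nat_lit 0,nat_lit 0,nat_lit 64,nat_lit 0,nat_lit 0,nat_lit 0,nat_lit 32,nat_lit 32,
    nat_lit 0],[nat_lit 0,nat_lit 0,nat_lit 0,nat_lit 0,nat_lit 0,nat_lit 0,nat_lit 0,nat_lit 0,nat_lit 0],[nat_lit 0,
    nat_lit 0,nat_lit 0,nat_lit 0,nat_lit 0]]]]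
    (nat_lit 1) (nat_lit 1) (nat_lit 9)
    [[nat_lit 17,nat_lit 257,nat_lit 0x11001,nat_lit 0x10001,nat_lit 0x100001,nat_lit 0x111001,nat_lit 0x110001,
    nat_lit 0x10100001,nat_lit 0x1000001,nat_lit 0x10000001],[nat_lit 32,nat_lit 272,nat_lit 528,nat_lit 0x10110,
    nat_lit 0x1010,nat_lit 0x11010,nat_lit 0x101010,nat_lit 0x10010,nat_lit 0x110010,nat_lit 0x1000010,
    nat_lit 0x1001010,nat_lit 0x1010010,nat_lit 0x10000010,nat_lit 0x10010010,nat_lit 0x10010110],[nat_lit 512,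
    nat_lit 0x10000200,nat_lit 0x10001100,nat_lit 0x10100,nat_lit 0x10200,nat_lit 0x11100,nat_lit 0x10011100,
    nat_lit 0x110100,nat_lit 0x1010100,nat_lit 0x10010100,nat_lit 0x100100,nat_lit 0x101100,nat_lit 0x1100100,
    nat_lit 0x10100100,nat_lit 0x1000100,nat_lit 0x11000100,nat_lit 0x1001100,nat_lit 0x2000100,nat_lit 0x10000100,
    nat_lit 0x20000100],[nat_lit 0x2000,nat_lit 0x3000,nat_lit 0x12000,nat_lit 0x112000,nat_lit 0x102000,
    nat_lit 0x1002000,nat_lit 0x1102000,nat_lit 0x10002000,nat_lit 0x202000,nat_lit 0x11000,nat_lit 0x111000,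
    nat_lit 0x1011000,nat_lit 0x10011000,nat_lit 0x1012000,nat_lit 0x211000,nat_lit 0x1111000,nat_lit 0x10111000,
    nat_lit 0x101000,nat_lit 0x201000,nat_lit 0x301000,nat_lit 0x1101000,nat_lit 0x10101000,nat_lit 0x1001000,
    nat_lit 0x2001000,nat_lit 0x11001000,nat_lit 0x2002000,nat_lit 0x1201000,nat_lit 0x2101000,nat_lit 0x11101000,
    nat_lit 0x10001000,nat_lit 0x20001000],[nat_lit 0x20000,nat_lit 0x110000,nat_lit 0x210000,nat_lit 0x1010000,
    nat_lit 0x10010000],[nat_lit 0x200000,nat_lit 0x300000,nat_lit 0x400000,nat_lit 0x1200000,nat_lit 0x10200000,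
    nat_lit 0x1100000,nat_lit 0x2100000,nat_lit 0x11100000,nat_lit 0x10100000,nat_lit 0x20100000],[nat_lit 0x2000000,
    nat_lit 0x11000000],[nat_lit 0x20000000]]
    [.c (nat_lit 0) (nat_lit 0x4600007),.c (nat_lit 1) (nat_lit 0xc4000006),.c (nat_lit 0) (nat_lit 0x10806108e6),
    .c (nat_lit 0) (nat_lit 0x1004000007),.c (nat_lit 0) (nat_lit 0x2004000007),.c (nat_lit 0) (nat_lit 0x806108e6),
    .c (nat_lit 0) (nat_lit 0x2004000007),.c (nat_lit 2) (nat_lit 0x4c10007),.c (nat_lit 0) (nat_lit 0x4600807),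
    .c (nat_lit 0) (nat_lit 0x4610007),.c (nat_lit 2) (nat_lit 2),.c (nat_lit 0) (nat_lit 0x80600007),
    .c (nat_lit 0) (nat_lit 0x1100600007),.c (nat_lit 0) (nat_lit 0x1084600007),.c (nat_lit 0) (nat_lit 0x30840108e6),
    .c (nat_lit 0) (nat_lit 0x30840108e6),.c (nat_lit 0) (nat_lit 0x10846108e6),.c (nat_lit 0) (nat_lit 0x1008600007),
    .c (nat_lit 0) (nat_lit 0x300002),.c (nat_lit 0) (nat_lit 0x4600807),.c (nat_lit 1) (nat_lit 0x18c40180c7),
    .c (nat_lit 2) (nat_lit 0x1800600c06),.c (nat_lit 0) (nat_lit 0x4610007),.c (nat_lit 2) (nat_lit 0x1800618006),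
    .c (nat_lit 0) (nat_lit 0xc0718006),.c (nat_lit 3) (nat_lit 2),.c (nat_lit 0) (nat_lit 0x2100010007),
    .c (nat_lit 0) (nat_lit 0x10046008e6),.c (nat_lit 0) (nat_lit 0x1080000007),.c (nat_lit 0) (nat_lit 0x1100600007),
    .c (nat_lit 0) (nat_lit 0x10046108e6),.c (nat_lit 0) (nat_lit 0x4c008e6),.c (nat_lit 0) (nat_lit 0x2080000007),
    .c (nat_lit 0) (nat_lit 0x1080000807),.c (nat_lit 0) (nat_lit 0x1080010007),.c (nat_lit 0) (nat_lit 0x2080000007),
    .c (nat_lit 0) (nat_lit 0x10846108e6),.c (nat_lit 2) (nat_lit 0x80c00807),.c (nat_lit 2) (nat_lit 0x80c10007),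
    .c (nat_lit 0) (nat_lit 0x80600807),.c (nat_lit 0) (nat_lit 0x1080010807),.c (nat_lit 0) (nat_lit 0x10046100e6),
    .c (nat_lit 0) (nat_lit 0x1080001007),.c (nat_lit 0) (nat_lit 0x80610007),.c (nat_lit 0) (nat_lit 0x1080020007),
    .c (nat_lit 4) (nat_lit 2),.c (nat_lit 0) (nat_lit 0x1084c108e2),.c (nat_lit 0) (nat_lit 0x4108c211a6),
    .c (nat_lit 0) (nat_lit 0x11098211a6),.c (nat_lit 0) (nat_lit 0x10846108e6),.c (nat_lit 0) (nat_lit 0x21098209a6),
    .c (nat_lit 0) (nat_lit 0x10846100e6),.c (nat_lit 0) (nat_lit 0x21098111a6),.c (nat_lit 0) (nat_lit 0x2108c211a6),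
    .c (nat_lit 2) (nat_lit 0x852108e6),.c (nat_lit 0) (nat_lit 0x84c108e6),.c (nat_lit 0) (nat_lit 0x20846100e6),
    .c (nat_lit 0) (nat_lit 0x20846008e6),.c (nat_lit 0) (nat_lit 0x4108c209a6),.c (nat_lit 0) (nat_lit 0x846108e6),
    .c (nat_lit 0) (nat_lit 0x1800000c06),.c (nat_lit 0) (nat_lit 0x1800018006),.c (nat_lit 0) (nat_lit 0x10846108e6),
    .c (nat_lit 0) (nat_lit 0x2108c211a6),.c (nat_lit 0) (nat_lit 0x10846108e2),.c (nat_lit 0) (nat_lit 0x10846100e6),
    .c (nat_lit 0) (nat_lit 0x10846008e6),.c (nat_lit 0) (nat_lit 0x20846100e6),.c (nat_lit 0) (nat_lit 0x1084c10ce6),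
    .c (nat_lit 0) (nat_lit 0x1084c000e6),.c (nat_lit 0) (nat_lit 0x21098201a6),.c (nat_lit 0) (nat_lit 0x2108c209a6),
    .c (nat_lit 0) (nat_lit 0x1084610ce6),.c (nat_lit 0) (nat_lit 0x10846000e6),.c (nat_lit 0) (nat_lit 0x20846008e6),
    .c (nat_lit 0) (nat_lit 0x1084c188e6),.c (nat_lit 5) (nat_lit 2),.c (nat_lit 0) (nat_lit 0x1000000007),
    .c (nat_lit 0) (nat_lit 0x1804000006),.c (nat_lit 0) (nat_lit 0x1004000807),.c (nat_lit 0) (nat_lit 0x1004010007),
    .c (nat_lit 6) (nat_lit 2),.c (nat_lit 0) (nat_lit 0x4000002),.c (nat_lit 0) (nat_lit 0x10000006),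
    .c (nat_lit 0) (nat_lit 0x8000c06),.c (nat_lit 0) (nat_lit 0x8018006),.c (nat_lit 0) (nat_lit 0x1000000807),
    .c (nat_lit 0) (nat_lit 0x4001406),.c (nat_lit 0) (nat_lit 0x4018c06),.c (nat_lit 0) (nat_lit 0x1000010007),
    .c (nat_lit 0) (nat_lit 0x4028006),.c (nat_lit 7) (nat_lit 2),.c (nat_lit 0) (nat_lit 0x10807),
    .c (nat_lit 8) (nat_lit 2)]]

/-- nodes -/
noncomputable def rD8k_3_12 : List RJ :=
  [.s (nat_lit 14) (nat_lit 0x960) (nat_lit 4) (nat_lit 0x3b6000003b6000003ec000003ec000003f6000003f600000392000003920000045500000455000003be000003be0000044d0000044d000003b6000003b6) (nat_lit 0x9f0000009f00000069000000690000005f0000005f000000c3000000c30000000000000000000000970000009700000008000000080000009f0000009f)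
    (nat_lit 0xcec31709342bd0acc38f0dcc2cf0ed83b60c7c3b90f983ae0c5c3170c5c33b0d3434d0d0c3570eec35f0de0346081431f0eb82a40e9c23b0d342bd0e0c3830c8438d0e6433d0fb0324117c39313004fe0ca434d0d3424d0e0c3830e3438d0ca43290fb03ec0dec2af114048e0c5434d0d5c38f0e3438d0e5c3970ccc33312703f60ad435f0fb83c8115c2eb0d0c2b30e343210e5c3970ccc33315604b20d7c35f0e083ee0dec3950d7c2cf0ca433d0ccc333084c2cf0e483920bec1990d3038a0e5c35f0eec3730ca43990ccc3330b3c2130e4839208542fb0e2832e0bcc2f30d183b60fb032412c83f60e48392115445510683be11345330cd83b60de03b60fb03ec156049c0e48392115445510683be10cc5190c703b60c7c3b90abc3930d7c35f0bec1990ef83be096c3270ed835a0c7c339081431f0dec45f0d7c2b508542fb106841a0c9c25b0ed83b60c7c31f0a903ae12384fe0fb83c80cb838a14645330ed835a11144450eb83ae0eb83e611404c00e083ee0e2834c10cc44d0ed83b611144450eb83ae08ec3170d3434d0e542eb0bcc35f0ed83b60c7c3390eb83ae0b7c3170e9c3170c543290dec4570bcc3970c703360c7c31f0eb83ae0c5c2df)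
    (nat_lit 0xcec96025809602580960258096025809602580960258096025809600c5c33b2580960258096025809602580960258096025809602580960093434d0e0c9602580960258096025809602580960258096025809600af434d0e0c3832580960258096025809602580960258096025809600acc3430c8438d0e5c960258096025809602580960258096025809600e3c3570e3438d0e5c397258096025809602580960258096025809600dcc3bb0e643290ccc333084c96025809602580960258096025809600b3c35f0cf43290ccc3330b3c21325809602580960258096025809600ed83780fb03ec12705580e4839211549602580960258096025809600ed83460c903ec0fd84b20e4839211544552580960258096025809600c7c205117c37b0ad435f0bec215106841a096c960258096025809600ee431f0e4c2af0d7c35f06642fb0ef83be0c9c25b258096025809600f983ae13004500fb83820d3038a11344330ed83b6111496025809600eb82a413f848e0f203ee0e2832e14cc5190d683b6111444525809600c5c3a70ca4315115c37b0e5c2f30cd831c0c7c31f0eb83ae0b7c9600c5c23b0d3434d0bac3950d7c2f30ed83b60ce431f0eb83ae0c5c2df)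
    (nat_lit 5) (nat_lit 133)
    [[nat_lit 0,nat_lit 0,nat_lit 10],[nat_lit 0,nat_lit 0,nat_lit 11],[nat_lit 0,nat_lit 1,nat_lit 10],[nat_lit 0,
    nat_lit 1,nat_lit 11],[nat_lit 0,nat_lit 5,nat_lit 8,nat_lit 14],[nat_lit 0,nat_lit 8,nat_lit 4,nat_lit 14],
    [nat_lit 0,nat_lit 8,nat_lit 5,nat_lit 14],[nat_lit 0,nat_lit 8,nat_lit 13],[nat_lit 0,nat_lit 8,nat_lit 14,
    nat_lit 5],[nat_lit 0,nat_lit 9,nat_lit 4,nat_lit 14],[nat_lit 0,nat_lit 10,nat_lit 0],[nat_lit 0,nat_lit 10,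
    nat_lit 14],[nat_lit 0,nat_lit 11,nat_lit 0],[nat_lit 0,nat_lit 11,nat_lit 14],[nat_lit 0,nat_lit 12,nat_lit 8],
    [nat_lit 0,nat_lit 12,nat_lit 9],[nat_lit 0,nat_lit 13,nat_lit 8],[nat_lit 0,nat_lit 14,nat_lit 5,nat_lit 8],
    [nat_lit 0,nat_lit 14,nat_lit 11],[nat_lit 0,nat_lit 15,nat_lit 11],[nat_lit 1,nat_lit 1,nat_lit 10],[nat_lit 1,
    nat_lit 1,nat_lit 11],[nat_lit 1,nat_lit 4,nat_lit 15,nat_lit 9],[nat_lit 1,nat_lit 8,nat_lit 13],[nat_lit 1,
    nat_lit 9,nat_lit 4,nat_lit 15],[nat_lit 1,nat_lit 9,nat_lit 12],[nat_lit 1,nat_lit 9,nat_lit 13],[nat_lit 1,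
    nat_lit 10,nat_lit 1],[nat_lit 1,nat_lit 10,nat_lit 14],[nat_lit 1,nat_lit 10,nat_lit 15],[nat_lit 1,nat_lit 11,
    nat_lit 1],[nat_lit 1,nat_lit 12,nat_lit 9],[nat_lit 1,nat_lit 15,nat_lit 4,nat_lit 9],[nat_lit 1,nat_lit 15,
    nat_lit 5,nat_lit 8],[nat_lit 1,nat_lit 15,nat_lit 5,nat_lit 9],[nat_lit 1,nat_lit 15,nat_lit 9,nat_lit 4],
    [nat_lit 1,nat_lit 15,nat_lit 10],[nat_lit 1,nat_lit 15,nat_lit 11],[nat_lit 2,nat_lit 4,nat_lit 14],[nat_lit 2,
    nat_lit 9,nat_lit 11],[nat_lit 2,nat_lit 12],[nat_lit 2,nat_lit 13],[nat_lit 2,nat_lit 14,nat_lit 4],[nat_lit 2,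
    nat_lit 14,nat_lit 5],[nat_lit 2,nat_lit 15,nat_lit 5],[nat_lit 3,nat_lit 4,nat_lit 14],[nat_lit 3,nat_lit 4,
    nat_lit 15],[nat_lit 3,nat_lit 5,nat_lit 15],[nat_lit 3,nat_lit 10,nat_lit 8],[nat_lit 3,nat_lit 12],[nat_lit 3,
    nat_lit 13],[nat_lit 3,nat_lit 15,nat_lit 5],[nat_lit 4,nat_lit 6,nat_lit 9],[nat_lit 4,nat_lit 7,nat_lit 9],
    [nat_lit 4,nat_lit 9,nat_lit 6],[nat_lit 4,nat_lit 9,nat_lit 7],[nat_lit 5,nat_lit 6,nat_lit 8],[nat_lit 5,
    nat_lit 7,nat_lit 8],[nat_lit 5,nat_lit 8,nat_lit 6],[nat_lit 5,nat_lit 8,nat_lit 7],[nat_lit 6,nat_lit 10],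
    [nat_lit 6,nat_lit 11],[nat_lit 7,nat_lit 10],[nat_lit 7,nat_lit 11],[nat_lit 8,nat_lit 9,nat_lit 10,nat_lit 14],
    [nat_lit 8,nat_lit 9,nat_lit 15,nat_lit 11],[nat_lit 8,nat_lit 12,nat_lit 14],[nat_lit 8,nat_lit 12,nat_lit 15],
    [nat_lit 8,nat_lit 13,nat_lit 14],[nat_lit 8,nat_lit 13,nat_lit 15],[nat_lit 8,nat_lit 14,nat_lit 12],[nat_lit 8,
    nat_lit 15,nat_lit 13],[nat_lit 9,nat_lit 12,nat_lit 14],[nat_lit 9,nat_lit 13,nat_lit 15],[nat_lit 9,nat_lit 14,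
    nat_lit 12],[nat_lit 9,nat_lit 14,nat_lit 13],[nat_lit 9,nat_lit 15,nat_lit 12],[nat_lit 9,nat_lit 15,nat_lit 13],
    [nat_lit 10,nat_lit 14,nat_lit 14],[nat_lit 10,nat_lit 14,nat_lit 15],[nat_lit 11,nat_lit 14,nat_lit 15],
    [nat_lit 11,nat_lit 15,nat_lit 15]]
    [nat_lit 0x100a,nat_lit 0x100b,nat_lit 0x101a,nat_lit 0x101b,nat_lit 0x1058e,nat_lit 0x1084e,nat_lit 0x1085e,
    nat_lit 0x108d,nat_lit 0x108e5,nat_lit 0x1094e,nat_lit 0x10a0,nat_lit 0x10ae,nat_lit 0x10b0,nat_lit 0x10be,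
    nat_lit 0x10c8,nat_lit 0x10c9,nat_lit 0x10d8,nat_lit 0x10e58,nat_lit 0x10eb,nat_lit 0x10fb,nat_lit 0x111a,
    nat_lit 0x111b,nat_lit 0x114f9,nat_lit 0x118d,nat_lit 0x1194f,nat_lit 0x119c,nat_lit 0x119d,nat_lit 0x11a1,
    nat_lit 0x11ae,nat_lit 0x11af,nat_lit 0x11b1,nat_lit 0x11c9,nat_lit 0x11f49,nat_lit 0x11f58,nat_lit 0x11f59,
    nat_lit 0x11f94,nat_lit 0x11fa,nat_lit 0x11fb,nat_lit 0x124e,nat_lit 0x129b,nat_lit 300,nat_lit 301,
    nat_lit 0x12e4,nat_lit 0x12e5,nat_lit 0x12f5,nat_lit 0x134e,nat_lit 0x134f,nat_lit 0x135f,nat_lit 0x13a8,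
    nat_lit 316,nat_lit 317,nat_lit 0x13f5,nat_lit 0x1469,nat_lit 0x1479,nat_lit 0x1496,nat_lit 0x1497,nat_lit 0x1568,
    nat_lit 0x1578,nat_lit 0x1586,nat_lit 0x1587,nat_lit 362,nat_lit 363,nat_lit 378,nat_lit 379,nat_lit 0x189ae,
    nat_lit 0x189fb,nat_lit 0x18ce,nat_lit 0x18cf,nat_lit 0x18de,nat_lit 0x18df,nat_lit 0x18ec,nat_lit 0x18fd,
    nat_lit 0x19ce,nat_lit 0x19df,nat_lit 0x19ec,nat_lit 0x19ed,nat_lit 0x19fc,nat_lit 0x19fd,nat_lit 0x1aee,
    nat_lit 0x1aef,nat_lit 0x1bef,nat_lit 0x1bff]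
    [[[nat_lit 0,nat_lit 0,nat_lit 10],[nat_lit 0,nat_lit 0,nat_lit 11],[nat_lit 0,nat_lit 1,nat_lit 10],[nat_lit 0,
    nat_lit 1,nat_lit 11],[nat_lit 0,nat_lit 5,nat_lit 8,nat_lit 14],[nat_lit 0,nat_lit 8,nat_lit 4,nat_lit 14],
    [nat_lit 0,nat_lit 8,nat_lit 5,nat_lit 14],[nat_lit 0,nat_lit 8,nat_lit 13],[nat_lit 0,nat_lit 8,nat_lit 14,
    nat_lit 5],[nat_lit 0,nat_lit 9,nat_lit 4,nat_lit 14],[nat_lit 0,nat_lit 10,nat_lit 0],[nat_lit 0,nat_lit 10,
    nat_lit 14]],[[nat_lit 0,nat_lit 11,nat_lit 0],[nat_lit 0,nat_lit 11,nat_lit 14],[nat_lit 0,nat_lit 12,nat_lit 8],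
    [nat_lit 0,nat_lit 12,nat_lit 9],[nat_lit 0,nat_lit 13,nat_lit 8],[nat_lit 0,nat_lit 14,nat_lit 5,nat_lit 8],
    [nat_lit 0,nat_lit 14,nat_lit 11],[nat_lit 0,nat_lit 15,nat_lit 11],[nat_lit 1,nat_lit 1,nat_lit 10],[nat_lit 1,
    nat_lit 1,nat_lit 11],[nat_lit 1,nat_lit 4,nat_lit 15,nat_lit 9],[nat_lit 1,nat_lit 8,nat_lit 13]],[[nat_lit 1,
    nat_lit 9,nat_lit 4,nat_lit 15],[nat_lit 1,nat_lit 9,nat_lit 12],[nat_lit 1,nat_lit 9,nat_lit 13],[nat_lit 1,
    nat_lit 10,nat_lit 0],[nat_lit 1,nat_lit 10,nat_lit 1],[nat_lit 1,nat_lit 10,nat_lit 14],[nat_lit 1,nat_lit 10,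
    nat_lit 15],[nat_lit 1,nat_lit 11,nat_lit 0],[nat_lit 1,nat_lit 11,nat_lit 1],[nat_lit 1,nat_lit 12,nat_lit 9],
    [nat_lit 1,nat_lit 15,nat_lit 4,nat_lit 9],[nat_lit 1,nat_lit 15,nat_lit 5,nat_lit 8]],[[nat_lit 1,nat_lit 15,
    nat_lit 5,nat_lit 9],[nat_lit 1,nat_lit 15,nat_lit 9,nat_lit 4],[nat_lit 1,nat_lit 15,nat_lit 10],[nat_lit 1,
    nat_lit 15,nat_lit 11],[nat_lit 2,nat_lit 4,nat_lit 14],[nat_lit 2,nat_lit 9,nat_lit 11],[nat_lit 2,nat_lit 12],
    [nat_lit 2,nat_lit 13],[nat_lit 2,nat_lit 14,nat_lit 4],[nat_lit 2,nat_lit 14,nat_lit 5],[nat_lit 2,nat_lit 15,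
    nat_lit 5],[nat_lit 3,nat_lit 4,nat_lit 14]],[[nat_lit 3,nat_lit 4,nat_lit 15],[nat_lit 3,nat_lit 5,nat_lit 15],
    [nat_lit 3,nat_lit 10,nat_lit 8],[nat_lit 3,nat_lit 12],[nat_lit 3,nat_lit 13],[nat_lit 3,nat_lit 15,nat_lit 5],
    [nat_lit 4,nat_lit 1,nat_lit 15,nat_lit 9],[nat_lit 4,nat_lit 2,nat_lit 14],[nat_lit 4,nat_lit 6,nat_lit 9],
    [nat_lit 4,nat_lit 7,nat_lit 9],[nat_lit 4,nat_lit 9,nat_lit 1,nat_lit 15],[nat_lit 4,nat_lit 9,nat_lit 6]],
    [[nat_lit 4,nat_lit 9,nat_lit 7],[nat_lit 4,nat_lit 14,nat_lit 0,nat_lit 8],[nat_lit 4,nat_lit 14,nat_lit 0,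
    nat_lit 9],[nat_lit 4,nat_lit 14,nat_lit 2],[nat_lit 4,nat_lit 14,nat_lit 3],[nat_lit 4,nat_lit 15,nat_lit 1,
    nat_lit 9],[nat_lit 4,nat_lit 15,nat_lit 3],[nat_lit 4,nat_lit 15,nat_lit 9,nat_lit 1],[nat_lit 5,nat_lit 0,
    nat_lit 8,nat_lit 14],[nat_lit 5,nat_lit 2,nat_lit 14],[nat_lit 5,nat_lit 2,nat_lit 15],[nat_lit 5,nat_lit 3,
    nat_lit 15]],[[nat_lit 5,nat_lit 6,nat_lit 8],[nat_lit 5,nat_lit 7,nat_lit 8],[nat_lit 5,nat_lit 8,nat_lit 0,
    nat_lit 14],[nat_lit 5,nat_lit 8,nat_lit 1,nat_lit 15],[nat_lit 5,nat_lit 8,nat_lit 6],[nat_lit 5,nat_lit 8,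
    nat_lit 7],[nat_lit 5,nat_lit 8,nat_lit 14,nat_lit 0],[nat_lit 5,nat_lit 9,nat_lit 1,nat_lit 15],[nat_lit 5,
    nat_lit 14,nat_lit 0,nat_lit 8],[nat_lit 5,nat_lit 15,nat_lit 3],[nat_lit 6,nat_lit 4,nat_lit 9],[nat_lit 6,
    nat_lit 5,nat_lit 8]],[[nat_lit 6,nat_lit 8,nat_lit 5],[nat_lit 6,nat_lit 9,nat_lit 4],[nat_lit 6,nat_lit 10],
    [nat_lit 6,nat_lit 11],[nat_lit 7,nat_lit 4,nat_lit 9],[nat_lit 7,nat_lit 5,nat_lit 8],[nat_lit 7,nat_lit 8,
    nat_lit 5],[nat_lit 7,nat_lit 9,nat_lit 4],[nat_lit 7,nat_lit 10],[nat_lit 7,nat_lit 11],[nat_lit 8,nat_lit 0,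
    nat_lit 12],[nat_lit 8,nat_lit 0,nat_lit 13]],[[nat_lit 8,nat_lit 0,nat_lit 14,nat_lit 5],[nat_lit 8,nat_lit 1,
    nat_lit 15,nat_lit 5],[nat_lit 8,nat_lit 3,nat_lit 10],[nat_lit 8,nat_lit 4,nat_lit 14,nat_lit 0],[nat_lit 8,
    nat_lit 5,nat_lit 6],[nat_lit 8,nat_lit 5,nat_lit 7],[nat_lit 8,nat_lit 5,nat_lit 14,nat_lit 0],[nat_lit 8,
    nat_lit 6,nat_lit 5],[nat_lit 8,nat_lit 7,nat_lit 5],[nat_lit 8,nat_lit 9,nat_lit 10,nat_lit 14],[nat_lit 8,
    nat_lit 9,nat_lit 15,nat_lit 11],[nat_lit 8,nat_lit 12,nat_lit 14]],[[nat_lit 8,nat_lit 12,nat_lit 15],[nat_lit 8,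
    nat_lit 13,nat_lit 0],[nat_lit 8,nat_lit 13,nat_lit 1],[nat_lit 8,nat_lit 13,nat_lit 14],[nat_lit 8,nat_lit 13,
    nat_lit 15],[nat_lit 8,nat_lit 14,nat_lit 0,nat_lit 5],[nat_lit 8,nat_lit 14,nat_lit 5,nat_lit 0],[nat_lit 8,
    nat_lit 14,nat_lit 12],[nat_lit 8,nat_lit 15,nat_lit 13],[nat_lit 9,nat_lit 0,nat_lit 12],[nat_lit 9,nat_lit 1,
    nat_lit 4,nat_lit 15],[nat_lit 9,nat_lit 1,nat_lit 12]],[[nat_lit 9,nat_lit 1,nat_lit 15,nat_lit 4],[nat_lit 9,
    nat_lit 1,nat_lit 15,nat_lit 5],[nat_lit 9,nat_lit 4,nat_lit 1,nat_lit 15],[nat_lit 9,nat_lit 4,nat_lit 6],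
    [nat_lit 9,nat_lit 4,nat_lit 7],[nat_lit 9,nat_lit 4,nat_lit 14,nat_lit 0],[nat_lit 9,nat_lit 4,nat_lit 15,
    nat_lit 1],[nat_lit 9,nat_lit 6,nat_lit 4],[nat_lit 9,nat_lit 7,nat_lit 4],[nat_lit 9,nat_lit 10,nat_lit 14,
    nat_lit 8],[nat_lit 9,nat_lit 11,nat_lit 2],[nat_lit 9,nat_lit 12,nat_lit 1]],[[nat_lit 9,nat_lit 12,nat_lit 14],
    [nat_lit 9,nat_lit 13,nat_lit 1],[nat_lit 9,nat_lit 13,nat_lit 15],[nat_lit 9,nat_lit 14,nat_lit 12],[nat_lit 9,
    nat_lit 14,nat_lit 13],[nat_lit 9,nat_lit 15,nat_lit 11,nat_lit 8],[nat_lit 9,nat_lit 15,nat_lit 12],[nat_lit 9,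
    nat_lit 15,nat_lit 13],[nat_lit 10,nat_lit 0,nat_lit 0],[nat_lit 10,nat_lit 0,nat_lit 1],[nat_lit 10,nat_lit 1,
    nat_lit 1],[nat_lit 10,nat_lit 1,nat_lit 15]],[[nat_lit 10,nat_lit 6],[nat_lit 10,nat_lit 7],[nat_lit 10,
    nat_lit 8,nat_lit 3],[nat_lit 10,nat_lit 14,nat_lit 0],[nat_lit 10,nat_lit 14,nat_lit 1],[nat_lit 10,nat_lit 14,
    nat_lit 8,nat_lit 9],[nat_lit 10,nat_lit 14,nat_lit 14],[nat_lit 10,nat_lit 14,nat_lit 15],[nat_lit 10,nat_lit 15,
    nat_lit 1],[nat_lit 11,nat_lit 0,nat_lit 0],[nat_lit 11,nat_lit 0,nat_lit 1],[nat_lit 11,nat_lit 0,nat_lit 14]],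
    [[nat_lit 11,nat_lit 0,nat_lit 15],[nat_lit 11,nat_lit 1,nat_lit 1],[nat_lit 11,nat_lit 1,nat_lit 15],[nat_lit 11,
    nat_lit 2,nat_lit 9],[nat_lit 11,nat_lit 6],[nat_lit 11,nat_lit 7],[nat_lit 11,nat_lit 8,nat_lit 9,nat_lit 15],
    [nat_lit 11,nat_lit 14,nat_lit 0],[nat_lit 11,nat_lit 14,nat_lit 15],[nat_lit 11,nat_lit 15,nat_lit 15],
    [nat_lit 12,nat_lit 1,nat_lit 9],[nat_lit 12,nat_lit 2]],[[nat_lit 12,nat_lit 3],[nat_lit 12,nat_lit 8,nat_lit 0],
    [nat_lit 12,nat_lit 8,nat_lit 14],[nat_lit 12,nat_lit 9,nat_lit 0],[nat_lit 12,nat_lit 9,nat_lit 1],[nat_lit 12,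
    nat_lit 9,nat_lit 14],[nat_lit 12,nat_lit 9,nat_lit 15],[nat_lit 12,nat_lit 14,nat_lit 8],[nat_lit 12,nat_lit 14,
    nat_lit 9],[nat_lit 12,nat_lit 15,nat_lit 8],[nat_lit 13,nat_lit 0,nat_lit 8],[nat_lit 13,nat_lit 1,nat_lit 8]],
    [[nat_lit 13,nat_lit 1,nat_lit 9],[nat_lit 13,nat_lit 2],[nat_lit 13,nat_lit 3],[nat_lit 13,nat_lit 8,nat_lit 0],
    [nat_lit 13,nat_lit 8,nat_lit 15],[nat_lit 13,nat_lit 9,nat_lit 14],[nat_lit 13,nat_lit 9,nat_lit 15],[nat_lit 13,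
    nat_lit 14,nat_lit 8],[nat_lit 13,nat_lit 15,nat_lit 8],[nat_lit 13,nat_lit 15,nat_lit 9],[nat_lit 14,nat_lit 0,
    nat_lit 5,nat_lit 8],[nat_lit 14,nat_lit 0,nat_lit 8,nat_lit 4]],[[nat_lit 14,nat_lit 0,nat_lit 8,nat_lit 5],
    [nat_lit 14,nat_lit 0,nat_lit 9,nat_lit 4],[nat_lit 14,nat_lit 0,nat_lit 10],[nat_lit 14,nat_lit 0,nat_lit 11],
    [nat_lit 14,nat_lit 1,nat_lit 10],[nat_lit 14,nat_lit 2,nat_lit 4],[nat_lit 14,nat_lit 3,nat_lit 4],[nat_lit 14,
    nat_lit 4,nat_lit 2],[nat_lit 14,nat_lit 5,nat_lit 0,nat_lit 8],[nat_lit 14,nat_lit 5,nat_lit 2],[nat_lit 14,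
    nat_lit 5,nat_lit 8,nat_lit 0],[nat_lit 14,nat_lit 8,nat_lit 9,nat_lit 10]],[[nat_lit 14,nat_lit 8,nat_lit 12],
    [nat_lit 14,nat_lit 8,nat_lit 13],[nat_lit 14,nat_lit 9,nat_lit 12],[nat_lit 14,nat_lit 10,nat_lit 14],
    [nat_lit 14,nat_lit 11,nat_lit 0],[nat_lit 14,nat_lit 12,nat_lit 8],[nat_lit 14,nat_lit 12,nat_lit 9],[nat_lit 14,
    nat_lit 13,nat_lit 9],[nat_lit 14,nat_lit 14,nat_lit 10],[nat_lit 14,nat_lit 15,nat_lit 10],[nat_lit 14,
    nat_lit 15,nat_lit 11],[nat_lit 15,nat_lit 1,nat_lit 9,nat_lit 4]],[[nat_lit 15,nat_lit 1,nat_lit 10],[nat_lit 15,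
    nat_lit 3,nat_lit 4],[nat_lit 15,nat_lit 3,nat_lit 5],[nat_lit 15,nat_lit 4,nat_lit 9,nat_lit 1],[nat_lit 15,
    nat_lit 5,nat_lit 2],[nat_lit 15,nat_lit 5,nat_lit 3],[nat_lit 15,nat_lit 5,nat_lit 8,nat_lit 1],[nat_lit 15,
    nat_lit 5,nat_lit 9,nat_lit 1],[nat_lit 15,nat_lit 8,nat_lit 12],[nat_lit 15,nat_lit 8,nat_lit 13],[nat_lit 15,
    nat_lit 9,nat_lit 1,nat_lit 4],[nat_lit 15,nat_lit 9,nat_lit 4,nat_lit 1]],[[nat_lit 15,nat_lit 9,nat_lit 13],
    [nat_lit 15,nat_lit 10,nat_lit 1],[nat_lit 15,nat_lit 10,nat_lit 14],[nat_lit 15,nat_lit 11,nat_lit 0],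
    [nat_lit 15,nat_lit 11,nat_lit 1],[nat_lit 15,nat_lit 11,nat_lit 8,nat_lit 9],[nat_lit 15,nat_lit 11,nat_lit 14],
    [nat_lit 15,nat_lit 11,nat_lit 15],[nat_lit 15,nat_lit 12,nat_lit 9],[nat_lit 15,nat_lit 13,nat_lit 8],
    [nat_lit 15,nat_lit 13,nat_lit 9],[nat_lit 15,nat_lit 15,nat_lit 11]]]
    [[nat_lit 10,nat_lit 12,nat_lit 27,nat_lit 31,nat_lit 78,nat_lit 99,nat_lit 102,nat_lit 109,nat_lit 114,
    nat_lit 125,nat_lit 140,nat_lit 147],[nat_lit 153,nat_lit 163,nat_lit 169,nat_lit 171,nat_lit 183,nat_lit 202,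
    nat_lit 208,nat_lit 231,nat_lit 28,nat_lit 32,nat_lit 67,nat_lit 110],[nat_lit 126,nat_lit 131,nat_lit 133,
    nat_lit 141,nat_lit 142,nat_lit 148,nat_lit 152,nat_lit 154,nat_lit 157,nat_lit 172,nat_lit 219,nat_lit 222],
    [nat_lit 223,nat_lit 227,nat_lit 229,nat_lit 232,nat_lit 63,nat_lit 130,nat_lit 167,nat_lit 181,nat_lit 199,
    nat_lit 201,nat_lit 220,nat_lit 64],[nat_lit 66,nat_lit 81,nat_lit 146,nat_lit 168,nat_lit 182,nat_lit 221,
    nat_lit 37,nat_lit 44,nat_lit 85,nat_lit 91,nat_lit 120,nat_lit 127],[nat_lit 128,nat_lit 191,nat_lit 193,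
    nat_lit 197,nat_lit 198,nat_lit 215,nat_lit 217,nat_lit 226,nat_lit 8,nat_lit 45,nat_lit 46,nat_lit 53],
    [nat_lit 84,nat_lit 90,nat_lit 96,nat_lit 97,nat_lit 103,nat_lit 104,nat_lit 113,nat_lit 121,nat_lit 192,
    nat_lit 218,nat_lit 59,nat_lit 76],[nat_lit 100,nat_lit 123,nat_lit 144,nat_lit 160,nat_lit 60,nat_lit 77,
    nat_lit 101,nat_lit 124,nat_lit 145,nat_lit 161,nat_lit 14,nat_lit 16],[nat_lit 17,nat_lit 35,nat_lit 50,
    nat_lit 61,nat_lit 72,nat_lit 73,nat_lit 80,nat_lit 83,nat_lit 89,nat_lit 129,nat_lit 137,nat_lit 175],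
    [nat_lit 177,nat_lit 178,nat_lit 179,nat_lit 187,nat_lit 188,nat_lit 190,nat_lit 200,nat_lit 209,nat_lit 237,
    nat_lit 15,nat_lit 22,nat_lit 33],[nat_lit 34,nat_lit 36,nat_lit 54,nat_lit 56,nat_lit 57,nat_lit 62,nat_lit 65,
    nat_lit 82,nat_lit 88,nat_lit 149,nat_lit 159,nat_lit 166],[nat_lit 176,nat_lit 180,nat_lit 189,nat_lit 210,
    nat_lit 211,nat_lit 233,nat_lit 236,nat_lit 238,nat_lit 0,nat_lit 2,nat_lit 20,nat_lit 38],[nat_lit 86,nat_lit 92,
    nat_lit 98,nat_lit 194,nat_lit 196,nat_lit 203,nat_lit 212,nat_lit 213,nat_lit 216,nat_lit 1,nat_lit 3,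
    nat_lit 18],[nat_lit 19,nat_lit 21,nat_lit 39,nat_lit 41,nat_lit 87,nat_lit 93,nat_lit 106,nat_lit 195,
    nat_lit 214,nat_lit 239,nat_lit 25,nat_lit 42],[nat_lit 51,nat_lit 94,nat_lit 115,nat_lit 117,nat_lit 119,
    nat_lit 135,nat_lit 138,nat_lit 204,nat_lit 206,nat_lit 224,nat_lit 7,nat_lit 23],[nat_lit 26,nat_lit 43,
    nat_lit 52,nat_lit 95,nat_lit 116,nat_lit 136,nat_lit 139,nat_lit 205,nat_lit 225,nat_lit 228,nat_lit 4,
    nat_lit 5],[nat_lit 6,nat_lit 9,nat_lit 11,nat_lit 13,nat_lit 29,nat_lit 40,nat_lit 47,nat_lit 55,nat_lit 68,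
    nat_lit 69,nat_lit 74,nat_lit 105],[nat_lit 107,nat_lit 111,nat_lit 132,nat_lit 150,nat_lit 155,nat_lit 170,
    nat_lit 173,nat_lit 185,nat_lit 207,nat_lit 230,nat_lit 234,nat_lit 24],[nat_lit 30,nat_lit 48,nat_lit 49,
    nat_lit 58,nat_lit 70,nat_lit 71,nat_lit 75,nat_lit 79,nat_lit 108,nat_lit 112,nat_lit 118,nat_lit 122],
    [nat_lit 134,nat_lit 143,nat_lit 151,nat_lit 156,nat_lit 158,nat_lit 162,nat_lit 164,nat_lit 165,nat_lit 174,
    nat_lit 184,nat_lit 186,nat_lit 235]]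
    [[nat_lit 140,nat_lit 153,nat_lit 141,nat_lit 154,nat_lit 190,nat_lit 191,nat_lit 192,nat_lit 178,nat_lit 68,
    nat_lit 193,nat_lit 0,nat_lit 194],[nat_lit 1,nat_lit 195,nat_lit 94,nat_lit 117,nat_lit 95,nat_lit 96,
    nat_lit 155,nat_lit 156,nat_lit 142,nat_lit 157,nat_lit 118,nat_lit 179],[nat_lit 215,nat_lit 166,nat_lit 180,
    nat_lit 2,nat_lit 20,nat_lit 196,nat_lit 216,nat_lit 3,nat_lit 21,nat_lit 119,nat_lit 120,nat_lit 97],
    [nat_lit 121,nat_lit 54,nat_lit 143,nat_lit 158,nat_lit 197,nat_lit 159,nat_lit 167,nat_lit 181,nat_lit 55,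
    nat_lit 69,nat_lit 70,nat_lit 198],[nat_lit 217,nat_lit 218,nat_lit 98,nat_lit 168,nat_lit 182,nat_lit 71,
    nat_lit 122,nat_lit 199,nat_lit 123,nat_lit 124,nat_lit 219,nat_lit 82],[nat_lit 88,nat_lit 99,nat_lit 125,
    nat_lit 40,nat_lit 47,nat_lit 126,nat_lit 48,nat_lit 22,nat_lit 200,nat_lit 201,nat_lit 220,nat_lit 221],
    [nat_lit 100,nat_lit 101,nat_lit 202,nat_lit 222,nat_lit 83,nat_lit 89,nat_lit 4,nat_lit 223,nat_lit 102,
    nat_lit 49,nat_lit 127,nat_lit 103],[nat_lit 72,nat_lit 56,nat_lit 144,nat_lit 160,nat_lit 128,nat_lit 104,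
    nat_lit 73,nat_lit 57,nat_lit 145,nat_lit 161,nat_lit 169,nat_lit 183],[nat_lit 74,nat_lit 75,nat_lit 146,
    nat_lit 5,nat_lit 84,nat_lit 90,nat_lit 6,nat_lit 76,nat_lit 77,nat_lit 203,nat_lit 162,nat_lit 204],[nat_lit 224,
    nat_lit 7,nat_lit 23,nat_lit 205,nat_lit 225,nat_lit 78,nat_lit 8,nat_lit 170,nat_lit 184,nat_lit 171,nat_lit 226,
    nat_lit 172],[nat_lit 58,nat_lit 79,nat_lit 227,nat_lit 85,nat_lit 91,nat_lit 9,nat_lit 24,nat_lit 59,nat_lit 60,
    nat_lit 105,nat_lit 41,nat_lit 25],[nat_lit 206,nat_lit 26,nat_lit 228,nat_lit 173,nat_lit 185,nat_lit 106,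
    nat_lit 174,nat_lit 186,nat_lit 10,nat_lit 27,nat_lit 28,nat_lit 229],[nat_lit 86,nat_lit 92,nat_lit 50,
    nat_lit 11,nat_lit 29,nat_lit 129,nat_lit 207,nat_lit 230,nat_lit 30,nat_lit 12,nat_lit 31,nat_lit 208],
    [nat_lit 231,nat_lit 32,nat_lit 232,nat_lit 130,nat_lit 87,nat_lit 93,nat_lit 233,nat_lit 13,nat_lit 234,
    nat_lit 235,nat_lit 131,nat_lit 42],[nat_lit 51,nat_lit 14,nat_lit 209,nat_lit 15,nat_lit 33,nat_lit 210,
    nat_lit 236,nat_lit 107,nat_lit 132,nat_lit 108,nat_lit 109,nat_lit 110],[nat_lit 133,nat_lit 43,nat_lit 52,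
    nat_lit 16,nat_lit 237,nat_lit 211,nat_lit 238,nat_lit 111,nat_lit 112,nat_lit 134,nat_lit 113,nat_lit 61],
    [nat_lit 80,nat_lit 62,nat_lit 147,nat_lit 163,nat_lit 148,nat_lit 63,nat_lit 64,nat_lit 44,nat_lit 114,
    nat_lit 45,nat_lit 17,nat_lit 149],[nat_lit 175,nat_lit 187,nat_lit 176,nat_lit 212,nat_lit 18,nat_lit 115,
    nat_lit 135,nat_lit 136,nat_lit 150,nat_lit 151,nat_lit 164,nat_lit 65],[nat_lit 152,nat_lit 66,nat_lit 81,
    nat_lit 34,nat_lit 46,nat_lit 53,nat_lit 35,nat_lit 36,nat_lit 177,nat_lit 188,nat_lit 67,nat_lit 37],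
    [nat_lit 189,nat_lit 38,nat_lit 213,nat_lit 19,nat_lit 39,nat_lit 137,nat_lit 214,nat_lit 239,nat_lit 138,
    nat_lit 116,nat_lit 139,nat_lit 165]]
    [[[nat_lit 199,nat_lit 201],[nat_lit 199,nat_lit 201],[],[],[],[nat_lit 194,nat_lit 196,nat_lit 203,nat_lit 212,
    nat_lit 213],[nat_lit 194,nat_lit 196,nat_lit 203,nat_lit 212,nat_lit 213],[nat_lit 194,nat_lit 196,nat_lit 203,
    nat_lit 212,nat_lit 213],[nat_lit 194,nat_lit 196,nat_lit 203,nat_lit 212,nat_lit 213],[],[nat_lit 204,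
    nat_lit 206],[nat_lit 204,nat_lit 206]],[[nat_lit 210,nat_lit 211],[nat_lit 210,nat_lit 211],[nat_lit 207],
    [nat_lit 207],[nat_lit 195,nat_lit 214],[nat_lit 202,nat_lit 208],[nat_lit 202,nat_lit 208],[nat_lit 205],
    [nat_lit 48,nat_lit 49],[nat_lit 48,nat_lit 49],[],[]],[[],[],[],[nat_lit 51],[nat_lit 51],[nat_lit 51],
    [nat_lit 51],[],[],[nat_lit 47],[nat_lit 52],[nat_lit 52]],[[nat_lit 52],[nat_lit 52],[nat_lit 52],[nat_lit 52],
    [],[],[nat_lit 4,nat_lit 5,nat_lit 6,nat_lit 9,nat_lit 11,nat_lit 13],[nat_lit 1,nat_lit 3,nat_lit 18,nat_lit 19],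
    [nat_lit 10,nat_lit 12],[nat_lit 10,nat_lit 12],[nat_lit 7],[nat_lit 76]],[[nat_lit 76],[nat_lit 81],[],
    [nat_lit 68,nat_lit 69,nat_lit 74],[],[],[],[nat_lit 44],[],[nat_lit 45,nat_lit 46],[],[]],[[],[],[],[],[],
    [nat_lit 43],[nat_lit 43],[nat_lit 43],[],[nat_lit 91],[nat_lit 91],[]],[[nat_lit 89],[nat_lit 90],[nat_lit 92],
    [nat_lit 92],[nat_lit 92],[nat_lit 92],[nat_lit 92],[],[],[],[nat_lit 59],[nat_lit 64,nat_lit 66]],[[],
    [nat_lit 60],[],[nat_lit 54,nat_lit 56,nat_lit 57,nat_lit 62,nat_lit 65],[nat_lit 123],[],[],[nat_lit 124],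
    [nat_lit 117,nat_lit 119,nat_lit 135,nat_lit 138],[],[],[]],[[],[],[],[],[],[],[],[nat_lit 83],[nat_lit 84],[],[],
    []],[[],[nat_lit 87],[nat_lit 87],[nat_lit 87],[nat_lit 87],[],[],[],[],[],[nat_lit 156,nat_lit 158,nat_lit 162,
    nat_lit 164,nat_lit 165],[nat_lit 156,nat_lit 158,nat_lit 162,nat_lit 164,nat_lit 165]],[[nat_lit 156,nat_lit 158,
    nat_lit 162,nat_lit 164,nat_lit 165],[nat_lit 156,nat_lit 158,nat_lit 162,nat_lit 164,nat_lit 165],[nat_lit 160],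
    [nat_lit 160],[nat_lit 160],[nat_lit 160],[nat_lit 160],[],[],[],[nat_lit 159],[nat_lit 155]],[[nat_lit 155],[],
    [],[nat_lit 153,nat_lit 163],[nat_lit 153,nat_lit 163],[],[],[],[],[],[nat_lit 108,nat_lit 112],[nat_lit 108,
    nat_lit 112]],[[],[nat_lit 96,nat_lit 97,nat_lit 103,nat_lit 104,nat_lit 113],[nat_lit 98],[nat_lit 99,
    nat_lit 102,nat_lit 109,nat_lit 114],[nat_lit 99,nat_lit 102,nat_lit 109,nat_lit 114],[nat_lit 99,nat_lit 102,
    nat_lit 109,nat_lit 114],[nat_lit 99,nat_lit 102,nat_lit 109,nat_lit 114],[nat_lit 99,nat_lit 102,nat_lit 109,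
    nat_lit 114],[nat_lit 95,nat_lit 116],[nat_lit 181],[nat_lit 181],[nat_lit 181]],[[nat_lit 181],[nat_lit 184,
    nat_lit 186],[nat_lit 184,nat_lit 186],[],[nat_lit 178,nat_lit 179,nat_lit 187,nat_lit 188],[],[],[nat_lit 183],
    [nat_lit 183],[],[nat_lit 143,nat_lit 151],[]],[[nat_lit 141,nat_lit 142,nat_lit 148,nat_lit 152],[],[],
    [nat_lit 145],[nat_lit 145],[nat_lit 145],[nat_lit 145],[nat_lit 140,nat_lit 147],[nat_lit 140,nat_lit 147],[],
    [nat_lit 220],[nat_lit 235]],[[nat_lit 235],[nat_lit 215,nat_lit 217,nat_lit 226],[nat_lit 219,nat_lit 222,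
    nat_lit 223,nat_lit 227,nat_lit 229,nat_lit 232],[nat_lit 216],[nat_lit 216],[],[],[nat_lit 231],[nat_lit 225,
    nat_lit 228],[nat_lit 225,nat_lit 228],[nat_lit 167],[nat_lit 167]],[[nat_lit 167],[nat_lit 167],[nat_lit 167],
    [nat_lit 167],[nat_lit 174],[],[nat_lit 172],[],[nat_lit 168],[nat_lit 168],[nat_lit 168],[]],[[],[],[],[],
    [nat_lit 166,nat_lit 176],[nat_lit 170,nat_lit 173],[nat_lit 170,nat_lit 173],[],[nat_lit 169,nat_lit 171],[],[],
    [nat_lit 24,nat_lit 30]],[[nat_lit 24,nat_lit 30],[nat_lit 28,nat_lit 32],[nat_lit 28,nat_lit 32],[],[],[],[],[],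
    [nat_lit 20,nat_lit 38],[nat_lit 20,nat_lit 38],[],[]],[[],[nat_lit 25],[nat_lit 25],[nat_lit 22,nat_lit 33,
    nat_lit 34,nat_lit 36],[nat_lit 22,nat_lit 33,nat_lit 34,nat_lit 36],[nat_lit 22,nat_lit 33,nat_lit 34,
    nat_lit 36],[nat_lit 22,nat_lit 33,nat_lit 34,nat_lit 36],[nat_lit 22,nat_lit 33,nat_lit 34,nat_lit 36],
    [nat_lit 29],[nat_lit 21,nat_lit 39],[nat_lit 21,nat_lit 39],[nat_lit 23,nat_lit 26]]]
    (nat_lit 240) [nat_lit 0,nat_lit 1,nat_lit 2,nat_lit 3,nat_lit 4,nat_lit 5,nat_lit 6,nat_lit 7,nat_lit 8,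
    nat_lit 9,nat_lit 10,nat_lit 11,nat_lit 12,nat_lit 13,nat_lit 14,nat_lit 15,nat_lit 16,nat_lit 17,nat_lit 18,
    nat_lit 19,nat_lit 20,nat_lit 21,nat_lit 22,nat_lit 23,nat_lit 24,nat_lit 25,nat_lit 26,nat_lit 28,nat_lit 29,
    nat_lit 30,nat_lit 32,nat_lit 33,nat_lit 34,nat_lit 35,nat_lit 36,nat_lit 37,nat_lit 38,nat_lit 39,nat_lit 40,
    nat_lit 41,nat_lit 42,nat_lit 43,nat_lit 44,nat_lit 45,nat_lit 46,nat_lit 47,nat_lit 48,nat_lit 49,nat_lit 50,
    nat_lit 51,nat_lit 52,nat_lit 53,nat_lit 56,nat_lit 57,nat_lit 59,nat_lit 60,nat_lit 72,nat_lit 73,nat_lit 76,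
    nat_lit 77,nat_lit 86,nat_lit 87,nat_lit 92,nat_lit 93,nat_lit 105,nat_lit 106,nat_lit 107,nat_lit 108,
    nat_lit 111,nat_lit 112,nat_lit 115,nat_lit 116,nat_lit 132,nat_lit 134,nat_lit 135,nat_lit 136,nat_lit 138,
    nat_lit 139,nat_lit 150,nat_lit 151,nat_lit 164,nat_lit 165]
    [[[nat_lit 10,nat_lit 12],[],[],[],[],[nat_lit 8],[],[],[nat_lit 14,nat_lit 16,nat_lit 17],[nat_lit 15],
    [nat_lit 0,nat_lit 2],[nat_lit 1,nat_lit 3,nat_lit 18,nat_lit 19],[],[nat_lit 7],[nat_lit 4,nat_lit 5,nat_lit 6,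
    nat_lit 9,nat_lit 11,nat_lit 13],[]],[[nat_lit 27,nat_lit 31],[nat_lit 28,nat_lit 32],[],[],[nat_lit 37],[],[],[],
    [nat_lit 35],[nat_lit 22,nat_lit 33,nat_lit 34,nat_lit 36],[nat_lit 20,nat_lit 38],[nat_lit 21,nat_lit 39],
    [nat_lit 25],[nat_lit 23,nat_lit 26],[nat_lit 29],[nat_lit 24,nat_lit 30]],[[],[],[],[],[nat_lit 44],[nat_lit 45,
    nat_lit 46],[],[],[],[],[],[nat_lit 41],[nat_lit 42],[nat_lit 43],[nat_lit 40],[]],[[],[],[],[],[],[nat_lit 53],
    [],[],[nat_lit 50],[],[],[],[nat_lit 51],[nat_lit 52],[nat_lit 47],[nat_lit 48,nat_lit 49]],[[],[nat_lit 67],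
    [nat_lit 63],[nat_lit 64,nat_lit 66],[],[],[nat_lit 59],[nat_lit 60],[nat_lit 61],[nat_lit 54,nat_lit 56,
    nat_lit 57,nat_lit 62,nat_lit 65],[],[],[],[],[nat_lit 55],[nat_lit 58]],[[nat_lit 78],[],[],[nat_lit 81],[],[],
    [nat_lit 76],[nat_lit 77],[nat_lit 72,nat_lit 73,nat_lit 80],[],[],[],[],[],[nat_lit 68,nat_lit 69,nat_lit 74],
    [nat_lit 70,nat_lit 71,nat_lit 75,nat_lit 79]],[[],[],[],[],[nat_lit 85],[nat_lit 84],[],[],[nat_lit 83],
    [nat_lit 82],[nat_lit 86],[nat_lit 87],[],[],[],[]],[[],[],[],[],[nat_lit 91],[nat_lit 90],[],[],[nat_lit 89],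
    [nat_lit 88],[nat_lit 92],[nat_lit 93],[],[],[],[]],[[nat_lit 99,nat_lit 102,nat_lit 109,nat_lit 114],
    [nat_lit 110],[],[],[],[nat_lit 96,nat_lit 97,nat_lit 103,nat_lit 104,nat_lit 113],[nat_lit 100],[nat_lit 101],[],
    [],[nat_lit 98],[nat_lit 106],[nat_lit 94,nat_lit 115],[nat_lit 95,nat_lit 116],[nat_lit 105,nat_lit 107,
    nat_lit 111],[nat_lit 108,nat_lit 112]],[[nat_lit 125],[nat_lit 126,nat_lit 131,nat_lit 133],[nat_lit 130],[],
    [nat_lit 120,nat_lit 127,nat_lit 128],[nat_lit 121],[nat_lit 123],[nat_lit 124],[nat_lit 129,nat_lit 137],[],[],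
    [],[nat_lit 117,nat_lit 119,nat_lit 135,nat_lit 138],[nat_lit 136,nat_lit 139],[nat_lit 132],[nat_lit 118,
    nat_lit 122,nat_lit 134]],[[nat_lit 140,nat_lit 147],[nat_lit 141,nat_lit 142,nat_lit 148,nat_lit 152],[],
    [nat_lit 146],[],[],[nat_lit 144],[nat_lit 145],[],[nat_lit 149],[],[],[],[],[nat_lit 150],[nat_lit 143,
    nat_lit 151]],[[nat_lit 153,nat_lit 163],[nat_lit 154,nat_lit 157],[],[],[],[],[nat_lit 160],[nat_lit 161],[],
    [nat_lit 159],[],[],[],[],[nat_lit 155],[nat_lit 156,nat_lit 158,nat_lit 162,nat_lit 164,nat_lit 165]],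
    [[nat_lit 169,nat_lit 171],[nat_lit 172],[nat_lit 167],[nat_lit 168],[],[],[],[],[nat_lit 175,nat_lit 177],
    [nat_lit 166,nat_lit 176],[],[],[],[],[nat_lit 170,nat_lit 173],[nat_lit 174]],[[nat_lit 183],[],[nat_lit 181],
    [nat_lit 182],[],[],[],[],[nat_lit 178,nat_lit 179,nat_lit 187,nat_lit 188],[nat_lit 180,nat_lit 189],[],[],[],[],
    [nat_lit 185],[nat_lit 184,nat_lit 186]],[[nat_lit 202,nat_lit 208],[],[nat_lit 199,nat_lit 201],[],[nat_lit 191,
    nat_lit 193,nat_lit 197,nat_lit 198],[nat_lit 192],[],[],[nat_lit 190,nat_lit 200,nat_lit 209],[nat_lit 210,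
    nat_lit 211],[nat_lit 194,nat_lit 196,nat_lit 203,nat_lit 212,nat_lit 213],[nat_lit 195,nat_lit 214],[nat_lit 204,
    nat_lit 206],[nat_lit 205],[nat_lit 207],[]],[[nat_lit 231],[nat_lit 219,nat_lit 222,nat_lit 223,nat_lit 227,
    nat_lit 229,nat_lit 232],[nat_lit 220],[nat_lit 221],[nat_lit 215,nat_lit 217,nat_lit 226],[nat_lit 218],[],[],
    [nat_lit 237],[nat_lit 233,nat_lit 236,nat_lit 238],[nat_lit 216],[nat_lit 239],[nat_lit 224],[nat_lit 225,
    nat_lit 228],[nat_lit 230,nat_lit 234],[nat_lit 235]]]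
    [[[nat_lit 0x280000000000000000000000000000000000000000000000000,
    nat_lit 0x280000000000000000000000000000000000000000000000000,nat_lit 0,nat_lit 0,nat_lit 0,
    nat_lit 0x300814000000000000000000000000000000000000000000000000,
    nat_lit 0x300814000000000000000000000000000000000000000000000000,
    nat_lit 0x300814000000000000000000000000000000000000000000000000,
    nat_lit 0x300814000000000000000000000000000000000000000000000000],[nat_lit 0,
    nat_lit 0x5000000000000000000000000000000000000000000000000000,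
    nat_lit 0x5000000000000000000000000000000000000000000000000000,
    nat_lit 0xc0000000000000000000000000000000000000000000000000000,
    nat_lit 0xc0000000000000000000000000000000000000000000000000000,
    nat_lit 0x8000000000000000000000000000000000000000000000000000,
    nat_lit 0x8000000000000000000000000000000000000000000000000000,
    nat_lit 0x400008000000000000000000000000000000000000000000000000,
    nat_lit 0x10400000000000000000000000000000000000000000000000000],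
    [nat_lit 0x10400000000000000000000000000000000000000000000000000,
    nat_lit 0x2000000000000000000000000000000000000000000000000000,nat_lit 0x3000000000000,nat_lit 0x3000000000000,
    nat_lit 0,nat_lit 0,nat_lit 0,nat_lit 0,nat_lit 0],[nat_lit 0x8000000000000,nat_lit 0x8000000000000,
    nat_lit 0x8000000000000,nat_lit 0x8000000000000,nat_lit 0,nat_lit 0,nat_lit 0x800000000000,
    nat_lit 0x10000000000000,nat_lit 0x10000000000000],[nat_lit 0x10000000000000,nat_lit 0x10000000000000,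
    nat_lit 0x10000000000000,nat_lit 0x10000000000000,nat_lit 0,nat_lit 0,nat_lit 0x2a70,nat_lit 0xc000a,
    nat_lit 0x1400],[nat_lit 0x1400,nat_lit 128,nat_lit 0x10000000000000000000,nat_lit 0x10000000000000000000,
    nat_lit 0x200000000000000000000,nat_lit 0,nat_lit 0x4300000000000000000,nat_lit 0,nat_lit 0],[nat_lit 0,
    nat_lit 0x100000000000,nat_lit 0,nat_lit 0x600000000000,nat_lit 0,nat_lit 0,nat_lit 0,nat_lit 0,nat_lit 0],
    [nat_lit 0,nat_lit 0,nat_lit 0x80000000000,nat_lit 0x80000000000,nat_lit 0x80000000000,nat_lit 0,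
    nat_lit 0x80000000000000000000000,nat_lit 0x80000000000000000000000,nat_lit 0],[nat_lit 0x20000000000000000000000,
    nat_lit 0x40000000000000000000000,nat_lit 0x100000000000000000000000,nat_lit 0x100000000000000000000000,
    nat_lit 0x100000000000000000000000,nat_lit 0x100000000000000000000000,nat_lit 0x100000000000000000000000,
    nat_lit 0,nat_lit 0]],[[nat_lit 0,nat_lit 0x800000000000000,nat_lit 0x50000000000000000,nat_lit 0,
    nat_lit 0x1000000000000000,nat_lit 0,nat_lit 0x24340000000000000,nat_lit 0x8000000000000000000000000000000,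
    nat_lit 0],[nat_lit 0,nat_lit 0x10000000000000000000000000000000,nat_lit 0x48000a00000000000000000000000000000,
    nat_lit 0,nat_lit 0,nat_lit 0,nat_lit 0,nat_lit 0,nat_lit 0],[nat_lit 0,nat_lit 0,nat_lit 0,nat_lit 0,
    nat_lit 0x800000000000000000000,nat_lit 0x1000000000000000000000,nat_lit 0,nat_lit 0,nat_lit 0],[nat_lit 0,
    nat_lit 0x8000000000000000000000,nat_lit 0x8000000000000000000000,nat_lit 0x8000000000000000000000,
    nat_lit 0x8000000000000000000000,nat_lit 0,nat_lit 0,nat_lit 0,nat_lit 0],[nat_lit 0,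
    nat_lit 0x345000000000000000000000000000000000000000,nat_lit 0x345000000000000000000000000000000000000000,
    nat_lit 0x345000000000000000000000000000000000000000,nat_lit 0x345000000000000000000000000000000000000000,
    nat_lit 0x10000000000000000000000000000000000000000,nat_lit 0x10000000000000000000000000000000000000000,
    nat_lit 0x10000000000000000000000000000000000000000,nat_lit 0x10000000000000000000000000000000000000000],
    [nat_lit 0x10000000000000000000000000000000000000000,nat_lit 0,nat_lit 0,nat_lit 0,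
    nat_lit 0x8000000000000000000000000000000000000000,nat_lit 0x800000000000000000000000000000000000000,
    nat_lit 0x800000000000000000000000000000000000000,nat_lit 0,nat_lit 0],
    [nat_lit 0x80200000000000000000000000000000000000000,nat_lit 0x80200000000000000000000000000000000000000,
    nat_lit 0,nat_lit 0,nat_lit 0,nat_lit 0,nat_lit 0,nat_lit 0x11000000000000000000000000000,
    nat_lit 0x11000000000000000000000000000],[nat_lit 0,nat_lit 0x20183000000000000000000000000,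
    nat_lit 0x4000000000000000000000000,nat_lit 0x42048000000000000000000000000,
    nat_lit 0x42048000000000000000000000000,nat_lit 0x42048000000000000000000000000,
    nat_lit 0x42048000000000000000000000000,nat_lit 0x42048000000000000000000000000,
    nat_lit 0x100000800000000000000000000000],[nat_lit 0x2000000000000000000000000000000000000000000000,
    nat_lit 0x2000000000000000000000000000000000000000000000,nat_lit 0x2000000000000000000000000000000000000000000000,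
    nat_lit 0x2000000000000000000000000000000000000000000000,
    nat_lit 0x50000000000000000000000000000000000000000000000,
    nat_lit 0x50000000000000000000000000000000000000000000000,nat_lit 0,
    nat_lit 0x180c00000000000000000000000000000000000000000000,nat_lit 0]],[[nat_lit 0,
    nat_lit 0x8000000000000000000000000000000000000000000000,nat_lit 0x8000000000000000000000000000000000000000000000,
    nat_lit 0,nat_lit 0x80800000000000000000000000000000000000,nat_lit 0,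
    nat_lit 0x110600000000000000000000000000000000000,nat_lit 0,nat_lit 0],
    [nat_lit 0x2000000000000000000000000000000000000,nat_lit 0x2000000000000000000000000000000000000,
    nat_lit 0x2000000000000000000000000000000000000,nat_lit 0x2000000000000000000000000000000000000,
    nat_lit 0x8100000000000000000000000000000000000,nat_lit 0x8100000000000000000000000000000000000,nat_lit 0,
    nat_lit 0x10000000000000000000000000000000000000000000000000000000,
    nat_lit 0x80000000000000000000000000000000000000000000000000000000000],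
    [nat_lit 0x80000000000000000000000000000000000000000000000000000000000,
    nat_lit 0x402800000000000000000000000000000000000000000000000000000,
    nat_lit 0x128c8000000000000000000000000000000000000000000000000000000,
    nat_lit 0x1000000000000000000000000000000000000000000000000000000,
    nat_lit 0x1000000000000000000000000000000000000000000000000000000,nat_lit 0,nat_lit 0,
    nat_lit 0x8000000000000000000000000000000000000000000000000000000000,
    nat_lit 0x1200000000000000000000000000000000000000000000000000000000],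
    [nat_lit 0x1200000000000000000000000000000000000000000000000000000000,
    nat_lit 0x800000000000000000000000000000000000000000,nat_lit 0x800000000000000000000000000000000000000000,
    nat_lit 0x800000000000000000000000000000000000000000,nat_lit 0x800000000000000000000000000000000000000000,
    nat_lit 0x800000000000000000000000000000000000000000,nat_lit 0x800000000000000000000000000000000000000000,
    nat_lit 0x40000000000000000000000000000000000000000000,nat_lit 0],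
    [nat_lit 0x10000000000000000000000000000000000000000000,nat_lit 0,
    nat_lit 0x1000000000000000000000000000000000000000000,nat_lit 0x1000000000000000000000000000000000000000000,
    nat_lit 0x1000000000000000000000000000000000000000000,nat_lit 0,nat_lit 0,nat_lit 0,nat_lit 0],[nat_lit 0,
    nat_lit 0x100400000000000000000000000000000000000000000,nat_lit 0x24000000000000000000000000000000000000000000,
    nat_lit 0x24000000000000000000000000000000000000000000,nat_lit 0,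
    nat_lit 0xa000000000000000000000000000000000000000000,nat_lit 0,nat_lit 0,nat_lit 0x41000000],[nat_lit 0x41000000,
    nat_lit 0x110000000,nat_lit 0x110000000,nat_lit 0,nat_lit 0,nat_lit 0,nat_lit 0,nat_lit 0,nat_lit 0x4000100000],
    [nat_lit 0x4000100000,nat_lit 0,nat_lit 0,nat_lit 0,nat_lit 0x2000000,nat_lit 0x2000000,nat_lit 0x1600400000,
    nat_lit 0x1600400000,nat_lit 0x1600400000],[nat_lit 0x1600400000,nat_lit 0x1600400000,nat_lit 0x20000000,
    nat_lit 0x8000200000,nat_lit 0x8000200000,nat_lit 0x4800000]]]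
    [[[[nat_lit 0,nat_lit 0,nat_lit 0,nat_lit 0,nat_lit 0,nat_lit 0,nat_lit 0,
    nat_lit 0x200014000000000000000000000000000000000000000000000000,nat_lit 0],[nat_lit 0,nat_lit 0,
    nat_lit 0x4000000000000000000000000000000000000000000000000000,
    nat_lit 0x40000000000000000000000000000000000000000000000000000,
    nat_lit 0x40000000000000000000000000000000000000000000000000000,nat_lit 0,nat_lit 0,
    nat_lit 0x400008000000000000000000000000000000000000000000000000,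
    nat_lit 0x10000000000000000000000000000000000000000000000000000],
    [nat_lit 0x10000000000000000000000000000000000000000000000000000,nat_lit 0,nat_lit 0x1000000000000,nat_lit 0,
    nat_lit 0,nat_lit 0,nat_lit 0,nat_lit 0,nat_lit 0],[nat_lit 0,nat_lit 0x8000000000000,nat_lit 0x8000000000000,
    nat_lit 0,nat_lit 0,nat_lit 0,nat_lit 0,nat_lit 0,nat_lit 0],[nat_lit 0,nat_lit 0,nat_lit 0,nat_lit 0,nat_lit 0,
    nat_lit 0,nat_lit 0,nat_lit 0x80002,nat_lit 0],[nat_lit 0x1000,nat_lit 0,nat_lit 0,nat_lit 0,nat_lit 0,nat_lit 0,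
    nat_lit 0x4200000000000000000,nat_lit 0,nat_lit 0],[nat_lit 0,nat_lit 0,nat_lit 0,nat_lit 0,nat_lit 0,nat_lit 0,
    nat_lit 0,nat_lit 0,nat_lit 0],[nat_lit 0,nat_lit 0,nat_lit 0x80000000000,nat_lit 0x80000000000,nat_lit 0,
    nat_lit 0,nat_lit 0,nat_lit 0,nat_lit 0],[nat_lit 0,nat_lit 0,nat_lit 0,nat_lit 0,nat_lit 0,nat_lit 0,nat_lit 0,
    nat_lit 0,nat_lit 0]],[[nat_lit 0,nat_lit 0,nat_lit 0,nat_lit 0,nat_lit 0,nat_lit 0,nat_lit 0,nat_lit 0,
    nat_lit 0],[nat_lit 0,nat_lit 0,nat_lit 0,nat_lit 0,nat_lit 0,nat_lit 0,nat_lit 0,nat_lit 0,nat_lit 0],[nat_lit 0,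
    nat_lit 0,nat_lit 0,nat_lit 0,nat_lit 0,nat_lit 0,nat_lit 0,nat_lit 0,nat_lit 0],[nat_lit 0,nat_lit 0,nat_lit 0,
    nat_lit 0,nat_lit 0,nat_lit 0,nat_lit 0,nat_lit 0,nat_lit 0],[nat_lit 0,nat_lit 0,nat_lit 0,nat_lit 0,nat_lit 0,
    nat_lit 0,nat_lit 0,nat_lit 0,nat_lit 0],[nat_lit 0x10000000000000000000000000000000000000000,nat_lit 0,nat_lit 0,
    nat_lit 0,nat_lit 0,nat_lit 0x800000000000000000000000000000000000000,
    nat_lit 0x800000000000000000000000000000000000000,nat_lit 0,nat_lit 0],[nat_lit 0,nat_lit 0,nat_lit 0,nat_lit 0,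
    nat_lit 0,nat_lit 0,nat_lit 0,nat_lit 0,nat_lit 0],[nat_lit 0,nat_lit 0x1000000000000000000000000,nat_lit 0,
    nat_lit 0,nat_lit 0,nat_lit 0,nat_lit 0,nat_lit 0,nat_lit 0x100000800000000000000000000000],
    [nat_lit 0x2000000000000000000000000000000000000000000000,nat_lit 0,
    nat_lit 0x2000000000000000000000000000000000000000000000,nat_lit 0,nat_lit 0,nat_lit 0,nat_lit 0,
    nat_lit 0x100400000000000000000000000000000000000000000000,nat_lit 0]],[[nat_lit 0,nat_lit 0,nat_lit 0,nat_lit 0,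
    nat_lit 0,nat_lit 0,nat_lit 0x100400000000000000000000000000000000000,nat_lit 0,nat_lit 0],[nat_lit 0,
    nat_lit 0x2000000000000000000000000000000000000,nat_lit 0x2000000000000000000000000000000000000,nat_lit 0,
    nat_lit 0,nat_lit 0,nat_lit 0,nat_lit 0,nat_lit 0],[nat_lit 0,
    nat_lit 0x800000000000000000000000000000000000000000000000000000,nat_lit 0,nat_lit 0,nat_lit 0,nat_lit 0,
    nat_lit 0,nat_lit 0,nat_lit 0],[nat_lit 0,nat_lit 0,nat_lit 0,nat_lit 0,nat_lit 0,nat_lit 0,nat_lit 0,nat_lit 0,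
    nat_lit 0],[nat_lit 0,nat_lit 0,nat_lit 0,nat_lit 0,nat_lit 0x1000000000000000000000000000000000000000000,
    nat_lit 0,nat_lit 0,nat_lit 0,nat_lit 0],[nat_lit 0,nat_lit 0,nat_lit 0,nat_lit 0,nat_lit 0,nat_lit 0,nat_lit 0,
    nat_lit 0,nat_lit 0],[nat_lit 0x41000000,nat_lit 0,nat_lit 0,nat_lit 0,nat_lit 0,nat_lit 0,nat_lit 0,nat_lit 0,
    nat_lit 0],[nat_lit 0x4000100000,nat_lit 0,nat_lit 0,nat_lit 0,nat_lit 0x2000000,nat_lit 0x2000000,
    nat_lit 0x200000000,nat_lit 0x200000000,nat_lit 0],[nat_lit 0x200000000,nat_lit 0,nat_lit 0,nat_lit 0x8000000000,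
    nat_lit 0,nat_lit 0]]]]
    (nat_lit 1) (nat_lit 1) (nat_lit 9)
    [[nat_lit 2,nat_lit 3,nat_lit 258,nat_lit 0x10002,nat_lit 0x1000002,nat_lit 0x10000002,nat_lit 17,nat_lit 257,
    nat_lit 513,nat_lit 0x10101,nat_lit 0x10000101,nat_lit 0x1000101,nat_lit 0x1001,nat_lit 0x10001001,
    nat_lit 0x10001,nat_lit 0x20001,nat_lit 0x10010001,nat_lit 0x110001,nat_lit 0x100001,nat_lit 0x1000001,
    nat_lit 0x11000001,nat_lit 0x1100001,nat_lit 0x10000001,nat_lit 0x20000001],[nat_lit 32,nat_lit 272,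
    nat_lit 0x10110,nat_lit 0x10010,nat_lit 0x20010,nat_lit 0x10010010,nat_lit 0x100010,nat_lit 0x10100010,
    nat_lit 0x10000010],[nat_lit 512,nat_lit 768,nat_lit 0x10300,nat_lit 0x10200,nat_lit 0x20200,nat_lit 0x100200,
    nat_lit 0x10000200,nat_lit 0x1100,nat_lit 0x10100,nat_lit 0x20100,nat_lit 0x1010100,nat_lit 0x30100,
    nat_lit 0x110100,nat_lit 0x10010100,nat_lit 0x100100,nat_lit 0x1100100,nat_lit 0x10100100,nat_lit 0x1000100,
    nat_lit 0x11000100,nat_lit 0x10000100,nat_lit 0x10020100,nat_lit 0x20000100],[nat_lit 0x2000,nat_lit 0x11000,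
    nat_lit 0x21000,nat_lit 0x1001000,nat_lit 0x10001000,nat_lit 0x11001000],[nat_lit 0x20000,nat_lit 0x30000,
    nat_lit 0x40000,nat_lit 0x120000,nat_lit 0x1020000,nat_lit 0x10020000,nat_lit 0x110000,nat_lit 0x10110000,
    nat_lit 0x1010000,nat_lit 0x10010000,nat_lit 0x20010000],[nat_lit 0x200000,nat_lit 0x1100000,nat_lit 0x11100000,
    nat_lit 0x10100000],[nat_lit 0x2000000,nat_lit 0x12000000,nat_lit 0x11000000,nat_lit 0x21000000],
    [nat_lit 0x20000000]]
    [.c (nat_lit 1) (nat_lit 2),.c (nat_lit 2) (nat_lit 0x80001c02),.c (nat_lit 0) (nat_lit 0x18ca329885),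
    .c (nat_lit 0) (nat_lit 0x18ca029085),.c (nat_lit 0) (nat_lit 0x1800001c04),.c (nat_lit 2) (nat_lit 0x80001402),
    .c (nat_lit 0) (nat_lit 0x180a328085),.c (nat_lit 0) (nat_lit 0x18ca329885),.c (nat_lit 4) (nat_lit 0x18ca300c83),
    .c (nat_lit 0) (nat_lit 0x18ca029085),.c (nat_lit 0) (nat_lit 0x18ca328885),.c (nat_lit 2) (nat_lit 0x8a328085),
    .c (nat_lit 2) (nat_lit 0x80018c02),.c (nat_lit 4) (nat_lit 0x10c02),.c (nat_lit 0) (nat_lit 0xc0201005),
    .c (nat_lit 1) (nat_lit 0x300802),.c (nat_lit 0) (nat_lit 0x18ca028085),.c (nat_lit 0) (nat_lit 0x8201805),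
    .c (nat_lit 0) (nat_lit 0x4001003),.c (nat_lit 0) (nat_lit 0x1000001805),.c (nat_lit 0) (nat_lit 0x1800000c04),
    .c (nat_lit 0) (nat_lit 0x28d232a484),.c (nat_lit 1) (nat_lit 0x802),.c (nat_lit 2) (nat_lit 0x80000c02),
    .c (nat_lit 2) (nat_lit 2),.c (nat_lit 0) (nat_lit 0x391a76b58d),.c (nat_lit 0) (nat_lit 0x389a06b58d),
    .c (nat_lit 1) (nat_lit 0xc0302004),.c (nat_lit 0) (nat_lit 0x180a229485),.c (nat_lit 2) (nat_lit 0x80300004),
    .c (nat_lit 0) (nat_lit 0x10c000007),.c (nat_lit 0) (nat_lit 0xce000006),.c (nat_lit 0) (nat_lit 0x180a329485),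
    .c (nat_lit 3) (nat_lit 2),.r (nat_lit 407) (nat_lit 13) [nat_lit 0xc330cc03482,nat_lit 0x180060001,
    nat_lit 0x73b40d630a2,nat_lit 0x668001,nat_lit 65,nat_lit 0x7034ed030a2],
    .r (nat_lit 0xdbb) (nat_lit 0) [nat_lit 0xa3508c63484,nat_lit 0x71b4a56b0a4],
    .r (nat_lit 0xdbf) (nat_lit 10) [nat_lit 0x21000000002,nat_lit 0x21200421482],
    .c (nat_lit 4) (nat_lit 0x18ca001483),.r (nat_lit 0xdbb) (nat_lit 0) [nat_lit 0x41184421442,
    nat_lit 0x300c6029062],.c (nat_lit 4) (nat_lit 0x18ca301483),.c (nat_lit 0) (nat_lit 0x295251250b),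
    .c (nat_lit 0) (nat_lit 0x18ca829495),.c (nat_lit 0) (nat_lit 0x18ca82948b),
    .r (nat_lit 0xdbb) (nat_lit 0) [nat_lit 0x21200421482,nat_lit 0xc0018861],.c (nat_lit 0) (nat_lit 0x39db86b595),
    .c (nat_lit 4) (nat_lit 0x18c0021485),.c (nat_lit 0) (nat_lit 0x39da46b595),
    .r (nat_lit 0xdbf) (nat_lit 10) [nat_lit 0x21000000002,nat_lit 65],.c (nat_lit 2) (nat_lit 0x180329485),
    .r (nat_lit 0xdbb) (nat_lit 0) [nat_lit 0x41104421482,nat_lit 0x300060290a2],.c (nat_lit 4) (nat_lit 0xca321485),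
    .c (nat_lit 2) (nat_lit 0x8a329485),.c (nat_lit 0) (nat_lit 0x18ca32948b),.c (nat_lit 0) (nat_lit 0x295264a50b),
    .c (nat_lit 0) (nat_lit 0x295254a50b),.c (nat_lit 4) (nat_lit 2),.c (nat_lit 0) (nat_lit 0x18ca001485),
    .c (nat_lit 2) (nat_lit 0x80318002),.c (nat_lit 0) (nat_lit 0x2800038008),.c (nat_lit 2) (nat_lit 0x80018002),
    .c (nat_lit 0) (nat_lit 0x2800018008),.c (nat_lit 5) (nat_lit 2),.c (nat_lit 0) (nat_lit 0xc0600005),
    .c (nat_lit 1) (nat_lit 0x501002),.c (nat_lit 0) (nat_lit 0x4400003),.c (nat_lit 0) (nat_lit 0x1000600005),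
    .c (nat_lit 1) (nat_lit 0x301002),.c (nat_lit 0) (nat_lit 0x4400003),.c (nat_lit 0) (nat_lit 0x4200003),
    .c (nat_lit 0) (nat_lit 0x1000600005),.c (nat_lit 0) (nat_lit 0xc0200005),.c (nat_lit 0) (nat_lit 0x18ca029485),
    .c (nat_lit 6) (nat_lit 2),.r (nat_lit 0xdbb) (nat_lit 0) [nat_lit 65,nat_lit 0x211004000a2],
    .c (nat_lit 0) (nat_lit 0x28d2329484),.c (nat_lit 0) (nat_lit 0x4000005),.c (nat_lit 7) (nat_lit 2),
    .c (nat_lit 1) (nat_lit 0x1000001003),.c (nat_lit 0) (nat_lit 0x1000000007),.c (nat_lit 0) (nat_lit 0x2800000006),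
    .c (nat_lit 8) (nat_lit 2)]]

/-- nodes -/
noncomputable def rD8k_3_13 : List RJ :=
  [.s (nat_lit 16) (nat_lit 0x3e80) (nat_lit 4) (nat_lit 0x18d7000018d7000017ce000017ce0000178300001783000019ef000019ef000017970000179700001760000017600000197200001972000019b8000019b8) (nat_lit 0x1180000011800000221000002210000026c0000026c000000000000000000000258000002580000028f0000028f0000007d0000007d0000003700000037)
    (nat_lit 0x17bf17bf1a0816b616611b6115ad1599150d11ed16480d2e250c1eea18a01a4e17bf17bf1b9816b61bd915c10aa91b11167f167f16480ebe1ef418d218a0143616b616b6165715ad1328108017ce12601d0023a414c7153f1bbb1751179710fd1b981a0812b5165710621562145e0e461a3a20de19a911cf18f518eb12a1179715c11b61156210801e9f180f0c1b1c83189b189b135a10301706129c13fa15a81bd916611062132815171e9f178317831823152b0fea14f4154e17061a8a0c201b1115990e46126017831c8319ef19ef1797179717601468249e1e7c19c21b700aa915ad145e17ce17830c1b19ef19ef179717971b341a801f6219401e4a19b8167f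11ed20de23a4152b189b17971797121f153f153a1508171a13461a8a1170167f150d1a3a1d001823189b17971797153f121f183215080cf216ac207a17600ebe0d2e11cf153f14f410301a80146815081508153f14d116e313b9189b21511648164819a914c70fea135a1b3417601832153a14d1153f15c116e31099194f18d21eea18eb17511706129c19401e7c16ac134616e313b916cf18f5193b1a5d1ef4250c18f51bbb154e17061f62249e0cf2171a15c116e318f516cf178d193b14361a4e179710fd0c2015a819b81b7017601170194f2151193b1a5d0ccf198118a018a012a117971a8a13fa1e4a19c2207a1a8a1099189b178d193b19810ccf)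
    (nat_lit 0x17bf3e803e803e803e803e803e803e803e803e803e803e803e803e803e803e8017bf17bf3e803e803e803e803e803e803e803e803e803e803e803e803e803e801a081b9816573e803e803e803e803e803e803e803e803e803e803e803e803e8016b616b615ad16573e803e803e803e803e803e803e803e803e803e803e803e8016611bd9132810621e9f3e803e803e803e803e803e803e803e803e803e803e801b6115c110801562180f1e9f3e803e803e803e803e803e803e803e803e803e8015ad0aa917ce145e0c1b178319ef3e803e803e803e803e803e803e803e803e8015991b1112600e461c83178319ef19ef3e803e803e803e803e803e803e803e80150d167f1d001a3a189b182317971797121f3e803e803e803e803e803e803e8011ed167f23a420de189b152b17971797153f121f3e803e803e803e803e803e801648164814c719a9135a0fea17601b34153a1832153f3e803e803e803e803e800d2e0ebe153f11cf103014f4146817d71508150814d1153f3e803e803e803e801edf1ef41bbb18f51706154e24891f62171a0cf216e315c116cf3e803e803e801eea18d2175118eb129c17061e7c1940134616ac13b916e318f516cf3e803e8018a018a0179712a113fa1a8a19c21e4a1a8a207a189b1099193b178d0ccf3e801a4e143610fd179715a80c201b70183b117017601c50194f1a5d193b19810ccf)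
    (nat_lit 5) (nat_lit 79)
    [[nat_lit 0,nat_lit 0,nat_lit 0,nat_lit 13],[nat_lit 0,nat_lit 0,nat_lit 5,nat_lit 13],[nat_lit 0,nat_lit 0,
    nat_lit 9,nat_lit 10],[nat_lit 0,nat_lit 0,nat_lit 13,nat_lit 0],[nat_lit 0,nat_lit 5,nat_lit 2],[nat_lit 0,
    nat_lit 5,nat_lit 8,nat_lit 10],[nat_lit 0,nat_lit 5,nat_lit 13,nat_lit 0],[nat_lit 0,nat_lit 6,nat_lit 10],
    [nat_lit 0,nat_lit 6,nat_lit 11],[nat_lit 0,nat_lit 7,nat_lit 10],[nat_lit 0,nat_lit 9,nat_lit 10,nat_lit 0],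
    [nat_lit 0,nat_lit 9,nat_lit 12],[nat_lit 0,nat_lit 9,nat_lit 13],[nat_lit 0,nat_lit 10,nat_lit 7],[nat_lit 0,
    nat_lit 12,nat_lit 9],[nat_lit 0,nat_lit 13,nat_lit 0,nat_lit 0],[nat_lit 0,nat_lit 13,nat_lit 14],[nat_lit 0,
    nat_lit 13,nat_lit 15],[nat_lit 0,nat_lit 15,nat_lit 13],[nat_lit 1,nat_lit 1,nat_lit 1,nat_lit 12],[nat_lit 1,
    nat_lit 1,nat_lit 11,nat_lit 8],[nat_lit 1,nat_lit 1,nat_lit 12,nat_lit 1],[nat_lit 1,nat_lit 1,nat_lit 12,
    nat_lit 4],[nat_lit 1,nat_lit 3,nat_lit 4],[nat_lit 1,nat_lit 6,nat_lit 11],[nat_lit 1,nat_lit 8,nat_lit 13],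
    [nat_lit 1,nat_lit 10,nat_lit 7],[nat_lit 1,nat_lit 11,nat_lit 6],[nat_lit 1,nat_lit 11,nat_lit 7],[nat_lit 1,
    nat_lit 11,nat_lit 8,nat_lit 1],[nat_lit 1,nat_lit 11,nat_lit 9,nat_lit 4],[nat_lit 1,nat_lit 12,nat_lit 1,
    nat_lit 1],[nat_lit 1,nat_lit 12,nat_lit 4,nat_lit 1],[nat_lit 1,nat_lit 12,nat_lit 8],[nat_lit 1,nat_lit 12,
    nat_lit 14],[nat_lit 1,nat_lit 13,nat_lit 8],[nat_lit 1,nat_lit 14,nat_lit 12],[nat_lit 1,nat_lit 15,nat_lit 12],
    [nat_lit 2,nat_lit 8],[nat_lit 2,nat_lit 9],[nat_lit 2,nat_lit 14],[nat_lit 2,nat_lit 15],[nat_lit 3,nat_lit 8],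
    [nat_lit 3,nat_lit 9],[nat_lit 3,nat_lit 14],[nat_lit 3,nat_lit 15],[nat_lit 4,nat_lit 4,nat_lit 9,nat_lit 10],
    [nat_lit 4,nat_lit 6,nat_lit 10],[nat_lit 4,nat_lit 6,nat_lit 11],[nat_lit 4,nat_lit 7,nat_lit 10],[nat_lit 4,
    nat_lit 7,nat_lit 11],[nat_lit 4,nat_lit 8,nat_lit 12],[nat_lit 4,nat_lit 8,nat_lit 13],[nat_lit 4,nat_lit 9,
    nat_lit 10,nat_lit 4],[nat_lit 4,nat_lit 9,nat_lit 12],[nat_lit 4,nat_lit 10,nat_lit 6],[nat_lit 4,nat_lit 10,
    nat_lit 7],[nat_lit 4,nat_lit 11,nat_lit 6],[nat_lit 4,nat_lit 11,nat_lit 7],[nat_lit 4,nat_lit 12,nat_lit 8],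
    [nat_lit 4,nat_lit 12,nat_lit 9],[nat_lit 4,nat_lit 12,nat_lit 14],[nat_lit 4,nat_lit 12,nat_lit 15],[nat_lit 4,
    nat_lit 13,nat_lit 8],[nat_lit 4,nat_lit 13,nat_lit 14],[nat_lit 4,nat_lit 13,nat_lit 15],[nat_lit 4,nat_lit 14,
    nat_lit 12],[nat_lit 4,nat_lit 14,nat_lit 13],[nat_lit 4,nat_lit 15,nat_lit 12],[nat_lit 5,nat_lit 5,nat_lit 11,
    nat_lit 8],[nat_lit 5,nat_lit 6,nat_lit 10],[nat_lit 5,nat_lit 6,nat_lit 11],[nat_lit 5,nat_lit 7,nat_lit 10],
    [nat_lit 5,nat_lit 7,nat_lit 11],[nat_lit 5,nat_lit 8,nat_lit 13],[nat_lit 5,nat_lit 9,nat_lit 12],[nat_lit 5,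
    nat_lit 9,nat_lit 13],[nat_lit 5,nat_lit 10,nat_lit 6],[nat_lit 5,nat_lit 10,nat_lit 7],[nat_lit 5,nat_lit 11,
    nat_lit 6],[nat_lit 5,nat_lit 11,nat_lit 7],[nat_lit 5,nat_lit 11,nat_lit 8,nat_lit 5],[nat_lit 5,nat_lit 12,
    nat_lit 9],[nat_lit 5,nat_lit 12,nat_lit 15],[nat_lit 5,nat_lit 13,nat_lit 8],[nat_lit 5,nat_lit 13,nat_lit 9],
    [nat_lit 5,nat_lit 13,nat_lit 14],[nat_lit 5,nat_lit 13,nat_lit 15],[nat_lit 5,nat_lit 14,nat_lit 12],[nat_lit 5,
    nat_lit 14,nat_lit 13],[nat_lit 5,nat_lit 15,nat_lit 12],[nat_lit 5,nat_lit 15,nat_lit 13],[nat_lit 6,nat_lit 12],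
    [nat_lit 6,nat_lit 13],[nat_lit 7,nat_lit 12],[nat_lit 7,nat_lit 13],[nat_lit 8,nat_lit 8,nat_lit 10],[nat_lit 8,
    nat_lit 10,nat_lit 8],[nat_lit 8,nat_lit 10,nat_lit 9],[nat_lit 8,nat_lit 10,nat_lit 14],[nat_lit 8,nat_lit 10,
    nat_lit 15],[nat_lit 8,nat_lit 11,nat_lit 9],[nat_lit 8,nat_lit 11,nat_lit 14],[nat_lit 8,nat_lit 11,nat_lit 15],
    [nat_lit 8,nat_lit 14,nat_lit 10],[nat_lit 8,nat_lit 15,nat_lit 10],[nat_lit 8,nat_lit 15,nat_lit 11],[nat_lit 9,
    nat_lit 9,nat_lit 11],[nat_lit 9,nat_lit 10,nat_lit 14],[nat_lit 9,nat_lit 11,nat_lit 9],[nat_lit 9,nat_lit 11,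
    nat_lit 14],[nat_lit 9,nat_lit 11,nat_lit 15],[nat_lit 9,nat_lit 14,nat_lit 10],[nat_lit 9,nat_lit 14,nat_lit 11],
    [nat_lit 9,nat_lit 15,nat_lit 10],[nat_lit 9,nat_lit 15,nat_lit 11],[nat_lit 10,nat_lit 15,nat_lit 14],
    [nat_lit 11,nat_lit 15,nat_lit 14]]
    [nat_lit 0x1000d,nat_lit 0x1005d,nat_lit 0x1009a,nat_lit 0x100d0,nat_lit 0x1052,nat_lit 0x1058a,nat_lit 0x105d0,
    nat_lit 0x106a,nat_lit 0x106b,nat_lit 0x107a,nat_lit 0x109a0,nat_lit 0x109c,nat_lit 0x109d,nat_lit 0x10a7,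
    nat_lit 0x10c9,nat_lit 0x10d00,nat_lit 0x10de,nat_lit 0x10df,nat_lit 0x10fd,nat_lit 0x1111c,nat_lit 0x111b8,
    nat_lit 0x111c1,nat_lit 0x111c4,nat_lit 0x1134,nat_lit 0x116b,nat_lit 0x118d,nat_lit 0x11a7,nat_lit 0x11b6,
    nat_lit 0x11b7,nat_lit 0x11b81,nat_lit 0x11b94,nat_lit 0x11c11,nat_lit 0x11c41,nat_lit 0x11c8,nat_lit 0x11ce,
    nat_lit 0x11d8,nat_lit 0x11ec,nat_lit 0x11fc,nat_lit 296,nat_lit 297,nat_lit 302,nat_lit 303,nat_lit 312,
    nat_lit 313,nat_lit 318,nat_lit 319,nat_lit 0x1449a,nat_lit 0x146a,nat_lit 0x146b,nat_lit 0x147a,nat_lit 0x147b,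
    nat_lit 0x148c,nat_lit 0x148d,nat_lit 0x149a4,nat_lit 0x149c,nat_lit 0x14a6,nat_lit 0x14a7,nat_lit 0x14b6,
    nat_lit 0x14b7,nat_lit 0x14c8,nat_lit 0x14c9,nat_lit 0x14ce,nat_lit 0x14cf,nat_lit 0x14d8,nat_lit 0x14de,
    nat_lit 0x14df,nat_lit 0x14ec,nat_lit 0x14ed,nat_lit 0x14fc,nat_lit 0x155b8,nat_lit 0x156a,nat_lit 0x156b,
    nat_lit 0x157a,nat_lit 0x157b,nat_lit 0x158d,nat_lit 0x159c,nat_lit 0x159d,nat_lit 0x15a6,nat_lit 0x15a7,
    nat_lit 0x15b6,nat_lit 0x15b7,nat_lit 0x15b85,nat_lit 0x15c9,nat_lit 0x15cf,nat_lit 0x15d8,nat_lit 0x15d9,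
    nat_lit 0x15de,nat_lit 0x15df,nat_lit 0x15ec,nat_lit 0x15ed,nat_lit 0x15fc,nat_lit 0x15fd,nat_lit 364,nat_lit 365,
    nat_lit 380,nat_lit 381,nat_lit 0x188a,nat_lit 0x18a8,nat_lit 0x18a9,nat_lit 0x18ae,nat_lit 0x18af,nat_lit 0x18b9,
    nat_lit 0x18be,nat_lit 0x18bf,nat_lit 0x18ea,nat_lit 0x18fa,nat_lit 0x18fb,nat_lit 0x199b,nat_lit 0x19ae,
    nat_lit 0x19b9,nat_lit 0x19be,nat_lit 0x19bf,nat_lit 0x19ea,nat_lit 0x19eb,nat_lit 0x19fa,nat_lit 0x19fb,
    nat_lit 0x1afe,nat_lit 0x1bfe]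
    [[[nat_lit 0,nat_lit 0,nat_lit 0,nat_lit 13],[nat_lit 0,nat_lit 0,nat_lit 5,nat_lit 13],[nat_lit 0,nat_lit 0,
    nat_lit 9,nat_lit 10],[nat_lit 0,nat_lit 0,nat_lit 13,nat_lit 0],[nat_lit 0,nat_lit 5,nat_lit 2],[nat_lit 0,
    nat_lit 5,nat_lit 8,nat_lit 10],[nat_lit 0,nat_lit 5,nat_lit 13,nat_lit 0],[nat_lit 0,nat_lit 6,nat_lit 10],
    [nat_lit 0,nat_lit 6,nat_lit 11],[nat_lit 0,nat_lit 7,nat_lit 10],[nat_lit 0,nat_lit 9,nat_lit 10,nat_lit 0],
    [nat_lit 0,nat_lit 9,nat_lit 12]],[[nat_lit 0,nat_lit 9,nat_lit 13],[nat_lit 0,nat_lit 10,nat_lit 7],[nat_lit 0,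
    nat_lit 12,nat_lit 9],[nat_lit 0,nat_lit 13,nat_lit 0,nat_lit 0],[nat_lit 0,nat_lit 13,nat_lit 14],[nat_lit 0,
    nat_lit 13,nat_lit 15],[nat_lit 0,nat_lit 15,nat_lit 13],[nat_lit 1,nat_lit 1,nat_lit 1,nat_lit 12],[nat_lit 1,
    nat_lit 1,nat_lit 11,nat_lit 8],[nat_lit 1,nat_lit 1,nat_lit 12,nat_lit 1],[nat_lit 1,nat_lit 1,nat_lit 12,
    nat_lit 4],[nat_lit 1,nat_lit 3,nat_lit 4]],[[nat_lit 1,nat_lit 6,nat_lit 11],[nat_lit 1,nat_lit 8,nat_lit 13],
    [nat_lit 1,nat_lit 10,nat_lit 7],[nat_lit 1,nat_lit 11,nat_lit 6],[nat_lit 1,nat_lit 11,nat_lit 7],[nat_lit 1,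
    nat_lit 11,nat_lit 8,nat_lit 1],[nat_lit 1,nat_lit 11,nat_lit 9,nat_lit 4],[nat_lit 1,nat_lit 12,nat_lit 1,
    nat_lit 1],[nat_lit 1,nat_lit 12,nat_lit 4,nat_lit 1],[nat_lit 1,nat_lit 12,nat_lit 8],[nat_lit 1,nat_lit 12,
    nat_lit 14],[nat_lit 1,nat_lit 13,nat_lit 8]],[[nat_lit 1,nat_lit 14,nat_lit 12],[nat_lit 1,nat_lit 15,
    nat_lit 12],[nat_lit 2,nat_lit 0,nat_lit 5],[nat_lit 2,nat_lit 8],[nat_lit 2,nat_lit 9],[nat_lit 2,nat_lit 14],
    [nat_lit 2,nat_lit 15],[nat_lit 3,nat_lit 4,nat_lit 1],[nat_lit 3,nat_lit 8],[nat_lit 3,nat_lit 9],[nat_lit 3,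
    nat_lit 14],[nat_lit 3,nat_lit 15]],[[nat_lit 4,nat_lit 1,nat_lit 1,nat_lit 12],[nat_lit 4,nat_lit 1,nat_lit 3],
    [nat_lit 4,nat_lit 1,nat_lit 11,nat_lit 9],[nat_lit 4,nat_lit 4,nat_lit 9,nat_lit 10],[nat_lit 4,nat_lit 6,
    nat_lit 10],[nat_lit 4,nat_lit 6,nat_lit 11],[nat_lit 4,nat_lit 7,nat_lit 10],[nat_lit 4,nat_lit 7,nat_lit 11],
    [nat_lit 4,nat_lit 8,nat_lit 12],[nat_lit 4,nat_lit 8,nat_lit 13],[nat_lit 4,nat_lit 9,nat_lit 10,nat_lit 4],
    [nat_lit 4,nat_lit 9,nat_lit 12]],[[nat_lit 4,nat_lit 10,nat_lit 6],[nat_lit 4,nat_lit 10,nat_lit 7],[nat_lit 4,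
    nat_lit 11,nat_lit 6],[nat_lit 4,nat_lit 11,nat_lit 7],[nat_lit 4,nat_lit 12,nat_lit 8],[nat_lit 4,nat_lit 12,
    nat_lit 9],[nat_lit 4,nat_lit 12,nat_lit 14],[nat_lit 4,nat_lit 12,nat_lit 15],[nat_lit 4,nat_lit 13,nat_lit 8],
    [nat_lit 4,nat_lit 13,nat_lit 14],[nat_lit 4,nat_lit 13,nat_lit 15],[nat_lit 4,nat_lit 14,nat_lit 12]],
    [[nat_lit 4,nat_lit 14,nat_lit 13],[nat_lit 4,nat_lit 15,nat_lit 12],[nat_lit 5,nat_lit 2,nat_lit 0],[nat_lit 5,
    nat_lit 5,nat_lit 11,nat_lit 8],[nat_lit 5,nat_lit 6,nat_lit 10],[nat_lit 5,nat_lit 6,nat_lit 11],[nat_lit 5,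
    nat_lit 7,nat_lit 10],[nat_lit 5,nat_lit 7,nat_lit 11],[nat_lit 5,nat_lit 8,nat_lit 10,nat_lit 0],[nat_lit 5,
    nat_lit 8,nat_lit 13],[nat_lit 5,nat_lit 9,nat_lit 12],[nat_lit 5,nat_lit 9,nat_lit 13]],[[nat_lit 5,nat_lit 10,
    nat_lit 6],[nat_lit 5,nat_lit 10,nat_lit 7],[nat_lit 5,nat_lit 11,nat_lit 6],[nat_lit 5,nat_lit 11,nat_lit 7],
    [nat_lit 5,nat_lit 11,nat_lit 8,nat_lit 5],[nat_lit 5,nat_lit 12,nat_lit 9],[nat_lit 5,nat_lit 12,nat_lit 15],
    [nat_lit 5,nat_lit 13,nat_lit 0,nat_lit 0],[nat_lit 5,nat_lit 13,nat_lit 8],[nat_lit 5,nat_lit 13,nat_lit 9],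
    [nat_lit 5,nat_lit 13,nat_lit 14],[nat_lit 5,nat_lit 13,nat_lit 15]],[[nat_lit 5,nat_lit 14,nat_lit 12],
    [nat_lit 5,nat_lit 14,nat_lit 13],[nat_lit 5,nat_lit 15,nat_lit 12],[nat_lit 5,nat_lit 15,nat_lit 13],[nat_lit 6,
    nat_lit 1,nat_lit 11],[nat_lit 6,nat_lit 4,nat_lit 10],[nat_lit 6,nat_lit 4,nat_lit 11],[nat_lit 6,nat_lit 5,
    nat_lit 10],[nat_lit 6,nat_lit 5,nat_lit 11],[nat_lit 6,nat_lit 10,nat_lit 0],[nat_lit 6,nat_lit 10,nat_lit 4],
    [nat_lit 6,nat_lit 10,nat_lit 5]],[[nat_lit 6,nat_lit 11,nat_lit 0],[nat_lit 6,nat_lit 11,nat_lit 1],[nat_lit 6,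
    nat_lit 11,nat_lit 4],[nat_lit 6,nat_lit 11,nat_lit 5],[nat_lit 6,nat_lit 12],[nat_lit 6,nat_lit 13],[nat_lit 7,
    nat_lit 0,nat_lit 10],[nat_lit 7,nat_lit 1,nat_lit 10],[nat_lit 7,nat_lit 1,nat_lit 11],[nat_lit 7,nat_lit 4,
    nat_lit 10],[nat_lit 7,nat_lit 4,nat_lit 11],[nat_lit 7,nat_lit 5,nat_lit 10]],[[nat_lit 7,nat_lit 5,nat_lit 11],
    [nat_lit 7,nat_lit 10,nat_lit 0],[nat_lit 7,nat_lit 10,nat_lit 4],[nat_lit 7,nat_lit 10,nat_lit 5],[nat_lit 7,
    nat_lit 11,nat_lit 4],[nat_lit 7,nat_lit 11,nat_lit 5],[nat_lit 7,nat_lit 12],[nat_lit 7,nat_lit 13],[nat_lit 8,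
    nat_lit 1,nat_lit 1,nat_lit 11],[nat_lit 8,nat_lit 1,nat_lit 12],[nat_lit 8,nat_lit 1,nat_lit 13],[nat_lit 8,
    nat_lit 2]],[[nat_lit 8,nat_lit 3],[nat_lit 8,nat_lit 4,nat_lit 12],[nat_lit 8,nat_lit 4,nat_lit 13],[nat_lit 8,
    nat_lit 5,nat_lit 5,nat_lit 11],[nat_lit 8,nat_lit 5,nat_lit 13],[nat_lit 8,nat_lit 8,nat_lit 10],[nat_lit 8,
    nat_lit 10,nat_lit 0,nat_lit 5],[nat_lit 8,nat_lit 10,nat_lit 8],[nat_lit 8,nat_lit 10,nat_lit 9],[nat_lit 8,
    nat_lit 10,nat_lit 14],[nat_lit 8,nat_lit 10,nat_lit 15],[nat_lit 8,nat_lit 11,nat_lit 9]],[[nat_lit 8,nat_lit 11,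
    nat_lit 14],[nat_lit 8,nat_lit 11,nat_lit 15],[nat_lit 8,nat_lit 12,nat_lit 4],[nat_lit 8,nat_lit 13,nat_lit 1],
    [nat_lit 8,nat_lit 13,nat_lit 4],[nat_lit 8,nat_lit 13,nat_lit 5],[nat_lit 8,nat_lit 14,nat_lit 10],[nat_lit 8,
    nat_lit 15,nat_lit 10],[nat_lit 8,nat_lit 15,nat_lit 11],[nat_lit 9,nat_lit 0,nat_lit 12],[nat_lit 9,nat_lit 2],
    [nat_lit 9,nat_lit 3]],[[nat_lit 9,nat_lit 4,nat_lit 1,nat_lit 11],[nat_lit 9,nat_lit 4,nat_lit 12],[nat_lit 9,
    nat_lit 5,nat_lit 12],[nat_lit 9,nat_lit 5,nat_lit 13],[nat_lit 9,nat_lit 8,nat_lit 10],[nat_lit 9,nat_lit 8,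
    nat_lit 11],[nat_lit 9,nat_lit 9,nat_lit 11],[nat_lit 9,nat_lit 10,nat_lit 0,nat_lit 0],[nat_lit 9,nat_lit 10,
    nat_lit 4,nat_lit 4],[nat_lit 9,nat_lit 10,nat_lit 14],[nat_lit 9,nat_lit 11,nat_lit 9],[nat_lit 9,nat_lit 11,
    nat_lit 14]],[[nat_lit 9,nat_lit 11,nat_lit 15],[nat_lit 9,nat_lit 12,nat_lit 0],[nat_lit 9,nat_lit 12,nat_lit 4],
    [nat_lit 9,nat_lit 12,nat_lit 5],[nat_lit 9,nat_lit 13,nat_lit 0],[nat_lit 9,nat_lit 13,nat_lit 5],[nat_lit 9,
    nat_lit 14,nat_lit 10],[nat_lit 9,nat_lit 14,nat_lit 11],[nat_lit 9,nat_lit 15,nat_lit 10],[nat_lit 9,nat_lit 15,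
    nat_lit 11],[nat_lit 10,nat_lit 0,nat_lit 0,nat_lit 9],[nat_lit 10,nat_lit 0,nat_lit 5,nat_lit 8]],[[nat_lit 10,
    nat_lit 0,nat_lit 6],[nat_lit 10,nat_lit 0,nat_lit 7],[nat_lit 10,nat_lit 4,nat_lit 4,nat_lit 9],[nat_lit 10,
    nat_lit 4,nat_lit 6],[nat_lit 10,nat_lit 4,nat_lit 7],[nat_lit 10,nat_lit 5,nat_lit 6],[nat_lit 10,nat_lit 5,
    nat_lit 7],[nat_lit 10,nat_lit 6,nat_lit 4],[nat_lit 10,nat_lit 6,nat_lit 5],[nat_lit 10,nat_lit 7,nat_lit 0],
    [nat_lit 10,nat_lit 7,nat_lit 1],[nat_lit 10,nat_lit 7,nat_lit 4]],[[nat_lit 10,nat_lit 7,nat_lit 5],[nat_lit 10,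
    nat_lit 8,nat_lit 8],[nat_lit 10,nat_lit 8,nat_lit 14],[nat_lit 10,nat_lit 8,nat_lit 15],[nat_lit 10,nat_lit 9,
    nat_lit 8],[nat_lit 10,nat_lit 9,nat_lit 14],[nat_lit 10,nat_lit 9,nat_lit 15],[nat_lit 10,nat_lit 14,nat_lit 8],
    [nat_lit 10,nat_lit 14,nat_lit 9],[nat_lit 10,nat_lit 15,nat_lit 8],[nat_lit 10,nat_lit 15,nat_lit 14],
    [nat_lit 11,nat_lit 0,nat_lit 6]],[[nat_lit 11,nat_lit 1,nat_lit 6],[nat_lit 11,nat_lit 4,nat_lit 6],[nat_lit 11,
    nat_lit 4,nat_lit 7],[nat_lit 11,nat_lit 5,nat_lit 6],[nat_lit 11,nat_lit 5,nat_lit 7],[nat_lit 11,nat_lit 6,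
    nat_lit 1],[nat_lit 11,nat_lit 6,nat_lit 4],[nat_lit 11,nat_lit 6,nat_lit 5],[nat_lit 11,nat_lit 7,nat_lit 1],
    [nat_lit 11,nat_lit 7,nat_lit 4],[nat_lit 11,nat_lit 7,nat_lit 5],[nat_lit 11,nat_lit 8,nat_lit 1,nat_lit 1]],
    [[nat_lit 11,nat_lit 8,nat_lit 5,nat_lit 5],[nat_lit 11,nat_lit 8,nat_lit 15],[nat_lit 11,nat_lit 9,nat_lit 4,
    nat_lit 1],[nat_lit 11,nat_lit 9,nat_lit 8],[nat_lit 11,nat_lit 9,nat_lit 9],[nat_lit 11,nat_lit 9,nat_lit 14],
    [nat_lit 11,nat_lit 9,nat_lit 15],[nat_lit 11,nat_lit 14,nat_lit 8],[nat_lit 11,nat_lit 14,nat_lit 9],[nat_lit 11,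
    nat_lit 15,nat_lit 8],[nat_lit 11,nat_lit 15,nat_lit 9],[nat_lit 11,nat_lit 15,nat_lit 14]],[[nat_lit 12,
    nat_lit 0,nat_lit 9],[nat_lit 12,nat_lit 1,nat_lit 1,nat_lit 1],[nat_lit 12,nat_lit 1,nat_lit 14],[nat_lit 12,
    nat_lit 1,nat_lit 15],[nat_lit 12,nat_lit 4,nat_lit 1,nat_lit 1],[nat_lit 12,nat_lit 4,nat_lit 8],[nat_lit 12,
    nat_lit 4,nat_lit 9],[nat_lit 12,nat_lit 4,nat_lit 14],[nat_lit 12,nat_lit 4,nat_lit 15],[nat_lit 12,nat_lit 5,
    nat_lit 9],[nat_lit 12,nat_lit 5,nat_lit 14],[nat_lit 12,nat_lit 5,nat_lit 15]],[[nat_lit 12,nat_lit 6],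
    [nat_lit 12,nat_lit 7],[nat_lit 12,nat_lit 8,nat_lit 1],[nat_lit 12,nat_lit 8,nat_lit 4],[nat_lit 12,nat_lit 9,
    nat_lit 0],[nat_lit 12,nat_lit 9,nat_lit 4],[nat_lit 12,nat_lit 9,nat_lit 5],[nat_lit 12,nat_lit 14,nat_lit 1],
    [nat_lit 12,nat_lit 14,nat_lit 4],[nat_lit 12,nat_lit 15,nat_lit 4],[nat_lit 12,nat_lit 15,nat_lit 5],[nat_lit 13,
    nat_lit 0,nat_lit 0,nat_lit 0]],[[nat_lit 13,nat_lit 0,nat_lit 0,nat_lit 5],[nat_lit 13,nat_lit 0,nat_lit 9],
    [nat_lit 13,nat_lit 0,nat_lit 15],[nat_lit 13,nat_lit 1,nat_lit 8],[nat_lit 13,nat_lit 4,nat_lit 8],[nat_lit 13,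
    nat_lit 4,nat_lit 14],[nat_lit 13,nat_lit 5,nat_lit 8],[nat_lit 13,nat_lit 5,nat_lit 9],[nat_lit 13,nat_lit 5,
    nat_lit 14],[nat_lit 13,nat_lit 5,nat_lit 15],[nat_lit 13,nat_lit 6],[nat_lit 13,nat_lit 7]],[[nat_lit 13,
    nat_lit 8,nat_lit 1],[nat_lit 13,nat_lit 8,nat_lit 4],[nat_lit 13,nat_lit 8,nat_lit 5],[nat_lit 13,nat_lit 9,
    nat_lit 5],[nat_lit 13,nat_lit 14,nat_lit 0],[nat_lit 13,nat_lit 14,nat_lit 4],[nat_lit 13,nat_lit 14,nat_lit 5],
    [nat_lit 13,nat_lit 15,nat_lit 0],[nat_lit 13,nat_lit 15,nat_lit 4],[nat_lit 13,nat_lit 15,nat_lit 5],[nat_lit 14,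
    nat_lit 0,nat_lit 13],[nat_lit 14,nat_lit 1,nat_lit 12]],[[nat_lit 14,nat_lit 2],[nat_lit 14,nat_lit 3],
    [nat_lit 14,nat_lit 4,nat_lit 12],[nat_lit 14,nat_lit 4,nat_lit 13],[nat_lit 14,nat_lit 5,nat_lit 13],[nat_lit 14,
    nat_lit 8,nat_lit 10],[nat_lit 14,nat_lit 8,nat_lit 11],[nat_lit 14,nat_lit 9,nat_lit 10],[nat_lit 14,nat_lit 9,
    nat_lit 11],[nat_lit 14,nat_lit 10,nat_lit 8],[nat_lit 14,nat_lit 10,nat_lit 9],[nat_lit 14,nat_lit 10,
    nat_lit 15]],[[nat_lit 14,nat_lit 11,nat_lit 9],[nat_lit 14,nat_lit 11,nat_lit 15],[nat_lit 14,nat_lit 12,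
    nat_lit 1],[nat_lit 14,nat_lit 12,nat_lit 4],[nat_lit 14,nat_lit 12,nat_lit 5],[nat_lit 14,nat_lit 13,nat_lit 4],
    [nat_lit 14,nat_lit 13,nat_lit 5],[nat_lit 15,nat_lit 0,nat_lit 13],[nat_lit 15,nat_lit 2],[nat_lit 15,nat_lit 3],
    [nat_lit 15,nat_lit 4,nat_lit 12],[nat_lit 15,nat_lit 4,nat_lit 13]],[[nat_lit 15,nat_lit 5,nat_lit 12],
    [nat_lit 15,nat_lit 5,nat_lit 13],[nat_lit 15,nat_lit 8,nat_lit 10],[nat_lit 15,nat_lit 8,nat_lit 11],[nat_lit 15,
    nat_lit 9,nat_lit 11],[nat_lit 15,nat_lit 10,nat_lit 8],[nat_lit 15,nat_lit 10,nat_lit 9],[nat_lit 15,nat_lit 11,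
    nat_lit 8],[nat_lit 15,nat_lit 11,nat_lit 9],[nat_lit 15,nat_lit 12,nat_lit 1],[nat_lit 15,nat_lit 12,nat_lit 4],
    [nat_lit 15,nat_lit 12,nat_lit 5]],[[nat_lit 15,nat_lit 13,nat_lit 0],[nat_lit 15,nat_lit 13,nat_lit 5],
    [nat_lit 15,nat_lit 14,nat_lit 10],[nat_lit 15,nat_lit 14,nat_lit 11]]]
    [[nat_lit 3,nat_lit 6,nat_lit 10,nat_lit 15,nat_lit 74,nat_lit 80,nat_lit 91,nat_lit 105,nat_lit 108,nat_lit 121,
    nat_lit 163,nat_lit 169],[nat_lit 172,nat_lit 189,nat_lit 244,nat_lit 251,nat_lit 268,nat_lit 271,nat_lit 312,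
    nat_lit 21,nat_lit 29,nat_lit 31,nat_lit 32,nat_lit 43],[nat_lit 109,nat_lit 147,nat_lit 190,nat_lit 209,
    nat_lit 212,nat_lit 215,nat_lit 218,nat_lit 229,nat_lit 232,nat_lit 242,nat_lit 247,nat_lit 264],[nat_lit 290,
    nat_lit 309,nat_lit 4,nat_lit 131,nat_lit 154,nat_lit 276,nat_lit 296,nat_lit 49,nat_lit 132,nat_lit 155,
    nat_lit 277,nat_lit 297],[nat_lit 22,nat_lit 23,nat_lit 30,nat_lit 58,nat_lit 106,nat_lit 110,nat_lit 122,
    nat_lit 124,nat_lit 146,nat_lit 148,nat_lit 164,nat_lit 170],[nat_lit 187,nat_lit 191,nat_lit 210,nat_lit 213,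
    nat_lit 243,nat_lit 245,nat_lit 248,nat_lit 249,nat_lit 265,nat_lit 269,nat_lit 272,nat_lit 291],[nat_lit 293,
    nat_lit 310,nat_lit 38,nat_lit 88,nat_lit 107,nat_lit 111,nat_lit 123,nat_lit 125,nat_lit 138,nat_lit 149,
    nat_lit 171,nat_lit 173],[nat_lit 188,nat_lit 192,nat_lit 211,nat_lit 214,nat_lit 216,nat_lit 246,nat_lit 250,
    nat_lit 252,nat_lit 266,nat_lit 267,nat_lit 270,nat_lit 273],[nat_lit 292,nat_lit 294,nat_lit 311,nat_lit 313,
    nat_lit 27,nat_lit 60,nat_lit 62,nat_lit 84,nat_lit 86,nat_lit 180,nat_lit 183,nat_lit 185],[nat_lit 203,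
    nat_lit 204,nat_lit 205,nat_lit 207,nat_lit 240,nat_lit 262,nat_lit 13,nat_lit 26,nat_lit 28,nat_lit 61,
    nat_lit 63,nat_lit 85],[nat_lit 87,nat_lit 181,nat_lit 184,nat_lit 186,nat_lit 206,nat_lit 208,nat_lit 241,
    nat_lit 263,nat_lit 20,nat_lit 33,nat_lit 35,nat_lit 39],[nat_lit 44,nat_lit 64,nat_lit 68,nat_lit 75,nat_lit 92,
    nat_lit 139,nat_lit 179,nat_lit 193,nat_lit 196,nat_lit 199,nat_lit 201,nat_lit 219],[nat_lit 223,nat_lit 225,
    nat_lit 233,nat_lit 255,nat_lit 256,nat_lit 258,nat_lit 285,nat_lit 305,nat_lit 307,nat_lit 14,nat_lit 40,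
    nat_lit 45],[nat_lit 50,nat_lit 65,nat_lit 89,nat_lit 93,nat_lit 140,nat_lit 143,nat_lit 166,nat_lit 178,
    nat_lit 182,nat_lit 200,nat_lit 220,nat_lit 224],[nat_lit 226,nat_lit 228,nat_lit 234,nat_lit 237,nat_lit 253,
    nat_lit 259,nat_lit 286,nat_lit 288,nat_lit 306,nat_lit 308,nat_lit 2,nat_lit 5],[nat_lit 7,nat_lit 9,nat_lit 51,
    nat_lit 52,nat_lit 54,nat_lit 76,nat_lit 78,nat_lit 101,nat_lit 103,nat_lit 114,nat_lit 115,nat_lit 117],
    [nat_lit 119,nat_lit 137,nat_lit 150,nat_lit 151,nat_lit 160,nat_lit 174,nat_lit 176,nat_lit 281,nat_lit 283,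
    nat_lit 302,nat_lit 314,nat_lit 8],[nat_lit 24,nat_lit 53,nat_lit 55,nat_lit 77,nat_lit 79,nat_lit 100,
    nat_lit 102,nat_lit 104,nat_lit 116,nat_lit 118,nat_lit 120,nat_lit 128],[nat_lit 135,nat_lit 152,nat_lit 156,
    nat_lit 161,nat_lit 162,nat_lit 175,nat_lit 177,nat_lit 282,nat_lit 284,nat_lit 303,nat_lit 304,nat_lit 315],
    [nat_lit 11,nat_lit 19,nat_lit 36,nat_lit 37,nat_lit 48,nat_lit 56,nat_lit 59,nat_lit 71,nat_lit 73,nat_lit 82,
    nat_lit 96,nat_lit 98],[nat_lit 112,nat_lit 126,nat_lit 129,nat_lit 133,nat_lit 153,nat_lit 157,nat_lit 158,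
    nat_lit 275,nat_lit 278,nat_lit 298,nat_lit 300,nat_lit 0],[nat_lit 1,nat_lit 12,nat_lit 18,nat_lit 25,nat_lit 57,
    nat_lit 72,nat_lit 81,nat_lit 83,nat_lit 97,nat_lit 99,nat_lit 113,nat_lit 127],[nat_lit 130,nat_lit 134,
    nat_lit 136,nat_lit 159,nat_lit 274,nat_lit 279,nat_lit 280,nat_lit 295,nat_lit 299,nat_lit 301,nat_lit 16,
    nat_lit 34],[nat_lit 41,nat_lit 46,nat_lit 66,nat_lit 69,nat_lit 94,nat_lit 141,nat_lit 144,nat_lit 165,
    nat_lit 167,nat_lit 194,nat_lit 197,nat_lit 202],[nat_lit 221,nat_lit 227,nat_lit 230,nat_lit 235,nat_lit 238,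
    nat_lit 257,nat_lit 260,nat_lit 17,nat_lit 42,nat_lit 47,nat_lit 67,nat_lit 70],[nat_lit 90,nat_lit 95,
    nat_lit 142,nat_lit 145,nat_lit 168,nat_lit 195,nat_lit 198,nat_lit 217,nat_lit 222,nat_lit 231,nat_lit 236,
    nat_lit 239],[nat_lit 254,nat_lit 261,nat_lit 287,nat_lit 289]]
    [[nat_lit 251,nat_lit 252,nat_lit 178,nat_lit 0,nat_lit 38,nat_lit 179,nat_lit 1,nat_lit 180,nat_lit 203,
    nat_lit 181,nat_lit 2,nat_lit 228],[nat_lit 253,nat_lit 114,nat_lit 153,nat_lit 3,nat_lit 274,nat_lit 295,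
    nat_lit 254,nat_lit 229,nat_lit 128,nat_lit 19,nat_lit 48,nat_lit 49],[nat_lit 204,nat_lit 255,nat_lit 115,
    nat_lit 100,nat_lit 116,nat_lit 20,nat_lit 50,nat_lit 21,nat_lit 22,nat_lit 129,nat_lit 275,nat_lit 130],
    [nat_lit 230,nat_lit 231,nat_lit 74,nat_lit 131,nat_lit 154,nat_lit 276,nat_lit 296,nat_lit 23,nat_lit 132,
    nat_lit 155,nat_lit 277,nat_lit 297],[nat_lit 232,nat_lit 43,nat_lit 156,nat_lit 182,nat_lit 183,nat_lit 205,
    nat_lit 184,nat_lit 206,nat_lit 233,nat_lit 256,nat_lit 51,nat_lit 234],[nat_lit 101,nat_lit 117,nat_lit 102,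
    nat_lit 118,nat_lit 133,nat_lit 157,nat_lit 278,nat_lit 298,nat_lit 134,nat_lit 279,nat_lit 299,nat_lit 235],
    [nat_lit 257,nat_lit 236,nat_lit 4,nat_lit 135,nat_lit 185,nat_lit 207,nat_lit 186,nat_lit 208,nat_lit 5,
    nat_lit 258,nat_lit 237,nat_lit 259],[nat_lit 103,nat_lit 119,nat_lit 104,nat_lit 120,nat_lit 75,nat_lit 158,
    nat_lit 300,nat_lit 6,nat_lit 136,nat_lit 159,nat_lit 280,nat_lit 301],[nat_lit 238,nat_lit 260,nat_lit 239,
    nat_lit 261,nat_lit 209,nat_lit 187,nat_lit 210,nat_lit 188,nat_lit 211,nat_lit 7,nat_lit 52,nat_lit 76],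
    [nat_lit 8,nat_lit 24,nat_lit 53,nat_lit 77,nat_lit 240,nat_lit 262,nat_lit 189,nat_lit 190,nat_lit 212,
    nat_lit 191,nat_lit 213,nat_lit 192],[nat_lit 214,nat_lit 9,nat_lit 54,nat_lit 78,nat_lit 55,nat_lit 79,
    nat_lit 241,nat_lit 263,nat_lit 215,nat_lit 242,nat_lit 264,nat_lit 39],[nat_lit 44,nat_lit 243,nat_lit 265,
    nat_lit 216,nat_lit 266,nat_lit 193,nat_lit 80,nat_lit 137,nat_lit 160,nat_lit 281,nat_lit 302,nat_lit 161],
    [nat_lit 282,nat_lit 303,nat_lit 56,nat_lit 25,nat_lit 57,nat_lit 81,nat_lit 194,nat_lit 195,nat_lit 217,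
    nat_lit 244,nat_lit 40,nat_lit 45],[nat_lit 218,nat_lit 245,nat_lit 246,nat_lit 267,nat_lit 196,nat_lit 219,
    nat_lit 220,nat_lit 10,nat_lit 58,nat_lit 283,nat_lit 162,nat_lit 284],[nat_lit 304,nat_lit 11,nat_lit 59,
    nat_lit 82,nat_lit 12,nat_lit 83,nat_lit 197,nat_lit 221,nat_lit 198,nat_lit 222,nat_lit 163,nat_lit 138],
    [nat_lit 105,nat_lit 121,nat_lit 164,nat_lit 106,nat_lit 122,nat_lit 107,nat_lit 123,nat_lit 60,nat_lit 84,
    nat_lit 13,nat_lit 26,nat_lit 61],[nat_lit 85,nat_lit 139,nat_lit 285,nat_lit 305,nat_lit 140,nat_lit 286,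
    nat_lit 306,nat_lit 141,nat_lit 165,nat_lit 142,nat_lit 287,nat_lit 108],[nat_lit 109,nat_lit 110,nat_lit 124,
    nat_lit 111,nat_lit 125,nat_lit 27,nat_lit 62,nat_lit 86,nat_lit 28,nat_lit 63,nat_lit 87,nat_lit 29],[nat_lit 88,
    nat_lit 307,nat_lit 30,nat_lit 143,nat_lit 166,nat_lit 288,nat_lit 308,nat_lit 144,nat_lit 167,nat_lit 145,
    nat_lit 168,nat_lit 289],[nat_lit 169,nat_lit 31,nat_lit 290,nat_lit 309,nat_lit 32,nat_lit 146,nat_lit 170,
    nat_lit 291,nat_lit 310,nat_lit 171,nat_lit 292,nat_lit 311],[nat_lit 112,nat_lit 126,nat_lit 33,nat_lit 64,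
    nat_lit 14,nat_lit 65,nat_lit 89,nat_lit 34,nat_lit 66,nat_lit 67,nat_lit 90,nat_lit 15],[nat_lit 91,nat_lit 172,
    nat_lit 312,nat_lit 147,nat_lit 148,nat_lit 293,nat_lit 149,nat_lit 173,nat_lit 294,nat_lit 313,nat_lit 113,
    nat_lit 127],[nat_lit 35,nat_lit 68,nat_lit 92,nat_lit 93,nat_lit 16,nat_lit 69,nat_lit 94,nat_lit 17,nat_lit 70,
    nat_lit 95,nat_lit 268,nat_lit 247],[nat_lit 41,nat_lit 46,nat_lit 248,nat_lit 269,nat_lit 270,nat_lit 199,
    nat_lit 223,nat_lit 200,nat_lit 224,nat_lit 150,nat_lit 174,nat_lit 314],[nat_lit 175,nat_lit 315,nat_lit 36,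
    nat_lit 71,nat_lit 96,nat_lit 72,nat_lit 97,nat_lit 271,nat_lit 42,nat_lit 47,nat_lit 249,nat_lit 272],
    [nat_lit 250,nat_lit 273,nat_lit 201,nat_lit 225,nat_lit 226,nat_lit 151,nat_lit 176,nat_lit 152,nat_lit 177,
    nat_lit 37,nat_lit 73,nat_lit 98],[nat_lit 18,nat_lit 99,nat_lit 202,nat_lit 227]]
    [[[nat_lit 276],[nat_lit 276],[nat_lit 276],[nat_lit 276],[nat_lit 277],[nat_lit 277],[nat_lit 277],[nat_lit 285],
    [nat_lit 285],[nat_lit 292,nat_lit 294],[],[]],[[],[nat_lit 275,nat_lit 278],[],[nat_lit 282,nat_lit 284],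
    [nat_lit 282,nat_lit 284],[nat_lit 282,nat_lit 284],[nat_lit 274,nat_lit 279,nat_lit 280],[nat_lit 47],
    [nat_lit 47],[nat_lit 47],[nat_lit 47],[nat_lit 43]],[[nat_lit 44],[],[],[nat_lit 45],[nat_lit 45],[nat_lit 45],
    [nat_lit 45],[nat_lit 46],[nat_lit 46],[nat_lit 46],[nat_lit 46],[]],[[],[],[nat_lit 4],[nat_lit 2,nat_lit 5,
    nat_lit 7,nat_lit 9],[nat_lit 13],[nat_lit 3,nat_lit 6,nat_lit 10,nat_lit 15],[nat_lit 0,nat_lit 1,nat_lit 12,
    nat_lit 18],[nat_lit 84,nat_lit 86],[nat_lit 76,nat_lit 78],[nat_lit 85,nat_lit 87],[nat_lit 74,nat_lit 80,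
    nat_lit 91],[nat_lit 81,nat_lit 83,nat_lit 97,nat_lit 99]],[[nat_lit 42],[nat_lit 42],[nat_lit 42],[],
    [nat_lit 39],[nat_lit 39],[nat_lit 38],[nat_lit 38],[],[],[],[]],[[],[],[nat_lit 40],[nat_lit 40],[nat_lit 41],
    [nat_lit 41],[nat_lit 41],[nat_lit 41],[],[],[],[]],[[],[],[nat_lit 122,nat_lit 124],[],[],[],[nat_lit 123,
    nat_lit 125],[nat_lit 123,nat_lit 125],[nat_lit 114,nat_lit 115,nat_lit 117,nat_lit 119],[nat_lit 114,nat_lit 115,
    nat_lit 117,nat_lit 119],[],[]],[[nat_lit 126],[nat_lit 126],[],[],[],[],[],[nat_lit 116,nat_lit 118,nat_lit 120],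
    [nat_lit 116,nat_lit 118,nat_lit 120],[nat_lit 116,nat_lit 118,nat_lit 120],[nat_lit 116,nat_lit 118,nat_lit 120],
    [nat_lit 116,nat_lit 118,nat_lit 120]],[[nat_lit 121],[nat_lit 121],[nat_lit 127],[nat_lit 127],[nat_lit 67,
    nat_lit 70],[nat_lit 60,nat_lit 62],[nat_lit 60,nat_lit 62],[nat_lit 49],[nat_lit 49],[nat_lit 48,nat_lit 56,
    nat_lit 59,nat_lit 71,nat_lit 73],[nat_lit 48,nat_lit 56,nat_lit 59,nat_lit 71,nat_lit 73],[nat_lit 48,nat_lit 56,
    nat_lit 59,nat_lit 71,nat_lit 73]],[[nat_lit 50,nat_lit 65],[nat_lit 50,nat_lit 65],[nat_lit 50,nat_lit 65],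
    [nat_lit 50,nat_lit 65],[nat_lit 66,nat_lit 69],[nat_lit 53,nat_lit 55],[nat_lit 154],[nat_lit 168],[nat_lit 168],
    [],[],[nat_lit 155]],[[nat_lit 155],[nat_lit 153,nat_lit 157,nat_lit 158],[nat_lit 153,nat_lit 157,nat_lit 158],
    [nat_lit 153,nat_lit 157,nat_lit 158],[nat_lit 166],[nat_lit 166],[nat_lit 165,nat_lit 167],[nat_lit 156,
    nat_lit 161,nat_lit 162,nat_lit 175,nat_lit 177],[],[],[],[nat_lit 106,nat_lit 110]],[[nat_lit 109],[],[],[],[],
    [nat_lit 101,nat_lit 103],[nat_lit 112],[nat_lit 112],[nat_lit 112],[nat_lit 112],[nat_lit 112],[]],[[],[],[],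
    [nat_lit 100,nat_lit 102,nat_lit 104],[nat_lit 100,nat_lit 102,nat_lit 104],[nat_lit 100,nat_lit 102,nat_lit 104],
    [nat_lit 105,nat_lit 108],[nat_lit 113],[nat_lit 113],[],[nat_lit 210,nat_lit 213],[nat_lit 209,nat_lit 212,
    nat_lit 215,nat_lit 218]],[[nat_lit 203,nat_lit 204,nat_lit 205,nat_lit 207],[nat_lit 203,nat_lit 204,nat_lit 205,
    nat_lit 207],[],[],[],[],[nat_lit 206,nat_lit 208],[],[],[],[nat_lit 220,nat_lit 224,nat_lit 226],[nat_lit 220,
    nat_lit 224,nat_lit 226]],[[nat_lit 220,nat_lit 224,nat_lit 226],[nat_lit 221,nat_lit 227],[nat_lit 221,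
    nat_lit 227],[nat_lit 221,nat_lit 227],[],[],[],[],[],[],[nat_lit 131],[nat_lit 131]],[[nat_lit 131],
    [nat_lit 131],[],[],[],[nat_lit 132],[nat_lit 132],[nat_lit 139],[nat_lit 139],[nat_lit 138,nat_lit 149],
    [nat_lit 138,nat_lit 149],[nat_lit 138,nat_lit 149]],[[nat_lit 138,nat_lit 149],[nat_lit 137,nat_lit 150,
    nat_lit 151],[nat_lit 137,nat_lit 150,nat_lit 151],[nat_lit 137,nat_lit 150,nat_lit 151],[],[],[],[],[],
    [nat_lit 130,nat_lit 134,nat_lit 136],[nat_lit 130,nat_lit 134,nat_lit 136],[]],[[nat_lit 254,nat_lit 261],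
    [nat_lit 262],[nat_lit 262],[],[],[nat_lit 255,nat_lit 256,nat_lit 258],[nat_lit 255,nat_lit 256,nat_lit 258],
    [nat_lit 255,nat_lit 256,nat_lit 258],[nat_lit 252,nat_lit 266,nat_lit 267,nat_lit 270,nat_lit 273],[nat_lit 252,
    nat_lit 266,nat_lit 267,nat_lit 270,nat_lit 273],[nat_lit 252,nat_lit 266,nat_lit 267,nat_lit 270,nat_lit 273],
    []],[[],[],[nat_lit 263],[nat_lit 263],[nat_lit 263],[nat_lit 263],[nat_lit 263],[nat_lit 251,nat_lit 268,
    nat_lit 271],[nat_lit 251,nat_lit 268,nat_lit 271],[],[],[]],[[],[nat_lit 195,nat_lit 198],[nat_lit 195,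
    nat_lit 198],[nat_lit 195,nat_lit 198],[nat_lit 180,nat_lit 183,nat_lit 185],[nat_lit 180,nat_lit 183,
    nat_lit 185],[nat_lit 180,nat_lit 183,nat_lit 185],[nat_lit 180,nat_lit 183,nat_lit 185],[nat_lit 180,nat_lit 183,
    nat_lit 185],[],[],[]],[[nat_lit 179,nat_lit 193,nat_lit 196,nat_lit 199,nat_lit 201],[nat_lit 188,nat_lit 192],
    [],[],[nat_lit 181,nat_lit 184,nat_lit 186],[nat_lit 181,nat_lit 184,nat_lit 186],[nat_lit 181,nat_lit 184,
    nat_lit 186],[nat_lit 189],[nat_lit 189],[],[],[nat_lit 296]],[[nat_lit 296],[nat_lit 296],[nat_lit 296],[],[],[],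
    [nat_lit 297],[nat_lit 297],[nat_lit 297],[nat_lit 297],[nat_lit 305,nat_lit 307],[nat_lit 311,nat_lit 313]],
    [[nat_lit 302,nat_lit 314],[nat_lit 302,nat_lit 314],[nat_lit 302,nat_lit 314],[],[nat_lit 312],[nat_lit 312],
    [nat_lit 312],[nat_lit 295,nat_lit 299,nat_lit 301],[nat_lit 295,nat_lit 299,nat_lit 301],[nat_lit 295,
    nat_lit 299,nat_lit 301],[],[nat_lit 231,nat_lit 236,nat_lit 239]],[[nat_lit 243,nat_lit 245,nat_lit 248,
    nat_lit 249],[nat_lit 229,nat_lit 232,nat_lit 242,nat_lit 247],[nat_lit 240],[nat_lit 240],[],[],[],[nat_lit 241],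
    [nat_lit 241],[],[],[]],[[nat_lit 228,nat_lit 234,nat_lit 237],[nat_lit 228,nat_lit 234,nat_lit 237],[nat_lit 230,
    nat_lit 235,nat_lit 238],[nat_lit 230,nat_lit 235,nat_lit 238],[nat_lit 230,nat_lit 235,nat_lit 238],[],[],[],
    [nat_lit 22,nat_lit 23,nat_lit 30],[nat_lit 21,nat_lit 29,nat_lit 31,nat_lit 32],[nat_lit 27],[nat_lit 27]],[[],
    [],[],[],[nat_lit 26,nat_lit 28],[nat_lit 19,nat_lit 36,nat_lit 37],[nat_lit 19,nat_lit 36,nat_lit 37],[],[],
    [nat_lit 34],[nat_lit 34],[nat_lit 34]],[[nat_lit 24],[nat_lit 24],[],[]]]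
    (nat_lit 316) [nat_lit 0,nat_lit 1,nat_lit 2,nat_lit 3,nat_lit 4,nat_lit 5,nat_lit 6,nat_lit 7,nat_lit 8,
    nat_lit 9,nat_lit 10,nat_lit 11,nat_lit 12,nat_lit 13,nat_lit 14,nat_lit 15,nat_lit 16,nat_lit 17,nat_lit 18,
    nat_lit 19,nat_lit 20,nat_lit 21,nat_lit 22,nat_lit 23,nat_lit 24,nat_lit 25,nat_lit 26,nat_lit 27,nat_lit 28,
    nat_lit 29,nat_lit 30,nat_lit 31,nat_lit 32,nat_lit 33,nat_lit 34,nat_lit 35,nat_lit 36,nat_lit 37,nat_lit 39,
    nat_lit 40,nat_lit 41,nat_lit 42,nat_lit 44,nat_lit 45,nat_lit 46,nat_lit 47,nat_lit 51,nat_lit 52,nat_lit 53,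
    nat_lit 54,nat_lit 55,nat_lit 56,nat_lit 57,nat_lit 58,nat_lit 59,nat_lit 60,nat_lit 61,nat_lit 62,nat_lit 63,
    nat_lit 64,nat_lit 65,nat_lit 66,nat_lit 67,nat_lit 68,nat_lit 69,nat_lit 70,nat_lit 71,nat_lit 72,nat_lit 73,
    nat_lit 75,nat_lit 76,nat_lit 77,nat_lit 78,nat_lit 79,nat_lit 81,nat_lit 82,nat_lit 83,nat_lit 84,nat_lit 85,
    nat_lit 86,nat_lit 87,nat_lit 88,nat_lit 89,nat_lit 90,nat_lit 92,nat_lit 93,nat_lit 94,nat_lit 95,nat_lit 96,
    nat_lit 97,nat_lit 98,nat_lit 99,nat_lit 112,nat_lit 113,nat_lit 126,nat_lit 127,nat_lit 137,nat_lit 139,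
    nat_lit 140,nat_lit 141,nat_lit 142,nat_lit 143,nat_lit 144,nat_lit 145,nat_lit 150,nat_lit 151,nat_lit 152,
    nat_lit 162,nat_lit 165,nat_lit 166,nat_lit 167,nat_lit 168,nat_lit 174,nat_lit 175,nat_lit 176,nat_lit 177,
    nat_lit 202,nat_lit 227]
    [[[nat_lit 3,nat_lit 6,nat_lit 10,nat_lit 15],[],[nat_lit 4],[],[],[],[],[nat_lit 13],[],[nat_lit 14],[nat_lit 2,
    nat_lit 5,nat_lit 7,nat_lit 9],[nat_lit 8],[nat_lit 11],[nat_lit 0,nat_lit 1,nat_lit 12,nat_lit 18],[nat_lit 16],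
    [nat_lit 17]],[[],[nat_lit 21,nat_lit 29,nat_lit 31,nat_lit 32],[],[],[nat_lit 22,nat_lit 23,nat_lit 30],[],
    [nat_lit 27],[nat_lit 26,nat_lit 28],[nat_lit 20,nat_lit 33,nat_lit 35],[],[],[nat_lit 24],[nat_lit 19,nat_lit 36,
    nat_lit 37],[nat_lit 25],[nat_lit 34],[]],[[],[],[],[],[],[nat_lit 38],[],[],[nat_lit 39],[nat_lit 40],[],[],[],
    [],[nat_lit 41],[nat_lit 42]],[[],[nat_lit 43],[],[],[],[],[],[],[nat_lit 44],[nat_lit 45],[],[],[],[],
    [nat_lit 46],[nat_lit 47]],[[],[],[],[nat_lit 49],[nat_lit 58],[],[nat_lit 60,nat_lit 62],[nat_lit 61,nat_lit 63],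
    [nat_lit 64,nat_lit 68],[nat_lit 50,nat_lit 65],[nat_lit 51,nat_lit 52,nat_lit 54],[nat_lit 53,nat_lit 55],
    [nat_lit 48,nat_lit 56,nat_lit 59,nat_lit 71,nat_lit 73],[nat_lit 57,nat_lit 72],[nat_lit 66,nat_lit 69],
    [nat_lit 67,nat_lit 70]],[[nat_lit 74,nat_lit 80,nat_lit 91],[],[],[],[],[nat_lit 88],[nat_lit 84,nat_lit 86],
    [nat_lit 85,nat_lit 87],[nat_lit 75,nat_lit 92],[nat_lit 89,nat_lit 93],[nat_lit 76,nat_lit 78],[nat_lit 77,
    nat_lit 79],[nat_lit 82,nat_lit 96,nat_lit 98],[nat_lit 81,nat_lit 83,nat_lit 97,nat_lit 99],[nat_lit 94],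
    [nat_lit 90,nat_lit 95]],[[nat_lit 105,nat_lit 108],[nat_lit 109],[],[],[nat_lit 106,nat_lit 110],[nat_lit 107,
    nat_lit 111],[],[],[],[],[nat_lit 101,nat_lit 103],[nat_lit 100,nat_lit 102,nat_lit 104],[nat_lit 112],
    [nat_lit 113],[],[]],[[nat_lit 121],[],[],[],[nat_lit 122,nat_lit 124],[nat_lit 123,nat_lit 125],[],[],[],[],
    [nat_lit 114,nat_lit 115,nat_lit 117,nat_lit 119],[nat_lit 116,nat_lit 118,nat_lit 120],[nat_lit 126],
    [nat_lit 127],[],[]],[[],[nat_lit 147],[nat_lit 131],[nat_lit 132],[nat_lit 146,nat_lit 148],[nat_lit 138,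
    nat_lit 149],[],[],[nat_lit 139],[nat_lit 140,nat_lit 143],[nat_lit 137,nat_lit 150,nat_lit 151],[nat_lit 128,
    nat_lit 135,nat_lit 152],[nat_lit 129,nat_lit 133],[nat_lit 130,nat_lit 134,nat_lit 136],[nat_lit 141,
    nat_lit 144],[nat_lit 142,nat_lit 145]],[[nat_lit 163,nat_lit 169,nat_lit 172],[],[nat_lit 154],[nat_lit 155],
    [nat_lit 164,nat_lit 170],[nat_lit 171,nat_lit 173],[],[],[],[nat_lit 166],[nat_lit 160,nat_lit 174,nat_lit 176],
    [nat_lit 156,nat_lit 161,nat_lit 162,nat_lit 175,nat_lit 177],[nat_lit 153,nat_lit 157,nat_lit 158],[nat_lit 159],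
    [nat_lit 165,nat_lit 167],[nat_lit 168]],[[nat_lit 189],[nat_lit 190],[],[],[nat_lit 187,nat_lit 191],
    [nat_lit 188,nat_lit 192],[nat_lit 180,nat_lit 183,nat_lit 185],[nat_lit 181,nat_lit 184,nat_lit 186],
    [nat_lit 179,nat_lit 193,nat_lit 196,nat_lit 199,nat_lit 201],[nat_lit 178,nat_lit 182,nat_lit 200],[],[],[],[],
    [nat_lit 194,nat_lit 197,nat_lit 202],[nat_lit 195,nat_lit 198]],[[],[nat_lit 209,nat_lit 212,nat_lit 215,
    nat_lit 218],[],[],[nat_lit 210,nat_lit 213],[nat_lit 211,nat_lit 214,nat_lit 216],[nat_lit 203,nat_lit 204,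
    nat_lit 205,nat_lit 207],[nat_lit 206,nat_lit 208],[nat_lit 219,nat_lit 223,nat_lit 225],[nat_lit 220,nat_lit 224,
    nat_lit 226],[],[],[],[],[nat_lit 221,nat_lit 227],[nat_lit 217,nat_lit 222]],[[nat_lit 244],[nat_lit 229,
    nat_lit 232,nat_lit 242,nat_lit 247],[],[],[nat_lit 243,nat_lit 245,nat_lit 248,nat_lit 249],[nat_lit 246,
    nat_lit 250],[nat_lit 240],[nat_lit 241],[nat_lit 233],[nat_lit 228,nat_lit 234,nat_lit 237],[],[],[],[],
    [nat_lit 230,nat_lit 235,nat_lit 238],[nat_lit 231,nat_lit 236,nat_lit 239]],[[nat_lit 251,nat_lit 268,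
    nat_lit 271],[nat_lit 264],[],[],[nat_lit 265,nat_lit 269,nat_lit 272],[nat_lit 252,nat_lit 266,nat_lit 267,
    nat_lit 270,nat_lit 273],[nat_lit 262],[nat_lit 263],[nat_lit 255,nat_lit 256,nat_lit 258],[nat_lit 253,
    nat_lit 259],[],[],[],[],[nat_lit 257,nat_lit 260],[nat_lit 254,nat_lit 261]],[[],[nat_lit 290],[nat_lit 276],
    [nat_lit 277],[nat_lit 291,nat_lit 293],[nat_lit 292,nat_lit 294],[],[],[nat_lit 285],[nat_lit 286,nat_lit 288],
    [nat_lit 281,nat_lit 283],[nat_lit 282,nat_lit 284],[nat_lit 275,nat_lit 278],[nat_lit 274,nat_lit 279,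
    nat_lit 280],[],[nat_lit 287,nat_lit 289]],[[nat_lit 312],[nat_lit 309],[nat_lit 296],[nat_lit 297],[nat_lit 310],
    [nat_lit 311,nat_lit 313],[],[],[nat_lit 305,nat_lit 307],[nat_lit 306,nat_lit 308],[nat_lit 302,nat_lit 314],
    [nat_lit 303,nat_lit 304,nat_lit 315],[nat_lit 298,nat_lit 300],[nat_lit 295,nat_lit 299,nat_lit 301],[],[]]]
    [[[nat_lit 0x1000000000000000000000000000000000000000000000000000000000000000000000,
    nat_lit 0x1000000000000000000000000000000000000000000000000000000000000000000000,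
    nat_lit 0x1000000000000000000000000000000000000000000000000000000000000000000000,
    nat_lit 0x1000000000000000000000000000000000000000000000000000000000000000000000,
    nat_lit 0x2000000000000000000000000000000000000000000000000000000000000000000000,
    nat_lit 0x2000000000000000000000000000000000000000000000000000000000000000000000,
    nat_lit 0x2000000000000000000000000000000000000000000000000000000000000000000000,
    nat_lit 0x200000000000000000000000000000000000000000000000000000000000000000000000,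
    nat_lit 0x200000000000000000000000000000000000000000000000000000000000000000000000],
    [nat_lit 0x50000000000000000000000000000000000000000000000000000000000000000000000000,nat_lit 0,nat_lit 0,
    nat_lit 0,nat_lit 0x4800000000000000000000000000000000000000000000000000000000000000000000,nat_lit 0,
    nat_lit 0x140000000000000000000000000000000000000000000000000000000000000000000000,
    nat_lit 0x140000000000000000000000000000000000000000000000000000000000000000000000,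
    nat_lit 0x140000000000000000000000000000000000000000000000000000000000000000000000],
    [nat_lit 0x18400000000000000000000000000000000000000000000000000000000000000000000,nat_lit 0x800000000000,
    nat_lit 0x800000000000,nat_lit 0x800000000000,nat_lit 0x800000000000,nat_lit 0x80000000000,nat_lit 0x100000000000,
    nat_lit 0,nat_lit 0],[nat_lit 0x200000000000,nat_lit 0x200000000000,nat_lit 0x200000000000,nat_lit 0x200000000000,
    nat_lit 0x400000000000,nat_lit 0x400000000000,nat_lit 0x400000000000,nat_lit 0x400000000000,nat_lit 0],[nat_lit 0,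
    nat_lit 0,nat_lit 16,nat_lit 676,nat_lit 0x2000,nat_lit 0x8448,nat_lit 0x41003,nat_lit 0x5000000000000000000000,
    nat_lit 0x50000000000000000000],[nat_lit 0xa000000000000000000000,nat_lit 0x80104000000000000000000,
    nat_lit 0xa000a00000000000000000000,nat_lit 0x40000000000,nat_lit 0x40000000000,nat_lit 0x40000000000,nat_lit 0,
    nat_lit 0x8000000000,nat_lit 0x8000000000],[nat_lit 0x4000000000,nat_lit 0x4000000000,nat_lit 0,nat_lit 0,
    nat_lit 0,nat_lit 0,nat_lit 0,nat_lit 0,nat_lit 0x10000000000],[nat_lit 0x10000000000,nat_lit 0x20000000000,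
    nat_lit 0x20000000000,nat_lit 0x20000000000,nat_lit 0x20000000000,nat_lit 0,nat_lit 0,nat_lit 0,nat_lit 0],
    [nat_lit 0,nat_lit 0,nat_lit 0x14000000000000000000000000000000,nat_lit 0,nat_lit 0,nat_lit 0,
    nat_lit 0x28000000000000000000000000000000,nat_lit 0x28000000000000000000000000000000,
    nat_lit 0xac0000000000000000000000000000]],[[nat_lit 0xac0000000000000000000000000000,nat_lit 0,nat_lit 0,
    nat_lit 0x40000000000000000000000000000000,nat_lit 0x40000000000000000000000000000000,nat_lit 0,nat_lit 0,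
    nat_lit 0,nat_lit 0],[nat_lit 0,nat_lit 0x1500000000000000000000000000000,
    nat_lit 0x1500000000000000000000000000000,nat_lit 0x1500000000000000000000000000000,
    nat_lit 0x1500000000000000000000000000000,nat_lit 0x1500000000000000000000000000000,
    nat_lit 0x2000000000000000000000000000000,nat_lit 0x2000000000000000000000000000000,
    nat_lit 0x80000000000000000000000000000000],[nat_lit 0x80000000000000000000000000000000,
    nat_lit 0x480000000000000000,nat_lit 0x5000000000000000,nat_lit 0x5000000000000000,nat_lit 0x2000000000000,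
    nat_lit 0x2000000000000,nat_lit 0x2800901000000000000,nat_lit 0x2800901000000000000,
    nat_lit 0x2800901000000000000],[nat_lit 0x20004000000000000,nat_lit 0x20004000000000000,
    nat_lit 0x20004000000000000,nat_lit 0x20004000000000000,nat_lit 0x240000000000000000,nat_lit 0xa0000000000000,
    nat_lit 0x400000000000000000000000000000000000000,nat_lit 0x1000000000000000000000000000000000000000000,
    nat_lit 0x1000000000000000000000000000000000000000000],[nat_lit 0,nat_lit 0,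
    nat_lit 0x800000000000000000000000000000000000000,nat_lit 0x800000000000000000000000000000000000000,
    nat_lit 0x6200000000000000000000000000000000000000,nat_lit 0x6200000000000000000000000000000000000000,
    nat_lit 0x6200000000000000000000000000000000000000,nat_lit 0x400000000000000000000000000000000000000000,
    nat_lit 0x400000000000000000000000000000000000000000],[nat_lit 0xa00000000000000000000000000000000000000000,
    nat_lit 0x280061000000000000000000000000000000000000000,nat_lit 0,nat_lit 0,nat_lit 0,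
    nat_lit 0x4400000000000000000000000000,nat_lit 0x2000000000000000000000000000,nat_lit 0,nat_lit 0],[nat_lit 0,
    nat_lit 0,nat_lit 0xa0000000000000000000000000,nat_lit 0x10000000000000000000000000000,
    nat_lit 0x10000000000000000000000000000,nat_lit 0x10000000000000000000000000000,
    nat_lit 0x10000000000000000000000000000,nat_lit 0x10000000000000000000000000000,nat_lit 0],[nat_lit 0,nat_lit 0,
    nat_lit 0,nat_lit 0x150000000000000000000000000,nat_lit 0x150000000000000000000000000,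
    nat_lit 0x150000000000000000000000000,nat_lit 0x1200000000000000000000000000,
    nat_lit 0x20000000000000000000000000000,nat_lit 0x20000000000000000000000000000],[nat_lit 0,
    nat_lit 0x240000000000000000000000000000000000000000000000000000,
    nat_lit 0x4920000000000000000000000000000000000000000000000000000,
    nat_lit 0xb800000000000000000000000000000000000000000000000000,
    nat_lit 0xb800000000000000000000000000000000000000000000000000,nat_lit 0,nat_lit 0,nat_lit 0,nat_lit 0]],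
    [[nat_lit 0x14000000000000000000000000000000000000000000000000000,nat_lit 0,nat_lit 0,nat_lit 0,
    nat_lit 0x510000000000000000000000000000000000000000000000000000000,
    nat_lit 0x510000000000000000000000000000000000000000000000000000000,
    nat_lit 0x510000000000000000000000000000000000000000000000000000000,
    nat_lit 0x820000000000000000000000000000000000000000000000000000000,
    nat_lit 0x820000000000000000000000000000000000000000000000000000000],
    [nat_lit 0x820000000000000000000000000000000000000000000000000000000,nat_lit 0,nat_lit 0,nat_lit 0,nat_lit 0,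
    nat_lit 0,nat_lit 0,nat_lit 0x800000000000000000000000000000000,nat_lit 0x800000000000000000000000000000000],
    [nat_lit 0x800000000000000000000000000000000,nat_lit 0x800000000000000000000000000000000,nat_lit 0,nat_lit 0,
    nat_lit 0,nat_lit 0x1000000000000000000000000000000000,nat_lit 0x1000000000000000000000000000000000,
    nat_lit 0x80000000000000000000000000000000000,nat_lit 0x80000000000000000000000000000000000],
    [nat_lit 0x20040000000000000000000000000000000000,nat_lit 0x20040000000000000000000000000000000000,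
    nat_lit 0x20040000000000000000000000000000000000,nat_lit 0x20040000000000000000000000000000000000,
    nat_lit 0xc0020000000000000000000000000000000000,nat_lit 0xc0020000000000000000000000000000000000,
    nat_lit 0xc0020000000000000000000000000000000000,nat_lit 0,nat_lit 0],[nat_lit 0,nat_lit 0,nat_lit 0,
    nat_lit 0x14400000000000000000000000000000000,nat_lit 0x14400000000000000000000000000000000,nat_lit 0,
    nat_lit 0x204000000000000000000000000000000000000000000000000000000000000000,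
    nat_lit 0x400000000000000000000000000000000000000000000000000000000000000000,
    nat_lit 0x400000000000000000000000000000000000000000000000000000000000000000],[nat_lit 0,nat_lit 0,
    nat_lit 0x58000000000000000000000000000000000000000000000000000000000000000,
    nat_lit 0x58000000000000000000000000000000000000000000000000000000000000000,
    nat_lit 0x58000000000000000000000000000000000000000000000000000000000000000,
    nat_lit 0x24c001000000000000000000000000000000000000000000000000000000000000000,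
    nat_lit 0x24c001000000000000000000000000000000000000000000000000000000000000000,
    nat_lit 0x24c001000000000000000000000000000000000000000000000000000000000000000,nat_lit 0],[nat_lit 0,nat_lit 0,
    nat_lit 0x800000000000000000000000000000000000000000000000000000000000000000,
    nat_lit 0x800000000000000000000000000000000000000000000000000000000000000000,
    nat_lit 0x800000000000000000000000000000000000000000000000000000000000000000,
    nat_lit 0x800000000000000000000000000000000000000000000000000000000000000000,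
    nat_lit 0x800000000000000000000000000000000000000000000000000000000000000000,
    nat_lit 0x90000800000000000000000000000000000000000000000000000000000000000000,
    nat_lit 0x90000800000000000000000000000000000000000000000000000000000000000000],[nat_lit 0,nat_lit 0,nat_lit 0,
    nat_lit 0,nat_lit 0x48000000000000000000000000000000000000000000000000,
    nat_lit 0x48000000000000000000000000000000000000000000000000,
    nat_lit 0x48000000000000000000000000000000000000000000000000,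
    nat_lit 0x29000000000000000000000000000000000000000000000,
    nat_lit 0x29000000000000000000000000000000000000000000000],
    [nat_lit 0x29000000000000000000000000000000000000000000000,
    nat_lit 0x29000000000000000000000000000000000000000000000,
    nat_lit 0x29000000000000000000000000000000000000000000000,nat_lit 0,nat_lit 0,nat_lit 0,
    nat_lit 0x292000800000000000000000000000000000000000000000000,
    nat_lit 0x1100000000000000000000000000000000000000000000000,nat_lit 0]],[[nat_lit 0,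
    nat_lit 0x52000000000000000000000000000000000000000000000,
    nat_lit 0x52000000000000000000000000000000000000000000000,
    nat_lit 0x52000000000000000000000000000000000000000000000,
    nat_lit 0x200000000000000000000000000000000000000000000000,
    nat_lit 0x200000000000000000000000000000000000000000000000,nat_lit 0,nat_lit 0,
    nat_lit 0x100000000000000000000000000000000000000000000000000000000000000000000000000],
    [nat_lit 0x100000000000000000000000000000000000000000000000000000000000000000000000000,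
    nat_lit 0x100000000000000000000000000000000000000000000000000000000000000000000000000,
    nat_lit 0x100000000000000000000000000000000000000000000000000000000000000000000000000,nat_lit 0,nat_lit 0,
    nat_lit 0,nat_lit 0x200000000000000000000000000000000000000000000000000000000000000000000000000,
    nat_lit 0x200000000000000000000000000000000000000000000000000000000000000000000000000,
    nat_lit 0x200000000000000000000000000000000000000000000000000000000000000000000000000],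
    [nat_lit 0x200000000000000000000000000000000000000000000000000000000000000000000000000,
    nat_lit 0xa0000000000000000000000000000000000000000000000000000000000000000000000000000,
    nat_lit 0x2800000000000000000000000000000000000000000000000000000000000000000000000000000,
    nat_lit 0x4004000000000000000000000000000000000000000000000000000000000000000000000000000,
    nat_lit 0x4004000000000000000000000000000000000000000000000000000000000000000000000000000,
    nat_lit 0x4004000000000000000000000000000000000000000000000000000000000000000000000000000,nat_lit 0,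
    nat_lit 0x1000000000000000000000000000000000000000000000000000000000000000000000000000000,
    nat_lit 0x1000000000000000000000000000000000000000000000000000000000000000000000000000000],
    [nat_lit 0x1000000000000000000000000000000000000000000000000000000000000000000000000000000,
    nat_lit 0x2880000000000000000000000000000000000000000000000000000000000000000000000000,
    nat_lit 0x2880000000000000000000000000000000000000000000000000000000000000000000000000,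
    nat_lit 0x2880000000000000000000000000000000000000000000000000000000000000000000000000,nat_lit 0,
    nat_lit 0x908000000000000000000000000000000000000000000000000000000000,
    nat_lit 0x328000000000000000000000000000000000000000000000000000000000000,
    nat_lit 0x84012000000000000000000000000000000000000000000000000000000000,
    nat_lit 0x1000000000000000000000000000000000000000000000000000000000000],
    [nat_lit 0x1000000000000000000000000000000000000000000000000000000000000,nat_lit 0,nat_lit 0,nat_lit 0,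
    nat_lit 0x2000000000000000000000000000000000000000000000000000000000000,
    nat_lit 0x2000000000000000000000000000000000000000000000000000000000000,nat_lit 0,nat_lit 0,nat_lit 0],
    [nat_lit 0x241000000000000000000000000000000000000000000000000000000000,
    nat_lit 0x241000000000000000000000000000000000000000000000000000000000,
    nat_lit 0x484000000000000000000000000000000000000000000000000000000000,
    nat_lit 0x484000000000000000000000000000000000000000000000000000000000,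
    nat_lit 0x484000000000000000000000000000000000000000000000000000000000,nat_lit 0,nat_lit 0,nat_lit 0,
    nat_lit 0x40c00000],[nat_lit 0x1a0200000,nat_lit 0x8000000,nat_lit 0x8000000,nat_lit 0,nat_lit 0,nat_lit 0,
    nat_lit 0,nat_lit 0x14000000,nat_lit 0x3000080000],[nat_lit 0x3000080000,nat_lit 0,nat_lit 0,nat_lit 0x400000000,
    nat_lit 0x400000000,nat_lit 0x400000000,nat_lit 0x1000000,nat_lit 0x1000000,nat_lit 0],[nat_lit 0]]]
    [[[[nat_lit 0x1000000000000000000000000000000000000000000000000000000000000000000000,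
    nat_lit 0x1000000000000000000000000000000000000000000000000000000000000000000000,nat_lit 0,
    nat_lit 0x1000000000000000000000000000000000000000000000000000000000000000000000,
    nat_lit 0x2000000000000000000000000000000000000000000000000000000000000000000000,
    nat_lit 0x2000000000000000000000000000000000000000000000000000000000000000000000,
    nat_lit 0x2000000000000000000000000000000000000000000000000000000000000000000000,
    nat_lit 0x200000000000000000000000000000000000000000000000000000000000000000000000,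
    nat_lit 0x200000000000000000000000000000000000000000000000000000000000000000000000],
    [nat_lit 0x40000000000000000000000000000000000000000000000000000000000000000000000000,nat_lit 0,nat_lit 0,
    nat_lit 0,nat_lit 0x4800000000000000000000000000000000000000000000000000000000000000000000,nat_lit 0,
    nat_lit 0x100000000000000000000000000000000000000000000000000000000000000000000000,
    nat_lit 0x100000000000000000000000000000000000000000000000000000000000000000000000,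
    nat_lit 0x100000000000000000000000000000000000000000000000000000000000000000000000],
    [nat_lit 0x400000000000000000000000000000000000000000000000000000000000000000000,nat_lit 0x800000000000,nat_lit 0,
    nat_lit 0x800000000000,nat_lit 0x800000000000,nat_lit 0x80000000000,nat_lit 0x100000000000,nat_lit 0,nat_lit 0],
    [nat_lit 0x200000000000,nat_lit 0x200000000000,nat_lit 0,nat_lit 0x200000000000,nat_lit 0x400000000000,
    nat_lit 0x400000000000,nat_lit 0,nat_lit 0x400000000000,nat_lit 0],[nat_lit 0,nat_lit 0,nat_lit 16,nat_lit 672,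
    nat_lit 0x2000,nat_lit 0x8048,nat_lit 0x40003,nat_lit 0x5000000000000000000000,nat_lit 0x50000000000000000000],
    [nat_lit 0xa000000000000000000000,nat_lit 0x80104000000000000000000,nat_lit 0x8000200000000000000000000,
    nat_lit 0x40000000000,nat_lit 0x40000000000,nat_lit 0x40000000000,nat_lit 0,nat_lit 0x8000000000,
    nat_lit 0x8000000000],[nat_lit 0x4000000000,nat_lit 0x4000000000,nat_lit 0,nat_lit 0,nat_lit 0,nat_lit 0,
    nat_lit 0,nat_lit 0,nat_lit 0x10000000000],[nat_lit 0x10000000000,nat_lit 0,nat_lit 0x20000000000,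
    nat_lit 0x20000000000,nat_lit 0,nat_lit 0,nat_lit 0,nat_lit 0,nat_lit 0],[nat_lit 0,nat_lit 0,
    nat_lit 0x10000000000000000000000000000000,nat_lit 0,nat_lit 0,nat_lit 0,nat_lit 0,
    nat_lit 0x8000000000000000000000000000000,nat_lit 0x840000000000000000000000000000]],
    [[nat_lit 0x840000000000000000000000000000,nat_lit 0,nat_lit 0,nat_lit 0x40000000000000000000000000000000,
    nat_lit 0x40000000000000000000000000000000,nat_lit 0,nat_lit 0,nat_lit 0,nat_lit 0],[nat_lit 0,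
    nat_lit 0x500000000000000000000000000000,nat_lit 0,nat_lit 0,nat_lit 0,nat_lit 0,
    nat_lit 0x2000000000000000000000000000000,nat_lit 0,nat_lit 0x80000000000000000000000000000000],
    [nat_lit 0x80000000000000000000000000000000,nat_lit 0x400000000000000000,nat_lit 0,nat_lit 0x1000000000000000,
    nat_lit 0x2000000000000,nat_lit 0,nat_lit 0x1000000000000,nat_lit 0,nat_lit 0x1000000000000],[nat_lit 0,
    nat_lit 0x20004000000000000,nat_lit 0x20004000000000000,nat_lit 0,nat_lit 0x240000000000000000,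
    nat_lit 0xa0000000000000,nat_lit 0x400000000000000000000000000000000000000,nat_lit 0,nat_lit 0],[nat_lit 0,
    nat_lit 0,nat_lit 0x800000000000000000000000000000000000000,nat_lit 0,
    nat_lit 0x2000000000000000000000000000000000000000,nat_lit 0,nat_lit 0x2000000000000000000000000000000000000000,
    nat_lit 0x400000000000000000000000000000000000000000,nat_lit 0],
    [nat_lit 0x800000000000000000000000000000000000000000,nat_lit 0x41000000000000000000000000000000000000000,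
    nat_lit 0,nat_lit 0,nat_lit 0,nat_lit 0x4000000000000000000000000000,nat_lit 0x2000000000000000000000000000,
    nat_lit 0,nat_lit 0],[nat_lit 0,nat_lit 0,nat_lit 0x80000000000000000000000000,
    nat_lit 0x10000000000000000000000000000,nat_lit 0x10000000000000000000000000000,nat_lit 0,nat_lit 0,nat_lit 0,
    nat_lit 0],[nat_lit 0,nat_lit 0,nat_lit 0,nat_lit 0,nat_lit 0,nat_lit 0x50000000000000000000000000,nat_lit 0,
    nat_lit 0x20000000000000000000000000000,nat_lit 0],[nat_lit 0,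
    nat_lit 0x40000000000000000000000000000000000000000000000000000,
    nat_lit 0x4020000000000000000000000000000000000000000000000000000,
    nat_lit 0x3800000000000000000000000000000000000000000000000000,
    nat_lit 0x3800000000000000000000000000000000000000000000000000,nat_lit 0,nat_lit 0,nat_lit 0,nat_lit 0]],
    [[nat_lit 0x14000000000000000000000000000000000000000000000000000,nat_lit 0,nat_lit 0,nat_lit 0,
    nat_lit 0x410000000000000000000000000000000000000000000000000000000,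
    nat_lit 0x510000000000000000000000000000000000000000000000000000000,nat_lit 0,nat_lit 0,nat_lit 0],[nat_lit 0,
    nat_lit 0,nat_lit 0,nat_lit 0,nat_lit 0,nat_lit 0,nat_lit 0,nat_lit 0,
    nat_lit 0x800000000000000000000000000000000],[nat_lit 0,nat_lit 0x800000000000000000000000000000000,nat_lit 0,
    nat_lit 0,nat_lit 0,nat_lit 0,nat_lit 0x1000000000000000000000000000000000,
    nat_lit 0x80000000000000000000000000000000000,nat_lit 0x80000000000000000000000000000000000],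
    [nat_lit 0x20040000000000000000000000000000000000,nat_lit 0x20040000000000000000000000000000000000,nat_lit 0,
    nat_lit 0x20040000000000000000000000000000000000,nat_lit 0x80020000000000000000000000000000000000,
    nat_lit 0x80020000000000000000000000000000000000,nat_lit 0x80000000000000000000000000000000000000,nat_lit 0,
    nat_lit 0],[nat_lit 0,nat_lit 0,nat_lit 0,nat_lit 0,nat_lit 0,nat_lit 0,
    nat_lit 0x204000000000000000000000000000000000000000000000000000000000000000,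
    nat_lit 0x400000000000000000000000000000000000000000000000000000000000000000,
    nat_lit 0x400000000000000000000000000000000000000000000000000000000000000000],[nat_lit 0,nat_lit 0,
    nat_lit 0x40000000000000000000000000000000000000000000000000000000000000000,nat_lit 0,
    nat_lit 0x40000000000000000000000000000000000000000000000000000000000000000,
    nat_lit 0x1000000000000000000000000000000000000000000000000000000000000000,nat_lit 0,
    nat_lit 0x1000000000000000000000000000000000000000000000000000000000000000,nat_lit 0],[nat_lit 0,nat_lit 0,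
    nat_lit 0x800000000000000000000000000000000000000000000000000000000000000000,nat_lit 0,
    nat_lit 0x800000000000000000000000000000000000000000000000000000000000000000,nat_lit 0,nat_lit 0,nat_lit 0,
    nat_lit 0x800000000000000000000000000000000000000000000000000000000000000],[nat_lit 0,nat_lit 0,nat_lit 0,
    nat_lit 0,nat_lit 0x8000000000000000000000000000000000000000000000000,nat_lit 0,nat_lit 0,
    nat_lit 0x9000000000000000000000000000000000000000000000,nat_lit 0],[nat_lit 0,nat_lit 0,nat_lit 0,nat_lit 0,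
    nat_lit 0,nat_lit 0,nat_lit 0x2000800000000000000000000000000000000000000000000,
    nat_lit 0x1100000000000000000000000000000000000000000000000,nat_lit 0]],[[nat_lit 0,nat_lit 0,
    nat_lit 0x12000000000000000000000000000000000000000000000,nat_lit 0,
    nat_lit 0x200000000000000000000000000000000000000000000000,
    nat_lit 0x200000000000000000000000000000000000000000000000,nat_lit 0,nat_lit 0,
    nat_lit 0x100000000000000000000000000000000000000000000000000000000000000000000000000],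
    [nat_lit 0x100000000000000000000000000000000000000000000000000000000000000000000000000,nat_lit 0,
    nat_lit 0x100000000000000000000000000000000000000000000000000000000000000000000000000,nat_lit 0,nat_lit 0,
    nat_lit 0,nat_lit 0x200000000000000000000000000000000000000000000000000000000000000000000000000,nat_lit 0,
    nat_lit 0x200000000000000000000000000000000000000000000000000000000000000000000000000],
    [nat_lit 0x200000000000000000000000000000000000000000000000000000000000000000000000000,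
    nat_lit 0x20000000000000000000000000000000000000000000000000000000000000000000000000000,
    nat_lit 0x2000000000000000000000000000000000000000000000000000000000000000000000000000000,nat_lit 0,nat_lit 0,
    nat_lit 0,nat_lit 0,nat_lit 0,
    nat_lit 0x1000000000000000000000000000000000000000000000000000000000000000000000000000000],[nat_lit 0,nat_lit 0,
    nat_lit 0x80000000000000000000000000000000000000000000000000000000000000000000000000,nat_lit 0,nat_lit 0,
    nat_lit 0x800000000000000000000000000000000000000000000000000000000000,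
    nat_lit 0x320000000000000000000000000000000000000000000000000000000000000,
    nat_lit 0x80012000000000000000000000000000000000000000000000000000000000,
    nat_lit 0x1000000000000000000000000000000000000000000000000000000000000],[nat_lit 0,nat_lit 0,nat_lit 0,nat_lit 0,
    nat_lit 0,nat_lit 0x2000000000000000000000000000000000000000000000000000000000000,nat_lit 0,nat_lit 0,nat_lit 0],
    [nat_lit 0,nat_lit 0,nat_lit 0x400000000000000000000000000000000000000000000000000000000000,nat_lit 0,nat_lit 0,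
    nat_lit 0,nat_lit 0,nat_lit 0,nat_lit 0x40c00000],[nat_lit 0x180200000,nat_lit 0x8000000,nat_lit 0,nat_lit 0,
    nat_lit 0,nat_lit 0,nat_lit 0,nat_lit 0x14000000,nat_lit 0x3000080000],[nat_lit 0,nat_lit 0,nat_lit 0,
    nat_lit 0x400000000,nat_lit 0,nat_lit 0,nat_lit 0x1000000,nat_lit 0x1000000,nat_lit 0],[nat_lit 0]]],
    [[[nat_lit 0x1000000000000000000000000000000000000000000000000000000000000000000000,
    nat_lit 0x1000000000000000000000000000000000000000000000000000000000000000000000,nat_lit 0,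
    nat_lit 0x1000000000000000000000000000000000000000000000000000000000000000000000,nat_lit 0,
    nat_lit 0x2000000000000000000000000000000000000000000000000000000000000000000000,nat_lit 0,nat_lit 0,nat_lit 0],
    [nat_lit 0,nat_lit 0,nat_lit 0,nat_lit 0,
    nat_lit 0x4800000000000000000000000000000000000000000000000000000000000000000000,nat_lit 0,
    nat_lit 0x100000000000000000000000000000000000000000000000000000000000000000000000,nat_lit 0,nat_lit 0],
    [nat_lit 0,nat_lit 0x800000000000,nat_lit 0,nat_lit 0x800000000000,nat_lit 0x800000000000,nat_lit 0x80000000000,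
    nat_lit 0,nat_lit 0,nat_lit 0],[nat_lit 0x200000000000,nat_lit 0x200000000000,nat_lit 0,nat_lit 0,
    nat_lit 0x400000000000,nat_lit 0,nat_lit 0,nat_lit 0x400000000000,nat_lit 0],[nat_lit 0,nat_lit 0,nat_lit 16,
    nat_lit 640,nat_lit 0,nat_lit 0x8048,nat_lit 0x40001,nat_lit 0,nat_lit 0],[nat_lit 0x2000000000000000000000,
    nat_lit 0x80104000000000000000000,nat_lit 0x8000200000000000000000000,nat_lit 0x40000000000,nat_lit 0x40000000000,
    nat_lit 0x40000000000,nat_lit 0,nat_lit 0,nat_lit 0x8000000000],[nat_lit 0,nat_lit 0,nat_lit 0,nat_lit 0,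
    nat_lit 0,nat_lit 0,nat_lit 0,nat_lit 0,nat_lit 0],[nat_lit 0,nat_lit 0,nat_lit 0x20000000000,
    nat_lit 0x20000000000,nat_lit 0,nat_lit 0,nat_lit 0,nat_lit 0,nat_lit 0],[nat_lit 0,nat_lit 0,
    nat_lit 0x10000000000000000000000000000000,nat_lit 0,nat_lit 0,nat_lit 0,nat_lit 0,nat_lit 0,
    nat_lit 0x840000000000000000000000000000]],[[nat_lit 0,nat_lit 0,nat_lit 0,
    nat_lit 0x40000000000000000000000000000000,nat_lit 0x40000000000000000000000000000000,nat_lit 0,nat_lit 0,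
    nat_lit 0,nat_lit 0],[nat_lit 0,nat_lit 0,nat_lit 0,nat_lit 0,nat_lit 0,nat_lit 0,nat_lit 0,nat_lit 0,nat_lit 0],
    [nat_lit 0,nat_lit 0,nat_lit 0,nat_lit 0,nat_lit 0x2000000000000,nat_lit 0,nat_lit 0,nat_lit 0,nat_lit 0],
    [nat_lit 0,nat_lit 0x4000000000000,nat_lit 0x4000000000000,nat_lit 0,nat_lit 0,nat_lit 0xa0000000000000,nat_lit 0,
    nat_lit 0,nat_lit 0],[nat_lit 0,nat_lit 0,nat_lit 0x800000000000000000000000000000000000000,nat_lit 0,
    nat_lit 0x2000000000000000000000000000000000000000,nat_lit 0,nat_lit 0x2000000000000000000000000000000000000000,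
    nat_lit 0x400000000000000000000000000000000000000000,nat_lit 0],
    [nat_lit 0x800000000000000000000000000000000000000000,nat_lit 0,nat_lit 0,nat_lit 0,nat_lit 0,
    nat_lit 0x4000000000000000000000000000,nat_lit 0,nat_lit 0,nat_lit 0],[nat_lit 0,nat_lit 0,
    nat_lit 0x80000000000000000000000000,nat_lit 0,nat_lit 0,nat_lit 0,nat_lit 0,nat_lit 0,nat_lit 0],[nat_lit 0,
    nat_lit 0,nat_lit 0,nat_lit 0,nat_lit 0,nat_lit 0x50000000000000000000000000,nat_lit 0,
    nat_lit 0x20000000000000000000000000000,nat_lit 0],[nat_lit 0,nat_lit 0,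
    nat_lit 0x4000000000000000000000000000000000000000000000000000000,
    nat_lit 0x2000000000000000000000000000000000000000000000000000,
    nat_lit 0x2000000000000000000000000000000000000000000000000000,nat_lit 0,nat_lit 0,nat_lit 0,nat_lit 0]],
    [[nat_lit 0,nat_lit 0,nat_lit 0,nat_lit 0,nat_lit 0,
    nat_lit 0x100000000000000000000000000000000000000000000000000000000,nat_lit 0,nat_lit 0,nat_lit 0],[nat_lit 0,
    nat_lit 0,nat_lit 0,nat_lit 0,nat_lit 0,nat_lit 0,nat_lit 0,nat_lit 0,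
    nat_lit 0x800000000000000000000000000000000],[nat_lit 0,nat_lit 0,nat_lit 0,nat_lit 0,nat_lit 0,nat_lit 0,
    nat_lit 0,nat_lit 0,nat_lit 0],[nat_lit 0,nat_lit 0,nat_lit 0,nat_lit 0x20040000000000000000000000000000000000,
    nat_lit 0,nat_lit 0,nat_lit 0x80000000000000000000000000000000000000,nat_lit 0,nat_lit 0],[nat_lit 0,nat_lit 0,
    nat_lit 0,nat_lit 0,nat_lit 0,nat_lit 0,nat_lit 0,
    nat_lit 0x400000000000000000000000000000000000000000000000000000000000000000,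
    nat_lit 0x400000000000000000000000000000000000000000000000000000000000000000],[nat_lit 0,nat_lit 0,nat_lit 0,
    nat_lit 0,nat_lit 0,nat_lit 0,nat_lit 0,nat_lit 0,nat_lit 0],[nat_lit 0,nat_lit 0,
    nat_lit 0x800000000000000000000000000000000000000000000000000000000000000000,nat_lit 0,
    nat_lit 0x800000000000000000000000000000000000000000000000000000000000000000,nat_lit 0,nat_lit 0,nat_lit 0,
    nat_lit 0x800000000000000000000000000000000000000000000000000000000000000],[nat_lit 0,nat_lit 0,nat_lit 0,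
    nat_lit 0,nat_lit 0x8000000000000000000000000000000000000000000000000,nat_lit 0,nat_lit 0,nat_lit 0,nat_lit 0],
    [nat_lit 0,nat_lit 0,nat_lit 0,nat_lit 0,nat_lit 0,nat_lit 0,
    nat_lit 0x2000800000000000000000000000000000000000000000000,
    nat_lit 0x1100000000000000000000000000000000000000000000000,nat_lit 0]],[[nat_lit 0,nat_lit 0,nat_lit 0,nat_lit 0,
    nat_lit 0,nat_lit 0,nat_lit 0,nat_lit 0,
    nat_lit 0x100000000000000000000000000000000000000000000000000000000000000000000000000],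
    [nat_lit 0x100000000000000000000000000000000000000000000000000000000000000000000000000,nat_lit 0,nat_lit 0,
    nat_lit 0,nat_lit 0,nat_lit 0,
    nat_lit 0x200000000000000000000000000000000000000000000000000000000000000000000000000,nat_lit 0,nat_lit 0],
    [nat_lit 0x200000000000000000000000000000000000000000000000000000000000000000000000000,
    nat_lit 0x20000000000000000000000000000000000000000000000000000000000000000000000000000,
    nat_lit 0x2000000000000000000000000000000000000000000000000000000000000000000000000000000,nat_lit 0,nat_lit 0,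
    nat_lit 0,nat_lit 0,nat_lit 0,nat_lit 0],[nat_lit 0,nat_lit 0,nat_lit 0,nat_lit 0,nat_lit 0,nat_lit 0,
    nat_lit 0x120000000000000000000000000000000000000000000000000000000000000,
    nat_lit 0x12000000000000000000000000000000000000000000000000000000000,
    nat_lit 0x1000000000000000000000000000000000000000000000000000000000000],[nat_lit 0,nat_lit 0,nat_lit 0,nat_lit 0,
    nat_lit 0,nat_lit 0x2000000000000000000000000000000000000000000000000000000000000,nat_lit 0,nat_lit 0,nat_lit 0],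
    [nat_lit 0,nat_lit 0,nat_lit 0,nat_lit 0,nat_lit 0,nat_lit 0,nat_lit 0,nat_lit 0,nat_lit 0x40000000],
    [nat_lit 0x180200000,nat_lit 0,nat_lit 0,nat_lit 0,nat_lit 0,nat_lit 0,nat_lit 0,nat_lit 0,nat_lit 0x80000],
    [nat_lit 0,nat_lit 0,nat_lit 0,nat_lit 0,nat_lit 0,nat_lit 0,nat_lit 0x1000000,nat_lit 0x1000000,nat_lit 0],
    [nat_lit 0]]]]
    (nat_lit 2) (nat_lit 1) (nat_lit 81)
    [[nat_lit 2,nat_lit 3,nat_lit 4,nat_lit 0x100003,nat_lit 0x100102,nat_lit 0x100002,nat_lit 0x1000002,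
    nat_lit 0x1100002,nat_lit 0x10000002,nat_lit 17,nat_lit 0x1011,nat_lit 0x100011,nat_lit 257,nat_lit 0x100101,
    nat_lit 0x1101,nat_lit 0x1000101,nat_lit 0x10000101,nat_lit 0x1001,nat_lit 0x10001,nat_lit 0x110001,
    nat_lit 0x100001,nat_lit 0x1100001,nat_lit 0x1000001,nat_lit 0x1110001,nat_lit 0x2000001,nat_lit 0x10000001,
    nat_lit 0x10100001],[nat_lit 32,nat_lit 0x1020,nat_lit 272,nat_lit 0x100110,nat_lit 0x1110,nat_lit 0x10000110,
    nat_lit 0x1010,nat_lit 0x2010,nat_lit 0x11010,nat_lit 0x101010,nat_lit 0x10001010,nat_lit 0x100010,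
    nat_lit 0x1000010],[nat_lit 512,nat_lit 0x100200,nat_lit 0x1000200,nat_lit 0x10000200,nat_lit 0x1100,
    nat_lit 0x2100,nat_lit 0x10001100,nat_lit 0x10100,nat_lit 0x110100,nat_lit 0x10010100,nat_lit 0x100100,
    nat_lit 0x200100,nat_lit 0x1100100,nat_lit 0x10100100,nat_lit 0x1000100,nat_lit 0x11010100,nat_lit 0x2000100,
    nat_lit 0x10000100,nat_lit 0x20000100],[nat_lit 0x2000,nat_lit 0x3000,nat_lit 0x10002000,nat_lit 0x11000,
    nat_lit 0x111000,nat_lit 0x10011000,nat_lit 0x101000,nat_lit 0x10001000],[nat_lit 0x20000,nat_lit 0x10020000,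
    nat_lit 0x1020000,nat_lit 0x110000,nat_lit 0x210000,nat_lit 0x1110000,nat_lit 0x1010000,nat_lit 0x2010000,
    nat_lit 0x10010000,nat_lit 0x11010000,nat_lit 0x20010000],[nat_lit 0x200000,nat_lit 0x1200000,nat_lit 0x1100000,
    nat_lit 0x2100000,nat_lit 0x11100000,nat_lit 0x10100000],[nat_lit 0x2000000,nat_lit 0x11000000],
    [nat_lit 0x20000000]]
    [.c (nat_lit 1) (nat_lit 2),.c (nat_lit 0) (nat_lit 0x1800030005),.c (nat_lit 2) (nat_lit 0x420003),
    .c (nat_lit 0) (nat_lit 0x80020003),.c (nat_lit 0) (nat_lit 0x104030005),.c (nat_lit 0) (nat_lit 0x80020003),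
    .c (nat_lit 0) (nat_lit 0x1946521485),.r (nat_lit 0xdbb) (nat_lit 1) [nat_lit 0xca2010a2,nat_lit 0x4000001],
    .c (nat_lit 2) (nat_lit 0x410003),.c (nat_lit 0) (nat_lit 0x210003),.c (nat_lit 0) (nat_lit 0x1800510004),
    .r (nat_lit 0xdbb) (nat_lit 1) [nat_lit 0x220082200a2,nat_lit 0x4000001],.c (nat_lit 1) (nat_lit 0x6010004),
    .c (nat_lit 0) (nat_lit 0x104030005),.r (nat_lit 0xdbb) (nat_lit 1) [nat_lit 0xc0320082,nat_lit 0x4000001],
    .c (nat_lit 0) (nat_lit 0x1940511485),.c (nat_lit 2) (nat_lit 0x4810005),.c (nat_lit 2) (nat_lit 0x1000810005),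
    .c (nat_lit 0) (nat_lit 0x1800011005),.c (nat_lit 0) (nat_lit 0x80010803),.c (nat_lit 0) (nat_lit 0x80020003),
    .c (nat_lit 4) (nat_lit 0x1006501485),.c (nat_lit 0) (nat_lit 0x1946521485),.c (nat_lit 2) (nat_lit 0x1004c000a4),
    .r (nat_lit 0xdbb) (nat_lit 1) [nat_lit 0x3495232a0a2,nat_lit 0x4000001],.c (nat_lit 0) (nat_lit 0x1800010005),
    .c (nat_lit 0) (nat_lit 0x80010003),.c (nat_lit 2) (nat_lit 2),.c (nat_lit 0) (nat_lit 0x1800700004),
    .c (nat_lit 0) (nat_lit 0x4200005),.r (nat_lit 0xdbb) (nat_lit 1) [nat_lit 0x220880200a2,nat_lit 0x4000001],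
    .c (nat_lit 0) (nat_lit 0x1806900004),.c (nat_lit 0) (nat_lit 0x6700004),.c (nat_lit 0) (nat_lit 0x1800700004),
    .c (nat_lit 0) (nat_lit 0x1800700002),.c (nat_lit 0) (nat_lit 0x1800b01404),.c (nat_lit 0) (nat_lit 0x18c0300002),
    .c (nat_lit 0) (nat_lit 0x1800b00004),.c (nat_lit 4) (nat_lit 0x1080200003),
    .r (nat_lit 0xdbb) (nat_lit 1) [nat_lit 0x28c03010a2,nat_lit 0x4000001],.c (nat_lit 3) (nat_lit 2),
    .c (nat_lit 0) (nat_lit 0x88000003),.c (nat_lit 0) (nat_lit 0x1948519485),.c (nat_lit 2) (nat_lit 0x4400003),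
    .c (nat_lit 2) (nat_lit 0x1004800005),.r (nat_lit 0xdb2) (nat_lit 10) [nat_lit 0x2000a3290a2,nat_lit 0x88200002],
    .c (nat_lit 4) (nat_lit 0x1006000004),.c (nat_lit 0) (nat_lit 0x1804001005),.c (nat_lit 0) (nat_lit 0x84000803),
    .r (nat_lit 0xdbb) (nat_lit 1) [nat_lit 0x200c0000082,nat_lit 0x4000001],.c (nat_lit 0) (nat_lit 0x88000003),
    .r (nat_lit 0xdb2) (nat_lit 10) [nat_lit 0x3494a329082,nat_lit 0x88200002],.c (nat_lit 4) (nat_lit 0x1000519485),
    .c (nat_lit 0) (nat_lit 0x84000003),.c (nat_lit 0) (nat_lit 0x1948519485),.c (nat_lit 0) (nat_lit 0x11084100a4),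
    .r (nat_lit 0xdbb) (nat_lit 1) [nat_lit 0x348d252a0a2,nat_lit 0x4000001],.c (nat_lit 0) (nat_lit 0x1804000005),
    .r (nat_lit 0xdbb) (nat_lit 1) [nat_lit 0x200c0020082,nat_lit 0x4000001],.c (nat_lit 4) (nat_lit 2),
    .r (nat_lit 112) (nat_lit 14) [nat_lit 0xc030001,nat_lit 0x600006c80a2,nat_lit 0x38001,nat_lit 0x69da76b0a2,
    nat_lit 0x3000060001,nat_lit 65],.c (nat_lit 6) (nat_lit 0x1100000003),.r (nat_lit 0xdbb) (nat_lit 1) [nat_lit 65,
    nat_lit 0x4000001],.c (nat_lit 0) (nat_lit 0x19c0001c06),.r (nat_lit 0xdb2) (nat_lit 10) [nat_lit 0xca3010a2,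
    nat_lit 0x88200002],.c (nat_lit 0) (nat_lit 0x2180000007),.r (nat_lit 0xdbb) (nat_lit 1) [nat_lit 0x10041,
    nat_lit 0x4000001],.c (nat_lit 5) (nat_lit 2),.c (nat_lit 4) (nat_lit 0x1000001402),
    .c (nat_lit 0) (nat_lit 0x1104410ca4),.c (nat_lit 0) (nat_lit 0x80001003),.c (nat_lit 4) (nat_lit 0x1100000803),
    .r (nat_lit 0xdbb) (nat_lit 1) [nat_lit 0xca3210a2,nat_lit 0x4000001],.c (nat_lit 0) (nat_lit 0x1946518885),
    .c (nat_lit 2) (nat_lit 0x11048108a2),.c (nat_lit 2) (nat_lit 0x400803),.c (nat_lit 0) (nat_lit 0x11044108a4),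
    .c (nat_lit 4) (nat_lit 0x1000000c02),.c (nat_lit 6) (nat_lit 2),
    .r (nat_lit 536) (nat_lit 10) [nat_lit 0x5695252a041,nat_lit 0x28ca329001,nat_lit 0x24108221461,
    nat_lit 0x46118442461,nat_lit 0x24088421461,nat_lit 0x5695254a041],.r (nat_lit 0xdb2) (nat_lit 10) [nat_lit 65,
    nat_lit 0x88200002],.r (nat_lit 0xdbb) (nat_lit 1) [nat_lit 0x18ca301062,nat_lit 0x4000001],
    .r (nat_lit 0xdbb) (nat_lit 1) [nat_lit 0xca3010a2,nat_lit 0x4000001],.c (nat_lit 0) (nat_lit 0x80000005),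
    .c (nat_lit 7) (nat_lit 2),.c (nat_lit 0) (nat_lit 0x1946519487),.c (nat_lit 8) (nat_lit 2)]]

/-- nodes -/
noncomputable def rD8k_3_14 : List RJ :=
  [.s (nat_lit 14) (nat_lit 0x960) (nat_lit 4) (nat_lit 0x36c0000036c0000042f0000042f00000365000003e5000003e7000003e70000043e0000043e000003de000003de00000402000004020000037b0000037b) (nat_lit 0xd2000000d20000000f0000000f00000059000000d90000005700000057000000000000000000000060000000600000003c0000003c000000c3000000c3)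
    (nat_lit 0xa6829a0d7435d0de436b0f9c3bd0db036c0c303720a681ce0aa42a90a6829a0d7435d0c4c27515fc5550db036c085830c0c303300aa41b30d7435d10f842006583560f603d810bc1c50f3c3cf13a44e90db03900d7435d10f843e0f583560d083d80e6442f0f3c3a5114c4530a5036c09d436b0d583560c3026e0c3830e0e3c3fb0a9439b0ca43290a882420c4c3790f581960e3030c0e3838e103c37f0e143a90ea43a909e832215543bd0f603d80e3830e0fd83900f0c3e70e1c35d0eac3ab0af832415fc3e70d083d80e3830e0e403f60f9c3e70c843870eac3ab0c902be0db036c10bc1c50dfc3fb0f9c3e710f843e0f783de11a04680aa437b0db036c0e6442f103c38f0f9c3c310f843e0f783de13504d40c5437b0c303720e943cf0ea439b0e1c35d0f783de0ab037e0e883a20c6c249085830c0f3c3cf0e142a50c843870f783de10382ac0e883a211f43ab0cc01ce114c4e90ea43290eac3ab13504680e883a20cd83360cfc33f0c3029a114c4e90ea43290eac3ab13504680e883a20b283360cfc33f06cc2a90db03900c882420af83240dec37b0eac2490cfc33f0d383b40aa42a90a5036c09e82a20c902be0c542a911f431b0cfc33f0ae034e)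
    (nat_lit 0xa6896025809602580960258096025809602580960258096025809600a6829a25809602580960258096025809602580960258096025809600d7435d10f89602580960258096025809602580960258096025809600d7435d108043e2580960258096025809602580960258096025809600de431306583d60c30960258096025809602580960258096025809600dac2750d5835609b830c258096025809602580960258096025809600f9c57f0f603420c3838e0fd896025809602580960258096025809600ef45550f603d80c3838e0e403f625809602580960258096025809600db036c10bc3990e3c40f0f0c3e710f89602580960258096025809600db036c071442f0fec37f0f9c3e710f843e2580960258096025809600c302160f3c3cf0a943850e1c3210f783de0ab0960258096025809600dc830c0f3c3a50e6c3a90d743870f783de0df82ac258096025809600a6830c12fc4530ca43a90eac3ab11a04d40e883a20cd89602580960073833012fc4530ca43a90eac3ab11a04d40e883a20cd833625809600aa42a90db02940a8827a0af83240aa43150c6c47d0cfc33f0d389600aa41b30e4036c09083220c902be0dec37b09243ab0cfc33f0ed034e)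
    (nat_lit 5) (nat_lit 139)
    [[nat_lit 0,nat_lit 1,nat_lit 4,nat_lit 9],[nat_lit 0,nat_lit 1,nat_lit 8,nat_lit 5],[nat_lit 0,nat_lit 2,
    nat_lit 4],[nat_lit 0,nat_lit 2,nat_lit 5],[nat_lit 0,nat_lit 3,nat_lit 5],[nat_lit 0,nat_lit 4,nat_lit 0,
    nat_lit 9],[nat_lit 0,nat_lit 4,nat_lit 13,nat_lit 11],[nat_lit 0,nat_lit 5,nat_lit 0,nat_lit 9],[nat_lit 0,
    nat_lit 6,nat_lit 8],[nat_lit 0,nat_lit 6,nat_lit 9],[nat_lit 0,nat_lit 7,nat_lit 8],[nat_lit 0,nat_lit 9,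
    nat_lit 0,nat_lit 4],[nat_lit 0,nat_lit 9,nat_lit 0,nat_lit 5],[nat_lit 0,nat_lit 10,nat_lit 12,nat_lit 5],
    [nat_lit 0,nat_lit 11,nat_lit 0,nat_lit 14],[nat_lit 0,nat_lit 12,nat_lit 8],[nat_lit 0,nat_lit 13,nat_lit 8],
    [nat_lit 0,nat_lit 13,nat_lit 9],[nat_lit 0,nat_lit 13,nat_lit 11,nat_lit 5],[nat_lit 0,nat_lit 14,nat_lit 0,
    nat_lit 11],[nat_lit 1,nat_lit 4,nat_lit 1,nat_lit 8],[nat_lit 1,nat_lit 4,nat_lit 2],[nat_lit 1,nat_lit 4,
    nat_lit 3],[nat_lit 1,nat_lit 4,nat_lit 10,nat_lit 12],[nat_lit 1,nat_lit 4,nat_lit 13,nat_lit 11],[nat_lit 1,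
    nat_lit 5,nat_lit 1,nat_lit 8],[nat_lit 1,nat_lit 5,nat_lit 3],[nat_lit 1,nat_lit 8,nat_lit 1,nat_lit 4],
    [nat_lit 1,nat_lit 8,nat_lit 1,nat_lit 5],[nat_lit 1,nat_lit 8,nat_lit 7],[nat_lit 1,nat_lit 8,nat_lit 12],
    [nat_lit 1,nat_lit 9,nat_lit 6],[nat_lit 1,nat_lit 9,nat_lit 7],[nat_lit 1,nat_lit 9,nat_lit 12],[nat_lit 1,
    nat_lit 9,nat_lit 13],[nat_lit 1,nat_lit 10,nat_lit 1,nat_lit 15],[nat_lit 1,nat_lit 10,nat_lit 12,nat_lit 5],
    [nat_lit 1,nat_lit 15,nat_lit 1,nat_lit 10],[nat_lit 2,nat_lit 6],[nat_lit 2,nat_lit 7],[nat_lit 2,nat_lit 12],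
    [nat_lit 2,nat_lit 13],[nat_lit 3,nat_lit 6],[nat_lit 3,nat_lit 7],[nat_lit 3,nat_lit 12],[nat_lit 3,nat_lit 13],
    [nat_lit 4,nat_lit 4,nat_lit 8],[nat_lit 4,nat_lit 4,nat_lit 9],[nat_lit 4,nat_lit 4,nat_lit 10,nat_lit 5],
    [nat_lit 4,nat_lit 4,nat_lit 11,nat_lit 5],[nat_lit 4,nat_lit 8,nat_lit 4],[nat_lit 4,nat_lit 9,nat_lit 4],
    [nat_lit 4,nat_lit 10,nat_lit 5,nat_lit 4],[nat_lit 4,nat_lit 10,nat_lit 5,nat_lit 5],[nat_lit 4,nat_lit 10,
    nat_lit 14],[nat_lit 4,nat_lit 10,nat_lit 15],[nat_lit 4,nat_lit 11,nat_lit 5,nat_lit 4],[nat_lit 4,nat_lit 11,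
    nat_lit 5,nat_lit 5],[nat_lit 4,nat_lit 11,nat_lit 15],[nat_lit 4,nat_lit 14,nat_lit 10],[nat_lit 4,nat_lit 14,
    nat_lit 11],[nat_lit 4,nat_lit 15,nat_lit 10],[nat_lit 4,nat_lit 15,nat_lit 11],[nat_lit 5,nat_lit 5,nat_lit 8],
    [nat_lit 5,nat_lit 5,nat_lit 9],[nat_lit 5,nat_lit 8,nat_lit 5],[nat_lit 5,nat_lit 9,nat_lit 5],[nat_lit 5,
    nat_lit 10,nat_lit 14],[nat_lit 5,nat_lit 10,nat_lit 15],[nat_lit 5,nat_lit 11,nat_lit 14],[nat_lit 5,nat_lit 11,
    nat_lit 15],[nat_lit 5,nat_lit 14,nat_lit 10],[nat_lit 5,nat_lit 14,nat_lit 11],[nat_lit 5,nat_lit 15,nat_lit 11],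
    [nat_lit 6,nat_lit 10,nat_lit 12],[nat_lit 6,nat_lit 10,nat_lit 13],[nat_lit 6,nat_lit 11,nat_lit 12],[nat_lit 6,
    nat_lit 11,nat_lit 13],[nat_lit 6,nat_lit 12,nat_lit 11],[nat_lit 6,nat_lit 13,nat_lit 11],[nat_lit 7,nat_lit 10,
    nat_lit 12],[nat_lit 7,nat_lit 10,nat_lit 13],[nat_lit 7,nat_lit 12,nat_lit 10],[nat_lit 7,nat_lit 12,nat_lit 11],
    [nat_lit 7,nat_lit 13,nat_lit 10],[nat_lit 7,nat_lit 13,nat_lit 11],[nat_lit 8,nat_lit 14],[nat_lit 8,nat_lit 15],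
    [nat_lit 9,nat_lit 14],[nat_lit 9,nat_lit 15],[nat_lit 10,nat_lit 12,nat_lit 12],[nat_lit 10,nat_lit 12,
    nat_lit 13],[nat_lit 10,nat_lit 13,nat_lit 12],[nat_lit 11,nat_lit 12,nat_lit 13],[nat_lit 11,nat_lit 13,
    nat_lit 12],[nat_lit 11,nat_lit 13,nat_lit 13]]
    [nat_lit 0x10149,nat_lit 0x10185,nat_lit 0x1024,nat_lit 0x1025,nat_lit 0x1035,nat_lit 0x10409,nat_lit 0x104db,
    nat_lit 0x10509,nat_lit 0x1068,nat_lit 0x1069,nat_lit 0x1078,nat_lit 0x10904,nat_lit 0x10905,nat_lit 0x10ac5,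
    nat_lit 0x10b0e,nat_lit 0x10c8,nat_lit 0x10d8,nat_lit 0x10d9,nat_lit 0x10db5,nat_lit 0x10e0b,nat_lit 0x11418,
    nat_lit 0x1142,nat_lit 0x1143,nat_lit 0x114ac,nat_lit 0x114db,nat_lit 0x11518,nat_lit 0x1153,nat_lit 0x11814,
    nat_lit 0x11815,nat_lit 0x1187,nat_lit 0x118c,nat_lit 0x1196,nat_lit 0x1197,nat_lit 0x119c,nat_lit 0x119d,
    nat_lit 0x11a1f,nat_lit 0x11ac5,nat_lit 0x11f1a,nat_lit 294,nat_lit 295,nat_lit 300,nat_lit 301,nat_lit 310,
    nat_lit 311,nat_lit 316,nat_lit 317,nat_lit 0x1448,nat_lit 0x1449,nat_lit 0x144a5,nat_lit 0x144b5,nat_lit 0x1484,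
    nat_lit 0x1494,nat_lit 0x14a54,nat_lit 0x14a55,nat_lit 0x14ae,nat_lit 0x14af,nat_lit 0x14b54,nat_lit 0x14b55,
    nat_lit 0x14bf,nat_lit 0x14ea,nat_lit 0x14eb,nat_lit 0x14fa,nat_lit 0x14fb,nat_lit 0x1558,nat_lit 0x1559,
    nat_lit 0x1585,nat_lit 0x1595,nat_lit 0x15ae,nat_lit 0x15af,nat_lit 0x15be,nat_lit 0x15bf,nat_lit 0x15ea,
    nat_lit 0x15eb,nat_lit 0x15fb,nat_lit 0x16ac,nat_lit 0x16ad,nat_lit 0x16bc,nat_lit 0x16bd,nat_lit 0x16cb,
    nat_lit 0x16db,nat_lit 0x17ac,nat_lit 0x17ad,nat_lit 0x17ca,nat_lit 0x17cb,nat_lit 0x17da,nat_lit 0x17db,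
    nat_lit 398,nat_lit 399,nat_lit 414,nat_lit 415,nat_lit 0x1acc,nat_lit 0x1acd,nat_lit 0x1adc,nat_lit 0x1bcd,
    nat_lit 0x1bdc,nat_lit 0x1bdd]
    [[[nat_lit 0,nat_lit 1,nat_lit 4,nat_lit 9],[nat_lit 0,nat_lit 1,nat_lit 8,nat_lit 5],[nat_lit 0,nat_lit 2,
    nat_lit 4],[nat_lit 0,nat_lit 2,nat_lit 5],[nat_lit 0,nat_lit 3,nat_lit 5],[nat_lit 0,nat_lit 4,nat_lit 0,
    nat_lit 9],[nat_lit 0,nat_lit 4,nat_lit 13,nat_lit 11],[nat_lit 0,nat_lit 5,nat_lit 0,nat_lit 9],[nat_lit 0,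
    nat_lit 6,nat_lit 8],[nat_lit 0,nat_lit 6,nat_lit 9],[nat_lit 0,nat_lit 7,nat_lit 8],[nat_lit 0,nat_lit 9,
    nat_lit 0,nat_lit 4]],[[nat_lit 0,nat_lit 9,nat_lit 0,nat_lit 5],[nat_lit 0,nat_lit 10,nat_lit 12,nat_lit 5],
    [nat_lit 0,nat_lit 11,nat_lit 0,nat_lit 14],[nat_lit 0,nat_lit 12,nat_lit 8],[nat_lit 0,nat_lit 13,nat_lit 8],
    [nat_lit 0,nat_lit 13,nat_lit 9],[nat_lit 0,nat_lit 13,nat_lit 11,nat_lit 5],[nat_lit 0,nat_lit 14,nat_lit 0,
    nat_lit 11],[nat_lit 1,nat_lit 4,nat_lit 1,nat_lit 8],[nat_lit 1,nat_lit 4,nat_lit 2],[nat_lit 1,nat_lit 4,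
    nat_lit 3],[nat_lit 1,nat_lit 4,nat_lit 9,nat_lit 0]],[[nat_lit 1,nat_lit 4,nat_lit 10,nat_lit 12],[nat_lit 1,
    nat_lit 4,nat_lit 13,nat_lit 11],[nat_lit 1,nat_lit 5,nat_lit 1,nat_lit 8],[nat_lit 1,nat_lit 5,nat_lit 3],
    [nat_lit 1,nat_lit 8,nat_lit 1,nat_lit 4],[nat_lit 1,nat_lit 8,nat_lit 1,nat_lit 5],[nat_lit 1,nat_lit 8,
    nat_lit 5,nat_lit 0],[nat_lit 1,nat_lit 8,nat_lit 7],[nat_lit 1,nat_lit 8,nat_lit 12],[nat_lit 1,nat_lit 9,
    nat_lit 6],[nat_lit 1,nat_lit 9,nat_lit 7],[nat_lit 1,nat_lit 9,nat_lit 12]],[[nat_lit 1,nat_lit 9,nat_lit 13],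
    [nat_lit 1,nat_lit 10,nat_lit 1,nat_lit 15],[nat_lit 1,nat_lit 10,nat_lit 12,nat_lit 5],[nat_lit 1,nat_lit 15,
    nat_lit 1,nat_lit 10],[nat_lit 2,nat_lit 1,nat_lit 4],[nat_lit 2,nat_lit 4,nat_lit 0],[nat_lit 2,nat_lit 5,
    nat_lit 0],[nat_lit 2,nat_lit 6],[nat_lit 2,nat_lit 7],[nat_lit 2,nat_lit 12],[nat_lit 2,nat_lit 13],[nat_lit 3,
    nat_lit 1,nat_lit 4]],[[nat_lit 3,nat_lit 1,nat_lit 5],[nat_lit 3,nat_lit 5,nat_lit 0],[nat_lit 3,nat_lit 6],
    [nat_lit 3,nat_lit 7],[nat_lit 3,nat_lit 12],[nat_lit 3,nat_lit 13],[nat_lit 4,nat_lit 0,nat_lit 2],[nat_lit 4,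
    nat_lit 0,nat_lit 9,nat_lit 0],[nat_lit 4,nat_lit 1,nat_lit 8,nat_lit 1],[nat_lit 4,nat_lit 2,nat_lit 1],
    [nat_lit 4,nat_lit 3,nat_lit 1],[nat_lit 4,nat_lit 4,nat_lit 8]],[[nat_lit 4,nat_lit 4,nat_lit 9],[nat_lit 4,
    nat_lit 4,nat_lit 10,nat_lit 5],[nat_lit 4,nat_lit 4,nat_lit 11,nat_lit 5],[nat_lit 4,nat_lit 8,nat_lit 4],
    [nat_lit 4,nat_lit 9,nat_lit 0,nat_lit 1],[nat_lit 4,nat_lit 9,nat_lit 4],[nat_lit 4,nat_lit 10,nat_lit 5,
    nat_lit 4],[nat_lit 4,nat_lit 10,nat_lit 5,nat_lit 5],[nat_lit 4,nat_lit 10,nat_lit 12,nat_lit 1],[nat_lit 4,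
    nat_lit 10,nat_lit 14],[nat_lit 4,nat_lit 10,nat_lit 15],[nat_lit 4,nat_lit 11,nat_lit 5,nat_lit 4]],[[nat_lit 4,
    nat_lit 11,nat_lit 5,nat_lit 5],[nat_lit 4,nat_lit 11,nat_lit 15],[nat_lit 4,nat_lit 13,nat_lit 11,nat_lit 0],
    [nat_lit 4,nat_lit 13,nat_lit 11,nat_lit 1],[nat_lit 4,nat_lit 14,nat_lit 10],[nat_lit 4,nat_lit 14,nat_lit 11],
    [nat_lit 4,nat_lit 15,nat_lit 10],[nat_lit 4,nat_lit 15,nat_lit 11],[nat_lit 5,nat_lit 0,nat_lit 1,nat_lit 8],
    [nat_lit 5,nat_lit 0,nat_lit 2],[nat_lit 5,nat_lit 0,nat_lit 3],[nat_lit 5,nat_lit 0,nat_lit 9,nat_lit 0]],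
    [[nat_lit 5,nat_lit 0,nat_lit 10,nat_lit 12],[nat_lit 5,nat_lit 0,nat_lit 13,nat_lit 11],[nat_lit 5,nat_lit 1,
    nat_lit 8,nat_lit 1],[nat_lit 5,nat_lit 1,nat_lit 10,nat_lit 12],[nat_lit 5,nat_lit 3,nat_lit 1],[nat_lit 5,
    nat_lit 4,nat_lit 4,nat_lit 10],[nat_lit 5,nat_lit 4,nat_lit 4,nat_lit 11],[nat_lit 5,nat_lit 4,nat_lit 10,
    nat_lit 5],[nat_lit 5,nat_lit 4,nat_lit 11,nat_lit 5],[nat_lit 5,nat_lit 5,nat_lit 4,nat_lit 10],[nat_lit 5,
    nat_lit 5,nat_lit 4,nat_lit 11],[nat_lit 5,nat_lit 5,nat_lit 8]],[[nat_lit 5,nat_lit 5,nat_lit 9],[nat_lit 5,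
    nat_lit 8,nat_lit 5],[nat_lit 5,nat_lit 9,nat_lit 5],[nat_lit 5,nat_lit 10,nat_lit 14],[nat_lit 5,nat_lit 10,
    nat_lit 15],[nat_lit 5,nat_lit 11,nat_lit 14],[nat_lit 5,nat_lit 11,nat_lit 15],[nat_lit 5,nat_lit 14,nat_lit 10],
    [nat_lit 5,nat_lit 14,nat_lit 11],[nat_lit 5,nat_lit 15,nat_lit 11],[nat_lit 6,nat_lit 1,nat_lit 9],[nat_lit 6,
    nat_lit 2]],[[nat_lit 6,nat_lit 3],[nat_lit 6,nat_lit 8,nat_lit 0],[nat_lit 6,nat_lit 9,nat_lit 0],[nat_lit 6,
    nat_lit 10,nat_lit 12],[nat_lit 6,nat_lit 10,nat_lit 13],[nat_lit 6,nat_lit 11,nat_lit 12],[nat_lit 6,nat_lit 11,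
    nat_lit 13],[nat_lit 6,nat_lit 12,nat_lit 11],[nat_lit 6,nat_lit 13,nat_lit 11],[nat_lit 7,nat_lit 1,nat_lit 8],
    [nat_lit 7,nat_lit 1,nat_lit 9],[nat_lit 7,nat_lit 2]],[[nat_lit 7,nat_lit 3],[nat_lit 7,nat_lit 8,nat_lit 0],
    [nat_lit 7,nat_lit 10,nat_lit 12],[nat_lit 7,nat_lit 10,nat_lit 13],[nat_lit 7,nat_lit 12,nat_lit 10],[nat_lit 7,
    nat_lit 12,nat_lit 11],[nat_lit 7,nat_lit 13,nat_lit 10],[nat_lit 7,nat_lit 13,nat_lit 11],[nat_lit 8,nat_lit 0,
    nat_lit 6],[nat_lit 8,nat_lit 0,nat_lit 7],[nat_lit 8,nat_lit 0,nat_lit 12],[nat_lit 8,nat_lit 0,nat_lit 13]],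
    [[nat_lit 8,nat_lit 1,nat_lit 4,nat_lit 1],[nat_lit 8,nat_lit 1,nat_lit 5,nat_lit 1],[nat_lit 8,nat_lit 4,
    nat_lit 4],[nat_lit 8,nat_lit 5,nat_lit 0,nat_lit 1],[nat_lit 8,nat_lit 5,nat_lit 5],[nat_lit 8,nat_lit 7,
    nat_lit 1],[nat_lit 8,nat_lit 12,nat_lit 1],[nat_lit 8,nat_lit 14],[nat_lit 8,nat_lit 15],[nat_lit 9,nat_lit 0,
    nat_lit 1,nat_lit 4],[nat_lit 9,nat_lit 0,nat_lit 4,nat_lit 0],[nat_lit 9,nat_lit 0,nat_lit 5,nat_lit 0]],
    [[nat_lit 9,nat_lit 0,nat_lit 6],[nat_lit 9,nat_lit 0,nat_lit 13],[nat_lit 9,nat_lit 4,nat_lit 4],[nat_lit 9,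
    nat_lit 5,nat_lit 5],[nat_lit 9,nat_lit 6,nat_lit 1],[nat_lit 9,nat_lit 7,nat_lit 1],[nat_lit 9,nat_lit 12,
    nat_lit 1],[nat_lit 9,nat_lit 13,nat_lit 1],[nat_lit 9,nat_lit 14],[nat_lit 9,nat_lit 15],[nat_lit 10,nat_lit 1,
    nat_lit 15,nat_lit 1],[nat_lit 10,nat_lit 4,nat_lit 14]],[[nat_lit 10,nat_lit 4,nat_lit 15],[nat_lit 10,nat_lit 5,
    nat_lit 4,nat_lit 4],[nat_lit 10,nat_lit 5,nat_lit 5,nat_lit 4],[nat_lit 10,nat_lit 5,nat_lit 14],[nat_lit 10,
    nat_lit 7,nat_lit 12],[nat_lit 10,nat_lit 7,nat_lit 13],[nat_lit 10,nat_lit 12,nat_lit 1,nat_lit 4],[nat_lit 10,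
    nat_lit 12,nat_lit 5,nat_lit 0],[nat_lit 10,nat_lit 12,nat_lit 5,nat_lit 1],[nat_lit 10,nat_lit 12,nat_lit 6],
    [nat_lit 10,nat_lit 12,nat_lit 7],[nat_lit 10,nat_lit 12,nat_lit 12]],[[nat_lit 10,nat_lit 12,nat_lit 13],
    [nat_lit 10,nat_lit 13,nat_lit 6],[nat_lit 10,nat_lit 13,nat_lit 7],[nat_lit 10,nat_lit 13,nat_lit 12],
    [nat_lit 10,nat_lit 14,nat_lit 4],[nat_lit 10,nat_lit 14,nat_lit 5],[nat_lit 10,nat_lit 15,nat_lit 4],[nat_lit 10,
    nat_lit 15,nat_lit 5],[nat_lit 11,nat_lit 0,nat_lit 4,nat_lit 13],[nat_lit 11,nat_lit 0,nat_lit 14,nat_lit 0],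
    [nat_lit 11,nat_lit 1,nat_lit 4,nat_lit 13],[nat_lit 11,nat_lit 4,nat_lit 14]],[[nat_lit 11,nat_lit 4,nat_lit 15],
    [nat_lit 11,nat_lit 5,nat_lit 0,nat_lit 13],[nat_lit 11,nat_lit 5,nat_lit 4,nat_lit 4],[nat_lit 11,nat_lit 5,
    nat_lit 5,nat_lit 4],[nat_lit 11,nat_lit 5,nat_lit 14],[nat_lit 11,nat_lit 5,nat_lit 15],[nat_lit 11,nat_lit 6,
    nat_lit 12],[nat_lit 11,nat_lit 6,nat_lit 13],[nat_lit 11,nat_lit 7,nat_lit 12],[nat_lit 11,nat_lit 7,nat_lit 13],
    [nat_lit 11,nat_lit 12,nat_lit 6],[nat_lit 11,nat_lit 12,nat_lit 13]],[[nat_lit 11,nat_lit 13,nat_lit 6],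
    [nat_lit 11,nat_lit 13,nat_lit 12],[nat_lit 11,nat_lit 13,nat_lit 13],[nat_lit 11,nat_lit 14,nat_lit 5],
    [nat_lit 11,nat_lit 15,nat_lit 4],[nat_lit 11,nat_lit 15,nat_lit 5],[nat_lit 12,nat_lit 1,nat_lit 4,nat_lit 10],
    [nat_lit 12,nat_lit 1,nat_lit 8],[nat_lit 12,nat_lit 1,nat_lit 9],[nat_lit 12,nat_lit 2],[nat_lit 12,nat_lit 3],
    [nat_lit 12,nat_lit 5,nat_lit 0,nat_lit 10]],[[nat_lit 12,nat_lit 5,nat_lit 1,nat_lit 10],[nat_lit 12,nat_lit 6,
    nat_lit 10],[nat_lit 12,nat_lit 6,nat_lit 11],[nat_lit 12,nat_lit 7,nat_lit 10],[nat_lit 12,nat_lit 8,nat_lit 0],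
    [nat_lit 12,nat_lit 10,nat_lit 7],[nat_lit 12,nat_lit 10,nat_lit 12],[nat_lit 12,nat_lit 10,nat_lit 13],
    [nat_lit 12,nat_lit 11,nat_lit 6],[nat_lit 12,nat_lit 11,nat_lit 7],[nat_lit 12,nat_lit 11,nat_lit 13],
    [nat_lit 12,nat_lit 12,nat_lit 10]],[[nat_lit 12,nat_lit 13,nat_lit 10],[nat_lit 12,nat_lit 13,nat_lit 11],
    [nat_lit 13,nat_lit 1,nat_lit 9],[nat_lit 13,nat_lit 2],[nat_lit 13,nat_lit 3],[nat_lit 13,nat_lit 6,nat_lit 10],
    [nat_lit 13,nat_lit 6,nat_lit 11],[nat_lit 13,nat_lit 7,nat_lit 10],[nat_lit 13,nat_lit 8,nat_lit 0],[nat_lit 13,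
    nat_lit 9,nat_lit 0],[nat_lit 13,nat_lit 10,nat_lit 7],[nat_lit 13,nat_lit 10,nat_lit 12]],[[nat_lit 13,
    nat_lit 11,nat_lit 0,nat_lit 4],[nat_lit 13,nat_lit 11,nat_lit 1,nat_lit 4],[nat_lit 13,nat_lit 11,nat_lit 5,
    nat_lit 0],[nat_lit 13,nat_lit 11,nat_lit 6],[nat_lit 13,nat_lit 11,nat_lit 7],[nat_lit 13,nat_lit 11,nat_lit 12],
    [nat_lit 13,nat_lit 11,nat_lit 13],[nat_lit 13,nat_lit 12,nat_lit 10],[nat_lit 13,nat_lit 12,nat_lit 11],
    [nat_lit 13,nat_lit 13,nat_lit 11],[nat_lit 14,nat_lit 0,nat_lit 11,nat_lit 0],[nat_lit 14,nat_lit 4,nat_lit 10]],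
    [[nat_lit 14,nat_lit 5,nat_lit 10],[nat_lit 14,nat_lit 5,nat_lit 11],[nat_lit 14,nat_lit 8],[nat_lit 14,
    nat_lit 9],[nat_lit 14,nat_lit 10,nat_lit 4],[nat_lit 14,nat_lit 10,nat_lit 5],[nat_lit 14,nat_lit 11,nat_lit 4],
    [nat_lit 14,nat_lit 11,nat_lit 5],[nat_lit 15,nat_lit 1,nat_lit 10,nat_lit 1],[nat_lit 15,nat_lit 4,nat_lit 10],
    [nat_lit 15,nat_lit 4,nat_lit 11],[nat_lit 15,nat_lit 5,nat_lit 10]],[[nat_lit 15,nat_lit 5,nat_lit 11],
    [nat_lit 15,nat_lit 8],[nat_lit 15,nat_lit 9],[nat_lit 15,nat_lit 10,nat_lit 4],[nat_lit 15,nat_lit 11,nat_lit 4],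
    [nat_lit 15,nat_lit 11,nat_lit 5]]]
    [[nat_lit 23,nat_lit 30,nat_lit 41,nat_lit 42,nat_lit 49,nat_lit 55,nat_lit 74,nat_lit 83,nat_lit 109,nat_lit 110,
    nat_lit 121,nat_lit 142],[nat_lit 143,nat_lit 163,nat_lit 177,nat_lit 208,nat_lit 224,nat_lit 225,nat_lit 230,
    nat_lit 238,nat_lit 56,nat_lit 57,nat_lit 58,nat_lit 64],[nat_lit 68,nat_lit 75,nat_lit 86,nat_lit 88,nat_lit 132,
    nat_lit 133,nat_lit 135,nat_lit 137,nat_lit 138,nat_lit 148,nat_lit 149,nat_lit 150],[nat_lit 151,nat_lit 154,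
    nat_lit 164,nat_lit 248,nat_lit 21,nat_lit 54,nat_lit 81,nat_lit 107,nat_lit 119,nat_lit 201,nat_lit 219,
    nat_lit 22],[nat_lit 27,nat_lit 82,nat_lit 108,nat_lit 120,nat_lit 202,nat_lit 220,nat_lit 2,nat_lit 11,
    nat_lit 28,nat_lit 40,nat_lit 47,nat_lit 63],[nat_lit 65,nat_lit 66,nat_lit 71,nat_lit 134,nat_lit 141,
    nat_lit 146,nat_lit 157,nat_lit 158,nat_lit 162,nat_lit 172,nat_lit 174,nat_lit 182],[nat_lit 183,nat_lit 196,
    nat_lit 228,nat_lit 229,nat_lit 244,nat_lit 246,nat_lit 255,nat_lit 256,nat_lit 1,nat_lit 3,nat_lit 4,nat_lit 12],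
    [nat_lit 13,nat_lit 18,nat_lit 29,nat_lit 38,nat_lit 48,nat_lit 61,nat_lit 62,nat_lit 67,nat_lit 72,nat_lit 91,
    nat_lit 92,nat_lit 97],[nat_lit 98,nat_lit 136,nat_lit 147,nat_lit 173,nat_lit 175,nat_lit 195,nat_lit 197,
    nat_lit 245,nat_lit 247,nat_lit 257,nat_lit 33,nat_lit 43],[nat_lit 50,nat_lit 128,nat_lit 144,nat_lit 165,
    nat_lit 169,nat_lit 190,nat_lit 192,nat_lit 212,nat_lit 231,nat_lit 31,nat_lit 34,nat_lit 44],[nat_lit 51,
    nat_lit 129,nat_lit 166,nat_lit 170,nat_lit 209,nat_lit 213,nat_lit 226,nat_lit 232,nat_lit 8,nat_lit 10,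
    nat_lit 15,nat_lit 16],[nat_lit 20,nat_lit 26,nat_lit 59,nat_lit 80,nat_lit 95,nat_lit 117,nat_lit 199,
    nat_lit 242,nat_lit 253,nat_lit 0,nat_lit 5,nat_lit 7],[nat_lit 9,nat_lit 17,nat_lit 60,nat_lit 96,nat_lit 106,
    nat_lit 118,nat_lit 200,nat_lit 218,nat_lit 243,nat_lit 254,nat_lit 39,nat_lit 76],[nat_lit 78,nat_lit 89,
    nat_lit 93,nat_lit 103,nat_lit 124,nat_lit 126,nat_lit 198,nat_lit 203,nat_lit 204,nat_lit 205,nat_lit 207,
    nat_lit 215],[nat_lit 216,nat_lit 221,nat_lit 223,nat_lit 235,nat_lit 239,nat_lit 240,nat_lit 249,nat_lit 251,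
    nat_lit 6,nat_lit 19,nat_lit 25,nat_lit 77],[nat_lit 79,nat_lit 85,nat_lit 90,nat_lit 94,nat_lit 104,nat_lit 105,
    nat_lit 115,nat_lit 116,nat_lit 125,nat_lit 127,nat_lit 206,nat_lit 217],[nat_lit 222,nat_lit 236,nat_lit 237,
    nat_lit 241,nat_lit 250,nat_lit 252,nat_lit 24,nat_lit 32,nat_lit 35,nat_lit 45,nat_lit 52,nat_lit 84],
    [nat_lit 87,nat_lit 111,nat_lit 113,nat_lit 122,nat_lit 130,nat_lit 160,nat_lit 167,nat_lit 171,nat_lit 186,
    nat_lit 188,nat_lit 193,nat_lit 210],[nat_lit 227,nat_lit 233,nat_lit 36,nat_lit 46,nat_lit 53,nat_lit 112,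
    nat_lit 114,nat_lit 123,nat_lit 131,nat_lit 145,nat_lit 161,nat_lit 168],[nat_lit 176,nat_lit 178,nat_lit 181,
    nat_lit 187,nat_lit 189,nat_lit 191,nat_lit 194,nat_lit 211,nat_lit 214,nat_lit 234,nat_lit 14,nat_lit 69],
    [nat_lit 99,nat_lit 101,nat_lit 139,nat_lit 152,nat_lit 155,nat_lit 159,nat_lit 179,nat_lit 184,nat_lit 37,
    nat_lit 70,nat_lit 73,nat_lit 100],[nat_lit 102,nat_lit 140,nat_lit 153,nat_lit 156,nat_lit 180,nat_lit 185]]
    [[nat_lit 141,nat_lit 80,nat_lit 54,nat_lit 81,nat_lit 82,nat_lit 142,nat_lit 176,nat_lit 143,nat_lit 128,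
    nat_lit 144,nat_lit 129,nat_lit 55],[nat_lit 83,nat_lit 84,nat_lit 238,nat_lit 130,nat_lit 131,nat_lit 145,
    nat_lit 85,nat_lit 177,nat_lit 132,nat_lit 40,nat_lit 47,nat_lit 0],[nat_lit 198,nat_lit 178,nat_lit 133,
    nat_lit 48,nat_lit 56,nat_lit 86,nat_lit 1,nat_lit 117,nat_lit 199,nat_lit 106,nat_lit 118,nat_lit 200],
    [nat_lit 218,nat_lit 248,nat_lit 87,nat_lit 154,nat_lit 57,nat_lit 2,nat_lit 3,nat_lit 107,nat_lit 119,
    nat_lit 201,nat_lit 219,nat_lit 58],[nat_lit 88,nat_lit 4,nat_lit 108,nat_lit 120,nat_lit 202,nat_lit 220,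
    nat_lit 41,nat_lit 5,nat_lit 20,nat_lit 21,nat_lit 22,nat_lit 134],[nat_lit 146,nat_lit 89,nat_lit 90,nat_lit 59,
    nat_lit 23,nat_lit 60,nat_lit 61,nat_lit 91,nat_lit 24,nat_lit 239,nat_lit 249,nat_lit 62],[nat_lit 92,
    nat_lit 250,nat_lit 6,nat_lit 25,nat_lit 155,nat_lit 179,nat_lit 156,nat_lit 180,nat_lit 135,nat_lit 42,
    nat_lit 49,nat_lit 7],[nat_lit 203,nat_lit 181,nat_lit 26,nat_lit 204,nat_lit 27,nat_lit 157,nat_lit 182,
    nat_lit 93,nat_lit 94,nat_lit 158,nat_lit 183,nat_lit 136],[nat_lit 147,nat_lit 95,nat_lit 96,nat_lit 240,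
    nat_lit 251,nat_lit 241,nat_lit 252,nat_lit 159,nat_lit 184,nat_lit 185,nat_lit 148,nat_lit 43],[nat_lit 50,
    nat_lit 8,nat_lit 9,nat_lit 205,nat_lit 221,nat_lit 206,nat_lit 222,nat_lit 186,nat_lit 187,nat_lit 137,
    nat_lit 149,nat_lit 44],[nat_lit 51,nat_lit 10,nat_lit 207,nat_lit 223,nat_lit 160,nat_lit 188,nat_lit 161,
    nat_lit 189,nat_lit 109,nat_lit 121,nat_lit 208,nat_lit 224],[nat_lit 28,nat_lit 29,nat_lit 63,nat_lit 30,
    nat_lit 97,nat_lit 31,nat_lit 32,nat_lit 242,nat_lit 253,nat_lit 64,nat_lit 11,nat_lit 12],[nat_lit 110,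
    nat_lit 225,nat_lit 65,nat_lit 98,nat_lit 33,nat_lit 34,nat_lit 35,nat_lit 36,nat_lit 243,nat_lit 254,nat_lit 37,
    nat_lit 244],[nat_lit 255,nat_lit 66,nat_lit 67,nat_lit 245,nat_lit 209,nat_lit 226,nat_lit 68,nat_lit 13,
    nat_lit 38,nat_lit 111,nat_lit 122,nat_lit 210],[nat_lit 227,nat_lit 112,nat_lit 123,nat_lit 211,nat_lit 69,
    nat_lit 99,nat_lit 70,nat_lit 100,nat_lit 228,nat_lit 14,nat_lit 229,nat_lit 246],[nat_lit 256,nat_lit 230,
    nat_lit 71,nat_lit 72,nat_lit 247,nat_lit 257,nat_lit 212,nat_lit 231,nat_lit 213,nat_lit 232,nat_lit 113,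
    nat_lit 233],[nat_lit 114,nat_lit 214,nat_lit 234,nat_lit 101,nat_lit 73,nat_lit 102,nat_lit 162,nat_lit 138,
    nat_lit 150,nat_lit 45,nat_lit 52,nat_lit 163],[nat_lit 164,nat_lit 165,nat_lit 190,nat_lit 166,nat_lit 15,
    nat_lit 124,nat_lit 215,nat_lit 235,nat_lit 115,nat_lit 125,nat_lit 236,nat_lit 167],[nat_lit 168,nat_lit 191,
    nat_lit 151,nat_lit 46,nat_lit 53,nat_lit 169,nat_lit 192,nat_lit 170,nat_lit 16,nat_lit 17,nat_lit 126,
    nat_lit 216],[nat_lit 74,nat_lit 75,nat_lit 18,nat_lit 116,nat_lit 127,nat_lit 217,nat_lit 237,nat_lit 171,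
    nat_lit 193,nat_lit 194,nat_lit 19,nat_lit 172],[nat_lit 173,nat_lit 195,nat_lit 139,nat_lit 152,nat_lit 76,
    nat_lit 103,nat_lit 77,nat_lit 104,nat_lit 39,nat_lit 174,nat_lit 196,nat_lit 175],[nat_lit 197,nat_lit 140,
    nat_lit 153,nat_lit 78,nat_lit 79,nat_lit 105]]
    [[[],[],[nat_lit 244,nat_lit 246],[nat_lit 244,nat_lit 246],[],[],[],[],[nat_lit 242],[nat_lit 242],[nat_lit 245,
    nat_lit 247],[]],[[],[],[nat_lit 243],[],[nat_lit 241],[nat_lit 241],[nat_lit 241],[nat_lit 238],[nat_lit 50],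
    [nat_lit 50],[nat_lit 50],[nat_lit 50]],[[nat_lit 50],[nat_lit 50],[],[],[],[],[],[],[],[nat_lit 51],[nat_lit 51],
    [nat_lit 51]],[[nat_lit 51],[nat_lit 52],[nat_lit 52],[nat_lit 53],[],[],[],[nat_lit 8,nat_lit 10,nat_lit 15,
    nat_lit 16],[nat_lit 1,nat_lit 3,nat_lit 4,nat_lit 12,nat_lit 13,nat_lit 18],[nat_lit 14],[nat_lit 6,nat_lit 19],
    [nat_lit 100,nat_lit 102]],[[nat_lit 100,nat_lit 102],[nat_lit 82],[nat_lit 80,nat_lit 95],[nat_lit 91,nat_lit 92,
    nat_lit 97,nat_lit 98],[nat_lit 99,nat_lit 101],[nat_lit 85,nat_lit 90,nat_lit 94,nat_lit 104,nat_lit 105],[],[],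
    [],[nat_lit 40],[],[nat_lit 43]],[[nat_lit 43],[nat_lit 43],[nat_lit 43],[],[nat_lit 44],[nat_lit 44],
    [nat_lit 45],[nat_lit 45],[nat_lit 45],[nat_lit 45],[nat_lit 45],[]],[[],[],[],[],[nat_lit 41,nat_lit 42],
    [nat_lit 41,nat_lit 42],[nat_lit 46],[nat_lit 46],[nat_lit 119],[nat_lit 119],[nat_lit 119],[nat_lit 119]],
    [[nat_lit 119],[nat_lit 119],[],[],[],[],[],[],[],[nat_lit 120],[nat_lit 120],[nat_lit 120]],[[nat_lit 120],
    [nat_lit 124,nat_lit 126],[],[nat_lit 122],[nat_lit 122],[nat_lit 118],[nat_lit 118],[nat_lit 121],[nat_lit 121],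
    [nat_lit 123],[nat_lit 70,nat_lit 73],[nat_lit 63,nat_lit 65,nat_lit 66,nat_lit 71]],[[nat_lit 56,nat_lit 57,
    nat_lit 58,nat_lit 64,nat_lit 68,nat_lit 75],[nat_lit 76,nat_lit 78],[],[],[],[nat_lit 60],[nat_lit 60],
    [nat_lit 69],[nat_lit 77,nat_lit 79],[nat_lit 153],[nat_lit 153],[nat_lit 141,nat_lit 146]],[[nat_lit 148,
    nat_lit 149,nat_lit 150,nat_lit 151],[],[],[],[nat_lit 152],[nat_lit 152],[],[],[nat_lit 107],[nat_lit 107],
    [nat_lit 107],[nat_lit 107]],[[],[],[],[nat_lit 108],[nat_lit 108],[],[],[nat_lit 109,nat_lit 110],[nat_lit 112,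
    nat_lit 114],[],[],[]],[[],[],[nat_lit 190,nat_lit 192],[],[],[nat_lit 195,nat_lit 197],[nat_lit 179,nat_lit 184],
    [],[nat_lit 177],[nat_lit 176,nat_lit 178,nat_lit 181,nat_lit 187,nat_lit 189,nat_lit 191,nat_lit 194],
    [nat_lit 140],[nat_lit 128]],[[nat_lit 128],[],[],[],[nat_lit 136],[nat_lit 136],[nat_lit 139],[nat_lit 139],
    [nat_lit 139],[nat_lit 139],[nat_lit 139],[nat_lit 139]],[[nat_lit 139],[],[],[],[],[],[nat_lit 131],
    [nat_lit 131],[nat_lit 219],[nat_lit 219],[],[nat_lit 231]],[[nat_lit 231],[nat_lit 220],[nat_lit 220],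
    [nat_lit 220],[nat_lit 220],[nat_lit 220],[],[],[],[],[],[]],[[nat_lit 222,nat_lit 236,nat_lit 237],[nat_lit 222,
    nat_lit 236,nat_lit 237],[nat_lit 222,nat_lit 236,nat_lit 237],[nat_lit 224,nat_lit 225,nat_lit 230],
    [nat_lit 234],[nat_lit 234],[nat_lit 156],[nat_lit 156],[nat_lit 156],[nat_lit 157,nat_lit 158,nat_lit 162,
    nat_lit 172,nat_lit 174],[nat_lit 154,nat_lit 164],[]],[[],[],[],[nat_lit 173,nat_lit 175],[],[nat_lit 160,
    nat_lit 167,nat_lit 171],[nat_lit 160,nat_lit 167,nat_lit 171],[nat_lit 160,nat_lit 167,nat_lit 171],[],[],[],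
    [nat_lit 155,nat_lit 159]],[[],[],[],[nat_lit 255,nat_lit 256],[nat_lit 248],[nat_lit 253],[nat_lit 253],
    [nat_lit 257],[nat_lit 249,nat_lit 251],[],[],[]],[[nat_lit 254],[nat_lit 254],[nat_lit 254],[nat_lit 254],
    [nat_lit 254],[nat_lit 254],[nat_lit 254],[],[],[nat_lit 250,nat_lit 252],[nat_lit 201],[nat_lit 212]],
    [[nat_lit 202],[nat_lit 202],[nat_lit 198,nat_lit 203,nat_lit 204,nat_lit 205,nat_lit 207,nat_lit 215,
    nat_lit 216],[nat_lit 209,nat_lit 213],[nat_lit 210],[nat_lit 210],[nat_lit 200],[nat_lit 200],[nat_lit 37],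
    [nat_lit 33],[nat_lit 33],[nat_lit 22,nat_lit 27]],[[nat_lit 22,nat_lit 27],[nat_lit 39],[nat_lit 31,nat_lit 34],
    [nat_lit 24,nat_lit 32,nat_lit 35],[],[]]]
    (nat_lit 258) [nat_lit 0,nat_lit 1,nat_lit 2,nat_lit 3,nat_lit 4,nat_lit 5,nat_lit 6,nat_lit 7,nat_lit 8,
    nat_lit 9,nat_lit 10,nat_lit 11,nat_lit 12,nat_lit 13,nat_lit 14,nat_lit 15,nat_lit 16,nat_lit 17,nat_lit 18,
    nat_lit 19,nat_lit 20,nat_lit 21,nat_lit 22,nat_lit 24,nat_lit 25,nat_lit 26,nat_lit 27,nat_lit 28,nat_lit 29,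
    nat_lit 31,nat_lit 32,nat_lit 33,nat_lit 34,nat_lit 35,nat_lit 36,nat_lit 37,nat_lit 38,nat_lit 39,nat_lit 43,
    nat_lit 44,nat_lit 45,nat_lit 46,nat_lit 50,nat_lit 51,nat_lit 52,nat_lit 53,nat_lit 59,nat_lit 60,nat_lit 61,
    nat_lit 62,nat_lit 63,nat_lit 65,nat_lit 66,nat_lit 67,nat_lit 69,nat_lit 70,nat_lit 71,nat_lit 72,nat_lit 73,
    nat_lit 76,nat_lit 77,nat_lit 78,nat_lit 79,nat_lit 95,nat_lit 96,nat_lit 97,nat_lit 98,nat_lit 99,nat_lit 100,
    nat_lit 101,nat_lit 102,nat_lit 103,nat_lit 104,nat_lit 105,nat_lit 111,nat_lit 112,nat_lit 113,nat_lit 114,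
    nat_lit 115,nat_lit 116,nat_lit 122,nat_lit 123,nat_lit 124,nat_lit 125,nat_lit 126,nat_lit 127,nat_lit 139,
    nat_lit 140,nat_lit 152,nat_lit 153,nat_lit 167,nat_lit 168,nat_lit 171,nat_lit 191,nat_lit 193,nat_lit 194]
    [[[],[],[],[],[nat_lit 2,nat_lit 11],[nat_lit 1,nat_lit 3,nat_lit 4,nat_lit 12,nat_lit 13,nat_lit 18],[],[],
    [nat_lit 8,nat_lit 10,nat_lit 15,nat_lit 16],[nat_lit 0,nat_lit 5,nat_lit 7,nat_lit 9,nat_lit 17],[],[nat_lit 6,
    nat_lit 19],[],[],[nat_lit 14],[]],[[nat_lit 23,nat_lit 30],[],[nat_lit 21],[nat_lit 22,nat_lit 27],[nat_lit 28],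
    [nat_lit 29,nat_lit 38],[nat_lit 33],[nat_lit 31,nat_lit 34],[nat_lit 20,nat_lit 26],[],[nat_lit 39],[nat_lit 25],
    [nat_lit 24,nat_lit 32,nat_lit 35],[nat_lit 36],[],[nat_lit 37]],[[nat_lit 41,nat_lit 42],[],[],[],[nat_lit 40],
    [],[nat_lit 43],[nat_lit 44],[],[],[],[],[nat_lit 45],[nat_lit 46],[],[]],[[nat_lit 49],[],[],[],[nat_lit 47],
    [nat_lit 48],[nat_lit 50],[nat_lit 51],[],[],[],[],[nat_lit 52],[nat_lit 53],[],[]],[[nat_lit 55,nat_lit 74],
    [nat_lit 56,nat_lit 57,nat_lit 58,nat_lit 64,nat_lit 68,nat_lit 75],[nat_lit 54],[],[nat_lit 63,nat_lit 65,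
    nat_lit 66,nat_lit 71],[nat_lit 61,nat_lit 62,nat_lit 67,nat_lit 72],[],[],[nat_lit 59],[nat_lit 60],[nat_lit 76,
    nat_lit 78],[nat_lit 77,nat_lit 79],[],[],[nat_lit 69],[nat_lit 70,nat_lit 73]],[[nat_lit 83],[nat_lit 86,
    nat_lit 88],[nat_lit 81],[nat_lit 82],[],[nat_lit 91,nat_lit 92,nat_lit 97,nat_lit 98],[],[],[nat_lit 80,
    nat_lit 95],[nat_lit 96],[nat_lit 89,nat_lit 93,nat_lit 103],[nat_lit 85,nat_lit 90,nat_lit 94,nat_lit 104,
    nat_lit 105],[nat_lit 84,nat_lit 87],[],[nat_lit 99,nat_lit 101],[nat_lit 100,nat_lit 102]],[[nat_lit 109,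
    nat_lit 110],[],[nat_lit 107],[nat_lit 108],[],[],[],[],[],[nat_lit 106],[],[nat_lit 115,nat_lit 116],
    [nat_lit 111,nat_lit 113],[nat_lit 112,nat_lit 114],[],[]],[[nat_lit 121],[],[nat_lit 119],[nat_lit 120],[],[],[],
    [],[nat_lit 117],[nat_lit 118],[nat_lit 124,nat_lit 126],[nat_lit 125,nat_lit 127],[nat_lit 122],[nat_lit 123],[],
    []],[[],[nat_lit 132,nat_lit 133,nat_lit 135,nat_lit 137,nat_lit 138],[],[],[nat_lit 134],[nat_lit 136],
    [nat_lit 128],[nat_lit 129],[],[],[],[],[nat_lit 130],[nat_lit 131],[nat_lit 139],[nat_lit 140]],[[nat_lit 142,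
    nat_lit 143],[nat_lit 148,nat_lit 149,nat_lit 150,nat_lit 151],[],[],[nat_lit 141,nat_lit 146],[nat_lit 147],
    [nat_lit 144],[],[],[],[],[],[],[nat_lit 145],[nat_lit 152],[nat_lit 153]],[[nat_lit 163],[nat_lit 154,
    nat_lit 164],[],[],[nat_lit 157,nat_lit 158,nat_lit 162,nat_lit 172,nat_lit 174],[nat_lit 173,nat_lit 175],
    [nat_lit 165,nat_lit 169],[nat_lit 166,nat_lit 170],[],[],[],[],[nat_lit 160,nat_lit 167,nat_lit 171],
    [nat_lit 161,nat_lit 168],[nat_lit 155,nat_lit 159],[nat_lit 156]],[[nat_lit 177],[],[],[],[nat_lit 182,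
    nat_lit 183,nat_lit 196],[nat_lit 195,nat_lit 197],[nat_lit 190,nat_lit 192],[],[],[],[],[],[nat_lit 186,
    nat_lit 188,nat_lit 193],[nat_lit 176,nat_lit 178,nat_lit 181,nat_lit 187,nat_lit 189,nat_lit 191,nat_lit 194],
    [nat_lit 179,nat_lit 184],[nat_lit 180,nat_lit 185]],[[nat_lit 208],[],[nat_lit 201],[nat_lit 202],[],[],
    [nat_lit 212],[nat_lit 209,nat_lit 213],[nat_lit 199],[nat_lit 200],[nat_lit 198,nat_lit 203,nat_lit 204,
    nat_lit 205,nat_lit 207,nat_lit 215,nat_lit 216],[nat_lit 206,nat_lit 217],[nat_lit 210],[nat_lit 211,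
    nat_lit 214],[],[]],[[nat_lit 224,nat_lit 225,nat_lit 230],[],[nat_lit 219],[nat_lit 220],[nat_lit 228,
    nat_lit 229],[],[nat_lit 231],[nat_lit 226,nat_lit 232],[],[nat_lit 218],[nat_lit 221,nat_lit 223,nat_lit 235],
    [nat_lit 222,nat_lit 236,nat_lit 237],[nat_lit 227,nat_lit 233],[nat_lit 234],[],[]],[[nat_lit 238],[],[],[],
    [nat_lit 244,nat_lit 246],[nat_lit 245,nat_lit 247],[],[],[nat_lit 242],[nat_lit 243],[nat_lit 239,nat_lit 240],
    [nat_lit 241],[],[],[],[]],[[],[nat_lit 248],[],[],[nat_lit 255,nat_lit 256],[nat_lit 257],[],[],[nat_lit 253],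
    [nat_lit 254],[nat_lit 249,nat_lit 251],[nat_lit 250,nat_lit 252],[],[],[],[]]]
    [[[nat_lit 0,nat_lit 0,nat_lit 0x50000000000000000000000000000000000000000000000000000000000000,
    nat_lit 0x50000000000000000000000000000000000000000000000000000000000000,nat_lit 0,nat_lit 0,nat_lit 0,nat_lit 0,
    nat_lit 0x4000000000000000000000000000000000000000000000000000000000000],
    [nat_lit 0x4000000000000000000000000000000000000000000000000000000000000,
    nat_lit 0xa0000000000000000000000000000000000000000000000000000000000000,nat_lit 0,nat_lit 0,nat_lit 0,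
    nat_lit 0x8000000000000000000000000000000000000000000000000000000000000,nat_lit 0,
    nat_lit 0x2000000000000000000000000000000000000000000000000000000000000,
    nat_lit 0x2000000000000000000000000000000000000000000000000000000000000],
    [nat_lit 0x2000000000000000000000000000000000000000000000000000000000000,
    nat_lit 0x400000000000000000000000000000000000000000000000000000000000,nat_lit 0x4000000000000,
    nat_lit 0x4000000000000,nat_lit 0x4000000000000,nat_lit 0x4000000000000,nat_lit 0x4000000000000,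
    nat_lit 0x4000000000000,nat_lit 0],[nat_lit 0,nat_lit 0,nat_lit 0,nat_lit 0,nat_lit 0,nat_lit 0,
    nat_lit 0x8000000000000,nat_lit 0x8000000000000,nat_lit 0x8000000000000],[nat_lit 0x8000000000000,
    nat_lit 0x10000000000000,nat_lit 0x10000000000000,nat_lit 0x20000000000000,nat_lit 0,nat_lit 0,nat_lit 0,
    nat_lit 0x18500,nat_lit 0x4301a],[nat_lit 0x4000,nat_lit 0x80040,nat_lit 0x50000000000000000000000000,
    nat_lit 0x50000000000000000000000000,nat_lit 0x400000000000000000000,nat_lit 0x800100000000000000000000,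
    nat_lit 0x6180000000000000000000000,nat_lit 0x28000000000000000000000000,nat_lit 0x300442000000000000000000000],
    [nat_lit 0,nat_lit 0,nat_lit 0,nat_lit 0x10000000000,nat_lit 0,nat_lit 0x80000000000,nat_lit 0x80000000000,
    nat_lit 0x80000000000,nat_lit 0x80000000000],[nat_lit 0,nat_lit 0x100000000000,nat_lit 0x100000000000,
    nat_lit 0x200000000000,nat_lit 0x200000000000,nat_lit 0x200000000000,nat_lit 0x200000000000,
    nat_lit 0x200000000000,nat_lit 0],[nat_lit 0,nat_lit 0,nat_lit 0,nat_lit 0,nat_lit 0x60000000000,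
    nat_lit 0x60000000000,nat_lit 0x400000000000,nat_lit 0x400000000000,nat_lit 0x800000000000000000000000000000]],
    [[nat_lit 0x800000000000000000000000000000,nat_lit 0x800000000000000000000000000000,
    nat_lit 0x800000000000000000000000000000,nat_lit 0x800000000000000000000000000000,
    nat_lit 0x800000000000000000000000000000,nat_lit 0,nat_lit 0,nat_lit 0,nat_lit 0],[nat_lit 0,nat_lit 0,nat_lit 0,
    nat_lit 0x1000000000000000000000000000000,nat_lit 0x1000000000000000000000000000000,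
    nat_lit 0x1000000000000000000000000000000,nat_lit 0x1000000000000000000000000000000,
    nat_lit 0x50000000000000000000000000000000,nat_lit 0],[nat_lit 0x4000000000000000000000000000000,
    nat_lit 0x4000000000000000000000000000000,nat_lit 0x400000000000000000000000000000,
    nat_lit 0x400000000000000000000000000000,nat_lit 0x2000000000000000000000000000000,
    nat_lit 0x2000000000000000000000000000000,nat_lit 0x8000000000000000000000000000000,nat_lit 0x2400000000000000000,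
    nat_lit 0x868000000000000000],[nat_lit 0x8110700000000000000,nat_lit 0x50000000000000000000,nat_lit 0,nat_lit 0,
    nat_lit 0,nat_lit 0x1000000000000000,nat_lit 0x1000000000000000,nat_lit 0x200000000000000000,
    nat_lit 0xa0000000000000000000],[nat_lit 0x200000000000000000000000000000000000000,
    nat_lit 0x200000000000000000000000000000000000000,nat_lit 0x4200000000000000000000000000000000000,
    nat_lit 0xf0000000000000000000000000000000000000,nat_lit 0,nat_lit 0,nat_lit 0,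
    nat_lit 0x100000000000000000000000000000000000000,nat_lit 0x100000000000000000000000000000000000000],[nat_lit 0,
    nat_lit 0,nat_lit 0x800000000000000000000000000,nat_lit 0x800000000000000000000000000,
    nat_lit 0x800000000000000000000000000,nat_lit 0x800000000000000000000000000,nat_lit 0,nat_lit 0,nat_lit 0],
    [nat_lit 0x1000000000000000000000000000,nat_lit 0x1000000000000000000000000000,nat_lit 0,nat_lit 0,
    nat_lit 0x6000000000000000000000000000,nat_lit 0x50000000000000000000000000000,nat_lit 0,nat_lit 0,nat_lit 0],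
    [nat_lit 0,nat_lit 0,nat_lit 0x1400000000000000000000000000000000000000000000000,nat_lit 0,nat_lit 0,
    nat_lit 0x28000000000000000000000000000000000000000000000000,
    nat_lit 0x10800000000000000000000000000000000000000000000,nat_lit 0,
    nat_lit 0x200000000000000000000000000000000000000000000],
    [nat_lit 0x4a82500000000000000000000000000000000000000000000,nat_lit 0x100000000000000000000000000000000000,
    nat_lit 0x100000000000000000000000000000000,nat_lit 0x100000000000000000000000000000000,nat_lit 0,nat_lit 0,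
    nat_lit 0,nat_lit 0x10000000000000000000000000000000000,nat_lit 0x10000000000000000000000000000000000]],
    [[nat_lit 0x80000000000000000000000000000000000,nat_lit 0x80000000000000000000000000000000000,
    nat_lit 0x80000000000000000000000000000000000,nat_lit 0x80000000000000000000000000000000000,
    nat_lit 0x80000000000000000000000000000000000,nat_lit 0x80000000000000000000000000000000000,
    nat_lit 0x80000000000000000000000000000000000,nat_lit 0,nat_lit 0],[nat_lit 0,nat_lit 0,nat_lit 0,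
    nat_lit 0x800000000000000000000000000000000,nat_lit 0x800000000000000000000000000000000,
    nat_lit 0x8000000000000000000000000000000000000000000000000000000,
    nat_lit 0x8000000000000000000000000000000000000000000000000000000,nat_lit 0,
    nat_lit 0x8000000000000000000000000000000000000000000000000000000000],
    [nat_lit 0x8000000000000000000000000000000000000000000000000000000000,
    nat_lit 0x10000000000000000000000000000000000000000000000000000000,
    nat_lit 0x10000000000000000000000000000000000000000000000000000000,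
    nat_lit 0x10000000000000000000000000000000000000000000000000000000,
    nat_lit 0x10000000000000000000000000000000000000000000000000000000,
    nat_lit 0x10000000000000000000000000000000000000000000000000000000,nat_lit 0,nat_lit 0,nat_lit 0],[nat_lit 0,
    nat_lit 0,nat_lit 0,nat_lit 0x300040000000000000000000000000000000000000000000000000000000,
    nat_lit 0x300040000000000000000000000000000000000000000000000000000000,
    nat_lit 0x300040000000000000000000000000000000000000000000000000000000,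
    nat_lit 0x4300000000000000000000000000000000000000000000000000000000,
    nat_lit 0x40000000000000000000000000000000000000000000000000000000000,
    nat_lit 0x40000000000000000000000000000000000000000000000000000000000],
    [nat_lit 0x1000000000000000000000000000000000000000,nat_lit 0x1000000000000000000000000000000000000000,
    nat_lit 0x1000000000000000000000000000000000000000,nat_lit 0x50046000000000000000000000000000000000000000,
    nat_lit 0x100400000000000000000000000000000000000000,nat_lit 0,nat_lit 0,nat_lit 0,nat_lit 0],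
    [nat_lit 0xa0000000000000000000000000000000000000000000,nat_lit 0,
    nat_lit 0x8810000000000000000000000000000000000000000,nat_lit 0x8810000000000000000000000000000000000000000,
    nat_lit 0x8810000000000000000000000000000000000000000,nat_lit 0,nat_lit 0,nat_lit 0,
    nat_lit 0x8800000000000000000000000000000000000000],[nat_lit 0,nat_lit 0,nat_lit 0,
    nat_lit 0x18000000000000000000000000000000000000000000000000000000000000000,
    nat_lit 0x100000000000000000000000000000000000000000000000000000000000000,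
    nat_lit 0x2000000000000000000000000000000000000000000000000000000000000000,
    nat_lit 0x2000000000000000000000000000000000000000000000000000000000000000,
    nat_lit 0x20000000000000000000000000000000000000000000000000000000000000000,
    nat_lit 0xa00000000000000000000000000000000000000000000000000000000000000],[nat_lit 0,nat_lit 0,nat_lit 0,
    nat_lit 0x4000000000000000000000000000000000000000000000000000000000000000,
    nat_lit 0x4000000000000000000000000000000000000000000000000000000000000000,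
    nat_lit 0x4000000000000000000000000000000000000000000000000000000000000000,
    nat_lit 0x4000000000000000000000000000000000000000000000000000000000000000,
    nat_lit 0x4000000000000000000000000000000000000000000000000000000000000000,
    nat_lit 0x4000000000000000000000000000000000000000000000000000000000000000],
    [nat_lit 0x4000000000000000000000000000000000000000000000000000000000000000,nat_lit 0,nat_lit 0,
    nat_lit 0x1400000000000000000000000000000000000000000000000000000000000000,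
    nat_lit 0x200000000000000000000000000000000000000000000000000,
    nat_lit 0x100000000000000000000000000000000000000000000000000000,
    nat_lit 0x400000000000000000000000000000000000000000000000000,
    nat_lit 0x400000000000000000000000000000000000000000000000000,
    nat_lit 0x180b840000000000000000000000000000000000000000000000000]],
    [[nat_lit 0x220000000000000000000000000000000000000000000000000000,
    nat_lit 0x40000000000000000000000000000000000000000000000000000,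
    nat_lit 0x40000000000000000000000000000000000000000000000000000,
    nat_lit 0x100000000000000000000000000000000000000000000000000,
    nat_lit 0x100000000000000000000000000000000000000000000000000,nat_lit 0x2000000000,nat_lit 0x200000000,
    nat_lit 0x200000000,nat_lit 0x8400000],[nat_lit 0x8400000,nat_lit 0x8000000000,nat_lit 0x480000000,
    nat_lit 0x901000000,nat_lit 0,nat_lit 0]]]
    [[[[nat_lit 0,nat_lit 0,nat_lit 0,nat_lit 0,nat_lit 0,nat_lit 0,nat_lit 0,nat_lit 0,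
    nat_lit 0x4000000000000000000000000000000000000000000000000000000000000],[nat_lit 0,nat_lit 0,nat_lit 0,nat_lit 0,
    nat_lit 0,nat_lit 0x8000000000000000000000000000000000000000000000000000000000000,nat_lit 0,
    nat_lit 0x2000000000000000000000000000000000000000000000000000000000000,nat_lit 0],[nat_lit 0,
    nat_lit 0x400000000000000000000000000000000000000000000000000000000000,nat_lit 0,nat_lit 0,nat_lit 0,
    nat_lit 0x4000000000000,nat_lit 0x4000000000000,nat_lit 0,nat_lit 0],[nat_lit 0,nat_lit 0,nat_lit 0,nat_lit 0,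
    nat_lit 0,nat_lit 0,nat_lit 0,nat_lit 0x8000000000000,nat_lit 0],[nat_lit 0,nat_lit 0x10000000000000,nat_lit 0,
    nat_lit 0x20000000000000,nat_lit 0,nat_lit 0,nat_lit 0,nat_lit 256,nat_lit 0x40002],[nat_lit 0x4000,
    nat_lit 0x80000,nat_lit 0x50000000000000000000000000,nat_lit 0,nat_lit 0,nat_lit 0x800000000000000000000000,
    nat_lit 0x2000000000000000000000000,nat_lit 0x20000000000000000000000000,nat_lit 0x2000000000000000000000],
    [nat_lit 0,nat_lit 0,nat_lit 0,nat_lit 0,nat_lit 0,nat_lit 0,nat_lit 0x80000000000,nat_lit 0,nat_lit 0],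
    [nat_lit 0,nat_lit 0,nat_lit 0x100000000000,nat_lit 0,nat_lit 0,nat_lit 0x200000000000,nat_lit 0,nat_lit 0,
    nat_lit 0],[nat_lit 0,nat_lit 0,nat_lit 0,nat_lit 0,nat_lit 0x40000000000,nat_lit 0x40000000000,
    nat_lit 0x400000000000,nat_lit 0,nat_lit 0]],[[nat_lit 0x800000000000000000000000000000,nat_lit 0,nat_lit 0,
    nat_lit 0,nat_lit 0,nat_lit 0,nat_lit 0,nat_lit 0,nat_lit 0],[nat_lit 0,nat_lit 0,nat_lit 0,nat_lit 0,nat_lit 0,
    nat_lit 0x1000000000000000000000000000000,nat_lit 0,nat_lit 0x10000000000000000000000000000000,nat_lit 0],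
    [nat_lit 0,nat_lit 0,nat_lit 0x400000000000000000000000000000,nat_lit 0,nat_lit 0,nat_lit 0,nat_lit 0,nat_lit 0,
    nat_lit 0x20000000000000000],[nat_lit 0x400000000000000,nat_lit 0x40000000000000000000,nat_lit 0,nat_lit 0,
    nat_lit 0,nat_lit 0,nat_lit 0x1000000000000000,nat_lit 0,nat_lit 0],[nat_lit 0,nat_lit 0,
    nat_lit 0x4200000000000000000000000000000000000,nat_lit 0x40000000000000000000000000000000000000,nat_lit 0,
    nat_lit 0,nat_lit 0,nat_lit 0x100000000000000000000000000000000000000,nat_lit 0],[nat_lit 0,nat_lit 0,nat_lit 0,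
    nat_lit 0,nat_lit 0,nat_lit 0x800000000000000000000000000,nat_lit 0,nat_lit 0,nat_lit 0],
    [nat_lit 0x1000000000000000000000000000,nat_lit 0x1000000000000000000000000000,nat_lit 0,nat_lit 0,nat_lit 0,
    nat_lit 0x40000000000000000000000000000,nat_lit 0,nat_lit 0,nat_lit 0],[nat_lit 0,nat_lit 0,
    nat_lit 0x1000000000000000000000000000000000000000000000000,nat_lit 0,nat_lit 0,
    nat_lit 0x8000000000000000000000000000000000000000000000000,
    nat_lit 0x800000000000000000000000000000000000000000000,nat_lit 0,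
    nat_lit 0x200000000000000000000000000000000000000000000],[nat_lit 0,
    nat_lit 0x100000000000000000000000000000000000,nat_lit 0,nat_lit 0x100000000000000000000000000000000,nat_lit 0,
    nat_lit 0,nat_lit 0,nat_lit 0x10000000000000000000000000000000000,nat_lit 0]],[[nat_lit 0,nat_lit 0,nat_lit 0,
    nat_lit 0,nat_lit 0,nat_lit 0,nat_lit 0,nat_lit 0,nat_lit 0],[nat_lit 0,nat_lit 0,nat_lit 0,nat_lit 0,
    nat_lit 0x800000000000000000000000000000000,nat_lit 0,
    nat_lit 0x8000000000000000000000000000000000000000000000000000000,nat_lit 0,nat_lit 0],[nat_lit 0,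
    nat_lit 0x10000000000000000000000000000000000000000000000000000000,nat_lit 0,nat_lit 0,nat_lit 0,nat_lit 0,
    nat_lit 0,nat_lit 0,nat_lit 0],[nat_lit 0,nat_lit 0,nat_lit 0,
    nat_lit 0x40000000000000000000000000000000000000000000000000000000,nat_lit 0,
    nat_lit 0x40000000000000000000000000000000000000000000000000000000,
    nat_lit 0x100000000000000000000000000000000000000000000000000000000,nat_lit 0,
    nat_lit 0x40000000000000000000000000000000000000000000000000000000000],[nat_lit 0,nat_lit 0,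
    nat_lit 0x1000000000000000000000000000000000000000,nat_lit 0x40000000000000000000000000000000000000000,
    nat_lit 0x400000000000000000000000000000000000000,nat_lit 0,nat_lit 0,nat_lit 0,nat_lit 0],[nat_lit 0,nat_lit 0,
    nat_lit 0x810000000000000000000000000000000000000000,nat_lit 0,nat_lit 0,nat_lit 0,nat_lit 0,nat_lit 0,
    nat_lit 0x800000000000000000000000000000000000000],[nat_lit 0,nat_lit 0,nat_lit 0,
    nat_lit 0x8000000000000000000000000000000000000000000000000000000000000000,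
    nat_lit 0x100000000000000000000000000000000000000000000000000000000000000,nat_lit 0,
    nat_lit 0x2000000000000000000000000000000000000000000000000000000000000000,nat_lit 0,nat_lit 0],[nat_lit 0,
    nat_lit 0,nat_lit 0,nat_lit 0,nat_lit 0,
    nat_lit 0x4000000000000000000000000000000000000000000000000000000000000000,nat_lit 0,nat_lit 0,nat_lit 0],
    [nat_lit 0,nat_lit 0,nat_lit 0,nat_lit 0,nat_lit 0x200000000000000000000000000000000000000000000000000,nat_lit 0,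
    nat_lit 0,nat_lit 0x400000000000000000000000000000000000000000000000000,
    nat_lit 0x40000000000000000000000000000000000000000000000000]],
    [[nat_lit 0x20000000000000000000000000000000000000000000000000000,nat_lit 0,nat_lit 0,nat_lit 0,nat_lit 0,
    nat_lit 0x2000000000,nat_lit 0,nat_lit 0,nat_lit 0],[nat_lit 0,nat_lit 0x8000000000,nat_lit 0x400000000,
    nat_lit 0x800000000,nat_lit 0,nat_lit 0]]]]
    (nat_lit 1) (nat_lit 2) (nat_lit 18)
    [[nat_lit 2,nat_lit 0x10002,nat_lit 0x100002,nat_lit 0x10000002,nat_lit 18,nat_lit 258,nat_lit 0x20000002,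
    nat_lit 17,nat_lit 33,nat_lit 0x100011,nat_lit 0x10000011,nat_lit 0x20000011,nat_lit 257,nat_lit 0x100101,
    nat_lit 0x10000101,nat_lit 0x1001,nat_lit 0x1101,nat_lit 0x101001,nat_lit 0x10001001,nat_lit 0x1001001,
    nat_lit 0x10001,nat_lit 0x10101,nat_lit 0x110001,nat_lit 0x10010001,nat_lit 0x100001,nat_lit 0x200001,
    nat_lit 0x1100001,nat_lit 0x11100001,nat_lit 0x10100001,nat_lit 0x10100011,nat_lit 0x20100001,nat_lit 0x1000001,
    nat_lit 0x11000001,nat_lit 0x1000101,nat_lit 0x10000001,nat_lit 0x20000001],[nat_lit 32,nat_lit 48,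
    nat_lit 0x10000020,nat_lit 0x20000020,nat_lit 272,nat_lit 0x10000110,nat_lit 0x10010,nat_lit 0x100010,
    nat_lit 0x1100010,nat_lit 0x10100010,nat_lit 0x10000010,nat_lit 0x20000010],[nat_lit 512,nat_lit 768,
    nat_lit 0x100200,nat_lit 0x10000200,nat_lit 0x1100,nat_lit 0x1001100,nat_lit 0x10100,nat_lit 0x100100,
    nat_lit 0x200100,nat_lit 0x1100100,nat_lit 0x1000100,nat_lit 0x10000100,nat_lit 0x20000100,nat_lit 0x10010100,
    nat_lit 0x11000100],[nat_lit 0x2000,nat_lit 0x11000,nat_lit 0x1011000,nat_lit 0x101000,nat_lit 0x1001000,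
    nat_lit 0x10001000,nat_lit 0x11001000],[nat_lit 0x20000,nat_lit 0x110000,nat_lit 0x1110000,nat_lit 0x1010000],
    [nat_lit 0x200000,nat_lit 0x300000,nat_lit 0x1200000,nat_lit 0x10200000,nat_lit 0x1100000,nat_lit 0x11100000,
    nat_lit 0x10100000,nat_lit 0x20100000],[nat_lit 0x2000000,nat_lit 0x11000000,nat_lit 0x21000000],
    [nat_lit 0x20000000,nat_lit 0x30000000]]
    [.c (nat_lit 1) (nat_lit 2),.c (nat_lit 0) (nat_lit 0x210003),.c (nat_lit 0) (nat_lit 0x4600005),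
    .c (nat_lit 2) (nat_lit 0x80200005),.c (nat_lit 0) (nat_lit 0x80600009),.c (nat_lit 3) (nat_lit 0x300804),
    .r (nat_lit 0xdb2) (nat_lit 2) [nat_lit 0x844000a2,nat_lit 0x1004020004],.c (nat_lit 0) (nat_lit 0x80600009),
    .c (nat_lit 0) (nat_lit 0x354700018),.c (nat_lit 5) (nat_lit 0xca380008),.c (nat_lit 0) (nat_lit 0xc0200008),
    .c (nat_lit 0) (nat_lit 0xc0a00008),.c (nat_lit 0) (nat_lit 0x80201009),.c (nat_lit 0) (nat_lit 0x4400805),
    .r (nat_lit 0xdbb) (nat_lit 8) [nat_lit 0x3194a94a104,nat_lit 0x21000000004],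
    .c (nat_lit 3) (nat_lit 0x1800302008),.c (nat_lit 2) (nat_lit 0x1100201009),.c (nat_lit 0) (nat_lit 0x1008600009),
    .c (nat_lit 5) (nat_lit 0x1000280009),.r (nat_lit 0xdbb) (nat_lit 8) [nat_lit 0x30006000104,
    nat_lit 0x21000000004],.c (nat_lit 0) (nat_lit 0x210003),.c (nat_lit 0) (nat_lit 0x220805),
    .r (nat_lit 0xdb7) (nat_lit 10) [nat_lit 0x1006900104,nat_lit 0x20004800004],.c (nat_lit 0) (nat_lit 0x18002),
    .c (nat_lit 0) (nat_lit 0x4600005),.r (nat_lit 0xc48) (nat_lit 0) [nat_lit 0x800001,nat_lit 0x10c0000041,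
    nat_lit 0x84020061,nat_lit 0x20080000061,nat_lit 129],.c (nat_lit 0) (nat_lit 0x18c0449509),
    .c (nat_lit 0) (nat_lit 0x1080441128),.c (nat_lit 0) (nat_lit 0x4200005),.c (nat_lit 3) (nat_lit 0x88202009),
    .c (nat_lit 0) (nat_lit 0x6200004),.c (nat_lit 3) (nat_lit 0x1088043128),.c (nat_lit 5) (nat_lit 0x18ca041509),
    .c (nat_lit 2) (nat_lit 0x188a048109),.c (nat_lit 0) (nat_lit 0x14600019),
    .r (nat_lit 0xdb7) (nat_lit 10) [nat_lit 0x1104000124,nat_lit 0x20004800004],.c (nat_lit 2) (nat_lit 2),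
    .c (nat_lit 0) (nat_lit 0x1cc000008),.c (nat_lit 1) (nat_lit 0x80200005),.c (nat_lit 0) (nat_lit 0x140000006),
    .c (nat_lit 0) (nat_lit 0x8000180d),.c (nat_lit 0) (nat_lit 0xc0000c04),
    .r (nat_lit 0xdbb) (nat_lit 8) [nat_lit 0x3014602a124,nat_lit 0x21000000004],
    .r (nat_lit 0xdb7) (nat_lit 10) [nat_lit 65,nat_lit 0x20004800004],.c (nat_lit 2) (nat_lit 0x1100241128),
    .c (nat_lit 0) (nat_lit 0x1c6000018),.c (nat_lit 0) (nat_lit 0xc0000006),.c (nat_lit 0) (nat_lit 0x140000006),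
    .c (nat_lit 3) (nat_lit 2),.c (nat_lit 2) (nat_lit 0x80001805),.c (nat_lit 0) (nat_lit 0x4001805),
    .c (nat_lit 5) (nat_lit 0x20803),.c (nat_lit 0) (nat_lit 0x3014003019),.c (nat_lit 5) (nat_lit 0xca340109),
    .c (nat_lit 0) (nat_lit 0x10803),.c (nat_lit 0) (nat_lit 0x4001805),
    .r (nat_lit 0xdb2) (nat_lit 2) [nat_lit 0xc0418082,nat_lit 0x1004020004],.c (nat_lit 0) (nat_lit 0x18c0348909),
    .c (nat_lit 0) (nat_lit 0x39c67c8319),.c (nat_lit 2) (nat_lit 0x80000805),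
    .r (nat_lit 0xdb2) (nat_lit 2) [nat_lit 0x804100a2,nat_lit 0x1004020004],.c (nat_lit 0) (nat_lit 0x18002),
    .r (nat_lit 0xdb7) (nat_lit 10) [nat_lit 0x30006902124,nat_lit 0x20004800004],.c (nat_lit 4) (nat_lit 2),
    .c (nat_lit 0) (nat_lit 0x1000030007),.c (nat_lit 0) (nat_lit 0x2198603338),.c (nat_lit 0) (nat_lit 0x1004000005),
    .c (nat_lit 2) (nat_lit 0x8a349509),.r (nat_lit 0xdbb) (nat_lit 8) [nat_lit 0x5194692a104,nat_lit 0x21000000004],
    .r (nat_lit 0xdb2) (nat_lit 2) [nat_lit 0x180602a124,nat_lit 0x1004020004],.c (nat_lit 5) (nat_lit 2),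
    .r (nat_lit 0xdb2) (nat_lit 2) [nat_lit 65,nat_lit 0x1004020004],
    .r (nat_lit 0xdbb) (nat_lit 8) [nat_lit 0x318c652a0a2,nat_lit 0x21000000004],
    .c (nat_lit 0) (nat_lit 0x18ca319509),.c (nat_lit 6) (nat_lit 2),
    .r (nat_lit 0xdb7) (nat_lit 10) [nat_lit 0x10c0000084,nat_lit 0x20004800004],
    .r (nat_lit 0xdb7) (nat_lit 10) [nat_lit 0x22004822504,nat_lit 0x20004800004],.c (nat_lit 5) (nat_lit 0x6020002),
    .c (nat_lit 0) (nat_lit 0x18c6349509),.c (nat_lit 0) (nat_lit 0x31866c3338),.c (nat_lit 0) (nat_lit 0x4000007),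
    .c (nat_lit 0) (nat_lit 0xa000006),.c (nat_lit 7) (nat_lit 2),.r (nat_lit 0xdbb) (nat_lit 8) [nat_lit 65,
    nat_lit 0x21000000004],.r (nat_lit 0xc48) (nat_lit 0) [nat_lit 0x800001,nat_lit 0x3314092a124,
    nat_lit 0x211108a2504,nat_lit 0xa1100822504,nat_lit 0x3190092a122],.c (nat_lit 8) (nat_lit 2),
    .c (nat_lit 6) (nat_lit 0x4000003)]]

end Pool.Agent.Lib_MP_fa6e45
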