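import Pool.Agent.Lib_MP_fa6e45.DQ8k_0d
import Pool.Agent.Lib_MP_fa6e45.RD8k_3

/-!
MP_fa6e45_co, stage 9: straight-side patterns with `8` sides, part of a certificate (generated by a program).
-/

namespace Pool.Agent.Lib_MP_fa6e45

theorem cD8k_0_k3_0 : allI cD8k_0_c (rjL dJ cD8k_0_q rD8k_3_0) 3486 = true := by
  decide +kernel

theorem cD8k_0_k3_1 : allI cD8k_0_c (rjL dJ cD8k_0_q rD8k_3_1) 3504 = true := by
  decide +kernel

theorem cD8k_0_k3_2 : allI cD8k_0_c (rjL dJ cD8k_0_q rD8k_3_2) 3524 = true := by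
  decide +kernel

theorem cD8k_0_k3_3 : allI cD8k_0_c (rjL dJ cD8k_0_q rD8k_3_3) 3525 = true := by
  decide +kernel

theorem cD8k_0_k3_4 : allI cD8k_0_c (rjL dJ cD8k_0_q rD8k_3_4) 3527 = true := by
  decide +kernel

theorem cD8k_0_k3_5 : allI cD8k_0_c (rjL dJ cD8k_0_q rD8k_3_5) 3529 = true := by
  decide +kernel

theorem cD8k_0_k3_6 : allI cD8k_0_c (rjL dJ cD8k_0_q rD8k_3_6) 3531 = true := by
  decide +kernel

theorem cD8k_0_k3_7 : allI cD8k_0_c (rjL dJ cD8k_0_q rD8k_3_7) 3533 = true := by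
  decide +kernel

theorem cD8k_0_k3_8 : allI cD8k_0_c (rjL dJ cD8k_0_q rD8k_3_8) 3535 = true := by
  decide +kernel

theorem cD8k_0_k3_9 : allI cD8k_0_c (rjL dJ cD8k_0_q rD8k_3_9) 3537 = true := by
  decide +kernel

theorem cD8k_0_k3_10 : allI cD8k_0_c (rjL dJ cD8k_0_q rD8k_3_10) 3539 = true := by
  decide +kernel

theorem cD8k_0_k3_11 : allI cD8k_0_c (rjL dJ cD8k_0_q rD8k_3_11) 3541 = true := by
  decide +kernel

theorem cD8k_0_k3_12 : allI cD8k_0_c (rjL dJ cD8k_0_q rD8k_3_12) 3542 = true := by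
  decide +kernel

theorem cD8k_0_k3_13 : allI cD8k_0_c (rjL dJ cD8k_0_q rD8k_3_13) 3543 = true := by
  decide +kernel

theorem cD8k_0_k3_14 : allI cD8k_0_c (rjL dJ cD8k_0_q rD8k_3_14) 3544 = true := by
  decide +kernel

/-- nodes -/
noncomputable def cD8k_0_n3 : List (QJ PN) :=
  rjL dJ cD8k_0_q rD8k_3_0 ++ (rjL dJ cD8k_0_q rD8k_3_1 ++ (rjL dJ cD8k_0_q rD8k_3_2 ++ (
    rjL dJ cD8k_0_q rD8k_3_3 ++ (rjL dJ cD8k_0_q rD8k_3_4 ++ (rjL dJ cD8k_0_q rD8k_3_5 ++ (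
    rjL dJ cD8k_0_q rD8k_3_6 ++ (rjL dJ cD8k_0_q rD8k_3_7 ++ (rjL dJ cD8k_0_q rD8k_3_8 ++ (
    rjL dJ cD8k_0_q rD8k_3_9 ++ (rjL dJ cD8k_0_q rD8k_3_10 ++ (rjL dJ cD8k_0_q rD8k_3_11 ++ (
    rjL dJ cD8k_0_q rD8k_3_12 ++ (rjL dJ cD8k_0_q rD8k_3_13 ++
    rjL dJ cD8k_0_q rD8k_3_14)))))))))))))

theorem cD8k_0_k3 : allI cD8k_0_c cD8k_0_n3 3486 = true := by
  refine allI_appQ (k := 18) cD8k_0_k3_0 (by decide +kernel) ?_
  refine allI_appQ (k := 20) cD8k_0_k3_1 (by decide +kernel) ?_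
  refine allI_appQ (k := 1) cD8k_0_k3_2 (by decide +kernel) ?_
  refine allI_appQ (k := 2) cD8k_0_k3_3 (by decide +kernel) ?_
  refine allI_appQ (k := 2) cD8k_0_k3_4 (by decide +kernel) ?_
  refine allI_appQ (k := 2) cD8k_0_k3_5 (by decide +kernel) ?_
  refine allI_appQ (k := 2) cD8k_0_k3_6 (by decide +kernel) ?_
  refine allI_appQ (k := 2) cD8k_0_k3_7 (by decide +kernel) ?_
  refine allI_appQ (k := 2) cD8k_0_k3_8 (by decide +kernel) ?_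
  refine allI_appQ (k := 2) cD8k_0_k3_9 (by decide +kernel) ?_
  refine allI_appQ (k := 2) cD8k_0_k3_10 (by decide +kernel) ?_
  refine allI_appQ (k := 1) cD8k_0_k3_11 (by decide +kernel) ?_
  refine allI_appQ (k := 1) cD8k_0_k3_12 (by decide +kernel) ?_
  refine allI_appQ (k := 1) cD8k_0_k3_13 (by decide +kernel) ?_
  exact cD8k_0_k3_14

theorem cD8k_0_l3 : cD8k_0_n3.length = 59 := by
  decide +kernel

end Pool.Agent.Lib_MP_fa6e45
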