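import Pool.Agent.Lib_MP_fa6e45.DQ8k_0d
import Pool.Agent.Lib_MP_fa6e45.RD8k_30

/-!
MP_fa6e45_co, stage 9: straight-side patterns with `8` sides, part of a certificate (generated by a program).
-/

namespace Pool.Agent.Lib_MP_fa6e45

theorem cD8k_0_k30_0 : allI cD8k_0_c (rjL dJ cD8k_0_q rD8k_30_0) 5190 = true := by
  decide +kernel

theorem cD8k_0_k30_1 : allI cD8k_0_c (rjL dJ cD8k_0_q rD8k_30_1) 5193 = true := by
  decide +kernel

theorem cD8k_0_k30_2 : allI cD8k_0_c (rjL dJ cD8k_0_q rD8k_30_2) 5196 = true := by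
  decide +kernel

theorem cD8k_0_k30_3 : allI cD8k_0_c (rjL dJ cD8k_0_q rD8k_30_3) 5198 = true := by
  decide +kernel

theorem cD8k_0_k30_4 : allI cD8k_0_c (rjL dJ cD8k_0_q rD8k_30_4) 5201 = true := by
  decide +kernel

theorem cD8k_0_k30_5 : allI cD8k_0_c (rjL dJ cD8k_0_q rD8k_30_5) 5203 = true := by
  decide +kernel

theorem cD8k_0_k30_6 : allI cD8k_0_c (rjL dJ cD8k_0_q rD8k_30_6) 5206 = true := by
  decide +kernel

theorem cD8k_0_k30_7 : allI cD8k_0_c (rjL dJ cD8k_0_q rD8k_30_7) 5209 = true := by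
  decide +kernel

theorem cD8k_0_k30_8 : allI cD8k_0_c (rjL dJ cD8k_0_q rD8k_30_8) 5212 = true := by
  decide +kernel

theorem cD8k_0_k30_9 : allI cD8k_0_c (rjL dJ cD8k_0_q rD8k_30_9) 5215 = true := by
  decide +kernel

theorem cD8k_0_k30_10 : allI cD8k_0_c (rjL dJ cD8k_0_q rD8k_30_10) 5218 = true := by
  decide +kernel

theorem cD8k_0_k30_11 : allI cD8k_0_c (rjL dJ cD8k_0_q rD8k_30_11) 5220 = true := by
  decide +kernel

theorem cD8k_0_k30_12 : allI cD8k_0_c (rjL dJ cD8k_0_q rD8k_30_12) 5221 = true := by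
  decide +kernel

theorem cD8k_0_k30_13 : allI cD8k_0_c (rjL dJ cD8k_0_q rD8k_30_13) 5222 = true := by
  decide +kernel

theorem cD8k_0_k30_14 : allI cD8k_0_c (rjL dJ cD8k_0_q rD8k_30_14) 5225 = true := by
  decide +kernel

theorem cD8k_0_k30_15 : allI cD8k_0_c (rjL dJ cD8k_0_q rD8k_30_15) 5228 = true := by
  decide +kernel

theorem cD8k_0_k30_16 : allI cD8k_0_c (rjL dJ cD8k_0_q rD8k_30_16) 5231 = true := by
  decide +kernel

theorem cD8k_0_k30_17 : allI cD8k_0_c (rjL dJ cD8k_0_q rD8k_30_17) 5234 = true := by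
  decide +kernel

theorem cD8k_0_k30_18 : allI cD8k_0_c (rjL dJ cD8k_0_q rD8k_30_18) 5235 = true := by
  decide +kernel

theorem cD8k_0_k30_19 : allI cD8k_0_c (rjL dJ cD8k_0_q rD8k_30_19) 5236 = true := by
  decide +kernel

theorem cD8k_0_k30_20 : allI cD8k_0_c (rjL dJ cD8k_0_q rD8k_30_20) 5239 = true := by
  decide +kernel

theorem cD8k_0_k30_21 : allI cD8k_0_c (rjL dJ cD8k_0_q rD8k_30_21) 5241 = true := by
  decide +kernel

theorem cD8k_0_k30_22 : allI cD8k_0_c (rjL dJ cD8k_0_q rD8k_30_22) 5244 = true := by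
  decide +kernel

theorem cD8k_0_k30_23 : allI cD8k_0_c (rjL dJ cD8k_0_q rD8k_30_23) 5246 = true := by
  decide +kernel

theorem cD8k_0_k30_24 : allI cD8k_0_c (rjL dJ cD8k_0_q rD8k_30_24) 5248 = true := by
  decide +kernel

theorem cD8k_0_k30_25 : allI cD8k_0_c (rjL dJ cD8k_0_q rD8k_30_25) 5251 = true := by
  decide +kernel

theorem cD8k_0_k30_26 : allI cD8k_0_c (rjL dJ cD8k_0_q rD8k_30_26) 5253 = true := by
  decide +kernel

theorem cD8k_0_k30_27 : allI cD8k_0_c (rjL dJ cD8k_0_q rD8k_30_27) 5256 = true := by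
  decide +kernel

theorem cD8k_0_k30_28 : allI cD8k_0_c (rjL dJ cD8k_0_q rD8k_30_28) 5258 = true := by
  decide +kernel

theorem cD8k_0_k30_29 : allI cD8k_0_c (rjL dJ cD8k_0_q rD8k_30_29) 5260 = true := by
  decide +kernel

theorem cD8k_0_k30_30 : allI cD8k_0_c (rjL dJ cD8k_0_q rD8k_30_30) 5262 = true := by
  decide +kernel

theorem cD8k_0_k30_31 : allI cD8k_0_c (rjL dJ cD8k_0_q rD8k_30_31) 5265 = true := by
  decide +kernel

theorem cD8k_0_k30_32 : allI cD8k_0_c (rjL dJ cD8k_0_q rD8k_30_32) 5266 = true := by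
  decide +kernel

/-- nodes -/
noncomputable def cD8k_0_n30 : List (QJ PN) :=
  rjL dJ cD8k_0_q rD8k_30_0 ++ (rjL dJ cD8k_0_q rD8k_30_1 ++ (rjL dJ cD8k_0_q rD8k_30_2 ++ (
    rjL dJ cD8k_0_q rD8k_30_3 ++ (rjL dJ cD8k_0_q rD8k_30_4 ++ (rjL dJ cD8k_0_q rD8k_30_5 ++ (
    rjL dJ cD8k_0_q rD8k_30_6 ++ (rjL dJ cD8k_0_q rD8k_30_7 ++ (rjL dJ cD8k_0_q rD8k_30_8 ++ (
    rjL dJ cD8k_0_q rD8k_30_9 ++ (rjL dJ cD8k_0_q rD8k_30_10 ++ (rjL dJ cD8k_0_q rD8k_30_11 ++ (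
    rjL dJ cD8k_0_q rD8k_30_12 ++ (rjL dJ cD8k_0_q rD8k_30_13 ++ (rjL dJ cD8k_0_q rD8k_30_14 ++ (
    rjL dJ cD8k_0_q rD8k_30_15 ++ (rjL dJ cD8k_0_q rD8k_30_16 ++ (rjL dJ cD8k_0_q rD8k_30_17 ++ (
    rjL dJ cD8k_0_q rD8k_30_18 ++ (rjL dJ cD8k_0_q rD8k_30_19 ++ (rjL dJ cD8k_0_q rD8k_30_20 ++ (
    rjL dJ cD8k_0_q rD8k_30_21 ++ (rjL dJ cD8k_0_q rD8k_30_22 ++ (rjL dJ cD8k_0_q rD8k_30_23 ++ (
    rjL dJ cD8k_0_q rD8k_30_24 ++ (rjL dJ cD8k_0_q rD8k_30_25 ++ (rjL dJ cD8k_0_q rD8k_30_26 ++ (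
    rjL dJ cD8k_0_q rD8k_30_27 ++ (rjL dJ cD8k_0_q rD8k_30_28 ++ (rjL dJ cD8k_0_q rD8k_30_29 ++ (
    rjL dJ cD8k_0_q rD8k_30_30 ++ (rjL dJ cD8k_0_q rD8k_30_31 ++
    rjL dJ cD8k_0_q rD8k_30_32)))))))))))))))))))))))))))))))

theorem cD8k_0_k30 : allI cD8k_0_c cD8k_0_n30 5190 = true := by
  refine allI_appQ (k := 3) cD8k_0_k30_0 (by decide +kernel) ?_
  refine allI_appQ (k := 3) cD8k_0_k30_1 (by decide +kernel) ?_
  refine allI_appQ (k := 2) cD8k_0_k30_2 (by decide +kernel) ?_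
  refine allI_appQ (k := 3) cD8k_0_k30_3 (by decide +kernel) ?_
  refine allI_appQ (k := 2) cD8k_0_k30_4 (by decide +kernel) ?_
  refine allI_appQ (k := 3) cD8k_0_k30_5 (by decide +kernel) ?_
  refine allI_appQ (k := 3) cD8k_0_k30_6 (by decide +kernel) ?_
  refine allI_appQ (k := 3) cD8k_0_k30_7 (by decide +kernel) ?_
  refine allI_appQ (k := 3) cD8k_0_k30_8 (by decide +kernel) ?_
  refine allI_appQ (k := 3) cD8k_0_k30_9 (by decide +kernel) ?_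
  refine allI_appQ (k := 2) cD8k_0_k30_10 (by decide +kernel) ?_
  refine allI_appQ (k := 1) cD8k_0_k30_11 (by decide +kernel) ?_
  refine allI_appQ (k := 1) cD8k_0_k30_12 (by decide +kernel) ?_
  refine allI_appQ (k := 3) cD8k_0_k30_13 (by decide +kernel) ?_
  refine allI_appQ (k := 3) cD8k_0_k30_14 (by decide +kernel) ?_
  refine allI_appQ (k := 3) cD8k_0_k30_15 (by decide +kernel) ?_
  refine allI_appQ (k := 3) cD8k_0_k30_16 (by decide +kernel) ?_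
  refine allI_appQ (k := 1) cD8k_0_k30_17 (by decide +kernel) ?_
  refine allI_appQ (k := 1) cD8k_0_k30_18 (by decide +kernel) ?_
  refine allI_appQ (k := 3) cD8k_0_k30_19 (by decide +kernel) ?_
  refine allI_appQ (k := 2) cD8k_0_k30_20 (by decide +kernel) ?_
  refine allI_appQ (k := 3) cD8k_0_k30_21 (by decide +kernel) ?_
  refine allI_appQ (k := 2) cD8k_0_k30_22 (by decide +kernel) ?_
  refine allI_appQ (k := 2) cD8k_0_k30_23 (by decide +kernel) ?_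
  refine allI_appQ (k := 3) cD8k_0_k30_24 (by decide +kernel) ?_
  refine allI_appQ (k := 2) cD8k_0_k30_25 (by decide +kernel) ?_
  refine allI_appQ (k := 3) cD8k_0_k30_26 (by decide +kernel) ?_
  refine allI_appQ (k := 2) cD8k_0_k30_27 (by decide +kernel) ?_
  refine allI_appQ (k := 2) cD8k_0_k30_28 (by decide +kernel) ?_
  refine allI_appQ (k := 2) cD8k_0_k30_29 (by decide +kernel) ?_
  refine allI_appQ (k := 3) cD8k_0_k30_30 (by decide +kernel) ?_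
  refine allI_appQ (k := 1) cD8k_0_k30_31 (by decide +kernel) ?_
  exact cD8k_0_k30_32

theorem cD8k_0_l30 : cD8k_0_n30.length = 77 := by
  decide +kernel

end Pool.Agent.Lib_MP_fa6e45
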