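import Pool.Agent.Lib_MP_fa6e45.DQ8k_0d
import Pool.Agent.Lib_MP_fa6e45.RD8k_31

/-!
MP_fa6e45_co, stage 9: straight-side patterns with `8` sides, part of a certificate (generated by a program).
-/

namespace Pool.Agent.Lib_MP_fa6e45

theorem cD8k_0_k31_0 : allI cD8k_0_c (rjL dJ cD8k_0_q rD8k_31_0) 5267 = true := by
  decide +kernel

theorem cD8k_0_k31_1 : allI cD8k_0_c (rjL dJ cD8k_0_q rD8k_31_1) 5269 = true := by
  decide +kernel

theorem cD8k_0_k31_2 : allI cD8k_0_c (rjL dJ cD8k_0_q rD8k_31_2) 5271 = true := by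
  decide +kernel

theorem cD8k_0_k31_3 : allI cD8k_0_c (rjL dJ cD8k_0_q rD8k_31_3) 5273 = true := by
  decide +kernel

theorem cD8k_0_k31_4 : allI cD8k_0_c (rjL dJ cD8k_0_q rD8k_31_4) 5276 = true := by
  decide +kernel

theorem cD8k_0_k31_5 : allI cD8k_0_c (rjL dJ cD8k_0_q rD8k_31_5) 5279 = true := by
  decide +kernel

theorem cD8k_0_k31_6 : allI cD8k_0_c (rjL dJ cD8k_0_q rD8k_31_6) 5281 = true := by
  decide +kernel

theorem cD8k_0_k31_7 : allI cD8k_0_c (rjL dJ cD8k_0_q rD8k_31_7) 5282 = true := by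
  decide +kernel

theorem cD8k_0_k31_8 : allI cD8k_0_c (rjL dJ cD8k_0_q rD8k_31_8) 5283 = true := by
  decide +kernel

theorem cD8k_0_k31_9 : allI cD8k_0_c (rjL dJ cD8k_0_q rD8k_31_9) 5285 = true := by
  decide +kernel

theorem cD8k_0_k31_10 : allI cD8k_0_c (rjL dJ cD8k_0_q rD8k_31_10) 5286 = true := by
  decide +kernel

theorem cD8k_0_k31_11 : allI cD8k_0_c (rjL dJ cD8k_0_q rD8k_31_11) 5288 = true := by
  decide +kernel

theorem cD8k_0_k31_12 : allI cD8k_0_c (rjL dJ cD8k_0_q rD8k_31_12) 5291 = true := by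
  decide +kernel

theorem cD8k_0_k31_13 : allI cD8k_0_c (rjL dJ cD8k_0_q rD8k_31_13) 5294 = true := by
  decide +kernel

theorem cD8k_0_k31_14 : allI cD8k_0_c (rjL dJ cD8k_0_q rD8k_31_14) 5296 = true := by
  decide +kernel

theorem cD8k_0_k31_15 : allI cD8k_0_c (rjL dJ cD8k_0_q rD8k_31_15) 5299 = true := by
  decide +kernel

theorem cD8k_0_k31_16 : allI cD8k_0_c (rjL dJ cD8k_0_q rD8k_31_16) 5301 = true := by
  decide +kernel

theorem cD8k_0_k31_17 : allI cD8k_0_c (rjL dJ cD8k_0_q rD8k_31_17) 5303 = true := by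
  decide +kernel

theorem cD8k_0_k31_18 : allI cD8k_0_c (rjL dJ cD8k_0_q rD8k_31_18) 5305 = true := by
  decide +kernel

theorem cD8k_0_k31_19 : allI cD8k_0_c (rjL dJ cD8k_0_q rD8k_31_19) 5308 = true := by
  decide +kernel

theorem cD8k_0_k31_20 : allI cD8k_0_c (rjL dJ cD8k_0_q rD8k_31_20) 5311 = true := by
  decide +kernel

theorem cD8k_0_k31_21 : allI cD8k_0_c (rjL dJ cD8k_0_q rD8k_31_21) 5314 = true := by
  decide +kernel

theorem cD8k_0_k31_22 : allI cD8k_0_c (rjL dJ cD8k_0_q rD8k_31_22) 5317 = true := by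
  decide +kernel

theorem cD8k_0_k31_23 : allI cD8k_0_c (rjL dJ cD8k_0_q rD8k_31_23) 5319 = true := by
  decide +kernel

theorem cD8k_0_k31_24 : allI cD8k_0_c (rjL dJ cD8k_0_q rD8k_31_24) 5322 = true := by
  decide +kernel

theorem cD8k_0_k31_25 : allI cD8k_0_c (rjL dJ cD8k_0_q rD8k_31_25) 5325 = true := by
  decide +kernel

theorem cD8k_0_k31_26 : allI cD8k_0_c (rjL dJ cD8k_0_q rD8k_31_26) 5328 = true := by
  decide +kernel

theorem cD8k_0_k31_27 : allI cD8k_0_c (rjL dJ cD8k_0_q rD8k_31_27) 5330 = true := by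
  decide +kernel

theorem cD8k_0_k31_28 : allI cD8k_0_c (rjL dJ cD8k_0_q rD8k_31_28) 5333 = true := by
  decide +kernel

theorem cD8k_0_k31_29 : allI cD8k_0_c (rjL dJ cD8k_0_q rD8k_31_29) 5335 = true := by
  decide +kernel

theorem cD8k_0_k31_30 : allI cD8k_0_c (rjL dJ cD8k_0_q rD8k_31_30) 5337 = true := by
  decide +kernel

theorem cD8k_0_k31_31 : allI cD8k_0_c (rjL dJ cD8k_0_q rD8k_31_31) 5339 = true := by
  decide +kernel

theorem cD8k_0_k31_32 : allI cD8k_0_c (rjL dJ cD8k_0_q rD8k_31_32) 5342 = true := by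
  decide +kernel

theorem cD8k_0_k31_33 : allI cD8k_0_c (rjL dJ cD8k_0_q rD8k_31_33) 5345 = true := by
  decide +kernel

theorem cD8k_0_k31_34 : allI cD8k_0_c (rjL dJ cD8k_0_q rD8k_31_34) 5347 = true := by
  decide +kernel

theorem cD8k_0_k31_35 : allI cD8k_0_c (rjL dJ cD8k_0_q rD8k_31_35) 5349 = true := by
  decide +kernel

theorem cD8k_0_k31_36 : allI cD8k_0_c (rjL dJ cD8k_0_q rD8k_31_36) 5351 = true := by
  decide +kernel

theorem cD8k_0_k31_37 : allI cD8k_0_c (rjL dJ cD8k_0_q rD8k_31_37) 5354 = true := by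
  decide +kernel

theorem cD8k_0_k31_38 : allI cD8k_0_c (rjL dJ cD8k_0_q rD8k_31_38) 5356 = true := by
  decide +kernel

theorem cD8k_0_k31_39 : allI cD8k_0_c (rjL dJ cD8k_0_q rD8k_31_39) 5359 = true := by
  decide +kernel

/-- nodes -/
noncomputable def cD8k_0_n31 : List (QJ PN) :=
  rjL dJ cD8k_0_q rD8k_31_0 ++ (rjL dJ cD8k_0_q rD8k_31_1 ++ (rjL dJ cD8k_0_q rD8k_31_2 ++ (
    rjL dJ cD8k_0_q rD8k_31_3 ++ (rjL dJ cD8k_0_q rD8k_31_4 ++ (rjL dJ cD8k_0_q rD8k_31_5 ++ (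
    rjL dJ cD8k_0_q rD8k_31_6 ++ (rjL dJ cD8k_0_q rD8k_31_7 ++ (rjL dJ cD8k_0_q rD8k_31_8 ++ (
    rjL dJ cD8k_0_q rD8k_31_9 ++ (rjL dJ cD8k_0_q rD8k_31_10 ++ (rjL dJ cD8k_0_q rD8k_31_11 ++ (
    rjL dJ cD8k_0_q rD8k_31_12 ++ (rjL dJ cD8k_0_q rD8k_31_13 ++ (rjL dJ cD8k_0_q rD8k_31_14 ++ (
    rjL dJ cD8k_0_q rD8k_31_15 ++ (rjL dJ cD8k_0_q rD8k_31_16 ++ (rjL dJ cD8k_0_q rD8k_31_17 ++ (
    rjL dJ cD8k_0_q rD8k_31_18 ++ (rjL dJ cD8k_0_q rD8k_31_19 ++ (rjL dJ cD8k_0_q rD8k_31_20 ++ (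
    rjL dJ cD8k_0_q rD8k_31_21 ++ (rjL dJ cD8k_0_q rD8k_31_22 ++ (rjL dJ cD8k_0_q rD8k_31_23 ++ (
    rjL dJ cD8k_0_q rD8k_31_24 ++ (rjL dJ cD8k_0_q rD8k_31_25 ++ (rjL dJ cD8k_0_q rD8k_31_26 ++ (
    rjL dJ cD8k_0_q rD8k_31_27 ++ (rjL dJ cD8k_0_q rD8k_31_28 ++ (rjL dJ cD8k_0_q rD8k_31_29 ++ (
    rjL dJ cD8k_0_q rD8k_31_30 ++ (rjL dJ cD8k_0_q rD8k_31_31 ++ (rjL dJ cD8k_0_q rD8k_31_32 ++ (
    rjL dJ cD8k_0_q rD8k_31_33 ++ (rjL dJ cD8k_0_q rD8k_31_34 ++ (rjL dJ cD8k_0_q rD8k_31_35 ++ (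
    rjL dJ cD8k_0_q rD8k_31_36 ++ (rjL dJ cD8k_0_q rD8k_31_37 ++ (rjL dJ cD8k_0_q rD8k_31_38 ++
    rjL dJ cD8k_0_q rD8k_31_39))))))))))))))))))))))))))))))))))))))

theorem cD8k_0_k31 : allI cD8k_0_c cD8k_0_n31 5267 = true := by
  refine allI_appQ (k := 2) cD8k_0_k31_0 (by decide +kernel) ?_
  refine allI_appQ (k := 2) cD8k_0_k31_1 (by decide +kernel) ?_
  refine allI_appQ (k := 2) cD8k_0_k31_2 (by decide +kernel) ?_
  refine allI_appQ (k := 3) cD8k_0_k31_3 (by decide +kernel) ?_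
  refine allI_appQ (k := 3) cD8k_0_k31_4 (by decide +kernel) ?_
  refine allI_appQ (k := 2) cD8k_0_k31_5 (by decide +kernel) ?_
  refine allI_appQ (k := 1) cD8k_0_k31_6 (by decide +kernel) ?_
  refine allI_appQ (k := 1) cD8k_0_k31_7 (by decide +kernel) ?_
  refine allI_appQ (k := 2) cD8k_0_k31_8 (by decide +kernel) ?_
  refine allI_appQ (k := 1) cD8k_0_k31_9 (by decide +kernel) ?_
  refine allI_appQ (k := 2) cD8k_0_k31_10 (by decide +kernel) ?_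
  refine allI_appQ (k := 3) cD8k_0_k31_11 (by decide +kernel) ?_
  refine allI_appQ (k := 3) cD8k_0_k31_12 (by decide +kernel) ?_
  refine allI_appQ (k := 2) cD8k_0_k31_13 (by decide +kernel) ?_
  refine allI_appQ (k := 3) cD8k_0_k31_14 (by decide +kernel) ?_
  refine allI_appQ (k := 2) cD8k_0_k31_15 (by decide +kernel) ?_
  refine allI_appQ (k := 2) cD8k_0_k31_16 (by decide +kernel) ?_
  refine allI_appQ (k := 2) cD8k_0_k31_17 (by decide +kernel) ?_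
  refine allI_appQ (k := 3) cD8k_0_k31_18 (by decide +kernel) ?_
  refine allI_appQ (k := 3) cD8k_0_k31_19 (by decide +kernel) ?_
  refine allI_appQ (k := 3) cD8k_0_k31_20 (by decide +kernel) ?_
  refine allI_appQ (k := 3) cD8k_0_k31_21 (by decide +kernel) ?_
  refine allI_appQ (k := 2) cD8k_0_k31_22 (by decide +kernel) ?_
  refine allI_appQ (k := 3) cD8k_0_k31_23 (by decide +kernel) ?_
  refine allI_appQ (k := 3) cD8k_0_k31_24 (by decide +kernel) ?_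
  refine allI_appQ (k := 3) cD8k_0_k31_25 (by decide +kernel) ?_
  refine allI_appQ (k := 2) cD8k_0_k31_26 (by decide +kernel) ?_
  refine allI_appQ (k := 3) cD8k_0_k31_27 (by decide +kernel) ?_
  refine allI_appQ (k := 2) cD8k_0_k31_28 (by decide +kernel) ?_
  refine allI_appQ (k := 2) cD8k_0_k31_29 (by decide +kernel) ?_
  refine allI_appQ (k := 2) cD8k_0_k31_30 (by decide +kernel) ?_
  refine allI_appQ (k := 3) cD8k_0_k31_31 (by decide +kernel) ?_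
  refine allI_appQ (k := 3) cD8k_0_k31_32 (by decide +kernel) ?_
  refine allI_appQ (k := 2) cD8k_0_k31_33 (by decide +kernel) ?_
  refine allI_appQ (k := 2) cD8k_0_k31_34 (by decide +kernel) ?_
  refine allI_appQ (k := 2) cD8k_0_k31_35 (by decide +kernel) ?_
  refine allI_appQ (k := 3) cD8k_0_k31_36 (by decide +kernel) ?_
  refine allI_appQ (k := 2) cD8k_0_k31_37 (by decide +kernel) ?_
  refine allI_appQ (k := 3) cD8k_0_k31_38 (by decide +kernel) ?_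
  exact cD8k_0_k31_39

theorem cD8k_0_l31 : cD8k_0_n31.length = 94 := by
  decide +kernel

end Pool.Agent.Lib_MP_fa6e45
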