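import Pool.Agent.Lib_MP_fa6e45.DQ8k_0d
import Pool.Agent.Lib_MP_fa6e45.RD8k_32

/-!
MP_fa6e45_co, stage 9: straight-side patterns with `8` sides, part of a certificate (generated by a program).
-/

namespace Pool.Agent.Lib_MP_fa6e45

theorem cD8k_0_k32_0 : allI cD8k_0_c (rjL dJ cD8k_0_q rD8k_32_0) 5361 = true := by
  decide +kernel

theorem cD8k_0_k32_1 : allI cD8k_0_c (rjL dJ cD8k_0_q rD8k_32_1) 5363 = true := by
  decide +kernel

theorem cD8k_0_k32_2 : allI cD8k_0_c (rjL dJ cD8k_0_q rD8k_32_2) 5366 = true := by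
  decide +kernel

theorem cD8k_0_k32_3 : allI cD8k_0_c (rjL dJ cD8k_0_q rD8k_32_3) 5368 = true := by
  decide +kernel

theorem cD8k_0_k32_4 : allI cD8k_0_c (rjL dJ cD8k_0_q rD8k_32_4) 5371 = true := by
  decide +kernel

theorem cD8k_0_k32_5 : allI cD8k_0_c (rjL dJ cD8k_0_q rD8k_32_5) 5374 = true := by
  decide +kernel

theorem cD8k_0_k32_6 : allI cD8k_0_c (rjL dJ cD8k_0_q rD8k_32_6) 5377 = true := by
  decide +kernel

theorem cD8k_0_k32_7 : allI cD8k_0_c (rjL dJ cD8k_0_q rD8k_32_7) 5380 = true := by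
  decide +kernel

theorem cD8k_0_k32_8 : allI cD8k_0_c (rjL dJ cD8k_0_q rD8k_32_8) 5382 = true := by
  decide +kernel

theorem cD8k_0_k32_9 : allI cD8k_0_c (rjL dJ cD8k_0_q rD8k_32_9) 5384 = true := by
  decide +kernel

theorem cD8k_0_k32_10 : allI cD8k_0_c (rjL dJ cD8k_0_q rD8k_32_10) 5386 = true := by
  decide +kernel

theorem cD8k_0_k32_11 : allI cD8k_0_c (rjL dJ cD8k_0_q rD8k_32_11) 5387 = true := by
  decide +kernel

theorem cD8k_0_k32_12 : allI cD8k_0_c (rjL dJ cD8k_0_q rD8k_32_12) 5388 = true := by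
  decide +kernel

theorem cD8k_0_k32_13 : allI cD8k_0_c (rjL dJ cD8k_0_q rD8k_32_13) 5390 = true := by
  decide +kernel

theorem cD8k_0_k32_14 : allI cD8k_0_c (rjL dJ cD8k_0_q rD8k_32_14) 5392 = true := by
  decide +kernel

theorem cD8k_0_k32_15 : allI cD8k_0_c (rjL dJ cD8k_0_q rD8k_32_15) 5395 = true := by
  decide +kernel

theorem cD8k_0_k32_16 : allI cD8k_0_c (rjL dJ cD8k_0_q rD8k_32_16) 5398 = true := by
  decide +kernel

theorem cD8k_0_k32_17 : allI cD8k_0_c (rjL dJ cD8k_0_q rD8k_32_17) 5400 = true := by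
  decide +kernel

theorem cD8k_0_k32_18 : allI cD8k_0_c (rjL dJ cD8k_0_q rD8k_32_18) 5402 = true := by
  decide +kernel

theorem cD8k_0_k32_19 : allI cD8k_0_c (rjL dJ cD8k_0_q rD8k_32_19) 5404 = true := by
  decide +kernel

theorem cD8k_0_k32_20 : allI cD8k_0_c (rjL dJ cD8k_0_q rD8k_32_20) 5405 = true := by
  decide +kernel

theorem cD8k_0_k32_21 : allI cD8k_0_c (rjL dJ cD8k_0_q rD8k_32_21) 5407 = true := by
  decide +kernel

theorem cD8k_0_k32_22 : allI cD8k_0_c (rjL dJ cD8k_0_q rD8k_32_22) 5409 = true := by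
  decide +kernel

theorem cD8k_0_k32_23 : allI cD8k_0_c (rjL dJ cD8k_0_q rD8k_32_23) 5411 = true := by
  decide +kernel

theorem cD8k_0_k32_24 : allI cD8k_0_c (rjL dJ cD8k_0_q rD8k_32_24) 5412 = true := by
  decide +kernel

theorem cD8k_0_k32_25 : allI cD8k_0_c (rjL dJ cD8k_0_q rD8k_32_25) 5413 = true := by
  decide +kernel

theorem cD8k_0_k32_26 : allI cD8k_0_c (rjL dJ cD8k_0_q rD8k_32_26) 5414 = true := by
  decide +kernel

theorem cD8k_0_k32_27 : allI cD8k_0_c (rjL dJ cD8k_0_q rD8k_32_27) 5415 = true := by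
  decide +kernel

theorem cD8k_0_k32_28 : allI cD8k_0_c (rjL dJ cD8k_0_q rD8k_32_28) 5417 = true := by
  decide +kernel

theorem cD8k_0_k32_29 : allI cD8k_0_c (rjL dJ cD8k_0_q rD8k_32_29) 5419 = true := by
  decide +kernel

theorem cD8k_0_k32_30 : allI cD8k_0_c (rjL dJ cD8k_0_q rD8k_32_30) 5421 = true := by
  decide +kernel

theorem cD8k_0_k32_31 : allI cD8k_0_c (rjL dJ cD8k_0_q rD8k_32_31) 5423 = true := by
  decide +kernel

theorem cD8k_0_k32_32 : allI cD8k_0_c (rjL dJ cD8k_0_q rD8k_32_32) 5426 = true := by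
  decide +kernel

theorem cD8k_0_k32_33 : allI cD8k_0_c (rjL dJ cD8k_0_q rD8k_32_33) 5429 = true := by
  decide +kernel

theorem cD8k_0_k32_34 : allI cD8k_0_c (rjL dJ cD8k_0_q rD8k_32_34) 5432 = true := by
  decide +kernel

theorem cD8k_0_k32_35 : allI cD8k_0_c (rjL dJ cD8k_0_q rD8k_32_35) 5433 = true := by
  decide +kernel

/-- nodes -/
noncomputable def cD8k_0_n32 : List (QJ PN) :=
  rjL dJ cD8k_0_q rD8k_32_0 ++ (rjL dJ cD8k_0_q rD8k_32_1 ++ (rjL dJ cD8k_0_q rD8k_32_2 ++ (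
    rjL dJ cD8k_0_q rD8k_32_3 ++ (rjL dJ cD8k_0_q rD8k_32_4 ++ (rjL dJ cD8k_0_q rD8k_32_5 ++ (
    rjL dJ cD8k_0_q rD8k_32_6 ++ (rjL dJ cD8k_0_q rD8k_32_7 ++ (rjL dJ cD8k_0_q rD8k_32_8 ++ (
    rjL dJ cD8k_0_q rD8k_32_9 ++ (rjL dJ cD8k_0_q rD8k_32_10 ++ (rjL dJ cD8k_0_q rD8k_32_11 ++ (
    rjL dJ cD8k_0_q rD8k_32_12 ++ (rjL dJ cD8k_0_q rD8k_32_13 ++ (rjL dJ cD8k_0_q rD8k_32_14 ++ (
    rjL dJ cD8k_0_q rD8k_32_15 ++ (rjL dJ cD8k_0_q rD8k_32_16 ++ (rjL dJ cD8k_0_q rD8k_32_17 ++ (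
    rjL dJ cD8k_0_q rD8k_32_18 ++ (rjL dJ cD8k_0_q rD8k_32_19 ++ (rjL dJ cD8k_0_q rD8k_32_20 ++ (
    rjL dJ cD8k_0_q rD8k_32_21 ++ (rjL dJ cD8k_0_q rD8k_32_22 ++ (rjL dJ cD8k_0_q rD8k_32_23 ++ (
    rjL dJ cD8k_0_q rD8k_32_24 ++ (rjL dJ cD8k_0_q rD8k_32_25 ++ (rjL dJ cD8k_0_q rD8k_32_26 ++ (
    rjL dJ cD8k_0_q rD8k_32_27 ++ (rjL dJ cD8k_0_q rD8k_32_28 ++ (rjL dJ cD8k_0_q rD8k_32_29 ++ (
    rjL dJ cD8k_0_q rD8k_32_30 ++ (rjL dJ cD8k_0_q rD8k_32_31 ++ (rjL dJ cD8k_0_q rD8k_32_32 ++ (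
    rjL dJ cD8k_0_q rD8k_32_33 ++ (rjL dJ cD8k_0_q rD8k_32_34 ++
    rjL dJ cD8k_0_q rD8k_32_35))))))))))))))))))))))))))))))))))

theorem cD8k_0_k32 : allI cD8k_0_c cD8k_0_n32 5361 = true := by
  refine allI_appQ (k := 2) cD8k_0_k32_0 (by decide +kernel) ?_
  refine allI_appQ (k := 3) cD8k_0_k32_1 (by decide +kernel) ?_
  refine allI_appQ (k := 2) cD8k_0_k32_2 (by decide +kernel) ?_
  refine allI_appQ (k := 3) cD8k_0_k32_3 (by decide +kernel) ?_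
  refine allI_appQ (k := 3) cD8k_0_k32_4 (by decide +kernel) ?_
  refine allI_appQ (k := 3) cD8k_0_k32_5 (by decide +kernel) ?_
  refine allI_appQ (k := 3) cD8k_0_k32_6 (by decide +kernel) ?_
  refine allI_appQ (k := 2) cD8k_0_k32_7 (by decide +kernel) ?_
  refine allI_appQ (k := 2) cD8k_0_k32_8 (by decide +kernel) ?_
  refine allI_appQ (k := 2) cD8k_0_k32_9 (by decide +kernel) ?_
  refine allI_appQ (k := 1) cD8k_0_k32_10 (by decide +kernel) ?_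
  refine allI_appQ (k := 1) cD8k_0_k32_11 (by decide +kernel) ?_
  refine allI_appQ (k := 2) cD8k_0_k32_12 (by decide +kernel) ?_
  refine allI_appQ (k := 2) cD8k_0_k32_13 (by decide +kernel) ?_
  refine allI_appQ (k := 3) cD8k_0_k32_14 (by decide +kernel) ?_
  refine allI_appQ (k := 3) cD8k_0_k32_15 (by decide +kernel) ?_
  refine allI_appQ (k := 2) cD8k_0_k32_16 (by decide +kernel) ?_
  refine allI_appQ (k := 2) cD8k_0_k32_17 (by decide +kernel) ?_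
  refine allI_appQ (k := 2) cD8k_0_k32_18 (by decide +kernel) ?_
  refine allI_appQ (k := 1) cD8k_0_k32_19 (by decide +kernel) ?_
  refine allI_appQ (k := 2) cD8k_0_k32_20 (by decide +kernel) ?_
  refine allI_appQ (k := 2) cD8k_0_k32_21 (by decide +kernel) ?_
  refine allI_appQ (k := 2) cD8k_0_k32_22 (by decide +kernel) ?_
  refine allI_appQ (k := 1) cD8k_0_k32_23 (by decide +kernel) ?_
  refine allI_appQ (k := 1) cD8k_0_k32_24 (by decide +kernel) ?_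
  refine allI_appQ (k := 1) cD8k_0_k32_25 (by decide +kernel) ?_
  refine allI_appQ (k := 1) cD8k_0_k32_26 (by decide +kernel) ?_
  refine allI_appQ (k := 2) cD8k_0_k32_27 (by decide +kernel) ?_
  refine allI_appQ (k := 2) cD8k_0_k32_28 (by decide +kernel) ?_
  refine allI_appQ (k := 2) cD8k_0_k32_29 (by decide +kernel) ?_
  refine allI_appQ (k := 2) cD8k_0_k32_30 (by decide +kernel) ?_
  refine allI_appQ (k := 3) cD8k_0_k32_31 (by decide +kernel) ?_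
  refine allI_appQ (k := 3) cD8k_0_k32_32 (by decide +kernel) ?_
  refine allI_appQ (k := 3) cD8k_0_k32_33 (by decide +kernel) ?_
  refine allI_appQ (k := 1) cD8k_0_k32_34 (by decide +kernel) ?_
  exact cD8k_0_k32_35

theorem cD8k_0_l32 : cD8k_0_n32.length = 73 := by
  decide +kernel

end Pool.Agent.Lib_MP_fa6e45
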