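import Pool.Agent.Lib_MP_fa6e45.DQ8k_0d
import Pool.Agent.Lib_MP_fa6e45.RD8k_33

/-!
MP_fa6e45_co, stage 9: straight-side patterns with `8` sides, part of a certificate (generated by a program).
-/

namespace Pool.Agent.Lib_MP_fa6e45

theorem cD8k_0_k33_0 : allI cD8k_0_c (rjL dJ cD8k_0_q rD8k_33_0) 5434 = true := by
  decide +kernel

theorem cD8k_0_k33_1 : allI cD8k_0_c (rjL dJ cD8k_0_q rD8k_33_1) 5437 = true := by
  decide +kernel

theorem cD8k_0_k33_2 : allI cD8k_0_c (rjL dJ cD8k_0_q rD8k_33_2) 5440 = true := by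
  decide +kernel

theorem cD8k_0_k33_3 : allI cD8k_0_c (rjL dJ cD8k_0_q rD8k_33_3) 5443 = true := by
  decide +kernel

theorem cD8k_0_k33_4 : allI cD8k_0_c (rjL dJ cD8k_0_q rD8k_33_4) 5446 = true := by
  decide +kernel

theorem cD8k_0_k33_5 : allI cD8k_0_c (rjL dJ cD8k_0_q rD8k_33_5) 5449 = true := by
  decide +kernel

theorem cD8k_0_k33_6 : allI cD8k_0_c (rjL dJ cD8k_0_q rD8k_33_6) 5451 = true := by
  decide +kernel

theorem cD8k_0_k33_7 : allI cD8k_0_c (rjL dJ cD8k_0_q rD8k_33_7) 5453 = true := by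
  decide +kernel

theorem cD8k_0_k33_8 : allI cD8k_0_c (rjL dJ cD8k_0_q rD8k_33_8) 5455 = true := by
  decide +kernel

theorem cD8k_0_k33_9 : allI cD8k_0_c (rjL dJ cD8k_0_q rD8k_33_9) 5458 = true := by
  decide +kernel

theorem cD8k_0_k33_10 : allI cD8k_0_c (rjL dJ cD8k_0_q rD8k_33_10) 5461 = true := by
  decide +kernel

theorem cD8k_0_k33_11 : allI cD8k_0_c (rjL dJ cD8k_0_q rD8k_33_11) 5463 = true := by
  decide +kernel

theorem cD8k_0_k33_12 : allI cD8k_0_c (rjL dJ cD8k_0_q rD8k_33_12) 5465 = true := by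
  decide +kernel

theorem cD8k_0_k33_13 : allI cD8k_0_c (rjL dJ cD8k_0_q rD8k_33_13) 5467 = true := by
  decide +kernel

theorem cD8k_0_k33_14 : allI cD8k_0_c (rjL dJ cD8k_0_q rD8k_33_14) 5468 = true := by
  decide +kernel

theorem cD8k_0_k33_15 : allI cD8k_0_c (rjL dJ cD8k_0_q rD8k_33_15) 5469 = true := by
  decide +kernel

theorem cD8k_0_k33_16 : allI cD8k_0_c (rjL dJ cD8k_0_q rD8k_33_16) 5472 = true := by
  decide +kernel

theorem cD8k_0_k33_17 : allI cD8k_0_c (rjL dJ cD8k_0_q rD8k_33_17) 5474 = true := by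
  decide +kernel

theorem cD8k_0_k33_18 : allI cD8k_0_c (rjL dJ cD8k_0_q rD8k_33_18) 5476 = true := by
  decide +kernel

theorem cD8k_0_k33_19 : allI cD8k_0_c (rjL dJ cD8k_0_q rD8k_33_19) 5477 = true := by
  decide +kernel

theorem cD8k_0_k33_20 : allI cD8k_0_c (rjL dJ cD8k_0_q rD8k_33_20) 5478 = true := by
  decide +kernel

theorem cD8k_0_k33_21 : allI cD8k_0_c (rjL dJ cD8k_0_q rD8k_33_21) 5480 = true := by
  decide +kernel

theorem cD8k_0_k33_22 : allI cD8k_0_c (rjL dJ cD8k_0_q rD8k_33_22) 5482 = true := by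
  decide +kernel

theorem cD8k_0_k33_23 : allI cD8k_0_c (rjL dJ cD8k_0_q rD8k_33_23) 5484 = true := by
  decide +kernel

theorem cD8k_0_k33_24 : allI cD8k_0_c (rjL dJ cD8k_0_q rD8k_33_24) 5485 = true := by
  decide +kernel

theorem cD8k_0_k33_25 : allI cD8k_0_c (rjL dJ cD8k_0_q rD8k_33_25) 5486 = true := by
  decide +kernel

theorem cD8k_0_k33_26 : allI cD8k_0_c (rjL dJ cD8k_0_q rD8k_33_26) 5489 = true := by
  decide +kernel

theorem cD8k_0_k33_27 : allI cD8k_0_c (rjL dJ cD8k_0_q rD8k_33_27) 5491 = true := by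
  decide +kernel

theorem cD8k_0_k33_28 : allI cD8k_0_c (rjL dJ cD8k_0_q rD8k_33_28) 5494 = true := by
  decide +kernel

theorem cD8k_0_k33_29 : allI cD8k_0_c (rjL dJ cD8k_0_q rD8k_33_29) 5496 = true := by
  decide +kernel

theorem cD8k_0_k33_30 : allI cD8k_0_c (rjL dJ cD8k_0_q rD8k_33_30) 5498 = true := by
  decide +kernel

theorem cD8k_0_k33_31 : allI cD8k_0_c (rjL dJ cD8k_0_q rD8k_33_31) 5500 = true := by
  decide +kernel

theorem cD8k_0_k33_32 : allI cD8k_0_c (rjL dJ cD8k_0_q rD8k_33_32) 5502 = true := by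
  decide +kernel

theorem cD8k_0_k33_33 : allI cD8k_0_c (rjL dJ cD8k_0_q rD8k_33_33) 5503 = true := by
  decide +kernel

theorem cD8k_0_k33_34 : allI cD8k_0_c (rjL dJ cD8k_0_q rD8k_33_34) 5505 = true := by
  decide +kernel

theorem cD8k_0_k33_35 : allI cD8k_0_c (rjL dJ cD8k_0_q rD8k_33_35) 5508 = true := by
  decide +kernel

theorem cD8k_0_k33_36 : allI cD8k_0_c (rjL dJ cD8k_0_q rD8k_33_36) 5510 = true := by
  decide +kernel

theorem cD8k_0_k33_37 : allI cD8k_0_c (rjL dJ cD8k_0_q rD8k_33_37) 5512 = true := by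
  decide +kernel

theorem cD8k_0_k33_38 : allI cD8k_0_c (rjL dJ cD8k_0_q rD8k_33_38) 5514 = true := by
  decide +kernel

theorem cD8k_0_k33_39 : allI cD8k_0_c (rjL dJ cD8k_0_q rD8k_33_39) 5517 = true := by
  decide +kernel

theorem cD8k_0_k33_40 : allI cD8k_0_c (rjL dJ cD8k_0_q rD8k_33_40) 5520 = true := by
  decide +kernel

theorem cD8k_0_k33_41 : allI cD8k_0_c (rjL dJ cD8k_0_q rD8k_33_41) 5523 = true := by
  decide +kernel

theorem cD8k_0_k33_42 : allI cD8k_0_c (rjL dJ cD8k_0_q rD8k_33_42) 5526 = true := by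
  decide +kernel

theorem cD8k_0_k33_43 : allI cD8k_0_c (rjL dJ cD8k_0_q rD8k_33_43) 5527 = true := by
  decide +kernel

theorem cD8k_0_k33_44 : allI cD8k_0_c (rjL dJ cD8k_0_q rD8k_33_44) 5529 = true := by
  decide +kernel

/-- nodes -/
noncomputable def cD8k_0_n33 : List (QJ PN) :=
  rjL dJ cD8k_0_q rD8k_33_0 ++ (rjL dJ cD8k_0_q rD8k_33_1 ++ (rjL dJ cD8k_0_q rD8k_33_2 ++ (
    rjL dJ cD8k_0_q rD8k_33_3 ++ (rjL dJ cD8k_0_q rD8k_33_4 ++ (rjL dJ cD8k_0_q rD8k_33_5 ++ (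
    rjL dJ cD8k_0_q rD8k_33_6 ++ (rjL dJ cD8k_0_q rD8k_33_7 ++ (rjL dJ cD8k_0_q rD8k_33_8 ++ (
    rjL dJ cD8k_0_q rD8k_33_9 ++ (rjL dJ cD8k_0_q rD8k_33_10 ++ (rjL dJ cD8k_0_q rD8k_33_11 ++ (
    rjL dJ cD8k_0_q rD8k_33_12 ++ (rjL dJ cD8k_0_q rD8k_33_13 ++ (rjL dJ cD8k_0_q rD8k_33_14 ++ (
    rjL dJ cD8k_0_q rD8k_33_15 ++ (rjL dJ cD8k_0_q rD8k_33_16 ++ (rjL dJ cD8k_0_q rD8k_33_17 ++ (
    rjL dJ cD8k_0_q rD8k_33_18 ++ (rjL dJ cD8k_0_q rD8k_33_19 ++ (rjL dJ cD8k_0_q rD8k_33_20 ++ (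
    rjL dJ cD8k_0_q rD8k_33_21 ++ (rjL dJ cD8k_0_q rD8k_33_22 ++ (rjL dJ cD8k_0_q rD8k_33_23 ++ (
    rjL dJ cD8k_0_q rD8k_33_24 ++ (rjL dJ cD8k_0_q rD8k_33_25 ++ (rjL dJ cD8k_0_q rD8k_33_26 ++ (
    rjL dJ cD8k_0_q rD8k_33_27 ++ (rjL dJ cD8k_0_q rD8k_33_28 ++ (rjL dJ cD8k_0_q rD8k_33_29 ++ (
    rjL dJ cD8k_0_q rD8k_33_30 ++ (rjL dJ cD8k_0_q rD8k_33_31 ++ (rjL dJ cD8k_0_q rD8k_33_32 ++ (
    rjL dJ cD8k_0_q rD8k_33_33 ++ (rjL dJ cD8k_0_q rD8k_33_34 ++ (rjL dJ cD8k_0_q rD8k_33_35 ++ (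
    rjL dJ cD8k_0_q rD8k_33_36 ++ (rjL dJ cD8k_0_q rD8k_33_37 ++ (rjL dJ cD8k_0_q rD8k_33_38 ++ (
    rjL dJ cD8k_0_q rD8k_33_39 ++ (rjL dJ cD8k_0_q rD8k_33_40 ++ (rjL dJ cD8k_0_q rD8k_33_41 ++ (
    rjL dJ cD8k_0_q rD8k_33_42 ++ (rjL dJ cD8k_0_q rD8k_33_43 ++
    rjL dJ cD8k_0_q rD8k_33_44)))))))))))))))))))))))))))))))))))))))))))

theorem cD8k_0_k33 : allI cD8k_0_c cD8k_0_n33 5434 = true := by
  refine allI_appQ (k := 3) cD8k_0_k33_0 (by decide +kernel) ?_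
  refine allI_appQ (k := 3) cD8k_0_k33_1 (by decide +kernel) ?_
  refine allI_appQ (k := 3) cD8k_0_k33_2 (by decide +kernel) ?_
  refine allI_appQ (k := 3) cD8k_0_k33_3 (by decide +kernel) ?_
  refine allI_appQ (k := 3) cD8k_0_k33_4 (by decide +kernel) ?_
  refine allI_appQ (k := 2) cD8k_0_k33_5 (by decide +kernel) ?_
  refine allI_appQ (k := 2) cD8k_0_k33_6 (by decide +kernel) ?_
  refine allI_appQ (k := 2) cD8k_0_k33_7 (by decide +kernel) ?_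
  refine allI_appQ (k := 3) cD8k_0_k33_8 (by decide +kernel) ?_
  refine allI_appQ (k := 3) cD8k_0_k33_9 (by decide +kernel) ?_
  refine allI_appQ (k := 2) cD8k_0_k33_10 (by decide +kernel) ?_
  refine allI_appQ (k := 2) cD8k_0_k33_11 (by decide +kernel) ?_
  refine allI_appQ (k := 2) cD8k_0_k33_12 (by decide +kernel) ?_
  refine allI_appQ (k := 1) cD8k_0_k33_13 (by decide +kernel) ?_
  refine allI_appQ (k := 1) cD8k_0_k33_14 (by decide +kernel) ?_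
  refine allI_appQ (k := 3) cD8k_0_k33_15 (by decide +kernel) ?_
  refine allI_appQ (k := 2) cD8k_0_k33_16 (by decide +kernel) ?_
  refine allI_appQ (k := 2) cD8k_0_k33_17 (by decide +kernel) ?_
  refine allI_appQ (k := 1) cD8k_0_k33_18 (by decide +kernel) ?_
  refine allI_appQ (k := 1) cD8k_0_k33_19 (by decide +kernel) ?_
  refine allI_appQ (k := 2) cD8k_0_k33_20 (by decide +kernel) ?_
  refine allI_appQ (k := 2) cD8k_0_k33_21 (by decide +kernel) ?_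
  refine allI_appQ (k := 2) cD8k_0_k33_22 (by decide +kernel) ?_
  refine allI_appQ (k := 1) cD8k_0_k33_23 (by decide +kernel) ?_
  refine allI_appQ (k := 1) cD8k_0_k33_24 (by decide +kernel) ?_
  refine allI_appQ (k := 3) cD8k_0_k33_25 (by decide +kernel) ?_
  refine allI_appQ (k := 2) cD8k_0_k33_26 (by decide +kernel) ?_
  refine allI_appQ (k := 3) cD8k_0_k33_27 (by decide +kernel) ?_
  refine allI_appQ (k := 2) cD8k_0_k33_28 (by decide +kernel) ?_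
  refine allI_appQ (k := 2) cD8k_0_k33_29 (by decide +kernel) ?_
  refine allI_appQ (k := 2) cD8k_0_k33_30 (by decide +kernel) ?_
  refine allI_appQ (k := 2) cD8k_0_k33_31 (by decide +kernel) ?_
  refine allI_appQ (k := 1) cD8k_0_k33_32 (by decide +kernel) ?_
  refine allI_appQ (k := 2) cD8k_0_k33_33 (by decide +kernel) ?_
  refine allI_appQ (k := 3) cD8k_0_k33_34 (by decide +kernel) ?_
  refine allI_appQ (k := 2) cD8k_0_k33_35 (by decide +kernel) ?_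
  refine allI_appQ (k := 2) cD8k_0_k33_36 (by decide +kernel) ?_
  refine allI_appQ (k := 2) cD8k_0_k33_37 (by decide +kernel) ?_
  refine allI_appQ (k := 3) cD8k_0_k33_38 (by decide +kernel) ?_
  refine allI_appQ (k := 3) cD8k_0_k33_39 (by decide +kernel) ?_
  refine allI_appQ (k := 3) cD8k_0_k33_40 (by decide +kernel) ?_
  refine allI_appQ (k := 3) cD8k_0_k33_41 (by decide +kernel) ?_
  refine allI_appQ (k := 1) cD8k_0_k33_42 (by decide +kernel) ?_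
  refine allI_appQ (k := 2) cD8k_0_k33_43 (by decide +kernel) ?_
  exact cD8k_0_k33_44

theorem cD8k_0_l33 : cD8k_0_n33.length = 97 := by
  decide +kernel

end Pool.Agent.Lib_MP_fa6e45
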