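import Pool.Agent.Lib_MP_fa6e45.DQ8k_0d
import Pool.Agent.Lib_MP_fa6e45.RD8k_34

/-!
MP_fa6e45_co, stage 9: straight-side patterns with `8` sides, part of a certificate (generated by a program).
-/

namespace Pool.Agent.Lib_MP_fa6e45

theorem cD8k_0_k34_0 : allI cD8k_0_c (rjL dJ cD8k_0_q rD8k_34_0) 5531 = true := by
  decide +kernel

theorem cD8k_0_k34_1 : allI cD8k_0_c (rjL dJ cD8k_0_q rD8k_34_1) 5532 = true := by
  decide +kernel

theorem cD8k_0_k34_2 : allI cD8k_0_c (rjL dJ cD8k_0_q rD8k_34_2) 5534 = true := by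
  decide +kernel

theorem cD8k_0_k34_3 : allI cD8k_0_c (rjL dJ cD8k_0_q rD8k_34_3) 5537 = true := by
  decide +kernel

theorem cD8k_0_k34_4 : allI cD8k_0_c (rjL dJ cD8k_0_q rD8k_34_4) 5539 = true := by
  decide +kernel

theorem cD8k_0_k34_5 : allI cD8k_0_c (rjL dJ cD8k_0_q rD8k_34_5) 5542 = true := by
  decide +kernel

theorem cD8k_0_k34_6 : allI cD8k_0_c (rjL dJ cD8k_0_q rD8k_34_6) 5545 = true := by
  decide +kernel

theorem cD8k_0_k34_7 : allI cD8k_0_c (rjL dJ cD8k_0_q rD8k_34_7) 5548 = true := by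
  decide +kernel

theorem cD8k_0_k34_8 : allI cD8k_0_c (rjL dJ cD8k_0_q rD8k_34_8) 5550 = true := by
  decide +kernel

theorem cD8k_0_k34_9 : allI cD8k_0_c (rjL dJ cD8k_0_q rD8k_34_9) 5552 = true := by
  decide +kernel

theorem cD8k_0_k34_10 : allI cD8k_0_c (rjL dJ cD8k_0_q rD8k_34_10) 5554 = true := by
  decide +kernel

theorem cD8k_0_k34_11 : allI cD8k_0_c (rjL dJ cD8k_0_q rD8k_34_11) 5557 = true := by
  decide +kernel

theorem cD8k_0_k34_12 : allI cD8k_0_c (rjL dJ cD8k_0_q rD8k_34_12) 5560 = true := by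
  decide +kernel

theorem cD8k_0_k34_13 : allI cD8k_0_c (rjL dJ cD8k_0_q rD8k_34_13) 5562 = true := by
  decide +kernel

theorem cD8k_0_k34_14 : allI cD8k_0_c (rjL dJ cD8k_0_q rD8k_34_14) 5565 = true := by
  decide +kernel

theorem cD8k_0_k34_15 : allI cD8k_0_c (rjL dJ cD8k_0_q rD8k_34_15) 5567 = true := by
  decide +kernel

theorem cD8k_0_k34_16 : allI cD8k_0_c (rjL dJ cD8k_0_q rD8k_34_16) 5568 = true := by
  decide +kernel

theorem cD8k_0_k34_17 : allI cD8k_0_c (rjL dJ cD8k_0_q rD8k_34_17) 5571 = true := by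
  decide +kernel

theorem cD8k_0_k34_18 : allI cD8k_0_c (rjL dJ cD8k_0_q rD8k_34_18) 5574 = true := by
  decide +kernel

theorem cD8k_0_k34_19 : allI cD8k_0_c (rjL dJ cD8k_0_q rD8k_34_19) 5577 = true := by
  decide +kernel

theorem cD8k_0_k34_20 : allI cD8k_0_c (rjL dJ cD8k_0_q rD8k_34_20) 5580 = true := by
  decide +kernel

theorem cD8k_0_k34_21 : allI cD8k_0_c (rjL dJ cD8k_0_q rD8k_34_21) 5582 = true := by
  decide +kernel

theorem cD8k_0_k34_22 : allI cD8k_0_c (rjL dJ cD8k_0_q rD8k_34_22) 5584 = true := by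
  decide +kernel

theorem cD8k_0_k34_23 : allI cD8k_0_c (rjL dJ cD8k_0_q rD8k_34_23) 5587 = true := by
  decide +kernel

theorem cD8k_0_k34_24 : allI cD8k_0_c (rjL dJ cD8k_0_q rD8k_34_24) 5590 = true := by
  decide +kernel

/-- nodes -/
noncomputable def cD8k_0_n34 : List (QJ PN) :=
  rjL dJ cD8k_0_q rD8k_34_0 ++ (rjL dJ cD8k_0_q rD8k_34_1 ++ (rjL dJ cD8k_0_q rD8k_34_2 ++ (
    rjL dJ cD8k_0_q rD8k_34_3 ++ (rjL dJ cD8k_0_q rD8k_34_4 ++ (rjL dJ cD8k_0_q rD8k_34_5 ++ (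
    rjL dJ cD8k_0_q rD8k_34_6 ++ (rjL dJ cD8k_0_q rD8k_34_7 ++ (rjL dJ cD8k_0_q rD8k_34_8 ++ (
    rjL dJ cD8k_0_q rD8k_34_9 ++ (rjL dJ cD8k_0_q rD8k_34_10 ++ (rjL dJ cD8k_0_q rD8k_34_11 ++ (
    rjL dJ cD8k_0_q rD8k_34_12 ++ (rjL dJ cD8k_0_q rD8k_34_13 ++ (rjL dJ cD8k_0_q rD8k_34_14 ++ (
    rjL dJ cD8k_0_q rD8k_34_15 ++ (rjL dJ cD8k_0_q rD8k_34_16 ++ (rjL dJ cD8k_0_q rD8k_34_17 ++ (
    rjL dJ cD8k_0_q rD8k_34_18 ++ (rjL dJ cD8k_0_q rD8k_34_19 ++ (rjL dJ cD8k_0_q rD8k_34_20 ++ (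
    rjL dJ cD8k_0_q rD8k_34_21 ++ (rjL dJ cD8k_0_q rD8k_34_22 ++ (rjL dJ cD8k_0_q rD8k_34_23 ++
    rjL dJ cD8k_0_q rD8k_34_24)))))))))))))))))))))))

theorem cD8k_0_k34 : allI cD8k_0_c cD8k_0_n34 5531 = true := by
  refine allI_appQ (k := 1) cD8k_0_k34_0 (by decide +kernel) ?_
  refine allI_appQ (k := 2) cD8k_0_k34_1 (by decide +kernel) ?_
  refine allI_appQ (k := 3) cD8k_0_k34_2 (by decide +kernel) ?_
  refine allI_appQ (k := 2) cD8k_0_k34_3 (by decide +kernel) ?_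
  refine allI_appQ (k := 3) cD8k_0_k34_4 (by decide +kernel) ?_
  refine allI_appQ (k := 3) cD8k_0_k34_5 (by decide +kernel) ?_
  refine allI_appQ (k := 3) cD8k_0_k34_6 (by decide +kernel) ?_
  refine allI_appQ (k := 2) cD8k_0_k34_7 (by decide +kernel) ?_
  refine allI_appQ (k := 2) cD8k_0_k34_8 (by decide +kernel) ?_
  refine allI_appQ (k := 2) cD8k_0_k34_9 (by decide +kernel) ?_
  refine allI_appQ (k := 3) cD8k_0_k34_10 (by decide +kernel) ?_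
  refine allI_appQ (k := 3) cD8k_0_k34_11 (by decide +kernel) ?_
  refine allI_appQ (k := 2) cD8k_0_k34_12 (by decide +kernel) ?_
  refine allI_appQ (k := 3) cD8k_0_k34_13 (by decide +kernel) ?_
  refine allI_appQ (k := 2) cD8k_0_k34_14 (by decide +kernel) ?_
  refine allI_appQ (k := 1) cD8k_0_k34_15 (by decide +kernel) ?_
  refine allI_appQ (k := 3) cD8k_0_k34_16 (by decide +kernel) ?_
  refine allI_appQ (k := 3) cD8k_0_k34_17 (by decide +kernel) ?_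
  refine allI_appQ (k := 3) cD8k_0_k34_18 (by decide +kernel) ?_
  refine allI_appQ (k := 3) cD8k_0_k34_19 (by decide +kernel) ?_
  refine allI_appQ (k := 2) cD8k_0_k34_20 (by decide +kernel) ?_
  refine allI_appQ (k := 2) cD8k_0_k34_21 (by decide +kernel) ?_
  refine allI_appQ (k := 3) cD8k_0_k34_22 (by decide +kernel) ?_
  refine allI_appQ (k := 3) cD8k_0_k34_23 (by decide +kernel) ?_
  exact cD8k_0_k34_24

theorem cD8k_0_l34 : cD8k_0_n34.length = 61 := by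
  decide +kernel

end Pool.Agent.Lib_MP_fa6e45
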