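import Pool.Agent.Lib_MP_fa6e45.DQ8k_0d
import Pool.Agent.Lib_MP_fa6e45.RD8k_35

/-!
MP_fa6e45_co, stage 9: straight-side patterns with `8` sides, part of a certificate (generated by a program).
-/

namespace Pool.Agent.Lib_MP_fa6e45

theorem cD8k_0_k35_0 : allI cD8k_0_c (rjL dJ cD8k_0_q rD8k_35_0) 5592 = true := by
  decide +kernel

theorem cD8k_0_k35_1 : allI cD8k_0_c (rjL dJ cD8k_0_q rD8k_35_1) 5595 = true := by
  decide +kernel

theorem cD8k_0_k35_2 : allI cD8k_0_c (rjL dJ cD8k_0_q rD8k_35_2) 5598 = true := by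
  decide +kernel

theorem cD8k_0_k35_3 : allI cD8k_0_c (rjL dJ cD8k_0_q rD8k_35_3) 5601 = true := by
  decide +kernel

theorem cD8k_0_k35_4 : allI cD8k_0_c (rjL dJ cD8k_0_q rD8k_35_4) 5604 = true := by
  decide +kernel

theorem cD8k_0_k35_5 : allI cD8k_0_c (rjL dJ cD8k_0_q rD8k_35_5) 5606 = true := by
  decide +kernel

theorem cD8k_0_k35_6 : allI cD8k_0_c (rjL dJ cD8k_0_q rD8k_35_6) 5609 = true := by
  decide +kernel

theorem cD8k_0_k35_7 : allI cD8k_0_c (rjL dJ cD8k_0_q rD8k_35_7) 5611 = true := by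
  decide +kernel

theorem cD8k_0_k35_8 : allI cD8k_0_c (rjL dJ cD8k_0_q rD8k_35_8) 5613 = true := by
  decide +kernel

theorem cD8k_0_k35_9 : allI cD8k_0_c (rjL dJ cD8k_0_q rD8k_35_9) 5615 = true := by
  decide +kernel

theorem cD8k_0_k35_10 : allI cD8k_0_c (rjL dJ cD8k_0_q rD8k_35_10) 5617 = true := by
  decide +kernel

theorem cD8k_0_k35_11 : allI cD8k_0_c (rjL dJ cD8k_0_q rD8k_35_11) 5619 = true := by
  decide +kernel

theorem cD8k_0_k35_12 : allI cD8k_0_c (rjL dJ cD8k_0_q rD8k_35_12) 5621 = true := by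
  decide +kernel

theorem cD8k_0_k35_13 : allI cD8k_0_c (rjL dJ cD8k_0_q rD8k_35_13) 5623 = true := by
  decide +kernel

theorem cD8k_0_k35_14 : allI cD8k_0_c (rjL dJ cD8k_0_q rD8k_35_14) 5625 = true := by
  decide +kernel

theorem cD8k_0_k35_15 : allI cD8k_0_c (rjL dJ cD8k_0_q rD8k_35_15) 5628 = true := by
  decide +kernel

theorem cD8k_0_k35_16 : allI cD8k_0_c (rjL dJ cD8k_0_q rD8k_35_16) 5631 = true := by
  decide +kernel

theorem cD8k_0_k35_17 : allI cD8k_0_c (rjL dJ cD8k_0_q rD8k_35_17) 5634 = true := by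
  decide +kernel

theorem cD8k_0_k35_18 : allI cD8k_0_c (rjL dJ cD8k_0_q rD8k_35_18) 5637 = true := by
  decide +kernel

theorem cD8k_0_k35_19 : allI cD8k_0_c (rjL dJ cD8k_0_q rD8k_35_19) 5640 = true := by
  decide +kernel

theorem cD8k_0_k35_20 : allI cD8k_0_c (rjL dJ cD8k_0_q rD8k_35_20) 5642 = true := by
  decide +kernel

theorem cD8k_0_k35_21 : allI cD8k_0_c (rjL dJ cD8k_0_q rD8k_35_21) 5644 = true := by
  decide +kernel

theorem cD8k_0_k35_22 : allI cD8k_0_c (rjL dJ cD8k_0_q rD8k_35_22) 5647 = true := by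
  decide +kernel

theorem cD8k_0_k35_23 : allI cD8k_0_c (rjL dJ cD8k_0_q rD8k_35_23) 5649 = true := by
  decide +kernel

theorem cD8k_0_k35_24 : allI cD8k_0_c (rjL dJ cD8k_0_q rD8k_35_24) 5650 = true := by
  decide +kernel

theorem cD8k_0_k35_25 : allI cD8k_0_c (rjL dJ cD8k_0_q rD8k_35_25) 5652 = true := by
  decide +kernel

theorem cD8k_0_k35_26 : allI cD8k_0_c (rjL dJ cD8k_0_q rD8k_35_26) 5655 = true := by
  decide +kernel

theorem cD8k_0_k35_27 : allI cD8k_0_c (rjL dJ cD8k_0_q rD8k_35_27) 5658 = true := by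
  decide +kernel

theorem cD8k_0_k35_28 : allI cD8k_0_c (rjL dJ cD8k_0_q rD8k_35_28) 5661 = true := by
  decide +kernel

theorem cD8k_0_k35_29 : allI cD8k_0_c (rjL dJ cD8k_0_q rD8k_35_29) 5663 = true := by
  decide +kernel

theorem cD8k_0_k35_30 : allI cD8k_0_c (rjL dJ cD8k_0_q rD8k_35_30) 5664 = true := by
  decide +kernel

theorem cD8k_0_k35_31 : allI cD8k_0_c (rjL dJ cD8k_0_q rD8k_35_31) 5665 = true := by
  decide +kernel

theorem cD8k_0_k35_32 : allI cD8k_0_c (rjL dJ cD8k_0_q rD8k_35_32) 5666 = true := by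
  decide +kernel

theorem cD8k_0_k35_33 : allI cD8k_0_c (rjL dJ cD8k_0_q rD8k_35_33) 5667 = true := by
  decide +kernel

theorem cD8k_0_k35_34 : allI cD8k_0_c (rjL dJ cD8k_0_q rD8k_35_34) 5669 = true := by
  decide +kernel

theorem cD8k_0_k35_35 : allI cD8k_0_c (rjL dJ cD8k_0_q rD8k_35_35) 5671 = true := by
  decide +kernel

theorem cD8k_0_k35_36 : allI cD8k_0_c (rjL dJ cD8k_0_q rD8k_35_36) 5673 = true := by
  decide +kernel

theorem cD8k_0_k35_37 : allI cD8k_0_c (rjL dJ cD8k_0_q rD8k_35_37) 5676 = true := by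
  decide +kernel

/-- nodes -/
noncomputable def cD8k_0_n35 : List (QJ PN) :=
  rjL dJ cD8k_0_q rD8k_35_0 ++ (rjL dJ cD8k_0_q rD8k_35_1 ++ (rjL dJ cD8k_0_q rD8k_35_2 ++ (
    rjL dJ cD8k_0_q rD8k_35_3 ++ (rjL dJ cD8k_0_q rD8k_35_4 ++ (rjL dJ cD8k_0_q rD8k_35_5 ++ (
    rjL dJ cD8k_0_q rD8k_35_6 ++ (rjL dJ cD8k_0_q rD8k_35_7 ++ (rjL dJ cD8k_0_q rD8k_35_8 ++ (
    rjL dJ cD8k_0_q rD8k_35_9 ++ (rjL dJ cD8k_0_q rD8k_35_10 ++ (rjL dJ cD8k_0_q rD8k_35_11 ++ (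
    rjL dJ cD8k_0_q rD8k_35_12 ++ (rjL dJ cD8k_0_q rD8k_35_13 ++ (rjL dJ cD8k_0_q rD8k_35_14 ++ (
    rjL dJ cD8k_0_q rD8k_35_15 ++ (rjL dJ cD8k_0_q rD8k_35_16 ++ (rjL dJ cD8k_0_q rD8k_35_17 ++ (
    rjL dJ cD8k_0_q rD8k_35_18 ++ (rjL dJ cD8k_0_q rD8k_35_19 ++ (rjL dJ cD8k_0_q rD8k_35_20 ++ (
    rjL dJ cD8k_0_q rD8k_35_21 ++ (rjL dJ cD8k_0_q rD8k_35_22 ++ (rjL dJ cD8k_0_q rD8k_35_23 ++ (
    rjL dJ cD8k_0_q rD8k_35_24 ++ (rjL dJ cD8k_0_q rD8k_35_25 ++ (rjL dJ cD8k_0_q rD8k_35_26 ++ (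
    rjL dJ cD8k_0_q rD8k_35_27 ++ (rjL dJ cD8k_0_q rD8k_35_28 ++ (rjL dJ cD8k_0_q rD8k_35_29 ++ (
    rjL dJ cD8k_0_q rD8k_35_30 ++ (rjL dJ cD8k_0_q rD8k_35_31 ++ (rjL dJ cD8k_0_q rD8k_35_32 ++ (
    rjL dJ cD8k_0_q rD8k_35_33 ++ (rjL dJ cD8k_0_q rD8k_35_34 ++ (rjL dJ cD8k_0_q rD8k_35_35 ++ (
    rjL dJ cD8k_0_q rD8k_35_36 ++ rjL dJ cD8k_0_q rD8k_35_37))))))))))))))))))))))))))))))))))))

theorem cD8k_0_k35 : allI cD8k_0_c cD8k_0_n35 5592 = true := by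
  refine allI_appQ (k := 3) cD8k_0_k35_0 (by decide +kernel) ?_
  refine allI_appQ (k := 3) cD8k_0_k35_1 (by decide +kernel) ?_
  refine allI_appQ (k := 3) cD8k_0_k35_2 (by decide +kernel) ?_
  refine allI_appQ (k := 3) cD8k_0_k35_3 (by decide +kernel) ?_
  refine allI_appQ (k := 2) cD8k_0_k35_4 (by decide +kernel) ?_
  refine allI_appQ (k := 3) cD8k_0_k35_5 (by decide +kernel) ?_
  refine allI_appQ (k := 2) cD8k_0_k35_6 (by decide +kernel) ?_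
  refine allI_appQ (k := 2) cD8k_0_k35_7 (by decide +kernel) ?_
  refine allI_appQ (k := 2) cD8k_0_k35_8 (by decide +kernel) ?_
  refine allI_appQ (k := 2) cD8k_0_k35_9 (by decide +kernel) ?_
  refine allI_appQ (k := 2) cD8k_0_k35_10 (by decide +kernel) ?_
  refine allI_appQ (k := 2) cD8k_0_k35_11 (by decide +kernel) ?_
  refine allI_appQ (k := 2) cD8k_0_k35_12 (by decide +kernel) ?_
  refine allI_appQ (k := 2) cD8k_0_k35_13 (by decide +kernel) ?_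
  refine allI_appQ (k := 3) cD8k_0_k35_14 (by decide +kernel) ?_
  refine allI_appQ (k := 3) cD8k_0_k35_15 (by decide +kernel) ?_
  refine allI_appQ (k := 3) cD8k_0_k35_16 (by decide +kernel) ?_
  refine allI_appQ (k := 3) cD8k_0_k35_17 (by decide +kernel) ?_
  refine allI_appQ (k := 3) cD8k_0_k35_18 (by decide +kernel) ?_
  refine allI_appQ (k := 2) cD8k_0_k35_19 (by decide +kernel) ?_
  refine allI_appQ (k := 2) cD8k_0_k35_20 (by decide +kernel) ?_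
  refine allI_appQ (k := 3) cD8k_0_k35_21 (by decide +kernel) ?_
  refine allI_appQ (k := 2) cD8k_0_k35_22 (by decide +kernel) ?_
  refine allI_appQ (k := 1) cD8k_0_k35_23 (by decide +kernel) ?_
  refine allI_appQ (k := 2) cD8k_0_k35_24 (by decide +kernel) ?_
  refine allI_appQ (k := 3) cD8k_0_k35_25 (by decide +kernel) ?_
  refine allI_appQ (k := 3) cD8k_0_k35_26 (by decide +kernel) ?_
  refine allI_appQ (k := 3) cD8k_0_k35_27 (by decide +kernel) ?_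
  refine allI_appQ (k := 2) cD8k_0_k35_28 (by decide +kernel) ?_
  refine allI_appQ (k := 1) cD8k_0_k35_29 (by decide +kernel) ?_
  refine allI_appQ (k := 1) cD8k_0_k35_30 (by decide +kernel) ?_
  refine allI_appQ (k := 1) cD8k_0_k35_31 (by decide +kernel) ?_
  refine allI_appQ (k := 1) cD8k_0_k35_32 (by decide +kernel) ?_
  refine allI_appQ (k := 2) cD8k_0_k35_33 (by decide +kernel) ?_
  refine allI_appQ (k := 2) cD8k_0_k35_34 (by decide +kernel) ?_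
  refine allI_appQ (k := 2) cD8k_0_k35_35 (by decide +kernel) ?_
  refine allI_appQ (k := 3) cD8k_0_k35_36 (by decide +kernel) ?_
  exact cD8k_0_k35_37

theorem cD8k_0_l35 : cD8k_0_n35.length = 85 := by
  decide +kernel

end Pool.Agent.Lib_MP_fa6e45
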