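import Pool.Agent.Lib_MP_fa6e45.RJ0

/-!
MP_fa6e45_co, stage 9: straight-side patterns with `8` sides, raw data (generated by a program).
-/

namespace Pool.Agent.Lib_MP_fa6e45

/-- nodes -/
noncomputable def rD8k_36_0 : List RJ :=
  [.l (nat_lit 14) (nat_lit 0xb40) (nat_lit 3) (nat_lit 0x475000004ef000004d3000004d3000004ef00000475000004b2000004b2000005a6000005a600000491000004eb0000055e0000055e000004c7000004c7) (nat_lit 0xb700000131000000d3000000d300000131000000b7000000f4000000f40000000000000000000000bb000001150000004800000048000000df000000df)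
    (nat_lit 0xf703440e403900d103dc0e4c38d11d446f0e1036010b43a30e5839610e03dc107041c0f704380fec4010bd45070900240131433710883da107039010004000e7041c0f1c3c119b44d316205b8130467f0f583d6107039010004000e7041c0f1c3c119b44d316205b8130467f0f583d610e03dc107041c0f704380fec4010bd45070900240131433710883da0f703440e7039c0d103dc0e1c38110b446f0d8036010b43d30e28396100438d0f043c10e044010f103be12c84ac11443e511a84c40f4c3d30fec3930f1c3c70e1c3fb0ef83c411604b20fdc39d0ae046a0f643a9141c46f134c4d311bc50712c84ac16985a613ac4eb162055e12d46790bd447519b466d10b42f511604b216985a613ac49117885b8131c68b090036016e05b80d802400e743e512444eb0df037c0a144490ec832e090038416205880d802400fdc45113ac4eb118037c11b44a3125842a0cdc3a319fc67f0f4c33711a84c416e055e128c44913e04e612d44b5131442d13044c110b44c50ae046a178858811b428514584f811fc47f0f683960f583d60e583da0ea43d31a2c67910a832e11fc4b50fa03e810883960f583d60e284220f643d3131c4b512583b211fc4b50fa03e8)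
    (nat_lit 0xf70b402d00b402d00b402d00b402d00b402d00b402d00b402d00b400d103dc2d00b402d00b402d00b402d00b402d00b402d00b402d00b400e4041c1000b402d00b402d00b402d00b402d00b402d00b402d00b400e4041c10004002d00b402d00b402d00b402d00b402d00b402d00b400d103dc0e7039c0f70b402d00b402d00b402d00b402d00b402d00b400f70438107041c10e03dc2d00b402d00b402d00b402d00b402d00b400e4c3fb0f1c3c70fec3870f10b402d00b402d00b402d00b402d00b400e344010f043c110043810ef83c42d00b402d00b402d00b402d00b4011d42f519b466d0bd442d12c84581698b402d00b402d00b402d00b4011bc507134c4d3141c46f12b04b216985a62d00b402d00b402d00b400e102401620588090036011443f713ac4eb0df0b402d00b402d00b400d8024016e05b809003600f9439d13ac4910df037c2d00b402d00b4010b44c513044c1131442d11a82b816205e20a1446d13e0b402d00b400e8c33719fc67f0cdc3d3131046a15785b811244a313984f82d00b400e584220f583d6108838a0f4c3d912d44c70ec849612d447f0fa0b400e583da0f583d60f683960f4c3a919e468b0cb842a12d447f0fa03e8)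
    (nat_lit 4) (nat_lit 57)
    [[nat_lit 2,nat_lit 17,nat_lit 257,nat_lit 0x100101,nat_lit 0x10000101,nat_lit 0x10001,nat_lit 0x10101,
    nat_lit 0x110001,nat_lit 0x100001,nat_lit 0x1000001,nat_lit 0x10000001],[nat_lit 32,nat_lit 272,nat_lit 528,
    nat_lit 0x100110,nat_lit 0x10000110,nat_lit 0x10010,nat_lit 0x110010,nat_lit 0x10010010,nat_lit 0x20010,
    nat_lit 0x100010,nat_lit 0x10000010],[nat_lit 512,nat_lit 768,nat_lit 0x100200,nat_lit 0x10000200,nat_lit 0x1100,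
    nat_lit 0x10100,nat_lit 0x110100,nat_lit 0x10010100,nat_lit 0x100100,nat_lit 0x200100,nat_lit 0x10100100,
    nat_lit 0x10000100,nat_lit 0x20000100],[nat_lit 0x11000,nat_lit 0x101000,nat_lit 0x111000,nat_lit 0x10001000,
    nat_lit 0x10011000],[nat_lit 0x20000,nat_lit 0x110000,nat_lit 0x1010000,nat_lit 0x10010000],[nat_lit 0x200000,
    nat_lit 0x1100000,nat_lit 0x10100000],[nat_lit 0x2000000,nat_lit 0x11000000],[nat_lit 0x20000000]]
    [.c (nat_lit 1) (nat_lit 2),.c (nat_lit 0) (nat_lit 0x2203),.c (nat_lit 0) (nat_lit 0x20203),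
    .r (nat_lit 0xdb7) (nat_lit 14) [nat_lit 0x200001,nat_lit 0x320021],
    .r (nat_lit 0xdb6) (nat_lit 8) [nat_lit 0x200001,nat_lit 0x30231],.c (nat_lit 0) (nat_lit 0x200605),
    .c (nat_lit 2) (nat_lit 0x358304),.r (nat_lit 0xdbe) (nat_lit 10) [nat_lit 0x3043042,nat_lit 0x200001],
    .r (nat_lit 0xdba) (nat_lit 10) [nat_lit 33,nat_lit 0x20001],.c (nat_lit 0) (nat_lit 0x200205),
    .r (nat_lit 0xdb8) (nat_lit 8) [nat_lit 0x20001,nat_lit 33],.c (nat_lit 2) (nat_lit 2),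
    .c (nat_lit 2) (nat_lit 0x32002),.c (nat_lit 0) (nat_lit 0x253002),
    .r (nat_lit 0xdbe) (nat_lit 8) [nat_lit 0x200001,nat_lit 0x3003452],
    .r (nat_lit 0x1562) (nat_lit 11) [nat_lit 0x2001,nat_lit 0x20001,nat_lit 0x200001,nat_lit 0x3003452],
    .r (nat_lit 0x14c8) (nat_lit 1) [nat_lit 0x30021,nat_lit 0x200001,nat_lit 0x20001],
    .r (nat_lit 0xdb7) (nat_lit 8) [nat_lit 0x200001,nat_lit 33],.r (nat_lit 0xdc2) (nat_lit 8) [nat_lit 0x20001,
    nat_lit 0x300231],.c (nat_lit 2) (nat_lit 0x306002),.r (nat_lit 0xdbe) (nat_lit 10) [nat_lit 33,nat_lit 0x200001],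
    .r (nat_lit 0xdba) (nat_lit 8) [nat_lit 0x20001,nat_lit 0x230021],.c (nat_lit 3) (nat_lit 2),
    .c (nat_lit 0) (nat_lit 0x270002),.r (nat_lit 0xdbe) (nat_lit 8) [nat_lit 0x200001,nat_lit 0x3453452],
    .r (nat_lit 0x1562) (nat_lit 11) [nat_lit 0x2001,nat_lit 0x20001,nat_lit 0x200001,nat_lit 0x3453452],
    .r (nat_lit 0x161e) (nat_lit 7) [nat_lit 0x300021,nat_lit 0x200001],
    .r (nat_lit 0x14c8) (nat_lit 1) [nat_lit 0x300021,nat_lit 0x200001,nat_lit 0x20001],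
    .r (nat_lit 0xdb7) (nat_lit 8) [nat_lit 0x200001,nat_lit 0x320021],
    .r (nat_lit 0xdc2) (nat_lit 8) [nat_lit 0x20001,nat_lit 0x30231],
    .r (nat_lit 0xdbe) (nat_lit 10) [nat_lit 0x320021,nat_lit 0x200001],
    .r (nat_lit 0xdb7) (nat_lit 14) [nat_lit 0x200001,nat_lit 0x342022],
    .r (nat_lit 0x161e) (nat_lit 7) [nat_lit 0x3053452,nat_lit 0x200001],
    .r (nat_lit 0xdba) (nat_lit 8) [nat_lit 0x20001,nat_lit 33],.r (nat_lit 0xdb6) (nat_lit 8) [nat_lit 0x200001,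
    nat_lit 0x353432],.r (nat_lit 0xdbc) (nat_lit 3) [nat_lit 33,nat_lit 0x20001],
    .r (nat_lit 0x1562) (nat_lit 11) [nat_lit 0x2001,nat_lit 0x20001,nat_lit 0x200001,nat_lit 33],
    .r (nat_lit 0xdb6) (nat_lit 8) [nat_lit 0x200001,nat_lit 33],.r (nat_lit 0xdbe) (nat_lit 8) [nat_lit 0x200001,
    nat_lit 33],.r (nat_lit 0xdb7) (nat_lit 14) [nat_lit 0x200001,nat_lit 0x300231],.c (nat_lit 5) (nat_lit 2),
    .r (nat_lit 0x1618) (nat_lit 14) [nat_lit 0x230001,nat_lit 33,nat_lit 0x20001],.c (nat_lit 0) (nat_lit 0x200007),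
    .r (nat_lit 0x12a6) (nat_lit 7) [nat_lit 0x200001,nat_lit 0x20001,nat_lit 0x2001,nat_lit 33],
    .c (nat_lit 6) (nat_lit 2),.r (nat_lit 0x161e) (nat_lit 10) [nat_lit 0x300021,nat_lit 0x200001],
    .r (nat_lit 0xdb4) (nat_lit 10) [nat_lit 33,nat_lit 0x3003452],.c (nat_lit 7) (nat_lit 2),
    .r (nat_lit 0x161e) (nat_lit 4) [nat_lit 0x300021,nat_lit 0x200001],.c (nat_lit 8) (nat_lit 2)],
    .l (nat_lit 12) (nat_lit 960) (nat_lit 3) (nat_lit 0x1a4000001a4000001a7000001a7000001a2000001a20000019e0000019e000001b4000001b4000001bd000001bd0000020200000202000001a8000001a8) (nat_lit 0x5e0000005e0000005b0000005b000000600000006000000064000000640000004e0000004e000000450000004500000000000000000000005a0000005a)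
    (nat_lit 0x1461461471491441441461401561680ef1911a418414a14814014614d14914213c14014617c16615f1a51a41a414a14e14914915415214114313314511315916213c1a31a714d14d14d14715415414514715314111515916216219f0d914d14913c14414714314413a13e14015414422b1a11a61a214a15014214414514114214414813e15413621f1951a61a214814e14614014114513e14015813a1181461591591980dc14414014014615313314813e16215816a15015315919e18613213816616815915913614415014616613e1871551c01ba15415a17c15611511315415416a11816616616f16f20620012815a1a519116213c1951a115915916f15512c1781bd1bd16311115f0ef16216221f22b15315916f18717812c14f1bd1831631a41840d91a71a21a21860dc2001ba1bd1bd2022022182161a41a419f1a31a61a619e1982061c014f1bd2022021aa1a814e14814914d14e15013814015a15a1631111a821614e14e14a14a14d14d14814a1321441281541831631aa21814e14e)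
    (nat_lit 0x1463c03c03c03c03c03c03c03c03c03c03c03c03c03c03c01461463c03c03c03c03c03c03c03c03c03c03c03c03c03c014714d1543c03c03c03c03c03c03c03c03c03c03c03c03c01491491521543c03c03c03c03c03c03c03c03c03c03c03c01441421411451443c03c03c03c03c03c03c03c03c03c03c014413c14314713a1443c03c03c03c03c03c03c03c03c03c014614013315313e1481583c03c03c03c03c03c03c03c03c014014614514114013e13a1583c03c03c03c03c03c03c03c015617c11311515415411816a1663c03c03c03c03c03c03c016816615915914413614615013e1663c03c03c03c03c03c00ef15f16216222b21f15915318716f12c3c03c03c03c03c01911a513c1621a119515915915516f17812c3c03c03c03c01a41a41a319f1a61a619819e1c02061bd14f2023c03c03c01841a41a70d91a21a20dc1861ba1ec1bd1bd2022023c03c014a14a14d14d14a14814413215412816318320e1aa14e3c014814e14d14915014e14013815a15a1111632141a814e14e)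
    (nat_lit 3) (nat_lit 49)
    [[nat_lit 2,nat_lit 0x10011,nat_lit 257,nat_lit 0x10000101,nat_lit 0x1001,nat_lit 0x11001,nat_lit 0x1001001,
    nat_lit 0x101001,nat_lit 0x10001,nat_lit 0x10101,nat_lit 0x20001,nat_lit 0x100001,nat_lit 0x1000001,
    nat_lit 0x10000001],[nat_lit 272,nat_lit 0x10110,nat_lit 0x1000110,nat_lit 0x1001010,nat_lit 0x10010,
    nat_lit 0x1010010,nat_lit 0x100010,nat_lit 0x1000010,nat_lit 0x10000010],[nat_lit 512,nat_lit 768,nat_lit 0x1100,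
    nat_lit 0x10100,nat_lit 0x1000100,nat_lit 0x10000100,nat_lit 0x10010100,nat_lit 0x11000100],[nat_lit 0x2000,
    nat_lit 0x11000,nat_lit 0x111000,nat_lit 0x1011000,nat_lit 0x101000,nat_lit 0x1001000,nat_lit 0x1002000,
    nat_lit 0x1101000,nat_lit 0x10001000],[nat_lit 0x20000,nat_lit 0x110000,nat_lit 0x1010000,nat_lit 0x1110000,
    nat_lit 0x10010000],[nat_lit 0x200000,nat_lit 0x1100000,nat_lit 0x10100000],[nat_lit 0x2000000,
    nat_lit 0x11000000],[nat_lit 0x20000000]]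
    [.c (nat_lit 1) (nat_lit 2),.c (nat_lit 0) (nat_lit 0x30c6),.r (nat_lit 0xdb3) (nat_lit 14) [nat_lit 0x2633,
    nat_lit 0x80403],.r (nat_lit 0xdb2) (nat_lit 15) [nat_lit 0x10403,nat_lit 0x1b1bb],.c (nat_lit 0) (nat_lit 0x487),
    .r (nat_lit 0x11b9) (nat_lit 7) [nat_lit 0x443b,nat_lit 0x283b,nat_lit 0x13633,nat_lit 0xdb783],
    .r (nat_lit 0xdb4) (nat_lit 5) [nat_lit 0x12003,nat_lit 0x83633],.r (nat_lit 0x161e) (nat_lit 11) [nat_lit 0x283b,
    nat_lit 0x13633],.r (nat_lit 0xdb9) (nat_lit 11) [nat_lit 0x2633,nat_lit 0x10403],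
    .r (nat_lit 0xdb4) (nat_lit 5) [nat_lit 0x12003,nat_lit 0x1b1bb],.r (nat_lit 0x11b9) (nat_lit 7) [nat_lit 0x443e,
    nat_lit 0x41a,nat_lit 0x20636,nat_lit 0xdb783],.c (nat_lit 0) (nat_lit 0x10087),
    .r (nat_lit 0xdbc) (nat_lit 11) [nat_lit 0x10403,nat_lit 0x2633],.c (nat_lit 0) (nat_lit 0x10087),
    .r (nat_lit 0xdb3) (nat_lit 15) [nat_lit 0x10403,nat_lit 0xc07bb],
    .r (nat_lit 0xdbc) (nat_lit 11) [nat_lit 0x10403,nat_lit 0xc07bb],
    .r (nat_lit 0xdb9) (nat_lit 11) [nat_lit 0xc07bb,nat_lit 0x10403],.c (nat_lit 0) (nat_lit 0x3606),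
    .r (nat_lit 0x11b9) (nat_lit 7) [nat_lit 0x1203b,nat_lit 0x1043b,nat_lit 17,nat_lit 0xdb783],
    .r (nat_lit 0xdb3) (nat_lit 14) [nat_lit 0xc07bb,nat_lit 0x80403],
    .r (nat_lit 0x161e) (nat_lit 11) [nat_lit 0x1043b,nat_lit 17],.r (nat_lit 0xdb4) (nat_lit 5) [nat_lit 0x12003,
    nat_lit 0x98033],.r (nat_lit 0x161e) (nat_lit 11) [nat_lit 0xd8433,nat_lit 0xa003b],.c (nat_lit 3) (nat_lit 2),
    .r (nat_lit 0xdb3) (nat_lit 15) [nat_lit 0x10403,nat_lit 0xd879b],.r (nat_lit 0xdb3) (nat_lit 14) [nat_lit 17,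
    nat_lit 0x80403],.c (nat_lit 0) (nat_lit 0x1b6f7),.c (nat_lit 0) (nat_lit 0x1b6f7),
    .r (nat_lit 0xdb8) (nat_lit 13) [nat_lit 17,nat_lit 0x10403],.r (nat_lit 0xdb3) (nat_lit 11) [nat_lit 0x10403,
    nat_lit 0x187bb],.r (nat_lit 0xdb2) (nat_lit 11) [nat_lit 0x10403,nat_lit 0x187bb],.c (nat_lit 4) (nat_lit 2),
    .r (nat_lit 0xdb9) (nat_lit 11) [nat_lit 17,nat_lit 0x10403],.r (nat_lit 0xdb2) (nat_lit 11) [nat_lit 0x10403,
    nat_lit 17],.r (nat_lit 0xdb3) (nat_lit 15) [nat_lit 0x10403,nat_lit 17],.c (nat_lit 0) (nat_lit 0x10407),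
    .r (nat_lit 0xdbc) (nat_lit 11) [nat_lit 0x10403,nat_lit 17],.r (nat_lit 0xdb4) (nat_lit 5) [nat_lit 0x12003,
    nat_lit 0x85033],.r (nat_lit 0xdb3) (nat_lit 11) [nat_lit 0x10403,nat_lit 17],.c (nat_lit 0) (nat_lit 0x10407),
    .c (nat_lit 5) (nat_lit 2),.r (nat_lit 0xdbd) (nat_lit 11) [nat_lit 17,nat_lit 0x10403],
    .c (nat_lit 0) (nat_lit 0x1b6f7),.r (nat_lit 0xdb2) (nat_lit 15) [nat_lit 0x10403,nat_lit 17],
    .r (nat_lit 0x1564) (nat_lit 11) [nat_lit 0x401,nat_lit 0x2001,nat_lit 0x10001,nat_lit 17],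
    .c (nat_lit 6) (nat_lit 2),.r (nat_lit 0xdbb) (nat_lit 0) [nat_lit 17,nat_lit 0x12003],
    .c (nat_lit 0) (nat_lit 0x10007),.c (nat_lit 7) (nat_lit 2),.r (nat_lit 0xdbb) (nat_lit 8) [nat_lit 17,
    nat_lit 0x12003],.c (nat_lit 8) (nat_lit 2)],
    .l (nat_lit 14) (nat_lit 0xf00) (nat_lit 3) (nat_lit 0x6e0000006e0000006e0000006e000000814000005ea00000695000006950000068800000768000006ff000006ff0000067a00000736000005ea00000768) (nat_lit 0x1340000013400000134000001340000022a000000000000017f0000017f000000ac0000018c0000011500000115000000de0000019a000000ac0000022a)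
    (nat_lit 0x16b05ac255064c12d86e0164456110a056615d45cb180843818d03c016b05ac22d05ac1138718155c5cf18e852c172c5cb1be054616504b616b064c15d05ac11203d816245c918d055e172c5c5180854618d03c022d09541b8057416d06e0157c56910b855413145cb18083c018d04b41c606e01b803d817886e01a545971da068a22149051ce07800f005ea11384b616d044811205e20fcc46b14f83c017ec67b14304b614f83c0173c56115a45c911ac59716d048e110c581146858016dc3d517a446b155c591157c5890fcc69515d05b4187c509160050a16dc4bb175c49b14b0566155055e0f0068a1424581194849e16cc53d15e84ee16b045e18e842810b863414f8768187c4431af0652194c6530f006a21af053e172c5cb172c5c519ec9051428580194c53d14585ea1884565217c79f172c57513145cb17ec885160051a194c5b317a851618845651d846a115184380f0054612d878012ec3d51a884ee15945650f404e018904501be06021808602143073816dc5b70f0057a188462119603d01e0050c12d83c012d03c00f005ea126c46b14f845e1a8479f143045014f83c0165063418d063414f83c0175c5e91af05ac1d8485f1e006241af053e)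
    (nat_lit 0x16b0f003c00f003c00f003c00f003c00f003c00f003c00f003c00f0016b05ac3c00f003c00f003c00f003c00f003c00f003c00f003c00f0025508b415d0f003c00f003c00f003c00f003c00f003c00f003c00f0019305ac16b05743c00f003c00f003c00f003c00f003c00f003c00f0012d844e11205b41788f003c00f003c00f003c00f003c00f003c00f001b807180f606e01b805e23c00f003c00f003c00f003c00f003c00f001644557162455f1a543f316d0f003c00f003c00f003c00f003c00f0015845cf1724569165c46b12385b43c00f003c00f003c00f003c00f0010a063a18d042e1da053e110c61f1948f003c00f003c00f003c00f00159852c15785541a283c0160450912786523c00f003c00f003c00f0015d45cb172c4c522145fb146858016cc6531458f003c00f003c00f00172c5cb17145cb241467b160050a14f465317a85163c00f003c00f0018086f818086021ce050c16dc5b715e83c018846210f40f003c00f0010e054615183c01e004b60f544bb13b86a2159456513803d03c00f0018d059418d06340f0053e17a45d716b06bc217c761189078014f8f000f004b60f004b417a83c011ac49b117853e1e7c6a1114050c0f0053e)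
    (nat_lit 3) (nat_lit 86)
    [[nat_lit 2,nat_lit 0x100002,nat_lit 0x10000002,nat_lit 17,nat_lit 0x1011,nat_lit 0x1001,nat_lit 0x11001,
    nat_lit 0x1001001,nat_lit 0x10001001,nat_lit 0x10001,nat_lit 0x10011,nat_lit 0x100001,nat_lit 0x100011,
    nat_lit 0x101001,nat_lit 0x110001,nat_lit 0x200001,nat_lit 0x1100001,nat_lit 0x10100001,nat_lit 0x1000001,
    nat_lit 0x10000001,nat_lit 0x10000011],[nat_lit 32,nat_lit 48,nat_lit 0x1020,nat_lit 0x10020,nat_lit 0x1000020,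
    nat_lit 272,nat_lit 0x1010,nat_lit 0x11010,nat_lit 0x1001010,nat_lit 0x10001010,nat_lit 0x1110,nat_lit 0x10010,
    nat_lit 0x100010,nat_lit 0x1100010,nat_lit 0x1000010,nat_lit 0x10000010],[nat_lit 512,nat_lit 0x1100,
    nat_lit 0x10100,nat_lit 0x1000100,nat_lit 0x10000100],[nat_lit 0x2000,nat_lit 0x11000,nat_lit 0x111000,
    nat_lit 0x101000,nat_lit 0x1101000,nat_lit 0x1001000,nat_lit 0x10001000],[nat_lit 0x20000,nat_lit 0x110000,
    nat_lit 0x1110000,nat_lit 0x1010000,nat_lit 0x10010000],[nat_lit 0x200000,nat_lit 0x1100000,nat_lit 0x10100000],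
    [nat_lit 0x2000000],[nat_lit 0x20000000]]
    [.c (nat_lit 1) (nat_lit 2),.r (nat_lit 0x1193) (nat_lit 11) [nat_lit 0x411,nat_lit 0xa11,nat_lit 0x30819,
    nat_lit 0x80001],.r (nat_lit 0xdb9) (nat_lit 8) [nat_lit 0x2281a,nat_lit 0x80001],
    .c (nat_lit 0) (nat_lit 0x1b013),.c (nat_lit 0) (nat_lit 0x1b013),.c (nat_lit 0) (nat_lit 0x2d625),
    .c (nat_lit 0) (nat_lit 0x1b013),.r (nat_lit 0xdc2) (nat_lit 14) [nat_lit 0x10001,nat_lit 0x18099],
    .r (nat_lit 0x15fd) (nat_lit 4) [nat_lit 0x10401,nat_lit 0x900d1,nat_lit 0x18099],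
    .c (nat_lit 0) (nat_lit 0x2d625),.c (nat_lit 0) (nat_lit 0x1b013),.c (nat_lit 1) (nat_lit 130),
    .r (nat_lit 0xdb2) (nat_lit 4) [nat_lit 0x80001,nat_lit 0xc0099],.r (nat_lit 0xdb3) (nat_lit 4) [nat_lit 0x80001,
    nat_lit 0xc0099],.r (nat_lit 0xdb2) (nat_lit 8) [nat_lit 0x80001,nat_lit 0xc0099],
    .r (nat_lit 0x1193) (nat_lit 11) [nat_lit 0x811,nat_lit 0x611,nat_lit 0x30419,nat_lit 0x80001],
    .r (nat_lit 0x1149) (nat_lit 11) [nat_lit 0xc0411,nat_lit 0xa0419,nat_lit 0xc0611,nat_lit 0x80001],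
    .r (nat_lit 0xdb9) (nat_lit 8) [nat_lit 0x2241a,nat_lit 0x80001],.r (nat_lit 0xdbb) (nat_lit 10) [nat_lit 0x611,
    nat_lit 0x10401],.r (nat_lit 0xdbc) (nat_lit 13) [nat_lit 17,nat_lit 0x10001],
    .r (nat_lit 0xdb9) (nat_lit 8) [nat_lit 0x12419,nat_lit 0x80001],.c (nat_lit 2) (nat_lit 2),
    .r (nat_lit 0xdbf) (nat_lit 10) [nat_lit 0x83011,nat_lit 0x10001],
    .r (nat_lit 0xdba) (nat_lit 14) [nat_lit 0x10001,nat_lit 0x83011],.r (nat_lit 0xdc0) (nat_lit 8) [nat_lit 0x10401,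
    nat_lit 0x83011],.c (nat_lit 7) (nat_lit 0x10602),.r (nat_lit 0xdb9) (nat_lit 8) [nat_lit 17,nat_lit 0x80001],
    .c (nat_lit 0) (nat_lit 0x1b0d3),.c (nat_lit 0) (nat_lit 0x1b013),
    .r (nat_lit 0x15ea) (nat_lit 4) [nat_lit 0x10001,nat_lit 0x80019,nat_lit 17],
    .r (nat_lit 0xdb4) (nat_lit 11) [nat_lit 0x10401,nat_lit 0x18699],.r (nat_lit 0xdb2) (nat_lit 8) [nat_lit 0x80001,
    nat_lit 17],.c (nat_lit 0) (nat_lit 0x1b0d3),.c (nat_lit 0) (nat_lit 0x1b0d3),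
    .r (nat_lit 0x1512) (nat_lit 8) [nat_lit 0x10401,nat_lit 0x904d1,nat_lit 0x18699],
    .r (nat_lit 0xdbf) (nat_lit 10) [nat_lit 17,nat_lit 0x10001],.c (nat_lit 0) (nat_lit 0x403),
    .c (nat_lit 3) (nat_lit 2),.r (nat_lit 0xdbd) (nat_lit 8) [nat_lit 17,nat_lit 0x80001],
    .r (nat_lit 0xdbb) (nat_lit 4) [nat_lit 0x80001,nat_lit 17],.r (nat_lit 0xdbc) (nat_lit 13) [nat_lit 0x90419,
    nat_lit 0x10001],.r (nat_lit 0xdbb) (nat_lit 10) [nat_lit 0x90019,nat_lit 0x10401],.c (nat_lit 4) (nat_lit 2),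
    .c (nat_lit 0) (nat_lit 0x2d625),.c (nat_lit 0) (nat_lit 0x1b0d3),.c (nat_lit 0) (nat_lit 0x2d765),
    .r (nat_lit 0xdc2) (nat_lit 14) [nat_lit 0x10001,nat_lit 0x18699],
    .r (nat_lit 0xdba) (nat_lit 14) [nat_lit 0x10001,nat_lit 17],.r (nat_lit 0x161e) (nat_lit 8) [nat_lit 0x80019,
    nat_lit 17],.c (nat_lit 5) (nat_lit 2),.c (nat_lit 0) (nat_lit 0x2d765),
    .r (nat_lit 0xdb4) (nat_lit 11) [nat_lit 0x10401,nat_lit 17],.r (nat_lit 0xdc0) (nat_lit 8) [nat_lit 0x10401,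
    nat_lit 17],.r (nat_lit 0x15aa) (nat_lit 4) [nat_lit 0x10001,nat_lit 0x900d1,nat_lit 0x18099],
    .c (nat_lit 6) (nat_lit 2),.r (nat_lit 0xdbb) (nat_lit 10) [nat_lit 17,nat_lit 0x10401],
    .r (nat_lit 0xdbc) (nat_lit 13) [nat_lit 0x411,nat_lit 0x10001],.c (nat_lit 7) (nat_lit 2),
    .c (nat_lit 8) (nat_lit 2)]]

/-- nodes -/
noncomputable def rD8k_36_1 : List RJ :=
  [.l (nat_lit 13) (nat_lit 0x780) (nat_lit 3) (nat_lit 0x39a0000032100000321000003970000035d000002bf0000030e0000030e0000032500000312000003670000036700000383000002f8000002c30000035e) (nat_lit 0x79000000000000000300000079000000db0000003d0000008c0000008c00000088000000750000003300000033000000a2000000170000003c000000d7)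
    (nat_lit 0x1dd8ca89b03c41600d786183160f20c946b832417c07806bc2c31540eec7782a816e892c3de2671870d485d42790f28c284842e01540f1076e2a813a09183de1fe1870d485dc2790f48c384962e41de13607283b715e0d6861630d0f00c406b236417c07806b432c1258d786b42461400c805c62d116a8ba09944591278d443c028316e8b005782740f00a0047823311b890464e2b610e8b9c4f61e01338c5861a1fe1198b4451628612e0a405382db13a09705a22370f78c306161ef11e0b8c52828b1430a644642db16d0b085a42281a90c946203521208ba053229014e8a7864e2f21490edc5d61e018707903c030e11b8b5450c25c15a8a745be2df1270bec63220e13c8c906c827915b11645b62db16f8bc86683091790d408b22b21750d706b22ee193932846429c16f8c9c6683341628d4099c32718507803c030e1738d4458425c17d8edc6a03501250db06a42ac0f28be05f01e910e893c5b42741270a4858a2f213109285782211700b0c6582e40f00a0c450237107078064e2b21108ab050e1e01210d786b424b13d87805a42d118c8bac99c45915e0d48724287)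
    (nat_lit 0x1dd9e00f007803c01e00f007803c01e00f007803c01e00f007801950eecf007803c01e00f007803c01e00f007803c01e00f0078026c0ef076e7803c01e00f007803c01e00f007803c01e00f007801e20aa05503b73c01e00f007803c01e00f007803c01e00f007801600b744e82bc1401e00f007803c01e00f007803c01e00f007801af092c48c35a1900a00f007803c01e00f007803c01e00f0078018607bc3de30b17188f05167803c01e00f007803c01e00f0078018b099c3fc30d16888cc50c28b3c01e00f007803c01e00f007800f20c3861c1e016a88dc4b828614e9e00f007803c01e00f007801928d486a4310174090452029914f0a74f007803c01e00f007801ae0ba85dc3592650c9c5382321938b7c6687803c01e00f0078019209e44f236422c8ad85b62db1790b7c6123343c01e00f0078017c07943d22f812788744e82da14909385e42c51251e00f007800f00c2861c1e01a88b9c4b82c21db8bec6a03501b60928f007801af090849635a0f009ec5a22d21758c648b24ce1a90af050e7801618b805c832c141878046e2280f0083856432715608843c0287)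
    (nat_lit 3) (nat_lit 83)
    [[nat_lit 2,nat_lit 0x100002,nat_lit 17,nat_lit 0x10011,nat_lit 0x10000011,nat_lit 0x1001,nat_lit 0x11001,
    nat_lit 0x10001,nat_lit 0x100001,nat_lit 0x100011,nat_lit 0x101001,nat_lit 0x110001,nat_lit 0x200001,
    nat_lit 0x1000001,nat_lit 0x1000011,nat_lit 0x1001001,nat_lit 0x10000001,nat_lit 0x10001001],[nat_lit 32,
    nat_lit 48,nat_lit 0x1000020,nat_lit 0x10000020,nat_lit 272,nat_lit 0x1000110,nat_lit 0x10000110,nat_lit 0x1010,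
    nat_lit 0x11010,nat_lit 0x10010,nat_lit 0x20010,nat_lit 0x1010010,nat_lit 0x10010010,nat_lit 0x100010,
    nat_lit 0x110010,nat_lit 0x1100010,nat_lit 0x10100010,nat_lit 0x1000010,nat_lit 0x10000010],[nat_lit 512,
    nat_lit 0x1100,nat_lit 0x10100,nat_lit 0x1000100,nat_lit 0x10000100],[nat_lit 0x2000,nat_lit 0x11000,
    nat_lit 0x1011000,nat_lit 0x10011000,nat_lit 0x101000,nat_lit 0x1001000,nat_lit 0x1101000,nat_lit 0x10001000,
    nat_lit 0x10101000],[nat_lit 0x20000,nat_lit 0x110000,nat_lit 0x1010000,nat_lit 0x1110000,nat_lit 0x10010000],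
    [nat_lit 0x200000,nat_lit 0x1100000,nat_lit 0x10100000],[nat_lit 0x2000000],[nat_lit 0x20000000]]
    [.c (nat_lit 1) (nat_lit 2),.r (nat_lit 0x1193) (nat_lit 11) [nat_lit 0x411,nat_lit 0xa11,nat_lit 0x30819,
    nat_lit 0x80001],.c (nat_lit 0) (nat_lit 0x1b013),.c (nat_lit 0) (nat_lit 0x1b013),
    .r (nat_lit 0x1460) (nat_lit 11) [nat_lit 0x401,nat_lit 0x80001,nat_lit 0x611],.c (nat_lit 0) (nat_lit 0x1b613),
    .c (nat_lit 0) (nat_lit 0x1b013),.c (nat_lit 0) (nat_lit 0x2d6e3),.c (nat_lit 1) (nat_lit 130),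
    .r (nat_lit 0xdb2) (nat_lit 4) [nat_lit 0x80001,nat_lit 0xc0099],.c (nat_lit 0) (nat_lit 0x2d6e3),
    .c (nat_lit 0) (nat_lit 0x2d6e3),.r (nat_lit 0x1193) (nat_lit 11) [nat_lit 0x811,nat_lit 0x611,nat_lit 0x30419,
    nat_lit 0x80001],.r (nat_lit 0xdbb) (nat_lit 10) [nat_lit 0x611,nat_lit 0x10401],
    .r (nat_lit 0x1512) (nat_lit 8) [nat_lit 0x10401,nat_lit 0x900d1,nat_lit 0x18099],
    .r (nat_lit 0xdc2) (nat_lit 14) [nat_lit 0x10001,nat_lit 0x18099],.r (nat_lit 0xdbc) (nat_lit 13) [nat_lit 17,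
    nat_lit 0x10001],.r (nat_lit 0x15fd) (nat_lit 4) [nat_lit 0x10401,nat_lit 0x900d1,nat_lit 0x18099],
    .c (nat_lit 2) (nat_lit 2),.r (nat_lit 0x13c6) (nat_lit 11) [nat_lit 17,nat_lit 0x401,nat_lit 0x10001,
    nat_lit 0x80001],.r (nat_lit 0x15aa) (nat_lit 4) [nat_lit 0x10001,nat_lit 0x1120d9,nat_lit 0xdb091],
    .r (nat_lit 0xdc0) (nat_lit 8) [nat_lit 0x10401,nat_lit 0x82019],.c (nat_lit 0) (nat_lit 0x1d6d2),
    .c (nat_lit 0) (nat_lit 0x2d6d2),.c (nat_lit 0) (nat_lit 0x1d6d2),.c (nat_lit 0) (nat_lit 0x1b0d3),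
    .c (nat_lit 0) (nat_lit 0x1b013),.c (nat_lit 0) (nat_lit 0x403),.r (nat_lit 0x13c6) (nat_lit 11) [nat_lit 0x4019,
    nat_lit 0x401,nat_lit 0x10001,nat_lit 0x80001],.r (nat_lit 0x15fd) (nat_lit 4) [nat_lit 0x10401,nat_lit 0x80019,
    nat_lit 17],.r (nat_lit 0xdc2) (nat_lit 14) [nat_lit 0x10001,nat_lit 17],.c (nat_lit 0) (nat_lit 0x1b0d3),
    .c (nat_lit 0) (nat_lit 0x1b0d3),.r (nat_lit 0x1512) (nat_lit 8) [nat_lit 0x10401,nat_lit 0x904d1,
    nat_lit 0x18699],.r (nat_lit 0x1460) (nat_lit 11) [nat_lit 0x401,nat_lit 0x80001,nat_lit 17],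
    .r (nat_lit 0xdc2) (nat_lit 14) [nat_lit 0x10001,nat_lit 0x82019],
    .r (nat_lit 0x15fd) (nat_lit 4) [nat_lit 0x10401,nat_lit 0x3011,nat_lit 0x82019],.c (nat_lit 3) (nat_lit 2),
    .r (nat_lit 0xdbd) (nat_lit 8) [nat_lit 17,nat_lit 0x80001],.r (nat_lit 0xdbb) (nat_lit 4) [nat_lit 0x80001,
    nat_lit 17],.r (nat_lit 0xdbc) (nat_lit 13) [nat_lit 0x90419,nat_lit 0x10001],
    .r (nat_lit 0xdbb) (nat_lit 10) [nat_lit 0x90019,nat_lit 0x10401],.c (nat_lit 4) (nat_lit 2),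
    .c (nat_lit 0) (nat_lit 0x2d763),.r (nat_lit 0x1460) (nat_lit 11) [nat_lit 0x401,nat_lit 0x80001,nat_lit 0x18699],
    .r (nat_lit 0x1512) (nat_lit 8) [nat_lit 0x10401,nat_lit 0x80019,nat_lit 17],.c (nat_lit 0) (nat_lit 0x1b6d3),
    .r (nat_lit 0xdba) (nat_lit 14) [nat_lit 0x10001,nat_lit 17],.r (nat_lit 0xdc2) (nat_lit 14) [nat_lit 0x10001,
    nat_lit 0x18699],.r (nat_lit 0x161e) (nat_lit 8) [nat_lit 0x80019,nat_lit 17],
    .r (nat_lit 0x15fd) (nat_lit 4) [nat_lit 0x10401,nat_lit 0x904d1,nat_lit 0x18699],.c (nat_lit 5) (nat_lit 2),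
    .c (nat_lit 0) (nat_lit 0x2d763),.r (nat_lit 0xdc0) (nat_lit 8) [nat_lit 0x10401,nat_lit 17],
    .r (nat_lit 0xdb4) (nat_lit 11) [nat_lit 0x10401,nat_lit 17],.r (nat_lit 0x15aa) (nat_lit 4) [nat_lit 0x10001,
    nat_lit 0x900d1,nat_lit 0x18099],.c (nat_lit 6) (nat_lit 2),.r (nat_lit 0xdbb) (nat_lit 10) [nat_lit 17,
    nat_lit 0x10401],.r (nat_lit 0xdbc) (nat_lit 13) [nat_lit 0x411,nat_lit 0x10001],.c (nat_lit 7) (nat_lit 2),
    .c (nat_lit 8) (nat_lit 2)],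
    .l (nat_lit 13) (nat_lit 0x788) (nat_lit 3) (nat_lit 0x3470000039500000320000003200000031a0000031a00000307000003400000031c00000379000002fb00000372000003be0000039b0000034900000349) (nat_lit 0x29000000770000009e0000009e000000a4000000a40000007e000000b700000045000000a20000004c000000c300000023000000000000007500000075)
    (nat_lit 0x18f0b405a62a915b8a8c3c42901960a943c41e21920d1c5a42661e20c7859e2f717189f46902de0f10bb06fc2d21b9078864034a17b8aa45ec22a13e0a9055227716d893490e3cb1698bac5562ab1678b4c4d02f613e09f061e24f180897477a30117e8bfc5562b313e8a8c4f82a41480a4057a263118882c5de23117788c44f62a51718adc4f827c1340a4053826316e88e45ee28f1818c6854a2a516f0a4049e277131898c59025e145099457623c1720b784fc2861a4078861e2a914e0af45842c817a0a785e82360f10d205962cb1760a944ba24d11c882c53c26518f09e859026017c8c7071c3e20f10cb06022db16e88c45e828a1a20c7865a2b61ab0d5074c3fa16907886023cb14788c446c23c15b09805a82280f10bec4b82861bf078877a48717b8bbc5e82bb1968b2064c2d41510dc85fa2d40f10d1c5fe2eb18d08c46902de1aa0c706e42fb1e20ef88c43f61b90c905fa2d31818bbc3c42e41ab0be45441e21e50f107243261a509985662ab1528a945962861fd0f885a82861930fd85a82821900b485562ab15289ec59627e1d30e385fa25c1c911885a82d4)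
    (nat_lit 0x18f1e20f107883c41e20f107883c41e20f107883c41e20f107881680c78f107883c41e20f107883c41e20f107883c41e20f107881698b3c5ec7883c41e20f107883c41e20f107883c41e20f107881548bdc4542f63c41e20f107883c41e20f107883c41e20f1078815b8b8c4f827c1481e20f107883c41e20f107883c41e20f1078815189f454827c1480a40f107883c41e20f107883c41e20f107880f10d2055230f15e8a705907883c41e20f107883c41e20f107881480b784ee24f131898c4bc2c83c41e20f107883c41e20f1078819607885b63011188b745142f418f1e20f107883c41e20f107881528bb049a25d10588e44ca29e13d0c78f107883c41e20f107880f10df890e3bd1778bdc5762f41640cb45a87883c41e20f107880f10b487963011188a3c4782361300ad84502d43c41e20f107881920dc85a62fd1778c0c5c81e217c8d583c42a21e21e20f107881a387885d62ff1188c685bc34818e0d505f63721df0f10f107881690c805562ab13d8a944fc2cb1c70e984b82fd2310e485a87881330d285562b31528a9450c2cb1f10fe850c2d41fb0c985042d4)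
    (nat_lit 3) (nat_lit 49)
    [[nat_lit 2,nat_lit 257,nat_lit 0x10001,nat_lit 0x100001,nat_lit 0x1000001,nat_lit 0x10000001],[nat_lit 272,
    nat_lit 0x100110,nat_lit 0x10000110,nat_lit 0x1010,nat_lit 0x10010,nat_lit 0x10010010,nat_lit 0x110010,
    nat_lit 0x1010010,nat_lit 0x100010,nat_lit 0x1000010,nat_lit 0x1100010,nat_lit 0x10000010],[nat_lit 512,
    nat_lit 0x1100,nat_lit 0x10001100,nat_lit 0x10100,nat_lit 0x10010100,nat_lit 0x100100,nat_lit 0x10100100,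
    nat_lit 0x10000100],[nat_lit 0x2000,nat_lit 0x11000,nat_lit 0x111000,nat_lit 0x10011000,nat_lit 0x101000,
    nat_lit 0x201000,nat_lit 0x1101000,nat_lit 0x1001000,nat_lit 0x10001000,nat_lit 0x10101000,nat_lit 0x11001000],
    [nat_lit 0x20000,nat_lit 0x110000,nat_lit 0x1010000,nat_lit 0x10010000,nat_lit 0x10110000,nat_lit 0x11010000],
    [nat_lit 0x200000,nat_lit 0x1100000,nat_lit 0x2100000,nat_lit 0x10100000],[nat_lit 0x2000000,nat_lit 0x11000000],
    [nat_lit 0x20000000]]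
    [.c (nat_lit 1) (nat_lit 2),.r (nat_lit 0xdbc) (nat_lit 11) [nat_lit 0x90002,nat_lit 0xc312a],
    .r (nat_lit 0x161e) (nat_lit 15) [nat_lit 0x9002a,nat_lit 17],.r (nat_lit 0xdb3) (nat_lit 11) [nat_lit 0x90002,
    nat_lit 0xc2b2a],.r (nat_lit 0xdbb) (nat_lit 7) [nat_lit 0xc312a,nat_lit 17],
    .r (nat_lit 0x14e7) (nat_lit 13) [nat_lit 0x82962,nat_lit 0x112942,nat_lit 0xc3b02],
    .r (nat_lit 0xdbb) (nat_lit 7) [nat_lit 0x15bb22,nat_lit 0x9082a],
    .r (nat_lit 0x147c) (nat_lit 2) [nat_lit 0xc3b02,nat_lit 0x401,nat_lit 0x90002,nat_lit 0xd8a22],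
    .r (nat_lit 0xdb2) (nat_lit 15) [nat_lit 0x90002,nat_lit 0x8282a],.c (nat_lit 1) (nat_lit 0x2765),
    .c (nat_lit 0) (nat_lit 0x10085),.c (nat_lit 0) (nat_lit 0x10085),.c (nat_lit 0) (nat_lit 0x10405),
    .r (nat_lit 0xdb3) (nat_lit 15) [nat_lit 0x90002,nat_lit 0x15bb22],.c (nat_lit 0) (nat_lit 0x10405),
    .r (nat_lit 0xdbc) (nat_lit 11) [nat_lit 0x90002,nat_lit 0x15bb22],
    .r (nat_lit 0xdb3) (nat_lit 11) [nat_lit 0x90002,nat_lit 0x15bb22],.c (nat_lit 0) (nat_lit 0x10005),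
    .c (nat_lit 3) (nat_lit 2),.r (nat_lit 0xdbb) (nat_lit 7) [nat_lit 17,nat_lit 0xc312a],
    .r (nat_lit 0xdb2) (nat_lit 15) [nat_lit 0x90002,nat_lit 0xd812a],.r (nat_lit 0x1608) (nat_lit 1) [nat_lit 0x611,
    nat_lit 0xc3b02,nat_lit 0x401],.r (nat_lit 0xdb3) (nat_lit 11) [nat_lit 0x90002,nat_lit 0xd812a],
    .r (nat_lit 0x15aa) (nat_lit 11) [nat_lit 17,nat_lit 0x13a22,nat_lit 0x8282a],
    .r (nat_lit 0xdb3) (nat_lit 15) [nat_lit 0x90002,nat_lit 0xd812a],.r (nat_lit 0xdb8) (nat_lit 13) [nat_lit 17,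
    nat_lit 0x90002],.c (nat_lit 4) (nat_lit 2),.c (nat_lit 0) (nat_lit 0x1b6e5),.c (nat_lit 0) (nat_lit 0x1b165),
    .c (nat_lit 0) (nat_lit 0x1b6e5),.c (nat_lit 0) (nat_lit 0x1b165),.r (nat_lit 0xdbb) (nat_lit 7) [nat_lit 0x3411,
    nat_lit 0xc2b2a],.r (nat_lit 0xdb3) (nat_lit 11) [nat_lit 0x90002,nat_lit 17],
    .r (nat_lit 0xdbc) (nat_lit 11) [nat_lit 0x90002,nat_lit 17],.c (nat_lit 0) (nat_lit 0x1b765),
    .c (nat_lit 0) (nat_lit 0x1b165),.r (nat_lit 0x11d0) (nat_lit 4) [nat_lit 0x401,nat_lit 0xc3b02,nat_lit 0x90002,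
    nat_lit 0x82162],.c (nat_lit 5) (nat_lit 2),.c (nat_lit 0) (nat_lit 0x3405),
    .r (nat_lit 0xdbb) (nat_lit 15) [nat_lit 0x90002,nat_lit 17],.c (nat_lit 0) (nat_lit 0x3005),
    .c (nat_lit 0) (nat_lit 0x3405),.r (nat_lit 0x147c) (nat_lit 2) [nat_lit 0xc3b02,nat_lit 0x401,nat_lit 0x90002,
    nat_lit 0x1a02a],.c (nat_lit 6) (nat_lit 2),.c (nat_lit 0) (nat_lit 0x403),
    .r (nat_lit 0x15aa) (nat_lit 11) [nat_lit 0x2419,nat_lit 0x1202a,nat_lit 0x83022],.c (nat_lit 0) (nat_lit 0x3405),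
    .c (nat_lit 7) (nat_lit 2),.r (nat_lit 0x161e) (nat_lit 4) [nat_lit 0x611,nat_lit 0x401],
    .c (nat_lit 8) (nat_lit 2)],
    .l (nat_lit 13) (nat_lit 0x640) (nat_lit 3) (nat_lit 0x2cb000002cb00000283000002e7000002db0000026b0000027d0000027d000002bf00000287000002fc000002fc000002870000024700000269000002e9) (nat_lit 0x3100000031000000150000007900000091000000210000007f0000007f000000750000003d0000000000000000000000b5000000750000001300000093)
    (nat_lit 0x14d0a687dc2dc1250aa84702520d509305962cb10b064057027614d0a686c825211d087047825612b08f059626910b064045c2661290b705f820a0f406d04ac20413809586922830d008384e01f01b20fb85a42fc12b0b184d01fc0c80aa877a2f714906905a819010e0aa858c1b415b0ae84b825c12b0a787523bd17506403201e811d09284ac1e80e30ad83a41ec0fb06405062970fd07d84a419012b09483f82040f609705382120ee09684fa27d10807c04b41a611e08e04d02560e9097048029c112090038226d0da09e85581d411e09305542560c80a7848025a12d090049a2a31100c1858024012b06a83202700fb09584481dc109096850e2870d50a404e81ac1348b2c5ee28314b8ef44da27d1438a8c4fc2fc1478a1c72a2911658b2c77a3491418ea438227d143893453027e1238a1c75e2ab0c8064034820e0fb06404f41f01480c1850e2870c809d84e81f410b08585241a00fd0ba83682100d5088048e28f0c906403ec1b413309d83201f00c807a03a81a60d609005562910da07d04ac1d61170ae05a8270129064055825a13a0b0075e3950fb09d05ac256)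
    (nat_lit 0x14d1900c806403201900c806403201900c806403201900c8064014d0a68c806403201900c806403201900c806403201900c806401f70d905f86403201900c806403201900c806403201900c8064016e09484142fc3201900c806403201900c806403201900c8064012508e83d025615b1900c806403201900c806403201900c8064015508703682c615d0ad8c806403201900c806403201900c8064011c08f04ac26812e07485386403201900c806403201900c8064012909584081fc12e07b042429c3201900c806403201900c806400d509584e019012b07d83b822412d1900c806403201900c8064012608f04ac2aa14f06404b42401200968c806403201900c806401658b2c6923bd1d48a0c4fa1c11268a1c4fc6403201900c8064016589a45062f71de8a5c4fa26d1518a1c5f827e3201900c8064010b085834029217507e84201b411006a851e2470c81900c806400c8064041c1a40c807d83e027a1830a4050e28713b0640c8064015c08b84e02d40c809484b42ac16009d072a3af13a07d84ac64013b09983e01900f4064034c1d412006b05222ab0fa06d03ac256)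
    (nat_lit 3) (nat_lit 83)
    [[nat_lit 2,nat_lit 0x100002,nat_lit 17,nat_lit 33,nat_lit 0x10011,nat_lit 0x1000011,nat_lit 0x100011,
    nat_lit 0x10000011,nat_lit 0x1001,nat_lit 0x101001,nat_lit 0x10001,nat_lit 0x110001,nat_lit 0x100001,
    nat_lit 0x200001,nat_lit 0x1100001,nat_lit 0x1000001,nat_lit 0x10000001,nat_lit 0x10001001,nat_lit 0x10010001],
    [nat_lit 32,nat_lit 48,nat_lit 0x10020,nat_lit 0x100020,nat_lit 0x1000020,nat_lit 0x10000020,nat_lit 272,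
    nat_lit 0x1010,nat_lit 0x11010,nat_lit 0x101010,nat_lit 0x1001010,nat_lit 0x10001010,nat_lit 0x10010,
    nat_lit 0x110010,nat_lit 0x1010010,nat_lit 0x10010010,nat_lit 0x100010,nat_lit 0x1100010,nat_lit 0x10100010,
    nat_lit 0x1000010,nat_lit 0x10000010,nat_lit 0x11000010],[nat_lit 512,nat_lit 0x1100,nat_lit 0x10100,
    nat_lit 0x10000100],[nat_lit 0x2000,nat_lit 0x11000,nat_lit 0x111000,nat_lit 0x101000,nat_lit 0x1001000,
    nat_lit 0x1011000,nat_lit 0x1101000,nat_lit 0x11001000,nat_lit 0x10001000,nat_lit 0x10101000],[nat_lit 0x20000,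
    nat_lit 0x110000,nat_lit 0x1110000,nat_lit 0x1010000,nat_lit 0x10010000],[nat_lit 0x200000,nat_lit 0x1100000,
    nat_lit 0x10100000],[nat_lit 0x2000000],[nat_lit 0x20000000]]
    [.c (nat_lit 1) (nat_lit 2),.r (nat_lit 0x1193) (nat_lit 11) [nat_lit 0x411,nat_lit 0xa11,nat_lit 0x6819,
    nat_lit 0x10001],.c (nat_lit 0) (nat_lit 0x3613),.r (nat_lit 0x1628) (nat_lit 11) [nat_lit 0x401,nat_lit 0x611,
    nat_lit 0x2001,nat_lit 0x10001],.c (nat_lit 0) (nat_lit 0x3613),.r (nat_lit 0x1512) (nat_lit 8) [nat_lit 0x2401,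
    nat_lit 0x120d1,nat_lit 0x3099],.r (nat_lit 0xdb2) (nat_lit 4) [nat_lit 0x10001,nat_lit 0x18099],
    .r (nat_lit 0x1460) (nat_lit 11) [nat_lit 0x401,nat_lit 0x10001,nat_lit 0x611],.c (nat_lit 0) (nat_lit 0x3613),
    .r (nat_lit 0xdb3) (nat_lit 4) [nat_lit 0x10001,nat_lit 0x18099],.c (nat_lit 0) (nat_lit 0x3613),
    .r (nat_lit 0xdb2) (nat_lit 8) [nat_lit 0x10001,nat_lit 0x18099],.c (nat_lit 1) (nat_lit 130),
    .r (nat_lit 0x1193) (nat_lit 11) [nat_lit 0x811,nat_lit 0x611,nat_lit 0x6419,nat_lit 0x10001],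
    .r (nat_lit 0x1149) (nat_lit 11) [nat_lit 0x18411,nat_lit 0x14419,nat_lit 0x18611,nat_lit 0x10001],
    .r (nat_lit 0xdbb) (nat_lit 10) [nat_lit 0x611,nat_lit 0x2401],.r (nat_lit 0xdbc) (nat_lit 13) [nat_lit 17,
    nat_lit 0x2001],.r (nat_lit 0x118f) (nat_lit 8) [nat_lit 0x401,nat_lit 0x2001,nat_lit 0x10419,nat_lit 0x611],
    .r (nat_lit 0x15ea) (nat_lit 4) [nat_lit 0x2001,nat_lit 0x120d1,nat_lit 0x3099],.c (nat_lit 2) (nat_lit 2),
    .r (nat_lit 0x13c6) (nat_lit 11) [nat_lit 17,nat_lit 0x401,nat_lit 0x2001,nat_lit 0x10001],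
    .r (nat_lit 0x1630) (nat_lit 11) [nat_lit 0x401,nat_lit 17,nat_lit 0x2001,nat_lit 0x10001],
    .r (nat_lit 0x1628) (nat_lit 11) [nat_lit 0x401,nat_lit 17,nat_lit 0x2001,nat_lit 0x10001],
    .r (nat_lit 0x146d) (nat_lit 11) [nat_lit 0x401,nat_lit 0x18011,nat_lit 0x2001,nat_lit 0x10001],
    .r (nat_lit 0x162f) (nat_lit 11) [nat_lit 0x401,nat_lit 17,nat_lit 0x2001,nat_lit 0x10001],
    .r (nat_lit 0xdb9) (nat_lit 8) [nat_lit 17,nat_lit 0x10001],.c (nat_lit 0) (nat_lit 0x36d3),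
    .c (nat_lit 0) (nat_lit 0x3613),.c (nat_lit 0) (nat_lit 0x36d3),.r (nat_lit 0x15ea) (nat_lit 4) [nat_lit 0x2001,
    nat_lit 0x10019,nat_lit 17],.r (nat_lit 0xdb4) (nat_lit 11) [nat_lit 0x2401,nat_lit 0x3699],
    .c (nat_lit 0) (nat_lit 0x36d3),.c (nat_lit 0) (nat_lit 0x36d3),.r (nat_lit 0x118f) (nat_lit 8) [nat_lit 0x401,
    nat_lit 0x2001,nat_lit 0x124d1,nat_lit 0x3699],.r (nat_lit 0xdc2) (nat_lit 14) [nat_lit 0x2001,nat_lit 17],
    .c (nat_lit 0) (nat_lit 0x36d3),.r (nat_lit 0x1512) (nat_lit 8) [nat_lit 0x2401,nat_lit 0x124d1,nat_lit 0x3699],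
    .r (nat_lit 0x1460) (nat_lit 11) [nat_lit 0x401,nat_lit 0x10001,nat_lit 17],
    .r (nat_lit 0xdbf) (nat_lit 10) [nat_lit 17,nat_lit 0x2001],.r (nat_lit 0x1629) (nat_lit 11) [nat_lit 0x401,
    nat_lit 17,nat_lit 0x2001,nat_lit 0x10001],.c (nat_lit 0) (nat_lit 0x3002),.c (nat_lit 3) (nat_lit 2),
    .r (nat_lit 0xdbd) (nat_lit 8) [nat_lit 17,nat_lit 0x10001],.r (nat_lit 0xdbb) (nat_lit 4) [nat_lit 0x10001,
    nat_lit 17],.r (nat_lit 0xdbb) (nat_lit 10) [nat_lit 0x12019,nat_lit 0x2401],.c (nat_lit 4) (nat_lit 2),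
    .c (nat_lit 0) (nat_lit 0x36d3),.c (nat_lit 0) (nat_lit 0x36d3),.c (nat_lit 0) (nat_lit 0x36d3),
    .r (nat_lit 0xdba) (nat_lit 14) [nat_lit 0x2001,nat_lit 17],.r (nat_lit 0x1460) (nat_lit 11) [nat_lit 0x401,
    nat_lit 0x10001,nat_lit 0x3699],.r (nat_lit 0xdc2) (nat_lit 14) [nat_lit 0x2001,nat_lit 0x3699],
    .c (nat_lit 0) (nat_lit 0x3002),.r (nat_lit 0x161e) (nat_lit 8) [nat_lit 0x10019,nat_lit 17],
    .r (nat_lit 0x118f) (nat_lit 8) [nat_lit 0x401,nat_lit 0x2001,nat_lit 0x10019,nat_lit 17],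
    .c (nat_lit 5) (nat_lit 2),.c (nat_lit 0) (nat_lit 0x36d3),.r (nat_lit 0xdb4) (nat_lit 11) [nat_lit 0x2401,
    nat_lit 17],.r (nat_lit 0xdc0) (nat_lit 8) [nat_lit 0x2401,nat_lit 17],
    .r (nat_lit 0x160d) (nat_lit 8) [nat_lit 0x10019,nat_lit 17,nat_lit 0x2401],.c (nat_lit 6) (nat_lit 2),
    .r (nat_lit 0xdbb) (nat_lit 10) [nat_lit 17,nat_lit 0x2401],.r (nat_lit 0xdbc) (nat_lit 13) [nat_lit 0x411,
    nat_lit 0x2001],.c (nat_lit 7) (nat_lit 2),.c (nat_lit 8) (nat_lit 2)]]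

/-- nodes -/
noncomputable def rD8k_36_2 : List RJ :=
  [.l (nat_lit 12) (nat_lit 960) (nat_lit 4) (nat_lit 0x1f6000001ec000001a6000001a6000001ab000001ab0000019a0000019a000001a2000001a2000001a4000001ac0000019a0000019a000001b6000001b6) (nat_lit 0xa0000000000000050000000500000004b0000004b0000005c0000005c00000054000000540000004a000000520000005c0000005c0000004000000040)
    (nat_lit 0x1ec1f622421e20921116a19a1a21a20a017e19a19a1b60a01de1ec1a219c1af1b719017e18e1981b21bc1761901341ac19c21e14015a16d15514a13c13015215c15e14a13a1661801a222415614015b15b1481421521521661541461541001661b721115b15516816014f14f15715915715914f1450ed16f1af20915b16d16416814d14f15713514f15913314916b16b17e19a14213c14f14f16013a14614815614813e1500fc17619016a14814a14d14f14e16016c14614414614813e15a1641981a215215213515914614815013e15812a13c15219215818e1a215213015715716c14613215015815014613c18817e1bc17e15415e15915914614815012a16416e12c1481641641b20a016615c14f15714415615815816216415a15016c16219019a15413a14914513e15013c15215014814813e26615017619a14614a13314f14813e14613c15a12c13e14827015a1ac0a016618016b16f16417617e15816216415a1501761761341b610016616b0ed15a0fc18819216c164270266176176)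
    (nat_lit 0x1ec3c03c03c03c03c03c03c03c03c03c03c03c03c03c03c01f61ec3c03c03c03c03c03c03c03c03c03c03c03c03c03c02241a21403c03c03c03c03c03c03c03c03c03c03c03c03c021e19c15a1403c03c03c03c03c03c03c03c03c03c03c03c02091af16d15b1683c03c03c03c03c03c03c03c03c03c03c02111b715515b1601683c03c03c03c03c03c03c03c03c03c016a19014a14814f14d1603c03c03c03c03c03c03c03c03c019a17e13c14214f14f13a1603c03c03c03c03c03c03c03c01a218e13015215715714616c1503c03c03c03c03c03c03c01a219815215215913514814613e1503c03c03c03c03c03c00a01b215c16615714f1561441581581643c03c03c03c03c017e1bc15e15415915914814612a15016e1643c03c03c03c019a17614a14614f13313e14813c14612c15a1483c03c03c019a19013a15414514915013e15213c14815013e1483c03c01b61341661000ed16b0fc15a19218816416c2362201763c00a01ac18016616f16b17616415817e16416215015a176176)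
    (nat_lit 3) (nat_lit 73)
    [[nat_lit 2,nat_lit 0x10000002,nat_lit 257,nat_lit 0x10000101,nat_lit 0x1001,nat_lit 0x10001,nat_lit 0x10011,
    nat_lit 0x10101,nat_lit 0x110001,nat_lit 0x1010001,nat_lit 0x10010001,nat_lit 0x100001,nat_lit 0x100011,
    nat_lit 0x100101,nat_lit 0x101001,nat_lit 0x10100001,nat_lit 0x1000001,nat_lit 0x11000001,nat_lit 0x1000011,
    nat_lit 0x1001001,nat_lit 0x10000001,nat_lit 0x20000002],[nat_lit 32,nat_lit 272,nat_lit 0x10000110,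
    nat_lit 0x1010,nat_lit 0x10010,nat_lit 0x100010,nat_lit 0x1000010,nat_lit 0x10000010],[nat_lit 512,nat_lit 0x1100,
    nat_lit 0x2100,nat_lit 0x10100,nat_lit 0x11100,nat_lit 0x100100,nat_lit 0x1000100,nat_lit 0x10000100,
    nat_lit 0x10001100,nat_lit 0x10010100,nat_lit 0x10100100,nat_lit 0x11000100],[nat_lit 0x2000,nat_lit 0x11000,
    nat_lit 0x101000,nat_lit 0x1001000,nat_lit 0x1011000,nat_lit 0x10001000],[nat_lit 0x20000,nat_lit 0x110000,
    nat_lit 0x1010000,nat_lit 0x10010000],[nat_lit 0x200000,nat_lit 0x1100000],[nat_lit 0x2000000],[]]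
    [.c (nat_lit 1) (nat_lit 2),.c (nat_lit 0) (nat_lit 194),.r (nat_lit 0xdb2) (nat_lit 8) [nat_lit 0x10001,
    nat_lit 0x2622],.r (nat_lit 0x1552) (nat_lit 11) [nat_lit 0x10001,nat_lit 0x2b702,nat_lit 0x22562],
    .r (nat_lit 0x1542) (nat_lit 15) [nat_lit 0x242a,nat_lit 17,nat_lit 0x10001],
    .r (nat_lit 0xdb3) (nat_lit 8) [nat_lit 0x10001,nat_lit 0x2622],.c (nat_lit 0) (nat_lit 0x6c4),
    .r (nat_lit 0xdb8) (nat_lit 10) [nat_lit 0x2b52a,nat_lit 0x10001],.r (nat_lit 0xdb2) (nat_lit 8) [nat_lit 0x10001,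
    nat_lit 0x18099],.r (nat_lit 0x1549) (nat_lit 6) [nat_lit 0x10001,nat_lit 0x2402,nat_lit 0x2b622],
    .r (nat_lit 0x1545) (nat_lit 13) [nat_lit 0x10001,nat_lit 0x18011,nat_lit 0x2242a],
    .r (nat_lit 0xdb8) (nat_lit 10) [nat_lit 17,nat_lit 0x10001],.c (nat_lit 0) (nat_lit 0x6c4),
    .r (nat_lit 0xdb3) (nat_lit 8) [nat_lit 0x10001,nat_lit 0x18099],.r (nat_lit 0xdb3) (nat_lit 4) [nat_lit 0x10001,
    nat_lit 0x18099],.r (nat_lit 0x1552) (nat_lit 4) [nat_lit 0x2402,nat_lit 0x2b702,nat_lit 0x22562],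
    .r (nat_lit 0x14ca) (nat_lit 8) [nat_lit 0x3622,nat_lit 0x2242a,nat_lit 0x2402],.c (nat_lit 0) (nat_lit 0x3002),
    .c (nat_lit 0) (nat_lit 0x6c4),.r (nat_lit 0x1553) (nat_lit 15) [nat_lit 0x10001,nat_lit 0x242a,nat_lit 17],
    .r (nat_lit 0xdb8) (nat_lit 8) [nat_lit 0x2242a,nat_lit 17],.c (nat_lit 0) (nat_lit 194),
    .c (nat_lit 2) (nat_lit 2),.r (nat_lit 0xdb9) (nat_lit 8) [nat_lit 17,nat_lit 0x10001],
    .r (nat_lit 0x154d) (nat_lit 5) [nat_lit 0x2402,nat_lit 0x601,nat_lit 0x10001,nat_lit 0x3622],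
    .c (nat_lit 0) (nat_lit 0x403),.r (nat_lit 0xdbc) (nat_lit 8) [nat_lit 0x10001,nat_lit 17],
    .r (nat_lit 0x161e) (nat_lit 11) [nat_lit 0x242a,nat_lit 17],.r (nat_lit 0xdb8) (nat_lit 8) [nat_lit 17,
    nat_lit 0x2242a],.r (nat_lit 0x14ca) (nat_lit 8) [nat_lit 0x10019,nat_lit 17,nat_lit 0x2402],
    .c (nat_lit 3) (nat_lit 2),.c (nat_lit 0) (nat_lit 0x56e5),.r (nat_lit 0x14d1) (nat_lit 11) [nat_lit 0x10001,
    nat_lit 0x22562,nat_lit 0x22d62,nat_lit 0x2a72a],.c (nat_lit 0) (nat_lit 0x56e5),.c (nat_lit 0) (nat_lit 0x56e5),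
    .c (nat_lit 0) (nat_lit 0x56e5),.r (nat_lit 0x161e) (nat_lit 4) [nat_lit 0x10019,nat_lit 17],
    .r (nat_lit 0xdb8) (nat_lit 13) [nat_lit 17,nat_lit 0x2402],.r (nat_lit 0xdb2) (nat_lit 15) [nat_lit 0x2402,
    nat_lit 0x372a],.r (nat_lit 0xdb3) (nat_lit 11) [nat_lit 0x2402,nat_lit 0x372a],
    .r (nat_lit 0xdb3) (nat_lit 15) [nat_lit 0x2402,nat_lit 0x372a],.c (nat_lit 0) (nat_lit 0x3002),
    .c (nat_lit 4) (nat_lit 2),.c (nat_lit 0) (nat_lit 0x56e5),.c (nat_lit 0) (nat_lit 0x56e5),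
    .r (nat_lit 0xdbc) (nat_lit 11) [nat_lit 0x2402,nat_lit 17],.r (nat_lit 0xdb3) (nat_lit 15) [nat_lit 0x2402,
    nat_lit 17],.r (nat_lit 0x161e) (nat_lit 8) [nat_lit 0x10019,nat_lit 17],.c (nat_lit 5) (nat_lit 2),
    .c (nat_lit 0) (nat_lit 0x56e5),.r (nat_lit 0xdbb) (nat_lit 15) [nat_lit 0x2402,nat_lit 17],
    .r (nat_lit 0x1542) (nat_lit 8) [nat_lit 0x10019,nat_lit 17,nat_lit 0x2402],.c (nat_lit 6) (nat_lit 2),
    .r (nat_lit 0xdb9) (nat_lit 10) [nat_lit 0x2402,nat_lit 17],.c (nat_lit 7) (nat_lit 2)],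
    .l (nat_lit 11) (nat_lit 480) (nat_lit 3) (nat_lit 0xd5000000d50000010200000102000000e1000000d3000000d8000000d8000000d8000000d8000000cb000000cd000000d6000000d6000000d4000000d4) (nat_lit 0x2d0000002d00000000000000000000002f000000210000002a0000002a0000002a0000002a00000035000000370000002c0000002c0000002e0000002e)
    (nat_lit 0x1642a0658d51943e0598ab1522945009e13e2a4538ad1502c86a8d51d0458568ab1162b44f09e15223c538a71aa354501021a63846b0961b0358738eb1ac360650d41aa32c420a01a63846c09a2144207a8f9210428480d422c3e0708e11e04f8438b71122dc3c07816a2345e8811d0328698d31443c0548a915629c4c09814e2b4528a51562ac4d0961522dc580b01642b84e89f1582c8430aa15a2cc6c0d615221c580b015c2b84c89f154298580aa15a294840d614e2dc570ae1602b0548a11582d8510ac1162a4850d8156224570b21302c0508a1158268550ac13c2787c8eb1301e04f89f142284540aa13a2844f89d13c2807a8e71301e04c89d1422a4520a814a2844f89d11e2a4850d815a234530b21342d8508a1158278540a415227c840d614e2d4550ac1582b05289d14c2b0510a814e2b46a0d414a204550aa1582b04e89d150290580aa14e29c480ca14a2f4580861542884f89f1442a0530b0)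
    (nat_lit 0x164780f01e03c0780f01e03c0780f01e03c0780f01e01502c8f01e03c0780f01e03c0780f01e03c0780f01e0196354501e03c0780f01e03c0780f01e03c0780f01e01aa354810a03c0780f01e03c0780f01e03c0780f01e01943a0698d31e0780f01e03c0780f01e03c0780f01e01f0458708e127c3c0f01e03c0780f01e03c0780f01e01662b46b0d810e2a4581e03c0780f01e03c0780f01e01562ac4b09a16e2a4580b03c0780f01e03c0780f01e015222c6c10a1122ac590ae160780f01e03c0780f01e014a2b46b10816e29c570ae1582c0f01e03c0780f01e0140278738f50f02604e899152284541e03c0780f01e013c278758f90f02604f89f142284550a83c0780f01e013e2a46b10816a29c560aa1582b04e8a5158780f01e015223c6c10a11a2b4590a616c268508a113c2b0f01e014e29c6509017a294430b01442a84f89f150288581e015a29c6a0d4102294550aa1582b04e89d1482a0550b0)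
    (nat_lit 4) (nat_lit 49)
    [[nat_lit 2,nat_lit 0x100002,nat_lit 17,nat_lit 0x100011,nat_lit 0x10000011,nat_lit 257,nat_lit 0x100101,
    nat_lit 0x1001,nat_lit 0x101001,nat_lit 0x10001001,nat_lit 0x10001,nat_lit 0x10011,nat_lit 0x10101,
    nat_lit 0x110001,nat_lit 0x100001,nat_lit 0x1000001,nat_lit 0x1010001,nat_lit 0x10000001],[nat_lit 32,
    nat_lit 0x10000020,nat_lit 272,nat_lit 0x100110,nat_lit 0x10000110,nat_lit 0x1010,nat_lit 0x10010,
    nat_lit 0x100010,nat_lit 0x10000010],[nat_lit 512,nat_lit 0x100200,nat_lit 0x1100,nat_lit 0x101100,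
    nat_lit 0x10001100,nat_lit 0x10100,nat_lit 0x110100,nat_lit 0x100100,nat_lit 0x200100,nat_lit 0x10000100],
    [nat_lit 0x2000,nat_lit 0x11000,nat_lit 0x101000,nat_lit 0x10001000],[nat_lit 0x20000,nat_lit 0x110000,
    nat_lit 0x1010000,nat_lit 0x10010000],[nat_lit 0x1100000],[nat_lit 0x2000000,nat_lit 0x11000000],
    [nat_lit 0x20000000]]
    [.c (nat_lit 1) (nat_lit 2),.r (nat_lit 0x161e) (nat_lit 10) [nat_lit 0x303021,nat_lit 0x200001],
    .c (nat_lit 0) (nat_lit 0x2203),.r (nat_lit 0xdb7) (nat_lit 14) [nat_lit 0x200001,nat_lit 33],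
    .r (nat_lit 0xdb6) (nat_lit 8) [nat_lit 0x200001,nat_lit 0x300231],.c (nat_lit 0) (nat_lit 0x20203),
    .r (nat_lit 0xdb7) (nat_lit 14) [nat_lit 0x200001,nat_lit 0x320021],
    .r (nat_lit 0x1627) (nat_lit 11) [nat_lit 0x2001,nat_lit 0x20001,nat_lit 0x200001,nat_lit 0x3041],
    .r (nat_lit 0xdc2) (nat_lit 8) [nat_lit 0x20001,nat_lit 33],.r (nat_lit 0xdb7) (nat_lit 8) [nat_lit 0x200001,
    nat_lit 0x300231],.r (nat_lit 0xdc1) (nat_lit 11) [nat_lit 0x200001,nat_lit 33],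
    .r (nat_lit 0x116c) (nat_lit 11) [nat_lit 0x2001,nat_lit 0x20001,nat_lit 0x200001,nat_lit 0x53041],
    .r (nat_lit 0x116c) (nat_lit 11) [nat_lit 0x2001,nat_lit 0x20001,nat_lit 0x200001,nat_lit 0x503041],
    .r (nat_lit 0xdb5) (nat_lit 8) [nat_lit 0x20001,nat_lit 0x30231],.r (nat_lit 0xdba) (nat_lit 10) [nat_lit 33,
    nat_lit 0x20001],.r (nat_lit 0x1180) (nat_lit 12) [nat_lit 0x602051,nat_lit 0x62051,nat_lit 0x2021,
    nat_lit 0x3041],.r (nat_lit 0x162d) (nat_lit 11) [nat_lit 0x2001,nat_lit 0x20001,nat_lit 0x200001,nat_lit 0x3041],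
    .r (nat_lit 0xdb8) (nat_lit 8) [nat_lit 0x20001,nat_lit 33],.c (nat_lit 2) (nat_lit 2),
    .r (nat_lit 0x12a7) (nat_lit 12) [nat_lit 0xa52541,nat_lit 0x422541,nat_lit 0x322231,nat_lit 0x543451],
    .c (nat_lit 2) (nat_lit 0x32002),.r (nat_lit 0x12a4) (nat_lit 11) [nat_lit 0x2001,nat_lit 0x20001,
    nat_lit 0x200001,nat_lit 0x330021],.r (nat_lit 0x12a7) (nat_lit 12) [nat_lit 0x602541,nat_lit 0x62541,
    nat_lit 0x2231,nat_lit 0x3451],.r (nat_lit 0x161e) (nat_lit 7) [nat_lit 0x30021,nat_lit 0x200001],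
    .r (nat_lit 0x14c8) (nat_lit 1) [nat_lit 0x30021,nat_lit 0x200001,nat_lit 0x20001],
    .r (nat_lit 0xdbe) (nat_lit 10) [nat_lit 33,nat_lit 0x200001],.r (nat_lit 0xdba) (nat_lit 8) [nat_lit 0x20001,
    nat_lit 0x230021],.c (nat_lit 3) (nat_lit 2),.r (nat_lit 0x12a4) (nat_lit 11) [nat_lit 0x2001,nat_lit 0x20001,
    nat_lit 0x200001,nat_lit 0x500021],.r (nat_lit 0x161e) (nat_lit 7) [nat_lit 0x300021,nat_lit 0x200001],
    .r (nat_lit 0x161b) (nat_lit 8) [nat_lit 0x200031,nat_lit 0x30231,nat_lit 0x320021],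
    .r (nat_lit 0xdb5) (nat_lit 8) [nat_lit 0x20001,nat_lit 33],.r (nat_lit 0x14c8) (nat_lit 1) [nat_lit 0x300021,
    nat_lit 0x200001,nat_lit 0x20001],.r (nat_lit 0xdb7) (nat_lit 8) [nat_lit 0x200001,nat_lit 0x320021],
    .r (nat_lit 0xdbe) (nat_lit 10) [nat_lit 0x320021,nat_lit 0x200001],
    .r (nat_lit 0xdb7) (nat_lit 14) [nat_lit 0x200001,nat_lit 0x342022],
    .r (nat_lit 0xdba) (nat_lit 8) [nat_lit 0x20001,nat_lit 33],.c (nat_lit 4) (nat_lit 2),
    .r (nat_lit 0xdbc) (nat_lit 3) [nat_lit 33,nat_lit 0x20001],.r (nat_lit 0x1562) (nat_lit 11) [nat_lit 0x2001,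
    nat_lit 0x20001,nat_lit 0x200001,nat_lit 33],.r (nat_lit 0xdbe) (nat_lit 8) [nat_lit 0x200001,nat_lit 33],
    .c (nat_lit 5) (nat_lit 2),.r (nat_lit 0x1618) (nat_lit 14) [nat_lit 0x230001,nat_lit 33,nat_lit 0x20001],
    .r (nat_lit 0x147f) (nat_lit 12) [nat_lit 0x200031,nat_lit 0x20031,nat_lit 0x2021,nat_lit 33],
    .r (nat_lit 0x12a6) (nat_lit 7) [nat_lit 0x200001,nat_lit 0x20001,nat_lit 0x2001,nat_lit 33],
    .r (nat_lit 0x161e) (nat_lit 10) [nat_lit 0x300021,nat_lit 0x200001],.c (nat_lit 7) (nat_lit 2),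
    .r (nat_lit 0x161e) (nat_lit 4) [nat_lit 0x300021,nat_lit 0x200001],.c (nat_lit 8) (nat_lit 2)],
    .l (nat_lit 13) (nat_lit 0x780) (nat_lit 3) (nat_lit 0x355000003550000034700000347000003790000037900000412000004120000037000000370000003550000035500000351000003510000034900000349) (nat_lit 0xbd000000bd000000cb000000cb00000099000000990000000000000000000000a2000000a2000000bd000000bd000000c1000000c1000000c9000000c9)
    (nat_lit 0x1440a8044c2220f00a9077639911787845402c814a0a505182a012c0a2048c28a18609d07ce3c51418acc5d029815609a05e828c14508885882bc11f0bc868e2f7152884c56c2ba14308d851c26612308985902c41570ab857e2671548a9451424a14508e852c22e13a0a9055c2f21e00a506f237918b8d7c6102b81840ae06282ac186078055c23e2760f006f237921091a44882bc14e0ae04d82801e28e644ce2f71bc8de45002061b80dc06aa20b1c08f2484a3651f38eec57e3471bc8de48242801b80dc06963071db8ffc83635b159878454a2132348d7c6e037018e0b3840a2b314e8ae448224114188bc5522a52108c5c6e037017f0c706262b311b89fc4ee26b14c0b204942ba15e0ae060e20b1598acc59026816808d06203041740a805142b61220c2069635518988144f82c81480a5051828c1340a5047423615c0ae07fe3c913f8ae45282341480ab050028c1560a5051428614e0c2076e38111b8a745202d01420a404e82881460a8045c2661400ab06b636513589045183041440a3050028c17a0a3052c28e1360c5083642513b890451831013a0a004f0280)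
    (nat_lit 0x1441e00f007803c01e00f007803c01e00f007803c01e00f007801500a20f007803c01e00f007803c01e00f007803c01e00f0078011309185887803c01e00f007803c01e00f007803c01e00f007801110a285782c43c01e00f007803c01e00f007803c01e00f007800f00c3047c2ae1e01e00f007803c01e00f007803c01e00f0078015209d05e42ae14a0f00f007803c01e00f007803c01e00f007801dd8f9c68e2bf1bc8de45007803c01e00f007803c01e00f007801cc8f145ee2671bc8de440c2803c01e00f007803c01e00f007801178a0c54a2a918b90846e037018e1e00f007803c01e00f007800f08acc4262a51af91a46e03701670c70f007803c01e00f007801500ba056c28a18409106aa34b1028c4c5907803c01e00f007801640a6057424a15c0af04163071598acc4d02c83c01e00f0078014a0ab050c28a1840a707023b714e88dc5a02901481e00f0078014a09a046c23a15c0ae07923ff15c89fc4682941560a40f007801460bd051c29618a09b084a41b12089dc62028c14009d05007801500a304cc22e1560a006ca35b12089ac60828c1460a20518280)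
    (nat_lit 3) (nat_lit 61)
    [[nat_lit 2,nat_lit 0x1002,nat_lit 0x1000002,nat_lit 17,nat_lit 0x1011,nat_lit 0x1000011,nat_lit 273,
    nat_lit 0x10000011,nat_lit 257,nat_lit 0x1000101,nat_lit 0x1001,nat_lit 0x1001001,nat_lit 0x10001001,
    nat_lit 0x100001,nat_lit 0x1000001,nat_lit 0x11000001,nat_lit 0x10000001],[nat_lit 32,nat_lit 288,
    nat_lit 0x1000020,nat_lit 272,nat_lit 0x1110,nat_lit 0x1000110,nat_lit 0x1010,nat_lit 0x1001010,
    nat_lit 0x10001010,nat_lit 0x100010,nat_lit 0x10100010,nat_lit 0x1000010,nat_lit 0x11000010,nat_lit 0x10000010],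
    [nat_lit 512,nat_lit 0x1100,nat_lit 0x1001100,nat_lit 0x10001100,nat_lit 0x10100,nat_lit 0x100100,
    nat_lit 0x1000100,nat_lit 0x11000100,nat_lit 0x10000100],[nat_lit 0x2000,nat_lit 0x11000,nat_lit 0x1001000,
    nat_lit 0x11001000,nat_lit 0x10001000,nat_lit 0x20001000],[nat_lit 0x20000,nat_lit 0x110000,nat_lit 0x1010000],
    [nat_lit 0x1100000,nat_lit 0x11100000,nat_lit 0x10100000,nat_lit 0x20100000],[nat_lit 0x2000000,
    nat_lit 0x12000000,nat_lit 0x11000000,nat_lit 0x21000000],[nat_lit 0x20000000]]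
    [.c (nat_lit 1) (nat_lit 2),.r (nat_lit 0xdb5) (nat_lit 5) [nat_lit 0x82001,nat_lit 0xc3499],
    .c (nat_lit 0) (nat_lit 0x1b693),.c (nat_lit 1) (nat_lit 0x682),.r (nat_lit 0xdb5) (nat_lit 5) [nat_lit 0x82001,
    nat_lit 0xc0099],.c (nat_lit 0) (nat_lit 0x1b013),.c (nat_lit 0) (nat_lit 0x1b013),
    .r (nat_lit 0xdb4) (nat_lit 3) [nat_lit 0x10001,nat_lit 17],.c (nat_lit 0) (nat_lit 0x1b613),
    .c (nat_lit 0) (nat_lit 0x1b693),.r (nat_lit 0xdbe) (nat_lit 13) [nat_lit 0x611,nat_lit 0x80401],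
    .r (nat_lit 0xdb7) (nat_lit 11) [nat_lit 0x80401,nat_lit 0x611],.r (nat_lit 0xdb5) (nat_lit 5) [nat_lit 0x82001,
    nat_lit 0xc3099],.r (nat_lit 0xdbe) (nat_lit 11) [nat_lit 0x80401,nat_lit 0x2611],
    .c (nat_lit 0) (nat_lit 0x1b613),.c (nat_lit 0) (nat_lit 0x1b613),.c (nat_lit 1) (nat_lit 130),
    .c (nat_lit 2) (nat_lit 2),.c (nat_lit 0) (nat_lit 0x1b4d3),.c (nat_lit 0) (nat_lit 0x1b4d3),
    .c (nat_lit 0) (nat_lit 0x1b0d3),.r (nat_lit 0xdb7) (nat_lit 6) [nat_lit 0x80401,nat_lit 0x3011],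
    .c (nat_lit 0) (nat_lit 0x1b4d3),.r (nat_lit 0xdbe) (nat_lit 13) [nat_lit 0x3011,nat_lit 0x80401],
    .r (nat_lit 0xdb7) (nat_lit 11) [nat_lit 0x80401,nat_lit 0x3011],.r (nat_lit 0xdb5) (nat_lit 5) [nat_lit 0x82001,
    nat_lit 0xc0699],.r (nat_lit 0xdbe) (nat_lit 11) [nat_lit 0x80401,nat_lit 17],
    .r (nat_lit 0xdb5) (nat_lit 6) [nat_lit 0x80001,nat_lit 0x411],.c (nat_lit 0) (nat_lit 0x1b0d3),
    .c (nat_lit 0) (nat_lit 0x1b0d3),.c (nat_lit 1) (nat_lit 0x702),.c (nat_lit 3) (nat_lit 2),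
    .r (nat_lit 0xdb8) (nat_lit 5) [nat_lit 0x82001,nat_lit 17],.r (nat_lit 0xdb5) (nat_lit 6) [nat_lit 0x80001,
    nat_lit 0xc0099],.r (nat_lit 0xdb7) (nat_lit 6) [nat_lit 0x80401,nat_lit 17],
    .r (nat_lit 0x150f) (nat_lit 1) [nat_lit 0x10001,nat_lit 0x920d1,nat_lit 0xdb081],
    .r (nat_lit 0xdba) (nat_lit 5) [nat_lit 0x82001,nat_lit 17],.c (nat_lit 0) (nat_lit 0x1b693),
    .c (nat_lit 0) (nat_lit 0x1b613),.c (nat_lit 0) (nat_lit 0x1b6d3),.c (nat_lit 4) (nat_lit 2),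
    .r (nat_lit 0xdbe) (nat_lit 11) [nat_lit 0x80401,nat_lit 0x92019],.r (nat_lit 0xdba) (nat_lit 3) [nat_lit 17,
    nat_lit 0x80001],.r (nat_lit 0xdb7) (nat_lit 11) [nat_lit 0x80401,nat_lit 17],
    .r (nat_lit 0xdbe) (nat_lit 13) [nat_lit 17,nat_lit 0x80401],.r (nat_lit 0xdb5) (nat_lit 5) [nat_lit 0x82001,
    nat_lit 0xc3699],.c (nat_lit 5) (nat_lit 2),.r (nat_lit 0xdbe) (nat_lit 13) [nat_lit 0x90019,nat_lit 0x80401],
    .r (nat_lit 0x150f) (nat_lit 6) [nat_lit 0x10001,nat_lit 0x900d1,nat_lit 0xd8081],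
    .r (nat_lit 0xdb8) (nat_lit 6) [nat_lit 0x80001,nat_lit 17],.r (nat_lit 0xdb7) (nat_lit 6) [nat_lit 0x80401,
    nat_lit 0xc3699],.r (nat_lit 0xdbe) (nat_lit 11) [nat_lit 0x80401,nat_lit 0x2011],
    .r (nat_lit 0xdb5) (nat_lit 6) [nat_lit 0x80001,nat_lit 0x2411],.c (nat_lit 7) (nat_lit 2),
    .r (nat_lit 0x1634) (nat_lit 8) [nat_lit 0xc0011,nat_lit 0x80001,nat_lit 0x80401],
    .c (nat_lit 0) (nat_lit 0x1b6d3),.c (nat_lit 0) (nat_lit 0x1b6d3),.c (nat_lit 8) (nat_lit 2)]]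

/-- nodes -/
noncomputable def rD8k_36_3 : List RJ :=
  [.l (nat_lit 16) (nat_lit 0x2760) (nat_lit 3) (nat_lit 0x10a2000010a200001063000010630000107800001078000013b0000013b0000012af000012af000010bc000010bc0000108d0000108d000010a2000010a2) (nat_lit 0x30e0000030e0000034d0000034d000003380000033800000000000000000000010100000101000002f4000002f400000323000003230000030e0000030e)
    (nat_lit 0xe1c0d940d7f0d210d4a0cec0a1c10d6111b168f0d840c480d350ced0d940e320d940e1c0d4b0d550d160ccc10a210a210d116450cfc0dae0d170cb70dc80da80d550d210db40d160d2b0d3509bf10b70f620f620e370c3f0d2c0df20ccd0dbd0d4b0d7f0d000db40d750d2b10630fef0f620f620d6f0d6f0d8a0d400dd30cf70ccc0cec0d2b0d350db40d561078102e0f770f770d840d840db30d550d400d200d160d4a0d750d2b0daa0db4107810780d750f770d840d840e110bfb0d360d6a10a210d60fef10b71078102e13b0134612af12af121612be108d108d10c20fe610a20a1c106309bf10781078141a13b012af12af14a2154a09d3108d09b410a21645168f0f620f620f770f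7712af12af0d2011440fbb0fbb0f8c0ba61627165b10d1111b0f620f620d750f7712af12af11ae0d200fbb0fbb0f8c0f381107113b0dae0c480d6f0c3f0d840d84154a12be0fbb0fbb0e1c0dc80bff0d990c340dae0cfc0d840d6f0e370d840d8414a212160fbb0fbb0dc80e1c0df70d990e400d500cb70ced0d400df20bfb0d55108d108d0f380ba60d990d990dc80d6a0da90d210d170d350d8a0d2c0e110db309d3108d0f8c0f8c0df70bff0e120dc80ce10d7f0da80e320cf70dbd0d6a0d2010a20fe6113b165b0d500dae0d7f0d210dde0cec0dc80d940dd30ccd0d360d4009b410c2110716270e400c340ce10da90d940dde)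
    (nat_lit 0xe1c2760276027602760276027602760276027602760276027602760276027600d940e1c276027602760276027602760276027602760276027602760276027600d7f0d4b0db427602760276027602760276027602760276027602760276027600d210d550d160db42760276027602760276027602760276027602760276027600d4a0d160d2b0d750db4276027602760276027602760276027602760276027600cec0ccc0d350d2b0d560db427602760276027602760276027602760276027600a1c10a209bf10631078107813b027602760276027602760276027602760276010d610a210b70fef102e1078134613b027602760276027602760276027602760111b10d10f620f620f770d7512af12af0d202760276027602760276027602760168f16450f620f620f770f7712af12af11440d202760276027602760276027600d840cfc0e370d6f0d840d84121614a20fbb0fbb0e1c276027602760276027600c480dae0c3f0d6f0d840d8412be154a0fbb0fbb0dc80e1c27602760276027600d350d170d2c0d8a0db30e11108d09d30f8c0f8c0bff0df70dc82760276027600ced0cb70df20d400d550bfb108d108d0ba60f380d990d990d6a0dc8276027600d940dc80ccd0dd30d400d3610c209b4162711070c340e400da90ce10dde27600e320da80dbd0cf70d200d6a0fe610a2165b113b0dae0d500d210d7f0cec0dde)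
    (nat_lit 2) (nat_lit 49)
    [[nat_lit 2,nat_lit 17,nat_lit 273,nat_lit 0x100011,nat_lit 257,nat_lit 0x100101,nat_lit 0x10001,nat_lit 0x110001,
    nat_lit 0x100001,nat_lit 0x1000001,nat_lit 0x10000001],[nat_lit 32,nat_lit 272,nat_lit 0x100110,
    nat_lit 0x10000110,nat_lit 0x1010,nat_lit 0x10010,nat_lit 0x110010,nat_lit 0x100010,nat_lit 0x101010,
    nat_lit 0x1000010,nat_lit 0x1100010,nat_lit 0x10000010,nat_lit 0x10100010],[nat_lit 512,nat_lit 0x1100,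
    nat_lit 0x100100,nat_lit 0x1100100,nat_lit 0x10100100,nat_lit 0x1000100,nat_lit 0x11000100,nat_lit 0x10000100],
    [nat_lit 0x2000,nat_lit 0x11000,nat_lit 0x101000,nat_lit 0x1001000],[nat_lit 0x110000,nat_lit 0x1010000,
    nat_lit 0x10010000],[nat_lit 0x200000,nat_lit 0x1100000,nat_lit 0x10100000],[nat_lit 0x2000000,
    nat_lit 0x11000000],[nat_lit 0x20000000]]
    [.c (nat_lit 1) (nat_lit 2),.c (nat_lit 0) (nat_lit 971),.r (nat_lit 0xdb6) (nat_lit 13) [nat_lit 0x801,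
    nat_lit 0xc2d],.c (nat_lit 0) (nat_lit 971),.r (nat_lit 0xdba) (nat_lit 13) [nat_lit 201,nat_lit 0x881],
    .r (nat_lit 0xdc2) (nat_lit 11) [nat_lit 0x881,nat_lit 201],.r (nat_lit 0xdbe) (nat_lit 13) [nat_lit 0x801,
    nat_lit 9],.r (nat_lit 0xdb7) (nat_lit 3) [nat_lit 0x801,nat_lit 0xc2d],.c (nat_lit 0) (nat_lit 971),
    .c (nat_lit 0) (nat_lit 971),.c (nat_lit 1) (nat_lit 34),.c (nat_lit 2) (nat_lit 2),
    .r (nat_lit 0xdb8) (nat_lit 11) [nat_lit 0x881,nat_lit 9],.r (nat_lit 0x114b) (nat_lit 14) [nat_lit 193,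
    nat_lit 0x881,nat_lit 0xa39,nat_lit 0xc2d],.r (nat_lit 0xdb6) (nat_lit 13) [nat_lit 0x801,nat_lit 0xced],
    .r (nat_lit 0x150f) (nat_lit 7) [nat_lit 513,nat_lit 0xab9,nat_lit 0xfe1],
    .r (nat_lit 0xdba) (nat_lit 11) [nat_lit 0x881,nat_lit 9],.r (nat_lit 0xdb5) (nat_lit 11) [nat_lit 0x881,
    nat_lit 9],.c (nat_lit 0) (nat_lit 0x3fb),.r (nat_lit 0xdb4) (nat_lit 14) [nat_lit 513,nat_lit 813],
    .c (nat_lit 0) (nat_lit 0x3fb),.c (nat_lit 0) (nat_lit 971),.c (nat_lit 0) (nat_lit 0x3fb),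
    .c (nat_lit 0) (nat_lit 0x3fb),.c (nat_lit 3) (nat_lit 2),.r (nat_lit 0xdbe) (nat_lit 13) [nat_lit 0x801,
    nat_lit 0xa8d],.r (nat_lit 0x1491) (nat_lit 14) [nat_lit 0x801,nat_lit 0xa39,nat_lit 0xc2d],
    .r (nat_lit 0xdb7) (nat_lit 13) [nat_lit 0x801,nat_lit 9],.r (nat_lit 0xdc2) (nat_lit 11) [nat_lit 0x881,
    nat_lit 9],.r (nat_lit 0xdbe) (nat_lit 8) [nat_lit 9,nat_lit 0x801],
    .r (nat_lit 0xdb5) (nat_lit 11) [nat_lit 0x881,nat_lit 0xced],.r (nat_lit 0xdba) (nat_lit 13) [nat_lit 9,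
    nat_lit 0x881],.c (nat_lit 4) (nat_lit 2),.r (nat_lit 0xdba) (nat_lit 13) [nat_lit 0xa0d,nat_lit 0x881],
    .r (nat_lit 0x1390) (nat_lit 13) [nat_lit 0x80d,nat_lit 0x88d,nat_lit 513,nat_lit 9],
    .r (nat_lit 0x1635) (nat_lit 13) [nat_lit 0x80d,nat_lit 0x88d,nat_lit 513,nat_lit 9],
    .r (nat_lit 0x14c4) (nat_lit 11) [nat_lit 129,nat_lit 525,nat_lit 0x801,nat_lit 9],
    .r (nat_lit 0x157c) (nat_lit 14) [nat_lit 525,nat_lit 193,nat_lit 0x881,nat_lit 9],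
    .r (nat_lit 0xdbe) (nat_lit 13) [nat_lit 0x801,nat_lit 137],.c (nat_lit 6) (nat_lit 2),
    .c (nat_lit 0) (nat_lit 0x3fb),.c (nat_lit 0) (nat_lit 0x3fb),.c (nat_lit 7) (nat_lit 2),
    .c (nat_lit 0) (nat_lit 0x3fb),.c (nat_lit 8) (nat_lit 2)],
    .l (nat_lit 15) (nat_lit 0x13b0) (nat_lit 4) (nat_lit 0x82d0000082d000006e4000009a0000008c0000008c0000009d8000009d8000008b2000008b200000881000008810000084d0000084d0000098c000006e4) (nat_lit 0x1ab000001ab00000038000002f400000118000001180000000000000000000001260000012600000157000001570000018b0000018b000002f40000004c)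
    (nat_lit 0xd041a083fa85390f4220ec3cc87a1105a1ebc36b06ac0d441a8829c87f70d041a083fa85390cf61c543d787cb0e0e1a2436b06d60d441a8829c87f70a7214e435603f00c5c17303b1077e0b7c18f02c6858d0a8615641f806980fea1fd44b406ac11d422206190c4e10f423e03bb8849102a20542c303f00e2a20ec44405cc09f41ea0421085e0f3414203b487691932201c2e608740cf61e84475062e0f5013e846708c009d81e683b4876917521c6432c08ec0f961e84627077e118021784ec09d81164229044e8b2f0faa213432c05180f5e1e646190762119c21084ec09d8116422c84408b130f72213431e09220d121ebc47c063c0f34142045908a409f41e303ad875b0f221c9c32908fa0e0e20b443d05be09d81e6845908b20f1813e83ad875b0f221c9c2f408660dac1ab0424858d0ed21da45898b2f0eb61d6c395072a0dec1bd823387cb0dac1b583bb858d0ed21da4440889d0eb61d6c3bf072a0dec1bd82c688350d441a8840a85590e32201c426884d0e4e1c9c37b06f60d8419b82ac88010d441a8840a8543175232643dc87d50f221e4437b06f60d841b082a188010fee1fdc1f8069811d821d0491051810cc23e841a87cb1002200434c09400a7214e42c303f00cb0173031e06580bd019482c684670a8615641f80698)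
    (nat_lit 0xd044ec09d813b027604ec09d813b027604ec09d813b027604ec09d813b00d041a089d813b027604ec09d813b027604ec09d813b027604ec09d813b00fea1fd435613b027604ec09d813b027604ec09d813b027604ec09d813b00a7214e41f806ac27604ec09d813b027604ec09d813b027604ec09d813b00f4219ec31708ea09f44ec09d813b027604ec09d813b027604ec09d813b010761c542e608880f5013e89d813b027604ec09d813b027604ec09d813b00f321ebc3b10c32108423384ec13b027604ec09d813b027604ec09d813b00f421f2c3bf0c4e10bc23004ec09d827604ec09d813b027604ec09d813b0105a1c1c2df087a0f3413b045908b209f44ec09d813b027604ec09d813b00f5e1a2431e08f80a101e6845208b20f1813e89d813b027604ec09d813b00dac1b582c687770ed21da444e88810eb61d6c39513b027604ec09d813b00d581b582c688490ed21da45978b130eb61d6c395072a27604ec09d813b00d441a882a1881519322ea43ea87b90f221e4437b06f60d844ec09d813b00d441a882ac8815100e1c64426884d0e4e1c9c37b06f60cdc1b089d813b00a7214e41f805860b98196032c063c0ca417a0233858d0ab2150c34c13b00fee1fdc34c03f010e823b028c092211f421983e58835100220044a00698)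
    (nat_lit 4) (nat_lit 61)
    [[nat_lit 2,nat_lit 258,nat_lit 0x10002,nat_lit 0x1000002,nat_lit 0x2000002,nat_lit 17,nat_lit 0x10011,
    nat_lit 0x1000011,nat_lit 257,nat_lit 273,nat_lit 0x10101,nat_lit 0x1000101,nat_lit 0x10000101,nat_lit 0x1001,
    nat_lit 0x1001001,nat_lit 0x10001,nat_lit 0x1010001,nat_lit 0x1010002,nat_lit 0x100001,nat_lit 0x1100001,
    nat_lit 0x1000001,nat_lit 0x2000001,nat_lit 0x11000001,nat_lit 0x10000001,nat_lit 0x10010001],[nat_lit 32,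
    nat_lit 272,nat_lit 0x1010,nat_lit 0x10010,nat_lit 0x1000010,nat_lit 0x10000010],[nat_lit 512,nat_lit 0x1100,
    nat_lit 0x100100,nat_lit 0x1000100,nat_lit 0x11000100,nat_lit 0x10000100],[nat_lit 0x2000,nat_lit 0x3000,
    nat_lit 0x102000,nat_lit 0x11000,nat_lit 0x101000,nat_lit 0x201000,nat_lit 0x1001000,nat_lit 0x10001000],
    [nat_lit 0x110000,nat_lit 0x10010000],[nat_lit 0x200000,nat_lit 0x300000,nat_lit 0x1100000,nat_lit 0x10100000],
    [nat_lit 0x2000000,nat_lit 0x11000000],[nat_lit 0x20000000,nat_lit 0x30000000]]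
    [.c (nat_lit 1) (nat_lit 2),.c (nat_lit 0) (nat_lit 0x553543),.c (nat_lit 2) (nat_lit 0x4020403),
    .c (nat_lit 0) (nat_lit 0x355543),.r (nat_lit 0x9f0) (nat_lit 13) [nat_lit 34,nat_lit 0x50555432,
    nat_lit 0x4400032,nat_lit 0x5040022,nat_lit 0x40448522],.c (nat_lit 0) (nat_lit 0x4003405),
    .c (nat_lit 0) (nat_lit 0x5053504),.r (nat_lit 0xdb7) (nat_lit 10) [nat_lit 0x2001,nat_lit 0x20030231],
    .c (nat_lit 0) (nat_lit 0x330323),.r (nat_lit 0xdb7) (nat_lit 10) [nat_lit 0x2001,nat_lit 0x23000231],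
    .c (nat_lit 0) (nat_lit 0x33002),.r (nat_lit 0x1404) (nat_lit 1) [nat_lit 0x3020001,nat_lit 0x2200001,
    nat_lit 0x2001,nat_lit 0x2030021],.c (nat_lit 0) (nat_lit 0x330323),.c (nat_lit 0) (nat_lit 0x2333323),
    .c (nat_lit 0) (nat_lit 0x57545),.r (nat_lit 0xdbe) (nat_lit 11) [nat_lit 33,nat_lit 0x2001],
    .c (nat_lit 0) (nat_lit 0x330002),.c (nat_lit 0) (nat_lit 0x330002),
    .r (nat_lit 0x1636) (nat_lit 9) [nat_lit 0x3021,nat_lit 0x2200001,nat_lit 0x2001],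
    .r (nat_lit 0x1437) (nat_lit 11) [nat_lit 0x2001,nat_lit 0x20001,nat_lit 0x200001,nat_lit 0x2000001,
    nat_lit 0x20000001],.c (nat_lit 0) (nat_lit 0x33323),.r (nat_lit 0x1404) (nat_lit 1) [nat_lit 0x3020001,
    nat_lit 0x2200001,nat_lit 0x2001,nat_lit 33],.c (nat_lit 0) (nat_lit 0x33323),.c (nat_lit 0) (nat_lit 0x2000203),
    .r (nat_lit 0xdbb) (nat_lit 5) [nat_lit 0x20222031,nat_lit 0x2200001],.c (nat_lit 2) (nat_lit 2),
    .r (nat_lit 0xdbb) (nat_lit 5) [nat_lit 33,nat_lit 0x2200001],.c (nat_lit 0) (nat_lit 0x2333023),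
    .c (nat_lit 0) (nat_lit 0x3353522),.r (nat_lit 0xdbb) (nat_lit 5) [nat_lit 0x3020021,nat_lit 0x2200001],
    .c (nat_lit 0) (nat_lit 0x2000203),.c (nat_lit 3) (nat_lit 2),.c (nat_lit 0) (nat_lit 0x330323),
    .c (nat_lit 0) (nat_lit 0x3330323),.c (nat_lit 3) (nat_lit 0x302002),
    .r (nat_lit 0xdb7) (nat_lit 10) [nat_lit 0x2001,nat_lit 0x3231],.c (nat_lit 0) (nat_lit 0x2005),
    .c (nat_lit 4) (nat_lit 2),.r (nat_lit 0x151b) (nat_lit 3) [nat_lit 33,nat_lit 0x220001,nat_lit 0x2001],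
    .r (nat_lit 0xdb2) (nat_lit 1) [nat_lit 0x22422321,nat_lit 0x20002001],.r (nat_lit 0xdb2) (nat_lit 1) [nat_lit 33,
    nat_lit 0x20002001],.c (nat_lit 8) (nat_lit 0x2222232),.r (nat_lit 0xdbb) (nat_lit 5) [nat_lit 0x33300231,
    nat_lit 0x2200001],.c (nat_lit 0) (nat_lit 0x33323),.c (nat_lit 0) (nat_lit 0x330323),
    .r (nat_lit 0xdbb) (nat_lit 5) [nat_lit 0x222031,nat_lit 0x2200001],
    .r (nat_lit 0xdb7) (nat_lit 10) [nat_lit 0x2001,nat_lit 0x3333221],.c (nat_lit 6) (nat_lit 2),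
    .r (nat_lit 0x1571) (nat_lit 10) [nat_lit 33,nat_lit 0x6031,nat_lit 0x220001,nat_lit 0x60000021],
    .c (nat_lit 0) (nat_lit 0x3033323),.r (nat_lit 0xdbe) (nat_lit 11) [nat_lit 0x20200021,nat_lit 0x2001],
    .c (nat_lit 7) (nat_lit 2),.c (nat_lit 0) (nat_lit 0x200005),.c (nat_lit 8) (nat_lit 2),
    .r (nat_lit 0xdb7) (nat_lit 10) [nat_lit 0x2001,nat_lit 0x3033221]]]

/-- nodes -/
noncomputable def rD8k_36_4 : List RJ :=
  [.l (nat_lit 15) (nat_lit 0x1a40) (nat_lit 4) (nat_lit 0xbc800000bc800000d3f00000d3f00000d9800000d9800000b0100000b0100000be200000be200000bc800000bc800000a3400000a3400000a2600000a26) (nat_lit 0x1d0000001d0000000590000005900000000000000000000029700000297000001b6000001b6000001d0000001d000000364000003640000037200000372)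
    (nat_lit 0x13f029507a0883314d839e038b893114241a904f6090a1180219042b085613f027e05b78b6f17903f5049889310d60284856a09f80fd011805c90b9216de20cc46d0ce61a7e34fc5540aa817122e247b98ed10d3e23fc4e68a4916de3d0467308da1a7e34fc4840aa81a9a2e445b78acd1b5a31b438e888d1fa839e069f8d3f1b30366057c8b011908360849b0a0416e828d032a0654179029b069f8d3f1b3036605808b01197c36f05e40bfa11b026f051309ca126224c45540aa816022c04348086a1232252c4d488550ff21e7447588eb12621c5c4840aa816022be443506901296252c5ad8a070b061ca457e8afd14241a905c88b891b7836084a5894b12ac28b05430a120a2019505450a8a0d6028486a68b89197c32104a58919145825584d20a1210fc20404af095e13f024285668ed117f4281050388551424284853309f80eec234842b085615a827b05b78f73179024d85ad89a913482a184fc0a6610b0219042b07f208c0219063688ff137828d0394879d1020195043208d20e681b4036706ce0fd023006d6869f11b02dd02c187f910fc144042c07760e581cd036106c2172421584468a491394195057e88eb12bc2a283f908560d841b3832c06581724215838e89cd144c195057e88eb12bc2a2842b08560d841b3832c0658)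
    (nat_lit 0x13f06900d201a4034806900d201a4034806900d201a4034806900d201a4014a827e0d201a4034806900d201a4034806900d201a4034806900d201a401e822dbc46d1a4034806900d201a4034806900d201a4034806900d201a4010662dbc67308da34806900d201a4034806900d201a4034806900d201a4014d82f2069f8d3f1b306900d201a4034806900d201a4034806900d201a401cf03f5069f8d3f1b303660d201a4034806900d201a4034806900d201a400e2e24c4554090815f22c043481a4034806900d201a4034806900d201a40126224c45540aa816022c04435069034806900d201a4034806900d201a4014241ac05c48d4d190832f848c894b12ac6900d201a4034806900d201a400d4828485c48b911b0436f04a5894b14582558d201a4034806900d201a4013d82b507b98b6f126c2f204d48b5b150c26905331a4034806900d201a40121427e07688acd14082fe842a8a07142428484fc0a6634806900d201a4011801fa034f8dad16e823603fc85830a2021f83bb08580e686900d201a4010c8118047f8c6d146826f03ce87290ca8204046908640da01cd0d201a4010ac2c884e6871d0ca828984758afd1514257842b08560d9c1b0832c1a4010ac2c88524888d0ca827284758afd1514257842b07f20d9c1b0832c0658)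
    (nat_lit 4) (nat_lit 111)
    [[nat_lit 2,nat_lit 3,nat_lit 4,nat_lit 18,nat_lit 0x10000012,nat_lit 258,nat_lit 0x100002,nat_lit 0x1000002,
    nat_lit 17,nat_lit 33,nat_lit 273,nat_lit 0x1011,nat_lit 0x10011,nat_lit 0x100011,nat_lit 0x1000011,
    nat_lit 0x10000011,nat_lit 257,nat_lit 0x1001,nat_lit 0x10001001,nat_lit 0x10001,nat_lit 0x100001,
    nat_lit 0x1000001,nat_lit 0x10000001],[nat_lit 32,nat_lit 48,nat_lit 288,nat_lit 0x1020,nat_lit 0x10020,
    nat_lit 0x10000020,nat_lit 272,nat_lit 0x1110,nat_lit 0x10110,nat_lit 0x10000110,nat_lit 0x1010,nat_lit 0x2010,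
    nat_lit 0x11010,nat_lit 0x10011010,nat_lit 0x10001010,nat_lit 0x10010,nat_lit 0x20010,nat_lit 0x10020010,
    nat_lit 0x1010010,nat_lit 0x10010010,nat_lit 0x100010,nat_lit 0x1000010,nat_lit 0x1000110,nat_lit 0x10000010,
    nat_lit 0x20000010],[nat_lit 512,nat_lit 0x1100,nat_lit 0x10100,nat_lit 0x100100,nat_lit 0x10000100],
    [nat_lit 0x2000,nat_lit 0x10002000,nat_lit 0x11000,nat_lit 0x21000,nat_lit 0x10011000,nat_lit 0x1001000,
    nat_lit 0x10001000,nat_lit 0x20001000],[nat_lit 0x20000,nat_lit 0x30000,nat_lit 0x10020000,nat_lit 0x110000,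
    nat_lit 0x1010000,nat_lit 0x10010000],[],[nat_lit 0x2000000,nat_lit 0x11000000],[nat_lit 0x20000000]]
    [.c (nat_lit 1) (nat_lit 2),.r (nat_lit 0xdb7) (nat_lit 8) [nat_lit 0x200001,nat_lit 0x353221],
    .c (nat_lit 4) (nat_lit 0x4403),.r (nat_lit 0xdbe) (nat_lit 10) [nat_lit 0x2030021,nat_lit 0x200001],
    .c (nat_lit 0) (nat_lit 0x3002),.r (nat_lit 0xdba) (nat_lit 14) [nat_lit 0x2030021,nat_lit 0x222031],
    .c (nat_lit 4) (nat_lit 0x202403),.r (nat_lit 0xdbb) (nat_lit 14) [nat_lit 0x222031,nat_lit 0x2000001],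
    .c (nat_lit 0) (nat_lit 0x330323),.r (nat_lit 0xc44) (nat_lit 15) [nat_lit 0x800001,nat_lit 0x8001,
    nat_lit 0x9939851,nat_lit 0x8000001,nat_lit 0x40001],.r (nat_lit 0x1637) (nat_lit 5) [nat_lit 0x200001,
    nat_lit 0x22001,nat_lit 0x2030001,nat_lit 0x20001,nat_lit 0x300021],.c (nat_lit 0) (nat_lit 0x330023),
    .c (nat_lit 1) (nat_lit 0x222232),.r (nat_lit 0xdb7) (nat_lit 14) [nat_lit 0x200001,nat_lit 33],
    .r (nat_lit 0x142d) (nat_lit 1) [nat_lit 0x2002001,nat_lit 0x200001,nat_lit 0x3020001,nat_lit 0x2000001,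
    nat_lit 0x5303231],.c (nat_lit 0) (nat_lit 0x330323),.r (nat_lit 0x1400) (nat_lit 4) [nat_lit 0x3001,
    nat_lit 0x200031,nat_lit 0x2002001,nat_lit 33],.c (nat_lit 0) (nat_lit 0x2203),
    .r (nat_lit 0xdb7) (nat_lit 8) [nat_lit 0x200001,nat_lit 0x300231],.c (nat_lit 0) (nat_lit 0x330323),
    .r (nat_lit 0xdb7) (nat_lit 8) [nat_lit 0x200001,nat_lit 0x3333221],
    .r (nat_lit 0x140c) (nat_lit 9) [nat_lit 0x300021,nat_lit 0x420051,nat_lit 0x200001,nat_lit 0x2002001],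
    .c (nat_lit 0) (nat_lit 0x2003),.c (nat_lit 2) (nat_lit 2),.r (nat_lit 0xc45) (nat_lit 1) [nat_lit 0xc00c001,
    nat_lit 0xc00001,nat_lit 0xd001,nat_lit 0x66001,nat_lit 65],.r (nat_lit 0x140f) (nat_lit 5) [nat_lit 0x300021,
    nat_lit 0x200001,nat_lit 0x22001,nat_lit 0x2030001,nat_lit 0x20001],.c (nat_lit 0) (nat_lit 0x553343),
    .c (nat_lit 0) (nat_lit 0x553543),.c (nat_lit 0) (nat_lit 0x553543),.r (nat_lit 0xdbb) (nat_lit 12) [nat_lit 33,
    nat_lit 0x2000001],.r (nat_lit 0xdb4) (nat_lit 10) [nat_lit 0x2000001,nat_lit 33],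
    .r (nat_lit 0x1400) (nat_lit 4) [nat_lit 0x3001,nat_lit 0x3033231,nat_lit 0x2002001,nat_lit 0x2222321],
    .r (nat_lit 0xdb4) (nat_lit 10) [nat_lit 0x2000001,nat_lit 0x2021],.c (nat_lit 0) (nat_lit 0x553045),
    .r (nat_lit 0x1404) (nat_lit 2) [nat_lit 0x2001,nat_lit 0x2000001,nat_lit 0x200001,nat_lit 0x5021],
    .c (nat_lit 0) (nat_lit 0x553343),.r (nat_lit 0xdb7) (nat_lit 8) [nat_lit 0x200001,nat_lit 0x3533431],
    .r (nat_lit 0x1404) (nat_lit 2) [nat_lit 0x2001,nat_lit 0x2000001,nat_lit 0x200001,nat_lit 0x3021],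
    .c (nat_lit 0) (nat_lit 0x333323),.c (nat_lit 0) (nat_lit 0x553543),.c (nat_lit 0) (nat_lit 0x553543),
    .r (nat_lit 0x140c) (nat_lit 9) [nat_lit 0x2022321,nat_lit 0x5035451,nat_lit 0x200001,nat_lit 0x2002001],
    .c (nat_lit 0) (nat_lit 0x553543),.r (nat_lit 0xdbe) (nat_lit 10) [nat_lit 33,nat_lit 0x200001],
    .r (nat_lit 0x157c) (nat_lit 4) [nat_lit 0x3001,nat_lit 0x200031,nat_lit 33,nat_lit 0x2002001],
    .c (nat_lit 0) (nat_lit 0x30002),.c (nat_lit 0) (nat_lit 0x553545),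
    .r (nat_lit 0x1404) (nat_lit 2) [nat_lit 0x2001,nat_lit 0x2000001,nat_lit 0x200001,nat_lit 33],
    .c (nat_lit 3) (nat_lit 2),.r (nat_lit 0xdbb) (nat_lit 14) [nat_lit 33,nat_lit 0x2000001],
    .r (nat_lit 0xef0) (nat_lit 8) [nat_lit 0x200031,nat_lit 0x2000001,nat_lit 0x3020001,nat_lit 33,
    nat_lit 0x2002001],.r (nat_lit 0xdba) (nat_lit 14) [nat_lit 33,nat_lit 0x2202031],
    .r (nat_lit 0xdbb) (nat_lit 14) [nat_lit 0x2021,nat_lit 0x2000001],.c (nat_lit 4) (nat_lit 2),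
    .r (nat_lit 0xdb7) (nat_lit 8) [nat_lit 0x200001,nat_lit 0x530432],.c (nat_lit 0) (nat_lit 0x553045),
    .c (nat_lit 0) (nat_lit 0x553343),.r (nat_lit 0xdb7) (nat_lit 14) [nat_lit 0x200001,nat_lit 0x300231],
    .r (nat_lit 0xdba) (nat_lit 14) [nat_lit 0x2202031,nat_lit 33],.c (nat_lit 4) (nat_lit 514),
    .r (nat_lit 0xdb7) (nat_lit 8) [nat_lit 0x200001,nat_lit 0x533432],.c (nat_lit 5) (nat_lit 2),
    .r (nat_lit 0x151b) (nat_lit 6) [nat_lit 33,nat_lit 0x2002001,nat_lit 0x200001],.c (nat_lit 0) (nat_lit 0x553543),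
    .r (nat_lit 0x13b7) (nat_lit 6) [nat_lit 0x3003021,nat_lit 0x3001,nat_lit 0x2002001,nat_lit 0x200001],
    .r (nat_lit 0x14a4) (nat_lit 0) [nat_lit 0x2001,nat_lit 0x2000001,nat_lit 0x2202321,nat_lit 0x3303201],
    .c (nat_lit 0) (nat_lit 0x553545),.c (nat_lit 7) (nat_lit 2),.r (nat_lit 0xdba) (nat_lit 14) [nat_lit 0x2200031,
    nat_lit 0x2021],.c (nat_lit 8) (nat_lit 2)],
    .l (nat_lit 13) (nat_lit 0x5a0) (nat_lit 4) (nat_lit 0x38600000282000002a4000002a40000025300000373000002e3000002a70000030700000307000002950000029500000332000002d60000029500000295) (nat_lit 0x10400000000000000e2000000e20000001300000133000000df000000a30000007f0000007f000000f1000000f1000000b000000054000000f1000000f1)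
    (nat_lit 0x1650ad05482a40908a6c5de2e3108876c5ba2cb14408a852a2950f20b283401a00dd86d434619d0e987643221910e904803221910d00a902b815c16985c43de2b511288945821e30fa09402d61b30d00a902d015c16985c437e28511288945221b30fa09402d61b30da8a6c2e21710de05e82e816e0ea07682c41620d184842c41620dd84845a62d31b006f05282d01e30f305042820fb8c4c5042c40ce8b8c50a2b516805b825824013209903fc1200f88a3c8882be0d18bbc37e1ef14a05d02c412c11408a027016e11f8a6c5c415c0ec876c44a2251e607684502641680bb839c2161588cc439c1ce0e9884444a2251e307504502641590b403c02161378bbc3c02040c88b2c3661e314105882dc12010b08582d017a0fb89dc53418c0c88b745222c114105882701fe0f007384141680f2890455819e09008a84a0250189848453628f1778cc448227714409e03f22410e90a203e81f40fb868c47e1f11378ac43ca1f70ec0a203ca1e50c88a543661b316205882b82be102073833c18c0f289043e41f20c88a542d616b14105885c44440f0073855829a0f287e44ec1f2)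
    (nat_lit 0x1651680b405a02d01680b405a02d01680b405a02d01680b405a015a0b28b405a02d01680b405a02d01680b405a02d01680b405a015206802b85a02d01680b405a02d01680b405a02d01680b405a015206802b815c2d01680b405a02d01680b405a02d01680b405a009086ec5822c10de1680b405a02d01680b405a02d01680b405a014d86d42e21710bd06f0b405a02d01680b405a02d01680b405a014a868c3de1bf0ba0a502585a02d01680b405a02d01680b405a0147867456a2850b70af848012c2d01680b405a02d01680b405a0108874c44a2250ea0bd04c82281681680b405a02d01680b405a00ed876444a2250ed0be84c82281770b40b405a02d01680b405a014186445822910b10a083fc1380e707802d05a02d01680b405a014186443c61b30b10a0824016e10b08582f41682d01680b405a014407483e81f40d187dc3e223f15889bc3ee1e51441680b405a011504804a0250090890451e29b17d8bbc4ee24113c0a20b405a014186442d616b0b10a087982e20e707805342ac0fc87943e45a014186443661b30b10ac857c15c0e7081031819e12087943e41f2)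
    (nat_lit 5) (nat_lit 83)
    [[nat_lit 2,nat_lit 0x1000002,nat_lit 17,nat_lit 273,nat_lit 0x10011,nat_lit 0x100011,nat_lit 0x10000011,
    nat_lit 0x10100011,nat_lit 257,nat_lit 0x10101,nat_lit 0x1001,nat_lit 0x1101,nat_lit 0x11001,nat_lit 0x10001001,
    nat_lit 0x100001,nat_lit 0x100101,nat_lit 0x110001,nat_lit 0x10100001,nat_lit 0x10110001,nat_lit 0x1000001,
    nat_lit 0x1000101,nat_lit 0x1001001,nat_lit 0x1010001,nat_lit 0x11100001,nat_lit 0x2000001,nat_lit 0x10000001,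
    nat_lit 0x10010001],[nat_lit 32,nat_lit 0x10100020,nat_lit 0x10000020,nat_lit 272,nat_lit 0x10100110,
    nat_lit 0x100110,nat_lit 0x10001010,nat_lit 0x10010,nat_lit 0x100010,nat_lit 0x10100010,nat_lit 0x200010,
    nat_lit 0x1000010,nat_lit 0x10000010],[nat_lit 512,nat_lit 768,nat_lit 0x10300,nat_lit 0x1200,nat_lit 0x10200,
    nat_lit 0x20200,nat_lit 0x100200,nat_lit 0x10100200,nat_lit 0x1100,nat_lit 0x11100,nat_lit 0x10001100,
    nat_lit 0x10100,nat_lit 0x20100,nat_lit 0x30100,nat_lit 0x110100,nat_lit 0x10110100,nat_lit 0x100100,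
    nat_lit 0x10100100,nat_lit 0x1000100,nat_lit 0x10000100],[nat_lit 0x11000,nat_lit 0x10101000,nat_lit 0x1001000,
    nat_lit 0x10001000],[nat_lit 0x20000,nat_lit 0x30000,nat_lit 0x40000,nat_lit 0x120000,nat_lit 0x10120000,
    nat_lit 0x110000,nat_lit 0x10110000,nat_lit 0x1010000,nat_lit 0x10010000],[nat_lit 0x200000,nat_lit 0x300000,
    nat_lit 0x10200000,nat_lit 0x1100000,nat_lit 0x10100000,nat_lit 0x11100000,nat_lit 0x12100000],[nat_lit 0x2000000,
    nat_lit 0x3000000,nat_lit 0x4000000,nat_lit 0x11000000],[nat_lit 0x20000000]]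
    [.c (nat_lit 1) (nat_lit 2),.c (nat_lit 0) (nat_lit 0x300c04),.c (nat_lit 0) (nat_lit 0x4220009),
    .c (nat_lit 0) (nat_lit 0x4220009),.c (nat_lit 0) (nat_lit 0x80031128),.c (nat_lit 1) (nat_lit 0x6200008),
    .r (nat_lit 0x155c) (nat_lit 6) [nat_lit 0x84060124,nat_lit 0xc6000102,nat_lit 0x1080000004,nat_lit 0x84c00124,
    nat_lit 0x394ad3b082],.r (nat_lit 0xdb2) (nat_lit 7) [nat_lit 0x2084800128,nat_lit 0xc4040108],
    .c (nat_lit 0) (nat_lit 0x210005),.c (nat_lit 1) (nat_lit 0xc6401509),.c (nat_lit 0) (nat_lit 0xc0300008),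
    .c (nat_lit 0) (nat_lit 0xc0329008),.c (nat_lit 0) (nat_lit 0x4221128),.c (nat_lit 0) (nat_lit 0xc0300008),
    .c (nat_lit 0) (nat_lit 0x230009),.c (nat_lit 0) (nat_lit 0x4220009),.c (nat_lit 0) (nat_lit 0x84021128),
    .r (nat_lit 0x1218) (nat_lit 7) [nat_lit 0x18c052a004,nat_lit 0x2084422404,nat_lit 0x1080422504,
    nat_lit 0x18c042a124,nat_lit 0x180652a004],.c (nat_lit 0) (nat_lit 0x84021128),.c (nat_lit 0) (nat_lit 0x4201009),
    .r (nat_lit 0xdb2) (nat_lit 7) [nat_lit 0x1006028104,nat_lit 0x42200a2],.c (nat_lit 2) (nat_lit 0x88201009),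
    .c (nat_lit 0) (nat_lit 0x84021128),.r (nat_lit 0x151b) (nat_lit 14) [nat_lit 0x4620122,nat_lit 0x1080000004,
    nat_lit 0x18c052a004],.r (nat_lit 0xdba) (nat_lit 3) [nat_lit 0x1006028104,nat_lit 0x18c0522124],
    .r (nat_lit 0x161e) (nat_lit 13) [nat_lit 0x1080422504,nat_lit 0x18c052a004],.c (nat_lit 7) (nat_lit 0xc6029109),
    .c (nat_lit 2) (nat_lit 2),.r (nat_lit 0x155c) (nat_lit 6) [nat_lit 0x800300a2,nat_lit 0xc0000081,
    nat_lit 0x1080000004,nat_lit 0x806000a2,nat_lit 0x6acf96e104],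
    .r (nat_lit 0xdba) (nat_lit 3) [nat_lit 0x10800200a4,nat_lit 0x194652a084],.c (nat_lit 0) (nat_lit 0x4020009),
    .r (nat_lit 0xdba) (nat_lit 3) [nat_lit 0x1080420124,nat_lit 0x194692a104],.c (nat_lit 0) (nat_lit 0x4220009),
    .c (nat_lit 7) (nat_lit 0x84002009),.c (nat_lit 0) (nat_lit 0xc0329509),.c (nat_lit 0) (nat_lit 0x4000005),
    .r (nat_lit 0x161e) (nat_lit 13) [nat_lit 0x1004422504,nat_lit 0x18c052a004],.c (nat_lit 0) (nat_lit 0x4030009),
    .c (nat_lit 0) (nat_lit 0x4201009),.r (nat_lit 0x1638) (nat_lit 0) [nat_lit 0x1080000124,nat_lit 0x10001,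
    nat_lit 0x18c052a004,nat_lit 65],.c (nat_lit 3) (nat_lit 2),.r (nat_lit 0x151b) (nat_lit 14) [nat_lit 65,
    nat_lit 0x1080000004,nat_lit 0x18c052a004],.r (nat_lit 0x121a) (nat_lit 11) [nat_lit 0x10001,nat_lit 0x200001,
    nat_lit 0x4000001,nat_lit 0x80000001,nat_lit 0x1000000001],.r (nat_lit 0x1218) (nat_lit 7) [nat_lit 0x18c052a004,
    nat_lit 0x2084422404,nat_lit 0x2084c22524,nat_lit 0x28c652a104,nat_lit 0x180652a004],
    .r (nat_lit 0x121c) (nat_lit 7) [nat_lit 65,nat_lit 0x18c052a004,nat_lit 0x2084422404,nat_lit 0x180652a004,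
    nat_lit 0x200061],.c (nat_lit 1) (nat_lit 0xc6401505),.c (nat_lit 0) (nat_lit 0x10003),
    .c (nat_lit 0) (nat_lit 0x10003),.r (nat_lit 0xdb2) (nat_lit 7) [nat_lit 65,nat_lit 0x1004420124],
    .c (nat_lit 0) (nat_lit 0x4221128),.c (nat_lit 0) (nat_lit 0xc0018008),
    .r (nat_lit 0x151b) (nat_lit 14) [nat_lit 0x1084622502,nat_lit 0x1080000004,nat_lit 0x18c052a004],
    .c (nat_lit 1) (nat_lit 0xc6219505),.c (nat_lit 0) (nat_lit 0x18c693328),
    .r (nat_lit 0xdb2) (nat_lit 7) [nat_lit 0x2084422504,nat_lit 0x18c0002124],.c (nat_lit 0) (nat_lit 0x84211128),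
    .c (nat_lit 0) (nat_lit 0x10c05),.c (nat_lit 0) (nat_lit 0x10003),.c (nat_lit 0) (nat_lit 0x10805),
    .c (nat_lit 2) (nat_lit 0x4018004),.c (nat_lit 0) (nat_lit 0x4222128),
    .r (nat_lit 0x151b) (nat_lit 14) [nat_lit 0x1000600122,nat_lit 0x1080000004,nat_lit 0x18c052a004],
    .r (nat_lit 0xdba) (nat_lit 3) [nat_lit 65,nat_lit 0xc6502124],
    .r (nat_lit 0xdb2) (nat_lit 7) [nat_lit 0x10002000a2,nat_lit 0x1804020104],.c (nat_lit 5) (nat_lit 2),
    .c (nat_lit 0) (nat_lit 0x18c693328),.c (nat_lit 0) (nat_lit 0x84231122),.c (nat_lit 0) (nat_lit 0x84221924),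
    .c (nat_lit 0) (nat_lit 0x84220924),.c (nat_lit 0) (nat_lit 0xc6319509),
    .r (nat_lit 0xdb2) (nat_lit 7) [nat_lit 0xc602a124,nat_lit 0x1088442504],
    .r (nat_lit 0xdb2) (nat_lit 7) [nat_lit 0x2084802504,nat_lit 0x18c0522124],
    .r (nat_lit 0xdba) (nat_lit 3) [nat_lit 0xc6502124,nat_lit 65],.c (nat_lit 6) (nat_lit 2),
    .r (nat_lit 0x121a) (nat_lit 11) [nat_lit 0x10001,nat_lit 0x200001,nat_lit 0x4000001,nat_lit 0x80000001,
    nat_lit 0x1000000001],.c (nat_lit 1) (nat_lit 0x200002),.c (nat_lit 0) (nat_lit 0x10805),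
    .c (nat_lit 0) (nat_lit 0x10005),.c (nat_lit 1) (nat_lit 0x200c04),.c (nat_lit 0) (nat_lit 0xc02),
    .c (nat_lit 7) (nat_lit 2),.r (nat_lit 0x155c) (nat_lit 6) [nat_lit 65,nat_lit 0x300a1,nat_lit 0x1080000004,
    nat_lit 0x638082,nat_lit 0x69cf906124],.c (nat_lit 8) (nat_lit 0x1003),.c (nat_lit 0) (nat_lit 0x803),
    .c (nat_lit 8) (nat_lit 2)]]

/-- nodes -/
noncomputable def rD8k_36_5 : List RJ :=
  [.l (nat_lit 15) (nat_lit 0x15c0) (nat_lit 4) (nat_lit 0x86c0000086c000008830000088300000762000008e400000825000008250000091f0000091f0000090700000907000008a5000008a50000092200000922) (nat_lit 0xb6000000b60000009f0000009f0000003e000001c0000000fd000000fd00000003000000030000001b0000001b0000007d0000007d0000000000000000)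
    (nat_lit 0x15c01ed83fd87cd057021683b787310b3e15cc381885110420bc4436089a155c2b803e687cd0e8c20a034d876f10d221a442887c90fde1dfc436086c0f9a1f3433404ec108a1b0c3c3086e1210255046c0868100c20182ac88830f9a1fec3f20668108a1b0c26b07f211002200434040813041d4836a89ff1050216836186c30d7016883328665177e283c3fd87470ad21b9439a05e60e8c0ae04228845114c1ae03f387e71762280450489550bce219c491085c0ede1cc43f9086e0fce199430407280f2c2088405053a106019a06cd8aa50d361dbc26b07860fce199439406080fac208826d080a12a01ff058d882510d215cc44009541402283c411082212382470458095011442f4848f877710d2167c440090817622efc3eb079612382470464090413dc347848f872b0f922144204086812aa1d1c405053a1208254023808ec14fc23185e887bb10a21c0c43408d814121fec26d080a119022c047604701114222870289ef0efe0bc43a9080610ce1b943fe06681a3c2f4844508c60e8020a04f988a50fde20844c108060bce15a44a8083013dc22884450a7e0f701d0043b88a510d822684ff888310b817984128aa50e561ddc4f787bb114a2294478099210d821b036a855912441cd058d8d9b123e247c7028bd110ee27cc49108f0)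
    (nat_lit 0x15c05700ae015c02b805700ae015c02b805700ae015c02b805700ae015c00f6c2b80ae015c02b805700ae015c02b805700ae015c02b805700ae015c00ff61f3433415c02b805700ae015c02b805700ae015c02b805700ae015c00f9a1f3427606682b805700ae015c02b805700ae015c02b805700ae015c005701d1842288450d705700ae015c02b805700ae015c02b805700ae015c010b420a036186c30b441ae0ae015c02b805700ae015c02b805700ae015c00ede1a6c3c304d60cca1f9c30415c02b805700ae015c02b805700ae015c00e621dbc43707f20cca1f9c39406082b805700ae015c02b805700ae015c00b3e21a44840880177e2c843cb07d612385700ae015c02b805700ae015c00ae621a44aa0880141e2804411082212382470ae015c02b805700ae015c00e06214446c08680ff6282440504da1160232023815c02b805700ae015c010a21f2443404080e8e255429d080a12a0241047604702b805700ae015c010421fbc40309820ad2179c4180950114427b853f088a0e805700ae015c005e21dfc40307520dca219c33407fc16b42d68463088a10501d00ae015c010d821b02ac86d50e6824886a58a2f123e247c4b08dc113e621dc47815c0113421b044189ff0bcc217055288250eee1cac3dd89ef114a22944c908f0)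
    (nat_lit 5) (nat_lit 103)
    [[nat_lit 2,nat_lit 17,nat_lit 0x10000011,nat_lit 0x1001,nat_lit 0x100001,nat_lit 0x10100001,nat_lit 0x1000001,
    nat_lit 0x1000011,nat_lit 0x1000101,nat_lit 0x1001001,nat_lit 0x1010001,nat_lit 0x1100001,nat_lit 0x10000001,
    nat_lit 0x10001001],[nat_lit 32,nat_lit 0x100020,nat_lit 0x10000020,nat_lit 272,nat_lit 0x1000110,
    nat_lit 0x10000110,nat_lit 0x10001010,nat_lit 0x10010,nat_lit 0x1010010,nat_lit 0x10010010,nat_lit 0x100010,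
    nat_lit 0x110010,nat_lit 0x200010,nat_lit 0x1100010,nat_lit 0x10100010,nat_lit 0x10110010,nat_lit 0x100110,
    nat_lit 0x1000010,nat_lit 0x11000010,nat_lit 0x10000010],[nat_lit 512,nat_lit 768,nat_lit 0x400,nat_lit 0x10300,
    nat_lit 0x10200,nat_lit 0x20200,nat_lit 0x1000200,nat_lit 0x10000200,nat_lit 0x1100,nat_lit 0x10100,
    nat_lit 0x20100,nat_lit 0x1010100,nat_lit 0x110100,nat_lit 0x10010100,nat_lit 0x100100,nat_lit 0x1100100,
    nat_lit 0x10100100,nat_lit 0x1000100,nat_lit 0x2000100,nat_lit 0x10000100,nat_lit 0x11000100],[nat_lit 0x2000,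
    nat_lit 0x11000,nat_lit 0x10011000,nat_lit 0x1001000,nat_lit 0x10001000,nat_lit 0x10101000],[nat_lit 0x20000,
    nat_lit 0x30000,nat_lit 0x120000,nat_lit 0x1020000,nat_lit 0x10020000,nat_lit 0x110000,nat_lit 0x210000,
    nat_lit 0x10110000,nat_lit 0x1010000,nat_lit 0x1110000,nat_lit 0x2010000,nat_lit 0x11010000,nat_lit 0x10010000],
    [nat_lit 0x200000,nat_lit 0x300000,nat_lit 0x10200000,nat_lit 0x1100000,nat_lit 0x2100000,nat_lit 0x10100000,
    nat_lit 0x11100000],[nat_lit 0x2000000,nat_lit 0x3000000,nat_lit 0x11000000,nat_lit 0x12000000],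
    [nat_lit 0x20000000]]
    [.c (nat_lit 1) (nat_lit 2),.r (nat_lit 0xdbb) (nat_lit 11) [nat_lit 65,nat_lit 0x200001],
    .r (nat_lit 0xdb4) (nat_lit 3) [nat_lit 0x200001,nat_lit 65],.c (nat_lit 0) (nat_lit 0x318002),
    .r (nat_lit 0xdbb) (nat_lit 11) [nat_lit 0x10041,nat_lit 0x200001],
    .r (nat_lit 0xdb4) (nat_lit 3) [nat_lit 0x200001,nat_lit 0x10041],
    .r (nat_lit 0x1400) (nat_lit 2) [nat_lit 0x18001,nat_lit 0xc0318861,nat_lit 0x210001,nat_lit 65],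
    .r (nat_lit 0x14e2) (nat_lit 1) [nat_lit 0x210001,nat_lit 0xc0300861,nat_lit 0x84010061,nat_lit 0x18041],
    .c (nat_lit 0) (nat_lit 0x6300002),.c (nat_lit 0) (nat_lit 0x318002),.c (nat_lit 0) (nat_lit 0x4010862),
    .r (nat_lit 0x14e2) (nat_lit 1) [nat_lit 0x210001,nat_lit 0xc0318861,nat_lit 0x84000061,nat_lit 65],
    .r (nat_lit 0xdbb) (nat_lit 9) [nat_lit 65,nat_lit 0x200001],.c (nat_lit 0) (nat_lit 0x318002),
    .c (nat_lit 2) (nat_lit 2),.r (nat_lit 0x12f0) (nat_lit 5) [nat_lit 0x10041,nat_lit 0x28041,nat_lit 0x620061,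
    nat_lit 0x84000001],.r (nat_lit 0x1404) (nat_lit 7) [nat_lit 0x10001,nat_lit 0x200001,nat_lit 0xc0318801,
    nat_lit 0x28041],.c (nat_lit 0) (nat_lit 0x4000803),.c (nat_lit 0) (nat_lit 0x4000803),
    .c (nat_lit 0) (nat_lit 0x4000803),.c (nat_lit 0) (nat_lit 0x18c02),.c (nat_lit 0) (nat_lit 0x6318043),
    .c (nat_lit 0) (nat_lit 0x6318043),.c (nat_lit 0) (nat_lit 0x6318043),.c (nat_lit 2) (nat_lit 0x802),
    .r (nat_lit 0xdb7) (nat_lit 11) [nat_lit 0xc0318801,nat_lit 0xc6000861],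
    .r (nat_lit 0x12f0) (nat_lit 5) [nat_lit 0x20041,nat_lit 0x18041,nat_lit 0x610061,nat_lit 0x84000001],
    .r (nat_lit 0xdb7) (nat_lit 6) [nat_lit 0xc0318801,nat_lit 0x80210061],
    .r (nat_lit 0x1404) (nat_lit 7) [nat_lit 0x10001,nat_lit 0x200001,nat_lit 0xc0318801,nat_lit 0x18041],
    .r (nat_lit 0x1491) (nat_lit 3) [nat_lit 0xc0318801,nat_lit 0x146018861,nat_lit 0x104210c41],
    .r (nat_lit 0xdb7) (nat_lit 11) [nat_lit 0xc0318801,nat_lit 0x80210061],.c (nat_lit 0) (nat_lit 0x300803),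
    .c (nat_lit 0) (nat_lit 0x300803),.c (nat_lit 0) (nat_lit 0x300803),.c (nat_lit 3) (nat_lit 2),
    .r (nat_lit 0x151b) (nat_lit 14) [nat_lit 65,nat_lit 0x210001,nat_lit 0xc0318801],
    .r (nat_lit 0xef1) (nat_lit 1) [nat_lit 0x45294a042,nat_lit 66,nat_lit 0x210000062,nat_lit 0x10001,
    nat_lit 0x200001],.r (nat_lit 0xef1) (nat_lit 1) [nat_lit 0x34e739842,nat_lit 0x104210c42,nat_lit 0x10c318862,
    nat_lit 0x10001,nat_lit 0x200001],.r (nat_lit 0x151b) (nat_lit 14) [nat_lit 0x104210c41,nat_lit 0x210001,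
    nat_lit 0xc0318801],.r (nat_lit 0xef1) (nat_lit 1) [nat_lit 0x24a529042,nat_lit 0x208421442,nat_lit 0x8529062,
    nat_lit 0x10001,nat_lit 0x200001],.r (nat_lit 0xdb4) (nat_lit 3) [nat_lit 0x200001,nat_lit 0x104010061],
    .r (nat_lit 0x14e2) (nat_lit 1) [nat_lit 0x210001,nat_lit 0x1c6318841,nat_lit 0xc0000041,nat_lit 0x104000061],
    .r (nat_lit 0xdbb) (nat_lit 11) [nat_lit 0x84210061,nat_lit 0x200001],.c (nat_lit 1) (nat_lit 0x218c43),
    .r (nat_lit 0x151b) (nat_lit 14) [nat_lit 0x208421441,nat_lit 0x210001,nat_lit 0xc0318801],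
    .r (nat_lit 0xdb4) (nat_lit 3) [nat_lit 0x200001,nat_lit 0x300861],
    .r (nat_lit 0x149d) (nat_lit 1) [nat_lit 0x200001,nat_lit 0xc0000041,nat_lit 0x84210c41,nat_lit 0x6300861],
    .r (nat_lit 0x14e2) (nat_lit 1) [nat_lit 0x210001,nat_lit 0xc0000041,nat_lit 0x84210c41,nat_lit 0x318861],
    .c (nat_lit 0) (nat_lit 0x4000003),.c (nat_lit 0) (nat_lit 0x4000003),.c (nat_lit 0) (nat_lit 0x4000003),
    .c (nat_lit 0) (nat_lit 0x4000803),.r (nat_lit 0xe9b) (nat_lit 12) [nat_lit 0x104210c01,nat_lit 0x210001,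
    nat_lit 0xc0318801,nat_lit 0x146318841,nat_lit 0x200001],.c (nat_lit 0) (nat_lit 0x4000803),
    .c (nat_lit 0) (nat_lit 0x4000803),.c (nat_lit 4) (nat_lit 2),.r (nat_lit 0xdbb) (nat_lit 11) [nat_lit 0xc0000861,
    nat_lit 0x200001],.r (nat_lit 0xdb7) (nat_lit 6) [nat_lit 0xc0318801,nat_lit 0x104210c41],
    .r (nat_lit 0x1491) (nat_lit 3) [nat_lit 0xc0318801,nat_lit 0xc0018041,nat_lit 0x80210061],
    .r (nat_lit 0xdbe) (nat_lit 13) [nat_lit 65,nat_lit 0xc0318801],.c (nat_lit 0) (nat_lit 0x18002),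
    .c (nat_lit 5) (nat_lit 2),.r (nat_lit 0x151b) (nat_lit 14) [nat_lit 0x30c631c41,nat_lit 0x210001,
    nat_lit 0xc0318801],.r (nat_lit 0x149d) (nat_lit 1) [nat_lit 0x200001,nat_lit 0x84210c41,nat_lit 0x188421441,
    nat_lit 0x14a519061],.r (nat_lit 0xdb4) (nat_lit 3) [nat_lit 0x200001,nat_lit 0x146519061],
    .r (nat_lit 0x14e2) (nat_lit 1) [nat_lit 0x210001,nat_lit 0x84210c41,nat_lit 0x188421441,nat_lit 0x146529061],
    .c (nat_lit 0) (nat_lit 0x6318c43),.r (nat_lit 0xdb7) (nat_lit 11) [nat_lit 0xc0318801,nat_lit 0xc6018861],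
    .c (nat_lit 0) (nat_lit 0x6318c43),.c (nat_lit 0) (nat_lit 0x6318043),.c (nat_lit 0) (nat_lit 0x6318c43),
    .r (nat_lit 0xe9b) (nat_lit 12) [nat_lit 0x104210c01,nat_lit 0x210001,nat_lit 0xc0318801,nat_lit 65,
    nat_lit 0x200001],.c (nat_lit 0) (nat_lit 0x6318043),.c (nat_lit 0) (nat_lit 0x6318043),
    .c (nat_lit 6) (nat_lit 2),.r (nat_lit 0x12f0) (nat_lit 5) [nat_lit 0x30041,nat_lit 65,nat_lit 0x600061,
    nat_lit 0x84000001],.r (nat_lit 0x1404) (nat_lit 7) [nat_lit 0x10001,nat_lit 0x200001,nat_lit 0xc0318801,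
    nat_lit 65],.c (nat_lit 0) (nat_lit 0x300003),.r (nat_lit 0x1638) (nat_lit 8) [nat_lit 0x10001,nat_lit 65,
    nat_lit 0xc0318801,nat_lit 0x200001],.c (nat_lit 0) (nat_lit 0x300003),.c (nat_lit 0) (nat_lit 0x300003),
    .c (nat_lit 7) (nat_lit 2),.r (nat_lit 0xef4) (nat_lit 11) [nat_lit 65,nat_lit 0x10001,nat_lit 0x200001,
    nat_lit 0xc000041,nat_lit 0x180000061],.c (nat_lit 0) (nat_lit 0x300003),
    .r (nat_lit 0xef2) (nat_lit 2) [nat_lit 0xc0318801,nat_lit 0x84000001,nat_lit 65,nat_lit 0x6000061,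
    nat_lit 0x6010061],.c (nat_lit 8) (nat_lit 2)],
    .l (nat_lit 14) (nat_lit 0x924) (nat_lit 4) (nat_lit 0x3c7000003c7000003810000041500000482000003dc00000447000004470000044900000449000003d7000003d7000003d9000003d9000003bb000003bb) (nat_lit 0xbb000000bb0000006d00000101000000a6000000000000003b0000003b0000003900000039000000ab000000ab000000a9000000a9000000c7000000c7)
    (nat_lit 0xc503040d282ce0c841f70ed02840e383aa0c9031c0c183120c003180c303140d682c608941ef0f102940e983c20c7031c0c7831e0be03280b182ce13b02800f4c3810c484420d203100b582be0ac02d80ac82ba0d6834a1a904ec0f2c415081849e0f703dc0d083620db036c147818607bc1f710543810c60186111c3eb114461d0f5c3d716844010f2c3bb08943210f2c3d30cd83180f243a10c1c4d30984331148c383107426d0a5028412784420e843eb0b7040c10383e60d30438111846e0e001900f103b408183120f2444710302dc0fd840e13b05d80e7838a0d903800f083aa0f70310134c61d10383e607504100ec83b60e802500d683820e9838e0f703480c1c4510fd840e10401d40e6839e0ea03cc0e083760c7031c0d882be0cc43d717604380e783b60c0032c0ce83320c403080c703240d082d609843d713b034c0e683b20cb03000cd832e0c703140c783120db02d80e0c4010e2846e0f302500cb83320cb03300c2830a0c783060db02b0148c5a10e784460ea03a00cd833a0c2032c0be83120ca031806182ba09b43bb0e001900dd83820c503080c4830a0c3031c0be030014782b210743cb0d903800e0835a0c703100be830a0bf030c)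
    (nat_lit 0xc5092424909242490924249092424909242490924249092424909240c1031424909242490924249092424909242490924249092424909240d2835a13b09242490924249092424909242490924249092424909240b382c60a004ec2490924249092424909242490924249092424909240c842250f4c3cb0c609242490924249092424909242490924249092407dc1ef0e044150618318249092424909242490924249092424909240ed03c40c48206111c3c90b7092424909242490924249092424909240a10294110849e0fac3a110302dc24909242490924249092424909240e383a60d203dc114430710383f607509242490924249092424909240ea83c20c403dc16644d30f9840e10401d42490924249092424909240c9031c0b583420f5c2610d304dc0ec839a0c00924249092424909240c7031c0af83620f5c33110e04c40ed839e0cb0300249092424909240c1831e0ac036c13d4523111839e0e803a80ce83360cb092424909240c4831e0b6036c100438311b838a09403cc0cc832e0cc032c24909240c002f80ac851e0f2c41d0e003640d683820c4031c0c282fa0c309240c603280ae81860eec26d06403800e083760c203140c283120c7030c)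
    (nat_lit 4) (nat_lit 139)
    [[nat_lit 2,nat_lit 18,nat_lit 0x10002,nat_lit 0x1000002,nat_lit 0x10000002,nat_lit 258,nat_lit 0x2000002,
    nat_lit 17,nat_lit 33,nat_lit 0x10011,nat_lit 0x1000011,nat_lit 0x1011,nat_lit 257,nat_lit 0x1000101,
    nat_lit 0x1001,nat_lit 0x2001,nat_lit 0x11001,nat_lit 0x1001001,nat_lit 0x10001,nat_lit 0x20001,nat_lit 0x1010001,
    nat_lit 0x10010001,nat_lit 0x100001,nat_lit 0x10100001,nat_lit 0x200001,nat_lit 0x1000001,nat_lit 0x10000001,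
    nat_lit 0x10200001,nat_lit 0x11000001,nat_lit 0x10000011],[nat_lit 32,nat_lit 272,nat_lit 0x1010,nat_lit 0x2010,
    nat_lit 0x10010,nat_lit 0x1000010,nat_lit 0x1001010,nat_lit 0x11000010,nat_lit 0x10000010,nat_lit 0x10001010,
    nat_lit 0x10100010],[nat_lit 512,nat_lit 768,nat_lit 0x1000200,nat_lit 0x1100,nat_lit 0x1010100,nat_lit 0x100100,
    nat_lit 0x10100100,nat_lit 0x200100,nat_lit 0x1000100,nat_lit 0x10000100],[nat_lit 0x2000,nat_lit 0x3000,
    nat_lit 0x4000,nat_lit 0x1002000,nat_lit 0x11000,nat_lit 0x10101000,nat_lit 0x1001000,nat_lit 0x10001000],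
    [nat_lit 0x20000,nat_lit 0x30000,nat_lit 0x110000,nat_lit 0x10110000,nat_lit 0x210000,nat_lit 0x1010000,
    nat_lit 0x11010000,nat_lit 0x10010000],[nat_lit 0x200000,nat_lit 0x300000,nat_lit 0x10200000,nat_lit 0x10300000,
    nat_lit 0x1100000,nat_lit 0x11100000,nat_lit 0x10100000,nat_lit 0x20100000,nat_lit 0x20200000],
    [nat_lit 0x11000000],[nat_lit 0x20000000]]
    [.c (nat_lit 1) (nat_lit 2),.c (nat_lit 0) (nat_lit 0x5355043),.c (nat_lit 8) (nat_lit 0x2444452),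
    .c (nat_lit 0) (nat_lit 0x5355043),.r (nat_lit 0x67b) (nat_lit 7) [nat_lit 0x35555441,nat_lit 0x22222331,
    nat_lit 0x2000051,nat_lit 33,nat_lit 0x33330221,nat_lit 0x44464551],
    .r (nat_lit 0xdae) (nat_lit 9) [nat_lit 0x20020001,nat_lit 0x200001,nat_lit 0x30022,nat_lit 0x222001],
    .r (nat_lit 0xdbe) (nat_lit 10) [nat_lit 0x2001,nat_lit 0x42464521],.c (nat_lit 0) (nat_lit 0x5355045),
    .c (nat_lit 0) (nat_lit 0x5355043),.r (nat_lit 0xdb7) (nat_lit 10) [nat_lit 0x2001,nat_lit 0x203021],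
    .c (nat_lit 0) (nat_lit 0x5355343),.c (nat_lit 0) (nat_lit 0x5335343),
    .r (nat_lit 0x163a) (nat_lit 2) [nat_lit 0x20020031,nat_lit 33,nat_lit 0x20222301,nat_lit 0x30033201],
    .r (nat_lit 0x13e3) (nat_lit 2) [nat_lit 0x20020031,nat_lit 33,nat_lit 0x20222301,nat_lit 0x30033201],
    .c (nat_lit 0) (nat_lit 0x5305545),.c (nat_lit 0) (nat_lit 0x5305543),
    .r (nat_lit 0xdb7) (nat_lit 10) [nat_lit 0x2001,nat_lit 33],.c (nat_lit 0) (nat_lit 0x5335543),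
    .c (nat_lit 0) (nat_lit 0x3355543),.r (nat_lit 0x13e3) (nat_lit 2) [nat_lit 0x22444521,nat_lit 0x3535431,
    nat_lit 0x20222301,nat_lit 0x30033201],.c (nat_lit 0) (nat_lit 0x3355543),
    .r (nat_lit 0xdb2) (nat_lit 0) [nat_lit 0x333231,nat_lit 0x222001],
    .r (nat_lit 0xdae) (nat_lit 9) [nat_lit 0x20020001,nat_lit 0x200001,nat_lit 33,nat_lit 0x222001],
    .c (nat_lit 0) (nat_lit 0x3333322),.c (nat_lit 0) (nat_lit 0x2002),.c (nat_lit 0) (nat_lit 0x3033023),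
    .c (nat_lit 0) (nat_lit 0x3033023),.c (nat_lit 0) (nat_lit 0x5555542),.c (nat_lit 0) (nat_lit 0x3033023),
    .c (nat_lit 8) (nat_lit 0x2222032),.c (nat_lit 2) (nat_lit 2),.c (nat_lit 0) (nat_lit 0x2403),
    .c (nat_lit 2) (nat_lit 0x30202),.r (nat_lit 0xdb8) (nat_lit 14) [nat_lit 0x422031,nat_lit 0x20303021],
    .r (nat_lit 0xdb8) (nat_lit 14) [nat_lit 0x20022031,nat_lit 0x203021],.c (nat_lit 0) (nat_lit 0x3033023),
    .c (nat_lit 0) (nat_lit 0x5335343),.c (nat_lit 0) (nat_lit 0x3033023),.c (nat_lit 0) (nat_lit 0x3033023),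
    .r (nat_lit 0xdb7) (nat_lit 10) [nat_lit 0x2001,nat_lit 0x3335221],.c (nat_lit 0) (nat_lit 0x3333522),
    .c (nat_lit 3) (nat_lit 2),.r (nat_lit 0xdb8) (nat_lit 14) [nat_lit 0x30022,nat_lit 0x40460032],
    .r (nat_lit 0xdb7) (nat_lit 10) [nat_lit 0x2001,nat_lit 0x3005432],.c (nat_lit 0) (nat_lit 0x42005),
    .c (nat_lit 8) (nat_lit 0x2202003),.r (nat_lit 0xdb8) (nat_lit 14) [nat_lit 33,nat_lit 0x20220031],
    .c (nat_lit 0) (nat_lit 0x3333322),.c (nat_lit 2) (nat_lit 0x2803),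
    .r (nat_lit 0xdbe) (nat_lit 10) [nat_lit 0x2001,nat_lit 33],.r (nat_lit 0xdae) (nat_lit 9) [nat_lit 0x20020001,
    nat_lit 0x200001,nat_lit 0x33353221,nat_lit 0x222001],.c (nat_lit 4) (nat_lit 2),
    .r (nat_lit 0xdb8) (nat_lit 14) [nat_lit 0x620031,nat_lit 0x20500021],.c (nat_lit 3) (nat_lit 0x84003),
    .c (nat_lit 0) (nat_lit 0x5305543),.r (nat_lit 0xdb8) (nat_lit 14) [nat_lit 0x20220031,nat_lit 33],
    .c (nat_lit 0) (nat_lit 0x3353322),.c (nat_lit 0) (nat_lit 0x3003323),.c (nat_lit 0) (nat_lit 0x3003323),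
    .c (nat_lit 5) (nat_lit 2),.r (nat_lit 0x14e4) (nat_lit 2) [nat_lit 33,nat_lit 0x60060031,nat_lit 0x20222301,
    nat_lit 0x30033201],.c (nat_lit 0) (nat_lit 0x3000004),.c (nat_lit 0) (nat_lit 0x3000004),
    .c (nat_lit 0) (nat_lit 0x3000002),.c (nat_lit 0) (nat_lit 0x3355543),
    .r (nat_lit 0xdae) (nat_lit 9) [nat_lit 0x20020001,nat_lit 0x200001,nat_lit 0x333231,nat_lit 0x222001],
    .r (nat_lit 0xdb7) (nat_lit 10) [nat_lit 0x2001,nat_lit 0x33033221],.c (nat_lit 6) (nat_lit 2),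
    .c (nat_lit 0) (nat_lit 0x6004),.c (nat_lit 0) (nat_lit 0x5555542),.c (nat_lit 0) (nat_lit 0x7777762),
    .r (nat_lit 0xdb2) (nat_lit 0) [nat_lit 33,nat_lit 0x222001],.c (nat_lit 0) (nat_lit 0x3333322),
    .c (nat_lit 0) (nat_lit 0x3333322),.c (nat_lit 0) (nat_lit 0x3333322),.c (nat_lit 0) (nat_lit 0x5555542),
    .c (nat_lit 0) (nat_lit 0x200005),.c (nat_lit 8) (nat_lit 2)]]

/-- nodes -/
noncomputable def rD8k_36_6 : List RJ :=
  [.l (nat_lit 14) (nat_lit 0xec4) (nat_lit 4) (nat_lit 0x7ce000005de0000065d0000065d0000058c0000074c0000077700000777000006af000006af0000064b000007c3000006b0000006b0000005550000066b) (nat_lit 0x1f0000000000000017100000171000000820000024200000057000000570000011f0000011f0000000b000001830000011e0000011e0000016300000279)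
    (nat_lit 0x1f907ce19ac66b0d107921ddc777127c6371f0c64b1a882f419ac5550fb87e4123446d20d839c14b45851784419174c45916c04c011b436511b466b13b04ec17743fb1ab032c150059819483b814fc53f0bd02f4123466b13b04ec177441b1ab032c15005b8194848414fc4c50bd03b40e70792106c3fb1f9034a12ec533130c3c717ec407127846e106c31320d834417745dd1b287e41aa46f518b45eb1f245d50bd088617a448916147770cb032c1bd45331d8872019306a414505f41a8c5d1287083814b47771ab06ac1aa44bb21b076218006580bd05781b4c6591a304a8106463716e059817ac3c719606a418304441a90584179ca0915303bc178449f150054018b44c3180064c164060c1a9052c12ec8dd1530364116464b12103b8175440715e05f414b05840bd04c817fc52d1be04a8174c7c319486521f245fb0bd05141a906a41ee02f41ddc6a528707cc13002f4131453f221846e19645d12374a091a9452d0c40592153436516c06a214fc53f0bd049e1b4c6a312ec5e71ddc5ff15d831015344370d945550ed02f4122431312a08380d903bc1f304a810dc36510002f811b466b0bd02f417a441b1a30a1c153054c28706f8153454d1420400)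
    (nat_lit 0x1f90ec43b10ec43b10ec43b10ec43b10ec43b10ec43b10ec43b10ec41f387e43b10ec43b10ec43b10ec43b10ec43b10ec43b10ec43b10ec419ac48d13b0ec43b10ec43b10ec43b10ec43b10ec43b10ec43b10ec419ac46d13b04ec3b10ec43b10ec43b10ec43b10ec43b10ec43b10ec40d1073217745dd1b80ec43b10ec43b10ec43b10ec43b10ec43b10ec41a3839c0fec41b0d286e03b10ec43b10ec43b10ec43b10ec43b10ec41ddc52d1ab06ac12ec6a91d88ec43b10ec43b10ec43b10ec43b10ec41ddc5850cb032c14cc6f519607623b10ec43b10ec43b10ec43b10ec4127c5e11500540130c62d19306001830ec43b10ec43b10ec43b10ec418dc41916605b80f1c5eb1a90658111060c3b10ec43b10ec43b10ec41f0c5d3188062017ec7c914502f41a906a40bd0ec43b10ec43b10ec4192c4590ee0484101c5d517d0578161052c13202f43b10ec43b10ec41a885b014fc53f12782f41a8c6d3179c4bb17fc7770c40ec43b10ec40bd04c014fc4c511b880417446591c348d514b46a516483103b10ec419ac46d0bd02f4106c5e9188068c153054c1ab0914153454d1000ec415543650bd03b40c4c48918804a80ef036412a07cc0d944370be0400)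
    (nat_lit 5) (nat_lit 159)
    [[nat_lit 2,nat_lit 3,nat_lit 0x1000003,nat_lit 18,nat_lit 0x1002,nat_lit 0x100002,nat_lit 0x100012,
    nat_lit 0x1000002,nat_lit 0x10000002,nat_lit 17,nat_lit 33,nat_lit 0x100021,nat_lit 0x1011,nat_lit 0x100011,
    nat_lit 0x1000011,nat_lit 0x1000012,nat_lit 0x10000021,nat_lit 0x10000011,nat_lit 0x1001,nat_lit 0x1001002,
    nat_lit 0x2001,nat_lit 0x101001,nat_lit 0x1001001,nat_lit 0x10001001,nat_lit 0x1010001,nat_lit 0x100001,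
    nat_lit 0x1100002,nat_lit 0x10100011,nat_lit 0x200001,nat_lit 0x1100001,nat_lit 0x10100001,nat_lit 0x1000001,
    nat_lit 0x2000002,nat_lit 0x11000002,nat_lit 0x1100011,nat_lit 0x1000021,nat_lit 0x11000011,nat_lit 0x1000101,
    nat_lit 0x1010101,nat_lit 0x11100001,nat_lit 0x2000001,nat_lit 0x11000001,nat_lit 0x10000001],[nat_lit 32,
    nat_lit 48,nat_lit 64,nat_lit 0x100030,nat_lit 0x100020,nat_lit 0x10100020,nat_lit 0x1000020,nat_lit 0x10000020,
    nat_lit 272,nat_lit 0x10001010,nat_lit 0x10010,nat_lit 0x100010,nat_lit 0x10100010,nat_lit 0x100110,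
    nat_lit 0x110010,nat_lit 0x10200010,nat_lit 0x1100010,nat_lit 0x11100010,nat_lit 0x1000010,nat_lit 0x11000010,
    nat_lit 0x10000010,nat_lit 0x20000010],[nat_lit 512,nat_lit 768,nat_lit 0x400,nat_lit 0x10200,nat_lit 0x1010200,
    nat_lit 0x1000200,nat_lit 0x1100,nat_lit 0x10100,nat_lit 0x110100,nat_lit 0x1010100,nat_lit 0x100100,
    nat_lit 0x10100100,nat_lit 0x1000100,nat_lit 0x10000100],[nat_lit 0x2000,nat_lit 0x11000,nat_lit 0x101000,
    nat_lit 0x10101000,nat_lit 0x1001000,nat_lit 0x10001000],[nat_lit 0x110000,nat_lit 0x1110000,nat_lit 0x10110000,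
    nat_lit 0x1010000,nat_lit 0x10010000],[nat_lit 0x200000,nat_lit 0x1100000,nat_lit 0x10100000,nat_lit 0x20200000,
    nat_lit 0x11100000],[nat_lit 0x2000000,nat_lit 0x11000000],[nat_lit 0x20000000]]
    [.c (nat_lit 1) (nat_lit 2),.c (nat_lit 0) (nat_lit 0x842188e4),.c (nat_lit 0) (nat_lit 0x18c638a6c),
    .c (nat_lit 0) (nat_lit 0x842188e6),.c (nat_lit 1) (nat_lit 0x320006),.c (nat_lit 0) (nat_lit 0x228006),
    .c (nat_lit 0) (nat_lit 0x18c619a6c),.c (nat_lit 0) (nat_lit 0x842180e6),.c (nat_lit 0) (nat_lit 0x842188e6),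
    .c (nat_lit 0) (nat_lit 0x842188e6),.c (nat_lit 0) (nat_lit 0x1084291a6),.c (nat_lit 0) (nat_lit 0x1144111a6),
    .c (nat_lit 0) (nat_lit 0x840108e6),.c (nat_lit 0) (nat_lit 0x842188e6),.c (nat_lit 0) (nat_lit 0x842180e6),
    .c (nat_lit 0) (nat_lit 0x842180e6),.c (nat_lit 0) (nat_lit 0x1084291a6),.c (nat_lit 0) (nat_lit 0x842188e6),
    .r (nat_lit 0xdb8) (nat_lit 11) [nat_lit 65,nat_lit 0x18000198e3],.c (nat_lit 0) (nat_lit 0x1082009a6),
    .r (nat_lit 0x671) (nat_lit 0) [nat_lit 0xa3000c1,nat_lit 0xa8000c1,nat_lit 0x5ac675f9a1,nat_lit 0x2882000e1,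
    nat_lit 0x4500181,nat_lit 0x50082000e1],.r (nat_lit 0xc39) (nat_lit 11) [nat_lit 0x63300c3,nat_lit 0x30042000e3,
    nat_lit 0x4500183,nat_lit 0x1842000e3,nat_lit 0x39c633c9a3],.r (nat_lit 0x1439) (nat_lit 11) [nat_lit 0x218003,
    nat_lit 0x18c00298e3,nat_lit 0x80010003,nat_lit 0x3100c3],.r (nat_lit 0xc53) (nat_lit 11) [nat_lit 0x1080011cc1,
    nat_lit 0x20001,nat_lit 0x10c00198e1,nat_lit 0x294052b001,nat_lit 0x18800198e1],
    .c (nat_lit 0) (nat_lit 0xc0018c06),.r (nat_lit 0xdae) (nat_lit 10) [nat_lit 0x18c0319803,nat_lit 0x80200003,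
    nat_lit 65,nat_lit 0x1084000003],.c (nat_lit 0) (nat_lit 0x28c06),.c (nat_lit 0) (nat_lit 0x842008e6),
    .r (nat_lit 0x672) (nat_lit 10) [nat_lit 0x2000400001,nat_lit 0x8900001,nat_lit 0x100400001,nat_lit 0x294a42b001,
    nat_lit 0x5000e1,nat_lit 0x20001],.r (nat_lit 0xdac) (nat_lit 7) [nat_lit 0x18c60018e3,nat_lit 0x80200003,
    nat_lit 0x18c0319803,nat_lit 65],.r (nat_lit 0xdb8) (nat_lit 11) [nat_lit 0x8300246,nat_lit 0x280a22b266],
    .r (nat_lit 0xdb8) (nat_lit 11) [nat_lit 0x4538243,nat_lit 0x1806421a63],.c (nat_lit 0) (nat_lit 0x84218ce6),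
    .c (nat_lit 0) (nat_lit 0x842180e6),.c (nat_lit 0) (nat_lit 0x842180e6),.c (nat_lit 0) (nat_lit 0x1084289a6),
    .c (nat_lit 0) (nat_lit 0x842180e6),.c (nat_lit 0) (nat_lit 0x6018c06),.c (nat_lit 0) (nat_lit 0xc6028c06),
    .c (nat_lit 1) (nat_lit 0x10c06),.c (nat_lit 0) (nat_lit 0x84219cec),
    .r (nat_lit 0xdbe) (nat_lit 11) [nat_lit 0x1000200003,nat_lit 0x18c60018e3],
    .r (nat_lit 0xdb2) (nat_lit 13) [nat_lit 65,nat_lit 0x1084000003],.c (nat_lit 2) (nat_lit 2),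
    .r (nat_lit 0xdab) (nat_lit 11) [nat_lit 0x10001,nat_lit 0x1184211c42,nat_lit 0x18c6319866,nat_lit 0x1000200003],
    .r (nat_lit 0x673) (nat_lit 5) [nat_lit 0x4a5284e0e2,nat_lit 0x4a5294e0e2,nat_lit 0x40001,nat_lit 0xc2108464c2,
    nat_lit 0x4a4094e0e1,nat_lit 0x46108464c2],.r (nat_lit 0x674) (nat_lit 14) [nat_lit 0x38c6319801,
    nat_lit 0x1000200001,nat_lit 0x89ce73c8e1,nat_lit 0x10001,nat_lit 0x918c634cc1,nat_lit 0x2004000001],
    .r (nat_lit 0x675) (nat_lit 14) [nat_lit 0x38c6319801,nat_lit 0x1000200001,nat_lit 0x594a52b0e1,nat_lit 0x10001,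
    nat_lit 0x61084234c1,nat_lit 0x2004000001],.r (nat_lit 0x676) (nat_lit 7) [nat_lit 0x51084234c1,
    nat_lit 0x294a52b0e1,nat_lit 0x30001,nat_lit 0x294a22b0e1,nat_lit 0x1084211d81,nat_lit 0x22884234c1],
    .r (nat_lit 0xdab) (nat_lit 11) [nat_lit 0x10001,nat_lit 0x23084134c4,nat_lit 0x294a51b0ec,nat_lit 0x1000200003],
    .r (nat_lit 0x1396) (nat_lit 3) [nat_lit 0x18c0319803,nat_lit 65,nat_lit 0x80200003,nat_lit 0x2104211c03],
    .r (nat_lit 0xdb8) (nat_lit 11) [nat_lit 0x18000198e3,nat_lit 65],.c (nat_lit 0) (nat_lit 0x840108e6),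
    .r (nat_lit 0xdb8) (nat_lit 11) [nat_lit 0xc00198e3,nat_lit 0x18800000c3],
    .r (nat_lit 0xdbe) (nat_lit 11) [nat_lit 0x1000200003,nat_lit 65],
    .r (nat_lit 0xdb8) (nat_lit 11) [nat_lit 0x39ca53ca63,nat_lit 0x2188423643],
    .r (nat_lit 0xdb7) (nat_lit 11) [nat_lit 0x1000200003,nat_lit 0x18003018e3],
    .r (nat_lit 0xdb7) (nat_lit 11) [nat_lit 0x1000200003,nat_lit 0xc03018e3],
    .r (nat_lit 0x163b) (nat_lit 2) [nat_lit 0x1000200003,nat_lit 0x4500003,nat_lit 0x80200003,nat_lit 0x18c63118e3,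
    nat_lit 0x18c6219803],.r (nat_lit 0xdb2) (nat_lit 13) [nat_lit 0x18c60018e3,nat_lit 0x1084000003],
    .c (nat_lit 0) (nat_lit 0x84210cec),.r (nat_lit 0xdb8) (nat_lit 11) [nat_lit 0x39c6304a66,nat_lit 0x1184229e46],
    .r (nat_lit 0xdae) (nat_lit 10) [nat_lit 0x18c0319803,nat_lit 0x80200003,nat_lit 0x18c60018e3,
    nat_lit 0x1084000003],.r (nat_lit 0xdac) (nat_lit 7) [nat_lit 65,nat_lit 0x80200003,nat_lit 0x18c0319803,
    nat_lit 0x18c60018e3],.r (nat_lit 0x677) (nat_lit 4) [nat_lit 0x1000200001,nat_lit 0x38c6319801,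
    nat_lit 0x1880000001,nat_lit 0x2004000001,nat_lit 0x18c63198e2,nat_lit 0x10001],.c (nat_lit 3) (nat_lit 2),
    .r (nat_lit 0xdb8) (nat_lit 11) [nat_lit 0x1842000e3,nat_lit 0x19c63198c3],.c (nat_lit 2) (nat_lit 0x15a529586),
    .r (nat_lit 0xdb8) (nat_lit 11) [nat_lit 0x11042000e3,nat_lit 0x29463198c3],
    .r (nat_lit 0x13e3) (nat_lit 11) [nat_lit 0x29c63298c3,nat_lit 0x11040100e3,nat_lit 0x218003,nat_lit 0x80010003],
    .r (nat_lit 0xdb8) (nat_lit 11) [nat_lit 0x308430266,nat_lit 0x2b4a55b246],.c (nat_lit 0) (nat_lit 0x8200007),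
    .c (nat_lit 1) (nat_lit 0x84020007),.r (nat_lit 0xdbe) (nat_lit 11) [nat_lit 0x1000200003,nat_lit 0x29463198c3],
    .r (nat_lit 0xdb8) (nat_lit 11) [nat_lit 0x3188430266,nat_lit 0x59ca55b246],.c (nat_lit 0) (nat_lit 0x4000007),
    .c (nat_lit 0) (nat_lit 0x4000007),.c (nat_lit 0) (nat_lit 0x8c2118ed),.c (nat_lit 0) (nat_lit 0x4000007),
    .c (nat_lit 4) (nat_lit 2),.c (nat_lit 0) (nat_lit 0x10020000d),
    .r (nat_lit 0x163a) (nat_lit 11) [nat_lit 0x18c03198e3,nat_lit 65,nat_lit 0x218003,nat_lit 0x80010003],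
    .r (nat_lit 0x13e3) (nat_lit 11) [nat_lit 0x18c03198e3,nat_lit 65,nat_lit 0x218003,nat_lit 0x80010003],
    .r (nat_lit 0xdab) (nat_lit 11) [nat_lit 0x10001,nat_lit 0x1040100e2,nat_lit 0x60180c6,nat_lit 0x1000200003],
    .r (nat_lit 0xdbe) (nat_lit 13) [nat_lit 65,nat_lit 0x1000200003],.c (nat_lit 0) (nat_lit 0x80000007),
    .c (nat_lit 0) (nat_lit 0x80000807),.c (nat_lit 0) (nat_lit 0x80000007),.c (nat_lit 0) (nat_lit 0x1842118ed),
    .c (nat_lit 0) (nat_lit 0x80000007),.c (nat_lit 6) (nat_lit 2),.c (nat_lit 0) (nat_lit 0x18807),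
    .c (nat_lit 0) (nat_lit 0x18007),.r (nat_lit 0xdab) (nat_lit 11) [nat_lit 0x10001,nat_lit 0x1000000e2,nat_lit 66,
    nat_lit 0x1000200003],.c (nat_lit 0) (nat_lit 0x18807),.c (nat_lit 7) (nat_lit 2),
    .c (nat_lit 0) (nat_lit 0x18807),.c (nat_lit 8) (nat_lit 2)],
    .l (nat_lit 16) (nat_lit 0x3480) (nat_lit 4) (nat_lit 0x16db000016db00001a4600001a460000180b000014a90000164900001649000017c7000017c700001806000018060000139b000013bd0000149200001888) (nat_lit 0x36b0000036b00000000000000000000059d0000023b000003fd000003fd0000027f0000027f000002400000024000000689000006ab000001be000005b4)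
    (nat_lit 0x130c135c16db16db119e121a12de10262024136018d9149b10521602151d13fd1370130c16db16db0f5a14a012de149a2120145c1603149b0b7215b2151d112716db16db1a461a4612ed180b1649182d17c717c712840b4213bd123318ec197216db16db1a461a4614a3180b1c531e37175d16d5180615bc13d312331b0e1b9414a0121a180b180b0a8015d01500141417d60f82173316350a801160164d12410f5a119e14a312ed0ee40a80119810ac1a7e122a13cb12cd0e20150015a30ef5149a10261e37182d10ac1414124c1274136612de0d070bb50fc00e3c142b109512de12de1c531649119815000fc0124c145213ca140914090cd40a8015870ff1145c136016d517c7122a0f8213ca12de154817d41aa514ff11e2111c160914ff21202024175d17c71a7e17d61452136615481548150115870f560d5616090f5b149b149b15bc0b4212cd163514090bb5158714ff198c15c6143511e10a80143a160318d91806128413cb173314090d0715011aa515c6198c13af115b1076107415b2160212331233150011600a800e3c0d56111c115b11e10ef00cf00d9f0bb50b72105213d313bd0e200a800cd40fc00f5611e213af143511440ef00f290e09112713fd1b9419720ef512410ff110950f5b14ff1074143a0e090bb512d40ace151d151d1b0e18ec15a3164d1587142b1609160910760a800f290d9f16de12d4)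
    (nat_lit 0x130c348034803480348034803480348034803480348034803480348034803480135c130c3480348034803480348034803480348034803480348034803480348016db16db1a46348034803480348034803480348034803480348034803480348016db16db1a461a46348034803480348034803480348034803480348034803480119e0f5a12ed14a30a8034803480348034803480348034803480348034803480121a14a0180b180b15d00a80348034803480348034803480348034803480348012de12de16491c5315001198124c3480348034803480348034803480348034801026149a182d1e37141410ac1274124c348034803480348034803480348034802024212017c7175d17d61a7e13661452154834803480348034803480348034801360145c17c716d50f82122a12de13ca17d4154834803480348034803480348018d9160312841806173313cb0d0714091aa51501198c34803480348034803480149b149b0b4215bc163512cd0bb5140914ff158715c6198c348034803480348010520b7213bd13d30a800e200fc00cd411e20f56143513af0ef0348034803480160215b212331233116015000e3c0a80111c0d5611e1115b0cf00ef034803480151d151d18ec1b0e164d15a3142b1587160916090a8010760d9f0f2912d4348013fd112719721b9412410ef510950ff114ff0f5b143a10740bb50e090ace12d4)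
    (nat_lit 4) (nat_lit 101)
    [[nat_lit 2,nat_lit 18,nat_lit 258,nat_lit 17,nat_lit 33,nat_lit 273,nat_lit 0x1011,nat_lit 0x10011,
    nat_lit 0x100011,nat_lit 0x100021,nat_lit 0x200011,nat_lit 0x10000011,nat_lit 257,nat_lit 0x10101,nat_lit 0x10111,
    nat_lit 0x100101,nat_lit 0x1001,nat_lit 0x10001,nat_lit 0x100001,nat_lit 0x200001,nat_lit 0x10000001],[nat_lit 32,
    nat_lit 48,nat_lit 0x1020,nat_lit 0x10020,nat_lit 0x100020,nat_lit 0x10000020,nat_lit 272,nat_lit 0x10110,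
    nat_lit 0x1000110,nat_lit 0x1010,nat_lit 0x11010,nat_lit 0x101010,nat_lit 0x10010,nat_lit 0x20010,
    nat_lit 0x110010,nat_lit 0x20110,nat_lit 0x10010010,nat_lit 0x100010,nat_lit 0x110020,nat_lit 0x100110,
    nat_lit 0x200010,nat_lit 0x200020,nat_lit 0x210010,nat_lit 0x1100010,nat_lit 0x10100010,nat_lit 0x1000010,
    nat_lit 0x10000010,nat_lit 0x10001010,nat_lit 0x10000110],[nat_lit 512,nat_lit 0x1100,nat_lit 0x10100,
    nat_lit 0x20100,nat_lit 0x100100,nat_lit 0x1000100,nat_lit 0x10000100],[nat_lit 0x2000,nat_lit 0x11000,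
    nat_lit 0x101000,nat_lit 0x1001000],[nat_lit 0x20000,nat_lit 0x110000,nat_lit 0x210000,nat_lit 0x10010000],
    [nat_lit 0x200000,nat_lit 0x300000,nat_lit 0x400000,nat_lit 0x10200000,nat_lit 0x1100000,nat_lit 0x10100000],
    [nat_lit 0x11000000],[nat_lit 0x20000000]]
    [.c (nat_lit 1) (nat_lit 2),.r (nat_lit 0xdb7) (nat_lit 13) [nat_lit 0x200001,nat_lit 0x3302231],
    .r (nat_lit 0xdbe) (nat_lit 8) [nat_lit 0x24031,nat_lit 0x200001],.c (nat_lit 0) (nat_lit 0x553045),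
    .c (nat_lit 0) (nat_lit 0x553343),.c (nat_lit 0) (nat_lit 0x330023),
    .r (nat_lit 0x15ed) (nat_lit 2) [nat_lit 0x2000001,nat_lit 0x200001,nat_lit 0x22001,nat_lit 0x300021],
    .r (nat_lit 0xdb7) (nat_lit 13) [nat_lit 0x200001,nat_lit 0x300231],.c (nat_lit 0) (nat_lit 0x553345),
    .c (nat_lit 0) (nat_lit 0x553343),.c (nat_lit 0) (nat_lit 0x553343),
    .r (nat_lit 0x1497) (nat_lit 13) [nat_lit 0x2001,nat_lit 0x20001,nat_lit 0x2000001,nat_lit 0x4420541,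
    nat_lit 0x5535401],.c (nat_lit 0) (nat_lit 0x2205),.r (nat_lit 0xdbe) (nat_lit 8) [nat_lit 0x2022031,
    nat_lit 0x200001],.r (nat_lit 0x13b7) (nat_lit 10) [nat_lit 0x3300231,nat_lit 0x3002001,nat_lit 0x2000001,
    nat_lit 0x200001],.c (nat_lit 0) (nat_lit 0x330023),.r (nat_lit 0xdbb) (nat_lit 3) [nat_lit 0x2003021,
    nat_lit 0x2001],.c (nat_lit 1) (nat_lit 0x300202),.c (nat_lit 0) (nat_lit 0x553045),
    .c (nat_lit 0) (nat_lit 0x553343),.r (nat_lit 0xdba) (nat_lit 3) [nat_lit 0x202031,nat_lit 0x2003021],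
    .c (nat_lit 2) (nat_lit 2),.r (nat_lit 0x9e5) (nat_lit 2) [nat_lit 0xc000001,nat_lit 0xc00001,nat_lit 0xd00c001,
    nat_lit 65,nat_lit 0x6060001],.r (nat_lit 0x13ff) (nat_lit 5) [nat_lit 0x2003001,nat_lit 0x300021,nat_lit 0x22001,
    nat_lit 0x200001,nat_lit 0x2001],.c (nat_lit 0) (nat_lit 0x353543),.c (nat_lit 0) (nat_lit 0x553543),
    .r (nat_lit 0x1494) (nat_lit 2) [nat_lit 0x2000001,nat_lit 0x200001,nat_lit 0x20001,nat_lit 33,nat_lit 0x2001],
    .c (nat_lit 0) (nat_lit 0x330323),.c (nat_lit 0) (nat_lit 0x30323),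
    .r (nat_lit 0xdb7) (nat_lit 3) [nat_lit 0x200001,nat_lit 33],.r (nat_lit 0x1400) (nat_lit 9) [nat_lit 0x3002001,
    nat_lit 0x200031,nat_lit 0x2000001,nat_lit 33],.r (nat_lit 0x15ed) (nat_lit 2) [nat_lit 0x2000001,
    nat_lit 0x200001,nat_lit 0x22001,nat_lit 0x3302021],.r (nat_lit 0xdbb) (nat_lit 7) [nat_lit 0x2222321,
    nat_lit 0x2001],.c (nat_lit 0) (nat_lit 0x53545),.r (nat_lit 0xdb7) (nat_lit 13) [nat_lit 0x200001,
    nat_lit 0x2303231],.c (nat_lit 0) (nat_lit 0x353543),.r (nat_lit 0x13b7) (nat_lit 10) [nat_lit 0x303231,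
    nat_lit 0x3002001,nat_lit 0x2000001,nat_lit 0x200001],.r (nat_lit 0x1497) (nat_lit 13) [nat_lit 0x2001,
    nat_lit 0x20001,nat_lit 0x2000001,nat_lit 0x424541,nat_lit 0x5535401],.c (nat_lit 0) (nat_lit 0x553345),
    .c (nat_lit 0) (nat_lit 0x353543),.c (nat_lit 3) (nat_lit 0x222232),.c (nat_lit 0) (nat_lit 0x553543),
    .c (nat_lit 3) (nat_lit 0x444452),.c (nat_lit 0) (nat_lit 0x353543),
    .r (nat_lit 0xdbe) (nat_lit 8) [nat_lit 0x2222321,nat_lit 0x200001],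
    .r (nat_lit 0xdb4) (nat_lit 8) [nat_lit 0x2001,nat_lit 0x3231],.r (nat_lit 0x1491) (nat_lit 8) [nat_lit 0x200001,
    nat_lit 0x202321,nat_lit 0x300231],.r (nat_lit 0xed2) (nat_lit 2) [nat_lit 0x2000001,nat_lit 0x200001,
    nat_lit 0x20001,nat_lit 33,nat_lit 0x2001],.c (nat_lit 0) (nat_lit 0x30002),
    .r (nat_lit 0x152a) (nat_lit 12) [nat_lit 0x200001,nat_lit 0x2000001,nat_lit 0x2022321,nat_lit 0x3533221],
    .c (nat_lit 3) (nat_lit 2),.r (nat_lit 0xdbb) (nat_lit 7) [nat_lit 33,nat_lit 0x2001],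
    .c (nat_lit 0) (nat_lit 0x202003),.r (nat_lit 0xdbe) (nat_lit 8) [nat_lit 0x4020031,nat_lit 0x200001],
    .c (nat_lit 0) (nat_lit 0x330323),.r (nat_lit 0xdbe) (nat_lit 8) [nat_lit 33,nat_lit 0x200001],
    .r (nat_lit 0xdb4) (nat_lit 8) [nat_lit 0x2001,nat_lit 0x2220031],.c (nat_lit 4) (nat_lit 2),
    .r (nat_lit 0xdbb) (nat_lit 3) [nat_lit 33,nat_lit 0x2001],.r (nat_lit 0x163a) (nat_lit 3) [nat_lit 0x2003001,
    nat_lit 0x2001,nat_lit 0x2200321,nat_lit 0x3300201],.r (nat_lit 0xdba) (nat_lit 3) [nat_lit 33,nat_lit 0x2200031],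
    .c (nat_lit 5) (nat_lit 2),.c (nat_lit 0) (nat_lit 0x53545),.c (nat_lit 0) (nat_lit 0x353543),
    .r (nat_lit 0xdba) (nat_lit 3) [nat_lit 0x2200031,nat_lit 33],.c (nat_lit 6) (nat_lit 2),
    .r (nat_lit 0x151b) (nat_lit 10) [nat_lit 33,nat_lit 0x2000001,nat_lit 0x200001],
    .r (nat_lit 0xb05) (nat_lit 15) [nat_lit 0x22001,nat_lit 0x400001,nat_lit 0x4005001,nat_lit 34,nat_lit 0x4001],
    .r (nat_lit 0x132b) (nat_lit 10) [nat_lit 0x3002001,nat_lit 0x300021,nat_lit 0x2000001,nat_lit 0x200001,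
    nat_lit 0x2020001],.r (nat_lit 0x13b7) (nat_lit 10) [nat_lit 0x3000021,nat_lit 0x3002001,nat_lit 0x2000001,
    nat_lit 0x200001],.r (nat_lit 0x14a4) (nat_lit 4) [nat_lit 0x2003001,nat_lit 0x2001,nat_lit 0x2200321,
    nat_lit 0x3300201],.r (nat_lit 0xdbb) (nat_lit 3) [nat_lit 0x2200031,nat_lit 0x2001],.c (nat_lit 8) (nat_lit 2)]]

/-- nodes -/
noncomputable def rD8k_36_7 : List RJ :=
  [.l (nat_lit 13) (nat_lit 0x780) (nat_lit 3) (nat_lit 0x3240000032400000326000003260000032e0000032e0000038e000003bc00000389000003890000033d0000033d0000030c0000034a0000032000000320) (nat_lit 0x980000009800000096000000960000008e0000008e000000000000002e00000033000000330000007f0000007f00000072000000b00000009c0000009c)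
    (nat_lit 0x1460a3053c28a15d0a2841c30e1788bc45662691510ae85102941460a3051c28e1490a5843c2e61788bc454a2591590a485182a41470a285202901540a6064c2fc19f8fe45122a714c09d851428a1470a785202901520a6064c2f81c3910453a2a715a09b052c28614b0a285302981500a803c02f417d8bec57221b1600a205042921490ae85482a81560a8065c30012d8b2458a2af16008804f426a1730c385f02fc1800bd07803541ad8d6c6da3af1a20b2059c2ee10f083864c32619707808583c01c48e247a24130f00c306403201788bc48823f91648bec71235b1400b9861430a18b89148064571788bc470e33f12d8bec71235b1a90a0061430a18b8b6465237d12c89a454e2a7157886c8263af1850c2857c2c211d8a345422a11528acc53a2891628ae47a236d1850c2857c2be1748a344b62631490ae84d82761100a206182c816c891451a28d16c09704c42521590a885682981600b003c034418b8c5c5d223b16c0b605442ae1520a5050c28a1350a486402ee1be915c4c62a115709485282841460a2052c28a13d0a086402ce194900c4b62a11510988508294)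
    (nat_lit 0x1461e00f007803c01e00f007803c01e00f007803c01e00f007801460a30f007803c01e00f007803c01e00f007803c01e00f0078014f0a385207803c01e00f007803c01e00f007803c01e00f007801450a385202903c01e00f007803c01e00f007803c01e00f0078015d0a485502a41501e00f007803c01e00f007803c01e00f007801450a585302981500a80f007803c01e00f007803c01e00f00780107087864c3260f00cb87807803c01e00f007803c01e00f007801870b985f82f817a0c006a83c03c01e00f007803c01e00f007801788bc467e38717d896c6b63891401e00f007803c01e00f007801788bc47f244117d8b246b63891730a00f007803c01e00f007801598a9451229d15c8b146da3d11850c2857c7803c01e00f00780134896454e2a710d8abc75e4131850c285842be3c01e00f007801510ac85302b41600b006881e018b8c5c4762e916c1e00f0078015d0a484ec26c144088059030c1228b6451a28d12e0b60f007801440a3051429614109e859c3202018ca454225b1310a8852878014a0a9051428614909a85dc32022b8df45422631290ab8508294)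
    (nat_lit 2) (nat_lit 57)
    [[nat_lit 2,nat_lit 17,nat_lit 273,nat_lit 0x10011,nat_lit 0x100011,nat_lit 257,nat_lit 0x100101,
    nat_lit 0x10000101,nat_lit 0x10001,nat_lit 0x110001,nat_lit 0x100001,nat_lit 0x1000001,nat_lit 0x10000001],
    [nat_lit 32,nat_lit 272,nat_lit 0x100110,nat_lit 0x1000110,nat_lit 0x1010,nat_lit 0x10010,nat_lit 0x110010,
    nat_lit 0x1010010,nat_lit 0x100010,nat_lit 0x101010,nat_lit 0x1000010,nat_lit 0x1100010,nat_lit 0x10000010,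
    nat_lit 0x10100010],[nat_lit 512,nat_lit 0x1100,nat_lit 0x100100,nat_lit 0x1000100,nat_lit 0x1100100,
    nat_lit 0x10000100,nat_lit 0x10100100],[nat_lit 0x2000,nat_lit 0x11000,nat_lit 0x101000,nat_lit 0x10001000],
    [nat_lit 0x110000,nat_lit 0x1010000,nat_lit 0x10010000],[nat_lit 0x200000,nat_lit 0x1100000,nat_lit 0x10100000],
    [nat_lit 0x2000000,nat_lit 0x11000000],[nat_lit 0x20000000]]
    [.c (nat_lit 1) (nat_lit 2),.c (nat_lit 0) (nat_lit 971),.r (nat_lit 0x138a) (nat_lit 3) [nat_lit 513,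
    nat_lit 0x88d,nat_lit 0xf2d,nat_lit 201],.r (nat_lit 0xdc2) (nat_lit 11) [nat_lit 0x881,nat_lit 0xc2d],
    .c (nat_lit 0) (nat_lit 971),.r (nat_lit 0x1608) (nat_lit 1) [nat_lit 653,nat_lit 0x881,nat_lit 201],
    .r (nat_lit 0xdc2) (nat_lit 3) [nat_lit 0x801,nat_lit 9],.r (nat_lit 0xdb5) (nat_lit 11) [nat_lit 0x881,
    nat_lit 0xc2d],.r (nat_lit 0x1608) (nat_lit 14) [nat_lit 525,nat_lit 0x801,nat_lit 9],
    .r (nat_lit 0x138a) (nat_lit 7) [nat_lit 513,nat_lit 0x88d,nat_lit 0xf2d,nat_lit 9],.c (nat_lit 0) (nat_lit 971),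
    .c (nat_lit 1) (nat_lit 34),.c (nat_lit 0) (nat_lit 971),.c (nat_lit 2) (nat_lit 2),
    .r (nat_lit 0xdb8) (nat_lit 11) [nat_lit 0x881,nat_lit 9],.r (nat_lit 0xdb5) (nat_lit 3) [nat_lit 0x801,
    nat_lit 0xc2d],.r (nat_lit 0x138a) (nat_lit 3) [nat_lit 513,nat_lit 0x80d,nat_lit 0xfed,nat_lit 9],
    .r (nat_lit 0x150f) (nat_lit 7) [nat_lit 513,nat_lit 0xab9,nat_lit 0xfe1],
    .r (nat_lit 0xdba) (nat_lit 11) [nat_lit 0x881,nat_lit 9],.r (nat_lit 0xdb5) (nat_lit 11) [nat_lit 0x881,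
    nat_lit 9],.r (nat_lit 0xdc2) (nat_lit 11) [nat_lit 0x881,nat_lit 0xced],.c (nat_lit 0) (nat_lit 971),
    .r (nat_lit 0xdb4) (nat_lit 14) [nat_lit 513,nat_lit 813],.c (nat_lit 0) (nat_lit 0x3fb),
    .c (nat_lit 0) (nat_lit 0x3fb),.c (nat_lit 0) (nat_lit 0x3fb),.c (nat_lit 0) (nat_lit 971),
    .c (nat_lit 3) (nat_lit 2),.r (nat_lit 0x1608) (nat_lit 14) [nat_lit 0xcc9,nat_lit 0x801,nat_lit 0xa8d],
    .r (nat_lit 0xdba) (nat_lit 14) [nat_lit 9,nat_lit 0x801],.r (nat_lit 0x1608) (nat_lit 1) [nat_lit 525,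
    nat_lit 0x881,nat_lit 9],.r (nat_lit 0xdc2) (nat_lit 3) [nat_lit 0x801,nat_lit 137],
    .r (nat_lit 0xdba) (nat_lit 13) [nat_lit 9,nat_lit 0x881],.r (nat_lit 0xdc2) (nat_lit 11) [nat_lit 0x881,
    nat_lit 9],.c (nat_lit 4) (nat_lit 2),.r (nat_lit 0x1608) (nat_lit 1) [nat_lit 0xc09,nat_lit 0x881,nat_lit 0xa0d],
    .r (nat_lit 0x150f) (nat_lit 3) [nat_lit 513,nat_lit 0xa39,nat_lit 0xf21],
    .r (nat_lit 0x1636) (nat_lit 11) [nat_lit 0x88d,nat_lit 513,nat_lit 9],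
    .r (nat_lit 0xdb8) (nat_lit 3) [nat_lit 0x801,nat_lit 9],.r (nat_lit 0x1608) (nat_lit 14) [nat_lit 717,
    nat_lit 0x801,nat_lit 137],.r (nat_lit 0xdba) (nat_lit 3) [nat_lit 0x801,nat_lit 9],.c (nat_lit 6) (nat_lit 2),
    .c (nat_lit 0) (nat_lit 0x3fb),.c (nat_lit 0) (nat_lit 0x3fb),.c (nat_lit 7) (nat_lit 2),
    .c (nat_lit 0) (nat_lit 0x3fb),.c (nat_lit 8) (nat_lit 2)],
    .l (nat_lit 12) (nat_lit 960) (nat_lit 4) (nat_lit 0x194000001940000017c0000017c0000018b0000018b00000197000001970000018b0000017b000001c4000001c6000001ab000001ab0000019100000191) (nat_lit 0x32000000320000004a0000004a0000003b0000003b0000002f0000002f0000004b0000003b00000000000000020000001b0000001b0000003500000035)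
    (nat_lit 0x16416214a1441591591611651691590c019e1cd23515f15316216414414a15912f15314f14915719419c18b1f316519114a14415c13215714714f14d12715310217a12f16114513514414a14615c14d14116512913115d17816214916114714712f15914114717413c14015015813818b18917017415616e15915914d15713817415c15c15c12817717d1a80dc15616214f16512914d15c15019018015815c22b17917019016212a15316116514f15c14015019014815c2471951800c016216215715915d15312813815c15c14016824718d1700c015a15214916913112715c15814815816014023317910c13813a14619c19e16217a17d18919517917918d1ec1921a90f116f1e31940c017810217718b24722b23324722e1ec0e31ab0d51911f32351611610dc1740c01901380c01ab0f119012824a23e18b1cd14912f1a817018017010c1700e31a917019018217619115314713516216e16212a1461521911e317623e10817c16515f14714515615616216213a15a0d516f18224a15c108)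
    (nat_lit 0x1643c03c03c03c03c03c03c03c03c03c03c03c03c03c03c01621643c03c03c03c03c03c03c03c03c03c03c03c03c03c014a14415c3c03c03c03c03c03c03c03c03c03c03c03c03c014414a13215c3c03c03c03c03c03c03c03c03c03c03c03c015915915714d1743c03c03c03c03c03c03c03c03c03c03c015912f14714113c1743c03c03c03c03c03c03c03c03c03c016115314f16514015c1903c03c03c03c03c03c03c03c03c016514f14d12915015c1801903c03c03c03c03c03c03c03c016914912713115815c1581481403c03c03c03c03c03c03c015915715315d13812815c15c1681403c03c03c03c03c03c00c019410217818b17720f2132172091ec3c03c03c03c03c019e19c17a16218917d17919518d1791921ec3c03c03c03c01cd18b12f1491701a817018017010c1a90e31903c03c03c01b11f31611611740dc1900c00c01380f11ab1281903c03c015f16514514715615616216215a13a16f0d51c61821083c015319113514716e16212a1621521461e31911ea17617c108)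
    (nat_lit 3) (nat_lit 83)
    [[nat_lit 2,nat_lit 3,nat_lit 0x1002,nat_lit 0x10002,nat_lit 0x1000002,nat_lit 0x1011,nat_lit 0x10011,nat_lit 257,
    nat_lit 0x1000101,nat_lit 273,nat_lit 0x1101,nat_lit 0x10101,nat_lit 0x1001,nat_lit 0x10001,nat_lit 0x100001,
    nat_lit 0x100011,nat_lit 0x1000001,nat_lit 0x10000001],[nat_lit 32,nat_lit 288,nat_lit 0x1020,nat_lit 272,
    nat_lit 544,nat_lit 0x1120,nat_lit 0x1110,nat_lit 0x10110,nat_lit 0x100110,nat_lit 0x1000110,nat_lit 0x1010,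
    nat_lit 0x2010,nat_lit 0x11010,nat_lit 0x101010,nat_lit 0x2020,nat_lit 0x10010,nat_lit 0x110010,nat_lit 0x100010,
    nat_lit 0x1000010,nat_lit 0x1000020,nat_lit 0x1001010,nat_lit 0x1010010,nat_lit 0x1100010,nat_lit 0x10000110,
    nat_lit 0x10001010,nat_lit 0x10010010],[nat_lit 0x100100,nat_lit 0x1000100,nat_lit 0x10000100,nat_lit 0x10001100,
    nat_lit 0x10010100,nat_lit 0x10100100,nat_lit 0x11000100],[nat_lit 0x2000,nat_lit 0x11000,nat_lit 0x101000,
    nat_lit 0x1001000,nat_lit 0x1011000,nat_lit 0x1101000,nat_lit 0x10001000],[nat_lit 0x20000,nat_lit 0x110000,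
    nat_lit 0x1010000,nat_lit 0x10010000],[nat_lit 0x200000,nat_lit 0x1100000,nat_lit 0x10100000],[nat_lit 0x2000000,
    nat_lit 0x11000000],[nat_lit 0x20000000]]
    [.c (nat_lit 1) (nat_lit 2),.r (nat_lit 0xdb8) (nat_lit 11) [nat_lit 0x611,nat_lit 0x22c2a],
    .c (nat_lit 3) (nat_lit 0x4083),.r (nat_lit 0xdb9) (nat_lit 11) [nat_lit 0x611,nat_lit 0x2402],
    .r (nat_lit 0xdbc) (nat_lit 11) [nat_lit 0x2402,nat_lit 0x611],.c (nat_lit 0) (nat_lit 0x684),
    .c (nat_lit 0) (nat_lit 0x6c4),.c (nat_lit 0) (nat_lit 0x2083),.r (nat_lit 0x1542) (nat_lit 11) [nat_lit 0x10419,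
    nat_lit 0x2a622,nat_lit 0x10001],.c (nat_lit 1) (nat_lit 0x4585),.c (nat_lit 0) (nat_lit 0x3002),
    .r (nat_lit 0xdb8) (nat_lit 5) [nat_lit 0x2a622,nat_lit 0x10001],.r (nat_lit 0xdb8) (nat_lit 11) [nat_lit 17,
    nat_lit 0x2242a],.r (nat_lit 0x161e) (nat_lit 15) [nat_lit 0x242a,nat_lit 17],
    .r (nat_lit 0xdbc) (nat_lit 14) [nat_lit 0x10001,nat_lit 17],.c (nat_lit 0) (nat_lit 0x6c4),
    .r (nat_lit 0xdbb) (nat_lit 7) [nat_lit 0x10001,nat_lit 17],.r (nat_lit 0xdb9) (nat_lit 13) [nat_lit 0x10001,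
    nat_lit 17],.c (nat_lit 2) (nat_lit 2),.c (nat_lit 1) (nat_lit 0x2503),.c (nat_lit 0) (nat_lit 0x602),
    .r (nat_lit 0xdb8) (nat_lit 11) [nat_lit 0x2242a,nat_lit 17],.c (nat_lit 1) (nat_lit 0x4583),
    .c (nat_lit 0) (nat_lit 0x3002),.c (nat_lit 0) (nat_lit 0x3002),.r (nat_lit 0x1552) (nat_lit 14) [nat_lit 0x2402,
    nat_lit 0x2b702,nat_lit 0x22562],.r (nat_lit 0x1545) (nat_lit 12) [nat_lit 0x10001,nat_lit 0x18011,
    nat_lit 0x2242a],.r (nat_lit 0x1545) (nat_lit 5) [nat_lit 0x2402,nat_lit 0x3622,nat_lit 0x2242a],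
    .c (nat_lit 0) (nat_lit 0x602),.c (nat_lit 0) (nat_lit 0xa02),.c (nat_lit 0) (nat_lit 0x684),
    .c (nat_lit 0) (nat_lit 0x602),.c (nat_lit 0) (nat_lit 0xa02),.r (nat_lit 0xdb8) (nat_lit 5) [nat_lit 17,
    nat_lit 0x10001],.r (nat_lit 0xdb2) (nat_lit 7) [nat_lit 0x10001,nat_lit 0x18099],
    .r (nat_lit 0x161e) (nat_lit 11) [nat_lit 0x242a,nat_lit 17],.r (nat_lit 0x1542) (nat_lit 11) [nat_lit 0x242a,
    nat_lit 17,nat_lit 0x10001],.c (nat_lit 0) (nat_lit 0x2602),.c (nat_lit 0) (nat_lit 0x602),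
    .r (nat_lit 0xdb3) (nat_lit 14) [nat_lit 0x10001,nat_lit 0x18099],
    .r (nat_lit 0x130b) (nat_lit 11) [nat_lit 0x242a,nat_lit 17,nat_lit 0x13021,nat_lit 0x2029],
    .r (nat_lit 0x1552) (nat_lit 15) [nat_lit 0x10001,nat_lit 0x2b702,nat_lit 0x22562],.c (nat_lit 0) (nat_lit 0x602),
    .r (nat_lit 0xdb3) (nat_lit 7) [nat_lit 0x10001,nat_lit 0x18099],.r (nat_lit 0x1542) (nat_lit 7) [nat_lit 0x10019,
    nat_lit 17,nat_lit 0x2402],.r (nat_lit 0x161e) (nat_lit 7) [nat_lit 0x10019,nat_lit 17],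
    .r (nat_lit 0xdb8) (nat_lit 13) [nat_lit 17,nat_lit 0x2402],.c (nat_lit 0) (nat_lit 0x3002),
    .r (nat_lit 0xdb3) (nat_lit 11) [nat_lit 0x2402,nat_lit 0x372a],.r (nat_lit 0xdb3) (nat_lit 15) [nat_lit 0x2402,
    nat_lit 0x372a],.r (nat_lit 0xdb2) (nat_lit 11) [nat_lit 0x2402,nat_lit 0x372a],.c (nat_lit 4) (nat_lit 2),
    .r (nat_lit 0xdb9) (nat_lit 11) [nat_lit 17,nat_lit 0x2402],.r (nat_lit 0xdbb) (nat_lit 11) [nat_lit 0x2402,
    nat_lit 17],.r (nat_lit 0xdbc) (nat_lit 11) [nat_lit 0x2402,nat_lit 17],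
    .r (nat_lit 0xdb3) (nat_lit 15) [nat_lit 0x2402,nat_lit 17],.r (nat_lit 0xdb3) (nat_lit 11) [nat_lit 0x2402,
    nat_lit 17],.r (nat_lit 0x161e) (nat_lit 14) [nat_lit 0x10019,nat_lit 17],.c (nat_lit 5) (nat_lit 2),
    .c (nat_lit 0) (nat_lit 0x56e5),.c (nat_lit 0) (nat_lit 0x56e5),.c (nat_lit 0) (nat_lit 0x56e5),
    .c (nat_lit 6) (nat_lit 2),.c (nat_lit 0) (nat_lit 0x56e5),.c (nat_lit 0) (nat_lit 0x56e5),
    .c (nat_lit 7) (nat_lit 2),.c (nat_lit 0) (nat_lit 0x56e5),.c (nat_lit 8) (nat_lit 2)],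
    .l (nat_lit 10) (nat_lit 240) (nat_lit 3) (nat_lit 0x6200000062000000640000006400000062000000620000006a0000006a0000007400000074000000670000006700000065000000650000006400000064) (nat_lit 0x1200000012000000100000001000000012000000120000000a0000000a00000000000000000000000d0000000d0000000f0000000f0000001000000010)
    (nat_lit 0x140501504c140501205c1886213c4314c4d148521405015052148501605e1886211c5514c4f160521484c1505413050168581906416c571546315054150541505415052168581705a13457154551504814050148501485018856188621545d17c5d14052148501504c1405216058178621543914c5b138521785c1605816056180602186a1546116c5b1685a160481685a16062180602186a1845d1145b1685a1886216864188621a86a1d07419c4b194611d07a188621706417862218861d07419c67194591d87c1544315c570e45d1746119c4b1985a1005815c5711c4f1345b154551845519c6716866168581745513c4d1546316c5d16c5b16461160581605616c5314c531545514c5f1145b194651684015858154551485212054148521685a1f07a1545715453150541605215054138501685a1d874174571545b15054)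
    (nat_lit 0x140f03c0f03c0f03c0f03c0f03c0f03c0f03c0f0140503c0f03c0f03c0f03c0f03c0f03c0f03c0f015054150f03c0f03c0f03c0f03c0f03c0f03c0f013052150543c0f03c0f03c0f03c0f03c0f03c0f01405213054148f03c0f03c0f03c0f03c0f03c0f01405014052140523c0f03c0f03c0f03c0f03c0f0120581685a18858180f03c0f03c0f03c0f03c0f01705e1605815858180603c0f03c0f03c0f03c0f0188621905c1885e218861d0f03c0f03c0f03c0f0188621905a188621a86a1d0743c0f03c0f03c0f013c4716c4d154551546119c67198f03c0f03c0f010c5515c57174391845d12c67168663c0f03c0f014c531545517c5316c45194651005a160f03c0f01344f18c551745b16c5b1845916058158583c0f014858150541404e1685a1d07615c5d16c55150f01485215048148521685a1e87c15c5514c5515054)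
    (nat_lit 3) (nat_lit 53)
    [[nat_lit 2,nat_lit 17,nat_lit 257,nat_lit 0x100101,nat_lit 0x10001,nat_lit 0x100001,nat_lit 0x1100001,
    nat_lit 0x1000001,nat_lit 0x10000001,nat_lit 0x11000001],[nat_lit 32,nat_lit 272,nat_lit 0x10000110,
    nat_lit 0x1010,nat_lit 0x10010,nat_lit 0x100010,nat_lit 0x1000010,nat_lit 0x10000010],[nat_lit 512,nat_lit 0x1100,
    nat_lit 0x10100,nat_lit 0x100100,nat_lit 0x200100,nat_lit 0x10100100,nat_lit 0x1000100,nat_lit 0x1100100,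
    nat_lit 0x11000100,nat_lit 0x10000100,nat_lit 0x20000100],[nat_lit 0x2000,nat_lit 0x101000,nat_lit 0x1001000,
    nat_lit 0x10001000],[nat_lit 0x20000,nat_lit 0x110000,nat_lit 0x1010000,nat_lit 0x10010000],[nat_lit 0x200000,
    nat_lit 0x1100000,nat_lit 0x10100000],[nat_lit 0x2000000,nat_lit 0x11000000],[nat_lit 0x20000000]]
    [.c (nat_lit 1) (nat_lit 2),.r (nat_lit 0xdb3) (nat_lit 11) [nat_lit 17,nat_lit 0x12419],
    .c (nat_lit 0) (nat_lit 0x3613),.r (nat_lit 0xdb3) (nat_lit 1) [nat_lit 0x2001,nat_lit 0x3099],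
    .c (nat_lit 1) (nat_lit 130),.r (nat_lit 0xdb3) (nat_lit 2) [nat_lit 0x611,nat_lit 0x1b081],
    .r (nat_lit 0x1537) (nat_lit 7) [nat_lit 0x10419,nat_lit 0x2001,nat_lit 0x1b081],
    .r (nat_lit 0xdbb) (nat_lit 3) [nat_lit 0x2001,nat_lit 17],.c (nat_lit 0) (nat_lit 0x3613),
    .r (nat_lit 0xdb2) (nat_lit 3) [nat_lit 0x2001,nat_lit 17],.c (nat_lit 2) (nat_lit 2),
    .r (nat_lit 0xdb8) (nat_lit 11) [nat_lit 0x2401,nat_lit 17],.r (nat_lit 0x1537) (nat_lit 7) [nat_lit 0x124d1,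
    nat_lit 0x2001,nat_lit 0x1b081],.r (nat_lit 0x1537) (nat_lit 7) [nat_lit 0x3011,nat_lit 0x2001,nat_lit 0x1b081],
    .r (nat_lit 0xdb3) (nat_lit 11) [nat_lit 0x411,nat_lit 0x12019],.c (nat_lit 0) (nat_lit 0x2003),
    .c (nat_lit 0) (nat_lit 0x2003),.r (nat_lit 0xdbb) (nat_lit 1) [nat_lit 0x2001,nat_lit 17],
    .c (nat_lit 3) (nat_lit 2),.r (nat_lit 0x14e7) (nat_lit 1) [nat_lit 0x601,nat_lit 0x3611,nat_lit 0x2401],
    .c (nat_lit 0) (nat_lit 0x36d3),.r (nat_lit 0xdb8) (nat_lit 14) [nat_lit 17,nat_lit 0x2001],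
    .r (nat_lit 0x153b) (nat_lit 2) [nat_lit 0x601,nat_lit 0x2401,nat_lit 0x120d1,nat_lit 0x1b081],
    .r (nat_lit 0xdb3) (nat_lit 3) [nat_lit 0x2001,nat_lit 0x3099],.r (nat_lit 0x153d) (nat_lit 0) [nat_lit 0x601,
    nat_lit 0x2401,nat_lit 0x120d1,nat_lit 0x1b081],.r (nat_lit 0xdb2) (nat_lit 1) [nat_lit 0x2001,nat_lit 0x3099],
    .r (nat_lit 0xdb5) (nat_lit 11) [nat_lit 0x2401,nat_lit 0x3699],.c (nat_lit 0) (nat_lit 0x3613),
    .r (nat_lit 0x161e) (nat_lit 1) [nat_lit 0x1b699,nat_lit 0x144d1],.c (nat_lit 4) (nat_lit 2),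
    .r (nat_lit 0xdb3) (nat_lit 3) [nat_lit 0x2001,nat_lit 0x12419],.r (nat_lit 0xdb5) (nat_lit 11) [nat_lit 0x2401,
    nat_lit 0x12019],.r (nat_lit 0x161e) (nat_lit 1) [nat_lit 0x2019,nat_lit 17],.c (nat_lit 5) (nat_lit 2),
    .r (nat_lit 0xdb3) (nat_lit 2) [nat_lit 17,nat_lit 0x1b081],.r (nat_lit 0xdbb) (nat_lit 3) [nat_lit 0x2001,
    nat_lit 0x411],.c (nat_lit 0) (nat_lit 0x36d3),.c (nat_lit 6) (nat_lit 2),.c (nat_lit 0) (nat_lit 0x2003),
    .r (nat_lit 0x1211) (nat_lit 11) [nat_lit 0x401,nat_lit 0x2001,nat_lit 17,nat_lit 0x10019],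
    .c (nat_lit 7) (nat_lit 2),.r (nat_lit 0xdb9) (nat_lit 3) [nat_lit 17,nat_lit 0x2001],.c (nat_lit 8) (nat_lit 2)]]

/-- nodes -/
noncomputable def rD8k_36_8 : List RJ :=
  [.l (nat_lit 11) (nat_lit 480) (nat_lit 3) (nat_lit 0xf7000000f7000000f6000000da000000ec000000f00000013800000138000000d600000107000000ed000000f6000000f4000000da000000d8000000ee) (nat_lit 0x41000000410000005e00000042000000480000004c00000000000000000000003100000062000000420000004b0000005e000000440000004a00000060)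
    (nat_lit 0x1402d8458a712a2547b8ed196254738f11322f45689716c2804c8b51562ac7b8eb19a224778f910629c5d8a516a29c4c0b41742a8810fa0f0250600a41141e0610ac13222c3e09813c238730de120230520880f022053090156254470aa1402806c0e01841f85c0ba0f0270580901562544f0ba150280780f0184238430ba0f01e0580901d63b46f0fa1e03809c1381e4358950ea1b4470840f21ee3dc731021e03606a13820e3587b0b6188418770d81122544609411c1f86b0d61b83604108b0f02484608c19a32c48078184308838f21ac3705e0bc1583203c09e1f23c4440a41742e85b0ea17822c530a21302c84f08a1de39c520c010c2e07b12a1782085a0a61302c85107814e2f4440780f02708311c190248590b21682c03c0941062643c08a0f01e0620da1581e04c0980f82d04807a14a25c480ac1202406c0f213c2303c08a0f4250470781762b4530c21602c0771080f02305109e1201e05208e)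
    (nat_lit 0x140780f01e03c0780f01e03c0780f01e03c0780f01e016c280f01e03c0780f01e03c0780f01e03c0780f01e01162644c1e03c0780f01e03c0780f01e03c0780f01e014e2d45a0983c0780f01e03c0780f01e03c0780f01e012a2ac5d09e140780f01e03c0780f01e03c0780f01e012a2ac5508e140280f01e03c0780f01e03c0780f01e01ee3dc810e61b03c09c1e03c0780f01e03c0780f01e01da3ac7d0de1c03c09c1383c0780f01e03c0780f01e01963343c090184308791071b8780f01e03c0780f01e012a2244a08c0fc2386b0d61b0370f01e03c0780f01e01ce3bc600a4170218950f61042f0531e03c0780f01e01e23e4520881742e8750b61162f0510a63c0780f01e013220c450780f01e06d0c40f02b04c098168780f01e017a29c3c0881381e08e106124320590b21602d0f01e015a2ec610a61602c0840ee1181e04f0a20f0240471e012e29456090120240790d8118278450781281e83c08e)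
    (nat_lit 3) (nat_lit 83)
    [[nat_lit 2,nat_lit 3,nat_lit 18,nat_lit 258,nat_lit 0x1002,nat_lit 0x100002,nat_lit 17,nat_lit 33,nat_lit 273,
    nat_lit 0x1011,nat_lit 0x100011,nat_lit 0x1000011,nat_lit 0x10000011,nat_lit 257,nat_lit 513,nat_lit 0x1101,
    nat_lit 0x100101,nat_lit 0x1000101,nat_lit 0x1001,nat_lit 0x101001,nat_lit 0x1001001,nat_lit 0x10001001,
    nat_lit 0x100001,nat_lit 0x1000001,nat_lit 0x10000001],[nat_lit 32,nat_lit 0x100020,nat_lit 0x1000020,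
    nat_lit 0x1020,nat_lit 272,nat_lit 0x100110,nat_lit 0x1000110,nat_lit 0x1010,nat_lit 0x101010,nat_lit 0x1001010,
    nat_lit 0x100010,nat_lit 0x200010,nat_lit 0x1100010,nat_lit 0x10100010,nat_lit 0x1000010,nat_lit 0x2000010,
    nat_lit 0x11000010,nat_lit 0x10000010,nat_lit 0x10000020],[nat_lit 512,nat_lit 0x1100,nat_lit 0x1001100,
    nat_lit 0x100100,nat_lit 0x101100,nat_lit 0x1100100,nat_lit 0x1000100],[nat_lit 0x2000,nat_lit 0x11000,
    nat_lit 0x101000,nat_lit 0x1001000,nat_lit 0x1101000,nat_lit 0x2001000,nat_lit 0x11001000,nat_lit 0x10001000],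
    [nat_lit 0x110000],[nat_lit 0x200000,nat_lit 0x1100000,nat_lit 0x10100000,nat_lit 0x11100000],[nat_lit 0x2000000,
    nat_lit 0x3000000,nat_lit 0x12000000,nat_lit 0x11000000],[nat_lit 0x20000000]]
    [.c (nat_lit 1) (nat_lit 2),.r (nat_lit 0x1182) (nat_lit 15) [nat_lit 0x6e11,nat_lit 17,nat_lit 0xe11,
    nat_lit 0x30c19],.r (nat_lit 0x1182) (nat_lit 15) [nat_lit 0x4a11,nat_lit 0x3411,nat_lit 0x3a11,nat_lit 0x32819],
    .r (nat_lit 0xdb4) (nat_lit 6) [nat_lit 0x10001,nat_lit 0x2611],.r (nat_lit 0xdc2) (nat_lit 5) [nat_lit 0x12001,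
    nat_lit 0x611],.r (nat_lit 0xdb7) (nat_lit 6) [nat_lit 0x10401,nat_lit 0x1b499],.c (nat_lit 1) (nat_lit 0x682),
    .r (nat_lit 0x1182) (nat_lit 15) [nat_lit 0x2611,nat_lit 0x5811,nat_lit 0x5611,nat_lit 0x34419],
    .r (nat_lit 0xdb4) (nat_lit 6) [nat_lit 0x10001,nat_lit 17],.r (nat_lit 0xdc2) (nat_lit 5) [nat_lit 0x12001,
    nat_lit 0x3011],.r (nat_lit 0xdb7) (nat_lit 6) [nat_lit 0x10401,nat_lit 0x18099],
    .r (nat_lit 0x1182) (nat_lit 15) [nat_lit 0x4611,nat_lit 0x3811,nat_lit 0x3611,nat_lit 0x32419],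
    .r (nat_lit 0x1595) (nat_lit 1) [nat_lit 0x12419,nat_lit 0x18099,nat_lit 0x611],
    .r (nat_lit 0xdbb) (nat_lit 5) [nat_lit 0x2611,nat_lit 0x10001],.r (nat_lit 0x1634) (nat_lit 12) [nat_lit 0x18611,
    nat_lit 0x12001,nat_lit 0x10401],.r (nat_lit 0xdb6) (nat_lit 11) [nat_lit 0x10401,nat_lit 0x1b099],
    .r (nat_lit 0xdb7) (nat_lit 11) [nat_lit 0x10401,nat_lit 0x1b099],.r (nat_lit 0xdb4) (nat_lit 6) [nat_lit 0x10001,
    nat_lit 0x2011],.r (nat_lit 0xdba) (nat_lit 11) [nat_lit 17,nat_lit 0x12001],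
    .r (nat_lit 0x13da) (nat_lit 11) [nat_lit 0x401,nat_lit 0x2001,nat_lit 0x10001,nat_lit 0x1b099],
    .r (nat_lit 0xdc2) (nat_lit 5) [nat_lit 0x12001,nat_lit 17],.r (nat_lit 0xdb7) (nat_lit 11) [nat_lit 0x10401,
    nat_lit 0x611],.r (nat_lit 0xdbe) (nat_lit 11) [nat_lit 0x10401,nat_lit 0x2611],.c (nat_lit 1) (nat_lit 130),
    .r (nat_lit 0xdbc) (nat_lit 8) [nat_lit 0x611,nat_lit 0x12001],.c (nat_lit 2) (nat_lit 2),
    .r (nat_lit 0xdb7) (nat_lit 6) [nat_lit 0x10401,nat_lit 0x1a699],.r (nat_lit 0x1182) (nat_lit 15) [nat_lit 0x2011,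
    nat_lit 0x5c11,nat_lit 0x5011,nat_lit 0x34019],.r (nat_lit 0xdc2) (nat_lit 5) [nat_lit 0x12001,nat_lit 0x5411],
    .r (nat_lit 0xdbb) (nat_lit 5) [nat_lit 17,nat_lit 0x10001],.r (nat_lit 0xdb7) (nat_lit 11) [nat_lit 0x10401,
    nat_lit 0x18699],.r (nat_lit 0xdb4) (nat_lit 6) [nat_lit 0x10001,nat_lit 0x411],
    .r (nat_lit 0xdba) (nat_lit 11) [nat_lit 0x3411,nat_lit 0x12001],.r (nat_lit 0x13da) (nat_lit 11) [nat_lit 0x401,
    nat_lit 0x2001,nat_lit 0x10001,nat_lit 0x18699],.r (nat_lit 0xdc2) (nat_lit 5) [nat_lit 0x12001,nat_lit 0x3411],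
    .r (nat_lit 0xdbe) (nat_lit 11) [nat_lit 0x10401,nat_lit 17],.r (nat_lit 0x13d5) (nat_lit 11) [nat_lit 0x401,
    nat_lit 0x2001,nat_lit 0x10001,nat_lit 0x3011],.r (nat_lit 0xdb7) (nat_lit 6) [nat_lit 0x10401,nat_lit 0x18699],
    .r (nat_lit 0xdb6) (nat_lit 11) [nat_lit 0x10401,nat_lit 0x3011],.c (nat_lit 1) (nat_lit 0x702),
    .r (nat_lit 0x1182) (nat_lit 15) [nat_lit 0x4011,nat_lit 0x3c11,nat_lit 0x3011,nat_lit 0x32019],
    .r (nat_lit 0x1595) (nat_lit 1) [nat_lit 0x12019,nat_lit 0x18699,nat_lit 17],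
    .r (nat_lit 0xdbc) (nat_lit 8) [nat_lit 0x3011,nat_lit 0x12001],.r (nat_lit 0x1595) (nat_lit 1) [nat_lit 0x14019,
    nat_lit 0x1a699,nat_lit 0x3011],.c (nat_lit 3) (nat_lit 2),.r (nat_lit 0xdb8) (nat_lit 5) [nat_lit 0x12001,
    nat_lit 17],.r (nat_lit 0xdb6) (nat_lit 11) [nat_lit 0x10401,nat_lit 0x1b699],
    .r (nat_lit 0xdba) (nat_lit 5) [nat_lit 0x12001,nat_lit 17],.r (nat_lit 0x1595) (nat_lit 1) [nat_lit 0x224d1,
    nat_lit 17,nat_lit 0x18699],.r (nat_lit 0xdb7) (nat_lit 11) [nat_lit 0x10401,nat_lit 0x1b699],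
    .r (nat_lit 0xdbb) (nat_lit 5) [nat_lit 0x2011,nat_lit 0x10001],.c (nat_lit 4) (nat_lit 2),
    .r (nat_lit 0x14da) (nat_lit 5) [nat_lit 0x2001,nat_lit 0x18011,nat_lit 0x10001],
    .r (nat_lit 0x1636) (nat_lit 5) [nat_lit 0x2601,nat_lit 17,nat_lit 0x10401],
    .r (nat_lit 0xdba) (nat_lit 11) [nat_lit 0x411,nat_lit 0x12001],.r (nat_lit 0x13da) (nat_lit 11) [nat_lit 0x401,
    nat_lit 0x2001,nat_lit 0x10001,nat_lit 0x1b699],.r (nat_lit 0xdc2) (nat_lit 5) [nat_lit 0x12001,nat_lit 0x411],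
    .r (nat_lit 0xdb7) (nat_lit 11) [nat_lit 0x10401,nat_lit 17],.r (nat_lit 0xdbe) (nat_lit 13) [nat_lit 17,
    nat_lit 0x10401],.r (nat_lit 0x147e) (nat_lit 11) [nat_lit 0x10419,nat_lit 0x12019,nat_lit 17],
    .c (nat_lit 6) (nat_lit 2),.r (nat_lit 0xdbe) (nat_lit 11) [nat_lit 0x10401,nat_lit 0x2011],
    .r (nat_lit 0x13dc) (nat_lit 11) [nat_lit 0x401,nat_lit 0x2001,nat_lit 0x10001,nat_lit 17],
    .r (nat_lit 0xdb6) (nat_lit 11) [nat_lit 0x10401,nat_lit 17],.c (nat_lit 7) (nat_lit 2),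
    .r (nat_lit 0x1182) (nat_lit 15) [nat_lit 0x6011,nat_lit 0xc11,nat_lit 17,nat_lit 0x30019],
    .r (nat_lit 0x1595) (nat_lit 1) [nat_lit 0x10019,nat_lit 0x1b699,nat_lit 0x2011],
    .r (nat_lit 0xdbc) (nat_lit 8) [nat_lit 17,nat_lit 0x12001],.c (nat_lit 8) (nat_lit 2)],
    .l (nat_lit 15) (nat_lit 0x13b0) (nat_lit 3) (nat_lit 0x8f9000008f9000008f4000008f40000091600000916000009230000092300000b5200000b520000094d0000094d0000091600000916000008f1000008f1) (nat_lit 0x259000002590000025e0000025e0000023c0000023c0000022f0000022f000000000000000000000205000002050000023c0000023c0000026100000261)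
    (nat_lit 0xd4c1a8035586950f321af431406ea11f21d3c365068a0d7a1a4c34c06980d401a9834d869b0f3e1af436506ea10222104368068c0d86193c34f06980d361a5434b06960d301ae03be85e312b823d03ae87d70d701b70346868d0d361aac34b06960d081ae03be859f1578295037787910d9c19b834986930d7a1af435c06b810001b682c3871b10e821783ad85490db41b68352869f0f3e1e6434206980e1c20003b586e7122c18c8334875b0db417f834a86810dd41ba82cf85e30dce1c6c4ec06c011b2227c3fd071e0e361e3c2f306c20d9418a03be877d0ed6161c67909d810c2248c31e071e0b061744436048610821d3c52a08f40c642178491889f16a415505318a0f16a427e04c98a55102223e455e095c122c21d043088d916a42d484d0894d137021784ad8a1d0d181a283c887d70eb6152438f071e129a283c40007480bca1af4376064a0da01b28377875d0cd21d6c31e07fa1342298c38708000e221c4438b06ec0c9e1a4c33706dc0bfc1b682e8878f10bc27e038886bd0db41c5036f86b50d861af436706b80db41b682c1871b13702d4838885e50db41b6835a86b50d301a60349868d0d021a7c24306c2143a2954376064a0d6a1ad434806900d3c1a60349868d0d2a1a9443605e612b6264c38b06ec0d6a1b7c3480690)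
    (nat_lit 0xd4c4ec09d813b027604ec09d813b027604ec09d813b027604ec09d813b00d401a989d813b027604ec09d813b027604ec09d813b027604ec09d813b00d561a6c34b13b027604ec09d813b027604ec09d813b027604ec09d813b00d2a1a6c34b069627604ec09d813b027604ec09d813b027604ec09d813b00f321e7c34c068410004ec09d813b027604ec09d813b027604ec09d813b00d7a1af435c06b80db420009d813b027604ec09d813b027604ec09d813b00c501b283be877d0b0e1dac4ec13b027604ec09d813b027604ec09d813b00dd41ba82f1859f0e361b9c36009d827604ec09d813b027604ec09d813b011f220444ae0abc10e8245846c886116a44ec09d813b027604ec09d813b00e9e210447a0a5410bc18c844f89230aa82d489d813b027604ec09d813b00d941b403ae86ef0eb619a43fd063c14c6268440013b027604ec09d813b00d141a303eb87910a921d6c38f071e141e25343a4080027604ec09d813b00d7a1b0c35c06ce0db41b6838d858316a426e02f287110db44ec09d813b00d26193c36e066e0db417f83c785d113f0217835e87110e281b689d813b00d301a7834686930d4a1a542f3086c1326256c37607160dbe1ad434813b00d301a6034686930d3e1a04361048614aa287432506ec0d6a1ad43480690)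
    (nat_lit 3) (nat_lit 49)
    [[nat_lit 2,nat_lit 0x10002,nat_lit 17,nat_lit 0x10011,nat_lit 0x100011,nat_lit 0x10000011,nat_lit 257,
    nat_lit 0x10101,nat_lit 0x100101,nat_lit 0x10001,nat_lit 0x110001,nat_lit 0x10010001,nat_lit 0x100001,
    nat_lit 0x1000001,nat_lit 0x1010001,nat_lit 0x10000001],[nat_lit 32,nat_lit 272,nat_lit 0x100110,
    nat_lit 0x10000110,nat_lit 0x10010,nat_lit 0x110010,nat_lit 0x10010010,nat_lit 0x20010,nat_lit 0x1010010,
    nat_lit 0x100010,nat_lit 0x1000010,nat_lit 0x1100010,nat_lit 0x10000010,nat_lit 0x10100010],[nat_lit 512,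
    nat_lit 0x10100,nat_lit 0x110100,nat_lit 0x100100,nat_lit 0x1000100,nat_lit 0x1100100,nat_lit 0x10000100],
    [nat_lit 0x2000,nat_lit 0x11000,nat_lit 0x101000,nat_lit 0x10001000],[nat_lit 0x110000,nat_lit 0x1110000,
    nat_lit 0x1010000,nat_lit 0x10010000,nat_lit 0x11010000],[nat_lit 0x200000,nat_lit 0x1100000,nat_lit 0x10100000],
    [nat_lit 0x2000000,nat_lit 0x11000000],[nat_lit 0x20000000]]
    [.c (nat_lit 1) (nat_lit 2),.r (nat_lit 0xdc2) (nat_lit 11) [nat_lit 0x10401,nat_lit 0x1b499],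
    .c (nat_lit 1) (nat_lit 0x682),.r (nat_lit 0xdc2) (nat_lit 11) [nat_lit 0x10401,nat_lit 0x18099],
    .r (nat_lit 0x11d7) (nat_lit 11) [nat_lit 0x401,nat_lit 0x2001,nat_lit 0x10001,nat_lit 0x3611],
    .r (nat_lit 0xdb3) (nat_lit 1) [nat_lit 0xa241a,nat_lit 0x611],.r (nat_lit 0xdb8) (nat_lit 11) [nat_lit 0x10401,
    nat_lit 0x2611],.r (nat_lit 0xdb4) (nat_lit 5) [nat_lit 0x12001,nat_lit 0x1b099],
    .r (nat_lit 0xdb3) (nat_lit 1) [nat_lit 0xa20d1,nat_lit 0xeb129],.r (nat_lit 0xdba) (nat_lit 11) [nat_lit 0x10401,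
    nat_lit 0x2611],.r (nat_lit 0xdb5) (nat_lit 11) [nat_lit 0x10401,nat_lit 0x2611],
    .r (nat_lit 0xdb3) (nat_lit 1) [nat_lit 0x90419,nat_lit 0xc2a21],.r (nat_lit 0xdbb) (nat_lit 0) [nat_lit 0x611,
    nat_lit 0x12001],.c (nat_lit 1) (nat_lit 130),.r (nat_lit 0xdc2) (nat_lit 11) [nat_lit 0x10401,nat_lit 0x1b099],
    .r (nat_lit 0xdbb) (nat_lit 8) [nat_lit 0x611,nat_lit 0x12001],.c (nat_lit 2) (nat_lit 2),
    .r (nat_lit 0xdb8) (nat_lit 11) [nat_lit 0x10401,nat_lit 17],.r (nat_lit 0xdb3) (nat_lit 1) [nat_lit 0xa04d1,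
    nat_lit 0xeab29],.r (nat_lit 0xdb5) (nat_lit 11) [nat_lit 0x10401,nat_lit 0x1a699],
    .r (nat_lit 0xdba) (nat_lit 11) [nat_lit 0x10401,nat_lit 17],.r (nat_lit 0xdb5) (nat_lit 11) [nat_lit 0x10401,
    nat_lit 17],.r (nat_lit 0xdb3) (nat_lit 1) [nat_lit 0x92019,nat_lit 0xc3021],
    .r (nat_lit 0x1641) (nat_lit 4) [nat_lit 0x80019,nat_lit 0x3001,nat_lit 0x12001],
    .r (nat_lit 0xdc2) (nat_lit 11) [nat_lit 0x10401,nat_lit 0x18699],.r (nat_lit 0xdbb) (nat_lit 0) [nat_lit 0x3011,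
    nat_lit 0x12001],.c (nat_lit 1) (nat_lit 0x702),.r (nat_lit 0x11d7) (nat_lit 11) [nat_lit 0x401,nat_lit 0x2001,
    nat_lit 0x10001,nat_lit 0x3011],.r (nat_lit 0xdbb) (nat_lit 8) [nat_lit 0x3011,nat_lit 0x12001],
    .r (nat_lit 0xdb4) (nat_lit 5) [nat_lit 0x12001,nat_lit 0x3011],.c (nat_lit 3) (nat_lit 2),
    .r (nat_lit 0x150f) (nat_lit 7) [nat_lit 17,nat_lit 0x224d1,nat_lit 0x18699],
    .r (nat_lit 0xdb3) (nat_lit 1) [nat_lit 0xb24d2,nat_lit 0x18699],.r (nat_lit 0xdba) (nat_lit 14) [nat_lit 17,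
    nat_lit 0x10001],.r (nat_lit 0xdb8) (nat_lit 11) [nat_lit 0x10401,nat_lit 0x2011],
    .r (nat_lit 0xdb3) (nat_lit 1) [nat_lit 0xa24d1,nat_lit 0xebb29],.r (nat_lit 0xdba) (nat_lit 13) [nat_lit 17,
    nat_lit 0x10401],.c (nat_lit 4) (nat_lit 2),.r (nat_lit 0xdb3) (nat_lit 1) [nat_lit 17,nat_lit 0xa2029],
    .r (nat_lit 0x161c) (nat_lit 11) [nat_lit 0x10419,nat_lit 0x12019,nat_lit 17],
    .r (nat_lit 0x1641) (nat_lit 4) [nat_lit 0x1b011,nat_lit 0x3001,nat_lit 0x12001],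
    .r (nat_lit 0xdb8) (nat_lit 3) [nat_lit 0x10001,nat_lit 17],.r (nat_lit 0xdb5) (nat_lit 11) [nat_lit 0x10401,
    nat_lit 0x2011],.r (nat_lit 0xdba) (nat_lit 11) [nat_lit 0x10401,nat_lit 0x2011],.c (nat_lit 0) (nat_lit 0x10003),
    .r (nat_lit 0xdb3) (nat_lit 1) [nat_lit 0x90019,nat_lit 0xc2021],.c (nat_lit 6) (nat_lit 2),
    .r (nat_lit 0xdbb) (nat_lit 0) [nat_lit 17,nat_lit 0x12001],.r (nat_lit 0xdc0) (nat_lit 13) [nat_lit 0x12001,
    nat_lit 17],.c (nat_lit 7) (nat_lit 2),.r (nat_lit 0xdbb) (nat_lit 8) [nat_lit 17,nat_lit 0x12001],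
    .c (nat_lit 8) (nat_lit 2)]]

/-- nodes -/
noncomputable def rD8k_36_9 : List RJ :=
  [.l (nat_lit 11) (nat_lit 480) (nat_lit 3) (nat_lit 0xd6000000d6000000d3000000d3000000d5000000d5000000d5000000d50000010200000102000000da000000da000000d5000000d5000000d2000000d2) (nat_lit 0x2c0000002c0000002f0000002f0000002d0000002d0000002d0000002d000000000000000000000028000000280000002d0000002d0000003000000030)
    (nat_lit 0x1682a8538a11562bc458ab1ac2c05608a15226c530a61542d0538a715a2b4448ad18835851094152294560a214e284500a4144298530a21da3cc578bd1542c84c8a314e29c520a013c2985309e1da3cc558b915c2b84e8a715a2bc530a61602a0440b018e354528931482a05289d15a2ac4f0a21502c0580a81aa234568ad1602b05189515a2ac4f0a21502c0780a81aa334548ad1702a05189d11222c530a61602209c0f01aa354428b31202a06586d1ac2c0798f311a3546a8cd1f81c86d0da21a3f4780ea188358768ed1aa31c6a8d52043f06d0da1c634c7b0f01282285c8bd15a24c598ad1b43685a0b211e2b45509c1442b0558af15a294428a91b4368610b41722b45c0aa14a26c570b21582a0540a81a63f4568ad150260538991522a4570aa160290480b81c64345c88f1402a0528a5144298538a312a2743689d1e03a85509c14a264510aa1582984e899146294658a31ec3c05c0aa14a29c510a2)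
    (nat_lit 0x168780f01e03c0780f01e03c0780f01e03c0780f01e01542d0f01e03c0780f01e03c0780f01e03c0780f01e014e29c501e03c0780f01e03c0780f01e03c0780f01e014229c520a03c0780f01e03c0780f01e03c0780f01e01562b45109e160780f01e03c0780f01e03c0780f01e015e2b4530a61502c0f01e03c0780f01e03c0780f01e0116224530a61102c0781e03c0780f01e03c0780f01e01562b45109e1602a0540f03c0780f01e03c0780f01e01ac310768ed18e3546a8d51f8780f01e03c0780f01e0160358798f31aa234668d50e43f0f01e03c0780f01e0158288578ab14a2b4548851b43685a1e03c0780f01e01142505e8b91262b4568b31b4368590b43c0780f01e01522a4550ae1482c05c09021a38c478b9150780f01e0136294590ae1502b0540a81fa34c568ad1302a0f01e014c2b04c89d14a28c518cb1e03d8550b814e294511e014c288518a713a2544e86d1d43c04e0aa132294550a2)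
    (nat_lit 3) (nat_lit 49)
    [[nat_lit 2,nat_lit 0x10002,nat_lit 0x100002,nat_lit 17,nat_lit 0x10011,nat_lit 257,nat_lit 0x10101,
    nat_lit 0x10001,nat_lit 0x110001,nat_lit 0x10010001,nat_lit 0x100001,nat_lit 0x1000001,nat_lit 0x1010001,
    nat_lit 0x1100001,nat_lit 0x10000001],[nat_lit 32,nat_lit 272,nat_lit 0x10110,nat_lit 0x10000110,nat_lit 0x10010,
    nat_lit 0x10010010,nat_lit 0x100010,nat_lit 0x1000010,nat_lit 0x10000010],[nat_lit 512,nat_lit 0x1100,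
    nat_lit 0x10100,nat_lit 0x110100,nat_lit 0x10010100,nat_lit 0x100100,nat_lit 0x10100100,nat_lit 0x1000100,
    nat_lit 0x11000100,nat_lit 0x10000100],[nat_lit 0x2000,nat_lit 0x11000,nat_lit 0x101000,nat_lit 0x10001000],
    [nat_lit 0x110000,nat_lit 0x1110000,nat_lit 0x1010000,nat_lit 0x10010000,nat_lit 0x10020000,nat_lit 0x11010000],
    [nat_lit 0x200000,nat_lit 0x1100000,nat_lit 0x10100000],[nat_lit 0x2000000,nat_lit 0x11000000],
    [nat_lit 0x20000000]]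
    [.c (nat_lit 1) (nat_lit 2),.r (nat_lit 0xdc2) (nat_lit 11) [nat_lit 0x10401,nat_lit 0x1b499],
    .r (nat_lit 0x11d7) (nat_lit 11) [nat_lit 0x401,nat_lit 0x2001,nat_lit 0x10001,nat_lit 0xa11],
    .c (nat_lit 1) (nat_lit 0x682),.r (nat_lit 0xdc2) (nat_lit 11) [nat_lit 0x10401,nat_lit 0x18099],
    .r (nat_lit 0xdb8) (nat_lit 11) [nat_lit 0x10401,nat_lit 0x2611],.r (nat_lit 0xdb4) (nat_lit 5) [nat_lit 0x12001,
    nat_lit 0x1b099],.r (nat_lit 0xdba) (nat_lit 11) [nat_lit 0x10401,nat_lit 0x2611],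
    .r (nat_lit 0xdb5) (nat_lit 11) [nat_lit 0x10401,nat_lit 0x2611],.r (nat_lit 0xdb5) (nat_lit 3) [nat_lit 0x10001,
    nat_lit 17],.r (nat_lit 0xdbb) (nat_lit 0) [nat_lit 0x611,nat_lit 0x12001],.c (nat_lit 1) (nat_lit 130),
    .r (nat_lit 0xdc2) (nat_lit 11) [nat_lit 0x10401,nat_lit 0x1b099],.r (nat_lit 0x11d7) (nat_lit 11) [nat_lit 0x401,
    nat_lit 0x2001,nat_lit 0x10001,nat_lit 0x611],.r (nat_lit 0xdbb) (nat_lit 8) [nat_lit 0x611,nat_lit 0x12001],
    .c (nat_lit 2) (nat_lit 2),.r (nat_lit 0xdb8) (nat_lit 11) [nat_lit 0x10401,nat_lit 17],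
    .r (nat_lit 0xdb4) (nat_lit 5) [nat_lit 0x12001,nat_lit 0x18699],.r (nat_lit 0xdb5) (nat_lit 11) [nat_lit 0x10401,
    nat_lit 0x1a699],.r (nat_lit 0xdba) (nat_lit 11) [nat_lit 0x10401,nat_lit 17],
    .r (nat_lit 0xdb5) (nat_lit 3) [nat_lit 0x10001,nat_lit 0x3411],.r (nat_lit 0xdbb) (nat_lit 0) [nat_lit 0x3011,
    nat_lit 0x12001],.c (nat_lit 1) (nat_lit 0x702),.r (nat_lit 0xdbb) (nat_lit 8) [nat_lit 0x3011,nat_lit 0x12001],
    .c (nat_lit 3) (nat_lit 2),.r (nat_lit 0x1510) (nat_lit 7) [nat_lit 0x224d1,nat_lit 0x2b691,nat_lit 0x2699],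
    .r (nat_lit 0x150f) (nat_lit 7) [nat_lit 17,nat_lit 0x224d1,nat_lit 0x18699],
    .r (nat_lit 0x15a0) (nat_lit 9) [nat_lit 0x3401,nat_lit 0x3001,nat_lit 0x1a699,nat_lit 0x12001],
    .r (nat_lit 0x11d7) (nat_lit 11) [nat_lit 0x401,nat_lit 0x2001,nat_lit 0x10001,nat_lit 0x1b699],
    .r (nat_lit 0xdba) (nat_lit 14) [nat_lit 17,nat_lit 0x10001],.r (nat_lit 0xdc2) (nat_lit 11) [nat_lit 0x10401,
    nat_lit 17],.r (nat_lit 0xdb8) (nat_lit 11) [nat_lit 0x10401,nat_lit 0x2011],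
    .r (nat_lit 0xdb5) (nat_lit 11) [nat_lit 0x10401,nat_lit 0x18699],.r (nat_lit 0xdba) (nat_lit 13) [nat_lit 17,
    nat_lit 0x10401],.c (nat_lit 4) (nat_lit 2),.r (nat_lit 0x14da) (nat_lit 0) [nat_lit 0x3001,nat_lit 0x1b011,
    nat_lit 0x12001],.r (nat_lit 0x161c) (nat_lit 11) [nat_lit 0x10419,nat_lit 0x12019,nat_lit 17],
    .r (nat_lit 0x1641) (nat_lit 4) [nat_lit 0x1b011,nat_lit 0x3001,nat_lit 0x12001],
    .r (nat_lit 0xdb8) (nat_lit 3) [nat_lit 0x10001,nat_lit 17],.r (nat_lit 0xdb5) (nat_lit 11) [nat_lit 0x10401,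
    nat_lit 0x2011],.r (nat_lit 0xdba) (nat_lit 11) [nat_lit 0x10401,nat_lit 0x2011],
    .r (nat_lit 0xdba) (nat_lit 3) [nat_lit 0x10001,nat_lit 17],.r (nat_lit 0x1642) (nat_lit 11) [nat_lit 0x401,
    nat_lit 0x2001,nat_lit 0x10001,nat_lit 17],.r (nat_lit 0xdb5) (nat_lit 3) [nat_lit 0x10001,nat_lit 0x411],
    .c (nat_lit 6) (nat_lit 2),.r (nat_lit 0xdbb) (nat_lit 0) [nat_lit 17,nat_lit 0x12001],
    .r (nat_lit 0xdc0) (nat_lit 13) [nat_lit 0x12001,nat_lit 17],.c (nat_lit 7) (nat_lit 2),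
    .r (nat_lit 0xdbb) (nat_lit 8) [nat_lit 17,nat_lit 0x12001],.c (nat_lit 8) (nat_lit 2)],
    .l (nat_lit 13) (nat_lit 0x5a0) (nat_lit 4) (nat_lit 0x2d00000031000000274000002740000027200000272000002830000028300000283000002830000028400000284000002de000002a20000028f0000028f) (nat_lit 0x400000009c0000009c0000009e0000009e0000008d0000008d0000008d0000008d0000008c0000008c0000006e000000320000008100000081)
    (nat_lit 0x1680a4046823411908c82a624312a896c2401701310a7849e18d1880b4046827411f08f850628d0918a0c510288151048051e28f13a08d04181d80e608583ce21b0f1879c74c34810308f83e61f311a08d038020c0fa07583e21db0f387144b41fa10309083e61f311f08c83ac2160f007b040e1c70e9876c3cc1e610207383e21f111f08c83e81cc0ea07803f61e50ec87543cc1e610208d03e21f1146890c3b621b0f2871c40c1f60fb078040620310a8944404202141854c3e21e70fd881c3ec2060fb07d83ee1f30a689843d41ea141896c38a1e70ea876c3ec1e00fd07d83ce1f711689445e42ca09189543ce1e30ec874c3ec1f60fb07e83ee1f711389445ac2b014405c03f43480f307983e62030fb87dc3f01f80b409483e21f114404804b43a60f307983ee2030fb879c3f01f80db09484062030900a7848423e11a07384c225112889444a42521380ab07022bd151098840c206102081029a21511388b436c16811a09c05c622114786343e61f30f887c43d42021580b284061f11108af441c20e147893c3e61f30f887c43d420216b0bc84061f11718e0441c20e)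
    (nat_lit 0x1681680b405a02d01680b405a02d01680b405a02d01680b405a01480b40b405a02d01680b405a02d01680b405a02d01680b405a011a08d04185a02d01680b405a02d01680b405a02d01680b405a011a09d03b020c2d01680b405a02d01680b405a02d01680b405a011908f83981f40f01680b405a02d01680b405a02d01680b405a011908f842c1d60f60780b405a02d01680b405a02d01680b405a00a98a0c3ce1f110387ec40c5a02d01680b405a02d01680b405a01218a344361db0e387943ec2062d01680b405a02d01680b405a012a848c3c61e70e987643ec1f60fd1680b405a02d01680b405a012d8a0c3ce1c50ed87543c01f60fb07e8b405a02d01680b405a00900a2072825a0f307984061f70f387dc3f05a02d01680b405a00b80a206901fa0f307984061f30fb87dc3f01f82d01680b405a01310a8840c206102081042a14d116889c2d01b61381680b405a014f048047c2420e708d04a226112889444a424015609c0b405a01278a3c3e61f30f887c44041ea1790b583e22031b78b8c41c5a00c68a3c3e61f30f887c44041ea1650ac03e2203156888441c20e)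
    (nat_lit 3) (nat_lit 49)
    [[nat_lit 2,nat_lit 0x10000011,nat_lit 257,nat_lit 0x10001,nat_lit 0x100001,nat_lit 0x1000001,nat_lit 0x10000001],
    [nat_lit 32,nat_lit 272,nat_lit 0x100110,nat_lit 0x10000110,nat_lit 0x1010,nat_lit 0x10010,nat_lit 0x10010010,
    nat_lit 0x10010110,nat_lit 0x11010,nat_lit 0x110010,nat_lit 0x1010010,nat_lit 0x100010,nat_lit 0x10100010,
    nat_lit 0x1000010,nat_lit 0x11000010,nat_lit 0x10000010],[nat_lit 512,nat_lit 0x1100,nat_lit 0x10001100,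
    nat_lit 0x10100,nat_lit 0x100100,nat_lit 0x10100100,nat_lit 0x10000100,nat_lit 0x11000100],[nat_lit 0x2000,
    nat_lit 0x10002000,nat_lit 0x11000,nat_lit 0x111000,nat_lit 0x101000,nat_lit 0x201000,nat_lit 0x1101000,
    nat_lit 0x1001000,nat_lit 0x2001000,nat_lit 0x10001000,nat_lit 0x10011000,nat_lit 0x10101000,nat_lit 0x11001000],
    [nat_lit 0x20000,nat_lit 0x110000,nat_lit 0x1010000,nat_lit 0x1110000,nat_lit 0x10010000,nat_lit 0x10110000],
    [nat_lit 0x200000,nat_lit 0x1200000,nat_lit 0x1100000,nat_lit 0x10100000],[nat_lit 0x2000000,nat_lit 0x11000000],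
    []]
    [.c (nat_lit 1) (nat_lit 2),.c (nat_lit 0) (nat_lit 0x3602),.r (nat_lit 0xdbc) (nat_lit 11) [nat_lit 0x12001,
    nat_lit 0x18099],.r (nat_lit 0x161e) (nat_lit 15) [nat_lit 0x12019,nat_lit 17],
    .r (nat_lit 0x15cf) (nat_lit 10) [nat_lit 0x104d1,nat_lit 0x401,nat_lit 0x18681],
    .r (nat_lit 0xdbb) (nat_lit 7) [nat_lit 0x18099,nat_lit 17],.r (nat_lit 0x14e7) (nat_lit 13) [nat_lit 0x104d1,
    nat_lit 0x224c1,nat_lit 0x18681],.c (nat_lit 2) (nat_lit 2),.r (nat_lit 0xdbb) (nat_lit 7) [nat_lit 0x2b691,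
    nat_lit 0x12419],.r (nat_lit 0x1617) (nat_lit 15) [nat_lit 0x224c1,nat_lit 0x18681,nat_lit 0x10419],
    .r (nat_lit 0xdb2) (nat_lit 15) [nat_lit 0x12001,nat_lit 0x10419],.c (nat_lit 1) (nat_lit 0x4d3),
    .c (nat_lit 0) (nat_lit 0x2003),.c (nat_lit 0) (nat_lit 0x2003),.r (nat_lit 0xdb9) (nat_lit 10) [nat_lit 0x12001,
    nat_lit 0x10419],.r (nat_lit 0x15df) (nat_lit 11) [nat_lit 0x2699,nat_lit 0x224d1,nat_lit 0x2b691],
    .c (nat_lit 0) (nat_lit 0x2003),.r (nat_lit 0xdb3) (nat_lit 15) [nat_lit 0x12001,nat_lit 0x2b691],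
    .c (nat_lit 0) (nat_lit 0x2003),.c (nat_lit 0) (nat_lit 0x2003),.r (nat_lit 0xdbc) (nat_lit 11) [nat_lit 0x12001,
    nat_lit 0x2b691],.r (nat_lit 0x11d0) (nat_lit 4) [nat_lit 0x401,nat_lit 0x18681,nat_lit 0x12001,nat_lit 0x1b611],
    .c (nat_lit 0) (nat_lit 0x2003),.c (nat_lit 3) (nat_lit 2),.r (nat_lit 0xdbb) (nat_lit 7) [nat_lit 17,
    nat_lit 0x18099],.r (nat_lit 0xdb2) (nat_lit 15) [nat_lit 0x12001,nat_lit 0x1b099],
    .r (nat_lit 0x1608) (nat_lit 1) [nat_lit 0x611,nat_lit 0x18681,nat_lit 0x401],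
    .r (nat_lit 0x1618) (nat_lit 8) [nat_lit 0x419,nat_lit 0x12001,nat_lit 17],
    .r (nat_lit 0xdb3) (nat_lit 15) [nat_lit 0x12001,nat_lit 0x1b099],.r (nat_lit 0xdb8) (nat_lit 13) [nat_lit 17,
    nat_lit 0x12001],.c (nat_lit 0) (nat_lit 194),.c (nat_lit 4) (nat_lit 2),
    .r (nat_lit 0x1605) (nat_lit 15) [nat_lit 0x401,nat_lit 0x34951,nat_lit 0x2bb19],.c (nat_lit 0) (nat_lit 0x36d3),
    .c (nat_lit 0) (nat_lit 0x36d3),.c (nat_lit 0) (nat_lit 0x36d3),.r (nat_lit 0x160f) (nat_lit 2) [nat_lit 0x104d1,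
    nat_lit 0x18681,nat_lit 0x12001],.r (nat_lit 0xdb3) (nat_lit 11) [nat_lit 0x12001,nat_lit 17],
    .r (nat_lit 0xdbc) (nat_lit 11) [nat_lit 0x12001,nat_lit 17],.r (nat_lit 0x15e1) (nat_lit 0) [nat_lit 0x104d1,
    nat_lit 0x18681,nat_lit 0x18499,nat_lit 0x12001],.c (nat_lit 0) (nat_lit 0x36d3),.c (nat_lit 0) (nat_lit 0x36d3),
    .c (nat_lit 0) (nat_lit 0x36d3),.r (nat_lit 0x11d0) (nat_lit 4) [nat_lit 0x401,nat_lit 0x18681,nat_lit 0x12001,
    nat_lit 0x100d1],.c (nat_lit 5) (nat_lit 2),.c (nat_lit 0) (nat_lit 0x603),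
    .r (nat_lit 0xdbb) (nat_lit 15) [nat_lit 0x12001,nat_lit 17],.r (nat_lit 0xdb2) (nat_lit 15) [nat_lit 0x12001,
    nat_lit 17],.c (nat_lit 0) (nat_lit 0x603),.c (nat_lit 0) (nat_lit 0x603),.c (nat_lit 6) (nat_lit 2),
    .r (nat_lit 0x1631) (nat_lit 11) [nat_lit 0x401,nat_lit 17,nat_lit 0x4011,nat_lit 0x20019],
    .r (nat_lit 0xdb9) (nat_lit 10) [nat_lit 0x12001,nat_lit 17],.c (nat_lit 0) (nat_lit 0x603),
    .c (nat_lit 7) (nat_lit 2),.r (nat_lit 0x161e) (nat_lit 4) [nat_lit 0x611,nat_lit 0x401]],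
    .l (nat_lit 11) (nat_lit 480) (nat_lit 3) (nat_lit 0xd1000000d1000000d3000000d3000000d1000000d1000000cf000000cf000000d9000000d9000000fe000000fe000000d9000000d9000000d3000000d3) (nat_lit 0x2d0000002d0000002b0000002b0000002d0000002d0000002f0000002f0000002500000025000000000000000000000025000000250000002b0000002b)
    (nat_lit 0x148290540a6130290550a2158280738eb1342b0530a61482904f0a61302905d0961582b87a8f91542b0530ae14c298540a81642b8510b010c258698d314c228540aa13c2a0580a8124298520a811c230688d315c248540a8148290530ae140270620b61582b0768f11582b8520a6130260490b2148280560a2160250778f31502b0530a612c288540b01442d85c0a0110280678cb154230580a81742a8520a2158310440b81542a8658931402c05809015c280460961282b0550a01e0330698d91902e0530b81582b0470861602b0550882283c05c8d91942d04a0801f23ac698d31e63c4498cb1b23647f09e20e3e4698bd1ea39c688d31de3b4658cf17234c7f0fe1ce364698d31582b04908a1582b85808c1682e06c8f91682d04c0a0154268570a61502b0500aa194320739071682d0570ae15c298540aa14c298480a81002e0698bd15c2805d0a814c298540a814c290580b0128298698d315c260540ba)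
    (nat_lit 0x148780f01e03c0780f01e03c0780f01e03c0780f01e0148290f01e03c0780f01e03c0780f01e03c0780f01e0150278541e03c0780f01e03c0780f01e03c0780f01e014c298540a83c0780f01e03c0780f01e03c0780f01e013026059092140780f01e03c0780f01e03c0780f01e0148290570a6138280f01e03c0780f01e03c0780f01e01542e8510a41882b05c1e03c0780f01e03c0780f01e0144258580a816c288500b83c0780f01e03c0780f01e01582b04308e1582c0440aa1e0780f01e03c0780f01e01402b84b08c158250500aa1983c0f01e03c0780f01e01ce3d4698d11da3bc678cb1a62e47f1e03c0780f01e01d63e4698d31e23cc658931b23644f0fe3c0780f01e01342a8530ae1582a0550a0190328838e7168780f01e01582b04509215c2b0460b01702d07c8d91682d0f01e014c298540a8148298580b014c250698d31302b85d1e014c2b8550a814c298540901702005e8d31402b8540ba)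
    (nat_lit 3) (nat_lit 49)
    [[nat_lit 2,nat_lit 17,nat_lit 0x10011,nat_lit 257,nat_lit 0x1001,nat_lit 0x11001,nat_lit 0x1001001,
    nat_lit 0x101001,nat_lit 0x10001,nat_lit 0x100001,nat_lit 0x110001,nat_lit 0x1000001,nat_lit 0x10000001,
    nat_lit 0x10001001,nat_lit 0x10010001],[nat_lit 32,nat_lit 0x1000020,nat_lit 0x1010,nat_lit 0x10010,
    nat_lit 0x20010,nat_lit 0x1010010,nat_lit 0x100010,nat_lit 0x1100010,nat_lit 0x1000010,nat_lit 0x10000010,
    nat_lit 0x11000010],[nat_lit 512,nat_lit 0x1100,nat_lit 0x10100,nat_lit 0x1000100],[nat_lit 0x11000,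
    nat_lit 0x21000,nat_lit 0x1011000,nat_lit 0x101000,nat_lit 0x1101000,nat_lit 0x1001000,nat_lit 0x2001000,
    nat_lit 0x11001000,nat_lit 0x10001000],[nat_lit 0x20000,nat_lit 0x10020000,nat_lit 0x110000,nat_lit 0x1010000,
    nat_lit 0x10010000],[nat_lit 0x200000,nat_lit 0x10200000,nat_lit 0x1100000,nat_lit 0x11100000,nat_lit 0x10100000],
    [nat_lit 0x2000000,nat_lit 0x11000000],[nat_lit 0x20000000]]
    [.c (nat_lit 1) (nat_lit 2),.r (nat_lit 0xdb8) (nat_lit 13) [nat_lit 0x2001,nat_lit 17],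
    .r (nat_lit 0x144f) (nat_lit 5) [nat_lit 0x401,nat_lit 0x2001,nat_lit 0x3099],
    .r (nat_lit 0xdb2) (nat_lit 5) [nat_lit 0x2401,nat_lit 0x1b011],.c (nat_lit 0) (nat_lit 0x26d3),
    .r (nat_lit 0xdb2) (nat_lit 12) [nat_lit 0x2401,nat_lit 0x3699],.r (nat_lit 0xdb3) (nat_lit 12) [nat_lit 0x2401,
    nat_lit 0x3699],.r (nat_lit 0xdb3) (nat_lit 5) [nat_lit 0x2401,nat_lit 0x3699],
    .r (nat_lit 0x1644) (nat_lit 12) [nat_lit 17,nat_lit 0x44d1,nat_lit 0x3099],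
    .r (nat_lit 0x15aa) (nat_lit 12) [nat_lit 17,nat_lit 0x44d1,nat_lit 0x3099],
    .r (nat_lit 0x15de) (nat_lit 12) [nat_lit 0x44d1,nat_lit 0x3099,nat_lit 17],
    .r (nat_lit 0x15d8) (nat_lit 12) [nat_lit 17,nat_lit 0x44d1,nat_lit 0x3099],
    .r (nat_lit 0xdb8) (nat_lit 13) [nat_lit 0x2001,nat_lit 0x411],.r (nat_lit 0xdb2) (nat_lit 5) [nat_lit 0x2401,
    nat_lit 0x3699],.r (nat_lit 0x144f) (nat_lit 5) [nat_lit 0x401,nat_lit 0x2001,nat_lit 0x3699],
    .c (nat_lit 2) (nat_lit 2),.r (nat_lit 0x15df) (nat_lit 12) [nat_lit 0x4819,nat_lit 17,nat_lit 0xa11],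
    .r (nat_lit 0x1530) (nat_lit 5) [nat_lit 0x401,nat_lit 0x2001,nat_lit 0x611],
    .r (nat_lit 0xdbc) (nat_lit 5) [nat_lit 0x2401,nat_lit 0x611],.r (nat_lit 0x1616) (nat_lit 5) [nat_lit 0x401,
    nat_lit 0x2001,nat_lit 0x611],.r (nat_lit 0xdb3) (nat_lit 5) [nat_lit 0x2401,nat_lit 0x611],
    .r (nat_lit 0xdbb) (nat_lit 12) [nat_lit 0x2401,nat_lit 0x611],.r (nat_lit 0xdb2) (nat_lit 12) [nat_lit 0x2401,
    nat_lit 0x611],.r (nat_lit 0xdba) (nat_lit 8) [nat_lit 17,nat_lit 0x2001],.c (nat_lit 2) (nat_lit 130),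
    .r (nat_lit 0x15df) (nat_lit 12) [nat_lit 0x4419,nat_lit 0x411,nat_lit 0x611],.c (nat_lit 3) (nat_lit 2),
    .r (nat_lit 0x14e7) (nat_lit 7) [nat_lit 0x3011,nat_lit 0x401,nat_lit 0x2001],
    .r (nat_lit 0x14da) (nat_lit 13) [nat_lit 0x2019,nat_lit 0x2419,nat_lit 17],
    .r (nat_lit 0x161e) (nat_lit 5) [nat_lit 0x2419,nat_lit 17],.r (nat_lit 0x1542) (nat_lit 5) [nat_lit 0x401,
    nat_lit 0x2001,nat_lit 17],.r (nat_lit 0xdb2) (nat_lit 12) [nat_lit 0x2401,nat_lit 0x1b69a],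
    .r (nat_lit 0x1617) (nat_lit 5) [nat_lit 0x401,nat_lit 0x2001,nat_lit 17],
    .r (nat_lit 0x160d) (nat_lit 5) [nat_lit 0x401,nat_lit 0x2001,nat_lit 17],
    .r (nat_lit 0x144f) (nat_lit 5) [nat_lit 0x401,nat_lit 0x2001,nat_lit 17],
    .r (nat_lit 0xdbf) (nat_lit 8) [nat_lit 0x2001,nat_lit 17],.r (nat_lit 0xdb3) (nat_lit 12) [nat_lit 0x2401,
    nat_lit 0x1b69a],.r (nat_lit 0x15de) (nat_lit 12) [nat_lit 0x2019,nat_lit 0x411,nat_lit 0x3699],
    .r (nat_lit 0x1530) (nat_lit 5) [nat_lit 0x401,nat_lit 0x2001,nat_lit 17],.c (nat_lit 5) (nat_lit 2),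
    .r (nat_lit 0x1616) (nat_lit 5) [nat_lit 0x401,nat_lit 0x2001,nat_lit 17],
    .r (nat_lit 0xdb9) (nat_lit 5) [nat_lit 17,nat_lit 0x2401],.r (nat_lit 0xdbb) (nat_lit 5) [nat_lit 0x2401,
    nat_lit 17],.r (nat_lit 0xdbc) (nat_lit 5) [nat_lit 0x2401,nat_lit 17],.c (nat_lit 6) (nat_lit 2),
    .r (nat_lit 0x160f) (nat_lit 10) [nat_lit 0x3011,nat_lit 0x2001,nat_lit 0x2401],
    .r (nat_lit 0xdbd) (nat_lit 10) [nat_lit 0x2401,nat_lit 17],.r (nat_lit 0xdb2) (nat_lit 12) [nat_lit 0x2401,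
    nat_lit 17],.r (nat_lit 0xdbb) (nat_lit 12) [nat_lit 0x2401,nat_lit 17],.c (nat_lit 7) (nat_lit 2),
    .r (nat_lit 0xdba) (nat_lit 8) [nat_lit 0x411,nat_lit 0x2001],.c (nat_lit 8) (nat_lit 2)]]

/-- nodes -/
noncomputable def rD8k_36_10 : List RJ :=
  [.l (nat_lit 16) (nat_lit 0x21c0) (nat_lit 3) (nat_lit 0xdce0000104200000f0100000f01000010d200000d7800000e5000000fa000000f8200000f82000011d400000da000000f5700000f570000113c00001280) (nat_lit 0x23e000004b20000037f0000037f00000508000001ae000002e000000430000002fe000002fe000004e0000000ac00000329000003290000000000000144)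
    (nat_lit 0xb82091c0a410a4f090e0c2008e809c61434120008700a740aa50c9f0dce0c8a0e040b820c7b0cc30b820e4c0eb80d680fc00d8c08700f960d9b0cd5104208700cc30a4f0bca0b8208a30d9b0bd90a890c030aad0a650bd912660eca0f0f0d3b0c7b0a410b820bca09f90d530c210a770b490c030a210e5512f60f5a0f010dbd0e4c0c200d530d9b0c240f240df20ca20dd40dd4087010e00da90da910e008700b82090e09f908a308700c2409c009480a7a0a7a08820d2c097b09f90d500b580d6809c60a770a8909480ca20b700a200af20c2a09c60da40c030b3d0e080de00eb808e80c210bd909c00df20cc00b700ca20ca20b700ef40b250c7b08700f8a0d8c12000c030aad0a7a0dd40ca20c2a0c840c840a9e0ed60b2b0ba911880f900fc014340b490c030a7a0dd40ca20af20c840c840aa20ed60c590a71123010380f960a740e550bd90d2c10e00ef40da40ed60ed60edc11280cb10eab08701090087008700a210a65088208700b7009c60aa20a9e08c00edc0a770a770ba60c5c0cd50c9f0f5a0eca09f90da90c7b0b3d0a710ba90a770eab0c2e0c2e0fd50e130d9b0aa512f61266097b0da90b250c030c590b2b0a770cb10c2e0c2e0f570e1308700c8a0dbd0d3b0b5808700f8a0de010380f900c5c10900e130e13113c0ff810420dce0f010f0f0d5010e008700e08123011880ba608700f570fd51280113c)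
    (nat_lit 0xb8221c021c021c021c021c021c021c021c021c021c021c021c021c021c021c0091c0b8221c021c021c021c021c021c021c021c021c021c021c021c021c021c00a410c7b0bca21c021c021c021c021c021c021c021c021c021c021c021c021c00a4f0cc30b820bca21c021c021c021c021c021c021c021c021c021c021c021c0090e0b8208a309f90c2421c021c021c021c021c021c021c021c021c021c021c00c200e4c0d9b0d530f240c2421c021c021c021c021c021c021c021c021c021c008e80eb80bd90c210df209c00b7021c021c021c021c021c021c021c021c021c009c60d680a890a770ca209480a200b7021c021c021c021c021c021c021c021c013da0fc00c030b490dd40a7a0af20ca20c8421c021c021c021c021c021c021c012000d8c0aad0c030dd40a7a0c2a0ca20c840c8421c021c021c021c021c021c0087008700a650a210870088209c60b700a9e0aa20edc21c021c021c021c021c00a740f960bd90e5510e00d2c0da40ef40ed60ed611280edc21c021c021c021c00aa50d9b126612f60da9097b0c030b250b2b0c590cb10a770c2e21c021c021c00c9f0cd50eca0f5a0da909f90b3d0c7b0ba90a710eab0a770c2e0c2e21c021c00dce10420f0f0f0110e00d500e0808701188123008700ba60fd50f57113c21c00c8a08700d3b0dbd08700b580de00f8a0f90103810900c5c0e130e130ff8113c)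
    (nat_lit 3) (nat_lit 43)
    [[nat_lit 17,nat_lit 257,nat_lit 273,nat_lit 0x100101,nat_lit 0x1000101,nat_lit 0x10000101,nat_lit 0x10001,
    nat_lit 0x110001,nat_lit 0x10010001,nat_lit 0x1010001,nat_lit 0x100001,nat_lit 0x1000001,nat_lit 0x1100001,
    nat_lit 0x10000001],[nat_lit 32,nat_lit 272,nat_lit 0x100110,nat_lit 0x1010,nat_lit 0x10010,nat_lit 0x100010,
    nat_lit 0x10000010],[nat_lit 512,nat_lit 0x1100,nat_lit 0x10100,nat_lit 0x100100,nat_lit 0x110100,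
    nat_lit 0x1100100,nat_lit 0x10100100,nat_lit 0x1000100,nat_lit 0x11000100,nat_lit 0x10000100,nat_lit 0x20000100,
    nat_lit 0x10010100],[nat_lit 0x2000,nat_lit 0x11000,nat_lit 0x10011000,nat_lit 0x101000,nat_lit 0x1001000],
    [nat_lit 0x20000,nat_lit 0x110000,nat_lit 0x1110000,nat_lit 0x1010000,nat_lit 0x10010000,nat_lit 0x10110000,
    nat_lit 0x11010000,nat_lit 0x20010000],[nat_lit 0x200000,nat_lit 0x1100000,nat_lit 0x11100000,nat_lit 0x10100000],
    [nat_lit 0x2000000,nat_lit 0x11000000],[nat_lit 0x20000000]]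
    [.r (nat_lit 0xdbc) (nat_lit 11) [nat_lit 17,nat_lit 0x12419],.c (nat_lit 0) (nat_lit 0x3613),
    .r (nat_lit 0xdb6) (nat_lit 13) [nat_lit 0x10001,nat_lit 0x18099],.c (nat_lit 0) (nat_lit 0x3613),
    .r (nat_lit 0xdb5) (nat_lit 11) [nat_lit 0x10401,nat_lit 0x18099],
    .r (nat_lit 0x162c) (nat_lit 13) [nat_lit 0x2001,nat_lit 0x120d1,nat_lit 0x124d1,nat_lit 0x2d719],
    .c (nat_lit 0) (nat_lit 0x3613),.c (nat_lit 0) (nat_lit 0x3613),.r (nat_lit 0x1290) (nat_lit 11) [nat_lit 0x401,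
    nat_lit 0x2001,nat_lit 0x10001,nat_lit 0x611],.r (nat_lit 0x15d4) (nat_lit 6) [nat_lit 0x2001,nat_lit 0x10001,
    nat_lit 0x10401,nat_lit 0x1b611],.c (nat_lit 0) (nat_lit 0x3613),.r (nat_lit 0xdbb) (nat_lit 8) [nat_lit 0x611,
    nat_lit 0x12419],.r (nat_lit 0x1595) (nat_lit 7) [nat_lit 0x10419,nat_lit 0x18099,nat_lit 17],
    .c (nat_lit 1) (nat_lit 130),.c (nat_lit 2) (nat_lit 2),.r (nat_lit 0xdb8) (nat_lit 11) [nat_lit 0x10401,
    nat_lit 17],.r (nat_lit 0x15d4) (nat_lit 6) [nat_lit 0x2001,nat_lit 0x10001,nat_lit 0x10401,nat_lit 0x2b699],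
    .r (nat_lit 0xdbb) (nat_lit 8) [nat_lit 0x12019,nat_lit 17],.r (nat_lit 0xdba) (nat_lit 11) [nat_lit 0x10401,
    nat_lit 17],.r (nat_lit 0xdc1) (nat_lit 13) [nat_lit 17,nat_lit 0x10001],
    .r (nat_lit 0xdbc) (nat_lit 11) [nat_lit 0x411,nat_lit 0x12019],.c (nat_lit 3) (nat_lit 2),
    .r (nat_lit 0x161e) (nat_lit 14) [nat_lit 0x18011,nat_lit 0x10001],.c (nat_lit 0) (nat_lit 0x36d3),
    .c (nat_lit 0) (nat_lit 0x36d3),.c (nat_lit 0) (nat_lit 0x3613),.r (nat_lit 0xdb7) (nat_lit 13) [nat_lit 0x10001,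
    nat_lit 17],.c (nat_lit 0) (nat_lit 0x36d3),.r (nat_lit 0xdbe) (nat_lit 8) [nat_lit 17,nat_lit 0x10001],
    .r (nat_lit 0xdb5) (nat_lit 11) [nat_lit 0x10401,nat_lit 0x18699],.c (nat_lit 0) (nat_lit 0x36d3),
    .r (nat_lit 0x162c) (nat_lit 13) [nat_lit 0x2001,nat_lit 0x124d1,nat_lit 0x128d1,nat_lit 0x2db19],
    .c (nat_lit 0) (nat_lit 0x36d3),.c (nat_lit 4) (nat_lit 2),.r (nat_lit 0xdbc) (nat_lit 3) [nat_lit 17,
    nat_lit 0x2001],.c (nat_lit 0) (nat_lit 0x3002),.r (nat_lit 0x1641) (nat_lit 13) [nat_lit 0x10019,nat_lit 0x10419,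
    nat_lit 17],.r (nat_lit 0xdbc) (nat_lit 11) [nat_lit 0x12419,nat_lit 17],.c (nat_lit 5) (nat_lit 2),
    .c (nat_lit 0) (nat_lit 0x36d3),.r (nat_lit 0xdb6) (nat_lit 13) [nat_lit 0x10001,nat_lit 17],
    .r (nat_lit 0x15b0) (nat_lit 15) [nat_lit 0x2019,nat_lit 0x10401,nat_lit 0x10001,nat_lit 17],
    .c (nat_lit 0) (nat_lit 0x36d3),.c (nat_lit 0) (nat_lit 0x36d3),.r (nat_lit 0x15d4) (nat_lit 6) [nat_lit 0x2001,
    nat_lit 0x10001,nat_lit 0x10401,nat_lit 0x1b011],.r (nat_lit 0x1290) (nat_lit 11) [nat_lit 0x401,nat_lit 0x2001,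
    nat_lit 0x10001,nat_lit 17],.c (nat_lit 6) (nat_lit 2),.r (nat_lit 0xdbc) (nat_lit 10) [nat_lit 17,
    nat_lit 0x10401],.r (nat_lit 0x1595) (nat_lit 7) [nat_lit 0x10019,nat_lit 0x18699,nat_lit 0x411],
    .c (nat_lit 0) (nat_lit 0x36d3),.c (nat_lit 7) (nat_lit 2),.r (nat_lit 0xdbb) (nat_lit 8) [nat_lit 17,
    nat_lit 0x12019],.c (nat_lit 8) (nat_lit 2)],
    .l (nat_lit 12) (nat_lit 720) (nat_lit 3) (nat_lit 0x12900000129000001260000012600000129000001290000012900000129000001350000013500000138000001380000015e0000015e0000014100000141) (nat_lit 0x35000000350000003800000038000000350000003500000035000000350000002900000029000000260000002600000000000000000000001d0000001d)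
    (nat_lit 0xfa0f40f10f10f40f40f40ee1001000b512712312910c0dc0f40fa0f10f10f40ee0f40f410010011b12112912910c10c0f10f10f40ee0f10f10f10f10df0fd10010012610e1031090f10f10f40f40f10f10f10f10fd0fd1000f41261261091090ee0f40f10f10f40ee0f40f410c10010310312912910c10c0f40f40f10f10f40f40f40f41121000eb1031291291120dc0f40ee0f10f10f40f40f40f41001001030f115914110c10c0f40f40f10f10f40f40f40f411e10010310f18f17710c10c1001000fd0fd10010010010010010c0c10f11351351180b21001000fd0df11210c11e10011e10010f10f1350df0f41181211270f410010310310f0f110f0f116810013813811b11b11b0b51001000eb10310310310f0c11d016811a13811b11b12912912610e1291291771410df13513813815e0a018f15f12912312612612912918f15913513511a13815e15e17114110c0dc1091090dc10c10c10c1180b211b11b14115f12a12410c10c10910311210c10c10c0f411811b11b17118f12412a)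
    (nat_lit 0xfa2d02d02d02d02d02d02d02d02d02d02d02d02d02d02d00f40fa2d02d02d02d02d02d02d02d02d02d02d02d02d02d00f10f10f42d02d02d02d02d02d02d02d02d02d02d02d02d00f10f10ee0f42d02d02d02d02d02d02d02d02d02d02d02d00f40f40f10f10f42d02d02d02d02d02d02d02d02d02d02d00f40ee0f10f10ee0f42d02d02d02d02d02d02d02d02d02d00f40f40f10f10f40f40f42d02d02d02d02d02d02d02d02d00ee0f40f10f10f40f40f40f42d02d02d02d02d02d02d02d01001000df0fd10c11210011e1002d02d02d02d02d02d02d01001000fd0fd10010010010010c1002d02d02d02d02d02d00b511b1001001030eb1031030c110f1682d02d02d02d02d01271211000f41031030f110f0f110f1001682d02d02d02d012312912612612912915918f13513513811a15e2d02d02d012912910e1261291291411771350df1381380a015e2d02d010c10c10310910c11210c10c1180f411b11b18f17112a2d00dc10c10910910c0dc10c10c0b211811b11b15f14112412a)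
    (nat_lit 3) (nat_lit 47)
    [[nat_lit 2,nat_lit 257,nat_lit 0x1001,nat_lit 0x2001,nat_lit 0x10001,nat_lit 0x11001,nat_lit 0x100001,
    nat_lit 0x1000001,nat_lit 0x1001001,nat_lit 0x10000001,nat_lit 0x10001001],[nat_lit 32,nat_lit 272,nat_lit 0x1010,
    nat_lit 0x100010,nat_lit 0x1000010,nat_lit 0x10000010],[nat_lit 0x1100,nat_lit 0x1001100,nat_lit 0x10100,
    nat_lit 0x100100,nat_lit 0x1000100,nat_lit 0x10000100,nat_lit 0x10001100,nat_lit 0x10010100,nat_lit 0x10100100,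
    nat_lit 0x11000100],[nat_lit 0x2000,nat_lit 0x11000,nat_lit 0x101000,nat_lit 0x1001000,nat_lit 0x10001000],
    [nat_lit 0x20000,nat_lit 0x110000,nat_lit 0x1010000,nat_lit 0x10010000],[nat_lit 0x200000,nat_lit 0x1100000,
    nat_lit 0x10100000],[nat_lit 0x2000000,nat_lit 0x11000000],[nat_lit 0x20000000]]
    [.c (nat_lit 1) (nat_lit 2),.r (nat_lit 0x1471) (nat_lit 1) [nat_lit 0x601,nat_lit 17,nat_lit 0x2401],
    .r (nat_lit 0xdba) (nat_lit 11) [nat_lit 17,nat_lit 0x2001],.r (nat_lit 0x1482) (nat_lit 3) [nat_lit 0x3611,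
    nat_lit 0x2001,nat_lit 0x2401,nat_lit 0x12001],.c (nat_lit 1) (nat_lit 130),
    .r (nat_lit 0x1512) (nat_lit 15) [nat_lit 0x1b099,nat_lit 0x2419,nat_lit 17],
    .r (nat_lit 0xdb5) (nat_lit 10) [nat_lit 17,nat_lit 0x12001],.r (nat_lit 0xdbb) (nat_lit 15) [nat_lit 0x2401,
    nat_lit 0x611],.r (nat_lit 0xdb3) (nat_lit 15) [nat_lit 0x2401,nat_lit 0x611],
    .r (nat_lit 0xdb2) (nat_lit 11) [nat_lit 0x2401,nat_lit 0x1b099],.r (nat_lit 0xdb5) (nat_lit 10) [nat_lit 0x1b499,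
    nat_lit 0x12001],.c (nat_lit 2) (nat_lit 2),.c (nat_lit 0) (nat_lit 0x2403),
    .r (nat_lit 0x154a) (nat_lit 1) [nat_lit 0x601,nat_lit 0x3611,nat_lit 0x2401],
    .r (nat_lit 0x161e) (nat_lit 11) [nat_lit 0x2419,nat_lit 17],.c (nat_lit 0) (nat_lit 0x2403),
    .r (nat_lit 0x1547) (nat_lit 15) [nat_lit 0x144d1,nat_lit 0x18499,nat_lit 0x1d691],
    .r (nat_lit 0xdb8) (nat_lit 5) [nat_lit 0x2001,nat_lit 17],.r (nat_lit 0xdba) (nat_lit 11) [nat_lit 0x18411,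
    nat_lit 0x2001],.r (nat_lit 0x1471) (nat_lit 1) [nat_lit 0x601,nat_lit 0x411,nat_lit 0x2401],
    .r (nat_lit 0xdba) (nat_lit 5) [nat_lit 0x2001,nat_lit 17],.c (nat_lit 0) (nat_lit 0x20c3),
    .r (nat_lit 0xdb8) (nat_lit 13) [nat_lit 17,nat_lit 0x2401],.r (nat_lit 0xdb2) (nat_lit 15) [nat_lit 0x2401,
    nat_lit 0x3699],.r (nat_lit 0xdb3) (nat_lit 11) [nat_lit 0x2401,nat_lit 0x3699],
    .r (nat_lit 0xdb3) (nat_lit 15) [nat_lit 0x2401,nat_lit 0x3699],.r (nat_lit 0xdb2) (nat_lit 11) [nat_lit 0x2401,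
    nat_lit 0x3699],.c (nat_lit 4) (nat_lit 2),.r (nat_lit 0xdba) (nat_lit 11) [nat_lit 0x411,nat_lit 0x2001],
    .r (nat_lit 0xdbb) (nat_lit 11) [nat_lit 0x2401,nat_lit 17],.r (nat_lit 0xdbc) (nat_lit 11) [nat_lit 0x2401,
    nat_lit 17],.r (nat_lit 0xdb7) (nat_lit 3) [nat_lit 17,nat_lit 0x12001],.c (nat_lit 5) (nat_lit 2),
    .r (nat_lit 0xdb5) (nat_lit 10) [nat_lit 0x411,nat_lit 0x12001],.r (nat_lit 0xdbb) (nat_lit 15) [nat_lit 0x2401,
    nat_lit 17],.r (nat_lit 0xdb2) (nat_lit 11) [nat_lit 0x2401,nat_lit 0x1b699],.c (nat_lit 6) (nat_lit 2),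
    .r (nat_lit 0xdb9) (nat_lit 10) [nat_lit 0x2401,nat_lit 17],.r (nat_lit 0x1512) (nat_lit 15) [nat_lit 17,
    nat_lit 0x144d1,nat_lit 0x1b099],.c (nat_lit 7) (nat_lit 2),.r (nat_lit 0xdbc) (nat_lit 8) [nat_lit 17,
    nat_lit 0x2001],.c (nat_lit 8) (nat_lit 2)],
    .l (nat_lit 10) (nat_lit 240) (nat_lit 3) (nat_lit 0x78000000780000006700000067000000650000006500000064000000640000006400000064000000670000006700000069000000690000006a0000006a) (nat_lit 0x110000001100000013000000130000001400000014000000140000001400000011000000110000000f0000000f0000000e0000000e)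
    (nat_lit 0x1e07819c4b19465190641906019c671d4771a86a1e078194671945f1906419064184671e47b2188619c4b170561505614c5314c53110560f05e16449194671585c158541444d144511705c168581645917c65150561605214c4f12c53150561585015c55194651585414858134511544d158581485615c5719064134531444f150501305414c4f154531585a19064144531345314054150501544b1544f1685619060144531345314054160501644f154531585619064144531544b1504c1405814c53154551585619c67170561605612c4f14c4f1585616058164591846717044158541545314c59158561605812c571ec771605e1585013c5315453160581705a16c5b1e4751683c148561545515455160581685c16c5b2186a1644915c551585a1585615c5916c5b1405c2186a1645915c57168561585612c5916c5b17050)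
    (nat_lit 0x1e0f03c0f03c0f03c0f03c0f03c0f03c0f03c0f01e0783c0f03c0f03c0f03c0f03c0f03c0f03c0f019c65170f03c0f03c0f03c0f03c0f03c0f03c0f012c671585c3c0f03c0f03c0f03c0f03c0f03c0f01946515056160f03c0f03c0f03c0f03c0f03c0f01945f15854148583c0f03c0f03c0f03c0f03c0f01906414c5114c4d150f03c0f03c0f03c0f03c0f01906414c4d13c51140543c0f03c0f03c0f03c0f01906414c5112c5513054160f03c0f03c0f03c0f01806414c5114c4d15050140583c0f03c0f03c0f019c611105c1505614c5516453158f03c0f03c0f019c671585c1585813c4b13c53158563c0f03c0f01d4790f05a15852154551545516058170f03c0f01dc7b178581405614c4f14c55160581685c3c0f01a8861645915c571585a158561644b16c5b140f01a886124591545716856158561645716c5b17050)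
    (nat_lit 3) (nat_lit 27)
    [[nat_lit 2,nat_lit 17,nat_lit 257,nat_lit 0x1001,nat_lit 0x10001,nat_lit 0x100001,nat_lit 0x1000001],[nat_lit 32,
    nat_lit 272,nat_lit 0x1010,nat_lit 0x10010,nat_lit 0x100010,nat_lit 0x1000010,nat_lit 0x1001010,nat_lit 0x1010010,
    nat_lit 0x1100010],[nat_lit 512,nat_lit 0x1100,nat_lit 0x10100,nat_lit 0x100100,nat_lit 0x1000100,
    nat_lit 0x1001100,nat_lit 0x1010100,nat_lit 0x10000100],[nat_lit 0x2000,nat_lit 0x11000,nat_lit 0x111000,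
    nat_lit 0x101000,nat_lit 0x1001000,nat_lit 0x10001000],[nat_lit 0x20000,nat_lit 0x110000,nat_lit 0x1010000,
    nat_lit 0x10010000],[nat_lit 0x200000,nat_lit 0x1100000,nat_lit 0x10100000],[nat_lit 0x2000000,
    nat_lit 0x11000000],[]]
    [.c (nat_lit 1) (nat_lit 2),.c (nat_lit 0) (nat_lit 0x483),.r (nat_lit 0xdb4) (nat_lit 11) [nat_lit 17,
    nat_lit 0x10001],.r (nat_lit 0x1647) (nat_lit 13) [nat_lit 0x419,nat_lit 17,nat_lit 0x2419],
    .r (nat_lit 0xdb6) (nat_lit 11) [nat_lit 17,nat_lit 0x10419],.c (nat_lit 0) (nat_lit 0x483),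
    .r (nat_lit 0x1547) (nat_lit 9) [nat_lit 0x28d1,nat_lit 0x3099,nat_lit 0x3a91],.c (nat_lit 2) (nat_lit 2),
    .c (nat_lit 0) (nat_lit 0x30d3),.c (nat_lit 0) (nat_lit 0x30d3),.r (nat_lit 0x1554) (nat_lit 5) [nat_lit 0x401,
    nat_lit 0x18011,nat_lit 0x10001],.c (nat_lit 0) (nat_lit 0x483),.r (nat_lit 0xdb8) (nat_lit 8) [nat_lit 17,
    nat_lit 0x401],.r (nat_lit 0xdb3) (nat_lit 13) [nat_lit 0x401,nat_lit 0x699],
    .r (nat_lit 0xdb3) (nat_lit 9) [nat_lit 0x401,nat_lit 0x699],.r (nat_lit 0xdb2) (nat_lit 13) [nat_lit 0x401,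
    nat_lit 0x699],.c (nat_lit 3) (nat_lit 2),.c (nat_lit 0) (nat_lit 0x30d3),
    .r (nat_lit 0xdbb) (nat_lit 13) [nat_lit 0x401,nat_lit 17],.r (nat_lit 0xdbc) (nat_lit 13) [nat_lit 0x401,
    nat_lit 17],.r (nat_lit 0xdb7) (nat_lit 14) [nat_lit 17,nat_lit 0x2401],
    .r (nat_lit 0xdb5) (nat_lit 6) [nat_lit 0x3699,nat_lit 0x2401],.r (nat_lit 0xdb6) (nat_lit 13) [nat_lit 0x3699,
    nat_lit 0x10001],.r (nat_lit 0x144f) (nat_lit 9) [nat_lit 0x419,nat_lit 17,nat_lit 0x3699],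
    .c (nat_lit 4) (nat_lit 2),.r (nat_lit 0xdbd) (nat_lit 13) [nat_lit 17,nat_lit 0x401],
    .r (nat_lit 0xdb2) (nat_lit 9) [nat_lit 0x401,nat_lit 17],.r (nat_lit 0xdbb) (nat_lit 9) [nat_lit 0x401,
    nat_lit 17],.r (nat_lit 0x15ea) (nat_lit 9) [nat_lit 17,nat_lit 0x28d1,nat_lit 0x3699],
    .r (nat_lit 0xdb6) (nat_lit 13) [nat_lit 17,nat_lit 0x10001],.c (nat_lit 5) (nat_lit 2),
    .c (nat_lit 0) (nat_lit 0x2003),.c (nat_lit 0) (nat_lit 0x2003),.r (nat_lit 0xdb5) (nat_lit 6) [nat_lit 17,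
    nat_lit 0x2401],.c (nat_lit 6) (nat_lit 2),.c (nat_lit 0) (nat_lit 0x2003),
    .r (nat_lit 0xdb4) (nat_lit 10) [nat_lit 17,nat_lit 0x18681],.c (nat_lit 7) (nat_lit 2),
    .r (nat_lit 0xdb2) (nat_lit 13) [nat_lit 0x401,nat_lit 0x3699]]]

/-- nodes -/
noncomputable def rD8k_36_11 : List RJ :=
  [.l (nat_lit 10) (nat_lit 240) (nat_lit 3) (nat_lit 0x780000007800000064000000640000006400000064000000630000006300000066000000660000006f0000006f00000068000000680000006700000067) (nat_lit 0x1400000014000000140000001400000015000000150000001200000012000000090000000900000010000000100000001100000011)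
    (nat_lit 0x1e078190641906416c630c8662047f1a03819c671e078190641886216c631b8661c46f1806819c6119064148501405013c511485a16c531685214c5b19064140521405014c4f1485016c5b1505414c511886414050140501444f1484e16c5b1585414c531886414050140501444f1484e16c5b1605414c5518c6313c5113c4f1484e1444f1685a144531484e16c5b14c4f144511485214c511485613c5314852198661405a1384e1444f160501745b1585e174591b832148521485214c51150581745d148561145b1bc7f16c5316c5b1585a1745b198661645f248621c48116c5b16c5b1485a1745d1986617c5f2385e1a038150521505414c531585e17c5f1605811457180681505a1605613c511485617c591605815c57184671445b154531484e16c591786215c571585619c6714c5314c53148521145d2389215c4515856)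
    (nat_lit 0x1e0f03c0f03c0f03c0f03c0f03c0f03c0f03c0f01e0783c0f03c0f03c0f03c0f03c0f03c0f03c0f019064148f03c0f03c0f03c0f03c0f03c0f03c0f019064140523c0f03c0f03c0f03c0f03c0f03c0f01906214050140f03c0f03c0f03c0f03c0f03c0f01906214050140503c0f03c0f03c0f03c0f03c0f016c5b13c5314451148f03c0f03c0f03c0f03c0f018c631444f13c4f138523c0f03c0f03c0f03c0f00c86e148521485214453160f03c0f03c0f03c0f019866168501384e13c51140583c0f03c0f03c0f02047116c5b16c5b168521745d198f03c0f03c0f01fc6f14c5b16c5b1685616c5d198663c0f03c0f01a06016854158581444f158521645f160f03c0f00e068148541505414c531785617c5f160583c0f019c6714c5314c5314852174452488e11457158f019c6116c5114c55138521645b1885e15c5715856)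
    (nat_lit 3) (nat_lit 37)
    [[nat_lit 2,nat_lit 17,nat_lit 0x10011,nat_lit 0x1001,nat_lit 0x11001,nat_lit 0x101001,nat_lit 0x10001,
    nat_lit 0x100001,nat_lit 0x1000001,nat_lit 0x10000001],[nat_lit 32,nat_lit 272,nat_lit 0x1010,nat_lit 0x10010,
    nat_lit 0x10010010,nat_lit 0x100010,nat_lit 0x1000010,nat_lit 0x10000010],[nat_lit 512,nat_lit 0x1100,
    nat_lit 0x10100,nat_lit 0x100100,nat_lit 0x1000100],[nat_lit 0x2000,nat_lit 0x11000,nat_lit 0x101000,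
    nat_lit 0x1001000,nat_lit 0x10001000,nat_lit 0x10011000,nat_lit 0x10101000,nat_lit 0x11001000],[nat_lit 0x20000,
    nat_lit 0x110000,nat_lit 0x1010000,nat_lit 0x1110000,nat_lit 0x10010000],[nat_lit 0x200000,nat_lit 0x1100000,
    nat_lit 0x10100000],[nat_lit 0x2000000,nat_lit 0x11000000],[]]
    [.c (nat_lit 1) (nat_lit 2),.c (nat_lit 0) (nat_lit 0x2083),.r (nat_lit 0x14fa) (nat_lit 11) [nat_lit 0x401,
    nat_lit 0x2001,nat_lit 0x611],.r (nat_lit 0xdba) (nat_lit 13) [nat_lit 0x2001,nat_lit 17],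
    .r (nat_lit 0xdb7) (nat_lit 14) [nat_lit 0x18099,nat_lit 0x10401],.r (nat_lit 0xdc2) (nat_lit 13) [nat_lit 0x2001,
    nat_lit 0x3099],.r (nat_lit 0xdb5) (nat_lit 6) [nat_lit 0x611,nat_lit 0x10401],.c (nat_lit 0) (nat_lit 0x2083),
    .r (nat_lit 0xdb2) (nat_lit 4) [nat_lit 0x611,nat_lit 0x18099],.c (nat_lit 1) (nat_lit 130),
    .c (nat_lit 2) (nat_lit 2),.r (nat_lit 0x1160) (nat_lit 12) [nat_lit 0x1a011,nat_lit 0x13011,nat_lit 0x12819,
    nat_lit 0x12019],.r (nat_lit 0x150f) (nat_lit 12) [nat_lit 17,nat_lit 0x44d1,nat_lit 0x3099],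
    .r (nat_lit 0x14b2) (nat_lit 12) [nat_lit 17,nat_lit 0x44d1,nat_lit 0x3099],
    .r (nat_lit 0x14fa) (nat_lit 11) [nat_lit 0x401,nat_lit 0x2001,nat_lit 17],.c (nat_lit 0) (nat_lit 0x2083),
    .r (nat_lit 0xdba) (nat_lit 8) [nat_lit 17,nat_lit 0x2001],.c (nat_lit 0) (nat_lit 0x2003),
    .c (nat_lit 3) (nat_lit 2),.r (nat_lit 0x11b9) (nat_lit 11) [nat_lit 0x401,nat_lit 0x3011,nat_lit 0x2001,
    nat_lit 0x10001],.r (nat_lit 0x14ea) (nat_lit 1) [nat_lit 0x3011,nat_lit 0x2001,nat_lit 0x18699],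
    .r (nat_lit 0x1643) (nat_lit 13) [nat_lit 0x2019,nat_lit 0x2419,nat_lit 17],
    .r (nat_lit 0xdb7) (nat_lit 14) [nat_lit 17,nat_lit 0x10401],.c (nat_lit 4) (nat_lit 2),
    .c (nat_lit 0) (nat_lit 0x36d3),.r (nat_lit 0x1505) (nat_lit 11) [nat_lit 0x401,nat_lit 0x2001,nat_lit 17],
    .c (nat_lit 0) (nat_lit 0x36d3),.r (nat_lit 0xdba) (nat_lit 13) [nat_lit 0x2001,nat_lit 0x411],
    .r (nat_lit 0xdb7) (nat_lit 14) [nat_lit 0x18699,nat_lit 0x10401],.r (nat_lit 0xdc2) (nat_lit 13) [nat_lit 0x2001,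
    nat_lit 0x3699],.r (nat_lit 0x14ea) (nat_lit 1) [nat_lit 0x1b699,nat_lit 0x2001,nat_lit 17],
    .c (nat_lit 5) (nat_lit 2),.r (nat_lit 0xdbb) (nat_lit 2) [nat_lit 17,nat_lit 0x2401],
    .c (nat_lit 0) (nat_lit 0x36d3),.r (nat_lit 0xdb4) (nat_lit 11) [nat_lit 0x2401,nat_lit 17],
    .r (nat_lit 0xdb5) (nat_lit 6) [nat_lit 17,nat_lit 0x10401],.c (nat_lit 6) (nat_lit 2),
    .r (nat_lit 0xdbb) (nat_lit 10) [nat_lit 17,nat_lit 0x2401],.c (nat_lit 0) (nat_lit 0x2003),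
    .c (nat_lit 7) (nat_lit 2),.r (nat_lit 0xdb2) (nat_lit 4) [nat_lit 17,nat_lit 0x18699]],
    .l (nat_lit 15) (nat_lit 0x1680) (nat_lit 3) (nat_lit 0xad100000ad100000b4300000b4300000b5500000b5500000ece00000ece00000b5200000b5200000b3700000b3700000b1900000b1900000b1900000b19) (nat_lit 0x3fd000003fd0000038b0000038b000003790000037900000000000000000000037c0000037c0000039700000397000003b5000003b5000003b5000003b5)
    (nat_lit 0xd901a003c1079a0e981cd05838b250eaa1dcc3d3078e0cb81b8038e06380da81b203a307460eb01d605ad8b790eaa1d0c3a907760d481c70364071c0e8c1e683dc07b80e441f285aa8b430f161cf43d607ac0f1c1dd83cd08060e8c1e083dc07b80f941f2859e8b2b0f5e1f1c3d607940f041e083d907fa0eb01cd03e507ca0fe81f705aa8b550fe21f7c3e507d60e681e803b207ac0eb01d303e507220fe81fd05aa8b5510121fdc3df07ca0e681df03a6075816f22c945958b4316aa2d547580eb6168c2d485ad8b0716c22c645928b8516b62c1c59e8b5516aa2d547670eb016682d485bc8b2516ce2c7c57d8b5b0e861dcc3e3873d0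fee1f7c5a90b520fd01f583da87d90eb61d6c3b3874f0eaa1d543d7878b10121fc459a0b460fac1fa03d787bb0f3a1e743a4879d0eec1e383ca07ac0f941f585928b070f761f643d007a00f041e383c107820ea41e983d607ac0f7c1f285bc8b5b0f5e1ed43be07a00f041e083df075e0e381b803c107760ef81e8058f8b190f3a1d6c3c1078e0f101e2037c07640d4819703c1078e0e681cd05b38b610f3a1d6c3c107820f101e2042407640e3818e03fd08060eb01eb05ad8b850f3a1d3c3af07820ec81d9041207400d901c703d9079a0e981d9057d8b250e921d9c3df078210901be03dc0824)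
    (nat_lit 0xd905a00b4016802d005a00b4016802d005a00b4016802d005a00b4016800d001b20b4016802d005a00b4016802d005a00b4016802d005a00b4016800f041d183dc16802d005a00b4016802d005a00b4016802d005a00b4016800f341d183dc07b82d005a00b4016802d005a00b4016802d005a00b4016800e981d6039107ca0fe85a00b4016802d005a00b4016802d005a00b4016800e681d603e507ca0fb81fd0b4016802d005a00b4016802d005a00b401680160e2d6c5aa8b3d16aa2d5475816802d005a00b4016802d005a00b401680164a2de45a18b2b16aa2d5475b0eb02d005a00b4016802d005a00b4016800eaa1d543c587af0fe220245a30b340fd05a00b4016802d005a00b4016800ee61d0c39e87c70fbe1fdc5a90b520fac1fa0b4016802d005a00b4016800f4c1d483d607ac0f941ef85ad8b790f6a1ebc3d016802d005a00b4016800f1c1dd83d607940fac1f285838b250fb21eec3d007a02d005a00b4016800cb81a903c707820e681cd05b08b670eb61e743c107820f105a00b4016800dc01c703bb07820f401df058c8b1f0eb61e743c707820f101e20b4016800e381b203cd07b20ec81d305928afb0ece1d243c107be0df0212041216800c701c7040307fa0f581d605c28b5b0e9e1e743c1075e0ec81d903a00824)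
    (nat_lit 3) (nat_lit 86)
    [[nat_lit 2,nat_lit 0x10000002,nat_lit 17,nat_lit 33,nat_lit 273,nat_lit 0x1011,nat_lit 0x100011,
    nat_lit 0x10000011,nat_lit 257,nat_lit 0x10000101,nat_lit 0x1001,nat_lit 0x1002,nat_lit 0x10001001,
    nat_lit 0x100001,nat_lit 0x100002,nat_lit 0x10100001,nat_lit 0x1000001,nat_lit 0x11000001,nat_lit 0x10000001,
    nat_lit 0x20000001],[nat_lit 32,nat_lit 0x100020,nat_lit 0x10000020,nat_lit 272,nat_lit 0x10000110,nat_lit 0x1010,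
    nat_lit 0x1001010,nat_lit 0x10001010,nat_lit 0x100010,nat_lit 0x1100010,nat_lit 0x10100010,nat_lit 0x1000010,
    nat_lit 0x11000010,nat_lit 0x10000010,nat_lit 0x20000010],[nat_lit 512,nat_lit 0x1100,nat_lit 0x100100,
    nat_lit 0x10100100,nat_lit 0x1000100,nat_lit 0x10000100,nat_lit 0x20000100],[nat_lit 0x2000,nat_lit 0x101000,
    nat_lit 0x1001000,nat_lit 0x11001000,nat_lit 0x10001000,nat_lit 0x20001000],[],[nat_lit 0x200000,
    nat_lit 0x1100000,nat_lit 0x11100000,nat_lit 0x10100000,nat_lit 0x20100000],[nat_lit 0x2000000,nat_lit 0x11000000,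
    nat_lit 0x21000000],[nat_lit 0x20000000,nat_lit 0x30000000]]
    [.c (nat_lit 1) (nat_lit 2),.r (nat_lit 0x15a9) (nat_lit 6) [nat_lit 0x23819,nat_lit 0x2a11,nat_lit 0x2011],
    .c (nat_lit 1) (nat_lit 0x682),.r (nat_lit 0x15a9) (nat_lit 6) [nat_lit 0x22419,nat_lit 0x3611,nat_lit 0x3411],
    .r (nat_lit 0x1595) (nat_lit 6) [nat_lit 0x10419,nat_lit 0x18099,nat_lit 0x611],
    .r (nat_lit 0xdb5) (nat_lit 5) [nat_lit 0x12001,nat_lit 0x18099],.r (nat_lit 0xdb5) (nat_lit 6) [nat_lit 0x10001,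
    nat_lit 17],.r (nat_lit 0x15a9) (nat_lit 6) [nat_lit 0x20419,nat_lit 0x611,nat_lit 0x411],
    .r (nat_lit 0xdbc) (nat_lit 5) [nat_lit 0x2611,nat_lit 0x10001],.r (nat_lit 0x1595) (nat_lit 6) [nat_lit 0x13419,
    nat_lit 0x1b099,nat_lit 0x2611],.r (nat_lit 0xdbe) (nat_lit 13) [nat_lit 0x611,nat_lit 0x10401],
    .r (nat_lit 0xdb5) (nat_lit 5) [nat_lit 0x12001,nat_lit 0x1b499],.r (nat_lit 0xdb5) (nat_lit 5) [nat_lit 0x12001,
    nat_lit 0x1b099],.r (nat_lit 0xdbe) (nat_lit 11) [nat_lit 0x10401,nat_lit 0x2611],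
    .r (nat_lit 0xdb5) (nat_lit 6) [nat_lit 0x10001,nat_lit 0x2611],.r (nat_lit 0xdb5) (nat_lit 6) [nat_lit 0x10001,
    nat_lit 0x2011],.r (nat_lit 0xdbc) (nat_lit 8) [nat_lit 0x611,nat_lit 0x12001],
    .r (nat_lit 0x1595) (nat_lit 1) [nat_lit 0x10419,nat_lit 0x1b099,nat_lit 0x2611],.c (nat_lit 1) (nat_lit 130),
    .r (nat_lit 0x15a9) (nat_lit 6) [nat_lit 0x23419,nat_lit 0x2611,nat_lit 0x2411],.c (nat_lit 2) (nat_lit 2),
    .r (nat_lit 0xdb5) (nat_lit 6) [nat_lit 0x10001,nat_lit 0x3411],.r (nat_lit 0x15a9) (nat_lit 6) [nat_lit 0x22019,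
    nat_lit 0x3011,nat_lit 0x3811],.r (nat_lit 0xdbc) (nat_lit 5) [nat_lit 17,nat_lit 0x10001],
    .r (nat_lit 0x1595) (nat_lit 6) [nat_lit 0x10019,nat_lit 0x18699,nat_lit 17],
    .r (nat_lit 0xdbe) (nat_lit 13) [nat_lit 0x3011,nat_lit 0x10401],.r (nat_lit 0xdb7) (nat_lit 11) [nat_lit 0x10401,
    nat_lit 0x3011],.r (nat_lit 0xdb5) (nat_lit 5) [nat_lit 0x12001,nat_lit 0x18699],
    .r (nat_lit 0xdbe) (nat_lit 11) [nat_lit 0x10401,nat_lit 17],.r (nat_lit 0xdb7) (nat_lit 6) [nat_lit 0x10401,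
    nat_lit 0x18699],.r (nat_lit 0xdb5) (nat_lit 6) [nat_lit 0x10001,nat_lit 0x411],
    .r (nat_lit 0xdbc) (nat_lit 8) [nat_lit 0x3011,nat_lit 0x12001],.r (nat_lit 0x1595) (nat_lit 1) [nat_lit 0x12019,
    nat_lit 0x18699,nat_lit 17],.c (nat_lit 1) (nat_lit 0x702),.r (nat_lit 0x15a9) (nat_lit 6) [nat_lit 0x20019,
    nat_lit 17,nat_lit 0x811],.c (nat_lit 3) (nat_lit 2),.r (nat_lit 0xdb8) (nat_lit 5) [nat_lit 0x12001,nat_lit 17],
    .r (nat_lit 0xdba) (nat_lit 5) [nat_lit 0x12001,nat_lit 17],.r (nat_lit 0xdb7) (nat_lit 11) [nat_lit 0x10401,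
    nat_lit 0x1b699],.r (nat_lit 0xdc1) (nat_lit 11) [nat_lit 17,nat_lit 0x10401],
    .r (nat_lit 0xdbc) (nat_lit 5) [nat_lit 0x2011,nat_lit 0x10001],.r (nat_lit 0x1595) (nat_lit 6) [nat_lit 0x13019,
    nat_lit 0x1b699,nat_lit 0x2011],.c (nat_lit 4) (nat_lit 2),.r (nat_lit 0x1636) (nat_lit 5) [nat_lit 0x2601,
    nat_lit 17,nat_lit 0x10401],.r (nat_lit 0xdba) (nat_lit 3) [nat_lit 17,nat_lit 0x10001],
    .r (nat_lit 0xdb7) (nat_lit 11) [nat_lit 0x10401,nat_lit 17],.r (nat_lit 0xdbe) (nat_lit 13) [nat_lit 17,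
    nat_lit 0x10401],.r (nat_lit 0xdb5) (nat_lit 5) [nat_lit 0x12001,nat_lit 0x1b699],.c (nat_lit 6) (nat_lit 2),
    .r (nat_lit 0xdb8) (nat_lit 6) [nat_lit 0x10001,nat_lit 17],.r (nat_lit 0xdb7) (nat_lit 6) [nat_lit 0x10401,
    nat_lit 0x1b699],.r (nat_lit 0xdbe) (nat_lit 11) [nat_lit 0x10401,nat_lit 0x2011],
    .r (nat_lit 0xdb5) (nat_lit 6) [nat_lit 0x10001,nat_lit 0x2411],.c (nat_lit 7) (nat_lit 2),
    .r (nat_lit 0xdbc) (nat_lit 8) [nat_lit 17,nat_lit 0x12001],.r (nat_lit 0x1595) (nat_lit 1) [nat_lit 0x10019,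
    nat_lit 0x1b699,nat_lit 0x2011],.c (nat_lit 8) (nat_lit 2),.r (nat_lit 0x15a9) (nat_lit 6) [nat_lit 0x23019,
    nat_lit 0x2011,nat_lit 0x2811]]]

/-- nodes -/
noncomputable def rD8k_36_12 : List RJ :=
  [.l (nat_lit 16) (nat_lit 0x2670) (nat_lit 4) (nat_lit 0x11b0000011b00000106600001066000010c0000010c000000ff800000ff800000f50000012760000126900001269000012bc00000dd400000e2c00000e2c) (nat_lit 0x10c0000010c0000025600000256000001fc000001fc000002c4000002c4000000460000036c0000005300000053000004e8000000000000049000000490)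
    (nat_lit 0x11f811080c3a0f5a0fb40f000f3c0dfc07b00e1c1239127f0cc80b480d200c3010a411f80f5a0f5a0bcc0d20102c0eec0f300d5413f114370db807b00d200d200f5a0f5a10a40e100e6a0e6a0e92118a0d460bba1a13124d0b7e0dd20a820ae60f5a0c3a110810a40c3a0e6a0c9e0f96102009c614230c5d07fa10660c8a0bd60d200f000e6a0e6a0cd00bcc1130102c14300e58106d106d0bd80cb00f500fb40bcc0fb40c3a0e6a0ec40cd00dfc0dfc181812400d390e830cf011380d200d840eec0dfc0f96118a0dfc102c08480d34119c0c8c0f2d080709bc132c0b680a50102c0f3c0c9e0e920dfc11300988084813e00c8c0e8d0d430c00146c0b900b540d540e1c09c60bba12400e580c8c0c8c116c0f900a890acf0a7c10680a7009d00f3007b010200d461818143013e0119c1230116c11dd1223093812760cc40de61437127f0c5d124d0e83106d0d43080712230acf121612160d8112af1793122f13f1123914231a130d39106d0e8d0f2d11dd0a89121612160d81126914410edd07b00b4810660dd211380cb0146c132c12761068126912af0cd012bc0d500e2c0db80cc807fa0b7e0cf00bd80c0009bc09380a7c0d810d8108880cd00a3409440d200c300bd60ae60d840fb40b540a500de609d00edd122f09440e2c099c0a000d200d200c8a0a820d200f500b900b680cc40a70144117930a340d500938099c)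
    (nat_lit 0x11f8267026702670267026702670267026702670267026702670267026702670110811f8267026702670267026702670267026702670267026702670267026700c3a0f5a10a426702670267026702670267026702670267026702670267026700f5a0f5a0e1010a42670267026702670267026702670267026702670267026700fb40bcc0e6a0c3a0cd0267026702670267026702670267026702670267026700f000d200e6a0e6a0bcc0cd026702670267026702670267026702670267026700f3c102c0e920c9e11300dfc08482670267026702670267026702670267026700dfc0eec118a0f96102c0dfc0d3408482670267026702670267026702670267007b00f300d4610201430137c119c13e0116c26702670267026702670267026700e1c0d540bba09c60e5812400c8c0c8c0f90116c267026702670267026702670123913f117cf1423106d0d390f2d0e8d0a8911dd121626702670267026702670127f1437124d0c5d106d0e8308070d430acf12231216121626702670267026700cc80db80b7e07fa0bd80cf009bc0c000a7c09380d810d810cd02670267026700b4807b00dd210660cb01138132c146c10680f6012af126912bc0cd0267026700d200d200a820c8a0f500d200b680b900a700cc4139714410d500a34099c26700c300d200ae60bd60fb40d840a500b5409d00de6122f0edd0e2c09440a00099c)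
    (nat_lit 3) (nat_lit 101)
    [[nat_lit 2,nat_lit 3,nat_lit 18,nat_lit 0x1002,nat_lit 0x10002,nat_lit 0x1000002,nat_lit 0x10000002,
    nat_lit 0x10000012,nat_lit 17,nat_lit 33,nat_lit 0x1011,nat_lit 0x10011,nat_lit 0x1000011,nat_lit 0x100011,
    nat_lit 0x10000011,nat_lit 0x10001011,nat_lit 0x1001,nat_lit 0x1001001,nat_lit 0x10001001,nat_lit 0x11001,
    nat_lit 0x10001,nat_lit 0x20001,nat_lit 0x1010001,nat_lit 0x10101,nat_lit 0x100001,nat_lit 0x1000001,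
    nat_lit 0x11000011,nat_lit 0x1000101,nat_lit 0x11000001,nat_lit 0x10000001],[nat_lit 32,nat_lit 0x1000020,
    nat_lit 0x10000020,nat_lit 272,nat_lit 0x1010,nat_lit 0x10001010,nat_lit 0x1001010,nat_lit 0x10010,
    nat_lit 0x10011010,nat_lit 0x110010,nat_lit 0x1010010,nat_lit 0x10010010,nat_lit 0x100010,nat_lit 0x1100010,
    nat_lit 0x10100010,nat_lit 0x1000010,nat_lit 0x11001010,nat_lit 0x11000010,nat_lit 0x10000010],[nat_lit 512,
    nat_lit 0x1100,nat_lit 0x1001100,nat_lit 0x10100,nat_lit 0x20100,nat_lit 0x100100],[nat_lit 0x2000,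
    nat_lit 0x11000,nat_lit 0x1001000,nat_lit 0x10001000,nat_lit 0x10011000,nat_lit 0x10101000,nat_lit 0x11001000],
    [nat_lit 0x20000,nat_lit 0x30000,nat_lit 0x40000,nat_lit 0x110000,nat_lit 0x1010000,nat_lit 0x10010000],
    [nat_lit 0x200000,nat_lit 0x1100000,nat_lit 0x10100000],[nat_lit 0x2000000,nat_lit 0x11000000],
    [nat_lit 0x20000000]]
    [.c (nat_lit 1) (nat_lit 2),.r (nat_lit 0x13fb) (nat_lit 9) [nat_lit 17,nat_lit 0xe11,nat_lit 0x6c19,
    nat_lit 0x10001],.r (nat_lit 0x140c) (nat_lit 11) [nat_lit 0x401,nat_lit 0xa11,nat_lit 0x2001,nat_lit 0x10001],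
    .r (nat_lit 0x142a) (nat_lit 0) [nat_lit 0x601,nat_lit 0x10019,nat_lit 17,nat_lit 0x2401],
    .r (nat_lit 0x1411) (nat_lit 11) [nat_lit 0x401,nat_lit 0x2001,nat_lit 0x10001,nat_lit 0xa11],
    .r (nat_lit 0x13fb) (nat_lit 9) [nat_lit 0x411,nat_lit 0xa11,nat_lit 0x6819,nat_lit 0x10001],
    .r (nat_lit 0x1412) (nat_lit 11) [nat_lit 17,nat_lit 0x4819,nat_lit 0x10001,nat_lit 0xa11],
    .r (nat_lit 0x13cc) (nat_lit 1) [nat_lit 0x1b499,nat_lit 0x401,nat_lit 0x10001,nat_lit 0x2001],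
    .c (nat_lit 0) (nat_lit 0x3613),.r (nat_lit 0x13f9) (nat_lit 11) [nat_lit 0x401,nat_lit 0x611,nat_lit 0x2001,
    nat_lit 0x10001],.r (nat_lit 0x1426) (nat_lit 2) [nat_lit 0x401,nat_lit 0x2001,nat_lit 0x10419,nat_lit 0x611],
    .c (nat_lit 0) (nat_lit 0x3613),.r (nat_lit 0x140c) (nat_lit 11) [nat_lit 0x401,nat_lit 0x611,nat_lit 0x2001,
    nat_lit 0x10001],.r (nat_lit 0xdb7) (nat_lit 14) [nat_lit 0x2001,nat_lit 17],.c (nat_lit 0) (nat_lit 0x3613),
    .r (nat_lit 0xdbb) (nat_lit 2) [nat_lit 0x3099,nat_lit 0x2401],.r (nat_lit 0xdba) (nat_lit 14) [nat_lit 0x12419,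
    nat_lit 0x611],.r (nat_lit 0x142a) (nat_lit 0) [nat_lit 0x601,nat_lit 0x10619,nat_lit 0x411,nat_lit 0x2401],
    .r (nat_lit 0xdb7) (nat_lit 8) [nat_lit 0x2001,nat_lit 0x3099],.r (nat_lit 0x13fa) (nat_lit 3) [nat_lit 0x2001,
    nat_lit 0x2401,nat_lit 0x120d1,nat_lit 0x3099],.c (nat_lit 0) (nat_lit 0x3613),
    .r (nat_lit 0x139f) (nat_lit 11) [nat_lit 0x401,nat_lit 0x2001,nat_lit 0x10001,nat_lit 0x611],
    .r (nat_lit 0x1411) (nat_lit 11) [nat_lit 0x401,nat_lit 0x2001,nat_lit 0x10001,nat_lit 0x611],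
    .c (nat_lit 0) (nat_lit 0x6c2),.r (nat_lit 0xdbb) (nat_lit 10) [nat_lit 0x611,nat_lit 0x2401],
    .c (nat_lit 1) (nat_lit 130),.r (nat_lit 0x13cc) (nat_lit 1) [nat_lit 0x1b099,nat_lit 0x401,nat_lit 0x10001,
    nat_lit 0x2001],.c (nat_lit 0) (nat_lit 0x602),.r (nat_lit 0x1412) (nat_lit 11) [nat_lit 0x411,nat_lit 0x4419,
    nat_lit 0x10001,nat_lit 0x611],.c (nat_lit 0) (nat_lit 0x3613),.c (nat_lit 2) (nat_lit 2),
    .r (nat_lit 0x13f9) (nat_lit 11) [nat_lit 0x401,nat_lit 17,nat_lit 0x2001,nat_lit 0x10001],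
    .r (nat_lit 0x143c) (nat_lit 6) [nat_lit 0x10001,nat_lit 0x2001,nat_lit 17,nat_lit 0x2401],
    .r (nat_lit 0x1614) (nat_lit 5) [nat_lit 0x3011,nat_lit 0x2001,nat_lit 0x10001],
    .r (nat_lit 0x150e) (nat_lit 5) [nat_lit 0x18011,nat_lit 0x601,nat_lit 0x2401,nat_lit 0x10001],
    .r (nat_lit 0xdb4) (nat_lit 11) [nat_lit 0x2401,nat_lit 0x3699],.r (nat_lit 0x1426) (nat_lit 2) [nat_lit 0x401,
    nat_lit 0x2001,nat_lit 0x10019,nat_lit 17],.c (nat_lit 0) (nat_lit 0x3613),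
    .r (nat_lit 0xdbb) (nat_lit 10) [nat_lit 0x3699,nat_lit 0x2401],.r (nat_lit 0xdb7) (nat_lit 8) [nat_lit 0x2001,
    nat_lit 17],.c (nat_lit 0) (nat_lit 0x36d3),.c (nat_lit 0) (nat_lit 0x3613),
    .r (nat_lit 0xdbe) (nat_lit 10) [nat_lit 17,nat_lit 0x2001],.r (nat_lit 0xdb7) (nat_lit 14) [nat_lit 0x2001,
    nat_lit 0x411],.r (nat_lit 0x13fa) (nat_lit 3) [nat_lit 0x2001,nat_lit 0x2401,nat_lit 0x10019,nat_lit 17],
    .c (nat_lit 0) (nat_lit 0x36d3),.r (nat_lit 0xdbb) (nat_lit 2) [nat_lit 0x3699,nat_lit 0x2401],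
    .c (nat_lit 0) (nat_lit 0x36d3),.c (nat_lit 0) (nat_lit 0x36d3),.c (nat_lit 3) (nat_lit 2),
    .r (nat_lit 0xdbb) (nat_lit 10) [nat_lit 0x12019,nat_lit 0x2401],.c (nat_lit 0) (nat_lit 0x602),
    .r (nat_lit 0x13cc) (nat_lit 1) [nat_lit 0x3011,nat_lit 0x401,nat_lit 0x10001,nat_lit 0x2001],
    .r (nat_lit 0x1625) (nat_lit 11) [nat_lit 0x401,nat_lit 0x2001,nat_lit 0x10001,nat_lit 0x3011],
    .r (nat_lit 0xdba) (nat_lit 14) [nat_lit 17,nat_lit 0x12019],.c (nat_lit 4) (nat_lit 2),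
    .r (nat_lit 0x1401) (nat_lit 3) [nat_lit 0x2001,nat_lit 0x2401,nat_lit 0x1d681,nat_lit 0x5699],
    .r (nat_lit 0xdba) (nat_lit 14) [nat_lit 0x12019,nat_lit 17],.r (nat_lit 0xdbe) (nat_lit 8) [nat_lit 0x2001,
    nat_lit 17],.r (nat_lit 0xdb7) (nat_lit 14) [nat_lit 0x2001,nat_lit 0x3099],.c (nat_lit 0) (nat_lit 0x3002),
    .r (nat_lit 0xdb7) (nat_lit 8) [nat_lit 0x2001,nat_lit 0x3699],.c (nat_lit 5) (nat_lit 2),
    .r (nat_lit 0x151b) (nat_lit 6) [nat_lit 17,nat_lit 0x10001,nat_lit 0x2001],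
    .r (nat_lit 0x1626) (nat_lit 11) [nat_lit 18,nat_lit 0x401,nat_lit 0x2001,nat_lit 0x10001],
    .r (nat_lit 0xdbb) (nat_lit 2) [nat_lit 17,nat_lit 0x2401],.c (nat_lit 0) (nat_lit 0x36d3),
    .c (nat_lit 0) (nat_lit 0x36d3),.c (nat_lit 6) (nat_lit 2),.r (nat_lit 0xdbb) (nat_lit 10) [nat_lit 17,
    nat_lit 0x2401],.r (nat_lit 0x1400) (nat_lit 4) [nat_lit 0x18011,nat_lit 0x601,nat_lit 0x10001,nat_lit 0x2401],
    .c (nat_lit 7) (nat_lit 2),.c (nat_lit 0) (nat_lit 0x36d3),.c (nat_lit 8) (nat_lit 2)]]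

/-- nodes -/
noncomputable def rD8k_36_13 : List RJ :=
  [.s (nat_lit 12) (nat_lit 960) (nat_lit 4) (nat_lit 0x15500000175000001790000017900000179000001790000017d0000017d000001690000016900000177000001770000018f0000018f0000017500000175) (nat_lit 0x1a0000003a0000001600000016000000160000001600000012000000120000002600000026000000180000001800000000000000000000001a0000001a)
    (nat_lit 0x13b11b13f13f13f13f0d70f312f12f1191311e918113b14715b13b16315f0ff15f15b1631470a715d15522d1c515b15f15f13f16316316315f20f1c715b15b11116917517915f0a716313f15b1631631631e719f15315316116116d17915f0df15f13f16315f12b16b1671671530d31611611f917915f16b0ff13f16316316312b1671670fb1531611611b90b11af1af1630f319f1c716716716b16b15715722d1bd12d17d16312315b0d71e720f16716716b16b1571571f11811191711631630a712f15315b1530d315715712714315d1511690dd1bb1b314712f15315b0fb15315715714312718515116916115b1531551311611691611611811bd15115116715f17314315d15d15d1191611111611611f122d18515d15f16717717713115d1c51811791790b117917117d1610dd17714318f18f19917522d1e916d1751b91f911912d1691691771731ab18f16917515f1470df0a71af16b1631231531b315d15d1751750c713f15b13b15f15f1af15f16316315b1bb13115d16919915b0c7)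
    (nat_lit 0x13b3c03c03c03c03c03c03c03c03c03c03c03c03c03c03c011b13b3c03c03c03c03c03c03c03c03c03c03c03c03c03c013f1631633c03c03c03c03c03c03c03c03c03c03c03c03c013f15f1631633c03c03c03c03c03c03c03c03c03c03c03c013f0ff16316312b3c03c03c03c03c03c03c03c03c03c03c013f15f15f16316b12b3c03c03c03c03c03c03c03c03c03c00d715b20f1e716716716b3c03c03c03c03c03c03c03c03c00f31631c719f16716716b16b3c03c03c03c03c03c03c03c012f14715b1531530fb1571571273c03c03c03c03c03c03c012f0a715b1530d31531571571431273c03c03c03c03c03c011915d11116116116122d1f115d1851673c03c03c03c03c01311551691611611611bd18115115115f1673c03c03c03c01e921017516d1f91b912d11916916917317718f3c03c03c01811c51791791790b117d1710dd16114317718f18f3c03c013b15b15f15f15f1af1631631bb15b15d1311991690c73c014715f0a70df16b1af1231631b315315d15d17517513f0c7)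
    (nat_lit 5) (nat_lit 139)
    [[nat_lit 0,nat_lit 0,nat_lit 3],[nat_lit 0,nat_lit 0,nat_lit 4,nat_lit 12],[nat_lit 0,nat_lit 0,nat_lit 4,
    nat_lit 13],[nat_lit 0,nat_lit 3,nat_lit 0],[nat_lit 0,nat_lit 4,nat_lit 1,nat_lit 12],[nat_lit 0,nat_lit 4,
    nat_lit 1,nat_lit 13],[nat_lit 0,nat_lit 4,nat_lit 12,nat_lit 0],[nat_lit 0,nat_lit 4,nat_lit 13,nat_lit 0],
    [nat_lit 0,nat_lit 5,nat_lit 1,nat_lit 12],[nat_lit 0,nat_lit 5,nat_lit 1,nat_lit 13],[nat_lit 0,nat_lit 7,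
    nat_lit 10,nat_lit 12],[nat_lit 0,nat_lit 10,nat_lit 15],[nat_lit 0,nat_lit 11,nat_lit 6,nat_lit 12],[nat_lit 0,
    nat_lit 12,nat_lit 0,nat_lit 12],[nat_lit 0,nat_lit 14,nat_lit 11],[nat_lit 0,nat_lit 15,nat_lit 11],[nat_lit 1,
    nat_lit 1,nat_lit 2],[nat_lit 1,nat_lit 1,nat_lit 12,nat_lit 5],[nat_lit 1,nat_lit 1,nat_lit 13,nat_lit 5],
    [nat_lit 1,nat_lit 2,nat_lit 1],[nat_lit 1,nat_lit 10,nat_lit 14],[nat_lit 1,nat_lit 10,nat_lit 15],[nat_lit 1,
    nat_lit 12,nat_lit 5,nat_lit 1],[nat_lit 1,nat_lit 13,nat_lit 1,nat_lit 13],[nat_lit 1,nat_lit 13,nat_lit 5,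
    nat_lit 1],[nat_lit 1,nat_lit 13,nat_lit 7,nat_lit 10],[nat_lit 1,nat_lit 13,nat_lit 11,nat_lit 6],[nat_lit 1,
    nat_lit 14,nat_lit 11],[nat_lit 2,nat_lit 5,nat_lit 7],[nat_lit 2,nat_lit 12,nat_lit 7],[nat_lit 2,nat_lit 13,
    nat_lit 7],[nat_lit 2,nat_lit 14],[nat_lit 2,nat_lit 15],[nat_lit 3,nat_lit 6,nat_lit 4],[nat_lit 3,nat_lit 6,
    nat_lit 12],[nat_lit 3,nat_lit 6,nat_lit 13],[nat_lit 3,nat_lit 14],[nat_lit 3,nat_lit 15],[nat_lit 4,nat_lit 8],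
    [nat_lit 4,nat_lit 9],[nat_lit 4,nat_lit 12,nat_lit 14],[nat_lit 4,nat_lit 12,nat_lit 15],[nat_lit 4,nat_lit 13,
    nat_lit 15],[nat_lit 4,nat_lit 14,nat_lit 13],[nat_lit 4,nat_lit 15,nat_lit 13],[nat_lit 5,nat_lit 8],[nat_lit 5,
    nat_lit 9],[nat_lit 5,nat_lit 12,nat_lit 14],[nat_lit 5,nat_lit 12,nat_lit 15],[nat_lit 5,nat_lit 14,nat_lit 12],
    [nat_lit 5,nat_lit 14,nat_lit 13],[nat_lit 5,nat_lit 15,nat_lit 13],[nat_lit 6,nat_lit 6,nat_lit 11,nat_lit 11],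
    [nat_lit 6,nat_lit 11,nat_lit 6,nat_lit 11],[nat_lit 6,nat_lit 11,nat_lit 11,nat_lit 6],[nat_lit 7,nat_lit 7,
    nat_lit 10,nat_lit 10],[nat_lit 7,nat_lit 10,nat_lit 7,nat_lit 10],[nat_lit 7,nat_lit 10,nat_lit 10,nat_lit 7],
    [nat_lit 8,nat_lit 12],[nat_lit 8,nat_lit 13],[nat_lit 9,nat_lit 12],[nat_lit 9,nat_lit 13],[nat_lit 12,
    nat_lit 12,nat_lit 15],[nat_lit 12,nat_lit 15,nat_lit 12],[nat_lit 13,nat_lit 13,nat_lit 14],[nat_lit 13,
    nat_lit 14,nat_lit 13]]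
    [nat_lit 0x1003,nat_lit 0x1004c,nat_lit 0x1004d,nat_lit 0x1030,nat_lit 0x1041c,nat_lit 0x1041d,nat_lit 0x104c0,
    nat_lit 0x104d0,nat_lit 0x1051c,nat_lit 0x1051d,nat_lit 0x107ac,nat_lit 0x10af,nat_lit 0x10b6c,nat_lit 0x10c0c,
    nat_lit 0x10eb,nat_lit 0x10fb,nat_lit 0x1112,nat_lit 0x111c5,nat_lit 0x111d5,nat_lit 0x1121,nat_lit 0x11ae,
    nat_lit 0x11af,nat_lit 0x11c51,nat_lit 0x11d1d,nat_lit 0x11d51,nat_lit 0x11d7a,nat_lit 0x11db6,nat_lit 0x11eb,
    nat_lit 0x1257,nat_lit 0x12c7,nat_lit 0x12d7,nat_lit 302,nat_lit 303,nat_lit 0x1364,nat_lit 0x136c,nat_lit 0x136d,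
    nat_lit 318,nat_lit 319,nat_lit 328,nat_lit 329,nat_lit 0x14ce,nat_lit 0x14cf,nat_lit 0x14df,nat_lit 0x14ed,
    nat_lit 0x14fd,nat_lit 344,nat_lit 345,nat_lit 0x15ce,nat_lit 0x15cf,nat_lit 0x15ec,nat_lit 0x15ed,nat_lit 0x15fd,
    nat_lit 0x166bb,nat_lit 0x16b6b,nat_lit 0x16bb6,nat_lit 0x177aa,nat_lit 0x17a7a,nat_lit 0x17aa7,nat_lit 396,
    nat_lit 397,nat_lit 412,nat_lit 413,nat_lit 0x1ccf,nat_lit 0x1cfc,nat_lit 0x1dde,nat_lit 0x1ded]
    [[[nat_lit 0,nat_lit 0,nat_lit 3],[nat_lit 0,nat_lit 0,nat_lit 4,nat_lit 12],[nat_lit 0,nat_lit 0,nat_lit 4,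
    nat_lit 13],[nat_lit 0,nat_lit 3,nat_lit 0],[nat_lit 0,nat_lit 4,nat_lit 1,nat_lit 12],[nat_lit 0,nat_lit 4,
    nat_lit 1,nat_lit 13],[nat_lit 0,nat_lit 4,nat_lit 12,nat_lit 0],[nat_lit 0,nat_lit 4,nat_lit 13,nat_lit 0],
    [nat_lit 0,nat_lit 5,nat_lit 1,nat_lit 12],[nat_lit 0,nat_lit 5,nat_lit 1,nat_lit 13],[nat_lit 0,nat_lit 7,
    nat_lit 10,nat_lit 12],[nat_lit 0,nat_lit 10,nat_lit 15]],[[nat_lit 0,nat_lit 11,nat_lit 6,nat_lit 12],[nat_lit 0,
    nat_lit 12,nat_lit 0,nat_lit 12],[nat_lit 0,nat_lit 14,nat_lit 11],[nat_lit 0,nat_lit 15,nat_lit 11],[nat_lit 1,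
    nat_lit 1,nat_lit 2],[nat_lit 1,nat_lit 1,nat_lit 12,nat_lit 5],[nat_lit 1,nat_lit 1,nat_lit 13,nat_lit 5],
    [nat_lit 1,nat_lit 2,nat_lit 1],[nat_lit 1,nat_lit 10,nat_lit 14],[nat_lit 1,nat_lit 10,nat_lit 15],[nat_lit 1,
    nat_lit 12,nat_lit 0,nat_lit 4],[nat_lit 1,nat_lit 12,nat_lit 0,nat_lit 5]],[[nat_lit 1,nat_lit 12,nat_lit 5,
    nat_lit 1],[nat_lit 1,nat_lit 13,nat_lit 0,nat_lit 4],[nat_lit 1,nat_lit 13,nat_lit 0,nat_lit 5],[nat_lit 1,
    nat_lit 13,nat_lit 1,nat_lit 13],[nat_lit 1,nat_lit 13,nat_lit 5,nat_lit 1],[nat_lit 1,nat_lit 13,nat_lit 7,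
    nat_lit 10],[nat_lit 1,nat_lit 13,nat_lit 11,nat_lit 6],[nat_lit 1,nat_lit 14,nat_lit 11],[nat_lit 2,nat_lit 1,
    nat_lit 1],[nat_lit 2,nat_lit 5,nat_lit 7],[nat_lit 2,nat_lit 12,nat_lit 7],[nat_lit 2,nat_lit 13,nat_lit 7]],
    [[nat_lit 2,nat_lit 14],[nat_lit 2,nat_lit 15],[nat_lit 3,nat_lit 0,nat_lit 0],[nat_lit 3,nat_lit 6,nat_lit 4],
    [nat_lit 3,nat_lit 6,nat_lit 12],[nat_lit 3,nat_lit 6,nat_lit 13],[nat_lit 3,nat_lit 14],[nat_lit 3,nat_lit 15],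
    [nat_lit 4,nat_lit 1,nat_lit 12,nat_lit 0],[nat_lit 4,nat_lit 1,nat_lit 13,nat_lit 0],[nat_lit 4,nat_lit 3,
    nat_lit 6],[nat_lit 4,nat_lit 8]],[[nat_lit 4,nat_lit 9],[nat_lit 4,nat_lit 12,nat_lit 0,nat_lit 0],[nat_lit 4,
    nat_lit 12,nat_lit 14],[nat_lit 4,nat_lit 12,nat_lit 15],[nat_lit 4,nat_lit 13,nat_lit 0,nat_lit 0],[nat_lit 4,
    nat_lit 13,nat_lit 15],[nat_lit 4,nat_lit 14,nat_lit 13],[nat_lit 4,nat_lit 15,nat_lit 13],[nat_lit 5,nat_lit 1,
    nat_lit 1,nat_lit 12],[nat_lit 5,nat_lit 1,nat_lit 1,nat_lit 13],[nat_lit 5,nat_lit 1,nat_lit 12,nat_lit 0],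
    [nat_lit 5,nat_lit 1,nat_lit 13,nat_lit 0]],[[nat_lit 5,nat_lit 7,nat_lit 2],[nat_lit 5,nat_lit 8],[nat_lit 5,
    nat_lit 9],[nat_lit 5,nat_lit 12,nat_lit 14],[nat_lit 5,nat_lit 12,nat_lit 15],[nat_lit 5,nat_lit 14,nat_lit 12],
    [nat_lit 5,nat_lit 14,nat_lit 13],[nat_lit 5,nat_lit 15,nat_lit 13],[nat_lit 6,nat_lit 1,nat_lit 13,nat_lit 11],
    [nat_lit 6,nat_lit 4,nat_lit 3],[nat_lit 6,nat_lit 6,nat_lit 11,nat_lit 11],[nat_lit 6,nat_lit 11,nat_lit 6,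
    nat_lit 11]],[[nat_lit 6,nat_lit 11,nat_lit 11,nat_lit 6],[nat_lit 6,nat_lit 12,nat_lit 0,nat_lit 11],[nat_lit 6,
    nat_lit 12,nat_lit 3],[nat_lit 6,nat_lit 13,nat_lit 3],[nat_lit 7,nat_lit 2,nat_lit 5],[nat_lit 7,nat_lit 2,
    nat_lit 12],[nat_lit 7,nat_lit 2,nat_lit 13],[nat_lit 7,nat_lit 7,nat_lit 10,nat_lit 10],[nat_lit 7,nat_lit 10,
    nat_lit 1,nat_lit 13],[nat_lit 7,nat_lit 10,nat_lit 7,nat_lit 10],[nat_lit 7,nat_lit 10,nat_lit 10,nat_lit 7],
    [nat_lit 7,nat_lit 10,nat_lit 12,nat_lit 0]],[[nat_lit 8,nat_lit 4],[nat_lit 8,nat_lit 5],[nat_lit 8,nat_lit 12],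
    [nat_lit 8,nat_lit 13],[nat_lit 9,nat_lit 4],[nat_lit 9,nat_lit 5],[nat_lit 9,nat_lit 12],[nat_lit 9,nat_lit 13],
    [nat_lit 10,nat_lit 1,nat_lit 13,nat_lit 7],[nat_lit 10,nat_lit 7,nat_lit 7,nat_lit 10],[nat_lit 10,nat_lit 7,
    nat_lit 10,nat_lit 7],[nat_lit 10,nat_lit 10,nat_lit 7,nat_lit 7]],[[nat_lit 10,nat_lit 12,nat_lit 0,nat_lit 7],
    [nat_lit 10,nat_lit 14,nat_lit 1],[nat_lit 10,nat_lit 15,nat_lit 0],[nat_lit 10,nat_lit 15,nat_lit 1],[nat_lit 11,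
    nat_lit 0,nat_lit 14],[nat_lit 11,nat_lit 0,nat_lit 15],[nat_lit 11,nat_lit 1,nat_lit 14],[nat_lit 11,nat_lit 6,
    nat_lit 1,nat_lit 13],[nat_lit 11,nat_lit 6,nat_lit 6,nat_lit 11],[nat_lit 11,nat_lit 6,nat_lit 11,nat_lit 6],
    [nat_lit 11,nat_lit 6,nat_lit 12,nat_lit 0],[nat_lit 11,nat_lit 11,nat_lit 6,nat_lit 6]],[[nat_lit 12,nat_lit 0,
    nat_lit 0,nat_lit 4],[nat_lit 12,nat_lit 0,nat_lit 4,nat_lit 1],[nat_lit 12,nat_lit 0,nat_lit 5,nat_lit 1],
    [nat_lit 12,nat_lit 0,nat_lit 7,nat_lit 10],[nat_lit 12,nat_lit 0,nat_lit 11,nat_lit 6],[nat_lit 12,nat_lit 0,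
    nat_lit 12,nat_lit 0],[nat_lit 12,nat_lit 3,nat_lit 6],[nat_lit 12,nat_lit 5,nat_lit 1,nat_lit 1],[nat_lit 12,
    nat_lit 5,nat_lit 14],[nat_lit 12,nat_lit 7,nat_lit 2],[nat_lit 12,nat_lit 8],[nat_lit 12,nat_lit 9]],
    [[nat_lit 12,nat_lit 12,nat_lit 15],[nat_lit 12,nat_lit 14,nat_lit 4],[nat_lit 12,nat_lit 14,nat_lit 5],
    [nat_lit 12,nat_lit 15,nat_lit 4],[nat_lit 12,nat_lit 15,nat_lit 5],[nat_lit 12,nat_lit 15,nat_lit 12],
    [nat_lit 13,nat_lit 0,nat_lit 0,nat_lit 4],[nat_lit 13,nat_lit 0,nat_lit 4,nat_lit 1],[nat_lit 13,nat_lit 0,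
    nat_lit 5,nat_lit 1],[nat_lit 13,nat_lit 1,nat_lit 13,nat_lit 1],[nat_lit 13,nat_lit 3,nat_lit 6],[nat_lit 13,
    nat_lit 4,nat_lit 14]],[[nat_lit 13,nat_lit 4,nat_lit 15],[nat_lit 13,nat_lit 5,nat_lit 1,nat_lit 1],[nat_lit 13,
    nat_lit 5,nat_lit 14],[nat_lit 13,nat_lit 5,nat_lit 15],[nat_lit 13,nat_lit 7,nat_lit 2],[nat_lit 13,nat_lit 7,
    nat_lit 10,nat_lit 1],[nat_lit 13,nat_lit 8],[nat_lit 13,nat_lit 9],[nat_lit 13,nat_lit 11,nat_lit 6,nat_lit 1],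
    [nat_lit 13,nat_lit 13,nat_lit 14],[nat_lit 13,nat_lit 14,nat_lit 13],[nat_lit 13,nat_lit 15,nat_lit 4]],
    [[nat_lit 14,nat_lit 1,nat_lit 10],[nat_lit 14,nat_lit 2],[nat_lit 14,nat_lit 3],[nat_lit 14,nat_lit 4,
    nat_lit 12],[nat_lit 14,nat_lit 5,nat_lit 12],[nat_lit 14,nat_lit 11,nat_lit 0],[nat_lit 14,nat_lit 11,nat_lit 1],
    [nat_lit 14,nat_lit 12,nat_lit 5],[nat_lit 14,nat_lit 13,nat_lit 4],[nat_lit 14,nat_lit 13,nat_lit 5],[nat_lit 14,
    nat_lit 13,nat_lit 13],[nat_lit 15,nat_lit 0,nat_lit 10]],[[nat_lit 15,nat_lit 1,nat_lit 10],[nat_lit 15,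
    nat_lit 2],[nat_lit 15,nat_lit 3],[nat_lit 15,nat_lit 4,nat_lit 12],[nat_lit 15,nat_lit 4,nat_lit 13],[nat_lit 15,
    nat_lit 5,nat_lit 12],[nat_lit 15,nat_lit 11,nat_lit 0],[nat_lit 15,nat_lit 12,nat_lit 12],[nat_lit 15,nat_lit 13,
    nat_lit 4],[nat_lit 15,nat_lit 13,nat_lit 5]]]
    [[nat_lit 3,nat_lit 6,nat_lit 7,nat_lit 38,nat_lit 44,nat_lit 45,nat_lit 49,nat_lit 52,nat_lit 58,nat_lit 59,
    nat_lit 83,nat_lit 98],[nat_lit 106,nat_lit 113,nat_lit 149,nat_lit 162,nat_lit 19,nat_lit 24,nat_lit 28,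
    nat_lit 32,nat_lit 97,nat_lit 99,nat_lit 109,nat_lit 110],[nat_lit 115,nat_lit 127,nat_lit 128,nat_lit 129,
    nat_lit 133,nat_lit 137,nat_lit 140,nat_lit 150,nat_lit 16,nat_lit 60,nat_lit 117,nat_lit 136],[nat_lit 145,
    nat_lit 157,nat_lit 0,nat_lit 69,nat_lit 74,nat_lit 75,nat_lit 146,nat_lit 158,nat_lit 22,nat_lit 25,nat_lit 39,
    nat_lit 84],[nat_lit 88,nat_lit 108,nat_lit 121,nat_lit 123,nat_lit 126,nat_lit 143,nat_lit 152,nat_lit 164,
    nat_lit 17,nat_lit 18,nat_lit 23,nat_lit 26],[nat_lit 76,nat_lit 85,nat_lit 89,nat_lit 122,nat_lit 124,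
    nat_lit 151,nat_lit 153,nat_lit 165,nat_lit 30,nat_lit 46,nat_lit 72,nat_lit 105],[nat_lit 107,nat_lit 112,
    nat_lit 114,nat_lit 130,nat_lit 33,nat_lit 34,nat_lit 35,nat_lit 82,nat_lit 92,nat_lit 94,nat_lit 95,nat_lit 96],
    [nat_lit 47,nat_lit 61,nat_lit 118,nat_lit 138,nat_lit 48,nat_lit 62,nat_lit 119,nat_lit 139,nat_lit 29,
    nat_lit 79,nat_lit 81,nat_lit 93],[nat_lit 111,nat_lit 144,nat_lit 155,nat_lit 156,nat_lit 14,nat_lit 15,
    nat_lit 31,nat_lit 68,nat_lit 70,nat_lit 71,nat_lit 73,nat_lit 104],[nat_lit 1,nat_lit 4,nat_lit 8,nat_lit 10,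
    nat_lit 12,nat_lit 13,nat_lit 40,nat_lit 56,nat_lit 65,nat_lit 77,nat_lit 86,nat_lit 90],[nat_lit 125,nat_lit 147,
    nat_lit 148,nat_lit 159,nat_lit 161,nat_lit 163,nat_lit 2,nat_lit 5,nat_lit 9,nat_lit 27,nat_lit 41,nat_lit 54],
    [nat_lit 55,nat_lit 57,nat_lit 66,nat_lit 67,nat_lit 78,nat_lit 80,nat_lit 87,nat_lit 91,nat_lit 103,nat_lit 142,
    nat_lit 154,nat_lit 160],[nat_lit 20,nat_lit 36,nat_lit 42,nat_lit 50,nat_lit 63,nat_lit 100,nat_lit 102,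
    nat_lit 116,nat_lit 131,nat_lit 134,nat_lit 141,nat_lit 11],[nat_lit 21,nat_lit 37,nat_lit 43,nat_lit 51,
    nat_lit 53,nat_lit 64,nat_lit 101,nat_lit 120,nat_lit 132,nat_lit 135]]
    [[nat_lit 38,nat_lit 108,nat_lit 126,nat_lit 0,nat_lit 109,nat_lit 127,nat_lit 1,nat_lit 2,nat_lit 110,
    nat_lit 128,nat_lit 111,nat_lit 155],[nat_lit 112,nat_lit 113,nat_lit 100,nat_lit 101,nat_lit 32,nat_lit 56,
    nat_lit 57,nat_lit 16,nat_lit 144,nat_lit 156,nat_lit 44,nat_lit 58],[nat_lit 17,nat_lit 45,nat_lit 59,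
    nat_lit 129,nat_lit 18,nat_lit 92,nat_lit 68,nat_lit 102,nat_lit 19,nat_lit 76,nat_lit 77,nat_lit 78],
    [nat_lit 145,nat_lit 157,nat_lit 3,nat_lit 46,nat_lit 114,nat_lit 130,nat_lit 146,nat_lit 158,nat_lit 4,nat_lit 5,
    nat_lit 69,nat_lit 84],[nat_lit 88,nat_lit 6,nat_lit 147,nat_lit 159,nat_lit 7,nat_lit 160,nat_lit 131,
    nat_lit 132,nat_lit 115,nat_lit 133,nat_lit 8,nat_lit 9],[nat_lit 33,nat_lit 85,nat_lit 89,nat_lit 148,
    nat_lit 161,nat_lit 116,nat_lit 134,nat_lit 135,nat_lit 103,nat_lit 39,nat_lit 104,nat_lit 105],[nat_lit 70,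
    nat_lit 106,nat_lit 40,nat_lit 41,nat_lit 60,nat_lit 117,nat_lit 136,nat_lit 93,nat_lit 137,nat_lit 94,nat_lit 79,
    nat_lit 10],[nat_lit 47,nat_lit 61,nat_lit 118,nat_lit 138,nat_lit 48,nat_lit 62,nat_lit 119,nat_lit 139,
    nat_lit 80,nat_lit 95,nat_lit 81,nat_lit 82],[nat_lit 83,nat_lit 20,nat_lit 11,nat_lit 21,nat_lit 149,nat_lit 162,
    nat_lit 150,nat_lit 140,nat_lit 107,nat_lit 71,nat_lit 12,nat_lit 72],[nat_lit 49,nat_lit 22,nat_lit 23,
    nat_lit 96,nat_lit 73,nat_lit 13,nat_lit 74,nat_lit 24,nat_lit 151,nat_lit 34,nat_lit 86,nat_lit 90],[nat_lit 163,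
    nat_lit 50,nat_lit 63,nat_lit 51,nat_lit 64,nat_lit 120,nat_lit 52,nat_lit 25,nat_lit 26,nat_lit 27,nat_lit 75,
    nat_lit 152],[nat_lit 164,nat_lit 28,nat_lit 153,nat_lit 165,nat_lit 35,nat_lit 29,nat_lit 87,nat_lit 91,
    nat_lit 30,nat_lit 154,nat_lit 141,nat_lit 53],[nat_lit 97,nat_lit 36,nat_lit 42,nat_lit 121,nat_lit 122,
    nat_lit 14,nat_lit 31,nat_lit 65,nat_lit 54,nat_lit 66,nat_lit 142,nat_lit 98],[nat_lit 99,nat_lit 37,nat_lit 43,
    nat_lit 123,nat_lit 143,nat_lit 124,nat_lit 15,nat_lit 125,nat_lit 55,nat_lit 67]]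
    [[[nat_lit 145],[nat_lit 145],[nat_lit 145],[nat_lit 150],[],[],[],[],[nat_lit 146],[nat_lit 146],[nat_lit 151,
    nat_lit 153],[nat_lit 147,nat_lit 148]],[[],[],[nat_lit 149],[nat_lit 154],[nat_lit 43],[nat_lit 43],[nat_lit 43],
    [nat_lit 39],[nat_lit 40],[nat_lit 40],[nat_lit 42],[nat_lit 42]],[[nat_lit 42],[],[],[],[],[],[],[nat_lit 38],
    [nat_lit 11],[nat_lit 0],[],[nat_lit 14,nat_lit 15]],[[nat_lit 3,nat_lit 6,nat_lit 7],[nat_lit 2,nat_lit 5,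
    nat_lit 9],[nat_lit 60],[nat_lit 61],[nat_lit 61],[nat_lit 61],[nat_lit 58,nat_lit 59],[nat_lit 57,nat_lit 66,
    nat_lit 67],[nat_lit 37],[nat_lit 37],[nat_lit 32],[]],[[nat_lit 33,nat_lit 34,nat_lit 35],[nat_lit 36],
    [nat_lit 36],[nat_lit 36],[],[],[],[],[],[],[],[]],[[nat_lit 76],[nat_lit 79,nat_lit 81],[nat_lit 82],[],[],
    [nat_lit 83],[nat_lit 83],[nat_lit 78,nat_lit 80],[nat_lit 51,nat_lit 53],[nat_lit 46],[nat_lit 47],[nat_lit 48]],
    [[nat_lit 48],[nat_lit 50],[nat_lit 50],[],[nat_lit 88],[nat_lit 88],[nat_lit 88],[nat_lit 89],[nat_lit 90],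
    [nat_lit 90],[nat_lit 90],[nat_lit 90]],[[nat_lit 72],[nat_lit 69,nat_lit 74,nat_lit 75],[],[nat_lit 68,
    nat_lit 70,nat_lit 71,nat_lit 73],[nat_lit 105,nat_lit 107],[],[nat_lit 100,nat_lit 102],[nat_lit 104],[],
    [nat_lit 85],[nat_lit 85],[nat_lit 86]],[[],[],[nat_lit 87],[nat_lit 87],[nat_lit 136],[nat_lit 136],[nat_lit 132,
    nat_lit 135],[nat_lit 138],[nat_lit 138],[nat_lit 138],[nat_lit 138],[nat_lit 139]],[[],[],[],[],[],[],
    [nat_lit 97,nat_lit 99],[],[],[],[nat_lit 93],[nat_lit 92,nat_lit 94,nat_lit 95,nat_lit 96]],[[],[nat_lit 98],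
    [nat_lit 98],[],[],[],[nat_lit 157],[nat_lit 157],[nat_lit 157],[],[],[]],[[],[nat_lit 158],[nat_lit 158],
    [nat_lit 158],[nat_lit 165],[nat_lit 165],[nat_lit 155,nat_lit 156],[],[],[],[nat_lit 162],[nat_lit 160]],
    [[nat_lit 120],[nat_lit 108,nat_lit 121,nat_lit 123],[nat_lit 109,nat_lit 110,nat_lit 115],[nat_lit 112,
    nat_lit 114],[],[nat_lit 119],[nat_lit 119],[nat_lit 116],[],[],[],[nat_lit 16]],[[nat_lit 21],[nat_lit 22,
    nat_lit 25],[nat_lit 19,nat_lit 24,nat_lit 28],[nat_lit 30],[nat_lit 30],[],[],[nat_lit 20],[nat_lit 31],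
    [nat_lit 31]]]
    (nat_lit 166) [nat_lit 0,nat_lit 1,nat_lit 2,nat_lit 3,nat_lit 4,nat_lit 5,nat_lit 6,nat_lit 7,nat_lit 8,
    nat_lit 9,nat_lit 10,nat_lit 11,nat_lit 12,nat_lit 13,nat_lit 14,nat_lit 15,nat_lit 16,nat_lit 17,nat_lit 18,
    nat_lit 19,nat_lit 20,nat_lit 21,nat_lit 24,nat_lit 27,nat_lit 28,nat_lit 29,nat_lit 30,nat_lit 31,nat_lit 33,
    nat_lit 34,nat_lit 35,nat_lit 36,nat_lit 37,nat_lit 39,nat_lit 40,nat_lit 41,nat_lit 42,nat_lit 43,nat_lit 47,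
    nat_lit 48,nat_lit 50,nat_lit 51,nat_lit 53,nat_lit 54,nat_lit 55,nat_lit 61,nat_lit 62,nat_lit 63,nat_lit 64,
    nat_lit 65,nat_lit 66,nat_lit 67,nat_lit 70,nat_lit 71,nat_lit 72,nat_lit 79,nat_lit 81,nat_lit 82,nat_lit 86,
    nat_lit 87,nat_lit 90,nat_lit 91,nat_lit 120,nat_lit 125,nat_lit 141,nat_lit 142]
    [[[nat_lit 3,nat_lit 6,nat_lit 7],[],[],[nat_lit 0],[],[],[],[],[],[],[],[nat_lit 14,nat_lit 15],[nat_lit 1,
    nat_lit 4,nat_lit 8,nat_lit 10,nat_lit 12,nat_lit 13],[nat_lit 2,nat_lit 5,nat_lit 9],[],[nat_lit 11]],[[],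
    [nat_lit 19,nat_lit 24,nat_lit 28],[nat_lit 16],[],[nat_lit 22,nat_lit 25],[nat_lit 17,nat_lit 18,nat_lit 23,
    nat_lit 26],[nat_lit 30],[],[],[],[nat_lit 29],[nat_lit 31],[],[nat_lit 27],[nat_lit 20],[nat_lit 21]],[[],
    [nat_lit 32],[],[],[],[],[],[nat_lit 33,nat_lit 34,nat_lit 35],[],[],[],[],[],[],[nat_lit 36],[nat_lit 37]],
    [[nat_lit 38],[],[],[],[nat_lit 39],[],[],[],[],[],[],[],[nat_lit 40],[nat_lit 41],[nat_lit 42],[nat_lit 43]],
    [[nat_lit 44,nat_lit 45,nat_lit 49,nat_lit 52],[],[],[],[],[],[nat_lit 46],[],[nat_lit 47],[nat_lit 48],[],[],[],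
    [nat_lit 54,nat_lit 55],[nat_lit 50],[nat_lit 51,nat_lit 53]],[[nat_lit 58,nat_lit 59],[],[nat_lit 60],[],[],[],
    [],[],[nat_lit 61],[nat_lit 62],[],[],[nat_lit 56,nat_lit 65],[nat_lit 57,nat_lit 66,nat_lit 67],[nat_lit 63],
    [nat_lit 64]],[[],[],[],[nat_lit 69,nat_lit 74,nat_lit 75],[],[],[nat_lit 72],[],[],[],[],[nat_lit 68,nat_lit 70,
    nat_lit 71,nat_lit 73],[],[],[],[]],[[nat_lit 83],[],[],[],[],[nat_lit 76],[],[nat_lit 82],[],[],[nat_lit 79,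
    nat_lit 81],[],[nat_lit 77],[nat_lit 78,nat_lit 80],[],[]],[[],[],[],[],[nat_lit 84],[nat_lit 85],[],[],[],[],[],
    [],[nat_lit 86],[nat_lit 87],[],[]],[[],[],[],[],[nat_lit 88],[nat_lit 89],[],[],[],[],[],[],[nat_lit 90],
    [nat_lit 91],[],[]],[[nat_lit 98],[nat_lit 97,nat_lit 99],[],[],[],[],[],[nat_lit 92,nat_lit 94,nat_lit 95,
    nat_lit 96],[],[],[nat_lit 93],[],[],[],[],[]],[[nat_lit 106],[],[],[],[],[],[nat_lit 105,nat_lit 107],[],[],[],
    [],[nat_lit 104],[],[nat_lit 103],[nat_lit 100,nat_lit 102],[nat_lit 101]],[[nat_lit 113],[nat_lit 109,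
    nat_lit 110,nat_lit 115],[nat_lit 117],[],[nat_lit 108,nat_lit 121,nat_lit 123],[nat_lit 122,nat_lit 124],
    [nat_lit 112,nat_lit 114],[],[nat_lit 118],[nat_lit 119],[nat_lit 111],[],[nat_lit 125],[],[nat_lit 116],
    [nat_lit 120]],[[],[nat_lit 127,nat_lit 128,nat_lit 129,nat_lit 133,nat_lit 137,nat_lit 140],[nat_lit 136],[],
    [nat_lit 126,nat_lit 143],[],[nat_lit 130],[],[nat_lit 138],[nat_lit 139],[],[],[],[nat_lit 142],[nat_lit 131,
    nat_lit 134,nat_lit 141],[nat_lit 132,nat_lit 135]],[[nat_lit 149],[nat_lit 150],[nat_lit 145],[nat_lit 146],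
    [nat_lit 152],[nat_lit 151,nat_lit 153],[],[],[],[],[nat_lit 144],[],[nat_lit 147,nat_lit 148],[nat_lit 154],[],
    []],[[nat_lit 162],[],[nat_lit 157],[nat_lit 158],[nat_lit 164],[nat_lit 165],[],[],[],[],[nat_lit 155,
    nat_lit 156],[],[nat_lit 159,nat_lit 161,nat_lit 163],[nat_lit 160],[],[]]]
    [[[nat_lit 0x2000000000000000000000000000000000000,nat_lit 0x2000000000000000000000000000000000000,
    nat_lit 0x2000000000000000000000000000000000000,nat_lit 0x40000000000000000000000000000000000000,nat_lit 0,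
    nat_lit 0,nat_lit 0,nat_lit 0,nat_lit 0x4000000000000000000000000000000000000],
    [nat_lit 0x4000000000000000000000000000000000000,nat_lit 0x280000000000000000000000000000000000000,
    nat_lit 0x18000000000000000000000000000000000000,nat_lit 0,nat_lit 0,
    nat_lit 0x20000000000000000000000000000000000000,nat_lit 0x400000000000000000000000000000000000000,
    nat_lit 0x80000000000,nat_lit 0x80000000000],[nat_lit 0x80000000000,nat_lit 0x8000000000,nat_lit 0x10000000000,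
    nat_lit 0x10000000000,nat_lit 0x40000000000,nat_lit 0x40000000000,nat_lit 0x40000000000,nat_lit 0,nat_lit 0],
    [nat_lit 0,nat_lit 0,nat_lit 0,nat_lit 0,nat_lit 0x4000000000,nat_lit 0x800,nat_lit 1,nat_lit 0,nat_lit 0xc000],
    [nat_lit 200,nat_lit 548,nat_lit 0x1000000000000000,nat_lit 0x2000000000000000,nat_lit 0x2000000000000000,
    nat_lit 0x2000000000000000,nat_lit 0xc00000000000000,nat_lit 0xc0200000000000000,nat_lit 0x2000000000],
    [nat_lit 0x2000000000,nat_lit 0x100000000,nat_lit 0,nat_lit 0xe00000000,nat_lit 0x1000000000,nat_lit 0x1000000000,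
    nat_lit 0x1000000000,nat_lit 0,nat_lit 0],[nat_lit 0,nat_lit 0,nat_lit 0,nat_lit 0,nat_lit 0,nat_lit 0,
    nat_lit 0x10000000000000000000,nat_lit 0x280000000000000000000,nat_lit 0x400000000000000000000],[nat_lit 0,
    nat_lit 0,nat_lit 0x800000000000000000000,nat_lit 0x800000000000000000000,nat_lit 0x140000000000000000000,
    nat_lit 0x28000000000000,nat_lit 0x400000000000,nat_lit 0x800000000000,nat_lit 0x1000000000000],
    [nat_lit 0x1000000000000,nat_lit 0x4000000000000,nat_lit 0x4000000000000,nat_lit 0,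
    nat_lit 0x10000000000000000000000,nat_lit 0x10000000000000000000000,nat_lit 0x10000000000000000000000,
    nat_lit 0x20000000000000000000000,nat_lit 0x40000000000000000000000]],[[nat_lit 0x40000000000000000000000,
    nat_lit 0x40000000000000000000000,nat_lit 0x40000000000000000000000,nat_lit 0x1000000000000000000,
    nat_lit 0xc200000000000000000,nat_lit 0,nat_lit 0x2d00000000000000000,nat_lit 0xa00000000000000000000000000,
    nat_lit 0],[nat_lit 0x50000000000000000000000000,nat_lit 0x100000000000000000000000000,nat_lit 0,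
    nat_lit 0x2000000000000000000000,nat_lit 0x2000000000000000000000,nat_lit 0x4000000000000000000000,nat_lit 0,
    nat_lit 0,nat_lit 0x8000000000000000000000],[nat_lit 0x8000000000000000000000,
    nat_lit 0x10000000000000000000000000000000000,nat_lit 0x10000000000000000000000000000000000,
    nat_lit 0x9000000000000000000000000000000000,nat_lit 0x40000000000000000000000000000000000,
    nat_lit 0x40000000000000000000000000000000000,nat_lit 0x40000000000000000000000000000000000,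
    nat_lit 0x40000000000000000000000000000000000,nat_lit 0x80000000000000000000000000000000000],[nat_lit 0,nat_lit 0,
    nat_lit 0,nat_lit 0,nat_lit 0,nat_lit 0,nat_lit 0xa000000000000000000000000,nat_lit 0,nat_lit 0],[nat_lit 0,
    nat_lit 0x200000000000000000000000,nat_lit 0x1d00000000000000000000000,nat_lit 0,
    nat_lit 0x4000000000000000000000000,nat_lit 0x4000000000000000000000000,nat_lit 0,nat_lit 0,nat_lit 0],
    [nat_lit 0x2000000000000000000000000000000000000000,nat_lit 0x2000000000000000000000000000000000000000,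
    nat_lit 0x2000000000000000000000000000000000000000,nat_lit 0,nat_lit 0,nat_lit 0,nat_lit 0,
    nat_lit 0x4000000000000000000000000000000000000000,nat_lit 0x4000000000000000000000000000000000000000],
    [nat_lit 0x4000000000000000000000000000000000000000,nat_lit 0x200000000000000000000000000000000000000000,
    nat_lit 0x200000000000000000000000000000000000000000,nat_lit 0x1800000000000000000000000000000000000000,nat_lit 0,
    nat_lit 0,nat_lit 0,nat_lit 0x40000000000000000000000000000000000000000,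
    nat_lit 0x10000000000000000000000000000000000000000],[nat_lit 0x1000000000000000000000000000000,
    nat_lit 0xa001000000000000000000000000000,nat_lit 0x86000000000000000000000000000,
    nat_lit 0x50000000000000000000000000000,nat_lit 0,nat_lit 0x800000000000000000000000000000,
    nat_lit 0x800000000000000000000000000000,nat_lit 0x100000000000000000000000000000,nat_lit 0],[nat_lit 0,nat_lit 0,
    nat_lit 0x10000,nat_lit 0x200000,nat_lit 0x2400000,nat_lit 0x11080000,nat_lit 0x40000000,nat_lit 0x40000000,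
    nat_lit 0]],[[nat_lit 0,nat_lit 0x100000,nat_lit 0x80000000,nat_lit 0x80000000]]]
    [[[[nat_lit 0x2000000000000000000000000000000000000,nat_lit 0,nat_lit 0,nat_lit 0,nat_lit 0,nat_lit 0,nat_lit 0,
    nat_lit 0,nat_lit 0],[nat_lit 0,nat_lit 0,nat_lit 0x8000000000000000000000000000000000000,nat_lit 0,nat_lit 0,
    nat_lit 0,nat_lit 0,nat_lit 0x80000000000,nat_lit 0],[nat_lit 0,nat_lit 0,nat_lit 0,nat_lit 0,nat_lit 0,nat_lit 0,
    nat_lit 0,nat_lit 0,nat_lit 0],[nat_lit 0,nat_lit 0,nat_lit 0,nat_lit 0,nat_lit 0x4000000000,nat_lit 0x800,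
    nat_lit 0,nat_lit 0,nat_lit 0],[nat_lit 8,nat_lit 0,nat_lit 0x1000000000000000,nat_lit 0,
    nat_lit 0x2000000000000000,nat_lit 0,nat_lit 0,nat_lit 0x80000000000000000,nat_lit 0],[nat_lit 0,
    nat_lit 0x100000000,nat_lit 0,nat_lit 0x800000000,nat_lit 0,nat_lit 0x1000000000,nat_lit 0,nat_lit 0,nat_lit 0],
    [nat_lit 0,nat_lit 0,nat_lit 0,nat_lit 0,nat_lit 0,nat_lit 0,nat_lit 0,nat_lit 0x200000000000000000000,nat_lit 0],
    [nat_lit 0,nat_lit 0,nat_lit 0,nat_lit 0,nat_lit 0,nat_lit 0,nat_lit 0,nat_lit 0,nat_lit 0x1000000000000],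
    [nat_lit 0,nat_lit 0,nat_lit 0,nat_lit 0,nat_lit 0x10000000000000000000000,nat_lit 0,nat_lit 0,nat_lit 0,
    nat_lit 0]],[[nat_lit 0x40000000000000000000000,nat_lit 0,nat_lit 0,nat_lit 0,nat_lit 0x200000000000000000,
    nat_lit 0,nat_lit 0x800000000000000000,nat_lit 0x200000000000000000000000000,nat_lit 0],
    [nat_lit 0x40000000000000000000000000,nat_lit 0,nat_lit 0,nat_lit 0,nat_lit 0x2000000000000000000000,nat_lit 0,
    nat_lit 0,nat_lit 0,nat_lit 0x8000000000000000000000],[nat_lit 0,nat_lit 0,nat_lit 0,nat_lit 0,nat_lit 0,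
    nat_lit 0,nat_lit 0x40000000000000000000000000000000000,nat_lit 0,nat_lit 0],[nat_lit 0,nat_lit 0,nat_lit 0,
    nat_lit 0,nat_lit 0,nat_lit 0,nat_lit 0,nat_lit 0,nat_lit 0],[nat_lit 0,nat_lit 0,
    nat_lit 0x400000000000000000000000,nat_lit 0,nat_lit 0,nat_lit 0,nat_lit 0,nat_lit 0,nat_lit 0],[nat_lit 0,
    nat_lit 0,nat_lit 0,nat_lit 0,nat_lit 0,nat_lit 0,nat_lit 0,nat_lit 0,nat_lit 0],
    [nat_lit 0x4000000000000000000000000000000000000000,nat_lit 0x200000000000000000000000000000000000000000,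
    nat_lit 0,nat_lit 0x800000000000000000000000000000000000000,nat_lit 0,nat_lit 0,nat_lit 0,nat_lit 0,nat_lit 0],
    [nat_lit 0,nat_lit 0x2000000000000000000000000000000,nat_lit 0,nat_lit 0x40000000000000000000000000000,nat_lit 0,
    nat_lit 0,nat_lit 0x800000000000000000000000000000,nat_lit 0,nat_lit 0],[nat_lit 0,nat_lit 0,nat_lit 0,nat_lit 0,
    nat_lit 0,nat_lit 0x80000,nat_lit 0,nat_lit 0,nat_lit 0]],[[nat_lit 0,nat_lit 0,nat_lit 0,nat_lit 0x80000000]]]]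
    (nat_lit 1) (nat_lit 1) (nat_lit 9)
    [[nat_lit 2,nat_lit 3,nat_lit 4,nat_lit 0x1000003,nat_lit 258,nat_lit 0x10002,nat_lit 0x1000002,
    nat_lit 0x10000002,nat_lit 17,nat_lit 0x1000011,nat_lit 0x1011,nat_lit 0x100011,nat_lit 257,nat_lit 0x1000101,
    nat_lit 0x1001,nat_lit 0x1001001,nat_lit 0x10001001,nat_lit 0x10001,nat_lit 0x10010001,nat_lit 0x1010001,
    nat_lit 0x100001,nat_lit 0x1100001,nat_lit 0x1000001,nat_lit 0x2000001,nat_lit 0x10000001,nat_lit 0x11000001],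
    [nat_lit 32,nat_lit 272,nat_lit 0x100110,nat_lit 0x1010,nat_lit 0x2010,nat_lit 0x101010,nat_lit 0x10001010,
    nat_lit 0x10010,nat_lit 0x11010,nat_lit 0x110010,nat_lit 0x100010,nat_lit 0x1000010,nat_lit 0x1100010],
    [nat_lit 512,nat_lit 0x1100,nat_lit 0x101100,nat_lit 0x10001100,nat_lit 0x100100,nat_lit 0x10100100,
    nat_lit 0x1000100,nat_lit 0x1001100,nat_lit 0x10000100,nat_lit 0x20000100],[nat_lit 0x2000,nat_lit 0x3000,
    nat_lit 0x102000,nat_lit 0x10002000,nat_lit 0x20002000,nat_lit 0x11000,nat_lit 0x111000,nat_lit 0x10011000,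
    nat_lit 0x101000,nat_lit 0x201000,nat_lit 0x10101000,nat_lit 0x10102000,nat_lit 0x1101000,nat_lit 0x1001000,
    nat_lit 0x11001000,nat_lit 0x10001000,nat_lit 0x20001000,nat_lit 0x20011000],[nat_lit 0x20000,nat_lit 0x10020000,
    nat_lit 0x110000,nat_lit 0x10110000,nat_lit 0x10010000,nat_lit 0x20010000],[nat_lit 0x200000,nat_lit 0x300000,
    nat_lit 0x10200000,nat_lit 0x1100000,nat_lit 0x10100000,nat_lit 0x11100000,nat_lit 0x20100000],[nat_lit 0x2000000,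
    nat_lit 0x11000000],[nat_lit 0x20000000,nat_lit 0x30000000]]
    [.c (nat_lit 1) (nat_lit 2),.c (nat_lit 4) (nat_lit 0x1000001c04),.c (nat_lit 2) (nat_lit 0x21003),
    .c (nat_lit 2) (nat_lit 0x80021805),.c (nat_lit 1) (nat_lit 0x300c04),.c (nat_lit 6) (nat_lit 0x18c0328885),
    .c (nat_lit 1) (nat_lit 0xc0000c04),.c (nat_lit 2) (nat_lit 0x20803),.c (nat_lit 3) (nat_lit 0x228c04),
    .c (nat_lit 2) (nat_lit 0xc0000c04),.c (nat_lit 2) (nat_lit 0x1000040805),.c (nat_lit 2) (nat_lit 0x10842400a4),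
    .c (nat_lit 0) (nat_lit 0x200805),.c (nat_lit 3) (nat_lit 0xc0000c04),.c (nat_lit 0) (nat_lit 0x1a52988e0d),
    .c (nat_lit 4) (nat_lit 0xc0000c04),.c (nat_lit 2) (nat_lit 0x1000060805),.c (nat_lit 2) (nat_lit 0x4020805),
    .c (nat_lit 0) (nat_lit 0x400e001c0c),.c (nat_lit 3) (nat_lit 0x84200805),.c (nat_lit 3) (nat_lit 0x10846200a4),
    .c (nat_lit 6) (nat_lit 0xc0000c04),.c (nat_lit 0) (nat_lit 0x80000805),.c (nat_lit 3) (nat_lit 0x140200c04),
    .c (nat_lit 4) (nat_lit 0x1000000c04),.c (nat_lit 2) (nat_lit 0x80020805),.c (nat_lit 2) (nat_lit 2),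
    .c (nat_lit 6) (nat_lit 0x18c6548c84),.c (nat_lit 2) (nat_lit 0x10840608a4),.c (nat_lit 1) (nat_lit 0x1800028804),
    .c (nat_lit 2) (nat_lit 0x1000030003),.c (nat_lit 2) (nat_lit 0x842208a4),.c (nat_lit 6) (nat_lit 0xc6300c85),
    .c (nat_lit 1) (nat_lit 0x4020805),.c (nat_lit 3) (nat_lit 0x1004420005),.c (nat_lit 0) (nat_lit 0x18d2388c8c),
    .r (nat_lit 0xdb7) (nat_lit 10) [nat_lit 65,nat_lit 0x18060010a2],.c (nat_lit 6) (nat_lit 0x1946348c84),
    .c (nat_lit 2) (nat_lit 0x10042608a4),.c (nat_lit 3) (nat_lit 2),.c (nat_lit 1) (nat_lit 0x1800301004),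
    .c (nat_lit 3) (nat_lit 0x842208a4),.c (nat_lit 2) (nat_lit 0x1000240005),.c (nat_lit 0) (nat_lit 0x11ce069d8d),
    .c (nat_lit 2) (nat_lit 0x10840408a4),.c (nat_lit 3) (nat_lit 0xc0200004),.c (nat_lit 1) (nat_lit 0x18c0300804),
    .c (nat_lit 1) (nat_lit 0x300804),.c (nat_lit 6) (nat_lit 0x18c6028c85),.c (nat_lit 4) (nat_lit 2),
    .r (nat_lit 0x104b) (nat_lit 0) [nat_lit 65,nat_lit 0x200001,nat_lit 0x630000000a2,nat_lit 0x6000c0000a2,
    nat_lit 0x70180000082],.c (nat_lit 4) (nat_lit 0x842208a4),.c (nat_lit 2) (nat_lit 0x1000040003),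
    .r (nat_lit 0xdb7) (nat_lit 10) [nat_lit 0x18c6019062,nat_lit 0x80010042],.c (nat_lit 2) (nat_lit 0x1004040005),
    .c (nat_lit 3) (nat_lit 0xc0028c85),.c (nat_lit 6) (nat_lit 0x1946549505),.c (nat_lit 0) (nat_lit 0xc6328c85),
    .c (nat_lit 6) (nat_lit 0x842208a4),.c (nat_lit 2) (nat_lit 0xc6300c85),
    .r (nat_lit 0xdb7) (nat_lit 10) [nat_lit 0x18c6319061,nat_lit 0x1104421482],.c (nat_lit 3) (nat_lit 0x44208a4),
    .c (nat_lit 1) (nat_lit 0x18c0001004),.c (nat_lit 2) (nat_lit 0x1080040005),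
    .r (nat_lit 0x164b) (nat_lit 15) [nat_lit 0x200061,nat_lit 65,nat_lit 0x1080000002],
    .r (nat_lit 0x10ef) (nat_lit 3) [nat_lit 0x1006000002,nat_lit 0x20006000082,nat_lit 0x84000002,
    nat_lit 0x3000e000082,nat_lit 0x2000c8000a2],.c (nat_lit 0) (nat_lit 0x500e00000c),.c (nat_lit 5) (nat_lit 2),
    .c (nat_lit 3) (nat_lit 0x4400003),.c (nat_lit 2) (nat_lit 0x10802408a4),.c (nat_lit 0) (nat_lit 0x10802208a4),
    .c (nat_lit 6) (nat_lit 0x18c0328c85),.c (nat_lit 0) (nat_lit 0x500e00000c),.c (nat_lit 6) (nat_lit 2),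
    .r (nat_lit 0x89c) (nat_lit 9) [nat_lit 0x3800600001,nat_lit 0x380c000002,nat_lit 0x69000000002,
    nat_lit 0x3180000002,nat_lit 65,nat_lit 0x3000000001],.c (nat_lit 2) (nat_lit 0x10842408a2),
    .c (nat_lit 0) (nat_lit 0x100e769d8d),.c (nat_lit 3) (nat_lit 0x10844208a4),.c (nat_lit 2) (nat_lit 0x10042408a4),
    .c (nat_lit 3) (nat_lit 0x18c6028c85),.c (nat_lit 7) (nat_lit 2),.c (nat_lit 1) (nat_lit 0xc0000804),
    .c (nat_lit 8) (nat_lit 2),.c (nat_lit 6) (nat_lit 0x18c6328c83)]]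

/-- nodes -/
noncomputable def rD8k_36_14 : List RJ :=
  [.l (nat_lit 13) (nat_lit 0x7a0) (nat_lit 3) (nat_lit 0x38f0000038f00000350000003140000032400000424000003c00000039600000322000003e20000031a000003de000003ea000003060000037800000378) (nat_lit 0x950000009500000110000000d400000000000001000000008e000000640000004200000102000000460000010a0000011e0000003a000000ac000000ac)
    (nat_lit 0x1840be84fe28925c8c345fa32b10c8a3468228513a88c45c62fb17d0c2041e2bb2498b9c50632b1c78a345561fb1338aac62a32d15d8a243d027c1a80b005841e81cc0b307682040f40ed052c2ae10789fc4081e818a085050c28818208807682041040f403d42021738c344282c01a608905102c017408883d01e813608104f026624992e46283502120d306a03c01600c887bc31a1ca07a06f032e1958cac5101e81e00b0066435c1bf0c10af83d81760e183d42861418bf450c2c21a80a206603321aa0a5079022413c0d705d42ee1468a344402cc19108885283041a407e05b821810009c04f42761c788646083981600ba06a837e1d00d206f82d80f40f0066c3360fd8a1440820418d07a04483d816c08605782100fe0c0074434a1558d047683b41ef07a079057c1be0b707302bc1500e908ac3fe15588c47a03b40f408106b83861e009c07483001000ec068c35e13389d44101e81ca09b04f02ec0f408005401fc0f4080048425a1968bec4042ae19709985dc28619b09d87fc34a12d0d785902cc18a8b8c3d42961bc09e05d41ea19b09e88ac3a21210d185982c8)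
    (nat_lit 0x1841e80f407a03d01e80f407a03d01e80f407a03d01e80f407a017d0c20f407a03d01e80f407a03d01e80f407a03d01e80f407a013f883c3d07a03d01e80f407a03d01e80f407a03d01e80f407a01448aec4f81e83d01e80f407a03d01e80f407a03d01e80f407a025c924c6a03141a61e80f407a03d01e80f407a03d01e80f407a01868b9c5802141120d30f407a03d01e80f407a03d01e80f407a017e8a0c5842861440d406647a03d01e80f407a03d01e80f407a01958cac3d02881600f006b83323d01e80f407a03d01e80f407a010c8e3c7303041740b006fc3541a41e80f407a03d01e80f407a01468a345982201110c886082940fc0d20f407a03d01e80f407a01a08aac7683b40f40f78af83c816e0df05787a03d01e80f407a014287ec4082040f40c687b022410c0b604202bc3d01e80f407a013a899c3d02081360e505d827810007a03f82a01001e80f407a01188aac7683d010207a070c35c1380f006003a41d80800f407a01718c5452c1ea13c0de03d42ea13d0cd87444561a309085907a017d8cb455c2021330cb850c2ee13b0cd86943fe1af09685982c8)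
    (nat_lit 4) (nat_lit 83)
    [[nat_lit 2,nat_lit 0x1000002,nat_lit 17,nat_lit 0x1000011,nat_lit 0x100011,nat_lit 0x1001,nat_lit 0x10001,
    nat_lit 0x1010001,nat_lit 0x10010001,nat_lit 0x100001,nat_lit 0x1000001,nat_lit 0x2000001,nat_lit 0x10000001],
    [nat_lit 32,nat_lit 48,nat_lit 0x1020,nat_lit 0x100020,nat_lit 0x10000020,nat_lit 272,nat_lit 0x100110,
    nat_lit 0x10000110,nat_lit 0x1010,nat_lit 0x101010,nat_lit 0x10001010,nat_lit 0x10010,nat_lit 0x110010,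
    nat_lit 0x100010,nat_lit 0x1000010,nat_lit 0x1000110,nat_lit 0x1001010,nat_lit 0x1100010,nat_lit 0x11000010,
    nat_lit 0x1010010,nat_lit 0x10000010,nat_lit 0x10100010],[nat_lit 512,nat_lit 0x1100,nat_lit 0x101100,
    nat_lit 0x10001100,nat_lit 0x100100,nat_lit 0x1100100,nat_lit 0x1000100,nat_lit 0x10000100,nat_lit 0x11000100],
    [nat_lit 0x2000,nat_lit 0x11000,nat_lit 0x1011000,nat_lit 0x101000,nat_lit 0x1001000,nat_lit 0x10001000,
    nat_lit 0x11001000],[nat_lit 0x20000,nat_lit 0x110000,nat_lit 0x1110000,nat_lit 0x1010000,nat_lit 0x2010000,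
    nat_lit 0x10010000,nat_lit 0x11010000],[nat_lit 0x200000,nat_lit 0x1100000,nat_lit 0x2100000],[nat_lit 0x2000000,
    nat_lit 0x3000000,nat_lit 0x12000000,nat_lit 0x11000000],[nat_lit 0x20000000]]
    [.c (nat_lit 1) (nat_lit 2),.r (nat_lit 0xdbb) (nat_lit 4) [nat_lit 0x3021,nat_lit 0x220002],
    .c (nat_lit 0) (nat_lit 0x2000605),.c (nat_lit 0) (nat_lit 0x533045),.c (nat_lit 6) (nat_lit 0x3400304),
    .c (nat_lit 0) (nat_lit 0x533045),.c (nat_lit 1) (nat_lit 0x30204),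
    .r (nat_lit 0xdbb) (nat_lit 4) [nat_lit 0x303042,nat_lit 0x220002],.c (nat_lit 6) (nat_lit 0x820205),
    .c (nat_lit 0) (nat_lit 0x200203),.c (nat_lit 0) (nat_lit 0x533045),
    .r (nat_lit 0x10c9) (nat_lit 11) [nat_lit 0x2001,nat_lit 0x20001,nat_lit 0x200001,nat_lit 0x2000001,
    nat_lit 0x3041],.c (nat_lit 0) (nat_lit 0x2000205),.c (nat_lit 2) (nat_lit 2),
    .r (nat_lit 0x104b) (nat_lit 1) [nat_lit 33,nat_lit 0x2000001,nat_lit 0x6d600052,nat_lit 0x6d006052,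
    nat_lit 0x7c060042],.r (nat_lit 0xe84) (nat_lit 9) [nat_lit 0x22002,nat_lit 0x220002,nat_lit 33,
    nat_lit 0x20030002,nat_lit 0x5353452],.c (nat_lit 6) (nat_lit 0x3600002),.c (nat_lit 6) (nat_lit 0x3400002),
    .c (nat_lit 6) (nat_lit 0x3803004),.c (nat_lit 0) (nat_lit 0x2503004),.c (nat_lit 1) (nat_lit 0x2002405),
    .c (nat_lit 0) (nat_lit 0x533345),.r (nat_lit 0xdb4) (nat_lit 14) [nat_lit 0x220002,nat_lit 0x330452],
    .r (nat_lit 0xdbb) (nat_lit 14) [nat_lit 0x30020042,nat_lit 0x2000001],.c (nat_lit 0) (nat_lit 0x206000d),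
    .c (nat_lit 6) (nat_lit 0x3430004),.r (nat_lit 0x164b) (nat_lit 4) [nat_lit 0x2000031,nat_lit 33,
    nat_lit 0x220002],.c (nat_lit 0) (nat_lit 0x533345),.r (nat_lit 0xdb7) (nat_lit 3) [nat_lit 0x5303452,nat_lit 33],
    .c (nat_lit 0) (nat_lit 0x3d777cd),.r (nat_lit 0x1588) (nat_lit 11) [nat_lit 0x302002,nat_lit 0x220002,
    nat_lit 0x2000001,nat_lit 0x3000021],.r (nat_lit 0xdbb) (nat_lit 14) [nat_lit 0x5303452,nat_lit 0x2000001],
    .c (nat_lit 0) (nat_lit 0x503345),.c (nat_lit 0) (nat_lit 0x2000007),.c (nat_lit 0) (nat_lit 0x300002),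
    .c (nat_lit 3) (nat_lit 2),.r (nat_lit 0xdbb) (nat_lit 14) [nat_lit 33,nat_lit 0x2000001],
    .c (nat_lit 0) (nat_lit 0x2503004),.c (nat_lit 0) (nat_lit 0x3004),.c (nat_lit 0) (nat_lit 0x2503004),
    .c (nat_lit 0) (nat_lit 0x2503004),.r (nat_lit 0xdbb) (nat_lit 14) [nat_lit 0x35323452,nat_lit 0x2000001],
    .c (nat_lit 0) (nat_lit 0x3002),.c (nat_lit 0) (nat_lit 0x3004),.c (nat_lit 4) (nat_lit 2),
    .c (nat_lit 0) (nat_lit 0x503345),.c (nat_lit 0) (nat_lit 0x503345),.c (nat_lit 0) (nat_lit 0x3033345),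
    .c (nat_lit 1) (nat_lit 0x2422654),.r (nat_lit 0xdb7) (nat_lit 3) [nat_lit 33,nat_lit 0x5303452],
    .c (nat_lit 6) (nat_lit 0x3433345),.c (nat_lit 5) (nat_lit 2),.c (nat_lit 0) (nat_lit 0x220003),
    .r (nat_lit 0xdbb) (nat_lit 14) [nat_lit 0x30003452,nat_lit 0x2000001],.c (nat_lit 0) (nat_lit 0x503345),
    .r (nat_lit 0x10c9) (nat_lit 11) [nat_lit 0x2001,nat_lit 0x20001,nat_lit 0x200001,nat_lit 0x2000001,
    nat_lit 0x300041],.c (nat_lit 0) (nat_lit 0x2020005),.r (nat_lit 0xdb4) (nat_lit 14) [nat_lit 0x220002,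
    nat_lit 0x302042],.c (nat_lit 6) (nat_lit 2),.c (nat_lit 0) (nat_lit 0x3033345),
    .r (nat_lit 0xdbb) (nat_lit 14) [nat_lit 0x33303432,nat_lit 0x2000001],.c (nat_lit 7) (nat_lit 2),
    .r (nat_lit 0x9ab) (nat_lit 1) [nat_lit 0x70777c52,nat_lit 33,nat_lit 0x6c666d42,nat_lit 0x66002,
    nat_lit 0xd7d7c52],.r (nat_lit 0x164c) (nat_lit 8) [nat_lit 0x3000021,nat_lit 0x2000001,nat_lit 0x2002001,
    nat_lit 0x3020001,nat_lit 0x2200001,nat_lit 0x27000001],.r (nat_lit 0xdbb) (nat_lit 4) [nat_lit 33,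
    nat_lit 0x220002],.c (nat_lit 8) (nat_lit 2)],
    .l (nat_lit 12) (nat_lit 600) (nat_lit 4) (nat_lit 0x131000000cd000000ff000000ff000000cd000001310000011100000111000001360000013600000104000001040000010f0000010f0000010000000100) (nat_lit 0x69000000050000003700000037000000050000006900000025000000250000000000000000000000320000003200000027000000270000003600000036)
    (nat_lit 0xdc12c0fa0fa0640c810c12a1450af0fd0ff10a10a0fb0f90640dc0960960c80640a80c60cd0cd09b09d0940a60970b30960fa0c80c80dc0960da0da0fd0ff0cd0cd0bc0d80b50db0960fa0c80c80dc0960980da0d10ed0cd0cd0bc0980c90db0640c80960960c80640ba0c60cd10f0db0c90940a60970b30c80640dc0dc12c0c810c10c14918b12110f0ea10a0dd1170c612a0da0da10c0c60920ec1011110df0c70ce0c81a30fb0a810c0980da10c0ba0ec0921111110d30df0fe0f815d0b50cd0af0ed0ff18b10f1111111361360f610413511b1000ec0cd1450d10fd1490cd11110113613610410413d12310011209d0ff0cd0cd10f0c90df0c71041040be0d20cb0dd0ba0a009b0fd0cd0cd1210db0d30df1040f60d20be0dd0dd0ce0b20a610a0980d810a0a60f80c812311b0dd0dd1040e80db0d909410a0bc0bc0ea0940fe0ce13d1350dd0cb0e81040db0d90b30f90db0db1170b30b50fb1120ec0b20a00d90d90ca0ca0970fb0c90b50dd09715d1a31001000ce0ba0db0db0ca0ca)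
    (nat_lit 0xdc25825825825825825825825825825825825825825825812c0dc2582582582582582582582582582582582582582580fa0960c82582582582582582582582582582582582582580fa0960c80c82582582582582582582582582582582582580640c80dc0dc0c82582582582582582582582582582582580c80640960960640c825825825825825825825825825825810c0a80da0980ba10c09225825825825825825825825825812a0c60da0da0c610c0ec0922582582582582582582582581310cd0fd0d10cd1311011111362582582582582582582580af0cd0ff0ed10f1311111111361362582582582582582580fd09b0cd0cd0db0ff0df0d30f61040be2582582582582580ff09d0cd0cd0c91010c70df1041040d20be2582582582580f80940bc0bc0940ea0ce0fe13513d0cb0dd10425825825810a0a60d80980a610a0c80f811b1230dd0dd0e81042582580fb0970b50c90970dd18f14d1001000ba0ce0db0db0ca2580f90b30db0db0b31170fb0b50ec1120a00b20d90d90ca0ca)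
    (nat_lit 5) (nat_lit 79)
    [[nat_lit 2,nat_lit 258,nat_lit 17,nat_lit 0x1000011,nat_lit 257,nat_lit 513,nat_lit 0x10101,nat_lit 0x10000101,
    nat_lit 0x1001,nat_lit 0x100001,nat_lit 0x100002,nat_lit 0x1100001,nat_lit 0x10100001,nat_lit 0x10100101,
    nat_lit 0x100011,nat_lit 0x1000001,nat_lit 0x1000002,nat_lit 0x1000101,nat_lit 0x1010001,nat_lit 0x11000001,
    nat_lit 0x10000001],[nat_lit 32,nat_lit 272,nat_lit 0x1000110,nat_lit 0x10010,nat_lit 0x1010010,nat_lit 0x100010,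
    nat_lit 0x1100010,nat_lit 0x10100010,nat_lit 0x11100010,nat_lit 0x1000010,nat_lit 0x2000010,nat_lit 0x10000010,
    nat_lit 0x11000010],[nat_lit 512,nat_lit 768,nat_lit 0x1100,nat_lit 0x10001100,nat_lit 0x10100,nat_lit 0x20100,
    nat_lit 0x1010100,nat_lit 0x100100,nat_lit 0x10100100,nat_lit 0x1000100,nat_lit 0x10000100],[nat_lit 0x11000,
    nat_lit 0x10101000,nat_lit 0x20101000,nat_lit 0x1001000,nat_lit 0x11001000,nat_lit 0x10001000],[nat_lit 0x20000,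
    nat_lit 0x30000,nat_lit 0x40000,nat_lit 0x1020000,nat_lit 0x110000,nat_lit 0x10110000,nat_lit 0x1010000,
    nat_lit 0x1110000,nat_lit 0x2010000,nat_lit 0x10010000],[nat_lit 0x200000,nat_lit 0x1200000,nat_lit 0x10200000,
    nat_lit 0x1100000,nat_lit 0x11200000,nat_lit 0x2100000,nat_lit 0x11100000,nat_lit 0x10100000,nat_lit 0x20200000,
    nat_lit 0x20100000],[nat_lit 0x2000000,nat_lit 0x11000000],[nat_lit 0x20000000]]
    [.c (nat_lit 1) (nat_lit 2),.r (nat_lit 0xdb2) (nat_lit 2) [nat_lit 0x18c00210a2,nat_lit 0x80220002],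
    .c (nat_lit 0) (nat_lit 0x4001805),.r (nat_lit 0xdb4) (nat_lit 3) [nat_lit 0xca329002,nat_lit 0x80020061],
    .c (nat_lit 0) (nat_lit 0x4011005),.c (nat_lit 1) (nat_lit 0x18802),.c (nat_lit 0) (nat_lit 0x518c04),
    .r (nat_lit 0xdbe) (nat_lit 13) [nat_lit 0x1000328082,nat_lit 0x4010001],
    .r (nat_lit 0xdb2) (nat_lit 2) [nat_lit 0xc03010a2,nat_lit 0x80220002],.c (nat_lit 0) (nat_lit 0xc6518885),
    .c (nat_lit 0) (nat_lit 0x84410ca4),.r (nat_lit 0xdb4) (nat_lit 3) [nat_lit 0xca329002,nat_lit 0x180a3210a2],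
    .r (nat_lit 0xdb4) (nat_lit 3) [nat_lit 0xca329002,nat_lit 0x1108221482],.c (nat_lit 0) (nat_lit 0x844000a4),
    .c (nat_lit 1) (nat_lit 0xc051a085),.r (nat_lit 0x164b) (nat_lit 8) [nat_lit 0x6018041,nat_lit 0x4010001,
    nat_lit 0x1080000002],.r (nat_lit 0x1404) (nat_lit 7) [nat_lit 0x1108221402,nat_lit 0xca329002,nat_lit 0x4010001,
    nat_lit 0x18ca301061],.r (nat_lit 0xdc2) (nat_lit 3) [nat_lit 0x1000328082,nat_lit 0x18ca001002],
    .c (nat_lit 0) (nat_lit 0x300c02),.c (nat_lit 1) (nat_lit 0x802),.r (nat_lit 0xdbb) (nat_lit 9) [nat_lit 65,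
    nat_lit 0xca329002],.c (nat_lit 2) (nat_lit 2),.c (nat_lit 0) (nat_lit 0x403000d),
    .c (nat_lit 0) (nat_lit 0x4010005),.r (nat_lit 0xdb2) (nat_lit 2) [nat_lit 0x194a329082,nat_lit 0x80220002],
    .r (nat_lit 0xdbe) (nat_lit 13) [nat_lit 0x10880000a2,nat_lit 0x4010001],.c (nat_lit 2) (nat_lit 0x884110a4),
    .r (nat_lit 0xdb7) (nat_lit 6) [nat_lit 0x4010001,nat_lit 0x6018861],
    .r (nat_lit 0x1404) (nat_lit 7) [nat_lit 0x1108221402,nat_lit 0xca329002,nat_lit 0x4010001,nat_lit 0x194a329082],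
    .c (nat_lit 1) (nat_lit 0xc0519085),.c (nat_lit 0) (nat_lit 0x4000007),
    .r (nat_lit 0x1638) (nat_lit 8) [nat_lit 0x1108221402,nat_lit 0x194a329082,nat_lit 0x4010001,nat_lit 0xca329002],
    .c (nat_lit 0) (nat_lit 0x4000005),.c (nat_lit 0) (nat_lit 0x4000007),.c (nat_lit 3) (nat_lit 2),
    .c (nat_lit 0) (nat_lit 0x4030005),.c (nat_lit 1) (nat_lit 0xc001a004),
    .r (nat_lit 0xdb7) (nat_lit 6) [nat_lit 0x4010001,nat_lit 65],.c (nat_lit 0) (nat_lit 0x210003),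
    .c (nat_lit 0) (nat_lit 0x4918004),.r (nat_lit 0xdb4) (nat_lit 3) [nat_lit 0xca329002,nat_lit 0x882200a2],
    .c (nat_lit 0) (nat_lit 0xc6521485),.c (nat_lit 0) (nat_lit 0xc6501485),.c (nat_lit 0) (nat_lit 0x4010005),
    .c (nat_lit 0) (nat_lit 0x4010005),.c (nat_lit 0) (nat_lit 0xc0700006),.c (nat_lit 0) (nat_lit 0x44110a4),
    .c (nat_lit 0) (nat_lit 0x44110a4),.r (nat_lit 0xdc2) (nat_lit 3) [nat_lit 65,nat_lit 0x18ca001002],
    .r (nat_lit 0xdb2) (nat_lit 2) [nat_lit 0xc03290a2,nat_lit 0x80220002],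
    .r (nat_lit 0xdbe) (nat_lit 13) [nat_lit 65,nat_lit 0x4010001],.c (nat_lit 5) (nat_lit 2),
    .c (nat_lit 0) (nat_lit 0x4700002),.c (nat_lit 0) (nat_lit 0x11900006),
    .r (nat_lit 0xdbb) (nat_lit 9) [nat_lit 0x8010061,nat_lit 0xca329002],.r (nat_lit 0xdb2) (nat_lit 2) [nat_lit 65,
    nat_lit 0x80220002],.r (nat_lit 0xdc2) (nat_lit 3) [nat_lit 0xc03290a2,nat_lit 0x18ca001002],
    .c (nat_lit 0) (nat_lit 0x200003),.r (nat_lit 0xdbe) (nat_lit 13) [nat_lit 0xc03290a2,nat_lit 0x4010001],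
    .r (nat_lit 0xdb4) (nat_lit 3) [nat_lit 0xca329002,nat_lit 0x84020062],.c (nat_lit 0) (nat_lit 0x200003),
    .c (nat_lit 6) (nat_lit 2),.r (nat_lit 0xdb7) (nat_lit 6) [nat_lit 0x4010001,nat_lit 0x195234a0a2],
    .r (nat_lit 0x1404) (nat_lit 7) [nat_lit 0x1108221402,nat_lit 0xca329002,nat_lit 0x4010001,nat_lit 65],
    .c (nat_lit 0) (nat_lit 0xc6519487),.c (nat_lit 1) (nat_lit 0xc6518083),
    .r (nat_lit 0x1638) (nat_lit 8) [nat_lit 0x1108221402,nat_lit 65,nat_lit 0x4010001,nat_lit 0xca329002],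
    .c (nat_lit 0) (nat_lit 0xc6519487),.c (nat_lit 0) (nat_lit 0xc6519485),
    .r (nat_lit 0x9ca) (nat_lit 8) [nat_lit 65,nat_lit 0x8020001,nat_lit 0xca329061,nat_lit 0x218001,
    nat_lit 0x1108221441],.r (nat_lit 0x163d) (nat_lit 10) [nat_lit 0xca329002,nat_lit 0x88221482,nat_lit 0x4010001,
    nat_lit 0x1080000002],.c (nat_lit 7) (nat_lit 2),.c (nat_lit 3) (nat_lit 0x10002),.c (nat_lit 8) (nat_lit 2)]]

/-- nodes -/
noncomputable def rD8k_36_15 : List RJ :=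
  [.l (nat_lit 15) (nat_lit 0x1308) (nat_lit 3) (nat_lit 0xa3f00000a3f00000a1000000a10000009fc000009fc000009fc00000a2400000d5a00000bf200000a3800000a3800000978000009cc0000091a0000090e) (nat_lit 0x31b0000031b0000034a0000034a0000035e0000035e000003360000035e000001680000000000000322000003220000038e000003e20000044c00000440)
    (nat_lit 0xe401c9037d86f50dc2178c5aa8741126e2c343c386d30b2a18242f9865f0ed41c803a286f50e8a18b45e387b30ff6274438e871d0c0e19742f985f50dea1bd43bd06800bc019883a4064e1150154837707ca0d1818b82e4067a0e8a1bec363077a0d141ac833106b20f9824d036d06e40df41ac036105c60c5a178c35906620d3c1a783d106c6113c29d032c07b60cf018b82d505440e8a1b8434505e00df01a7833b069e112829a836d068a0ed020602a805b20f661d04359064e0d3c1b1832c064411c8293026e06da0cf018682d804c2178e2d5433107480cec1e883a90658117828902eb07d40d2c190828504c213a22c3449a055214d429d05120a4c164033d851c0a3815dc2a90261091a0ff624dc3e608a81128227845e08e412942c8046808d010c820683f8085c0e3a1b4c37207ca0d141ed83ea06da11a028e038608560c0019582c605f80e3a1e1c36d06ee0db419602eb04dc11a028e03c2070c0d54195832006700cba1824358062e103018b8321061a10342a9032b06560ae414a026105380c0e165437d068c0ed019e034b067810c82bb83550600098415c8290058c0bea197c2e3067a0b64151026104c210b8246833805f80b1814e02f506560be617cc36105c80aa016a828505b00fe01308320058c0a40130826105ea)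
    (nat_lit 0xe404c20984130826104c20984130826104c20984130826104c2098413080e481c80984130826104c20984130826104c20984130826104c2098413080df61d143bd130826104c20984130826104c20984130826104c2098413080dea1bd4340077a26104c20984130826104c20984130826104c2098413080dc21d142f0068a0d3c4c20984130826104c20984130826104c2098413080bc618b433106b20d3c1a78984130826104c20984130826104c20984130816aa2f1c3a406620f4419d832c130826104c20984130826104c2098413080e821ecc32706b20d8c1a78322065826104c20984130826104c209841308126e1fec45407cc113c225047208bc16404c20984130826104c209841308161a27442a9093414e829a85260a2419ec2c80984130826104c2098413080f0e1c7437706da0cb01b6826e05d614702340386130826104c2098413080da61c743e506e40f6c1a2836d07d41470234042b070c26104c2098413080b2a181c34606fa0cf01da033c069615dc219030006aa0ae44c2098413080c12197431706b00c5c206030d06421548206832b06560a5015c898413080be617cc2e406c20b5415402d8050a09841fc02c60640098414802f513080cbe17d433d05c60a8816c826104c2123421702fc06700a70163032b05ea)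
    (nat_lit 5) (nat_lit 107)
    [[nat_lit 2,nat_lit 3,nat_lit 18,nat_lit 258,nat_lit 0x10002,nat_lit 0x100002,nat_lit 0x1000002,
    nat_lit 0x10000002,nat_lit 17,nat_lit 33,nat_lit 273,nat_lit 0x10011,nat_lit 0x100011,nat_lit 0x1000011,
    nat_lit 0x10000011,nat_lit 257,nat_lit 0x10101,nat_lit 0x100101,nat_lit 0x1000101,nat_lit 0x1001,nat_lit 0x1011,
    nat_lit 0x11001,nat_lit 0x101001,nat_lit 0x10001,nat_lit 0x20001,nat_lit 0x110001,nat_lit 0x1010001,
    nat_lit 0x10010001,nat_lit 0x100001,nat_lit 0x200001,nat_lit 0x1100001,nat_lit 0x10100001,nat_lit 0x1000001,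
    nat_lit 0x11000001,nat_lit 0x10000001],[nat_lit 32,nat_lit 48,nat_lit 288,nat_lit 0x10020,nat_lit 0x1000020,
    nat_lit 0x10000020,nat_lit 272,nat_lit 0x10110,nat_lit 0x10010,nat_lit 0x100010,nat_lit 0x1000010,
    nat_lit 0x10000010],[nat_lit 512,nat_lit 0x10100,nat_lit 0x100100,nat_lit 0x1000100,nat_lit 0x10000100],
    [nat_lit 0x1001000],[nat_lit 0x20000,nat_lit 0x110000,nat_lit 0x1010000],[nat_lit 0x200000,nat_lit 0x1100000,
    nat_lit 0x10100000],[nat_lit 0x2000000,nat_lit 0x11000000],[nat_lit 0x20000000]]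
    [.c (nat_lit 1) (nat_lit 2),.r (nat_lit 0x897) (nat_lit 6) [nat_lit 0xc7998c6501,nat_lit 0x39c0739861,
    nat_lit 0xce5b3ce121,nat_lit 65,nat_lit 0x630cc63481,nat_lit 0x9e5b9ce121],
    .r (nat_lit 0x158d) (nat_lit 1) [nat_lit 0x10001,nat_lit 0x1800200001,nat_lit 0x1080000001,nat_lit 0x2940329062],
    .r (nat_lit 0x898) (nat_lit 4) [nat_lit 0xa200101,nat_lit 65,nat_lit 0x88000121,nat_lit 0x40100a1,
    nat_lit 0x100a000101,nat_lit 0x40000a1],.r (nat_lit 0xdb4) (nat_lit 5) [nat_lit 0x80200001,nat_lit 0x146519062],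
    .r (nat_lit 0x158d) (nat_lit 1) [nat_lit 0x10001,nat_lit 0x1800200001,nat_lit 0x1080000001,nat_lit 0x1940529062],
    .r (nat_lit 0xdb4) (nat_lit 5) [nat_lit 0x80200001,nat_lit 0x146529062],
    .r (nat_lit 0xdb4) (nat_lit 5) [nat_lit 0x80200001,nat_lit 0x1946529061],
    .r (nat_lit 0xdbb) (nat_lit 11) [nat_lit 65,nat_lit 0x1080000001],
    .r (nat_lit 0x899) (nat_lit 6) [nat_lit 0x88000001,nat_lit 0xa200001,nat_lit 0x10500041,nat_lit 0x18d2218861,
    nat_lit 0x4000001,nat_lit 0x100a000001],.r (nat_lit 0xdb6) (nat_lit 13) [nat_lit 0x1800018861,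
    nat_lit 0x1000010001],.r (nat_lit 0x158d) (nat_lit 1) [nat_lit 0x10001,nat_lit 0x1800200001,nat_lit 0x1080000001,
    nat_lit 0x18c0000861],.r (nat_lit 0x899) (nat_lit 6) [nat_lit 0x88000001,nat_lit 0xa200001,nat_lit 0x1810300041,
    nat_lit 0xd2018861,nat_lit 0x4000001,nat_lit 0x100a000001],.r (nat_lit 0x158d) (nat_lit 1) [nat_lit 0x10001,
    nat_lit 0x1800200001,nat_lit 0x1080000001,nat_lit 0x18c0018861],
    .r (nat_lit 0xdb3) (nat_lit 14) [nat_lit 0x1800018861,nat_lit 0x1000300041],.c (nat_lit 0) (nat_lit 0xc6018c43),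
    .r (nat_lit 0xdb4) (nat_lit 5) [nat_lit 0x80200001,nat_lit 0xc0300861],
    .r (nat_lit 0xdb6) (nat_lit 13) [nat_lit 0x318861,nat_lit 0x1000010001],
    .r (nat_lit 0xdb4) (nat_lit 5) [nat_lit 0x80200001,nat_lit 0xc0318861],
    .r (nat_lit 0xdc2) (nat_lit 11) [nat_lit 65,nat_lit 0x318861],.c (nat_lit 0) (nat_lit 0x6018002),
    .r (nat_lit 0x89a) (nat_lit 6) [nat_lit 0x88000001,nat_lit 0xa200001,nat_lit 0xce018041,nat_lit 0x180c300861,
    nat_lit 0x4000001,nat_lit 0x100a000001],.c (nat_lit 0) (nat_lit 0xc6000002),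
    .r (nat_lit 0x164b) (nat_lit 8) [nat_lit 0x18001,nat_lit 65,nat_lit 0x80200001],
    .r (nat_lit 0xdc2) (nat_lit 11) [nat_lit 0x80028041,nat_lit 0xc0310861],
    .r (nat_lit 0x158d) (nat_lit 1) [nat_lit 0x10001,nat_lit 0x1800200001,nat_lit 0x1080000001,nat_lit 0xc0300861],
    .r (nat_lit 0xdc2) (nat_lit 11) [nat_lit 0x80018041,nat_lit 0xc0300861],
    .r (nat_lit 0xdb3) (nat_lit 14) [nat_lit 0x1104200c41,nat_lit 0x1946519061],
    .r (nat_lit 0xdbb) (nat_lit 11) [nat_lit 0x1800200041,nat_lit 0x1080000001],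
    .r (nat_lit 0x899) (nat_lit 6) [nat_lit 0x88000001,nat_lit 0xa200001,nat_lit 0x2810000041,nat_lit 0x10d2318861,
    nat_lit 0x4000001,nat_lit 0x100a000001],.r (nat_lit 0x158d) (nat_lit 1) [nat_lit 0x10001,nat_lit 0x1800200001,
    nat_lit 0x1080000001,nat_lit 0xc0318861],.r (nat_lit 0xdb3) (nat_lit 14) [nat_lit 0x318861,nat_lit 65],
    .r (nat_lit 0x164b) (nat_lit 8) [nat_lit 0x18001,nat_lit 0x10041,nat_lit 0x80200001],
    .r (nat_lit 0xdb3) (nat_lit 14) [nat_lit 0x1104210c41,nat_lit 0x1946529061],.c (nat_lit 0) (nat_lit 0x25253a509),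
    .c (nat_lit 2) (nat_lit 2),.r (nat_lit 0xdb3) (nat_lit 14) [nat_lit 0x208600064,nat_lit 0x24af4a044],
    .r (nat_lit 0xdb3) (nat_lit 14) [nat_lit 0x188400063,nat_lit 0x1cab39843],
    .r (nat_lit 0xdb3) (nat_lit 14) [nat_lit 0x104410062,nat_lit 0x146939042],
    .r (nat_lit 0xdb3) (nat_lit 14) [nat_lit 0x104400062,nat_lit 0x146929042],
    .r (nat_lit 0xe6d) (nat_lit 11) [nat_lit 65,nat_lit 0x4000001,nat_lit 0x100400061,nat_lit 0x2000500041,
    nat_lit 0x2946529001],.r (nat_lit 0xdb2) (nat_lit 5) [nat_lit 65,nat_lit 0x1000010001],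
    .r (nat_lit 0xdb3) (nat_lit 14) [nat_lit 0x84210061,nat_lit 0xc6528841],.c (nat_lit 3) (nat_lit 0x218c02),
    .c (nat_lit 2) (nat_lit 0xc0010002),.c (nat_lit 3) (nat_lit 0x218002),
    .r (nat_lit 0xdc0) (nat_lit 13) [nat_lit 0x80200001,nat_lit 0x1000300041],.c (nat_lit 3) (nat_lit 2),
    .c (nat_lit 0) (nat_lit 0x200803),.r (nat_lit 0xdb2) (nat_lit 5) [nat_lit 0x1800200041,nat_lit 0x1000010001],
    .c (nat_lit 0) (nat_lit 0x200003),.c (nat_lit 0) (nat_lit 0xc6018c43),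
    .r (nat_lit 0xdb3) (nat_lit 14) [nat_lit 0x84000042,nat_lit 0xc6529062],.c (nat_lit 5) (nat_lit 2),
    .c (nat_lit 3) (nat_lit 0xc0200c02),.c (nat_lit 5) (nat_lit 0x802),.c (nat_lit 6) (nat_lit 2),
    .c (nat_lit 3) (nat_lit 0xc0200002),.r (nat_lit 0xdc0) (nat_lit 13) [nat_lit 0x80200001,nat_lit 65],
    .c (nat_lit 7) (nat_lit 2),.r (nat_lit 0xdbb) (nat_lit 8) [nat_lit 65,nat_lit 0x80200001],
    .c (nat_lit 8) (nat_lit 2)],
    .l (nat_lit 15) (nat_lit 0x13b0) (nat_lit 3) (nat_lit 0x8cd000008cd00000869000008690000087e0000087e000008c2000008c200000a7600000a76000008bd000008bd000008d2000008d2000008d2000008d2) (nat_lit 0x1a9000001a90000020d0000020d000001f8000001f8000001b4000001b40000000000000000000001b9000001b9000001a4000001a4000001a4000001a4)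
    (nat_lit 0xe481c903c406c00daa1f1c2858719159e25d438a05a40e661df4394871f0e481c902e706c00daa183438c8719147a238c37507140e66170c39487870d801b00392065c0ce21d8c34f86b510d221a440b05400cce1bbc36286bb0b9c1e2032e07240f4219c43d385ed0fae1be43f006b00f2e1c3c2e986850c1a1f1c33887630e9c1a1841d059a10fc1e3033d87570e3416a830906080daa1b543d086710bbc1d3836506ca1014200037788730cf81b6836d06d00e321c642f686b50d9416683c607b60e282308384877d0e501bd038f077c0e32142c3d3869f0d9420e83a7078c118423082d187290d001c7833b058411c625d437c886910001e3046108c214ac28d845e88bd14d828e05700970147a2b3c3eb8869101421f8461071414ec295845e88bd12f4251852108d20e281690358054010e61d5c394877d117a22f434807040e321c6428b86710dd41c503f008160dde19ec2d18709117a22f441506900d9e1c64362880b0b861df438786ef0db416a838f06f4128c28e038c87190c78182039707780e661ccc3cb86670cf81c68340072812f429b036787190d0c18f039c072e0f0e1c7c34286bb0da018202c2077c11a425c040586710e5c1de039207d60e521ca42e986c50db4184833b071e14842b8036285170e701cb83970724)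
    (nat_lit 0xe484ec09d813b027604ec09d813b027604ec09d813b027604ec09d813b00e481c909d813b027604ec09d813b027604ec09d813b027604ec09d813b00f10173839213b027604ec09d813b027604ec09d813b027604ec09d813b00d801b0032e072427604ec09d813b027604ec09d813b027604ec09d813b00daa1b5433887a10e9c4ec09d813b027604ec09d813b027604ec09d813b00f8e18343b186710d0c1d389d813b027604ec09d813b027604ec09d813b00a161c6434f87a710741b283c613b027604ec09d813b027604ec09d813b00e321c6435a85ed0b341b283db078c27604ec09d813b027604ec09d813b0159e28f443487d710fc202838a08c214ac4ec09d813b027604ec09d813b012ea238c43486f90f18200046108c2146c29589d813b027604ec09d813b00e281ba840b07e00cf61bbc38485a3117a22f434813b027604ec09d813b00b481c502a006b00eae21cc3be8729117a22f4382069027604ec09d813b00e661ccc33387970e3419f0394068014d825e838c86cf0c784ec09d813b00efa170c377870f0b541b6837a071e1470251838c87190c1018f09d813b00e521ca436285d30c241b6838f067615c0290828b86c50e5c1ce039213b00e3e1e1c35d86850c101b403be058412e02348338880b0ef01cb83eb0724)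
    (nat_lit 3) (nat_lit 83)
    [[nat_lit 2,nat_lit 17,nat_lit 257,nat_lit 273,nat_lit 0x10101,nat_lit 0x100101,nat_lit 0x10000101,
    nat_lit 0x1000101,nat_lit 0x10001,nat_lit 0x110001,nat_lit 0x1010001,nat_lit 0x100001,nat_lit 0x200001,
    nat_lit 0x1100001,nat_lit 0x1000001,nat_lit 0x2000001,nat_lit 0x10000001],[nat_lit 32,nat_lit 48,nat_lit 0x100020,
    nat_lit 0x10000020,nat_lit 272,nat_lit 0x1000110,nat_lit 0x10000110,nat_lit 0x10010,nat_lit 0x110010,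
    nat_lit 0x10010010,nat_lit 0x1010010,nat_lit 0x100010,nat_lit 0x200010,nat_lit 0x1000010,nat_lit 0x10000010],
    [nat_lit 512,nat_lit 0x10000200,nat_lit 0x1100,nat_lit 0x10100,nat_lit 0x10010100,nat_lit 0x1010100,
    nat_lit 0x100100,nat_lit 0x1100100,nat_lit 0x10100100,nat_lit 0x1000100,nat_lit 0x11000100,nat_lit 0x10000100],
    [nat_lit 0x11000,nat_lit 0x101000,nat_lit 0x1001000],[nat_lit 0x20000,nat_lit 0x110000,nat_lit 0x1010000,
    nat_lit 0x11010000,nat_lit 0x10010000,nat_lit 0x10110000,nat_lit 0x20010000],[nat_lit 0x200000,nat_lit 0x1100000,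
    nat_lit 0x10100000],[nat_lit 0x2000000,nat_lit 0x11000000],[nat_lit 0x20000000]]
    [.c (nat_lit 1) (nat_lit 2),.c (nat_lit 1) (nat_lit 0x682),.r (nat_lit 0xdb8) (nat_lit 11) [nat_lit 0x10401,
    nat_lit 0x2611],.r (nat_lit 0xdb6) (nat_lit 13) [nat_lit 0x10001,nat_lit 0x18099],
    .r (nat_lit 0xdb4) (nat_lit 5) [nat_lit 0x12001,nat_lit 0x1b099],.r (nat_lit 0xdc2) (nat_lit 11) [nat_lit 0x10401,
    nat_lit 0x611],.r (nat_lit 0xdb6) (nat_lit 13) [nat_lit 0x10001,nat_lit 0x1b099],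
    .r (nat_lit 0xdb7) (nat_lit 3) [nat_lit 0x10001,nat_lit 0x2611],.c (nat_lit 0) (nat_lit 0x10085),
    .r (nat_lit 0xdb7) (nat_lit 3) [nat_lit 0x10001,nat_lit 0x18099],.r (nat_lit 0xdc2) (nat_lit 11) [nat_lit 0x10401,
    nat_lit 0x1b099],.r (nat_lit 0xdc0) (nat_lit 13) [nat_lit 0x12001,nat_lit 0x611],
    .r (nat_lit 0xdb7) (nat_lit 3) [nat_lit 0x10001,nat_lit 0xe871a],.r (nat_lit 0xdb4) (nat_lit 5) [nat_lit 0x12001,
    nat_lit 0x611],.r (nat_lit 0xdbb) (nat_lit 8) [nat_lit 0x611,nat_lit 0x12001],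
    .r (nat_lit 0xdc2) (nat_lit 11) [nat_lit 0x10401,nat_lit 0xed71a],.c (nat_lit 1) (nat_lit 130),
    .c (nat_lit 2) (nat_lit 2),.r (nat_lit 0xdb2) (nat_lit 1) [nat_lit 0xa601a,nat_lit 0x5411],
    .r (nat_lit 0x1500) (nat_lit 7) [nat_lit 0x14019,nat_lit 0x1a699,nat_lit 0x3011],
    .r (nat_lit 0xdb2) (nat_lit 1) [nat_lit 0xa401a,nat_lit 0x3411],.r (nat_lit 0xdb8) (nat_lit 11) [nat_lit 0x10401,
    nat_lit 17],.r (nat_lit 0xdb7) (nat_lit 3) [nat_lit 0x10001,nat_lit 17],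
    .r (nat_lit 0xdb6) (nat_lit 13) [nat_lit 0x10001,nat_lit 0x18699],.c (nat_lit 0) (nat_lit 0x10405),
    .r (nat_lit 0xdb7) (nat_lit 3) [nat_lit 0x10001,nat_lit 0x1a699],.r (nat_lit 0xdb2) (nat_lit 1) [nat_lit 0x92019,
    nat_lit 0xc3421],.r (nat_lit 0xdc2) (nat_lit 11) [nat_lit 0x10401,nat_lit 0x18699],
    .r (nat_lit 0xdc0) (nat_lit 13) [nat_lit 0x12001,nat_lit 0x3011],.r (nat_lit 0xdb7) (nat_lit 3) [nat_lit 0x10001,
    nat_lit 0xeab1a],.r (nat_lit 0xdbb) (nat_lit 8) [nat_lit 0x3011,nat_lit 0x12001],.c (nat_lit 1) (nat_lit 0x702),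
    .c (nat_lit 3) (nat_lit 2),.r (nat_lit 0xdb4) (nat_lit 5) [nat_lit 0x12001,nat_lit 0xedb1a],
    .r (nat_lit 0x161e) (nat_lit 14) [nat_lit 0x18011,nat_lit 0x10001],
    .r (nat_lit 0x1636) (nat_lit 11) [nat_lit 0x401,nat_lit 17,nat_lit 0x10001],
    .r (nat_lit 0xdb4) (nat_lit 5) [nat_lit 0x12001,nat_lit 0x1b699],.r (nat_lit 0x1500) (nat_lit 7) [nat_lit 0x224d1,
    nat_lit 17,nat_lit 0x18699],.r (nat_lit 0x1608) (nat_lit 5) [nat_lit 0x2001,nat_lit 17,nat_lit 0x10001],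
    .r (nat_lit 0xdb2) (nat_lit 1) [nat_lit 0xa24d1,nat_lit 0xeb729],.r (nat_lit 0xdc2) (nat_lit 11) [nat_lit 0x10401,
    nat_lit 17],.r (nat_lit 0xdbe) (nat_lit 8) [nat_lit 17,nat_lit 0x10001],
    .r (nat_lit 0xdb7) (nat_lit 3) [nat_lit 0x10001,nat_lit 0x2011],.r (nat_lit 0xdb8) (nat_lit 11) [nat_lit 0x10401,
    nat_lit 0x2011],.r (nat_lit 0xdb2) (nat_lit 1) [nat_lit 17,nat_lit 0xa2429],
    .r (nat_lit 0x1641) (nat_lit 13) [nat_lit 0x10019,nat_lit 0x10419,nat_lit 17],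
    .r (nat_lit 0x1641) (nat_lit 4) [nat_lit 0x3001,nat_lit 0x1b011,nat_lit 0x12001],.c (nat_lit 5) (nat_lit 2),
    .r (nat_lit 0x14c1) (nat_lit 5) [nat_lit 0x2601,nat_lit 0x10401,nat_lit 17],
    .r (nat_lit 0x164b) (nat_lit 5) [nat_lit 0x2001,nat_lit 0x10001,nat_lit 17],
    .r (nat_lit 0xdc2) (nat_lit 11) [nat_lit 0x10401,nat_lit 0x1b699],.c (nat_lit 0) (nat_lit 0x10003),
    .r (nat_lit 0xdb7) (nat_lit 3) [nat_lit 0x10001,nat_lit 0x18699],.r (nat_lit 0xdb2) (nat_lit 1) [nat_lit 0x90019,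
    nat_lit 0xc2421],.c (nat_lit 6) (nat_lit 2),.r (nat_lit 0xdbb) (nat_lit 0) [nat_lit 17,nat_lit 0x12001],
    .r (nat_lit 0xdc0) (nat_lit 13) [nat_lit 0x12001,nat_lit 17],.c (nat_lit 7) (nat_lit 2),
    .r (nat_lit 0xdbb) (nat_lit 8) [nat_lit 17,nat_lit 0x12001],.c (nat_lit 8) (nat_lit 2)]]

/-- nodes -/
noncomputable def rD8k_36_16 : List RJ :=
  [.l (nat_lit 15) (nat_lit 0x13b0) (nat_lit 4) (nat_lit 0x8120000081200000787000007870000080900000809000007ac000007ac0000076200000762000008400000084000000812000008120000077e0000077e) (nat_lit 0x2e0000002e000000b9000000b900000037000000370000009400000094000000de000000de00000000000000000000002e0000002e000000c2000000c2)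
    (nat_lit 0xfc81f9030f875917ae2b4c2ea07460e681cd03f6081213682c503a806160ea01f90318875911be1f6c3bf077e0e681cd04090824113c27f83a806280eb21d6436707620ea021e037985ef0d2e1aa42b6878711021d64362860b0c62187c36706ce0ea01d4037986f30de61bcc51a87750eb21f241e686c50fb62b4c3a808780fa41f4839587750e7a1cac3cc87bf0fb614b4440874711be2f5c3a807500fa41f483ba87750cbe1934404881b0a120f7c3bf87a30efc1d1837985ef0eea1dd43fb07180d781b385d408780e441df817709bc0efc175037986f30eea1cac38307f60d9c1b3859c08080bf01a8037508cc0e681cd037986a90c9a1cac36706ce0c501a5842007620aa40ea042508260e681cd037986970cbe1cf436706bc156c18a03b1076213c420e0350067a104820483ba878710361efc40408780ec41d8839e040e107020483bf04d010241fb051a856d10121e6459c0ba80ec42100433073c10242048227077e13fc2c503e4875907be14b4350077e10700ea040908120fc81ef83bb0750113c26d03ac88810a121f6c2fc072213c4154840908380fa41f9044507500c501858362860b0f461d1c46609bc0cf420983bf04d00ea01d4027606ce0ea01d401e686c50efe220437502ee0d402128227077e11141dd835e04ec)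
    (nat_lit 0xfc84ec09d813b027604ec09d813b027604ec09d813b027604ec09d813b00fc81f909d813b027604ec09d813b027604ec09d813b027604ec09d813b00c3e18c436713b027604ec09d813b027604ec09d813b027604ec09d813b00eb21d643b106ce27604ec09d813b027604ec09d813b027604ec09d813b017ae237c3a807500fa44ec09d813b027604ec09d813b027604ec09d813b015a61f6c43c07500fa41f489d813b027604ec09d813b027604ec09d813b00ba81df837986f30e561dd43fb13b027604ec09d813b027604ec09d813b00e8c1df82f786f30eea1dd438c07f627604ec09d813b027604ec09d813b00e681cd034b86f30e7a197c35e06ce0c504ec09d813b027604ec09d813b00e681cd035486f30e56193436706ce0d2c18a09d813b027604ec09d813b00fd820482b68a350f3220245d40b3810801d8839e13b027604ec09d813b0102420903c387750f7e206c43c08080ec41d88207073c27604ec09d813b01368227844087590fb6142439105f80aa4278841c08120fc84ec09d813b015b827f83ac87c90a5a0f7c3bf06a0075020e040908120f7c1f909d813b00ea01d4036283cd11021dfc17706ea10941a803bf044e0eec222827613b00c2c18a030586c50e8e1e8c4de08cc104c19e8268077e0ea01d4036704ec)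
    (nat_lit 4) (nat_lit 133)
    [[nat_lit 2,nat_lit 3,nat_lit 259,nat_lit 258,nat_lit 0x10002,nat_lit 0x1000002,nat_lit 0x1000102,
    nat_lit 0x10000002,nat_lit 17,nat_lit 0x1011,nat_lit 257,nat_lit 514,nat_lit 513,nat_lit 0x1101,nat_lit 0x1000101,
    nat_lit 0x10000101,nat_lit 0x1001,nat_lit 0x1001001,nat_lit 0x10001,nat_lit 0x10011,nat_lit 0x11011,
    nat_lit 0x10101,nat_lit 0x11001,nat_lit 0x110001,nat_lit 0x1010001,nat_lit 0x10010001,nat_lit 0x100001,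
    nat_lit 0x1000001,nat_lit 0x2000001,nat_lit 0x11000001,nat_lit 0x1000011,nat_lit 0x1100001,nat_lit 0x10000001],
    [nat_lit 32,nat_lit 0x100020,nat_lit 272,nat_lit 0x1110,nat_lit 0x1010,nat_lit 0x11010,nat_lit 0x101010,
    nat_lit 0x1001010,nat_lit 0x10010,nat_lit 0x110010,nat_lit 0x100010,nat_lit 0x200010,nat_lit 0x1000010,
    nat_lit 0x10001010],[nat_lit 512,nat_lit 0x1100,nat_lit 0x100100,nat_lit 0x1000100,nat_lit 0x10000100],
    [nat_lit 0x2000,nat_lit 0x3000,nat_lit 0x11000,nat_lit 0x101000,nat_lit 0x1001000,nat_lit 0x10001000],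
    [nat_lit 0x20000,nat_lit 0x110000,nat_lit 0x1010000,nat_lit 0x10010000,nat_lit 0x11010000],[nat_lit 0x200000,
    nat_lit 0x1100000],[nat_lit 0x2000000,nat_lit 0x11000000],[nat_lit 0x20000000]]
    [.c (nat_lit 1) (nat_lit 2),.r (nat_lit 0x104b) (nat_lit 10) [nat_lit 33,nat_lit 0x20001,nat_lit 0x6600031,
    nat_lit 0x6006031,nat_lit 0x7000021],.r (nat_lit 0x10ef) (nat_lit 9) [nat_lit 0x203001,nat_lit 0x3033021,
    nat_lit 0x2001,nat_lit 0x7037021,nat_lit 0x6066031],.r (nat_lit 0xdbb) (nat_lit 13) [nat_lit 0x3030021,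
    nat_lit 0x20001],.r (nat_lit 0x1592) (nat_lit 9) [nat_lit 0x30021,nat_lit 0x2001,nat_lit 0x20001,
    nat_lit 0x4460031],.r (nat_lit 0xe84) (nat_lit 5) [nat_lit 0x2001,nat_lit 0x200001,nat_lit 33,nat_lit 0x2020001,
    nat_lit 0x333231],.r (nat_lit 0xdb4) (nat_lit 14) [nat_lit 0x20001,nat_lit 0x3030021],
    .r (nat_lit 0x10ef) (nat_lit 9) [nat_lit 0x203001,nat_lit 0x3021,nat_lit 0x2001,nat_lit 0x5007021,
    nat_lit 0x4046031],.c (nat_lit 0) (nat_lit 0x202203),.c (nat_lit 0) (nat_lit 0x33023),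
    .c (nat_lit 0) (nat_lit 0x202203),.c (nat_lit 2) (nat_lit 0x404403),
    .r (nat_lit 0xdbb) (nat_lit 6) [nat_lit 0x2240031,nat_lit 0x2001],
    .r (nat_lit 0xdb6) (nat_lit 13) [nat_lit 0x3030021,nat_lit 0x3231],
    .r (nat_lit 0xdbb) (nat_lit 4) [nat_lit 0x3030021,nat_lit 0x20001],.c (nat_lit 2) (nat_lit 0x202403),
    .c (nat_lit 0) (nat_lit 0x33323),.c (nat_lit 0) (nat_lit 0x33023),
    .r (nat_lit 0x164b) (nat_lit 14) [nat_lit 0x20031,nat_lit 33,nat_lit 0x200001],.c (nat_lit 3) (nat_lit 0x204203),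
    .r (nat_lit 0x164b) (nat_lit 1) [nat_lit 0x220321,nat_lit 0x300231,nat_lit 0x2001],
    .c (nat_lit 0) (nat_lit 0x3002),.r (nat_lit 0x1588) (nat_lit 15) [nat_lit 0x302001,nat_lit 0x200001,
    nat_lit 0x20001,nat_lit 0x30021],.c (nat_lit 3) (nat_lit 0x224003),
    .r (nat_lit 0xdb4) (nat_lit 10) [nat_lit 0x200001,nat_lit 0x300231],.c (nat_lit 0) (nat_lit 0x200002),
    .c (nat_lit 0) (nat_lit 0x222003),.c (nat_lit 0) (nat_lit 0x33323),
    .r (nat_lit 0x1427) (nat_lit 3) [nat_lit 0x20001,nat_lit 33,nat_lit 0x2001,nat_lit 0x5595431],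
    .r (nat_lit 0xdb4) (nat_lit 14) [nat_lit 0x20001,nat_lit 33],.c (nat_lit 0) (nat_lit 0x33023),
    .c (nat_lit 0) (nat_lit 0x3323),.r (nat_lit 0xdbb) (nat_lit 13) [nat_lit 33,nat_lit 0x20001],
    .c (nat_lit 2) (nat_lit 2),.r (nat_lit 0x1133) (nat_lit 5) [nat_lit 0x302021,nat_lit 0x405021,nat_lit 0x204031,
    nat_lit 0x20001],.c (nat_lit 0) (nat_lit 0x202203),.r (nat_lit 0xdb4) (nat_lit 10) [nat_lit 0x200001,nat_lit 33],
    .c (nat_lit 0) (nat_lit 0x33023),.r (nat_lit 0xdbb) (nat_lit 4) [nat_lit 0x3330231,nat_lit 0x20001],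
    .r (nat_lit 0xdb4) (nat_lit 14) [nat_lit 0x20001,nat_lit 0x30231],.c (nat_lit 0) (nat_lit 0x33023),
    .r (nat_lit 0xdbb) (nat_lit 6) [nat_lit 0x203021,nat_lit 0x2001],
    .r (nat_lit 0x164d) (nat_lit 15) [nat_lit 0x332021,nat_lit 0x222031,nat_lit 0x233021,nat_lit 0x20001,
    nat_lit 0x4262031],.c (nat_lit 2) (nat_lit 0x30202),.r (nat_lit 0x1133) (nat_lit 5) [nat_lit 0x504021,
    nat_lit 0x203021,nat_lit 0x402031,nat_lit 0x20001],.c (nat_lit 0) (nat_lit 0x33023),.c (nat_lit 0) (nat_lit 770),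
    .c (nat_lit 3) (nat_lit 2),.r (nat_lit 0xdbb) (nat_lit 14) [nat_lit 33,nat_lit 0x200001],
    .c (nat_lit 0) (nat_lit 0x222003),.r (nat_lit 0x164b) (nat_lit 1) [nat_lit 0x20031,nat_lit 33,nat_lit 0x2001],
    .r (nat_lit 0xdbb) (nat_lit 6) [nat_lit 0x220031,nat_lit 0x2001],.c (nat_lit 4) (nat_lit 2),
    .r (nat_lit 0x9ab) (nat_lit 10) [nat_lit 0x7777631,nat_lit 33,nat_lit 0x66c6721,nat_lit 0x6001,nat_lit 0x777631],
    .c (nat_lit 0) (nat_lit 0x333323),.c (nat_lit 0) (nat_lit 0x3323),.c (nat_lit 0) (nat_lit 0x33323),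
    .r (nat_lit 0xdb6) (nat_lit 13) [nat_lit 33,nat_lit 0x3033231],.c (nat_lit 5) (nat_lit 2),
    .r (nat_lit 0xdbb) (nat_lit 6) [nat_lit 33,nat_lit 0x2001],.c (nat_lit 0) (nat_lit 0x333323),
    .c (nat_lit 0) (nat_lit 0x200002),.c (nat_lit 0) (nat_lit 0x200002),.c (nat_lit 6) (nat_lit 2),
    .c (nat_lit 0) (nat_lit 0x3323),.c (nat_lit 7) (nat_lit 2),.r (nat_lit 0xdbb) (nat_lit 4) [nat_lit 33,
    nat_lit 0x20001],.c (nat_lit 8) (nat_lit 2)],
    .l (nat_lit 12) (nat_lit 960) (nat_lit 4) (nat_lit 0x22e0000022e000001f700000177000001b7000001b700000185000001b5000001770000022d000001e0000001e0000001e100000185000001b7000001bb) (nat_lit 0xb700000037000000770000007700000079000000a900000001000000b70000004e0000004e000000a90000004d0000007300000077)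
    (nat_lit 0x22e1f61c92492091bb19918918b1571e023818510f1bb1a922e22e1771f72051b71d51852692351881e01851e11691691f72491401c01801800c01001f61201a916d19c2021841801771c90c01401001000fe0ca1760c01291290ce1341001001b71bb10018014414013e10e1b610015f16910e16a0f214020520910018014014410810e1b60ca14b13510e1541401401851890ca10010e10e1420dc1b810414d1370dc1560c010e1d51990fe0c010813e13c1421e80fe17f16712e1681621342351570c01200ca1000fe1041760c01290f50d81121200de26918b1761f61b61b61e81b822c1761931df16c1e61620c01e023812916d1351691671371df0f518c19222d1df20f1811881e01291a914b15f17f14d19312919218c1e119323f1b11e110f13420215416a1681561e61121931df0f019416e0c01851850ce19c10e10e12e0dc16c0d81e122d0dc0f012010e1691a910018014014013410e0c00de1b118110e0c01441401691bb1001841400f21620c016212023f20f12016e180144)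
    (nat_lit 0x22e3c03c03c03c03c03c03c03c03c03c03c03c03c03c03c01f622e3c03c03c03c03c03c03c03c03c03c03c03c03c03c01c91771403c03c03c03c03c03c03c03c03c03c03c03c03c02491f71c01403c03c03c03c03c03c03c03c03c03c03c03c02092051801001443c03c03c03c03c03c03c03c03c03c03c01bb1b71801001401443c03c03c03c03c03c03c03c03c03c01991d50c00fe13e1081423c03c03c03c03c03c03c03c03c01891851000ca10e10e0dc1423c03c03c03c03c03c03c03c018b2691f61761b61b61b81e81763c03c03c03c03c03c03c01572351200c01000ca1040fe0c01763c03c03c03c03c03c01e01881a912915f14b14d17f12919318c3c03c03c03c03c02381e016d1291691351371670f51df19218c3c03c03c03c018518519c0ce10e10e0dc12e0d816c22d1e10f03c03c03c010f1e120213416a1541561681121e61df1931940f03c03c01bb1691801000f21400c016212016220f23d16e1201443c01a916918010014014010e1340de0c01811b10c010e140144)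
    (nat_lit 4) (nat_lit 177)
    [[nat_lit 2,nat_lit 18,nat_lit 0x1002,nat_lit 0x10002,nat_lit 0x100002,nat_lit 17,nat_lit 33,nat_lit 0x1011,
    nat_lit 0x10011,nat_lit 0x100011,nat_lit 0x1000011,nat_lit 0x10000011,nat_lit 0x1001,nat_lit 0x2001,
    nat_lit 0x11001,nat_lit 0x101001,nat_lit 0x1001001,nat_lit 0x10001,nat_lit 0x10021,nat_lit 0x20001,
    nat_lit 0x20011,nat_lit 0x110001,nat_lit 0x111001,nat_lit 0x110011,nat_lit 0x1010001,nat_lit 0x1010011,
    nat_lit 0x1011001,nat_lit 0x1020001,nat_lit 0x100001,nat_lit 0x100021,nat_lit 0x100101,nat_lit 0x200001,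
    nat_lit 0x1100001,nat_lit 0x1000001,nat_lit 0x10000001,nat_lit 0x10001001],[nat_lit 32,nat_lit 48,nat_lit 0x1020,
    nat_lit 0x10020,nat_lit 0x100020,nat_lit 0x10000020,nat_lit 0x1010,nat_lit 0x101010,nat_lit 0x10010,
    nat_lit 0x20010,nat_lit 0x110010,nat_lit 0x1010010,nat_lit 0x100010,nat_lit 0x200010,nat_lit 0x1000010,
    nat_lit 0x1100010,nat_lit 0x10000010],[nat_lit 512,nat_lit 0x1100,nat_lit 0x10100,nat_lit 0x110100,
    nat_lit 0x1010100,nat_lit 0x100100,nat_lit 0x1100100,nat_lit 0x1000100],[nat_lit 0x2000,nat_lit 0x11000,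
    nat_lit 0x1011000,nat_lit 0x101000,nat_lit 0x1001000],[nat_lit 0x20000,nat_lit 0x30000,nat_lit 0x120000,
    nat_lit 0x1020000,nat_lit 0x1030000,nat_lit 0x110000,nat_lit 0x210000,nat_lit 0x1110000,nat_lit 0x1120000,
    nat_lit 0x1010000,nat_lit 0x2020000,nat_lit 0x2010000,nat_lit 0x10010000],[nat_lit 0x200000,nat_lit 0x1100000],
    [nat_lit 0x2000000],[]]
    [.c (nat_lit 1) (nat_lit 2),.c (nat_lit 0) (nat_lit 0x2405),.c (nat_lit 4) (nat_lit 770),
    .c (nat_lit 5) (nat_lit 770),.c (nat_lit 6) (nat_lit 770),.c (nat_lit 0) (nat_lit 0x2205),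
    .c (nat_lit 0) (nat_lit 0x4205),.c (nat_lit 4) (nat_lit 0x3304),.c (nat_lit 5) (nat_lit 0x3304),
    .c (nat_lit 6) (nat_lit 0x3304),.c (nat_lit 7) (nat_lit 0x3304),.c (nat_lit 4) (nat_lit 0x402205),
    .r (nat_lit 0xdb8) (nat_lit 11) [nat_lit 33,nat_lit 0x220002],.r (nat_lit 0x9b6) (nat_lit 11) [nat_lit 0x8002051,
    nat_lit 0x9555801,nat_lit 0x3041,nat_lit 0x400001,nat_lit 0x40001],
    .r (nat_lit 0xdb2) (nat_lit 12) [nat_lit 0x220002,nat_lit 0x330452],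
    .r (nat_lit 0xdb3) (nat_lit 5) [nat_lit 0x220002,nat_lit 0x330452],
    .r (nat_lit 0xdb3) (nat_lit 12) [nat_lit 0x220002,nat_lit 0x330452],.c (nat_lit 0) (nat_lit 0x533045),
    .r (nat_lit 0x13b7) (nat_lit 5) [nat_lit 0x23002,nat_lit 0x33021,nat_lit 0x202002,nat_lit 0x2000001],
    .r (nat_lit 0x9b7) (nat_lit 11) [nat_lit 0x8000001,nat_lit 0x9553851,nat_lit 0x3041,nat_lit 0x400001,
    nat_lit 0x40001],.r (nat_lit 0x13b7) (nat_lit 5) [nat_lit 0x23002,nat_lit 0x37044,nat_lit 0x202002,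
    nat_lit 0x2000001],.c (nat_lit 0) (nat_lit 0x533045),.r (nat_lit 0xdb9) (nat_lit 8) [nat_lit 0x220002,
    nat_lit 0x330452],.r (nat_lit 0xdbe) (nat_lit 8) [nat_lit 0x3000231,nat_lit 0x2000001],
    .c (nat_lit 0) (nat_lit 0x533045),.r (nat_lit 0xda9) (nat_lit 13) [nat_lit 0x20001,nat_lit 0x5300451,
    nat_lit 0x33042,nat_lit 0x2000001],.r (nat_lit 0xdbb) (nat_lit 12) [nat_lit 0x220002,nat_lit 0x330452],
    .r (nat_lit 0x9b8) (nat_lit 10) [nat_lit 0x3041,nat_lit 0x8000001,nat_lit 0x400001,nat_lit 0x40001,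
    nat_lit 0x4001],.c (nat_lit 0) (nat_lit 0x533045),.r (nat_lit 0xda9) (nat_lit 13) [nat_lit 0x20001,
    nat_lit 0x53041,nat_lit 0x5320452,nat_lit 0x2000001],.c (nat_lit 0) (nat_lit 0x30304),
    .r (nat_lit 0x9b9) (nat_lit 11) [nat_lit 0x8000001,nat_lit 0x9553851,nat_lit 0x3041,nat_lit 0x400001,
    nat_lit 0x40001],.c (nat_lit 0) (nat_lit 0x533045),.c (nat_lit 0) (nat_lit 0x533045),
    .r (nat_lit 0xdb9) (nat_lit 13) [nat_lit 0x4202052,nat_lit 33],.c (nat_lit 0) (nat_lit 0x500304),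
    .c (nat_lit 2) (nat_lit 2),.c (nat_lit 0) (nat_lit 0x6005),.c (nat_lit 4) (nat_lit 0x3002),
    .c (nat_lit 5) (nat_lit 0x3002),.c (nat_lit 6) (nat_lit 0x3002),.c (nat_lit 4) (nat_lit 0x202003),
    .r (nat_lit 0xdb8) (nat_lit 11) [nat_lit 0x32042,nat_lit 0x220002],
    .r (nat_lit 0xdb3) (nat_lit 5) [nat_lit 0x220002,nat_lit 0x303452],.c (nat_lit 0) (nat_lit 0x530345),
    .r (nat_lit 0x9b7) (nat_lit 11) [nat_lit 0x8000001,nat_lit 0x9535851,nat_lit 0x30041,nat_lit 0x400001,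
    nat_lit 0x40001],.c (nat_lit 0) (nat_lit 0x530345),.c (nat_lit 0) (nat_lit 0x530345),
    .c (nat_lit 0) (nat_lit 0x530345),.r (nat_lit 0x9b9) (nat_lit 11) [nat_lit 0x8000001,nat_lit 0x9535851,
    nat_lit 0x30041,nat_lit 0x400001,nat_lit 0x40001],.c (nat_lit 0) (nat_lit 0x530345),
    .c (nat_lit 0) (nat_lit 0x530345),.r (nat_lit 0xdb9) (nat_lit 13) [nat_lit 0x4220052,nat_lit 0x32042],
    .c (nat_lit 3) (nat_lit 2),.r (nat_lit 0xdb9) (nat_lit 13) [nat_lit 33,nat_lit 0x4202052],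
    .r (nat_lit 0x13b7) (nat_lit 5) [nat_lit 0x23002,nat_lit 0x303042,nat_lit 0x202002,nat_lit 0x2000001],
    .c (nat_lit 7) (nat_lit 0x503345),.c (nat_lit 6) (nat_lit 0x503345),
    .r (nat_lit 0xda9) (nat_lit 13) [nat_lit 0x20001,nat_lit 0x300041,nat_lit 0x5033452,nat_lit 0x2000001],
    .c (nat_lit 5) (nat_lit 0x503345),.r (nat_lit 0xdbe) (nat_lit 8) [nat_lit 33,nat_lit 0x2000001],
    .c (nat_lit 4) (nat_lit 2),.r (nat_lit 0x161e) (nat_lit 1) [nat_lit 0x3000021,nat_lit 0x2000001],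
    .r (nat_lit 0x141f) (nat_lit 10) [nat_lit 0x2000001,nat_lit 0x202002,nat_lit 0x220002,nat_lit 0x5533452],
    .r (nat_lit 0x164b) (nat_lit 2) [nat_lit 0x3000021,nat_lit 0x2000001,nat_lit 0x202002],
    .r (nat_lit 0x1618) (nat_lit 13) [nat_lit 0x2000031,nat_lit 0x220002,nat_lit 33],.c (nat_lit 5) (nat_lit 2),
    .r (nat_lit 0x9ba) (nat_lit 11) [nat_lit 0xc000001,nat_lit 0xd777c51,nat_lit 65,nat_lit 0x600001,nat_lit 0x60001],
    .r (nat_lit 0x9bb) (nat_lit 0) [nat_lit 0x4000001,nat_lit 0x2001,nat_lit 0x20001,nat_lit 0x200001,nat_lit 33],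
    .r (nat_lit 0x1420) (nat_lit 10) [nat_lit 33,nat_lit 0x2000001,nat_lit 0x202002,nat_lit 0x220002],
    .r (nat_lit 0x9bc) (nat_lit 1) [nat_lit 0xd777c51,nat_lit 0xc000001,nat_lit 0x6001,nat_lit 0x60001,
    nat_lit 0x600001],.c (nat_lit 0) (nat_lit 0x533345),.r (nat_lit 0x1418) (nat_lit 12) [nat_lit 0x2000001,
    nat_lit 33,nat_lit 0x4422521,nat_lit 0x5303431],.c (nat_lit 0) (nat_lit 0x533345),
    .r (nat_lit 0x13b7) (nat_lit 5) [nat_lit 0x23002,nat_lit 0x4220542,nat_lit 0x202002,nat_lit 0x2000001],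
    .c (nat_lit 0) (nat_lit 0x533345),.r (nat_lit 0xda9) (nat_lit 13) [nat_lit 0x20001,nat_lit 0x5333431,nat_lit 34,
    nat_lit 0x2000001],.r (nat_lit 0x15a2) (nat_lit 12) [nat_lit 0x2000001,nat_lit 33,nat_lit 0x4422521,
    nat_lit 0x5303431],.r (nat_lit 0xdbc) (nat_lit 5) [nat_lit 0x220002,nat_lit 33],.c (nat_lit 6) (nat_lit 2),
    .c (nat_lit 0) (nat_lit 0x533345),.c (nat_lit 7) (nat_lit 2)]]

/-- nodes -/
noncomputable def rD8k_36_17 : List RJ :=
  [.l (nat_lit 13) (nat_lit 0x780) (nat_lit 3) (nat_lit 0x361000003610000034b0000034b0000033b0000033b0000036f0000036f00000408000004080000034a0000034a00000362000003620000035400000354) (nat_lit 0xa7000000a7000000bd000000bd000000cd000000cd00000099000000990000000000000000000000be000000be000000a6000000a6000000b4000000b4)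
    (nat_lit 0x16c0ae85002a41250a503e02d61c68ff45462a315d8b1c55a2ad15d0b604e42a413e09785c42c81c18fcc52a2a31648b2455a28b1520a9058828e13f0ac04402ca1a58cc44fe26b1638acc4f22891390a0052c2c414e09f856429c17f8d2c52a28d14a8a0452e29712f0a504fc2b0142099854428419d8cec5422c914a8a3455629713e092853827e14b0a105442a217889444fe2e712788ec4f22891640b585382ca1510a107802ae1828dbc6162fb1638b1c60a30117107c05642201510a889a43c01b78dbc42a2bd0f88b8443e20b1f98ff46963311288cec6de36f1fe083066434a2090ff885842c1c18e345fe34b1788cec6de3052040ff069434a1c10db86a83541518a8c51a26b1738b2457a2fb1a50d2850028c1520a904d427614a8a8c52a27f13f8a8442a30b1a50cc85402801520a905142961648b1c5022b311d8a345c22c71b70ff85482a415e0aa055c2ae1648aec52a2c71278a543e22c71c110485482a415e0af055c2ae1458ab452e2891448a5c4163011aa10b052c2761570ab85402a01568ab452e27913c8aac43e3051aa10b051426a1570ab85402a0)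
    (nat_lit 0x16c1e00f007803c01e00f007803c01e00f007803c01e00f0078015d0b60f007803c01e00f007803c01e00f007803c01e00f0078014009c85887803c01e00f007803c01e00f007803c01e00f007801520a9051c2c43c01e00f007803c01e00f007803c01e00f0078012509f04fc29c1421e00f007803c01e00f007803c01e00f0078014a097856027e1330a10f007803c01e00f007803c01e00f007800f80b884402b21510a887807803c01e00f007803c01e00f0078016b0b2059429c1420a8855c3c03c01e00f007803c01e00f007801c68e0c6962ff19d8bc460a36f1fe1e00f007803c01e00f007801fe8fcc66234b19d89446de36f1060ff0f007803c01e00f007801518a544fe29515089fc6162151990d285007803c01e00f007801518a8c4d628d1648b9c5f62bd1a50d285182803c01e00f0078015d8b2458e29514a893c58e1f12090e085482a415e1e00f007801638b2456628114688ec58e2e11ff0db85482a41540af0f007801568ab44f229715589e460a21f2160d504d428a1570ab85407801568a2c51229714b8a2460220b2160d504ec2961570ab85402a0)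
    (nat_lit 3) (nat_lit 27)
    [[nat_lit 2,nat_lit 17,nat_lit 257,nat_lit 0x10001,nat_lit 0x20001,nat_lit 0x110001,nat_lit 0x1010001,
    nat_lit 0x100001,nat_lit 0x200001,nat_lit 0x1000001,nat_lit 0x10000001],[nat_lit 32,nat_lit 0x10020,nat_lit 272,
    nat_lit 0x10010,nat_lit 0x1010010,nat_lit 0x110010,nat_lit 0x100010,nat_lit 0x200010,nat_lit 0x10100010,
    nat_lit 0x1000010,nat_lit 0x10000010],[nat_lit 512,nat_lit 0x1100,nat_lit 0x10100,nat_lit 0x1010100,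
    nat_lit 0x100100,nat_lit 0x1100100,nat_lit 0x1000100,nat_lit 0x10000100],[nat_lit 0x2000,nat_lit 0x11000,
    nat_lit 0x101000,nat_lit 0x1001000],[nat_lit 0x110000,nat_lit 0x1010000,nat_lit 0x1110000,nat_lit 0x11010000,
    nat_lit 0x10010000,nat_lit 0x10110000],[nat_lit 0x200000,nat_lit 0x10200000,nat_lit 0x1100000,nat_lit 0x11100000,
    nat_lit 0x10100000],[nat_lit 0x2000000,nat_lit 0x11000000],[nat_lit 0x20000000]]
    [.c (nat_lit 1) (nat_lit 2),.c (nat_lit 1) (nat_lit 0x682),.r (nat_lit 0xdb8) (nat_lit 11) [nat_lit 0x10401,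
    nat_lit 0x2611],.r (nat_lit 0xdbe) (nat_lit 13) [nat_lit 0x10001,nat_lit 17],
    .r (nat_lit 0x1650) (nat_lit 11) [nat_lit 0x401,nat_lit 0x2001,nat_lit 0x10001,nat_lit 0x611],
    .r (nat_lit 0xdb7) (nat_lit 3) [nat_lit 0x10001,nat_lit 0x18099],.r (nat_lit 0xdc2) (nat_lit 11) [nat_lit 0x10401,
    nat_lit 0x1b099],.r (nat_lit 0xdc0) (nat_lit 13) [nat_lit 0x12001,nat_lit 0x611],
    .r (nat_lit 0x1511) (nat_lit 10) [nat_lit 0x18611,nat_lit 0x10001,nat_lit 0x10401,nat_lit 0x12001],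
    .r (nat_lit 0xdbb) (nat_lit 8) [nat_lit 0x611,nat_lit 0x12001],.c (nat_lit 1) (nat_lit 130),
    .c (nat_lit 2) (nat_lit 2),.r (nat_lit 0xdb7) (nat_lit 13) [nat_lit 0x10001,nat_lit 0x1a699],
    .r (nat_lit 0xdb8) (nat_lit 11) [nat_lit 0x10401,nat_lit 17],.r (nat_lit 0xdbe) (nat_lit 13) [nat_lit 0x10001,
    nat_lit 0x3411],.r (nat_lit 0xdc2) (nat_lit 11) [nat_lit 0x10401,nat_lit 0x18699],
    .r (nat_lit 0xdb7) (nat_lit 3) [nat_lit 0x10001,nat_lit 0x1a699],.r (nat_lit 0xdc0) (nat_lit 13) [nat_lit 0x12001,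
    nat_lit 0x3011],.r (nat_lit 0x1511) (nat_lit 10) [nat_lit 0x1b011,nat_lit 0x10001,nat_lit 0x10401,
    nat_lit 0x12001],.r (nat_lit 0x1500) (nat_lit 7) [nat_lit 0x12019,nat_lit 0x18699,nat_lit 17],
    .r (nat_lit 0xdbb) (nat_lit 8) [nat_lit 0x3011,nat_lit 0x12001],.c (nat_lit 1) (nat_lit 0x702),
    .c (nat_lit 3) (nat_lit 2),.r (nat_lit 0x161e) (nat_lit 14) [nat_lit 0x18011,nat_lit 0x10001],
    .r (nat_lit 0x1636) (nat_lit 11) [nat_lit 0x401,nat_lit 17,nat_lit 0x10001],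
    .r (nat_lit 0x1500) (nat_lit 7) [nat_lit 0x224d1,nat_lit 17,nat_lit 0x18699],
    .r (nat_lit 0x1608) (nat_lit 5) [nat_lit 0x2001,nat_lit 17,nat_lit 0x10001],
    .r (nat_lit 0xdb7) (nat_lit 13) [nat_lit 0x10001,nat_lit 17],.r (nat_lit 0xdbe) (nat_lit 8) [nat_lit 17,
    nat_lit 0x10001],.r (nat_lit 0xdb8) (nat_lit 11) [nat_lit 0x10401,nat_lit 0x2011],.c (nat_lit 4) (nat_lit 2),
    .r (nat_lit 0x161e) (nat_lit 1) [nat_lit 0x18011,nat_lit 0x10001],
    .r (nat_lit 0x1641) (nat_lit 13) [nat_lit 0x10019,nat_lit 0x10419,nat_lit 17],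
    .r (nat_lit 0x1641) (nat_lit 4) [nat_lit 0x3001,nat_lit 0x1b011,nat_lit 0x12001],
    .r (nat_lit 0x14c1) (nat_lit 5) [nat_lit 0x2601,nat_lit 0x10401,nat_lit 17],
    .r (nat_lit 0x164b) (nat_lit 5) [nat_lit 0x2001,nat_lit 0x10001,nat_lit 17],
    .r (nat_lit 0xdb6) (nat_lit 13) [nat_lit 0x10001,nat_lit 17],.r (nat_lit 0xdc2) (nat_lit 11) [nat_lit 0x10401,
    nat_lit 0x1b699],.r (nat_lit 0xdbe) (nat_lit 13) [nat_lit 0x10001,nat_lit 0x411],
    .r (nat_lit 0xdb7) (nat_lit 3) [nat_lit 0x10001,nat_lit 0x18699],.c (nat_lit 6) (nat_lit 2),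
    .r (nat_lit 0x1511) (nat_lit 10) [nat_lit 0x18011,nat_lit 0x10001,nat_lit 0x10401,nat_lit 0x12001],
    .r (nat_lit 0xdbb) (nat_lit 0) [nat_lit 17,nat_lit 0x12001],.r (nat_lit 0xdb4) (nat_lit 5) [nat_lit 0x12001,
    nat_lit 17],.r (nat_lit 0xdc0) (nat_lit 13) [nat_lit 0x12001,nat_lit 17],.c (nat_lit 7) (nat_lit 2),
    .r (nat_lit 0xdbb) (nat_lit 8) [nat_lit 17,nat_lit 0x12001],.c (nat_lit 8) (nat_lit 2)],
    .l (nat_lit 13) (nat_lit 0x5a0) (nat_lit 4) (nat_lit 0x28100000281000002620000025e0000026900000269000001dc000002e400000278000002780000028400000284000002bc000002bc0000029800000298) (nat_lit 0x630000006300000086000000820000007b0000007b00000000000001080000006c0000006c000000600000006000000028000000280000004c0000004c)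
    (nat_lit 0x10f08783c61ff11b08f05021611248aa42c2221134862446a1c510f08783f61ff103075850217917b8d5c406221173881c46a2350ff87fc4181e00f3879c24015a0fb07d84a812011d096042c1880fd878c45820c0f1878c4bc1b00f907c84e81bc10c08d83b820c0eb08f03c61e70ca06684d216111f87f4412209123872c46a23b10308d83c61e70c706504d216111c8734412209120890446a23b0bc858436015a0b085844181340b805c02f81400cb06d02c01901408a044bc12013489a45c820c13c09e04a828415e0b684082981ab8aa43e41f60e687f44f017010608303f42181280a0045822c17b89243e41f611c88fc4f01700fa08304202180f8094045822c1108884378120104882450814010c086044823c12e099040829810185844e825410488244a817c10807e8588224106097061039c103862446c258120872c5b41b41280a004b826409807d06602c017389a443023a120891c5781960f8094041825c14a04c05c027011a871441818811d88ec53019011608b07382981380b0047824c11a88d43b821611a88d440816011608b06102041700cc049823c)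
    (nat_lit 0x10f1680b405a02d01680b405a02d01680b405a02d01680b405a010f0878b405a02d01680b405a02d01680b405a02d01680b405a00f187ec4185a02d01680b405a02d01680b405a02d01680b405a00ff87fc3c020c2d01680b405a02d01680b405a02d01680b405a011b08183ce1e30ca1680b405a02d01680b405a02d01680b405a011e07583ce1e30cd0650b405a02d01680b405a02d01680b405a01408a0424025e13489a44185a02d01680b405a02d01680b405a00b085e42b41b00b0858426820c2d01680b405a02d01680b405a01248bdc3ec1f211f88e42e02781061680b405a02d01680b405a01548d5c3ec1f20fe87342e02781060830b405a02d01680b405a00b0880c4a827410488242f82540fd08404485a02d01680b405a011088842401bc104882428028410c08604782242d01680b405a01348b9c474218123890432c2bc12807c04b820c0981680b405a00c4881c4b02360e589043682da14009404c825c0fa04c0b405a011a88d442c1dc11a88d42c020411608b04083081980b804785a00e288d431020c11d88ec32029811608b053039616009c049823c)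
    (nat_lit 5) (nat_lit 49)
    [[nat_lit 2,nat_lit 0x10000101,nat_lit 0x1001,nat_lit 0x10001,nat_lit 0x1010001,nat_lit 0x10010001,
    nat_lit 0x100001,nat_lit 0x1000001,nat_lit 0x2000001,nat_lit 0x10000001],[nat_lit 32,nat_lit 48,nat_lit 64,
    nat_lit 0x100020,nat_lit 272,nat_lit 0x1000110,nat_lit 0x1010,nat_lit 0x101010,nat_lit 0x10010,nat_lit 0x1010010,
    nat_lit 0x100010,nat_lit 0x1000010,nat_lit 0x10000010],[nat_lit 512,nat_lit 0x1100,nat_lit 0x1001100,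
    nat_lit 0x10100,nat_lit 0x1010100,nat_lit 0x100100,nat_lit 0x1100100,nat_lit 0x1000100,nat_lit 0x10000100,
    nat_lit 0x10010100,nat_lit 0x10100100,nat_lit 0x11000100],[nat_lit 0x2000,nat_lit 0x11000,nat_lit 0x1011000,
    nat_lit 0x101000,nat_lit 0x1001000],[nat_lit 0x20000,nat_lit 0x1020000,nat_lit 0x110000,nat_lit 0x210000,
    nat_lit 0x1010000,nat_lit 0x1110000,nat_lit 0x2010000,nat_lit 0x11010000,nat_lit 0x10010000],[nat_lit 0x200000,
    nat_lit 0x300000,nat_lit 0x1200000,nat_lit 0x1100000,nat_lit 0x10100000],[nat_lit 0x2000000,nat_lit 0x11000000],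
    [nat_lit 0x20000000]]
    [.c (nat_lit 1) (nat_lit 2),.c (nat_lit 0) (nat_lit 0x200062),.r (nat_lit 0xdb8) (nat_lit 13) [nat_lit 0x6000861,
    nat_lit 0x4200001],.r (nat_lit 0xdbe) (nat_lit 13) [nat_lit 0x10001,nat_lit 65],
    .r (nat_lit 0x11ef) (nat_lit 11) [nat_lit 0x200041,nat_lit 0x8200061,nat_lit 0xa329061,nat_lit 0x10001],
    .r (nat_lit 0x1256) (nat_lit 7) [nat_lit 0x200001,nat_lit 0x210061,nat_lit 0x6318801,nat_lit 0x4000001],
    .r (nat_lit 0x115a) (nat_lit 12) [nat_lit 0x6018861,nat_lit 0x4200061,nat_lit 65,nat_lit 0x10001],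
    .r (nat_lit 0x13b7) (nat_lit 15) [nat_lit 0x8210c01,nat_lit 0x4010c41,nat_lit 0x6018801,nat_lit 0x10001],
    .r (nat_lit 0x15a1) (nat_lit 15) [nat_lit 0x8210c01,nat_lit 0x6018801,nat_lit 0x10001,nat_lit 0x4010c41],
    .r (nat_lit 0xdb9) (nat_lit 13) [nat_lit 0x6000861,nat_lit 65],.c (nat_lit 2) (nat_lit 2),
    .r (nat_lit 0x151b) (nat_lit 5) [nat_lit 65,nat_lit 0x6018801,nat_lit 0x10001],
    .r (nat_lit 0x1652) (nat_lit 12) [nat_lit 0x2294a042,nat_lit 66,nat_lit 0x10800062,nat_lit 0x10001],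
    .r (nat_lit 0x11ef) (nat_lit 11) [nat_lit 0x8400061,nat_lit 65,nat_lit 0x12529041,nat_lit 0x10001],
    .c (nat_lit 1) (nat_lit 0x10c43),.r (nat_lit 0xdb7) (nat_lit 3) [nat_lit 0x10001,nat_lit 65],
    .r (nat_lit 0xdb9) (nat_lit 13) [nat_lit 0xa318841,nat_lit 0x4210061],
    .r (nat_lit 0x141f) (nat_lit 2) [nat_lit 0x10001,nat_lit 0x6018801,nat_lit 0x4200001,nat_lit 0x6318041],
    .c (nat_lit 0) (nat_lit 0x200003),.c (nat_lit 0) (nat_lit 0x200003),.c (nat_lit 0) (nat_lit 0x200003),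
    .c (nat_lit 0) (nat_lit 0x200003),.r (nat_lit 0xdb8) (nat_lit 13) [nat_lit 0xa318841,nat_lit 0x4200001],
    .c (nat_lit 3) (nat_lit 2),.r (nat_lit 0xdb9) (nat_lit 13) [nat_lit 65,nat_lit 0x6000861],
    .r (nat_lit 0x141a) (nat_lit 0) [nat_lit 0x10001,nat_lit 0x6018801,nat_lit 0x4200001,nat_lit 0x4000c41],
    .c (nat_lit 0) (nat_lit 0x318c43),.c (nat_lit 0) (nat_lit 0x318c43),.c (nat_lit 0) (nat_lit 0x318c43),
    .c (nat_lit 0) (nat_lit 0x318c43),.c (nat_lit 0) (nat_lit 0x318c43),.r (nat_lit 0xdb8) (nat_lit 13) [nat_lit 65,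
    nat_lit 0x4200001],.r (nat_lit 0xdb3) (nat_lit 11) [nat_lit 0x4200001,nat_lit 0x6300861],
    .r (nat_lit 0xdb3) (nat_lit 15) [nat_lit 0x4200001,nat_lit 0x6300861],
    .r (nat_lit 0xdb2) (nat_lit 11) [nat_lit 0x4200001,nat_lit 0x6300861],.c (nat_lit 4) (nat_lit 2),
    .r (nat_lit 0xdb9) (nat_lit 11) [nat_lit 65,nat_lit 0x4200001],.r (nat_lit 0xdb3) (nat_lit 15) [nat_lit 0x4200001,
    nat_lit 65],.r (nat_lit 0xdbb) (nat_lit 11) [nat_lit 0x4200001,nat_lit 65],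
    .r (nat_lit 0xdbc) (nat_lit 11) [nat_lit 0x4200001,nat_lit 65],.c (nat_lit 5) (nat_lit 2),
    .r (nat_lit 0x15a2) (nat_lit 11) [nat_lit 0x10001,nat_lit 65,nat_lit 0x400041,nat_lit 0x8000061],
    .c (nat_lit 0) (nat_lit 0x18003),.r (nat_lit 0x1619) (nat_lit 15) [nat_lit 0x8210c01,nat_lit 0x6018801,
    nat_lit 0x10001,nat_lit 65],.c (nat_lit 0) (nat_lit 0x18003),.c (nat_lit 0) (nat_lit 0x18003),
    .r (nat_lit 0x1420) (nat_lit 2) [nat_lit 65,nat_lit 0x10001,nat_lit 0x6018801,nat_lit 0x4200001],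
    .r (nat_lit 0x141f) (nat_lit 2) [nat_lit 0x10001,nat_lit 0x6018801,nat_lit 0x4200001,nat_lit 0x300061],
    .r (nat_lit 0x159d) (nat_lit 2) [nat_lit 65,nat_lit 0x10001,nat_lit 0x6018801,nat_lit 0x4200001],
    .c (nat_lit 6) (nat_lit 2),.r (nat_lit 0x140a) (nat_lit 11) [nat_lit 65,nat_lit 0x10001,nat_lit 0x600041,
    nat_lit 0xc000061],.r (nat_lit 0x1418) (nat_lit 11) [nat_lit 0x10001,nat_lit 65,nat_lit 0x400041,
    nat_lit 0x8000061],.c (nat_lit 0) (nat_lit 0x18003),.r (nat_lit 0x1401) (nat_lit 11) [nat_lit 0x10001,nat_lit 65,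
    nat_lit 0x4000061,nat_lit 0x6318861],.c (nat_lit 7) (nat_lit 2),.r (nat_lit 0x1614) (nat_lit 8) [nat_lit 0x18041,
    nat_lit 0x10001,nat_lit 0x6018801],.c (nat_lit 8) (nat_lit 2)],
    .l (nat_lit 10) (nat_lit 240) (nat_lit 4) (nat_lit 0x600000006000000060000000600000005f0000005f0000005e0000005e0000005f0000006b0000006e0000006e0000006e0000006e0000006000000060) (nat_lit 0xe0000000e0000000e0000000e0000000f0000000f0000001000000010000000030000000f000000000000000000000000000000000000000e0000000e)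
    (nat_lit 0x188521485413c5114050174411804e2087e148521486214852144511405013451180601c86e140501485414852144511405017451148701886010840148521405213c511805017c4f2009e180601484e144511445114052144510784017c5d18c3f144511444f13c511385013c4f1704e1a4691845f14451140501405013c51140501444f1785e178541484e140501805013c51140501444f17858178541805e1444113c511384013c4f1884e1a4691445f144511345d17c5d1701e144511a0621ac6b1346b1bc6f1804e278701a45d1605e1ac691b86e1706e1807e18060200521a45f1785e1ac691b86e1b86e108601b87e1806017c3f150541ac5f1b86e1b86e180601c88218062184631785e134511b85c1b86e180601405213840144511784e1bc511807e180600c052140521484214451180521bc51108601806014830)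
    (nat_lit 0x188f03c0f03c0f03c0f03c0f03c0f03c0f03c0f0148623c0f03c0f03c0f03c0f03c0f03c0f03c0f014852148f03c0f03c0f03c0f03c0f03c0f03c0f015052148523c0f03c0f03c0f03c0f03c0f03c0f013c511444f140f03c0f03c0f03c0f03c0f03c0f01445114451148503c0f03c0f03c0f03c0f03c0f014050140601444f140f03c0f03c0f03c0f03c0f014050140501444f140503c0f03c0f03c0f03c0f01744d1745f0785c14451188f03c0f03c0f03c0f0104511444f1004e13c4f138623c0f03c0f03c0f0180601488017c691785e1a46b1b8f03c0f03c0f0138601c09e17469178581a46b1b86e3c0f03c0f0208721886018c611785e1444d1706e1b8f03c0f01f86e180600fc5f1505417c6b1b86e1b86e3c0f0148501085214451148601446f18042180600c0f0148501004e144511385e1446f1f8601806014830)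
    (nat_lit 4) (nat_lit 79)
    [[nat_lit 2,nat_lit 3,nat_lit 4,nat_lit 0x10002,nat_lit 0x100002,nat_lit 0x1000002,nat_lit 0x10000002,nat_lit 17,
    nat_lit 257,nat_lit 0x10101,nat_lit 0x10000101,nat_lit 0x1001,nat_lit 0x101001,nat_lit 0x10001,nat_lit 0x100001,
    nat_lit 0x110001,nat_lit 0x1100001,nat_lit 0x1000001,nat_lit 0x2000001,nat_lit 0x11000001,nat_lit 0x10000001,
    nat_lit 0x10010001],[nat_lit 32,nat_lit 272,nat_lit 0x1010,nat_lit 0x101010,nat_lit 0x10010,nat_lit 0x110010,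
    nat_lit 0x100010,nat_lit 0x1000010],[nat_lit 512,nat_lit 0x1100,nat_lit 0x10100,nat_lit 0x100100,
    nat_lit 0x10000100],[nat_lit 0x2000,nat_lit 0x102000,nat_lit 0x11000,nat_lit 0x111000,nat_lit 0x10011000,
    nat_lit 0x101000,nat_lit 0x202000,nat_lit 0x201000,nat_lit 0x1101000,nat_lit 0x10101000,nat_lit 0x1001000,
    nat_lit 0x10001000],[nat_lit 0x20000,nat_lit 0x110000,nat_lit 0x1010000,nat_lit 0x10010000],[nat_lit 0x200000,
    nat_lit 0x1100000,nat_lit 0x10100000],[nat_lit 0x2000000,nat_lit 0x11000000],[nat_lit 0x20000000]]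
    [.c (nat_lit 1) (nat_lit 2),.c (nat_lit 0) (nat_lit 0x200605),.c (nat_lit 3) (nat_lit 0x40403),
    .c (nat_lit 0) (nat_lit 0x200605),.r (nat_lit 0x161e) (nat_lit 10) [nat_lit 0x303021,nat_lit 0x200001],
    .c (nat_lit 3) (nat_lit 0x40203),.r (nat_lit 0xdb9) (nat_lit 8) [nat_lit 0x222031,nat_lit 0x3021],
    .r (nat_lit 0x1654) (nat_lit 15) [nat_lit 0x200001,nat_lit 0x220321,nat_lit 0x330201],
    .c (nat_lit 0) (nat_lit 0x20203),.c (nat_lit 3) (nat_lit 0x340304),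
    .r (nat_lit 0x1654) (nat_lit 15) [nat_lit 0x200001,nat_lit 0x442331,nat_lit 0x330201],
    .c (nat_lit 0) (nat_lit 0x33023),.c (nat_lit 0) (nat_lit 0x33023),.c (nat_lit 0) (nat_lit 0x200605),
    .c (nat_lit 0) (nat_lit 0x33023),.c (nat_lit 0) (nat_lit 0x33023),
    .r (nat_lit 0x12d9) (nat_lit 11) [nat_lit 0x2001,nat_lit 0x20001,nat_lit 0x200001,nat_lit 0x2000001,
    nat_lit 0x3041],.c (nat_lit 0) (nat_lit 0x200205),.r (nat_lit 0x164b) (nat_lit 1) [nat_lit 0x2002052,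
    nat_lit 0x200001,nat_lit 0x20001],.r (nat_lit 0x15ef) (nat_lit 8) [nat_lit 0x3003042,nat_lit 0x2042052,
    nat_lit 0x2442502,nat_lit 0x3053402],.r (nat_lit 0xdb3) (nat_lit 9) [nat_lit 33,nat_lit 0x3053402],
    .r (nat_lit 0xdba) (nat_lit 8) [nat_lit 0x2042052,nat_lit 0x3403042],.c (nat_lit 2) (nat_lit 2),
    .r (nat_lit 0xdb9) (nat_lit 8) [nat_lit 33,nat_lit 0x220031],.r (nat_lit 0x1024) (nat_lit 11) [nat_lit 0x30021,
    nat_lit 0x2001,nat_lit 0x20001,nat_lit 0x200001,nat_lit 0x2000001],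
    .r (nat_lit 0xdba) (nat_lit 8) [nat_lit 0x2442542,nat_lit 0x3003452],
    .r (nat_lit 0x15ef) (nat_lit 8) [nat_lit 0x20031,nat_lit 33,nat_lit 0x2442502,nat_lit 0x3053402],
    .r (nat_lit 0xdb7) (nat_lit 8) [nat_lit 0x200001,nat_lit 33],.r (nat_lit 0xdbe) (nat_lit 10) [nat_lit 33,
    nat_lit 0x200001],.r (nat_lit 0xdba) (nat_lit 8) [nat_lit 33,nat_lit 0x220031],.c (nat_lit 3) (nat_lit 2),
    .c (nat_lit 0) (nat_lit 0x305345),.r (nat_lit 0x164b) (nat_lit 1) [nat_lit 0x300021,nat_lit 0x200001,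
    nat_lit 0x20001],.c (nat_lit 0) (nat_lit 0x305345),.r (nat_lit 0xdba) (nat_lit 8) [nat_lit 0x220031,nat_lit 33],
    .c (nat_lit 4) (nat_lit 2),.r (nat_lit 0xd22) (nat_lit 11) [nat_lit 0x80001,nat_lit 0x4884941,nat_lit 0x3dd7c71,
    nat_lit 65,nat_lit 0x5095851],.c (nat_lit 0) (nat_lit 0x55345),.c (nat_lit 0) (nat_lit 0x3dd7c9),
    .r (nat_lit 0xdb7) (nat_lit 14) [nat_lit 0x200001,nat_lit 0x300231],.c (nat_lit 1) (nat_lit 0x244654),
    .c (nat_lit 3) (nat_lit 0x305343),.r (nat_lit 0x161e) (nat_lit 10) [nat_lit 0x2042542,nat_lit 0x200001],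
    .c (nat_lit 3) (nat_lit 0x345345),.r (nat_lit 0xdb9) (nat_lit 8) [nat_lit 0x3003452,nat_lit 0x2442542],
    .r (nat_lit 0xd22) (nat_lit 11) [nat_lit 0x80001,nat_lit 0x2442541,nat_lit 0x2dd7cd2,nat_lit 0x3553441,
    nat_lit 0x3453451],.r (nat_lit 0xdbe) (nat_lit 8) [nat_lit 0x200001,nat_lit 33],.c (nat_lit 5) (nat_lit 2),
    .c (nat_lit 0) (nat_lit 0x55345),.c (nat_lit 0) (nat_lit 0x200007),
    .r (nat_lit 0x15a3) (nat_lit 8) [nat_lit 0x20031,nat_lit 33,nat_lit 0x2442502,nat_lit 0x3053402],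
    .c (nat_lit 6) (nat_lit 2),.r (nat_lit 0x161e) (nat_lit 10) [nat_lit 0x300021,nat_lit 0x200001],
    .r (nat_lit 0xdb4) (nat_lit 10) [nat_lit 33,nat_lit 0x3003452],.c (nat_lit 7) (nat_lit 2),
    .r (nat_lit 0xdb9) (nat_lit 8) [nat_lit 0x220031,nat_lit 33],.c (nat_lit 8) (nat_lit 2)]]

/-- nodes -/
noncomputable def rD8k_36_18 : List RJ :=
  [.l (nat_lit 11) (nat_lit 480) (nat_lit 4) (nat_lit 0xc5000000c5000000db000000db000000bb000000bb000000e2000000e2000000e8000000e8000000db000000db000000b7000000b7000000b1000000bf) (nat_lit 0x23000000230000000d0000000d0000002d0000002d000000060000000600000000000000000000000d0000000d00000031000000310000002900000037)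
    (nat_lit 0x1442885c0b80f0290488bf27633c5906c1282504e082188288560b81343185f8b3222294530b81282504e0821702e0500ac1742e87a8d31b636c6708216c2f0590a41582e0670a015c2b8868eb19e36c670ce1542c0530a418c290570ba0f02385a8b517620c540ba114228490841341e0570ba11c1e05a8b513a2ec570c00ec1f0490841662fc758d316a2d46e0dc1a0388718f31622c46c8bf17e244868f516a2d46e0dc170388768fd11a21c578c114a33c6d8db17620c710e21803a08290514227c768d52224ec678db13a2ec5c0d01d03006d8db1722dc858f31701b0670821802e87e8f31b6414670ce0d02a81e0a214c2c8670ce15c2a0768e31b6414670ce1482a8590a2128250580bc0f8228438b116e27c550aa1102184a086128250550b60ec228468b1172284520681142204d080104208520a4108210608bf1e6354510a210021844076138270530b2124248578d92163b45903c1342504b088)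
    (nat_lit 0x144780f01e03c0780f01e03c0780f01e03c0780f01e0144288f01e03c0780f01e03c0780f01e03c0780f01e01702b0501e03c0780f01e03c0780f01e03c0780f01e01702e0560a03c0780f01e03c0780f01e03c0780f01e00f02685d0ae0f0780f01e03c0780f01e03c0780f01e01483185d0ae11c1e0f01e03c0780f01e03c0780f01e01222fc7a90d16a2d46e1e03c0780f01e03c0780f01e017e2cc698eb16a2d46e0dc3c0780f01e03c0780f01e02664446d8cf176274680b8180780f01e03c0780f01e019e2946d8db1062ec710e21d0300f01e03c0780f01e0164298670ce1502b8718ed20a36c671e03c0780f01e00d82e0410ce174300798fd20a36c670ce3c0780f01e01282505b0aa1141d85888d1422e4340a4110780f01e01282505e0b01141f05888713e2dc550aa10c220f01e0138270590a61242486c8af1da42c1e0b2128268441e0104208520a41082105f8c11aa3cc510a210c2003b088)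
    (nat_lit 5) (nat_lit 133)
    [[nat_lit 2,nat_lit 3,nat_lit 18,nat_lit 258,nat_lit 0x100002,nat_lit 0x1000002,nat_lit 0x10000002,nat_lit 17,
    nat_lit 33,nat_lit 273,nat_lit 0x100011,nat_lit 0x10000011,nat_lit 257,nat_lit 514,nat_lit 513,nat_lit 0x100101,
    nat_lit 0x10100101,nat_lit 0x1000101,nat_lit 0x10000101,nat_lit 0x10001,nat_lit 0x100001,nat_lit 0x200001,
    nat_lit 0x10100001,nat_lit 0x1000001,nat_lit 0x10000001,nat_lit 0x20000001],[nat_lit 32,nat_lit 48,nat_lit 288,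
    nat_lit 0x10020,nat_lit 0x100020,nat_lit 0x10000020,nat_lit 272,nat_lit 0x10110,nat_lit 0x100110,
    nat_lit 0x10000110,nat_lit 0x1000110,nat_lit 0x1010,nat_lit 0x101010,nat_lit 0x10010,nat_lit 0x10010010,
    nat_lit 0x110010,nat_lit 0x100010,nat_lit 0x200010,nat_lit 0x10100010,nat_lit 0x1000010,nat_lit 0x10000010,
    nat_lit 0x20000010],[nat_lit 512,nat_lit 0x100100,nat_lit 0x1100100,nat_lit 0x10100100,nat_lit 0x1000100,
    nat_lit 0x10000100,nat_lit 0x20000100],[nat_lit 0x2000,nat_lit 0x11000,nat_lit 0x101000,nat_lit 0x201000,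
    nat_lit 0x10101000,nat_lit 0x1001000],[nat_lit 0x20000,nat_lit 0x110000,nat_lit 0x10010000],[nat_lit 0x200000,
    nat_lit 0x300000,nat_lit 0x10200000,nat_lit 0x1100000,nat_lit 0x10100000,nat_lit 0x11100000],[nat_lit 0x2000000,
    nat_lit 0x11000000],[nat_lit 0x20000000]]
    [.c (nat_lit 1) (nat_lit 2),.r (nat_lit 0x10b3) (nat_lit 15) [nat_lit 0x638042,nat_lit 65,nat_lit 0x38041,
    nat_lit 0xc030061,nat_lit 0x14a311062],.r (nat_lit 0x10b5) (nat_lit 15) [nat_lit 0x428041,nat_lit 0x310081,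
    nat_lit 0x348081,nat_lit 0x142400a1,nat_lit 0x80000001],.r (nat_lit 0x1620) (nat_lit 2) [nat_lit 0x10001,
    nat_lit 0x14a3210a1,nat_lit 0x80000001,nat_lit 0x4000001,nat_lit 0x28041],
    .r (nat_lit 0x1579) (nat_lit 9) [nat_lit 0x80000001,nat_lit 0x84000c41,nat_lit 0x84018c41,nat_lit 0x14a001061],
    .r (nat_lit 0x15a9) (nat_lit 7) [nat_lit 0x8020061,nat_lit 65,nat_lit 0x28041],
    .r (nat_lit 0x10b3) (nat_lit 15) [nat_lit 0x628042,nat_lit 0x10041,nat_lit 0x28041,nat_lit 0xc020061,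
    nat_lit 0x14a301062],.c (nat_lit 0) (nat_lit 0x6300043),.c (nat_lit 1) (nat_lit 0x18802),
    .c (nat_lit 0) (nat_lit 0x6300043),.c (nat_lit 0) (nat_lit 0x6300043),
    .r (nat_lit 0x10b5) (nat_lit 15) [nat_lit 0x418041,nat_lit 0x330081,nat_lit 0x328081,nat_lit 0x142200a1,
    nat_lit 0x80000001],.c (nat_lit 0) (nat_lit 0xa518085),.r (nat_lit 0xb8f) (nat_lit 10) [nat_lit 0x100000001,
    nat_lit 0x8000001,nat_lit 0x28041,nat_lit 0x200001,nat_lit 0x20001],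
    .r (nat_lit 0x13de) (nat_lit 10) [nat_lit 0x152319062,nat_lit 0x80000001,nat_lit 0x4000001,nat_lit 0x4010001,
    nat_lit 0x4200001],.c (nat_lit 0) (nat_lit 0xa518885),.c (nat_lit 0) (nat_lit 0x84108a4),
    .r (nat_lit 0xdb5) (nat_lit 11) [nat_lit 0x4010001,nat_lit 0x6000861],
    .r (nat_lit 0x1620) (nat_lit 2) [nat_lit 0x10001,nat_lit 0x14a3010a1,nat_lit 0x80000001,nat_lit 0x4000001,
    nat_lit 0x18041],.r (nat_lit 0xdbe) (nat_lit 13) [nat_lit 0x4000001,nat_lit 65],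
    .c (nat_lit 0) (nat_lit 0xa518085),.r (nat_lit 0xb8f) (nat_lit 10) [nat_lit 0x100000001,nat_lit 0x8000001,
    nat_lit 0x14a319061,nat_lit 0x200001,nat_lit 0x20001],.r (nat_lit 0x1579) (nat_lit 9) [nat_lit 0x80000001,
    nat_lit 0x84010c41,nat_lit 0x84000c41,nat_lit 0x14a019061],.r (nat_lit 0xdbb) (nat_lit 3) [nat_lit 0x84010061,
    nat_lit 65],.c (nat_lit 1) (nat_lit 0x802),.r (nat_lit 0x10b3) (nat_lit 15) [nat_lit 0x618042,nat_lit 0x20041,
    nat_lit 0x18041,nat_lit 0xc010061,nat_lit 0x14a319062],.c (nat_lit 2) (nat_lit 2),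
    .c (nat_lit 0) (nat_lit 0x6310c43),.c (nat_lit 0) (nat_lit 0xa511485),
    .r (nat_lit 0xdbe) (nat_lit 13) [nat_lit 0x4000001,nat_lit 0x310041],.c (nat_lit 0) (nat_lit 0xa511485),
    .c (nat_lit 1) (nat_lit 0x19002),.c (nat_lit 0) (nat_lit 0x6300c43),
    .r (nat_lit 0x1595) (nat_lit 7) [nat_lit 0x8010c41,nat_lit 65,nat_lit 0x6000861],
    .c (nat_lit 0) (nat_lit 0x6310c43),.c (nat_lit 0) (nat_lit 0x6300c43),
    .r (nat_lit 0xdb7) (nat_lit 3) [nat_lit 0x4000001,nat_lit 65],.c (nat_lit 0) (nat_lit 0x210003),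
    .r (nat_lit 0x1620) (nat_lit 2) [nat_lit 0x10001,nat_lit 0xa300081,nat_lit 0x80000001,nat_lit 0x4000001,
    nat_lit 0xc0018861],.r (nat_lit 0xdba) (nat_lit 11) [nat_lit 0x4010001,nat_lit 65],
    .r (nat_lit 0xdb7) (nat_lit 13) [nat_lit 0x4000001,nat_lit 0x6018861],
    .r (nat_lit 0xdb5) (nat_lit 11) [nat_lit 0x4010001,nat_lit 65],.c (nat_lit 0) (nat_lit 0x6300c43),
    .r (nat_lit 0xb90) (nat_lit 10) [nat_lit 0x280000001,nat_lit 0x224242481,nat_lit 0x14a429061,nat_lit 0x2523120a1,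
    nat_lit 0x25234a0a1],.c (nat_lit 0) (nat_lit 0x6300c43),.r (nat_lit 0x1646) (nat_lit 11) [nat_lit 0x10001,
    nat_lit 65,nat_lit 0x4000001],.c (nat_lit 0) (nat_lit 0x6300c43),
    .r (nat_lit 0x10b5) (nat_lit 15) [nat_lit 0x400041,nat_lit 0x350081,nat_lit 0x300081,nat_lit 0x142000a1,
    nat_lit 0x80000001],.c (nat_lit 3) (nat_lit 2),.c (nat_lit 0) (nat_lit 0xa518885),
    .r (nat_lit 0xdb7) (nat_lit 13) [nat_lit 0x4000001,nat_lit 65],.c (nat_lit 0) (nat_lit 0xa518c85),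
    .r (nat_lit 0xdbe) (nat_lit 8) [nat_lit 65,nat_lit 0x4000001],.c (nat_lit 0) (nat_lit 0xa519485),
    .r (nat_lit 0x1620) (nat_lit 2) [nat_lit 0x10001,nat_lit 0x14a3290a1,nat_lit 0x80000001,nat_lit 0x4000001,
    nat_lit 65],.c (nat_lit 4) (nat_lit 2),.r (nat_lit 0xdbb) (nat_lit 3) [nat_lit 65,nat_lit 0x84010061],
    .r (nat_lit 0x1641) (nat_lit 13) [nat_lit 0x4000061,nat_lit 0x4010061,nat_lit 65],
    .r (nat_lit 0x1620) (nat_lit 2) [nat_lit 0x10001,nat_lit 0x6000041,nat_lit 0x80000001,nat_lit 0x4000001,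
    nat_lit 0x146329062],.c (nat_lit 0) (nat_lit 0x300002),.r (nat_lit 0xdbe) (nat_lit 13) [nat_lit 0x4000001,
    nat_lit 0x84010061],.c (nat_lit 5) (nat_lit 2),.r (nat_lit 0x1654) (nat_lit 6) [nat_lit 0x4000001,
    nat_lit 0x84000c41,nat_lit 0xc6000801],.r (nat_lit 0xdbe) (nat_lit 13) [nat_lit 0x4000001,nat_lit 0x10041],
    .c (nat_lit 6) (nat_lit 2),.r (nat_lit 0x151b) (nat_lit 10) [nat_lit 65,nat_lit 0x80000001,nat_lit 0x4000001],
    .r (nat_lit 0xb8f) (nat_lit 10) [nat_lit 0x100000001,nat_lit 0x8000001,nat_lit 0x14a329061,nat_lit 0x200001,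
    nat_lit 0x20001],.r (nat_lit 0xdbc) (nat_lit 10) [nat_lit 65,nat_lit 0x4010001],
    .c (nat_lit 0) (nat_lit 0xa519485),.r (nat_lit 0x1595) (nat_lit 7) [nat_lit 0x4000061,nat_lit 0x6018861,
    nat_lit 0x10041],.c (nat_lit 7) (nat_lit 2),.r (nat_lit 0xdbb) (nat_lit 3) [nat_lit 0x84000061,nat_lit 0x10041],
    .c (nat_lit 8) (nat_lit 2)],
    .l (nat_lit 16) (nat_lit 0x2760) (nat_lit 4) (nat_lit 0x13370000129b000012c9000012c900000f7f00001613000012ee000012ee00001303000013030000129a0000129a0000132d0000132d0000186400001864) (nat_lit 0x5c90000052d0000059b0000059b00000251000008e500000576000005760000056100000561000005ca000005ca00000537000005370000000000000000)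
    (nat_lit 0x17460e0a0d140dbc069014200dc10d0f0dd60d6c0e290ca50e000e88133713370cb217460d2a0d00104a098c0d250d250d440d640cd10d4f16c80d30127b129b0d000dbc0d580d4e107809ba0d290d530cea0d680d330cf50d920d9208f109650d2a0d140d380d58105809e40d530ce90cf40d680d3f0cff0c760d9c08fb096f098c142009e409ba0d9806900a090a290a1e0a1e09ab0a2913a20a081007109b104a06901058107813c20d9810e7109d108810b21049109d0fc0111016c517590d250d0f0ce90d53109d0a290d780d780d390d430cf00d4e0c710db71d44140a0d250dc10d530d2910e70a090d780d780d8d0d8d0c9c0d4e0d230d7913580a1c0d640d6c0d680d6810b20a1e0d8d0d430d780da20d770d39169e0e54130313970d440dd60cf40cea10880a1e0d8d0d390da20d780d590d39190c10c413cb145d0d4f0ca50cff0cf5109d0a290d4e0d4e0d390d3909d80cd00c090d43129a075a0cd10e290d3f0d33104909ab0c9c0cf00d590d770cd009d80d970d631212129a0d300e880d9c0d9211100a080d790db710c40e540d630d430df60df6127112f916c80e000c760d920fc013a20d230c71190c169e0d970c090df60df6132d132d129b1337096f09651759109b0a1c140a145d1397129a075a132d12f918641864127b133708fb08f116c5100713581d4413cb13031212129a132d127118641864)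
    (nat_lit 0x17462760276027602760276027602760276027602760276027602760276027600e0a1746276027602760276027602760276027602760276027602760276027600d140d2a0d5827602760276027602760276027602760276027602760276027600dbc0d000d4e0d582760276027602760276027602760276027602760276027600690104a107810580d98276027602760276027602760276027602760276027600d20098c09ba09e406900d9827602760276027602760276027602760276027600dc10d250d290d530a0910e70d782760276027602760276027602760276027600d0f0d250d530ce90a29109d0d780d78276027602760276027602760276027600dd60d440cea0cf40a1e10880d390d8d0d7827602760276027602760276027600d6c0d640d680d680a1e10b20d430d8d0da20d782760276027602760276027600e290cd10d330d3f09ab10490cf00c9c0d770d5909d8276027602760276027600ca50d4f0cf50cff0a29109d0d4e0d4e0d390d390cd009d827602760276027600e0016c80d920c7613a20fc00c710d23169e190c0c090d970df62760276027600e880d300d920d9c0a0811100db70d790e5410c40d430d630df60df6276027601337127b08f108fb100716c515da1358130313cb129a12121271132d126027601337129b0965096f109b1759140a0a1c1397145d075a129a12f9132d12d41260)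
    (nat_lit 4) (nat_lit 59)
    [[nat_lit 17,nat_lit 257,nat_lit 513,nat_lit 0x1000001,nat_lit 0x2000002,nat_lit 0x1000101,nat_lit 0x1010001,
    nat_lit 0x2000001,nat_lit 0x10000001],[nat_lit 32,nat_lit 272,nat_lit 528,nat_lit 0x10110,nat_lit 0x100110,
    nat_lit 0x1000110,nat_lit 0x10010,nat_lit 0x1010010,nat_lit 0x100010,nat_lit 0x1100010,nat_lit 0x1000010,
    nat_lit 0x10000010],[nat_lit 512,nat_lit 768,nat_lit 0x1200,nat_lit 0x10200,nat_lit 0x100200,nat_lit 0x1000200,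
    nat_lit 0x10000200,nat_lit 0x1100,nat_lit 0x10100,nat_lit 0x1010100,nat_lit 0x10010100,nat_lit 0x11100,
    nat_lit 0x100100,nat_lit 0x1100100,nat_lit 0x10100100,nat_lit 0x1000100,nat_lit 0x11000100,nat_lit 0x10000100],
    [nat_lit 0x2000,nat_lit 0x11000,nat_lit 0x101000,nat_lit 0x10101000,nat_lit 0x1001000,nat_lit 0x10001000],
    [nat_lit 0x20000,nat_lit 0x110000,nat_lit 0x10110000,nat_lit 0x1010000,nat_lit 0x10010000],[nat_lit 0x200000,
    nat_lit 0x10200000,nat_lit 0x1100000,nat_lit 0x11100000,nat_lit 0x10100000,nat_lit 0x20200000],[nat_lit 0x2000000,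
    nat_lit 0x11000000],[nat_lit 0x20000000]]
    [.r (nat_lit 0xdbb) (nat_lit 11) [nat_lit 33,nat_lit 0x3003452],
    .r (nat_lit 0x1641) (nat_lit 6) [nat_lit 0x2200052,nat_lit 0x3053452,nat_lit 33],.c (nat_lit 1) (nat_lit 770),
    .r (nat_lit 0x164b) (nat_lit 8) [nat_lit 0x3300042,nat_lit 0x2200002,nat_lit 0x20001],
    .r (nat_lit 0xc04) (nat_lit 8) [nat_lit 0x5395831,nat_lit 0x4200031,nat_lit 0x80001,nat_lit 0x4001,
    nat_lit 0x200021],.r (nat_lit 0xc03) (nat_lit 8) [nat_lit 0x5393852,nat_lit 0x4202052,nat_lit 0x40001,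
    nat_lit 0x2001,nat_lit 0x203042],.c (nat_lit 0) (nat_lit 0x330004),
    .r (nat_lit 0x1656) (nat_lit 10) [nat_lit 0x5353402,nat_lit 0x3300042,nat_lit 0x2200002,nat_lit 0x20001],
    .r (nat_lit 0x161e) (nat_lit 13) [nat_lit 0x3300042,nat_lit 0x2200002],.c (nat_lit 2) (nat_lit 2),
    .r (nat_lit 0x1654) (nat_lit 5) [nat_lit 0x2200002,nat_lit 0x2240542,nat_lit 0x3350402],
    .c (nat_lit 2) (nat_lit 770),.r (nat_lit 0xdb7) (nat_lit 11) [nat_lit 0x2200002,nat_lit 0x2042052],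
    .r (nat_lit 0xdb7) (nat_lit 11) [nat_lit 0x2200002,nat_lit 0x3300452],
    .r (nat_lit 0xdb5) (nat_lit 10) [nat_lit 0x3053402,nat_lit 33],.r (nat_lit 0xdbe) (nat_lit 11) [nat_lit 0x2200002,
    nat_lit 0x5353442],.r (nat_lit 0xdb7) (nat_lit 6) [nat_lit 0x2200002,nat_lit 0x2042052],
    .r (nat_lit 0xdbe) (nat_lit 11) [nat_lit 0x2200002,nat_lit 33],.r (nat_lit 0xdb7) (nat_lit 6) [nat_lit 0x2200002,
    nat_lit 0x3300452],.r (nat_lit 0xdba) (nat_lit 10) [nat_lit 0x3053402,nat_lit 33],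
    .r (nat_lit 0x1636) (nat_lit 10) [nat_lit 0x5353402,nat_lit 33,nat_lit 0x2200002],.c (nat_lit 3) (nat_lit 2),
    .c (nat_lit 0) (nat_lit 0x605),.c (nat_lit 2) (nat_lit 0x2203),.c (nat_lit 1) (nat_lit 0x220405),
    .c (nat_lit 1) (nat_lit 0x305245),.c (nat_lit 7) (nat_lit 770),.c (nat_lit 8) (nat_lit 770),
    .r (nat_lit 0xdbc) (nat_lit 14) [nat_lit 33,nat_lit 0x3053402],.c (nat_lit 0) (nat_lit 0x200205),
    .c (nat_lit 0) (nat_lit 0x200205),.c (nat_lit 0) (nat_lit 0x200205),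
    .r (nat_lit 0x1595) (nat_lit 9) [nat_lit 0x2200052,nat_lit 0x2042052,nat_lit 0x5353442],
    .c (nat_lit 0) (nat_lit 0x335045),.c (nat_lit 0) (nat_lit 0x335045),.c (nat_lit 0) (nat_lit 0x335045),
    .c (nat_lit 0) (nat_lit 0x30205),.c (nat_lit 0) (nat_lit 0x30205),.c (nat_lit 0) (nat_lit 0x30205),
    .c (nat_lit 4) (nat_lit 2),.r (nat_lit 0xdbb) (nat_lit 11) [nat_lit 0x2240052,nat_lit 0x5353442],
    .r (nat_lit 0xdbb) (nat_lit 11) [nat_lit 0x3003452,nat_lit 33],.r (nat_lit 0xdb5) (nat_lit 10) [nat_lit 0x3053402,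
    nat_lit 0x3300452],.r (nat_lit 0x94d) (nat_lit 11) [nat_lit 0x2040051,nat_lit 0x50041,nat_lit 0x5353401,
    nat_lit 0x40001,nat_lit 0x2001],.r (nat_lit 0xdbe) (nat_lit 13) [nat_lit 33,nat_lit 0x2200002],
    .c (nat_lit 5) (nat_lit 2),.c (nat_lit 1) (nat_lit 0x25345),.r (nat_lit 0xc03) (nat_lit 8) [nat_lit 0x5353442,
    nat_lit 0x4242542,nat_lit 0x40001,nat_lit 0x2001,nat_lit 0x253452],.c (nat_lit 0) (nat_lit 0x200005),
    .c (nat_lit 0) (nat_lit 0x200005),.c (nat_lit 6) (nat_lit 2),.r (nat_lit 0xc03) (nat_lit 8) [nat_lit 33,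
    nat_lit 0x4242521,nat_lit 0x40001,nat_lit 0x2001,nat_lit 0x3053431],.c (nat_lit 0) (nat_lit 0x335345),
    .c (nat_lit 0) (nat_lit 0x335345),.c (nat_lit 0) (nat_lit 0x335345),
    .r (nat_lit 0xda9) (nat_lit 11) [nat_lit 0x2001,nat_lit 0x3353431,nat_lit 34,nat_lit 0x2200002],
    .c (nat_lit 7) (nat_lit 2),.c (nat_lit 0) (nat_lit 0x30005),.c (nat_lit 8) (nat_lit 2)]]

/-- nodes -/
noncomputable def rD8k_36_19 : List RJ :=
  [.l (nat_lit 14) (nat_lit 0xf00) (nat_lit 3) (nat_lit 0x77200000772000007d00000079c0000077200000772000007b6000007b60000076500000765000007a3000007a300000710000009c4000007ee000007a6) (nat_lit 0x2520000025200000228000001f400000252000002520000020e0000020e0000025f0000025f000002210000022100000000000002b40000021e000001d6)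
    (nat_lit 0x148053a130851e148053a159047e14b452d15445611dc83c0155094c1480520152857e14184c0159056414ac513139c5cf1dc84be16d09ac15f851e18205dc15f857e17085dc13cc57116bc5970f0058616c85fa15284c216e8608152854a163858e14f452512c457b1e7053815903c0130053a152857e14804da15f0564144c513140455125e0588177059c1418520152857e14185201708564144c513157c55125e058818e859c159047e16385dc159056416a05c2155c4f9132c5951ed84f416603da159056416385c2170857c16a05a815bc55712cc59b1ed844215f83c0144c52d1494571144c513155c4f91400506181052c2614593151c58f14ac52d14f44f3144c51315bc557141850017d054425b457b14dc58f173c56115ec5971544551166c595151052c12e05821e8c43f15ac3c5139c55112c45af157c50112cc4cb17d060417404b81e8c4ef1a0c5cd12f83c014e0586162058811084f415ec59313bc43f1c4040e13c853a1dc87721e703c025e09781ed87b625b49851e8c7a327107100fd87ee26b094c0f005fa167059c0f003da163c58f17343c51fb853a174061816d055415905b218e85dc15f859814dc5471a0c56b0fd84f215b85d0)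
    (nat_lit 0x1480f003c00f003c00f003c00f003c00f003c00f003c00f003c00f0014e85203c00f003c00f003c00f003c00f003c00f003c00f003c00f00130854a1820f003c00f003c00f003c00f003c00f003c00f003c00f00147857e17706083c00f003c00f003c00f003c00f003c00f003c00f00148050615f854a1480f003c00f003c00f003c00f003c00f003c00f0014e84c015f854a13685203c00f003c00f003c00f003c00f003c00f001590564170858e15f05c216a0f003c00f003c00f003c00f003c00f0011f8564177058e159056417085a83c00f003c00f003c00f003c00f0014b452b13cc53d144c513155c56f1400f003c00f003c00f003c00f0014b451315c4525144c51313e455714185003c00f003c00f003c00f0015444e716bc4b1140455f132c4b318105f412e0f003c00f003c00f0015845cf165c57b1544551165459b14b054416084b83c00f003c00f001dc87720f0079c242890a1ed87b623948fd1e8c7a31c40f003c00f000f004be1618538162058813d0442164c57b10fc4ef10387103c00f0015505b416c8564177063a166057e151c53715ac68313c83f61740f0020f88ac17e83c0167059c0f683c0163c58f0f145cd14e878018605d0)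
    (nat_lit 3) (nat_lit 61)
    [[nat_lit 2,nat_lit 0x10002,nat_lit 17,nat_lit 0x1000011,nat_lit 273,nat_lit 0x10011,nat_lit 257,nat_lit 0x10101,
    nat_lit 0x1000101,nat_lit 0x1001,nat_lit 0x11001,nat_lit 0x1001001,nat_lit 0x10001,nat_lit 0x100001,
    nat_lit 0x1000001,nat_lit 0x10000101,nat_lit 0x10010001,nat_lit 0x11000001],[nat_lit 32,nat_lit 272,
    nat_lit 0x10010,nat_lit 0x1000010,nat_lit 0x1000110,nat_lit 0x1001010,nat_lit 0x1010010,nat_lit 0x1100010,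
    nat_lit 0x11000010,nat_lit 0x10000010],[nat_lit 512,nat_lit 768,nat_lit 0x1100,nat_lit 0x10100,nat_lit 0x11100,
    nat_lit 0x100100,nat_lit 0x1000100,nat_lit 0x1001100,nat_lit 0x10000100],[nat_lit 0x2000,nat_lit 0x11000,
    nat_lit 0x101000,nat_lit 0x1001000,nat_lit 0x11001000,nat_lit 0x10001000],[nat_lit 0x20000,nat_lit 0x110000,
    nat_lit 0x1010000,nat_lit 0x10010000],[nat_lit 0x200000,nat_lit 0x1100000,nat_lit 0x10100000],[nat_lit 0x2000000,
    nat_lit 0x11000000],[nat_lit 0x20000000]]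
    [.c (nat_lit 1) (nat_lit 2),.r (nat_lit 0x15b5) (nat_lit 13) [nat_lit 0x819,nat_lit 17,nat_lit 0x2001,
    nat_lit 0x20819],.r (nat_lit 0x161e) (nat_lit 11) [nat_lit 0x3011,nat_lit 0x2001],
    .r (nat_lit 0x1576) (nat_lit 15) [nat_lit 0x108d1,nat_lit 0x18099,nat_lit 0x1c0d1,nat_lit 0x3681],
    .c (nat_lit 2) (nat_lit 0x34c2),.r (nat_lit 0x1577) (nat_lit 1) [nat_lit 0x2001,nat_lit 0x401,nat_lit 0x10001,
    nat_lit 0x3611],.c (nat_lit 0) (nat_lit 0x2683),.r (nat_lit 0x1618) (nat_lit 10) [nat_lit 0x10419,nat_lit 0x401,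
    nat_lit 0x1a611],.r (nat_lit 0xdb8) (nat_lit 8) [nat_lit 0x1a611,nat_lit 0x401],
    .r (nat_lit 0x1187) (nat_lit 11) [nat_lit 0x611,nat_lit 0x401,nat_lit 0x2001,nat_lit 0x10001],
    .r (nat_lit 0xdb7) (nat_lit 10) [nat_lit 0x2001,nat_lit 17],.r (nat_lit 0xdc3) (nat_lit 10) [nat_lit 0x2001,
    nat_lit 0x3099],.r (nat_lit 0xdbe) (nat_lit 11) [nat_lit 17,nat_lit 0x2001],.c (nat_lit 0) (nat_lit 0x2083),
    .r (nat_lit 0x1654) (nat_lit 9) [nat_lit 0x2001,nat_lit 0x24d1,nat_lit 0x3099],.c (nat_lit 0) (nat_lit 194),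
    .c (nat_lit 0) (nat_lit 194),.c (nat_lit 0) (nat_lit 194),.c (nat_lit 2) (nat_lit 2),
    .r (nat_lit 0x161e) (nat_lit 12) [nat_lit 0x3011,nat_lit 0x2001],.r (nat_lit 0x1618) (nat_lit 10) [nat_lit 0x2019,
    nat_lit 0x401,nat_lit 17],.r (nat_lit 0xdb8) (nat_lit 8) [nat_lit 17,nat_lit 0x401],
    .r (nat_lit 0xdb2) (nat_lit 9) [nat_lit 0x401,nat_lit 0x699],.r (nat_lit 0xdb3) (nat_lit 13) [nat_lit 0x401,
    nat_lit 0x699],.r (nat_lit 0xdb3) (nat_lit 9) [nat_lit 0x401,nat_lit 0x699],.c (nat_lit 0) (nat_lit 0x602),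
    .c (nat_lit 0) (nat_lit 0x2602),.c (nat_lit 0) (nat_lit 0x2602),.c (nat_lit 3) (nat_lit 2),
    .r (nat_lit 0x1584) (nat_lit 2) [nat_lit 17,nat_lit 0x401,nat_lit 0x30019,nat_lit 0x3e011],
    .c (nat_lit 0) (nat_lit 0x6d3),.c (nat_lit 0) (nat_lit 0x6d3),.c (nat_lit 0) (nat_lit 0x6d3),
    .c (nat_lit 0) (nat_lit 0x2083),.c (nat_lit 0) (nat_lit 0x6d3),.c (nat_lit 0) (nat_lit 0x6d3),
    .r (nat_lit 0x1644) (nat_lit 13) [nat_lit 0x2001,nat_lit 0x24d1,nat_lit 0x3099],.c (nat_lit 4) (nat_lit 2),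
    .c (nat_lit 0) (nat_lit 0x6d3),.r (nat_lit 0xdbb) (nat_lit 9) [nat_lit 0x401,nat_lit 17],
    .c (nat_lit 0) (nat_lit 0x6d3),.r (nat_lit 0x1618) (nat_lit 10) [nat_lit 0x124d1,nat_lit 0x401,nat_lit 0x18699],
    .r (nat_lit 0xdb3) (nat_lit 9) [nat_lit 0x401,nat_lit 0x10011],.c (nat_lit 5) (nat_lit 2),
    .r (nat_lit 0xdb9) (nat_lit 6) [nat_lit 0x401,nat_lit 17],.c (nat_lit 0) (nat_lit 0x6d3),
    .r (nat_lit 0xdb3) (nat_lit 13) [nat_lit 0x401,nat_lit 0x10011],.c (nat_lit 6) (nat_lit 2),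
    .r (nat_lit 0x161e) (nat_lit 0) [nat_lit 0x3011,nat_lit 0x2001],.r (nat_lit 0x161e) (nat_lit 11) [nat_lit 0x419,
    nat_lit 0x2001],.c (nat_lit 7) (nat_lit 2),.r (nat_lit 0xdb3) (nat_lit 8) [nat_lit 17,nat_lit 0x18699],
    .c (nat_lit 8) (nat_lit 2)],
    .l (nat_lit 10) (nat_lit 240) (nat_lit 3) (nat_lit 0x5f000000670000006500000065000000650000006500000078000000780000007000000070000000650000006500000067000000670000006600000066) (nat_lit 0x11000000190000001300000013000000130000001300000000000000000000000800000008000000130000001300000011000000110000001200000012)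
    (nat_lit 0x148461304c1305017c5f154571384c1384e1344d1605215854150560c46716c311605215856154551504c140501485024c6517c93148561505013c531584c148501485222c5d17491148541505413c531585014850168520c46516c37148521505414c531504c148521785a1946517c5d138521505614c5119c5f17465194651e06c1c07018c631a46b198660c45f22c9319431210781c0700c46321487198360c45724493174371c0701a85c0f45d23c931784016c551745f17c5b1c0701a06a16c5d174611785e1484c150561485218c631745d1405215056154551604e14852138520c46316c3d148501505414c531584e150501585421c6b18493150561585614c551584e1505415054214691748f1505415856154551544d14c53144530d8661784014c5515455150541544d13c4f14c53198661785e14c551545315054)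
    (nat_lit 0x148f03c0f03c0f03c0f03c0f03c0f03c0f03c0f0118523c0f03c0f03c0f03c0f03c0f03c0f03c0f013056140f03c0f03c0f03c0f03c0f03c0f03c0f013054140503c0f03c0f03c0f03c0f03c0f03c0f01305414852168f03c0f03c0f03c0f03c0f03c0f014056140521485a3c0f03c0f03c0f03c0f03c0f017c311f47d0c4651e0f03c0f03c0f03c0f03c0f017c671945d194651b0783c0f03c0f03c0f03c0f01545b17c5d16c5f1c0701a8f03c0f03c0f03c0f015c311f47d0dc5d1c0701706a3c0f03c0f03c0f013858148521484e18c310f45b140f03c0f03c0f013052158541485218c631745d148503c0f03c0f01385615054150541a47f1fc5d15054158f03c0f01385614054150561ac7f1fc6115854158563c0f01345513c4f14c53198661785e1545314c55150f01345514c5314c51198361005e154531545515054)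
    (nat_lit 3) (nat_lit 49)
    [[nat_lit 2,nat_lit 17,nat_lit 257,nat_lit 0x10101,nat_lit 0x1001,nat_lit 0x101001,nat_lit 0x10001001,
    nat_lit 0x10001,nat_lit 0x110001,nat_lit 0x10010001,nat_lit 0x100001,nat_lit 0x1000001,nat_lit 0x1001001,
    nat_lit 0x1010001,nat_lit 0x10000001],[nat_lit 32,nat_lit 272,nat_lit 0x101010,nat_lit 0x10001010,
    nat_lit 0x10010010,nat_lit 0x100010,nat_lit 0x1000010,nat_lit 0x10000010],[nat_lit 512,nat_lit 0x1200,
    nat_lit 0x10200,nat_lit 0x1100,nat_lit 0x101100,nat_lit 0x10001100,nat_lit 0x10100,nat_lit 0x110100,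
    nat_lit 0x10010100,nat_lit 0x1010100,nat_lit 0x100100,nat_lit 0x1000100,nat_lit 0x10000100],[nat_lit 0x2000,
    nat_lit 0x11000,nat_lit 0x101000,nat_lit 0x10101000,nat_lit 0x1101000,nat_lit 0x11001000,nat_lit 0x10001000,
    nat_lit 0x20001000],[nat_lit 0x110000,nat_lit 0x1110000,nat_lit 0x10110000,nat_lit 0x10010000,nat_lit 0x11010000,
    nat_lit 0x20010000],[nat_lit 0x200000,nat_lit 0x1100000,nat_lit 0x10100000],[nat_lit 0x2000000,
    nat_lit 0x11000000],[nat_lit 0x20000000]]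
    [.c (nat_lit 1) (nat_lit 2),.r (nat_lit 0xdbb) (nat_lit 15) [nat_lit 17,nat_lit 0x10001],
    .r (nat_lit 0xdc0) (nat_lit 8) [nat_lit 17,nat_lit 0x10001],.r (nat_lit 0x1500) (nat_lit 0) [nat_lit 0x10019,
    nat_lit 0x3099,nat_lit 17],.c (nat_lit 0) (nat_lit 0x483),.r (nat_lit 0x14fa) (nat_lit 6) [nat_lit 0x13001,
    nat_lit 0x2001,nat_lit 17],.r (nat_lit 0xdb5) (nat_lit 3) [nat_lit 0x2001,nat_lit 0x13011],
    .c (nat_lit 0) (nat_lit 0x2083),.r (nat_lit 0x14fa) (nat_lit 6) [nat_lit 0x13001,nat_lit 0x2001,nat_lit 0x1a011],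
    .r (nat_lit 0xdb5) (nat_lit 3) [nat_lit 0x2001,nat_lit 17],.r (nat_lit 0x14b2) (nat_lit 0) [nat_lit 17,
    nat_lit 0x120d1,nat_lit 0x3099],.r (nat_lit 0x161c) (nat_lit 3) [nat_lit 0x2019,nat_lit 0x10019,nat_lit 17],
    .c (nat_lit 0) (nat_lit 0x602),.c (nat_lit 0) (nat_lit 0x3002),.r (nat_lit 0x14c1) (nat_lit 6) [nat_lit 0x13001,
    nat_lit 0x2001,nat_lit 17],.c (nat_lit 2) (nat_lit 2),.r (nat_lit 0xdbb) (nat_lit 5) [nat_lit 17,nat_lit 0x10001],
    .r (nat_lit 0x1649) (nat_lit 6) [nat_lit 0x13001,nat_lit 0x2001,nat_lit 17],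
    .r (nat_lit 0xdc2) (nat_lit 3) [nat_lit 0x2001,nat_lit 0x18099],.r (nat_lit 0xdc2) (nat_lit 3) [nat_lit 0x2001,
    nat_lit 0x3099],.r (nat_lit 0x1491) (nat_lit 0) [nat_lit 17,nat_lit 0x120d1,nat_lit 0x3099],
    .r (nat_lit 0x1643) (nat_lit 3) [nat_lit 0x2019,nat_lit 0x10019,nat_lit 17],
    .r (nat_lit 0x1505) (nat_lit 6) [nat_lit 0x13001,nat_lit 0x2001,nat_lit 17],.c (nat_lit 3) (nat_lit 2),
    .r (nat_lit 0x1500) (nat_lit 0) [nat_lit 0x261a,nat_lit 0x2b71a,nat_lit 0x23412],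
    .r (nat_lit 0x1500) (nat_lit 0) [nat_lit 0x1061a,nat_lit 0x1d71a,nat_lit 0x10412],
    .r (nat_lit 0x1471) (nat_lit 0) [nat_lit 0x2019,nat_lit 0x13011,nat_lit 17],
    .r (nat_lit 0x15e8) (nat_lit 6) [nat_lit 0x13001,nat_lit 0x2001,nat_lit 17],
    .r (nat_lit 0x1501) (nat_lit 0) [nat_lit 0x2019,nat_lit 0x18099,nat_lit 0x13011],
    .r (nat_lit 0x1471) (nat_lit 0) [nat_lit 0x10019,nat_lit 17,nat_lit 0x1a011],
    .r (nat_lit 0x15e8) (nat_lit 6) [nat_lit 0x13001,nat_lit 0x2001,nat_lit 0x1a011],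
    .r (nat_lit 0x1501) (nat_lit 0) [nat_lit 0x10019,nat_lit 0x3099,nat_lit 17],.c (nat_lit 0) (nat_lit 0x3002),
    .r (nat_lit 0xdba) (nat_lit 14) [nat_lit 17,nat_lit 0x2001],.r (nat_lit 0x1653) (nat_lit 3) [nat_lit 0x2019,
    nat_lit 0x10019,nat_lit 17],.r (nat_lit 0xdbf) (nat_lit 8) [nat_lit 17,nat_lit 0x2001],.c (nat_lit 4) (nat_lit 2),
    .c (nat_lit 4) (nat_lit 0x3402),.r (nat_lit 0xdb8) (nat_lit 3) [nat_lit 0x2001,nat_lit 0x13011],
    .r (nat_lit 0xdb4) (nat_lit 6) [nat_lit 0x10001,nat_lit 0x18099],.c (nat_lit 0) (nat_lit 0x602),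
    .c (nat_lit 0) (nat_lit 0x602),.r (nat_lit 0xdba) (nat_lit 3) [nat_lit 0x2001,nat_lit 0x13011],
    .r (nat_lit 0xdb5) (nat_lit 3) [nat_lit 0x2001,nat_lit 0x23412],.r (nat_lit 0xdb8) (nat_lit 3) [nat_lit 0x2001,
    nat_lit 17],.c (nat_lit 0) (nat_lit 0x3002),.r (nat_lit 0xdb4) (nat_lit 6) [nat_lit 0x10001,nat_lit 0x3099],
    .r (nat_lit 0xdba) (nat_lit 3) [nat_lit 0x2001,nat_lit 17],.c (nat_lit 0) (nat_lit 0x3002),
    .r (nat_lit 0xdb5) (nat_lit 3) [nat_lit 0x2001,nat_lit 0x10412],.c (nat_lit 6) (nat_lit 2),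
    .r (nat_lit 0x1510) (nat_lit 0) [nat_lit 0x120d1,nat_lit 0x1b091,nat_lit 0x13099],
    .r (nat_lit 0x150f) (nat_lit 0) [nat_lit 17,nat_lit 0x120d1,nat_lit 0x3099],.c (nat_lit 7) (nat_lit 2),
    .r (nat_lit 0x11b8) (nat_lit 6) [nat_lit 0x13001,nat_lit 0x3011,nat_lit 0x2001,nat_lit 0x2401],
    .c (nat_lit 8) (nat_lit 2)],
    .l (nat_lit 10) (nat_lit 240) (nat_lit 3) (nat_lit 0x78000000780000006400000064000000640000006400000064000000640000006400000064000000720000007200000066000000660000006700000067) (nat_lit 0x1400000014000000140000001400000014000000140000001400000014000000060000000600000012000000120000001100000011)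
    (nat_lit 0x1e0781906419064178640d0641f87c1983819c671e0781906419064178641b0641d0721886619c631906414050140501405014056178561585014c5719064140501405014050140501785e1505214c5119064140501405014050140501785e1505214c5119064140501405014050140501785e1585214c5319064140501405014050140501785e1485214c4f1785e14050140501405014050178561405214c5319064140561405014050160501785e14852164551b034140501405014050140581785e14852124571c87c178561785e1585e1785e1b06c17060244611d07e1785e1785e1785e1785e1b06c1806023c5f198381485014852148521485218060158541245518866150561585414052148521805c150561545518c671445714c5114c4f15c5517c61154551585619c6714c5314c5314c531245923c911544915856)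
    (nat_lit 0x1e0f03c0f03c0f03c0f03c0f03c0f03c0f03c0f01e0783c0f03c0f03c0f03c0f03c0f03c0f03c0f019064140f03c0f03c0f03c0f03c0f03c0f03c0f019064140503c0f03c0f03c0f03c0f03c0f03c0f01906414050140f03c0f03c0f03c0f03c0f03c0f01906414050140503c0f03c0f03c0f03c0f03c0f01785e1405014050140f03c0f03c0f03c0f03c0f0190641405014050140503c0f03c0f03c0f03c0f00d06c140501405014050160f03c0f03c0f03c0f019064158501405014050140583c0f03c0f03c0f01f8741785e1785e1785e1785e1b0f03c0f03c0f01f0721585e1785e178561785e1b06c3c0f03c0f0198621585415056148501485217060158f03c0f00e0661405214852148521485218060150563c0f019c6714c5314c5314c53164492448f12455158f019c6315c511445313c53154571845f1545515856)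
    (nat_lit 3) (nat_lit 37)
    [[nat_lit 2,nat_lit 17,nat_lit 0x10011,nat_lit 0x1001,nat_lit 0x11001,nat_lit 0x101001,nat_lit 0x10001,
    nat_lit 0x100001,nat_lit 0x1000001,nat_lit 0x10000001],[nat_lit 32,nat_lit 272,nat_lit 0x1010,nat_lit 0x10001010,
    nat_lit 0x10010,nat_lit 0x10010010,nat_lit 0x100010,nat_lit 0x1000010,nat_lit 0x10000010],[nat_lit 512,
    nat_lit 0x1100,nat_lit 0x10100,nat_lit 0x100100,nat_lit 0x1000100],[nat_lit 0x2000,nat_lit 0x11000,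
    nat_lit 0x101000,nat_lit 0x1001000,nat_lit 0x10001000,nat_lit 0x10011000,nat_lit 0x10101000,nat_lit 0x11001000],
    [nat_lit 0x20000,nat_lit 0x110000,nat_lit 0x1010000,nat_lit 0x10010000],[nat_lit 0x200000,nat_lit 0x1100000,
    nat_lit 0x10100000],[nat_lit 0x2000000,nat_lit 0x11000000],[]]
    [.c (nat_lit 1) (nat_lit 2),.r (nat_lit 0xdb8) (nat_lit 13) [nat_lit 0x2001,nat_lit 17],
    .r (nat_lit 0x14fa) (nat_lit 11) [nat_lit 0x401,nat_lit 0x2001,nat_lit 0x611],.c (nat_lit 0) (nat_lit 0x2085),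
    .r (nat_lit 0xdb5) (nat_lit 13) [nat_lit 0x2001,nat_lit 17],.r (nat_lit 0xdc2) (nat_lit 13) [nat_lit 0x2001,
    nat_lit 0x3099],.r (nat_lit 0x14c8) (nat_lit 12) [nat_lit 0x2419,nat_lit 17,nat_lit 0x611],
    .r (nat_lit 0x1659) (nat_lit 7) [nat_lit 0x10419,nat_lit 17,nat_lit 0x611],
    .r (nat_lit 0x1471) (nat_lit 12) [nat_lit 0x2419,nat_lit 17,nat_lit 0x611],.c (nat_lit 1) (nat_lit 130),
    .c (nat_lit 2) (nat_lit 2),.r (nat_lit 0x1510) (nat_lit 12) [nat_lit 0x44d1,nat_lit 0x5691,nat_lit 0x499],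
    .r (nat_lit 0x150f) (nat_lit 12) [nat_lit 17,nat_lit 0x44d1,nat_lit 0x3099],
    .r (nat_lit 0xdb4) (nat_lit 11) [nat_lit 0x2401,nat_lit 0x3699],.r (nat_lit 0x14b2) (nat_lit 12) [nat_lit 17,
    nat_lit 0x44d1,nat_lit 0x3099],.r (nat_lit 0x14fa) (nat_lit 11) [nat_lit 0x401,nat_lit 0x2001,nat_lit 17],
    .r (nat_lit 0x1491) (nat_lit 12) [nat_lit 17,nat_lit 0x44d1,nat_lit 0x3099],
    .r (nat_lit 0xdba) (nat_lit 8) [nat_lit 17,nat_lit 0x2001],.r (nat_lit 0xdb8) (nat_lit 13) [nat_lit 0x2001,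
    nat_lit 0x411],.c (nat_lit 3) (nat_lit 2),.r (nat_lit 0x14be) (nat_lit 7) [nat_lit 0x13011,nat_lit 0x14029,
    nat_lit 0x1a021],.r (nat_lit 0x161c) (nat_lit 13) [nat_lit 0x2019,nat_lit 0x2419,nat_lit 17],
    .r (nat_lit 0x1643) (nat_lit 13) [nat_lit 0x2019,nat_lit 0x2419,nat_lit 17],
    .r (nat_lit 0x1653) (nat_lit 13) [nat_lit 0x2019,nat_lit 0x2419,nat_lit 17],.c (nat_lit 4) (nat_lit 2),
    .r (nat_lit 0x14c1) (nat_lit 11) [nat_lit 0x401,nat_lit 0x2001,nat_lit 17],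
    .r (nat_lit 0x1505) (nat_lit 11) [nat_lit 0x401,nat_lit 0x2001,nat_lit 17],
    .r (nat_lit 0xdbf) (nat_lit 8) [nat_lit 0x2001,nat_lit 17],.c (nat_lit 0) (nat_lit 0x2003),
    .r (nat_lit 0xdb5) (nat_lit 13) [nat_lit 0x2001,nat_lit 0x411],.r (nat_lit 0xdc2) (nat_lit 13) [nat_lit 0x2001,
    nat_lit 0x3699],.r (nat_lit 0x1501) (nat_lit 12) [nat_lit 0x2019,nat_lit 0x3699,nat_lit 0x411],
    .c (nat_lit 5) (nat_lit 2),.r (nat_lit 0xdbb) (nat_lit 2) [nat_lit 17,nat_lit 0x2401],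
    .r (nat_lit 0xdc0) (nat_lit 8) [nat_lit 0x2401,nat_lit 17],.r (nat_lit 0x14c8) (nat_lit 12) [nat_lit 0x2019,
    nat_lit 0x411,nat_lit 17],.c (nat_lit 6) (nat_lit 2),.r (nat_lit 0xdbb) (nat_lit 10) [nat_lit 17,nat_lit 0x2401],
    .r (nat_lit 0x1659) (nat_lit 7) [nat_lit 0x10019,nat_lit 0x411,nat_lit 17],.c (nat_lit 7) (nat_lit 2),
    .r (nat_lit 0x1471) (nat_lit 12) [nat_lit 0x2019,nat_lit 0x411,nat_lit 17]]]

/-- nodes -/
noncomputable def rD8k_36_20 : List RJ :=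
  [.l (nat_lit 12) (nat_lit 720) (nat_lit 3) (nat_lit 0x1560000015600000129000001290000012c0000012c00000126000001260000012600000126000001260000012600000126000001260000015a0000015a) (nat_lit 0x40000000400000031000000310000002e0000002e00000034000000340000003400000034000000340000003400000034000000340000000000000000)
    (nat_lit 0x1521520b31251a819c11e0b605c1221ae1ae12209e1561561521521251251341281161221221221221220fe12215614a1251250f80f80fb0fb0f50e90f51010f50f51010f512914d1250b30f80f80fb0fb0f50f50f50f50f50f50e90f50b513512819c0fb0fb0fe0fe0f80f80f80f80f80f80ec0f819e1381341a80fb0fb0fe0fe0f80f80f80e60f80f80ec0f81981321220b60f50e90f80f81040f20f20f20f20f20ec0f20a613211611e0f50f50f80f80f81040f20f20f20f20f20f21261261221220f51010e60f80f20f20f20ec0f20f20f20f212a12612205c0f50f50f80f80f20f20f20f20f20f20f20f209a1261221ae0f50f50f80f80f20f20f20f20f20f20f20f21ec1261221ae0f50f50f80f80f20f20f20f20ec0f20f20f21aa0e412209e0f50f50f80f80f20f20f20f20f20f21340f809a1260fe1220e91010ec0ec0f20ec0f20f20f20f211013412612614a15613514d1321381261321261260e412612612615a13c1561560b512919819e1260a609a12a1aa1ec12609a15a15a)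
    (nat_lit 0x1522d02d02d02d02d02d02d02d02d02d02d02d02d02d02d01521522d02d02d02d02d02d02d02d02d02d02d02d02d02d00b31250f82d02d02d02d02d02d02d02d02d02d02d02d02d01251250f80f82d02d02d02d02d02d02d02d02d02d02d02d01a81340fb0fb0fe2d02d02d02d02d02d02d02d02d02d02d019c1280fb0fb0fe0fe2d02d02d02d02d02d02d02d02d02d011e1160f50f50f80f81042d02d02d02d02d02d02d02d02d00b61220e90f50f80f80f21042d02d02d02d02d02d02d02d005c1220f50f50f80f80f20f20f22d02d02d02d02d02d02d01221221010f50f80e60f20f20ec0f22d02d02d02d02d02d014e1220f50f50f80f80f20f20f20f20f22d02d02d02d02d014e1220f50f50f80f80f20f20f20f20f20f22d02d02d02d01220fe1010e90ec0ec0ec0f20f20f20f20f21342d02d02d009e1220f50f50f80f80f20f20f20f20f20f20f81342d02d01561561290b51861800a612612a09a18c18c09a12615a2d015614a14d1351381321321261261261260e412612613c15a)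
    (nat_lit 3) (nat_lit 49)
    [[nat_lit 2,nat_lit 17,nat_lit 273,nat_lit 0x1011,nat_lit 0x10011,nat_lit 0x100011,nat_lit 0x1001,nat_lit 0x1101,
    nat_lit 0x2001,nat_lit 0x11001,nat_lit 0x101001,nat_lit 0x10001,nat_lit 0x10101,nat_lit 0x1000001,
    nat_lit 0x1000101,nat_lit 0x1010001,nat_lit 0x10000001],[nat_lit 32,nat_lit 272,nat_lit 0x10000110,nat_lit 0x1010,
    nat_lit 0x10001010,nat_lit 0x10010,nat_lit 0x10010010,nat_lit 0x100010,nat_lit 0x101010,nat_lit 0x10100010,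
    nat_lit 0x1000010,nat_lit 0x11000010,nat_lit 0x1010010,nat_lit 0x10000010],[nat_lit 512,nat_lit 0x1100,
    nat_lit 0x10001100,nat_lit 0x10100,nat_lit 0x10010100,nat_lit 0x100100,nat_lit 0x1000100,nat_lit 0x11000100],
    [nat_lit 0x2000,nat_lit 0x10002000,nat_lit 0x11000,nat_lit 0x10011000,nat_lit 0x101000,nat_lit 0x1001000,
    nat_lit 0x11001000,nat_lit 0x10001000,nat_lit 0x10101000],[nat_lit 0x20000,nat_lit 0x110000,nat_lit 0x1010000,
    nat_lit 0x11010000,nat_lit 0x10010000],[nat_lit 0x200000,nat_lit 0x1100000],[nat_lit 0x2000000,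
    nat_lit 0x11000000],[nat_lit 0x20000000]]
    [.c (nat_lit 1) (nat_lit 2),.r (nat_lit 0xdb8) (nat_lit 13) [nat_lit 0x2001,nat_lit 17],
    .c (nat_lit 0) (nat_lit 0x6c2),.r (nat_lit 0xdb4) (nat_lit 11) [nat_lit 0x2401,nat_lit 0x3099],
    .r (nat_lit 0x14fa) (nat_lit 11) [nat_lit 0x401,nat_lit 0x2001,nat_lit 0x611],
    .r (nat_lit 0x1649) (nat_lit 11) [nat_lit 0x401,nat_lit 0x2001,nat_lit 0x611],
    .r (nat_lit 0xdba) (nat_lit 13) [nat_lit 0x2001,nat_lit 17],.c (nat_lit 0) (nat_lit 0x6c2),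
    .r (nat_lit 0x165a) (nat_lit 11) [nat_lit 0x401,nat_lit 0x2001,nat_lit 0x611],
    .r (nat_lit 0xdb5) (nat_lit 13) [nat_lit 0x2001,nat_lit 17],.r (nat_lit 0xdc2) (nat_lit 13) [nat_lit 0x2001,
    nat_lit 0x3099],.r (nat_lit 0x14c8) (nat_lit 12) [nat_lit 0x2419,nat_lit 17,nat_lit 0x611],
    .c (nat_lit 0) (nat_lit 0x6c2),.r (nat_lit 0x1471) (nat_lit 12) [nat_lit 0x2419,nat_lit 17,nat_lit 0x611],
    .c (nat_lit 0) (nat_lit 0x6c2),.r (nat_lit 0x1500) (nat_lit 12) [nat_lit 0x2419,nat_lit 0x3099,nat_lit 17],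
    .c (nat_lit 1) (nat_lit 130),.c (nat_lit 2) (nat_lit 2),.r (nat_lit 0x1510) (nat_lit 12) [nat_lit 0x44d1,
    nat_lit 0x5691,nat_lit 0x499],.c (nat_lit 0) (nat_lit 0x602),.r (nat_lit 0x150f) (nat_lit 12) [nat_lit 17,
    nat_lit 0x44d1,nat_lit 0x3099],.r (nat_lit 0xdb4) (nat_lit 11) [nat_lit 0x2401,nat_lit 0x3699],
    .r (nat_lit 0x14b2) (nat_lit 12) [nat_lit 17,nat_lit 0x44d1,nat_lit 0x3099],
    .r (nat_lit 0x14fa) (nat_lit 11) [nat_lit 0x401,nat_lit 0x2001,nat_lit 17],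
    .r (nat_lit 0x1491) (nat_lit 12) [nat_lit 17,nat_lit 0x44d1,nat_lit 0x3099],
    .r (nat_lit 0x1500) (nat_lit 12) [nat_lit 0x44d1,nat_lit 17,nat_lit 0x3099],
    .r (nat_lit 0x1649) (nat_lit 11) [nat_lit 0x401,nat_lit 0x2001,nat_lit 17],
    .r (nat_lit 0xdba) (nat_lit 8) [nat_lit 17,nat_lit 0x2001],.r (nat_lit 0x15e8) (nat_lit 11) [nat_lit 0x401,
    nat_lit 0x2001,nat_lit 17],.r (nat_lit 0xdc2) (nat_lit 13) [nat_lit 0x2001,nat_lit 17],
    .r (nat_lit 0xdb8) (nat_lit 13) [nat_lit 0x2001,nat_lit 0x411],.c (nat_lit 3) (nat_lit 2),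
    .r (nat_lit 0x154a) (nat_lit 13) [nat_lit 0x2019,nat_lit 0x2419,nat_lit 17],.c (nat_lit 0) (nat_lit 0x602),
    .r (nat_lit 0x161c) (nat_lit 13) [nat_lit 0x2019,nat_lit 0x2419,nat_lit 17],.c (nat_lit 0) (nat_lit 0x602),
    .r (nat_lit 0x1643) (nat_lit 13) [nat_lit 0x2019,nat_lit 0x2419,nat_lit 17],
    .r (nat_lit 0x1653) (nat_lit 13) [nat_lit 0x2019,nat_lit 0x2419,nat_lit 17],.c (nat_lit 0) (nat_lit 0x602),
    .c (nat_lit 4) (nat_lit 2),.r (nat_lit 0x165a) (nat_lit 11) [nat_lit 0x401,nat_lit 0x2001,nat_lit 17],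
    .r (nat_lit 0x14c1) (nat_lit 11) [nat_lit 0x401,nat_lit 0x2001,nat_lit 17],
    .r (nat_lit 0xdb5) (nat_lit 13) [nat_lit 0x2001,nat_lit 0x411],.r (nat_lit 0x1505) (nat_lit 11) [nat_lit 0x401,
    nat_lit 0x2001,nat_lit 17],.r (nat_lit 0xdbf) (nat_lit 8) [nat_lit 0x2001,nat_lit 17],
    .r (nat_lit 0x1501) (nat_lit 12) [nat_lit 0x2019,nat_lit 0x3699,nat_lit 0x411],
    .r (nat_lit 0xdba) (nat_lit 13) [nat_lit 0x2001,nat_lit 0x411],.r (nat_lit 0xdc2) (nat_lit 13) [nat_lit 0x2001,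
    nat_lit 0x3699],.c (nat_lit 5) (nat_lit 2),.r (nat_lit 0xdbb) (nat_lit 2) [nat_lit 17,nat_lit 0x2401],
    .r (nat_lit 0xdc0) (nat_lit 8) [nat_lit 0x2401,nat_lit 17],.r (nat_lit 0x1500) (nat_lit 12) [nat_lit 0x2019,
    nat_lit 0x3699,nat_lit 0x411],.r (nat_lit 0x14c8) (nat_lit 12) [nat_lit 0x2019,nat_lit 0x411,nat_lit 17],
    .c (nat_lit 6) (nat_lit 2),.r (nat_lit 0xdbb) (nat_lit 10) [nat_lit 17,nat_lit 0x2401],.c (nat_lit 7) (nat_lit 2),
    .r (nat_lit 0x1471) (nat_lit 12) [nat_lit 0x2019,nat_lit 0x411,nat_lit 17],.c (nat_lit 8) (nat_lit 2)]]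

/-- nodes -/
noncomputable def rD8k_36_21 : List RJ :=
  [.s (nat_lit 15) (nat_lit 0x1680) (nat_lit 4) (nat_lit 0x878000008780000095200000952000009f3000009f3000009910000099100000a0c00000a0c00000b4c00000b4c00000aaa00000aaa0000091000000910) (nat_lit 0x2d4000002d4000001fa000001fa0000015900000159000001bb000001bb00000140000001400000000000000000000000a2000000a20000023c0000023c)
    (nat_lit 0xb98188033f067e0e3e1d9c39483cf0e70147036a09c80fac1f5831e05700b48173031b067e141a1c7c33a86bd0e701ce034009740d241da831e05040cfc19f83ac07580ff221043cb84a90e2c21684df095213d02aa0377085a0c6c19f83ac07580f621fe43cb8797102420484cf095217203140367085a0e3e1d9c3fc88411134226841c0880116622cc32989f3101a24143db84d7141a1c7c3d887f913e4226859308380b8222cc4f989f312a2176c55287b70d7a0f3c3cb84a9107022003eb067e10a2158c6838c8311de23bc3aa87550cea1ca43cb8797164c20e03eb07d60fe221444da8931104623bc4b887550e701470409085a116622cc4288563125823305060a6c12d425183b2089c0e701ce040907160b8222cc3f88851119824b05060a0c19e4333834007d012e827204a9095213e627cc4988c83141829b03f40b4c15542aa848805880d001b504cf09be13e6194c4da8d07141828305a607e812cc2aa848809100ed41f586280aa80bb6241447788ef199c25185550aaa1410282050909b20d241f585c809e812a2203441188ef19e425a84b30aaa1410282049d086e0a0815c042d085a0f6e135c3aa87550fa02270488058810dc26c836a06d40c7818f036706ee154a1edc4b887550d001d9048809101274284832c06d4)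
    (nat_lit 0xb985a00b4016802d005a00b4016802d005a00b4016802d005a00b4016800c401730b4016802d005a00b4016802d005a00b4016802d005a00b4016800cfc18d83ac16802d005a00b4016802d005a00b4016802d005a00b4016800cfc19f83ac07582d005a00b4016802d005a00b4016802d005a00b4016800e3e28343fc87b111345a00b4016802d005a00b4016802d005a00b4016800ece1c7c42087f911342268b4016802d005a00b4016802d005a00b4016800e5219d43cb879710702c983eb16802d005a00b4016802d005a00b401680079e1af42548797110020e033f07d62d005a00b4016802d005a00b4016800e701ce038b08121166170442887f112585a00b4016802d005a00b4016800a381ce042d0812116622cc2b18851119824b0b4016802d005a00b4016800da81a004df099e0ca627cc52789b5141828303f416802d005a00b401680139025d04a9095213e627cc641893114d828305a607e82d005a00b4016800fac1a484f40b90101a2544477882312d433c8555096614105a00b4016800fac1da85540c50120a176c47788ef128c33385550aaa14102820b4016800c7818f037706ce0f6e2a943aa89710ec81a004880910142424e836a16800ae0141042d085a09ae1edc3aa875511381f402c40910136421b836a06d4)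
    (nat_lit 4) (nat_lit 101)
    [[nat_lit 0,nat_lit 2,nat_lit 14],[nat_lit 0,nat_lit 2,nat_lit 15],[nat_lit 0,nat_lit 3,nat_lit 14],[nat_lit 0,
    nat_lit 3,nat_lit 15],[nat_lit 0,nat_lit 7,nat_lit 5],[nat_lit 0,nat_lit 10,nat_lit 7,nat_lit 14],[nat_lit 0,
    nat_lit 10,nat_lit 13,nat_lit 14],[nat_lit 0,nat_lit 10,nat_lit 15,nat_lit 12],[nat_lit 0,nat_lit 12,nat_lit 5],
    [nat_lit 0,nat_lit 13,nat_lit 5],[nat_lit 0,nat_lit 14,nat_lit 2],[nat_lit 0,nat_lit 14,nat_lit 6,nat_lit 11],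
    [nat_lit 0,nat_lit 15,nat_lit 6,nat_lit 11],[nat_lit 1,nat_lit 3,nat_lit 15],[nat_lit 1,nat_lit 4,nat_lit 6],
    [nat_lit 1,nat_lit 4,nat_lit 12],[nat_lit 1,nat_lit 4,nat_lit 13],[nat_lit 1,nat_lit 10,nat_lit 7,nat_lit 14],
    [nat_lit 1,nat_lit 10,nat_lit 7,nat_lit 15],[nat_lit 1,nat_lit 13,nat_lit 14,nat_lit 11],[nat_lit 1,nat_lit 14,
    nat_lit 2],[nat_lit 1,nat_lit 14,nat_lit 3],[nat_lit 1,nat_lit 15,nat_lit 2],[nat_lit 1,nat_lit 15,nat_lit 3],
    [nat_lit 1,nat_lit 15,nat_lit 6,nat_lit 11],[nat_lit 1,nat_lit 15,nat_lit 12,nat_lit 11],[nat_lit 2,nat_lit 6],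
    [nat_lit 2,nat_lit 7],[nat_lit 2,nat_lit 12],[nat_lit 2,nat_lit 13],[nat_lit 3,nat_lit 6],[nat_lit 3,nat_lit 7],
    [nat_lit 3,nat_lit 12],[nat_lit 3,nat_lit 13],[nat_lit 4,nat_lit 8],[nat_lit 4,nat_lit 9],[nat_lit 4,nat_lit 14,
    nat_lit 14],[nat_lit 4,nat_lit 14,nat_lit 15],[nat_lit 4,nat_lit 15,nat_lit 14],[nat_lit 4,nat_lit 15,nat_lit 15],
    [nat_lit 5,nat_lit 8],[nat_lit 5,nat_lit 9],[nat_lit 5,nat_lit 14,nat_lit 14],[nat_lit 5,nat_lit 14,nat_lit 15],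
    [nat_lit 5,nat_lit 15,nat_lit 14],[nat_lit 5,nat_lit 15,nat_lit 15],[nat_lit 6,nat_lit 6,nat_lit 10],[nat_lit 6,
    nat_lit 6,nat_lit 11],[nat_lit 6,nat_lit 10,nat_lit 6],[nat_lit 6,nat_lit 11,nat_lit 6],[nat_lit 6,nat_lit 11,
    nat_lit 12],[nat_lit 6,nat_lit 11,nat_lit 13],[nat_lit 6,nat_lit 12,nat_lit 10],[nat_lit 6,nat_lit 12,nat_lit 11],
    [nat_lit 6,nat_lit 13,nat_lit 11],[nat_lit 7,nat_lit 7,nat_lit 10],[nat_lit 7,nat_lit 7,nat_lit 11],[nat_lit 7,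
    nat_lit 10,nat_lit 7],[nat_lit 7,nat_lit 10,nat_lit 12],[nat_lit 7,nat_lit 10,nat_lit 13],[nat_lit 7,nat_lit 11,
    nat_lit 7],[nat_lit 7,nat_lit 11,nat_lit 13],[nat_lit 7,nat_lit 12,nat_lit 10],[nat_lit 7,nat_lit 13,nat_lit 10],
    [nat_lit 8,nat_lit 10,nat_lit 14],[nat_lit 8,nat_lit 10,nat_lit 15],[nat_lit 8,nat_lit 11,nat_lit 14],[nat_lit 8,
    nat_lit 11,nat_lit 15],[nat_lit 8,nat_lit 14,nat_lit 11],[nat_lit 8,nat_lit 15,nat_lit 10],[nat_lit 8,nat_lit 15,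
    nat_lit 11],[nat_lit 9,nat_lit 10,nat_lit 14],[nat_lit 9,nat_lit 10,nat_lit 15],[nat_lit 9,nat_lit 11,nat_lit 14],
    [nat_lit 9,nat_lit 14,nat_lit 10],[nat_lit 9,nat_lit 14,nat_lit 11],[nat_lit 9,nat_lit 15,nat_lit 10],[nat_lit 9,
    nat_lit 15,nat_lit 11],[nat_lit 10,nat_lit 12,nat_lit 12],[nat_lit 10,nat_lit 12,nat_lit 13],[nat_lit 10,
    nat_lit 13,nat_lit 12],[nat_lit 10,nat_lit 13,nat_lit 13],[nat_lit 10,nat_lit 14,nat_lit 14,nat_lit 14],
    [nat_lit 11,nat_lit 12,nat_lit 12],[nat_lit 11,nat_lit 12,nat_lit 13],[nat_lit 11,nat_lit 13,nat_lit 12],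
    [nat_lit 11,nat_lit 13,nat_lit 13],[nat_lit 11,nat_lit 15,nat_lit 15,nat_lit 15]]
    [nat_lit 0x102e,nat_lit 0x102f,nat_lit 0x103e,nat_lit 0x103f,nat_lit 0x1075,nat_lit 0x10a7e,nat_lit 0x10ade,
    nat_lit 0x10afc,nat_lit 0x10c5,nat_lit 0x10d5,nat_lit 0x10e2,nat_lit 0x10e6b,nat_lit 0x10f6b,nat_lit 0x113f,
    nat_lit 0x1146,nat_lit 0x114c,nat_lit 0x114d,nat_lit 0x11a7e,nat_lit 0x11a7f,nat_lit 0x11deb,nat_lit 0x11e2,
    nat_lit 0x11e3,nat_lit 0x11f2,nat_lit 0x11f3,nat_lit 0x11f6b,nat_lit 0x11fcb,nat_lit 294,nat_lit 295,nat_lit 300,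
    nat_lit 301,nat_lit 310,nat_lit 311,nat_lit 316,nat_lit 317,nat_lit 328,nat_lit 329,nat_lit 0x14ee,nat_lit 0x14ef,
    nat_lit 0x14fe,nat_lit 0x14ff,nat_lit 344,nat_lit 345,nat_lit 0x15ee,nat_lit 0x15ef,nat_lit 0x15fe,nat_lit 0x15ff,
    nat_lit 0x166a,nat_lit 0x166b,nat_lit 0x16a6,nat_lit 0x16b6,nat_lit 0x16bc,nat_lit 0x16bd,nat_lit 0x16ca,
    nat_lit 0x16cb,nat_lit 0x16db,nat_lit 0x177a,nat_lit 0x177b,nat_lit 0x17a7,nat_lit 0x17ac,nat_lit 0x17ad,
    nat_lit 0x17b7,nat_lit 0x17bd,nat_lit 0x17ca,nat_lit 0x17da,nat_lit 0x18ae,nat_lit 0x18af,nat_lit 0x18be,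
    nat_lit 0x18bf,nat_lit 0x18eb,nat_lit 0x18fa,nat_lit 0x18fb,nat_lit 0x19ae,nat_lit 0x19af,nat_lit 0x19be,
    nat_lit 0x19ea,nat_lit 0x19eb,nat_lit 0x19fa,nat_lit 0x19fb,nat_lit 0x1acc,nat_lit 0x1acd,nat_lit 0x1adc,
    nat_lit 0x1add,nat_lit 0x1aeee,nat_lit 0x1bcc,nat_lit 0x1bcd,nat_lit 0x1bdc,nat_lit 0x1bdd,nat_lit 0x1bfff]
    [[[nat_lit 0,nat_lit 2,nat_lit 14],[nat_lit 0,nat_lit 2,nat_lit 15],[nat_lit 0,nat_lit 3,nat_lit 14],[nat_lit 0,
    nat_lit 3,nat_lit 15],[nat_lit 0,nat_lit 7,nat_lit 5],[nat_lit 0,nat_lit 10,nat_lit 7,nat_lit 14],[nat_lit 0,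
    nat_lit 10,nat_lit 13,nat_lit 14],[nat_lit 0,nat_lit 10,nat_lit 15,nat_lit 12],[nat_lit 0,nat_lit 12,nat_lit 5],
    [nat_lit 0,nat_lit 13,nat_lit 5],[nat_lit 0,nat_lit 14,nat_lit 2],[nat_lit 0,nat_lit 14,nat_lit 6,nat_lit 11]],
    [[nat_lit 0,nat_lit 15,nat_lit 6,nat_lit 11],[nat_lit 1,nat_lit 3,nat_lit 15],[nat_lit 1,nat_lit 4,nat_lit 6],
    [nat_lit 1,nat_lit 4,nat_lit 12],[nat_lit 1,nat_lit 4,nat_lit 13],[nat_lit 1,nat_lit 10,nat_lit 7,nat_lit 14],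
    [nat_lit 1,nat_lit 10,nat_lit 7,nat_lit 15],[nat_lit 1,nat_lit 13,nat_lit 14,nat_lit 11],[nat_lit 1,nat_lit 14,
    nat_lit 2],[nat_lit 1,nat_lit 14,nat_lit 3],[nat_lit 1,nat_lit 15,nat_lit 2],[nat_lit 1,nat_lit 15,nat_lit 3]],
    [[nat_lit 1,nat_lit 15,nat_lit 6,nat_lit 11],[nat_lit 1,nat_lit 15,nat_lit 12,nat_lit 11],[nat_lit 2,nat_lit 0,
    nat_lit 14],[nat_lit 2,nat_lit 1,nat_lit 14],[nat_lit 2,nat_lit 1,nat_lit 15],[nat_lit 2,nat_lit 6],[nat_lit 2,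
    nat_lit 7],[nat_lit 2,nat_lit 12],[nat_lit 2,nat_lit 13],[nat_lit 2,nat_lit 14,nat_lit 0],[nat_lit 2,nat_lit 15,
    nat_lit 0],[nat_lit 3,nat_lit 1,nat_lit 14]],[[nat_lit 3,nat_lit 1,nat_lit 15],[nat_lit 3,nat_lit 6],[nat_lit 3,
    nat_lit 7],[nat_lit 3,nat_lit 12],[nat_lit 3,nat_lit 13],[nat_lit 3,nat_lit 14,nat_lit 0],[nat_lit 3,nat_lit 15,
    nat_lit 0],[nat_lit 3,nat_lit 15,nat_lit 1],[nat_lit 4,nat_lit 6,nat_lit 1],[nat_lit 4,nat_lit 8],[nat_lit 4,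
    nat_lit 9],[nat_lit 4,nat_lit 12,nat_lit 1]],[[nat_lit 4,nat_lit 13,nat_lit 1],[nat_lit 4,nat_lit 14,nat_lit 14],
    [nat_lit 4,nat_lit 14,nat_lit 15],[nat_lit 4,nat_lit 15,nat_lit 14],[nat_lit 4,nat_lit 15,nat_lit 15],[nat_lit 5,
    nat_lit 0,nat_lit 7],[nat_lit 5,nat_lit 0,nat_lit 12],[nat_lit 5,nat_lit 0,nat_lit 13],[nat_lit 5,nat_lit 8],
    [nat_lit 5,nat_lit 9],[nat_lit 5,nat_lit 14,nat_lit 14],[nat_lit 5,nat_lit 14,nat_lit 15]],[[nat_lit 5,nat_lit 15,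
    nat_lit 14],[nat_lit 5,nat_lit 15,nat_lit 15],[nat_lit 6,nat_lit 1,nat_lit 4],[nat_lit 6,nat_lit 2],[nat_lit 6,
    nat_lit 3],[nat_lit 6,nat_lit 6,nat_lit 10],[nat_lit 6,nat_lit 6,nat_lit 11],[nat_lit 6,nat_lit 10,nat_lit 6],
    [nat_lit 6,nat_lit 11,nat_lit 0,nat_lit 14],[nat_lit 6,nat_lit 11,nat_lit 0,nat_lit 15],[nat_lit 6,nat_lit 11,
    nat_lit 1,nat_lit 15],[nat_lit 6,nat_lit 11,nat_lit 6]],[[nat_lit 6,nat_lit 11,nat_lit 12],[nat_lit 6,nat_lit 11,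
    nat_lit 13],[nat_lit 6,nat_lit 12,nat_lit 10],[nat_lit 6,nat_lit 12,nat_lit 11],[nat_lit 6,nat_lit 13,nat_lit 11],
    [nat_lit 7,nat_lit 2],[nat_lit 7,nat_lit 3],[nat_lit 7,nat_lit 5,nat_lit 0],[nat_lit 7,nat_lit 7,nat_lit 10],
    [nat_lit 7,nat_lit 7,nat_lit 11],[nat_lit 7,nat_lit 10,nat_lit 7],[nat_lit 7,nat_lit 10,nat_lit 12]],[[nat_lit 7,
    nat_lit 10,nat_lit 13],[nat_lit 7,nat_lit 11,nat_lit 7],[nat_lit 7,nat_lit 11,nat_lit 13],[nat_lit 7,nat_lit 12,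
    nat_lit 10],[nat_lit 7,nat_lit 13,nat_lit 10],[nat_lit 7,nat_lit 14,nat_lit 0,nat_lit 10],[nat_lit 7,nat_lit 14,
    nat_lit 1,nat_lit 10],[nat_lit 7,nat_lit 15,nat_lit 1,nat_lit 10],[nat_lit 8,nat_lit 4],[nat_lit 8,nat_lit 5],
    [nat_lit 8,nat_lit 10,nat_lit 14],[nat_lit 8,nat_lit 10,nat_lit 15]],[[nat_lit 8,nat_lit 11,nat_lit 14],
    [nat_lit 8,nat_lit 11,nat_lit 15],[nat_lit 8,nat_lit 14,nat_lit 11],[nat_lit 8,nat_lit 15,nat_lit 10],[nat_lit 8,
    nat_lit 15,nat_lit 11],[nat_lit 9,nat_lit 4],[nat_lit 9,nat_lit 5],[nat_lit 9,nat_lit 10,nat_lit 14],[nat_lit 9,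
    nat_lit 10,nat_lit 15],[nat_lit 9,nat_lit 11,nat_lit 14],[nat_lit 9,nat_lit 14,nat_lit 10],[nat_lit 9,nat_lit 14,
    nat_lit 11]],[[nat_lit 9,nat_lit 15,nat_lit 10],[nat_lit 9,nat_lit 15,nat_lit 11],[nat_lit 10,nat_lit 6,
    nat_lit 6],[nat_lit 10,nat_lit 6,nat_lit 12],[nat_lit 10,nat_lit 7,nat_lit 7],[nat_lit 10,nat_lit 7,nat_lit 12],
    [nat_lit 10,nat_lit 7,nat_lit 13],[nat_lit 10,nat_lit 7,nat_lit 14,nat_lit 0],[nat_lit 10,nat_lit 7,nat_lit 14,
    nat_lit 1],[nat_lit 10,nat_lit 7,nat_lit 15,nat_lit 1],[nat_lit 10,nat_lit 8,nat_lit 15],[nat_lit 10,nat_lit 9,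
    nat_lit 14]],[[nat_lit 10,nat_lit 9,nat_lit 15],[nat_lit 10,nat_lit 12,nat_lit 7],[nat_lit 10,nat_lit 12,
    nat_lit 12],[nat_lit 10,nat_lit 12,nat_lit 13],[nat_lit 10,nat_lit 13,nat_lit 7],[nat_lit 10,nat_lit 13,
    nat_lit 12],[nat_lit 10,nat_lit 13,nat_lit 13],[nat_lit 10,nat_lit 13,nat_lit 14,nat_lit 0],[nat_lit 10,
    nat_lit 14,nat_lit 8],[nat_lit 10,nat_lit 14,nat_lit 9],[nat_lit 10,nat_lit 14,nat_lit 14,nat_lit 14],[nat_lit 10,
    nat_lit 15,nat_lit 8]],[[nat_lit 10,nat_lit 15,nat_lit 9],[nat_lit 10,nat_lit 15,nat_lit 12,nat_lit 0],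
    [nat_lit 11,nat_lit 0,nat_lit 14,nat_lit 6],[nat_lit 11,nat_lit 0,nat_lit 15,nat_lit 6],[nat_lit 11,nat_lit 1,
    nat_lit 13,nat_lit 14],[nat_lit 11,nat_lit 1,nat_lit 15,nat_lit 6],[nat_lit 11,nat_lit 1,nat_lit 15,nat_lit 12],
    [nat_lit 11,nat_lit 6,nat_lit 6],[nat_lit 11,nat_lit 6,nat_lit 12],[nat_lit 11,nat_lit 6,nat_lit 13],[nat_lit 11,
    nat_lit 7,nat_lit 7],[nat_lit 11,nat_lit 8,nat_lit 14]],[[nat_lit 11,nat_lit 8,nat_lit 15],[nat_lit 11,nat_lit 9,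
    nat_lit 14],[nat_lit 11,nat_lit 9,nat_lit 15],[nat_lit 11,nat_lit 12,nat_lit 6],[nat_lit 11,nat_lit 12,
    nat_lit 12],[nat_lit 11,nat_lit 12,nat_lit 13],[nat_lit 11,nat_lit 13,nat_lit 6],[nat_lit 11,nat_lit 13,
    nat_lit 7],[nat_lit 11,nat_lit 13,nat_lit 12],[nat_lit 11,nat_lit 13,nat_lit 13],[nat_lit 11,nat_lit 14,
    nat_lit 8],[nat_lit 11,nat_lit 14,nat_lit 9]],[[nat_lit 11,nat_lit 15,nat_lit 8],[nat_lit 11,nat_lit 15,
    nat_lit 15,nat_lit 15],[nat_lit 12,nat_lit 0,nat_lit 10,nat_lit 15],[nat_lit 12,nat_lit 1,nat_lit 4],[nat_lit 12,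
    nat_lit 2],[nat_lit 12,nat_lit 3],[nat_lit 12,nat_lit 5,nat_lit 0],[nat_lit 12,nat_lit 6,nat_lit 11],[nat_lit 12,
    nat_lit 7,nat_lit 10],[nat_lit 12,nat_lit 10,nat_lit 6],[nat_lit 12,nat_lit 10,nat_lit 7],[nat_lit 12,nat_lit 10,
    nat_lit 12]],[[nat_lit 12,nat_lit 10,nat_lit 13],[nat_lit 12,nat_lit 11,nat_lit 1,nat_lit 15],[nat_lit 12,
    nat_lit 11,nat_lit 6],[nat_lit 12,nat_lit 11,nat_lit 12],[nat_lit 12,nat_lit 11,nat_lit 13],[nat_lit 12,
    nat_lit 12,nat_lit 10],[nat_lit 12,nat_lit 12,nat_lit 11],[nat_lit 12,nat_lit 13,nat_lit 10],[nat_lit 12,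
    nat_lit 13,nat_lit 11],[nat_lit 13,nat_lit 1,nat_lit 4],[nat_lit 13,nat_lit 2],[nat_lit 13,nat_lit 3]],
    [[nat_lit 13,nat_lit 5,nat_lit 0],[nat_lit 13,nat_lit 6,nat_lit 11],[nat_lit 13,nat_lit 7,nat_lit 10],[nat_lit 13,
    nat_lit 7,nat_lit 11],[nat_lit 13,nat_lit 10,nat_lit 7],[nat_lit 13,nat_lit 10,nat_lit 12],[nat_lit 13,nat_lit 10,
    nat_lit 13],[nat_lit 13,nat_lit 11,nat_lit 6],[nat_lit 13,nat_lit 11,nat_lit 12],[nat_lit 13,nat_lit 11,
    nat_lit 13],[nat_lit 13,nat_lit 12,nat_lit 10],[nat_lit 13,nat_lit 12,nat_lit 11]],[[nat_lit 13,nat_lit 13,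
    nat_lit 10],[nat_lit 13,nat_lit 13,nat_lit 11],[nat_lit 13,nat_lit 14,nat_lit 0,nat_lit 10],[nat_lit 13,
    nat_lit 14,nat_lit 11,nat_lit 1],[nat_lit 14,nat_lit 0,nat_lit 2],[nat_lit 14,nat_lit 0,nat_lit 3],[nat_lit 14,
    nat_lit 0,nat_lit 10,nat_lit 7],[nat_lit 14,nat_lit 0,nat_lit 10,nat_lit 13],[nat_lit 14,nat_lit 1,nat_lit 10,
    nat_lit 7],[nat_lit 14,nat_lit 2,nat_lit 0],[nat_lit 14,nat_lit 2,nat_lit 1],[nat_lit 14,nat_lit 3,nat_lit 1]],
    [[nat_lit 14,nat_lit 4,nat_lit 14],[nat_lit 14,nat_lit 4,nat_lit 15],[nat_lit 14,nat_lit 5,nat_lit 14],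
    [nat_lit 14,nat_lit 5,nat_lit 15],[nat_lit 14,nat_lit 6,nat_lit 11,nat_lit 0],[nat_lit 14,nat_lit 8,nat_lit 10],
    [nat_lit 14,nat_lit 8,nat_lit 11],[nat_lit 14,nat_lit 9,nat_lit 10],[nat_lit 14,nat_lit 9,nat_lit 11],[nat_lit 14,
    nat_lit 10,nat_lit 9],[nat_lit 14,nat_lit 10,nat_lit 14,nat_lit 14],[nat_lit 14,nat_lit 11,nat_lit 1,nat_lit 13]],
    [[nat_lit 14,nat_lit 11,nat_lit 8],[nat_lit 14,nat_lit 11,nat_lit 9],[nat_lit 14,nat_lit 14,nat_lit 4],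
    [nat_lit 14,nat_lit 14,nat_lit 5],[nat_lit 14,nat_lit 14,nat_lit 10,nat_lit 14],[nat_lit 14,nat_lit 14,nat_lit 14,
    nat_lit 10],[nat_lit 14,nat_lit 15,nat_lit 4],[nat_lit 14,nat_lit 15,nat_lit 5],[nat_lit 15,nat_lit 0,nat_lit 2],
    [nat_lit 15,nat_lit 0,nat_lit 3],[nat_lit 15,nat_lit 1,nat_lit 3],[nat_lit 15,nat_lit 1,nat_lit 10,nat_lit 7]],
    [[nat_lit 15,nat_lit 2,nat_lit 1],[nat_lit 15,nat_lit 3,nat_lit 1],[nat_lit 15,nat_lit 4,nat_lit 14],[nat_lit 15,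
    nat_lit 4,nat_lit 15],[nat_lit 15,nat_lit 5,nat_lit 14],[nat_lit 15,nat_lit 5,nat_lit 15],[nat_lit 15,nat_lit 6,
    nat_lit 11,nat_lit 0],[nat_lit 15,nat_lit 6,nat_lit 11,nat_lit 1],[nat_lit 15,nat_lit 8,nat_lit 10],[nat_lit 15,
    nat_lit 8,nat_lit 11],[nat_lit 15,nat_lit 9,nat_lit 10],[nat_lit 15,nat_lit 10,nat_lit 8]],[[nat_lit 15,
    nat_lit 10,nat_lit 9],[nat_lit 15,nat_lit 11,nat_lit 8],[nat_lit 15,nat_lit 11,nat_lit 9],[nat_lit 15,nat_lit 11,
    nat_lit 15,nat_lit 15],[nat_lit 15,nat_lit 12,nat_lit 0,nat_lit 10],[nat_lit 15,nat_lit 12,nat_lit 11,nat_lit 1],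
    [nat_lit 15,nat_lit 14,nat_lit 4],[nat_lit 15,nat_lit 14,nat_lit 5],[nat_lit 15,nat_lit 15,nat_lit 4],[nat_lit 15,
    nat_lit 15,nat_lit 5],[nat_lit 15,nat_lit 15,nat_lit 11,nat_lit 15],[nat_lit 15,nat_lit 15,nat_lit 15,
    nat_lit 11]]]
    [[nat_lit 33,nat_lit 34,nat_lit 41,nat_lit 42,nat_lit 79,nat_lit 115,nat_lit 127,nat_lit 133,nat_lit 162,
    nat_lit 180,nat_lit 201,nat_lit 208],[nat_lit 234,nat_lit 43,nat_lit 44,nat_lit 47,nat_lit 48,nat_lit 116,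
    nat_lit 117,nat_lit 195,nat_lit 202,nat_lit 203,nat_lit 228,nat_lit 229],[nat_lit 235,nat_lit 245,nat_lit 10,
    nat_lit 20,nat_lit 22,nat_lit 63,nat_lit 77,nat_lit 160,nat_lit 178,nat_lit 196,nat_lit 224,nat_lit 21],
    [nat_lit 23,nat_lit 64,nat_lit 78,nat_lit 161,nat_lit 179,nat_lit 197,nat_lit 225,nat_lit 226,nat_lit 62,
    nat_lit 92,nat_lit 101,nat_lit 159],[nat_lit 177,nat_lit 218,nat_lit 222,nat_lit 246,nat_lit 248,nat_lit 4,
    nat_lit 8,nat_lit 9,nat_lit 93,nat_lit 102,nat_lit 219,nat_lit 223],[nat_lit 247,nat_lit 249,nat_lit 14,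
    nat_lit 29,nat_lit 37,nat_lit 67,nat_lit 71,nat_lit 110,nat_lit 134,nat_lit 135,nat_lit 137,nat_lit 139],
    [nat_lit 147,nat_lit 150,nat_lit 165,nat_lit 170,nat_lit 187,nat_lit 30,nat_lit 38,nat_lit 53,nat_lit 82,
    nat_lit 85,nat_lit 112,nat_lit 121],[nat_lit 124,nat_lit 142,nat_lit 151,nat_lit 166,nat_lit 184,nat_lit 198,
    nat_lit 200,nat_lit 227,nat_lit 45,nat_lit 56,nat_lit 128,nat_lit 131],[nat_lit 154,nat_lit 156,nat_lit 216,
    nat_lit 239,nat_lit 241,nat_lit 46,nat_lit 57,nat_lit 129,nat_lit 132,nat_lit 155,nat_lit 213,nat_lit 217],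
    [nat_lit 240,nat_lit 242,nat_lit 65,nat_lit 74,nat_lit 80,nat_lit 87,nat_lit 88,nat_lit 89,nat_lit 90,nat_lit 91,
    nat_lit 99,nat_lit 106],[nat_lit 108,nat_lit 164,nat_lit 173,nat_lit 175,nat_lit 182,nat_lit 190,nat_lit 192,
    nat_lit 194,nat_lit 209,nat_lit 211,nat_lit 221,nat_lit 236],[nat_lit 238,nat_lit 244,nat_lit 11,nat_lit 12,
    nat_lit 19,nat_lit 24,nat_lit 25,nat_lit 66,nat_lit 75,nat_lit 76,nat_lit 81,nat_lit 98],[nat_lit 100,nat_lit 107,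
    nat_lit 109,nat_lit 163,nat_lit 174,nat_lit 176,nat_lit 181,nat_lit 183,nat_lit 191,nat_lit 193,nat_lit 210,
    nat_lit 212],[nat_lit 237,nat_lit 251,nat_lit 7,nat_lit 15,nat_lit 31,nat_lit 39,nat_lit 54,nat_lit 72,nat_lit 83,
    nat_lit 111,nat_lit 113,nat_lit 122],[nat_lit 125,nat_lit 138,nat_lit 140,nat_lit 148,nat_lit 152,nat_lit 167,
    nat_lit 171,nat_lit 185,nat_lit 188,nat_lit 16,nat_lit 32,nat_lit 40],[nat_lit 55,nat_lit 73,nat_lit 84,
    nat_lit 86,nat_lit 114,nat_lit 123,nat_lit 126,nat_lit 141,nat_lit 149,nat_lit 153,nat_lit 168,nat_lit 172],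
    [nat_lit 186,nat_lit 189,nat_lit 199,nat_lit 215,nat_lit 0,nat_lit 2,nat_lit 5,nat_lit 6,nat_lit 17,nat_lit 26,
    nat_lit 27,nat_lit 35],[nat_lit 49,nat_lit 51,nat_lit 58,nat_lit 60,nat_lit 68,nat_lit 94,nat_lit 96,nat_lit 103,
    nat_lit 105,nat_lit 119,nat_lit 130,nat_lit 136],[nat_lit 143,nat_lit 145,nat_lit 204,nat_lit 206,nat_lit 214,
    nat_lit 220,nat_lit 230,nat_lit 232,nat_lit 1,nat_lit 3,nat_lit 13,nat_lit 18],[nat_lit 28,nat_lit 36,nat_lit 50,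
    nat_lit 52,nat_lit 59,nat_lit 61,nat_lit 69,nat_lit 70,nat_lit 95,nat_lit 97,nat_lit 104,nat_lit 118],
    [nat_lit 120,nat_lit 144,nat_lit 146,nat_lit 157,nat_lit 158,nat_lit 169,nat_lit 205,nat_lit 207,nat_lit 231,
    nat_lit 233,nat_lit 243,nat_lit 250]]
    [[nat_lit 196,nat_lit 224,nat_lit 197,nat_lit 225,nat_lit 53,nat_lit 198,nat_lit 199,nat_lit 158,nat_lit 54,
    nat_lit 55,nat_lit 26,nat_lit 134],[nat_lit 135,nat_lit 226,nat_lit 62,nat_lit 159,nat_lit 177,nat_lit 200,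
    nat_lit 227,nat_lit 136,nat_lit 27,nat_lit 35,nat_lit 28,nat_lit 36],[nat_lit 137,nat_lit 138,nat_lit 201,
    nat_lit 202,nat_lit 228,nat_lit 63,nat_lit 77,nat_lit 160,nat_lit 178,nat_lit 0,nat_lit 1,nat_lit 203],
    [nat_lit 229,nat_lit 64,nat_lit 78,nat_lit 161,nat_lit 179,nat_lit 2,nat_lit 3,nat_lit 13,nat_lit 14,nat_lit 92,
    nat_lit 101,nat_lit 15],[nat_lit 16,nat_lit 204,nat_lit 230,nat_lit 205,nat_lit 231,nat_lit 79,nat_lit 162,
    nat_lit 180,nat_lit 93,nat_lit 102,nat_lit 206,nat_lit 232],[nat_lit 207,nat_lit 233,nat_lit 44,nat_lit 29,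
    nat_lit 37,nat_lit 110,nat_lit 139,nat_lit 65,nat_lit 208,nat_lit 234,nat_lit 235,nat_lit 66],[nat_lit 163,
    nat_lit 181,nat_lit 111,nat_lit 140,nat_lit 141,nat_lit 30,nat_lit 38,nat_lit 4,nat_lit 112,nat_lit 142,
    nat_lit 80,nat_lit 164],[nat_lit 182,nat_lit 81,nat_lit 183,nat_lit 113,nat_lit 114,nat_lit 115,nat_lit 116,
    nat_lit 117,nat_lit 45,nat_lit 56,nat_lit 209,nat_lit 236],[nat_lit 210,nat_lit 237,nat_lit 143,nat_lit 118,
    nat_lit 144,nat_lit 46,nat_lit 57,nat_lit 211,nat_lit 238,nat_lit 212,nat_lit 119,nat_lit 145],[nat_lit 120,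
    nat_lit 146,nat_lit 67,nat_lit 165,nat_lit 82,nat_lit 166,nat_lit 184,nat_lit 5,nat_lit 17,nat_lit 18,nat_lit 239,
    nat_lit 213],[nat_lit 240,nat_lit 83,nat_lit 167,nat_lit 185,nat_lit 84,nat_lit 168,nat_lit 186,nat_lit 6,
    nat_lit 94,nat_lit 103,nat_lit 214,nat_lit 95],[nat_lit 104,nat_lit 7,nat_lit 68,nat_lit 69,nat_lit 215,
    nat_lit 70,nat_lit 169,nat_lit 71,nat_lit 170,nat_lit 187,nat_lit 85,nat_lit 216],[nat_lit 241,nat_lit 217,
    nat_lit 242,nat_lit 72,nat_lit 171,nat_lit 188,nat_lit 73,nat_lit 86,nat_lit 172,nat_lit 189,nat_lit 96,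
    nat_lit 105],[nat_lit 97,nat_lit 243,nat_lit 244,nat_lit 47,nat_lit 31,nat_lit 39,nat_lit 8,nat_lit 147,
    nat_lit 121,nat_lit 74,nat_lit 87,nat_lit 173],[nat_lit 190,nat_lit 245,nat_lit 75,nat_lit 174,nat_lit 191,
    nat_lit 122,nat_lit 148,nat_lit 123,nat_lit 149,nat_lit 48,nat_lit 32,nat_lit 40],[nat_lit 9,nat_lit 150,
    nat_lit 124,nat_lit 151,nat_lit 88,nat_lit 175,nat_lit 192,nat_lit 76,nat_lit 176,nat_lit 193,nat_lit 125,
    nat_lit 152],[nat_lit 126,nat_lit 153,nat_lit 127,nat_lit 19,nat_lit 33,nat_lit 41,nat_lit 89,nat_lit 194,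
    nat_lit 90,nat_lit 10,nat_lit 20,nat_lit 21],[nat_lit 218,nat_lit 246,nat_lit 219,nat_lit 247,nat_lit 11,
    nat_lit 128,nat_lit 154,nat_lit 129,nat_lit 155,nat_lit 106,nat_lit 220,nat_lit 195],[nat_lit 98,nat_lit 107,
    nat_lit 49,nat_lit 58,nat_lit 221,nat_lit 130,nat_lit 50,nat_lit 59,nat_lit 34,nat_lit 42,nat_lit 43,nat_lit 91],
    [nat_lit 22,nat_lit 23,nat_lit 222,nat_lit 248,nat_lit 223,nat_lit 249,nat_lit 12,nat_lit 24,nat_lit 131,
    nat_lit 156,nat_lit 132,nat_lit 99],[nat_lit 108,nat_lit 100,nat_lit 109,nat_lit 250,nat_lit 133,nat_lit 25,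
    nat_lit 51,nat_lit 60,nat_lit 52,nat_lit 61,nat_lit 251,nat_lit 157]]
    [[[nat_lit 218,nat_lit 222],[nat_lit 218,nat_lit 222],[nat_lit 202,nat_lit 203],[nat_lit 202,nat_lit 203],
    [nat_lit 219,nat_lit 223],[],[],[],[nat_lit 204,nat_lit 206,nat_lit 214,nat_lit 220],[nat_lit 210,nat_lit 212],
    [nat_lit 201,nat_lit 208],[nat_lit 201,nat_lit 208]],[[nat_lit 199,nat_lit 215],[nat_lit 43],[nat_lit 37],
    [nat_lit 37],[nat_lit 37],[nat_lit 39],[nat_lit 39],[],[nat_lit 41,nat_lit 42],[nat_lit 41,nat_lit 42],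
    [nat_lit 40],[nat_lit 40]],[[nat_lit 40],[nat_lit 40],[nat_lit 10],[nat_lit 1,nat_lit 3],[nat_lit 1,nat_lit 3],[],
    [nat_lit 4,nat_lit 8,nat_lit 9],[nat_lit 0,nat_lit 2,nat_lit 5,nat_lit 6],[nat_lit 11,nat_lit 12],[],[],
    [nat_lit 59,nat_lit 61]],[[nat_lit 59,nat_lit 61],[nat_lit 56],[],[nat_lit 58,nat_lit 60],[],[],[nat_lit 55],
    [nat_lit 55],[],[],[nat_lit 30],[nat_lit 26,nat_lit 27]],[[],[nat_lit 33,nat_lit 34],[nat_lit 33,nat_lit 34],
    [nat_lit 32],[nat_lit 32],[nat_lit 77],[nat_lit 77],[nat_lit 77],[nat_lit 80,nat_lit 87,nat_lit 88,nat_lit 89,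
    nat_lit 90,nat_lit 91],[nat_lit 82,nat_lit 85],[nat_lit 79],[nat_lit 79]],[[nat_lit 84,nat_lit 86],[nat_lit 84,
    nat_lit 86],[nat_lit 50,nat_lit 52],[],[nat_lit 44,nat_lit 47,nat_lit 48],[nat_lit 45],[nat_lit 45],[],
    [nat_lit 46],[nat_lit 46],[nat_lit 46],[nat_lit 46]],[[nat_lit 46],[nat_lit 46],[nat_lit 49,nat_lit 51],
    [nat_lit 49,nat_lit 51],[],[nat_lit 101],[],[],[nat_lit 102],[nat_lit 102],[],[]],[[],[],[],[nat_lit 103,
    nat_lit 105],[nat_lit 107,nat_lit 109],[],[],[],[nat_lit 67,nat_lit 71],[nat_lit 64],[nat_lit 72],[nat_lit 72]],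
    [[],[],[],[nat_lit 73],[nat_lit 73],[nat_lit 134,nat_lit 135,nat_lit 137,nat_lit 139,nat_lit 147,nat_lit 150],[],
    [nat_lit 138,nat_lit 140,nat_lit 148,nat_lit 152],[nat_lit 138,nat_lit 140,nat_lit 148,nat_lit 152],[nat_lit 155],
    [],[]],[[nat_lit 141,nat_lit 149,nat_lit 153],[nat_lit 141,nat_lit 149,nat_lit 153],[],[],[nat_lit 93],
    [nat_lit 93],[nat_lit 93],[nat_lit 93],[nat_lit 93],[nat_lit 93],[nat_lit 99],[]],[[],[nat_lit 94,nat_lit 96],
    [nat_lit 94,nat_lit 96],[nat_lit 94,nat_lit 96],[nat_lit 98,nat_lit 100],[nat_lit 98,nat_lit 100],[nat_lit 98,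
    nat_lit 100],[nat_lit 98,nat_lit 100],[],[],[],[]],[[],[],[nat_lit 178],[nat_lit 178],[],[],[],[],[],[],[],
    [nat_lit 182,nat_lit 190,nat_lit 192,nat_lit 194]],[[nat_lit 182,nat_lit 190,nat_lit 192,nat_lit 194],
    [nat_lit 184],[nat_lit 184],[],[],[],[nat_lit 181,nat_lit 183,nat_lit 191,nat_lit 193],[nat_lit 181,nat_lit 183,
    nat_lit 191,nat_lit 193],[nat_lit 181,nat_lit 183,nat_lit 191,nat_lit 193],[nat_lit 181,nat_lit 183,nat_lit 191,
    nat_lit 193],[nat_lit 180],[nat_lit 180]],[[nat_lit 186,nat_lit 189],[nat_lit 186,nat_lit 189],[],[nat_lit 118,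
    nat_lit 120],[],[nat_lit 116,nat_lit 117],[],[nat_lit 128,nat_lit 131],[],[nat_lit 111,nat_lit 113,nat_lit 122,
    nat_lit 125],[nat_lit 111,nat_lit 113,nat_lit 122,nat_lit 125],[nat_lit 111,nat_lit 113,nat_lit 122,nat_lit 125]],
    [[nat_lit 111,nat_lit 113,nat_lit 122,nat_lit 125],[nat_lit 129,nat_lit 132],[nat_lit 129,nat_lit 132],
    [nat_lit 129,nat_lit 132],[nat_lit 129,nat_lit 132],[nat_lit 119,nat_lit 130],[nat_lit 119,nat_lit 130],[],[],
    [nat_lit 231,nat_lit 233,nat_lit 243,nat_lit 250],[nat_lit 246,nat_lit 248],[nat_lit 228,nat_lit 229,nat_lit 235,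
    nat_lit 245]],[[nat_lit 225,nat_lit 226],[nat_lit 239,nat_lit 241],[nat_lit 247,nat_lit 249],[nat_lit 247,
    nat_lit 249],[],[],[],[nat_lit 240,nat_lit 242],[nat_lit 240,nat_lit 242],[nat_lit 240,nat_lit 242],[nat_lit 230,
    nat_lit 232],[nat_lit 230,nat_lit 232]],[[nat_lit 237,nat_lit 251],[nat_lit 237,nat_lit 251],[nat_lit 234],
    [nat_lit 234],[nat_lit 160],[nat_lit 160],[nat_lit 160],[nat_lit 160],[nat_lit 158,nat_lit 169],[nat_lit 159],
    [nat_lit 159],[]],[[nat_lit 165,nat_lit 170],[nat_lit 165,nat_lit 170],[nat_lit 161],[nat_lit 161],[],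
    [nat_lit 164,nat_lit 173,nat_lit 175],[nat_lit 164,nat_lit 173,nat_lit 175],[nat_lit 166],[nat_lit 166],
    [nat_lit 167,nat_lit 171],[nat_lit 167,nat_lit 171],[]],[[],[],[nat_lit 162],[nat_lit 162],[nat_lit 162],
    [nat_lit 162],[nat_lit 168,nat_lit 172],[nat_lit 168,nat_lit 172],[nat_lit 20,nat_lit 22],[nat_lit 20,nat_lit 22],
    [nat_lit 13,nat_lit 18],[nat_lit 13,nat_lit 18]],[[],[],[nat_lit 14],[nat_lit 14],[nat_lit 21,nat_lit 23],
    [nat_lit 21,nat_lit 23],[],[],[],[],[],[nat_lit 15]],[[nat_lit 15],[],[],[],[nat_lit 17],[nat_lit 17],[],[],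
    [nat_lit 16],[nat_lit 16],[nat_lit 16],[nat_lit 16]]]
    (nat_lit 252) [nat_lit 0,nat_lit 1,nat_lit 2,nat_lit 3,nat_lit 4,nat_lit 5,nat_lit 6,nat_lit 7,nat_lit 8,
    nat_lit 9,nat_lit 10,nat_lit 11,nat_lit 12,nat_lit 13,nat_lit 14,nat_lit 15,nat_lit 16,nat_lit 17,nat_lit 18,
    nat_lit 19,nat_lit 20,nat_lit 21,nat_lit 22,nat_lit 23,nat_lit 24,nat_lit 25,nat_lit 29,nat_lit 30,nat_lit 31,
    nat_lit 32,nat_lit 37,nat_lit 38,nat_lit 39,nat_lit 40,nat_lit 45,nat_lit 46,nat_lit 49,nat_lit 50,nat_lit 51,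
    nat_lit 52,nat_lit 56,nat_lit 57,nat_lit 58,nat_lit 59,nat_lit 60,nat_lit 61,nat_lit 65,nat_lit 66,nat_lit 67,
    nat_lit 71,nat_lit 72,nat_lit 73,nat_lit 74,nat_lit 75,nat_lit 76,nat_lit 80,nat_lit 81,nat_lit 82,nat_lit 83,
    nat_lit 84,nat_lit 85,nat_lit 86,nat_lit 87,nat_lit 88,nat_lit 94,nat_lit 95,nat_lit 96,nat_lit 97,nat_lit 98,
    nat_lit 99,nat_lit 100,nat_lit 103,nat_lit 104,nat_lit 105,nat_lit 106,nat_lit 107,nat_lit 108,nat_lit 109,
    nat_lit 122,nat_lit 123,nat_lit 125,nat_lit 126,nat_lit 130,nat_lit 148,nat_lit 149,nat_lit 152,nat_lit 153,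
    nat_lit 157]
    [[[],[],[nat_lit 10],[],[],[nat_lit 4,nat_lit 8,nat_lit 9],[],[],[],[],[],[nat_lit 11,nat_lit 12],[nat_lit 7],[],
    [nat_lit 0,nat_lit 2,nat_lit 5,nat_lit 6],[nat_lit 1,nat_lit 3]],[[],[],[nat_lit 20,nat_lit 22],[nat_lit 21,
    nat_lit 23],[],[],[nat_lit 14],[],[],[],[],[nat_lit 19,nat_lit 24,nat_lit 25],[nat_lit 15],[nat_lit 16],
    [nat_lit 17],[nat_lit 13,nat_lit 18]],[[nat_lit 33,nat_lit 34],[],[],[],[],[],[nat_lit 29],[nat_lit 30],[],[],[],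
    [],[nat_lit 31],[nat_lit 32],[nat_lit 26,nat_lit 27],[nat_lit 28]],[[nat_lit 41,nat_lit 42],[nat_lit 43],[],[],[],
    [],[nat_lit 37],[nat_lit 38],[],[],[],[],[nat_lit 39],[nat_lit 40],[nat_lit 35],[nat_lit 36]],[[],[nat_lit 44,
    nat_lit 47,nat_lit 48],[],[],[],[],[],[],[nat_lit 45],[nat_lit 46],[],[],[],[],[nat_lit 49,nat_lit 51],
    [nat_lit 50,nat_lit 52]],[[],[],[],[],[],[],[],[nat_lit 53],[nat_lit 56],[nat_lit 57],[],[],[nat_lit 54],
    [nat_lit 55],[nat_lit 58,nat_lit 60],[nat_lit 59,nat_lit 61]],[[],[],[nat_lit 63],[nat_lit 64],[nat_lit 62],[],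
    [nat_lit 67,nat_lit 71],[],[],[],[nat_lit 65,nat_lit 74],[nat_lit 66,nat_lit 75,nat_lit 76],[nat_lit 72],
    [nat_lit 73],[nat_lit 68],[nat_lit 69,nat_lit 70]],[[nat_lit 79],[],[nat_lit 77],[nat_lit 78],[],[],[],
    [nat_lit 82,nat_lit 85],[],[],[nat_lit 80,nat_lit 87,nat_lit 88,nat_lit 89,nat_lit 90,nat_lit 91],[nat_lit 81],
    [nat_lit 83],[nat_lit 84,nat_lit 86],[],[]],[[],[],[],[],[nat_lit 92],[nat_lit 93],[],[],[],[],[nat_lit 99],
    [nat_lit 98,nat_lit 100],[],[],[nat_lit 94,nat_lit 96],[nat_lit 95,nat_lit 97]],[[],[],[],[],[nat_lit 101],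
    [nat_lit 102],[],[],[],[],[nat_lit 106,nat_lit 108],[nat_lit 107,nat_lit 109],[],[],[nat_lit 103,nat_lit 105],
    [nat_lit 104]],[[nat_lit 115,nat_lit 127,nat_lit 133],[nat_lit 116,nat_lit 117],[],[],[],[],[nat_lit 110],
    [nat_lit 112,nat_lit 121,nat_lit 124],[nat_lit 128,nat_lit 131],[nat_lit 129,nat_lit 132],[],[],[nat_lit 111,
    nat_lit 113,nat_lit 122,nat_lit 125],[nat_lit 114,nat_lit 123,nat_lit 126],[nat_lit 119,nat_lit 130],[nat_lit 118,
    nat_lit 120]],[[],[],[],[],[],[],[nat_lit 134,nat_lit 135,nat_lit 137,nat_lit 139,nat_lit 147,nat_lit 150],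
    [nat_lit 142,nat_lit 151],[nat_lit 154,nat_lit 156],[nat_lit 155],[],[],[nat_lit 138,nat_lit 140,nat_lit 148,
    nat_lit 152],[nat_lit 141,nat_lit 149,nat_lit 153],[nat_lit 136,nat_lit 143,nat_lit 145],[nat_lit 144,nat_lit 146,
    nat_lit 157]],[[nat_lit 162],[],[nat_lit 160],[nat_lit 161],[nat_lit 159],[],[nat_lit 165,nat_lit 170],
    [nat_lit 166],[],[],[nat_lit 164,nat_lit 173,nat_lit 175],[nat_lit 163,nat_lit 174,nat_lit 176],[nat_lit 167,
    nat_lit 171],[nat_lit 168,nat_lit 172],[],[nat_lit 158,nat_lit 169]],[[nat_lit 180],[nat_lit 195],[nat_lit 178],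
    [nat_lit 179],[nat_lit 177],[],[nat_lit 187],[nat_lit 184],[],[],[nat_lit 182,nat_lit 190,nat_lit 192,
    nat_lit 194],[nat_lit 181,nat_lit 183,nat_lit 191,nat_lit 193],[nat_lit 185,nat_lit 188],[nat_lit 186,
    nat_lit 189],[],[]],[[nat_lit 201,nat_lit 208],[nat_lit 202,nat_lit 203],[nat_lit 196],[nat_lit 197],[nat_lit 218,
    nat_lit 222],[nat_lit 219,nat_lit 223],[],[nat_lit 198,nat_lit 200],[nat_lit 216],[nat_lit 213,nat_lit 217],
    [nat_lit 209,nat_lit 211,nat_lit 221],[nat_lit 210,nat_lit 212],[],[nat_lit 199,nat_lit 215],[nat_lit 204,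
    nat_lit 206,nat_lit 214,nat_lit 220],[nat_lit 205,nat_lit 207]],[[nat_lit 234],[nat_lit 228,nat_lit 229,
    nat_lit 235,nat_lit 245],[nat_lit 224],[nat_lit 225,nat_lit 226],[nat_lit 246,nat_lit 248],[nat_lit 247,
    nat_lit 249],[],[nat_lit 227],[nat_lit 239,nat_lit 241],[nat_lit 240,nat_lit 242],[nat_lit 236,nat_lit 238,
    nat_lit 244],[nat_lit 237,nat_lit 251],[],[],[nat_lit 230,nat_lit 232],[nat_lit 231,nat_lit 233,nat_lit 243,
    nat_lit 250]]]
    [[[nat_lit 0x44000000000000000000000000000000000000000000000000000000,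
    nat_lit 0x44000000000000000000000000000000000000000000000000000000,
    nat_lit 0xc00000000000000000000000000000000000000000000000000,
    nat_lit 0xc00000000000000000000000000000000000000000000000000,
    nat_lit 0x88000000000000000000000000000000000000000000000000000000,nat_lit 0,nat_lit 0,nat_lit 0,
    nat_lit 0x10405000000000000000000000000000000000000000000000000000],
    [nat_lit 0x140000000000000000000000000000000000000000000000000000,
    nat_lit 0x10200000000000000000000000000000000000000000000000000,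
    nat_lit 0x10200000000000000000000000000000000000000000000000000,
    nat_lit 0x800080000000000000000000000000000000000000000000000000,nat_lit 0x80000000000,nat_lit 0x2000000000,
    nat_lit 0x2000000000,nat_lit 0x2000000000,nat_lit 0x8000000000],[nat_lit 0x8000000000,nat_lit 0,
    nat_lit 0x60000000000,nat_lit 0x60000000000,nat_lit 0x10000000000,nat_lit 0x10000000000,nat_lit 0x10000000000,
    nat_lit 0x10000000000,nat_lit 0x400],[nat_lit 10,nat_lit 10,nat_lit 0,nat_lit 784,nat_lit 101,nat_lit 0x1800,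
    nat_lit 0,nat_lit 0,nat_lit 0x2800000000000000],[nat_lit 0x2800000000000000,nat_lit 0x100000000000000,nat_lit 0,
    nat_lit 0x1400000000000000,nat_lit 0,nat_lit 0,nat_lit 0x80000000000000,nat_lit 0x80000000000000,nat_lit 0],
    [nat_lit 0,nat_lit 0x40000000,nat_lit 0xc000000,nat_lit 0,nat_lit 0x600000000,nat_lit 0x600000000,
    nat_lit 0x100000000,nat_lit 0x100000000,nat_lit 0x20000000000000000000],[nat_lit 0x20000000000000000000,
    nat_lit 0x20000000000000000000,nat_lit 0xf8100000000000000000000,nat_lit 0x2400000000000000000000,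
    nat_lit 0x80000000000000000000,nat_lit 0x80000000000000000000,nat_lit 0x5000000000000000000000,
    nat_lit 0x5000000000000000000000,nat_lit 0x14000000000000],[nat_lit 0,nat_lit 0x1900000000000,
    nat_lit 0x200000000000,nat_lit 0x200000000000,nat_lit 0,nat_lit 0x400000000000,nat_lit 0x400000000000,
    nat_lit 0x400000000000,nat_lit 0x400000000000],[nat_lit 0x400000000000,nat_lit 0x400000000000,
    nat_lit 0xa000000000000,nat_lit 0xa000000000000,nat_lit 0,nat_lit 0x20000000000000000000000000,nat_lit 0,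
    nat_lit 0,nat_lit 0x40000000000000000000000000]],[[nat_lit 0x40000000000000000000000000,nat_lit 0,nat_lit 0,
    nat_lit 0,nat_lit 0,nat_lit 0,nat_lit 0x280000000000000000000000000,nat_lit 0x2800000000000000000000000000,
    nat_lit 0],[nat_lit 0,nat_lit 0,nat_lit 0x880000000000000000,nat_lit 0x10000000000000000,
    nat_lit 0x1000000000000000000,nat_lit 0x1000000000000000000,nat_lit 0,nat_lit 0,nat_lit 0],
    [nat_lit 0x2000000000000000000,nat_lit 0x2000000000000000000,nat_lit 0x480ac000000000000000000000000000000000,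
    nat_lit 0,nat_lit 0x110140000000000000000000000000000000000,nat_lit 0x110140000000000000000000000000000000000,
    nat_lit 0x800000000000000000000000000000000000000,nat_lit 0,nat_lit 0],
    [nat_lit 0x220200000000000000000000000000000000000,nat_lit 0x220200000000000000000000000000000000000,nat_lit 0,
    nat_lit 0,nat_lit 0x200000000000000000000000,nat_lit 0x200000000000000000000000,
    nat_lit 0x200000000000000000000000,nat_lit 0x200000000000000000000000,nat_lit 0x200000000000000000000000],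
    [nat_lit 0x200000000000000000000000,nat_lit 0x8000000000000000000000000,nat_lit 0,nat_lit 0,
    nat_lit 0x1400000000000000000000000,nat_lit 0x1400000000000000000000000,nat_lit 0x1400000000000000000000000,
    nat_lit 0x14000000000000000000000000,nat_lit 0x14000000000000000000000000],[nat_lit 0x14000000000000000000000000,
    nat_lit 0x14000000000000000000000000,nat_lit 0,nat_lit 0,nat_lit 0,nat_lit 0,nat_lit 0,nat_lit 0,
    nat_lit 0x400000000000000000000000000000000000000000000],[nat_lit 0x400000000000000000000000000000000000000000000,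
    nat_lit 0,nat_lit 0,nat_lit 0,nat_lit 0,nat_lit 0,nat_lit 0,nat_lit 0,
    nat_lit 0x5404000000000000000000000000000000000000000000000],
    [nat_lit 0x5404000000000000000000000000000000000000000000000,
    nat_lit 0x10000000000000000000000000000000000000000000000,
    nat_lit 0x10000000000000000000000000000000000000000000000,nat_lit 0,nat_lit 0,nat_lit 0,
    nat_lit 0x280a000000000000000000000000000000000000000000000,
    nat_lit 0x280a000000000000000000000000000000000000000000000,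
    nat_lit 0x280a000000000000000000000000000000000000000000000],
    [nat_lit 0x280a000000000000000000000000000000000000000000000,
    nat_lit 0x1000000000000000000000000000000000000000000000,nat_lit 0x1000000000000000000000000000000000000000000000,
    nat_lit 0x240000000000000000000000000000000000000000000000,
    nat_lit 0x240000000000000000000000000000000000000000000000,nat_lit 0,nat_lit 0x1400000000000000000000000000000,
    nat_lit 0,nat_lit 0x300000000000000000000000000000]],[[nat_lit 0,nat_lit 0x900000000000000000000000000000000,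
    nat_lit 0,nat_lit 0x24028000000000000000000000000000,nat_lit 0x24028000000000000000000000000000,
    nat_lit 0x24028000000000000000000000000000,nat_lit 0x24028000000000000000000000000000,
    nat_lit 0x1200000000000000000000000000000000,nat_lit 0x1200000000000000000000000000000000],
    [nat_lit 0x1200000000000000000000000000000000,nat_lit 0x1200000000000000000000000000000000,
    nat_lit 0x400800000000000000000000000000000,nat_lit 0x400800000000000000000000000000000,nat_lit 0,nat_lit 0,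
    nat_lit 0x408028000000000000000000000000000000000000000000000000000000000,
    nat_lit 0x140000000000000000000000000000000000000000000000000000000000000,
    nat_lit 0x20083000000000000000000000000000000000000000000000000000000000],
    [nat_lit 0x600000000000000000000000000000000000000000000000000000000,
    nat_lit 0x2800000000000000000000000000000000000000000000000000000000000,
    nat_lit 0x280000000000000000000000000000000000000000000000000000000000000,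
    nat_lit 0x280000000000000000000000000000000000000000000000000000000000000,nat_lit 0,nat_lit 0,nat_lit 0,
    nat_lit 0x5000000000000000000000000000000000000000000000000000000000000,
    nat_lit 0x5000000000000000000000000000000000000000000000000000000000000],
    [nat_lit 0x5000000000000000000000000000000000000000000000000000000000000,
    nat_lit 0x14000000000000000000000000000000000000000000000000000000000,
    nat_lit 0x14000000000000000000000000000000000000000000000000000000000,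
    nat_lit 0x800200000000000000000000000000000000000000000000000000000000000,
    nat_lit 0x800200000000000000000000000000000000000000000000000000000000000,
    nat_lit 0x40000000000000000000000000000000000000000000000000000000000,
    nat_lit 0x40000000000000000000000000000000000000000000000000000000000,
    nat_lit 0x10000000000000000000000000000000000000000,nat_lit 0x10000000000000000000000000000000000000000],
    [nat_lit 0x10000000000000000000000000000000000000000,nat_lit 0x10000000000000000000000000000000000000000,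
    nat_lit 0x2004000000000000000000000000000000000000000,nat_lit 0x8000000000000000000000000000000000000000,
    nat_lit 0x8000000000000000000000000000000000000000,nat_lit 0,
    nat_lit 0x4200000000000000000000000000000000000000000,nat_lit 0x4200000000000000000000000000000000000000000,
    nat_lit 0x20000000000000000000000000000000000000000],[nat_lit 0x20000000000000000000000000000000000000000,
    nat_lit 0,nat_lit 0xa0100000000000000000000000000000000000000000,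
    nat_lit 0xa0100000000000000000000000000000000000000000,nat_lit 0x400000000000000000000000000000000000000000,
    nat_lit 0x400000000000000000000000000000000000000000,nat_lit 0x8800000000000000000000000000000000000000000,
    nat_lit 0x8800000000000000000000000000000000000000000,nat_lit 0],[nat_lit 0,nat_lit 0,
    nat_lit 0x40000000000000000000000000000000000000000,nat_lit 0x40000000000000000000000000000000000000000,
    nat_lit 0x40000000000000000000000000000000000000000,nat_lit 0x40000000000000000000000000000000000000000,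
    nat_lit 0x11000000000000000000000000000000000000000000,nat_lit 0x11000000000000000000000000000000000000000000,
    nat_lit 0x500000],[nat_lit 0x500000,nat_lit 0x42000,nat_lit 0x42000,nat_lit 0,nat_lit 0,nat_lit 0x4000,
    nat_lit 0x4000,nat_lit 0xa00000,nat_lit 0xa00000],[nat_lit 0,nat_lit 0,nat_lit 0,nat_lit 0,nat_lit 0,
    nat_lit 0x8000,nat_lit 0x8000,nat_lit 0,nat_lit 0]],[[nat_lit 0,nat_lit 0x20000,nat_lit 0x20000,nat_lit 0,
    nat_lit 0,nat_lit 0x10000,nat_lit 0x10000,nat_lit 0x10000,nat_lit 0x10000]]]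
    [[[[nat_lit 0,nat_lit 0,nat_lit 0,nat_lit 0x800000000000000000000000000000000000000000000000000,nat_lit 0,
    nat_lit 0,nat_lit 0,nat_lit 0,nat_lit 0],[nat_lit 0,nat_lit 0,nat_lit 0,nat_lit 0,nat_lit 0,nat_lit 0,
    nat_lit 0x2000000000,nat_lit 0,nat_lit 0],[nat_lit 0,nat_lit 0,nat_lit 0,nat_lit 0,nat_lit 0,nat_lit 0,nat_lit 0,
    nat_lit 0,nat_lit 0],[nat_lit 0,nat_lit 0,nat_lit 0,nat_lit 512,nat_lit 0,nat_lit 0,nat_lit 0,nat_lit 0,
    nat_lit 0x800000000000000],[nat_lit 0,nat_lit 0x100000000000000,nat_lit 0,nat_lit 0,nat_lit 0,nat_lit 0,nat_lit 0,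
    nat_lit 0,nat_lit 0],[nat_lit 0,nat_lit 0x40000000,nat_lit 0,nat_lit 0,nat_lit 0,nat_lit 0x400000000,nat_lit 0,
    nat_lit 0,nat_lit 0x20000000000000000000],[nat_lit 0x20000000000000000000,nat_lit 0x20000000000000000000,
    nat_lit 0x8000000000000000000000,nat_lit 0,nat_lit 0,nat_lit 0x80000000000000000000,nat_lit 0,
    nat_lit 0x4000000000000000000000,nat_lit 0x4000000000000],[nat_lit 0,nat_lit 0x1900000000000,nat_lit 0,nat_lit 0,
    nat_lit 0,nat_lit 0,nat_lit 0,nat_lit 0,nat_lit 0],[nat_lit 0,nat_lit 0x400000000000,nat_lit 0x2000000000000,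
    nat_lit 0,nat_lit 0,nat_lit 0x20000000000000000000000000,nat_lit 0,nat_lit 0,nat_lit 0]],[[nat_lit 0,nat_lit 0,
    nat_lit 0,nat_lit 0,nat_lit 0,nat_lit 0,nat_lit 0x200000000000000000000000000,nat_lit 0,nat_lit 0],[nat_lit 0,
    nat_lit 0,nat_lit 0,nat_lit 0x10000000000000000,nat_lit 0,nat_lit 0,nat_lit 0,nat_lit 0,nat_lit 0],
    [nat_lit 0x2000000000000000000,nat_lit 0,nat_lit 0x48000000000000000000000000000000000000,nat_lit 0,nat_lit 0,
    nat_lit 0,nat_lit 0,nat_lit 0,nat_lit 0],[nat_lit 0,nat_lit 0,nat_lit 0,nat_lit 0,nat_lit 0,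
    nat_lit 0x200000000000000000000000,nat_lit 0x200000000000000000000000,nat_lit 0,nat_lit 0],[nat_lit 0,nat_lit 0,
    nat_lit 0,nat_lit 0,nat_lit 0,nat_lit 0,nat_lit 0,nat_lit 0,nat_lit 0],[nat_lit 0,nat_lit 0,nat_lit 0,nat_lit 0,
    nat_lit 0,nat_lit 0,nat_lit 0,nat_lit 0,nat_lit 0],[nat_lit 0,nat_lit 0,nat_lit 0,nat_lit 0,nat_lit 0,nat_lit 0,
    nat_lit 0,nat_lit 0,nat_lit 0],[nat_lit 0x400000000000000000000000000000000000000000000000,nat_lit 0,
    nat_lit 0x10000000000000000000000000000000000000000000000,nat_lit 0,nat_lit 0,nat_lit 0,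
    nat_lit 0x2800000000000000000000000000000000000000000000000,
    nat_lit 0x2800000000000000000000000000000000000000000000000,
    nat_lit 0x2802000000000000000000000000000000000000000000000],
    [nat_lit 0x2800000000000000000000000000000000000000000000000,nat_lit 0,
    nat_lit 0x1000000000000000000000000000000000000000000000,nat_lit 0,
    nat_lit 0x200000000000000000000000000000000000000000000000,nat_lit 0,nat_lit 0x400000000000000000000000000000,
    nat_lit 0,nat_lit 0]],[[nat_lit 0,nat_lit 0x100000000000000000000000000000000,nat_lit 0,nat_lit 0,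
    nat_lit 0x20000000000000000000000000000000,nat_lit 0x24028000000000000000000000000000,
    nat_lit 0x24028000000000000000000000000000,nat_lit 0,nat_lit 0],[nat_lit 0,
    nat_lit 0x200000000000000000000000000000000,nat_lit 0x400000000000000000000000000000000,nat_lit 0,nat_lit 0,
    nat_lit 0,nat_lit 0x400020000000000000000000000000000000000000000000000000000000000,nat_lit 0,nat_lit 0],
    [nat_lit 0x200000000000000000000000000000000000000000000000000000000,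
    nat_lit 0x2000000000000000000000000000000000000000000000000000000000000,nat_lit 0,nat_lit 0,nat_lit 0,nat_lit 0,
    nat_lit 0,nat_lit 0,nat_lit 0],[nat_lit 0x4000000000000000000000000000000000000000000000000000000000000,
    nat_lit 0x14000000000000000000000000000000000000000000000000000000000,nat_lit 0,nat_lit 0,nat_lit 0,nat_lit 0,
    nat_lit 0,nat_lit 0,nat_lit 0],[nat_lit 0,nat_lit 0,nat_lit 0,nat_lit 0,
    nat_lit 0x8000000000000000000000000000000000000000,nat_lit 0,nat_lit 0,nat_lit 0,nat_lit 0],[nat_lit 0,nat_lit 0,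
    nat_lit 0x20000000000000000000000000000000000000000000,nat_lit 0,
    nat_lit 0x400000000000000000000000000000000000000000,nat_lit 0,nat_lit 0,nat_lit 0,nat_lit 0],[nat_lit 0,
    nat_lit 0,nat_lit 0x40000000000000000000000000000000000000000,nat_lit 0,
    nat_lit 0x40000000000000000000000000000000000000000,nat_lit 0,
    nat_lit 0x10000000000000000000000000000000000000000000,nat_lit 0x10000000000000000000000000000000000000000000,
    nat_lit 0x100000],[nat_lit 0,nat_lit 0,nat_lit 0,nat_lit 0,nat_lit 0,nat_lit 0,nat_lit 0,nat_lit 0,nat_lit 0],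
    [nat_lit 0,nat_lit 0,nat_lit 0,nat_lit 0,nat_lit 0,nat_lit 0,nat_lit 0,nat_lit 0,nat_lit 0]],[[nat_lit 0,
    nat_lit 0,nat_lit 0,nat_lit 0,nat_lit 0,nat_lit 0,nat_lit 0,nat_lit 0,nat_lit 0]]]]
    (nat_lit 1) (nat_lit 4) (nat_lit 36)
    [[nat_lit 2,nat_lit 3,nat_lit 258,nat_lit 0x1002,nat_lit 0x10002,nat_lit 0x100002,nat_lit 0x1000002,
    nat_lit 0x10000002,nat_lit 17,nat_lit 0x100011,nat_lit 257,nat_lit 0x10000101,nat_lit 0x1001,nat_lit 0x101001,
    nat_lit 0x10001001,nat_lit 0x11001,nat_lit 0x20001001,nat_lit 0x10001,nat_lit 0x10010001,nat_lit 0x1010001,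
    nat_lit 0x100001,nat_lit 0x10100001,nat_lit 0x1000001,nat_lit 0x1100001,nat_lit 0x11000001,nat_lit 0x10000001,
    nat_lit 0x20010001,nat_lit 0x20000001],[nat_lit 32,nat_lit 272,nat_lit 0x10010,nat_lit 0x110010,
    nat_lit 0x10010010,nat_lit 0x100010,nat_lit 0x10000010,nat_lit 0x10100010,nat_lit 0x20000010],[nat_lit 512,
    nat_lit 0x1100,nat_lit 0x100100,nat_lit 0x1000100,nat_lit 0x10000100,nat_lit 0x11000100,nat_lit 0x10001100,
    nat_lit 0x10010100],[nat_lit 0x2000,nat_lit 0x10002000,nat_lit 0x11000,nat_lit 0x21000,nat_lit 0x10011000,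
    nat_lit 0x1011000,nat_lit 0x101000,nat_lit 0x111000,nat_lit 0x10101000,nat_lit 0x1001000,nat_lit 0x11001000,
    nat_lit 0x10001000,nat_lit 0x20001000],[nat_lit 0x20000,nat_lit 0x30000,nat_lit 0x1020000,nat_lit 0x10020000,
    nat_lit 0x20020000,nat_lit 0x110000,nat_lit 0x1110000,nat_lit 0x1010000,nat_lit 0x2010000,nat_lit 0x11010000,
    nat_lit 0x10010000,nat_lit 0x20010000,nat_lit 0x30010000],[nat_lit 0x200000,nat_lit 0x1100000,nat_lit 0x11100000,
    nat_lit 0x10100000,nat_lit 0x20100000],[nat_lit 0x2000000,nat_lit 0x3000000,nat_lit 0x12000000,nat_lit 0x11000000,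
    nat_lit 0x21000000],[nat_lit 0x20000000,nat_lit 0x30000000]]
    [.c (nat_lit 1) (nat_lit 2),.c (nat_lit 0) (nat_lit 0x2000605),.c (nat_lit 0) (nat_lit 0x2403),
    .c (nat_lit 0) (nat_lit 0x60a00c0d),.c (nat_lit 2) (nat_lit 0x2020203),.c (nat_lit 0) (nat_lit 0x200603),
    .c (nat_lit 0) (nat_lit 0x773dd6cd),.c (nat_lit 8) (nat_lit 770),.c (nat_lit 0) (nat_lit 0x2000605),
    .c (nat_lit 3) (nat_lit 0x3508304),.c (nat_lit 0) (nat_lit 0x2403),.c (nat_lit 0) (nat_lit 0x2203),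
    .c (nat_lit 8) (nat_lit 0x30000304),.c (nat_lit 0) (nat_lit 0x20400605),.c (nat_lit 2) (nat_lit 0x24000205),
    .c (nat_lit 3) (nat_lit 0x20048205),.c (nat_lit 3) (nat_lit 0x20008205),.c (nat_lit 0) (nat_lit 0xac060d),
    .r (nat_lit 0xdbb) (nat_lit 5) [nat_lit 0x20442052,nat_lit 0x335555442],.c (nat_lit 3) (nat_lit 0x33504045),
    .c (nat_lit 0) (nat_lit 0x200603),.c (nat_lit 0) (nat_lit 0x200403),.c (nat_lit 8) (nat_lit 0x22444054),
    .c (nat_lit 0) (nat_lit 0x33055445),.c (nat_lit 2) (nat_lit 0x32555045),.c (nat_lit 0) (nat_lit 0x2000205),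
    .r (nat_lit 0x151b) (nat_lit 3) [nat_lit 0x600503042,nat_lit 0x220001,nat_lit 0x24402052],
    .c (nat_lit 0) (nat_lit 0xa0060d),.c (nat_lit 2) (nat_lit 2),.r (nat_lit 0xdbb) (nat_lit 5) [nat_lit 33,
    nat_lit 0x305003452],.c (nat_lit 0) (nat_lit 0x5070006),.c (nat_lit 0) (nat_lit 0x73d000c),
    .c (nat_lit 0) (nat_lit 0x3030002),.r (nat_lit 0x151b) (nat_lit 3) [nat_lit 0x624000052,nat_lit 0x220001,
    nat_lit 33],.c (nat_lit 0) (nat_lit 0x2000007),.r (nat_lit 0xdbb) (nat_lit 5) [nat_lit 0x3020021,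
    nat_lit 0x300053452],.c (nat_lit 0) (nat_lit 0x5000006),.c (nat_lit 3) (nat_lit 2),
    .c (nat_lit 0) (nat_lit 0x40006009),.r (nat_lit 0x165b) (nat_lit 1) [nat_lit 0x220031,nat_lit 33],
    .c (nat_lit 0) (nat_lit 0x55993589),.c (nat_lit 0) (nat_lit 0x2005),.c (nat_lit 0) (nat_lit 0x44883498),
    .c (nat_lit 0) (nat_lit 0x5000b008),.c (nat_lit 0) (nat_lit 0x57004),.c (nat_lit 4) (nat_lit 2),
    .c (nat_lit 3) (nat_lit 0x20004003),.r (nat_lit 0xdbb) (nat_lit 5) [nat_lit 0x220440052,nat_lit 0x535553442],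
    .r (nat_lit 0x9a7) (nat_lit 8) [nat_lit 0x208802051,nat_lit 0x880001,nat_lit 0x600903042,nat_lit 0x280802052,
    nat_lit 0x300906042],.r (nat_lit 0x151b) (nat_lit 3) [nat_lit 0x200300021,nat_lit 0x220001,nat_lit 0x224400052],
    .r (nat_lit 0x165b) (nat_lit 1) [nat_lit 0x20442542,nat_lit 0x30003452],.c (nat_lit 0) (nat_lit 0x20200003),
    .c (nat_lit 0) (nat_lit 0x30770006),.c (nat_lit 0) (nat_lit 0x40600007),.c (nat_lit 2) (nat_lit 0x2555345),
    .c (nat_lit 3) (nat_lit 0x3554345),.c (nat_lit 0) (nat_lit 0x60a0000d),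
    .r (nat_lit 0xdbb) (nat_lit 5) [nat_lit 0x220040052,nat_lit 0x535053442],.c (nat_lit 5) (nat_lit 2),
    .c (nat_lit 6) (nat_lit 0x460003),.r (nat_lit 0x9a7) (nat_lit 8) [nat_lit 0x334450451,nat_lit 0x880001,
    nat_lit 0xa24540542,nat_lit 0x365450452,nat_lit 0x224548542],.r (nat_lit 0x165b) (nat_lit 1) [nat_lit 0x3300021,
    nat_lit 0x2420031],.c (nat_lit 6) (nat_lit 0x440003),.c (nat_lit 0) (nat_lit 0x460005),
    .c (nat_lit 0) (nat_lit 0x44028498),.r (nat_lit 0xdbb) (nat_lit 5) [nat_lit 0x305003452,nat_lit 33],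
    .r (nat_lit 0x165b) (nat_lit 1) [nat_lit 0x222442521,nat_lit 0x333333431],
    .r (nat_lit 0x151b) (nat_lit 3) [nat_lit 0x824042542,nat_lit 0x220001,nat_lit 0x300053452],
    .c (nat_lit 2) (nat_lit 0x2020003),.c (nat_lit 3) (nat_lit 0x24003),
    .r (nat_lit 0x165b) (nat_lit 1) [nat_lit 0x3000021,nat_lit 0x2220031],.c (nat_lit 6) (nat_lit 2),
    .c (nat_lit 0) (nat_lit 0x33355345),.c (nat_lit 0) (nat_lit 0x773dd7cd),.c (nat_lit 0) (nat_lit 0x200007),
    .c (nat_lit 0) (nat_lit 0x400007),.c (nat_lit 7) (nat_lit 2),.r (nat_lit 0x151b) (nat_lit 3) [nat_lit 0xc6ccc6d42,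
    nat_lit 0x220001,nat_lit 0x759dd7c52],.c (nat_lit 3) (nat_lit 0x33550343),.c (nat_lit 0) (nat_lit 0x773dd7cd),
    .r (nat_lit 0xdbb) (nat_lit 5) [nat_lit 0x305503452,nat_lit 0x200021],.c (nat_lit 8) (nat_lit 2),
    .c (nat_lit 2) (nat_lit 0x2000003)]]

/-- nodes -/
noncomputable def rD8k_36_22 : List RJ :=
  [.s (nat_lit 13) (nat_lit 0x780) (nat_lit 4) (nat_lit 0x395000003950000037700000377000003c5000003c50000034700000347000003b3000003b3000003c3000003c3000004b3000004b3000003a7000003a7) (nat_lit 0x11e0000011e0000013c0000013c000000ee000000ee0000016c0000016c0000010000000100000000f0000000f000000000000000000000010c0000010c)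
    (nat_lit 0x16b89dc4b22591238a9c4ca26514a88d44da2a51dc8e545122e915f8b5c4b22591538a9c45220513e8a5454a2a51ec8ed451228912c89644761f31568a2441620b13b89dc4ce29f1bb8ddc41622712c896447623b1448a2441620b0f989dc58e2c31bb887c4d626b1538a9c51228916b8b5c4b22591448b1485a3591e28e145722b9153891c5122ad16b8b5c4b22591628ba482a34117a8f144fa27d102899441620b12c896436e1db0ed891c4ae2571c1881c53630b114899441620b12c89643b61b716b891c4ae1c71d38d1c5362fb14a88d44ee2771748b1448e2471a18acc5862331798ecc4d624713e8a543e62771628a245ae1db16b8d0c4562c31d98ecc54e2a71528a9458629f1a08d6438e25716188cc5a62af1e1916c56e2b715289b458e26720a90b44ae2571158b0c5a62d31958f0c56e3031da8e5443e3771e28e1468e2071d98ecc78645b23392cc7be43f1ec8ee46ee37717a8f1474e3831d98bcc6563c3259919c68e3a71448ba44d622713e8ae45f630b153891c6062b71d390fc4ee29b1448a244d620b13e8ae453629b15389ac56e2b71a38f7c536277)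
    (nat_lit 0x16b9e00f007803c01e00f007803c01e00f007803c01e00f0078013b8b5cf007803c01e00f007803c01e00f007803c01e00f0078012c89644767803c01e00f007803c01e00f007803c01e00f0078012c89643e623b3c01e00f007803c01e00f007803c01e00f007801238a9c55a28916b9e00f007803c01e00f007803c01e00f007801538a9c51228916b8b5cf007803c01e00f007803c01e00f0078013288a441620b12c896436e7803c01e00f007803c01e00f00780132881441620b12c89643b61b73c01e00f007803c01e00f0078014a89f44ee1f31448b143b62d71a19e00f007803c01e00f0078011a8a544ee2771628ba448e2471598d0cf007803c01e00f007801368a944ce2c721690544ae25716188ac5a67803c01e00f007801528a9453e2c31ac8d044ae1c71198b0c55e2d33c01e00f007801dc8f646ee3771e28bd47063a71798ecc78632b2339e00f007801ca8ed46ee21f1c28f1440e3471d98ecc79c3c3259919cf007801448a2441626b15c89f453629b1358a9c56e2b71ef8d1c4ee7801748a2444e26b15c89f46162fb1238a9c56e30321f8e9c536277)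
    (nat_lit 6) (nat_lit 49)
    [[nat_lit 0,nat_lit 0,nat_lit 7],[nat_lit 0,nat_lit 4,nat_lit 8],[nat_lit 0,nat_lit 5,nat_lit 8],[nat_lit 0,
    nat_lit 7,nat_lit 0],[nat_lit 0,nat_lit 8,nat_lit 4],[nat_lit 0,nat_lit 8,nat_lit 5],[nat_lit 1,nat_lit 1,
    nat_lit 6],[nat_lit 1,nat_lit 4,nat_lit 9],[nat_lit 1,nat_lit 5,nat_lit 9],[nat_lit 1,nat_lit 6,nat_lit 1],
    [nat_lit 1,nat_lit 9,nat_lit 4],[nat_lit 1,nat_lit 9,nat_lit 5],[nat_lit 2,nat_lit 8,nat_lit 8],[nat_lit 2,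
    nat_lit 8,nat_lit 9],[nat_lit 2,nat_lit 9,nat_lit 8],[nat_lit 2,nat_lit 9,nat_lit 9],[nat_lit 2,nat_lit 14],
    [nat_lit 2,nat_lit 15],[nat_lit 3,nat_lit 8,nat_lit 8],[nat_lit 3,nat_lit 8,nat_lit 9],[nat_lit 3,nat_lit 9,
    nat_lit 8],[nat_lit 3,nat_lit 9,nat_lit 9],[nat_lit 3,nat_lit 14],[nat_lit 3,nat_lit 15],[nat_lit 4,nat_lit 10],
    [nat_lit 4,nat_lit 11],[nat_lit 4,nat_lit 12,nat_lit 8,nat_lit 8],[nat_lit 4,nat_lit 12,nat_lit 9,nat_lit 9],
    [nat_lit 4,nat_lit 12,nat_lit 14],[nat_lit 4,nat_lit 12,nat_lit 15],[nat_lit 4,nat_lit 14,nat_lit 13],[nat_lit 4,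
    nat_lit 15,nat_lit 12],[nat_lit 4,nat_lit 15,nat_lit 13],[nat_lit 5,nat_lit 8,nat_lit 8,nat_lit 13],[nat_lit 5,
    nat_lit 9,nat_lit 9,nat_lit 13],[nat_lit 5,nat_lit 10],[nat_lit 5,nat_lit 11],[nat_lit 5,nat_lit 12,nat_lit 14],
    [nat_lit 5,nat_lit 12,nat_lit 15],[nat_lit 5,nat_lit 13,nat_lit 14],[nat_lit 5,nat_lit 14,nat_lit 13],[nat_lit 5,
    nat_lit 15,nat_lit 13],[nat_lit 6,nat_lit 6,nat_lit 8],[nat_lit 6,nat_lit 6,nat_lit 9],[nat_lit 6,nat_lit 7,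
    nat_lit 8],[nat_lit 6,nat_lit 7,nat_lit 9],[nat_lit 6,nat_lit 8,nat_lit 6],[nat_lit 6,nat_lit 8,nat_lit 7],
    [nat_lit 6,nat_lit 9,nat_lit 6],[nat_lit 6,nat_lit 9,nat_lit 7],[nat_lit 6,nat_lit 10,nat_lit 12],[nat_lit 6,
    nat_lit 11,nat_lit 13],[nat_lit 6,nat_lit 12,nat_lit 10],[nat_lit 6,nat_lit 12,nat_lit 11],[nat_lit 6,nat_lit 13,
    nat_lit 10],[nat_lit 6,nat_lit 13,nat_lit 11],[nat_lit 7,nat_lit 7,nat_lit 8],[nat_lit 7,nat_lit 7,nat_lit 9],
    [nat_lit 7,nat_lit 8,nat_lit 7],[nat_lit 7,nat_lit 9,nat_lit 7],[nat_lit 7,nat_lit 10,nat_lit 12],[nat_lit 7,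
    nat_lit 10,nat_lit 13],[nat_lit 7,nat_lit 11,nat_lit 12],[nat_lit 7,nat_lit 11,nat_lit 13],[nat_lit 7,nat_lit 12,
    nat_lit 10],[nat_lit 7,nat_lit 13,nat_lit 11]]
    [nat_lit 0x1007,nat_lit 0x1048,nat_lit 0x1058,nat_lit 0x1070,nat_lit 0x1084,nat_lit 0x1085,nat_lit 0x1116,
    nat_lit 0x1149,nat_lit 0x1159,nat_lit 0x1161,nat_lit 0x1194,nat_lit 0x1195,nat_lit 0x1288,nat_lit 0x1289,
    nat_lit 0x1298,nat_lit 0x1299,nat_lit 302,nat_lit 303,nat_lit 0x1388,nat_lit 0x1389,nat_lit 0x1398,nat_lit 0x1399,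
    nat_lit 318,nat_lit 319,nat_lit 330,nat_lit 331,nat_lit 0x14c88,nat_lit 0x14c99,nat_lit 0x14ce,nat_lit 0x14cf,
    nat_lit 0x14ed,nat_lit 0x14fc,nat_lit 0x14fd,nat_lit 0x1588d,nat_lit 0x1599d,nat_lit 346,nat_lit 347,
    nat_lit 0x15ce,nat_lit 0x15cf,nat_lit 0x15de,nat_lit 0x15ed,nat_lit 0x15fd,nat_lit 0x1668,nat_lit 0x1669,
    nat_lit 0x1678,nat_lit 0x1679,nat_lit 0x1686,nat_lit 0x1687,nat_lit 0x1696,nat_lit 0x1697,nat_lit 0x16ac,
    nat_lit 0x16bd,nat_lit 0x16ca,nat_lit 0x16cb,nat_lit 0x16da,nat_lit 0x16db,nat_lit 0x1778,nat_lit 0x1779,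
    nat_lit 0x1787,nat_lit 0x1797,nat_lit 0x17ac,nat_lit 0x17ad,nat_lit 0x17bc,nat_lit 0x17bd,nat_lit 0x17ca,
    nat_lit 0x17db]
    [[[nat_lit 0,nat_lit 0,nat_lit 7],[nat_lit 0,nat_lit 4,nat_lit 8],[nat_lit 0,nat_lit 5,nat_lit 8],[nat_lit 0,
    nat_lit 7,nat_lit 0],[nat_lit 0,nat_lit 8,nat_lit 4],[nat_lit 0,nat_lit 8,nat_lit 5],[nat_lit 1,nat_lit 1,
    nat_lit 6],[nat_lit 1,nat_lit 4,nat_lit 9],[nat_lit 1,nat_lit 5,nat_lit 9],[nat_lit 1,nat_lit 6,nat_lit 1],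
    [nat_lit 1,nat_lit 9,nat_lit 4],[nat_lit 1,nat_lit 9,nat_lit 5]],[[nat_lit 2,nat_lit 8,nat_lit 8],[nat_lit 2,
    nat_lit 8,nat_lit 9],[nat_lit 2,nat_lit 9,nat_lit 8],[nat_lit 2,nat_lit 9,nat_lit 9],[nat_lit 2,nat_lit 14],
    [nat_lit 2,nat_lit 15],[nat_lit 3,nat_lit 8,nat_lit 8],[nat_lit 3,nat_lit 8,nat_lit 9],[nat_lit 3,nat_lit 9,
    nat_lit 8],[nat_lit 3,nat_lit 9,nat_lit 9],[nat_lit 3,nat_lit 14],[nat_lit 3,nat_lit 15]],[[nat_lit 4,nat_lit 0,
    nat_lit 8],[nat_lit 4,nat_lit 1,nat_lit 9],[nat_lit 4,nat_lit 8,nat_lit 0],[nat_lit 4,nat_lit 9,nat_lit 1],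
    [nat_lit 4,nat_lit 10],[nat_lit 4,nat_lit 11],[nat_lit 4,nat_lit 12,nat_lit 8,nat_lit 8],[nat_lit 4,nat_lit 12,
    nat_lit 9,nat_lit 9],[nat_lit 4,nat_lit 12,nat_lit 14],[nat_lit 4,nat_lit 12,nat_lit 15],[nat_lit 4,nat_lit 14,
    nat_lit 13],[nat_lit 4,nat_lit 15,nat_lit 12]],[[nat_lit 4,nat_lit 15,nat_lit 13],[nat_lit 5,nat_lit 0,nat_lit 8],
    [nat_lit 5,nat_lit 1,nat_lit 9],[nat_lit 5,nat_lit 8,nat_lit 0],[nat_lit 5,nat_lit 8,nat_lit 8,nat_lit 13],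
    [nat_lit 5,nat_lit 9,nat_lit 1],[nat_lit 5,nat_lit 9,nat_lit 9,nat_lit 13],[nat_lit 5,nat_lit 10],[nat_lit 5,
    nat_lit 11],[nat_lit 5,nat_lit 12,nat_lit 14],[nat_lit 5,nat_lit 12,nat_lit 15],[nat_lit 5,nat_lit 13,
    nat_lit 14]],[[nat_lit 5,nat_lit 14,nat_lit 13],[nat_lit 5,nat_lit 15,nat_lit 13],[nat_lit 6,nat_lit 1,nat_lit 1],
    [nat_lit 6,nat_lit 6,nat_lit 8],[nat_lit 6,nat_lit 6,nat_lit 9],[nat_lit 6,nat_lit 7,nat_lit 8],[nat_lit 6,
    nat_lit 7,nat_lit 9],[nat_lit 6,nat_lit 8,nat_lit 6],[nat_lit 6,nat_lit 8,nat_lit 7],[nat_lit 6,nat_lit 9,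
    nat_lit 6],[nat_lit 6,nat_lit 9,nat_lit 7],[nat_lit 6,nat_lit 10,nat_lit 12]],[[nat_lit 6,nat_lit 11,nat_lit 13],
    [nat_lit 6,nat_lit 12,nat_lit 10],[nat_lit 6,nat_lit 12,nat_lit 11],[nat_lit 6,nat_lit 13,nat_lit 10],[nat_lit 6,
    nat_lit 13,nat_lit 11],[nat_lit 7,nat_lit 0,nat_lit 0],[nat_lit 7,nat_lit 6,nat_lit 8],[nat_lit 7,nat_lit 6,
    nat_lit 9],[nat_lit 7,nat_lit 7,nat_lit 8],[nat_lit 7,nat_lit 7,nat_lit 9],[nat_lit 7,nat_lit 8,nat_lit 6],
    [nat_lit 7,nat_lit 8,nat_lit 7]],[[nat_lit 7,nat_lit 9,nat_lit 6],[nat_lit 7,nat_lit 9,nat_lit 7],[nat_lit 7,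
    nat_lit 10,nat_lit 12],[nat_lit 7,nat_lit 10,nat_lit 13],[nat_lit 7,nat_lit 11,nat_lit 12],[nat_lit 7,nat_lit 11,
    nat_lit 13],[nat_lit 7,nat_lit 12,nat_lit 10],[nat_lit 7,nat_lit 13,nat_lit 11],[nat_lit 8,nat_lit 0,nat_lit 4],
    [nat_lit 8,nat_lit 0,nat_lit 5],[nat_lit 8,nat_lit 2,nat_lit 8],[nat_lit 8,nat_lit 2,nat_lit 9]],[[nat_lit 8,
    nat_lit 3,nat_lit 8],[nat_lit 8,nat_lit 3,nat_lit 9],[nat_lit 8,nat_lit 4,nat_lit 0],[nat_lit 8,nat_lit 4,
    nat_lit 12,nat_lit 8],[nat_lit 8,nat_lit 5,nat_lit 0],[nat_lit 8,nat_lit 6,nat_lit 6],[nat_lit 8,nat_lit 6,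
    nat_lit 7],[nat_lit 8,nat_lit 7,nat_lit 6],[nat_lit 8,nat_lit 7,nat_lit 7],[nat_lit 8,nat_lit 8,nat_lit 2],
    [nat_lit 8,nat_lit 8,nat_lit 3],[nat_lit 8,nat_lit 8,nat_lit 4,nat_lit 12]],[[nat_lit 8,nat_lit 8,nat_lit 13,
    nat_lit 5],[nat_lit 8,nat_lit 9,nat_lit 2],[nat_lit 8,nat_lit 9,nat_lit 3],[nat_lit 8,nat_lit 13,nat_lit 5,
    nat_lit 8],[nat_lit 9,nat_lit 1,nat_lit 4],[nat_lit 9,nat_lit 1,nat_lit 5],[nat_lit 9,nat_lit 2,nat_lit 8],
    [nat_lit 9,nat_lit 2,nat_lit 9],[nat_lit 9,nat_lit 3,nat_lit 8],[nat_lit 9,nat_lit 3,nat_lit 9],[nat_lit 9,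
    nat_lit 4,nat_lit 1],[nat_lit 9,nat_lit 4,nat_lit 12,nat_lit 9]],[[nat_lit 9,nat_lit 5,nat_lit 1],[nat_lit 9,
    nat_lit 6,nat_lit 6],[nat_lit 9,nat_lit 6,nat_lit 7],[nat_lit 9,nat_lit 7,nat_lit 6],[nat_lit 9,nat_lit 7,
    nat_lit 7],[nat_lit 9,nat_lit 8,nat_lit 2],[nat_lit 9,nat_lit 8,nat_lit 3],[nat_lit 9,nat_lit 9,nat_lit 2],
    [nat_lit 9,nat_lit 9,nat_lit 3],[nat_lit 9,nat_lit 9,nat_lit 4,nat_lit 12],[nat_lit 9,nat_lit 9,nat_lit 13,
    nat_lit 5],[nat_lit 9,nat_lit 13,nat_lit 5,nat_lit 9]],[[nat_lit 10,nat_lit 4],[nat_lit 10,nat_lit 5],[nat_lit 10,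
    nat_lit 6,nat_lit 12],[nat_lit 10,nat_lit 6,nat_lit 13],[nat_lit 10,nat_lit 7,nat_lit 12],[nat_lit 10,nat_lit 12,
    nat_lit 6],[nat_lit 10,nat_lit 12,nat_lit 7],[nat_lit 10,nat_lit 13,nat_lit 7],[nat_lit 11,nat_lit 4],[nat_lit 11,
    nat_lit 5],[nat_lit 11,nat_lit 6,nat_lit 12],[nat_lit 11,nat_lit 6,nat_lit 13]],[[nat_lit 11,nat_lit 7,
    nat_lit 13],[nat_lit 11,nat_lit 12,nat_lit 7],[nat_lit 11,nat_lit 13,nat_lit 6],[nat_lit 11,nat_lit 13,nat_lit 7],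
    [nat_lit 12,nat_lit 4,nat_lit 15],[nat_lit 12,nat_lit 6,nat_lit 10],[nat_lit 12,nat_lit 7,nat_lit 10],[nat_lit 12,
    nat_lit 7,nat_lit 11],[nat_lit 12,nat_lit 8,nat_lit 8,nat_lit 4],[nat_lit 12,nat_lit 9,nat_lit 9,nat_lit 4],
    [nat_lit 12,nat_lit 10,nat_lit 6],[nat_lit 12,nat_lit 10,nat_lit 7]],[[nat_lit 12,nat_lit 11,nat_lit 6],
    [nat_lit 12,nat_lit 14,nat_lit 4],[nat_lit 12,nat_lit 14,nat_lit 5],[nat_lit 12,nat_lit 15,nat_lit 4],[nat_lit 12,
    nat_lit 15,nat_lit 5],[nat_lit 13,nat_lit 4,nat_lit 14],[nat_lit 13,nat_lit 4,nat_lit 15],[nat_lit 13,nat_lit 5,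
    nat_lit 8,nat_lit 8],[nat_lit 13,nat_lit 5,nat_lit 9,nat_lit 9],[nat_lit 13,nat_lit 5,nat_lit 14],[nat_lit 13,
    nat_lit 5,nat_lit 15],[nat_lit 13,nat_lit 6,nat_lit 11]],[[nat_lit 13,nat_lit 7,nat_lit 10],[nat_lit 13,nat_lit 7,
    nat_lit 11],[nat_lit 13,nat_lit 10,nat_lit 6],[nat_lit 13,nat_lit 11,nat_lit 6],[nat_lit 13,nat_lit 11,nat_lit 7],
    [nat_lit 13,nat_lit 14,nat_lit 5],[nat_lit 14,nat_lit 2],[nat_lit 14,nat_lit 3],[nat_lit 14,nat_lit 4,nat_lit 12],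
    [nat_lit 14,nat_lit 5,nat_lit 12],[nat_lit 14,nat_lit 5,nat_lit 13],[nat_lit 14,nat_lit 13,nat_lit 4]],
    [[nat_lit 14,nat_lit 13,nat_lit 5],[nat_lit 15,nat_lit 2],[nat_lit 15,nat_lit 3],[nat_lit 15,nat_lit 4,
    nat_lit 12],[nat_lit 15,nat_lit 5,nat_lit 12],[nat_lit 15,nat_lit 12,nat_lit 4],[nat_lit 15,nat_lit 13,nat_lit 4],
    [nat_lit 15,nat_lit 13,nat_lit 5]]]
    [[nat_lit 3,nat_lit 26,nat_lit 39,nat_lit 65,nat_lit 86,nat_lit 88,nat_lit 9,nat_lit 27,nat_lit 41,nat_lit 50,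
    nat_lit 106,nat_lit 108],[nat_lit 93,nat_lit 97,nat_lit 113,nat_lit 115,nat_lit 162,nat_lit 169,nat_lit 94,
    nat_lit 98,nat_lit 114,nat_lit 116,nat_lit 163,nat_lit 170],[nat_lit 4,nat_lit 10,nat_lit 80,nat_lit 100,
    nat_lit 120,nat_lit 128,nat_lit 140,nat_lit 141,nat_lit 145,nat_lit 147,nat_lit 167,nat_lit 173],[nat_lit 174,
    nat_lit 5,nat_lit 11,nat_lit 81,nat_lit 96,nat_lit 101,nat_lit 118,nat_lit 121,nat_lit 129,nat_lit 146,
    nat_lit 148,nat_lit 161],[nat_lit 168,nat_lit 175,nat_lit 6,nat_lit 55,nat_lit 57,nat_lit 70,nat_lit 72,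
    nat_lit 89,nat_lit 91,nat_lit 109,nat_lit 111,nat_lit 125],[nat_lit 134,nat_lit 142,nat_lit 144,nat_lit 158,
    nat_lit 159,nat_lit 0,nat_lit 56,nat_lit 58,nat_lit 71,nat_lit 73,nat_lit 90,nat_lit 92],[nat_lit 110,nat_lit 112,
    nat_lit 126,nat_lit 127,nat_lit 133,nat_lit 135,nat_lit 143,nat_lit 160,nat_lit 1,nat_lit 2,nat_lit 12,
    nat_lit 14],[nat_lit 18,nat_lit 20,nat_lit 24,nat_lit 30,nat_lit 37,nat_lit 51,nat_lit 53,nat_lit 66,nat_lit 68,
    nat_lit 82,nat_lit 84,nat_lit 87],[nat_lit 99,nat_lit 102,nat_lit 104,nat_lit 151,nat_lit 7,nat_lit 8,nat_lit 13,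
    nat_lit 15,nat_lit 19,nat_lit 21,nat_lit 25,nat_lit 31],[nat_lit 38,nat_lit 52,nat_lit 54,nat_lit 67,nat_lit 69,
    nat_lit 83,nat_lit 85,nat_lit 103,nat_lit 105,nat_lit 107,nat_lit 119,nat_lit 152],[nat_lit 28,nat_lit 43,
    nat_lit 61,nat_lit 63,nat_lit 78,nat_lit 137,nat_lit 138,nat_lit 156,nat_lit 29,nat_lit 44,nat_lit 62,nat_lit 64],
    [nat_lit 79,nat_lit 139,nat_lit 155,nat_lit 157,nat_lit 35,nat_lit 59,nat_lit 74,nat_lit 76,nat_lit 95,
    nat_lit 117,nat_lit 122,nat_lit 124],[nat_lit 130,nat_lit 164,nat_lit 165,nat_lit 171,nat_lit 172,nat_lit 34,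
    nat_lit 36,nat_lit 40,nat_lit 42,nat_lit 48,nat_lit 49,nat_lit 60],[nat_lit 75,nat_lit 77,nat_lit 123,nat_lit 131,
    nat_lit 132,nat_lit 166,nat_lit 16,nat_lit 22,nat_lit 32,nat_lit 45,nat_lit 47,nat_lit 149],[nat_lit 153,
    nat_lit 17,nat_lit 23,nat_lit 33,nat_lit 46,nat_lit 136,nat_lit 150,nat_lit 154]]
    [[nat_lit 65,nat_lit 80,nat_lit 81,nat_lit 0,nat_lit 24,nat_lit 37,nat_lit 50,nat_lit 100,nat_lit 101,nat_lit 6,
    nat_lit 25,nat_lit 38],[nat_lit 82,nat_lit 102,nat_lit 83,nat_lit 103,nat_lit 162,nat_lit 169,nat_lit 84,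
    nat_lit 104,nat_lit 85,nat_lit 105,nat_lit 163,nat_lit 170],[nat_lit 86,nat_lit 106,nat_lit 1,nat_lit 7,
    nat_lit 120,nat_lit 128,nat_lit 87,nat_lit 107,nat_lit 164,nat_lit 171,nat_lit 149,nat_lit 136],[nat_lit 150,
    nat_lit 88,nat_lit 108,nat_lit 2,nat_lit 151,nat_lit 8,nat_lit 152,nat_lit 121,nat_lit 129,nat_lit 165,
    nat_lit 172,nat_lit 166],[nat_lit 153,nat_lit 154,nat_lit 9,nat_lit 89,nat_lit 109,nat_lit 90,nat_lit 110,
    nat_lit 51,nat_lit 66,nat_lit 52,nat_lit 67,nat_lit 137],[nat_lit 155,nat_lit 122,nat_lit 130,nat_lit 123,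
    nat_lit 131,nat_lit 3,nat_lit 91,nat_lit 111,nat_lit 92,nat_lit 112,nat_lit 53,nat_lit 68],[nat_lit 54,nat_lit 69,
    nat_lit 138,nat_lit 156,nat_lit 139,nat_lit 157,nat_lit 124,nat_lit 132,nat_lit 26,nat_lit 39,nat_lit 93,
    nat_lit 113],[nat_lit 94,nat_lit 114,nat_lit 4,nat_lit 95,nat_lit 5,nat_lit 55,nat_lit 70,nat_lit 56,nat_lit 71,
    nat_lit 12,nat_lit 18,nat_lit 140],[nat_lit 40,nat_lit 13,nat_lit 19,nat_lit 96,nat_lit 27,nat_lit 41,nat_lit 97,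
    nat_lit 115,nat_lit 98,nat_lit 116,nat_lit 10,nat_lit 117],[nat_lit 11,nat_lit 57,nat_lit 72,nat_lit 58,
    nat_lit 73,nat_lit 14,nat_lit 20,nat_lit 15,nat_lit 21,nat_lit 141,nat_lit 42,nat_lit 118],[nat_lit 28,nat_lit 43,
    nat_lit 142,nat_lit 158,nat_lit 143,nat_lit 59,nat_lit 74,nat_lit 75,nat_lit 29,nat_lit 44,nat_lit 144,
    nat_lit 159],[nat_lit 160,nat_lit 76,nat_lit 60,nat_lit 77,nat_lit 173,nat_lit 125,nat_lit 126,nat_lit 133,
    nat_lit 30,nat_lit 31,nat_lit 61,nat_lit 78],[nat_lit 62,nat_lit 32,nat_lit 45,nat_lit 33,nat_lit 46,nat_lit 167,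
    nat_lit 174,nat_lit 99,nat_lit 119,nat_lit 168,nat_lit 175,nat_lit 134],[nat_lit 127,nat_lit 135,nat_lit 63,
    nat_lit 64,nat_lit 79,nat_lit 47,nat_lit 16,nat_lit 22,nat_lit 145,nat_lit 146,nat_lit 161,nat_lit 34],
    [nat_lit 48,nat_lit 17,nat_lit 23,nat_lit 147,nat_lit 148,nat_lit 35,nat_lit 36,nat_lit 49]]
    [[[nat_lit 162],[],[nat_lit 163],[nat_lit 168],[],[],[nat_lit 23],[],[],[nat_lit 18,nat_lit 20],[],[]],[[],[],
    [nat_lit 0],[nat_lit 0],[nat_lit 3],[],[nat_lit 43],[nat_lit 43],[],[],[nat_lit 39],[nat_lit 40,nat_lit 42,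
    nat_lit 48,nat_lit 49]],[[],[nat_lit 17],[],[],[],[nat_lit 13,nat_lit 15],[nat_lit 16],[nat_lit 16],[nat_lit 16],
    [nat_lit 16],[],[]],[[],[],[],[nat_lit 78],[nat_lit 78],[nat_lit 71,nat_lit 73],[nat_lit 71,nat_lit 73],
    [nat_lit 74,nat_lit 76],[nat_lit 67,nat_lit 69],[],[],[nat_lit 79]],[[nat_lit 65],[nat_lit 75,nat_lit 77],
    [nat_lit 33],[nat_lit 24,nat_lit 30],[nat_lit 24,nat_lit 30],[],[],[nat_lit 28],[nat_lit 28],[],[],[nat_lit 35]],
    [[nat_lit 25,nat_lit 31],[nat_lit 32],[nat_lit 32],[nat_lit 29],[nat_lit 29],[nat_lit 113,nat_lit 115],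
    [nat_lit 102,nat_lit 104],[nat_lit 102,nat_lit 104],[nat_lit 101,nat_lit 118],[nat_lit 101,nat_lit 118],[],[]],
    [[nat_lit 110,nat_lit 112],[nat_lit 110,nat_lit 112],[nat_lit 117],[nat_lit 117],[nat_lit 103,nat_lit 105,
    nat_lit 107,nat_lit 119],[nat_lit 103,nat_lit 105,nat_lit 107,nat_lit 119],[],[],[],[],[],[]],[[nat_lit 50],
    [nat_lit 50],[nat_lit 55,nat_lit 57],[nat_lit 55,nat_lit 57],[],[nat_lit 51,nat_lit 53],[nat_lit 51,nat_lit 53],
    [],[],[nat_lit 61,nat_lit 63],[nat_lit 61,nat_lit 63],[nat_lit 61,nat_lit 63]],[[nat_lit 61,nat_lit 63],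
    [nat_lit 56,nat_lit 58],[nat_lit 56,nat_lit 58],[nat_lit 62,nat_lit 64],[],[],[nat_lit 128],[nat_lit 128],[],[],
    [nat_lit 134],[nat_lit 134]],[[],[],[],[nat_lit 129],[nat_lit 129],[],[],[nat_lit 133,nat_lit 135],[nat_lit 133,
    nat_lit 135],[nat_lit 133,nat_lit 135],[nat_lit 133,nat_lit 135],[]],[[nat_lit 89,nat_lit 91],[nat_lit 94,
    nat_lit 98],[nat_lit 82,nat_lit 84,nat_lit 87,nat_lit 99],[nat_lit 82,nat_lit 84,nat_lit 87,nat_lit 99],
    [nat_lit 81,nat_lit 96],[],[],[],[nat_lit 158,nat_lit 159],[],[nat_lit 151],[nat_lit 151]],[[nat_lit 161],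
    [nat_lit 149,nat_lit 153],[nat_lit 155,nat_lit 157],[nat_lit 155,nat_lit 157],[nat_lit 125],[],[nat_lit 121],
    [nat_lit 121],[],[nat_lit 126,nat_lit 127],[nat_lit 122,nat_lit 124],[nat_lit 122,nat_lit 124]],[[],[],[],
    [nat_lit 123],[nat_lit 123],[],[],[nat_lit 170],[nat_lit 170],[nat_lit 170],[nat_lit 170],[]],[[nat_lit 175],
    [nat_lit 175],[nat_lit 171,nat_lit 172],[],[],[],[nat_lit 140,nat_lit 141,nat_lit 145,nat_lit 147],[],
    [nat_lit 142,nat_lit 144],[],[],[nat_lit 139]],[[nat_lit 139],[nat_lit 10],[nat_lit 9],[nat_lit 6],[],[],[],[]]]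
    (nat_lit 176) [nat_lit 0,nat_lit 1,nat_lit 2,nat_lit 3,nat_lit 4,nat_lit 5,nat_lit 6,nat_lit 7,nat_lit 8,
    nat_lit 9,nat_lit 10,nat_lit 11,nat_lit 12,nat_lit 13,nat_lit 14,nat_lit 15,nat_lit 16,nat_lit 17,nat_lit 18,
    nat_lit 19,nat_lit 20,nat_lit 21,nat_lit 22,nat_lit 23,nat_lit 28,nat_lit 29,nat_lit 30,nat_lit 31,nat_lit 32,
    nat_lit 33,nat_lit 34,nat_lit 35,nat_lit 36,nat_lit 40,nat_lit 42,nat_lit 43,nat_lit 44,nat_lit 45,nat_lit 46,
    nat_lit 47,nat_lit 48,nat_lit 49,nat_lit 51,nat_lit 52,nat_lit 53,nat_lit 54,nat_lit 55,nat_lit 56,nat_lit 57,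
    nat_lit 58,nat_lit 59,nat_lit 60,nat_lit 61,nat_lit 62,nat_lit 63,nat_lit 64,nat_lit 68,nat_lit 69,nat_lit 71,
    nat_lit 73,nat_lit 74,nat_lit 75,nat_lit 76,nat_lit 77,nat_lit 78,nat_lit 79]
    [[[nat_lit 3],[],[],[],[nat_lit 4],[nat_lit 5],[],[nat_lit 0],[nat_lit 1,nat_lit 2],[],[],[],[],[],[],[]],[[],
    [nat_lit 9],[],[],[nat_lit 10],[nat_lit 11],[nat_lit 6],[],[],[nat_lit 7,nat_lit 8],[],[],[],[],[],[]],[[],[],[],
    [],[],[],[],[],[nat_lit 12,nat_lit 14],[nat_lit 13,nat_lit 15],[],[],[],[],[nat_lit 16],[nat_lit 17]],[[],[],[],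
    [],[],[],[],[],[nat_lit 18,nat_lit 20],[nat_lit 19,nat_lit 21],[],[],[],[],[nat_lit 22],[nat_lit 23]],
    [[nat_lit 26],[nat_lit 27],[],[],[],[],[],[],[nat_lit 24,nat_lit 30],[nat_lit 25,nat_lit 31],[nat_lit 28],
    [nat_lit 29],[nat_lit 35],[nat_lit 34,nat_lit 36],[nat_lit 32],[nat_lit 33]],[[nat_lit 39],[nat_lit 41],[],[],[],
    [],[],[],[nat_lit 37],[nat_lit 38],[nat_lit 43],[nat_lit 44],[],[nat_lit 40,nat_lit 42,nat_lit 48,nat_lit 49],
    [nat_lit 45,nat_lit 47],[nat_lit 46]],[[],[nat_lit 50],[],[],[],[],[nat_lit 55,nat_lit 57],[nat_lit 56,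
    nat_lit 58],[nat_lit 51,nat_lit 53],[nat_lit 52,nat_lit 54],[nat_lit 61,nat_lit 63],[nat_lit 62,nat_lit 64],
    [nat_lit 59],[nat_lit 60],[],[]],[[nat_lit 65],[],[],[],[],[],[nat_lit 70,nat_lit 72],[nat_lit 71,nat_lit 73],
    [nat_lit 66,nat_lit 68],[nat_lit 67,nat_lit 69],[nat_lit 78],[nat_lit 79],[nat_lit 74,nat_lit 76],[nat_lit 75,
    nat_lit 77],[],[]],[[nat_lit 86,nat_lit 88],[],[nat_lit 93,nat_lit 97],[nat_lit 94,nat_lit 98],[nat_lit 80],
    [nat_lit 81,nat_lit 96],[nat_lit 89,nat_lit 91],[nat_lit 90,nat_lit 92],[nat_lit 82,nat_lit 84,nat_lit 87,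
    nat_lit 99],[nat_lit 83,nat_lit 85],[],[],[nat_lit 95],[],[],[]],[[],[nat_lit 106,nat_lit 108],[nat_lit 113,
    nat_lit 115],[nat_lit 114,nat_lit 116],[nat_lit 100],[nat_lit 101,nat_lit 118],[nat_lit 109,nat_lit 111],
    [nat_lit 110,nat_lit 112],[nat_lit 102,nat_lit 104],[nat_lit 103,nat_lit 105,nat_lit 107,nat_lit 119],[],[],
    [nat_lit 117],[],[],[]],[[],[],[],[],[nat_lit 120],[nat_lit 121],[nat_lit 125],[nat_lit 126,nat_lit 127],[],[],[],
    [],[nat_lit 122,nat_lit 124],[nat_lit 123],[],[]],[[],[],[],[],[nat_lit 128],[nat_lit 129],[nat_lit 134],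
    [nat_lit 133,nat_lit 135],[],[],[],[],[nat_lit 130],[nat_lit 131,nat_lit 132],[],[]],[[],[],[],[],[nat_lit 140,
    nat_lit 141,nat_lit 145,nat_lit 147],[nat_lit 146,nat_lit 148],[nat_lit 142,nat_lit 144],[nat_lit 143],[],[],
    [nat_lit 137,nat_lit 138],[nat_lit 139],[],[],[],[nat_lit 136]],[[],[],[],[],[],[nat_lit 161],[nat_lit 158,
    nat_lit 159],[nat_lit 160],[nat_lit 151],[nat_lit 152],[nat_lit 156],[nat_lit 155,nat_lit 157],[],[],[nat_lit 149,
    nat_lit 153],[nat_lit 150,nat_lit 154]],[[],[],[nat_lit 162],[nat_lit 163],[nat_lit 167],[nat_lit 168],[],[],[],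
    [],[],[],[nat_lit 164,nat_lit 165],[nat_lit 166],[],[]],[[],[],[nat_lit 169],[nat_lit 170],[nat_lit 173,
    nat_lit 174],[nat_lit 175],[],[],[],[],[],[],[nat_lit 171,nat_lit 172],[],[],[]]]
    [[[nat_lit 0x40000000000000000000000000000000000000000,nat_lit 0,
    nat_lit 0x80000000000000000000000000000000000000000,nat_lit 0x1000000000000000000000000000000000000000000,
    nat_lit 0,nat_lit 0,nat_lit 0x800000,nat_lit 0,nat_lit 0],[nat_lit 0x140000,nat_lit 0,nat_lit 0,nat_lit 0,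
    nat_lit 0,nat_lit 1,nat_lit 1,nat_lit 8,nat_lit 0],[nat_lit 0x80000000000,nat_lit 0x80000000000,nat_lit 0,
    nat_lit 0,nat_lit 0x8000000000,nat_lit 0x3050000000000,nat_lit 0,nat_lit 0x20000,nat_lit 0],[nat_lit 0,nat_lit 0,
    nat_lit 0xa000,nat_lit 0x10000,nat_lit 0x10000,nat_lit 0x10000,nat_lit 0x10000,nat_lit 0,nat_lit 0],[nat_lit 0,
    nat_lit 0,nat_lit 0,nat_lit 0x40000000000000000000,nat_lit 0x40000000000000000000,nat_lit 0x2800000000000000000,
    nat_lit 0x2800000000000000000,nat_lit 0x14000000000000000000,nat_lit 0x280000000000000000],[nat_lit 0,nat_lit 0,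
    nat_lit 0x80000000000000000000,nat_lit 0x20000000000000000,nat_lit 0x28000000000000000000,nat_lit 0x200000000,
    nat_lit 0x41000000,nat_lit 0x41000000,nat_lit 0],[nat_lit 0,nat_lit 0x10000000,nat_lit 0x10000000,nat_lit 0,
    nat_lit 0,nat_lit 0x800000000,nat_lit 0x82000000,nat_lit 0x100000000,nat_lit 0x100000000],[nat_lit 0x20000000,
    nat_lit 0x20000000,nat_lit 0xa0000000000000000000000000000,nat_lit 0x140000000000000000000000000,
    nat_lit 0x140000000000000000000000000,nat_lit 0x400020000000000000000000000000,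
    nat_lit 0x400020000000000000000000000000,nat_lit 0,nat_lit 0],[nat_lit 0x14000000000000000000000000000,
    nat_lit 0x14000000000000000000000000000,nat_lit 0x200000000000000000000000000000,
    nat_lit 0x200000000000000000000000000000,nat_lit 0x800a80000000000000000000000000,
    nat_lit 0x800a80000000000000000000000000,nat_lit 0,nat_lit 0,nat_lit 0]],[[nat_lit 0,nat_lit 0,nat_lit 0,
    nat_lit 0x4000000000000,nat_lit 0x4000000000000,nat_lit 0x280000000000000,nat_lit 0x280000000000000,nat_lit 0,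
    nat_lit 0x28000000000000],[nat_lit 0x28000000000000,nat_lit 0,nat_lit 0,nat_lit 0xa000000000000000,
    nat_lit 0xa000000000000000,nat_lit 0xa000000000000000,nat_lit 0xa000000000000000,nat_lit 0x500000000000000,
    nat_lit 0x500000000000000],[nat_lit 0x14000000000000000,nat_lit 0,nat_lit 0,
    nat_lit 0x100000000000000000000000000000000,nat_lit 0x100000000000000000000000000000000,nat_lit 0,nat_lit 0,
    nat_lit 0x4000000000000000000000000000000000,nat_lit 0x4000000000000000000000000000000000],[nat_lit 0,nat_lit 0,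
    nat_lit 0,nat_lit 0x200000000000000000000000000000000,nat_lit 0x200000000000000000000000000000000,nat_lit 0,
    nat_lit 0,nat_lit 0xa000000000000000000000000000000000,nat_lit 0xa000000000000000000000000000000000],
    [nat_lit 0xa000000000000000000000000000000000,nat_lit 0xa000000000000000000000000000000000,nat_lit 0,
    nat_lit 0xa0000000000000000000000,nat_lit 0x4400000000000000000000000,nat_lit 0x8009400000000000000000000,
    nat_lit 0x8009400000000000000000000,nat_lit 0x1000200000000000000000000,nat_lit 0],[nat_lit 0,nat_lit 0,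
    nat_lit 0xc000000000000000000000000000000000000000,nat_lit 0,nat_lit 0x80000000000000000000000000000000000000,
    nat_lit 0x80000000000000000000000000000000000000,nat_lit 0x20000000000000000000000000000000000000000,
    nat_lit 0x220000000000000000000000000000000000000,nat_lit 0x2800000000000000000000000000000000000000],
    [nat_lit 0x2800000000000000000000000000000000000000,nat_lit 0x20000000000000000000000000000000,nat_lit 0,
    nat_lit 0x2000000000000000000000000000000,nat_lit 0x2000000000000000000000000000000,nat_lit 0,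
    nat_lit 0xc0000000000000000000000000000000,nat_lit 0x14000000000000000000000000000000,
    nat_lit 0x14000000000000000000000000000000],[nat_lit 0,nat_lit 0,nat_lit 0,
    nat_lit 0x8000000000000000000000000000000,nat_lit 0x8000000000000000000000000000000,nat_lit 0,nat_lit 0,
    nat_lit 0x4000000000000000000000000000000000000000000,nat_lit 0x4000000000000000000000000000000000000000000],
    [nat_lit 0x4000000000000000000000000000000000000000000,nat_lit 0x4000000000000000000000000000000000000000000,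
    nat_lit 0,nat_lit 0x80000000000000000000000000000000000000000000,
    nat_lit 0x80000000000000000000000000000000000000000000,nat_lit 0x18000000000000000000000000000000000000000000,
    nat_lit 0,nat_lit 0,nat_lit 0]],[[nat_lit 0xa300000000000000000000000000000000000,nat_lit 0,
    nat_lit 0x1400000000000000000000000000000000000,nat_lit 0,nat_lit 0,nat_lit 0x80000000000000000000000000000000000,
    nat_lit 0x80000000000000000000000000000000000,nat_lit 0x400,nat_lit 512],[nat_lit 64,nat_lit 0,nat_lit 0,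
    nat_lit 0,nat_lit 0]]]
    [[[[nat_lit 0x40000000000000000000000000000000000000000,nat_lit 0,nat_lit 0,nat_lit 0,nat_lit 0,nat_lit 0,
    nat_lit 0x800000,nat_lit 0,nat_lit 0],[nat_lit 0,nat_lit 0,nat_lit 0,nat_lit 0,nat_lit 0,nat_lit 0,nat_lit 0,
    nat_lit 8,nat_lit 0],[nat_lit 0x80000000000,nat_lit 0,nat_lit 0,nat_lit 0,nat_lit 0,nat_lit 0x1000000000000,
    nat_lit 0,nat_lit 0,nat_lit 0],[nat_lit 0,nat_lit 0,nat_lit 0x8000,nat_lit 0,nat_lit 0,nat_lit 0,nat_lit 0x10000,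
    nat_lit 0,nat_lit 0],[nat_lit 0,nat_lit 0,nat_lit 0,nat_lit 0,nat_lit 0,nat_lit 0,nat_lit 0,
    nat_lit 0x10000000000000000000,nat_lit 0],[nat_lit 0,nat_lit 0,nat_lit 0,nat_lit 0x20000000000000000,nat_lit 0,
    nat_lit 0x200000000,nat_lit 0,nat_lit 0,nat_lit 0],[nat_lit 0,nat_lit 0,nat_lit 0,nat_lit 0,nat_lit 0,nat_lit 0,
    nat_lit 0,nat_lit 0,nat_lit 0],[nat_lit 0x20000000,nat_lit 0,nat_lit 0x80000000000000000000000000000,nat_lit 0,
    nat_lit 0,nat_lit 0,nat_lit 0,nat_lit 0,nat_lit 0],[nat_lit 0,nat_lit 0,nat_lit 0,nat_lit 0,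
    nat_lit 0x800000000000000000000000000,nat_lit 0,nat_lit 0,nat_lit 0,nat_lit 0]],[[nat_lit 0,nat_lit 0,nat_lit 0,
    nat_lit 0x4000000000000,nat_lit 0,nat_lit 0,nat_lit 0,nat_lit 0,nat_lit 0],[nat_lit 0,nat_lit 0,nat_lit 0,
    nat_lit 0,nat_lit 0,nat_lit 0,nat_lit 0x8000000000000000,nat_lit 0,nat_lit 0],[nat_lit 0,nat_lit 0,nat_lit 0,
    nat_lit 0,nat_lit 0x100000000000000000000000000000000,nat_lit 0,nat_lit 0,nat_lit 0,nat_lit 0],[nat_lit 0,
    nat_lit 0,nat_lit 0,nat_lit 0,nat_lit 0,nat_lit 0,nat_lit 0,nat_lit 0x8000000000000000000000000000000000,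
    nat_lit 0],[nat_lit 0,nat_lit 0,nat_lit 0,nat_lit 0,nat_lit 0x400000000000000000000000,
    nat_lit 0x1000000000000000000000,nat_lit 0,nat_lit 0,nat_lit 0],[nat_lit 0,nat_lit 0,
    nat_lit 0x8000000000000000000000000000000000000000,nat_lit 0,nat_lit 0,
    nat_lit 0x80000000000000000000000000000000000000,nat_lit 0,nat_lit 0x200000000000000000000000000000000000000,
    nat_lit 0],[nat_lit 0,nat_lit 0,nat_lit 0,nat_lit 0x2000000000000000000000000000000,nat_lit 0,nat_lit 0,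
    nat_lit 0x40000000000000000000000000000000,nat_lit 0,nat_lit 0],[nat_lit 0,nat_lit 0,nat_lit 0,
    nat_lit 0x8000000000000000000000000000000,nat_lit 0,nat_lit 0,nat_lit 0,nat_lit 0,nat_lit 0],[nat_lit 0,
    nat_lit 0x4000000000000000000000000000000000000000000,nat_lit 0,nat_lit 0,
    nat_lit 0x80000000000000000000000000000000000000000000,nat_lit 0x8000000000000000000000000000000000000000000,
    nat_lit 0,nat_lit 0,nat_lit 0]],[[nat_lit 0x2000000000000000000000000000000000000,nat_lit 0,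
    nat_lit 0x400000000000000000000000000000000000,nat_lit 0,nat_lit 0,nat_lit 0,
    nat_lit 0x80000000000000000000000000000000000,nat_lit 0,nat_lit 512],[nat_lit 0,nat_lit 0,nat_lit 0,nat_lit 0,
    nat_lit 0]]]]
    (nat_lit 1) (nat_lit 1) (nat_lit 9)
    [[nat_lit 2,nat_lit 3,nat_lit 0x1000002,nat_lit 257,nat_lit 0x1101,nat_lit 0x1001,nat_lit 0x11001,
    nat_lit 0x101001,nat_lit 0x1001001,nat_lit 0x10001001,nat_lit 0x10001,nat_lit 0x20001,nat_lit 0x110001,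
    nat_lit 0x1010001,nat_lit 0x100001,nat_lit 0x1100001,nat_lit 0x1000001,nat_lit 0x2000001,nat_lit 0x11000001,
    nat_lit 0x10000001],[nat_lit 0x10110,nat_lit 0x1010,nat_lit 0x10010,nat_lit 0x100010,nat_lit 0x110010,
    nat_lit 0x1000010],[nat_lit 512,nat_lit 0x1200,nat_lit 0x10200,nat_lit 0x1100,nat_lit 0x11100,nat_lit 0x1001100,
    nat_lit 0x10001100,nat_lit 0x10100,nat_lit 0x20100,nat_lit 0x1010100,nat_lit 0x10010100,nat_lit 0x1000100,
    nat_lit 0x2000100,nat_lit 0x10000100],[nat_lit 0x2000,nat_lit 0x11000,nat_lit 0x21000,nat_lit 0x111000,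
    nat_lit 0x1011000,nat_lit 0x10011000,nat_lit 0x101000,nat_lit 0x10101000,nat_lit 0x1001000,nat_lit 0x1002000,
    nat_lit 0x2001000,nat_lit 0x11001000,nat_lit 0x10001000],[nat_lit 0x20000,nat_lit 0x30000,nat_lit 0x40000,
    nat_lit 0x120000,nat_lit 0x1020000,nat_lit 0x10020000,nat_lit 0x110000,nat_lit 0x1110000,nat_lit 0x10110000,
    nat_lit 0x1010000,nat_lit 0x2010000,nat_lit 0x11010000,nat_lit 0x10010000,nat_lit 0x20010000],[nat_lit 0x200000,
    nat_lit 0x1100000,nat_lit 0x2100000,nat_lit 0x10100000,nat_lit 0x11100000],[nat_lit 0x2000000,nat_lit 0x3000000,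
    nat_lit 0x12000000,nat_lit 0x11000000,nat_lit 0x21000000],[nat_lit 0x20000000]]
    [.c (nat_lit 1) (nat_lit 2),.c (nat_lit 0) (nat_lit 0x2180000011),.c (nat_lit 0) (nat_lit 0x2180000011),
    .c (nat_lit 4) (nat_lit 0xc00c8000010),.c (nat_lit 0) (nat_lit 0xc40c5000010),.c (nat_lit 0) (nat_lit 0x82000009),
    .c (nat_lit 0) (nat_lit 0x2084200011),.c (nat_lit 4) (nat_lit 0xc3008251411),
    .c (nat_lit 4) (nat_lit 0x30c4000010),.r (nat_lit 0xdb3) (nat_lit 11) [nat_lit 0x2080200244,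
    nat_lit 0x3003009450008],.c (nat_lit 0) (nat_lit 0x8020a011),.c (nat_lit 0) (nat_lit 0x6080400011),
    .c (nat_lit 3) (nat_lit 0x83005011411),.c (nat_lit 1) (nat_lit 0x3080240010),
    .c (nat_lit 0) (nat_lit 0xc2005251411),.c (nat_lit 0) (nat_lit 0xc2005251411),
    .c (nat_lit 0) (nat_lit 0x2180000011),.c (nat_lit 0) (nat_lit 0x408000b011),.c (nat_lit 0) (nat_lit 0x6080000011),
    .c (nat_lit 0) (nat_lit 0x6080000011),.c (nat_lit 0) (nat_lit 0xc6000251010),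
    .c (nat_lit 3) (nat_lit 0x80003009008),.c (nat_lit 4) (nat_lit 0x20c5004),.c (nat_lit 0) (nat_lit 0x84084200450),
    .c (nat_lit 0) (nat_lit 0x82084003450),.r (nat_lit 0x165b) (nat_lit 13) [nat_lit 0x800c1,nat_lit 129],
    .c (nat_lit 3) (nat_lit 2),.c (nat_lit 0) (nat_lit 0xc4003000008),.c (nat_lit 0) (nat_lit 0xc2000140008),
    .r (nat_lit 0xdb3) (nat_lit 11) [nat_lit 0x3002140400408,nat_lit 0x3003009450008],
    .c (nat_lit 0) (nat_lit 0xc2005240010),.c (nat_lit 3) (nat_lit 0x83005000010),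
    .c (nat_lit 0) (nat_lit 0x1c000b000028),.c (nat_lit 0) (nat_lit 0x80000280015),
    .c (nat_lit 0) (nat_lit 0x82000400011),.c (nat_lit 4) (nat_lit 0xc3008240010),
    .r (nat_lit 0xdb3) (nat_lit 11) [nat_lit 0x2002008400448,nat_lit 0x3003009450008],
    .c (nat_lit 4) (nat_lit 0xc3010000010),.r (nat_lit 0x165b) (nat_lit 13) [nat_lit 0x2080000000448,
    nat_lit 0x30c0000400408],.c (nat_lit 0) (nat_lit 0x82000000011),.c (nat_lit 4) (nat_lit 2),
    .c (nat_lit 1) (nat_lit 0x83140008),.c (nat_lit 0) (nat_lit 0x2002200009),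
    .r (nat_lit 0xdb3) (nat_lit 11) [nat_lit 0x30c0000010448,nat_lit 0x3003009450008],
    .c (nat_lit 0) (nat_lit 0x2002200011),.c (nat_lit 3) (nat_lit 0x80002100009),
    .c (nat_lit 0) (nat_lit 0xc00c0251411),.r (nat_lit 0x165b) (nat_lit 13) [nat_lit 0x2002008411408,
    nat_lit 0x3003009010448],.c (nat_lit 0) (nat_lit 0x200400b011),
    .r (nat_lit 0xdb3) (nat_lit 11) [nat_lit 0xc2240400408,nat_lit 0x3003009450008],
    .c (nat_lit 4) (nat_lit 0x3006000008),.c (nat_lit 0) (nat_lit 0x2002000009),.c (nat_lit 0) (nat_lit 0x2002000009),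
    .c (nat_lit 5) (nat_lit 2),.c (nat_lit 0) (nat_lit 0x2000180005),.c (nat_lit 2) (nat_lit 0x104003),
    .r (nat_lit 0xdbb) (nat_lit 12) [nat_lit 0xc3148010448,nat_lit 0x3000081],.c (nat_lit 0) (nat_lit 0x200040a011),
    .c (nat_lit 2) (nat_lit 0x84003),.c (nat_lit 0) (nat_lit 0xc40c5011411),.c (nat_lit 0) (nat_lit 0xc40c5011411),
    .r (nat_lit 412) (nat_lit 5) [nat_lit 0x2084120411408,nat_lit 0x3000001,nat_lit 0x2102128411408,nat_lit 0x2000081,
    nat_lit 0x30c30e1450444,nat_lit 0xc3159450448],.c (nat_lit 0) (nat_lit 0x2000180011),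
    .c (nat_lit 0) (nat_lit 0x2000180009),.c (nat_lit 0) (nat_lit 0x2000080005),.c (nat_lit 0) (nat_lit 0x2000080005),
    .c (nat_lit 3) (nat_lit 0x80000080005),.c (nat_lit 6) (nat_lit 2),.c (nat_lit 1) (nat_lit 0x80184210450),
    .c (nat_lit 0) (nat_lit 0x1c41cd671c29),.r (nat_lit 0xdbb) (nat_lit 12) [nat_lit 0xc3149010448,nat_lit 129],
    .c (nat_lit 3) (nat_lit 0x800c5251411),.c (nat_lit 7) (nat_lit 2),.c (nat_lit 0) (nat_lit 0x6000013011),
    .c (nat_lit 1) (nat_lit 0x3080000008),.c (nat_lit 0) (nat_lit 0x2000000007),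
    .r (nat_lit 0xdbb) (nat_lit 12) [nat_lit 0x2080000400448,nat_lit 0x3143149450408],.c (nat_lit 8) (nat_lit 2)]]

/-- nodes -/
noncomputable def rD8k_36_23 : List RJ :=
  [.s (nat_lit 14) (nat_lit 0xe10) (nat_lit 3) (nat_lit 0x5f2000005f20000055300000553000005fe000005fe000005ee000005ee0000068e0000068e000006d8000006d8000005ec000005ec000005ad000005ad) (nat_lit 0xe6000000e60000018500000185000000da000000da000000ea000000ea0000004a0000004a0000000000000000000000ec000000ec0000012b0000012b)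
    (nat_lit 0x14304c211b446d146051811d850816a04921d407f21418534131c4c7143050c11d446d124851814204da16a057e17e869c1438534131c4c711b446d0f383ce129c471124c4ef117c5091494553119c45f10a042011d446d0f383ce11e4479124c4f71424509154c33510e446710a0334146051811e4471125852414505141f4858a17f85fe1818512134c501124851811e44a713304961450514218861a18d05fe16b0512134c4a7136850813dc4ef1450514127855c16905a417b834014b84cc130c4291420476124c4931450514141049e16905a417b85ee11c040e176451b15f84921424509186858a16905a419106441e0868e15285a217d45f516a05a8142445f21887d216905a419106441e0868e16885a20d8c5631a707f20cd455317f85fe17b83401a3868e1b606d817b04f816b45ad17e8750154c52518d05fe17b85ee1e087821b606d814005ec15fc4c114d0534119c45f144851210384cc16885a217b04f817b05000d8c5ad143850610e446716b060611c052e168854a14005ec14005ec13044c1131c4c70cd0420129c501146c429158c5f513045ad13045ad1208482131c4c710a0428134c4d317644c30d8c5f515fc5ad13043631330482)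
    (nat_lit 0x1430e103840e103840e103840e103840e103840e103840e103840e10130850c3840e103840e103840e103840e103840e103840e103840e1011b44750f38e103840e103840e103840e103840e103840e103840e1011b446d0f383ce3840e103840e103840e103840e103840e103840e101460492129c4791258e103840e103840e103840e103840e103840e10146051811c447914904963840e103840e103840e103840e103840e1011d8508124c49314505141278e103840e103840e103840e103840e1014204da13bc4f71450514157049e3840e103840e103840e103840e1016a05a8117c5091f4886216905a41910e103840e103840e103840e10124857e1424509162861a16905a419106443840e103840e103840e101d405fa149455317f863417b85ee1e087821b60e103840e103840e101e8869c154c33517f85fe0d005ee1a3868e1b606d83840e103840e10141850e119c43918185ac14b847015285a217b050017b0e103840e1014d0534117c4671448512133040e16885a213e05ec14005ec3840e10131c4c710a0428134c4d3130c5d917d436316b457f0d8c4c11208e10131c4c7108033414044a710a451b17d456316b44c116b44c11208482)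
    (nat_lit 5) (nat_lit 83)
    [[nat_lit 0,nat_lit 0,nat_lit 7],[nat_lit 0,nat_lit 3,nat_lit 4],[nat_lit 0,nat_lit 5,nat_lit 8],[nat_lit 0,
    nat_lit 6,nat_lit 1],[nat_lit 0,nat_lit 7,nat_lit 0],[nat_lit 0,nat_lit 7,nat_lit 1],[nat_lit 0,nat_lit 8,
    nat_lit 4],[nat_lit 0,nat_lit 8,nat_lit 5],[nat_lit 0,nat_lit 9,nat_lit 4],[nat_lit 1,nat_lit 1,nat_lit 6],
    [nat_lit 1,nat_lit 4,nat_lit 9],[nat_lit 1,nat_lit 5,nat_lit 2],[nat_lit 1,nat_lit 5,nat_lit 8],[nat_lit 1,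
    nat_lit 5,nat_lit 9],[nat_lit 1,nat_lit 6,nat_lit 1],[nat_lit 1,nat_lit 9,nat_lit 4],[nat_lit 2,nat_lit 2,
    nat_lit 2],[nat_lit 2,nat_lit 3,nat_lit 8],[nat_lit 2,nat_lit 3,nat_lit 9],[nat_lit 2,nat_lit 8,nat_lit 8],
    [nat_lit 2,nat_lit 9,nat_lit 8],[nat_lit 2,nat_lit 9,nat_lit 9],[nat_lit 2,nat_lit 12,nat_lit 14],[nat_lit 2,
    nat_lit 13,nat_lit 14],[nat_lit 2,nat_lit 13,nat_lit 15],[nat_lit 2,nat_lit 14,nat_lit 12],[nat_lit 2,nat_lit 14,
    nat_lit 13],[nat_lit 2,nat_lit 15,nat_lit 12],[nat_lit 2,nat_lit 15,nat_lit 13],[nat_lit 3,nat_lit 3,nat_lit 3],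
    [nat_lit 3,nat_lit 8,nat_lit 8],[nat_lit 3,nat_lit 9,nat_lit 8],[nat_lit 3,nat_lit 9,nat_lit 9],[nat_lit 3,
    nat_lit 12,nat_lit 14],[nat_lit 3,nat_lit 12,nat_lit 15],[nat_lit 3,nat_lit 13,nat_lit 14],[nat_lit 3,nat_lit 13,
    nat_lit 15],[nat_lit 3,nat_lit 14,nat_lit 12],[nat_lit 3,nat_lit 15,nat_lit 12],[nat_lit 3,nat_lit 15,nat_lit 13],
    [nat_lit 4,nat_lit 10,nat_lit 12],[nat_lit 4,nat_lit 11,nat_lit 12],[nat_lit 4,nat_lit 13,nat_lit 11],[nat_lit 4,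
    nat_lit 14],[nat_lit 4,nat_lit 15],[nat_lit 5,nat_lit 10,nat_lit 12],[nat_lit 5,nat_lit 13,nat_lit 10],[nat_lit 5,
    nat_lit 13,nat_lit 11],[nat_lit 5,nat_lit 14],[nat_lit 5,nat_lit 15],[nat_lit 6,nat_lit 10],[nat_lit 6,
    nat_lit 11],[nat_lit 7,nat_lit 10],[nat_lit 7,nat_lit 11],[nat_lit 8,nat_lit 8,nat_lit 8],[nat_lit 8,nat_lit 10,
    nat_lit 12,nat_lit 12],[nat_lit 8,nat_lit 12,nat_lit 14],[nat_lit 8,nat_lit 13,nat_lit 14],[nat_lit 8,nat_lit 13,
    nat_lit 15],[nat_lit 8,nat_lit 14,nat_lit 12],[nat_lit 8,nat_lit 14,nat_lit 13],[nat_lit 8,nat_lit 15,nat_lit 12],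
    [nat_lit 8,nat_lit 15,nat_lit 13],[nat_lit 9,nat_lit 9,nat_lit 9],[nat_lit 9,nat_lit 12,nat_lit 14],[nat_lit 9,
    nat_lit 12,nat_lit 15],[nat_lit 9,nat_lit 13,nat_lit 13,nat_lit 11],[nat_lit 9,nat_lit 13,nat_lit 14],[nat_lit 9,
    nat_lit 13,nat_lit 15],[nat_lit 9,nat_lit 14,nat_lit 12],[nat_lit 9,nat_lit 15,nat_lit 12],[nat_lit 9,nat_lit 15,
    nat_lit 13]]
    [nat_lit 0x1007,nat_lit 0x1034,nat_lit 0x1058,nat_lit 0x1061,nat_lit 0x1070,nat_lit 0x1071,nat_lit 0x1084,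
    nat_lit 0x1085,nat_lit 0x1094,nat_lit 0x1116,nat_lit 0x1149,nat_lit 0x1152,nat_lit 0x1158,nat_lit 0x1159,
    nat_lit 0x1161,nat_lit 0x1194,nat_lit 0x1222,nat_lit 0x1238,nat_lit 0x1239,nat_lit 0x1288,nat_lit 0x1298,
    nat_lit 0x1299,nat_lit 0x12ce,nat_lit 0x12de,nat_lit 0x12df,nat_lit 0x12ec,nat_lit 0x12ed,nat_lit 0x12fc,
    nat_lit 0x12fd,nat_lit 0x1333,nat_lit 0x1388,nat_lit 0x1398,nat_lit 0x1399,nat_lit 0x13ce,nat_lit 0x13cf,
    nat_lit 0x13de,nat_lit 0x13df,nat_lit 0x13ec,nat_lit 0x13fc,nat_lit 0x13fd,nat_lit 0x14ac,nat_lit 0x14bc,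
    nat_lit 0x14db,nat_lit 334,nat_lit 335,nat_lit 0x15ac,nat_lit 0x15da,nat_lit 0x15db,nat_lit 350,nat_lit 351,
    nat_lit 362,nat_lit 363,nat_lit 378,nat_lit 379,nat_lit 0x1888,nat_lit 0x18acc,nat_lit 0x18ce,nat_lit 0x18de,
    nat_lit 0x18df,nat_lit 0x18ec,nat_lit 0x18ed,nat_lit 0x18fc,nat_lit 0x18fd,nat_lit 0x1999,nat_lit 0x19ce,
    nat_lit 0x19cf,nat_lit 0x19ddb,nat_lit 0x19de,nat_lit 0x19df,nat_lit 0x19ec,nat_lit 0x19fc,nat_lit 0x19fd]
    [[[nat_lit 0,nat_lit 0,nat_lit 7],[nat_lit 0,nat_lit 3,nat_lit 4],[nat_lit 0,nat_lit 5,nat_lit 8],[nat_lit 0,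
    nat_lit 6,nat_lit 1],[nat_lit 0,nat_lit 7,nat_lit 0],[nat_lit 0,nat_lit 7,nat_lit 1],[nat_lit 0,nat_lit 8,
    nat_lit 4],[nat_lit 0,nat_lit 8,nat_lit 5],[nat_lit 0,nat_lit 9,nat_lit 4],[nat_lit 1,nat_lit 0,nat_lit 6],
    [nat_lit 1,nat_lit 0,nat_lit 7],[nat_lit 1,nat_lit 1,nat_lit 6]],[[nat_lit 1,nat_lit 4,nat_lit 9],[nat_lit 1,
    nat_lit 5,nat_lit 2],[nat_lit 1,nat_lit 5,nat_lit 8],[nat_lit 1,nat_lit 5,nat_lit 9],[nat_lit 1,nat_lit 6,
    nat_lit 1],[nat_lit 1,nat_lit 9,nat_lit 4],[nat_lit 2,nat_lit 1,nat_lit 5],[nat_lit 2,nat_lit 2,nat_lit 2],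
    [nat_lit 2,nat_lit 3,nat_lit 8],[nat_lit 2,nat_lit 3,nat_lit 9],[nat_lit 2,nat_lit 8,nat_lit 8],[nat_lit 2,
    nat_lit 9,nat_lit 8]],[[nat_lit 2,nat_lit 9,nat_lit 9],[nat_lit 2,nat_lit 12,nat_lit 14],[nat_lit 2,nat_lit 13,
    nat_lit 14],[nat_lit 2,nat_lit 13,nat_lit 15],[nat_lit 2,nat_lit 14,nat_lit 12],[nat_lit 2,nat_lit 14,nat_lit 13],
    [nat_lit 2,nat_lit 15,nat_lit 12],[nat_lit 2,nat_lit 15,nat_lit 13],[nat_lit 3,nat_lit 3,nat_lit 3],[nat_lit 3,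
    nat_lit 4,nat_lit 0],[nat_lit 3,nat_lit 8,nat_lit 2],[nat_lit 3,nat_lit 8,nat_lit 8]],[[nat_lit 3,nat_lit 9,
    nat_lit 2],[nat_lit 3,nat_lit 9,nat_lit 8],[nat_lit 3,nat_lit 9,nat_lit 9],[nat_lit 3,nat_lit 12,nat_lit 14],
    [nat_lit 3,nat_lit 12,nat_lit 15],[nat_lit 3,nat_lit 13,nat_lit 14],[nat_lit 3,nat_lit 13,nat_lit 15],[nat_lit 3,
    nat_lit 14,nat_lit 12],[nat_lit 3,nat_lit 15,nat_lit 12],[nat_lit 3,nat_lit 15,nat_lit 13],[nat_lit 4,nat_lit 0,
    nat_lit 3],[nat_lit 4,nat_lit 0,nat_lit 8]],[[nat_lit 4,nat_lit 0,nat_lit 9],[nat_lit 4,nat_lit 1,nat_lit 9],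
    [nat_lit 4,nat_lit 9,nat_lit 1],[nat_lit 4,nat_lit 10,nat_lit 12],[nat_lit 4,nat_lit 11,nat_lit 12],[nat_lit 4,
    nat_lit 13,nat_lit 11],[nat_lit 4,nat_lit 14],[nat_lit 4,nat_lit 15],[nat_lit 5,nat_lit 0,nat_lit 8],[nat_lit 5,
    nat_lit 2,nat_lit 1],[nat_lit 5,nat_lit 8,nat_lit 0],[nat_lit 5,nat_lit 8,nat_lit 1]],[[nat_lit 5,nat_lit 9,
    nat_lit 1],[nat_lit 5,nat_lit 10,nat_lit 12],[nat_lit 5,nat_lit 13,nat_lit 10],[nat_lit 5,nat_lit 13,nat_lit 11],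
    [nat_lit 5,nat_lit 14],[nat_lit 5,nat_lit 15],[nat_lit 6,nat_lit 1,nat_lit 0],[nat_lit 6,nat_lit 1,nat_lit 1],
    [nat_lit 6,nat_lit 10],[nat_lit 6,nat_lit 11],[nat_lit 7,nat_lit 0,nat_lit 0],[nat_lit 7,nat_lit 1,nat_lit 0]],
    [[nat_lit 7,nat_lit 10],[nat_lit 7,nat_lit 11],[nat_lit 8,nat_lit 0,nat_lit 5],[nat_lit 8,nat_lit 1,nat_lit 5],
    [nat_lit 8,nat_lit 2,nat_lit 3],[nat_lit 8,nat_lit 2,nat_lit 8],[nat_lit 8,nat_lit 2,nat_lit 9],[nat_lit 8,
    nat_lit 3,nat_lit 8],[nat_lit 8,nat_lit 3,nat_lit 9],[nat_lit 8,nat_lit 4,nat_lit 0],[nat_lit 8,nat_lit 5,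
    nat_lit 0],[nat_lit 8,nat_lit 8,nat_lit 2]],[[nat_lit 8,nat_lit 8,nat_lit 3],[nat_lit 8,nat_lit 8,nat_lit 8],
    [nat_lit 8,nat_lit 10,nat_lit 12,nat_lit 12],[nat_lit 8,nat_lit 12,nat_lit 14],[nat_lit 8,nat_lit 13,nat_lit 14],
    [nat_lit 8,nat_lit 13,nat_lit 15],[nat_lit 8,nat_lit 14,nat_lit 12],[nat_lit 8,nat_lit 14,nat_lit 13],[nat_lit 8,
    nat_lit 15,nat_lit 12],[nat_lit 8,nat_lit 15,nat_lit 13],[nat_lit 9,nat_lit 1,nat_lit 4],[nat_lit 9,nat_lit 1,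
    nat_lit 5]],[[nat_lit 9,nat_lit 2,nat_lit 3],[nat_lit 9,nat_lit 2,nat_lit 9],[nat_lit 9,nat_lit 3,nat_lit 9],
    [nat_lit 9,nat_lit 4,nat_lit 0],[nat_lit 9,nat_lit 4,nat_lit 1],[nat_lit 9,nat_lit 8,nat_lit 2],[nat_lit 9,
    nat_lit 8,nat_lit 3],[nat_lit 9,nat_lit 9,nat_lit 2],[nat_lit 9,nat_lit 9,nat_lit 3],[nat_lit 9,nat_lit 9,
    nat_lit 9],[nat_lit 9,nat_lit 12,nat_lit 14],[nat_lit 9,nat_lit 12,nat_lit 15]],[[nat_lit 9,nat_lit 13,nat_lit 13,
    nat_lit 11],[nat_lit 9,nat_lit 13,nat_lit 14],[nat_lit 9,nat_lit 13,nat_lit 15],[nat_lit 9,nat_lit 14,nat_lit 12],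
    [nat_lit 9,nat_lit 15,nat_lit 12],[nat_lit 9,nat_lit 15,nat_lit 13],[nat_lit 10,nat_lit 5,nat_lit 13],[nat_lit 10,
    nat_lit 6],[nat_lit 10,nat_lit 7],[nat_lit 10,nat_lit 12,nat_lit 4],[nat_lit 10,nat_lit 12,nat_lit 5],[nat_lit 10,
    nat_lit 12,nat_lit 12,nat_lit 8]],[[nat_lit 11,nat_lit 4,nat_lit 13],[nat_lit 11,nat_lit 5,nat_lit 13],
    [nat_lit 11,nat_lit 6],[nat_lit 11,nat_lit 7],[nat_lit 11,nat_lit 9,nat_lit 13,nat_lit 13],[nat_lit 11,nat_lit 12,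
    nat_lit 4],[nat_lit 12,nat_lit 2,nat_lit 14],[nat_lit 12,nat_lit 2,nat_lit 15],[nat_lit 12,nat_lit 3,nat_lit 14],
    [nat_lit 12,nat_lit 3,nat_lit 15],[nat_lit 12,nat_lit 4,nat_lit 10],[nat_lit 12,nat_lit 4,nat_lit 11]],
    [[nat_lit 12,nat_lit 5,nat_lit 10],[nat_lit 12,nat_lit 8,nat_lit 10,nat_lit 12],[nat_lit 12,nat_lit 8,nat_lit 14],
    [nat_lit 12,nat_lit 8,nat_lit 15],[nat_lit 12,nat_lit 9,nat_lit 14],[nat_lit 12,nat_lit 9,nat_lit 15],[nat_lit 12,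
    nat_lit 12,nat_lit 8,nat_lit 10],[nat_lit 12,nat_lit 14,nat_lit 2],[nat_lit 12,nat_lit 14,nat_lit 3],[nat_lit 12,
    nat_lit 14,nat_lit 8],[nat_lit 12,nat_lit 14,nat_lit 9],[nat_lit 12,nat_lit 15,nat_lit 3]],[[nat_lit 12,
    nat_lit 15,nat_lit 9],[nat_lit 13,nat_lit 2,nat_lit 14],[nat_lit 13,nat_lit 2,nat_lit 15],[nat_lit 13,nat_lit 3,
    nat_lit 15],[nat_lit 13,nat_lit 8,nat_lit 14],[nat_lit 13,nat_lit 8,nat_lit 15],[nat_lit 13,nat_lit 9,nat_lit 15],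
    [nat_lit 13,nat_lit 10,nat_lit 5],[nat_lit 13,nat_lit 11,nat_lit 4],[nat_lit 13,nat_lit 11,nat_lit 5],[nat_lit 13,
    nat_lit 11,nat_lit 9,nat_lit 13],[nat_lit 13,nat_lit 13,nat_lit 11,nat_lit 9]],[[nat_lit 13,nat_lit 14,nat_lit 2],
    [nat_lit 13,nat_lit 14,nat_lit 3],[nat_lit 13,nat_lit 14,nat_lit 8],[nat_lit 13,nat_lit 14,nat_lit 9],[nat_lit 13,
    nat_lit 15,nat_lit 2],[nat_lit 13,nat_lit 15,nat_lit 3],[nat_lit 13,nat_lit 15,nat_lit 8],[nat_lit 13,nat_lit 15,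
    nat_lit 9],[nat_lit 14,nat_lit 2,nat_lit 12],[nat_lit 14,nat_lit 2,nat_lit 13],[nat_lit 14,nat_lit 3,nat_lit 12],
    [nat_lit 14,nat_lit 3,nat_lit 13]],[[nat_lit 14,nat_lit 4],[nat_lit 14,nat_lit 5],[nat_lit 14,nat_lit 8,
    nat_lit 12],[nat_lit 14,nat_lit 8,nat_lit 13],[nat_lit 14,nat_lit 9,nat_lit 12],[nat_lit 14,nat_lit 9,nat_lit 13],
    [nat_lit 14,nat_lit 12,nat_lit 2],[nat_lit 14,nat_lit 12,nat_lit 3],[nat_lit 14,nat_lit 12,nat_lit 8],[nat_lit 14,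
    nat_lit 12,nat_lit 9],[nat_lit 14,nat_lit 13,nat_lit 2],[nat_lit 14,nat_lit 13,nat_lit 8]],[[nat_lit 15,nat_lit 2,
    nat_lit 13],[nat_lit 15,nat_lit 3,nat_lit 12],[nat_lit 15,nat_lit 3,nat_lit 13],[nat_lit 15,nat_lit 4],
    [nat_lit 15,nat_lit 5],[nat_lit 15,nat_lit 8,nat_lit 13],[nat_lit 15,nat_lit 9,nat_lit 12],[nat_lit 15,nat_lit 9,
    nat_lit 13],[nat_lit 15,nat_lit 12,nat_lit 2],[nat_lit 15,nat_lit 12,nat_lit 3],[nat_lit 15,nat_lit 12,nat_lit 8],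
    [nat_lit 15,nat_lit 12,nat_lit 9]],[[nat_lit 15,nat_lit 13,nat_lit 2],[nat_lit 15,nat_lit 13,nat_lit 3],
    [nat_lit 15,nat_lit 13,nat_lit 8],[nat_lit 15,nat_lit 13,nat_lit 9]]]
    [[nat_lit 4,nat_lit 33,nat_lit 58,nat_lit 66,nat_lit 70,nat_lit 71,nat_lit 81,nat_lit 82,nat_lit 99,nat_lit 3,
    nat_lit 5,nat_lit 16],[nat_lit 50,nat_lit 57,nat_lit 59,nat_lit 60,nat_lit 67,nat_lit 100,nat_lit 13,nat_lit 19,
    nat_lit 34,nat_lit 36,nat_lit 83,nat_lit 101],[nat_lit 103,nat_lit 139,nat_lit 156,nat_lit 160,nat_lit 174,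
    nat_lit 178,nat_lit 188,nat_lit 192,nat_lit 32,nat_lit 46,nat_lit 76,nat_lit 84],[nat_lit 96,nat_lit 102,
    nat_lit 104,nat_lit 140,nat_lit 143,nat_lit 157,nat_lit 161,nat_lit 175,nat_lit 189,nat_lit 193,nat_lit 1,
    nat_lit 6],[nat_lit 8,nat_lit 17,nat_lit 94,nat_lit 117,nat_lit 125,nat_lit 152,nat_lit 168,nat_lit 183,nat_lit 7,
    nat_lit 18,nat_lit 74,nat_lit 75],[nat_lit 95,nat_lit 118,nat_lit 151,nat_lit 153,nat_lit 169,nat_lit 184,
    nat_lit 9,nat_lit 11,nat_lit 115,nat_lit 122,nat_lit 0,nat_lit 10],[nat_lit 116,nat_lit 123,nat_lit 2,nat_lit 14,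
    nat_lit 20,nat_lit 22,nat_lit 23,nat_lit 35,nat_lit 37,nat_lit 47,nat_lit 56,nat_lit 77],[nat_lit 79,nat_lit 85,
    nat_lit 119,nat_lit 141,nat_lit 158,nat_lit 162,nat_lit 176,nat_lit 179,nat_lit 190,nat_lit 194,nat_lit 12,
    nat_lit 15],[nat_lit 21,nat_lit 24,nat_lit 38,nat_lit 48,nat_lit 49,nat_lit 78,nat_lit 80,nat_lit 97,nat_lit 98,
    nat_lit 105,nat_lit 142,nat_lit 144],[nat_lit 155,nat_lit 159,nat_lit 163,nat_lit 177,nat_lit 191,nat_lit 195,
    nat_lit 62,nat_lit 68,nat_lit 72,nat_lit 130,nat_lit 132,nat_lit 138],[nat_lit 53,nat_lit 63,nat_lit 69,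
    nat_lit 73,nat_lit 108,nat_lit 131,nat_lit 28,nat_lit 30,nat_lit 43,nat_lit 44,nat_lit 51,nat_lit 52],[nat_lit 61,
    nat_lit 86,nat_lit 90,nat_lit 92,nat_lit 111,nat_lit 112,nat_lit 133,nat_lit 164,nat_lit 166,nat_lit 170,
    nat_lit 172,nat_lit 181],[nat_lit 186,nat_lit 29,nat_lit 31,nat_lit 45,nat_lit 91,nat_lit 93,nat_lit 113,
    nat_lit 114,nat_lit 120,nat_lit 121,nat_lit 124,nat_lit 154],[nat_lit 165,nat_lit 167,nat_lit 171,nat_lit 173,
    nat_lit 180,nat_lit 182,nat_lit 185,nat_lit 187,nat_lit 25,nat_lit 26,nat_lit 39,nat_lit 41],[nat_lit 54,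
    nat_lit 64,nat_lit 87,nat_lit 88,nat_lit 106,nat_lit 109,nat_lit 126,nat_lit 128,nat_lit 134,nat_lit 136,
    nat_lit 145,nat_lit 148],[nat_lit 27,nat_lit 40,nat_lit 42,nat_lit 55,nat_lit 65,nat_lit 89,nat_lit 107,
    nat_lit 110,nat_lit 127,nat_lit 129,nat_lit 135,nat_lit 137],[nat_lit 146,nat_lit 147,nat_lit 149,nat_lit 150]]
    [[nat_lit 70,nat_lit 46,nat_lit 74,nat_lit 9,nat_lit 0,nat_lit 10,nat_lit 47,nat_lit 56,nat_lit 48,nat_lit 66,
    nat_lit 71,nat_lit 67],[nat_lit 94,nat_lit 18,nat_lit 75,nat_lit 95,nat_lit 11,nat_lit 49,nat_lit 57,nat_lit 19,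
    nat_lit 76,nat_lit 96,nat_lit 77,nat_lit 78],[nat_lit 97,nat_lit 164,nat_lit 165,nat_lit 180,nat_lit 126,
    nat_lit 145,nat_lit 127,nat_lit 146,nat_lit 32,nat_lit 1,nat_lit 20,nat_lit 79],[nat_lit 21,nat_lit 80,nat_lit 98,
    nat_lit 166,nat_lit 181,nat_lit 167,nat_lit 182,nat_lit 128,nat_lit 129,nat_lit 147,nat_lit 33,nat_lit 81],
    [nat_lit 99,nat_lit 100,nat_lit 12,nat_lit 130,nat_lit 131,nat_lit 120,nat_lit 168,nat_lit 183,nat_lit 82,
    nat_lit 13,nat_lit 2,nat_lit 14],[nat_lit 15,nat_lit 132,nat_lit 114,nat_lit 121,nat_lit 169,nat_lit 184,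
    nat_lit 3,nat_lit 16,nat_lit 115,nat_lit 122,nat_lit 4,nat_lit 5],[nat_lit 116,nat_lit 123,nat_lit 58,nat_lit 59,
    nat_lit 34,nat_lit 83,nat_lit 101,nat_lit 84,nat_lit 102,nat_lit 6,nat_lit 7,nat_lit 22],[nat_lit 35,nat_lit 85,
    nat_lit 133,nat_lit 170,nat_lit 171,nat_lit 185,nat_lit 134,nat_lit 148,nat_lit 135,nat_lit 149,nat_lit 50,
    nat_lit 60],[nat_lit 36,nat_lit 103,nat_lit 104,nat_lit 8,nat_lit 17,nat_lit 23,nat_lit 37,nat_lit 24,nat_lit 38,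
    nat_lit 105,nat_lit 172,nat_lit 186],[nat_lit 124,nat_lit 173,nat_lit 187,nat_lit 136,nat_lit 137,nat_lit 150,
    nat_lit 151,nat_lit 68,nat_lit 72,nat_lit 51,nat_lit 61,nat_lit 86],[nat_lit 152,nat_lit 153,nat_lit 69,
    nat_lit 73,nat_lit 154,nat_lit 52,nat_lit 174,nat_lit 188,nat_lit 175,nat_lit 189,nat_lit 117,nat_lit 125],
    [nat_lit 118,nat_lit 138,nat_lit 176,nat_lit 190,nat_lit 177,nat_lit 191,nat_lit 119,nat_lit 25,nat_lit 39,
    nat_lit 87,nat_lit 106,nat_lit 40],[nat_lit 107,nat_lit 178,nat_lit 192,nat_lit 193,nat_lit 179,nat_lit 194,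
    nat_lit 195,nat_lit 62,nat_lit 53,nat_lit 63,nat_lit 155,nat_lit 108],[nat_lit 26,nat_lit 41,nat_lit 88,
    nat_lit 109,nat_lit 27,nat_lit 42,nat_lit 89,nat_lit 110,nat_lit 139,nat_lit 156,nat_lit 140,nat_lit 157],
    [nat_lit 54,nat_lit 64,nat_lit 141,nat_lit 158,nat_lit 142,nat_lit 159,nat_lit 28,nat_lit 43,nat_lit 90,
    nat_lit 111,nat_lit 29,nat_lit 91],[nat_lit 160,nat_lit 143,nat_lit 161,nat_lit 55,nat_lit 65,nat_lit 162,
    nat_lit 144,nat_lit 163,nat_lit 30,nat_lit 44,nat_lit 92,nat_lit 112],[nat_lit 31,nat_lit 45,nat_lit 93,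
    nat_lit 113]]
    [[[nat_lit 174,nat_lit 178],[],[nat_lit 175],[nat_lit 176,nat_lit 179],[nat_lit 169],[nat_lit 169],[],[],[],
    [nat_lit 34,nat_lit 36],[nat_lit 34,nat_lit 36],[nat_lit 40,nat_lit 42]],[[],[nat_lit 32],[nat_lit 32],
    [nat_lit 32],[nat_lit 35,nat_lit 37],[],[],[nat_lit 1,nat_lit 6,nat_lit 8],[nat_lit 3,nat_lit 5],[nat_lit 3,
    nat_lit 5],[],[nat_lit 0]],[[nat_lit 0],[],[],[],[nat_lit 4],[nat_lit 4],[],[],[nat_lit 57,nat_lit 59,nat_lit 60],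
    [],[nat_lit 62],[nat_lit 62]],[[],[],[],[nat_lit 64],[nat_lit 64],[nat_lit 63],[nat_lit 63],[nat_lit 58],[],[],
    [nat_lit 19],[nat_lit 19]],[[nat_lit 19],[nat_lit 27],[],[nat_lit 28,nat_lit 30],[nat_lit 21,nat_lit 24],[],[],
    [nat_lit 29,nat_lit 31],[],[],[nat_lit 72],[nat_lit 72]],[[],[],[nat_lit 73],[nat_lit 73],[nat_lit 70,nat_lit 71],
    [],[nat_lit 55],[nat_lit 55],[nat_lit 51,nat_lit 52],[nat_lit 48,nat_lit 49],[nat_lit 101,nat_lit 103],
    [nat_lit 107,nat_lit 110]],[[nat_lit 111,nat_lit 112],[nat_lit 97,nat_lit 98,nat_lit 105],[],[],[],[],[],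
    [nat_lit 67],[nat_lit 67],[],[],[nat_lit 68]],[[nat_lit 68],[nat_lit 68],[],[],[nat_lit 69],[nat_lit 69],
    [nat_lit 66],[nat_lit 66],[],[],[],[]],[[nat_lit 125],[nat_lit 125],[],[nat_lit 122],[nat_lit 122],[],[],
    [nat_lit 123],[nat_lit 123],[nat_lit 123],[],[]],[[],[],[],[],[nat_lit 120,nat_lit 121,nat_lit 124],[nat_lit 120,
    nat_lit 121,nat_lit 124],[nat_lit 76,nat_lit 84],[nat_lit 77,nat_lit 79,nat_lit 85],[nat_lit 74,nat_lit 75],
    [nat_lit 87,nat_lit 88],[nat_lit 87,nat_lit 88],[nat_lit 87,nat_lit 88]],[[],[nat_lit 157,nat_lit 161],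
    [nat_lit 158,nat_lit 162],[nat_lit 151,nat_lit 153],[],[nat_lit 145,nat_lit 148],[nat_lit 117],[nat_lit 117],[],
    [],[nat_lit 115],[nat_lit 115]],[[],[],[],[],[nat_lit 116],[nat_lit 116],[],[],[],[],[],[nat_lit 114]],
    [[nat_lit 114],[nat_lit 183],[nat_lit 183],[],[],[],[],[nat_lit 181,nat_lit 186],[nat_lit 191,nat_lit 195],
    [nat_lit 191,nat_lit 195],[nat_lit 191,nat_lit 195],[]],[[],[],[],[],[nat_lit 180,nat_lit 182,nat_lit 185,
    nat_lit 187],[nat_lit 180,nat_lit 182,nat_lit 185,nat_lit 187],[nat_lit 180,nat_lit 182,nat_lit 185,nat_lit 187],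
    [nat_lit 180,nat_lit 182,nat_lit 185,nat_lit 187],[],[],[],[]],[[],[nat_lit 140,nat_lit 143],[nat_lit 130,
    nat_lit 132,nat_lit 138],[nat_lit 130,nat_lit 132,nat_lit 138],[],[],[nat_lit 126,nat_lit 128,nat_lit 134,
    nat_lit 136],[nat_lit 126,nat_lit 128,nat_lit 134,nat_lit 136],[nat_lit 126,nat_lit 128,nat_lit 134,nat_lit 136],
    [nat_lit 126,nat_lit 128,nat_lit 134,nat_lit 136],[nat_lit 131],[nat_lit 131]],[[nat_lit 17],[nat_lit 16],
    [nat_lit 16],[nat_lit 9,nat_lit 11],[],[],[nat_lit 10],[nat_lit 10],[],[],[],[]],[[],[],[],[]]]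
    (nat_lit 196) [nat_lit 0,nat_lit 1,nat_lit 2,nat_lit 3,nat_lit 4,nat_lit 5,nat_lit 6,nat_lit 7,nat_lit 8,
    nat_lit 11,nat_lit 12,nat_lit 13,nat_lit 14,nat_lit 15,nat_lit 16,nat_lit 17,nat_lit 19,nat_lit 20,nat_lit 21,
    nat_lit 22,nat_lit 23,nat_lit 24,nat_lit 25,nat_lit 26,nat_lit 27,nat_lit 28,nat_lit 29,nat_lit 30,nat_lit 31,
    nat_lit 32,nat_lit 35,nat_lit 37,nat_lit 38,nat_lit 39,nat_lit 40,nat_lit 41,nat_lit 42,nat_lit 43,nat_lit 44,
    nat_lit 45,nat_lit 51,nat_lit 52,nat_lit 53,nat_lit 54,nat_lit 55,nat_lit 61,nat_lit 62,nat_lit 63,nat_lit 64,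
    nat_lit 65,nat_lit 68,nat_lit 69,nat_lit 72,nat_lit 73,nat_lit 85,nat_lit 86,nat_lit 87,nat_lit 88,nat_lit 89,
    nat_lit 90,nat_lit 91,nat_lit 92,nat_lit 93,nat_lit 105,nat_lit 106,nat_lit 107,nat_lit 108,nat_lit 109,
    nat_lit 110,nat_lit 111,nat_lit 112,nat_lit 113]
    [[[nat_lit 4],[nat_lit 3,nat_lit 5],[],[],[nat_lit 1,nat_lit 6,nat_lit 8],[nat_lit 7],[],[nat_lit 0],[nat_lit 2],
    [],[],[],[],[],[],[]],[[],[nat_lit 16],[nat_lit 13],[],[nat_lit 17],[],[nat_lit 9,nat_lit 11],[nat_lit 10],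
    [nat_lit 14],[nat_lit 12,nat_lit 15],[],[],[],[],[],[]],[[],[],[nat_lit 19],[],[],[nat_lit 18],[],[],[nat_lit 20,
    nat_lit 22,nat_lit 23],[nat_lit 21,nat_lit 24],[],[],[nat_lit 28,nat_lit 30],[nat_lit 29,nat_lit 31],[nat_lit 25,
    nat_lit 26],[nat_lit 27]],[[nat_lit 33],[],[nat_lit 34,nat_lit 36],[nat_lit 32],[],[],[],[],[nat_lit 35,
    nat_lit 37],[nat_lit 38],[],[],[nat_lit 43,nat_lit 44],[nat_lit 45],[nat_lit 39,nat_lit 41],[nat_lit 40,
    nat_lit 42]],[[],[nat_lit 50],[],[nat_lit 46],[],[],[],[],[nat_lit 47],[nat_lit 48,nat_lit 49],[],[nat_lit 53],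
    [nat_lit 51,nat_lit 52],[],[nat_lit 54],[nat_lit 55]],[[nat_lit 58],[nat_lit 57,nat_lit 59,nat_lit 60],[],[],[],
    [],[],[],[nat_lit 56],[],[nat_lit 62],[nat_lit 63],[nat_lit 61],[],[nat_lit 64],[nat_lit 65]],[[nat_lit 66],
    [nat_lit 67],[],[],[],[],[],[],[],[],[nat_lit 68],[nat_lit 69],[],[],[],[]],[[nat_lit 70,nat_lit 71],[],[],[],[],
    [],[],[],[],[],[nat_lit 72],[nat_lit 73],[],[],[],[]],[[nat_lit 81,nat_lit 82],[],[nat_lit 83],[nat_lit 76,
    nat_lit 84],[],[nat_lit 74,nat_lit 75],[],[],[nat_lit 77,nat_lit 79,nat_lit 85],[nat_lit 78,nat_lit 80],[],[],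
    [nat_lit 86,nat_lit 90,nat_lit 92],[nat_lit 91,nat_lit 93],[nat_lit 87,nat_lit 88],[nat_lit 89]],[[nat_lit 99],
    [nat_lit 100],[nat_lit 101,nat_lit 103],[nat_lit 96,nat_lit 102,nat_lit 104],[nat_lit 94],[nat_lit 95],[],[],[],
    [nat_lit 97,nat_lit 98,nat_lit 105],[],[nat_lit 108],[nat_lit 111,nat_lit 112],[nat_lit 113],[nat_lit 106,
    nat_lit 109],[nat_lit 107,nat_lit 110]],[[],[],[],[],[nat_lit 117],[nat_lit 118],[nat_lit 115],[nat_lit 116],
    [nat_lit 119],[],[],[],[],[nat_lit 114],[],[]],[[],[],[],[],[nat_lit 125],[],[nat_lit 122],[nat_lit 123],[],[],[],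
    [],[],[nat_lit 120,nat_lit 121,nat_lit 124],[],[]],[[],[],[nat_lit 139],[nat_lit 140,nat_lit 143],[],[],[],[],
    [nat_lit 141],[nat_lit 142,nat_lit 144],[nat_lit 130,nat_lit 132,nat_lit 138],[nat_lit 131],[nat_lit 133],[],
    [nat_lit 126,nat_lit 128,nat_lit 134,nat_lit 136],[nat_lit 127,nat_lit 129,nat_lit 135,nat_lit 137]],[[],[],
    [nat_lit 156,nat_lit 160],[nat_lit 157,nat_lit 161],[nat_lit 152],[nat_lit 151,nat_lit 153],[],[],[nat_lit 158,
    nat_lit 162],[nat_lit 155,nat_lit 159,nat_lit 163],[],[],[],[nat_lit 154],[nat_lit 145,nat_lit 148],[nat_lit 146,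
    nat_lit 147,nat_lit 149,nat_lit 150]],[[],[],[nat_lit 174,nat_lit 178],[nat_lit 175],[nat_lit 168],[nat_lit 169],
    [],[],[nat_lit 176,nat_lit 179],[nat_lit 177],[],[],[nat_lit 164,nat_lit 166,nat_lit 170,nat_lit 172],
    [nat_lit 165,nat_lit 167,nat_lit 171,nat_lit 173],[],[]],[[],[],[nat_lit 188,nat_lit 192],[nat_lit 189,
    nat_lit 193],[nat_lit 183],[nat_lit 184],[],[],[nat_lit 190,nat_lit 194],[nat_lit 191,nat_lit 195],[],[],
    [nat_lit 181,nat_lit 186],[nat_lit 180,nat_lit 182,nat_lit 185,nat_lit 187],[],[]]]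
    [[[nat_lit 0x440000000000000000000000000000000000000000000,nat_lit 0,
    nat_lit 0x80000000000000000000000000000000000000000000,nat_lit 0x900000000000000000000000000000000000000000000,
    nat_lit 0x2000000000000000000000000000000000000000000,nat_lit 0x2000000000000000000000000000000000000000000,
    nat_lit 0,nat_lit 0,nat_lit 0],[nat_lit 0x1400000000,nat_lit 0x1400000000,nat_lit 0x50000000000,nat_lit 0,
    nat_lit 0x100000000,nat_lit 0x100000000,nat_lit 0x100000000,nat_lit 0x2800000000,nat_lit 0],[nat_lit 0,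
    nat_lit 322,nat_lit 40,nat_lit 40,nat_lit 0,nat_lit 1,nat_lit 1,nat_lit 0,nat_lit 0],[nat_lit 0,nat_lit 16,
    nat_lit 16,nat_lit 0,nat_lit 0,nat_lit 0x1a00000000000000,nat_lit 0,nat_lit 0x4000000000000000,
    nat_lit 0x4000000000000000],[nat_lit 0,nat_lit 0,nat_lit 0,nat_lit 0x10000000000000000,
    nat_lit 0x10000000000000000,nat_lit 0x8000000000000000,nat_lit 0x8000000000000000,nat_lit 0x400000000000000,
    nat_lit 0],[nat_lit 0,nat_lit 0x80000,nat_lit 0x80000,nat_lit 0x80000,nat_lit 0x8000000,nat_lit 0,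
    nat_lit 0x50000000,nat_lit 0x1200000,nat_lit 0],[nat_lit 0,nat_lit 0xa0000000,nat_lit 0,nat_lit 0,
    nat_lit 0x1000000000000000000,nat_lit 0x1000000000000000000,nat_lit 0,nat_lit 0,nat_lit 0x2000000000000000000],
    [nat_lit 0x2000000000000000000,nat_lit 0xc00000000000000000,nat_lit 0,nat_lit 0x80000000000000,
    nat_lit 0x80000000000000,nat_lit 0x18000000000000,nat_lit 0x3000000000000,nat_lit 0xa0000000000000000000000000,
    nat_lit 0x4800000000000000000000000000],[nat_lit 0x18000000000000000000000000000,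
    nat_lit 0x206000000000000000000000000,nat_lit 0,nat_lit 0,nat_lit 0,nat_lit 0,nat_lit 0,
    nat_lit 0x80000000000000000,nat_lit 0x80000000000000000]],[[nat_lit 0,nat_lit 0,nat_lit 0x100000000000000000,
    nat_lit 0x100000000000000000,nat_lit 0x100000000000000000,nat_lit 0,nat_lit 0,nat_lit 0x200000000000000000,
    nat_lit 0x200000000000000000],[nat_lit 0x40000000000000000,nat_lit 0x40000000000000000,nat_lit 0,nat_lit 0,
    nat_lit 0,nat_lit 0,nat_lit 0x20000000000000000000000000000000,nat_lit 0x20000000000000000000000000000000,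
    nat_lit 0],[nat_lit 0x4000000000000000000000000000000,nat_lit 0x4000000000000000000000000000000,nat_lit 0,
    nat_lit 0,nat_lit 0x8000000000000000000000000000000,nat_lit 0x8000000000000000000000000000000,
    nat_lit 0x8000000000000000000000000000000,nat_lit 0,nat_lit 0],[nat_lit 0,nat_lit 0,nat_lit 0,nat_lit 0,
    nat_lit 0x13000000000000000000000000000000,nat_lit 0x13000000000000000000000000000000,
    nat_lit 0x1010000000000000000000,nat_lit 0x20a0000000000000000000,nat_lit 0xc000000000000000000],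
    [nat_lit 0x18000000000000000000000,nat_lit 0x18000000000000000000000,nat_lit 0x18000000000000000000000,nat_lit 0,
    nat_lit 0x22000000000000000000000000000000000000000,nat_lit 0x44000000000000000000000000000000000000000,
    nat_lit 0x280000000000000000000000000000000000000,nat_lit 0,nat_lit 0x12000000000000000000000000000000000000],
    [nat_lit 0x200000000000000000000000000000,nat_lit 0x200000000000000000000000000000,nat_lit 0,nat_lit 0,
    nat_lit 0x80000000000000000000000000000,nat_lit 0x80000000000000000000000000000,nat_lit 0,nat_lit 0,nat_lit 0],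
    [nat_lit 0,nat_lit 0x100000000000000000000000000000,nat_lit 0x100000000000000000000000000000,nat_lit 0,nat_lit 0,
    nat_lit 0,nat_lit 0,nat_lit 0,nat_lit 0x40000000000000000000000000000],[nat_lit 0x40000000000000000000000000000,
    nat_lit 0x8000000000000000000000000000000000000000000000,nat_lit 0x8000000000000000000000000000000000000000000000,
    nat_lit 0,nat_lit 0,nat_lit 0,nat_lit 0,nat_lit 0x42000000000000000000000000000000000000000000000,
    nat_lit 0x8800000000000000000000000000000000000000000000000],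
    [nat_lit 0x8800000000000000000000000000000000000000000000000,
    nat_lit 0x8800000000000000000000000000000000000000000000000,nat_lit 0,nat_lit 0,nat_lit 0,nat_lit 0,nat_lit 0,
    nat_lit 0xa5000000000000000000000000000000000000000000000,
    nat_lit 0xa5000000000000000000000000000000000000000000000]],
    [[nat_lit 0xa5000000000000000000000000000000000000000000000,
    nat_lit 0xa5000000000000000000000000000000000000000000000,nat_lit 0,nat_lit 0,nat_lit 0,nat_lit 0,nat_lit 0,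
    nat_lit 0x900000000000000000000000000000000000,nat_lit 0x41400000000000000000000000000000000],
    [nat_lit 0x41400000000000000000000000000000000,nat_lit 0,nat_lit 0,nat_lit 0x14140000000000000000000000000000000,
    nat_lit 0x14140000000000000000000000000000000,nat_lit 0x14140000000000000000000000000000000,
    nat_lit 0x14140000000000000000000000000000000,nat_lit 0x800000000000000000000000000000000,
    nat_lit 0x800000000000000000000000000000000],[nat_lit 0x20000,nat_lit 0x10000,nat_lit 0x10000,nat_lit 0xa00,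
    nat_lit 0,nat_lit 0,nat_lit 0x400,nat_lit 0x400,nat_lit 0],[nat_lit 0,nat_lit 0,nat_lit 0,nat_lit 0,nat_lit 0,
    nat_lit 0,nat_lit 0]]]
    [[[[nat_lit 0x40000000000000000000000000000000000000000000,nat_lit 0,nat_lit 0,nat_lit 0,nat_lit 0,nat_lit 0,
    nat_lit 0,nat_lit 0,nat_lit 0],[nat_lit 0x1000000000,nat_lit 0x1000000000,nat_lit 0x10000000000,nat_lit 0,
    nat_lit 0,nat_lit 0,nat_lit 0,nat_lit 0,nat_lit 0],[nat_lit 0,nat_lit 0,nat_lit 40,nat_lit 0,nat_lit 0,nat_lit 0,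
    nat_lit 0,nat_lit 0,nat_lit 0],[nat_lit 0,nat_lit 0,nat_lit 16,nat_lit 0,nat_lit 0,nat_lit 0,nat_lit 0,nat_lit 0,
    nat_lit 0x4000000000000000],[nat_lit 0,nat_lit 0,nat_lit 0,nat_lit 0,nat_lit 0x10000000000000000,nat_lit 0,
    nat_lit 0,nat_lit 0,nat_lit 0],[nat_lit 0,nat_lit 0,nat_lit 0,nat_lit 0,nat_lit 0,nat_lit 0,nat_lit 0,
    nat_lit 0x1000000,nat_lit 0],[nat_lit 0,nat_lit 0x20000000,nat_lit 0,nat_lit 0,nat_lit 0,nat_lit 0,nat_lit 0,
    nat_lit 0,nat_lit 0x2000000000000000000],[nat_lit 0,nat_lit 0xc00000000000000000,nat_lit 0,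
    nat_lit 0x80000000000000,nat_lit 0x80000000000000,nat_lit 0x10000000000000,nat_lit 0,
    nat_lit 0x80000000000000000000000000,nat_lit 0x800000000000000000000000000],[nat_lit 0,
    nat_lit 0x200000000000000000000000000,nat_lit 0,nat_lit 0,nat_lit 0,nat_lit 0,nat_lit 0,
    nat_lit 0x80000000000000000,nat_lit 0]],[[nat_lit 0,nat_lit 0,nat_lit 0,nat_lit 0,nat_lit 0x100000000000000000,
    nat_lit 0,nat_lit 0,nat_lit 0,nat_lit 0],[nat_lit 0,nat_lit 0x40000000000000000,nat_lit 0,nat_lit 0,nat_lit 0,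
    nat_lit 0,nat_lit 0x20000000000000000000000000000000,nat_lit 0x20000000000000000000000000000000,nat_lit 0],
    [nat_lit 0,nat_lit 0,nat_lit 0,nat_lit 0,nat_lit 0x8000000000000000000000000000000,nat_lit 0,
    nat_lit 0x8000000000000000000000000000000,nat_lit 0,nat_lit 0],[nat_lit 0,nat_lit 0,nat_lit 0,nat_lit 0,nat_lit 0,
    nat_lit 0,nat_lit 0x1010000000000000000000,nat_lit 0x2080000000000000000000,nat_lit 0],[nat_lit 0,nat_lit 0,
    nat_lit 0,nat_lit 0,nat_lit 0x20000000000000000000000000000000000000000,nat_lit 0,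
    nat_lit 0x280000000000000000000000000000000000000,nat_lit 0,nat_lit 0x12000000000000000000000000000000000000],
    [nat_lit 0x200000000000000000000000000000,nat_lit 0,nat_lit 0,nat_lit 0,nat_lit 0x80000000000000000000000000000,
    nat_lit 0x80000000000000000000000000000,nat_lit 0,nat_lit 0,nat_lit 0],[nat_lit 0,nat_lit 0,nat_lit 0,nat_lit 0,
    nat_lit 0,nat_lit 0,nat_lit 0,nat_lit 0,nat_lit 0x40000000000000000000000000000],
    [nat_lit 0x40000000000000000000000000000,nat_lit 0,nat_lit 0,nat_lit 0,nat_lit 0,nat_lit 0,nat_lit 0,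
    nat_lit 0x2000000000000000000000000000000000000000000000,nat_lit 0],[nat_lit 0,nat_lit 0,nat_lit 0,nat_lit 0,
    nat_lit 0,nat_lit 0,nat_lit 0,nat_lit 0,nat_lit 0]],[[nat_lit 0,nat_lit 0,nat_lit 0,nat_lit 0,nat_lit 0,nat_lit 0,
    nat_lit 0,nat_lit 0,nat_lit 0],[nat_lit 0,nat_lit 0,nat_lit 0,nat_lit 0,nat_lit 0,nat_lit 0,nat_lit 0,
    nat_lit 0x800000000000000000000000000000000,nat_lit 0],[nat_lit 0,nat_lit 0,nat_lit 0x10000,nat_lit 0,nat_lit 0,
    nat_lit 0,nat_lit 0,nat_lit 0,nat_lit 0],[nat_lit 0,nat_lit 0,nat_lit 0,nat_lit 0,nat_lit 0,nat_lit 0,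
    nat_lit 0]]]]
    (nat_lit 1) (nat_lit 2) (nat_lit 18)
    [[nat_lit 2,nat_lit 3,nat_lit 18,nat_lit 0x100002,nat_lit 0x1000002,nat_lit 17,nat_lit 0x10011,nat_lit 0x1000011,
    nat_lit 0x10000011,nat_lit 257,nat_lit 0x1000101,nat_lit 0x1001,nat_lit 0x1001001,nat_lit 0x1011,nat_lit 0x11001,
    nat_lit 0x101001,nat_lit 0x10001001,nat_lit 0x10001,nat_lit 0x20001,nat_lit 0x1010001,nat_lit 0x10010001,
    nat_lit 0x100001,nat_lit 0x1100001,nat_lit 0x1000001,nat_lit 0x2000001,nat_lit 0x11000001,nat_lit 0x10000001],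
    [nat_lit 32,nat_lit 0x1000020,nat_lit 272,nat_lit 0x10110,nat_lit 0x1000110,nat_lit 0x1010,nat_lit 0x10010,
    nat_lit 0x1010010,nat_lit 0x100010,nat_lit 0x1000010,nat_lit 0x1100010,nat_lit 0x2000010,nat_lit 0x10000010,
    nat_lit 0x10010010],[nat_lit 512,nat_lit 0x10100,nat_lit 0x1010100,nat_lit 0x20100,nat_lit 0x100100,
    nat_lit 0x1000100,nat_lit 0x2000100,nat_lit 0x10010100,nat_lit 0x11000100],[nat_lit 0x2000,nat_lit 0x11000,
    nat_lit 0x1001000,nat_lit 0x2001000,nat_lit 0x11001000,nat_lit 0x10001000],[nat_lit 0x20000,nat_lit 0x10020000,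
    nat_lit 0x110000,nat_lit 0x1010000,nat_lit 0x2010000,nat_lit 0x10010000],[nat_lit 0x200000,nat_lit 0x300000,
    nat_lit 0x1200000,nat_lit 0x1100000,nat_lit 0x2100000,nat_lit 0x11100000,nat_lit 0x10100000],[nat_lit 0x2000000,
    nat_lit 0x3000000,nat_lit 0x12000000,nat_lit 0x11000000,nat_lit 0x21000000],[nat_lit 0x20000000]]
    [.c (nat_lit 1) (nat_lit 2),.c (nat_lit 0) (nat_lit 0x1004000003),.c (nat_lit 0) (nat_lit 0x2008000807),
    .c (nat_lit 4) (nat_lit 0x28c0d29587),.c (nat_lit 0) (nat_lit 0x1008600007),.c (nat_lit 0) (nat_lit 0x4600807),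
    .c (nat_lit 0) (nat_lit 0x1004010807),.c (nat_lit 0) (nat_lit 0x1004000807),.c (nat_lit 3) (nat_lit 0x4c00807),
    .c (nat_lit 0) (nat_lit 0x4600007),.c (nat_lit 0) (nat_lit 0x1008600007),.c (nat_lit 0) (nat_lit 0x18c4718cc7),
    .c (nat_lit 3) (nat_lit 0x812108e6),.c (nat_lit 0) (nat_lit 0x20806100e6),.c (nat_lit 0) (nat_lit 0x20806008e6),
    .c (nat_lit 0) (nat_lit 0x10046108e6),.c (nat_lit 0) (nat_lit 0x10806108e6),.c (nat_lit 0) (nat_lit 0x4610007),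
    .c (nat_lit 0) (nat_lit 0x1004020007),.c (nat_lit 0) (nat_lit 0x1004010007),.c (nat_lit 3) (nat_lit 0x4c10007),
    .c (nat_lit 0) (nat_lit 0x3084000007),.c (nat_lit 0) (nat_lit 0x3084000007),.c (nat_lit 0) (nat_lit 0x1004000007),
    .c (nat_lit 0) (nat_lit 0x2008000007),.c (nat_lit 0) (nat_lit 0x2004000007),.c (nat_lit 0) (nat_lit 0x2004000007),
    .c (nat_lit 2) (nat_lit 2),.c (nat_lit 0) (nat_lit 0x1004001007),.c (nat_lit 0) (nat_lit 0x4600807),
    .c (nat_lit 0) (nat_lit 0x1000718c06),.c (nat_lit 3) (nat_lit 0x1800600c06),.c (nat_lit 3) (nat_lit 0x10852100e6),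
    .c (nat_lit 0) (nat_lit 0x10807),.c (nat_lit 0) (nat_lit 0x1004010807),.c (nat_lit 0) (nat_lit 0x2080000807),
    .c (nat_lit 0) (nat_lit 0x1004000807),.c (nat_lit 0) (nat_lit 0x2080000807),.c (nat_lit 0) (nat_lit 0x2008000807),
    .c (nat_lit 0) (nat_lit 0x1000000807),.c (nat_lit 0) (nat_lit 0x4018c06),.c (nat_lit 3) (nat_lit 2),
    .c (nat_lit 0) (nat_lit 0x4610007),.c (nat_lit 3) (nat_lit 0x1800618006),.c (nat_lit 0) (nat_lit 0x1000728006),
    .c (nat_lit 0) (nat_lit 0x1080600007),.c (nat_lit 0) (nat_lit 0x1008600007),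
    .r (nat_lit 0x165b) (nat_lit 2) [nat_lit 0x2100c0000e3,nat_lit 0x518da3198c3],.c (nat_lit 0) (nat_lit 0x718006),
    .c (nat_lit 0) (nat_lit 0x300002),.c (nat_lit 4) (nat_lit 2),.c (nat_lit 3) (nat_lit 0x10852008e6),
    .r (nat_lit 0x165b) (nat_lit 2) [nat_lit 0x300ce3198e3,nat_lit 65],.c (nat_lit 3) (nat_lit 0x1885e108e6),
    .c (nat_lit 0) (nat_lit 0x20846108e6),.c (nat_lit 0) (nat_lit 0x20846108e6),.c (nat_lit 5) (nat_lit 2),
    .c (nat_lit 0) (nat_lit 0x4028006),.c (nat_lit 0) (nat_lit 0x2080010007),.c (nat_lit 0) (nat_lit 0x1004010007),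
    .c (nat_lit 0) (nat_lit 0x2008010007),.c (nat_lit 0) (nat_lit 0x1000010007),.c (nat_lit 6) (nat_lit 2),
    .c (nat_lit 3) (nat_lit 0x80c00003),.r (nat_lit 0xdbb) (nat_lit 14) [nat_lit 0x10c03198e3,nat_lit 0x318000000c3],
    .c (nat_lit 0) (nat_lit 0x208000000d),.c (nat_lit 0) (nat_lit 0x2080000007),.c (nat_lit 3) (nat_lit 0x1080c00007),
    .r (nat_lit 0xdbb) (nat_lit 14) [nat_lit 0x300c03198e3,nat_lit 65],.c (nat_lit 7) (nat_lit 2),
    .c (nat_lit 0) (nat_lit 0x1004000003),.c (nat_lit 0) (nat_lit 0x2004000007),.c (nat_lit 0) (nat_lit 0x1000000007),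
    .c (nat_lit 0) (nat_lit 0x1804000006),.c (nat_lit 8) (nat_lit 2)]]

/-- nodes -/
noncomputable def rD8k_36_24 : List RJ :=
  [.s (nat_lit 16) (nat_lit 0x2580) (nat_lit 5) (nat_lit 0xe5b000014eb0000122700001227000011830000139b000012cf000012cf000015df00000f37000010fb000010fb000011b7000010af000011b7000011b7) (nat_lit 0xf400000784000003b8000003b8000002440000045c0000031000000310000006a800000000000004e4000004e400000530000004280000042800000428)
    (nat_lit 0x151f0db709cb0aa30a7f09ff0b3b0a4b0b630e5b09770867100b0a330a330a3313f7151f113311330647116711db11db0f1314eb0e27100713bb10c310c310c311330aa30d970e6f0fe30dcb0f171b770b7f12270d430c730cf70fdf064709ff113309cb154f0d9710eb0dcb09f716570b7f12270d430d430c1f0d270dff11b7116709ff0dcb0dcb07ff06470e730d6b0adb16a30d770c9f089b0d5b0e330e3306470a7f10eb0fe3115707ff108b108b0ecb1a930eb710270cd30d231073115311db0a4b16571b77108b0d6b08c70fbf0ab712cf103b0c130bbf0ea7103f103f11db0b3b09f70f1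7108b0e730fbf08c70c2712cf195b15330d9f0ea70ea70ea714eb0e5b122712271a9316a312cf12cf07ef15df10fb10fb10af064711c711b70f130b630b7f0b7f0ecb0adb0c270ab7077707ef089b0a53064706470c1f0bdf100708670d430c7310270c9f15330c130a5310fb10df0d2f0afb0e8b092310930e2709770d430d430eb70d77195b103b089b10fb0bdf10df0cd30cd30cd30b9310c30a330d270fdf0d230d5b0ea70ea7064706470cd30e8b0dc70dc70d8f0c8713bb100b0c1f0cf70cd3089b0d9f0bbf064710af0cd30afb0c870dc70c870c8710c30a3311b709ff11530e330ea7103f0bdf11b70b9310930c870c8706af0c8710c30a330dff064710730e330ea7103f0c1f11c70cd309230c870d8f06af06af)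
    (nat_lit 0x151f2580258025802580258025802580258025802580258025802580258025800db7151f2580258025802580258025802580258025802580258025802580258009cb11330d9725802580258025802580258025802580258025802580258025800aa311330e6f0d972580258025802580258025802580258025802580258025800a7f06470fe3101207ff2580258025802580258025802580258025802580258009ff0c8e0dcb0dcb064707ff25802580258025802580258025802580258025800b3b11db0f1709f70e73108b08c72580258025802580258025802580258025800a4b11db1b7716570d6b108b0fbf08c7258025802580258025802580258025800b630f130b7f0b7f0adb0ecb0ab70c2707ef25802580258025802580258025800e5b14eb1227122716a314a212cf12cf15df07ef25802580258025802580258009770e270d430d430d770eb7103b173a10fb089b10df25802580258025802580086710070c730d430c9f0eae0c13153310fb0a530d2f10df2580258025802580100b0ee20cf70c1f089b0cd30bbf0d9f10af06470afb0cd30c8e2580258025800a3310c30fdf0d270d5b0d230ea70ea7064706470e8b0cd30c8e0c8e258025800a3310c306470dff0e331073103f0ea711c70c1f09230cd30d8f0c8706af25800a3310c309ff11b70e33107a103f0ea711b70bdf10930b930c870c870c8706af)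
    (nat_lit 6) (nat_lit 163)
    [[nat_lit 0,nat_lit 0,nat_lit 0,nat_lit 9],[nat_lit 0,nat_lit 0,nat_lit 3,nat_lit 6],[nat_lit 0,nat_lit 0,
    nat_lit 9,nat_lit 0],[nat_lit 0,nat_lit 0,nat_lit 10,nat_lit 15],[nat_lit 0,nat_lit 0,nat_lit 14,nat_lit 11],
    [nat_lit 0,nat_lit 1,nat_lit 3,nat_lit 6],[nat_lit 0,nat_lit 1,nat_lit 7,nat_lit 2],[nat_lit 0,nat_lit 1,
    nat_lit 10,nat_lit 15],[nat_lit 0,nat_lit 1,nat_lit 14,nat_lit 11],[nat_lit 0,nat_lit 2,nat_lit 14,nat_lit 12],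
    [nat_lit 0,nat_lit 3,nat_lit 6,nat_lit 0],[nat_lit 0,nat_lit 4,nat_lit 11],[nat_lit 0,nat_lit 9,nat_lit 0,
    nat_lit 0],[nat_lit 0,nat_lit 10,nat_lit 15,nat_lit 0],[nat_lit 0,nat_lit 11,nat_lit 12],[nat_lit 0,nat_lit 11,
    nat_lit 13],[nat_lit 0,nat_lit 12,nat_lit 10],[nat_lit 0,nat_lit 12,nat_lit 11],[nat_lit 0,nat_lit 14,nat_lit 9],
    [nat_lit 0,nat_lit 14,nat_lit 11,nat_lit 0],[nat_lit 1,nat_lit 1,nat_lit 1,nat_lit 8],[nat_lit 1,nat_lit 1,
    nat_lit 7,nat_lit 2],[nat_lit 1,nat_lit 1,nat_lit 8,nat_lit 1],[nat_lit 1,nat_lit 1,nat_lit 10,nat_lit 15],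
    [nat_lit 1,nat_lit 1,nat_lit 14,nat_lit 11],[nat_lit 1,nat_lit 7,nat_lit 2,nat_lit 1],[nat_lit 1,nat_lit 8,
    nat_lit 1,nat_lit 1],[nat_lit 1,nat_lit 8,nat_lit 15],[nat_lit 1,nat_lit 10,nat_lit 5],[nat_lit 1,nat_lit 10,
    nat_lit 13],[nat_lit 1,nat_lit 10,nat_lit 15,nat_lit 1],[nat_lit 1,nat_lit 11,nat_lit 13],[nat_lit 1,nat_lit 12,
    nat_lit 10],[nat_lit 1,nat_lit 13,nat_lit 10],[nat_lit 1,nat_lit 13,nat_lit 15,nat_lit 3],[nat_lit 1,nat_lit 14,
    nat_lit 11,nat_lit 1],[nat_lit 2,nat_lit 4,nat_lit 4],[nat_lit 2,nat_lit 4,nat_lit 5],[nat_lit 2,nat_lit 4,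
    nat_lit 12],[nat_lit 2,nat_lit 6,nat_lit 14],[nat_lit 2,nat_lit 7,nat_lit 14],[nat_lit 2,nat_lit 7,nat_lit 15],
    [nat_lit 2,nat_lit 12,nat_lit 4],[nat_lit 2,nat_lit 12,nat_lit 5],[nat_lit 2,nat_lit 13,nat_lit 4],[nat_lit 2,
    nat_lit 14,nat_lit 6],[nat_lit 2,nat_lit 14,nat_lit 7],[nat_lit 2,nat_lit 15,nat_lit 7],[nat_lit 3,nat_lit 4,
    nat_lit 5],[nat_lit 3,nat_lit 4,nat_lit 13],[nat_lit 3,nat_lit 5,nat_lit 5],[nat_lit 3,nat_lit 5,nat_lit 12],
    [nat_lit 3,nat_lit 5,nat_lit 13],[nat_lit 3,nat_lit 6,nat_lit 14],[nat_lit 3,nat_lit 6,nat_lit 15],[nat_lit 3,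
    nat_lit 7,nat_lit 15],[nat_lit 3,nat_lit 13,nat_lit 5],[nat_lit 3,nat_lit 14,nat_lit 6],[nat_lit 3,nat_lit 15,
    nat_lit 6],[nat_lit 3,nat_lit 15,nat_lit 7],[nat_lit 4,nat_lit 8],[nat_lit 4,nat_lit 9],[nat_lit 5,nat_lit 8],
    [nat_lit 5,nat_lit 9],[nat_lit 6,nat_lit 10],[nat_lit 6,nat_lit 11],[nat_lit 7,nat_lit 10],[nat_lit 7,nat_lit 11],
    [nat_lit 8,nat_lit 12],[nat_lit 8,nat_lit 13],[nat_lit 9,nat_lit 12],[nat_lit 9,nat_lit 13],[nat_lit 10,
    nat_lit 14,nat_lit 15],[nat_lit 10,nat_lit 15,nat_lit 14],[nat_lit 10,nat_lit 15,nat_lit 15],[nat_lit 11,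
    nat_lit 14,nat_lit 14],[nat_lit 11,nat_lit 14,nat_lit 15],[nat_lit 11,nat_lit 15,nat_lit 14]]
    [nat_lit 0x10009,nat_lit 0x10036,nat_lit 0x10090,nat_lit 0x100af,nat_lit 0x100eb,nat_lit 0x10136,nat_lit 0x10172,
    nat_lit 0x101af,nat_lit 0x101eb,nat_lit 0x102ec,nat_lit 0x10360,nat_lit 0x104b,nat_lit 0x10900,nat_lit 0x10af0,
    nat_lit 0x10bc,nat_lit 0x10bd,nat_lit 0x10ca,nat_lit 0x10cb,nat_lit 0x10e9,nat_lit 0x10eb0,nat_lit 0x11118,
    nat_lit 0x11172,nat_lit 0x11181,nat_lit 0x111af,nat_lit 0x111eb,nat_lit 0x11721,nat_lit 0x11811,nat_lit 0x118f,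
    nat_lit 0x11a5,nat_lit 0x11ad,nat_lit 0x11af1,nat_lit 0x11bd,nat_lit 0x11ca,nat_lit 0x11da,nat_lit 0x11df3,
    nat_lit 0x11eb1,nat_lit 0x1244,nat_lit 0x1245,nat_lit 0x124c,nat_lit 0x126e,nat_lit 0x127e,nat_lit 0x127f,
    nat_lit 0x12c4,nat_lit 0x12c5,nat_lit 0x12d4,nat_lit 0x12e6,nat_lit 0x12e7,nat_lit 0x12f7,nat_lit 0x1345,
    nat_lit 0x134d,nat_lit 0x1355,nat_lit 0x135c,nat_lit 0x135d,nat_lit 0x136e,nat_lit 0x136f,nat_lit 0x137f,
    nat_lit 0x13d5,nat_lit 0x13e6,nat_lit 0x13f6,nat_lit 0x13f7,nat_lit 328,nat_lit 329,nat_lit 344,nat_lit 345,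
    nat_lit 362,nat_lit 363,nat_lit 378,nat_lit 379,nat_lit 396,nat_lit 397,nat_lit 412,nat_lit 413,nat_lit 0x1aef,
    nat_lit 0x1afe,nat_lit 0x1aff,nat_lit 0x1bee,nat_lit 0x1bef,nat_lit 0x1bfe]
    [[[nat_lit 0,nat_lit 0,nat_lit 0,nat_lit 9],[nat_lit 0,nat_lit 0,nat_lit 3,nat_lit 6],[nat_lit 0,nat_lit 0,
    nat_lit 9,nat_lit 0],[nat_lit 0,nat_lit 0,nat_lit 10,nat_lit 15],[nat_lit 0,nat_lit 0,nat_lit 14,nat_lit 11],
    [nat_lit 0,nat_lit 1,nat_lit 3,nat_lit 6],[nat_lit 0,nat_lit 1,nat_lit 7,nat_lit 2],[nat_lit 0,nat_lit 1,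
    nat_lit 10,nat_lit 15],[nat_lit 0,nat_lit 1,nat_lit 14,nat_lit 11],[nat_lit 0,nat_lit 2,nat_lit 14,nat_lit 12],
    [nat_lit 0,nat_lit 3,nat_lit 6,nat_lit 0],[nat_lit 0,nat_lit 4,nat_lit 11]],[[nat_lit 0,nat_lit 9,nat_lit 0,
    nat_lit 0],[nat_lit 0,nat_lit 10,nat_lit 15,nat_lit 0],[nat_lit 0,nat_lit 11,nat_lit 12],[nat_lit 0,nat_lit 11,
    nat_lit 13],[nat_lit 0,nat_lit 12,nat_lit 10],[nat_lit 0,nat_lit 12,nat_lit 11],[nat_lit 0,nat_lit 14,nat_lit 9],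
    [nat_lit 0,nat_lit 14,nat_lit 11,nat_lit 0],[nat_lit 1,nat_lit 1,nat_lit 1,nat_lit 8],[nat_lit 1,nat_lit 1,
    nat_lit 7,nat_lit 2],[nat_lit 1,nat_lit 1,nat_lit 8,nat_lit 1],[nat_lit 1,nat_lit 1,nat_lit 10,nat_lit 15]],
    [[nat_lit 1,nat_lit 1,nat_lit 14,nat_lit 11],[nat_lit 1,nat_lit 3,nat_lit 6,nat_lit 0],[nat_lit 1,nat_lit 7,
    nat_lit 2,nat_lit 0],[nat_lit 1,nat_lit 7,nat_lit 2,nat_lit 1],[nat_lit 1,nat_lit 8,nat_lit 1,nat_lit 1],
    [nat_lit 1,nat_lit 8,nat_lit 15],[nat_lit 1,nat_lit 10,nat_lit 5],[nat_lit 1,nat_lit 10,nat_lit 13],[nat_lit 1,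
    nat_lit 10,nat_lit 15,nat_lit 0],[nat_lit 1,nat_lit 10,nat_lit 15,nat_lit 1],[nat_lit 1,nat_lit 11,nat_lit 13],
    [nat_lit 1,nat_lit 12,nat_lit 10]],[[nat_lit 1,nat_lit 13,nat_lit 10],[nat_lit 1,nat_lit 13,nat_lit 15,nat_lit 3],
    [nat_lit 1,nat_lit 14,nat_lit 11,nat_lit 0],[nat_lit 1,nat_lit 14,nat_lit 11,nat_lit 1],[nat_lit 2,nat_lit 0,
    nat_lit 1,nat_lit 7],[nat_lit 2,nat_lit 1,nat_lit 1,nat_lit 7],[nat_lit 2,nat_lit 4,nat_lit 4],[nat_lit 2,
    nat_lit 4,nat_lit 5],[nat_lit 2,nat_lit 4,nat_lit 12],[nat_lit 2,nat_lit 6,nat_lit 14],[nat_lit 2,nat_lit 7,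
    nat_lit 14],[nat_lit 2,nat_lit 7,nat_lit 15]],[[nat_lit 2,nat_lit 12,nat_lit 4],[nat_lit 2,nat_lit 12,nat_lit 5],
    [nat_lit 2,nat_lit 13,nat_lit 4],[nat_lit 2,nat_lit 14,nat_lit 6],[nat_lit 2,nat_lit 14,nat_lit 7],[nat_lit 2,
    nat_lit 14,nat_lit 12,nat_lit 0],[nat_lit 2,nat_lit 15,nat_lit 7],[nat_lit 3,nat_lit 1,nat_lit 13,nat_lit 15],
    [nat_lit 3,nat_lit 4,nat_lit 5],[nat_lit 3,nat_lit 4,nat_lit 13],[nat_lit 3,nat_lit 5,nat_lit 5],[nat_lit 3,
    nat_lit 5,nat_lit 12]],[[nat_lit 3,nat_lit 5,nat_lit 13],[nat_lit 3,nat_lit 6,nat_lit 0,nat_lit 0],[nat_lit 3,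
    nat_lit 6,nat_lit 0,nat_lit 1],[nat_lit 3,nat_lit 6,nat_lit 14],[nat_lit 3,nat_lit 6,nat_lit 15],[nat_lit 3,
    nat_lit 7,nat_lit 15],[nat_lit 3,nat_lit 13,nat_lit 5],[nat_lit 3,nat_lit 14,nat_lit 6],[nat_lit 3,nat_lit 15,
    nat_lit 6],[nat_lit 3,nat_lit 15,nat_lit 7],[nat_lit 4,nat_lit 2,nat_lit 4],[nat_lit 4,nat_lit 2,nat_lit 12]],
    [[nat_lit 4,nat_lit 2,nat_lit 13],[nat_lit 4,nat_lit 4,nat_lit 2],[nat_lit 4,nat_lit 5,nat_lit 2],[nat_lit 4,
    nat_lit 5,nat_lit 3],[nat_lit 4,nat_lit 8],[nat_lit 4,nat_lit 9],[nat_lit 4,nat_lit 11,nat_lit 0],[nat_lit 4,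
    nat_lit 12,nat_lit 2],[nat_lit 4,nat_lit 13,nat_lit 3],[nat_lit 5,nat_lit 1,nat_lit 10],[nat_lit 5,nat_lit 2,
    nat_lit 4],[nat_lit 5,nat_lit 2,nat_lit 12]],[[nat_lit 5,nat_lit 3,nat_lit 4],[nat_lit 5,nat_lit 3,nat_lit 5],
    [nat_lit 5,nat_lit 3,nat_lit 13],[nat_lit 5,nat_lit 5,nat_lit 3],[nat_lit 5,nat_lit 8],[nat_lit 5,nat_lit 9],
    [nat_lit 5,nat_lit 12,nat_lit 3],[nat_lit 5,nat_lit 13,nat_lit 3],[nat_lit 6,nat_lit 0,nat_lit 0,nat_lit 3],
    [nat_lit 6,nat_lit 0,nat_lit 1,nat_lit 3],[nat_lit 6,nat_lit 2,nat_lit 14],[nat_lit 6,nat_lit 3,nat_lit 14]],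
    [[nat_lit 6,nat_lit 3,nat_lit 15],[nat_lit 6,nat_lit 10],[nat_lit 6,nat_lit 11],[nat_lit 6,nat_lit 14,nat_lit 2],
    [nat_lit 6,nat_lit 14,nat_lit 3],[nat_lit 6,nat_lit 15,nat_lit 3],[nat_lit 7,nat_lit 2,nat_lit 0,nat_lit 1],
    [nat_lit 7,nat_lit 2,nat_lit 1,nat_lit 1],[nat_lit 7,nat_lit 2,nat_lit 14],[nat_lit 7,nat_lit 2,nat_lit 15],
    [nat_lit 7,nat_lit 3,nat_lit 15],[nat_lit 7,nat_lit 10]],[[nat_lit 7,nat_lit 11],[nat_lit 7,nat_lit 14,nat_lit 2],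
    [nat_lit 7,nat_lit 15,nat_lit 2],[nat_lit 7,nat_lit 15,nat_lit 3],[nat_lit 8,nat_lit 1,nat_lit 1,nat_lit 1],
    [nat_lit 8,nat_lit 4],[nat_lit 8,nat_lit 5],[nat_lit 8,nat_lit 12],[nat_lit 8,nat_lit 13],[nat_lit 8,nat_lit 15,
    nat_lit 1],[nat_lit 9,nat_lit 0,nat_lit 0,nat_lit 0],[nat_lit 9,nat_lit 0,nat_lit 14]],[[nat_lit 9,nat_lit 4],
    [nat_lit 9,nat_lit 5],[nat_lit 9,nat_lit 12],[nat_lit 9,nat_lit 13],[nat_lit 10,nat_lit 0,nat_lit 12],[nat_lit 10,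
    nat_lit 1,nat_lit 12],[nat_lit 10,nat_lit 1,nat_lit 13],[nat_lit 10,nat_lit 5,nat_lit 1],[nat_lit 10,nat_lit 6],
    [nat_lit 10,nat_lit 7],[nat_lit 10,nat_lit 13,nat_lit 1],[nat_lit 10,nat_lit 14,nat_lit 15]],[[nat_lit 10,
    nat_lit 15,nat_lit 0,nat_lit 0],[nat_lit 10,nat_lit 15,nat_lit 0,nat_lit 1],[nat_lit 10,nat_lit 15,nat_lit 1,
    nat_lit 1],[nat_lit 10,nat_lit 15,nat_lit 14],[nat_lit 10,nat_lit 15,nat_lit 15],[nat_lit 11,nat_lit 0,nat_lit 0,
    nat_lit 14],[nat_lit 11,nat_lit 0,nat_lit 1,nat_lit 14],[nat_lit 11,nat_lit 0,nat_lit 4],[nat_lit 11,nat_lit 0,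
    nat_lit 12],[nat_lit 11,nat_lit 1,nat_lit 1,nat_lit 14],[nat_lit 11,nat_lit 6],[nat_lit 11,nat_lit 7]],
    [[nat_lit 11,nat_lit 12,nat_lit 0],[nat_lit 11,nat_lit 13,nat_lit 0],[nat_lit 11,nat_lit 13,nat_lit 1],
    [nat_lit 11,nat_lit 14,nat_lit 14],[nat_lit 11,nat_lit 14,nat_lit 15],[nat_lit 11,nat_lit 15,nat_lit 14],
    [nat_lit 12,nat_lit 0,nat_lit 2,nat_lit 14],[nat_lit 12,nat_lit 0,nat_lit 11],[nat_lit 12,nat_lit 2,nat_lit 4],
    [nat_lit 12,nat_lit 3,nat_lit 5],[nat_lit 12,nat_lit 4,nat_lit 2],[nat_lit 12,nat_lit 5,nat_lit 2]],[[nat_lit 12,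
    nat_lit 8],[nat_lit 12,nat_lit 9],[nat_lit 12,nat_lit 10,nat_lit 0],[nat_lit 12,nat_lit 10,nat_lit 1],[nat_lit 12,
    nat_lit 11,nat_lit 0],[nat_lit 13,nat_lit 0,nat_lit 11],[nat_lit 13,nat_lit 1,nat_lit 10],[nat_lit 13,nat_lit 1,
    nat_lit 11],[nat_lit 13,nat_lit 3,nat_lit 4],[nat_lit 13,nat_lit 3,nat_lit 5],[nat_lit 13,nat_lit 4,nat_lit 2],
    [nat_lit 13,nat_lit 5,nat_lit 3]],[[nat_lit 13,nat_lit 8],[nat_lit 13,nat_lit 9],[nat_lit 13,nat_lit 10,
    nat_lit 1],[nat_lit 13,nat_lit 15,nat_lit 3,nat_lit 1],[nat_lit 14,nat_lit 2,nat_lit 6],[nat_lit 14,nat_lit 2,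
    nat_lit 7],[nat_lit 14,nat_lit 3,nat_lit 6],[nat_lit 14,nat_lit 6,nat_lit 2],[nat_lit 14,nat_lit 6,nat_lit 3],
    [nat_lit 14,nat_lit 7,nat_lit 2],[nat_lit 14,nat_lit 9,nat_lit 0],[nat_lit 14,nat_lit 10,nat_lit 15]],
    [[nat_lit 14,nat_lit 11,nat_lit 0,nat_lit 0],[nat_lit 14,nat_lit 11,nat_lit 0,nat_lit 1],[nat_lit 14,nat_lit 11,
    nat_lit 1,nat_lit 1],[nat_lit 14,nat_lit 11,nat_lit 14],[nat_lit 14,nat_lit 11,nat_lit 15],[nat_lit 14,nat_lit 12,
    nat_lit 0,nat_lit 2],[nat_lit 14,nat_lit 14,nat_lit 11],[nat_lit 14,nat_lit 15,nat_lit 10],[nat_lit 14,nat_lit 15,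
    nat_lit 11],[nat_lit 15,nat_lit 0,nat_lit 0,nat_lit 10],[nat_lit 15,nat_lit 0,nat_lit 1,nat_lit 10],[nat_lit 15,
    nat_lit 1,nat_lit 1,nat_lit 10]],[[nat_lit 15,nat_lit 1,nat_lit 8],[nat_lit 15,nat_lit 2,nat_lit 7],[nat_lit 15,
    nat_lit 3,nat_lit 1,nat_lit 13],[nat_lit 15,nat_lit 3,nat_lit 6],[nat_lit 15,nat_lit 3,nat_lit 7],[nat_lit 15,
    nat_lit 6,nat_lit 3],[nat_lit 15,nat_lit 7,nat_lit 2],[nat_lit 15,nat_lit 7,nat_lit 3],[nat_lit 15,nat_lit 10,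
    nat_lit 14],[nat_lit 15,nat_lit 10,nat_lit 15],[nat_lit 15,nat_lit 11,nat_lit 14],[nat_lit 15,nat_lit 14,
    nat_lit 10]],[[nat_lit 15,nat_lit 14,nat_lit 11],[nat_lit 15,nat_lit 15,nat_lit 10]]]
    [[nat_lit 2,nat_lit 10,nat_lit 12,nat_lit 13,nat_lit 19,nat_lit 25,nat_lit 26,nat_lit 32,nat_lit 38,nat_lit 53,
    nat_lit 61,nat_lit 78],[nat_lit 118,nat_lit 132,nat_lit 144,nat_lit 145,nat_lit 158,nat_lit 160,nat_lit 178,
    nat_lit 180,nat_lit 22,nat_lit 27,nat_lit 28,nat_lit 33],[nat_lit 39,nat_lit 62,nat_lit 102,nat_lit 103,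
    nat_lit 112,nat_lit 117,nat_lit 127,nat_lit 130,nat_lit 133,nat_lit 134,nat_lit 146,nat_lit 159],[nat_lit 170,
    nat_lit 171,nat_lit 181,nat_lit 182,nat_lit 6,nat_lit 21,nat_lit 73,nat_lit 74,nat_lit 79,nat_lit 99,nat_lit 109,
    nat_lit 110],[nat_lit 154,nat_lit 155,nat_lit 166,nat_lit 175,nat_lit 177,nat_lit 185,nat_lit 198,nat_lit 37,
    nat_lit 75,nat_lit 80,nat_lit 87,nat_lit 90],[nat_lit 91,nat_lit 92,nat_lit 93,nat_lit 100,nat_lit 101,
    nat_lit 111,nat_lit 167,nat_lit 176,nat_lit 197,nat_lit 199,nat_lit 42,nat_lit 48],[nat_lit 50,nat_lit 70,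
    nat_lit 82,nat_lit 84,nat_lit 113,nat_lit 120,nat_lit 139,nat_lit 152,nat_lit 164,nat_lit 30,nat_lit 43,
    nat_lit 49],[nat_lit 56,nat_lit 58,nat_lit 66,nat_lit 85,nat_lit 114,nat_lit 121,nat_lit 153,nat_lit 165,
    nat_lit 1,nat_lit 5,nat_lit 51,nat_lit 67],[nat_lit 68,nat_lit 128,nat_lit 142,nat_lit 172,nat_lit 174,
    nat_lit 195,nat_lit 40,nat_lit 41,nat_lit 52,nat_lit 54,nat_lit 69,nat_lit 129],[nat_lit 143,nat_lit 173,
    nat_lit 193,nat_lit 196,nat_lit 20,nat_lit 76,nat_lit 88,nat_lit 156,nat_lit 168,nat_lit 192,nat_lit 0,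
    nat_lit 18],[nat_lit 77,nat_lit 89,nat_lit 157,nat_lit 169,nat_lit 16,nat_lit 35,nat_lit 36,nat_lit 81,nat_lit 97,
    nat_lit 107,nat_lit 162,nat_lit 187],[nat_lit 189,nat_lit 190,nat_lit 191,nat_lit 203,nat_lit 205,nat_lit 4,
    nat_lit 8,nat_lit 11,nat_lit 17,nat_lit 24,nat_lit 98,nat_lit 108],[nat_lit 151,nat_lit 161,nat_lit 163,
    nat_lit 186,nat_lit 188,nat_lit 204,nat_lit 9,nat_lit 14,nat_lit 44,nat_lit 59,nat_lit 71,nat_lit 83],
    [nat_lit 115,nat_lit 122,nat_lit 124,nat_lit 125,nat_lit 140,nat_lit 15,nat_lit 31,nat_lit 34,nat_lit 57,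
    nat_lit 60,nat_lit 72,nat_lit 86],[nat_lit 116,nat_lit 123,nat_lit 126,nat_lit 194,nat_lit 45,nat_lit 46,
    nat_lit 63,nat_lit 94,nat_lit 95,nat_lit 104,nat_lit 119,nat_lit 135],[nat_lit 137,nat_lit 138,nat_lit 141,
    nat_lit 147,nat_lit 149,nat_lit 150,nat_lit 183,nat_lit 200,nat_lit 202,nat_lit 3,nat_lit 7,nat_lit 23],
    [nat_lit 29,nat_lit 47,nat_lit 55,nat_lit 64,nat_lit 65,nat_lit 96,nat_lit 105,nat_lit 106,nat_lit 131,
    nat_lit 136,nat_lit 148,nat_lit 179],[nat_lit 184,nat_lit 201]]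
    [[nat_lit 118,nat_lit 92,nat_lit 0,nat_lit 189,nat_lit 137,nat_lit 93,nat_lit 40,nat_lit 190,nat_lit 138,
    nat_lit 150,nat_lit 1,nat_lit 139],[nat_lit 2,nat_lit 3,nat_lit 151,nat_lit 161,nat_lit 124,nat_lit 140,
    nat_lit 119,nat_lit 4,nat_lit 112,nat_lit 41,nat_lit 20,nat_lit 191],[nat_lit 141,nat_lit 5,nat_lit 6,nat_lit 21,
    nat_lit 22,nat_lit 192,nat_lit 81,nat_lit 162,nat_lit 7,nat_lit 23,nat_lit 163,nat_lit 125],[nat_lit 126,
    nat_lit 55,nat_lit 8,nat_lit 24,nat_lit 102,nat_lit 103,nat_lit 70,nat_lit 82,nat_lit 152,nat_lit 172,nat_lit 173,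
    nat_lit 193],[nat_lit 71,nat_lit 83,nat_lit 72,nat_lit 94,nat_lit 104,nat_lit 9,nat_lit 105,nat_lit 194,
    nat_lit 84,nat_lit 164,nat_lit 85,nat_lit 153],[nat_lit 165,nat_lit 10,nat_lit 25,nat_lit 174,nat_lit 195,
    nat_lit 196,nat_lit 86,nat_lit 95,nat_lit 96,nat_lit 106,nat_lit 73,nat_lit 154],[nat_lit 166,nat_lit 42,
    nat_lit 43,nat_lit 56,nat_lit 113,nat_lit 120,nat_lit 11,nat_lit 44,nat_lit 57,nat_lit 127,nat_lit 74,
    nat_lit 155],[nat_lit 75,nat_lit 87,nat_lit 167,nat_lit 58,nat_lit 114,nat_lit 121,nat_lit 59,nat_lit 60,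
    nat_lit 61,nat_lit 62,nat_lit 175,nat_lit 176],[nat_lit 197,nat_lit 128,nat_lit 142,nat_lit 45,nat_lit 63,
    nat_lit 64,nat_lit 26,nat_lit 27,nat_lit 177,nat_lit 198,nat_lit 199,nat_lit 129],[nat_lit 143,nat_lit 46,
    nat_lit 47,nat_lit 65,nat_lit 28,nat_lit 76,nat_lit 88,nat_lit 156,nat_lit 168,nat_lit 29,nat_lit 12,nat_lit 178],
    [nat_lit 77,nat_lit 89,nat_lit 157,nat_lit 169,nat_lit 158,nat_lit 159,nat_lit 170,nat_lit 30,nat_lit 97,
    nat_lit 107,nat_lit 31,nat_lit 200],[nat_lit 13,nat_lit 32,nat_lit 33,nat_lit 179,nat_lit 201,nat_lit 180,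
    nat_lit 181,nat_lit 78,nat_lit 160,nat_lit 182,nat_lit 98,nat_lit 108],[nat_lit 14,nat_lit 15,nat_lit 34,
    nat_lit 183,nat_lit 202,nat_lit 184,nat_lit 185,nat_lit 144,nat_lit 79,nat_lit 90,nat_lit 48,nat_lit 49],
    [nat_lit 115,nat_lit 122,nat_lit 16,nat_lit 35,nat_lit 17,nat_lit 145,nat_lit 130,nat_lit 146,nat_lit 80,
    nat_lit 91,nat_lit 50,nat_lit 66],[nat_lit 116,nat_lit 123,nat_lit 36,nat_lit 37,nat_lit 99,nat_lit 109,
    nat_lit 100,nat_lit 51,nat_lit 67,nat_lit 52,nat_lit 18,nat_lit 203],[nat_lit 19,nat_lit 38,nat_lit 39,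
    nat_lit 186,nat_lit 204,nat_lit 53,nat_lit 147,nat_lit 131,nat_lit 148,nat_lit 132,nat_lit 133,nat_lit 134],
    [nat_lit 117,nat_lit 110,nat_lit 171,nat_lit 101,nat_lit 111,nat_lit 68,nat_lit 54,nat_lit 69,nat_lit 187,
    nat_lit 205,nat_lit 188,nat_lit 135],[nat_lit 149,nat_lit 136]]
    [[[nat_lit 175,nat_lit 177,nat_lit 185],[nat_lit 175,nat_lit 177,nat_lit 185],[nat_lit 175,nat_lit 177,
    nat_lit 185],[nat_lit 175,nat_lit 177,nat_lit 185],[nat_lit 175,nat_lit 177,nat_lit 185],[nat_lit 179,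
    nat_lit 184],[nat_lit 179,nat_lit 184],[nat_lit 179,nat_lit 184],[nat_lit 179,nat_lit 184],[],[nat_lit 181,
    nat_lit 182],[nat_lit 172,nat_lit 174]],[[nat_lit 173],[],[],[],[nat_lit 183],[nat_lit 183],[nat_lit 178,
    nat_lit 180],[nat_lit 178,nat_lit 180],[nat_lit 55,nat_lit 64,nat_lit 65],[nat_lit 55,nat_lit 64,nat_lit 65],
    [nat_lit 55,nat_lit 64,nat_lit 65],[nat_lit 55,nat_lit 64,nat_lit 65]],[[nat_lit 55,nat_lit 64,nat_lit 65],
    [nat_lit 62],[nat_lit 56,nat_lit 58,nat_lit 66],[nat_lit 56,nat_lit 58,nat_lit 66],[],[],[nat_lit 59],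
    [nat_lit 59],[nat_lit 59],[nat_lit 59],[],[nat_lit 63]],[[],[],[nat_lit 61],[nat_lit 61],[nat_lit 6],[nat_lit 3,
    nat_lit 7],[nat_lit 1,nat_lit 5],[nat_lit 1,nat_lit 5],[nat_lit 1,nat_lit 5],[],[],[]],[[],[],[nat_lit 4,
    nat_lit 8,nat_lit 11,nat_lit 17],[nat_lit 2,nat_lit 10,nat_lit 12,nat_lit 13,nat_lit 19],[nat_lit 2,nat_lit 10,
    nat_lit 12,nat_lit 13,nat_lit 19],[nat_lit 2,nat_lit 10,nat_lit 12,nat_lit 13,nat_lit 19],[nat_lit 15],[],[],[],
    [nat_lit 87,nat_lit 90,nat_lit 91],[nat_lit 87,nat_lit 90,nat_lit 91]],[[nat_lit 87,nat_lit 90,nat_lit 91],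
    [nat_lit 88],[nat_lit 88],[nat_lit 88],[nat_lit 88],[nat_lit 85],[],[],[nat_lit 86],[nat_lit 86],[nat_lit 42,
    nat_lit 48,nat_lit 50],[nat_lit 42,nat_lit 48,nat_lit 50]],[[nat_lit 42,nat_lit 48,nat_lit 50],[nat_lit 51],[],[],
    [],[nat_lit 40,nat_lit 41,nat_lit 52,nat_lit 54],[],[nat_lit 45,nat_lit 46],[],[nat_lit 105,nat_lit 106],[],[]],
    [[nat_lit 102,nat_lit 103],[nat_lit 102,nat_lit 103],[nat_lit 102,nat_lit 103],[nat_lit 111],[nat_lit 107],[],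
    [nat_lit 104],[nat_lit 108],[nat_lit 73,nat_lit 74,nat_lit 79],[nat_lit 73,nat_lit 74,nat_lit 79],[nat_lit 70],
    []],[[],[nat_lit 71],[nat_lit 77],[nat_lit 78],[nat_lit 78],[nat_lit 72],[nat_lit 120],[nat_lit 120],
    [nat_lit 120],[nat_lit 120],[],[nat_lit 122]],[[],[nat_lit 118],[nat_lit 123],[nat_lit 123],[nat_lit 96],[],
    [nat_lit 92,nat_lit 93,nat_lit 100,nat_lit 101],[nat_lit 94,nat_lit 95],[nat_lit 98],[],[],[]],[[nat_lit 142],[],
    [nat_lit 137,nat_lit 138,nat_lit 141,nat_lit 147,nat_lit 149],[],[],[],[],[],[],[nat_lit 114],[],[]],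
    [[nat_lit 116],[nat_lit 116],[nat_lit 116],[nat_lit 116],[nat_lit 116],[nat_lit 166],[nat_lit 166],[nat_lit 166],
    [nat_lit 166],[],[nat_lit 168],[nat_lit 165]],[[],[nat_lit 161,nat_lit 163],[nat_lit 161,nat_lit 163],[],[],[],[],
    [],[],[nat_lit 127,nat_lit 130,nat_lit 133,nat_lit 134],[nat_lit 128],[]],[[],[nat_lit 129],[nat_lit 124,
    nat_lit 125],[nat_lit 124,nat_lit 125],[],[nat_lit 198],[nat_lit 201],[nat_lit 201],[],[],[nat_lit 195],
    [nat_lit 197,nat_lit 199]],[[nat_lit 189,nat_lit 190,nat_lit 191,nat_lit 203,nat_lit 205],[nat_lit 193,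
    nat_lit 196],[],[nat_lit 194],[nat_lit 152],[nat_lit 152],[nat_lit 159],[nat_lit 156],[nat_lit 156],[nat_lit 153],
    [],[]],[[nat_lit 157],[nat_lit 157],[nat_lit 157],[nat_lit 157],[nat_lit 157],[nat_lit 150],[nat_lit 158,
    nat_lit 160],[],[],[nat_lit 21],[nat_lit 21],[nat_lit 23,nat_lit 29]],[[nat_lit 23,nat_lit 29],[],[nat_lit 22,
    nat_lit 27,nat_lit 28,nat_lit 33,nat_lit 39],[nat_lit 22,nat_lit 27,nat_lit 28,nat_lit 33,nat_lit 39],[nat_lit 22,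
    nat_lit 27,nat_lit 28,nat_lit 33,nat_lit 39],[nat_lit 20],[nat_lit 30],[nat_lit 30],[],[],[],[nat_lit 25,
    nat_lit 26,nat_lit 32,nat_lit 38]],[[nat_lit 25,nat_lit 26,nat_lit 32,nat_lit 38],[nat_lit 31,nat_lit 34]]]
    (nat_lit 206) [nat_lit 0,nat_lit 1,nat_lit 2,nat_lit 3,nat_lit 4,nat_lit 5,nat_lit 6,nat_lit 7,nat_lit 8,
    nat_lit 9,nat_lit 10,nat_lit 11,nat_lit 12,nat_lit 13,nat_lit 14,nat_lit 15,nat_lit 16,nat_lit 17,nat_lit 18,
    nat_lit 19,nat_lit 20,nat_lit 21,nat_lit 22,nat_lit 23,nat_lit 24,nat_lit 27,nat_lit 28,nat_lit 29,nat_lit 30,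
    nat_lit 31,nat_lit 33,nat_lit 34,nat_lit 35,nat_lit 36,nat_lit 37,nat_lit 39,nat_lit 42,nat_lit 43,nat_lit 44,
    nat_lit 45,nat_lit 46,nat_lit 47,nat_lit 48,nat_lit 49,nat_lit 50,nat_lit 51,nat_lit 52,nat_lit 54,nat_lit 56,
    nat_lit 57,nat_lit 58,nat_lit 59,nat_lit 60,nat_lit 63,nat_lit 64,nat_lit 65,nat_lit 66,nat_lit 67,nat_lit 68,
    nat_lit 69,nat_lit 76,nat_lit 77,nat_lit 88,nat_lit 89,nat_lit 97,nat_lit 98,nat_lit 107,nat_lit 108,nat_lit 115,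
    nat_lit 116,nat_lit 122,nat_lit 123,nat_lit 131,nat_lit 135,nat_lit 136,nat_lit 147,nat_lit 148,nat_lit 149]
    [[[nat_lit 2,nat_lit 10,nat_lit 12,nat_lit 13,nat_lit 19],[],[nat_lit 6],[],[],[],[nat_lit 1,nat_lit 5],[],[],
    [nat_lit 0,nat_lit 18],[nat_lit 16],[nat_lit 4,nat_lit 8,nat_lit 11,nat_lit 17],[nat_lit 9,nat_lit 14],
    [nat_lit 15],[],[nat_lit 3,nat_lit 7]],[[nat_lit 25,nat_lit 26,nat_lit 32,nat_lit 38],[nat_lit 22,nat_lit 27,
    nat_lit 28,nat_lit 33,nat_lit 39],[nat_lit 21],[nat_lit 37],[],[nat_lit 30],[],[],[nat_lit 20],[],[nat_lit 35,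
    nat_lit 36],[nat_lit 24],[],[nat_lit 31,nat_lit 34],[],[nat_lit 23,nat_lit 29]],[[nat_lit 53],[],[],[],
    [nat_lit 42,nat_lit 48,nat_lit 50],[nat_lit 43,nat_lit 49],[nat_lit 51],[nat_lit 40,nat_lit 41,nat_lit 52,
    nat_lit 54],[],[],[],[],[nat_lit 44],[],[nat_lit 45,nat_lit 46],[nat_lit 47]],[[nat_lit 61],[nat_lit 62],[],[],[],
    [nat_lit 56,nat_lit 58,nat_lit 66],[nat_lit 67,nat_lit 68],[nat_lit 69],[],[],[],[],[nat_lit 59],[nat_lit 57,
    nat_lit 60],[nat_lit 63],[nat_lit 55,nat_lit 64,nat_lit 65]],[[nat_lit 78],[],[nat_lit 73,nat_lit 74,nat_lit 79],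
    [nat_lit 75,nat_lit 80],[nat_lit 70],[],[],[],[nat_lit 76],[nat_lit 77],[],[],[nat_lit 71],[nat_lit 72],[],[]],
    [[],[],[],[nat_lit 87,nat_lit 90,nat_lit 91],[nat_lit 82,nat_lit 84],[nat_lit 85],[],[],[nat_lit 88],[nat_lit 89],
    [nat_lit 81],[],[nat_lit 83],[nat_lit 86],[],[]],[[],[],[nat_lit 99],[nat_lit 92,nat_lit 93,nat_lit 100,
    nat_lit 101],[],[],[],[],[],[],[nat_lit 97],[nat_lit 98],[],[],[nat_lit 94,nat_lit 95],[nat_lit 96]],[[],
    [nat_lit 102,nat_lit 103],[nat_lit 109,nat_lit 110],[nat_lit 111],[],[],[],[],[],[],[nat_lit 107],[nat_lit 108],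
    [],[],[nat_lit 104],[nat_lit 105,nat_lit 106]],[[],[nat_lit 112,nat_lit 117],[],[],[nat_lit 113],[nat_lit 114],[],
    [],[],[],[],[],[nat_lit 115],[nat_lit 116],[],[]],[[nat_lit 118],[],[],[],[nat_lit 120],[nat_lit 121],[],[],[],[],
    [],[],[nat_lit 122],[nat_lit 123],[nat_lit 119],[]],[[nat_lit 132],[nat_lit 127,nat_lit 130,nat_lit 133,
    nat_lit 134],[],[],[],[],[nat_lit 128],[nat_lit 129],[],[],[],[],[nat_lit 124,nat_lit 125],[nat_lit 126],
    [nat_lit 135],[nat_lit 131,nat_lit 136]],[[nat_lit 144,nat_lit 145],[nat_lit 146],[],[],[nat_lit 139],[],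
    [nat_lit 142],[nat_lit 143],[],[],[],[],[nat_lit 140],[],[nat_lit 137,nat_lit 138,nat_lit 141,nat_lit 147,
    nat_lit 149],[nat_lit 148]],[[nat_lit 158,nat_lit 160],[nat_lit 159],[nat_lit 154,nat_lit 155],[],[nat_lit 152],
    [nat_lit 153],[],[],[nat_lit 156],[nat_lit 157],[],[nat_lit 151],[],[],[nat_lit 150],[]],[[],[nat_lit 170,
    nat_lit 171],[nat_lit 166],[nat_lit 167],[nat_lit 164],[nat_lit 165],[],[],[nat_lit 168],[nat_lit 169],
    [nat_lit 162],[nat_lit 161,nat_lit 163],[],[],[],[]],[[nat_lit 178,nat_lit 180],[nat_lit 181,nat_lit 182],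
    [nat_lit 175,nat_lit 177,nat_lit 185],[nat_lit 176],[],[],[nat_lit 172,nat_lit 174],[nat_lit 173],[],[],
    [nat_lit 187],[nat_lit 186,nat_lit 188],[],[],[nat_lit 183],[nat_lit 179,nat_lit 184]],[[],[],[nat_lit 198],
    [nat_lit 197,nat_lit 199],[],[],[nat_lit 195],[nat_lit 193,nat_lit 196],[nat_lit 192],[],[nat_lit 189,nat_lit 190,
    nat_lit 191,nat_lit 203,nat_lit 205],[nat_lit 204],[],[nat_lit 194],[nat_lit 200,nat_lit 202],[nat_lit 201]]]
    [[[nat_lit 0x20280000000000000000000000000000000000000000000,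
    nat_lit 0x20280000000000000000000000000000000000000000000,
    nat_lit 0x20280000000000000000000000000000000000000000000,
    nat_lit 0x20280000000000000000000000000000000000000000000,
    nat_lit 0x20280000000000000000000000000000000000000000000,
    nat_lit 0x10800000000000000000000000000000000000000000000,
    nat_lit 0x10800000000000000000000000000000000000000000000,
    nat_lit 0x10800000000000000000000000000000000000000000000,
    nat_lit 0x10800000000000000000000000000000000000000000000],[nat_lit 0,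
    nat_lit 0x6000000000000000000000000000000000000000000000,nat_lit 0x50000000000000000000000000000000000000000000,
    nat_lit 0x20000000000000000000000000000000000000000000,nat_lit 0,nat_lit 0,nat_lit 0,
    nat_lit 0x8000000000000000000000000000000000000000000000,
    nat_lit 0x8000000000000000000000000000000000000000000000],
    [nat_lit 0x1400000000000000000000000000000000000000000000,
    nat_lit 0x1400000000000000000000000000000000000000000000,nat_lit 0x30080000000000000,nat_lit 0x30080000000000000,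
    nat_lit 0x30080000000000000,nat_lit 0x30080000000000000,nat_lit 0x30080000000000000,nat_lit 0x4000000000000000,
    nat_lit 0x40500000000000000],[nat_lit 0x40500000000000000,nat_lit 0,nat_lit 0,nat_lit 0x800000000000000,
    nat_lit 0x800000000000000,nat_lit 0x800000000000000,nat_lit 0x800000000000000,nat_lit 0,
    nat_lit 0x8000000000000000],[nat_lit 0,nat_lit 0,nat_lit 0x2000000000000000,nat_lit 0x2000000000000000,nat_lit 64,
    nat_lit 136,nat_lit 34,nat_lit 34,nat_lit 34],[nat_lit 0,nat_lit 0,nat_lit 0,nat_lit 0,nat_lit 0,nat_lit 0x20910,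
    nat_lit 0x83404,nat_lit 0x83404,nat_lit 0x83404],[nat_lit 0x8000,nat_lit 0,nat_lit 0,nat_lit 0,
    nat_lit 0xc8000000000000000000000,nat_lit 0xc8000000000000000000000,nat_lit 0xc8000000000000000000000,
    nat_lit 0x10000000000000000000000,nat_lit 0x10000000000000000000000],[nat_lit 0x10000000000000000000000,
    nat_lit 0x10000000000000000000000,nat_lit 0x2000000000000000000000,nat_lit 0,nat_lit 0,
    nat_lit 0x4000000000000000000000,nat_lit 0x4000000000000000000000,nat_lit 0x5040000000000,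
    nat_lit 0x5040000000000],[nat_lit 0x5040000000000,nat_lit 0x8000000000000,nat_lit 0,nat_lit 0,nat_lit 0,
    nat_lit 0x50030000000000,nat_lit 0,nat_lit 0x600000000000,nat_lit 0]],[[nat_lit 0x600000000000000000000000000,
    nat_lit 0,nat_lit 0,nat_lit 0xc0000000000000000000000000,nat_lit 0xc0000000000000000000000000,
    nat_lit 0xc0000000000000000000000000,nat_lit 0x8000000000000000000000000000,nat_lit 0x800000000000000000000000000,
    nat_lit 0],[nat_lit 0x100000000000000000000000000,nat_lit 0x1000000000000000000000000000,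
    nat_lit 0x86000000000000000000,nat_lit 0x86000000000000000000,nat_lit 0x400000000000000000,nat_lit 0,nat_lit 0,
    nat_lit 0x800000000000000000,nat_lit 0x20000000000000000000],[nat_lit 0x40000000000000000000,
    nat_lit 0x40000000000000000000,nat_lit 0x1000000000000000000,nat_lit 0x1000000000000000000000000000000,
    nat_lit 0x1000000000000000000000000000000,nat_lit 0x1000000000000000000000000000000,
    nat_lit 0x1000000000000000000000000000000,nat_lit 0,nat_lit 0x4000000000000000000000000000000],[nat_lit 0,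
    nat_lit 0x400000000000000000000000000000,nat_lit 0x8000000000000000000000000000000,
    nat_lit 0x8000000000000000000000000000000,nat_lit 0x1000000000000000000000000,nat_lit 0,
    nat_lit 0x30300000000000000000000000,nat_lit 0xc00000000000000000000000,nat_lit 0x4000000000000000000000000],
    [nat_lit 0,nat_lit 0,nat_lit 0,nat_lit 0x400000000000000000000000000000000000,nat_lit 0,
    nat_lit 0x28260000000000000000000000000000000000,nat_lit 0,nat_lit 0,nat_lit 0],[nat_lit 0,nat_lit 0,nat_lit 0,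
    nat_lit 0x40000000000000000000000000000,nat_lit 0,nat_lit 0,nat_lit 0x100000000000000000000000000000,
    nat_lit 0x100000000000000000000000000000,nat_lit 0x100000000000000000000000000000],
    [nat_lit 0x100000000000000000000000000000,nat_lit 0x100000000000000000000000000000,
    nat_lit 0x400000000000000000000000000000000000000000,nat_lit 0x400000000000000000000000000000000000000000,
    nat_lit 0x400000000000000000000000000000000000000000,nat_lit 0x400000000000000000000000000000000000000000,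
    nat_lit 0,nat_lit 0x1000000000000000000000000000000000000000000,
    nat_lit 0x200000000000000000000000000000000000000000],[nat_lit 0,
    nat_lit 0xa0000000000000000000000000000000000000000,nat_lit 0xa0000000000000000000000000000000000000000,nat_lit 0,
    nat_lit 0,nat_lit 0,nat_lit 0,nat_lit 0,nat_lit 0],[nat_lit 0x6480000000000000000000000000000000,
    nat_lit 0x100000000000000000000000000000000,nat_lit 0,nat_lit 0,nat_lit 0x200000000000000000000000000000000,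
    nat_lit 0x30000000000000000000000000000000,nat_lit 0x30000000000000000000000000000000,nat_lit 0,
    nat_lit 0x40000000000000000000000000000000000000000000000000]],
    [[nat_lit 0x200000000000000000000000000000000000000000000000000,
    nat_lit 0x200000000000000000000000000000000000000000000000000,nat_lit 0,nat_lit 0,
    nat_lit 0x8000000000000000000000000000000000000000000000000,
    nat_lit 0xa0000000000000000000000000000000000000000000000000,
    nat_lit 0x2800e00000000000000000000000000000000000000000000000,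
    nat_lit 0x12000000000000000000000000000000000000000000000000,nat_lit 0],
    [nat_lit 0x4000000000000000000000000000000000000000000000000,nat_lit 0x100000000000000000000000000000000000000,
    nat_lit 0x100000000000000000000000000000000000000,nat_lit 0x8000000000000000000000000000000000000000,
    nat_lit 0x1000000000000000000000000000000000000000,nat_lit 0x1000000000000000000000000000000000000000,
    nat_lit 0x200000000000000000000000000000000000000,nat_lit 0,nat_lit 0],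
    [nat_lit 0x2000000000000000000000000000000000000000,nat_lit 0x2000000000000000000000000000000000000000,
    nat_lit 0x2000000000000000000000000000000000000000,nat_lit 0x2000000000000000000000000000000000000000,
    nat_lit 0x2000000000000000000000000000000000000000,nat_lit 0x40000000000000000000000000000000000000,
    nat_lit 0x14000000000000000000000000000000000000000,nat_lit 0,nat_lit 0],[nat_lit 0x200000,nat_lit 0x200000,
    nat_lit 0x20800000,nat_lit 0x20800000,nat_lit 0,nat_lit 0x8218400000,nat_lit 0x8218400000,nat_lit 0x8218400000,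
    nat_lit 0x100000],[nat_lit 0x40000000,nat_lit 0x40000000,nat_lit 0,nat_lit 0,nat_lit 0,nat_lit 0x4106000000,
    nat_lit 0x4106000000,nat_lit 0x480000000]]]
    [[[[nat_lit 0x200000000000000000000000000000000000000000000,
    nat_lit 0x80000000000000000000000000000000000000000000,nat_lit 0,nat_lit 0,
    nat_lit 0x80000000000000000000000000000000000000000000,nat_lit 0,
    nat_lit 0x800000000000000000000000000000000000000000000,nat_lit 0x800000000000000000000000000000000000000000000,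
    nat_lit 0],[nat_lit 0,nat_lit 0x4000000000000000000000000000000000000000000000,nat_lit 0,nat_lit 0,nat_lit 0,
    nat_lit 0,nat_lit 0,nat_lit 0,nat_lit 0],[nat_lit 0,nat_lit 0x1000000000000000000000000000000000000000000000,
    nat_lit 0x10000000000000000,nat_lit 0,nat_lit 0,nat_lit 0,nat_lit 0x10000000000000000,nat_lit 0,
    nat_lit 0x400000000000000],[nat_lit 0x400000000000000,nat_lit 0,nat_lit 0,nat_lit 0,nat_lit 0,
    nat_lit 0x800000000000000,nat_lit 0x800000000000000,nat_lit 0,nat_lit 0],[nat_lit 0,nat_lit 0,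
    nat_lit 0x2000000000000000,nat_lit 0x2000000000000000,nat_lit 0,nat_lit 136,nat_lit 34,nat_lit 0,nat_lit 0],
    [nat_lit 0,nat_lit 0,nat_lit 0,nat_lit 0,nat_lit 0,nat_lit 272,nat_lit 0,nat_lit 0x3000,nat_lit 0],[nat_lit 0,
    nat_lit 0,nat_lit 0,nat_lit 0,nat_lit 0,nat_lit 0x48000000000000000000000,nat_lit 0,
    nat_lit 0x10000000000000000000000,nat_lit 0x10000000000000000000000],[nat_lit 0,nat_lit 0x10000000000000000000000,
    nat_lit 0,nat_lit 0,nat_lit 0,nat_lit 0,nat_lit 0,nat_lit 0x4000000000000,nat_lit 0],[nat_lit 0x4000000000000,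
    nat_lit 0,nat_lit 0,nat_lit 0,nat_lit 0,nat_lit 0x10030000000000,nat_lit 0,nat_lit 0,nat_lit 0]],[[nat_lit 0,
    nat_lit 0,nat_lit 0,nat_lit 0,nat_lit 0x40000000000000000000000000,nat_lit 0,
    nat_lit 0x8000000000000000000000000000,nat_lit 0x800000000000000000000000000,nat_lit 0],
    [nat_lit 0x100000000000000000000000000,nat_lit 0,nat_lit 0,nat_lit 0x2000000000000000000,
    nat_lit 0x400000000000000000,nat_lit 0,nat_lit 0,nat_lit 0,nat_lit 0x20000000000000000000],[nat_lit 0,nat_lit 0,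
    nat_lit 0x1000000000000000000,nat_lit 0,nat_lit 0x1000000000000000000000000000000,
    nat_lit 0x1000000000000000000000000000000,nat_lit 0,nat_lit 0,nat_lit 0x4000000000000000000000000000000],
    [nat_lit 0,nat_lit 0,nat_lit 0,nat_lit 0,nat_lit 0,nat_lit 0,nat_lit 0x20100000000000000000000000,nat_lit 0,
    nat_lit 0x4000000000000000000000000],[nat_lit 0,nat_lit 0,nat_lit 0,
    nat_lit 0x400000000000000000000000000000000000,nat_lit 0,nat_lit 0x28260000000000000000000000000000000000,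
    nat_lit 0,nat_lit 0,nat_lit 0],[nat_lit 0,nat_lit 0,nat_lit 0,nat_lit 0x40000000000000000000000000000,nat_lit 0,
    nat_lit 0,nat_lit 0x100000000000000000000000000000,nat_lit 0x100000000000000000000000000000,
    nat_lit 0x100000000000000000000000000000],[nat_lit 0x100000000000000000000000000000,
    nat_lit 0x100000000000000000000000000000,nat_lit 0,nat_lit 0x400000000000000000000000000000000000000000,nat_lit 0,
    nat_lit 0x400000000000000000000000000000000000000000,nat_lit 0,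
    nat_lit 0x1000000000000000000000000000000000000000000,nat_lit 0],[nat_lit 0,nat_lit 0,nat_lit 0,nat_lit 0,
    nat_lit 0,nat_lit 0,nat_lit 0,nat_lit 0,nat_lit 0],[nat_lit 0x2400000000000000000000000000000000,nat_lit 0,
    nat_lit 0,nat_lit 0,nat_lit 0x200000000000000000000000000000000,nat_lit 0,nat_lit 0,nat_lit 0,nat_lit 0]],
    [[nat_lit 0x200000000000000000000000000000000000000000000000000,nat_lit 0,nat_lit 0,nat_lit 0,
    nat_lit 0x8000000000000000000000000000000000000000000000000,nat_lit 0,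
    nat_lit 0xc00000000000000000000000000000000000000000000000,nat_lit 0,nat_lit 0],[nat_lit 0,nat_lit 0,nat_lit 0,
    nat_lit 0,nat_lit 0,nat_lit 0,nat_lit 0x200000000000000000000000000000000000000,nat_lit 0,nat_lit 0],
    [nat_lit 0x2000000000000000000000000000000000000000,nat_lit 0x2000000000000000000000000000000000000000,nat_lit 0,
    nat_lit 0,nat_lit 0,nat_lit 0,nat_lit 0x10000000000000000000000000000000000000000,nat_lit 0,nat_lit 0],
    [nat_lit 0x200000,nat_lit 0,nat_lit 0x800000,nat_lit 0,nat_lit 0,nat_lit 0,nat_lit 0x10000000,nat_lit 0x208000000,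
    nat_lit 0],[nat_lit 0,nat_lit 0,nat_lit 0,nat_lit 0,nat_lit 0,nat_lit 0,nat_lit 0x4002000000,nat_lit 0]]]]
    (nat_lit 1) (nat_lit 1) (nat_lit 9)
    [[nat_lit 2,nat_lit 3,nat_lit 4,nat_lit 5,nat_lit 259,nat_lit 0x1000003,nat_lit 18,nat_lit 258,nat_lit 0x1002,
    nat_lit 0x100002,nat_lit 0x1000002,nat_lit 0x10000002,nat_lit 17,nat_lit 273,nat_lit 0x1000011,nat_lit 0x1011,
    nat_lit 257,nat_lit 0x1101,nat_lit 0x1111,nat_lit 0x1000101,nat_lit 0x10000101,nat_lit 0x1001,nat_lit 0x10001,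
    nat_lit 0x1010001,nat_lit 0x100001,nat_lit 0x10100001,nat_lit 0x1000001,nat_lit 0x1001011,nat_lit 0x1001001,
    nat_lit 0x11100001,nat_lit 0x11000001,nat_lit 0x10000001],[nat_lit 32,nat_lit 0x1020,nat_lit 0x2020,
    nat_lit 0x100020,nat_lit 272,nat_lit 0x1120,nat_lit 0x1110,nat_lit 0x2110,nat_lit 0x10000110,nat_lit 0x1010,
    nat_lit 0x2010,nat_lit 0x3020,nat_lit 0x101020,nat_lit 0x3010,nat_lit 0x4010,nat_lit 0x10010,nat_lit 0x11010,
    nat_lit 0x20010,nat_lit 0x100010,nat_lit 0x101010,nat_lit 0x200010,nat_lit 0x10200010,nat_lit 0x10100010,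
    nat_lit 0x10100110,nat_lit 0x10101010,nat_lit 0x1000010,nat_lit 0x1001010,nat_lit 0x10000010],[nat_lit 512,
    nat_lit 0x10000200,nat_lit 0x1100,nat_lit 0x2100,nat_lit 0x100100,nat_lit 0x10200100,nat_lit 0x10100100,
    nat_lit 0x200100,nat_lit 0x1000100,nat_lit 0x1010100,nat_lit 0x10000100,nat_lit 0x20200100,nat_lit 0x10010100,
    nat_lit 0x11000100],[nat_lit 0x2000,nat_lit 0x3000,nat_lit 0x4000,nat_lit 0x12000,nat_lit 0x10002000,
    nat_lit 0x11000,nat_lit 0x10101000,nat_lit 0x1001000,nat_lit 0x10001000],[nat_lit 0x20000,nat_lit 0x30000,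
    nat_lit 0x40000,nat_lit 0x10020000,nat_lit 0x110000,nat_lit 0x10110000,nat_lit 0x11010000,nat_lit 0x10010000],
    [nat_lit 0x200000,nat_lit 0x300000,nat_lit 0x400000,nat_lit 0x10300000,nat_lit 0x10200000,nat_lit 0x1100000,
    nat_lit 0x10100000,nat_lit 0x20200000,nat_lit 0x11100000],[nat_lit 0x2000000,nat_lit 0x11000000],
    [nat_lit 0x20000000]]
    [.c (nat_lit 1) (nat_lit 2),.c (nat_lit 0) (nat_lit 0x80006005),.c (nat_lit 8) (nat_lit 0x5002),
    .c (nat_lit 0) (nat_lit 0x28001e00d),.c (nat_lit 3) (nat_lit 0x2000007004),.c (nat_lit 3) (nat_lit 0x86104105144),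
    .c (nat_lit 0) (nat_lit 0x80006003),.c (nat_lit 0) (nat_lit 0x628000c00d),.c (nat_lit 3) (nat_lit 0x20000c3002),
    .c (nat_lit 0) (nat_lit 0x2004003),.c (nat_lit 0) (nat_lit 0x1c70cd34630d),.c (nat_lit 8) (nat_lit 0x3002),
    .c (nat_lit 0) (nat_lit 0x80006003),.c (nat_lit 0) (nat_lit 0x2100006005),.c (nat_lit 0) (nat_lit 0xc3005144105),
    .c (nat_lit 0) (nat_lit 0x80082003),.c (nat_lit 8) (nat_lit 0x3000003004),.c (nat_lit 4) (nat_lit 0x3000103004),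
    .c (nat_lit 0) (nat_lit 0x3140142004),.r (nat_lit 0xdb3) (nat_lit 7) [nat_lit 0x2084108005102,
    nat_lit 0x30c5005004002],.c (nat_lit 3) (nat_lit 0x2000003004),.c (nat_lit 0) (nat_lit 0x28030600d),
    .c (nat_lit 0) (nat_lit 0x80000006005),.c (nat_lit 0) (nat_lit 0x2104102144),.c (nat_lit 0) (nat_lit 0x2004003),
    .c (nat_lit 0) (nat_lit 0x2002003),.c (nat_lit 8) (nat_lit 0x82104100144),.c (nat_lit 0) (nat_lit 0x82004004144),
    .c (nat_lit 4) (nat_lit 0x82104200144),.c (nat_lit 0) (nat_lit 0x82100104144),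
    .c (nat_lit 3) (nat_lit 0x86104100144),.c (nat_lit 0) (nat_lit 0x80002005),.c (nat_lit 2) (nat_lit 2),
    .c (nat_lit 4) (nat_lit 0x100180003),.c (nat_lit 8) (nat_lit 0x100100003),.c (nat_lit 4) (nat_lit 0x102200003),
    .c (nat_lit 0) (nat_lit 0x2080000005),.c (nat_lit 0) (nat_lit 0x73c034000c),.c (nat_lit 0) (nat_lit 0x73c034000c),
    .c (nat_lit 0) (nat_lit 0x75c064000c),.c (nat_lit 0) (nat_lit 0x628000000d),.c (nat_lit 0) (nat_lit 0x100180007),
    .c (nat_lit 0) (nat_lit 0x240340006),.c (nat_lit 0) (nat_lit 0x1401c0002),.c (nat_lit 3) (nat_lit 0x4102080003),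
    .c (nat_lit 0) (nat_lit 0x1401c0002),.c (nat_lit 0) (nat_lit 0x440640006),
    .r (nat_lit 0x165b) (nat_lit 14) [nat_lit 0x2080000000142,nat_lit 129],.c (nat_lit 0) (nat_lit 0x1c00c034000c),
    .c (nat_lit 3) (nat_lit 0x84080000003),.r (nat_lit 0xdb7) (nat_lit 5) [nat_lit 129,nat_lit 0x2000000080002],
    .c (nat_lit 3) (nat_lit 0x2082080003),.r (nat_lit 0xdb3) (nat_lit 7) [nat_lit 0x821040000c2,
    nat_lit 0x30c5005004002],.c (nat_lit 3) (nat_lit 0x4084000003),.c (nat_lit 4) (nat_lit 0x82100003),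
    .c (nat_lit 0) (nat_lit 0x70cd00000c),.c (nat_lit 8) (nat_lit 0x82080003),.c (nat_lit 0) (nat_lit 0xc30c5143105),
    .c (nat_lit 0) (nat_lit 0x1860cc00634c),.c (nat_lit 0) (nat_lit 0x80000007),.c (nat_lit 3) (nat_lit 2),
    .c (nat_lit 4) (nat_lit 0x3000100002),.r (nat_lit 0xdb3) (nat_lit 7) [nat_lit 129,nat_lit 0x30c5005004002],
    .r (nat_lit 0xc0a) (nat_lit 7) [nat_lit 0x6080008140142,nat_lit 0x80308080142,nat_lit 0x724d3550cc102,
    nat_lit 0x8c008080142,nat_lit 0x80005080081],.c (nat_lit 0) (nat_lit 0x4006000007),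
    .c (nat_lit 0) (nat_lit 0x3005000002),.c (nat_lit 0) (nat_lit 0x3007000006),.c (nat_lit 0) (nat_lit 0x729900000c),
    .c (nat_lit 3) (nat_lit 0x84104102144),.c (nat_lit 0) (nat_lit 0x2104102144),
    .c (nat_lit 0) (nat_lit 0x628000000d),.c (nat_lit 0) (nat_lit 0x500d000006),
    .c (nat_lit 0) (nat_lit 0x1c300000000c),.c (nat_lit 4) (nat_lit 0x80104302144),.c (nat_lit 4) (nat_lit 2),
    .c (nat_lit 2) (nat_lit 0x100180003),.r (nat_lit 9) (nat_lit 3) [nat_lit 0x400019000182,nat_lit 0x100180001c1,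
    nat_lit 0x9400082,nat_lit 0x9000081,nat_lit 0x11461879460182,nat_lit 0x410000141,nat_lit 0x100000180001c2],
    .c (nat_lit 0) (nat_lit 0x1400001c0008),.r (nat_lit 0xdb7) (nat_lit 5) [nat_lit 0x20840000c1,
    nat_lit 0x2000000080002],.c (nat_lit 0) (nat_lit 0x1400001c0008),.c (nat_lit 0) (nat_lit 0x50c0004),
    .r (nat_lit 0xdb3) (nat_lit 7) [nat_lit 0x2104104085102,nat_lit 0x30c5005004002],
    .c (nat_lit 3) (nat_lit 0x20000c0002),.c (nat_lit 5) (nat_lit 2),.c (nat_lit 0) (nat_lit 0x1c0180000004),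
    .c (nat_lit 8) (nat_lit 0x100000000003),.c (nat_lit 8) (nat_lit 0x80000000003),
    .r (nat_lit 0xdb3) (nat_lit 7) [nat_lit 0x2080104000142,nat_lit 0x30c5005004002],
    .c (nat_lit 0) (nat_lit 0x1c028d00000c),.c (nat_lit 0) (nat_lit 0x14630c30634c),
    .c (nat_lit 0) (nat_lit 0x80000000007),.c (nat_lit 6) (nat_lit 2),.c (nat_lit 3) (nat_lit 0x4006000003),
    .c (nat_lit 0) (nat_lit 0x419000006),.c (nat_lit 0) (nat_lit 0x293000006),.c (nat_lit 3) (nat_lit 0x2004000003),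
    .c (nat_lit 0) (nat_lit 0x145243245209),.c (nat_lit 0) (nat_lit 0x2000005),.c (nat_lit 8) (nat_lit 0x4000003),
    .c (nat_lit 0) (nat_lit 0x104203204248),.c (nat_lit 7) (nat_lit 2),.c (nat_lit 0) (nat_lit 0x1c70cd34730d),
    .c (nat_lit 8) (nat_lit 2)]]

/-- nodes -/
noncomputable def rD8k_36_25 : List RJ :=
  [.l (nat_lit 11) (nat_lit 480) (nat_lit 3) (nat_lit 0xe7000000e7000000e6000000e6000000f0000001280000010000000100000000e8000000da000000e7000000e7000000e4000000e4000000ea000000ea) (nat_lit 0x41000000410000004200000042000000000000003800000028000000280000004e00000040000000410000004100000044000000440000003e0000003e)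
    (nat_lit 0x14c298598a52562f4598bf1322cc530a615228c548a314c298558a52462d4558bf1322ac530a614628c5489114a2944f0a41cc2a05d0821302e8528a5174288540a81562cc5209e1cc2b8600be0fc300528a51682204d0a816a2f4570a81e02e0570c81442b8648c91582b0520a02464ac730e62503c0801000f03408b9171c8258750ea17e2fc5f082200320780d8104300869211782303f0c21562cc600ba2002b8840f01703005f8d31782f05b0c21562cc600ba1a02b8600c010c1e0538a11482905b0aa1322643f0980f02885c0821182184f8991382704e0a214c298528a522e32469921132284500a613a274548a314c298528a522e3245f90d13e29c530a014628c548a914628c440a212c2b05e08c1382905189d140280530a61462a45a0ba1c82b05e0bc1382905189d140280560a612228c540a81d4280610c21442a8548a314c298530ac1522a44d0a81d42905b07e1382d8548a9158298560a6)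
    (nat_lit 0x14c780f01e03c0780f01e03c0780f01e03c0780f01e014c298f01e03c0780f01e03c0780f01e03c0780f01e01662ac4f1e03c0780f01e03c0780f01e03c0780f01e014a2945209e3c0780f01e03c0780f01e03c0780f01e025648c730e61e0780f01e03c0780f01e03c0780f01e017a2d4540ae1703c0f01e03c0780f01e03c0780f01e01662ac5d0c015c400781e03c0780f01e03c0780f01e017e2fc410be1904006c0f03c0780f01e03c0780f01e01322644c07e1441e0410b810c780f01e03c0780f01e01662ac5d0c015c340600c00f0218f01e03c0780f01e014c298528a519245c868bf14e27c501e03c0780f01e014c298528a519245c908d3142264530a03c0780f01e015228c5d0b41583905e0bc1482704e8a3140780f01e014628c51088158258460bc1482704e8a3140280f01e01522a45409a1483a83f0b616c270548a914c2b0531e0146244540a81403a8610c2154288518a914c298560a6)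
    (nat_lit 5) (nat_lit 49)
    [[nat_lit 2,nat_lit 17,nat_lit 0x1000011,nat_lit 257,nat_lit 0x1001,nat_lit 0x2001,nat_lit 0x101001,
    nat_lit 0x1001001,nat_lit 0x10001,nat_lit 0x10010001,nat_lit 0x100001,nat_lit 0x1000001,nat_lit 0x1010001,
    nat_lit 0x11000001,nat_lit 0x10000001],[nat_lit 32,nat_lit 0x1000020,nat_lit 272,nat_lit 0x1000110,nat_lit 0x1010,
    nat_lit 0x2010,nat_lit 0x101010,nat_lit 0x1001010,nat_lit 0x10010,nat_lit 0x1010010,nat_lit 0x100010,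
    nat_lit 0x1000010,nat_lit 0x10000010,nat_lit 0x11000010],[nat_lit 512,nat_lit 0x1100,nat_lit 0x2100,
    nat_lit 0x1001100,nat_lit 0x1000100,nat_lit 0x10000100],[nat_lit 0x2000,nat_lit 0x3000,nat_lit 0x12000,
    nat_lit 0x102000,nat_lit 0x1002000,nat_lit 0x10002000,nat_lit 0x11000,nat_lit 0x101000,nat_lit 0x1001000,
    nat_lit 0x1011000,nat_lit 0x2001000,nat_lit 0x11001000,nat_lit 0x10001000],[nat_lit 0x110000,nat_lit 0x1010000,
    nat_lit 0x10010000],[nat_lit 0x1100000],[nat_lit 0x2000000,nat_lit 0x3000000,nat_lit 0x11000000],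
    [nat_lit 0x20000000]]
    [.c (nat_lit 1) (nat_lit 2),.c (nat_lit 0) (nat_lit 0xc6639cc7),.c (nat_lit 0) (nat_lit 0x6239cc7),
    .r (nat_lit 0xdbb) (nat_lit 14) [nat_lit 0x860000c3,nat_lit 0x200001],.c (nat_lit 1) (nat_lit 0x6200006),
    .c (nat_lit 0) (nat_lit 0x1d429ce59),.c (nat_lit 0) (nat_lit 0x4430007),.c (nat_lit 7) (nat_lit 0x86300006),
    .r (nat_lit 0xdb2) (nat_lit 1) [nat_lit 0x860000c3,nat_lit 0x18c0739803],
    .r (nat_lit 0xdbb) (nat_lit 12) [nat_lit 0x18c07018e3,nat_lit 0x200001],.c (nat_lit 0) (nat_lit 0x210003),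
    .c (nat_lit 0) (nat_lit 0x8e29ce59),.r (nat_lit 0xdb4) (nat_lit 10) [nat_lit 0x200001,nat_lit 0x300861],
    .c (nat_lit 6) (nat_lit 0x80260007),.c (nat_lit 7) (nat_lit 0x100300006),.c (nat_lit 2) (nat_lit 2),
    .c (nat_lit 6) (nat_lit 0x884c31a6),.r (nat_lit 0xdbb) (nat_lit 12) [nat_lit 65,nat_lit 0x200001],
    .r (nat_lit 0x12f2) (nat_lit 14) [nat_lit 0x1884631d83,nat_lit 0x10c67319a3,nat_lit 0x200001,
    nat_lit 0x10c6739803],.c (nat_lit 0) (nat_lit 0xcc339cd9),.c (nat_lit 0) (nat_lit 0xcc339ccd),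
    .c (nat_lit 6) (nat_lit 0x802618e6),.c (nat_lit 0) (nat_lit 0x8479ce59),
    .r (nat_lit 0x165b) (nat_lit 14) [nat_lit 0x10061,nat_lit 65],
    .r (nat_lit 0xdb6) (nat_lit 8) [nat_lit 0x10c67018e3,nat_lit 0x104c31cc3],
    .r (nat_lit 0x164b) (nat_lit 4) [nat_lit 0x200061,nat_lit 65,nat_lit 0x10001],.c (nat_lit 0) (nat_lit 0x86339ccd),
    .c (nat_lit 0) (nat_lit 0xc6339cc9),.c (nat_lit 0) (nat_lit 0x94af7bf8),.c (nat_lit 3) (nat_lit 2),
    .r (nat_lit 0xdbb) (nat_lit 14) [nat_lit 65,nat_lit 0x200001],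
    .r (nat_lit 0xdb6) (nat_lit 8) [nat_lit 0x11400000c3,nat_lit 0x80210061],
    .r (nat_lit 0xdb2) (nat_lit 6) [nat_lit 0x10806300e3,nat_lit 0x18c0739803],
    .r (nat_lit 0xdb6) (nat_lit 8) [nat_lit 65,nat_lit 0x10806300e3],.r (nat_lit 0xdb2) (nat_lit 6) [nat_lit 0x210061,
    nat_lit 0x18c0739803],.c (nat_lit 4) (nat_lit 2),.c (nat_lit 0) (nat_lit 0x4010003),
    .r (nat_lit 0x12f2) (nat_lit 14) [nat_lit 0x19867319a3,nat_lit 0x11c4631d83,nat_lit 0x200001,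
    nat_lit 0x10c6739803],.c (nat_lit 0) (nat_lit 0x4010003),.c (nat_lit 7) (nat_lit 0x8a000006),
    .r (nat_lit 0xdbb) (nat_lit 4) [nat_lit 0x11400000c3,nat_lit 0x10001],.r (nat_lit 0xdb2) (nat_lit 1) [nat_lit 65,
    nat_lit 0x18c0739803],.c (nat_lit 0) (nat_lit 0x4010003),.c (nat_lit 0) (nat_lit 0x84030007),
    .r (nat_lit 0xdb4) (nat_lit 10) [nat_lit 0x200001,nat_lit 0x867018e3],
    .r (nat_lit 0xdbb) (nat_lit 4) [nat_lit 0x18c00000c3,nat_lit 0x10001],.c (nat_lit 6) (nat_lit 0x84060007),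
    .c (nat_lit 7) (nat_lit 0x106000006),.r (nat_lit 0xdb2) (nat_lit 6) [nat_lit 65,nat_lit 0x18c0739803],
    .r (nat_lit 0x12f2) (nat_lit 14) [nat_lit 0x10c67319a3,nat_lit 0x1884631d83,nat_lit 0x200001,
    nat_lit 0x10c6739803],.r (nat_lit 0xdb4) (nat_lit 10) [nat_lit 0x200001,nat_lit 0x18067018e3],
    .c (nat_lit 0) (nat_lit 0x80020007),.c (nat_lit 7) (nat_lit 2),.c (nat_lit 6) (nat_lit 0x80020003),
    .r (nat_lit 0xdbb) (nat_lit 4) [nat_lit 65,nat_lit 0x10001],.c (nat_lit 8) (nat_lit 2)],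
    .l (nat_lit 10) (nat_lit 240) (nat_lit 4) (nat_lit 0x71000000670000005c0000007c0000005c0000007c0000006d0000006d000000600000008800000082000000820000007100000071000000820000005c) (nat_lit 0x21000000170000000c0000002c0000000c0000002c0000001b0000001b0000000000000028000000060000000600000017000000170000002c00000006)
    (nat_lit 0x1405a19445194451585614c571ac6b14830114711185016c3b16c3b1304c1444d1845f198660ec670ec4514030140300cc41178341006c0fc450c04016c651c0501c050144611f8540e08817c65140300ec45140301403010441128441585422c830c05c16c651c05015850184610c0481d8761b4651407c1305618441184411786c1b44519cb3140561045f1305614433184411485e1b4450f489158420cc61134571503412044114450f8381b85a13c730d05a144531f85e0c04a1b46d2203e258821f4a11708217c6b2206c1d854224b32085a1307c1ac571d0701846b0e0401d8560f4672586e1f04c1ac6b2007c19830194451948310856284731ac571685a1146b1985217c3f1b48b158501f44f1ac6b1685a0fc6b19c710c0401f05c1845f2085a1f0701ac6b1787c0ec4514030140300cc4117034200740fc450c05e)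
    (nat_lit 0x140f03c0f03c0f03c0f03c0f03c0f03c0f03c0f0168503c0f03c0f03c0f03c0f03c0f03c0f03c0f01945b140f03c0f03c0f03c0f03c0f03c0f03c0f01143b0c0503c0f03c0f03c0f03c0f03c0f03c0f01945b14070140f03c0f03c0f03c0f03c0f03c0f01143b0c0500c0503c0f03c0f03c0f03c0f03c0f01584c0cc5110461178f03c0f03c0f03c0f03c0f01584c10461104611b05e3c0f03c0f03c0f03c0f014c511787e128301b46d0f8f03c0f03c0f03c0f015c4d0d05411048114450e03e3c0f03c0f03c0f01ac61100381587619c3d1b086130f03c0f03c0f01ac5f1b088150762cc89168821f04c3c0f03c0f0148660fc5f22c6d1405613c7d1ac6b168f03c0f00c066114651ac65158421cc8115c6b1685a3c0f01143b0c0500c050104330d05c1d0681143f178f01c467100301707c17c61168821c0701ac6b1c05e)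
    (nat_lit 3) (nat_lit 121)
    [[nat_lit 2,nat_lit 0x1000002,nat_lit 0x2000002,nat_lit 17,nat_lit 0x1000011,nat_lit 0x10011,nat_lit 0x10000011,
    nat_lit 0x11000011,nat_lit 0x1000101,nat_lit 0x1001,nat_lit 0x101001,nat_lit 0x1101001,nat_lit 0x1001001,
    nat_lit 0x10001001,nat_lit 0x10001,nat_lit 0x1010002,nat_lit 0x10101,nat_lit 0x1010001,nat_lit 0x100001,
    nat_lit 0x200001,nat_lit 0x1200001,nat_lit 0x1100001,nat_lit 0x1000001,nat_lit 0x2000001,nat_lit 0x10000001,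
    nat_lit 0x11000001],[nat_lit 32,nat_lit 0x10020,nat_lit 272,nat_lit 0x1000110,nat_lit 0x10101010,
    nat_lit 0x10001010,nat_lit 0x10010,nat_lit 0x10110,nat_lit 0x1010010,nat_lit 0x10010010,nat_lit 0x10100010,
    nat_lit 0x1000010,nat_lit 0x11000010,nat_lit 0x10000010,nat_lit 0x20000010],[nat_lit 512,nat_lit 768,
    nat_lit 0x100100,nat_lit 0x101100,nat_lit 0x1000100,nat_lit 0x1001100,nat_lit 0x1100100,nat_lit 0x11000100,
    nat_lit 0x10000100],[nat_lit 0x2000,nat_lit 0x3000,nat_lit 0x102000,nat_lit 0x202000,nat_lit 0x10002000,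
    nat_lit 0x11000,nat_lit 0x101000,nat_lit 0x201000,nat_lit 0x1101000,nat_lit 0x111000,nat_lit 0x10101000,
    nat_lit 0x1001000,nat_lit 0x10001000,nat_lit 0x10011000,nat_lit 0x11001000],[nat_lit 0x20000,nat_lit 0x110000,
    nat_lit 0x210000,nat_lit 0x1010000,nat_lit 0x1110000,nat_lit 0x2010000,nat_lit 0x11010000,nat_lit 0x10010000],
    [nat_lit 0x200000,nat_lit 0x300000,nat_lit 0x1200000,nat_lit 0x10200000,nat_lit 0x1100000,nat_lit 0x10100000],
    [nat_lit 0x2000000,nat_lit 0x11000000],[nat_lit 0x20000000]]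
    [.c (nat_lit 1) (nat_lit 2),.r (nat_lit 0xdb5) (nat_lit 8) [nat_lit 0x10a33,nat_lit 0xdb5bb],
    .r (nat_lit 0xdbb) (nat_lit 10) [nat_lit 0x100a36,nat_lit 0x400403],.c (nat_lit 0) (nat_lit 0x2087),
    .c (nat_lit 7) (nat_lit 0x30c6),.c (nat_lit 0) (nat_lit 0x2487),.c (nat_lit 8) (nat_lit 0x30c6),
    .r (nat_lit 0x151b) (nat_lit 3) [nat_lit 0x6c31b9,nat_lit 0x402003,nat_lit 0x90003],
    .c (nat_lit 0) (nat_lit 0xc00c6),.c (nat_lit 0) (nat_lit 0xdb637),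
    .r (nat_lit 0x13b7) (nat_lit 7) [nat_lit 0xc3633,nat_lit 0x3403,nat_lit 0x402003,nat_lit 0x90003],
    .r (nat_lit 0xdb7) (nat_lit 5) [nat_lit 0x90003,nat_lit 0x6185bb],.c (nat_lit 0) (nat_lit 0xdb637),
    .c (nat_lit 0) (nat_lit 0xdb637),.c (nat_lit 0) (nat_lit 0x487),.c (nat_lit 7) (nat_lit 0x746),
    .c (nat_lit 0) (nat_lit 0xc06c6),.r (nat_lit 0xdb5) (nat_lit 8) [nat_lit 0x13633,nat_lit 0xd81bb],
    .c (nat_lit 0) (nat_lit 0x10087),.c (nat_lit 0) (nat_lit 0x280c6),.c (nat_lit 0) (nat_lit 0x280c6),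
    .r (nat_lit 0xdb4) (nat_lit 11) [nat_lit 0x400403,nat_lit 0x2633],.c (nat_lit 0) (nat_lit 0xdb637),
    .r (nat_lit 0x163d) (nat_lit 9) [nat_lit 0x400403,nat_lit 0x600633,nat_lit 0x90003,nat_lit 0x402003],
    .c (nat_lit 0) (nat_lit 0xdb637),.c (nat_lit 0) (nat_lit 0xdb637),.c (nat_lit 2) (nat_lit 2),
    .c (nat_lit 0) (nat_lit 0x4407),.c (nat_lit 0) (nat_lit 0xc3006),.c (nat_lit 0) (nat_lit 0xc3006),
    .c (nat_lit 0) (nat_lit 0x1b006),.r (nat_lit 0xdb4) (nat_lit 11) [nat_lit 0x400403,nat_lit 0x6007bb],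
    .c (nat_lit 0) (nat_lit 0x2407),.c (nat_lit 0) (nat_lit 0xc3606),.c (nat_lit 7) (nat_lit 0x3606),
    .c (nat_lit 8) (nat_lit 0x3606),.c (nat_lit 0) (nat_lit 0x1b006),.r (nat_lit 0xdb5) (nat_lit 8) [nat_lit 17,
    nat_lit 0xc37bb],.r (nat_lit 0x13b7) (nat_lit 7) [nat_lit 0x6c57bb,nat_lit 0x3403,nat_lit 0x402003,
    nat_lit 0x90003],.r (nat_lit 0xdb7) (nat_lit 5) [nat_lit 0x90003,nat_lit 0x1a433],
    .r (nat_lit 0x164b) (nat_lit 4) [nat_lit 0x18012,nat_lit 0x90003,nat_lit 0x402003],.c (nat_lit 3) (nat_lit 2),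
    .c (nat_lit 0) (nat_lit 0xc0002),.c (nat_lit 0) (nat_lit 0xd8006),.c (nat_lit 0) (nat_lit 0xd8006),
    .r (nat_lit 0xdb4) (nat_lit 11) [nat_lit 0x400403,nat_lit 0x682033],
    .r (nat_lit 0xdb7) (nat_lit 5) [nat_lit 0x90003,nat_lit 0xd81bb],.c (nat_lit 0) (nat_lit 0xd8006),
    .r (nat_lit 0xdb7) (nat_lit 10) [nat_lit 0x90003,nat_lit 0xd81bb],
    .r (nat_lit 0x165b) (nat_lit 11) [nat_lit 0x40043b,nat_lit 17],.c (nat_lit 4) (nat_lit 2),
    .r (nat_lit 0x151b) (nat_lit 3) [nat_lit 17,nat_lit 0x402003,nat_lit 0x90003],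
    .r (nat_lit 0x13b7) (nat_lit 7) [nat_lit 0xc5036,nat_lit 0x3403,nat_lit 0x402003,nat_lit 0x90003],
    .c (nat_lit 0) (nat_lit 0x28006),.r (nat_lit 0x1016) (nat_lit 7) [nat_lit 0x10001,nat_lit 0x80001,nat_lit 0x3403,
    nat_lit 0x402003,nat_lit 0x4905f3],.c (nat_lit 0) (nat_lit 0xdb0f7),
    .r (nat_lit 0x151b) (nat_lit 3) [nat_lit 0xc0031,nat_lit 0x402003,nat_lit 0x90003],
    .c (nat_lit 0) (nat_lit 0x28006),.c (nat_lit 8) (nat_lit 0xc36f7),
    .r (nat_lit 0x13b7) (nat_lit 7) [nat_lit 0xc5033,nat_lit 0x3403,nat_lit 0x402003,nat_lit 0x90003],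
    .c (nat_lit 7) (nat_lit 0xc36f7),.c (nat_lit 0) (nat_lit 0xdb6f7),.c (nat_lit 0) (nat_lit 0xdb6f7),
    .c (nat_lit 0) (nat_lit 0xdb0f7),.c (nat_lit 0) (nat_lit 0xdb6f7),.c (nat_lit 5) (nat_lit 2),
    .c (nat_lit 0) (nat_lit 0x10407),.c (nat_lit 0) (nat_lit 0x28606),.c (nat_lit 0) (nat_lit 0xdb0f7),
    .r (nat_lit 0xdb4) (nat_lit 11) [nat_lit 0x400403,nat_lit 17],.r (nat_lit 0x163d) (nat_lit 9) [nat_lit 0x400403,
    nat_lit 0x603033,nat_lit 0x90003,nat_lit 0x402003],.c (nat_lit 0) (nat_lit 0xdb0f7),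
    .c (nat_lit 0) (nat_lit 0xdb0f7),.c (nat_lit 6) (nat_lit 2),.c (nat_lit 0) (nat_lit 0x18002),
    .c (nat_lit 0) (nat_lit 0x28006),.c (nat_lit 0) (nat_lit 0x28006),.r (nat_lit 0xdbb) (nat_lit 10) [nat_lit 17,
    nat_lit 0x400403],.r (nat_lit 0x164b) (nat_lit 4) [nat_lit 0xd8033,nat_lit 0x90003,nat_lit 0x402003],
    .c (nat_lit 7) (nat_lit 2),.c (nat_lit 0) (nat_lit 0xdb6f7),.c (nat_lit 8) (nat_lit 2)]]

/-- nodes -/
noncomputable def rD8k_36_26 : List RJ :=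
  [.l (nat_lit 10) (nat_lit 240) (nat_lit 3) (nat_lit 0x6b0000006b00000064000000600000006800000068000000600000006e00000070000000700000007e0000006c0000007b0000007b0000006c0000005a) (nat_lit 0x13000000130000001e0000001a0000001600000016000000100000001e0000000e0000000e000000120000000000000003000000030000002400000012)
    (nat_lit 0x16052134591545518c5517467124651d07211c5f1285813451154491744d1545b1646b1f87c0fc5f14459148581384e15846158540f86c16c611003c1344d118521504a1283c148521386015c630f04e124551284e1604e160401686014068194651105c154551504e160581604a1006214068194430f066134550f046128401203c148521c07a134630f04e17463128561605817848180601d88019c671003c16c67148541886018052140621887023453110621545d148561005a18052188501c07027463148701ac651806c1a0682007a1c0701d87e1a4691683c164491383e140501d8701c062168761a4690f85a1f07218c6110c6519c6318c531a4691e07819c691f87415c5b1946519c4d2748d1a4691e0781446917c5f1383c1985c0f04e1c0621683c1a4690f05a0fc470f0400f0441003c148440f85a144670f03c)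
    (nat_lit 0x160f03c0f03c0f03c0f03c0f03c0f03c0f03c0f0148583c0f03c0f03c0f03c0f03c0f03c0f03c0f01344d148f03c0f03c0f03c0f03c0f03c0f03c0f016451160523c0f03c0f03c0f03c0f03c0f03c0f01545513854160f03c0f03c0f03c0f03c0f03c0f0154491384a138583c0f03c0f03c0f03c0f03c0f018c5d1584a16058120f03c0f03c0f03c0f03c0f01544d1183c1004a0f0483c0f03c0f03c0f03c0f017455158521684014860140f03c0f03c0f03c0f019c5b150521806214860188503c0f03c0f03c0f0124590f84e140501c076188701d8f03c0f03c0f01946b1b0601a0681e8801c0701f8763c0f03c0f01d07e16c5719465134672349d1a4691e0f03c0f01c87c184631944318c6714c631a4691e0783c0f011c3f1003c1103c0f040110521683e19c510f0f017c5f0f04e170661383c188700f05a1a4691683c)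
    (nat_lit 5) (nat_lit 79)
    [[nat_lit 2,nat_lit 3,nat_lit 258,nat_lit 0x10002,nat_lit 0x100002,nat_lit 0x1000002,nat_lit 0x10000002,
    nat_lit 17,nat_lit 257,nat_lit 0x1000101,nat_lit 0x1001,nat_lit 0x11001,nat_lit 0x101001,nat_lit 0x1001001,
    nat_lit 0x10001,nat_lit 0x10101,nat_lit 0x20001,nat_lit 0x1010001,nat_lit 0x110001,nat_lit 0x10010001,
    nat_lit 0x100001,nat_lit 0x100101,nat_lit 0x1100001,nat_lit 0x10100001,nat_lit 0x1000001,nat_lit 0x2000001,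
    nat_lit 0x11000001,nat_lit 0x10000001,nat_lit 0x10000101],[nat_lit 272,nat_lit 0x10010,nat_lit 0x110010,
    nat_lit 0x100010,nat_lit 0x1000010,nat_lit 0x1100010],[nat_lit 512,nat_lit 0x1100,nat_lit 0x100100,
    nat_lit 0x1000100,nat_lit 0x10000100],[nat_lit 0x2000,nat_lit 0x11000,nat_lit 0x101000,nat_lit 0x111000,
    nat_lit 0x1101000,nat_lit 0x1001000,nat_lit 0x10001000],[nat_lit 0x20000,nat_lit 0x30000,nat_lit 0x120000,
    nat_lit 0x1020000,nat_lit 0x110000,nat_lit 0x1110000,nat_lit 0x1010000,nat_lit 0x2010000,nat_lit 0x10010000],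
    [nat_lit 0x200000,nat_lit 0x1100000,nat_lit 0x2100000,nat_lit 0x11100000,nat_lit 0x10100000],[nat_lit 0x2000000,
    nat_lit 0x11000000],[nat_lit 0x20000000]]
    [.c (nat_lit 1) (nat_lit 2),.r (nat_lit 0x151b) (nat_lit 14) [nat_lit 0x3180000062,nat_lit 0x210001,
    nat_lit 0x19ca529042],.r (nat_lit 0x151b) (nat_lit 14) [nat_lit 0x2100000061,nat_lit 0x210001,
    nat_lit 0x1946318841],.r (nat_lit 0x13fd) (nat_lit 9) [nat_lit 0x84210c41,nat_lit 0x200001,nat_lit 0x4500001,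
    nat_lit 0xc6318801,nat_lit 0x210001],.c (nat_lit 0) (nat_lit 0x8200003),.c (nat_lit 0) (nat_lit 0x8200003),
    .r (nat_lit 0x9ee) (nat_lit 9) [nat_lit 0xa800001,nat_lit 0x25294a001,nat_lit 0x8040001,nat_lit 0x20c0000a1,
    nat_lit 0x8000001],.c (nat_lit 0) (nat_lit 0x4010003),.c (nat_lit 0) (nat_lit 0x84000005),
    .c (nat_lit 0) (nat_lit 0x8c200005),.c (nat_lit 0) (nat_lit 0x4200803),
    .r (nat_lit 0x158a) (nat_lit 7) [nat_lit 0x10001,nat_lit 0xc6318801,nat_lit 0x200001,nat_lit 0x84010061],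
    .c (nat_lit 0) (nat_lit 0x4200803),.c (nat_lit 2) (nat_lit 0x4020803),
    .r (nat_lit 0x151b) (nat_lit 14) [nat_lit 0x1006318861,nat_lit 0x210001,nat_lit 65],
    .c (nat_lit 3) (nat_lit 0x80318c43),.c (nat_lit 3) (nat_lit 0x86529483),
    .r (nat_lit 0xdbb) (nat_lit 1) [nat_lit 0xc0010041,nat_lit 0x200001],
    .r (nat_lit 0xf40) (nat_lit 12) [nat_lit 0x18001,nat_lit 0x210001,nat_lit 0x18c6529061,nat_lit 0x4020001,
    nat_lit 0x1084020061],.r (nat_lit 0x158a) (nat_lit 7) [nat_lit 0x10001,nat_lit 0xc6318801,nat_lit 0x200001,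
    nat_lit 0x84000061],.c (nat_lit 0) (nat_lit 0x4200003),.r (nat_lit 0xdbb) (nat_lit 6) [nat_lit 0x1946318841,
    nat_lit 0x200001],.c (nat_lit 0) (nat_lit 0x8200003),.c (nat_lit 0) (nat_lit 0x4200003),
    .c (nat_lit 0) (nat_lit 0x4010003),.c (nat_lit 0) (nat_lit 0x8200003),.c (nat_lit 2) (nat_lit 0x4020003),
    .c (nat_lit 0) (nat_lit 0x4200003),.r (nat_lit 0xdbb) (nat_lit 1) [nat_lit 0x1946300841,nat_lit 0x200001],
    .r (nat_lit 0xdbb) (nat_lit 1) [nat_lit 0xc6000861,nat_lit 0x200001],.c (nat_lit 0) (nat_lit 0x8c6010a4),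
    .c (nat_lit 0) (nat_lit 0x8c6010a4),.r (nat_lit 0x151b) (nat_lit 3) [nat_lit 0x4230061,nat_lit 0xc6318801,
    nat_lit 65],.c (nat_lit 3) (nat_lit 0x80018002),.r (nat_lit 0xdbb) (nat_lit 1) [nat_lit 0x1946301062,
    nat_lit 0x200001],.c (nat_lit 3) (nat_lit 2),.c (nat_lit 0) (nat_lit 0x84201005),
    .r (nat_lit 0x165b) (nat_lit 1) [nat_lit 0xc6318861,nat_lit 65],.c (nat_lit 0) (nat_lit 0x8c200005),
    .c (nat_lit 0) (nat_lit 0x84200005),.c (nat_lit 4) (nat_lit 2),.r (nat_lit 0xdbb) (nat_lit 1) [nat_lit 65,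
    nat_lit 0x200001],.c (nat_lit 0) (nat_lit 0x201003),.c (nat_lit 0) (nat_lit 0x8c2200a4),
    .c (nat_lit 3) (nat_lit 0x80300c02),.c (nat_lit 0) (nat_lit 0x4200803),.c (nat_lit 2) (nat_lit 0x20803),
    .c (nat_lit 5) (nat_lit 2),.c (nat_lit 0) (nat_lit 0x1a4c631a4),.c (nat_lit 0) (nat_lit 0x8c4210a2),
    .c (nat_lit 0) (nat_lit 0x8c4210a2),.r (nat_lit 0xdbb) (nat_lit 6) [nat_lit 65,nat_lit 0x200001],
    .r (nat_lit 0xdbb) (nat_lit 1) [nat_lit 0x1946519061,nat_lit 0x200001],.c (nat_lit 0) (nat_lit 0xc6329485),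
    .r (nat_lit 0xf40) (nat_lit 12) [nat_lit 0x18001,nat_lit 0x210001,nat_lit 65,nat_lit 0x4020001,
    nat_lit 0x2108441441],.r (nat_lit 0xdbb) (nat_lit 1) [nat_lit 0x10041,nat_lit 0x200001],
    .c (nat_lit 6) (nat_lit 2),.c (nat_lit 0) (nat_lit 0x4200003),.c (nat_lit 3) (nat_lit 0x100300002),
    .c (nat_lit 3) (nat_lit 0x80300002),.c (nat_lit 0) (nat_lit 0x200005),.c (nat_lit 7) (nat_lit 2),
    .c (nat_lit 0) (nat_lit 0x4200003),.c (nat_lit 8) (nat_lit 2)],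
    .l (nat_lit 12) (nat_lit 720) (nat_lit 3) (nat_lit 0x1680000016800000144000001440000013500000135000001380000013800000134000001340000012b0000012b0000012f0000012f0000012f0000012f) (nat_lit 0x24000000240000003300000033000000300000003000000034000000340000003d0000003d00000039000000390000003900000039)
    (nat_lit 0x16816814414413513513813812c13412b12114112f12f12f1681681441440ab13513813813409e12b12b12f12f12f12f1441441201201111111aa19e11011010710710b10b10b10b14414412012011111113212610e11010710710b0ff10b10b1351351111110f01021051051010e31040fa0fc0fc0fc0fc0ab1351111111020f01051051011010f81000fc0fc0fc0fc13813812619e1051051081080fc1040fb0fb0ff0ff0ff0ff1381381321aa1051051081081041040fb0f30ff0ff0ff0ff09e1341101101010e31041041081000f70f70fb0fb0fb0fb13412c10e1101011011040fc1001080ef0f71050f310510512b1211071071000fa0f30fb0f70f70f60ee0e80fa0fa0e812b12b1071070f81040fb0fb0ef0f70ee0f60f20f20f20f212f12f0ff10b0fc0fc0ff0ff0f30fb0f20fa0f60f60f60f612f14110b10b0fc0fc0ff0ff1050fb0f20e80f60f60f60f612f12f10b10b0fc0fc0ff0ff1050fb0f20e80f60f60e40f612f12f10b10b0fc0fc0ff0ff1050fb0f20fa0f60f60f60e4)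
    (nat_lit 0x1682d02d02d02d02d02d02d02d02d02d02d02d02d02d02d01681682d02d02d02d02d02d02d02d02d02d02d02d02d02d01441441202d02d02d02d02d02d02d02d02d02d02d02d02d01441441201202d02d02d02d02d02d02d02d02d02d02d02d01350ab1111110f02d02d02d02d02d02d02d02d02d02d02d01351351111111020f02d02d02d02d02d02d02d02d02d02d01381381aa1321051051082d02d02d02d02d02d02d02d02d013813819e1261051051081082d02d02d02d02d02d02d02d012c13411010e1011010fc1041082d02d02d02d02d02d02d013409e1101100e31011041041001082d02d02d02d02d02d012b12b1071071040f80fb0fb0f70ef0f62d02d02d02d02d012112b1071070fa1000fb0f30f70f70ee0f62d02d02d02d014112f10b10b0fc0fc0ff0ff0fb1050e80f20f62d02d02d012f12f10b0ff0fc0fc0ff0ff0fb0f30fa0f20f60f62d02d012f12f10b10b0fc0fc0ff0ff0fb1050fa0f20f60f60e42d012f12f10b10b0fc0fc0ff0ff0fb1050e80f20f60f60f60e4)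
    (nat_lit 4) (nat_lit 27)
    [[nat_lit 2,nat_lit 3,nat_lit 258,nat_lit 17,nat_lit 257,nat_lit 0x1001,nat_lit 0x10001,nat_lit 0x100001,
    nat_lit 0x1000001,nat_lit 0x10000001],[nat_lit 32,nat_lit 272,nat_lit 0x1010,nat_lit 0x10010,nat_lit 0x100010,
    nat_lit 0x1000010,nat_lit 0x10000010],[nat_lit 512,nat_lit 0x1100,nat_lit 0x10001100,nat_lit 0x10100,
    nat_lit 0x100100,nat_lit 0x1000100,nat_lit 0x10000100],[nat_lit 0x2000,nat_lit 0x11000,nat_lit 0x101000,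
    nat_lit 0x1001000,nat_lit 0x10001000,nat_lit 0x10101000],[nat_lit 0x20000,nat_lit 0x110000,nat_lit 0x10010000],
    [nat_lit 0x200000,nat_lit 0x1100000,nat_lit 0x10100000],[nat_lit 0x2000000,nat_lit 0x11000000],[]]
    [.c (nat_lit 1) (nat_lit 2),.r (nat_lit 0xdb3) (nat_lit 0) [nat_lit 0x72043,nat_lit 0x20600046],
    .r (nat_lit 0xdb4) (nat_lit 6) [nat_lit 0x2000001,nat_lit 0x230042],.c (nat_lit 1) (nat_lit 0x32004),
    .c (nat_lit 0) (nat_lit 0x3d705cd),.c (nat_lit 0) (nat_lit 0x200600d),.c (nat_lit 0) (nat_lit 0x202003),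
    .c (nat_lit 0) (nat_lit 0x640d),.r (nat_lit 0xdb3) (nat_lit 0) [nat_lit 0x32043,nat_lit 0x20640046],
    .c (nat_lit 0) (nat_lit 0x3d705cd),.c (nat_lit 2) (nat_lit 2),.c (nat_lit 0) (nat_lit 0x3d075cd),
    .c (nat_lit 0) (nat_lit 0x206000d),.c (nat_lit 0) (nat_lit 0x220003),.c (nat_lit 0) (nat_lit 0x6040d),
    .r (nat_lit 0xdb3) (nat_lit 0) [nat_lit 0x302043,nat_lit 0x20460046],.c (nat_lit 0) (nat_lit 0x3d075cd),
    .c (nat_lit 3) (nat_lit 2),.r (nat_lit 0xdb2) (nat_lit 14) [nat_lit 33,nat_lit 0x5330452],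
    .r (nat_lit 0xdb3) (nat_lit 0) [nat_lit 0x5330452,nat_lit 0x4d665cdc],.r (nat_lit 0xdb4) (nat_lit 14) [nat_lit 33,
    nat_lit 0x30705cd6],.r (nat_lit 0xdb5) (nat_lit 14) [nat_lit 33,nat_lit 0x5330452],
    .r (nat_lit 0xdb4) (nat_lit 6) [nat_lit 0x2000001,nat_lit 0x220042],.c (nat_lit 0) (nat_lit 0x3d705cd),
    .c (nat_lit 4) (nat_lit 2),.r (nat_lit 0x11cb) (nat_lit 2) [nat_lit 0x2001,nat_lit 0x3000021,nat_lit 0x2000001,
    nat_lit 0x2c6000d2],.c (nat_lit 0) (nat_lit 0x200640d),.r (nat_lit 0xdb3) (nat_lit 0) [nat_lit 0x300020c3,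
    nat_lit 0x220042],.r (nat_lit 0xdb7) (nat_lit 13) [nat_lit 33,nat_lit 0x5330452],
    .r (nat_lit 0xdb4) (nat_lit 6) [nat_lit 0x2000001,nat_lit 0x3000231],.c (nat_lit 5) (nat_lit 2),
    .c (nat_lit 4) (nat_lit 0x2700306),.r (nat_lit 0x165b) (nat_lit 0) [nat_lit 0x2000031,nat_lit 33],
    .c (nat_lit 6) (nat_lit 2),.r (nat_lit 0xdb3) (nat_lit 0) [nat_lit 33,nat_lit 0x20663066],
    .r (nat_lit 0x1255) (nat_lit 10) [nat_lit 0x2001,nat_lit 0x3061,nat_lit 0x2000001,nat_lit 0x3d700cd2],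
    .c (nat_lit 7) (nat_lit 2),.r (nat_lit 0xdb3) (nat_lit 4) [nat_lit 33,nat_lit 0x30075cd6]],
    .l (nat_lit 13) (nat_lit 0x5a0) (nat_lit 3) (nat_lit 0x39f000002b3000002bf000002bf0000028000000328000002c4000002c000000288000003d00000030e0000030e00000399000002d5000002bf000002bf) (nat_lit 0x11d000000310000011100000111000000a800000150000001100000010c0000000000000148000000c2000000c2000000fb000000370000011100000111)
    (nat_lit 0x1410d6852829414e8a3452a29315b8a545ba2dd13005a051c28e0ed0a083441a210586943461a10ce86b43d61f10dc05a033819c0d10a502d816a10e85bc2da1b315f85dc6223130e50a3835c1ae0d10a502d416c10e85bc2fa16915f85dc51a2910e50a382e01ae0d28a342de16f11105d02e016e0f605a83701be0c286e42d21691058a7443a21d168088843c21c0b407804cc2660d1899c42e2170d08a4c2d21b310e05b836816816205d85183c20e48a3441a23d0d18a542fa16d10f05c03101b416005e03bc3140e58a3c2e21a10d68a542ee1770f005a82f01760b905a03801c60cd89c42e21710ce8adc57e2bf0b407b05802c41e805c861c30e197901457e2bf0f88b7452231313306f86283c218707183c024c1098b5c5ca1a30f58b7451a31113306e03bc28c18707004981e01098b5c7fa2bb0b405a051c28e13386e451e28d20289c45ae2d70f00d885102880dc09803941ca0d186143961c9197866c4262130b407803881c40ce0a3835c1ae10b85a434223d15f85c45761a30e20a203e42200ce0a382e01ae10b85a42e220d15f85c47fa2e50e20a203841f2)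
    (nat_lit 0x1411680b405a02d01680b405a02d01680b405a02d01680b405a01ad0a08b405a02d01680b405a02d01680b405a02d01680b405a014a06882d85a02d01680b405a02d01680b405a02d01680b405a014a06882d416c2d01680b405a02d01680b405a02d01680b405a014e882c43a21d1111680b405a02d01680b405a02d01680b405a014686942de16f0ba0888b405a02d01680b405a02d01680b405a014a868c2da17d0b808783685a02d01680b405a02d01680b405a014986843661690b708702d01b42d01680b405a02d01680b405a015b867457e2bf0f605a05882c00b91680b405a02d01680b405a014a86b42ee1770b507802ec1780b405c8b405a02d01680b405a016e87ac62228d0dc09985181de0e00c383c05a02d01680b405a016e87c46262910df09987843140e30c384981e02d01680b405a013006e03941ca0c2868c3921cb0cd8bb44262130f01680b405a00b405a051c28e0dc899c51a28f1388c145ae2d71680780b405a0147067035c1700b4885c41a1710b88afc5ca3cf14407103e45a0147067035c1ae0b4885c47a1a10b88afc3462bb14407104401f2)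
    (nat_lit 4) (nat_lit 61)
    [[nat_lit 2,nat_lit 0x100002,nat_lit 0x1000002,nat_lit 17,nat_lit 0x100011,nat_lit 0x10000011,nat_lit 0x1001,
    nat_lit 0x101001,nat_lit 0x10001001,nat_lit 0x10001,nat_lit 0x10002,nat_lit 0x10101,nat_lit 0x20001,
    nat_lit 0x110001,nat_lit 0x1010001,nat_lit 0x100001,nat_lit 0x100101,nat_lit 0x1100001,nat_lit 0x1000001,
    nat_lit 0x2000001,nat_lit 0x10000001],[nat_lit 32,nat_lit 0x100020,nat_lit 0x10000020,nat_lit 272,
    nat_lit 0x10000110,nat_lit 0x101010,nat_lit 0x10001010,nat_lit 0x10010,nat_lit 0x10010010,nat_lit 0x100010,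
    nat_lit 0x10100010,nat_lit 0x200010,nat_lit 0x1000010,nat_lit 0x11000010,nat_lit 0x10000010],[nat_lit 512,
    nat_lit 0x1100,nat_lit 0x101100,nat_lit 0x100100,nat_lit 0x10000100],[nat_lit 0x2000,nat_lit 0x3000,
    nat_lit 0x102000,nat_lit 0x11000,nat_lit 0x101000,nat_lit 0x111000,nat_lit 0x1101000,nat_lit 0x201000,
    nat_lit 0x1001000,nat_lit 0x10001000],[nat_lit 0x20000,nat_lit 0x30000,nat_lit 0x120000,nat_lit 0x1020000,
    nat_lit 0x110000,nat_lit 0x1110000,nat_lit 0x1010000,nat_lit 0x2010000,nat_lit 0x10010000],[nat_lit 0x200000,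
    nat_lit 0x1100000,nat_lit 0x2100000,nat_lit 0x10100000],[nat_lit 0x2000000,nat_lit 0x3000000,nat_lit 0x11000000],
    [nat_lit 0x20000000]]
    [.c (nat_lit 1) (nat_lit 2),.r (nat_lit 0x165f) (nat_lit 0) [nat_lit 0x4200031,nat_lit 0x20001,nat_lit 0x2001,
    nat_lit 0x200001,nat_lit 0x59755421,nat_lit 0x44200031],.r (nat_lit 0xdb3) (nat_lit 3) [nat_lit 0x37303221,
    nat_lit 0x2002001],.c (nat_lit 0) (nat_lit 0x200203),.r (nat_lit 0x611) (nat_lit 8) [nat_lit 0x200001,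
    nat_lit 0x35535221,nat_lit 0x20001,nat_lit 0x22202031,nat_lit 0x2001,nat_lit 0x303021],
    .r (nat_lit 0xdc2) (nat_lit 13) [nat_lit 0x22002031,nat_lit 0x33330201],
    .r (nat_lit 0xdb3) (nat_lit 3) [nat_lit 0x35333221,nat_lit 0x2002001],
    .r (nat_lit 0xdc2) (nat_lit 13) [nat_lit 0x22220031,nat_lit 0x33330201],
    .r (nat_lit 0x165b) (nat_lit 1) [nat_lit 0x35553221,nat_lit 0x22220031],.c (nat_lit 1) (nat_lit 0x2422232),
    .r (nat_lit 0x117b) (nat_lit 8) [nat_lit 0x59555421,nat_lit 0x42333231,nat_lit 0x22001,nat_lit 0x32393231],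
    .c (nat_lit 0) (nat_lit 0x222232),.r (nat_lit 0x117b) (nat_lit 8) [nat_lit 0x35333221,nat_lit 0x23555431,
    nat_lit 0x22001,nat_lit 0x535b5431],.r (nat_lit 0x165f) (nat_lit 0) [nat_lit 0x30033231,nat_lit 0x20001,
    nat_lit 0x2001,nat_lit 0x200001,nat_lit 0x35533221,nat_lit 0x20033231],
    .r (nat_lit 0xdb3) (nat_lit 3) [nat_lit 0x3020021,nat_lit 0x2002001],.c (nat_lit 0) (nat_lit 0x220003),
    .c (nat_lit 0) (nat_lit 0x3300002),.c (nat_lit 0) (nat_lit 0x640005),.c (nat_lit 8) (nat_lit 0x300002),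
    .r (nat_lit 0x1151) (nat_lit 5) [nat_lit 0x4004031,nat_lit 0x3333201,nat_lit 0x5040021,nat_lit 33],
    .c (nat_lit 0) (nat_lit 0x220003),.c (nat_lit 2) (nat_lit 2),.r (nat_lit 0x9d1) (nat_lit 7) [nat_lit 0x7777601,
    nat_lit 0x405021,nat_lit 0x70204031,nat_lit 0x66000001,nat_lit 0x302021],.c (nat_lit 0) (nat_lit 0x20502),
    .r (nat_lit 0xdb3) (nat_lit 3) [nat_lit 0x3300231,nat_lit 0x2002001],.c (nat_lit 0) (nat_lit 0x3020302),
    .c (nat_lit 0) (nat_lit 0x3302),.c (nat_lit 0) (nat_lit 0x5704),.c (nat_lit 0) (nat_lit 0x3333023),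
    .r (nat_lit 0xdc2) (nat_lit 13) [nat_lit 0x3330231,nat_lit 0x33330201],
    .r (nat_lit 0x14a4) (nat_lit 5) [nat_lit 0x35333201,nat_lit 0x22000001,nat_lit 0x3300021,nat_lit 0x2222031],
    .c (nat_lit 2) (nat_lit 0x30202),.c (nat_lit 2) (nat_lit 0x50602),.c (nat_lit 0) (nat_lit 0x200203),
    .r (nat_lit 0xdc2) (nat_lit 13) [nat_lit 0x20003021,nat_lit 0x33330201],.c (nat_lit 0) (nat_lit 517),
    .c (nat_lit 3) (nat_lit 2),.c (nat_lit 0) (nat_lit 0x3003002),.c (nat_lit 0) (nat_lit 0x3003002),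
    .r (nat_lit 0x165b) (nat_lit 1) [nat_lit 0x3333231,nat_lit 33],.r (nat_lit 0xdc2) (nat_lit 13) [nat_lit 33,
    nat_lit 0x33330201],.c (nat_lit 4) (nat_lit 2),.c (nat_lit 6) (nat_lit 0x46003),.c (nat_lit 0) (nat_lit 0x57004),
    .r (nat_lit 0xdb3) (nat_lit 3) [nat_lit 33,nat_lit 0x2002001],.c (nat_lit 0) (nat_lit 0x46005),
    .r (nat_lit 0xdc2) (nat_lit 13) [nat_lit 0x3003231,nat_lit 0x33330201],
    .r (nat_lit 0xdc2) (nat_lit 13) [nat_lit 0x20330021,nat_lit 0x33330201],.c (nat_lit 2) (nat_lit 0x53402),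
    .r (nat_lit 0x1151) (nat_lit 5) [nat_lit 0x2024031,nat_lit 0x3333201,nat_lit 0x3020021,nat_lit 0x2030021],
    .c (nat_lit 0) (nat_lit 0x22003),.c (nat_lit 5) (nat_lit 2),.r (nat_lit 0x117b) (nat_lit 8) [nat_lit 33,
    nat_lit 0x7777631,nat_lit 0x22001,nat_lit 0x777d7631],.r (nat_lit 0x165f) (nat_lit 0) [nat_lit 0x55355431,
    nat_lit 0x20001,nat_lit 0x2001,nat_lit 0x200001,nat_lit 0x300021,nat_lit 0x5355431],
    .r (nat_lit 0xdb3) (nat_lit 3) [nat_lit 0x22242321,nat_lit 0x2002001],.c (nat_lit 0) (nat_lit 0x3303323),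
    .c (nat_lit 0) (nat_lit 0x7737765),.c (nat_lit 8) (nat_lit 0x2222232),
    .r (nat_lit 0x1151) (nat_lit 5) [nat_lit 0x30332231,nat_lit 0x3333201,nat_lit 0x20262321,nat_lit 0x24222321],
    .c (nat_lit 0) (nat_lit 0x3303323),.c (nat_lit 6) (nat_lit 2),.c (nat_lit 0) (nat_lit 0x220003),
    .r (nat_lit 0x14a5) (nat_lit 11) [nat_lit 0x4200031,nat_lit 0x2001,nat_lit 0x40300021,nat_lit 0x20001,
    nat_lit 0x55355431,nat_lit 0x200001],.c (nat_lit 0) (nat_lit 0x20007),.c (nat_lit 7) (nat_lit 2),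
    .r (nat_lit 0xe13) (nat_lit 15) [nat_lit 33,nat_lit 0x22000001,nat_lit 0x3333201,nat_lit 0x70006031,
    nat_lit 0x60060021],.c (nat_lit 0) (nat_lit 0x220003),.c (nat_lit 8) (nat_lit 2)]]

/-- nodes -/
noncomputable def rD8k_36_27 : List RJ :=
  [.l (nat_lit 13) (nat_lit 0x5a0) (nat_lit 3) (nat_lit 0x2d1000002d1000002c5000002d1000002cb000002cb000002cb000002cb000002ce000002ce000002f2000002f2000003b000000330000002cb000002cb) (nat_lit 0xdf000000df000000df000000eb000000e5000000e5000000e5000000e5000000e2000000e2000000be000000be0000008000000000000000e5000000e5)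
    (nat_lit 0x10207c83e41e60f607b03c01ec0f787bc31221f1288acc3d81f80fc08103b41e60f307b03d81e00f787d442621312b8b443d81ec0f307983cc1d40f607e03b41e60f1878c40e2071228b1439c1da0ed07c83f01e60f607b03d81f20e5877442621312885a43d81ec0f607b03d81f80f007803f01e60f487a46ea2311258b2c3cc1e60f307b03d81ec0f307803d81e60f187746de22b1258b2c3cc1e60f007b03e41e60f307983e41e60e5878c41a21312585a43cc1e60f607803d81da0f607e03e41f20fa87a43ae20d1228b2c3cc1e00fa87bc3ba1e30ee87a43d21e30f6078042020412a0c103ea1ef0f787bc3961e30f187a43ea1cb0f607b042021014e0d303ba1e9109887c42620711588c441a213108081036c2341390bc841a1bf10986244262071b78dd43ae20d10808404681b60ee0bc845620d1688acc2d22c51658b2c5961691a60c105e42f21980ec06aa36112b89444a2245125892c48a24b14e09503b82721580cc047e24b0f607e03d81da0f307983c01e60f487bc41a1bf1258d843cc1e60f607b03d81ce0f307983cc1e60ee87d445620d11f8d543cc1e6)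
    (nat_lit 0x1021680b405a02d01680b405a02d01680b405a02d01680b405a00f90810b405a02d01680b405a02d01680b405a02d01680b405a00f907683cc5a02d01680b405a02d01680b405a02d01680b405a00f307983a81e62d01680b405a02d01680b405a02d01680b405a00f607983d81ec0f01680b405a02d01680b405a02d01680b405a00f607b03f01ec0f00780b405a02d01680b405a02d01680b405a00f007b03b41ec0fc07b03e45a02d01680b405a02d01680b405a00f607803cc1f20f307983cc1f22d01680b405a02d01680b405a00f787bc3c61cb0f4878c3961f50f61680b405a02d01680b405a00f787d43c61dd0f487743c61e90f007b0b405a02d01680b405a00c4884c40e2131ba8dbc41a1d7108084036c5a02d01680b405a010f884c40e21311888ac42620d10208404681b62d01680b405a0128895c48a251125892c49624512a0a704e41dc1981680b405a01598b4458a1691658b2c2d22cb1820d305e42f21d80cc0b405a00f607b039c1ec0f307983cc1e60fa877441a22b19b88fc3cc5a00fc07b03b41ec0f307983cc1e00f787a437e20d1a1892c3cc1e6)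
    (nat_lit 5) (nat_lit 49)
    [[nat_lit 2,nat_lit 0x10011,nat_lit 0x1000011,nat_lit 257,nat_lit 0x10000101,nat_lit 0x1001,nat_lit 0x1001001,
    nat_lit 0x10001,nat_lit 0x10101,nat_lit 0x100001,nat_lit 0x1000001,nat_lit 0x10000001],[nat_lit 272,
    nat_lit 0x10110,nat_lit 0x1000110,nat_lit 0x10010,nat_lit 0x1010010,nat_lit 0x100010,nat_lit 0x1000010,
    nat_lit 0x2000010,nat_lit 0x10000010],[nat_lit 512,nat_lit 768,nat_lit 0x10000200,nat_lit 0x1100,nat_lit 0x10100,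
    nat_lit 0x1000100,nat_lit 0x10000100,nat_lit 0x10001100,nat_lit 0x10010100,nat_lit 0x11000100],[nat_lit 0x2000,
    nat_lit 0x1002000,nat_lit 0x11000,nat_lit 0x1011000,nat_lit 0x101000,nat_lit 0x1001000,nat_lit 0x2001000,
    nat_lit 0x10001000],[nat_lit 0x20000,nat_lit 0x110000,nat_lit 0x1010000,nat_lit 0x10010000],[nat_lit 0x200000,
    nat_lit 0x1100000,nat_lit 0x10100000],[nat_lit 0x2000000,nat_lit 0x11000000],[nat_lit 0x20000000]]
    [.c (nat_lit 1) (nat_lit 2),.c (nat_lit 0) (nat_lit 0xc6000002),.c (nat_lit 0) (nat_lit 0x14a501c04),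
    .c (nat_lit 0) (nat_lit 0x6000c02),.c (nat_lit 0) (nat_lit 0x6000c02),.c (nat_lit 0) (nat_lit 0xc0319443),
    .c (nat_lit 0) (nat_lit 0x1000208a4),.r (nat_lit 0x161e) (nat_lit 15) [nat_lit 0x1080000061,nat_lit 65],
    .c (nat_lit 0) (nat_lit 0x6000c02),.c (nat_lit 0) (nat_lit 0xc0300c43),
    .r (nat_lit 0xdb2) (nat_lit 15) [nat_lit 0x1080000001,nat_lit 0xc0200041],.c (nat_lit 0) (nat_lit 0xc0318c43),
    .c (nat_lit 0) (nat_lit 0x146319442),.c (nat_lit 3) (nat_lit 0xc0000802),.c (nat_lit 0) (nat_lit 0x300c02),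
    .c (nat_lit 0) (nat_lit 0x80000c03),.c (nat_lit 0) (nat_lit 0x140500c04),.c (nat_lit 0) (nat_lit 0x80010003),
    .r (nat_lit 0xdb3) (nat_lit 11) [nat_lit 0x1080000001,nat_lit 0x28c6018841],
    .r (nat_lit 0x8eb) (nat_lit 8) [nat_lit 0xc4318861,nat_lit 0x210001,nat_lit 0x1080000001,nat_lit 0x10001,
    nat_lit 65],.c (nat_lit 0) (nat_lit 0x80000003),.c (nat_lit 3) (nat_lit 2),.c (nat_lit 0) (nat_lit 0x501c02),
    .c (nat_lit 0) (nat_lit 0x301402),.r (nat_lit 0xdb2) (nat_lit 7) [nat_lit 65,nat_lit 0x1800300861],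
    .r (nat_lit 0x165b) (nat_lit 1) [nat_lit 0x318041,nat_lit 0x210001],.c (nat_lit 0) (nat_lit 0x501c04),
    .c (nat_lit 0) (nat_lit 0x805),.r (nat_lit 0xdb2) (nat_lit 15) [nat_lit 0x1080000001,nat_lit 0x18c0000861],
    .r (nat_lit 0xdb3) (nat_lit 11) [nat_lit 0x1080000001,nat_lit 0x18c0000861],.c (nat_lit 0) (nat_lit 0x301402),
    .c (nat_lit 4) (nat_lit 2),.r (nat_lit 0x11ca) (nat_lit 13) [nat_lit 0x300001,nat_lit 0x210001,
    nat_lit 0x480a74a0a1,nat_lit 0x8208642481,nat_lit 0xa600081],.c (nat_lit 0) (nat_lit 0xc6319c43),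
    .c (nat_lit 0) (nat_lit 0x14a029c85),.c (nat_lit 0) (nat_lit 0xc0300c43),.c (nat_lit 0) (nat_lit 0xc6018c43),
    .r (nat_lit 0x165b) (nat_lit 1) [nat_lit 0x18c4518861,nat_lit 0x210001],.c (nat_lit 0) (nat_lit 0xc0318c43),
    .c (nat_lit 5) (nat_lit 2),.c (nat_lit 0) (nat_lit 0x6010003),.c (nat_lit 0) (nat_lit 0xc6018c43),
    .c (nat_lit 0) (nat_lit 0x6000003),.c (nat_lit 6) (nat_lit 2),
    .r (nat_lit 0xdb9) (nat_lit 10) [nat_lit 0x1080000001,nat_lit 65],.c (nat_lit 0) (nat_lit 0x310003),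
    .c (nat_lit 7) (nat_lit 2),.c (nat_lit 3) (nat_lit 0x201003),.c (nat_lit 8) (nat_lit 2)],
    .l (nat_lit 12) (nat_lit 720) (nat_lit 3) (nat_lit 0x129000001290000013500000135000001200000012000000141000001410000015200000152000001230000012300000123000001230000012300000123) (nat_lit 0x29000000290000001d0000001d0000003200000032000000110000001100000000000000000000002f0000002f0000002f0000002f0000002f0000002f)
    (nat_lit 0xf40fa10c10c0f10f717612a1291290fa0fa0fa0fa0fa0ee1000f411810c0f11031a615a0f912911e11e0fa0ee0fa0fa10c10c10c1180c10f712412a1110a71121361060e211210611810c11810c12110312410611d1351061120fa0ca1061061030f71030f710c0ee10f0f111412012d1090f10f10f10fd0f10f11210c10ee10c10f10f12612010f0eb0f10f70df10315a12a10612a10f0f113013014714110c10c1000f41181121a617612412410f10f1301301411410941121121121120c41291291350a71201201411411521521231231711a10c51230f912911d11112611414114715215212312312f15f12312311e0fa1121360eb10911210c1231230b80f40f40f40f40e811e0fa10611210f12d09410c1231230f40b80f40f40f40f40ee0fa0ca0e20f70f11120f415f1a10f40f40f40f40f40f40fa0fa0fa1060f10f111210012f1710f40f40e80f41000f40fa0ee1061061030fd0c41121231230f40e80f40f40f41000fa0fa1061120df0f11121181230c50f40f41000f40fa0f4)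
    (nat_lit 0xf42d02d02d02d02d02d02d02d02d02d02d02d02d02d02d00fa0f42d02d02d02d02d02d02d02d02d02d02d02d02d02d010c11810c2d02d02d02d02d02d02d02d02d02d02d02d02d010c10c11810c2d02d02d02d02d02d02d02d02d02d02d02d00f10f10c112110c2d02d02d02d02d02d02d02d02d02d02d00f71030f71030ee10c2d02d02d02d02d02d02d02d02d02d01761a612412410f10f1302d02d02d02d02d02d02d02d02d012a15a12a1060f110f1301302d02d02d02d02d02d02d02d01290f911111d1141261471411522d02d02d02d02d02d02d01291290a71351201201411411521522d02d02d02d02d02d00fa11e11210612d10f10c0941231230b82d02d02d02d02d00fa11e1361121090eb10c1121231230f40b82d02d02d02d00fa0fa1060fa0f10f110011217112f0f40f40f42d02d02d00fa0ee0e20ca0f10f70f411217115f0f40f40f40f42d02d00fa0fa1121060f10df1181120c51230f40f40f41000f42d00ee0fa1061060fd1031120c41231230e80f40f40f41000f4)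
    (nat_lit 5) (nat_lit 49)
    [[nat_lit 2,nat_lit 17,nat_lit 0x10011,nat_lit 257,nat_lit 513,nat_lit 0x10101,nat_lit 0x1001,nat_lit 0x10001001,
    nat_lit 0x10001,nat_lit 0x100001,nat_lit 0x110001,nat_lit 0x1100001,nat_lit 0x100011,nat_lit 0x1000001,
    nat_lit 0x10000001],[nat_lit 32,nat_lit 0x1000020,nat_lit 272,nat_lit 528,nat_lit 0x10110,nat_lit 0x1001010,
    nat_lit 0x10010,nat_lit 0x100010,nat_lit 0x1100010,nat_lit 0x1000010,nat_lit 0x10000010],[nat_lit 512,nat_lit 768,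
    nat_lit 0x10200,nat_lit 0x1100,nat_lit 0x10100,nat_lit 0x110100,nat_lit 0x100100,nat_lit 0x1000100,
    nat_lit 0x10000100],[nat_lit 0x2000,nat_lit 0x11000,nat_lit 0x101000,nat_lit 0x1001000,nat_lit 0x10001000,
    nat_lit 0x11001000],[nat_lit 0x20000,nat_lit 0x110000,nat_lit 0x1010000],[nat_lit 0x200000,nat_lit 0x1100000,
    nat_lit 0x10100000],[nat_lit 0x2000000,nat_lit 0x11000000],[nat_lit 0x20000000]]
    [.c (nat_lit 1) (nat_lit 2),.r (nat_lit 0x145d) (nat_lit 9) [nat_lit 65,nat_lit 0x18001,nat_lit 0x210001,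
    nat_lit 0x1806318861],.r (nat_lit 0x165d) (nat_lit 14) [nat_lit 0x210001,nat_lit 0x18001,nat_lit 0x100010001,
    nat_lit 0x414091a121,nat_lit 0x496295a101,nat_lit 0x4120852501],.c (nat_lit 0) (nat_lit 0xc6529483),
    .c (nat_lit 0) (nat_lit 0xa949d05),.r (nat_lit 0xdb3) (nat_lit 6) [nat_lit 0x84210c41,nat_lit 0x10c05190a1],
    .r (nat_lit 0x165b) (nat_lit 5) [nat_lit 0x210061,nat_lit 65],
    .r (nat_lit 0xdb6) (nat_lit 10) [nat_lit 0x1806000861,nat_lit 0x308c221481],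
    .r (nat_lit 400) (nat_lit 4) [nat_lit 65,nat_lit 0x4120852501,nat_lit 0x18ce5290a1,nat_lit 0x496274a121,
    nat_lit 0x180a318861,nat_lit 0x2090421481],.c (nat_lit 0) (nat_lit 0x318c43),.c (nat_lit 5) (nat_lit 0x80410862),
    .c (nat_lit 0) (nat_lit 0x318c43),.r (nat_lit 0xdb5) (nat_lit 6) [nat_lit 0x4000001,nat_lit 65],
    .c (nat_lit 0) (nat_lit 0x86529485),.c (nat_lit 0) (nat_lit 0x24a94ad09),.c (nat_lit 2) (nat_lit 2),
    .r (nat_lit 0xdb4) (nat_lit 3) [nat_lit 0x80420062,nat_lit 0x28ca529042],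
    .r (nat_lit 0xdbb) (nat_lit 8) [nat_lit 0x1800018041,nat_lit 0x210001],.c (nat_lit 5) (nat_lit 0x100400803),
    .c (nat_lit 6) (nat_lit 0x84200803),.c (nat_lit 6) (nat_lit 0x4010803),
    .r (nat_lit 0xdb5) (nat_lit 6) [nat_lit 0x4000001,nat_lit 0x180a318841],
    .r (nat_lit 0xdb6) (nat_lit 10) [nat_lit 65,nat_lit 0x10842200a1],
    .r (nat_lit 0xdb4) (nat_lit 3) [nat_lit 0x80210061,nat_lit 0x18c6318841],
    .r (nat_lit 0xdb6) (nat_lit 10) [nat_lit 0x80010042,nat_lit 0x1004210061],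
    .r (nat_lit 0xdbb) (nat_lit 1) [nat_lit 0x4210061,nat_lit 65],.c (nat_lit 3) (nat_lit 2),
    .r (nat_lit 0x1241) (nat_lit 9) [nat_lit 65,nat_lit 0x4000001,nat_lit 0x210001,nat_lit 0x39e6d6b061,
    nat_lit 0x398e000041],.r (nat_lit 0xdb5) (nat_lit 6) [nat_lit 0x4000001,nat_lit 0x1000300861],
    .r (nat_lit 0xdb3) (nat_lit 14) [nat_lit 65,nat_lit 0x1806318801],.c (nat_lit 6) (nat_lit 0xc4300002),
    .r (nat_lit 0xdb6) (nat_lit 10) [nat_lit 0x1084010061,nat_lit 0x18c6200081],.c (nat_lit 0) (nat_lit 0x528c85),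
    .c (nat_lit 0) (nat_lit 0x6529485),.c (nat_lit 0) (nat_lit 0xc6529483),.c (nat_lit 4) (nat_lit 2),
    .r (nat_lit 0xdbb) (nat_lit 1) [nat_lit 65,nat_lit 0x4210061],.r (nat_lit 0xdb4) (nat_lit 3) [nat_lit 65,
    nat_lit 0x1806000861],.c (nat_lit 6) (nat_lit 0x4018002),.r (nat_lit 0xdb5) (nat_lit 6) [nat_lit 0x4000001,
    nat_lit 0x1806000861],.c (nat_lit 0) (nat_lit 0x80018002),.c (nat_lit 5) (nat_lit 2),
    .r (nat_lit 0xdb3) (nat_lit 6) [nat_lit 65,nat_lit 0x10880100a1],.c (nat_lit 0) (nat_lit 0x80200003),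
    .c (nat_lit 6) (nat_lit 2),.c (nat_lit 0) (nat_lit 0x4000003),.c (nat_lit 0) (nat_lit 0xc0318c43),
    .c (nat_lit 7) (nat_lit 2),.r (nat_lit 0xdbb) (nat_lit 8) [nat_lit 65,nat_lit 0x210001],
    .c (nat_lit 8) (nat_lit 2)],
    .l (nat_lit 12) (nat_lit 960) (nat_lit 3) (nat_lit 0x19500000195000001b5000001b5000001e0000001e00000019c000001a80000019600000196000001940000019400000195000001950000019300000193) (nat_lit 0x4b0000004b0000002b0000002b000000000000000000000038000000440000004a0000004a0000004c0000004c0000004b0000004b0000004d0000004d)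
    (nat_lit 0x14414a1a216c1e11cd15d15114712f14914913813214814815614416a16a1f31df10b14f16514d14714714a14a14614816a16c14017e1b71b517b11316d1bd16914f16a16c16e16816a1a218a1401ed1b517d17120325310d16916a16a1301121df1cd1b51b51e01e00c01641961961940fc1eb1f115b1931f31e11ed1b71e01e01a819c1ae19616817c1cf1d519316114f15117111319c16416415816a15211013818317d10311510b15d17d17b1a80c01a816415e15e16017c15d15d17716514d12f2531bd19619615e15212c11414a14a14114714914916514720316d1ae19615e16a14412c14a14a13512f14914b14714916914f17c0fc17c13814a14a16415014714914b15d14714910d16916819416011014a14a14816414914915f14114a13216a16c1d51f115d17d12f14714914915014a14814814a13816a16a1cf1eb15d18313514114914714a15014814814814811216816119316511514b14914115d14814815814614614813016e19315b17710314914915f14b148148146158)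
    (nat_lit 0x1443c03c03c03c03c03c03c03c03c03c03c03c03c03c03c014a1443c03c03c03c03c03c03c03c03c03c03c03c03c03c01a216a1403c03c03c03c03c03c03c03c03c03c03c03c03c016c16a17e1403c03c03c03c03c03c03c03c03c03c03c03c01e11f31b71ed1e03c03c03c03c03c03c03c03c03c03c03c01cd1df1b51b51e01e03c03c03c03c03c03c03c03c03c03c015d10b17b17d0c01a81643c03c03c03c03c03c03c03c03c015114f11317116419c1581643c03c03c03c03c03c03c03c014716516d2031961ae16a15e12c3c03c03c03c03c03c03c012f14d1bd25319619615215e11412c3c03c03c03c03c03c014914716910d19416811016014a14a1643c03c03c03c03c014914714f1690fc17c13817c14a14a1501643c03c03c03c013814a16a16a1eb1cf18315d1411351471491503c03c03c013214a16c16a1f11d517d15d14712f14914914a1503c03c014814616e13015b19310317714914914b15f1481481583c014814816811219316111516514914b15d141148148146158)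
    (nat_lit 5) (nat_lit 37)
    [[nat_lit 2,nat_lit 17,nat_lit 0x10011,nat_lit 257,nat_lit 0x100101,nat_lit 0x1001,nat_lit 0x11001,nat_lit 0x2001,
    nat_lit 0x10001,nat_lit 0x110001,nat_lit 0x1010001,nat_lit 0x10010001,nat_lit 0x100001,nat_lit 0x1000001,
    nat_lit 0x10000001],[nat_lit 32,nat_lit 272,nat_lit 0x10110,nat_lit 0x1010,nat_lit 0x2010,nat_lit 0x10001010,
    nat_lit 0x10010,nat_lit 0x1000010,nat_lit 0x10000010],[nat_lit 512,nat_lit 0x1100,nat_lit 0x2100,nat_lit 0x10100,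
    nat_lit 0x11100,nat_lit 0x110100,nat_lit 0x10010100,nat_lit 0x100100,nat_lit 0x1000100,nat_lit 0x1010100,
    nat_lit 0x2000100,nat_lit 0x10000100],[nat_lit 0x2000,nat_lit 0x3000,nat_lit 0x11000,nat_lit 0x10011000,
    nat_lit 0x101000,nat_lit 0x10001000],[nat_lit 0x20000,nat_lit 0x110000,nat_lit 0x1010000,nat_lit 0x10010000,
    nat_lit 0x20010000],[nat_lit 0x1100000],[nat_lit 0x2000000,nat_lit 0x11000000],[nat_lit 0x20000000]]
    [.c (nat_lit 1) (nat_lit 2),.c (nat_lit 0) (nat_lit 0x64ed02719),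
    .r (nat_lit 0xdb4) (nat_lit 10) [nat_lit 0x1000000001,nat_lit 0x3904a198e5],.c (nat_lit 0) (nat_lit 0x1ce038cc7),
    .r (nat_lit 0xdb3) (nat_lit 8) [nat_lit 0xc0300861,nat_lit 0x80200001],
    .r (nat_lit 0x1540) (nat_lit 11) [nat_lit 0x10001,nat_lit 0x200001,nat_lit 0x4000001,nat_lit 0x80000001,
    nat_lit 0x1000000001],.r (nat_lit 0xdb4) (nat_lit 10) [nat_lit 0x1000000001,nat_lit 0x3088811cc1],
    .r (nat_lit 0xdb4) (nat_lit 10) [nat_lit 0x1000000001,nat_lit 0x3215411cc7],.c (nat_lit 0) (nat_lit 0x64edca719),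
    .r (nat_lit 0x1540) (nat_lit 11) [nat_lit 0x10001,nat_lit 0x200001,nat_lit 0x4000001,nat_lit 0x80000001,
    nat_lit 0x1000000001],.r (nat_lit 0xdb4) (nat_lit 10) [nat_lit 0x1000000001,nat_lit 0x1800000861],
    .r (nat_lit 0x1540) (nat_lit 11) [nat_lit 0x10001,nat_lit 0x200001,nat_lit 0x4000001,nat_lit 0x80000001,
    nat_lit 0x1000000001],.r (nat_lit 0x165b) (nat_lit 4) [nat_lit 0x1000000061,nat_lit 65],
    .c (nat_lit 0) (nat_lit 0x14a338085),.r (nat_lit 0x11cb) (nat_lit 8) [nat_lit 0x10001,nat_lit 0x1800000041,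
    nat_lit 0x1000000001,nat_lit 0x1c07198e1],.c (nat_lit 2) (nat_lit 2),.c (nat_lit 0) (nat_lit 0x210005),
    .r (nat_lit 0xdb4) (nat_lit 10) [nat_lit 0x1000000001,nat_lit 0x84400061],.c (nat_lit 3) (nat_lit 0x6218002),
    .r (nat_lit 0xdb4) (nat_lit 10) [nat_lit 0x1000000001,nat_lit 0x4200042],
    .r (nat_lit 0x161e) (nat_lit 6) [nat_lit 0x300001,nat_lit 0x1080400061],.c (nat_lit 2) (nat_lit 0x10002),
    .c (nat_lit 1) (nat_lit 0x14a338c82),.r (nat_lit 0xdb4) (nat_lit 13) [nat_lit 65,nat_lit 0x1080200061],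
    .c (nat_lit 3) (nat_lit 2),.r (nat_lit 0xdbb) (nat_lit 14) [nat_lit 65,nat_lit 0x1000000001],
    .r (nat_lit 0xdb4) (nat_lit 10) [nat_lit 0x1000000001,nat_lit 0x84600043],.c (nat_lit 0) (nat_lit 0x200003),
    .r (nat_lit 0xdb4) (nat_lit 10) [nat_lit 0x1000000001,nat_lit 0x200041],
    .r (nat_lit 0x153f) (nat_lit 5) [nat_lit 0x10001,nat_lit 0x1000000001,nat_lit 0x39c0719801,nat_lit 0x180c11cc1],
    .r (nat_lit 0x1540) (nat_lit 11) [nat_lit 0x10001,nat_lit 0x200001,nat_lit 0x4000001,nat_lit 0x80000001,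
    nat_lit 0x1000000001],.r (nat_lit 0x1540) (nat_lit 11) [nat_lit 0x10001,nat_lit 0x200001,nat_lit 0x4000001,
    nat_lit 0x80000001,nat_lit 0x1000000001],.c (nat_lit 0) (nat_lit 0xc6018043),
    .r (nat_lit 0xdb4) (nat_lit 10) [nat_lit 0x1000000001,nat_lit 0x882100e1],
    .r (nat_lit 0xdb4) (nat_lit 10) [nat_lit 0x1000000001,nat_lit 0x862280c1],
    .r (nat_lit 0x153f) (nat_lit 5) [nat_lit 0x10001,nat_lit 0x1000000001,nat_lit 0x39c0719801,nat_lit 0x318cc11ce1],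
    .c (nat_lit 4) (nat_lit 2),.r (nat_lit 0xdb4) (nat_lit 10) [nat_lit 0x1000000001,nat_lit 0x88800044],
    .c (nat_lit 3) (nat_lit 0x6200002),.r (nat_lit 0x161e) (nat_lit 6) [nat_lit 0x300001,nat_lit 0x1080200061],
    .r (nat_lit 0x1432) (nat_lit 4) [nat_lit 0x10001,nat_lit 0x1000000061,nat_lit 65,nat_lit 0x39c0719801],
    .r (nat_lit 0x14b6) (nat_lit 10) [nat_lit 0x10001,nat_lit 0x1000000061,nat_lit 65,nat_lit 0x39c0719801],
    .c (nat_lit 5) (nat_lit 2),.r (nat_lit 0x161e) (nat_lit 6) [nat_lit 0x300001,nat_lit 0x200041],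
    .c (nat_lit 1) (nat_lit 0x14a328c82),.r (nat_lit 0xdb4) (nat_lit 13) [nat_lit 0x200041,nat_lit 0x1080000061],
    .r (nat_lit 0x1540) (nat_lit 11) [nat_lit 0x10001,nat_lit 0x200001,nat_lit 0x4000001,nat_lit 0x80000001,
    nat_lit 0x1000000001],.r (nat_lit 0x121e) (nat_lit 4) [nat_lit 0x30000100e1,nat_lit 0x10001,nat_lit 0x180c1,
    nat_lit 0x39c0719801],.c (nat_lit 7) (nat_lit 2),.r (nat_lit 0xdb3) (nat_lit 8) [nat_lit 65,nat_lit 0x80200001],
    .c (nat_lit 8) (nat_lit 2)]]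

end Pool.Agent.Lib_MP_fa6e45
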