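import Pool.Agent.Lib_MP_fa6e45.DQ8k_0d
import Pool.Agent.Lib_MP_fa6e45.RD8k_36

/-!
MP_fa6e45_co, stage 9: straight-side patterns with `8` sides, part of a certificate (generated by a program).
-/

namespace Pool.Agent.Lib_MP_fa6e45

theorem cD8k_0_k36_0 : allI cD8k_0_c (rjL dJ cD8k_0_q rD8k_36_0) 5677 = true := by
  decide +kernel

theorem cD8k_0_k36_1 : allI cD8k_0_c (rjL dJ cD8k_0_q rD8k_36_1) 5680 = true := by
  decide +kernel

theorem cD8k_0_k36_2 : allI cD8k_0_c (rjL dJ cD8k_0_q rD8k_36_2) 5683 = true := by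
  decide +kernel

theorem cD8k_0_k36_3 : allI cD8k_0_c (rjL dJ cD8k_0_q rD8k_36_3) 5686 = true := by
  decide +kernel

theorem cD8k_0_k36_4 : allI cD8k_0_c (rjL dJ cD8k_0_q rD8k_36_4) 5688 = true := by
  decide +kernel

theorem cD8k_0_k36_5 : allI cD8k_0_c (rjL dJ cD8k_0_q rD8k_36_5) 5690 = true := by
  decide +kernel

theorem cD8k_0_k36_6 : allI cD8k_0_c (rjL dJ cD8k_0_q rD8k_36_6) 5692 = true := by
  decide +kernel

theorem cD8k_0_k36_7 : allI cD8k_0_c (rjL dJ cD8k_0_q rD8k_36_7) 5694 = true := by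
  decide +kernel

theorem cD8k_0_k36_8 : allI cD8k_0_c (rjL dJ cD8k_0_q rD8k_36_8) 5697 = true := by
  decide +kernel

theorem cD8k_0_k36_9 : allI cD8k_0_c (rjL dJ cD8k_0_q rD8k_36_9) 5699 = true := by
  decide +kernel

theorem cD8k_0_k36_10 : allI cD8k_0_c (rjL dJ cD8k_0_q rD8k_36_10) 5702 = true := by
  decide +kernel

theorem cD8k_0_k36_11 : allI cD8k_0_c (rjL dJ cD8k_0_q rD8k_36_11) 5705 = true := by
  decide +kernel

theorem cD8k_0_k36_12 : allI cD8k_0_c (rjL dJ cD8k_0_q rD8k_36_12) 5707 = true := by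
  decide +kernel

theorem cD8k_0_k36_13 : allI cD8k_0_c (rjL dJ cD8k_0_q rD8k_36_13) 5708 = true := by
  decide +kernel

theorem cD8k_0_k36_14 : allI cD8k_0_c (rjL dJ cD8k_0_q rD8k_36_14) 5709 = true := by
  decide +kernel

theorem cD8k_0_k36_15 : allI cD8k_0_c (rjL dJ cD8k_0_q rD8k_36_15) 5711 = true := by
  decide +kernel

theorem cD8k_0_k36_16 : allI cD8k_0_c (rjL dJ cD8k_0_q rD8k_36_16) 5713 = true := by
  decide +kernel

theorem cD8k_0_k36_17 : allI cD8k_0_c (rjL dJ cD8k_0_q rD8k_36_17) 5715 = true := by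
  decide +kernel

theorem cD8k_0_k36_18 : allI cD8k_0_c (rjL dJ cD8k_0_q rD8k_36_18) 5718 = true := by
  decide +kernel

theorem cD8k_0_k36_19 : allI cD8k_0_c (rjL dJ cD8k_0_q rD8k_36_19) 5720 = true := by
  decide +kernel

theorem cD8k_0_k36_20 : allI cD8k_0_c (rjL dJ cD8k_0_q rD8k_36_20) 5723 = true := by
  decide +kernel

theorem cD8k_0_k36_21 : allI cD8k_0_c (rjL dJ cD8k_0_q rD8k_36_21) 5724 = true := by
  decide +kernel

theorem cD8k_0_k36_22 : allI cD8k_0_c (rjL dJ cD8k_0_q rD8k_36_22) 5725 = true := by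
  decide +kernel

theorem cD8k_0_k36_23 : allI cD8k_0_c (rjL dJ cD8k_0_q rD8k_36_23) 5726 = true := by
  decide +kernel

theorem cD8k_0_k36_24 : allI cD8k_0_c (rjL dJ cD8k_0_q rD8k_36_24) 5727 = true := by
  decide +kernel

theorem cD8k_0_k36_25 : allI cD8k_0_c (rjL dJ cD8k_0_q rD8k_36_25) 5728 = true := by
  decide +kernel

theorem cD8k_0_k36_26 : allI cD8k_0_c (rjL dJ cD8k_0_q rD8k_36_26) 5730 = true := by
  decide +kernel

theorem cD8k_0_k36_27 : allI cD8k_0_c (rjL dJ cD8k_0_q rD8k_36_27) 5733 = true := by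
  decide +kernel

/-- nodes -/
noncomputable def cD8k_0_n36 : List (QJ PN) :=
  rjL dJ cD8k_0_q rD8k_36_0 ++ (rjL dJ cD8k_0_q rD8k_36_1 ++ (rjL dJ cD8k_0_q rD8k_36_2 ++ (
    rjL dJ cD8k_0_q rD8k_36_3 ++ (rjL dJ cD8k_0_q rD8k_36_4 ++ (rjL dJ cD8k_0_q rD8k_36_5 ++ (
    rjL dJ cD8k_0_q rD8k_36_6 ++ (rjL dJ cD8k_0_q rD8k_36_7 ++ (rjL dJ cD8k_0_q rD8k_36_8 ++ (
    rjL dJ cD8k_0_q rD8k_36_9 ++ (rjL dJ cD8k_0_q rD8k_36_10 ++ (rjL dJ cD8k_0_q rD8k_36_11 ++ (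
    rjL dJ cD8k_0_q rD8k_36_12 ++ (rjL dJ cD8k_0_q rD8k_36_13 ++ (rjL dJ cD8k_0_q rD8k_36_14 ++ (
    rjL dJ cD8k_0_q rD8k_36_15 ++ (rjL dJ cD8k_0_q rD8k_36_16 ++ (rjL dJ cD8k_0_q rD8k_36_17 ++ (
    rjL dJ cD8k_0_q rD8k_36_18 ++ (rjL dJ cD8k_0_q rD8k_36_19 ++ (rjL dJ cD8k_0_q rD8k_36_20 ++ (
    rjL dJ cD8k_0_q rD8k_36_21 ++ (rjL dJ cD8k_0_q rD8k_36_22 ++ (rjL dJ cD8k_0_q rD8k_36_23 ++ (
    rjL dJ cD8k_0_q rD8k_36_24 ++ (rjL dJ cD8k_0_q rD8k_36_25 ++ (rjL dJ cD8k_0_q rD8k_36_26 ++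
    rjL dJ cD8k_0_q rD8k_36_27))))))))))))))))))))))))))

theorem cD8k_0_k36 : allI cD8k_0_c cD8k_0_n36 5677 = true := by
  refine allI_appQ (k := 3) cD8k_0_k36_0 (by decide +kernel) ?_
  refine allI_appQ (k := 3) cD8k_0_k36_1 (by decide +kernel) ?_
  refine allI_appQ (k := 3) cD8k_0_k36_2 (by decide +kernel) ?_
  refine allI_appQ (k := 2) cD8k_0_k36_3 (by decide +kernel) ?_
  refine allI_appQ (k := 2) cD8k_0_k36_4 (by decide +kernel) ?_
  refine allI_appQ (k := 2) cD8k_0_k36_5 (by decide +kernel) ?_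
  refine allI_appQ (k := 2) cD8k_0_k36_6 (by decide +kernel) ?_
  refine allI_appQ (k := 3) cD8k_0_k36_7 (by decide +kernel) ?_
  refine allI_appQ (k := 2) cD8k_0_k36_8 (by decide +kernel) ?_
  refine allI_appQ (k := 3) cD8k_0_k36_9 (by decide +kernel) ?_
  refine allI_appQ (k := 3) cD8k_0_k36_10 (by decide +kernel) ?_
  refine allI_appQ (k := 2) cD8k_0_k36_11 (by decide +kernel) ?_
  refine allI_appQ (k := 1) cD8k_0_k36_12 (by decide +kernel) ?_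
  refine allI_appQ (k := 1) cD8k_0_k36_13 (by decide +kernel) ?_
  refine allI_appQ (k := 2) cD8k_0_k36_14 (by decide +kernel) ?_
  refine allI_appQ (k := 2) cD8k_0_k36_15 (by decide +kernel) ?_
  refine allI_appQ (k := 2) cD8k_0_k36_16 (by decide +kernel) ?_
  refine allI_appQ (k := 3) cD8k_0_k36_17 (by decide +kernel) ?_
  refine allI_appQ (k := 2) cD8k_0_k36_18 (by decide +kernel) ?_
  refine allI_appQ (k := 3) cD8k_0_k36_19 (by decide +kernel) ?_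
  refine allI_appQ (k := 1) cD8k_0_k36_20 (by decide +kernel) ?_
  refine allI_appQ (k := 1) cD8k_0_k36_21 (by decide +kernel) ?_
  refine allI_appQ (k := 1) cD8k_0_k36_22 (by decide +kernel) ?_
  refine allI_appQ (k := 1) cD8k_0_k36_23 (by decide +kernel) ?_
  refine allI_appQ (k := 1) cD8k_0_k36_24 (by decide +kernel) ?_
  refine allI_appQ (k := 2) cD8k_0_k36_25 (by decide +kernel) ?_
  refine allI_appQ (k := 3) cD8k_0_k36_26 (by decide +kernel) ?_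
  exact cD8k_0_k36_27

theorem cD8k_0_l36 : cD8k_0_n36.length = 59 := by
  decide +kernel

end Pool.Agent.Lib_MP_fa6e45
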