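import Pool.Agent.Lib_MP_fa6e45.RJ0

/-!
MP_fa6e45_co, stage 9: straight-side patterns with `8` sides, raw data (generated by a program).
-/

namespace Pool.Agent.Lib_MP_fa6e45

/-- nodes -/
noncomputable def rD8k_37_0 : List RJ :=
  [.l (nat_lit 14) (nat_lit 0xf00) (nat_lit 5) (nat_lit 0x5fc000005fc0000063700000637000006da000006da0000064200000642000006cb000006cb000005ce000005ce000006580000066200000544000005fa) (nat_lit 0xde000000de000000a3000000a3000000000000000000000098000000980000000f0000000f0000010c0000010c0000007800000082000000e000000196)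
    (nat_lit 0x147823a15645671988612105856423ec91313004f0078024a1470466151851e1c1c5591950672159056417b460512304e2161051014384581564567147856c18dc489161c54718d8628165452b1734619155c4a11c1c559165051e186463726e497918a03ac12dc52b1d747c715044a119c861218dc4890c006da22f86601b2c2b10ef05ce19886cc17e83a6195066218646371b6830022806421b2c6cb15285ce19886ae17e83e0159056425e4547190866016a85aa18cc3d513805361cb864413f04ac159041626e458722808be16a85aa188c63315b052022f07d208f04ac18149130eb06281b2c2b118cc3d51b486bc0eb45cf194c6131ce424317b48fb18a06361b2c6cb188c63316106d218a45bf19c458717ac4bf13884f014ac52b17385ce148053616fc5cf16105fa17304e2078041a12304c012dc59515283bc15b04e018a43ad14b8584155854c2078518144024a1f1c6191ab86cc1f48644161c61315304e2140056a16a04c216101e01d745cd198866222f072e19c465315585cc125850016084cc116046612844a10f803a612b04ac12fc243146041a13304c22020502143851c150455717e85fa08f04fc17ac73920781e016085a81ff8808)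
    (nat_lit 0x1478f003c00f003c00f003c00f003c00f003c00f003c00f003c00f0008e851e3c00f003c00f003c00f003c00f003c00f003c00f003c00f0015647071478f003c00f003c00f003c00f003c00f003c00f003c00f00159c55915b051e3c00f003c00f003c00f003c00f003c00f003c00f00198865418dc6190c00f003c00f003c00f003c00f003c00f003c00f00184867212246371b683003c00f003c00f003c00f003c00f003c00f001058564161c9b922f88a016a8f003c00f003c00f003c00f003c00f001590564151c979198064216a85aa3c00f003c00f003c00f003c00f00209c5ed18d86281b2c6cb18cc6231b48f003c00f003c00f003c00f001fac60518a03ac0ac46cb0f546331af06d23c00f003c00f003c00f00130048c16544b70ef054a138056c0eb46291610f003c00f003c00f0013c04e214ac52b17385ce14d8520173c5bf17e85843c00f003c00f000780584173475d19886621cb8744194c67117305561400f003c00f00092851018647c71b306ae19107ae184c587138854c15a85003c00f00147050e155c54116705fa13f023c16345eb078070e16a05821ba0f00119845812844a10e983e012b04ac090c4bf106851813084cc14086e8)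
    (nat_lit 5) (nat_lit 243)
    [[nat_lit 0x10002,nat_lit 2,nat_lit 17,nat_lit 0x1011,nat_lit 0x10000011,nat_lit 273,nat_lit 257,nat_lit 514,
    nat_lit 0x10102,nat_lit 0x10000111,nat_lit 513,nat_lit 0x1101,nat_lit 0x2101,nat_lit 0x101101,nat_lit 0x10101,
    nat_lit 0x100101,nat_lit 0x200101,nat_lit 0x1000101,nat_lit 0x10000101,nat_lit 0x10001101,nat_lit 0x20000111,
    nat_lit 0x20000101,nat_lit 0x1001,nat_lit 0x11001,nat_lit 0x101001,nat_lit 0x1001001,nat_lit 0x10001,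
    nat_lit 0x11002,nat_lit 0x110002,nat_lit 0x10010001,nat_lit 0x20002,nat_lit 0x10011,nat_lit 0x10010011,
    nat_lit 0x12001,nat_lit 0x20001,nat_lit 0x110001,nat_lit 0x1010001,nat_lit 0x20010001,nat_lit 0x100001,
    nat_lit 0x200001,nat_lit 0x1000001,nat_lit 0x1100001,nat_lit 0x10000001,nat_lit 0x10001001,nat_lit 0x20000001,
    nat_lit 0x20000011,nat_lit 0x10001011],[nat_lit 32,nat_lit 0x10000020,nat_lit 0x20000020,nat_lit 288,nat_lit 272,
    nat_lit 0x10000110,nat_lit 0x1010,nat_lit 0x10001010,nat_lit 0x10010010,nat_lit 0x100010,nat_lit 0x101010,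
    nat_lit 0x1000010,nat_lit 0x10000010,nat_lit 0x20000110,nat_lit 0x20010010,nat_lit 0x20000010,nat_lit 0x30000010],
    [nat_lit 512,nat_lit 0x1200,nat_lit 0x1100,nat_lit 0x10001100,nat_lit 0x101100,nat_lit 0x10100,nat_lit 0x10010100,
    nat_lit 0x100100,nat_lit 0x200100,nat_lit 0x1100100,nat_lit 0x1000100,nat_lit 0x10000100,nat_lit 0x20000100],
    [nat_lit 0x2000,nat_lit 0x11000,nat_lit 0x101000,nat_lit 0x201000,nat_lit 0x1001000,nat_lit 0x10011000,
    nat_lit 0x20001000],[nat_lit 0x20000,nat_lit 0x10010000,nat_lit 0x20010000],[nat_lit 0x200000,nat_lit 0x300000,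
    nat_lit 0x400000,nat_lit 0x1200000,nat_lit 0x1100000,nat_lit 0x10100000],[nat_lit 0x2000000,nat_lit 0x11000000,
    nat_lit 0x21000000],[nat_lit 0x20000000,nat_lit 0x30000000]]
    [.c (nat_lit 0) (nat_lit 0x146000002),.c (nat_lit 1) (nat_lit 2),.c (nat_lit 0) (nat_lit 0xe018cc7),
    .r (nat_lit 0xdc2) (nat_lit 5) [nat_lit 0x84000001,nat_lit 0x6000041],
    .r (nat_lit 0x1571) (nat_lit 7) [nat_lit 0x10001,nat_lit 0x200001,nat_lit 0x80000001,nat_lit 0x3000c1],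
    .c (nat_lit 0) (nat_lit 0xe018cc7),.c (nat_lit 0) (nat_lit 0x18e718cc7),.c (nat_lit 1) (nat_lit 0x31ad29587),
    .c (nat_lit 0) (nat_lit 0x3406108e6),.c (nat_lit 0) (nat_lit 0x1cc7188ec),
    .r (nat_lit 0x161e) (nat_lit 9) [nat_lit 0x635a55b0e9,nat_lit 0x210003],
    .r (nat_lit 0x161e) (nat_lit 9) [nat_lit 0x31ce3198e3,nat_lit 0x210003],.c (nat_lit 0) (nat_lit 0x1cc611cec),
    .r (nat_lit 0xdbb) (nat_lit 1) [nat_lit 0x30c211cc3,nat_lit 0xc0000861],.c (nat_lit 0) (nat_lit 0xc6000002),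
    .c (nat_lit 0) (nat_lit 0xe018cc7),.r (nat_lit 0x1654) (nat_lit 6) [nat_lit 0x210003,nat_lit 0x48c4234c3,
    nat_lit 0x1c0319803],.c (nat_lit 0) (nat_lit 0xe718cc7),.c (nat_lit 0) (nat_lit 0x1cc6188ec),
    .c (nat_lit 0) (nat_lit 0xc4200062),.c (nat_lit 0) (nat_lit 0x1cc0188e6),.c (nat_lit 0) (nat_lit 0x1cc6188e6),
    .c (nat_lit 0) (nat_lit 0x18e7188cd),.c (nat_lit 0) (nat_lit 0x1ce000c06),
    .r (nat_lit 0x15ed) (nat_lit 10) [nat_lit 0x80000001,nat_lit 0x210003,nat_lit 0x31ce319803,nat_lit 0x1c03198e3],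
    .r (nat_lit 0xdc2) (nat_lit 5) [nat_lit 0x84000001,nat_lit 65],.c (nat_lit 0) (nat_lit 0xc6000002),
    .c (nat_lit 0) (nat_lit 0x34e000c06),.c (nat_lit 0) (nat_lit 0x146000002),.c (nat_lit 0) (nat_lit 0x1ce018006),
    .c (nat_lit 0) (nat_lit 0x14a000002),.c (nat_lit 0) (nat_lit 0x6300002),.c (nat_lit 0) (nat_lit 0xe718006),
    .c (nat_lit 0) (nat_lit 0x1ce001406),.c (nat_lit 0) (nat_lit 0xca000002),.c (nat_lit 0) (nat_lit 0xc6000002),
    .c (nat_lit 0) (nat_lit 0x6000002),.c (nat_lit 0) (nat_lit 0xe028006),.c (nat_lit 0) (nat_lit 0xe718cc7),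
    .r (nat_lit 0x149c) (nat_lit 12) [nat_lit 0x84000001,nat_lit 65,nat_lit 0x210003,nat_lit 0x80000001],
    .c (nat_lit 0) (nat_lit 0xe718cc7),.c (nat_lit 1) (nat_lit 0x80000002),
    .r (nat_lit 0x161e) (nat_lit 9) [nat_lit 0x3180c3,nat_lit 0x210003],.c (nat_lit 0) (nat_lit 0x18c06),
    .c (nat_lit 0) (nat_lit 0x28006),.c (nat_lit 0) (nat_lit 0x728006),.c (nat_lit 0) (nat_lit 0x718c06),
    .c (nat_lit 2) (nat_lit 2),.r (nat_lit 0x10fa) (nat_lit 2) [nat_lit 0x4000001,nat_lit 0x80000001,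
    nat_lit 0x182100e3,nat_lit 0x31ce319803,nat_lit 0xa000041],.c (nat_lit 0) (nat_lit 0x28006),
    .c (nat_lit 0) (nat_lit 0x1ce618cc7),.c (nat_lit 0) (nat_lit 0x1ce018cc7),
    .r (nat_lit 0x15ed) (nat_lit 10) [nat_lit 0x80000001,nat_lit 0x210003,nat_lit 0x31ce319803,nat_lit 0x3180c3],
    .c (nat_lit 0) (nat_lit 0x1ce6188cd),.c (nat_lit 0) (nat_lit 0x18c06),.c (nat_lit 0) (nat_lit 0xe718006),
    .c (nat_lit 0) (nat_lit 0xc0200003),.c (nat_lit 0) (nat_lit 0x1ce6188cd),.c (nat_lit 2) (nat_lit 0x200002),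
    .r (nat_lit 0xdbb) (nat_lit 1) [nat_lit 0x18c2100e3,nat_lit 65],.c (nat_lit 0) (nat_lit 0x728006),
    .c (nat_lit 0) (nat_lit 0xe728006),.c (nat_lit 0) (nat_lit 0x28006),.c (nat_lit 0) (nat_lit 0x18002),
    .c (nat_lit 3) (nat_lit 2),.r (nat_lit 0x161e) (nat_lit 9) [nat_lit 0x635a55b0ec,nat_lit 0x210003],
    .r (nat_lit 0xdb8) (nat_lit 5) [nat_lit 0x84000001,nat_lit 65],.c (nat_lit 1) (nat_lit 0x86300043),
    .r (nat_lit 0x1571) (nat_lit 7) [nat_lit 0x10001,nat_lit 0x200001,nat_lit 0x80000001,nat_lit 0x1c03018e1],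
    .r (nat_lit 0x165b) (nat_lit 14) [nat_lit 0xc6000041,nat_lit 0x84000001],.c (nat_lit 0) (nat_lit 0x1e6738ccc),
    .c (nat_lit 0) (nat_lit 0x1ce718ccd),.c (nat_lit 0) (nat_lit 0x1ce618cc7),.c (nat_lit 0) (nat_lit 0x1ce718ccd),
    .c (nat_lit 0) (nat_lit 0x1ce718cc7),.r (nat_lit 0x161e) (nat_lit 9) [nat_lit 0x10c6018862,nat_lit 0x210003],
    .c (nat_lit 0) (nat_lit 0x28006),.c (nat_lit 4) (nat_lit 2),.r (nat_lit 0xdbb) (nat_lit 1) [nat_lit 65,
    nat_lit 0x18c2100e3],.c (nat_lit 0) (nat_lit 0x1ce7188cd),.r (nat_lit 0x151b) (nat_lit 10) [nat_lit 0x180c2,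
    nat_lit 0x80000001,nat_lit 0x210003],.c (nat_lit 0) (nat_lit 0x1ce7188cd),.c (nat_lit 0) (nat_lit 0x1ce018c06),
    .c (nat_lit 0) (nat_lit 0x28c06),.c (nat_lit 5) (nat_lit 2),.c (nat_lit 0) (nat_lit 0x1e6738ccc),
    .c (nat_lit 0) (nat_lit 0x28006),.c (nat_lit 6) (nat_lit 2),.r (nat_lit 0x151b) (nat_lit 10) [nat_lit 65,
    nat_lit 0x80000001,nat_lit 0x210003],.r (nat_lit 0xcd7) (nat_lit 5) [nat_lit 0x31ce319801,nat_lit 0x400001,
    nat_lit 0x300000001,nat_lit 194,nat_lit 0x20001],.c (nat_lit 0) (nat_lit 0x1ce718cc7),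
    .c (nat_lit 0) (nat_lit 0xc0000003),.r (nat_lit 0x151b) (nat_lit 10) [nat_lit 0x3000c1,nat_lit 0x80000001,
    nat_lit 0x210003],.c (nat_lit 7) (nat_lit 2),.r (nat_lit 0xdbb) (nat_lit 1) [nat_lit 0x1802100e3,
    nat_lit 0x4000041],.c (nat_lit 0) (nat_lit 0x28006),.c (nat_lit 8) (nat_lit 2),.c (nat_lit 0) (nat_lit 0x18002)],
    .l (nat_lit 9) (nat_lit 120) (nat_lit 3) (nat_lit 0x3a000000340000003d0000003d0000004a0000003e0000003a0000003a0000003b0000003b0000003a0000003a0000003a0000003a0000003a0000003a) (nat_lit 0x16000000100000000d0000000d0000000c0000000000000010000000100000000f0000000f000000100000001000000010000000100000001000000010)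
    (nat_lit 0x100a8622b170785833158ac562a150a8542c0f0805a27130d04a2c1188c4826110884c24138ac6030148dc5e2f160b45e2f168b4622f168c46030108f4422d170785a21168b492471a0787a371f128944a2391c743a100e86c3a130b84229190f85c2e188c45c2e170b84a2e160cc5a2f17128502a158ac5428150a8542a128b0422f171285428158ac5428150a8542a118ac3c2d1891c562b170b0562b158ac522b118ac5c2c1891c562b168b8562b158ac562b130a8422f170e85028158ac5429150a8542a120ac5a2f170e8542a158ac502a150a85428110a85a2d170e8542a158ac542a160b0522a110a85a2d17080542a158ac542a160b0502a120b08e2f170e8542a158ac502a150a85428130a89231128d8542a158a4542a140a4542a)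
    (nat_lit 0x101e0f0783c1e0f0783c1e0f0783c1e0f07815080f0783c1e0f0783c1e0f0783c1e0f078188b460783c1e0f0783c1e0f0783c1e0f0781589c60303c1e0f0783c1e0f0783c1e0f0781709852211f1e0f0783c1e0f0783c1e0f0780f0d06e3d250f8f0783c1e0f0783c1e0f078160945e21218b850783c1e0f0783c1e0f078198b05e2d250b854283c1e0f0783c1e0f0781588c582e208c4562b171e0f0783c1e0f0781588c5a1e208c4562b160b8f0783c1e0f078158905e2d1d0b8542a158ac54783c1e0f078150985e211d0b85028158ac522a3c1e0f078150885a2d100b8542a158ac542a161e0f078150885a2d1d0b8542a158ac542a160b0f0781509862491b094542a148ac542a148a05478160905e471d0b8542a158ac5428150a8502a)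
    (nat_lit 4) (nat_lit 57)
    [[nat_lit 2,nat_lit 17,nat_lit 0x100011,nat_lit 0x10000011,nat_lit 257,nat_lit 0x1001,nat_lit 0x10001,
    nat_lit 0x100001,nat_lit 0x10100001,nat_lit 0x10000001,nat_lit 0x20000001],[nat_lit 32,nat_lit 272,
    nat_lit 0x10000110,nat_lit 0x1010,nat_lit 0x1001010,nat_lit 0x10010,nat_lit 0x100010,nat_lit 0x1100010,
    nat_lit 0x10100010,nat_lit 0x1000010,nat_lit 0x10000010,nat_lit 0x20000010],[nat_lit 512,nat_lit 0x1100,
    nat_lit 0x10100,nat_lit 0x100100,nat_lit 0x10100100,nat_lit 0x1000100,nat_lit 0x10000100,nat_lit 0x11000100,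
    nat_lit 0x20000100],[nat_lit 0x2000,nat_lit 0x11000,nat_lit 0x10101000,nat_lit 0x1001000,nat_lit 0x10001000,
    nat_lit 0x11001000,nat_lit 0x20001000],[nat_lit 0x20000,nat_lit 0x1010000,nat_lit 0x10010000,nat_lit 0x10110000],
    [nat_lit 0x1100000,nat_lit 0x11100000,nat_lit 0x10100000,nat_lit 0x20100000],[nat_lit 0x2000000,
    nat_lit 0x11000000],[nat_lit 0x20000000,nat_lit 0x30000000]]
    [.c (nat_lit 1) (nat_lit 2),.c (nat_lit 0) (nat_lit 0x2022003),.c (nat_lit 4) (nat_lit 0x2042003),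
    .r (nat_lit 0xdb4) (nat_lit 3) [nat_lit 0x200001,nat_lit 33],.c (nat_lit 0) (nat_lit 0x777367),
    .c (nat_lit 0) (nat_lit 0x2022003),.c (nat_lit 0) (nat_lit 0x333023),
    .r (nat_lit 0x1220) (nat_lit 11) [nat_lit 0x2001,nat_lit 0x20001,nat_lit 0x200001,nat_lit 0x2000001,
    nat_lit 0x20000001],.c (nat_lit 4) (nat_lit 0x2040003),.c (nat_lit 0) (nat_lit 0x2020003),
    .r (nat_lit 0xdb4) (nat_lit 3) [nat_lit 0x200001,nat_lit 0x20021],.c (nat_lit 2) (nat_lit 2),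
    .r (nat_lit 0xdb2) (nat_lit 5) [nat_lit 33,nat_lit 0x30300231],.r (nat_lit 0x11bf) (nat_lit 8) [nat_lit 0x2001,
    nat_lit 0x2020031,nat_lit 0x200001,nat_lit 0x7773601],.c (nat_lit 0) (nat_lit 0x2022003),
    .r (nat_lit 0xdb4) (nat_lit 3) [nat_lit 0x200001,nat_lit 0x22240031],.c (nat_lit 0) (nat_lit 0x60c40d),
    .r (nat_lit 0xdb4) (nat_lit 3) [nat_lit 0x200001,nat_lit 0x20000021],.c (nat_lit 0) (nat_lit 0x2303002),
    .r (nat_lit 0x165b) (nat_lit 2) [nat_lit 0x3030021,nat_lit 0x2220031],.c (nat_lit 0) (nat_lit 0x204003),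
    .c (nat_lit 2) (nat_lit 0x2002),.r (nat_lit 0xdc2) (nat_lit 14) [nat_lit 0x77793623,nat_lit 0x22043],
    .c (nat_lit 3) (nat_lit 2),.r (nat_lit 0x11cb) (nat_lit 1) [nat_lit 0x2001,nat_lit 0x300021,nat_lit 0x200001,
    nat_lit 0x7073671],.c (nat_lit 0) (nat_lit 0x333023),.r (nat_lit 0xdc2) (nat_lit 14) [nat_lit 33,
    nat_lit 0x44462541],.r (nat_lit 0x1255) (nat_lit 6) [nat_lit 0x2001,nat_lit 0x70773671,nat_lit 0x200001,
    nat_lit 0x666c2761],.r (nat_lit 0xdb7) (nat_lit 8) [nat_lit 33,nat_lit 0x30300231],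
    .r (nat_lit 0xdb2) (nat_lit 5) [nat_lit 0x20021,nat_lit 0x30330231],
    .r (nat_lit 0x14ab) (nat_lit 11) [nat_lit 0x2001,nat_lit 0x3000041,nat_lit 0x200001,nat_lit 0x7dd5cd1],
    .r (nat_lit 0x11bf) (nat_lit 8) [nat_lit 0x2001,nat_lit 0x2000031,nat_lit 0x200001,nat_lit 0x7773601],
    .c (nat_lit 4) (nat_lit 2),.r (nat_lit 0xdb3) (nat_lit 1) [nat_lit 33,nat_lit 0x2020001],
    .c (nat_lit 0) (nat_lit 0x32002),.r (nat_lit 0x165b) (nat_lit 2) [nat_lit 0x200031,nat_lit 33],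
    .c (nat_lit 0) (nat_lit 0x2020003),.r (nat_lit 0xdb4) (nat_lit 3) [nat_lit 0x200001,nat_lit 0x22220031],
    .r (nat_lit 0xdb3) (nat_lit 0) [nat_lit 0x2200031,nat_lit 0x20220001],.c (nat_lit 5) (nat_lit 2),
    .r (nat_lit 0x1255) (nat_lit 6) [nat_lit 0x2001,nat_lit 0x3061,nat_lit 0x200001,nat_lit 0x6062071],
    .c (nat_lit 0) (nat_lit 0x60040d),.r (nat_lit 0xdb7) (nat_lit 8) [nat_lit 0x30330231,nat_lit 0x20021],
    .r (nat_lit 0xdb3) (nat_lit 0) [nat_lit 33,nat_lit 0x20220001],.c (nat_lit 0) (nat_lit 0x2300002),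
    .r (nat_lit 0xdb4) (nat_lit 3) [nat_lit 0x200001,nat_lit 0x20020021],
    .r (nat_lit 0x165b) (nat_lit 2) [nat_lit 0x3000021,nat_lit 0x2200031],.c (nat_lit 7) (nat_lit 2),
    .c (nat_lit 0) (nat_lit 0x200005),.c (nat_lit 8) (nat_lit 2),.r (nat_lit 0xdc2) (nat_lit 14) [nat_lit 0x77773623,
    nat_lit 0x62043]]]

/-- nodes -/
noncomputable def rD8k_37_1 : List RJ :=
  [.l (nat_lit 15) (nat_lit 0x1a40) (nat_lit 4) (nat_lit 0xc6900000a4300000a5600000db600000f4600000f4600000c8500000c4d00000bea00000bea00000ee500000ee500000bb700000a4300000b9a00000b9a) (nat_lit 0x503000002dd00000190000004f00000000000000000000002f9000002c10000035c0000035c0000006100000061000005030000038f000003ac000003ac)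
    (nat_lit 0x118c30e861c88c71ffa3dd445a09a80d6624345730ba20d00150045e87d70aa4231845985531596290c2a005400dce1b9c433066a0a801ad02a485570aa6231c4630554193029583ae870d14e424104fa89f50d26210c2a506aa116630e461308c61fd436d84598e1d14b423b048789f51b4639b437f054014863dd46db0a56183c3d186dd8a511e9437d054f8ee51e1a3ff451d06aa15963ff47f50c98171830787f78c8518982bd86708fa114862ccc5cd08ec0a8026a070e870d190a29445400d7e10da161c6540bc214602be82a288d90a8022d0459875d1fde36ec4aa0a800b8623c473f0d980e64164045089b10dce2434476090415ec37d047885870dc4223875b8eb70bae172447d08560dce1acc52d0a7218983d282e1886d111c1b885c48b890d66216c452083e0cd42e884fa89f51f423b946cc0bc217123adc7420e8413c42d586c98b6d10cc2b9848789f519c22a7c73f0ca817123adc7420e8413542d587698cad0d681500736884316663ff42c80afa10b617245ab0b560a8020a049688430a801a006d1869314863c343990a300d66175c4d509e20a8015003be86970aae1f5c2a006aa11d81aa84d888d9107c21586568b6d0d2e210c46a07ee0a9222f437f054a173428e84508545114823e87698d930efa24b42a008d4)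
    (nat_lit 0x118c6900d201a4034806900d201a4034806900d201a4034806900d201a4018742318d201a4034806900d201a4034806900d201a4034806900d201a40187222cc4631a4034806900d201a4034806900d201a4034806900d201a40118e154c2aa08c634806900d201a4034806900d201a4034806900d201a401ffa2b2c64c0fea183c6900d201a4034806900d201a4034806900d201a401eea290c52b0db61e8c3078d201a4034806900d201a4034806900d201a40116815003ae88b31b763fbc5401a4034806900d201a4034806900d201a40135015003868e1d14a232146bf0a8034806900d201a4034806900d201a400d661b9c5390a5a1e94313043685c30dc46900d201a4034806900d201a40121a1b9c48208ec1be82bd82c388f1111c1b88d201a4034806900d201a4015cc21984fa890f153e33846540e7e1d6e2e247421a4034806900d201a40174419a84fa89f51dca3e845e10d981d6e2e247420e8434806900d201a400d0015003498da31e1a290c51807320bae1acc4f109aa0a806900d201a400a801ad04218df31f062ccc54005900b92216c5ab0b5610501500d201a40117a15242a506fe14742e682a288a111f422906c98e59125a1df446a1a400fae155c35505400d5423b046c89b110ac20f85b68cad10861a5c3f708d4)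
    (nat_lit 6) (nat_lit 249)
    [[nat_lit 2,nat_lit 3,nat_lit 0x1000003,nat_lit 18,nat_lit 0x1002,nat_lit 0x10002,nat_lit 0x1000002,
    nat_lit 0x10000002,nat_lit 0x10000012,nat_lit 34,nat_lit 0x1000012,nat_lit 0x1012,nat_lit 0x10001002,
    nat_lit 0x100002,nat_lit 0x2000002,nat_lit 0x11000002,nat_lit 17,nat_lit 33,nat_lit 0x10000021,nat_lit 0x1011,
    nat_lit 0x10011,nat_lit 0x100011,nat_lit 0x1000011,nat_lit 0x10000011,nat_lit 0x10001011,nat_lit 0x1010011,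
    nat_lit 0x10010011,nat_lit 0x11000011,nat_lit 0x20000011,nat_lit 0x1001,nat_lit 0x2001,nat_lit 0x11001,
    nat_lit 0x1001001,nat_lit 0x10001001,nat_lit 0x10001,nat_lit 0x1010002,nat_lit 0x10021,nat_lit 0x11011,
    nat_lit 0x1011001,nat_lit 0x10011001,nat_lit 0x20001,nat_lit 0x1010001,nat_lit 0x2010001,nat_lit 0x10010001,
    nat_lit 0x11010001,nat_lit 0x100001,nat_lit 0x1000001,nat_lit 0x1000101,nat_lit 0x2000001,nat_lit 0x11000001,
    nat_lit 0x10000001,nat_lit 0x10100001,nat_lit 0x20000001],[nat_lit 32,nat_lit 48,nat_lit 64,nat_lit 0x1030,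
    nat_lit 0x10000030,nat_lit 0x1020,nat_lit 0x2020,nat_lit 0x11020,nat_lit 0x10001020,nat_lit 0x10020,
    nat_lit 0x10010020,nat_lit 0x11000020,nat_lit 0x10000020,nat_lit 0x20000020,nat_lit 272,nat_lit 0x10000110,
    nat_lit 0x1010,nat_lit 0x2010,nat_lit 0x10002010,nat_lit 0x12010,nat_lit 0x11010,nat_lit 0x10011010,
    nat_lit 0x1001010,nat_lit 0x10001010,nat_lit 0x20001010,nat_lit 0x11001010,nat_lit 0x10010,nat_lit 0x10010010,
    nat_lit 0x110010,nat_lit 0x10100010,nat_lit 0x1000010,nat_lit 0x11010010,nat_lit 0x11000010,nat_lit 0x10000010,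
    nat_lit 0x20010010,nat_lit 0x21000010,nat_lit 0x20000010,nat_lit 0x30000010],[nat_lit 0x1000100,nat_lit 0x2000100,
    nat_lit 0x11000100,nat_lit 0x10000100,nat_lit 0x20000100],[nat_lit 0x2000,nat_lit 0x3000,nat_lit 0x13000,
    nat_lit 0x12000,nat_lit 0x10002000,nat_lit 0x10012000,nat_lit 0x11000,nat_lit 0x21000,nat_lit 0x1011000,
    nat_lit 0x10011000,nat_lit 0x22000,nat_lit 0x10021000,nat_lit 0x1001000,nat_lit 0x2001000,nat_lit 0x11001000,
    nat_lit 0x10001000,nat_lit 0x20001000],[nat_lit 0x20000,nat_lit 0x10020000,nat_lit 0x1010000,nat_lit 0x11010000,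
    nat_lit 0x2010000,nat_lit 0x10010000,nat_lit 0x20010000],[nat_lit 0x200000],[nat_lit 0x2000000,
    nat_lit 0x11000000],[nat_lit 0x20000000]]
    [.c (nat_lit 1) (nat_lit 2),.c (nat_lit 0) (nat_lit 0x71c00c3183),
    .r (nat_lit 0x61d) (nat_lit 14) [nat_lit 0x12000000001,nat_lit 0xc0181,nat_lit 0x6000001,nat_lit 0x180001,
    nat_lit 0x4c00c0181,nat_lit 0x4d30071521c1],.r (nat_lit 0x155c) (nat_lit 15) [nat_lit 0x2000001,nat_lit 0x80001,
    nat_lit 0x80000000001,nat_lit 0x1c70030c6001,nat_lit 0x61c2087181],.c (nat_lit 0) (nat_lit 0xd340145307),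
    .c (nat_lit 0) (nat_lit 0x71c30c3183),.c (nat_lit 0) (nat_lit 0xd340143307),.c (nat_lit 0) (nat_lit 0xd3400c5307),
    .r (nat_lit 0x61e) (nat_lit 11) [nat_lit 0x2000001,nat_lit 0x80001,nat_lit 0x3063020001c1,nat_lit 0x180000000001,
    nat_lit 0x3471c30c6001,nat_lit 0x340343000181],.r (nat_lit 0x61f) (nat_lit 11) [nat_lit 0x2000001,nat_lit 0x80001,
    nat_lit 0x6000000001,nat_lit 0x340000182,nat_lit 0x34d00514c1c2,nat_lit 0x3003000001c2],
    .r (nat_lit 0x61e) (nat_lit 11) [nat_lit 0x2000001,nat_lit 0x80001,nat_lit 0x3063000801c1,nat_lit 0x180000000001,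
    nat_lit 0x3471c30c6001,nat_lit 0x3403400c0181],.r (nat_lit 0x15fb) (nat_lit 1) [nat_lit 0x2000001,
    nat_lit 0x34700514c1c1,nat_lit 0x186002107183,nat_lit 0x1c00c0001],.c (nat_lit 0) (nat_lit 0xd3400c5307),
    .r (nat_lit 0x620) (nat_lit 3) [nat_lit 0x180000000001,nat_lit 0x63000001c1,nat_lit 0x180000001,nat_lit 0x2000001,
    nat_lit 0x80001,nat_lit 0x340000181],.r (nat_lit 0xdab) (nat_lit 5) [nat_lit 0x2000001,nat_lit 0x34d00500c1c2,
    nat_lit 130,nat_lit 0x2000000001],.r (nat_lit 0xdab) (nat_lit 5) [nat_lit 0x2000001,nat_lit 0x34d0030cc1c2,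
    nat_lit 0x3080186,nat_lit 0x2000000001],.r (nat_lit 0xdba) (nat_lit 5) [nat_lit 0xc0000081,nat_lit 0x820800000c1],
    .r (nat_lit 229) (nat_lit 2) [nat_lit 0x80001,nat_lit 0x2000001,nat_lit 385,nat_lit 0x1801800001c1,
    nat_lit 0x1c70030c61c1,nat_lit 0x1c0000181],.r (nat_lit 0x621) (nat_lit 2) [nat_lit 0x80001,nat_lit 0x2000001,
    nat_lit 0x3000181,nat_lit 0x1801820001c1,nat_lit 0x1c70000c61c1,nat_lit 0x1c3000181],
    .r (nat_lit 0x165b) (nat_lit 13) [nat_lit 0x20c0003,nat_lit 0x186002107183],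
    .r (nat_lit 0x155c) (nat_lit 15) [nat_lit 0x2000001,nat_lit 0x80001,nat_lit 0x80000000001,nat_lit 0x1c70030c6001,
    nat_lit 0x6002087181],.c (nat_lit 0) (nat_lit 0xc0000002),.r (nat_lit 0x15fb) (nat_lit 1) [nat_lit 0x2000001,
    nat_lit 0x1c00030061c1,nat_lit 129,nat_lit 0x1c00c0001],.r (nat_lit 0x15fb) (nat_lit 1) [nat_lit 0x2000001,
    nat_lit 0x1c00000c61c1,nat_lit 0x3080183,nat_lit 0x1c00c0001],
    .r (nat_lit 0xdbb) (nat_lit 10) [nat_lit 0xc00000020c1,nat_lit 0x80080000001],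
    .r (nat_lit 0x61e) (nat_lit 11) [nat_lit 0x2000001,nat_lit 0x80001,nat_lit 0x3061800801c1,nat_lit 0x180000000001,
    nat_lit 0x3471c30c6001,nat_lit 0x3401c00c0181],.r (nat_lit 0x61e) (nat_lit 11) [nat_lit 0x2000001,nat_lit 0x80001,
    nat_lit 0x3061820001c1,nat_lit 0x180000000001,nat_lit 0x3471c30c6001,nat_lit 0x3401c3000181],
    .r (nat_lit 0x163a) (nat_lit 2) [nat_lit 0xc0000001,nat_lit 0x80080000001,nat_lit 0x20000000c1,
    nat_lit 0xc3000002001],.r (nat_lit 0x163a) (nat_lit 2) [nat_lit 0xc0000001,nat_lit 0x80080000001,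
    nat_lit 0x60020c01c3,nat_lit 0xc3000002001],.c (nat_lit 0) (nat_lit 0x71c00c3187),
    .c (nat_lit 0) (nat_lit 0xd340145307),.c (nat_lit 0) (nat_lit 0xd347145307),.c (nat_lit 0) (nat_lit 0x71c00c0187),
    .c (nat_lit 0) (nat_lit 0x71c0003187),.c (nat_lit 1) (nat_lit 0x2000002),
    .r (nat_lit 0x61d) (nat_lit 14) [nat_lit 0x12000000001,nat_lit 0x1800c0181,nat_lit 0x6000001,nat_lit 0x180001,
    nat_lit 0x3400c0181,nat_lit 0x4d31c71521c1],.r (nat_lit 0x61f) (nat_lit 11) [nat_lit 0x2000001,nat_lit 0x80001,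
    nat_lit 0x6000000001,nat_lit 0x1c0000182,nat_lit 0x34d1c514c1c2,nat_lit 0x3001800001c2],
    .r (nat_lit 0x15fb) (nat_lit 1) [nat_lit 0x2000001,nat_lit 0x3471c514c1c1,nat_lit 0x186182107183,
    nat_lit 0x1c00c0001],.c (nat_lit 0) (nat_lit 0xd347143307),.c (nat_lit 0) (nat_lit 0xd3470c5307),
    .c (nat_lit 0) (nat_lit 0x71c50c3183),.c (nat_lit 0) (nat_lit 0xd347143307),
    .r (nat_lit 0xdab) (nat_lit 5) [nat_lit 0x2000001,nat_lit 0x34d1c500c1c2,nat_lit 0x80000082,nat_lit 0x2000000001],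
    .c (nat_lit 0) (nat_lit 0xd3470c5307),.r (nat_lit 0xdab) (nat_lit 5) [nat_lit 0x2000001,nat_lit 0x34d1c30cc1c2,
    nat_lit 0x183080186,nat_lit 0x2000000001],.r (nat_lit 0xdbb) (nat_lit 2) [nat_lit 0xc0000081,
    nat_lit 0x80080000001],.c (nat_lit 0) (nat_lit 0x71c00c0187),.c (nat_lit 0) (nat_lit 0x7007003006),
    .c (nat_lit 0) (nat_lit 0x71c00c2187),.c (nat_lit 0) (nat_lit 0x30c0000083),.c (nat_lit 0) (nat_lit 0x71c0003187),
    .r (nat_lit 0xdb4) (nat_lit 11) [nat_lit 0x80080000001,nat_lit 0x1c3080183],.c (nat_lit 0) (nat_lit 0x71c0083187),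
    .c (nat_lit 2) (nat_lit 2),.r (nat_lit 0xdbb) (nat_lit 10) [nat_lit 0x60000800c3,nat_lit 0x80080000001],
    .r (nat_lit 0x622) (nat_lit 11) [nat_lit 0x4000001,nat_lit 0x100001,nat_lit 0x180000001c2,nat_lit 0x300000000001,
    nat_lit 0x64d34514c001,nat_lit 386],.r (nat_lit 0x623) (nat_lit 3) [nat_lit 0x30d182087181,nat_lit 0x6000000001,
    nat_lit 0x1cc0030c61c1,nat_lit 0x2000001,nat_lit 0x80001,nat_lit 0x1cc1c30c61c1],
    .r (nat_lit 0x624) (nat_lit 11) [nat_lit 0x6000001,nat_lit 0x180001,nat_lit 0x120020001c1,nat_lit 0x480000000001,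
    nat_lit 0x9534c71d2001,nat_lit 0x3000181],.r (nat_lit 0x625) (nat_lit 3) [nat_lit 0x307182087181,
    nat_lit 0x6000000001,nat_lit 0x1c60030c61c1,nat_lit 0x2000001,nat_lit 0x80001,nat_lit 0x1c61c30c61c1],
    .r (nat_lit 0x626) (nat_lit 9) [nat_lit 0x6000000001,nat_lit 0x60030410d182,nat_lit 0xd000000182,
    nat_lit 0x34034514c1c2,nat_lit 0x80001,nat_lit 0x2000001],.r (nat_lit 0xdbb) (nat_lit 10) [nat_lit 0x1c61c30861c6,
    nat_lit 0x80080000001],.r (nat_lit 0x627) (nat_lit 3) [nat_lit 0x307180087181,nat_lit 0x6000000001,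
    nat_lit 0x1c60000c61c1,nat_lit 0x2000001,nat_lit 0x80001,nat_lit 0x1c61c00c61c1],
    .r (nat_lit 229) (nat_lit 2) [nat_lit 0x80001,nat_lit 0x2000001,nat_lit 0x180000181,nat_lit 0x1800000001c1,
    nat_lit 0x1c71c30c61c1,nat_lit 385],.r (nat_lit 0x621) (nat_lit 2) [nat_lit 0x80001,nat_lit 0x2000001,
    nat_lit 0x183000181,nat_lit 0x1800020001c1,nat_lit 0x1c71c00c61c1,nat_lit 0x3000181],
    .r (nat_lit 0x628) (nat_lit 11) [nat_lit 0x2000001,nat_lit 0x80001,nat_lit 0xc0020801c2,nat_lit 0x180000000001,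
    nat_lit 0x3471c30c6001,nat_lit 0x30c0182],.r (nat_lit 0xdbb) (nat_lit 10) [nat_lit 0xc0021001c6,
    nat_lit 0x80080000001],.r (nat_lit 0x628) (nat_lit 11) [nat_lit 0x2000001,nat_lit 0x80001,nat_lit 0xc0040001c2,
    nat_lit 0x180000000001,nat_lit 0x3471c30c6001,nat_lit 0x5000182],
    .r (nat_lit 0xdbb) (nat_lit 2) [nat_lit 0x820000000c1,nat_lit 0x80080000001],
    .c (nat_lit 0) (nat_lit 0xd347143186),.r (nat_lit 0x14a4) (nat_lit 5) [nat_lit 0xc0000001,nat_lit 0x80080000001,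
    nat_lit 0x82000003081,nat_lit 0xc3000002001],.r (nat_lit 0x62a) (nat_lit 3) [nat_lit 0x180000000001,
    nat_lit 0x30c30410d181,nat_lit 0x180000001,nat_lit 0x2000001,nat_lit 0x80001,nat_lit 0x34734514c1c1],
    .r (nat_lit 0x620) (nat_lit 3) [nat_lit 0x180000000001,nat_lit 0x30c30210d181,nat_lit 0x180000001,
    nat_lit 0x2000001,nat_lit 0x80001,nat_lit 0x34734314c1c1],.r (nat_lit 0xdb4) (nat_lit 11) [nat_lit 0x80080000001,
    nat_lit 0x3473450cc1c3],.r (nat_lit 0x165b) (nat_lit 13) [nat_lit 0x20c0003,nat_lit 0x186182107183],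
    .r (nat_lit 0xdbb) (nat_lit 10) [nat_lit 0xc00c00020c1,nat_lit 0x80080000001],
    .r (nat_lit 0xdb4) (nat_lit 11) [nat_lit 0x80080000001,nat_lit 0x1c01c30861c3],
    .r (nat_lit 0xdb4) (nat_lit 11) [nat_lit 0x80080000001,nat_lit 0xc00c00020c1],
    .r (nat_lit 0xdbb) (nat_lit 2) [nat_lit 0x1c01c20c61c3,nat_lit 0x80080000001],
    .r (nat_lit 0xdbb) (nat_lit 2) [nat_lit 0xc00c00020c1,nat_lit 0x80080000001],
    .r (nat_lit 0xdba) (nat_lit 5) [nat_lit 129,nat_lit 0x820000000c1],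
    .r (nat_lit 0x15fb) (nat_lit 1) [nat_lit 0x2000001,nat_lit 0x1c01c00c61c1,nat_lit 0x183080183,
    nat_lit 0x1c00c0001],.c (nat_lit 0) (nat_lit 0xc2000002),.c (nat_lit 0) (nat_lit 0x1c00c0006),
    .r (nat_lit 0x165b) (nat_lit 13) [nat_lit 0x20c0003,nat_lit 129],
    .r (nat_lit 0x163a) (nat_lit 2) [nat_lit 0xc0000001,nat_lit 0x80080000001,nat_lit 0x20c00000c1,
    nat_lit 0xc3000002001],.r (nat_lit 0xdbb) (nat_lit 10) [nat_lit 0x60021001c3,nat_lit 0x80080000001],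
    .r (nat_lit 0x165b) (nat_lit 13) [nat_lit 0x20c0003,nat_lit 0x3080183],
    .r (nat_lit 0x163a) (nat_lit 2) [nat_lit 0xc0000001,nat_lit 0x80080000001,nat_lit 0x61c20c01c3,
    nat_lit 0xc3000002001],.c (nat_lit 0) (nat_lit 0x143006),.r (nat_lit 0xdbb) (nat_lit 10) [nat_lit 0x60040801c3,
    nat_lit 0x80080000001],.c (nat_lit 0) (nat_lit 0xc0002),.c (nat_lit 0) (nat_lit 0xd1c70c5186),
    .c (nat_lit 0) (nat_lit 0xd1c70c7186),.c (nat_lit 0) (nat_lit 0xd1c7145186),.c (nat_lit 0) (nat_lit 0xd1c7143186),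
    .c (nat_lit 0) (nat_lit 0xd1c71c3186),.c (nat_lit 4) (nat_lit 2),.c (nat_lit 0) (nat_lit 0x71c00c3183),
    .c (nat_lit 0) (nat_lit 0x71c30c3183),.c (nat_lit 0) (nat_lit 0xd347145307),.c (nat_lit 0) (nat_lit 0xd3400c5307),
    .c (nat_lit 0) (nat_lit 0xd3470c5307),.c (nat_lit 0) (nat_lit 0x71c70c3187),.c (nat_lit 0) (nat_lit 0xd34d145307),
    .c (nat_lit 0) (nat_lit 0x71c70c0187),.c (nat_lit 0) (nat_lit 0x71c7003187),.c (nat_lit 0) (nat_lit 0xd34d145307),
    .c (nat_lit 0) (nat_lit 0xd34d0c5307),.c (nat_lit 0) (nat_lit 0x71c00c0187),.c (nat_lit 0) (nat_lit 0x71c00c2187),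
    .c (nat_lit 0) (nat_lit 0x30c0000083),.c (nat_lit 0) (nat_lit 0x71c0003187),.c (nat_lit 0) (nat_lit 0x71c0083187),
    .c (nat_lit 5) (nat_lit 2),.c (nat_lit 0) (nat_lit 0xd34d0c5307),.c (nat_lit 0) (nat_lit 0x71c70c0187),
    .c (nat_lit 0) (nat_lit 0x30c3000083),.c (nat_lit 0) (nat_lit 0x71c70c2187),.c (nat_lit 0) (nat_lit 0x71c7003187),
    .c (nat_lit 0) (nat_lit 0x71c7083187),.c (nat_lit 6) (nat_lit 2),.c (nat_lit 7) (nat_lit 2),
    .c (nat_lit 0) (nat_lit 0x82007),.c (nat_lit 8) (nat_lit 2)]]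

/-- nodes -/
noncomputable def rD8k_37_2 : List RJ :=
  [.s (nat_lit 12) (nat_lit 800) (nat_lit 4) (nat_lit 0x1900000019000000186000001860000017c0000017c00000184000001840000018b0000018b0000018f0000018f00000190000001900000020800000208) (nat_lit 0x780000007800000082000000820000008c0000008c00000084000000840000007d0000007d000000790000007900000078000000780000000000000000)
    (nat_lit 0x11811815610e0fa0e210a10e1130a511711123c12419019010011815810e14e13610c10e0cd11310f1171f80e019019010e10e0d211c0f80b01020b810910914515310e1161860a61581561040d21400fa0fe1021091090fb10910e10e1a81441360e20fa0b00f00f00f80b210310310310314611613417c14e0fa1400f81080f00f80f80ff0fb0fb0e915e10e17a17c10e10e1020b80f80b21040e812110710110b10c11418e12a10c10a0fe1020f80f810010412b10710b10b1081301f218e1130a51091090fb10310710710e10e0ee0ee10911318d18f0cd1131091090ff10312b12110a10e1121121091091911931171111091530e910310b10b1120ee12011a10f11718f19910f1170fb1450fb10310b1011120ee1201201211171831910e012410e11610e11613011410911311711711610e1901861f823c10e10e15e14610810c10910912110f1181161901901901901440a617c17c18e12a19318f1911991901860e42081901901a818617a1341f218e19118d18318f1901902080e4)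
    (nat_lit 0x1183203203203203203203203203203203203203203203201181183203203203203203203203203203203203203203201561580d232032032032032032032032032032032032032010e10e11c0d23203203203203203203203203203203203200fa14e0f81400f03203203203203203203203203203203200e21360b00fa0f00f032032032032032032032032032032010a10c1020fe0f80f810432032032032032032032032032010e10e0b81020b20f80e81043203203203203203203203201130cd1091091030ff12112b10e3203203203203203203200a51131091091030fb10710710e10e32032032032032032011710f1450fb1030fb10110b0ee1121203203203203203201111171531091030e910b10b0ee11211a1203203203203201ae1d610e10e14615e10c10810910910f1211163203203201240e011610e11610e11413011310911711710e1163203201901901861a813417a18e1f218d19118f1831901900e43201901900a614417c17c12a18e18f1931991911861901ea0e4)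
    (nat_lit 5) (nat_lit 79)
    [[nat_lit 0,nat_lit 5],[nat_lit 0,nat_lit 8],[nat_lit 0,nat_lit 9],[nat_lit 0,nat_lit 10,nat_lit 13],[nat_lit 0,
    nat_lit 11,nat_lit 13],[nat_lit 0,nat_lit 13,nat_lit 10],[nat_lit 0,nat_lit 13,nat_lit 11],[nat_lit 1,nat_lit 4],
    [nat_lit 1,nat_lit 8],[nat_lit 1,nat_lit 9],[nat_lit 1,nat_lit 10,nat_lit 12],[nat_lit 1,nat_lit 11,nat_lit 12],
    [nat_lit 1,nat_lit 12,nat_lit 10],[nat_lit 1,nat_lit 12,nat_lit 11],[nat_lit 2,nat_lit 6,nat_lit 10],[nat_lit 2,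
    nat_lit 6,nat_lit 11],[nat_lit 2,nat_lit 7,nat_lit 10],[nat_lit 2,nat_lit 7,nat_lit 11],[nat_lit 2,nat_lit 14],
    [nat_lit 2,nat_lit 15],[nat_lit 3,nat_lit 10,nat_lit 6],[nat_lit 3,nat_lit 10,nat_lit 7],[nat_lit 3,nat_lit 11,
    nat_lit 6],[nat_lit 3,nat_lit 11,nat_lit 7],[nat_lit 3,nat_lit 14],[nat_lit 3,nat_lit 15],[nat_lit 4,nat_lit 6,
    nat_lit 5],[nat_lit 4,nat_lit 6,nat_lit 8],[nat_lit 4,nat_lit 7,nat_lit 5],[nat_lit 4,nat_lit 7,nat_lit 8],
    [nat_lit 4,nat_lit 7,nat_lit 9],[nat_lit 4,nat_lit 8,nat_lit 6],[nat_lit 4,nat_lit 8,nat_lit 7],[nat_lit 4,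
    nat_lit 9,nat_lit 6],[nat_lit 4,nat_lit 9,nat_lit 7],[nat_lit 4,nat_lit 10,nat_lit 6,nat_lit 12],[nat_lit 4,
    nat_lit 10,nat_lit 7,nat_lit 12],[nat_lit 4,nat_lit 10,nat_lit 12,nat_lit 7],[nat_lit 4,nat_lit 10,nat_lit 13,
    nat_lit 7],[nat_lit 4,nat_lit 12,nat_lit 15],[nat_lit 4,nat_lit 13,nat_lit 15],[nat_lit 4,nat_lit 15,nat_lit 12],
    [nat_lit 4,nat_lit 15,nat_lit 13],[nat_lit 5,nat_lit 6,nat_lit 8],[nat_lit 5,nat_lit 6,nat_lit 9],[nat_lit 5,
    nat_lit 6,nat_lit 12,nat_lit 11],[nat_lit 5,nat_lit 6,nat_lit 13,nat_lit 11],[nat_lit 5,nat_lit 7,nat_lit 8],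
    [nat_lit 5,nat_lit 7,nat_lit 9],[nat_lit 5,nat_lit 8,nat_lit 6],[nat_lit 5,nat_lit 9,nat_lit 6],[nat_lit 5,
    nat_lit 9,nat_lit 7],[nat_lit 5,nat_lit 12,nat_lit 14],[nat_lit 5,nat_lit 13,nat_lit 6,nat_lit 11],[nat_lit 5,
    nat_lit 13,nat_lit 7,nat_lit 11],[nat_lit 5,nat_lit 13,nat_lit 14],[nat_lit 5,nat_lit 14,nat_lit 12],[nat_lit 5,
    nat_lit 14,nat_lit 13],[nat_lit 6,nat_lit 8,nat_lit 8],[nat_lit 6,nat_lit 9,nat_lit 8],[nat_lit 7,nat_lit 9,
    nat_lit 8],[nat_lit 7,nat_lit 9,nat_lit 9],[nat_lit 8,nat_lit 12,nat_lit 14],[nat_lit 8,nat_lit 12,nat_lit 15],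
    [nat_lit 8,nat_lit 13,nat_lit 14],[nat_lit 8,nat_lit 13,nat_lit 15],[nat_lit 8,nat_lit 14,nat_lit 12],[nat_lit 8,
    nat_lit 14,nat_lit 13],[nat_lit 8,nat_lit 15,nat_lit 12],[nat_lit 8,nat_lit 15,nat_lit 13],[nat_lit 9,nat_lit 12,
    nat_lit 14],[nat_lit 9,nat_lit 12,nat_lit 15],[nat_lit 9,nat_lit 13,nat_lit 14],[nat_lit 9,nat_lit 13,nat_lit 15],
    [nat_lit 9,nat_lit 14,nat_lit 12],[nat_lit 9,nat_lit 14,nat_lit 13],[nat_lit 9,nat_lit 15,nat_lit 12],[nat_lit 9,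
    nat_lit 15,nat_lit 13]]
    [nat_lit 261,nat_lit 264,nat_lit 265,nat_lit 0x10ad,nat_lit 0x10bd,nat_lit 0x10da,nat_lit 0x10db,nat_lit 276,
    nat_lit 280,nat_lit 281,nat_lit 0x11ac,nat_lit 0x11bc,nat_lit 0x11ca,nat_lit 0x11cb,nat_lit 0x126a,nat_lit 0x126b,
    nat_lit 0x127a,nat_lit 0x127b,nat_lit 302,nat_lit 303,nat_lit 0x13a6,nat_lit 0x13a7,nat_lit 0x13b6,nat_lit 0x13b7,
    nat_lit 318,nat_lit 319,nat_lit 0x1465,nat_lit 0x1468,nat_lit 0x1475,nat_lit 0x1478,nat_lit 0x1479,nat_lit 0x1486,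
    nat_lit 0x1487,nat_lit 0x1496,nat_lit 0x1497,nat_lit 0x14a6c,nat_lit 0x14a7c,nat_lit 0x14ac7,nat_lit 0x14ad7,
    nat_lit 0x14cf,nat_lit 0x14df,nat_lit 0x14fc,nat_lit 0x14fd,nat_lit 0x1568,nat_lit 0x1569,nat_lit 0x156cb,
    nat_lit 0x156db,nat_lit 0x1578,nat_lit 0x1579,nat_lit 0x1586,nat_lit 0x1596,nat_lit 0x1597,nat_lit 0x15ce,
    nat_lit 0x15d6b,nat_lit 0x15d7b,nat_lit 0x15de,nat_lit 0x15ec,nat_lit 0x15ed,nat_lit 0x1688,nat_lit 0x1698,
    nat_lit 0x1798,nat_lit 0x1799,nat_lit 0x18ce,nat_lit 0x18cf,nat_lit 0x18de,nat_lit 0x18df,nat_lit 0x18ec,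
    nat_lit 0x18ed,nat_lit 0x18fc,nat_lit 0x18fd,nat_lit 0x19ce,nat_lit 0x19cf,nat_lit 0x19de,nat_lit 0x19df,
    nat_lit 0x19ec,nat_lit 0x19ed,nat_lit 0x19fc,nat_lit 0x19fd]
    [[[nat_lit 0,nat_lit 5],[nat_lit 0,nat_lit 8],[nat_lit 0,nat_lit 9],[nat_lit 0,nat_lit 10,nat_lit 13],[nat_lit 0,
    nat_lit 11,nat_lit 13],[nat_lit 0,nat_lit 13,nat_lit 10],[nat_lit 0,nat_lit 13,nat_lit 11],[nat_lit 1,nat_lit 4],
    [nat_lit 1,nat_lit 8],[nat_lit 1,nat_lit 9],[nat_lit 1,nat_lit 10,nat_lit 12],[nat_lit 1,nat_lit 11,nat_lit 12]],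
    [[nat_lit 1,nat_lit 12,nat_lit 10],[nat_lit 1,nat_lit 12,nat_lit 11],[nat_lit 2,nat_lit 6,nat_lit 10],[nat_lit 2,
    nat_lit 6,nat_lit 11],[nat_lit 2,nat_lit 7,nat_lit 10],[nat_lit 2,nat_lit 7,nat_lit 11],[nat_lit 2,nat_lit 14],
    [nat_lit 2,nat_lit 15],[nat_lit 3,nat_lit 10,nat_lit 6],[nat_lit 3,nat_lit 10,nat_lit 7],[nat_lit 3,nat_lit 11,
    nat_lit 6],[nat_lit 3,nat_lit 11,nat_lit 7]],[[nat_lit 3,nat_lit 14],[nat_lit 3,nat_lit 15],[nat_lit 4,nat_lit 1],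
    [nat_lit 4,nat_lit 6,nat_lit 5],[nat_lit 4,nat_lit 6,nat_lit 8],[nat_lit 4,nat_lit 7,nat_lit 5],[nat_lit 4,
    nat_lit 7,nat_lit 8],[nat_lit 4,nat_lit 7,nat_lit 9],[nat_lit 4,nat_lit 8,nat_lit 6],[nat_lit 4,nat_lit 8,
    nat_lit 7],[nat_lit 4,nat_lit 9,nat_lit 6],[nat_lit 4,nat_lit 9,nat_lit 7]],[[nat_lit 4,nat_lit 10,nat_lit 6,
    nat_lit 12],[nat_lit 4,nat_lit 10,nat_lit 7,nat_lit 12],[nat_lit 4,nat_lit 10,nat_lit 12,nat_lit 7],[nat_lit 4,
    nat_lit 10,nat_lit 13,nat_lit 7],[nat_lit 4,nat_lit 12,nat_lit 15],[nat_lit 4,nat_lit 13,nat_lit 15],[nat_lit 4,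
    nat_lit 15,nat_lit 12],[nat_lit 4,nat_lit 15,nat_lit 13],[nat_lit 5,nat_lit 0],[nat_lit 5,nat_lit 4,nat_lit 6],
    [nat_lit 5,nat_lit 4,nat_lit 7],[nat_lit 5,nat_lit 6,nat_lit 8]],[[nat_lit 5,nat_lit 6,nat_lit 9],[nat_lit 5,
    nat_lit 6,nat_lit 12,nat_lit 11],[nat_lit 5,nat_lit 6,nat_lit 13,nat_lit 11],[nat_lit 5,nat_lit 7,nat_lit 8],
    [nat_lit 5,nat_lit 7,nat_lit 9],[nat_lit 5,nat_lit 8,nat_lit 6],[nat_lit 5,nat_lit 9,nat_lit 6],[nat_lit 5,
    nat_lit 9,nat_lit 7],[nat_lit 5,nat_lit 12,nat_lit 14],[nat_lit 5,nat_lit 13,nat_lit 6,nat_lit 11],[nat_lit 5,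
    nat_lit 13,nat_lit 7,nat_lit 11],[nat_lit 5,nat_lit 13,nat_lit 14]],[[nat_lit 5,nat_lit 14,nat_lit 12],[nat_lit 5,
    nat_lit 14,nat_lit 13],[nat_lit 6,nat_lit 3,nat_lit 10],[nat_lit 6,nat_lit 3,nat_lit 11],[nat_lit 6,nat_lit 4,
    nat_lit 8],[nat_lit 6,nat_lit 4,nat_lit 9],[nat_lit 6,nat_lit 5,nat_lit 4],[nat_lit 6,nat_lit 5,nat_lit 8],
    [nat_lit 6,nat_lit 5,nat_lit 9],[nat_lit 6,nat_lit 8,nat_lit 4],[nat_lit 6,nat_lit 8,nat_lit 5],[nat_lit 6,
    nat_lit 8,nat_lit 8]],[[nat_lit 6,nat_lit 9,nat_lit 5],[nat_lit 6,nat_lit 9,nat_lit 8],[nat_lit 6,nat_lit 10,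
    nat_lit 2],[nat_lit 6,nat_lit 11,nat_lit 2],[nat_lit 6,nat_lit 11,nat_lit 5,nat_lit 13],[nat_lit 6,nat_lit 12,
    nat_lit 4,nat_lit 10],[nat_lit 6,nat_lit 12,nat_lit 11,nat_lit 5],[nat_lit 6,nat_lit 13,nat_lit 11,nat_lit 5],
    [nat_lit 7,nat_lit 3,nat_lit 10],[nat_lit 7,nat_lit 3,nat_lit 11],[nat_lit 7,nat_lit 4,nat_lit 8],[nat_lit 7,
    nat_lit 4,nat_lit 9]],[[nat_lit 7,nat_lit 4,nat_lit 10,nat_lit 12],[nat_lit 7,nat_lit 4,nat_lit 10,nat_lit 13],
    [nat_lit 7,nat_lit 5,nat_lit 4],[nat_lit 7,nat_lit 5,nat_lit 9],[nat_lit 7,nat_lit 8,nat_lit 4],[nat_lit 7,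
    nat_lit 8,nat_lit 5],[nat_lit 7,nat_lit 9,nat_lit 4],[nat_lit 7,nat_lit 9,nat_lit 5],[nat_lit 7,nat_lit 9,
    nat_lit 8],[nat_lit 7,nat_lit 9,nat_lit 9],[nat_lit 7,nat_lit 10,nat_lit 2],[nat_lit 7,nat_lit 11,nat_lit 2]],
    [[nat_lit 7,nat_lit 11,nat_lit 5,nat_lit 13],[nat_lit 7,nat_lit 12,nat_lit 4,nat_lit 10],[nat_lit 8,nat_lit 0],
    [nat_lit 8,nat_lit 1],[nat_lit 8,nat_lit 4,nat_lit 6],[nat_lit 8,nat_lit 4,nat_lit 7],[nat_lit 8,nat_lit 5,
    nat_lit 6],[nat_lit 8,nat_lit 5,nat_lit 7],[nat_lit 8,nat_lit 6,nat_lit 4],[nat_lit 8,nat_lit 6,nat_lit 5],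
    [nat_lit 8,nat_lit 6,nat_lit 8],[nat_lit 8,nat_lit 6,nat_lit 9]],[[nat_lit 8,nat_lit 7,nat_lit 4],[nat_lit 8,
    nat_lit 7,nat_lit 9],[nat_lit 8,nat_lit 8,nat_lit 6],[nat_lit 8,nat_lit 12,nat_lit 14],[nat_lit 8,nat_lit 12,
    nat_lit 15],[nat_lit 8,nat_lit 13,nat_lit 14],[nat_lit 8,nat_lit 13,nat_lit 15],[nat_lit 8,nat_lit 14,nat_lit 12],
    [nat_lit 8,nat_lit 14,nat_lit 13],[nat_lit 8,nat_lit 15,nat_lit 12],[nat_lit 8,nat_lit 15,nat_lit 13],[nat_lit 9,
    nat_lit 0]],[[nat_lit 9,nat_lit 1],[nat_lit 9,nat_lit 4,nat_lit 7],[nat_lit 9,nat_lit 5,nat_lit 6],[nat_lit 9,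
    nat_lit 5,nat_lit 7],[nat_lit 9,nat_lit 6,nat_lit 4],[nat_lit 9,nat_lit 6,nat_lit 5],[nat_lit 9,nat_lit 7,
    nat_lit 4],[nat_lit 9,nat_lit 7,nat_lit 5],[nat_lit 9,nat_lit 7,nat_lit 9],[nat_lit 9,nat_lit 8,nat_lit 6],
    [nat_lit 9,nat_lit 8,nat_lit 7],[nat_lit 9,nat_lit 9,nat_lit 7]],[[nat_lit 9,nat_lit 12,nat_lit 14],[nat_lit 9,
    nat_lit 12,nat_lit 15],[nat_lit 9,nat_lit 13,nat_lit 14],[nat_lit 9,nat_lit 13,nat_lit 15],[nat_lit 9,nat_lit 14,
    nat_lit 12],[nat_lit 9,nat_lit 14,nat_lit 13],[nat_lit 9,nat_lit 15,nat_lit 12],[nat_lit 9,nat_lit 15,nat_lit 13],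
    [nat_lit 10,nat_lit 0,nat_lit 13],[nat_lit 10,nat_lit 1,nat_lit 12],[nat_lit 10,nat_lit 2,nat_lit 6],[nat_lit 10,
    nat_lit 2,nat_lit 7]],[[nat_lit 10,nat_lit 6,nat_lit 3],[nat_lit 10,nat_lit 6,nat_lit 12,nat_lit 4],[nat_lit 10,
    nat_lit 7,nat_lit 3],[nat_lit 10,nat_lit 7,nat_lit 12,nat_lit 4],[nat_lit 10,nat_lit 12,nat_lit 1],[nat_lit 10,
    nat_lit 12,nat_lit 7,nat_lit 4],[nat_lit 10,nat_lit 13,nat_lit 0],[nat_lit 10,nat_lit 13,nat_lit 7,nat_lit 4],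
    [nat_lit 11,nat_lit 0,nat_lit 13],[nat_lit 11,nat_lit 1,nat_lit 12],[nat_lit 11,nat_lit 2,nat_lit 6],[nat_lit 11,
    nat_lit 2,nat_lit 7]],[[nat_lit 11,nat_lit 5,nat_lit 6,nat_lit 12],[nat_lit 11,nat_lit 5,nat_lit 6,nat_lit 13],
    [nat_lit 11,nat_lit 5,nat_lit 13,nat_lit 6],[nat_lit 11,nat_lit 5,nat_lit 13,nat_lit 7],[nat_lit 11,nat_lit 6,
    nat_lit 3],[nat_lit 11,nat_lit 7,nat_lit 3],[nat_lit 11,nat_lit 12,nat_lit 1],[nat_lit 11,nat_lit 13,nat_lit 0],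
    [nat_lit 12,nat_lit 1,nat_lit 10],[nat_lit 12,nat_lit 1,nat_lit 11],[nat_lit 12,nat_lit 4,nat_lit 10,nat_lit 6],
    [nat_lit 12,nat_lit 4,nat_lit 10,nat_lit 7]],[[nat_lit 12,nat_lit 4,nat_lit 15],[nat_lit 12,nat_lit 5,nat_lit 14],
    [nat_lit 12,nat_lit 7,nat_lit 4,nat_lit 10],[nat_lit 12,nat_lit 8,nat_lit 14],[nat_lit 12,nat_lit 8,nat_lit 15],
    [nat_lit 12,nat_lit 9,nat_lit 14],[nat_lit 12,nat_lit 9,nat_lit 15],[nat_lit 12,nat_lit 10,nat_lit 1],[nat_lit 12,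
    nat_lit 11,nat_lit 1],[nat_lit 12,nat_lit 11,nat_lit 5,nat_lit 6],[nat_lit 12,nat_lit 14,nat_lit 5],[nat_lit 12,
    nat_lit 14,nat_lit 8]],[[nat_lit 12,nat_lit 14,nat_lit 9],[nat_lit 12,nat_lit 15,nat_lit 4],[nat_lit 12,
    nat_lit 15,nat_lit 8],[nat_lit 12,nat_lit 15,nat_lit 9],[nat_lit 13,nat_lit 0,nat_lit 10],[nat_lit 13,nat_lit 0,
    nat_lit 11],[nat_lit 13,nat_lit 4,nat_lit 15],[nat_lit 13,nat_lit 5,nat_lit 14],[nat_lit 13,nat_lit 6,nat_lit 11,
    nat_lit 5],[nat_lit 13,nat_lit 7,nat_lit 4,nat_lit 10],[nat_lit 13,nat_lit 7,nat_lit 11,nat_lit 5],[nat_lit 13,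
    nat_lit 8,nat_lit 14]],[[nat_lit 13,nat_lit 8,nat_lit 15],[nat_lit 13,nat_lit 9,nat_lit 14],[nat_lit 13,nat_lit 9,
    nat_lit 15],[nat_lit 13,nat_lit 10,nat_lit 0],[nat_lit 13,nat_lit 11,nat_lit 0],[nat_lit 13,nat_lit 11,nat_lit 5,
    nat_lit 6],[nat_lit 13,nat_lit 14,nat_lit 5],[nat_lit 13,nat_lit 14,nat_lit 8],[nat_lit 13,nat_lit 14,nat_lit 9],
    [nat_lit 13,nat_lit 15,nat_lit 4],[nat_lit 13,nat_lit 15,nat_lit 8],[nat_lit 13,nat_lit 15,nat_lit 9]],
    [[nat_lit 14,nat_lit 2],[nat_lit 14,nat_lit 3],[nat_lit 14,nat_lit 5,nat_lit 12],[nat_lit 14,nat_lit 5,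
    nat_lit 13],[nat_lit 14,nat_lit 8,nat_lit 12],[nat_lit 14,nat_lit 8,nat_lit 13],[nat_lit 14,nat_lit 9,nat_lit 12],
    [nat_lit 14,nat_lit 9,nat_lit 13],[nat_lit 14,nat_lit 12,nat_lit 5],[nat_lit 14,nat_lit 12,nat_lit 8],[nat_lit 14,
    nat_lit 12,nat_lit 9],[nat_lit 14,nat_lit 13,nat_lit 5]],[[nat_lit 14,nat_lit 13,nat_lit 8],[nat_lit 14,
    nat_lit 13,nat_lit 9],[nat_lit 15,nat_lit 2],[nat_lit 15,nat_lit 3],[nat_lit 15,nat_lit 4,nat_lit 12],[nat_lit 15,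
    nat_lit 4,nat_lit 13],[nat_lit 15,nat_lit 8,nat_lit 12],[nat_lit 15,nat_lit 8,nat_lit 13],[nat_lit 15,nat_lit 9,
    nat_lit 12],[nat_lit 15,nat_lit 9,nat_lit 13],[nat_lit 15,nat_lit 12,nat_lit 4],[nat_lit 15,nat_lit 12,
    nat_lit 8]],[[nat_lit 15,nat_lit 12,nat_lit 9],[nat_lit 15,nat_lit 13,nat_lit 4],[nat_lit 15,nat_lit 13,
    nat_lit 8],[nat_lit 15,nat_lit 13,nat_lit 9]]]
    [[nat_lit 44,nat_lit 98,nat_lit 119,nat_lit 150,nat_lit 163,nat_lit 195,nat_lit 196,nat_lit 26,nat_lit 99,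
    nat_lit 120,nat_lit 148,nat_lit 162],[nat_lit 175,nat_lit 176,nat_lit 74,nat_lit 75,nat_lit 94,nat_lit 95,
    nat_lit 204,nat_lit 218,nat_lit 144,nat_lit 146,nat_lit 160,nat_lit 161],[nat_lit 205,nat_lit 219,nat_lit 7,
    nat_lit 66,nat_lit 69,nat_lit 86,nat_lit 88,nat_lit 90,nat_lit 104,nat_lit 108,nat_lit 124,nat_lit 126],
    [nat_lit 145,nat_lit 147,nat_lit 149,nat_lit 151,nat_lit 181,nat_lit 201,nat_lit 226,nat_lit 229,nat_lit 0,
    nat_lit 27,nat_lit 29,nat_lit 70],[nat_lit 72,nat_lit 78,nat_lit 79,nat_lit 89,nat_lit 91,nat_lit 105,nat_lit 125,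
    nat_lit 127,nat_lit 178,nat_lit 188,nat_lit 190,nat_lit 198],[nat_lit 212,nat_lit 215,nat_lit 20,nat_lit 22,
    nat_lit 32,nat_lit 34,nat_lit 45,nat_lit 53,nat_lit 54,nat_lit 100,nat_lit 102,nat_lit 110],[nat_lit 122,
    nat_lit 129,nat_lit 142,nat_lit 154,nat_lit 158,nat_lit 166,nat_lit 177,nat_lit 197,nat_lit 21,nat_lit 23,
    nat_lit 33,nat_lit 35],[nat_lit 38,nat_lit 39,nat_lit 46,nat_lit 55,nat_lit 101,nat_lit 103,nat_lit 121,
    nat_lit 123,nat_lit 130,nat_lit 131,nat_lit 143,nat_lit 155],[nat_lit 159,nat_lit 167,nat_lit 1,nat_lit 8,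
    nat_lit 28,nat_lit 30,nat_lit 47,nat_lit 51,nat_lit 64,nat_lit 67,nat_lit 71,nat_lit 73],[nat_lit 82,nat_lit 92,
    nat_lit 106,nat_lit 179,nat_lit 182,nat_lit 199,nat_lit 202,nat_lit 213,nat_lit 216,nat_lit 227,nat_lit 230,
    nat_lit 2],[nat_lit 9,nat_lit 31,nat_lit 48,nat_lit 52,nat_lit 65,nat_lit 68,nat_lit 83,nat_lit 87,nat_lit 93,
    nat_lit 107,nat_lit 109,nat_lit 128],[nat_lit 180,nat_lit 183,nat_lit 200,nat_lit 203,nat_lit 214,nat_lit 217,
    nat_lit 228,nat_lit 231,nat_lit 5,nat_lit 12,nat_lit 14,nat_lit 16],[nat_lit 62,nat_lit 77,nat_lit 80,nat_lit 97,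
    nat_lit 164,nat_lit 170,nat_lit 184,nat_lit 189,nat_lit 6,nat_lit 13,nat_lit 15,nat_lit 17],[nat_lit 49,
    nat_lit 50,nat_lit 57,nat_lit 58,nat_lit 63,nat_lit 81,nat_lit 165,nat_lit 185,nat_lit 10,nat_lit 11,nat_lit 36,
    nat_lit 37],[nat_lit 42,nat_lit 60,nat_lit 84,nat_lit 115,nat_lit 117,nat_lit 136,nat_lit 138,nat_lit 141,
    nat_lit 153,nat_lit 156,nat_lit 206,nat_lit 208],[nat_lit 210,nat_lit 220,nat_lit 222,nat_lit 224,nat_lit 3,
    nat_lit 4,nat_lit 43,nat_lit 61,nat_lit 76,nat_lit 85,nat_lit 96,nat_lit 116],[nat_lit 118,nat_lit 137,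
    nat_lit 139,nat_lit 140,nat_lit 152,nat_lit 157,nat_lit 207,nat_lit 209,nat_lit 211,nat_lit 221,nat_lit 223,
    nat_lit 225],[nat_lit 18,nat_lit 24,nat_lit 56,nat_lit 59,nat_lit 111,nat_lit 113,nat_lit 132,nat_lit 134,
    nat_lit 169,nat_lit 171,nat_lit 173,nat_lit 187],[nat_lit 191,nat_lit 193,nat_lit 19,nat_lit 25,nat_lit 40,
    nat_lit 41,nat_lit 112,nat_lit 114,nat_lit 133,nat_lit 135,nat_lit 168,nat_lit 172],[nat_lit 174,nat_lit 186,
    nat_lit 192,nat_lit 194]]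
    [[nat_lit 44,nat_lit 98,nat_lit 119,nat_lit 184,nat_lit 185,nat_lit 140,nat_lit 152,nat_lit 26,nat_lit 99,
    nat_lit 120,nat_lit 164,nat_lit 165],[nat_lit 141,nat_lit 153,nat_lit 142,nat_lit 154,nat_lit 143,nat_lit 155,
    nat_lit 204,nat_lit 218,nat_lit 62,nat_lit 80,nat_lit 63,nat_lit 81],[nat_lit 205,nat_lit 219,nat_lit 7,
    nat_lit 45,nat_lit 100,nat_lit 46,nat_lit 101,nat_lit 121,nat_lit 64,nat_lit 82,nat_lit 65,nat_lit 83],
    [nat_lit 166,nat_lit 167,nat_lit 84,nat_lit 85,nat_lit 220,nat_lit 221,nat_lit 168,nat_lit 186,nat_lit 0,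
    nat_lit 66,nat_lit 86,nat_lit 102],[nat_lit 122,nat_lit 156,nat_lit 157,nat_lit 103,nat_lit 123,nat_lit 67,
    nat_lit 68,nat_lit 87,nat_lit 206,nat_lit 158,nat_lit 159,nat_lit 207],[nat_lit 169,nat_lit 187,nat_lit 144,
    nat_lit 160,nat_lit 104,nat_lit 124,nat_lit 27,nat_lit 105,nat_lit 125,nat_lit 28,nat_lit 47,nat_lit 106],
    [nat_lit 48,nat_lit 107,nat_lit 14,nat_lit 15,nat_lit 188,nat_lit 145,nat_lit 49,nat_lit 50,nat_lit 146,
    nat_lit 161,nat_lit 108,nat_lit 126],[nat_lit 170,nat_lit 189,nat_lit 29,nat_lit 127,nat_lit 30,nat_lit 51,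
    nat_lit 31,nat_lit 52,nat_lit 109,nat_lit 128,nat_lit 16,nat_lit 17],[nat_lit 190,nat_lit 147,nat_lit 1,nat_lit 8,
    nat_lit 69,nat_lit 88,nat_lit 70,nat_lit 89,nat_lit 32,nat_lit 53,nat_lit 110,nat_lit 129],[nat_lit 33,
    nat_lit 130,nat_lit 71,nat_lit 208,nat_lit 222,nat_lit 209,nat_lit 223,nat_lit 171,nat_lit 191,nat_lit 172,
    nat_lit 192,nat_lit 2],[nat_lit 9,nat_lit 90,nat_lit 72,nat_lit 91,nat_lit 34,nat_lit 54,nat_lit 35,nat_lit 55,
    nat_lit 131,nat_lit 73,nat_lit 92,nat_lit 93],[nat_lit 210,nat_lit 224,nat_lit 211,nat_lit 225,nat_lit 173,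
    nat_lit 193,nat_lit 174,nat_lit 194,nat_lit 195,nat_lit 175,nat_lit 74,nat_lit 94],[nat_lit 20,nat_lit 36,
    nat_lit 21,nat_lit 37,nat_lit 10,nat_lit 38,nat_lit 3,nat_lit 39,nat_lit 196,nat_lit 176,nat_lit 75,nat_lit 95],
    [nat_lit 177,nat_lit 197,nat_lit 76,nat_lit 96,nat_lit 22,nat_lit 23,nat_lit 11,nat_lit 4,nat_lit 148,nat_lit 162,
    nat_lit 77,nat_lit 97],[nat_lit 226,nat_lit 212,nat_lit 149,nat_lit 213,nat_lit 227,nat_lit 214,nat_lit 228,
    nat_lit 12,nat_lit 13,nat_lit 78,nat_lit 56,nat_lit 111],[nat_lit 132,nat_lit 40,nat_lit 112,nat_lit 133,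
    nat_lit 150,nat_lit 163,nat_lit 229,nat_lit 215,nat_lit 57,nat_lit 151,nat_lit 58,nat_lit 216],[nat_lit 230,
    nat_lit 217,nat_lit 231,nat_lit 5,nat_lit 6,nat_lit 79,nat_lit 59,nat_lit 113,nat_lit 134,nat_lit 41,nat_lit 114,
    nat_lit 135],[nat_lit 18,nat_lit 24,nat_lit 178,nat_lit 198,nat_lit 179,nat_lit 199,nat_lit 180,nat_lit 200,
    nat_lit 60,nat_lit 115,nat_lit 136,nat_lit 61],[nat_lit 116,nat_lit 137,nat_lit 19,nat_lit 25,nat_lit 181,
    nat_lit 201,nat_lit 182,nat_lit 202,nat_lit 183,nat_lit 203,nat_lit 42,nat_lit 117],[nat_lit 138,nat_lit 43,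
    nat_lit 118,nat_lit 139]]
    [[[nat_lit 205],[],[],[nat_lit 206,nat_lit 208,nat_lit 210],[nat_lit 214,nat_lit 217],[],[],[nat_lit 20,
    nat_lit 22],[],[nat_lit 21,nat_lit 23],[],[]],[[nat_lit 24],[nat_lit 24],[nat_lit 1],[nat_lit 1],[nat_lit 0],
    [nat_lit 0],[],[nat_lit 3,nat_lit 4],[nat_lit 60],[nat_lit 60],[nat_lit 48,nat_lit 52],[nat_lit 48,nat_lit 52]],
    [[nat_lit 44],[nat_lit 61],[nat_lit 19],[],[],[],[],[],[nat_lit 14,nat_lit 16],[nat_lit 14,nat_lit 16],[],[]],[[],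
    [],[],[],[nat_lit 18],[nat_lit 15,nat_lit 17],[],[],[nat_lit 94,nat_lit 95],[],[],[nat_lit 82,nat_lit 92]],
    [[nat_lit 82,nat_lit 92],[nat_lit 82,nat_lit 92],[nat_lit 82,nat_lit 92],[nat_lit 89,nat_lit 91],[nat_lit 89,
    nat_lit 91],[nat_lit 80,nat_lit 97],[],[],[],[nat_lit 81],[nat_lit 81],[nat_lit 81]],[[],[],[nat_lit 26],
    [nat_lit 26],[nat_lit 32,nat_lit 34],[nat_lit 32,nat_lit 34],[],[],[],[],[],[]],[[nat_lit 33,nat_lit 35,
    nat_lit 38,nat_lit 39],[nat_lit 33,nat_lit 35,nat_lit 38,nat_lit 39],[nat_lit 36,nat_lit 37,nat_lit 42],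
    [nat_lit 31],[nat_lit 31],[],[],[],[nat_lit 120],[nat_lit 120],[nat_lit 122,nat_lit 129],[nat_lit 122,
    nat_lit 129]],[[nat_lit 122,nat_lit 129],[nat_lit 122,nat_lit 129],[],[],[],[],[nat_lit 121,nat_lit 123,
    nat_lit 130,nat_lit 131],[nat_lit 121,nat_lit 123,nat_lit 130,nat_lit 131],[nat_lit 121,nat_lit 123,nat_lit 130,
    nat_lit 131],[nat_lit 121,nat_lit 123,nat_lit 130,nat_lit 131],[nat_lit 136,nat_lit 138],[nat_lit 128]],
    [[nat_lit 128],[nat_lit 132,nat_lit 134],[nat_lit 74,nat_lit 75],[],[],[],[],[],[nat_lit 64,nat_lit 67,nat_lit 71,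
    nat_lit 73],[nat_lit 64,nat_lit 67,nat_lit 71,nat_lit 73],[nat_lit 64,nat_lit 67,nat_lit 71,nat_lit 73],
    [nat_lit 64,nat_lit 67,nat_lit 71,nat_lit 73]],[[nat_lit 70,nat_lit 72,nat_lit 78,nat_lit 79],[nat_lit 70,
    nat_lit 72,nat_lit 78,nat_lit 79],[nat_lit 62,nat_lit 77],[],[],[nat_lit 63],[nat_lit 63],[],[],[nat_lit 76],
    [nat_lit 76],[]],[[],[nat_lit 154,nat_lit 158],[nat_lit 160,nat_lit 161],[nat_lit 160,nat_lit 161],[],[],[],[],[],
    [],[],[nat_lit 155,nat_lit 159]],[[],[],[],[],[nat_lit 163],[nat_lit 163],[nat_lit 152,nat_lit 157],[nat_lit 152,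
    nat_lit 157],[],[nat_lit 112,nat_lit 114],[nat_lit 104,nat_lit 108],[nat_lit 104,nat_lit 108]],[[nat_lit 106],
    [nat_lit 106],[nat_lit 105],[nat_lit 105],[nat_lit 111,nat_lit 113],[nat_lit 111,nat_lit 113],[],[],[],
    [nat_lit 186,nat_lit 192,nat_lit 194],[nat_lit 201],[nat_lit 201]],[[],[],[],[],[nat_lit 199,nat_lit 202],
    [nat_lit 188,nat_lit 190,nat_lit 198],[nat_lit 187,nat_lit 191,nat_lit 193],[nat_lit 185],[],[],[nat_lit 142],
    [nat_lit 142]],[[nat_lit 142],[nat_lit 144,nat_lit 146],[],[],[],[nat_lit 143],[nat_lit 143],[nat_lit 141],[],[],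
    [nat_lit 150],[nat_lit 150]],[[nat_lit 150],[nat_lit 140],[nat_lit 140],[nat_lit 140],[nat_lit 218],[nat_lit 218],
    [],[nat_lit 219],[nat_lit 227,nat_lit 230],[],[],[]],[[],[],[],[nat_lit 220,nat_lit 222,nat_lit 224],[nat_lit 228,
    nat_lit 231],[nat_lit 228,nat_lit 231],[],[],[],[nat_lit 221,nat_lit 223,nat_lit 225],[nat_lit 221,nat_lit 223,
    nat_lit 225],[nat_lit 221,nat_lit 223,nat_lit 225]],[[nat_lit 181],[nat_lit 175,nat_lit 176],[],[],[nat_lit 164,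
    nat_lit 170],[nat_lit 164,nat_lit 170],[nat_lit 167],[nat_lit 167],[nat_lit 169,nat_lit 171,nat_lit 173],
    [nat_lit 169,nat_lit 171,nat_lit 173],[nat_lit 169,nat_lit 171,nat_lit 173],[nat_lit 165]],[[nat_lit 165],
    [nat_lit 165],[nat_lit 7],[],[],[],[nat_lit 12],[nat_lit 12],[],[],[],[]],[[],[nat_lit 13],[nat_lit 13],
    [nat_lit 13]]]
    (nat_lit 232) [nat_lit 0,nat_lit 1,nat_lit 2,nat_lit 3,nat_lit 4,nat_lit 5,nat_lit 6,nat_lit 7,nat_lit 8,
    nat_lit 9,nat_lit 10,nat_lit 11,nat_lit 12,nat_lit 13,nat_lit 14,nat_lit 15,nat_lit 16,nat_lit 17,nat_lit 18,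
    nat_lit 19,nat_lit 20,nat_lit 21,nat_lit 22,nat_lit 23,nat_lit 24,nat_lit 25,nat_lit 27,nat_lit 28,nat_lit 29,
    nat_lit 30,nat_lit 31,nat_lit 32,nat_lit 33,nat_lit 34,nat_lit 35,nat_lit 36,nat_lit 37,nat_lit 38,nat_lit 39,
    nat_lit 40,nat_lit 41,nat_lit 42,nat_lit 43,nat_lit 47,nat_lit 48,nat_lit 49,nat_lit 50,nat_lit 51,nat_lit 52,
    nat_lit 53,nat_lit 54,nat_lit 55,nat_lit 56,nat_lit 57,nat_lit 58,nat_lit 59,nat_lit 60,nat_lit 61,nat_lit 71,
    nat_lit 73,nat_lit 92,nat_lit 93,nat_lit 111,nat_lit 112,nat_lit 113,nat_lit 114,nat_lit 115,nat_lit 116,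
    nat_lit 117,nat_lit 118,nat_lit 132,nat_lit 133,nat_lit 134,nat_lit 135,nat_lit 136,nat_lit 137,nat_lit 138,
    nat_lit 139]
    [[[],[],[],[],[],[nat_lit 0],[],[],[nat_lit 1],[nat_lit 2],[nat_lit 5],[nat_lit 6],[],[nat_lit 3,nat_lit 4],[],
    []],[[],[],[],[],[nat_lit 7],[],[],[],[nat_lit 8],[nat_lit 9],[nat_lit 12],[nat_lit 13],[nat_lit 10,nat_lit 11],
    [],[],[]],[[],[],[],[],[],[],[],[],[],[],[nat_lit 14,nat_lit 16],[nat_lit 15,nat_lit 17],[],[],[nat_lit 18],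
    [nat_lit 19]],[[],[],[],[],[],[],[nat_lit 20,nat_lit 22],[nat_lit 21,nat_lit 23],[],[],[],[],[],[],[nat_lit 24],
    [nat_lit 25]],[[],[nat_lit 26],[],[],[],[nat_lit 27,nat_lit 29],[nat_lit 32,nat_lit 34],[nat_lit 33,nat_lit 35,
    nat_lit 38,nat_lit 39],[nat_lit 28,nat_lit 30],[nat_lit 31],[],[],[nat_lit 36,nat_lit 37,nat_lit 42],[nat_lit 43],
    [],[nat_lit 40,nat_lit 41]],[[nat_lit 44],[],[],[],[],[],[nat_lit 45,nat_lit 53,nat_lit 54],[nat_lit 46,
    nat_lit 55],[nat_lit 47,nat_lit 51],[nat_lit 48,nat_lit 52],[],[nat_lit 49,nat_lit 50,nat_lit 57,nat_lit 58],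
    [nat_lit 60],[nat_lit 61],[nat_lit 56,nat_lit 59],[]],[[],[],[nat_lit 74,nat_lit 75],[],[nat_lit 66,nat_lit 69],
    [nat_lit 70,nat_lit 72,nat_lit 78,nat_lit 79],[],[],[nat_lit 64,nat_lit 67,nat_lit 71,nat_lit 73],[nat_lit 65,
    nat_lit 68],[nat_lit 62,nat_lit 77],[nat_lit 63],[],[nat_lit 76],[],[]],[[],[],[nat_lit 94,nat_lit 95],[],
    [nat_lit 86,nat_lit 88,nat_lit 90],[nat_lit 89,nat_lit 91],[],[],[nat_lit 82,nat_lit 92],[nat_lit 83,nat_lit 87,
    nat_lit 93],[nat_lit 80,nat_lit 97],[nat_lit 81],[nat_lit 84],[nat_lit 85,nat_lit 96],[],[]],[[nat_lit 98],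
    [nat_lit 99],[],[],[nat_lit 104,nat_lit 108],[nat_lit 105],[nat_lit 100,nat_lit 102,nat_lit 110],[nat_lit 101,
    nat_lit 103],[nat_lit 106],[nat_lit 107,nat_lit 109],[],[],[nat_lit 115,nat_lit 117],[nat_lit 116,nat_lit 118],
    [nat_lit 111,nat_lit 113],[nat_lit 112,nat_lit 114]],[[nat_lit 119],[nat_lit 120],[],[],[nat_lit 124,nat_lit 126],
    [nat_lit 125,nat_lit 127],[nat_lit 122,nat_lit 129],[nat_lit 121,nat_lit 123,nat_lit 130,nat_lit 131],[],
    [nat_lit 128],[],[],[nat_lit 136,nat_lit 138],[nat_lit 137,nat_lit 139],[nat_lit 132,nat_lit 134],[nat_lit 133,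
    nat_lit 135]],[[nat_lit 150],[nat_lit 148],[],[nat_lit 144,nat_lit 146],[nat_lit 145,nat_lit 147,nat_lit 149,
    nat_lit 151],[],[nat_lit 142],[nat_lit 143],[],[],[],[],[nat_lit 141],[nat_lit 140],[],[]],[[nat_lit 163],
    [nat_lit 162],[],[nat_lit 160,nat_lit 161],[],[],[nat_lit 154,nat_lit 158],[nat_lit 155,nat_lit 159],[],[],[],[],
    [nat_lit 153,nat_lit 156],[nat_lit 152,nat_lit 157],[],[]],[[],[nat_lit 175,nat_lit 176],[],[],[nat_lit 181],
    [nat_lit 178],[nat_lit 166,nat_lit 177],[nat_lit 167],[nat_lit 179,nat_lit 182],[nat_lit 180,nat_lit 183],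
    [nat_lit 164,nat_lit 170],[nat_lit 165],[],[],[nat_lit 169,nat_lit 171,nat_lit 173],[nat_lit 168,nat_lit 172,
    nat_lit 174]],[[nat_lit 195,nat_lit 196],[],[],[],[nat_lit 201],[nat_lit 188,nat_lit 190,nat_lit 198],
    [nat_lit 197],[],[nat_lit 199,nat_lit 202],[nat_lit 200,nat_lit 203],[nat_lit 184,nat_lit 189],[nat_lit 185],[],
    [],[nat_lit 187,nat_lit 191,nat_lit 193],[nat_lit 186,nat_lit 192,nat_lit 194]],[[],[],[nat_lit 204],
    [nat_lit 205],[],[nat_lit 212,nat_lit 215],[],[],[nat_lit 213,nat_lit 216],[nat_lit 214,nat_lit 217],[],[],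
    [nat_lit 206,nat_lit 208,nat_lit 210],[nat_lit 207,nat_lit 209,nat_lit 211],[],[]],[[],[],[nat_lit 218],
    [nat_lit 219],[nat_lit 226,nat_lit 229],[],[],[],[nat_lit 227,nat_lit 230],[nat_lit 228,nat_lit 231],[],[],
    [nat_lit 220,nat_lit 222,nat_lit 224],[nat_lit 221,nat_lit 223,nat_lit 225],[],[]]]
    [[[nat_lit 0x2000000000000000000000000000000000000000000000000000,nat_lit 0,nat_lit 0,
    nat_lit 0x54000000000000000000000000000000000000000000000000000,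
    nat_lit 0x2400000000000000000000000000000000000000000000000000000,nat_lit 0,nat_lit 0,nat_lit 0x500000,nat_lit 0],
    [nat_lit 0xa00000,nat_lit 0,nat_lit 0,nat_lit 0x1000000,nat_lit 0x1000000,nat_lit 2,nat_lit 2,nat_lit 1,
    nat_lit 1],[nat_lit 0,nat_lit 24,nat_lit 0x1000000000000000,nat_lit 0x1000000000000000,nat_lit 0x11000000000000,
    nat_lit 0x11000000000000,nat_lit 0x100000000000,nat_lit 0x2000000000000000,nat_lit 0x80000],[nat_lit 0,nat_lit 0,
    nat_lit 0,nat_lit 0,nat_lit 0,nat_lit 0x14000,nat_lit 0x14000,nat_lit 0,nat_lit 0],[nat_lit 0,nat_lit 0,nat_lit 0,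
    nat_lit 0,nat_lit 0x40000,nat_lit 0x28000,nat_lit 0,nat_lit 0,nat_lit 0xc00000000000000000000000],[nat_lit 0,
    nat_lit 0,nat_lit 0x100400000000000000000000,nat_lit 0x100400000000000000000000,
    nat_lit 0x100400000000000000000000,nat_lit 0x100400000000000000000000,nat_lit 0xa0000000000000000000000,
    nat_lit 0xa0000000000000000000000,nat_lit 0x2000100000000000000000000],[nat_lit 0,nat_lit 0,nat_lit 0,
    nat_lit 0x200000000000000000000,nat_lit 0x200000000000000000000,nat_lit 0x200000000000000000000,nat_lit 0,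
    nat_lit 0,nat_lit 0x4000000],[nat_lit 0x4000000,nat_lit 0x500000000,nat_lit 0x500000000,nat_lit 0,nat_lit 0,
    nat_lit 0,nat_lit 0,nat_lit 0,nat_lit 0],[nat_lit 0xca00000000,nat_lit 0xca00000000,nat_lit 0x43000000000,
    nat_lit 0x80000000,nat_lit 0x80000000,nat_lit 0,nat_lit 0,nat_lit 0,nat_lit 0x1000000000000000000000000000000]],
    [[nat_lit 0x1000000000000000000000000000000,nat_lit 0x204000000000000000000000000000000,
    nat_lit 0x204000000000000000000000000000000,nat_lit 0x204000000000000000000000000000000,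
    nat_lit 0x204000000000000000000000000000000,nat_lit 0,nat_lit 0,nat_lit 0,nat_lit 0],
    [nat_lit 0xc0a000000000000000000000000000000,nat_lit 0xc0a000000000000000000000000000000,
    nat_lit 0xc0a000000000000000000000000000000,nat_lit 0xc0a000000000000000000000000000000,
    nat_lit 0x50000000000000000000000000000000000,nat_lit 0x100000000000000000000000000000000,
    nat_lit 0x100000000000000000000000000000000,nat_lit 0x5000000000000000000000000000000000,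
    nat_lit 0xc000000000000000000],[nat_lit 0,nat_lit 0,nat_lit 0,nat_lit 0,nat_lit 0,nat_lit 0x2890000000000000000,
    nat_lit 0x2890000000000000000,nat_lit 0x2890000000000000000,nat_lit 0x2890000000000000000],
    [nat_lit 0xc1400000000000000000,nat_lit 0xc1400000000000000000,nat_lit 0x20004000000000000000,nat_lit 0,nat_lit 0,
    nat_lit 0x8000000000000000,nat_lit 0x8000000000000000,nat_lit 0,nat_lit 0],[nat_lit 0x10000000000000000000,
    nat_lit 0x10000000000000000000,nat_lit 0,nat_lit 0,nat_lit 0x4400000000000000000000000000000000000000,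
    nat_lit 0x30000000000000000000000000000000000000000,nat_lit 0x30000000000000000000000000000000000000000,nat_lit 0,
    nat_lit 0],[nat_lit 0,nat_lit 0,nat_lit 0,nat_lit 0,nat_lit 0,nat_lit 0x8800000000000000000000000000000000000000,
    nat_lit 0,nat_lit 0,nat_lit 0],[nat_lit 0,nat_lit 0x80000000000000000000000000000000000000000,
    nat_lit 0x80000000000000000000000000000000000000000,nat_lit 0x2100000000000000000000000000000000000000,
    nat_lit 0x2100000000000000000000000000000000000000,nat_lit 0,nat_lit 0x50000000000000000000000000000,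
    nat_lit 0x1100000000000000000000000000,nat_lit 0x1100000000000000000000000000],
    [nat_lit 0x400000000000000000000000000,nat_lit 0x400000000000000000000000000,
    nat_lit 0x200000000000000000000000000,nat_lit 0x200000000000000000000000000,
    nat_lit 0x28000000000000000000000000000,nat_lit 0x28000000000000000000000000000,nat_lit 0,nat_lit 0,nat_lit 0],
    [nat_lit 0x5040000000000000000000000000000000000000000000000,
    nat_lit 0x200000000000000000000000000000000000000000000000000,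
    nat_lit 0x200000000000000000000000000000000000000000000000000,nat_lit 0,nat_lit 0,nat_lit 0,nat_lit 0,
    nat_lit 0x480000000000000000000000000000000000000000000000000,
    nat_lit 0x40500000000000000000000000000000000000000000000000]],
    [[nat_lit 0x2880000000000000000000000000000000000000000000000,
    nat_lit 0x20000000000000000000000000000000000000000000000,nat_lit 0,nat_lit 0,
    nat_lit 0x400000000000000000000000000000000000,nat_lit 0x400000000000000000000000000000000000,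
    nat_lit 0x400000000000000000000000000000000000,nat_lit 0x5000000000000000000000000000000000000,nat_lit 0],
    [nat_lit 0,nat_lit 0,nat_lit 0x800000000000000000000000000000000000,
    nat_lit 0x800000000000000000000000000000000000,nat_lit 0x200000000000000000000000000000000000,nat_lit 0,nat_lit 0,
    nat_lit 0x40000000000000000000000000000000000000,nat_lit 0x40000000000000000000000000000000000000],
    [nat_lit 0x40000000000000000000000000000000000000,nat_lit 0x100000000000000000000000000000000000,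
    nat_lit 0x100000000000000000000000000000000000,nat_lit 0x100000000000000000000000000000000000,
    nat_lit 0x4000000000000000000000000000000000000000000000000000000,
    nat_lit 0x4000000000000000000000000000000000000000000000000000000,nat_lit 0,
    nat_lit 0x8000000000000000000000000000000000000000000000000000000,
    nat_lit 0x4800000000000000000000000000000000000000000000000000000000],[nat_lit 0,nat_lit 0,nat_lit 0,nat_lit 0,
    nat_lit 0,nat_lit 0,nat_lit 0x150000000000000000000000000000000000000000000000000000000,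
    nat_lit 0x9000000000000000000000000000000000000000000000000000000000,
    nat_lit 0x9000000000000000000000000000000000000000000000000000000000],[nat_lit 0,nat_lit 0,nat_lit 0,
    nat_lit 0x2a0000000000000000000000000000000000000000000000000000000,
    nat_lit 0x2a0000000000000000000000000000000000000000000000000000000,
    nat_lit 0x2a0000000000000000000000000000000000000000000000000000000,
    nat_lit 0x2000000000000000000000000000000000000000000000,nat_lit 0x180000000000000000000000000000000000000000000,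
    nat_lit 0],[nat_lit 0,nat_lit 0x4100000000000000000000000000000000000000000,
    nat_lit 0x4100000000000000000000000000000000000000000,nat_lit 0x800000000000000000000000000000000000000000,
    nat_lit 0x800000000000000000000000000000000000000000,nat_lit 0x2a000000000000000000000000000000000000000000,
    nat_lit 0x2a000000000000000000000000000000000000000000,nat_lit 0x2a000000000000000000000000000000000000000000,
    nat_lit 0x200000000000000000000000000000000000000000],[nat_lit 0x200000000000000000000000000000000000000000,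
    nat_lit 0x200000000000000000000000000000000000000000,nat_lit 128,nat_lit 0,nat_lit 0,nat_lit 0,nat_lit 0x1000,
    nat_lit 0x1000,nat_lit 0],[nat_lit 0,nat_lit 0,nat_lit 0,nat_lit 0,nat_lit 0x2000,nat_lit 0x2000,nat_lit 0x2000]]]
    []
    (nat_lit 0) (nat_lit 2) (nat_lit 2)
    [[nat_lit 2,nat_lit 3,nat_lit 17,nat_lit 0x100001,nat_lit 0x1000001],[nat_lit 32,nat_lit 0x10000020,nat_lit 272,
    nat_lit 0x1110,nat_lit 0x10000110,nat_lit 0x1010,nat_lit 0x10001010,nat_lit 0x10010,nat_lit 0x11010,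
    nat_lit 0x110010,nat_lit 0x1010010,nat_lit 0x10010010,nat_lit 0x100010,nat_lit 0x1100010,nat_lit 0x1000010,
    nat_lit 0x2000010,nat_lit 0x11000010],[nat_lit 512,nat_lit 0x100200,nat_lit 0x1100,nat_lit 0x2100,
    nat_lit 0x101100,nat_lit 0x1001100,nat_lit 0x10001100,nat_lit 0x10100,nat_lit 0x20100,nat_lit 0x110100,
    nat_lit 0x1010100,nat_lit 0x10010100,nat_lit 0x100100,nat_lit 0x200100,nat_lit 0x1100100,nat_lit 0x10100100,
    nat_lit 0x1000100,nat_lit 0x10000100],[nat_lit 0x2000,nat_lit 0x102000,nat_lit 0x10002000,nat_lit 0x12000,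
    nat_lit 0x1002000,nat_lit 0x11000,nat_lit 0x111000,nat_lit 0x10011000,nat_lit 0x1011000,nat_lit 0x101000,
    nat_lit 0x201000,nat_lit 0x1101000,nat_lit 0x10101000,nat_lit 0x1001000,nat_lit 0x2001000,nat_lit 0x11001000,
    nat_lit 0x10001000,nat_lit 0x20001000,nat_lit 0x20002000],[nat_lit 0x20000,nat_lit 0x30000,nat_lit 0x120000,
    nat_lit 0x1020000,nat_lit 0x10020000,nat_lit 0x110000,nat_lit 0x210000,nat_lit 0x1110000,nat_lit 0x10110000,
    nat_lit 0x1010000,nat_lit 0x2010000,nat_lit 0x10010000,nat_lit 0x20010000],[nat_lit 0x200000,nat_lit 0x300000,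
    nat_lit 0x1200000,nat_lit 0x1100000,nat_lit 0x2100000,nat_lit 0x10100000,nat_lit 0x11100000,nat_lit 0x20100000],
    [nat_lit 0x2000000,nat_lit 0x3000000,nat_lit 0x11000000],[nat_lit 0x20000000]]
    [.c (nat_lit 1) (nat_lit 2),.c (nat_lit 0) (nat_lit 0xc068004),.c (nat_lit 0) (nat_lit 0x18c02),
    .c (nat_lit 0) (nat_lit 0xc6300c43),.c (nat_lit 0) (nat_lit 0xc6300c43),.c (nat_lit 2) (nat_lit 2),
    .c (nat_lit 0) (nat_lit 0xc02),.r (nat_lit 0xdb3) (nat_lit 5) [nat_lit 65,nat_lit 0x1000000001],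
    .c (nat_lit 0) (nat_lit 0x6300c02),.c (nat_lit 0) (nat_lit 0x318c02),.c (nat_lit 0) (nat_lit 0xc0318043),
    .c (nat_lit 1) (nat_lit 0x6020c02),.r (nat_lit 0xdb3) (nat_lit 5) [nat_lit 0x1804000041,nat_lit 0x1000000001],
    .c (nat_lit 0) (nat_lit 0xc6000c02),.r (nat_lit 0xdb7) (nat_lit 11) [nat_lit 0x1000200001,nat_lit 0x6300861],
    .c (nat_lit 2) (nat_lit 0xc0000802),.c (nat_lit 0) (nat_lit 0xc0018c02),.c (nat_lit 1) (nat_lit 0xc6310043),
    .r (nat_lit 0xdb3) (nat_lit 5) [nat_lit 0x1088210c41,nat_lit 0x1000000001],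
    .r (nat_lit 0x165b) (nat_lit 13) [nat_lit 0x10061,nat_lit 65],.r (nat_lit 0x653) (nat_lit 0) [nat_lit 0x20001,
    nat_lit 0x420041,nat_lit 0x8028061,nat_lit 0x100040081,nat_lit 0x2000028061,nat_lit 0x294a5490a1],
    .c (nat_lit 0) (nat_lit 0xc02),.c (nat_lit 3) (nat_lit 2),.r (nat_lit 0x1492) (nat_lit 11) [nat_lit 0x10001,
    nat_lit 0x1884318861,nat_lit 0x18ce318841,nat_lit 0x18c4618861,nat_lit 0x108c210c41,nat_lit 0x5086210c41],
    .c (nat_lit 0) (nat_lit 0x4400003),.r (nat_lit 0xdb7) (nat_lit 11) [nat_lit 0x1000200001,nat_lit 0xc6000041],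
    .c (nat_lit 0) (nat_lit 0xc0018c43),.c (nat_lit 0) (nat_lit 0xc0018c43),
    .r (nat_lit 0xdb3) (nat_lit 5) [nat_lit 0x88010061,nat_lit 0x1000000001],.c (nat_lit 1) (nat_lit 0x80220003),
    .r (nat_lit 0xdb7) (nat_lit 11) [nat_lit 0x1000200001,nat_lit 0x2084000061],
    .r (nat_lit 0x1492) (nat_lit 11) [nat_lit 0x10001,nat_lit 0x80318861,nat_lit 0x28ca318841,nat_lit 0xc0618861,
    nat_lit 0x90210c41,nat_lit 0x4080210c41],.r (nat_lit 0xdb3) (nat_lit 5) [nat_lit 0x1800010041,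
    nat_lit 0x1000000001],.c (nat_lit 0) (nat_lit 0x146518c42),.c (nat_lit 0) (nat_lit 0xc0018c43),
    .r (nat_lit 0x654) (nat_lit 14) [nat_lit 0x18ce300881,nat_lit 0x4200061,nat_lit 0x108c210ca1,nat_lit 0x18ca318841,
    nat_lit 0x1006000041,nat_lit 0x880000a1],.c (nat_lit 1) (nat_lit 0xc6010c43),
    .r (nat_lit 0xdc3) (nat_lit 11) [nat_lit 0x1000200001,nat_lit 65],.c (nat_lit 0) (nat_lit 0x200c03),
    .c (nat_lit 0) (nat_lit 0x200003),.c (nat_lit 4) (nat_lit 2),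
    .r (nat_lit 0xdbe) (nat_lit 13) [nat_lit 0x1004210c41,nat_lit 0x1000200001],
    .r (nat_lit 0x655) (nat_lit 9) [nat_lit 0x4100010061,nat_lit 0x1804000001,nat_lit 0x2080000001,
    nat_lit 0x79c6318841,nat_lit 0x5100000061,nat_lit 0x4940000041],
    .r (nat_lit 0xdb7) (nat_lit 11) [nat_lit 0x1000200001,nat_lit 0x18c0000041],
    .r (nat_lit 0x656) (nat_lit 14) [nat_lit 0x5940010041,nat_lit 0x1000200001,nat_lit 0x5100000061,
    nat_lit 0x4940000041,nat_lit 0x2086318861,nat_lit 0x2080000001],.c (nat_lit 0) (nat_lit 0x104000005),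
    .c (nat_lit 0) (nat_lit 0x318c43),.r (nat_lit 0xdb3) (nat_lit 5) [nat_lit 0x1084010061,nat_lit 0x1000000001],
    .c (nat_lit 0) (nat_lit 0x318c43),.c (nat_lit 0) (nat_lit 0x146529485),.c (nat_lit 0) (nat_lit 0x146529483),
    .c (nat_lit 0) (nat_lit 0x146529485),.c (nat_lit 2) (nat_lit 0xc0318843),.c (nat_lit 0) (nat_lit 0x1c6739cc5),
    .c (nat_lit 0) (nat_lit 0x146529483),.r (nat_lit 0xdb7) (nat_lit 11) [nat_lit 0x1000200001,nat_lit 65],
    .r (nat_lit 0xdbe) (nat_lit 13) [nat_lit 65,nat_lit 0x1000200001],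
    .r (nat_lit 0xdb3) (nat_lit 5) [nat_lit 0x88020062,nat_lit 0x1000000001],
    .r (nat_lit 0x657) (nat_lit 9) [nat_lit 0x4100020062,nat_lit 0x1804000001,nat_lit 0x2080000001,
    nat_lit 0xaa4a529042,nat_lit 0x6100000062,nat_lit 0x4940000042],.c (nat_lit 5) (nat_lit 2),
    .r (nat_lit 0xdb7) (nat_lit 11) [nat_lit 0x1000200001,nat_lit 0x3080000061],
    .r (nat_lit 0x1492) (nat_lit 11) [nat_lit 0x10001,nat_lit 0x1086318861,nat_lit 0x38c6318841,nat_lit 0x10c6618861,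
    nat_lit 0x1894210c41,nat_lit 0x3084210c41],.r (nat_lit 0xdb3) (nat_lit 5) [nat_lit 0x2804010041,
    nat_lit 0x1000000001],.c (nat_lit 0) (nat_lit 0x1c6318c42),.c (nat_lit 0) (nat_lit 0x318c43),
    .r (nat_lit 0x654) (nat_lit 14) [nat_lit 0x38c6300881,nat_lit 0x1000200061,nat_lit 0x3084210ca1,
    nat_lit 0x28c6318841,nat_lit 65,nat_lit 0x20800000a1],.c (nat_lit 1) (nat_lit 0x6310c43),
    .r (nat_lit 0xdc3) (nat_lit 11) [nat_lit 0x1000200001,nat_lit 0x1804000041],.c (nat_lit 0) (nat_lit 0x80000c03),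
    .r (nat_lit 0x165b) (nat_lit 13) [nat_lit 0x1000000061,nat_lit 0x1800010041],.c (nat_lit 0) (nat_lit 0x80000003),
    .r (nat_lit 0x165b) (nat_lit 13) [nat_lit 0x1800000041,nat_lit 0x1000010061],.c (nat_lit 6) (nat_lit 2),
    .r (nat_lit 931) (nat_lit 8) [nat_lit 65,nat_lit 0x3000600001,nat_lit 0x180d00001,nat_lit 0xc600001,
    nat_lit 0x39ce601861,nat_lit 0x318c731c41],.c (nat_lit 0) (nat_lit 0x146529483),
    .c (nat_lit 0) (nat_lit 0xc6318c45),.c (nat_lit 0) (nat_lit 0xc6319443),.c (nat_lit 0) (nat_lit 0xc6318c43),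
    .c (nat_lit 0) (nat_lit 0xc6318c43),.r (nat_lit 0x653) (nat_lit 0) [nat_lit 0x20001,nat_lit 0x18c6220861,
    nat_lit 0x108c228c41,nat_lit 0x280a5410a1,nat_lit 0x3084228c41,nat_lit 0x48081],.c (nat_lit 7) (nat_lit 2),
    .r (nat_lit 0x590) (nat_lit 10) [nat_lit 0x3000000061,nat_lit 0x180000081,nat_lit 0xc000061,nat_lit 0x30001,
    nat_lit 0x600041,nat_lit 65],.c (nat_lit 0) (nat_lit 0x18003),.c (nat_lit 8) (nat_lit 2)]]

/-- nodes -/
noncomputable def rD8k_37_3 : List RJ :=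
  [.l (nat_lit 11) (nat_lit 480) (nat_lit 3) (nat_lit 0xd1000000d1000000cd000000cd000000f2000000f2000000d9000000d9000000ce000000ce000000cb000000cb000000c8000000c8000000cd000000cd) (nat_lit 0x2100000021000000250000002500000000000000000000001900000019000000240000002400000027000000270000002a0000002a0000002500000025)
    (nat_lit 0x1602c0560a020e3845d0b814a29c5508c13e274560b41582c0570ac1fe364570b815a2cc520aa14e29c5c0a8158280500ac19a32c570861522cc530a614e2a4540a815c2b0560a01823345d0b411a2a4540b41362644c0a81b2384668cb1e43b86c8e51803206a8e7190318668d51fe41c608cd1e43c8468d919c33865855190320668cd1702e05a0861b2394600c0256404590b215e2bc3f0b415c2e85d0ae11a364600c01be2d4530b21922fc5d0b216629c548b319c3205a9011542a84b87d14c2c05388f15a294468a919c3006f92b1542a8518a7148248638b31542305a0a60aa39c590b214e1f45b0a412e294570a61482a8540a6196354530b214625c520b61562845809c14e2744c8a91903185f8af1242c0508a51502785189914e27c4d8a7190320648af1482985589713c2a04d8a31502d0540a819a354590b416623c4e0a6146264580a81702b04c0a819a3345d07e18e29c580ae13628c540b0)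
    (nat_lit 0x160780f01e03c0780f01e03c0780f01e03c0780f01e01602c0f01e03c0780f01e03c0780f01e03c0780f01e01582b8501e03c0780f01e03c0780f01e03c0780f01e01402b0560a03c0780f01e03c0780f01e03c0780f01e020e3fc668c11e4780f01e03c0780f01e03c0780f01e01c2364658cd1dc3c8f01e03c0780f01e03c0780f01e01742b8570ba1b2234601e03c0780f01e03c0780f01e01702e0430b41ca364600c03c0780f01e03c0780f01e014a2b45488d180338898df154780f01e03c0780f01e014e2cc598a9190338808b51542a8f01e03c0780f01e0154290530a81aa32c590a612e28c5b1e03c0780f01e01182a8530b41ce154590b20fa29c520b63c0780f01e013e29c5389b190320578c914c2904b8ab150780f01e013a29c5489918c320578bf160248528a113c2a0f01e01582e05409819a3343f0ba14e31c570b014626c581e01682a0540a81aa3345a0b211e2cc5309c13228c540b0)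
    (nat_lit 4) (nat_lit 49)
    [[nat_lit 2,nat_lit 17,nat_lit 33,nat_lit 273,nat_lit 0x1011,nat_lit 0x1000011,nat_lit 257,nat_lit 0x100101,
    nat_lit 0x1001,nat_lit 0x1001001,nat_lit 0x10001,nat_lit 0x10101,nat_lit 0x1010001,nat_lit 0x100001,
    nat_lit 0x1000001,nat_lit 0x1000101,nat_lit 0x10000001],[nat_lit 32,nat_lit 272,nat_lit 0x1110,nat_lit 0x1000110,
    nat_lit 0x10000110,nat_lit 0x100110,nat_lit 0x1010,nat_lit 0x1001010,nat_lit 0x10010,nat_lit 0x100010,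
    nat_lit 0x1000010,nat_lit 0x10000010],[nat_lit 512,nat_lit 0x1200,nat_lit 0x10000200,nat_lit 0x1100,
    nat_lit 0x2100,nat_lit 0x101100,nat_lit 0x1001100,nat_lit 0x10001100,nat_lit 0x10100,nat_lit 0x100100,
    nat_lit 0x1000100,nat_lit 0x1100100,nat_lit 0x10000100,nat_lit 0x10100100],[nat_lit 0x2000,nat_lit 0x101000,
    nat_lit 0x1001000,nat_lit 0x1011000,nat_lit 0x10001000],[nat_lit 0x20000,nat_lit 0x110000,nat_lit 0x1010000,
    nat_lit 0x10010000],[nat_lit 0x1100000],[nat_lit 0x2000000,nat_lit 0x11000000],[nat_lit 0x20000000]]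
    [.c (nat_lit 1) (nat_lit 2),.c (nat_lit 0) (nat_lit 0x55345),.r (nat_lit 0x15d9) (nat_lit 14) [nat_lit 0x2001,
    nat_lit 0x200001,nat_lit 33,nat_lit 0x2040051,nat_lit 0x3000041],.c (nat_lit 0) (nat_lit 0x33023),
    .r (nat_lit 0xdb2) (nat_lit 3) [nat_lit 0x20001,nat_lit 0x2503452],.c (nat_lit 0) (nat_lit 0x33023),
    .c (nat_lit 0) (nat_lit 0x33023),.r (nat_lit 0xdb3) (nat_lit 1) [nat_lit 0x20001,nat_lit 0x30231],
    .c (nat_lit 0) (nat_lit 0x204205),.r (nat_lit 0xdb2) (nat_lit 1) [nat_lit 0x20001,nat_lit 0x2503452],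
    .r (nat_lit 0x161e) (nat_lit 3) [nat_lit 0x20031,nat_lit 33],.c (nat_lit 4) (nat_lit 0x208205),
    .r (nat_lit 0xdb4) (nat_lit 10) [nat_lit 0x200001,nat_lit 0x300231],
    .r (nat_lit 0x165b) (nat_lit 4) [nat_lit 0x200031,nat_lit 33],.c (nat_lit 0) (nat_lit 0x55345),
    .c (nat_lit 0) (nat_lit 0x33023),.r (nat_lit 0xdbb) (nat_lit 13) [nat_lit 33,nat_lit 0x3002042],
    .c (nat_lit 2) (nat_lit 2),.c (nat_lit 0) (nat_lit 0x33023),.r (nat_lit 0xdb4) (nat_lit 10) [nat_lit 0x200001,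
    nat_lit 33],.c (nat_lit 0) (nat_lit 0x33023),.r (nat_lit 0x15da) (nat_lit 7) [nat_lit 0x20001,nat_lit 0x202001,
    nat_lit 0x200001,nat_lit 0x703041,nat_lit 0x2300001],.r (nat_lit 0xdb2) (nat_lit 3) [nat_lit 0x20001,
    nat_lit 0x30231],.r (nat_lit 0xdc0) (nat_lit 13) [nat_lit 33,nat_lit 0x200001],.c (nat_lit 4) (nat_lit 0x248254),
    .c (nat_lit 0) (nat_lit 0x355345),.r (nat_lit 0x1658) (nat_lit 6) [nat_lit 0x20001,nat_lit 33,nat_lit 0x3593402],
    .c (nat_lit 0) (nat_lit 0x55345),.r (nat_lit 0xdbb) (nat_lit 1) [nat_lit 0x20001,nat_lit 33],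
    .c (nat_lit 3) (nat_lit 2),.r (nat_lit 0xdb3) (nat_lit 1) [nat_lit 0x20001,nat_lit 0x3597442],
    .c (nat_lit 6) (nat_lit 0x40203),.c (nat_lit 0) (nat_lit 0x204205),
    .r (nat_lit 0x161e) (nat_lit 3) [nat_lit 0x3053042,nat_lit 0x2082052],
    .r (nat_lit 0xdbb) (nat_lit 13) [nat_lit 0x2442052,nat_lit 0x222031],
    .r (nat_lit 0x1512) (nat_lit 3) [nat_lit 0x200001,nat_lit 0x220321,nat_lit 0x300231],
    .r (nat_lit 0x165b) (nat_lit 4) [nat_lit 0x3053042,nat_lit 0x2442052],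
    .r (nat_lit 0xdbb) (nat_lit 13) [nat_lit 0x2003042,nat_lit 33],.c (nat_lit 0) (nat_lit 0x20203),
    .c (nat_lit 0) (nat_lit 0x33023),.r (nat_lit 0xdb2) (nat_lit 1) [nat_lit 0x20001,nat_lit 0x30231],
    .r (nat_lit 0xdc2) (nat_lit 13) [nat_lit 33,nat_lit 0x3553402],.c (nat_lit 0) (nat_lit 0x30002),
    .c (nat_lit 4) (nat_lit 2),.r (nat_lit 0x165b) (nat_lit 10) [nat_lit 0x30021,nat_lit 0x220031],
    .r (nat_lit 0x15d8) (nat_lit 3) [nat_lit 0x200001,nat_lit 0x220321,nat_lit 0x300231],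
    .c (nat_lit 0) (nat_lit 0x3002),.r (nat_lit 0xdb3) (nat_lit 1) [nat_lit 0x20001,nat_lit 0x3593442],
    .c (nat_lit 5) (nat_lit 2),.r (nat_lit 0xdb3) (nat_lit 1) [nat_lit 0x20001,nat_lit 0x3053452],
    .c (nat_lit 0) (nat_lit 0x355345),.r (nat_lit 0x165b) (nat_lit 10) [nat_lit 0x200031,nat_lit 33],
    .r (nat_lit 0xdb3) (nat_lit 10) [nat_lit 33,nat_lit 0x2042002],.c (nat_lit 7) (nat_lit 2),
    .r (nat_lit 0xdb9) (nat_lit 3) [nat_lit 33,nat_lit 0x20001],.c (nat_lit 8) (nat_lit 2)],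
    .l (nat_lit 10) (nat_lit 240) (nat_lit 3) (nat_lit 0x6a0000006a000000690000006900000067000000670000006700000067000000660000006600000068000000680000006c0000006c0000007c0000007c) (nat_lit 0x12000000120000001300000013000000150000001500000015000000150000001600000016000000140000001400000010000000100000000000000000)
    (nat_lit 0x1805811c5f154551244b150541803a1685a1a86a1706015c5715455154551585415854178501886a15c5f1585215054150541545317c53164591846515c4715856150541505414c5317c551045d1a469154551505414852148521445113c5315c4d1dc7f154551505414852148521445113c5115c491c4791544b15054148521485214c51184531145b19c6715449150541485214852144511845313c5b19c651505414c5314451144511405013852160481c86e1585414c5514451144531405013852160522087e1503a154531445314c5314852160541005c1a0661586017c5f13c4f184611384e15058198581a0681405a174591244d16c5b148481605c1705c1885e1785a1045915c5713c4516058198401705c1b06c1a86a1a4651e47f194671f86e1a0661b05e1f07c1886a1a4611c47719c67208721a0681b0621f07c)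
    (nat_lit 0x180f03c0f03c0f03c0f03c0f03c0f03c0f03c0f0160603c0f03c0f03c0f03c0f03c0f03c0f03c0f011c57158f03c0f03c0f03c0f03c0f03c0f03c0f017c57148563c0f03c0f03c0f03c0f03c0f03c0f01545515054148f03c0f03c0f03c0f03c0f03c0f01545515054148523c0f03c0f03c0f03c0f03c0f0124551505414852148f03c0f03c0f03c0f03c0f012c551505414852148523c0f03c0f03c0f03c0f015056154531445114c51140f03c0f03c0f03c0f01505414c531445114451140503c0f03c0f03c0f01805617c5f13c4f184611384e160f03c0f03c0f00e85414c5514c5114c5314852150583c0f03c0f01685e1644115c571144f1605810066170f03c0f0168501645d1344916c5b12052170581705c3c0f01a862184691dc7119c671c8821a0681886c1f0f01a86a194691fc7919c651b87e198681786c1f07c)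
    (nat_lit 4) (nat_lit 43)
    [[nat_lit 17,nat_lit 257,nat_lit 0x10001,nat_lit 0x1000001,nat_lit 0x10000001],[nat_lit 32,nat_lit 272,
    nat_lit 0x1110,nat_lit 0x100110,nat_lit 0x1010,nat_lit 0x10010,nat_lit 0x11010,nat_lit 0x110010,
    nat_lit 0x10010010,nat_lit 0x100010,nat_lit 0x1000010,nat_lit 0x1000110,nat_lit 0x1001010,nat_lit 0x1100010,
    nat_lit 0x10000010],[nat_lit 512,nat_lit 0x10000200,nat_lit 0x1100,nat_lit 0x10001100,nat_lit 0x10100,
    nat_lit 0x100100,nat_lit 0x10100100,nat_lit 0x1000100,nat_lit 0x10000100],[nat_lit 0x2000,nat_lit 0x11000,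
    nat_lit 0x101000,nat_lit 0x1001000,nat_lit 0x10001000],[nat_lit 0x20000,nat_lit 0x110000,nat_lit 0x1010000,
    nat_lit 0x10010000],[nat_lit 0x200000,nat_lit 0x1100000,nat_lit 0x10100000],[nat_lit 0x2000000,
    nat_lit 0x11000000],[nat_lit 0x20000000]]
    [.r (nat_lit 0xdb2) (nat_lit 11) [nat_lit 33,nat_lit 0x432492],.r (nat_lit 0xdb2) (nat_lit 11) [nat_lit 0x32042,
    nat_lit 0x423492],.r (nat_lit 0xdb7) (nat_lit 11) [nat_lit 33,nat_lit 0x2000001],
    .r (nat_lit 0x165b) (nat_lit 8) [nat_lit 0x4022542,nat_lit 0x5033402],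
    .r (nat_lit 0x1617) (nat_lit 13) [nat_lit 0x4022542,nat_lit 0x5033402,nat_lit 0x22002],.c (nat_lit 2) (nat_lit 2),
    .c (nat_lit 2) (nat_lit 0x3204),.r (nat_lit 0xdb7) (nat_lit 11) [nat_lit 0x4422052,nat_lit 0x2000001],
    .r (nat_lit 0xdb7) (nat_lit 11) [nat_lit 0x3000231,nat_lit 0x2000001],
    .r (nat_lit 0xdb2) (nat_lit 14) [nat_lit 0x23042,nat_lit 0x5533402],.c (nat_lit 0) (nat_lit 515),
    .r (nat_lit 0xdb2) (nat_lit 11) [nat_lit 0x2202031,nat_lit 0x9537482],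
    .r (nat_lit 0xdb2) (nat_lit 11) [nat_lit 0x5032452,nat_lit 0x8423582],
    .r (nat_lit 0xdc2) (nat_lit 10) [nat_lit 0x5033402,nat_lit 0x23042],
    .r (nat_lit 0xdb2) (nat_lit 14) [nat_lit 0x4220321,nat_lit 0x5533402],
    .r (nat_lit 0xdba) (nat_lit 10) [nat_lit 0x5033402,nat_lit 33],.r (nat_lit 0xdb5) (nat_lit 10) [nat_lit 0x5033402,
    nat_lit 33],.r (nat_lit 0xdc2) (nat_lit 10) [nat_lit 0x5033402,nat_lit 0x4022052],
    .r (nat_lit 0xdc2) (nat_lit 10) [nat_lit 0x5033402,nat_lit 0x3300231],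
    .r (nat_lit 0xdba) (nat_lit 13) [nat_lit 0x23042,nat_lit 0x2200001],.c (nat_lit 3) (nat_lit 2),
    .r (nat_lit 0xd8a) (nat_lit 11) [nat_lit 33,nat_lit 0x2001,nat_lit 0x5033402,nat_lit 0x2200001,nat_lit 0x5523452],
    .r (nat_lit 0xdb2) (nat_lit 14) [nat_lit 33,nat_lit 0x5533402],.r (nat_lit 0xdc2) (nat_lit 11) [nat_lit 0x2200001,
    nat_lit 0x9533442],.c (nat_lit 0) (nat_lit 0x2003),.r (nat_lit 0xdb2) (nat_lit 14) [nat_lit 0x8422542,
    nat_lit 0x5533402],.r (nat_lit 0xdc2) (nat_lit 11) [nat_lit 0x2200001,nat_lit 33],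
    .r (nat_lit 0xdba) (nat_lit 10) [nat_lit 0x5033402,nat_lit 0x32042],.r (nat_lit 0xdba) (nat_lit 13) [nat_lit 33,
    nat_lit 0x2200001],.c (nat_lit 4) (nat_lit 2),.r (nat_lit 0xdb2) (nat_lit 2) [nat_lit 0x9533442,
    nat_lit 0x4422052],.c (nat_lit 1) (nat_lit 0x43345),.c (nat_lit 0) (nat_lit 0x200003),
    .c (nat_lit 0) (nat_lit 0x200003),.c (nat_lit 5) (nat_lit 2),.r (nat_lit 0xdb2) (nat_lit 2) [nat_lit 33,
    nat_lit 0x3000231],.r (nat_lit 0x15b9) (nat_lit 10) [nat_lit 0x9533402,nat_lit 33,nat_lit 0x2200001],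
    .r (nat_lit 0xdba) (nat_lit 6) [nat_lit 33,nat_lit 0x5033402],.c (nat_lit 6) (nat_lit 2),
    .c (nat_lit 0) (nat_lit 0x553345),.c (nat_lit 0) (nat_lit 0x553345),.c (nat_lit 7) (nat_lit 2),
    .c (nat_lit 0) (nat_lit 0x30003),.c (nat_lit 8) (nat_lit 2)],
    .l (nat_lit 15) (nat_lit 0x13b0) (nat_lit 3) (nat_lit 0x8d1000008d1000008c7000008c7000008e6000008e6000008c60000089e000008f1000008f100000979000009b900000ae800000a2c000008db000008db) (nat_lit 0x21700000217000002210000022100000202000002020000024a00000222000001f7000001f70000012f0000016f000000bc000000000000020d0000020d)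
    (nat_lit 0xe1c1b9035806b00d9e1d3431986d90e841b102760820102a219c362069a0d481c3833806b00d9e1aec34386af0bbc1bb83d107b6102a22ec36206c40d601ac035d06bc0d8a1c1433486a50cf81b403d708541016231c33306ba0ce01ac035306ba0d8a1b14333868f0c501b403cc0816101613b431e06ba0d761d3436287050df41b9034e06c40c621c145c8881f1054239836c86d90d9e1b3c36286c50d201be834e06c40dde1a1c5c8881f1054239835786d90d5e1b6434786a50d881b1037206f80c4e1b3c3cb8757101413b035c86b90d0e18cc33386690d381a7035e06e40df61a9c34387190f442278353867d0ddc1b1036806d00d0e1c1435386cf0e201a483e1072e1092276439c07240bbc1d08314067c0dde18c437d86270df41c403e1078213b22d9c31306f80f6c208040b0854103e207c38c87570f041cb82ea080a115225e438205c80f4413b03cc07ae17222e4434387970f841f0844505d40ce226e440b07ac1176219c27688c711cc239844f04ec16ce27644dc897914582ba05c88b67102a2054405880b105420a83d1080a13b2212433888a9126028b0424881f0d881a6835d06ba0db21b6433e86b90df01c903d605c8103e2d9c367070e0d881b1031e06660d5e1b6435386b90c4c1ce040b070410922e4435206ce)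
    (nat_lit 0xe1c4ec09d813b027604ec09d813b027604ec09d813b027604ec09d813b00dc81c389d813b027604ec09d813b027604ec09d813b027604ec09d813b00d6019c035d13b027604ec09d813b027604ec09d813b027604ec09d813b00d601ac035e06ba27604ec09d813b027604ec09d813b027604ec09d813b00d9e1b3c36286c50df44ec09d813b027604ec09d813b027604ec09d813b00e9a1aec38286c50dc81be89d813b027604ec09d813b027604ec09d813b00c661a1c33486670d381a7037213b027604ec09d813b027604ec09d813b00db21abc352868f0d881b1037c06e427604ec09d813b027604ec09d813b00e84177833e06280c621bbc31386fb0e204ec09d813b027604ec09d813b00d881bb836806d00e0a1a1c36786a70d241c409d813b027604ec09d813b009d81e883d7079817222e443cb86870f841f082ea13b027604ec09d813b010401ed842a0816103e207c3ab87190e5c1e0840505d427604ec09d813b0102a2054405880b105420a840507a210922764454867114584ec09d813b010ce22ec46384ed11cc2398276089e13b22d9c4bc89b915d028b09d813b00d881b10333063c0db21abc35c86a70e701898382081616a6212436713b00d341b1035d06ba0db21b6435c867d0e481be02e407ac16ce207c38706ce)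
    (nat_lit 4) (nat_lit 49)
    [[nat_lit 2,nat_lit 257,nat_lit 0x10000101,nat_lit 0x1001,nat_lit 0x11001,nat_lit 0x101001,nat_lit 0x10001001,
    nat_lit 0x10001,nat_lit 0x10101,nat_lit 0x100001,nat_lit 0x1000001,nat_lit 0x1000011,nat_lit 0x1010001,
    nat_lit 0x11000001,nat_lit 0x10000001],[nat_lit 272,nat_lit 0x10110,nat_lit 0x10010,nat_lit 0x1010010,
    nat_lit 0x20010,nat_lit 0x100010,nat_lit 0x1000010,nat_lit 0x10000010,nat_lit 0x10010010],[nat_lit 512,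
    nat_lit 768,nat_lit 0x10000200,nat_lit 0x1100,nat_lit 0x10100,nat_lit 0x1000100,nat_lit 0x10000100,
    nat_lit 0x10001100,nat_lit 0x10010100],[nat_lit 0x2000,nat_lit 0x11000,nat_lit 0x111000,nat_lit 0x1011000,
    nat_lit 0x10011000,nat_lit 0x101000,nat_lit 0x1001000,nat_lit 0x1002000,nat_lit 0x11001000,nat_lit 0x10001000],
    [nat_lit 0x20000,nat_lit 0x110000,nat_lit 0x1010000,nat_lit 0x10010000,nat_lit 0x11010000],[nat_lit 0x200000,
    nat_lit 0x1100000,nat_lit 0x10100000],[nat_lit 0x2000000,nat_lit 0x11000000],[nat_lit 0x20000000]]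
    [.c (nat_lit 1) (nat_lit 2),.c (nat_lit 0) (nat_lit 0x30302),.c (nat_lit 0) (nat_lit 0x30302),
    .r (nat_lit 0xdb2) (nat_lit 11) [nat_lit 0x2200001,nat_lit 0x320021],
    .r (nat_lit 0xb34) (nat_lit 10) [nat_lit 0x2200001,nat_lit 0x2001,nat_lit 0x5355431,nat_lit 0x22001,nat_lit 33],
    .r (nat_lit 0x1665) (nat_lit 11) [nat_lit 0x2001,nat_lit 0x20001,nat_lit 0x3003231,nat_lit 0x200001,
    nat_lit 0x2000001],.r (nat_lit 0xdb7) (nat_lit 8) [nat_lit 0x3030231,nat_lit 0x2020001],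
    .r (nat_lit 0x14c0) (nat_lit 15) [nat_lit 0x2200031,nat_lit 33,nat_lit 0x320021],.c (nat_lit 0) (nat_lit 0x30302),
    .r (nat_lit 0x14bd) (nat_lit 5) [nat_lit 0x22031,nat_lit 0x2200001,nat_lit 33],
    .r (nat_lit 0xdb2) (nat_lit 15) [nat_lit 0x2200001,nat_lit 0x320021],.c (nat_lit 0) (nat_lit 0x330002),
    .r (nat_lit 0x15b2) (nat_lit 13) [nat_lit 0x30001,nat_lit 0x22001,nat_lit 0x2200031,nat_lit 33],
    .r (nat_lit 0xdb2) (nat_lit 7) [nat_lit 0x3030231,nat_lit 33],.r (nat_lit 0xdbc) (nat_lit 13) [nat_lit 33,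
    nat_lit 0x22001],.r (nat_lit 0x14bd) (nat_lit 5) [nat_lit 0x3300021,nat_lit 0x2200001,nat_lit 0x2222031],
    .c (nat_lit 3) (nat_lit 0x300202),.c (nat_lit 0) (nat_lit 0x200303),
    .r (nat_lit 0xdb7) (nat_lit 8) [nat_lit 0x3002021,nat_lit 0x2020001],
    .r (nat_lit 0x14c1) (nat_lit 1) [nat_lit 0x3030021,nat_lit 0x22001,nat_lit 0x2200001],
    .c (nat_lit 0) (nat_lit 0x202003),.r (nat_lit 0xdbf) (nat_lit 10) [nat_lit 33,nat_lit 0x22001],
    .c (nat_lit 0) (nat_lit 0x200003),.c (nat_lit 0) (nat_lit 0x400305),.c (nat_lit 3) (nat_lit 2),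
    .r (nat_lit 0x1193) (nat_lit 4) [nat_lit 0x6032,nat_lit 33,nat_lit 0x66031,nat_lit 0x2200001],
    .r (nat_lit 0x1193) (nat_lit 4) [nat_lit 0x4031,nat_lit 0x3041,nat_lit 0x68051,nat_lit 0x2200001],
    .r (nat_lit 0xdb2) (nat_lit 7) [nat_lit 33,nat_lit 0x3030231],.r (nat_lit 0x14c1) (nat_lit 1) [nat_lit 0x33021,
    nat_lit 0x22001,nat_lit 0x2200001],.r (nat_lit 0xdb7) (nat_lit 8) [nat_lit 33,nat_lit 0x2020001],
    .c (nat_lit 0) (nat_lit 517),.r (nat_lit 0xdb2) (nat_lit 15) [nat_lit 0x2200001,nat_lit 0x3300231],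
    .r (nat_lit 0xdb3) (nat_lit 11) [nat_lit 0x2200001,nat_lit 0x3300231],.c (nat_lit 4) (nat_lit 2),
    .c (nat_lit 0) (nat_lit 0x333323),.r (nat_lit 0xdb2) (nat_lit 11) [nat_lit 0x2200001,nat_lit 33],
    .c (nat_lit 0) (nat_lit 0x555745),.c (nat_lit 0) (nat_lit 0x333323),
    .r (nat_lit 0xdbb) (nat_lit 11) [nat_lit 0x2200001,nat_lit 33],.c (nat_lit 0) (nat_lit 0x333323),
    .r (nat_lit 0x15b2) (nat_lit 13) [nat_lit 0x30001,nat_lit 0x22001,nat_lit 0x6444521,nat_lit 0x5355431],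
    .c (nat_lit 0) (nat_lit 0x333323),.c (nat_lit 0) (nat_lit 0x333323),.c (nat_lit 5) (nat_lit 2),
    .c (nat_lit 0) (nat_lit 0x32003),.c (nat_lit 0) (nat_lit 0x333323),.c (nat_lit 0) (nat_lit 0x30003),
    .c (nat_lit 0) (nat_lit 0x333323),.c (nat_lit 6) (nat_lit 2),.r (nat_lit 0xdb9) (nat_lit 10) [nat_lit 0x2200001,
    nat_lit 33],.r (nat_lit 0x1193) (nat_lit 4) [nat_lit 0x30021,nat_lit 0x46051,nat_lit 0x20041,nat_lit 0x2200001],
    .c (nat_lit 7) (nat_lit 2),.c (nat_lit 0) (nat_lit 0x333323),.c (nat_lit 8) (nat_lit 2)]]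

/-- nodes -/
noncomputable def rD8k_37_4 : List RJ :=
  [.l (nat_lit 12) (nat_lit 960) (nat_lit 3) (nat_lit 0x1e0000001f8000001cb000001cb0000019a000001ac000001a0000001a0000001a0000001a00000019b0000019d000001a6000001a6000001a2000001a2) (nat_lit 0x180000002d0000002d0000004c0000005e000000580000005800000058000000580000005b0000005d00000052000000520000005600000056)
    (nat_lit 0x1e01c81ad1b31941ac18818818818818517719a1a218a18a1f81e01cb1cb0f019a1a01a01a00f019d19b21e2261a21a21cb1b319e19e17f16d22322f1731730f016e1791791750fd1cb1ad19e19e17916d19119d17916d19217817718714b17519a1ac16d16d12413c14814813812413113714812614a1460f019417917f16012415415415415415114f17615a1561561a018819d22f15414814814814814814514314e14e14a12e1a018819122315414814814814814814514314e14614a14a0f018816d17315412414814814814814d14314e14e14a14a1a018817917315413814814814814813514314613615614a19b17717816e14f13714314314314315813e14915914514d19d1851920f015113114514513514d14215814b14b13314f2261a218717915a12614614e13614e14b15914c15415015021e19a17717917614814e14e14614e14b14915414c1501501a218a1750fd15614614a12e14a14a14f14d15015014014c1a218a14b17515614a14a14a15614a13314515015014c140)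
    (nat_lit 0x1e03c03c03c03c03c03c03c03c03c03c03c03c03c03c03c01c81e03c03c03c03c03c03c03c03c03c03c03c03c03c03c01ad1cb19e3c03c03c03c03c03c03c03c03c03c03c03c03c01b31cb19e19e3c03c03c03c03c03c03c03c03c03c03c03c01940f017f1791243c03c03c03c03c03c03c03c03c03c03c01ac19a16d16d13c1243c03c03c03c03c03c03c03c03c03c01881a02231911481541483c03c03c03c03c03c03c03c03c01881a022f19d1481541481483c03c03c03c03c03c03c03c01881a01731791381541481481483c03c03c03c03c03c03c01880f017316d1241541481481481483c03c03c03c03c03c018519d0f019213115114514514d1351583c03c03c03c03c017719b16e17813714f14314314314313e1583c03c03c03c019a21e17917714817614e14e14e14614914b14c3c03c03c01a221617918712615a14e14614e13615914b15414c3c03c018a1a217514b14a15614a14a14a1561451331501501403c018a1a20fd17514615612e14a14a14a14d14f15015014c140)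
    (nat_lit 3) (nat_lit 47)
    [[nat_lit 2,nat_lit 0x10002,nat_lit 0x1000002,nat_lit 17,nat_lit 257,nat_lit 0x10101,nat_lit 0x1000101,
    nat_lit 0x1001,nat_lit 0x10001,nat_lit 0x100001,nat_lit 0x1000001,nat_lit 0x10000001],[nat_lit 32,nat_lit 272,
    nat_lit 0x1010,nat_lit 0x10010,nat_lit 0x100010,nat_lit 0x1000010,nat_lit 0x10100010],[nat_lit 512,nat_lit 0x1100,
    nat_lit 0x101100,nat_lit 0x10001100,nat_lit 0x10100,nat_lit 0x100100,nat_lit 0x200100,nat_lit 0x10100100,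
    nat_lit 0x1000100,nat_lit 0x1001100,nat_lit 0x1100100,nat_lit 0x10000100],[nat_lit 0x2000,nat_lit 0x11000,
    nat_lit 0x101000,nat_lit 0x201000,nat_lit 0x10101000,nat_lit 0x1001000,nat_lit 0x10001000],[nat_lit 0x20000,
    nat_lit 0x110000,nat_lit 0x10010000],[nat_lit 0x200000,nat_lit 0x300000,nat_lit 0x1100000,nat_lit 0x10100000],
    [nat_lit 0x2000000,nat_lit 0x11000000],[]]
    [.c (nat_lit 1) (nat_lit 2),.r (nat_lit 0x164b) (nat_lit 6) [nat_lit 0xd8011,nat_lit 0x92019,nat_lit 0x401],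
    .c (nat_lit 0) (nat_lit 0x18002),.r (nat_lit 0xdbb) (nat_lit 15) [nat_lit 17,nat_lit 0x2001],
    .c (nat_lit 0) (nat_lit 0x12003),.c (nat_lit 0) (nat_lit 0x1dad2),.r (nat_lit 0xdb4) (nat_lit 13) [nat_lit 0x401,
    nat_lit 0x699],.c (nat_lit 0) (nat_lit 0x6d3),.r (nat_lit 0xdb4) (nat_lit 13) [nat_lit 0x401,nat_lit 0xdb691],
    .c (nat_lit 0) (nat_lit 0x6d3),.c (nat_lit 0) (nat_lit 0x36d3),.r (nat_lit 0xdb3) (nat_lit 13) [nat_lit 17,
    nat_lit 0x12001],.c (nat_lit 2) (nat_lit 2),.r (nat_lit 0xdbb) (nat_lit 5) [nat_lit 17,nat_lit 0x2001],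
    .r (nat_lit 0x1651) (nat_lit 9) [nat_lit 0x401,nat_lit 0x2001,nat_lit 17,nat_lit 0x1d699],
    .r (nat_lit 0xdc2) (nat_lit 5) [nat_lit 17,nat_lit 0x1b681],.r (nat_lit 0xdc3) (nat_lit 10) [nat_lit 17,
    nat_lit 0x12419],.r (nat_lit 0x165b) (nat_lit 13) [nat_lit 0x419,nat_lit 17],.c (nat_lit 0) (nat_lit 194),
    .c (nat_lit 3) (nat_lit 2),.c (nat_lit 0) (nat_lit 0x18b65),.c (nat_lit 0) (nat_lit 0x1bb65),
    .r (nat_lit 0x1587) (nat_lit 14) [nat_lit 0x2001,nat_lit 0x401,nat_lit 0x1b681,nat_lit 0x3099],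
    .c (nat_lit 0) (nat_lit 0x2403),.c (nat_lit 0) (nat_lit 0x2403),.c (nat_lit 0) (nat_lit 0x1bb63),
    .r (nat_lit 0xdc2) (nat_lit 5) [nat_lit 0x12419,nat_lit 0x1b681],.r (nat_lit 0x164b) (nat_lit 6) [nat_lit 0x2019,
    nat_lit 17,nat_lit 0x401],.r (nat_lit 0x138c) (nat_lit 11) [nat_lit 0x83699,nat_lit 0xb4961,nat_lit 0x401,
    nat_lit 0xfdb11],.c (nat_lit 5) (nat_lit 0x2803),.r (nat_lit 0x165b) (nat_lit 15) [nat_lit 0x419,nat_lit 17],
    .c (nat_lit 4) (nat_lit 2),.r (nat_lit 0xdbb) (nat_lit 1) [nat_lit 17,nat_lit 0x401],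
    .c (nat_lit 0) (nat_lit 0x1db63),.c (nat_lit 0) (nat_lit 0x1bb63),
    .r (nat_lit 0xdb3) (nat_lit 13) [nat_lit 0x924d1,nat_lit 0x12001],.c (nat_lit 0) (nat_lit 0x36d3),
    .r (nat_lit 0x164b) (nat_lit 15) [nat_lit 0x419,nat_lit 17,nat_lit 0x2001],.c (nat_lit 5) (nat_lit 2),
    .c (nat_lit 1) (nat_lit 0x10602),.r (nat_lit 0x165b) (nat_lit 13) [nat_lit 0x3011,nat_lit 0x2419],
    .c (nat_lit 6) (nat_lit 2),.r (nat_lit 0x1528) (nat_lit 7) [nat_lit 17,nat_lit 0x90001,nat_lit 0x401,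
    nat_lit 0x2001],.c (nat_lit 0) (nat_lit 0x1db63),.r (nat_lit 0x1590) (nat_lit 14) [nat_lit 0x611,nat_lit 0x2001,
    nat_lit 0x401,nat_lit 0x10419],.c (nat_lit 7) (nat_lit 2),.r (nat_lit 0xdc2) (nat_lit 5) [nat_lit 0x2419,
    nat_lit 0x1b681]],
    .l (nat_lit 11) (nat_lit 480) (nat_lit 3) (nat_lit 0xcd000000cd000000cb000000cb000000be000000be000000d2000000d2000000ce000000ce000000f0000000f0000000d6000000d6000000d2000000d2) (nat_lit 0x2300000023000000250000002500000032000000320000001e0000001e000000220000002200000000000000000000001a0000001a0000001e0000001e)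
    (nat_lit 0x1602c8480a613626c578a715626c668cd18e47c578af1542c0570a81322544e89512a284668eb182464588af150298560a616624c5b8af1162ec328e11622c45389f15c2404d0ac1422645e87d1522b4618db16a2c4568a912a26c4c8931782604e0981182305f0be1502b05c09c13226c508b31182f0480a01502605f0ae1402a0540a412a29c3e8af1402605c0b4180300670c61682e05a0b813a2bc5e8b71202705a0b80f82c0690c21701d0620bc14226c568bb130230580c01782b0891021582d0580b012a2ac5488b1502303e0c01782f06f0ce1582d0580b01d63346d8e115c2f8610c619c408780e01ac318690da19a3346186517c2f8690ce1bc448800f01ac358330d223247c588b11502b03a0b81682d06b0c61782b05c0b818231c5a8b11402a05c0b41582b06b0d61782f05c0b815e2bc5489f1482705e0b81602c0690da1702e0500b41622bc568a71502e0620b41602c0330d21702e0560a0)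
    (nat_lit 0x160780f01e03c0780f01e03c0780f01e03c0780f01e01642c0f01e03c0780f01e03c0780f01e03c0780f01e01202b8561e03c0780f01e03c0780f01e03c0780f01e014c2a0530ac3c0780f01e03c0780f01e03c0780f01e0136264598a1178780f01e03c0780f01e03c0780f01e0136254498991302f0f01e03c0780f01e03c0780f01e015e2745b8bd1382405c1e03c0780f01e03c0780f01e014e2545787d1302805a0b83c0780f01e03c0780f01e0156254458a91182a06007c178780f01e03c0780f01e01362845d8ad118260600b01582f0f01e03c0780f01e019a334328c317c2f8670d2224378781e03c0780f01e019a3ac708db17c2b8630c2204338700f03c0780f01e018e304588b51502805a0b81582b06b0d6178780f01e0236424588b11582a05c0741682d0630d61582f0f01e015e2c4538ad1702a05a0c41602c0690661702e0501e015e2bc4f8a91382905c0bc1602c06d0d21702e05a0a0)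
    (nat_lit 3) (nat_lit 37)
    [[nat_lit 2,nat_lit 17,nat_lit 257,nat_lit 0x100101,nat_lit 0x1001,nat_lit 0x10001,nat_lit 0x100001,
    nat_lit 0x1000001,nat_lit 0x10000001],[nat_lit 32,nat_lit 272,nat_lit 0x1010,nat_lit 0x10010,nat_lit 0x100010,
    nat_lit 0x110010,nat_lit 0x1000010,nat_lit 0x1010010,nat_lit 0x10010010],[nat_lit 0x10100,nat_lit 0x100100,
    nat_lit 0x1000100,nat_lit 0x1010100,nat_lit 0x1100100,nat_lit 0x10000100],[nat_lit 0x2000,nat_lit 0x11000,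
    nat_lit 0x111000,nat_lit 0x1011000,nat_lit 0x10011000,nat_lit 0x101000,nat_lit 0x201000,nat_lit 0x10101000,
    nat_lit 0x1001000,nat_lit 0x1101000,nat_lit 0x11001000,nat_lit 0x10001000],[nat_lit 0x20000,nat_lit 0x110000,
    nat_lit 0x210000,nat_lit 0x1110000,nat_lit 0x10110000,nat_lit 0x1010000,nat_lit 0x11010000,nat_lit 0x10010000],
    [nat_lit 0x200000,nat_lit 0x1200000,nat_lit 0x10200000,nat_lit 0x1100000,nat_lit 0x11100000,nat_lit 0x10100000],
    [nat_lit 0x2000000,nat_lit 0x11000000],[nat_lit 0x20000000]]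
    [.c (nat_lit 1) (nat_lit 2),.c (nat_lit 0) (nat_lit 0x2483),.c (nat_lit 0) (nat_lit 0x2483),
    .r (nat_lit 0xdbb) (nat_lit 14) [nat_lit 0x90001,nat_lit 0x18611],.r (nat_lit 0xdc0) (nat_lit 10) [nat_lit 0x2001,
    nat_lit 0x611],.c (nat_lit 0) (nat_lit 0x1b693),.c (nat_lit 1) (nat_lit 130),.c (nat_lit 0) (nat_lit 0x1b695),
    .r (nat_lit 0xdbb) (nat_lit 14) [nat_lit 0x90001,nat_lit 0x611],.c (nat_lit 2) (nat_lit 2),
    .c (nat_lit 0) (nat_lit 0x2483),.r (nat_lit 0x165b) (nat_lit 15) [nat_lit 0xd8011,nat_lit 0x92019],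
    .r (nat_lit 0xdb8) (nat_lit 5) [nat_lit 17,nat_lit 0x90001],.c (nat_lit 0) (nat_lit 0x2403),
    .r (nat_lit 0xdbb) (nat_lit 1) [nat_lit 0x83011,nat_lit 0x2001],.r (nat_lit 0x165b) (nat_lit 13) [nat_lit 0x2019,
    nat_lit 17],.r (nat_lit 0xdb3) (nat_lit 14) [nat_lit 0x90001,nat_lit 0xd8099],.c (nat_lit 0) (nat_lit 0x602),
    .r (nat_lit 0x1547) (nat_lit 14) [nat_lit 0xa20d1,nat_lit 0x83099,nat_lit 0xeb091],
    .c (nat_lit 0) (nat_lit 0x2403),.r (nat_lit 0x161e) (nat_lit 7) [nat_lit 0x90019,nat_lit 17],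
    .r (nat_lit 0x15fd) (nat_lit 14) [nat_lit 0x2001,nat_lit 0x920d1,nat_lit 0x3099],
    .r (nat_lit 0xdb4) (nat_lit 13) [nat_lit 0x2001,nat_lit 0x3699],.r (nat_lit 0x165b) (nat_lit 15) [nat_lit 0x2019,
    nat_lit 17],.c (nat_lit 4) (nat_lit 2),.r (nat_lit 0xdbb) (nat_lit 1) [nat_lit 17,nat_lit 0x2001],
    .r (nat_lit 0xdb4) (nat_lit 13) [nat_lit 0x2001,nat_lit 17],.r (nat_lit 0xdbb) (nat_lit 14) [nat_lit 0x90001,
    nat_lit 0x1b699],.c (nat_lit 0) (nat_lit 0x1a49c),.r (nat_lit 0xdc0) (nat_lit 10) [nat_lit 0x2001,nat_lit 17],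
    .r (nat_lit 0x15fd) (nat_lit 14) [nat_lit 0x2001,nat_lit 0x90619,nat_lit 0x411],.c (nat_lit 0) (nat_lit 0x18102),
    .r (nat_lit 0xdb5) (nat_lit 3) [nat_lit 17,nat_lit 0x1b099],.r (nat_lit 0x15ea) (nat_lit 14) [nat_lit 0x1b699,
    nat_lit 0x90619,nat_lit 0x411],.c (nat_lit 0) (nat_lit 0x18082),.c (nat_lit 0) (nat_lit 0x18082),
    .c (nat_lit 5) (nat_lit 2),.c (nat_lit 0) (nat_lit 0x1b6d5),.c (nat_lit 0) (nat_lit 0x1b6d3),
    .c (nat_lit 0) (nat_lit 0x1b613),.r (nat_lit 0xdb5) (nat_lit 3) [nat_lit 0x1b699,nat_lit 0x411],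
    .c (nat_lit 0) (nat_lit 0x1b693),.r (nat_lit 0xdc0) (nat_lit 10) [nat_lit 0x2001,nat_lit 0x1b699],
    .r (nat_lit 0x15ea) (nat_lit 14) [nat_lit 17,nat_lit 0xa20d1,nat_lit 0x1b099],.c (nat_lit 6) (nat_lit 2),
    .c (nat_lit 0) (nat_lit 0x1b6d3),.r (nat_lit 0xdb3) (nat_lit 14) [nat_lit 0x90001,nat_lit 0x411],
    .c (nat_lit 0) (nat_lit 0x1b6d5),.r (nat_lit 0xdbb) (nat_lit 1) [nat_lit 0x1b699,nat_lit 0x2001],
    .r (nat_lit 0xdbb) (nat_lit 14) [nat_lit 0x90001,nat_lit 17],.c (nat_lit 7) (nat_lit 2),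
    .r (nat_lit 0xdb4) (nat_lit 13) [nat_lit 0x2001,nat_lit 0x1b699],.c (nat_lit 8) (nat_lit 2)],
    .l (nat_lit 11) (nat_lit 480) (nat_lit 3) (nat_lit 0xd1000000d1000000cc000000cc000000f0000000f6000000e4000000da000000d4000000d4000000cd000000cd000000cb000000cb000000cc000000cc) (nat_lit 0x25000000250000002a0000002a00000000000000060000001c00000012000000220000002200000029000000290000002b0000002b0000002a0000002a)
    (nat_lit 0x1542b0558a7226334608bf15e2bc510a4148288538ab1582a8538a72263345e8bf15e2bc530a014c290538a714e29c500a219831858078164288528a314228c520a214e2ac510a0198318500ba1682c8518a313a284500a219a334630c61e03a8660de19c378638bd18a314610ca22644c660cc1ec3c06d0e40f0350668cd1961fc660cc17e2fc5d0781c8378640d2184308839171722e43c0ba17a304500b01b43305f0c816c2e0648d914e2bc580b015e2bc590a21a83785c0c21142c8558ad1522444f0b215e2bc5a0b20f03385b0c2164228548ab1562a4570b2140290518a319a2f46c9171562b4520a4134290518a114c288518a519a31c649071522ac510a41482885389f148288508a30fe314578b9152244510a41482885389f14c2904e8a1196314538b91562a45209a14c2904e8a114e2ac510a2198328580ba1642c84f8a114227c5209c14e29c500a41983085807815c278538a313a29c510a4)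
    (nat_lit 0x154780f01e03c0780f01e03c0780f01e03c0780f01e01582a8f01e03c0780f01e03c0780f01e03c0780f01e015629c501e03c0780f01e03c0780f01e03c0780f01e014e29c510a03c0780f01e03c0780f01e03c0780f01e022644c660cc1e0780f01e03c0780f01e03c0780f01e019a334630c61d43c0f01e03c0780f01e03c0780f01e01822f4580a0198368641e03c0780f01e03c0780f01e017e2fc3c0ba1bc390690c83c0780f01e03c0780f01e015e2bc590b419c1e0610b6114780f01e03c0780f01e015e2bc510b21bc350610b8164228f01e03c0780f01e0144298528a318e334838c91562a4521e03c0780f01e0148280518a317a3348b8d915a2ac520a43c0780f01e01482985089d18a32c5c8a71522ac4d0a4148780f01e0144290518a118a1fc5c8af1222a4520a2144290f01e014e29c520a01843303c0b013c2b8518a714e274521e015629c510a21943305d0b01642c85089f13e2844e0a4)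
    (nat_lit 5) (nat_lit 19)
    [[nat_lit 2,nat_lit 0x10002,nat_lit 17,nat_lit 257,nat_lit 0x1001,nat_lit 0x2001,nat_lit 0x10001,nat_lit 0x10011,
    nat_lit 0x1010001,nat_lit 0x100001,nat_lit 0x1000001,nat_lit 0x10000001],[nat_lit 32,nat_lit 272,nat_lit 0x1110,
    nat_lit 0x1010,nat_lit 0x2010,nat_lit 0x10010,nat_lit 0x1010010,nat_lit 0x100010,nat_lit 0x101010,
    nat_lit 0x1000010,nat_lit 0x10000010],[nat_lit 512,nat_lit 0x1100,nat_lit 0x100100,nat_lit 0x1000100,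
    nat_lit 0x10000100],[nat_lit 0x2000,nat_lit 0x3000,nat_lit 0x11000,nat_lit 0x101000,nat_lit 0x1001000,
    nat_lit 0x10001000],[nat_lit 0x20000,nat_lit 0x110000,nat_lit 0x1010000,nat_lit 0x2010000,nat_lit 0x10010000],
    [nat_lit 0x1100000],[nat_lit 0x2000000,nat_lit 0x11000000],[nat_lit 0x20000000]]
    [.c (nat_lit 1) (nat_lit 2),.r (nat_lit 0x14ab) (nat_lit 12) [nat_lit 0x10001,nat_lit 65,nat_lit 0x4000001,
    nat_lit 0x100c000e1],.c (nat_lit 0) (nat_lit 0x738cc7),.c (nat_lit 0) (nat_lit 0x4030007),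
    .c (nat_lit 0) (nat_lit 0x738cc7),.r (nat_lit 0xa74) (nat_lit 11) [nat_lit 0x18000001,nat_lit 0x20001,
    nat_lit 0xc00001,nat_lit 0xc07000c1,nat_lit 0xdb32b0e1],.r (nat_lit 0x151b) (nat_lit 8) [nat_lit 0x10001,
    nat_lit 0x4000001,nat_lit 65],.r (nat_lit 0x1368) (nat_lit 1) [nat_lit 0xce7198e3,nat_lit 0x4000001,
    nat_lit 0xc0018003,nat_lit 0x80610003],.c (nat_lit 3) (nat_lit 0x4060807),
    .r (nat_lit 0x165b) (nat_lit 4) [nat_lit 0x4000061,nat_lit 65],.c (nat_lit 0) (nat_lit 0x318043),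
    .r (nat_lit 0xdbb) (nat_lit 13) [nat_lit 65,nat_lit 0x200001],.c (nat_lit 2) (nat_lit 2),
    .r (nat_lit 0xdbb) (nat_lit 12) [nat_lit 65,nat_lit 0x4000001],.c (nat_lit 3) (nat_lit 0x46608e6),
    .c (nat_lit 0) (nat_lit 0x738cc7),.r (nat_lit 0xdbb) (nat_lit 14) [nat_lit 0x8cc11cc3,nat_lit 0x4000001],
    .c (nat_lit 0) (nat_lit 0x6738cc7),.r (nat_lit 0x1467) (nat_lit 0) [nat_lit 0x10001,nat_lit 0xce7018e1,
    nat_lit 0x4000001,nat_lit 0x180c1],.r (nat_lit 0x164b) (nat_lit 4) [nat_lit 0x4000061,nat_lit 65,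
    nat_lit 0x200001],.r (nat_lit 0xdb4) (nat_lit 14) [nat_lit 0x200001,nat_lit 0x300861],
    .c (nat_lit 0) (nat_lit 0x318043),.r (nat_lit 0xdb4) (nat_lit 13) [nat_lit 65,nat_lit 0xc07198e3],
    .c (nat_lit 3) (nat_lit 2),.r (nat_lit 0xdbb) (nat_lit 14) [nat_lit 65,nat_lit 0x4000001],
    .r (nat_lit 0xdb4) (nat_lit 14) [nat_lit 0x200001,nat_lit 0x8c6100e3],.c (nat_lit 0) (nat_lit 0x4030807),
    .r (nat_lit 0xdbc) (nat_lit 6) [nat_lit 0x4200061,nat_lit 65],.c (nat_lit 4) (nat_lit 2),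
    .r (nat_lit 0x1467) (nat_lit 0) [nat_lit 0x10001,nat_lit 65,nat_lit 0x4000001,nat_lit 0xce719861],
    .c (nat_lit 0) (nat_lit 0x6738cc7),.r (nat_lit 0x1432) (nat_lit 4) [nat_lit 0x10001,nat_lit 0x4000061,nat_lit 65,
    nat_lit 0x80600001],.c (nat_lit 0) (nat_lit 0x318043),.r (nat_lit 0x14b6) (nat_lit 10) [nat_lit 0x10001,
    nat_lit 0x4000061,nat_lit 65,nat_lit 0x80600001],.c (nat_lit 5) (nat_lit 2),
    .r (nat_lit 0xdbc) (nat_lit 6) [nat_lit 65,nat_lit 0x4200061],.r (nat_lit 0x151b) (nat_lit 8) [nat_lit 0x10001,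
    nat_lit 0x4000001,nat_lit 0x80028183],.c (nat_lit 0) (nat_lit 0x4001406),
    .r (nat_lit 0xdb4) (nat_lit 14) [nat_lit 0x200001,nat_lit 0x800100c3],
    .r (nat_lit 0x121e) (nat_lit 4) [nat_lit 0xc0100e1,nat_lit 0x10001,nat_lit 0x180c1,nat_lit 0x80600001],
    .c (nat_lit 7) (nat_lit 2),.r (nat_lit 0xdbb) (nat_lit 4) [nat_lit 65,nat_lit 0x200001],
    .c (nat_lit 8) (nat_lit 2)]]

/-- nodes -/
noncomputable def rD8k_37_5 : List RJ :=
  [.l (nat_lit 12) (nat_lit 720) (nat_lit 3) (nat_lit 0x12c0000012c0000012f0000012f0000013500000135000001320000013200000135000001350000016a0000016a0000014a0000014a0000012f0000012f) (nat_lit 0x3e0000003e0000003b0000003b000000350000003500000038000000380000003500000035000000000000000000000020000000200000003b0000003b)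
    (nat_lit 0x1000ee0fd0f10fd0f10f41000850f712c1441060820f10fd0e21000f10f10f70eb0fa0e814b0f712c12c1241240f10f10f10f11001001060fa0f70f70fa0f41170db10f10f0e20dc0f10fd1121000d60fa0f70f70dc0f412f10b10f0c10fa1000eb0f10fa0fa1000e21031211241001831531091150ee0fa0f70fd0d61060ac1000fd0fd10010017d14d1151150ee0f40e81000f70f70fd1210fa14e0e50fd1321321180ca0f10f70fa0f40f70f70fd1030fa0fa0eb0fd0a40de1181120f71030f70f70f40f41001000fd0fd1541001351471091a30fa0f414b0850dc0fa1001240eb0e510015413513512d1c70e20fa12c14410b0db14d1530de1321351470b816a14a14a1a111712c12c12f11717d1830a413213513516a0b814a14a1b912f1240820c110f1151151120ca1c71a314a14a12a12a10f10f12410610f10f11510911811812d10914a14a12a12a10310f0f10fd1000dc0f40fa1030f70fa0f412f11710f10f0fa0f40f10f10fa0e20ee0ee0f70f10e20fa1b91a110310f0f40fa)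
    (nat_lit 0x1002d02d02d02d02d02d02d02d02d02d02d02d02d02d02d00ee1002d02d02d02d02d02d02d02d02d02d02d02d02d02d00fd0f11002d02d02d02d02d02d02d02d02d02d02d02d02d00f10f11001002d02d02d02d02d02d02d02d02d02d02d02d00fd0f71060d61002d02d02d02d02d02d02d02d02d02d02d00f10eb0fa0fa0e21002d02d02d02d02d02d02d02d02d02d00f40fa0f70f71030fd0fa2d02d02d02d02d02d02d02d02d01000e80f70f71210fd14e0fa2d02d02d02d02d02d02d02d008514b0fa0dc1241000e50eb1542d02d02d02d02d02d02d00f70f70f40f41001000fd0fd1001542d02d02d02d02d02d012c12c11712f18317d1320a41351350b82d02d02d02d02d014412c0db10b15314d1320de14713516a0b82d02d02d02d010612410f10f10911511811810912d14a14a12a2d02d02d008212410f0c11151150ca1121791a914a14a12a12a2d02d00f10f10e20fa0ee0ee0f10f70fa0e21a119510f1030fa2d00fd0f10dc1000fa0f40f71030f40fa11712f10f10f0f40fa)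
    (nat_lit 4) (nat_lit 61)
    [[nat_lit 2,nat_lit 17,nat_lit 0x1000011,nat_lit 0x10000011,nat_lit 0x1001,nat_lit 0x1001001,nat_lit 0x10001001,
    nat_lit 0x10001,nat_lit 0x10101,nat_lit 0x1010001,nat_lit 0x100001,nat_lit 0x200001,nat_lit 0x1100001,
    nat_lit 0x1000001,nat_lit 0x10000001,nat_lit 0x11000001],[nat_lit 32,nat_lit 272,nat_lit 0x10110,nat_lit 0x11010,
    nat_lit 0x1001010,nat_lit 0x10001010,nat_lit 0x10010,nat_lit 0x10010010,nat_lit 0x100010,nat_lit 0x200010,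
    nat_lit 0x10100010,nat_lit 0x1000010,nat_lit 0x11000010,nat_lit 0x10000010,nat_lit 0x20000010],[nat_lit 512,
    nat_lit 768,nat_lit 0x10200,nat_lit 0x1000200,nat_lit 0x1100,nat_lit 0x10100,nat_lit 0x1010100,nat_lit 0x1000100,
    nat_lit 0x10000100],[nat_lit 0x2000,nat_lit 0x11000,nat_lit 0x10011000,nat_lit 0x101000,nat_lit 0x1001000,
    nat_lit 0x11001000,nat_lit 0x10001000,nat_lit 0x10101000,nat_lit 0x20001000],[nat_lit 0x20000,nat_lit 0x110000,
    nat_lit 0x1010000,nat_lit 0x10010000],[nat_lit 0x200000,nat_lit 0x300000,nat_lit 0x1200000,nat_lit 0x10200000,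
    nat_lit 0x1100000,nat_lit 0x11100000,nat_lit 0x10100000],[nat_lit 0x2000000,nat_lit 0x11000000],
    [nat_lit 0x20000000]]
    [.c (nat_lit 1) (nat_lit 2),.r (nat_lit 0x161e) (nat_lit 11) [nat_lit 0x2001,nat_lit 0x3021],
    .r (nat_lit 0x14ea) (nat_lit 11) [nat_lit 0x2001,nat_lit 0x200001,nat_lit 0x3021],
    .r (nat_lit 0xf07) (nat_lit 9) [nat_lit 0x34001,nat_lit 0x30001,nat_lit 0x2020001,nat_lit 0x420001,
    nat_lit 0x25041],.c (nat_lit 0) (nat_lit 0x200403),.r (nat_lit 0xdc2) (nat_lit 14) [nat_lit 0x200001,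
    nat_lit 0x300231],.r (nat_lit 0xdc2) (nat_lit 13) [nat_lit 0x3203021,nat_lit 0x300231],
    .c (nat_lit 0) (nat_lit 0x333023),.c (nat_lit 0) (nat_lit 0x30302),.c (nat_lit 0) (nat_lit 0x333023),
    .c (nat_lit 1) (nat_lit 514),.r (nat_lit 0x161e) (nat_lit 11) [nat_lit 0x2001,nat_lit 0x23021],
    .r (nat_lit 0xdc2) (nat_lit 8) [nat_lit 0x23021,nat_lit 0x2002001],.c (nat_lit 0) (nat_lit 0x333023),
    .c (nat_lit 0) (nat_lit 0x333023),.c (nat_lit 0) (nat_lit 0x333023),.c (nat_lit 2) (nat_lit 2),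
    .c (nat_lit 0) (nat_lit 0x53004),.c (nat_lit 0) (nat_lit 0x33002),.c (nat_lit 0) (nat_lit 0x303002),
    .c (nat_lit 0) (nat_lit 0x303002),.c (nat_lit 0) (nat_lit 0x303002),.r (nat_lit 0xdba) (nat_lit 5) [nat_lit 33,
    nat_lit 0x200001],.r (nat_lit 0xdc2) (nat_lit 14) [nat_lit 0x200001,nat_lit 33],
    .r (nat_lit 0x161e) (nat_lit 11) [nat_lit 0x2001,nat_lit 33],.c (nat_lit 2) (nat_lit 0x2002),
    .r (nat_lit 0xf07) (nat_lit 9) [nat_lit 0x34001,nat_lit 0x30001,nat_lit 0x2020001,nat_lit 0x420001,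
    nat_lit 0x20041],.r (nat_lit 0xdc2) (nat_lit 8) [nat_lit 33,nat_lit 0x2002001],
    .r (nat_lit 0x165b) (nat_lit 1) [nat_lit 0x3303231,nat_lit 0x200001],
    .r (nat_lit 0x1151) (nat_lit 11) [nat_lit 0x34021,nat_lit 0x2020001,nat_lit 0x420031,nat_lit 0x30021],
    .r (nat_lit 0x1383) (nat_lit 11) [nat_lit 0x2001,nat_lit 33,nat_lit 0x200001,nat_lit 0x2020031],
    .c (nat_lit 3) (nat_lit 2),.c (nat_lit 0) (nat_lit 0xd7004),.c (nat_lit 0) (nat_lit 0x250002),
    .c (nat_lit 0) (nat_lit 0x53002),.r (nat_lit 0x161e) (nat_lit 11) [nat_lit 0x2001,nat_lit 0x2220031],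
    .r (nat_lit 0x165b) (nat_lit 1) [nat_lit 0x300021,nat_lit 0x200001],
    .r (nat_lit 0x1151) (nat_lit 11) [nat_lit 0x3032231,nat_lit 0x2020001,nat_lit 0x2422321,nat_lit 0x3033231],
    .r (nat_lit 0xdc2) (nat_lit 14) [nat_lit 0x200001,nat_lit 0x3003231],.r (nat_lit 0xdc2) (nat_lit 13) [nat_lit 33,
    nat_lit 0x3003231],.c (nat_lit 4) (nat_lit 2),.r (nat_lit 0xdb8) (nat_lit 14) [nat_lit 0x200001,nat_lit 33],
    .r (nat_lit 0x14ea) (nat_lit 11) [nat_lit 0x2001,nat_lit 0x200001,nat_lit 0x303231],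
    .c (nat_lit 0) (nat_lit 0x200005),.r (nat_lit 0xdba) (nat_lit 14) [nat_lit 0x200001,nat_lit 33],
    .r (nat_lit 0xdb5) (nat_lit 14) [nat_lit 0x200001,nat_lit 33],.r (nat_lit 0x1608) (nat_lit 5) [nat_lit 0x2020031,
    nat_lit 0x200001,nat_lit 33],.r (nat_lit 0xdc2) (nat_lit 13) [nat_lit 0x3200021,nat_lit 0x303231],
    .r (nat_lit 0xdc2) (nat_lit 13) [nat_lit 0x3400022,nat_lit 0x3505432],.c (nat_lit 5) (nat_lit 2),
    .c (nat_lit 0) (nat_lit 0x333323),.c (nat_lit 0) (nat_lit 0x333023),.c (nat_lit 0) (nat_lit 0x333023),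
    .c (nat_lit 6) (nat_lit 2),.r (nat_lit 0x161e) (nat_lit 11) [nat_lit 0x2001,nat_lit 0x20021],
    .r (nat_lit 0xdc2) (nat_lit 8) [nat_lit 0x20021,nat_lit 0x2002001],
    .r (nat_lit 0x1151) (nat_lit 11) [nat_lit 0x4021,nat_lit 0x2020001,nat_lit 0x400031,nat_lit 33],
    .c (nat_lit 0) (nat_lit 0x333323),.c (nat_lit 0) (nat_lit 0x333323),.c (nat_lit 0) (nat_lit 0x333323),
    .c (nat_lit 7) (nat_lit 2),.c (nat_lit 0) (nat_lit 0x333323),.c (nat_lit 8) (nat_lit 2)],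
    .l (nat_lit 13) (nat_lit 0x4e0) (nat_lit 3) (nat_lit 0x1ea000001ea000001e400000220000001fa000001fa000002400000024000000236000002360000021700000217000001e4000001e4000001f0000001f0) (nat_lit 0x5600000056000000200000005c000000460000004600000000000000000000000a0000000a00000029000000290000005c0000005c0000005000000050)
    (nat_lit 0xeb06503941a008c067826c1c20f004484121550c707703341b20ca075837c18e0aa06c03d41ce0f007803ca1c10e805f03101c40c706803701880dd06a83c82340ed076839a1bb0af05902a41520df07284781b80bf07681a022010b08583fa15b0e207283ac1d60d806783b41aa0da05e03f42561460d003961d10cc06603541aa0aa04602fc1ba0da06d03f41fa0d009503da1d10b606e83a41960e707084402340fd09583b824011b08d83f62670fc07204f82220f504d81a01e40fd07e84801dc11b08d84f22e509e079057c2640f0044842c1da12a0d0046c2360af08b041a20d0b305e053428e0f0078042c1da0d00a3046c236113057841a20d0ed07804a42460e085542b61bb0e887445ca26710688343d01f40ad86ec38e1c70f288243fa1cd0f6872c4f21fb10688343941e810786ec2f21730be07703941640dd06603c81c80f005e03761bb0ee06b02981400e8063838815e0b606602781f80ed059841e15b0c407702f81940e206c83ac1520cb06a84c82221230a382e61c70ca05003401a00c406683ac1520e906a857c27c1290a682f21c70be05303401a0)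
    (nat_lit 0xeb13809c04e027013809c04e027013809c04e027013809c04e00ca07589c04e027013809c04e027013809c04e027013809c04e00e506f83704e027013809c04e027013809c04e027013809c04e00d006383101b827013809c04e027013809c04e027013809c04e008c055037417e0da13809c04e027013809c04e027013809c04e00cf06c03541da0bc06d09c04e027013809c04e027013809c04e009b07a83c80d00fd07e83b84e027013809c04e027013809c04e00e1073846822012b07e84801dc27013809c04e027013809c04e00f007803b4216146068046c2360af13809c04e027013809c04e008907803b4216161095046c23611605789c04e027013809c04e0104879439a1fd0e587b43f627910688343d04e027013809c04e00aa870437615b0e887444ce28b10688343e81e827013809c04e00c707402bc1c40cc05b03f013c0b307682b620f0ee13809c04e00ee05f02c81ca0cc06e83901e40bc07803761bb0d607709c04e00cd06202a41d60d507484f822214d094838e1790a605f03404e00d907102a41d60d50658444222147091838e1730a006503401a0)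
    (nat_lit 5) (nat_lit 101)
    [[nat_lit 2,nat_lit 18,nat_lit 258,nat_lit 0x1000002,nat_lit 0x10000002,nat_lit 17,nat_lit 33,nat_lit 273,
    nat_lit 0x10011,nat_lit 0x100011,nat_lit 0x1000011,nat_lit 0x10000011,nat_lit 257,nat_lit 0x1000101,
    nat_lit 0x10000101,nat_lit 0x1010001,nat_lit 0x100001,nat_lit 0x1100001,nat_lit 0x10100001,nat_lit 0x1000001,
    nat_lit 0x11000001,nat_lit 0x10000001],[nat_lit 32,nat_lit 0x100020,nat_lit 0x1000020,nat_lit 272,
    nat_lit 0x1000110,nat_lit 0x1010,nat_lit 0x2010,nat_lit 0x101010,nat_lit 0x10001010,nat_lit 0x10010,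
    nat_lit 0x1010010,nat_lit 0x10010010,nat_lit 0x110010,nat_lit 0x100010,nat_lit 0x1100010,nat_lit 0x10100010,
    nat_lit 0x200010,nat_lit 0x1000010,nat_lit 0x11000010,nat_lit 0x10000010],[nat_lit 512,nat_lit 0x1100,
    nat_lit 0x1010100,nat_lit 0x100100,nat_lit 0x10100100,nat_lit 0x1000100,nat_lit 0x10000100],[nat_lit 0x2000,
    nat_lit 0x3000,nat_lit 0x10002000,nat_lit 0x11000,nat_lit 0x10101000,nat_lit 0x1001000,nat_lit 0x11001000,
    nat_lit 0x10001000,nat_lit 0x20001000],[nat_lit 0x20000,nat_lit 0x110000,nat_lit 0x1010000,nat_lit 0x1110000,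
    nat_lit 0x2010000,nat_lit 0x11010000,nat_lit 0x10010000,nat_lit 0x20010000],[nat_lit 0x200000,nat_lit 0x1200000,
    nat_lit 0x10200000,nat_lit 0x1100000,nat_lit 0x11100000,nat_lit 0x10100000,nat_lit 0x20100000],[nat_lit 0x2000000,
    nat_lit 0x11000000],[nat_lit 0x20000000]]
    [.c (nat_lit 1) (nat_lit 2),.c (nat_lit 0) (nat_lit 0x6528083),.r (nat_lit 0x1624) (nat_lit 11) [nat_lit 0x10001,
    nat_lit 0x200001,nat_lit 0x4000001,nat_lit 0x80000001],.c (nat_lit 0) (nat_lit 0x6528083),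
    .r (nat_lit 0x1362) (nat_lit 11) [nat_lit 65,nat_lit 0x200001,nat_lit 0x8020061,nat_lit 0x28041],
    .c (nat_lit 0) (nat_lit 0x6528085),.c (nat_lit 0) (nat_lit 0x6528083),
    .r (nat_lit 0xdba) (nat_lit 13) [nat_lit 0x84200c41,nat_lit 0x4010001],
    .r (nat_lit 0xdb5) (nat_lit 11) [nat_lit 0x4010001,nat_lit 0x18041],.c (nat_lit 0) (nat_lit 0x6528c83),
    .c (nat_lit 0) (nat_lit 0x6528c83),.c (nat_lit 8) (nat_lit 0x4210062),
    .r (nat_lit 0xdb8) (nat_lit 14) [nat_lit 0x18041,nat_lit 0x4210061],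
    .r (nat_lit 0x14f5) (nat_lit 14) [nat_lit 0x18001,nat_lit 0x4010001,nat_lit 0x4200c41,nat_lit 0x6000861],
    .r (nat_lit 0xdc2) (nat_lit 11) [nat_lit 0x4010001,nat_lit 0x18041],
    .r (nat_lit 0x1395) (nat_lit 2) [nat_lit 0x18001,nat_lit 0x4010001,nat_lit 0x200061,nat_lit 65],
    .c (nat_lit 1) (nat_lit 0x802),.c (nat_lit 0) (nat_lit 0x6528c83),
    .r (nat_lit 0x1362) (nat_lit 11) [nat_lit 0x10041,nat_lit 0x200001,nat_lit 0x8010061,nat_lit 0x18041],
    .c (nat_lit 0) (nat_lit 0x318043),.c (nat_lit 0) (nat_lit 0x318043),.c (nat_lit 0) (nat_lit 0x318043),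
    .c (nat_lit 2) (nat_lit 2),.c (nat_lit 0) (nat_lit 0x6528c83),.c (nat_lit 0) (nat_lit 0x6528083),
    .r (nat_lit 0xdb8) (nat_lit 11) [nat_lit 0x4010001,nat_lit 65],.r (nat_lit 0x14ea) (nat_lit 2) [nat_lit 0x18001,
    nat_lit 0x4010001,nat_lit 0x6000861],.r (nat_lit 0x165b) (nat_lit 5) [nat_lit 0x6018041,nat_lit 0x4010001],
    .c (nat_lit 0) (nat_lit 0x6929482),.c (nat_lit 0) (nat_lit 0x300002),.c (nat_lit 0) (nat_lit 0x6518c42),
    .r (nat_lit 0xdba) (nat_lit 11) [nat_lit 0x4010001,nat_lit 65],.r (nat_lit 0xdc2) (nat_lit 11) [nat_lit 0x4010001,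
    nat_lit 0x6018861],.r (nat_lit 0x14f5) (nat_lit 14) [nat_lit 0x18001,nat_lit 0x4010001,nat_lit 0x200061,
    nat_lit 65],.r (nat_lit 0xdb5) (nat_lit 11) [nat_lit 0x4010001,nat_lit 65],.c (nat_lit 0) (nat_lit 0x6529485),
    .c (nat_lit 0) (nat_lit 0x6529483),.c (nat_lit 8) (nat_lit 0x4210862),.c (nat_lit 0) (nat_lit 0x6529483),
    .c (nat_lit 0) (nat_lit 0x318043),.c (nat_lit 0) (nat_lit 0x318043),.c (nat_lit 0) (nat_lit 0x318043),
    .c (nat_lit 3) (nat_lit 2),.r (nat_lit 0x161e) (nat_lit 2) [nat_lit 0x18001,nat_lit 0x4210061],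
    .c (nat_lit 8) (nat_lit 0x4010003),.r (nat_lit 0xdb8) (nat_lit 14) [nat_lit 65,nat_lit 0x4200061],
    .r (nat_lit 0xdc2) (nat_lit 11) [nat_lit 0x4010001,nat_lit 65],.r (nat_lit 0x1608) (nat_lit 1) [nat_lit 0x200061,
    nat_lit 0x4010001,nat_lit 65],.r (nat_lit 0xdba) (nat_lit 13) [nat_lit 65,nat_lit 0x4010001],
    .c (nat_lit 4) (nat_lit 2),.c (nat_lit 0) (nat_lit 0xf96b584),.c (nat_lit 0) (nat_lit 0xa929482),
    .r (nat_lit 0xdb8) (nat_lit 14) [nat_lit 0x4200061,nat_lit 65],.c (nat_lit 0) (nat_lit 0x6518c42),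
    .r (nat_lit 0x165b) (nat_lit 2) [nat_lit 0x4000061,nat_lit 65],.c (nat_lit 0) (nat_lit 0x6518c42),
    .c (nat_lit 0) (nat_lit 0x6518c42),.c (nat_lit 0) (nat_lit 0x6518c42),.c (nat_lit 5) (nat_lit 2),
    .r (nat_lit 0x161e) (nat_lit 2) [nat_lit 0x18001,nat_lit 0x10041],
    .r (nat_lit 0x1393) (nat_lit 2) [nat_lit 0x18001,nat_lit 0x200061,nat_lit 65,nat_lit 0x4010001],
    .r (nat_lit 0x1395) (nat_lit 2) [nat_lit 0x18001,nat_lit 0x4010001,nat_lit 0x218061,nat_lit 0x10041],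
    .r (nat_lit 0x1383) (nat_lit 2) [nat_lit 0x18001,nat_lit 65,nat_lit 0x4010001,nat_lit 0x200061],
    .r (nat_lit 0xdba) (nat_lit 13) [nat_lit 0x80200061,nat_lit 0x4010001],
    .r (nat_lit 0xdb5) (nat_lit 11) [nat_lit 0x4010001,nat_lit 0xc6318841],
    .r (nat_lit 0x1608) (nat_lit 1) [nat_lit 0xc0000041,nat_lit 0x4010001,nat_lit 0x80200061],
    .c (nat_lit 6) (nat_lit 2),.c (nat_lit 0) (nat_lit 0x6529483),.r (nat_lit 0x1362) (nat_lit 11) [nat_lit 0x20041,
    nat_lit 0x200001,nat_lit 0x8000061,nat_lit 65],.c (nat_lit 0) (nat_lit 0x318c43),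
    .c (nat_lit 0) (nat_lit 0x318c43),.c (nat_lit 0) (nat_lit 0x318c43),
    .r (nat_lit 0x165b) (nat_lit 2) [nat_lit 0xc0000041,nat_lit 0x84000061],.c (nat_lit 7) (nat_lit 2),
    .c (nat_lit 0) (nat_lit 0x4000005),.c (nat_lit 8) (nat_lit 2)]]

/-- nodes -/
noncomputable def rD8k_37_6 : List RJ :=
  [.l (nat_lit 12) (nat_lit 720) (nat_lit 4) (nat_lit 0x12e0000012e00000168000001680000014b0000014b00000137000001370000012e0000012e000001320000013200000132000001320000012b0000012b) (nat_lit 0x3a0000003a00000000000000000000001d0000001d00000031000000310000003a0000003a000000360000003600000036000000360000003d0000003d)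
    (nat_lit 0xf00ee14412e11111110313d0f40f40f80f20f00f80f10f10f40f014412e1111111931cd0f40f60f80f80f20f80f10f112e12e16816807b13513513712e09813213213213212f13114414416816814714b1371370ae12a0a21321320b212b0ab11111114b13512e12e11e11e1111111951951951a50f810e11111114707b12e12e11a11a11111113b13b12b13b0ce10e1cd13d13713711a11e1061060d70fd0db1011010db0fa0e419310313713511a11e1021061010fd1050f90f30f90fa10e0f60f412a0981111110fd0fd0fc0f81000f40e40f40eb0ff0f40f40ae12e1111111010d70f40fc0f20f80f20f80f70f10f80f213213213b1950f91010f80f40fc0fc0fc1020f50fb0f80f80a213213b1951050db0f21000fc0fc0fc0fc0f50ef0f80f80b213213b1a50f90db0f80f40fc1021020fc0f50f50f20f013213212b1950f31010f20e40fc0fc0fc1020f50f50f10f10ab13110e10e10e0e40f10ff0ef0fb0f50f50f60ee0f10f112b12f0ce0f80fa0fa0f70eb0f50f50f50f50f40f6)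
    (nat_lit 0xf02d02d02d02d02d02d02d02d02d02d02d02d02d02d02d00ee0f02d02d02d02d02d02d02d02d02d02d02d02d02d02d01441441682d02d02d02d02d02d02d02d02d02d02d02d02d012e12e1681682d02d02d02d02d02d02d02d02d02d02d02d011111107b14712e2d02d02d02d02d02d02d02d02d02d02d011111113514b12e12e2d02d02d02d02d02d02d02d02d02d010319313513711e11a1062d02d02d02d02d02d02d02d02d013d1cd13713711e11a1061062d02d02d02d02d02d02d02d00f40f412e0ae1111110d71010fc2d02d02d02d02d02d02d00f40f609812a1111110fd0fd0f80fc2d02d02d02d02d02d00f80f81320a219511d0db1051000f20fc2d02d02d02d02d00f20f813213219513b1010f90f40f80fc0fc2d02d02d02d00f00f213213219512b1010f30e40f20fc0fc1022d02d02d00f80f81320b21a512d0db0f90f40f81020fc0fc1022d02d00f10f112f12b0f80ce0fa0fa0eb0f70f50f50f50f50f62d00f10f11310ab10e10e0e410e0ff0f10fb0ef0f50f50ee0f6)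
    (nat_lit 3) (nat_lit 49)
    [[nat_lit 2,nat_lit 17,nat_lit 0x1011,nat_lit 0x10011,nat_lit 257,nat_lit 0x1000101,nat_lit 0x1001,
    nat_lit 0x1001001,nat_lit 0x10001,nat_lit 0x100001,nat_lit 0x100002,nat_lit 0x1100001,nat_lit 0x1000001,
    nat_lit 0x10000001,nat_lit 0x11000001],[nat_lit 32,nat_lit 272,nat_lit 0x1010,nat_lit 0x2010,nat_lit 0x11010,
    nat_lit 0x1001010,nat_lit 0x10010,nat_lit 0x1100010,nat_lit 0x1000010,nat_lit 0x10000010],[nat_lit 512,
    nat_lit 0x1100,nat_lit 0x1001100,nat_lit 0x10100,nat_lit 0x1000100,nat_lit 0x1100100,nat_lit 0x11000100,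
    nat_lit 0x10000100],[nat_lit 0x2000,nat_lit 0x1002000,nat_lit 0x11000,nat_lit 0x1011000,nat_lit 0x101000,
    nat_lit 0x1101000,nat_lit 0x1001000,nat_lit 0x2002000,nat_lit 0x2001000,nat_lit 0x10001000],[nat_lit 0x20000,
    nat_lit 0x110000,nat_lit 0x1010000],[nat_lit 0x200000,nat_lit 0x1100000,nat_lit 0x10100000],[nat_lit 0x11000000],
    [nat_lit 0x20000000]]
    [.c (nat_lit 1) (nat_lit 2),.c (nat_lit 0) (nat_lit 0x483),.c (nat_lit 0) (nat_lit 0x1b013),
    .r (nat_lit 0xdb5) (nat_lit 14) [nat_lit 0x10001,nat_lit 0x18099],.c (nat_lit 0) (nat_lit 0x2083),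
    .c (nat_lit 0) (nat_lit 0x18613),.c (nat_lit 0) (nat_lit 0x1b013),.c (nat_lit 1) (nat_lit 0x1249a),
    .r (nat_lit 0xdbe) (nat_lit 11) [nat_lit 17,nat_lit 0x2001],.r (nat_lit 0xdba) (nat_lit 6) [nat_lit 0x80001,
    nat_lit 17],.c (nat_lit 2) (nat_lit 0x883),.r (nat_lit 0x10da) (nat_lit 10) [nat_lit 0x920d1,nat_lit 0x80001,
    nat_lit 0xda099,nat_lit 0xd3099,nat_lit 0x928d1],.c (nat_lit 0) (nat_lit 0x1b013),
    .r (nat_lit 0xdb5) (nat_lit 14) [nat_lit 0x10001,nat_lit 0xdb691],.r (nat_lit 0xdb6) (nat_lit 10) [nat_lit 0x2001,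
    nat_lit 0x3099],.c (nat_lit 2) (nat_lit 2),.c (nat_lit 2) (nat_lit 0x3402),.c (nat_lit 0) (nat_lit 0x2d6e5),
    .c (nat_lit 0) (nat_lit 0x2d6e3),.r (nat_lit 0xdb6) (nat_lit 10) [nat_lit 0x2001,nat_lit 0x13011],
    .c (nat_lit 0) (nat_lit 0x2d6e5),.r (nat_lit 0xdba) (nat_lit 5) [nat_lit 17,nat_lit 0x10001],
    .c (nat_lit 0) (nat_lit 0x602),.c (nat_lit 0) (nat_lit 0x2d6e3),.r (nat_lit 0xdbb) (nat_lit 6) [nat_lit 0x82019,
    nat_lit 17],.c (nat_lit 3) (nat_lit 2),.c (nat_lit 0) (nat_lit 0x2bae5),.c (nat_lit 0) (nat_lit 0x2bae5),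
    .r (nat_lit 0xdba) (nat_lit 5) [nat_lit 0x1a011,nat_lit 0x10001],.c (nat_lit 0) (nat_lit 0x2bae3),
    .c (nat_lit 0) (nat_lit 0x3002),.r (nat_lit 0xdb7) (nat_lit 10) [nat_lit 0x2001,nat_lit 0x3099],
    .r (nat_lit 0xdbb) (nat_lit 6) [nat_lit 0x90019,nat_lit 0x1a011],.c (nat_lit 4) (nat_lit 2),
    .c (nat_lit 0) (nat_lit 0x2d6e3),.r (nat_lit 0xdb8) (nat_lit 14) [nat_lit 0x10001,nat_lit 17],
    .r (nat_lit 0xdbe) (nat_lit 11) [nat_lit 0x924d1,nat_lit 0x2001],.r (nat_lit 0x165b) (nat_lit 3) [nat_lit 0x18011,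
    nat_lit 0x10001],.r (nat_lit 0xdba) (nat_lit 6) [nat_lit 0x80001,nat_lit 0x924d1],
    .c (nat_lit 0) (nat_lit 0x1b6d3),.c (nat_lit 1) (nat_lit 0x2492a),.c (nat_lit 0) (nat_lit 0x2d6e3),
    .r (nat_lit 0xdc1) (nat_lit 13) [nat_lit 0x2001,nat_lit 17],.c (nat_lit 5) (nat_lit 2),
    .r (nat_lit 0xdbb) (nat_lit 6) [nat_lit 17,nat_lit 0x82019],.r (nat_lit 0x165b) (nat_lit 0) [nat_lit 0xc0011,
    nat_lit 0x80001],.c (nat_lit 6) (nat_lit 2),.r (nat_lit 0xdb8) (nat_lit 6) [nat_lit 0x80001,nat_lit 17],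
    .r (nat_lit 0xdba) (nat_lit 5) [nat_lit 0x82019,nat_lit 0x10001],.r (nat_lit 0x15aa) (nat_lit 4) [nat_lit 0x10001,
    nat_lit 0x900d1,nat_lit 0xd8081],.c (nat_lit 8) (nat_lit 2)],
    .l (nat_lit 12) (nat_lit 960) (nat_lit 4) (nat_lit 0x1cf000001cf0000020000000200000001aa000001aa000001a3000001a3000001a9000001a900000148000001e8000001a0000001a0000001a2000001a2) (nat_lit 0x3100000031000000000000000000000056000000560000005d0000005d000000570000005700000018000000b800000060000000600000005e0000005e)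
    (nat_lit 0x12c19e1cf1cf17312d18a18c19e17817d0d91b128117114119e12c1cf1cf1371792342361780f61bb11713f20f1711711cf1cf2002000e61aa2251e51a90e71481481a019c2141d21cf1cf2002001aa1aa1db19b19d19d1e814a1a019e1ee1ac17912d1aa1aa15c15415914d15111b1940fe14014a14c14c1371731aa0e615415c14d14d15315319c0fe15a15e13214823618c19b1e514d14d14614614014c1770eb14713914b13523418a1db22514d15914614613e14c1830eb1471331451410f617819d0e715311b14c14c1521521a10ff14d15113314717819e19d1a915315113e1401521521950f114714b1891591170d914a1480fe0fe0eb0eb0f10ff12e0900da0e40c40ec1bb17d1e814819c1941831771951a11d012e17e18807818a20f28119e19c15e14a13313914b1511880e414014017c14c13f1b11a01a015a14014714714714d17e0da1401401721421711411ac1d214814c14113515914718a0ec14214c1021441711711ee21413214c14514b1891330780c417217c144102)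
    (nat_lit 0x12c3c03c03c03c03c03c03c03c03c03c03c03c03c03c03c019e12c3c03c03c03c03c03c03c03c03c03c03c03c03c03c01cf1cf2003c03c03c03c03c03c03c03c03c03c03c03c03c01cf1cf2002003c03c03c03c03c03c03c03c03c03c03c03c01731370e61aa15c3c03c03c03c03c03c03c03c03c03c03c012d1791aa1aa15415c3c03c03c03c03c03c03c03c03c03c018a2342251db15914d1463c03c03c03c03c03c03c03c03c018c2361e519b14d14d1461463c03c03c03c03c03c03c03c019e1781a919d15115314013e1523c03c03c03c03c03c03c01780f60e719d11b15314c14c1521523c03c03c03c03c03c017d1bb1481e819419c1771831a119512e3c03c03c03c03c00d911714814a0fe0fe0eb0eb0ff0f109012e3c03c03c03c01b113f1a01a014015a14714714d1470da17e1403c03c03c026120f19c19e14a15e13913315114b0e41881401403c03c01511711c01c214c13214b1451331690c407815c1521023c01411711d21ac14c1481351411471590ec18a14c142144102)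
    (nat_lit 5) (nat_lit 118)
    [[nat_lit 2,nat_lit 3,nat_lit 259,nat_lit 258,nat_lit 274,nat_lit 514,nat_lit 0x1102,nat_lit 0x10102,
    nat_lit 0x1002,nat_lit 0x10002,nat_lit 0x100002,nat_lit 0x10000002,nat_lit 17,nat_lit 257,nat_lit 273,nat_lit 513,
    nat_lit 0x1101,nat_lit 0x10101,nat_lit 0x100101,nat_lit 0x1000101,nat_lit 0x10000101,nat_lit 0x10111,
    nat_lit 0x10001101,nat_lit 0x1001,nat_lit 0x11001,nat_lit 0x10001,nat_lit 0x100001,nat_lit 0x100011,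
    nat_lit 0x101001,nat_lit 0x10000001],[nat_lit 32,nat_lit 288,nat_lit 0x10020,nat_lit 272,nat_lit 528,
    nat_lit 0x10110,nat_lit 0x1010,nat_lit 0x10010,nat_lit 0x100010,nat_lit 0x1000010,nat_lit 0x10000110],
    [nat_lit 512,nat_lit 768,nat_lit 0x10200,nat_lit 0x1100,nat_lit 0x101100,nat_lit 0x10001100,nat_lit 0x10100,
    nat_lit 0x11100,nat_lit 0x20100,nat_lit 0x100100,nat_lit 0x10100100,nat_lit 0x1000100,nat_lit 0x10000100],
    [nat_lit 0x2000,nat_lit 0x11000,nat_lit 0x111000,nat_lit 0x101000,nat_lit 0x10101000,nat_lit 0x1001000,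
    nat_lit 0x1101000,nat_lit 0x10001000],[nat_lit 0x20000,nat_lit 0x110000],[nat_lit 0x200000,nat_lit 0x1100000,
    nat_lit 0x10100000,nat_lit 0x20100000],[nat_lit 0x11000000],[nat_lit 0x20000000,nat_lit 0x30000000]]
    [.c (nat_lit 1) (nat_lit 2),.r (nat_lit 0xdb8) (nat_lit 8) [nat_lit 0x804300a2,nat_lit 0x18041],
    .r (nat_lit 0x1414) (nat_lit 13) [nat_lit 0x80010002,nat_lit 0x84000002,nat_lit 0x84429482,nat_lit 0xc60210a2],
    .r (nat_lit 0x165b) (nat_lit 15) [nat_lit 0x210061,nat_lit 0x18041],.c (nat_lit 0) (nat_lit 0x18c02),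
    .r (nat_lit 0x9d6) (nat_lit 11) [nat_lit 0x400001,nat_lit 0x80300001,nat_lit 0xc6501061,nat_lit 0x4200001,
    nat_lit 0x318041],.r (nat_lit 0x158a) (nat_lit 9) [nat_lit 0x6010002,nat_lit 0x200001,nat_lit 0x84000002,
    nat_lit 0x318041],.r (nat_lit 0x1414) (nat_lit 13) [nat_lit 0x80010002,nat_lit 0x84000002,nat_lit 0x80419482,
    nat_lit 0xc00110a2],.r (nat_lit 0xdb7) (nat_lit 13) [nat_lit 0x18041,nat_lit 0x65110a2],
    .r (nat_lit 0xdb8) (nat_lit 8) [nat_lit 0x844200a2,nat_lit 0x6018082],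
    .r (nat_lit 0xdb1) (nat_lit 10) [nat_lit 0x200001,nat_lit 0x84000002,nat_lit 0x80010002,nat_lit 0x18041],
    .c (nat_lit 2) (nat_lit 0x20803),.c (nat_lit 0) (nat_lit 0x10803),.c (nat_lit 0) (nat_lit 0x6328085),
    .r (nat_lit 0xdb4) (nat_lit 6) [nat_lit 0x84000002,nat_lit 65],.r (nat_lit 0x9d7) (nat_lit 11) [nat_lit 0x800001,
    nat_lit 0x100500001,nat_lit 0x8400001,nat_lit 0x14ab1a0a1,nat_lit 0x318081],.c (nat_lit 0) (nat_lit 0x6328085),
    .r (nat_lit 0x165b) (nat_lit 15) [nat_lit 0x44100a2,nat_lit 0x6018082],.c (nat_lit 0) (nat_lit 0x6328085),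
    .c (nat_lit 0) (nat_lit 0x6000c04),.r (nat_lit 0x1414) (nat_lit 13) [nat_lit 0x80010002,nat_lit 0x84000002,
    nat_lit 0x84401482,nat_lit 0xc60010a2],.c (nat_lit 0) (nat_lit 0x328c04),
    .r (nat_lit 0x163a) (nat_lit 15) [nat_lit 0x6010002,nat_lit 0x84000002,nat_lit 0x64100a2,nat_lit 0x4018082],
    .c (nat_lit 0) (nat_lit 0x6328085),.r (nat_lit 0xdb7) (nat_lit 13) [nat_lit 0x6018082,nat_lit 0x300861],
    .c (nat_lit 1) (nat_lit 0x300804),.c (nat_lit 0) (nat_lit 0x6328085),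
    .r (nat_lit 0x158a) (nat_lit 9) [nat_lit 0x6010002,nat_lit 0x200001,nat_lit 0x84000002,nat_lit 0xc65010a2],
    .c (nat_lit 0) (nat_lit 0x6328085),.r (nat_lit 0xdb8) (nat_lit 8) [nat_lit 0x804100a2,nat_lit 65],
    .c (nat_lit 2) (nat_lit 2),.r (nat_lit 0x9d8) (nat_lit 6) [nat_lit 0x14ad2a041,nat_lit 129,nat_lit 0x420061,
    nat_lit 0x8000a1,nat_lit 0x100500041],.r (nat_lit 0xdb8) (nat_lit 8) [nat_lit 0x86500082,nat_lit 0x48100a2],
    .r (nat_lit 0xdbb) (nat_lit 5) [nat_lit 65,nat_lit 0x84000002],.r (nat_lit 0xdb4) (nat_lit 6) [nat_lit 0x84000002,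
    nat_lit 0x210042],.r (nat_lit 0xdb4) (nat_lit 6) [nat_lit 0x84000002,nat_lit 0x6010082],
    .r (nat_lit 0x13d9) (nat_lit 13) [nat_lit 0x200061,nat_lit 0x80010002,nat_lit 65,nat_lit 0x84000002],
    .c (nat_lit 0) (nat_lit 0x210005),.r (nat_lit 0x163a) (nat_lit 15) [nat_lit 0x6010002,nat_lit 0x84000002,
    nat_lit 0x80411482,nat_lit 0xc00190a2],.r (nat_lit 0xdb8) (nat_lit 8) [nat_lit 65,nat_lit 0x804100a2],
    .c (nat_lit 0) (nat_lit 0x18002),.c (nat_lit 3) (nat_lit 2),.r (nat_lit 0xbdd) (nat_lit 11) [nat_lit 0xc00001,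
    nat_lit 0x180700001,nat_lit 0xc600001,nat_lit 0x1cf33b0a1,nat_lit 129],
    .r (nat_lit 0x9d7) (nat_lit 11) [nat_lit 0x800001,nat_lit 0x100500001,nat_lit 0x8400001,nat_lit 0x146b2a0a1,
    nat_lit 0x6300081],.c (nat_lit 0) (nat_lit 0x6328c85),.c (nat_lit 0) (nat_lit 0x6328085),
    .r (nat_lit 0x158a) (nat_lit 9) [nat_lit 0x6010002,nat_lit 0x200001,nat_lit 0x84000002,nat_lit 0x300041],
    .c (nat_lit 0) (nat_lit 0x6028c85),.c (nat_lit 0) (nat_lit 0x6028c85),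
    .r (nat_lit 0x165b) (nat_lit 15) [nat_lit 0x4200061,nat_lit 0x6000041],.c (nat_lit 0) (nat_lit 0x6328c85),
    .r (nat_lit 0x165b) (nat_lit 6) [nat_lit 0x88411482,nat_lit 0x65190a2],
    .r (nat_lit 0xdb4) (nat_lit 6) [nat_lit 0x84000002,nat_lit 0xc0410082],
    .r (nat_lit 0x165b) (nat_lit 15) [nat_lit 0x200061,nat_lit 65],.c (nat_lit 4) (nat_lit 2),
    .c (nat_lit 0) (nat_lit 0x6028c85),.c (nat_lit 0) (nat_lit 0x6028c85),.c (nat_lit 0) (nat_lit 0x6328c85),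
    .r (nat_lit 0xdb4) (nat_lit 6) [nat_lit 0x84000002,nat_lit 0xc60010a2],
    .r (nat_lit 0x165b) (nat_lit 6) [nat_lit 0x840000a2,nat_lit 65],
    .r (nat_lit 0x165b) (nat_lit 15) [nat_lit 0x4811482,nat_lit 0x65190a2],
    .r (nat_lit 0xdb7) (nat_lit 13) [nat_lit 65,nat_lit 0x65190a2],.c (nat_lit 5) (nat_lit 2),
    .c (nat_lit 0) (nat_lit 0x6028c85),.c (nat_lit 6) (nat_lit 2),.r (nat_lit 0x158a) (nat_lit 9) [nat_lit 0x6010002,
    nat_lit 0x200001,nat_lit 0x84000002,nat_lit 0x69190a2],.r (nat_lit 0xdb1) (nat_lit 10) [nat_lit 0x200001,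
    nat_lit 0x84000002,nat_lit 0x80010002,nat_lit 65],.r (nat_lit 0xffc) (nat_lit 6) [nat_lit 0x90411482,
    nat_lit 0x1065190a2,nat_lit 0x84441482,nat_lit 0x84411481,nat_lit 0xc62190a1],.c (nat_lit 0) (nat_lit 0x6000002),
    .c (nat_lit 8) (nat_lit 2),.r (nat_lit 0x8a4) (nat_lit 9) [nat_lit 0x600061,nat_lit 0x1ced3b062,nat_lit 0xc000042,
    nat_lit 0x180000062,nat_lit 65]]]

/-- nodes -/
noncomputable def rD8k_37_7 : List RJ :=
  [.l (nat_lit 14) (nat_lit 0x984) (nat_lit 5) (nat_lit 0x40e0000040e000003c3000003c300000406000004be000003f9000003f90000047b0000047b000003c5000004790000047e0000047e000003f5000003f5) (nat_lit 0xb0000000b0000000fb000000fb00000000000000b8000000c5000000c5000000430000004300000045000000f90000004000000040000000c9000000c9)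
    (nat_lit 0xd7835e0c4c313065823e0d3c3550f2c28d0edc3150f385020d143010d7835e0c4c31312183700cec3410f2c2790f2434d12085b60d143370c4c3130ab82c80f2c30b11402860d2038e06582ca0e443830be82460c4c3130ab82ae0f2c30b11402860d2038e0e884620ddc34510484120dc023e0c2c30b11f83680ccc33908ac2710ffc3450ab83a20cf434912181960f2c3cb13a047e0fe43f90c6447b11e43bf0a603840fa43f50d043550a182860fe43390cd030a0ef03b612b84620ee43b916a05160cec34f11404500fe43330cb03340ed83b60d703100ee43b311b83dc09e428d0e3838e11ec2710ed83b610a044010f03820e3c4930eb03b20f2c3cb0d203480c6422b0ed83bc11f842810f038213c45f50ec83b20d3431511882ca0efc3450c404620e0838207182860e1437f0bf02460f243b70e8819611e43ff0d704ae10f043c10d01c610fc43909f03b016d85020d143830e103a20ecc3b917d449310e437f10f843e0f1c3af12083ce0ddc3910a602ae0ee43b913c438f10fc38510f843e0fe43b50cdc30110482460fd43490f705160ec83b20ec02460ed43af0cb032c0d1434510482fa0fa433d11b85a80ec83ac09f02fc0fe43c70cb032c)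
    (nat_lit 0xd7898426109842610984261098426109842610984261098426109840d7835e26109842610984261098426109842610984261098426109840c4c3130ab89842610984261098426109842610984261098426109840c4c3130b202ae26109842610984261098426109842610984261098406584860f2c3cb11f89842610984261098426109842610984261098408f83700c2c30b0da047e261098426109842610984261098426109840d3c33b11404500ccc3f90cd098426109842610984261098426109840d543410a182860ce43f90c2833426109842610984261098426109840f043cb0d2034808ac3190ef03b610a09842610984261098426109840a342790e3838e09c440f0ed83b611004282610984261098426109840edc3c906583a20ffc479107035c10f043c0718984261098426109840c5434d0b284620d143bf11883100e083820a181c6261098426109840f384820e443770ab82980ee43b90e3c4c30e1443f10f8984261098414085b60e0c3450e883840ee43b3124c5af0dfc43910f843e26109840d143450be84120cf43e9160046e0eb03b20bf027c0f1c3f90cb09840c0433709184120d243f513303dc0ec83b209183b00ebc3b50cb032c)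
    (nat_lit 6) (nat_lit 81)
    [[nat_lit 2,nat_lit 258,nat_lit 0x10000002,nat_lit 17,nat_lit 257,nat_lit 513,nat_lit 0x1000101,nat_lit 769,
    nat_lit 0x10000101,nat_lit 0x1001,nat_lit 0x1001001,nat_lit 0x10001001,nat_lit 0x1010001,nat_lit 0x100001,
    nat_lit 0x1100001,nat_lit 0x10100001,nat_lit 0x1000001,nat_lit 0x2000001,nat_lit 0x11000001,nat_lit 0x10000001],
    [nat_lit 32,nat_lit 272,nat_lit 0x1000110,nat_lit 0x101010,nat_lit 0x10010,nat_lit 0x100010,nat_lit 0x1100010,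
    nat_lit 0x1000010],[nat_lit 512,nat_lit 768,nat_lit 0x400,nat_lit 0x500,nat_lit 0x1000200,nat_lit 0x1010200,
    nat_lit 0x2000200,nat_lit 0x10000200,nat_lit 0x1100,nat_lit 0x10100,nat_lit 0x20100,nat_lit 0x1010100,
    nat_lit 0x100100,nat_lit 0x10100100,nat_lit 0x1000100,nat_lit 0x1001100,nat_lit 0x1100100,nat_lit 0x2000100,
    nat_lit 0x11000100,nat_lit 0x10000100],[nat_lit 0x2000,nat_lit 0x11000,nat_lit 0x101000,nat_lit 0x10101000,
    nat_lit 0x1001000,nat_lit 0x11001000,nat_lit 0x10001000],[nat_lit 0x20000,nat_lit 0x30000,nat_lit 0x1020000,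
    nat_lit 0x110000,nat_lit 0x10110000,nat_lit 0x1010000,nat_lit 0x10010000,nat_lit 0x11010000],[nat_lit 0x200000,
    nat_lit 0x1100000,nat_lit 0x11100000,nat_lit 0x10100000,nat_lit 0x20100000],[nat_lit 0x2000000,nat_lit 0x3000000,
    nat_lit 0x12000000,nat_lit 0x11000000],[nat_lit 0x20000000]]
    [.c (nat_lit 1) (nat_lit 2),.r (nat_lit 0x151b) (nat_lit 14) [nat_lit 0x140181,nat_lit 0x80000001,
    nat_lit 0x2080003],.r (nat_lit 0x161e) (nat_lit 2) [nat_lit 0x20000000c2,nat_lit 0x2080003],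
    .r (nat_lit 0xdb9) (nat_lit 11) [nat_lit 0x1820801c3,nat_lit 129],.c (nat_lit 0) (nat_lit 0x1cd14030d),
    .r (nat_lit 0x151b) (nat_lit 14) [nat_lit 0xc0182,nat_lit 0x80000001,nat_lit 0x2080003],
    .c (nat_lit 0) (nat_lit 0x1cd14030d),.r (nat_lit 0xcd6) (nat_lit 8) [nat_lit 0x12000000001,nat_lit 0xc000001,
    nat_lit 0x900000001,nat_lit 0x140301,nat_lit 0x300001],.r (nat_lit 0x1571) (nat_lit 9) [nat_lit 0x80001,
    nat_lit 0x2000001,nat_lit 0x80000001,nat_lit 0x1c30061c1],.r (nat_lit 0xdba) (nat_lit 11) [nat_lit 129,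
    nat_lit 0x1820801c3],.r (nat_lit 0x152e) (nat_lit 0) [nat_lit 0x80001,nat_lit 0x2000001,nat_lit 0x80000001,
    nat_lit 0x1c00c0181],.r (nat_lit 0xead) (nat_lit 4) [nat_lit 0x80001,nat_lit 0x2000001,nat_lit 0x80000001,
    nat_lit 0x1c00c0181,nat_lit 0x61800801c1],.c (nat_lit 0) (nat_lit 0xc3006),.c (nat_lit 0) (nat_lit 0x18000400d),
    .r (nat_lit 0x152a) (nat_lit 10) [nat_lit 0x2080003,nat_lit 0x80000001,nat_lit 0x2080003081,nat_lit 0x71c5146183],
    .r (nat_lit 0x161e) (nat_lit 2) [nat_lit 0x20000000c1,nat_lit 0x2080003],.c (nat_lit 0) (nat_lit 0x1cd14030d),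
    .r (nat_lit 0x164b) (nat_lit 0) [nat_lit 0xc0082,nat_lit 0x2080003,nat_lit 0x80000001],
    .r (nat_lit 0xeae) (nat_lit 14) [nat_lit 0x80001,nat_lit 0x2000001,nat_lit 0x80000001,nat_lit 0x2000000001,
    nat_lit 0x734500c341],.r (nat_lit 0x161e) (nat_lit 13) [nat_lit 0x30c0183,nat_lit 0x2080003],
    .c (nat_lit 2) (nat_lit 2),.r (nat_lit 0x1654) (nat_lit 5) [nat_lit 0x2080003,nat_lit 0x182087183,
    nat_lit 0x1c30c6003],.r (nat_lit 0xdbe) (nat_lit 11) [nat_lit 0x2080003,nat_lit 0x6182087183],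
    .c (nat_lit 0) (nat_lit 0x1cd0c3186),.r (nat_lit 0xdba) (nat_lit 11) [nat_lit 0x1820801c3,nat_lit 129],
    .r (nat_lit 0xdbe) (nat_lit 11) [nat_lit 0x2080003,nat_lit 129],.r (nat_lit 0xdb7) (nat_lit 6) [nat_lit 0x2080003,
    nat_lit 0x30c61c3],.r (nat_lit 0x1668) (nat_lit 10) [nat_lit 0x80001,nat_lit 0x2000001,nat_lit 0xc0000081,
    nat_lit 0x80000001,nat_lit 0x6002087183],.c (nat_lit 3) (nat_lit 2),.r (nat_lit 0x151b) (nat_lit 14) [nat_lit 129,
    nat_lit 0x80000001,nat_lit 0x2080003],.r (nat_lit 0xcd7) (nat_lit 8) [nat_lit 0x6000000001,nat_lit 0x4000001,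
    nat_lit 0x300000001,nat_lit 386,nat_lit 0x100001],.r (nat_lit 0x8a3) (nat_lit 8) [nat_lit 0x1e000000001,
    nat_lit 0x14000001,nat_lit 0xf00000001,nat_lit 769,nat_lit 0x500001],.c (nat_lit 0) (nat_lit 0x1cd145307),
    .r (nat_lit 0xeae) (nat_lit 14) [nat_lit 0x80001,nat_lit 0x2000001,nat_lit 0x80000001,nat_lit 0x2000000001,
    nat_lit 0x630010d301],.c (nat_lit 6) (nat_lit 0x30c104346),.c (nat_lit 0) (nat_lit 0x1cd145307),
    .r (nat_lit 0x1654) (nat_lit 7) [nat_lit 0x2080003,nat_lit 0x182087183,nat_lit 0x1c30c6003],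
    .r (nat_lit 0x151b) (nat_lit 14) [nat_lit 0x3000181,nat_lit 0x80000001,nat_lit 0x2080003],
    .c (nat_lit 0) (nat_lit 0x140006),.r (nat_lit 0x161e) (nat_lit 2) [nat_lit 0x2080003081,nat_lit 0x2080003],
    .c (nat_lit 0) (nat_lit 0x70c3187),.c (nat_lit 0) (nat_lit 0x70c3187),.c (nat_lit 0) (nat_lit 0x1c70c3187),
    .r (nat_lit 0x1404) (nat_lit 7) [nat_lit 0x70030c61c3,nat_lit 0x6182087183,nat_lit 0x2080003,
    nat_lit 0x2000000001],.c (nat_lit 6) (nat_lit 0x1860821c6),.c (nat_lit 0) (nat_lit 0x1cd145307),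
    .c (nat_lit 0) (nat_lit 0x1cd145307),.c (nat_lit 0) (nat_lit 0x1cd14530d),.c (nat_lit 4) (nat_lit 2),
    .r (nat_lit 0xdb9) (nat_lit 11) [nat_lit 129,nat_lit 0x1820801c3],
    .r (nat_lit 0x1404) (nat_lit 7) [nat_lit 0x800000c1,nat_lit 129,nat_lit 0x2080003,nat_lit 0x2000000001],
    .r (nat_lit 0xdbe) (nat_lit 11) [nat_lit 0x2080003,nat_lit 0x20800000c1],
    .r (nat_lit 0xe06) (nat_lit 12) [nat_lit 0x80001,nat_lit 0x2000001,nat_lit 0x80000001,nat_lit 0x2000000001,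
    nat_lit 129],.r (nat_lit 0xdb7) (nat_lit 11) [nat_lit 0x2080003,nat_lit 129],
    .r (nat_lit 0xdbe) (nat_lit 13) [nat_lit 129,nat_lit 0x2080003],.c (nat_lit 5) (nat_lit 2),
    .c (nat_lit 0) (nat_lit 0xc0002),.c (nat_lit 0) (nat_lit 0x140006),
    .r (nat_lit 0x161e) (nat_lit 2) [nat_lit 0x30c0183,nat_lit 0x2080003],.c (nat_lit 0) (nat_lit 0x1c014000c),
    .r (nat_lit 0x164b) (nat_lit 0) [nat_lit 0x30c0183,nat_lit 0x2080003,nat_lit 0x80000001],
    .r (nat_lit 0x161e) (nat_lit 2) [nat_lit 0x60021401c6,nat_lit 0x2080003],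
    .r (nat_lit 0x15ed) (nat_lit 14) [nat_lit 0x80000001,nat_lit 0x2080003,nat_lit 0x2000000001,nat_lit 0x30c0183],
    .c (nat_lit 6) (nat_lit 2),.c (nat_lit 0) (nat_lit 0x70c3187),.c (nat_lit 0) (nat_lit 0x70c3187),
    .c (nat_lit 0) (nat_lit 0x80000003),.r (nat_lit 0x161e) (nat_lit 2) [nat_lit 0x40000c00c3,nat_lit 0x2080003],
    .c (nat_lit 7) (nat_lit 2),.r (nat_lit 0x164b) (nat_lit 0) [nat_lit 0xc0083,nat_lit 0x2080003,nat_lit 0x80000001],
    .c (nat_lit 0) (nat_lit 0x1cd145307),.c (nat_lit 0) (nat_lit 0x1cd14530d),.c (nat_lit 8) (nat_lit 2)],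
    .l (nat_lit 12) (nat_lit 960) (nat_lit 3) (nat_lit 0x256000001ec000001c6000001c6000001d3000001d3000001d4000001d4000001dc000001dc000001d0000001d0000001d2000001d2000001eb000001eb) (nat_lit 0x6a000000000000009000000090000000830000008300000082000000820000007a0000007a000000860000008600000084000000840000006b0000006b)
    (nat_lit 0x1ec2561c61c61051d31d41d41dc0f022023c1d21d21eb1eb16a1ec15c15c16d15116a17e1721721841a016816818117115c1c614e14e12f14314414011214c14014015212415b15b15c1c616214e14314314e15414416013c13614e13415b1571511d314314314012413d15116314f15b15515315316815c16d10514312f15c14014b15117f15f15b14114d14f16816c17e1d415414015115114c14616616014e12814c14223716b16a1d414e14414b13d14a14c15a15a14e14e1501682551891720f016014c15f14f15a16016216a13e1561381581711711721dc14411217f16315a1661621621561561401581051711a023c13614014115514e12815615614a14a14c14c16517d18422013c14015b15b14e14e15613e14a14a13014c1651651681d213412414f15316814215815814c14c14e14e1171831681d214e15214d15315014c14013813014c16814e1671671711eb15715b16c15c18916b17117116517d1671831801661811eb15b15b168168255237105171165165167117180180)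
    (nat_lit 0x1ec3c03c03c03c03c03c03c03c03c03c03c03c03c03c03c02561ec3c03c03c03c03c03c03c03c03c03c03c03c03c03c01c615c14e3c03c03c03c03c03c03c03c03c03c03c03c03c01c615c14e14e3c03c03c03c03c03c03c03c03c03c03c03c010516d12f1431403c03c03c03c03c03c03c03c03c03c03c01d31511431431241403c03c03c03c03c03c03c03c03c03c01d416a14414e13d14b14c3c03c03c03c03c03c03c03c03c01d417e14015415115114614c3c03c03c03c03c03c03c03c01dc17211214416317f16615a1623c03c03c03c03c03c03c00f017214c16014f15f16015a16a1623c03c03c03c03c03c022018414013c15b15b14e14e13e15614a3c03c03c03c03c023c1a014013615514112814e15615614a14a3c03c03c03c01d216815214e15314d14c15013814014c13014e3c03c03c01d216812413415314f14216815815814c14c14e14e3c03c01eb18115b15b1681682372551711051651651171671803c01eb17115b15715c16c16b18917117117d165183167166180)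
    (nat_lit 3) (nat_lit 47)
    [[nat_lit 2,nat_lit 17,nat_lit 257,nat_lit 0x1001,nat_lit 0x1001001,nat_lit 0x10001001,nat_lit 0x100001,
    nat_lit 0x1000001,nat_lit 0x10000001],[nat_lit 32,nat_lit 272,nat_lit 0x1000110,nat_lit 0x1010,nat_lit 0x1001010,
    nat_lit 0x10001010,nat_lit 0x10010,nat_lit 0x1010010,nat_lit 0x100010,nat_lit 0x1100010,nat_lit 0x1000010,
    nat_lit 0x10000010],[nat_lit 512,nat_lit 0x1100,nat_lit 0x1001100,nat_lit 0x10100,nat_lit 0x100100,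
    nat_lit 0x1000100,nat_lit 0x1010100],[nat_lit 0x2000,nat_lit 0x11000,nat_lit 0x101000,nat_lit 0x1001000,
    nat_lit 0x1101000,nat_lit 0x11001000,nat_lit 0x10001000],[nat_lit 0x20000,nat_lit 0x110000,nat_lit 0x1010000,
    nat_lit 0x10010000],[nat_lit 0x200000,nat_lit 0x1200000,nat_lit 0x10200000,nat_lit 0x1100000,nat_lit 0x10100000,
    nat_lit 0x11100000],[nat_lit 0x2000000,nat_lit 0x11000000],[]]
    [.c (nat_lit 1) (nat_lit 2),.c (nat_lit 0) (nat_lit 0x12083),.r (nat_lit 0xdb4) (nat_lit 11) [nat_lit 17,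
    nat_lit 0xdb681],.c (nat_lit 0) (nat_lit 0x12083),.c (nat_lit 1) (nat_lit 0x20c2),
    .r (nat_lit 0xdb2) (nat_lit 5) [nat_lit 0x92419,nat_lit 0xdb681],.c (nat_lit 0) (nat_lit 0x12003),
    .r (nat_lit 0x1608) (nat_lit 8) [nat_lit 0x824d1,nat_lit 0x2001,nat_lit 0xc3681],
    .r (nat_lit 0xdbb) (nat_lit 13) [nat_lit 17,nat_lit 0xc0699],.c (nat_lit 2) (nat_lit 2),
    .r (nat_lit 0xdb2) (nat_lit 5) [nat_lit 17,nat_lit 0xdb681],.r (nat_lit 3) (nat_lit 5) [nat_lit 0xc3681,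
    nat_lit 0x2001,nat_lit 0xdb681,nat_lit 0x82419],.c (nat_lit 0) (nat_lit 0x10105),.c (nat_lit 0) (nat_lit 0x10103),
    .r (nat_lit 0xdb4) (nat_lit 11) [nat_lit 0x92419,nat_lit 0xdb681],
    .r (nat_lit 0x1290) (nat_lit 5) [nat_lit 0x824d1,nat_lit 0x2001,nat_lit 0xc3681,nat_lit 0x13699],
    .r (nat_lit 0xdc2) (nat_lit 13) [nat_lit 0x2001,nat_lit 17],.c (nat_lit 0) (nat_lit 0x10005),
    .c (nat_lit 0) (nat_lit 0x10083),.c (nat_lit 0) (nat_lit 0x10103),
    .r (nat_lit 0x165b) (nat_lit 15) [nat_lit 0x3011,nat_lit 0x2001],.c (nat_lit 3) (nat_lit 2),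
    .r (nat_lit 0x15cf) (nat_lit 13) [nat_lit 0x2419,nat_lit 0xc3681,nat_lit 0x611],
    .r (nat_lit 0xdb4) (nat_lit 11) [nat_lit 0x10611,nat_lit 0xdb681],
    .r (nat_lit 0xdbb) (nat_lit 13) [nat_lit 0xc0699,nat_lit 17],.r (nat_lit 0x15cf) (nat_lit 13) [nat_lit 0x2019,
    nat_lit 0xc3681,nat_lit 17],.r (nat_lit 0xdb7) (nat_lit 14) [nat_lit 17,nat_lit 0x90001],
    .r (nat_lit 0xdbe) (nat_lit 13) [nat_lit 0xd8099,nat_lit 0xc3681],.c (nat_lit 4) (nat_lit 2),
    .c (nat_lit 0) (nat_lit 0x1b613),.c (nat_lit 4) (nat_lit 130),.c (nat_lit 0) (nat_lit 0x3083),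
    .c (nat_lit 0) (nat_lit 0x10083),.r (nat_lit 0xdbb) (nat_lit 13) [nat_lit 0x10611,nat_lit 0xd8099],
    .r (nat_lit 0xdbe) (nat_lit 13) [nat_lit 17,nat_lit 0xc3681],.c (nat_lit 5) (nat_lit 2),
    .c (nat_lit 0) (nat_lit 0x1b6d3),.c (nat_lit 0) (nat_lit 0x1b613),
    .r (nat_lit 0xdb4) (nat_lit 11) [nat_lit 0xc0699,nat_lit 0xdb681],.c (nat_lit 6) (nat_lit 2),
    .c (nat_lit 0) (nat_lit 0x10003),.r (nat_lit 3) (nat_lit 5) [nat_lit 0xc3681,nat_lit 0x2001,nat_lit 0xdb681,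
    nat_lit 0x411],.c (nat_lit 0) (nat_lit 0x3003),.r (nat_lit 0xdbe) (nat_lit 13) [nat_lit 0x411,nat_lit 0xc3681],
    .r (nat_lit 0xdbb) (nat_lit 13) [nat_lit 0x10011,nat_lit 0xd8699],.c (nat_lit 7) (nat_lit 2),
    .r (nat_lit 0xdb2) (nat_lit 4) [nat_lit 17,nat_lit 0xd8099]]]

/-- nodes -/
noncomputable def rD8k_37_8 : List RJ :=
  [.l (nat_lit 15) (nat_lit 0x1140) (nat_lit 3) (nat_lit 0x7a7000007a7000007ad000007ad000007d5000007d5000007c1000007c100000779000007790000092e0000092e00000777000007770000078c0000078c) (nat_lit 0x18700000187000001810000018100000159000001590000016d0000016d000001b5000001b50000000000000000000001b7000001b7000001a2000001a2)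
    (nat_lit 0xe00188028706260a8c1b684a507b607941cd837284430af41618302866f0c801c0031306260b9c18684c507f60bb419d83d387a70b34161830285af0c4c1898330060c093019502de06c00bf00aa040b87c50c9817d829586610c4c143832a06600ca8195032006040bf016f04bd89290c0014d02bf85b50c341b6832a06540d70195035206680948188044b87d50ce811403a586290b9c151832a04980cf81ae027406680c4018104b588a90c70187825b86350fec1ed830206c00cd019a033806540a701e303e087c10c1011d039386051314252832005bc09d01a9023e06700c18183030384e50e18198026d86210cec1cd82de02a80c081880306078c11401e7039187790b801df016384d50bb40f282fc05f80c4012903060538134822803bc87790808170849d88190f4e110c49487c511521f5427287c10ef21de4497054e0a6a1ddc4da094a0f4e1b944bd881712d6225c30387c10ef21c8c3b9092e0eee1ddc3fb078c0b0c161829a05f60c3c114033004740b841df03bb87770b801df034b85d50b3415e8300064c0c7019d03860608080817003bb85350cd817002b585d50b5e19bc2da86610c6a18a43108605103213543c6094a0baa1754330053e0c0a18142bf852b096e1d2c26d872712760b1c3fb09b40ad61a5c2f50660)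
    (nat_lit 0xe0045008a01140228045008a01140228045008a01140228045008a011400c401c008a01140228045008a01140228045008a01140228045008a011400a1c18983301140228045008a01140228045008a01140228045008a011400c4c18983060660228045008a01140228045008a01140228045008a011400a8c173824c06540d7045008a01140228045008a01140228045008a011400db4186832a06540ca81ae08a01140228045008a01140228045008a01140129426282de06400d4813a03381140228045008a01140228045008a011400f6c1fd836006040cd019a032a0670228045008a01140228045008a01140079417682fc05f80948188029c060c114045008a01140228045008a011400e6c19d815405bc0c4018103c6060c0f3822808a01140228045008a011400dca1e9c40b897b112e25ac3e086070e461de44971140228045008a0114008861e9c3e289290faa22a43e084e50ef21de42a7092e228045008a011400af4166832606000ce818e0304070c0b80101029a87770b8045008a011400b0c16182fb053408a0187823a06600ef817083bb87770ef817008a011400c0a1814295857f0e9612dc39384db058e24ec4da07f60d2e15ac33011400cde16bc33085b50c5218d4302862109aa20644a5078c0baa175429f0660)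
    (nat_lit 4) (nat_lit 83)
    [[nat_lit 2,nat_lit 17,nat_lit 0x1011,nat_lit 33,nat_lit 0x10011,nat_lit 0x100011,nat_lit 0x1000011,
    nat_lit 0x10000011,nat_lit 0x1001,nat_lit 0x11001,nat_lit 0x101001,nat_lit 0x1001001,nat_lit 0x10001001,
    nat_lit 0x10001,nat_lit 0x100001,nat_lit 0x1100001,nat_lit 0x1000001,nat_lit 0x1000002,nat_lit 0x11000001,
    nat_lit 0x10000001],[nat_lit 32,nat_lit 0x100020,nat_lit 0x10000020,nat_lit 272,nat_lit 0x10110,nat_lit 0x1010,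
    nat_lit 0x11010,nat_lit 0x101010,nat_lit 0x1001010,nat_lit 0x10001010,nat_lit 0x10010,nat_lit 0x20010,
    nat_lit 0x110010,nat_lit 0x1010010,nat_lit 0x100010,nat_lit 0x1100010,nat_lit 0x1000010,nat_lit 0x11000010,
    nat_lit 0x10000010,nat_lit 0x10100010],[nat_lit 512,nat_lit 0x1100,nat_lit 0x10100,nat_lit 0x10000100],
    [nat_lit 0x11000,nat_lit 0x111000,nat_lit 0x1011000,nat_lit 0x101000,nat_lit 0x1101000,nat_lit 0x10101000,
    nat_lit 0x1001000,nat_lit 0x2001000,nat_lit 0x10001000,nat_lit 0x11001000],[nat_lit 0x20000,nat_lit 0x110000,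
    nat_lit 0x1010000],[nat_lit 0x200000,nat_lit 0x1100000,nat_lit 0x11100000,nat_lit 0x10100000],[nat_lit 0x2000000,
    nat_lit 0x11000000],[nat_lit 0x20000000]]
    [.c (nat_lit 1) (nat_lit 2),.c (nat_lit 0) (nat_lit 0x330023),.c (nat_lit 0) (nat_lit 0x330023),
    .r (nat_lit 0xdbb) (nat_lit 13) [nat_lit 0x30021,nat_lit 0x2222031],
    .r (nat_lit 0xdb5) (nat_lit 14) [nat_lit 0x200001,nat_lit 0x300231],
    .r (nat_lit 0xdb5) (nat_lit 6) [nat_lit 0x2000001,nat_lit 33],.c (nat_lit 0) (nat_lit 0x330023),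
    .r (nat_lit 0x1140) (nat_lit 15) [nat_lit 0x202001,nat_lit 0x200001,nat_lit 0x323021,nat_lit 0x535041,
    nat_lit 0x6424051],.c (nat_lit 0) (nat_lit 0x553045),.r (nat_lit 0x1293) (nat_lit 3) [nat_lit 0x2000001,
    nat_lit 0x200001,nat_lit 0x202001,nat_lit 0x3303021],.r (nat_lit 0x117f) (nat_lit 11) [nat_lit 0x2001,
    nat_lit 0x200001,nat_lit 0x3021,nat_lit 0x2000001],.c (nat_lit 0) (nat_lit 0x330023),
    .r (nat_lit 0x1561) (nat_lit 11) [nat_lit 0x2001,nat_lit 0x200001,nat_lit 0x2000001,nat_lit 0x3300231],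
    .r (nat_lit 0xdbb) (nat_lit 2) [nat_lit 0x3021,nat_lit 0x202001],.c (nat_lit 1) (nat_lit 514),
    .r (nat_lit 0x15a6) (nat_lit 2) [nat_lit 0x3021,nat_lit 0x2000001,nat_lit 0x402031,nat_lit 0x2021],
    .c (nat_lit 0) (nat_lit 0x553045),.r (nat_lit 0x15a6) (nat_lit 2) [nat_lit 0x5021,nat_lit 0x2000001,
    nat_lit 0x404031,nat_lit 33],.r (nat_lit 0x156b) (nat_lit 4) [nat_lit 0x3001,nat_lit 0x202001,nat_lit 0x2200321,
    nat_lit 0x300231],.r (nat_lit 0xdbb) (nat_lit 13) [nat_lit 33,nat_lit 0x2202031],.c (nat_lit 2) (nat_lit 2),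
    .r (nat_lit 0xdbb) (nat_lit 13) [nat_lit 0x32021,nat_lit 0x2220031],.c (nat_lit 5) (nat_lit 0x402003),
    .r (nat_lit 0xdb5) (nat_lit 14) [nat_lit 0x200001,nat_lit 0x3533221],.c (nat_lit 0) (nat_lit 0x553322),
    .c (nat_lit 0) (nat_lit 0x330023),.r (nat_lit 0x156b) (nat_lit 4) [nat_lit 0x3001,nat_lit 0x202001,
    nat_lit 0x2000031,nat_lit 33],.c (nat_lit 0) (nat_lit 0x330323),.c (nat_lit 0) (nat_lit 0x330023),
    .r (nat_lit 0xdb4) (nat_lit 11) [nat_lit 0x202001,nat_lit 0x303231],.c (nat_lit 0) (nat_lit 0x202003),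
    .r (nat_lit 0xdaf) (nat_lit 8) [nat_lit 0x200001,nat_lit 0x202001,nat_lit 0x2000001,nat_lit 0x4020031],
    .r (nat_lit 0xdb5) (nat_lit 14) [nat_lit 0x200001,nat_lit 0x303231],
    .r (nat_lit 0x1561) (nat_lit 11) [nat_lit 0x2001,nat_lit 0x200001,nat_lit 0x2000001,nat_lit 0x3000021],
    .c (nat_lit 0) (nat_lit 0x330323),.c (nat_lit 0) (nat_lit 0x330323),.c (nat_lit 0) (nat_lit 0x330323),
    .r (nat_lit 0x1293) (nat_lit 3) [nat_lit 0x2000001,nat_lit 0x200001,nat_lit 0x202001,nat_lit 0x3503231],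
    .r (nat_lit 0xdaf) (nat_lit 8) [nat_lit 0x200001,nat_lit 0x202001,nat_lit 0x2000001,nat_lit 33],
    .r (nat_lit 0x1140) (nat_lit 15) [nat_lit 0x202001,nat_lit 0x200001,nat_lit 0x320021,nat_lit 0x530041,
    nat_lit 0x6420051],.c (nat_lit 3) (nat_lit 2),.r (nat_lit 0x14da) (nat_lit 2) [nat_lit 0x3001,nat_lit 0x303021,
    nat_lit 0x202001],.r (nat_lit 0xdbb) (nat_lit 13) [nat_lit 0x2202031,nat_lit 33],
    .r (nat_lit 0xdbb) (nat_lit 2) [nat_lit 0x2200031,nat_lit 0x202001],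
    .r (nat_lit 0xdb8) (nat_lit 14) [nat_lit 0x200001,nat_lit 33],.r (nat_lit 0x1293) (nat_lit 3) [nat_lit 0x2000001,
    nat_lit 0x200001,nat_lit 0x202001,nat_lit 0x3300021],.r (nat_lit 0x1140) (nat_lit 15) [nat_lit 0x202001,
    nat_lit 0x200001,nat_lit 0x523231,nat_lit 0x935451,nat_lit 0x6824541],.c (nat_lit 0) (nat_lit 0x553545),
    .c (nat_lit 0) (nat_lit 0x330323),.r (nat_lit 0x1561) (nat_lit 11) [nat_lit 0x2001,nat_lit 0x200001,
    nat_lit 0x2000001,nat_lit 0x3303231],.c (nat_lit 0) (nat_lit 0x553045),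
    .r (nat_lit 0x156d) (nat_lit 0) [nat_lit 0x3001,nat_lit 0x2000001,nat_lit 0x202001,nat_lit 0x20001,
    nat_lit 0x4420541],.r (nat_lit 0x1646) (nat_lit 6) [nat_lit 0x2000031,nat_lit 0x200001,nat_lit 33],
    .r (nat_lit 0xdb5) (nat_lit 14) [nat_lit 0x200001,nat_lit 33],.c (nat_lit 5) (nat_lit 2),
    .r (nat_lit 0xdbb) (nat_lit 2) [nat_lit 33,nat_lit 0x202001],.r (nat_lit 0x165b) (nat_lit 0) [nat_lit 0x3000021,
    nat_lit 0x2000001],.c (nat_lit 6) (nat_lit 2),.c (nat_lit 0) (nat_lit 0x553545),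
    .r (nat_lit 0x156b) (nat_lit 4) [nat_lit 0x3001,nat_lit 0x202001,nat_lit 0x2202321,nat_lit 0x303231],
    .r (nat_lit 0xdbb) (nat_lit 13) [nat_lit 0x2021,nat_lit 0x2200031],.c (nat_lit 7) (nat_lit 2),
    .r (nat_lit 0x15aa) (nat_lit 4) [nat_lit 0x200001,nat_lit 0x2200321,nat_lit 0x3300201],
    .c (nat_lit 8) (nat_lit 2)],
    .l (nat_lit 12) (nat_lit 720) (nat_lit 3) (nat_lit 0x1580000015800000153000001530000017100000171000001aa000001420000015800000158000001510000015100000151000001510000015300000153) (nat_lit 0x52000000520000005700000057000000390000003900000068000000000000005200000052000000590000005900000059000000590000005700000057)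
    (nat_lit 0x1061061031010c111d1121b61060d20f50f50ff0ff1011011061060ff10111f11911a1be1061060ff0ff0ff0ff1011011011011020fc0b411c0eb1531010d70fa0fa0fa0fa0fc0fc0ff10310010211a11a0eb1230fd1010fa0fa0f60e00fe10411911d11a11c16813410917111f11f13211c11011811811e11f0c111a0b419a16810917111f11f1b419e0ba1180bc10a1be1b61231531711711421480d21581511511610b51b11b111a1120eb0eb1091090bc1420da0f00e90e10e90cb11f11f1060d21010d711f11f0f015810e12411d1150cb0ff0df1011061060fd10111f11f0da0d210610e0ff0ff0ff10710b1010ff0f50fa0fa19e11c0e11510ff1150f00f80f80f80fa0fa0ff0f50fa0fa1b41320e91510ff11d0ea0f00f80f80fa0f20ff0ff0e00fa1181180cb0b51070ff0f80f81001061040fa0ff0ff0f60fa0ba1100e91610ff0cb0f80f80f81000fa0fa1011011040fc10a11e11f1b11011010f20fa0fa0fa0fc0fc1011010fe0fc0bc11811f1b110b0df0fa0fa0fa1040fc0fc)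
    (nat_lit 0x1062d02d02d02d02d02d02d02d02d02d02d02d02d02d02d01061062d02d02d02d02d02d02d02d02d02d02d02d02d02d01030ff1022d02d02d02d02d02d02d02d02d02d02d02d02d01011010fc1022d02d02d02d02d02d02d02d02d02d02d02d00c111f0b411a1682d02d02d02d02d02d02d02d02d02d02d011d11911c11a1341682d02d02d02d02d02d02d02d02d02d011211a0eb0eb1091091422d02d02d02d02d02d02d02d02d01b61be1531231711711481422d02d02d02d02d02d02d02d01061061010fd11f11f0d20da10e2d02d02d02d02d02d02d00d21060d710111f11f1580f012410e2d02d02d02d02d02d00f50ff0fa0fa1321ae1510e911d0ff0f02d02d02d02d02d00f50ff0fa0fa11c19e1510e11150ff0f80f02d02d02d02d00ff0ff0fa0f61100ba1610e90cb0ff0f80f81002d02d02d00ff0ff0fa0e01181180b50cb0ff1070f80f81061002d02d01011010fc0fe1180bc1af11f0df10b0fa0fa1040fa0fc2d01011010fc10411e10a1af11f1011010fa0f20fa0fa0fc0fc)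
    (nat_lit 3) (nat_lit 47)
    [[nat_lit 2,nat_lit 17,nat_lit 0x10011,nat_lit 257,nat_lit 0x1001,nat_lit 0x100001,nat_lit 0x100011,
    nat_lit 0x100101,nat_lit 0x1000001,nat_lit 0x10000001],[nat_lit 32,nat_lit 0x10020,nat_lit 272,nat_lit 0x10110,
    nat_lit 0x1010,nat_lit 0x1110,nat_lit 0x11010,nat_lit 0x1001010,nat_lit 0x10010,nat_lit 0x100010,nat_lit 0x110010,
    nat_lit 0x1100010,nat_lit 0x100110,nat_lit 0x1000010,nat_lit 0x1010010,nat_lit 0x10000010,nat_lit 0x10010010],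
    [nat_lit 512,nat_lit 0x1100,nat_lit 0x10100,nat_lit 0x1000100,nat_lit 0x1100100,nat_lit 0x10000100],
    [nat_lit 0x2000,nat_lit 0x11000,nat_lit 0x1011000,nat_lit 0x10011000,nat_lit 0x101000,nat_lit 0x1001000,
    nat_lit 0x10001000],[nat_lit 0x20000,nat_lit 0x110000,nat_lit 0x1010000],[nat_lit 0x200000,nat_lit 0x1100000,
    nat_lit 0x10100000],[nat_lit 0x2000000,nat_lit 0x11000000],[nat_lit 0x20000000]]
    [.c (nat_lit 1) (nat_lit 2),.c (nat_lit 0) (nat_lit 0x1b013),.c (nat_lit 0) (nat_lit 0x180c2),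
    .r (nat_lit 0xdbb) (nat_lit 2) [nat_lit 0x90419,nat_lit 17],.c (nat_lit 0) (nat_lit 0x1b613),
    .r (nat_lit 0xdba) (nat_lit 6) [nat_lit 0x80001,nat_lit 17],.r (nat_lit 0xdb5) (nat_lit 6) [nat_lit 0x80001,
    nat_lit 17],.c (nat_lit 0) (nat_lit 0x3002),.c (nat_lit 0) (nat_lit 0x2d6e3),.c (nat_lit 1) (nat_lit 130),
    .c (nat_lit 2) (nat_lit 2),.c (nat_lit 0) (nat_lit 0x3db62),.r (nat_lit 0xdb7) (nat_lit 6) [nat_lit 0x80401,
    nat_lit 0xdb691],.c (nat_lit 0) (nat_lit 0x2b6d2),.c (nat_lit 0) (nat_lit 0x1b0d3),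
    .r (nat_lit 0xdb6) (nat_lit 11) [nat_lit 0x80401,nat_lit 0xc0699],.c (nat_lit 0) (nat_lit 0x2b6d2),
    .c (nat_lit 0) (nat_lit 0x1b013),.c (nat_lit 0) (nat_lit 0x2b6d2),
    .r (nat_lit 0xdbe) (nat_lit 11) [nat_lit 0x80401,nat_lit 17],.c (nat_lit 0) (nat_lit 0x2b6d2),
    .r (nat_lit 0xdb7) (nat_lit 6) [nat_lit 0x80401,nat_lit 0xc0699],.c (nat_lit 0) (nat_lit 0x3002),
    .c (nat_lit 0) (nat_lit 0x403),.c (nat_lit 0) (nat_lit 0x2b6d2),.c (nat_lit 0) (nat_lit 0x1b0d3),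
    .c (nat_lit 0) (nat_lit 0x18002),.c (nat_lit 3) (nat_lit 2),.r (nat_lit 0x15aa) (nat_lit 14) [nat_lit 0x80001,
    nat_lit 0x900d1,nat_lit 0xd8081],.r (nat_lit 0xdba) (nat_lit 6) [nat_lit 0x80001,nat_lit 0x90419],
    .r (nat_lit 0xdc1) (nat_lit 11) [nat_lit 17,nat_lit 0x80401],.c (nat_lit 2) (nat_lit 0x2403),
    .r (nat_lit 0xdbb) (nat_lit 2) [nat_lit 0x90019,nat_lit 0x411],.c (nat_lit 4) (nat_lit 2),
    .r (nat_lit 0xdb8) (nat_lit 14) [nat_lit 0x10001,nat_lit 17],.r (nat_lit 0x15a9) (nat_lit 6) [nat_lit 0x1104d1,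
    nat_lit 0x18699,nat_lit 0x18499],.c (nat_lit 0) (nat_lit 0x18002),
    .r (nat_lit 0x165b) (nat_lit 3) [nat_lit 0x18011,nat_lit 0x10001],.c (nat_lit 0) (nat_lit 0x2d763),
    .c (nat_lit 0) (nat_lit 0x1b6d3),.c (nat_lit 5) (nat_lit 2),.r (nat_lit 0xdbb) (nat_lit 2) [nat_lit 17,
    nat_lit 0x90419],.r (nat_lit 0x165b) (nat_lit 0) [nat_lit 0xc0011,nat_lit 0x80001],.c (nat_lit 6) (nat_lit 2),
    .r (nat_lit 0xdb8) (nat_lit 6) [nat_lit 0x80001,nat_lit 17],.r (nat_lit 0xdba) (nat_lit 6) [nat_lit 0x80001,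
    nat_lit 0x411],.c (nat_lit 7) (nat_lit 2),.c (nat_lit 0) (nat_lit 0x2d763),.c (nat_lit 8) (nat_lit 2)],
    .l (nat_lit 11) (nat_lit 480) (nat_lit 3) (nat_lit 0xd9000000d9000000d5000000d5000000d3000000d3000000d4000000d4000000d5000000d5000000dc000000dc0000010600000106000000db000000db) (nat_lit 0x2d0000002d00000031000000310000003300000033000000320000003200000031000000310000002a0000002a00000000000000000000002b0000002b)
    (nat_lit 0x1542b0540ac128280548a9150288578a91b23b4570ae1582a8540a81582a8538a71282a0578af1e641c550ae1502b0500a41442885189d1482903e8bf1aa354560901502a0520a013c288518a1150280588d51a2354580aa154280510a2144280528a50f0288548a51a6334540ac1582504f0a2140288508a11182885e8a91a633c530c014e2a45089d142294510a214628c570c01783005d8a914e2a4518a3142294510a214628c490a417830057897150288500a4144288518a31542905f8ab1ce3b4540c21282a0540a41181e0518a31482a8558ab1e63e4580aa15e2a46a8bf152294520c01562ac470b21b83705889315e2bc5887d17a2a4490ae1562fc5908e1b83704e8b120e3b46a8d519e334600c01f23b46e0dc20c4186d8db1e6364688d51a634c5e0bc1e639c6e0dc20c4186d8db15c2b8550901802b04b8a9154308588931b636c580b01542b8580ac14c2a0578bb1602a04e8b11b636c580b0)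
    (nat_lit 0x154780f01e03c0780f01e03c0780f01e03c0780f01e01582a8f01e03c0780f01e03c0780f01e03c0780f01e01502a0501e03c0780f01e03c0780f01e03c0780f01e01582a0520a03c0780f01e03c0780f01e03c0780f01e01282b05109e144780f01e03c0780f01e03c0780f01e01402a8510a2140288f01e03c0780f01e03c0780f01e015229c518a314a284511e03c0780f01e03c0780f01e015229c4e8a114a284510a23c0780f01e03c0780f01e0150250520a80f0230518a3154780f01e03c0780f01e01442a0520a0144288518a31482a8f01e03c0780f01e015e2bc3e8b11522f45709217e2ac471e03c0780f01e01522bc5f8d514a2a4600a41562ac5908e3c0780f01e01b23cc6a8d11a634c5e0bc1ce3cc6e0dc20c780f01e01da41c6a8d519a33c600c01da3e46e0dc20c418f01e015c2a8560b01502985d8af1502c05889d1b636c581e015c2b8480aa158300548971842a8498b11b636c580b0)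
    (nat_lit 4) (nat_lit 37)
    [[nat_lit 2,nat_lit 17,nat_lit 257,nat_lit 0x1000101,nat_lit 513,nat_lit 0x1001,nat_lit 0x10001,nat_lit 0x100001,
    nat_lit 0x1100001,nat_lit 0x1000001,nat_lit 0x10000001],[nat_lit 272,nat_lit 0x10010,nat_lit 0x100010,
    nat_lit 0x1000010],[nat_lit 512,nat_lit 768,nat_lit 0x1100,nat_lit 0x10100,nat_lit 0x20100,nat_lit 0x110100,
    nat_lit 0x100100,nat_lit 0x1000100,nat_lit 0x1001100,nat_lit 0x1010100,nat_lit 0x1100100,nat_lit 0x11000100,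
    nat_lit 0x10000100],[nat_lit 0x2000,nat_lit 0x102000,nat_lit 0x11000,nat_lit 0x101000,nat_lit 0x111000,
    nat_lit 0x201000,nat_lit 0x1101000,nat_lit 0x10101000,nat_lit 0x1001000,nat_lit 0x10001000],[nat_lit 0x20000,
    nat_lit 0x110000,nat_lit 0x1010000,nat_lit 0x10010000],[nat_lit 0x200000,nat_lit 0x1100000,nat_lit 0x10100000,
    nat_lit 0x11100000],[nat_lit 0x2000000,nat_lit 0x11000000],[nat_lit 0x20000000]]
    [.c (nat_lit 1) (nat_lit 2),.r (nat_lit 0xdb3) (nat_lit 15) [nat_lit 33,nat_lit 0x3303201],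
    .c (nat_lit 0) (nat_lit 0x200403),.r (nat_lit 0xdb4) (nat_lit 13) [nat_lit 0x200001,nat_lit 0x300231],
    .r (nat_lit 0x1343) (nat_lit 11) [nat_lit 0x4008031,nat_lit 0x3005041,nat_lit 0x4002031,nat_lit 0x200001],
    .r (nat_lit 0xdbb) (nat_lit 9) [nat_lit 0x30021,nat_lit 0x3021],.r (nat_lit 0xdbb) (nat_lit 6) [nat_lit 0x3021,
    nat_lit 0x200001],.c (nat_lit 1) (nat_lit 514),.r (nat_lit 0x158f) (nat_lit 10) [nat_lit 0x30001,nat_lit 0x220001,
    nat_lit 0x2200321,nat_lit 0x3303201,nat_lit 0x2204321],.r (nat_lit 0xdbb) (nat_lit 0) [nat_lit 0x3021,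
    nat_lit 0x220001],.r (nat_lit 0xdbb) (nat_lit 9) [nat_lit 33,nat_lit 0x23021],
    .r (nat_lit 0xdb3) (nat_lit 5) [nat_lit 33,nat_lit 0x3333201],.r (nat_lit 0x165b) (nat_lit 7) [nat_lit 0x220031,
    nat_lit 33],.r (nat_lit 0xdb3) (nat_lit 15) [nat_lit 0x2021,nat_lit 0x3303201],
    .r (nat_lit 0x165b) (nat_lit 13) [nat_lit 0x200031,nat_lit 33],.c (nat_lit 3) (nat_lit 2),
    .r (nat_lit 0x1343) (nat_lit 11) [nat_lit 0x600c032,nat_lit 33,nat_lit 0x6000032,nat_lit 0x200001],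
    .r (nat_lit 0x165b) (nat_lit 15) [nat_lit 0x220031,nat_lit 0x30021],
    .r (nat_lit 0x1590) (nat_lit 0) [nat_lit 0x20001,nat_lit 33,nat_lit 0x200001,nat_lit 0x3333231],
    .r (nat_lit 0xdb4) (nat_lit 5) [nat_lit 0x220001,nat_lit 0x3555432],
    .r (nat_lit 0xdb4) (nat_lit 5) [nat_lit 0x220001,nat_lit 0x333231],.c (nat_lit 0) (nat_lit 0x200005),
    .r (nat_lit 0x10ff) (nat_lit 12) [nat_lit 0x30001,nat_lit 0x220001,nat_lit 0x2202321,nat_lit 0x302231,
    nat_lit 0x3303201],.r (nat_lit 0x158d) (nat_lit 12) [nat_lit 0x2202321,nat_lit 0x30001,nat_lit 0x220001,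
    nat_lit 0x300231],.r (nat_lit 0xdb3) (nat_lit 5) [nat_lit 0x2422321,nat_lit 0x3333201],
    .r (nat_lit 0xdb4) (nat_lit 13) [nat_lit 0x200001,nat_lit 0x303231],
    .r (nat_lit 0x158d) (nat_lit 12) [nat_lit 0x2222321,nat_lit 0x30001,nat_lit 0x220001,nat_lit 0x330231],
    .r (nat_lit 0x165b) (nat_lit 15) [nat_lit 0x200031,nat_lit 33],.c (nat_lit 4) (nat_lit 2),
    .r (nat_lit 0x14ff) (nat_lit 2) [nat_lit 0x3001,nat_lit 0x2004001,nat_lit 0x200001,nat_lit 0x32021],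
    .c (nat_lit 0) (nat_lit 0x330323),.r (nat_lit 0xdbb) (nat_lit 9) [nat_lit 0x32021,nat_lit 33],
    .r (nat_lit 0xdb4) (nat_lit 13) [nat_lit 0x200001,nat_lit 33],.r (nat_lit 0xdb3) (nat_lit 5) [nat_lit 0x2220031,
    nat_lit 0x3333201],.r (nat_lit 0xdb4) (nat_lit 5) [nat_lit 0x220001,nat_lit 0x30021],
    .r (nat_lit 0x14ff) (nat_lit 2) [nat_lit 0x3001,nat_lit 0x2004001,nat_lit 0x200001,nat_lit 0x2021],
    .c (nat_lit 0) (nat_lit 0x330323),.c (nat_lit 2) (nat_lit 0x42003),.c (nat_lit 5) (nat_lit 2),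
    .r (nat_lit 0xdbb) (nat_lit 6) [nat_lit 33,nat_lit 0x200001],.c (nat_lit 0) (nat_lit 0x353323),
    .c (nat_lit 0) (nat_lit 0x333323),.c (nat_lit 6) (nat_lit 2),.r (nat_lit 0xdbb) (nat_lit 0) [nat_lit 33,
    nat_lit 0x220001],.r (nat_lit 0xdbb) (nat_lit 9) [nat_lit 0x2021,nat_lit 0x20021],
    .r (nat_lit 0xdb4) (nat_lit 5) [nat_lit 0x220001,nat_lit 33],.c (nat_lit 7) (nat_lit 2),
    .c (nat_lit 0) (nat_lit 0x333323),.c (nat_lit 8) (nat_lit 2)]]

/-- nodes -/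
noncomputable def rD8k_37_9 : List RJ :=
  [.l (nat_lit 12) (nat_lit 960) (nat_lit 3) (nat_lit 0x1e0000001e000000195000001950000019800000198000001960000019600000194000001940000018e0000018e0000018800000188000001d1000001d1) (nat_lit 0x4b0000004b00000048000000480000004a0000004a0000004c0000004c000000520000005200000058000000580000000f0000000f)
    (nat_lit 0x1e01e022b22521e20a2282180fe1940c018e16a0c21d11171e01e019b1951b61a21a819817a19414018c18817614119319522514014a14b14714b12d14b13715515d17b18b18618619b22b14a14014d14d15314b14914912f14713d1411141821a220a14d14715015014e14e1481441421461441540f31891b621e14d14b15015014e14e14814414614a14815810718919821814b12d14e14e15414c14614a12c14813e13e10117f1a822815314b14e14e14c15414e14a14414013e13e18718719419414913714414414a14a14c14814213e13c13c0f318517a0fe14914b14814814e14614814c14214214013818518918c18e14715d14a14614014814213e14013c13213621517b1400c012f15514614214412c1421421441401221362451ab1760c214118b15815413e13e13813c13613610412824718d18816a13d17b14814413e13e14013c1221320f410423317919311718218618918918717f1891851ab17b17918d1e01fe1411d11141861070f31871011850f32452152332471c21e0)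
    (nat_lit 0x1e03c03c03c03c03c03c03c03c03c03c03c03c03c03c03c01e01e03c03c03c03c03c03c03c03c03c03c03c03c03c03c022b19b1403c03c03c03c03c03c03c03c03c03c03c03c03c022519514a1403c03c03c03c03c03c03c03c03c03c03c03c021e1b614b14d1503c03c03c03c03c03c03c03c03c03c03c020a1a214714d1501503c03c03c03c03c03c03c03c03c03c02281a814b15314e14e1543c03c03c03c03c03c03c03c03c021819812d14b14e14e14c1543c03c03c03c03c03c03c03c00fe17a14b14914814814614e14c3c03c03c03c03c03c03c019419413714914414414a14a14814c3c03c03c03c03c03c00c014015512f14214612c1441421421403c03c03c03c03c018e18c15d14714614a14814013e14213c1403c03c03c03c016a18817b13d14414813e13e13c1401321221043c03c03c00c217618b14115415813e13e13c1381361361281043c03c01d11411861140f31071011870f31852152012032331e03c011719318618218918917f18718518917b1ab18d1791fe1e0)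
    (nat_lit 4) (nat_lit 73)
    [[nat_lit 0x1001,nat_lit 0x1011,nat_lit 0x1101,nat_lit 0x10001001,nat_lit 0x10001,nat_lit 0x10011,
    nat_lit 0x100001,nat_lit 0x100101,nat_lit 0x1000001,nat_lit 0x10000001,nat_lit 0x10000011,nat_lit 0x10000101],
    [nat_lit 32,nat_lit 48,nat_lit 288,nat_lit 0x1020,nat_lit 0x10020,nat_lit 0x100020,nat_lit 0x10000020,nat_lit 272,
    nat_lit 528,nat_lit 0x1110,nat_lit 0x10110,nat_lit 0x10000110,nat_lit 0x1010,nat_lit 0x10001010,nat_lit 0x1001010,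
    nat_lit 0x10010,nat_lit 0x10010010,nat_lit 0x1010010,nat_lit 0x100010,nat_lit 0x10100010,nat_lit 0x1000010,
    nat_lit 0x11000010,nat_lit 0x10000010],[nat_lit 512,nat_lit 0x10200,nat_lit 0x10000200,nat_lit 0x1100,
    nat_lit 0x10100,nat_lit 0x11100,nat_lit 0x1010100,nat_lit 0x100100,nat_lit 0x1000100,nat_lit 0x1001100,
    nat_lit 0x10000100,nat_lit 0x10001100,nat_lit 0x10010100,nat_lit 0x10100100,nat_lit 0x11000100],[nat_lit 0x2000,
    nat_lit 0x11000,nat_lit 0x101000,nat_lit 0x1001000,nat_lit 0x10001000],[nat_lit 0x20000,nat_lit 0x110000,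
    nat_lit 0x1010000],[nat_lit 0x200000,nat_lit 0x1100000],[nat_lit 0x2000000],[]]
    [.r (nat_lit 0x165b) (nat_lit 12) [nat_lit 0x303231,nat_lit 33],.c (nat_lit 0) (nat_lit 0x33002),
    .c (nat_lit 0) (nat_lit 0x20232),.r (nat_lit 0x1547) (nat_lit 11) [nat_lit 0x23021,nat_lit 0x422031,
    nat_lit 0x533431],.r (nat_lit 0x161e) (nat_lit 15) [nat_lit 0x220031,nat_lit 33],.c (nat_lit 0) (nat_lit 0x33002),
    .r (nat_lit 0xdb8) (nat_lit 13) [nat_lit 0x300231,nat_lit 0x220001],.c (nat_lit 0) (nat_lit 0x20232),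
    .r (nat_lit 0x151a) (nat_lit 15) [nat_lit 0x422301,nat_lit 0x202321,nat_lit 0x303201,nat_lit 0x2001],
    .r (nat_lit 0xdbc) (nat_lit 13) [nat_lit 33,nat_lit 0x300231],.c (nat_lit 0) (nat_lit 0x33302),
    .c (nat_lit 0) (nat_lit 0x20032),.c (nat_lit 2) (nat_lit 2),.r (nat_lit 0x115f) (nat_lit 12) [nat_lit 0xd77621,
    nat_lit 33,nat_lit 0x660031,nat_lit 0x2001],.r (nat_lit 0x115f) (nat_lit 12) [nat_lit 0x955421,nat_lit 0x422321,
    nat_lit 0x243231,nat_lit 0x2001],.r (nat_lit 0xdb4) (nat_lit 10) [nat_lit 0x2001,nat_lit 0x533221],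
    .r (nat_lit 0x12d5) (nat_lit 11) [nat_lit 0x440031,nat_lit 33,nat_lit 0x955421,nat_lit 0x2001],
    .r (nat_lit 0x1593) (nat_lit 15) [nat_lit 0x422301,nat_lit 0x303201,nat_lit 0x846531,nat_lit 0x955421],
    .r (nat_lit 0x1409) (nat_lit 12) [nat_lit 0x957421,nat_lit 0x3021,nat_lit 0x442031,nat_lit 0x2001],
    .c (nat_lit 1) (nat_lit 0x2323),.r (nat_lit 0x115f) (nat_lit 12) [nat_lit 0x533221,nat_lit 0x844521,
    nat_lit 0x325431,nat_lit 0x2001],.r (nat_lit 0xdb4) (nat_lit 10) [nat_lit 0x2001,nat_lit 33],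
    .r (nat_lit 0x12d5) (nat_lit 11) [nat_lit 0x23231,nat_lit 0x422321,nat_lit 0x533221,nat_lit 0x2001],
    .r (nat_lit 0x1409) (nat_lit 12) [nat_lit 0x535221,nat_lit 0x420321,nat_lit 0x20231,nat_lit 0x2001],
    .c (nat_lit 0) (nat_lit 0x20003),.r (nat_lit 0xdb2) (nat_lit 15) [nat_lit 0x220001,nat_lit 0x202031],
    .c (nat_lit 0) (nat_lit 0x20003),.c (nat_lit 0) (nat_lit 0x20003),
    .r (nat_lit 0xdb3) (nat_lit 11) [nat_lit 0x220001,nat_lit 0x202031],.c (nat_lit 0) (nat_lit 0x20003),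
    .r (nat_lit 0xdbc) (nat_lit 13) [nat_lit 0x222031,nat_lit 0x533221],.c (nat_lit 0) (nat_lit 770),
    .c (nat_lit 0) (nat_lit 0x20003),.r (nat_lit 0xdb2) (nat_lit 11) [nat_lit 0x220001,nat_lit 0x202031],
    .r (nat_lit 0xdb8) (nat_lit 13) [nat_lit 0x533221,nat_lit 0x220001],.c (nat_lit 3) (nat_lit 2),
    .r (nat_lit 0x12d5) (nat_lit 11) [nat_lit 0x505431,nat_lit 0x844521,nat_lit 33,nat_lit 0x2001],
    .r (nat_lit 0x1409) (nat_lit 12) [nat_lit 0x3021,nat_lit 0x842521,nat_lit 0x503431,nat_lit 0x2001],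
    .c (nat_lit 0) (nat_lit 0x33323),.c (nat_lit 0) (nat_lit 0x33323),.c (nat_lit 0) (nat_lit 0x33323),
    .c (nat_lit 0) (nat_lit 0x33323),.r (nat_lit 0xdbc) (nat_lit 13) [nat_lit 0x300231,nat_lit 33],
    .c (nat_lit 0) (nat_lit 0x33323),.c (nat_lit 0) (nat_lit 0x33323),.r (nat_lit 0xdb8) (nat_lit 13) [nat_lit 33,
    nat_lit 0x220001],.r (nat_lit 0xdb2) (nat_lit 15) [nat_lit 0x220001,nat_lit 0x330231],
    .r (nat_lit 0xdb3) (nat_lit 11) [nat_lit 0x220001,nat_lit 0x330231],.c (nat_lit 0) (nat_lit 770),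
    .r (nat_lit 0xdb2) (nat_lit 11) [nat_lit 0x220001,nat_lit 0x330231],.c (nat_lit 4) (nat_lit 2),
    .c (nat_lit 0) (nat_lit 0x3003),.r (nat_lit 0xdbb) (nat_lit 11) [nat_lit 0x220001,nat_lit 33],
    .c (nat_lit 0) (nat_lit 0x3003),.r (nat_lit 0x164b) (nat_lit 10) [nat_lit 0x2031,nat_lit 33,nat_lit 0x303201],
    .c (nat_lit 5) (nat_lit 2),.r (nat_lit 0xdbb) (nat_lit 2) [nat_lit 33,nat_lit 0x303201],
    .c (nat_lit 0) (nat_lit 0x3003),.c (nat_lit 6) (nat_lit 2),.r (nat_lit 0xdbb) (nat_lit 10) [nat_lit 33,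
    nat_lit 0x303201],.c (nat_lit 7) (nat_lit 2)],
    .l (nat_lit 17) (nat_lit 0x4b00) (nat_lit 4) (nat_lit 0x1e0100001e0100001e9300001e9300001d4d00001d4d00001bdf00001bdf00001c9900001c9900001e4300001e4300001e9600001e9600001b9200001b92) (nat_lit 0x950000009500000003000000030000014900000149000002b7000002b7000001fd000001fd000000530000005300000000000000000000030400000304)
    (nat_lit 0xeb6069e83d041dfe11d009810362418ca0da4070103b5c1e320ec78897435fa1afd0eb6075b03bfc1dfe127e09d8031cc1a4e0e0206c203b5c1dae14518b5c435fa15eb0eff077f827d01e900f230752839b013980e4b07be81da01e4011d287a4c371e10ed0eff07a081ee013e81013075282a001eb812c007fa83c80195011d288e0c2486111513b0098103a941d4a0c940ac902e8417ba1020088b03014141013e387534338a1537127e08e80404c1e460e02064a0352c1a9607d60484039f41c100ae58284439921a490d27063283d7013980d4b05ee844d019280d66067885d9027300def86f7c23e6205d0c7306c482a001cd80d4b05d08316022680fbc0678847a01c380def875ec31b618fd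0d84070103fd41efa0908088b033c419e20cf806c50355416b00e3b85154339a19950e0206d204b001c9607d6081003ef01acc0d4e067c03bfc1c460e5d85ea432221f2b0ed7078c832a01e400e0805040387027300e2305ac045c01df00c568722c37f61b1d0ed7076b83c800ed00e7d0602847a02ec80eff06aa83be022e00e538790c2dc61b3f16b88897447061e930508875343af61bdf0bd4851543c861c8b0f4b07a5837241d2e14518763c474a23a50ae589f1c37be1bdf0e5d871dc394e18ad0f8107a5837241b920af586bf4222a10ed0d24854dc31fa205d0f9586654367e1b1d0dc9074b8320018220d7e86bf424861b8f0e648671431b611f30c88867342dc61bfb0dc906e4837001900)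
    (nat_lit 0xeb612c0096004b00258012c0096004b00258012c0096004b00258012c0096004b000d3d075b096004b00258012c0096004b00258012c0096004b00258012c0096004b000f41077f827d04b00258012c0096004b00258012c0096004b00258012c0096004b000eff077f83d2013e8258012c0096004b00258012c0096004b00258012c0096004b0011d0093f03c8c20260c9412c0096004b00258012c0096004b00258012c0096004b00130209d803a941d4a1592064a096004b00258012c0096004b00258012c0096004b000d890639839b015000ba106a5844d04b00258012c0096004b00258012c0096004b000c650693827301eb80bdd06a5832502268258012c0096004b00258012c0096004b000da407010392c2580102003eb035981f780cf812c0096004b00258012c0096004b000e0206c203df41fea11160484033c419e20d8a067c096004b00258012c0096004b000ed7076b81da01e400c05073e85b1023d00d55077f845c04b00258012c0096004b000f19076b83c8019500a08070404e601c380b58071183be022e0258012c0096004b000ec78a28c474a23a513e38572c37be1bdf0e3b872ec315a1ca70f4b12c0096004b00112e8b5c43d2623830ea68284437be1d7b0a2a85ea439161e430f4b07a5896004b000d7e86bf4371e12430ce28732423e618db0ce68644437f616e30dc906e4832004b000d7e857ac21da11150a9b8692440ba18fd0cca87cac363a1b3f0e9706e4830441900)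
    (nat_lit 5) (nat_lit 79)
    [[nat_lit 2,nat_lit 0x10002,nat_lit 0x1000002,nat_lit 0x10000002,nat_lit 17,nat_lit 0x100011,nat_lit 257,
    nat_lit 0x1000101,nat_lit 0x100101,nat_lit 0x1001,nat_lit 0x101001,nat_lit 0x1001001,nat_lit 0x1011,
    nat_lit 0x10001,nat_lit 0x10101,nat_lit 0x110001,nat_lit 0x1010001,nat_lit 0x10010001,nat_lit 0x100001,
    nat_lit 0x1100001,nat_lit 0x1000001,nat_lit 0x2000001,nat_lit 0x2000002,nat_lit 0x11000001,nat_lit 0x10000001],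
    [nat_lit 32,nat_lit 0x100020,nat_lit 272,nat_lit 0x100110,nat_lit 0x1010,nat_lit 0x101010,nat_lit 0x10010,
    nat_lit 0x110010,nat_lit 0x100010,nat_lit 0x1000010],[nat_lit 512,nat_lit 0x1100,nat_lit 0x101100,
    nat_lit 0x100100,nat_lit 0x200100,nat_lit 0x1000100,nat_lit 0x1010100,nat_lit 0x1100100,nat_lit 0x2000100,
    nat_lit 0x10000100],[nat_lit 0x2000,nat_lit 0x11000,nat_lit 0x111000,nat_lit 0x101000,nat_lit 0x1001000,
    nat_lit 0x10001000],[nat_lit 0x20000,nat_lit 0x110000,nat_lit 0x1010000,nat_lit 0x2010000,nat_lit 0x10010000],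
    [nat_lit 0x200000,nat_lit 0x1100000],[nat_lit 0x2000000,nat_lit 0x3000000,nat_lit 0x11000000],
    [nat_lit 0x20000000]]
    [.c (nat_lit 1) (nat_lit 2),.c (nat_lit 3) (nat_lit 0x400803),.r (nat_lit 0x1588) (nat_lit 14) [nat_lit 0x4010061,
    nat_lit 0x18041,nat_lit 0x200001,nat_lit 0xc6500801],.r (nat_lit 0xdb2) (nat_lit 5) [nat_lit 0x4210061,
    nat_lit 0x80018041],.r (nat_lit 0xdbb) (nat_lit 1) [nat_lit 0xc6518841,nat_lit 0x200001],
    .r (nat_lit 0xdb4) (nat_lit 13) [nat_lit 0x200001,nat_lit 0xc6518841],.c (nat_lit 0) (nat_lit 0x200803),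
    .r (nat_lit 0xdb4) (nat_lit 13) [nat_lit 0x200001,nat_lit 0x300861],
    .r (nat_lit 0x1368) (nat_lit 15) [nat_lit 0x4010061,nat_lit 0x4000001,nat_lit 0x88410c61,nat_lit 0xca318841],
    .c (nat_lit 0) (nat_lit 0x6328043),.c (nat_lit 0) (nat_lit 0x318043),.c (nat_lit 0) (nat_lit 0x318043),
    .c (nat_lit 2) (nat_lit 0x4220062),.r (nat_lit 0xdb7) (nat_lit 6) [nat_lit 65,nat_lit 0xc0300861],
    .c (nat_lit 0) (nat_lit 0x300002),.r (nat_lit 0xfde) (nat_lit 13) [nat_lit 0x10041,nat_lit 0xc0100a1,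
    nat_lit 0x18081,nat_lit 0xc0000001,nat_lit 0x80200001],.r (nat_lit 0x12a1) (nat_lit 13) [nat_lit 0x10041,
    nat_lit 0xc0100a1,nat_lit 0x18081,nat_lit 0xc0000001,nat_lit 0x80200001],
    .r (nat_lit 0x167b) (nat_lit 14) [nat_lit 0x200001,nat_lit 0xc4000061,nat_lit 0x6300801],
    .c (nat_lit 0) (nat_lit 0x318043),.c (nat_lit 0) (nat_lit 0x318043),.c (nat_lit 0) (nat_lit 0x318043),
    .r (nat_lit 0xd12) (nat_lit 13) [nat_lit 0x6018081,nat_lit 0x2048100a1,nat_lit 0x10000001,nat_lit 0x25b12a001,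
    nat_lit 0x8020001],.r (nat_lit 0xd11) (nat_lit 13) [nat_lit 0x6018041,nat_lit 0x104410061,nat_lit 0x8000001,
    nat_lit 0x14e919001,nat_lit 0x4010001],.r (nat_lit 0xdb4) (nat_lit 14) [nat_lit 0x4000001,nat_lit 65],
    .c (nat_lit 0) (nat_lit 0x6318043),.c (nat_lit 2) (nat_lit 2),.r (nat_lit 0xdbb) (nat_lit 4) [nat_lit 0x80400061,
    nat_lit 0x4000001],.r (nat_lit 0xdb2) (nat_lit 5) [nat_lit 65,nat_lit 0x84200061],
    .r (nat_lit 0x1588) (nat_lit 14) [nat_lit 0xc0300041,nat_lit 0x84200061,nat_lit 0x200001,nat_lit 0xc6500801],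
    .r (nat_lit 0x12a0) (nat_lit 7) [nat_lit 0x4000001,nat_lit 0xc0300041,nat_lit 0xc0000001,nat_lit 0x80200001],
    .r (nat_lit 0xdb4) (nat_lit 14) [nat_lit 0x4000001,nat_lit 0x6000861],
    .r (nat_lit 0xdb5) (nat_lit 13) [nat_lit 0x4200061,nat_lit 0xc6500841],
    .r (nat_lit 0xdb7) (nat_lit 8) [nat_lit 0x84200061,nat_lit 65],.c (nat_lit 0) (nat_lit 0x4010003),
    .c (nat_lit 0) (nat_lit 0x4010003),.c (nat_lit 3) (nat_lit 2),.r (nat_lit 0x167b) (nat_lit 14) [nat_lit 0x200001,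
    nat_lit 0x4200c41,nat_lit 0x6300801],.r (nat_lit 0x12a1) (nat_lit 13) [nat_lit 0x310861,nat_lit 0xc411481,
    nat_lit 0x5190a1,nat_lit 0xc0000001,nat_lit 0x80200001],.r (nat_lit 0x165b) (nat_lit 1) [nat_lit 0x4000061,
    nat_lit 65],.r (nat_lit 0x1368) (nat_lit 15) [nat_lit 0x4010062,nat_lit 0x4000001,nat_lit 0x10c811462,
    nat_lit 0x14e519042],.r (nat_lit 0xdb7) (nat_lit 8) [nat_lit 65,nat_lit 0x84200061],
    .c (nat_lit 0) (nat_lit 0x300002),.r (nat_lit 0xdb5) (nat_lit 13) [nat_lit 0xc0000041,nat_lit 0x300861],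
    .r (nat_lit 0xdb4) (nat_lit 13) [nat_lit 0x200001,nat_lit 0x6519062],.r (nat_lit 0xdb5) (nat_lit 13) [nat_lit 65,
    nat_lit 0xc0300861],.c (nat_lit 4) (nat_lit 2),.r (nat_lit 0xdbb) (nat_lit 1) [nat_lit 65,nat_lit 0x200001],
    .r (nat_lit 0xdb4) (nat_lit 13) [nat_lit 0x200001,nat_lit 65],.c (nat_lit 0) (nat_lit 0x318043),
    .c (nat_lit 0) (nat_lit 0x318043),.c (nat_lit 0) (nat_lit 0x6318043),.c (nat_lit 5) (nat_lit 2),
    .r (nat_lit 0xdbb) (nat_lit 6) [nat_lit 65,nat_lit 0x200001],.r (nat_lit 0x1588) (nat_lit 14) [nat_lit 0x4000061,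
    nat_lit 65,nat_lit 0x200001,nat_lit 0xc6500801],.r (nat_lit 0xd11) (nat_lit 13) [nat_lit 0x6000041,
    nat_lit 0x104400061,nat_lit 0x8000001,nat_lit 0x14e919001,nat_lit 0x4010001],
    .r (nat_lit 0xdb2) (nat_lit 5) [nat_lit 0x4200061,nat_lit 0x80000041],.c (nat_lit 6) (nat_lit 2),
    .c (nat_lit 0) (nat_lit 0x4010003),.c (nat_lit 7) (nat_lit 2),.r (nat_lit 0xd13) (nat_lit 11) [nat_lit 0xc00001,
    nat_lit 129,nat_lit 0x300c000a1,nat_lit 0x18000001,nat_lit 0x36793b001],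
    .r (nat_lit 0xdbb) (nat_lit 4) [nat_lit 65,nat_lit 0x4000001],.c (nat_lit 8) (nat_lit 2)]]

/-- nodes -/
noncomputable def rD8k_37_10 : List RJ :=
  [.l (nat_lit 16) (nat_lit 0x26e8) (nat_lit 4) (nat_lit 0x12a2000012a20000132e0000132e00001013000010130000111c0000111c00000e5d00000e45000011350000113500000f8200000f820000110300001103) (nat_lit 0x8c0000008c00000000000000000000031b0000031b0000021200000212000004e9000004d1000001f9000001f9000003ac000003ac0000022b0000022b)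
    (nat_lit 0x121611c612a20ca812571897109010900d0f13671347118f0ef60e3810771077121612160fa012a20e51149110900d8e0db90921155913a10ef60ef61671167112a20ca80e24132e1315131515cc12520b4d0e5d1135113509880ad2110311030fa012a2132e0e2413d310131496111c111f0e5d103b1135118a104007f30ebf14911897101313150cf80cf80e010a410b2a07c80d5c0b400eab0d610de80be00e51125713d313150cf80cf80a0f0e010bac0b880b540cbc0f370b450de80be00d8e1090111c12520e010a410ec40f0a0d91103d10450ea10f7810360c210c2110901090149615cc0a0f0e010c760ec40d370c4b0fff07df11620d70095b0ef1092113670e5d0e5d0b8807c80c4b103d10b80c200c640b600ab109d50c3208400db90d0f111f0b4d0bac0b2a0d370d910a6010b80c4c0c4c0a3f09810b340b3413a1118f113511350cbc0b4007df0ea10c4c0b6010540e380e6f0d890fb40f6415591347103b11350b540d5c0fff10450c4c0c640f3c10540ccb0d890fc80dc00ef60e3810400ad20b450d610d701036098109d50d890d890d200bd60ab90e150ef60ef6118a09880f370eab11620f780a3f0ab10ccb0e6f0bd60d200d570d57167110770ebf11030be00be00ef10c210b3408400dc00f640d570e150ed80ed81671107707f311030de80de8095b0c210b340c320fc80fb40d570ab90f280ed8)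
    (nat_lit 0x121626e826e826e826e826e826e826e826e826e826e826e826e826e826e826e811c6121626e826e826e826e826e826e826e826e826e826e826e826e826e826e812a20fa00e2426e826e826e826e826e826e826e826e826e826e826e826e826e80ca812a2132e0e2426e826e826e826e826e826e826e826e826e826e826e826e812570e51131513d30cf826e826e826e826e826e826e826e826e826e826e826e818971491131510130cf80cf826e826e826e826e826e826e826e826e826e826e81090109015cc14960e010a0f0ec426e826e826e826e826e826e826e826e826e810900d8e1252111c0a410e010f0a0ec426e826e826e826e826e826e826e826e80d0f0db90b4d111f0b2a0bac0d910d3710b826e826e826e826e826e826e826e8136709210e5d0e5d07c80b88103d0c4b0c2010b826e826e826e826e826e826e8134715591135103b0d5c0b5410450fff0c640c4c105426e826e826e826e826e8118f13a1113511350b400cbc0ea107df0b600c4c0e38105426e826e826e826e80ef60ef60988118a0eab0f370f7811620ab10a3f0e6f0ccb0d2026e826e826e80e380ef60ad210400d610b4510360d7009d509810d890d890bd60d2026e826e810771455110307f30de80de80c21095b0c320b340fb40fc80ab90d570ed826e81077145511030ebf0be00be00c210ef108400b340f640dc00e150d570ed80ed8)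
    (nat_lit 4) (nat_lit 61)
    [[nat_lit 2,nat_lit 0x1002,nat_lit 0x10002,nat_lit 17,nat_lit 33,nat_lit 0x1011,nat_lit 0x100011,
    nat_lit 0x1000011,nat_lit 257,nat_lit 0x1101,nat_lit 0x10101,nat_lit 0x1001,nat_lit 0x2001,nat_lit 0x11001,
    nat_lit 0x101001,nat_lit 0x1001001,nat_lit 0x10001001,nat_lit 0x10001,nat_lit 0x20001,nat_lit 0x110001,
    nat_lit 0x100001,nat_lit 0x200001,nat_lit 0x1000001,nat_lit 0x1001011],[nat_lit 32,nat_lit 48,nat_lit 0x1020,
    nat_lit 0x100020,nat_lit 272,nat_lit 0x1110,nat_lit 0x10110,nat_lit 0x100110,nat_lit 0x1010,nat_lit 0x2010,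
    nat_lit 0x11010,nat_lit 0x101010,nat_lit 0x1001010,nat_lit 0x10001010,nat_lit 0x10010,nat_lit 0x100010,
    nat_lit 0x1000010,nat_lit 0x1100010,nat_lit 0x10000010],[nat_lit 512,nat_lit 0x10200,nat_lit 0x1100,
    nat_lit 0x2100,nat_lit 0x11100,nat_lit 0x101100,nat_lit 0x10100,nat_lit 0x110100,nat_lit 0x100100,
    nat_lit 0x200100,nat_lit 0x1000100],[nat_lit 0x2000,nat_lit 0x102000,nat_lit 0x11000,nat_lit 0x111000,
    nat_lit 0x101000,nat_lit 0x201000,nat_lit 0x10101000,nat_lit 0x1001000,nat_lit 0x10001000],[nat_lit 0x20000,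
    nat_lit 0x120000,nat_lit 0x110000,nat_lit 0x210000,nat_lit 0x10010000],[nat_lit 0x200000,nat_lit 0x1100000],
    [nat_lit 0x2000000,nat_lit 0x11000000],[nat_lit 0x20000000]]
    [.c (nat_lit 1) (nat_lit 2),.r (nat_lit 0x13f5) (nat_lit 9) [nat_lit 0x200001,nat_lit 0x2200321,nat_lit 0x4203321,
    nat_lit 0x3302231],.r (nat_lit 0x1070) (nat_lit 12) [nat_lit 33,nat_lit 0x4031,nat_lit 0x200001,nat_lit 0x4005021,
    nat_lit 0x44031],.c (nat_lit 0) (nat_lit 0x553045),.c (nat_lit 0) (nat_lit 0x553343),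
    .c (nat_lit 0) (nat_lit 0x553345),.r (nat_lit 0x1512) (nat_lit 9) [nat_lit 0x200001,nat_lit 0x202321,
    nat_lit 0x300231],.r (nat_lit 0xdb2) (nat_lit 13) [nat_lit 0x2001,nat_lit 0x3000231],
    .c (nat_lit 0) (nat_lit 0x2205),.c (nat_lit 0) (nat_lit 0x330023),.r (nat_lit 0xdb3) (nat_lit 13) [nat_lit 0x2001,
    nat_lit 0x2003021],.c (nat_lit 0) (nat_lit 0x553045),.c (nat_lit 0) (nat_lit 0x553343),
    .r (nat_lit 0xdb2) (nat_lit 9) [nat_lit 0x2001,nat_lit 0x2003021],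
    .r (nat_lit 0x13f5) (nat_lit 9) [nat_lit 0x200001,nat_lit 0x202321,nat_lit 0x2200321,nat_lit 0x300231],
    .r (nat_lit 0x14b7) (nat_lit 7) [nat_lit 0x2001,nat_lit 0x200001,nat_lit 0x303021],.c (nat_lit 0) (nat_lit 770),
    .r (nat_lit 0xdb9) (nat_lit 6) [nat_lit 0x2001,nat_lit 0x2003021],.r (nat_lit 0xdb3) (nat_lit 13) [nat_lit 0x2001,
    nat_lit 0x4023022],.r (nat_lit 0x1070) (nat_lit 12) [nat_lit 0x3002021,nat_lit 0x2002031,nat_lit 0x200001,
    nat_lit 0x2003021,nat_lit 0x2042031],.c (nat_lit 1) (nat_lit 0x300202),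
    .r (nat_lit 0x14da) (nat_lit 12) [nat_lit 0x22032,nat_lit 0x3002001,nat_lit 0x2000001],
    .r (nat_lit 0xdb8) (nat_lit 6) [nat_lit 0x202031,nat_lit 0x2003021],
    .r (nat_lit 0xdbb) (nat_lit 13) [nat_lit 0x2001,nat_lit 0x3000231],.c (nat_lit 2) (nat_lit 2),
    .r (nat_lit 0x8a6) (nat_lit 3) [nat_lit 0x6060001,nat_lit 65,nat_lit 0xd00c001,nat_lit 0xc000001,
    nat_lit 0xc00001],.c (nat_lit 0) (nat_lit 0x553543),.c (nat_lit 0) (nat_lit 0x353543),
    .c (nat_lit 0) (nat_lit 0x330323),.c (nat_lit 3) (nat_lit 0x222232),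
    .r (nat_lit 0x14b7) (nat_lit 7) [nat_lit 0x2001,nat_lit 0x200001,nat_lit 0x3303231],
    .c (nat_lit 0) (nat_lit 0x30323),.c (nat_lit 0) (nat_lit 0x553345),.c (nat_lit 0) (nat_lit 0x553543),
    .r (nat_lit 0xdbb) (nat_lit 13) [nat_lit 0x2001,nat_lit 0x2222321],.c (nat_lit 0) (nat_lit 0x353543),
    .r (nat_lit 0xdb3) (nat_lit 13) [nat_lit 0x2001,nat_lit 0x3231],
    .r (nat_lit 0x14da) (nat_lit 12) [nat_lit 0x222321,nat_lit 0x3002001,nat_lit 0x2000001],
    .r (nat_lit 0x1632) (nat_lit 0) [nat_lit 0x200031,nat_lit 33,nat_lit 0x2001],.c (nat_lit 0) (nat_lit 0x53545),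
    .r (nat_lit 0xdb8) (nat_lit 8) [nat_lit 33,nat_lit 0x2001],.r (nat_lit 0xdb2) (nat_lit 13) [nat_lit 0x2001,
    nat_lit 0x3231],.r (nat_lit 0x167b) (nat_lit 13) [nat_lit 0x200001,nat_lit 0x202321,nat_lit 0x300231],
    .c (nat_lit 3) (nat_lit 2),.r (nat_lit 0xdb8) (nat_lit 6) [nat_lit 0x30021,nat_lit 0x2220031],
    .c (nat_lit 0) (nat_lit 0x330323),.r (nat_lit 0x930) (nat_lit 7) [nat_lit 0x800001,nat_lit 0x8009001,
    nat_lit 0x8001,nat_lit 0x9933851,nat_lit 0x44001],.r (nat_lit 0xdb2) (nat_lit 13) [nat_lit 0x2001,nat_lit 33],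
    .c (nat_lit 0) (nat_lit 0x30323),.r (nat_lit 0xdbb) (nat_lit 13) [nat_lit 0x2001,nat_lit 33],
    .r (nat_lit 0xdb3) (nat_lit 13) [nat_lit 0x2001,nat_lit 33],.c (nat_lit 0) (nat_lit 0x202003),
    .r (nat_lit 0x14da) (nat_lit 12) [nat_lit 0x2020031,nat_lit 0x3002001,nat_lit 0x2000001],
    .r (nat_lit 0xdb3) (nat_lit 13) [nat_lit 0x2001,nat_lit 0x2220031],.c (nat_lit 4) (nat_lit 2),
    .c (nat_lit 0) (nat_lit 0x353543),.r (nat_lit 0xdbd) (nat_lit 13) [nat_lit 33,nat_lit 0x2001],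
    .r (nat_lit 0xdb2) (nat_lit 9) [nat_lit 0x2001,nat_lit 33],.c (nat_lit 0) (nat_lit 0x53545),
    .r (nat_lit 0x13f5) (nat_lit 9) [nat_lit 0x200001,nat_lit 0x3204321,nat_lit 0x202321,nat_lit 0x2303231],
    .c (nat_lit 0) (nat_lit 0x300002),.r (nat_lit 0x165b) (nat_lit 6) [nat_lit 0x200031,nat_lit 33],
    .r (nat_lit 0x161e) (nat_lit 9) [nat_lit 0x2031,nat_lit 33],.c (nat_lit 5) (nat_lit 2),
    .r (nat_lit 0xdb3) (nat_lit 13) [nat_lit 0x2001,nat_lit 0x2020022],.r (nat_lit 0xdb9) (nat_lit 6) [nat_lit 0x2001,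
    nat_lit 33],.r (nat_lit 0x1070) (nat_lit 12) [nat_lit 0x5004021,nat_lit 0x4000031,nat_lit 0x200001,nat_lit 33,
    nat_lit 0x4040031],.r (nat_lit 0xdb8) (nat_lit 6) [nat_lit 33,nat_lit 0x2200031],.c (nat_lit 6) (nat_lit 2),
    .r (nat_lit 0xdb8) (nat_lit 6) [nat_lit 0x2200031,nat_lit 33],.c (nat_lit 7) (nat_lit 2),
    .r (nat_lit 0xdb9) (nat_lit 6) [nat_lit 0x2001,nat_lit 0x2200031],.c (nat_lit 8) (nat_lit 2)],
    .l (nat_lit 13) (nat_lit 0x780) (nat_lit 3) (nat_lit 0x422000003c0000003690000036900000365000003650000035b0000035b0000035600000356000003640000036800000351000003510000039d0000039d) (nat_lit 0x6200000000000000b9000000b9000000bd000000bd000000c7000000c7000000cc000000cc000000ba000000be000000d1000000d10000008500000085)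
    (nat_lit 0x1e010888f248922691946b635b0c00d5830036415c863473a1b51af0f005ee30718d8ccc5f22e11bb0ce06b433c15b8bbc43632b18392245002b01620af04bc28a1318a7455e22915409105c831c17b91e45602801560ab056c27a14e8a7455e2b114c0a603c82ec19991945582bc1680aa053c29e1498a145562a71460a503a02e018d91345582c41680b4052c29e14c89c455629913609d05c02e01708d6c4f428a14f0a7857826c14e8a5c58229d1450a283dc2fe17c8d6c56c25e14b0a785282bc17c8a3c56a25f16109785ac2d619c0d5853a29d1388a1451e2971640a2859022e14289c45a22991bb060053a26314c8a4c5f229d1450b2053829814589ac5a230319e0d9056222914c8a9c4be29d14c08b85882a61308a4c96a2d91ad060055e2af1558aac56a2c114e0b2054c2c414b8a5c94e2cb177863453024413a0a504bc28a13589c452e29314c0a209682cc15b8ae45302a81360a3058428a1458a1452e2611520a609682cc19586d45d831c1700b805ac2fe1818a645962d91660b307602f410d8e743c82e417007405ac1ee1688b4494e4b525a12d06303b0)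
    (nat_lit 0x1e01e00f007803c01e00f007803c01e00f007803c01e00f007802110f00f007803c01e00f007803c01e00f007803c01e00f0078023c8bdc5007803c01e00f007803c01e00f007803c01e00f007802448c1c5602803c01e00f007803c01e00f007803c01e00f007802268c6c5882ac1681e00f007803c01e00f007803c01e00f007802328ccc5782ac1540b40f007803c01e00f007803c01e00f007801ad8be44bc2b614f0a585787803c01e00f007803c01e00f007801ad8b8451427a14f0a784d82bc3c01e00f007803c01e00f007800c00dd84c629d1498a6453a2f91641e00f007803c01e00f007801ab0ce053a29d14289c452e28f1450b20f007803c01e00f007800c00d6855e2af1558aac5822b51640a705887803c01e00f007801b20cf04522b11538a6453a25f1170a6054c2c43c01e00f0078015c8adc55029814609b05142c21428a2c4c229714c1e00f007800c68bbc48829814a09d051425e13889ac5262971440a60f007801ce886c5c81e40e80b803dc2d61688b4481a39b1d410f07607800da8cac6382ec1700b805fc2d614c8c0c5b22cb1660b305e83b0)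
    (nat_lit 4) (nat_lit 83)
    [[nat_lit 2,nat_lit 0x1001,nat_lit 0x10001001,nat_lit 0x10001,nat_lit 0x10011,nat_lit 0x10101,nat_lit 0x110001,
    nat_lit 0x1010001,nat_lit 0x10010001,nat_lit 0x100001,nat_lit 0x100011,nat_lit 0x100101,nat_lit 0x101001,
    nat_lit 0x10100001,nat_lit 0x1000001,nat_lit 0x1000011,nat_lit 0x1000101,nat_lit 0x1001001,nat_lit 0x11000001,
    nat_lit 0x10000001,nat_lit 0x10000011,nat_lit 0x10000101],[nat_lit 32,nat_lit 0x1000020,nat_lit 0x10000020,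
    nat_lit 272,nat_lit 0x1110,nat_lit 0x1000110,nat_lit 0x10000110,nat_lit 0x1010,nat_lit 0x1001010,
    nat_lit 0x10001010,nat_lit 0x10010,nat_lit 0x10010010,nat_lit 0x100010,nat_lit 0x101010,nat_lit 0x1100010,
    nat_lit 0x10100010,nat_lit 0x110010,nat_lit 0x1000010,nat_lit 0x11000010,nat_lit 0x2000010,nat_lit 0x10000010],
    [nat_lit 512,nat_lit 0x1200,nat_lit 0x1100,nat_lit 0x1001100,nat_lit 0x10100,nat_lit 0x1010100,nat_lit 0x100100,
    nat_lit 0x101100,nat_lit 0x1000100,nat_lit 0x2000100,nat_lit 0x10000100,nat_lit 0x10001100,nat_lit 0x10010100,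
    nat_lit 0x10100100,nat_lit 0x11000100],[nat_lit 0x2000,nat_lit 0x11000,nat_lit 0x101000,nat_lit 0x1001000,
    nat_lit 0x1011000,nat_lit 0x10001000,nat_lit 0x10011000,nat_lit 0x10101000,nat_lit 0x11001000],[nat_lit 0x20000,
    nat_lit 0x110000,nat_lit 0x1010000,nat_lit 0x2010000,nat_lit 0x10010000],[nat_lit 0x200000,nat_lit 0x1100000],
    [nat_lit 0x2000000],[]]
    [.c (nat_lit 1) (nat_lit 2),.r (nat_lit 0x165b) (nat_lit 12) [nat_lit 0x303231,nat_lit 33],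
    .r (nat_lit 0x1547) (nat_lit 11) [nat_lit 0x23021,nat_lit 0x422031,nat_lit 0x533431],
    .r (nat_lit 0x161e) (nat_lit 15) [nat_lit 0x220031,nat_lit 33],.c (nat_lit 0) (nat_lit 0x33002),
    .c (nat_lit 0) (nat_lit 0x20232),.r (nat_lit 0xdb2) (nat_lit 8) [nat_lit 0x2001,nat_lit 0x3231],
    .r (nat_lit 0x1549) (nat_lit 6) [nat_lit 0x2001,nat_lit 0x220001,nat_lit 0x333021],
    .r (nat_lit 0x1545) (nat_lit 13) [nat_lit 0x2001,nat_lit 0x3021,nat_lit 0x222031],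
    .r (nat_lit 0xdb8) (nat_lit 10) [nat_lit 33,nat_lit 0x2001],.c (nat_lit 0) (nat_lit 0x33002),
    .c (nat_lit 0) (nat_lit 0x20232),.r (nat_lit 0xdb3) (nat_lit 4) [nat_lit 0x2001,nat_lit 0x3231],
    .r (nat_lit 0x1552) (nat_lit 4) [nat_lit 0x220001,nat_lit 0x333201,nat_lit 0x222321],
    .r (nat_lit 0xdb8) (nat_lit 13) [nat_lit 0x300231,nat_lit 0x220001],.c (nat_lit 0) (nat_lit 0x33002),
    .c (nat_lit 0) (nat_lit 0x20232),.r (nat_lit 0x14b7) (nat_lit 3) [nat_lit 0x2001,nat_lit 0x303201,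
    nat_lit 0x200321],.c (nat_lit 0) (nat_lit 770),.r (nat_lit 0xdb8) (nat_lit 8) [nat_lit 0x222031,nat_lit 33],
    .c (nat_lit 0) (nat_lit 0x33302),.c (nat_lit 0) (nat_lit 0x20032),.c (nat_lit 2) (nat_lit 2),
    .r (nat_lit 0x1601) (nat_lit 7) [nat_lit 0x955421,nat_lit 33,nat_lit 0x440031,nat_lit 0x2001],
    .r (nat_lit 0x163f) (nat_lit 15) [nat_lit 0x3021,nat_lit 0x442031,nat_lit 0x2001],.c (nat_lit 1) (nat_lit 0x2323),
    .r (nat_lit 0xdb2) (nat_lit 8) [nat_lit 0x2001,nat_lit 33],.r (nat_lit 0x1601) (nat_lit 7) [nat_lit 0x533221,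
    nat_lit 0x422321,nat_lit 0x23231,nat_lit 0x2001],.r (nat_lit 0x163f) (nat_lit 15) [nat_lit 0x420321,
    nat_lit 0x20231,nat_lit 0x2001],.c (nat_lit 0) (nat_lit 0x20003),.r (nat_lit 0x1456) (nat_lit 11) [nat_lit 0x2001,
    nat_lit 0x3021,nat_lit 0x535221,nat_lit 0x222031],.r (nat_lit 0xdb2) (nat_lit 15) [nat_lit 0x220001,
    nat_lit 0x202031],.c (nat_lit 0) (nat_lit 0x20003),.r (nat_lit 0xdb3) (nat_lit 11) [nat_lit 0x220001,
    nat_lit 0x202031],.c (nat_lit 0) (nat_lit 0x20003),.c (nat_lit 0) (nat_lit 0x20003),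
    .r (nat_lit 0x1512) (nat_lit 8) [nat_lit 0x303201,nat_lit 0x300021,nat_lit 0x202031],
    .r (nat_lit 0xdb3) (nat_lit 15) [nat_lit 0x220001,nat_lit 0x202031],.c (nat_lit 0) (nat_lit 0x20003),
    .r (nat_lit 0xdb8) (nat_lit 8) [nat_lit 33,nat_lit 0x222031],.c (nat_lit 0) (nat_lit 770),
    .r (nat_lit 0x154c) (nat_lit 8) [nat_lit 0x20001,nat_lit 0x300021,nat_lit 0x204031,nat_lit 0x200001],
    .r (nat_lit 0xdb8) (nat_lit 13) [nat_lit 0x533221,nat_lit 0x220001],.c (nat_lit 3) (nat_lit 2),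
    .r (nat_lit 0xdb2) (nat_lit 8) [nat_lit 0x2001,nat_lit 0x422321],.c (nat_lit 0) (nat_lit 0x33323),
    .r (nat_lit 0x1456) (nat_lit 11) [nat_lit 0x2001,nat_lit 0x420321,nat_lit 0x3021,nat_lit 0x300231],
    .c (nat_lit 0) (nat_lit 0x33323),.r (nat_lit 0x15fd) (nat_lit 4) [nat_lit 0x303201,nat_lit 0x530231,
    nat_lit 0x422321],.c (nat_lit 0) (nat_lit 0x33323),.c (nat_lit 0) (nat_lit 0x33323),
    .r (nat_lit 0xdb8) (nat_lit 8) [nat_lit 0x422321,nat_lit 0x300231],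
    .r (nat_lit 0x154c) (nat_lit 8) [nat_lit 0x20001,nat_lit 0x222321,nat_lit 0x332231,nat_lit 0x200001],
    .r (nat_lit 0xdb8) (nat_lit 13) [nat_lit 33,nat_lit 0x220001],.r (nat_lit 0xdb2) (nat_lit 15) [nat_lit 0x220001,
    nat_lit 0x330231],.r (nat_lit 0xdb3) (nat_lit 11) [nat_lit 0x220001,nat_lit 0x330231],
    .r (nat_lit 0xdb3) (nat_lit 15) [nat_lit 0x220001,nat_lit 0x330231],.c (nat_lit 0) (nat_lit 770),
    .c (nat_lit 4) (nat_lit 2),.c (nat_lit 0) (nat_lit 0x3003),.c (nat_lit 0) (nat_lit 0x3003),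
    .r (nat_lit 0xdbc) (nat_lit 11) [nat_lit 0x220001,nat_lit 33],.r (nat_lit 0xdb3) (nat_lit 15) [nat_lit 0x220001,
    nat_lit 33],.r (nat_lit 0x161e) (nat_lit 8) [nat_lit 0x2031,nat_lit 33],
    .r (nat_lit 0x1512) (nat_lit 8) [nat_lit 0x303201,nat_lit 0x2031,nat_lit 33],
    .r (nat_lit 0x15fd) (nat_lit 4) [nat_lit 0x303201,nat_lit 0x300021,nat_lit 0x202031],.c (nat_lit 0) (nat_lit 770),
    .c (nat_lit 5) (nat_lit 2),.c (nat_lit 0) (nat_lit 0x3003),.r (nat_lit 0xdbb) (nat_lit 15) [nat_lit 0x220001,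
    nat_lit 33],.r (nat_lit 0x1633) (nat_lit 4) [nat_lit 0x4031,nat_lit 33,nat_lit 0x220001],
    .r (nat_lit 0x1542) (nat_lit 8) [nat_lit 0x2031,nat_lit 33,nat_lit 0x220001],.c (nat_lit 6) (nat_lit 2),
    .r (nat_lit 0xdbb) (nat_lit 10) [nat_lit 33,nat_lit 0x303201],.c (nat_lit 7) (nat_lit 2)]]

/-- nodes -/
noncomputable def rD8k_37_11 : List RJ :=
  [.l (nat_lit 12) (nat_lit 720) (nat_lit 3) (nat_lit 0x142000001420000013d0000013d00000139000001390000013d0000013d00000182000001820000013f0000013f0000013e0000013e0000014900000149) (nat_lit 0x40000000400000004500000045000000490000004900000045000000450000000000000000000000430000004300000044000000440000003900000039)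
    (nat_lit 0x1021020fd0fd0f90f90e70fd1721720ff0dd0fe0fe1091091021020fd0fd0f50f50fd0fd15e15e0ff0ff0fe0fe1091090fd0fd0fc0f80f40f40dc0fc13d13d0fa0de0f90f91041040fd0fd0f80fc0ec0f40fc0f813d13d0f60fa0f10e71041040f50f90f40f40f00f00f40fc1391351080f60f50f91001080f50f90ec0f40f00f00f40f412f1291040f60f50f51001000fd0fd0f80fc0f40fc1080f813d13d0fa1040f90eb1041040fd0e70fc0dc0f40f40f810813d13d1120fa0dd1030d410415e17213d13d12913513d13d18218213513f13e12615f16515e17213d13d12f13913d13d18218213913f13e13816b1710ff0dd0fa0de0f60f60fa10413f13f1020fc0d31010d61060ff0ff0f60fa1041081120fa1391350fc1021030fb1060f80fe0fe0e70f90f50f91030eb1381260fb1011080fa1050fd0fe0fe0f10f90f50f50dd0f913e13e1030d30fa1081051051091091041041001081041041711650f81061050fd1101101091091041041001000d410416b15f1060d6105105110110)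
    (nat_lit 0x1022d02d02d02d02d02d02d02d02d02d02d02d02d02d02d01021022d02d02d02d02d02d02d02d02d02d02d02d02d02d00fd0fd0fc2d02d02d02d02d02d02d02d02d02d02d02d02d00fd0fd0f80fc2d02d02d02d02d02d02d02d02d02d02d02d00f90f50f40ec0f02d02d02d02d02d02d02d02d02d02d02d00f90f50f40f40f00f02d02d02d02d02d02d02d02d02d02d00e70fd0dc0fc0f40f41082d02d02d02d02d02d02d02d02d00fd0fd0fc0f80fc0f40f81082d02d02d02d02d02d02d02d017215e13d13d13912f13d13d1822d02d02d02d02d02d02d017215e13d13d13512913d13d1821822d02d02d02d02d02d00ff0ff0fa0f61081040fa1121351391022d02d02d02d02d00dd0ff0de0fa0f60f61040fa13f13f0fc1022d02d02d02d00fe0fe0f90f10f50f50f90dd13e13e0d31031082d02d02d00fe0fe0f90e70f90f50eb1031261381010fb0fa1082d02d01091091041041001001040d415f16b0d61061051051102d01091091041041081001041041651711060f80fd105110110)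
    (nat_lit 2) (nat_lit 23)
    [[nat_lit 2,nat_lit 17,nat_lit 257,nat_lit 0x10001,nat_lit 0x10011,nat_lit 0x100001,nat_lit 0x1000001,
    nat_lit 0x10000001],[nat_lit 32,nat_lit 272,nat_lit 0x1000110,nat_lit 0x1010,nat_lit 0x10010,nat_lit 0x1010010,
    nat_lit 0x110010,nat_lit 0x100010,nat_lit 0x1000010,nat_lit 0x10000010],[nat_lit 512,nat_lit 0x1100,
    nat_lit 0x10100,nat_lit 0x100100,nat_lit 0x1000100,nat_lit 0x10000100],[nat_lit 0x11000,nat_lit 0x101000,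
    nat_lit 0x1001000],[nat_lit 0x20000,nat_lit 0x110000,nat_lit 0x1010000,nat_lit 0x1110000,nat_lit 0x10010000],
    [nat_lit 0x200000,nat_lit 0x1100000,nat_lit 0x10100000],[nat_lit 0x2000000,nat_lit 0x11000000],
    [nat_lit 0x20000000]]
    [.c (nat_lit 1) (nat_lit 2),.c (nat_lit 0) (nat_lit 547),.r (nat_lit 0xdba) (nat_lit 13) [nat_lit 201,
    nat_lit 641],.r (nat_lit 0xdbe) (nat_lit 13) [nat_lit 513,nat_lit 9],.r (nat_lit 0xdb7) (nat_lit 13) [nat_lit 513,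
    nat_lit 813],.r (nat_lit 0x165b) (nat_lit 4) [nat_lit 193,nat_lit 9],.c (nat_lit 0) (nat_lit 547),
    .c (nat_lit 1) (nat_lit 34),.c (nat_lit 2) (nat_lit 2),.r (nat_lit 0xdb8) (nat_lit 11) [nat_lit 641,nat_lit 9],
    .r (nat_lit 0xdb7) (nat_lit 3) [nat_lit 513,nat_lit 9],.r (nat_lit 0x165b) (nat_lit 5) [nat_lit 969,nat_lit 641],
    .r (nat_lit 0xdba) (nat_lit 11) [nat_lit 641,nat_lit 9],.r (nat_lit 0xdb3) (nat_lit 3) [nat_lit 0xe09,
    nat_lit 0x881],.r (nat_lit 0xdb5) (nat_lit 11) [nat_lit 641,nat_lit 9],.r (nat_lit 0xdc1) (nat_lit 13) [nat_lit 9,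
    nat_lit 513],.c (nat_lit 0) (nat_lit 547),.c (nat_lit 0) (nat_lit 515),.c (nat_lit 3) (nat_lit 2),
    .r (nat_lit 0xdb7) (nat_lit 3) [nat_lit 513,nat_lit 0xb09],.c (nat_lit 0) (nat_lit 0x3fb),
    .c (nat_lit 0) (nat_lit 0x3fb),.r (nat_lit 0xdbe) (nat_lit 8) [nat_lit 9,nat_lit 513],
    .r (nat_lit 0xdba) (nat_lit 13) [nat_lit 9,nat_lit 641],.r (nat_lit 0xdb3) (nat_lit 3) [nat_lit 9,nat_lit 0x881],
    .r (nat_lit 0x1641) (nat_lit 13) [nat_lit 525,nat_lit 653,nat_lit 9],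
    .r (nat_lit 0x1595) (nat_lit 3) [nat_lit 0xcc9,nat_lit 0xfe1,nat_lit 0x881],.c (nat_lit 5) (nat_lit 2),
    .c (nat_lit 0) (nat_lit 0x3fb),.r (nat_lit 0x15a8) (nat_lit 11) [nat_lit 129,nat_lit 513,nat_lit 0x801],
    .r (nat_lit 0xdb6) (nat_lit 13) [nat_lit 513,nat_lit 9],.r (nat_lit 0xdbe) (nat_lit 13) [nat_lit 513,nat_lit 137],
    .c (nat_lit 6) (nat_lit 2),.r (nat_lit 0xdbc) (nat_lit 10) [nat_lit 9,nat_lit 641],
    .r (nat_lit 0x165b) (nat_lit 4) [nat_lit 193,nat_lit 137],.c (nat_lit 7) (nat_lit 2),.c (nat_lit 0) (nat_lit 515),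
    .c (nat_lit 8) (nat_lit 2)],
    .l (nat_lit 11) (nat_lit 480) (nat_lit 3) (nat_lit 0xdb000000db000000ea000000ea000000c9000000c9000000ce000000ce000000c9000000c9000000c7000000c7000000c1000000c1000000ca000000ca) (nat_lit 0xf0000000f000000000000000000000021000000210000001c0000001c0000002100000021000000230000002300000029000000290000002000000020)
    (nat_lit 0x1983306d87b1742e85f8bf1742e8640b81642b85d8c51983306d8db1202e85f8bf1741f85c0b81642c88d9251b61ec750ea192324850f8192324638c70ae304650ca1b636c750ea192324740d61ce324638c5176304650c41742e8648c91402a0568ad1542385308814c280548af1202e8648c9150280568ad1642a8530a6140280548a917e2fc6b0f815a2b4580b215a2b4558a114a294570ae17e2fc7410a15a2b4590b015a2b4558ab14228c570aa0fc2e8648c9154238568ad1502a0540a6148280548ad1742e8738c91642a8568ad1502a04a0a6144270548ab1702e0628c714c220558a114c298540a41382c0538a5170320638c714c298558ab1282a04a0a813c278558911642b8608c1140280518a51382804f0b015c2a0488a11642c85d857140298508a51442904f09c15c2b84b8a124a314620ca1522bc550ae1562b4488a5142284550942362ec650ca1522a4570ae1522a4558a712e244550aa)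
    (nat_lit 0x198780f01e03c0780f01e03c0780f01e03c0780f01e0198330f01e03c0780f01e03c0780f01e03c0780f01e01b636c751e03c0780f01e03c0780f01e03c0780f01e00f636c750ea3c0780f01e03c0780f01e03c0780f01e0174240648c9140780f01e03c0780f01e03c0780f01e01742e8648c9150280f01e03c0780f01e03c0780f01e017e2fc850e815a2b4581e03c0780f01e03c0780f01e017e2fc7c0d615a2b4590b03c0780f01e03c0780f01e01742e8648e71542c8568ad150780f01e03c0780f01e01741f8648c911c2a8568ad1502a0f01e03c0780f01e01902e0638c714c298558ab150250541e03c0780f01e01702e0638c5110298508ab14c298520a83c0780f01e01642c82b8bb14c280528a11482884e09e15c780f01e015c2c8608c1140280528a31402705809e1502b8f01e017646c650ca1522a4570ae1522a4538ab12225c551e018a494650c415e2a4570aa15a2ac528911422844a0aa)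
    (nat_lit 3) (nat_lit 43)
    [[nat_lit 2,nat_lit 18,nat_lit 17,nat_lit 273,nat_lit 0x1000011,nat_lit 257,nat_lit 0x100101,nat_lit 0x1001,
    nat_lit 0x10001,nat_lit 0x100001,nat_lit 0x1000001],[nat_lit 32,nat_lit 0x1000020,nat_lit 272,nat_lit 0x1110,
    nat_lit 0x100110,nat_lit 0x1010,nat_lit 0x101010,nat_lit 0x10001010,nat_lit 0x10010,nat_lit 0x100010,
    nat_lit 0x1000010,nat_lit 0x1000110,nat_lit 0x1001010,nat_lit 0x1010010,nat_lit 0x1100010,nat_lit 0x10000010],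
    [nat_lit 512,nat_lit 0x100200,nat_lit 0x1100,nat_lit 0x101100,nat_lit 0x10001100,nat_lit 0x10100,nat_lit 0x100100,
    nat_lit 0x200100,nat_lit 0x1000100,nat_lit 0x10000100],[nat_lit 0x2000,nat_lit 0x11000,nat_lit 0x101000,
    nat_lit 0x1001000,nat_lit 0x10001000,nat_lit 0x10101000],[nat_lit 0x20000,nat_lit 0x110000,nat_lit 0x10010000],
    [nat_lit 0x200000,nat_lit 0x1100000,nat_lit 0x10100000,nat_lit 0x11100000],[nat_lit 0x2000000,nat_lit 0x11000000],
    [nat_lit 0x20000000]]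
    [.c (nat_lit 1) (nat_lit 2),.r (nat_lit 0x1614) (nat_lit 9) [nat_lit 0x18611,nat_lit 0x10819,nat_lit 0x2001],
    .c (nat_lit 0) (nat_lit 0x2083),.r (nat_lit 0xdb4) (nat_lit 6) [nat_lit 0x2001,nat_lit 17],
    .r (nat_lit 0xdb3) (nat_lit 3) [nat_lit 0x12419,nat_lit 17],.r (nat_lit 0xdc0) (nat_lit 8) [nat_lit 17,
    nat_lit 0x2001],.c (nat_lit 1) (nat_lit 0x251a),.c (nat_lit 0) (nat_lit 0x2083),
    .r (nat_lit 0xdb3) (nat_lit 13) [nat_lit 0x401,nat_lit 0x1ba91],.r (nat_lit 0x15d8) (nat_lit 9) [nat_lit 0x2001,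
    nat_lit 0x24d1,nat_lit 0x3099],.r (nat_lit 0x14fa) (nat_lit 0) [nat_lit 0x611,nat_lit 0x2419,nat_lit 0x1b681],
    .c (nat_lit 2) (nat_lit 2),.r (nat_lit 0x166c) (nat_lit 7) [nat_lit 0x3011,nat_lit 0x401,nat_lit 0x2001,
    nat_lit 0x22019],.c (nat_lit 0) (nat_lit 0x6d3),.c (nat_lit 0) (nat_lit 0x6d3),.c (nat_lit 0) (nat_lit 0x6d3),
    .c (nat_lit 0) (nat_lit 0x2083),.c (nat_lit 0) (nat_lit 0x6d3),.c (nat_lit 1) (nat_lit 0x2103),
    .r (nat_lit 0xdc2) (nat_lit 5) [nat_lit 17,nat_lit 0x12419],.c (nat_lit 0) (nat_lit 0x6d3),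
    .r (nat_lit 0xdb8) (nat_lit 8) [nat_lit 17,nat_lit 0x401],.r (nat_lit 0xdb2) (nat_lit 9) [nat_lit 0x401,
    nat_lit 0x699],.r (nat_lit 0xdb3) (nat_lit 13) [nat_lit 0x401,nat_lit 0x699],.c (nat_lit 0) (nat_lit 0x602),
    .r (nat_lit 0xdb2) (nat_lit 13) [nat_lit 0x401,nat_lit 0x699],.r (nat_lit 0x12d5) (nat_lit 13) [nat_lit 0x18011,
    nat_lit 0x10819,nat_lit 0x10011,nat_lit 0x2001],.c (nat_lit 3) (nat_lit 2),
    .r (nat_lit 0xdc0) (nat_lit 8) [nat_lit 0x128d1,nat_lit 0x2001],.c (nat_lit 0) (nat_lit 0x6d3),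
    .c (nat_lit 0) (nat_lit 0x6d3),.r (nat_lit 0x1512) (nat_lit 9) [nat_lit 0x2001,nat_lit 0x419,nat_lit 17],
    .r (nat_lit 0xdbb) (nat_lit 13) [nat_lit 0x401,nat_lit 17],.c (nat_lit 0) (nat_lit 0x3753),
    .r (nat_lit 0x15d8) (nat_lit 9) [nat_lit 0x2001,nat_lit 0x14d51,nat_lit 0x1db19],
    .r (nat_lit 0x1658) (nat_lit 4) [nat_lit 0x401,nat_lit 17,nat_lit 0x1ba81],.c (nat_lit 0) (nat_lit 0x36d3),
    .c (nat_lit 4) (nat_lit 2),.r (nat_lit 0xdb3) (nat_lit 3) [nat_lit 17,nat_lit 0x12419],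
    .c (nat_lit 0) (nat_lit 0x6d3),.r (nat_lit 0x14c1) (nat_lit 6) [nat_lit 0x2019,nat_lit 17,nat_lit 0x401],
    .r (nat_lit 0x1614) (nat_lit 9) [nat_lit 0x419,nat_lit 17,nat_lit 0x2001],
    .r (nat_lit 0xdb4) (nat_lit 6) [nat_lit 0x2001,nat_lit 0x3099],.c (nat_lit 5) (nat_lit 2),
    .r (nat_lit 0xdb9) (nat_lit 6) [nat_lit 0x401,nat_lit 17],.r (nat_lit 0x14fa) (nat_lit 0) [nat_lit 0x2019,
    nat_lit 17,nat_lit 0x1b681],.c (nat_lit 6) (nat_lit 2),.r (nat_lit 0xdb3) (nat_lit 0) [nat_lit 17,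
    nat_lit 0x10401],.c (nat_lit 0) (nat_lit 0x36d3),.r (nat_lit 0xdbb) (nat_lit 13) [nat_lit 0x401,nat_lit 0x18699],
    .c (nat_lit 7) (nat_lit 2),.r (nat_lit 0xdb3) (nat_lit 13) [nat_lit 0x401,nat_lit 0x18699],
    .c (nat_lit 8) (nat_lit 2)],
    .l (nat_lit 13) (nat_lit 0x780) (nat_lit 3) (nat_lit 0x359000003590000034b000003870000035f0000035f000003c000000434000003c3000003c3000003680000036800000372000003720000035600000356) (nat_lit 0xdb000000db000000ad000000e9000000d5000000d500000000000000740000007100000071000000cc000000cc000000c2000000c2000000de000000de)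
    (nat_lit 0x14409e855825e14509e06b22d31740ba05322ad12f8a8c4f628713f0a204ac2701420a086b22a916b0ba053e26714b8a6451a29913809785402621590b306962d71800b684fa29113589dc4c626d12b0ab05b42a01590ac870e32919f07805762bb15e8b1456a2a914109e05642cc13a0a2892a2eb1770bb852626b14e8a745022891420a285642b214509d092a2eb16a0bb85422931378a7c5262971548b4c6522d71758bac78034c1a788645e430e1740bc05b83101ac8d6470e34b24a92548683c01188f0c3e43681b907806ac1f41740ba03c02da1770bb87862191a90d4891248923191dc5ca2e516b0ba067c30016a0bb846234f1a90d485ee2f71848c7458a2dd1338ab457629114989ac6d030e17b922450029c1570a9851428214f8a6457627d1508a4c3e42f217b92245382801530a984fc28214c8a8c58a27714f8a743c02f018e91dc54c2a615c0ac051029414b897c57a26b1378a746e42e8184918c54c2ae1580ae051029414c8a1c55226d14b8a243e831016e8b9450428214a0a5056027814689ec56a2631498a046ac2dc1628b944fc28a1440a204f82b0)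
    (nat_lit 0x1441e00f007803c01e00f007803c01e00f007803c01e00f0078013d0a20f007803c01e00f007803c01e00f007803c01e00f0078015609585407803c01e00f007803c01e00f007803c01e00f0078012f09c04c42a03c01e00f007803c01e00f007803c01e00f007801450a105642b213a1e00f007803c01e00f007803c01e00f0078013c0a085982b214509d0f007803c01e00f007803c01e00f007801ac8d6469638724a92547807803c01e00f007803c01e00f007801698aa45ae3291758bac6983c03c01e00f007803c01e00f007801740b5860033e1770b5069e2311a91e00f007803c01e00f007801740ba05b41e01770bb84323c31a90d48f007803c01e00f0078014c8a7c4fa2bb1498a845e41f22058bdc5007803c01e00f00780156899c5222bb1358a4c61c3682388bdc5382803c01e00f0078012f8a5c4d62bd14e89bc5d03722258c2455c2a615c1e00f007801518a644ee2c514e8a7c5e01e01fc8c7454c2a61580ae0f0078013d8a344c62b51408a4c5b83561728b1451427e1440a205607801438a644da2a91448a5c6201f41728b7450428214a0a504f02b0)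
    (nat_lit 3) (nat_lit 49)
    [[nat_lit 2,nat_lit 17,nat_lit 0x10011,nat_lit 257,nat_lit 0x10101,nat_lit 0x10000101,nat_lit 0x1001,
    nat_lit 0x11001,nat_lit 0x1001001,nat_lit 0x10001,nat_lit 0x100001,nat_lit 0x110001,nat_lit 0x1000001,
    nat_lit 0x11000001,nat_lit 0x10000001,nat_lit 0x10010001],[nat_lit 32,nat_lit 272,nat_lit 0x11010,
    nat_lit 0x1001010,nat_lit 0x10010,nat_lit 0x100010,nat_lit 0x110010,nat_lit 0x1000010,nat_lit 0x1010010,
    nat_lit 0x11000010,nat_lit 0x10000010,nat_lit 0x10000110,nat_lit 0x10010010],[nat_lit 512,nat_lit 0x1001100,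
    nat_lit 0x10100,nat_lit 0x11100,nat_lit 0x110100,nat_lit 0x10010100,nat_lit 0x100100,nat_lit 0x1000100,
    nat_lit 0x10000100],[nat_lit 0x2000,nat_lit 0x11000,nat_lit 0x1011000,nat_lit 0x101000,nat_lit 0x1001000,
    nat_lit 0x10001000,nat_lit 0x11001000],[nat_lit 0x1010000,nat_lit 0x10010000],[nat_lit 0x200000,nat_lit 0x300000,
    nat_lit 0x10200000,nat_lit 0x1100000,nat_lit 0x10100000],[nat_lit 0x2000000,nat_lit 0x12000000,nat_lit 0x11000000,
    nat_lit 0x21000000],[nat_lit 0x20000000]]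
    [.c (nat_lit 1) (nat_lit 2),.c (nat_lit 0) (nat_lit 0x26d3),.r (nat_lit 0xdb2) (nat_lit 14) [nat_lit 0x401,
    nat_lit 0x699],.r (nat_lit 0xdbb) (nat_lit 2) [nat_lit 0x2001,nat_lit 17],
    .r (nat_lit 0x1549) (nat_lit 11) [nat_lit 0x401,nat_lit 0x2001,nat_lit 0x3611],
    .r (nat_lit 0xdb3) (nat_lit 2) [nat_lit 0x2001,nat_lit 17],.r (nat_lit 0xdb2) (nat_lit 2) [nat_lit 0x2001,
    nat_lit 0x13099],.r (nat_lit 0x1545) (nat_lit 3) [nat_lit 0x401,nat_lit 0x611,nat_lit 0x2419],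
    .r (nat_lit 0xdb3) (nat_lit 6) [nat_lit 0x2001,nat_lit 0x3099],.r (nat_lit 0x161e) (nat_lit 2) [nat_lit 0x2019,
    nat_lit 17],.r (nat_lit 0xdb2) (nat_lit 14) [nat_lit 0x401,nat_lit 0x18011],.c (nat_lit 0) (nat_lit 0x602),
    .c (nat_lit 0) (nat_lit 0x6d3),.c (nat_lit 1) (nat_lit 0x2002),.c (nat_lit 0) (nat_lit 0x6d3),
    .r (nat_lit 0x162a) (nat_lit 11) [nat_lit 0x401,nat_lit 0x10001,nat_lit 0x1b681,nat_lit 0x18011],
    .c (nat_lit 2) (nat_lit 2),.r (nat_lit 0xdb9) (nat_lit 5) [nat_lit 0x2001,nat_lit 17],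
    .r (nat_lit 0x1552) (nat_lit 7) [nat_lit 0x2001,nat_lit 0x3681,nat_lit 0x24d1],
    .r (nat_lit 0xdb3) (nat_lit 2) [nat_lit 0x2001,nat_lit 0x3099],.r (nat_lit 0xdb8) (nat_lit 5) [nat_lit 17,
    nat_lit 0x401],.r (nat_lit 0x161e) (nat_lit 6) [nat_lit 0x2019,nat_lit 17],.c (nat_lit 1) (nat_lit 0x20d3),
    .c (nat_lit 0) (nat_lit 0x36d5),.r (nat_lit 0xdb3) (nat_lit 14) [nat_lit 0x401,nat_lit 0x699],
    .c (nat_lit 0) (nat_lit 0x36d5),.c (nat_lit 0) (nat_lit 0x36d3),.r (nat_lit 0xdb3) (nat_lit 6) [nat_lit 0x2001,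
    nat_lit 17],.r (nat_lit 0xdb3) (nat_lit 7) [nat_lit 0x401,nat_lit 0x699],.c (nat_lit 3) (nat_lit 2),
    .c (nat_lit 0) (nat_lit 194),.r (nat_lit 0x14ca) (nat_lit 14) [nat_lit 0x3011,nat_lit 0x2419,nat_lit 0x2001],
    .c (nat_lit 0) (nat_lit 194),.c (nat_lit 0) (nat_lit 0x602),.r (nat_lit 0x1553) (nat_lit 2) [nat_lit 0x401,
    nat_lit 0x2019,nat_lit 17],.r (nat_lit 0xdb8) (nat_lit 14) [nat_lit 17,nat_lit 0x2419],
    .r (nat_lit 0x161e) (nat_lit 7) [nat_lit 0x419,nat_lit 17],.r (nat_lit 0xdbc) (nat_lit 6) [nat_lit 0x2001,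
    nat_lit 17],.c (nat_lit 4) (nat_lit 2),.r (nat_lit 0xdb8) (nat_lit 14) [nat_lit 0x2419,nat_lit 17],
    .r (nat_lit 0x1552) (nat_lit 6) [nat_lit 0x401,nat_lit 0x3681,nat_lit 0x24d1],
    .r (nat_lit 0x14ca) (nat_lit 14) [nat_lit 0x419,nat_lit 17,nat_lit 0x2001],
    .r (nat_lit 0xdb8) (nat_lit 3) [nat_lit 17,nat_lit 0x2001],.r (nat_lit 0x161e) (nat_lit 14) [nat_lit 0x419,
    nat_lit 17],.r (nat_lit 0xdb2) (nat_lit 2) [nat_lit 0x2001,nat_lit 0x3099],
    .r (nat_lit 0x167e) (nat_lit 6) [nat_lit 0x401,nat_lit 0x24d1,nat_lit 0x699],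
    .r (nat_lit 0x1542) (nat_lit 2) [nat_lit 0x2019,nat_lit 17,nat_lit 0x401],.c (nat_lit 6) (nat_lit 2),
    .r (nat_lit 0x1607) (nat_lit 11) [nat_lit 17,nat_lit 0x6019,nat_lit 0x401,nat_lit 0x10001],
    .r (nat_lit 0x1633) (nat_lit 6) [nat_lit 0x4019,nat_lit 17,nat_lit 0x401],
    .r (nat_lit 0xdb9) (nat_lit 14) [nat_lit 17,nat_lit 0x401],.r (nat_lit 0xdbb) (nat_lit 14) [nat_lit 0x401,
    nat_lit 17],.c (nat_lit 7) (nat_lit 2),.c (nat_lit 0) (nat_lit 0x36d3),.c (nat_lit 0) (nat_lit 0x3003),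
    .c (nat_lit 0) (nat_lit 0x36d3),.c (nat_lit 8) (nat_lit 2)]]

/-- nodes -/
noncomputable def rD8k_37_12 : List RJ :=
  [.l (nat_lit 10) (nat_lit 240) (nat_lit 3) (nat_lit 0x63000000630000006000000060000000600000006000000070000000700000006d0000006d000000610000006100000062000000620000006300000063) (nat_lit 0xd0000000d00000010000000100000001000000010000000000000000000000003000000030000000f0000000f0000000e0000000e0000000d0000000d)
    (nat_lit 0x1605614c5314c530f463180601504615455158561585814c5314c5318c63180601485615c551585614c5314050140501806016c5d14451148541445114c531405014050180601345d14c511485614c5314c531405014050180601745d134611485014c5314c53140501405015860174551443b1485214c5318c6318060180601e07020c77184611886218c6318c3d1806015860200781e46d184611006218c63180601745d1545d1b4771a85a1785217c5f21882180601345b1745d1e4831a86a1785e17c491b86a15846144510ec6118461178521a05212453150541485414c511444d184611785e150681545315054154551585414850188621245f14c53150521545315c5514852148521006217c5f1544915054154551585614c5114c5318c631a8821505415453158561585614c5114c5318c631b886150541545515856)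
    (nat_lit 0x160f03c0f03c0f03c0f03c0f03c0f03c0f03c0f0158583c0f03c0f03c0f03c0f03c0f03c0f03c0f014c53140f03c0f03c0f03c0f03c0f03c0f03c0f014c53140503c0f03c0f03c0f03c0f03c0f03c0f014c5314050140f03c0f03c0f03c0f03c0f03c0f014c5314050140503c0f03c0f03c0f03c0f03c0f00f46318060180561e0f03c0f03c0f03c0f03c0f018c6318060180601c0783c0f03c0f03c0f03c0f01806016c4d1745d20c791a8f03c0f03c0f03c0f0180601745d174551dc6d1686a3c0f03c0f03c0f0150521445313451184611785e1a0f03c0f03c0f011856144511843b184611485e148683c0f03c0f01545714852148521884017c5f12455150f03c0f01545515056140521886217c4914c53148543c0f0158561445314c5318c632186e1505415455158f0158561445314c5318c632086a1505414c5515856)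
    (nat_lit 2) (nat_lit 37)
    [[nat_lit 2,nat_lit 17,nat_lit 257,nat_lit 0x100101,nat_lit 0x10001,nat_lit 0x100001,nat_lit 0x1000001,
    nat_lit 0x10000001],[nat_lit 32,nat_lit 272,nat_lit 0x100110,nat_lit 0x1010,nat_lit 0x10010,nat_lit 0x100010,
    nat_lit 0x1000010,nat_lit 0x10000010],[nat_lit 512,nat_lit 0x1100,nat_lit 0x10100,nat_lit 0x100100,
    nat_lit 0x200100,nat_lit 0x1100100,nat_lit 0x10100100,nat_lit 0x1000100,nat_lit 0x11000100,nat_lit 0x10000100],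
    [nat_lit 0x2000,nat_lit 0x101000,nat_lit 0x1001000,nat_lit 0x10001000],[nat_lit 0x110000,nat_lit 0x1010000,
    nat_lit 0x10010000],[nat_lit 0x200000,nat_lit 0x1100000,nat_lit 0x10100000],[nat_lit 0x2000000,
    nat_lit 0x11000000],[nat_lit 0x20000000]]
    [.c (nat_lit 1) (nat_lit 2),.r (nat_lit 0xdb3) (nat_lit 11) [nat_lit 9,nat_lit 0xa8d],
    .c (nat_lit 0) (nat_lit 971),.r (nat_lit 0xdb3) (nat_lit 1) [nat_lit 513,nat_lit 813],.c (nat_lit 1) (nat_lit 34),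
    .r (nat_lit 0xdb3) (nat_lit 2) [nat_lit 201,nat_lit 0xf21],.r (nat_lit 0xdbb) (nat_lit 3) [nat_lit 513,nat_lit 9],
    .c (nat_lit 0) (nat_lit 971),.c (nat_lit 2) (nat_lit 2),.r (nat_lit 0xdb8) (nat_lit 11) [nat_lit 641,nat_lit 9],
    .r (nat_lit 0xdb2) (nat_lit 3) [nat_lit 513,nat_lit 813],.r (nat_lit 0x165b) (nat_lit 5) [nat_lit 969,
    nat_lit 641],.r (nat_lit 0xdb3) (nat_lit 11) [nat_lit 137,nat_lit 0xa0d],.c (nat_lit 0) (nat_lit 515),
    .c (nat_lit 0) (nat_lit 515),.r (nat_lit 0xdbb) (nat_lit 1) [nat_lit 513,nat_lit 9],.c (nat_lit 3) (nat_lit 2),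
    .r (nat_lit 0x14e7) (nat_lit 1) [nat_lit 193,nat_lit 969,nat_lit 641],.c (nat_lit 0) (nat_lit 0x3fb),
    .r (nat_lit 0xdb8) (nat_lit 14) [nat_lit 9,nat_lit 513],.r (nat_lit 0x1640) (nat_lit 11) [nat_lit 129,nat_lit 513,
    nat_lit 0x801],.r (nat_lit 0xdb2) (nat_lit 1) [nat_lit 513,nat_lit 813],
    .r (nat_lit 0xdb3) (nat_lit 3) [nat_lit 513,nat_lit 813],.r (nat_lit 0x1640) (nat_lit 11) [nat_lit 129,
    nat_lit 513,nat_lit 0x801],.r (nat_lit 0xdb5) (nat_lit 11) [nat_lit 641,nat_lit 0x3ed],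
    .c (nat_lit 0) (nat_lit 971),.c (nat_lit 4) (nat_lit 2),.r (nat_lit 0xdb3) (nat_lit 3) [nat_lit 513,
    nat_lit 0xa8d],.r (nat_lit 0xdb5) (nat_lit 11) [nat_lit 641,nat_lit 0xa0d],
    .r (nat_lit 0x161e) (nat_lit 1) [nat_lit 525,nat_lit 9],.r (nat_lit 0xdb3) (nat_lit 2) [nat_lit 9,nat_lit 0xf21],
    .r (nat_lit 0xdbb) (nat_lit 3) [nat_lit 513,nat_lit 137],.c (nat_lit 0) (nat_lit 0x3fb),
    .c (nat_lit 6) (nat_lit 2),.c (nat_lit 0) (nat_lit 515),.r (nat_lit 0x1640) (nat_lit 11) [nat_lit 129,nat_lit 513,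
    nat_lit 0x801],.c (nat_lit 7) (nat_lit 2),.r (nat_lit 0xdb9) (nat_lit 3) [nat_lit 9,nat_lit 513],
    .c (nat_lit 8) (nat_lit 2)],
    .l (nat_lit 15) (nat_lit 0x1680) (nat_lit 3) (nat_lit 0xb4000000c9c00000b7300000b7300000a1300000a1300000a4c00000a4c00000a2800000a2800000a2800000a2800000a3d00000a3d000009dd000009dd) (nat_lit 0x15c000001290000012900000289000002890000025000000250000002740000027400000274000002740000025f0000025f000002bf000002bf)
    (nat_lit 0x16801db85508a17116e22dc47808f012e825884e408ae0d4221bc44088691e242d003a88b731426284c52605a01a3c34303ab0a28147a28f44ee85f716e6285c52507d41b2c343031f892311fe23fc47f860919f42f9845a08b40ea22a845250a4a12e823a849d8923119e226446189051534261845a08b4142622dc4750d0c0f141e2841487390f321e1c39687cf0f681fc036505ce142622dc4ba0d960f081e2841487c30f3e1e7c3c687c90f6821403aa071e0b4023c049189230f861ce43fe08020f5c1dc839e07d810461ffc3c6878d149823c049d863f105220a43fe07fc0fb01f603bf07d80e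8a1fb437b87871a18258844c88ff0f3e1e1c3ec07720f681ed03da07b40f9e208c3b488111a3c25d046788ff0f3e1e643ec07ae0f441ed03ef07b40fda1f243c3882f145022b848286090f921f3c3ec07d80f681ed03da07c60e061e7c36087450eac272046188ff0f1a1cb43bf073c0fbc1ed043d07b40f921f243ed880b147a21bc4c30be610a01fc03f687ff0f92208c3e4879f0e781c60341077e147a1a8454d0cfa0f681ed03a288230fda1f3c3e487030d281cf03cb077e0bee21a445a08b40e3c17383c3878d105e204440587450efc1df84af086813ba220445a08b40ea81b2837b878d0f0e1da43ed86c10f2c1a084ca095e)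
    (nat_lit 0x16805a00b4016802d005a00b4016802d005a00b4016802d005a00b4016800edc2d00b4016802d005a00b4016802d005a00b4016802d005a00b40168015421d4452516802d005a00b4016802d005a00b4016802d005a00b401680142e2dcc3ea0a4a2d005a00b4016802d005a00b4016802d005a00b401680116e284c6cb09740f145a00b4016802d005a00b4016802d005a00b401680116e284c68608ea0f141e28b4016802d005a00b4016802d005a00b40168011e0293031f893b105220a43fe16802d005a00b4016802d005a00b40168011e0168049189230e721f0c40107fc2d005a00b4016802d005a00b40168012e8347847f88cf0f321e7c3d707d80f685a00b4016802d005a00b40168012c4343047f88990f0e1e7c3b907d80f681ed0b4016802d005a00b40168013901d5847f88c30e5a1e3439e077e0f681f783da16802d005a00b401680115c28a030489050f9e1f243ec07d80f681ed03e307b42d005a00b4016800d4228f467d0a9a0f681ed041187450f9e1fb438187c90e785a00b40168010de28f45f309860fe021403ff87ed10461f243cf87c90e301cf0b4016801102277445a08b40d941d503c686f70ed21e1c36087db0d041e584af168010d217dc45a08b40b9c1c783c68787102220bc3a2880b0efc1df8434095e)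
    (nat_lit 3) (nat_lit 83)
    [[nat_lit 2,nat_lit 17,nat_lit 33,nat_lit 273,nat_lit 0x10011,nat_lit 0x100011,nat_lit 0x10000011,nat_lit 257,
    nat_lit 0x10101,nat_lit 0x100101,nat_lit 0x1001,nat_lit 0x101001,nat_lit 0x10001,nat_lit 0x110001,
    nat_lit 0x10010001,nat_lit 0x100001,nat_lit 0x200001,nat_lit 0x10100001,nat_lit 0x1000001,nat_lit 0x10000001],
    [nat_lit 32,nat_lit 48,nat_lit 288,nat_lit 272,nat_lit 0x10110,nat_lit 0x1010,nat_lit 0x10010,nat_lit 0x10010010,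
    nat_lit 0x100010,nat_lit 0x10000010,nat_lit 0x10000110],[nat_lit 512,nat_lit 0x1100,nat_lit 0x10100,
    nat_lit 0x10010100,nat_lit 0x100100,nat_lit 0x1000100,nat_lit 0x10000100],[nat_lit 0x2000,nat_lit 0x11000,
    nat_lit 0x101000,nat_lit 0x1001000],[nat_lit 0x20000,nat_lit 0x110000,nat_lit 0x1010000,nat_lit 0x10010000],
    [nat_lit 0x200000,nat_lit 0x10100000],[nat_lit 0x2000000,nat_lit 0x11000000],[]]
    [.c (nat_lit 1) (nat_lit 2),.c (nat_lit 0) (nat_lit 0x483),.r (nat_lit 0x165b) (nat_lit 9) [nat_lit 0x2419,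
    nat_lit 0x2001],.c (nat_lit 0) (nat_lit 0x1b013),.c (nat_lit 0) (nat_lit 0x1b013),
    .r (nat_lit 0x165b) (nat_lit 9) [nat_lit 0x80419,nat_lit 0x2001],.r (nat_lit 0xdbc) (nat_lit 10) [nat_lit 0x80001,
    nat_lit 0x12419],.c (nat_lit 0) (nat_lit 0x1b613),.c (nat_lit 1) (nat_lit 0x1249a),
    .c (nat_lit 0) (nat_lit 0x3613),.r (nat_lit 0xdbc) (nat_lit 10) [nat_lit 0x80001,nat_lit 17],
    .r (nat_lit 0xdb3) (nat_lit 0) [nat_lit 0x80001,nat_lit 0xc2011],.c (nat_lit 0) (nat_lit 0x1b613),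
    .c (nat_lit 0) (nat_lit 0x3613),.r (nat_lit 0xdb2) (nat_lit 0) [nat_lit 0x80001,nat_lit 0xc0099],
    .c (nat_lit 0) (nat_lit 0x10083),.r (nat_lit 0x165b) (nat_lit 9) [nat_lit 0x103419,nat_lit 0x2001],
    .r (nat_lit 0xdbc) (nat_lit 10) [nat_lit 0x80001,nat_lit 0x90419],.r (nat_lit 0x165b) (nat_lit 9) [nat_lit 0x3011,
    nat_lit 0x2001],.r (nat_lit 0xdb3) (nat_lit 0) [nat_lit 0x80001,nat_lit 0x12419],.c (nat_lit 2) (nat_lit 2),
    .r (nat_lit 0x165b) (nat_lit 9) [nat_lit 0x241a,nat_lit 0x2001],.r (nat_lit 0x1605) (nat_lit 0) [nat_lit 0x10001,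
    nat_lit 0x2019,nat_lit 0x83011],.c (nat_lit 0) (nat_lit 0x2d0e5),.c (nat_lit 0) (nat_lit 0x2d6e5),
    .r (nat_lit 0xdbb) (nat_lit 8) [nat_lit 0x12019,nat_lit 17],.c (nat_lit 0) (nat_lit 0x2d0e5),
    .r (nat_lit 0xdb3) (nat_lit 10) [nat_lit 0x80001,nat_lit 0xc0099],.c (nat_lit 2) (nat_lit 0x18402),
    .r (nat_lit 0x165b) (nat_lit 13) [nat_lit 0x3011,nat_lit 0x2001],
    .r (nat_lit 0x1682) (nat_lit 15) [nat_lit 0xc2001,nat_lit 0x80001,nat_lit 0xc0099],.c (nat_lit 3) (nat_lit 2),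
    .r (nat_lit 0xdb9) (nat_lit 14) [nat_lit 0x80001,nat_lit 17],.c (nat_lit 0) (nat_lit 0x1b6d3),
    .r (nat_lit 0xdb3) (nat_lit 0) [nat_lit 0x80001,nat_lit 0xc0099],.c (nat_lit 0) (nat_lit 0x5ae5),
    .r (nat_lit 0xdbe) (nat_lit 8) [nat_lit 17,nat_lit 0x10001],.r (nat_lit 0xdba) (nat_lit 8) [nat_lit 0x2001,
    nat_lit 17],.c (nat_lit 4) (nat_lit 2),.r (nat_lit 0xdbc) (nat_lit 3) [nat_lit 17,nat_lit 0x2001],
    .r (nat_lit 0xdbb) (nat_lit 8) [nat_lit 0x90019,nat_lit 0xc2011],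
    .r (nat_lit 0x165b) (nat_lit 13) [nat_lit 0x10019,nat_lit 0x2001],.c (nat_lit 5) (nat_lit 2),
    .c (nat_lit 0) (nat_lit 0x5ae5),.r (nat_lit 0x1654) (nat_lit 0) [nat_lit 0x10001,nat_lit 0x900d1,nat_lit 0x18099],
    .r (nat_lit 0xdb8) (nat_lit 6) [nat_lit 17,nat_lit 0x80001],.c (nat_lit 6) (nat_lit 2),
    .r (nat_lit 0x165b) (nat_lit 13) [nat_lit 0xc0011,nat_lit 0x2001],.c (nat_lit 7) (nat_lit 2),
    .r (nat_lit 0xdbb) (nat_lit 8) [nat_lit 17,nat_lit 0x12019]],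
    .l (nat_lit 14) (nat_lit 0x960) (nat_lit 3) (nat_lit 0x46e000004640000045900000459000004180000052000000516000003bc000004310000043100000408000004cc00000452000003bc00000488000003bc) (nat_lit 0xbc000000b2000000c7000000c70000000000000108000001640000000a000000ef000000ef000000540000011800000164000000ce0000016400000098)
    (nat_lit 0xfa03bc0f1c44f09603660b504640dfc25912c03b60b503a00c283d60ea03e80e7439d119035c0c002a40dd4375096034c0d0841609602580e7444f0e48392183c3510bd444f0da836a0e1434111a45430afc37f0e743c70d50392183c35109b43b70da837410142b910744f70bd43c10d703660d4435112c034e0aa82580ec43b109603000ad034a0a502581190258183c60f18484b00ef051609b43fb133040809602580ef04b00a904640edc44f14582580fa041a109c4271af05c20e2844817205e20c002d409b42f50ef02aa09603e80b342cd0e782a409602ee0df83980dd42590dd036a0fec3b10b344270d083420f74319096432d0c0c3990dd437f0da836a09b43b10b344270f683420f743190bc43c509b436f0d303b60ae434110203000a905c20c643190d482580b3833a0a9034c09604b0101438513302580e786bc0f743dd11e03520ef03fe0da043a10583a013dc543096034a0bb84480f1432d0ff833a0ba038409603660d082d4107446909602b4096038a0bc42590ef02ce09602e8096032409603d60f0437f12c02580e605e20dbc39910e834c0c903660d683f0096030a0bd42bf0ef02940df85c809b43030da02a40960258096035a)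
    (nat_lit 0xfa096025809602580960258096025809602580960258096025809600ef03e825809602580960258096025809602580960258096025809600f1c39d0e48960258096025809602580960258096025809602580960113c39d0e48392258096025809602580960258096025809602580960096046417d45f512c0960258096025809602580960258096025809600d9835c0d443510d384b0258096025809602580960258096025809600b503000bd426d0aa83bc0fa0960258096025809602580960258096011902a4113c3b709604fc10683e825809602580960258096025809600dfc3750da836a0ec426d109c2cd0d0896025809602580960258096009643750da83740ec43fb109c2cd0d0834225809602580960258096012c02580e1440509604b01af039e0f743dd0d48960258096025809600ed834c0d042b90c0040817082a40c643190960352258096025809600b5034211a441d0ad02580e2825809642f10b383bc0ba096025809600e80416150c4f70d2825811202ee0cb43c50ce83fe0e102e825809600c282580afc2f50a503bc16b837e0c0c26d0a9036809602580d689600f582580dfc3c109604b017883980e6436f0d3043a0d983240fc035a)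
    (nat_lit 3) (nat_lit 101)
    [[nat_lit 2,nat_lit 18,nat_lit 0x10000002,nat_lit 17,nat_lit 33,nat_lit 0x1011,nat_lit 0x100011,
    nat_lit 0x10000011,nat_lit 257,nat_lit 0x10000101,nat_lit 0x1001,nat_lit 0x101001,nat_lit 0x10001001,
    nat_lit 0x2001,nat_lit 0x100001,nat_lit 0x10100001,nat_lit 0x1000001,nat_lit 0x11000001,nat_lit 0x10000001,
    nat_lit 0x10010001,nat_lit 0x20000001],[nat_lit 32,nat_lit 48,nat_lit 0x1020,nat_lit 0x100020,nat_lit 272,
    nat_lit 0x100110,nat_lit 0x10000110,nat_lit 0x1010,nat_lit 0x101010,nat_lit 0x10010,nat_lit 0x110010,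
    nat_lit 0x10010010,nat_lit 0x100010,nat_lit 0x10100010,nat_lit 0x200010,nat_lit 0x10000010],[nat_lit 512,
    nat_lit 0x1100,nat_lit 0x101100,nat_lit 0x100100,nat_lit 0x10100100,nat_lit 0x1000100,nat_lit 0x10000100,
    nat_lit 0x10001100],[nat_lit 0x2000,nat_lit 0x10002000,nat_lit 0x11000,nat_lit 0x111000,nat_lit 0x10011000,
    nat_lit 0x101000,nat_lit 0x1101000,nat_lit 0x10101000,nat_lit 0x1001000,nat_lit 0x10001000],[nat_lit 0x20000,
    nat_lit 0x110000,nat_lit 0x10110000,nat_lit 0x1010000,nat_lit 0x10010000],[nat_lit 0x10100000,nat_lit 0x11100000],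
    [nat_lit 0x2000000,nat_lit 0x11000000],[nat_lit 0x20000000]]
    [.c (nat_lit 1) (nat_lit 2),.c (nat_lit 0) (nat_lit 0x2bae3),.c (nat_lit 0) (nat_lit 0x2bae3),
    .c (nat_lit 0) (nat_lit 0x2bae3),.r (nat_lit 0x1512) (nat_lit 0) [nat_lit 0x2001,nat_lit 0x419,nat_lit 0x80611],
    .c (nat_lit 0) (nat_lit 0x18613),.r (nat_lit 0x1512) (nat_lit 0) [nat_lit 0x2001,nat_lit 0x80019,nat_lit 17],
    .c (nat_lit 0) (nat_lit 0x2bae3),.r (nat_lit 0xdbb) (nat_lit 10) [nat_lit 0x80001,nat_lit 17],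
    .r (nat_lit 0xdb9) (nat_lit 14) [nat_lit 0x80001,nat_lit 0x924d1],.c (nat_lit 0) (nat_lit 0x18613),
    .c (nat_lit 0) (nat_lit 0x6d3),.c (nat_lit 4) (nat_lit 0x1249a),.r (nat_lit 0x165b) (nat_lit 9) [nat_lit 0x18611,
    nat_lit 0x401],.c (nat_lit 0) (nat_lit 0x1bb63),.c (nat_lit 0) (nat_lit 0x1bb63),
    .r (nat_lit 0x165b) (nat_lit 9) [nat_lit 0x611,nat_lit 0x401],.r (nat_lit 0xdb4) (nat_lit 14) [nat_lit 0x2001,
    nat_lit 17],.c (nat_lit 0) (nat_lit 0x2bae5),.r (nat_lit 0xdb2) (nat_lit 0) [nat_lit 0x80001,nat_lit 0xc0099],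
    .c (nat_lit 0) (nat_lit 0x2bae3),.c (nat_lit 2) (nat_lit 2),.r (nat_lit 0xdb4) (nat_lit 14) [nat_lit 0x2001,
    nat_lit 0x15d51a],.r (nat_lit 0xdb4) (nat_lit 14) [nat_lit 0x2001,nat_lit 0xc3499],
    .r (nat_lit 0xdb4) (nat_lit 14) [nat_lit 0x2001,nat_lit 0xdd11a],.r (nat_lit 0xdbb) (nat_lit 5) [nat_lit 17,
    nat_lit 0x2419],.r (nat_lit 0x1623) (nat_lit 10) [nat_lit 0x83611,nat_lit 0x82419,nat_lit 0xc3411,nat_lit 0x2001],
    .r (nat_lit 0x1682) (nat_lit 15) [nat_lit 0xc0401,nat_lit 0x80001,nat_lit 0xc0099],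
    .c (nat_lit 0) (nat_lit 0x2085),.r (nat_lit 0xdb4) (nat_lit 14) [nat_lit 0x2001,nat_lit 0x3099],
    .r (nat_lit 0x161e) (nat_lit 10) [nat_lit 0x83611,nat_lit 0x2419],
    .r (nat_lit 0x1212) (nat_lit 15) [nat_lit 0xc3411,nat_lit 0x82419,nat_lit 0x83611,nat_lit 0x2001],
    .r (nat_lit 0xdb3) (nat_lit 10) [nat_lit 0x80001,nat_lit 0xc0099],.c (nat_lit 2) (nat_lit 0x18082),
    .r (nat_lit 0x15fd) (nat_lit 10) [nat_lit 0x2001,nat_lit 0x820d1,nat_lit 0x3099],
    .r (nat_lit 0xdb4) (nat_lit 14) [nat_lit 0x2001,nat_lit 0x1d71a],.c (nat_lit 0) (nat_lit 0x2bae3),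
    .c (nat_lit 3) (nat_lit 2),.r (nat_lit 0xdb9) (nat_lit 14) [nat_lit 0x80001,nat_lit 17],
    .r (nat_lit 0xdb2) (nat_lit 0) [nat_lit 0x80001,nat_lit 0xc0411],.r (nat_lit 0xdbb) (nat_lit 5) [nat_lit 0xc0411,
    nat_lit 0x82019],.r (nat_lit 0x1682) (nat_lit 15) [nat_lit 0xc0401,nat_lit 0x80001,nat_lit 0x699],
    .r (nat_lit 0x161e) (nat_lit 10) [nat_lit 0x80019,nat_lit 17],.r (nat_lit 0xdba) (nat_lit 8) [nat_lit 0x401,
    nat_lit 17],.r (nat_lit 0xdb5) (nat_lit 8) [nat_lit 0x401,nat_lit 17],.c (nat_lit 4) (nat_lit 2),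
    .r (nat_lit 0xdbb) (nat_lit 4) [nat_lit 0x18011,nat_lit 0x2001],.r (nat_lit 0xdb2) (nat_lit 0) [nat_lit 0x80001,
    nat_lit 0x12419],.r (nat_lit 0xdb9) (nat_lit 14) [nat_lit 0x80001,nat_lit 0x92019],
    .r (nat_lit 0xdb2) (nat_lit 10) [nat_lit 0x80001,nat_lit 0xc0099],.c (nat_lit 0) (nat_lit 0x12003),
    .c (nat_lit 0) (nat_lit 0x18002),.c (nat_lit 0) (nat_lit 0x6d3),.r (nat_lit 0xdb4) (nat_lit 14) [nat_lit 0x2001,
    nat_lit 0xdb691],.c (nat_lit 0) (nat_lit 0x18613),.c (nat_lit 5) (nat_lit 2),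
    .r (nat_lit 0x161e) (nat_lit 10) [nat_lit 0x3011,nat_lit 0x82019],
    .r (nat_lit 0xdb3) (nat_lit 10) [nat_lit 0x80001,nat_lit 0x699],.r (nat_lit 0xdbb) (nat_lit 5) [nat_lit 0x2419,
    nat_lit 17],.r (nat_lit 0xdb8) (nat_lit 6) [nat_lit 17,nat_lit 0x80001],.c (nat_lit 0) (nat_lit 0x1bb63),
    .c (nat_lit 0) (nat_lit 0x18002),.c (nat_lit 7) (nat_lit 2),.r (nat_lit 0xdbb) (nat_lit 4) [nat_lit 17,
    nat_lit 0x2001],.c (nat_lit 8) (nat_lit 2)]]

/-- nodes -/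
noncomputable def rD8k_37_13 : List RJ :=
  [.l (nat_lit 13) (nat_lit 0x5a0) (nat_lit 3) (nat_lit 0x25c0000025c0000025c0000025c00000262000002620000029000000290000002d0000002d4000002770000027700000268000002680000026200000262) (nat_lit 0x780000007800000078000000780000007200000072000000440000004400000000000000040000005d0000005d0000006c0000006c0000007200000072)
    (nat_lit 0xf207a83d41f00f8074834821812e09603fe1ab0fb07c03d41ea0fb07903c81e40f5073043021812e09604221ff0f808083bc1e40f207c04041d20f507a843021812e09603da1ff0fb07783d41ea0f207a83982020f507a843021812e09603b61ff10407184041cc0e607483d41ea0f8082043c21e131097845e20510a08683d41d80f507c03d41ea10107c043c21e131076842e1810fb07d83e01f010c086043021810f08785a023a18a0a30466233112084843021e10c069043021810f08786cc2d018a0a304662330cc089043c21e12c09604b02580ed097851828c16806c84e61ef13209905a42ea12e09704b825c13109886283140b40b404ee27713406c856c2ce0ff86ac3fe1ff0c0881446623313b87bc5a03860cf882c40a20510887fc3b61ed10b88bc46623313b89cc4342d0102882c40a20b10107c038c1de0fb08684482120d9099041620b0fb07f03ec1fc0f807d84101f60fb0850330224134099040a19f0fe07d83ec1f60f207a83981ea0f8076043c21e1670ba84162050fb07f03d41f00ef07a84041ea0f807a843c21815b0b4840a2050fb07d83d41ea)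
    (nat_lit 0xf21680b405a02d01680b405a02d01680b405a02d01680b405a00f50790b405a02d01680b405a02d01680b405a02d01680b405a00f507904045a02d01680b405a02d01680b405a02d01680b405a00f807903a42022d01680b405a02d01680b405a02d01680b405a00f807a83d41ea0f81680b405a02d01680b405a02d01680b405a00e907303d41ea10407c0b405a02d01680b405a02d01680b405a00d2086043021810f08785a05a02d01680b405a02d01680b405a010c086043021810f08784742d02d01680b405a02d01680b405a012e09704b825c13109886283141681680b405a02d01680b405a012c09604b025812f076851828c0d90b40b405a02d01680b405a00ff88443da1db117885c46623313989dc5a05a02d01680b405a00d587fc3fe1ff10286044662330f789dc70c2d02d01680b405a00fb07c03ec20810a07d844819813209a033e2050fb1680b405a00f808083bc1c610d07d842422413206c841620b0fe07d8b405a00f507783d42020f507c043021e1690ad840a2050fb07d83d45a00f507903d41cc0ec07c043c21e1750b3840a20b0fe07d83e01ea)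
    (nat_lit 3) (nat_lit 27)
    [[nat_lit 2,nat_lit 17,nat_lit 257,nat_lit 0x100101,nat_lit 0x10000101,nat_lit 0x10001,nat_lit 0x100001,
    nat_lit 0x1000001,nat_lit 0x10000001,nat_lit 0x11000001],[nat_lit 32,nat_lit 272,nat_lit 0x1000110,nat_lit 0x1010,
    nat_lit 0x10010,nat_lit 0x1010010,nat_lit 0x100010,nat_lit 0x1000010,nat_lit 0x10000010],[nat_lit 0x1100,
    nat_lit 0x10100,nat_lit 0x100100,nat_lit 0x10100100,nat_lit 0x1000100,nat_lit 0x1100100,nat_lit 0x11000100,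
    nat_lit 0x10000100],[nat_lit 0x2000,nat_lit 0x101000,nat_lit 0x1001000,nat_lit 0x10001000],[nat_lit 0x110000,
    nat_lit 0x1010000,nat_lit 0x10010000,nat_lit 0x10110000],[nat_lit 0x200000,nat_lit 0x1100000,nat_lit 0x10100000],
    [nat_lit 0x2000000,nat_lit 0x11000000],[nat_lit 0x20000000]]
    [.c (nat_lit 1) (nat_lit 2),.r (nat_lit 0xdba) (nat_lit 11) [nat_lit 0x2401,nat_lit 0x611],
    .c (nat_lit 0) (nat_lit 0x3613),.r (nat_lit 0xdb3) (nat_lit 1) [nat_lit 0x2001,nat_lit 0x3099],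
    .r (nat_lit 0x1682) (nat_lit 11) [nat_lit 0x401,nat_lit 0x2001,nat_lit 0x3099],.c (nat_lit 1) (nat_lit 130),
    .r (nat_lit 0x14bd) (nat_lit 6) [nat_lit 0x3611,nat_lit 0x2001,nat_lit 0x2401],.c (nat_lit 0) (nat_lit 0x3613),
    .r (nat_lit 0xdbd) (nat_lit 13) [nat_lit 0x2001,nat_lit 17],.r (nat_lit 0xdb2) (nat_lit 3) [nat_lit 0x2001,
    nat_lit 17],.c (nat_lit 2) (nat_lit 2),.r (nat_lit 0xdb8) (nat_lit 11) [nat_lit 0x2401,nat_lit 17],
    .r (nat_lit 0x165b) (nat_lit 5) [nat_lit 0x120d1,nat_lit 0x2401],.r (nat_lit 0x165b) (nat_lit 5) [nat_lit 0x3611,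
    nat_lit 0x2401],.r (nat_lit 0xdba) (nat_lit 11) [nat_lit 0x2401,nat_lit 17],
    .r (nat_lit 0xdb3) (nat_lit 3) [nat_lit 0x2001,nat_lit 0x411],.c (nat_lit 0) (nat_lit 0x2003),
    .r (nat_lit 0xdbc) (nat_lit 3) [nat_lit 0x2001,nat_lit 17],.c (nat_lit 0) (nat_lit 0x2003),
    .r (nat_lit 0x14e7) (nat_lit 1) [nat_lit 0x601,nat_lit 0x3611,nat_lit 0x2401],.c (nat_lit 0) (nat_lit 0x36d3),
    .r (nat_lit 0xdb8) (nat_lit 14) [nat_lit 17,nat_lit 0x2001],.r (nat_lit 0xdb3) (nat_lit 3) [nat_lit 0x2001,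
    nat_lit 0x3099],.c (nat_lit 0) (nat_lit 0x3613),.r (nat_lit 0xdb2) (nat_lit 1) [nat_lit 0x2001,nat_lit 0x3099],
    .r (nat_lit 0xdb5) (nat_lit 11) [nat_lit 0x2401,nat_lit 0x3699],.r (nat_lit 0xdba) (nat_lit 13) [nat_lit 17,
    nat_lit 0x2401],.c (nat_lit 4) (nat_lit 2),.r (nat_lit 0xdb2) (nat_lit 1) [nat_lit 0x2001,nat_lit 0x12419],
    .r (nat_lit 0x1475) (nat_lit 1) [nat_lit 0x2019,nat_lit 0x2419,nat_lit 17,nat_lit 0x1d691],
    .r (nat_lit 0xdb5) (nat_lit 11) [nat_lit 0x2401,nat_lit 0x12019],.r (nat_lit 0x14bd) (nat_lit 6) [nat_lit 0x3011,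
    nat_lit 0x2001,nat_lit 0x2401],.c (nat_lit 0) (nat_lit 0x36d3),.r (nat_lit 0xdbd) (nat_lit 13) [nat_lit 0x2001,
    nat_lit 0x411],.r (nat_lit 0x165b) (nat_lit 5) [nat_lit 0x10619,nat_lit 0x2401],.c (nat_lit 6) (nat_lit 2),
    .r (nat_lit 0xdbc) (nat_lit 10) [nat_lit 17,nat_lit 0x2401],.c (nat_lit 0) (nat_lit 0x2003),
    .c (nat_lit 7) (nat_lit 2),.r (nat_lit 0xdb9) (nat_lit 3) [nat_lit 17,nat_lit 0x2001],.c (nat_lit 8) (nat_lit 2)],
    .l (nat_lit 11) (nat_lit 480) (nat_lit 3) (nat_lit 0xec000000de000000c0000000c0000000c0000000f0000000da000000b4000000e8000000c0000000c6000000e8000000d9000000d9000000ba000000f4) (nat_lit 0x160000000800000034000000340000000400000034000000400000001a000000340000000c0000000c0000002e0000001b0000001b000000000000003a)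
    (nat_lit 0x1ac210630b8294370590d220c4703c0be1363447609a168358590aa2082584f0c4188368690b01862bc6f0a41542e0500a01782103c07c1182d06407814a29460086164318500a01782303c0a61182d06409214a28c4e08612c370460841781e0400a61182f05b09214a244590862085285e0bc1d82f0550d6178360490d61aa354780781883485307c1ac298530c0124350670ac1fa4443c0a013c2c83c0781542003d0a60f02a05207e19e38c3c07a1b44705a0b41b02f0540d4178358490c219a344710781884184608c1782303c0921182f05b09214a28c600781602f8490781ac2483f0ac1243085e0981722a43c08c1a41e0640c81242d8520ce16c2486e0bc0fa334740ae15e344518a51aa24471911146344668a917c2f8a08ef18626c528a51aa294678fd14a3343e8b91642f87889f148268430860f02183d0a00f01e05708c13e3bc7808c1bc3b04e0c01e02c83c078180388740781e2504aa0f0)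
    (nat_lit 0x1ac780f01e03c0780f01e03c0780f01e03c0780f01e0108358f01e03c0780f01e03c0780f01e03c0780f01e018c2c8501e03c0780f01e03c0780f01e03c0780f01e01702a8500a03c0780f01e03c0780f01e03c0780f01e02944105e0bc178780f01e03c0780f01e03c0780f01e01b82584208c0f02f0f01e03c0780f01e03c0780f01e01642783c0781002a8531e03c0780f01e03c0780f01e01a43103e0a614c358600a63c0780f01e03c0780f01e020c3104608c1182f049078178780f01e03c0780f01e02383685a0b41783606a0a81ac2f0f01e03c0780f01e00f0348640c816c248670a41242d85e1e03c0780f01e017c2c03c0921243585607e1842484c0bc3c0780f01e013630c528a514a3547e8cf19a2945c87d17c780f01e01a22bc528a3122354888e31a228c548cd17c2f8f01e01d83786009c1643c03c0781c43003c0e82823c4781e01342904308610c1e05007a0f01e0460ae1de27c460f0)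
    (nat_lit 3) (nat_lit 49)
    [[nat_lit 257,nat_lit 0x1101,nat_lit 0x10101,nat_lit 0x100101,nat_lit 0x1000101,nat_lit 0x10000101,nat_lit 0x1001,
    nat_lit 0x10001,nat_lit 0x10002,nat_lit 0x11001,nat_lit 0x20001,nat_lit 0x110001,nat_lit 0x1010001,
    nat_lit 0x10010001,nat_lit 0x100001,nat_lit 0x1000001,nat_lit 0x1001001,nat_lit 0x1100001,nat_lit 0x2000001,
    nat_lit 0x10000001],[nat_lit 32,nat_lit 272,nat_lit 0x100110,nat_lit 0x1000110,nat_lit 0x1010,nat_lit 0x100010,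
    nat_lit 0x1000010,nat_lit 0x10000010],[nat_lit 512,nat_lit 0x1100,nat_lit 0x11100,nat_lit 0x1001100,
    nat_lit 0x10100,nat_lit 0x1010100,nat_lit 0x100100,nat_lit 0x110100,nat_lit 0x1100100,nat_lit 0x1000100,
    nat_lit 0x10000100,nat_lit 0x10010100,nat_lit 0x11000100],[nat_lit 0x2000,nat_lit 0x11000,nat_lit 0x1011000,
    nat_lit 0x101000,nat_lit 0x1001000],[nat_lit 0x20000,nat_lit 0x1020000,nat_lit 0x110000,nat_lit 0x1110000,
    nat_lit 0x1010000,nat_lit 0x2010000,nat_lit 0x10010000],[nat_lit 0x200000,nat_lit 0x1100000],[nat_lit 0x2000000,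
    nat_lit 0x11000000],[nat_lit 0x20000000]]
    [.c (nat_lit 0) (nat_lit 0x3613),.c (nat_lit 0) (nat_lit 0x3613),.r (nat_lit 0x1201) (nat_lit 1) [nat_lit 0x601,
    nat_lit 0x411,nat_lit 0x2401,nat_lit 0x10001],.r (nat_lit 0x1682) (nat_lit 1) [nat_lit 0x601,nat_lit 0x2401,
    nat_lit 0x3099],.c (nat_lit 0) (nat_lit 0x3613),.r (nat_lit 0xdb3) (nat_lit 11) [nat_lit 0x2401,nat_lit 0x3099],
    .c (nat_lit 0) (nat_lit 0x3613),.c (nat_lit 1) (nat_lit 130),.r (nat_lit 0x14be) (nat_lit 11) [nat_lit 0x411,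
    nat_lit 0xa11,nat_lit 0x6819],.r (nat_lit 0x1512) (nat_lit 15) [nat_lit 0x10001,nat_lit 0x2419,nat_lit 17],
    .r (nat_lit 0x14be) (nat_lit 11) [nat_lit 0x811,nat_lit 0x611,nat_lit 0x6419],
    .r (nat_lit 0x1623) (nat_lit 11) [nat_lit 0x18411,nat_lit 0x14419,nat_lit 0x18611,nat_lit 0x10001],
    .r (nat_lit 0xdb4) (nat_lit 10) [nat_lit 0x10001,nat_lit 0x18099],
    .r (nat_lit 0x1212) (nat_lit 1) [nat_lit 0x18611,nat_lit 0x14419,nat_lit 0x18411,nat_lit 0x10001],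
    .r (nat_lit 0xdbb) (nat_lit 6) [nat_lit 0x611,nat_lit 0x12419],.c (nat_lit 0) (nat_lit 0x3613),
    .c (nat_lit 0) (nat_lit 0x3613),.r (nat_lit 0xdb2) (nat_lit 15) [nat_lit 0x2401,nat_lit 0x611],
    .r (nat_lit 0x1684) (nat_lit 3) [nat_lit 0x2001,nat_lit 0x10001,nat_lit 0x3611,nat_lit 0x2401],
    .r (nat_lit 0x14c1) (nat_lit 10) [nat_lit 0x10419,nat_lit 0x611,nat_lit 0x2401],.c (nat_lit 2) (nat_lit 2),
    .r (nat_lit 0xdbb) (nat_lit 12) [nat_lit 17,nat_lit 0x10001],.r (nat_lit 0x1204) (nat_lit 11) [nat_lit 0x401,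
    nat_lit 0x2001,nat_lit 0x10001,nat_lit 0x1b011],.r (nat_lit 0x1512) (nat_lit 15) [nat_lit 0x10001,nat_lit 0x124d1,
    nat_lit 0x18099],.r (nat_lit 0xdc0) (nat_lit 13) [nat_lit 17,nat_lit 0x10001],
    .r (nat_lit 0x14c1) (nat_lit 10) [nat_lit 0x3011,nat_lit 0x12019,nat_lit 0x2401],
    .r (nat_lit 0x15d8) (nat_lit 15) [nat_lit 0x10001,nat_lit 0x124d1,nat_lit 0x18099],
    .r (nat_lit 0xdbb) (nat_lit 6) [nat_lit 0x12019,nat_lit 17],.c (nat_lit 3) (nat_lit 2),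
    .c (nat_lit 0) (nat_lit 0x3613),.c (nat_lit 0) (nat_lit 0x36d3),.c (nat_lit 0) (nat_lit 0x3613),
    .c (nat_lit 0) (nat_lit 0x36d3),.c (nat_lit 0) (nat_lit 0x36d3),.r (nat_lit 0xdba) (nat_lit 5) [nat_lit 0x2001,
    nat_lit 17],.r (nat_lit 0x1682) (nat_lit 1) [nat_lit 0x601,nat_lit 0x2401,nat_lit 0x3699],
    .r (nat_lit 0xdb5) (nat_lit 5) [nat_lit 0x2001,nat_lit 17],.c (nat_lit 0) (nat_lit 0x36d3),
    .r (nat_lit 0xdb8) (nat_lit 13) [nat_lit 17,nat_lit 0x2401],.r (nat_lit 0xdb3) (nat_lit 11) [nat_lit 0x2401,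
    nat_lit 0x3699],.r (nat_lit 0xdb2) (nat_lit 11) [nat_lit 0x2401,nat_lit 0x3699],.c (nat_lit 4) (nat_lit 2),
    .c (nat_lit 0) (nat_lit 0x36d3),.c (nat_lit 0) (nat_lit 0x36d3),.r (nat_lit 0xdbb) (nat_lit 11) [nat_lit 0x2401,
    nat_lit 17],.c (nat_lit 0) (nat_lit 0x36d3),.c (nat_lit 5) (nat_lit 2),
    .r (nat_lit 0xdb4) (nat_lit 10) [nat_lit 0x10001,nat_lit 0x18699],.r (nat_lit 0xdbb) (nat_lit 6) [nat_lit 17,
    nat_lit 0x12019],.r (nat_lit 0xdb2) (nat_lit 15) [nat_lit 0x2401,nat_lit 17],.c (nat_lit 0) (nat_lit 0x36d3),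
    .r (nat_lit 0x1684) (nat_lit 3) [nat_lit 0x2001,nat_lit 0x10001,nat_lit 0x3011,nat_lit 0x2401],
    .r (nat_lit 0x14c1) (nat_lit 10) [nat_lit 0x10019,nat_lit 17,nat_lit 0x2401],.c (nat_lit 6) (nat_lit 2),
    .r (nat_lit 0xdb9) (nat_lit 10) [nat_lit 0x2401,nat_lit 17],.c (nat_lit 7) (nat_lit 2),
    .r (nat_lit 0xdbc) (nat_lit 8) [nat_lit 17,nat_lit 0x2001],.c (nat_lit 8) (nat_lit 2)],
    .l (nat_lit 15) (nat_lit 0x13b0) (nat_lit 3) (nat_lit 0x84c0000084c00000856000008560000085c0000085c00000856000008560000083c0000083c000009e8000009e80000098f0000098f0000081700000817) (nat_lit 0x19c0000019c00000192000001920000018c0000018c0000019200000192000001ac000001ac00000000000000000000005900000059000001d1000001d1)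
    (nat_lit 0xda01ac035d06ba0d801b0035206ba0d001a0042608020fe61fcc33d869b0d601b4035d06ba0d801b8035d06ba0d401a80270084c0fe6143c33d83f10d741ae835206c40d941b2836206c40d541aa859d0856150e2da433286850d741ae836206a40d941b2835206ae0d941a805ad0876108e24a434286a50dc01b0036506ca0dcc1b4036a06ca0d201b40398083c0fc613fc34586410d801b0036506ca0dcc1b9837506ca0ca41ac042e085c0fc613fc345868b0d741ae835706c40d941b2836206ae0d541a285ad08b40ffa1ff434286a50d741a9035206c40dd41b5034306c40d541aa857e08560fce1ff4352869b0d401a0035006aa0d601b40355068a0d201b3841e083c0f9a14f434086810d401a0036506aa0ca41a4035506aa0d601a4041e083c0f4a1f8c35a86d51098200843b085610b820f042b08b4107820f04f409c8124a263c41b885509c021305ad0b3a10b81cc057e0b5a107820f04f409e8131e263c40b87750a1e1fcc4948b6909fe13fc3fe87fd0fc614f44c7898f13b024d83df07be0fe61fcc4238a870fc61f8c3f387fd0f4a1f344c7892514f827603cf07be07e21a6c35286850d16190434d86a50daa1a043ba88550f7c1ef832305000cf619ec34286650d161a2c35286850d6a1a0440b88370f3c1ef83230646)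
    (nat_lit 0xda04ec09d813b027604ec09d813b027604ec09d813b027604ec09d813b00d601b409d813b027604ec09d813b027604ec09d813b027604ec09d813b00d741ae835213b027604ec09d813b027604ec09d813b027604ec09d813b00d741ae836206a427604ec09d813b027604ec09d813b027604ec09d813b00d801b0036506ca0dcc4ec09d813b027604ec09d813b027604ec09d813b00d801b8036506ca0da01b989d813b027604ec09d813b027604ec09d813b00d481ae836206a40da81ba836213b027604ec09d813b027604ec09d813b00d741ae836206ae0d941b2835706c427604ec09d813b027604ec09d813b00d001a8035506ca0d20194835506aa0d204ec09d813b027604ec09d813b00d001a8035506a00da01ac034506aa0d9c1a409d813b027604ec09d813b01098138059d0b5a0e6021705ad0afc107820f04f413b027604ec09d813b01004213042b08761078217045a0856107820f04e409e827604ec09d813b00fe61fcc54388470fc61f8c3fe87e70f9a1e94492898f13b04ec09d813b00fe6143c5b4892909fe13fc3fe87fd0a7a1f8c4c7898f126c27609d813b00cf619ec33286850d161a2c34286a50d021ad441b88170f7c1e7832313b00d360fc434286a50c821a2c352869b0d021b5442a87750f7c1ef82800646)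
    (nat_lit 5) (nat_lit 107)
    [[nat_lit 2,nat_lit 3,nat_lit 0x1002,nat_lit 0x10002,nat_lit 0x100002,nat_lit 0x1000002,nat_lit 0x10000002,
    nat_lit 17,nat_lit 0x10000011,nat_lit 0x100011,nat_lit 257,nat_lit 0x1001,nat_lit 0x101001,nat_lit 0x10001001,
    nat_lit 0x10001,nat_lit 0x1010001,nat_lit 0x10010001,nat_lit 0x100001,nat_lit 0x10100001,nat_lit 0x1000001,
    nat_lit 0x1100001,nat_lit 0x2000001,nat_lit 0x11000001,nat_lit 0x10000001,nat_lit 0x20000001],[nat_lit 272,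
    nat_lit 0x1010,nat_lit 0x101010,nat_lit 0x10001010,nat_lit 0x2010,nat_lit 0x10010,nat_lit 0x100010,
    nat_lit 0x10000010],[nat_lit 0x1100,nat_lit 0x100100,nat_lit 0x10000100,nat_lit 0x10001100],[nat_lit 0x2000,
    nat_lit 0x11000,nat_lit 0x101000,nat_lit 0x1001000,nat_lit 0x10001000],[nat_lit 0x20000,nat_lit 0x110000,
    nat_lit 0x1010000,nat_lit 0x10010000],[nat_lit 0x200000,nat_lit 0x1100000,nat_lit 0x10100000],[nat_lit 0x2000000,
    nat_lit 0x11000000],[nat_lit 0x20000000]]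
    [.c (nat_lit 1) (nat_lit 2),.c (nat_lit 0) (nat_lit 0xe006009),.c (nat_lit 0) (nat_lit 0xc6318843),
    .c (nat_lit 3) (nat_lit 0x221003),.c (nat_lit 0) (nat_lit 0xc6318843),.c (nat_lit 0) (nat_lit 0x80002003),
    .c (nat_lit 0) (nat_lit 0xe004009),.r (nat_lit 0xdb2) (nat_lit 11) [nat_lit 65,nat_lit 0x18c0318801],
    .r (nat_lit 0x165b) (nat_lit 14) [nat_lit 0x210061,nat_lit 0x4018041],
    .r (nat_lit 0x15c0) (nat_lit 11) [nat_lit 0x10001,nat_lit 0x200001,nat_lit 0x4000001,nat_lit 0x80000001,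
    nat_lit 0x1000000001],.c (nat_lit 0) (nat_lit 0x11003),.c (nat_lit 0) (nat_lit 0xc6318043),
    .c (nat_lit 0) (nat_lit 0xc6318843),.c (nat_lit 0) (nat_lit 0xc6318043),.c (nat_lit 0) (nat_lit 0xe802009),
    .c (nat_lit 0) (nat_lit 0x80201003),.c (nat_lit 3) (nat_lit 0x220803),.c (nat_lit 0) (nat_lit 0xc6318043),
    .c (nat_lit 0) (nat_lit 0xc6318043),.c (nat_lit 0) (nat_lit 0x80002003),
    .r (nat_lit 0x15c0) (nat_lit 11) [nat_lit 0x10001,nat_lit 0x200001,nat_lit 0x4000001,nat_lit 0x80000001,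
    nat_lit 0x1000000001],.r (nat_lit 0x15c0) (nat_lit 11) [nat_lit 0x10001,nat_lit 0x200001,nat_lit 0x4000001,
    nat_lit 0x80000001,nat_lit 0x1000000001],.c (nat_lit 0) (nat_lit 0x80001803),.c (nat_lit 1) (nat_lit 0x802),
    .c (nat_lit 0) (nat_lit 0xe002009),.c (nat_lit 0) (nat_lit 0x6028004),
    .r (nat_lit 0x165b) (nat_lit 1) [nat_lit 0x1008210c41,nat_lit 0x1806018861],.c (nat_lit 0) (nat_lit 0x1044210a4),
    .r (nat_lit 0x15c0) (nat_lit 11) [nat_lit 0x10001,nat_lit 0x200001,nat_lit 0x4000001,nat_lit 0x80000001,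
    nat_lit 0x1000000001],.c (nat_lit 6) (nat_lit 0x146529483),.r (nat_lit 0x165b) (nat_lit 14) [nat_lit 0x4200061,
    nat_lit 65],.r (nat_lit 0x1595) (nat_lit 15) [nat_lit 0x1080210c41,nat_lit 0x210001,nat_lit 0x318861],
    .r (nat_lit 0xdb2) (nat_lit 11) [nat_lit 0x10041,nat_lit 0x18c0318801],
    .r (nat_lit 0x1595) (nat_lit 15) [nat_lit 0x86200061,nat_lit 0x210001,nat_lit 0x1004300041],
    .r (nat_lit 0x165b) (nat_lit 1) [nat_lit 0x4200061,nat_lit 65],.c (nat_lit 0) (nat_lit 0x10005),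
    .r (nat_lit 0xdb5) (nat_lit 8) [nat_lit 0x1080000001,nat_lit 65],.c (nat_lit 4) (nat_lit 2),
    .c (nat_lit 0) (nat_lit 0xc6018c43),.c (nat_lit 0) (nat_lit 0xc6318843),
    .r (nat_lit 0x15b9) (nat_lit 3) [nat_lit 0x18c0000041,nat_lit 0x4200001,nat_lit 0x1080000001],
    .c (nat_lit 0) (nat_lit 0xc6318c43),.c (nat_lit 5) (nat_lit 2),.c (nat_lit 0) (nat_lit 0xc6018c43),
    .c (nat_lit 0) (nat_lit 0x80400003),.c (nat_lit 0) (nat_lit 0xe800009),.c (nat_lit 6) (nat_lit 2),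
    .r (nat_lit 0x1686) (nat_lit 10) [nat_lit 0x18c0000041,nat_lit 0x1080000001,nat_lit 0x4200001],
    .c (nat_lit 0) (nat_lit 0xc6318c43),.c (nat_lit 7) (nat_lit 2),.c (nat_lit 0) (nat_lit 0x80000009),
    .c (nat_lit 8) (nat_lit 2)]]

/-- nodes -/
noncomputable def rD8k_37_14 : List RJ :=
  [.l (nat_lit 13) (nat_lit 0x5a0) (nat_lit 3) (nat_lit 0x25b0000025b000002d0000002d0000002a6000002a600000258000002580000026700000267000002640000026400000260000002600000025a0000025a) (nat_lit 0x750000007500000000000000000000002a0000002a000000780000007800000069000000690000006c0000006c00000070000000700000007600000076)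
    (nat_lit 0xe607b04b624d11a88c440e1fb0f707c83ce2110f587a43ca1dd0f307304b625b12188c43ca2090f907c838a1ef0e687ac3e615912d89345a02d01400a984b024613389944c82641760a284e827812d896c5a02d01530a98294258133899c4c813e18b0ad04b425a11888c454c2a613e09f045c22e1b18d2c3cc23a11b08d846017a12188d454c28013e09f045c22e12a88f446c23811b08d843023010487ec4b024611708b83c01e00f887bc3d81d40f407b03bc1e20f2881c29425811708b83c01e00f987bc3d81ec0f407a03c41e20f907c84ce26511e8d2c3de1ef0ff07f83f61f70fb87dc39a1f10f907b84ce26712a8d8c3e61f10ff07f83fa1fb0fb87c439e1f10f7884427c26411c08e83d81d40fd87dc3fc1f80fa07c83e41ee0e2879c4c826411b07983d81ec0fe87ec3fc1fe0fa07d03e01ee0f587a456828a11b08d83d01ec0f887dc3e81f20f807a83e41ea0e687ac62c2ec11b08d83d01e80fb87dc3e81f40e707c03e41ea0ac87744b427811805e83c41e20f887c43dc1ee0f507a83c82060f987944b427410c08c03c41de0e787343e01f20f907c83bc1e4)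
    (nat_lit 0xe61680b405a02d01680b405a02d01680b405a02d01680b405a00f60730b405a02d01680b405a02d01680b405a02d01680b405a012d896c5a05a02d01680b405a02d01680b405a02d01680b405a0126896c5a02d02d01680b405a02d01680b405a02d01680b405a011a890c5002a613e1680b405a02d01680b405a02d01680b405a011888c454c2a613e09f0b405a02d01680b405a02d01680b405a010387944b014a11708b83c05a02d01680b405a02d01680b405a00fd882448c25811708b83c01e02d01680b405a02d01680b405a00f707c84ce2671b189543e21f30ff1680b405a02d01680b405a00f907c84ca2671a588f43de1ef0ff07f8b405a02d01680b405a00f387144c82640f308d83d81ec0fd87f43fc5a02d01680b405a010887bc4c813e11d08e03a81ec0fb87ec3f01fe2d01680b405a00f587345d831611b08d83d01e80fb87dc3e81f40f81680b405a00f487ac5142b411b08d83d81e80fb87c43e41f40f507c0b405a00f287cc4e825a11808603bc1e20e6873c3e41f00f907c83c85a00ee85644f025a0bd08c03c41e20f887c43dc1ee0f507a840c1e4)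
    (nat_lit 5) (nat_lit 67)
    [[nat_lit 2,nat_lit 0x100002,nat_lit 0x10000002,nat_lit 17,nat_lit 0x10000011,nat_lit 257,nat_lit 0x10000101,
    nat_lit 0x1001,nat_lit 0x101001,nat_lit 0x10001001,nat_lit 0x10001,nat_lit 0x110001,nat_lit 0x10010001,
    nat_lit 0x100001,nat_lit 0x1000001,nat_lit 0x10000001,nat_lit 0x20000001],[nat_lit 32,nat_lit 272,nat_lit 0x1010,
    nat_lit 0x10010,nat_lit 0x100010,nat_lit 0x10000010,nat_lit 0x20000010],[nat_lit 512,nat_lit 0x1100,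
    nat_lit 0x10100,nat_lit 0x1010100,nat_lit 0x100100,nat_lit 0x1000100,nat_lit 0x10000100,nat_lit 0x11000100],
    [nat_lit 0x2000,nat_lit 0x11000,nat_lit 0x1001000,nat_lit 0x10001000],[nat_lit 0x20000,nat_lit 0x1020000,
    nat_lit 0x110000,nat_lit 0x1010000,nat_lit 0x10010000],[nat_lit 0x200000,nat_lit 0x1100000,nat_lit 0x10100000],
    [nat_lit 0x11000000],[nat_lit 0x20000000,nat_lit 0x30000000]]
    [.c (nat_lit 1) (nat_lit 2),.r (nat_lit 0x1687) (nat_lit 4) [nat_lit 0x840000a2,nat_lit 65,nat_lit 0x42000a2,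
    nat_lit 0x40000a1,nat_lit 0x6010081],.c (nat_lit 0) (nat_lit 0x4000803),.c (nat_lit 0) (nat_lit 0x4000803),
    .c (nat_lit 0) (nat_lit 0x4000803),.c (nat_lit 0) (nat_lit 0x319485),.c (nat_lit 0) (nat_lit 0x319485),
    .c (nat_lit 0) (nat_lit 0x4011005),.c (nat_lit 0) (nat_lit 0x318004),.c (nat_lit 4) (nat_lit 0x6010004),
    .c (nat_lit 0) (nat_lit 0x319485),.r (nat_lit 0xdb5) (nat_lit 8) [nat_lit 0x10001,nat_lit 0x18861],
    .c (nat_lit 0) (nat_lit 0x319485),.c (nat_lit 0) (nat_lit 0x4200005),.r (nat_lit 0xdb4) (nat_lit 8) [nat_lit 65,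
    nat_lit 0xc6029002],.c (nat_lit 0) (nat_lit 0x4000805),.c (nat_lit 0) (nat_lit 0x4000803),
    .c (nat_lit 2) (nat_lit 2),.r (nat_lit 0x1310) (nat_lit 3) [nat_lit 0x10061,nat_lit 65,nat_lit 0xc0200002,
    nat_lit 0x84000002],.c (nat_lit 0) (nat_lit 0x10805),.r (nat_lit 0x15b9) (nat_lit 1) [nat_lit 0x18041,
    nat_lit 0x4200002,nat_lit 0x10001],.r (nat_lit 0xdb6) (nat_lit 10) [nat_lit 65,nat_lit 0xc6029002],
    .c (nat_lit 0) (nat_lit 0x4000803),.c (nat_lit 0) (nat_lit 0x4000803),.c (nat_lit 3) (nat_lit 2),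
    .c (nat_lit 0) (nat_lit 0x6301485),.c (nat_lit 0) (nat_lit 0x319485),.c (nat_lit 0) (nat_lit 0x82110a4),
    .r (nat_lit 0xdbf) (nat_lit 10) [nat_lit 0x10001,nat_lit 65],.r (nat_lit 0x1595) (nat_lit 8) [nat_lit 0x84021482,
    nat_lit 0x84000002,nat_lit 0xc60010a2],.c (nat_lit 0) (nat_lit 0x319485),
    .r (nat_lit 0x120a) (nat_lit 1) [nat_lit 0x4200002,nat_lit 0x6010001,nat_lit 0x4000001,nat_lit 0xc03290a2,
    nat_lit 0x6000041],.c (nat_lit 4) (nat_lit 2),.c (nat_lit 0) (nat_lit 0x6301485),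
    .r (nat_lit 0xdb6) (nat_lit 10) [nat_lit 0x42200a2,nat_lit 0xc6029002],.c (nat_lit 0) (nat_lit 0x4011005),
    .c (nat_lit 5) (nat_lit 2),.c (nat_lit 3) (nat_lit 0x6319483),.r (nat_lit 0x1595) (nat_lit 8) [nat_lit 0x43000a2,
    nat_lit 0x84000002,nat_lit 0x6220082],.r (nat_lit 0xdbf) (nat_lit 10) [nat_lit 0x10001,nat_lit 0xc03290a2],
    .c (nat_lit 0) (nat_lit 0x319485),.c (nat_lit 6) (nat_lit 2),.c (nat_lit 0) (nat_lit 0x300002),
    .c (nat_lit 0) (nat_lit 0x4200005),.r (nat_lit 0xdb2) (nat_lit 4) [nat_lit 65,nat_lit 0xc6029002],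
    .c (nat_lit 8) (nat_lit 2),.r (nat_lit 0x8f2) (nat_lit 11) [nat_lit 129,nat_lit 0x60001,nat_lit 0xc038001,
    nat_lit 0x630001,nat_lit 0x1ce79b001]],
    .l (nat_lit 12) (nat_lit 960) (nat_lit 3) (nat_lit 0x1b2000001b2000001b1000001b1000001b3000001b3000001ba000001ba0000019c0000019c000001b2000001b2000001db000001db0000021e0000021e) (nat_lit 0x6c0000006c0000006d0000006d0000006b0000006b000000640000006400000082000000820000006c0000006c00000043000000430000000000000000)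
    (nat_lit 0x14614613914114514716215013011015c14c16f16f1b220a14614614514514714712a15210613013e14e1111751b620e14514114414414214614d14d12715313f16f1121761b120f14513914614413814614d12f12915513f15116e16e1b120f14714714614616614612915d12513114714d1121761bf1b314714513814216a16616314f1451351331471701701b119515215012f14d14f15d15213413812414e13a19518b1bc1ba12a16214d14d1631291641521541381221521771151da0b213011015515313513113812411610c19211426118518819c10613012912714512515413811a11619613023b15f19619c14e14c15116f14714d15213a13011414014616f1091b20d013e15c13f13f13314712214e19619217c14017716f1b21b217516f16e17617017611518b15f18516f1091981621c51d311116f16e11217011217719523b26117716f1981981831db20e20a20f20f1951b30b21ba19c19c1b20d01db1d321e21e1b61b21b11b11b11bf1da1bc1961881b21b21831c521e21e)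
    (nat_lit 0x1463c03c03c03c03c03c03c03c03c03c03c03c03c03c03c01461463c03c03c03c03c03c03c03c03c03c03c03c03c03c01391451443c03c03c03c03c03c03c03c03c03c03c03c03c01411451441443c03c03c03c03c03c03c03c03c03c03c03c01451471421381663c03c03c03c03c03c03c03c03c03c03c01471471461461461663c03c03c03c03c03c03c03c03c03c016212a14d14d1291631523c03c03c03c03c03c03c03c03c015015214d12f15d14f1341523c03c03c03c03c03c03c03c01301061271291251451381541163c03c03c03c03c03c03c011013015315513113512413810c1163c03c03c03c03c03c015c13e13f13f14713314e1221921961403c03c03c03c03c014c14e16f15114d14713a1521141301461403c03c03c03c016f11111216e11217019517722123b16f1771983c03c03c016f17517616e17617018b11518515f10916f1621983c03c01b21b61b11b11bf1b11bc1da1881961b21b21c518321e3c02022041ff1e11b31951ba0b219c19c0d01b21d31db21e21e)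
    (nat_lit 4) (nat_lit 49)
    [[nat_lit 17,nat_lit 257,nat_lit 0x10101,nat_lit 0x1001,nat_lit 0x11001,nat_lit 0x10001,nat_lit 0x100001,
    nat_lit 0x1010001,nat_lit 0x10010001],[nat_lit 32,nat_lit 272,nat_lit 0x10010,nat_lit 0x100010,nat_lit 0x100110,
    nat_lit 0x101010,nat_lit 0x110010,nat_lit 0x1000010,nat_lit 0x1000110,nat_lit 0x1010010,nat_lit 0x10000010,
    nat_lit 0x10000110,nat_lit 0x10001010,nat_lit 0x10010010],[nat_lit 512,nat_lit 0x10200,nat_lit 0x1100,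
    nat_lit 0x10100,nat_lit 0x11100,nat_lit 0x110100,nat_lit 0x20100,nat_lit 0x100100,nat_lit 0x101100,
    nat_lit 0x1000100,nat_lit 0x1001100,nat_lit 0x10000100,nat_lit 0x10001100],[nat_lit 0x2000,nat_lit 0x3000,
    nat_lit 0x12000,nat_lit 0x102000,nat_lit 0x1002000,nat_lit 0x10002000,nat_lit 0x11000,nat_lit 0x111000,
    nat_lit 0x10011000,nat_lit 0x101000,nat_lit 0x1101000,nat_lit 0x10101000,nat_lit 0x1001000,nat_lit 0x1011000,
    nat_lit 0x11001000,nat_lit 0x10001000,nat_lit 0x20001000],[nat_lit 0x20000,nat_lit 0x110000,nat_lit 0x1110000,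
    nat_lit 0x1010000,nat_lit 0x10010000,nat_lit 0x11010000],[nat_lit 0x200000,nat_lit 0x1100000,nat_lit 0x10100000],
    [nat_lit 0x2000000,nat_lit 0x11000000],[nat_lit 0x20000000]]
    [.c (nat_lit 0) (nat_lit 0x220203),.c (nat_lit 0) (nat_lit 0x220203),
    .r (nat_lit 0xdb4) (nat_lit 5) [nat_lit 0x220001,nat_lit 0x330231],.c (nat_lit 0) (nat_lit 0x3302),
    .c (nat_lit 0) (nat_lit 0x3302),.r (nat_lit 0x161e) (nat_lit 13) [nat_lit 0x2031,nat_lit 33],
    .r (nat_lit 0x160d) (nat_lit 13) [nat_lit 0x2031,nat_lit 33,nat_lit 0x220001],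
    .r (nat_lit 0xdb9) (nat_lit 13) [nat_lit 0x300231,nat_lit 0x2001],.c (nat_lit 0) (nat_lit 770),
    .c (nat_lit 2) (nat_lit 2),.c (nat_lit 0) (nat_lit 0x240003),.r (nat_lit 0x165b) (nat_lit 7) [nat_lit 0x220031,
    nat_lit 33],.c (nat_lit 0) (nat_lit 0x20303),.c (nat_lit 0) (nat_lit 0x240003),.c (nat_lit 0) (nat_lit 0x33002),
    .r (nat_lit 0x161e) (nat_lit 13) [nat_lit 0x200031,nat_lit 0x302021],.r (nat_lit 0xdb8) (nat_lit 8) [nat_lit 33,
    nat_lit 0x2001],.r (nat_lit 0xdbb) (nat_lit 8) [nat_lit 0x3300021,nat_lit 0x220001],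
    .r (nat_lit 0xdb3) (nat_lit 9) [nat_lit 0x2001,nat_lit 0x3231],.c (nat_lit 0) (nat_lit 0x20003),
    .c (nat_lit 1) (nat_lit 0x220403),.c (nat_lit 0) (nat_lit 0x33302),
    .r (nat_lit 0x14b7) (nat_lit 6) [nat_lit 0x2001,nat_lit 0x220001,nat_lit 0x333021],.c (nat_lit 3) (nat_lit 2),
    .r (nat_lit 0x1602) (nat_lit 11) [nat_lit 0x2001,nat_lit 0x222321,nat_lit 0x555431,nat_lit 0x2033231],
    .r (nat_lit 0xdb9) (nat_lit 13) [nat_lit 33,nat_lit 0x2001],.c (nat_lit 0) (nat_lit 0x33323),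
    .r (nat_lit 0xdb2) (nat_lit 13) [nat_lit 0x2001,nat_lit 33],.c (nat_lit 0) (nat_lit 0x33323),
    .r (nat_lit 0xfa4) (nat_lit 5) [nat_lit 0x2001,nat_lit 0x2a42521,nat_lit 0x3523431,nat_lit 0x3223341,
    nat_lit 0x3559431],.c (nat_lit 0) (nat_lit 0x240003),.r (nat_lit 0xdb3) (nat_lit 9) [nat_lit 0x2001,nat_lit 33],
    .c (nat_lit 0) (nat_lit 0x33323),.r (nat_lit 0x161e) (nat_lit 13) [nat_lit 0x202321,nat_lit 0x300231],
    .r (nat_lit 0x15d8) (nat_lit 13) [nat_lit 0x220001,nat_lit 0x222321,nat_lit 0x330231],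
    .c (nat_lit 0) (nat_lit 0x203002),.c (nat_lit 4) (nat_lit 2),.c (nat_lit 0) (nat_lit 0x60d004),
    .c (nat_lit 0) (nat_lit 0x223232),.c (nat_lit 0) (nat_lit 0x205002),.c (nat_lit 0) (nat_lit 0x223232),
    .c (nat_lit 0) (nat_lit 0x405002),.r (nat_lit 0xdb4) (nat_lit 5) [nat_lit 0x220001,nat_lit 0x3303231],
    .r (nat_lit 0xdbb) (nat_lit 8) [nat_lit 0x3303231,nat_lit 0x220001],.c (nat_lit 0) (nat_lit 0x203002),
    .r (nat_lit 0xdbb) (nat_lit 9) [nat_lit 0x2001,nat_lit 33],.r (nat_lit 0x1686) (nat_lit 9) [nat_lit 0x2204321,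
    nat_lit 0x3303231,nat_lit 0x220001],.c (nat_lit 2) (nat_lit 0x42003),
    .r (nat_lit 0xdb4) (nat_lit 5) [nat_lit 0x220001,nat_lit 0x30021],.c (nat_lit 0) (nat_lit 0x223232),
    .c (nat_lit 0) (nat_lit 0x203002),.c (nat_lit 0) (nat_lit 0x203002),.c (nat_lit 0) (nat_lit 0x203002),
    .c (nat_lit 5) (nat_lit 2),.c (nat_lit 0) (nat_lit 0x33323),.c (nat_lit 0) (nat_lit 0x33323),
    .c (nat_lit 2) (nat_lit 0x262232),.r (nat_lit 0x1686) (nat_lit 9) [nat_lit 0x2031,nat_lit 33,nat_lit 0x220001],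
    .r (nat_lit 0xdbb) (nat_lit 9) [nat_lit 0x2001,nat_lit 0x3303231],.c (nat_lit 6) (nat_lit 2),
    .c (nat_lit 0) (nat_lit 0x33323),.c (nat_lit 0) (nat_lit 0x20003),.c (nat_lit 7) (nat_lit 2),
    .r (nat_lit 0xdbb) (nat_lit 8) [nat_lit 33,nat_lit 0x220001],.c (nat_lit 8) (nat_lit 2)],
    .l (nat_lit 17) (nat_lit 0x41dc) (nat_lit 4) (nat_lit 0x1d8800001d8800001b3500001b3500001950000019500000180400001d1200001b4900001b4900001aea00001aea000019fa000019fa00001c1b00001c1b) (nat_lit 0x25300000253000004380000043800000076000005840000023f0000023f0000029e0000029e0000038e0000038e0000016d0000016d)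
    (nat_lit 0xec407620366a1aef06cc065403ccc1a5c06c483ffc3e941f4a0cfd03c0038361c1b0ec40762036f61b350ccb065401a5817280da486d24341c0e100ec9067e838c21c610d9a86bbc31c418e20bec85adc357e156b12e80a370312e18970bb08620c339016300dbd86cd4269818e209e485bf4357e0fd50c800703031ba18970bd385e9c339018420ca8065402dfa16b70d7a06ab82b8817000b8885c442d6416a80ba4055f02fc617e30ccb03660279217d90a8c06bd0333013cc0b888594c2d6416b208b6057082b1617e30b94069701faa156b09e605c00309812800ae28541c2acc15660a3b051d8449e1aed069607998357e1abf0ccc057103938184c0d6986b4c32e01a740cc206a984dde1f8d0da483ffc381828dc0b2985c4435a615070c85064282f1218ab09e9862fc311019dc0da483624320025d00b8885c4435a615c50c8506428315618ab09e9862fc2af819dc070807d28312e18970b5905aa034e815660c55862ac2e90184c0bae05d704e7a1d650d0707d2831ba18970b5905ac832e015660c5585e24290417480bae05d7048ee1a9f0cfd03c002f4e18830ae1055f0354c14760c5f862fc2eb8175c0aa5068d8285a188d0ec9067e82f4e176108b605d203308147609e984f4c2eb8175c0c7105528311a188d0e308706c308416300bf185f8c3f1a1aed0cee06770353e1d650c4686234355c18380e308706c339019c80ac585f8c4dde224f0abe0622048ee273d0c46850b4355c1aae)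
    (nat_lit 0xec41077083b841dc20ee1077083b841dc20ee1077083b841dc20ee1077083b841dc0ec40762083b841dc20ee1077083b841dc20ee1077083b841dc20ee1077083b841dc0d9a86dec31c441dc20ee1077083b841dc20ee1077083b841dc20ee1077083b841dc0d7786cd431c418e220ee1077083b841dc20ee1077083b841dc20ee1077083b841dc06cc066582fb213c90d7a1077083b841dc20ee1077083b841dc20ee1077083b841dc0ca8065402d6e16fd0d5706bd083b841dc20ee1077083b841dc20ee1077083b841dc0f33034b0357e1abf0ae206660309841dc20ee1077083b841dc20ee1077083b841dc0d2e05ca02ad60fd50b8004f302500184c20ee1077083b841dc20ee1077083b841dc06c486d244ba019000b8885c442b8a1ab50c851077083b841dc20ee1077083b841dc07ff86d2451b81c0c0b888594c2a0e1ad30c850642883b841dc20ee1077083b841dc0fa506838312e18dd0b5905ac82acc19700bc4862ac2e9041dc20ee1077083b841dc0fa503840312e18970b5405ac82acc1a740c55862ac3098174820ee1077083b841dc0cfd076482ec217a70ba4045b028ec198409e984f4c2eb8175c0aa51077083b841dc0780067e8310617a70abe0570828ec1aa60c5f862fc2eb8175c0d1b0552883b841dc0e0d87184339019c80bf18562c449e26ef0c44055f04e7a24770a1686234355c41dc0e0d871842c6018420bf185f8c35da1f8d0cee067703aca1a9f0c468623430701aae)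
    (nat_lit 4) (nat_lit 61)
    [[nat_lit 2,nat_lit 17,nat_lit 0x100011,nat_lit 0x1001,nat_lit 0x100001,nat_lit 0x1000001,nat_lit 0x10000001],
    [nat_lit 32,nat_lit 48,nat_lit 0x100020,nat_lit 272,nat_lit 0x10000110,nat_lit 0x1010,nat_lit 0x101010,
    nat_lit 0x10001010,nat_lit 0x10010,nat_lit 0x110010,nat_lit 0x10010010,nat_lit 0x100010,nat_lit 0x10100010,
    nat_lit 0x100110,nat_lit 0x1100010,nat_lit 0x1000010,nat_lit 0x10000010],[nat_lit 512,nat_lit 0x1100,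
    nat_lit 0x10001100,nat_lit 0x10100,nat_lit 0x100100,nat_lit 0x10100100,nat_lit 0x1000100,nat_lit 0x10000100],
    [nat_lit 0x2000,nat_lit 0x11000,nat_lit 0x10011000,nat_lit 0x101000,nat_lit 0x10101000,nat_lit 0x10001000,
    nat_lit 0x20001000],[nat_lit 0x20000,nat_lit 0x10020000,nat_lit 0x110000,nat_lit 0x1110000,nat_lit 0x10110000,
    nat_lit 0x1010000,nat_lit 0x10010000,nat_lit 0x11110000,nat_lit 0x11010000],[nat_lit 0x200000,nat_lit 0x1100000,
    nat_lit 0x10100000,nat_lit 0x11100000],[nat_lit 0x2000000,nat_lit 0x11000000],[nat_lit 0x20000000]]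
    [.c (nat_lit 1) (nat_lit 2),.r (nat_lit 0xdbc) (nat_lit 11) [nat_lit 33,nat_lit 0x20001],
    .r (nat_lit 0x1498) (nat_lit 6) [nat_lit 0x5353402,nat_lit 0x20001,nat_lit 0x4202052,nat_lit 0x2200002],
    .r (nat_lit 0x165b) (nat_lit 6) [nat_lit 0x3053452,nat_lit 0x20001],
    .r (nat_lit 0x1641) (nat_lit 6) [nat_lit 0x5353402,nat_lit 0x3300042,nat_lit 0x2200002],
    .r (nat_lit 0xdbb) (nat_lit 3) [nat_lit 0x3003452,nat_lit 33],.r (nat_lit 0x161e) (nat_lit 13) [nat_lit 0x2042542,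
    nat_lit 0x3053402],.c (nat_lit 2) (nat_lit 2),.r (nat_lit 0x15b9) (nat_lit 15) [nat_lit 0x33021,nat_lit 0x2200002,
    nat_lit 0x20001],.r (nat_lit 0xdbb) (nat_lit 10) [nat_lit 0x3021,nat_lit 0x2200002],
    .c (nat_lit 0) (nat_lit 0x200205),.c (nat_lit 0) (nat_lit 0x200205),.c (nat_lit 0) (nat_lit 0x2203),
    .r (nat_lit 0x162b) (nat_lit 4) [nat_lit 0x20001,nat_lit 0x3053402,nat_lit 0x2200002,nat_lit 0x302052],
    .r (nat_lit 0xdb4) (nat_lit 11) [nat_lit 0x2200002,nat_lit 0x3300452],.c (nat_lit 0) (nat_lit 0x335045),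
    .c (nat_lit 0) (nat_lit 0x335045),.c (nat_lit 0) (nat_lit 0x335045),.c (nat_lit 0) (nat_lit 0x30205),
    .c (nat_lit 0) (nat_lit 0x30205),.c (nat_lit 0) (nat_lit 0x200205),
    .r (nat_lit 0xdb7) (nat_lit 6) [nat_lit 0x3053402,nat_lit 0x2042052],
    .r (nat_lit 0x15b9) (nat_lit 15) [nat_lit 0x30021,nat_lit 0x2200002,nat_lit 0x20001],
    .c (nat_lit 0) (nat_lit 0x30205),.c (nat_lit 3) (nat_lit 2),.r (nat_lit 0xdbb) (nat_lit 3) [nat_lit 0x5353442,
    nat_lit 0x2240052],.r (nat_lit 0xdb7) (nat_lit 6) [nat_lit 0x3053402,nat_lit 33],.c (nat_lit 1) (nat_lit 0x25345),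
    .c (nat_lit 0) (nat_lit 0x200205),.c (nat_lit 0) (nat_lit 0x200205),
    .r (nat_lit 0x165b) (nat_lit 6) [nat_lit 0x5393442,nat_lit 0x20001],.c (nat_lit 0) (nat_lit 0x200005),
    .c (nat_lit 4) (nat_lit 2),.r (nat_lit 0xdbb) (nat_lit 3) [nat_lit 33,nat_lit 0x3003452],
    .r (nat_lit 0xdb7) (nat_lit 6) [nat_lit 0x3053402,nat_lit 0x4242542],
    .r (nat_lit 0x165b) (nat_lit 2) [nat_lit 0x30021,nat_lit 0x20001],
    .r (nat_lit 0x148b) (nat_lit 3) [nat_lit 0x5353402,nat_lit 0x2200002,nat_lit 0x3003042,nat_lit 0x2042052],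
    .r (nat_lit 0xdbe) (nat_lit 13) [nat_lit 33,nat_lit 0x3053402],.r (nat_lit 0xdb4) (nat_lit 11) [nat_lit 0x2200002,
    nat_lit 0x3333432],.c (nat_lit 5) (nat_lit 2),.r (nat_lit 0x1498) (nat_lit 6) [nat_lit 0x5353402,nat_lit 0x20001,
    nat_lit 0x4242521,nat_lit 0x2200002],.c (nat_lit 0) (nat_lit 0x335045),
    .r (nat_lit 0xdb4) (nat_lit 11) [nat_lit 0x2200002,nat_lit 33],.c (nat_lit 0) (nat_lit 0x335045),
    .r (nat_lit 0x165b) (nat_lit 6) [nat_lit 0x30021,nat_lit 0x20001],.c (nat_lit 0) (nat_lit 0x335345),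
    .c (nat_lit 0) (nat_lit 0x224454),.r (nat_lit 0x162b) (nat_lit 4) [nat_lit 0x20001,nat_lit 0x3053402,
    nat_lit 0x2200002,nat_lit 0x2002542],.c (nat_lit 6) (nat_lit 2),.r (nat_lit 0xdbb) (nat_lit 10) [nat_lit 33,
    nat_lit 0x2200002],.c (nat_lit 0) (nat_lit 0x30005),.r (nat_lit 0xdbc) (nat_lit 11) [nat_lit 0x202042,
    nat_lit 0x20001],.c (nat_lit 7) (nat_lit 2),.r (nat_lit 0x1686) (nat_lit 4) [nat_lit 0x30021,nat_lit 0x20001,
    nat_lit 0x2200002],.c (nat_lit 8) (nat_lit 2)]]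

/-- nodes -/
noncomputable def rD8k_37_15 : List RJ :=
  [.l (nat_lit 15) (nat_lit 0x1018) (nat_lit 4) (nat_lit 0x6b0000006b0000006b7000006b700000709000007090000080c0000080c0000070b0000070b000006d6000007240000070400000704000006be000006be) (nat_lit 0x15c0000015c0000015500000155000001030000010300000000000000000000010100000101000000e80000013600000108000001080000014e0000014e)
    (nat_lit 0xae015502a685770b5a160c1c607380a6216bc30e04a80a001b702b105620aa815c02b4855b0af2160c358071c0b5e16bc274057a0b5016a02a3057e0ab615dc2c605620a90169835b86eb0b6c16d82e785810b261a3c2a685690ad215342b1058c0b5416d031c86510b6c147029a85810bb217d42c9853f0b06160c2da05a60cd818183d187130c101a182ed85d30c561a6c2e485910af216b42d505480c0c19b038687090cdc182032083d112fa27b429985a30e381ce032886eb0e121c4c406080c121a1c1c19c06700e381b9035f03420d600e3031c86b70e1a1e8c406080c12221c2c392065806701b3035f07660b5e16bc28e05b60c101a1838587070d10182832d83cf0ab6180c47089890b5e14c42db05b60cdc1820488890d0bdc1a202e085d50c5a15a434787370af412a02c0858107a2174c32c06700baa0f3c34405bc08a818c0303055e09d0187029a85cf0c82176c39203380b82196c33a06880dc0187025105d60b501b702fa868f13da1a6c36606e40ad2180c30e06300bf817102b104f20b5014002ec859312fa18ac19c071c0c5a156c37004540bf817f02db05b60afc158829f85690b4616443b303420e6e26242eb055e0b6c13c830c05700a8c15882c9854d0a66172435f06be0d1e238425106060b6c15882b80618)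
    (nat_lit 0xae0406080c10182030406080c10182030406080c10182030406080c10180aa815c080c10182030406080c10182030406080c10182030406080c10180a9a15a42c610182030406080c10182030406080c10182030406080c10180aee156c2b1058c2030406080c10182030406080c10182030406080c10180b5a15e42a405aa0cd8406080c10182030406080c10182030406080c10180b06160c2d305b40c0c19b080c10182030406080c10182030406080c101807181ac035b86390f461c3440610182030406080c10182030406080c10180e701c7037586510e261c24406080c2030406080c10182030406080c10180a6216bc2db05b60c1019b848689110d10406080c10182030406080c10180b5e16bc2db051c0d0c1820383870b0c141a2080c10182030406080c10180c3813a02e785350bb6190419c07240cb6170434410182030406080c1018095015e82c085810ba60f443380658079e17542de06882030406080c10180a0016a02c985d90c5625f438e03380ab618b422a06700bf8406080c10180db816a034785f50d3627b437206cc0c0615a4318061c0b8817f080c10180ac415182a685930b9214cc35f06be10e21a3c30304a20ac416d830c10180ac415f82b4853f0b22168c1a1076613121cdc2af05d609e416d82b80618)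
    (nat_lit 3) (nat_lit 61)
    [[nat_lit 2,nat_lit 17,nat_lit 273,nat_lit 0x10011,nat_lit 0x10000011,nat_lit 257,nat_lit 0x1101,nat_lit 0x10101,
    nat_lit 0x100101,nat_lit 0x1000101,nat_lit 0x10000101,nat_lit 0x10001,nat_lit 0x10010001,nat_lit 0x100001,
    nat_lit 0x1000001,nat_lit 0x1010001,nat_lit 0x10000001,nat_lit 0x11000001],[nat_lit 32,nat_lit 272,
    nat_lit 0x10110,nat_lit 0x1010,nat_lit 0x10010,nat_lit 0x11110,nat_lit 0x11010,nat_lit 0x1000010,
    nat_lit 0x10000010],[nat_lit 512,nat_lit 0x1100,nat_lit 0x10100,nat_lit 0x110100,nat_lit 0x1010100,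
    nat_lit 0x10010100,nat_lit 0x100100,nat_lit 0x10100100,nat_lit 0x1000100,nat_lit 0x1001100,nat_lit 0x1100100,
    nat_lit 0x11000100,nat_lit 0x10000100,nat_lit 0x10001100,nat_lit 0x20000100],[nat_lit 0x2000,nat_lit 0x101000,
    nat_lit 0x1001000,nat_lit 0x10001000,nat_lit 0x11001000],[nat_lit 0x110000,nat_lit 0x1010000,nat_lit 0x10010000,
    nat_lit 0x11010000],[nat_lit 0x200000,nat_lit 0x1100000,nat_lit 0x10100000],[nat_lit 0x2000000,
    nat_lit 0x11000000],[nat_lit 0x20000000]]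
    [.c (nat_lit 1) (nat_lit 2),.r (nat_lit 0xdbb) (nat_lit 11) [nat_lit 17,nat_lit 0x12419],
    .r (nat_lit 0x11d5) (nat_lit 11) [nat_lit 0x401,nat_lit 0x10001,nat_lit 0x120d1,nat_lit 0x18099],
    .r (nat_lit 0x14c7) (nat_lit 11) [nat_lit 0x3411,nat_lit 0x2001,nat_lit 0x22419,nat_lit 0x3611],
    .r (nat_lit 0xdb2) (nat_lit 1) [nat_lit 0x10001,nat_lit 17],.c (nat_lit 0) (nat_lit 0x3613),
    .c (nat_lit 0) (nat_lit 0x30c2),.r (nat_lit 0x1600) (nat_lit 1) [nat_lit 0x2001,nat_lit 0x120d1,nat_lit 0x124d1,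
    nat_lit 0x3099],.r (nat_lit 0xdb3) (nat_lit 1) [nat_lit 0x10001,nat_lit 0x18099],.c (nat_lit 0) (nat_lit 0x3613),
    .c (nat_lit 0) (nat_lit 0x3613),.c (nat_lit 1) (nat_lit 130),.r (nat_lit 0xdb7) (nat_lit 5) [nat_lit 0x2001,
    nat_lit 17],.r (nat_lit 0x161e) (nat_lit 6) [nat_lit 0x3611,nat_lit 0x2001],.c (nat_lit 0) (nat_lit 0x3613),
    .r (nat_lit 0x134e) (nat_lit 6) [nat_lit 0x10001,nat_lit 0x2001,nat_lit 0x28611,nat_lit 0x10401],
    .c (nat_lit 0) (nat_lit 0x3613),.c (nat_lit 0) (nat_lit 0x3613),.c (nat_lit 2) (nat_lit 2),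
    .r (nat_lit 0xdb8) (nat_lit 11) [nat_lit 0x10401,nat_lit 17],.r (nat_lit 0x11d5) (nat_lit 11) [nat_lit 0x401,
    nat_lit 0x10001,nat_lit 0x124d1,nat_lit 0x18699],.r (nat_lit 0x161e) (nat_lit 6) [nat_lit 0x10019,nat_lit 0x2001],
    .r (nat_lit 0xdbb) (nat_lit 11) [nat_lit 0x411,nat_lit 0x12019],.c (nat_lit 0) (nat_lit 0x3602),
    .c (nat_lit 0) (nat_lit 0x3002),.r (nat_lit 0xdbc) (nat_lit 3) [nat_lit 0x10001,nat_lit 17],
    .r (nat_lit 0xdbb) (nat_lit 1) [nat_lit 0x10001,nat_lit 17],.c (nat_lit 3) (nat_lit 2),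
    .r (nat_lit 0x14e7) (nat_lit 1) [nat_lit 0x601,nat_lit 0x18611,nat_lit 0x10401],.c (nat_lit 0) (nat_lit 0x36d3),
    .r (nat_lit 0xdb3) (nat_lit 1) [nat_lit 0x10001,nat_lit 0x18699],.c (nat_lit 0) (nat_lit 0x36d3),
    .c (nat_lit 0) (nat_lit 0x36d3),.r (nat_lit 0xdb8) (nat_lit 14) [nat_lit 17,nat_lit 0x10001],
    .r (nat_lit 0xdb3) (nat_lit 3) [nat_lit 0x10001,nat_lit 0x18099],.c (nat_lit 0) (nat_lit 0x3613),
    .r (nat_lit 0xdb7) (nat_lit 5) [nat_lit 0x2001,nat_lit 0x3099],.r (nat_lit 0xdb2) (nat_lit 1) [nat_lit 0x10001,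
    nat_lit 0x18099],.c (nat_lit 0) (nat_lit 0x3613),.c (nat_lit 0) (nat_lit 0x3613),
    .r (nat_lit 0x134e) (nat_lit 6) [nat_lit 0x10001,nat_lit 0x2001,nat_lit 0x2b699,nat_lit 0x10401],
    .r (nat_lit 0x15d1) (nat_lit 13) [nat_lit 0x401,nat_lit 0x2001,nat_lit 0x10001,nat_lit 0x124d1],
    .c (nat_lit 4) (nat_lit 2),.r (nat_lit 0xdbb) (nat_lit 11) [nat_lit 0x12419,nat_lit 17],
    .r (nat_lit 0x15cf) (nat_lit 11) [nat_lit 0x10419,nat_lit 0x2001,nat_lit 17],
    .r (nat_lit 0x161e) (nat_lit 1) [nat_lit 0x10019,nat_lit 17],.r (nat_lit 0x1600) (nat_lit 1) [nat_lit 0x2001,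
    nat_lit 0x10019,nat_lit 0x10419,nat_lit 17],.r (nat_lit 0x161e) (nat_lit 6) [nat_lit 0x3011,nat_lit 0x2001],
    .c (nat_lit 0) (nat_lit 0x36d3),.c (nat_lit 0) (nat_lit 0x36d3),.c (nat_lit 0) (nat_lit 0x36d3),
    .c (nat_lit 6) (nat_lit 2),.r (nat_lit 0xdbc) (nat_lit 10) [nat_lit 17,nat_lit 0x10401],
    .r (nat_lit 0x1686) (nat_lit 1) [nat_lit 0x601,nat_lit 0x10401,nat_lit 17],.c (nat_lit 7) (nat_lit 2),
    .c (nat_lit 0) (nat_lit 0x36d3),.c (nat_lit 8) (nat_lit 2)],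
    .l (nat_lit 13) (nat_lit 0x5a0) (nat_lit 3) (nat_lit 0x29d0000029d0000032800000328000002a0000002a0000002880000028800000287000002870000028a0000028a0000028c0000028c0000028400000284) (nat_lit 0x8b0000008b00000000000000000000008800000088000000a0000000a0000000a1000000a10000009e0000009e0000009c0000009c000000a4000000a4)
    (nat_lit 0x168081853a29d10988543fa22d10007f03fe1dd0e3878c3f22071cd0b4048629d10a88543fa19d0fe083836e1ff10088043f21bf14e8a746501a01800be84ec2881438a1c51428a1630b5038c2841218a746503281530a805102881438a1c51428a1660b6850828410a88545402fa10c08604001fa0ff87fc36820210208103f81bc10a884c54c30010c086040c200101878440420010208283981f80ce88b451028810007e840c1e80f487843c81e60f807b03cc1e40fe87f451027610308003ac2060f3879c3d41ec0fb07b03c81da10707f050e2870f087fc3ce1e10f207e03d21e90fa87ac3c61d90fe080050e28710187fc3ce1e90f307903d21e90ef872c40a1e30ff877451428a10008083d81e60f487a44181ec0f707b83c41f20db87fc51428a10106d03d41e40f487a43d820c0f707b84081e6100878c5b42d410508103d81ec0e587ac3dc1ee0f807c03d01e8100871c5982c610208103ec1f00ef87d43dc1ee0f807c03b41e80df881c5082840fc06f03b41e40f187643cc1f20f407a04341e00fc87e45081c60e607f03c81e6102878c4081e20ed07a03d821a)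
    (nat_lit 0x1681680b405a02d01680b405a02d01680b405a02d01680b405a01030b40b405a02d01680b405a02d01680b405a02d01680b405a014e890c6505a02d01680b405a02d01680b405a02d01680b405a014e8a743403282d01680b405a02d01680b405a02d01680b405a010988546002a610c1680b405a02d01680b405a02d01680b405a010a88545f42a010c0860b405a02d01680b405a02d01680b405a00fe87f44ec288100081840c5a02d01680b405a02d01680b405a011686745102880fd08003d02062d01680b405a02d01680b405a010007f050e2870ff880c3d21e70f21680b405a02d01680b405a00fe083850e2870ff87843c21e70fc0790b405a02d01680b405a00ff86dc51428a0da08083c81ea0f487a44185a02d01680b405a00ee87fc51428a10108003cc1ec0f487a43d820c2d01680b405a00e3880458c2cc10208103e01f60fa877c3dc1ee0f81680b405a00f188045a82da10208283d81ec0f5872c3dc1ee0f807c0b405a00fc87e438c2840fe07303cc1e40f188143c42040f407684345a010386fc5082840de07e03c81da0ec878c3e41e60f407a03c021a)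
    (nat_lit 3) (nat_lit 27)
    [[nat_lit 2,nat_lit 17,nat_lit 0x10000011,nat_lit 0x1011,nat_lit 257,nat_lit 0x100101,nat_lit 0x1001,
    nat_lit 0x10001,nat_lit 0x10010001,nat_lit 0x100001,nat_lit 0x1000001,nat_lit 0x10000001],[nat_lit 32,nat_lit 272,
    nat_lit 0x10000110,nat_lit 0x1010,nat_lit 0x10010,nat_lit 0x10010010,nat_lit 0x100010,nat_lit 0x10000010],
    [nat_lit 512,nat_lit 0x1100,nat_lit 0x10100,nat_lit 0x10010100,nat_lit 0x100100,nat_lit 0x101100,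
    nat_lit 0x1000100,nat_lit 0x10000100,nat_lit 0x10001100],[nat_lit 0x2000,nat_lit 0x11000,nat_lit 0x10011000,
    nat_lit 0x101000,nat_lit 0x1001000,nat_lit 0x10001000],[nat_lit 0x20000,nat_lit 0x110000,nat_lit 0x1010000,
    nat_lit 0x10010000],[nat_lit 0x200000,nat_lit 0x10100000],[nat_lit 0x2000000,nat_lit 0x11000000],[]]
    [.c (nat_lit 1) (nat_lit 2),.c (nat_lit 0) (nat_lit 0x483),.r (nat_lit 0x1477) (nat_lit 10) [nat_lit 0xa00d1,
    nat_lit 0x920d1,nat_lit 0xd8099,nat_lit 0xd8499],.r (nat_lit 0xdb3) (nat_lit 0) [nat_lit 0x10001,nat_lit 17],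
    .r (nat_lit 0xdbb) (nat_lit 10) [nat_lit 0x10001,nat_lit 17],.r (nat_lit 0xdb2) (nat_lit 10) [nat_lit 0x10001,
    nat_lit 0x1a011],.c (nat_lit 0) (nat_lit 0x1b613),.r (nat_lit 0x168b) (nat_lit 15) [nat_lit 0x1a001,nat_lit 17,
    nat_lit 0x10001],.r (nat_lit 0xdb2) (nat_lit 0) [nat_lit 0x10001,nat_lit 0x18099],.c (nat_lit 0) (nat_lit 0x2083),
    .r (nat_lit 0x165b) (nat_lit 9) [nat_lit 0x3011,nat_lit 0x2001],.c (nat_lit 0) (nat_lit 0x1b613),
    .c (nat_lit 2) (nat_lit 2),.c (nat_lit 0) (nat_lit 0x10403),.r (nat_lit 0x1682) (nat_lit 15) [nat_lit 0x1a001,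
    nat_lit 0x10001,nat_lit 0x18099],.r (nat_lit 0xdbb) (nat_lit 0) [nat_lit 0x10001,nat_lit 17],
    .c (nat_lit 0) (nat_lit 0x10403),.r (nat_lit 0xdb3) (nat_lit 10) [nat_lit 0x10001,nat_lit 0x18099],
    .c (nat_lit 2) (nat_lit 0x3402),.r (nat_lit 0x165b) (nat_lit 13) [nat_lit 0x3011,nat_lit 0x2001],
    .c (nat_lit 3) (nat_lit 2),.r (nat_lit 0xdb9) (nat_lit 14) [nat_lit 0x10001,nat_lit 17],
    .c (nat_lit 1) (nat_lit 0x18082),.r (nat_lit 0xdb3) (nat_lit 0) [nat_lit 0x10001,nat_lit 0x18099],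
    .c (nat_lit 0) (nat_lit 0x12003),.r (nat_lit 0xdb2) (nat_lit 0) [nat_lit 0x10001,nat_lit 0x1a011],
    .r (nat_lit 0xdb7) (nat_lit 8) [nat_lit 17,nat_lit 0x92019],.r (nat_lit 0xdba) (nat_lit 8) [nat_lit 0x2001,
    nat_lit 17],.r (nat_lit 0xdb2) (nat_lit 10) [nat_lit 0x10001,nat_lit 0x944d1],.c (nat_lit 4) (nat_lit 2),
    .r (nat_lit 0xdbc) (nat_lit 3) [nat_lit 17,nat_lit 0x2001],.r (nat_lit 0xdb2) (nat_lit 10) [nat_lit 0x10001,
    nat_lit 0x18099],.r (nat_lit 0xdbb) (nat_lit 0) [nat_lit 0x10001,nat_lit 0x1a011],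
    .r (nat_lit 0x1477) (nat_lit 10) [nat_lit 0x10019,nat_lit 0x2019,nat_lit 17,nat_lit 0x411],
    .c (nat_lit 0) (nat_lit 0x1b613),.c (nat_lit 5) (nat_lit 2),.c (nat_lit 0) (nat_lit 0x12003),
    .r (nat_lit 0x14ea) (nat_lit 6) [nat_lit 0x3011,nat_lit 0x2001,nat_lit 0x92019],
    .r (nat_lit 0xdb8) (nat_lit 6) [nat_lit 17,nat_lit 0x10001],.c (nat_lit 6) (nat_lit 2),
    .r (nat_lit 0x165b) (nat_lit 13) [nat_lit 0x18011,nat_lit 0x2001],.c (nat_lit 7) (nat_lit 2),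
    .r (nat_lit 0xdb3) (nat_lit 0) [nat_lit 0x10001,nat_lit 0xd8099]],
    .l (nat_lit 14) (nat_lit 0x870) (nat_lit 4) (nat_lit 0x34f000003990000038d0000034f0000033b0000035f000003c8000003c8000003710000037100000398000003980000033f0000033f0000038000000380) (nat_lit 0x2f00000079000000790000003b000000690000008d00000000000000000000005700000057000000300000003000000089000000890000004800000048)
    (nat_lit 0xe2036209f82fe08582c20d9c34f0ce02ae0e044890b182c00c1c2af0e603880c8035e09d82d20b643990d781b00f9c4ef0b5824e0d9c3150d782fe0d383240c90300147c44706c03f6107c3410d002860b7437f0c8027e0b2834e0a802c210a43510c58372078436b0b183060c1c29b0b482c20b083000b402ba0b043810a6020a0b2c2ed0c783f00d2c2f309d82160a803240f382d00d7c35f0e583080cd434706c04060c5c3170e6434f0d444470d7c3810f202f00d6437109a030a0cfc33911404a60b6436710a451f0d7c2c10ce03c80dc43710e6032a0cfc33f0f2842006c02ae0dc83f60c2020a0dc43710e203aa0d0434109202e80c443290d783380c581b00e582980dc435910483880d043410a182cc06fc30713bc4890dac3410d1c2ed0ca830a0d043410e102700cc430f0c403b20f9c381078441f0cd42cb0e602680d0434109f03840c3c30f0d582aa09382c00c1828610183f00cfc3390b302e80c3c30f0d703a20a542f70b582c60b1834006c031e0cfc33f0a182480c3c3310d8835c0d3c2f70c542af0a6c37f0c5c2f310804a60c1c3290aa83b20bdc2f70ce028c0d9c3070c1c2dd0c5c34b0f2845006fc3110d583100d3c2950ab0338)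
    (nat_lit 0xe2087021c087021c087021c087021c087021c087021c087021c08700d8838821c087021c087021c087021c087021c087021c087021c087009f83200d3887021c087021c087021c087021c087021c087021c08700bf835e0c9034e21c087021c087021c087021c087021c087021c087008582760c902a00b4087021c087021c087021c087021c087021c08700b082d20c002c20ae82d021c087021c087021c087021c087021c08700d9c2d9147c4290b0435f0f2087021c087021c087021c087021c08700d3c399111c3510e0435f0bc03c821c087021c087021c087021c08700ce035e06c03160a603960d643710e2087021c087021c087021c08700ab81b00fd837208283080dc43710ea838821c087021c087021c08700e043e7107c1e10b2c33509a03980d043410e1087021c087021c087012244ef0d0436b0bb43470c2832a0d0434109c038421c087021c08700b182d60d002c60c781b00cfc33f09202860cc430f0d7087021c08700b0024e0a183060fc04060ce433f0ba02cc0c3c30f0e8835c21c08700c1c3670b743070d2c31711403ca0c441bf0c403560a5434f0ce08700abc3150dfc29b0bcc31712984200ca43070ec82aa0bdc2f70a30338)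
    (nat_lit 4) (nat_lit 61)
    [[nat_lit 2,nat_lit 0x1002,nat_lit 17,nat_lit 0x1011,nat_lit 0x100011,nat_lit 0x10000011,nat_lit 257,
    nat_lit 0x1001,nat_lit 0x1001001,nat_lit 0x1101,nat_lit 0x101001,nat_lit 0x10001001,nat_lit 0x100001,
    nat_lit 0x1000001,nat_lit 0x10000001],[nat_lit 32,nat_lit 272,nat_lit 0x1000110,nat_lit 0x1010,nat_lit 0x1001010,
    nat_lit 0x10001010,nat_lit 0x10010,nat_lit 0x100010,nat_lit 0x1100010,nat_lit 0x10100010,nat_lit 0x100110,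
    nat_lit 0x101010,nat_lit 0x110010,nat_lit 0x1000010,nat_lit 0x11000010,nat_lit 0x10000010],[nat_lit 512,
    nat_lit 0x1100,nat_lit 0x1001100,nat_lit 0x10100,nat_lit 0x100100,nat_lit 0x1000100,nat_lit 0x1100100],
    [nat_lit 0x2000,nat_lit 0x11000,nat_lit 0x101000,nat_lit 0x10101000,nat_lit 0x1001000,nat_lit 0x1101000,
    nat_lit 0x11101000,nat_lit 0x11001000,nat_lit 0x10001000],[nat_lit 0x20000,nat_lit 0x110000,nat_lit 0x10010000],
    [nat_lit 0x200000,nat_lit 0x10200000,nat_lit 0x1100000,nat_lit 0x10100000,nat_lit 0x11100000],[nat_lit 0x2000000,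
    nat_lit 0x11000000],[nat_lit 0x20000000]]
    [.c (nat_lit 1) (nat_lit 2),.r (nat_lit 0x1498) (nat_lit 11) [nat_lit 0x2001,nat_lit 0x20001,nat_lit 0x5021,
    nat_lit 0x200001],.c (nat_lit 0) (nat_lit 0x33023),.c (nat_lit 0) (nat_lit 0x33023),
    .c (nat_lit 0) (nat_lit 0x33023),.r (nat_lit 0x1599) (nat_lit 13) [nat_lit 0x2001,nat_lit 0x200001,
    nat_lit 0x220321,nat_lit 0x300231],.r (nat_lit 0x165b) (nat_lit 11) [nat_lit 0x30021,nat_lit 0x20001],
    .c (nat_lit 0) (nat_lit 0x33023),.r (nat_lit 0x1498) (nat_lit 11) [nat_lit 0x2001,nat_lit 0x20001,nat_lit 0x3021,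
    nat_lit 0x200001],.r (nat_lit 0x162b) (nat_lit 7) [nat_lit 0x20001,nat_lit 0x202001,nat_lit 0x200001,
    nat_lit 0x333021],.c (nat_lit 0) (nat_lit 0x33023),.r (nat_lit 0xdb7) (nat_lit 11) [nat_lit 0x202001,
    nat_lit 0x3021],.c (nat_lit 0) (nat_lit 0x33023),.c (nat_lit 1) (nat_lit 514),
    .r (nat_lit 0xdbb) (nat_lit 13) [nat_lit 33,nat_lit 0x222031],.c (nat_lit 2) (nat_lit 2),
    .r (nat_lit 0xdbb) (nat_lit 5) [nat_lit 33,nat_lit 0x200001],.r (nat_lit 0xdb4) (nat_lit 6) [nat_lit 0x200001,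
    nat_lit 0x2021],.c (nat_lit 0) (nat_lit 0x33323),.c (nat_lit 0) (nat_lit 0x33323),
    .r (nat_lit 0x148b) (nat_lit 13) [nat_lit 0x2001,nat_lit 0x200001,nat_lit 0x222321,nat_lit 0x303231],
    .r (nat_lit 0x1641) (nat_lit 11) [nat_lit 0x2001,nat_lit 0x300021,nat_lit 0x200001],
    .c (nat_lit 0) (nat_lit 0x33323),.c (nat_lit 0) (nat_lit 0x33323),
    .r (nat_lit 0x162b) (nat_lit 7) [nat_lit 0x20001,nat_lit 0x202001,nat_lit 0x200001,nat_lit 0x533231],
    .r (nat_lit 0xdb7) (nat_lit 11) [nat_lit 0x202001,nat_lit 0x303231],.c (nat_lit 0) (nat_lit 0x33023),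
    .r (nat_lit 0x1498) (nat_lit 11) [nat_lit 0x2001,nat_lit 0x20001,nat_lit 0x33231,nat_lit 0x200001],
    .c (nat_lit 0) (nat_lit 0x33323),.r (nat_lit 0x1599) (nat_lit 13) [nat_lit 0x2001,nat_lit 0x200001,
    nat_lit 0x222321,nat_lit 0x303231],.r (nat_lit 0x165b) (nat_lit 15) [nat_lit 0x30021,nat_lit 0x20001],
    .c (nat_lit 3) (nat_lit 2),.r (nat_lit 0x1686) (nat_lit 7) [nat_lit 0x30021,nat_lit 0x20001,nat_lit 0x200001],
    .r (nat_lit 0x162b) (nat_lit 7) [nat_lit 0x20001,nat_lit 0x202001,nat_lit 0x200001,nat_lit 0x330021],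
    .r (nat_lit 0xdbb) (nat_lit 13) [nat_lit 0x222031,nat_lit 33],.r (nat_lit 0x15b9) (nat_lit 2) [nat_lit 0x30021,
    nat_lit 0x200001,nat_lit 0x20001],.r (nat_lit 0x165b) (nat_lit 11) [nat_lit 0x32021,nat_lit 0x20001],
    .r (nat_lit 0x148b) (nat_lit 13) [nat_lit 0x2001,nat_lit 0x200001,nat_lit 0x20031,nat_lit 33],
    .c (nat_lit 4) (nat_lit 2),.r (nat_lit 0x161e) (nat_lit 3) [nat_lit 0x303021,nat_lit 0x202001],
    .c (nat_lit 0) (nat_lit 0x33323),.r (nat_lit 0xdb4) (nat_lit 6) [nat_lit 0x200001,nat_lit 0x300231],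
    .c (nat_lit 0) (nat_lit 0x33323),.c (nat_lit 0) (nat_lit 0x33323),
    .r (nat_lit 0xdbb) (nat_lit 5) [nat_lit 0x303231,nat_lit 0x200001],
    .r (nat_lit 0xdb7) (nat_lit 11) [nat_lit 0x202001,nat_lit 33],.r (nat_lit 0xdbe) (nat_lit 13) [nat_lit 33,
    nat_lit 0x202001],.c (nat_lit 5) (nat_lit 2),.r (nat_lit 0xdbc) (nat_lit 6) [nat_lit 33,nat_lit 0x20001],
    .r (nat_lit 0x165b) (nat_lit 11) [nat_lit 0x202031,nat_lit 0x20001],.c (nat_lit 6) (nat_lit 2),
    .r (nat_lit 0x168a) (nat_lit 6) [nat_lit 0x30021,nat_lit 0x20001,nat_lit 0x824521,nat_lit 0x535431],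
    .c (nat_lit 0) (nat_lit 0x33323),.r (nat_lit 0x159a) (nat_lit 6) [nat_lit 0x30021,nat_lit 0x20001,
    nat_lit 0x402321,nat_lit 0x303231],.r (nat_lit 0xdb6) (nat_lit 11) [nat_lit 0x202001,nat_lit 33],
    .c (nat_lit 7) (nat_lit 2),.r (nat_lit 0xdbb) (nat_lit 13) [nat_lit 0x2021,nat_lit 0x220031],
    .c (nat_lit 8) (nat_lit 2)]]

/-- nodes -/
noncomputable def rD8k_37_16 : List RJ :=
  [.l (nat_lit 14) (nat_lit 0xb40) (nat_lit 3) (nat_lit 0x4b0000004b00000056800000568000004fa000004fa0000049400000494000004bf000004bf000004bf000004bf000004b1000004b1000004a5000004a5) (nat_lit 0xb8000000b800000000000000000000006e0000006e000000d4000000d4000000a9000000a9000000a9000000a9000000b7000000b7000000c3000000c3)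
    (nat_lit 0x10583cc12c04861108442104847010744070ff44070cc43f90fb43ed105841612c04b0118040a0ec849a101c4510db44070dec3f9105c35d12c0486168054a10f04fa112847612fc4e912fc4bf150454b121c52312c04b017d85a010f04fa088047612fc4bf12fc22117d45ff12944a5102844213e84fa12a83fe10984e41bbc6c50c0c451110c44310dc2f3118044210f043c12304aa11f042611ec4510f44451115445f0e8c43f126847011d847610984e40f003c00fac3950f3c3c10f5445d0f443bf0ec8412088044a11f04260f003c00fac3eb0fac4170fb43930f443b5114440712fc4e911446c50fac3950fa8416118041610904080f183ec101c41d12fc4bf11ec6ef0fac3eb0f003ea10d841610603be0ff03fc101c40708844bf1144451105c3c11058416118046c10203e80f983ec0db43fd12fc4bf0f443030fac3cf10d8460118046010084080ff04980fe43f917fc54b117c4430e4c45d0ef840810203e80d783b00fe03f40dec33117d454111544430fb43d5106042410084080fe835e0fb83ee0d743ed129452310fc2f30ed43bf0ff03ec12603ec0fb83f412a83e2105c3ed12944870e8c4370f443d10ff03c60ff03e60fb83f810384aa)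
    (nat_lit 0x1058b402d00b402d00b402d00b402d00b402d00b402d00b402d00b400f304162d00b402d00b402d00b402d00b402d00b402d00b402d00b4012c04b01680b402d00b402d00b402d00b402d00b402d00b402d00b4012184b015285a02d00b402d00b402d00b402d00b402d00b402d00b40110846010f043c12a8b402d00b402d00b402d00b402d00b402d00b40110840a13e84fa0ff84aa2d00b402d00b402d00b402d00b402d00b4010483b21128220109847c0f00b402d00b402d00b402d00b402d00b4011c049a11d847613904260f003c02d00b402d00b402d00b402d00b40107440712fc4bf1bbc47b0fac3eb0fa8b402d00b402d00b402d00b40101c45113a44bf1b144510e543eb10583ea2d00b402d00b402d00b400ff436d12fc4bf0c0c3d10f3c3eb11804361180b402d00b402d00b40101c40712fc22111444510f04417105841611b04602d00b402d00b400cc437b15045f5110c4550f543ed109041810204020d78b402d00b400fe43f9152c5ff110c45f117439310203be0fa04080ec035e2d00b400fb4417121c4a510dc3a30f443d10f183fc0f983fc0fe03ee12a8b400fb435d148c4a50bcc43f0efc3b50fb03fc0fb04980fd03ee0f884aa)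
    (nat_lit 5) (nat_lit 57)
    [[nat_lit 2,nat_lit 17,nat_lit 0x10000011,nat_lit 257,nat_lit 0x100101,nat_lit 0x1001,nat_lit 0x101001,
    nat_lit 0x10001,nat_lit 0x1010001,nat_lit 0x110001,nat_lit 0x100001,nat_lit 0x1000001,nat_lit 0x10000001],
    [nat_lit 32,nat_lit 48,nat_lit 0x10020,nat_lit 0x10000020,nat_lit 272,nat_lit 0x1010,nat_lit 0x10010,
    nat_lit 0x20010,nat_lit 0x100010,nat_lit 0x10000010,nat_lit 0x10000110],[nat_lit 512,nat_lit 0x1100,
    nat_lit 0x10100,nat_lit 0x1010100,nat_lit 0x100100,nat_lit 0x1100100,nat_lit 0x1000100,nat_lit 0x10000100,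
    nat_lit 0x11000100],[nat_lit 0x2000,nat_lit 0x11000,nat_lit 0x1011000,nat_lit 0x1001000,nat_lit 0x10001000],
    [nat_lit 0x20000,nat_lit 0x1020000,nat_lit 0x110000,nat_lit 0x1010000,nat_lit 0x10010000],[nat_lit 0x200000,
    nat_lit 0x1100000,nat_lit 0x10100000],[nat_lit 0x11000000],[nat_lit 0x20000000]]
    [.c (nat_lit 1) (nat_lit 2),.r (nat_lit 0xdbb) (nat_lit 11) [nat_lit 65,nat_lit 0x4000001],
    .r (nat_lit 0xdb4) (nat_lit 3) [nat_lit 0x4000001,nat_lit 65],.c (nat_lit 0) (nat_lit 0x738cc7),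
    .r (nat_lit 0x9a5) (nat_lit 13) [nat_lit 0xc00001,nat_lit 0xc00000c1,nat_lit 0x20001,nat_lit 0x980000e1,
    nat_lit 0x800000c1],.c (nat_lit 0) (nat_lit 0x4600007),.c (nat_lit 0) (nat_lit 0x300002),
    .c (nat_lit 0) (nat_lit 0x318043),.r (nat_lit 0xdbb) (nat_lit 0) [nat_lit 0xc00180c3,nat_lit 0x8c6100e3],
    .c (nat_lit 4) (nat_lit 0x4c00807),.r (nat_lit 0xdba) (nat_lit 10) [nat_lit 65,nat_lit 0x200001],
    .r (nat_lit 0x165b) (nat_lit 9) [nat_lit 0x300041,nat_lit 0x200001],.c (nat_lit 0) (nat_lit 0x738cc7),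
    .c (nat_lit 2) (nat_lit 2),.r (nat_lit 0x13f3) (nat_lit 11) [nat_lit 0x200001,nat_lit 0x4000001,nat_lit 0x610063,
    nat_lit 0x80700043],.r (nat_lit 0x13f3) (nat_lit 11) [nat_lit 0x200001,nat_lit 0x4000001,nat_lit 0x410062,
    nat_lit 0x100d180c6],.r (nat_lit 0x9a6) (nat_lit 11) [nat_lit 0xc000e1,nat_lit 0x15ad2b001,nat_lit 0x20001,
    nat_lit 0x130c23401,nat_lit 193],.r (nat_lit 0xdb2) (nat_lit 12) [nat_lit 65,nat_lit 0xce0198e3],
    .r (nat_lit 0xdbb) (nat_lit 0) [nat_lit 0x4200061,nat_lit 65],.r (nat_lit 0xdc2) (nat_lit 5) [nat_lit 65,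
    nat_lit 0x8c6100e3],.r (nat_lit 0x13f3) (nat_lit 11) [nat_lit 0x200001,nat_lit 0x4000001,nat_lit 0x210061,
    nat_lit 0x807280c3],.r (nat_lit 0xdb7) (nat_lit 10) [nat_lit 65,nat_lit 0x8c010003],
    .r (nat_lit 0x165b) (nat_lit 13) [nat_lit 0x300041,nat_lit 0x200001],
    .r (nat_lit 0xdbb) (nat_lit 0) [nat_lit 0xce0198e3,nat_lit 0x98611cc3],.c (nat_lit 3) (nat_lit 2),
    .r (nat_lit 0x15ea) (nat_lit 7) [nat_lit 0x200001,nat_lit 0x8c611cc3,nat_lit 0xce719803],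
    .c (nat_lit 0) (nat_lit 0x318043),.r (nat_lit 0xdb4) (nat_lit 3) [nat_lit 0x4000001,nat_lit 0x6000861],
    .c (nat_lit 0) (nat_lit 0x6738cc7),.r (nat_lit 0x165b) (nat_lit 13) [nat_lit 0xce7198e3,nat_lit 0x200001],
    .r (nat_lit 0x151b) (nat_lit 6) [nat_lit 0x10001,nat_lit 0x4000001,nat_lit 65],.c (nat_lit 0) (nat_lit 0x738cc7),
    .r (nat_lit 0xdb7) (nat_lit 10) [nat_lit 0xce0198e3,nat_lit 0x8c010003],.c (nat_lit 4) (nat_lit 2),
    .c (nat_lit 0) (nat_lit 0x4600807),.r (nat_lit 0xdbb) (nat_lit 11) [nat_lit 0x8c6100e3,nat_lit 0x4000001],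
    .r (nat_lit 0xdb7) (nat_lit 10) [nat_lit 0x4200061,nat_lit 0x8c010003],
    .r (nat_lit 0x168d) (nat_lit 13) [nat_lit 0x6000041,nat_lit 0x200001,nat_lit 0x4000001],
    .c (nat_lit 5) (nat_lit 2),.r (nat_lit 0xdc2) (nat_lit 5) [nat_lit 0x210061,nat_lit 0x8c0280c3],
    .r (nat_lit 0xdba) (nat_lit 10) [nat_lit 0x80028183,nat_lit 0x200001],
    .r (nat_lit 0x13f3) (nat_lit 11) [nat_lit 0x200001,nat_lit 0x4000001,nat_lit 65,nat_lit 0x800100e3],
    .c (nat_lit 0) (nat_lit 0x318043),.c (nat_lit 6) (nat_lit 2),.r (nat_lit 0xdbb) (nat_lit 0) [nat_lit 65,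
    nat_lit 0x4200061],.c (nat_lit 0) (nat_lit 0x6738cc7),.r (nat_lit 0x14b7) (nat_lit 12) [nat_lit 65,
    nat_lit 0x4000001,nat_lit 0xda7198e3],.c (nat_lit 8) (nat_lit 2)],
    .l (nat_lit 15) (nat_lit 0x1680) (nat_lit 3) (nat_lit 0xacd00000acd00000a7000000a7000000af100000af100000bf100000bf100000e0a00000c7200000b0900000b0900000aa600000aa600000ad600000ad6) (nat_lit 0x33d0000033d0000039a0000039a000003190000031900000219000002190000019800000000000003010000030100000364000003640000033400000334)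
    (nat_lit 0xff81f9031886a90f681ed02d009c2126a18cc3f807720dd61d2c3cc87f90e3c1ff039987330f681ba045a093e10d22b3438908380ed21da441187390e661aa43d107480d9a1d5c42b885710d829c03b7883b0ed81f18368073c0e6618c43cb07a20e061d5c343880f11b029c03e4876f0e30208039e073c0dd01ed03ab875710401c6046c092c12b2330436e07f00f1a1ccc45f87b10f681ed038186cd0fc8208046c08d8137e349c40107ba0e421dec35788b9127c2708407885711b024b03d109cc151e2fc4481088a0f2221ec45e892911681680343885711b023604ec07a2151e2fc46fb0d7e0cf622346ab8dc3159a18cc5380a701a4e33045f88bf10fc838285848ad30b4016806f50ce810d224d446c086c137e25645478a8f16801f904498971121c24384cc089610701dc83b7883b0f741fc06bf088a12e22b4c40407a2109a220c3ea87d50e241fc03e4876f10041b706fb090211262c2436b08080f4a1e943f986eb0ed21d2c41007c60ef61ccc446887b121c16803d28883105821d03a707720ed21bac38c076c0e421e3433d8791121c16803d2884d0fa420b038907720e721fe439e073c11721ec46e18929112c33a037587d50ee41dc8410071210461e6439e06d00d5e22fc6ab88bd133037a83f987d50e241d383a70820)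
    (nat_lit 0xff85a00b4016802d005a00b4016802d005a00b4016802d005a00b4016800fc81ff0b4016802d005a00b4016802d005a00b4016802d005a00b4016800c621ccc3d116802d005a00b4016802d005a00b4016802d005a00b4016800d521ccc3a407a22d005a00b4016802d005a00b4016802d005a00b4016800f681ed0366870310405a00b4016802d005a00b4016802d005a00b4016800f681ba03ab87570e302080b4016802d005a00b4016802d005a00b4016800b4022d042b868711b023603d116802d005a00b4016802d005a00b401680138424f842b880f125823604e607a22d005a00b4016802d005a00b401680126a21a443608d812b226fc5478a8f0fc85a00b4016802d005a00b4016800c662b345380a701982349c5f88bf11c141f90b4016802d005a00b4016800fe01c483b787c90db820084810cb21612224c40416802d005a00b4016800ee420e041d876f0fe01ee84450d7e15a625c43d108082d005a00b4016800dd61da43b607180f1a1c843c8867b0b40243842687a510585a00b4016800e961da43e308200e661dec43d888d0b40243844187a510e820b0b4016800f32208c368073c117e1abc45e8d57196426603ea87f30e9c1c4841016800ff21ce439e073c0f6222e44948cd919d022583ea86eb0ee41dc83890820)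
    (nat_lit 3) (nat_lit 71)
    [[nat_lit 2,nat_lit 0x1000002,nat_lit 18,nat_lit 258,nat_lit 17,nat_lit 0x1011,nat_lit 0x100011,nat_lit 0x1000011,
    nat_lit 0x10000011,nat_lit 257,nat_lit 0x10010001,nat_lit 0x100001,nat_lit 0x100101,nat_lit 0x1100001,
    nat_lit 0x10100001,nat_lit 0x1000001,nat_lit 0x1000101,nat_lit 0x2000001,nat_lit 0x11000001,nat_lit 0x10000001],
    [nat_lit 32,nat_lit 272,nat_lit 0x1010,nat_lit 0x101010,nat_lit 0x1001010,nat_lit 0x10001010,nat_lit 0x10010,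
    nat_lit 0x1010010,nat_lit 0x10010010,nat_lit 0x100010,nat_lit 0x1100010,nat_lit 0x200010,nat_lit 0x10100010,
    nat_lit 0x1000010,nat_lit 0x11000010,nat_lit 0x10000010,nat_lit 0x20000010],[nat_lit 512,nat_lit 0x1100,
    nat_lit 0x100100,nat_lit 0x1100100,nat_lit 0x10100100,nat_lit 0x1000100,nat_lit 0x11000100,nat_lit 0x10000100,
    nat_lit 0x10010100],[nat_lit 0x2000,nat_lit 0x1001000,nat_lit 0x11001000,nat_lit 0x10001000],[nat_lit 0x20000,
    nat_lit 0x110000,nat_lit 0x1010000,nat_lit 0x2010000,nat_lit 0x11010000,nat_lit 0x10010000,nat_lit 0x10110000],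
    [nat_lit 0x200000,nat_lit 0x1200000,nat_lit 0x1100000,nat_lit 0x2100000,nat_lit 0x11100000,nat_lit 0x10100000],
    [nat_lit 0x2000000,nat_lit 0x12000000,nat_lit 0x11000000,nat_lit 0x21000000],[nat_lit 0x20000000]]
    [.c (nat_lit 1) (nat_lit 2),.r (nat_lit 0x1151) (nat_lit 2) [nat_lit 0xa11,nat_lit 0x2001,nat_lit 0x20819,
    nat_lit 17],.r (nat_lit 0x1441) (nat_lit 11) [nat_lit 0x2001,nat_lit 0x120d1,nat_lit 0x3499],
    .r (nat_lit 0x1672) (nat_lit 2) [nat_lit 0x601,nat_lit 0x2019,nat_lit 0x10401,nat_lit 17],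
    .c (nat_lit 0) (nat_lit 0x3613),.c (nat_lit 0) (nat_lit 0x30c2),.r (nat_lit 0x1441) (nat_lit 11) [nat_lit 0x2001,
    nat_lit 0x124d1,nat_lit 0x3099],.c (nat_lit 0) (nat_lit 0x3613),.c (nat_lit 0) (nat_lit 0x3613),
    .r (nat_lit 0xdb8) (nat_lit 14) [nat_lit 0x611,nat_lit 0x12419],.r (nat_lit 0x14ea) (nat_lit 2) [nat_lit 0x601,
    nat_lit 0x10401,nat_lit 17],.c (nat_lit 1) (nat_lit 130),.r (nat_lit 0x1672) (nat_lit 2) [nat_lit 0x601,
    nat_lit 0x2619,nat_lit 0x10401,nat_lit 0x411],.r (nat_lit 0x1151) (nat_lit 2) [nat_lit 0x611,nat_lit 0x2001,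
    nat_lit 0x20419,nat_lit 0x411],.r (nat_lit 0x1362) (nat_lit 11) [nat_lit 0x411,nat_lit 0x2001,nat_lit 0x20419,
    nat_lit 0x611],.c (nat_lit 0) (nat_lit 0x3613),.r (nat_lit 0x14f5) (nat_lit 14) [nat_lit 0x601,nat_lit 0x10401,
    nat_lit 0x120d1,nat_lit 0x18099],.r (nat_lit 0x1391) (nat_lit 8) [nat_lit 0x401,nat_lit 0x611,nat_lit 0x2001,
    nat_lit 0x10001],.c (nat_lit 0) (nat_lit 0x3613),.c (nat_lit 0) (nat_lit 0x3613),.c (nat_lit 2) (nat_lit 2),
    .r (nat_lit 0xdb8) (nat_lit 11) [nat_lit 0x10401,nat_lit 17],.r (nat_lit 0x165b) (nat_lit 5) [nat_lit 0x18611,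
    nat_lit 0x10401],.c (nat_lit 0) (nat_lit 0x3002),.r (nat_lit 0x1362) (nat_lit 11) [nat_lit 0x3499,nat_lit 0x2001,
    nat_lit 0x224d1,nat_lit 0x3699],.r (nat_lit 0x1151) (nat_lit 2) [nat_lit 0x3699,nat_lit 0x2001,nat_lit 0x224d1,
    nat_lit 0x3499],.r (nat_lit 0xdba) (nat_lit 11) [nat_lit 0x10401,nat_lit 17],
    .r (nat_lit 0xdc2) (nat_lit 11) [nat_lit 0x10401,nat_lit 0x18699],.r (nat_lit 0x14f5) (nat_lit 14) [nat_lit 0x601,
    nat_lit 0x10401,nat_lit 0x2019,nat_lit 17],.c (nat_lit 0) (nat_lit 0x36d3),.c (nat_lit 0) (nat_lit 0x36d3),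
    .r (nat_lit 0x1441) (nat_lit 11) [nat_lit 0x2001,nat_lit 0x128d1,nat_lit 0x3699],.c (nat_lit 0) (nat_lit 0x36d3),
    .c (nat_lit 0) (nat_lit 0x3613),.c (nat_lit 0) (nat_lit 0x3613),.c (nat_lit 0) (nat_lit 0x3613),
    .r (nat_lit 0x14d9) (nat_lit 13) [nat_lit 0x401,nat_lit 0x2001,nat_lit 0x10001,nat_lit 0x124d1],
    .c (nat_lit 3) (nat_lit 2),.r (nat_lit 0x161e) (nat_lit 2) [nat_lit 0x601,nat_lit 0x12419],
    .r (nat_lit 0xdb8) (nat_lit 14) [nat_lit 17,nat_lit 0x12019],.r (nat_lit 0x14f5) (nat_lit 14) [nat_lit 0x601,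
    nat_lit 0x10401,nat_lit 0x124d1,nat_lit 0x18699],.r (nat_lit 0xdc2) (nat_lit 11) [nat_lit 0x10401,nat_lit 17],
    .r (nat_lit 0x1608) (nat_lit 1) [nat_lit 0x2019,nat_lit 0x10401,nat_lit 17],
    .r (nat_lit 0xdb5) (nat_lit 11) [nat_lit 0x10401,nat_lit 0x18699],.r (nat_lit 0xdba) (nat_lit 13) [nat_lit 17,
    nat_lit 0x10401],.c (nat_lit 0) (nat_lit 0x602),.c (nat_lit 4) (nat_lit 2),
    .r (nat_lit 0x165b) (nat_lit 2) [nat_lit 0x10019,nat_lit 17],.r (nat_lit 0x1441) (nat_lit 11) [nat_lit 0x2001,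
    nat_lit 0x10419,nat_lit 17],.r (nat_lit 0x1641) (nat_lit 13) [nat_lit 0x18011,nat_lit 0x401,nat_lit 0x10001],
    .c (nat_lit 5) (nat_lit 2),.r (nat_lit 0x161e) (nat_lit 2) [nat_lit 0x601,nat_lit 0x411],
    .r (nat_lit 0x1393) (nat_lit 2) [nat_lit 0x601,nat_lit 0x2019,nat_lit 17,nat_lit 0x10401],
    .r (nat_lit 0x1383) (nat_lit 2) [nat_lit 0x601,nat_lit 17,nat_lit 0x10401,nat_lit 0x2019],
    .r (nat_lit 0x1360) (nat_lit 2) [nat_lit 0x601,nat_lit 0x10401,nat_lit 0x2019,nat_lit 17],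
    .r (nat_lit 0xdbf) (nat_lit 13) [nat_lit 0x10401,nat_lit 17],.r (nat_lit 0x14ea) (nat_lit 2) [nat_lit 0x601,
    nat_lit 0x10401,nat_lit 0x411],.c (nat_lit 6) (nat_lit 2),.r (nat_lit 0x1151) (nat_lit 2) [nat_lit 17,
    nat_lit 0x2001,nat_lit 0x20019,nat_lit 0x811],.c (nat_lit 0) (nat_lit 0x36d3),
    .r (nat_lit 0x1391) (nat_lit 8) [nat_lit 0x401,nat_lit 17,nat_lit 0x2001,nat_lit 0x10001],
    .c (nat_lit 0) (nat_lit 0x36d3),.c (nat_lit 0) (nat_lit 0x36d3),.c (nat_lit 7) (nat_lit 2),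
    .r (nat_lit 0x14f9) (nat_lit 15) [nat_lit 0x10401,nat_lit 17,nat_lit 0x10001,nat_lit 0x2001],
    .c (nat_lit 0) (nat_lit 0x36d3),.r (nat_lit 0x1673) (nat_lit 11) [nat_lit 0x401,nat_lit 0x2001,nat_lit 0x10001,
    nat_lit 17],.c (nat_lit 8) (nat_lit 2)]]

/-- nodes -/
noncomputable def rD8k_37_17 : List RJ :=
  [.l (nat_lit 15) (nat_lit 0x1680) (nat_lit 4) (nat_lit 0xa2c00000a2c000009e0000009e000000a68000008c00000099b0000099b0000083a00000bf400000a4400000a4400000b5400000b5400000a9a00000a9a) (nat_lit 0x1c8000001c80000021400000214000003340000018c000002590000025900000000000003ba000001b0000001b0000000a0000000a00000015a0000015a)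
    (nat_lit 0x10c822603c008180d342280420873b0ee01b8043607981a582a7046908d210c8219040c08180df0228042088030e781ab043e087c17c8255046908d2103020603e607cc0cf821503a6878713c016e04340b2012802500443062e10301e003e607cc0d5821503c3862713c013505b00e1812d8250044307761140228042a0854112823704b0880f09001ab845c08b815b01a604d308e20df01a68356067c0a20225039e8667118014204e409940ea820803ff076610061cec31387870cce203c3a007be0e2e142c3f587eb11f6190c44f890d108221043c3874d0e7a25843a107400fda17843b0876111fa1c643e988410d581b8026a05b80a101ab82f0850b1188120043608380f34209033906de0e781dc04f009e0118012003f6871717e823105220a440b3031a05bf0a9a10f81e6070c0b20132822e03b087eb148820e03c00894134826905d30ea610f821b05b00868139022e03b087eb148821b044a0780125026903ed0ada12a82a704a0094010401a6038c864318d020904d209a411882ad05050a7617c834b04b609400ea82b6047e88fb0b301e6849409a4156823104fd09fa11a423483bb062e0ecc2388420890d15341b7856d0ea613f429d82d0094011a4234844308860ffc26983e9889f16fc19c83ed0ba613f4282848605a0)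
    (nat_lit 0x10c85a00b4016802d005a00b4016802d005a00b4016802d005a00b40168011302190b4016802d005a00b4016802d005a00b4016802d005a00b4016800f0020603e616802d005a00b4016802d005a00b4016802d005a00b401680103020603e607cc2d005a00b4016802d005a00b4016802d005a00b4016800d341be033e06ac11285a00b4016802d005a00b4016802d005a00b4016801140228042a085411b82250b4016802d005a00b4016802d005a00b401680108221043a6878712c21cf43a016802d005a00b4016802d005a00b4016800e76200c3c38627101e199c3df07402d005a00b4016802d005a00b4016800ee01cf04f009e00900230038b87ed11885a00b4016802d005a00b4016800dc01ab02dc04d40d5c142028585e109002310b4016802d005a00b40168010d821f04340b60117027203f5876110d829103c016802d005a00b4016800f3021f05900d88117026503f587611070291044a07802d005a00b40168018f02f904a0096c15b01d5047d88fd0f3416604d2092811885a00b401680153825504a009400d3020803218719104831a04d209a415682310b40168011a423484430886134c1ff844f87d30ce42df85d307da141427e82d0168011a42348317077611c41d9848688410dbc2a687530ada14ec27e84a005a0)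
    (nat_lit 4) (nat_lit 67)
    [[nat_lit 2,nat_lit 3,nat_lit 0x1000002,nat_lit 17,nat_lit 0x1001,nat_lit 0x11001,nat_lit 0x101001,
    nat_lit 0x10001,nat_lit 0x1010001,nat_lit 0x100001,nat_lit 0x1000001,nat_lit 0x10000001],[nat_lit 32,nat_lit 272,
    nat_lit 0x1010,nat_lit 0x11010,nat_lit 0x101010,nat_lit 0x1001010,nat_lit 0x10001010,nat_lit 0x10010,
    nat_lit 0x110010,nat_lit 0x100010,nat_lit 0x1000010],[nat_lit 512,nat_lit 0x1100,nat_lit 0x10100,nat_lit 0x100100,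
    nat_lit 0x1010100,nat_lit 0x10000100],[nat_lit 0x2000,nat_lit 0x12000,nat_lit 0x102000,nat_lit 0x11000,
    nat_lit 0x21000,nat_lit 0x111000,nat_lit 0x1011000,nat_lit 0x10011000,nat_lit 0x101000,nat_lit 0x202000,
    nat_lit 0x201000,nat_lit 0x1101000,nat_lit 0x10101000,nat_lit 0x1001000,nat_lit 0x10001000,nat_lit 0x10002000,
    nat_lit 0x11001000],[nat_lit 0x20000,nat_lit 0x30000,nat_lit 0x1020000,nat_lit 0x120000,nat_lit 0x110000,
    nat_lit 0x1110000,nat_lit 0x1010000,nat_lit 0x2010000,nat_lit 0x10010000],[nat_lit 0x200000,nat_lit 0x1200000,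
    nat_lit 0x10200000,nat_lit 0x1100000,nat_lit 0x10100000],[nat_lit 0x2000000,nat_lit 0x11000000],
    [nat_lit 0x20000000]]
    [.c (nat_lit 1) (nat_lit 2),.r (nat_lit 0x151b) (nat_lit 11) [nat_lit 33,nat_lit 0x20001,nat_lit 0x200001],
    .r (nat_lit 0x151b) (nat_lit 11) [nat_lit 0x2021,nat_lit 0x20001,nat_lit 0x200001],
    .r (nat_lit 0xdb8) (nat_lit 13) [nat_lit 0x222031,nat_lit 33],.c (nat_lit 0) (nat_lit 0x529948d),
    .c (nat_lit 0) (nat_lit 0x33023),.c (nat_lit 0) (nat_lit 0x3055245),.c (nat_lit 0) (nat_lit 0x355045),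
    .r (nat_lit 0x9c0) (nat_lit 6) [nat_lit 0x30bb5a71,nat_lit 0x20a04051,nat_lit 0xa0001,nat_lit 0x30006041,
    nat_lit 0x30005041],.c (nat_lit 0) (nat_lit 0x3355245),.c (nat_lit 1) (nat_lit 514),
    .r (nat_lit 0xdb9) (nat_lit 8) [nat_lit 0x222031,nat_lit 0x3021],.c (nat_lit 2) (nat_lit 2),
    .r (nat_lit 0xdb9) (nat_lit 8) [nat_lit 33,nat_lit 0x220031],.c (nat_lit 0) (nat_lit 0x202005),
    .r (nat_lit 0xdb8) (nat_lit 13) [nat_lit 0x22240051,nat_lit 0x33032041],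
    .r (nat_lit 0x11db) (nat_lit 11) [nat_lit 0x2001,nat_lit 0x20001,nat_lit 0x200001,nat_lit 0x2000001,
    nat_lit 0x20000001],.r (nat_lit 0x161e) (nat_lit 7) [nat_lit 0x2020031,nat_lit 0x200001],
    .c (nat_lit 0) (nat_lit 0x307004),.r (nat_lit 0x168f) (nat_lit 1) [nat_lit 0x30021,nat_lit 0x202001,
    nat_lit 0x20001],.r (nat_lit 0xdb7) (nat_lit 8) [nat_lit 0x200001,nat_lit 33],
    .r (nat_lit 0xdbe) (nat_lit 10) [nat_lit 33,nat_lit 0x200001],.r (nat_lit 0xdb8) (nat_lit 13) [nat_lit 0x220031,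
    nat_lit 0x2021],.c (nat_lit 3) (nat_lit 2),.r (nat_lit 0x161e) (nat_lit 7) [nat_lit 0x300021,nat_lit 0x200001],
    .c (nat_lit 0) (nat_lit 0x2020005),.r (nat_lit 0x1641) (nat_lit 0) [nat_lit 0x3001,nat_lit 0x303021,
    nat_lit 0x202001],.c (nat_lit 0) (nat_lit 0x3070004),.r (nat_lit 0xdb8) (nat_lit 13) [nat_lit 33,
    nat_lit 0x222031],.c (nat_lit 4) (nat_lit 2),.r (nat_lit 0x159a) (nat_lit 12) [nat_lit 0x2020031,
    nat_lit 0x3000021,nat_lit 0x422301,nat_lit 0x330201],.r (nat_lit 0x163a) (nat_lit 12) [nat_lit 0x2020031,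
    nat_lit 0x3000021,nat_lit 0x422301,nat_lit 0x330201],.c (nat_lit 0) (nat_lit 0x2200305),
    .c (nat_lit 0) (nat_lit 0x829998d),.c (nat_lit 0) (nat_lit 0x33023),.c (nat_lit 0) (nat_lit 0x33323),
    .r (nat_lit 0xdb7) (nat_lit 14) [nat_lit 0x200001,nat_lit 0x300231],.c (nat_lit 0) (nat_lit 0x3055245),
    .r (nat_lit 0x151b) (nat_lit 11) [nat_lit 0x30552431,nat_lit 0x20001,nat_lit 0x200001],
    .r (nat_lit 0x11db) (nat_lit 11) [nat_lit 0x2001,nat_lit 0x20001,nat_lit 0x200001,nat_lit 0x2000001,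
    nat_lit 0x20000001],.c (nat_lit 0) (nat_lit 0x3055345),.r (nat_lit 0x13e3) (nat_lit 12) [nat_lit 0x20031,
    nat_lit 33,nat_lit 0x422301,nat_lit 0x330201],.c (nat_lit 0) (nat_lit 0x529998d),
    .r (nat_lit 0xdbe) (nat_lit 8) [nat_lit 0x200001,nat_lit 33],.c (nat_lit 2) (nat_lit 0x204003),
    .r (nat_lit 0xdb7) (nat_lit 8) [nat_lit 0x200001,nat_lit 0x303231],.c (nat_lit 5) (nat_lit 2),
    .c (nat_lit 0) (nat_lit 0x4355545),.c (nat_lit 1) (nat_lit 0x3000402),.c (nat_lit 0) (nat_lit 0x4355545),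
    .c (nat_lit 0) (nat_lit 0x4355545),.c (nat_lit 0) (nat_lit 0x357545),.c (nat_lit 0) (nat_lit 0x355545),
    .r (nat_lit 0x9c0) (nat_lit 6) [nat_lit 0x30bbba71,nat_lit 0x20a00051,nat_lit 0xa0001,nat_lit 0x3000a041,
    nat_lit 0x30000041],.r (nat_lit 0x159a) (nat_lit 12) [nat_lit 0x20031,nat_lit 33,nat_lit 0x422301,
    nat_lit 0x330201],.c (nat_lit 6) (nat_lit 2),.r (nat_lit 0xbc2) (nat_lit 7) [nat_lit 33,nat_lit 0x20001,
    nat_lit 0x20200001,nat_lit 0x202001,nat_lit 0x2020001],.r (nat_lit 0x151b) (nat_lit 11) [nat_lit 0x33552431,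
    nat_lit 0x20001,nat_lit 0x200001],.c (nat_lit 0) (nat_lit 0x3355547),
    .r (nat_lit 0x163a) (nat_lit 12) [nat_lit 0x20031,nat_lit 33,nat_lit 0x422301,nat_lit 0x330201],
    .c (nat_lit 7) (nat_lit 2),.r (nat_lit 0xdb9) (nat_lit 8) [nat_lit 0x220031,nat_lit 33],
    .c (nat_lit 8) (nat_lit 2)],
    .l (nat_lit 16) (nat_lit 0x38f4) (nat_lit 4) (nat_lit 0x199000001c1200001aef00001aef000019f0000019f000001ced00001ced00001fae000020a8000019dc000019dc000019d2000019d20000178900001789) (nat_lit 0x49600000718000005b9000005b9000006b8000006b8000003bb000003bb00000000000000fa000006cc000006cc000006d6000006d60000091f0000091f)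
    (nat_lit 0x1af4127813d713d7144014b81521184b109e1a940e320dc4129c0e6410710b851cfe1af416591659117c155a145b18570b641b18158210fa1b180b6412f31389165913d715360fb41437143717341b121f3b1df11dfb24d1138313dd0bd60bf4165913d71536153615091437119417ac1b0319b914231af9163514190ff0113a155a14b81437143712c0133816711563131a1e961324131013b0131a10d10eb5117c144015091437133812c0174316351a5e25da13241310131a131a0e5b0e791857184b17ac1b12163515630c4e19321d011ae5162115b3186f1617126613ce145b1521119417341743167119320c4e1e0f1bf3234122d3168f161711d013ce1b181a9419b91df125da1e961bf31ae512fc1eb418e217c018d80bb8174316170b64109e1b031f3b1a5e131a1e0f1d0120a812fc19b419dc10c219d21c89179d10fa0dc41af924d11310131022d315b319dc17c01310131012f2132e19af19cd15820e3214231dfb132413242341162119b418e212d4131012ca1306151310bd0b640e64141913dd131a131a1617161719d20bb81306132e12fc1338154510ef1b18129c16351383131a13b0168f186f10c218d812ca12f212c012fc159f10b313890b85113a0bf40e790eb513ce13ce179d161710bd19cd10b310ef0e880ea612f310710ff00bd60e5b10d111d012661c891743151319af159f15450e6a0e88)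
    (nat_lit 0x1af438f438f438f438f438f438f438f438f438f438f438f438f438f438f438f412781af438f438f438f438f438f438f438f438f438f438f438f438f438f438f413d71659153638f438f438f438f438f438f438f438f438f438f438f438f438f413d716590fb4153638f438f438f438f438f438f438f438f438f438f438f438f41440117c1437150912c038f438f438f438f438f438f438f438f438f438f438f414b8155a14371437133812c038f438f438f438f438f438f438f438f438f438f41521145b17341194167117430c4e38f438f438f438f438f438f438f438f438f4184b18571b1217ac1563163519320c4e38f438f438f438f438f438f438f438f4109e0b641f3b1b03131a1a5e1d011e0f12fc38f438f438f438f438f438f438f41a941b181df119b91e9625da1ae51bf31eb412fc38f438f438f438f438f438f40e3215821dfb1423132413241621228d18e21996131038f438f438f438f438f40dc410fa241d1af91310131015b3221f17c019281310131038f438f438f438f4129c1b181383163513b0131a186f168f18d810c212f212ca12fc38f438f438f40e640b6413dd1419131a131a161716170bb819c8132e1306133812fc38f438f4107112f30bd60ff010d10e5b126611d017431bd519af15131545159f0e8838f40b8513890bf4113a0eb50e7913ce13ce161716e919cd10bd10ef10b30ea60e88)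
    (nat_lit 4) (nat_lit 166)
    [[nat_lit 2,nat_lit 3,nat_lit 18,nat_lit 0x10002,nat_lit 0x100002,nat_lit 0x1000002,nat_lit 0x10000002,
    nat_lit 0x10000012,nat_lit 17,nat_lit 0x100011,nat_lit 0x1000011,nat_lit 0x10001011,nat_lit 0x10000011,
    nat_lit 257,nat_lit 513,nat_lit 0x100101,nat_lit 0x10000101,nat_lit 0x1001,nat_lit 0x101001,nat_lit 0x10001001,
    nat_lit 0x10001,nat_lit 0x20001,nat_lit 0x110001,nat_lit 0x1010001,nat_lit 0x10010001,nat_lit 0x10011,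
    nat_lit 0x10101,nat_lit 0x100001,nat_lit 0x200001,nat_lit 0x1100001,nat_lit 0x10100001,nat_lit 0x1000001,
    nat_lit 0x1000101,nat_lit 0x2000001,nat_lit 0x11000001,nat_lit 0x2000002,nat_lit 0x10000001],[nat_lit 32,
    nat_lit 0x1020,nat_lit 0x10000020,nat_lit 0x10001020,nat_lit 272,nat_lit 0x1110,nat_lit 0x10000110,
    nat_lit 0x10001110,nat_lit 528,nat_lit 0x1010,nat_lit 0x10001010,nat_lit 0x2010,nat_lit 0x10010,nat_lit 0x100010,
    nat_lit 0x10100010,nat_lit 0x101010,nat_lit 0x1000010,nat_lit 0x11000010,nat_lit 0x10000010],[nat_lit 512,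
    nat_lit 0x10000200,nat_lit 0x1100,nat_lit 0x10001100,nat_lit 0x10010100,nat_lit 0x100100,nat_lit 0x10100100,
    nat_lit 0x11000100,nat_lit 0x10000100],[nat_lit 0x2000,nat_lit 0x10001000],[nat_lit 0x20000,nat_lit 0x30000,
    nat_lit 0x40000,nat_lit 0x110000,nat_lit 0x1010000,nat_lit 0x10010000],[nat_lit 0x200000,nat_lit 0x300000,
    nat_lit 0x1100000,nat_lit 0x10100000],[nat_lit 0x2000000,nat_lit 0x11000000],[nat_lit 0x20000000]]
    [.c (nat_lit 1) (nat_lit 2),.c (nat_lit 0) (nat_lit 0x3332323),.c (nat_lit 0) (nat_lit 0x3332323),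
    .c (nat_lit 3) (nat_lit 0x42203),.c (nat_lit 0) (nat_lit 0x2004003),.c (nat_lit 3) (nat_lit 0x42003),
    .c (nat_lit 0) (nat_lit 0x5554547),.c (nat_lit 0) (nat_lit 0x3332323),.c (nat_lit 0) (nat_lit 0x3332323),
    .r (nat_lit 0xdb7) (nat_lit 14) [nat_lit 0x200001,nat_lit 33],.c (nat_lit 0) (nat_lit 0x3330323),
    .c (nat_lit 0) (nat_lit 0x2022232),.c (nat_lit 0) (nat_lit 0x3332323),.c (nat_lit 0) (nat_lit 0x22003),
    .c (nat_lit 0) (nat_lit 0x3373322),.r (nat_lit 0x168f) (nat_lit 11) [nat_lit 0x220031,nat_lit 0x202001,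
    nat_lit 0x22000001],.r (nat_lit 0xdac) (nat_lit 2) [nat_lit 0x30003231,nat_lit 0x202001,nat_lit 0x22000001,
    nat_lit 33],.r (nat_lit 0x168f) (nat_lit 11) [nat_lit 0x33000021,nat_lit 0x202001,nat_lit 0x22000001],
    .c (nat_lit 0) (nat_lit 0x3300002),.r (nat_lit 0xdb2) (nat_lit 5) [nat_lit 0x30003231,nat_lit 0x20002001],
    .c (nat_lit 0) (nat_lit 0x3330023),.r (nat_lit 0x168f) (nat_lit 11) [nat_lit 0x30005021,nat_lit 0x202001,
    nat_lit 0x22000001],.c (nat_lit 0) (nat_lit 0x2002203),.r (nat_lit 0x168f) (nat_lit 11) [nat_lit 0x30003021,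
    nat_lit 0x202001,nat_lit 0x22000001],.c (nat_lit 0) (nat_lit 0x3330023),.c (nat_lit 0) (nat_lit 0x3330023),
    .c (nat_lit 0) (nat_lit 0x30302),.c (nat_lit 0) (nat_lit 0x2004003),
    .r (nat_lit 0x13e3) (nat_lit 14) [nat_lit 0x64222331,nat_lit 0x53333221,nat_lit 0x22402301,nat_lit 0x33300201],
    .c (nat_lit 0) (nat_lit 0x2002003),.r (nat_lit 0x14e5) (nat_lit 14) [nat_lit 0x22000031,nat_lit 33,
    nat_lit 0x22402301,nat_lit 0x33300201],.c (nat_lit 0) (nat_lit 0x3330323),.c (nat_lit 0) (nat_lit 0x30002),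
    .r (nat_lit 0x168f) (nat_lit 11) [nat_lit 0x30000021,nat_lit 0x202001,nat_lit 0x22000001],
    .c (nat_lit 0) (nat_lit 0x3330323),.r (nat_lit 0xdb8) (nat_lit 14) [nat_lit 0x20220031,nat_lit 0x2032021],
    .c (nat_lit 0) (nat_lit 0x3332327),.c (nat_lit 2) (nat_lit 2),.r (nat_lit 0xbc2) (nat_lit 5) [nat_lit 0x53535431,
    nat_lit 0x22000001,nat_lit 0x220001,nat_lit 0x202001,nat_lit 33],
    .r (nat_lit 0xdb7) (nat_lit 14) [nat_lit 0x200001,nat_lit 0x42222321],.c (nat_lit 0) (nat_lit 0x8284896),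
    .r (nat_lit 0xdb2) (nat_lit 5) [nat_lit 33,nat_lit 0x20002001],.c (nat_lit 0) (nat_lit 0x4332456),
    .r (nat_lit 0x168f) (nat_lit 11) [nat_lit 0x53003231,nat_lit 0x202001,nat_lit 0x22000001],
    .c (nat_lit 0) (nat_lit 0x4332456),.c (nat_lit 0) (nat_lit 0x2050002),.r (nat_lit 0xdac) (nat_lit 2) [nat_lit 33,
    nat_lit 0x202001,nat_lit 0x22000001,nat_lit 0x30003231],.c (nat_lit 0) (nat_lit 0x2022232),
    .r (nat_lit 0x1396) (nat_lit 10) [nat_lit 0x22000001,nat_lit 33,nat_lit 0x202001,nat_lit 0x3002001],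
    .c (nat_lit 0) (nat_lit 0x5553247),.r (nat_lit 0xdbe) (nat_lit 10) [nat_lit 33,nat_lit 0x200001],
    .r (nat_lit 0x13e3) (nat_lit 14) [nat_lit 0x22000031,nat_lit 33,nat_lit 0x22402301,nat_lit 0x33300201],
    .c (nat_lit 0) (nat_lit 0x3300002),.c (nat_lit 0) (nat_lit 0x5553547),.c (nat_lit 0) (nat_lit 0x3330323),
    .c (nat_lit 0) (nat_lit 0x3332323),.c (nat_lit 3) (nat_lit 2),.c (nat_lit 0) (nat_lit 0x350002),
    .c (nat_lit 0) (nat_lit 0x350002),.c (nat_lit 0) (nat_lit 0x350002),.c (nat_lit 0) (nat_lit 0x30302),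
    .r (nat_lit 0xdb8) (nat_lit 14) [nat_lit 33,nat_lit 0x22202031],
    .r (nat_lit 0xc39) (nat_lit 14) [nat_lit 0x97907621,nat_lit 0x20200031,nat_lit 0x20500041,nat_lit 0x20206031,
    nat_lit 0x46400051],.c (nat_lit 0) (nat_lit 0x30002),.r (nat_lit 0xdae) (nat_lit 13) [nat_lit 0x22000001,
    nat_lit 0x202001,nat_lit 33,nat_lit 0x20002001],.c (nat_lit 4) (nat_lit 2),
    .r (nat_lit 0xdbe) (nat_lit 8) [nat_lit 0x200001,nat_lit 33],.c (nat_lit 5) (nat_lit 2),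
    .r (nat_lit 0xdb8) (nat_lit 14) [nat_lit 0x20206031,nat_lit 0x2005021],.c (nat_lit 4) (nat_lit 0x400902),
    .c (nat_lit 0) (nat_lit 0x2000403),.c (nat_lit 3) (nat_lit 0x40203),.c (nat_lit 0) (nat_lit 0x5553247),
    .c (nat_lit 6) (nat_lit 2),.r (nat_lit 0xdb8) (nat_lit 14) [nat_lit 0x30400022,nat_lit 0x64004032],
    .c (nat_lit 0) (nat_lit 0x2000005),.r (nat_lit 0x163a) (nat_lit 14) [nat_lit 0x22000031,nat_lit 33,
    nat_lit 0x22402301,nat_lit 0x33300201],.c (nat_lit 7) (nat_lit 2),.c (nat_lit 0) (nat_lit 0x5553547),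
    .c (nat_lit 8) (nat_lit 2)]]

/-- nodes -/
noncomputable def rD8k_37_18 : List RJ :=
  [.l (nat_lit 10) (nat_lit 240) (nat_lit 4) (nat_lit 0x810000008100000083000000830000008200000082000000930000007f0000007e0000007e00000071000000950000007f0000008f000000b000000070) (nat_lit 0x2f0000002f0000002d0000002d0000002e0000002e000000310000001d00000032000000320000001b0000003f00000021000000310000004000000000)
    (nat_lit 0xc0521505418c590c86413c4f198301d8601048114830150541a45d1406413c4f198420c04c1048115054130561545514850144511b04418852194b3150541384c154551506214c531b044188520f48b17459154551605c13c651404e19c411644d108821a46315455150580fc651304c19c3128c9910882190641885019465198761cc730c0581c86210c5114032150520fc4f1a0661344d1085a0f0400fc3113c4f14c511304e134730c8321c43f2ac6f170a013c4f14c5113050134730d03217c3f204451409410830110440c441168580fc3f1784a0e8440c44d198661b06c19c671083017c711f85e1d0641149313060148522644d100621146f190441804a0fc7f0c0761886228c590f072204ab1d03a1b86013c8f2048122cb3208820c451250a024c4d23c7f168b0104410f465108420fc431405c1143113c3f0c05a)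
    (nat_lit 0xc0f03c0f03c0f03c0f03c0f03c0f03c0f03c0f0148303c0f03c0f03c0f03c0f03c0f03c0f03c0f015054130f03c0f03c0f03c0f03c0f03c0f03c0f0150541584c3c0f03c0f03c0f03c0f03c0f03c0f018c6915455160f03c0f03c0f03c0f03c0f03c0f01645d15455170583c0f03c0f03c0f03c0f03c0f00c8501485413c3f198f03c0f03c0f03c0f03c0f01906414062194651d8663c0f03c0f03c0f03c0f013c4f144531404c1cc4d0c8f03c0f03c0f03c0f013c4f144531384c1cc4d0c8323c0f03c0f03c0f0188661b06c19c670c0421c45f178f03c0f03c0f00c04211044104311605a0fc3f1285e3c0f03c0f01d83018862164931a83c1fc7f0e86c180f03c0f01804c1485213491188401bc4511064128603c0f0104411943d1084210c3f170500c4450fc4f168f0204812048b208821443127894134611fc8d2085a)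
    (nat_lit 5) (nat_lit 107)
    [[nat_lit 2,nat_lit 0x10102,nat_lit 258,nat_lit 0x10002,nat_lit 17,nat_lit 0x10111,nat_lit 0x10011,nat_lit 257,
    nat_lit 0x10101,nat_lit 0x11001,nat_lit 0x10001,nat_lit 0x20002,nat_lit 0x20001,nat_lit 0x100001,nat_lit 0x110101,
    nat_lit 0x110001,nat_lit 0x1010101,nat_lit 0x1010001,nat_lit 0x10000001,nat_lit 0x10010101,nat_lit 0x10010001],
    [nat_lit 32,nat_lit 272,nat_lit 0x10110,nat_lit 0x10010110,nat_lit 0x100110,nat_lit 0x10000110,nat_lit 0x10010,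
    nat_lit 0x110110,nat_lit 0x110010,nat_lit 0x1010010,nat_lit 0x10010010,nat_lit 0x101010,nat_lit 0x1000010,
    nat_lit 0x10000010,nat_lit 0x10001010,nat_lit 0x10100010,nat_lit 0x11000010,nat_lit 0x20000010],[nat_lit 512,
    nat_lit 0x10200,nat_lit 0x1100,nat_lit 0x2100,nat_lit 0x101100,nat_lit 0x10001100,nat_lit 0x10100,
    nat_lit 0x110200,nat_lit 0x10010200,nat_lit 0x11100,nat_lit 0x12100,nat_lit 0x110100,nat_lit 0x1010100,
    nat_lit 0x10010100,nat_lit 0x20010100,nat_lit 0x100100,nat_lit 0x1000100,nat_lit 0x10000100,nat_lit 0x20000100],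
    [nat_lit 0x2000,nat_lit 0x3000,nat_lit 0x4000,nat_lit 0x102000,nat_lit 0x1002000,nat_lit 0x10002000,
    nat_lit 0x11000,nat_lit 0x101000,nat_lit 0x1001000,nat_lit 0x10001000,nat_lit 0x20001000],[nat_lit 0x20000,
    nat_lit 0x110000,nat_lit 0x1110000,nat_lit 0x1010000,nat_lit 0x10010000,nat_lit 0x11010000,nat_lit 0x20010000],
    [nat_lit 0x200000,nat_lit 0x1100000,nat_lit 0x10100000],[nat_lit 0x2000000,nat_lit 0x3000000,nat_lit 0x11000000,
    nat_lit 0x21000000],[nat_lit 0x20000000,nat_lit 0x30000000,nat_lit 0x40000000]]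
    [.c (nat_lit 1) (nat_lit 2),.c (nat_lit 0) (nat_lit 0xc40118e6),.c (nat_lit 0) (nat_lit 0x1c42118e6),
    .c (nat_lit 1) (nat_lit 0x100300006),.r (nat_lit 0xdbb) (nat_lit 11) [nat_lit 65,nat_lit 0x10002300e3],
    .c (nat_lit 0) (nat_lit 0x40118e6),.c (nat_lit 0) (nat_lit 0xc0300006),.c (nat_lit 0) (nat_lit 0x6319cc7),
    .c (nat_lit 0) (nat_lit 0xc40118e6),.c (nat_lit 1) (nat_lit 0x80318006),.c (nat_lit 0) (nat_lit 0xc0300006),
    .c (nat_lit 1) (nat_lit 0x200500006),.c (nat_lit 0) (nat_lit 0xc0500006),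
    .r (nat_lit 0xdba) (nat_lit 10) [nat_lit 65,nat_lit 0x10800300e3],.c (nat_lit 0) (nat_lit 0x40100e6),
    .c (nat_lit 0) (nat_lit 0xc0301c06),.c (nat_lit 0) (nat_lit 0x1400118e6),.c (nat_lit 1) (nat_lit 0x86300006),
    .c (nat_lit 5) (nat_lit 0xc0400006),.c (nat_lit 1) (nat_lit 0x1040118e6),.c (nat_lit 0) (nat_lit 0xc0300006),
    .c (nat_lit 2) (nat_lit 2),.r (nat_lit 0xdb8) (nat_lit 11) [nat_lit 0x1000200003,nat_lit 65],
    .r (nat_lit 0xdb3) (nat_lit 2) [nat_lit 0x18c43018e3,nat_lit 0xc6339803],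
    .r (nat_lit 0xdbb) (nat_lit 11) [nat_lit 0x2080231cc3,nat_lit 0x18c00018e3],.c (nat_lit 5) (nat_lit 0xc62180c7),
    .r (nat_lit 0xdba) (nat_lit 10) [nat_lit 0xc63018e3,nat_lit 0x1104231cc3],
    .r (nat_lit 0xdba) (nat_lit 11) [nat_lit 0x1000200003,nat_lit 65],.c (nat_lit 0) (nat_lit 0xc40100e6),
    .c (nat_lit 1) (nat_lit 0x100301c06),.r (nat_lit 0xdbb) (nat_lit 11) [nat_lit 0x10c60000c3,nat_lit 0x842300e3],
    .r (nat_lit 0x15ed) (nat_lit 4) [nat_lit 0x1080000003,nat_lit 0x10001,nat_lit 0x18c4339803,nat_lit 0x18c00398e3],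
    .c (nat_lit 0) (nat_lit 0xc0019c06),.r (nat_lit 0xdba) (nat_lit 10) [nat_lit 0x10800300e3,nat_lit 65],
    .r (nat_lit 0x168f) (nat_lit 7) [nat_lit 0xc0200003,nat_lit 65,nat_lit 0x1080000003],
    .r (nat_lit 0xdba) (nat_lit 11) [nat_lit 0x1000200003,nat_lit 0x43000c3],.c (nat_lit 0) (nat_lit 0xc02),
    .r (nat_lit 0xdba) (nat_lit 11) [nat_lit 0x1000200003,nat_lit 0xc40000c3],
    .r (nat_lit 524) (nat_lit 1) [nat_lit 0x410061,nat_lit 0x80300003,nat_lit 0x200001,nat_lit 0x1000200003,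
    nat_lit 0x500041,nat_lit 0x18c6b39803],.c (nat_lit 3) (nat_lit 2),.c (nat_lit 0) (nat_lit 0x14a32b587),
    .c (nat_lit 0) (nat_lit 0xc6301cc7),.c (nat_lit 0) (nat_lit 0xc6311cc7),
    .r (nat_lit 0x15ed) (nat_lit 4) [nat_lit 0x1080000003,nat_lit 0x10001,nat_lit 0x18c4339803,nat_lit 0x18041],
    .c (nat_lit 1) (nat_lit 0x86301cc7),.c (nat_lit 1) (nat_lit 0x86019cc7),
    .r (nat_lit 524) (nat_lit 1) [nat_lit 0x21050634c3,nat_lit 0x80300003,nat_lit 0x200001,nat_lit 0x1000200003,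
    nat_lit 0x294713b0e3,nat_lit 0x18c6b39803],.c (nat_lit 0) (nat_lit 0x14a32b587),
    .c (nat_lit 0) (nat_lit 0xc6001cc7),.c (nat_lit 5) (nat_lit 0xc6411cc7),
    .r (nat_lit 0xdba) (nat_lit 11) [nat_lit 0x1000200003,nat_lit 0x18c43018e3],.c (nat_lit 0) (nat_lit 0xc0019cc7),
    .c (nat_lit 0) (nat_lit 0x2d635ffd9),.c (nat_lit 5) (nat_lit 0x844118e6),
    .r (nat_lit 0x1595) (nat_lit 2) [nat_lit 0x84231cc3,nat_lit 0x84200003,nat_lit 0xc6339803],
    .c (nat_lit 0) (nat_lit 0xc0319cc7),.c (nat_lit 0) (nat_lit 0xc6319cc9),.c (nat_lit 0) (nat_lit 0xc6319cc5),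
    .c (nat_lit 4) (nat_lit 2),.c (nat_lit 0) (nat_lit 0x10003),.c (nat_lit 5) (nat_lit 0x440007),
    .r (nat_lit 0xdba) (nat_lit 11) [nat_lit 0x1000200003,nat_lit 0x44300e3],.c (nat_lit 0) (nat_lit 0x4020007),
    .c (nat_lit 0) (nat_lit 0x10003),.c (nat_lit 0) (nat_lit 0x220007),
    .r (nat_lit 0xdbb) (nat_lit 11) [nat_lit 0x10002300e3,nat_lit 65],.c (nat_lit 1) (nat_lit 0x104010007),
    .c (nat_lit 0) (nat_lit 0x10003),.c (nat_lit 0) (nat_lit 0x2d6b1ffd9),.c (nat_lit 5) (nat_lit 2),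
    .r (nat_lit 0xdb3) (nat_lit 2) [nat_lit 65,nat_lit 0xc6339803],
    .r (nat_lit 0xdba) (nat_lit 10) [nat_lit 0x10c60000c3,nat_lit 0x1040300e3],.c (nat_lit 0) (nat_lit 0x820000d),
    .c (nat_lit 0) (nat_lit 0x2d635ffd9),.c (nat_lit 5) (nat_lit 0x6200006),.c (nat_lit 5) (nat_lit 0x200002),
    .c (nat_lit 6) (nat_lit 2),.r (nat_lit 0xdbb) (nat_lit 11) [nat_lit 0x10800300e3,nat_lit 0xc02000c3],
    .r (nat_lit 0x159a) (nat_lit 10) [nat_lit 0x80300003,nat_lit 0x1000200003,nat_lit 0x1080031cc3,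
    nat_lit 0x18c0039803],.c (nat_lit 7) (nat_lit 2),.c (nat_lit 0) (nat_lit 0x4000003),
    .c (nat_lit 0) (nat_lit 0x4000003),.c (nat_lit 0) (nat_lit 0x2c6b5ffd9),.c (nat_lit 8) (nat_lit 2),
    .c (nat_lit 0) (nat_lit 0x1ce73ce49),.c (nat_lit 5) (nat_lit 0x400002)],
    .l (nat_lit 14) (nat_lit 0xf00) (nat_lit 3) (nat_lit 0x604000006f8000006ce000006ce00000806000008060000070300000703000006ac000006ac0000069d0000069d00000690000006900000066600000666) (nat_lit 0x10e000002020000013800000138000000000000000000000103000001030000015a0000015a00000169000001690000017600000176000001a0000001a0)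
    (nat_lit 0x152040218fc629174864012d450111f84aa11c449b0fd048e119046419f854817005c00f0073e17d45f5171053a0f4458f16085c40fec3e5170062915405021b386ce18bc90315d0574148c53f1b2c716137052e170063f16585501b386ce17f48d115d057412a45551fa883513c850c1cf86401b386ce14008061c0c7031af067a0f0069d1ac874c13cc3d40f005d21b386ce20185001e0070322188441a7469d1a40690199866617d450123449031c0c70311a060016a452c16683c0163458d165456317d44b517f462f1e00703180046816a45a917305a415ac539158c50314e84aa15d0574211067a16a452c1520552165c5431658504156052e171047e15d057422186bc16a45a91548548165c54312e04f6143050c163c49b155453f1a7469d16903c0150c54315d0534149c4d314a457b0f4447112a45231a743c0173059a165c5971670574149c52713f44cf171048e20d47161a4074c14e458d13d8504149c4d315204b214684f016083f41fa86cb1a406b215ac58d12e0596149c527141854813c04f00f94464143052e19983d4140c563143052e133c57b13c04f015804da0fec46413c84dc19984f3158c595143055813f452913c051a1318560)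
    (nat_lit 0x1520f003c00f003c00f003c00f003c00f003c00f003c00f003c00f0010085483c00f003c00f003c00f003c00f003c00f003c00f003c00f0018fc5c01540f003c00f003c00f003c00f003c00f003c00f003c00f0018a45c014085503c00f003c00f003c00f003c00f003c00f003c00f0017483c01b386ce1400f003c00f003c00f003c00f003c00f003c00f00190073e1b386ce20185003c00f003c00f003c00f003c00f003c00f0012d45f518bc5fd1c0c78011a0f003c00f003c00f003c00f003c00f0014045f5240c8d11c0c70318004683c00f003c00f003c00f003c00f0011f85c415d05741af083e16a45a91520f003c00f003c00f003c00f0012a853a15d057419e884414b05a915485483c00f003c00f003c00f0011c43d1148c4a90f0069d16685cc165c59715d0f003c00f003c00f00126c58f14fc5551a7469d0f005a4150c54314d05743c00f003c00f000fd05821b2c7ea1ac8690163456b16584b8149c5271520f003c00f0012385c41c588351d30690163453914104f6134c52712c85483c00f0011903fb13704f213cc6661654563156050c14a44fd14684f01580f0011903e514b850c0f50666158c50314b850c15ec4cf13c04f01368560)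
    (nat_lit 4) (nat_lit 101)
    [[nat_lit 2,nat_lit 0x10000002,nat_lit 18,nat_lit 17,nat_lit 0x10000011,nat_lit 33,nat_lit 273,nat_lit 257,
    nat_lit 0x10000101,nat_lit 0x10101,nat_lit 0x1001,nat_lit 0x10001001,nat_lit 0x10001,nat_lit 0x10010001,
    nat_lit 0x100001,nat_lit 0x10100001,nat_lit 0x1000001,nat_lit 0x1000002,nat_lit 0x10000001,nat_lit 0x20000001],
    [nat_lit 32,nat_lit 272,nat_lit 0x10000110,nat_lit 0x10110,nat_lit 0x1010,nat_lit 0x10001010,nat_lit 0x10010,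
    nat_lit 0x100010,nat_lit 0x10000010,nat_lit 0x10000020],[nat_lit 512,nat_lit 0x10000200,nat_lit 0x1100,
    nat_lit 0x10100,nat_lit 0x20100,nat_lit 0x100100,nat_lit 0x10100100,nat_lit 0x1000100,nat_lit 0x1010100,
    nat_lit 0x10000100,nat_lit 0x10001100,nat_lit 0x10010100,nat_lit 0x20000100],[nat_lit 0x2000,nat_lit 0x11000,
    nat_lit 0x1001000,nat_lit 0x10001000,nat_lit 0x10101000],[nat_lit 0x20000,nat_lit 0x30000,nat_lit 0x110000,
    nat_lit 0x10010000],[nat_lit 0x200000,nat_lit 0x1100000,nat_lit 0x10100000],[nat_lit 0x2000000,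
    nat_lit 0x11000000],[nat_lit 0x20000000]]
    [.c (nat_lit 1) (nat_lit 2),.c (nat_lit 0) (nat_lit 0x5553343),.c (nat_lit 0) (nat_lit 0x5553343),
    .c (nat_lit 0) (nat_lit 0x5553343),.c (nat_lit 0) (nat_lit 0x5553343),
    .r (nat_lit 0xdba) (nat_lit 10) [nat_lit 0x20005021,nat_lit 0x2001],.c (nat_lit 0) (nat_lit 0x3330023),
    .c (nat_lit 0) (nat_lit 0x3330023),.c (nat_lit 3) (nat_lit 0x2222232),.c (nat_lit 0) (nat_lit 0x3030323),
    .r (nat_lit 0xdaf) (nat_lit 14) [nat_lit 0x2001,nat_lit 0x2000001,nat_lit 33,nat_lit 0x20200001],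
    .r (nat_lit 0x1512) (nat_lit 14) [nat_lit 0x2000001,nat_lit 0x22222301,nat_lit 33],
    .c (nat_lit 0) (nat_lit 0x5353543),.c (nat_lit 0) (nat_lit 0x5353543),.r (nat_lit 0xdba) (nat_lit 10) [nat_lit 33,
    nat_lit 0x2001],.r (nat_lit 0xdb8) (nat_lit 3) [nat_lit 0x5335451,nat_lit 0x26424541],
    .r (nat_lit 0x165b) (nat_lit 9) [nat_lit 0x3021,nat_lit 0x2001],.r (nat_lit 0xc60) (nat_lit 5) [nat_lit 33,
    nat_lit 0x35535431,nat_lit 0x2000001,nat_lit 0x20200001,nat_lit 0x2020001],.c (nat_lit 0) (nat_lit 0x5553345),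
    .c (nat_lit 0) (nat_lit 0x5553343),.c (nat_lit 2) (nat_lit 2),.c (nat_lit 0) (nat_lit 0x2205),
    .c (nat_lit 0) (nat_lit 0x3330023),.r (nat_lit 0xdb8) (nat_lit 3) [nat_lit 0x4224051,nat_lit 0x23035041],
    .c (nat_lit 3) (nat_lit 0x32302),.r (nat_lit 0xdb3) (nat_lit 8) [nat_lit 0x303021,nat_lit 0x2202001],
    .c (nat_lit 2) (nat_lit 0x300202),.r (nat_lit 0xdb8) (nat_lit 3) [nat_lit 0x20202031,nat_lit 0x2003021],
    .c (nat_lit 0) (nat_lit 0x5553343),.r (nat_lit 0x168f) (nat_lit 15) [nat_lit 0x3002001,nat_lit 0x20005021,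
    nat_lit 0x2000001],.c (nat_lit 3) (nat_lit 2),.r (nat_lit 0xdb3) (nat_lit 8) [nat_lit 0x30021,nat_lit 0x2202001],
    .r (nat_lit 0x1512) (nat_lit 14) [nat_lit 0x2000001,nat_lit 0x22222301,nat_lit 0x33333221],
    .c (nat_lit 0) (nat_lit 0x202003),.r (nat_lit 0xdb8) (nat_lit 3) [nat_lit 0x8220051,nat_lit 0x27030041],
    .r (nat_lit 0xdb8) (nat_lit 3) [nat_lit 0x40220051,nat_lit 0x32030041],
    .r (nat_lit 0x165b) (nat_lit 9) [nat_lit 0x3305231,nat_lit 0x2001],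
    .r (nat_lit 0xdb8) (nat_lit 3) [nat_lit 0x230041,nat_lit 0x22020051],.c (nat_lit 0) (nat_lit 0x300002),
    .c (nat_lit 0) (nat_lit 0x3330023),.r (nat_lit 0xdb5) (nat_lit 8) [nat_lit 0x2001,nat_lit 33],
    .c (nat_lit 0) (nat_lit 0x3030323),.r (nat_lit 0x9be) (nat_lit 14) [nat_lit 0x9008001,nat_lit 0x93939851,
    nat_lit 0x3030041,nat_lit 0x8000001,nat_lit 0x80800001],.c (nat_lit 4) (nat_lit 2),
    .c (nat_lit 3) (nat_lit 0x332002),.r (nat_lit 0xdb8) (nat_lit 3) [nat_lit 33,nat_lit 0x22200031],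
    .r (nat_lit 0x159a) (nat_lit 3) [nat_lit 0x2003001,nat_lit 0x2001,nat_lit 0x22200321,nat_lit 0x3000231],
    .c (nat_lit 0) (nat_lit 0x3030002),.c (nat_lit 5) (nat_lit 2),.r (nat_lit 0xdb8) (nat_lit 3) [nat_lit 0x6200031,
    nat_lit 0x25000021],.r (nat_lit 0xdb8) (nat_lit 3) [nat_lit 0x22200031,nat_lit 33],
    .c (nat_lit 0) (nat_lit 0x5353543),.c (nat_lit 6) (nat_lit 2),.c (nat_lit 3) (nat_lit 0x2002003),
    .r (nat_lit 0x168f) (nat_lit 15) [nat_lit 0x3002001,nat_lit 33,nat_lit 0x2000001],.c (nat_lit 7) (nat_lit 2),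
    .r (nat_lit 0xdb3) (nat_lit 8) [nat_lit 33,nat_lit 0x2202001],.c (nat_lit 8) (nat_lit 2)]]

/-- nodes -/
noncomputable def rD8k_37_19 : List RJ :=
  [.l (nat_lit 16) (nat_lit 0x3c78) (nat_lit 4) (nat_lit 0x21940000196c00001c9f00001c9f000018a60000213800001a4800001e7400001cef00001cef0000189c00002520000020a0000020a000001e3d00002047) (nat_lit 0xbb40000038c0000088100000881000003e800000c7a000006ac00000ad800000831000008310000000000000c840000048000000480000004d9000006e3)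
    (nat_lit 0x1a2c1e08191319130c18151a1ae816bc1e4f10712f90210e1c24195e1cbb1ab10db81a2c10eb10eb14e40ce812c00df411db10191b6a0ce8199216721493128910eb19131428141e1957102517151267146e146e1b190f7b181f1621137a111610eb19131432142818b71025169311c7146e150e19f7101b199b181f17c60ff40ce8151a1025102514be0c18115a0dce10750fd518a60c2219ee16ce13cd104714e40c1818b719571d5014be1a8c166019071907213814b416321cb81c5f18d90df416bc11c7126716600dce139c0f70121712171a480dc4174415c8270319eb12c01ae8169317151a8c115a184a139c164316430c1811f019f419f4228d157510191071150e146e19070fd51643121714be143c1cef106b1a8b2acb1816160c11db1e4f146e146e190710751643121714be14be17ef106b11ad21ed0c180e500ce8210e101b0f7b14b40c2211f00dc4106b106b0f1e0c181bd8191c0ed7187b1b6a2f9019f71b19213818a60c181a4817ef1cef25200f1e235c20a023fd2da11672195e181f16211cb816ce19f415c821ed2acb20a0191c0cbc1c200dcb170119921c24199b181f163219ee19f4174411ad1a8b235c1bd81b300cbc1bc719bd12891ab10ff4111618d91047157519eb0e50160c2da1187b19bd17011a54184a14931cbb17c6137a1c5f13cd228d27030c18181623fd0ed71bc70dcb1b6e1a54)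
    (nat_lit 0x1a2c3c783c783c783c783c783c783c783c783c783c783c783c783c783c783c781e081a2c3c783c783c783c783c783c783c783c783c783c783c783c783c783c78191310eb14283c783c783c783c783c783c783c783c783c783c783c783c783c78191310eb141e14283c783c783c783c783c783c783c783c783c783c783c783c780c1814e4195718b714be3c783c783c783c783c783c783c783c783c783c783c78151a0ce8102510250c1814be3c783c783c783c783c783c783c783c783c783c781ae812c017151693115a1a8c139c3c783c783c783c783c783c783c783c783c7816bc0df4126711c70dce16600f70139c3c783c783c783c783c783c783c783c781c8d11db146e146e107519071217164314be3c783c783c783c783c783c783c7810711019146e150e0fd5190712171643143c14be3c783c783c783c783c783c7822d41a0c1b1919f718a621381a480c181cef17ef0f1e3c783c783c783c783c78183a0ce80f7b101b0c2214b40dc411f0106b106b0c180f1e3c783c783c783c781c241992181f199b19ee1632174419f41a8b11ad1bd8235c0cbc3c783c783c78195e16721621181f16ce1cb815c819f426e321ed191c20a01c200cbc3c783c781c891493137a17c613cd1c5f1e2f1aef18160c180ed723fd0dcb1bc71a543c781ab1128911160ff4104718d919eb1575160c0e50187b2603170119bd184a1a54)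
    (nat_lit 6) (nat_lit 83)
    [[nat_lit 2,nat_lit 17,nat_lit 33,nat_lit 0x1011,nat_lit 0x10011,nat_lit 0x100011,nat_lit 0x1000011,
    nat_lit 0x1101,nat_lit 0x10101,nat_lit 0x11101,nat_lit 0x1000101,nat_lit 0x1001,nat_lit 0x2001,nat_lit 0x11001,
    nat_lit 0x101001,nat_lit 0x10101001,nat_lit 0x1001001,nat_lit 0x10001001,nat_lit 0x10002001,nat_lit 0x100001,
    nat_lit 0x10100001,nat_lit 0x1000001,nat_lit 0x1010001,nat_lit 0x2000001,nat_lit 0x10000001],[nat_lit 32,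
    nat_lit 48,nat_lit 64,nat_lit 0x100020,nat_lit 0x10001010,nat_lit 0x10010,nat_lit 0x100010,nat_lit 0x1000010,
    nat_lit 0x10000010],[nat_lit 512,nat_lit 768,nat_lit 0x10300,nat_lit 0x1200,nat_lit 0x10200,nat_lit 0x1000200,
    nat_lit 0x1100,nat_lit 0x11100,nat_lit 0x10001100,nat_lit 0x10100,nat_lit 0x20200,nat_lit 0x10011100,
    nat_lit 0x20100,nat_lit 0x110100,nat_lit 0x10110100,nat_lit 0x1010100,nat_lit 0x10010100,nat_lit 0x100100,
    nat_lit 0x10100100,nat_lit 0x1000100],[nat_lit 0x2000,nat_lit 0x10002000,nat_lit 0x11000,nat_lit 0x21000,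
    nat_lit 0x10011000,nat_lit 0x101000,nat_lit 0x10101000,nat_lit 0x20101000,nat_lit 0x1001000,nat_lit 0x11001000,
    nat_lit 0x10001000],[nat_lit 0x20000,nat_lit 0x30000,nat_lit 0x120000,nat_lit 0x110000,nat_lit 0x10110000,
    nat_lit 0x1010000,nat_lit 0x10010000],[nat_lit 0x200000,nat_lit 0x10200000,nat_lit 0x1100000,nat_lit 0x10100000,
    nat_lit 0x20200000,nat_lit 0x11100000,nat_lit 0x20100000],[nat_lit 0x2000000,nat_lit 0x11000000],
    [nat_lit 0x20000000]]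
    [.c (nat_lit 1) (nat_lit 2),.c (nat_lit 0) (nat_lit 0xc0003006),.c (nat_lit 0) (nat_lit 0xc0005006),
    .c (nat_lit 0) (nat_lit 0x3000003006),.c (nat_lit 1) (nat_lit 0x83003006),.c (nat_lit 0) (nat_lit 0xc0003006),
    .c (nat_lit 0) (nat_lit 0xc0003006),.c (nat_lit 0) (nat_lit 0x31c00c0006),.c (nat_lit 0) (nat_lit 0x1430c0006),
    .c (nat_lit 0) (nat_lit 0x32430c0006),.c (nat_lit 0) (nat_lit 0xc00c0006),.c (nat_lit 0) (nat_lit 0x3140000006),
    .c (nat_lit 0) (nat_lit 0x5240000006),.c (nat_lit 0) (nat_lit 0x31c3000006),.c (nat_lit 0) (nat_lit 0x71c30c318c),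
    .c (nat_lit 0) (nat_lit 0x1c20821c6),.c (nat_lit 1) (nat_lit 0x3080000006),.c (nat_lit 0) (nat_lit 0x3140000006),
    .c (nat_lit 0) (nat_lit 0x5240000006),.r (nat_lit 0xdb7) (nat_lit 11) [nat_lit 0x2080000003,nat_lit 0xc30c61c3],
    .c (nat_lit 0) (nat_lit 0x20c20821c6),.c (nat_lit 2) (nat_lit 0xc0004006),.c (nat_lit 0) (nat_lit 0xc3000006),
    .r (nat_lit 0x9c2) (nat_lit 11) [nat_lit 0x3000000181,nat_lit 0x3cb3cf3ea343,nat_lit 0x23800001c3,
    nat_lit 0x380000380003,nat_lit 0x200e0001c3],.r (nat_lit 0xdb7) (nat_lit 11) [nat_lit 0x2080000003,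
    nat_lit 0x83000000183],.c (nat_lit 2) (nat_lit 2),.c (nat_lit 0) (nat_lit 0x3002),.c (nat_lit 0) (nat_lit 0x9006),
    .r (nat_lit 0xdbe) (nat_lit 13) [nat_lit 0x30c30861c3,nat_lit 0x2080000003],.c (nat_lit 0) (nat_lit 0x3000003006),
    .c (nat_lit 0) (nat_lit 0x400200d),.c (nat_lit 0) (nat_lit 0x30c30c0187),
    .r (nat_lit 0x168f) (nat_lit 8) [nat_lit 0xc00000c0183,nat_lit 0x2002000003,nat_lit 0x80000080003],
    .c (nat_lit 0) (nat_lit 0x30c30c0187),.c (nat_lit 3) (nat_lit 2),.c (nat_lit 0) (nat_lit 0x80003),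
    .c (nat_lit 2) (nat_lit 0x2184007),.c (nat_lit 2) (nat_lit 0x2000104007),.c (nat_lit 0) (nat_lit 0x2100007),
    .c (nat_lit 0) (nat_lit 0x80003),.c (nat_lit 0) (nat_lit 0x2000080007),.c (nat_lit 2) (nat_lit 0x2002084007),
    .r (nat_lit 0xdb7) (nat_lit 6) [nat_lit 0x2080000003,nat_lit 129],.c (nat_lit 1) (nat_lit 0x102080007),
    .c (nat_lit 2) (nat_lit 0x4104007),.r (nat_lit 0x10b4) (nat_lit 0) [nat_lit 0x2080000003,nat_lit 0x800c3000183,
    nat_lit 0x2002000003,nat_lit 0x800821001c3,nat_lit 0x1c51c714c183],.c (nat_lit 0) (nat_lit 0x4080007),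
    .r (nat_lit 0x1404) (nat_lit 7) [nat_lit 0x820801c3,nat_lit 0x800c3000183,nat_lit 0x2080000003,
    nat_lit 0xc31450c6183],.c (nat_lit 2) (nat_lit 0x30c0002187),.c (nat_lit 0) (nat_lit 0x2100007),
    .r (nat_lit 0xdbe) (nat_lit 13) [nat_lit 0x800c3000183,nat_lit 0x2080000003],
    .c (nat_lit 0) (nat_lit 0x30c3003187),.c (nat_lit 0) (nat_lit 0x30c3003187),.c (nat_lit 0) (nat_lit 0x80003),
    .c (nat_lit 4) (nat_lit 2),.r (nat_lit 0x10b4) (nat_lit 0) [nat_lit 0x2080000003,nat_lit 129,nat_lit 0x2002000003,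
    nat_lit 0x1000001001c3,nat_lit 0x24514514c183],.c (nat_lit 0) (nat_lit 0x2002000007),
    .c (nat_lit 2) (nat_lit 0x2004004007),.r (nat_lit 0xdb7) (nat_lit 6) [nat_lit 0x2080000003,nat_lit 0xc2000183],
    .r (nat_lit 0x1404) (nat_lit 7) [nat_lit 0x800000801c3,nat_lit 129,nat_lit 0x2080000003,nat_lit 0x1430c30c6183],
    .c (nat_lit 2) (nat_lit 0xc30c2187),.r (nat_lit 0x10b4) (nat_lit 0) [nat_lit 0x2080000003,nat_lit 0x102082087183,
    nat_lit 0x2002000003,nat_lit 0x30c30861c3,nat_lit 0x1430c30c6183],.c (nat_lit 0) (nat_lit 0x2000000005),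
    .r (nat_lit 0xdb7) (nat_lit 11) [nat_lit 0x2080000003,nat_lit 129],.r (nat_lit 0xdbe) (nat_lit 13) [nat_lit 129,
    nat_lit 0x2080000003],.c (nat_lit 5) (nat_lit 2),.c (nat_lit 0) (nat_lit 0x2000003),
    .r (nat_lit 0x1404) (nat_lit 7) [nat_lit 0x1000801c3,nat_lit 0x80140000183,nat_lit 0x2080000003,
    nat_lit 0xc31c30c6183],.c (nat_lit 0) (nat_lit 0x30c00c3187),.c (nat_lit 0) (nat_lit 0x30c00c3187),
    .c (nat_lit 0) (nat_lit 0x2000003),.c (nat_lit 0) (nat_lit 0x30c00c3187),.c (nat_lit 6) (nat_lit 2),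
    .r (nat_lit 0x1404) (nat_lit 7) [nat_lit 0xc30c30061c3,nat_lit 0x102082087183,nat_lit 0x2080000003,nat_lit 129],
    .c (nat_lit 0) (nat_lit 0x30c30c3185),.c (nat_lit 1) (nat_lit 0x30830c3187),.c (nat_lit 2) (nat_lit 0x5145140307),
    .c (nat_lit 0) (nat_lit 0x30c30c3185),.r (nat_lit 0xdbe) (nat_lit 13) [nat_lit 0x102082087183,
    nat_lit 0x2080000003],.c (nat_lit 7) (nat_lit 2),.c (nat_lit 0) (nat_lit 0x30c30c3185),
    .c (nat_lit 8) (nat_lit 2)],
    .l (nat_lit 14) (nat_lit 0xd20) (nat_lit 3) (nat_lit 0xbb0000007d10000087c000007e700000858000007cb0000077c0000086e0000077c000007ee00000835000007b50000077c000009200000086700000891) (nat_lit 0x3df00000000000003c900000334000003e5000003580000034200000434000003c200000434000003fb0000037b00000290000004340000031f00000349)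
    (nat_lit 0x145cbb0220c8f518f0348258089115246a6232894324805f422448670e7051710ac49d1304356123c3c00e943480f744561cb048710e448812748f5175859e11d0501163c37312e84480e5c56b17b0441205c34810ac88310785d60f0848f0fb03b3109435d0fb03b316203b327605090d58348123c50111cc50015b0464153c4dd11744dd157442412744de130463c0f084740f98473122439713084500f4045015443d00e5c47b0f008910ecc3730e5c4640e043480ee83480d2034813cc34817b041d123c9600fb058f122456c0d2038112b043a0d2034817e843a18945250d206a60d7444811404dd10e8348159452c0e0440113b04730dac4170e9454910944ba130854f12b03ba16785650fcc4730d204ac0f0447411589430ecc56b11404dd0d2034811cc4010d2034817584011eec7020f748ca0fb03970f4045d0d203480fcc3810ee834814b03811878565121c5f40ecc4410f4042410e834812b04730e044010fcc3480d2042c1cb092016205ec154455d17e84f30d204ec14b05d616e83f318045d71220867142434811ec4de149441d11d04171594702175c42c15205f410e489127608170e5c49d18945ec0f0436b18787bb180434815c8548)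
    (nat_lit 0x145cd203480d203480d203480d203480d203480d203480d203480d202ec05173480d203480d203480d203480d203480d203480d203480d20220c42b1758d203480d203480d203480d203480d203480d203480d2023d449d16785d63480d203480d203480d203480d203480d203480d2018f04c111d03c211ccd203480d203480d203480d203480d203480d200d20356140448f14004733480d203480d203480d203480d203480d201f4448f163c3ec15b04890e04d203480d203480d203480d203480d201b7c3c00dcc3b311903970d203813480d203480d203480d203480d2015243a512e8425153c4c20ee84ac1594d203480d203480d203480d201a98348112035d13744500d2043a14b05653480d203480d203480d201c603dd0e5c3ec11743d00d203480e043f30d20d203480d203480d201e6045615ac3b313744500d2034810044730d203483480d203480d20226469017b0588157455113cc5fa13b0348175852c0fccd203480d2017d048711043b310903d00d2043a11cc4ac10043810d203f33480d201b7c439202471e127439717b06250dac3c11eec61e0d206011520d201f0c4880d20509137847b1074525105c4741bec56510b05d717d0548)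
    (nat_lit 6) (nat_lit 79)
    [[nat_lit 2,nat_lit 17,nat_lit 33,nat_lit 0x1011,nat_lit 0x1000011,nat_lit 0x1000101,nat_lit 0x1001,
    nat_lit 0x11001,nat_lit 0x101001,nat_lit 0x1001001,nat_lit 0x10001,nat_lit 0x100001,nat_lit 0x1100001,
    nat_lit 0x200001,nat_lit 0x10100001,nat_lit 0x10000001],[nat_lit 32,nat_lit 48,nat_lit 0x1020,nat_lit 272,
    nat_lit 528,nat_lit 0x10110,nat_lit 0x1010,nat_lit 0x1110,nat_lit 0x11010,nat_lit 0x101010,nat_lit 0x1001010,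
    nat_lit 0x10001010,nat_lit 0x10010,nat_lit 0x20010,nat_lit 0x100010,nat_lit 0x1000010],[nat_lit 512,nat_lit 768,
    nat_lit 0x1200,nat_lit 0x10200,nat_lit 0x100200,nat_lit 0x1000200,nat_lit 0x1100,nat_lit 0x11100,
    nat_lit 0x1001100,nat_lit 0x10100,nat_lit 0x20100,nat_lit 0x110100,nat_lit 0x1010100,nat_lit 0x100100,
    nat_lit 0x1100100,nat_lit 0x10100100,nat_lit 0x1000100],[nat_lit 0x2000,nat_lit 0x11000,nat_lit 0x21000,
    nat_lit 0x1011000,nat_lit 0x101000,nat_lit 0x10101000,nat_lit 0x1001000,nat_lit 0x10001000],[nat_lit 0x20000,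
    nat_lit 0x30000,nat_lit 0x120000,nat_lit 0x1020000,nat_lit 0x110000,nat_lit 0x1110000,nat_lit 0x10110000,
    nat_lit 0x1010000],[nat_lit 0x200000,nat_lit 0x10200000,nat_lit 0x1100000,nat_lit 0x11100000,nat_lit 0x10100000],
    [nat_lit 0x2000000],[nat_lit 0x20000000]]
    [.c (nat_lit 1) (nat_lit 2),.r (nat_lit 0xdb8) (nat_lit 13) [nat_lit 0x60020801c3,nat_lit 129],
    .c (nat_lit 0) (nat_lit 0xd94924b606),.c (nat_lit 0) (nat_lit 0x73430c5186),.c (nat_lit 4) (nat_lit 0x6182002007),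
    .c (nat_lit 0) (nat_lit 0x30c3006),.c (nat_lit 0) (nat_lit 0x618000400d),.c (nat_lit 0) (nat_lit 0x1c30c0187),
    .c (nat_lit 0) (nat_lit 0x1c30c0187),.c (nat_lit 0) (nat_lit 0x71c500500c),.c (nat_lit 0) (nat_lit 0x734514030d),
    .c (nat_lit 0) (nat_lit 0x734514030d),.c (nat_lit 0) (nat_lit 0x3003006),.c (nat_lit 0) (nat_lit 0x7345143307),
    .c (nat_lit 0) (nat_lit 0x7345143307),.c (nat_lit 0) (nat_lit 0x7345143307),.c (nat_lit 2) (nat_lit 2),
    .c (nat_lit 0) (nat_lit 0x74c5145302),.c (nat_lit 0) (nat_lit 0x52c30c3182),.c (nat_lit 0) (nat_lit 0x74c51c5306),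
    .c (nat_lit 0) (nat_lit 0x140006),.c (nat_lit 0) (nat_lit 0x74c51c5306),.c (nat_lit 0) (nat_lit 0x2080000005),
    .c (nat_lit 0) (nat_lit 0x71c014000c),.r (nat_lit 0xdac) (nat_lit 8) [nat_lit 0x2080003,nat_lit 0x2000000001,
    nat_lit 0x80080003,nat_lit 129],.r (nat_lit 0x1603) (nat_lit 13) [nat_lit 0x80001,nat_lit 0x80000001,
    nat_lit 0x20000000c1,nat_lit 129],.c (nat_lit 0) (nat_lit 0x71c500000c),.c (nat_lit 0) (nat_lit 0x31c0000004),
    .r (nat_lit 0x168f) (nat_lit 1) [nat_lit 0x3000000081,nat_lit 0x2080003,nat_lit 0x2000000001],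
    .r (nat_lit 0xdac) (nat_lit 8) [nat_lit 0x2080003,nat_lit 0x2000000001,nat_lit 0x80080003,nat_lit 0x82000000082],
    .r (nat_lit 0x14a4) (nat_lit 15) [nat_lit 0x83000003,nat_lit 0x2080003,nat_lit 0x6080087183,nat_lit 0xc00c61c3],
    .c (nat_lit 0) (nat_lit 0x74c7145306),.c (nat_lit 3) (nat_lit 2),.c (nat_lit 0) (nat_lit 0xc0002),
    .c (nat_lit 0) (nat_lit 0x71c024000c),.c (nat_lit 0) (nat_lit 0x140006),.c (nat_lit 0) (nat_lit 0x140006),
    .c (nat_lit 0) (nat_lit 0x3140006),.c (nat_lit 0) (nat_lit 0x1c3003187),.c (nat_lit 0) (nat_lit 0x1c3003187),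
    .c (nat_lit 0) (nat_lit 0x71c514000c),.c (nat_lit 0) (nat_lit 0x734500530d),
    .r (nat_lit 0xbaf) (nat_lit 4) [nat_lit 0x2080003,nat_lit 0x82000000001,nat_lit 129,nat_lit 0x80080003,
    nat_lit 0x2000000001],.c (nat_lit 0) (nat_lit 0x74c500530d),.c (nat_lit 0) (nat_lit 0x30c0006),
    .c (nat_lit 0) (nat_lit 0x734500530d),.c (nat_lit 0) (nat_lit 0x30c0006),
    .r (nat_lit 0xdac) (nat_lit 8) [nat_lit 0x2080003,nat_lit 0x2000000001,nat_lit 0x80080003,nat_lit 0xc00c61c3],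
    .c (nat_lit 0) (nat_lit 0x30c0006),.c (nat_lit 4) (nat_lit 2),.c (nat_lit 0) (nat_lit 0x1c30c3187),
    .c (nat_lit 0) (nat_lit 0x764924960d),.c (nat_lit 0) (nat_lit 0x1c00c3187),.c (nat_lit 0) (nat_lit 0x1c30c3187),
    .c (nat_lit 0) (nat_lit 0x31c30c3183),.c (nat_lit 0) (nat_lit 0x1c00c3187),.c (nat_lit 0) (nat_lit 0x31c30c3183),
    .c (nat_lit 5) (nat_lit 2),.c (nat_lit 0) (nat_lit 0x7345145305),.c (nat_lit 0) (nat_lit 0x7345145307),
    .r (nat_lit 0xbaf) (nat_lit 4) [nat_lit 0x2080003,nat_lit 0x82000000001,nat_lit 0xc2000183,nat_lit 0x80080003,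
    nat_lit 0x2000000001],.c (nat_lit 0) (nat_lit 0x74c514530d),.c (nat_lit 0) (nat_lit 0x74c014530d),
    .c (nat_lit 0) (nat_lit 0x7345145307),.c (nat_lit 0) (nat_lit 0x734014530d),.c (nat_lit 6) (nat_lit 2),
    .c (nat_lit 0) (nat_lit 0x7345145307),.c (nat_lit 0) (nat_lit 0x734014530d),
    .r (nat_lit 0xdac) (nat_lit 8) [nat_lit 0x2080003,nat_lit 0x2000000001,nat_lit 0x80080003,nat_lit 0x30c61c3],
    .c (nat_lit 0) (nat_lit 0x734514530d),.c (nat_lit 7) (nat_lit 2),.c (nat_lit 8) (nat_lit 2)]]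

/-- nodes -/
noncomputable def rD8k_37_20 : List RJ :=
  [.s (nat_lit 16) (nat_lit 0x2580) (nat_lit 5) (nat_lit 0x114a0000114a0000120a0000120a0000110700000f7700000ff700000ff700000fff0000166b000011d7000011d70000149c0000149c0000149600001496) (nat_lit 0x521000005210000046100000461000006f4000005640000067400000674000000000000066c0000049400000494000001cf000001cf000001d5000001d5)
    (nat_lit 0xd1b0c510aa50bc708820be60cbc08921226092a0cb60cb615b50e970f750f750c290d1b0cd10ce908540be60d280abe09dc06720cb60cb616d70fb910970f750ce90bc70da90da90b2e0cbe10020d98120a094c0d3814e4103b103b0f4308d90cd10aa50d790da90b160ca60fea0ce6120a0a3e108a1836103b103b103510350be60be60ca60cbe08c30bd30bf30a93064706470c730c730f380c2411760f32085408820b160b2e088308c308e309030f77092b0ae309b30f6e0f080fe60da20abe08920ce60d9809030a9309630983112709ab0a030b630e280e280ff60c5c0d280cbc0fea100208e30bf3098309630ff7098b09e308d30e280e280fd60c3c0672092a0a3e094c092b0647098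b09ab128f09930b6b0b6b10160fb00c440e2a09dc1226120a120a0f7706470ff71127166b128f12e711d71016149c149614960cb60cb6183614e409b30c7308d30b6311d70b6b0d430d4310080ef80f2614880cb60cb6108a0d380ae30c7309e30a0312e70b6b0d430d431008100810e616480fb90e97103b103b0f080c240e280e28149c0fb010080ef80c8712cd12c712c716d715b5103b103b0f6e0f380e280e28101610161008100812cd0c8712c712c70f750f75103508d90da20f320c3c0c5c14960e2a1648148812c712c70c8712c110970f7510350f430fe611760fd60ff614960c4410e60f2612c712c712990c87)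
    (nat_lit 0xd1b2580258025802580258025802580258025802580258025802580258025800c510d1b258025802580258025802580258025802580258025802580258025800aa50cd10da925802580258025802580258025802580258025802580258025800bc70ce90da90da9258025802580258025802580258025802580258025802580088208540b2e0b1608c3258025802580258025802580258025802580258025800be60be60cbe0ca60bd308c325802580258025802580258025802580258025800cbc0d2810020fea0bf308e3096325802580258025802580258025802580258008920abe0d980ce60a93090309830963258025802580258025802580258025800ec909dc1175115d06470eca0f4a0f2a0f722580258025802580258025802580092a0672094c0a3e0647092b09ab098b09930f722580258025802580258025800cb60cb60d38108a0c730ae30a0309e30b6b112a0d43258025802580258025800cb60cb614e415b90c7309b30b6308d30b6b0ffa0d430d43258025802580258015b51688103b103b0f380f6e0e280e2810161016100810080c872580258025800e970fb9103b103b0c240f080e280e280fb0149c0ef8100812cd0c87258025800f7510970f43103511760fe60ff60fd60c4414960f2610e612c712c70c8725800f750f7508d910350f320da20c5c0c3c0e2a13e91488163f12c712c712c10c87)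
    (nat_lit 5) (nat_lit 101)
    [[nat_lit 0,nat_lit 0,nat_lit 10],[nat_lit 0,nat_lit 4],[nat_lit 0,nat_lit 5],[nat_lit 0,nat_lit 8,nat_lit 6,
    nat_lit 10],[nat_lit 0,nat_lit 8,nat_lit 14],[nat_lit 0,nat_lit 9,nat_lit 6,nat_lit 10],[nat_lit 0,nat_lit 9,
    nat_lit 14],[nat_lit 0,nat_lit 10,nat_lit 0],[nat_lit 0,nat_lit 10,nat_lit 13],[nat_lit 0,nat_lit 11,nat_lit 13],
    [nat_lit 0,nat_lit 15,nat_lit 8],[nat_lit 1,nat_lit 1,nat_lit 11],[nat_lit 1,nat_lit 4],[nat_lit 1,nat_lit 5],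
    [nat_lit 1,nat_lit 9,nat_lit 14],[nat_lit 1,nat_lit 11,nat_lit 1],[nat_lit 1,nat_lit 11,nat_lit 7,nat_lit 8],
    [nat_lit 1,nat_lit 11,nat_lit 7,nat_lit 9],[nat_lit 1,nat_lit 12,nat_lit 10],[nat_lit 1,nat_lit 12,nat_lit 11],
    [nat_lit 1,nat_lit 15,nat_lit 8],[nat_lit 1,nat_lit 15,nat_lit 9],[nat_lit 2,nat_lit 6,nat_lit 10],[nat_lit 2,
    nat_lit 6,nat_lit 11],[nat_lit 2,nat_lit 7,nat_lit 10],[nat_lit 2,nat_lit 7,nat_lit 11],[nat_lit 2,nat_lit 11,
    nat_lit 6],[nat_lit 2,nat_lit 11,nat_lit 7],[nat_lit 2,nat_lit 14],[nat_lit 2,nat_lit 15],[nat_lit 3,nat_lit 6,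
    nat_lit 10],[nat_lit 3,nat_lit 7,nat_lit 10],[nat_lit 3,nat_lit 10,nat_lit 6],[nat_lit 3,nat_lit 10,nat_lit 7],
    [nat_lit 3,nat_lit 11,nat_lit 6],[nat_lit 3,nat_lit 11,nat_lit 7],[nat_lit 3,nat_lit 14],[nat_lit 3,nat_lit 15],
    [nat_lit 4,nat_lit 6,nat_lit 8],[nat_lit 4,nat_lit 6,nat_lit 9],[nat_lit 4,nat_lit 7,nat_lit 8],[nat_lit 4,
    nat_lit 8,nat_lit 6],[nat_lit 4,nat_lit 8,nat_lit 7],[nat_lit 4,nat_lit 9,nat_lit 6],[nat_lit 4,nat_lit 12],
    [nat_lit 4,nat_lit 13],[nat_lit 5,nat_lit 6,nat_lit 9],[nat_lit 5,nat_lit 7,nat_lit 8],[nat_lit 5,nat_lit 7,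
    nat_lit 9],[nat_lit 5,nat_lit 8,nat_lit 7],[nat_lit 5,nat_lit 9,nat_lit 6],[nat_lit 5,nat_lit 9,nat_lit 7],
    [nat_lit 5,nat_lit 12],[nat_lit 5,nat_lit 13],[nat_lit 6,nat_lit 9,nat_lit 8,nat_lit 14],[nat_lit 6,nat_lit 10,
    nat_lit 9,nat_lit 12],[nat_lit 6,nat_lit 10,nat_lit 9,nat_lit 13],[nat_lit 6,nat_lit 15,nat_lit 8,nat_lit 8],
    [nat_lit 7,nat_lit 9,nat_lit 9,nat_lit 14],[nat_lit 7,nat_lit 12,nat_lit 8,nat_lit 11],[nat_lit 7,nat_lit 13,
    nat_lit 8,nat_lit 11],[nat_lit 7,nat_lit 15,nat_lit 9,nat_lit 8],[nat_lit 8,nat_lit 12,nat_lit 14],[nat_lit 8,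
    nat_lit 12,nat_lit 15],[nat_lit 8,nat_lit 13,nat_lit 14],[nat_lit 8,nat_lit 13,nat_lit 15],[nat_lit 8,nat_lit 14,
    nat_lit 13],[nat_lit 8,nat_lit 15,nat_lit 12],[nat_lit 8,nat_lit 15,nat_lit 13],[nat_lit 9,nat_lit 12,nat_lit 14],
    [nat_lit 9,nat_lit 12,nat_lit 15],[nat_lit 9,nat_lit 13,nat_lit 14],[nat_lit 9,nat_lit 14,nat_lit 12],[nat_lit 9,
    nat_lit 14,nat_lit 13],[nat_lit 9,nat_lit 15,nat_lit 12],[nat_lit 9,nat_lit 15,nat_lit 13],[nat_lit 10,nat_lit 12,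
    nat_lit 12],[nat_lit 10,nat_lit 12,nat_lit 13],[nat_lit 10,nat_lit 13,nat_lit 12],[nat_lit 10,nat_lit 13,
    nat_lit 13],[nat_lit 11,nat_lit 12,nat_lit 12],[nat_lit 11,nat_lit 12,nat_lit 13],[nat_lit 11,nat_lit 13,
    nat_lit 12],[nat_lit 11,nat_lit 13,nat_lit 13]]
    [nat_lit 0x100a,nat_lit 260,nat_lit 261,nat_lit 0x1086a,nat_lit 0x108e,nat_lit 0x1096a,nat_lit 0x109e,
    nat_lit 0x10a0,nat_lit 0x10ad,nat_lit 0x10bd,nat_lit 0x10f8,nat_lit 0x111b,nat_lit 276,nat_lit 277,nat_lit 0x119e,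
    nat_lit 0x11b1,nat_lit 0x11b78,nat_lit 0x11b79,nat_lit 0x11ca,nat_lit 0x11cb,nat_lit 0x11f8,nat_lit 0x11f9,
    nat_lit 0x126a,nat_lit 0x126b,nat_lit 0x127a,nat_lit 0x127b,nat_lit 0x12b6,nat_lit 0x12b7,nat_lit 302,nat_lit 303,
    nat_lit 0x136a,nat_lit 0x137a,nat_lit 0x13a6,nat_lit 0x13a7,nat_lit 0x13b6,nat_lit 0x13b7,nat_lit 318,nat_lit 319,
    nat_lit 0x1468,nat_lit 0x1469,nat_lit 0x1478,nat_lit 0x1486,nat_lit 0x1487,nat_lit 0x1496,nat_lit 332,nat_lit 333,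
    nat_lit 0x1569,nat_lit 0x1578,nat_lit 0x1579,nat_lit 0x1587,nat_lit 0x1596,nat_lit 0x1597,nat_lit 348,nat_lit 349,
    nat_lit 0x1698e,nat_lit 0x16a9c,nat_lit 0x16a9d,nat_lit 0x16f88,nat_lit 0x1799e,nat_lit 0x17c8b,nat_lit 0x17d8b,
    nat_lit 0x17f98,nat_lit 0x18ce,nat_lit 0x18cf,nat_lit 0x18de,nat_lit 0x18df,nat_lit 0x18ed,nat_lit 0x18fc,
    nat_lit 0x18fd,nat_lit 0x19ce,nat_lit 0x19cf,nat_lit 0x19de,nat_lit 0x19ec,nat_lit 0x19ed,nat_lit 0x19fc,
    nat_lit 0x19fd,nat_lit 0x1acc,nat_lit 0x1acd,nat_lit 0x1adc,nat_lit 0x1add,nat_lit 0x1bcc,nat_lit 0x1bcd,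
    nat_lit 0x1bdc,nat_lit 0x1bdd]
    [[[nat_lit 0,nat_lit 0,nat_lit 10],[nat_lit 0,nat_lit 4],[nat_lit 0,nat_lit 5],[nat_lit 0,nat_lit 8,nat_lit 6,
    nat_lit 10],[nat_lit 0,nat_lit 8,nat_lit 14],[nat_lit 0,nat_lit 9,nat_lit 6,nat_lit 10],[nat_lit 0,nat_lit 9,
    nat_lit 14],[nat_lit 0,nat_lit 10,nat_lit 0],[nat_lit 0,nat_lit 10,nat_lit 13],[nat_lit 0,nat_lit 11,nat_lit 13],
    [nat_lit 0,nat_lit 15,nat_lit 8],[nat_lit 1,nat_lit 1,nat_lit 11]],[[nat_lit 1,nat_lit 4],[nat_lit 1,nat_lit 5],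
    [nat_lit 1,nat_lit 9,nat_lit 14],[nat_lit 1,nat_lit 11,nat_lit 1],[nat_lit 1,nat_lit 11,nat_lit 7,nat_lit 8],
    [nat_lit 1,nat_lit 11,nat_lit 7,nat_lit 9],[nat_lit 1,nat_lit 12,nat_lit 10],[nat_lit 1,nat_lit 12,nat_lit 11],
    [nat_lit 1,nat_lit 15,nat_lit 8],[nat_lit 1,nat_lit 15,nat_lit 9],[nat_lit 2,nat_lit 6,nat_lit 10],[nat_lit 2,
    nat_lit 6,nat_lit 11]],[[nat_lit 2,nat_lit 7,nat_lit 10],[nat_lit 2,nat_lit 7,nat_lit 11],[nat_lit 2,nat_lit 11,
    nat_lit 6],[nat_lit 2,nat_lit 11,nat_lit 7],[nat_lit 2,nat_lit 14],[nat_lit 2,nat_lit 15],[nat_lit 3,nat_lit 6,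
    nat_lit 10],[nat_lit 3,nat_lit 7,nat_lit 10],[nat_lit 3,nat_lit 10,nat_lit 6],[nat_lit 3,nat_lit 10,nat_lit 7],
    [nat_lit 3,nat_lit 11,nat_lit 6],[nat_lit 3,nat_lit 11,nat_lit 7]],[[nat_lit 3,nat_lit 14],[nat_lit 3,nat_lit 15],
    [nat_lit 4,nat_lit 0],[nat_lit 4,nat_lit 1],[nat_lit 4,nat_lit 6,nat_lit 8],[nat_lit 4,nat_lit 6,nat_lit 9],
    [nat_lit 4,nat_lit 7,nat_lit 8],[nat_lit 4,nat_lit 8,nat_lit 6],[nat_lit 4,nat_lit 8,nat_lit 7],[nat_lit 4,
    nat_lit 9,nat_lit 6],[nat_lit 4,nat_lit 12],[nat_lit 4,nat_lit 13]],[[nat_lit 5,nat_lit 0],[nat_lit 5,nat_lit 1],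
    [nat_lit 5,nat_lit 6,nat_lit 9],[nat_lit 5,nat_lit 7,nat_lit 8],[nat_lit 5,nat_lit 7,nat_lit 9],[nat_lit 5,
    nat_lit 8,nat_lit 7],[nat_lit 5,nat_lit 9,nat_lit 6],[nat_lit 5,nat_lit 9,nat_lit 7],[nat_lit 5,nat_lit 12],
    [nat_lit 5,nat_lit 13],[nat_lit 6,nat_lit 2,nat_lit 11],[nat_lit 6,nat_lit 3,nat_lit 10]],[[nat_lit 6,nat_lit 3,
    nat_lit 11],[nat_lit 6,nat_lit 4,nat_lit 8],[nat_lit 6,nat_lit 4,nat_lit 9],[nat_lit 6,nat_lit 5,nat_lit 9],
    [nat_lit 6,nat_lit 8,nat_lit 4],[nat_lit 6,nat_lit 9,nat_lit 4],[nat_lit 6,nat_lit 9,nat_lit 5],[nat_lit 6,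
    nat_lit 9,nat_lit 8,nat_lit 14],[nat_lit 6,nat_lit 10,nat_lit 0,nat_lit 8],[nat_lit 6,nat_lit 10,nat_lit 0,
    nat_lit 9],[nat_lit 6,nat_lit 10,nat_lit 2],[nat_lit 6,nat_lit 10,nat_lit 3]],[[nat_lit 6,nat_lit 10,nat_lit 9,
    nat_lit 12],[nat_lit 6,nat_lit 10,nat_lit 9,nat_lit 13],[nat_lit 6,nat_lit 11,nat_lit 2],[nat_lit 6,nat_lit 15,
    nat_lit 8,nat_lit 8],[nat_lit 7,nat_lit 2,nat_lit 11],[nat_lit 7,nat_lit 3,nat_lit 10],[nat_lit 7,nat_lit 3,
    nat_lit 11],[nat_lit 7,nat_lit 4,nat_lit 8],[nat_lit 7,nat_lit 5,nat_lit 8],[nat_lit 7,nat_lit 5,nat_lit 9],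
    [nat_lit 7,nat_lit 8,nat_lit 1,nat_lit 11],[nat_lit 7,nat_lit 8,nat_lit 4]],[[nat_lit 7,nat_lit 8,nat_lit 5],
    [nat_lit 7,nat_lit 9,nat_lit 1,nat_lit 11],[nat_lit 7,nat_lit 9,nat_lit 5],[nat_lit 7,nat_lit 9,nat_lit 9,
    nat_lit 14],[nat_lit 7,nat_lit 10,nat_lit 2],[nat_lit 7,nat_lit 10,nat_lit 3],[nat_lit 7,nat_lit 11,nat_lit 2],
    [nat_lit 7,nat_lit 12,nat_lit 8,nat_lit 11],[nat_lit 7,nat_lit 13,nat_lit 8,nat_lit 11],[nat_lit 7,nat_lit 15,
    nat_lit 9,nat_lit 8],[nat_lit 8,nat_lit 0,nat_lit 15],[nat_lit 8,nat_lit 1,nat_lit 11,nat_lit 7]],[[nat_lit 8,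
    nat_lit 1,nat_lit 15],[nat_lit 8,nat_lit 4,nat_lit 6],[nat_lit 8,nat_lit 4,nat_lit 7],[nat_lit 8,nat_lit 5,
    nat_lit 7],[nat_lit 8,nat_lit 6,nat_lit 4],[nat_lit 8,nat_lit 6,nat_lit 10,nat_lit 0],[nat_lit 8,nat_lit 6,
    nat_lit 15,nat_lit 8],[nat_lit 8,nat_lit 7,nat_lit 4],[nat_lit 8,nat_lit 7,nat_lit 5],[nat_lit 8,nat_lit 7,
    nat_lit 15,nat_lit 9],[nat_lit 8,nat_lit 8,nat_lit 6,nat_lit 15],[nat_lit 8,nat_lit 11,nat_lit 7,nat_lit 12]],
    [[nat_lit 8,nat_lit 11,nat_lit 7,nat_lit 13],[nat_lit 8,nat_lit 12,nat_lit 14],[nat_lit 8,nat_lit 12,nat_lit 15],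
    [nat_lit 8,nat_lit 13,nat_lit 14],[nat_lit 8,nat_lit 13,nat_lit 15],[nat_lit 8,nat_lit 14,nat_lit 0],[nat_lit 8,
    nat_lit 14,nat_lit 6,nat_lit 9],[nat_lit 8,nat_lit 14,nat_lit 13],[nat_lit 8,nat_lit 15,nat_lit 12],[nat_lit 8,
    nat_lit 15,nat_lit 13],[nat_lit 9,nat_lit 1,nat_lit 11,nat_lit 7],[nat_lit 9,nat_lit 1,nat_lit 15]],[[nat_lit 9,
    nat_lit 4,nat_lit 6],[nat_lit 9,nat_lit 5,nat_lit 6],[nat_lit 9,nat_lit 5,nat_lit 7],[nat_lit 9,nat_lit 6,
    nat_lit 4],[nat_lit 9,nat_lit 6,nat_lit 5],[nat_lit 9,nat_lit 6,nat_lit 10,nat_lit 0],[nat_lit 9,nat_lit 7,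
    nat_lit 5],[nat_lit 9,nat_lit 8,nat_lit 7,nat_lit 15],[nat_lit 9,nat_lit 8,nat_lit 14,nat_lit 6],[nat_lit 9,
    nat_lit 9,nat_lit 14,nat_lit 7],[nat_lit 9,nat_lit 12,nat_lit 6,nat_lit 10],[nat_lit 9,nat_lit 12,nat_lit 14]],
    [[nat_lit 9,nat_lit 12,nat_lit 15],[nat_lit 9,nat_lit 13,nat_lit 6,nat_lit 10],[nat_lit 9,nat_lit 13,nat_lit 14],
    [nat_lit 9,nat_lit 14,nat_lit 0],[nat_lit 9,nat_lit 14,nat_lit 1],[nat_lit 9,nat_lit 14,nat_lit 7,nat_lit 9],
    [nat_lit 9,nat_lit 14,nat_lit 12],[nat_lit 9,nat_lit 14,nat_lit 13],[nat_lit 9,nat_lit 15,nat_lit 12],[nat_lit 9,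
    nat_lit 15,nat_lit 13],[nat_lit 10,nat_lit 0,nat_lit 0],[nat_lit 10,nat_lit 0,nat_lit 8,nat_lit 6]],[[nat_lit 10,
    nat_lit 0,nat_lit 9,nat_lit 6],[nat_lit 10,nat_lit 1,nat_lit 12],[nat_lit 10,nat_lit 2,nat_lit 6],[nat_lit 10,
    nat_lit 2,nat_lit 7],[nat_lit 10,nat_lit 3,nat_lit 6],[nat_lit 10,nat_lit 3,nat_lit 7],[nat_lit 10,nat_lit 6,
    nat_lit 3],[nat_lit 10,nat_lit 7,nat_lit 3],[nat_lit 10,nat_lit 9,nat_lit 12,nat_lit 6],[nat_lit 10,nat_lit 9,
    nat_lit 13,nat_lit 6],[nat_lit 10,nat_lit 12,nat_lit 12],[nat_lit 10,nat_lit 12,nat_lit 13]],[[nat_lit 10,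
    nat_lit 13,nat_lit 0],[nat_lit 10,nat_lit 13,nat_lit 12],[nat_lit 10,nat_lit 13,nat_lit 13],[nat_lit 11,nat_lit 1,
    nat_lit 1],[nat_lit 11,nat_lit 1,nat_lit 12],[nat_lit 11,nat_lit 2,nat_lit 6],[nat_lit 11,nat_lit 2,nat_lit 7],
    [nat_lit 11,nat_lit 6,nat_lit 2],[nat_lit 11,nat_lit 6,nat_lit 3],[nat_lit 11,nat_lit 7,nat_lit 2],[nat_lit 11,
    nat_lit 7,nat_lit 3],[nat_lit 11,nat_lit 7,nat_lit 8,nat_lit 1]],[[nat_lit 11,nat_lit 7,nat_lit 9,nat_lit 1],
    [nat_lit 11,nat_lit 7,nat_lit 12,nat_lit 8],[nat_lit 11,nat_lit 7,nat_lit 13,nat_lit 8],[nat_lit 11,nat_lit 12,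
    nat_lit 12],[nat_lit 11,nat_lit 12,nat_lit 13],[nat_lit 11,nat_lit 13,nat_lit 0],[nat_lit 11,nat_lit 13,
    nat_lit 12],[nat_lit 11,nat_lit 13,nat_lit 13],[nat_lit 12,nat_lit 4],[nat_lit 12,nat_lit 5],[nat_lit 12,
    nat_lit 6,nat_lit 10,nat_lit 9],[nat_lit 12,nat_lit 8,nat_lit 11,nat_lit 7]],[[nat_lit 12,nat_lit 8,nat_lit 15],
    [nat_lit 12,nat_lit 9,nat_lit 14],[nat_lit 12,nat_lit 9,nat_lit 15],[nat_lit 12,nat_lit 10,nat_lit 1],[nat_lit 12,
    nat_lit 10,nat_lit 12],[nat_lit 12,nat_lit 10,nat_lit 13],[nat_lit 12,nat_lit 11,nat_lit 1],[nat_lit 12,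
    nat_lit 11,nat_lit 12],[nat_lit 12,nat_lit 11,nat_lit 13],[nat_lit 12,nat_lit 12,nat_lit 10],[nat_lit 12,
    nat_lit 12,nat_lit 11],[nat_lit 12,nat_lit 13,nat_lit 10]],[[nat_lit 12,nat_lit 13,nat_lit 11],[nat_lit 12,
    nat_lit 14,nat_lit 8],[nat_lit 12,nat_lit 14,nat_lit 9],[nat_lit 12,nat_lit 15,nat_lit 8],[nat_lit 12,nat_lit 15,
    nat_lit 9],[nat_lit 13,nat_lit 0,nat_lit 10],[nat_lit 13,nat_lit 0,nat_lit 11],[nat_lit 13,nat_lit 4],[nat_lit 13,
    nat_lit 5],[nat_lit 13,nat_lit 6,nat_lit 10,nat_lit 9],[nat_lit 13,nat_lit 8,nat_lit 11,nat_lit 7],[nat_lit 13,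
    nat_lit 8,nat_lit 14]],[[nat_lit 13,nat_lit 8,nat_lit 15],[nat_lit 13,nat_lit 9,nat_lit 14],[nat_lit 13,nat_lit 9,
    nat_lit 15],[nat_lit 13,nat_lit 10,nat_lit 12],[nat_lit 13,nat_lit 10,nat_lit 13],[nat_lit 13,nat_lit 11,
    nat_lit 12],[nat_lit 13,nat_lit 11,nat_lit 13],[nat_lit 13,nat_lit 12,nat_lit 10],[nat_lit 13,nat_lit 12,
    nat_lit 11],[nat_lit 13,nat_lit 13,nat_lit 10],[nat_lit 13,nat_lit 13,nat_lit 11],[nat_lit 13,nat_lit 14,
    nat_lit 8]],[[nat_lit 13,nat_lit 14,nat_lit 9],[nat_lit 13,nat_lit 15,nat_lit 8],[nat_lit 14,nat_lit 0,nat_lit 8],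
    [nat_lit 14,nat_lit 0,nat_lit 9],[nat_lit 14,nat_lit 1,nat_lit 9],[nat_lit 14,nat_lit 2],[nat_lit 14,nat_lit 3],
    [nat_lit 14,nat_lit 6,nat_lit 9,nat_lit 8],[nat_lit 14,nat_lit 7,nat_lit 9,nat_lit 9],[nat_lit 14,nat_lit 8,
    nat_lit 12],[nat_lit 14,nat_lit 8,nat_lit 13],[nat_lit 14,nat_lit 9,nat_lit 12]],[[nat_lit 14,nat_lit 9,
    nat_lit 13],[nat_lit 14,nat_lit 12,nat_lit 9],[nat_lit 14,nat_lit 13,nat_lit 8],[nat_lit 14,nat_lit 13,nat_lit 9],
    [nat_lit 15,nat_lit 2],[nat_lit 15,nat_lit 3],[nat_lit 15,nat_lit 8,nat_lit 0],[nat_lit 15,nat_lit 8,nat_lit 1],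
    [nat_lit 15,nat_lit 8,nat_lit 8,nat_lit 6],[nat_lit 15,nat_lit 8,nat_lit 12],[nat_lit 15,nat_lit 8,nat_lit 13],
    [nat_lit 15,nat_lit 9,nat_lit 1]],[[nat_lit 15,nat_lit 9,nat_lit 8,nat_lit 7],[nat_lit 15,nat_lit 9,nat_lit 12],
    [nat_lit 15,nat_lit 12,nat_lit 8],[nat_lit 15,nat_lit 12,nat_lit 9],[nat_lit 15,nat_lit 13,nat_lit 8],[nat_lit 15,
    nat_lit 13,nat_lit 9]]]
    [[nat_lit 7,nat_lit 38,nat_lit 48,nat_lit 101,nat_lit 113,nat_lit 125,nat_lit 135,nat_lit 142,nat_lit 156,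
    nat_lit 173,nat_lit 234,nat_lit 15],[nat_lit 39,nat_lit 49,nat_lit 136,nat_lit 159,nat_lit 167,nat_lit 168,
    nat_lit 183,nat_lit 186,nat_lit 235,nat_lit 239,nat_lit 70,nat_lit 74],[nat_lit 88,nat_lit 90,nat_lit 163,
    nat_lit 165,nat_lit 221,nat_lit 232,nat_lit 71,nat_lit 89,nat_lit 150,nat_lit 151,nat_lit 164,nat_lit 166],
    [nat_lit 222,nat_lit 233,nat_lit 1,nat_lit 12,nat_lit 64,nat_lit 65,nat_lit 83,nat_lit 100,nat_lit 103,
    nat_lit 123,nat_lit 176,nat_lit 199],[nat_lit 2,nat_lit 13,nat_lit 66,nat_lit 84,nat_lit 86,nat_lit 104,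
    nat_lit 124,nat_lit 126,nat_lit 177,nat_lit 200,nat_lit 26,nat_lit 32],[nat_lit 34,nat_lit 43,nat_lit 45,
    nat_lit 54,nat_lit 97,nat_lit 120,nat_lit 121,nat_lit 128,nat_lit 143,nat_lit 144,nat_lit 146,nat_lit 148],
    [nat_lit 152,nat_lit 153,nat_lit 161,nat_lit 236,nat_lit 27,nat_lit 33,nat_lit 35,nat_lit 44,nat_lit 53,
    nat_lit 55,nat_lit 95,nat_lit 98],[nat_lit 99,nat_lit 118,nat_lit 122,nat_lit 129,nat_lit 147,nat_lit 149,
    nat_lit 162,nat_lit 179,nat_lit 202,nat_lit 240,nat_lit 10,nat_lit 16],[nat_lit 20,nat_lit 40,nat_lit 42,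
    nat_lit 51,nat_lit 61,nat_lit 68,nat_lit 75,nat_lit 79,nat_lit 80,nat_lit 93,nat_lit 102,nat_lit 169],
    [nat_lit 170,nat_lit 193,nat_lit 195,nat_lit 215,nat_lit 217,nat_lit 218,nat_lit 223,nat_lit 230,nat_lit 242,
    nat_lit 244,nat_lit 17,nat_lit 21],[nat_lit 41,nat_lit 50,nat_lit 52,nat_lit 62,nat_lit 63,nat_lit 69,nat_lit 81,
    nat_lit 105,nat_lit 114,nat_lit 137,nat_lit 178,nat_lit 194],[nat_lit 196,nat_lit 201,nat_lit 216,nat_lit 219,
    nat_lit 220,nat_lit 224,nat_lit 229,nat_lit 231,nat_lit 243,nat_lit 245,nat_lit 0,nat_lit 3],[nat_lit 5,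
    nat_lit 18,nat_lit 22,nat_lit 24,nat_lit 30,nat_lit 31,nat_lit 59,nat_lit 77,nat_lit 130,nat_lit 133,nat_lit 189,
    nat_lit 191],[nat_lit 197,nat_lit 211,nat_lit 213,nat_lit 11,nat_lit 19,nat_lit 23,nat_lit 25,nat_lit 58,
    nat_lit 60,nat_lit 76,nat_lit 78,nat_lit 82],[nat_lit 85,nat_lit 91,nat_lit 92,nat_lit 190,nat_lit 192,
    nat_lit 198,nat_lit 212,nat_lit 214,nat_lit 46,nat_lit 56,nat_lit 72,nat_lit 107],[nat_lit 116,nat_lit 138,
    nat_lit 140,nat_lit 145,nat_lit 154,nat_lit 157,nat_lit 160,nat_lit 171,nat_lit 174,nat_lit 184,nat_lit 187,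
    nat_lit 207],[nat_lit 209,nat_lit 225,nat_lit 227,nat_lit 237,nat_lit 241,nat_lit 8,nat_lit 9,nat_lit 47,
    nat_lit 57,nat_lit 73,nat_lit 108,nat_lit 115],[nat_lit 117,nat_lit 139,nat_lit 141,nat_lit 155,nat_lit 158,
    nat_lit 172,nat_lit 175,nat_lit 185,nat_lit 188,nat_lit 208,nat_lit 210,nat_lit 226],[nat_lit 228,nat_lit 238,
    nat_lit 4,nat_lit 6,nat_lit 14,nat_lit 28,nat_lit 36,nat_lit 67,nat_lit 87,nat_lit 109,nat_lit 111,nat_lit 131],
    [nat_lit 134,nat_lit 181,nat_lit 203,nat_lit 205,nat_lit 29,nat_lit 37,nat_lit 94,nat_lit 96,nat_lit 106,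
    nat_lit 110,nat_lit 112,nat_lit 119],[nat_lit 127,nat_lit 132,nat_lit 180,nat_lit 182,nat_lit 204,nat_lit 206]]
    [[nat_lit 142,nat_lit 38,nat_lit 48,nat_lit 143,nat_lit 218,nat_lit 144,nat_lit 219,nat_lit 0,nat_lit 197,
    nat_lit 198,nat_lit 94,nat_lit 159],[nat_lit 39,nat_lit 49,nat_lit 220,nat_lit 11,nat_lit 95,nat_lit 118,
    nat_lit 145,nat_lit 160,nat_lit 96,nat_lit 119,nat_lit 146,nat_lit 161],[nat_lit 147,nat_lit 162,nat_lit 58,
    nat_lit 76,nat_lit 221,nat_lit 232,nat_lit 148,nat_lit 149,nat_lit 59,nat_lit 77,nat_lit 60,nat_lit 78],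
    [nat_lit 222,nat_lit 233,nat_lit 1,nat_lit 12,nat_lit 97,nat_lit 120,nat_lit 98,nat_lit 61,nat_lit 79,nat_lit 62,
    nat_lit 176,nat_lit 199],[nat_lit 2,nat_lit 13,nat_lit 121,nat_lit 99,nat_lit 122,nat_lit 80,nat_lit 63,
    nat_lit 81,nat_lit 177,nat_lit 200,nat_lit 163,nat_lit 150],[nat_lit 164,nat_lit 100,nat_lit 123,nat_lit 124,
    nat_lit 40,nat_lit 41,nat_lit 50,nat_lit 223,nat_lit 101,nat_lit 125,nat_lit 22,nat_lit 30],[nat_lit 178,
    nat_lit 201,nat_lit 23,nat_lit 102,nat_lit 165,nat_lit 151,nat_lit 166,nat_lit 103,nat_lit 104,nat_lit 126,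
    nat_lit 167,nat_lit 42],[nat_lit 51,nat_lit 168,nat_lit 52,nat_lit 224,nat_lit 24,nat_lit 31,nat_lit 25,
    nat_lit 169,nat_lit 170,nat_lit 105,nat_lit 234,nat_lit 82],[nat_lit 235,nat_lit 64,nat_lit 83,nat_lit 84,
    nat_lit 43,nat_lit 3,nat_lit 106,nat_lit 44,nat_lit 53,nat_lit 127,nat_lit 236,nat_lit 179],[nat_lit 202,
    nat_lit 225,nat_lit 237,nat_lit 226,nat_lit 238,nat_lit 4,nat_lit 128,nat_lit 203,nat_lit 180,nat_lit 204,
    nat_lit 85,nat_lit 239],[nat_lit 65,nat_lit 66,nat_lit 86,nat_lit 45,nat_lit 54,nat_lit 5,nat_lit 55,nat_lit 240,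
    nat_lit 67,nat_lit 87,nat_lit 152,nat_lit 227],[nat_lit 241,nat_lit 153,nat_lit 228,nat_lit 6,nat_lit 14,
    nat_lit 129,nat_lit 181,nat_lit 205,nat_lit 182,nat_lit 206,nat_lit 7,nat_lit 68],[nat_lit 69,nat_lit 183,
    nat_lit 70,nat_lit 88,nat_lit 71,nat_lit 89,nat_lit 32,nat_lit 33,nat_lit 72,nat_lit 73,nat_lit 184,nat_lit 207],
    [nat_lit 8,nat_lit 185,nat_lit 208,nat_lit 15,nat_lit 186,nat_lit 74,nat_lit 90,nat_lit 26,nat_lit 34,nat_lit 27,
    nat_lit 35,nat_lit 16],[nat_lit 17,nat_lit 107,nat_lit 108,nat_lit 187,nat_lit 209,nat_lit 9,nat_lit 188,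
    nat_lit 210,nat_lit 46,nat_lit 56,nat_lit 130,nat_lit 91],[nat_lit 242,nat_lit 229,nat_lit 243,nat_lit 18,
    nat_lit 189,nat_lit 211,nat_lit 19,nat_lit 190,nat_lit 212,nat_lit 154,nat_lit 171,nat_lit 155],[nat_lit 172,
    nat_lit 109,nat_lit 131,nat_lit 110,nat_lit 132,nat_lit 156,nat_lit 173,nat_lit 47,nat_lit 57,nat_lit 133,
    nat_lit 92,nat_lit 230],[nat_lit 244,nat_lit 231,nat_lit 245,nat_lit 191,nat_lit 213,nat_lit 192,nat_lit 214,
    nat_lit 157,nat_lit 174,nat_lit 158,nat_lit 175,nat_lit 111],[nat_lit 134,nat_lit 112,nat_lit 113,nat_lit 135,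
    nat_lit 136,nat_lit 28,nat_lit 36,nat_lit 114,nat_lit 137,nat_lit 193,nat_lit 215,nat_lit 194],[nat_lit 216,
    nat_lit 138,nat_lit 115,nat_lit 139,nat_lit 29,nat_lit 37,nat_lit 10,nat_lit 20,nat_lit 75,nat_lit 195,
    nat_lit 217,nat_lit 21],[nat_lit 93,nat_lit 196,nat_lit 116,nat_lit 140,nat_lit 117,nat_lit 141]]
    [[[nat_lit 221],[],[nat_lit 222],[],[],[],[],[nat_lit 225,nat_lit 227],[nat_lit 225,nat_lit 227],[nat_lit 219,
    nat_lit 220,nat_lit 224,nat_lit 229,nat_lit 231],[nat_lit 226,nat_lit 228],[nat_lit 37]],[[nat_lit 32,nat_lit 34],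
    [],[nat_lit 33,nat_lit 35],[],[],[],[nat_lit 36],[nat_lit 36],[],[],[nat_lit 10],[nat_lit 10]],[[nat_lit 2],
    [nat_lit 2],[],[],[nat_lit 7],[nat_lit 8,nat_lit 9],[nat_lit 51],[],[nat_lit 56],[nat_lit 56],[nat_lit 50,
    nat_lit 52],[nat_lit 50,nat_lit 52]],[[nat_lit 48],[nat_lit 57],[],[nat_lit 29],[],[],[],[nat_lit 22,nat_lit 24],
    [nat_lit 22,nat_lit 24],[nat_lit 27],[nat_lit 28],[nat_lit 23,nat_lit 25]],[[nat_lit 88,nat_lit 90],[],
    [nat_lit 79,nat_lit 80,nat_lit 93],[nat_lit 84,nat_lit 86],[nat_lit 84,nat_lit 86],[nat_lit 77],[],[],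
    [nat_lit 87],[nat_lit 76,nat_lit 78,nat_lit 82,nat_lit 85,nat_lit 91,nat_lit 92],[],[nat_lit 39]],[[nat_lit 39],
    [nat_lit 43,nat_lit 45],[nat_lit 43,nat_lit 45],[],[],[nat_lit 44],[nat_lit 44],[nat_lit 44],[nat_lit 46],
    [nat_lit 46],[nat_lit 46],[nat_lit 46]],[[nat_lit 46],[nat_lit 46],[nat_lit 41],[nat_lit 47],[nat_lit 123],
    [nat_lit 136],[nat_lit 136],[nat_lit 120,nat_lit 121,nat_lit 128],[],[],[nat_lit 130,nat_lit 133],[nat_lit 130,
    nat_lit 133]],[[nat_lit 130,nat_lit 133],[nat_lit 118,nat_lit 122,nat_lit 129],[nat_lit 118,nat_lit 122,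
    nat_lit 129],[nat_lit 118,nat_lit 122,nat_lit 129],[nat_lit 138,nat_lit 140],[nat_lit 138,nat_lit 140],
    [nat_lit 137],[nat_lit 131,nat_lit 134],[],[nat_lit 139,nat_lit 141],[nat_lit 70,nat_lit 74],[]],[[],[],[],
    [nat_lit 71],[nat_lit 61,nat_lit 68,nat_lit 75],[nat_lit 61,nat_lit 68,nat_lit 75],[nat_lit 61,nat_lit 68,
    nat_lit 75],[nat_lit 66],[nat_lit 66],[nat_lit 66],[nat_lit 59],[nat_lit 62,nat_lit 63,nat_lit 69]],[[nat_lit 62,
    nat_lit 63,nat_lit 69],[nat_lit 67],[nat_lit 67],[nat_lit 58,nat_lit 60],[nat_lit 58,nat_lit 60],[],[],[],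
    [nat_lit 73],[nat_lit 73],[],[]],[[nat_lit 161],[nat_lit 164,nat_lit 166],[nat_lit 164,nat_lit 166],[nat_lit 169,
    nat_lit 170],[nat_lit 169,nat_lit 170],[nat_lit 169,nat_lit 170],[],[],[],[nat_lit 162],[],[]],[[],[],[],
    [nat_lit 173],[nat_lit 173],[nat_lit 173],[nat_lit 173],[nat_lit 173],[nat_lit 172,nat_lit 175],[nat_lit 172,
    nat_lit 175],[],[]],[[],[nat_lit 94,nat_lit 96,nat_lit 106,nat_lit 110,nat_lit 112],[nat_lit 100,nat_lit 103],
    [nat_lit 100,nat_lit 103],[],[],[nat_lit 102],[nat_lit 104],[nat_lit 95,nat_lit 98,nat_lit 99],[nat_lit 95,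
    nat_lit 98,nat_lit 99],[nat_lit 109,nat_lit 111],[nat_lit 109,nat_lit 111]],[[],[],[],[nat_lit 204,nat_lit 206],
    [nat_lit 204,nat_lit 206],[nat_lit 199],[nat_lit 199],[nat_lit 215,nat_lit 217],[nat_lit 215,nat_lit 217],
    [nat_lit 200],[nat_lit 200],[nat_lit 200]],[[nat_lit 200],[nat_lit 200],[nat_lit 200],[nat_lit 203,nat_lit 205],
    [nat_lit 203,nat_lit 205],[nat_lit 198,nat_lit 212,nat_lit 214],[nat_lit 198,nat_lit 212,nat_lit 214],
    [nat_lit 198,nat_lit 212,nat_lit 214],[nat_lit 143,nat_lit 144,nat_lit 146,nat_lit 148,nat_lit 152,nat_lit 153],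
    [nat_lit 150,nat_lit 151],[],[]],[[],[nat_lit 147,nat_lit 149],[nat_lit 147,nat_lit 149],[nat_lit 145,nat_lit 154,
    nat_lit 157],[nat_lit 145,nat_lit 154,nat_lit 157],[nat_lit 145,nat_lit 154,nat_lit 157],[],[],[],[],[],[]],[[],
    [nat_lit 142,nat_lit 156],[nat_lit 142,nat_lit 156],[nat_lit 155,nat_lit 158],[nat_lit 155,nat_lit 158],
    [nat_lit 232],[nat_lit 232],[nat_lit 236],[nat_lit 233],[nat_lit 242,nat_lit 244],[],[]],[[],[nat_lit 240],
    [nat_lit 240],[nat_lit 237,nat_lit 241],[nat_lit 237,nat_lit 241],[nat_lit 243,nat_lit 245],[nat_lit 243,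
    nat_lit 245],[],[],[],[],[nat_lit 234]],[[nat_lit 234],[nat_lit 238],[],[],[nat_lit 180,nat_lit 182],
    [nat_lit 176],[nat_lit 183,nat_lit 186],[nat_lit 193,nat_lit 195],[nat_lit 177],[nat_lit 189,nat_lit 191],
    [nat_lit 189,nat_lit 191],[nat_lit 179]],[[nat_lit 179],[nat_lit 181],[nat_lit 190,nat_lit 192],[nat_lit 190,
    nat_lit 192],[nat_lit 12],[nat_lit 15],[nat_lit 18],[nat_lit 18],[nat_lit 18],[nat_lit 18],[nat_lit 18],[]],[[],
    [],[nat_lit 14],[nat_lit 14],[nat_lit 11,nat_lit 19],[nat_lit 11,nat_lit 19]]]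
    (nat_lit 246) [nat_lit 0,nat_lit 1,nat_lit 2,nat_lit 3,nat_lit 4,nat_lit 5,nat_lit 6,nat_lit 7,nat_lit 8,
    nat_lit 9,nat_lit 10,nat_lit 11,nat_lit 12,nat_lit 13,nat_lit 14,nat_lit 15,nat_lit 16,nat_lit 17,nat_lit 18,
    nat_lit 19,nat_lit 20,nat_lit 21,nat_lit 22,nat_lit 23,nat_lit 24,nat_lit 25,nat_lit 26,nat_lit 27,nat_lit 28,
    nat_lit 29,nat_lit 30,nat_lit 31,nat_lit 32,nat_lit 33,nat_lit 34,nat_lit 35,nat_lit 36,nat_lit 37,nat_lit 40,
    nat_lit 41,nat_lit 42,nat_lit 43,nat_lit 44,nat_lit 45,nat_lit 46,nat_lit 47,nat_lit 50,nat_lit 51,nat_lit 52,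
    nat_lit 53,nat_lit 54,nat_lit 55,nat_lit 56,nat_lit 57,nat_lit 67,nat_lit 72,nat_lit 73,nat_lit 75,nat_lit 87,
    nat_lit 91,nat_lit 92,nat_lit 93,nat_lit 109,nat_lit 110,nat_lit 111,nat_lit 112,nat_lit 115,nat_lit 116,
    nat_lit 117,nat_lit 131,nat_lit 132,nat_lit 134,nat_lit 138,nat_lit 139,nat_lit 140,nat_lit 141,nat_lit 154,
    nat_lit 155,nat_lit 157,nat_lit 158,nat_lit 171,nat_lit 172,nat_lit 174,nat_lit 175]
    [[[nat_lit 7],[],[],[],[nat_lit 1],[nat_lit 2],[],[],[nat_lit 10],[],[nat_lit 0,nat_lit 3,nat_lit 5],[],[],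
    [nat_lit 8,nat_lit 9],[nat_lit 4,nat_lit 6],[]],[[],[nat_lit 15],[],[],[nat_lit 12],[nat_lit 13],[],[],
    [nat_lit 16,nat_lit 20],[nat_lit 17,nat_lit 21],[nat_lit 18],[nat_lit 11,nat_lit 19],[],[],[nat_lit 14],[]],[[],
    [],[],[],[],[],[nat_lit 26],[nat_lit 27],[],[],[nat_lit 22,nat_lit 24],[nat_lit 23,nat_lit 25],[],[],[nat_lit 28],
    [nat_lit 29]],[[],[],[],[],[],[],[nat_lit 32,nat_lit 34],[nat_lit 33,nat_lit 35],[],[],[nat_lit 30,nat_lit 31],[],
    [],[],[nat_lit 36],[nat_lit 37]],[[nat_lit 38],[nat_lit 39],[],[],[],[],[nat_lit 43,nat_lit 45],[nat_lit 44],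
    [nat_lit 40,nat_lit 42],[nat_lit 41],[],[],[nat_lit 46],[nat_lit 47],[],[]],[[nat_lit 48],[nat_lit 49],[],[],[],
    [],[nat_lit 54],[nat_lit 53,nat_lit 55],[nat_lit 51],[nat_lit 50,nat_lit 52],[],[],[nat_lit 56],[nat_lit 57],[],
    []],[[],[],[nat_lit 70,nat_lit 74],[nat_lit 71],[nat_lit 64,nat_lit 65],[nat_lit 66],[],[],[nat_lit 61,nat_lit 68,
    nat_lit 75],[nat_lit 62,nat_lit 63,nat_lit 69],[nat_lit 59],[nat_lit 58,nat_lit 60],[nat_lit 72],[nat_lit 73],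
    [nat_lit 67],[]],[[],[],[nat_lit 88,nat_lit 90],[nat_lit 89],[nat_lit 83],[nat_lit 84,nat_lit 86],[],[],
    [nat_lit 79,nat_lit 80,nat_lit 93],[nat_lit 81],[nat_lit 77],[nat_lit 76,nat_lit 78,nat_lit 82,nat_lit 85,
    nat_lit 91,nat_lit 92],[],[],[nat_lit 87],[]],[[nat_lit 101,nat_lit 113],[],[],[],[nat_lit 100,nat_lit 103],
    [nat_lit 104],[nat_lit 97],[nat_lit 95,nat_lit 98,nat_lit 99],[nat_lit 102],[nat_lit 105,nat_lit 114],[],[],
    [nat_lit 107,nat_lit 116],[nat_lit 108,nat_lit 115,nat_lit 117],[nat_lit 109,nat_lit 111],[nat_lit 94,nat_lit 96,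
    nat_lit 106,nat_lit 110,nat_lit 112]],[[nat_lit 125,nat_lit 135],[nat_lit 136],[],[],[nat_lit 123],[nat_lit 124,
    nat_lit 126],[nat_lit 120,nat_lit 121,nat_lit 128],[nat_lit 118,nat_lit 122,nat_lit 129],[],[nat_lit 137],
    [nat_lit 130,nat_lit 133],[],[nat_lit 138,nat_lit 140],[nat_lit 139,nat_lit 141],[nat_lit 131,nat_lit 134],
    [nat_lit 119,nat_lit 127,nat_lit 132]],[[nat_lit 142,nat_lit 156],[],[],[nat_lit 150,nat_lit 151],[],[],
    [nat_lit 143,nat_lit 144,nat_lit 146,nat_lit 148,nat_lit 152,nat_lit 153],[nat_lit 147,nat_lit 149],[],[],[],[],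
    [nat_lit 145,nat_lit 154,nat_lit 157],[nat_lit 155,nat_lit 158],[],[]],[[nat_lit 173],[nat_lit 159,nat_lit 167,
    nat_lit 168],[nat_lit 163,nat_lit 165],[nat_lit 164,nat_lit 166],[],[],[nat_lit 161],[nat_lit 162],[nat_lit 169,
    nat_lit 170],[],[],[],[nat_lit 160,nat_lit 171,nat_lit 174],[nat_lit 172,nat_lit 175],[],[]],[[],[nat_lit 183,
    nat_lit 186],[],[],[nat_lit 176],[nat_lit 177],[],[nat_lit 179],[nat_lit 193,nat_lit 195],[nat_lit 178,
    nat_lit 194,nat_lit 196],[nat_lit 189,nat_lit 191],[nat_lit 190,nat_lit 192],[nat_lit 184,nat_lit 187],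
    [nat_lit 185,nat_lit 188],[nat_lit 181],[nat_lit 180,nat_lit 182]],[[],[],[],[],[nat_lit 199],[nat_lit 200],[],
    [nat_lit 202],[nat_lit 215,nat_lit 217],[nat_lit 201,nat_lit 216],[nat_lit 197,nat_lit 211,nat_lit 213],
    [nat_lit 198,nat_lit 212,nat_lit 214],[nat_lit 207,nat_lit 209],[nat_lit 208,nat_lit 210],[nat_lit 203,
    nat_lit 205],[nat_lit 204,nat_lit 206]],[[],[],[nat_lit 221],[nat_lit 222],[],[],[],[],[nat_lit 218,nat_lit 223,
    nat_lit 230],[nat_lit 219,nat_lit 220,nat_lit 224,nat_lit 229,nat_lit 231],[],[],[nat_lit 225,nat_lit 227],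
    [nat_lit 226,nat_lit 228],[],[]],[[nat_lit 234],[nat_lit 235,nat_lit 239],[nat_lit 232],[nat_lit 233],[],[],
    [nat_lit 236],[nat_lit 240],[nat_lit 242,nat_lit 244],[nat_lit 243,nat_lit 245],[],[],[nat_lit 237,nat_lit 241],
    [nat_lit 238],[],[]]]
    [[[nat_lit 0x20000000000000000000000000000000000000000000000000000000,nat_lit 0,
    nat_lit 0x40000000000000000000000000000000000000000000000000000000,nat_lit 0,nat_lit 0,nat_lit 0,nat_lit 0,
    nat_lit 0xa00000000000000000000000000000000000000000000000000000000,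
    nat_lit 0xa00000000000000000000000000000000000000000000000000000000],
    [nat_lit 0xa118000000000000000000000000000000000000000000000000000000,
    nat_lit 0x1400000000000000000000000000000000000000000000000000000000,nat_lit 0x2000000000,nat_lit 0x500000000,
    nat_lit 0,nat_lit 0xa00000000,nat_lit 0,nat_lit 0,nat_lit 0],[nat_lit 0x1000000000,nat_lit 0x1000000000,nat_lit 0,
    nat_lit 0,nat_lit 0x400,nat_lit 0x400,nat_lit 4,nat_lit 4,nat_lit 0],[nat_lit 0,nat_lit 128,nat_lit 768,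
    nat_lit 0x8000000000000,nat_lit 0,nat_lit 0x100000000000000,nat_lit 0x100000000000000,nat_lit 0x14000000000000,
    nat_lit 0x14000000000000],[nat_lit 0x1000000000000,nat_lit 0x200000000000000,nat_lit 0,nat_lit 0x20000000,
    nat_lit 0,nat_lit 0,nat_lit 0,nat_lit 0x1400000,nat_lit 0x1400000],[nat_lit 0x8000000,nat_lit 0x10000000,
    nat_lit 0x2800000,nat_lit 0x50000000000000000000000,nat_lit 0,nat_lit 0x200180000000000000000000,
    nat_lit 0x5000000000000000000000,nat_lit 0x5000000000000000000000,nat_lit 0x20000000000000000000],[nat_lit 0,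
    nat_lit 0,nat_lit 0x8000000000000000000000,nat_lit 0x182450000000000000000000,nat_lit 0,nat_lit 0x8000000000,
    nat_lit 0x8000000000,nat_lit 0x280000000000,nat_lit 0x280000000000],[nat_lit 0,nat_lit 0,nat_lit 0x100000000000,
    nat_lit 0x100000000000,nat_lit 0x100000000000,nat_lit 0x400000000000,nat_lit 0x400000000000,
    nat_lit 0x400000000000,nat_lit 0x400000000000],[nat_lit 0x400000000000,nat_lit 0x400000000000,
    nat_lit 0x20000000000,nat_lit 0x800000000000,nat_lit 0x8000000000000000000000000000000,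
    nat_lit 0x10000000000000000000000000000000000,nat_lit 0x10000000000000000000000000000000000,
    nat_lit 0x103000000000000000000000000000000,nat_lit 0]],[[nat_lit 0,nat_lit 0x2400000000000000000000000000000000,
    nat_lit 0x2400000000000000000000000000000000,nat_lit 0x2400000000000000000000000000000000,
    nat_lit 0x204400000000000000000000000000000,nat_lit 0x204400000000000000000000000000000,
    nat_lit 0x204400000000000000000000000000000,nat_lit 0x140000000000000000000000000000000000,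
    nat_lit 0x140000000000000000000000000000000000],[nat_lit 0x20000000000000000000000000000000000,
    nat_lit 0x4800000000000000000000000000000000,nat_lit 0,nat_lit 0x280000000000000000000000000000000000,
    nat_lit 0x4400000000000000000,nat_lit 0,nat_lit 0,nat_lit 0,nat_lit 0],[nat_lit 0x800000000000000000,
    nat_lit 0x8102000000000000000,nat_lit 0x8102000000000000000,nat_lit 0x8102000000000000000,
    nat_lit 0x40000000000000000,nat_lit 0x40000000000000000,nat_lit 0x40000000000000000,nat_lit 0x800000000000000,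
    nat_lit 0x20c000000000000000],[nat_lit 0x20c000000000000000,nat_lit 0x80000000000000000,
    nat_lit 0x80000000000000000,nat_lit 0x1400000000000000,nat_lit 0x1400000000000000,nat_lit 0,nat_lit 0,nat_lit 0,
    nat_lit 0x2000000000000000000],[nat_lit 0x2000000000000000000,nat_lit 0,nat_lit 0,
    nat_lit 0x20000000000000000000000000000000000000000,nat_lit 0x500000000000000000000000000000000000000000,
    nat_lit 0x500000000000000000000000000000000000000000,nat_lit 0x6000000000000000000000000000000000000000000,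
    nat_lit 0x6000000000000000000000000000000000000000000,nat_lit 0x6000000000000000000000000000000000000000000],
    [nat_lit 0,nat_lit 0,nat_lit 0,nat_lit 0x40000000000000000000000000000000000000000,nat_lit 0,nat_lit 0,nat_lit 0,
    nat_lit 0,nat_lit 0],[nat_lit 0x20000000000000000000000000000000000000000000,
    nat_lit 0x20000000000000000000000000000000000000000000,nat_lit 0x20000000000000000000000000000000000000000000,
    nat_lit 0x20000000000000000000000000000000000000000000,nat_lit 0x20000000000000000000000000000000000000000000,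
    nat_lit 0x90000000000000000000000000000000000000000000,nat_lit 0x90000000000000000000000000000000000000000000,
    nat_lit 0,nat_lit 0],[nat_lit 0,nat_lit 0x14401400000000000000000000000,nat_lit 0x90000000000000000000000000,
    nat_lit 0x90000000000000000000000000,nat_lit 0,nat_lit 0,nat_lit 0x40000000000000000000000000,
    nat_lit 0x100000000000000000000000000,nat_lit 0xc800000000000000000000000],[nat_lit 0xc800000000000000000000000,
    nat_lit 0xa000000000000000000000000000,nat_lit 0xa000000000000000000000000000,nat_lit 0,nat_lit 0,nat_lit 0,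
    nat_lit 0x5000000000000000000000000000000000000000000000000000,
    nat_lit 0x5000000000000000000000000000000000000000000000000000,
    nat_lit 0x80000000000000000000000000000000000000000000000000]],
    [[nat_lit 0x80000000000000000000000000000000000000000000000000,
    nat_lit 0x2800000000000000000000000000000000000000000000000000000,
    nat_lit 0x2800000000000000000000000000000000000000000000000000000,
    nat_lit 0x100000000000000000000000000000000000000000000000000,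
    nat_lit 0x100000000000000000000000000000000000000000000000000,
    nat_lit 0x100000000000000000000000000000000000000000000000000,
    nat_lit 0x100000000000000000000000000000000000000000000000000,
    nat_lit 0x100000000000000000000000000000000000000000000000000,
    nat_lit 0x100000000000000000000000000000000000000000000000000],
    [nat_lit 0x2800000000000000000000000000000000000000000000000000,
    nat_lit 0x2800000000000000000000000000000000000000000000000000,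
    nat_lit 0x500040000000000000000000000000000000000000000000000000,
    nat_lit 0x500040000000000000000000000000000000000000000000000000,
    nat_lit 0x500040000000000000000000000000000000000000000000000000,
    nat_lit 0x315800000000000000000000000000000000000,nat_lit 0xc0000000000000000000000000000000000000,nat_lit 0,
    nat_lit 0],[nat_lit 0,nat_lit 0x28000000000000000000000000000000000000,
    nat_lit 0x28000000000000000000000000000000000000,nat_lit 0x2402000000000000000000000000000000000000,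
    nat_lit 0x2402000000000000000000000000000000000000,nat_lit 0x2402000000000000000000000000000000000000,nat_lit 0,
    nat_lit 0,nat_lit 0],[nat_lit 0,nat_lit 0,nat_lit 0,nat_lit 0,nat_lit 0x1000400000000000000000000000000000000000,
    nat_lit 0x1000400000000000000000000000000000000000,nat_lit 0x4800000000000000000000000000000000000000,
    nat_lit 0x4800000000000000000000000000000000000000,
    nat_lit 0x10000000000000000000000000000000000000000000000000000000000],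
    [nat_lit 0x10000000000000000000000000000000000000000000000000000000000,
    nat_lit 0x100000000000000000000000000000000000000000000000000000000000,
    nat_lit 0x20000000000000000000000000000000000000000000000000000000000,
    nat_lit 0x14000000000000000000000000000000000000000000000000000000000000,nat_lit 0,nat_lit 0,nat_lit 0,
    nat_lit 0x1000000000000000000000000000000000000000000000000000000000000,
    nat_lit 0x1000000000000000000000000000000000000000000000000000000000000],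
    [nat_lit 0x2200000000000000000000000000000000000000000000000000000000000,
    nat_lit 0x2200000000000000000000000000000000000000000000000000000000000,
    nat_lit 0x28000000000000000000000000000000000000000000000000000000000000,
    nat_lit 0x28000000000000000000000000000000000000000000000000000000000000,nat_lit 0,nat_lit 0,nat_lit 0,nat_lit 0,
    nat_lit 0x40000000000000000000000000000000000000000000000000000000000],
    [nat_lit 0x40000000000000000000000000000000000000000000000000000000000,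
    nat_lit 0x400000000000000000000000000000000000000000000000000000000000,nat_lit 0,nat_lit 0,
    nat_lit 0x5000000000000000000000000000000000000000000000,nat_lit 0x100000000000000000000000000000000000000000000,
    nat_lit 0x48000000000000000000000000000000000000000000000,
    nat_lit 0xa000000000000000000000000000000000000000000000000,
    nat_lit 0x200000000000000000000000000000000000000000000],
    [nat_lit 0xa00000000000000000000000000000000000000000000000,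
    nat_lit 0xa00000000000000000000000000000000000000000000000,
    nat_lit 0x800000000000000000000000000000000000000000000,nat_lit 0x800000000000000000000000000000000000000000000,
    nat_lit 0x2000000000000000000000000000000000000000000000,
    nat_lit 0x1400000000000000000000000000000000000000000000000,
    nat_lit 0x1400000000000000000000000000000000000000000000000,nat_lit 0x1000,nat_lit 0x8000],[nat_lit 0x40000,
    nat_lit 0x40000,nat_lit 0x40000,nat_lit 0x40000,nat_lit 0x40000,nat_lit 0,nat_lit 0,nat_lit 0,nat_lit 0x4000]],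
    [[nat_lit 0x4000,nat_lit 0x80800,nat_lit 0x80800]]]
    [[[[nat_lit 0,nat_lit 0,nat_lit 0,nat_lit 0,nat_lit 0,nat_lit 0,nat_lit 0,nat_lit 0,nat_lit 0],
    [nat_lit 0x8000000000000000000000000000000000000000000000000000000000,nat_lit 0,nat_lit 0,nat_lit 0,nat_lit 0,
    nat_lit 0,nat_lit 0,nat_lit 0,nat_lit 0],[nat_lit 0x1000000000,nat_lit 0,nat_lit 0,nat_lit 0,nat_lit 0,nat_lit 0,
    nat_lit 0,nat_lit 0,nat_lit 0],[nat_lit 0,nat_lit 0,nat_lit 512,nat_lit 0,nat_lit 0,nat_lit 0,nat_lit 0,nat_lit 0,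
    nat_lit 0],[nat_lit 0x1000000000000,nat_lit 0,nat_lit 0,nat_lit 0x20000000,nat_lit 0,nat_lit 0,nat_lit 0,
    nat_lit 0,nat_lit 0],[nat_lit 0,nat_lit 0,nat_lit 0,nat_lit 0x10000000000000000000000,nat_lit 0,nat_lit 0,
    nat_lit 0,nat_lit 0,nat_lit 0],[nat_lit 0,nat_lit 0,nat_lit 0,nat_lit 0,nat_lit 0,nat_lit 0,nat_lit 0x8000000000,
    nat_lit 0,nat_lit 0],[nat_lit 0,nat_lit 0,nat_lit 0,nat_lit 0,nat_lit 0,nat_lit 0,nat_lit 0,nat_lit 0,nat_lit 0],
    [nat_lit 0,nat_lit 0,nat_lit 0,nat_lit 0,nat_lit 0,nat_lit 0,nat_lit 0,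
    nat_lit 0x100000000000000000000000000000000,nat_lit 0]],[[nat_lit 0,nat_lit 0,nat_lit 0,nat_lit 0,nat_lit 0,
    nat_lit 0,nat_lit 0,nat_lit 0,nat_lit 0],[nat_lit 0,nat_lit 0,nat_lit 0,nat_lit 0,nat_lit 0,nat_lit 0,nat_lit 0,
    nat_lit 0,nat_lit 0],[nat_lit 0,nat_lit 0,nat_lit 0,nat_lit 0,nat_lit 0,nat_lit 0,nat_lit 0x40000000000000000,
    nat_lit 0,nat_lit 0],[nat_lit 0,nat_lit 0,nat_lit 0,nat_lit 0,nat_lit 0,nat_lit 0,nat_lit 0,nat_lit 0,nat_lit 0],
    [nat_lit 0,nat_lit 0,nat_lit 0,nat_lit 0,nat_lit 0x100000000000000000000000000000000000000000,nat_lit 0,nat_lit 0,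
    nat_lit 0,nat_lit 0],[nat_lit 0,nat_lit 0,nat_lit 0,nat_lit 0,nat_lit 0,nat_lit 0,nat_lit 0,nat_lit 0,nat_lit 0],
    [nat_lit 0,nat_lit 0,nat_lit 0,nat_lit 0,nat_lit 0,nat_lit 0,nat_lit 0,nat_lit 0,nat_lit 0],[nat_lit 0,nat_lit 0,
    nat_lit 0,nat_lit 0x80000000000000000000000000,nat_lit 0,nat_lit 0,nat_lit 0,nat_lit 0,nat_lit 0],[nat_lit 0,
    nat_lit 0,nat_lit 0,nat_lit 0,nat_lit 0,nat_lit 0,nat_lit 0,nat_lit 0,nat_lit 0]],[[nat_lit 0,nat_lit 0,nat_lit 0,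
    nat_lit 0,nat_lit 0,nat_lit 0,nat_lit 0,nat_lit 0,nat_lit 0],[nat_lit 0,nat_lit 0,
    nat_lit 0x400040000000000000000000000000000000000000000000000000,nat_lit 0,nat_lit 0,nat_lit 0,nat_lit 0,
    nat_lit 0,nat_lit 0],[nat_lit 0,nat_lit 0,nat_lit 0,nat_lit 0x2000000000000000000000000000000000000,
    nat_lit 0x2000000000000000000000000000000000000,nat_lit 0,nat_lit 0,nat_lit 0,nat_lit 0],[nat_lit 0,nat_lit 0,
    nat_lit 0,nat_lit 0,nat_lit 0,nat_lit 0,nat_lit 0,nat_lit 0,nat_lit 0],[nat_lit 0,nat_lit 0,nat_lit 0,nat_lit 0,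
    nat_lit 0,nat_lit 0,nat_lit 0,nat_lit 0x1000000000000000000000000000000000000000000000000000000000000,
    nat_lit 0x1000000000000000000000000000000000000000000000000000000000000],[nat_lit 0,nat_lit 0,nat_lit 0,
    nat_lit 0x20000000000000000000000000000000000000000000000000000000000000,nat_lit 0,nat_lit 0,nat_lit 0,nat_lit 0,
    nat_lit 0],[nat_lit 0,nat_lit 0,nat_lit 0,nat_lit 0,nat_lit 0,nat_lit 0,nat_lit 0,
    nat_lit 0xa000000000000000000000000000000000000000000000000,nat_lit 0],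
    [nat_lit 0x200000000000000000000000000000000000000000000000,nat_lit 0,nat_lit 0,nat_lit 0,nat_lit 0,nat_lit 0,
    nat_lit 0,nat_lit 0,nat_lit 0],[nat_lit 0,nat_lit 0,nat_lit 0,nat_lit 0x40000,nat_lit 0,nat_lit 0,nat_lit 0,
    nat_lit 0,nat_lit 0]],[[nat_lit 0,nat_lit 0,nat_lit 0]]]]
    (nat_lit 1) (nat_lit 1) (nat_lit 9)
    [[nat_lit 2,nat_lit 0x10101,nat_lit 0x1001,nat_lit 0x101001,nat_lit 0x10001,nat_lit 0x100001,nat_lit 0x1000001,
    nat_lit 0x10000001,nat_lit 0x11000001],[nat_lit 32,nat_lit 272,nat_lit 0x1010,nat_lit 0x10001010,nat_lit 0x10010,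
    nat_lit 0x110010,nat_lit 0x100010,nat_lit 0x200010,nat_lit 0x1000010],[nat_lit 512,nat_lit 0x10200,
    nat_lit 0x100200,nat_lit 0x1100,nat_lit 0x101100,nat_lit 0x111100,nat_lit 0x201100,nat_lit 0x10001100,
    nat_lit 0x10100,nat_lit 0x20100,nat_lit 0x110100,nat_lit 0x10010100,nat_lit 0x100100,nat_lit 0x200100,
    nat_lit 0x10100100,nat_lit 0x10101100,nat_lit 0x1010100,nat_lit 0x1100100,nat_lit 0x11000100,nat_lit 0x10000100],
    [nat_lit 0x2000,nat_lit 0x102000,nat_lit 0x11000,nat_lit 0x21000,nat_lit 0x111000,nat_lit 0x10011000,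
    nat_lit 0x101000,nat_lit 0x202000,nat_lit 0x302000,nat_lit 0x10202000,nat_lit 0x10102000,nat_lit 0x121000,
    nat_lit 0x211000,nat_lit 0x10111000,nat_lit 0x201000,nat_lit 0x301000,nat_lit 0x1201000,nat_lit 0x10201000,
    nat_lit 0x1101000,nat_lit 0x11101000,nat_lit 0x10101000,nat_lit 0x20101000,nat_lit 0x1001000,nat_lit 0x11001000,
    nat_lit 0x10001000,nat_lit 0x20001000],[nat_lit 0x20000,nat_lit 0x30000,nat_lit 0x120000,nat_lit 0x10020000,
    nat_lit 0x10120000,nat_lit 0x1020000,nat_lit 0x110000,nat_lit 0x210000,nat_lit 0x1110000,nat_lit 0x10110000,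
    nat_lit 0x310000,nat_lit 0x1010000,nat_lit 0x10010000,nat_lit 0x20010000],[nat_lit 0x200000,nat_lit 0x300000,
    nat_lit 0x400000,nat_lit 0x1200000,nat_lit 0x10200000,nat_lit 0x10300000,nat_lit 0x1100000,nat_lit 0x11100000,
    nat_lit 0x10100000,nat_lit 0x20100000],[nat_lit 0x2000000,nat_lit 0x12000000,nat_lit 0x11000000,
    nat_lit 0x21000000],[nat_lit 0x20000000]]
    [.c (nat_lit 1) (nat_lit 2),.c (nat_lit 0) (nat_lit 0x300c02),.c (nat_lit 0) (nat_lit 0x318043),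
    .c (nat_lit 0) (nat_lit 0x318043),.c (nat_lit 0) (nat_lit 0xc6328043),.c (nat_lit 0) (nat_lit 0x4001003),
    .c (nat_lit 1) (nat_lit 0x802),.c (nat_lit 0) (nat_lit 0xc6318043),.c (nat_lit 0) (nat_lit 0x80000c02),
    .c (nat_lit 2) (nat_lit 2),.c (nat_lit 0) (nat_lit 0xc6528c42),.c (nat_lit 1) (nat_lit 0xc0019002),
    .c (nat_lit 0) (nat_lit 0x18002),.r (nat_lit 0x168f) (nat_lit 1) [nat_lit 0x300041,nat_lit 0x4010001,
    nat_lit 0x200001],.r (nat_lit 0xdb7) (nat_lit 8) [nat_lit 0x4000001,nat_lit 65],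
    .c (nat_lit 0) (nat_lit 0x84010003),.r (nat_lit 0x14e2) (nat_lit 8) [nat_lit 0x200001,nat_lit 0x1104410c61,
    nat_lit 0x1104420c61,nat_lit 0x1940518841],.r (nat_lit 0xdb8) (nat_lit 13) [nat_lit 0x4200061,nat_lit 0x10041],
    .c (nat_lit 3) (nat_lit 2),.c (nat_lit 0) (nat_lit 0x4500002),.c (nat_lit 1) (nat_lit 0x4402003),
    .c (nat_lit 0) (nat_lit 0x6018c43),.r (nat_lit 0xdb8) (nat_lit 13) [nat_lit 0x18c0000041,nat_lit 0x1084210061],
    .c (nat_lit 1) (nat_lit 0x18843),.r (nat_lit 0x143b) (nat_lit 10) [nat_lit 0x200001,nat_lit 0x84220c01,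
    nat_lit 0xc0318801,nat_lit 0x1800010c41],.r (nat_lit 0x168f) (nat_lit 1) [nat_lit 0xc0318861,nat_lit 0x4010001,
    nat_lit 0x200001],.c (nat_lit 0) (nat_lit 0x6018c43),.r (nat_lit 0xdb7) (nat_lit 8) [nat_lit 0x4000001,
    nat_lit 0x1100410c41],.r (nat_lit 0x14e2) (nat_lit 8) [nat_lit 0x200001,nat_lit 0x4000061,nat_lit 0x4010061,
    nat_lit 65],.c (nat_lit 1) (nat_lit 0xc6018843),.r (nat_lit 0x151b) (nat_lit 11) [nat_lit 0x84030061,
    nat_lit 0x200001,nat_lit 0x4000001],.r (nat_lit 0x414) (nat_lit 10) [nat_lit 0x5bdab5a841,nat_lit 0x52080000a1,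
    nat_lit 0x150000041,nat_lit 0xa00001,nat_lit 0x104050061,nat_lit 0x104000061],
    .r (nat_lit 0x143b) (nat_lit 10) [nat_lit 0x200001,nat_lit 0x84220c01,nat_lit 0xc0318801,nat_lit 0x80010c41],
    .r (nat_lit 0x415) (nat_lit 13) [nat_lit 0x1084400061,nat_lit 0x28ca900081,nat_lit 0x294a918841,
    nat_lit 0x3108a000a1,nat_lit 0x18c0500041,nat_lit 0x1084410061],.c (nat_lit 0) (nat_lit 0x300002),
    .c (nat_lit 1) (nat_lit 0x4201003),.c (nat_lit 0) (nat_lit 0x318002),.r (nat_lit 0xdb8) (nat_lit 13) [nat_lit 65,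
    nat_lit 0x4210061],.c (nat_lit 4) (nat_lit 2),.c (nat_lit 0) (nat_lit 0x6529483),
    .c (nat_lit 0) (nat_lit 0xca529485),.c (nat_lit 0) (nat_lit 0xca539483),.c (nat_lit 0) (nat_lit 0x80529485),
    .c (nat_lit 0) (nat_lit 0xca529483),.c (nat_lit 0) (nat_lit 0x84010003),.c (nat_lit 2) (nat_lit 0x108020003),
    .r (nat_lit 0xdb8) (nat_lit 13) [nat_lit 0x29c8000042,nat_lit 0x2180420062],
    .r (nat_lit 0x89e) (nat_lit 6) [nat_lit 0x1080000041,nat_lit 0xc000001,nat_lit 0x2100600061,nat_lit 0x30001,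
    nat_lit 0x2940000041],.r (nat_lit 0x10b4) (nat_lit 6) [nat_lit 0x4000001,nat_lit 0x18c0000041,nat_lit 0x4010001,
    nat_lit 0x1080400061,nat_lit 0x1080000041],.c (nat_lit 0) (nat_lit 0x6529483),
    .r (nat_lit 0x151b) (nat_lit 11) [nat_lit 0x86320861,nat_lit 0x200001,nat_lit 0x4000001],
    .r (nat_lit 0xdb8) (nat_lit 13) [nat_lit 0x8210c41,nat_lit 0x6000861],
    .r (nat_lit 0x1404) (nat_lit 13) [nat_lit 0x1080200061,nat_lit 0x18c0000041,nat_lit 0x4000001,nat_lit 65],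
    .r (nat_lit 0x1341) (nat_lit 12) [nat_lit 0x39c0000041,nat_lit 65,nat_lit 0x3180600061,nat_lit 0x18631c41,
    nat_lit 0xe701861],.r (nat_lit 0xdb8) (nat_lit 13) [nat_lit 0x1944000041,nat_lit 0x1100210061],
    .r (nat_lit 0xdb8) (nat_lit 13) [nat_lit 0x1948000042,nat_lit 0x1100420062],.c (nat_lit 0) (nat_lit 0x318c43),
    .r (nat_lit 0x168f) (nat_lit 1) [nat_lit 0x6318861,nat_lit 0x4010001,nat_lit 0x200001],
    .c (nat_lit 2) (nat_lit 0x84020003),.r (nat_lit 0x89e) (nat_lit 6) [nat_lit 0x2100000041,nat_lit 0xc000001,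
    nat_lit 0x1080600061,nat_lit 0x30001,nat_lit 0x18c0000041],.c (nat_lit 0) (nat_lit 0x318c43),
    .r (nat_lit 0xdb7) (nat_lit 8) [nat_lit 0x4000001,nat_lit 0x6018861],.c (nat_lit 0) (nat_lit 0xca529483),
    .r (nat_lit 0x10b4) (nat_lit 6) [nat_lit 0x4000001,nat_lit 65,nat_lit 0x4010001,nat_lit 0x400061,
    nat_lit 0x2100000041],.c (nat_lit 5) (nat_lit 2),.r (nat_lit 0xedd) (nat_lit 11) [nat_lit 65,nat_lit 0x10001,
    nat_lit 0x200001,nat_lit 0x4000001,nat_lit 0x80000001],.c (nat_lit 0) (nat_lit 0x6529483),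
    .c (nat_lit 0) (nat_lit 0xca529483),.r (nat_lit 0x14e2) (nat_lit 8) [nat_lit 0x200001,nat_lit 0x18c6318861,
    nat_lit 0x18c6300861,nat_lit 0x1088210c41],.r (nat_lit 0x168f) (nat_lit 1) [nat_lit 0x1084210c41,
    nat_lit 0x4010001,nat_lit 0x200001],.c (nat_lit 0) (nat_lit 0x80529485),
    .r (nat_lit 0x417) (nat_lit 12) [nat_lit 0x86320861,nat_lit 0x140048041,nat_lit 0x80020001,nat_lit 0x18001,
    nat_lit 0x1886340861,nat_lit 0x10c4448c41],.c (nat_lit 0) (nat_lit 0x318c43),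
    .r (nat_lit 0x151b) (nat_lit 11) [nat_lit 0x1806320861,nat_lit 0x200001,nat_lit 0x4000001],
    .r (nat_lit 0x418) (nat_lit 12) [nat_lit 0x106340861,nat_lit 0x1c0068041,nat_lit 0x80020001,nat_lit 0x18001,
    nat_lit 0x1906360861,nat_lit 0x1144468c41],.c (nat_lit 0) (nat_lit 0xc6328c43),
    .c (nat_lit 0) (nat_lit 0xc6318043),.r (nat_lit 0xdb8) (nat_lit 13) [nat_lit 0x1088210c41,nat_lit 0x18c6000861],
    .c (nat_lit 6) (nat_lit 2),.r (nat_lit 0x151b) (nat_lit 11) [nat_lit 0x180060062,nat_lit 0x200001,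
    nat_lit 0x4000001],.r (nat_lit 0x419) (nat_lit 10) [nat_lit 0x8e6318c042,nat_lit 0x4200000061,nat_lit 0x260000042,
    nat_lit 0x800001,nat_lit 0x200080062,nat_lit 0x200000062],.r (nat_lit 0x151b) (nat_lit 11) [nat_lit 0x100030061,
    nat_lit 0x200001,nat_lit 0x4000001],.r (nat_lit 0x1341) (nat_lit 12) [nat_lit 0x2940000041,nat_lit 0x1080000041,
    nat_lit 0x2100600061,nat_lit 0x1098631c41,nat_lit 0x18ce701861],
    .r (nat_lit 0x41a) (nat_lit 14) [nat_lit 0x180200061,nat_lit 0x10001,nat_lit 0x1c0000041,nat_lit 0x80000001,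
    nat_lit 0x1906318861,nat_lit 0x11c0000041],.c (nat_lit 0) (nat_lit 0x4000005),
    .r (nat_lit 0xdb8) (nat_lit 13) [nat_lit 0xc4000041,nat_lit 0x80210061],
    .r (nat_lit 0x1404) (nat_lit 13) [nat_lit 0x200061,nat_lit 65,nat_lit 0x4000001,nat_lit 0x1080000041],
    .r (nat_lit 0xdb8) (nat_lit 13) [nat_lit 0xc8000042,nat_lit 0x80420062],.c (nat_lit 7) (nat_lit 2),
    .c (nat_lit 0) (nat_lit 0x80000002),.c (nat_lit 0) (nat_lit 0xc6318c43),
    .r (nat_lit 0x168f) (nat_lit 1) [nat_lit 0x18c6318861,nat_lit 0x4010001,nat_lit 0x200001],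
    .c (nat_lit 8) (nat_lit 2)]]

/-- nodes -/
noncomputable def rD8k_37_21 : List RJ :=
  [.l (nat_lit 16) (nat_lit 0x2760) (nat_lit 3) (nat_lit 0x12d4000012d40000124c0000124c000011d8000011d80000122200001222000012170000121700001241000012410000124100001241000016e4000016e4) (nat_lit 0x4100000041000000498000004980000050c0000050c000004c2000004c2000004cd000004cd000004a3000004a3000004a3000004a30000000000000000)
    (nat_lit 0xc640ec40e3c0e3c0df20d9e0e500e500ba70e070e310e310e310b7d12d412d40ec40c640e3c0e3c0d600d0c0e660e660e470f570e470e470b910e3112d412d40e3c0e3c0e700db40cec0d400c3a0df20d690d2b0da90d690da90d9314ac14ec0e3c0e3c0d360e700d400d400d740cb80d7f0d010dbd0de70da90da9127612b40d0c0d9e0d400d400d9e0d4a0d940d160ccd0d210d350d350ccd0d2111d811d80d600df20d400cec0d740d9e0d160d160d210cf70d350d350d350d73119a11d80e660e500cb80df20d160d160d740cb80d550d550d410d690d7f0d7f11f812220e660e500d740c3a0d160d940d360d740d550d550d7f0d2b0d7f0d7f12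2212220f570e070d010d2b0cf70d210d550d550d9e0d740d740d740d740d7411d912170e470ba70d7f0d690d210ccd0d550d550d4a0d9e0d740d740d4a0d9e121712170e470e310de70d690d350d350d2b0d690d740d740d740d9e0d9e0d9e14a1126b0e470e310dbd0da90d350d350d7f0d410d740d740d9e0d740d9e0d9e14f512bf0e310b7d0da90d930d730d210d7f0d7f0d9e0d740d9e0d9e0d200d9e124112410b910e310da90da90d350ccd0d7f0d7f0d4a0d740d9e0d9e0d9e0d201241124112d412d412b414ec11d811d8122212221217121712bf126b1241124116e416e412d412d4127614ac119a11d8122211f8121711d914f514a11241124116e416e4)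
    (nat_lit 0xc642760276027602760276027602760276027602760276027602760276027600ec40c64276027602760276027602760276027602760276027602760276027600e3c0e3c0e7027602760276027602760276027602760276027602760276027600e3c0e3c0db40e702760276027602760276027602760276027602760276027600df20d600cec0d400d9e276027602760276027602760276027602760276027600d9e0d0c0d400d400d4a0d9e27602760276027602760276027602760276027600e500e660c3a0d740d940d160d742760276027602760276027602760276027600e500e660df20cb80d160d160cb80d74276027602760276027602760276027600ba70e470d690d7f0ccd0d210d550d550d9e27602760276027602760276027600e070f570d2b0d010d210cf70d550d550d740d9e2760276027602760276027600e310e470da90dbd0d350d350d410d7f0d740d740d74276027602760276027600e310e470d690de70d350d350d690d2b0d740d740d9e0d7427602760276027600e310b910da90da90ccd0d350d7f0d7f0d740d4a0d9e0d9e0d202760276027600b7d0e310d930da90d210d730d7f0d7f0d740d9e0d9e0d9e0d9e0d202760276012d412d414ac127611d8119a11f8122211d9121714a114f51241124116e4276012d412d414ec12b411d811d81222122212171217126b12bf1241124116e416e4)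
    (nat_lit 3) (nat_lit 23)
    [[nat_lit 17,nat_lit 0x1001,nat_lit 0x10001,nat_lit 0x100001,nat_lit 0x10000001],[nat_lit 32,nat_lit 0x10000020,
    nat_lit 272,nat_lit 0x1010,nat_lit 0x10001010,nat_lit 0x10010,nat_lit 0x100010,nat_lit 0x10100010,
    nat_lit 0x1000010,nat_lit 0x10000010,nat_lit 0x20000010],[nat_lit 512,nat_lit 0x1100,nat_lit 0x10100,
    nat_lit 0x100100,nat_lit 0x1000100,nat_lit 0x10000100],[nat_lit 0x2000,nat_lit 0x11000,nat_lit 0x1011000,
    nat_lit 0x101000,nat_lit 0x111000,nat_lit 0x1101000,nat_lit 0x1001000,nat_lit 0x10001000,nat_lit 0x10101000,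
    nat_lit 0x11001000],[nat_lit 0x20000,nat_lit 0x1020000,nat_lit 0x110000,nat_lit 0x1110000,nat_lit 0x1010000,
    nat_lit 0x10010000],[nat_lit 0x200000,nat_lit 0x1100000,nat_lit 0x10100000],[nat_lit 0x2000000,
    nat_lit 0x11000000],[nat_lit 0x20000000,nat_lit 0x30000000]]
    [.r (nat_lit 0xdb2) (nat_lit 11) [nat_lit 17,nat_lit 0xd812a],.r (nat_lit 0xdb4) (nat_lit 8) [nat_lit 0x82002,
    nat_lit 0x13822],.r (nat_lit 0x161e) (nat_lit 13) [nat_lit 0x601,nat_lit 17],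
    .r (nat_lit 0xdb4) (nat_lit 11) [nat_lit 0x12002,nat_lit 0x83822],.r (nat_lit 0x161e) (nat_lit 13) [nat_lit 0x601,
    nat_lit 0x411],.c (nat_lit 2) (nat_lit 2),.r (nat_lit 0xdb2) (nat_lit 11) [nat_lit 0x2012,nat_lit 0xdb11a],
    .r (nat_lit 0x165b) (nat_lit 9) [nat_lit 0x1202a,nat_lit 0x98022],.r (nat_lit 0x12a0) (nat_lit 12) [nat_lit 17,
    nat_lit 0xa2162,nat_lit 0x112162,nat_lit 0xd812a],.r (nat_lit 0xdb4) (nat_lit 11) [nat_lit 0x12002,
    nat_lit 0x1b12a],.r (nat_lit 0x168f) (nat_lit 1) [nat_lit 0x401,nat_lit 0x12002,nat_lit 0x611],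
    .r (nat_lit 0xdb7) (nat_lit 10) [nat_lit 17,nat_lit 0xd812a],.r (nat_lit 0xdb4) (nat_lit 8) [nat_lit 0x82002,
    nat_lit 0xc312a],.r (nat_lit 0x165b) (nat_lit 9) [nat_lit 0x8202a,nat_lit 17],
    .r (nat_lit 0x168f) (nat_lit 1) [nat_lit 0x401,nat_lit 0x12002,nat_lit 17],
    .r (nat_lit 0x14ff) (nat_lit 1) [nat_lit 0x401,nat_lit 17,nat_lit 0x82002,nat_lit 0x90002],
    .c (nat_lit 3) (nat_lit 2),.r (nat_lit 0xdbb) (nat_lit 7) [nat_lit 17,nat_lit 0x82002],
    .c (nat_lit 0) (nat_lit 0x2083),.r (nat_lit 0xdbb) (nat_lit 10) [nat_lit 0x98022,nat_lit 0x12002],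
    .c (nat_lit 1) (nat_lit 0x12805),.c (nat_lit 0) (nat_lit 0x2003),.c (nat_lit 4) (nat_lit 2),
    .r (nat_lit 0xdbb) (nat_lit 3) [nat_lit 17,nat_lit 0x82002],.r (nat_lit 0xdb4) (nat_lit 8) [nat_lit 0x82002,
    nat_lit 0xd0022],.r (nat_lit 0xdb4) (nat_lit 3) [nat_lit 17,nat_lit 0xd8b2a],
    .r (nat_lit 0xdb2) (nat_lit 11) [nat_lit 0xd812a,nat_lit 17],.r (nat_lit 0x14ff) (nat_lit 1) [nat_lit 0x401,
    nat_lit 0x1bb2a,nat_lit 0x82002,nat_lit 0x90002],.r (nat_lit 0xdbb) (nat_lit 7) [nat_lit 0xd0022,nat_lit 0x82002],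
    .r (nat_lit 0xdbb) (nat_lit 3) [nat_lit 0x411,nat_lit 0x82002],.r (nat_lit 0xdb2) (nat_lit 11) [nat_lit 0xd8b2a,
    nat_lit 0x411],.r (nat_lit 0xdb4) (nat_lit 8) [nat_lit 0x82002,nat_lit 0xd0822],.c (nat_lit 5) (nat_lit 2),
    .r (nat_lit 0x161e) (nat_lit 13) [nat_lit 0x601,nat_lit 0xc2a22],.r (nat_lit 0xdbb) (nat_lit 2) [nat_lit 17,
    nat_lit 0x12002],.r (nat_lit 0xdb4) (nat_lit 11) [nat_lit 0x12002,nat_lit 17],.c (nat_lit 0) (nat_lit 0x10085),
    .c (nat_lit 5) (nat_lit 130),.c (nat_lit 6) (nat_lit 2),.r (nat_lit 0xdbb) (nat_lit 10) [nat_lit 17,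
    nat_lit 0x12002],.r (nat_lit 0xdbb) (nat_lit 2) [nat_lit 0x411,nat_lit 0x12002],.c (nat_lit 7) (nat_lit 2),
    .c (nat_lit 0) (nat_lit 0x10003),.c (nat_lit 8) (nat_lit 2),.r (nat_lit 0x161e) (nat_lit 13) [nat_lit 0x601,
    nat_lit 0x2812]],
    .l (nat_lit 11) (nat_lit 480) (nat_lit 3) (nat_lit 0xd9000000d9000000ea000000ea000000fc000000fc000000d4000000d4000000ce000000ce000000c8000000c8000000cb000000cb000000cb000000cb) (nat_lit 0x23000000230000001200000012000000000000000000000028000000280000002e0000002e000000340000003400000031000000310000003100000031)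
    (nat_lit 0x16c2d8638b719e41c588b115626c548a51502b0540a616c2d8638c71b2444588a5156294518c71582a05c0a818e2dc500d81ec3a8640c21342f05b0b61722ec5c8b518e31c6c0a01ec3a88f1181782f05b0b61722e4458b922241c750ea14c3f06a0c819c1c8640c819632c658cb1b233c7b0f61f82986a0d419c3386a0d218232c658d114a2c48c0c21a8320560ac138298500a013a25c568ad1622c48f0c81a8350560ac14c298550a013a264598ad14a26c5e0bc19c1c8530a61402805209a12624c4e8a31562ac5e09a19c3385309c1402804e09a13a2644e8a318e2945b0b61a4320500a01342684c0941222544b8971462a45b0b61a8320550a01382903a09812a25c498791502b05c8bb19632c4c89713224c4b8951702e84b09c1582a05c8b918232c4e89d13a24c4a8911682e04e09a1502985c8b51a232c568ad14628c3c8971342704d0801702a0458b919632c598ad13a274498971382584d09a)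
    (nat_lit 0x16c780f01e03c0780f01e03c0780f01e03c0780f01e016c2d8f01e03c0780f01e03c0780f01e03c0780f01e018e31c501e03c0780f01e03c0780f01e03c0780f01e016e31c6c0a03c0780f01e03c0780f01e03c0780f01e019e3647b0f614c780f01e03c0780f01e03c0780f01e020e444750ea1f8298f01e03c0780f01e03c0780f01e01622c46411e1a8350561e03c0780f01e03c0780f01e016229461118190350560ac3c0780f01e03c0780f01e01562ac4d0bc19c3384e0a6140780f01e03c0780f01e01362945e0bc0e4338530a6140280f01e03c0780f01e015228c5b0b6190350500aa1482704c1e03c0780f01e014a31c5b0b6190348500a01342684a0983c0780f01e01502b05c8b91963044e89d12627448895170780f01e01582a05d8b919632c4b8991262644a8971742e0f01e01502e05c88b19632c568b313a2744b89312c2704d1e014c2a05a8b9196344568ad14628c4b8791382684009a)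
    (nat_lit 3) (nat_lit 79)
    [[nat_lit 2,nat_lit 3,nat_lit 18,nat_lit 258,nat_lit 0x1002,nat_lit 0x1000002,nat_lit 17,nat_lit 273,
    nat_lit 0x1011,nat_lit 257,nat_lit 513,nat_lit 0x1101,nat_lit 0x1001,nat_lit 0x10001,nat_lit 0x10101,
    nat_lit 0x100001,nat_lit 0x1000001,nat_lit 0x1000101,nat_lit 0x1001001,nat_lit 0x10000001,nat_lit 0x10000101],
    [nat_lit 32,nat_lit 272,nat_lit 528,nat_lit 0x1110,nat_lit 0x10110,nat_lit 0x1010,nat_lit 0x2010,nat_lit 0x11010,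
    nat_lit 0x101010,nat_lit 0x10010,nat_lit 0x100010,nat_lit 0x1000010,nat_lit 0x10000010],[nat_lit 512,nat_lit 768,
    nat_lit 0x1200,nat_lit 0x10200,nat_lit 0x1100,nat_lit 0x2100,nat_lit 0x10100,nat_lit 0x100100,nat_lit 0x1000100,
    nat_lit 0x10000100,nat_lit 0x10001100],[nat_lit 0x2000,nat_lit 0x11000,nat_lit 0x101000,nat_lit 0x1001000,
    nat_lit 0x10001000],[nat_lit 0x20000,nat_lit 0x110000,nat_lit 0x10010000],[nat_lit 0x200000],[nat_lit 0x2000000,
    nat_lit 0x11000000],[nat_lit 0x20000000]]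
    [.c (nat_lit 1) (nat_lit 2),.r (nat_lit 0x1425) (nat_lit 11) [nat_lit 0x401,nat_lit 0x2001,nat_lit 0x10001,
    nat_lit 0x80001],.c (nat_lit 0) (nat_lit 0x3693),.c (nat_lit 0) (nat_lit 0x3693),
    .r (nat_lit 0x1425) (nat_lit 11) [nat_lit 0x401,nat_lit 0x2001,nat_lit 0x10001,nat_lit 0x80001],
    .r (nat_lit 0x13f8) (nat_lit 4) [nat_lit 0xc0601,nat_lit 0x126d1,nat_lit 0x90401,nat_lit 0x18499],
    .c (nat_lit 0) (nat_lit 0x3613),.c (nat_lit 0) (nat_lit 0x3693),.c (nat_lit 0) (nat_lit 0x3613),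
    .c (nat_lit 0) (nat_lit 0x3613),.r (nat_lit 0x13ee) (nat_lit 12) [nat_lit 0xd8611,nat_lit 0x120819,
    nat_lit 0x10001,nat_lit 0x2001],.c (nat_lit 0) (nat_lit 0x3613),.c (nat_lit 1) (nat_lit 130),
    .r (nat_lit 0xdb3) (nat_lit 1) [nat_lit 0x611,nat_lit 0xd8099],.r (nat_lit 0xdb8) (nat_lit 6) [nat_lit 0xc0611,
    nat_lit 0x92419],.c (nat_lit 0) (nat_lit 0x12083),.r (nat_lit 0xdc2) (nat_lit 3) [nat_lit 0x611,nat_lit 0x90401],
    .r (nat_lit 0xdb3) (nat_lit 8) [nat_lit 0xc0611,nat_lit 0x18099],.r (nat_lit 0x13f8) (nat_lit 4) [nat_lit 0xc0601,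
    nat_lit 0x120d1,nat_lit 0x90401,nat_lit 0x18099],.c (nat_lit 0) (nat_lit 0x1b613),
    .c (nat_lit 6) (nat_lit 0x14083),.c (nat_lit 2) (nat_lit 2),.c (nat_lit 0) (nat_lit 0x3693),
    .r (nat_lit 0x1425) (nat_lit 11) [nat_lit 0x401,nat_lit 0x2001,nat_lit 0x10001,nat_lit 0x80001],
    .c (nat_lit 0) (nat_lit 0x3613),.r (nat_lit 0x13f8) (nat_lit 4) [nat_lit 0xc0601,nat_lit 0x2019,nat_lit 0x90401,
    nat_lit 17],.c (nat_lit 0) (nat_lit 0x36d3),.c (nat_lit 0) (nat_lit 0x36d3),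
    .r (nat_lit 0xdb3) (nat_lit 8) [nat_lit 0xd8699,nat_lit 17],.c (nat_lit 6) (nat_lit 0x1449a),
    .r (nat_lit 0xdae) (nat_lit 5) [nat_lit 0x10001,nat_lit 0x2001,nat_lit 17,nat_lit 0xd8099],
    .r (nat_lit 0xbf0) (nat_lit 10) [nat_lit 0x6001,nat_lit 0x83699,nat_lit 0x17b6a1,nat_lit 0x83899,
    nat_lit 0x143699],.r (nat_lit 0x168f) (nat_lit 15) [nat_lit 0x3011,nat_lit 0x10001,nat_lit 0x2001],
    .c (nat_lit 0) (nat_lit 0x1b613),.c (nat_lit 3) (nat_lit 2),.r (nat_lit 0x1425) (nat_lit 11) [nat_lit 0x401,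
    nat_lit 0x2001,nat_lit 0x10001,nat_lit 0x80001],.r (nat_lit 0x13ee) (nat_lit 12) [nat_lit 0xd8011,
    nat_lit 0x120419,nat_lit 0x10001,nat_lit 0x2001],.r (nat_lit 0x1425) (nat_lit 11) [nat_lit 0x401,nat_lit 0x2001,
    nat_lit 0x10001,nat_lit 0x80001],.c (nat_lit 0) (nat_lit 0x36d3),.c (nat_lit 0) (nat_lit 0x36d3),
    .r (nat_lit 0x1414) (nat_lit 10) [nat_lit 0x2001,nat_lit 17,nat_lit 0xa24c1,nat_lit 0xdb681],
    .c (nat_lit 0) (nat_lit 0x12083),.r (nat_lit 0xdb6) (nat_lit 8) [nat_lit 17,nat_lit 0x92019],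
    .r (nat_lit 0x13ee) (nat_lit 12) [nat_lit 0x18011,nat_lit 0xa0419,nat_lit 0x10001,nat_lit 0x2001],
    .c (nat_lit 6) (nat_lit 0x14003),.c (nat_lit 4) (nat_lit 2),.r (nat_lit 0xdb3) (nat_lit 1) [nat_lit 17,
    nat_lit 0xd8699],.c (nat_lit 0) (nat_lit 0x12003),.r (nat_lit 0xdc2) (nat_lit 3) [nat_lit 17,nat_lit 0x90401],
    .c (nat_lit 0) (nat_lit 0x1b6d3),.c (nat_lit 5) (nat_lit 2),.r (nat_lit 0xdb3) (nat_lit 8) [nat_lit 0x12019,
    nat_lit 0xeb691],.r (nat_lit 0xdb8) (nat_lit 6) [nat_lit 17,nat_lit 0x12019],.c (nat_lit 6) (nat_lit 2),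
    .c (nat_lit 7) (nat_lit 2),.r (nat_lit 0xdb3) (nat_lit 8) [nat_lit 17,nat_lit 0xd8699],
    .c (nat_lit 8) (nat_lit 2)],
    .l (nat_lit 13) (nat_lit 0x5a0) (nat_lit 3) (nat_lit 0x2db000002db000002ef000002ef000003c400000378000002e0000002e000000300000002a4000002c7000002c7000002d4000002d4000002ca000002ca) (nat_lit 0xe9000000e9000000d5000000d50000004c00000000000000e4000000e400000120000000c4000000fd000000fd000000f0000000f0000000fa000000fa)
    (nat_lit 0xf907c840c1ec1548c143b21f70e187e43f41c20f587e43c21e10f207c840c20614d8bdc3e61e90da885c3f81de10487ac3f61fd10307b03fc2281588bbc4161ff0e788bc3e41f80f187843ea1d710308184341fe1588bbc7463970e788ac3901f210687fc3961ad17b8c145de2ef0f60f105c02d215205a058e2c718e0bf85942bc14d8aa45622b119607b05042941270b404ce2711510a104fc27e0f487dc72e1ff14a0b483c01fc0e508b83ce1ed0f808103981cc0f9876474620b1410b804141e00e008703aa1d90f007c840820410b87e445622f16805a043822e0f508b84022030f908784482160da870c39e1cf1270a903801ca0b407a83321a7100067838c1ba0ef07083e41f81388b1c3b21ed0d3880c3c01e60e3879438a1810fe07e83901f21338b1c3aa1e70cc88043fc1e0114875c37e1a10f587e43fe1e11420bf83e42040cf08783ae1e510806c037c18810487ac41a1e31510c703c01f010007c84521c70f208403b41da0fe878435a1d713f0af04081cc0dd08583421810ed06203a01d00fd87843961f513f0b284081cc0e3089037e1c50ed06f83a01d0)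
    (nat_lit 0xf91680b405a02d01680b405a02d01680b405a02d01680b405a00f907c8b405a02d01680b405a02d01680b405a02d01680b405a010308183fc5a02d01680b405a02d01680b405a02d01680b405a00f608184501fe2d01680b405a02d01680b405a02d01680b405a01548a6c5622b10f61680b405a02d01680b405a02d01680b405a01828bdc5de2ef1e207b0b405a02d01680b405a02d01680b405a00ec87cc4163a31700a083c05a02d01680b405a02d01680b405a00fb87a43fe3971690a503f81e02d01680b405a02d01680b405a00e186d439e1cf15209383941c00f51680b405a02d01680b405a00fc885c45e22b0b40b4045c21c11707a8b405a02d01680b405a00fd07f03e41c8163899c3ce1d510086643c05a02d01680b405a00e107783f01f216389c43da1d9101869c3cc1e02d01680b405a00f588243c620d18e0a883e01e00f9080038e2291081680b405a00fc87ac3c21ff17f0a104081f210f06783ca1d70d80840b405a00f087ec3ea1cb16509f8398204112071838a1bf0df07683a05a00f087f43ae1ad15e09f839820410b06e83021a10c407683a01d0)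
    (nat_lit 4) (nat_lit 49)
    [[nat_lit 2,nat_lit 3,nat_lit 18,nat_lit 258,nat_lit 0x1000002,nat_lit 17,nat_lit 33,nat_lit 273,nat_lit 0x1011,
    nat_lit 0x10011,nat_lit 0x1000011,nat_lit 257,nat_lit 513,nat_lit 0x1101,nat_lit 0x10101,nat_lit 0x1000101,
    nat_lit 0x10000101,nat_lit 0x1001,nat_lit 0x10001,nat_lit 0x1010001,nat_lit 0x100001,nat_lit 0x1000001,
    nat_lit 0x10000001,nat_lit 0x10000011,nat_lit 0x11000001],[nat_lit 32,nat_lit 272,nat_lit 528,nat_lit 0x1110,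
    nat_lit 0x1000110,nat_lit 0x1010,nat_lit 0x2010,nat_lit 0x10010,nat_lit 0x10020,nat_lit 0x1000010,
    nat_lit 0x10000010],[nat_lit 512,nat_lit 0x1200,nat_lit 0x10000200,nat_lit 0x1100,nat_lit 0x2100,
    nat_lit 0x10001100,nat_lit 0x101100,nat_lit 0x10100,nat_lit 0x10010100,nat_lit 0x100100,nat_lit 0x1000100,
    nat_lit 0x1001100,nat_lit 0x11000100,nat_lit 0x10000100],[nat_lit 0x2000,nat_lit 0x3000,nat_lit 0x10002000,
    nat_lit 0x11000,nat_lit 0x101000,nat_lit 0x1001000,nat_lit 0x10001000],[nat_lit 0x20000,nat_lit 0x110000,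
    nat_lit 0x10010000],[nat_lit 0x200000],[nat_lit 0x2000000,nat_lit 0x11000000],[nat_lit 0x20000000]]
    [.c (nat_lit 1) (nat_lit 2),.c (nat_lit 0) (nat_lit 0x6c009),.c (nat_lit 2) (nat_lit 0x3202),
    .c (nat_lit 0) (nat_lit 0x24003),.r (nat_lit 0xdb3) (nat_lit 6) [nat_lit 0x3525452,nat_lit 0x202001],
    .c (nat_lit 0) (nat_lit 0x64809),.r (nat_lit 0x1698) (nat_lit 11) [nat_lit 0x3020002,nat_lit 0x20000001,
    nat_lit 0x53535402,nat_lit 0x2428052],.c (nat_lit 0) (nat_lit 0x22203),.c (nat_lit 2) (nat_lit 0x303404),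
    .r (nat_lit 0xdb7) (nat_lit 5) [nat_lit 0x53530402,nat_lit 0x3021],
    .r (nat_lit 0xdb6) (nat_lit 10) [nat_lit 0x53530402,nat_lit 0x42424052],.c (nat_lit 0) (nat_lit 0x24003),
    .r (nat_lit 0x140e) (nat_lit 11) [nat_lit 0x2001,nat_lit 0x20001,nat_lit 0x200001,nat_lit 0x2000001,
    nat_lit 0x20000001],.c (nat_lit 0) (nat_lit 0x246005),.r (nat_lit 0xdb6) (nat_lit 10) [nat_lit 0x53530402,
    nat_lit 0x2030042],.r (nat_lit 0xdb7) (nat_lit 5) [nat_lit 0x53530402,nat_lit 0x20220031],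
    .c (nat_lit 0) (nat_lit 0x22003),.c (nat_lit 1) (nat_lit 0x302004),.r (nat_lit 0xdbe) (nat_lit 11) [nat_lit 33,
    nat_lit 0x53530402],.c (nat_lit 0) (nat_lit 0x3000002),.c (nat_lit 0) (nat_lit 0x5352545),
    .r (nat_lit 0x165b) (nat_lit 6) [nat_lit 0x43020052,nat_lit 0x2030042],.c (nat_lit 0) (nat_lit 0x64009),
    .r (nat_lit 0x1698) (nat_lit 11) [nat_lit 0x3020002,nat_lit 0x20000001,nat_lit 0x53535402,nat_lit 0x2424052],
    .r (nat_lit 0xdb6) (nat_lit 10) [nat_lit 0x53530402,nat_lit 0x42420052],.c (nat_lit 2) (nat_lit 2),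
    .c (nat_lit 0) (nat_lit 0x20403),.r (nat_lit 0x168f) (nat_lit 14) [nat_lit 0x303021,nat_lit 0x20000001,
    nat_lit 0x53535402],.c (nat_lit 0) (nat_lit 0x240605),.r (nat_lit 0xdb7) (nat_lit 10) [nat_lit 0x53530402,
    nat_lit 0x42424052],.c (nat_lit 0) (nat_lit 0x460809),.c (nat_lit 2) (nat_lit 0x300202),
    .r (nat_lit 0xdb7) (nat_lit 10) [nat_lit 0x53530402,nat_lit 0x2025042],
    .r (nat_lit 0xdbe) (nat_lit 10) [nat_lit 0x53530402,nat_lit 0x20204031],
    .r (nat_lit 0xdb3) (nat_lit 6) [nat_lit 0x3530452,nat_lit 0x202001],.c (nat_lit 2) (nat_lit 514),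
    .c (nat_lit 3) (nat_lit 2),.r (nat_lit 0x140e) (nat_lit 11) [nat_lit 0x2001,nat_lit 0x20001,nat_lit 0x200001,
    nat_lit 0x2000001,nat_lit 0x20000001],.r (nat_lit 0x168f) (nat_lit 14) [nat_lit 0x300021,nat_lit 0x20000001,
    nat_lit 0x53535402],.c (nat_lit 0) (nat_lit 0x420009),.c (nat_lit 0) (nat_lit 0x420005),
    .c (nat_lit 0) (nat_lit 0x460009),.r (nat_lit 0x1698) (nat_lit 11) [nat_lit 0x3020002,nat_lit 0x20000001,
    nat_lit 0x53535402,nat_lit 0x42424542],.r (nat_lit 0x164b) (nat_lit 4) [nat_lit 0x3001,nat_lit 0x53530402,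
    nat_lit 33],.r (nat_lit 0xdb3) (nat_lit 6) [nat_lit 0x53935442,nat_lit 0x202001],
    .r (nat_lit 0x168f) (nat_lit 14) [nat_lit 0x42424542,nat_lit 0x20000001,nat_lit 0x53535402],
    .r (nat_lit 0xdbe) (nat_lit 10) [nat_lit 0x53530402,nat_lit 33],
    .r (nat_lit 0xdb7) (nat_lit 5) [nat_lit 0x53530402,nat_lit 0x42420052],
    .r (nat_lit 0xdb7) (nat_lit 10) [nat_lit 0x53530402,nat_lit 0x42420052],.c (nat_lit 0) (nat_lit 0x20005),
    .c (nat_lit 4) (nat_lit 2),.c (nat_lit 0) (nat_lit 0xc60009),.c (nat_lit 2) (nat_lit 0x300402),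
    .r (nat_lit 0xdbe) (nat_lit 11) [nat_lit 0x3020042,nat_lit 0x53530402],.c (nat_lit 0) (nat_lit 0x5253545),
    .r (nat_lit 0x165b) (nat_lit 6) [nat_lit 0x20000031,nat_lit 33],.c (nat_lit 0) (nat_lit 0x460009),
    .c (nat_lit 5) (nat_lit 2),.r (nat_lit 0xdb3) (nat_lit 6) [nat_lit 33,nat_lit 0x202001],
    .r (nat_lit 0xdb7) (nat_lit 10) [nat_lit 0x53530402,nat_lit 0x2020042],.c (nat_lit 6) (nat_lit 2),
    .c (nat_lit 7) (nat_lit 2),.r (nat_lit 0xdb3) (nat_lit 6) [nat_lit 0x3535452,nat_lit 0x202001],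
    .c (nat_lit 8) (nat_lit 2)]]

/-- nodes -/
noncomputable def rD8k_37_22 : List RJ :=
  [.l (nat_lit 11) (nat_lit 480) (nat_lit 3) (nat_lit 0xe4000000e4000000ce000000f8000000e4000000e40000011e00000126000000e9000000e1000000e7000000e7000000e9000000e9000000e4000000e4) (nat_lit 0x42000000420000002e0000005800000042000000420000000000000008000000450000003d0000003f0000003f0000003d0000003d0000004200000042)
    (nat_lit 0x1402885a08c144290720dc13e284538a71522c4510a21402805b08c140288720dc14629c528a514e2bc510a211823050078118230670c81122444388b1222444708c16c2d0670a016c2d83c0f01662ec5c8b915e2e45a0b61442905b08c144278720dc13e49c538a514e29c520ae1402885b08c144288720dc172504538a511a254510a21b8370780c81b8370421161b2384788c51c237c6e0f61c83903c0ce1c8390930841c23a48d8ef1d23a47510414e2845d89128249c748e11382b0550aa1181e0538a714627c5988917227c708d9138270510a21602e04e89f14a29c5c88b14a294778c51442a84a0a81542a85289914a29c5c88714e29c8d8f11442a8540941442a84d89915e2c45c89112a29c748df1701e0550aa1702b0528af14e2a45789111a29c748e1160230510aa1602e0538a71442885b08c1442b8820f613e29c4c89914e2bc5009e1442885a08e144290750dc13a29c4d8a514e294510a0)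
    (nat_lit 0x140780f01e03c0780f01e03c0780f01e03c0780f01e0144280f01e03c0780f01e03c0780f01e03c0780f01e01682d8501e03c0780f01e03c0780f01e03c0780f01e01182303c0a03c0780f01e03c0780f01e03c0780f01e0144280460b6144780f01e03c0780f01e03c0780f01e0148288460b613c288f01e03c0780f01e03c0780f01e01c8390670781c8390421e03c0780f01e03c0780f01e01b8370640f01b83708b0843c0780f01e03c0780f01e013e28c448b313e2e46c8e1138780f01e03c0780f01e014229c488bb24e504708e9158270f01e03c0780f01e014e294438b914e29c788ff1542884a1e03c0780f01e014e294458b914a294628ef154288540943c0780f01e015229c488af14e234708e91182c0550a2170780f01e01622bc488b914e2546f8e90f02e0550aa1582e0f01e0144288470b41482886e0ea14e2745289b14a29c501e0144288460b615c2887b10414e27c4c89915e29c4f0a0)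
    (nat_lit 5) (nat_lit 37)
    [[nat_lit 2,nat_lit 258,nat_lit 17,nat_lit 0x1011,nat_lit 257,nat_lit 513,nat_lit 0x1000101,nat_lit 0x1001,
    nat_lit 0x100001,nat_lit 0x1000001,nat_lit 0x10000001],[nat_lit 32,nat_lit 272,nat_lit 0x1110,nat_lit 0x100110,
    nat_lit 0x1010,nat_lit 0x2010,nat_lit 0x101010,nat_lit 0x1001010,nat_lit 0x10001010,nat_lit 0x10010,
    nat_lit 0x100010,nat_lit 0x200010,nat_lit 0x1100010,nat_lit 0x1000010,nat_lit 0x10000010],[nat_lit 512,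
    nat_lit 768,nat_lit 0x1000200,nat_lit 0x1100,nat_lit 0x100100,nat_lit 0x1000100,nat_lit 0x1010100,
    nat_lit 0x10000100],[nat_lit 0x2000,nat_lit 0x3000,nat_lit 0x11000,nat_lit 0x1001000,nat_lit 0x10001000],
    [nat_lit 0x20000,nat_lit 0x30000,nat_lit 0x1020000,nat_lit 0x110000,nat_lit 0x1010000,nat_lit 0x10010000],
    [nat_lit 0x200000,nat_lit 0x1100000,nat_lit 0x10100000],[nat_lit 0x2000000,nat_lit 0x11000000],
    [nat_lit 0x20000000]]
    [.c (nat_lit 1) (nat_lit 2),.r (nat_lit 0x165b) (nat_lit 14) [nat_lit 0xc0500041,nat_lit 0x218861],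
    .c (nat_lit 0) (nat_lit 0x4020003),.r (nat_lit 0xdb8) (nat_lit 14) [nat_lit 0x84210061,nat_lit 0x146518841],
    .c (nat_lit 1) (nat_lit 0x310002),.r (nat_lit 0x165b) (nat_lit 14) [nat_lit 0xc6300041,nat_lit 0x4018861],
    .r (nat_lit 0x1698) (nat_lit 15) [nat_lit 0x84200061,nat_lit 0x10001,nat_lit 0xc0318801,nat_lit 0x6000001],
    .r (nat_lit 0xdb2) (nat_lit 2) [nat_lit 0xc6000861,nat_lit 0x84200001],
    .r (nat_lit 0xdb8) (nat_lit 14) [nat_lit 0x4300041,nat_lit 0xc6000861],.c (nat_lit 0) (nat_lit 0x4010003),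
    .c (nat_lit 0) (nat_lit 0x4010003),.c (nat_lit 2) (nat_lit 2),.c (nat_lit 0) (nat_lit 0x4400005),
    .r (nat_lit 0xdb8) (nat_lit 14) [nat_lit 0x88010061,nat_lit 0x14a318841],
    .r (nat_lit 0xdb2) (nat_lit 2) [nat_lit 0x14a318841,nat_lit 0x84200001],
    .r (nat_lit 0xdac) (nat_lit 5) [nat_lit 0x10001,nat_lit 0xc0318801,nat_lit 65,nat_lit 0xc6318801],
    .r (nat_lit 0xdb8) (nat_lit 14) [nat_lit 0x88020062,nat_lit 0x1ca529042],.c (nat_lit 1) (nat_lit 0x4020803),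
    .r (nat_lit 0xdc3) (nat_lit 11) [nat_lit 0xc6018801,nat_lit 0x84010061],
    .r (nat_lit 0x166b) (nat_lit 1) [nat_lit 0x10001,nat_lit 0x146328841,nat_lit 0x84010061,nat_lit 0xc0028081,
    nat_lit 0x80210061],.r (nat_lit 0x165b) (nat_lit 14) [nat_lit 0xc0318861,nat_lit 65],
    .r (nat_lit 0xdbe) (nat_lit 11) [nat_lit 0xc6018801,nat_lit 65],
    .r (nat_lit 0xdb2) (nat_lit 2) [nat_lit 0x1ca529042,nat_lit 0x84200001],
    .r (nat_lit 0xdb7) (nat_lit 6) [nat_lit 0xc6018801,nat_lit 0x84010061],.c (nat_lit 0) (nat_lit 0x4000005),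
    .c (nat_lit 0) (nat_lit 0x4000003),.c (nat_lit 3) (nat_lit 2),
    .r (nat_lit 0x165b) (nat_lit 14) [nat_lit 0xca000041,nat_lit 0x8318861],
    .r (nat_lit 0x1698) (nat_lit 15) [nat_lit 0x88000061,nat_lit 0x10001,nat_lit 0xc0318801,nat_lit 0x6000001],
    .r (nat_lit 0xdb2) (nat_lit 2) [nat_lit 0xc0300861,nat_lit 0x84200001],
    .r (nat_lit 0xdb8) (nat_lit 14) [nat_lit 65,nat_lit 0xc0300861],.c (nat_lit 0) (nat_lit 0x4200003),
    .c (nat_lit 0) (nat_lit 0x4010862),.c (nat_lit 0) (nat_lit 0x4200003),.c (nat_lit 4) (nat_lit 2),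
    .r (nat_lit 0x14cd) (nat_lit 14) [nat_lit 65,nat_lit 0x30061,nat_lit 0x4300001,nat_lit 0xc6018801],
    .r (nat_lit 0xdb8) (nat_lit 14) [nat_lit 0xc0300861,nat_lit 65],.r (nat_lit 0x165b) (nat_lit 2) [nat_lit 0x10061,
    nat_lit 65],.r (nat_lit 0xdbe) (nat_lit 13) [nat_lit 65,nat_lit 0xc6018801],.c (nat_lit 5) (nat_lit 2),
    .c (nat_lit 0) (nat_lit 0x24c631a4),.c (nat_lit 0) (nat_lit 0xc4210a2),.r (nat_lit 0xdb2) (nat_lit 2) [nat_lit 65,
    nat_lit 0x84200001],.c (nat_lit 0) (nat_lit 0x6318c43),.c (nat_lit 0) (nat_lit 0x6318c43),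
    .c (nat_lit 6) (nat_lit 2),.r (nat_lit 0xdb2) (nat_lit 10) [nat_lit 65,nat_lit 0x84200001],
    .r (nat_lit 0x164b) (nat_lit 14) [nat_lit 0x4300001,nat_lit 0xc6018801,nat_lit 65],.c (nat_lit 7) (nat_lit 2),
    .c (nat_lit 0) (nat_lit 0x18003),.c (nat_lit 8) (nat_lit 2)]]

/-- nodes -/
noncomputable def rD8k_37_23 : List RJ :=
  [.s (nat_lit 14) (nat_lit 0x960) (nat_lit 3) (nat_lit 0x4d1000004d1000004350000043500000465000004650000049e0000049e0000046500000465000004b6000004b6000004c8000004c80000060400000604) (nat_lit 0x13300000133000001cf000001cf0000019f0000019f00000166000001660000019f0000019f0000014e0000014e0000013c0000013c0000000000000000)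
    (nat_lit 0xcc839e0b003020c983320dac3590cc83260e5439b1b943d113444d108c03320c503020c801b20e6c3ad0cf83320e8439b15dc26313444d10c083020f983d409502840b3c2e109f826610642db0be42db12842530c502c009b03e609982960b842cf0a1029c0a7c2ed09d42ed10d441706c83320a582840b182c00be432f0b002b40c8c3290d1c371129c4e90c8032609982540b182c60c442ff0b182ba0c5c3410ca437711dc4b90eb43590b3c2e10bfc32f0d103380b542ed0c083500c3836212a849e0e6c36b0b842cf0c442f90c383440bfc2ff0c9831a0d8836212a849e0cc83260a702660ae82b40bfc2ed0bf02f00c5c3170ca435311944650cf83320a1027e0b182c00bfc2d50c202fc0c8c3170c4435f11344650e6c39b0bb42db0d043290c683500c5c3170cc83260de836e12d84ce0e843950a7c4190c5c3230c983020c8c3170da03320de837a11e84b6098c3d10bb42db0ddc3710d883620d7c3530de836e0e3038c12d84c815dc6e509d42f90ca43470d8830e0c443290de837a0e3038c13204c813444d1105c25312e44e9127849e119446512d84ce13204c80ad060413444d110d44a111dc4a712a84aa113446511e84b613204b618102b4)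
    (nat_lit 0xcc896025809602580960258096025809602580960258096025809600e7833225809602580960258096025809602580960258096025809600b003140f989602580960258096025809602580960258096025809600c083020f503e62580960258096025809602580960258096025809600c9832009502660b18960258096025809602580960258096025809600cc81b20a102960b002c6258096025809602580960258096025809600dac39b0b3c2e10be43110d1096025809602580960258096025809600d643ad0b842cf0cbc2ff0ce034425809602580960258096025809600cc833e09f82840b002c60b542ff0bf09602580960258096025809600c98332099829c0ad02ba0bb42ff0bc02fc2580960258096025809600e543a1106429f0c8c3170c083260c5c3230cc8960258096025809600e6c39b0b6c2ed0ca43410d4031a0c5c3170c983322580960258096015dc4db0be42750d1c3290c383620ca43110de837a0e3096025809600f442630b6c2ed0dc43770d883620d4c35f0db837a0e3038c258096013444d11284435129c47712a84aa119444d12d847a12d84c80ad096013444d1094c41713a44b9127849e119446513384b613204c818102b4)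
    (nat_lit 5) (nat_lit 61)
    [[nat_lit 0,nat_lit 4],[nat_lit 0,nat_lit 5],[nat_lit 0,nat_lit 6,nat_lit 13],[nat_lit 0,nat_lit 7,nat_lit 13],
    [nat_lit 0,nat_lit 8],[nat_lit 0,nat_lit 9],[nat_lit 0,nat_lit 13,nat_lit 6],[nat_lit 0,nat_lit 13,nat_lit 7],
    [nat_lit 1,nat_lit 4],[nat_lit 1,nat_lit 5],[nat_lit 1,nat_lit 6,nat_lit 12],[nat_lit 1,nat_lit 7,nat_lit 12],
    [nat_lit 1,nat_lit 8],[nat_lit 1,nat_lit 9],[nat_lit 1,nat_lit 12,nat_lit 6],[nat_lit 1,nat_lit 12,nat_lit 7],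
    [nat_lit 2,nat_lit 7,nat_lit 10],[nat_lit 2,nat_lit 7,nat_lit 11],[nat_lit 2,nat_lit 11,nat_lit 6],[nat_lit 2,
    nat_lit 11,nat_lit 7],[nat_lit 2,nat_lit 14],[nat_lit 2,nat_lit 15],[nat_lit 3,nat_lit 6,nat_lit 10],[nat_lit 3,
    nat_lit 7,nat_lit 10],[nat_lit 3,nat_lit 10,nat_lit 6],[nat_lit 3,nat_lit 11,nat_lit 6],[nat_lit 3,nat_lit 14],
    [nat_lit 3,nat_lit 15],[nat_lit 4,nat_lit 4,nat_lit 11],[nat_lit 4,nat_lit 5,nat_lit 10],[nat_lit 4,nat_lit 5,
    nat_lit 11],[nat_lit 4,nat_lit 8,nat_lit 10],[nat_lit 4,nat_lit 8,nat_lit 11],[nat_lit 4,nat_lit 9,nat_lit 10],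
    [nat_lit 4,nat_lit 9,nat_lit 11],[nat_lit 4,nat_lit 10,nat_lit 5],[nat_lit 4,nat_lit 10,nat_lit 8],[nat_lit 4,
    nat_lit 10,nat_lit 9],[nat_lit 4,nat_lit 11,nat_lit 4],[nat_lit 4,nat_lit 11,nat_lit 5],[nat_lit 4,nat_lit 11,
    nat_lit 8],[nat_lit 4,nat_lit 11,nat_lit 9],[nat_lit 4,nat_lit 12,nat_lit 14],[nat_lit 4,nat_lit 12,nat_lit 15],
    [nat_lit 4,nat_lit 13,nat_lit 14],[nat_lit 4,nat_lit 13,nat_lit 15],[nat_lit 4,nat_lit 15,nat_lit 13],[nat_lit 5,
    nat_lit 5,nat_lit 10],[nat_lit 5,nat_lit 8,nat_lit 10],[nat_lit 5,nat_lit 8,nat_lit 11],[nat_lit 5,nat_lit 9,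
    nat_lit 10],[nat_lit 5,nat_lit 9,nat_lit 11],[nat_lit 5,nat_lit 10,nat_lit 5],[nat_lit 5,nat_lit 10,nat_lit 8],
    [nat_lit 5,nat_lit 10,nat_lit 9],[nat_lit 5,nat_lit 11,nat_lit 8],[nat_lit 5,nat_lit 11,nat_lit 9],[nat_lit 5,
    nat_lit 12,nat_lit 14],[nat_lit 5,nat_lit 14,nat_lit 12],[nat_lit 5,nat_lit 14,nat_lit 13],[nat_lit 5,nat_lit 15,
    nat_lit 12],[nat_lit 5,nat_lit 15,nat_lit 13],[nat_lit 8,nat_lit 8,nat_lit 10],[nat_lit 8,nat_lit 9,nat_lit 10],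
    [nat_lit 8,nat_lit 9,nat_lit 11],[nat_lit 8,nat_lit 10,nat_lit 8],[nat_lit 8,nat_lit 10,nat_lit 9],[nat_lit 8,
    nat_lit 11,nat_lit 9],[nat_lit 8,nat_lit 12,nat_lit 14],[nat_lit 8,nat_lit 12,nat_lit 15],[nat_lit 8,nat_lit 13,
    nat_lit 15],[nat_lit 8,nat_lit 14,nat_lit 12],[nat_lit 8,nat_lit 15,nat_lit 12],[nat_lit 8,nat_lit 15,nat_lit 13],
    [nat_lit 9,nat_lit 9,nat_lit 11],[nat_lit 9,nat_lit 11,nat_lit 9],[nat_lit 9,nat_lit 12,nat_lit 14],[nat_lit 9,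
    nat_lit 13,nat_lit 14],[nat_lit 9,nat_lit 13,nat_lit 15],[nat_lit 9,nat_lit 14,nat_lit 12],[nat_lit 9,nat_lit 14,
    nat_lit 13],[nat_lit 9,nat_lit 15,nat_lit 13]]
    [nat_lit 260,nat_lit 261,nat_lit 0x106d,nat_lit 0x107d,nat_lit 264,nat_lit 265,nat_lit 0x10d6,nat_lit 0x10d7,
    nat_lit 276,nat_lit 277,nat_lit 0x116c,nat_lit 0x117c,nat_lit 280,nat_lit 281,nat_lit 0x11c6,nat_lit 0x11c7,
    nat_lit 0x127a,nat_lit 0x127b,nat_lit 0x12b6,nat_lit 0x12b7,nat_lit 302,nat_lit 303,nat_lit 0x136a,nat_lit 0x137a,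
    nat_lit 0x13a6,nat_lit 0x13b6,nat_lit 318,nat_lit 319,nat_lit 0x144b,nat_lit 0x145a,nat_lit 0x145b,nat_lit 0x148a,
    nat_lit 0x148b,nat_lit 0x149a,nat_lit 0x149b,nat_lit 0x14a5,nat_lit 0x14a8,nat_lit 0x14a9,nat_lit 0x14b4,
    nat_lit 0x14b5,nat_lit 0x14b8,nat_lit 0x14b9,nat_lit 0x14ce,nat_lit 0x14cf,nat_lit 0x14de,nat_lit 0x14df,
    nat_lit 0x14fd,nat_lit 0x155a,nat_lit 0x158a,nat_lit 0x158b,nat_lit 0x159a,nat_lit 0x159b,nat_lit 0x15a5,
    nat_lit 0x15a8,nat_lit 0x15a9,nat_lit 0x15b8,nat_lit 0x15b9,nat_lit 0x15ce,nat_lit 0x15ec,nat_lit 0x15ed,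
    nat_lit 0x15fc,nat_lit 0x15fd,nat_lit 0x188a,nat_lit 0x189a,nat_lit 0x189b,nat_lit 0x18a8,nat_lit 0x18a9,
    nat_lit 0x18b9,nat_lit 0x18ce,nat_lit 0x18cf,nat_lit 0x18df,nat_lit 0x18ec,nat_lit 0x18fc,nat_lit 0x18fd,
    nat_lit 0x199b,nat_lit 0x19b9,nat_lit 0x19ce,nat_lit 0x19de,nat_lit 0x19df,nat_lit 0x19ec,nat_lit 0x19ed,
    nat_lit 0x19fd]
    [[[nat_lit 0,nat_lit 4],[nat_lit 0,nat_lit 5],[nat_lit 0,nat_lit 6,nat_lit 13],[nat_lit 0,nat_lit 7,nat_lit 13],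
    [nat_lit 0,nat_lit 8],[nat_lit 0,nat_lit 9],[nat_lit 0,nat_lit 13,nat_lit 6],[nat_lit 0,nat_lit 13,nat_lit 7],
    [nat_lit 1,nat_lit 4],[nat_lit 1,nat_lit 5],[nat_lit 1,nat_lit 6,nat_lit 12],[nat_lit 1,nat_lit 7,nat_lit 12]],
    [[nat_lit 1,nat_lit 8],[nat_lit 1,nat_lit 9],[nat_lit 1,nat_lit 12,nat_lit 6],[nat_lit 1,nat_lit 12,nat_lit 7],
    [nat_lit 2,nat_lit 7,nat_lit 10],[nat_lit 2,nat_lit 7,nat_lit 11],[nat_lit 2,nat_lit 11,nat_lit 6],[nat_lit 2,
    nat_lit 11,nat_lit 7],[nat_lit 2,nat_lit 14],[nat_lit 2,nat_lit 15],[nat_lit 3,nat_lit 6,nat_lit 10],[nat_lit 3,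
    nat_lit 7,nat_lit 10]],[[nat_lit 3,nat_lit 10,nat_lit 6],[nat_lit 3,nat_lit 11,nat_lit 6],[nat_lit 3,nat_lit 14],
    [nat_lit 3,nat_lit 15],[nat_lit 4,nat_lit 0],[nat_lit 4,nat_lit 1],[nat_lit 4,nat_lit 4,nat_lit 11],[nat_lit 4,
    nat_lit 5,nat_lit 10],[nat_lit 4,nat_lit 5,nat_lit 11],[nat_lit 4,nat_lit 8,nat_lit 10],[nat_lit 4,nat_lit 8,
    nat_lit 11],[nat_lit 4,nat_lit 9,nat_lit 10]],[[nat_lit 4,nat_lit 9,nat_lit 11],[nat_lit 4,nat_lit 10,nat_lit 5],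
    [nat_lit 4,nat_lit 10,nat_lit 8],[nat_lit 4,nat_lit 10,nat_lit 9],[nat_lit 4,nat_lit 11,nat_lit 4],[nat_lit 4,
    nat_lit 11,nat_lit 5],[nat_lit 4,nat_lit 11,nat_lit 8],[nat_lit 4,nat_lit 11,nat_lit 9],[nat_lit 4,nat_lit 12,
    nat_lit 14],[nat_lit 4,nat_lit 12,nat_lit 15],[nat_lit 4,nat_lit 13,nat_lit 14],[nat_lit 4,nat_lit 13,
    nat_lit 15]],[[nat_lit 4,nat_lit 15,nat_lit 13],[nat_lit 5,nat_lit 0],[nat_lit 5,nat_lit 1],[nat_lit 5,nat_lit 4,
    nat_lit 10],[nat_lit 5,nat_lit 4,nat_lit 11],[nat_lit 5,nat_lit 5,nat_lit 10],[nat_lit 5,nat_lit 8,nat_lit 10],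
    [nat_lit 5,nat_lit 8,nat_lit 11],[nat_lit 5,nat_lit 9,nat_lit 10],[nat_lit 5,nat_lit 9,nat_lit 11],[nat_lit 5,
    nat_lit 10,nat_lit 4],[nat_lit 5,nat_lit 10,nat_lit 5]],[[nat_lit 5,nat_lit 10,nat_lit 8],[nat_lit 5,nat_lit 10,
    nat_lit 9],[nat_lit 5,nat_lit 11,nat_lit 4],[nat_lit 5,nat_lit 11,nat_lit 8],[nat_lit 5,nat_lit 11,nat_lit 9],
    [nat_lit 5,nat_lit 12,nat_lit 14],[nat_lit 5,nat_lit 14,nat_lit 12],[nat_lit 5,nat_lit 14,nat_lit 13],[nat_lit 5,
    nat_lit 15,nat_lit 12],[nat_lit 5,nat_lit 15,nat_lit 13],[nat_lit 6,nat_lit 0,nat_lit 13],[nat_lit 6,nat_lit 1,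
    nat_lit 12]],[[nat_lit 6,nat_lit 2,nat_lit 11],[nat_lit 6,nat_lit 3,nat_lit 10],[nat_lit 6,nat_lit 3,nat_lit 11],
    [nat_lit 6,nat_lit 10,nat_lit 3],[nat_lit 6,nat_lit 12,nat_lit 1],[nat_lit 6,nat_lit 13,nat_lit 0],[nat_lit 7,
    nat_lit 0,nat_lit 13],[nat_lit 7,nat_lit 1,nat_lit 12],[nat_lit 7,nat_lit 2,nat_lit 11],[nat_lit 7,nat_lit 10,
    nat_lit 2],[nat_lit 7,nat_lit 10,nat_lit 3],[nat_lit 7,nat_lit 11,nat_lit 2]],[[nat_lit 7,nat_lit 12,nat_lit 1],
    [nat_lit 7,nat_lit 13,nat_lit 0],[nat_lit 8,nat_lit 0],[nat_lit 8,nat_lit 1],[nat_lit 8,nat_lit 4,nat_lit 10],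
    [nat_lit 8,nat_lit 4,nat_lit 11],[nat_lit 8,nat_lit 5,nat_lit 10],[nat_lit 8,nat_lit 5,nat_lit 11],[nat_lit 8,
    nat_lit 8,nat_lit 10],[nat_lit 8,nat_lit 9,nat_lit 10],[nat_lit 8,nat_lit 9,nat_lit 11],[nat_lit 8,nat_lit 10,
    nat_lit 4]],[[nat_lit 8,nat_lit 10,nat_lit 5],[nat_lit 8,nat_lit 10,nat_lit 8],[nat_lit 8,nat_lit 10,nat_lit 9],
    [nat_lit 8,nat_lit 11,nat_lit 4],[nat_lit 8,nat_lit 11,nat_lit 5],[nat_lit 8,nat_lit 11,nat_lit 9],[nat_lit 8,
    nat_lit 12,nat_lit 14],[nat_lit 8,nat_lit 12,nat_lit 15],[nat_lit 8,nat_lit 13,nat_lit 15],[nat_lit 8,nat_lit 14,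
    nat_lit 12],[nat_lit 8,nat_lit 15,nat_lit 12],[nat_lit 8,nat_lit 15,nat_lit 13]],[[nat_lit 9,nat_lit 0],
    [nat_lit 9,nat_lit 1],[nat_lit 9,nat_lit 4,nat_lit 10],[nat_lit 9,nat_lit 4,nat_lit 11],[nat_lit 9,nat_lit 5,
    nat_lit 10],[nat_lit 9,nat_lit 5,nat_lit 11],[nat_lit 9,nat_lit 8,nat_lit 10],[nat_lit 9,nat_lit 8,nat_lit 11],
    [nat_lit 9,nat_lit 9,nat_lit 11],[nat_lit 9,nat_lit 10,nat_lit 4],[nat_lit 9,nat_lit 10,nat_lit 5],[nat_lit 9,
    nat_lit 10,nat_lit 8]],[[nat_lit 9,nat_lit 11,nat_lit 4],[nat_lit 9,nat_lit 11,nat_lit 5],[nat_lit 9,nat_lit 11,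
    nat_lit 8],[nat_lit 9,nat_lit 11,nat_lit 9],[nat_lit 9,nat_lit 12,nat_lit 14],[nat_lit 9,nat_lit 13,nat_lit 14],
    [nat_lit 9,nat_lit 13,nat_lit 15],[nat_lit 9,nat_lit 14,nat_lit 12],[nat_lit 9,nat_lit 14,nat_lit 13],[nat_lit 9,
    nat_lit 15,nat_lit 13],[nat_lit 10,nat_lit 2,nat_lit 7],[nat_lit 10,nat_lit 3,nat_lit 6]],[[nat_lit 10,nat_lit 3,
    nat_lit 7],[nat_lit 10,nat_lit 4,nat_lit 5],[nat_lit 10,nat_lit 4,nat_lit 8],[nat_lit 10,nat_lit 4,nat_lit 9],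
    [nat_lit 10,nat_lit 5,nat_lit 4],[nat_lit 10,nat_lit 5,nat_lit 5],[nat_lit 10,nat_lit 5,nat_lit 8],[nat_lit 10,
    nat_lit 5,nat_lit 9],[nat_lit 10,nat_lit 6,nat_lit 3],[nat_lit 10,nat_lit 8,nat_lit 4],[nat_lit 10,nat_lit 8,
    nat_lit 5],[nat_lit 10,nat_lit 8,nat_lit 8]],[[nat_lit 10,nat_lit 8,nat_lit 9],[nat_lit 10,nat_lit 9,nat_lit 4],
    [nat_lit 10,nat_lit 9,nat_lit 5],[nat_lit 10,nat_lit 9,nat_lit 8],[nat_lit 11,nat_lit 2,nat_lit 7],[nat_lit 11,
    nat_lit 4,nat_lit 4],[nat_lit 11,nat_lit 4,nat_lit 5],[nat_lit 11,nat_lit 4,nat_lit 8],[nat_lit 11,nat_lit 4,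
    nat_lit 9],[nat_lit 11,nat_lit 5,nat_lit 4],[nat_lit 11,nat_lit 5,nat_lit 8],[nat_lit 11,nat_lit 5,nat_lit 9]],
    [[nat_lit 11,nat_lit 6,nat_lit 2],[nat_lit 11,nat_lit 6,nat_lit 3],[nat_lit 11,nat_lit 7,nat_lit 2],[nat_lit 11,
    nat_lit 8,nat_lit 4],[nat_lit 11,nat_lit 8,nat_lit 5],[nat_lit 11,nat_lit 8,nat_lit 9],[nat_lit 11,nat_lit 9,
    nat_lit 4],[nat_lit 11,nat_lit 9,nat_lit 5],[nat_lit 11,nat_lit 9,nat_lit 8],[nat_lit 11,nat_lit 9,nat_lit 9],
    [nat_lit 12,nat_lit 1,nat_lit 6],[nat_lit 12,nat_lit 1,nat_lit 7]],[[nat_lit 12,nat_lit 5,nat_lit 14],[nat_lit 12,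
    nat_lit 5,nat_lit 15],[nat_lit 12,nat_lit 6,nat_lit 1],[nat_lit 12,nat_lit 7,nat_lit 1],[nat_lit 12,nat_lit 8,
    nat_lit 14],[nat_lit 12,nat_lit 8,nat_lit 15],[nat_lit 12,nat_lit 9,nat_lit 14],[nat_lit 12,nat_lit 14,nat_lit 4],
    [nat_lit 12,nat_lit 14,nat_lit 5],[nat_lit 12,nat_lit 14,nat_lit 8],[nat_lit 12,nat_lit 14,nat_lit 9],[nat_lit 12,
    nat_lit 15,nat_lit 4]],[[nat_lit 12,nat_lit 15,nat_lit 8],[nat_lit 13,nat_lit 0,nat_lit 6],[nat_lit 13,nat_lit 0,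
    nat_lit 7],[nat_lit 13,nat_lit 4,nat_lit 15],[nat_lit 13,nat_lit 5,nat_lit 14],[nat_lit 13,nat_lit 5,nat_lit 15],
    [nat_lit 13,nat_lit 6,nat_lit 0],[nat_lit 13,nat_lit 7,nat_lit 0],[nat_lit 13,nat_lit 8,nat_lit 15],[nat_lit 13,
    nat_lit 9,nat_lit 14],[nat_lit 13,nat_lit 9,nat_lit 15],[nat_lit 13,nat_lit 14,nat_lit 4]],[[nat_lit 13,
    nat_lit 14,nat_lit 9],[nat_lit 13,nat_lit 15,nat_lit 4],[nat_lit 13,nat_lit 15,nat_lit 8],[nat_lit 13,nat_lit 15,
    nat_lit 9],[nat_lit 14,nat_lit 2],[nat_lit 14,nat_lit 3],[nat_lit 14,nat_lit 4,nat_lit 12],[nat_lit 14,nat_lit 4,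
    nat_lit 13],[nat_lit 14,nat_lit 5,nat_lit 12],[nat_lit 14,nat_lit 8,nat_lit 12],[nat_lit 14,nat_lit 9,nat_lit 12],
    [nat_lit 14,nat_lit 9,nat_lit 13]],[[nat_lit 14,nat_lit 12,nat_lit 5],[nat_lit 14,nat_lit 12,nat_lit 8],
    [nat_lit 14,nat_lit 12,nat_lit 9],[nat_lit 14,nat_lit 13,nat_lit 5],[nat_lit 14,nat_lit 13,nat_lit 9],[nat_lit 15,
    nat_lit 2],[nat_lit 15,nat_lit 3],[nat_lit 15,nat_lit 4,nat_lit 12],[nat_lit 15,nat_lit 4,nat_lit 13],[nat_lit 15,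
    nat_lit 8,nat_lit 12],[nat_lit 15,nat_lit 8,nat_lit 13],[nat_lit 15,nat_lit 9,nat_lit 13]],[[nat_lit 15,
    nat_lit 12,nat_lit 5],[nat_lit 15,nat_lit 12,nat_lit 8],[nat_lit 15,nat_lit 13,nat_lit 4],[nat_lit 15,nat_lit 13,
    nat_lit 5],[nat_lit 15,nat_lit 13,nat_lit 8],[nat_lit 15,nat_lit 13,nat_lit 9]]]
    [[nat_lit 28,nat_lit 49,nat_lit 77,nat_lit 85,nat_lit 86,nat_lit 108,nat_lit 186,nat_lit 187,nat_lit 29,
    nat_lit 50,nat_lit 76,nat_lit 84],[nat_lit 87,nat_lit 109,nat_lit 170,nat_lit 171,nat_lit 81,nat_lit 83,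
    nat_lit 156,nat_lit 158,nat_lit 196,nat_lit 209,nat_lit 75,nat_lit 82],[nat_lit 140,nat_lit 157,nat_lit 197,
    nat_lit 210,nat_lit 0,nat_lit 8,nat_lit 40,nat_lit 58,nat_lit 62,nat_lit 95,nat_lit 99,nat_lit 117],[nat_lit 120,
    nat_lit 136,nat_lit 141,nat_lit 145,nat_lit 149,nat_lit 153,nat_lit 159,nat_lit 162,nat_lit 175,nat_lit 179,
    nat_lit 191,nat_lit 193],[nat_lit 218,nat_lit 1,nat_lit 9,nat_lit 37,nat_lit 41,nat_lit 59,nat_lit 96,nat_lit 100,
    nat_lit 118,nat_lit 121,nat_lit 133,nat_lit 137],[nat_lit 142,nat_lit 146,nat_lit 150,nat_lit 160,nat_lit 163,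
    nat_lit 176,nat_lit 204,nat_lit 207,nat_lit 216,nat_lit 219,nat_lit 6,nat_lit 14],[nat_lit 18,nat_lit 24,
    nat_lit 25,nat_lit 131,nat_lit 166,nat_lit 181,nat_lit 7,nat_lit 15,nat_lit 19,nat_lit 130,nat_lit 132,
    nat_lit 148],[nat_lit 167,nat_lit 182,nat_lit 4,nat_lit 12,nat_lit 38,nat_lit 42,nat_lit 60,nat_lit 63,nat_lit 97,
    nat_lit 119,nat_lit 122,nat_lit 134],[nat_lit 138,nat_lit 143,nat_lit 147,nat_lit 151,nat_lit 154,nat_lit 164,
    nat_lit 177,nat_lit 180,nat_lit 194,nat_lit 205,nat_lit 217,nat_lit 220],[nat_lit 5,nat_lit 13,nat_lit 39,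
    nat_lit 43,nat_lit 61,nat_lit 64,nat_lit 98,nat_lit 101,nat_lit 123,nat_lit 135,nat_lit 139,nat_lit 144],
    [nat_lit 152,nat_lit 155,nat_lit 161,nat_lit 165,nat_lit 178,nat_lit 192,nat_lit 195,nat_lit 206,nat_lit 208,
    nat_lit 221,nat_lit 16,nat_lit 22],[nat_lit 23,nat_lit 31,nat_lit 33,nat_lit 35,nat_lit 51,nat_lit 53,nat_lit 54,
    nat_lit 56,nat_lit 73,nat_lit 88,nat_lit 90,nat_lit 92],[nat_lit 93,nat_lit 110,nat_lit 112,nat_lit 114,
    nat_lit 17,nat_lit 30,nat_lit 32,nat_lit 34,nat_lit 36,nat_lit 52,nat_lit 55,nat_lit 57],[nat_lit 72,nat_lit 74,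
    nat_lit 80,nat_lit 89,nat_lit 91,nat_lit 94,nat_lit 111,nat_lit 113,nat_lit 115,nat_lit 116,nat_lit 10,
    nat_lit 11],[nat_lit 66,nat_lit 68,nat_lit 71,nat_lit 79,nat_lit 105,nat_lit 106,nat_lit 127,nat_lit 198,
    nat_lit 200,nat_lit 201,nat_lit 202,nat_lit 211],[nat_lit 213,nat_lit 2,nat_lit 3,nat_lit 48,nat_lit 67,
    nat_lit 69,nat_lit 70,nat_lit 78,nat_lit 107,nat_lit 128,nat_lit 129,nat_lit 199],[nat_lit 203,nat_lit 212,
    nat_lit 214,nat_lit 215,nat_lit 20,nat_lit 26,nat_lit 44,nat_lit 46,nat_lit 65,nat_lit 102,nat_lit 124,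
    nat_lit 125],[nat_lit 168,nat_lit 172,nat_lit 174,nat_lit 184,nat_lit 189,nat_lit 21,nat_lit 27,nat_lit 45,
    nat_lit 47,nat_lit 103,nat_lit 104,nat_lit 126],[nat_lit 169,nat_lit 173,nat_lit 183,nat_lit 185,nat_lit 188,
    nat_lit 190]]
    [[nat_lit 28,nat_lit 49,nat_lit 181,nat_lit 182,nat_lit 86,nat_lit 108,nat_lit 70,nat_lit 78,nat_lit 29,
    nat_lit 50,nat_lit 166,nat_lit 167],[nat_lit 87,nat_lit 109,nat_lit 71,nat_lit 79,nat_lit 130,nat_lit 148,
    nat_lit 72,nat_lit 80,nat_lit 196,nat_lit 209,nat_lit 131,nat_lit 132],[nat_lit 73,nat_lit 74,nat_lit 197,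
    nat_lit 210,nat_lit 0,nat_lit 8,nat_lit 149,nat_lit 133,nat_lit 150,nat_lit 134,nat_lit 151,nat_lit 135],
    [nat_lit 152,nat_lit 51,nat_lit 88,nat_lit 110,nat_lit 30,nat_lit 52,nat_lit 89,nat_lit 111,nat_lit 198,
    nat_lit 211,nat_lit 199,nat_lit 212],[nat_lit 183,nat_lit 1,nat_lit 9,nat_lit 136,nat_lit 153,nat_lit 137,
    nat_lit 138,nat_lit 154,nat_lit 139,nat_lit 155,nat_lit 31,nat_lit 53],[nat_lit 90,nat_lit 112,nat_lit 32,
    nat_lit 91,nat_lit 113,nat_lit 200,nat_lit 168,nat_lit 184,nat_lit 169,nat_lit 185,nat_lit 186,nat_lit 170],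
    [nat_lit 156,nat_lit 140,nat_lit 157,nat_lit 22,nat_lit 10,nat_lit 2,nat_lit 187,nat_lit 171,nat_lit 158,
    nat_lit 16,nat_lit 23,nat_lit 17],[nat_lit 11,nat_lit 3,nat_lit 4,nat_lit 12,nat_lit 141,nat_lit 159,nat_lit 142,
    nat_lit 160,nat_lit 143,nat_lit 144,nat_lit 161,nat_lit 33],[nat_lit 54,nat_lit 92,nat_lit 114,nat_lit 34,
    nat_lit 55,nat_lit 115,nat_lit 201,nat_lit 213,nat_lit 214,nat_lit 172,nat_lit 173,nat_lit 188],[nat_lit 5,
    nat_lit 13,nat_lit 145,nat_lit 162,nat_lit 146,nat_lit 163,nat_lit 147,nat_lit 164,nat_lit 165,nat_lit 35,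
    nat_lit 56,nat_lit 93],[nat_lit 36,nat_lit 57,nat_lit 94,nat_lit 116,nat_lit 202,nat_lit 203,nat_lit 215,
    nat_lit 174,nat_lit 189,nat_lit 190,nat_lit 81,nat_lit 75],[nat_lit 82,nat_lit 58,nat_lit 95,nat_lit 117,
    nat_lit 37,nat_lit 59,nat_lit 96,nat_lit 118,nat_lit 24,nat_lit 38,nat_lit 60,nat_lit 97],[nat_lit 119,nat_lit 39,
    nat_lit 61,nat_lit 98,nat_lit 83,nat_lit 40,nat_lit 62,nat_lit 99,nat_lit 120,nat_lit 41,nat_lit 100,nat_lit 121],
    [nat_lit 18,nat_lit 25,nat_lit 19,nat_lit 42,nat_lit 63,nat_lit 122,nat_lit 43,nat_lit 64,nat_lit 101,nat_lit 123,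
    nat_lit 76,nat_lit 84],[nat_lit 204,nat_lit 216,nat_lit 14,nat_lit 15,nat_lit 205,nat_lit 217,nat_lit 206,
    nat_lit 44,nat_lit 65,nat_lit 102,nat_lit 124,nat_lit 45],[nat_lit 103,nat_lit 77,nat_lit 85,nat_lit 218,
    nat_lit 207,nat_lit 219,nat_lit 6,nat_lit 7,nat_lit 220,nat_lit 208,nat_lit 221,nat_lit 46],[nat_lit 125,
    nat_lit 47,nat_lit 104,nat_lit 126,nat_lit 20,nat_lit 26,nat_lit 175,nat_lit 191,nat_lit 176,nat_lit 177,
    nat_lit 178,nat_lit 192],[nat_lit 66,nat_lit 105,nat_lit 127,nat_lit 67,nat_lit 128,nat_lit 21,nat_lit 27,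
    nat_lit 179,nat_lit 193,nat_lit 180,nat_lit 194,nat_lit 195],[nat_lit 68,nat_lit 106,nat_lit 48,nat_lit 69,
    nat_lit 107,nat_lit 129]]
    [[[],[nat_lit 197],[nat_lit 205],[nat_lit 204,nat_lit 207],[],[],[],[],[nat_lit 24,nat_lit 25],[],[],[]],
    [[nat_lit 22,nat_lit 23],[],[nat_lit 26],[nat_lit 26],[nat_lit 1],[nat_lit 1],[nat_lit 5],[nat_lit 5],[],
    [nat_lit 2,nat_lit 3],[nat_lit 60,nat_lit 63],[nat_lit 59]],[[nat_lit 66,nat_lit 68],[nat_lit 61,nat_lit 64],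
    [nat_lit 49],[nat_lit 67,nat_lit 69],[],[nat_lit 21],[nat_lit 18],[],[],[nat_lit 16],[nat_lit 16],[nat_lit 19]],
    [[nat_lit 19],[],[],[],[],[],[],[],[nat_lit 20],[nat_lit 20],[nat_lit 17],[nat_lit 17]],[[],[nat_lit 81,
    nat_lit 83],[],[],[],[nat_lit 82],[],[],[],[],[nat_lit 79],[nat_lit 79]],[[nat_lit 79],[nat_lit 79],[],[],[],[],
    [nat_lit 85],[nat_lit 85],[nat_lit 78],[nat_lit 78],[],[nat_lit 45,nat_lit 47]],[[nat_lit 40],[nat_lit 29],
    [nat_lit 29],[],[nat_lit 44,nat_lit 46],[nat_lit 30,nat_lit 32,nat_lit 34,nat_lit 36],[],[nat_lit 126],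
    [nat_lit 117,nat_lit 120],[nat_lit 127],[nat_lit 127],[nat_lit 123]],[[nat_lit 124,nat_lit 125],[nat_lit 111,
    nat_lit 113,nat_lit 115,nat_lit 116],[],[],[],[],[nat_lit 75],[nat_lit 75],[nat_lit 73],[],[],[nat_lit 71]],
    [[nat_lit 71],[nat_lit 71],[nat_lit 71],[],[],[],[],[],[nat_lit 72,nat_lit 74],[nat_lit 77],[nat_lit 70],
    [nat_lit 70]],[[nat_lit 156,nat_lit 158],[],[],[],[nat_lit 157],[nat_lit 157],[],[],[nat_lit 148],[],[],[]],
    [[nat_lit 152,nat_lit 155,nat_lit 161,nat_lit 165],[nat_lit 152,nat_lit 155,nat_lit 161,nat_lit 165],[nat_lit 152,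
    nat_lit 155,nat_lit 161,nat_lit 165],[nat_lit 152,nat_lit 155,nat_lit 161,nat_lit 165],[],[],[],[],[],[],
    [nat_lit 95,nat_lit 99],[nat_lit 87]],[[nat_lit 87],[],[],[],[],[],[],[],[nat_lit 97],[nat_lit 88,nat_lit 90,
    nat_lit 92,nat_lit 93],[nat_lit 88,nat_lit 90,nat_lit 92,nat_lit 93],[nat_lit 88,nat_lit 90,nat_lit 92,
    nat_lit 93]],[[nat_lit 88,nat_lit 90,nat_lit 92,nat_lit 93],[],[],[],[nat_lit 191,nat_lit 193],[nat_lit 181],
    [nat_lit 181],[nat_lit 181],[nat_lit 181],[],[],[]],[[nat_lit 194],[nat_lit 194],[],[],[],[],[nat_lit 182],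
    [nat_lit 182],[nat_lit 182],[nat_lit 182],[],[]],[[nat_lit 140],[nat_lit 140],[nat_lit 134,nat_lit 138,
    nat_lit 143,nat_lit 147],[nat_lit 133,nat_lit 137,nat_lit 142,nat_lit 146],[],[],[nat_lit 130,nat_lit 132],[],[],
    [],[],[]],[[],[nat_lit 209],[nat_lit 209],[],[nat_lit 210],[nat_lit 210],[nat_lit 217,nat_lit 220],[nat_lit 216,
    nat_lit 219],[],[],[],[]],[[],[nat_lit 212,nat_lit 214,nat_lit 215],[nat_lit 212,nat_lit 214,nat_lit 215],
    [nat_lit 212,nat_lit 214,nat_lit 215],[nat_lit 175,nat_lit 179],[nat_lit 170,nat_lit 171],[nat_lit 166],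
    [nat_lit 166],[],[],[nat_lit 167],[nat_lit 167]],[[nat_lit 168,nat_lit 172,nat_lit 174],[nat_lit 168,nat_lit 172,
    nat_lit 174],[nat_lit 168,nat_lit 172,nat_lit 174],[],[],[nat_lit 8],[],[nat_lit 14],[nat_lit 14],[],[],
    [nat_lit 15]],[[],[],[],[],[],[]]]
    (nat_lit 222) [nat_lit 0,nat_lit 1,nat_lit 2,nat_lit 3,nat_lit 4,nat_lit 5,nat_lit 6,nat_lit 7,nat_lit 8,
    nat_lit 9,nat_lit 10,nat_lit 11,nat_lit 12,nat_lit 13,nat_lit 14,nat_lit 15,nat_lit 16,nat_lit 17,nat_lit 18,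
    nat_lit 19,nat_lit 20,nat_lit 21,nat_lit 22,nat_lit 23,nat_lit 24,nat_lit 25,nat_lit 26,nat_lit 27,nat_lit 30,
    nat_lit 31,nat_lit 32,nat_lit 33,nat_lit 34,nat_lit 35,nat_lit 36,nat_lit 37,nat_lit 38,nat_lit 39,nat_lit 40,
    nat_lit 41,nat_lit 42,nat_lit 43,nat_lit 44,nat_lit 45,nat_lit 46,nat_lit 47,nat_lit 48,nat_lit 53,nat_lit 54,
    nat_lit 55,nat_lit 56,nat_lit 57,nat_lit 59,nat_lit 60,nat_lit 61,nat_lit 63,nat_lit 64,nat_lit 65,nat_lit 66,
    nat_lit 67,nat_lit 68,nat_lit 69,nat_lit 92,nat_lit 93,nat_lit 94,nat_lit 97,nat_lit 98,nat_lit 101,nat_lit 102,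
    nat_lit 103,nat_lit 104,nat_lit 105,nat_lit 106,nat_lit 107,nat_lit 116,nat_lit 123,nat_lit 124,nat_lit 125,
    nat_lit 126,nat_lit 127,nat_lit 128,nat_lit 129]
    [[[],[],[],[],[nat_lit 0],[nat_lit 1],[nat_lit 6],[nat_lit 7],[nat_lit 4],[nat_lit 5],[],[],[],[nat_lit 2,
    nat_lit 3],[],[]],[[],[],[],[],[nat_lit 8],[nat_lit 9],[nat_lit 14],[nat_lit 15],[nat_lit 12],[nat_lit 13],[],[],
    [nat_lit 10,nat_lit 11],[],[],[]],[[],[],[],[],[],[],[nat_lit 18],[nat_lit 19],[],[],[nat_lit 16],[nat_lit 17],[],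
    [],[nat_lit 20],[nat_lit 21]],[[],[],[],[],[],[],[nat_lit 24,nat_lit 25],[],[],[],[nat_lit 22,nat_lit 23],[],[],
    [],[nat_lit 26],[nat_lit 27]],[[nat_lit 28],[nat_lit 29],[],[],[nat_lit 40],[nat_lit 37,nat_lit 41],[],[],
    [nat_lit 38,nat_lit 42],[nat_lit 39,nat_lit 43],[nat_lit 31,nat_lit 33,nat_lit 35],[nat_lit 30,nat_lit 32,
    nat_lit 34,nat_lit 36],[],[nat_lit 48],[nat_lit 44,nat_lit 46],[nat_lit 45,nat_lit 47]],[[nat_lit 49],
    [nat_lit 50],[],[],[nat_lit 58,nat_lit 62],[nat_lit 59],[],[],[nat_lit 60,nat_lit 63],[nat_lit 61,nat_lit 64],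
    [nat_lit 51,nat_lit 53,nat_lit 54,nat_lit 56],[nat_lit 52,nat_lit 55,nat_lit 57],[nat_lit 66,nat_lit 68],
    [nat_lit 67,nat_lit 69],[nat_lit 65],[]],[[nat_lit 77],[nat_lit 76],[],[nat_lit 75],[],[],[],[],[],[],
    [nat_lit 73],[nat_lit 72,nat_lit 74],[nat_lit 71],[nat_lit 70],[],[]],[[nat_lit 85],[nat_lit 84],[nat_lit 81,
    nat_lit 83],[nat_lit 82],[],[],[],[],[],[],[],[nat_lit 80],[nat_lit 79],[nat_lit 78],[],[]],[[nat_lit 86],
    [nat_lit 87],[],[],[nat_lit 95,nat_lit 99],[nat_lit 96,nat_lit 100],[],[],[nat_lit 97],[nat_lit 98,nat_lit 101],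
    [nat_lit 88,nat_lit 90,nat_lit 92,nat_lit 93],[nat_lit 89,nat_lit 91,nat_lit 94],[nat_lit 105,nat_lit 106],
    [nat_lit 107],[nat_lit 102],[nat_lit 103,nat_lit 104]],[[nat_lit 108],[nat_lit 109],[],[],[nat_lit 117,
    nat_lit 120],[nat_lit 118,nat_lit 121],[],[],[nat_lit 119,nat_lit 122],[nat_lit 123],[nat_lit 110,nat_lit 112,
    nat_lit 114],[nat_lit 111,nat_lit 113,nat_lit 115,nat_lit 116],[nat_lit 127],[nat_lit 128,nat_lit 129],
    [nat_lit 124,nat_lit 125],[nat_lit 126]],[[],[],[],[nat_lit 140],[nat_lit 136,nat_lit 141,nat_lit 145],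
    [nat_lit 133,nat_lit 137,nat_lit 142,nat_lit 146],[nat_lit 131],[nat_lit 130,nat_lit 132],[nat_lit 134,
    nat_lit 138,nat_lit 143,nat_lit 147],[nat_lit 135,nat_lit 139,nat_lit 144],[],[],[],[],[],[]],[[],[],[nat_lit 156,
    nat_lit 158],[nat_lit 157],[nat_lit 149,nat_lit 153,nat_lit 159,nat_lit 162],[nat_lit 150,nat_lit 160,
    nat_lit 163],[],[nat_lit 148],[nat_lit 151,nat_lit 154,nat_lit 164],[nat_lit 152,nat_lit 155,nat_lit 161,
    nat_lit 165],[],[],[],[],[],[]],[[],[nat_lit 170,nat_lit 171],[],[],[nat_lit 175,nat_lit 179],[nat_lit 176],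
    [nat_lit 166],[nat_lit 167],[nat_lit 177,nat_lit 180],[nat_lit 178],[],[],[],[],[nat_lit 168,nat_lit 172,
    nat_lit 174],[nat_lit 169,nat_lit 173]],[[nat_lit 186,nat_lit 187],[],[],[],[nat_lit 191,nat_lit 193],[],
    [nat_lit 181],[nat_lit 182],[nat_lit 194],[nat_lit 192,nat_lit 195],[],[],[],[],[nat_lit 184,nat_lit 189],
    [nat_lit 183,nat_lit 185,nat_lit 188,nat_lit 190]],[[],[],[nat_lit 196],[nat_lit 197],[],[nat_lit 204,
    nat_lit 207],[],[],[nat_lit 205],[nat_lit 206,nat_lit 208],[],[],[nat_lit 198,nat_lit 200,nat_lit 201,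
    nat_lit 202],[nat_lit 199,nat_lit 203],[],[]],[[],[],[nat_lit 209],[nat_lit 210],[nat_lit 218],[nat_lit 216,
    nat_lit 219],[],[],[nat_lit 217,nat_lit 220],[nat_lit 221],[],[],[nat_lit 211,nat_lit 213],[nat_lit 212,
    nat_lit 214,nat_lit 215],[],[]]]
    [[[nat_lit 0,nat_lit 0x20000000000000000000000000000000000000000000000000,
    nat_lit 0x2000000000000000000000000000000000000000000000000000,
    nat_lit 0x9000000000000000000000000000000000000000000000000000,nat_lit 0,nat_lit 0,nat_lit 0,nat_lit 0,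
    nat_lit 0x3000000],[nat_lit 0,nat_lit 0,nat_lit 0,nat_lit 0xc00000,nat_lit 0,nat_lit 0x4000000,nat_lit 0x4000000,
    nat_lit 2,nat_lit 2],[nat_lit 32,nat_lit 32,nat_lit 0,nat_lit 12,nat_lit 0x9000000000000000,
    nat_lit 0x800000000000000,nat_lit 0x140000000000000000,nat_lit 0x12000000000000000,nat_lit 0x2000000000000],
    [nat_lit 0x280000000000000000,nat_lit 0,nat_lit 0x200000,nat_lit 0x40000,nat_lit 0,nat_lit 0,nat_lit 0x10000,
    nat_lit 0x10000,nat_lit 0x80000],[nat_lit 0x80000,nat_lit 0,nat_lit 0,nat_lit 0,nat_lit 0,nat_lit 0,nat_lit 0,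
    nat_lit 0,nat_lit 0x100000],[nat_lit 0x100000,nat_lit 0x20000,nat_lit 0x20000,nat_lit 0,
    nat_lit 0xa00000000000000000000,nat_lit 0,nat_lit 0,nat_lit 0,nat_lit 0x400000000000000000000],[nat_lit 0,
    nat_lit 0,nat_lit 0,nat_lit 0,nat_lit 0x80000000000000000000,nat_lit 0x80000000000000000000,
    nat_lit 0x80000000000000000000,nat_lit 0x80000000000000000000,nat_lit 0],[nat_lit 0,nat_lit 0,nat_lit 0,
    nat_lit 0x2000000000000000000000,nat_lit 0x2000000000000000000000,nat_lit 0x40000000000000000000,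
    nat_lit 0x40000000000000000000,nat_lit 0,nat_lit 0xa00000000000],[nat_lit 0x10000000000,nat_lit 0x20000000,
    nat_lit 0x20000000,nat_lit 0,nat_lit 0x500000000000,nat_lit 0x1540000000,nat_lit 0,
    nat_lit 0x40000000000000000000000000000000,nat_lit 0x1200000000000000000000000000000]],
    [[nat_lit 0x80000000000000000000000000000000,nat_lit 0x80000000000000000000000000000000,
    nat_lit 0x8000000000000000000000000000000,nat_lit 0x30000000000000000000000000000000,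
    nat_lit 0x1a8000000000000000000000000000,nat_lit 0,nat_lit 0,nat_lit 0,nat_lit 0],[nat_lit 0x8000000000000000000,
    nat_lit 0x8000000000000000000,nat_lit 0x2000000000000000000,nat_lit 0,nat_lit 0,nat_lit 0x800000000000000000,
    nat_lit 0x800000000000000000,nat_lit 0x800000000000000000,nat_lit 0x800000000000000000],[nat_lit 0,nat_lit 0,
    nat_lit 0,nat_lit 0,nat_lit 0,nat_lit 0x5000000000000000000,nat_lit 0x20000000000000000000,
    nat_lit 0x400000000000000000,nat_lit 0x400000000000000000],[nat_lit 0x5000000000000000000000000000000000000000,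
    nat_lit 0,nat_lit 0,nat_lit 0,nat_lit 0x2000000000000000000000000000000000000000,
    nat_lit 0x2000000000000000000000000000000000000000,nat_lit 0,nat_lit 0,
    nat_lit 0x10000000000000000000000000000000000000],[nat_lit 0,nat_lit 0,nat_lit 0,
    nat_lit 0x220900000000000000000000000000000000000000,nat_lit 0x220900000000000000000000000000000000000000,
    nat_lit 0x220900000000000000000000000000000000000000,nat_lit 0x220900000000000000000000000000000000000000,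
    nat_lit 0,nat_lit 0],[nat_lit 0,nat_lit 0,nat_lit 0,nat_lit 0,nat_lit 0x8800000000000000000000000,
    nat_lit 0x8000000000000000000000,nat_lit 0x8000000000000000000000,nat_lit 0,nat_lit 0],[nat_lit 0,nat_lit 0,
    nat_lit 0,nat_lit 0,nat_lit 0,nat_lit 0x2000000000000000000000000,nat_lit 0x350000000000000000000000,
    nat_lit 0x350000000000000000000000,nat_lit 0x350000000000000000000000],[nat_lit 0x350000000000000000000000,
    nat_lit 0,nat_lit 0,nat_lit 0,nat_lit 0x2800000000000000000000000000000000000000000000000,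
    nat_lit 0x2000000000000000000000000000000000000000000000,nat_lit 0x2000000000000000000000000000000000000000000000,
    nat_lit 0x2000000000000000000000000000000000000000000000,
    nat_lit 0x2000000000000000000000000000000000000000000000],[nat_lit 0,nat_lit 0,nat_lit 0,
    nat_lit 0x4000000000000000000000000000000000000000000000000,
    nat_lit 0x4000000000000000000000000000000000000000000000000,nat_lit 0,nat_lit 0,nat_lit 0,nat_lit 0]],
    [[nat_lit 0x4000000000000000000000000000000000000000000000,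
    nat_lit 0x4000000000000000000000000000000000000000000000,nat_lit 0x4000000000000000000000000000000000000000000000,
    nat_lit 0x4000000000000000000000000000000000000000000000,nat_lit 0,nat_lit 0,
    nat_lit 0x100000000000000000000000000000000000,nat_lit 0x100000000000000000000000000000000000,
    nat_lit 0x8844000000000000000000000000000000000],[nat_lit 0x4422000000000000000000000000000000000,nat_lit 0,
    nat_lit 0,nat_lit 0x1400000000000000000000000000000000,nat_lit 0,nat_lit 0,nat_lit 0,nat_lit 0,nat_lit 0],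
    [nat_lit 0,nat_lit 0x20000000000000000000000000000000000000000000000000000,
    nat_lit 0x20000000000000000000000000000000000000000000000000000,nat_lit 0,
    nat_lit 0x40000000000000000000000000000000000000000000000000000,
    nat_lit 0x40000000000000000000000000000000000000000000000000000,
    nat_lit 0x12000000000000000000000000000000000000000000000000000000,
    nat_lit 0x9000000000000000000000000000000000000000000000000000000,nat_lit 0],[nat_lit 0,nat_lit 0,nat_lit 0,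
    nat_lit 0,nat_lit 0xd00000000000000000000000000000000000000000000000000000,
    nat_lit 0xd00000000000000000000000000000000000000000000000000000,
    nat_lit 0xd00000000000000000000000000000000000000000000000000000,
    nat_lit 0x880000000000000000000000000000000000000000000,nat_lit 0xc000000000000000000000000000000000000000000],
    [nat_lit 0x400000000000000000000000000000000000000000,nat_lit 0x400000000000000000000000000000000000000000,
    nat_lit 0,nat_lit 0,nat_lit 0x800000000000000000000000000000000000000000,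
    nat_lit 0x800000000000000000000000000000000000000000,nat_lit 0x51000000000000000000000000000000000000000000,
    nat_lit 0x51000000000000000000000000000000000000000000,nat_lit 0x51000000000000000000000000000000000000000000],
    [nat_lit 0,nat_lit 0,nat_lit 256,nat_lit 0,nat_lit 0x4000,nat_lit 0x4000,nat_lit 0,nat_lit 0,nat_lit 0x8000],
    [nat_lit 0,nat_lit 0,nat_lit 0,nat_lit 0,nat_lit 0,nat_lit 0]]]
    []
    (nat_lit 0) (nat_lit 12) (nat_lit 12)
    [[nat_lit 2,nat_lit 3,nat_lit 0x1000002,nat_lit 0x1001,nat_lit 0x1000001],[nat_lit 32,nat_lit 0x1000020,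
    nat_lit 272,nat_lit 0x1000110,nat_lit 0x1010,nat_lit 0x1001010,nat_lit 0x10001010,nat_lit 0x10010,
    nat_lit 0x1010010,nat_lit 0x10010010,nat_lit 0x100010,nat_lit 0x1100010,nat_lit 0x10100010,nat_lit 0x1000010,
    nat_lit 0x2000010,nat_lit 0x11000010],[nat_lit 512,nat_lit 0x10200,nat_lit 0x1000200,nat_lit 0x1100,
    nat_lit 0x2100,nat_lit 0x11100,nat_lit 0x101100,nat_lit 0x1001100,nat_lit 0x10100,nat_lit 0x1010100,
    nat_lit 0x100100,nat_lit 0x200100,nat_lit 0x1100100,nat_lit 0x10100100,nat_lit 0x1000100,nat_lit 0x10000100],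
    [nat_lit 0x2000,nat_lit 0x3000,nat_lit 0x12000,nat_lit 0x102000,nat_lit 0x1002000,nat_lit 0x11000,nat_lit 0x21000,
    nat_lit 0x111000,nat_lit 0x1011000,nat_lit 0x101000,nat_lit 0x201000,nat_lit 0x1101000,nat_lit 0x10101000,
    nat_lit 0x1001000,nat_lit 0x2001000,nat_lit 0x11001000,nat_lit 0x10001000,nat_lit 0x20001000],[nat_lit 0x20000,
    nat_lit 0x1020000,nat_lit 0x110000,nat_lit 0x210000,nat_lit 0x1110000,nat_lit 0x10110000,nat_lit 0x1010000,
    nat_lit 0x2010000,nat_lit 0x10010000,nat_lit 0x20010000],[nat_lit 0x200000,nat_lit 0x300000,nat_lit 0x1200000,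
    nat_lit 0x10200000,nat_lit 0x1100000,nat_lit 0x2100000,nat_lit 0x11100000,nat_lit 0x10100000,nat_lit 0x20100000],
    [nat_lit 0x2000000,nat_lit 0x12000000,nat_lit 0x11000000,nat_lit 0x21000000],[nat_lit 0x20000000,
    nat_lit 0x30000000]]
    [.c (nat_lit 1) (nat_lit 2),.c (nat_lit 0) (nat_lit 0x1ce799cc4),.c (nat_lit 0) (nat_lit 0xc6338c42),
    .c (nat_lit 0) (nat_lit 0x4010003),.c (nat_lit 0) (nat_lit 0x4010003),.c (nat_lit 2) (nat_lit 2),
    .r (nat_lit 0x795) (nat_lit 13) [nat_lit 65,nat_lit 0x18c6310881,nat_lit 0x1000018061,nat_lit 0x800180a1,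
    nat_lit 0x4018061,nat_lit 0x210041],.r (nat_lit 0xdb3) (nat_lit 13) [nat_lit 0x4210061,nat_lit 0xc0318801],
    .c (nat_lit 2) (nat_lit 0x300802),.c (nat_lit 1) (nat_lit 0x4020803),
    .r (nat_lit 0xdb3) (nat_lit 13) [nat_lit 0x80210061,nat_lit 0xc0318801],.c (nat_lit 0) (nat_lit 0xc02),
    .r (nat_lit 0xdb3) (nat_lit 13) [nat_lit 0x1000210061,nat_lit 0xc0318801],.c (nat_lit 2) (nat_lit 0xc0000802),
    .c (nat_lit 0) (nat_lit 0xc0018c02),.c (nat_lit 0) (nat_lit 0xc0318043),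
    .r (nat_lit 0xdb7) (nat_lit 6) [nat_lit 0x1000200001,nat_lit 0x1800300861],.c (nat_lit 1) (nat_lit 0x84230062),
    .r (nat_lit 0x165b) (nat_lit 13) [nat_lit 0x10061,nat_lit 65],.r (nat_lit 0x78d) (nat_lit 0) [nat_lit 0x20001,
    nat_lit 0x420041,nat_lit 0x8028061,nat_lit 0x1000280a1,nat_lit 0x2000028061,nat_lit 0x294a521081],
    .c (nat_lit 0) (nat_lit 0xc02),.c (nat_lit 3) (nat_lit 2),.r (nat_lit 0xdb6) (nat_lit 11) [nat_lit 0x1000200001,
    nat_lit 0xc4318861],.r (nat_lit 0xdb3) (nat_lit 13) [nat_lit 0x8200061,nat_lit 0xc0318801],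
    .c (nat_lit 0) (nat_lit 0xc0018c43),.r (nat_lit 0x796) (nat_lit 14) [nat_lit 0x8a010081,nat_lit 0x4200061,
    nat_lit 0xc80000a1,nat_lit 0x86000041,nat_lit 0x18c43188a1,nat_lit 0x1006000041],
    .r (nat_lit 0x169a) (nat_lit 1) [nat_lit 0x10001,nat_lit 0x1000210c41,nat_lit 0x4210c41,nat_lit 0x1806529061],
    .c (nat_lit 0) (nat_lit 0xc0018c43),.c (nat_lit 1) (nat_lit 0x4220003),.c (nat_lit 1) (nat_lit 0x80220003),
    .r (nat_lit 0xdb3) (nat_lit 13) [nat_lit 0x1004200061,nat_lit 0xc0318801],.c (nat_lit 0) (nat_lit 0xc6218c43),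
    .r (nat_lit 0xdb6) (nat_lit 11) [nat_lit 0x1000200001,nat_lit 0x1080210c41],.c (nat_lit 0) (nat_lit 0xc0018c43),
    .r (nat_lit 0xdb3) (nat_lit 13) [nat_lit 0x1080410c41,nat_lit 0xc0318801],.c (nat_lit 0) (nat_lit 0x200c03),
    .c (nat_lit 0) (nat_lit 0x200003),.c (nat_lit 4) (nat_lit 2),.r (nat_lit 0x594) (nat_lit 12) [nat_lit 65,
    nat_lit 0x3000600001,nat_lit 0x39cf339801,nat_lit 0x180600061,nat_lit 0x1c0d00041,nat_lit 0x180c30061],
    .r (nat_lit 0x796) (nat_lit 14) [nat_lit 0x2880010081,nat_lit 0x1000200061,nat_lit 0x20c00000a1,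
    nat_lit 0x1880000041,nat_lit 0x10c63188a1,nat_lit 65],.c (nat_lit 0) (nat_lit 0xc4318c43),
    .c (nat_lit 0) (nat_lit 0xc4318c43),.c (nat_lit 0) (nat_lit 0x318c43),
    .r (nat_lit 0x169a) (nat_lit 1) [nat_lit 0x10001,nat_lit 0x4210c41,nat_lit 0x1808210c41,nat_lit 0xa529061],
    .c (nat_lit 0) (nat_lit 0x318c43),.c (nat_lit 1) (nat_lit 0x84020003),.c (nat_lit 0) (nat_lit 0xc4318c43),
    .r (nat_lit 0x164b) (nat_lit 12) [nat_lit 0x1804000001,nat_lit 0x1000200001,nat_lit 0x1004210c41],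
    .c (nat_lit 0) (nat_lit 0x144529485),.c (nat_lit 2) (nat_lit 0xc0318843),.c (nat_lit 0) (nat_lit 0x4000005),
    .c (nat_lit 0) (nat_lit 0x4000c03),.c (nat_lit 0) (nat_lit 0x4000003),.c (nat_lit 0) (nat_lit 0x4000003),
    .r (nat_lit 0x78d) (nat_lit 0) [nat_lit 0x20001,nat_lit 0x80430061,nat_lit 0xc8038041,nat_lit 0x48081,
    nat_lit 0x20c0038041,nat_lit 0x280a5410a1],.c (nat_lit 5) (nat_lit 2),
    .r (nat_lit 0xdb3) (nat_lit 13) [nat_lit 0x2000200061,nat_lit 0xc0318801],.c (nat_lit 0) (nat_lit 0x86318c43),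
    .r (nat_lit 0xdb6) (nat_lit 11) [nat_lit 0x1000200001,nat_lit 0x84210c41],.c (nat_lit 0) (nat_lit 0x318c43),
    .r (nat_lit 0xdb3) (nat_lit 13) [nat_lit 0x84410c41,nat_lit 0xc0318801],.c (nat_lit 0) (nat_lit 0x80000c03),
    .r (nat_lit 0x165b) (nat_lit 13) [nat_lit 0x1000000061,nat_lit 0x1800010041],.c (nat_lit 0) (nat_lit 0x80000003),
    .r (nat_lit 0x165b) (nat_lit 13) [nat_lit 0x1800000041,nat_lit 0x1000010061],.c (nat_lit 6) (nat_lit 2),
    .r (nat_lit 0xdb6) (nat_lit 11) [nat_lit 0x1000200001,nat_lit 0x1084210c42],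
    .r (nat_lit 0x797) (nat_lit 14) [nat_lit 0x3908431441,nat_lit 0x1000200001,nat_lit 0x314a529061,
    nat_lit 0x2908421441,nat_lit 0x10c6318801,nat_lit 0x10ca529061],
    .r (nat_lit 0x1230) (nat_lit 6) [nat_lit 0x4200001,nat_lit 0x1806318841,nat_lit 0x2008421441,nat_lit 0x280a511061,
    nat_lit 0x86000001],.c (nat_lit 0) (nat_lit 0x144529485),.c (nat_lit 0) (nat_lit 0xc4318c43),
    .r (nat_lit 0xdb6) (nat_lit 11) [nat_lit 0x1000200001,nat_lit 65],
    .r (nat_lit 0x164b) (nat_lit 12) [nat_lit 0x1804000001,nat_lit 0x1000200001,nat_lit 65],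
    .r (nat_lit 0xdb3) (nat_lit 13) [nat_lit 0x1084610c42,nat_lit 0xc0318801],.c (nat_lit 7) (nat_lit 2),
    .c (nat_lit 0) (nat_lit 0x4000003),.c (nat_lit 0) (nat_lit 0x18003),
    .r (nat_lit 0xdb3) (nat_lit 13) [nat_lit 0x200041,nat_lit 0xc0318801],.c (nat_lit 8) (nat_lit 2),
    .r (nat_lit 0x799) (nat_lit 0) [nat_lit 65,nat_lit 0x3000600001,nat_lit 0x30061,nat_lit 0x380c000001,
    nat_lit 0x6980000041,nat_lit 0x31ce739801]]]

/-- nodes -/
noncomputable def rD8k_37_24 : List RJ :=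
  [.l (nat_lit 12) (nat_lit 720) (nat_lit 3) (nat_lit 0x12c0000012c0000011d0000011d0000011d0000011d0000011d0000011d0000011d0000011d000001280000012800000144000001440000013b0000013b) (nat_lit 0x180000001800000027000000270000002700000027000000270000002700000027000000270000001c0000001c00000000000000000000000900000009)
    (nat_lit 0x11411410b12110f1050c30f90c510511010412c0e61231231141141051050f31051171051031150c211012c12c1070b51051210f60f60f60f60e61080f60e410110318b16b11411410510b0f60f60f60f60f61080f60f61010ef1651451141141051050f60f60e40f60f60f61080f60d910111d11d10e0cc0f310f0f60f60f60e40f60f60f60e410111311d11d1201141050f91081080f60f61080f60e40f610110111d11d10a1141170c30f60e60f60f60e41080f60f610110111d11d1141141151050f60e40e40f60f60f60f610810110111d11d1561141030c50f60f60f61080f60e40f60f61011010cf11d1201141101040ef10311310110110110110110c10c12812815f16d0c21101011011010d910110110110110c10c12812816517312c0e614516b11d11d11d11d11d11d1281280f014413b13b12c12c16518b11d11d11d11d0cf11d1281281440f013b13b0b51231141141140cc11411411411417316d13b13b13213210712311411412010e11410a12015616515f13b13b132132)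
    (nat_lit 0x1142d02d02d02d02d02d02d02d02d02d02d02d02d02d02d01141142d02d02d02d02d02d02d02d02d02d02d02d02d02d010b1050f62d02d02d02d02d02d02d02d02d02d02d02d02d01211050f60f62d02d02d02d02d02d02d02d02d02d02d02d010f0f30f60f60e42d02d02d02d02d02d02d02d02d02d02d01051050f60f60f60e42d02d02d02d02d02d02d02d02d02d00c31170e60f60f60f61082d02d02d02d02d02d02d02d02d00f91051081080f60f60f61082d02d02d02d02d02d02d02d00c51030f60f61080f60e40f60f62d02d02d02d02d02d02d01051150e40f60f60e40f60f61080f62d02d02d02d02d02d01100c21011010d910110110110110110c2d02d02d02d02d01041101030ef10111310110110110110c10c2d02d02d02d012c12c18b16511d11d11d11d11d0cf1281280f02d02d02d00e612c16b14511d11d11d11d11d11d1281281440f02d02d012310711411410e12010a11415612015f16513b13b1322d01230b51141140cc11411411411411416d17313b13b132132)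
    (nat_lit 4) (nat_lit 27)
    [[nat_lit 2,nat_lit 17,nat_lit 0x1001,nat_lit 0x10001,nat_lit 0x110001,nat_lit 0x10010001,nat_lit 0x100001,
    nat_lit 0x1000001,nat_lit 0x10000001],[nat_lit 32,nat_lit 272,nat_lit 0x1010,nat_lit 0x10001010,nat_lit 0x10010,
    nat_lit 0x100010,nat_lit 0x10000010],[nat_lit 512,nat_lit 0x1100,nat_lit 0x10100,nat_lit 0x100100,
    nat_lit 0x101100,nat_lit 0x1100100,nat_lit 0x1000100,nat_lit 0x10000100,nat_lit 0x10001100,nat_lit 0x10010100],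
    [nat_lit 0x2000,nat_lit 0x11000,nat_lit 0x21000,nat_lit 0x111000,nat_lit 0x1011000,nat_lit 0x10011000,
    nat_lit 0x101000,nat_lit 0x1001000,nat_lit 0x10001000,nat_lit 0x10101000,nat_lit 0x11001000],[nat_lit 0x20000,
    nat_lit 0x110000,nat_lit 0x1010000,nat_lit 0x10010000,nat_lit 0x10110000],[nat_lit 0x200000,nat_lit 0x300000,
    nat_lit 0x1100000,nat_lit 0x10100000],[nat_lit 0x2000000,nat_lit 0x11000000],[nat_lit 0x20000000]]
    [.c (nat_lit 1) (nat_lit 2),.r (nat_lit 0xdb7) (nat_lit 8) [nat_lit 0x6622073,nat_lit 0x300021],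
    .c (nat_lit 0) (nat_lit 0x703367),.r (nat_lit 0x1608) (nat_lit 12) [nat_lit 0x2200031,nat_lit 0x22003,nat_lit 33],
    .c (nat_lit 1) (nat_lit 0x20002),.r (nat_lit 0x14fb) (nat_lit 11) [nat_lit 0x2001,nat_lit 0x20001,
    nat_lit 0x200021,nat_lit 0x4200031,nat_lit 0xd755c73],.r (nat_lit 0xdba) (nat_lit 10) [nat_lit 33,
    nat_lit 0x22003],.r (nat_lit 0xdb2) (nat_lit 5) [nat_lit 0x6622073,nat_lit 0x300021],
    .c (nat_lit 0) (nat_lit 0x703367),.c (nat_lit 2) (nat_lit 2),.r (nat_lit 0xdb2) (nat_lit 5) [nat_lit 33,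
    nat_lit 0x6022073],.r (nat_lit 0x168f) (nat_lit 8) [nat_lit 0x22073,nat_lit 0x2200001,nat_lit 33],
    .r (nat_lit 0xdb2) (nat_lit 5) [nat_lit 0xc622763,nat_lit 0x3300231],.r (nat_lit 0xdb5) (nat_lit 5) [nat_lit 33,
    nat_lit 0x6022073],.r (nat_lit 0x1636) (nat_lit 8) [nat_lit 0x22073,nat_lit 0x2200001,nat_lit 33],
    .r (nat_lit 0x165b) (nat_lit 13) [nat_lit 0x33063,nat_lit 0x22003],.c (nat_lit 3) (nat_lit 2),
    .r (nat_lit 0xc1a) (nat_lit 7) [nat_lit 0x733671,nat_lit 0x40001,nat_lit 0x633671,nat_lit 0x4001,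
    nat_lit 0xc622761],.c (nat_lit 0) (nat_lit 0x200003),.c (nat_lit 0) (nat_lit 0x200003),
    .r (nat_lit 0x14fb) (nat_lit 11) [nat_lit 0x2001,nat_lit 0x20001,nat_lit 0x633673,nat_lit 0xc622763,
    nat_lit 0xd733663],.r (nat_lit 0xdb5) (nat_lit 5) [nat_lit 0x6022073,nat_lit 33],
    .r (nat_lit 0xdb7) (nat_lit 8) [nat_lit 33,nat_lit 0x6022073],.r (nat_lit 0xdba) (nat_lit 8) [nat_lit 0x22003,
    nat_lit 33],.c (nat_lit 1) (nat_lit 0x63367),.r (nat_lit 0xdc2) (nat_lit 8) [nat_lit 0x22003,nat_lit 0x33673],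
    .c (nat_lit 4) (nat_lit 2),.c (nat_lit 0) (nat_lit 0x773367),.r (nat_lit 0x124d) (nat_lit 1) [nat_lit 0x22003,
    nat_lit 0x6622763,nat_lit 0xdd55c73,nat_lit 0x733673],.c (nat_lit 0) (nat_lit 0x773367),
    .r (nat_lit 0x1142) (nat_lit 15) [nat_lit 0x2001,nat_lit 0x20001,nat_lit 0x2200001,nat_lit 0x30061],
    .c (nat_lit 0) (nat_lit 0x773367),.c (nat_lit 0) (nat_lit 0x773367),
    .r (nat_lit 0x15b9) (nat_lit 15) [nat_lit 0x22073,nat_lit 0x2200001,nat_lit 33],.c (nat_lit 0) (nat_lit 0x703367),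
    .c (nat_lit 0) (nat_lit 0x773367),.r (nat_lit 0xdb7) (nat_lit 8) [nat_lit 0xc622763,nat_lit 0x3300231],
    .c (nat_lit 5) (nat_lit 2),.c (nat_lit 0) (nat_lit 0x30003),.r (nat_lit 0xdc0) (nat_lit 8) [nat_lit 0x2200001,
    nat_lit 33],.c (nat_lit 0) (nat_lit 0x773367),.c (nat_lit 0) (nat_lit 0x773367),.c (nat_lit 6) (nat_lit 2),
    .r (nat_lit 0xdbb) (nat_lit 10) [nat_lit 0x20023,nat_lit 0x2200001],.r (nat_lit 0xdbb) (nat_lit 10) [nat_lit 33,
    nat_lit 0x2200001],.c (nat_lit 0) (nat_lit 0x773367),.c (nat_lit 7) (nat_lit 2),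
    .r (nat_lit 0x15d8) (nat_lit 8) [nat_lit 0x2200001,nat_lit 0x6622763,nat_lit 0x7733603],
    .c (nat_lit 8) (nat_lit 2)],
    .l (nat_lit 12) (nat_lit 840) (nat_lit 3) (nat_lit 0x185000001850000015f0000015f0000015d0000015d0000015d0000015d000001370000015700000188000001880000014e0000014e0000014a0000014a) (nat_lit 0x30000000300000029000000290000002b0000002b0000002b0000002b000000310000005100000000000000000000003a0000003a0000003e0000003e)
    (nat_lit 0x1741581ec19a17215a17c1d208c10a1851c31350d514716317a1741ae15c15613e1761cc1681481851c314b14b10914715c19a15213e0c20e21201380f00f215f14b12512512f1211ae1ec16615211413413414c10410615f1491250fb1210f713e15a1340e211a10213a15214210c18718714d12308f11f1561721140c213211a13c13215a0ec1c11c114f1230a711f1cc1d214c1381321521521320c810215d12f1230bf1070f317617c13412013c13a0c415212c10c15d0ef1230c914911f14810a1060f20ec10c10c1021741541911370fd0fd0d70f916808c1040f015a14212c0c81781741571570df11d0db1191c31c314914b1c11870ef12f15713718813614e14e21218818518515f15f1c118715d15d15719115818813214e1c013614b0d50fb1251231230c90bf11d0fd14e14e12814411012c14b13512512514f14d1231230df0fd13214e1281280f41101471630f712111f11f11f0f31190f913618811012c1220f810914712112f0a708f1491070db0d71c02120f4110136122)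
    (nat_lit 0x1743483483483483483483483483483483483483483483481581743483483483483483483483483483483483483483481ec1ae15234834834834834834834834834834834834834819a15c13e1523483483483483483483483483483483483481721560c211411a34834834834834834834834834834834815a13e0e213410211a34834834834834834834834834834817c17612013413a13c1523483483483483483483483483481d21cc13814c15213213215234834834834834834834834808c1680f010414215a0c812c17434834834834834834834810a1480f210610c0ec10210c15417434834834834834834818518515f15f1871c115d15d1911571883483483483483481c31c314b1491871c112f0ef13715713618834834834834813514b12512514d14f1231230fd0df14e1321283483483480d514b1250fb1231230bf0c90fd11d14e14e14412834834814710912f12108f0a71071490d70db1f61c01100f41223481631471210f711f11f0f311f0f911918813612c1100f8122)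
    (nat_lit 4) (nat_lit 83)
    [[nat_lit 2,nat_lit 18,nat_lit 0x1002,nat_lit 0x100002,nat_lit 17,nat_lit 0x1011,nat_lit 0x10011,
    nat_lit 0x1000011,nat_lit 0x100011,nat_lit 0x10000011,nat_lit 0x1001,nat_lit 0x11001,nat_lit 0x101001,
    nat_lit 0x1001001,nat_lit 0x10001001,nat_lit 0x10001,nat_lit 0x10101,nat_lit 0x20001,nat_lit 0x1010001,
    nat_lit 0x100001,nat_lit 0x110001,nat_lit 0x200001,nat_lit 0x1100001,nat_lit 0x1000001,nat_lit 0x10000001],
    [nat_lit 32,nat_lit 0x1020,nat_lit 0x10020,nat_lit 272,nat_lit 0x10110,nat_lit 0x1010,nat_lit 0x11010,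
    nat_lit 0x1001010,nat_lit 0x10001010,nat_lit 0x101010,nat_lit 0x10010,nat_lit 0x20010,nat_lit 0x1010010,
    nat_lit 0x100010,nat_lit 0x1100010,nat_lit 0x1000010,nat_lit 0x10000010],[nat_lit 512,nat_lit 0x1100,
    nat_lit 0x10100,nat_lit 0x1000100],[nat_lit 0x2000,nat_lit 0x11000,nat_lit 0x21000,nat_lit 0x111000,
    nat_lit 0x1011000,nat_lit 0x101000,nat_lit 0x1101000,nat_lit 0x1001000,nat_lit 0x10001000,nat_lit 0x10011000,
    nat_lit 0x10101000,nat_lit 0x11001000,nat_lit 0x20001000],[nat_lit 0x20000,nat_lit 0x110000,nat_lit 0x1010000],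
    [nat_lit 0x200000,nat_lit 0x1200000,nat_lit 0x1100000,nat_lit 0x2100000,nat_lit 0x10100000],[nat_lit 0x2000000],
    [nat_lit 0x20000000]]
    [.c (nat_lit 1) (nat_lit 2),.r (nat_lit 0x101e) (nat_lit 11) [nat_lit 0x20001,nat_lit 0x2000001,nat_lit 0x30041,
    nat_lit 0x828051,nat_lit 0x39041],.r (nat_lit 0xdc2) (nat_lit 14) [nat_lit 0x200001,nat_lit 0x3500432],
    .r (nat_lit 0x146e) (nat_lit 15) [nat_lit 0x2021,nat_lit 0x5021,nat_lit 0x604031,nat_lit 0x2000001,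
    nat_lit 0x3040001],.r (nat_lit 0x161e) (nat_lit 11) [nat_lit 0x2001,nat_lit 0x3021],
    .r (nat_lit 0xfbe) (nat_lit 0) [nat_lit 0x3001,nat_lit 0x202001,nat_lit 0x4020051,nat_lit 0x3040021,
    nat_lit 0x2050081],.r (nat_lit 0xdb5) (nat_lit 14) [nat_lit 0x200001,nat_lit 0x300231],
    .r (nat_lit 0x14ea) (nat_lit 11) [nat_lit 0x2001,nat_lit 0x200001,nat_lit 0x3021],
    .r (nat_lit 0x101e) (nat_lit 11) [nat_lit 0x20001,nat_lit 0x2000001,nat_lit 0x34041,nat_lit 0x824051,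
    nat_lit 0x35041],.r (nat_lit 0x10ce) (nat_lit 8) [nat_lit 0x2200321,nat_lit 0x2001,nat_lit 0x3320231,
    nat_lit 0x200001,nat_lit 0x3500451],.r (nat_lit 0x165b) (nat_lit 3) [nat_lit 0x303021,nat_lit 0x200001],
    .r (nat_lit 0xeea) (nat_lit 11) [nat_lit 0x2001,nat_lit 0x220321,nat_lit 0x200001,nat_lit 0x530451,
    nat_lit 0x2840981],.r (nat_lit 0xdc2) (nat_lit 14) [nat_lit 0x200001,nat_lit 0x3503432],
    .r (nat_lit 0xdc2) (nat_lit 14) [nat_lit 0x200001,nat_lit 0x300231],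
    .r (nat_lit 0xeca) (nat_lit 0) [nat_lit 0x3001,nat_lit 0x202001,nat_lit 0x2000031,nat_lit 33,nat_lit 0x3950871],
    .r (nat_lit 0xdbb) (nat_lit 2) [nat_lit 0x3021,nat_lit 0x202001],.c (nat_lit 0) (nat_lit 0x30302),
    .r (nat_lit 0x1287) (nat_lit 6) [nat_lit 0x303021,nat_lit 0x200001,nat_lit 0x2000001,nat_lit 0x202001,
    nat_lit 0x3040001],.r (nat_lit 0xdb4) (nat_lit 11) [nat_lit 0x202001,nat_lit 0x3021],.c (nat_lit 1) (nat_lit 514),
    .r (nat_lit 0x101f) (nat_lit 13) [nat_lit 0x2001,nat_lit 0x20001,nat_lit 0x200001,nat_lit 0x2000001,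
    nat_lit 0x3021],.r (nat_lit 0x146e) (nat_lit 15) [nat_lit 0x4021,nat_lit 0x3021,nat_lit 0x602031,
    nat_lit 0x2000001,nat_lit 0x3040001],.r (nat_lit 0x14ea) (nat_lit 11) [nat_lit 0x2001,nat_lit 0x200001,
    nat_lit 0x23022],.r (nat_lit 0xdbb) (nat_lit 10) [nat_lit 0x3021,nat_lit 0x202001],
    .r (nat_lit 0xdbc) (nat_lit 13) [nat_lit 33,nat_lit 0x200001],.c (nat_lit 2) (nat_lit 2),
    .r (nat_lit 0x1343) (nat_lit 5) [nat_lit 0x3040022,nat_lit 0x2050041,nat_lit 0x2020031,nat_lit 0x202001],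
    .r (nat_lit 0x10ce) (nat_lit 8) [nat_lit 0x20031,nat_lit 0x2001,nat_lit 33,nat_lit 0x200001,nat_lit 0x2050041],
    .r (nat_lit 0x14ea) (nat_lit 11) [nat_lit 0x2001,nat_lit 0x200001,nat_lit 0x220031],
    .r (nat_lit 0x1020) (nat_lit 1) [nat_lit 0x2001,nat_lit 0x2000001,nat_lit 0x200001,nat_lit 0x20001,
    nat_lit 0x530041],.r (nat_lit 0x168f) (nat_lit 2) [nat_lit 0x3001,nat_lit 33,nat_lit 0x202001],
    .r (nat_lit 0xeba) (nat_lit 5) [nat_lit 0x3001,nat_lit 0x202001,nat_lit 0x220321,nat_lit 0x2400541,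
    nat_lit 0x300231],.r (nat_lit 0x1343) (nat_lit 5) [nat_lit 0x3020021,nat_lit 0x3050081,nat_lit 0x4020051,
    nat_lit 0x202001],.r (nat_lit 0xdb4) (nat_lit 11) [nat_lit 0x202001,nat_lit 0x303231],
    .r (nat_lit 0xfbe) (nat_lit 0) [nat_lit 0x3001,nat_lit 0x202001,nat_lit 0x4025051,nat_lit 0x3042021,
    nat_lit 0x2058081],.r (nat_lit 0xdba) (nat_lit 5) [nat_lit 33,nat_lit 0x200001],
    .r (nat_lit 0xe97) (nat_lit 15) [nat_lit 0x202001,nat_lit 0x2000001,nat_lit 0x200001,nat_lit 0x3040001,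
    nat_lit 0x2050081],.r (nat_lit 0xeca) (nat_lit 0) [nat_lit 0x3001,nat_lit 0x202001,nat_lit 0x2200321,
    nat_lit 0x300231,nat_lit 0x3350261],.r (nat_lit 0x161e) (nat_lit 11) [nat_lit 0x2001,nat_lit 33],
    .r (nat_lit 0x14ea) (nat_lit 11) [nat_lit 0x2001,nat_lit 0x200001,nat_lit 33],.c (nat_lit 0) (nat_lit 0x2003),
    .r (nat_lit 0x1520) (nat_lit 11) [nat_lit 0x2001,nat_lit 33,nat_lit 0x200001,nat_lit 0x20051,nat_lit 0x2050081],
    .c (nat_lit 3) (nat_lit 2),.r (nat_lit 0x14da) (nat_lit 2) [nat_lit 0x3001,nat_lit 0x303021,nat_lit 0x202001],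
    .r (nat_lit 0x165b) (nat_lit 1) [nat_lit 0x300021,nat_lit 0x200001],
    .r (nat_lit 0xdc2) (nat_lit 14) [nat_lit 0x200001,nat_lit 0x3503221],.c (nat_lit 4) (nat_lit 2),
    .r (nat_lit 0xdb8) (nat_lit 14) [nat_lit 0x200001,nat_lit 33],.r (nat_lit 0x10ce) (nat_lit 8) [nat_lit 0x2000032,
    nat_lit 0x2001,nat_lit 0x3040022,nat_lit 0x200001,nat_lit 33],.r (nat_lit 0xeea) (nat_lit 11) [nat_lit 0x2001,
    nat_lit 0x222321,nat_lit 0x200001,nat_lit 0x535451,nat_lit 0x2848981],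
    .r (nat_lit 0x10ce) (nat_lit 8) [nat_lit 0x2000031,nat_lit 0x2001,nat_lit 0x3020021,nat_lit 0x200001,
    nat_lit 0x3000041],.r (nat_lit 0x165b) (nat_lit 3) [nat_lit 0x300021,nat_lit 0x200001],
    .r (nat_lit 0xdc2) (nat_lit 14) [nat_lit 0x200001,nat_lit 0x303231],.c (nat_lit 2) (nat_lit 0x302002),
    .r (nat_lit 0x149c) (nat_lit 6) [nat_lit 0x200001,nat_lit 0x20001,nat_lit 33,nat_lit 0x202001],
    .r (nat_lit 0x14ea) (nat_lit 11) [nat_lit 0x2001,nat_lit 0x200001,nat_lit 0x303231],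
    .r (nat_lit 0xeca) (nat_lit 0) [nat_lit 0x3001,nat_lit 0x202001,nat_lit 0x2003031,nat_lit 0x2021,
    nat_lit 0x3957871],.r (nat_lit 0xdb5) (nat_lit 14) [nat_lit 0x200001,nat_lit 33],
    .r (nat_lit 0xdb5) (nat_lit 14) [nat_lit 0x200001,nat_lit 0x2000022],.c (nat_lit 5) (nat_lit 2),
    .r (nat_lit 0xdbb) (nat_lit 2) [nat_lit 33,nat_lit 0x202001],.r (nat_lit 0xdc0) (nat_lit 8) [nat_lit 0x202001,
    nat_lit 33],.c (nat_lit 6) (nat_lit 2),.r (nat_lit 0x14ea) (nat_lit 11) [nat_lit 0x2001,nat_lit 0x200001,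
    nat_lit 0x20022],.r (nat_lit 0xdbb) (nat_lit 10) [nat_lit 33,nat_lit 0x202001],
    .r (nat_lit 0x14da) (nat_lit 2) [nat_lit 0x3001,nat_lit 0x2003031,nat_lit 0x202001],
    .r (nat_lit 0xdbc) (nat_lit 13) [nat_lit 0x2021,nat_lit 0x200001],.c (nat_lit 7) (nat_lit 2),
    .c (nat_lit 8) (nat_lit 2)]]

/-- nodes -/
noncomputable def rD8k_37_25 : List RJ :=
  [.l (nat_lit 13) (nat_lit 0x5a0) (nat_lit 3) (nat_lit 0x2c6000002c60000023a0000023a000002b20000025e0000025a00000225000002590000029d000002ab000002ab000002590000021700000217000002a8) (nat_lit 0x8c0000008c0000006800000014000000a10000006c000000290000006d0000001b0000001b000000af0000006d0000001e000000af)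
    (nat_lit 0x1630a806cc3461670ac85f03160c307d05343a20d907205502241130b184b423a12707e05142a814e89c03fc30611709c033816a11d0d184d024e0c208183041de0db05a041021f11c09e843817412d0d985042680e908983241ce0e806083ec20e0cf06f843818b0fc0ac844c20612507284b824614d093054c2d810189b82d01f01270b383a41840c609283c81f211a87285902fa0f007d83081af1540c5839c1de0f909183c02580bd071847423f0d585a039817a1450be03241820f209702d01e010f06e04141cc0bb06704d817613807d03041680e509303701c613708204b421c0d507b02d01aa14e86183a01b611a8a6843c17a14709b85042820b408c03102101830e8841c21f17d0b6039823f14108705202760ed08f87482820ff0a683ec2081640a9841423a14109685202900fe08f863c1fc138072037c27a0fb09b833816811807b047c23e0d507b04981aa11706c833c2380f0080c2ec1ab0b406a83f81da0b406a83d81680b508903161740d787c02ec17a10806a83f82820b406a84bc1680ce0aa043821c0c205a04d81cc0c405a063c3a40f6093056025e)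
    (nat_lit 0x1631680b405a02d01680b405a02d01680b405a02d01680b405a01500b18b405a02d01680b405a02d01680b405a02d01680b405a01b309684d05a02d01680b405a02d01680b405a02d01680b405a01a308e849c2682d01680b405a02d01680b405a02d01680b405a016709383081d21251680b405a02d01680b405a02d01680b405a015907e040c2260e50928b405a02d01680b405a02d01680b405a017c0a2830419212e07903c05a02d01680b405a02d01680b405a018b0aa03bc1ce12307c84b01e02d01680b405a02d01680b405a00c30a7436c1d014d08d42f421e1371680b405a02d01680b405a00fa09c02d0182126072838c1b810409b8b405a02d01680b405a014d07f84101f61530b2047420a12d0a085205a02d01680b405a01d10c1843e20e16c0be847e1cc10e0a084ec2902d01680b405a00d908b847019e10187803561760d505a03b41fc0d51680b405a00e409c04f41be13707d82d019c0f608c047c23e0f606a8b405a0154067043821c0b4061039826c0b4062073031e12607b04bc5a011205a82e818b0f806bc2f41760d508405041fc0d505a02d025e)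
    (nat_lit 4) (nat_lit 83)
    [[nat_lit 2,nat_lit 0x1002,nat_lit 0x100002,nat_lit 17,nat_lit 33,nat_lit 0x1011,nat_lit 0x10011,
    nat_lit 0x1000011,nat_lit 0x10000011,nat_lit 0x1001,nat_lit 0x11001,nat_lit 0x101001,nat_lit 0x1001001,
    nat_lit 0x10001001,nat_lit 0x10001,nat_lit 0x10101,nat_lit 0x20001,nat_lit 0x1010001,nat_lit 0x100001,
    nat_lit 0x100011,nat_lit 0x110001,nat_lit 0x200001,nat_lit 0x1100001,nat_lit 0x1000001,nat_lit 0x10000001],
    [nat_lit 32,nat_lit 48,nat_lit 0x1020,nat_lit 0x10020,nat_lit 272,nat_lit 0x10110,nat_lit 0x1010,nat_lit 0x11010,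
    nat_lit 0x1001010,nat_lit 0x10010,nat_lit 0x20010,nat_lit 0x1010010,nat_lit 0x100010,nat_lit 0x110010,
    nat_lit 0x1100010,nat_lit 0x1000010,nat_lit 0x10000010],[nat_lit 512,nat_lit 0x1100,nat_lit 0x10100,
    nat_lit 0x1000100],[nat_lit 0x2000,nat_lit 0x1002000,nat_lit 0x11000,nat_lit 0x21000,nat_lit 0x1011000,
    nat_lit 0x101000,nat_lit 0x1001000,nat_lit 0x10001000,nat_lit 0x10101000,nat_lit 0x11001000],[nat_lit 0x20000,
    nat_lit 0x1020000,nat_lit 0x110000,nat_lit 0x1010000,nat_lit 0x1110000],[nat_lit 0x200000,nat_lit 0x1100000,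
    nat_lit 0x1200000,nat_lit 0x10100000],[nat_lit 0x2000000],[nat_lit 0x20000000]]
    [.c (nat_lit 1) (nat_lit 2),.r (nat_lit 0xdc2) (nat_lit 14) [nat_lit 0x200001,nat_lit 0x3500432],
    .r (nat_lit 0x146e) (nat_lit 15) [nat_lit 0x2021,nat_lit 0x5021,nat_lit 0x604031,nat_lit 0x2000001,
    nat_lit 0x3040001],.r (nat_lit 0x161e) (nat_lit 11) [nat_lit 0x2001,nat_lit 0x3021],
    .r (nat_lit 0xdc2) (nat_lit 14) [nat_lit 0x200001,nat_lit 0x3320231],
    .r (nat_lit 0xfbe) (nat_lit 0) [nat_lit 0x3001,nat_lit 0x202001,nat_lit 0x4020051,nat_lit 0x3040021,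
    nat_lit 0x2050081],.r (nat_lit 0xdb5) (nat_lit 14) [nat_lit 0x200001,nat_lit 0x300231],
    .r (nat_lit 0x14ea) (nat_lit 11) [nat_lit 0x2001,nat_lit 0x200001,nat_lit 0x3021],
    .r (nat_lit 0x10ce) (nat_lit 8) [nat_lit 0x2200321,nat_lit 0x2001,nat_lit 0x3320231,nat_lit 0x200001,
    nat_lit 0x3500451],.r (nat_lit 0x165b) (nat_lit 3) [nat_lit 0x303021,nat_lit 0x200001],
    .r (nat_lit 0xeea) (nat_lit 11) [nat_lit 0x2001,nat_lit 0x220321,nat_lit 0x200001,nat_lit 0x530451,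
    nat_lit 0x2840981],.r (nat_lit 0xdc2) (nat_lit 14) [nat_lit 0x200001,nat_lit 0x3503432],
    .r (nat_lit 0xdc2) (nat_lit 14) [nat_lit 0x200001,nat_lit 0x300231],
    .r (nat_lit 0xeca) (nat_lit 0) [nat_lit 0x3001,nat_lit 0x202001,nat_lit 0x2000031,nat_lit 33,nat_lit 0x3950871],
    .r (nat_lit 0xdbb) (nat_lit 2) [nat_lit 0x3021,nat_lit 0x202001],.c (nat_lit 0) (nat_lit 0x30302),
    .r (nat_lit 0x169d) (nat_lit 11) [nat_lit 0x2001,nat_lit 0x20001,nat_lit 0x200001,nat_lit 0x2000001],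
    .r (nat_lit 0xdb4) (nat_lit 11) [nat_lit 0x202001,nat_lit 0x3021],.c (nat_lit 1) (nat_lit 514),
    .r (nat_lit 0x101e) (nat_lit 11) [nat_lit 0x20001,nat_lit 0x2000001,nat_lit 0x34041,nat_lit 0x824051,
    nat_lit 0x35041],.r (nat_lit 0x169d) (nat_lit 11) [nat_lit 0x2001,nat_lit 0x20001,nat_lit 0x200001,
    nat_lit 0x2000001],.r (nat_lit 0x146e) (nat_lit 15) [nat_lit 0x4021,nat_lit 0x3021,nat_lit 0x602031,
    nat_lit 0x2000001,nat_lit 0x3040001],.r (nat_lit 0x14ea) (nat_lit 11) [nat_lit 0x2001,nat_lit 0x200001,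
    nat_lit 0x23022],.r (nat_lit 0xdbb) (nat_lit 10) [nat_lit 0x3021,nat_lit 0x202001],
    .r (nat_lit 0xdbc) (nat_lit 13) [nat_lit 33,nat_lit 0x200001],.c (nat_lit 2) (nat_lit 2),
    .r (nat_lit 0x1343) (nat_lit 5) [nat_lit 33,nat_lit 0x60d0081,nat_lit 0x60051,nat_lit 0x202001],
    .r (nat_lit 0x1343) (nat_lit 5) [nat_lit 0x3040022,nat_lit 0x2050041,nat_lit 0x2020031,nat_lit 0x202001],
    .r (nat_lit 0x10ce) (nat_lit 8) [nat_lit 0x20031,nat_lit 0x2001,nat_lit 33,nat_lit 0x200001,nat_lit 0x2050041],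
    .r (nat_lit 0x14ea) (nat_lit 11) [nat_lit 0x2001,nat_lit 0x200001,nat_lit 0x220031],
    .r (nat_lit 0x169d) (nat_lit 11) [nat_lit 0x2001,nat_lit 0x20001,nat_lit 0x200001,nat_lit 0x2000001],
    .r (nat_lit 0x168f) (nat_lit 2) [nat_lit 0x3001,nat_lit 33,nat_lit 0x202001],
    .r (nat_lit 0xeba) (nat_lit 5) [nat_lit 0x3001,nat_lit 0x202001,nat_lit 0x220321,nat_lit 0x2400541,
    nat_lit 0x300231],.r (nat_lit 0x1343) (nat_lit 5) [nat_lit 0x3020021,nat_lit 0x3050081,nat_lit 0x4020051,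
    nat_lit 0x202001],.r (nat_lit 0xdba) (nat_lit 5) [nat_lit 33,nat_lit 0x200001],
    .r (nat_lit 0x169d) (nat_lit 11) [nat_lit 0x2001,nat_lit 0x20001,nat_lit 0x200001,nat_lit 0x2000001],
    .r (nat_lit 0xeca) (nat_lit 0) [nat_lit 0x3001,nat_lit 0x202001,nat_lit 0x2200321,nat_lit 0x300231,
    nat_lit 0x3350261],.r (nat_lit 0x161e) (nat_lit 11) [nat_lit 0x2001,nat_lit 33],
    .r (nat_lit 0xdb5) (nat_lit 14) [nat_lit 0x200001,nat_lit 0x303231],
    .r (nat_lit 0x14ea) (nat_lit 11) [nat_lit 0x2001,nat_lit 0x200001,nat_lit 33],.c (nat_lit 0) (nat_lit 0x2003),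
    .r (nat_lit 0x1520) (nat_lit 11) [nat_lit 0x2001,nat_lit 33,nat_lit 0x200001,nat_lit 0x20051,nat_lit 0x2050081],
    .c (nat_lit 3) (nat_lit 2),.r (nat_lit 0x14da) (nat_lit 2) [nat_lit 0x3001,nat_lit 0x303021,nat_lit 0x202001],
    .r (nat_lit 0x165b) (nat_lit 1) [nat_lit 0x300021,nat_lit 0x200001],
    .r (nat_lit 0xdc2) (nat_lit 14) [nat_lit 0x200001,nat_lit 0x3503221],.c (nat_lit 4) (nat_lit 2),
    .r (nat_lit 0x1343) (nat_lit 5) [nat_lit 0x5060022,nat_lit 0x3000041,nat_lit 0x4000031,nat_lit 0x202001],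
    .r (nat_lit 0xdb8) (nat_lit 14) [nat_lit 0x200001,nat_lit 33],.r (nat_lit 0x10ce) (nat_lit 8) [nat_lit 0x2000032,
    nat_lit 0x2001,nat_lit 0x3040022,nat_lit 0x200001,nat_lit 33],.r (nat_lit 0x10ce) (nat_lit 8) [nat_lit 0x2000031,
    nat_lit 0x2001,nat_lit 0x3020021,nat_lit 0x200001,nat_lit 0x3000041],
    .r (nat_lit 0x165b) (nat_lit 3) [nat_lit 0x300021,nat_lit 0x200001],.c (nat_lit 2) (nat_lit 0x302002),
    .r (nat_lit 0x149c) (nat_lit 6) [nat_lit 0x200001,nat_lit 0x20001,nat_lit 33,nat_lit 0x202001],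
    .r (nat_lit 0xeca) (nat_lit 0) [nat_lit 0x3001,nat_lit 0x202001,nat_lit 0x2003031,nat_lit 0x2021,
    nat_lit 0x3957871],.r (nat_lit 0xdb5) (nat_lit 14) [nat_lit 0x200001,nat_lit 33],.c (nat_lit 5) (nat_lit 2),
    .r (nat_lit 0xeca) (nat_lit 0) [nat_lit 0x3001,nat_lit 0x202001,nat_lit 0x4420522,nat_lit 0x530432,
    nat_lit 0x5530462],.r (nat_lit 0xdbb) (nat_lit 2) [nat_lit 33,nat_lit 0x202001],
    .r (nat_lit 0xdc0) (nat_lit 8) [nat_lit 0x202001,nat_lit 33],.r (nat_lit 0xdb4) (nat_lit 11) [nat_lit 0x202001,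
    nat_lit 33],.c (nat_lit 6) (nat_lit 2),.r (nat_lit 0xdbb) (nat_lit 10) [nat_lit 33,nat_lit 0x202001],
    .r (nat_lit 0x14ea) (nat_lit 11) [nat_lit 0x2001,nat_lit 0x200001,nat_lit 0x20022],
    .r (nat_lit 0xdbc) (nat_lit 13) [nat_lit 0x2021,nat_lit 0x200001],.c (nat_lit 7) (nat_lit 2),
    .c (nat_lit 8) (nat_lit 2)],
    .l (nat_lit 12) (nat_lit 960) (nat_lit 4) (nat_lit 0x183000001830000018200000182000001820000018200000181000001810000018900000189000001c0000001c0000001be000001be000001a20000017e) (nat_lit 0x3d0000003d0000003e0000003e0000003e0000003e0000003f0000003f000000370000003700000000000000000000000200000002000000420000001e)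
    (nat_lit 0x14a14614514514114514614612815815d1831c517b14116314614a14514514513713c14415a18a1831192451fb1411651451451521441441441051431b515310817418018013c0a01451451441521441440c113f17115317a16617e1a214013813714514414414814413b1431671cd16015c1ac18814016614514114414414414814314313b14b17812018010613e16414414613f1431431431421421ac14a1fb19117f18914316313c1460c110514313b14214216814a22f1c517f18913316318a15815315314b1cd14a14a10e15217f16b1870d914516b15a1281711b513b1671681ac15210e1891890ed16714716d11918316617412015c1c519118916b1e01c01bc1be1a223c18315d17a10817816022f1fb18917f2001e01be1be18421e1fb17b1a21801061881891891670d91be1be14017c1a21a02451c517e1801801ac17f17f0ed1871be1bc1bc14017e1a01651631380a016416616316316d16b21e23c1a01a011c18414114114013c13e1401331431471451841a217e1a213c11c)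
    (nat_lit 0x14a3c03c03c03c03c03c03c03c03c03c03c03c03c03c03c014614a3c03c03c03c03c03c03c03c03c03c03c03c03c03c01451451523c03c03c03c03c03c03c03c03c03c03c03c03c01451451441523c03c03c03c03c03c03c03c03c03c03c03c01411451441441483c03c03c03c03c03c03c03c03c03c03c01451371441441441483c03c03c03c03c03c03c03c03c03c014613c1050c113b1431423c03c03c03c03c03c03c03c03c014614414313f1431431421423c03c03c03c03c03c03c03c012815a1b517116713b1ac16810e3c03c03c03c03c03c03c015818a1531531cd14b14a14a15210e3c03c03c03c03c03c015d18310817a1601781fb1c917f1891e03c03c03c03c03c018311917416615c1201911c516b1891c01e03c03c03c03c01c524518017e1ac18017f17f1870ed1bc1be1403c03c03c017b1fb1801a21881061891890d91671be1be17c1403c03c014114113c14014013e1431331451471a21841a217e11c3c01631650a013816616416316116b16d20621a1a01a018411c)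
    (nat_lit 3) (nat_lit 61)
    [[nat_lit 2,nat_lit 3,nat_lit 0x10002,nat_lit 0x1000002,nat_lit 17,nat_lit 0x1000101,nat_lit 0x1001,
    nat_lit 0x1001001,nat_lit 0x10001,nat_lit 0x1010001,nat_lit 0x100001,nat_lit 0x1100001,nat_lit 0x1000001,
    nat_lit 0x2000001,nat_lit 0x10000001,nat_lit 0x11000001],[nat_lit 32,nat_lit 0x1020,nat_lit 272,nat_lit 0x1010,
    nat_lit 0x2010,nat_lit 0x2020,nat_lit 0x10010,nat_lit 0x100010,nat_lit 0x1000010],[nat_lit 0x1100,
    nat_lit 0x100100,nat_lit 0x10100100,nat_lit 0x1000100,nat_lit 0x1010100,nat_lit 0x1100100,nat_lit 0x11000100,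
    nat_lit 0x10000100],[nat_lit 0x2000,nat_lit 0x3000,nat_lit 0x11000,nat_lit 0x101000,nat_lit 0x1001000,
    nat_lit 0x10001000,nat_lit 0x10011000,nat_lit 0x10101000],[nat_lit 0x20000,nat_lit 0x1020000,nat_lit 0x110000,
    nat_lit 0x1110000,nat_lit 0x1010000,nat_lit 0x2010000,nat_lit 0x11010000,nat_lit 0x10010000],[nat_lit 0x200000,
    nat_lit 0x1100000,nat_lit 0x10100000],[nat_lit 0x2000000,nat_lit 0x11000000],[nat_lit 0x20000000]]
    [.c (nat_lit 1) (nat_lit 2),.r (nat_lit 0x12f0) (nat_lit 11) [nat_lit 17,nat_lit 0xe11,nat_lit 0x30c19,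
    nat_lit 0x2001],.r (nat_lit 0x12f0) (nat_lit 11) [nat_lit 0x411,nat_lit 0xa11,nat_lit 0x30819,nat_lit 0x2001],
    .r (nat_lit 0xc3c) (nat_lit 15) [nat_lit 0x10001,nat_lit 0x10401,nat_lit 0x2001,nat_lit 0xdb681,nat_lit 0x611],
    .c (nat_lit 0) (nat_lit 0x10483),.c (nat_lit 0) (nat_lit 0x30c2),.c (nat_lit 0) (nat_lit 0x10483),
    .c (nat_lit 0) (nat_lit 0x3613),.c (nat_lit 1) (nat_lit 130),.r (nat_lit 0xc3c) (nat_lit 15) [nat_lit 0x10001,
    nat_lit 0x10401,nat_lit 0x2001,nat_lit 0xdb681,nat_lit 17],.c (nat_lit 0) (nat_lit 0x3613),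
    .c (nat_lit 0) (nat_lit 0x3613),.c (nat_lit 0) (nat_lit 0x3613),.r (nat_lit 0xf26) (nat_lit 15) [nat_lit 0x10401,
    nat_lit 0x18611,nat_lit 0x10001,nat_lit 0x9a001,nat_lit 0xd0001],.r (nat_lit 0xdbb) (nat_lit 13) [nat_lit 17,
    nat_lit 0x10001],.r (nat_lit 0xdb4) (nat_lit 14) [nat_lit 0x10001,nat_lit 17],.c (nat_lit 2) (nat_lit 2),
    .r (nat_lit 0xdbb) (nat_lit 13) [nat_lit 0x84419,nat_lit 0x10001],
    .r (nat_lit 0xdbb) (nat_lit 13) [nat_lit 0x12419,nat_lit 0x10001],.c (nat_lit 0) (nat_lit 0x10483),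
    .r (nat_lit 0xdb2) (nat_lit 14) [nat_lit 0xd3011,nat_lit 0xdb681],.c (nat_lit 1) (nat_lit 0x20903),
    .c (nat_lit 0) (nat_lit 0x10403),.r (nat_lit 0x164b) (nat_lit 13) [nat_lit 0x2019,nat_lit 17,nat_lit 0x10001],
    .r (nat_lit 0x165b) (nat_lit 13) [nat_lit 0x2019,nat_lit 17],.r (nat_lit 0xdb2) (nat_lit 14) [nat_lit 17,
    nat_lit 0xdb681],.r (nat_lit 0xdb4) (nat_lit 14) [nat_lit 0x10001,nat_lit 0xc3099],
    .c (nat_lit 0) (nat_lit 0x13002),.r (nat_lit 0x164b) (nat_lit 1) [nat_lit 0x10019,nat_lit 17,nat_lit 0x2001],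
    .c (nat_lit 0) (nat_lit 0x3002),.r (nat_lit 0xdbb) (nat_lit 13) [nat_lit 0xc3099,nat_lit 0x10001],
    .c (nat_lit 0) (nat_lit 0x13002),.c (nat_lit 0) (nat_lit 0x13002),.c (nat_lit 4) (nat_lit 2),
    .r (nat_lit 0x1516) (nat_lit 7) [nat_lit 17,nat_lit 0x401,nat_lit 0x10001,nat_lit 0x2001],
    .c (nat_lit 0) (nat_lit 0x10403),.c (nat_lit 0) (nat_lit 0x3613),.c (nat_lit 0) (nat_lit 0x3613),
    .r (nat_lit 0x163a) (nat_lit 13) [nat_lit 0x401,nat_lit 0x10001,nat_lit 0x124d1,nat_lit 0x18699],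
    .c (nat_lit 2) (nat_lit 0x10803),.r (nat_lit 0x1698) (nat_lit 0) [nat_lit 0xdb699,nat_lit 0x10401,nat_lit 0x2001,
    nat_lit 0x80001],.c (nat_lit 5) (nat_lit 2),.r (nat_lit 0xc3c) (nat_lit 15) [nat_lit 0x10001,nat_lit 0x10401,
    nat_lit 0x2001,nat_lit 0xdb681,nat_lit 0x411],.c (nat_lit 0) (nat_lit 0x36d3),.c (nat_lit 0) (nat_lit 0x36d3),
    .c (nat_lit 0) (nat_lit 0x36d3),.r (nat_lit 0xf26) (nat_lit 15) [nat_lit 0x10401,nat_lit 0x18011,nat_lit 0x10001,
    nat_lit 0x9a001,nat_lit 0xd0001],.r (nat_lit 0xdb4) (nat_lit 14) [nat_lit 0x10001,nat_lit 0x411],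
    .r (nat_lit 0xdbb) (nat_lit 13) [nat_lit 0x411,nat_lit 0x10001],.c (nat_lit 6) (nat_lit 2),
    .c (nat_lit 0) (nat_lit 0x1bad3),.c (nat_lit 0) (nat_lit 0x1b6d3),.c (nat_lit 7) (nat_lit 2),
    .c (nat_lit 0) (nat_lit 0x1b6d3),.c (nat_lit 8) (nat_lit 2)],
    .l (nat_lit 11) (nat_lit 480) (nat_lit 3) (nat_lit 0x12a000000f0000000e9000000e9000000ec000000ec000000e8000000e8000000ca000000fa000000e7000000e7000000ec000000ec000000f8000000f8) (nat_lit 0x3a0000000000000041000000410000003e0000003e0000004200000042000000300000006000000043000000430000003e0000003e0000003200000032)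
    (nat_lit 0x1e04a8748cd24c4a0670e80f0328738e71d82087c0f816c3c0578af1702e85a0aa154240568ad1482c86d0b615e334500a815e2ac538a117220c530bc1662ac5b8c515e3a4540a01562ac518a717a224550a215e2b43d8bd1744a0558ab15c2b8550aa180240538a51502a85d0b6170498558af15c2b8570aa1782305389b1302b85d0ba1543a0538a11542a8530a618c210528a51542b03e0cc168338518a715c2a84c0a616c220528951682b05b0c412032844883118240440841541e0428890fc2305908e1541e05e8b91783005b0c61ac2a8638b71602e0640c015a39c510bc1362944a8a516e224540981622649b8c115a39c550a614e29c528a518e214500a81622a48f8a9164208568ab15c2a8560ac170230548991742c85d0b21483b0578b31302a05a0aa1601f8588b115c2e85d0ba16c3e05e8c51742d8620cc180238548c11742c8630c61b43e03d8b71742e85b07c1902c88f9371742e8630c6)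
    (nat_lit 0x1e0780f01e03c0780f01e03c0780f01e03c0780f01e02543c0f01e03c0780f01e03c0780f01e03c0780f01e01d22bc501e03c0780f01e03c0780f01e03c0780f01e019a2bc540a03c0780f01e03c0780f01e03c0780f01e024c2e0578ab15c780f01e03c0780f01e03c0780f01e02502e8558ab15c2b8f01e03c0780f01e03c0780f01e019c2d0538a31542b8531e03c0780f01e03c0780f01e01d02a8508a71542a8530a63c0780f01e03c0780f01e00f02a85c8bd1802f0630b6154780f01e03c0780f01e019424041889120230420880f02a8f01e03c0780f01e01ce2b4530aa14e29c528a510a31c541e03c0780f01e01ce2b45e0a214a26c528951122dc4c0a83c0780f01e01d8290598af150260550b40fc2c0588b1174780f01e01042c8558ad1542b8560ac1182e04c8a91642e8f01e01f03685b87b1742e83e0b61643208891f1742e8631e01f02d8628bd16c2e8660c411c300608a91642e8630c6)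
    (nat_lit 3) (nat_lit 37)
    [[nat_lit 2,nat_lit 17,nat_lit 0x1001,nat_lit 0x10001,nat_lit 0x10101,nat_lit 0x11001,nat_lit 0x100001,
    nat_lit 0x1000001,nat_lit 0x1001001,nat_lit 0x10000001],[nat_lit 32,nat_lit 272,nat_lit 0x1010,nat_lit 0x1110,
    nat_lit 0x10001010,nat_lit 0x10010,nat_lit 0x100010,nat_lit 0x100110,nat_lit 0x10100010,nat_lit 0x1000010,
    nat_lit 0x10000010],[nat_lit 512,nat_lit 0x10200,nat_lit 0x1100,nat_lit 0x10001100,nat_lit 0x10100,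
    nat_lit 0x100100,nat_lit 0x1000100,nat_lit 0x10000100],[nat_lit 0x2000,nat_lit 0x10002000,nat_lit 0x11000,
    nat_lit 0x101000,nat_lit 0x1001000,nat_lit 0x10001000,nat_lit 0x10011000,nat_lit 0x10101000,nat_lit 0x11001000],
    [nat_lit 0x20000,nat_lit 0x110000,nat_lit 0x1010000,nat_lit 0x10010000],[nat_lit 0x200000,nat_lit 0x1100000],
    [nat_lit 0x2000000,nat_lit 0x11000000],[]]
    [.c (nat_lit 1) (nat_lit 2),.c (nat_lit 0) (nat_lit 0x1b165),.c (nat_lit 0) (nat_lit 0x10545),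
    .r (nat_lit 0x164b) (nat_lit 12) [nat_lit 0x1202a,nat_lit 17,nat_lit 0x401],.c (nat_lit 0) (nat_lit 0x3604),
    .c (nat_lit 1) (nat_lit 0x18404),.r (nat_lit 0x165b) (nat_lit 11) [nat_lit 0x611,nat_lit 0x1282a],
    .c (nat_lit 0) (nat_lit 0x1b165),.r (nat_lit 0xdbb) (nat_lit 10) [nat_lit 0xc3822,nat_lit 0x12002],
    .c (nat_lit 0) (nat_lit 0x10405),.c (nat_lit 2) (nat_lit 2),.r (nat_lit 0xdbb) (nat_lit 12) [nat_lit 17,
    nat_lit 0x401],.c (nat_lit 0) (nat_lit 0x3765),.r (nat_lit 0xdb4) (nat_lit 10) [nat_lit 0x401,nat_lit 17],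
    .r (nat_lit 0xdbb) (nat_lit 12) [nat_lit 0xd0022,nat_lit 0x401],.c (nat_lit 0) (nat_lit 0x3765),
    .r (nat_lit 0xdb6) (nat_lit 10) [nat_lit 17,nat_lit 0x90002],.c (nat_lit 0) (nat_lit 0x13144),
    .c (nat_lit 0) (nat_lit 194),.c (nat_lit 0) (nat_lit 0x1b165),.r (nat_lit 0x169f) (nat_lit 15) [nat_lit 0x611,
    nat_lit 0x12002,nat_lit 0x401,nat_lit 0xeb12a],.c (nat_lit 3) (nat_lit 2),.c (nat_lit 0) (nat_lit 0x30c2),
    .c (nat_lit 0) (nat_lit 0x12005),.c (nat_lit 1) (nat_lit 0x12805),.c (nat_lit 0) (nat_lit 0x12005),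
    .c (nat_lit 0) (nat_lit 0x13144),.r (nat_lit 0xdb7) (nat_lit 8) [nat_lit 17,nat_lit 0xc312a],
    .r (nat_lit 0x165b) (nat_lit 11) [nat_lit 0x1202a,nat_lit 17],.c (nat_lit 4) (nat_lit 2),
    .c (nat_lit 0) (nat_lit 0x10003),.c (nat_lit 0) (nat_lit 0x10003),.r (nat_lit 0x1651) (nat_lit 1) [nat_lit 17,
    nat_lit 0x12002,nat_lit 0x401,nat_lit 0x8302a],.c (nat_lit 0) (nat_lit 0x3765),.c (nat_lit 0) (nat_lit 0x10405),
    .c (nat_lit 0) (nat_lit 0x10003),.c (nat_lit 0) (nat_lit 194),.r (nat_lit 0xdb7) (nat_lit 8) [nat_lit 0xd0022,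
    nat_lit 0x1b12a],.c (nat_lit 5) (nat_lit 2),.c (nat_lit 1) (nat_lit 0x4c2),.c (nat_lit 0) (nat_lit 0x3765),
    .c (nat_lit 0) (nat_lit 0x10003),.c (nat_lit 6) (nat_lit 2),.r (nat_lit 0xdbb) (nat_lit 10) [nat_lit 17,
    nat_lit 0x12002],.c (nat_lit 7) (nat_lit 2),.r (nat_lit 0xdb2) (nat_lit 4) [nat_lit 17,nat_lit 0x90002]]]

/-- nodes -/
noncomputable def rD8k_37_26 : List RJ :=
  [.l (nat_lit 10) (nat_lit 240) (nat_lit 4) (nat_lit 0x660000006600000060000000600000006a0000006a0000005d0000005d0000005f0000005f00000066000000660000005a0000005a0000006300000063) (nat_lit 0x4000000040000000a0000000a00000000000000000000000d0000000d0000000b0000000b000000040000000400000010000000100000000700000007)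
    (nat_lit 0x1885a1785e21070194590fc61140501683817c5f188621705c2006c164491745f1886215856174531705e140561c06013c39154551705a17050164591705e1585018060194670cc55168581704413c691b070180601586a1745d18c4d1c8881285c1845720084180701a8561745d17c5d1a07e1206818c411245919c391745d148500e85212c591bc4b0e068164651944f1745d140520f0521145b1c44d1406817c61154551744d148521485416c710f463130341743f0cc5517c630f03a1c05216c5b0ec611a858188501605a1f88816c5916c7114046158561ec73188501685c1a0721144b16c5b18850158561f47515838110501a05c1344b18463158560d04a194531585a1705c1204a1c46f0ec3d158561603414c5314c5f1a459104571a068160341d47314c531604e1745f13c5918c61140381a84c1f47b14c6519058)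
    (nat_lit 0x188f03c0f03c0f03c0f03c0f03c0f03c0f03c0f0168623c0f03c0f03c0f03c0f03c0f03c0f03c0f01785c140f03c0f03c0f03c0f03c0f03c0f03c0f01785c158503c0f03c0f03c0f03c0f03c0f03c0f0210801c060158f03c0f03c0f03c0f03c0f03c0f01c06c180601a8563c0f03c0f03c0f03c0f03c0f01945913c651745d148f03c0f03c0f03c0f03c0f0164490e4671745d140523c0f03c0f03c0f03c0f00fc5d1543318c5f0e83c148f03c0f03c0f03c0f01845f154551345d14852150523c0f03c0f03c0f0140621705a1c86812c4516c5b140f03c0f03c0f014062168582207e1645b1c45b118503c0f03c0f0168561705c128481bc710f43b158560d0f03c0f00e056140441706812c4d18c6115856128343c0f017c5d1644f184630e0501306a1ec7d19453160f017c531646715c411a0680d0581cc7514c5313858)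
    (nat_lit 4) (nat_lit 49)
    [[nat_lit 2,nat_lit 17,nat_lit 33,nat_lit 0x1011,nat_lit 0x10000011,nat_lit 0x1001,nat_lit 0x11001,
    nat_lit 0x1001001,nat_lit 0x10001001,nat_lit 0x10001,nat_lit 0x10002,nat_lit 0x10011,nat_lit 0x110001,
    nat_lit 0x1011001,nat_lit 0x100001,nat_lit 0x1000001,nat_lit 0x10000001],[nat_lit 32,nat_lit 48,nat_lit 64,
    nat_lit 288,nat_lit 0x1020,nat_lit 0x100020,nat_lit 0x1000020,nat_lit 0x10000020,nat_lit 272,nat_lit 0x10110,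
    nat_lit 0x1010,nat_lit 0x1110,nat_lit 0x11010,nat_lit 0x1001010,nat_lit 0x10001010,nat_lit 0x10010,
    nat_lit 0x1010010,nat_lit 0x100010,nat_lit 0x1100010,nat_lit 0x10100010,nat_lit 0x1000010,nat_lit 0x10000010],
    [nat_lit 512,nat_lit 0x10200,nat_lit 0x1100,nat_lit 0x1001100,nat_lit 0x10100,nat_lit 0x1010100,
    nat_lit 0x10010100,nat_lit 0x1000100,nat_lit 0x10000100],[nat_lit 0x2000,nat_lit 0x12000,nat_lit 0x1002000,
    nat_lit 0x11000,nat_lit 0x21000,nat_lit 0x111000,nat_lit 0x1011000,nat_lit 0x10011000,nat_lit 0x101000,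
    nat_lit 0x1001000,nat_lit 0x2001000,nat_lit 0x10001000],[nat_lit 0x20000,nat_lit 0x110000,nat_lit 0x1010000,
    nat_lit 0x2010000,nat_lit 0x10010000],[nat_lit 0x200000,nat_lit 0x1100000],[nat_lit 0x2000000,nat_lit 0x11000000],
    [nat_lit 0x20000000]]
    [.c (nat_lit 1) (nat_lit 2),.c (nat_lit 0) (nat_lit 0x20205),.c (nat_lit 0) (nat_lit 0x355744),
    .r (nat_lit 0x1660) (nat_lit 3) [nat_lit 0x20001,nat_lit 0x2200002,nat_lit 0x5757482,nat_lit 0x3030231,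
    nat_lit 0x3046542],.r (nat_lit 0xdbb) (nat_lit 10) [nat_lit 0x242052,nat_lit 0x2200002],
    .c (nat_lit 0) (nat_lit 0x305345),.c (nat_lit 1) (nat_lit 0x244254),.c (nat_lit 0) (nat_lit 0x305345),
    .r (nat_lit 0x16a0) (nat_lit 11) [nat_lit 0x20001,nat_lit 0x2442542,nat_lit 0x2053452,nat_lit 0x3553442],
    .r (nat_lit 0x164b) (nat_lit 12) [nat_lit 0x2200052,nat_lit 33,nat_lit 0x20001],
    .r (nat_lit 0xdbb) (nat_lit 12) [nat_lit 0x2202032,nat_lit 0x20001],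
    .r (nat_lit 0xdbb) (nat_lit 12) [nat_lit 0x2204052,nat_lit 0x20001],
    .r (nat_lit 0xd8f) (nat_lit 15) [nat_lit 0x2003451,nat_lit 0x3593441,nat_lit 0x80001,nat_lit 0x7597c52,
    nat_lit 0x2402541],.r (nat_lit 0xdbb) (nat_lit 12) [nat_lit 0x30231,nat_lit 0x20001],
    .r (nat_lit 0x165b) (nat_lit 11) [nat_lit 0x30021,nat_lit 0x2240052],.c (nat_lit 0) (nat_lit 0x20205),
    .r (nat_lit 0xdb2) (nat_lit 13) [nat_lit 33,nat_lit 0x353402],.c (nat_lit 2) (nat_lit 2),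
    .r (nat_lit 0xdb4) (nat_lit 10) [nat_lit 0x20001,nat_lit 0x357442],.c (nat_lit 5) (nat_lit 0x403),
    .r (nat_lit 0x164b) (nat_lit 12) [nat_lit 0x3021,nat_lit 0x2204052,nat_lit 0x20001],
    .r (nat_lit 0xd90) (nat_lit 7) [nat_lit 0x352451,nat_lit 0x80001,nat_lit 0x9352452,nat_lit 0x4400001,
    nat_lit 0x246542],.r (nat_lit 0x165b) (nat_lit 10) [nat_lit 0x3021,nat_lit 0x22031],
    .r (nat_lit 0xdbb) (nat_lit 12) [nat_lit 0x2003042,nat_lit 0x20001],
    .r (nat_lit 0xdbb) (nat_lit 2) [nat_lit 0x22031,nat_lit 0x2200002],.r (nat_lit 0xdbb) (nat_lit 12) [nat_lit 33,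
    nat_lit 0x20001],.c (nat_lit 0) (nat_lit 0x300304),.c (nat_lit 0) (nat_lit 0x335045),
    .r (nat_lit 0xdb4) (nat_lit 10) [nat_lit 0x20001,nat_lit 33],.c (nat_lit 0) (nat_lit 0x335045),
    .c (nat_lit 2) (nat_lit 0x224454),.r (nat_lit 0xdb4) (nat_lit 11) [nat_lit 0x2200002,nat_lit 0x3300452],
    .c (nat_lit 0) (nat_lit 515),.c (nat_lit 0) (nat_lit 0x335045),.r (nat_lit 0xdb6) (nat_lit 10) [nat_lit 33,
    nat_lit 0x353402],.r (nat_lit 0xdb2) (nat_lit 13) [nat_lit 0x242052,nat_lit 0x353402],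
    .c (nat_lit 0) (nat_lit 0x3002),.c (nat_lit 0) (nat_lit 0x20205),
    .r (nat_lit 0x12f2) (nat_lit 10) [nat_lit 0x42051,nat_lit 0x3041,nat_lit 0x2200002,nat_lit 0x2001],
    .c (nat_lit 3) (nat_lit 2),.c (nat_lit 0) (nat_lit 0x300002),.c (nat_lit 2) (nat_lit 0x24654),
    .r (nat_lit 0xdbb) (nat_lit 12) [nat_lit 0x2244542,nat_lit 0x20001],.c (nat_lit 0) (nat_lit 0x35345),
    .r (nat_lit 0x1660) (nat_lit 3) [nat_lit 0x20001,nat_lit 0x2200002,nat_lit 0x57d7c92,nat_lit 0x3000021,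
    nat_lit 0x3006052],.r (nat_lit 0x1651) (nat_lit 1) [nat_lit 0x303452,nat_lit 0x2200002,nat_lit 0x20001,
    nat_lit 0x3350042],.r (nat_lit 0x149d) (nat_lit 8) [nat_lit 0x20001,nat_lit 0x242542,nat_lit 0x2442502,
    nat_lit 0x3593852],.r (nat_lit 0x165b) (nat_lit 11) [nat_lit 0x2200052,nat_lit 33],.c (nat_lit 4) (nat_lit 2),
    .c (nat_lit 0) (nat_lit 0x335343),.c (nat_lit 0) (nat_lit 0x335343),.c (nat_lit 0) (nat_lit 0x335343),
    .r (nat_lit 0x164b) (nat_lit 12) [nat_lit 0x353452,nat_lit 0x2442542,nat_lit 0x20001],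
    .r (nat_lit 0x165b) (nat_lit 11) [nat_lit 0x2402542,nat_lit 0x303452],.c (nat_lit 0) (nat_lit 0x335343),
    .r (nat_lit 0xdb2) (nat_lit 13) [nat_lit 0x2442542,nat_lit 0x353402],.r (nat_lit 0x1651) (nat_lit 1) [nat_lit 33,
    nat_lit 0x2200002,nat_lit 0x20001,nat_lit 0x3553452],.c (nat_lit 0) (nat_lit 0x305345),
    .c (nat_lit 0) (nat_lit 0x305345),.r (nat_lit 0x164b) (nat_lit 10) [nat_lit 0x20031,nat_lit 33,nat_lit 0x2200002],
    .c (nat_lit 5) (nat_lit 2),.r (nat_lit 0xdbb) (nat_lit 2) [nat_lit 33,nat_lit 0x2200002],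
    .c (nat_lit 0) (nat_lit 0x335343),.c (nat_lit 0) (nat_lit 0x335343),
    .r (nat_lit 0x165b) (nat_lit 10) [nat_lit 0x20031,nat_lit 33],.c (nat_lit 6) (nat_lit 2),
    .r (nat_lit 0xdbb) (nat_lit 10) [nat_lit 33,nat_lit 0x2200002],.c (nat_lit 7) (nat_lit 2),
    .r (nat_lit 0xdb2) (nat_lit 4) [nat_lit 33,nat_lit 0x353402],.c (nat_lit 8) (nat_lit 2)],
    .l (nat_lit 10) (nat_lit 240) (nat_lit 3) (nat_lit 0x6a0000006a00000067000000670000006600000066000000670000006700000067000000670000006c0000006c0000007c0000007c000000730000005f) (nat_lit 0x12000000120000001500000015000000160000001600000015000000150000001500000015000000100000001000000000000000000000001d00000009)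
    (nat_lit 0x1605815c55150541545514c5d1685a1c0581346116058154551504e1545512c5516858260801346115455160521445114852150521046119c67128301545713858134511504e1785815c5719c671285e13854144511505412c551444f1584a1986611c5d15054134511405414c511344f15852198661245d154551385214455150521585015c5b19c671285e154551505214c4b14854160521246119c671085e1545d1605213c4f148501205215c5119c751285e12c531785413451160561484815c570ec671285e1605a15c611484a1845b15c511705c1b06c1448f1685a15c41158561245715c571705c1b06c1849f2005819c671986619c6719c751b06c1007c17c732607019c671986619c670ec671b06c1f04017c7318461178301745d1785e1785e27c8f1cc731406a1344d1284a124471084a1284a1845117c5f10850)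
    (nat_lit 0x160f03c0f03c0f03c0f03c0f03c0f03c0f03c0f0160583c0f03c0f03c0f03c0f03c0f03c0f03c0f015c55160f03c0f03c0f03c0f03c0f03c0f03c0f015455148583c0f03c0f03c0f03c0f03c0f03c0f0150541444d150f03c0f03c0f03c0f03c0f03c0f01504e14451150543c0f03c0f03c0f03c0f03c0f0154551485412c53150f03c0f03c0f03c0f03c0f0154551484e15451148543c0f03c0f03c0f03c0f014c4b1505e1444d15858120f03c0f03c0f03c0f0174551485813c4f14052148483c0f03c0f03c0f01685a104571585615c4915c57170f03c0f03c0f016858184571285216c61144571705c3c0f03c0f01c09019c671986619c6719c3b1b06c100f03c0f01608019c671986619c671d4671b06c1f0403c0f01344d1284a11c49128421284a1446117c5f140f0184610c05e1745d1785e1785e21c871cc731a850)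
    (nat_lit 4) (nat_lit 37)
    [[nat_lit 2,nat_lit 0x1000002,nat_lit 17,nat_lit 0x1000101,nat_lit 0x1001,nat_lit 0x1001001,nat_lit 0x10001,
    nat_lit 0x1010001,nat_lit 0x100001,nat_lit 0x1100001,nat_lit 0x1000001,nat_lit 0x2000001,nat_lit 0x10000001,
    nat_lit 0x11000001],[nat_lit 32,nat_lit 48,nat_lit 272,nat_lit 0x1010,nat_lit 0x10001010,nat_lit 0x10010,
    nat_lit 0x100010,nat_lit 0x1000010],[nat_lit 512,nat_lit 0x1100,nat_lit 0x101100,nat_lit 0x10100,nat_lit 0x110100,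
    nat_lit 0x100100,nat_lit 0x1000100,nat_lit 0x1100100,nat_lit 0x10000100],[nat_lit 0x2000,nat_lit 0x3000,
    nat_lit 0x102000,nat_lit 0x11000,nat_lit 0x101000,nat_lit 0x111000,nat_lit 0x1001000,nat_lit 0x10001000,
    nat_lit 0x10101000],[nat_lit 0x20000,nat_lit 0x110000,nat_lit 0x1110000,nat_lit 0x1010000,nat_lit 0x10010000],
    [nat_lit 0x200000,nat_lit 0x1100000,nat_lit 0x10100000],[nat_lit 0x2000000,nat_lit 0x11000000],
    [nat_lit 0x20000000]]
    [.c (nat_lit 1) (nat_lit 2),.c (nat_lit 0) (nat_lit 0x200407),.r (nat_lit 0xdb8) (nat_lit 13) [nat_lit 0x622073,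
    nat_lit 33],.c (nat_lit 0) (nat_lit 0x3306),.c (nat_lit 0) (nat_lit 0x373067),
    .r (nat_lit 0xb80) (nat_lit 6) [nat_lit 0x3733601,nat_lit 0x20001,nat_lit 0x600001,nat_lit 0x2001,
    nat_lit 0x2620761],.c (nat_lit 0) (nat_lit 0x200207),.c (nat_lit 0) (nat_lit 0x200207),
    .c (nat_lit 0) (nat_lit 0x373067),.r (nat_lit 0x1698) (nat_lit 3) [nat_lit 0x3730673,nat_lit 0x200001,
    nat_lit 0x22003,nat_lit 0x33063],.c (nat_lit 0) (nat_lit 0x200207),.c (nat_lit 0) (nat_lit 0x400207),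
    .r (nat_lit 0xdb3) (nat_lit 5) [nat_lit 0x622073,nat_lit 0x2003063],
    .r (nat_lit 0xb7e) (nat_lit 9) [nat_lit 0x600001,nat_lit 0x20001,nat_lit 0x2002071,nat_lit 0x3733601,
    nat_lit 0x3061],.c (nat_lit 2) (nat_lit 2),.r (nat_lit 0xdb3) (nat_lit 5) [nat_lit 0x20023,nat_lit 0x2600033],
    .r (nat_lit 0xdb3) (nat_lit 5) [nat_lit 33,nat_lit 0x2620073],.r (nat_lit 0xb82) (nat_lit 11) [nat_lit 0x600001,
    nat_lit 0x3733671,nat_lit 0x2000001,nat_lit 97,nat_lit 0x20001],.c (nat_lit 0) (nat_lit 0x30002),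
    .r (nat_lit 0x1398) (nat_lit 9) [nat_lit 0x2001,nat_lit 0x20001,nat_lit 0x200001,nat_lit 0x2000071],
    .r (nat_lit 0xb83) (nat_lit 3) [nat_lit 0x20001,nat_lit 97,nat_lit 0x2001,nat_lit 0x600071,nat_lit 0x2000001],
    .r (nat_lit 0xdc2) (nat_lit 8) [nat_lit 33,nat_lit 0x3730603],.c (nat_lit 3) (nat_lit 2),
    .r (nat_lit 0xda7) (nat_lit 13) [nat_lit 0x30061,nat_lit 0x3703671,nat_lit 0x2001,nat_lit 0x200001],
    .c (nat_lit 0) (nat_lit 0x260276),.c (nat_lit 0) (nat_lit 0x202007),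
    .r (nat_lit 0xb80) (nat_lit 6) [nat_lit 0x3733601,nat_lit 0x20001,nat_lit 0x600001,nat_lit 0x2001,
    nat_lit 0x2020071],.r (nat_lit 0xda7) (nat_lit 13) [nat_lit 0x3703671,nat_lit 0x30061,nat_lit 0x2001,
    nat_lit 0x200001],.c (nat_lit 0) (nat_lit 0x202007),.r (nat_lit 0xb7f) (nat_lit 0) [nat_lit 0x600001,
    nat_lit 0x2001,nat_lit 0x20001,nat_lit 0x3733601,nat_lit 0x2020071],.r (nat_lit 0xdb8) (nat_lit 13) [nat_lit 33,
    nat_lit 0x622073],.c (nat_lit 4) (nat_lit 2),.r (nat_lit 0xda7) (nat_lit 13) [nat_lit 33,nat_lit 0x3733631,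
    nat_lit 0x2001,nat_lit 0x200001],.r (nat_lit 0xda7) (nat_lit 13) [nat_lit 0x2622761,nat_lit 0x5d55c71,
    nat_lit 0x2001,nat_lit 0x200001],.c (nat_lit 0) (nat_lit 0x73367),.c (nat_lit 0) (nat_lit 0x373367),
    .c (nat_lit 0) (nat_lit 0x73367),.c (nat_lit 0) (nat_lit 0x73367),.r (nat_lit 0xe73) (nat_lit 2) [nat_lit 0x2001,
    nat_lit 0x20001,nat_lit 33,nat_lit 0x200001,nat_lit 0x3733671],.r (nat_lit 0xdb8) (nat_lit 13) [nat_lit 0x2642763,
    nat_lit 0x3030673],.c (nat_lit 5) (nat_lit 2),.c (nat_lit 0) (nat_lit 0x73367),.c (nat_lit 0) (nat_lit 0x73367),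
    .c (nat_lit 0) (nat_lit 0x200007),.r (nat_lit 0xb5d) (nat_lit 15) [nat_lit 0x20001,nat_lit 97,nat_lit 0x3733601,
    nat_lit 0x2000071,nat_lit 0x2001],.c (nat_lit 6) (nat_lit 2),.c (nat_lit 0) (nat_lit 0x73367),
    .r (nat_lit 0xb7d) (nat_lit 11) [nat_lit 0x600001,nat_lit 0x2000001,nat_lit 0x700061,nat_lit 0x3033671,
    nat_lit 0x20001],.c (nat_lit 7) (nat_lit 2),.r (nat_lit 0xdb3) (nat_lit 4) [nat_lit 33,nat_lit 0x2620073],
    .c (nat_lit 8) (nat_lit 2)]]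

/-- nodes -/
noncomputable def rD8k_37_27 : List RJ :=
  [.s (nat_lit 16) (nat_lit 0x2580) (nat_lit 5) (nat_lit 0x14d6000014d600001292000012920000158c00000e78000010dc000010dc0000126c00000e440000107600001076000010ca000010ca0000123200001232) (nat_lit 0xb6000000b6000002fa000002fa0000071400000000000004b0000004b000000748000003200000051600000516000004c2000004c20000035a0000035a)
    (nat_lit 0xce0142011dc0f540dc214ee0fa20f1e0da6129a0fc00c9010141014117c117c14200ce011dc11dc1062178e102610260d8e0c020fc00fc0091c10141404140411dc0f540ce00f980b7e129213960b420b4a0f720d7c0d7c0b480dd01678163011dc11dc0f980ce00b7e12921a0e11ba0b4a0f720d1c0d7c0e300e300f200ed8178e14ee129212920aa0158c10dc10dc0e44064010161076112a112a123211d210620dc20b7e0b7e07640aa00cd409c8073008ac096209aa09b609b60c260b7e10260f1e11ba0b4209c810dc0ed80c2c094c0ab00bc60bc60bba0c1a0d820d8210260fa21a0e13960cd410dc0c2c0ed806400dbc0afa0b5a0c1a08c60c9e0d820c02129a0f720f7208ac06400dbc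0ab00b900f4c10aa10aa0daa0e760f960f120d8e0da60b4a0b4a07300e440640094c06fc0b90092e092e098209820e1a087a0fc00c900d7c0d7c09aa10760b5a0bc6092e10aa0b600b600e240bb40d040d1c0fc00fc00d1c0d7c096210160afa0bc6092e10aa0b600b600e240bb40d1c0d1c101410140e300dd009b6112a08c60c1a09820e760bb40bb40c080c080d700b00091c10140e300b4809b6112a0c1a0bba09820daa0e240e240c080c080d700d701404117c0ed816300b7e11d20d820d82087a0f120d1c0d1c0d700b000ed80ed81404117c0f2016780c2612320c9e0d820e1a0f960d1c0d040d700d700ed80ed8)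
    (nat_lit 0xce025802580258025802580258025802580258025802580258025802580258014200ce02580258025802580258025802580258025802580258025802580258011dc11dc0ce025802580258025802580258025802580258025802580258025800f5411dc0f980ce02580258025802580258025802580258025802580258025800dc210620b7e0b7e0aa02580258025802580258025802580258025802580258014ee178e12921292158c0aa025802580258025802580258025802580258025800fa2102613961a0e10dc0cd40ed82580258025802580258025802580258025800f1e10260b4211ba10dc09c80c2c0ed8258025802580258025802580258025800da60d8e0b4a0b4a0e440730094c06400b902580258025802580258025802580129a0c020f720f72064008ac0ab00dbc0eec0b902580258025802580258025800fc00fc00d7c0d1c0f6e09620bc60afa0fa2092e0b60258025802580258025800c900fc00d7c0d7c0f6e09aa0bc60b5a0fea092e0b600b6025802580258025801014091c0b480e300fc209b60bba0c1a0daa09820e240e240c08258025802580101410140dd00e300fc209b60c1a08c60e7609820bb40bb40c080c0825802580117c140416780f2012320c260d820c9e0f960e1a0d040d1c0d700d700ed82580117c140416300ed80eba0b7e0d820d820f12087a0d1c0d1c0b000d700ed80ed8)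
    (nat_lit 6) (nat_lit 139)
    [[nat_lit 0,nat_lit 2,nat_lit 2,nat_lit 8,nat_lit 3],[nat_lit 0,nat_lit 2,nat_lit 2,nat_lit 9,nat_lit 3],
    [nat_lit 0,nat_lit 2,nat_lit 8,nat_lit 3,nat_lit 3],[nat_lit 0,nat_lit 2,nat_lit 8,nat_lit 10],[nat_lit 0,
    nat_lit 2,nat_lit 9,nat_lit 3,nat_lit 3],[nat_lit 0,nat_lit 2,nat_lit 11,nat_lit 9],[nat_lit 0,nat_lit 4,
    nat_lit 10],[nat_lit 0,nat_lit 4,nat_lit 11],[nat_lit 0,nat_lit 5,nat_lit 11],[nat_lit 0,nat_lit 6,nat_lit 1,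
    nat_lit 2,nat_lit 3],[nat_lit 0,nat_lit 6,nat_lit 1,nat_lit 10],[nat_lit 0,nat_lit 6,nat_lit 1,nat_lit 11],
    [nat_lit 0,nat_lit 7,nat_lit 1,nat_lit 2,nat_lit 3],[nat_lit 0,nat_lit 7,nat_lit 1,nat_lit 10],[nat_lit 0,
    nat_lit 7,nat_lit 1,nat_lit 11],[nat_lit 0,nat_lit 7,nat_lit 11,nat_lit 9],[nat_lit 0,nat_lit 9,nat_lit 11,
    nat_lit 6],[nat_lit 0,nat_lit 11,nat_lit 5],[nat_lit 0,nat_lit 11,nat_lit 6,nat_lit 9],[nat_lit 0,nat_lit 12],
    [nat_lit 0,nat_lit 13],[nat_lit 1,nat_lit 2,nat_lit 2,nat_lit 8,nat_lit 3],[nat_lit 1,nat_lit 2,nat_lit 2,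
    nat_lit 9,nat_lit 3],[nat_lit 1,nat_lit 2,nat_lit 8,nat_lit 3,nat_lit 3],[nat_lit 1,nat_lit 2,nat_lit 9,nat_lit 3,
    nat_lit 3],[nat_lit 1,nat_lit 4,nat_lit 10],[nat_lit 1,nat_lit 7,nat_lit 10,nat_lit 8],[nat_lit 1,nat_lit 8,
    nat_lit 7,nat_lit 10],[nat_lit 1,nat_lit 8,nat_lit 10,nat_lit 3],[nat_lit 1,nat_lit 8,nat_lit 10,nat_lit 6],
    [nat_lit 1,nat_lit 10,nat_lit 4],[nat_lit 1,nat_lit 10,nat_lit 5],[nat_lit 1,nat_lit 11,nat_lit 5],[nat_lit 1,
    nat_lit 11,nat_lit 9,nat_lit 3],[nat_lit 1,nat_lit 12],[nat_lit 1,nat_lit 13],[nat_lit 2,nat_lit 2,nat_lit 15],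
    [nat_lit 2,nat_lit 4,nat_lit 4],[nat_lit 2,nat_lit 4,nat_lit 5],[nat_lit 2,nat_lit 5,nat_lit 4],[nat_lit 2,
    nat_lit 5,nat_lit 5],[nat_lit 2,nat_lit 7,nat_lit 15],[nat_lit 2,nat_lit 14,nat_lit 3],[nat_lit 2,nat_lit 14,
    nat_lit 6],[nat_lit 2,nat_lit 14,nat_lit 7],[nat_lit 2,nat_lit 15,nat_lit 2],[nat_lit 2,nat_lit 15,nat_lit 3],
    [nat_lit 2,nat_lit 15,nat_lit 6],[nat_lit 2,nat_lit 15,nat_lit 7],[nat_lit 3,nat_lit 3,nat_lit 14],[nat_lit 3,
    nat_lit 4,nat_lit 4],[nat_lit 3,nat_lit 4,nat_lit 5],[nat_lit 3,nat_lit 5,nat_lit 4],[nat_lit 3,nat_lit 5,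
    nat_lit 5],[nat_lit 3,nat_lit 6,nat_lit 14],[nat_lit 3,nat_lit 6,nat_lit 15],[nat_lit 3,nat_lit 7,nat_lit 14],
    [nat_lit 3,nat_lit 7,nat_lit 15],[nat_lit 3,nat_lit 14,nat_lit 3],[nat_lit 3,nat_lit 14,nat_lit 6],[nat_lit 4,
    nat_lit 4,nat_lit 6],[nat_lit 4,nat_lit 4,nat_lit 7],[nat_lit 4,nat_lit 5,nat_lit 6],[nat_lit 4,nat_lit 5,
    nat_lit 7],[nat_lit 4,nat_lit 6,nat_lit 4],[nat_lit 4,nat_lit 6,nat_lit 5],[nat_lit 4,nat_lit 7,nat_lit 4],
    [nat_lit 4,nat_lit 7,nat_lit 5],[nat_lit 4,nat_lit 8,nat_lit 10],[nat_lit 4,nat_lit 8,nat_lit 11],[nat_lit 4,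
    nat_lit 9,nat_lit 10],[nat_lit 4,nat_lit 9,nat_lit 11],[nat_lit 4,nat_lit 10,nat_lit 8],[nat_lit 4,nat_lit 10,
    nat_lit 9],[nat_lit 4,nat_lit 11,nat_lit 8],[nat_lit 4,nat_lit 11,nat_lit 9],[nat_lit 5,nat_lit 5,nat_lit 6],
    [nat_lit 5,nat_lit 5,nat_lit 7],[nat_lit 5,nat_lit 6,nat_lit 5],[nat_lit 5,nat_lit 7,nat_lit 5],[nat_lit 5,
    nat_lit 8,nat_lit 10],[nat_lit 5,nat_lit 8,nat_lit 11],[nat_lit 5,nat_lit 9,nat_lit 10],[nat_lit 5,nat_lit 9,
    nat_lit 11],[nat_lit 5,nat_lit 10,nat_lit 8],[nat_lit 5,nat_lit 10,nat_lit 9],[nat_lit 5,nat_lit 11,nat_lit 8],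
    [nat_lit 5,nat_lit 11,nat_lit 9],[nat_lit 6,nat_lit 6,nat_lit 14],[nat_lit 6,nat_lit 6,nat_lit 15],[nat_lit 6,
    nat_lit 7,nat_lit 14],[nat_lit 6,nat_lit 7,nat_lit 15],[nat_lit 6,nat_lit 9,nat_lit 9,nat_lit 11],[nat_lit 6,
    nat_lit 14,nat_lit 6],[nat_lit 6,nat_lit 15,nat_lit 6],[nat_lit 7,nat_lit 7,nat_lit 14],[nat_lit 7,nat_lit 7,
    nat_lit 15],[nat_lit 7,nat_lit 10,nat_lit 8,nat_lit 8],[nat_lit 7,nat_lit 14,nat_lit 7],[nat_lit 7,nat_lit 15,
    nat_lit 7],[nat_lit 8,nat_lit 12],[nat_lit 8,nat_lit 13],[nat_lit 9,nat_lit 12],[nat_lit 9,nat_lit 13],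
    [nat_lit 10,nat_lit 14],[nat_lit 10,nat_lit 15],[nat_lit 11,nat_lit 14],[nat_lit 11,nat_lit 15]]
    [nat_lit 0x102283,nat_lit 0x102293,nat_lit 0x102833,nat_lit 0x1028a,nat_lit 0x102933,nat_lit 0x102b9,
    nat_lit 0x104a,nat_lit 0x104b,nat_lit 0x105b,nat_lit 0x106123,nat_lit 0x1061a,nat_lit 0x1061b,nat_lit 0x107123,
    nat_lit 0x1071a,nat_lit 0x1071b,nat_lit 0x107b9,nat_lit 0x109b6,nat_lit 0x10b5,nat_lit 0x10b69,nat_lit 268,
    nat_lit 269,nat_lit 0x112283,nat_lit 0x112293,nat_lit 0x112833,nat_lit 0x112933,nat_lit 0x114a,nat_lit 0x117a8,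
    nat_lit 0x1187a,nat_lit 0x118a3,nat_lit 0x118a6,nat_lit 0x11a4,nat_lit 0x11a5,nat_lit 0x11b5,nat_lit 0x11b93,
    nat_lit 284,nat_lit 285,nat_lit 0x122f,nat_lit 0x1244,nat_lit 0x1245,nat_lit 0x1254,nat_lit 0x1255,nat_lit 0x127f,
    nat_lit 0x12e3,nat_lit 0x12e6,nat_lit 0x12e7,nat_lit 0x12f2,nat_lit 0x12f3,nat_lit 0x12f6,nat_lit 0x12f7,
    nat_lit 0x133e,nat_lit 0x1344,nat_lit 0x1345,nat_lit 0x1354,nat_lit 0x1355,nat_lit 0x136e,nat_lit 0x136f,
    nat_lit 0x137e,nat_lit 0x137f,nat_lit 0x13e3,nat_lit 0x13e6,nat_lit 0x1446,nat_lit 0x1447,nat_lit 0x1456,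
    nat_lit 0x1457,nat_lit 0x1464,nat_lit 0x1465,nat_lit 0x1474,nat_lit 0x1475,nat_lit 0x148a,nat_lit 0x148b,
    nat_lit 0x149a,nat_lit 0x149b,nat_lit 0x14a8,nat_lit 0x14a9,nat_lit 0x14b8,nat_lit 0x14b9,nat_lit 0x1556,
    nat_lit 0x1557,nat_lit 0x1565,nat_lit 0x1575,nat_lit 0x158a,nat_lit 0x158b,nat_lit 0x159a,nat_lit 0x159b,
    nat_lit 0x15a8,nat_lit 0x15a9,nat_lit 0x15b8,nat_lit 0x15b9,nat_lit 0x166e,nat_lit 0x166f,nat_lit 0x167e,
    nat_lit 0x167f,nat_lit 0x1699b,nat_lit 0x16e6,nat_lit 0x16f6,nat_lit 0x177e,nat_lit 0x177f,nat_lit 0x17a88,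
    nat_lit 0x17e7,nat_lit 0x17f7,nat_lit 396,nat_lit 397,nat_lit 412,nat_lit 413,nat_lit 430,nat_lit 431,nat_lit 446,
    nat_lit 447]
    [[[nat_lit 0,nat_lit 2,nat_lit 2,nat_lit 8,nat_lit 3],[nat_lit 0,nat_lit 2,nat_lit 2,nat_lit 9,nat_lit 3],
    [nat_lit 0,nat_lit 2,nat_lit 8,nat_lit 3,nat_lit 3],[nat_lit 0,nat_lit 2,nat_lit 8,nat_lit 10],[nat_lit 0,
    nat_lit 2,nat_lit 9,nat_lit 3,nat_lit 3],[nat_lit 0,nat_lit 2,nat_lit 11,nat_lit 9],[nat_lit 0,nat_lit 4,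
    nat_lit 10],[nat_lit 0,nat_lit 4,nat_lit 11],[nat_lit 0,nat_lit 5,nat_lit 11],[nat_lit 0,nat_lit 6,nat_lit 1,
    nat_lit 2,nat_lit 3],[nat_lit 0,nat_lit 6,nat_lit 1,nat_lit 10],[nat_lit 0,nat_lit 6,nat_lit 1,nat_lit 11]],
    [[nat_lit 0,nat_lit 7,nat_lit 1,nat_lit 2,nat_lit 3],[nat_lit 0,nat_lit 7,nat_lit 1,nat_lit 10],[nat_lit 0,
    nat_lit 7,nat_lit 1,nat_lit 11],[nat_lit 0,nat_lit 7,nat_lit 11,nat_lit 9],[nat_lit 0,nat_lit 9,nat_lit 11,
    nat_lit 6],[nat_lit 0,nat_lit 11,nat_lit 5],[nat_lit 0,nat_lit 11,nat_lit 6,nat_lit 9],[nat_lit 0,nat_lit 12],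
    [nat_lit 0,nat_lit 13],[nat_lit 1,nat_lit 2,nat_lit 2,nat_lit 8,nat_lit 3],[nat_lit 1,nat_lit 2,nat_lit 2,
    nat_lit 9,nat_lit 3],[nat_lit 1,nat_lit 2,nat_lit 3,nat_lit 0,nat_lit 6]],[[nat_lit 1,nat_lit 2,nat_lit 3,
    nat_lit 0,nat_lit 7],[nat_lit 1,nat_lit 2,nat_lit 8,nat_lit 3,nat_lit 3],[nat_lit 1,nat_lit 2,nat_lit 9,nat_lit 3,
    nat_lit 3],[nat_lit 1,nat_lit 4,nat_lit 10],[nat_lit 1,nat_lit 7,nat_lit 10,nat_lit 8],[nat_lit 1,nat_lit 8,
    nat_lit 7,nat_lit 10],[nat_lit 1,nat_lit 8,nat_lit 10,nat_lit 3],[nat_lit 1,nat_lit 8,nat_lit 10,nat_lit 6],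
    [nat_lit 1,nat_lit 10,nat_lit 0,nat_lit 6],[nat_lit 1,nat_lit 10,nat_lit 0,nat_lit 7],[nat_lit 1,nat_lit 10,
    nat_lit 4],[nat_lit 1,nat_lit 10,nat_lit 5]],[[nat_lit 1,nat_lit 11,nat_lit 0,nat_lit 6],[nat_lit 1,nat_lit 11,
    nat_lit 0,nat_lit 7],[nat_lit 1,nat_lit 11,nat_lit 5],[nat_lit 1,nat_lit 11,nat_lit 9,nat_lit 3],[nat_lit 1,
    nat_lit 12],[nat_lit 1,nat_lit 13],[nat_lit 2,nat_lit 2,nat_lit 8,nat_lit 3,nat_lit 0],[nat_lit 2,nat_lit 2,
    nat_lit 8,nat_lit 3,nat_lit 1],[nat_lit 2,nat_lit 2,nat_lit 9,nat_lit 3,nat_lit 0],[nat_lit 2,nat_lit 2,nat_lit 9,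
    nat_lit 3,nat_lit 1],[nat_lit 2,nat_lit 2,nat_lit 15],[nat_lit 2,nat_lit 3,nat_lit 0,nat_lit 6,nat_lit 1]],
    [[nat_lit 2,nat_lit 3,nat_lit 0,nat_lit 7,nat_lit 1],[nat_lit 2,nat_lit 4,nat_lit 4],[nat_lit 2,nat_lit 4,
    nat_lit 5],[nat_lit 2,nat_lit 5,nat_lit 4],[nat_lit 2,nat_lit 5,nat_lit 5],[nat_lit 2,nat_lit 7,nat_lit 15],
    [nat_lit 2,nat_lit 8,nat_lit 3,nat_lit 0,nat_lit 2],[nat_lit 2,nat_lit 8,nat_lit 3,nat_lit 1,nat_lit 2],
    [nat_lit 2,nat_lit 8,nat_lit 3,nat_lit 3,nat_lit 0],[nat_lit 2,nat_lit 8,nat_lit 3,nat_lit 3,nat_lit 1],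
    [nat_lit 2,nat_lit 8,nat_lit 10,nat_lit 0],[nat_lit 2,nat_lit 9,nat_lit 3,nat_lit 0,nat_lit 2]],[[nat_lit 2,
    nat_lit 9,nat_lit 3,nat_lit 1,nat_lit 2],[nat_lit 2,nat_lit 9,nat_lit 3,nat_lit 3,nat_lit 0],[nat_lit 2,nat_lit 9,
    nat_lit 3,nat_lit 3,nat_lit 1],[nat_lit 2,nat_lit 11,nat_lit 9,nat_lit 0],[nat_lit 2,nat_lit 14,nat_lit 3],
    [nat_lit 2,nat_lit 14,nat_lit 6],[nat_lit 2,nat_lit 14,nat_lit 7],[nat_lit 2,nat_lit 15,nat_lit 2],[nat_lit 2,
    nat_lit 15,nat_lit 3],[nat_lit 2,nat_lit 15,nat_lit 6],[nat_lit 2,nat_lit 15,nat_lit 7],[nat_lit 3,nat_lit 0,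
    nat_lit 2,nat_lit 2,nat_lit 8]],[[nat_lit 3,nat_lit 0,nat_lit 2,nat_lit 2,nat_lit 9],[nat_lit 3,nat_lit 0,
    nat_lit 2,nat_lit 8,nat_lit 3],[nat_lit 3,nat_lit 0,nat_lit 2,nat_lit 9,nat_lit 3],[nat_lit 3,nat_lit 0,nat_lit 6,
    nat_lit 1,nat_lit 2],[nat_lit 3,nat_lit 0,nat_lit 7,nat_lit 1,nat_lit 2],[nat_lit 3,nat_lit 1,nat_lit 2,nat_lit 2,
    nat_lit 8],[nat_lit 3,nat_lit 1,nat_lit 2,nat_lit 2,nat_lit 9],[nat_lit 3,nat_lit 1,nat_lit 2,nat_lit 8,
    nat_lit 3],[nat_lit 3,nat_lit 1,nat_lit 2,nat_lit 9,nat_lit 3],[nat_lit 3,nat_lit 1,nat_lit 8,nat_lit 10],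
    [nat_lit 3,nat_lit 1,nat_lit 11,nat_lit 9],[nat_lit 3,nat_lit 2,nat_lit 14]],[[nat_lit 3,nat_lit 2,nat_lit 15],
    [nat_lit 3,nat_lit 3,nat_lit 0,nat_lit 2,nat_lit 8],[nat_lit 3,nat_lit 3,nat_lit 0,nat_lit 2,nat_lit 9],
    [nat_lit 3,nat_lit 3,nat_lit 1,nat_lit 2,nat_lit 8],[nat_lit 3,nat_lit 3,nat_lit 1,nat_lit 2,nat_lit 9],
    [nat_lit 3,nat_lit 3,nat_lit 14],[nat_lit 3,nat_lit 4,nat_lit 4],[nat_lit 3,nat_lit 4,nat_lit 5],[nat_lit 3,
    nat_lit 5,nat_lit 4],[nat_lit 3,nat_lit 5,nat_lit 5],[nat_lit 3,nat_lit 6,nat_lit 14],[nat_lit 3,nat_lit 6,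
    nat_lit 15]],[[nat_lit 3,nat_lit 7,nat_lit 14],[nat_lit 3,nat_lit 7,nat_lit 15],[nat_lit 3,nat_lit 14,nat_lit 3],
    [nat_lit 3,nat_lit 14,nat_lit 6],[nat_lit 4,nat_lit 1,nat_lit 10],[nat_lit 4,nat_lit 2,nat_lit 4],[nat_lit 4,
    nat_lit 2,nat_lit 5],[nat_lit 4,nat_lit 3,nat_lit 4],[nat_lit 4,nat_lit 3,nat_lit 5],[nat_lit 4,nat_lit 4,
    nat_lit 2],[nat_lit 4,nat_lit 4,nat_lit 3],[nat_lit 4,nat_lit 4,nat_lit 6]],[[nat_lit 4,nat_lit 4,nat_lit 7],
    [nat_lit 4,nat_lit 5,nat_lit 2],[nat_lit 4,nat_lit 5,nat_lit 3],[nat_lit 4,nat_lit 5,nat_lit 6],[nat_lit 4,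
    nat_lit 5,nat_lit 7],[nat_lit 4,nat_lit 6,nat_lit 4],[nat_lit 4,nat_lit 6,nat_lit 5],[nat_lit 4,nat_lit 7,
    nat_lit 4],[nat_lit 4,nat_lit 7,nat_lit 5],[nat_lit 4,nat_lit 8,nat_lit 10],[nat_lit 4,nat_lit 8,nat_lit 11],
    [nat_lit 4,nat_lit 9,nat_lit 10]],[[nat_lit 4,nat_lit 9,nat_lit 11],[nat_lit 4,nat_lit 10,nat_lit 0],[nat_lit 4,
    nat_lit 10,nat_lit 1],[nat_lit 4,nat_lit 10,nat_lit 8],[nat_lit 4,nat_lit 10,nat_lit 9],[nat_lit 4,nat_lit 11,
    nat_lit 0],[nat_lit 4,nat_lit 11,nat_lit 8],[nat_lit 4,nat_lit 11,nat_lit 9],[nat_lit 5,nat_lit 0,nat_lit 11],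
    [nat_lit 5,nat_lit 1,nat_lit 10],[nat_lit 5,nat_lit 1,nat_lit 11],[nat_lit 5,nat_lit 2,nat_lit 4]],[[nat_lit 5,
    nat_lit 2,nat_lit 5],[nat_lit 5,nat_lit 3,nat_lit 4],[nat_lit 5,nat_lit 3,nat_lit 5],[nat_lit 5,nat_lit 4,
    nat_lit 2],[nat_lit 5,nat_lit 4,nat_lit 3],[nat_lit 5,nat_lit 4,nat_lit 6],[nat_lit 5,nat_lit 4,nat_lit 7],
    [nat_lit 5,nat_lit 5,nat_lit 2],[nat_lit 5,nat_lit 5,nat_lit 3],[nat_lit 5,nat_lit 5,nat_lit 6],[nat_lit 5,
    nat_lit 5,nat_lit 7],[nat_lit 5,nat_lit 6,nat_lit 4]],[[nat_lit 5,nat_lit 6,nat_lit 5],[nat_lit 5,nat_lit 7,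
    nat_lit 4],[nat_lit 5,nat_lit 7,nat_lit 5],[nat_lit 5,nat_lit 8,nat_lit 10],[nat_lit 5,nat_lit 8,nat_lit 11],
    [nat_lit 5,nat_lit 9,nat_lit 10],[nat_lit 5,nat_lit 9,nat_lit 11],[nat_lit 5,nat_lit 10,nat_lit 8],[nat_lit 5,
    nat_lit 10,nat_lit 9],[nat_lit 5,nat_lit 11,nat_lit 0],[nat_lit 5,nat_lit 11,nat_lit 8],[nat_lit 5,nat_lit 11,
    nat_lit 9]],[[nat_lit 6,nat_lit 0,nat_lit 9,nat_lit 11],[nat_lit 6,nat_lit 1,nat_lit 2,nat_lit 3,nat_lit 0],
    [nat_lit 6,nat_lit 1,nat_lit 8,nat_lit 10],[nat_lit 6,nat_lit 1,nat_lit 10,nat_lit 0],[nat_lit 6,nat_lit 1,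
    nat_lit 11,nat_lit 0],[nat_lit 6,nat_lit 2,nat_lit 14],[nat_lit 6,nat_lit 2,nat_lit 15],[nat_lit 6,nat_lit 3,
    nat_lit 14],[nat_lit 6,nat_lit 4,nat_lit 4],[nat_lit 6,nat_lit 4,nat_lit 5],[nat_lit 6,nat_lit 5,nat_lit 4],
    [nat_lit 6,nat_lit 5,nat_lit 5]],[[nat_lit 6,nat_lit 6,nat_lit 14],[nat_lit 6,nat_lit 6,nat_lit 15],[nat_lit 6,
    nat_lit 7,nat_lit 14],[nat_lit 6,nat_lit 7,nat_lit 15],[nat_lit 6,nat_lit 9,nat_lit 0,nat_lit 11],[nat_lit 6,
    nat_lit 9,nat_lit 9,nat_lit 11],[nat_lit 6,nat_lit 14,nat_lit 3],[nat_lit 6,nat_lit 14,nat_lit 6],[nat_lit 6,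
    nat_lit 15,nat_lit 3],[nat_lit 6,nat_lit 15,nat_lit 6],[nat_lit 7,nat_lit 1,nat_lit 2,nat_lit 3,nat_lit 0],
    [nat_lit 7,nat_lit 1,nat_lit 10,nat_lit 0]],[[nat_lit 7,nat_lit 1,nat_lit 11,nat_lit 0],[nat_lit 7,nat_lit 2,
    nat_lit 14],[nat_lit 7,nat_lit 2,nat_lit 15],[nat_lit 7,nat_lit 4,nat_lit 4],[nat_lit 7,nat_lit 4,nat_lit 5],
    [nat_lit 7,nat_lit 5,nat_lit 4],[nat_lit 7,nat_lit 5,nat_lit 5],[nat_lit 7,nat_lit 7,nat_lit 14],[nat_lit 7,
    nat_lit 7,nat_lit 15],[nat_lit 7,nat_lit 10,nat_lit 1,nat_lit 8],[nat_lit 7,nat_lit 10,nat_lit 8,nat_lit 1],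
    [nat_lit 7,nat_lit 10,nat_lit 8,nat_lit 8]],[[nat_lit 7,nat_lit 11,nat_lit 9,nat_lit 0],[nat_lit 7,nat_lit 14,
    nat_lit 3],[nat_lit 7,nat_lit 14,nat_lit 6],[nat_lit 7,nat_lit 14,nat_lit 7],[nat_lit 7,nat_lit 15,nat_lit 2],
    [nat_lit 7,nat_lit 15,nat_lit 3],[nat_lit 7,nat_lit 15,nat_lit 6],[nat_lit 7,nat_lit 15,nat_lit 7],[nat_lit 8,
    nat_lit 1,nat_lit 7,nat_lit 10],[nat_lit 8,nat_lit 3,nat_lit 0,nat_lit 2,nat_lit 2],[nat_lit 8,nat_lit 3,
    nat_lit 1,nat_lit 2,nat_lit 2],[nat_lit 8,nat_lit 3,nat_lit 3,nat_lit 0,nat_lit 2]],[[nat_lit 8,nat_lit 3,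
    nat_lit 3,nat_lit 1,nat_lit 2],[nat_lit 8,nat_lit 4,nat_lit 10],[nat_lit 8,nat_lit 4,nat_lit 11],[nat_lit 8,
    nat_lit 5,nat_lit 10],[nat_lit 8,nat_lit 5,nat_lit 11],[nat_lit 8,nat_lit 7,nat_lit 10,nat_lit 1],[nat_lit 8,
    nat_lit 7,nat_lit 10,nat_lit 8],[nat_lit 8,nat_lit 8,nat_lit 7,nat_lit 10],[nat_lit 8,nat_lit 10,nat_lit 0,
    nat_lit 2],[nat_lit 8,nat_lit 10,nat_lit 3,nat_lit 1],[nat_lit 8,nat_lit 10,nat_lit 4],[nat_lit 8,nat_lit 10,
    nat_lit 5]],[[nat_lit 8,nat_lit 10,nat_lit 6,nat_lit 1],[nat_lit 8,nat_lit 11,nat_lit 4],[nat_lit 8,nat_lit 11,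
    nat_lit 5],[nat_lit 8,nat_lit 12],[nat_lit 8,nat_lit 13],[nat_lit 9,nat_lit 0,nat_lit 2,nat_lit 11],[nat_lit 9,
    nat_lit 0,nat_lit 7,nat_lit 11],[nat_lit 9,nat_lit 0,nat_lit 11,nat_lit 6],[nat_lit 9,nat_lit 3,nat_lit 0,
    nat_lit 2,nat_lit 2],[nat_lit 9,nat_lit 3,nat_lit 1,nat_lit 2,nat_lit 2],[nat_lit 9,nat_lit 3,nat_lit 1,
    nat_lit 11],[nat_lit 9,nat_lit 3,nat_lit 3,nat_lit 0,nat_lit 2]],[[nat_lit 9,nat_lit 3,nat_lit 3,nat_lit 1,
    nat_lit 2],[nat_lit 9,nat_lit 4,nat_lit 10],[nat_lit 9,nat_lit 4,nat_lit 11],[nat_lit 9,nat_lit 5,nat_lit 10],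
    [nat_lit 9,nat_lit 5,nat_lit 11],[nat_lit 9,nat_lit 9,nat_lit 11,nat_lit 6],[nat_lit 9,nat_lit 10,nat_lit 4],
    [nat_lit 9,nat_lit 10,nat_lit 5],[nat_lit 9,nat_lit 11,nat_lit 4],[nat_lit 9,nat_lit 11,nat_lit 5],[nat_lit 9,
    nat_lit 11,nat_lit 6,nat_lit 0],[nat_lit 9,nat_lit 11,nat_lit 6,nat_lit 9]],[[nat_lit 9,nat_lit 12],[nat_lit 9,
    nat_lit 13],[nat_lit 10,nat_lit 0,nat_lit 2,nat_lit 8],[nat_lit 10,nat_lit 0,nat_lit 4],[nat_lit 10,nat_lit 0,
    nat_lit 6,nat_lit 1],[nat_lit 10,nat_lit 0,nat_lit 7,nat_lit 1],[nat_lit 10,nat_lit 1,nat_lit 4],[nat_lit 10,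
    nat_lit 1,nat_lit 8,nat_lit 7],[nat_lit 10,nat_lit 3,nat_lit 1,nat_lit 8],[nat_lit 10,nat_lit 4,nat_lit 1],
    [nat_lit 10,nat_lit 4,nat_lit 8],[nat_lit 10,nat_lit 4,nat_lit 9]],[[nat_lit 10,nat_lit 5,nat_lit 1],[nat_lit 10,
    nat_lit 5,nat_lit 8],[nat_lit 10,nat_lit 5,nat_lit 9],[nat_lit 10,nat_lit 6,nat_lit 1,nat_lit 8],[nat_lit 10,
    nat_lit 8,nat_lit 1,nat_lit 7],[nat_lit 10,nat_lit 8,nat_lit 4],[nat_lit 10,nat_lit 8,nat_lit 5],[nat_lit 10,
    nat_lit 8,nat_lit 8,nat_lit 7],[nat_lit 10,nat_lit 9,nat_lit 4],[nat_lit 10,nat_lit 9,nat_lit 5],[nat_lit 10,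
    nat_lit 14],[nat_lit 10,nat_lit 15]],[[nat_lit 11,nat_lit 0,nat_lit 4],[nat_lit 11,nat_lit 0,nat_lit 5],
    [nat_lit 11,nat_lit 0,nat_lit 6,nat_lit 1],[nat_lit 11,nat_lit 0,nat_lit 7,nat_lit 1],[nat_lit 11,nat_lit 4,
    nat_lit 8],[nat_lit 11,nat_lit 4,nat_lit 9],[nat_lit 11,nat_lit 5,nat_lit 0],[nat_lit 11,nat_lit 5,nat_lit 1],
    [nat_lit 11,nat_lit 5,nat_lit 8],[nat_lit 11,nat_lit 5,nat_lit 9],[nat_lit 11,nat_lit 6,nat_lit 0,nat_lit 9],
    [nat_lit 11,nat_lit 6,nat_lit 9,nat_lit 0]],[[nat_lit 11,nat_lit 6,nat_lit 9,nat_lit 9],[nat_lit 11,nat_lit 8,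
    nat_lit 4],[nat_lit 11,nat_lit 8,nat_lit 5],[nat_lit 11,nat_lit 9,nat_lit 0,nat_lit 2],[nat_lit 11,nat_lit 9,
    nat_lit 0,nat_lit 7],[nat_lit 11,nat_lit 9,nat_lit 3,nat_lit 1],[nat_lit 11,nat_lit 9,nat_lit 4],[nat_lit 11,
    nat_lit 9,nat_lit 5],[nat_lit 11,nat_lit 14],[nat_lit 11,nat_lit 15],[nat_lit 12,nat_lit 0],[nat_lit 12,
    nat_lit 1]],[[nat_lit 12,nat_lit 8],[nat_lit 12,nat_lit 9],[nat_lit 13,nat_lit 0],[nat_lit 13,nat_lit 1],
    [nat_lit 13,nat_lit 8],[nat_lit 13,nat_lit 9],[nat_lit 14,nat_lit 3,nat_lit 2],[nat_lit 14,nat_lit 3,nat_lit 3],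
    [nat_lit 14,nat_lit 3,nat_lit 6],[nat_lit 14,nat_lit 3,nat_lit 7],[nat_lit 14,nat_lit 6,nat_lit 2],[nat_lit 14,
    nat_lit 6,nat_lit 3]],[[nat_lit 14,nat_lit 6,nat_lit 6],[nat_lit 14,nat_lit 6,nat_lit 7],[nat_lit 14,nat_lit 7,
    nat_lit 2],[nat_lit 14,nat_lit 7,nat_lit 7],[nat_lit 14,nat_lit 10],[nat_lit 14,nat_lit 11],[nat_lit 15,nat_lit 2,
    nat_lit 2],[nat_lit 15,nat_lit 2,nat_lit 7],[nat_lit 15,nat_lit 3,nat_lit 2],[nat_lit 15,nat_lit 3,nat_lit 6],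
    [nat_lit 15,nat_lit 3,nat_lit 7],[nat_lit 15,nat_lit 6,nat_lit 2]],[[nat_lit 15,nat_lit 6,nat_lit 6],[nat_lit 15,
    nat_lit 6,nat_lit 7],[nat_lit 15,nat_lit 7,nat_lit 2],[nat_lit 15,nat_lit 7,nat_lit 7],[nat_lit 15,nat_lit 10],
    [nat_lit 15,nat_lit 11]]]
    [[nat_lit 42,nat_lit 44,nat_lit 56,nat_lit 58,nat_lit 61,nat_lit 63,nat_lit 121,nat_lit 125,nat_lit 153,
    nat_lit 157,nat_lit 159,nat_lit 160],[nat_lit 178,nat_lit 179,nat_lit 180,nat_lit 192,nat_lit 238,nat_lit 270,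
    nat_lit 275,nat_lit 286,nat_lit 290,nat_lit 43,nat_lit 45,nat_lit 47],[nat_lit 48,nat_lit 57,nat_lit 62,
    nat_lit 122,nat_lit 190,nat_lit 209,nat_lit 213,nat_lit 216,nat_lit 244,nat_lit 245,nat_lit 249,nat_lit 252],
    [nat_lit 266,nat_lit 267,nat_lit 271,nat_lit 281,nat_lit 287,nat_lit 291,nat_lit 54,nat_lit 55,nat_lit 59,
    nat_lit 60,nat_lit 67,nat_lit 75],[nat_lit 76,nat_lit 105,nat_lit 109,nat_lit 135,nat_lit 139,nat_lit 196,
    nat_lit 201,nat_lit 202,nat_lit 203,nat_lit 204,nat_lit 212,nat_lit 224],[nat_lit 225,nat_lit 227,nat_lit 228,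
    nat_lit 279,nat_lit 294,nat_lit 298,nat_lit 302,nat_lit 306,nat_lit 308,nat_lit 311,nat_lit 314,nat_lit 0],
    [nat_lit 1,nat_lit 2,nat_lit 4,nat_lit 9,nat_lit 12,nat_lit 21,nat_lit 22,nat_lit 25,nat_lit 26,nat_lit 30,
    nat_lit 39,nat_lit 64],[nat_lit 68,nat_lit 73,nat_lit 74,nat_lit 79,nat_lit 80,nat_lit 98,nat_lit 106,nat_lit 110,
    nat_lit 136,nat_lit 140,nat_lit 174,nat_lit 176],[nat_lit 193,nat_lit 197,nat_lit 295,nat_lit 299,nat_lit 34,
    nat_lit 49,nat_lit 51,nat_lit 90,nat_lit 92,nat_lit 101,nat_lit 103,nat_lit 113],[nat_lit 115,nat_lit 131,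
    nat_lit 133,nat_lit 143,nat_lit 145,nat_lit 164,nat_lit 166,nat_lit 183,nat_lit 185,nat_lit 214,nat_lit 217,
    nat_lit 234],[nat_lit 236,nat_lit 243,nat_lit 246,nat_lit 257,nat_lit 260,nat_lit 264,nat_lit 277,nat_lit 282,
    nat_lit 17,nat_lit 35,nat_lit 38,nat_lit 50],[nat_lit 52,nat_lit 91,nat_lit 93,nat_lit 102,nat_lit 104,
    nat_lit 114,nat_lit 116,nat_lit 132,nat_lit 134,nat_lit 144,nat_lit 146,nat_lit 165],[nat_lit 167,nat_lit 184,
    nat_lit 186,nat_lit 215,nat_lit 218,nat_lit 235,nat_lit 237,nat_lit 258,nat_lit 261,nat_lit 265,nat_lit 278,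
    nat_lit 283],[nat_lit 16,nat_lit 23,nat_lit 31,nat_lit 32,nat_lit 36,nat_lit 65,nat_lit 69,nat_lit 99,nat_lit 107,
    nat_lit 111,nat_lit 137,nat_lit 141],[nat_lit 175,nat_lit 177,nat_lit 194,nat_lit 198,nat_lit 223,nat_lit 233,
    nat_lit 296,nat_lit 300,nat_lit 309,nat_lit 312,nat_lit 24,nat_lit 33],[nat_lit 37,nat_lit 66,nat_lit 70,
    nat_lit 108,nat_lit 112,nat_lit 138,nat_lit 142,nat_lit 195,nat_lit 199,nat_lit 247,nat_lit 256,nat_lit 259],
    [nat_lit 280,nat_lit 297,nat_lit 301,nat_lit 303,nat_lit 307,nat_lit 310,nat_lit 313,nat_lit 315,nat_lit 28,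
    nat_lit 71,nat_lit 77,nat_lit 85],[nat_lit 87,nat_lit 123,nat_lit 126,nat_lit 151,nat_lit 154,nat_lit 189,
    nat_lit 191,nat_lit 210,nat_lit 242,nat_lit 248,nat_lit 250,nat_lit 253],[nat_lit 255,nat_lit 268,nat_lit 272,
    nat_lit 288,nat_lit 292,nat_lit 5,nat_lit 15,nat_lit 18,nat_lit 72,nat_lit 78,nat_lit 82,nat_lit 86],[nat_lit 88,
    nat_lit 124,nat_lit 127,nat_lit 152,nat_lit 155,nat_lit 239,nat_lit 251,nat_lit 254,nat_lit 269,nat_lit 273,
    nat_lit 274,nat_lit 276],[nat_lit 289,nat_lit 293,nat_lit 3,nat_lit 6,nat_lit 10,nat_lit 13,nat_lit 27,nat_lit 29,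
    nat_lit 81,nat_lit 100,nat_lit 117,nat_lit 119],[nat_lit 129,nat_lit 147,nat_lit 149,nat_lit 158,nat_lit 200,
    nat_lit 205,nat_lit 207,nat_lit 211,nat_lit 229,nat_lit 231,nat_lit 304,nat_lit 316],[nat_lit 7,nat_lit 8,
    nat_lit 11,nat_lit 14,nat_lit 118,nat_lit 120,nat_lit 128,nat_lit 130,nat_lit 148,nat_lit 150,nat_lit 156,
    nat_lit 172],[nat_lit 173,nat_lit 206,nat_lit 208,nat_lit 221,nat_lit 222,nat_lit 226,nat_lit 230,nat_lit 232,
    nat_lit 305,nat_lit 317,nat_lit 19,nat_lit 40],[nat_lit 219,nat_lit 240,nat_lit 20,nat_lit 41,nat_lit 220,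
    nat_lit 241,nat_lit 83,nat_lit 89,nat_lit 94,nat_lit 96,nat_lit 161,nat_lit 163],[nat_lit 168,nat_lit 170,
    nat_lit 181,nat_lit 187,nat_lit 262,nat_lit 284,nat_lit 46,nat_lit 53,nat_lit 84,nat_lit 95,nat_lit 97,
    nat_lit 162],[nat_lit 169,nat_lit 171,nat_lit 182,nat_lit 188,nat_lit 263,nat_lit 285]]
    [[nat_lit 71,nat_lit 72,nat_lit 73,nat_lit 242,nat_lit 74,nat_lit 221,nat_lit 243,nat_lit 264,nat_lit 265,
    nat_lit 75,nat_lit 244,nat_lit 266],[nat_lit 76,nat_lit 245,nat_lit 267,nat_lit 222,nat_lit 156,nat_lit 128,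
    nat_lit 223,nat_lit 286,nat_lit 290,nat_lit 77,nat_lit 78,nat_lit 157],[nat_lit 178,nat_lit 79,nat_lit 80,
    nat_lit 246,nat_lit 200,nat_lit 247,nat_lit 81,nat_lit 158,nat_lit 159,nat_lit 179,nat_lit 100,nat_lit 129],
    [nat_lit 160,nat_lit 180,nat_lit 130,nat_lit 82,nat_lit 287,nat_lit 291,nat_lit 0,nat_lit 21,nat_lit 1,nat_lit 22,
    nat_lit 306,nat_lit 23],[nat_lit 24,nat_lit 101,nat_lit 131,nat_lit 102,nat_lit 132,nat_lit 307,nat_lit 42,
    nat_lit 43,nat_lit 2,nat_lit 25,nat_lit 3,nat_lit 44],[nat_lit 45,nat_lit 4,nat_lit 26,nat_lit 5,nat_lit 83,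
    nat_lit 161,nat_lit 181,nat_lit 46,nat_lit 84,nat_lit 162,nat_lit 182,nat_lit 201],[nat_lit 224,nat_lit 85,
    nat_lit 86,nat_lit 47,nat_lit 48,nat_lit 202,nat_lit 225,nat_lit 87,nat_lit 88,nat_lit 248,nat_lit 226,
    nat_lit 294],[nat_lit 308,nat_lit 203,nat_lit 227,nat_lit 204,nat_lit 228,nat_lit 295,nat_lit 103,nat_lit 133,
    nat_lit 104,nat_lit 134,nat_lit 296,nat_lit 309],[nat_lit 297,nat_lit 310,nat_lit 89,nat_lit 163,nat_lit 249,
    nat_lit 105,nat_lit 135,nat_lit 106,nat_lit 136,nat_lit 49,nat_lit 90,nat_lit 164],[nat_lit 183,nat_lit 50,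
    nat_lit 91,nat_lit 165,nat_lit 184,nat_lit 107,nat_lit 137,nat_lit 108,nat_lit 138,nat_lit 250,nat_lit 268,
    nat_lit 251],[nat_lit 269,nat_lit 6,nat_lit 27,nat_lit 205,nat_lit 229,nat_lit 7,nat_lit 206,nat_lit 230,
    nat_lit 270,nat_lit 252,nat_lit 271,nat_lit 109],[nat_lit 139,nat_lit 110,nat_lit 140,nat_lit 51,nat_lit 92,
    nat_lit 166,nat_lit 185,nat_lit 52,nat_lit 93,nat_lit 167,nat_lit 186,nat_lit 111],[nat_lit 141,nat_lit 112,
    nat_lit 142,nat_lit 253,nat_lit 272,nat_lit 254,nat_lit 273,nat_lit 207,nat_lit 231,nat_lit 8,nat_lit 208,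
    nat_lit 232],[nat_lit 274,nat_lit 9,nat_lit 255,nat_lit 10,nat_lit 11,nat_lit 298,nat_lit 311,nat_lit 299,
    nat_lit 113,nat_lit 143,nat_lit 114,nat_lit 144],[nat_lit 300,nat_lit 312,nat_lit 301,nat_lit 313,nat_lit 275,
    nat_lit 276,nat_lit 94,nat_lit 168,nat_lit 95,nat_lit 169,nat_lit 12,nat_lit 13],[nat_lit 14,nat_lit 302,
    nat_lit 314,nat_lit 115,nat_lit 145,nat_lit 116,nat_lit 146,nat_lit 303,nat_lit 315,nat_lit 209,nat_lit 28,
    nat_lit 210],[nat_lit 15,nat_lit 96,nat_lit 170,nat_lit 187,nat_lit 53,nat_lit 97,nat_lit 171,nat_lit 188,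
    nat_lit 256,nat_lit 54,nat_lit 55,nat_lit 56],[nat_lit 57,nat_lit 257,nat_lit 277,nat_lit 258,nat_lit 278,
    nat_lit 29,nat_lit 211,nat_lit 259,nat_lit 58,nat_lit 30,nat_lit 117,nat_lit 147],[nat_lit 31,nat_lit 118,
    nat_lit 148,nat_lit 288,nat_lit 292,nat_lit 279,nat_lit 280,nat_lit 172,nat_lit 59,nat_lit 60,nat_lit 281,
    nat_lit 61],[nat_lit 62,nat_lit 260,nat_lit 282,nat_lit 261,nat_lit 283,nat_lit 173,nat_lit 119,nat_lit 149,
    nat_lit 120,nat_lit 150,nat_lit 16,nat_lit 233],[nat_lit 289,nat_lit 293,nat_lit 212,nat_lit 121,nat_lit 32,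
    nat_lit 33,nat_lit 122,nat_lit 189,nat_lit 213,nat_lit 34,nat_lit 214,nat_lit 234],[nat_lit 35,nat_lit 215,
    nat_lit 235,nat_lit 216,nat_lit 190,nat_lit 123,nat_lit 151,nat_lit 191,nat_lit 124,nat_lit 152,nat_lit 304,
    nat_lit 316],[nat_lit 125,nat_lit 153,nat_lit 36,nat_lit 37,nat_lit 217,nat_lit 236,nat_lit 17,nat_lit 38,
    nat_lit 218,nat_lit 237,nat_lit 238,nat_lit 18],[nat_lit 239,nat_lit 126,nat_lit 154,nat_lit 63,nat_lit 192,
    nat_lit 39,nat_lit 127,nat_lit 155,nat_lit 305,nat_lit 317,nat_lit 19,nat_lit 40],[nat_lit 219,nat_lit 240,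
    nat_lit 20,nat_lit 41,nat_lit 220,nat_lit 241,nat_lit 64,nat_lit 98,nat_lit 174,nat_lit 193,nat_lit 65,
    nat_lit 99],[nat_lit 175,nat_lit 194,nat_lit 66,nat_lit 195,nat_lit 262,nat_lit 284,nat_lit 67,nat_lit 196,
    nat_lit 68,nat_lit 176,nat_lit 197,nat_lit 69],[nat_lit 177,nat_lit 198,nat_lit 70,nat_lit 199,nat_lit 263,
    nat_lit 285]]
    [[[],[],[],[],[],[],[nat_lit 296,nat_lit 300],[nat_lit 296,nat_lit 300],[nat_lit 295,nat_lit 299],[],[],[]],[[],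
    [],[],[],[nat_lit 297,nat_lit 301,nat_lit 303],[],[],[],[nat_lit 305],[nat_lit 90,nat_lit 92],[nat_lit 90,
    nat_lit 92],[nat_lit 90,nat_lit 92]],[[nat_lit 90,nat_lit 92],[nat_lit 90,nat_lit 92],[nat_lit 90,nat_lit 92],
    [nat_lit 99],[nat_lit 91,nat_lit 93],[nat_lit 81],[nat_lit 81],[nat_lit 81],[],[],[],[]],[[nat_lit 72,nat_lit 78,
    nat_lit 82,nat_lit 86,nat_lit 88],[nat_lit 72,nat_lit 78,nat_lit 82,nat_lit 86,nat_lit 88],[nat_lit 72,nat_lit 78,
    nat_lit 82,nat_lit 86,nat_lit 88],[nat_lit 72,nat_lit 78,nat_lit 82,nat_lit 86,nat_lit 88],[nat_lit 83,nat_lit 89,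
    nat_lit 94,nat_lit 96],[],[],[],[],[],[],[]],[[],[nat_lit 16],[nat_lit 16],[nat_lit 0,nat_lit 1,nat_lit 2,
    nat_lit 4,nat_lit 9,nat_lit 12],[nat_lit 0,nat_lit 1,nat_lit 2,nat_lit 4,nat_lit 9,nat_lit 12],[nat_lit 17],
    [nat_lit 3,nat_lit 6,nat_lit 10,nat_lit 13],[nat_lit 3,nat_lit 6,nat_lit 10,nat_lit 13],[nat_lit 3,nat_lit 6,
    nat_lit 10,nat_lit 13],[nat_lit 3,nat_lit 6,nat_lit 10,nat_lit 13],[nat_lit 3,nat_lit 6,nat_lit 10,nat_lit 13],
    []],[[],[],[],[nat_lit 5,nat_lit 15,nat_lit 18],[],[],[],[nat_lit 20],[nat_lit 20],[nat_lit 20],[nat_lit 20],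
    [nat_lit 135,nat_lit 139]],[[nat_lit 135,nat_lit 139],[nat_lit 135,nat_lit 139],[nat_lit 135,nat_lit 139],
    [nat_lit 135,nat_lit 139],[nat_lit 135,nat_lit 139],[],[],[],[],[],[],[nat_lit 131,nat_lit 133,nat_lit 143,
    nat_lit 145]],[[nat_lit 131,nat_lit 133,nat_lit 143,nat_lit 145],[],[],[],[],[],[nat_lit 137,nat_lit 141],
    [nat_lit 137,nat_lit 141],[nat_lit 136,nat_lit 140],[nat_lit 136,nat_lit 140],[nat_lit 151,nat_lit 154],
    [nat_lit 151,nat_lit 154]],[[nat_lit 132,nat_lit 134,nat_lit 144,nat_lit 146],[nat_lit 132,nat_lit 134,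
    nat_lit 144,nat_lit 146],[nat_lit 153],[nat_lit 153],[nat_lit 46,nat_lit 53],[nat_lit 49,nat_lit 51],[nat_lit 49,
    nat_lit 51],[nat_lit 43,nat_lit 45,nat_lit 47,nat_lit 48,nat_lit 57,nat_lit 62],[nat_lit 43,nat_lit 45,nat_lit 47,
    nat_lit 48,nat_lit 57,nat_lit 62],[nat_lit 65,nat_lit 69],[nat_lit 65,nat_lit 69],[nat_lit 65,nat_lit 69]],
    [[nat_lit 65,nat_lit 69],[nat_lit 64,nat_lit 68],[nat_lit 64,nat_lit 68],[nat_lit 64,nat_lit 68],[nat_lit 64,
    nat_lit 68],[],[],[nat_lit 50,nat_lit 52],[nat_lit 50,nat_lit 52],[],[],[nat_lit 66,nat_lit 70]],[[nat_lit 66,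
    nat_lit 70],[],[],[],[],[],[],[],[nat_lit 196],[nat_lit 182,nat_lit 188],[nat_lit 182,nat_lit 188],[nat_lit 183,
    nat_lit 185]],[[nat_lit 183,nat_lit 185],[nat_lit 190],[nat_lit 190],[nat_lit 194,nat_lit 198],[nat_lit 194,
    nat_lit 198],[nat_lit 194,nat_lit 198],[nat_lit 194,nat_lit 198],[nat_lit 193,nat_lit 197],[nat_lit 193,
    nat_lit 197],[nat_lit 193,nat_lit 197],[nat_lit 193,nat_lit 197],[nat_lit 189,nat_lit 191]],[[nat_lit 189,
    nat_lit 191],[nat_lit 184,nat_lit 186],[nat_lit 184,nat_lit 186],[],[],[nat_lit 195,nat_lit 199],[nat_lit 195,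
    nat_lit 199],[],[],[],[],[]],[[nat_lit 105,nat_lit 109],[],[],[],[],[nat_lit 101,nat_lit 103,nat_lit 113,
    nat_lit 115],[nat_lit 101,nat_lit 103,nat_lit 113,nat_lit 115],[nat_lit 122],[nat_lit 107,nat_lit 111],
    [nat_lit 107,nat_lit 111],[nat_lit 106,nat_lit 110],[nat_lit 106,nat_lit 110]],[[nat_lit 123,nat_lit 126],
    [nat_lit 123,nat_lit 126],[nat_lit 102,nat_lit 104,nat_lit 114,nat_lit 116],[nat_lit 102,nat_lit 104,nat_lit 114,
    nat_lit 116],[nat_lit 108,nat_lit 112],[nat_lit 108,nat_lit 112],[nat_lit 121,nat_lit 125],[nat_lit 121,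
    nat_lit 125],[],[],[],[]],[[],[nat_lit 234,nat_lit 236],[nat_lit 234,nat_lit 236],[nat_lit 223,nat_lit 233],
    [nat_lit 223,nat_lit 233],[],[],[nat_lit 235,nat_lit 237],[nat_lit 235,nat_lit 237],[nat_lit 240],[nat_lit 240],
    [nat_lit 240]],[[nat_lit 239],[nat_lit 238],[nat_lit 238],[nat_lit 238],[nat_lit 241],[nat_lit 241],[nat_lit 241],
    [nat_lit 241],[nat_lit 162,nat_lit 169,nat_lit 171],[],[],[]],[[],[nat_lit 175,nat_lit 177],[nat_lit 175,
    nat_lit 177],[nat_lit 174,nat_lit 176],[nat_lit 174,nat_lit 176],[nat_lit 165,nat_lit 167],[nat_lit 165,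
    nat_lit 167],[nat_lit 158],[],[],[],[]],[[],[],[],[nat_lit 161,nat_lit 163,nat_lit 168,nat_lit 170],[nat_lit 156,
    nat_lit 172,nat_lit 173],[nat_lit 279],[nat_lit 279],[nat_lit 279],[nat_lit 266,nat_lit 267,nat_lit 271,
    nat_lit 281],[nat_lit 266,nat_lit 267,nat_lit 271,nat_lit 281],[nat_lit 266,nat_lit 267,nat_lit 271,nat_lit 281],
    [nat_lit 266,nat_lit 267,nat_lit 271,nat_lit 281]],[[nat_lit 266,nat_lit 267,nat_lit 271,nat_lit 281],[],[],[],[],
    [nat_lit 280],[],[],[nat_lit 269,nat_lit 273,nat_lit 274,nat_lit 276],[nat_lit 269,nat_lit 273,nat_lit 274,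
    nat_lit 276],[nat_lit 269,nat_lit 273,nat_lit 274,nat_lit 276],[nat_lit 269,nat_lit 273,nat_lit 274,nat_lit 276]],
    [[nat_lit 284],[],[nat_lit 201,nat_lit 202,nat_lit 203,nat_lit 204,nat_lit 212],[nat_lit 201,nat_lit 202,
    nat_lit 203,nat_lit 204,nat_lit 212],[nat_lit 201,nat_lit 202,nat_lit 203,nat_lit 204,nat_lit 212],[nat_lit 201,
    nat_lit 202,nat_lit 203,nat_lit 204,nat_lit 212],[],[],[nat_lit 209,nat_lit 213,nat_lit 216],[],[],[]],[[],[],[],
    [nat_lit 210],[nat_lit 200,nat_lit 205,nat_lit 207,nat_lit 211],[nat_lit 200,nat_lit 205,nat_lit 207,nat_lit 211],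
    [nat_lit 200,nat_lit 205,nat_lit 207,nat_lit 211],[nat_lit 200,nat_lit 205,nat_lit 207,nat_lit 211],[],[],[],
    [nat_lit 220]],[[],[],[],[],[],[],[],[],[],[],[nat_lit 292],[nat_lit 292]],[[nat_lit 292],[],[],[],[],[],[],[],
    [nat_lit 290],[],[],[nat_lit 263]],[[],[nat_lit 247,nat_lit 256,nat_lit 259],[nat_lit 306,nat_lit 308,nat_lit 311,
    nat_lit 314],[],[nat_lit 316],[nat_lit 307,nat_lit 310,nat_lit 313,nat_lit 315],[nat_lit 287],[nat_lit 287],
    [nat_lit 287],[nat_lit 287],[nat_lit 288],[nat_lit 288]],[[nat_lit 288],[nat_lit 288],[],[],[],[nat_lit 289],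
    [nat_lit 34],[nat_lit 34],[],[],[],[nat_lit 28]],[[nat_lit 28],[nat_lit 28],[nat_lit 35,nat_lit 38],[nat_lit 35,
    nat_lit 38],[nat_lit 40],[]]]
    (nat_lit 318) [nat_lit 0,nat_lit 1,nat_lit 2,nat_lit 3,nat_lit 4,nat_lit 5,nat_lit 6,nat_lit 7,nat_lit 8,
    nat_lit 9,nat_lit 10,nat_lit 11,nat_lit 12,nat_lit 13,nat_lit 14,nat_lit 15,nat_lit 16,nat_lit 17,nat_lit 18,
    nat_lit 19,nat_lit 20,nat_lit 21,nat_lit 22,nat_lit 25,nat_lit 26,nat_lit 27,nat_lit 28,nat_lit 29,nat_lit 30,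
    nat_lit 31,nat_lit 34,nat_lit 35,nat_lit 38,nat_lit 39,nat_lit 40,nat_lit 41,nat_lit 46,nat_lit 49,nat_lit 50,
    nat_lit 51,nat_lit 52,nat_lit 53,nat_lit 64,nat_lit 65,nat_lit 66,nat_lit 67,nat_lit 68,nat_lit 69,nat_lit 70,
    nat_lit 89,nat_lit 90,nat_lit 91,nat_lit 92,nat_lit 93,nat_lit 94,nat_lit 95,nat_lit 96,nat_lit 97,nat_lit 98,
    nat_lit 99,nat_lit 107,nat_lit 108,nat_lit 111,nat_lit 112,nat_lit 113,nat_lit 114,nat_lit 115,nat_lit 116,
    nat_lit 117,nat_lit 118,nat_lit 119,nat_lit 120,nat_lit 123,nat_lit 124,nat_lit 126,nat_lit 127,nat_lit 141,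
    nat_lit 142,nat_lit 144,nat_lit 146,nat_lit 147,nat_lit 148,nat_lit 149,nat_lit 150,nat_lit 151,nat_lit 152,
    nat_lit 154,nat_lit 155,nat_lit 168,nat_lit 169,nat_lit 170,nat_lit 171,nat_lit 173,nat_lit 175,nat_lit 177,
    nat_lit 187,nat_lit 188,nat_lit 191,nat_lit 195,nat_lit 199,nat_lit 219,nat_lit 220,nat_lit 240,nat_lit 241,
    nat_lit 262,nat_lit 263,nat_lit 284,nat_lit 285]
    [[[],[],[],[nat_lit 0,nat_lit 1,nat_lit 2,nat_lit 4,nat_lit 9,nat_lit 12],[],[nat_lit 17],[nat_lit 16],[],[],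
    [nat_lit 5,nat_lit 15,nat_lit 18],[nat_lit 3,nat_lit 6,nat_lit 10,nat_lit 13],[nat_lit 7,nat_lit 8,nat_lit 11,
    nat_lit 14],[nat_lit 19],[nat_lit 20],[],[]],[[],[],[],[nat_lit 21,nat_lit 22,nat_lit 25,nat_lit 26,nat_lit 30,
    nat_lit 39],[nat_lit 34],[nat_lit 35,nat_lit 38],[nat_lit 23,nat_lit 31,nat_lit 32,nat_lit 36],[nat_lit 24,
    nat_lit 33,nat_lit 37],[nat_lit 28],[],[nat_lit 27,nat_lit 29],[],[nat_lit 40],[nat_lit 41],[],[]],[[nat_lit 42,
    nat_lit 44,nat_lit 56,nat_lit 58,nat_lit 61,nat_lit 63],[nat_lit 43,nat_lit 45,nat_lit 47,nat_lit 48,nat_lit 57,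
    nat_lit 62],[nat_lit 54,nat_lit 55,nat_lit 59,nat_lit 60,nat_lit 67],[nat_lit 64,nat_lit 68],[nat_lit 49,
    nat_lit 51],[nat_lit 50,nat_lit 52],[nat_lit 65,nat_lit 69],[nat_lit 66,nat_lit 70],[],[],[],[],[],[],[],
    [nat_lit 46,nat_lit 53]],[[],[],[nat_lit 75,nat_lit 76],[nat_lit 73,nat_lit 74,nat_lit 79,nat_lit 80,nat_lit 98],
    [nat_lit 90,nat_lit 92],[nat_lit 91,nat_lit 93],[nat_lit 99],[],[nat_lit 71,nat_lit 77,nat_lit 85,nat_lit 87],
    [nat_lit 72,nat_lit 78,nat_lit 82,nat_lit 86,nat_lit 88],[nat_lit 81],[],[],[],[nat_lit 83,nat_lit 89,nat_lit 94,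
    nat_lit 96],[nat_lit 84,nat_lit 95,nat_lit 97]],[[nat_lit 121,nat_lit 125],[nat_lit 122],[nat_lit 105,
    nat_lit 109],[nat_lit 106,nat_lit 110],[nat_lit 101,nat_lit 103,nat_lit 113,nat_lit 115],[nat_lit 102,nat_lit 104,
    nat_lit 114,nat_lit 116],[nat_lit 107,nat_lit 111],[nat_lit 108,nat_lit 112],[nat_lit 123,nat_lit 126],
    [nat_lit 124,nat_lit 127],[nat_lit 100,nat_lit 117,nat_lit 119],[nat_lit 118,nat_lit 120],[],[],[],[]],
    [[nat_lit 153],[],[nat_lit 135,nat_lit 139],[nat_lit 136,nat_lit 140],[nat_lit 131,nat_lit 133,nat_lit 143,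
    nat_lit 145],[nat_lit 132,nat_lit 134,nat_lit 144,nat_lit 146],[nat_lit 137,nat_lit 141],[nat_lit 138,
    nat_lit 142],[nat_lit 151,nat_lit 154],[nat_lit 152,nat_lit 155],[nat_lit 129,nat_lit 147,nat_lit 149],
    [nat_lit 128,nat_lit 130,nat_lit 148,nat_lit 150],[],[],[],[]],[[nat_lit 157,nat_lit 159,nat_lit 160],[],[],
    [nat_lit 174,nat_lit 176],[nat_lit 164,nat_lit 166],[nat_lit 165,nat_lit 167],[nat_lit 175,nat_lit 177],[],[],[],
    [nat_lit 158],[nat_lit 156,nat_lit 172,nat_lit 173],[],[],[nat_lit 161,nat_lit 163,nat_lit 168,nat_lit 170],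
    [nat_lit 162,nat_lit 169,nat_lit 171]],[[nat_lit 178,nat_lit 179,nat_lit 180,nat_lit 192],[nat_lit 190],
    [nat_lit 196],[nat_lit 193,nat_lit 197],[nat_lit 183,nat_lit 185],[nat_lit 184,nat_lit 186],[nat_lit 194,
    nat_lit 198],[nat_lit 195,nat_lit 199],[nat_lit 189,nat_lit 191],[],[],[],[],[],[nat_lit 181,nat_lit 187],
    [nat_lit 182,nat_lit 188]],[[],[nat_lit 209,nat_lit 213,nat_lit 216],[nat_lit 201,nat_lit 202,nat_lit 203,
    nat_lit 204,nat_lit 212],[],[nat_lit 214,nat_lit 217],[nat_lit 215,nat_lit 218],[],[],[nat_lit 210],[],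
    [nat_lit 200,nat_lit 205,nat_lit 207,nat_lit 211],[nat_lit 206,nat_lit 208],[nat_lit 219],[nat_lit 220],[],[]],
    [[nat_lit 238],[],[nat_lit 224,nat_lit 225,nat_lit 227,nat_lit 228],[],[nat_lit 234,nat_lit 236],[nat_lit 235,
    nat_lit 237],[nat_lit 223,nat_lit 233],[],[],[nat_lit 239],[nat_lit 229,nat_lit 231],[nat_lit 221,nat_lit 222,
    nat_lit 226,nat_lit 230,nat_lit 232],[nat_lit 240],[nat_lit 241],[],[]],[[],[nat_lit 244,nat_lit 245,nat_lit 249,
    nat_lit 252],[],[],[nat_lit 243,nat_lit 246,nat_lit 257,nat_lit 260],[nat_lit 258,nat_lit 261],[],[nat_lit 247,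
    nat_lit 256,nat_lit 259],[nat_lit 242,nat_lit 248,nat_lit 250,nat_lit 253,nat_lit 255],[nat_lit 251,nat_lit 254],
    [],[],[],[],[nat_lit 262],[nat_lit 263]],[[nat_lit 270,nat_lit 275],[nat_lit 266,nat_lit 267,nat_lit 271,
    nat_lit 281],[nat_lit 279],[],[nat_lit 264,nat_lit 277,nat_lit 282],[nat_lit 265,nat_lit 278,nat_lit 283],[],
    [nat_lit 280],[nat_lit 268,nat_lit 272],[nat_lit 269,nat_lit 273,nat_lit 274,nat_lit 276],[],[],[],[],
    [nat_lit 284],[nat_lit 285]],[[nat_lit 286],[nat_lit 287],[],[],[],[],[],[],[nat_lit 288],[nat_lit 289],[],[],[],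
    [],[],[]],[[nat_lit 290],[nat_lit 291],[],[],[],[],[],[],[nat_lit 292],[nat_lit 293],[],[],[],[],[],[]],[[],[],
    [nat_lit 294,nat_lit 298,nat_lit 302],[nat_lit 295,nat_lit 299],[],[],[nat_lit 296,nat_lit 300],[nat_lit 297,
    nat_lit 301,nat_lit 303],[],[],[nat_lit 304],[nat_lit 305],[],[],[],[]],[[],[],[nat_lit 306,nat_lit 308,
    nat_lit 311,nat_lit 314],[],[],[],[nat_lit 309,nat_lit 312],[nat_lit 307,nat_lit 310,nat_lit 313,nat_lit 315],[],
    [],[nat_lit 316],[nat_lit 317],[],[],[],[]]]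
    [[[nat_lit 0,nat_lit 0,nat_lit 0,nat_lit 0,nat_lit 0,nat_lit 0,
    nat_lit 0x1100000000000000000000000000000000000000000000000000000000000000000000000000,
    nat_lit 0x1100000000000000000000000000000000000000000000000000000000000000000000000000,
    nat_lit 0x880000000000000000000000000000000000000000000000000000000000000000000000000],[nat_lit 0,nat_lit 0,
    nat_lit 0,nat_lit 0,nat_lit 0,nat_lit 0,nat_lit 0,
    nat_lit 0xa200000000000000000000000000000000000000000000000000000000000000000000000000,nat_lit 0],[nat_lit 0,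
    nat_lit 0,nat_lit 0x20000000000000000000000000000000000000000000000000000000000000000000000000000,
    nat_lit 0x140000000000000000000000,nat_lit 0x140000000000000000000000,nat_lit 0x140000000000000000000000,
    nat_lit 0x140000000000000000000000,nat_lit 0x140000000000000000000000,nat_lit 0x140000000000000000000000],
    [nat_lit 0x8000000000000000000000000,nat_lit 0x280000000000000000000000,nat_lit 0x200000000000000000000,
    nat_lit 0x200000000000000000000,nat_lit 0x200000000000000000000,nat_lit 0,nat_lit 0,nat_lit 0,nat_lit 0],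
    [nat_lit 0x14441000000000000000000,nat_lit 0x14441000000000000000000,nat_lit 0x14441000000000000000000,
    nat_lit 0x14441000000000000000000,nat_lit 0x1420800000000000000000000,nat_lit 0,nat_lit 0,nat_lit 0,nat_lit 0],
    [nat_lit 0,nat_lit 0,nat_lit 0,nat_lit 0,nat_lit 0x10000,nat_lit 0x10000,nat_lit 0x1217,nat_lit 0x1217,
    nat_lit 0x20000],[nat_lit 0x2448,nat_lit 0x2448,nat_lit 0x2448,nat_lit 0x2448,nat_lit 0x2448,nat_lit 0,nat_lit 0,
    nat_lit 0,nat_lit 0],[nat_lit 0x48020,nat_lit 0,nat_lit 0,nat_lit 0,nat_lit 0x100000,nat_lit 0x100000,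
    nat_lit 0x100000,nat_lit 0x100000,nat_lit 0x88000000000000000000000000000000000],
    [nat_lit 0x88000000000000000000000000000000000,nat_lit 0x88000000000000000000000000000000000,
    nat_lit 0x88000000000000000000000000000000000,nat_lit 0x88000000000000000000000000000000000,
    nat_lit 0x88000000000000000000000000000000000,nat_lit 0,nat_lit 0,nat_lit 0,nat_lit 0]],[[nat_lit 0,nat_lit 0,
    nat_lit 0x2802800000000000000000000000000000000,nat_lit 0x2802800000000000000000000000000000000,nat_lit 0,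
    nat_lit 0,nat_lit 0,nat_lit 0,nat_lit 0],[nat_lit 0x220000000000000000000000000000000000,
    nat_lit 0x220000000000000000000000000000000000,nat_lit 0x110000000000000000000000000000000000,
    nat_lit 0x110000000000000000000000000000000000,nat_lit 0x480000000000000000000000000000000000000,
    nat_lit 0x480000000000000000000000000000000000000,nat_lit 0x5005000000000000000000000000000000000,
    nat_lit 0x5005000000000000000000000000000000000,nat_lit 0x200000000000000000000000000000000000000],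
    [nat_lit 0x200000000000000000000000000000000000000,nat_lit 0x20400000000000,nat_lit 0xa000000000000,
    nat_lit 0xa000000000000,nat_lit 0x4201a80000000000,nat_lit 0x4201a80000000000,nat_lit 0x220000000000000000,
    nat_lit 0x220000000000000000,nat_lit 0x220000000000000000],[nat_lit 0x220000000000000000,
    nat_lit 0x110000000000000000,nat_lit 0x110000000000000000,nat_lit 0x110000000000000000,
    nat_lit 0x110000000000000000,nat_lit 0,nat_lit 0,nat_lit 0x14000000000000,nat_lit 0x14000000000000],[nat_lit 0,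
    nat_lit 0,nat_lit 0x440000000000000000,nat_lit 0x440000000000000000,nat_lit 0,nat_lit 0,nat_lit 0,nat_lit 0,
    nat_lit 0],[nat_lit 0,nat_lit 0,nat_lit 0x10000000000000000000000000000000000000000000000000,
    nat_lit 0x104000000000000000000000000000000000000000000000,
    nat_lit 0x104000000000000000000000000000000000000000000000,
    nat_lit 0x28000000000000000000000000000000000000000000000,
    nat_lit 0x28000000000000000000000000000000000000000000000,
    nat_lit 0x400000000000000000000000000000000000000000000000,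
    nat_lit 0x400000000000000000000000000000000000000000000000],
    [nat_lit 0x44000000000000000000000000000000000000000000000000,
    nat_lit 0x44000000000000000000000000000000000000000000000000,
    nat_lit 0x44000000000000000000000000000000000000000000000000,
    nat_lit 0x44000000000000000000000000000000000000000000000000,
    nat_lit 0x22000000000000000000000000000000000000000000000000,
    nat_lit 0x22000000000000000000000000000000000000000000000000,
    nat_lit 0x22000000000000000000000000000000000000000000000000,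
    nat_lit 0x22000000000000000000000000000000000000000000000000,
    nat_lit 0xa00000000000000000000000000000000000000000000000],
    [nat_lit 0xa00000000000000000000000000000000000000000000000,
    nat_lit 0x50000000000000000000000000000000000000000000000,
    nat_lit 0x50000000000000000000000000000000000000000000000,nat_lit 0,nat_lit 0,
    nat_lit 0x88000000000000000000000000000000000000000000000000,
    nat_lit 0x88000000000000000000000000000000000000000000000000,nat_lit 0,nat_lit 0],[nat_lit 0,nat_lit 0,nat_lit 0,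
    nat_lit 0x2200000000000000000000000000,nat_lit 0,nat_lit 0,nat_lit 0,nat_lit 0,
    nat_lit 0xa00a0000000000000000000000000]],[[nat_lit 0xa00a0000000000000000000000000,
    nat_lit 0x4000000000000000000000000000000,nat_lit 0x8800000000000000000000000000,
    nat_lit 0x8800000000000000000000000000,nat_lit 0x4400000000000000000000000000,
    nat_lit 0x4400000000000000000000000000,nat_lit 0x48000000000000000000000000000000,
    nat_lit 0x48000000000000000000000000000000,nat_lit 0x140140000000000000000000000000],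
    [nat_lit 0x140140000000000000000000000000,nat_lit 0x11000000000000000000000000000,
    nat_lit 0x11000000000000000000000000000,nat_lit 0x22000000000000000000000000000000,
    nat_lit 0x22000000000000000000000000000000,nat_lit 0,nat_lit 0,nat_lit 0,nat_lit 0],[nat_lit 0,
    nat_lit 0x140000000000000000000000000000000000000000000000000000000000,
    nat_lit 0x140000000000000000000000000000000000000000000000000000000000,
    nat_lit 0x20080000000000000000000000000000000000000000000000000000000,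
    nat_lit 0x20080000000000000000000000000000000000000000000000000000000,nat_lit 0,nat_lit 0,
    nat_lit 0x280000000000000000000000000000000000000000000000000000000000,
    nat_lit 0x280000000000000000000000000000000000000000000000000000000000],
    [nat_lit 0x1000000000000000000000000000000000000000000000000000000000000,
    nat_lit 0x1000000000000000000000000000000000000000000000000000000000000,
    nat_lit 0x1000000000000000000000000000000000000000000000000000000000000,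
    nat_lit 0x800000000000000000000000000000000000000000000000000000000000,
    nat_lit 0x400000000000000000000000000000000000000000000000000000000000,
    nat_lit 0x400000000000000000000000000000000000000000000000000000000000,
    nat_lit 0x400000000000000000000000000000000000000000000000000000000000,
    nat_lit 0x2000000000000000000000000000000000000000000000000000000000000,
    nat_lit 0x2000000000000000000000000000000000000000000000000000000000000],
    [nat_lit 0x2000000000000000000000000000000000000000000000000000000000000,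
    nat_lit 0x2000000000000000000000000000000000000000000000000000000000000,
    nat_lit 0xa040000000000000000000000000000000000000000,nat_lit 0,nat_lit 0,nat_lit 0,nat_lit 0,
    nat_lit 0x280000000000000000000000000000000000000000000,nat_lit 0x280000000000000000000000000000000000000000000],
    [nat_lit 0x140000000000000000000000000000000000000000000,nat_lit 0x140000000000000000000000000000000000000000000,
    nat_lit 0xa00000000000000000000000000000000000000000,nat_lit 0xa00000000000000000000000000000000000000000,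
    nat_lit 0x4000000000000000000000000000000000000000,nat_lit 0,nat_lit 0,nat_lit 0,nat_lit 0],[nat_lit 0,nat_lit 0,
    nat_lit 0,nat_lit 0x50a0000000000000000000000000000000000000000,
    nat_lit 0x30001000000000000000000000000000000000000000,
    nat_lit 0x8000000000000000000000000000000000000000000000000000000000000000000000,
    nat_lit 0x8000000000000000000000000000000000000000000000000000000000000000000000,
    nat_lit 0x8000000000000000000000000000000000000000000000000000000000000000000000,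
    nat_lit 0x2008c000000000000000000000000000000000000000000000000000000000000000000],
    [nat_lit 0x2008c000000000000000000000000000000000000000000000000000000000000000000,
    nat_lit 0x2008c000000000000000000000000000000000000000000000000000000000000000000,
    nat_lit 0x2008c000000000000000000000000000000000000000000000000000000000000000000,
    nat_lit 0x2008c000000000000000000000000000000000000000000000000000000000000000000,nat_lit 0,nat_lit 0,nat_lit 0,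
    nat_lit 0,nat_lit 0x10000000000000000000000000000000000000000000000000000000000000000000000],[nat_lit 0,nat_lit 0,
    nat_lit 0x1620000000000000000000000000000000000000000000000000000000000000000000,
    nat_lit 0x1620000000000000000000000000000000000000000000000000000000000000000000,
    nat_lit 0x1620000000000000000000000000000000000000000000000000000000000000000000,
    nat_lit 0x1620000000000000000000000000000000000000000000000000000000000000000000,
    nat_lit 0x100000000000000000000000000000000000000000000000000000000000000000000000,nat_lit 0,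
    nat_lit 0x101e00000000000000000000000000000000000000000000000000]],
    [[nat_lit 0x101e00000000000000000000000000000000000000000000000000,
    nat_lit 0x101e00000000000000000000000000000000000000000000000000,
    nat_lit 0x101e00000000000000000000000000000000000000000000000000,nat_lit 0,nat_lit 0,
    nat_lit 0x1220000000000000000000000000000000000000000000000000000,nat_lit 0,nat_lit 0,nat_lit 0],[nat_lit 0,
    nat_lit 0,nat_lit 0,nat_lit 0x40000000000000000000000000000000000000000000000000000,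
    nat_lit 0x8a100000000000000000000000000000000000000000000000000,
    nat_lit 0x8a100000000000000000000000000000000000000000000000000,
    nat_lit 0x8a100000000000000000000000000000000000000000000000000,
    nat_lit 0x8a100000000000000000000000000000000000000000000000000,nat_lit 0],[nat_lit 0,nat_lit 0,
    nat_lit 0x10000000000000000000000000000000000000000000000000000000,nat_lit 0,nat_lit 0,nat_lit 0,nat_lit 0,
    nat_lit 0,nat_lit 0],[nat_lit 0,nat_lit 0,nat_lit 0,nat_lit 0,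
    nat_lit 0x10000000000000000000000000000000000000000000000000000000000000000000000000,
    nat_lit 0x10000000000000000000000000000000000000000000000000000000000000000000000000,
    nat_lit 0x10000000000000000000000000000000000000000000000000000000000000000000000000,nat_lit 0,nat_lit 0],
    [nat_lit 0,nat_lit 0,nat_lit 0,nat_lit 0,nat_lit 0,
    nat_lit 0x4000000000000000000000000000000000000000000000000000000000000000000000000,nat_lit 0,nat_lit 0,
    nat_lit 0x800000000000000000000000000000000000000000000000000000000000000000],[nat_lit 0,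
    nat_lit 0x90080000000000000000000000000000000000000000000000000000000000000,
    nat_lit 0x4940000000000000000000000000000000000000000000000000000000000000000000000000000,nat_lit 0,
    nat_lit 0x10000000000000000000000000000000000000000000000000000000000000000000000000000000,
    nat_lit 0xa480000000000000000000000000000000000000000000000000000000000000000000000000000,
    nat_lit 0x800000000000000000000000000000000000000000000000000000000000000000000000,
    nat_lit 0x800000000000000000000000000000000000000000000000000000000000000000000000,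
    nat_lit 0x800000000000000000000000000000000000000000000000000000000000000000000000],
    [nat_lit 0x800000000000000000000000000000000000000000000000000000000000000000000000,
    nat_lit 0x1000000000000000000000000000000000000000000000000000000000000000000000000,
    nat_lit 0x1000000000000000000000000000000000000000000000000000000000000000000000000,
    nat_lit 0x1000000000000000000000000000000000000000000000000000000000000000000000000,
    nat_lit 0x1000000000000000000000000000000000000000000000000000000000000000000000000,nat_lit 0,nat_lit 0,nat_lit 0,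
    nat_lit 0x2000000000000000000000000000000000000000000000000000000000000000000000000],[nat_lit 0x400000000,
    nat_lit 0x400000000,nat_lit 0,nat_lit 0,nat_lit 0,nat_lit 0x10000000,nat_lit 0x10000000,nat_lit 0x10000000,
    nat_lit 0x4800000000],[nat_lit 0x4800000000,nat_lit 0x10000000000,nat_lit 0]]]
    []
    (nat_lit 0) (nat_lit 24) (nat_lit 24)
    [[nat_lit 2,nat_lit 17,nat_lit 33,nat_lit 0x1011,nat_lit 0x10011,nat_lit 257,nat_lit 0x1101,nat_lit 0x101101,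
    nat_lit 0x1001,nat_lit 0x2001,nat_lit 0x11001,nat_lit 0x101001,nat_lit 0x10001,nat_lit 0x100001,
    nat_lit 0x1000011],[nat_lit 32,nat_lit 48,nat_lit 0x1020,nat_lit 0x10020,nat_lit 288,nat_lit 272,nat_lit 0x10110,
    nat_lit 0x1010,nat_lit 0x1110,nat_lit 0x2010,nat_lit 0x102010,nat_lit 0x11010,nat_lit 0x101010,nat_lit 0x101110,
    nat_lit 0x111010,nat_lit 0x201010,nat_lit 0x10010,nat_lit 0x21010,nat_lit 0x20010,nat_lit 0x100010,
    nat_lit 0x110010,nat_lit 0x1000010,nat_lit 0x1000110,nat_lit 0x1001010,nat_lit 0x1010010,nat_lit 0x10000010,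
    nat_lit 0x10000110,nat_lit 0x10010010],[nat_lit 512,nat_lit 768,nat_lit 0x101200,nat_lit 0x10200,nat_lit 0x100200,
    nat_lit 0x1100,nat_lit 0x2100,nat_lit 0x11100,nat_lit 0x102100,nat_lit 0x101100,nat_lit 0x111100,nat_lit 0x201100,
    nat_lit 0x10001100,nat_lit 0x10100,nat_lit 0x20100,nat_lit 0x1010100,nat_lit 0x100100,nat_lit 0x200100,
    nat_lit 0x1000100,nat_lit 0x10000100],[nat_lit 0x2000,nat_lit 0x3000,nat_lit 0x103000,nat_lit 0x12000,
    nat_lit 0x112000,nat_lit 0x102000,nat_lit 0x202000,nat_lit 0x203000,nat_lit 0x11000,nat_lit 0x212000,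
    nat_lit 0x21000,nat_lit 0x111000,nat_lit 0x10011000,nat_lit 0x22000,nat_lit 0x211000,nat_lit 0x1011000,
    nat_lit 0x1111000,nat_lit 0x101000,nat_lit 0x201000,nat_lit 0x301000,nat_lit 0x1001000,nat_lit 0x1101000,
    nat_lit 0x10001000,nat_lit 0x10101000],[nat_lit 0x20000,nat_lit 0x110000,nat_lit 0x210000,nat_lit 0x10010000],
    [nat_lit 0x200000,nat_lit 0x300000,nat_lit 0x1100000],[nat_lit 0x2000000,nat_lit 0x11000000],[nat_lit 0x20000000]]
    [.c (nat_lit 1) (nat_lit 2),.c (nat_lit 0) (nat_lit 0x200000600d),.c (nat_lit 0) (nat_lit 0x2000006007),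
    .c (nat_lit 0) (nat_lit 0x400018600d),.c (nat_lit 1) (nat_lit 0x1c200000d018),
    .c (nat_lit 1) (nat_lit 0x21c0000018),.c (nat_lit 1) (nat_lit 0x31c0340018),.c (nat_lit 1) (nat_lit 0xa198300019),
    .c (nat_lit 0) (nat_lit 0x200018000d),.c (nat_lit 0) (nat_lit 0x2000180007),
    .c (nat_lit 1) (nat_lit 0x1c2000340018),.c (nat_lit 0) (nat_lit 0x2004080005),
    .c (nat_lit 1) (nat_lit 0xc2000000008),.c (nat_lit 0) (nat_lit 0x2006000007),
    .c (nat_lit 1) (nat_lit 0x1c41d9340619),.c (nat_lit 2) (nat_lit 2),.c (nat_lit 0) (nat_lit 0x2000006005),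
    .c (nat_lit 0) (nat_lit 0x2000084005),.c (nat_lit 0) (nat_lit 0x80000006009),
    .c (nat_lit 0) (nat_lit 0x2080008009),.c (nat_lit 0) (nat_lit 0x80002009),.c (nat_lit 1) (nat_lit 0x1c41c000d018),
    .c (nat_lit 2) (nat_lit 0xc2004),.c (nat_lit 0) (nat_lit 0x2080104009),.c (nat_lit 0) (nat_lit 0x2000102005),
    .r (nat_lit 0xdba) (nat_lit 8) [nat_lit 0x30c33490c8104,nat_lit 0x2104080144],
    .c (nat_lit 0) (nat_lit 0x80000102009),.c (nat_lit 6) (nat_lit 0x40c3004),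
    .r (nat_lit 0xdb3) (nat_lit 13) [nat_lit 0x82204100244,nat_lit 0x2002200000004],
    .r (nat_lit 0xdba) (nat_lit 8) [nat_lit 0x50c3449148204,nat_lit 0x2002204100244],
    .r (nat_lit 0x16a2) (nat_lit 10) [nat_lit 0x1030c0102,nat_lit 0x202080142,nat_lit 0xc3245148004,
    nat_lit 0x142080081],.c (nat_lit 0) (nat_lit 0x80000006009),.c (nat_lit 1) (nat_lit 0x1c20001c700c),
    .c (nat_lit 1) (nat_lit 0x1c400000700c),.c (nat_lit 0) (nat_lit 0x2004002005),
    .c (nat_lit 0) (nat_lit 0x82008004009),.r (nat_lit 0xdba) (nat_lit 8) [nat_lit 129,nat_lit 0x30c0245008244],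
    .c (nat_lit 1) (nat_lit 0x1c2019340619),.r (nat_lit 0xdb3) (nat_lit 13) [nat_lit 0x3003240008244,
    nat_lit 0x2002200000004],.c (nat_lit 1) (nat_lit 0x31d9340619),.c (nat_lit 1) (nat_lit 0x200000700c),
    .c (nat_lit 0) (nat_lit 0x20c0005008),.r (nat_lit 0xdba) (nat_lit 8) [nat_lit 0xc3245108244,
    nat_lit 0x3002000140204],.c (nat_lit 3) (nat_lit 2),.c (nat_lit 0) (nat_lit 0x21c0000008),
    .c (nat_lit 1) (nat_lit 0x418c18000d),.r (nat_lit 0xdba) (nat_lit 8) [nat_lit 0xc2245008244,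
    nat_lit 0x3003000000204],.c (nat_lit 1) (nat_lit 0x218c00000d),.c (nat_lit 0) (nat_lit 0x80080005),
    .c (nat_lit 0) (nat_lit 0x2080200009),.c (nat_lit 1) (nat_lit 0x1c41c0340018),
    .r (nat_lit 0xdb3) (nat_lit 13) [nat_lit 0x82208000244,nat_lit 0x2002200000004],
    .r (nat_lit 0xdba) (nat_lit 8) [nat_lit 0x30c5449008204,nat_lit 0x2102000142],
    .c (nat_lit 1) (nat_lit 0x184198300019),.r (nat_lit 0x117b) (nat_lit 14) [nat_lit 0x182404000244,
    nat_lit 0x71c9a51358204,nat_lit 0x80000001,nat_lit 0x2243000102],.c (nat_lit 0) (nat_lit 0x20c0140008),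
    .c (nat_lit 1) (nat_lit 0x1c81c0000018),.r (nat_lit 0xdb3) (nat_lit 13) [nat_lit 0x5083000000204,
    nat_lit 0x2002200000004],.c (nat_lit 0) (nat_lit 0x2088104248),.c (nat_lit 0) (nat_lit 0x2088000009),
    .r (nat_lit 0xdb3) (nat_lit 13) [nat_lit 0x82400000244,nat_lit 0x2002200000004],
    .c (nat_lit 1) (nat_lit 0x1c301934d619),.r (nat_lit 0xdba) (nat_lit 8) [nat_lit 0x30c0245008244,nat_lit 129],
    .c (nat_lit 4) (nat_lit 2),.c (nat_lit 0) (nat_lit 0x2000180005),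
    .r (nat_lit 0xdba) (nat_lit 8) [nat_lit 0x30c334b008104,nat_lit 0x2106000144],
    .c (nat_lit 0) (nat_lit 0x80000180009),.r (nat_lit 0xdba) (nat_lit 8) [nat_lit 0x50c344d008204,
    nat_lit 0x2002208000244],.c (nat_lit 6) (nat_lit 0x20c0002),.r (nat_lit 0x16a2) (nat_lit 10) [nat_lit 0x83000081,
    nat_lit 0x1020000c1,nat_lit 0xc3245148004,nat_lit 0x242180102],
    .r (nat_lit 0xdb3) (nat_lit 13) [nat_lit 0x80206000144,nat_lit 0x2002200000004],
    .c (nat_lit 0) (nat_lit 0x80000180009),.r (nat_lit 0x117b) (nat_lit 14) [nat_lit 0x2180408000244,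
    nat_lit 0x91c7a55358204,nat_lit 0x80000001,nat_lit 0x3006449000204],.c (nat_lit 1) (nat_lit 0x1c40001c000c),
    .c (nat_lit 0) (nat_lit 0x82008100009),.r (nat_lit 0xdba) (nat_lit 8) [nat_lit 0xc3240008244,
    nat_lit 0x3002005000204],.c (nat_lit 1) (nat_lit 0x1c200034000c),
    .r (nat_lit 0xdb3) (nat_lit 13) [nat_lit 0x2080404000244,nat_lit 0x2002200000004],
    .c (nat_lit 1) (nat_lit 0x31d900d619),.c (nat_lit 1) (nat_lit 0x20c0005209),.c (nat_lit 0) (nat_lit 0x2004080005),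
    .r (nat_lit 0xdba) (nat_lit 8) [nat_lit 0x30c3447008104,nat_lit 0x2202000144],
    .r (nat_lit 0xdb3) (nat_lit 13) [nat_lit 0x80302000144,nat_lit 0x2002200000004],
    .r (nat_lit 0xdba) (nat_lit 8) [nat_lit 0x3080102,nat_lit 0x30c0240148244],
    .r (nat_lit 0x117b) (nat_lit 14) [nat_lit 0x3103000148244,nat_lit 0x30c3347148102,nat_lit 0x80000001,
    nat_lit 0x2088000109204],.c (nat_lit 1) (nat_lit 0x20001c000c),.c (nat_lit 1) (nat_lit 0x200c18000d),
    .c (nat_lit 5) (nat_lit 2),.c (nat_lit 0) (nat_lit 0x80006000007),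
    .r (nat_lit 0xdba) (nat_lit 8) [nat_lit 0x50c3645008204,nat_lit 0x2002400000244],
    .r (nat_lit 0xdb3) (nat_lit 13) [nat_lit 0x3080000000204,nat_lit 0x2002200000004],.c (nat_lit 6) (nat_lit 2),
    .r (nat_lit 0x16a2) (nat_lit 10) [nat_lit 129,nat_lit 0x1800000c1,nat_lit 0xc3245148004,nat_lit 0x346180102],
    .r (nat_lit 0xdb3) (nat_lit 13) [nat_lit 0x3003005148244,nat_lit 0x2002200000004],.c (nat_lit 7) (nat_lit 2),
    .c (nat_lit 0) (nat_lit 0x82088104246),.c (nat_lit 8) (nat_lit 2)]]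

/-- nodes -/
noncomputable def rD8k_37_28 : List RJ :=
  [.s (nat_lit 16) (nat_lit 0x3a20) (nat_lit 5) (nat_lit 0x1cad000017c100001c7500001c75000017f9000017f9000018cd000018cd0000176b0000176b00001c6b00001c6b0000201100002011000021ff000021ff) (nat_lit 0xa3e000005520000058a0000058a00000a0600000a06000009320000093200000a9400000a940000059400000594000001ee000001ee0000000000000000)
    (nat_lit 0x1223175b172314d712a709b714f315d7121912191719171923631abf1cad20210bc3122311b312370dbb0bbb10a712230cbd0d2d122d10951e7715d31a0d1d81123714d718eb18ab0edb12f31343134313790fc916e1175114c71a871cc113d111b3172316f318eb110b126f130f1343100d1009172116e11a8719e725651c750bbb09b7126f12f30df30deb109f102b0d650d9913051439160b15cb17f917f90dbb12a7110b0edb0ceb0df30f3b0ec70d6d0dd912651265166f160b159d17f9122315d7134313430ec7102b0f2710a30e390dc51339133116df16df18cd186910a714f3130f13430f3b109f0f9b0f270e390e39125512cd16df175318cd174d0d2d121910090fc90dd90d990e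390dc50d430cd7116311d716fd166115f3176b0cbd1219100d13790d6d0d650e390e390cd70d43138b11d7151d16cd176b176b1095171916e117511265143912cd133111d711d7158716d71a7d18c91c6b1ccb122d1719172116e11265130512551339138b116316d715871a7d1a7d1c6b1ccb15d31abf19e71a87160b15cb175316df16cd16611a7d18c91dc31e23201120111e7723631a8714c7166f160b16df16df151d16fd1a7d1a7d1e231dc31c9d20111d8120211c7513d117f917f9174d1869176b176b1ccb1ccb20112011195b21ff1a0d1cad25651cc1159d17f918cd18cd176b15f31c6b1c6b1c9d201121ff195b)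
    (nat_lit 0x12233a203a203a203a203a203a203a203a203a203a203a203a203a203a203a20175b12233a203a203a203a203a203a203a203a203a203a203a203a203a203a20172311b318eb3a203a203a203a203a203a203a203a203a203a203a203a203a2014d7123718ab18eb3a203a203a203a203a203a203a203a203a203a203a203a2012a70dbb0edb110b0df33a203a203a203a203a203a203a203a203a203a203a2009b70bbb12f3126f0deb0df33a203a203a203a203a203a203a203a203a203a2014f310a71343130f109f0f3b0f273a203a203a203a203a203a203a203a203a2015d7122313431343102b0ec710a30f273a203a203a203a203a203a203a203a2012190cbd1379100d0d650d6d0e390e390d433a203a203a203a203a203a203a2012190d2d0fc910090d990dd90dc50e390cd70d433a203a203a203a203a203a201719122d16e1172113051265133912551163138b15873a203a203a203a203a2017191095175116e114391265133112cd11d711d716d715873a203a203a203a2020261e7714c71a87160b166f16df16df16fd151d1a7d1a7d1dc33a203a203a201abf15d31a8719e715cb160b16df1753166116cd18c91a7d1e231dc33a203a201cad1a0d1cc1256517f9159d18cd18cd15f3176b1c6b1c6b20111c9d195b3a2020211d8113d11c7517f917f91869174d176b176b1ccb1ccb2011201121ff195b)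
    (nat_lit 6) (nat_lit 141)
    [[nat_lit 0,nat_lit 4],[nat_lit 0,nat_lit 5],[nat_lit 0,nat_lit 8,nat_lit 10],[nat_lit 0,nat_lit 8,nat_lit 11],
    [nat_lit 0,nat_lit 9,nat_lit 7],[nat_lit 0,nat_lit 9,nat_lit 10],[nat_lit 0,nat_lit 9,nat_lit 11],[nat_lit 0,
    nat_lit 12],[nat_lit 0,nat_lit 13],[nat_lit 1,nat_lit 4],[nat_lit 1,nat_lit 5],[nat_lit 1,nat_lit 6,nat_lit 8],
    [nat_lit 1,nat_lit 10,nat_lit 8],[nat_lit 1,nat_lit 10,nat_lit 9],[nat_lit 1,nat_lit 11,nat_lit 8],[nat_lit 1,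
    nat_lit 11,nat_lit 9],[nat_lit 1,nat_lit 12],[nat_lit 1,nat_lit 13],[nat_lit 2,nat_lit 7,nat_lit 6],[nat_lit 2,
    nat_lit 7,nat_lit 7],[nat_lit 2,nat_lit 7,nat_lit 10],[nat_lit 2,nat_lit 7,nat_lit 11],[nat_lit 2,nat_lit 10,
    nat_lit 6],[nat_lit 2,nat_lit 10,nat_lit 7],[nat_lit 2,nat_lit 10,nat_lit 10],[nat_lit 2,nat_lit 10,nat_lit 11],
    [nat_lit 2,nat_lit 11,nat_lit 6],[nat_lit 2,nat_lit 11,nat_lit 11],[nat_lit 2,nat_lit 14],[nat_lit 2,nat_lit 15],
    [nat_lit 3,nat_lit 6,nat_lit 6],[nat_lit 3,nat_lit 6,nat_lit 11],[nat_lit 3,nat_lit 7,nat_lit 6],[nat_lit 3,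
    nat_lit 7,nat_lit 10],[nat_lit 3,nat_lit 7,nat_lit 11],[nat_lit 3,nat_lit 10,nat_lit 6],[nat_lit 3,nat_lit 10,
    nat_lit 10],[nat_lit 3,nat_lit 10,nat_lit 11],[nat_lit 3,nat_lit 11,nat_lit 6],[nat_lit 3,nat_lit 11,nat_lit 11],
    [nat_lit 3,nat_lit 14],[nat_lit 3,nat_lit 15],[nat_lit 4,nat_lit 4,nat_lit 6],[nat_lit 4,nat_lit 4,nat_lit 11],
    [nat_lit 4,nat_lit 6,nat_lit 4],[nat_lit 4,nat_lit 6,nat_lit 5],[nat_lit 4,nat_lit 6,nat_lit 12],[nat_lit 4,
    nat_lit 6,nat_lit 13],[nat_lit 4,nat_lit 7,nat_lit 5],[nat_lit 4,nat_lit 8,nat_lit 14],[nat_lit 4,nat_lit 9,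
    nat_lit 14],[nat_lit 4,nat_lit 10,nat_lit 5],[nat_lit 4,nat_lit 10,nat_lit 7,nat_lit 8],[nat_lit 4,nat_lit 10,
    nat_lit 12],[nat_lit 4,nat_lit 10,nat_lit 13],[nat_lit 4,nat_lit 11,nat_lit 4],[nat_lit 4,nat_lit 11,nat_lit 5],
    [nat_lit 4,nat_lit 11,nat_lit 6,nat_lit 9],[nat_lit 4,nat_lit 11,nat_lit 13],[nat_lit 4,nat_lit 12,nat_lit 6],
    [nat_lit 4,nat_lit 12,nat_lit 7],[nat_lit 4,nat_lit 12,nat_lit 10],[nat_lit 4,nat_lit 13,nat_lit 6],[nat_lit 4,
    nat_lit 13,nat_lit 7],[nat_lit 4,nat_lit 15,nat_lit 8],[nat_lit 4,nat_lit 15,nat_lit 9],[nat_lit 5,nat_lit 5,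
    nat_lit 7],[nat_lit 5,nat_lit 5,nat_lit 10],[nat_lit 5,nat_lit 6,nat_lit 12],[nat_lit 5,nat_lit 6,nat_lit 13],
    [nat_lit 5,nat_lit 7,nat_lit 5],[nat_lit 5,nat_lit 7,nat_lit 12],[nat_lit 5,nat_lit 7,nat_lit 13],[nat_lit 5,
    nat_lit 8,nat_lit 7,nat_lit 10],[nat_lit 5,nat_lit 8,nat_lit 14],[nat_lit 5,nat_lit 9,nat_lit 6,nat_lit 11],
    [nat_lit 5,nat_lit 9,nat_lit 14],[nat_lit 5,nat_lit 10,nat_lit 5],[nat_lit 5,nat_lit 11,nat_lit 13],[nat_lit 5,
    nat_lit 12,nat_lit 7],[nat_lit 5,nat_lit 12,nat_lit 10],[nat_lit 5,nat_lit 12,nat_lit 11],[nat_lit 5,nat_lit 13,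
    nat_lit 7],[nat_lit 5,nat_lit 13,nat_lit 11],[nat_lit 5,nat_lit 15,nat_lit 8],[nat_lit 5,nat_lit 15,nat_lit 9],
    [nat_lit 6,nat_lit 6,nat_lit 6,nat_lit 8,nat_lit 8],[nat_lit 6,nat_lit 6,nat_lit 8,nat_lit 8,nat_lit 6],
    [nat_lit 6,nat_lit 7,nat_lit 9,nat_lit 12],[nat_lit 6,nat_lit 7,nat_lit 13,nat_lit 8],[nat_lit 6,nat_lit 8,
    nat_lit 6,nat_lit 13],[nat_lit 6,nat_lit 8,nat_lit 8,nat_lit 6,nat_lit 6],[nat_lit 6,nat_lit 9,nat_lit 8,
    nat_lit 14],[nat_lit 6,nat_lit 13,nat_lit 6,nat_lit 8],[nat_lit 6,nat_lit 13,nat_lit 12],[nat_lit 6,nat_lit 13,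
    nat_lit 13],[nat_lit 7,nat_lit 7,nat_lit 7,nat_lit 9,nat_lit 9],[nat_lit 7,nat_lit 7,nat_lit 9,nat_lit 9,
    nat_lit 7],[nat_lit 7,nat_lit 9,nat_lit 7,nat_lit 12],[nat_lit 7,nat_lit 9,nat_lit 9,nat_lit 7,nat_lit 7],
    [nat_lit 7,nat_lit 12,nat_lit 7,nat_lit 9],[nat_lit 7,nat_lit 12,nat_lit 12],[nat_lit 7,nat_lit 13,nat_lit 12],
    [nat_lit 7,nat_lit 15,nat_lit 9,nat_lit 8],[nat_lit 8,nat_lit 8,nat_lit 15,nat_lit 10],[nat_lit 8,nat_lit 9,
    nat_lit 10,nat_lit 14],[nat_lit 8,nat_lit 9,nat_lit 11,nat_lit 15],[nat_lit 8,nat_lit 9,nat_lit 14,nat_lit 10],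
    [nat_lit 8,nat_lit 9,nat_lit 15,nat_lit 11],[nat_lit 8,nat_lit 12,nat_lit 14],[nat_lit 8,nat_lit 12,nat_lit 15],
    [nat_lit 8,nat_lit 13,nat_lit 14],[nat_lit 8,nat_lit 13,nat_lit 15],[nat_lit 8,nat_lit 14,nat_lit 13],[nat_lit 8,
    nat_lit 15,nat_lit 10,nat_lit 8],[nat_lit 8,nat_lit 15,nat_lit 12],[nat_lit 8,nat_lit 15,nat_lit 13],[nat_lit 9,
    nat_lit 9,nat_lit 11,nat_lit 14],[nat_lit 9,nat_lit 11,nat_lit 14,nat_lit 9],[nat_lit 9,nat_lit 12,nat_lit 14],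
    [nat_lit 9,nat_lit 12,nat_lit 15],[nat_lit 9,nat_lit 13,nat_lit 14],[nat_lit 9,nat_lit 14,nat_lit 12],[nat_lit 9,
    nat_lit 14,nat_lit 13],[nat_lit 9,nat_lit 15,nat_lit 12],[nat_lit 9,nat_lit 15,nat_lit 13],[nat_lit 10,nat_lit 12,
    nat_lit 12],[nat_lit 10,nat_lit 12,nat_lit 13],[nat_lit 10,nat_lit 13,nat_lit 12],[nat_lit 11,nat_lit 12,
    nat_lit 13],[nat_lit 11,nat_lit 13,nat_lit 12],[nat_lit 11,nat_lit 13,nat_lit 13]]
    [nat_lit 260,nat_lit 261,nat_lit 0x108a,nat_lit 0x108b,nat_lit 0x1097,nat_lit 0x109a,nat_lit 0x109b,nat_lit 268,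
    nat_lit 269,nat_lit 276,nat_lit 277,nat_lit 0x1168,nat_lit 0x11a8,nat_lit 0x11a9,nat_lit 0x11b8,nat_lit 0x11b9,
    nat_lit 284,nat_lit 285,nat_lit 0x1276,nat_lit 0x1277,nat_lit 0x127a,nat_lit 0x127b,nat_lit 0x12a6,nat_lit 0x12a7,
    nat_lit 0x12aa,nat_lit 0x12ab,nat_lit 0x12b6,nat_lit 0x12bb,nat_lit 302,nat_lit 303,nat_lit 0x1366,nat_lit 0x136b,
    nat_lit 0x1376,nat_lit 0x137a,nat_lit 0x137b,nat_lit 0x13a6,nat_lit 0x13aa,nat_lit 0x13ab,nat_lit 0x13b6,
    nat_lit 0x13bb,nat_lit 318,nat_lit 319,nat_lit 0x1446,nat_lit 0x144b,nat_lit 0x1464,nat_lit 0x1465,nat_lit 0x146c,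
    nat_lit 0x146d,nat_lit 0x1475,nat_lit 0x148e,nat_lit 0x149e,nat_lit 0x14a5,nat_lit 0x14a78,nat_lit 0x14ac,
    nat_lit 0x14ad,nat_lit 0x14b4,nat_lit 0x14b5,nat_lit 0x14b69,nat_lit 0x14bd,nat_lit 0x14c6,nat_lit 0x14c7,
    nat_lit 0x14ca,nat_lit 0x14d6,nat_lit 0x14d7,nat_lit 0x14f8,nat_lit 0x14f9,nat_lit 0x1557,nat_lit 0x155a,
    nat_lit 0x156c,nat_lit 0x156d,nat_lit 0x1575,nat_lit 0x157c,nat_lit 0x157d,nat_lit 0x1587a,nat_lit 0x158e,
    nat_lit 0x1596b,nat_lit 0x159e,nat_lit 0x15a5,nat_lit 0x15bd,nat_lit 0x15c7,nat_lit 0x15ca,nat_lit 0x15cb,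
    nat_lit 0x15d7,nat_lit 0x15db,nat_lit 0x15f8,nat_lit 0x15f9,nat_lit 0x166688,nat_lit 0x166886,nat_lit 0x1679c,
    nat_lit 0x167d8,nat_lit 0x1686d,nat_lit 0x168866,nat_lit 0x1698e,nat_lit 0x16d68,nat_lit 0x16dc,nat_lit 0x16dd,
    nat_lit 0x177799,nat_lit 0x177997,nat_lit 0x1797c,nat_lit 0x179977,nat_lit 0x17c79,nat_lit 0x17cc,nat_lit 0x17dc,
    nat_lit 0x17f98,nat_lit 0x188fa,nat_lit 0x189ae,nat_lit 0x189bf,nat_lit 0x189ea,nat_lit 0x189fb,nat_lit 0x18ce,
    nat_lit 0x18cf,nat_lit 0x18de,nat_lit 0x18df,nat_lit 0x18ed,nat_lit 0x18fa8,nat_lit 0x18fc,nat_lit 0x18fd,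
    nat_lit 0x199be,nat_lit 0x19be9,nat_lit 0x19ce,nat_lit 0x19cf,nat_lit 0x19de,nat_lit 0x19ec,nat_lit 0x19ed,
    nat_lit 0x19fc,nat_lit 0x19fd,nat_lit 0x1acc,nat_lit 0x1acd,nat_lit 0x1adc,nat_lit 0x1bcd,nat_lit 0x1bdc,
    nat_lit 0x1bdd]
    [[[nat_lit 0,nat_lit 4],[nat_lit 0,nat_lit 5],[nat_lit 0,nat_lit 8,nat_lit 10],[nat_lit 0,nat_lit 8,nat_lit 11],
    [nat_lit 0,nat_lit 9,nat_lit 7],[nat_lit 0,nat_lit 9,nat_lit 10],[nat_lit 0,nat_lit 9,nat_lit 11],[nat_lit 0,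
    nat_lit 12],[nat_lit 0,nat_lit 13],[nat_lit 1,nat_lit 4],[nat_lit 1,nat_lit 5],[nat_lit 1,nat_lit 6,nat_lit 8]],
    [[nat_lit 1,nat_lit 10,nat_lit 8],[nat_lit 1,nat_lit 10,nat_lit 9],[nat_lit 1,nat_lit 11,nat_lit 8],[nat_lit 1,
    nat_lit 11,nat_lit 9],[nat_lit 1,nat_lit 12],[nat_lit 1,nat_lit 13],[nat_lit 2,nat_lit 7,nat_lit 6],[nat_lit 2,
    nat_lit 7,nat_lit 7],[nat_lit 2,nat_lit 7,nat_lit 10],[nat_lit 2,nat_lit 7,nat_lit 11],[nat_lit 2,nat_lit 10,
    nat_lit 6],[nat_lit 2,nat_lit 10,nat_lit 7]],[[nat_lit 2,nat_lit 10,nat_lit 10],[nat_lit 2,nat_lit 10,nat_lit 11],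
    [nat_lit 2,nat_lit 11,nat_lit 6],[nat_lit 2,nat_lit 11,nat_lit 11],[nat_lit 2,nat_lit 14],[nat_lit 2,nat_lit 15],
    [nat_lit 3,nat_lit 6,nat_lit 6],[nat_lit 3,nat_lit 6,nat_lit 11],[nat_lit 3,nat_lit 7,nat_lit 6],[nat_lit 3,
    nat_lit 7,nat_lit 10],[nat_lit 3,nat_lit 7,nat_lit 11],[nat_lit 3,nat_lit 10,nat_lit 6]],[[nat_lit 3,nat_lit 10,
    nat_lit 10],[nat_lit 3,nat_lit 10,nat_lit 11],[nat_lit 3,nat_lit 11,nat_lit 6],[nat_lit 3,nat_lit 11,nat_lit 11],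
    [nat_lit 3,nat_lit 14],[nat_lit 3,nat_lit 15],[nat_lit 4,nat_lit 0],[nat_lit 4,nat_lit 1],[nat_lit 4,nat_lit 4,
    nat_lit 6],[nat_lit 4,nat_lit 4,nat_lit 11],[nat_lit 4,nat_lit 6,nat_lit 4],[nat_lit 4,nat_lit 6,nat_lit 5]],
    [[nat_lit 4,nat_lit 6,nat_lit 12],[nat_lit 4,nat_lit 6,nat_lit 13],[nat_lit 4,nat_lit 7,nat_lit 5],[nat_lit 4,
    nat_lit 8,nat_lit 14],[nat_lit 4,nat_lit 9,nat_lit 14],[nat_lit 4,nat_lit 10,nat_lit 5],[nat_lit 4,nat_lit 10,
    nat_lit 7,nat_lit 8],[nat_lit 4,nat_lit 10,nat_lit 12],[nat_lit 4,nat_lit 10,nat_lit 13],[nat_lit 4,nat_lit 11,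
    nat_lit 4],[nat_lit 4,nat_lit 11,nat_lit 5],[nat_lit 4,nat_lit 11,nat_lit 6,nat_lit 9]],[[nat_lit 4,nat_lit 11,
    nat_lit 13],[nat_lit 4,nat_lit 12,nat_lit 6],[nat_lit 4,nat_lit 12,nat_lit 7],[nat_lit 4,nat_lit 12,nat_lit 10],
    [nat_lit 4,nat_lit 13,nat_lit 6],[nat_lit 4,nat_lit 13,nat_lit 7],[nat_lit 4,nat_lit 15,nat_lit 8],[nat_lit 4,
    nat_lit 15,nat_lit 9],[nat_lit 5,nat_lit 0],[nat_lit 5,nat_lit 1],[nat_lit 5,nat_lit 4,nat_lit 6],[nat_lit 5,
    nat_lit 4,nat_lit 7]],[[nat_lit 5,nat_lit 4,nat_lit 10],[nat_lit 5,nat_lit 4,nat_lit 11],[nat_lit 5,nat_lit 5,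
    nat_lit 7],[nat_lit 5,nat_lit 5,nat_lit 10],[nat_lit 5,nat_lit 6,nat_lit 12],[nat_lit 5,nat_lit 6,nat_lit 13],
    [nat_lit 5,nat_lit 7,nat_lit 5],[nat_lit 5,nat_lit 7,nat_lit 12],[nat_lit 5,nat_lit 7,nat_lit 13],[nat_lit 5,
    nat_lit 8,nat_lit 7,nat_lit 10],[nat_lit 5,nat_lit 8,nat_lit 14],[nat_lit 5,nat_lit 9,nat_lit 6,nat_lit 11]],
    [[nat_lit 5,nat_lit 9,nat_lit 14],[nat_lit 5,nat_lit 10,nat_lit 5],[nat_lit 5,nat_lit 11,nat_lit 13],[nat_lit 5,
    nat_lit 12,nat_lit 7],[nat_lit 5,nat_lit 12,nat_lit 10],[nat_lit 5,nat_lit 12,nat_lit 11],[nat_lit 5,nat_lit 13,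
    nat_lit 7],[nat_lit 5,nat_lit 13,nat_lit 11],[nat_lit 5,nat_lit 15,nat_lit 8],[nat_lit 5,nat_lit 15,nat_lit 9],
    [nat_lit 6,nat_lit 2,nat_lit 7],[nat_lit 6,nat_lit 2,nat_lit 10]],[[nat_lit 6,nat_lit 2,nat_lit 11],[nat_lit 6,
    nat_lit 3,nat_lit 6],[nat_lit 6,nat_lit 3,nat_lit 7],[nat_lit 6,nat_lit 3,nat_lit 10],[nat_lit 6,nat_lit 3,
    nat_lit 11],[nat_lit 6,nat_lit 4,nat_lit 4],[nat_lit 6,nat_lit 4,nat_lit 12],[nat_lit 6,nat_lit 4,nat_lit 13],
    [nat_lit 6,nat_lit 5,nat_lit 4],[nat_lit 6,nat_lit 6,nat_lit 3],[nat_lit 6,nat_lit 6,nat_lit 6,nat_lit 8,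
    nat_lit 8],[nat_lit 6,nat_lit 6,nat_lit 8,nat_lit 8,nat_lit 6]],[[nat_lit 6,nat_lit 7,nat_lit 9,nat_lit 12],
    [nat_lit 6,nat_lit 7,nat_lit 13,nat_lit 8],[nat_lit 6,nat_lit 8,nat_lit 1],[nat_lit 6,nat_lit 8,nat_lit 6,
    nat_lit 13],[nat_lit 6,nat_lit 8,nat_lit 8,nat_lit 6,nat_lit 6],[nat_lit 6,nat_lit 9,nat_lit 4,nat_lit 11],
    [nat_lit 6,nat_lit 9,nat_lit 8,nat_lit 14],[nat_lit 6,nat_lit 11,nat_lit 3],[nat_lit 6,nat_lit 11,nat_lit 5,
    nat_lit 9],[nat_lit 6,nat_lit 12,nat_lit 4],[nat_lit 6,nat_lit 12,nat_lit 5],[nat_lit 6,nat_lit 13,nat_lit 4]],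
    [[nat_lit 6,nat_lit 13,nat_lit 5],[nat_lit 6,nat_lit 13,nat_lit 6,nat_lit 8],[nat_lit 6,nat_lit 13,nat_lit 12],
    [nat_lit 6,nat_lit 13,nat_lit 13],[nat_lit 7,nat_lit 0,nat_lit 9],[nat_lit 7,nat_lit 2,nat_lit 7],[nat_lit 7,
    nat_lit 2,nat_lit 10],[nat_lit 7,nat_lit 4,nat_lit 12],[nat_lit 7,nat_lit 4,nat_lit 13],[nat_lit 7,nat_lit 5,
    nat_lit 4],[nat_lit 7,nat_lit 5,nat_lit 5],[nat_lit 7,nat_lit 5,nat_lit 12]],[[nat_lit 7,nat_lit 5,nat_lit 13],
    [nat_lit 7,nat_lit 6,nat_lit 2],[nat_lit 7,nat_lit 6,nat_lit 3],[nat_lit 7,nat_lit 7,nat_lit 2],[nat_lit 7,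
    nat_lit 7,nat_lit 7,nat_lit 9,nat_lit 9],[nat_lit 7,nat_lit 7,nat_lit 9,nat_lit 9,nat_lit 7],[nat_lit 7,nat_lit 8,
    nat_lit 4,nat_lit 10],[nat_lit 7,nat_lit 9,nat_lit 7,nat_lit 12],[nat_lit 7,nat_lit 9,nat_lit 9,nat_lit 7,
    nat_lit 7],[nat_lit 7,nat_lit 9,nat_lit 12,nat_lit 6],[nat_lit 7,nat_lit 10,nat_lit 2],[nat_lit 7,nat_lit 10,
    nat_lit 3]],[[nat_lit 7,nat_lit 10,nat_lit 5,nat_lit 8],[nat_lit 7,nat_lit 11,nat_lit 2],[nat_lit 7,nat_lit 11,
    nat_lit 3],[nat_lit 7,nat_lit 12,nat_lit 5],[nat_lit 7,nat_lit 12,nat_lit 7,nat_lit 9],[nat_lit 7,nat_lit 12,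
    nat_lit 12],[nat_lit 7,nat_lit 13,nat_lit 5],[nat_lit 7,nat_lit 13,nat_lit 8,nat_lit 6],[nat_lit 7,nat_lit 13,
    nat_lit 12],[nat_lit 7,nat_lit 15,nat_lit 9,nat_lit 8],[nat_lit 8,nat_lit 1,nat_lit 6],[nat_lit 8,nat_lit 1,
    nat_lit 10]],[[nat_lit 8,nat_lit 1,nat_lit 11],[nat_lit 8,nat_lit 4,nat_lit 10,nat_lit 7],[nat_lit 8,nat_lit 4,
    nat_lit 15],[nat_lit 8,nat_lit 5,nat_lit 15],[nat_lit 8,nat_lit 6,nat_lit 6,nat_lit 6,nat_lit 8],[nat_lit 8,
    nat_lit 6,nat_lit 7,nat_lit 13],[nat_lit 8,nat_lit 6,nat_lit 13,nat_lit 6],[nat_lit 8,nat_lit 7,nat_lit 10,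
    nat_lit 5],[nat_lit 8,nat_lit 7,nat_lit 15,nat_lit 9],[nat_lit 8,nat_lit 8,nat_lit 6,nat_lit 6,nat_lit 6],
    [nat_lit 8,nat_lit 8,nat_lit 15,nat_lit 10],[nat_lit 8,nat_lit 9,nat_lit 10,nat_lit 14]],[[nat_lit 8,nat_lit 9,
    nat_lit 11,nat_lit 15],[nat_lit 8,nat_lit 9,nat_lit 14,nat_lit 10],[nat_lit 8,nat_lit 9,nat_lit 15,nat_lit 11],
    [nat_lit 8,nat_lit 10,nat_lit 0],[nat_lit 8,nat_lit 11,nat_lit 0],[nat_lit 8,nat_lit 12,nat_lit 14],[nat_lit 8,
    nat_lit 12,nat_lit 15],[nat_lit 8,nat_lit 13,nat_lit 14],[nat_lit 8,nat_lit 13,nat_lit 15],[nat_lit 8,nat_lit 14,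
    nat_lit 4],[nat_lit 8,nat_lit 14,nat_lit 5],[nat_lit 8,nat_lit 14,nat_lit 6,nat_lit 9]],[[nat_lit 8,nat_lit 14,
    nat_lit 13],[nat_lit 8,nat_lit 15,nat_lit 10,nat_lit 8],[nat_lit 8,nat_lit 15,nat_lit 12],[nat_lit 8,nat_lit 15,
    nat_lit 13],[nat_lit 9,nat_lit 1,nat_lit 10],[nat_lit 9,nat_lit 1,nat_lit 11],[nat_lit 9,nat_lit 4,nat_lit 11,
    nat_lit 6],[nat_lit 9,nat_lit 4,nat_lit 15],[nat_lit 9,nat_lit 5,nat_lit 15],[nat_lit 9,nat_lit 6,nat_lit 11,
    nat_lit 5],[nat_lit 9,nat_lit 7,nat_lit 0],[nat_lit 9,nat_lit 7,nat_lit 7,nat_lit 7,nat_lit 9]],[[nat_lit 9,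
    nat_lit 7,nat_lit 12,nat_lit 7],[nat_lit 9,nat_lit 8,nat_lit 7,nat_lit 15],[nat_lit 9,nat_lit 8,nat_lit 14,
    nat_lit 6],[nat_lit 9,nat_lit 9,nat_lit 7,nat_lit 7,nat_lit 7],[nat_lit 9,nat_lit 9,nat_lit 11,nat_lit 14],
    [nat_lit 9,nat_lit 10,nat_lit 0],[nat_lit 9,nat_lit 10,nat_lit 14,nat_lit 8],[nat_lit 9,nat_lit 11,nat_lit 0],
    [nat_lit 9,nat_lit 11,nat_lit 14,nat_lit 9],[nat_lit 9,nat_lit 11,nat_lit 15,nat_lit 8],[nat_lit 9,nat_lit 12,
    nat_lit 6,nat_lit 7],[nat_lit 9,nat_lit 12,nat_lit 14]],[[nat_lit 9,nat_lit 12,nat_lit 15],[nat_lit 9,nat_lit 13,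
    nat_lit 14],[nat_lit 9,nat_lit 14,nat_lit 4],[nat_lit 9,nat_lit 14,nat_lit 5],[nat_lit 9,nat_lit 14,nat_lit 10,
    nat_lit 8],[nat_lit 9,nat_lit 14,nat_lit 12],[nat_lit 9,nat_lit 14,nat_lit 13],[nat_lit 9,nat_lit 15,nat_lit 11,
    nat_lit 8],[nat_lit 9,nat_lit 15,nat_lit 12],[nat_lit 9,nat_lit 15,nat_lit 13],[nat_lit 10,nat_lit 0,nat_lit 8],
    [nat_lit 10,nat_lit 0,nat_lit 9]],[[nat_lit 10,nat_lit 2,nat_lit 7],[nat_lit 10,nat_lit 2,nat_lit 10],[nat_lit 10,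
    nat_lit 3,nat_lit 7],[nat_lit 10,nat_lit 3,nat_lit 10],[nat_lit 10,nat_lit 4,nat_lit 12],[nat_lit 10,nat_lit 5,
    nat_lit 4],[nat_lit 10,nat_lit 5,nat_lit 5],[nat_lit 10,nat_lit 5,nat_lit 8,nat_lit 7],[nat_lit 10,nat_lit 5,
    nat_lit 12],[nat_lit 10,nat_lit 6,nat_lit 2],[nat_lit 10,nat_lit 6,nat_lit 3],[nat_lit 10,nat_lit 7,nat_lit 2]],
    [[nat_lit 10,nat_lit 7,nat_lit 8,nat_lit 4],[nat_lit 10,nat_lit 8,nat_lit 1],[nat_lit 10,nat_lit 8,nat_lit 8,
    nat_lit 15],[nat_lit 10,nat_lit 8,nat_lit 9,nat_lit 14],[nat_lit 10,nat_lit 9,nat_lit 1],[nat_lit 10,nat_lit 10,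
    nat_lit 2],[nat_lit 10,nat_lit 10,nat_lit 3],[nat_lit 10,nat_lit 11,nat_lit 2],[nat_lit 10,nat_lit 11,nat_lit 3],
    [nat_lit 10,nat_lit 12,nat_lit 4],[nat_lit 10,nat_lit 12,nat_lit 12],[nat_lit 10,nat_lit 12,nat_lit 13]],
    [[nat_lit 10,nat_lit 13,nat_lit 4],[nat_lit 10,nat_lit 13,nat_lit 12],[nat_lit 10,nat_lit 14,nat_lit 8,nat_lit 9],
    [nat_lit 11,nat_lit 0,nat_lit 8],[nat_lit 11,nat_lit 0,nat_lit 9],[nat_lit 11,nat_lit 2,nat_lit 7],[nat_lit 11,
    nat_lit 2,nat_lit 10],[nat_lit 11,nat_lit 2,nat_lit 11],[nat_lit 11,nat_lit 3,nat_lit 6],[nat_lit 11,nat_lit 3,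
    nat_lit 7],[nat_lit 11,nat_lit 3,nat_lit 10],[nat_lit 11,nat_lit 3,nat_lit 11]],[[nat_lit 11,nat_lit 4,nat_lit 4],
    [nat_lit 11,nat_lit 5,nat_lit 4],[nat_lit 11,nat_lit 5,nat_lit 9,nat_lit 6],[nat_lit 11,nat_lit 5,nat_lit 12],
    [nat_lit 11,nat_lit 5,nat_lit 13],[nat_lit 11,nat_lit 6,nat_lit 2],[nat_lit 11,nat_lit 6,nat_lit 3],[nat_lit 11,
    nat_lit 6,nat_lit 9,nat_lit 4],[nat_lit 11,nat_lit 8,nat_lit 1],[nat_lit 11,nat_lit 8,nat_lit 9,nat_lit 15],
    [nat_lit 11,nat_lit 9,nat_lit 1],[nat_lit 11,nat_lit 11,nat_lit 2]],[[nat_lit 11,nat_lit 11,nat_lit 3],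
    [nat_lit 11,nat_lit 12,nat_lit 13],[nat_lit 11,nat_lit 13,nat_lit 4],[nat_lit 11,nat_lit 13,nat_lit 5],
    [nat_lit 11,nat_lit 13,nat_lit 12],[nat_lit 11,nat_lit 13,nat_lit 13],[nat_lit 11,nat_lit 14,nat_lit 9,nat_lit 9],
    [nat_lit 11,nat_lit 15,nat_lit 8,nat_lit 9],[nat_lit 12,nat_lit 0],[nat_lit 12,nat_lit 1],[nat_lit 12,nat_lit 4,
    nat_lit 6],[nat_lit 12,nat_lit 4,nat_lit 10]],[[nat_lit 12,nat_lit 5,nat_lit 6],[nat_lit 12,nat_lit 5,nat_lit 7],
    [nat_lit 12,nat_lit 6,nat_lit 4],[nat_lit 12,nat_lit 6,nat_lit 7,nat_lit 9],[nat_lit 12,nat_lit 6,nat_lit 13],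
    [nat_lit 12,nat_lit 7,nat_lit 4],[nat_lit 12,nat_lit 7,nat_lit 5],[nat_lit 12,nat_lit 7,nat_lit 9,nat_lit 7],
    [nat_lit 12,nat_lit 7,nat_lit 12],[nat_lit 12,nat_lit 7,nat_lit 13],[nat_lit 12,nat_lit 8,nat_lit 15],[nat_lit 12,
    nat_lit 9,nat_lit 14]],[[nat_lit 12,nat_lit 9,nat_lit 15],[nat_lit 12,nat_lit 10,nat_lit 4],[nat_lit 12,
    nat_lit 10,nat_lit 5],[nat_lit 12,nat_lit 10,nat_lit 12],[nat_lit 12,nat_lit 10,nat_lit 13],[nat_lit 12,
    nat_lit 11,nat_lit 5],[nat_lit 12,nat_lit 11,nat_lit 13],[nat_lit 12,nat_lit 12,nat_lit 7],[nat_lit 12,nat_lit 12,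
    nat_lit 10],[nat_lit 12,nat_lit 13,nat_lit 10],[nat_lit 12,nat_lit 13,nat_lit 11],[nat_lit 12,nat_lit 14,
    nat_lit 8]],[[nat_lit 12,nat_lit 14,nat_lit 9],[nat_lit 12,nat_lit 15,nat_lit 8],[nat_lit 12,nat_lit 15,
    nat_lit 9],[nat_lit 13,nat_lit 0],[nat_lit 13,nat_lit 1],[nat_lit 13,nat_lit 4,nat_lit 6],[nat_lit 13,nat_lit 4,
    nat_lit 10],[nat_lit 13,nat_lit 4,nat_lit 11],[nat_lit 13,nat_lit 5,nat_lit 6],[nat_lit 13,nat_lit 5,nat_lit 7],
    [nat_lit 13,nat_lit 5,nat_lit 11],[nat_lit 13,nat_lit 6,nat_lit 4]],[[nat_lit 13,nat_lit 6,nat_lit 8,nat_lit 6],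
    [nat_lit 13,nat_lit 6,nat_lit 13],[nat_lit 13,nat_lit 7,nat_lit 4],[nat_lit 13,nat_lit 7,nat_lit 5],[nat_lit 13,
    nat_lit 8,nat_lit 6,nat_lit 7],[nat_lit 13,nat_lit 8,nat_lit 14],[nat_lit 13,nat_lit 8,nat_lit 15],[nat_lit 13,
    nat_lit 9,nat_lit 14],[nat_lit 13,nat_lit 9,nat_lit 15],[nat_lit 13,nat_lit 10,nat_lit 12],[nat_lit 13,nat_lit 11,
    nat_lit 5],[nat_lit 13,nat_lit 11,nat_lit 12]],[[nat_lit 13,nat_lit 11,nat_lit 13],[nat_lit 13,nat_lit 12,
    nat_lit 6],[nat_lit 13,nat_lit 12,nat_lit 7],[nat_lit 13,nat_lit 12,nat_lit 10],[nat_lit 13,nat_lit 12,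
    nat_lit 11],[nat_lit 13,nat_lit 13,nat_lit 6],[nat_lit 13,nat_lit 13,nat_lit 11],[nat_lit 13,nat_lit 14,
    nat_lit 8],[nat_lit 13,nat_lit 14,nat_lit 9],[nat_lit 13,nat_lit 15,nat_lit 8],[nat_lit 14,nat_lit 2],[nat_lit 14,
    nat_lit 3]],[[nat_lit 14,nat_lit 4,nat_lit 8],[nat_lit 14,nat_lit 4,nat_lit 9],[nat_lit 14,nat_lit 5,nat_lit 8],
    [nat_lit 14,nat_lit 5,nat_lit 9],[nat_lit 14,nat_lit 6,nat_lit 9,nat_lit 8],[nat_lit 14,nat_lit 8,nat_lit 9,
    nat_lit 10],[nat_lit 14,nat_lit 8,nat_lit 12],[nat_lit 14,nat_lit 8,nat_lit 13],[nat_lit 14,nat_lit 9,nat_lit 9,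
    nat_lit 11],[nat_lit 14,nat_lit 9,nat_lit 12],[nat_lit 14,nat_lit 9,nat_lit 13],[nat_lit 14,nat_lit 10,nat_lit 8,
    nat_lit 9]],[[nat_lit 14,nat_lit 12,nat_lit 9],[nat_lit 14,nat_lit 13,nat_lit 8],[nat_lit 14,nat_lit 13,
    nat_lit 9],[nat_lit 15,nat_lit 2],[nat_lit 15,nat_lit 3],[nat_lit 15,nat_lit 8,nat_lit 4],[nat_lit 15,nat_lit 8,
    nat_lit 5],[nat_lit 15,nat_lit 8,nat_lit 9,nat_lit 11],[nat_lit 15,nat_lit 8,nat_lit 12],[nat_lit 15,nat_lit 8,
    nat_lit 13],[nat_lit 15,nat_lit 9,nat_lit 4],[nat_lit 15,nat_lit 9,nat_lit 5]],[[nat_lit 15,nat_lit 9,nat_lit 8,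
    nat_lit 7],[nat_lit 15,nat_lit 9,nat_lit 12],[nat_lit 15,nat_lit 10,nat_lit 8,nat_lit 8],[nat_lit 15,nat_lit 11,
    nat_lit 8,nat_lit 9],[nat_lit 15,nat_lit 12,nat_lit 8],[nat_lit 15,nat_lit 12,nat_lit 9],[nat_lit 15,nat_lit 13,
    nat_lit 8],[nat_lit 15,nat_lit 13,nat_lit 9]]]
    [[nat_lit 42,nat_lit 68,nat_lit 171,nat_lit 172,nat_lit 190,nat_lit 197,nat_lit 199,nat_lit 272,nat_lit 303,
    nat_lit 43,nat_lit 69,nat_lit 110],[nat_lit 229,nat_lit 232,nat_lit 260,nat_lit 262,nat_lit 273,nat_lit 304,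
    nat_lit 133,nat_lit 135,nat_lit 142,nat_lit 145,nat_lit 225,nat_lit 227],[nat_lit 233,nat_lit 235,nat_lit 257,
    nat_lit 263,nat_lit 334,nat_lit 351,nat_lit 105,nat_lit 115,nat_lit 134,nat_lit 143,nat_lit 146,nat_lit 226],
    [nat_lit 234,nat_lit 236,nat_lit 258,nat_lit 264,nat_lit 335,nat_lit 352,nat_lit 0,nat_lit 9,nat_lit 46,
    nat_lit 57,nat_lit 101,nat_lit 104],[nat_lit 117,nat_lit 119,nat_lit 129,nat_lit 177,nat_lit 206,nat_lit 221,
    nat_lit 228,nat_lit 237,nat_lit 240,nat_lit 252,nat_lit 253,nat_lit 259],[nat_lit 266,nat_lit 278,nat_lit 281,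
    nat_lit 289,nat_lit 311,nat_lit 314,nat_lit 353,nat_lit 358,nat_lit 1,nat_lit 10,nat_lit 47,nat_lit 50],
    [nat_lit 53,nat_lit 58,nat_lit 78,nat_lit 85,nat_lit 118,nat_lit 120,nat_lit 130,nat_lit 147,nat_lit 150,
    nat_lit 163,nat_lit 178,nat_lit 189],[nat_lit 207,nat_lit 222,nat_lit 267,nat_lit 282,nat_lit 290,nat_lit 293,
    nat_lit 315,nat_lit 322,nat_lit 354,nat_lit 359,nat_lit 18,nat_lit 22],[nat_lit 26,nat_lit 30,nat_lit 32,
    nat_lit 35,nat_lit 38,nat_lit 44,nat_lit 61,nat_lit 64,nat_lit 70,nat_lit 97,nat_lit 107,nat_lit 112],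
    [nat_lit 141,nat_lit 151,nat_lit 154,nat_lit 162,nat_lit 165,nat_lit 186,nat_lit 194,nat_lit 248,nat_lit 254,
    nat_lit 274,nat_lit 276,nat_lit 305],[nat_lit 308,nat_lit 312,nat_lit 325,nat_lit 329,nat_lit 4,nat_lit 19,
    nat_lit 23,nat_lit 62,nat_lit 65,nat_lit 71,nat_lit 74,nat_lit 87],[nat_lit 90,nat_lit 94,nat_lit 98,nat_lit 125,
    nat_lit 137,nat_lit 140,nat_lit 157,nat_lit 192,nat_lit 195,nat_lit 202,nat_lit 216,nat_lit 218],[nat_lit 223,
    nat_lit 245,nat_lit 249,nat_lit 277,nat_lit 283,nat_lit 295,nat_lit 309,nat_lit 316,nat_lit 326,nat_lit 360,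
    nat_lit 11,nat_lit 12],[nat_lit 14,nat_lit 54,nat_lit 66,nat_lit 92,nat_lit 106,nat_lit 109,nat_lit 121,
    nat_lit 144,nat_lit 153,nat_lit 160,nat_lit 181,nat_lit 198],[nat_lit 201,nat_lit 208,nat_lit 211,nat_lit 214,
    nat_lit 243,nat_lit 299,nat_lit 301,nat_lit 331,nat_lit 333,nat_lit 336,nat_lit 338,nat_lit 340],[nat_lit 349,
    nat_lit 362,nat_lit 364,nat_lit 366,nat_lit 13,nat_lit 15,nat_lit 59,nat_lit 67,nat_lit 93,nat_lit 116,
    nat_lit 124,nat_lit 136],[nat_lit 148,nat_lit 164,nat_lit 179,nat_lit 191,nat_lit 200,nat_lit 215,nat_lit 242,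
    nat_lit 244,nat_lit 270,nat_lit 271,nat_lit 279,nat_lit 300],[nat_lit 302,nat_lit 332,nat_lit 337,nat_lit 339,
    nat_lit 347,nat_lit 348,nat_lit 350,nat_lit 363,nat_lit 365,nat_lit 367,nat_lit 2,nat_lit 5],[nat_lit 20,
    nat_lit 24,nat_lit 33,nat_lit 36,nat_lit 63,nat_lit 72,nat_lit 75,nat_lit 81,nat_lit 88,nat_lit 95,nat_lit 99,
    nat_lit 126],[nat_lit 138,nat_lit 155,nat_lit 166,nat_lit 169,nat_lit 184,nat_lit 217,nat_lit 219,nat_lit 246,
    nat_lit 250,nat_lit 275,nat_lit 296,nat_lit 297],[nat_lit 306,nat_lit 327,nat_lit 341,nat_lit 3,nat_lit 6,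
    nat_lit 21,nat_lit 25,nat_lit 27,nat_lit 31,nat_lit 34,nat_lit 37,nat_lit 39],[nat_lit 45,nat_lit 73,nat_lit 83,
    nat_lit 89,nat_lit 91,nat_lit 96,nat_lit 100,nat_lit 113,nat_lit 156,nat_lit 170,nat_lit 185,nat_lit 247],
    [nat_lit 251,nat_lit 298,nat_lit 307,nat_lit 310,nat_lit 328,nat_lit 330,nat_lit 344,nat_lit 355,nat_lit 7,
    nat_lit 16,nat_lit 48,nat_lit 55],[nat_lit 76,nat_lit 79,nat_lit 102,nat_lit 108,nat_lit 122,nat_lit 127,
    nat_lit 131,nat_lit 139,nat_lit 149,nat_lit 152,nat_lit 182,nat_lit 209],[nat_lit 212,nat_lit 220,nat_lit 224,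
    nat_lit 238,nat_lit 241,nat_lit 255,nat_lit 268,nat_lit 284,nat_lit 291,nat_lit 321,nat_lit 323,nat_lit 342],
    [nat_lit 345,nat_lit 356,nat_lit 361,nat_lit 8,nat_lit 17,nat_lit 49,nat_lit 56,nat_lit 60,nat_lit 77,nat_lit 80,
    nat_lit 86,nat_lit 103],[nat_lit 111,nat_lit 123,nat_lit 128,nat_lit 132,nat_lit 161,nat_lit 180,nat_lit 183,
    nat_lit 210,nat_lit 213,nat_lit 239,nat_lit 256,nat_lit 265],[nat_lit 269,nat_lit 280,nat_lit 285,nat_lit 292,
    nat_lit 294,nat_lit 313,nat_lit 324,nat_lit 343,nat_lit 346,nat_lit 357,nat_lit 28,nat_lit 40],[nat_lit 51,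
    nat_lit 52,nat_lit 82,nat_lit 84,nat_lit 114,nat_lit 167,nat_lit 173,nat_lit 175,nat_lit 196,nat_lit 203,
    nat_lit 205,nat_lit 231],[nat_lit 287,nat_lit 317,nat_lit 319,nat_lit 29,nat_lit 41,nat_lit 158,nat_lit 159,
    nat_lit 168,nat_lit 174,nat_lit 176,nat_lit 187,nat_lit 188],[nat_lit 193,nat_lit 204,nat_lit 230,nat_lit 261,
    nat_lit 286,nat_lit 288,nat_lit 318,nat_lit 320]]
    [[nat_lit 42,nat_lit 68,nat_lit 214,nat_lit 243,nat_lit 124,nat_lit 215,nat_lit 244,nat_lit 272,nat_lit 303,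
    nat_lit 43,nat_lit 69,nat_lit 154],[nat_lit 155,nat_lit 184,nat_lit 156,nat_lit 185,nat_lit 273,nat_lit 304,
    nat_lit 94,nat_lit 125,nat_lit 216,nat_lit 245,nat_lit 95,nat_lit 126],[nat_lit 217,nat_lit 246,nat_lit 96,
    nat_lit 247,nat_lit 334,nat_lit 351,nat_lit 97,nat_lit 248,nat_lit 98,nat_lit 218,nat_lit 249,nat_lit 99],
    [nat_lit 219,nat_lit 250,nat_lit 100,nat_lit 251,nat_lit 335,nat_lit 352,nat_lit 0,nat_lit 9,nat_lit 101,
    nat_lit 252,nat_lit 44,nat_lit 70],[nat_lit 274,nat_lit 305,nat_lit 71,nat_lit 336,nat_lit 337,nat_lit 72,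
    nat_lit 157,nat_lit 275,nat_lit 306,nat_lit 45,nat_lit 73,nat_lit 186],[nat_lit 307,nat_lit 102,nat_lit 127,
    nat_lit 220,nat_lit 103,nat_lit 128,nat_lit 158,nat_lit 187,nat_lit 1,nat_lit 10,nat_lit 104,nat_lit 129],
    [nat_lit 221,nat_lit 253,nat_lit 130,nat_lit 222,nat_lit 276,nat_lit 308,nat_lit 74,nat_lit 277,nat_lit 309,
    nat_lit 223,nat_lit 338,nat_lit 254],[nat_lit 339,nat_lit 75,nat_lit 310,nat_lit 131,nat_lit 224,nat_lit 255,
    nat_lit 132,nat_lit 256,nat_lit 159,nat_lit 188,nat_lit 133,nat_lit 225],[nat_lit 257,nat_lit 105,nat_lit 134,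
    nat_lit 226,nat_lit 258,nat_lit 46,nat_lit 278,nat_lit 311,nat_lit 47,nat_lit 30,nat_lit 160,nat_lit 106],
    [nat_lit 279,nat_lit 161,nat_lit 11,nat_lit 312,nat_lit 107,nat_lit 259,nat_lit 340,nat_lit 31,nat_lit 189,
    nat_lit 48,nat_lit 76,nat_lit 49],[nat_lit 77,nat_lit 162,nat_lit 280,nat_lit 313,nat_lit 190,nat_lit 135,
    nat_lit 227,nat_lit 281,nat_lit 314,nat_lit 50,nat_lit 78,nat_lit 282],[nat_lit 315,nat_lit 18,nat_lit 32,
    nat_lit 19,nat_lit 191,nat_lit 136,nat_lit 228,nat_lit 283,nat_lit 137,nat_lit 108,nat_lit 20,nat_lit 33],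
    [nat_lit 163,nat_lit 21,nat_lit 34,nat_lit 79,nat_lit 192,nat_lit 284,nat_lit 80,nat_lit 109,nat_lit 285,
    nat_lit 164,nat_lit 110,nat_lit 229],[nat_lit 260,nat_lit 138,nat_lit 353,nat_lit 354,nat_lit 165,nat_lit 316,
    nat_lit 111,nat_lit 81,nat_lit 193,nat_lit 112,nat_lit 230,nat_lit 341],[nat_lit 355,nat_lit 231,nat_lit 261,
    nat_lit 2,nat_lit 3,nat_lit 342,nat_lit 356,nat_lit 343,nat_lit 357,nat_lit 51,nat_lit 82,nat_lit 194],
    [nat_lit 317,nat_lit 166,nat_lit 286,nat_lit 318,nat_lit 232,nat_lit 262,nat_lit 113,nat_lit 358,nat_lit 359,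
    nat_lit 83,nat_lit 4,nat_lit 195],[nat_lit 139,nat_lit 360,nat_lit 114,nat_lit 140,nat_lit 344,nat_lit 5,
    nat_lit 167,nat_lit 6,nat_lit 196,nat_lit 168,nat_lit 141,nat_lit 345],[nat_lit 361,nat_lit 346,nat_lit 52,
    nat_lit 84,nat_lit 169,nat_lit 287,nat_lit 319,nat_lit 170,nat_lit 288,nat_lit 320,nat_lit 171,nat_lit 197],
    [nat_lit 142,nat_lit 233,nat_lit 143,nat_lit 234,nat_lit 289,nat_lit 53,nat_lit 85,nat_lit 144,nat_lit 290,
    nat_lit 22,nat_lit 35,nat_lit 23],[nat_lit 54,nat_lit 12,nat_lit 362,nat_lit 347,nat_lit 13,nat_lit 24,nat_lit 36,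
    nat_lit 25,nat_lit 37,nat_lit 55,nat_lit 291,nat_lit 321],[nat_lit 56,nat_lit 292,nat_lit 198,nat_lit 172,
    nat_lit 199,nat_lit 145,nat_lit 235,nat_lit 263,nat_lit 115,nat_lit 146,nat_lit 236,nat_lit 264],[nat_lit 57,
    nat_lit 58,nat_lit 116,nat_lit 293,nat_lit 322,nat_lit 26,nat_lit 38,nat_lit 59,nat_lit 14,nat_lit 363,nat_lit 15,
    nat_lit 27],[nat_lit 39,nat_lit 323,nat_lit 60,nat_lit 86,nat_lit 294,nat_lit 324,nat_lit 200,nat_lit 201,
    nat_lit 7,nat_lit 16,nat_lit 117,nat_lit 237],[nat_lit 118,nat_lit 147,nat_lit 61,nat_lit 202,nat_lit 325,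
    nat_lit 62,nat_lit 87,nat_lit 148,nat_lit 295,nat_lit 326,nat_lit 364,nat_lit 348],[nat_lit 365,nat_lit 63,
    nat_lit 88,nat_lit 296,nat_lit 327,nat_lit 89,nat_lit 328,nat_lit 149,nat_lit 238,nat_lit 239,nat_lit 265,
    nat_lit 173],[nat_lit 203,nat_lit 174,nat_lit 204,nat_lit 8,nat_lit 17,nat_lit 119,nat_lit 240,nat_lit 266,
    nat_lit 120,nat_lit 150,nat_lit 267,nat_lit 64],[nat_lit 121,nat_lit 329,nat_lit 65,nat_lit 90,nat_lit 151,
    nat_lit 349,nat_lit 366,nat_lit 350,nat_lit 367,nat_lit 297,nat_lit 91,nat_lit 298],[nat_lit 330,nat_lit 122,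
    nat_lit 152,nat_lit 241,nat_lit 268,nat_lit 123,nat_lit 269,nat_lit 175,nat_lit 205,nat_lit 176,nat_lit 28,
    nat_lit 40],[nat_lit 177,nat_lit 206,nat_lit 178,nat_lit 207,nat_lit 179,nat_lit 242,nat_lit 299,nat_lit 331,
    nat_lit 270,nat_lit 300,nat_lit 332,nat_lit 208],[nat_lit 209,nat_lit 180,nat_lit 210,nat_lit 29,nat_lit 41,
    nat_lit 66,nat_lit 92,nat_lit 271,nat_lit 301,nat_lit 333,nat_lit 67,nat_lit 93],[nat_lit 153,nat_lit 302,
    nat_lit 181,nat_lit 211,nat_lit 182,nat_lit 212,nat_lit 183,nat_lit 213]]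
    [[[],[nat_lit 335],[nat_lit 341],[nat_lit 341],[],[],[],[],[nat_lit 344],[nat_lit 30,nat_lit 32,nat_lit 35,
    nat_lit 38],[],[]],[[],[],[],[],[nat_lit 40],[nat_lit 31,nat_lit 34,nat_lit 37,nat_lit 39],[nat_lit 1],
    [nat_lit 1],[nat_lit 1],[nat_lit 1],[nat_lit 7],[nat_lit 7]],[[nat_lit 7],[nat_lit 7],[],[],[],[nat_lit 8],
    [nat_lit 92],[nat_lit 92],[nat_lit 78,nat_lit 85],[nat_lit 78,nat_lit 85],[nat_lit 78,nat_lit 85],[nat_lit 76,
    nat_lit 79]],[[nat_lit 76,nat_lit 79],[nat_lit 76,nat_lit 79],[nat_lit 93],[nat_lit 93],[nat_lit 68],[nat_lit 77,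
    nat_lit 80,nat_lit 86],[],[nat_lit 29],[nat_lit 18,nat_lit 22,nat_lit 26],[nat_lit 18,nat_lit 22,nat_lit 26],[],
    []],[[],[],[],[nat_lit 20,nat_lit 24],[nat_lit 19,nat_lit 23],[],[],[],[],[],[],[]],[[],[nat_lit 28],[nat_lit 28],
    [nat_lit 28],[nat_lit 21,nat_lit 25,nat_lit 27],[nat_lit 21,nat_lit 25,nat_lit 27],[],[],[nat_lit 133,nat_lit 135,
    nat_lit 142,nat_lit 145],[],[nat_lit 141,nat_lit 151],[nat_lit 141,nat_lit 151]],[[nat_lit 141,nat_lit 151],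
    [nat_lit 141,nat_lit 151],[nat_lit 134,nat_lit 143,nat_lit 146],[nat_lit 134,nat_lit 143,nat_lit 146],
    [nat_lit 144,nat_lit 153],[nat_lit 144,nat_lit 153],[nat_lit 130,nat_lit 147,nat_lit 150],[nat_lit 130,
    nat_lit 147,nat_lit 150],[nat_lit 130,nat_lit 147,nat_lit 150],[nat_lit 126,nat_lit 138],[nat_lit 126,
    nat_lit 138],[nat_lit 125,nat_lit 137,nat_lit 140]],[[nat_lit 125,nat_lit 137,nat_lit 140],[nat_lit 127,
    nat_lit 131,nat_lit 139,nat_lit 149,nat_lit 152],[nat_lit 124,nat_lit 136,nat_lit 148],[],[],[],[],[],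
    [nat_lit 128,nat_lit 132],[nat_lit 128,nat_lit 132],[nat_lit 46,nat_lit 57],[nat_lit 46,nat_lit 57]],[[nat_lit 46,
    nat_lit 57],[nat_lit 43],[nat_lit 43],[nat_lit 43],[nat_lit 43],[nat_lit 44,nat_lit 61,nat_lit 64],[nat_lit 44,
    nat_lit 61,nat_lit 64],[nat_lit 44,nat_lit 61,nat_lit 64],[],[nat_lit 54,nat_lit 66],[nat_lit 54,nat_lit 66],
    [nat_lit 54,nat_lit 66]],[[nat_lit 47,nat_lit 50,nat_lit 53,nat_lit 58],[nat_lit 47,nat_lit 50,nat_lit 53,
    nat_lit 58],[nat_lit 63],[nat_lit 63],[nat_lit 63],[nat_lit 62,nat_lit 65],[nat_lit 62,nat_lit 65],[nat_lit 59,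
    nat_lit 67],[nat_lit 59,nat_lit 67],[nat_lit 51,nat_lit 52],[nat_lit 51,nat_lit 52],[nat_lit 45]],[[nat_lit 45],
    [nat_lit 45],[nat_lit 45],[nat_lit 45],[],[nat_lit 206],[nat_lit 206],[nat_lit 186,nat_lit 194],[nat_lit 186,
    nat_lit 194],[],[],[]],[[],[nat_lit 198,nat_lit 201,nat_lit 208,nat_lit 211],[nat_lit 198,nat_lit 201,nat_lit 208,
    nat_lit 211],[nat_lit 189,nat_lit 207],[nat_lit 189,nat_lit 207],[nat_lit 189,nat_lit 207],[nat_lit 184],
    [nat_lit 192,nat_lit 195,nat_lit 202],[nat_lit 192,nat_lit 195,nat_lit 202],[nat_lit 192,nat_lit 195,nat_lit 202],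
    [nat_lit 209,nat_lit 212],[nat_lit 209,nat_lit 212]],[[nat_lit 209,nat_lit 212],[nat_lit 191,nat_lit 200],
    [nat_lit 191,nat_lit 200],[nat_lit 196,nat_lit 203,nat_lit 205],[nat_lit 196,nat_lit 203,nat_lit 205],
    [nat_lit 196,nat_lit 203,nat_lit 205],[nat_lit 185],[nat_lit 185],[nat_lit 185],[nat_lit 210,nat_lit 213],[],[]],
    [[],[nat_lit 97,nat_lit 107,nat_lit 112],[nat_lit 97,nat_lit 107,nat_lit 112],[nat_lit 105,nat_lit 115],
    [nat_lit 106,nat_lit 109,nat_lit 121],[nat_lit 106,nat_lit 109,nat_lit 121],[nat_lit 106,nat_lit 109,nat_lit 121],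
    [nat_lit 118,nat_lit 120],[nat_lit 118,nat_lit 120],[nat_lit 95,nat_lit 99],[nat_lit 95,nat_lit 99],[nat_lit 94,
    nat_lit 98]],[[nat_lit 94,nat_lit 98],[nat_lit 94,nat_lit 98],[nat_lit 94,nat_lit 98],[nat_lit 102,nat_lit 108,
    nat_lit 122],[nat_lit 116],[nat_lit 114],[nat_lit 114],[nat_lit 96,nat_lit 100,nat_lit 113],[nat_lit 96,
    nat_lit 100,nat_lit 113],[],[],[]],[[],[nat_lit 103,nat_lit 111,nat_lit 123],[nat_lit 103,nat_lit 111,
    nat_lit 123],[nat_lit 103,nat_lit 111,nat_lit 123],[nat_lit 261],[nat_lit 261],[nat_lit 248,nat_lit 254],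
    [nat_lit 248,nat_lit 254],[nat_lit 258,nat_lit 264],[nat_lit 243],[nat_lit 267],[nat_lit 267]],[[nat_lit 267],
    [nat_lit 246,nat_lit 250],[nat_lit 246,nat_lit 250],[nat_lit 245,nat_lit 249],[nat_lit 245,nat_lit 249],
    [nat_lit 255,nat_lit 268],[nat_lit 255,nat_lit 268],[nat_lit 244,nat_lit 270,nat_lit 271],[nat_lit 244,
    nat_lit 270,nat_lit 271],[nat_lit 244,nat_lit 270,nat_lit 271],[],[]],[[],[nat_lit 247,nat_lit 251],[],[],[],[],
    [],[nat_lit 256,nat_lit 265,nat_lit 269],[nat_lit 256,nat_lit 265,nat_lit 269],[nat_lit 256,nat_lit 265,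
    nat_lit 269],[],[]],[[nat_lit 177],[nat_lit 177],[],[],[nat_lit 154,nat_lit 162,nat_lit 165],[],[],[],[],
    [nat_lit 160,nat_lit 181],[nat_lit 160,nat_lit 181],[nat_lit 163,nat_lit 178]],[[nat_lit 163,nat_lit 178],
    [nat_lit 155,nat_lit 166,nat_lit 169],[nat_lit 155,nat_lit 166,nat_lit 169],[nat_lit 155,nat_lit 166,nat_lit 169],
    [nat_lit 157],[nat_lit 182],[nat_lit 182],[nat_lit 164,nat_lit 179],[nat_lit 164,nat_lit 179],[nat_lit 167,
    nat_lit 173,nat_lit 175],[nat_lit 167,nat_lit 173,nat_lit 175],[nat_lit 167,nat_lit 173,nat_lit 175]],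
    [[nat_lit 156,nat_lit 170],[nat_lit 156,nat_lit 170],[nat_lit 171,nat_lit 172],[],[],[nat_lit 311,nat_lit 314],
    [nat_lit 311,nat_lit 314],[nat_lit 311,nat_lit 314],[nat_lit 304],[nat_lit 304],[nat_lit 304],[nat_lit 304]],
    [[nat_lit 305,nat_lit 308,nat_lit 312,nat_lit 325,nat_lit 329],[],[],[],[],[nat_lit 331,nat_lit 333],[nat_lit 331,
    nat_lit 333],[nat_lit 331,nat_lit 333],[nat_lit 306,nat_lit 327],[nat_lit 306,nat_lit 327],[nat_lit 309,
    nat_lit 316,nat_lit 326],[nat_lit 332]],[[nat_lit 332],[nat_lit 317,nat_lit 319],[nat_lit 307,nat_lit 310,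
    nat_lit 328,nat_lit 330],[nat_lit 307,nat_lit 310,nat_lit 328,nat_lit 330],[nat_lit 307,nat_lit 310,nat_lit 328,
    nat_lit 330],[nat_lit 307,nat_lit 310,nat_lit 328,nat_lit 330],[nat_lit 303],[nat_lit 313,nat_lit 324],
    [nat_lit 225,nat_lit 227,nat_lit 233,nat_lit 235],[nat_lit 230],[],[]],[[nat_lit 226,nat_lit 234,nat_lit 236],
    [nat_lit 226,nat_lit 234,nat_lit 236],[nat_lit 214],[nat_lit 214],[nat_lit 214],[nat_lit 222],[nat_lit 222],
    [nat_lit 222],[nat_lit 222],[nat_lit 222],[nat_lit 217,nat_lit 219],[nat_lit 216,nat_lit 218,nat_lit 223]],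
    [[nat_lit 216,nat_lit 218,nat_lit 223],[nat_lit 220,nat_lit 224,nat_lit 238,nat_lit 241],[nat_lit 220,nat_lit 224,
    nat_lit 238,nat_lit 241],[nat_lit 220,nat_lit 224,nat_lit 238,nat_lit 241],[nat_lit 220,nat_lit 224,nat_lit 238,
    nat_lit 241],[nat_lit 215,nat_lit 242],[nat_lit 215,nat_lit 242],[nat_lit 231],[nat_lit 231],[],[],[]],[[],
    [nat_lit 239],[nat_lit 239],[nat_lit 351],[],[],[],[],[nat_lit 352],[nat_lit 352],[nat_lit 352],[nat_lit 362,
    nat_lit 364,nat_lit 366]],[[nat_lit 362,nat_lit 364,nat_lit 366],[nat_lit 362,nat_lit 364,nat_lit 366],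
    [nat_lit 354,nat_lit 359],[nat_lit 354,nat_lit 359],[],[],[],[nat_lit 360],[nat_lit 360],[nat_lit 356,
    nat_lit 361],[nat_lit 363,nat_lit 365,nat_lit 367],[nat_lit 363,nat_lit 365,nat_lit 367]],[[nat_lit 363,
    nat_lit 365,nat_lit 367],[],[],[],[],[nat_lit 355],[nat_lit 355],[],[],[nat_lit 357],[nat_lit 278,nat_lit 281,
    nat_lit 289],[nat_lit 273]],[[nat_lit 274,nat_lit 276],[nat_lit 274,nat_lit 276],[],[],[nat_lit 299,nat_lit 301],
    [nat_lit 275,nat_lit 296,nat_lit 297],[nat_lit 275,nat_lit 296,nat_lit 297],[nat_lit 275,nat_lit 296,nat_lit 297],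
    [nat_lit 277,nat_lit 283,nat_lit 295],[nat_lit 277,nat_lit 283,nat_lit 295],[nat_lit 277,nat_lit 283,nat_lit 295],
    [nat_lit 284,nat_lit 291]],[[nat_lit 287],[nat_lit 298],[nat_lit 298],[nat_lit 9],[],[],[],[],[],[],[],[]],[[],[],
    [nat_lit 16],[nat_lit 13,nat_lit 15],[],[],[],[]]]
    (nat_lit 368) [nat_lit 0,nat_lit 1,nat_lit 2,nat_lit 3,nat_lit 4,nat_lit 5,nat_lit 6,nat_lit 7,nat_lit 8,
    nat_lit 9,nat_lit 10,nat_lit 11,nat_lit 12,nat_lit 13,nat_lit 14,nat_lit 15,nat_lit 16,nat_lit 17,nat_lit 18,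
    nat_lit 19,nat_lit 20,nat_lit 21,nat_lit 22,nat_lit 23,nat_lit 24,nat_lit 25,nat_lit 26,nat_lit 27,nat_lit 28,
    nat_lit 29,nat_lit 30,nat_lit 31,nat_lit 32,nat_lit 33,nat_lit 34,nat_lit 35,nat_lit 36,nat_lit 37,nat_lit 38,
    nat_lit 39,nat_lit 40,nat_lit 41,nat_lit 44,nat_lit 45,nat_lit 46,nat_lit 47,nat_lit 48,nat_lit 49,nat_lit 50,
    nat_lit 51,nat_lit 52,nat_lit 53,nat_lit 54,nat_lit 55,nat_lit 56,nat_lit 57,nat_lit 58,nat_lit 59,nat_lit 60,
    nat_lit 61,nat_lit 62,nat_lit 63,nat_lit 64,nat_lit 65,nat_lit 66,nat_lit 67,nat_lit 74,nat_lit 75,nat_lit 76,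
    nat_lit 77,nat_lit 78,nat_lit 79,nat_lit 80,nat_lit 81,nat_lit 82,nat_lit 83,nat_lit 84,nat_lit 85,nat_lit 86,
    nat_lit 87,nat_lit 88,nat_lit 89,nat_lit 90,nat_lit 91,nat_lit 92,nat_lit 93,nat_lit 106,nat_lit 107,nat_lit 108,
    nat_lit 109,nat_lit 111,nat_lit 112,nat_lit 114,nat_lit 121,nat_lit 122,nat_lit 123,nat_lit 136,nat_lit 137,
    nat_lit 139,nat_lit 140,nat_lit 148,nat_lit 149,nat_lit 152,nat_lit 153,nat_lit 166,nat_lit 167,nat_lit 168,
    nat_lit 169,nat_lit 170,nat_lit 173,nat_lit 174,nat_lit 175,nat_lit 176,nat_lit 180,nat_lit 181,nat_lit 182,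
    nat_lit 183,nat_lit 196,nat_lit 200,nat_lit 203,nat_lit 204,nat_lit 205,nat_lit 209,nat_lit 210,nat_lit 212,
    nat_lit 213,nat_lit 238,nat_lit 239,nat_lit 241,nat_lit 265,nat_lit 268,nat_lit 269]
    [[[],[],[],[],[nat_lit 0],[nat_lit 1],[],[nat_lit 4],[],[],[nat_lit 2,nat_lit 5],[nat_lit 3,nat_lit 6],
    [nat_lit 7],[nat_lit 8],[],[]],[[],[],[],[],[nat_lit 9],[nat_lit 10],[],[],[nat_lit 11,nat_lit 12,nat_lit 14],
    [nat_lit 13,nat_lit 15],[],[],[nat_lit 16],[nat_lit 17],[],[]],[[],[],[],[],[],[],[nat_lit 18,nat_lit 22,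
    nat_lit 26],[nat_lit 19,nat_lit 23],[],[],[nat_lit 20,nat_lit 24],[nat_lit 21,nat_lit 25,nat_lit 27],[],[],
    [nat_lit 28],[nat_lit 29]],[[],[],[],[],[],[],[nat_lit 30,nat_lit 32,nat_lit 35,nat_lit 38],[],[],[],[nat_lit 33,
    nat_lit 36],[nat_lit 31,nat_lit 34,nat_lit 37,nat_lit 39],[],[],[nat_lit 40],[nat_lit 41]],[[nat_lit 42],
    [nat_lit 43],[],[],[nat_lit 46,nat_lit 57],[nat_lit 47,nat_lit 50,nat_lit 53,nat_lit 58],[nat_lit 44,nat_lit 61,
    nat_lit 64],[nat_lit 62,nat_lit 65],[nat_lit 54,nat_lit 66],[nat_lit 59,nat_lit 67],[nat_lit 63],[nat_lit 45],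
    [nat_lit 48,nat_lit 55],[nat_lit 49,nat_lit 56,nat_lit 60],[nat_lit 51,nat_lit 52],[]],[[nat_lit 68],[nat_lit 69],
    [],[],[],[nat_lit 78,nat_lit 85],[nat_lit 70],[nat_lit 71,nat_lit 74,nat_lit 87,nat_lit 90],[nat_lit 92],
    [nat_lit 93],[nat_lit 72,nat_lit 75,nat_lit 81,nat_lit 88],[nat_lit 73,nat_lit 83,nat_lit 89,nat_lit 91],
    [nat_lit 76,nat_lit 79],[nat_lit 77,nat_lit 80,nat_lit 86],[nat_lit 82,nat_lit 84],[]],[[],[nat_lit 110],[],
    [nat_lit 105,nat_lit 115],[nat_lit 101,nat_lit 104,nat_lit 117,nat_lit 119],[nat_lit 118,nat_lit 120],[nat_lit 97,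
    nat_lit 107,nat_lit 112],[nat_lit 94,nat_lit 98],[nat_lit 106,nat_lit 109,nat_lit 121],[nat_lit 116],[nat_lit 95,
    nat_lit 99],[nat_lit 96,nat_lit 100,nat_lit 113],[nat_lit 102,nat_lit 108,nat_lit 122],[nat_lit 103,nat_lit 111,
    nat_lit 123],[nat_lit 114],[]],[[],[],[nat_lit 133,nat_lit 135,nat_lit 142,nat_lit 145],[nat_lit 134,nat_lit 143,
    nat_lit 146],[nat_lit 129],[nat_lit 130,nat_lit 147,nat_lit 150],[nat_lit 141,nat_lit 151],[nat_lit 125,
    nat_lit 137,nat_lit 140],[nat_lit 144,nat_lit 153],[nat_lit 124,nat_lit 136,nat_lit 148],[nat_lit 126,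
    nat_lit 138],[],[nat_lit 127,nat_lit 131,nat_lit 139,nat_lit 149,nat_lit 152],[nat_lit 128,nat_lit 132],[],[]],
    [[nat_lit 171,nat_lit 172],[],[],[],[nat_lit 177],[nat_lit 163,nat_lit 178],[nat_lit 154,nat_lit 162,nat_lit 165],
    [nat_lit 157],[nat_lit 160,nat_lit 181],[nat_lit 164,nat_lit 179],[nat_lit 155,nat_lit 166,nat_lit 169],
    [nat_lit 156,nat_lit 170],[nat_lit 182],[nat_lit 161,nat_lit 180,nat_lit 183],[nat_lit 167,nat_lit 173,
    nat_lit 175],[nat_lit 158,nat_lit 159,nat_lit 168,nat_lit 174,nat_lit 176]],[[nat_lit 190,nat_lit 197,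
    nat_lit 199],[],[],[],[nat_lit 206],[nat_lit 189,nat_lit 207],[nat_lit 186,nat_lit 194],[nat_lit 192,nat_lit 195,
    nat_lit 202],[nat_lit 198,nat_lit 201,nat_lit 208,nat_lit 211],[nat_lit 191,nat_lit 200],[nat_lit 184],
    [nat_lit 185],[nat_lit 209,nat_lit 212],[nat_lit 210,nat_lit 213],[nat_lit 196,nat_lit 203,nat_lit 205],
    [nat_lit 187,nat_lit 188,nat_lit 193,nat_lit 204]],[[],[nat_lit 229,nat_lit 232],[nat_lit 225,nat_lit 227,
    nat_lit 233,nat_lit 235],[nat_lit 226,nat_lit 234,nat_lit 236],[nat_lit 221,nat_lit 228,nat_lit 237,nat_lit 240],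
    [nat_lit 222],[],[nat_lit 216,nat_lit 218,nat_lit 223],[nat_lit 214],[nat_lit 215,nat_lit 242],[nat_lit 217,
    nat_lit 219],[],[nat_lit 220,nat_lit 224,nat_lit 238,nat_lit 241],[nat_lit 239],[nat_lit 231],[nat_lit 230]],[[],
    [nat_lit 260,nat_lit 262],[nat_lit 257,nat_lit 263],[nat_lit 258,nat_lit 264],[nat_lit 252,nat_lit 253,
    nat_lit 259,nat_lit 266],[nat_lit 267],[nat_lit 248,nat_lit 254],[nat_lit 245,nat_lit 249],[nat_lit 243],
    [nat_lit 244,nat_lit 270,nat_lit 271],[nat_lit 246,nat_lit 250],[nat_lit 247,nat_lit 251],[nat_lit 255,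
    nat_lit 268],[nat_lit 256,nat_lit 265,nat_lit 269],[],[nat_lit 261]],[[nat_lit 272],[nat_lit 273],[],[],
    [nat_lit 278,nat_lit 281,nat_lit 289],[nat_lit 282,nat_lit 290,nat_lit 293],[nat_lit 274,nat_lit 276],
    [nat_lit 277,nat_lit 283,nat_lit 295],[nat_lit 299,nat_lit 301],[nat_lit 279,nat_lit 300,nat_lit 302],
    [nat_lit 275,nat_lit 296,nat_lit 297],[nat_lit 298],[nat_lit 284,nat_lit 291],[nat_lit 280,nat_lit 285,
    nat_lit 292,nat_lit 294],[nat_lit 287],[nat_lit 286,nat_lit 288]],[[nat_lit 303],[nat_lit 304],[],[],[nat_lit 311,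
    nat_lit 314],[nat_lit 315,nat_lit 322],[nat_lit 305,nat_lit 308,nat_lit 312,nat_lit 325,nat_lit 329],[nat_lit 309,
    nat_lit 316,nat_lit 326],[nat_lit 331,nat_lit 333],[nat_lit 332],[nat_lit 306,nat_lit 327],[nat_lit 307,
    nat_lit 310,nat_lit 328,nat_lit 330],[nat_lit 321,nat_lit 323],[nat_lit 313,nat_lit 324],[nat_lit 317,
    nat_lit 319],[nat_lit 318,nat_lit 320]],[[],[],[nat_lit 334],[nat_lit 335],[],[],[],[],[nat_lit 336,nat_lit 338,
    nat_lit 340,nat_lit 349],[nat_lit 337,nat_lit 339,nat_lit 347,nat_lit 348,nat_lit 350],[nat_lit 341],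
    [nat_lit 344],[nat_lit 342,nat_lit 345],[nat_lit 343,nat_lit 346],[],[]],[[],[],[nat_lit 351],[nat_lit 352],
    [nat_lit 353,nat_lit 358],[nat_lit 354,nat_lit 359],[],[nat_lit 360],[nat_lit 362,nat_lit 364,nat_lit 366],
    [nat_lit 363,nat_lit 365,nat_lit 367],[],[nat_lit 355],[nat_lit 356,nat_lit 361],[nat_lit 357],[],[]]]
    [[[nat_lit 0,nat_lit 0x800000000000000000000000000000000000000000000000000000000000000000000000000000000000,
    nat_lit 0x20000000000000000000000000000000000000000000000000000000000000000000000000000000000000,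
    nat_lit 0x20000000000000000000000000000000000000000000000000000000000000000000000000000000000000,nat_lit 0,
    nat_lit 0,nat_lit 0,nat_lit 0,
    nat_lit 0x100000000000000000000000000000000000000000000000000000000000000000000000000000000000000],
    [nat_lit 0x4940000000,nat_lit 0,nat_lit 0,nat_lit 0,nat_lit 0,nat_lit 0,nat_lit 0,nat_lit 0x10000000000,
    nat_lit 0xa480000000],[nat_lit 2,nat_lit 2,nat_lit 2,nat_lit 2,nat_lit 128,nat_lit 128,nat_lit 128,nat_lit 128,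
    nat_lit 0],[nat_lit 0,nat_lit 0,nat_lit 256,nat_lit 0x100000000000000000000000,nat_lit 0x100000000000000000000000,
    nat_lit 0x2040000000000000000000,nat_lit 0x2040000000000000000000,nat_lit 0x2040000000000000000000,
    nat_lit 0x90000000000000000000],[nat_lit 0x90000000000000000000,nat_lit 0x90000000000000000000,
    nat_lit 0x200000000000000000000000,nat_lit 0x200000000000000000000000,nat_lit 0x100000000000000000,
    nat_lit 0x4120000000000000000000,nat_lit 0,nat_lit 0x20000000,nat_lit 0x4440000],[nat_lit 0x4440000,nat_lit 0,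
    nat_lit 0,nat_lit 0,nat_lit 0,nat_lit 0,nat_lit 0x1100000,nat_lit 0x880000,nat_lit 0],[nat_lit 0,nat_lit 0,
    nat_lit 0,nat_lit 0,nat_lit 0,nat_lit 0,nat_lit 0,nat_lit 0x10000000,nat_lit 0x10000000],[nat_lit 0x10000000,
    nat_lit 0xa200000,nat_lit 0xa200000,nat_lit 0,nat_lit 0,nat_lit 0x240a000000000000000000000000000000000,nat_lit 0,
    nat_lit 0x80200000000000000000000000000000000000,nat_lit 0x80200000000000000000000000000000000000],
    [nat_lit 0x80200000000000000000000000000000000000,nat_lit 0x80200000000000000000000000000000000000,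
    nat_lit 0x4804000000000000000000000000000000000,nat_lit 0x4804000000000000000000000000000000000,
    nat_lit 0x201000000000000000000000000000000000000,nat_lit 0x201000000000000000000000000000000000000,
    nat_lit 0x48000400000000000000000000000000000000,nat_lit 0x48000400000000000000000000000000000000,
    nat_lit 0x48000400000000000000000000000000000000]],[[nat_lit 0x40040000000000000000000000000000000,
    nat_lit 0x40040000000000000000000000000000000,nat_lit 0x120020000000000000000000000000000000,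
    nat_lit 0x120020000000000000000000000000000000,nat_lit 0x120080880000000000000000000000000000000,
    nat_lit 0x10010010000000000000000000000000000000,nat_lit 0,nat_lit 0,nat_lit 0],[nat_lit 0,nat_lit 0,
    nat_lit 0x1100000000000000000000000000000000,nat_lit 0x1100000000000000000000000000000000,
    nat_lit 0x200400000000000,nat_lit 0x200400000000000,nat_lit 0x200400000000000,nat_lit 0x80000000000,
    nat_lit 0x80000000000],[nat_lit 0x80000000000,nat_lit 0x80000000000,nat_lit 0x12000100000000000,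
    nat_lit 0x12000100000000000,nat_lit 0x12000100000000000,nat_lit 0,nat_lit 0x40040000000000000,
    nat_lit 0x40040000000000000,nat_lit 0x40040000000000000],[nat_lit 0x424800000000000,nat_lit 0x424800000000000,
    nat_lit 0x8000000000000000,nat_lit 0x8000000000000000,nat_lit 0x8000000000000000,nat_lit 0x24000000000000000,
    nat_lit 0x24000000000000000,nat_lit 0x80800000000000000,nat_lit 0x80800000000000000],[nat_lit 0x18000000000000,
    nat_lit 0x18000000000000,nat_lit 0x200000000000,nat_lit 0x200000000000,nat_lit 0x200000000000,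
    nat_lit 0x200000000000,nat_lit 0x200000000000,nat_lit 0,
    nat_lit 0x4000000000000000000000000000000000000000000000000000],
    [nat_lit 0x4000000000000000000000000000000000000000000000000000,
    nat_lit 0x4040000000000000000000000000000000000000000000000,
    nat_lit 0x4040000000000000000000000000000000000000000000000,nat_lit 0,nat_lit 0,nat_lit 0,nat_lit 0,
    nat_lit 0x90240000000000000000000000000000000000000000000000000,
    nat_lit 0x90240000000000000000000000000000000000000000000000000],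
    [nat_lit 0x8000200000000000000000000000000000000000000000000000,
    nat_lit 0x8000200000000000000000000000000000000000000000000000,
    nat_lit 0x8000200000000000000000000000000000000000000000000000,
    nat_lit 0x10000000000000000000000000000000000000000000000,
    nat_lit 0x409000000000000000000000000000000000000000000000000,
    nat_lit 0x409000000000000000000000000000000000000000000000000,
    nat_lit 0x409000000000000000000000000000000000000000000000000,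
    nat_lit 0x120000000000000000000000000000000000000000000000000000,
    nat_lit 0x120000000000000000000000000000000000000000000000000000],
    [nat_lit 0x120000000000000000000000000000000000000000000000000000,
    nat_lit 0x100800000000000000000000000000000000000000000000000,
    nat_lit 0x100800000000000000000000000000000000000000000000000,
    nat_lit 0x2810000000000000000000000000000000000000000000000000,
    nat_lit 0x2810000000000000000000000000000000000000000000000000,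
    nat_lit 0x2810000000000000000000000000000000000000000000000000,
    nat_lit 0x20000000000000000000000000000000000000000000000,
    nat_lit 0x20000000000000000000000000000000000000000000000,
    nat_lit 0x20000000000000000000000000000000000000000000000],
    [nat_lit 0x240000000000000000000000000000000000000000000000000000,nat_lit 0,nat_lit 0,nat_lit 0,
    nat_lit 0x10802000000000000000000000000,nat_lit 0x10802000000000000000000000000,
    nat_lit 0x80200000000000000000000000000,nat_lit 0x2002400000000000000000000000000,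
    nat_lit 0x2002400000000000000000000000000]],[[nat_lit 0x2002400000000000000000000000000,
    nat_lit 0x1400000000000000000000000000000,nat_lit 0x1400000000000000000000000000000,
    nat_lit 0x8800000000000000000000000,nat_lit 0x8800000000000000000000000,nat_lit 0x4400000000000000000000000,
    nat_lit 0x4400000000000000000000000,nat_lit 0x4400000000000000000000000,nat_lit 0x4400000000000000000000000],
    [nat_lit 0x4001040000000000000000000000000,nat_lit 0x100000000000000000000000000000,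
    nat_lit 0x40000000000000000000000000000,nat_lit 0x40000000000000000000000000000,
    nat_lit 0x20011000000000000000000000000,nat_lit 0x20011000000000000000000000000,nat_lit 0,nat_lit 0,nat_lit 0],
    [nat_lit 0,nat_lit 0x8008080000000000000000000000000,nat_lit 0x8008080000000000000000000000000,
    nat_lit 0x8008080000000000000000000000000,
    nat_lit 0x200000000000000000000000000000000000000000000000000000000000000000,
    nat_lit 0x200000000000000000000000000000000000000000000000000000000000000000,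
    nat_lit 0x4100000000000000000000000000000000000000000000000000000000000000,
    nat_lit 0x4100000000000000000000000000000000000000000000000000000000000000,
    nat_lit 0x1040000000000000000000000000000000000000000000000000000000000000000],
    [nat_lit 0x8000000000000000000000000000000000000000000000000000000000000,
    nat_lit 0x8000000000000000000000000000000000000000000000000000000000000000000,
    nat_lit 0x8000000000000000000000000000000000000000000000000000000000000000000,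
    nat_lit 0x8000000000000000000000000000000000000000000000000000000000000000000,
    nat_lit 0x440000000000000000000000000000000000000000000000000000000000000,
    nat_lit 0x440000000000000000000000000000000000000000000000000000000000000,
    nat_lit 0x220000000000000000000000000000000000000000000000000000000000000,
    nat_lit 0x220000000000000000000000000000000000000000000000000000000000000,
    nat_lit 0x10008000000000000000000000000000000000000000000000000000000000000000],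
    [nat_lit 0x10008000000000000000000000000000000000000000000000000000000000000000,
    nat_lit 0xc0000010000000000000000000000000000000000000000000000000000000000000,
    nat_lit 0xc0000010000000000000000000000000000000000000000000000000000000000000,
    nat_lit 0xc0000010000000000000000000000000000000000000000000000000000000000000,nat_lit 0,nat_lit 0,nat_lit 0,
    nat_lit 0x880000000000000000000000000000000000000000000000000000000000000,nat_lit 0],[nat_lit 0,nat_lit 0,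
    nat_lit 0,nat_lit 0,nat_lit 0x22010000000000000000000000000000000000000000000000000000000000000000,
    nat_lit 0x22010000000000000000000000000000000000000000000000000000000000000000,
    nat_lit 0x22010000000000000000000000000000000000000000000000000000000000000000,nat_lit 0,nat_lit 0],
    [nat_lit 0x200000000000000000000000000000000000000000000,nat_lit 0x200000000000000000000000000000000000000000000,
    nat_lit 0,nat_lit 0,nat_lit 0x240400000000000000000000000000000000000000,nat_lit 0,nat_lit 0,nat_lit 0,nat_lit 0],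
    [nat_lit 0x2000010000000000000000000000000000000000000000,
    nat_lit 0x2000010000000000000000000000000000000000000000,nat_lit 0x400080000000000000000000000000000000000000000,
    nat_lit 0x400080000000000000000000000000000000000000000,nat_lit 0x2400800000000000000000000000000000000000000,
    nat_lit 0x2400800000000000000000000000000000000000000,nat_lit 0x2400800000000000000000000000000000000000000,
    nat_lit 0x2000000000000000000000000000000000000000,nat_lit 0x4000000000000000000000000000000000000000000000],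
    [nat_lit 0x4000000000000000000000000000000000000000000000,nat_lit 0x800100000000000000000000000000000000000000000,
    nat_lit 0x800100000000000000000000000000000000000000000,nat_lit 0xa0800000000000000000000000000000000000000000,
    nat_lit 0xa0800000000000000000000000000000000000000000,nat_lit 0xa0800000000000000000000000000000000000000000,
    nat_lit 0x4001000000000000000000000000000000000000000,nat_lit 0x4001000000000000000000000000000000000000000,
    nat_lit 0x18000000000000000000000000000000000000000000]],[[nat_lit 0,nat_lit 0,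
    nat_lit 0x4800000000000000000000000000000000000000000000000000000000000000000000000000000,
    nat_lit 0x4800000000000000000000000000000000000000000000000000000000000000000000000000000,
    nat_lit 0x4800000000000000000000000000000000000000000000000000000000000000000000000000000,
    nat_lit 0x10000000000000000000000000000000000000000000000000000000000000000000000000000,
    nat_lit 0x10000000000000000000000000000000000000000000000000000000000000000000000000000,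
    nat_lit 0x10000000000000000000000000000000000000000000000000000000000000000000000000000,
    nat_lit 0x10000000000000000000000000000000000000000000000000000000000000000000000000000],
    [nat_lit 0x22001120000000000000000000000000000000000000000000000000000000000000000000000000000,nat_lit 0,
    nat_lit 0,nat_lit 0,nat_lit 0,
    nat_lit 0x280000000000000000000000000000000000000000000000000000000000000000000000000000000000,
    nat_lit 0x280000000000000000000000000000000000000000000000000000000000000000000000000000000000,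
    nat_lit 0x280000000000000000000000000000000000000000000000000000000000000000000000000000000000,
    nat_lit 0x8000040000000000000000000000000000000000000000000000000000000000000000000000000000],
    [nat_lit 0x8000040000000000000000000000000000000000000000000000000000000000000000000000000000,
    nat_lit 0x4010200000000000000000000000000000000000000000000000000000000000000000000000000000,
    nat_lit 0x100000000000000000000000000000000000000000000000000000000000000000000000000000000000,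
    nat_lit 0x100000000000000000000000000000000000000000000000000000000000000000000000000000000000,
    nat_lit 0xa0000000000000000000000000000000000000000000000000000000000000000000000000000000,
    nat_lit 0x50000480000000000000000000000000000000000000000000000000000000000000000000000000000,
    nat_lit 0x50000480000000000000000000000000000000000000000000000000000000000000000000000000000,
    nat_lit 0x50000480000000000000000000000000000000000000000000000000000000000000000000000000000,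
    nat_lit 0x50000480000000000000000000000000000000000000000000000000000000000000000000000000000],
    [nat_lit 0x8000000000000000000000000000000000000000000000000000000000000000000000000000,
    nat_lit 0x1002000000000000000000000000000000000000000000000000000000000000000000000000000000,
    nat_lit 0xa0a00000000000000000000000000000000000000000000000000000000,
    nat_lit 0x4000000000000000000000000000000000000000000000000000000000,nat_lit 0,nat_lit 0,
    nat_lit 0x140400000000000000000000000000000000000000000000000000000000,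
    nat_lit 0x140400000000000000000000000000000000000000000000000000000000,
    nat_lit 0x400000000000000000000000000000000000000000000000000000],
    [nat_lit 0x400000000000000000000000000000000000000000000000000000,
    nat_lit 0x400000000000000000000000000000000000000000000000000000,
    nat_lit 0x40000000000000000000000000000000000000000000000000000000,
    nat_lit 0x40000000000000000000000000000000000000000000000000000000,
    nat_lit 0x40000000000000000000000000000000000000000000000000000000,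
    nat_lit 0x40000000000000000000000000000000000000000000000000000000,
    nat_lit 0x40000000000000000000000000000000000000000000000000000000,
    nat_lit 0xa000000000000000000000000000000000000000000000000000000,
    nat_lit 0x85000000000000000000000000000000000000000000000000000000],
    [nat_lit 0x85000000000000000000000000000000000000000000000000000000,
    nat_lit 0x2400110000000000000000000000000000000000000000000000000000000,
    nat_lit 0x2400110000000000000000000000000000000000000000000000000000000,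
    nat_lit 0x2400110000000000000000000000000000000000000000000000000000000,
    nat_lit 0x2400110000000000000000000000000000000000000000000000000000000,
    nat_lit 0x4000000800000000000000000000000000000000000000000000000000000,
    nat_lit 0x4000000800000000000000000000000000000000000000000000000000000,
    nat_lit 0x8000000000000000000000000000000000000000000000000000000000,
    nat_lit 0x8000000000000000000000000000000000000000000000000000000000],[nat_lit 0,nat_lit 0,nat_lit 0,nat_lit 0,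
    nat_lit 0x800000000000000000000000000000000000000000000000000000000000,
    nat_lit 0x800000000000000000000000000000000000000000000000000000000000,
    nat_lit 0x8000000000000000000000000000000000000000000000000000000000000000000000000000000000000000,nat_lit 0,
    nat_lit 0],[nat_lit 0,nat_lit 0,
    nat_lit 0x10000000000000000000000000000000000000000000000000000000000000000000000000000000000000000,
    nat_lit 0x10000000000000000000000000000000000000000000000000000000000000000000000000000000000000000,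
    nat_lit 0x10000000000000000000000000000000000000000000000000000000000000000000000000000000000000000,
    nat_lit 0x54000000000000000000000000000000000000000000000000000000000000000000000000000000000000000000,
    nat_lit 0x54000000000000000000000000000000000000000000000000000000000000000000000000000000000000000000,
    nat_lit 0x54000000000000000000000000000000000000000000000000000000000000000000000000000000000000000000,
    nat_lit 0x840000000000000000000000000000000000000000000000000000000000000000000000000000000000000000],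
    [nat_lit 0x840000000000000000000000000000000000000000000000000000000000000000000000000000000000000000,nat_lit 0,
    nat_lit 0,nat_lit 0,
    nat_lit 0x1000000000000000000000000000000000000000000000000000000000000000000000000000000000000000000,
    nat_lit 0x1000000000000000000000000000000000000000000000000000000000000000000000000000000000000000000,
    nat_lit 0x2100000000000000000000000000000000000000000000000000000000000000000000000000000000000000000,
    nat_lit 0xa8000000000000000000000000000000000000000000000000000000000000000000000000000000000000000000,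
    nat_lit 0xa8000000000000000000000000000000000000000000000000000000000000000000000000000000000000000000]],
    [[nat_lit 0xa8000000000000000000000000000000000000000000000000000000000000000000000000000000000000000000,
    nat_lit 0,nat_lit 0,nat_lit 0,nat_lit 0,
    nat_lit 0x80000000000000000000000000000000000000000000000000000000000000000000000000000000000000000,
    nat_lit 0x80000000000000000000000000000000000000000000000000000000000000000000000000000000000000000,nat_lit 0,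
    nat_lit 0],[nat_lit 0x200000000000000000000000000000000000000000000000000000000000000000000000000000000000000000,
    nat_lit 0x2024000000000000000000000000000000000000000000000000000000000000000000000,
    nat_lit 0x200000000000000000000000000000000000000000000000000000000000000000000,
    nat_lit 0x1400000000000000000000000000000000000000000000000000000000000000000000,
    nat_lit 0x1400000000000000000000000000000000000000000000000000000000000000000000,nat_lit 0,nat_lit 0,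
    nat_lit 0x2800000000000000000000000000000000000000000000000000000000000000000000000000,
    nat_lit 0x300000800000000000000000000000000000000000000000000000000000000000000000000],
    [nat_lit 0x300000800000000000000000000000000000000000000000000000000000000000000000000,
    nat_lit 0x300000800000000000000000000000000000000000000000000000000000000000000000000,
    nat_lit 0x80082000000000000000000000000000000000000000000000000000000000000000000000,
    nat_lit 0x80082000000000000000000000000000000000000000000000000000000000000000000000,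
    nat_lit 0x80082000000000000000000000000000000000000000000000000000000000000000000000,
    nat_lit 0x8100000000000000000000000000000000000000000000000000000000000000000000000,
    nat_lit 0x800000000000000000000000000000000000000000000000000000000000000000000000,
    nat_lit 0x400000000000000000000000000000000000000000000000000000000000000000000000000,
    nat_lit 0x400000000000000000000000000000000000000000000000000000000000000000000000000],[nat_lit 512,nat_lit 0,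
    nat_lit 0,nat_lit 0,nat_lit 0,nat_lit 0,nat_lit 0,nat_lit 0,nat_lit 0],[nat_lit 0,nat_lit 0,nat_lit 0x10000,
    nat_lit 0xa000,nat_lit 0,nat_lit 0,nat_lit 0,nat_lit 0]]]
    [[[[nat_lit 0,nat_lit 0x800000000000000000000000000000000000000000000000000000000000000000000000000000000000,
    nat_lit 0,nat_lit 0,nat_lit 0,nat_lit 0,nat_lit 0,nat_lit 0,nat_lit 0],[nat_lit 0x900000000,nat_lit 0,nat_lit 0,
    nat_lit 0,nat_lit 0,nat_lit 0,nat_lit 0,nat_lit 0,nat_lit 0],[nat_lit 2,nat_lit 0,nat_lit 0,nat_lit 2,nat_lit 0,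
    nat_lit 0,nat_lit 0,nat_lit 0,nat_lit 0],[nat_lit 0,nat_lit 0,nat_lit 0,nat_lit 0,nat_lit 0,nat_lit 0,nat_lit 0,
    nat_lit 0,nat_lit 0],[nat_lit 0,nat_lit 0,nat_lit 0,nat_lit 0,nat_lit 0,nat_lit 0,nat_lit 0,nat_lit 0,nat_lit 0],
    [nat_lit 0,nat_lit 0,nat_lit 0,nat_lit 0,nat_lit 0,nat_lit 0,nat_lit 0,nat_lit 0,nat_lit 0],[nat_lit 0,nat_lit 0,
    nat_lit 0,nat_lit 0,nat_lit 0,nat_lit 0,nat_lit 0,nat_lit 0,nat_lit 0],[nat_lit 0,nat_lit 0,nat_lit 0,nat_lit 0,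
    nat_lit 0,nat_lit 0,nat_lit 0,nat_lit 0,nat_lit 0],[nat_lit 0,nat_lit 0,nat_lit 0,nat_lit 0,nat_lit 0,nat_lit 0,
    nat_lit 0,nat_lit 0,nat_lit 0]],[[nat_lit 0,nat_lit 0,nat_lit 0,nat_lit 0,nat_lit 0,nat_lit 0,nat_lit 0,nat_lit 0,
    nat_lit 0],[nat_lit 0,nat_lit 0,nat_lit 0,nat_lit 0,nat_lit 0,nat_lit 0,nat_lit 0,nat_lit 0,nat_lit 0],[nat_lit 0,
    nat_lit 0,nat_lit 0,nat_lit 0,nat_lit 0,nat_lit 0,nat_lit 0,nat_lit 0,nat_lit 0],[nat_lit 0,nat_lit 0,nat_lit 0,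
    nat_lit 0,nat_lit 0,nat_lit 0,nat_lit 0,nat_lit 0,nat_lit 0],[nat_lit 0,nat_lit 0,nat_lit 0,nat_lit 0,nat_lit 0,
    nat_lit 0,nat_lit 0,nat_lit 0,nat_lit 0],[nat_lit 0,nat_lit 0,nat_lit 0,nat_lit 0,nat_lit 0,nat_lit 0,nat_lit 0,
    nat_lit 0,nat_lit 0x10000000000000000000000000000000000000000000000000000],[nat_lit 0,nat_lit 0,nat_lit 0,
    nat_lit 0,nat_lit 0,nat_lit 0,nat_lit 0,nat_lit 0,nat_lit 0],[nat_lit 0,nat_lit 0,nat_lit 0,nat_lit 0,nat_lit 0,
    nat_lit 0x10000000000000000000000000000000000000000000000000,nat_lit 0,nat_lit 0,nat_lit 0],[nat_lit 0,nat_lit 0,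
    nat_lit 0,nat_lit 0,nat_lit 0,nat_lit 0,nat_lit 0,nat_lit 0,nat_lit 0]],[[nat_lit 0,nat_lit 0,nat_lit 0,nat_lit 0,
    nat_lit 0,nat_lit 0,nat_lit 0x400000000000000000000000,nat_lit 0,nat_lit 0],[nat_lit 0,nat_lit 0,nat_lit 0,
    nat_lit 0,nat_lit 0,nat_lit 0,nat_lit 0,nat_lit 0,nat_lit 0],[nat_lit 0,nat_lit 0x8000000000000000000000000000000,
    nat_lit 0,nat_lit 0,nat_lit 0,nat_lit 0,nat_lit 0,nat_lit 0,nat_lit 0],[nat_lit 0,nat_lit 0,nat_lit 0,nat_lit 0,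
    nat_lit 0,nat_lit 0,nat_lit 0,nat_lit 0x20000000000000000000000000000000000000000000000000000000000000,nat_lit 0],
    [nat_lit 0,nat_lit 0,nat_lit 0,nat_lit 0xc0000000000000000000000000000000000000000000000000000000000000000000,
    nat_lit 0,nat_lit 0,nat_lit 0,nat_lit 0,nat_lit 0],[nat_lit 0,nat_lit 0,nat_lit 0,nat_lit 0,nat_lit 0,nat_lit 0,
    nat_lit 0,nat_lit 0,nat_lit 0],[nat_lit 0,nat_lit 0,nat_lit 0,nat_lit 0,nat_lit 0,nat_lit 0,nat_lit 0,nat_lit 0,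
    nat_lit 0],[nat_lit 0,nat_lit 0x2000000000000000000000000000000000000000000000,nat_lit 0,nat_lit 0,nat_lit 0,
    nat_lit 0x2000000000000000000000000000000000000000000,nat_lit 0x2000000000000000000000000000000000000000000,
    nat_lit 0,nat_lit 0],[nat_lit 0,nat_lit 0,nat_lit 0,nat_lit 0,nat_lit 0,nat_lit 0,nat_lit 0,nat_lit 0,nat_lit 0]],
    [[nat_lit 0,nat_lit 0,nat_lit 0,nat_lit 0,nat_lit 0,nat_lit 0,nat_lit 0,nat_lit 0,nat_lit 0],[nat_lit 0,nat_lit 0,
    nat_lit 0,nat_lit 0,nat_lit 0,nat_lit 0,nat_lit 0,nat_lit 0,nat_lit 0],[nat_lit 0,nat_lit 0,nat_lit 0,nat_lit 0,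
    nat_lit 0,nat_lit 0,nat_lit 0,nat_lit 0,nat_lit 0],
    [nat_lit 0x8000000000000000000000000000000000000000000000000000000000000000000000000000,nat_lit 0,nat_lit 0,
    nat_lit 0x4000000000000000000000000000000000000000000000000000000000,nat_lit 0,nat_lit 0,nat_lit 0,nat_lit 0,
    nat_lit 0],[nat_lit 0,nat_lit 0,nat_lit 0,nat_lit 0,nat_lit 0,nat_lit 0,nat_lit 0,nat_lit 0,nat_lit 0],[nat_lit 0,
    nat_lit 0,nat_lit 0,nat_lit 0,nat_lit 0,nat_lit 0,nat_lit 0,nat_lit 0,nat_lit 0],[nat_lit 0,nat_lit 0,nat_lit 0,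
    nat_lit 0,nat_lit 0,nat_lit 0,
    nat_lit 0x8000000000000000000000000000000000000000000000000000000000000000000000000000000000000000,nat_lit 0,
    nat_lit 0],[nat_lit 0,nat_lit 0,nat_lit 0,nat_lit 0,nat_lit 0,nat_lit 0,nat_lit 0,nat_lit 0,nat_lit 0],[nat_lit 0,
    nat_lit 0,nat_lit 0,nat_lit 0,nat_lit 0,nat_lit 0,nat_lit 0,nat_lit 0,nat_lit 0]],[[nat_lit 0,nat_lit 0,nat_lit 0,
    nat_lit 0,nat_lit 0,
    nat_lit 0x80000000000000000000000000000000000000000000000000000000000000000000000000000000000000000,nat_lit 0,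
    nat_lit 0,nat_lit 0],[nat_lit 0,nat_lit 0,
    nat_lit 0x200000000000000000000000000000000000000000000000000000000000000000000,nat_lit 0,nat_lit 0,nat_lit 0,
    nat_lit 0,nat_lit 0,nat_lit 0],[nat_lit 0,nat_lit 0,nat_lit 0,nat_lit 0,nat_lit 0,
    nat_lit 0x100000000000000000000000000000000000000000000000000000000000000000000000,nat_lit 0,nat_lit 0,nat_lit 0],
    [nat_lit 512,nat_lit 0,nat_lit 0,nat_lit 0,nat_lit 0,nat_lit 0,nat_lit 0,nat_lit 0,nat_lit 0],[nat_lit 0,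
    nat_lit 0,nat_lit 0,nat_lit 0,nat_lit 0,nat_lit 0,nat_lit 0,nat_lit 0]]]]
    (nat_lit 1) (nat_lit 13) (nat_lit 117)
    [[nat_lit 2,nat_lit 0x1001,nat_lit 0x1001001,nat_lit 0x10001,nat_lit 0x100001],[nat_lit 272,nat_lit 0x1010,
    nat_lit 0x10010,nat_lit 0x100010,nat_lit 0x10100010,nat_lit 0x1000010],[nat_lit 512,nat_lit 0x1100,nat_lit 0x2100,
    nat_lit 0x11100,nat_lit 0x101100,nat_lit 0x10101100,nat_lit 0x10001100,nat_lit 0x10100,nat_lit 0x20100,
    nat_lit 0x110100,nat_lit 0x100100,nat_lit 0x200100,nat_lit 0x10100100,nat_lit 0x1000100,nat_lit 0x10000100,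
    nat_lit 0x20000100],[nat_lit 0x2000,nat_lit 0x3000,nat_lit 0x4000,nat_lit 0x13000,nat_lit 0x103000,
    nat_lit 0x10003000,nat_lit 0x1003000,nat_lit 0x12000,nat_lit 0x22000,nat_lit 0x112000,nat_lit 0x102000,
    nat_lit 0x202000,nat_lit 0x1102000,nat_lit 0x10102000,nat_lit 0x1002000,nat_lit 0x10002000,nat_lit 0x11000,
    nat_lit 0x21000,nat_lit 0x111000,nat_lit 0x211000,nat_lit 0x10111000,nat_lit 0x1011000,nat_lit 0x10011000,
    nat_lit 0x121000,nat_lit 0x101000,nat_lit 0x201000,nat_lit 0x301000,nat_lit 0x10201000,nat_lit 0x1101000,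
    nat_lit 0x10101000,nat_lit 0x11101000,nat_lit 0x20101000,nat_lit 0x1001000,nat_lit 0x11001000,nat_lit 0x10001000,
    nat_lit 0x20001000],[nat_lit 0x20000,nat_lit 0x30000,nat_lit 0x120000,nat_lit 0x1020000,nat_lit 0x10020000,
    nat_lit 0x110000,nat_lit 0x210000,nat_lit 0x10210000,nat_lit 0x1110000,nat_lit 0x10110000,nat_lit 0x310000,
    nat_lit 0x1010000,nat_lit 0x10010000,nat_lit 0x20010000,nat_lit 0x20110000],[nat_lit 0x200000,nat_lit 0x300000,
    nat_lit 0x400000,nat_lit 0x10300000,nat_lit 0x20300000,nat_lit 0x1200000,nat_lit 0x11200000,nat_lit 0x10200000,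
    nat_lit 0x20200000,nat_lit 0x1100000,nat_lit 0x11100000,nat_lit 0x10100000,nat_lit 0x20100000],[nat_lit 0x2000000,
    nat_lit 0x11000000,nat_lit 0x21000000],[nat_lit 0x20000000,nat_lit 0x30000000]]
    [.c (nat_lit 1) (nat_lit 2),.c (nat_lit 0) (nat_lit 0xc3005009209),.c (nat_lit 1) (nat_lit 0xc0080140008),
    .c (nat_lit 1) (nat_lit 0xc3105149209),.c (nat_lit 0) (nat_lit 0xc3000149209),
    .r (nat_lit 0xdb3) (nat_lit 5) [nat_lit 129,nat_lit 0xc3145248004],.c (nat_lit 1) (nat_lit 0x80084005),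
    .r (nat_lit 0xdb5) (nat_lit 5) [nat_lit 129,nat_lit 0x2080100000004],.c (nat_lit 1) (nat_lit 0x82004005),
    .c (nat_lit 1) (nat_lit 0x83005004),.r (nat_lit 0xdb3) (nat_lit 5) [nat_lit 0x3080000000204,
    nat_lit 0xc3145248004],.c (nat_lit 3) (nat_lit 2),.c (nat_lit 0) (nat_lit 0x2000080005),
    .c (nat_lit 0) (nat_lit 0xc00c5109209),.c (nat_lit 1) (nat_lit 0xc0085009209),
    .c (nat_lit 0) (nat_lit 0xc00c0009209),.r (nat_lit 0xdb5) (nat_lit 5) [nat_lit 0x3003000008244,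
    nat_lit 0x2080100000004],.r (nat_lit 0xdb3) (nat_lit 5) [nat_lit 0x80002100142,nat_lit 0xc3145248004],
    .c (nat_lit 1) (nat_lit 0xc0185149209),.r (nat_lit 0xdb5) (nat_lit 5) [nat_lit 0x2002104409204,
    nat_lit 0x2080100000004],.c (nat_lit 1) (nat_lit 0xc0080149209),.c (nat_lit 0) (nat_lit 0x2002000005),
    .c (nat_lit 0) (nat_lit 0xc00c4149209),.r (nat_lit 0xdb3) (nat_lit 5) [nat_lit 0x80080100142,
    nat_lit 0xc3145248004],.c (nat_lit 1) (nat_lit 0x82100000009),.c (nat_lit 0) (nat_lit 0xc00c5149209),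
    .r (nat_lit 0xdb5) (nat_lit 5) [nat_lit 0x3003145008244,nat_lit 0x2080100000004],.c (nat_lit 4) (nat_lit 2),
    .c (nat_lit 0) (nat_lit 0xc30c5089205),.c (nat_lit 2) (nat_lit 0x104003),.c (nat_lit 0) (nat_lit 0xc30c5089205),
    .c (nat_lit 2) (nat_lit 0x2188005),.r (nat_lit 0xdb3) (nat_lit 5) [nat_lit 0x80006200144,nat_lit 0xc3145248004],
    .r (nat_lit 0xdb3) (nat_lit 5) [nat_lit 0x208000c200244,nat_lit 0xc3145248004],
    .c (nat_lit 0) (nat_lit 0xc30c5089209),.c (nat_lit 1) (nat_lit 0xc3005009205),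
    .c (nat_lit 0) (nat_lit 0xc30c3009205),.c (nat_lit 0) (nat_lit 0xc30c3009205),.c (nat_lit 2) (nat_lit 0x2084003),
    .r (nat_lit 0xdb3) (nat_lit 5) [nat_lit 0x2080108200244,nat_lit 0xc3145248004],
    .r (nat_lit 0xdb3) (nat_lit 5) [nat_lit 0x80084200144,nat_lit 0xc3145248004],
    .c (nat_lit 0) (nat_lit 0x30c5109209),.c (nat_lit 2) (nat_lit 0x84003),.c (nat_lit 0) (nat_lit 0xc30c5089209),
    .c (nat_lit 1) (nat_lit 0xc30850c9205),.c (nat_lit 0) (nat_lit 0xc30c00c9209),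
    .c (nat_lit 0) (nat_lit 0xc30c00c9205),.r (nat_lit 0xdb3) (nat_lit 5) [nat_lit 0x3003000008244,
    nat_lit 0xc3145248004],.c (nat_lit 1) (nat_lit 0x3085009209),.c (nat_lit 0) (nat_lit 0xc30c50c9205),
    .c (nat_lit 1) (nat_lit 0xc30030c9205),.c (nat_lit 4) (nat_lit 0x3080004),.c (nat_lit 0) (nat_lit 0xc30c00c9205),
    .c (nat_lit 2) (nat_lit 0x6088005),.r (nat_lit 0xdb3) (nat_lit 5) [nat_lit 0x80102200144,nat_lit 0xc3145248004],
    .c (nat_lit 0) (nat_lit 0x30c0009209),.c (nat_lit 2) (nat_lit 0x2088005),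
    .r (nat_lit 0xdb5) (nat_lit 5) [nat_lit 0xc3000008244,nat_lit 0x2080100000004],
    .r (nat_lit 0x16a2) (nat_lit 13) [nat_lit 0xc3000102,nat_lit 0x82300142,nat_lit 0x2002000000004,
    nat_lit 0x82000081],.c (nat_lit 0) (nat_lit 0x80000080009),
    .r (nat_lit 0xdb3) (nat_lit 5) [nat_lit 0x2080004200244,nat_lit 0xc3145248004],
    .c (nat_lit 0) (nat_lit 0xc30c50c9205),.r (nat_lit 0xdb3) (nat_lit 5) [nat_lit 0x80002200144,
    nat_lit 0xc3145248004],.c (nat_lit 5) (nat_lit 2),.r (nat_lit 0xe13) (nat_lit 4) [nat_lit 129,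
    nat_lit 0x2002000000004,nat_lit 0x82000000004,nat_lit 0x71cd34d658244,nat_lit 0x618c30cc19204],
    .c (nat_lit 1) (nat_lit 0xc3083149205),.r (nat_lit 0xdb5) (nat_lit 5) [nat_lit 0x82104409204,
    nat_lit 0x2080100000004],.c (nat_lit 1) (nat_lit 0xc3005149205),.c (nat_lit 0) (nat_lit 0xc30c214920d),
    .c (nat_lit 0) (nat_lit 0xc30c2149207),.r (nat_lit 0xdb3) (nat_lit 5) [nat_lit 0x3003105008244,
    nat_lit 0xc3145248004],.c (nat_lit 1) (nat_lit 0x3080149209),.c (nat_lit 0) (nat_lit 0xc30c3149205),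
    .c (nat_lit 0) (nat_lit 0xc30c2149205),.c (nat_lit 1) (nat_lit 0x3185149209),
    .c (nat_lit 0) (nat_lit 0xc30c5149207),.r (nat_lit 0xdb3) (nat_lit 5) [nat_lit 0x3003145008244,
    nat_lit 0xc3145248004],.r (nat_lit 0xdb5) (nat_lit 5) [nat_lit 0x30c30c5148142,nat_lit 0x2080100000004],
    .c (nat_lit 6) (nat_lit 2),.c (nat_lit 0) (nat_lit 0xc30c2149205),.c (nat_lit 2) (nat_lit 0x4004003),
    .r (nat_lit 0xdb3) (nat_lit 5) [nat_lit 0x80180200144,nat_lit 0xc3145248004],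
    .r (nat_lit 0xdb5) (nat_lit 5) [nat_lit 0x30c3085008144,nat_lit 0x2080100000004],
    .c (nat_lit 0) (nat_lit 0x30c4149209),.r (nat_lit 0xdb5) (nat_lit 5) [nat_lit 0xc3105008244,
    nat_lit 0x2080100000004],.c (nat_lit 2) (nat_lit 0x2004003),.r (nat_lit 0x16a2) (nat_lit 13) [nat_lit 0xc0000081,
    nat_lit 0x801800c1,nat_lit 0x2002000000004,nat_lit 0x86000102],.c (nat_lit 0) (nat_lit 0x80002000009),
    .r (nat_lit 0xdb3) (nat_lit 5) [nat_lit 0x2080100200244,nat_lit 0xc3145248004],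
    .c (nat_lit 0) (nat_lit 0xc30c3149205),.r (nat_lit 0xdb3) (nat_lit 5) [nat_lit 0x80080200144,
    nat_lit 0xc3145248004],.c (nat_lit 7) (nat_lit 2),.c (nat_lit 0) (nat_lit 0x30c5149209),
    .r (nat_lit 0xdb5) (nat_lit 5) [nat_lit 0xc3145008244,nat_lit 0x2080100000004],.c (nat_lit 8) (nat_lit 2),
    .r (nat_lit 0x16a2) (nat_lit 13) [nat_lit 129,nat_lit 0x1800c1,nat_lit 0x2002000000004,nat_lit 0x186000102]]]

end Pool.Agent.Lib_MP_fa6e45
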