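import Pool.Agent.Lib_MP_fa6e45.DQ8k_0d
import Pool.Agent.Lib_MP_fa6e45.RD8k_37

/-!
MP_fa6e45_co, stage 9: straight-side patterns with `8` sides, part of a certificate (generated by a program).
-/

namespace Pool.Agent.Lib_MP_fa6e45

theorem cD8k_0_k37_0 : allI cD8k_0_c (rjL dJ cD8k_0_q rD8k_37_0) 5736 = true := by
  decide +kernel

theorem cD8k_0_k37_1 : allI cD8k_0_c (rjL dJ cD8k_0_q rD8k_37_1) 5738 = true := by
  decide +kernel

theorem cD8k_0_k37_2 : allI cD8k_0_c (rjL dJ cD8k_0_q rD8k_37_2) 5739 = true := by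
  decide +kernel

theorem cD8k_0_k37_3 : allI cD8k_0_c (rjL dJ cD8k_0_q rD8k_37_3) 5740 = true := by
  decide +kernel

theorem cD8k_0_k37_4 : allI cD8k_0_c (rjL dJ cD8k_0_q rD8k_37_4) 5743 = true := by
  decide +kernel

theorem cD8k_0_k37_5 : allI cD8k_0_c (rjL dJ cD8k_0_q rD8k_37_5) 5746 = true := by
  decide +kernel

theorem cD8k_0_k37_6 : allI cD8k_0_c (rjL dJ cD8k_0_q rD8k_37_6) 5748 = true := by
  decide +kernel

theorem cD8k_0_k37_7 : allI cD8k_0_c (rjL dJ cD8k_0_q rD8k_37_7) 5750 = true := by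
  decide +kernel

theorem cD8k_0_k37_8 : allI cD8k_0_c (rjL dJ cD8k_0_q rD8k_37_8) 5752 = true := by
  decide +kernel

theorem cD8k_0_k37_9 : allI cD8k_0_c (rjL dJ cD8k_0_q rD8k_37_9) 5755 = true := by
  decide +kernel

theorem cD8k_0_k37_10 : allI cD8k_0_c (rjL dJ cD8k_0_q rD8k_37_10) 5757 = true := by
  decide +kernel

theorem cD8k_0_k37_11 : allI cD8k_0_c (rjL dJ cD8k_0_q rD8k_37_11) 5759 = true := by
  decide +kernel

theorem cD8k_0_k37_12 : allI cD8k_0_c (rjL dJ cD8k_0_q rD8k_37_12) 5762 = true := by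
  decide +kernel

theorem cD8k_0_k37_13 : allI cD8k_0_c (rjL dJ cD8k_0_q rD8k_37_13) 5765 = true := by
  decide +kernel

theorem cD8k_0_k37_14 : allI cD8k_0_c (rjL dJ cD8k_0_q rD8k_37_14) 5768 = true := by
  decide +kernel

theorem cD8k_0_k37_15 : allI cD8k_0_c (rjL dJ cD8k_0_q rD8k_37_15) 5771 = true := by
  decide +kernel

theorem cD8k_0_k37_16 : allI cD8k_0_c (rjL dJ cD8k_0_q rD8k_37_16) 5774 = true := by
  decide +kernel

theorem cD8k_0_k37_17 : allI cD8k_0_c (rjL dJ cD8k_0_q rD8k_37_17) 5776 = true := by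
  decide +kernel

theorem cD8k_0_k37_18 : allI cD8k_0_c (rjL dJ cD8k_0_q rD8k_37_18) 5778 = true := by
  decide +kernel

theorem cD8k_0_k37_19 : allI cD8k_0_c (rjL dJ cD8k_0_q rD8k_37_19) 5780 = true := by
  decide +kernel

theorem cD8k_0_k37_20 : allI cD8k_0_c (rjL dJ cD8k_0_q rD8k_37_20) 5782 = true := by
  decide +kernel

theorem cD8k_0_k37_21 : allI cD8k_0_c (rjL dJ cD8k_0_q rD8k_37_21) 5783 = true := by
  decide +kernel

theorem cD8k_0_k37_22 : allI cD8k_0_c (rjL dJ cD8k_0_q rD8k_37_22) 5786 = true := by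
  decide +kernel

theorem cD8k_0_k37_23 : allI cD8k_0_c (rjL dJ cD8k_0_q rD8k_37_23) 5787 = true := by
  decide +kernel

theorem cD8k_0_k37_24 : allI cD8k_0_c (rjL dJ cD8k_0_q rD8k_37_24) 5788 = true := by
  decide +kernel

theorem cD8k_0_k37_25 : allI cD8k_0_c (rjL dJ cD8k_0_q rD8k_37_25) 5790 = true := by
  decide +kernel

theorem cD8k_0_k37_26 : allI cD8k_0_c (rjL dJ cD8k_0_q rD8k_37_26) 5793 = true := by
  decide +kernel

theorem cD8k_0_k37_27 : allI cD8k_0_c (rjL dJ cD8k_0_q rD8k_37_27) 5795 = true := by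
  decide +kernel

theorem cD8k_0_k37_28 : allI cD8k_0_c (rjL dJ cD8k_0_q rD8k_37_28) 5796 = true := by
  decide +kernel

/-- nodes -/
noncomputable def cD8k_0_n37 : List (QJ PN) :=
  rjL dJ cD8k_0_q rD8k_37_0 ++ (rjL dJ cD8k_0_q rD8k_37_1 ++ (rjL dJ cD8k_0_q rD8k_37_2 ++ (
    rjL dJ cD8k_0_q rD8k_37_3 ++ (rjL dJ cD8k_0_q rD8k_37_4 ++ (rjL dJ cD8k_0_q rD8k_37_5 ++ (
    rjL dJ cD8k_0_q rD8k_37_6 ++ (rjL dJ cD8k_0_q rD8k_37_7 ++ (rjL dJ cD8k_0_q rD8k_37_8 ++ (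
    rjL dJ cD8k_0_q rD8k_37_9 ++ (rjL dJ cD8k_0_q rD8k_37_10 ++ (rjL dJ cD8k_0_q rD8k_37_11 ++ (
    rjL dJ cD8k_0_q rD8k_37_12 ++ (rjL dJ cD8k_0_q rD8k_37_13 ++ (rjL dJ cD8k_0_q rD8k_37_14 ++ (
    rjL dJ cD8k_0_q rD8k_37_15 ++ (rjL dJ cD8k_0_q rD8k_37_16 ++ (rjL dJ cD8k_0_q rD8k_37_17 ++ (
    rjL dJ cD8k_0_q rD8k_37_18 ++ (rjL dJ cD8k_0_q rD8k_37_19 ++ (rjL dJ cD8k_0_q rD8k_37_20 ++ (
    rjL dJ cD8k_0_q rD8k_37_21 ++ (rjL dJ cD8k_0_q rD8k_37_22 ++ (rjL dJ cD8k_0_q rD8k_37_23 ++ (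
    rjL dJ cD8k_0_q rD8k_37_24 ++ (rjL dJ cD8k_0_q rD8k_37_25 ++ (rjL dJ cD8k_0_q rD8k_37_26 ++ (
    rjL dJ cD8k_0_q rD8k_37_27 ++ rjL dJ cD8k_0_q rD8k_37_28)))))))))))))))))))))))))))

theorem cD8k_0_k37 : allI cD8k_0_c cD8k_0_n37 5736 = true := by
  refine allI_appQ (k := 2) cD8k_0_k37_0 (by decide +kernel) ?_
  refine allI_appQ (k := 1) cD8k_0_k37_1 (by decide +kernel) ?_
  refine allI_appQ (k := 1) cD8k_0_k37_2 (by decide +kernel) ?_
  refine allI_appQ (k := 3) cD8k_0_k37_3 (by decide +kernel) ?_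
  refine allI_appQ (k := 3) cD8k_0_k37_4 (by decide +kernel) ?_
  refine allI_appQ (k := 2) cD8k_0_k37_5 (by decide +kernel) ?_
  refine allI_appQ (k := 2) cD8k_0_k37_6 (by decide +kernel) ?_
  refine allI_appQ (k := 2) cD8k_0_k37_7 (by decide +kernel) ?_
  refine allI_appQ (k := 3) cD8k_0_k37_8 (by decide +kernel) ?_
  refine allI_appQ (k := 2) cD8k_0_k37_9 (by decide +kernel) ?_
  refine allI_appQ (k := 2) cD8k_0_k37_10 (by decide +kernel) ?_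
  refine allI_appQ (k := 3) cD8k_0_k37_11 (by decide +kernel) ?_
  refine allI_appQ (k := 3) cD8k_0_k37_12 (by decide +kernel) ?_
  refine allI_appQ (k := 3) cD8k_0_k37_13 (by decide +kernel) ?_
  refine allI_appQ (k := 3) cD8k_0_k37_14 (by decide +kernel) ?_
  refine allI_appQ (k := 3) cD8k_0_k37_15 (by decide +kernel) ?_
  refine allI_appQ (k := 2) cD8k_0_k37_16 (by decide +kernel) ?_
  refine allI_appQ (k := 2) cD8k_0_k37_17 (by decide +kernel) ?_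
  refine allI_appQ (k := 2) cD8k_0_k37_18 (by decide +kernel) ?_
  refine allI_appQ (k := 2) cD8k_0_k37_19 (by decide +kernel) ?_
  refine allI_appQ (k := 1) cD8k_0_k37_20 (by decide +kernel) ?_
  refine allI_appQ (k := 3) cD8k_0_k37_21 (by decide +kernel) ?_
  refine allI_appQ (k := 1) cD8k_0_k37_22 (by decide +kernel) ?_
  refine allI_appQ (k := 1) cD8k_0_k37_23 (by decide +kernel) ?_
  refine allI_appQ (k := 2) cD8k_0_k37_24 (by decide +kernel) ?_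
  refine allI_appQ (k := 3) cD8k_0_k37_25 (by decide +kernel) ?_
  refine allI_appQ (k := 2) cD8k_0_k37_26 (by decide +kernel) ?_
  refine allI_appQ (k := 1) cD8k_0_k37_27 (by decide +kernel) ?_
  exact cD8k_0_k37_28

theorem cD8k_0_l37 : cD8k_0_n37.length = 61 := by
  decide +kernel

end Pool.Agent.Lib_MP_fa6e45
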