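import Pool.Agent.Lib_MP_fa6e45.DQ8k_0d
import Pool.Agent.Lib_MP_fa6e45.RD8k_38

/-!
MP_fa6e45_co, stage 9: straight-side patterns with `8` sides, part of a certificate (generated by a program).
-/

namespace Pool.Agent.Lib_MP_fa6e45

theorem cD8k_0_k38_0 : allI cD8k_0_c (rjL dJ cD8k_0_q rD8k_38_0) 5797 = true := by
  decide +kernel

theorem cD8k_0_k38_1 : allI cD8k_0_c (rjL dJ cD8k_0_q rD8k_38_1) 5799 = true := by
  decide +kernel

theorem cD8k_0_k38_2 : allI cD8k_0_c (rjL dJ cD8k_0_q rD8k_38_2) 5802 = true := by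
  decide +kernel

theorem cD8k_0_k38_3 : allI cD8k_0_c (rjL dJ cD8k_0_q rD8k_38_3) 5803 = true := by
  decide +kernel

theorem cD8k_0_k38_4 : allI cD8k_0_c (rjL dJ cD8k_0_q rD8k_38_4) 5804 = true := by
  decide +kernel

theorem cD8k_0_k38_5 : allI cD8k_0_c (rjL dJ cD8k_0_q rD8k_38_5) 5807 = true := by
  decide +kernel

theorem cD8k_0_k38_6 : allI cD8k_0_c (rjL dJ cD8k_0_q rD8k_38_6) 5809 = true := by
  decide +kernel

theorem cD8k_0_k38_7 : allI cD8k_0_c (rjL dJ cD8k_0_q rD8k_38_7) 5811 = true := by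
  decide +kernel

theorem cD8k_0_k38_8 : allI cD8k_0_c (rjL dJ cD8k_0_q rD8k_38_8) 5812 = true := by
  decide +kernel

theorem cD8k_0_k38_9 : allI cD8k_0_c (rjL dJ cD8k_0_q rD8k_38_9) 5813 = true := by
  decide +kernel

theorem cD8k_0_k38_10 : allI cD8k_0_c (rjL dJ cD8k_0_q rD8k_38_10) 5815 = true := by
  decide +kernel

theorem cD8k_0_k38_11 : allI cD8k_0_c (rjL dJ cD8k_0_q rD8k_38_11) 5817 = true := by
  decide +kernel

theorem cD8k_0_k38_12 : allI cD8k_0_c (rjL dJ cD8k_0_q rD8k_38_12) 5819 = true := by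
  decide +kernel

theorem cD8k_0_k38_13 : allI cD8k_0_c (rjL dJ cD8k_0_q rD8k_38_13) 5822 = true := by
  decide +kernel

theorem cD8k_0_k38_14 : allI cD8k_0_c (rjL dJ cD8k_0_q rD8k_38_14) 5825 = true := by
  decide +kernel

theorem cD8k_0_k38_15 : allI cD8k_0_c (rjL dJ cD8k_0_q rD8k_38_15) 5826 = true := by
  decide +kernel

theorem cD8k_0_k38_16 : allI cD8k_0_c (rjL dJ cD8k_0_q rD8k_38_16) 5829 = true := by
  decide +kernel

theorem cD8k_0_k38_17 : allI cD8k_0_c (rjL dJ cD8k_0_q rD8k_38_17) 5832 = true := by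
  decide +kernel

theorem cD8k_0_k38_18 : allI cD8k_0_c (rjL dJ cD8k_0_q rD8k_38_18) 5834 = true := by
  decide +kernel

theorem cD8k_0_k38_19 : allI cD8k_0_c (rjL dJ cD8k_0_q rD8k_38_19) 5836 = true := by
  decide +kernel

theorem cD8k_0_k38_20 : allI cD8k_0_c (rjL dJ cD8k_0_q rD8k_38_20) 5838 = true := by
  decide +kernel

theorem cD8k_0_k38_21 : allI cD8k_0_c (rjL dJ cD8k_0_q rD8k_38_21) 5840 = true := by
  decide +kernel

theorem cD8k_0_k38_22 : allI cD8k_0_c (rjL dJ cD8k_0_q rD8k_38_22) 5843 = true := by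
  decide +kernel

theorem cD8k_0_k38_23 : allI cD8k_0_c (rjL dJ cD8k_0_q rD8k_38_23) 5845 = true := by
  decide +kernel

theorem cD8k_0_k38_24 : allI cD8k_0_c (rjL dJ cD8k_0_q rD8k_38_24) 5847 = true := by
  decide +kernel

theorem cD8k_0_k38_25 : allI cD8k_0_c (rjL dJ cD8k_0_q rD8k_38_25) 5849 = true := by
  decide +kernel

theorem cD8k_0_k38_26 : allI cD8k_0_c (rjL dJ cD8k_0_q rD8k_38_26) 5851 = true := by
  decide +kernel

theorem cD8k_0_k38_27 : allI cD8k_0_c (rjL dJ cD8k_0_q rD8k_38_27) 5853 = true := by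
  decide +kernel

theorem cD8k_0_k38_28 : allI cD8k_0_c (rjL dJ cD8k_0_q rD8k_38_28) 5856 = true := by
  decide +kernel

theorem cD8k_0_k38_29 : allI cD8k_0_c (rjL dJ cD8k_0_q rD8k_38_29) 5859 = true := by
  decide +kernel

theorem cD8k_0_k38_30 : allI cD8k_0_c (rjL dJ cD8k_0_q rD8k_38_30) 5861 = true := by
  decide +kernel

theorem cD8k_0_k38_31 : allI cD8k_0_c (rjL dJ cD8k_0_q rD8k_38_31) 5863 = true := by
  decide +kernel

/-- nodes -/
noncomputable def cD8k_0_n38 : List (QJ PN) :=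
  rjL dJ cD8k_0_q rD8k_38_0 ++ (rjL dJ cD8k_0_q rD8k_38_1 ++ (rjL dJ cD8k_0_q rD8k_38_2 ++ (
    rjL dJ cD8k_0_q rD8k_38_3 ++ (rjL dJ cD8k_0_q rD8k_38_4 ++ (rjL dJ cD8k_0_q rD8k_38_5 ++ (
    rjL dJ cD8k_0_q rD8k_38_6 ++ (rjL dJ cD8k_0_q rD8k_38_7 ++ (rjL dJ cD8k_0_q rD8k_38_8 ++ (
    rjL dJ cD8k_0_q rD8k_38_9 ++ (rjL dJ cD8k_0_q rD8k_38_10 ++ (rjL dJ cD8k_0_q rD8k_38_11 ++ (
    rjL dJ cD8k_0_q rD8k_38_12 ++ (rjL dJ cD8k_0_q rD8k_38_13 ++ (rjL dJ cD8k_0_q rD8k_38_14 ++ (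
    rjL dJ cD8k_0_q rD8k_38_15 ++ (rjL dJ cD8k_0_q rD8k_38_16 ++ (rjL dJ cD8k_0_q rD8k_38_17 ++ (
    rjL dJ cD8k_0_q rD8k_38_18 ++ (rjL dJ cD8k_0_q rD8k_38_19 ++ (rjL dJ cD8k_0_q rD8k_38_20 ++ (
    rjL dJ cD8k_0_q rD8k_38_21 ++ (rjL dJ cD8k_0_q rD8k_38_22 ++ (rjL dJ cD8k_0_q rD8k_38_23 ++ (
    rjL dJ cD8k_0_q rD8k_38_24 ++ (rjL dJ cD8k_0_q rD8k_38_25 ++ (rjL dJ cD8k_0_q rD8k_38_26 ++ (
    rjL dJ cD8k_0_q rD8k_38_27 ++ (rjL dJ cD8k_0_q rD8k_38_28 ++ (rjL dJ cD8k_0_q rD8k_38_29 ++ (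
    rjL dJ cD8k_0_q rD8k_38_30 ++ rjL dJ cD8k_0_q rD8k_38_31))))))))))))))))))))))))))))))

theorem cD8k_0_k38 : allI cD8k_0_c cD8k_0_n38 5797 = true := by
  refine allI_appQ (k := 2) cD8k_0_k38_0 (by decide +kernel) ?_
  refine allI_appQ (k := 3) cD8k_0_k38_1 (by decide +kernel) ?_
  refine allI_appQ (k := 1) cD8k_0_k38_2 (by decide +kernel) ?_
  refine allI_appQ (k := 1) cD8k_0_k38_3 (by decide +kernel) ?_
  refine allI_appQ (k := 3) cD8k_0_k38_4 (by decide +kernel) ?_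
  refine allI_appQ (k := 2) cD8k_0_k38_5 (by decide +kernel) ?_
  refine allI_appQ (k := 2) cD8k_0_k38_6 (by decide +kernel) ?_
  refine allI_appQ (k := 1) cD8k_0_k38_7 (by decide +kernel) ?_
  refine allI_appQ (k := 1) cD8k_0_k38_8 (by decide +kernel) ?_
  refine allI_appQ (k := 2) cD8k_0_k38_9 (by decide +kernel) ?_
  refine allI_appQ (k := 2) cD8k_0_k38_10 (by decide +kernel) ?_
  refine allI_appQ (k := 2) cD8k_0_k38_11 (by decide +kernel) ?_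
  refine allI_appQ (k := 3) cD8k_0_k38_12 (by decide +kernel) ?_
  refine allI_appQ (k := 3) cD8k_0_k38_13 (by decide +kernel) ?_
  refine allI_appQ (k := 1) cD8k_0_k38_14 (by decide +kernel) ?_
  refine allI_appQ (k := 3) cD8k_0_k38_15 (by decide +kernel) ?_
  refine allI_appQ (k := 3) cD8k_0_k38_16 (by decide +kernel) ?_
  refine allI_appQ (k := 2) cD8k_0_k38_17 (by decide +kernel) ?_
  refine allI_appQ (k := 2) cD8k_0_k38_18 (by decide +kernel) ?_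
  refine allI_appQ (k := 2) cD8k_0_k38_19 (by decide +kernel) ?_
  refine allI_appQ (k := 2) cD8k_0_k38_20 (by decide +kernel) ?_
  refine allI_appQ (k := 3) cD8k_0_k38_21 (by decide +kernel) ?_
  refine allI_appQ (k := 2) cD8k_0_k38_22 (by decide +kernel) ?_
  refine allI_appQ (k := 2) cD8k_0_k38_23 (by decide +kernel) ?_
  refine allI_appQ (k := 2) cD8k_0_k38_24 (by decide +kernel) ?_
  refine allI_appQ (k := 2) cD8k_0_k38_25 (by decide +kernel) ?_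
  refine allI_appQ (k := 2) cD8k_0_k38_26 (by decide +kernel) ?_
  refine allI_appQ (k := 3) cD8k_0_k38_27 (by decide +kernel) ?_
  refine allI_appQ (k := 3) cD8k_0_k38_28 (by decide +kernel) ?_
  refine allI_appQ (k := 2) cD8k_0_k38_29 (by decide +kernel) ?_
  refine allI_appQ (k := 2) cD8k_0_k38_30 (by decide +kernel) ?_
  exact cD8k_0_k38_31

theorem cD8k_0_l38 : cD8k_0_n38.length = 68 := by
  decide +kernel

end Pool.Agent.Lib_MP_fa6e45
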