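import Pool.Agent.Lib_MP_fa6e45.DQ8k_0d
import Pool.Agent.Lib_MP_fa6e45.RD8k_39

/-!
MP_fa6e45_co, stage 9: straight-side patterns with `8` sides, part of a certificate (generated by a program).
-/

namespace Pool.Agent.Lib_MP_fa6e45

theorem cD8k_0_k39_0 : allI cD8k_0_c (rjL dJ cD8k_0_q rD8k_39_0) 5865 = true := by
  decide +kernel

theorem cD8k_0_k39_1 : allI cD8k_0_c (rjL dJ cD8k_0_q rD8k_39_1) 5866 = true := by
  decide +kernel

theorem cD8k_0_k39_2 : allI cD8k_0_c (rjL dJ cD8k_0_q rD8k_39_2) 5869 = true := by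
  decide +kernel

theorem cD8k_0_k39_3 : allI cD8k_0_c (rjL dJ cD8k_0_q rD8k_39_3) 5871 = true := by
  decide +kernel

theorem cD8k_0_k39_4 : allI cD8k_0_c (rjL dJ cD8k_0_q rD8k_39_4) 5873 = true := by
  decide +kernel

theorem cD8k_0_k39_5 : allI cD8k_0_c (rjL dJ cD8k_0_q rD8k_39_5) 5876 = true := by
  decide +kernel

theorem cD8k_0_k39_6 : allI cD8k_0_c (rjL dJ cD8k_0_q rD8k_39_6) 5879 = true := by
  decide +kernel

theorem cD8k_0_k39_7 : allI cD8k_0_c (rjL dJ cD8k_0_q rD8k_39_7) 5882 = true := by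
  decide +kernel

theorem cD8k_0_k39_8 : allI cD8k_0_c (rjL dJ cD8k_0_q rD8k_39_8) 5885 = true := by
  decide +kernel

theorem cD8k_0_k39_9 : allI cD8k_0_c (rjL dJ cD8k_0_q rD8k_39_9) 5887 = true := by
  decide +kernel

theorem cD8k_0_k39_10 : allI cD8k_0_c (rjL dJ cD8k_0_q rD8k_39_10) 5889 = true := by
  decide +kernel

theorem cD8k_0_k39_11 : allI cD8k_0_c (rjL dJ cD8k_0_q rD8k_39_11) 5891 = true := by
  decide +kernel

theorem cD8k_0_k39_12 : allI cD8k_0_c (rjL dJ cD8k_0_q rD8k_39_12) 5893 = true := by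
  decide +kernel

theorem cD8k_0_k39_13 : allI cD8k_0_c (rjL dJ cD8k_0_q rD8k_39_13) 5894 = true := by
  decide +kernel

theorem cD8k_0_k39_14 : allI cD8k_0_c (rjL dJ cD8k_0_q rD8k_39_14) 5897 = true := by
  decide +kernel

theorem cD8k_0_k39_15 : allI cD8k_0_c (rjL dJ cD8k_0_q rD8k_39_15) 5900 = true := by
  decide +kernel

theorem cD8k_0_k39_16 : allI cD8k_0_c (rjL dJ cD8k_0_q rD8k_39_16) 5903 = true := by
  decide +kernel

theorem cD8k_0_k39_17 : allI cD8k_0_c (rjL dJ cD8k_0_q rD8k_39_17) 5906 = true := by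
  decide +kernel

theorem cD8k_0_k39_18 : allI cD8k_0_c (rjL dJ cD8k_0_q rD8k_39_18) 5909 = true := by
  decide +kernel

theorem cD8k_0_k39_19 : allI cD8k_0_c (rjL dJ cD8k_0_q rD8k_39_19) 5912 = true := by
  decide +kernel

theorem cD8k_0_k39_20 : allI cD8k_0_c (rjL dJ cD8k_0_q rD8k_39_20) 5915 = true := by
  decide +kernel

theorem cD8k_0_k39_21 : allI cD8k_0_c (rjL dJ cD8k_0_q rD8k_39_21) 5918 = true := by
  decide +kernel

theorem cD8k_0_k39_22 : allI cD8k_0_c (rjL dJ cD8k_0_q rD8k_39_22) 5922 = true := by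
  decide +kernel

theorem cD8k_0_k39_23 : allI cD8k_0_c (rjL dJ cD8k_0_q rD8k_39_23) 5925 = true := by
  decide +kernel

theorem cD8k_0_k39_24 : allI cD8k_0_c (rjL dJ cD8k_0_q rD8k_39_24) 5929 = true := by
  decide +kernel

theorem cD8k_0_k39_25 : allI cD8k_0_c (rjL dJ cD8k_0_q rD8k_39_25) 5932 = true := by
  decide +kernel

theorem cD8k_0_k39_26 : allI cD8k_0_c (rjL dJ cD8k_0_q rD8k_39_26) 5934 = true := by
  decide +kernel

theorem cD8k_0_k39_27 : allI cD8k_0_c (rjL dJ cD8k_0_q rD8k_39_27) 5936 = true := by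
  decide +kernel

theorem cD8k_0_k39_28 : allI cD8k_0_c (rjL dJ cD8k_0_q rD8k_39_28) 5937 = true := by
  decide +kernel

theorem cD8k_0_k39_29 : allI cD8k_0_c (rjL dJ cD8k_0_q rD8k_39_29) 5938 = true := by
  decide +kernel

theorem cD8k_0_k39_30 : allI cD8k_0_c (rjL dJ cD8k_0_q rD8k_39_30) 5941 = true := by
  decide +kernel

theorem cD8k_0_k39_31 : allI cD8k_0_c (rjL dJ cD8k_0_q rD8k_39_31) 5944 = true := by
  decide +kernel

theorem cD8k_0_k39_32 : allI cD8k_0_c (rjL dJ cD8k_0_q rD8k_39_32) 5947 = true := by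
  decide +kernel

/-- nodes -/
noncomputable def cD8k_0_n39 : List (QJ PN) :=
  rjL dJ cD8k_0_q rD8k_39_0 ++ (rjL dJ cD8k_0_q rD8k_39_1 ++ (rjL dJ cD8k_0_q rD8k_39_2 ++ (
    rjL dJ cD8k_0_q rD8k_39_3 ++ (rjL dJ cD8k_0_q rD8k_39_4 ++ (rjL dJ cD8k_0_q rD8k_39_5 ++ (
    rjL dJ cD8k_0_q rD8k_39_6 ++ (rjL dJ cD8k_0_q rD8k_39_7 ++ (rjL dJ cD8k_0_q rD8k_39_8 ++ (
    rjL dJ cD8k_0_q rD8k_39_9 ++ (rjL dJ cD8k_0_q rD8k_39_10 ++ (rjL dJ cD8k_0_q rD8k_39_11 ++ (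
    rjL dJ cD8k_0_q rD8k_39_12 ++ (rjL dJ cD8k_0_q rD8k_39_13 ++ (rjL dJ cD8k_0_q rD8k_39_14 ++ (
    rjL dJ cD8k_0_q rD8k_39_15 ++ (rjL dJ cD8k_0_q rD8k_39_16 ++ (rjL dJ cD8k_0_q rD8k_39_17 ++ (
    rjL dJ cD8k_0_q rD8k_39_18 ++ (rjL dJ cD8k_0_q rD8k_39_19 ++ (rjL dJ cD8k_0_q rD8k_39_20 ++ (
    rjL dJ cD8k_0_q rD8k_39_21 ++ (rjL dJ cD8k_0_q rD8k_39_22 ++ (rjL dJ cD8k_0_q rD8k_39_23 ++ (
    rjL dJ cD8k_0_q rD8k_39_24 ++ (rjL dJ cD8k_0_q rD8k_39_25 ++ (rjL dJ cD8k_0_q rD8k_39_26 ++ (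
    rjL dJ cD8k_0_q rD8k_39_27 ++ (rjL dJ cD8k_0_q rD8k_39_28 ++ (rjL dJ cD8k_0_q rD8k_39_29 ++ (
    rjL dJ cD8k_0_q rD8k_39_30 ++ (rjL dJ cD8k_0_q rD8k_39_31 ++
    rjL dJ cD8k_0_q rD8k_39_32)))))))))))))))))))))))))))))))

theorem cD8k_0_k39 : allI cD8k_0_c cD8k_0_n39 5865 = true := by
  refine allI_appQ (k := 1) cD8k_0_k39_0 (by decide +kernel) ?_
  refine allI_appQ (k := 3) cD8k_0_k39_1 (by decide +kernel) ?_
  refine allI_appQ (k := 2) cD8k_0_k39_2 (by decide +kernel) ?_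
  refine allI_appQ (k := 2) cD8k_0_k39_3 (by decide +kernel) ?_
  refine allI_appQ (k := 3) cD8k_0_k39_4 (by decide +kernel) ?_
  refine allI_appQ (k := 3) cD8k_0_k39_5 (by decide +kernel) ?_
  refine allI_appQ (k := 3) cD8k_0_k39_6 (by decide +kernel) ?_
  refine allI_appQ (k := 3) cD8k_0_k39_7 (by decide +kernel) ?_
  refine allI_appQ (k := 2) cD8k_0_k39_8 (by decide +kernel) ?_
  refine allI_appQ (k := 2) cD8k_0_k39_9 (by decide +kernel) ?_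
  refine allI_appQ (k := 2) cD8k_0_k39_10 (by decide +kernel) ?_
  refine allI_appQ (k := 2) cD8k_0_k39_11 (by decide +kernel) ?_
  refine allI_appQ (k := 1) cD8k_0_k39_12 (by decide +kernel) ?_
  refine allI_appQ (k := 3) cD8k_0_k39_13 (by decide +kernel) ?_
  refine allI_appQ (k := 3) cD8k_0_k39_14 (by decide +kernel) ?_
  refine allI_appQ (k := 3) cD8k_0_k39_15 (by decide +kernel) ?_
  refine allI_appQ (k := 3) cD8k_0_k39_16 (by decide +kernel) ?_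
  refine allI_appQ (k := 3) cD8k_0_k39_17 (by decide +kernel) ?_
  refine allI_appQ (k := 3) cD8k_0_k39_18 (by decide +kernel) ?_
  refine allI_appQ (k := 3) cD8k_0_k39_19 (by decide +kernel) ?_
  refine allI_appQ (k := 3) cD8k_0_k39_20 (by decide +kernel) ?_
  refine allI_appQ (k := 4) cD8k_0_k39_21 (by decide +kernel) ?_
  refine allI_appQ (k := 3) cD8k_0_k39_22 (by decide +kernel) ?_
  refine allI_appQ (k := 4) cD8k_0_k39_23 (by decide +kernel) ?_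
  refine allI_appQ (k := 3) cD8k_0_k39_24 (by decide +kernel) ?_
  refine allI_appQ (k := 2) cD8k_0_k39_25 (by decide +kernel) ?_
  refine allI_appQ (k := 2) cD8k_0_k39_26 (by decide +kernel) ?_
  refine allI_appQ (k := 1) cD8k_0_k39_27 (by decide +kernel) ?_
  refine allI_appQ (k := 1) cD8k_0_k39_28 (by decide +kernel) ?_
  refine allI_appQ (k := 3) cD8k_0_k39_29 (by decide +kernel) ?_
  refine allI_appQ (k := 3) cD8k_0_k39_30 (by decide +kernel) ?_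
  refine allI_appQ (k := 3) cD8k_0_k39_31 (by decide +kernel) ?_
  exact cD8k_0_k39_32

theorem cD8k_0_l39 : cD8k_0_n39.length = 83 := by
  decide +kernel

end Pool.Agent.Lib_MP_fa6e45
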