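import Pool.Agent.Lib_MP_fa6e45.RJ0

/-!
MP_fa6e45_co, stage 9: straight-side patterns with `8` sides, raw data (generated by a program).
-/

namespace Pool.Agent.Lib_MP_fa6e45

/-- nodes -/
noncomputable def rD8k_4_0 : List RJ :=
  [.s (nat_lit 16) (nat_lit 0x21c0) (nat_lit 5) (nat_lit 0xd6f00000d6f0000117f0000117f00000d9300000d9300000feb00000feb0000108d0000108d00000fc700000fc700000e4900000e4900000cfb00000de3) (nat_lit 0x410000004100000000000000000000003ec000003ec0000019400000194000000f2000000f2000001b8000001b800000336000003360000039c00000484)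
    (nat_lit 0x93f095f0ddf0d6f098308f30c8f0bdb13050d7d09730bb709a509a909d306a7095f093f0d6f0d6f065b09830caf0bfb14310ea908bb0bb70a390a3909d305c30d6f0d6f117f117f0d730d930dbf1313108d0fb90fc70813117111450e030cfb0d6f0ddf117f117f0d930d930e9b13ef100d108d0fc708a31069103d0e730cfb098308f30d930d9305a309a70bff0bff13c50df109e70c5b0a5d0a5d098706ef065b09830d930d7309a705a30bff0bff13bd0de90bdb0c9f0c590c5909f7090f0bfb0bdb13ef13130bff0bff0d0f0e570e350ef90c3707170cb50cb50c4f096b0caf0c8f0e9b0dbf0bff0bff0e570d0f0ef90ef90e330e330dfd0dfd0b4f0b670ea90d7d108d0fb90de90df10ef90ef90f9b0f9b0d8d0ed50d570d570c3d0ac114311305100d108d13bd13c50ef90e350e0f0f9b11650ed50a830a830cf10e990bb70bb708a308130c9f0c5b0e3307170ed50ed510e30f9b0a010a0105a30e1708bb09730fc70fc70bdb09e70e330c3711650d8d0e0f10e30c910c910cbb0b430a3909a9103d11450c590a5d0dfd0cb50a830d570c910a010b130b130cf109c50a3909a5106911710c590a5d0dfd0cb50a830d570c910a010b130b130cf109c505c306a70cfb0cfb090f06ef0b67096b0e990ac10b430e1709c509c509f3087709d309d30e730e0309f709870b4f0c4f0cf10c3d0cbb05a30cf10cf10a4709f3)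
    (nat_lit 0x93f21c021c021c021c021c021c021c021c021c021c021c021c021c021c021c0095f093f21c021c021c021c021c021c021c021c021c021c021c021c021c021c00ddf0d6f117f21c021c021c021c021c021c021c021c021c021c021c021c021c00d6f0d6f117f117f21c021c021c021c021c021c021c021c021c021c021c021c00983065b0d730d9305a321c021c021c021c021c021c021c021c021c021c021c008f309830d930d9309a705a321c021c021c021c021c021c021c021c021c021c00c8f0caf0dbf0e9b0bff0bff0d0f21c021c021c021c021c021c021c021c021c00bdb0bfb131313ef0bff0bff0e570d0f21c021c021c021c021c021c021c021c013051431108d100d13c513bd0e350ef90f9b21c021c021c021c021c021c021c00d7d0ea90fb9108d0df10de90ef90ef90f9b0f9b21c021c021c021c021c021c0097308bb0fc70fc709e70bdb0c370e330d8d116510e321c021c021c021c021c00bb70bb7081308a30c5b0c9f07170e330ed50ed50f9b10e321c021c021c021c009a50a39117110690a5d0c590cb50dfd0d570a830a010c910b1321c021c021c009a90a391145103d0a5d0c590cb50dfd0d570a830a010c910b130b1321c021c009d309d30e030e73098709f70c4f0b4f0c3d0cf105a30cbb0cf10cf109f321c006a705c30cfb0cfb06ef090f096b0b670ac10e990e170b4309c509c5087709f3)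
    (nat_lit 5) (nat_lit 139)
    [[nat_lit 0,nat_lit 0,nat_lit 0,nat_lit 12],[nat_lit 0,nat_lit 0,nat_lit 7],[nat_lit 0,nat_lit 0,nat_lit 12,
    nat_lit 0],[nat_lit 0,nat_lit 1,nat_lit 6],[nat_lit 0,nat_lit 1,nat_lit 7],[nat_lit 0,nat_lit 4,nat_lit 1,
    nat_lit 10,nat_lit 14],[nat_lit 0,nat_lit 4,nat_lit 1,nat_lit 15,nat_lit 11],[nat_lit 0,nat_lit 4,nat_lit 2,
    nat_lit 14],[nat_lit 0,nat_lit 4,nat_lit 3,nat_lit 14],[nat_lit 0,nat_lit 4,nat_lit 10,nat_lit 3],[nat_lit 0,
    nat_lit 4,nat_lit 15,nat_lit 2],[nat_lit 0,nat_lit 4,nat_lit 15,nat_lit 3],[nat_lit 0,nat_lit 5,nat_lit 1,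
    nat_lit 10,nat_lit 14],[nat_lit 0,nat_lit 5,nat_lit 1,nat_lit 15,nat_lit 11],[nat_lit 0,nat_lit 5,nat_lit 8,
    nat_lit 14],[nat_lit 0,nat_lit 6,nat_lit 1],[nat_lit 0,nat_lit 7,nat_lit 0],[nat_lit 0,nat_lit 7,nat_lit 1],
    [nat_lit 0,nat_lit 9,nat_lit 4,nat_lit 14],[nat_lit 0,nat_lit 9,nat_lit 4,nat_lit 15],[nat_lit 0,nat_lit 11,
    nat_lit 12],[nat_lit 0,nat_lit 12,nat_lit 0,nat_lit 0],[nat_lit 0,nat_lit 12,nat_lit 14],[nat_lit 0,nat_lit 13,
    nat_lit 14],[nat_lit 1,nat_lit 1,nat_lit 1,nat_lit 13],[nat_lit 1,nat_lit 1,nat_lit 6],[nat_lit 1,nat_lit 1,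
    nat_lit 13,nat_lit 1],[nat_lit 1,nat_lit 2,nat_lit 11,nat_lit 5],[nat_lit 1,nat_lit 2,nat_lit 14,nat_lit 5],
    [nat_lit 1,nat_lit 3,nat_lit 14,nat_lit 5],[nat_lit 1,nat_lit 6,nat_lit 1],[nat_lit 1,nat_lit 13,nat_lit 1,
    nat_lit 1],[nat_lit 1,nat_lit 13,nat_lit 10],[nat_lit 1,nat_lit 14,nat_lit 5,nat_lit 8],[nat_lit 1,nat_lit 15,
    nat_lit 2,nat_lit 5],[nat_lit 1,nat_lit 15,nat_lit 3,nat_lit 5],[nat_lit 1,nat_lit 15,nat_lit 5,nat_lit 8],
    [nat_lit 1,nat_lit 15,nat_lit 9,nat_lit 4],[nat_lit 1,nat_lit 15,nat_lit 12],[nat_lit 1,nat_lit 15,nat_lit 13],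
    [nat_lit 2,nat_lit 2,nat_lit 4],[nat_lit 2,nat_lit 2,nat_lit 5],[nat_lit 2,nat_lit 3,nat_lit 4],[nat_lit 2,
    nat_lit 3,nat_lit 5],[nat_lit 2,nat_lit 4,nat_lit 2],[nat_lit 2,nat_lit 4,nat_lit 3],[nat_lit 2,nat_lit 5,
    nat_lit 2],[nat_lit 2,nat_lit 5,nat_lit 3],[nat_lit 2,nat_lit 5,nat_lit 8],[nat_lit 2,nat_lit 9,nat_lit 4],
    [nat_lit 2,nat_lit 12],[nat_lit 2,nat_lit 13],[nat_lit 3,nat_lit 3,nat_lit 4],[nat_lit 3,nat_lit 3,nat_lit 5],
    [nat_lit 3,nat_lit 4,nat_lit 3],[nat_lit 3,nat_lit 5,nat_lit 3],[nat_lit 3,nat_lit 5,nat_lit 8],[nat_lit 3,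
    nat_lit 9,nat_lit 4],[nat_lit 3,nat_lit 12],[nat_lit 3,nat_lit 13],[nat_lit 4,nat_lit 8,nat_lit 8],[nat_lit 4,
    nat_lit 8,nat_lit 9],[nat_lit 4,nat_lit 9,nat_lit 9],[nat_lit 4,nat_lit 10,nat_lit 10,nat_lit 15],[nat_lit 5,
    nat_lit 8,nat_lit 8],[nat_lit 5,nat_lit 8,nat_lit 9],[nat_lit 5,nat_lit 9,nat_lit 9],[nat_lit 5,nat_lit 14,
    nat_lit 11,nat_lit 11],[nat_lit 6,nat_lit 10],[nat_lit 6,nat_lit 11],[nat_lit 6,nat_lit 14],[nat_lit 6,
    nat_lit 15],[nat_lit 7,nat_lit 10],[nat_lit 7,nat_lit 11],[nat_lit 7,nat_lit 14],[nat_lit 7,nat_lit 15],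
    [nat_lit 8,nat_lit 12],[nat_lit 8,nat_lit 13],[nat_lit 9,nat_lit 12],[nat_lit 9,nat_lit 13]]
    [nat_lit 0x1000c,nat_lit 0x1007,nat_lit 0x100c0,nat_lit 0x1016,nat_lit 0x1017,nat_lit 0x1041ae,nat_lit 0x1041fb,
    nat_lit 0x1042e,nat_lit 0x1043e,nat_lit 0x104a3,nat_lit 0x104f2,nat_lit 0x104f3,nat_lit 0x1051ae,nat_lit 0x1051fb,
    nat_lit 0x1058e,nat_lit 0x1061,nat_lit 0x1070,nat_lit 0x1071,nat_lit 0x1094e,nat_lit 0x1094f,nat_lit 0x10bc,
    nat_lit 0x10c00,nat_lit 0x10ce,nat_lit 0x10de,nat_lit 0x1111d,nat_lit 0x1116,nat_lit 0x111d1,nat_lit 0x112b5,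
    nat_lit 0x112e5,nat_lit 0x113e5,nat_lit 0x1161,nat_lit 0x11d11,nat_lit 0x11da,nat_lit 0x11e58,nat_lit 0x11f25,
    nat_lit 0x11f35,nat_lit 0x11f58,nat_lit 0x11f94,nat_lit 0x11fc,nat_lit 0x11fd,nat_lit 0x1224,nat_lit 0x1225,
    nat_lit 0x1234,nat_lit 0x1235,nat_lit 0x1242,nat_lit 0x1243,nat_lit 0x1252,nat_lit 0x1253,nat_lit 0x1258,
    nat_lit 0x1294,nat_lit 300,nat_lit 301,nat_lit 0x1334,nat_lit 0x1335,nat_lit 0x1343,nat_lit 0x1353,nat_lit 0x1358,
    nat_lit 0x1394,nat_lit 316,nat_lit 317,nat_lit 0x1488,nat_lit 0x1489,nat_lit 0x1499,nat_lit 0x14aaf,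
    nat_lit 0x1588,nat_lit 0x1589,nat_lit 0x1599,nat_lit 0x15ebb,nat_lit 362,nat_lit 363,nat_lit 366,nat_lit 367,
    nat_lit 378,nat_lit 379,nat_lit 382,nat_lit 383,nat_lit 396,nat_lit 397,nat_lit 412,nat_lit 413]
    [[[nat_lit 0,nat_lit 0,nat_lit 0,nat_lit 12],[nat_lit 0,nat_lit 0,nat_lit 7],[nat_lit 0,nat_lit 0,nat_lit 12,
    nat_lit 0],[nat_lit 0,nat_lit 1,nat_lit 6],[nat_lit 0,nat_lit 1,nat_lit 7],[nat_lit 0,nat_lit 4,nat_lit 1,
    nat_lit 10,nat_lit 14],[nat_lit 0,nat_lit 4,nat_lit 1,nat_lit 15,nat_lit 11],[nat_lit 0,nat_lit 4,nat_lit 2,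
    nat_lit 14],[nat_lit 0,nat_lit 4,nat_lit 3,nat_lit 14],[nat_lit 0,nat_lit 4,nat_lit 10,nat_lit 3],[nat_lit 0,
    nat_lit 4,nat_lit 15,nat_lit 2],[nat_lit 0,nat_lit 4,nat_lit 15,nat_lit 3]],[[nat_lit 0,nat_lit 5,nat_lit 1,
    nat_lit 10,nat_lit 14],[nat_lit 0,nat_lit 5,nat_lit 1,nat_lit 15,nat_lit 11],[nat_lit 0,nat_lit 5,nat_lit 8,
    nat_lit 14],[nat_lit 0,nat_lit 6,nat_lit 1],[nat_lit 0,nat_lit 7,nat_lit 0],[nat_lit 0,nat_lit 7,nat_lit 1],
    [nat_lit 0,nat_lit 9,nat_lit 4,nat_lit 14],[nat_lit 0,nat_lit 9,nat_lit 4,nat_lit 15],[nat_lit 0,nat_lit 11,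
    nat_lit 12],[nat_lit 0,nat_lit 12,nat_lit 0,nat_lit 0],[nat_lit 0,nat_lit 12,nat_lit 14],[nat_lit 0,nat_lit 13,
    nat_lit 14]],[[nat_lit 1,nat_lit 0,nat_lit 6],[nat_lit 1,nat_lit 0,nat_lit 7],[nat_lit 1,nat_lit 1,nat_lit 1,
    nat_lit 13],[nat_lit 1,nat_lit 1,nat_lit 6],[nat_lit 1,nat_lit 1,nat_lit 13,nat_lit 1],[nat_lit 1,nat_lit 2,
    nat_lit 11,nat_lit 5],[nat_lit 1,nat_lit 2,nat_lit 14,nat_lit 5],[nat_lit 1,nat_lit 3,nat_lit 14,nat_lit 5],
    [nat_lit 1,nat_lit 6,nat_lit 0],[nat_lit 1,nat_lit 6,nat_lit 1],[nat_lit 1,nat_lit 7,nat_lit 0],[nat_lit 1,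
    nat_lit 10,nat_lit 14,nat_lit 0,nat_lit 4]],[[nat_lit 1,nat_lit 10,nat_lit 14,nat_lit 0,nat_lit 5],[nat_lit 1,
    nat_lit 13,nat_lit 1,nat_lit 1],[nat_lit 1,nat_lit 13,nat_lit 10],[nat_lit 1,nat_lit 14,nat_lit 5,nat_lit 8],
    [nat_lit 1,nat_lit 15,nat_lit 2,nat_lit 5],[nat_lit 1,nat_lit 15,nat_lit 3,nat_lit 5],[nat_lit 1,nat_lit 15,
    nat_lit 5,nat_lit 8],[nat_lit 1,nat_lit 15,nat_lit 9,nat_lit 4],[nat_lit 1,nat_lit 15,nat_lit 11,nat_lit 0,
    nat_lit 4],[nat_lit 1,nat_lit 15,nat_lit 11,nat_lit 0,nat_lit 5],[nat_lit 1,nat_lit 15,nat_lit 12],[nat_lit 1,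
    nat_lit 15,nat_lit 13]],[[nat_lit 2,nat_lit 0,nat_lit 4,nat_lit 15],[nat_lit 2,nat_lit 2,nat_lit 4],[nat_lit 2,
    nat_lit 2,nat_lit 5],[nat_lit 2,nat_lit 3,nat_lit 4],[nat_lit 2,nat_lit 3,nat_lit 5],[nat_lit 2,nat_lit 4,
    nat_lit 2],[nat_lit 2,nat_lit 4,nat_lit 3],[nat_lit 2,nat_lit 5,nat_lit 1,nat_lit 15],[nat_lit 2,nat_lit 5,
    nat_lit 2],[nat_lit 2,nat_lit 5,nat_lit 3],[nat_lit 2,nat_lit 5,nat_lit 8],[nat_lit 2,nat_lit 9,nat_lit 4]],
    [[nat_lit 2,nat_lit 11,nat_lit 5,nat_lit 1],[nat_lit 2,nat_lit 12],[nat_lit 2,nat_lit 13],[nat_lit 2,nat_lit 14,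
    nat_lit 0,nat_lit 4],[nat_lit 2,nat_lit 14,nat_lit 5,nat_lit 1],[nat_lit 3,nat_lit 0,nat_lit 4,nat_lit 10],
    [nat_lit 3,nat_lit 0,nat_lit 4,nat_lit 15],[nat_lit 3,nat_lit 2,nat_lit 4],[nat_lit 3,nat_lit 2,nat_lit 5],
    [nat_lit 3,nat_lit 3,nat_lit 4],[nat_lit 3,nat_lit 3,nat_lit 5],[nat_lit 3,nat_lit 4,nat_lit 2]],[[nat_lit 3,
    nat_lit 4,nat_lit 3],[nat_lit 3,nat_lit 5,nat_lit 1,nat_lit 15],[nat_lit 3,nat_lit 5,nat_lit 2],[nat_lit 3,
    nat_lit 5,nat_lit 3],[nat_lit 3,nat_lit 5,nat_lit 8],[nat_lit 3,nat_lit 9,nat_lit 4],[nat_lit 3,nat_lit 12],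
    [nat_lit 3,nat_lit 13],[nat_lit 3,nat_lit 14,nat_lit 0,nat_lit 4],[nat_lit 3,nat_lit 14,nat_lit 5,nat_lit 1],
    [nat_lit 4,nat_lit 1,nat_lit 10,nat_lit 14,nat_lit 0],[nat_lit 4,nat_lit 1,nat_lit 15,nat_lit 9]],[[nat_lit 4,
    nat_lit 1,nat_lit 15,nat_lit 11,nat_lit 0],[nat_lit 4,nat_lit 2,nat_lit 2],[nat_lit 4,nat_lit 2,nat_lit 3],
    [nat_lit 4,nat_lit 2,nat_lit 9],[nat_lit 4,nat_lit 2,nat_lit 14,nat_lit 0],[nat_lit 4,nat_lit 3,nat_lit 2],
    [nat_lit 4,nat_lit 3,nat_lit 3],[nat_lit 4,nat_lit 3,nat_lit 9],[nat_lit 4,nat_lit 3,nat_lit 14,nat_lit 0],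
    [nat_lit 4,nat_lit 8,nat_lit 8],[nat_lit 4,nat_lit 8,nat_lit 9],[nat_lit 4,nat_lit 9,nat_lit 9]],[[nat_lit 4,
    nat_lit 10,nat_lit 3,nat_lit 0],[nat_lit 4,nat_lit 10,nat_lit 10,nat_lit 15],[nat_lit 4,nat_lit 14,nat_lit 0,
    nat_lit 9],[nat_lit 4,nat_lit 15,nat_lit 0,nat_lit 9],[nat_lit 4,nat_lit 15,nat_lit 2,nat_lit 0],[nat_lit 4,
    nat_lit 15,nat_lit 3,nat_lit 0],[nat_lit 5,nat_lit 1,nat_lit 2,nat_lit 11],[nat_lit 5,nat_lit 1,nat_lit 2,
    nat_lit 14],[nat_lit 5,nat_lit 1,nat_lit 3,nat_lit 14],[nat_lit 5,nat_lit 1,nat_lit 10,nat_lit 14,nat_lit 0],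
    [nat_lit 5,nat_lit 1,nat_lit 15,nat_lit 2],[nat_lit 5,nat_lit 1,nat_lit 15,nat_lit 3]],[[nat_lit 5,nat_lit 1,
    nat_lit 15,nat_lit 11,nat_lit 0],[nat_lit 5,nat_lit 2,nat_lit 2],[nat_lit 5,nat_lit 2,nat_lit 3],[nat_lit 5,
    nat_lit 3,nat_lit 2],[nat_lit 5,nat_lit 3,nat_lit 3],[nat_lit 5,nat_lit 8,nat_lit 1,nat_lit 14],[nat_lit 5,
    nat_lit 8,nat_lit 1,nat_lit 15],[nat_lit 5,nat_lit 8,nat_lit 2],[nat_lit 5,nat_lit 8,nat_lit 3],[nat_lit 5,
    nat_lit 8,nat_lit 8],[nat_lit 5,nat_lit 8,nat_lit 9],[nat_lit 5,nat_lit 8,nat_lit 14,nat_lit 0]],[[nat_lit 5,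
    nat_lit 9,nat_lit 9],[nat_lit 5,nat_lit 14,nat_lit 11,nat_lit 11],[nat_lit 6,nat_lit 0,nat_lit 1],[nat_lit 6,
    nat_lit 1,nat_lit 0],[nat_lit 6,nat_lit 1,nat_lit 1],[nat_lit 6,nat_lit 10],[nat_lit 6,nat_lit 11],[nat_lit 6,
    nat_lit 14],[nat_lit 6,nat_lit 15],[nat_lit 7,nat_lit 0,nat_lit 0],[nat_lit 7,nat_lit 0,nat_lit 1],[nat_lit 7,
    nat_lit 1,nat_lit 0]],[[nat_lit 7,nat_lit 10],[nat_lit 7,nat_lit 11],[nat_lit 7,nat_lit 14],[nat_lit 7,
    nat_lit 15],[nat_lit 8,nat_lit 1,nat_lit 14,nat_lit 5],[nat_lit 8,nat_lit 1,nat_lit 15,nat_lit 5],[nat_lit 8,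
    nat_lit 2,nat_lit 5],[nat_lit 8,nat_lit 3,nat_lit 5],[nat_lit 8,nat_lit 4,nat_lit 8],[nat_lit 8,nat_lit 5,
    nat_lit 8],[nat_lit 8,nat_lit 8,nat_lit 4],[nat_lit 8,nat_lit 8,nat_lit 5]],[[nat_lit 8,nat_lit 9,nat_lit 4],
    [nat_lit 8,nat_lit 9,nat_lit 5],[nat_lit 8,nat_lit 12],[nat_lit 8,nat_lit 13],[nat_lit 8,nat_lit 14,nat_lit 0,
    nat_lit 5],[nat_lit 9,nat_lit 4,nat_lit 1,nat_lit 15],[nat_lit 9,nat_lit 4,nat_lit 2],[nat_lit 9,nat_lit 4,
    nat_lit 3],[nat_lit 9,nat_lit 4,nat_lit 8],[nat_lit 9,nat_lit 4,nat_lit 9],[nat_lit 9,nat_lit 4,nat_lit 14,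
    nat_lit 0],[nat_lit 9,nat_lit 4,nat_lit 15,nat_lit 0]],[[nat_lit 9,nat_lit 5,nat_lit 8],[nat_lit 9,nat_lit 5,
    nat_lit 9],[nat_lit 9,nat_lit 9,nat_lit 4],[nat_lit 9,nat_lit 9,nat_lit 5],[nat_lit 9,nat_lit 12],[nat_lit 9,
    nat_lit 13],[nat_lit 10,nat_lit 1,nat_lit 13],[nat_lit 10,nat_lit 3,nat_lit 0,nat_lit 4],[nat_lit 10,nat_lit 6],
    [nat_lit 10,nat_lit 7],[nat_lit 10,nat_lit 10,nat_lit 15,nat_lit 4],[nat_lit 10,nat_lit 14,nat_lit 0,nat_lit 4,
    nat_lit 1]],[[nat_lit 10,nat_lit 14,nat_lit 0,nat_lit 5,nat_lit 1],[nat_lit 10,nat_lit 15,nat_lit 4,nat_lit 10],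
    [nat_lit 11,nat_lit 0,nat_lit 4,nat_lit 1,nat_lit 15],[nat_lit 11,nat_lit 0,nat_lit 5,nat_lit 1,nat_lit 15],
    [nat_lit 11,nat_lit 5,nat_lit 1,nat_lit 2],[nat_lit 11,nat_lit 5,nat_lit 14,nat_lit 11],[nat_lit 11,nat_lit 6],
    [nat_lit 11,nat_lit 7],[nat_lit 11,nat_lit 11,nat_lit 5,nat_lit 14],[nat_lit 11,nat_lit 12,nat_lit 0],[nat_lit 12,
    nat_lit 0,nat_lit 0,nat_lit 0],[nat_lit 12,nat_lit 0,nat_lit 11]],[[nat_lit 12,nat_lit 1,nat_lit 15],[nat_lit 12,
    nat_lit 2],[nat_lit 12,nat_lit 3],[nat_lit 12,nat_lit 8],[nat_lit 12,nat_lit 9],[nat_lit 12,nat_lit 14,nat_lit 0],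
    [nat_lit 13,nat_lit 1,nat_lit 1,nat_lit 1],[nat_lit 13,nat_lit 1,nat_lit 15],[nat_lit 13,nat_lit 2],[nat_lit 13,
    nat_lit 3],[nat_lit 13,nat_lit 8],[nat_lit 13,nat_lit 9]],[[nat_lit 13,nat_lit 10,nat_lit 1],[nat_lit 13,
    nat_lit 14,nat_lit 0],[nat_lit 14,nat_lit 0,nat_lit 4,nat_lit 1,nat_lit 10],[nat_lit 14,nat_lit 0,nat_lit 4,
    nat_lit 2],[nat_lit 14,nat_lit 0,nat_lit 4,nat_lit 3],[nat_lit 14,nat_lit 0,nat_lit 5,nat_lit 1,nat_lit 10],
    [nat_lit 14,nat_lit 0,nat_lit 5,nat_lit 8],[nat_lit 14,nat_lit 0,nat_lit 9,nat_lit 4],[nat_lit 14,nat_lit 0,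
    nat_lit 12],[nat_lit 14,nat_lit 0,nat_lit 13],[nat_lit 14,nat_lit 5,nat_lit 1,nat_lit 2],[nat_lit 14,nat_lit 5,
    nat_lit 1,nat_lit 3]],[[nat_lit 14,nat_lit 5,nat_lit 8,nat_lit 1],[nat_lit 14,nat_lit 6],[nat_lit 14,nat_lit 7],
    [nat_lit 14,nat_lit 11,nat_lit 11,nat_lit 5],[nat_lit 15,nat_lit 0,nat_lit 9,nat_lit 4],[nat_lit 15,nat_lit 2,
    nat_lit 0,nat_lit 4],[nat_lit 15,nat_lit 2,nat_lit 5,nat_lit 1],[nat_lit 15,nat_lit 3,nat_lit 0,nat_lit 4],
    [nat_lit 15,nat_lit 3,nat_lit 5,nat_lit 1],[nat_lit 15,nat_lit 4,nat_lit 10,nat_lit 10],[nat_lit 15,nat_lit 5,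
    nat_lit 8,nat_lit 1],[nat_lit 15,nat_lit 6]],[[nat_lit 15,nat_lit 7],[nat_lit 15,nat_lit 9,nat_lit 4,nat_lit 1],
    [nat_lit 15,nat_lit 11,nat_lit 0,nat_lit 4,nat_lit 1],[nat_lit 15,nat_lit 11,nat_lit 0,nat_lit 5,nat_lit 1],
    [nat_lit 15,nat_lit 12,nat_lit 1],[nat_lit 15,nat_lit 13,nat_lit 1]]]
    [[nat_lit 2,nat_lit 16,nat_lit 21,nat_lit 32,nat_lit 34,nat_lit 82,nat_lit 84,nat_lit 88,nat_lit 92,nat_lit 96,
    nat_lit 100,nat_lit 101],[nat_lit 105,nat_lit 108,nat_lit 119,nat_lit 123,nat_lit 129,nat_lit 131,nat_lit 154,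
    nat_lit 155,nat_lit 177,nat_lit 178,nat_lit 185,nat_lit 193],[nat_lit 15,nat_lit 17,nat_lit 28,nat_lit 33,
    nat_lit 37,nat_lit 60,nat_lit 64,nat_lit 81,nat_lit 122,nat_lit 124,nat_lit 130,nat_lit 167],[nat_lit 168,
    nat_lit 186,nat_lit 192,nat_lit 204,nat_lit 210,nat_lit 212,nat_lit 214,nat_lit 217,nat_lit 218,nat_lit 219,
    nat_lit 220,nat_lit 221],[nat_lit 10,nat_lit 53,nat_lit 56,nat_lit 71,nat_lit 74,nat_lit 85,nat_lit 89,
    nat_lit 106,nat_lit 109,nat_lit 111,nat_lit 115,nat_lit 150],[nat_lit 172,nat_lit 181,nat_lit 188,nat_lit 195,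
    nat_lit 202,nat_lit 9,nat_lit 11,nat_lit 54,nat_lit 57,nat_lit 72,nat_lit 75,nat_lit 86],[nat_lit 90,nat_lit 107,
    nat_lit 110,nat_lit 112,nat_lit 116,nat_lit 151,nat_lit 182,nat_lit 189,nat_lit 196,nat_lit 203,nat_lit 35,
    nat_lit 43],[nat_lit 44,nat_lit 49,nat_lit 51,nat_lit 59,nat_lit 63,nat_lit 67,nat_lit 69,nat_lit 77,nat_lit 80,
    nat_lit 142,nat_lit 144,nat_lit 158],[nat_lit 163,nat_lit 166,nat_lit 199,nat_lit 208,nat_lit 209,nat_lit 211,
    nat_lit 29,nat_lit 30,nat_lit 31,nat_lit 36,nat_lit 40,nat_lit 41],[nat_lit 45,nat_lit 50,nat_lit 52,nat_lit 68,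
    nat_lit 70,nat_lit 136,nat_lit 137,nat_lit 138,nat_lit 139,nat_lit 143,nat_lit 145,nat_lit 148],[nat_lit 159,
    nat_lit 207,nat_lit 3,nat_lit 24,nat_lit 27,nat_lit 164,nat_lit 174,nat_lit 205,nat_lit 215,nat_lit 1,nat_lit 4,
    nat_lit 25],[nat_lit 165,nat_lit 175,nat_lit 206,nat_lit 216,nat_lit 39,nat_lit 42,nat_lit 58,nat_lit 76,
    nat_lit 93,nat_lit 117,nat_lit 140,nat_lit 141],[nat_lit 152,nat_lit 156,nat_lit 183,nat_lit 190,nat_lit 198,
    nat_lit 83,nat_lit 87,nat_lit 91,nat_lit 94,nat_lit 95,nat_lit 98,nat_lit 99],[nat_lit 118,nat_lit 120,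
    nat_lit 153,nat_lit 157,nat_lit 184,nat_lit 191,nat_lit 38,nat_lit 65,nat_lit 125,nat_lit 132,nat_lit 169,
    nat_lit 194],[nat_lit 197,nat_lit 213,nat_lit 6,nat_lit 13,nat_lit 102,nat_lit 121,nat_lit 126,nat_lit 133,
    nat_lit 173,nat_lit 179,nat_lit 0,nat_lit 20],[nat_lit 46,nat_lit 61,nat_lit 78,nat_lit 146,nat_lit 160,
    nat_lit 200,nat_lit 26,nat_lit 47,nat_lit 62,nat_lit 79,nat_lit 147,nat_lit 161],[nat_lit 162,nat_lit 201,
    nat_lit 5,nat_lit 7,nat_lit 8,nat_lit 12,nat_lit 14,nat_lit 18,nat_lit 22,nat_lit 23,nat_lit 103,nat_lit 104],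
    [nat_lit 113,nat_lit 127,nat_lit 134,nat_lit 176,nat_lit 19,nat_lit 48,nat_lit 55,nat_lit 66,nat_lit 73,
    nat_lit 97,nat_lit 114,nat_lit 128],[nat_lit 135,nat_lit 149,nat_lit 170,nat_lit 171,nat_lit 180,nat_lit 187]]
    [[nat_lit 178,nat_lit 129,nat_lit 0,nat_lit 122,nat_lit 130,nat_lit 194,nat_lit 170,nat_lit 195,nat_lit 196,
    nat_lit 65,nat_lit 48,nat_lit 66],[nat_lit 197,nat_lit 171,nat_lit 198,nat_lit 24,nat_lit 1,nat_lit 25,
    nat_lit 199,nat_lit 208,nat_lit 179,nat_lit 2,nat_lit 200,nat_lit 201],[nat_lit 123,nat_lit 131,nat_lit 186,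
    nat_lit 124,nat_lit 26,nat_lit 102,nat_lit 103,nat_lit 104,nat_lit 3,nat_lit 27,nat_lit 4,nat_lit 82],
    [nat_lit 105,nat_lit 28,nat_lit 162,nat_lit 136,nat_lit 106,nat_lit 107,nat_lit 137,nat_lit 83,nat_lit 84,
    nat_lit 108,nat_lit 180,nat_lit 187],[nat_lit 209,nat_lit 85,nat_lit 109,nat_lit 86,nat_lit 110,nat_lit 49,
    nat_lit 67,nat_lit 210,nat_lit 50,nat_lit 68,nat_lit 138,nat_lit 87],[nat_lit 29,nat_lit 181,nat_lit 188,
    nat_lit 88,nat_lit 30,nat_lit 163,nat_lit 211,nat_lit 89,nat_lit 111,nat_lit 90,nat_lit 112,nat_lit 51],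
    [nat_lit 69,nat_lit 212,nat_lit 52,nat_lit 70,nat_lit 139,nat_lit 91,nat_lit 182,nat_lit 189,nat_lit 92,
    nat_lit 31,nat_lit 5,nat_lit 149],[nat_lit 6,nat_lit 53,nat_lit 71,nat_lit 150,nat_lit 7,nat_lit 54,nat_lit 72,
    nat_lit 151,nat_lit 8,nat_lit 140,nat_lit 152,nat_lit 153],[nat_lit 9,nat_lit 213,nat_lit 154,nat_lit 155,
    nat_lit 10,nat_lit 11,nat_lit 172,nat_lit 202,nat_lit 203,nat_lit 12,nat_lit 55,nat_lit 73],[nat_lit 13,
    nat_lit 56,nat_lit 74,nat_lit 57,nat_lit 75,nat_lit 204,nat_lit 214,nat_lit 58,nat_lit 76,nat_lit 141,nat_lit 156,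
    nat_lit 14],[nat_lit 157,nat_lit 173,nat_lit 32,nat_lit 15,nat_lit 33,nat_lit 164,nat_lit 174,nat_lit 205,
    nat_lit 215,nat_lit 16,nat_lit 34,nat_lit 17],[nat_lit 165,nat_lit 175,nat_lit 206,nat_lit 216,nat_lit 113,
    nat_lit 114,nat_lit 115,nat_lit 116,nat_lit 142,nat_lit 143,nat_lit 93,nat_lit 117],[nat_lit 94,nat_lit 118,
    nat_lit 183,nat_lit 190,nat_lit 119,nat_lit 217,nat_lit 59,nat_lit 77,nat_lit 144,nat_lit 158,nat_lit 18,
    nat_lit 19],[nat_lit 145,nat_lit 159,nat_lit 95,nat_lit 120,nat_lit 184,nat_lit 191,nat_lit 192,nat_lit 96,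
    nat_lit 125,nat_lit 132,nat_lit 97,nat_lit 35],[nat_lit 36,nat_lit 166,nat_lit 218,nat_lit 219,nat_lit 60,
    nat_lit 176,nat_lit 126,nat_lit 133,nat_lit 207,nat_lit 20,nat_lit 21,nat_lit 177],[nat_lit 220,nat_lit 61,
    nat_lit 78,nat_lit 146,nat_lit 160,nat_lit 22,nat_lit 37,nat_lit 221,nat_lit 62,nat_lit 79,nat_lit 147,
    nat_lit 161],[nat_lit 38,nat_lit 23,nat_lit 167,nat_lit 63,nat_lit 80,nat_lit 168,nat_lit 148,nat_lit 98,
    nat_lit 185,nat_lit 193,nat_lit 64,nat_lit 81],[nat_lit 39,nat_lit 127,nat_lit 134,nat_lit 121,nat_lit 99,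
    nat_lit 100,nat_lit 40,nat_lit 101,nat_lit 41,nat_lit 169,nat_lit 42,nat_lit 128],[nat_lit 135,nat_lit 43,
    nat_lit 44,nat_lit 45,nat_lit 46,nat_lit 47]]
    [[[nat_lit 195,nat_lit 202],[nat_lit 195,nat_lit 202],[nat_lit 195,nat_lit 202],[],[],[nat_lit 205],[nat_lit 205],
    [nat_lit 205],[nat_lit 205],[nat_lit 205],[nat_lit 205],[nat_lit 205]],[[nat_lit 196,nat_lit 203],[nat_lit 196,
    nat_lit 203],[nat_lit 196,nat_lit 203],[nat_lit 198],[nat_lit 207],[nat_lit 207],[nat_lit 206],[nat_lit 206],[],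
    [],[],[]],[[nat_lit 71,nat_lit 74],[nat_lit 71,nat_lit 74],[nat_lit 66,nat_lit 73],[nat_lit 66,nat_lit 73],
    [nat_lit 66,nat_lit 73],[nat_lit 67,nat_lit 69,nat_lit 77,nat_lit 80],[nat_lit 67,nat_lit 69,nat_lit 77,
    nat_lit 80],[nat_lit 81],[nat_lit 76],[nat_lit 76],[nat_lit 68,nat_lit 70],[nat_lit 78]],[[nat_lit 78],[],[],[],
    [nat_lit 79],[nat_lit 79],[nat_lit 79],[nat_lit 79],[nat_lit 79],[nat_lit 79],[nat_lit 79],[nat_lit 79]],
    [[nat_lit 10],[],[],[nat_lit 15,nat_lit 17],[nat_lit 15,nat_lit 17],[nat_lit 3],[nat_lit 3],[nat_lit 9,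
    nat_lit 11],[nat_lit 9,nat_lit 11],[nat_lit 9,nat_lit 11],[nat_lit 9,nat_lit 11],[nat_lit 1,nat_lit 4]],[[],
    [nat_lit 5,nat_lit 7,nat_lit 8,nat_lit 12,nat_lit 14,nat_lit 18,nat_lit 22,nat_lit 23],[nat_lit 6,nat_lit 13],
    [nat_lit 2,nat_lit 16,nat_lit 21],[nat_lit 2,nat_lit 16,nat_lit 21],[nat_lit 106,nat_lit 109,nat_lit 111,
    nat_lit 115],[nat_lit 106,nat_lit 109,nat_lit 111,nat_lit 115],[],[],[],[],[]],[[],[nat_lit 107,nat_lit 110,
    nat_lit 112,nat_lit 116],[nat_lit 107,nat_lit 110,nat_lit 112,nat_lit 116],[nat_lit 107,nat_lit 110,nat_lit 112,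
    nat_lit 116],[nat_lit 107,nat_lit 110,nat_lit 112,nat_lit 116],[],[nat_lit 103,nat_lit 104,nat_lit 113],
    [nat_lit 102,nat_lit 121],[nat_lit 105,nat_lit 108,nat_lit 119],[nat_lit 105,nat_lit 108,nat_lit 119],[nat_lit 48,
    nat_lit 55],[nat_lit 48,nat_lit 55]],[[nat_lit 48,nat_lit 55],[nat_lit 49,nat_lit 51,nat_lit 59,nat_lit 63],
    [nat_lit 49,nat_lit 51,nat_lit 59,nat_lit 63],[nat_lit 49,nat_lit 51,nat_lit 59,nat_lit 63],[nat_lit 49,
    nat_lit 51,nat_lit 59,nat_lit 63],[nat_lit 60,nat_lit 64],[nat_lit 60,nat_lit 64],[nat_lit 60,nat_lit 64],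
    [nat_lit 60,nat_lit 64],[],[],[]],[[nat_lit 61],[nat_lit 61],[],[nat_lit 62],[nat_lit 62],[nat_lit 62],
    [nat_lit 135],[nat_lit 135],[nat_lit 135],[nat_lit 135],[nat_lit 135],[nat_lit 135]],[[nat_lit 135],[],[],
    [nat_lit 130],[nat_lit 130],[nat_lit 132],[nat_lit 132],[nat_lit 132],[nat_lit 132],[nat_lit 132],[nat_lit 132],
    [nat_lit 132]],[[],[nat_lit 129,nat_lit 131],[nat_lit 85,nat_lit 89],[nat_lit 97],[nat_lit 97],[],[nat_lit 83,
    nat_lit 87,nat_lit 91,nat_lit 94,nat_lit 95,nat_lit 98,nat_lit 99],[nat_lit 82,nat_lit 84,nat_lit 88,nat_lit 92,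
    nat_lit 96,nat_lit 100,nat_lit 101],[],[nat_lit 150],[nat_lit 150],[nat_lit 149]],[[nat_lit 160],[nat_lit 153,
    nat_lit 157],[nat_lit 154,nat_lit 155],[nat_lit 161],[nat_lit 128],[nat_lit 128],[],[nat_lit 122,nat_lit 124],[],
    [],[nat_lit 125],[nat_lit 125]],[[],[],[nat_lit 127],[nat_lit 126],[nat_lit 123],[nat_lit 174],[nat_lit 174],
    [nat_lit 174],[nat_lit 174],[nat_lit 174],[nat_lit 174],[nat_lit 174]],[[],[],[nat_lit 175],[nat_lit 175],
    [nat_lit 176],[nat_lit 173],[],[],[nat_lit 140,nat_lit 141],[nat_lit 136,nat_lit 137,nat_lit 138,nat_lit 139,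
    nat_lit 143,nat_lit 145,nat_lit 148],[nat_lit 146],[]],[[],[nat_lit 147],[nat_lit 188],[nat_lit 188],
    [nat_lit 189],[nat_lit 189],[nat_lit 190],[],[nat_lit 191],[],[],[]],[[],[nat_lit 163,nat_lit 166],[nat_lit 167,
    nat_lit 168],[nat_lit 169],[nat_lit 165],[],[],[],[nat_lit 208,nat_lit 209,nat_lit 211],[nat_lit 210,nat_lit 212,
    nat_lit 214,nat_lit 217,nat_lit 218,nat_lit 219,nat_lit 220,nat_lit 221],[nat_lit 213],[nat_lit 216]],[[],[],
    [nat_lit 181],[nat_lit 181],[nat_lit 181],[nat_lit 181],[nat_lit 181],[nat_lit 181],[nat_lit 181],[nat_lit 181],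
    [nat_lit 182],[nat_lit 182]],[[nat_lit 182],[nat_lit 183],[],[nat_lit 184],[],[nat_lit 35,nat_lit 43,nat_lit 44],
    [nat_lit 35,nat_lit 43,nat_lit 44],[nat_lit 28,nat_lit 33,nat_lit 37],[nat_lit 28,nat_lit 33,nat_lit 37],
    [nat_lit 24,nat_lit 27],[],[nat_lit 39,nat_lit 42]],[[nat_lit 29,nat_lit 30,nat_lit 31,nat_lit 36,nat_lit 40,
    nat_lit 41,nat_lit 45],[nat_lit 25],[],[],[],[]]]
    (nat_lit 222) [nat_lit 0,nat_lit 1,nat_lit 2,nat_lit 3,nat_lit 4,nat_lit 5,nat_lit 6,nat_lit 7,nat_lit 8,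
    nat_lit 9,nat_lit 10,nat_lit 11,nat_lit 12,nat_lit 13,nat_lit 14,nat_lit 15,nat_lit 16,nat_lit 17,nat_lit 18,
    nat_lit 19,nat_lit 20,nat_lit 21,nat_lit 22,nat_lit 23,nat_lit 26,nat_lit 27,nat_lit 28,nat_lit 29,nat_lit 30,
    nat_lit 31,nat_lit 33,nat_lit 37,nat_lit 38,nat_lit 39,nat_lit 40,nat_lit 41,nat_lit 42,nat_lit 43,nat_lit 46,
    nat_lit 47,nat_lit 49,nat_lit 50,nat_lit 51,nat_lit 52,nat_lit 53,nat_lit 54,nat_lit 56,nat_lit 57,nat_lit 58,
    nat_lit 59,nat_lit 61,nat_lit 62,nat_lit 69,nat_lit 70,nat_lit 72,nat_lit 75,nat_lit 76,nat_lit 77,nat_lit 78,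
    nat_lit 79,nat_lit 93,nat_lit 94,nat_lit 95,nat_lit 97,nat_lit 117,nat_lit 118,nat_lit 120,nat_lit 121,
    nat_lit 125,nat_lit 126,nat_lit 127,nat_lit 128,nat_lit 132,nat_lit 133,nat_lit 134,nat_lit 135,nat_lit 146,
    nat_lit 147,nat_lit 160,nat_lit 161]
    [[[nat_lit 2,nat_lit 16,nat_lit 21],[nat_lit 15,nat_lit 17],[nat_lit 10],[nat_lit 9,nat_lit 11],[],[],[nat_lit 3],
    [nat_lit 1,nat_lit 4],[],[],[],[nat_lit 6,nat_lit 13],[nat_lit 0,nat_lit 20],[],[nat_lit 5,nat_lit 7,nat_lit 8,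
    nat_lit 12,nat_lit 14,nat_lit 18,nat_lit 22,nat_lit 23],[nat_lit 19]],[[nat_lit 32,nat_lit 34],[nat_lit 28,
    nat_lit 33,nat_lit 37],[],[],[nat_lit 35,nat_lit 43,nat_lit 44],[nat_lit 29,nat_lit 30,nat_lit 31,nat_lit 36,
    nat_lit 40,nat_lit 41,nat_lit 45],[nat_lit 24,nat_lit 27],[nat_lit 25],[nat_lit 39,nat_lit 42],[],[nat_lit 38],[],
    [nat_lit 46],[nat_lit 26,nat_lit 47],[],[]],[[],[nat_lit 60,nat_lit 64],[nat_lit 53,nat_lit 56],[nat_lit 54,
    nat_lit 57],[nat_lit 49,nat_lit 51,nat_lit 59,nat_lit 63],[nat_lit 50,nat_lit 52],[],[],[nat_lit 58],[],[],[],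
    [nat_lit 61],[nat_lit 62],[],[nat_lit 48,nat_lit 55]],[[],[nat_lit 81],[nat_lit 71,nat_lit 74],[nat_lit 72,
    nat_lit 75],[nat_lit 67,nat_lit 69,nat_lit 77,nat_lit 80],[nat_lit 68,nat_lit 70],[],[],[nat_lit 76],[],
    [nat_lit 65],[],[nat_lit 78],[nat_lit 79],[],[nat_lit 66,nat_lit 73]],[[nat_lit 82,nat_lit 84,nat_lit 88,
    nat_lit 92,nat_lit 96,nat_lit 100,nat_lit 101],[],[nat_lit 85,nat_lit 89],[nat_lit 86,nat_lit 90],[],[],[],[],
    [nat_lit 93],[nat_lit 83,nat_lit 87,nat_lit 91,nat_lit 94,nat_lit 95,nat_lit 98,nat_lit 99],[],[],[],[],[],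
    [nat_lit 97]],[[nat_lit 105,nat_lit 108,nat_lit 119],[],[nat_lit 106,nat_lit 109,nat_lit 111,nat_lit 115],
    [nat_lit 107,nat_lit 110,nat_lit 112,nat_lit 116],[],[],[],[],[nat_lit 117],[nat_lit 118,nat_lit 120],[],
    [nat_lit 102,nat_lit 121],[],[],[nat_lit 103,nat_lit 104,nat_lit 113],[nat_lit 114]],[[nat_lit 123],[nat_lit 122,
    nat_lit 124],[],[],[],[],[],[],[],[],[nat_lit 125],[nat_lit 126],[],[],[nat_lit 127],[nat_lit 128]],[[nat_lit 129,
    nat_lit 131],[nat_lit 130],[],[],[],[],[],[],[],[],[nat_lit 132],[nat_lit 133],[],[],[nat_lit 134],[nat_lit 135]],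
    [[],[],[],[],[nat_lit 142,nat_lit 144],[nat_lit 136,nat_lit 137,nat_lit 138,nat_lit 139,nat_lit 143,nat_lit 145,
    nat_lit 148],[],[],[nat_lit 140,nat_lit 141],[],[],[],[nat_lit 146],[nat_lit 147],[],[]],[[nat_lit 154,
    nat_lit 155],[],[nat_lit 150],[nat_lit 151],[nat_lit 158],[nat_lit 159],[],[],[nat_lit 152,nat_lit 156],
    [nat_lit 153,nat_lit 157],[],[],[nat_lit 160],[nat_lit 161],[],[nat_lit 149]],[[],[nat_lit 167,nat_lit 168],[],[],
    [nat_lit 163,nat_lit 166],[],[nat_lit 164],[nat_lit 165],[],[],[nat_lit 169],[],[],[nat_lit 162],[],[]],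
    [[nat_lit 177],[],[nat_lit 172],[],[],[],[nat_lit 174],[nat_lit 175],[],[],[],[nat_lit 173],[],[],[nat_lit 176],
    [nat_lit 170,nat_lit 171]],[[nat_lit 178,nat_lit 185],[],[nat_lit 181],[nat_lit 182],[],[],[],[],[nat_lit 183],
    [nat_lit 184],[],[nat_lit 179],[],[],[],[nat_lit 180]],[[nat_lit 193],[nat_lit 186,nat_lit 192],[nat_lit 188],
    [nat_lit 189],[],[],[],[],[nat_lit 190],[nat_lit 191],[],[],[],[],[],[nat_lit 187]],[[],[nat_lit 204],
    [nat_lit 195,nat_lit 202],[nat_lit 196,nat_lit 203],[nat_lit 199],[nat_lit 207],[nat_lit 205],[nat_lit 206],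
    [nat_lit 198],[],[nat_lit 194,nat_lit 197],[],[nat_lit 200],[nat_lit 201],[],[]],[[],[nat_lit 210,nat_lit 212,
    nat_lit 214,nat_lit 217,nat_lit 218,nat_lit 219,nat_lit 220,nat_lit 221],[],[],[nat_lit 208,nat_lit 209,
    nat_lit 211],[],[nat_lit 215],[nat_lit 216],[],[],[nat_lit 213],[],[],[],[],[]]]
    [[[nat_lit 0x408000000000000000000000000000000000000000000000000,
    nat_lit 0x408000000000000000000000000000000000000000000000000,
    nat_lit 0x408000000000000000000000000000000000000000000000000,nat_lit 0,nat_lit 0,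
    nat_lit 0x2000000000000000000000000000000000000000000000000000,
    nat_lit 0x2000000000000000000000000000000000000000000000000000,
    nat_lit 0x2000000000000000000000000000000000000000000000000000,
    nat_lit 0x2000000000000000000000000000000000000000000000000000],
    [nat_lit 0x2000000000000000000000000000000000000000000000000000,
    nat_lit 0x2000000000000000000000000000000000000000000000000000,
    nat_lit 0x2000000000000000000000000000000000000000000000000000,
    nat_lit 0x810000000000000000000000000000000000000000000000000,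
    nat_lit 0x810000000000000000000000000000000000000000000000000,
    nat_lit 0x810000000000000000000000000000000000000000000000000,
    nat_lit 0x40000000000000000000000000000000000000000000000000,
    nat_lit 0x8000000000000000000000000000000000000000000000000000,
    nat_lit 0x8000000000000000000000000000000000000000000000000000],
    [nat_lit 0x4000000000000000000000000000000000000000000000000000,
    nat_lit 0x4000000000000000000000000000000000000000000000000000,nat_lit 0,nat_lit 0,nat_lit 0,nat_lit 0,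
    nat_lit 0x4800000000000000000,nat_lit 0x4800000000000000000,nat_lit 0x2040000000000000000],
    [nat_lit 0x2040000000000000000,nat_lit 0x2040000000000000000,nat_lit 0x120280000000000000000,
    nat_lit 0x120280000000000000000,nat_lit 0x200000000000000000000,nat_lit 0x10000000000000000000,
    nat_lit 0x10000000000000000000,nat_lit 0x500000000000000000,nat_lit 0x40000000000000000000],
    [nat_lit 0x40000000000000000000,nat_lit 0,nat_lit 0,nat_lit 0,nat_lit 0x80000000000000000000,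
    nat_lit 0x80000000000000000000,nat_lit 0x80000000000000000000,nat_lit 0x80000000000000000000,
    nat_lit 0x80000000000000000000],[nat_lit 0x80000000000000000000,nat_lit 0x80000000000000000000,
    nat_lit 0x80000000000000000000,nat_lit 0x400,nat_lit 0,nat_lit 0,nat_lit 0x28000,nat_lit 0x28000,nat_lit 8],
    [nat_lit 8,nat_lit 0xa00,nat_lit 0xa00,nat_lit 0xa00,nat_lit 0xa00,nat_lit 18,nat_lit 0,nat_lit 0xc451a0,
    nat_lit 0x2040],[nat_lit 0x210004,nat_lit 0x210004,nat_lit 0x8a400000000000000000000000000,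
    nat_lit 0x8a400000000000000000000000000,nat_lit 0,nat_lit 0,nat_lit 0,nat_lit 0,nat_lit 0],[nat_lit 0,
    nat_lit 0x114800000000000000000000000000,nat_lit 0x114800000000000000000000000000,
    nat_lit 0x114800000000000000000000000000,nat_lit 0x114800000000000000000000000000,nat_lit 0,
    nat_lit 0x20180000000000000000000000000,nat_lit 0x2000040000000000000000000000000,
    nat_lit 0x801200000000000000000000000000]],[[nat_lit 0x801200000000000000000000000000,nat_lit 0x81000000000000,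
    nat_lit 0x81000000000000,nat_lit 0x81000000000000,nat_lit 0x880a000000000000,nat_lit 0x880a000000000000,
    nat_lit 0x880a000000000000,nat_lit 0x880a000000000000,nat_lit 0x11000000000000000],[nat_lit 0x11000000000000000,
    nat_lit 0x11000000000000000,nat_lit 0x11000000000000000,nat_lit 0,nat_lit 0,nat_lit 0,nat_lit 0x2000000000000000,
    nat_lit 0x2000000000000000,nat_lit 0],[nat_lit 0x4000000000000000,nat_lit 0x4000000000000000,
    nat_lit 0x4000000000000000,nat_lit 0x8000000000000000000000000000000000,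
    nat_lit 0x8000000000000000000000000000000000,nat_lit 0x8000000000000000000000000000000000,
    nat_lit 0x8000000000000000000000000000000000,nat_lit 0x8000000000000000000000000000000000,
    nat_lit 0x8000000000000000000000000000000000],[nat_lit 0x8000000000000000000000000000000000,nat_lit 0,nat_lit 0,
    nat_lit 0x400000000000000000000000000000000,nat_lit 0x400000000000000000000000000000000,
    nat_lit 0x1000000000000000000000000000000000,nat_lit 0x1000000000000000000000000000000000,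
    nat_lit 0x1000000000000000000000000000000000,nat_lit 0x1000000000000000000000000000000000],
    [nat_lit 0x1000000000000000000000000000000000,nat_lit 0x1000000000000000000000000000000000,
    nat_lit 0x1000000000000000000000000000000000,nat_lit 0,nat_lit 0xa00000000000000000000000000000000,
    nat_lit 0x22000000000000000000000,nat_lit 0x2000000000000000000000000,nat_lit 0x2000000000000000000000000,
    nat_lit 0],[nat_lit 0xcc88800000000000000000000,nat_lit 0x31111400000000000000000000,nat_lit 0,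
    nat_lit 0x40000000000000000000000000000000000000,nat_lit 0x40000000000000000000000000000000000000,
    nat_lit 0x20000000000000000000000000000000000000,nat_lit 0x10000000000000000000000000000000000000000,
    nat_lit 0x2200000000000000000000000000000000000000,nat_lit 0xc00000000000000000000000000000000000000],
    [nat_lit 0x20000000000000000000000000000000000000000,nat_lit 0x100000000000000000000000000000000,
    nat_lit 0x100000000000000000000000000000000,nat_lit 0,nat_lit 0x14000000000000000000000000000000,nat_lit 0,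
    nat_lit 0,nat_lit 0x20000000000000000000000000000000,nat_lit 0x20000000000000000000000000000000],[nat_lit 0,
    nat_lit 0,nat_lit 0x80000000000000000000000000000000,nat_lit 0x40000000000000000000000000000000,
    nat_lit 0x8000000000000000000000000000000,nat_lit 0x40000000000000000000000000000000000000000000,
    nat_lit 0x40000000000000000000000000000000000000000000,nat_lit 0x40000000000000000000000000000000000000000000,
    nat_lit 0x40000000000000000000000000000000000000000000],[nat_lit 0x40000000000000000000000000000000000000000000,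
    nat_lit 0x40000000000000000000000000000000000000000000,nat_lit 0x40000000000000000000000000000000000000000000,
    nat_lit 0,nat_lit 0,nat_lit 0x80000000000000000000000000000000000000000000,
    nat_lit 0x80000000000000000000000000000000000000000000,nat_lit 0x100000000000000000000000000000000000000000000,
    nat_lit 0x20000000000000000000000000000000000000000000]],[[nat_lit 0,nat_lit 0,
    nat_lit 0x300000000000000000000000000000000000,nat_lit 0x128f0000000000000000000000000000000000,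
    nat_lit 0x4000000000000000000000000000000000000,nat_lit 0,nat_lit 0,
    nat_lit 0x8000000000000000000000000000000000000,nat_lit 0x100000000000000000000000000000000000000000000000],
    [nat_lit 0x100000000000000000000000000000000000000000000000,
    nat_lit 0x200000000000000000000000000000000000000000000000,
    nat_lit 0x200000000000000000000000000000000000000000000000,
    nat_lit 0x400000000000000000000000000000000000000000000000,nat_lit 0,
    nat_lit 0x800000000000000000000000000000000000000000000000,nat_lit 0,nat_lit 0,nat_lit 0],[nat_lit 0,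
    nat_lit 0x480000000000000000000000000000000000000000,nat_lit 0x1800000000000000000000000000000000000000000,
    nat_lit 0x2000000000000000000000000000000000000000000,nat_lit 0x200000000000000000000000000000000000000000,
    nat_lit 0,nat_lit 0,nat_lit 0,nat_lit 0xb0000000000000000000000000000000000000000000000000000],
    [nat_lit 0x3e540000000000000000000000000000000000000000000000000000,
    nat_lit 0x200000000000000000000000000000000000000000000000000000,
    nat_lit 0x1000000000000000000000000000000000000000000000000000000,nat_lit 0,nat_lit 0,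
    nat_lit 0x2000000000000000000000000000000000000000000000,nat_lit 0x2000000000000000000000000000000000000000000000,
    nat_lit 0x2000000000000000000000000000000000000000000000,
    nat_lit 0x2000000000000000000000000000000000000000000000],
    [nat_lit 0x2000000000000000000000000000000000000000000000,
    nat_lit 0x2000000000000000000000000000000000000000000000,nat_lit 0x2000000000000000000000000000000000000000000000,
    nat_lit 0x2000000000000000000000000000000000000000000000,nat_lit 0x4000000000000000000000000000000000000000000000,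
    nat_lit 0x4000000000000000000000000000000000000000000000,nat_lit 0x4000000000000000000000000000000000000000000000,
    nat_lit 0x8000000000000000000000000000000000000000000000,nat_lit 0],
    [nat_lit 0x10000000000000000000000000000000000000000000000,nat_lit 0,nat_lit 0x180800000000,
    nat_lit 0x180800000000,nat_lit 0x2210000000,nat_lit 0x2210000000,nat_lit 0x9000000,nat_lit 0,
    nat_lit 0x48000000000],[nat_lit 0x2310e0000000,nat_lit 0x2000000,nat_lit 0,nat_lit 0,nat_lit 0,nat_lit 0]]]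
    [[[[nat_lit 0x408000000000000000000000000000000000000000000000000,
    nat_lit 0x408000000000000000000000000000000000000000000000000,nat_lit 0,nat_lit 0,nat_lit 0,nat_lit 0,nat_lit 0,
    nat_lit 0x2000000000000000000000000000000000000000000000000000,
    nat_lit 0x2000000000000000000000000000000000000000000000000000],
    [nat_lit 0x2000000000000000000000000000000000000000000000000000,
    nat_lit 0x2000000000000000000000000000000000000000000000000000,
    nat_lit 0x2000000000000000000000000000000000000000000000000000,nat_lit 0,nat_lit 0,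
    nat_lit 0x810000000000000000000000000000000000000000000000000,nat_lit 0,nat_lit 0,nat_lit 0],[nat_lit 0,nat_lit 0,
    nat_lit 0,nat_lit 0,nat_lit 0,nat_lit 0,nat_lit 0x800000000000000000,nat_lit 0x800000000000000000,
    nat_lit 0x2000000000000000000],[nat_lit 0x2000000000000000000,nat_lit 0,nat_lit 0,nat_lit 0x100080000000000000000,
    nat_lit 0x200000000000000000000,nat_lit 0x10000000000000000000,nat_lit 0,nat_lit 0x500000000000000000,nat_lit 0],
    [nat_lit 0,nat_lit 0,nat_lit 0,nat_lit 0,nat_lit 0x80000000000000000000,nat_lit 0x80000000000000000000,nat_lit 0,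
    nat_lit 0x80000000000000000000,nat_lit 0],[nat_lit 0,nat_lit 0,nat_lit 0,nat_lit 0x400,nat_lit 0,nat_lit 0,
    nat_lit 0,nat_lit 0x28000,nat_lit 8],[nat_lit 8,nat_lit 0x800,nat_lit 0,nat_lit 0x800,nat_lit 0,nat_lit 16,
    nat_lit 0,nat_lit 0x4180,nat_lit 0],[nat_lit 0x210000,nat_lit 0,nat_lit 0x400000000000000000000000000,
    nat_lit 0x400000000000000000000000000,nat_lit 0,nat_lit 0,nat_lit 0,nat_lit 0,nat_lit 0],[nat_lit 0,
    nat_lit 0x104800000000000000000000000000,nat_lit 0,nat_lit 0x4800000000000000000000000000,nat_lit 0,nat_lit 0,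
    nat_lit 0,nat_lit 0x2000000000000000000000000000000,nat_lit 0x801200000000000000000000000000]],[[nat_lit 0,
    nat_lit 0x80000000000000,nat_lit 0x80000000000000,nat_lit 0x80000000000000,nat_lit 0,nat_lit 0x8002000000000000,
    nat_lit 0x8000000000000000,nat_lit 0x8002000000000000,nat_lit 0],[nat_lit 0,nat_lit 0,nat_lit 0x11000000000000000,
    nat_lit 0,nat_lit 0,nat_lit 0,nat_lit 0,nat_lit 0x2000000000000000,nat_lit 0],[nat_lit 0,nat_lit 0,nat_lit 0,
    nat_lit 0x8000000000000000000000000000000000,nat_lit 0x8000000000000000000000000000000000,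
    nat_lit 0x8000000000000000000000000000000000,nat_lit 0x8000000000000000000000000000000000,nat_lit 0,nat_lit 0],
    [nat_lit 0,nat_lit 0,nat_lit 0,nat_lit 0,nat_lit 0,nat_lit 0,nat_lit 0,nat_lit 0,
    nat_lit 0x1000000000000000000000000000000000],[nat_lit 0,nat_lit 0,nat_lit 0,nat_lit 0,
    nat_lit 0xa00000000000000000000000000000000,nat_lit 0,nat_lit 0x2000000000000000000000000,
    nat_lit 0x2000000000000000000000000,nat_lit 0],[nat_lit 0x8000000000000000000000,
    nat_lit 0x31001000000000000000000000,nat_lit 0,nat_lit 0x40000000000000000000000000000000000000,nat_lit 0,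
    nat_lit 0x20000000000000000000000000000000000000,nat_lit 0x10000000000000000000000000000000000000000,nat_lit 0,
    nat_lit 0],[nat_lit 0x20000000000000000000000000000000000000000,nat_lit 0,nat_lit 0,nat_lit 0,
    nat_lit 0x10000000000000000000000000000000,nat_lit 0,nat_lit 0,nat_lit 0,nat_lit 0],[nat_lit 0,nat_lit 0,
    nat_lit 0x80000000000000000000000000000000,nat_lit 0x40000000000000000000000000000000,
    nat_lit 0x8000000000000000000000000000000,nat_lit 0x40000000000000000000000000000000000000000000,nat_lit 0,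
    nat_lit 0,nat_lit 0],[nat_lit 0,nat_lit 0,nat_lit 0x40000000000000000000000000000000000000000000,nat_lit 0,
    nat_lit 0,nat_lit 0,nat_lit 0,nat_lit 0x100000000000000000000000000000000000000000000,
    nat_lit 0x20000000000000000000000000000000000000000000]],[[nat_lit 0,nat_lit 0,nat_lit 0,
    nat_lit 0x10010000000000000000000000000000000000,nat_lit 0x4000000000000000000000000000000000000,nat_lit 0,
    nat_lit 0,nat_lit 0x8000000000000000000000000000000000000,
    nat_lit 0x100000000000000000000000000000000000000000000000],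
    [nat_lit 0x100000000000000000000000000000000000000000000000,
    nat_lit 0x200000000000000000000000000000000000000000000000,nat_lit 0,
    nat_lit 0x400000000000000000000000000000000000000000000000,nat_lit 0,
    nat_lit 0x800000000000000000000000000000000000000000000000,nat_lit 0,nat_lit 0,nat_lit 0],[nat_lit 0,
    nat_lit 0x80000000000000000000000000000000000000000,nat_lit 0x1800000000000000000000000000000000000000000,
    nat_lit 0x2000000000000000000000000000000000000000000,nat_lit 0x200000000000000000000000000000000000000000,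
    nat_lit 0,nat_lit 0,nat_lit 0,nat_lit 0xb0000000000000000000000000000000000000000000000000000],
    [nat_lit 0x6000000000000000000000000000000000000000000000000000000,
    nat_lit 0x200000000000000000000000000000000000000000000000000000,
    nat_lit 0x1000000000000000000000000000000000000000000000000000000,nat_lit 0,nat_lit 0,nat_lit 0,nat_lit 0,
    nat_lit 0,nat_lit 0x2000000000000000000000000000000000000000000000],
    [nat_lit 0x2000000000000000000000000000000000000000000000,nat_lit 0,nat_lit 0,nat_lit 0,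
    nat_lit 0x4000000000000000000000000000000000000000000000,nat_lit 0x4000000000000000000000000000000000000000000000,
    nat_lit 0x4000000000000000000000000000000000000000000000,nat_lit 0x8000000000000000000000000000000000000000000000,
    nat_lit 0],[nat_lit 0x10000000000000000000000000000000000000000000000,nat_lit 0,nat_lit 0x80000000000,
    nat_lit 0x80000000000,nat_lit 0x2200000000,nat_lit 0x2200000000,nat_lit 0,nat_lit 0,nat_lit 0],
    [nat_lit 0x300e0000000,nat_lit 0,nat_lit 0,nat_lit 0,nat_lit 0,nat_lit 0]]]]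
    (nat_lit 1) (nat_lit 1) (nat_lit 9)
    [[nat_lit 2,nat_lit 3,nat_lit 0x10000003,nat_lit 18,nat_lit 258,nat_lit 0x10000102,nat_lit 0x10002,
    nat_lit 0x100002,nat_lit 0x10100002,nat_lit 0x200002,nat_lit 0x10000002,nat_lit 0x20000002,nat_lit 17,
    nat_lit 0x100011,nat_lit 0x10000011,nat_lit 257,nat_lit 273,nat_lit 0x10101,nat_lit 0x100101,nat_lit 0x200101,
    nat_lit 0x10100101,nat_lit 0x10000101,nat_lit 0x20000101,nat_lit 0x1001,nat_lit 0x1011,nat_lit 0x10001001,
    nat_lit 0x10001,nat_lit 0x110001,nat_lit 0x10010001,nat_lit 0x100001,nat_lit 0x200001,nat_lit 0x300001,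
    nat_lit 0x10200001,nat_lit 0x10100001,nat_lit 0x20100001,nat_lit 0x1000001,nat_lit 0x10000001,nat_lit 0x20000001],
    [nat_lit 32,nat_lit 48,nat_lit 0x10000020,nat_lit 272,nat_lit 0x100110,nat_lit 0x10000110,nat_lit 0x1010,
    nat_lit 0x10010,nat_lit 0x100010,nat_lit 0x200010,nat_lit 0x10200010,nat_lit 0x10100010,nat_lit 0x10000010,
    nat_lit 0x20000010],[nat_lit 512,nat_lit 0x1000200,nat_lit 0x1100,nat_lit 0x10100,nat_lit 0x100100,
    nat_lit 0x110100,nat_lit 0x200100,nat_lit 0x1100100,nat_lit 0x10100100,nat_lit 0x1000100,nat_lit 0x10000100,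
    nat_lit 0x10010100,nat_lit 0x11000100,nat_lit 0x20000100],[nat_lit 0x2000,nat_lit 0x11000,nat_lit 0x1001000],
    [nat_lit 0x20000,nat_lit 0x110000,nat_lit 0x210000,nat_lit 0x10110000,nat_lit 0x10010000],[nat_lit 0x200000,
    nat_lit 0x300000,nat_lit 0x400000,nat_lit 0x500000,nat_lit 0x10400000,nat_lit 0x10300000,nat_lit 0x1200000,
    nat_lit 0x10200000,nat_lit 0x20200000,nat_lit 0x1100000,nat_lit 0x10100000,nat_lit 0x20100000,nat_lit 0x11100000],
    [nat_lit 0x11000000],[nat_lit 0x20000000,nat_lit 0x30000000]]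
    [.c (nat_lit 1) (nat_lit 2),.c (nat_lit 0) (nat_lit 0xc0030005),.c (nat_lit 0) (nat_lit 0x1409000d),
    .c (nat_lit 0) (nat_lit 0x19406000d),.c (nat_lit 0) (nat_lit 0x4030003),.c (nat_lit 0) (nat_lit 0x4020003),
    .c (nat_lit 0) (nat_lit 0x301406000d),.c (nat_lit 4) (nat_lit 0x410803),.c (nat_lit 2) (nat_lit 0x80018c02),
    .c (nat_lit 2) (nat_lit 0x80019402),.c (nat_lit 4) (nat_lit 0x410003),.c (nat_lit 2) (nat_lit 0x80018002),
    .c (nat_lit 4) (nat_lit 0x80810005),.c (nat_lit 2) (nat_lit 0x80019404),.c (nat_lit 2) (nat_lit 0x80018004),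
    .c (nat_lit 0) (nat_lit 0x4030003),.c (nat_lit 0) (nat_lit 0x88030005),.c (nat_lit 0) (nat_lit 0x1008030005),
    .c (nat_lit 0) (nat_lit 0x4020803),.c (nat_lit 0) (nat_lit 0x4011003),.c (nat_lit 0) (nat_lit 0x4010803),
    .c (nat_lit 0) (nat_lit 0x4020003),.c (nat_lit 0) (nat_lit 0x4010003),.c (nat_lit 0) (nat_lit 0x210003),
    .c (nat_lit 0) (nat_lit 0xc0510004),.c (nat_lit 0) (nat_lit 0x300002),.c (nat_lit 4) (nat_lit 0x1000810005),
    .c (nat_lit 2) (nat_lit 0x1900019404),.c (nat_lit 2) (nat_lit 0x1900018004),.c (nat_lit 0) (nat_lit 0xc0011005),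
    .c (nat_lit 0) (nat_lit 0x1403600d),.r (nat_lit 0xdb7) (nat_lit 13) [nat_lit 0x4000001,nat_lit 0x3180a0610a2],
    .r (nat_lit 0xdb7) (nat_lit 13) [nat_lit 0x4000001,nat_lit 0x3180a0410a2],.c (nat_lit 0) (nat_lit 0x1403300d),
    .r (nat_lit 0xdb7) (nat_lit 13) [nat_lit 0x4000001,nat_lit 0x3180a0210a2],.c (nat_lit 0) (nat_lit 0x18ca521485),
    .c (nat_lit 0) (nat_lit 0xc0010005),.c (nat_lit 0) (nat_lit 0x1403000d),.c (nat_lit 2) (nat_lit 2),
    .r (nat_lit 0xdbe) (nat_lit 8) [nat_lit 0x3200a3290a2,nat_lit 0x4000001],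
    .r (nat_lit 0xdb3) (nat_lit 7) [nat_lit 0x1084000061,nat_lit 0x3194a001002],.c (nat_lit 0) (nat_lit 0x84000003),
    .c (nat_lit 0) (nat_lit 0x10c001807),.c (nat_lit 0) (nat_lit 0x10c000007),.c (nat_lit 0) (nat_lit 0xc0700006),
    .c (nat_lit 2) (nat_lit 0x1880000004),.c (nat_lit 0) (nat_lit 0x19400300d),
    .r (nat_lit 0xdb7) (nat_lit 13) [nat_lit 0x4000001,nat_lit 0x3000a3410a2],
    .r (nat_lit 0xdbe) (nat_lit 8) [nat_lit 0x3000a3210a2,nat_lit 0x4000001],
    .r (nat_lit 0xdb7) (nat_lit 13) [nat_lit 0x4000001,nat_lit 0x3000a3210a2],.c (nat_lit 0) (nat_lit 0x19400000d),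
    .r (nat_lit 0xdb7) (nat_lit 13) [nat_lit 0x4000001,nat_lit 0x3000a3010a2],.c (nat_lit 3) (nat_lit 2),
    .r (nat_lit 0x9a8) (nat_lit 12) [nat_lit 0x14050001,nat_lit 0x8190a3290a2,nat_lit 0x52b5254a041,
    nat_lit 0x3190a8290a2,nat_lit 0x3410a3290a2],.r (nat_lit 0xdb3) (nat_lit 7) [nat_lit 65,nat_lit 0x3194a001002],
    .c (nat_lit 0) (nat_lit 0x1004000005),.c (nat_lit 0) (nat_lit 0x4001807),.c (nat_lit 0) (nat_lit 0x301400300d),
    .c (nat_lit 0) (nat_lit 0x8003007),.r (nat_lit 0xdb7) (nat_lit 13) [nat_lit 0x4000001,nat_lit 65],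
    .c (nat_lit 0) (nat_lit 0x8001807),.r (nat_lit 0xdbe) (nat_lit 8) [nat_lit 65,nat_lit 0x4000001],
    .c (nat_lit 0) (nat_lit 0x4000007),.c (nat_lit 0) (nat_lit 0x301400000d),
    .r (nat_lit 0xdb7) (nat_lit 13) [nat_lit 0x4000001,nat_lit 0x10041],.c (nat_lit 0) (nat_lit 0x8000007),
    .c (nat_lit 4) (nat_lit 2),.c (nat_lit 0) (nat_lit 0x1800700004),.c (nat_lit 0) (nat_lit 0x31ac0331ac),
    .c (nat_lit 5) (nat_lit 2),.c (nat_lit 0) (nat_lit 0x301400300d),
    .r (nat_lit 0xdb7) (nat_lit 13) [nat_lit 0x4000001,nat_lit 0x180a3410a2],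
    .r (nat_lit 0xdb7) (nat_lit 13) [nat_lit 0x4000001,nat_lit 0x180a3210a2],.c (nat_lit 0) (nat_lit 0x301400000d),
    .c (nat_lit 6) (nat_lit 2),.c (nat_lit 2) (nat_lit 0x80001c02),.r (nat_lit 0xdb3) (nat_lit 7) [nat_lit 0x84040061,
    nat_lit 0x3194a001002],.r (nat_lit 0x9a7) (nat_lit 15) [nat_lit 0x2000a00a1,nat_lit 0x10040001,
    nat_lit 0x40000058041,nat_lit 0x52a52512061,nat_lit 0x458041],
    .r (nat_lit 0x9a7) (nat_lit 15) [nat_lit 0x2000800a1,nat_lit 0x10040001,nat_lit 0x40000048041,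
    nat_lit 0x52a52502061,nat_lit 0x448041],.r (nat_lit 0xdb3) (nat_lit 7) [nat_lit 0x84030061,nat_lit 0x3194a001002],
    .c (nat_lit 0) (nat_lit 0x1088410ca4),.c (nat_lit 2) (nat_lit 0x80001402),
    .r (nat_lit 0xdb3) (nat_lit 7) [nat_lit 0x84020061,nat_lit 0x3194a001002],.c (nat_lit 0) (nat_lit 0x18ca518885),
    .c (nat_lit 4) (nat_lit 0x400803),.c (nat_lit 2) (nat_lit 0x80000c02),.c (nat_lit 0) (nat_lit 0x10884108a4),
    .c (nat_lit 0) (nat_lit 0x18ca519487),.c (nat_lit 8) (nat_lit 2),.c (nat_lit 2) (nat_lit 0x80000002)]]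

/-- nodes -/
noncomputable def rD8k_4_1 : List RJ :=
  [.s (nat_lit 13) (nat_lit 0x5a0) (nat_lit 3) (nat_lit 0x2a9000002a90000029f0000029f000002b9000002b9000002350000023500000281000002810000022b0000022b0000022b0000022b000002eb000002eb) (nat_lit 0x42000000420000004c0000004c0000003200000032000000b6000000b60000006a0000006a000000c0000000c0000000c0000000c00000000000000000)
    (nat_lit 0xf1899c54225d13b8a7c2ce1f313d8a3c3d21710f487a45522a9133878c5a225d1778c5c3e625f10788fc4aa1e90b887545522a912e897436625310087e43d217111a88d43e620f0ef85cc6463171688a844a61b312289b44c21e912488d43861df0ef86dc4ee26b18b8a7c4da1f91438a1c40622b127875c4421e511688544ea2b917789dc48a2011438a1c456203109889c3f223510887e45722b912f87cc3d217110188ac34e17f0c7868c2ea1b10ba85d446a21d0f9859c4c21e9115880c2fe1a70ef872c33a1610b085d43ca24511f8a3c46a235113875c3961a3115885c3821ad0d8866461a29510789ec492235109893c3be18f10b88ac3821c10ce86145f22810f485c43be20f11a87942c21b10e086b434e16b0b585ac3de24f12a87a43861f30fc888433a1750e087042d61a70b585ac4562130ea87a436e1730fc88542ea1750c286642d616b0c185ac45622b0b887a43be1df10888b42c21750ce86c42d616b0cd860c45622b1548aa44d631715c8ae448a21d1408a5442624f11588ac5d62bb1548aa44ee32315c89d43ca23517c8c344561ef11588ac5d62eb)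
    (nat_lit 0xf19680b405a02d01680b405a02d01680b405a02d01680b405a0133878cb405a02d01680b405a02d01680b405a02d01680b405a01508b443665a02d01680b405a02d01680b405a02d01680b405a012e89744a61b32d01680b405a02d01680b405a02d01680b405a013b8bbc4022451439680b405a02d01680b405a02d01680b405a014f8c5c3f226d1438a1cb405a02d01680b405a02d01680b405a00b387cc3d226110188ac34e5a02d01680b405a02d01680b405a00f9897c2e21e9115880c2fe1a72d01680b405a02d01680b405a013d883c46a249127884c31e1df1159680b405a02d01680b405a014788fc46a2350eb889c3461cb10b88acb405a02d01680b405a00f489543e61c311087e42ea19d0e0870434e5a02d01680b405a00b887a441e1df0f288d43621610d687042d61a72d01680b405a00f485c43be1df11688442ea1610d886742d616b0c19680b405a00f487542e61b710a87e42ea1750cc86142d616b0b5860cb405a01548aa464627713a8ae446a1e51868be43de22b11588ac5d65a01548aa462e26b15c8ae443a24514a8a0449e21311588ac5762eb)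
    (nat_lit 6) (nat_lit 83)
    [[nat_lit 0,nat_lit 2,nat_lit 5],[nat_lit 0,nat_lit 3,nat_lit 4],[nat_lit 0,nat_lit 3,nat_lit 8],[nat_lit 0,
    nat_lit 3,nat_lit 9],[nat_lit 0,nat_lit 4,nat_lit 2],[nat_lit 0,nat_lit 4,nat_lit 3],[nat_lit 0,nat_lit 5,
    nat_lit 3],[nat_lit 0,nat_lit 6],[nat_lit 0,nat_lit 7],[nat_lit 0,nat_lit 8,nat_lit 2],[nat_lit 0,nat_lit 9,
    nat_lit 2],[nat_lit 0,nat_lit 9,nat_lit 3],[nat_lit 0,nat_lit 12],[nat_lit 0,nat_lit 13],[nat_lit 1,nat_lit 2,
    nat_lit 4],[nat_lit 1,nat_lit 2,nat_lit 5],[nat_lit 1,nat_lit 2,nat_lit 8],[nat_lit 1,nat_lit 3,nat_lit 5],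
    [nat_lit 1,nat_lit 3,nat_lit 8],[nat_lit 1,nat_lit 3,nat_lit 9],[nat_lit 1,nat_lit 4,nat_lit 3],[nat_lit 1,
    nat_lit 5,nat_lit 2],[nat_lit 1,nat_lit 6],[nat_lit 1,nat_lit 7],[nat_lit 1,nat_lit 8,nat_lit 2],[nat_lit 1,
    nat_lit 9,nat_lit 2],[nat_lit 1,nat_lit 12],[nat_lit 1,nat_lit 13],[nat_lit 2,nat_lit 2,nat_lit 15,nat_lit 9],
    [nat_lit 2,nat_lit 4,nat_lit 3,nat_lit 14],[nat_lit 2,nat_lit 4,nat_lit 3,nat_lit 15],[nat_lit 2,nat_lit 4,
    nat_lit 5,nat_lit 13],[nat_lit 2,nat_lit 5,nat_lit 3,nat_lit 14],[nat_lit 2,nat_lit 5,nat_lit 3,nat_lit 15],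
    [nat_lit 2,nat_lit 5,nat_lit 14,nat_lit 3],[nat_lit 2,nat_lit 6,nat_lit 14],[nat_lit 2,nat_lit 6,nat_lit 15],
    [nat_lit 2,nat_lit 7,nat_lit 14],[nat_lit 2,nat_lit 14,nat_lit 6],[nat_lit 2,nat_lit 14,nat_lit 7],[nat_lit 2,
    nat_lit 14,nat_lit 13],[nat_lit 2,nat_lit 15,nat_lit 4,nat_lit 3],[nat_lit 2,nat_lit 15,nat_lit 6],[nat_lit 2,
    nat_lit 15,nat_lit 7],[nat_lit 2,nat_lit 15,nat_lit 9,nat_lit 2],[nat_lit 2,nat_lit 15,nat_lit 12],[nat_lit 2,
    nat_lit 15,nat_lit 13],[nat_lit 3,nat_lit 3,nat_lit 8,nat_lit 14],[nat_lit 3,nat_lit 6,nat_lit 14],[nat_lit 3,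
    nat_lit 6,nat_lit 15],[nat_lit 3,nat_lit 7,nat_lit 14],[nat_lit 3,nat_lit 7,nat_lit 15],[nat_lit 3,nat_lit 8,
    nat_lit 14,nat_lit 3],[nat_lit 3,nat_lit 12,nat_lit 4,nat_lit 5],[nat_lit 3,nat_lit 12,nat_lit 14],[nat_lit 3,
    nat_lit 12,nat_lit 15],[nat_lit 3,nat_lit 13,nat_lit 14],[nat_lit 3,nat_lit 14,nat_lit 7],[nat_lit 3,nat_lit 15,
    nat_lit 6],[nat_lit 3,nat_lit 15,nat_lit 7],[nat_lit 4,nat_lit 4,nat_lit 10],[nat_lit 4,nat_lit 4,nat_lit 11],
    [nat_lit 4,nat_lit 5,nat_lit 10],[nat_lit 4,nat_lit 5,nat_lit 11],[nat_lit 4,nat_lit 6,nat_lit 6],[nat_lit 4,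
    nat_lit 6,nat_lit 7],[nat_lit 4,nat_lit 6,nat_lit 12],[nat_lit 4,nat_lit 7,nat_lit 6],[nat_lit 4,nat_lit 7,
    nat_lit 7],[nat_lit 4,nat_lit 8,nat_lit 10],[nat_lit 4,nat_lit 8,nat_lit 11],[nat_lit 4,nat_lit 9,nat_lit 10],
    [nat_lit 4,nat_lit 9,nat_lit 11],[nat_lit 4,nat_lit 10,nat_lit 4],[nat_lit 4,nat_lit 10,nat_lit 5],[nat_lit 4,
    nat_lit 10,nat_lit 8],[nat_lit 4,nat_lit 11,nat_lit 4],[nat_lit 4,nat_lit 11,nat_lit 5],[nat_lit 4,nat_lit 11,
    nat_lit 8],[nat_lit 4,nat_lit 12,nat_lit 12],[nat_lit 4,nat_lit 13,nat_lit 6],[nat_lit 4,nat_lit 13,nat_lit 7],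
    [nat_lit 4,nat_lit 13,nat_lit 12],[nat_lit 4,nat_lit 13,nat_lit 13],[nat_lit 5,nat_lit 5,nat_lit 10],[nat_lit 5,
    nat_lit 5,nat_lit 11],[nat_lit 5,nat_lit 6,nat_lit 6],[nat_lit 5,nat_lit 6,nat_lit 7],[nat_lit 5,nat_lit 6,
    nat_lit 12],[nat_lit 5,nat_lit 7,nat_lit 6],[nat_lit 5,nat_lit 7,nat_lit 7],[nat_lit 5,nat_lit 7,nat_lit 12],
    [nat_lit 5,nat_lit 9,nat_lit 10],[nat_lit 5,nat_lit 9,nat_lit 11],[nat_lit 5,nat_lit 10,nat_lit 5],[nat_lit 5,
    nat_lit 10,nat_lit 8],[nat_lit 5,nat_lit 10,nat_lit 9],[nat_lit 5,nat_lit 11,nat_lit 5],[nat_lit 5,nat_lit 11,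
    nat_lit 8],[nat_lit 5,nat_lit 11,nat_lit 9],[nat_lit 5,nat_lit 12,nat_lit 12],[nat_lit 5,nat_lit 13,nat_lit 7],
    [nat_lit 5,nat_lit 13,nat_lit 12],[nat_lit 5,nat_lit 13,nat_lit 13],[nat_lit 6,nat_lit 6,nat_lit 8],[nat_lit 6,
    nat_lit 6,nat_lit 9],[nat_lit 6,nat_lit 7,nat_lit 8],[nat_lit 6,nat_lit 7,nat_lit 9],[nat_lit 6,nat_lit 8,
    nat_lit 6],[nat_lit 6,nat_lit 8,nat_lit 7],[nat_lit 6,nat_lit 8,nat_lit 12],[nat_lit 6,nat_lit 9,nat_lit 6],
    [nat_lit 6,nat_lit 9,nat_lit 7],[nat_lit 6,nat_lit 9,nat_lit 12],[nat_lit 6,nat_lit 12,nat_lit 9],[nat_lit 6,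
    nat_lit 13,nat_lit 8],[nat_lit 6,nat_lit 13,nat_lit 9],[nat_lit 7,nat_lit 7,nat_lit 8],[nat_lit 7,nat_lit 7,
    nat_lit 9],[nat_lit 7,nat_lit 8,nat_lit 7],[nat_lit 7,nat_lit 8,nat_lit 12],[nat_lit 7,nat_lit 8,nat_lit 13],
    [nat_lit 7,nat_lit 9,nat_lit 7],[nat_lit 7,nat_lit 9,nat_lit 12],[nat_lit 7,nat_lit 13,nat_lit 8],[nat_lit 7,
    nat_lit 13,nat_lit 9],[nat_lit 8,nat_lit 8,nat_lit 11],[nat_lit 8,nat_lit 11,nat_lit 8],[nat_lit 8,nat_lit 12,
    nat_lit 12],[nat_lit 8,nat_lit 13,nat_lit 13],[nat_lit 9,nat_lit 9,nat_lit 10],[nat_lit 9,nat_lit 10,nat_lit 9],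
    [nat_lit 9,nat_lit 12,nat_lit 12],[nat_lit 9,nat_lit 13,nat_lit 13],[nat_lit 10,nat_lit 14],[nat_lit 10,
    nat_lit 15],[nat_lit 11,nat_lit 14],[nat_lit 11,nat_lit 15]]
    [nat_lit 0x1025,nat_lit 0x1034,nat_lit 0x1038,nat_lit 0x1039,nat_lit 0x1042,nat_lit 0x1043,nat_lit 0x1053,
    nat_lit 262,nat_lit 263,nat_lit 0x1082,nat_lit 0x1092,nat_lit 0x1093,nat_lit 268,nat_lit 269,nat_lit 0x1124,
    nat_lit 0x1125,nat_lit 0x1128,nat_lit 0x1135,nat_lit 0x1138,nat_lit 0x1139,nat_lit 0x1143,nat_lit 0x1152,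
    nat_lit 278,nat_lit 279,nat_lit 0x1182,nat_lit 0x1192,nat_lit 284,nat_lit 285,nat_lit 0x122f9,nat_lit 0x1243e,
    nat_lit 0x1243f,nat_lit 0x1245d,nat_lit 0x1253e,nat_lit 0x1253f,nat_lit 0x125e3,nat_lit 0x126e,nat_lit 0x126f,
    nat_lit 0x127e,nat_lit 0x12e6,nat_lit 0x12e7,nat_lit 0x12ed,nat_lit 0x12f43,nat_lit 0x12f6,nat_lit 0x12f7,
    nat_lit 0x12f92,nat_lit 0x12fc,nat_lit 0x12fd,nat_lit 0x1338e,nat_lit 0x136e,nat_lit 0x136f,nat_lit 0x137e,
    nat_lit 0x137f,nat_lit 0x138e3,nat_lit 0x13c45,nat_lit 0x13ce,nat_lit 0x13cf,nat_lit 0x13de,nat_lit 0x13e7,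
    nat_lit 0x13f6,nat_lit 0x13f7,nat_lit 0x144a,nat_lit 0x144b,nat_lit 0x145a,nat_lit 0x145b,nat_lit 0x1466,
    nat_lit 0x1467,nat_lit 0x146c,nat_lit 0x1476,nat_lit 0x1477,nat_lit 0x148a,nat_lit 0x148b,nat_lit 0x149a,
    nat_lit 0x149b,nat_lit 0x14a4,nat_lit 0x14a5,nat_lit 0x14a8,nat_lit 0x14b4,nat_lit 0x14b5,nat_lit 0x14b8,
    nat_lit 0x14cc,nat_lit 0x14d6,nat_lit 0x14d7,nat_lit 0x14dc,nat_lit 0x14dd,nat_lit 0x155a,nat_lit 0x155b,
    nat_lit 0x1566,nat_lit 0x1567,nat_lit 0x156c,nat_lit 0x1576,nat_lit 0x1577,nat_lit 0x157c,nat_lit 0x159a,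
    nat_lit 0x159b,nat_lit 0x15a5,nat_lit 0x15a8,nat_lit 0x15a9,nat_lit 0x15b5,nat_lit 0x15b8,nat_lit 0x15b9,
    nat_lit 0x15cc,nat_lit 0x15d7,nat_lit 0x15dc,nat_lit 0x15dd,nat_lit 0x1668,nat_lit 0x1669,nat_lit 0x1678,
    nat_lit 0x1679,nat_lit 0x1686,nat_lit 0x1687,nat_lit 0x168c,nat_lit 0x1696,nat_lit 0x1697,nat_lit 0x169c,
    nat_lit 0x16c9,nat_lit 0x16d8,nat_lit 0x16d9,nat_lit 0x1778,nat_lit 0x1779,nat_lit 0x1787,nat_lit 0x178c,
    nat_lit 0x178d,nat_lit 0x1797,nat_lit 0x179c,nat_lit 0x17d8,nat_lit 0x17d9,nat_lit 0x188b,nat_lit 0x18b8,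
    nat_lit 0x18cc,nat_lit 0x18dd,nat_lit 0x199a,nat_lit 0x19a9,nat_lit 0x19cc,nat_lit 0x19dd,nat_lit 430,nat_lit 431,
    nat_lit 446,nat_lit 447]
    [[[nat_lit 0,nat_lit 2,nat_lit 5],[nat_lit 0,nat_lit 3,nat_lit 4],[nat_lit 0,nat_lit 3,nat_lit 8],[nat_lit 0,
    nat_lit 3,nat_lit 9],[nat_lit 0,nat_lit 4,nat_lit 2],[nat_lit 0,nat_lit 4,nat_lit 3],[nat_lit 0,nat_lit 5,
    nat_lit 3],[nat_lit 0,nat_lit 6],[nat_lit 0,nat_lit 7],[nat_lit 0,nat_lit 8,nat_lit 2],[nat_lit 0,nat_lit 9,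
    nat_lit 2],[nat_lit 0,nat_lit 9,nat_lit 3]],[[nat_lit 0,nat_lit 12],[nat_lit 0,nat_lit 13],[nat_lit 1,nat_lit 2,
    nat_lit 4],[nat_lit 1,nat_lit 2,nat_lit 5],[nat_lit 1,nat_lit 2,nat_lit 8],[nat_lit 1,nat_lit 3,nat_lit 5],
    [nat_lit 1,nat_lit 3,nat_lit 8],[nat_lit 1,nat_lit 3,nat_lit 9],[nat_lit 1,nat_lit 4,nat_lit 3],[nat_lit 1,
    nat_lit 5,nat_lit 2],[nat_lit 1,nat_lit 6],[nat_lit 1,nat_lit 7]],[[nat_lit 1,nat_lit 8,nat_lit 2],[nat_lit 1,
    nat_lit 9,nat_lit 2],[nat_lit 1,nat_lit 12],[nat_lit 1,nat_lit 13],[nat_lit 2,nat_lit 0,nat_lit 4],[nat_lit 2,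
    nat_lit 0,nat_lit 8],[nat_lit 2,nat_lit 0,nat_lit 9],[nat_lit 2,nat_lit 1,nat_lit 5],[nat_lit 2,nat_lit 1,
    nat_lit 8],[nat_lit 2,nat_lit 1,nat_lit 9],[nat_lit 2,nat_lit 2,nat_lit 15,nat_lit 9],[nat_lit 2,nat_lit 4,
    nat_lit 1]],[[nat_lit 2,nat_lit 4,nat_lit 3,nat_lit 14],[nat_lit 2,nat_lit 4,nat_lit 3,nat_lit 15],[nat_lit 2,
    nat_lit 4,nat_lit 5,nat_lit 13],[nat_lit 2,nat_lit 5,nat_lit 0],[nat_lit 2,nat_lit 5,nat_lit 1],[nat_lit 2,
    nat_lit 5,nat_lit 3,nat_lit 14],[nat_lit 2,nat_lit 5,nat_lit 3,nat_lit 15],[nat_lit 2,nat_lit 5,nat_lit 14,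
    nat_lit 3],[nat_lit 2,nat_lit 6,nat_lit 14],[nat_lit 2,nat_lit 6,nat_lit 15],[nat_lit 2,nat_lit 7,nat_lit 14],
    [nat_lit 2,nat_lit 8,nat_lit 1]],[[nat_lit 2,nat_lit 14,nat_lit 6],[nat_lit 2,nat_lit 14,nat_lit 7],[nat_lit 2,
    nat_lit 14,nat_lit 13],[nat_lit 2,nat_lit 15,nat_lit 4,nat_lit 3],[nat_lit 2,nat_lit 15,nat_lit 6],[nat_lit 2,
    nat_lit 15,nat_lit 7],[nat_lit 2,nat_lit 15,nat_lit 9,nat_lit 2],[nat_lit 2,nat_lit 15,nat_lit 12],[nat_lit 2,
    nat_lit 15,nat_lit 13],[nat_lit 3,nat_lit 0,nat_lit 4],[nat_lit 3,nat_lit 0,nat_lit 5],[nat_lit 3,nat_lit 0,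
    nat_lit 9]],[[nat_lit 3,nat_lit 1,nat_lit 4],[nat_lit 3,nat_lit 2,nat_lit 5,nat_lit 14],[nat_lit 3,nat_lit 2,
    nat_lit 15,nat_lit 4],[nat_lit 3,nat_lit 3,nat_lit 8,nat_lit 14],[nat_lit 3,nat_lit 4,nat_lit 0],[nat_lit 3,
    nat_lit 5,nat_lit 1],[nat_lit 3,nat_lit 6,nat_lit 14],[nat_lit 3,nat_lit 6,nat_lit 15],[nat_lit 3,nat_lit 7,
    nat_lit 14],[nat_lit 3,nat_lit 7,nat_lit 15],[nat_lit 3,nat_lit 8,nat_lit 0],[nat_lit 3,nat_lit 8,nat_lit 1]],
    [[nat_lit 3,nat_lit 8,nat_lit 14,nat_lit 3],[nat_lit 3,nat_lit 9,nat_lit 0],[nat_lit 3,nat_lit 9,nat_lit 1],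
    [nat_lit 3,nat_lit 12,nat_lit 4,nat_lit 5],[nat_lit 3,nat_lit 12,nat_lit 14],[nat_lit 3,nat_lit 12,nat_lit 15],
    [nat_lit 3,nat_lit 13,nat_lit 14],[nat_lit 3,nat_lit 14,nat_lit 2,nat_lit 4],[nat_lit 3,nat_lit 14,nat_lit 2,
    nat_lit 5],[nat_lit 3,nat_lit 14,nat_lit 7],[nat_lit 3,nat_lit 15,nat_lit 2,nat_lit 4],[nat_lit 3,nat_lit 15,
    nat_lit 2,nat_lit 5]],[[nat_lit 3,nat_lit 15,nat_lit 6],[nat_lit 3,nat_lit 15,nat_lit 7],[nat_lit 4,nat_lit 0,
    nat_lit 3],[nat_lit 4,nat_lit 1,nat_lit 2],[nat_lit 4,nat_lit 2,nat_lit 0],[nat_lit 4,nat_lit 3,nat_lit 0],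
    [nat_lit 4,nat_lit 3,nat_lit 1],[nat_lit 4,nat_lit 3,nat_lit 2,nat_lit 15],[nat_lit 4,nat_lit 3,nat_lit 14,
    nat_lit 2],[nat_lit 4,nat_lit 3,nat_lit 15,nat_lit 2],[nat_lit 4,nat_lit 4,nat_lit 10],[nat_lit 4,nat_lit 4,
    nat_lit 11]],[[nat_lit 4,nat_lit 5,nat_lit 3,nat_lit 12],[nat_lit 4,nat_lit 5,nat_lit 10],[nat_lit 4,nat_lit 5,
    nat_lit 11],[nat_lit 4,nat_lit 5,nat_lit 13,nat_lit 2],[nat_lit 4,nat_lit 6,nat_lit 6],[nat_lit 4,nat_lit 6,
    nat_lit 7],[nat_lit 4,nat_lit 6,nat_lit 12],[nat_lit 4,nat_lit 7,nat_lit 6],[nat_lit 4,nat_lit 7,nat_lit 7],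
    [nat_lit 4,nat_lit 8,nat_lit 10],[nat_lit 4,nat_lit 8,nat_lit 11],[nat_lit 4,nat_lit 9,nat_lit 10]],[[nat_lit 4,
    nat_lit 9,nat_lit 11],[nat_lit 4,nat_lit 10,nat_lit 4],[nat_lit 4,nat_lit 10,nat_lit 5],[nat_lit 4,nat_lit 10,
    nat_lit 8],[nat_lit 4,nat_lit 11,nat_lit 4],[nat_lit 4,nat_lit 11,nat_lit 5],[nat_lit 4,nat_lit 11,nat_lit 8],
    [nat_lit 4,nat_lit 12,nat_lit 12],[nat_lit 4,nat_lit 13,nat_lit 6],[nat_lit 4,nat_lit 13,nat_lit 7],[nat_lit 4,
    nat_lit 13,nat_lit 12],[nat_lit 4,nat_lit 13,nat_lit 13]],[[nat_lit 5,nat_lit 0,nat_lit 2],[nat_lit 5,nat_lit 1,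
    nat_lit 2],[nat_lit 5,nat_lit 1,nat_lit 3],[nat_lit 5,nat_lit 2,nat_lit 1],[nat_lit 5,nat_lit 3,nat_lit 0],
    [nat_lit 5,nat_lit 3,nat_lit 12,nat_lit 4],[nat_lit 5,nat_lit 3,nat_lit 14,nat_lit 2],[nat_lit 5,nat_lit 3,
    nat_lit 15,nat_lit 2],[nat_lit 5,nat_lit 4,nat_lit 10],[nat_lit 5,nat_lit 4,nat_lit 11],[nat_lit 5,nat_lit 5,
    nat_lit 10],[nat_lit 5,nat_lit 5,nat_lit 11]],[[nat_lit 5,nat_lit 6,nat_lit 6],[nat_lit 5,nat_lit 6,nat_lit 7],
    [nat_lit 5,nat_lit 6,nat_lit 12],[nat_lit 5,nat_lit 7,nat_lit 6],[nat_lit 5,nat_lit 7,nat_lit 7],[nat_lit 5,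
    nat_lit 7,nat_lit 12],[nat_lit 5,nat_lit 9,nat_lit 10],[nat_lit 5,nat_lit 9,nat_lit 11],[nat_lit 5,nat_lit 10,
    nat_lit 4],[nat_lit 5,nat_lit 10,nat_lit 5],[nat_lit 5,nat_lit 10,nat_lit 8],[nat_lit 5,nat_lit 10,nat_lit 9]],
    [[nat_lit 5,nat_lit 11,nat_lit 4],[nat_lit 5,nat_lit 11,nat_lit 5],[nat_lit 5,nat_lit 11,nat_lit 8],[nat_lit 5,
    nat_lit 11,nat_lit 9],[nat_lit 5,nat_lit 12,nat_lit 12],[nat_lit 5,nat_lit 13,nat_lit 2,nat_lit 4],[nat_lit 5,
    nat_lit 13,nat_lit 7],[nat_lit 5,nat_lit 13,nat_lit 12],[nat_lit 5,nat_lit 13,nat_lit 13],[nat_lit 5,nat_lit 14,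
    nat_lit 3,nat_lit 2],[nat_lit 6,nat_lit 0],[nat_lit 6,nat_lit 1]],[[nat_lit 6,nat_lit 2,nat_lit 14],[nat_lit 6,
    nat_lit 2,nat_lit 15],[nat_lit 6,nat_lit 3,nat_lit 15],[nat_lit 6,nat_lit 4,nat_lit 6],[nat_lit 6,nat_lit 4,
    nat_lit 7],[nat_lit 6,nat_lit 4,nat_lit 13],[nat_lit 6,nat_lit 5,nat_lit 6],[nat_lit 6,nat_lit 5,nat_lit 7],
    [nat_lit 6,nat_lit 6,nat_lit 4],[nat_lit 6,nat_lit 6,nat_lit 5],[nat_lit 6,nat_lit 6,nat_lit 8],[nat_lit 6,
    nat_lit 6,nat_lit 9]],[[nat_lit 6,nat_lit 7,nat_lit 4],[nat_lit 6,nat_lit 7,nat_lit 5],[nat_lit 6,nat_lit 7,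
    nat_lit 8],[nat_lit 6,nat_lit 7,nat_lit 9],[nat_lit 6,nat_lit 8,nat_lit 6],[nat_lit 6,nat_lit 8,nat_lit 7],
    [nat_lit 6,nat_lit 8,nat_lit 12],[nat_lit 6,nat_lit 9,nat_lit 6],[nat_lit 6,nat_lit 9,nat_lit 7],[nat_lit 6,
    nat_lit 9,nat_lit 12],[nat_lit 6,nat_lit 12,nat_lit 4],[nat_lit 6,nat_lit 12,nat_lit 5]],[[nat_lit 6,nat_lit 12,
    nat_lit 9],[nat_lit 6,nat_lit 13,nat_lit 8],[nat_lit 6,nat_lit 13,nat_lit 9],[nat_lit 6,nat_lit 14,nat_lit 2],
    [nat_lit 6,nat_lit 14,nat_lit 3],[nat_lit 6,nat_lit 15,nat_lit 2],[nat_lit 6,nat_lit 15,nat_lit 3],[nat_lit 7,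
    nat_lit 0],[nat_lit 7,nat_lit 1],[nat_lit 7,nat_lit 2,nat_lit 14],[nat_lit 7,nat_lit 2,nat_lit 15],[nat_lit 7,
    nat_lit 3,nat_lit 14]],[[nat_lit 7,nat_lit 3,nat_lit 15],[nat_lit 7,nat_lit 4,nat_lit 6],[nat_lit 7,nat_lit 4,
    nat_lit 7],[nat_lit 7,nat_lit 4,nat_lit 13],[nat_lit 7,nat_lit 5,nat_lit 6],[nat_lit 7,nat_lit 5,nat_lit 7],
    [nat_lit 7,nat_lit 5,nat_lit 13],[nat_lit 7,nat_lit 6,nat_lit 4],[nat_lit 7,nat_lit 6,nat_lit 5],[nat_lit 7,
    nat_lit 6,nat_lit 8],[nat_lit 7,nat_lit 6,nat_lit 9],[nat_lit 7,nat_lit 7,nat_lit 4]],[[nat_lit 7,nat_lit 7,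
    nat_lit 5],[nat_lit 7,nat_lit 7,nat_lit 8],[nat_lit 7,nat_lit 7,nat_lit 9],[nat_lit 7,nat_lit 8,nat_lit 6],
    [nat_lit 7,nat_lit 8,nat_lit 7],[nat_lit 7,nat_lit 8,nat_lit 12],[nat_lit 7,nat_lit 8,nat_lit 13],[nat_lit 7,
    nat_lit 9,nat_lit 6],[nat_lit 7,nat_lit 9,nat_lit 7],[nat_lit 7,nat_lit 9,nat_lit 12],[nat_lit 7,nat_lit 12,
    nat_lit 5],[nat_lit 7,nat_lit 13,nat_lit 8]],[[nat_lit 7,nat_lit 13,nat_lit 9],[nat_lit 7,nat_lit 14,nat_lit 2],
    [nat_lit 7,nat_lit 14,nat_lit 3],[nat_lit 7,nat_lit 15,nat_lit 3],[nat_lit 8,nat_lit 0,nat_lit 3],[nat_lit 8,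
    nat_lit 1,nat_lit 2],[nat_lit 8,nat_lit 1,nat_lit 3],[nat_lit 8,nat_lit 2,nat_lit 0],[nat_lit 8,nat_lit 2,
    nat_lit 1],[nat_lit 8,nat_lit 4,nat_lit 10],[nat_lit 8,nat_lit 4,nat_lit 11],[nat_lit 8,nat_lit 5,nat_lit 10]],
    [[nat_lit 8,nat_lit 5,nat_lit 11],[nat_lit 8,nat_lit 6,nat_lit 6],[nat_lit 8,nat_lit 6,nat_lit 7],[nat_lit 8,
    nat_lit 6,nat_lit 13],[nat_lit 8,nat_lit 7,nat_lit 6],[nat_lit 8,nat_lit 7,nat_lit 7],[nat_lit 8,nat_lit 7,
    nat_lit 13],[nat_lit 8,nat_lit 8,nat_lit 11],[nat_lit 8,nat_lit 10,nat_lit 4],[nat_lit 8,nat_lit 11,nat_lit 4],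
    [nat_lit 8,nat_lit 11,nat_lit 8],[nat_lit 8,nat_lit 12,nat_lit 6]],[[nat_lit 8,nat_lit 12,nat_lit 7],[nat_lit 8,
    nat_lit 12,nat_lit 12],[nat_lit 8,nat_lit 13,nat_lit 7],[nat_lit 8,nat_lit 13,nat_lit 13],[nat_lit 8,nat_lit 14,
    nat_lit 3,nat_lit 3],[nat_lit 9,nat_lit 0,nat_lit 3],[nat_lit 9,nat_lit 1,nat_lit 3],[nat_lit 9,nat_lit 2,
    nat_lit 0],[nat_lit 9,nat_lit 2,nat_lit 1],[nat_lit 9,nat_lit 2,nat_lit 2,nat_lit 15],[nat_lit 9,nat_lit 3,
    nat_lit 0],[nat_lit 9,nat_lit 5,nat_lit 10]],[[nat_lit 9,nat_lit 5,nat_lit 11],[nat_lit 9,nat_lit 6,nat_lit 6],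
    [nat_lit 9,nat_lit 6,nat_lit 7],[nat_lit 9,nat_lit 6,nat_lit 12],[nat_lit 9,nat_lit 6,nat_lit 13],[nat_lit 9,
    nat_lit 7,nat_lit 6],[nat_lit 9,nat_lit 7,nat_lit 7],[nat_lit 9,nat_lit 7,nat_lit 13],[nat_lit 9,nat_lit 9,
    nat_lit 10],[nat_lit 9,nat_lit 10,nat_lit 4],[nat_lit 9,nat_lit 10,nat_lit 5],[nat_lit 9,nat_lit 10,nat_lit 9]],
    [[nat_lit 9,nat_lit 11,nat_lit 4],[nat_lit 9,nat_lit 11,nat_lit 5],[nat_lit 9,nat_lit 12,nat_lit 6],[nat_lit 9,
    nat_lit 12,nat_lit 7],[nat_lit 9,nat_lit 12,nat_lit 12],[nat_lit 9,nat_lit 13,nat_lit 13],[nat_lit 10,nat_lit 4,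
    nat_lit 4],[nat_lit 10,nat_lit 4,nat_lit 5],[nat_lit 10,nat_lit 4,nat_lit 8],[nat_lit 10,nat_lit 4,nat_lit 9],
    [nat_lit 10,nat_lit 5,nat_lit 4],[nat_lit 10,nat_lit 5,nat_lit 5]],[[nat_lit 10,nat_lit 5,nat_lit 9],[nat_lit 10,
    nat_lit 8,nat_lit 4],[nat_lit 10,nat_lit 8,nat_lit 5],[nat_lit 10,nat_lit 9,nat_lit 5],[nat_lit 10,nat_lit 9,
    nat_lit 9],[nat_lit 10,nat_lit 14],[nat_lit 10,nat_lit 15],[nat_lit 11,nat_lit 4,nat_lit 4],[nat_lit 11,nat_lit 4,
    nat_lit 5],[nat_lit 11,nat_lit 4,nat_lit 8],[nat_lit 11,nat_lit 4,nat_lit 9],[nat_lit 11,nat_lit 5,nat_lit 4]],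
    [[nat_lit 11,nat_lit 5,nat_lit 5],[nat_lit 11,nat_lit 5,nat_lit 9],[nat_lit 11,nat_lit 8,nat_lit 4],[nat_lit 11,
    nat_lit 8,nat_lit 5],[nat_lit 11,nat_lit 8,nat_lit 8],[nat_lit 11,nat_lit 9,nat_lit 5],[nat_lit 11,nat_lit 14],
    [nat_lit 11,nat_lit 15],[nat_lit 12,nat_lit 0],[nat_lit 12,nat_lit 1],[nat_lit 12,nat_lit 2,nat_lit 15],
    [nat_lit 12,nat_lit 4,nat_lit 5,nat_lit 3]],[[nat_lit 12,nat_lit 4,nat_lit 6],[nat_lit 12,nat_lit 4,nat_lit 12],
    [nat_lit 12,nat_lit 4,nat_lit 13],[nat_lit 12,nat_lit 5,nat_lit 6],[nat_lit 12,nat_lit 5,nat_lit 7],[nat_lit 12,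
    nat_lit 5,nat_lit 12],[nat_lit 12,nat_lit 5,nat_lit 13],[nat_lit 12,nat_lit 6,nat_lit 8],[nat_lit 12,nat_lit 6,
    nat_lit 9],[nat_lit 12,nat_lit 7,nat_lit 8],[nat_lit 12,nat_lit 7,nat_lit 9],[nat_lit 12,nat_lit 8,nat_lit 12]],
    [[nat_lit 12,nat_lit 9,nat_lit 6],[nat_lit 12,nat_lit 9,nat_lit 12],[nat_lit 12,nat_lit 12,nat_lit 4],[nat_lit 12,
    nat_lit 12,nat_lit 5],[nat_lit 12,nat_lit 12,nat_lit 8],[nat_lit 12,nat_lit 12,nat_lit 9],[nat_lit 12,nat_lit 14,
    nat_lit 3],[nat_lit 12,nat_lit 15,nat_lit 3],[nat_lit 13,nat_lit 0],[nat_lit 13,nat_lit 1],[nat_lit 13,nat_lit 2,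
    nat_lit 4,nat_lit 5],[nat_lit 13,nat_lit 2,nat_lit 14]],[[nat_lit 13,nat_lit 2,nat_lit 15],[nat_lit 13,nat_lit 4,
    nat_lit 13],[nat_lit 13,nat_lit 5,nat_lit 13],[nat_lit 13,nat_lit 6,nat_lit 4],[nat_lit 13,nat_lit 7,nat_lit 4],
    [nat_lit 13,nat_lit 7,nat_lit 5],[nat_lit 13,nat_lit 7,nat_lit 8],[nat_lit 13,nat_lit 8,nat_lit 6],[nat_lit 13,
    nat_lit 8,nat_lit 7],[nat_lit 13,nat_lit 8,nat_lit 13],[nat_lit 13,nat_lit 9,nat_lit 6],[nat_lit 13,nat_lit 9,
    nat_lit 7]],[[nat_lit 13,nat_lit 9,nat_lit 13],[nat_lit 13,nat_lit 12,nat_lit 4],[nat_lit 13,nat_lit 12,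
    nat_lit 5],[nat_lit 13,nat_lit 13,nat_lit 4],[nat_lit 13,nat_lit 13,nat_lit 5],[nat_lit 13,nat_lit 13,nat_lit 8],
    [nat_lit 13,nat_lit 13,nat_lit 9],[nat_lit 13,nat_lit 14,nat_lit 3],[nat_lit 14,nat_lit 2,nat_lit 4,nat_lit 3],
    [nat_lit 14,nat_lit 2,nat_lit 5,nat_lit 3],[nat_lit 14,nat_lit 2,nat_lit 6],[nat_lit 14,nat_lit 2,nat_lit 7]],
    [[nat_lit 14,nat_lit 3,nat_lit 2,nat_lit 5],[nat_lit 14,nat_lit 3,nat_lit 3,nat_lit 8],[nat_lit 14,nat_lit 3,
    nat_lit 6],[nat_lit 14,nat_lit 3,nat_lit 7],[nat_lit 14,nat_lit 3,nat_lit 12],[nat_lit 14,nat_lit 3,nat_lit 13],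
    [nat_lit 14,nat_lit 6,nat_lit 2],[nat_lit 14,nat_lit 7,nat_lit 2],[nat_lit 14,nat_lit 7,nat_lit 3],[nat_lit 14,
    nat_lit 10],[nat_lit 14,nat_lit 11],[nat_lit 14,nat_lit 13,nat_lit 2]],[[nat_lit 15,nat_lit 2,nat_lit 4,
    nat_lit 3],[nat_lit 15,nat_lit 2,nat_lit 5,nat_lit 3],[nat_lit 15,nat_lit 2,nat_lit 6],[nat_lit 15,nat_lit 3,
    nat_lit 6],[nat_lit 15,nat_lit 3,nat_lit 7],[nat_lit 15,nat_lit 3,nat_lit 12],[nat_lit 15,nat_lit 4,nat_lit 3,
    nat_lit 2],[nat_lit 15,nat_lit 6,nat_lit 2],[nat_lit 15,nat_lit 6,nat_lit 3],[nat_lit 15,nat_lit 7,nat_lit 2],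
    [nat_lit 15,nat_lit 7,nat_lit 3],[nat_lit 15,nat_lit 9,nat_lit 2,nat_lit 2]],[[nat_lit 15,nat_lit 10],[nat_lit 15,
    nat_lit 11],[nat_lit 15,nat_lit 12,nat_lit 2],[nat_lit 15,nat_lit 13,nat_lit 2]]]
    [[nat_lit 39,nat_lit 64,nat_lit 70,nat_lit 73,nat_lit 88,nat_lit 89,nat_lit 124,nat_lit 154,nat_lit 187,
    nat_lit 223,nat_lit 247,nat_lit 250],[nat_lit 296,nat_lit 320,nat_lit 35,nat_lit 40,nat_lit 47,nat_lit 65,
    nat_lit 71,nat_lit 74,nat_lit 90,nat_lit 123,nat_lit 155,nat_lit 188],[nat_lit 224,nat_lit 248,nat_lit 297,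
    nat_lit 321,nat_lit 4,nat_lit 9,nat_lit 10,nat_lit 21,nat_lit 24,nat_lit 25,nat_lit 54,nat_lit 87],[nat_lit 92,
    nat_lit 93,nat_lit 99,nat_lit 120,nat_lit 121,nat_lit 126,nat_lit 127,nat_lit 153,nat_lit 183,nat_lit 185,
    nat_lit 217,nat_lit 221],[nat_lit 354,nat_lit 355,nat_lit 359,nat_lit 366,nat_lit 367,nat_lit 369,nat_lit 371,
    nat_lit 374,nat_lit 375,nat_lit 5,nat_lit 6,nat_lit 11],[nat_lit 20,nat_lit 43,nat_lit 51,nat_lit 72,nat_lit 86,
    nat_lit 122,nat_lit 184,nat_lit 186,nat_lit 218,nat_lit 219,nat_lit 220,nat_lit 222],[nat_lit 244,nat_lit 245,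
    nat_lit 246,nat_lit 299,nat_lit 318,nat_lit 319,nat_lit 343,nat_lit 344,nat_lit 345,nat_lit 356,nat_lit 360,
    nat_lit 361],[nat_lit 368,nat_lit 370,nat_lit 1,nat_lit 14,nat_lit 28,nat_lit 57,nat_lit 60,nat_lit 62,nat_lit 79,
    nat_lit 82,nat_lit 109,nat_lit 112],[nat_lit 125,nat_lit 140,nat_lit 144,nat_lit 149,nat_lit 164,nat_lit 168,
    nat_lit 178,nat_lit 199,nat_lit 203,nat_lit 236,nat_lit 237,nat_lit 261],[nat_lit 264,nat_lit 270,nat_lit 274,
    nat_lit 277,nat_lit 283,nat_lit 287,nat_lit 290,nat_lit 314,nat_lit 327,nat_lit 328,nat_lit 337,nat_lit 339],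
    [nat_lit 0,nat_lit 15,nat_lit 17,nat_lit 31,nat_lit 58,nat_lit 75,nat_lit 80,nat_lit 83,nat_lit 110,nat_lit 113,
    nat_lit 141,nat_lit 145],[nat_lit 165,nat_lit 169,nat_lit 179,nat_lit 200,nat_lit 204,nat_lit 214,nat_lit 262,
    nat_lit 265,nat_lit 271,nat_lit 275,nat_lit 278,nat_lit 279],[nat_lit 284,nat_lit 288,nat_lit 291,nat_lit 293,
    nat_lit 315,nat_lit 322,nat_lit 329,nat_lit 338,nat_lit 340,nat_lit 348,nat_lit 7,nat_lit 22],[nat_lit 48,
    nat_lit 52,nat_lit 84,nat_lit 100,nat_lit 103,nat_lit 116,nat_lit 132,nat_lit 135,nat_lit 159,nat_lit 162,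
    nat_lit 172,nat_lit 175],[nat_lit 193,nat_lit 196,nat_lit 207,nat_lit 211,nat_lit 229,nat_lit 232,nat_lit 239,
    nat_lit 253,nat_lit 257,nat_lit 266,nat_lit 300,nat_lit 303],[nat_lit 312,nat_lit 331,nat_lit 334,nat_lit 346,
    nat_lit 350,nat_lit 362,nat_lit 363,nat_lit 8,nat_lit 23,nat_lit 49,nat_lit 53,nat_lit 81],[nat_lit 85,
    nat_lit 101,nat_lit 104,nat_lit 117,nat_lit 133,nat_lit 136,nat_lit 150,nat_lit 160,nat_lit 163,nat_lit 173,
    nat_lit 176,nat_lit 194],[nat_lit 197,nat_lit 208,nat_lit 212,nat_lit 230,nat_lit 233,nat_lit 240,nat_lit 242,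
    nat_lit 254,nat_lit 258,nat_lit 267,nat_lit 304,nat_lit 332],[nat_lit 335,nat_lit 347,nat_lit 351,nat_lit 364,
    nat_lit 2,nat_lit 16,nat_lit 18,nat_lit 29,nat_lit 32,nat_lit 111,nat_lit 114,nat_lit 142],[nat_lit 146,
    nat_lit 166,nat_lit 170,nat_lit 181,nat_lit 201,nat_lit 205,nat_lit 215,nat_lit 238,nat_lit 272,nat_lit 285,
    nat_lit 292,nat_lit 307],[nat_lit 309,nat_lit 316,nat_lit 330,nat_lit 341,nat_lit 349,nat_lit 3,nat_lit 19,
    nat_lit 30,nat_lit 33,nat_lit 34,nat_lit 59,nat_lit 143],[nat_lit 147,nat_lit 167,nat_lit 171,nat_lit 180,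
    nat_lit 182,nat_lit 202,nat_lit 206,nat_lit 216,nat_lit 263,nat_lit 273,nat_lit 276,nat_lit 280],[nat_lit 286,
    nat_lit 289,nat_lit 308,nat_lit 310,nat_lit 317,nat_lit 342,nat_lit 94,nat_lit 97,nat_lit 105,nat_lit 107,
    nat_lit 128,nat_lit 130],[nat_lit 138,nat_lit 225,nat_lit 227,nat_lit 251,nat_lit 260,nat_lit 357,nat_lit 372,
    nat_lit 95,nat_lit 98,nat_lit 106,nat_lit 108,nat_lit 129],[nat_lit 131,nat_lit 139,nat_lit 226,nat_lit 228,
    nat_lit 235,nat_lit 252,nat_lit 358,nat_lit 373,nat_lit 12,nat_lit 26,nat_lit 55,nat_lit 96],[nat_lit 102,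
    nat_lit 115,nat_lit 118,nat_lit 134,nat_lit 137,nat_lit 148,nat_lit 151,nat_lit 174,nat_lit 177,nat_lit 209,
    nat_lit 213,nat_lit 241],[nat_lit 255,nat_lit 268,nat_lit 301,nat_lit 305,nat_lit 311,nat_lit 313,nat_lit 352,
    nat_lit 365,nat_lit 13,nat_lit 27,nat_lit 38,nat_lit 50],[nat_lit 56,nat_lit 119,nat_lit 152,nat_lit 161,
    nat_lit 195,nat_lit 198,nat_lit 210,nat_lit 231,nat_lit 234,nat_lit 243,nat_lit 256,nat_lit 259],[nat_lit 269,
    nat_lit 302,nat_lit 306,nat_lit 325,nat_lit 326,nat_lit 333,nat_lit 336,nat_lit 353,nat_lit 36,nat_lit 41,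
    nat_lit 44,nat_lit 46],[nat_lit 61,nat_lit 63,nat_lit 66,nat_lit 68,nat_lit 76,nat_lit 78,nat_lit 156,nat_lit 189,
    nat_lit 191,nat_lit 281,nat_lit 294,nat_lit 323],[nat_lit 37,nat_lit 42,nat_lit 45,nat_lit 67,nat_lit 69,
    nat_lit 77,nat_lit 91,nat_lit 157,nat_lit 158,nat_lit 190,nat_lit 192,nat_lit 249],[nat_lit 282,nat_lit 295,
    nat_lit 298,nat_lit 324]]
    [[nat_lit 120,nat_lit 86,nat_lit 220,nat_lit 245,nat_lit 28,nat_lit 57,nat_lit 58,nat_lit 154,nat_lit 187,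
    nat_lit 29,nat_lit 30,nat_lit 59],[nat_lit 296,nat_lit 320,nat_lit 87,nat_lit 121,nat_lit 221,nat_lit 122,
    nat_lit 222,nat_lit 246,nat_lit 60,nat_lit 31,nat_lit 155,nat_lit 188],[nat_lit 32,nat_lit 33,nat_lit 297,
    nat_lit 321,nat_lit 88,nat_lit 223,nat_lit 247,nat_lit 123,nat_lit 224,nat_lit 248,nat_lit 249,nat_lit 14],
    [nat_lit 344,nat_lit 360,nat_lit 322,nat_lit 0,nat_lit 15,nat_lit 345,nat_lit 361,nat_lit 61,nat_lit 346,
    nat_lit 362,nat_lit 347,nat_lit 16],[nat_lit 156,nat_lit 189,nat_lit 323,nat_lit 62,nat_lit 157,nat_lit 190,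
    nat_lit 34,nat_lit 298,nat_lit 324,nat_lit 89,nat_lit 124,nat_lit 250],[nat_lit 90,nat_lit 348,nat_lit 91,
    nat_lit 349,nat_lit 1,nat_lit 17,nat_lit 350,nat_lit 363,nat_lit 351,nat_lit 364,nat_lit 2,nat_lit 18],
    [nat_lit 63,nat_lit 3,nat_lit 19,nat_lit 125,nat_lit 352,nat_lit 365,nat_lit 353,nat_lit 92,nat_lit 126,
    nat_lit 191,nat_lit 93,nat_lit 127],[nat_lit 158,nat_lit 192,nat_lit 64,nat_lit 35,nat_lit 4,nat_lit 5,nat_lit 20,
    nat_lit 366,nat_lit 36,nat_lit 37,nat_lit 270,nat_lit 283],[nat_lit 299,nat_lit 271,nat_lit 284,nat_lit 38,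
    nat_lit 159,nat_lit 193,nat_lit 300,nat_lit 160,nat_lit 194,nat_lit 272,nat_lit 285,nat_lit 273],[nat_lit 286,
    nat_lit 94,nat_lit 128,nat_lit 225,nat_lit 95,nat_lit 129,nat_lit 226,nat_lit 301,nat_lit 161,nat_lit 195,
    nat_lit 302,nat_lit 325],[nat_lit 39,nat_lit 40,nat_lit 65,nat_lit 21,nat_lit 6,nat_lit 96,nat_lit 41,nat_lit 42,
    nat_lit 274,nat_lit 287,nat_lit 275,nat_lit 288],[nat_lit 162,nat_lit 196,nat_lit 303,nat_lit 163,nat_lit 197,
    nat_lit 304,nat_lit 276,nat_lit 289,nat_lit 97,nat_lit 130,nat_lit 227,nat_lit 251],[nat_lit 98,nat_lit 131,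
    nat_lit 228,nat_lit 252,nat_lit 305,nat_lit 99,nat_lit 198,nat_lit 306,nat_lit 326,nat_lit 43,nat_lit 7,
    nat_lit 22],[nat_lit 354,nat_lit 367,nat_lit 368,nat_lit 164,nat_lit 199,nat_lit 327,nat_lit 165,nat_lit 200,
    nat_lit 100,nat_lit 132,nat_lit 229,nat_lit 253],[nat_lit 101,nat_lit 133,nat_lit 230,nat_lit 254,nat_lit 166,
    nat_lit 201,nat_lit 307,nat_lit 167,nat_lit 202,nat_lit 308,nat_lit 102,nat_lit 134],[nat_lit 255,nat_lit 231,
    nat_lit 256,nat_lit 44,nat_lit 66,nat_lit 45,nat_lit 67,nat_lit 8,nat_lit 23,nat_lit 355,nat_lit 369,nat_lit 356],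
    [nat_lit 370,nat_lit 168,nat_lit 203,nat_lit 328,nat_lit 169,nat_lit 204,nat_lit 329,nat_lit 103,nat_lit 135,
    nat_lit 232,nat_lit 257,nat_lit 104],[nat_lit 136,nat_lit 233,nat_lit 258,nat_lit 170,nat_lit 205,nat_lit 309,
    nat_lit 330,nat_lit 171,nat_lit 206,nat_lit 310,nat_lit 137,nat_lit 234],[nat_lit 259,nat_lit 46,nat_lit 68,
    nat_lit 69,nat_lit 70,nat_lit 47,nat_lit 71,nat_lit 9,nat_lit 24,nat_lit 277,nat_lit 290,nat_lit 278],
    [nat_lit 291,nat_lit 172,nat_lit 207,nat_lit 331,nat_lit 173,nat_lit 208,nat_lit 332,nat_lit 292,nat_lit 105,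
    nat_lit 106,nat_lit 235,nat_lit 174],[nat_lit 209,nat_lit 311,nat_lit 210,nat_lit 333,nat_lit 72,nat_lit 73,
    nat_lit 74,nat_lit 10,nat_lit 25,nat_lit 371,nat_lit 11,nat_lit 279],[nat_lit 293,nat_lit 175,nat_lit 211,
    nat_lit 312,nat_lit 334,nat_lit 176,nat_lit 212,nat_lit 335,nat_lit 280,nat_lit 107,nat_lit 138,nat_lit 260],
    [nat_lit 108,nat_lit 139,nat_lit 177,nat_lit 213,nat_lit 313,nat_lit 336,nat_lit 109,nat_lit 140,nat_lit 236,
    nat_lit 261,nat_lit 110,nat_lit 141],[nat_lit 262,nat_lit 111,nat_lit 142,nat_lit 143,nat_lit 263,nat_lit 357,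
    nat_lit 372,nat_lit 112,nat_lit 144,nat_lit 237,nat_lit 264,nat_lit 113],[nat_lit 145,nat_lit 265,nat_lit 114,
    nat_lit 146,nat_lit 238,nat_lit 147,nat_lit 358,nat_lit 373,nat_lit 12,nat_lit 26,nat_lit 374,nat_lit 75],
    [nat_lit 178,nat_lit 314,nat_lit 337,nat_lit 179,nat_lit 214,nat_lit 315,nat_lit 338,nat_lit 239,nat_lit 266,
    nat_lit 240,nat_lit 267,nat_lit 316],[nat_lit 180,nat_lit 317,nat_lit 115,nat_lit 148,nat_lit 241,nat_lit 268,
    nat_lit 76,nat_lit 77,nat_lit 13,nat_lit 27,nat_lit 149,nat_lit 359],[nat_lit 375,nat_lit 339,nat_lit 340,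
    nat_lit 116,nat_lit 117,nat_lit 150,nat_lit 242,nat_lit 181,nat_lit 215,nat_lit 341,nat_lit 182,nat_lit 216],
    [nat_lit 342,nat_lit 118,nat_lit 151,nat_lit 119,nat_lit 152,nat_lit 243,nat_lit 269,nat_lit 78,nat_lit 79,
    nat_lit 80,nat_lit 183,nat_lit 217],[nat_lit 153,nat_lit 244,nat_lit 184,nat_lit 218,nat_lit 318,nat_lit 343,
    nat_lit 48,nat_lit 49,nat_lit 81,nat_lit 281,nat_lit 294,nat_lit 50],[nat_lit 82,nat_lit 83,nat_lit 185,
    nat_lit 186,nat_lit 219,nat_lit 319,nat_lit 51,nat_lit 52,nat_lit 84,nat_lit 53,nat_lit 85,nat_lit 54],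
    [nat_lit 282,nat_lit 295,nat_lit 55,nat_lit 56]]
    [[[],[],[],[],[nat_lit 346,nat_lit 350],[nat_lit 346,nat_lit 350],[nat_lit 344,nat_lit 345,nat_lit 356],
    [nat_lit 349],[nat_lit 348],[nat_lit 357],[nat_lit 347,nat_lit 351],[nat_lit 347,nat_lit 351]],[[],[nat_lit 358],
    [nat_lit 57,nat_lit 60,nat_lit 62,nat_lit 79,nat_lit 82],[nat_lit 57,nat_lit 60,nat_lit 62,nat_lit 79,nat_lit 82],
    [nat_lit 57,nat_lit 60,nat_lit 62,nat_lit 79,nat_lit 82],[nat_lit 65,nat_lit 71,nat_lit 74],[nat_lit 65,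
    nat_lit 71,nat_lit 74],[nat_lit 65,nat_lit 71,nat_lit 74],[nat_lit 84],[nat_lit 72],[],[nat_lit 58,nat_lit 75,
    nat_lit 80,nat_lit 83]],[[],[nat_lit 81,nat_lit 85],[nat_lit 61,nat_lit 63,nat_lit 66,nat_lit 68,nat_lit 76,
    nat_lit 78],[],[nat_lit 4,nat_lit 9,nat_lit 10],[nat_lit 4,nat_lit 9,nat_lit 10],[nat_lit 4,nat_lit 9,nat_lit 10],
    [],[],[],[nat_lit 1],[nat_lit 7]],[[nat_lit 7],[nat_lit 7],[nat_lit 7],[nat_lit 5,nat_lit 6,nat_lit 11],
    [nat_lit 5,nat_lit 6,nat_lit 11],[nat_lit 5,nat_lit 6,nat_lit 11],[nat_lit 5,nat_lit 6,nat_lit 11],[nat_lit 5,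
    nat_lit 6,nat_lit 11],[nat_lit 2],[nat_lit 2],[nat_lit 0],[]],[[],[],[],[nat_lit 13],[nat_lit 13],[nat_lit 13],
    [nat_lit 13],[nat_lit 13],[nat_lit 13],[nat_lit 120,nat_lit 121,nat_lit 126,nat_lit 127,nat_lit 153],[nat_lit 120,
    nat_lit 121,nat_lit 126,nat_lit 127,nat_lit 153],[nat_lit 120,nat_lit 121,nat_lit 126,nat_lit 127,nat_lit 153]],
    [[],[nat_lit 125,nat_lit 140,nat_lit 144,nat_lit 149],[nat_lit 125,nat_lit 140,nat_lit 144,nat_lit 149],
    [nat_lit 123],[nat_lit 132,nat_lit 135],[nat_lit 122],[nat_lit 142,nat_lit 146],[nat_lit 142,nat_lit 146],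
    [nat_lit 141,nat_lit 145],[nat_lit 141,nat_lit 145],[nat_lit 128,nat_lit 130,nat_lit 138],[nat_lit 128,
    nat_lit 130,nat_lit 138]],[[nat_lit 128,nat_lit 130,nat_lit 138],[nat_lit 133,nat_lit 136,nat_lit 150],
    [nat_lit 133,nat_lit 136,nat_lit 150],[],[],[],[nat_lit 129,nat_lit 131,nat_lit 139],[nat_lit 124],[nat_lit 124],
    [nat_lit 124],[nat_lit 152],[nat_lit 152]],[[nat_lit 152],[nat_lit 152],[nat_lit 54],[nat_lit 37,nat_lit 42,
    nat_lit 45],[nat_lit 28],[nat_lit 35,nat_lit 40,nat_lit 47],[nat_lit 35,nat_lit 40,nat_lit 47],[nat_lit 35,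
    nat_lit 40,nat_lit 47],[nat_lit 35,nat_lit 40,nat_lit 47],[nat_lit 35,nat_lit 40,nat_lit 47],[nat_lit 48,
    nat_lit 52],[nat_lit 48,nat_lit 52]],[[nat_lit 43,nat_lit 51],[nat_lit 43,nat_lit 51],[nat_lit 43,nat_lit 51],
    [nat_lit 43,nat_lit 51],[nat_lit 29,nat_lit 32],[nat_lit 29,nat_lit 32],[nat_lit 29,nat_lit 32],[nat_lit 31],
    [nat_lit 31],[],[],[nat_lit 49,nat_lit 53]],[[nat_lit 49,nat_lit 53],[nat_lit 55],[nat_lit 55],[nat_lit 55],
    [nat_lit 30,nat_lit 33,nat_lit 34],[nat_lit 30,nat_lit 33,nat_lit 34],[nat_lit 30,nat_lit 33,nat_lit 34],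
    [nat_lit 36,nat_lit 41,nat_lit 44,nat_lit 46],[],[],[],[]],[[nat_lit 217],[nat_lit 190,nat_lit 192],[nat_lit 190,
    nat_lit 192],[nat_lit 199,nat_lit 203],[nat_lit 188],[nat_lit 188],[nat_lit 188],[nat_lit 188],[nat_lit 193,
    nat_lit 196,nat_lit 207,nat_lit 211],[nat_lit 193,nat_lit 196,nat_lit 207,nat_lit 211],[nat_lit 218,nat_lit 219],
    [nat_lit 218,nat_lit 219]],[[nat_lit 201,nat_lit 205,nat_lit 215],[nat_lit 201,nat_lit 205,nat_lit 215],
    [nat_lit 201,nat_lit 205,nat_lit 215],[nat_lit 200,nat_lit 204,nat_lit 214],[nat_lit 200,nat_lit 204,nat_lit 214],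
    [nat_lit 200,nat_lit 204,nat_lit 214],[nat_lit 194,nat_lit 197,nat_lit 208,nat_lit 212],[nat_lit 194,nat_lit 197,
    nat_lit 208,nat_lit 212],[nat_lit 209,nat_lit 213],[nat_lit 209,nat_lit 213],[nat_lit 209,nat_lit 213],
    [nat_lit 209,nat_lit 213]],[[nat_lit 202,nat_lit 206,nat_lit 216],[nat_lit 202,nat_lit 206,nat_lit 216],
    [nat_lit 202,nat_lit 206,nat_lit 216],[nat_lit 202,nat_lit 206,nat_lit 216],[nat_lit 189,nat_lit 191],[],[],[],[],
    [nat_lit 187],[nat_lit 87,nat_lit 92,nat_lit 93,nat_lit 99],[nat_lit 91]],[[nat_lit 109,nat_lit 112],[nat_lit 109,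
    nat_lit 112],[nat_lit 90],[nat_lit 100,nat_lit 103,nat_lit 116],[nat_lit 100,nat_lit 103,nat_lit 116],
    [nat_lit 100,nat_lit 103,nat_lit 116],[nat_lit 86],[nat_lit 86],[nat_lit 111,nat_lit 114],[nat_lit 111,
    nat_lit 114],[nat_lit 111,nat_lit 114],[nat_lit 111,nat_lit 114]],[[nat_lit 110,nat_lit 113],[nat_lit 110,
    nat_lit 113],[nat_lit 110,nat_lit 113],[nat_lit 110,nat_lit 113],[nat_lit 94,nat_lit 97,nat_lit 105,nat_lit 107],
    [nat_lit 94,nat_lit 97,nat_lit 105,nat_lit 107],[nat_lit 94,nat_lit 97,nat_lit 105,nat_lit 107],[nat_lit 101,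
    nat_lit 104,nat_lit 117],[nat_lit 101,nat_lit 104,nat_lit 117],[nat_lit 101,nat_lit 104,nat_lit 117],[],[]],[[],
    [nat_lit 95,nat_lit 98,nat_lit 106,nat_lit 108],[nat_lit 95,nat_lit 98,nat_lit 106,nat_lit 108],[nat_lit 88,
    nat_lit 89],[nat_lit 88,nat_lit 89],[nat_lit 119],[nat_lit 119],[],[nat_lit 249],[nat_lit 261,nat_lit 264],
    [nat_lit 261,nat_lit 264],[nat_lit 248]],[[nat_lit 248],[nat_lit 253,nat_lit 257,nat_lit 266],[nat_lit 253,
    nat_lit 257,nat_lit 266],[nat_lit 253,nat_lit 257,nat_lit 266],[nat_lit 245,nat_lit 246],[nat_lit 245,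
    nat_lit 246],[nat_lit 245,nat_lit 246],[],[],[],[],[nat_lit 262,nat_lit 265]],[[nat_lit 262,nat_lit 265],
    [nat_lit 262,nat_lit 265],[nat_lit 262,nat_lit 265],[nat_lit 251,nat_lit 260],[nat_lit 251,nat_lit 260],
    [nat_lit 251,nat_lit 260],[nat_lit 251,nat_lit 260],[nat_lit 254,nat_lit 258,nat_lit 267],[nat_lit 254,
    nat_lit 258,nat_lit 267],[nat_lit 254,nat_lit 258,nat_lit 267],[],[nat_lit 252]],[[nat_lit 252],[nat_lit 247,
    nat_lit 250],[nat_lit 247,nat_lit 250],[nat_lit 256,nat_lit 259,nat_lit 269],[nat_lit 183,nat_lit 185],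
    [nat_lit 157,nat_lit 158],[nat_lit 157,nat_lit 158],[nat_lit 164,nat_lit 168,nat_lit 178],[nat_lit 164,
    nat_lit 168,nat_lit 178],[nat_lit 159,nat_lit 162,nat_lit 172,nat_lit 175],[nat_lit 159,nat_lit 162,nat_lit 172,
    nat_lit 175],[nat_lit 184,nat_lit 186]],[[nat_lit 184,nat_lit 186],[nat_lit 166,nat_lit 170,nat_lit 181],
    [nat_lit 166,nat_lit 170,nat_lit 181],[nat_lit 166,nat_lit 170,nat_lit 181],[nat_lit 165,nat_lit 169,nat_lit 179],
    [nat_lit 165,nat_lit 169,nat_lit 179],[nat_lit 165,nat_lit 169,nat_lit 179],[],[nat_lit 174,nat_lit 177],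
    [nat_lit 167,nat_lit 171,nat_lit 180,nat_lit 182],[nat_lit 167,nat_lit 171,nat_lit 180,nat_lit 182],
    [nat_lit 156]],[[nat_lit 156],[nat_lit 156],[],[],[nat_lit 154],[],[nat_lit 295],[nat_lit 283,nat_lit 287,
    nat_lit 290],[nat_lit 283,nat_lit 287,nat_lit 290],[nat_lit 283,nat_lit 287,nat_lit 290],[],[]],[[],[nat_lit 285,
    nat_lit 292],[nat_lit 285,nat_lit 292],[nat_lit 285,nat_lit 292],[nat_lit 285,nat_lit 292],[nat_lit 284,
    nat_lit 288,nat_lit 291,nat_lit 293],[nat_lit 284,nat_lit 288,nat_lit 291,nat_lit 293],[nat_lit 284,nat_lit 288,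
    nat_lit 291,nat_lit 293],[],[],[],[]],[[nat_lit 286,nat_lit 289],[nat_lit 286,nat_lit 289],[nat_lit 294],
    [nat_lit 294],[nat_lit 294],[],[nat_lit 229,nat_lit 232,nat_lit 239],[nat_lit 229,nat_lit 232,nat_lit 239],
    [nat_lit 229,nat_lit 232,nat_lit 239],[nat_lit 229,nat_lit 232,nat_lit 239],[nat_lit 220,nat_lit 222,nat_lit 244],
    [nat_lit 220,nat_lit 222,nat_lit 244]],[[nat_lit 220,nat_lit 222,nat_lit 244],[nat_lit 225,nat_lit 227],
    [nat_lit 225,nat_lit 227],[nat_lit 230,nat_lit 233,nat_lit 240,nat_lit 242],[nat_lit 230,nat_lit 233,nat_lit 240,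
    nat_lit 242],[nat_lit 223],[nat_lit 231,nat_lit 234,nat_lit 243],[nat_lit 331,nat_lit 334],[nat_lit 331,
    nat_lit 334],[nat_lit 331,nat_lit 334],[nat_lit 331,nat_lit 334],[nat_lit 343]],[[nat_lit 343],[nat_lit 343],[],
    [],[],[nat_lit 332,nat_lit 335],[nat_lit 320],[nat_lit 325,nat_lit 326,nat_lit 333,nat_lit 336],[],[nat_lit 282],
    [nat_lit 270,nat_lit 274,nat_lit 277],[]],[[],[],[],[],[],[],[],[nat_lit 272],[nat_lit 272],[nat_lit 271,
    nat_lit 275,nat_lit 278,nat_lit 279],[nat_lit 271,nat_lit 275,nat_lit 278,nat_lit 279],[]],[[],[],[nat_lit 281],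
    [nat_lit 281],[nat_lit 281],[nat_lit 281],[],[],[nat_lit 366,nat_lit 367,nat_lit 369,nat_lit 371,nat_lit 374,
    nat_lit 375],[],[],[]],[[],[nat_lit 362,nat_lit 363],[nat_lit 360,nat_lit 361,nat_lit 368,nat_lit 370],[],[],[],
    [],[nat_lit 372],[nat_lit 372],[nat_lit 372],[nat_lit 364],[nat_lit 364]],[[nat_lit 364],[],[],[nat_lit 373],
    [nat_lit 373],[nat_lit 373],[nat_lit 373],[],[nat_lit 314],[nat_lit 314],[nat_lit 314],[nat_lit 314]],
    [[nat_lit 297],[nat_lit 297],[nat_lit 297],[nat_lit 297],[nat_lit 297],[nat_lit 297],[nat_lit 307,nat_lit 309,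
    nat_lit 316],[nat_lit 315],[nat_lit 315],[nat_lit 301,nat_lit 305,nat_lit 311,nat_lit 313],[nat_lit 308,
    nat_lit 310,nat_lit 317],[]],[[nat_lit 14],[nat_lit 14],[nat_lit 14],[],[],[],[nat_lit 22],[nat_lit 16,
    nat_lit 18],[nat_lit 16,nat_lit 18],[nat_lit 15,nat_lit 17],[nat_lit 15,nat_lit 17],[nat_lit 23]],[[nat_lit 26],
    [nat_lit 19],[],[]]]
    (nat_lit 376) [nat_lit 0,nat_lit 1,nat_lit 2,nat_lit 3,nat_lit 4,nat_lit 5,nat_lit 6,nat_lit 7,nat_lit 8,
    nat_lit 9,nat_lit 10,nat_lit 11,nat_lit 12,nat_lit 13,nat_lit 14,nat_lit 15,nat_lit 16,nat_lit 17,nat_lit 18,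
    nat_lit 19,nat_lit 20,nat_lit 21,nat_lit 22,nat_lit 23,nat_lit 24,nat_lit 25,nat_lit 26,nat_lit 27,nat_lit 34,
    nat_lit 36,nat_lit 37,nat_lit 38,nat_lit 41,nat_lit 42,nat_lit 43,nat_lit 44,nat_lit 45,nat_lit 46,nat_lit 48,
    nat_lit 49,nat_lit 50,nat_lit 51,nat_lit 52,nat_lit 53,nat_lit 54,nat_lit 55,nat_lit 56,nat_lit 63,nat_lit 66,
    nat_lit 67,nat_lit 68,nat_lit 69,nat_lit 72,nat_lit 75,nat_lit 76,nat_lit 77,nat_lit 78,nat_lit 81,nat_lit 84,
    nat_lit 85,nat_lit 94,nat_lit 95,nat_lit 97,nat_lit 98,nat_lit 100,nat_lit 101,nat_lit 102,nat_lit 103,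
    nat_lit 104,nat_lit 105,nat_lit 106,nat_lit 107,nat_lit 108,nat_lit 109,nat_lit 110,nat_lit 111,nat_lit 112,
    nat_lit 113,nat_lit 114,nat_lit 115,nat_lit 116,nat_lit 117,nat_lit 118,nat_lit 119,nat_lit 130,nat_lit 131,
    nat_lit 132,nat_lit 133,nat_lit 134,nat_lit 135,nat_lit 136,nat_lit 137,nat_lit 138,nat_lit 139,nat_lit 141,
    nat_lit 142,nat_lit 143,nat_lit 145,nat_lit 146,nat_lit 147,nat_lit 148,nat_lit 150,nat_lit 151,nat_lit 152,
    nat_lit 166,nat_lit 167,nat_lit 170,nat_lit 171,nat_lit 172,nat_lit 173,nat_lit 174,nat_lit 175,nat_lit 176,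
    nat_lit 177,nat_lit 180,nat_lit 181,nat_lit 182,nat_lit 205,nat_lit 206,nat_lit 208,nat_lit 209,nat_lit 210,
    nat_lit 212,nat_lit 213,nat_lit 215,nat_lit 216,nat_lit 235,nat_lit 238,nat_lit 241,nat_lit 243,nat_lit 260,
    nat_lit 263,nat_lit 268,nat_lit 269,nat_lit 281,nat_lit 282,nat_lit 294,nat_lit 295]
    [[[],[],[nat_lit 4,nat_lit 9,nat_lit 10],[nat_lit 5,nat_lit 6,nat_lit 11],[nat_lit 1],[nat_lit 0],[nat_lit 7],
    [nat_lit 8],[nat_lit 2],[nat_lit 3],[],[],[nat_lit 12],[nat_lit 13],[],[]],[[],[],[nat_lit 21,nat_lit 24,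
    nat_lit 25],[nat_lit 20],[nat_lit 14],[nat_lit 15,nat_lit 17],[nat_lit 22],[nat_lit 23],[nat_lit 16,nat_lit 18],
    [nat_lit 19],[],[],[nat_lit 26],[nat_lit 27],[],[]],[[nat_lit 39],[nat_lit 35,nat_lit 40,nat_lit 47],[nat_lit 54],
    [nat_lit 43,nat_lit 51],[nat_lit 28],[nat_lit 31],[nat_lit 48,nat_lit 52],[nat_lit 49,nat_lit 53],[nat_lit 29,
    nat_lit 32],[nat_lit 30,nat_lit 33,nat_lit 34],[],[],[nat_lit 55],[nat_lit 38,nat_lit 50,nat_lit 56],[nat_lit 36,
    nat_lit 41,nat_lit 44,nat_lit 46],[nat_lit 37,nat_lit 42,nat_lit 45]],[[nat_lit 64,nat_lit 70,nat_lit 73],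
    [nat_lit 65,nat_lit 71,nat_lit 74],[],[nat_lit 72],[nat_lit 57,nat_lit 60,nat_lit 62,nat_lit 79,nat_lit 82],
    [nat_lit 58,nat_lit 75,nat_lit 80,nat_lit 83],[nat_lit 84],[nat_lit 81,nat_lit 85],[],[nat_lit 59],[],[],[],[],
    [nat_lit 61,nat_lit 63,nat_lit 66,nat_lit 68,nat_lit 76,nat_lit 78],[nat_lit 67,nat_lit 69,nat_lit 77]],
    [[nat_lit 88,nat_lit 89],[nat_lit 90],[nat_lit 87,nat_lit 92,nat_lit 93,nat_lit 99],[nat_lit 86],[nat_lit 109,
    nat_lit 112],[nat_lit 110,nat_lit 113],[nat_lit 100,nat_lit 103,nat_lit 116],[nat_lit 101,nat_lit 104,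
    nat_lit 117],[nat_lit 111,nat_lit 114],[],[nat_lit 94,nat_lit 97,nat_lit 105,nat_lit 107],[nat_lit 95,nat_lit 98,
    nat_lit 106,nat_lit 108],[nat_lit 96,nat_lit 102,nat_lit 115,nat_lit 118],[nat_lit 119],[],[nat_lit 91]],
    [[nat_lit 124],[nat_lit 123],[nat_lit 120,nat_lit 121,nat_lit 126,nat_lit 127,nat_lit 153],[nat_lit 122],
    [nat_lit 125,nat_lit 140,nat_lit 144,nat_lit 149],[nat_lit 141,nat_lit 145],[nat_lit 132,nat_lit 135],
    [nat_lit 133,nat_lit 136,nat_lit 150],[nat_lit 142,nat_lit 146],[nat_lit 143,nat_lit 147],[nat_lit 128,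
    nat_lit 130,nat_lit 138],[nat_lit 129,nat_lit 131,nat_lit 139],[nat_lit 134,nat_lit 137,nat_lit 148,nat_lit 151],
    [nat_lit 152],[],[]],[[nat_lit 154],[nat_lit 155],[nat_lit 183,nat_lit 185],[nat_lit 184,nat_lit 186],
    [nat_lit 164,nat_lit 168,nat_lit 178],[nat_lit 165,nat_lit 169,nat_lit 179],[nat_lit 159,nat_lit 162,nat_lit 172,
    nat_lit 175],[nat_lit 160,nat_lit 163,nat_lit 173,nat_lit 176],[nat_lit 166,nat_lit 170,nat_lit 181],[nat_lit 167,
    nat_lit 171,nat_lit 180,nat_lit 182],[],[],[nat_lit 174,nat_lit 177],[nat_lit 161],[nat_lit 156],[nat_lit 157,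
    nat_lit 158]],[[nat_lit 187],[nat_lit 188],[nat_lit 217],[nat_lit 218,nat_lit 219],[nat_lit 199,nat_lit 203],
    [nat_lit 200,nat_lit 204,nat_lit 214],[nat_lit 193,nat_lit 196,nat_lit 207,nat_lit 211],[nat_lit 194,nat_lit 197,
    nat_lit 208,nat_lit 212],[nat_lit 201,nat_lit 205,nat_lit 215],[nat_lit 202,nat_lit 206,nat_lit 216],[],[],
    [nat_lit 209,nat_lit 213],[nat_lit 195,nat_lit 198,nat_lit 210],[nat_lit 189,nat_lit 191],[nat_lit 190,
    nat_lit 192]],[[nat_lit 223],[nat_lit 224],[nat_lit 221],[nat_lit 220,nat_lit 222,nat_lit 244],[nat_lit 236,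
    nat_lit 237],[],[nat_lit 229,nat_lit 232,nat_lit 239],[nat_lit 230,nat_lit 233,nat_lit 240,nat_lit 242],
    [nat_lit 238],[],[nat_lit 225,nat_lit 227],[nat_lit 226,nat_lit 228,nat_lit 235],[nat_lit 241],[nat_lit 231,
    nat_lit 234,nat_lit 243],[],[]],[[nat_lit 247,nat_lit 250],[nat_lit 248],[],[nat_lit 245,nat_lit 246],
    [nat_lit 261,nat_lit 264],[nat_lit 262,nat_lit 265],[nat_lit 253,nat_lit 257,nat_lit 266],[nat_lit 254,
    nat_lit 258,nat_lit 267],[],[nat_lit 263],[nat_lit 251,nat_lit 260],[nat_lit 252],[nat_lit 255,nat_lit 268],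
    [nat_lit 256,nat_lit 259,nat_lit 269],[],[nat_lit 249]],[[],[],[],[],[nat_lit 270,nat_lit 274,nat_lit 277],
    [nat_lit 271,nat_lit 275,nat_lit 278,nat_lit 279],[],[],[nat_lit 272],[nat_lit 273,nat_lit 276,nat_lit 280],[],[],
    [],[],[nat_lit 281],[nat_lit 282]],[[],[],[],[],[nat_lit 283,nat_lit 287,nat_lit 290],[nat_lit 284,nat_lit 288,
    nat_lit 291,nat_lit 293],[],[],[nat_lit 285,nat_lit 292],[nat_lit 286,nat_lit 289],[],[],[],[],[nat_lit 294],
    [nat_lit 295]],[[nat_lit 296],[nat_lit 297],[],[nat_lit 299,nat_lit 318,nat_lit 319],[nat_lit 314],[nat_lit 315],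
    [nat_lit 300,nat_lit 303,nat_lit 312],[nat_lit 304],[nat_lit 307,nat_lit 309,nat_lit 316],[nat_lit 308,
    nat_lit 310,nat_lit 317],[],[],[nat_lit 301,nat_lit 305,nat_lit 311,nat_lit 313],[nat_lit 302,nat_lit 306],[],
    [nat_lit 298]],[[nat_lit 320],[nat_lit 321],[],[nat_lit 343],[nat_lit 327,nat_lit 328,nat_lit 337,nat_lit 339],
    [nat_lit 322,nat_lit 329,nat_lit 338,nat_lit 340],[nat_lit 331,nat_lit 334],[nat_lit 332,nat_lit 335],
    [nat_lit 330,nat_lit 341],[nat_lit 342],[],[],[],[nat_lit 325,nat_lit 326,nat_lit 333,nat_lit 336],[nat_lit 323],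
    [nat_lit 324]],[[],[],[nat_lit 354,nat_lit 355,nat_lit 359],[nat_lit 344,nat_lit 345,nat_lit 356],[],
    [nat_lit 348],[nat_lit 346,nat_lit 350],[nat_lit 347,nat_lit 351],[nat_lit 349],[],[nat_lit 357],[nat_lit 358],
    [nat_lit 352],[nat_lit 353],[],[]],[[],[],[nat_lit 366,nat_lit 367,nat_lit 369,nat_lit 371,nat_lit 374,
    nat_lit 375],[nat_lit 360,nat_lit 361,nat_lit 368,nat_lit 370],[],[],[nat_lit 362,nat_lit 363],[nat_lit 364],[],
    [],[nat_lit 372],[nat_lit 373],[nat_lit 365],[],[],[]]]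
    [[[nat_lit 0,nat_lit 0,nat_lit 0,nat_lit 0,
    nat_lit 0x4400000000000000000000000000000000000000000000000000000000000000000000000000000000000000,
    nat_lit 0x4400000000000000000000000000000000000000000000000000000000000000000000000000000000000000,
    nat_lit 0x100300000000000000000000000000000000000000000000000000000000000000000000000000000000000000,
    nat_lit 0x2000000000000000000000000000000000000000000000000000000000000000000000000000000000000000,
    nat_lit 0x1000000000000000000000000000000000000000000000000000000000000000000000000000000000000000],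
    [nat_lit 0x200000000000000000000000000000000000000000000000000000000000000000000000000000000000000000,
    nat_lit 0x8800000000000000000000000000000000000000000000000000000000000000000000000000000000000000,
    nat_lit 0x8800000000000000000000000000000000000000000000000000000000000000000000000000000000000000,nat_lit 0,
    nat_lit 0x400000000000000000000000000000000000000000000000000000000000000000000000000000000000000000,
    nat_lit 0x480005200000000000000,nat_lit 0x480005200000000000000,nat_lit 0x480005200000000000000,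
    nat_lit 0x4820000000000000000],[nat_lit 0x4820000000000000000,nat_lit 0x4820000000000000000,
    nat_lit 0x1000000000000000000000,nat_lit 0x1000000000000000000,nat_lit 0,nat_lit 0x908000400000000000000,
    nat_lit 0,nat_lit 0x2200000000000000000000,nat_lit 0x5014a000000000000000],[nat_lit 0,nat_lit 0x610,nat_lit 0x610,
    nat_lit 0x610,nat_lit 0,nat_lit 0,nat_lit 0,nat_lit 2,nat_lit 128],[nat_lit 128,nat_lit 128,nat_lit 128,
    nat_lit 0x860,nat_lit 0x860,nat_lit 0x860,nat_lit 0x860,nat_lit 0x860,nat_lit 4],[nat_lit 4,nat_lit 1,nat_lit 0,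
    nat_lit 0,nat_lit 0,nat_lit 0,nat_lit 0x2000,nat_lit 0x2000,nat_lit 0x2000],[nat_lit 0x2000,nat_lit 0x2000,
    nat_lit 0x2000,nat_lit 0x2000000c3000000000000000000000000000000,
    nat_lit 0x2000000c3000000000000000000000000000000,nat_lit 0x2000000c3000000000000000000000000000000,nat_lit 0,
    nat_lit 0x21100020000000000000000000000000000000,nat_lit 0x21100020000000000000000000000000000000],
    [nat_lit 0x8000000000000000000000000000000,nat_lit 0x9000000000000000000000000000000000,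
    nat_lit 0x4000000000000000000000000000000,nat_lit 0x4400000000000000000000000000000000000,
    nat_lit 0x4400000000000000000000000000000000000,nat_lit 0x2200000000000000000000000000000000000,
    nat_lit 0x2200000000000000000000000000000000000,nat_lit 0x40500000000000000000000000000000000,
    nat_lit 0x40500000000000000000000000000000000],[nat_lit 0x40500000000000000000000000000000000,
    nat_lit 0x40012000000000000000000000000000000000,nat_lit 0x40012000000000000000000000000000000000,nat_lit 0,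
    nat_lit 0,nat_lit 0,nat_lit 0x80a00000000000000000000000000000000,nat_lit 0x10000000000000000000000000000000,
    nat_lit 0x10000000000000000000000000000000]],[[nat_lit 0x10000000000000000000000000000000,
    nat_lit 0x100000000000000000000000000000000000000,nat_lit 0x100000000000000000000000000000000000000,
    nat_lit 0x100000000000000000000000000000000000000,nat_lit 0x100000000000000000000000000000000000000,
    nat_lit 0x40000000000000,nat_lit 0x242000000000,nat_lit 0x10000000,nat_lit 0x810800000000],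
    [nat_lit 0x810800000000,nat_lit 0x810800000000,nat_lit 0x810800000000,nat_lit 0x810800000000,
    nat_lit 0x11000000000000,nat_lit 0x11000000000000,nat_lit 0x8080000000000,nat_lit 0x8080000000000,
    nat_lit 0x8080000000000],[nat_lit 0x8080000000000,nat_lit 0x120000000,nat_lit 0x120000000,nat_lit 0x120000000,
    nat_lit 0x80000000,nat_lit 0x80000000,nat_lit 0,nat_lit 0,nat_lit 0x22000000000000],[nat_lit 0x22000000000000,
    nat_lit 0x80000000000000,nat_lit 0x80000000000000,nat_lit 0x80000000000000,nat_lit 0x640000000,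
    nat_lit 0x640000000,nat_lit 0x640000000,nat_lit 0x521000000000,nat_lit 0],[nat_lit 0,nat_lit 0,nat_lit 0,
    nat_lit 0x2000000000000000000000000000000000000000000000000000000,
    nat_lit 0x1400000000000000000000000000000000000000000000000,
    nat_lit 0x1400000000000000000000000000000000000000000000000,
    nat_lit 0x880000000000000000000000000000000000000000000000000,
    nat_lit 0x100000000000000000000000000000000000000000000000,
    nat_lit 0x100000000000000000000000000000000000000000000000],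
    [nat_lit 0x100000000000000000000000000000000000000000000000,
    nat_lit 0x100000000000000000000000000000000000000000000000,
    nat_lit 0x88012000000000000000000000000000000000000000000000000,
    nat_lit 0x88012000000000000000000000000000000000000000000000000,
    nat_lit 0xc000000000000000000000000000000000000000000000000000000,
    nat_lit 0xc000000000000000000000000000000000000000000000000000000,
    nat_lit 0x802200000000000000000000000000000000000000000000000000,
    nat_lit 0x802200000000000000000000000000000000000000000000000000,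
    nat_lit 0x802200000000000000000000000000000000000000000000000000],
    [nat_lit 0x401100000000000000000000000000000000000000000000000000,
    nat_lit 0x401100000000000000000000000000000000000000000000000000,
    nat_lit 0x401100000000000000000000000000000000000000000000000000,
    nat_lit 0x110024000000000000000000000000000000000000000000000000,
    nat_lit 0x110024000000000000000000000000000000000000000000000000,
    nat_lit 0x220000000000000000000000000000000000000000000000000000,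
    nat_lit 0x220000000000000000000000000000000000000000000000000000,
    nat_lit 0x220000000000000000000000000000000000000000000000000000,
    nat_lit 0x220000000000000000000000000000000000000000000000000000],
    [nat_lit 0x1004400000000000000000000000000000000000000000000000000,
    nat_lit 0x1004400000000000000000000000000000000000000000000000000,
    nat_lit 0x1004400000000000000000000000000000000000000000000000000,
    nat_lit 0x1004400000000000000000000000000000000000000000000000000,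
    nat_lit 0xa00000000000000000000000000000000000000000000000,nat_lit 0,nat_lit 0,nat_lit 0,nat_lit 0],
    [nat_lit 0x80000000000000000000000000000000000000000000000,nat_lit 0x8308000000000000000000000,
    nat_lit 0x80000000000000000000000,nat_lit 0x12000000000000000000000000000,nat_lit 0x12000000000000000000000000000,
    nat_lit 0x40000000000000000000000,nat_lit 0x100090000000000000000000000000,
    nat_lit 0x100090000000000000000000000000,nat_lit 0x100090000000000000000000000000]],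
    [[nat_lit 0x4000000000000000000000,nat_lit 0x4000000000000000000000,nat_lit 0x48000000000000000000000000000,
    nat_lit 0x48000000000000000000000000000,nat_lit 0x48000000000000000000000000000,
    nat_lit 0x48000000000000000000000000000,nat_lit 0x24000000000000000000000000000,
    nat_lit 0x24000000000000000000000000000,nat_lit 0x24000000000000000000000000000],
    [nat_lit 0x24000000000000000000000000000,nat_lit 0xa02400000000000000000000000,
    nat_lit 0xa02400000000000000000000000,nat_lit 0xa02400000000000000000000000,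
    nat_lit 0x200120000000000000000000000000,nat_lit 0x200120000000000000000000000000,
    nat_lit 0x200120000000000000000000000000,nat_lit 0,nat_lit 0],[nat_lit 0,nat_lit 0x1404800000000000000000000000,
    nat_lit 0x1404800000000000000000000000,nat_lit 0x30000000000000000000000,nat_lit 0x30000000000000000000000,
    nat_lit 0x800000000000000000000000000000,nat_lit 0x800000000000000000000000000000,nat_lit 0,
    nat_lit 0x200000000000000000000000000000000000000000000000000000000000000],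
    [nat_lit 0x1200000000000000000000000000000000000000000000000000000000000000000,
    nat_lit 0x1200000000000000000000000000000000000000000000000000000000000000000,
    nat_lit 0x100000000000000000000000000000000000000000000000000000000000000,
    nat_lit 0x100000000000000000000000000000000000000000000000000000000000000,
    nat_lit 0x4022000000000000000000000000000000000000000000000000000000000000000,
    nat_lit 0x4022000000000000000000000000000000000000000000000000000000000000000,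
    nat_lit 0x4022000000000000000000000000000000000000000000000000000000000000000,
    nat_lit 0x60000000000000000000000000000000000000000000000000000000000000,
    nat_lit 0x60000000000000000000000000000000000000000000000000000000000000],
    [nat_lit 0x60000000000000000000000000000000000000000000000000000000000000,nat_lit 0,nat_lit 0,nat_lit 0,nat_lit 0,
    nat_lit 0x2400000000000000000000000000000000000000000000000000000000000000000,
    nat_lit 0x2400000000000000000000000000000000000000000000000000000000000000000,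
    nat_lit 0x2400000000000000000000000000000000000000000000000000000000000000000,
    nat_lit 0x2400000000000000000000000000000000000000000000000000000000000000000],
    [nat_lit 0x100800000000000000000000000000000000000000000000000000000000000000,
    nat_lit 0x100800000000000000000000000000000000000000000000000000000000000000,
    nat_lit 0x100800000000000000000000000000000000000000000000000000000000000000,
    nat_lit 0x100800000000000000000000000000000000000000000000000000000000000000,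
    nat_lit 0x8044000000000000000000000000000000000000000000000000000000000000000,
    nat_lit 0x8044000000000000000000000000000000000000000000000000000000000000000,
    nat_lit 0x8044000000000000000000000000000000000000000000000000000000000000000,nat_lit 0,
    nat_lit 0x1000000000000000000000000000000000000000000000000000000000000000],
    [nat_lit 0x1000000000000000000000000000000000000000000000000000000000000000,
    nat_lit 0x480000000000000000000000000000000000000000000000000000000000000,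
    nat_lit 0x480000000000000000000000000000000000000000000000000000000000000,
    nat_lit 0x20090000000000000000000000000000000000000000000000000000000000000000,
    nat_lit 0x28000000000000000000000000000000000000000000000,nat_lit 0x6000000000000000000000000000000000000000,
    nat_lit 0x6000000000000000000000000000000000000000,nat_lit 0x401100000000000000000000000000000000000000000,
    nat_lit 0x401100000000000000000000000000000000000000000],[nat_lit 0x90048000000000000000000000000000000000000000,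
    nat_lit 0x90048000000000000000000000000000000000000000,nat_lit 0x50000000000000000000000000000000000000000000000,
    nat_lit 0x50000000000000000000000000000000000000000000000,
    nat_lit 0x2004400000000000000000000000000000000000000000,nat_lit 0x2004400000000000000000000000000000000000000000,
    nat_lit 0x2004400000000000000000000000000000000000000000,nat_lit 0x802200000000000000000000000000000000000000000,
    nat_lit 0x802200000000000000000000000000000000000000000],[nat_lit 0x802200000000000000000000000000000000000000000,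
    nat_lit 0,nat_lit 0x240000000000000000000000000000000000000000000,
    nat_lit 0x5008800000000000000000000000000000000000000000,nat_lit 0x5008800000000000000000000000000000000000000000,
    nat_lit 0x1000000000000000000000000000000000000000,nat_lit 0x1000000000000000000000000000000000000000,
    nat_lit 0x1000000000000000000000000000000000000000,nat_lit 0]],[[nat_lit 0,
    nat_lit 0x400000000000000000000000000000000000000,nat_lit 0,
    nat_lit 0x80000000000000000000000000000000000000000000000000000000000000000000000000,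
    nat_lit 0x4880000000000000000000000000000000000000000000000000000000000000000000000,
    nat_lit 0x4880000000000000000000000000000000000000000000000000000000000000000000000,
    nat_lit 0x4880000000000000000000000000000000000000000000000000000000000000000000000,nat_lit 0,nat_lit 0],
    [nat_lit 0,nat_lit 0x10200000000000000000000000000000000000000000000000000000000000000000000000,
    nat_lit 0x10200000000000000000000000000000000000000000000000000000000000000000000000,
    nat_lit 0x10200000000000000000000000000000000000000000000000000000000000000000000000,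
    nat_lit 0x10200000000000000000000000000000000000000000000000000000000000000000000000,
    nat_lit 0x29100000000000000000000000000000000000000000000000000000000000000000000000,
    nat_lit 0x29100000000000000000000000000000000000000000000000000000000000000000000000,
    nat_lit 0x29100000000000000000000000000000000000000000000000000000000000000000000000,nat_lit 0],[nat_lit 0,
    nat_lit 0,nat_lit 0,nat_lit 0x2400000000000000000000000000000000000000000000000000000000000000000000000,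
    nat_lit 0x2400000000000000000000000000000000000000000000000000000000000000000000000,
    nat_lit 0x40000000000000000000000000000000000000000000000000000000000000000000000000,
    nat_lit 0x40000000000000000000000000000000000000000000000000000000000000000000000000,
    nat_lit 0x40000000000000000000000000000000000000000000000000000000000000000000000000,nat_lit 0],
    [nat_lit 0x812000000000000000000000000000000000000000000000000000000000,
    nat_lit 0x812000000000000000000000000000000000000000000000000000000000,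
    nat_lit 0x812000000000000000000000000000000000000000000000000000000000,
    nat_lit 0x812000000000000000000000000000000000000000000000000000000000,
    nat_lit 0x10000050000000000000000000000000000000000000000000000000000000,
    nat_lit 0x10000050000000000000000000000000000000000000000000000000000000,
    nat_lit 0x10000050000000000000000000000000000000000000000000000000000000,
    nat_lit 0xa00000000000000000000000000000000000000000000000000000000,
    nat_lit 0xa00000000000000000000000000000000000000000000000000000000],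
    [nat_lit 0x5024000000000000000000000000000000000000000000000000000000000,
    nat_lit 0x5024000000000000000000000000000000000000000000000000000000000,
    nat_lit 0x80000000000000000000000000000000000000000000000000000000,
    nat_lit 0x8048000000000000000000000000000000000000000000000000000000000,
    nat_lit 0x480000000000000000000000000000000000000000000000000000000000000000000000000000000000,
    nat_lit 0x480000000000000000000000000000000000000000000000000000000000000000000000000000000000,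
    nat_lit 0x480000000000000000000000000000000000000000000000000000000000000000000000000000000000,
    nat_lit 0x480000000000000000000000000000000000000000000000000000000000000000000000000000000000,
    nat_lit 0x80000000000000000000000000000000000000000000000000000000000000000000000000000000000000],
    [nat_lit 0x80000000000000000000000000000000000000000000000000000000000000000000000000000000000000,
    nat_lit 0x80000000000000000000000000000000000000000000000000000000000000000000000000000000000000,nat_lit 0,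
    nat_lit 0,nat_lit 0,
    nat_lit 0x900000000000000000000000000000000000000000000000000000000000000000000000000000000000,
    nat_lit 0x100000000000000000000000000000000000000000000000000000000000000000000000000000000,
    nat_lit 0x1206000000000000000000000000000000000000000000000000000000000000000000000000000000000,nat_lit 0],
    [nat_lit 0x40000000000000000000000000000000000000000000000000000000000000000000000,
    nat_lit 0x2440000000000000000000000000000000000000000000000000000000000000000000,nat_lit 0,nat_lit 0,nat_lit 0,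
    nat_lit 0,nat_lit 0,nat_lit 0,nat_lit 0],[nat_lit 0,
    nat_lit 0x100000000000000000000000000000000000000000000000000000000000000000000,
    nat_lit 0x100000000000000000000000000000000000000000000000000000000000000000000,
    nat_lit 0xc880000000000000000000000000000000000000000000000000000000000000000000,
    nat_lit 0xc880000000000000000000000000000000000000000000000000000000000000000000,nat_lit 0,nat_lit 0,nat_lit 0,
    nat_lit 0x20000000000000000000000000000000000000000000000000000000000000000000000],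
    [nat_lit 0x20000000000000000000000000000000000000000000000000000000000000000000000,
    nat_lit 0x20000000000000000000000000000000000000000000000000000000000000000000000,
    nat_lit 0x20000000000000000000000000000000000000000000000000000000000000000000000,nat_lit 0,nat_lit 0,
    nat_lit 0xcac0000000000000000000000000000000000000000000000000000000000000000000000000000000000000000000,
    nat_lit 0,nat_lit 0,nat_lit 0]],[[nat_lit 0,
    nat_lit 0xc000000000000000000000000000000000000000000000000000000000000000000000000000000000000000000,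
    nat_lit 0x503000000000000000000000000000000000000000000000000000000000000000000000000000000000000000000,nat_lit 0,
    nat_lit 0,nat_lit 0,nat_lit 0,
    nat_lit 0x1000000000000000000000000000000000000000000000000000000000000000000000000000000000000000000000,
    nat_lit 0x1000000000000000000000000000000000000000000000000000000000000000000000000000000000000000000000],
    [nat_lit 0x1000000000000000000000000000000000000000000000000000000000000000000000000000000000000000000000,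
    nat_lit 0x10000000000000000000000000000000000000000000000000000000000000000000000000000000000000000000,
    nat_lit 0x10000000000000000000000000000000000000000000000000000000000000000000000000000000000000000000,
    nat_lit 0x10000000000000000000000000000000000000000000000000000000000000000000000000000000000000000000,nat_lit 0,
    nat_lit 0,
    nat_lit 0x2000000000000000000000000000000000000000000000000000000000000000000000000000000000000000000000,
    nat_lit 0x2000000000000000000000000000000000000000000000000000000000000000000000000000000000000000000000,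
    nat_lit 0x2000000000000000000000000000000000000000000000000000000000000000000000000000000000000000000000],
    [nat_lit 0x2000000000000000000000000000000000000000000000000000000000000000000000000000000000000000000000,
    nat_lit 0,nat_lit 0x4000000000000000000000000000000000000000000000000000000000000000000000000000000,
    nat_lit 0x4000000000000000000000000000000000000000000000000000000000000000000000000000000,
    nat_lit 0x4000000000000000000000000000000000000000000000000000000000000000000000000000000,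
    nat_lit 0x4000000000000000000000000000000000000000000000000000000000000000000000000000000,
    nat_lit 0x200000000000000000000000000000000000000000000000000000000000000000000000000,
    nat_lit 0x200000000000000000000000000000000000000000000000000000000000000000000000000,
    nat_lit 0x200000000000000000000000000000000000000000000000000000000000000000000000000],
    [nat_lit 0x200000000000000000000000000000000000000000000000000000000000000000000000000,
    nat_lit 0x200000000000000000000000000000000000000000000000000000000000000000000000000,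
    nat_lit 0x200000000000000000000000000000000000000000000000000000000000000000000000000,
    nat_lit 0x10280000000000000000000000000000000000000000000000000000000000000000000000000000,
    nat_lit 0x8000000000000000000000000000000000000000000000000000000000000000000000000000000,
    nat_lit 0x8000000000000000000000000000000000000000000000000000000000000000000000000000000,
    nat_lit 0x2822000000000000000000000000000000000000000000000000000000000000000000000000000,
    nat_lit 0x20500000000000000000000000000000000000000000000000000000000000000000000000000000,nat_lit 0],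
    [nat_lit 0x4000,nat_lit 0x4000,nat_lit 0x4000,nat_lit 0,nat_lit 0,nat_lit 0,nat_lit 0x400000,nat_lit 0x50000,
    nat_lit 0x50000],[nat_lit 0x28000,nat_lit 0x28000,nat_lit 0x800000,nat_lit 0x4000000,nat_lit 0x80000,nat_lit 0,
    nat_lit 0]]]
    [[[[nat_lit 0,nat_lit 0,nat_lit 0,nat_lit 0,nat_lit 0,nat_lit 0,nat_lit 0,
    nat_lit 0x2000000000000000000000000000000000000000000000000000000000000000000000000000000000000000,nat_lit 0],
    [nat_lit 0x200000000000000000000000000000000000000000000000000000000000000000000000000000000000000000,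
    nat_lit 0x8000000000000000000000000000000000000000000000000000000000000000000000000000000000000000,nat_lit 0,
    nat_lit 0,nat_lit 0x400000000000000000000000000000000000000000000000000000000000000000000000000000000000000000,
    nat_lit 0,nat_lit 0,nat_lit 0,nat_lit 0],[nat_lit 0x820000000000000000,nat_lit 0,nat_lit 0,
    nat_lit 0x1000000000000000000,nat_lit 0,nat_lit 0x8000000000000000000,nat_lit 0,nat_lit 0,
    nat_lit 0x140000000000000000],[nat_lit 0,nat_lit 0x400,nat_lit 0,nat_lit 0x400,nat_lit 0,nat_lit 0,nat_lit 0,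
    nat_lit 2,nat_lit 0],[nat_lit 0,nat_lit 0,nat_lit 128,nat_lit 0,nat_lit 0,nat_lit 0,nat_lit 0,nat_lit 0,
    nat_lit 0],[nat_lit 0,nat_lit 0,nat_lit 0,nat_lit 0,nat_lit 0,nat_lit 0,nat_lit 0,nat_lit 0x2000,nat_lit 0x2000],
    [nat_lit 0,nat_lit 0,nat_lit 0,nat_lit 0x200000000000000000000000000000000000000,nat_lit 0,
    nat_lit 0x200000000000000000000000000000000000000,nat_lit 0,nat_lit 0x1000000000000000000000000000000000000,
    nat_lit 0x21100000000000000000000000000000000000],[nat_lit 0,nat_lit 0x1000000000000000000000000000000000,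
    nat_lit 0,nat_lit 0,nat_lit 0,nat_lit 0x2000000000000000000000000000000000000,
    nat_lit 0x2000000000000000000000000000000000000,nat_lit 0,nat_lit 0x400000000000000000000000000000000],
    [nat_lit 0x400000000000000000000000000000000,nat_lit 0,nat_lit 0x12000000000000000000000000000000000,nat_lit 0,
    nat_lit 0,nat_lit 0,nat_lit 0,nat_lit 0,nat_lit 0]],[[nat_lit 0,nat_lit 0,nat_lit 0,
    nat_lit 0x100000000000000000000000000000000000000,nat_lit 0x100000000000000000000000000000000000000,nat_lit 0,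
    nat_lit 0,nat_lit 0,nat_lit 0],[nat_lit 0,nat_lit 0x810000000000,nat_lit 0,nat_lit 0,nat_lit 0x11000000000000,
    nat_lit 0,nat_lit 0x80000000000,nat_lit 0x8080000000000,nat_lit 0x80000000000],[nat_lit 0,nat_lit 0x20000000,
    nat_lit 0x20000000,nat_lit 0,nat_lit 0,nat_lit 0x80000000,nat_lit 0,nat_lit 0,nat_lit 0],[nat_lit 0,nat_lit 0,
    nat_lit 0,nat_lit 0,nat_lit 0x440000000,nat_lit 0,nat_lit 0,nat_lit 0x500000000000,nat_lit 0],[nat_lit 0,
    nat_lit 0,nat_lit 0,nat_lit 0,nat_lit 0x400000000000000000000000000000000000000000000000,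
    nat_lit 0x1400000000000000000000000000000000000000000000000,nat_lit 0,nat_lit 0,nat_lit 0],[nat_lit 0,nat_lit 0,
    nat_lit 0x8012000000000000000000000000000000000000000000000000,
    nat_lit 0x8012000000000000000000000000000000000000000000000000,
    nat_lit 0x4000000000000000000000000000000000000000000000000000000,
    nat_lit 0x4000000000000000000000000000000000000000000000000000000,
    nat_lit 0x802200000000000000000000000000000000000000000000000000,
    nat_lit 0x802200000000000000000000000000000000000000000000000000,nat_lit 0],[nat_lit 0,nat_lit 0,nat_lit 0,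
    nat_lit 0,nat_lit 0x100004000000000000000000000000000000000000000000000000,
    nat_lit 0x200000000000000000000000000000000000000000000000000000,
    nat_lit 0x200000000000000000000000000000000000000000000000000000,
    nat_lit 0x200000000000000000000000000000000000000000000000000000,
    nat_lit 0x200000000000000000000000000000000000000000000000000000],
    [nat_lit 0x1004400000000000000000000000000000000000000000000000000,nat_lit 0,nat_lit 0,
    nat_lit 0x1004400000000000000000000000000000000000000000000000000,nat_lit 0,nat_lit 0,nat_lit 0,nat_lit 0,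
    nat_lit 0],[nat_lit 0,nat_lit 0,nat_lit 0,nat_lit 0,nat_lit 0x12000000000000000000000000000,nat_lit 0,nat_lit 0,
    nat_lit 0,nat_lit 0]],[[nat_lit 0,nat_lit 0,nat_lit 0,nat_lit 0x8000000000000000000000000000,
    nat_lit 0x8000000000000000000000000000,nat_lit 0,nat_lit 0x24000000000000000000000000000,
    nat_lit 0x24000000000000000000000000000,nat_lit 0],[nat_lit 0x24000000000000000000000000000,
    nat_lit 0x202000000000000000000000000,nat_lit 0x202000000000000000000000000,nat_lit 0x202000000000000000000000000,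
    nat_lit 0x120000000000000000000000000,nat_lit 0x120000000000000000000000000,nat_lit 0x120000000000000000000000000,
    nat_lit 0,nat_lit 0],[nat_lit 0,nat_lit 0x1404800000000000000000000000,nat_lit 0,
    nat_lit 0x10000000000000000000000,nat_lit 0x30000000000000000000000,nat_lit 0,nat_lit 0,nat_lit 0,nat_lit 0],
    [nat_lit 0,nat_lit 0x1200000000000000000000000000000000000000000000000000000000000000000,nat_lit 0,nat_lit 0,
    nat_lit 0,nat_lit 0,nat_lit 0,nat_lit 0,nat_lit 0],[nat_lit 0,nat_lit 0,nat_lit 0,nat_lit 0,nat_lit 0,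
    nat_lit 0x2400000000000000000000000000000000000000000000000000000000000000000,
    nat_lit 0x2400000000000000000000000000000000000000000000000000000000000000000,nat_lit 0,
    nat_lit 0x2400000000000000000000000000000000000000000000000000000000000000000],
    [nat_lit 0x800000000000000000000000000000000000000000000000000000000000000,
    nat_lit 0x800000000000000000000000000000000000000000000000000000000000000,
    nat_lit 0x800000000000000000000000000000000000000000000000000000000000000,nat_lit 0,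
    nat_lit 0x8044000000000000000000000000000000000000000000000000000000000000000,
    nat_lit 0x8044000000000000000000000000000000000000000000000000000000000000000,
    nat_lit 0x8044000000000000000000000000000000000000000000000000000000000000000,nat_lit 0,
    nat_lit 0x1000000000000000000000000000000000000000000000000000000000000000],[nat_lit 0,
    nat_lit 0x80000000000000000000000000000000000000000000000000000000000000,
    nat_lit 0x480000000000000000000000000000000000000000000000000000000000000,nat_lit 0,nat_lit 0,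
    nat_lit 0x2000000000000000000000000000000000000000,nat_lit 0x6000000000000000000000000000000000000000,nat_lit 0,
    nat_lit 0],[nat_lit 0x10048000000000000000000000000000000000000000,
    nat_lit 0x10048000000000000000000000000000000000000000,nat_lit 0x10000000000000000000000000000000000000000000000,
    nat_lit 0x10000000000000000000000000000000000000000000000,
    nat_lit 0x2004400000000000000000000000000000000000000000,nat_lit 0x2004400000000000000000000000000000000000000000,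
    nat_lit 0x2004400000000000000000000000000000000000000000,nat_lit 0,nat_lit 0],[nat_lit 0,nat_lit 0,
    nat_lit 0x200000000000000000000000000000000000000000000,nat_lit 0x4008800000000000000000000000000000000000000000,
    nat_lit 0,nat_lit 0,nat_lit 0,nat_lit 0,nat_lit 0]],[[nat_lit 0,nat_lit 0,nat_lit 0,nat_lit 0,
    nat_lit 0x4800000000000000000000000000000000000000000000000000000000000000000000000,nat_lit 0,nat_lit 0,nat_lit 0,
    nat_lit 0],[nat_lit 0,nat_lit 0,nat_lit 0,nat_lit 0,nat_lit 0,nat_lit 0,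
    nat_lit 0x9100000000000000000000000000000000000000000000000000000000000000000000000,nat_lit 0,nat_lit 0],
    [nat_lit 0,nat_lit 0,nat_lit 0,
    nat_lit 0x2000000000000000000000000000000000000000000000000000000000000000000000000,nat_lit 0,
    nat_lit 0x40000000000000000000000000000000000000000000000000000000000000000000000000,
    nat_lit 0x40000000000000000000000000000000000000000000000000000000000000000000000000,
    nat_lit 0x40000000000000000000000000000000000000000000000000000000000000000000000000,nat_lit 0],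
    [nat_lit 0x2000000000000000000000000000000000000000000000000000000000,
    nat_lit 0x2000000000000000000000000000000000000000000000000000000000,nat_lit 0,
    nat_lit 0x2000000000000000000000000000000000000000000000000000000000,
    nat_lit 0x40000000000000000000000000000000000000000000000000000000,nat_lit 0,
    nat_lit 0x40000000000000000000000000000000000000000000000000000000,
    nat_lit 0x800000000000000000000000000000000000000000000000000000000,nat_lit 0],[nat_lit 0,nat_lit 0,nat_lit 0,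
    nat_lit 0x8048000000000000000000000000000000000000000000000000000000000,
    nat_lit 0x80000000000000000000000000000000000000000000000000000000000000000000000000000000000,
    nat_lit 0x80000000000000000000000000000000000000000000000000000000000000000000000000000000000,nat_lit 0,
    nat_lit 0x80000000000000000000000000000000000000000000000000000000000000000000000000000000000,
    nat_lit 0x80000000000000000000000000000000000000000000000000000000000000000000000000000000000000],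
    [nat_lit 0x80000000000000000000000000000000000000000000000000000000000000000000000000000000000000,
    nat_lit 0x80000000000000000000000000000000000000000000000000000000000000000000000000000000000000,nat_lit 0,
    nat_lit 0,nat_lit 0,nat_lit 0,
    nat_lit 0x100000000000000000000000000000000000000000000000000000000000000000000000000000000,nat_lit 0,nat_lit 0],
    [nat_lit 0x40000000000000000000000000000000000000000000000000000000000000000000000,
    nat_lit 0x2440000000000000000000000000000000000000000000000000000000000000000000,nat_lit 0,nat_lit 0,nat_lit 0,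
    nat_lit 0,nat_lit 0,nat_lit 0,nat_lit 0],[nat_lit 0,nat_lit 0,nat_lit 0,nat_lit 0,
    nat_lit 0x4880000000000000000000000000000000000000000000000000000000000000000000,nat_lit 0,nat_lit 0,nat_lit 0,
    nat_lit 0],[nat_lit 0,nat_lit 0,nat_lit 0,nat_lit 0,nat_lit 0,
    nat_lit 0x4ac0000000000000000000000000000000000000000000000000000000000000000000000000000000000000000000,
    nat_lit 0,nat_lit 0,nat_lit 0]],[[nat_lit 0,nat_lit 0,nat_lit 0,nat_lit 0,nat_lit 0,nat_lit 0,nat_lit 0,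
    nat_lit 0x1000000000000000000000000000000000000000000000000000000000000000000000000000000000000000000000,
    nat_lit 0x1000000000000000000000000000000000000000000000000000000000000000000000000000000000000000000000],
    [nat_lit 0,nat_lit 0x10000000000000000000000000000000000000000000000000000000000000000000000000000000000000000000,
    nat_lit 0x10000000000000000000000000000000000000000000000000000000000000000000000000000000000000000000,nat_lit 0,
    nat_lit 0,nat_lit 0,nat_lit 0,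
    nat_lit 0x2000000000000000000000000000000000000000000000000000000000000000000000000000000000000000000000,
    nat_lit 0x2000000000000000000000000000000000000000000000000000000000000000000000000000000000000000000000],
    [nat_lit 0,nat_lit 0,nat_lit 0,nat_lit 0,nat_lit 0,nat_lit 0,
    nat_lit 0x200000000000000000000000000000000000000000000000000000000000000000000000000,
    nat_lit 0x200000000000000000000000000000000000000000000000000000000000000000000000000,
    nat_lit 0x200000000000000000000000000000000000000000000000000000000000000000000000000],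
    [nat_lit 0x200000000000000000000000000000000000000000000000000000000000000000000000000,nat_lit 0,
    nat_lit 0x200000000000000000000000000000000000000000000000000000000000000000000000000,
    nat_lit 0x280000000000000000000000000000000000000000000000000000000000000000000000000000,nat_lit 0,nat_lit 0,
    nat_lit 0x2002000000000000000000000000000000000000000000000000000000000000000000000000000,
    nat_lit 0x500000000000000000000000000000000000000000000000000000000000000000000000000000,nat_lit 0],[nat_lit 0,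
    nat_lit 0,nat_lit 0,nat_lit 0,nat_lit 0,nat_lit 0,nat_lit 0,nat_lit 0x40000,nat_lit 0],[nat_lit 0,nat_lit 0,
    nat_lit 0x800000,nat_lit 0x4000000,nat_lit 0x80000,nat_lit 0,nat_lit 0]]]]
    (nat_lit 1) (nat_lit 1) (nat_lit 9)
    [[nat_lit 17,nat_lit 257,nat_lit 0x10001,nat_lit 0x100001,nat_lit 0x10000001],[nat_lit 32,nat_lit 48,nat_lit 288,
    nat_lit 0x1020,nat_lit 0x10020,nat_lit 0x1000020,nat_lit 0x10000020,nat_lit 272,nat_lit 528,nat_lit 0x1110,
    nat_lit 0x10110,nat_lit 0x100110,nat_lit 0x1000110,nat_lit 0x10000110,nat_lit 0x1010,nat_lit 0x2010,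
    nat_lit 0x11010,nat_lit 0x1001010,nat_lit 0x101010,nat_lit 0x10010,nat_lit 0x20010,nat_lit 0x110010,
    nat_lit 0x1010010,nat_lit 0x10010010,nat_lit 0x100010,nat_lit 0x1000010,nat_lit 0x2000010,nat_lit 0x10000010,
    nat_lit 0x20000010],[nat_lit 512,nat_lit 768,nat_lit 0x1200,nat_lit 0x10200,nat_lit 0x1000200,nat_lit 0x10000200,
    nat_lit 0x1100,nat_lit 0x11100,nat_lit 0x10001100,nat_lit 0x10100,nat_lit 0x20100,nat_lit 0x1010100,
    nat_lit 0x10010100,nat_lit 0x100100,nat_lit 0x101100,nat_lit 0x1000100,nat_lit 0x11000100,nat_lit 0x10000100],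
    [nat_lit 0x2000,nat_lit 0x11000,nat_lit 0x21000,nat_lit 0x111000,nat_lit 0x10011000,nat_lit 0x101000,
    nat_lit 0x1001000,nat_lit 0x10001000],[nat_lit 0x20000,nat_lit 0x30000,nat_lit 0x1020000,nat_lit 0x10020000,
    nat_lit 0x110000,nat_lit 0x1010000,nat_lit 0x10010000],[nat_lit 0x200000,nat_lit 0x1100000],[nat_lit 0x2000000,
    nat_lit 0x3000000,nat_lit 0x11000000],[nat_lit 0x20000000]]
    [.c (nat_lit 1) (nat_lit 0xc3109145209),.c (nat_lit 0) (nat_lit 0xc3009140209),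
    .c (nat_lit 0) (nat_lit 0xc3009005209),.c (nat_lit 0) (nat_lit 0xc3151145208),
    .r (nat_lit 0xdbb) (nat_lit 9) [nat_lit 129,nat_lit 0x82200000244],.c (nat_lit 2) (nat_lit 2),
    .r (nat_lit 0x68e) (nat_lit 13) [nat_lit 0x8186a0c319204,nat_lit 0x71c7a4b358242,nat_lit 0x6206a0c319204,
    nat_lit 0x6186b0c399202,nat_lit 0x30c33c51480c1,nat_lit 0x71c5a4d358244],.c (nat_lit 1) (nat_lit 0xc3089143205),
    .r (nat_lit 0xdb7) (nat_lit 5) [nat_lit 0x2002404109204,nat_lit 0x50c3445250244],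
    .c (nat_lit 1) (nat_lit 0xc30890c5205),.r (nat_lit 0xdb7) (nat_lit 5) [nat_lit 0x82404109204,
    nat_lit 0x3143445250244],.c (nat_lit 1) (nat_lit 0xc3009145205),.c (nat_lit 0) (nat_lit 0xc30c914220d),
    .c (nat_lit 0) (nat_lit 0xc30c9142207),.c (nat_lit 1) (nat_lit 0xc0089140209),
    .c (nat_lit 0) (nat_lit 0x1451510c340d),.r (nat_lit 0xdbb) (nat_lit 9) [nat_lit 0x30c0005008244,
    nat_lit 0x2102204009204],.c (nat_lit 1) (nat_lit 0x3089140209),.c (nat_lit 0) (nat_lit 0xc30c9143205),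
    .c (nat_lit 1) (nat_lit 0xc0189145209),.r (nat_lit 0xdbb) (nat_lit 9) [nat_lit 0x3080245148244,
    nat_lit 0x2002404109204],.c (nat_lit 1) (nat_lit 0xc0089005209),
    .r (nat_lit 0xdbb) (nat_lit 9) [nat_lit 0x1430c4142,nat_lit 0x82404109204],.c (nat_lit 6) (nat_lit 0x80090104248),
    .c (nat_lit 0) (nat_lit 0xc30c908520d),.c (nat_lit 0) (nat_lit 0xc30c9085207),
    .r (nat_lit 0xdbb) (nat_lit 9) [nat_lit 0x30c0000148244,nat_lit 0x2102200109204],
    .c (nat_lit 1) (nat_lit 0x3089005209),.c (nat_lit 0) (nat_lit 0xc30c90c5205),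
    .r (nat_lit 0xdb7) (nat_lit 5) [nat_lit 129,nat_lit 0x30c0000148244],.c (nat_lit 1) (nat_lit 0x3189145209),
    .r (nat_lit 0xdbb) (nat_lit 9) [nat_lit 0x20c0245148244,nat_lit 0x3102404109204],
    .c (nat_lit 0) (nat_lit 0xc30c9145207),.r (nat_lit 0xdbb) (nat_lit 9) [nat_lit 0x2084204109204,
    nat_lit 0x3003005148244],.c (nat_lit 3) (nat_lit 2),.c (nat_lit 0) (nat_lit 0xc30c9142205),
    .c (nat_lit 0) (nat_lit 0xc00c9144209),.c (nat_lit 0) (nat_lit 0xc30c90c0205),
    .c (nat_lit 0) (nat_lit 0x30c9144209),.c (nat_lit 6) (nat_lit 0x4002003),.c (nat_lit 0) (nat_lit 0x2000002009),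
    .c (nat_lit 0) (nat_lit 0xc00c9000209),.r (nat_lit 0xdbb) (nat_lit 9) [nat_lit 0xc2000140204,
    nat_lit 0x80100080142],.c (nat_lit 3) (nat_lit 0xc2004),.c (nat_lit 0) (nat_lit 0xc30c9003205),
    .c (nat_lit 0) (nat_lit 0x30c9000209),.c (nat_lit 6) (nat_lit 0x8082005),.c (nat_lit 1) (nat_lit 0x84002005),
    .c (nat_lit 0) (nat_lit 0xc50d1149208),.c (nat_lit 0) (nat_lit 0x80000002009),
    .r (nat_lit 0xdbb) (nat_lit 9) [nat_lit 0x3002000140204,nat_lit 0x2080200100244],
    .c (nat_lit 0) (nat_lit 0xc30c9143205),.c (nat_lit 4) (nat_lit 2),.c (nat_lit 0) (nat_lit 0x2000080005),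
    .c (nat_lit 0) (nat_lit 0xc00c9105209),.c (nat_lit 0) (nat_lit 0xc50d1245208),
    .r (nat_lit 0xdbb) (nat_lit 9) [nat_lit 0xc2005000204,nat_lit 0x80102000142],
    .r (nat_lit 0xdbb) (nat_lit 9) [nat_lit 0x82200000244,nat_lit 129],.c (nat_lit 1) (nat_lit 0x82100000009),
    .c (nat_lit 0) (nat_lit 0xc00c9145209),.c (nat_lit 5) (nat_lit 2),.c (nat_lit 0) (nat_lit 0xc30c9085205),
    .c (nat_lit 0) (nat_lit 0x30c9105209),.c (nat_lit 6) (nat_lit 0x4080003),.c (nat_lit 1) (nat_lit 0x84080005),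
    .c (nat_lit 0) (nat_lit 0x80000080009),.c (nat_lit 0) (nat_lit 0xc30c90c5205),.c (nat_lit 6) (nat_lit 2),
    .r (nat_lit 0xdbb) (nat_lit 9) [nat_lit 0x2002200000244,nat_lit 0x3080000000204],.c (nat_lit 7) (nat_lit 2),
    .c (nat_lit 0) (nat_lit 0x2430c9145208),.c (nat_lit 0) (nat_lit 0x30c9145209),.c (nat_lit 8) (nat_lit 2)]]

/-- nodes -/
noncomputable def rD8k_4_2 : List RJ :=
  [.l (nat_lit 13) (nat_lit 0x78a) (nat_lit 4) (nat_lit 0x40300000403000004f0000004f0000003e9000003a100000395000003950000039700000397000003390000044b000003e9000003e900000339000003c3) (nat_lit 0xed000000ed00000000000000000000014f000001070000015b0000015b0000015900000159000000a5000001b700000107000001070000012d000001b7)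
    (nat_lit 0x14b0c5877a40315809e067c31c15509f86c024c1c312605ac23a18b0a588064031c50bf05982a81550d606a424c17910105ac24c201900c9e04f01d08fa45ce2bf1cb8dcc6863391f48fd48863432018ef47984f01d08fa464e30520b8fcc8a24471ca8fa488e34717e09e07d23e9195101846428e0c10bf86881b216a0b706042861c50ac07423a11850ca84d42461080b7858c1e614a09a04001841540c7060a2bf1230a38348182120086064421617a0b104d81e41660cf864e2e713508c838c1a413208f05cc1821760bb05281f81ac09f87e637316f0bf847821814d0ac85281b813b0a683a81821550aa882e39710806084c824011f0a686e81e013f08384d41f2126093088e3390f306c83042160f006e062c18211006c04181941a90d808a23431630d105cc3221ba0a507e43161a20d1030427020212607d23f51340b705d82c41070a686881b01830a585742321790e1872a3e914a0b505d82f413f09d86882201710c1859c23212608e868e3430c20a183f01e40f906084e019411908c830418216b0b5888e4431000c0852826c135075030420c1670ae852c182)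
    (nat_lit 0x14b1e28f1478a3c51e28f1478a3c51e28f1478a3c51e28f1478a18b0a58f1478a3c51e28f1478a3c51e28f1478a3c51e28f1478a1de900c9e078a3c51e28f1478a3c51e28f1478a3c51e28f1478a201900c9e04f03c51e28f1478a3c51e28f1478a3c51e28f1478a1580e287423a11951e28f1478a3c51e28f1478a3c51e28f1478a13c0bf07d23e92030ca8f1478a3c51e28f1478a3c51e28f1478a19f0b305ce32711909a834878a3c51e28f1478a3c51e28f1478a18e0aa057e30514709183041a43c51e28f1478a3c51e28f1478a1550aa872e4170c1084048026414d1e28f1478a3c51e28f1478a13f0d606e63f317f0b7843023c1590a68f1478a3c51e28f1478a1b00d486864511a20b186442e614a0dd062c78a3c51e28f1478a12609306724470d9079842c1820dc07803043163c51e28f1478a1c30bc87d239516a0a505e82ec13b09f84403441831e28f1478a24610107ea3e916e09a05882ec14d083836034414b0c18f1478a16b0b5888644718108004d82940ea09a841818215d0b3830478a11d093068634714306103c81f80c107c832827011908c8304182)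
    (nat_lit 5) (nat_lit 177)
    [[nat_lit 2,nat_lit 3,nat_lit 4,nat_lit 259,nat_lit 0x1003,nat_lit 0x10003,nat_lit 18,nat_lit 258,nat_lit 274,
    nat_lit 514,nat_lit 0x1102,nat_lit 0x10102,nat_lit 0x100102,nat_lit 0x1002,nat_lit 0x2002,nat_lit 0x101002,
    nat_lit 0x10002,nat_lit 0x100002,nat_lit 0x10000002,nat_lit 17,nat_lit 273,nat_lit 0x1011,nat_lit 0x100011,
    nat_lit 257,nat_lit 0x1101,nat_lit 0x10101,nat_lit 0x100101,nat_lit 0x1111,nat_lit 513,nat_lit 0x2101,
    nat_lit 0x11101,nat_lit 0x101101,nat_lit 0x20101,nat_lit 0x110101,nat_lit 0x10000101,nat_lit 0x1001,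
    nat_lit 0x2001,nat_lit 0x102001,nat_lit 0x11001,nat_lit 0x101001,nat_lit 0x10001001,nat_lit 0x10001,
    nat_lit 0x20001,nat_lit 0x110001,nat_lit 0x10010001,nat_lit 0x100001,nat_lit 0x10100001,nat_lit 0x10000001],
    [nat_lit 32,nat_lit 272,nat_lit 0x1110,nat_lit 0x100110,nat_lit 0x1010,nat_lit 0x2010,nat_lit 0x101010,
    nat_lit 0x11010,nat_lit 0x10010,nat_lit 0x20010,nat_lit 0x100010,nat_lit 0x10001010],[nat_lit 512,nat_lit 0x1100,
    nat_lit 0x2100,nat_lit 0x11100,nat_lit 0x101100,nat_lit 0x10100,nat_lit 0x20100,nat_lit 0x110100,nat_lit 0x100100,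
    nat_lit 0x10000100],[nat_lit 0x2000,nat_lit 0x12000,nat_lit 0x102000,nat_lit 0x11000,nat_lit 0x21000,
    nat_lit 0x111000,nat_lit 0x101000,nat_lit 0x10001000],[nat_lit 0x20000,nat_lit 0x30000,nat_lit 0x40000,
    nat_lit 0x120000,nat_lit 0x110000,nat_lit 0x1010000,nat_lit 0x10010000],[nat_lit 0x200000,nat_lit 0x10100000],[],
    [nat_lit 0x20000000]]
    [.c (nat_lit 1) (nat_lit 2),.c (nat_lit 2) (nat_lit 0x80001003),.r (nat_lit 0x9c1) (nat_lit 11) [nat_lit 0x40001,
    nat_lit 0x9025adce0e3,nat_lit 0x4c000000c6,nat_lit 0x40108000e2,nat_lit 0x848000000c3],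
    .r (nat_lit 0x9c1) (nat_lit 11) [nat_lit 0x40001,nat_lit 0x71a5adce0e3,nat_lit 0x33c000000c6,
    nat_lit 0x230108000e2,nat_lit 0x21800000041],.r (nat_lit 0xdbe) (nat_lit 10) [nat_lit 0x20042200a2,
    nat_lit 0x294e76b006],.r (nat_lit 0xdb7) (nat_lit 8) [nat_lit 0x294e76b006,nat_lit 0x1084020062],
    .c (nat_lit 4) (nat_lit 0x100011807),.c (nat_lit 2) (nat_lit 0x1100003007),.c (nat_lit 4) (nat_lit 0x1100031807),
    .r (nat_lit 0x9c1) (nat_lit 11) [nat_lit 0x40001,nat_lit 0x52a5adce0e3,nat_lit 0x52c000000c6,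
    nat_lit 0x420108000e2,nat_lit 0x428000000c3],.r (nat_lit 0xdbe) (nat_lit 10) [nat_lit 0x4400c6601a6,
    nat_lit 0x294e76b006],.r (nat_lit 0xdb7) (nat_lit 8) [nat_lit 0x294e76b006,nat_lit 0x2218c0600e6],
    .r (nat_lit 0xdbe) (nat_lit 10) [nat_lit 0x2200c0300e3,nat_lit 0x294e76b006],
    .r (nat_lit 0xdb7) (nat_lit 14) [nat_lit 0x294e76b006,nat_lit 0x20042200a2],.c (nat_lit 4) (nat_lit 0x100040007),
    .c (nat_lit 4) (nat_lit 0x20065000d),.r (nat_lit 0xdb7) (nat_lit 14) [nat_lit 0x294e76b006,nat_lit 0x408c0600e6],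
    .r (nat_lit 0xdb7) (nat_lit 14) [nat_lit 0x294e76b006,nat_lit 0x1004010061],
    .r (nat_lit 0xdb7) (nat_lit 8) [nat_lit 0x294e76b006,nat_lit 0x210c0600e6],.c (nat_lit 4) (nat_lit 0xc0011c06),
    .c (nat_lit 4) (nat_lit 0x1080011807),.r (nat_lit 0xdb7) (nat_lit 14) [nat_lit 0x294e76b006,nat_lit 0x4300082],
    .r (nat_lit 0xdb7) (nat_lit 14) [nat_lit 0x294e76b006,nat_lit 65],.c (nat_lit 1) (nat_lit 0x1880000006),
    .r (nat_lit 0xdb7) (nat_lit 14) [nat_lit 0x294e76b006,nat_lit 0x4400c6601a6],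
    .r (nat_lit 0xdb7) (nat_lit 14) [nat_lit 0x294e76b006,nat_lit 0x2308c0600e6],
    .r (nat_lit 0xdb7) (nat_lit 14) [nat_lit 0x294e76b006,nat_lit 0x2200c0300e3],
    .c (nat_lit 0) (nat_lit 0x4ac006e418),.c (nat_lit 2) (nat_lit 0x2080003007),.c (nat_lit 4) (nat_lit 0x1080040007),
    .r (nat_lit 0xdb7) (nat_lit 8) [nat_lit 0x294e76b006,nat_lit 0x4220c6601a6],.c (nat_lit 4) (nat_lit 0x210065000d),
    .c (nat_lit 2) (nat_lit 0x1088003007),.r (nat_lit 0xdb7) (nat_lit 8) [nat_lit 0x294e76b006,nat_lit 0x2110c0300e3],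
    .r (nat_lit 0xdb7) (nat_lit 8) [nat_lit 0x294e76b006,nat_lit 0x2110c0600e6],.c (nat_lit 0) (nat_lit 0x80020009),
    .c (nat_lit 4) (nat_lit 0xc0028006),.r (nat_lit 0xdb7) (nat_lit 14) [nat_lit 0x294e76b006,nat_lit 0x310041],
    .c (nat_lit 0) (nat_lit 0x10803180d),.c (nat_lit 4) (nat_lit 0x14071800c),
    .r (nat_lit 0xdb7) (nat_lit 8) [nat_lit 0x294e76b006,nat_lit 0x210c6601a6],.c (nat_lit 0) (nat_lit 0x84001807),
    .c (nat_lit 1) (nat_lit 0x8a000006),.c (nat_lit 0) (nat_lit 0x10860180d),.c (nat_lit 2) (nat_lit 0x84003007),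
    .c (nat_lit 0) (nat_lit 0x80400009),.r (nat_lit 0xdb7) (nat_lit 8) [nat_lit 0x294e76b006,nat_lit 0x108c0300e3],
    .r (nat_lit 0xdb7) (nat_lit 14) [nat_lit 0x294e76b006,nat_lit 0x1004020062],.c (nat_lit 2) (nat_lit 2),
    .c (nat_lit 4) (nat_lit 0x1800011c06),.r (nat_lit 0xdb7) (nat_lit 14) [nat_lit 0x294e76b006,
    nat_lit 0x5200c700186],.r (nat_lit 0xdb7) (nat_lit 14) [nat_lit 0x294e76b006,nat_lit 0x310000000c3],
    .r (nat_lit 0xdbe) (nat_lit 10) [nat_lit 0x4300082,nat_lit 0x294e76b006],.c (nat_lit 2) (nat_lit 0x18802),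
    .c (nat_lit 2) (nat_lit 0x319004),.r (nat_lit 0xdb7) (nat_lit 8) [nat_lit 0x294e76b006,nat_lit 0x4300082],
    .c (nat_lit 4) (nat_lit 0x6021c06),.c (nat_lit 4) (nat_lit 0xa011c06),.r (nat_lit 0xdbe) (nat_lit 10) [nat_lit 65,
    nat_lit 0x294e76b006],.c (nat_lit 0) (nat_lit 0x18c04),.c (nat_lit 3) (nat_lit 2),
    .c (nat_lit 0) (nat_lit 0x1000020009),.c (nat_lit 4) (nat_lit 0x1800028006),.c (nat_lit 0) (nat_lit 0x200803180d),
    .c (nat_lit 4) (nat_lit 0x280071800c),.c (nat_lit 0) (nat_lit 0x1004001807),.c (nat_lit 1) (nat_lit 0x190a000006),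
    .c (nat_lit 0) (nat_lit 0x200860180d),.c (nat_lit 0) (nat_lit 0x1000400009),
    .r (nat_lit 0xdb7) (nat_lit 14) [nat_lit 0x294e76b006,nat_lit 0x2200c0600e6],.c (nat_lit 4) (nat_lit 2),
    .c (nat_lit 4) (nat_lit 0x6018006),.r (nat_lit 0xdbe) (nat_lit 10) [nat_lit 0x310041,nat_lit 0x294e76b006],
    .c (nat_lit 0) (nat_lit 0x4010007),.c (nat_lit 0) (nat_lit 0x8020007),.c (nat_lit 4) (nat_lit 0xa71000c),
    .c (nat_lit 4) (nat_lit 0x310004),.c (nat_lit 0) (nat_lit 0x10003),.c (nat_lit 5) (nat_lit 2),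
    .c (nat_lit 0) (nat_lit 0x4000803),.c (nat_lit 1) (nat_lit 0x112000006),.c (nat_lit 0) (nat_lit 0x4200005),
    .c (nat_lit 0) (nat_lit 0x4200005),.c (nat_lit 4) (nat_lit 0x21006531ac),.c (nat_lit 1) (nat_lit 0x106000006),
    .c (nat_lit 6) (nat_lit 2),.c (nat_lit 0) (nat_lit 0x200003),.c (nat_lit 8) (nat_lit 2)]]

/-- nodes -/
noncomputable def rD8k_4_3 : List RJ :=
  [.s (nat_lit 17) (nat_lit 0x41a0) (nat_lit 5) (nat_lit 0x20b5000020b500001bc000001bc0000021d1000021d100001c2b00001c2b00001f8100001f8100001b6c00001b6c0000282d0000282d0000292d0000292d) (nat_lit 0x8780000087800000d6d00000d6d0000075c0000075c00000d0200000d02000009ac000009ac00000dc100000dc100000100000001000000000000000000)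
    (nat_lit 0x75c8677c3f441e6e06888348c22aa13b30b84837d425e8120a10da87da4416a2c130be683ae428f813480ce4865642686142d0b7685c24269012f4110087ed42b1e20ed09a4079b81ca60ec309f504cc01d7c0e4e090a04a101bfe0e1b0d44069b04a8819740a3e07e881ca60e530a29051901d7c0e4e090a04a101bfe0e1b0d6006b004fec1c260cac8348c28c813300d72869d428be14e10c0486094282014101035883442aee21d10ce48344428a413ea0d6986b94299e14cf09cb84e5c282014101068884dc43a221d10a1684ecc1c9c0e4e0a6785384276e0ecb093f849fc1c0812f80d9586cac50e61c2b09a1845541d7c0ebe0a678517c272613b7093f849fc189c12d40cba86ba44a7e18f70b84837d42508128409cb8609424fe127f08b5845ac240411c010da8827443be21370b7685c242428121409cb8602424fe127f0a8d845ac240411c0106687ed440d61fc3097a048281c360e1b0a080504025a812f808e00470018ee0e650d15068a836d8192009a404bd01bfe0dff0a0805040189c0e040901048081b560c770d36069b037701b6c0fda87da435801a6c109b8834435d21b2b0fda8827434d81a2a139689cb4505a282d1100886d435801a881068881ac32ea1b2b1066886d434d81a2a139689cb4399e282d10768b04c384c197410e88874431ee1c2b0fe1884dc36d8192014168a0b44e5a292d0ac7882d44fec254410e8855dc4a7e287310358877c37701b6c0e678a0b44f16272d)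
    (nat_lit 0x75c90680834041a020d010680834041a020d010680834041a020d010680834041a00cef83ae4834041a020d010680834041a020d010680834041a020d010680834041a00fd1051f01ca641a020d010680834041a020d010680834041a020d010680834041a00f3704d201d860e5320d010680834041a020d010680834041a020d010680834041a006888672427d414520d7290680834041a020d010680834041a020d010680834041a0069186564266014640d3a86b94834041a020d010680834041a020d010680834041a008aa84d0c1d7c0ebe0a2f8533c276e41a020d010680834041a020d010680834041a009d9850b41c9c0e4e0a708533c1d9613b720d010680834041a020d010680834041a00b8485bb4242812140c0484e5c24fe127f08b590680834041a020d010680834041a006fa85c24250812840c1284e5c24fe127f08b5845ac834041a020d010680834041a0097a04d201bfe0dff0a08050401c080c4e09010480818ee41a020d010680834041a0090504bd01c360e1b0a080504025f012d408e0047001cca0c7720d010680834041a010da8880435101ac01035883443656197510da8833434541a6c139690680834041a00fb487ed434d81ac01068884dc36561ae9104e87ed434541a6c139689cb4834041a0105a8563c4a8827f60abb8874450e6253f10ef881ac36d81bb814168733c4e5a41a01609883b432e81c2610e888744385618f7109b87f0c32401b6c14168a0b4525a272d)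
    (nat_lit 6) (nat_lit 233)
    [[nat_lit 0,nat_lit 5,nat_lit 5],[nat_lit 0,nat_lit 8],[nat_lit 0,nat_lit 9],[nat_lit 0,nat_lit 12],[nat_lit 0,
    nat_lit 13],[nat_lit 1,nat_lit 4,nat_lit 4],[nat_lit 1,nat_lit 8],[nat_lit 1,nat_lit 9],[nat_lit 1,nat_lit 12],
    [nat_lit 1,nat_lit 13],[nat_lit 2,nat_lit 6],[nat_lit 2,nat_lit 7],[nat_lit 2,nat_lit 14],[nat_lit 2,nat_lit 15],
    [nat_lit 3,nat_lit 6],[nat_lit 3,nat_lit 7],[nat_lit 3,nat_lit 14],[nat_lit 3,nat_lit 15],[nat_lit 4,nat_lit 8,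
    nat_lit 10,nat_lit 14],[nat_lit 4,nat_lit 8,nat_lit 15,nat_lit 10],[nat_lit 4,nat_lit 8,nat_lit 15,nat_lit 11],
    [nat_lit 4,nat_lit 9,nat_lit 10,nat_lit 14],[nat_lit 4,nat_lit 9,nat_lit 11,nat_lit 14],[nat_lit 4,nat_lit 9,
    nat_lit 15,nat_lit 11],[nat_lit 4,nat_lit 10,nat_lit 6,nat_lit 8],[nat_lit 4,nat_lit 10,nat_lit 6,nat_lit 12],
    [nat_lit 4,nat_lit 10,nat_lit 8,nat_lit 15],[nat_lit 4,nat_lit 10,nat_lit 9,nat_lit 7],[nat_lit 4,nat_lit 10,
    nat_lit 12,nat_lit 7],[nat_lit 4,nat_lit 10,nat_lit 13,nat_lit 6],[nat_lit 4,nat_lit 10,nat_lit 13,nat_lit 15],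
    [nat_lit 4,nat_lit 10,nat_lit 14,nat_lit 8],[nat_lit 4,nat_lit 10,nat_lit 14,nat_lit 13],[nat_lit 4,nat_lit 11,
    nat_lit 7,nat_lit 13],[nat_lit 4,nat_lit 11,nat_lit 8,nat_lit 15],[nat_lit 4,nat_lit 11,nat_lit 9,nat_lit 15],
    [nat_lit 4,nat_lit 11,nat_lit 12,nat_lit 15],[nat_lit 4,nat_lit 11,nat_lit 13,nat_lit 15],[nat_lit 4,nat_lit 13,
    nat_lit 10,nat_lit 14],[nat_lit 5,nat_lit 6,nat_lit 8,nat_lit 11],[nat_lit 5,nat_lit 6,nat_lit 13,nat_lit 11],
    [nat_lit 5,nat_lit 7,nat_lit 12,nat_lit 11],[nat_lit 5,nat_lit 9,nat_lit 7,nat_lit 11],[nat_lit 5,nat_lit 9,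
    nat_lit 15,nat_lit 11],[nat_lit 5,nat_lit 10,nat_lit 14,nat_lit 8],[nat_lit 5,nat_lit 10,nat_lit 14,nat_lit 9],
    [nat_lit 5,nat_lit 11,nat_lit 14,nat_lit 9],[nat_lit 5,nat_lit 12,nat_lit 6,nat_lit 10],[nat_lit 5,nat_lit 12,
    nat_lit 15,nat_lit 11],[nat_lit 5,nat_lit 13,nat_lit 7,nat_lit 11],[nat_lit 5,nat_lit 14,nat_lit 8,nat_lit 10],
    [nat_lit 5,nat_lit 14,nat_lit 9,nat_lit 10],[nat_lit 5,nat_lit 14,nat_lit 9,nat_lit 11],[nat_lit 5,nat_lit 14,
    nat_lit 12,nat_lit 10],[nat_lit 5,nat_lit 14,nat_lit 12,nat_lit 11],[nat_lit 5,nat_lit 14,nat_lit 13,nat_lit 10],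
    [nat_lit 5,nat_lit 15,nat_lit 10,nat_lit 8],[nat_lit 5,nat_lit 15,nat_lit 11,nat_lit 8],[nat_lit 5,nat_lit 15,
    nat_lit 11,nat_lit 9],[nat_lit 5,nat_lit 15,nat_lit 11,nat_lit 12],[nat_lit 6,nat_lit 8,nat_lit 13,nat_lit 13],
    [nat_lit 6,nat_lit 9,nat_lit 8,nat_lit 9],[nat_lit 6,nat_lit 9,nat_lit 12,nat_lit 8],[nat_lit 6,nat_lit 9,
    nat_lit 12,nat_lit 13],[nat_lit 6,nat_lit 9,nat_lit 13,nat_lit 8],[nat_lit 6,nat_lit 10,nat_lit 10],[nat_lit 6,
    nat_lit 10,nat_lit 11],[nat_lit 6,nat_lit 11,nat_lit 11],[nat_lit 6,nat_lit 12,nat_lit 12,nat_lit 8],[nat_lit 6,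
    nat_lit 12,nat_lit 12,nat_lit 12],[nat_lit 6,nat_lit 12,nat_lit 12,nat_lit 13],[nat_lit 6,nat_lit 12,nat_lit 13,
    nat_lit 8],[nat_lit 6,nat_lit 12,nat_lit 13,nat_lit 13],[nat_lit 6,nat_lit 13,nat_lit 8,nat_lit 12],[nat_lit 6,
    nat_lit 13,nat_lit 9,nat_lit 8],[nat_lit 6,nat_lit 13,nat_lit 9,nat_lit 9],[nat_lit 6,nat_lit 13,nat_lit 9,
    nat_lit 12],[nat_lit 6,nat_lit 13,nat_lit 13,nat_lit 8],[nat_lit 6,nat_lit 13,nat_lit 13,nat_lit 13],[nat_lit 7,
    nat_lit 8,nat_lit 8,nat_lit 12],[nat_lit 7,nat_lit 8,nat_lit 9,nat_lit 8],[nat_lit 7,nat_lit 9,nat_lit 8,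
    nat_lit 12],[nat_lit 7,nat_lit 9,nat_lit 12,nat_lit 8],[nat_lit 7,nat_lit 9,nat_lit 12,nat_lit 12],[nat_lit 7,
    nat_lit 9,nat_lit 12,nat_lit 13],[nat_lit 7,nat_lit 9,nat_lit 13,nat_lit 8],[nat_lit 7,nat_lit 9,nat_lit 13,
    nat_lit 13],[nat_lit 7,nat_lit 10,nat_lit 10],[nat_lit 7,nat_lit 10,nat_lit 11],[nat_lit 7,nat_lit 11,nat_lit 11],
    [nat_lit 7,nat_lit 12,nat_lit 12,nat_lit 9],[nat_lit 7,nat_lit 12,nat_lit 12,nat_lit 12],[nat_lit 7,nat_lit 12,
    nat_lit 12,nat_lit 13],[nat_lit 7,nat_lit 12,nat_lit 13,nat_lit 8],[nat_lit 7,nat_lit 12,nat_lit 13,nat_lit 13],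
    [nat_lit 7,nat_lit 13,nat_lit 8,nat_lit 12],[nat_lit 7,nat_lit 13,nat_lit 9,nat_lit 12],[nat_lit 7,nat_lit 13,
    nat_lit 13,nat_lit 13],[nat_lit 8,nat_lit 8,nat_lit 8,nat_lit 14],[nat_lit 8,nat_lit 8,nat_lit 8,nat_lit 15],
    [nat_lit 8,nat_lit 8,nat_lit 14,nat_lit 8],[nat_lit 8,nat_lit 8,nat_lit 14,nat_lit 9],[nat_lit 8,nat_lit 8,
    nat_lit 15,nat_lit 8],[nat_lit 8,nat_lit 8,nat_lit 15,nat_lit 9],[nat_lit 8,nat_lit 12,nat_lit 8,nat_lit 14],
    [nat_lit 8,nat_lit 14,nat_lit 8,nat_lit 8],[nat_lit 8,nat_lit 14,nat_lit 8,nat_lit 12],[nat_lit 8,nat_lit 14,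
    nat_lit 9,nat_lit 8],[nat_lit 8,nat_lit 14,nat_lit 9,nat_lit 9],[nat_lit 8,nat_lit 14,nat_lit 9,nat_lit 12],
    [nat_lit 8,nat_lit 14,nat_lit 9,nat_lit 13],[nat_lit 8,nat_lit 14,nat_lit 12,nat_lit 12],[nat_lit 8,nat_lit 14,
    nat_lit 12,nat_lit 13],[nat_lit 8,nat_lit 15,nat_lit 8,nat_lit 8],[nat_lit 8,nat_lit 15,nat_lit 9,nat_lit 8],
    [nat_lit 8,nat_lit 15,nat_lit 9,nat_lit 9],[nat_lit 8,nat_lit 15,nat_lit 9,nat_lit 12],[nat_lit 8,nat_lit 15,
    nat_lit 9,nat_lit 13],[nat_lit 9,nat_lit 9,nat_lit 9,nat_lit 14],[nat_lit 9,nat_lit 9,nat_lit 9,nat_lit 15],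
    [nat_lit 9,nat_lit 9,nat_lit 14,nat_lit 9],[nat_lit 9,nat_lit 9,nat_lit 15,nat_lit 9],[nat_lit 9,nat_lit 12,
    nat_lit 13,nat_lit 15],[nat_lit 9,nat_lit 13,nat_lit 9,nat_lit 15],[nat_lit 9,nat_lit 13,nat_lit 13,nat_lit 15],
    [nat_lit 9,nat_lit 14,nat_lit 9,nat_lit 9],[nat_lit 9,nat_lit 15,nat_lit 9,nat_lit 9],[nat_lit 9,nat_lit 15,
    nat_lit 9,nat_lit 13],[nat_lit 10,nat_lit 10,nat_lit 14],[nat_lit 10,nat_lit 10,nat_lit 15],[nat_lit 10,
    nat_lit 11,nat_lit 14],[nat_lit 10,nat_lit 11,nat_lit 15],[nat_lit 10,nat_lit 14,nat_lit 10],[nat_lit 10,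
    nat_lit 14,nat_lit 11],[nat_lit 10,nat_lit 15,nat_lit 10],[nat_lit 10,nat_lit 15,nat_lit 11],[nat_lit 11,
    nat_lit 11,nat_lit 14],[nat_lit 11,nat_lit 11,nat_lit 15],[nat_lit 11,nat_lit 14,nat_lit 11],[nat_lit 11,
    nat_lit 15,nat_lit 11]]
    [nat_lit 0x1055,nat_lit 264,nat_lit 265,nat_lit 268,nat_lit 269,nat_lit 0x1144,nat_lit 280,nat_lit 281,
    nat_lit 284,nat_lit 285,nat_lit 294,nat_lit 295,nat_lit 302,nat_lit 303,nat_lit 310,nat_lit 311,nat_lit 318,
    nat_lit 319,nat_lit 0x148ae,nat_lit 0x148fa,nat_lit 0x148fb,nat_lit 0x149ae,nat_lit 0x149be,nat_lit 0x149fb,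
    nat_lit 0x14a68,nat_lit 0x14a6c,nat_lit 0x14a8f,nat_lit 0x14a97,nat_lit 0x14ac7,nat_lit 0x14ad6,nat_lit 0x14adf,
    nat_lit 0x14ae8,nat_lit 0x14aed,nat_lit 0x14b7d,nat_lit 0x14b8f,nat_lit 0x14b9f,nat_lit 0x14bcf,nat_lit 0x14bdf,
    nat_lit 0x14dae,nat_lit 0x1568b,nat_lit 0x156db,nat_lit 0x157cb,nat_lit 0x1597b,nat_lit 0x159fb,nat_lit 0x15ae8,
    nat_lit 0x15ae9,nat_lit 0x15be9,nat_lit 0x15c6a,nat_lit 0x15cfb,nat_lit 0x15d7b,nat_lit 0x15e8a,nat_lit 0x15e9a,
    nat_lit 0x15e9b,nat_lit 0x15eca,nat_lit 0x15ecb,nat_lit 0x15eda,nat_lit 0x15fa8,nat_lit 0x15fb8,nat_lit 0x15fb9,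
    nat_lit 0x15fbc,nat_lit 0x168dd,nat_lit 0x16989,nat_lit 0x169c8,nat_lit 0x169cd,nat_lit 0x169d8,nat_lit 0x16aa,
    nat_lit 0x16ab,nat_lit 0x16bb,nat_lit 0x16cc8,nat_lit 0x16ccc,nat_lit 0x16ccd,nat_lit 0x16cd8,nat_lit 0x16cdd,
    nat_lit 0x16d8c,nat_lit 0x16d98,nat_lit 0x16d99,nat_lit 0x16d9c,nat_lit 0x16dd8,nat_lit 0x16ddd,nat_lit 0x1788c,
    nat_lit 0x17898,nat_lit 0x1798c,nat_lit 0x179c8,nat_lit 0x179cc,nat_lit 0x179cd,nat_lit 0x179d8,nat_lit 0x179dd,
    nat_lit 0x17aa,nat_lit 0x17ab,nat_lit 0x17bb,nat_lit 0x17cc9,nat_lit 0x17ccc,nat_lit 0x17ccd,nat_lit 0x17cd8,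
    nat_lit 0x17cdd,nat_lit 0x17d8c,nat_lit 0x17d9c,nat_lit 0x17ddd,nat_lit 0x1888e,nat_lit 0x1888f,nat_lit 0x188e8,
    nat_lit 0x188e9,nat_lit 0x188f8,nat_lit 0x188f9,nat_lit 0x18c8e,nat_lit 0x18e88,nat_lit 0x18e8c,nat_lit 0x18e98,
    nat_lit 0x18e99,nat_lit 0x18e9c,nat_lit 0x18e9d,nat_lit 0x18ecc,nat_lit 0x18ecd,nat_lit 0x18f88,nat_lit 0x18f98,
    nat_lit 0x18f99,nat_lit 0x18f9c,nat_lit 0x18f9d,nat_lit 0x1999e,nat_lit 0x1999f,nat_lit 0x199e9,nat_lit 0x199f9,
    nat_lit 0x19cdf,nat_lit 0x19d9f,nat_lit 0x19ddf,nat_lit 0x19e99,nat_lit 0x19f99,nat_lit 0x19f9d,nat_lit 0x1aae,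
    nat_lit 0x1aaf,nat_lit 0x1abe,nat_lit 0x1abf,nat_lit 0x1aea,nat_lit 0x1aeb,nat_lit 0x1afa,nat_lit 0x1afb,
    nat_lit 0x1bbe,nat_lit 0x1bbf,nat_lit 0x1beb,nat_lit 0x1bfb]
    [[[nat_lit 0,nat_lit 5,nat_lit 5],[nat_lit 0,nat_lit 8],[nat_lit 0,nat_lit 9],[nat_lit 0,nat_lit 12],[nat_lit 0,
    nat_lit 13],[nat_lit 1,nat_lit 4,nat_lit 4],[nat_lit 1,nat_lit 8],[nat_lit 1,nat_lit 9],[nat_lit 1,nat_lit 12],
    [nat_lit 1,nat_lit 13],[nat_lit 2,nat_lit 6],[nat_lit 2,nat_lit 7]],[[nat_lit 2,nat_lit 14],[nat_lit 2,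
    nat_lit 15],[nat_lit 3,nat_lit 6],[nat_lit 3,nat_lit 7],[nat_lit 3,nat_lit 14],[nat_lit 3,nat_lit 15],[nat_lit 4,
    nat_lit 1,nat_lit 4],[nat_lit 4,nat_lit 4,nat_lit 1],[nat_lit 4,nat_lit 8,nat_lit 10,nat_lit 14],[nat_lit 4,
    nat_lit 8,nat_lit 15,nat_lit 10],[nat_lit 4,nat_lit 8,nat_lit 15,nat_lit 11],[nat_lit 4,nat_lit 9,nat_lit 10,
    nat_lit 14]],[[nat_lit 4,nat_lit 9,nat_lit 11,nat_lit 14],[nat_lit 4,nat_lit 9,nat_lit 15,nat_lit 11],[nat_lit 4,
    nat_lit 10,nat_lit 6,nat_lit 8],[nat_lit 4,nat_lit 10,nat_lit 6,nat_lit 12],[nat_lit 4,nat_lit 10,nat_lit 8,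
    nat_lit 15],[nat_lit 4,nat_lit 10,nat_lit 9,nat_lit 7],[nat_lit 4,nat_lit 10,nat_lit 12,nat_lit 7],[nat_lit 4,
    nat_lit 10,nat_lit 13,nat_lit 6],[nat_lit 4,nat_lit 10,nat_lit 13,nat_lit 15],[nat_lit 4,nat_lit 10,nat_lit 14,
    nat_lit 8],[nat_lit 4,nat_lit 10,nat_lit 14,nat_lit 13],[nat_lit 4,nat_lit 11,nat_lit 7,nat_lit 13]],[[nat_lit 4,
    nat_lit 11,nat_lit 8,nat_lit 15],[nat_lit 4,nat_lit 11,nat_lit 9,nat_lit 15],[nat_lit 4,nat_lit 11,nat_lit 12,
    nat_lit 15],[nat_lit 4,nat_lit 11,nat_lit 13,nat_lit 15],[nat_lit 4,nat_lit 13,nat_lit 10,nat_lit 14],[nat_lit 5,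
    nat_lit 0,nat_lit 5],[nat_lit 5,nat_lit 5,nat_lit 0],[nat_lit 5,nat_lit 6,nat_lit 8,nat_lit 11],[nat_lit 5,
    nat_lit 6,nat_lit 13,nat_lit 11],[nat_lit 5,nat_lit 7,nat_lit 12,nat_lit 11],[nat_lit 5,nat_lit 9,nat_lit 7,
    nat_lit 11],[nat_lit 5,nat_lit 9,nat_lit 15,nat_lit 11]],[[nat_lit 5,nat_lit 10,nat_lit 14,nat_lit 8],[nat_lit 5,
    nat_lit 10,nat_lit 14,nat_lit 9],[nat_lit 5,nat_lit 11,nat_lit 14,nat_lit 9],[nat_lit 5,nat_lit 12,nat_lit 6,
    nat_lit 10],[nat_lit 5,nat_lit 12,nat_lit 15,nat_lit 11],[nat_lit 5,nat_lit 13,nat_lit 7,nat_lit 11],[nat_lit 5,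
    nat_lit 14,nat_lit 8,nat_lit 10],[nat_lit 5,nat_lit 14,nat_lit 9,nat_lit 10],[nat_lit 5,nat_lit 14,nat_lit 9,
    nat_lit 11],[nat_lit 5,nat_lit 14,nat_lit 12,nat_lit 10],[nat_lit 5,nat_lit 14,nat_lit 12,nat_lit 11],[nat_lit 5,
    nat_lit 14,nat_lit 13,nat_lit 10]],[[nat_lit 5,nat_lit 15,nat_lit 10,nat_lit 8],[nat_lit 5,nat_lit 15,nat_lit 11,
    nat_lit 8],[nat_lit 5,nat_lit 15,nat_lit 11,nat_lit 9],[nat_lit 5,nat_lit 15,nat_lit 11,nat_lit 12],[nat_lit 6,
    nat_lit 2],[nat_lit 6,nat_lit 3],[nat_lit 6,nat_lit 4,nat_lit 10,nat_lit 13],[nat_lit 6,nat_lit 8,nat_lit 4,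
    nat_lit 10],[nat_lit 6,nat_lit 8,nat_lit 11,nat_lit 5],[nat_lit 6,nat_lit 8,nat_lit 13,nat_lit 13],[nat_lit 6,
    nat_lit 9,nat_lit 8,nat_lit 9],[nat_lit 6,nat_lit 9,nat_lit 12,nat_lit 8]],[[nat_lit 6,nat_lit 9,nat_lit 12,
    nat_lit 13],[nat_lit 6,nat_lit 9,nat_lit 13,nat_lit 8],[nat_lit 6,nat_lit 10,nat_lit 5,nat_lit 12],[nat_lit 6,
    nat_lit 10,nat_lit 10],[nat_lit 6,nat_lit 10,nat_lit 11],[nat_lit 6,nat_lit 11,nat_lit 11],[nat_lit 6,nat_lit 12,
    nat_lit 4,nat_lit 10],[nat_lit 6,nat_lit 12,nat_lit 12,nat_lit 8],[nat_lit 6,nat_lit 12,nat_lit 12,nat_lit 12],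
    [nat_lit 6,nat_lit 12,nat_lit 12,nat_lit 13],[nat_lit 6,nat_lit 12,nat_lit 13,nat_lit 8],[nat_lit 6,nat_lit 12,
    nat_lit 13,nat_lit 13]],[[nat_lit 6,nat_lit 13,nat_lit 8,nat_lit 12],[nat_lit 6,nat_lit 13,nat_lit 9,nat_lit 8],
    [nat_lit 6,nat_lit 13,nat_lit 9,nat_lit 9],[nat_lit 6,nat_lit 13,nat_lit 9,nat_lit 12],[nat_lit 6,nat_lit 13,
    nat_lit 11,nat_lit 5],[nat_lit 6,nat_lit 13,nat_lit 13,nat_lit 8],[nat_lit 6,nat_lit 13,nat_lit 13,nat_lit 13],
    [nat_lit 7,nat_lit 2],[nat_lit 7,nat_lit 3],[nat_lit 7,nat_lit 4,nat_lit 10,nat_lit 9],[nat_lit 7,nat_lit 4,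
    nat_lit 10,nat_lit 12],[nat_lit 7,nat_lit 8,nat_lit 8,nat_lit 12]],[[nat_lit 7,nat_lit 8,nat_lit 9,nat_lit 8],
    [nat_lit 7,nat_lit 9,nat_lit 8,nat_lit 12],[nat_lit 7,nat_lit 9,nat_lit 12,nat_lit 8],[nat_lit 7,nat_lit 9,
    nat_lit 12,nat_lit 12],[nat_lit 7,nat_lit 9,nat_lit 12,nat_lit 13],[nat_lit 7,nat_lit 9,nat_lit 13,nat_lit 8],
    [nat_lit 7,nat_lit 9,nat_lit 13,nat_lit 13],[nat_lit 7,nat_lit 10,nat_lit 10],[nat_lit 7,nat_lit 10,nat_lit 11],
    [nat_lit 7,nat_lit 11,nat_lit 5,nat_lit 9],[nat_lit 7,nat_lit 11,nat_lit 5,nat_lit 13],[nat_lit 7,nat_lit 11,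
    nat_lit 11]],[[nat_lit 7,nat_lit 12,nat_lit 11,nat_lit 5],[nat_lit 7,nat_lit 12,nat_lit 12,nat_lit 9],[nat_lit 7,
    nat_lit 12,nat_lit 12,nat_lit 12],[nat_lit 7,nat_lit 12,nat_lit 12,nat_lit 13],[nat_lit 7,nat_lit 12,nat_lit 13,
    nat_lit 8],[nat_lit 7,nat_lit 12,nat_lit 13,nat_lit 13],[nat_lit 7,nat_lit 13,nat_lit 4,nat_lit 11],[nat_lit 7,
    nat_lit 13,nat_lit 8,nat_lit 12],[nat_lit 7,nat_lit 13,nat_lit 9,nat_lit 12],[nat_lit 7,nat_lit 13,nat_lit 13,
    nat_lit 13],[nat_lit 8,nat_lit 0],[nat_lit 8,nat_lit 1]],[[nat_lit 8,nat_lit 4,nat_lit 10,nat_lit 6],[nat_lit 8,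
    nat_lit 4,nat_lit 10,nat_lit 14],[nat_lit 8,nat_lit 5,nat_lit 10,nat_lit 14],[nat_lit 8,nat_lit 5,nat_lit 15,
    nat_lit 10],[nat_lit 8,nat_lit 5,nat_lit 15,nat_lit 11],[nat_lit 8,nat_lit 6,nat_lit 9,nat_lit 12],[nat_lit 8,
    nat_lit 6,nat_lit 9,nat_lit 13],[nat_lit 8,nat_lit 6,nat_lit 12,nat_lit 12],[nat_lit 8,nat_lit 6,nat_lit 12,
    nat_lit 13],[nat_lit 8,nat_lit 6,nat_lit 13,nat_lit 9],[nat_lit 8,nat_lit 6,nat_lit 13,nat_lit 13],[nat_lit 8,
    nat_lit 7,nat_lit 8,nat_lit 9]],[[nat_lit 8,nat_lit 7,nat_lit 9,nat_lit 12],[nat_lit 8,nat_lit 7,nat_lit 9,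
    nat_lit 13],[nat_lit 8,nat_lit 7,nat_lit 12,nat_lit 13],[nat_lit 8,nat_lit 8,nat_lit 8,nat_lit 14],[nat_lit 8,
    nat_lit 8,nat_lit 8,nat_lit 15],[nat_lit 8,nat_lit 8,nat_lit 12,nat_lit 7],[nat_lit 8,nat_lit 8,nat_lit 14,
    nat_lit 8],[nat_lit 8,nat_lit 8,nat_lit 14,nat_lit 9],[nat_lit 8,nat_lit 8,nat_lit 15,nat_lit 8],[nat_lit 8,
    nat_lit 8,nat_lit 15,nat_lit 9],[nat_lit 8,nat_lit 9,nat_lit 6,nat_lit 9],[nat_lit 8,nat_lit 9,nat_lit 8,
    nat_lit 7]],[[nat_lit 8,nat_lit 10,nat_lit 5,nat_lit 14],[nat_lit 8,nat_lit 10,nat_lit 14,nat_lit 4],[nat_lit 8,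
    nat_lit 11,nat_lit 5,nat_lit 6],[nat_lit 8,nat_lit 12,nat_lit 6,nat_lit 13],[nat_lit 8,nat_lit 12,nat_lit 7,
    nat_lit 8],[nat_lit 8,nat_lit 12,nat_lit 7,nat_lit 9],[nat_lit 8,nat_lit 12,nat_lit 7,nat_lit 13],[nat_lit 8,
    nat_lit 12,nat_lit 8,nat_lit 14],[nat_lit 8,nat_lit 13,nat_lit 13,nat_lit 6],[nat_lit 8,nat_lit 14,nat_lit 8,
    nat_lit 8],[nat_lit 8,nat_lit 14,nat_lit 8,nat_lit 12],[nat_lit 8,nat_lit 14,nat_lit 9,nat_lit 8]],[[nat_lit 8,
    nat_lit 14,nat_lit 9,nat_lit 9],[nat_lit 8,nat_lit 14,nat_lit 9,nat_lit 12],[nat_lit 8,nat_lit 14,nat_lit 9,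
    nat_lit 13],[nat_lit 8,nat_lit 14,nat_lit 12,nat_lit 12],[nat_lit 8,nat_lit 14,nat_lit 12,nat_lit 13],[nat_lit 8,
    nat_lit 15,nat_lit 4,nat_lit 10],[nat_lit 8,nat_lit 15,nat_lit 4,nat_lit 11],[nat_lit 8,nat_lit 15,nat_lit 8,
    nat_lit 8],[nat_lit 8,nat_lit 15,nat_lit 9,nat_lit 8],[nat_lit 8,nat_lit 15,nat_lit 9,nat_lit 9],[nat_lit 8,
    nat_lit 15,nat_lit 9,nat_lit 12],[nat_lit 8,nat_lit 15,nat_lit 9,nat_lit 13]],[[nat_lit 8,nat_lit 15,nat_lit 10,
    nat_lit 4],[nat_lit 8,nat_lit 15,nat_lit 11,nat_lit 4],[nat_lit 9,nat_lit 0],[nat_lit 9,nat_lit 1],[nat_lit 9,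
    nat_lit 5,nat_lit 10,nat_lit 14],[nat_lit 9,nat_lit 5,nat_lit 11,nat_lit 14],[nat_lit 9,nat_lit 5,nat_lit 15,
    nat_lit 11],[nat_lit 9,nat_lit 6,nat_lit 9,nat_lit 8],[nat_lit 9,nat_lit 6,nat_lit 13,nat_lit 9],[nat_lit 9,
    nat_lit 7,nat_lit 4,nat_lit 10],[nat_lit 9,nat_lit 7,nat_lit 11,nat_lit 5],[nat_lit 9,nat_lit 7,nat_lit 12,
    nat_lit 12]],[[nat_lit 9,nat_lit 8,nat_lit 6,nat_lit 13],[nat_lit 9,nat_lit 8,nat_lit 7,nat_lit 8],[nat_lit 9,
    nat_lit 8,nat_lit 8,nat_lit 14],[nat_lit 9,nat_lit 8,nat_lit 8,nat_lit 15],[nat_lit 9,nat_lit 8,nat_lit 9,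
    nat_lit 6],[nat_lit 9,nat_lit 8,nat_lit 12,nat_lit 7],[nat_lit 9,nat_lit 8,nat_lit 14,nat_lit 9],[nat_lit 9,
    nat_lit 8,nat_lit 15,nat_lit 9],[nat_lit 9,nat_lit 9,nat_lit 6,nat_lit 13],[nat_lit 9,nat_lit 9,nat_lit 8,
    nat_lit 14],[nat_lit 9,nat_lit 9,nat_lit 8,nat_lit 15],[nat_lit 9,nat_lit 9,nat_lit 9,nat_lit 14]],[[nat_lit 9,
    nat_lit 9,nat_lit 9,nat_lit 15],[nat_lit 9,nat_lit 9,nat_lit 14,nat_lit 9],[nat_lit 9,nat_lit 9,nat_lit 15,
    nat_lit 9],[nat_lit 9,nat_lit 10,nat_lit 5,nat_lit 14],[nat_lit 9,nat_lit 10,nat_lit 14,nat_lit 4],[nat_lit 9,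
    nat_lit 11,nat_lit 5,nat_lit 14],[nat_lit 9,nat_lit 11,nat_lit 14,nat_lit 4],[nat_lit 9,nat_lit 12,nat_lit 6,
    nat_lit 13],[nat_lit 9,nat_lit 12,nat_lit 7,nat_lit 13],[nat_lit 9,nat_lit 12,nat_lit 8,nat_lit 6],[nat_lit 9,
    nat_lit 12,nat_lit 8,nat_lit 7],[nat_lit 9,nat_lit 12,nat_lit 8,nat_lit 14]],[[nat_lit 9,nat_lit 12,nat_lit 8,
    nat_lit 15],[nat_lit 9,nat_lit 12,nat_lit 12,nat_lit 7],[nat_lit 9,nat_lit 12,nat_lit 13,nat_lit 6],[nat_lit 9,
    nat_lit 12,nat_lit 13,nat_lit 7],[nat_lit 9,nat_lit 12,nat_lit 13,nat_lit 15],[nat_lit 9,nat_lit 13,nat_lit 8,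
    nat_lit 6],[nat_lit 9,nat_lit 13,nat_lit 8,nat_lit 7],[nat_lit 9,nat_lit 13,nat_lit 8,nat_lit 14],[nat_lit 9,
    nat_lit 13,nat_lit 8,nat_lit 15],[nat_lit 9,nat_lit 13,nat_lit 9,nat_lit 15],[nat_lit 9,nat_lit 13,nat_lit 13,
    nat_lit 7],[nat_lit 9,nat_lit 13,nat_lit 13,nat_lit 15]],[[nat_lit 9,nat_lit 14,nat_lit 9,nat_lit 9],[nat_lit 9,
    nat_lit 15,nat_lit 4,nat_lit 11],[nat_lit 9,nat_lit 15,nat_lit 9,nat_lit 9],[nat_lit 9,nat_lit 15,nat_lit 9,
    nat_lit 13],[nat_lit 9,nat_lit 15,nat_lit 11,nat_lit 4],[nat_lit 9,nat_lit 15,nat_lit 11,nat_lit 5],[nat_lit 10,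
    nat_lit 4,nat_lit 8,nat_lit 15],[nat_lit 10,nat_lit 5,nat_lit 12,nat_lit 6],[nat_lit 10,nat_lit 5,nat_lit 14,
    nat_lit 8],[nat_lit 10,nat_lit 5,nat_lit 14,nat_lit 9],[nat_lit 10,nat_lit 5,nat_lit 14,nat_lit 12],[nat_lit 10,
    nat_lit 5,nat_lit 14,nat_lit 13]],[[nat_lit 10,nat_lit 6,nat_lit 8,nat_lit 4],[nat_lit 10,nat_lit 6,nat_lit 10],
    [nat_lit 10,nat_lit 6,nat_lit 12,nat_lit 4],[nat_lit 10,nat_lit 7,nat_lit 10],[nat_lit 10,nat_lit 8,nat_lit 5,
    nat_lit 15],[nat_lit 10,nat_lit 8,nat_lit 15,nat_lit 4],[nat_lit 10,nat_lit 9,nat_lit 7,nat_lit 4],[nat_lit 10,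
    nat_lit 10,nat_lit 6],[nat_lit 10,nat_lit 10,nat_lit 7],[nat_lit 10,nat_lit 10,nat_lit 14],[nat_lit 10,nat_lit 10,
    nat_lit 15],[nat_lit 10,nat_lit 11,nat_lit 6]],[[nat_lit 10,nat_lit 11,nat_lit 7],[nat_lit 10,nat_lit 11,
    nat_lit 14],[nat_lit 10,nat_lit 11,nat_lit 15],[nat_lit 10,nat_lit 12,nat_lit 7,nat_lit 4],[nat_lit 10,nat_lit 13,
    nat_lit 6,nat_lit 4],[nat_lit 10,nat_lit 13,nat_lit 15,nat_lit 4],[nat_lit 10,nat_lit 14,nat_lit 4,nat_lit 8],
    [nat_lit 10,nat_lit 14,nat_lit 4,nat_lit 9],[nat_lit 10,nat_lit 14,nat_lit 4,nat_lit 13],[nat_lit 10,nat_lit 14,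
    nat_lit 8,nat_lit 4],[nat_lit 10,nat_lit 14,nat_lit 8,nat_lit 5],[nat_lit 10,nat_lit 14,nat_lit 9,nat_lit 5]],
    [[nat_lit 10,nat_lit 14,nat_lit 10],[nat_lit 10,nat_lit 14,nat_lit 11],[nat_lit 10,nat_lit 14,nat_lit 13,
    nat_lit 4],[nat_lit 10,nat_lit 15,nat_lit 10],[nat_lit 10,nat_lit 15,nat_lit 11],[nat_lit 11,nat_lit 4,nat_lit 8,
    nat_lit 15],[nat_lit 11,nat_lit 4,nat_lit 9,nat_lit 15],[nat_lit 11,nat_lit 5,nat_lit 6,nat_lit 8],[nat_lit 11,
    nat_lit 5,nat_lit 6,nat_lit 13],[nat_lit 11,nat_lit 5,nat_lit 7,nat_lit 12],[nat_lit 11,nat_lit 5,nat_lit 9,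
    nat_lit 7],[nat_lit 11,nat_lit 5,nat_lit 9,nat_lit 15]],[[nat_lit 11,nat_lit 5,nat_lit 12,nat_lit 15],[nat_lit 11,
    nat_lit 5,nat_lit 13,nat_lit 7],[nat_lit 11,nat_lit 5,nat_lit 14,nat_lit 9],[nat_lit 11,nat_lit 5,nat_lit 14,
    nat_lit 12],[nat_lit 11,nat_lit 6,nat_lit 10],[nat_lit 11,nat_lit 6,nat_lit 11],[nat_lit 11,nat_lit 7,nat_lit 10],
    [nat_lit 11,nat_lit 7,nat_lit 11],[nat_lit 11,nat_lit 7,nat_lit 13,nat_lit 4],[nat_lit 11,nat_lit 8,nat_lit 5,
    nat_lit 15],[nat_lit 11,nat_lit 8,nat_lit 15,nat_lit 4],[nat_lit 11,nat_lit 9,nat_lit 5,nat_lit 15]],[[nat_lit 11,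
    nat_lit 9,nat_lit 15,nat_lit 4],[nat_lit 11,nat_lit 10,nat_lit 14],[nat_lit 11,nat_lit 10,nat_lit 15],[nat_lit 11,
    nat_lit 11,nat_lit 6],[nat_lit 11,nat_lit 11,nat_lit 7],[nat_lit 11,nat_lit 11,nat_lit 14],[nat_lit 11,nat_lit 11,
    nat_lit 15],[nat_lit 11,nat_lit 12,nat_lit 5,nat_lit 15],[nat_lit 11,nat_lit 12,nat_lit 15,nat_lit 4],[nat_lit 11,
    nat_lit 13,nat_lit 15,nat_lit 4],[nat_lit 11,nat_lit 14,nat_lit 4,nat_lit 9],[nat_lit 11,nat_lit 14,nat_lit 9,
    nat_lit 5]],[[nat_lit 11,nat_lit 14,nat_lit 10],[nat_lit 11,nat_lit 14,nat_lit 11],[nat_lit 11,nat_lit 15,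
    nat_lit 10],[nat_lit 11,nat_lit 15,nat_lit 11],[nat_lit 12,nat_lit 0],[nat_lit 12,nat_lit 1],[nat_lit 12,
    nat_lit 4,nat_lit 10,nat_lit 6],[nat_lit 12,nat_lit 5,nat_lit 15,nat_lit 11],[nat_lit 12,nat_lit 6,nat_lit 10,
    nat_lit 5],[nat_lit 12,nat_lit 6,nat_lit 12,nat_lit 12],[nat_lit 12,nat_lit 6,nat_lit 13,nat_lit 8],[nat_lit 12,
    nat_lit 6,nat_lit 13,nat_lit 9]],[[nat_lit 12,nat_lit 7,nat_lit 4,nat_lit 10],[nat_lit 12,nat_lit 7,nat_lit 8,
    nat_lit 8],[nat_lit 12,nat_lit 7,nat_lit 9,nat_lit 8],[nat_lit 12,nat_lit 7,nat_lit 9,nat_lit 12],[nat_lit 12,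
    nat_lit 7,nat_lit 12,nat_lit 12],[nat_lit 12,nat_lit 7,nat_lit 13,nat_lit 8],[nat_lit 12,nat_lit 7,nat_lit 13,
    nat_lit 9],[nat_lit 12,nat_lit 8,nat_lit 6,nat_lit 9],[nat_lit 12,nat_lit 8,nat_lit 6,nat_lit 12],[nat_lit 12,
    nat_lit 8,nat_lit 7,nat_lit 9],[nat_lit 12,nat_lit 8,nat_lit 14,nat_lit 8],[nat_lit 12,nat_lit 8,nat_lit 14,
    nat_lit 9]],[[nat_lit 12,nat_lit 8,nat_lit 14,nat_lit 12],[nat_lit 12,nat_lit 8,nat_lit 15,nat_lit 9],[nat_lit 12,
    nat_lit 9,nat_lit 7,nat_lit 12],[nat_lit 12,nat_lit 10,nat_lit 5,nat_lit 14],[nat_lit 12,nat_lit 11,nat_lit 5,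
    nat_lit 7],[nat_lit 12,nat_lit 11,nat_lit 5,nat_lit 14],[nat_lit 12,nat_lit 12,nat_lit 6,nat_lit 12],[nat_lit 12,
    nat_lit 12,nat_lit 7,nat_lit 9],[nat_lit 12,nat_lit 12,nat_lit 7,nat_lit 12],[nat_lit 12,nat_lit 12,nat_lit 8,
    nat_lit 6],[nat_lit 12,nat_lit 12,nat_lit 8,nat_lit 14],[nat_lit 12,nat_lit 12,nat_lit 9,nat_lit 7]],[[nat_lit 12,
    nat_lit 12,nat_lit 12,nat_lit 6],[nat_lit 12,nat_lit 12,nat_lit 12,nat_lit 7],[nat_lit 12,nat_lit 12,nat_lit 13,
    nat_lit 6],[nat_lit 12,nat_lit 12,nat_lit 13,nat_lit 7],[nat_lit 12,nat_lit 13,nat_lit 6,nat_lit 9],[nat_lit 12,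
    nat_lit 13,nat_lit 6,nat_lit 12],[nat_lit 12,nat_lit 13,nat_lit 7,nat_lit 9],[nat_lit 12,nat_lit 13,nat_lit 7,
    nat_lit 12],[nat_lit 12,nat_lit 13,nat_lit 8,nat_lit 6],[nat_lit 12,nat_lit 13,nat_lit 8,nat_lit 7],[nat_lit 12,
    nat_lit 13,nat_lit 8,nat_lit 14],[nat_lit 12,nat_lit 13,nat_lit 13,nat_lit 6]],[[nat_lit 12,nat_lit 13,nat_lit 13,
    nat_lit 7],[nat_lit 12,nat_lit 13,nat_lit 15,nat_lit 9],[nat_lit 12,nat_lit 15,nat_lit 4,nat_lit 11],[nat_lit 12,
    nat_lit 15,nat_lit 11,nat_lit 5],[nat_lit 13,nat_lit 0],[nat_lit 13,nat_lit 1],[nat_lit 13,nat_lit 4,nat_lit 10,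
    nat_lit 14],[nat_lit 13,nat_lit 4,nat_lit 11,nat_lit 7],[nat_lit 13,nat_lit 6,nat_lit 4,nat_lit 10],[nat_lit 13,
    nat_lit 6,nat_lit 8,nat_lit 13],[nat_lit 13,nat_lit 6,nat_lit 9,nat_lit 12],[nat_lit 13,nat_lit 6,nat_lit 12,
    nat_lit 12]],[[nat_lit 13,nat_lit 6,nat_lit 12,nat_lit 13],[nat_lit 13,nat_lit 6,nat_lit 13,nat_lit 13],
    [nat_lit 13,nat_lit 7,nat_lit 9,nat_lit 12],[nat_lit 13,nat_lit 7,nat_lit 9,nat_lit 13],[nat_lit 13,nat_lit 7,
    nat_lit 11,nat_lit 5],[nat_lit 13,nat_lit 7,nat_lit 12,nat_lit 12],[nat_lit 13,nat_lit 7,nat_lit 12,nat_lit 13],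
    [nat_lit 13,nat_lit 7,nat_lit 13,nat_lit 13],[nat_lit 13,nat_lit 8,nat_lit 6,nat_lit 9],[nat_lit 13,nat_lit 8,
    nat_lit 6,nat_lit 12],[nat_lit 13,nat_lit 8,nat_lit 6,nat_lit 13],[nat_lit 13,nat_lit 8,nat_lit 7,nat_lit 9]],
    [[nat_lit 13,nat_lit 8,nat_lit 7,nat_lit 12],[nat_lit 13,nat_lit 8,nat_lit 12,nat_lit 6],[nat_lit 13,nat_lit 8,
    nat_lit 12,nat_lit 7],[nat_lit 13,nat_lit 8,nat_lit 14,nat_lit 9],[nat_lit 13,nat_lit 8,nat_lit 14,nat_lit 12],
    [nat_lit 13,nat_lit 8,nat_lit 15,nat_lit 9],[nat_lit 13,nat_lit 9,nat_lit 8,nat_lit 6],[nat_lit 13,nat_lit 9,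
    nat_lit 9,nat_lit 6],[nat_lit 13,nat_lit 9,nat_lit 12,nat_lit 6],[nat_lit 13,nat_lit 9,nat_lit 12,nat_lit 7],
    [nat_lit 13,nat_lit 9,nat_lit 15,nat_lit 9],[nat_lit 13,nat_lit 10,nat_lit 5,nat_lit 14]],[[nat_lit 13,nat_lit 10,
    nat_lit 14,nat_lit 4],[nat_lit 13,nat_lit 11,nat_lit 5,nat_lit 6],[nat_lit 13,nat_lit 13,nat_lit 6,nat_lit 8],
    [nat_lit 13,nat_lit 13,nat_lit 6,nat_lit 12],[nat_lit 13,nat_lit 13,nat_lit 6,nat_lit 13],[nat_lit 13,nat_lit 13,
    nat_lit 7,nat_lit 9],[nat_lit 13,nat_lit 13,nat_lit 7,nat_lit 12],[nat_lit 13,nat_lit 13,nat_lit 7,nat_lit 13],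
    [nat_lit 13,nat_lit 13,nat_lit 8,nat_lit 6],[nat_lit 13,nat_lit 13,nat_lit 13,nat_lit 6],[nat_lit 13,nat_lit 13,
    nat_lit 13,nat_lit 7],[nat_lit 13,nat_lit 13,nat_lit 15,nat_lit 9]],[[nat_lit 13,nat_lit 15,nat_lit 4,nat_lit 10],
    [nat_lit 13,nat_lit 15,nat_lit 4,nat_lit 11],[nat_lit 13,nat_lit 15,nat_lit 9,nat_lit 12],[nat_lit 13,nat_lit 15,
    nat_lit 9,nat_lit 13],[nat_lit 14,nat_lit 2],[nat_lit 14,nat_lit 3],[nat_lit 14,nat_lit 4,nat_lit 8,nat_lit 10],
    [nat_lit 14,nat_lit 4,nat_lit 9,nat_lit 10],[nat_lit 14,nat_lit 4,nat_lit 9,nat_lit 11],[nat_lit 14,nat_lit 4,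
    nat_lit 13,nat_lit 10],[nat_lit 14,nat_lit 8,nat_lit 4,nat_lit 10],[nat_lit 14,nat_lit 8,nat_lit 5,nat_lit 10]],
    [[nat_lit 14,nat_lit 8,nat_lit 8,nat_lit 8],[nat_lit 14,nat_lit 8,nat_lit 10,nat_lit 5],[nat_lit 14,nat_lit 8,
    nat_lit 12,nat_lit 8],[nat_lit 14,nat_lit 9,nat_lit 5,nat_lit 10],[nat_lit 14,nat_lit 9,nat_lit 5,nat_lit 11],
    [nat_lit 14,nat_lit 9,nat_lit 8,nat_lit 8],[nat_lit 14,nat_lit 9,nat_lit 9,nat_lit 8],[nat_lit 14,nat_lit 9,
    nat_lit 9,nat_lit 9],[nat_lit 14,nat_lit 9,nat_lit 10,nat_lit 5],[nat_lit 14,nat_lit 9,nat_lit 11,nat_lit 5],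
    [nat_lit 14,nat_lit 9,nat_lit 12,nat_lit 8],[nat_lit 14,nat_lit 9,nat_lit 13,nat_lit 8]],[[nat_lit 14,nat_lit 10,
    nat_lit 10],[nat_lit 14,nat_lit 10,nat_lit 11],[nat_lit 14,nat_lit 11,nat_lit 10],[nat_lit 14,nat_lit 11,
    nat_lit 11],[nat_lit 14,nat_lit 12,nat_lit 10,nat_lit 5],[nat_lit 14,nat_lit 12,nat_lit 11,nat_lit 5],[nat_lit 14,
    nat_lit 12,nat_lit 12,nat_lit 8],[nat_lit 14,nat_lit 12,nat_lit 13,nat_lit 8],[nat_lit 14,nat_lit 13,nat_lit 4,
    nat_lit 10],[nat_lit 14,nat_lit 13,nat_lit 10,nat_lit 5],[nat_lit 15,nat_lit 2],[nat_lit 15,nat_lit 3]],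
    [[nat_lit 15,nat_lit 4,nat_lit 10,nat_lit 8],[nat_lit 15,nat_lit 4,nat_lit 10,nat_lit 13],[nat_lit 15,nat_lit 4,
    nat_lit 11,nat_lit 8],[nat_lit 15,nat_lit 4,nat_lit 11,nat_lit 9],[nat_lit 15,nat_lit 4,nat_lit 11,nat_lit 12],
    [nat_lit 15,nat_lit 4,nat_lit 11,nat_lit 13],[nat_lit 15,nat_lit 8,nat_lit 8,nat_lit 8],[nat_lit 15,nat_lit 9,
    nat_lit 8,nat_lit 8],[nat_lit 15,nat_lit 9,nat_lit 9,nat_lit 8],[nat_lit 15,nat_lit 9,nat_lit 9,nat_lit 9],
    [nat_lit 15,nat_lit 9,nat_lit 12,nat_lit 8],[nat_lit 15,nat_lit 9,nat_lit 12,nat_lit 13]],[[nat_lit 15,nat_lit 9,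
    nat_lit 13,nat_lit 8],[nat_lit 15,nat_lit 9,nat_lit 13,nat_lit 9],[nat_lit 15,nat_lit 9,nat_lit 13,nat_lit 13],
    [nat_lit 15,nat_lit 10,nat_lit 4,nat_lit 8],[nat_lit 15,nat_lit 10,nat_lit 8,nat_lit 5],[nat_lit 15,nat_lit 10,
    nat_lit 10],[nat_lit 15,nat_lit 10,nat_lit 11],[nat_lit 15,nat_lit 11,nat_lit 4,nat_lit 8],[nat_lit 15,nat_lit 11,
    nat_lit 4,nat_lit 9],[nat_lit 15,nat_lit 11,nat_lit 5,nat_lit 9],[nat_lit 15,nat_lit 11,nat_lit 5,nat_lit 12],
    [nat_lit 15,nat_lit 11,nat_lit 8,nat_lit 5]],[[nat_lit 15,nat_lit 11,nat_lit 9,nat_lit 5],[nat_lit 15,nat_lit 11,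
    nat_lit 10],[nat_lit 15,nat_lit 11,nat_lit 11],[nat_lit 15,nat_lit 11,nat_lit 12,nat_lit 5]]]
    [[nat_lit 42,nat_lit 118,nat_lit 170,nat_lit 292,nat_lit 340,nat_lit 19,nat_lit 119,nat_lit 171,nat_lit 293,
    nat_lit 341,nat_lit 64,nat_lit 91],[nat_lit 388,nat_lit 418,nat_lit 65,nat_lit 92,nat_lit 389,nat_lit 419,
    nat_lit 5,nat_lit 18,nat_lit 145,nat_lit 168,nat_lit 169,nat_lit 196],[nat_lit 198,nat_lit 220,nat_lit 228,
    nat_lit 230,nat_lit 233,nat_lit 234,nat_lit 243,nat_lit 244,nat_lit 245,nat_lit 249,nat_lit 254,nat_lit 272],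
    [nat_lit 274,nat_lit 276,nat_lit 284,nat_lit 285,nat_lit 372,nat_lit 0,nat_lit 41,nat_lit 68,nat_lit 88,
    nat_lit 108,nat_lit 178,nat_lit 221],[nat_lit 250,nat_lit 251,nat_lit 287,nat_lit 296,nat_lit 339,nat_lit 352,
    nat_lit 397,nat_lit 404,nat_lit 405,nat_lit 412,nat_lit 413,nat_lit 417],[nat_lit 436,nat_lit 443,nat_lit 444,
    nat_lit 447,nat_lit 10,nat_lit 14,nat_lit 31,nat_lit 120,nat_lit 146,nat_lit 152,nat_lit 184,nat_lit 201],
    [nat_lit 206,nat_lit 209,nat_lit 223,nat_lit 235,nat_lit 239,nat_lit 279,nat_lit 294,nat_lit 321,nat_lit 324,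
    nat_lit 326,nat_lit 332,nat_lit 335],[nat_lit 361,nat_lit 366,nat_lit 367,nat_lit 368,nat_lit 373,nat_lit 380,
    nat_lit 381,nat_lit 11,nat_lit 15,nat_lit 29,nat_lit 30,nat_lit 137],[nat_lit 143,nat_lit 185,nat_lit 202,
    nat_lit 205,nat_lit 207,nat_lit 210,nat_lit 214,nat_lit 236,nat_lit 240,nat_lit 262,nat_lit 265,nat_lit 280],
    [nat_lit 316,nat_lit 323,nat_lit 325,nat_lit 327,nat_lit 333,nat_lit 336,nat_lit 343,nat_lit 362,nat_lit 369,
    nat_lit 382,nat_lit 1,nat_lit 6],[nat_lit 26,nat_lit 33,nat_lit 48,nat_lit 60,nat_lit 61,nat_lit 71,nat_lit 73,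
    nat_lit 79,nat_lit 82,nat_lit 85,nat_lit 89,nat_lit 96],[nat_lit 98,nat_lit 101,nat_lit 112,nat_lit 138,
    nat_lit 140,nat_lit 148,nat_lit 153,nat_lit 155,nat_lit 163,nat_lit 164,nat_lit 175,nat_lit 181],[nat_lit 224,
    nat_lit 246,nat_lit 259,nat_lit 298,nat_lit 301,nat_lit 302,nat_lit 305,nat_lit 310,nat_lit 374,nat_lit 396,
    nat_lit 398,nat_lit 401],[nat_lit 402,nat_lit 406,nat_lit 407,nat_lit 414,nat_lit 415,nat_lit 420,nat_lit 422,
    nat_lit 426,nat_lit 427,nat_lit 428,nat_lit 430,nat_lit 432],[nat_lit 435,nat_lit 439,nat_lit 2,nat_lit 7,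
    nat_lit 49,nat_lit 50,nat_lit 62,nat_lit 70,nat_lit 86,nat_lit 93,nat_lit 105,nat_lit 109],[nat_lit 129,
    nat_lit 131,nat_lit 139,nat_lit 141,nat_lit 142,nat_lit 149,nat_lit 156,nat_lit 165,nat_lit 176,nat_lit 186,
    nat_lit 187,nat_lit 193],[nat_lit 194,nat_lit 216,nat_lit 218,nat_lit 225,nat_lit 247,nat_lit 266,nat_lit 286,
    nat_lit 299,nat_lit 306,nat_lit 307,nat_lit 309,nat_lit 311],[nat_lit 313,nat_lit 319,nat_lit 328,nat_lit 330,
    nat_lit 337,nat_lit 356,nat_lit 359,nat_lit 363,nat_lit 365,nat_lit 370,nat_lit 377,nat_lit 383],[nat_lit 403,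
    nat_lit 423,nat_lit 429,nat_lit 433,nat_lit 440,nat_lit 441,nat_lit 21,nat_lit 51,nat_lit 54,nat_lit 55,
    nat_lit 57,nat_lit 59],[nat_lit 67,nat_lit 75,nat_lit 78,nat_lit 103,nat_lit 123,nat_lit 161,nat_lit 177,
    nat_lit 229,nat_lit 231,nat_lit 252,nat_lit 255,nat_lit 268],[nat_lit 270,nat_lit 288,nat_lit 290,nat_lit 300,
    nat_lit 344,nat_lit 384,nat_lit 390,nat_lit 391,nat_lit 393,nat_lit 394,nat_lit 395,nat_lit 399],[nat_lit 408,
    nat_lit 410,nat_lit 416,nat_lit 437,nat_lit 445,nat_lit 22,nat_lit 25,nat_lit 43,nat_lit 44,nat_lit 45,nat_lit 46,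
    nat_lit 47],[nat_lit 52,nat_lit 53,nat_lit 56,nat_lit 58,nat_lit 76,nat_lit 77,nat_lit 104,nat_lit 107,
    nat_lit 114,nat_lit 124,nat_lit 162,nat_lit 174],[nat_lit 217,nat_lit 253,nat_lit 256,nat_lit 269,nat_lit 271,
    nat_lit 289,nat_lit 291,nat_lit 295,nat_lit 338,nat_lit 385,nat_lit 392,nat_lit 400],[nat_lit 409,nat_lit 411,
    nat_lit 438,nat_lit 446,nat_lit 3,nat_lit 8,nat_lit 27,nat_lit 63,nat_lit 74,nat_lit 80,nat_lit 84,nat_lit 87],
    [nat_lit 94,nat_lit 95,nat_lit 97,nat_lit 99,nat_lit 110,nat_lit 115,nat_lit 116,nat_lit 125,nat_lit 127,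
    nat_lit 132,nat_lit 154,nat_lit 157],[nat_lit 159,nat_lit 166,nat_lit 179,nat_lit 226,nat_lit 261,nat_lit 267,
    nat_lit 297,nat_lit 303,nat_lit 304,nat_lit 308,nat_lit 312,nat_lit 314],[nat_lit 318,nat_lit 320,nat_lit 329,
    nat_lit 331,nat_lit 346,nat_lit 347,nat_lit 350,nat_lit 353,nat_lit 357,nat_lit 360,nat_lit 364,nat_lit 375],
    [nat_lit 378,nat_lit 386,nat_lit 424,nat_lit 442,nat_lit 4,nat_lit 9,nat_lit 34,nat_lit 35,nat_lit 66,nat_lit 69,
    nat_lit 72,nat_lit 81],[nat_lit 83,nat_lit 90,nat_lit 100,nat_lit 102,nat_lit 106,nat_lit 111,nat_lit 113,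
    nat_lit 117,nat_lit 126,nat_lit 128,nat_lit 130,nat_lit 133],[nat_lit 134,nat_lit 147,nat_lit 150,nat_lit 158,
    nat_lit 160,nat_lit 167,nat_lit 180,nat_lit 188,nat_lit 199,nat_lit 200,nat_lit 219,nat_lit 227],[nat_lit 248,
    nat_lit 260,nat_lit 345,nat_lit 348,nat_lit 349,nat_lit 351,nat_lit 354,nat_lit 355,nat_lit 358,nat_lit 376,
    nat_lit 379,nat_lit 387],[nat_lit 421,nat_lit 425,nat_lit 431,nat_lit 434,nat_lit 12,nat_lit 16,nat_lit 20,
    nat_lit 23,nat_lit 24,nat_lit 40,nat_lit 121,nat_lit 122],[nat_lit 135,nat_lit 144,nat_lit 151,nat_lit 172,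
    nat_lit 173,nat_lit 182,nat_lit 189,nat_lit 191,nat_lit 195,nat_lit 197,nat_lit 203,nat_lit 211],[nat_lit 237,
    nat_lit 241,nat_lit 277,nat_lit 281,nat_lit 315,nat_lit 317,nat_lit 322,nat_lit 334,nat_lit 342,nat_lit 371,
    nat_lit 13,nat_lit 17],[nat_lit 28,nat_lit 32,nat_lit 36,nat_lit 37,nat_lit 38,nat_lit 39,nat_lit 136,nat_lit 183,
    nat_lit 190,nat_lit 192,nat_lit 204,nat_lit 208],[nat_lit 212,nat_lit 213,nat_lit 215,nat_lit 222,nat_lit 232,
    nat_lit 238,nat_lit 242,nat_lit 257,nat_lit 258,nat_lit 263,nat_lit 264,nat_lit 273],[nat_lit 275,nat_lit 278,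
    nat_lit 282,nat_lit 283]]
    [[nat_lit 41,nat_lit 118,nat_lit 170,nat_lit 292,nat_lit 340,nat_lit 18,nat_lit 119,nat_lit 171,nat_lit 293,
    nat_lit 341,nat_lit 64,nat_lit 91],[nat_lit 388,nat_lit 418,nat_lit 65,nat_lit 92,nat_lit 389,nat_lit 419,
    nat_lit 19,nat_lit 5,nat_lit 390,nat_lit 222,nat_lit 257,nat_lit 391],[nat_lit 392,nat_lit 258,nat_lit 120,
    nat_lit 294,nat_lit 420,nat_lit 93,nat_lit 94,nat_lit 66,nat_lit 421,nat_lit 121,nat_lit 342,nat_lit 343],
    [nat_lit 422,nat_lit 423,nat_lit 424,nat_lit 425,nat_lit 393,nat_lit 42,nat_lit 0,nat_lit 259,nat_lit 260,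
    nat_lit 261,nat_lit 262,nat_lit 263],[nat_lit 122,nat_lit 172,nat_lit 173,nat_lit 223,nat_lit 264,nat_lit 265,
    nat_lit 224,nat_lit 225,nat_lit 266,nat_lit 226,nat_lit 267,nat_lit 227],[nat_lit 123,nat_lit 124,nat_lit 174,
    nat_lit 295,nat_lit 10,nat_lit 14,nat_lit 344,nat_lit 228,nat_lit 43,nat_lit 345,nat_lit 175,nat_lit 125],
    [nat_lit 346,nat_lit 126,nat_lit 296,nat_lit 229,nat_lit 268,nat_lit 269,nat_lit 230,nat_lit 127,nat_lit 297,
    nat_lit 347,nat_lit 128,nat_lit 348],[nat_lit 298,nat_lit 129,nat_lit 176,nat_lit 299,nat_lit 44,nat_lit 130,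
    nat_lit 349,nat_lit 11,nat_lit 15,nat_lit 177,nat_lit 300,nat_lit 301],[nat_lit 131,nat_lit 302,nat_lit 132,
    nat_lit 303,nat_lit 350,nat_lit 133,nat_lit 351,nat_lit 231,nat_lit 270,nat_lit 178,nat_lit 352,nat_lit 271],
    [nat_lit 45,nat_lit 179,nat_lit 304,nat_lit 353,nat_lit 134,nat_lit 354,nat_lit 272,nat_lit 305,nat_lit 306,
    nat_lit 355,nat_lit 1,nat_lit 6],[nat_lit 67,nat_lit 394,nat_lit 395,nat_lit 232,nat_lit 273,nat_lit 307,
    nat_lit 356,nat_lit 308,nat_lit 357,nat_lit 180,nat_lit 358,nat_lit 181],[nat_lit 309,nat_lit 359,nat_lit 360,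
    nat_lit 396,nat_lit 426,nat_lit 95,nat_lit 135,nat_lit 182,nat_lit 136,nat_lit 183,nat_lit 184,nat_lit 96],
    [nat_lit 397,nat_lit 20,nat_lit 68,nat_lit 361,nat_lit 137,nat_lit 185,nat_lit 362,nat_lit 398,nat_lit 69,
    nat_lit 138,nat_lit 310,nat_lit 139],[nat_lit 186,nat_lit 311,nat_lit 363,nat_lit 312,nat_lit 364,nat_lit 233,
    nat_lit 274,nat_lit 140,nat_lit 141,nat_lit 187,nat_lit 313,nat_lit 365],[nat_lit 21,nat_lit 22,nat_lit 2,
    nat_lit 7,nat_lit 399,nat_lit 400,nat_lit 275,nat_lit 142,nat_lit 188,nat_lit 234,nat_lit 46,nat_lit 314],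
    [nat_lit 366,nat_lit 143,nat_lit 401,nat_lit 427,nat_lit 70,nat_lit 97,nat_lit 189,nat_lit 190,nat_lit 367,
    nat_lit 402,nat_lit 428,nat_lit 403],[nat_lit 429,nat_lit 191,nat_lit 192,nat_lit 404,nat_lit 23,nat_lit 405,
    nat_lit 24,nat_lit 368,nat_lit 369,nat_lit 71,nat_lit 98,nat_lit 406],[nat_lit 430,nat_lit 99,nat_lit 72,
    nat_lit 100,nat_lit 431,nat_lit 73,nat_lit 101,nat_lit 407,nat_lit 432,nat_lit 433,nat_lit 102,nat_lit 434],
    [nat_lit 193,nat_lit 276,nat_lit 194,nat_lit 370,nat_lit 25,nat_lit 47,nat_lit 435,nat_lit 74,nat_lit 144,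
    nat_lit 195,nat_lit 315,nat_lit 371],[nat_lit 26,nat_lit 235,nat_lit 27,nat_lit 236,nat_lit 436,nat_lit 28,
    nat_lit 29,nat_lit 75,nat_lit 103,nat_lit 408,nat_lit 437,nat_lit 76],[nat_lit 104,nat_lit 409,nat_lit 438,
    nat_lit 30,nat_lit 31,nat_lit 32,nat_lit 145,nat_lit 196,nat_lit 372,nat_lit 33,nat_lit 48,nat_lit 49],
    [nat_lit 237,nat_lit 277,nat_lit 34,nat_lit 238,nat_lit 278,nat_lit 439,nat_lit 440,nat_lit 146,nat_lit 373,
    nat_lit 316,nat_lit 105,nat_lit 441],[nat_lit 442,nat_lit 106,nat_lit 197,nat_lit 317,nat_lit 239,nat_lit 279,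
    nat_lit 240,nat_lit 280,nat_lit 35,nat_lit 443,nat_lit 36,nat_lit 444],[nat_lit 37,nat_lit 410,nat_lit 445,
    nat_lit 77,nat_lit 107,nat_lit 411,nat_lit 446,nat_lit 447,nat_lit 38,nat_lit 39,nat_lit 198,nat_lit 50],
    [nat_lit 241,nat_lit 281,nat_lit 242,nat_lit 282,nat_lit 3,nat_lit 8,nat_lit 78,nat_lit 283,nat_lit 51,
    nat_lit 318,nat_lit 147,nat_lit 199],[nat_lit 243,nat_lit 148,nat_lit 149,nat_lit 319,nat_lit 320,nat_lit 150,
    nat_lit 200,nat_lit 201,nat_lit 321,nat_lit 202,nat_lit 151,nat_lit 203],[nat_lit 322,nat_lit 204,nat_lit 323,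
    nat_lit 412,nat_lit 108,nat_lit 413,nat_lit 324,nat_lit 205,nat_lit 325,nat_lit 79,nat_lit 414,nat_lit 109],
    [nat_lit 80,nat_lit 110,nat_lit 81,nat_lit 111,nat_lit 206,nat_lit 326,nat_lit 207,nat_lit 327,nat_lit 82,
    nat_lit 112,nat_lit 415,nat_lit 83],[nat_lit 113,nat_lit 208,nat_lit 284,nat_lit 52,nat_lit 4,nat_lit 9,
    nat_lit 416,nat_lit 114,nat_lit 244,nat_lit 374,nat_lit 328,nat_lit 329],[nat_lit 375,nat_lit 376,nat_lit 330,
    nat_lit 377,nat_lit 53,nat_lit 331,nat_lit 378,nat_lit 379,nat_lit 209,nat_lit 332,nat_lit 380,nat_lit 210],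
    [nat_lit 333,nat_lit 84,nat_lit 115,nat_lit 211,nat_lit 334,nat_lit 212,nat_lit 85,nat_lit 86,nat_lit 87,
    nat_lit 116,nat_lit 213,nat_lit 417],[nat_lit 40,nat_lit 88,nat_lit 152,nat_lit 335,nat_lit 381,nat_lit 214,
    nat_lit 336,nat_lit 382,nat_lit 89,nat_lit 90,nat_lit 117,nat_lit 215],[nat_lit 245,nat_lit 285,nat_lit 337,
    nat_lit 383,nat_lit 12,nat_lit 16,nat_lit 246,nat_lit 247,nat_lit 286,nat_lit 248,nat_lit 249,nat_lit 250],
    [nat_lit 153,nat_lit 54,nat_lit 154,nat_lit 251,nat_lit 287,nat_lit 155,nat_lit 156,nat_lit 216,nat_lit 55,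
    nat_lit 56,nat_lit 157,nat_lit 158],[nat_lit 252,nat_lit 288,nat_lit 253,nat_lit 289,nat_lit 57,nat_lit 58,
    nat_lit 159,nat_lit 160,nat_lit 254,nat_lit 59,nat_lit 13,nat_lit 17],[nat_lit 161,nat_lit 384,nat_lit 162,
    nat_lit 217,nat_lit 338,nat_lit 385,nat_lit 163,nat_lit 164,nat_lit 165,nat_lit 218,nat_lit 166,nat_lit 386],
    [nat_lit 167,nat_lit 219,nat_lit 387,nat_lit 168,nat_lit 60,nat_lit 255,nat_lit 290,nat_lit 169,nat_lit 220,
    nat_lit 221,nat_lit 339,nat_lit 61],[nat_lit 62,nat_lit 256,nat_lit 291,nat_lit 63]]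
    [[[nat_lit 389],[nat_lit 390,nat_lit 391,nat_lit 393,nat_lit 394,nat_lit 395,nat_lit 399,nat_lit 408,nat_lit 410,
    nat_lit 416],[],[],[nat_lit 392,nat_lit 400,nat_lit 409,nat_lit 411],[nat_lit 14],[],[nat_lit 15],[nat_lit 16],[],
    [nat_lit 1],[nat_lit 0]],[[],[nat_lit 4],[nat_lit 48,nat_lit 60,nat_lit 61],[nat_lit 41],[nat_lit 42],[],
    [nat_lit 13],[nat_lit 10],[],[],[],[nat_lit 11]],[[nat_lit 11],[nat_lit 11],[],[],[],[],[],[],[],[],[],[]],[[],[],
    [],[],[],[nat_lit 91],[nat_lit 92],[nat_lit 96,nat_lit 98,nat_lit 101,nat_lit 112],[nat_lit 96,nat_lit 98,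
    nat_lit 101,nat_lit 112],[nat_lit 108],[],[]],[[nat_lit 94,nat_lit 95,nat_lit 97,nat_lit 99,nat_lit 110,
    nat_lit 115,nat_lit 116],[nat_lit 94,nat_lit 95,nat_lit 97,nat_lit 99,nat_lit 110,nat_lit 115,nat_lit 116],
    [nat_lit 93,nat_lit 105,nat_lit 109],[],[],[nat_lit 104,nat_lit 107,nat_lit 114],[],[],[],[],[],[]],[[nat_lit 100,
    nat_lit 102,nat_lit 106,nat_lit 111,nat_lit 113,nat_lit 117],[nat_lit 100,nat_lit 102,nat_lit 106,nat_lit 111,
    nat_lit 113,nat_lit 117],[nat_lit 100,nat_lit 102,nat_lit 106,nat_lit 111,nat_lit 113,nat_lit 117],[nat_lit 100,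
    nat_lit 102,nat_lit 106,nat_lit 111,nat_lit 113,nat_lit 117],[nat_lit 18],[nat_lit 19],[nat_lit 31],[nat_lit 21],
    [nat_lit 21],[nat_lit 21],[nat_lit 29,nat_lit 30],[nat_lit 29,nat_lit 30]],[[nat_lit 29,nat_lit 30],[nat_lit 29,
    nat_lit 30],[nat_lit 27],[nat_lit 27],[nat_lit 27],[],[nat_lit 20,nat_lit 23,nat_lit 24,nat_lit 40],[nat_lit 20,
    nat_lit 23,nat_lit 24,nat_lit 40],[nat_lit 20,nat_lit 23,nat_lit 24,nat_lit 40],[nat_lit 20,nat_lit 23,nat_lit 24,
    nat_lit 40],[nat_lit 20,nat_lit 23,nat_lit 24,nat_lit 40],[nat_lit 20,nat_lit 23,nat_lit 24,nat_lit 40]],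
    [[nat_lit 22,nat_lit 25],[nat_lit 22,nat_lit 25],[nat_lit 22,nat_lit 25],[nat_lit 22,nat_lit 25],[nat_lit 22,
    nat_lit 25],[nat_lit 22,nat_lit 25],[nat_lit 22,nat_lit 25],[nat_lit 196,nat_lit 198,nat_lit 220],[nat_lit 171],
    [nat_lit 184,nat_lit 201,nat_lit 206,nat_lit 209],[nat_lit 184,nat_lit 201,nat_lit 206,nat_lit 209],
    [nat_lit 177]],[[nat_lit 177],[nat_lit 185,nat_lit 202,nat_lit 205,nat_lit 207,nat_lit 210,nat_lit 214],
    [nat_lit 185,nat_lit 202,nat_lit 205,nat_lit 207,nat_lit 210,nat_lit 214],[nat_lit 185,nat_lit 202,nat_lit 205,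
    nat_lit 207,nat_lit 210,nat_lit 214],[nat_lit 185,nat_lit 202,nat_lit 205,nat_lit 207,nat_lit 210,nat_lit 214],
    [nat_lit 185,nat_lit 202,nat_lit 205,nat_lit 207,nat_lit 210,nat_lit 214],[nat_lit 185,nat_lit 202,nat_lit 205,
    nat_lit 207,nat_lit 210,nat_lit 214],[nat_lit 179],[nat_lit 179],[nat_lit 176,nat_lit 186,nat_lit 187,nat_lit 193,
    nat_lit 194,nat_lit 216,nat_lit 218],[nat_lit 176,nat_lit 186,nat_lit 187,nat_lit 193,nat_lit 194,nat_lit 216,
    nat_lit 218],[nat_lit 176,nat_lit 186,nat_lit 187,nat_lit 193,nat_lit 194,nat_lit 216,nat_lit 218]],[[nat_lit 172,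
    nat_lit 173,nat_lit 182,nat_lit 189,nat_lit 191,nat_lit 195,nat_lit 197,nat_lit 203,nat_lit 211],[nat_lit 172,
    nat_lit 173,nat_lit 182,nat_lit 189,nat_lit 191,nat_lit 195,nat_lit 197,nat_lit 203,nat_lit 211],[nat_lit 172,
    nat_lit 173,nat_lit 182,nat_lit 189,nat_lit 191,nat_lit 195,nat_lit 197,nat_lit 203,nat_lit 211],[nat_lit 172,
    nat_lit 173,nat_lit 182,nat_lit 189,nat_lit 191,nat_lit 195,nat_lit 197,nat_lit 203,nat_lit 211],[nat_lit 172,
    nat_lit 173,nat_lit 182,nat_lit 189,nat_lit 191,nat_lit 195,nat_lit 197,nat_lit 203,nat_lit 211],[nat_lit 172,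
    nat_lit 173,nat_lit 182,nat_lit 189,nat_lit 191,nat_lit 195,nat_lit 197,nat_lit 203,nat_lit 211],[nat_lit 174,
    nat_lit 217],[nat_lit 174,nat_lit 217],[nat_lit 174,nat_lit 217],[nat_lit 174,nat_lit 217],[nat_lit 64],[]],[[],
    [],[nat_lit 65],[nat_lit 65],[nat_lit 65],[nat_lit 71,nat_lit 73,nat_lit 79,nat_lit 82,nat_lit 85,nat_lit 89],
    [nat_lit 71,nat_lit 73,nat_lit 79,nat_lit 82,nat_lit 85,nat_lit 89],[nat_lit 71,nat_lit 73,nat_lit 79,nat_lit 82,
    nat_lit 85,nat_lit 89],[nat_lit 71,nat_lit 73,nat_lit 79,nat_lit 82,nat_lit 85,nat_lit 89],[nat_lit 71,nat_lit 73,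
    nat_lit 79,nat_lit 82,nat_lit 85,nat_lit 89],[nat_lit 71,nat_lit 73,nat_lit 79,nat_lit 82,nat_lit 85,nat_lit 89],
    [nat_lit 68,nat_lit 88]],[[nat_lit 68,nat_lit 88],[nat_lit 68,nat_lit 88],[nat_lit 68,nat_lit 88],[nat_lit 67,
    nat_lit 75,nat_lit 78],[nat_lit 67,nat_lit 75,nat_lit 78],[nat_lit 67,nat_lit 75,nat_lit 78],[nat_lit 67,
    nat_lit 75,nat_lit 78],[nat_lit 67,nat_lit 75,nat_lit 78],[nat_lit 67,nat_lit 75,nat_lit 78],[nat_lit 67,
    nat_lit 75,nat_lit 78],[],[]],[[nat_lit 74,nat_lit 80,nat_lit 84,nat_lit 87],[nat_lit 74,nat_lit 80,nat_lit 84,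
    nat_lit 87],[nat_lit 70,nat_lit 86],[],[],[],[],[],[nat_lit 76,nat_lit 77],[],[],[]],[[],[],[],[],[],[nat_lit 66,
    nat_lit 69,nat_lit 72,nat_lit 81,nat_lit 83,nat_lit 90],[nat_lit 66,nat_lit 69,nat_lit 72,nat_lit 81,nat_lit 83,
    nat_lit 90],[nat_lit 66,nat_lit 69,nat_lit 72,nat_lit 81,nat_lit 83,nat_lit 90],[nat_lit 66,nat_lit 69,nat_lit 72,
    nat_lit 81,nat_lit 83,nat_lit 90],[nat_lit 66,nat_lit 69,nat_lit 72,nat_lit 81,nat_lit 83,nat_lit 90],[nat_lit 66,
    nat_lit 69,nat_lit 72,nat_lit 81,nat_lit 83,nat_lit 90],[nat_lit 66,nat_lit 69,nat_lit 72,nat_lit 81,nat_lit 83,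
    nat_lit 90]],[[nat_lit 66,nat_lit 69,nat_lit 72,nat_lit 81,nat_lit 83,nat_lit 90],[nat_lit 66,nat_lit 69,
    nat_lit 72,nat_lit 81,nat_lit 83,nat_lit 90],[],[nat_lit 257,nat_lit 258,nat_lit 263,nat_lit 264,nat_lit 273,
    nat_lit 275,nat_lit 278,nat_lit 282,nat_lit 283],[],[],[],[nat_lit 259],[nat_lit 259],[nat_lit 287],[nat_lit 287],
    [nat_lit 287]],[[nat_lit 268,nat_lit 270,nat_lit 288,nat_lit 290],[nat_lit 268,nat_lit 270,nat_lit 288,
    nat_lit 290],[nat_lit 268,nat_lit 270,nat_lit 288,nat_lit 290],[nat_lit 268,nat_lit 270,nat_lit 288,nat_lit 290],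
    [nat_lit 268,nat_lit 270,nat_lit 288,nat_lit 290],[nat_lit 268,nat_lit 270,nat_lit 288,nat_lit 290],[nat_lit 268,
    nat_lit 270,nat_lit 288,nat_lit 290],[nat_lit 268,nat_lit 270,nat_lit 288,nat_lit 290],[nat_lit 262,nat_lit 265,
    nat_lit 280],[nat_lit 262,nat_lit 265,nat_lit 280],[nat_lit 262,nat_lit 265,nat_lit 280],[nat_lit 262,nat_lit 265,
    nat_lit 280]],[[nat_lit 262,nat_lit 265,nat_lit 280],[nat_lit 262,nat_lit 265,nat_lit 280],[nat_lit 262,
    nat_lit 265,nat_lit 280],[nat_lit 261,nat_lit 267],[nat_lit 261,nat_lit 267],[nat_lit 266,nat_lit 286],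
    [nat_lit 266,nat_lit 286],[nat_lit 277,nat_lit 281],[nat_lit 277,nat_lit 281],[nat_lit 277,nat_lit 281],
    [nat_lit 277,nat_lit 281],[nat_lit 277,nat_lit 281]],[[nat_lit 277,nat_lit 281],[nat_lit 277,nat_lit 281],
    [nat_lit 277,nat_lit 281],[nat_lit 277,nat_lit 281],[nat_lit 277,nat_lit 281],[nat_lit 269,nat_lit 271,
    nat_lit 289,nat_lit 291],[nat_lit 269,nat_lit 271,nat_lit 289,nat_lit 291],[nat_lit 269,nat_lit 271,nat_lit 289,
    nat_lit 291],[nat_lit 269,nat_lit 271,nat_lit 289,nat_lit 291],[nat_lit 269,nat_lit 271,nat_lit 289,nat_lit 291],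
    [nat_lit 269,nat_lit 271,nat_lit 289,nat_lit 291],[nat_lit 269,nat_lit 271,nat_lit 289,nat_lit 291]],[[],
    [nat_lit 260],[nat_lit 260],[nat_lit 260],[nat_lit 260],[nat_lit 260],[nat_lit 120,nat_lit 146,nat_lit 152],[],[],
    [],[],[]],[[nat_lit 138,nat_lit 140,nat_lit 148,nat_lit 153,nat_lit 155,nat_lit 163,nat_lit 164],[nat_lit 138,
    nat_lit 140,nat_lit 148,nat_lit 153,nat_lit 155,nat_lit 163,nat_lit 164],[nat_lit 138,nat_lit 140,nat_lit 148,
    nat_lit 153,nat_lit 155,nat_lit 163,nat_lit 164],[],[nat_lit 123,nat_lit 161],[nat_lit 123,nat_lit 161],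
    [nat_lit 137,nat_lit 143],[nat_lit 125,nat_lit 127,nat_lit 132,nat_lit 154,nat_lit 157,nat_lit 159,nat_lit 166],
    [nat_lit 125,nat_lit 127,nat_lit 132,nat_lit 154,nat_lit 157,nat_lit 159,nat_lit 166],[nat_lit 125,nat_lit 127,
    nat_lit 132,nat_lit 154,nat_lit 157,nat_lit 159,nat_lit 166],[nat_lit 125,nat_lit 127,nat_lit 132,nat_lit 154,
    nat_lit 157,nat_lit 159,nat_lit 166],[nat_lit 129,nat_lit 131,nat_lit 139,nat_lit 141,nat_lit 142,nat_lit 149,
    nat_lit 156,nat_lit 165]],[[nat_lit 129,nat_lit 131,nat_lit 139,nat_lit 141,nat_lit 142,nat_lit 149,nat_lit 156,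
    nat_lit 165],[nat_lit 129,nat_lit 131,nat_lit 139,nat_lit 141,nat_lit 142,nat_lit 149,nat_lit 156,nat_lit 165],
    [nat_lit 129,nat_lit 131,nat_lit 139,nat_lit 141,nat_lit 142,nat_lit 149,nat_lit 156,nat_lit 165],[nat_lit 121,
    nat_lit 122,nat_lit 135,nat_lit 144,nat_lit 151],[nat_lit 124,nat_lit 162],[nat_lit 124,nat_lit 162],
    [nat_lit 118],[nat_lit 118],[nat_lit 118],[nat_lit 118],[nat_lit 118],[nat_lit 118]],[[nat_lit 118],[nat_lit 118],
    [nat_lit 118],[nat_lit 126,nat_lit 128,nat_lit 130,nat_lit 133,nat_lit 134,nat_lit 147,nat_lit 150,nat_lit 158,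
    nat_lit 160,nat_lit 167],[nat_lit 126,nat_lit 128,nat_lit 130,nat_lit 133,nat_lit 134,nat_lit 147,nat_lit 150,
    nat_lit 158,nat_lit 160,nat_lit 167],[nat_lit 361,nat_lit 366,nat_lit 367,nat_lit 368,nat_lit 373,nat_lit 380,
    nat_lit 381],[nat_lit 361,nat_lit 366,nat_lit 367,nat_lit 368,nat_lit 373,nat_lit 380,nat_lit 381],[],[],[],[],
    []],[[],[],[],[],[nat_lit 374],[nat_lit 374],[nat_lit 352],[nat_lit 352],[nat_lit 352],[nat_lit 344,nat_lit 384],
    [nat_lit 344,nat_lit 384],[nat_lit 343,nat_lit 362,nat_lit 369,nat_lit 382]],[[nat_lit 343,nat_lit 362,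
    nat_lit 369,nat_lit 382],[nat_lit 346,nat_lit 347,nat_lit 350,nat_lit 353,nat_lit 357,nat_lit 360,nat_lit 364,
    nat_lit 375,nat_lit 378,nat_lit 386],[nat_lit 346,nat_lit 347,nat_lit 350,nat_lit 353,nat_lit 357,nat_lit 360,
    nat_lit 364,nat_lit 375,nat_lit 378,nat_lit 386],[nat_lit 356,nat_lit 359,nat_lit 363,nat_lit 365,nat_lit 370,
    nat_lit 377,nat_lit 383],[nat_lit 356,nat_lit 359,nat_lit 363,nat_lit 365,nat_lit 370,nat_lit 377,nat_lit 383],
    [nat_lit 356,nat_lit 359,nat_lit 363,nat_lit 365,nat_lit 370,nat_lit 377,nat_lit 383],[nat_lit 356,nat_lit 359,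
    nat_lit 363,nat_lit 365,nat_lit 370,nat_lit 377,nat_lit 383],[nat_lit 342,nat_lit 371],[nat_lit 342,nat_lit 371],
    [nat_lit 385],[nat_lit 340],[nat_lit 340]],[[nat_lit 340],[nat_lit 340],[nat_lit 345,nat_lit 348,nat_lit 349,
    nat_lit 351,nat_lit 354,nat_lit 355,nat_lit 358,nat_lit 376,nat_lit 379,nat_lit 387],[nat_lit 345,nat_lit 348,
    nat_lit 349,nat_lit 351,nat_lit 354,nat_lit 355,nat_lit 358,nat_lit 376,nat_lit 379,nat_lit 387],[],[nat_lit 222,
    nat_lit 232,nat_lit 238,nat_lit 242],[nat_lit 223,nat_lit 235,nat_lit 239],[],[nat_lit 224,nat_lit 246],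
    [nat_lit 224,nat_lit 246],[nat_lit 224,nat_lit 246],[nat_lit 224,nat_lit 246]],[[nat_lit 250,nat_lit 251],
    [nat_lit 250,nat_lit 251],[nat_lit 250,nat_lit 251],[nat_lit 250,nat_lit 251],[nat_lit 250,nat_lit 251],
    [nat_lit 250,nat_lit 251],[nat_lit 250,nat_lit 251],[nat_lit 229,nat_lit 231,nat_lit 252,nat_lit 255],
    [nat_lit 229,nat_lit 231,nat_lit 252,nat_lit 255],[nat_lit 229,nat_lit 231,nat_lit 252,nat_lit 255],[nat_lit 229,
    nat_lit 231,nat_lit 252,nat_lit 255],[nat_lit 229,nat_lit 231,nat_lit 252,nat_lit 255]],[[nat_lit 229,nat_lit 231,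
    nat_lit 252,nat_lit 255],[nat_lit 229,nat_lit 231,nat_lit 252,nat_lit 255],[nat_lit 236,nat_lit 240],
    [nat_lit 226],[nat_lit 225,nat_lit 247],[nat_lit 225,nat_lit 247],[nat_lit 237,nat_lit 241],[nat_lit 237,
    nat_lit 241],[nat_lit 237,nat_lit 241],[nat_lit 237,nat_lit 241],[nat_lit 237,nat_lit 241],[nat_lit 237,
    nat_lit 241]],[[nat_lit 237,nat_lit 241],[nat_lit 237,nat_lit 241],[nat_lit 237,nat_lit 241],[nat_lit 237,
    nat_lit 241],[nat_lit 253,nat_lit 256],[nat_lit 253,nat_lit 256],[nat_lit 253,nat_lit 256],[nat_lit 253,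
    nat_lit 256],[nat_lit 253,nat_lit 256],[nat_lit 253,nat_lit 256],[nat_lit 253,nat_lit 256],[nat_lit 253,
    nat_lit 256]],[[nat_lit 253,nat_lit 256],[nat_lit 253,nat_lit 256],[nat_lit 227,nat_lit 248],[nat_lit 227,
    nat_lit 248],[nat_lit 418],[],[],[],[nat_lit 420,nat_lit 422,nat_lit 426,nat_lit 427,nat_lit 428,nat_lit 430,
    nat_lit 432,nat_lit 435,nat_lit 439],[nat_lit 420,nat_lit 422,nat_lit 426,nat_lit 427,nat_lit 428,nat_lit 430,
    nat_lit 432,nat_lit 435,nat_lit 439],[nat_lit 420,nat_lit 422,nat_lit 426,nat_lit 427,nat_lit 428,nat_lit 430,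
    nat_lit 432,nat_lit 435,nat_lit 439],[nat_lit 420,nat_lit 422,nat_lit 426,nat_lit 427,nat_lit 428,nat_lit 430,
    nat_lit 432,nat_lit 435,nat_lit 439]],[[nat_lit 420,nat_lit 422,nat_lit 426,nat_lit 427,nat_lit 428,nat_lit 430,
    nat_lit 432,nat_lit 435,nat_lit 439],[nat_lit 420,nat_lit 422,nat_lit 426,nat_lit 427,nat_lit 428,nat_lit 430,
    nat_lit 432,nat_lit 435,nat_lit 439],[nat_lit 436,nat_lit 443,nat_lit 444,nat_lit 447],[nat_lit 436,nat_lit 443,
    nat_lit 444,nat_lit 447],[nat_lit 436,nat_lit 443,nat_lit 444,nat_lit 447],[nat_lit 436,nat_lit 443,nat_lit 444,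
    nat_lit 447],[nat_lit 436,nat_lit 443,nat_lit 444,nat_lit 447],[nat_lit 436,nat_lit 443,nat_lit 444,nat_lit 447],
    [nat_lit 437,nat_lit 445],[nat_lit 437,nat_lit 445],[nat_lit 437,nat_lit 445],[nat_lit 437,nat_lit 445]],
    [[nat_lit 437,nat_lit 445],[nat_lit 437,nat_lit 445],[nat_lit 437,nat_lit 445],[nat_lit 437,nat_lit 445],
    [nat_lit 437,nat_lit 445],[nat_lit 437,nat_lit 445],[],[],[],[],[],[nat_lit 424,nat_lit 442]],[[nat_lit 424,
    nat_lit 442],[nat_lit 423,nat_lit 429,nat_lit 433,nat_lit 440,nat_lit 441],[nat_lit 438,nat_lit 446],[nat_lit 438,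
    nat_lit 446],[nat_lit 438,nat_lit 446],[nat_lit 438,nat_lit 446],[nat_lit 438,nat_lit 446],[nat_lit 438,
    nat_lit 446],[nat_lit 438,nat_lit 446],[nat_lit 438,nat_lit 446],[nat_lit 438,nat_lit 446],[nat_lit 438,
    nat_lit 446]],[[nat_lit 421,nat_lit 425,nat_lit 431,nat_lit 434],[nat_lit 421,nat_lit 425,nat_lit 431,
    nat_lit 434],[nat_lit 421,nat_lit 425,nat_lit 431,nat_lit 434],[nat_lit 421,nat_lit 425,nat_lit 431,nat_lit 434],
    [],[nat_lit 293],[nat_lit 294,nat_lit 321,nat_lit 324,nat_lit 326,nat_lit 332,nat_lit 335],[nat_lit 294,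
    nat_lit 321,nat_lit 324,nat_lit 326,nat_lit 332,nat_lit 335],[nat_lit 294,nat_lit 321,nat_lit 324,nat_lit 326,
    nat_lit 332,nat_lit 335],[nat_lit 294,nat_lit 321,nat_lit 324,nat_lit 326,nat_lit 332,nat_lit 335],[nat_lit 300],
    [nat_lit 300]],[[nat_lit 300],[nat_lit 300],[nat_lit 300],[nat_lit 316,nat_lit 323,nat_lit 325,nat_lit 327,
    nat_lit 333,nat_lit 336],[nat_lit 316,nat_lit 323,nat_lit 325,nat_lit 327,nat_lit 333,nat_lit 336],[nat_lit 316,
    nat_lit 323,nat_lit 325,nat_lit 327,nat_lit 333,nat_lit 336],[nat_lit 316,nat_lit 323,nat_lit 325,nat_lit 327,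
    nat_lit 333,nat_lit 336],[nat_lit 316,nat_lit 323,nat_lit 325,nat_lit 327,nat_lit 333,nat_lit 336],[nat_lit 316,
    nat_lit 323,nat_lit 325,nat_lit 327,nat_lit 333,nat_lit 336],[nat_lit 316,nat_lit 323,nat_lit 325,nat_lit 327,
    nat_lit 333,nat_lit 336],[nat_lit 316,nat_lit 323,nat_lit 325,nat_lit 327,nat_lit 333,nat_lit 336],[nat_lit 316,
    nat_lit 323,nat_lit 325,nat_lit 327,nat_lit 333,nat_lit 336]],[[nat_lit 297,nat_lit 303,nat_lit 304,nat_lit 308,
    nat_lit 312,nat_lit 314,nat_lit 318,nat_lit 320,nat_lit 329,nat_lit 331],[nat_lit 297,nat_lit 303,nat_lit 304,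
    nat_lit 308,nat_lit 312,nat_lit 314,nat_lit 318,nat_lit 320,nat_lit 329,nat_lit 331],[nat_lit 299,nat_lit 306,
    nat_lit 307,nat_lit 309,nat_lit 311,nat_lit 313,nat_lit 319,nat_lit 328,nat_lit 330,nat_lit 337],[nat_lit 299,
    nat_lit 306,nat_lit 307,nat_lit 309,nat_lit 311,nat_lit 313,nat_lit 319,nat_lit 328,nat_lit 330,nat_lit 337],
    [nat_lit 315,nat_lit 317,nat_lit 322,nat_lit 334],[nat_lit 315,nat_lit 317,nat_lit 322,nat_lit 334],[nat_lit 315,
    nat_lit 317,nat_lit 322,nat_lit 334],[nat_lit 315,nat_lit 317,nat_lit 322,nat_lit 334],[nat_lit 295,nat_lit 338],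
    [nat_lit 295,nat_lit 338],[nat_lit 5],[]],[[],[],[],[],[],[],[],[],[],[],[],[]],[[],[],[],[nat_lit 8],[nat_lit 8],
    [nat_lit 8],[nat_lit 8],[nat_lit 7],[nat_lit 7],[nat_lit 7],[nat_lit 7],[nat_lit 7]],[[nat_lit 7],[nat_lit 7],
    [nat_lit 7],[nat_lit 7]]]
    (nat_lit 448) [nat_lit 0,nat_lit 1,nat_lit 2,nat_lit 3,nat_lit 4,nat_lit 5,nat_lit 6,nat_lit 7,nat_lit 8,
    nat_lit 9,nat_lit 10,nat_lit 11,nat_lit 12,nat_lit 13,nat_lit 14,nat_lit 15,nat_lit 16,nat_lit 17,nat_lit 20,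
    nat_lit 21,nat_lit 22,nat_lit 23,nat_lit 24,nat_lit 25,nat_lit 26,nat_lit 27,nat_lit 28,nat_lit 29,nat_lit 30,
    nat_lit 31,nat_lit 32,nat_lit 33,nat_lit 34,nat_lit 35,nat_lit 36,nat_lit 37,nat_lit 38,nat_lit 39,nat_lit 40,
    nat_lit 43,nat_lit 44,nat_lit 45,nat_lit 46,nat_lit 47,nat_lit 48,nat_lit 49,nat_lit 50,nat_lit 51,nat_lit 52,
    nat_lit 53,nat_lit 54,nat_lit 55,nat_lit 56,nat_lit 57,nat_lit 58,nat_lit 59,nat_lit 60,nat_lit 61,nat_lit 62,
    nat_lit 63,nat_lit 69,nat_lit 70,nat_lit 71,nat_lit 72,nat_lit 73,nat_lit 75,nat_lit 76,nat_lit 77,nat_lit 79,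
    nat_lit 80,nat_lit 81,nat_lit 82,nat_lit 83,nat_lit 84,nat_lit 85,nat_lit 86,nat_lit 87,nat_lit 89,nat_lit 90,
    nat_lit 95,nat_lit 96,nat_lit 97,nat_lit 98,nat_lit 99,nat_lit 100,nat_lit 101,nat_lit 102,nat_lit 103,
    nat_lit 104,nat_lit 107,nat_lit 109,nat_lit 110,nat_lit 111,nat_lit 112,nat_lit 113,nat_lit 115,nat_lit 116,
    nat_lit 117,nat_lit 135,nat_lit 136,nat_lit 138,nat_lit 139,nat_lit 140,nat_lit 141,nat_lit 151,nat_lit 153,
    nat_lit 154,nat_lit 155,nat_lit 156,nat_lit 157,nat_lit 158,nat_lit 159,nat_lit 160,nat_lit 163,nat_lit 164,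
    nat_lit 165,nat_lit 166,nat_lit 167,nat_lit 191,nat_lit 192,nat_lit 193,nat_lit 194,nat_lit 208,nat_lit 213,
    nat_lit 215,nat_lit 216,nat_lit 218,nat_lit 219,nat_lit 237,nat_lit 238,nat_lit 241,nat_lit 242,nat_lit 252,
    nat_lit 253,nat_lit 255,nat_lit 256,nat_lit 281,nat_lit 282,nat_lit 289,nat_lit 291]
    [[[],[],[],[],[],[nat_lit 0],[],[],[nat_lit 1],[nat_lit 2],[],[],[nat_lit 3],[nat_lit 4],[],[]],[[],[],[],[],
    [nat_lit 5],[],[],[],[nat_lit 6],[nat_lit 7],[],[],[nat_lit 8],[nat_lit 9],[],[]],[[],[],[],[],[],[],[nat_lit 10],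
    [nat_lit 11],[],[],[],[],[],[],[nat_lit 12],[nat_lit 13]],[[],[],[],[],[],[],[nat_lit 14],[nat_lit 15],[],[],[],
    [],[],[],[nat_lit 16],[nat_lit 17]],[[],[nat_lit 19],[],[],[nat_lit 18],[],[nat_lit 31],[nat_lit 29,nat_lit 30],
    [nat_lit 26,nat_lit 33],[],[nat_lit 21],[nat_lit 22,nat_lit 25],[nat_lit 27],[nat_lit 34,nat_lit 35],[nat_lit 20,
    nat_lit 23,nat_lit 24,nat_lit 40],[nat_lit 28,nat_lit 32,nat_lit 36,nat_lit 37,nat_lit 38,nat_lit 39]],
    [[nat_lit 42],[],[],[],[],[nat_lit 41],[],[],[nat_lit 48,nat_lit 60,nat_lit 61],[nat_lit 49,nat_lit 50,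
    nat_lit 62],[nat_lit 51,nat_lit 54,nat_lit 55,nat_lit 57,nat_lit 59],[nat_lit 43,nat_lit 44,nat_lit 45,nat_lit 46,
    nat_lit 47,nat_lit 52,nat_lit 53,nat_lit 56,nat_lit 58],[nat_lit 63],[],[],[]],[[],[],[nat_lit 64],[nat_lit 65],
    [],[nat_lit 68,nat_lit 88],[],[],[nat_lit 71,nat_lit 73,nat_lit 79,nat_lit 82,nat_lit 85,nat_lit 89],[nat_lit 70,
    nat_lit 86],[nat_lit 67,nat_lit 75,nat_lit 78],[nat_lit 76,nat_lit 77],[nat_lit 74,nat_lit 80,nat_lit 84,
    nat_lit 87],[nat_lit 66,nat_lit 69,nat_lit 72,nat_lit 81,nat_lit 83,nat_lit 90],[],[]],[[],[],[nat_lit 91],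
    [nat_lit 92],[],[nat_lit 108],[],[],[nat_lit 96,nat_lit 98,nat_lit 101,nat_lit 112],[nat_lit 93,nat_lit 105,
    nat_lit 109],[nat_lit 103],[nat_lit 104,nat_lit 107,nat_lit 114],[nat_lit 94,nat_lit 95,nat_lit 97,nat_lit 99,
    nat_lit 110,nat_lit 115,nat_lit 116],[nat_lit 100,nat_lit 102,nat_lit 106,nat_lit 111,nat_lit 113,nat_lit 117],[],
    []],[[nat_lit 118],[nat_lit 119],[],[],[nat_lit 145,nat_lit 168,nat_lit 169],[],[nat_lit 120,nat_lit 146,
    nat_lit 152],[nat_lit 137,nat_lit 143],[nat_lit 138,nat_lit 140,nat_lit 148,nat_lit 153,nat_lit 155,nat_lit 163,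
    nat_lit 164],[nat_lit 129,nat_lit 131,nat_lit 139,nat_lit 141,nat_lit 142,nat_lit 149,nat_lit 156,nat_lit 165],
    [nat_lit 123,nat_lit 161],[nat_lit 124,nat_lit 162],[nat_lit 125,nat_lit 127,nat_lit 132,nat_lit 154,nat_lit 157,
    nat_lit 159,nat_lit 166],[nat_lit 126,nat_lit 128,nat_lit 130,nat_lit 133,nat_lit 134,nat_lit 147,nat_lit 150,
    nat_lit 158,nat_lit 160,nat_lit 167],[nat_lit 121,nat_lit 122,nat_lit 135,nat_lit 144,nat_lit 151],[nat_lit 136]],
    [[nat_lit 170],[nat_lit 171],[],[],[nat_lit 196,nat_lit 198,nat_lit 220],[nat_lit 178,nat_lit 221],[nat_lit 184,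
    nat_lit 201,nat_lit 206,nat_lit 209],[nat_lit 185,nat_lit 202,nat_lit 205,nat_lit 207,nat_lit 210,nat_lit 214],
    [nat_lit 175,nat_lit 181],[nat_lit 176,nat_lit 186,nat_lit 187,nat_lit 193,nat_lit 194,nat_lit 216,nat_lit 218],
    [nat_lit 177],[nat_lit 174,nat_lit 217],[nat_lit 179],[nat_lit 180,nat_lit 188,nat_lit 199,nat_lit 200,
    nat_lit 219],[nat_lit 172,nat_lit 173,nat_lit 182,nat_lit 189,nat_lit 191,nat_lit 195,nat_lit 197,nat_lit 203,
    nat_lit 211],[nat_lit 183,nat_lit 190,nat_lit 192,nat_lit 204,nat_lit 208,nat_lit 212,nat_lit 213,nat_lit 215]],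
    [[],[],[],[],[nat_lit 228,nat_lit 230,nat_lit 233,nat_lit 234,nat_lit 243,nat_lit 244,nat_lit 245,nat_lit 249,
    nat_lit 254],[nat_lit 250,nat_lit 251],[nat_lit 223,nat_lit 235,nat_lit 239],[nat_lit 236,nat_lit 240],
    [nat_lit 224,nat_lit 246],[nat_lit 225,nat_lit 247],[nat_lit 229,nat_lit 231,nat_lit 252,nat_lit 255],
    [nat_lit 253,nat_lit 256],[nat_lit 226],[nat_lit 227,nat_lit 248],[nat_lit 237,nat_lit 241],[nat_lit 222,
    nat_lit 232,nat_lit 238,nat_lit 242]],[[],[],[],[],[nat_lit 272,nat_lit 274,nat_lit 276,nat_lit 284,nat_lit 285],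
    [nat_lit 287],[nat_lit 279],[nat_lit 262,nat_lit 265,nat_lit 280],[nat_lit 259],[nat_lit 266,nat_lit 286],
    [nat_lit 268,nat_lit 270,nat_lit 288,nat_lit 290],[nat_lit 269,nat_lit 271,nat_lit 289,nat_lit 291],[nat_lit 261,
    nat_lit 267],[nat_lit 260],[nat_lit 277,nat_lit 281],[nat_lit 257,nat_lit 258,nat_lit 263,nat_lit 264,nat_lit 273,
    nat_lit 275,nat_lit 278,nat_lit 282,nat_lit 283]],[[nat_lit 292],[nat_lit 293],[],[],[],[nat_lit 296,nat_lit 339],
    [nat_lit 294,nat_lit 321,nat_lit 324,nat_lit 326,nat_lit 332,nat_lit 335],[nat_lit 316,nat_lit 323,nat_lit 325,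
    nat_lit 327,nat_lit 333,nat_lit 336],[nat_lit 298,nat_lit 301,nat_lit 302,nat_lit 305,nat_lit 310],[nat_lit 299,
    nat_lit 306,nat_lit 307,nat_lit 309,nat_lit 311,nat_lit 313,nat_lit 319,nat_lit 328,nat_lit 330,nat_lit 337],
    [nat_lit 300],[nat_lit 295,nat_lit 338],[nat_lit 297,nat_lit 303,nat_lit 304,nat_lit 308,nat_lit 312,nat_lit 314,
    nat_lit 318,nat_lit 320,nat_lit 329,nat_lit 331],[],[nat_lit 315,nat_lit 317,nat_lit 322,nat_lit 334],[]],
    [[nat_lit 340],[nat_lit 341],[],[],[nat_lit 372],[nat_lit 352],[nat_lit 361,nat_lit 366,nat_lit 367,nat_lit 368,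
    nat_lit 373,nat_lit 380,nat_lit 381],[nat_lit 343,nat_lit 362,nat_lit 369,nat_lit 382],[nat_lit 374],[nat_lit 356,
    nat_lit 359,nat_lit 363,nat_lit 365,nat_lit 370,nat_lit 377,nat_lit 383],[nat_lit 344,nat_lit 384],[nat_lit 385],
    [nat_lit 346,nat_lit 347,nat_lit 350,nat_lit 353,nat_lit 357,nat_lit 360,nat_lit 364,nat_lit 375,nat_lit 378,
    nat_lit 386],[nat_lit 345,nat_lit 348,nat_lit 349,nat_lit 351,nat_lit 354,nat_lit 355,nat_lit 358,nat_lit 376,
    nat_lit 379,nat_lit 387],[nat_lit 342,nat_lit 371],[]],[[],[],[nat_lit 388],[nat_lit 389],[],[nat_lit 397,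
    nat_lit 404,nat_lit 405,nat_lit 412,nat_lit 413,nat_lit 417],[],[],[nat_lit 396,nat_lit 398,nat_lit 401,
    nat_lit 402,nat_lit 406,nat_lit 407,nat_lit 414,nat_lit 415],[nat_lit 403],[nat_lit 390,nat_lit 391,nat_lit 393,
    nat_lit 394,nat_lit 395,nat_lit 399,nat_lit 408,nat_lit 410,nat_lit 416],[nat_lit 392,nat_lit 400,nat_lit 409,
    nat_lit 411],[],[],[],[]],[[],[],[nat_lit 418],[nat_lit 419],[],[nat_lit 436,nat_lit 443,nat_lit 444,nat_lit 447],
    [],[],[nat_lit 420,nat_lit 422,nat_lit 426,nat_lit 427,nat_lit 428,nat_lit 430,nat_lit 432,nat_lit 435,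
    nat_lit 439],[nat_lit 423,nat_lit 429,nat_lit 433,nat_lit 440,nat_lit 441],[nat_lit 437,nat_lit 445],[nat_lit 438,
    nat_lit 446],[nat_lit 424,nat_lit 442],[nat_lit 421,nat_lit 425,nat_lit 431,nat_lit 434],[],[]]]
    [[[nat_lit 0x20000000000000000000000000000000000000000000000000000000000000000000000000000000000000000000000000,
    nat_lit 0x105008ec0000000000000000000000000000000000000000000000000000000000000000000000000000000000000000000000000,
    nat_lit 0,nat_lit 0,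
    nat_lit 0xa010100000000000000000000000000000000000000000000000000000000000000000000000000000000000000000000000000,
    nat_lit 0x4000,nat_lit 0,nat_lit 0x8000,nat_lit 0x10000],[nat_lit 0,nat_lit 2,nat_lit 1,nat_lit 0,nat_lit 16,
    nat_lit 0x3001000000000000,nat_lit 0x20000000000,nat_lit 0x40000000000,nat_lit 0],[nat_lit 0x2000,nat_lit 0x400,
    nat_lit 0,nat_lit 0,nat_lit 0,nat_lit 0x800,nat_lit 0x800,nat_lit 0x800,nat_lit 0],[nat_lit 0,nat_lit 0,nat_lit 0,
    nat_lit 0,nat_lit 0,nat_lit 0,nat_lit 0,nat_lit 0,nat_lit 0],[nat_lit 0,nat_lit 0,nat_lit 0,nat_lit 0,nat_lit 0,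
    nat_lit 0x80000000000000000000000,nat_lit 0x100000000000000000000000,nat_lit 0x10025000000000000000000000000,
    nat_lit 0x10025000000000000000000000000],[nat_lit 0x1000000000000000000000000000,nat_lit 0,nat_lit 0,
    nat_lit 0x18400ac00000000000000000000000,nat_lit 0x18400ac00000000000000000000000,
    nat_lit 0x2200200000000000000000000000,nat_lit 0,nat_lit 0,nat_lit 0x40900000000000000000000000000],[nat_lit 0,
    nat_lit 0,nat_lit 0,nat_lit 0,nat_lit 0,nat_lit 0,nat_lit 0x228450000000000000000000000000,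
    nat_lit 0x228450000000000000000000000000,nat_lit 0x228450000000000000000000000000],
    [nat_lit 0x228450000000000000000000000000,nat_lit 0x40000,nat_lit 0x80000,nat_lit 0x80000000,nat_lit 0x200000,
    nat_lit 0x200000,nat_lit 0x200000,nat_lit 0x60000000,nat_lit 0x60000000],[nat_lit 0x60000000,nat_lit 0x60000000,
    nat_lit 0x8000000,nat_lit 0x8000000,nat_lit 0x8000000,nat_lit 0,nat_lit 0x10001900000,nat_lit 0x10001900000,
    nat_lit 0x10001900000]],[[nat_lit 0x10001900000,nat_lit 0x10001900000,nat_lit 0x10001900000,nat_lit 0x2400000,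
    nat_lit 0x2400000,nat_lit 0x2400000,nat_lit 0x2400000,nat_lit 0x2400000,nat_lit 0x2400000],[nat_lit 0x2400000,
    nat_lit 0x10000050000000000000000000000000000000000000000000000000,
    nat_lit 0x8000000000000000000000000000000000000000000,
    nat_lit 0x24200010000000000000000000000000000000000000000000000,
    nat_lit 0x24200010000000000000000000000000000000000000000000000,
    nat_lit 0x200000000000000000000000000000000000000000000,nat_lit 0x200000000000000000000000000000000000000000000,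
    nat_lit 0x44a400020000000000000000000000000000000000000000000000,
    nat_lit 0x44a400020000000000000000000000000000000000000000000000],
    [nat_lit 0x44a400020000000000000000000000000000000000000000000000,
    nat_lit 0x44a400020000000000000000000000000000000000000000000000,
    nat_lit 0x44a400020000000000000000000000000000000000000000000000,
    nat_lit 0x44a400020000000000000000000000000000000000000000000000,
    nat_lit 0x800000000000000000000000000000000000000000000,nat_lit 0x800000000000000000000000000000000000000000000,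
    nat_lit 0x50000060c0100000000000000000000000000000000000000000000,
    nat_lit 0x50000060c0100000000000000000000000000000000000000000000,
    nat_lit 0x50000060c0100000000000000000000000000000000000000000000],
    [nat_lit 0x80828a04030000000000000000000000000000000000000000000,
    nat_lit 0x80828a04030000000000000000000000000000000000000000000,
    nat_lit 0x80828a04030000000000000000000000000000000000000000000,
    nat_lit 0x80828a04030000000000000000000000000000000000000000000,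
    nat_lit 0x80828a04030000000000000000000000000000000000000000000,
    nat_lit 0x80828a04030000000000000000000000000000000000000000000,
    nat_lit 0x2000000000040000000000000000000000000000000000000000000,
    nat_lit 0x2000000000040000000000000000000000000000000000000000000,
    nat_lit 0x2000000000040000000000000000000000000000000000000000000],
    [nat_lit 0x2000000000040000000000000000000000000000000000000000000,nat_lit 0x10000000000000000,nat_lit 0,
    nat_lit 0,nat_lit 0,nat_lit 0x20000000000000000,nat_lit 0x20000000000000000,nat_lit 0x20000000000000000,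
    nat_lit 0x22482800000000000000000],[nat_lit 0x22482800000000000000000,nat_lit 0x22482800000000000000000,
    nat_lit 0x22482800000000000000000,nat_lit 0x22482800000000000000000,nat_lit 0x22482800000000000000000,
    nat_lit 0x10000100000000000000000,nat_lit 0x10000100000000000000000,nat_lit 0x10000100000000000000000,
    nat_lit 0x10000100000000000000000],[nat_lit 0x48080000000000000000,nat_lit 0x48080000000000000000,
    nat_lit 0x48080000000000000000,nat_lit 0x48080000000000000000,nat_lit 0x48080000000000000000,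
    nat_lit 0x48080000000000000000,nat_lit 0x48080000000000000000,nat_lit 0,nat_lit 0],
    [nat_lit 0x9104000000000000000000,nat_lit 0x9104000000000000000000,nat_lit 0x4000400000000000000000,nat_lit 0,
    nat_lit 0,nat_lit 0,nat_lit 0,nat_lit 0,nat_lit 0x30000000000000000000],[nat_lit 0,nat_lit 0,nat_lit 0,nat_lit 0,
    nat_lit 0,nat_lit 0,nat_lit 0,nat_lit 0,nat_lit 0x40a01240000000000000000]],[[nat_lit 0x40a01240000000000000000,
    nat_lit 0x40a01240000000000000000,nat_lit 0x40a01240000000000000000,nat_lit 0x40a01240000000000000000,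
    nat_lit 0x40a01240000000000000000,nat_lit 0x40a01240000000000000000,nat_lit 0x40a01240000000000000000,
    nat_lit 0x40a01240000000000000000,nat_lit 0],
    [nat_lit 0xc4a01860000000000000000000000000000000000000000000000000000000000000000,nat_lit 0,nat_lit 0,nat_lit 0,
    nat_lit 0x80000000000000000000000000000000000000000000000000000000000000000,
    nat_lit 0x80000000000000000000000000000000000000000000000000000000000000000,
    nat_lit 0x800000000000000000000000000000000000000000000000000000000000000000000000,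
    nat_lit 0x800000000000000000000000000000000000000000000000000000000000000000000000,
    nat_lit 0x800000000000000000000000000000000000000000000000000000000000000000000000],
    [nat_lit 0x5000050000000000000000000000000000000000000000000000000000000000000000000,
    nat_lit 0x5000050000000000000000000000000000000000000000000000000000000000000000000,
    nat_lit 0x5000050000000000000000000000000000000000000000000000000000000000000000000,
    nat_lit 0x5000050000000000000000000000000000000000000000000000000000000000000000000,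
    nat_lit 0x5000050000000000000000000000000000000000000000000000000000000000000000000,
    nat_lit 0x5000050000000000000000000000000000000000000000000000000000000000000000000,
    nat_lit 0x5000050000000000000000000000000000000000000000000000000000000000000000000,
    nat_lit 0x5000050000000000000000000000000000000000000000000000000000000000000000000,
    nat_lit 0x10002400000000000000000000000000000000000000000000000000000000000000000],
    [nat_lit 0x10002400000000000000000000000000000000000000000000000000000000000000000,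
    nat_lit 0x10002400000000000000000000000000000000000000000000000000000000000000000,
    nat_lit 0x10002400000000000000000000000000000000000000000000000000000000000000000,
    nat_lit 0x10002400000000000000000000000000000000000000000000000000000000000000000,
    nat_lit 0x10002400000000000000000000000000000000000000000000000000000000000000000,
    nat_lit 0x10002400000000000000000000000000000000000000000000000000000000000000000,
    nat_lit 0x8200000000000000000000000000000000000000000000000000000000000000000,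
    nat_lit 0x8200000000000000000000000000000000000000000000000000000000000000000,
    nat_lit 0x400004000000000000000000000000000000000000000000000000000000000000000000],
    [nat_lit 0x400004000000000000000000000000000000000000000000000000000000000000000000,
    nat_lit 0x22000000000000000000000000000000000000000000000000000000000000000000000,
    nat_lit 0x22000000000000000000000000000000000000000000000000000000000000000000000,
    nat_lit 0x22000000000000000000000000000000000000000000000000000000000000000000000,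
    nat_lit 0x22000000000000000000000000000000000000000000000000000000000000000000000,
    nat_lit 0x22000000000000000000000000000000000000000000000000000000000000000000000,
    nat_lit 0x22000000000000000000000000000000000000000000000000000000000000000000000,
    nat_lit 0x22000000000000000000000000000000000000000000000000000000000000000000000,
    nat_lit 0x22000000000000000000000000000000000000000000000000000000000000000000000],
    [nat_lit 0x22000000000000000000000000000000000000000000000000000000000000000000000,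
    nat_lit 0x22000000000000000000000000000000000000000000000000000000000000000000000,
    nat_lit 0xa0000a0000000000000000000000000000000000000000000000000000000000000000000,
    nat_lit 0xa0000a0000000000000000000000000000000000000000000000000000000000000000000,
    nat_lit 0xa0000a0000000000000000000000000000000000000000000000000000000000000000000,
    nat_lit 0xa0000a0000000000000000000000000000000000000000000000000000000000000000000,
    nat_lit 0xa0000a0000000000000000000000000000000000000000000000000000000000000000000,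
    nat_lit 0xa0000a0000000000000000000000000000000000000000000000000000000000000000000,
    nat_lit 0xa0000a0000000000000000000000000000000000000000000000000000000000000000000],[nat_lit 0,
    nat_lit 0x100000000000000000000000000000000000000000000000000000000000000000,
    nat_lit 0x100000000000000000000000000000000000000000000000000000000000000000,
    nat_lit 0x100000000000000000000000000000000000000000000000000000000000000000,
    nat_lit 0x100000000000000000000000000000000000000000000000000000000000000000,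
    nat_lit 0x100000000000000000000000000000000000000000000000000000000000000000,
    nat_lit 0x104000001000000000000000000000000000000,nat_lit 0,nat_lit 0],[nat_lit 0,nat_lit 0,nat_lit 0,
    nat_lit 0x180a10140000000000000000000000000000000000,nat_lit 0x180a10140000000000000000000000000000000000,
    nat_lit 0x180a10140000000000000000000000000000000000,nat_lit 0,
    nat_lit 0x20000000008000000000000000000000000000000,nat_lit 0x20000000008000000000000000000000000000000],
    [nat_lit 0x820000000000000000000000000000000000,nat_lit 0x40a4000010a0000000000000000000000000000000,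
    nat_lit 0x40a4000010a0000000000000000000000000000000,nat_lit 0x40a4000010a0000000000000000000000000000000,
    nat_lit 0x40a4000010a0000000000000000000000000000000,nat_lit 0x201020680a00000000000000000000000000000000,
    nat_lit 0x201020680a00000000000000000000000000000000,nat_lit 0x201020680a00000000000000000000000000000000,
    nat_lit 0x201020680a00000000000000000000000000000000]],[[nat_lit 0x81008006000000000000000000000000000000,
    nat_lit 0x40000000010000000000000000000000000000000,nat_lit 0x40000000010000000000000000000000000000000,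
    nat_lit 0x400000000000000000000000000000,nat_lit 0x400000000000000000000000000000,
    nat_lit 0x400000000000000000000000000000,nat_lit 0x400000000000000000000000000000,
    nat_lit 0x400000000000000000000000000000,nat_lit 0x400000000000000000000000000000],
    [nat_lit 0x400000000000000000000000000000,nat_lit 0x400000000000000000000000000000,
    nat_lit 0x400000000000000000000000000000,nat_lit 0x814048006540000000000000000000000000000000,
    nat_lit 0x814048006540000000000000000000000000000000,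
    nat_lit 0x3021c2000000000000000000000000000000000000000000000000000000000000000000000000000000000000000000,
    nat_lit 0x3021c2000000000000000000000000000000000000000000000000000000000000000000000000000000000000000000,
    nat_lit 0,nat_lit 0],[nat_lit 0,nat_lit 0,nat_lit 0,nat_lit 0,nat_lit 0,nat_lit 0,nat_lit 0,
    nat_lit 0x4000000000000000000000000000000000000000000000000000000000000000000000000000000000000000000000,
    nat_lit 0x4000000000000000000000000000000000000000000000000000000000000000000000000000000000000000000000],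
    [nat_lit 0x10000000000000000000000000000000000000000000000000000000000000000000000000000000000000000,
    nat_lit 0x10000000000000000000000000000000000000000000000000000000000000000000000000000000000000000,
    nat_lit 0x10000000000000000000000000000000000000000000000000000000000000000000000000000000000000000,
    nat_lit 0x1000000000100000000000000000000000000000000000000000000000000000000000000000000000000000000000000,
    nat_lit 0x1000000000100000000000000000000000000000000000000000000000000000000000000000000000000000000000000,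
    nat_lit 0x400204000080000000000000000000000000000000000000000000000000000000000000000000000000000000000000,
    nat_lit 0x400204000080000000000000000000000000000000000000000000000000000000000000000000000000000000000000,
    nat_lit 0x4048011224c00000000000000000000000000000000000000000000000000000000000000000000000000000000000000,
    nat_lit 0x4048011224c00000000000000000000000000000000000000000000000000000000000000000000000000000000000000],
    [nat_lit 0x820428900000000000000000000000000000000000000000000000000000000000000000000000000000000000000000,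
    nat_lit 0x820428900000000000000000000000000000000000000000000000000000000000000000000000000000000000000000,
    nat_lit 0x820428900000000000000000000000000000000000000000000000000000000000000000000000000000000000000000,
    nat_lit 0x820428900000000000000000000000000000000000000000000000000000000000000000000000000000000000000000,
    nat_lit 0x800000040000000000000000000000000000000000000000000000000000000000000000000000000000000000000,
    nat_lit 0x800000040000000000000000000000000000000000000000000000000000000000000000000000000000000000000,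
    nat_lit 0x2000000000000000000000000000000000000000000000000000000000000000000000000000000000000000000000000,
    nat_lit 0x10000000000000000000000000000000000000000000000000000000000000000000000000000000000000,
    nat_lit 0x10000000000000000000000000000000000000000000000000000000000000000000000000000000000000],
    [nat_lit 0x10000000000000000000000000000000000000000000000000000000000000000000000000000000000000,
    nat_lit 0x10000000000000000000000000000000000000000000000000000000000000000000000000000000000000,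
    nat_lit 0x80900004cb200000000000000000000000000000000000000000000000000000000000000000000000000000000000000,
    nat_lit 0x80900004cb200000000000000000000000000000000000000000000000000000000000000000000000000000000000000,
    nat_lit 0,nat_lit 0x4410040000000000000000000000000000000000000000000000000000000,
    nat_lit 0x880080000000000000000000000000000000000000000000000000000000,nat_lit 0,
    nat_lit 0x40000100000000000000000000000000000000000000000000000000000000],
    [nat_lit 0x40000100000000000000000000000000000000000000000000000000000000,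
    nat_lit 0x40000100000000000000000000000000000000000000000000000000000000,
    nat_lit 0x40000100000000000000000000000000000000000000000000000000000000,
    nat_lit 0xc00000000000000000000000000000000000000000000000000000000000000,
    nat_lit 0xc00000000000000000000000000000000000000000000000000000000000000,
    nat_lit 0xc00000000000000000000000000000000000000000000000000000000000000,
    nat_lit 0xc00000000000000000000000000000000000000000000000000000000000000,
    nat_lit 0xc00000000000000000000000000000000000000000000000000000000000000,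
    nat_lit 0xc00000000000000000000000000000000000000000000000000000000000000],
    [nat_lit 0xc00000000000000000000000000000000000000000000000000000000000000,
    nat_lit 0x900000a000000000000000000000000000000000000000000000000000000000,
    nat_lit 0x900000a000000000000000000000000000000000000000000000000000000000,
    nat_lit 0x900000a000000000000000000000000000000000000000000000000000000000,
    nat_lit 0x900000a000000000000000000000000000000000000000000000000000000000,
    nat_lit 0x900000a000000000000000000000000000000000000000000000000000000000,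
    nat_lit 0x900000a000000000000000000000000000000000000000000000000000000000,
    nat_lit 0x900000a000000000000000000000000000000000000000000000000000000000,
    nat_lit 0x1100000000000000000000000000000000000000000000000000000000000],
    [nat_lit 0x400000000000000000000000000000000000000000000000000000000,
    nat_lit 0x80000200000000000000000000000000000000000000000000000000000000,
    nat_lit 0x80000200000000000000000000000000000000000000000000000000000000,
    nat_lit 0x2200000000000000000000000000000000000000000000000000000000000,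
    nat_lit 0x2200000000000000000000000000000000000000000000000000000000000,
    nat_lit 0x2200000000000000000000000000000000000000000000000000000000000,
    nat_lit 0x2200000000000000000000000000000000000000000000000000000000000,
    nat_lit 0x2200000000000000000000000000000000000000000000000000000000000,
    nat_lit 0x2200000000000000000000000000000000000000000000000000000000000]],
    [[nat_lit 0x2200000000000000000000000000000000000000000000000000000000000,
    nat_lit 0x2200000000000000000000000000000000000000000000000000000000000,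
    nat_lit 0x2200000000000000000000000000000000000000000000000000000000000,
    nat_lit 0x2200000000000000000000000000000000000000000000000000000000000,
    nat_lit 0x12000000000000000000000000000000000000000000000000000000000000000,
    nat_lit 0x12000000000000000000000000000000000000000000000000000000000000000,
    nat_lit 0x12000000000000000000000000000000000000000000000000000000000000000,
    nat_lit 0x12000000000000000000000000000000000000000000000000000000000000000,
    nat_lit 0x12000000000000000000000000000000000000000000000000000000000000000],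
    [nat_lit 0x12000000000000000000000000000000000000000000000000000000000000000,
    nat_lit 0x12000000000000000000000000000000000000000000000000000000000000000,
    nat_lit 0x12000000000000000000000000000000000000000000000000000000000000000,
    nat_lit 0x12000000000000000000000000000000000000000000000000000000000000000,
    nat_lit 0x12000000000000000000000000000000000000000000000000000000000000000,
    nat_lit 0x100000800000000000000000000000000000000000000000000000000000000,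
    nat_lit 0x100000800000000000000000000000000000000000000000000000000000000,
    nat_lit 0x400000000000000000000000000000000000000000000000000000000000000000000000000000000000000000000000000000000,
    nat_lit 0],[nat_lit 0,nat_lit 0,
    nat_lit 0x895c5000000000000000000000000000000000000000000000000000000000000000000000000000000000000000000000000000000000,
    nat_lit 0x895c5000000000000000000000000000000000000000000000000000000000000000000000000000000000000000000000000000000000,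
    nat_lit 0x895c5000000000000000000000000000000000000000000000000000000000000000000000000000000000000000000000000000000000,
    nat_lit 0x895c5000000000000000000000000000000000000000000000000000000000000000000000000000000000000000000000000000000000,
    nat_lit 0x895c5000000000000000000000000000000000000000000000000000000000000000000000000000000000000000000000000000000000,
    nat_lit 0x895c5000000000000000000000000000000000000000000000000000000000000000000000000000000000000000000000000000000000,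
    nat_lit 0x9810000000000000000000000000000000000000000000000000000000000000000000000000000000000000000000000000000000000000],
    [nat_lit 0x9810000000000000000000000000000000000000000000000000000000000000000000000000000000000000000000000000000000000000,
    nat_lit 0x9810000000000000000000000000000000000000000000000000000000000000000000000000000000000000000000000000000000000000,
    nat_lit 0x9810000000000000000000000000000000000000000000000000000000000000000000000000000000000000000000000000000000000000,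
    nat_lit 0x9810000000000000000000000000000000000000000000000000000000000000000000000000000000000000000000000000000000000000,
    nat_lit 0x9810000000000000000000000000000000000000000000000000000000000000000000000000000000000000000000000000000000000000,
    nat_lit 0x2020000000000000000000000000000000000000000000000000000000000000000000000000000000000000000000000000000000000000,
    nat_lit 0x2020000000000000000000000000000000000000000000000000000000000000000000000000000000000000000000000000000000000000,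
    nat_lit 0x2020000000000000000000000000000000000000000000000000000000000000000000000000000000000000000000000000000000000000,
    nat_lit 0x2020000000000000000000000000000000000000000000000000000000000000000000000000000000000000000000000000000000000000],
    [nat_lit 0x2020000000000000000000000000000000000000000000000000000000000000000000000000000000000000000000000000000000000000,
    nat_lit 0x2020000000000000000000000000000000000000000000000000000000000000000000000000000000000000000000000000000000000000,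
    nat_lit 0x2020000000000000000000000000000000000000000000000000000000000000000000000000000000000000000000000000000000000000,
    nat_lit 0x2020000000000000000000000000000000000000000000000000000000000000000000000000000000000000000000000000000000000000,
    nat_lit 0x2020000000000000000000000000000000000000000000000000000000000000000000000000000000000000000000000000000000000000,
    nat_lit 0x2020000000000000000000000000000000000000000000000000000000000000000000000000000000000000000000000000000000000000,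
    nat_lit 0,nat_lit 0,nat_lit 0],[nat_lit 0,nat_lit 0,
    nat_lit 0x400010000000000000000000000000000000000000000000000000000000000000000000000000000000000000000000000000000000000,
    nat_lit 0x400010000000000000000000000000000000000000000000000000000000000000000000000000000000000000000000000000000000000,
    nat_lit 0x302208000000000000000000000000000000000000000000000000000000000000000000000000000000000000000000000000000000000,
    nat_lit 0x4040000000000000000000000000000000000000000000000000000000000000000000000000000000000000000000000000000000000000,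
    nat_lit 0x4040000000000000000000000000000000000000000000000000000000000000000000000000000000000000000000000000000000000000,
    nat_lit 0x4040000000000000000000000000000000000000000000000000000000000000000000000000000000000000000000000000000000000000,
    nat_lit 0x4040000000000000000000000000000000000000000000000000000000000000000000000000000000000000000000000000000000000000],
    [nat_lit 0x4040000000000000000000000000000000000000000000000000000000000000000000000000000000000000000000000000000000000000,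
    nat_lit 0x4040000000000000000000000000000000000000000000000000000000000000000000000000000000000000000000000000000000000000,
    nat_lit 0x4040000000000000000000000000000000000000000000000000000000000000000000000000000000000000000000000000000000000000,
    nat_lit 0x4040000000000000000000000000000000000000000000000000000000000000000000000000000000000000000000000000000000000000,
    nat_lit 0x4040000000000000000000000000000000000000000000000000000000000000000000000000000000000000000000000000000000000000,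
    nat_lit 0x4040000000000000000000000000000000000000000000000000000000000000000000000000000000000000000000000000000000000000,
    nat_lit 0x4822000000000000000000000000000000000000000000000000000000000000000000000000000000000000000000000000000000000,
    nat_lit 0x4822000000000000000000000000000000000000000000000000000000000000000000000000000000000000000000000000000000000,
    nat_lit 0x4822000000000000000000000000000000000000000000000000000000000000000000000000000000000000000000000000000000000],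
    [nat_lit 0x4822000000000000000000000000000000000000000000000000000000000000000000000000000000000000000000000000000000000,
    nat_lit 0,nat_lit 0x20000000000000000000000000000000000000000000000000000000000000000000000000,
    nat_lit 0x905200000040000000000000000000000000000000000000000000000000000000000000000000000000,
    nat_lit 0x905200000040000000000000000000000000000000000000000000000000000000000000000000000000,
    nat_lit 0x905200000040000000000000000000000000000000000000000000000000000000000000000000000000,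
    nat_lit 0x905200000040000000000000000000000000000000000000000000000000000000000000000000000000,
    nat_lit 0x1000000000000000000000000000000000000000000000000000000000000000000000000000,
    nat_lit 0x1000000000000000000000000000000000000000000000000000000000000000000000000000],
    [nat_lit 0x1000000000000000000000000000000000000000000000000000000000000000000000000000,
    nat_lit 0x1000000000000000000000000000000000000000000000000000000000000000000000000000,
    nat_lit 0x1000000000000000000000000000000000000000000000000000000000000000000000000000,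
    nat_lit 0x120a810000000000000000000000000000000000000000000000000000000000000000000000000000000,
    nat_lit 0x120a810000000000000000000000000000000000000000000000000000000000000000000000000000000,
    nat_lit 0x120a810000000000000000000000000000000000000000000000000000000000000000000000000000000,
    nat_lit 0x120a810000000000000000000000000000000000000000000000000000000000000000000000000000000,
    nat_lit 0x120a810000000000000000000000000000000000000000000000000000000000000000000000000000000,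
    nat_lit 0x120a810000000000000000000000000000000000000000000000000000000000000000000000000000000]],
    [[nat_lit 0x120a810000000000000000000000000000000000000000000000000000000000000000000000000000000,
    nat_lit 0x120a810000000000000000000000000000000000000000000000000000000000000000000000000000000,
    nat_lit 0x120a810000000000000000000000000000000000000000000000000000000000000000000000000000000,
    nat_lit 0xa0145118200000000000000000000000000000000000000000000000000000000000000000000000000,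
    nat_lit 0xa0145118200000000000000000000000000000000000000000000000000000000000000000000000000,
    nat_lit 0x2050082ac0800000000000000000000000000000000000000000000000000000000000000000000000000,
    nat_lit 0x2050082ac0800000000000000000000000000000000000000000000000000000000000000000000000000,
    nat_lit 0x400428000000000000000000000000000000000000000000000000000000000000000000000000000000,
    nat_lit 0x400428000000000000000000000000000000000000000000000000000000000000000000000000000000],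
    [nat_lit 0x400428000000000000000000000000000000000000000000000000000000000000000000000000000000,
    nat_lit 0x400428000000000000000000000000000000000000000000000000000000000000000000000000000000,
    nat_lit 0x4000000000080000000000000000000000000000000000000000000000000000000000000000000000000,
    nat_lit 0x4000000000080000000000000000000000000000000000000000000000000000000000000000000000000,nat_lit 32,
    nat_lit 0,nat_lit 0,nat_lit 0,nat_lit 0],[nat_lit 0,nat_lit 0,nat_lit 0,nat_lit 0,nat_lit 0,nat_lit 0,nat_lit 0,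
    nat_lit 0,nat_lit 0],[nat_lit 0,nat_lit 0,nat_lit 0,nat_lit 256,nat_lit 256,nat_lit 256,nat_lit 256,nat_lit 128,
    nat_lit 128],[nat_lit 128,nat_lit 128,nat_lit 128,nat_lit 128,nat_lit 128,nat_lit 128,nat_lit 128]]]
    [[[[nat_lit 0x20000000000000000000000000000000000000000000000000000000000000000000000000000000000000000000000000,
    nat_lit 0x50088c0000000000000000000000000000000000000000000000000000000000000000000000000000000000000000000000000,
    nat_lit 0,nat_lit 0,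
    nat_lit 0xa010100000000000000000000000000000000000000000000000000000000000000000000000000000000000000000000000000,
    nat_lit 0,nat_lit 0,nat_lit 0x8000,nat_lit 0x10000],[nat_lit 0,nat_lit 2,nat_lit 0,nat_lit 0,nat_lit 16,nat_lit 0,
    nat_lit 0x20000000000,nat_lit 0x40000000000,nat_lit 0],[nat_lit 0x2000,nat_lit 0x400,nat_lit 0,nat_lit 0,
    nat_lit 0,nat_lit 0,nat_lit 0,nat_lit 0,nat_lit 0],[nat_lit 0,nat_lit 0,nat_lit 0,nat_lit 0,nat_lit 0,nat_lit 0,
    nat_lit 0,nat_lit 0,nat_lit 0],[nat_lit 0,nat_lit 0,nat_lit 0,nat_lit 0,nat_lit 0,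
    nat_lit 0x80000000000000000000000,nat_lit 0,nat_lit 0,nat_lit 0x5000000000000000000000000],[nat_lit 0,nat_lit 0,
    nat_lit 0,nat_lit 0x104008000000000000000000000000,nat_lit 0x104008000000000000000000000000,
    nat_lit 0x200000000000000000000000,nat_lit 0,nat_lit 0,nat_lit 0],[nat_lit 0,nat_lit 0,nat_lit 0,nat_lit 0,
    nat_lit 0,nat_lit 0,nat_lit 0x8010000000000000000000000000,nat_lit 0,nat_lit 0],[nat_lit 0,nat_lit 0,
    nat_lit 0x80000,nat_lit 0,nat_lit 0,nat_lit 0x200000,nat_lit 0,nat_lit 0x40000000,nat_lit 0],[nat_lit 0,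
    nat_lit 0x40000000,nat_lit 0,nat_lit 0,nat_lit 0,nat_lit 0,nat_lit 0,nat_lit 0,nat_lit 0]],[[nat_lit 0,
    nat_lit 0x1000000,nat_lit 0x1000000,nat_lit 0x2400000,nat_lit 0,nat_lit 0,nat_lit 0,nat_lit 0,nat_lit 0x2400000],
    [nat_lit 0x2400000,nat_lit 0x10000050000000000000000000000000000000000000000000000000,nat_lit 0,nat_lit 0,
    nat_lit 0,nat_lit 0,nat_lit 0,nat_lit 0x40a000020000000000000000000000000000000000000000000000,nat_lit 0],
    [nat_lit 0,nat_lit 0,nat_lit 0x40a000020000000000000000000000000000000000000000000000,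
    nat_lit 0x40a000020000000000000000000000000000000000000000000000,nat_lit 0,nat_lit 0,nat_lit 0,nat_lit 0,
    nat_lit 0],[nat_lit 0x20000000000000000000000000000000000000000000,nat_lit 0,nat_lit 0,nat_lit 0,
    nat_lit 0x20000000000000000000000000000000000000000000,nat_lit 0x20000000000000000000000000000000000000000000,
    nat_lit 0,nat_lit 0x40000000000000000000000000000000000000000000,nat_lit 0],
    [nat_lit 0x40000000000000000000000000000000000000000000,nat_lit 0,nat_lit 0,nat_lit 0,nat_lit 0,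
    nat_lit 0x20000000000000000,nat_lit 0x20000000000000000,nat_lit 0x20000000000000000,nat_lit 0],[nat_lit 0,
    nat_lit 0x2080800000000000000000,nat_lit 0x2080800000000000000000,nat_lit 0x2080800000000000000000,
    nat_lit 0x2080800000000000000000,nat_lit 0,nat_lit 0,nat_lit 0,nat_lit 0],[nat_lit 0,nat_lit 0,nat_lit 0,
    nat_lit 0,nat_lit 0,nat_lit 0,nat_lit 0,nat_lit 0,nat_lit 0],[nat_lit 0,nat_lit 0x8100000000000000000000,
    nat_lit 0,nat_lit 0,nat_lit 0,nat_lit 0,nat_lit 0,nat_lit 0,nat_lit 0],[nat_lit 0,nat_lit 0,nat_lit 0,nat_lit 0,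
    nat_lit 0,nat_lit 0,nat_lit 0,nat_lit 0,nat_lit 0]],[[nat_lit 0,nat_lit 0,nat_lit 0,nat_lit 0,nat_lit 0,nat_lit 0,
    nat_lit 0x201040000000000000000,nat_lit 0,nat_lit 0],[nat_lit 0,nat_lit 0,nat_lit 0,nat_lit 0,nat_lit 0,
    nat_lit 0x80000000000000000000000000000000000000000000000000000000000000000,nat_lit 0,nat_lit 0,nat_lit 0],
    [nat_lit 0x4000000000000000000000000000000000000000000000000000000000000000000000000,
    nat_lit 0x4000000000000000000000000000000000000000000000000000000000000000000000000,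
    nat_lit 0x4000000000000000000000000000000000000000000000000000000000000000000000000,
    nat_lit 0x4000000000000000000000000000000000000000000000000000000000000000000000000,nat_lit 0,nat_lit 0,nat_lit 0,
    nat_lit 0x4000000000000000000000000000000000000000000000000000000000000000000000000,nat_lit 0],
    [nat_lit 0x2000000000000000000000000000000000000000000000000000000000000000000,
    nat_lit 0x2000000000000000000000000000000000000000000000000000000000000000000,nat_lit 0,nat_lit 0,nat_lit 0,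
    nat_lit 0,nat_lit 0,nat_lit 0x200000000000000000000000000000000000000000000000000000000000000000,nat_lit 0],
    [nat_lit 0x4000000000000000000000000000000000000000000000000000000000000000000,
    nat_lit 0x20000000000000000000000000000000000000000000000000000000000000000000000,
    nat_lit 0x20000000000000000000000000000000000000000000000000000000000000000000000,
    nat_lit 0x20000000000000000000000000000000000000000000000000000000000000000000000,
    nat_lit 0x20000000000000000000000000000000000000000000000000000000000000000000000,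
    nat_lit 0x20000000000000000000000000000000000000000000000000000000000000000000000,
    nat_lit 0x20000000000000000000000000000000000000000000000000000000000000000000000,nat_lit 0,
    nat_lit 0x20000000000000000000000000000000000000000000000000000000000000000000000],
    [nat_lit 0x20000000000000000000000000000000000000000000000000000000000000000000000,
    nat_lit 0x20000000000000000000000000000000000000000000000000000000000000000000000,
    nat_lit 0x8000000000000000000000000000000000000000000000000000000000000000000000000,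
    nat_lit 0x8000000000000000000000000000000000000000000000000000000000000000000000000,
    nat_lit 0x8000000000000000000000000000000000000000000000000000000000000000000000000,
    nat_lit 0x8000000000000000000000000000000000000000000000000000000000000000000000000,nat_lit 0,
    nat_lit 0x8000000000000000000000000000000000000000000000000000000000000000000000000,
    nat_lit 0x8000000000000000000000000000000000000000000000000000000000000000000000000],[nat_lit 0,nat_lit 0,
    nat_lit 0,nat_lit 0,nat_lit 0,nat_lit 0,nat_lit 0,nat_lit 0,nat_lit 0],[nat_lit 0,nat_lit 0,nat_lit 0,nat_lit 0,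
    nat_lit 0,nat_lit 0x100800000000000000000000000000000000000000,nat_lit 0,nat_lit 0,
    nat_lit 0x8000000000000000000000000000000],[nat_lit 0x20000000000000000000000000000000000,nat_lit 0,nat_lit 0,
    nat_lit 0x40a0000010a0000000000000000000000000000000,nat_lit 0,nat_lit 0,nat_lit 0,
    nat_lit 0x201020480000000000000000000000000000000000,nat_lit 0]],[[nat_lit 0,
    nat_lit 0x10000000000000000000000000000000,nat_lit 0,nat_lit 0,nat_lit 0,nat_lit 0,nat_lit 0,nat_lit 0,nat_lit 0],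
    [nat_lit 0,nat_lit 0,nat_lit 0,nat_lit 0x814048006140000000000000000000000000000000,nat_lit 0,nat_lit 0,
    nat_lit 0x3020c0000000000000000000000000000000000000000000000000000000000000000000000000000000000000000000,
    nat_lit 0,nat_lit 0],[nat_lit 0,nat_lit 0,nat_lit 0,nat_lit 0,nat_lit 0,nat_lit 0,nat_lit 0,nat_lit 0,nat_lit 0],
    [nat_lit 0,nat_lit 0,nat_lit 0,nat_lit 0,nat_lit 0,nat_lit 0,nat_lit 0,
    nat_lit 0x4048001224c00000000000000000000000000000000000000000000000000000000000000000000000000000000000000,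
    nat_lit 0],[nat_lit 0,nat_lit 0,
    nat_lit 0x20008900000000000000000000000000000000000000000000000000000000000000000000000000000000000000000,
    nat_lit 0,nat_lit 0,nat_lit 0,nat_lit 0,
    nat_lit 0x10000000000000000000000000000000000000000000000000000000000000000000000000000000000000,
    nat_lit 0x10000000000000000000000000000000000000000000000000000000000000000000000000000000000000],
    [nat_lit 0x10000000000000000000000000000000000000000000000000000000000000000000000000000000000000,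
    nat_lit 0x10000000000000000000000000000000000000000000000000000000000000000000000000000000000000,
    nat_lit 0x8090000449000000000000000000000000000000000000000000000000000000000000000000000000000000000000000,
    nat_lit 0,nat_lit 0,nat_lit 0x4410040000000000000000000000000000000000000000000000000000000,nat_lit 0,nat_lit 0,
    nat_lit 0],[nat_lit 0,nat_lit 0,nat_lit 0,
    nat_lit 0x400000000000000000000000000000000000000000000000000000000000000,
    nat_lit 0x400000000000000000000000000000000000000000000000000000000000000,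
    nat_lit 0x400000000000000000000000000000000000000000000000000000000000000,
    nat_lit 0x400000000000000000000000000000000000000000000000000000000000000,
    nat_lit 0x400000000000000000000000000000000000000000000000000000000000000,nat_lit 0],[nat_lit 0,
    nat_lit 0x8000000000000000000000000000000000000000000000000000000000000000,
    nat_lit 0x8000000000000000000000000000000000000000000000000000000000000000,
    nat_lit 0x8000000000000000000000000000000000000000000000000000000000000000,nat_lit 0,nat_lit 0,nat_lit 0,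
    nat_lit 0x8000000000000000000000000000000000000000000000000000000000000000,nat_lit 0],[nat_lit 0,nat_lit 0,
    nat_lit 0,nat_lit 0x2000000000000000000000000000000000000000000000000000000000000,
    nat_lit 0x2000000000000000000000000000000000000000000000000000000000000,
    nat_lit 0x2000000000000000000000000000000000000000000000000000000000000,
    nat_lit 0x2000000000000000000000000000000000000000000000000000000000000,
    nat_lit 0x2000000000000000000000000000000000000000000000000000000000000,nat_lit 0]],[[nat_lit 0,nat_lit 0,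
    nat_lit 0x2000000000000000000000000000000000000000000000000000000000000,
    nat_lit 0x2000000000000000000000000000000000000000000000000000000000000,
    nat_lit 0x10000000000000000000000000000000000000000000000000000000000000000,
    nat_lit 0x10000000000000000000000000000000000000000000000000000000000000000,
    nat_lit 0x10000000000000000000000000000000000000000000000000000000000000000,
    nat_lit 0x10000000000000000000000000000000000000000000000000000000000000000,
    nat_lit 0x10000000000000000000000000000000000000000000000000000000000000000],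
    [nat_lit 0x10000000000000000000000000000000000000000000000000000000000000000,
    nat_lit 0x10000000000000000000000000000000000000000000000000000000000000000,
    nat_lit 0x10000000000000000000000000000000000000000000000000000000000000000,
    nat_lit 0x10000000000000000000000000000000000000000000000000000000000000000,nat_lit 0,nat_lit 0,nat_lit 0,
    nat_lit 0x400000000000000000000000000000000000000000000000000000000000000000000000000000000000000000000000000000000,
    nat_lit 0],[nat_lit 0,nat_lit 0,nat_lit 0,nat_lit 0,nat_lit 0,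
    nat_lit 0x501000000000000000000000000000000000000000000000000000000000000000000000000000000000000000000000000000000000,
    nat_lit 0x501000000000000000000000000000000000000000000000000000000000000000000000000000000000000000000000000000000000,
    nat_lit 0x501000000000000000000000000000000000000000000000000000000000000000000000000000000000000000000000000000000000,
    nat_lit 0x810000000000000000000000000000000000000000000000000000000000000000000000000000000000000000000000000000000000000],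
    [nat_lit 0x810000000000000000000000000000000000000000000000000000000000000000000000000000000000000000000000000000000000000,
    nat_lit 0x810000000000000000000000000000000000000000000000000000000000000000000000000000000000000000000000000000000000000,
    nat_lit 0x810000000000000000000000000000000000000000000000000000000000000000000000000000000000000000000000000000000000000,
    nat_lit 0x810000000000000000000000000000000000000000000000000000000000000000000000000000000000000000000000000000000000000,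
    nat_lit 0,nat_lit 0,nat_lit 0,nat_lit 0,nat_lit 0],[nat_lit 0,nat_lit 0,nat_lit 0,nat_lit 0,nat_lit 0,nat_lit 0,
    nat_lit 0,nat_lit 0,nat_lit 0],[nat_lit 0,nat_lit 0,nat_lit 0,nat_lit 0,nat_lit 0,nat_lit 0,nat_lit 0,nat_lit 0,
    nat_lit 0],[nat_lit 0,nat_lit 0,nat_lit 0,nat_lit 0,nat_lit 0,nat_lit 0,nat_lit 0,nat_lit 0,nat_lit 0],[nat_lit 0,
    nat_lit 0,nat_lit 0x20000000000000000000000000000000000000000000000000000000000000000000000000,nat_lit 0,
    nat_lit 0x904200000040000000000000000000000000000000000000000000000000000000000000000000000000,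
    nat_lit 0x904200000040000000000000000000000000000000000000000000000000000000000000000000000000,nat_lit 0,
    nat_lit 0,nat_lit 0],[nat_lit 0,nat_lit 0,nat_lit 0,nat_lit 0,nat_lit 0,
    nat_lit 0x100a000000000000000000000000000000000000000000000000000000000000000000000000000000000,nat_lit 0,
    nat_lit 0,nat_lit 0]],
    [[nat_lit 0x100a000000000000000000000000000000000000000000000000000000000000000000000000000000000,nat_lit 0,
    nat_lit 0x100a000000000000000000000000000000000000000000000000000000000000000000000000000000000,nat_lit 0,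
    nat_lit 0,nat_lit 0,nat_lit 0,nat_lit 0,nat_lit 0],[nat_lit 0,nat_lit 0,nat_lit 0,nat_lit 0,nat_lit 32,nat_lit 0,
    nat_lit 0,nat_lit 0,nat_lit 0],[nat_lit 0,nat_lit 0,nat_lit 0,nat_lit 0,nat_lit 0,nat_lit 0,nat_lit 0,nat_lit 0,
    nat_lit 0],[nat_lit 0,nat_lit 0,nat_lit 0,nat_lit 256,nat_lit 256,nat_lit 256,nat_lit 256,nat_lit 128,
    nat_lit 128],[nat_lit 0,nat_lit 0,nat_lit 128,nat_lit 128,nat_lit 128,nat_lit 128,nat_lit 0]]]]
    (nat_lit 1) (nat_lit 3) (nat_lit 27)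
    [[nat_lit 257,nat_lit 0x100001],[nat_lit 272,nat_lit 528,nat_lit 0x10010,nat_lit 0x1000010],[nat_lit 512,
    nat_lit 768,nat_lit 0x400,nat_lit 0x500,nat_lit 0x1000400,nat_lit 0x1300,nat_lit 0x10300,nat_lit 0x100300,
    nat_lit 0x1000300,nat_lit 0x10000300,nat_lit 0x1200,nat_lit 0x1001200,nat_lit 0x10001200,nat_lit 0x10200,
    nat_lit 0x11200,nat_lit 0x20200,nat_lit 0x1010200,nat_lit 0x10010200,nat_lit 0x100200,nat_lit 0x10100200,
    nat_lit 0x1000200,nat_lit 0x2000200,nat_lit 0x11000200,nat_lit 0x10000200,nat_lit 0x20000200,nat_lit 0x1100,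
    nat_lit 0x2100,nat_lit 0x11100,nat_lit 0x1011100,nat_lit 0x101100,nat_lit 0x1001100,nat_lit 0x2001100,
    nat_lit 0x10001100,nat_lit 0x11001100,nat_lit 0x10100,nat_lit 0x10011100,nat_lit 0x20100,nat_lit 0x1020100,
    nat_lit 0x110100,nat_lit 0x1010100,nat_lit 0x2010100,nat_lit 0x10010100,nat_lit 0x11010100,nat_lit 0x20010100,
    nat_lit 0x21100,nat_lit 0x10020100,nat_lit 0x100100,nat_lit 0x1100100,nat_lit 0x10100100,nat_lit 0x1000100,
    nat_lit 0x2000100,nat_lit 0x3000100,nat_lit 0x11000100,nat_lit 0x10000100,nat_lit 0x20000100,nat_lit 0x20100100],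
    [nat_lit 0x2000,nat_lit 0x3000,nat_lit 0x12000,nat_lit 0x102000,nat_lit 0x1002000,nat_lit 0x10002000,
    nat_lit 0x11000,nat_lit 0x21000,nat_lit 0x111000,nat_lit 0x1011000,nat_lit 0x10011000,nat_lit 0x101000,
    nat_lit 0x1101000,nat_lit 0x10101000,nat_lit 0x1001000,nat_lit 0x11011000,nat_lit 0x2001000,nat_lit 0x11001000,
    nat_lit 0x10001000,nat_lit 0x20001000],[nat_lit 0x20000,nat_lit 0x30000,nat_lit 0x120000,nat_lit 0x1020000,
    nat_lit 0x1030000,nat_lit 0x2020000,nat_lit 0x10020000,nat_lit 0x110000,nat_lit 0x1110000,nat_lit 0x10110000,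
    nat_lit 0x1010000,nat_lit 0x2010000,nat_lit 0x3010000,nat_lit 0x11010000,nat_lit 0x10010000,nat_lit 0x20010000],
    [nat_lit 0x200000,nat_lit 0x1100000,nat_lit 0x2100000,nat_lit 0x11100000,nat_lit 0x10100000,nat_lit 0x20100000,
    nat_lit 0x30100000],[nat_lit 0x2000000,nat_lit 0x3000000,nat_lit 0x4000000,nat_lit 0x12000000,nat_lit 0x11000000],
    [nat_lit 0x20000000,nat_lit 0x30000000,nat_lit 0x40000000]]
    [.c (nat_lit 0) (nat_lit 0xc514734d30d),.c (nat_lit 0) (nat_lit 0xc0003000004),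
    .r (nat_lit 0xdb2) (nat_lit 5) [nat_lit 129,nat_lit 0x2104180187183],
    .r (nat_lit 0xdb8) (nat_lit 8) [nat_lit 0x418418c30d183,nat_lit 0x31451c734c1c3],
    .r (nat_lit 0xdb8) (nat_lit 8) [nat_lit 0x83000000183,nat_lit 0x20020060001c3],
    .r (nat_lit 0xdb8) (nat_lit 8) [nat_lit 129,nat_lit 0x20800060001c3],.c (nat_lit 3) (nat_lit 2),
    .c (nat_lit 0) (nat_lit 0x14514734b305),.c (nat_lit 1) (nat_lit 0x14924d659607),
    .c (nat_lit 0) (nat_lit 0x55555ff73f0d),.c (nat_lit 6) (nat_lit 0x206212618646),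
    .c (nat_lit 0) (nat_lit 0x14514734b303),.c (nat_lit 0) (nat_lit 0x34d25395b90d),
    .c (nat_lit 6) (nat_lit 0x820841861c2),.c (nat_lit 0) (nat_lit 0x34935395b90d),
    .c (nat_lit 0) (nat_lit 0x14514734d303),.c (nat_lit 0) (nat_lit 0x14514734b303),
    .c (nat_lit 0) (nat_lit 0x24724d653607),.r (nat_lit 0xdb7) (nat_lit 11) [nat_lit 0x2002000000003,
    nat_lit 0x418418c30d183],.c (nat_lit 1) (nat_lit 0x50c734d307),.c (nat_lit 0) (nat_lit 0x2491cd653607),
    .c (nat_lit 6) (nat_lit 0x10400c30c346),.c (nat_lit 6) (nat_lit 0x10208c30c346),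
    .c (nat_lit 0) (nat_lit 0x2491cd659607),.c (nat_lit 0) (nat_lit 0x24924764f60d),
    .c (nat_lit 0) (nat_lit 0xc30c31c7183),.c (nat_lit 1) (nat_lit 0x314734d307),
    .c (nat_lit 6) (nat_lit 0x10010c30c346),.c (nat_lit 0) (nat_lit 0x24724d659607),
    .c (nat_lit 0) (nat_lit 0x14514734d303),.r (nat_lit 0xdb7) (nat_lit 11) [nat_lit 0x2002000000003,
    nat_lit 0x418418c48d183],.c (nat_lit 0) (nat_lit 0x14514734b303),
    .r (nat_lit 0xdb7) (nat_lit 6) [nat_lit 0x2002000000003,nat_lit 0xc0081],.c (nat_lit 0) (nat_lit 0x2491cd653607),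
    .c (nat_lit 0) (nat_lit 0x1430c7347307),.c (nat_lit 0) (nat_lit 0xc30c31c5183),
    .c (nat_lit 0) (nat_lit 0x24724d653607),.c (nat_lit 0) (nat_lit 0x140147347307),
    .r (nat_lit 0xdb7) (nat_lit 6) [nat_lit 0x2002000000003,nat_lit 129],
    .r (nat_lit 0xdbe) (nat_lit 11) [nat_lit 0x2002000000003,nat_lit 0x30030000061c3],
    .c (nat_lit 0) (nat_lit 0x14500734730d),.r (nat_lit 0xdbe) (nat_lit 11) [nat_lit 0x2002000000003,
    nat_lit 0x30c00000061c3],.c (nat_lit 0) (nat_lit 0x14510734330d),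
    .r (nat_lit 0xdb2) (nat_lit 5) [nat_lit 0xc5006000183,nat_lit 0x2080186187183],
    .c (nat_lit 6) (nat_lit 0x820061861c6),.c (nat_lit 0) (nat_lit 0x14000734330d),
    .r (nat_lit 0xdb2) (nat_lit 5) [nat_lit 0x143006000183,nat_lit 0x2002186187183],
    .c (nat_lit 0) (nat_lit 0x2491cd659607),.c (nat_lit 0) (nat_lit 0x1430c734d307),
    .r (nat_lit 0xdbe) (nat_lit 11) [nat_lit 0x2002000000003,nat_lit 0x30c00001c61c3],
    .c (nat_lit 0) (nat_lit 0x145007347307),.c (nat_lit 0) (nat_lit 0x14500734d307),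
    .c (nat_lit 1) (nat_lit 0x830c01c7187),.c (nat_lit 6) (nat_lit 0x800861861c6),
    .c (nat_lit 0) (nat_lit 0xc30c31c7183),.c (nat_lit 0) (nat_lit 0x14014734730d),
    .c (nat_lit 0) (nat_lit 0x14414734330d),.r (nat_lit 0xdb2) (nat_lit 5) [nat_lit 0xc0002000081,
    nat_lit 0x20c4186187183],.c (nat_lit 0) (nat_lit 0x24724d659607),.c (nat_lit 0) (nat_lit 0x14514734d303),
    .r (nat_lit 0xdb7) (nat_lit 6) [nat_lit 0x2002000000003,nat_lit 0x80081],
    .r (nat_lit 0xdb8) (nat_lit 8) [nat_lit 0x30030001c61c3,nat_lit 0x4082006187183],.c (nat_lit 4) (nat_lit 2),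
    .r (nat_lit 0xdbe) (nat_lit 11) [nat_lit 0x2002000000003,nat_lit 0x841800c2],
    .r (nat_lit 0xdb7) (nat_lit 11) [nat_lit 0x2002000000003,nat_lit 0x830001c0183],
    .r (nat_lit 0xdbe) (nat_lit 11) [nat_lit 0x2002000000003,nat_lit 0x821000c1],
    .r (nat_lit 0xdb7) (nat_lit 11) [nat_lit 0x2002000000003,nat_lit 0xc0081],
    .r (nat_lit 0xdbe) (nat_lit 11) [nat_lit 0x2002000000003,nat_lit 0x841000c2],.c (nat_lit 0) (nat_lit 0x80002007),
    .c (nat_lit 0) (nat_lit 0x100004007),.c (nat_lit 0) (nat_lit 0x10600a00d),.c (nat_lit 0) (nat_lit 0x2080004007),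
    .r (nat_lit 0xdb7) (nat_lit 11) [nat_lit 0x2002000000003,nat_lit 0x83000000183],
    .c (nat_lit 0) (nat_lit 0x2002005),.c (nat_lit 0) (nat_lit 0x400600a00d),
    .r (nat_lit 0xdbe) (nat_lit 11) [nat_lit 0x2002000000003,nat_lit 0x820800c1],
    .c (nat_lit 0) (nat_lit 0x2000002007),.r (nat_lit 0xdb8) (nat_lit 8) [nat_lit 0x1020061801c3,
    nat_lit 0x20c30001c0183],.c (nat_lit 0) (nat_lit 0x4000004007),
    .r (nat_lit 0xdb7) (nat_lit 11) [nat_lit 0x2002000000003,nat_lit 129],.c (nat_lit 2) (nat_lit 0x102003),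
    .r (nat_lit 0xdbe) (nat_lit 11) [nat_lit 0x2002000000003,nat_lit 0x840800c2],.c (nat_lit 5) (nat_lit 2),
    .c (nat_lit 6) (nat_lit 0xc2000002),.r (nat_lit 0xdb2) (nat_lit 5) [nat_lit 0x30c71c01c6183,
    nat_lit 0x83000000183],.c (nat_lit 6) (nat_lit 0x3146000006),.r (nat_lit 0xdb8) (nat_lit 8) [nat_lit 0x3002000081,
    nat_lit 0x20860000001c3],.r (nat_lit 0xdb8) (nat_lit 8) [nat_lit 0xc5006000183,nat_lit 0x21040000001c3],
    .c (nat_lit 0) (nat_lit 0x80000003),.c (nat_lit 0) (nat_lit 0x10600a00d),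
    .r (nat_lit 0xdb2) (nat_lit 5) [nat_lit 0x31451c01c6183,nat_lit 129],.c (nat_lit 0) (nat_lit 0x82000005),
    .c (nat_lit 1) (nat_lit 0x102080000007),.c (nat_lit 6) (nat_lit 0x50c6000006),
    .r (nat_lit 0xdb8) (nat_lit 8) [nat_lit 0x143006000183,nat_lit 0x21820000001c3],
    .c (nat_lit 0) (nat_lit 0x2100000007),.c (nat_lit 0) (nat_lit 0x80000003),
    .r (nat_lit 0xdb7) (nat_lit 11) [nat_lit 0x2002000000003,nat_lit 0x83000180183],.c (nat_lit 6) (nat_lit 2),
    .c (nat_lit 0) (nat_lit 0x400600a00d),.r (nat_lit 0xdb2) (nat_lit 5) [nat_lit 0x31c31c01c6183,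
    nat_lit 0xc2000000183],.c (nat_lit 0) (nat_lit 0x2004000007),.c (nat_lit 0) (nat_lit 0x2000003),
    .r (nat_lit 0xdbe) (nat_lit 11) [nat_lit 0x2002000000003,nat_lit 0x820000c1],
    .r (nat_lit 0x6c1) (nat_lit 14) [nat_lit 0x8a000141,nat_lit 0xa00a000000003,nat_lit 0xc0000101,
    nat_lit 0x28b000000003,nat_lit 0x1800000c1,nat_lit 0xc0280101],.c (nat_lit 7) (nat_lit 2),
    .c (nat_lit 6) (nat_lit 0x3002000002),.r (nat_lit 0xdb8) (nat_lit 8) [nat_lit 0xc0002000081,
    nat_lit 0x22000000001c3],.c (nat_lit 0) (nat_lit 0x2000000003),.c (nat_lit 0) (nat_lit 0x2000000003),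
    .c (nat_lit 8) (nat_lit 2),.r (nat_lit 0xdbe) (nat_lit 11) [nat_lit 0x2002000000003,nat_lit 0x840000c2],
    .r (nat_lit 0xdb8) (nat_lit 8) [nat_lit 0x800060000c3,nat_lit 0x2000000000083]]]

/-- nodes -/
noncomputable def rD8k_4_4 : List RJ :=
  [.s (nat_lit 17) (nat_lit 0x41a0) (nat_lit 4) (nat_lit 0x1f4100001f4100001dfd00001a8100001d5300001d53000026ad000026ad00001dc900001dc900001bd100001bd1000022e9000022e9000020b5000020b5) (nat_lit 0x76c0000076c00000c2c000008b00000095a0000095a0000000000000000000008e4000008e400000adc00000adc000003c4000003c4000005f8000005f8)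
    (nat_lit 0xbea85f5422120af10c098626c3e821dbd0b2e85974194a146512f688e4432921cb90bea85f541e6a1691091d8543c2caa1f410b2e82bc428ca14650eec86df449d228590b4882bc42552154d0a518620c52d221a90a8c87814264213210594868e4300a15a9079a84424169a12a908938449c3f82180108ce86a2422b211590baa85af423aa14890a878626c224e18830b3c85c0428ce1d53095d83cbc24ee12770cc785f6c32ce16c3091d8604c224e14a309fc859e43aa61d5308b5851bc24ee12770cc784aac31be11c30fa0876f4300221a90ea98754c4d5a26ad0ee487724456a1ed5144088ba43d1220b50b2a87d043f8229690ea98519c3f9226ad0a0087724452a1eb5117486484416a22e105788597435121e050a3783cbc3b921dc9090086f24396a1cb50bec84d042fa217d10b2e85974233a151908b584aec28021dc90b1a8480425da12ed0e06868142fa219ed0a328519422b21321093b849dc3d6a1ed50976872d421ea0fa50af8860342bb213d10a328329422b21321093b849dc452a22b50976872d421ea10f5066e860341b8a15410dbe88e442d7a1a39095585f6c324222e90d0284d04301a180d0fde87c94496228210eec897b42eaa0b290cc78663c45d228810e0685f6419ba15f10f9287ef433021cf1142c872e4291215a908e185b0c45c220b50cf685f442a8213d10e788a084209a1abd12748652423aa18050c6f8659c416a1e890be885f441b8a15d90cc0892c4357a104d)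
    (nat_lit 0xbea90680834041a020d010680834041a020d010680834041a020d010680834041a00bea85f54834041a020d010680834041a020d010680834041a020d010680834041a0088483cd4255241a020d010680834041a020d010680834041a020d010680834041a0057885a442a9a12a920d010680834041a020d010680834041a020d010680834041a00c09848ec294611270b3c90680834041a020d010680834041a020d010680834041a00c4d8543c310611270b80859e4834041a020d010680834041a020d010680834041a00fa085954428c1fc10a338754c4d5a41a020d010680834041a020d010680834041a00ede87d04435218010ea98754c4d5a26ad20d010680834041a020d010680834041a00b2e859742a32119d095d845ac3b921401090090680834041a020d010680834041a00b2e82bc42bc41a890797851bc3b921dc90de484804834041a020d010680834041a006528519426421159093b849dc456a22950bcb04bb421ea41a020d010680834041a00a328519426421159093b849dc3daa1eb50e5a84bb41f4a10f520d010680834041a00e1906978165216760cc78663c465422e90bec870342be20cdd0fde90680834041a010d706df4347216bd0bed84aac45d2192109a086814301a180d0f9287ef4834041a00ca4888a8300a11d50cb38637c3d1220b50be885f442bb20dc5125886604209a41a00e5c893782b5214890b618470c416a22e10be8867b427a215411410873c4357a104d)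
    (nat_lit 5) (nat_lit 121)
    [[nat_lit 0,nat_lit 0,nat_lit 0,nat_lit 0],[nat_lit 0,nat_lit 0,nat_lit 0,nat_lit 12],[nat_lit 0,nat_lit 0,
    nat_lit 0,nat_lit 13],[nat_lit 0,nat_lit 0,nat_lit 4,nat_lit 12],[nat_lit 0,nat_lit 0,nat_lit 5,nat_lit 4],
    [nat_lit 0,nat_lit 0,nat_lit 5,nat_lit 12],[nat_lit 0,nat_lit 0,nat_lit 10,nat_lit 7],[nat_lit 0,nat_lit 0,
    nat_lit 12,nat_lit 0],[nat_lit 0,nat_lit 0,nat_lit 13,nat_lit 0],[nat_lit 0,nat_lit 0,nat_lit 13,nat_lit 12],
    [nat_lit 0,nat_lit 4,nat_lit 12,nat_lit 0],[nat_lit 0,nat_lit 4,nat_lit 12,nat_lit 13],[nat_lit 0,nat_lit 5,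
    nat_lit 0,nat_lit 5],[nat_lit 0,nat_lit 5,nat_lit 4,nat_lit 0],[nat_lit 0,nat_lit 5,nat_lit 4,nat_lit 1],
    [nat_lit 0,nat_lit 5,nat_lit 4,nat_lit 12],[nat_lit 0,nat_lit 5,nat_lit 12,nat_lit 0],[nat_lit 0,nat_lit 7,
    nat_lit 10,nat_lit 12],[nat_lit 0,nat_lit 8],[nat_lit 0,nat_lit 9],[nat_lit 0,nat_lit 10,nat_lit 7,nat_lit 0],
    [nat_lit 0,nat_lit 11,nat_lit 6,nat_lit 12],[nat_lit 0,nat_lit 12,nat_lit 0,nat_lit 0],[nat_lit 0,nat_lit 13,
    nat_lit 0,nat_lit 0],[nat_lit 0,nat_lit 13,nat_lit 0,nat_lit 13],[nat_lit 0,nat_lit 13,nat_lit 5,nat_lit 4],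
    [nat_lit 0,nat_lit 13,nat_lit 7,nat_lit 10],[nat_lit 0,nat_lit 13,nat_lit 12,nat_lit 0],[nat_lit 0,nat_lit 13,
    nat_lit 12,nat_lit 1],[nat_lit 0,nat_lit 13,nat_lit 12,nat_lit 5],[nat_lit 0,nat_lit 13,nat_lit 12,nat_lit 13],
    [nat_lit 1,nat_lit 1,nat_lit 1,nat_lit 1],[nat_lit 1,nat_lit 1,nat_lit 1,nat_lit 12],[nat_lit 1,nat_lit 1,
    nat_lit 1,nat_lit 13],[nat_lit 1,nat_lit 1,nat_lit 5,nat_lit 4],[nat_lit 1,nat_lit 1,nat_lit 6,nat_lit 11],
    [nat_lit 1,nat_lit 1,nat_lit 12,nat_lit 1],[nat_lit 1,nat_lit 1,nat_lit 13,nat_lit 1],[nat_lit 1,nat_lit 1,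
    nat_lit 13,nat_lit 4],[nat_lit 1,nat_lit 1,nat_lit 13,nat_lit 5],[nat_lit 1,nat_lit 1,nat_lit 13,nat_lit 12],
    [nat_lit 1,nat_lit 4,nat_lit 1,nat_lit 4],[nat_lit 1,nat_lit 4,nat_lit 13,nat_lit 12],[nat_lit 1,nat_lit 5,
    nat_lit 4,nat_lit 1],[nat_lit 1,nat_lit 5,nat_lit 4,nat_lit 12],[nat_lit 1,nat_lit 6,nat_lit 11,nat_lit 1],
    [nat_lit 1,nat_lit 8],[nat_lit 1,nat_lit 9],[nat_lit 1,nat_lit 11,nat_lit 6,nat_lit 12],[nat_lit 1,nat_lit 12,
    nat_lit 1,nat_lit 1],[nat_lit 1,nat_lit 12,nat_lit 1,nat_lit 12],[nat_lit 1,nat_lit 12,nat_lit 13,nat_lit 5],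
    [nat_lit 1,nat_lit 12,nat_lit 13,nat_lit 12],[nat_lit 1,nat_lit 13,nat_lit 1,nat_lit 1],[nat_lit 1,nat_lit 13,
    nat_lit 4,nat_lit 1],[nat_lit 1,nat_lit 13,nat_lit 5,nat_lit 1],[nat_lit 1,nat_lit 13,nat_lit 5,nat_lit 4],
    [nat_lit 1,nat_lit 13,nat_lit 7,nat_lit 10],[nat_lit 1,nat_lit 13,nat_lit 11,nat_lit 6],[nat_lit 1,nat_lit 13,
    nat_lit 12,nat_lit 1],[nat_lit 2,nat_lit 6,nat_lit 6],[nat_lit 2,nat_lit 6,nat_lit 7],[nat_lit 2,nat_lit 7,
    nat_lit 7],[nat_lit 2,nat_lit 14],[nat_lit 2,nat_lit 15],[nat_lit 3,nat_lit 6,nat_lit 6],[nat_lit 3,nat_lit 6,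
    nat_lit 7],[nat_lit 3,nat_lit 7,nat_lit 7],[nat_lit 3,nat_lit 14],[nat_lit 3,nat_lit 15],[nat_lit 4,nat_lit 5,
    nat_lit 4,nat_lit 5],[nat_lit 4,nat_lit 8],[nat_lit 4,nat_lit 9],[nat_lit 4,nat_lit 12,nat_lit 13,nat_lit 5],
    [nat_lit 4,nat_lit 13,nat_lit 12,nat_lit 5],[nat_lit 5,nat_lit 8],[nat_lit 5,nat_lit 9],[nat_lit 6,nat_lit 7,
    nat_lit 10,nat_lit 10],[nat_lit 6,nat_lit 7,nat_lit 10,nat_lit 11],[nat_lit 6,nat_lit 7,nat_lit 11,nat_lit 11],
    [nat_lit 6,nat_lit 11,nat_lit 6,nat_lit 11],[nat_lit 7,nat_lit 10,nat_lit 7,nat_lit 10],[nat_lit 8,nat_lit 12],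
    [nat_lit 8,nat_lit 13],[nat_lit 9,nat_lit 12],[nat_lit 9,nat_lit 13],[nat_lit 10,nat_lit 10,nat_lit 14],
    [nat_lit 10,nat_lit 10,nat_lit 15],[nat_lit 10,nat_lit 14,nat_lit 10],[nat_lit 10,nat_lit 14,nat_lit 11],
    [nat_lit 10,nat_lit 15,nat_lit 10],[nat_lit 10,nat_lit 15,nat_lit 11],[nat_lit 11,nat_lit 11,nat_lit 14],
    [nat_lit 11,nat_lit 11,nat_lit 15],[nat_lit 11,nat_lit 14,nat_lit 11],[nat_lit 11,nat_lit 15,nat_lit 11],
    [nat_lit 12,nat_lit 12,nat_lit 12,nat_lit 12],[nat_lit 12,nat_lit 13,nat_lit 12,nat_lit 13],[nat_lit 13,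
    nat_lit 13,nat_lit 13,nat_lit 13]]
    [nat_lit 0x10000,nat_lit 0x1000c,nat_lit 0x1000d,nat_lit 0x1004c,nat_lit 0x10054,nat_lit 0x1005c,nat_lit 0x100a7,
    nat_lit 0x100c0,nat_lit 0x100d0,nat_lit 0x100dc,nat_lit 0x104c0,nat_lit 0x104cd,nat_lit 0x10505,nat_lit 0x10540,
    nat_lit 0x10541,nat_lit 0x1054c,nat_lit 0x105c0,nat_lit 0x107ac,nat_lit 264,nat_lit 265,nat_lit 0x10a70,
    nat_lit 0x10b6c,nat_lit 0x10c00,nat_lit 0x10d00,nat_lit 0x10d0d,nat_lit 0x10d54,nat_lit 0x10d7a,nat_lit 0x10dc0,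
    nat_lit 0x10dc1,nat_lit 0x10dc5,nat_lit 0x10dcd,nat_lit 0x11111,nat_lit 0x1111c,nat_lit 0x1111d,nat_lit 0x11154,
    nat_lit 0x1116b,nat_lit 0x111c1,nat_lit 0x111d1,nat_lit 0x111d4,nat_lit 0x111d5,nat_lit 0x111dc,nat_lit 0x11414,
    nat_lit 0x114dc,nat_lit 0x11541,nat_lit 0x1154c,nat_lit 0x116b1,nat_lit 280,nat_lit 281,nat_lit 0x11b6c,
    nat_lit 0x11c11,nat_lit 0x11c1c,nat_lit 0x11cd5,nat_lit 0x11cdc,nat_lit 0x11d11,nat_lit 0x11d41,nat_lit 0x11d51,
    nat_lit 0x11d54,nat_lit 0x11d7a,nat_lit 0x11db6,nat_lit 0x11dc1,nat_lit 0x1266,nat_lit 0x1267,nat_lit 0x1277,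
    nat_lit 302,nat_lit 303,nat_lit 0x1366,nat_lit 0x1367,nat_lit 0x1377,nat_lit 318,nat_lit 319,nat_lit 0x14545,
    nat_lit 328,nat_lit 329,nat_lit 0x14cd5,nat_lit 0x14dc5,nat_lit 344,nat_lit 345,nat_lit 0x167aa,nat_lit 0x167ab,
    nat_lit 0x167bb,nat_lit 0x16b6b,nat_lit 0x17a7a,nat_lit 396,nat_lit 397,nat_lit 412,nat_lit 413,nat_lit 0x1aae,
    nat_lit 0x1aaf,nat_lit 0x1aea,nat_lit 0x1aeb,nat_lit 0x1afa,nat_lit 0x1afb,nat_lit 0x1bbe,nat_lit 0x1bbf,
    nat_lit 0x1beb,nat_lit 0x1bfb,nat_lit 0x1cccc,nat_lit 0x1cdcd,nat_lit 0x1dddd]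
    [[[nat_lit 0,nat_lit 0,nat_lit 0,nat_lit 0],[nat_lit 0,nat_lit 0,nat_lit 0,nat_lit 12],[nat_lit 0,nat_lit 0,
    nat_lit 0,nat_lit 13],[nat_lit 0,nat_lit 0,nat_lit 4,nat_lit 12],[nat_lit 0,nat_lit 0,nat_lit 5,nat_lit 4],
    [nat_lit 0,nat_lit 0,nat_lit 5,nat_lit 12],[nat_lit 0,nat_lit 0,nat_lit 10,nat_lit 7],[nat_lit 0,nat_lit 0,
    nat_lit 12,nat_lit 0],[nat_lit 0,nat_lit 0,nat_lit 13,nat_lit 0],[nat_lit 0,nat_lit 0,nat_lit 13,nat_lit 12],
    [nat_lit 0,nat_lit 4,nat_lit 12,nat_lit 0],[nat_lit 0,nat_lit 4,nat_lit 12,nat_lit 13]],[[nat_lit 0,nat_lit 5,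
    nat_lit 0,nat_lit 5],[nat_lit 0,nat_lit 5,nat_lit 4,nat_lit 0],[nat_lit 0,nat_lit 5,nat_lit 4,nat_lit 1],
    [nat_lit 0,nat_lit 5,nat_lit 4,nat_lit 12],[nat_lit 0,nat_lit 5,nat_lit 12,nat_lit 0],[nat_lit 0,nat_lit 7,
    nat_lit 10,nat_lit 12],[nat_lit 0,nat_lit 8],[nat_lit 0,nat_lit 9],[nat_lit 0,nat_lit 10,nat_lit 7,nat_lit 0],
    [nat_lit 0,nat_lit 11,nat_lit 6,nat_lit 12],[nat_lit 0,nat_lit 12,nat_lit 0,nat_lit 0],[nat_lit 0,nat_lit 13,
    nat_lit 0,nat_lit 0]],[[nat_lit 0,nat_lit 13,nat_lit 0,nat_lit 13],[nat_lit 0,nat_lit 13,nat_lit 5,nat_lit 4],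
    [nat_lit 0,nat_lit 13,nat_lit 7,nat_lit 10],[nat_lit 0,nat_lit 13,nat_lit 12,nat_lit 0],[nat_lit 0,nat_lit 13,
    nat_lit 12,nat_lit 1],[nat_lit 0,nat_lit 13,nat_lit 12,nat_lit 5],[nat_lit 0,nat_lit 13,nat_lit 12,nat_lit 13],
    [nat_lit 1,nat_lit 0,nat_lit 5,nat_lit 4],[nat_lit 1,nat_lit 0,nat_lit 13,nat_lit 12],[nat_lit 1,nat_lit 1,
    nat_lit 1,nat_lit 1],[nat_lit 1,nat_lit 1,nat_lit 1,nat_lit 12],[nat_lit 1,nat_lit 1,nat_lit 1,nat_lit 13]],
    [[nat_lit 1,nat_lit 1,nat_lit 5,nat_lit 4],[nat_lit 1,nat_lit 1,nat_lit 6,nat_lit 11],[nat_lit 1,nat_lit 1,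
    nat_lit 12,nat_lit 1],[nat_lit 1,nat_lit 1,nat_lit 13,nat_lit 1],[nat_lit 1,nat_lit 1,nat_lit 13,nat_lit 4],
    [nat_lit 1,nat_lit 1,nat_lit 13,nat_lit 5],[nat_lit 1,nat_lit 1,nat_lit 13,nat_lit 12],[nat_lit 1,nat_lit 4,
    nat_lit 1,nat_lit 4],[nat_lit 1,nat_lit 4,nat_lit 13,nat_lit 12],[nat_lit 1,nat_lit 5,nat_lit 4,nat_lit 1],
    [nat_lit 1,nat_lit 5,nat_lit 4,nat_lit 12],[nat_lit 1,nat_lit 6,nat_lit 11,nat_lit 1]],[[nat_lit 1,nat_lit 8],
    [nat_lit 1,nat_lit 9],[nat_lit 1,nat_lit 11,nat_lit 6,nat_lit 12],[nat_lit 1,nat_lit 12,nat_lit 1,nat_lit 1],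
    [nat_lit 1,nat_lit 12,nat_lit 1,nat_lit 12],[nat_lit 1,nat_lit 12,nat_lit 13,nat_lit 5],[nat_lit 1,nat_lit 12,
    nat_lit 13,nat_lit 12],[nat_lit 1,nat_lit 13,nat_lit 1,nat_lit 1],[nat_lit 1,nat_lit 13,nat_lit 4,nat_lit 1],
    [nat_lit 1,nat_lit 13,nat_lit 5,nat_lit 1],[nat_lit 1,nat_lit 13,nat_lit 5,nat_lit 4],[nat_lit 1,nat_lit 13,
    nat_lit 7,nat_lit 10]],[[nat_lit 1,nat_lit 13,nat_lit 11,nat_lit 6],[nat_lit 1,nat_lit 13,nat_lit 12,nat_lit 1],
    [nat_lit 2,nat_lit 6,nat_lit 6],[nat_lit 2,nat_lit 6,nat_lit 7],[nat_lit 2,nat_lit 7,nat_lit 7],[nat_lit 2,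
    nat_lit 14],[nat_lit 2,nat_lit 15],[nat_lit 3,nat_lit 6,nat_lit 6],[nat_lit 3,nat_lit 6,nat_lit 7],[nat_lit 3,
    nat_lit 7,nat_lit 7],[nat_lit 3,nat_lit 14],[nat_lit 3,nat_lit 15]],[[nat_lit 4,nat_lit 0,nat_lit 0,nat_lit 5],
    [nat_lit 4,nat_lit 0,nat_lit 13,nat_lit 5],[nat_lit 4,nat_lit 1,nat_lit 0,nat_lit 5],[nat_lit 4,nat_lit 1,
    nat_lit 1,nat_lit 5],[nat_lit 4,nat_lit 1,nat_lit 1,nat_lit 13],[nat_lit 4,nat_lit 1,nat_lit 4,nat_lit 1],
    [nat_lit 4,nat_lit 1,nat_lit 13,nat_lit 5],[nat_lit 4,nat_lit 5,nat_lit 4,nat_lit 5],[nat_lit 4,nat_lit 8],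
    [nat_lit 4,nat_lit 9],[nat_lit 4,nat_lit 12,nat_lit 0,nat_lit 0],[nat_lit 4,nat_lit 12,nat_lit 0,nat_lit 5]],
    [[nat_lit 4,nat_lit 12,nat_lit 1,nat_lit 5],[nat_lit 4,nat_lit 12,nat_lit 13,nat_lit 0],[nat_lit 4,nat_lit 12,
    nat_lit 13,nat_lit 5],[nat_lit 4,nat_lit 13,nat_lit 12,nat_lit 1],[nat_lit 4,nat_lit 13,nat_lit 12,nat_lit 5],
    [nat_lit 5,nat_lit 0,nat_lit 5,nat_lit 0],[nat_lit 5,nat_lit 0,nat_lit 13,nat_lit 12],[nat_lit 5,nat_lit 1,
    nat_lit 1,nat_lit 13],[nat_lit 5,nat_lit 1,nat_lit 12,nat_lit 13],[nat_lit 5,nat_lit 4,nat_lit 0,nat_lit 0],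
    [nat_lit 5,nat_lit 4,nat_lit 0,nat_lit 13],[nat_lit 5,nat_lit 4,nat_lit 1,nat_lit 0]],[[nat_lit 5,nat_lit 4,
    nat_lit 1,nat_lit 1],[nat_lit 5,nat_lit 4,nat_lit 1,nat_lit 13],[nat_lit 5,nat_lit 4,nat_lit 5,nat_lit 4],
    [nat_lit 5,nat_lit 4,nat_lit 12,nat_lit 0],[nat_lit 5,nat_lit 4,nat_lit 12,nat_lit 1],[nat_lit 5,nat_lit 4,
    nat_lit 12,nat_lit 13],[nat_lit 5,nat_lit 4,nat_lit 13,nat_lit 12],[nat_lit 5,nat_lit 8],[nat_lit 5,nat_lit 9],
    [nat_lit 5,nat_lit 12,nat_lit 0,nat_lit 0],[nat_lit 6,nat_lit 1,nat_lit 13,nat_lit 11],[nat_lit 6,nat_lit 2,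
    nat_lit 6]],[[nat_lit 6,nat_lit 3,nat_lit 6],[nat_lit 6,nat_lit 6,nat_lit 2],[nat_lit 6,nat_lit 6,nat_lit 3],
    [nat_lit 6,nat_lit 7,nat_lit 2],[nat_lit 6,nat_lit 7,nat_lit 3],[nat_lit 6,nat_lit 7,nat_lit 10,nat_lit 10],
    [nat_lit 6,nat_lit 7,nat_lit 10,nat_lit 11],[nat_lit 6,nat_lit 7,nat_lit 11,nat_lit 11],[nat_lit 6,nat_lit 11,
    nat_lit 1,nat_lit 1],[nat_lit 6,nat_lit 11,nat_lit 6,nat_lit 11],[nat_lit 6,nat_lit 12,nat_lit 0,nat_lit 11],
    [nat_lit 6,nat_lit 12,nat_lit 1,nat_lit 11]],[[nat_lit 7,nat_lit 0,nat_lit 0,nat_lit 10],[nat_lit 7,nat_lit 2,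
    nat_lit 6],[nat_lit 7,nat_lit 2,nat_lit 7],[nat_lit 7,nat_lit 3,nat_lit 6],[nat_lit 7,nat_lit 3,nat_lit 7],
    [nat_lit 7,nat_lit 7,nat_lit 2],[nat_lit 7,nat_lit 7,nat_lit 3],[nat_lit 7,nat_lit 10,nat_lit 0,nat_lit 13],
    [nat_lit 7,nat_lit 10,nat_lit 1,nat_lit 13],[nat_lit 7,nat_lit 10,nat_lit 7,nat_lit 10],[nat_lit 7,nat_lit 10,
    nat_lit 10,nat_lit 6],[nat_lit 7,nat_lit 10,nat_lit 11,nat_lit 6]],[[nat_lit 7,nat_lit 10,nat_lit 12,nat_lit 0],
    [nat_lit 7,nat_lit 11,nat_lit 11,nat_lit 6],[nat_lit 8,nat_lit 0],[nat_lit 8,nat_lit 1],[nat_lit 8,nat_lit 4],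
    [nat_lit 8,nat_lit 5],[nat_lit 8,nat_lit 12],[nat_lit 8,nat_lit 13],[nat_lit 9,nat_lit 0],[nat_lit 9,nat_lit 1],
    [nat_lit 9,nat_lit 4],[nat_lit 9,nat_lit 5]],[[nat_lit 9,nat_lit 12],[nat_lit 9,nat_lit 13],[nat_lit 10,nat_lit 0,
    nat_lit 13,nat_lit 7],[nat_lit 10,nat_lit 1,nat_lit 13,nat_lit 7],[nat_lit 10,nat_lit 6,nat_lit 7,nat_lit 10],
    [nat_lit 10,nat_lit 7,nat_lit 0,nat_lit 0],[nat_lit 10,nat_lit 7,nat_lit 10,nat_lit 7],[nat_lit 10,nat_lit 10,
    nat_lit 6,nat_lit 7],[nat_lit 10,nat_lit 10,nat_lit 14],[nat_lit 10,nat_lit 10,nat_lit 15],[nat_lit 10,nat_lit 11,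
    nat_lit 6,nat_lit 7],[nat_lit 10,nat_lit 12,nat_lit 0,nat_lit 7]],[[nat_lit 10,nat_lit 14,nat_lit 10],[nat_lit 10,
    nat_lit 14,nat_lit 11],[nat_lit 10,nat_lit 15,nat_lit 10],[nat_lit 10,nat_lit 15,nat_lit 11],[nat_lit 11,
    nat_lit 1,nat_lit 1,nat_lit 6],[nat_lit 11,nat_lit 6,nat_lit 1,nat_lit 13],[nat_lit 11,nat_lit 6,nat_lit 7,
    nat_lit 10],[nat_lit 11,nat_lit 6,nat_lit 7,nat_lit 11],[nat_lit 11,nat_lit 6,nat_lit 11,nat_lit 6],[nat_lit 11,
    nat_lit 6,nat_lit 12,nat_lit 0],[nat_lit 11,nat_lit 6,nat_lit 12,nat_lit 1],[nat_lit 11,nat_lit 10,nat_lit 14]],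
    [[nat_lit 11,nat_lit 10,nat_lit 15],[nat_lit 11,nat_lit 11,nat_lit 6,nat_lit 7],[nat_lit 11,nat_lit 11,
    nat_lit 14],[nat_lit 11,nat_lit 11,nat_lit 15],[nat_lit 11,nat_lit 14,nat_lit 11],[nat_lit 11,nat_lit 15,
    nat_lit 11],[nat_lit 12,nat_lit 0,nat_lit 0,nat_lit 0],[nat_lit 12,nat_lit 0,nat_lit 0,nat_lit 4],[nat_lit 12,
    nat_lit 0,nat_lit 0,nat_lit 5],[nat_lit 12,nat_lit 0,nat_lit 0,nat_lit 13],[nat_lit 12,nat_lit 0,nat_lit 5,
    nat_lit 4],[nat_lit 12,nat_lit 0,nat_lit 7,nat_lit 10]],[[nat_lit 12,nat_lit 0,nat_lit 11,nat_lit 6],[nat_lit 12,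
    nat_lit 1,nat_lit 0,nat_lit 13],[nat_lit 12,nat_lit 1,nat_lit 1,nat_lit 1],[nat_lit 12,nat_lit 1,nat_lit 1,
    nat_lit 13],[nat_lit 12,nat_lit 1,nat_lit 4,nat_lit 13],[nat_lit 12,nat_lit 1,nat_lit 5,nat_lit 4],[nat_lit 12,
    nat_lit 1,nat_lit 11,nat_lit 6],[nat_lit 12,nat_lit 1,nat_lit 12,nat_lit 1],[nat_lit 12,nat_lit 1,nat_lit 12,
    nat_lit 13],[nat_lit 12,nat_lit 5,nat_lit 0,nat_lit 13],[nat_lit 12,nat_lit 5,nat_lit 4,nat_lit 13],[nat_lit 12,
    nat_lit 8]],[[nat_lit 12,nat_lit 9],[nat_lit 12,nat_lit 12,nat_lit 12,nat_lit 12],[nat_lit 12,nat_lit 13,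
    nat_lit 0,nat_lit 4],[nat_lit 12,nat_lit 13,nat_lit 0,nat_lit 13],[nat_lit 12,nat_lit 13,nat_lit 5,nat_lit 1],
    [nat_lit 12,nat_lit 13,nat_lit 5,nat_lit 4],[nat_lit 12,nat_lit 13,nat_lit 12,nat_lit 1],[nat_lit 12,nat_lit 13,
    nat_lit 12,nat_lit 13],[nat_lit 13,nat_lit 0,nat_lit 0,nat_lit 0],[nat_lit 13,nat_lit 0,nat_lit 4,nat_lit 12],
    [nat_lit 13,nat_lit 0,nat_lit 13,nat_lit 0],[nat_lit 13,nat_lit 0,nat_lit 13,nat_lit 12]],[[nat_lit 13,nat_lit 1,
    nat_lit 1,nat_lit 1],[nat_lit 13,nat_lit 4,nat_lit 1,nat_lit 1],[nat_lit 13,nat_lit 5,nat_lit 1,nat_lit 1],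
    [nat_lit 13,nat_lit 5,nat_lit 1,nat_lit 12],[nat_lit 13,nat_lit 5,nat_lit 4,nat_lit 0],[nat_lit 13,nat_lit 5,
    nat_lit 4,nat_lit 1],[nat_lit 13,nat_lit 5,nat_lit 4,nat_lit 12],[nat_lit 13,nat_lit 7,nat_lit 10,nat_lit 0],
    [nat_lit 13,nat_lit 7,nat_lit 10,nat_lit 1],[nat_lit 13,nat_lit 8],[nat_lit 13,nat_lit 9],[nat_lit 13,nat_lit 11,
    nat_lit 6,nat_lit 1]],[[nat_lit 13,nat_lit 12,nat_lit 0,nat_lit 0],[nat_lit 13,nat_lit 12,nat_lit 1,nat_lit 0],
    [nat_lit 13,nat_lit 12,nat_lit 1,nat_lit 1],[nat_lit 13,nat_lit 12,nat_lit 1,nat_lit 4],[nat_lit 13,nat_lit 12,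
    nat_lit 1,nat_lit 12],[nat_lit 13,nat_lit 12,nat_lit 5,nat_lit 0],[nat_lit 13,nat_lit 12,nat_lit 5,nat_lit 4],
    [nat_lit 13,nat_lit 12,nat_lit 13,nat_lit 0],[nat_lit 13,nat_lit 12,nat_lit 13,nat_lit 12],[nat_lit 13,nat_lit 13,
    nat_lit 13,nat_lit 13],[nat_lit 14,nat_lit 2],[nat_lit 14,nat_lit 3]],[[nat_lit 14,nat_lit 10,nat_lit 10],
    [nat_lit 14,nat_lit 11,nat_lit 10],[nat_lit 14,nat_lit 11,nat_lit 11],[nat_lit 15,nat_lit 2],[nat_lit 15,
    nat_lit 3],[nat_lit 15,nat_lit 10,nat_lit 10],[nat_lit 15,nat_lit 11,nat_lit 10],[nat_lit 15,nat_lit 11,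
    nat_lit 11]]]
    [[nat_lit 0,nat_lit 7,nat_lit 8,nat_lit 10,nat_lit 13,nat_lit 16,nat_lit 20,nat_lit 22,nat_lit 23,nat_lit 27,
    nat_lit 82,nat_lit 85],[nat_lit 89,nat_lit 93,nat_lit 95,nat_lit 99,nat_lit 105,nat_lit 132,nat_lit 134,
    nat_lit 140,nat_lit 149,nat_lit 165,nat_lit 174,nat_lit 200],[nat_lit 202,nat_lit 208,nat_lit 211,nat_lit 216,
    nat_lit 217,nat_lit 221,nat_lit 223,nat_lit 14,nat_lit 28,nat_lit 33,nat_lit 38,nat_lit 39],[nat_lit 45,
    nat_lit 47,nat_lit 51,nat_lit 55,nat_lit 56,nat_lit 57,nat_lit 61,nat_lit 77,nat_lit 87,nat_lit 96,nat_lit 100,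
    nat_lit 116],[nat_lit 135,nat_lit 141,nat_lit 166,nat_lit 182,nat_lit 187,nat_lit 196,nat_lit 198,nat_lit 204,
    nat_lit 205,nat_lit 206,nat_lit 209,nat_lit 212],[nat_lit 215,nat_lit 218,nat_lit 109,nat_lit 111,nat_lit 125,
    nat_lit 226,nat_lit 231,nat_lit 110,nat_lit 112,nat_lit 126,nat_lit 227,nat_lit 232],[nat_lit 4,nat_lit 25,
    nat_lit 31,nat_lit 36,nat_lit 40,nat_lit 43,nat_lit 58,nat_lit 98,nat_lit 136,nat_lit 142,nat_lit 175,
    nat_lit 178],[nat_lit 185,nat_lit 194,nat_lit 197,nat_lit 219,nat_lit 222,nat_lit 12,nat_lit 29,nat_lit 41,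
    nat_lit 53,nat_lit 72,nat_lit 73,nat_lit 74],[nat_lit 75,nat_lit 78,nat_lit 79,nat_lit 83,nat_lit 84,nat_lit 86,
    nat_lit 88,nat_lit 137,nat_lit 143,nat_lit 176,nat_lit 60,nat_lit 62],[nat_lit 67,nat_lit 107,nat_lit 108,
    nat_lit 121,nat_lit 123,nat_lit 130,nat_lit 131,nat_lit 133,nat_lit 160,nat_lit 164,nat_lit 180,nat_lit 186],
    [nat_lit 6,nat_lit 63,nat_lit 64,nat_lit 68,nat_lit 69,nat_lit 122,nat_lit 124,nat_lit 146,nat_lit 147,
    nat_lit 150,nat_lit 151,nat_lit 154],[nat_lit 155,nat_lit 169,nat_lit 18,nat_lit 48,nat_lit 80,nat_lit 103,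
    nat_lit 191,nat_lit 213,nat_lit 19,nat_lit 49,nat_lit 81,nat_lit 104],[nat_lit 192,nat_lit 214,nat_lit 26,
    nat_lit 59,nat_lit 113,nat_lit 120,nat_lit 129,nat_lit 148,nat_lit 156,nat_lit 158,nat_lit 162,nat_lit 179],
    [nat_lit 228,nat_lit 229,nat_lit 233,nat_lit 234,nat_lit 37,nat_lit 106,nat_lit 114,nat_lit 115,nat_lit 117,
    nat_lit 118,nat_lit 119,nat_lit 157],[nat_lit 159,nat_lit 163,nat_lit 172,nat_lit 173,nat_lit 230,nat_lit 235,
    nat_lit 1,nat_lit 3,nat_lit 5,nat_lit 9,nat_lit 15,nat_lit 17],[nat_lit 21,nat_lit 32,nat_lit 34,nat_lit 42,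
    nat_lit 44,nat_lit 46,nat_lit 50,nat_lit 52,nat_lit 54,nat_lit 90,nat_lit 102,nat_lit 138],[nat_lit 144,
    nat_lit 193,nat_lit 201,nat_lit 203,nat_lit 207,nat_lit 210,nat_lit 220,nat_lit 224,nat_lit 2,nat_lit 11,
    nat_lit 24,nat_lit 30],[nat_lit 35,nat_lit 76,nat_lit 91,nat_lit 92,nat_lit 94,nat_lit 97,nat_lit 101,nat_lit 127,
    nat_lit 128,nat_lit 139,nat_lit 145,nat_lit 161],[nat_lit 177,nat_lit 181,nat_lit 183,nat_lit 184,nat_lit 188,
    nat_lit 189,nat_lit 190,nat_lit 195,nat_lit 199,nat_lit 225,nat_lit 65,nat_lit 70],[nat_lit 152,nat_lit 167,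
    nat_lit 170,nat_lit 66,nat_lit 71,nat_lit 153,nat_lit 168,nat_lit 171]]
    [[nat_lit 0,nat_lit 174,nat_lit 200,nat_lit 175,nat_lit 72,nat_lit 176,nat_lit 120,nat_lit 1,nat_lit 2,
    nat_lit 177,nat_lit 3,nat_lit 201],[nat_lit 89,nat_lit 4,nat_lit 31,nat_lit 178,nat_lit 5,nat_lit 179,nat_lit 134,
    nat_lit 140,nat_lit 6,nat_lit 180,nat_lit 7,nat_lit 8],[nat_lit 202,nat_lit 73,nat_lit 146,nat_lit 9,nat_lit 32,
    nat_lit 90,nat_lit 203,nat_lit 74,nat_lit 181,nat_lit 33,nat_lit 182,nat_lit 204],[nat_lit 75,nat_lit 160,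
    nat_lit 34,nat_lit 35,nat_lit 76,nat_lit 91,nat_lit 183,nat_lit 77,nat_lit 184,nat_lit 36,nat_lit 185,nat_lit 37],
    [nat_lit 135,nat_lit 141,nat_lit 186,nat_lit 38,nat_lit 187,nat_lit 92,nat_lit 188,nat_lit 39,nat_lit 40,
    nat_lit 41,nat_lit 78,nat_lit 147],[nat_lit 106,nat_lit 42,nat_lit 107,nat_lit 121,nat_lit 122,nat_lit 226,
    nat_lit 231,nat_lit 108,nat_lit 123,nat_lit 124,nat_lit 227,nat_lit 232],[nat_lit 93,nat_lit 94,nat_lit 95,
    nat_lit 96,nat_lit 205,nat_lit 43,nat_lit 97,nat_lit 98,nat_lit 136,nat_lit 142,nat_lit 10,nat_lit 99],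
    [nat_lit 100,nat_lit 11,nat_lit 101,nat_lit 44,nat_lit 102,nat_lit 12,nat_lit 189,nat_lit 206,nat_lit 207,
    nat_lit 13,nat_lit 208,nat_lit 14],[nat_lit 45,nat_lit 209,nat_lit 79,nat_lit 15,nat_lit 46,nat_lit 210,
    nat_lit 190,nat_lit 137,nat_lit 143,nat_lit 16,nat_lit 161,nat_lit 109],[nat_lit 110,nat_lit 62,nat_lit 67,
    nat_lit 63,nat_lit 68,nat_lit 148,nat_lit 162,nat_lit 163,nat_lit 47,nat_lit 164,nat_lit 165,nat_lit 166],
    [nat_lit 149,nat_lit 111,nat_lit 125,nat_lit 112,nat_lit 126,nat_lit 64,nat_lit 69,nat_lit 211,nat_lit 212,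
    nat_lit 150,nat_lit 113,nat_lit 114],[nat_lit 17,nat_lit 115,nat_lit 18,nat_lit 48,nat_lit 80,nat_lit 103,
    nat_lit 191,nat_lit 213,nat_lit 19,nat_lit 49,nat_lit 81,nat_lit 104],[nat_lit 192,nat_lit 214,nat_lit 127,
    nat_lit 128,nat_lit 151,nat_lit 20,nat_lit 129,nat_lit 130,nat_lit 228,nat_lit 233,nat_lit 131,nat_lit 132],
    [nat_lit 152,nat_lit 167,nat_lit 153,nat_lit 168,nat_lit 116,nat_lit 215,nat_lit 154,nat_lit 169,nat_lit 117,
    nat_lit 21,nat_lit 50,nat_lit 229],[nat_lit 234,nat_lit 133,nat_lit 230,nat_lit 235,nat_lit 170,nat_lit 171,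
    nat_lit 22,nat_lit 82,nat_lit 105,nat_lit 216,nat_lit 83,nat_lit 155],[nat_lit 118,nat_lit 217,nat_lit 51,
    nat_lit 218,nat_lit 219,nat_lit 84,nat_lit 119,nat_lit 52,nat_lit 220,nat_lit 221,nat_lit 222,nat_lit 138],
    [nat_lit 144,nat_lit 193,nat_lit 85,nat_lit 223,nat_lit 53,nat_lit 86,nat_lit 54,nat_lit 224,nat_lit 23,
    nat_lit 194,nat_lit 24,nat_lit 195],[nat_lit 55,nat_lit 56,nat_lit 57,nat_lit 196,nat_lit 25,nat_lit 58,
    nat_lit 197,nat_lit 26,nat_lit 59,nat_lit 139,nat_lit 145,nat_lit 60],[nat_lit 27,nat_lit 28,nat_lit 61,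
    nat_lit 87,nat_lit 198,nat_lit 29,nat_lit 88,nat_lit 30,nat_lit 199,nat_lit 225,nat_lit 65,nat_lit 70],
    [nat_lit 156,nat_lit 157,nat_lit 172,nat_lit 66,nat_lit 71,nat_lit 158,nat_lit 159,nat_lit 173]]
    [[[nat_lit 226],[nat_lit 226],[nat_lit 226],[nat_lit 226],[nat_lit 226],[nat_lit 226],[nat_lit 226],[nat_lit 226],
    [nat_lit 226],[nat_lit 226],[],[]],[[nat_lit 227],[nat_lit 227],[nat_lit 227],[nat_lit 227],[nat_lit 227],[],
    [nat_lit 228,nat_lit 229],[],[],[],[],[nat_lit 230]],[[nat_lit 230],[nat_lit 230],[nat_lit 230],[nat_lit 230],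
    [nat_lit 230],[nat_lit 230],[nat_lit 230],[],[],[nat_lit 71],[nat_lit 71],[nat_lit 71]],[[nat_lit 71],
    [nat_lit 71],[nat_lit 71],[nat_lit 71],[nat_lit 71],[nat_lit 71],[nat_lit 71],[nat_lit 67],[nat_lit 67],[],[],[]],
    [[],[nat_lit 68,nat_lit 69],[],[nat_lit 70],[nat_lit 70],[nat_lit 70],[nat_lit 70],[],[],[],[],[]],[[],[],
    [nat_lit 18],[nat_lit 18],[nat_lit 12,nat_lit 29],[nat_lit 0,nat_lit 7,nat_lit 8,nat_lit 10,nat_lit 13,nat_lit 16,
    nat_lit 20,nat_lit 22,nat_lit 23,nat_lit 27],[nat_lit 2,nat_lit 11,nat_lit 24,nat_lit 30],[nat_lit 103],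
    [nat_lit 103],[],[nat_lit 89,nat_lit 93,nat_lit 95,nat_lit 99,nat_lit 105],[nat_lit 91,nat_lit 92,nat_lit 94,
    nat_lit 97,nat_lit 101]],[[],[],[nat_lit 66],[nat_lit 66],[nat_lit 66],[nat_lit 66],[nat_lit 66],[],[],
    [nat_lit 63,nat_lit 64],[nat_lit 65],[nat_lit 65]],[[nat_lit 65],[nat_lit 65],[nat_lit 65],[],[],[nat_lit 125],
    [nat_lit 125],[],[],[nat_lit 121,nat_lit 123,nat_lit 130,nat_lit 131,nat_lit 133],[nat_lit 121,nat_lit 123,
    nat_lit 130,nat_lit 131,nat_lit 133],[nat_lit 121,nat_lit 123,nat_lit 130,nat_lit 131,nat_lit 133]],[[nat_lit 121,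
    nat_lit 123,nat_lit 130,nat_lit 131,nat_lit 133],[nat_lit 121,nat_lit 123,nat_lit 130,nat_lit 131,nat_lit 133],
    [nat_lit 121,nat_lit 123,nat_lit 130,nat_lit 131,nat_lit 133],[nat_lit 121,nat_lit 123,nat_lit 130,nat_lit 131,
    nat_lit 133],[nat_lit 121,nat_lit 123,nat_lit 130,nat_lit 131,nat_lit 133],[nat_lit 121,nat_lit 123,nat_lit 130,
    nat_lit 131,nat_lit 133],[nat_lit 121,nat_lit 123,nat_lit 130,nat_lit 131,nat_lit 133],[nat_lit 120,nat_lit 129],
    [nat_lit 122,nat_lit 124],[],[],[]],[[nat_lit 77,nat_lit 87],[nat_lit 80],[nat_lit 80],[nat_lit 72,nat_lit 73,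
    nat_lit 74,nat_lit 75,nat_lit 78,nat_lit 79,nat_lit 83,nat_lit 84,nat_lit 86,nat_lit 88],[nat_lit 72,nat_lit 73,
    nat_lit 74,nat_lit 75,nat_lit 78,nat_lit 79,nat_lit 83,nat_lit 84,nat_lit 86,nat_lit 88],[nat_lit 72,nat_lit 73,
    nat_lit 74,nat_lit 75,nat_lit 78,nat_lit 79,nat_lit 83,nat_lit 84,nat_lit 86,nat_lit 88],[nat_lit 72,nat_lit 73,
    nat_lit 74,nat_lit 75,nat_lit 78,nat_lit 79,nat_lit 83,nat_lit 84,nat_lit 86,nat_lit 88],[nat_lit 72,nat_lit 73,
    nat_lit 74,nat_lit 75,nat_lit 78,nat_lit 79,nat_lit 83,nat_lit 84,nat_lit 86,nat_lit 88],[nat_lit 81],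
    [nat_lit 81],[],[]],[[],[nat_lit 142],[nat_lit 142],[nat_lit 141],[nat_lit 141],[nat_lit 143],[nat_lit 143],
    [nat_lit 144],[nat_lit 144],[nat_lit 144],[nat_lit 144],[nat_lit 144]],[[nat_lit 144],[],[nat_lit 109,
    nat_lit 111],[],[nat_lit 107,nat_lit 108],[nat_lit 110,nat_lit 112],[],[nat_lit 106,nat_lit 114,nat_lit 115,
    nat_lit 117,nat_lit 118,nat_lit 119],[],[nat_lit 168,nat_lit 171],[nat_lit 160,nat_lit 164],[]],[[nat_lit 167,
    nat_lit 170],[nat_lit 163,nat_lit 172,nat_lit 173],[],[],[],[nat_lit 137],[nat_lit 137],[nat_lit 138],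
    [nat_lit 138],[nat_lit 138],[],[]],[[nat_lit 134],[nat_lit 134],[nat_lit 139],[nat_lit 139],[],[nat_lit 213],
    [nat_lit 213],[nat_lit 213],[nat_lit 213],[nat_lit 213],[nat_lit 213],[nat_lit 201,nat_lit 203,nat_lit 207,
    nat_lit 210,nat_lit 220,nat_lit 224]],[[nat_lit 201,nat_lit 203,nat_lit 207,nat_lit 210,nat_lit 220,nat_lit 224],
    [nat_lit 214],[nat_lit 214],[nat_lit 214],[nat_lit 200,nat_lit 202,nat_lit 208,nat_lit 211,nat_lit 216,
    nat_lit 217,nat_lit 221,nat_lit 223],[nat_lit 225],[],[],[],[],[],[]],[[],[nat_lit 153],[nat_lit 153],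
    [nat_lit 153],[nat_lit 153],[nat_lit 153],[nat_lit 153],[nat_lit 153],[nat_lit 153],[],[],[nat_lit 148,
    nat_lit 156,nat_lit 158]],[[nat_lit 146,nat_lit 147,nat_lit 150,nat_lit 151,nat_lit 154,nat_lit 155],
    [nat_lit 152],[nat_lit 157,nat_lit 159],[nat_lit 157,nat_lit 159],[nat_lit 157,nat_lit 159],[nat_lit 157,
    nat_lit 159],[nat_lit 157,nat_lit 159],[nat_lit 157,nat_lit 159],[nat_lit 231],[nat_lit 231],[nat_lit 231],
    [nat_lit 231]],[[],[],[nat_lit 232],[nat_lit 232],[nat_lit 232],[nat_lit 232],[nat_lit 232],[],[],[nat_lit 233,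
    nat_lit 234],[],[]],[[],[],[],[],[],[],[],[],[],[nat_lit 235],[nat_lit 175,nat_lit 178,nat_lit 185,nat_lit 194,
    nat_lit 197],[nat_lit 182,nat_lit 187,nat_lit 196,nat_lit 198]],[[nat_lit 193],[nat_lit 192],[nat_lit 192],
    [nat_lit 31,nat_lit 36,nat_lit 40,nat_lit 43,nat_lit 58],[nat_lit 33,nat_lit 38,nat_lit 39,nat_lit 45,nat_lit 47,
    nat_lit 51,nat_lit 55,nat_lit 56,nat_lit 57,nat_lit 61],[nat_lit 32,nat_lit 34,nat_lit 42,nat_lit 44,nat_lit 46,
    nat_lit 50,nat_lit 52,nat_lit 54],[nat_lit 49],[nat_lit 49]]]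
    (nat_lit 236) [nat_lit 0,nat_lit 1,nat_lit 2,nat_lit 3,nat_lit 4,nat_lit 5,nat_lit 6,nat_lit 7,nat_lit 8,
    nat_lit 9,nat_lit 10,nat_lit 11,nat_lit 12,nat_lit 13,nat_lit 14,nat_lit 15,nat_lit 16,nat_lit 17,nat_lit 18,
    nat_lit 19,nat_lit 20,nat_lit 21,nat_lit 22,nat_lit 23,nat_lit 24,nat_lit 25,nat_lit 26,nat_lit 27,nat_lit 28,
    nat_lit 29,nat_lit 30,nat_lit 33,nat_lit 34,nat_lit 35,nat_lit 36,nat_lit 37,nat_lit 38,nat_lit 39,nat_lit 40,
    nat_lit 41,nat_lit 42,nat_lit 43,nat_lit 44,nat_lit 45,nat_lit 46,nat_lit 47,nat_lit 48,nat_lit 49,nat_lit 50,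
    nat_lit 51,nat_lit 52,nat_lit 53,nat_lit 54,nat_lit 55,nat_lit 56,nat_lit 57,nat_lit 58,nat_lit 59,nat_lit 60,
    nat_lit 61,nat_lit 62,nat_lit 63,nat_lit 64,nat_lit 65,nat_lit 66,nat_lit 67,nat_lit 68,nat_lit 69,nat_lit 70,
    nat_lit 71,nat_lit 79,nat_lit 80,nat_lit 81,nat_lit 86,nat_lit 88,nat_lit 103,nat_lit 104,nat_lit 113,nat_lit 114,
    nat_lit 115,nat_lit 117,nat_lit 129,nat_lit 138,nat_lit 139,nat_lit 144,nat_lit 145,nat_lit 152,nat_lit 153,
    nat_lit 156,nat_lit 157,nat_lit 158,nat_lit 159,nat_lit 170,nat_lit 171,nat_lit 172,nat_lit 173,nat_lit 193,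
    nat_lit 199,nat_lit 225]
    [[[nat_lit 0,nat_lit 7,nat_lit 8,nat_lit 10,nat_lit 13,nat_lit 16,nat_lit 20,nat_lit 22,nat_lit 23,nat_lit 27],
    [nat_lit 14,nat_lit 28],[],[],[nat_lit 4,nat_lit 25],[nat_lit 12,nat_lit 29],[],[nat_lit 6],[nat_lit 18],
    [nat_lit 19],[nat_lit 26],[],[nat_lit 1,nat_lit 3,nat_lit 5,nat_lit 9,nat_lit 15,nat_lit 17,nat_lit 21],
    [nat_lit 2,nat_lit 11,nat_lit 24,nat_lit 30],[],[]],[[],[nat_lit 33,nat_lit 38,nat_lit 39,nat_lit 45,nat_lit 47,
    nat_lit 51,nat_lit 55,nat_lit 56,nat_lit 57,nat_lit 61],[],[],[nat_lit 31,nat_lit 36,nat_lit 40,nat_lit 43,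
    nat_lit 58],[nat_lit 41,nat_lit 53],[nat_lit 60],[],[nat_lit 48],[nat_lit 49],[nat_lit 59],[nat_lit 37],
    [nat_lit 32,nat_lit 34,nat_lit 42,nat_lit 44,nat_lit 46,nat_lit 50,nat_lit 52,nat_lit 54],[nat_lit 35],[],[]],[[],
    [],[],[],[],[],[nat_lit 62],[nat_lit 63,nat_lit 64],[],[],[],[],[],[],[nat_lit 65],[nat_lit 66]],[[],[],[],[],[],
    [],[nat_lit 67],[nat_lit 68,nat_lit 69],[],[],[],[],[],[],[nat_lit 70],[nat_lit 71]],[[nat_lit 82,nat_lit 85],
    [nat_lit 77,nat_lit 87],[],[],[],[nat_lit 72,nat_lit 73,nat_lit 74,nat_lit 75,nat_lit 78,nat_lit 79,nat_lit 83,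
    nat_lit 84,nat_lit 86,nat_lit 88],[],[],[nat_lit 80],[nat_lit 81],[],[],[],[nat_lit 76],[],[]],[[nat_lit 89,
    nat_lit 93,nat_lit 95,nat_lit 99,nat_lit 105],[nat_lit 96,nat_lit 100],[],[],[nat_lit 98],[],[],[],[nat_lit 103],
    [nat_lit 104],[],[],[nat_lit 90,nat_lit 102],[nat_lit 91,nat_lit 92,nat_lit 94,nat_lit 97,nat_lit 101],[],[]],[[],
    [nat_lit 116],[nat_lit 109,nat_lit 111],[nat_lit 110,nat_lit 112],[],[],[nat_lit 107,nat_lit 108],[],[],[],
    [nat_lit 113],[nat_lit 106,nat_lit 114,nat_lit 115,nat_lit 117,nat_lit 118,nat_lit 119],[],[],[],[]],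
    [[nat_lit 132],[],[nat_lit 125],[nat_lit 126],[],[],[nat_lit 121,nat_lit 123,nat_lit 130,nat_lit 131,nat_lit 133],
    [nat_lit 122,nat_lit 124],[],[],[nat_lit 120,nat_lit 129],[],[],[nat_lit 127,nat_lit 128],[],[]],[[nat_lit 134],
    [nat_lit 135],[],[],[nat_lit 136],[nat_lit 137],[],[],[],[],[],[],[nat_lit 138],[nat_lit 139],[],[]],
    [[nat_lit 140],[nat_lit 141],[],[],[nat_lit 142],[nat_lit 143],[],[],[],[],[],[],[nat_lit 144],[nat_lit 145],[],
    []],[[nat_lit 149],[],[],[],[],[],[],[nat_lit 146,nat_lit 147,nat_lit 150,nat_lit 151,nat_lit 154,nat_lit 155],[],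
    [],[nat_lit 148,nat_lit 156,nat_lit 158],[nat_lit 157,nat_lit 159],[],[],[nat_lit 152],[nat_lit 153]],
    [[nat_lit 165],[nat_lit 166],[],[],[],[],[nat_lit 160,nat_lit 164],[nat_lit 169],[],[],[nat_lit 162],[nat_lit 163,
    nat_lit 172,nat_lit 173],[],[nat_lit 161],[nat_lit 167,nat_lit 170],[nat_lit 168,nat_lit 171]],[[nat_lit 174],
    [nat_lit 182,nat_lit 187,nat_lit 196,nat_lit 198],[],[],[nat_lit 175,nat_lit 178,nat_lit 185,nat_lit 194,
    nat_lit 197],[nat_lit 176],[nat_lit 180,nat_lit 186],[],[nat_lit 191],[nat_lit 192],[nat_lit 179],[],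
    [nat_lit 193],[nat_lit 177,nat_lit 181,nat_lit 183,nat_lit 184,nat_lit 188,nat_lit 189,nat_lit 190,nat_lit 195,
    nat_lit 199],[],[]],[[nat_lit 200,nat_lit 202,nat_lit 208,nat_lit 211,nat_lit 216,nat_lit 217,nat_lit 221,
    nat_lit 223],[nat_lit 204,nat_lit 205,nat_lit 206,nat_lit 209,nat_lit 212,nat_lit 215,nat_lit 218],[],[],
    [nat_lit 219,nat_lit 222],[],[],[],[nat_lit 213],[nat_lit 214],[],[],[nat_lit 201,nat_lit 203,nat_lit 207,
    nat_lit 210,nat_lit 220,nat_lit 224],[nat_lit 225],[],[]],[[],[],[nat_lit 226],[nat_lit 227],[],[],[],[],[],[],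
    [nat_lit 228,nat_lit 229],[nat_lit 230],[],[],[],[]],[[],[],[nat_lit 231],[nat_lit 232],[],[],[],[],[],[],
    [nat_lit 233,nat_lit 234],[nat_lit 235],[],[],[],[]]]
    [[[nat_lit 0x400000000000000000000000000000000000000000000000000000000,
    nat_lit 0x400000000000000000000000000000000000000000000000000000000,
    nat_lit 0x400000000000000000000000000000000000000000000000000000000,
    nat_lit 0x400000000000000000000000000000000000000000000000000000000,
    nat_lit 0x400000000000000000000000000000000000000000000000000000000,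
    nat_lit 0x400000000000000000000000000000000000000000000000000000000,
    nat_lit 0x400000000000000000000000000000000000000000000000000000000,
    nat_lit 0x400000000000000000000000000000000000000000000000000000000,
    nat_lit 0x400000000000000000000000000000000000000000000000000000000],
    [nat_lit 0x400000000000000000000000000000000000000000000000000000000,nat_lit 0,nat_lit 0,
    nat_lit 0x800000000000000000000000000000000000000000000000000000000,
    nat_lit 0x800000000000000000000000000000000000000000000000000000000,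
    nat_lit 0x800000000000000000000000000000000000000000000000000000000,
    nat_lit 0x800000000000000000000000000000000000000000000000000000000,
    nat_lit 0x800000000000000000000000000000000000000000000000000000000,nat_lit 0],
    [nat_lit 0x3000000000000000000000000000000000000000000000000000000000,nat_lit 0,nat_lit 0,nat_lit 0,nat_lit 0,
    nat_lit 0x4000000000000000000000000000000000000000000000000000000000,
    nat_lit 0x4000000000000000000000000000000000000000000000000000000000,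
    nat_lit 0x4000000000000000000000000000000000000000000000000000000000,
    nat_lit 0x4000000000000000000000000000000000000000000000000000000000],
    [nat_lit 0x4000000000000000000000000000000000000000000000000000000000,
    nat_lit 0x4000000000000000000000000000000000000000000000000000000000,
    nat_lit 0x4000000000000000000000000000000000000000000000000000000000,
    nat_lit 0x4000000000000000000000000000000000000000000000000000000000,nat_lit 0,nat_lit 0,
    nat_lit 0x800000000000000000,nat_lit 0x800000000000000000,nat_lit 0x800000000000000000],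
    [nat_lit 0x800000000000000000,nat_lit 0x800000000000000000,nat_lit 0x800000000000000000,
    nat_lit 0x800000000000000000,nat_lit 0x800000000000000000,nat_lit 0x800000000000000000,
    nat_lit 0x800000000000000000,nat_lit 0x80000000000000000,nat_lit 0x80000000000000000],[nat_lit 0,nat_lit 0,
    nat_lit 0,nat_lit 0,nat_lit 0x300000000000000000,nat_lit 0,nat_lit 0x400000000000000000,
    nat_lit 0x400000000000000000,nat_lit 0x400000000000000000],[nat_lit 0x400000000000000000,nat_lit 0,nat_lit 0,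
    nat_lit 0,nat_lit 0,nat_lit 0,nat_lit 0,nat_lit 0,nat_lit 0x40000],[nat_lit 0x40000,nat_lit 0x20001000,
    nat_lit 0x8d12581,nat_lit 0x41000804,nat_lit 0x80000000000000000000000000,nat_lit 0x80000000000000000000000000,
    nat_lit 0,nat_lit 0x208a20000000000000000000000,nat_lit 0x22580000000000000000000000],[nat_lit 0,nat_lit 0,
    nat_lit 0x40000000000000000,nat_lit 0x40000000000000000,nat_lit 0x40000000000000000,nat_lit 0x40000000000000000,
    nat_lit 0x40000000000000000,nat_lit 0,nat_lit 0]],[[nat_lit 0x18000000000000000,nat_lit 0x20000000000000000,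
    nat_lit 0x20000000000000000,nat_lit 0x20000000000000000,nat_lit 0x20000000000000000,nat_lit 0x20000000000000000,
    nat_lit 0,nat_lit 0,nat_lit 0x20000000000000000000000000000000],[nat_lit 0x20000000000000000000000000000000,
    nat_lit 0,nat_lit 0,nat_lit 0x2c0a000000000000000000000000000000,nat_lit 0x2c0a000000000000000000000000000000,
    nat_lit 0x2c0a000000000000000000000000000000,nat_lit 0x2c0a000000000000000000000000000000,
    nat_lit 0x2c0a000000000000000000000000000000,nat_lit 0x2c0a000000000000000000000000000000],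
    [nat_lit 0x2c0a000000000000000000000000000000,nat_lit 0x2c0a000000000000000000000000000000,
    nat_lit 0x2c0a000000000000000000000000000000,nat_lit 0x2c0a000000000000000000000000000000,
    nat_lit 0x201000000000000000000000000000000,nat_lit 0x14000000000000000000000000000000,nat_lit 0,nat_lit 0,
    nat_lit 0],[nat_lit 0x8020000000000000000000,nat_lit 0x100000000000000000000,nat_lit 0x100000000000000000000,
    nat_lit 0x158cf000000000000000000,nat_lit 0x158cf000000000000000000,nat_lit 0x158cf000000000000000000,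
    nat_lit 0x158cf000000000000000000,nat_lit 0x158cf000000000000000000,nat_lit 0x200000000000000000000],
    [nat_lit 0x200000000000000000000,nat_lit 0,nat_lit 0,nat_lit 0,nat_lit 0x400000000000000000000000000000000000,
    nat_lit 0x400000000000000000000000000000000000,nat_lit 0x200000000000000000000000000000000000,
    nat_lit 0x200000000000000000000000000000000000,nat_lit 0x800000000000000000000000000000000000],
    [nat_lit 0x800000000000000000000000000000000000,nat_lit 0x1000000000000000000000000000000000000,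
    nat_lit 0x1000000000000000000000000000000000000,nat_lit 0x1000000000000000000000000000000000000,
    nat_lit 0x1000000000000000000000000000000000000,nat_lit 0x1000000000000000000000000000000000000,
    nat_lit 0x1000000000000000000000000000000000000,nat_lit 0,nat_lit 0xa000000000000000000000000000],[nat_lit 0,
    nat_lit 0x1800000000000000000000000000,nat_lit 0x14000000000000000000000000000,nat_lit 0,
    nat_lit 0xec0400000000000000000000000000,nat_lit 0,nat_lit 0x9000000000000000000000000000000000000000000,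
    nat_lit 0x110000000000000000000000000000000000000000,nat_lit 0],
    [nat_lit 0x4800000000000000000000000000000000000000000,nat_lit 0x30080000000000000000000000000000000000000000,
    nat_lit 0,nat_lit 0,nat_lit 0,nat_lit 0x20000000000000000000000000000000000,
    nat_lit 0x20000000000000000000000000000000000,nat_lit 0x40000000000000000000000000000000000,
    nat_lit 0x40000000000000000000000000000000000],[nat_lit 0x40000000000000000000000000000000000,nat_lit 0,nat_lit 0,
    nat_lit 0x4000000000000000000000000000000000,nat_lit 0x4000000000000000000000000000000000,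
    nat_lit 0x80000000000000000000000000000000000,nat_lit 0x80000000000000000000000000000000000,nat_lit 0,
    nat_lit 0x200000000000000000000000000000000000000000000000000000]],
    [[nat_lit 0x200000000000000000000000000000000000000000000000000000,
    nat_lit 0x200000000000000000000000000000000000000000000000000000,
    nat_lit 0x200000000000000000000000000000000000000000000000000000,
    nat_lit 0x200000000000000000000000000000000000000000000000000000,
    nat_lit 0x200000000000000000000000000000000000000000000000000000,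
    nat_lit 0x110048a00000000000000000000000000000000000000000000000000,
    nat_lit 0x110048a00000000000000000000000000000000000000000000000000,
    nat_lit 0x400000000000000000000000000000000000000000000000000000,
    nat_lit 0x400000000000000000000000000000000000000000000000000000],
    [nat_lit 0x400000000000000000000000000000000000000000000000000000,
    nat_lit 0xa3090500000000000000000000000000000000000000000000000000,
    nat_lit 0x200000000000000000000000000000000000000000000000000000000,nat_lit 0,nat_lit 0,nat_lit 0,nat_lit 0,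
    nat_lit 0,nat_lit 0],[nat_lit 0,nat_lit 0x200000000000000000000000000000000000000,
    nat_lit 0x200000000000000000000000000000000000000,nat_lit 0x200000000000000000000000000000000000000,
    nat_lit 0x200000000000000000000000000000000000000,nat_lit 0x200000000000000000000000000000000000000,
    nat_lit 0x200000000000000000000000000000000000000,nat_lit 0x200000000000000000000000000000000000000,
    nat_lit 0x200000000000000000000000000000000000000],[nat_lit 0,nat_lit 0,
    nat_lit 0x5010000000000000000000000000000000000000,nat_lit 0xccc000000000000000000000000000000000000,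
    nat_lit 0x100000000000000000000000000000000000000,nat_lit 0xa000000000000000000000000000000000000000,
    nat_lit 0xa000000000000000000000000000000000000000,nat_lit 0xa000000000000000000000000000000000000000,
    nat_lit 0xa000000000000000000000000000000000000000],[nat_lit 0xa000000000000000000000000000000000000000,
    nat_lit 0xa000000000000000000000000000000000000000,
    nat_lit 0x8000000000000000000000000000000000000000000000000000000000,
    nat_lit 0x8000000000000000000000000000000000000000000000000000000000,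
    nat_lit 0x8000000000000000000000000000000000000000000000000000000000,
    nat_lit 0x8000000000000000000000000000000000000000000000000000000000,nat_lit 0,nat_lit 0,
    nat_lit 0x10000000000000000000000000000000000000000000000000000000000],
    [nat_lit 0x10000000000000000000000000000000000000000000000000000000000,
    nat_lit 0x10000000000000000000000000000000000000000000000000000000000,
    nat_lit 0x10000000000000000000000000000000000000000000000000000000000,
    nat_lit 0x10000000000000000000000000000000000000000000000000000000000,nat_lit 0,nat_lit 0,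
    nat_lit 0x60000000000000000000000000000000000000000000000000000000000,nat_lit 0,nat_lit 0],[nat_lit 0,nat_lit 0,
    nat_lit 0,nat_lit 0,nat_lit 0,nat_lit 0,nat_lit 0,nat_lit 0,nat_lit 0],
    [nat_lit 0x80000000000000000000000000000000000000000000000000000000000,
    nat_lit 0x24020480000000000000000000000000000000000000000000,
    nat_lit 0x50084000000000000000000000000000000000000000000000,
    nat_lit 0x2000000000000000000000000000000000000000000000000,
    nat_lit 0x1000000000000000000000000000000000000000000000000,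
    nat_lit 0x1000000000000000000000000000000000000000000000000,nat_lit 0x400091080000000,nat_lit 0x2388a0c200000000,
    nat_lit 0x54540500000000],[nat_lit 0x2000000000000,nat_lit 0x2000000000000]]]
    [[[[nat_lit 0x400000000000000000000000000000000000000000000000000000000,
    nat_lit 0x400000000000000000000000000000000000000000000000000000000,
    nat_lit 0x400000000000000000000000000000000000000000000000000000000,nat_lit 0,
    nat_lit 0x400000000000000000000000000000000000000000000000000000000,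
    nat_lit 0x400000000000000000000000000000000000000000000000000000000,nat_lit 0,nat_lit 0,
    nat_lit 0x400000000000000000000000000000000000000000000000000000000],
    [nat_lit 0x400000000000000000000000000000000000000000000000000000000,nat_lit 0,nat_lit 0,nat_lit 0,
    nat_lit 0x800000000000000000000000000000000000000000000000000000000,
    nat_lit 0x800000000000000000000000000000000000000000000000000000000,
    nat_lit 0x800000000000000000000000000000000000000000000000000000000,nat_lit 0,nat_lit 0],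
    [nat_lit 0x2000000000000000000000000000000000000000000000000000000000,nat_lit 0,nat_lit 0,nat_lit 0,nat_lit 0,
    nat_lit 0,nat_lit 0,nat_lit 0,nat_lit 0],[nat_lit 0,nat_lit 0,nat_lit 0,nat_lit 0,nat_lit 0,nat_lit 0,
    nat_lit 0x800000000000000000,nat_lit 0x800000000000000000,nat_lit 0x800000000000000000],[nat_lit 0,nat_lit 0,
    nat_lit 0x800000000000000000,nat_lit 0,nat_lit 0,nat_lit 0,nat_lit 0,nat_lit 0,nat_lit 0],[nat_lit 0,nat_lit 0,
    nat_lit 0,nat_lit 0,nat_lit 0x100000000000000000,nat_lit 0,nat_lit 0,nat_lit 0,nat_lit 0x400000000000000000],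
    [nat_lit 0x400000000000000000,nat_lit 0,nat_lit 0,nat_lit 0,nat_lit 0,nat_lit 0,nat_lit 0,nat_lit 0,nat_lit 0],
    [nat_lit 0x40000,nat_lit 0,nat_lit 0xc00101,nat_lit 0x40000800,nat_lit 0,nat_lit 0x80000000000000000000000000,
    nat_lit 0,nat_lit 0x200220000000000000000000000,nat_lit 0x20100000000000000000000000],[nat_lit 0,nat_lit 0,
    nat_lit 0,nat_lit 0x40000000000000000,nat_lit 0x40000000000000000,nat_lit 0x40000000000000000,nat_lit 0,nat_lit 0,
    nat_lit 0]],[[nat_lit 0x8000000000000000,nat_lit 0,nat_lit 0,nat_lit 0,nat_lit 0x20000000000000000,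
    nat_lit 0x20000000000000000,nat_lit 0,nat_lit 0,nat_lit 0x20000000000000000000000000000000],[nat_lit 0,nat_lit 0,
    nat_lit 0,nat_lit 0,nat_lit 0,nat_lit 0x280a000000000000000000000000000000,
    nat_lit 0x280a000000000000000000000000000000,nat_lit 0x280a000000000000000000000000000000,nat_lit 0],
    [nat_lit 0x280a000000000000000000000000000000,nat_lit 0x280a000000000000000000000000000000,
    nat_lit 0x280a000000000000000000000000000000,nat_lit 0,nat_lit 0x200000000000000000000000000000000,nat_lit 0,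
    nat_lit 0,nat_lit 0,nat_lit 0],[nat_lit 0x20000000000000000000,nat_lit 0,nat_lit 0,
    nat_lit 0x4847000000000000000000,nat_lit 0x4847000000000000000000,nat_lit 0x4847000000000000000000,
    nat_lit 0x4847000000000000000000,nat_lit 0,nat_lit 0],[nat_lit 0x200000000000000000000,nat_lit 0,nat_lit 0,
    nat_lit 0,nat_lit 0,nat_lit 0x400000000000000000000000000000000000,nat_lit 0,nat_lit 0,nat_lit 0],[nat_lit 0,
    nat_lit 0,nat_lit 0,nat_lit 0x1000000000000000000000000000000000000,nat_lit 0,nat_lit 0,nat_lit 0,nat_lit 0,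
    nat_lit 0],[nat_lit 0,nat_lit 0,nat_lit 0x4000000000000000000000000000,nat_lit 0,
    nat_lit 0x200000000000000000000000000000,nat_lit 0,nat_lit 0,nat_lit 0x100000000000000000000000000000000000000000,
    nat_lit 0],[nat_lit 0x4000000000000000000000000000000000000000000,nat_lit 0,nat_lit 0,nat_lit 0,nat_lit 0,
    nat_lit 0,nat_lit 0x20000000000000000000000000000000000,nat_lit 0,nat_lit 0],[nat_lit 0,nat_lit 0,nat_lit 0,
    nat_lit 0,nat_lit 0,nat_lit 0x80000000000000000000000000000000000,nat_lit 0,nat_lit 0,nat_lit 0]],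
    [[nat_lit 0x200000000000000000000000000000000000000000000000000000,
    nat_lit 0x200000000000000000000000000000000000000000000000000000,
    nat_lit 0x200000000000000000000000000000000000000000000000000000,nat_lit 0,nat_lit 0,
    nat_lit 0x10048200000000000000000000000000000000000000000000000000,
    nat_lit 0x10048200000000000000000000000000000000000000000000000000,nat_lit 0,nat_lit 0],[nat_lit 0,
    nat_lit 0x81000500000000000000000000000000000000000000000000000000,nat_lit 0,nat_lit 0,nat_lit 0,nat_lit 0,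
    nat_lit 0,nat_lit 0,nat_lit 0],[nat_lit 0,nat_lit 0,nat_lit 0x200000000000000000000000000000000000000,
    nat_lit 0x200000000000000000000000000000000000000,nat_lit 0,nat_lit 0,nat_lit 0,
    nat_lit 0x200000000000000000000000000000000000000,nat_lit 0x200000000000000000000000000000000000000],[nat_lit 0,
    nat_lit 0,nat_lit 0,nat_lit 0x4c0000000000000000000000000000000000000,nat_lit 0,
    nat_lit 0xa000000000000000000000000000000000000000,nat_lit 0xa000000000000000000000000000000000000000,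
    nat_lit 0xa000000000000000000000000000000000000000,nat_lit 0xa000000000000000000000000000000000000000],[nat_lit 0,
    nat_lit 0,nat_lit 0x8000000000000000000000000000000000000000000000000000000000,nat_lit 0,
    nat_lit 0x8000000000000000000000000000000000000000000000000000000000,
    nat_lit 0x8000000000000000000000000000000000000000000000000000000000,nat_lit 0,nat_lit 0,nat_lit 0],[nat_lit 0,
    nat_lit 0x10000000000000000000000000000000000000000000000000000000000,
    nat_lit 0x10000000000000000000000000000000000000000000000000000000000,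
    nat_lit 0x10000000000000000000000000000000000000000000000000000000000,nat_lit 0,nat_lit 0,
    nat_lit 0x40000000000000000000000000000000000000000000000000000000000,nat_lit 0,nat_lit 0],[nat_lit 0,nat_lit 0,
    nat_lit 0,nat_lit 0,nat_lit 0,nat_lit 0,nat_lit 0,nat_lit 0,nat_lit 0],[nat_lit 0,
    nat_lit 0x20020400000000000000000000000000000000000000000000,
    nat_lit 0x40084000000000000000000000000000000000000000000000,nat_lit 0,
    nat_lit 0x1000000000000000000000000000000000000000000000000,nat_lit 0,nat_lit 0x400001080000000,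
    nat_lit 0x2188204200000000,nat_lit 0],[nat_lit 0x2000000000000,nat_lit 0]]]]
    (nat_lit 1) (nat_lit 3) (nat_lit 27)
    [[nat_lit 2,nat_lit 3,nat_lit 258,nat_lit 0x1002,nat_lit 0x100002,nat_lit 0x1000002,nat_lit 257,nat_lit 513,
    nat_lit 0x1101,nat_lit 0x100101,nat_lit 0x1000101,nat_lit 0x10000101,nat_lit 0x1001,nat_lit 0x101001,
    nat_lit 0x1001001,nat_lit 0x10001001,nat_lit 0x100001,nat_lit 0x1100001,nat_lit 0x1000001,nat_lit 0x2000001,
    nat_lit 0x10100001,nat_lit 0x11000001],[nat_lit 32,nat_lit 272,nat_lit 528,nat_lit 0x1110,nat_lit 0x100110,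
    nat_lit 0x1000110,nat_lit 0x10000110,nat_lit 0x1010,nat_lit 0x101010,nat_lit 0x100010,nat_lit 0x1000010,
    nat_lit 0x1001010,nat_lit 0x1101010,nat_lit 0x1010010,nat_lit 0x1100010,nat_lit 0x2000010,nat_lit 0x2000020,
    nat_lit 0x2001010,nat_lit 0x12000010,nat_lit 0x11000010,nat_lit 0x11001010,nat_lit 0x11000110],[nat_lit 512,
    nat_lit 768,nat_lit 0x1200,nat_lit 0x100200,nat_lit 0x1000200,nat_lit 0x10000200,nat_lit 0x10001200,
    nat_lit 0x11000200,nat_lit 0x1100,nat_lit 0x101100,nat_lit 0x1001100,nat_lit 0x10001100,nat_lit 0x11001100,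
    nat_lit 0x100100,nat_lit 0x200100,nat_lit 0x1100100,nat_lit 0x10100100,nat_lit 0x10100200,nat_lit 0x11100100,
    nat_lit 0x1000100,nat_lit 0x2000100,nat_lit 0x12000100,nat_lit 0x11000100,nat_lit 0x10000100,nat_lit 0x10002100,
    nat_lit 0x10101100,nat_lit 0x21000100,nat_lit 0x20000100,nat_lit 0x20000200],[nat_lit 0x2000,nat_lit 0x3000,
    nat_lit 0x102000,nat_lit 0x11002000,nat_lit 0x10002000,nat_lit 0x11000,nat_lit 0x111000,nat_lit 0x10011000,
    nat_lit 0x101000,nat_lit 0x201000,nat_lit 0x11101000,nat_lit 0x10101000,nat_lit 0x1101000,nat_lit 0x1001000,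
    nat_lit 0x2001000,nat_lit 0x12001000,nat_lit 0x11001000,nat_lit 0x21001000,nat_lit 0x10001000,nat_lit 0x20001000],
    [nat_lit 0x110000,nat_lit 0x1110000,nat_lit 0x10010000,nat_lit 0x11010000],[nat_lit 0x200000,nat_lit 0x300000,
    nat_lit 0x1200000,nat_lit 0x1100000,nat_lit 0x2100000,nat_lit 0x12100000,nat_lit 0x11100000,nat_lit 0x10100000,
    nat_lit 0x20100000],[nat_lit 0x2000000,nat_lit 0x3000000,nat_lit 0x13000000,nat_lit 0x12000000,nat_lit 0x22000000,
    nat_lit 0x11000000,nat_lit 0x21000000],[nat_lit 0x20000000]]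
    [.c (nat_lit 1) (nat_lit 2),.c (nat_lit 0) (nat_lit 0x1805),.c (nat_lit 0) (nat_lit 0x11005),
    .c (nat_lit 4) (nat_lit 0xc02),.c (nat_lit 6) (nat_lit 0xc02),.c (nat_lit 0) (nat_lit 0x201005),
    .c (nat_lit 0) (nat_lit 0x10805),.c (nat_lit 0) (nat_lit 0x20805),.c (nat_lit 4) (nat_lit 0x18c04),
    .c (nat_lit 6) (nat_lit 0x18c04),.c (nat_lit 0) (nat_lit 0x210805),.c (nat_lit 2) (nat_lit 0x100010805),
    .c (nat_lit 0) (nat_lit 0x1080000805),.c (nat_lit 0) (nat_lit 0x146318085),.c (nat_lit 4) (nat_lit 0x300c04),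
    .c (nat_lit 2) (nat_lit 0x1180000805),.c (nat_lit 0) (nat_lit 0x19c6318085),.c (nat_lit 6) (nat_lit 0x300c04),
    .c (nat_lit 0) (nat_lit 0x200805),.c (nat_lit 0) (nat_lit 0x400805),.c (nat_lit 2) (nat_lit 0x18c6318085),
    .c (nat_lit 2) (nat_lit 0x100200805),.c (nat_lit 2) (nat_lit 2),.r (nat_lit 0xdbb) (nat_lit 5) [nat_lit 65,
    nat_lit 0x84000002],.c (nat_lit 2) (nat_lit 0x18002),.c (nat_lit 2) (nat_lit 0x18c0018004),
    .c (nat_lit 2) (nat_lit 0x11842008a4),.c (nat_lit 2) (nat_lit 0x318004),.c (nat_lit 0) (nat_lit 0x140018004),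
    .c (nat_lit 6) (nat_lit 0x2a46318c84),.c (nat_lit 2) (nat_lit 0x1042108a4),
    .r (nat_lit 0xdbe) (nat_lit 11) [nat_lit 0x80010002,nat_lit 65],.r (nat_lit 0xdbb) (nat_lit 5) [nat_lit 0x6200082,
    nat_lit 0x84000002],.c (nat_lit 2) (nat_lit 0x18c0300004),.r (nat_lit 0xdbb) (nat_lit 13) [nat_lit 0xc03010a2,
    nat_lit 0x80200002],.c (nat_lit 4) (nat_lit 0x2104200005),.c (nat_lit 2) (nat_lit 0x11840108a4),
    .c (nat_lit 2) (nat_lit 0x300002),.r (nat_lit 0xdbb) (nat_lit 13) [nat_lit 0x2004010062,nat_lit 0x80200002],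
    .c (nat_lit 4) (nat_lit 0x1080200003),.c (nat_lit 0) (nat_lit 0xc0300002),.c (nat_lit 0) (nat_lit 0x140300004),
    .c (nat_lit 0) (nat_lit 0x19c0300004),.c (nat_lit 0) (nat_lit 0x140318004),.c (nat_lit 3) (nat_lit 2),
    .c (nat_lit 0) (nat_lit 0x30005),.c (nat_lit 4) (nat_lit 0x18002),.c (nat_lit 6) (nat_lit 0x18002),
    .c (nat_lit 0) (nat_lit 0x220005),.c (nat_lit 2) (nat_lit 0x80010003),
    .r (nat_lit 0xdbe) (nat_lit 11) [nat_lit 0x80010002,nat_lit 0xc62190a2],
    .r (nat_lit 0xdbb) (nat_lit 5) [nat_lit 0x20046000a2,nat_lit 0x84000002],.c (nat_lit 0) (nat_lit 0x1080010005),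
    .c (nat_lit 0) (nat_lit 0x146300c85),.c (nat_lit 4) (nat_lit 0x318004),.c (nat_lit 2) (nat_lit 0x1180010005),
    .r (nat_lit 0xdbe) (nat_lit 11) [nat_lit 0x80010002,nat_lit 0xc00190a2],.c (nat_lit 0) (nat_lit 0x19c6300c85),
    .r (nat_lit 0xdbb) (nat_lit 5) [nat_lit 0x23084211441,nat_lit 0x84000002],.c (nat_lit 6) (nat_lit 0x318004),
    .c (nat_lit 2) (nat_lit 0x18c6300c85),.c (nat_lit 6) (nat_lit 0x1946300c83),.c (nat_lit 6) (nat_lit 0x2a4a319505),
    .c (nat_lit 0) (nat_lit 0x210005),.c (nat_lit 0) (nat_lit 0x410005),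
    .r (nat_lit 0xdbb) (nat_lit 5) [nat_lit 0x1004200061,nat_lit 0x84000002],.c (nat_lit 2) (nat_lit 0x100210005),
    .r (nat_lit 0xdbb) (nat_lit 13) [nat_lit 0x310082,nat_lit 0x80200002],
    .r (nat_lit 0x437) (nat_lit 5) [nat_lit 0x40000310082,nat_lit 0x30000000001,nat_lit 0x500042000a2,
    nat_lit 0x28c6319002,nat_lit 0x40080300082,nat_lit 0x30000200061],
    .r (nat_lit 0xdbb) (nat_lit 5) [nat_lit 0xc62190a2,nat_lit 0x84000002],
    .r (nat_lit 0xdbb) (nat_lit 5) [nat_lit 0x40046000a4,nat_lit 0x84000002],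
    .r (nat_lit 0x437) (nat_lit 5) [nat_lit 0x80000310082,nat_lit 0x30000000001,nat_lit 0x900042000a2,
    nat_lit 0x28c6319002,nat_lit 0x80080300082,nat_lit 0x50000200061],
    .r (nat_lit 0xdbb) (nat_lit 5) [nat_lit 0x2000400062,nat_lit 0x84000002],.c (nat_lit 4) (nat_lit 2),
    .r (nat_lit 0xdbe) (nat_lit 13) [nat_lit 0x30000000041,nat_lit 0x80010002],.c (nat_lit 4) (nat_lit 0x1042108a4),
    .r (nat_lit 0x437) (nat_lit 5) [nat_lit 0x40006010082,nat_lit 0x30000000001,nat_lit 0x30004000061,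
    nat_lit 0x28c6319002,nat_lit 0x40086000082,nat_lit 0x500042000a2],.c (nat_lit 2) (nat_lit 0x1100000003),
    .c (nat_lit 2) (nat_lit 0x1084000005),.c (nat_lit 0) (nat_lit 0x1002108a4),
    .r (nat_lit 249) (nat_lit 3) [nat_lit 0x5694e53b0a2,nat_lit 0x23084211401,nat_lit 0x4610c643482,
    nat_lit 0x328c6319001,nat_lit 0x5694a73b0a2,nat_lit 0x4618c633482],.c (nat_lit 0) (nat_lit 0x146318c85),
    .c (nat_lit 6) (nat_lit 0x1042108a4),.r (nat_lit 0xdbb) (nat_lit 5) [nat_lit 0xc00190a2,nat_lit 0x84000002],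
    .c (nat_lit 2) (nat_lit 0x6318c85),.c (nat_lit 0) (nat_lit 0x146018c85),.c (nat_lit 0) (nat_lit 0x1080200005),
    .c (nat_lit 4) (nat_lit 0x300002),.r (nat_lit 0xdbe) (nat_lit 11) [nat_lit 0x80010002,nat_lit 0xc43190a2],
    .c (nat_lit 2) (nat_lit 0x1180200005),.r (nat_lit 4) (nat_lit 14) [nat_lit 0x4a008000121,nat_lit 0x50001,
    nat_lit 0x5000a000101,nat_lit 0x14000001,nat_lit 0x9aad2b5d0a1,nat_lit 0x280000001,nat_lit 0x80006000081],
    .r (nat_lit 0xdbe) (nat_lit 13) [nat_lit 65,nat_lit 0x80010002],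
    .r (nat_lit 765) (nat_lit 2) [nat_lit 0x30008000081,nat_lit 0x30000020081,nat_lit 0x84000000221,
    nat_lit 0x30000400081,nat_lit 257,nat_lit 0x201000000a1],.c (nat_lit 2) (nat_lit 0x11802108a4),
    .c (nat_lit 4) (nat_lit 0x140018c85),.r (nat_lit 0xdbb) (nat_lit 5) [nat_lit 0x20802000a2,nat_lit 0x84000002],
    .c (nat_lit 6) (nat_lit 0x2a46329505),.c (nat_lit 6) (nat_lit 2),
    .r (nat_lit 0xdbe) (nat_lit 11) [nat_lit 0x80010002,nat_lit 0x23084211441],
    .r (nat_lit 0xdbb) (nat_lit 5) [nat_lit 0x46104622482,nat_lit 0x84000002],.c (nat_lit 0) (nat_lit 0x19c6018c85),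
    .c (nat_lit 6) (nat_lit 0x300002),.c (nat_lit 6) (nat_lit 0x1946018c83),.c (nat_lit 2) (nat_lit 0x18c6018c85),
    .c (nat_lit 4) (nat_lit 0x21042108a4),.r (nat_lit 0xdbe) (nat_lit 11) [nat_lit 0x80010002,nat_lit 0x318c6319061],
    .c (nat_lit 7) (nat_lit 2),.c (nat_lit 0) (nat_lit 0x600005),.r (nat_lit 0xdbb) (nat_lit 5) [nat_lit 0x200c2000a2,
    nat_lit 0x84000002],.c (nat_lit 2) (nat_lit 0x80200003),.r (nat_lit 0xdbb) (nat_lit 5) [nat_lit 0x2004200062,
    nat_lit 0x84000002],.r (nat_lit 0xdbb) (nat_lit 13) [nat_lit 0x6010082,nat_lit 0x80200002],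
    .r (nat_lit 0x437) (nat_lit 5) [nat_lit 0x80006010082,nat_lit 0x30000000001,nat_lit 0x50004000061,
    nat_lit 0x28c6319002,nat_lit 0x80086000082,nat_lit 0x900042000a2],.c (nat_lit 8) (nat_lit 2)]]

end Pool.Agent.Lib_MP_fa6e45
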