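import Pool.Agent.Lib_MP_fa6e45.DQ8k_0d
import Pool.Agent.Lib_MP_fa6e45.RD8k_4

/-!
MP_fa6e45_co, stage 9: straight-side patterns with `8` sides, part of a certificate (generated by a program).
-/

namespace Pool.Agent.Lib_MP_fa6e45

theorem cD8k_0_k4_0 : allI cD8k_0_c (rjL dJ cD8k_0_q rD8k_4_0) 3545 = true := by
  decide +kernel

theorem cD8k_0_k4_1 : allI cD8k_0_c (rjL dJ cD8k_0_q rD8k_4_1) 3546 = true := by
  decide +kernel

theorem cD8k_0_k4_2 : allI cD8k_0_c (rjL dJ cD8k_0_q rD8k_4_2) 3547 = true := by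
  decide +kernel

theorem cD8k_0_k4_3 : allI cD8k_0_c (rjL dJ cD8k_0_q rD8k_4_3) 3548 = true := by
  decide +kernel

theorem cD8k_0_k4_4 : allI cD8k_0_c (rjL dJ cD8k_0_q rD8k_4_4) 3549 = true := by
  decide +kernel

/-- nodes -/
noncomputable def cD8k_0_n4 : List (QJ PN) :=
  rjL dJ cD8k_0_q rD8k_4_0 ++ (rjL dJ cD8k_0_q rD8k_4_1 ++ (rjL dJ cD8k_0_q rD8k_4_2 ++ (
    rjL dJ cD8k_0_q rD8k_4_3 ++ rjL dJ cD8k_0_q rD8k_4_4)))

theorem cD8k_0_k4 : allI cD8k_0_c cD8k_0_n4 3545 = true := by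
  refine allI_appQ (k := 1) cD8k_0_k4_0 (by decide +kernel) ?_
  refine allI_appQ (k := 1) cD8k_0_k4_1 (by decide +kernel) ?_
  refine allI_appQ (k := 1) cD8k_0_k4_2 (by decide +kernel) ?_
  refine allI_appQ (k := 1) cD8k_0_k4_3 (by decide +kernel) ?_
  exact cD8k_0_k4_4

theorem cD8k_0_l4 : cD8k_0_n4.length = 5 := by
  decide +kernel

end Pool.Agent.Lib_MP_fa6e45
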