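import Pool.Agent.Lib_MP_fa6e45.DQ8k_0d
import Pool.Agent.Lib_MP_fa6e45.RD8k_40

/-!
MP_fa6e45_co, stage 9: straight-side patterns with `8` sides, part of a certificate (generated by a program).
-/

namespace Pool.Agent.Lib_MP_fa6e45

theorem cD8k_0_k40_0 : allI cD8k_0_c (rjL dJ cD8k_0_q rD8k_40_0) 5948 = true := by
  decide +kernel

theorem cD8k_0_k40_1 : allI cD8k_0_c (rjL dJ cD8k_0_q rD8k_40_1) 5951 = true := by
  decide +kernel

theorem cD8k_0_k40_2 : allI cD8k_0_c (rjL dJ cD8k_0_q rD8k_40_2) 5952 = true := by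
  decide +kernel

theorem cD8k_0_k40_3 : allI cD8k_0_c (rjL dJ cD8k_0_q rD8k_40_3) 5955 = true := by
  decide +kernel

theorem cD8k_0_k40_4 : allI cD8k_0_c (rjL dJ cD8k_0_q rD8k_40_4) 5956 = true := by
  decide +kernel

theorem cD8k_0_k40_5 : allI cD8k_0_c (rjL dJ cD8k_0_q rD8k_40_5) 5958 = true := by
  decide +kernel

theorem cD8k_0_k40_6 : allI cD8k_0_c (rjL dJ cD8k_0_q rD8k_40_6) 5961 = true := by
  decide +kernel

theorem cD8k_0_k40_7 : allI cD8k_0_c (rjL dJ cD8k_0_q rD8k_40_7) 5964 = true := by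
  decide +kernel

theorem cD8k_0_k40_8 : allI cD8k_0_c (rjL dJ cD8k_0_q rD8k_40_8) 5967 = true := by
  decide +kernel

theorem cD8k_0_k40_9 : allI cD8k_0_c (rjL dJ cD8k_0_q rD8k_40_9) 5970 = true := by
  decide +kernel

theorem cD8k_0_k40_10 : allI cD8k_0_c (rjL dJ cD8k_0_q rD8k_40_10) 5973 = true := by
  decide +kernel

theorem cD8k_0_k40_11 : allI cD8k_0_c (rjL dJ cD8k_0_q rD8k_40_11) 5976 = true := by
  decide +kernel

theorem cD8k_0_k40_12 : allI cD8k_0_c (rjL dJ cD8k_0_q rD8k_40_12) 5978 = true := by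
  decide +kernel

theorem cD8k_0_k40_13 : allI cD8k_0_c (rjL dJ cD8k_0_q rD8k_40_13) 5981 = true := by
  decide +kernel

theorem cD8k_0_k40_14 : allI cD8k_0_c (rjL dJ cD8k_0_q rD8k_40_14) 5984 = true := by
  decide +kernel

theorem cD8k_0_k40_15 : allI cD8k_0_c (rjL dJ cD8k_0_q rD8k_40_15) 5986 = true := by
  decide +kernel

theorem cD8k_0_k40_16 : allI cD8k_0_c (rjL dJ cD8k_0_q rD8k_40_16) 5989 = true := by
  decide +kernel

theorem cD8k_0_k40_17 : allI cD8k_0_c (rjL dJ cD8k_0_q rD8k_40_17) 5992 = true := by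
  decide +kernel

theorem cD8k_0_k40_18 : allI cD8k_0_c (rjL dJ cD8k_0_q rD8k_40_18) 5995 = true := by
  decide +kernel

theorem cD8k_0_k40_19 : allI cD8k_0_c (rjL dJ cD8k_0_q rD8k_40_19) 5998 = true := by
  decide +kernel

theorem cD8k_0_k40_20 : allI cD8k_0_c (rjL dJ cD8k_0_q rD8k_40_20) 6001 = true := by
  decide +kernel

theorem cD8k_0_k40_21 : allI cD8k_0_c (rjL dJ cD8k_0_q rD8k_40_21) 6004 = true := by
  decide +kernel

theorem cD8k_0_k40_22 : allI cD8k_0_c (rjL dJ cD8k_0_q rD8k_40_22) 6007 = true := by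
  decide +kernel

theorem cD8k_0_k40_23 : allI cD8k_0_c (rjL dJ cD8k_0_q rD8k_40_23) 6010 = true := by
  decide +kernel

theorem cD8k_0_k40_24 : allI cD8k_0_c (rjL dJ cD8k_0_q rD8k_40_24) 6013 = true := by
  decide +kernel

theorem cD8k_0_k40_25 : allI cD8k_0_c (rjL dJ cD8k_0_q rD8k_40_25) 6016 = true := by
  decide +kernel

theorem cD8k_0_k40_26 : allI cD8k_0_c (rjL dJ cD8k_0_q rD8k_40_26) 6019 = true := by
  decide +kernel

theorem cD8k_0_k40_27 : allI cD8k_0_c (rjL dJ cD8k_0_q rD8k_40_27) 6022 = true := by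
  decide +kernel

theorem cD8k_0_k40_28 : allI cD8k_0_c (rjL dJ cD8k_0_q rD8k_40_28) 6024 = true := by
  decide +kernel

theorem cD8k_0_k40_29 : allI cD8k_0_c (rjL dJ cD8k_0_q rD8k_40_29) 6025 = true := by
  decide +kernel

theorem cD8k_0_k40_30 : allI cD8k_0_c (rjL dJ cD8k_0_q rD8k_40_30) 6027 = true := by
  decide +kernel

theorem cD8k_0_k40_31 : allI cD8k_0_c (rjL dJ cD8k_0_q rD8k_40_31) 6029 = true := by
  decide +kernel

theorem cD8k_0_k40_32 : allI cD8k_0_c (rjL dJ cD8k_0_q rD8k_40_32) 6031 = true := by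
  decide +kernel

theorem cD8k_0_k40_33 : allI cD8k_0_c (rjL dJ cD8k_0_q rD8k_40_33) 6034 = true := by
  decide +kernel

theorem cD8k_0_k40_34 : allI cD8k_0_c (rjL dJ cD8k_0_q rD8k_40_34) 6036 = true := by
  decide +kernel

theorem cD8k_0_k40_35 : allI cD8k_0_c (rjL dJ cD8k_0_q rD8k_40_35) 6038 = true := by
  decide +kernel

/-- nodes -/
noncomputable def cD8k_0_n40 : List (QJ PN) :=
  rjL dJ cD8k_0_q rD8k_40_0 ++ (rjL dJ cD8k_0_q rD8k_40_1 ++ (rjL dJ cD8k_0_q rD8k_40_2 ++ (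
    rjL dJ cD8k_0_q rD8k_40_3 ++ (rjL dJ cD8k_0_q rD8k_40_4 ++ (rjL dJ cD8k_0_q rD8k_40_5 ++ (
    rjL dJ cD8k_0_q rD8k_40_6 ++ (rjL dJ cD8k_0_q rD8k_40_7 ++ (rjL dJ cD8k_0_q rD8k_40_8 ++ (
    rjL dJ cD8k_0_q rD8k_40_9 ++ (rjL dJ cD8k_0_q rD8k_40_10 ++ (rjL dJ cD8k_0_q rD8k_40_11 ++ (
    rjL dJ cD8k_0_q rD8k_40_12 ++ (rjL dJ cD8k_0_q rD8k_40_13 ++ (rjL dJ cD8k_0_q rD8k_40_14 ++ (
    rjL dJ cD8k_0_q rD8k_40_15 ++ (rjL dJ cD8k_0_q rD8k_40_16 ++ (rjL dJ cD8k_0_q rD8k_40_17 ++ (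
    rjL dJ cD8k_0_q rD8k_40_18 ++ (rjL dJ cD8k_0_q rD8k_40_19 ++ (rjL dJ cD8k_0_q rD8k_40_20 ++ (
    rjL dJ cD8k_0_q rD8k_40_21 ++ (rjL dJ cD8k_0_q rD8k_40_22 ++ (rjL dJ cD8k_0_q rD8k_40_23 ++ (
    rjL dJ cD8k_0_q rD8k_40_24 ++ (rjL dJ cD8k_0_q rD8k_40_25 ++ (rjL dJ cD8k_0_q rD8k_40_26 ++ (
    rjL dJ cD8k_0_q rD8k_40_27 ++ (rjL dJ cD8k_0_q rD8k_40_28 ++ (rjL dJ cD8k_0_q rD8k_40_29 ++ (
    rjL dJ cD8k_0_q rD8k_40_30 ++ (rjL dJ cD8k_0_q rD8k_40_31 ++ (rjL dJ cD8k_0_q rD8k_40_32 ++ (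
    rjL dJ cD8k_0_q rD8k_40_33 ++ (rjL dJ cD8k_0_q rD8k_40_34 ++
    rjL dJ cD8k_0_q rD8k_40_35))))))))))))))))))))))))))))))))))

theorem cD8k_0_k40 : allI cD8k_0_c cD8k_0_n40 5948 = true := by
  refine allI_appQ (k := 3) cD8k_0_k40_0 (by decide +kernel) ?_
  refine allI_appQ (k := 1) cD8k_0_k40_1 (by decide +kernel) ?_
  refine allI_appQ (k := 3) cD8k_0_k40_2 (by decide +kernel) ?_
  refine allI_appQ (k := 1) cD8k_0_k40_3 (by decide +kernel) ?_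
  refine allI_appQ (k := 2) cD8k_0_k40_4 (by decide +kernel) ?_
  refine allI_appQ (k := 3) cD8k_0_k40_5 (by decide +kernel) ?_
  refine allI_appQ (k := 3) cD8k_0_k40_6 (by decide +kernel) ?_
  refine allI_appQ (k := 3) cD8k_0_k40_7 (by decide +kernel) ?_
  refine allI_appQ (k := 3) cD8k_0_k40_8 (by decide +kernel) ?_
  refine allI_appQ (k := 3) cD8k_0_k40_9 (by decide +kernel) ?_
  refine allI_appQ (k := 3) cD8k_0_k40_10 (by decide +kernel) ?_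
  refine allI_appQ (k := 2) cD8k_0_k40_11 (by decide +kernel) ?_
  refine allI_appQ (k := 3) cD8k_0_k40_12 (by decide +kernel) ?_
  refine allI_appQ (k := 3) cD8k_0_k40_13 (by decide +kernel) ?_
  refine allI_appQ (k := 2) cD8k_0_k40_14 (by decide +kernel) ?_
  refine allI_appQ (k := 3) cD8k_0_k40_15 (by decide +kernel) ?_
  refine allI_appQ (k := 3) cD8k_0_k40_16 (by decide +kernel) ?_
  refine allI_appQ (k := 3) cD8k_0_k40_17 (by decide +kernel) ?_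
  refine allI_appQ (k := 3) cD8k_0_k40_18 (by decide +kernel) ?_
  refine allI_appQ (k := 3) cD8k_0_k40_19 (by decide +kernel) ?_
  refine allI_appQ (k := 3) cD8k_0_k40_20 (by decide +kernel) ?_
  refine allI_appQ (k := 3) cD8k_0_k40_21 (by decide +kernel) ?_
  refine allI_appQ (k := 3) cD8k_0_k40_22 (by decide +kernel) ?_
  refine allI_appQ (k := 3) cD8k_0_k40_23 (by decide +kernel) ?_
  refine allI_appQ (k := 3) cD8k_0_k40_24 (by decide +kernel) ?_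
  refine allI_appQ (k := 3) cD8k_0_k40_25 (by decide +kernel) ?_
  refine allI_appQ (k := 3) cD8k_0_k40_26 (by decide +kernel) ?_
  refine allI_appQ (k := 2) cD8k_0_k40_27 (by decide +kernel) ?_
  refine allI_appQ (k := 1) cD8k_0_k40_28 (by decide +kernel) ?_
  refine allI_appQ (k := 2) cD8k_0_k40_29 (by decide +kernel) ?_
  refine allI_appQ (k := 2) cD8k_0_k40_30 (by decide +kernel) ?_
  refine allI_appQ (k := 2) cD8k_0_k40_31 (by decide +kernel) ?_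
  refine allI_appQ (k := 3) cD8k_0_k40_32 (by decide +kernel) ?_
  refine allI_appQ (k := 2) cD8k_0_k40_33 (by decide +kernel) ?_
  refine allI_appQ (k := 2) cD8k_0_k40_34 (by decide +kernel) ?_
  exact cD8k_0_k40_35

theorem cD8k_0_l40 : cD8k_0_n40.length = 93 := by
  decide +kernel

end Pool.Agent.Lib_MP_fa6e45
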