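import Pool.Agent.Lib_MP_fa6e45.DQ8k_0d
import Pool.Agent.Lib_MP_fa6e45.RD8k_41

/-!
MP_fa6e45_co, stage 9: straight-side patterns with `8` sides, part of a certificate (generated by a program).
-/

namespace Pool.Agent.Lib_MP_fa6e45

theorem cD8k_0_k41_0 : allI cD8k_0_c (rjL dJ cD8k_0_q rD8k_41_0) 6041 = true := by
  decide +kernel

theorem cD8k_0_k41_1 : allI cD8k_0_c (rjL dJ cD8k_0_q rD8k_41_1) 6044 = true := by
  decide +kernel

theorem cD8k_0_k41_2 : allI cD8k_0_c (rjL dJ cD8k_0_q rD8k_41_2) 6047 = true := by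
  decide +kernel

theorem cD8k_0_k41_3 : allI cD8k_0_c (rjL dJ cD8k_0_q rD8k_41_3) 6050 = true := by
  decide +kernel

theorem cD8k_0_k41_4 : allI cD8k_0_c (rjL dJ cD8k_0_q rD8k_41_4) 6052 = true := by
  decide +kernel

theorem cD8k_0_k41_5 : allI cD8k_0_c (rjL dJ cD8k_0_q rD8k_41_5) 6054 = true := by
  decide +kernel

theorem cD8k_0_k41_6 : allI cD8k_0_c (rjL dJ cD8k_0_q rD8k_41_6) 6056 = true := by
  decide +kernel

theorem cD8k_0_k41_7 : allI cD8k_0_c (rjL dJ cD8k_0_q rD8k_41_7) 6059 = true := by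
  decide +kernel

theorem cD8k_0_k41_8 : allI cD8k_0_c (rjL dJ cD8k_0_q rD8k_41_8) 6062 = true := by
  decide +kernel

theorem cD8k_0_k41_9 : allI cD8k_0_c (rjL dJ cD8k_0_q rD8k_41_9) 6063 = true := by
  decide +kernel

theorem cD8k_0_k41_10 : allI cD8k_0_c (rjL dJ cD8k_0_q rD8k_41_10) 6066 = true := by
  decide +kernel

theorem cD8k_0_k41_11 : allI cD8k_0_c (rjL dJ cD8k_0_q rD8k_41_11) 6069 = true := by
  decide +kernel

theorem cD8k_0_k41_12 : allI cD8k_0_c (rjL dJ cD8k_0_q rD8k_41_12) 6072 = true := by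
  decide +kernel

theorem cD8k_0_k41_13 : allI cD8k_0_c (rjL dJ cD8k_0_q rD8k_41_13) 6075 = true := by
  decide +kernel

theorem cD8k_0_k41_14 : allI cD8k_0_c (rjL dJ cD8k_0_q rD8k_41_14) 6078 = true := by
  decide +kernel

theorem cD8k_0_k41_15 : allI cD8k_0_c (rjL dJ cD8k_0_q rD8k_41_15) 6081 = true := by
  decide +kernel

theorem cD8k_0_k41_16 : allI cD8k_0_c (rjL dJ cD8k_0_q rD8k_41_16) 6083 = true := by
  decide +kernel

theorem cD8k_0_k41_17 : allI cD8k_0_c (rjL dJ cD8k_0_q rD8k_41_17) 6085 = true := by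
  decide +kernel

theorem cD8k_0_k41_18 : allI cD8k_0_c (rjL dJ cD8k_0_q rD8k_41_18) 6087 = true := by
  decide +kernel

theorem cD8k_0_k41_19 : allI cD8k_0_c (rjL dJ cD8k_0_q rD8k_41_19) 6088 = true := by
  decide +kernel

theorem cD8k_0_k41_20 : allI cD8k_0_c (rjL dJ cD8k_0_q rD8k_41_20) 6091 = true := by
  decide +kernel

theorem cD8k_0_k41_21 : allI cD8k_0_c (rjL dJ cD8k_0_q rD8k_41_21) 6092 = true := by
  decide +kernel

theorem cD8k_0_k41_22 : allI cD8k_0_c (rjL dJ cD8k_0_q rD8k_41_22) 6095 = true := by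
  decide +kernel

theorem cD8k_0_k41_23 : allI cD8k_0_c (rjL dJ cD8k_0_q rD8k_41_23) 6098 = true := by
  decide +kernel

theorem cD8k_0_k41_24 : allI cD8k_0_c (rjL dJ cD8k_0_q rD8k_41_24) 6101 = true := by
  decide +kernel

theorem cD8k_0_k41_25 : allI cD8k_0_c (rjL dJ cD8k_0_q rD8k_41_25) 6104 = true := by
  decide +kernel

theorem cD8k_0_k41_26 : allI cD8k_0_c (rjL dJ cD8k_0_q rD8k_41_26) 6107 = true := by
  decide +kernel

theorem cD8k_0_k41_27 : allI cD8k_0_c (rjL dJ cD8k_0_q rD8k_41_27) 6110 = true := by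
  decide +kernel

theorem cD8k_0_k41_28 : allI cD8k_0_c (rjL dJ cD8k_0_q rD8k_41_28) 6113 = true := by
  decide +kernel

theorem cD8k_0_k41_29 : allI cD8k_0_c (rjL dJ cD8k_0_q rD8k_41_29) 6116 = true := by
  decide +kernel

theorem cD8k_0_k41_30 : allI cD8k_0_c (rjL dJ cD8k_0_q rD8k_41_30) 6119 = true := by
  decide +kernel

theorem cD8k_0_k41_31 : allI cD8k_0_c (rjL dJ cD8k_0_q rD8k_41_31) 6122 = true := by
  decide +kernel

theorem cD8k_0_k41_32 : allI cD8k_0_c (rjL dJ cD8k_0_q rD8k_41_32) 6125 = true := by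
  decide +kernel

theorem cD8k_0_k41_33 : allI cD8k_0_c (rjL dJ cD8k_0_q rD8k_41_33) 6128 = true := by
  decide +kernel

theorem cD8k_0_k41_34 : allI cD8k_0_c (rjL dJ cD8k_0_q rD8k_41_34) 6131 = true := by
  decide +kernel

theorem cD8k_0_k41_35 : allI cD8k_0_c (rjL dJ cD8k_0_q rD8k_41_35) 6134 = true := by
  decide +kernel

theorem cD8k_0_k41_36 : allI cD8k_0_c (rjL dJ cD8k_0_q rD8k_41_36) 6137 = true := by
  decide +kernel

theorem cD8k_0_k41_37 : allI cD8k_0_c (rjL dJ cD8k_0_q rD8k_41_37) 6140 = true := by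
  decide +kernel

theorem cD8k_0_k41_38 : allI cD8k_0_c (rjL dJ cD8k_0_q rD8k_41_38) 6141 = true := by
  decide +kernel

/-- nodes -/
noncomputable def cD8k_0_n41 : List (QJ PN) :=
  rjL dJ cD8k_0_q rD8k_41_0 ++ (rjL dJ cD8k_0_q rD8k_41_1 ++ (rjL dJ cD8k_0_q rD8k_41_2 ++ (
    rjL dJ cD8k_0_q rD8k_41_3 ++ (rjL dJ cD8k_0_q rD8k_41_4 ++ (rjL dJ cD8k_0_q rD8k_41_5 ++ (
    rjL dJ cD8k_0_q rD8k_41_6 ++ (rjL dJ cD8k_0_q rD8k_41_7 ++ (rjL dJ cD8k_0_q rD8k_41_8 ++ (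
    rjL dJ cD8k_0_q rD8k_41_9 ++ (rjL dJ cD8k_0_q rD8k_41_10 ++ (rjL dJ cD8k_0_q rD8k_41_11 ++ (
    rjL dJ cD8k_0_q rD8k_41_12 ++ (rjL dJ cD8k_0_q rD8k_41_13 ++ (rjL dJ cD8k_0_q rD8k_41_14 ++ (
    rjL dJ cD8k_0_q rD8k_41_15 ++ (rjL dJ cD8k_0_q rD8k_41_16 ++ (rjL dJ cD8k_0_q rD8k_41_17 ++ (
    rjL dJ cD8k_0_q rD8k_41_18 ++ (rjL dJ cD8k_0_q rD8k_41_19 ++ (rjL dJ cD8k_0_q rD8k_41_20 ++ (
    rjL dJ cD8k_0_q rD8k_41_21 ++ (rjL dJ cD8k_0_q rD8k_41_22 ++ (rjL dJ cD8k_0_q rD8k_41_23 ++ (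
    rjL dJ cD8k_0_q rD8k_41_24 ++ (rjL dJ cD8k_0_q rD8k_41_25 ++ (rjL dJ cD8k_0_q rD8k_41_26 ++ (
    rjL dJ cD8k_0_q rD8k_41_27 ++ (rjL dJ cD8k_0_q rD8k_41_28 ++ (rjL dJ cD8k_0_q rD8k_41_29 ++ (
    rjL dJ cD8k_0_q rD8k_41_30 ++ (rjL dJ cD8k_0_q rD8k_41_31 ++ (rjL dJ cD8k_0_q rD8k_41_32 ++ (
    rjL dJ cD8k_0_q rD8k_41_33 ++ (rjL dJ cD8k_0_q rD8k_41_34 ++ (rjL dJ cD8k_0_q rD8k_41_35 ++ (
    rjL dJ cD8k_0_q rD8k_41_36 ++ (rjL dJ cD8k_0_q rD8k_41_37 ++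
    rjL dJ cD8k_0_q rD8k_41_38)))))))))))))))))))))))))))))))))))))

theorem cD8k_0_k41 : allI cD8k_0_c cD8k_0_n41 6041 = true := by
  refine allI_appQ (k := 3) cD8k_0_k41_0 (by decide +kernel) ?_
  refine allI_appQ (k := 3) cD8k_0_k41_1 (by decide +kernel) ?_
  refine allI_appQ (k := 3) cD8k_0_k41_2 (by decide +kernel) ?_
  refine allI_appQ (k := 2) cD8k_0_k41_3 (by decide +kernel) ?_
  refine allI_appQ (k := 2) cD8k_0_k41_4 (by decide +kernel) ?_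
  refine allI_appQ (k := 2) cD8k_0_k41_5 (by decide +kernel) ?_
  refine allI_appQ (k := 3) cD8k_0_k41_6 (by decide +kernel) ?_
  refine allI_appQ (k := 3) cD8k_0_k41_7 (by decide +kernel) ?_
  refine allI_appQ (k := 1) cD8k_0_k41_8 (by decide +kernel) ?_
  refine allI_appQ (k := 3) cD8k_0_k41_9 (by decide +kernel) ?_
  refine allI_appQ (k := 3) cD8k_0_k41_10 (by decide +kernel) ?_
  refine allI_appQ (k := 3) cD8k_0_k41_11 (by decide +kernel) ?_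
  refine allI_appQ (k := 3) cD8k_0_k41_12 (by decide +kernel) ?_
  refine allI_appQ (k := 3) cD8k_0_k41_13 (by decide +kernel) ?_
  refine allI_appQ (k := 3) cD8k_0_k41_14 (by decide +kernel) ?_
  refine allI_appQ (k := 2) cD8k_0_k41_15 (by decide +kernel) ?_
  refine allI_appQ (k := 2) cD8k_0_k41_16 (by decide +kernel) ?_
  refine allI_appQ (k := 2) cD8k_0_k41_17 (by decide +kernel) ?_
  refine allI_appQ (k := 1) cD8k_0_k41_18 (by decide +kernel) ?_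
  refine allI_appQ (k := 3) cD8k_0_k41_19 (by decide +kernel) ?_
  refine allI_appQ (k := 1) cD8k_0_k41_20 (by decide +kernel) ?_
  refine allI_appQ (k := 3) cD8k_0_k41_21 (by decide +kernel) ?_
  refine allI_appQ (k := 3) cD8k_0_k41_22 (by decide +kernel) ?_
  refine allI_appQ (k := 3) cD8k_0_k41_23 (by decide +kernel) ?_
  refine allI_appQ (k := 3) cD8k_0_k41_24 (by decide +kernel) ?_
  refine allI_appQ (k := 3) cD8k_0_k41_25 (by decide +kernel) ?_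
  refine allI_appQ (k := 3) cD8k_0_k41_26 (by decide +kernel) ?_
  refine allI_appQ (k := 3) cD8k_0_k41_27 (by decide +kernel) ?_
  refine allI_appQ (k := 3) cD8k_0_k41_28 (by decide +kernel) ?_
  refine allI_appQ (k := 3) cD8k_0_k41_29 (by decide +kernel) ?_
  refine allI_appQ (k := 3) cD8k_0_k41_30 (by decide +kernel) ?_
  refine allI_appQ (k := 3) cD8k_0_k41_31 (by decide +kernel) ?_
  refine allI_appQ (k := 3) cD8k_0_k41_32 (by decide +kernel) ?_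
  refine allI_appQ (k := 3) cD8k_0_k41_33 (by decide +kernel) ?_
  refine allI_appQ (k := 3) cD8k_0_k41_34 (by decide +kernel) ?_
  refine allI_appQ (k := 3) cD8k_0_k41_35 (by decide +kernel) ?_
  refine allI_appQ (k := 3) cD8k_0_k41_36 (by decide +kernel) ?_
  refine allI_appQ (k := 1) cD8k_0_k41_37 (by decide +kernel) ?_
  exact cD8k_0_k41_38

theorem cD8k_0_l41 : cD8k_0_n41.length = 101 := by
  decide +kernel

end Pool.Agent.Lib_MP_fa6e45
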