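import Pool.Agent.Lib_MP_fa6e45.DQ8k_0d
import Pool.Agent.Lib_MP_fa6e45.RD8k_42

/-!
MP_fa6e45_co, stage 9: straight-side patterns with `8` sides, part of a certificate (generated by a program).
-/

namespace Pool.Agent.Lib_MP_fa6e45

theorem cD8k_0_k42_0 : allI cD8k_0_c (rjL dJ cD8k_0_q rD8k_42_0) 6142 = true := by
  decide +kernel

theorem cD8k_0_k42_1 : allI cD8k_0_c (rjL dJ cD8k_0_q rD8k_42_1) 6143 = true := by
  decide +kernel

theorem cD8k_0_k42_2 : allI cD8k_0_c (rjL dJ cD8k_0_q rD8k_42_2) 6144 = true := by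
  decide +kernel

theorem cD8k_0_k42_3 : allI cD8k_0_c (rjL dJ cD8k_0_q rD8k_42_3) 6145 = true := by
  decide +kernel

theorem cD8k_0_k42_4 : allI cD8k_0_c (rjL dJ cD8k_0_q rD8k_42_4) 6146 = true := by
  decide +kernel

theorem cD8k_0_k42_5 : allI cD8k_0_c (rjL dJ cD8k_0_q rD8k_42_5) 6147 = true := by
  decide +kernel

theorem cD8k_0_k42_6 : allI cD8k_0_c (rjL dJ cD8k_0_q rD8k_42_6) 6148 = true := by
  decide +kernel

theorem cD8k_0_k42_7 : allI cD8k_0_c (rjL dJ cD8k_0_q rD8k_42_7) 6150 = true := by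
  decide +kernel

theorem cD8k_0_k42_8 : allI cD8k_0_c (rjL dJ cD8k_0_q rD8k_42_8) 6153 = true := by
  decide +kernel

theorem cD8k_0_k42_9 : allI cD8k_0_c (rjL dJ cD8k_0_q rD8k_42_9) 6156 = true := by
  decide +kernel

theorem cD8k_0_k42_10 : allI cD8k_0_c (rjL dJ cD8k_0_q rD8k_42_10) 6158 = true := by
  decide +kernel

theorem cD8k_0_k42_11 : allI cD8k_0_c (rjL dJ cD8k_0_q rD8k_42_11) 6161 = true := by
  decide +kernel

theorem cD8k_0_k42_12 : allI cD8k_0_c (rjL dJ cD8k_0_q rD8k_42_12) 6164 = true := by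
  decide +kernel

theorem cD8k_0_k42_13 : allI cD8k_0_c (rjL dJ cD8k_0_q rD8k_42_13) 6167 = true := by
  decide +kernel

theorem cD8k_0_k42_14 : allI cD8k_0_c (rjL dJ cD8k_0_q rD8k_42_14) 6170 = true := by
  decide +kernel

theorem cD8k_0_k42_15 : allI cD8k_0_c (rjL dJ cD8k_0_q rD8k_42_15) 6173 = true := by
  decide +kernel

theorem cD8k_0_k42_16 : allI cD8k_0_c (rjL dJ cD8k_0_q rD8k_42_16) 6176 = true := by
  decide +kernel

theorem cD8k_0_k42_17 : allI cD8k_0_c (rjL dJ cD8k_0_q rD8k_42_17) 6178 = true := by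
  decide +kernel

theorem cD8k_0_k42_18 : allI cD8k_0_c (rjL dJ cD8k_0_q rD8k_42_18) 6181 = true := by
  decide +kernel

theorem cD8k_0_k42_19 : allI cD8k_0_c (rjL dJ cD8k_0_q rD8k_42_19) 6183 = true := by
  decide +kernel

theorem cD8k_0_k42_20 : allI cD8k_0_c (rjL dJ cD8k_0_q rD8k_42_20) 6185 = true := by
  decide +kernel

theorem cD8k_0_k42_21 : allI cD8k_0_c (rjL dJ cD8k_0_q rD8k_42_21) 6187 = true := by
  decide +kernel

theorem cD8k_0_k42_22 : allI cD8k_0_c (rjL dJ cD8k_0_q rD8k_42_22) 6190 = true := by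
  decide +kernel

theorem cD8k_0_k42_23 : allI cD8k_0_c (rjL dJ cD8k_0_q rD8k_42_23) 6193 = true := by
  decide +kernel

theorem cD8k_0_k42_24 : allI cD8k_0_c (rjL dJ cD8k_0_q rD8k_42_24) 6196 = true := by
  decide +kernel

theorem cD8k_0_k42_25 : allI cD8k_0_c (rjL dJ cD8k_0_q rD8k_42_25) 6199 = true := by
  decide +kernel

theorem cD8k_0_k42_26 : allI cD8k_0_c (rjL dJ cD8k_0_q rD8k_42_26) 6202 = true := by
  decide +kernel

theorem cD8k_0_k42_27 : allI cD8k_0_c (rjL dJ cD8k_0_q rD8k_42_27) 6205 = true := by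
  decide +kernel

theorem cD8k_0_k42_28 : allI cD8k_0_c (rjL dJ cD8k_0_q rD8k_42_28) 6208 = true := by
  decide +kernel

theorem cD8k_0_k42_29 : allI cD8k_0_c (rjL dJ cD8k_0_q rD8k_42_29) 6211 = true := by
  decide +kernel

theorem cD8k_0_k42_30 : allI cD8k_0_c (rjL dJ cD8k_0_q rD8k_42_30) 6214 = true := by
  decide +kernel

theorem cD8k_0_k42_31 : allI cD8k_0_c (rjL dJ cD8k_0_q rD8k_42_31) 6217 = true := by
  decide +kernel

theorem cD8k_0_k42_32 : allI cD8k_0_c (rjL dJ cD8k_0_q rD8k_42_32) 6218 = true := by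
  decide +kernel

/-- nodes -/
noncomputable def cD8k_0_n42 : List (QJ PN) :=
  rjL dJ cD8k_0_q rD8k_42_0 ++ (rjL dJ cD8k_0_q rD8k_42_1 ++ (rjL dJ cD8k_0_q rD8k_42_2 ++ (
    rjL dJ cD8k_0_q rD8k_42_3 ++ (rjL dJ cD8k_0_q rD8k_42_4 ++ (rjL dJ cD8k_0_q rD8k_42_5 ++ (
    rjL dJ cD8k_0_q rD8k_42_6 ++ (rjL dJ cD8k_0_q rD8k_42_7 ++ (rjL dJ cD8k_0_q rD8k_42_8 ++ (
    rjL dJ cD8k_0_q rD8k_42_9 ++ (rjL dJ cD8k_0_q rD8k_42_10 ++ (rjL dJ cD8k_0_q rD8k_42_11 ++ (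
    rjL dJ cD8k_0_q rD8k_42_12 ++ (rjL dJ cD8k_0_q rD8k_42_13 ++ (rjL dJ cD8k_0_q rD8k_42_14 ++ (
    rjL dJ cD8k_0_q rD8k_42_15 ++ (rjL dJ cD8k_0_q rD8k_42_16 ++ (rjL dJ cD8k_0_q rD8k_42_17 ++ (
    rjL dJ cD8k_0_q rD8k_42_18 ++ (rjL dJ cD8k_0_q rD8k_42_19 ++ (rjL dJ cD8k_0_q rD8k_42_20 ++ (
    rjL dJ cD8k_0_q rD8k_42_21 ++ (rjL dJ cD8k_0_q rD8k_42_22 ++ (rjL dJ cD8k_0_q rD8k_42_23 ++ (
    rjL dJ cD8k_0_q rD8k_42_24 ++ (rjL dJ cD8k_0_q rD8k_42_25 ++ (rjL dJ cD8k_0_q rD8k_42_26 ++ (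
    rjL dJ cD8k_0_q rD8k_42_27 ++ (rjL dJ cD8k_0_q rD8k_42_28 ++ (rjL dJ cD8k_0_q rD8k_42_29 ++ (
    rjL dJ cD8k_0_q rD8k_42_30 ++ (rjL dJ cD8k_0_q rD8k_42_31 ++
    rjL dJ cD8k_0_q rD8k_42_32)))))))))))))))))))))))))))))))

theorem cD8k_0_k42 : allI cD8k_0_c cD8k_0_n42 6142 = true := by
  refine allI_appQ (k := 1) cD8k_0_k42_0 (by decide +kernel) ?_
  refine allI_appQ (k := 1) cD8k_0_k42_1 (by decide +kernel) ?_
  refine allI_appQ (k := 1) cD8k_0_k42_2 (by decide +kernel) ?_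
  refine allI_appQ (k := 1) cD8k_0_k42_3 (by decide +kernel) ?_
  refine allI_appQ (k := 1) cD8k_0_k42_4 (by decide +kernel) ?_
  refine allI_appQ (k := 1) cD8k_0_k42_5 (by decide +kernel) ?_
  refine allI_appQ (k := 2) cD8k_0_k42_6 (by decide +kernel) ?_
  refine allI_appQ (k := 3) cD8k_0_k42_7 (by decide +kernel) ?_
  refine allI_appQ (k := 3) cD8k_0_k42_8 (by decide +kernel) ?_
  refine allI_appQ (k := 2) cD8k_0_k42_9 (by decide +kernel) ?_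
  refine allI_appQ (k := 3) cD8k_0_k42_10 (by decide +kernel) ?_
  refine allI_appQ (k := 3) cD8k_0_k42_11 (by decide +kernel) ?_
  refine allI_appQ (k := 3) cD8k_0_k42_12 (by decide +kernel) ?_
  refine allI_appQ (k := 3) cD8k_0_k42_13 (by decide +kernel) ?_
  refine allI_appQ (k := 3) cD8k_0_k42_14 (by decide +kernel) ?_
  refine allI_appQ (k := 3) cD8k_0_k42_15 (by decide +kernel) ?_
  refine allI_appQ (k := 2) cD8k_0_k42_16 (by decide +kernel) ?_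
  refine allI_appQ (k := 3) cD8k_0_k42_17 (by decide +kernel) ?_
  refine allI_appQ (k := 2) cD8k_0_k42_18 (by decide +kernel) ?_
  refine allI_appQ (k := 2) cD8k_0_k42_19 (by decide +kernel) ?_
  refine allI_appQ (k := 2) cD8k_0_k42_20 (by decide +kernel) ?_
  refine allI_appQ (k := 3) cD8k_0_k42_21 (by decide +kernel) ?_
  refine allI_appQ (k := 3) cD8k_0_k42_22 (by decide +kernel) ?_
  refine allI_appQ (k := 3) cD8k_0_k42_23 (by decide +kernel) ?_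
  refine allI_appQ (k := 3) cD8k_0_k42_24 (by decide +kernel) ?_
  refine allI_appQ (k := 3) cD8k_0_k42_25 (by decide +kernel) ?_
  refine allI_appQ (k := 3) cD8k_0_k42_26 (by decide +kernel) ?_
  refine allI_appQ (k := 3) cD8k_0_k42_27 (by decide +kernel) ?_
  refine allI_appQ (k := 3) cD8k_0_k42_28 (by decide +kernel) ?_
  refine allI_appQ (k := 3) cD8k_0_k42_29 (by decide +kernel) ?_
  refine allI_appQ (k := 3) cD8k_0_k42_30 (by decide +kernel) ?_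
  refine allI_appQ (k := 1) cD8k_0_k42_31 (by decide +kernel) ?_
  exact cD8k_0_k42_32

theorem cD8k_0_l42 : cD8k_0_n42.length = 77 := by
  decide +kernel

end Pool.Agent.Lib_MP_fa6e45
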