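import Pool.Agent.Lib_MP_fa6e45.DQ8k_0d
import Pool.Agent.Lib_MP_fa6e45.RD8k_43

/-!
MP_fa6e45_co, stage 9: straight-side patterns with `8` sides, part of a certificate (generated by a program).
-/

namespace Pool.Agent.Lib_MP_fa6e45

theorem cD8k_0_k43_0 : allI cD8k_0_c (rjL dJ cD8k_0_q rD8k_43_0) 6219 = true := by
  decide +kernel

theorem cD8k_0_k43_1 : allI cD8k_0_c (rjL dJ cD8k_0_q rD8k_43_1) 6222 = true := by
  decide +kernel

theorem cD8k_0_k43_2 : allI cD8k_0_c (rjL dJ cD8k_0_q rD8k_43_2) 6225 = true := by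
  decide +kernel

theorem cD8k_0_k43_3 : allI cD8k_0_c (rjL dJ cD8k_0_q rD8k_43_3) 6228 = true := by
  decide +kernel

theorem cD8k_0_k43_4 : allI cD8k_0_c (rjL dJ cD8k_0_q rD8k_43_4) 6231 = true := by
  decide +kernel

theorem cD8k_0_k43_5 : allI cD8k_0_c (rjL dJ cD8k_0_q rD8k_43_5) 6234 = true := by
  decide +kernel

theorem cD8k_0_k43_6 : allI cD8k_0_c (rjL dJ cD8k_0_q rD8k_43_6) 6235 = true := by
  decide +kernel

theorem cD8k_0_k43_7 : allI cD8k_0_c (rjL dJ cD8k_0_q rD8k_43_7) 6236 = true := by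
  decide +kernel

theorem cD8k_0_k43_8 : allI cD8k_0_c (rjL dJ cD8k_0_q rD8k_43_8) 6239 = true := by
  decide +kernel

theorem cD8k_0_k43_9 : allI cD8k_0_c (rjL dJ cD8k_0_q rD8k_43_9) 6242 = true := by
  decide +kernel

theorem cD8k_0_k43_10 : allI cD8k_0_c (rjL dJ cD8k_0_q rD8k_43_10) 6245 = true := by
  decide +kernel

theorem cD8k_0_k43_11 : allI cD8k_0_c (rjL dJ cD8k_0_q rD8k_43_11) 6248 = true := by
  decide +kernel

theorem cD8k_0_k43_12 : allI cD8k_0_c (rjL dJ cD8k_0_q rD8k_43_12) 6251 = true := by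
  decide +kernel

theorem cD8k_0_k43_13 : allI cD8k_0_c (rjL dJ cD8k_0_q rD8k_43_13) 6254 = true := by
  decide +kernel

theorem cD8k_0_k43_14 : allI cD8k_0_c (rjL dJ cD8k_0_q rD8k_43_14) 6257 = true := by
  decide +kernel

theorem cD8k_0_k43_15 : allI cD8k_0_c (rjL dJ cD8k_0_q rD8k_43_15) 6260 = true := by
  decide +kernel

theorem cD8k_0_k43_16 : allI cD8k_0_c (rjL dJ cD8k_0_q rD8k_43_16) 6263 = true := by
  decide +kernel

theorem cD8k_0_k43_17 : allI cD8k_0_c (rjL dJ cD8k_0_q rD8k_43_17) 6266 = true := by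
  decide +kernel

theorem cD8k_0_k43_18 : allI cD8k_0_c (rjL dJ cD8k_0_q rD8k_43_18) 6269 = true := by
  decide +kernel

theorem cD8k_0_k43_19 : allI cD8k_0_c (rjL dJ cD8k_0_q rD8k_43_19) 6272 = true := by
  decide +kernel

theorem cD8k_0_k43_20 : allI cD8k_0_c (rjL dJ cD8k_0_q rD8k_43_20) 6275 = true := by
  decide +kernel

theorem cD8k_0_k43_21 : allI cD8k_0_c (rjL dJ cD8k_0_q rD8k_43_21) 6278 = true := by
  decide +kernel

theorem cD8k_0_k43_22 : allI cD8k_0_c (rjL dJ cD8k_0_q rD8k_43_22) 6281 = true := by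
  decide +kernel

theorem cD8k_0_k43_23 : allI cD8k_0_c (rjL dJ cD8k_0_q rD8k_43_23) 6284 = true := by
  decide +kernel

theorem cD8k_0_k43_24 : allI cD8k_0_c (rjL dJ cD8k_0_q rD8k_43_24) 6288 = true := by
  decide +kernel

theorem cD8k_0_k43_25 : allI cD8k_0_c (rjL dJ cD8k_0_q rD8k_43_25) 6292 = true := by
  decide +kernel

theorem cD8k_0_k43_26 : allI cD8k_0_c (rjL dJ cD8k_0_q rD8k_43_26) 6296 = true := by
  decide +kernel

theorem cD8k_0_k43_27 : allI cD8k_0_c (rjL dJ cD8k_0_q rD8k_43_27) 6300 = true := by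
  decide +kernel

/-- nodes -/
noncomputable def cD8k_0_n43 : List (QJ PN) :=
  rjL dJ cD8k_0_q rD8k_43_0 ++ (rjL dJ cD8k_0_q rD8k_43_1 ++ (rjL dJ cD8k_0_q rD8k_43_2 ++ (
    rjL dJ cD8k_0_q rD8k_43_3 ++ (rjL dJ cD8k_0_q rD8k_43_4 ++ (rjL dJ cD8k_0_q rD8k_43_5 ++ (
    rjL dJ cD8k_0_q rD8k_43_6 ++ (rjL dJ cD8k_0_q rD8k_43_7 ++ (rjL dJ cD8k_0_q rD8k_43_8 ++ (
    rjL dJ cD8k_0_q rD8k_43_9 ++ (rjL dJ cD8k_0_q rD8k_43_10 ++ (rjL dJ cD8k_0_q rD8k_43_11 ++ (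
    rjL dJ cD8k_0_q rD8k_43_12 ++ (rjL dJ cD8k_0_q rD8k_43_13 ++ (rjL dJ cD8k_0_q rD8k_43_14 ++ (
    rjL dJ cD8k_0_q rD8k_43_15 ++ (rjL dJ cD8k_0_q rD8k_43_16 ++ (rjL dJ cD8k_0_q rD8k_43_17 ++ (
    rjL dJ cD8k_0_q rD8k_43_18 ++ (rjL dJ cD8k_0_q rD8k_43_19 ++ (rjL dJ cD8k_0_q rD8k_43_20 ++ (
    rjL dJ cD8k_0_q rD8k_43_21 ++ (rjL dJ cD8k_0_q rD8k_43_22 ++ (rjL dJ cD8k_0_q rD8k_43_23 ++ (
    rjL dJ cD8k_0_q rD8k_43_24 ++ (rjL dJ cD8k_0_q rD8k_43_25 ++ (rjL dJ cD8k_0_q rD8k_43_26 ++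
    rjL dJ cD8k_0_q rD8k_43_27))))))))))))))))))))))))))

theorem cD8k_0_k43 : allI cD8k_0_c cD8k_0_n43 6219 = true := by
  refine allI_appQ (k := 3) cD8k_0_k43_0 (by decide +kernel) ?_
  refine allI_appQ (k := 3) cD8k_0_k43_1 (by decide +kernel) ?_
  refine allI_appQ (k := 3) cD8k_0_k43_2 (by decide +kernel) ?_
  refine allI_appQ (k := 3) cD8k_0_k43_3 (by decide +kernel) ?_
  refine allI_appQ (k := 3) cD8k_0_k43_4 (by decide +kernel) ?_
  refine allI_appQ (k := 1) cD8k_0_k43_5 (by decide +kernel) ?_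
  refine allI_appQ (k := 1) cD8k_0_k43_6 (by decide +kernel) ?_
  refine allI_appQ (k := 3) cD8k_0_k43_7 (by decide +kernel) ?_
  refine allI_appQ (k := 3) cD8k_0_k43_8 (by decide +kernel) ?_
  refine allI_appQ (k := 3) cD8k_0_k43_9 (by decide +kernel) ?_
  refine allI_appQ (k := 3) cD8k_0_k43_10 (by decide +kernel) ?_
  refine allI_appQ (k := 3) cD8k_0_k43_11 (by decide +kernel) ?_
  refine allI_appQ (k := 3) cD8k_0_k43_12 (by decide +kernel) ?_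
  refine allI_appQ (k := 3) cD8k_0_k43_13 (by decide +kernel) ?_
  refine allI_appQ (k := 3) cD8k_0_k43_14 (by decide +kernel) ?_
  refine allI_appQ (k := 3) cD8k_0_k43_15 (by decide +kernel) ?_
  refine allI_appQ (k := 3) cD8k_0_k43_16 (by decide +kernel) ?_
  refine allI_appQ (k := 3) cD8k_0_k43_17 (by decide +kernel) ?_
  refine allI_appQ (k := 3) cD8k_0_k43_18 (by decide +kernel) ?_
  refine allI_appQ (k := 3) cD8k_0_k43_19 (by decide +kernel) ?_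
  refine allI_appQ (k := 3) cD8k_0_k43_20 (by decide +kernel) ?_
  refine allI_appQ (k := 3) cD8k_0_k43_21 (by decide +kernel) ?_
  refine allI_appQ (k := 3) cD8k_0_k43_22 (by decide +kernel) ?_
  refine allI_appQ (k := 4) cD8k_0_k43_23 (by decide +kernel) ?_
  refine allI_appQ (k := 4) cD8k_0_k43_24 (by decide +kernel) ?_
  refine allI_appQ (k := 4) cD8k_0_k43_25 (by decide +kernel) ?_
  refine allI_appQ (k := 4) cD8k_0_k43_26 (by decide +kernel) ?_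
  exact cD8k_0_k43_27

theorem cD8k_0_l43 : cD8k_0_n43.length = 82 := by
  decide +kernel

end Pool.Agent.Lib_MP_fa6e45
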