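import Pool.Agent.Lib_MP_fa6e45.RJ0

/-!
MP_fa6e45_co, stage 9: straight-side patterns with `8` sides, raw data (generated by a program).
-/

namespace Pool.Agent.Lib_MP_fa6e45

/-- nodes -/
noncomputable def rD8k_5_0 : List RJ :=
  [.s (nat_lit 15) (nat_lit 0x1180) (nat_lit 3) (nat_lit 0x88b0000088b000007b9000007b90000074900000749000006f7000006f7000006db000006db000006cd000006cd000007b2000007b20000082200000822) (nat_lit 0xd2000000d200000142000001420000019400000194000001b0000001b0000001be000001be000000d9000000d90000006900000069)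
    (nat_lit 0xd42222c3dc852b0f3a214c37b86f70e0a1c1420a86cd0f641ec841106d211161a843dc87b911ee26b437b86f70cba1b6c36686cd07fc1bf055809600f7214ac24186e70cee19dc31284770c12182435886790b441b8049d0b040f721ee437384830c2a19dc41a86870a52169c31985fb0dc018a83230810135a214c33b86770b4a181c30b86170b320e24320866b0b6018e037006e011ee1e7430a86770c0e169430485b50b3216642ef86090ce019c037006e00dee1bdc34384770b6a185c2b18563099213cc29c85390c3c172831d068e0dee1bdc41a86250c12185c2b185630a8e151c28785390d1c187833206640db61c142d386090b320e242a384f30a5614ac28e851d0c5818b033906020cba1c1429486090b3216642a384c90a5614ac28e851d0c5818b033906480d9a1b342fd86790c1219ac29c85390a3a1474272850f0c3c17d031d063a0d9a105431986b10bbe190428785390a3a147428784e5091817d033206640df81ec831506e00ce018e030f05ca0c5818b02fa05f40db21b6450088b107fc1ec837005a20ce016c0347061e0c5818b0246061e0db21b6444c874912c01b484080b040dc01b80332068e0c901808332063a0e9222c43dc87b915602088323093a0dc01b80332063a0ce419c8332063a113228043dc87b9)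
    (nat_lit 0xd4246008c01180230046008c01180230046008c01180230046008c0118011161a848c01180230046008c01180230046008c01180230046008c011800f721ee42419180230046008c01180230046008c01180230046008c011800a561ee43738483230046008c01180230046008c01180230046008c011800f3a23dc33b86150b4a46008c01180230046008c01180230046008c0118010a626b433b86770c0e16948c01180230046008c01180230046008c011800dee1bdc31288350c2e18242b19180230046008c01180230046008c011800dee1bdc23b86870c2e16d42b18563230046008c01180230046008c011800e0a197430485290b32166426485470a5646008c01180230046008c011800e0a1b6c30485a70712166427985470a5614ac8c01180230046008c01180082a1b3435886330c82177c29c850f0a3a14742729180230046008c011800d9a1b3433c85fb0cd6182429c85390a3a147428784e5230046008c011800f640ff82d106e00b6019c030f068e0c5818b030f048c0db246008c011800f641bf0370062a0c7019c02e5061e0c5818b02fa05f40db21b648c0118010442ac049d06460dc01b8031d06640ce419c831d0664140222643dc91800da4258056d88100dc01b8034706640c04192031d066411621d243dc87b9)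
    (nat_lit 6) (nat_lit 79)
    [[nat_lit 0,nat_lit 2],[nat_lit 0,nat_lit 3],[nat_lit 0,nat_lit 4,nat_lit 6],[nat_lit 0,nat_lit 4,nat_lit 7],
    [nat_lit 0,nat_lit 5,nat_lit 7],[nat_lit 0,nat_lit 6,nat_lit 4],[nat_lit 0,nat_lit 6,nat_lit 5],[nat_lit 0,
    nat_lit 6,nat_lit 8],[nat_lit 0,nat_lit 7,nat_lit 4],[nat_lit 0,nat_lit 7,nat_lit 8],[nat_lit 0,nat_lit 7,
    nat_lit 9],[nat_lit 0,nat_lit 9,nat_lit 7],[nat_lit 0,nat_lit 12],[nat_lit 0,nat_lit 13],[nat_lit 1,nat_lit 2],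
    [nat_lit 1,nat_lit 3],[nat_lit 1,nat_lit 4,nat_lit 7],[nat_lit 1,nat_lit 5,nat_lit 6],[nat_lit 1,nat_lit 5,
    nat_lit 7],[nat_lit 1,nat_lit 6,nat_lit 4],[nat_lit 1,nat_lit 6,nat_lit 5],[nat_lit 1,nat_lit 6,nat_lit 8],
    [nat_lit 1,nat_lit 7,nat_lit 5],[nat_lit 1,nat_lit 8,nat_lit 6],[nat_lit 1,nat_lit 9,nat_lit 6],[nat_lit 1,
    nat_lit 9,nat_lit 7],[nat_lit 1,nat_lit 12],[nat_lit 1,nat_lit 13],[nat_lit 2,nat_lit 2,nat_lit 5],[nat_lit 2,
    nat_lit 4,nat_lit 13],[nat_lit 2,nat_lit 5,nat_lit 2],[nat_lit 2,nat_lit 5,nat_lit 12],[nat_lit 2,nat_lit 5,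
    nat_lit 13],[nat_lit 2,nat_lit 9,nat_lit 12],[nat_lit 2,nat_lit 13,nat_lit 8],[nat_lit 2,nat_lit 14,nat_lit 6],
    [nat_lit 2,nat_lit 14,nat_lit 7],[nat_lit 2,nat_lit 15,nat_lit 6],[nat_lit 2,nat_lit 15,nat_lit 7],[nat_lit 3,
    nat_lit 3,nat_lit 4],[nat_lit 3,nat_lit 4,nat_lit 3],[nat_lit 3,nat_lit 6,nat_lit 14],[nat_lit 3,nat_lit 6,
    nat_lit 15],[nat_lit 3,nat_lit 7,nat_lit 14],[nat_lit 3,nat_lit 7,nat_lit 15],[nat_lit 3,nat_lit 9,nat_lit 12],
    [nat_lit 3,nat_lit 12,nat_lit 4],[nat_lit 3,nat_lit 12,nat_lit 5],[nat_lit 3,nat_lit 13,nat_lit 4],[nat_lit 3,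
    nat_lit 13,nat_lit 8],[nat_lit 4,nat_lit 4,nat_lit 10],[nat_lit 4,nat_lit 4,nat_lit 11],[nat_lit 4,nat_lit 5,
    nat_lit 10],[nat_lit 4,nat_lit 5,nat_lit 11],[nat_lit 4,nat_lit 7,nat_lit 13,nat_lit 8],[nat_lit 4,nat_lit 8,
    nat_lit 6,nat_lit 12],[nat_lit 4,nat_lit 8,nat_lit 10],[nat_lit 4,nat_lit 9,nat_lit 10],[nat_lit 4,nat_lit 9,
    nat_lit 11],[nat_lit 4,nat_lit 10,nat_lit 4],[nat_lit 4,nat_lit 10,nat_lit 5],[nat_lit 4,nat_lit 10,nat_lit 8],
    [nat_lit 4,nat_lit 11,nat_lit 4],[nat_lit 4,nat_lit 11,nat_lit 5],[nat_lit 4,nat_lit 11,nat_lit 8],[nat_lit 4,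
    nat_lit 11,nat_lit 9],[nat_lit 4,nat_lit 12,nat_lit 12],[nat_lit 4,nat_lit 13,nat_lit 12],[nat_lit 4,nat_lit 13,
    nat_lit 13],[nat_lit 5,nat_lit 5,nat_lit 10],[nat_lit 5,nat_lit 5,nat_lit 11],[nat_lit 5,nat_lit 8,nat_lit 10],
    [nat_lit 5,nat_lit 9,nat_lit 10],[nat_lit 5,nat_lit 9,nat_lit 11],[nat_lit 5,nat_lit 9,nat_lit 12,nat_lit 6],
    [nat_lit 5,nat_lit 10,nat_lit 5],[nat_lit 5,nat_lit 10,nat_lit 8],[nat_lit 5,nat_lit 11,nat_lit 5],[nat_lit 5,
    nat_lit 11,nat_lit 8],[nat_lit 5,nat_lit 11,nat_lit 9],[nat_lit 5,nat_lit 12,nat_lit 12],[nat_lit 5,nat_lit 13,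
    nat_lit 7,nat_lit 9],[nat_lit 5,nat_lit 13,nat_lit 12],[nat_lit 5,nat_lit 13,nat_lit 13],[nat_lit 6,nat_lit 8,
    nat_lit 6,nat_lit 15],[nat_lit 6,nat_lit 8,nat_lit 9,nat_lit 12],[nat_lit 6,nat_lit 13,nat_lit 9,nat_lit 9],
    [nat_lit 6,nat_lit 13,nat_lit 14],[nat_lit 6,nat_lit 13,nat_lit 15],[nat_lit 6,nat_lit 15,nat_lit 6,nat_lit 8],
    [nat_lit 6,nat_lit 15,nat_lit 12],[nat_lit 7,nat_lit 8,nat_lit 8,nat_lit 12],[nat_lit 7,nat_lit 9,nat_lit 7,
    nat_lit 14],[nat_lit 7,nat_lit 13,nat_lit 8,nat_lit 9],[nat_lit 7,nat_lit 13,nat_lit 14],[nat_lit 7,nat_lit 14,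
    nat_lit 7,nat_lit 9],[nat_lit 7,nat_lit 14,nat_lit 12],[nat_lit 7,nat_lit 15,nat_lit 12],[nat_lit 8,nat_lit 8,
    nat_lit 10],[nat_lit 8,nat_lit 8,nat_lit 11],[nat_lit 8,nat_lit 9,nat_lit 10],[nat_lit 8,nat_lit 9,nat_lit 11],
    [nat_lit 8,nat_lit 10,nat_lit 8],[nat_lit 8,nat_lit 11,nat_lit 8],[nat_lit 8,nat_lit 12,nat_lit 12],[nat_lit 8,
    nat_lit 13,nat_lit 13],[nat_lit 9,nat_lit 9,nat_lit 10],[nat_lit 9,nat_lit 9,nat_lit 11],[nat_lit 9,nat_lit 10,
    nat_lit 9],[nat_lit 9,nat_lit 11,nat_lit 9],[nat_lit 9,nat_lit 12,nat_lit 12],[nat_lit 9,nat_lit 13,nat_lit 13],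
    [nat_lit 10,nat_lit 14],[nat_lit 10,nat_lit 15],[nat_lit 11,nat_lit 14],[nat_lit 11,nat_lit 15]]
    [nat_lit 258,nat_lit 259,nat_lit 0x1046,nat_lit 0x1047,nat_lit 0x1057,nat_lit 0x1064,nat_lit 0x1065,
    nat_lit 0x1068,nat_lit 0x1074,nat_lit 0x1078,nat_lit 0x1079,nat_lit 0x1097,nat_lit 268,nat_lit 269,nat_lit 274,
    nat_lit 275,nat_lit 0x1147,nat_lit 0x1156,nat_lit 0x1157,nat_lit 0x1164,nat_lit 0x1165,nat_lit 0x1168,
    nat_lit 0x1175,nat_lit 0x1186,nat_lit 0x1196,nat_lit 0x1197,nat_lit 284,nat_lit 285,nat_lit 0x1225,nat_lit 0x124d,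
    nat_lit 0x1252,nat_lit 0x125c,nat_lit 0x125d,nat_lit 0x129c,nat_lit 0x12d8,nat_lit 0x12e6,nat_lit 0x12e7,
    nat_lit 0x12f6,nat_lit 0x12f7,nat_lit 0x1334,nat_lit 0x1343,nat_lit 0x136e,nat_lit 0x136f,nat_lit 0x137e,
    nat_lit 0x137f,nat_lit 0x139c,nat_lit 0x13c4,nat_lit 0x13c5,nat_lit 0x13d4,nat_lit 0x13d8,nat_lit 0x144a,
    nat_lit 0x144b,nat_lit 0x145a,nat_lit 0x145b,nat_lit 0x147d8,nat_lit 0x1486c,nat_lit 0x148a,nat_lit 0x149a,
    nat_lit 0x149b,nat_lit 0x14a4,nat_lit 0x14a5,nat_lit 0x14a8,nat_lit 0x14b4,nat_lit 0x14b5,nat_lit 0x14b8,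
    nat_lit 0x14b9,nat_lit 0x14cc,nat_lit 0x14dc,nat_lit 0x14dd,nat_lit 0x155a,nat_lit 0x155b,nat_lit 0x158a,
    nat_lit 0x159a,nat_lit 0x159b,nat_lit 0x159c6,nat_lit 0x15a5,nat_lit 0x15a8,nat_lit 0x15b5,nat_lit 0x15b8,
    nat_lit 0x15b9,nat_lit 0x15cc,nat_lit 0x15d79,nat_lit 0x15dc,nat_lit 0x15dd,nat_lit 0x1686f,nat_lit 0x1689c,
    nat_lit 0x16d99,nat_lit 0x16de,nat_lit 0x16df,nat_lit 0x16f68,nat_lit 0x16fc,nat_lit 0x1788c,nat_lit 0x1797e,
    nat_lit 0x17d89,nat_lit 0x17de,nat_lit 0x17e79,nat_lit 0x17ec,nat_lit 0x17fc,nat_lit 0x188a,nat_lit 0x188b,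
    nat_lit 0x189a,nat_lit 0x189b,nat_lit 0x18a8,nat_lit 0x18b8,nat_lit 0x18cc,nat_lit 0x18dd,nat_lit 0x199a,
    nat_lit 0x199b,nat_lit 0x19a9,nat_lit 0x19b9,nat_lit 0x19cc,nat_lit 0x19dd,nat_lit 430,nat_lit 431,nat_lit 446,
    nat_lit 447]
    [[[nat_lit 0,nat_lit 2],[nat_lit 0,nat_lit 3],[nat_lit 0,nat_lit 4,nat_lit 6],[nat_lit 0,nat_lit 4,nat_lit 7],
    [nat_lit 0,nat_lit 5,nat_lit 7],[nat_lit 0,nat_lit 6,nat_lit 4],[nat_lit 0,nat_lit 6,nat_lit 5],[nat_lit 0,
    nat_lit 6,nat_lit 8],[nat_lit 0,nat_lit 7,nat_lit 4],[nat_lit 0,nat_lit 7,nat_lit 8],[nat_lit 0,nat_lit 7,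
    nat_lit 9],[nat_lit 0,nat_lit 9,nat_lit 7]],[[nat_lit 0,nat_lit 12],[nat_lit 0,nat_lit 13],[nat_lit 1,nat_lit 2],
    [nat_lit 1,nat_lit 3],[nat_lit 1,nat_lit 4,nat_lit 7],[nat_lit 1,nat_lit 5,nat_lit 6],[nat_lit 1,nat_lit 5,
    nat_lit 7],[nat_lit 1,nat_lit 6,nat_lit 4],[nat_lit 1,nat_lit 6,nat_lit 5],[nat_lit 1,nat_lit 6,nat_lit 8],
    [nat_lit 1,nat_lit 7,nat_lit 5],[nat_lit 1,nat_lit 8,nat_lit 6]],[[nat_lit 1,nat_lit 9,nat_lit 6],[nat_lit 1,
    nat_lit 9,nat_lit 7],[nat_lit 1,nat_lit 12],[nat_lit 1,nat_lit 13],[nat_lit 2,nat_lit 0],[nat_lit 2,nat_lit 1],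
    [nat_lit 2,nat_lit 2,nat_lit 5],[nat_lit 2,nat_lit 4,nat_lit 13],[nat_lit 2,nat_lit 5,nat_lit 2],[nat_lit 2,
    nat_lit 5,nat_lit 12],[nat_lit 2,nat_lit 5,nat_lit 13],[nat_lit 2,nat_lit 9,nat_lit 12]],[[nat_lit 2,nat_lit 13,
    nat_lit 8],[nat_lit 2,nat_lit 14,nat_lit 6],[nat_lit 2,nat_lit 14,nat_lit 7],[nat_lit 2,nat_lit 15,nat_lit 6],
    [nat_lit 2,nat_lit 15,nat_lit 7],[nat_lit 3,nat_lit 0],[nat_lit 3,nat_lit 1],[nat_lit 3,nat_lit 3,nat_lit 4],
    [nat_lit 3,nat_lit 4,nat_lit 3],[nat_lit 3,nat_lit 6,nat_lit 14],[nat_lit 3,nat_lit 6,nat_lit 15],[nat_lit 3,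
    nat_lit 7,nat_lit 14]],[[nat_lit 3,nat_lit 7,nat_lit 15],[nat_lit 3,nat_lit 9,nat_lit 12],[nat_lit 3,nat_lit 12,
    nat_lit 4],[nat_lit 3,nat_lit 12,nat_lit 5],[nat_lit 3,nat_lit 13,nat_lit 4],[nat_lit 3,nat_lit 13,nat_lit 8],
    [nat_lit 4,nat_lit 0,nat_lit 6],[nat_lit 4,nat_lit 0,nat_lit 7],[nat_lit 4,nat_lit 1,nat_lit 6],[nat_lit 4,
    nat_lit 3,nat_lit 3],[nat_lit 4,nat_lit 3,nat_lit 12],[nat_lit 4,nat_lit 3,nat_lit 13]],[[nat_lit 4,nat_lit 4,
    nat_lit 10],[nat_lit 4,nat_lit 4,nat_lit 11],[nat_lit 4,nat_lit 5,nat_lit 10],[nat_lit 4,nat_lit 5,nat_lit 11],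
    [nat_lit 4,nat_lit 6,nat_lit 0],[nat_lit 4,nat_lit 7,nat_lit 0],[nat_lit 4,nat_lit 7,nat_lit 1],[nat_lit 4,
    nat_lit 7,nat_lit 13,nat_lit 8],[nat_lit 4,nat_lit 8,nat_lit 6,nat_lit 12],[nat_lit 4,nat_lit 8,nat_lit 10],
    [nat_lit 4,nat_lit 9,nat_lit 10],[nat_lit 4,nat_lit 9,nat_lit 11]],[[nat_lit 4,nat_lit 10,nat_lit 4],[nat_lit 4,
    nat_lit 10,nat_lit 5],[nat_lit 4,nat_lit 10,nat_lit 8],[nat_lit 4,nat_lit 11,nat_lit 4],[nat_lit 4,nat_lit 11,
    nat_lit 5],[nat_lit 4,nat_lit 11,nat_lit 8],[nat_lit 4,nat_lit 11,nat_lit 9],[nat_lit 4,nat_lit 12,nat_lit 12],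
    [nat_lit 4,nat_lit 13,nat_lit 2],[nat_lit 4,nat_lit 13,nat_lit 12],[nat_lit 4,nat_lit 13,nat_lit 13],[nat_lit 5,
    nat_lit 0,nat_lit 6]],[[nat_lit 5,nat_lit 1,nat_lit 6],[nat_lit 5,nat_lit 1,nat_lit 7],[nat_lit 5,nat_lit 2,
    nat_lit 2],[nat_lit 5,nat_lit 3,nat_lit 12],[nat_lit 5,nat_lit 4,nat_lit 10],[nat_lit 5,nat_lit 4,nat_lit 11],
    [nat_lit 5,nat_lit 5,nat_lit 10],[nat_lit 5,nat_lit 5,nat_lit 11],[nat_lit 5,nat_lit 6,nat_lit 1],[nat_lit 5,
    nat_lit 7,nat_lit 0],[nat_lit 5,nat_lit 7,nat_lit 1],[nat_lit 5,nat_lit 8,nat_lit 10]],[[nat_lit 5,nat_lit 9,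
    nat_lit 10],[nat_lit 5,nat_lit 9,nat_lit 11],[nat_lit 5,nat_lit 9,nat_lit 12,nat_lit 6],[nat_lit 5,nat_lit 10,
    nat_lit 4],[nat_lit 5,nat_lit 10,nat_lit 5],[nat_lit 5,nat_lit 10,nat_lit 8],[nat_lit 5,nat_lit 11,nat_lit 4],
    [nat_lit 5,nat_lit 11,nat_lit 5],[nat_lit 5,nat_lit 11,nat_lit 8],[nat_lit 5,nat_lit 11,nat_lit 9],[nat_lit 5,
    nat_lit 12,nat_lit 2],[nat_lit 5,nat_lit 12,nat_lit 12]],[[nat_lit 5,nat_lit 13,nat_lit 2],[nat_lit 5,nat_lit 13,
    nat_lit 7,nat_lit 9],[nat_lit 5,nat_lit 13,nat_lit 12],[nat_lit 5,nat_lit 13,nat_lit 13],[nat_lit 6,nat_lit 0,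
    nat_lit 4],[nat_lit 6,nat_lit 1,nat_lit 5],[nat_lit 6,nat_lit 1,nat_lit 8],[nat_lit 6,nat_lit 1,nat_lit 9],
    [nat_lit 6,nat_lit 2,nat_lit 14],[nat_lit 6,nat_lit 2,nat_lit 15],[nat_lit 6,nat_lit 4,nat_lit 0],[nat_lit 6,
    nat_lit 4,nat_lit 1]],[[nat_lit 6,nat_lit 5,nat_lit 0],[nat_lit 6,nat_lit 5,nat_lit 1],[nat_lit 6,nat_lit 5,
    nat_lit 9,nat_lit 12],[nat_lit 6,nat_lit 8,nat_lit 0],[nat_lit 6,nat_lit 8,nat_lit 1],[nat_lit 6,nat_lit 8,
    nat_lit 6,nat_lit 15],[nat_lit 6,nat_lit 8,nat_lit 9,nat_lit 12],[nat_lit 6,nat_lit 12,nat_lit 4,nat_lit 8],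
    [nat_lit 6,nat_lit 13,nat_lit 9,nat_lit 9],[nat_lit 6,nat_lit 13,nat_lit 14],[nat_lit 6,nat_lit 13,nat_lit 15],
    [nat_lit 6,nat_lit 14,nat_lit 3]],[[nat_lit 6,nat_lit 15,nat_lit 3],[nat_lit 6,nat_lit 15,nat_lit 6,nat_lit 8],
    [nat_lit 6,nat_lit 15,nat_lit 12],[nat_lit 7,nat_lit 0,nat_lit 4],[nat_lit 7,nat_lit 0,nat_lit 5],[nat_lit 7,
    nat_lit 0,nat_lit 9],[nat_lit 7,nat_lit 1,nat_lit 4],[nat_lit 7,nat_lit 1,nat_lit 5],[nat_lit 7,nat_lit 1,
    nat_lit 9],[nat_lit 7,nat_lit 2,nat_lit 14],[nat_lit 7,nat_lit 2,nat_lit 15],[nat_lit 7,nat_lit 4,nat_lit 0]],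
    [[nat_lit 7,nat_lit 5,nat_lit 1],[nat_lit 7,nat_lit 8,nat_lit 0],[nat_lit 7,nat_lit 8,nat_lit 8,nat_lit 12],
    [nat_lit 7,nat_lit 9,nat_lit 0],[nat_lit 7,nat_lit 9,nat_lit 5,nat_lit 13],[nat_lit 7,nat_lit 9,nat_lit 7,
    nat_lit 14],[nat_lit 7,nat_lit 13,nat_lit 8,nat_lit 4],[nat_lit 7,nat_lit 13,nat_lit 8,nat_lit 9],[nat_lit 7,
    nat_lit 13,nat_lit 14],[nat_lit 7,nat_lit 14,nat_lit 3],[nat_lit 7,nat_lit 14,nat_lit 7,nat_lit 9],[nat_lit 7,
    nat_lit 14,nat_lit 12]],[[nat_lit 7,nat_lit 15,nat_lit 3],[nat_lit 7,nat_lit 15,nat_lit 12],[nat_lit 8,nat_lit 0,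
    nat_lit 6],[nat_lit 8,nat_lit 0,nat_lit 7],[nat_lit 8,nat_lit 1,nat_lit 6],[nat_lit 8,nat_lit 2,nat_lit 13],
    [nat_lit 8,nat_lit 3,nat_lit 13],[nat_lit 8,nat_lit 4,nat_lit 7,nat_lit 13],[nat_lit 8,nat_lit 4,nat_lit 10],
    [nat_lit 8,nat_lit 4,nat_lit 11],[nat_lit 8,nat_lit 5,nat_lit 10],[nat_lit 8,nat_lit 5,nat_lit 11]],[[nat_lit 8,
    nat_lit 6,nat_lit 1],[nat_lit 8,nat_lit 6,nat_lit 12,nat_lit 4],[nat_lit 8,nat_lit 6,nat_lit 15,nat_lit 6],
    [nat_lit 8,nat_lit 8,nat_lit 10],[nat_lit 8,nat_lit 8,nat_lit 11],[nat_lit 8,nat_lit 8,nat_lit 12,nat_lit 7],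
    [nat_lit 8,nat_lit 9,nat_lit 7,nat_lit 13],[nat_lit 8,nat_lit 9,nat_lit 10],[nat_lit 8,nat_lit 9,nat_lit 11],
    [nat_lit 8,nat_lit 9,nat_lit 12,nat_lit 6],[nat_lit 8,nat_lit 10,nat_lit 4],[nat_lit 8,nat_lit 10,nat_lit 5]],
    [[nat_lit 8,nat_lit 10,nat_lit 8],[nat_lit 8,nat_lit 11,nat_lit 8],[nat_lit 8,nat_lit 12,nat_lit 7,nat_lit 8],
    [nat_lit 8,nat_lit 12,nat_lit 12],[nat_lit 8,nat_lit 13,nat_lit 13],[nat_lit 9,nat_lit 0,nat_lit 7],[nat_lit 9,
    nat_lit 4,nat_lit 11],[nat_lit 9,nat_lit 5,nat_lit 11],[nat_lit 9,nat_lit 5,nat_lit 13,nat_lit 7],[nat_lit 9,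
    nat_lit 6,nat_lit 1],[nat_lit 9,nat_lit 6,nat_lit 13,nat_lit 9],[nat_lit 9,nat_lit 7,nat_lit 0]],[[nat_lit 9,
    nat_lit 7,nat_lit 1],[nat_lit 9,nat_lit 7,nat_lit 13,nat_lit 8],[nat_lit 9,nat_lit 7,nat_lit 14,nat_lit 7],
    [nat_lit 9,nat_lit 9,nat_lit 6,nat_lit 13],[nat_lit 9,nat_lit 9,nat_lit 10],[nat_lit 9,nat_lit 9,nat_lit 11],
    [nat_lit 9,nat_lit 10,nat_lit 4],[nat_lit 9,nat_lit 10,nat_lit 5],[nat_lit 9,nat_lit 10,nat_lit 8],[nat_lit 9,
    nat_lit 10,nat_lit 9],[nat_lit 9,nat_lit 11,nat_lit 4],[nat_lit 9,nat_lit 11,nat_lit 5]],[[nat_lit 9,nat_lit 11,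
    nat_lit 8],[nat_lit 9,nat_lit 11,nat_lit 9],[nat_lit 9,nat_lit 12,nat_lit 2],[nat_lit 9,nat_lit 12,nat_lit 3],
    [nat_lit 9,nat_lit 12,nat_lit 6,nat_lit 5],[nat_lit 9,nat_lit 12,nat_lit 6,nat_lit 8],[nat_lit 9,nat_lit 12,
    nat_lit 12],[nat_lit 9,nat_lit 13,nat_lit 13],[nat_lit 10,nat_lit 4,nat_lit 4],[nat_lit 10,nat_lit 4,nat_lit 5],
    [nat_lit 10,nat_lit 4,nat_lit 8],[nat_lit 10,nat_lit 4,nat_lit 9]],[[nat_lit 10,nat_lit 5,nat_lit 4],[nat_lit 10,
    nat_lit 5,nat_lit 5],[nat_lit 10,nat_lit 5,nat_lit 8],[nat_lit 10,nat_lit 5,nat_lit 9],[nat_lit 10,nat_lit 8,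
    nat_lit 4],[nat_lit 10,nat_lit 8,nat_lit 5],[nat_lit 10,nat_lit 8,nat_lit 8],[nat_lit 10,nat_lit 8,nat_lit 9],
    [nat_lit 10,nat_lit 9,nat_lit 9],[nat_lit 10,nat_lit 14],[nat_lit 10,nat_lit 15],[nat_lit 11,nat_lit 4,
    nat_lit 4]],[[nat_lit 11,nat_lit 4,nat_lit 5],[nat_lit 11,nat_lit 4,nat_lit 9],[nat_lit 11,nat_lit 5,nat_lit 4],
    [nat_lit 11,nat_lit 5,nat_lit 5],[nat_lit 11,nat_lit 5,nat_lit 9],[nat_lit 11,nat_lit 8,nat_lit 4],[nat_lit 11,
    nat_lit 8,nat_lit 5],[nat_lit 11,nat_lit 8,nat_lit 8],[nat_lit 11,nat_lit 8,nat_lit 9],[nat_lit 11,nat_lit 9,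
    nat_lit 4],[nat_lit 11,nat_lit 9,nat_lit 5],[nat_lit 11,nat_lit 9,nat_lit 9]],[[nat_lit 11,nat_lit 14],
    [nat_lit 11,nat_lit 15],[nat_lit 12,nat_lit 0],[nat_lit 12,nat_lit 1],[nat_lit 12,nat_lit 2,nat_lit 5],
    [nat_lit 12,nat_lit 2,nat_lit 9],[nat_lit 12,nat_lit 3,nat_lit 9],[nat_lit 12,nat_lit 4,nat_lit 3],[nat_lit 12,
    nat_lit 4,nat_lit 8,nat_lit 6],[nat_lit 12,nat_lit 4,nat_lit 12],[nat_lit 12,nat_lit 4,nat_lit 13],[nat_lit 12,
    nat_lit 5,nat_lit 3]],[[nat_lit 12,nat_lit 5,nat_lit 12],[nat_lit 12,nat_lit 5,nat_lit 13],[nat_lit 12,nat_lit 6,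
    nat_lit 5,nat_lit 9],[nat_lit 12,nat_lit 6,nat_lit 8,nat_lit 9],[nat_lit 12,nat_lit 6,nat_lit 15],[nat_lit 12,
    nat_lit 7,nat_lit 8,nat_lit 8],[nat_lit 12,nat_lit 7,nat_lit 14],[nat_lit 12,nat_lit 7,nat_lit 15],[nat_lit 12,
    nat_lit 8,nat_lit 12],[nat_lit 12,nat_lit 9,nat_lit 12],[nat_lit 12,nat_lit 12,nat_lit 4],[nat_lit 12,nat_lit 12,
    nat_lit 5]],[[nat_lit 12,nat_lit 12,nat_lit 8],[nat_lit 12,nat_lit 12,nat_lit 9],[nat_lit 13,nat_lit 0],
    [nat_lit 13,nat_lit 1],[nat_lit 13,nat_lit 2,nat_lit 4],[nat_lit 13,nat_lit 2,nat_lit 5],[nat_lit 13,nat_lit 4,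
    nat_lit 3],[nat_lit 13,nat_lit 4,nat_lit 13],[nat_lit 13,nat_lit 5,nat_lit 13],[nat_lit 13,nat_lit 7,nat_lit 9,
    nat_lit 5],[nat_lit 13,nat_lit 8,nat_lit 2],[nat_lit 13,nat_lit 8,nat_lit 3]],[[nat_lit 13,nat_lit 8,nat_lit 4,
    nat_lit 7],[nat_lit 13,nat_lit 8,nat_lit 9,nat_lit 7],[nat_lit 13,nat_lit 8,nat_lit 13],[nat_lit 13,nat_lit 9,
    nat_lit 9,nat_lit 6],[nat_lit 13,nat_lit 9,nat_lit 13],[nat_lit 13,nat_lit 12,nat_lit 4],[nat_lit 13,nat_lit 12,
    nat_lit 5],[nat_lit 13,nat_lit 13,nat_lit 4],[nat_lit 13,nat_lit 13,nat_lit 5],[nat_lit 13,nat_lit 13,nat_lit 8],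
    [nat_lit 13,nat_lit 13,nat_lit 9],[nat_lit 13,nat_lit 14,nat_lit 6]],[[nat_lit 13,nat_lit 14,nat_lit 7],
    [nat_lit 13,nat_lit 15,nat_lit 6],[nat_lit 14,nat_lit 3,nat_lit 6],[nat_lit 14,nat_lit 3,nat_lit 7],[nat_lit 14,
    nat_lit 6,nat_lit 2],[nat_lit 14,nat_lit 6,nat_lit 13],[nat_lit 14,nat_lit 7,nat_lit 2],[nat_lit 14,nat_lit 7,
    nat_lit 9,nat_lit 7],[nat_lit 14,nat_lit 7,nat_lit 13],[nat_lit 14,nat_lit 10],[nat_lit 14,nat_lit 11],
    [nat_lit 14,nat_lit 12,nat_lit 7]],[[nat_lit 15,nat_lit 3,nat_lit 6],[nat_lit 15,nat_lit 3,nat_lit 7],[nat_lit 15,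
    nat_lit 6,nat_lit 2],[nat_lit 15,nat_lit 6,nat_lit 8,nat_lit 6],[nat_lit 15,nat_lit 6,nat_lit 13],[nat_lit 15,
    nat_lit 7,nat_lit 2],[nat_lit 15,nat_lit 10],[nat_lit 15,nat_lit 11],[nat_lit 15,nat_lit 12,nat_lit 6],
    [nat_lit 15,nat_lit 12,nat_lit 7]]]
    [[nat_lit 28,nat_lit 41,nat_lit 64,nat_lit 65,nat_lit 93,nat_lit 118,nat_lit 120,nat_lit 123,nat_lit 143,
    nat_lit 145,nat_lit 147,nat_lit 191],[nat_lit 242,nat_lit 266,nat_lit 29,nat_lit 42,nat_lit 66,nat_lit 92,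
    nat_lit 94,nat_lit 119,nat_lit 121,nat_lit 124,nat_lit 144,nat_lit 168],[nat_lit 189,nat_lit 192,nat_lit 243,
    nat_lit 267,nat_lit 0,nat_lit 14,nat_lit 32,nat_lit 80,nat_lit 86,nat_lit 106,nat_lit 108,nat_lit 206],
    [nat_lit 274,nat_lit 292,nat_lit 294,nat_lit 302,nat_lit 305,nat_lit 1,nat_lit 15,nat_lit 44,nat_lit 57,
    nat_lit 131,nat_lit 132,nat_lit 153],[nat_lit 156,nat_lit 207,nat_lit 247,nat_lit 251,nat_lit 270,nat_lit 275,
    nat_lit 5,nat_lit 8,nat_lit 19,nat_lit 43,nat_lit 50,nat_lit 52],[nat_lit 72,nat_lit 75,nat_lit 99,nat_lit 102,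
    nat_lit 112,nat_lit 135,nat_lit 138,nat_lit 150,nat_lit 169,nat_lit 178,nat_lit 198,nat_lit 202],[nat_lit 212,
    nat_lit 216,nat_lit 220,nat_lit 227,nat_lit 230,nat_lit 233,nat_lit 237,nat_lit 262,nat_lit 268,nat_lit 281,
    nat_lit 283,nat_lit 6],[nat_lit 20,nat_lit 22,nat_lit 30,nat_lit 51,nat_lit 73,nat_lit 76,nat_lit 100,nat_lit 103,
    nat_lit 113,nat_lit 136,nat_lit 139,nat_lit 179],[nat_lit 199,nat_lit 203,nat_lit 208,nat_lit 213,nat_lit 217,
    nat_lit 221,nat_lit 228,nat_lit 231,nat_lit 234,nat_lit 238,nat_lit 244,nat_lit 263],[nat_lit 269,nat_lit 273,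
    nat_lit 282,nat_lit 284,nat_lit 2,nat_lit 17,nat_lit 23,nat_lit 24,nat_lit 37,nat_lit 39,nat_lit 54,nat_lit 56],
    [nat_lit 83,nat_lit 84,nat_lit 98,nat_lit 158,nat_lit 160,nat_lit 170,nat_lit 177,nat_lit 248,nat_lit 279,
    nat_lit 287,nat_lit 289,nat_lit 290],[nat_lit 300,nat_lit 303,nat_lit 308,nat_lit 3,nat_lit 4,nat_lit 11,
    nat_lit 16,nat_lit 18,nat_lit 25,nat_lit 38,nat_lit 40,nat_lit 55],[nat_lit 85,nat_lit 159,nat_lit 173,
    nat_lit 185,nat_lit 188,nat_lit 194,nat_lit 276,nat_lit 277,nat_lit 288,nat_lit 291,nat_lit 295,nat_lit 299],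
    [nat_lit 301,nat_lit 309,nat_lit 7,nat_lit 9,nat_lit 21,nat_lit 36,nat_lit 53,nat_lit 67,nat_lit 74,nat_lit 77,
    nat_lit 101,nat_lit 104],[nat_lit 114,nat_lit 127,nat_lit 133,nat_lit 180,nat_lit 181,nat_lit 182,nat_lit 193,
    nat_lit 200,nat_lit 204,nat_lit 209,nat_lit 214,nat_lit 218],[nat_lit 222,nat_lit 235,nat_lit 257,nat_lit 264,
    nat_lit 285,nat_lit 10,nat_lit 78,nat_lit 105,nat_lit 109,nat_lit 115,nat_lit 128,nat_lit 137],[nat_lit 140,
    nat_lit 151,nat_lit 154,nat_lit 190,nat_lit 201,nat_lit 205,nat_lit 215,nat_lit 219,nat_lit 223,nat_lit 224,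
    nat_lit 229,nat_lit 232],[nat_lit 236,nat_lit 239,nat_lit 245,nat_lit 246,nat_lit 254,nat_lit 255,nat_lit 265,
    nat_lit 286,nat_lit 60,nat_lit 62,nat_lit 69,nat_lit 70],[nat_lit 88,nat_lit 90,nat_lit 95,nat_lit 96,nat_lit 164,
    nat_lit 166,nat_lit 171,nat_lit 175,nat_lit 196,nat_lit 297,nat_lit 306,nat_lit 61],[nat_lit 63,nat_lit 71,
    nat_lit 89,nat_lit 91,nat_lit 97,nat_lit 165,nat_lit 167,nat_lit 172,nat_lit 176,nat_lit 186,nat_lit 187,
    nat_lit 197],[nat_lit 298,nat_lit 307,nat_lit 12,nat_lit 26,nat_lit 33,nat_lit 35,nat_lit 49,nat_lit 58,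
    nat_lit 68,nat_lit 79,nat_lit 81,nat_lit 87],[nat_lit 107,nat_lit 110,nat_lit 122,nat_lit 126,nat_lit 134,
    nat_lit 146,nat_lit 155,nat_lit 157,nat_lit 183,nat_lit 210,nat_lit 249,nat_lit 252],[nat_lit 260,nat_lit 261,
    nat_lit 13,nat_lit 27,nat_lit 31,nat_lit 34,nat_lit 59,nat_lit 82,nat_lit 111,nat_lit 148,nat_lit 161,
    nat_lit 162],[nat_lit 163,nat_lit 174,nat_lit 184,nat_lit 195,nat_lit 211,nat_lit 250,nat_lit 253,nat_lit 271,
    nat_lit 272,nat_lit 278,nat_lit 280,nat_lit 293],[nat_lit 296,nat_lit 304,nat_lit 45,nat_lit 47,nat_lit 116,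
    nat_lit 129,nat_lit 141,nat_lit 149,nat_lit 152,nat_lit 225,nat_lit 240,nat_lit 258],[nat_lit 46,nat_lit 48,
    nat_lit 117,nat_lit 125,nat_lit 130,nat_lit 142,nat_lit 226,nat_lit 241,nat_lit 256,nat_lit 259]]
    [[nat_lit 28,nat_lit 41,nat_lit 112,nat_lit 135,nat_lit 136,nat_lit 54,nat_lit 83,nat_lit 158,nat_lit 55,
    nat_lit 159,nat_lit 185,nat_lit 137],[nat_lit 242,nat_lit 266,nat_lit 29,nat_lit 42,nat_lit 138,nat_lit 113,
    nat_lit 139,nat_lit 56,nat_lit 84,nat_lit 160,nat_lit 85,nat_lit 114],[nat_lit 115,nat_lit 140,nat_lit 243,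
    nat_lit 267,nat_lit 0,nat_lit 14,nat_lit 86,nat_lit 268,nat_lit 30,nat_lit 244,nat_lit 269,nat_lit 245],
    [nat_lit 161,nat_lit 116,nat_lit 141,nat_lit 117,nat_lit 142,nat_lit 1,nat_lit 15,nat_lit 57,nat_lit 43,
    nat_lit 290,nat_lit 300,nat_lit 291],[nat_lit 301,nat_lit 246,nat_lit 58,nat_lit 87,nat_lit 59,nat_lit 162,
    nat_lit 118,nat_lit 143,nat_lit 119,nat_lit 44,nat_lit 247,nat_lit 270],[nat_lit 212,nat_lit 227,nat_lit 213,
    nat_lit 228,nat_lit 2,nat_lit 3,nat_lit 16,nat_lit 163,nat_lit 248,nat_lit 214,nat_lit 215,nat_lit 229],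
    [nat_lit 60,nat_lit 88,nat_lit 164,nat_lit 61,nat_lit 89,nat_lit 165,nat_lit 186,nat_lit 249,nat_lit 31,
    nat_lit 250,nat_lit 271,nat_lit 120],[nat_lit 121,nat_lit 144,nat_lit 32,nat_lit 251,nat_lit 216,nat_lit 230,
    nat_lit 217,nat_lit 231,nat_lit 17,nat_lit 4,nat_lit 18,nat_lit 218],[nat_lit 219,nat_lit 232,nat_lit 122,
    nat_lit 62,nat_lit 90,nat_lit 166,nat_lit 63,nat_lit 91,nat_lit 167,nat_lit 187,nat_lit 33,nat_lit 252],
    [nat_lit 34,nat_lit 188,nat_lit 253,nat_lit 272,nat_lit 64,nat_lit 92,nat_lit 168,nat_lit 189,nat_lit 292,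
    nat_lit 302,nat_lit 5,nat_lit 19],[nat_lit 6,nat_lit 20,nat_lit 254,nat_lit 7,nat_lit 21,nat_lit 303,nat_lit 255,
    nat_lit 169,nat_lit 190,nat_lit 293,nat_lit 304,nat_lit 45],[nat_lit 46,nat_lit 170,nat_lit 256,nat_lit 65,
    nat_lit 93,nat_lit 191,nat_lit 66,nat_lit 94,nat_lit 192,nat_lit 294,nat_lit 305,nat_lit 8],[nat_lit 22,nat_lit 9,
    nat_lit 257,nat_lit 10,nat_lit 273,nat_lit 295,nat_lit 67,nat_lit 193,nat_lit 296,nat_lit 47,nat_lit 194,
    nat_lit 258],[nat_lit 48,nat_lit 259,nat_lit 123,nat_lit 145,nat_lit 124,nat_lit 274,nat_lit 275,nat_lit 276,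
    nat_lit 220,nat_lit 233,nat_lit 221,nat_lit 234],[nat_lit 23,nat_lit 68,nat_lit 125,nat_lit 222,nat_lit 235,
    nat_lit 146,nat_lit 277,nat_lit 223,nat_lit 236,nat_lit 126,nat_lit 69,nat_lit 95],[nat_lit 171,nat_lit 172,
    nat_lit 173,nat_lit 260,nat_lit 278,nat_lit 147,nat_lit 237,nat_lit 238,nat_lit 148,nat_lit 24,nat_lit 195,
    nat_lit 11],[nat_lit 25,nat_lit 174,nat_lit 149,nat_lit 279,nat_lit 224,nat_lit 239,nat_lit 70,nat_lit 96,
    nat_lit 175,nat_lit 196,nat_lit 71,nat_lit 97],[nat_lit 176,nat_lit 197,nat_lit 35,nat_lit 49,nat_lit 98,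
    nat_lit 177,nat_lit 261,nat_lit 280,nat_lit 72,nat_lit 99,nat_lit 178,nat_lit 198],[nat_lit 73,nat_lit 100,
    nat_lit 179,nat_lit 199,nat_lit 74,nat_lit 101,nat_lit 180,nat_lit 200,nat_lit 201,nat_lit 297,nat_lit 306,
    nat_lit 75],[nat_lit 102,nat_lit 202,nat_lit 76,nat_lit 103,nat_lit 203,nat_lit 77,nat_lit 104,nat_lit 181,
    nat_lit 204,nat_lit 78,nat_lit 105,nat_lit 205],[nat_lit 298,nat_lit 307,nat_lit 12,nat_lit 26,nat_lit 106,
    nat_lit 206,nat_lit 207,nat_lit 50,nat_lit 127,nat_lit 262,nat_lit 281,nat_lit 51],[nat_lit 263,nat_lit 282,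
    nat_lit 208,nat_lit 209,nat_lit 308,nat_lit 182,nat_lit 299,nat_lit 309,nat_lit 264,nat_lit 265,nat_lit 79,
    nat_lit 107],[nat_lit 183,nat_lit 210,nat_lit 13,nat_lit 27,nat_lit 80,nat_lit 108,nat_lit 52,nat_lit 283,
    nat_lit 284,nat_lit 109,nat_lit 36,nat_lit 53],[nat_lit 150,nat_lit 151,nat_lit 285,nat_lit 128,nat_lit 286,
    nat_lit 81,nat_lit 110,nat_lit 82,nat_lit 111,nat_lit 184,nat_lit 211,nat_lit 129],[nat_lit 152,nat_lit 130,
    nat_lit 131,nat_lit 153,nat_lit 37,nat_lit 287,nat_lit 38,nat_lit 154,nat_lit 288,nat_lit 225,nat_lit 240,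
    nat_lit 155],[nat_lit 132,nat_lit 156,nat_lit 39,nat_lit 133,nat_lit 289,nat_lit 40,nat_lit 226,nat_lit 241,
    nat_lit 134,nat_lit 157]]
    [[[],[],[nat_lit 290],[nat_lit 290],[],[],[],[],[],[],[],[nat_lit 291,nat_lit 295,nat_lit 299]],[[],[nat_lit 298],
    [nat_lit 43,nat_lit 50,nat_lit 52],[nat_lit 42],[],[nat_lit 44],[nat_lit 44],[nat_lit 53],[nat_lit 53],
    [nat_lit 53],[nat_lit 51],[]],[[],[],[nat_lit 45,nat_lit 47],[],[nat_lit 0],[],[nat_lit 5,nat_lit 8],[nat_lit 2],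
    [nat_lit 1],[nat_lit 1],[nat_lit 1],[nat_lit 3,nat_lit 4,nat_lit 11]],[[],[],[],[nat_lit 13],[nat_lit 13],
    [nat_lit 86,nat_lit 106,nat_lit 108],[],[nat_lit 92,nat_lit 94],[nat_lit 83,nat_lit 84,nat_lit 98],[nat_lit 101,
    nat_lit 104],[nat_lit 101,nat_lit 104],[nat_lit 100,nat_lit 103]],[[nat_lit 100,nat_lit 103],[nat_lit 85],[],[],
    [nat_lit 89,nat_lit 91,nat_lit 97],[nat_lit 89,nat_lit 91,nat_lit 97],[nat_lit 32],[nat_lit 32],[],[nat_lit 29],
    [nat_lit 29],[nat_lit 29]],[[nat_lit 37,nat_lit 39],[nat_lit 37,nat_lit 39],[],[],[nat_lit 36],[nat_lit 30],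
    [nat_lit 30],[nat_lit 30],[],[],[nat_lit 38,nat_lit 40],[nat_lit 38,nat_lit 40]],[[nat_lit 33,nat_lit 35],
    [nat_lit 33,nat_lit 35],[nat_lit 33,nat_lit 35],[],[],[],[],[],[],[],[],[]],[[nat_lit 142],[nat_lit 142],
    [nat_lit 135,nat_lit 138,nat_lit 150],[nat_lit 144],[],[],[nat_lit 153,nat_lit 156],[nat_lit 153,nat_lit 156],[],
    [nat_lit 136,nat_lit 139],[nat_lit 136,nat_lit 139],[]],[[],[],[],[nat_lit 146,nat_lit 155,nat_lit 157],
    [nat_lit 146,nat_lit 155,nat_lit 157],[nat_lit 146,nat_lit 155,nat_lit 157],[nat_lit 137,nat_lit 140,nat_lit 151,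
    nat_lit 154],[nat_lit 137,nat_lit 140,nat_lit 151,nat_lit 154],[nat_lit 137,nat_lit 140,nat_lit 151,nat_lit 154],
    [nat_lit 137,nat_lit 140,nat_lit 151,nat_lit 154],[nat_lit 141,nat_lit 149,nat_lit 152],[nat_lit 141,nat_lit 149,
    nat_lit 152]],[[],[],[],[],[nat_lit 80],[],[],[],[nat_lit 72,nat_lit 75],[nat_lit 72,nat_lit 75],[nat_lit 54,
    nat_lit 56],[nat_lit 54,nat_lit 56]],[[nat_lit 57],[nat_lit 57],[nat_lit 57],[nat_lit 60,nat_lit 62,nat_lit 69,
    nat_lit 70],[nat_lit 60,nat_lit 62,nat_lit 69,nat_lit 70],[nat_lit 60,nat_lit 62,nat_lit 69,nat_lit 70],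
    [nat_lit 60,nat_lit 62,nat_lit 69,nat_lit 70],[],[nat_lit 61,nat_lit 63,nat_lit 71],[nat_lit 61,nat_lit 63,
    nat_lit 71],[nat_lit 61,nat_lit 63,nat_lit 71],[nat_lit 64,nat_lit 65]],[[nat_lit 59,nat_lit 82],[nat_lit 59,
    nat_lit 82],[nat_lit 59,nat_lit 82],[nat_lit 206],[nat_lit 206],[nat_lit 206],[],[],[],[nat_lit 198,nat_lit 202],
    [nat_lit 198,nat_lit 202],[]],[[nat_lit 207],[nat_lit 196],[nat_lit 196],[nat_lit 185,nat_lit 188,nat_lit 194],
    [nat_lit 185,nat_lit 188,nat_lit 194],[nat_lit 185,nat_lit 188,nat_lit 194],[nat_lit 186,nat_lit 187,nat_lit 197],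
    [nat_lit 186,nat_lit 187,nat_lit 197],[nat_lit 186,nat_lit 187,nat_lit 197],[nat_lit 191],[nat_lit 191],
    [nat_lit 191]],[[nat_lit 195,nat_lit 211],[nat_lit 195,nat_lit 211],[],[],[nat_lit 117,nat_lit 125,nat_lit 130],
    [nat_lit 112],[nat_lit 119,nat_lit 121,nat_lit 124],[],[],[],[nat_lit 131,nat_lit 132],[nat_lit 131,nat_lit 132]],
    [[nat_lit 114,nat_lit 127,nat_lit 133],[nat_lit 114,nat_lit 127,nat_lit 133],[nat_lit 114,nat_lit 127,
    nat_lit 133],[],[],[],[],[],[],[],[nat_lit 122,nat_lit 126,nat_lit 134],[nat_lit 122,nat_lit 126,nat_lit 134]],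
    [[nat_lit 122,nat_lit 126,nat_lit 134],[nat_lit 115,nat_lit 128],[nat_lit 116,nat_lit 129],[nat_lit 116,
    nat_lit 129],[],[],[],[],[],[nat_lit 235],[nat_lit 235],[nat_lit 228,nat_lit 231,nat_lit 234,nat_lit 238]],
    [[nat_lit 228,nat_lit 231,nat_lit 234,nat_lit 238],[nat_lit 228,nat_lit 231,nat_lit 234,nat_lit 238],[nat_lit 228,
    nat_lit 231,nat_lit 234,nat_lit 238],[],[],[],[],[],[],[],[nat_lit 229,nat_lit 232,nat_lit 236,nat_lit 239],
    [nat_lit 229,nat_lit 232,nat_lit 236,nat_lit 239]],[[nat_lit 229,nat_lit 232,nat_lit 236,nat_lit 239],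
    [nat_lit 229,nat_lit 232,nat_lit 236,nat_lit 239],[nat_lit 240],[nat_lit 240],[nat_lit 240],[nat_lit 240],
    [nat_lit 240],[],[nat_lit 158,nat_lit 160,nat_lit 170,nat_lit 177],[nat_lit 158,nat_lit 160,nat_lit 170,
    nat_lit 177],[nat_lit 158,nat_lit 160,nat_lit 170,nat_lit 177],[nat_lit 158,nat_lit 160,nat_lit 170,nat_lit 177]],
    [[],[],[],[],[nat_lit 164,nat_lit 166,nat_lit 171,nat_lit 175],[nat_lit 164,nat_lit 166,nat_lit 171,nat_lit 175],
    [nat_lit 164,nat_lit 166,nat_lit 171,nat_lit 175],[nat_lit 164,nat_lit 166,nat_lit 171,nat_lit 175],[nat_lit 159,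
    nat_lit 173],[],[nat_lit 161,nat_lit 162,nat_lit 163,nat_lit 174,nat_lit 184],[nat_lit 279,nat_lit 287,
    nat_lit 289]],[[nat_lit 279,nat_lit 287,nat_lit 289],[nat_lit 279,nat_lit 287,nat_lit 289],[nat_lit 270,
    nat_lit 275],[nat_lit 270,nat_lit 275],[nat_lit 270,nat_lit 275],[],[],[],[],[nat_lit 276,nat_lit 277,
    nat_lit 288],[nat_lit 276,nat_lit 277,nat_lit 288],[nat_lit 276,nat_lit 277,nat_lit 288]],[[nat_lit 266],
    [nat_lit 271,nat_lit 272,nat_lit 278,nat_lit 280],[],[nat_lit 226],[nat_lit 212,nat_lit 216,nat_lit 220],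
    [nat_lit 212,nat_lit 216,nat_lit 220],[],[],[],[],[],[]],[[],[],[nat_lit 214,nat_lit 218,nat_lit 222],
    [nat_lit 214,nat_lit 218,nat_lit 222],[nat_lit 214,nat_lit 218,nat_lit 222],[nat_lit 213,nat_lit 217,nat_lit 221],
    [nat_lit 213,nat_lit 217,nat_lit 221],[nat_lit 213,nat_lit 217,nat_lit 221],[],[],[nat_lit 225],[nat_lit 225]],
    [[nat_lit 225],[nat_lit 225],[nat_lit 302,nat_lit 305],[],[],[],[nat_lit 300,nat_lit 303,nat_lit 308],
    [nat_lit 300,nat_lit 303,nat_lit 308],[],[],[nat_lit 306],[nat_lit 306]],[[nat_lit 306],[nat_lit 306],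
    [nat_lit 306],[nat_lit 301,nat_lit 309],[nat_lit 301,nat_lit 309],[],[],[nat_lit 307],[nat_lit 307],[nat_lit 307],
    [nat_lit 307],[]],[[],[nat_lit 304],[nat_lit 243],[nat_lit 243],[nat_lit 257,nat_lit 264],[nat_lit 257,
    nat_lit 264],[nat_lit 244,nat_lit 263],[nat_lit 244,nat_lit 263],[nat_lit 244,nat_lit 263],[nat_lit 249,
    nat_lit 252,nat_lit 260,nat_lit 261],[nat_lit 245,nat_lit 246,nat_lit 254,nat_lit 255,nat_lit 265],[nat_lit 258]],
    [[],[],[nat_lit 21],[nat_lit 21],[nat_lit 21],[nat_lit 20,nat_lit 22],[nat_lit 26],[],[],[]]]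
    (nat_lit 310) [nat_lit 0,nat_lit 1,nat_lit 2,nat_lit 3,nat_lit 4,nat_lit 5,nat_lit 6,nat_lit 7,nat_lit 8,
    nat_lit 9,nat_lit 10,nat_lit 11,nat_lit 12,nat_lit 13,nat_lit 14,nat_lit 15,nat_lit 16,nat_lit 17,nat_lit 18,
    nat_lit 19,nat_lit 20,nat_lit 21,nat_lit 22,nat_lit 23,nat_lit 24,nat_lit 25,nat_lit 26,nat_lit 27,nat_lit 30,
    nat_lit 31,nat_lit 32,nat_lit 33,nat_lit 34,nat_lit 35,nat_lit 36,nat_lit 37,nat_lit 38,nat_lit 39,nat_lit 40,
    nat_lit 43,nat_lit 44,nat_lit 45,nat_lit 46,nat_lit 47,nat_lit 48,nat_lit 49,nat_lit 50,nat_lit 51,nat_lit 52,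
    nat_lit 53,nat_lit 60,nat_lit 61,nat_lit 62,nat_lit 63,nat_lit 67,nat_lit 68,nat_lit 69,nat_lit 70,nat_lit 71,
    nat_lit 72,nat_lit 73,nat_lit 74,nat_lit 75,nat_lit 76,nat_lit 77,nat_lit 78,nat_lit 79,nat_lit 81,nat_lit 82,
    nat_lit 90,nat_lit 91,nat_lit 95,nat_lit 96,nat_lit 97,nat_lit 98,nat_lit 100,nat_lit 101,nat_lit 103,nat_lit 104,
    nat_lit 105,nat_lit 107,nat_lit 109,nat_lit 110,nat_lit 111,nat_lit 125,nat_lit 126,nat_lit 128,nat_lit 129,
    nat_lit 130,nat_lit 133,nat_lit 134,nat_lit 146,nat_lit 149,nat_lit 151,nat_lit 152,nat_lit 154,nat_lit 155,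
    nat_lit 157,nat_lit 171,nat_lit 172,nat_lit 175,nat_lit 176,nat_lit 180,nat_lit 181,nat_lit 183,nat_lit 184,
    nat_lit 196,nat_lit 197,nat_lit 201,nat_lit 205,nat_lit 210,nat_lit 211,nat_lit 225,nat_lit 226,nat_lit 240,
    nat_lit 241]
    [[[],[],[nat_lit 0],[nat_lit 1],[nat_lit 5,nat_lit 8],[nat_lit 6],[nat_lit 2],[nat_lit 3,nat_lit 4,nat_lit 11],
    [nat_lit 7,nat_lit 9],[nat_lit 10],[],[],[nat_lit 12],[nat_lit 13],[],[]],[[],[],[nat_lit 14],[nat_lit 15],
    [nat_lit 19],[nat_lit 20,nat_lit 22],[nat_lit 17,nat_lit 23,nat_lit 24],[nat_lit 16,nat_lit 18,nat_lit 25],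
    [nat_lit 21],[],[],[],[nat_lit 26],[nat_lit 27],[],[]],[[nat_lit 28],[nat_lit 29],[nat_lit 32],[],[],[nat_lit 30],
    [nat_lit 37,nat_lit 39],[nat_lit 38,nat_lit 40],[nat_lit 36],[],[],[],[nat_lit 33,nat_lit 35],[nat_lit 31,
    nat_lit 34],[],[]],[[nat_lit 41],[nat_lit 42],[],[nat_lit 44],[nat_lit 43,nat_lit 50,nat_lit 52],[nat_lit 51],[],
    [],[nat_lit 53],[],[],[],[nat_lit 49],[],[nat_lit 45,nat_lit 47],[nat_lit 46,nat_lit 48]],[[nat_lit 64,
    nat_lit 65],[nat_lit 66],[nat_lit 80],[nat_lit 57],[nat_lit 72,nat_lit 75],[nat_lit 73,nat_lit 76],[nat_lit 54,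
    nat_lit 56],[nat_lit 55],[nat_lit 67,nat_lit 74,nat_lit 77],[nat_lit 78],[nat_lit 60,nat_lit 62,nat_lit 69,
    nat_lit 70],[nat_lit 61,nat_lit 63,nat_lit 71],[nat_lit 58,nat_lit 68,nat_lit 79,nat_lit 81],[nat_lit 59,
    nat_lit 82],[],[]],[[nat_lit 93],[nat_lit 92,nat_lit 94],[nat_lit 86,nat_lit 106,nat_lit 108],[],[nat_lit 99,
    nat_lit 102],[nat_lit 100,nat_lit 103],[nat_lit 83,nat_lit 84,nat_lit 98],[nat_lit 85],[nat_lit 101,nat_lit 104],
    [nat_lit 105,nat_lit 109],[nat_lit 88,nat_lit 90,nat_lit 95,nat_lit 96],[nat_lit 89,nat_lit 91,nat_lit 97],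
    [nat_lit 87,nat_lit 107,nat_lit 110],[nat_lit 111],[],[]],[[nat_lit 118,nat_lit 120,nat_lit 123],[nat_lit 119,
    nat_lit 121,nat_lit 124],[],[nat_lit 131,nat_lit 132],[nat_lit 112],[nat_lit 113],[],[],[nat_lit 114,nat_lit 127,
    nat_lit 133],[nat_lit 115,nat_lit 128],[],[],[nat_lit 122,nat_lit 126,nat_lit 134],[],[nat_lit 116,nat_lit 129],
    [nat_lit 117,nat_lit 125,nat_lit 130]],[[nat_lit 143,nat_lit 145,nat_lit 147],[nat_lit 144],[],[nat_lit 153,
    nat_lit 156],[nat_lit 135,nat_lit 138,nat_lit 150],[nat_lit 136,nat_lit 139],[],[],[],[nat_lit 137,nat_lit 140,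
    nat_lit 151,nat_lit 154],[],[],[nat_lit 146,nat_lit 155,nat_lit 157],[nat_lit 148],[nat_lit 141,nat_lit 149,
    nat_lit 152],[nat_lit 142]],[[],[nat_lit 168],[],[],[nat_lit 169,nat_lit 178],[nat_lit 179],[nat_lit 158,
    nat_lit 160,nat_lit 170,nat_lit 177],[nat_lit 159,nat_lit 173],[nat_lit 180,nat_lit 181,nat_lit 182],[],
    [nat_lit 164,nat_lit 166,nat_lit 171,nat_lit 175],[nat_lit 165,nat_lit 167,nat_lit 172,nat_lit 176],[nat_lit 183],
    [nat_lit 161,nat_lit 162,nat_lit 163,nat_lit 174,nat_lit 184],[],[]],[[nat_lit 191],[nat_lit 189,nat_lit 192],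
    [nat_lit 206],[nat_lit 207],[nat_lit 198,nat_lit 202],[nat_lit 199,nat_lit 203,nat_lit 208],[],[nat_lit 185,
    nat_lit 188,nat_lit 194],[nat_lit 193,nat_lit 200,nat_lit 204,nat_lit 209],[nat_lit 190,nat_lit 201,nat_lit 205],
    [nat_lit 196],[nat_lit 186,nat_lit 187,nat_lit 197],[nat_lit 210],[nat_lit 195,nat_lit 211],[],[]],[[],[],[],[],
    [nat_lit 212,nat_lit 216,nat_lit 220],[nat_lit 213,nat_lit 217,nat_lit 221],[],[],[nat_lit 214,nat_lit 218,
    nat_lit 222],[nat_lit 215,nat_lit 219,nat_lit 223,nat_lit 224],[],[],[],[],[nat_lit 225],[nat_lit 226]],[[],[],[],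
    [],[nat_lit 227,nat_lit 230,nat_lit 233,nat_lit 237],[nat_lit 228,nat_lit 231,nat_lit 234,nat_lit 238],[],[],
    [nat_lit 235],[nat_lit 229,nat_lit 232,nat_lit 236,nat_lit 239],[],[],[],[],[nat_lit 240],[nat_lit 241]],
    [[nat_lit 242],[nat_lit 243],[],[nat_lit 247,nat_lit 251],[nat_lit 262],[nat_lit 244,nat_lit 263],[nat_lit 248],
    [],[nat_lit 257,nat_lit 264],[nat_lit 245,nat_lit 246,nat_lit 254,nat_lit 255,nat_lit 265],[],[],[nat_lit 249,
    nat_lit 252,nat_lit 260,nat_lit 261],[nat_lit 250,nat_lit 253],[nat_lit 258],[nat_lit 256,nat_lit 259]],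
    [[nat_lit 266],[nat_lit 267],[nat_lit 274],[nat_lit 270,nat_lit 275],[nat_lit 268,nat_lit 281,nat_lit 283],
    [nat_lit 269,nat_lit 273,nat_lit 282,nat_lit 284],[nat_lit 279,nat_lit 287,nat_lit 289],[nat_lit 276,nat_lit 277,
    nat_lit 288],[nat_lit 285],[nat_lit 286],[],[],[],[nat_lit 271,nat_lit 272,nat_lit 278,nat_lit 280],[],[]],[[],[],
    [nat_lit 292,nat_lit 294],[],[],[],[nat_lit 290],[nat_lit 291,nat_lit 295,nat_lit 299],[],[],[nat_lit 297],
    [nat_lit 298],[],[nat_lit 293,nat_lit 296],[],[]],[[],[],[nat_lit 302,nat_lit 305],[],[],[],[nat_lit 300,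
    nat_lit 303,nat_lit 308],[nat_lit 301,nat_lit 309],[],[],[nat_lit 306],[nat_lit 307],[],[nat_lit 304],[],[]]]
    [[[nat_lit 0,nat_lit 0,nat_lit 0x4000000000000000000000000000000000000000000000000000000000000000000000000,
    nat_lit 0x4000000000000000000000000000000000000000000000000000000000000000000000000,nat_lit 0,nat_lit 0,nat_lit 0,
    nat_lit 0,nat_lit 0],[nat_lit 0,nat_lit 0,
    nat_lit 0x888000000000000000000000000000000000000000000000000000000000000000000000000,nat_lit 0,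
    nat_lit 0x400000000000000000000000000000000000000000000000000000000000000000000000000,nat_lit 0x14080000000000,
    nat_lit 0x40000000000,nat_lit 0,nat_lit 0x100000000000],[nat_lit 0x100000000000,nat_lit 0x20000000000000,
    nat_lit 0x20000000000000,nat_lit 0x20000000000000,nat_lit 0x8000000000000,nat_lit 0,nat_lit 0,nat_lit 0,
    nat_lit 0xa00000000000],[nat_lit 0,nat_lit 1,nat_lit 0,nat_lit 288,nat_lit 4,nat_lit 2,nat_lit 2,nat_lit 2,
    nat_lit 0x818],[nat_lit 0,nat_lit 0,nat_lit 0,nat_lit 0x2000,nat_lit 0x2000,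
    nat_lit 0x1400004000000000000000000000,nat_lit 0,nat_lit 0x500000000000000000000000,
    nat_lit 0x4001800000000000000000000],[nat_lit 0x120000000000000000000000000,nat_lit 0x120000000000000000000000000,
    nat_lit 0x90000000000000000000000000,nat_lit 0x90000000000000000000000000,nat_lit 0x2000000000000000000000,
    nat_lit 0,nat_lit 0,nat_lit 0x20a0000000000000000000000,nat_lit 0x20a0000000000000000000000],[nat_lit 0x100000000,
    nat_lit 0x100000000,nat_lit 0,nat_lit 0x20000000,nat_lit 0x20000000,nat_lit 0x20000000,nat_lit 0xa000000000,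
    nat_lit 0xa000000000,nat_lit 0],[nat_lit 0,nat_lit 0x1000000000,nat_lit 0x40000000,nat_lit 0x40000000,
    nat_lit 0x40000000,nat_lit 0,nat_lit 0,nat_lit 0x14000000000,nat_lit 0x14000000000],[nat_lit 0xa00000000,
    nat_lit 0xa00000000,nat_lit 0xa00000000,nat_lit 0,nat_lit 0,nat_lit 0,nat_lit 0,nat_lit 0,nat_lit 0]],[[nat_lit 0,
    nat_lit 0,nat_lit 0,nat_lit 0x400000000000000000000000000000000000,nat_lit 0x400000000000000000000000000000000000,
    nat_lit 0x40048000000000000000000000000000000000,nat_lit 0x1000000000000000000000000000000000000,nat_lit 0,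
    nat_lit 0],[nat_lit 0x1200000000000000000000000000000000000000,nat_lit 0x1200000000000000000000000000000000000000,
    nat_lit 0,nat_lit 0x90000000000000000000000000000000000,nat_lit 0x90000000000000000000000000000000000,nat_lit 0,
    nat_lit 0,nat_lit 0,nat_lit 0],[nat_lit 0x2804000000000000000000000000000000000000,
    nat_lit 0x2804000000000000000000000000000000000000,nat_lit 0x2804000000000000000000000000000000000000,
    nat_lit 0x480120000000000000000000000000000000000,nat_lit 0x480120000000000000000000000000000000000,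
    nat_lit 0x480120000000000000000000000000000000000,nat_lit 0x480120000000000000000000000000000000000,
    nat_lit 0x120200000000000000000000000000000000000,nat_lit 0x120200000000000000000000000000000000000],[nat_lit 0,
    nat_lit 0,nat_lit 0,nat_lit 0,nat_lit 0x100000000000000000000,nat_lit 0,nat_lit 0,nat_lit 0,
    nat_lit 0x9000000000000000000],[nat_lit 0x9000000000000000000,nat_lit 0x140000000000000,nat_lit 0x140000000000000,
    nat_lit 0x200000000000000,nat_lit 0x200000000000000,nat_lit 0x200000000000000,nat_lit 0x605000000000000000,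
    nat_lit 0x605000000000000000,nat_lit 0x605000000000000000],[nat_lit 0x605000000000000000,nat_lit 0,
    nat_lit 0x80a000000000000000,nat_lit 0x80a000000000000000,nat_lit 0x80a000000000000000,
    nat_lit 0x30000000000000000,nat_lit 0x400000800000000000000,nat_lit 0x400000800000000000000,
    nat_lit 0x400000800000000000000],[nat_lit 0x4000000000000000000000000000000000000000000000000000,
    nat_lit 0x4000000000000000000000000000000000000000000000000000,
    nat_lit 0x4000000000000000000000000000000000000000000000000000,nat_lit 0,nat_lit 0,nat_lit 0,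
    nat_lit 0x440000000000000000000000000000000000000000000000000,
    nat_lit 0x440000000000000000000000000000000000000000000000000,nat_lit 0],
    [nat_lit 0x8000000000000000000000000000000000000000000000000000,
    nat_lit 0x10000000000000000000000000000000000000000000000000,
    nat_lit 0x10000000000000000000000000000000000000000000000000,
    nat_lit 0x4120000000000000000000000000000000000000000000000,
    nat_lit 0x4120000000000000000000000000000000000000000000000,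
    nat_lit 0x4120000000000000000000000000000000000000000000000,
    nat_lit 0x200c0000000000000000000000000000000000000000000000,
    nat_lit 0x200c0000000000000000000000000000000000000000000000,
    nat_lit 0x200c0000000000000000000000000000000000000000000000],
    [nat_lit 0x800000000000000000000000000000000000000000000000,
    nat_lit 0x800000000000000000000000000000000000000000000000,
    nat_lit 0x800000000000000000000000000000000000000000000000,
    nat_lit 0x80008000000000000000000000000000000000000000000000000,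
    nat_lit 0x80008000000000000000000000000000000000000000000000000,nat_lit 0,nat_lit 0,
    nat_lit 0x420200000000000000000000000000000,nat_lit 0x10000000000000000000000000000]],
    [[nat_lit 0x12800000000000000000000000000000,nat_lit 0,nat_lit 0,nat_lit 0,
    nat_lit 0x1800000000000000000000000000000000,nat_lit 0x1800000000000000000000000000000000,
    nat_lit 0x2080040000000000000000000000000000,nat_lit 0x2080040000000000000000000000000000,
    nat_lit 0x2080040000000000000000000000000000],[nat_lit 0,nat_lit 0,nat_lit 0,nat_lit 0,nat_lit 0,nat_lit 0,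
    nat_lit 0,nat_lit 0x4044000000000000000000000000000000,nat_lit 0x4044000000000000000000000000000000],
    [nat_lit 0x4044000000000000000000000000000000,nat_lit 0x100080000000000000000000000000000,
    nat_lit 0x200100000000000000000000000000000,nat_lit 0x200100000000000000000000000000000,nat_lit 0,nat_lit 0,
    nat_lit 0,nat_lit 0,nat_lit 0],[nat_lit 0x80000000000000000000000000000000000000000000000000000000000,
    nat_lit 0x80000000000000000000000000000000000000000000000000000000000,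
    nat_lit 0x449000000000000000000000000000000000000000000000000000000000,
    nat_lit 0x449000000000000000000000000000000000000000000000000000000000,
    nat_lit 0x449000000000000000000000000000000000000000000000000000000000,
    nat_lit 0x449000000000000000000000000000000000000000000000000000000000,nat_lit 0,nat_lit 0,nat_lit 0],[nat_lit 0,
    nat_lit 0,nat_lit 0,nat_lit 0,nat_lit 0x912000000000000000000000000000000000000000000000000000000000,
    nat_lit 0x912000000000000000000000000000000000000000000000000000000000,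
    nat_lit 0x912000000000000000000000000000000000000000000000000000000000,
    nat_lit 0x912000000000000000000000000000000000000000000000000000000000,
    nat_lit 0x1000000000000000000000000000000000000000000000000000000000000],
    [nat_lit 0x1000000000000000000000000000000000000000000000000000000000000,
    nat_lit 0x1000000000000000000000000000000000000000000000000000000000000,
    nat_lit 0x1000000000000000000000000000000000000000000000000000000000000,
    nat_lit 0x1000000000000000000000000000000000000000000000000000000000000,nat_lit 0,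
    nat_lit 0x204014000000000000000000000000000000000000000,nat_lit 0x204014000000000000000000000000000000000000000,
    nat_lit 0x204014000000000000000000000000000000000000000,nat_lit 0x204014000000000000000000000000000000000000000],
    [nat_lit 0,nat_lit 0,nat_lit 0,nat_lit 0,nat_lit 0x88500000000000000000000000000000000000000000,
    nat_lit 0x88500000000000000000000000000000000000000000,nat_lit 0x88500000000000000000000000000000000000000000,
    nat_lit 0x88500000000000000000000000000000000000000000,nat_lit 0x20008000000000000000000000000000000000000000],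
    [nat_lit 0,nat_lit 0x100400e0000000000000000000000000000000000000000,
    nat_lit 0x2808000000000000000000000000000000000000000000000000000000000000000000000,
    nat_lit 0x2808000000000000000000000000000000000000000000000000000000000000000000000,
    nat_lit 0x2808000000000000000000000000000000000000000000000000000000000000000000000,
    nat_lit 0x840000000000000000000000000000000000000000000000000000000000000000000,
    nat_lit 0x840000000000000000000000000000000000000000000000000000000000000000000,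
    nat_lit 0x840000000000000000000000000000000000000000000000000000000000000000000,nat_lit 0],[nat_lit 0,nat_lit 0,
    nat_lit 0,nat_lit 0x1003000000000000000000000000000000000000000000000000000000000000000000000,
    nat_lit 0x1003000000000000000000000000000000000000000000000000000000000000000000000,
    nat_lit 0x1003000000000000000000000000000000000000000000000000000000000000000000000,
    nat_lit 0x4000000000000000000000000000000000000000000000000000000000000000000,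
    nat_lit 0x14180000000000000000000000000000000000000000000000000000000000000000000,nat_lit 0]],
    [[nat_lit 0x400000000000000000000000000000000000000000000000000000000,
    nat_lit 0x11100000000000000000000000000000000000000000000000000000,
    nat_lit 0x11100000000000000000000000000000000000000000000000000000,nat_lit 0,nat_lit 0,nat_lit 0,nat_lit 0,
    nat_lit 0,nat_lit 0],[nat_lit 0,nat_lit 0,nat_lit 0x44400000000000000000000000000000000000000000000000000000,
    nat_lit 0x44400000000000000000000000000000000000000000000000000000,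
    nat_lit 0x44400000000000000000000000000000000000000000000000000000,
    nat_lit 0x22200000000000000000000000000000000000000000000000000000,
    nat_lit 0x22200000000000000000000000000000000000000000000000000000,
    nat_lit 0x22200000000000000000000000000000000000000000000000000000,nat_lit 0],[nat_lit 0,
    nat_lit 0x200000000000000000000000000000000000000000000000000000000,
    nat_lit 0x200000000000000000000000000000000000000000000000000000000,
    nat_lit 0x200000000000000000000000000000000000000000000000000000000,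
    nat_lit 0x200000000000000000000000000000000000000000000000000000000,
    nat_lit 0x24000000000000000000000000000000000000000000000000000000000000000000000000000,nat_lit 0,nat_lit 0,
    nat_lit 0],[nat_lit 0x109000000000000000000000000000000000000000000000000000000000000000000000000000,
    nat_lit 0x109000000000000000000000000000000000000000000000000000000000000000000000000000,nat_lit 0,nat_lit 0,
    nat_lit 0x40000000000000000000000000000000000000000000000000000000000000000000000000000,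
    nat_lit 0x40000000000000000000000000000000000000000000000000000000000000000000000000000,
    nat_lit 0x40000000000000000000000000000000000000000000000000000000000000000000000000000,
    nat_lit 0x40000000000000000000000000000000000000000000000000000000000000000000000000000,
    nat_lit 0x40000000000000000000000000000000000000000000000000000000000000000000000000000],
    [nat_lit 0x202000000000000000000000000000000000000000000000000000000000000000000000000000,
    nat_lit 0x202000000000000000000000000000000000000000000000000000000000000000000000000000,nat_lit 0,nat_lit 0,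
    nat_lit 0x80000000000000000000000000000000000000000000000000000000000000000000000000000,
    nat_lit 0x80000000000000000000000000000000000000000000000000000000000000000000000000000,
    nat_lit 0x80000000000000000000000000000000000000000000000000000000000000000000000000000,
    nat_lit 0x80000000000000000000000000000000000000000000000000000000000000000000000000000,nat_lit 0],[nat_lit 0,
    nat_lit 0x10000000000000000000000000000000000000000000000000000000000000000000000000000,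
    nat_lit 0x8000000000000000000000000000000000000000000000000000000000000,
    nat_lit 0x8000000000000000000000000000000000000000000000000000000000000,
    nat_lit 0x1020000000000000000000000000000000000000000000000000000000000000000,
    nat_lit 0x1020000000000000000000000000000000000000000000000000000000000000000,
    nat_lit 0x800010000000000000000000000000000000000000000000000000000000000000,
    nat_lit 0x800010000000000000000000000000000000000000000000000000000000000000,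
    nat_lit 0x800010000000000000000000000000000000000000000000000000000000000000],
    [nat_lit 0x301200000000000000000000000000000000000000000000000000000000000000,
    nat_lit 0x200c060000000000000000000000000000000000000000000000000000000000000,
    nat_lit 0x40000000000000000000000000000000000000000000000000000000000000000,nat_lit 0,nat_lit 0,nat_lit 0x200000,
    nat_lit 0x200000,nat_lit 0x200000,nat_lit 0x500000],[nat_lit 0x4000000,nat_lit 0,nat_lit 0,nat_lit 0]]]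
    [[[[nat_lit 0,nat_lit 0,nat_lit 0,nat_lit 0,nat_lit 0,nat_lit 0,nat_lit 0,nat_lit 0,nat_lit 0],[nat_lit 0,
    nat_lit 0,nat_lit 0x888000000000000000000000000000000000000000000000000000000000000000000000000,nat_lit 0,
    nat_lit 0,nat_lit 0,nat_lit 0,nat_lit 0,nat_lit 0],[nat_lit 0,nat_lit 0,nat_lit 0,nat_lit 0,nat_lit 0,nat_lit 0,
    nat_lit 0,nat_lit 0,nat_lit 0],[nat_lit 0,nat_lit 0,nat_lit 0,nat_lit 0,nat_lit 0,nat_lit 0,nat_lit 0,nat_lit 0,
    nat_lit 0],[nat_lit 0,nat_lit 0,nat_lit 0,nat_lit 0,nat_lit 0,nat_lit 0,nat_lit 0,nat_lit 0,nat_lit 0],[nat_lit 0,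
    nat_lit 0,nat_lit 0x80000000000000000000000000,nat_lit 0,nat_lit 0,nat_lit 0,nat_lit 0,
    nat_lit 0x80000000000000000000000,nat_lit 0x80000000000000000000000],[nat_lit 0,nat_lit 0,nat_lit 0,nat_lit 0,
    nat_lit 0,nat_lit 0,nat_lit 0x8000000000,nat_lit 0,nat_lit 0],[nat_lit 0,nat_lit 0,nat_lit 0,nat_lit 0,nat_lit 0,
    nat_lit 0,nat_lit 0,nat_lit 0,nat_lit 0],[nat_lit 0xa00000000,nat_lit 0,nat_lit 0,nat_lit 0,nat_lit 0,nat_lit 0,
    nat_lit 0,nat_lit 0,nat_lit 0]],[[nat_lit 0,nat_lit 0,nat_lit 0,nat_lit 0,nat_lit 0,nat_lit 0,nat_lit 0,nat_lit 0,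
    nat_lit 0],[nat_lit 0x200000000000000000000000000000000000000,nat_lit 0x200000000000000000000000000000000000000,
    nat_lit 0,nat_lit 0,nat_lit 0,nat_lit 0,nat_lit 0,nat_lit 0,nat_lit 0],
    [nat_lit 0x800000000000000000000000000000000000000,nat_lit 0,nat_lit 0,
    nat_lit 0x20000000000000000000000000000000000,nat_lit 0x20000000000000000000000000000000000,nat_lit 0,
    nat_lit 0x20000000000000000000000000000000000,nat_lit 0x20000000000000000000000000000000000000,nat_lit 0],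
    [nat_lit 0,nat_lit 0,nat_lit 0,nat_lit 0,nat_lit 0,nat_lit 0,nat_lit 0,nat_lit 0,nat_lit 0],
    [nat_lit 0x9000000000000000000,nat_lit 0,nat_lit 0,nat_lit 0,nat_lit 0,nat_lit 0,nat_lit 0,
    nat_lit 0x205000000000000000,nat_lit 0],[nat_lit 0,nat_lit 0,nat_lit 0,nat_lit 0,nat_lit 0x8000000000000000,
    nat_lit 0,nat_lit 0,nat_lit 0x800000000000000,nat_lit 0],[nat_lit 0,nat_lit 0,
    nat_lit 0x4000000000000000000000000000000000000000000000000000,nat_lit 0,nat_lit 0,nat_lit 0,nat_lit 0,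
    nat_lit 0x440000000000000000000000000000000000000000000000000,nat_lit 0],[nat_lit 0,nat_lit 0,nat_lit 0,nat_lit 0,
    nat_lit 0,nat_lit 0,nat_lit 0x80000000000000000000000000000000000000000000000,
    nat_lit 0x80000000000000000000000000000000000000000000000,nat_lit 0],[nat_lit 0,
    nat_lit 0x800000000000000000000000000000000000000000000000,
    nat_lit 0x800000000000000000000000000000000000000000000000,nat_lit 0,nat_lit 0,nat_lit 0,nat_lit 0,
    nat_lit 0x420000000000000000000000000000000,nat_lit 0]],[[nat_lit 0x10000000000000000000000000000000,nat_lit 0,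
    nat_lit 0,nat_lit 0,nat_lit 0x800000000000000000000000000000000,nat_lit 0x800000000000000000000000000000000,
    nat_lit 0,nat_lit 0,nat_lit 0],[nat_lit 0,nat_lit 0,nat_lit 0,nat_lit 0,nat_lit 0,nat_lit 0,nat_lit 0,
    nat_lit 0x44000000000000000000000000000000,nat_lit 0],[nat_lit 0,nat_lit 0,nat_lit 0,nat_lit 0,nat_lit 0,
    nat_lit 0,nat_lit 0,nat_lit 0,nat_lit 0],[nat_lit 0,nat_lit 0,nat_lit 0,nat_lit 0,nat_lit 0,
    nat_lit 0x48000000000000000000000000000000000000000000000000000000000,nat_lit 0,nat_lit 0,nat_lit 0],[nat_lit 0,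
    nat_lit 0,nat_lit 0,nat_lit 0,nat_lit 0,nat_lit 0,nat_lit 0,nat_lit 0,
    nat_lit 0x1000000000000000000000000000000000000000000000000000000000000],[nat_lit 0,
    nat_lit 0x1000000000000000000000000000000000000000000000000000000000000,
    nat_lit 0x1000000000000000000000000000000000000000000000000000000000000,nat_lit 0,nat_lit 0,
    nat_lit 0x4000000000000000000000000000000000000000000,nat_lit 0,nat_lit 0,
    nat_lit 0x4000000000000000000000000000000000000000000],[nat_lit 0,nat_lit 0,nat_lit 0,nat_lit 0,nat_lit 0,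
    nat_lit 0,nat_lit 0,nat_lit 0,nat_lit 0],[nat_lit 0,nat_lit 0x400c0000000000000000000000000000000000000000,
    nat_lit 0x2000000000000000000000000000000000000000000000000000000000000000000000000,nat_lit 0,
    nat_lit 0x2000000000000000000000000000000000000000000000000000000000000000000000000,nat_lit 0,
    nat_lit 0x800000000000000000000000000000000000000000000000000000000000000000000,nat_lit 0,nat_lit 0],[nat_lit 0,
    nat_lit 0,nat_lit 0,nat_lit 0,nat_lit 0,nat_lit 0,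
    nat_lit 0x4000000000000000000000000000000000000000000000000000000000000000000,nat_lit 0,nat_lit 0]],
    [[nat_lit 0x400000000000000000000000000000000000000000000000000000000,nat_lit 0,
    nat_lit 0x100000000000000000000000000000000000000000000000000000,nat_lit 0,nat_lit 0,nat_lit 0,nat_lit 0,
    nat_lit 0,nat_lit 0],[nat_lit 0,nat_lit 0,nat_lit 0,nat_lit 0,nat_lit 0,nat_lit 0,
    nat_lit 0x22000000000000000000000000000000000000000000000000000000,nat_lit 0,nat_lit 0],[nat_lit 0,nat_lit 0,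
    nat_lit 0,nat_lit 0,nat_lit 0,
    nat_lit 0x24000000000000000000000000000000000000000000000000000000000000000000000000000,nat_lit 0,nat_lit 0,
    nat_lit 0],[nat_lit 0,nat_lit 0,nat_lit 0,nat_lit 0,nat_lit 0,nat_lit 0,nat_lit 0,nat_lit 0,nat_lit 0],[nat_lit 0,
    nat_lit 0,nat_lit 0,nat_lit 0,nat_lit 0,nat_lit 0,nat_lit 0,nat_lit 0,nat_lit 0],[nat_lit 0,
    nat_lit 0x10000000000000000000000000000000000000000000000000000000000000000000000000000,
    nat_lit 0x8000000000000000000000000000000000000000000000000000000000000,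
    nat_lit 0x8000000000000000000000000000000000000000000000000000000000000,nat_lit 0,nat_lit 0,nat_lit 0,nat_lit 0,
    nat_lit 0],[nat_lit 0,nat_lit 0,nat_lit 0x40000000000000000000000000000000000000000000000000000000000000000,
    nat_lit 0,nat_lit 0,nat_lit 0x200000,nat_lit 0x200000,nat_lit 0x200000,nat_lit 0],[nat_lit 0,nat_lit 0,nat_lit 0,
    nat_lit 0]]]]
    (nat_lit 1) (nat_lit 3) (nat_lit 27)
    [[nat_lit 2,nat_lit 257,nat_lit 0x1001,nat_lit 0x101001,nat_lit 0x10001,nat_lit 0x100001,nat_lit 0x1010001],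
    [nat_lit 32,nat_lit 272,nat_lit 528,nat_lit 0x1110,nat_lit 0x10110,nat_lit 0x10000110,nat_lit 0x100110,
    nat_lit 0x1010,nat_lit 0x11010,nat_lit 0x101010,nat_lit 0x10010,nat_lit 0x20010,nat_lit 0x100010,
    nat_lit 0x1000010,nat_lit 0x1001010,nat_lit 0x2000010,nat_lit 0x10000010,nat_lit 0x10010010,nat_lit 0x11000010],
    [nat_lit 512,nat_lit 768,nat_lit 0x1200,nat_lit 0x10200,nat_lit 0x10000200,nat_lit 0x1100,nat_lit 0x2100,
    nat_lit 0x11100,nat_lit 0x101100,nat_lit 0x1001100,nat_lit 0x10100,nat_lit 0x20100,nat_lit 0x1010100,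
    nat_lit 0x100100,nat_lit 0x1000100,nat_lit 0x10000100,nat_lit 0x10001100,nat_lit 0x10010100],[nat_lit 0x2000,
    nat_lit 0x3000,nat_lit 0x12000,nat_lit 0x102000,nat_lit 0x1002000,nat_lit 0x11000,nat_lit 0x21000,
    nat_lit 0x111000,nat_lit 0x1011000,nat_lit 0x101000,nat_lit 0x201000,nat_lit 0x1001000,nat_lit 0x1101000,
    nat_lit 0x2001000,nat_lit 0x10001000],[nat_lit 0x20000,nat_lit 0x30000,nat_lit 0x1020000,nat_lit 0x110000,
    nat_lit 0x210000,nat_lit 0x1110000,nat_lit 0x1010000,nat_lit 0x10010000],[nat_lit 0x200000,nat_lit 0x300000,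
    nat_lit 0x1100000,nat_lit 0x2100000],[nat_lit 0x2000000,nat_lit 0x3000000,nat_lit 0x12000000,nat_lit 0x11000000],
    [nat_lit 0x20000000]]
    [.c (nat_lit 1) (nat_lit 2),.c (nat_lit 0) (nat_lit 0xc3009140209),.c (nat_lit 1) (nat_lit 0xc3109145209),
    .c (nat_lit 0) (nat_lit 0xc3151145208),.c (nat_lit 0) (nat_lit 0xc3009005209),
    .c (nat_lit 0) (nat_lit 0xc3151145208),.c (nat_lit 1) (nat_lit 0xc0080140008),.c (nat_lit 2) (nat_lit 2),
    .c (nat_lit 0) (nat_lit 0x2000002005),.c (nat_lit 0) (nat_lit 0xc00c9144209),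
    .c (nat_lit 1) (nat_lit 0xc0089140209),.c (nat_lit 0) (nat_lit 0xc00c9000209),
    .r (nat_lit 0xdb3) (nat_lit 13) [nat_lit 0xc2000140204,nat_lit 0x102080002],
    .c (nat_lit 0) (nat_lit 0xc50d1149208),.c (nat_lit 1) (nat_lit 0xc0189145209),
    .c (nat_lit 1) (nat_lit 0xc0089005209),.c (nat_lit 6) (nat_lit 0x80090104248),
    .c (nat_lit 0) (nat_lit 0x2000080005),.c (nat_lit 0) (nat_lit 0xc00c9105209),
    .r (nat_lit 0xdb3) (nat_lit 13) [nat_lit 0x82200000244,nat_lit 0x102080002],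
    .c (nat_lit 1) (nat_lit 0x82100000009),.r (nat_lit 0xdb3) (nat_lit 13) [nat_lit 0x1430c4142,nat_lit 0x102080002],
    .c (nat_lit 0) (nat_lit 0x1c50c9145208),.c (nat_lit 0) (nat_lit 0xc00c9145209),
    .r (nat_lit 0xdb3) (nat_lit 13) [nat_lit 0xc2005000204,nat_lit 0x102080002],
    .c (nat_lit 1) (nat_lit 0xc3100000008),.c (nat_lit 3) (nat_lit 2),.c (nat_lit 0) (nat_lit 0xc30c9142205),
    .c (nat_lit 0) (nat_lit 0xc30c9142209),.c (nat_lit 0) (nat_lit 0xc30c90c0205),.c (nat_lit 6) (nat_lit 0x4002003),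
    .c (nat_lit 0) (nat_lit 0xc30c9142209),.c (nat_lit 1) (nat_lit 0xc3089143205),
    .c (nat_lit 0) (nat_lit 0xc30c9003209),.r (nat_lit 0xdb3) (nat_lit 13) [nat_lit 0x30c0005008244,
    nat_lit 0x102080002],.c (nat_lit 1) (nat_lit 0x3089140209),.c (nat_lit 3) (nat_lit 0xc2004),
    .c (nat_lit 0) (nat_lit 0xc30c9003205),.c (nat_lit 0) (nat_lit 0x30c9000209),.c (nat_lit 1) (nat_lit 0x84002005),
    .c (nat_lit 0) (nat_lit 0x80000002009),.c (nat_lit 0) (nat_lit 0xc30c9143205),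
    .c (nat_lit 0) (nat_lit 0xc30c9143205),.c (nat_lit 6) (nat_lit 0x8082005),.c (nat_lit 4) (nat_lit 2),
    .r (nat_lit 773) (nat_lit 12) [nat_lit 129,nat_lit 0x7347640358244,nat_lit 0x630690c319202,
    nat_lit 0xc48660c319204,nat_lit 0x734764d358242,nat_lit 0x186000000004],.c (nat_lit 1) (nat_lit 0xc30890c5205),
    .r (nat_lit 0xdb3) (nat_lit 13) [nat_lit 0x30c0145148144,nat_lit 0x102080002],
    .r (nat_lit 0xdbb) (nat_lit 11) [nat_lit 0x82000000004,nat_lit 0x82404109204],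
    .c (nat_lit 0) (nat_lit 0xc30c908520d),.c (nat_lit 0) (nat_lit 0xc30c9085207),
    .r (nat_lit 0xdb3) (nat_lit 13) [nat_lit 0x30c0000148244,nat_lit 0x102080002],
    .c (nat_lit 1) (nat_lit 0x3089005209),.r (nat_lit 0xdbb) (nat_lit 11) [nat_lit 0x82000000004,nat_lit 129],
    .r (nat_lit 5) (nat_lit 2) [nat_lit 0x18082244109204,nat_lit 0x30c3205148241,nat_lit 0x30d4205148244,
    nat_lit 0x2602244109204,nat_lit 0x30c3205488242,nat_lit 0x5145749250181,nat_lit 0x30c3212148242],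
    .c (nat_lit 1) (nat_lit 0x3189145209),.c (nat_lit 6) (nat_lit 0x2090104248),
    .r (nat_lit 0xdb3) (nat_lit 13) [nat_lit 0x20c0245148244,nat_lit 0x102080002],
    .c (nat_lit 0) (nat_lit 0xc30c9145207),.c (nat_lit 5) (nat_lit 2),.c (nat_lit 0) (nat_lit 0xc30c9085205),
    .c (nat_lit 0) (nat_lit 0x30c9105209),.c (nat_lit 1) (nat_lit 0x84080005),.c (nat_lit 0) (nat_lit 0xc30d11c5204),
    .c (nat_lit 0) (nat_lit 0x1430d1245208),.c (nat_lit 0) (nat_lit 0x80000080009),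
    .c (nat_lit 0) (nat_lit 0xc30c90c5205),.c (nat_lit 6) (nat_lit 2),.c (nat_lit 0) (nat_lit 0xc30cf145202),
    .r (nat_lit 0xdb3) (nat_lit 13) [nat_lit 0x2002200000244,nat_lit 0x102080002],
    .c (nat_lit 0) (nat_lit 0x1430cd145204),.c (nat_lit 7) (nat_lit 2),.c (nat_lit 0) (nat_lit 0x2430c9145208),
    .c (nat_lit 1) (nat_lit 0xc0080000004),.c (nat_lit 0) (nat_lit 0x30c9145209),.c (nat_lit 8) (nat_lit 2)]]

/-- nodes -/
noncomputable def rD8k_5_1 : List RJ :=
  [.l (nat_lit 12) (nat_lit 960) (nat_lit 4) (nat_lit 0x22a000001e0000001e7000001e7000001c8000001c8000001c0000001ac000001f400000172000001a4000001a4000001a6000001c0000001c8000001de) (nat_lit 0x4a00000000000000430000004300000062000000620000007e0000006a000000b80000003600000086000000860000006a000000840000004c00000062)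
    (nat_lit 0x1e022a2232bb1901b01d41c01720c01521762481e01de1a61961e010519d2102301620c01201a415a15a1e01780c017e19d2bb0f21a423b21d16f0eb12f1b114516917d16319b11b1052231a40f21a31851e315f15f1e11b518b16b15d1b316b2301b018521d18416611a1400e61181481121780f01401782101901a323b1661840fc15e0c819214214219010817c1900c01c015f0eb15e1401421561081d817618212c13c1ac12c1621d41e316f0fc11a1281420f417614a12011c0fe2942141a40c01e11b11921181761d81421c419816e0c014c1801b812017215f12f0c80e60f41080c01420c80ec1080e215415415a17618b1691421121201820ec16e12a1180f614415814215a1521b514514214814a1760c819811e12a0d212011e13e1781e015d1631080f00fe13c0e214c1201441401221ac1ac1e024816b17d19017811c12c1080c00d20f61c814019615e17e1a616b11b19017821412c1541b813e14215e1ac0f40f40c01de1b319b17c1402941ac15418011e1581961ac1920f4)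
    (nat_lit 0x1e03c03c03c03c03c03c03c03c03c03c03c03c03c03c03c022a1e03c03c03c03c03c03c03c03c03c03c03c03c03c03c02231050f23c03c03c03c03c03c03c03c03c03c03c03c03c02bb19d1a40f23c03c03c03c03c03c03c03c03c03c03c03c019021023b1a31843c03c03c03c03c03c03c03c03c03c03c01b023021d1851661843c03c03c03c03c03c03c03c03c03c01d416216f1e311a0fc1423c03c03c03c03c03c03c03c03c01c00c00eb15f14015e1561423c03c03c03c03c03c03c03c017212012f15f0e60c81080f41423c03c03c03c03c03c03c00c01a41b11c51181921801761c41423c03c03c03c03c03c015215a1451b514814217614a1980c812a3c03c03c03c03c017615a16918b11214218212016e0ec11812a3c03c03c03c01c81dc17d16b17818812c11c0c01080f60d21403c03c03c01a217816315d0f010813c0fe14c0e21441201221403c03c01de0c019b1b314017c1ac23c18015415811e1ac1960f43c01a617e11b16b17819012c2141b815414213e1ac15e0f40f4)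
    (nat_lit 4) (nat_lit 139)
    [[nat_lit 2,nat_lit 3,nat_lit 258,nat_lit 0x10000002,nat_lit 17,nat_lit 257,nat_lit 513,nat_lit 0x10101,
    nat_lit 0x1001,nat_lit 0x1101,nat_lit 0x11001,nat_lit 0x10001001,nat_lit 0x100001,nat_lit 0x100002,
    nat_lit 0x100011,nat_lit 0x110001,nat_lit 0x1000001,nat_lit 0x10000001,nat_lit 0x10000101,nat_lit 0x10001101,
    nat_lit 0x10011001],[nat_lit 32,nat_lit 288,nat_lit 0x1020,nat_lit 0x101020,nat_lit 0x10020,nat_lit 272,
    nat_lit 0x1120,nat_lit 528,nat_lit 0x1110,nat_lit 0x10110,nat_lit 0x100110,nat_lit 0x1000110,nat_lit 0x1010,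
    nat_lit 0x2020,nat_lit 0x101110,nat_lit 0x2010,nat_lit 0x102010,nat_lit 0x10002010,nat_lit 0x11010,
    nat_lit 0x111010,nat_lit 0x101010,nat_lit 0x1001010,nat_lit 0x10001010,nat_lit 0x10011010,nat_lit 0x10010,
    nat_lit 0x20010,nat_lit 0x110010,nat_lit 0x1010010,nat_lit 0x10010010,nat_lit 0x100010,nat_lit 0x1000010],
    [nat_lit 512,nat_lit 768,nat_lit 0x1200,nat_lit 0x100200,nat_lit 0x1100,nat_lit 0x101100,nat_lit 0x2100,
    nat_lit 0x10001100,nat_lit 0x10011100,nat_lit 0x10100,nat_lit 0x110100,nat_lit 0x10010100,nat_lit 0x100100,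
    nat_lit 0x1000100,nat_lit 0x10000100],[nat_lit 0x2000,nat_lit 0x10012000,nat_lit 0x102000,nat_lit 0x10002000,
    nat_lit 0x11000,nat_lit 0x10021000,nat_lit 0x111000,nat_lit 0x10011000,nat_lit 0x11011000,nat_lit 0x101000,
    nat_lit 0x10111000,nat_lit 0x201000,nat_lit 0x10101000,nat_lit 0x1001000,nat_lit 0x11001000,nat_lit 0x10001000],
    [nat_lit 0x20000,nat_lit 0x120000,nat_lit 0x1020000,nat_lit 0x10020000,nat_lit 0x110000,nat_lit 0x1110000,
    nat_lit 0x10110000,nat_lit 0x1010000,nat_lit 0x10010000],[nat_lit 0x200000],[nat_lit 0x2000000,nat_lit 0x3000000],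
    []]
    [.c (nat_lit 1) (nat_lit 2),.c (nat_lit 0) (nat_lit 0x300004),.c (nat_lit 0) (nat_lit 0x350000c),
    .c (nat_lit 3) (nat_lit 0x2220007),.c (nat_lit 0) (nat_lit 0x220040d),.c (nat_lit 0) (nat_lit 0x220000d),
    .c (nat_lit 0) (nat_lit 0x420000d),.c (nat_lit 0) (nat_lit 0x20022276),.c (nat_lit 0) (nat_lit 0x2020000d),
    .c (nat_lit 0) (nat_lit 0x2220000d),.c (nat_lit 0) (nat_lit 0x2022276),.c (nat_lit 0) (nat_lit 0x3035000c),
    .c (nat_lit 0) (nat_lit 0x220400d),.c (nat_lit 0) (nat_lit 0x303006),.c (nat_lit 0) (nat_lit 0x30550c),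
    .c (nat_lit 0) (nat_lit 0x220404dc),.r (nat_lit 0xdac) (nat_lit 15) [nat_lit 0x220003,nat_lit 33,nat_lit 0x202003,
    nat_lit 0x33555c06],.c (nat_lit 0) (nat_lit 0x35000c),.c (nat_lit 0) (nat_lit 0x335000c),
    .c (nat_lit 0) (nat_lit 0x3355000c),.c (nat_lit 0) (nat_lit 0x23044dc),.c (nat_lit 2) (nat_lit 2),
    .c (nat_lit 0) (nat_lit 0x200080d),.c (nat_lit 0) (nat_lit 0x2000080d),.c (nat_lit 0) (nat_lit 0x3506),
    .c (nat_lit 0) (nat_lit 0x242445dc),.c (nat_lit 0) (nat_lit 0x220040d),.c (nat_lit 1) (nat_lit 0x2240080d),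
    .c (nat_lit 0) (nat_lit 0x2000207),.c (nat_lit 0) (nat_lit 0x2200040d),.c (nat_lit 1) (nat_lit 0x302550cd),
    .c (nat_lit 0) (nat_lit 0x200440d),.c (nat_lit 0) (nat_lit 0x2000207),.c (nat_lit 0) (nat_lit 0x2020040d),
    .c (nat_lit 1) (nat_lit 0x20200407),.c (nat_lit 1) (nat_lit 0x2240440d),.c (nat_lit 0) (nat_lit 0x20000207),
    .c (nat_lit 1) (nat_lit 0x20202207),.c (nat_lit 0) (nat_lit 0x30306),.c (nat_lit 1) (nat_lit 0x32550cd),
    .c (nat_lit 0) (nat_lit 0x422400dc),.c (nat_lit 0) (nat_lit 0x2000440d),.c (nat_lit 0) (nat_lit 0x20000207),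
    .c (nat_lit 0) (nat_lit 0x30306),.c (nat_lit 0) (nat_lit 0x422040dc),.c (nat_lit 0) (nat_lit 0x333550cd),
    .c (nat_lit 0) (nat_lit 0x242442d6),.c (nat_lit 0) (nat_lit 0x242400dc),.c (nat_lit 0) (nat_lit 0x222440dc),
    .c (nat_lit 0) (nat_lit 0x220040dc),.c (nat_lit 0) (nat_lit 0x2207),.c (nat_lit 0) (nat_lit 0x2000207),
    .c (nat_lit 3) (nat_lit 2),.c (nat_lit 0) (nat_lit 0x2000005),.c (nat_lit 0) (nat_lit 0x2400000d),
    .c (nat_lit 0) (nat_lit 0x2002007),.c (nat_lit 3) (nat_lit 0x3200000c),.c (nat_lit 0) (nat_lit 0x2200400d),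
    .c (nat_lit 0) (nat_lit 0x4200000d),.c (nat_lit 1) (nat_lit 0x2244000d),.c (nat_lit 0) (nat_lit 0x62044dc),
    .c (nat_lit 0) (nat_lit 0x303555cd),.c (nat_lit 1) (nat_lit 0x302505cd),.c (nat_lit 0) (nat_lit 0x242044dc),
    .c (nat_lit 0) (nat_lit 0x220400d),.c (nat_lit 0) (nat_lit 0x2000007),.c (nat_lit 0) (nat_lit 0x204000d),
    .c (nat_lit 4) (nat_lit 2),.c (nat_lit 0) (nat_lit 0x422044dc),.c (nat_lit 0) (nat_lit 0x20002007),
    .c (nat_lit 1) (nat_lit 0x20220007),.c (nat_lit 0) (nat_lit 0x33555cd),.c (nat_lit 0) (nat_lit 0x422244d6),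
    .c (nat_lit 1) (nat_lit 0x32505cd),.c (nat_lit 0) (nat_lit 0x422044dc),.c (nat_lit 0) (nat_lit 0x22044dc),
    .c (nat_lit 0) (nat_lit 0x2020400d),.c (nat_lit 0) (nat_lit 0x422004dc),.c (nat_lit 0) (nat_lit 0x2000800d),
    .c (nat_lit 0) (nat_lit 0x33006),.c (nat_lit 0) (nat_lit 0x20000007),.c (nat_lit 0) (nat_lit 0x3005000c),
    .c (nat_lit 0) (nat_lit 0x2004000d),.c (nat_lit 5) (nat_lit 2),.c (nat_lit 0) (nat_lit 0x242424d6),
    .c (nat_lit 0) (nat_lit 0x222444d6),.c (nat_lit 0) (nat_lit 0x242244d6),.c (nat_lit 0) (nat_lit 0x333505cd),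
    .c (nat_lit 0) (nat_lit 0x222404dc),.c (nat_lit 0) (nat_lit 0x33006),.c (nat_lit 0) (nat_lit 0x303555cd),
    .c (nat_lit 0) (nat_lit 0x242044dc),.c (nat_lit 6) (nat_lit 2),.c (nat_lit 7) (nat_lit 2),
    .c (nat_lit 1) (nat_lit 0x200002)]]

/-- nodes -/
noncomputable def rD8k_5_2 : List RJ :=
  [.s (nat_lit 12) (nat_lit 960) (nat_lit 3) (nat_lit 0x18c0000018c0000018900000189000001aa000001aa000001b3000001b3000001b0000001b0000001f6000001f6000001a7000001a7000001a1000001a1) (nat_lit 0x6a0000006a0000006d0000006d0000004c0000004c0000004300000043000000460000004600000000000000000000004f0000004f0000005500000055)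
    (nat_lit 0x14012e11f0fb0ec12e14911f17018218c18c0e313d1370e314014011f11f0ec12e14911f1821821b018c0f513d15b0f511f0fb12e0fe16713d10a19a14314318914d17c11611617c11f11f11c12e18513d14618811f14317d18916a14614610412e12e13d13d11c15e16711f16416419e1ce18b1671551250ec0ec18516715e11c1851670fe1641f222214911917f16d11f11f18819a16711f1701700f514f1f521914c11c1b217014914914610a18516717017016d16d19b1bf16416412212e18218214314316416416d14f15e16a1b01b019117915b15b18217011f1430fe16416d0f516a15e1b01b023b22315b15b18c18c18914d2221ce1bf2191b01b01341f61a71a71770c71b018c17d1891f219e19b1f51b01b01f61341a71a71a11b913d13d14611611916716411c2231791a71a71401581521520f50e316a17c14918b16414c23b1911a71a71401401a61520f50e310417c16d12512e17015b15b1b90c71521521a616415b13714611617f1551221b215b15b1a11771a61521401a6)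
    (nat_lit 0x1403c03c03c03c03c03c03c03c03c03c03c03c03c03c03c012e1403c03c03c03c03c03c03c03c03c03c03c03c03c03c011f11f12e3c03c03c03c03c03c03c03c03c03c03c03c03c00fb11f0fe12e3c03c03c03c03c03c03c03c03c03c03c03c00ec0ec16718511c3c03c03c03c03c03c03c03c03c03c03c012e12e13d13d15e11c3c03c03c03c03c03c03c03c03c03c014914910a1461671851703c03c03c03c03c03c03c03c03c011f11f19a18811f1671701703c03c03c03c03c03c03c03c017018214311f1640fe0f516d15e3c03c03c03c03c03c03c018218214314316416414f16d16a15e3c03c03c03c03c03c018c1b018917d19e1f21f519b1b01b01343c03c03c03c03c018c18c14d1891ce2222191bf1b01b01f61343c03c03c03c00e30f517c16a18b14914c16419123b1a71a71403c03c03c013d13d11614616711911c1641792231a71a71581403c03c013715b11614615517f1b212215b15b1771a11521a61a63c00e30f517c10412516d17012e15b15b0c71b91521521641a6)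
    (nat_lit 5) (nat_lit 79)
    [[nat_lit 0,nat_lit 9,nat_lit 10],[nat_lit 0,nat_lit 9,nat_lit 11],[nat_lit 0,nat_lit 12,nat_lit 2],[nat_lit 0,
    nat_lit 12,nat_lit 3],[nat_lit 0,nat_lit 13,nat_lit 2],[nat_lit 0,nat_lit 14,nat_lit 5],[nat_lit 0,nat_lit 15,
    nat_lit 5],[nat_lit 1,nat_lit 2,nat_lit 13],[nat_lit 1,nat_lit 3,nat_lit 12],[nat_lit 1,nat_lit 3,nat_lit 13],
    [nat_lit 1,nat_lit 4,nat_lit 14],[nat_lit 1,nat_lit 4,nat_lit 15],[nat_lit 1,nat_lit 10,nat_lit 8],[nat_lit 1,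
    nat_lit 11,nat_lit 8],[nat_lit 2,nat_lit 6],[nat_lit 2,nat_lit 7],[nat_lit 2,nat_lit 12,nat_lit 12],[nat_lit 2,
    nat_lit 12,nat_lit 13],[nat_lit 2,nat_lit 13,nat_lit 12],[nat_lit 2,nat_lit 13,nat_lit 13],[nat_lit 3,nat_lit 6],
    [nat_lit 3,nat_lit 7],[nat_lit 3,nat_lit 12,nat_lit 12],[nat_lit 3,nat_lit 12,nat_lit 13],[nat_lit 3,nat_lit 13,
    nat_lit 12],[nat_lit 3,nat_lit 13,nat_lit 13],[nat_lit 4,nat_lit 8],[nat_lit 4,nat_lit 9],[nat_lit 4,nat_lit 14,
    nat_lit 13],[nat_lit 4,nat_lit 15,nat_lit 13],[nat_lit 5,nat_lit 8],[nat_lit 5,nat_lit 9],[nat_lit 5,nat_lit 12,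
    nat_lit 14],[nat_lit 5,nat_lit 12,nat_lit 15],[nat_lit 6,nat_lit 10,nat_lit 14],[nat_lit 6,nat_lit 11,nat_lit 14],
    [nat_lit 6,nat_lit 11,nat_lit 15],[nat_lit 7,nat_lit 14,nat_lit 10],[nat_lit 7,nat_lit 15,nat_lit 10],[nat_lit 7,
    nat_lit 15,nat_lit 11],[nat_lit 8,nat_lit 10,nat_lit 12],[nat_lit 8,nat_lit 11,nat_lit 12],[nat_lit 8,nat_lit 11,
    nat_lit 13],[nat_lit 8,nat_lit 12,nat_lit 10],[nat_lit 8,nat_lit 12,nat_lit 11],[nat_lit 9,nat_lit 10,nat_lit 13],
    [nat_lit 9,nat_lit 11,nat_lit 13],[nat_lit 9,nat_lit 12,nat_lit 10],[nat_lit 9,nat_lit 13,nat_lit 10],[nat_lit 9,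
    nat_lit 13,nat_lit 11],[nat_lit 14,nat_lit 14,nat_lit 14],[nat_lit 14,nat_lit 14,nat_lit 15],[nat_lit 14,
    nat_lit 15,nat_lit 14],[nat_lit 14,nat_lit 15,nat_lit 15],[nat_lit 15,nat_lit 15,nat_lit 15]]
    [nat_lit 0x109a,nat_lit 0x109b,nat_lit 0x10c2,nat_lit 0x10c3,nat_lit 0x10d2,nat_lit 0x10e5,nat_lit 0x10f5,
    nat_lit 0x112d,nat_lit 0x113c,nat_lit 0x113d,nat_lit 0x114e,nat_lit 0x114f,nat_lit 0x11a8,nat_lit 0x11b8,
    nat_lit 294,nat_lit 295,nat_lit 0x12cc,nat_lit 0x12cd,nat_lit 0x12dc,nat_lit 0x12dd,nat_lit 310,nat_lit 311,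
    nat_lit 0x13cc,nat_lit 0x13cd,nat_lit 0x13dc,nat_lit 0x13dd,nat_lit 328,nat_lit 329,nat_lit 0x14ed,nat_lit 0x14fd,
    nat_lit 344,nat_lit 345,nat_lit 0x15ce,nat_lit 0x15cf,nat_lit 0x16ae,nat_lit 0x16be,nat_lit 0x16bf,nat_lit 0x17ea,
    nat_lit 0x17fa,nat_lit 0x17fb,nat_lit 0x18ac,nat_lit 0x18bc,nat_lit 0x18bd,nat_lit 0x18ca,nat_lit 0x18cb,
    nat_lit 0x19ad,nat_lit 0x19bd,nat_lit 0x19ca,nat_lit 0x19da,nat_lit 0x19db,nat_lit 0x1eee,nat_lit 0x1eef,
    nat_lit 0x1efe,nat_lit 0x1eff,nat_lit 0x1fff]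
    [[[nat_lit 0,nat_lit 9,nat_lit 10],[nat_lit 0,nat_lit 9,nat_lit 11],[nat_lit 0,nat_lit 12,nat_lit 2],[nat_lit 0,
    nat_lit 12,nat_lit 3],[nat_lit 0,nat_lit 13,nat_lit 2],[nat_lit 0,nat_lit 14,nat_lit 5],[nat_lit 0,nat_lit 15,
    nat_lit 5],[nat_lit 1,nat_lit 2,nat_lit 13],[nat_lit 1,nat_lit 3,nat_lit 12],[nat_lit 1,nat_lit 3,nat_lit 13],
    [nat_lit 1,nat_lit 4,nat_lit 14],[nat_lit 1,nat_lit 4,nat_lit 15]],[[nat_lit 1,nat_lit 10,nat_lit 8],[nat_lit 1,
    nat_lit 11,nat_lit 8],[nat_lit 2,nat_lit 0,nat_lit 12],[nat_lit 2,nat_lit 0,nat_lit 13],[nat_lit 2,nat_lit 6],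
    [nat_lit 2,nat_lit 7],[nat_lit 2,nat_lit 12,nat_lit 12],[nat_lit 2,nat_lit 12,nat_lit 13],[nat_lit 2,nat_lit 13,
    nat_lit 1],[nat_lit 2,nat_lit 13,nat_lit 12],[nat_lit 2,nat_lit 13,nat_lit 13],[nat_lit 3,nat_lit 0,nat_lit 12]],
    [[nat_lit 3,nat_lit 6],[nat_lit 3,nat_lit 7],[nat_lit 3,nat_lit 12,nat_lit 1],[nat_lit 3,nat_lit 12,nat_lit 12],
    [nat_lit 3,nat_lit 12,nat_lit 13],[nat_lit 3,nat_lit 13,nat_lit 1],[nat_lit 3,nat_lit 13,nat_lit 12],[nat_lit 3,
    nat_lit 13,nat_lit 13],[nat_lit 4,nat_lit 8],[nat_lit 4,nat_lit 9],[nat_lit 4,nat_lit 14,nat_lit 1],[nat_lit 4,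
    nat_lit 14,nat_lit 13]],[[nat_lit 4,nat_lit 15,nat_lit 1],[nat_lit 4,nat_lit 15,nat_lit 13],[nat_lit 5,nat_lit 0,
    nat_lit 14],[nat_lit 5,nat_lit 0,nat_lit 15],[nat_lit 5,nat_lit 8],[nat_lit 5,nat_lit 9],[nat_lit 5,nat_lit 12,
    nat_lit 14],[nat_lit 5,nat_lit 12,nat_lit 15],[nat_lit 6,nat_lit 2],[nat_lit 6,nat_lit 3],[nat_lit 6,nat_lit 10,
    nat_lit 14],[nat_lit 6,nat_lit 11,nat_lit 14]],[[nat_lit 6,nat_lit 11,nat_lit 15],[nat_lit 7,nat_lit 2],
    [nat_lit 7,nat_lit 3],[nat_lit 7,nat_lit 14,nat_lit 10],[nat_lit 7,nat_lit 15,nat_lit 10],[nat_lit 7,nat_lit 15,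
    nat_lit 11],[nat_lit 8,nat_lit 1,nat_lit 10],[nat_lit 8,nat_lit 1,nat_lit 11],[nat_lit 8,nat_lit 4],[nat_lit 8,
    nat_lit 5],[nat_lit 8,nat_lit 10,nat_lit 12],[nat_lit 8,nat_lit 11,nat_lit 12]],[[nat_lit 8,nat_lit 11,
    nat_lit 13],[nat_lit 8,nat_lit 12,nat_lit 10],[nat_lit 8,nat_lit 12,nat_lit 11],[nat_lit 9,nat_lit 4],[nat_lit 9,
    nat_lit 5],[nat_lit 9,nat_lit 10,nat_lit 0],[nat_lit 9,nat_lit 10,nat_lit 13],[nat_lit 9,nat_lit 11,nat_lit 0],
    [nat_lit 9,nat_lit 11,nat_lit 13],[nat_lit 9,nat_lit 12,nat_lit 10],[nat_lit 9,nat_lit 13,nat_lit 10],[nat_lit 9,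
    nat_lit 13,nat_lit 11]],[[nat_lit 10,nat_lit 0,nat_lit 9],[nat_lit 10,nat_lit 7,nat_lit 14],[nat_lit 10,nat_lit 7,
    nat_lit 15],[nat_lit 10,nat_lit 8,nat_lit 1],[nat_lit 10,nat_lit 8,nat_lit 12],[nat_lit 10,nat_lit 9,nat_lit 12],
    [nat_lit 10,nat_lit 9,nat_lit 13],[nat_lit 10,nat_lit 12,nat_lit 8],[nat_lit 10,nat_lit 13,nat_lit 9],[nat_lit 10,
    nat_lit 14,nat_lit 6],[nat_lit 11,nat_lit 0,nat_lit 9],[nat_lit 11,nat_lit 7,nat_lit 15]],[[nat_lit 11,nat_lit 8,
    nat_lit 1],[nat_lit 11,nat_lit 8,nat_lit 12],[nat_lit 11,nat_lit 9,nat_lit 13],[nat_lit 11,nat_lit 12,nat_lit 8],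
    [nat_lit 11,nat_lit 13,nat_lit 8],[nat_lit 11,nat_lit 13,nat_lit 9],[nat_lit 11,nat_lit 14,nat_lit 6],[nat_lit 11,
    nat_lit 15,nat_lit 6],[nat_lit 12,nat_lit 1,nat_lit 3],[nat_lit 12,nat_lit 2,nat_lit 0],[nat_lit 12,nat_lit 2,
    nat_lit 12],[nat_lit 12,nat_lit 2,nat_lit 13]],[[nat_lit 12,nat_lit 3,nat_lit 0],[nat_lit 12,nat_lit 3,
    nat_lit 12],[nat_lit 12,nat_lit 3,nat_lit 13],[nat_lit 12,nat_lit 8,nat_lit 10],[nat_lit 12,nat_lit 8,nat_lit 11],
    [nat_lit 12,nat_lit 10,nat_lit 8],[nat_lit 12,nat_lit 10,nat_lit 9],[nat_lit 12,nat_lit 11,nat_lit 8],[nat_lit 12,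
    nat_lit 12,nat_lit 2],[nat_lit 12,nat_lit 12,nat_lit 3],[nat_lit 12,nat_lit 13,nat_lit 2],[nat_lit 12,nat_lit 13,
    nat_lit 3]],[[nat_lit 12,nat_lit 14,nat_lit 5],[nat_lit 12,nat_lit 15,nat_lit 5],[nat_lit 13,nat_lit 1,nat_lit 2],
    [nat_lit 13,nat_lit 1,nat_lit 3],[nat_lit 13,nat_lit 2,nat_lit 0],[nat_lit 13,nat_lit 2,nat_lit 12],[nat_lit 13,
    nat_lit 2,nat_lit 13],[nat_lit 13,nat_lit 3,nat_lit 12],[nat_lit 13,nat_lit 3,nat_lit 13],[nat_lit 13,nat_lit 4,
    nat_lit 14],[nat_lit 13,nat_lit 4,nat_lit 15],[nat_lit 13,nat_lit 8,nat_lit 11]],[[nat_lit 13,nat_lit 9,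
    nat_lit 10],[nat_lit 13,nat_lit 9,nat_lit 11],[nat_lit 13,nat_lit 10,nat_lit 9],[nat_lit 13,nat_lit 11,nat_lit 9],
    [nat_lit 13,nat_lit 12,nat_lit 2],[nat_lit 13,nat_lit 12,nat_lit 3],[nat_lit 13,nat_lit 13,nat_lit 2],[nat_lit 13,
    nat_lit 13,nat_lit 3],[nat_lit 14,nat_lit 1,nat_lit 4],[nat_lit 14,nat_lit 5,nat_lit 0],[nat_lit 14,nat_lit 5,
    nat_lit 12],[nat_lit 14,nat_lit 6,nat_lit 10]],[[nat_lit 14,nat_lit 6,nat_lit 11],[nat_lit 14,nat_lit 10,
    nat_lit 7],[nat_lit 14,nat_lit 13,nat_lit 4],[nat_lit 14,nat_lit 14,nat_lit 14],[nat_lit 14,nat_lit 14,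
    nat_lit 15],[nat_lit 14,nat_lit 15,nat_lit 14],[nat_lit 14,nat_lit 15,nat_lit 15],[nat_lit 15,nat_lit 1,
    nat_lit 4],[nat_lit 15,nat_lit 5,nat_lit 0],[nat_lit 15,nat_lit 5,nat_lit 12],[nat_lit 15,nat_lit 6,nat_lit 11],
    [nat_lit 15,nat_lit 10,nat_lit 7]],[[nat_lit 15,nat_lit 11,nat_lit 7],[nat_lit 15,nat_lit 13,nat_lit 4],
    [nat_lit 15,nat_lit 14,nat_lit 14],[nat_lit 15,nat_lit 14,nat_lit 15],[nat_lit 15,nat_lit 15,nat_lit 14],
    [nat_lit 15,nat_lit 15,nat_lit 15]]]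
    [[nat_lit 65,nat_lit 67,nat_lit 93,nat_lit 96,nat_lit 112,nat_lit 129,nat_lit 140,nat_lit 20,nat_lit 26,
    nat_lit 29,nat_lit 34,nat_lit 36],[nat_lit 75,nat_lit 84,nat_lit 2,nat_lit 4,nat_lit 44,nat_lit 49,nat_lit 104,
    nat_lit 106,nat_lit 110,nat_lit 124,nat_lit 126,nat_lit 3],[nat_lit 45,nat_lit 50,nat_lit 92,nat_lit 105,
    nat_lit 107,nat_lit 111,nat_lit 125,nat_lit 127,nat_lit 56,nat_lit 63,nat_lit 128,nat_lit 134],[nat_lit 139,
    nat_lit 145,nat_lit 5,nat_lit 6,nat_lit 57,nat_lit 64,nat_lit 108,nat_lit 109,nat_lit 16,nat_lit 24,nat_lit 81,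
    nat_lit 90],[nat_lit 91,nat_lit 17,nat_lit 25,nat_lit 133,nat_lit 143,nat_lit 144,nat_lit 12,nat_lit 13,
    nat_lit 32,nat_lit 40,nat_lit 79,nat_lit 87],[nat_lit 88,nat_lit 101,nat_lit 103,nat_lit 33,nat_lit 41,nat_lit 72,
    nat_lit 80,nat_lit 82,nat_lit 89,nat_lit 102,nat_lit 122,nat_lit 123],[nat_lit 0,nat_lit 51,nat_lit 52,nat_lit 54,
    nat_lit 61,nat_lit 69,nat_lit 70,nat_lit 99,nat_lit 120,nat_lit 131,nat_lit 1,nat_lit 53],[nat_lit 55,nat_lit 62,
    nat_lit 71,nat_lit 100,nat_lit 119,nat_lit 121,nat_lit 132,nat_lit 142,nat_lit 8,nat_lit 14,nat_lit 18,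
    nat_lit 21],[nat_lit 23,nat_lit 27,nat_lit 30,nat_lit 58,nat_lit 59,nat_lit 76,nat_lit 77,nat_lit 85,nat_lit 94,
    nat_lit 97,nat_lit 113,nat_lit 115],[nat_lit 130,nat_lit 141,nat_lit 7,nat_lit 9,nat_lit 15,nat_lit 19,nat_lit 22,
    nat_lit 28,nat_lit 31,nat_lit 35,nat_lit 37,nat_lit 60],[nat_lit 66,nat_lit 68,nat_lit 78,nat_lit 86,nat_lit 95,
    nat_lit 98,nat_lit 114,nat_lit 116,nat_lit 10,nat_lit 38,nat_lit 42,nat_lit 46],[nat_lit 47,nat_lit 73,
    nat_lit 117,nat_lit 135,nat_lit 137,nat_lit 146,nat_lit 148,nat_lit 11,nat_lit 39,nat_lit 43,nat_lit 48,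
    nat_lit 74],[nat_lit 83,nat_lit 118,nat_lit 136,nat_lit 138,nat_lit 147,nat_lit 149]]
    [[nat_lit 72,nat_lit 82,nat_lit 14,nat_lit 23,nat_lit 15,nat_lit 38,nat_lit 39,nat_lit 110,nat_lit 92,nat_lit 111,
    nat_lit 128,nat_lit 139],[nat_lit 54,nat_lit 55,nat_lit 93,nat_lit 112,nat_lit 44,nat_lit 49,nat_lit 94,
    nat_lit 113,nat_lit 7,nat_lit 95,nat_lit 114,nat_lit 96],[nat_lit 45,nat_lit 50,nat_lit 8,nat_lit 97,nat_lit 115,
    nat_lit 9,nat_lit 98,nat_lit 116,nat_lit 56,nat_lit 63,nat_lit 10,nat_lit 117],[nat_lit 11,nat_lit 118,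
    nat_lit 129,nat_lit 140,nat_lit 57,nat_lit 64,nat_lit 130,nat_lit 141,nat_lit 16,nat_lit 24,nat_lit 131,
    nat_lit 132],[nat_lit 142,nat_lit 17,nat_lit 25,nat_lit 73,nat_lit 74,nat_lit 83,nat_lit 75,nat_lit 84,nat_lit 32,
    nat_lit 40,nat_lit 99,nat_lit 100],[nat_lit 119,nat_lit 76,nat_lit 85,nat_lit 33,nat_lit 41,nat_lit 0,nat_lit 120,
    nat_lit 1,nat_lit 121,nat_lit 77,nat_lit 78,nat_lit 86],[nat_lit 65,nat_lit 133,nat_lit 143,nat_lit 12,
    nat_lit 101,nat_lit 102,nat_lit 122,nat_lit 58,nat_lit 66,nat_lit 46,nat_lit 67,nat_lit 144],[nat_lit 13,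
    nat_lit 103,nat_lit 123,nat_lit 59,nat_lit 60,nat_lit 68,nat_lit 47,nat_lit 48,nat_lit 26,nat_lit 2,nat_lit 104,
    nat_lit 124],[nat_lit 3,nat_lit 105,nat_lit 125,nat_lit 79,nat_lit 87,nat_lit 61,nat_lit 69,nat_lit 62,nat_lit 18,
    nat_lit 27,nat_lit 19,nat_lit 28],[nat_lit 42,nat_lit 43,nat_lit 20,nat_lit 29,nat_lit 4,nat_lit 106,nat_lit 126,
    nat_lit 107,nat_lit 127,nat_lit 134,nat_lit 145,nat_lit 88],[nat_lit 80,nat_lit 89,nat_lit 70,nat_lit 71,
    nat_lit 21,nat_lit 30,nat_lit 22,nat_lit 31,nat_lit 34,nat_lit 5,nat_lit 108,nat_lit 81],[nat_lit 90,nat_lit 51,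
    nat_lit 35,nat_lit 135,nat_lit 146,nat_lit 136,nat_lit 147,nat_lit 36,nat_lit 6,nat_lit 109,nat_lit 91,
    nat_lit 52],[nat_lit 53,nat_lit 37,nat_lit 137,nat_lit 148,nat_lit 138,nat_lit 149]]
    [[[nat_lit 133],[nat_lit 133],[nat_lit 135,nat_lit 137],[nat_lit 135,nat_lit 137],[nat_lit 132],[nat_lit 129],[],
    [],[nat_lit 26,nat_lit 29],[nat_lit 26,nat_lit 29],[nat_lit 24],[nat_lit 24]],[[nat_lit 23,nat_lit 27,nat_lit 30],
    [],[nat_lit 2,nat_lit 4],[nat_lit 2,nat_lit 4],[],[nat_lit 5,nat_lit 6],[],[],[nat_lit 1],[nat_lit 1],[nat_lit 1],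
    []],[[nat_lit 40],[],[nat_lit 38,nat_lit 42],[nat_lit 38,nat_lit 42],[nat_lit 38,nat_lit 42],[],[],[],[],
    [nat_lit 17],[],[]],[[nat_lit 15,nat_lit 19,nat_lit 22],[nat_lit 15,nat_lit 19,nat_lit 22],[nat_lit 49],
    [nat_lit 49],[nat_lit 51,nat_lit 52],[],[],[],[],[nat_lit 34,nat_lit 36],[],[nat_lit 33]],[[nat_lit 33],
    [nat_lit 63],[],[nat_lit 65,nat_lit 67],[nat_lit 66,nat_lit 68],[nat_lit 66,nat_lit 68],[nat_lit 48],[nat_lit 48],
    [],[nat_lit 45],[],[]],[[],[nat_lit 46,nat_lit 47],[nat_lit 46,nat_lit 47],[nat_lit 90,nat_lit 91],[],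
    [nat_lit 85],[nat_lit 85],[nat_lit 82,nat_lit 89],[nat_lit 82,nat_lit 89],[],[],[]],[[],[nat_lit 57],[nat_lit 57],
    [nat_lit 54,nat_lit 61],[nat_lit 54,nat_lit 61],[],[],[],[nat_lit 55,nat_lit 62],[],[nat_lit 110,nat_lit 124,
    nat_lit 126],[]],[[nat_lit 120],[nat_lit 120],[],[nat_lit 117],[nat_lit 119,nat_lit 121],[nat_lit 119,
    nat_lit 121],[nat_lit 112],[nat_lit 114,nat_lit 116],[nat_lit 74],[],[],[]],[[nat_lit 75],[nat_lit 75],
    [nat_lit 75],[],[],[nat_lit 76,nat_lit 77],[nat_lit 76,nat_lit 77],[nat_lit 72,nat_lit 80],[nat_lit 73],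
    [nat_lit 73],[],[]],[[],[nat_lit 78],[nat_lit 147,nat_lit 149],[nat_lit 147,nat_lit 149],[nat_lit 139,
    nat_lit 145],[nat_lit 139,nat_lit 145],[nat_lit 139,nat_lit 145],[],[],[],[],[]],[[nat_lit 143,nat_lit 144],
    [nat_lit 143,nat_lit 144],[nat_lit 141],[],[nat_lit 146,nat_lit 148],[nat_lit 146,nat_lit 148],[nat_lit 142],
    [nat_lit 142],[],[nat_lit 92,nat_lit 105,nat_lit 107],[nat_lit 92,nat_lit 105,nat_lit 107],[nat_lit 101,
    nat_lit 103]],[[nat_lit 101,nat_lit 103],[nat_lit 94,nat_lit 97],[nat_lit 100],[nat_lit 93,nat_lit 96],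
    [nat_lit 93,nat_lit 96],[nat_lit 95,nat_lit 98],[nat_lit 95,nat_lit 98],[nat_lit 11],[],[],[nat_lit 12,
    nat_lit 13],[nat_lit 8]],[[],[],[],[],[nat_lit 7,nat_lit 9],[nat_lit 7,nat_lit 9]]]
    (nat_lit 150) [nat_lit 0,nat_lit 1,nat_lit 2,nat_lit 3,nat_lit 4,nat_lit 5,nat_lit 6,nat_lit 7,nat_lit 8,
    nat_lit 9,nat_lit 10,nat_lit 11,nat_lit 12,nat_lit 13,nat_lit 16,nat_lit 17,nat_lit 18,nat_lit 19,nat_lit 21,
    nat_lit 22,nat_lit 24,nat_lit 25,nat_lit 27,nat_lit 28,nat_lit 30,nat_lit 31,nat_lit 32,nat_lit 33,nat_lit 35,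
    nat_lit 37,nat_lit 40,nat_lit 41,nat_lit 42,nat_lit 43,nat_lit 46,nat_lit 47,nat_lit 48,nat_lit 51,nat_lit 52,
    nat_lit 53,nat_lit 58,nat_lit 59,nat_lit 60,nat_lit 61,nat_lit 62,nat_lit 66,nat_lit 68,nat_lit 69,nat_lit 70,
    nat_lit 71,nat_lit 135,nat_lit 136,nat_lit 137,nat_lit 138,nat_lit 149]
    [[[],[],[nat_lit 2,nat_lit 4],[nat_lit 3],[],[nat_lit 5,nat_lit 6],[],[],[],[],[nat_lit 0],[nat_lit 1],[],[],[],
    []],[[],[],[],[],[],[],[],[],[nat_lit 12,nat_lit 13],[],[],[],[nat_lit 8],[nat_lit 7,nat_lit 9],[nat_lit 10],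
    [nat_lit 11]],[[],[nat_lit 20],[],[],[],[],[nat_lit 16],[nat_lit 17],[],[],[],[],[nat_lit 14,nat_lit 18,
    nat_lit 21],[nat_lit 15,nat_lit 19,nat_lit 22],[],[]],[[],[nat_lit 26,nat_lit 29],[],[],[],[],[nat_lit 24],
    [nat_lit 25],[],[],[],[],[nat_lit 23,nat_lit 27,nat_lit 30],[nat_lit 28,nat_lit 31],[],[]],[[],[nat_lit 34,
    nat_lit 36],[],[],[],[],[],[],[nat_lit 32],[nat_lit 33],[],[],[],[nat_lit 35,nat_lit 37],[],[]],[[],[],[],[],[],
    [],[],[],[nat_lit 40],[nat_lit 41],[],[],[],[],[nat_lit 38,nat_lit 42],[nat_lit 39,nat_lit 43]],[[],[],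
    [nat_lit 44],[nat_lit 45],[],[],[],[],[],[],[],[],[],[],[nat_lit 46,nat_lit 47],[nat_lit 48]],[[],[],[nat_lit 49],
    [nat_lit 50],[],[],[],[],[],[],[nat_lit 51,nat_lit 52],[nat_lit 53],[],[],[],[]],[[],[],[],[],[nat_lit 56],
    [nat_lit 57],[],[],[],[],[nat_lit 54,nat_lit 61],[nat_lit 55,nat_lit 62],[nat_lit 58,nat_lit 59],[nat_lit 60],[],
    []],[[nat_lit 65,nat_lit 67],[],[],[],[nat_lit 63],[nat_lit 64],[],[],[],[],[nat_lit 69,nat_lit 70],[nat_lit 71],
    [],[nat_lit 66,nat_lit 68],[],[]],[[],[nat_lit 75],[],[],[],[],[nat_lit 81],[],[nat_lit 79],[nat_lit 72,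
    nat_lit 80],[],[],[nat_lit 76,nat_lit 77],[nat_lit 78],[nat_lit 73],[nat_lit 74]],[[],[nat_lit 84],[],[],[],[],
    [nat_lit 90,nat_lit 91],[],[nat_lit 87,nat_lit 88],[nat_lit 82,nat_lit 89],[],[],[nat_lit 85],[nat_lit 86],[],
    [nat_lit 83]],[[nat_lit 93,nat_lit 96],[],[nat_lit 104,nat_lit 106],[nat_lit 92,nat_lit 105,nat_lit 107],[],
    [nat_lit 108,nat_lit 109],[],[],[nat_lit 101,nat_lit 103],[nat_lit 102],[nat_lit 99],[nat_lit 100],[nat_lit 94,
    nat_lit 97],[nat_lit 95,nat_lit 98],[],[]],[[nat_lit 112],[],[nat_lit 110,nat_lit 124,nat_lit 126],[nat_lit 111,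
    nat_lit 125,nat_lit 127],[],[],[],[],[],[nat_lit 122,nat_lit 123],[nat_lit 120],[nat_lit 119,nat_lit 121],
    [nat_lit 113,nat_lit 115],[nat_lit 114,nat_lit 116],[nat_lit 117],[nat_lit 118]],[[nat_lit 129],[],[],[],
    [nat_lit 128,nat_lit 134],[],[],[nat_lit 133],[],[],[nat_lit 131],[nat_lit 132],[nat_lit 130],[],[nat_lit 135,
    nat_lit 137],[nat_lit 136,nat_lit 138]],[[nat_lit 140],[],[],[],[nat_lit 139,nat_lit 145],[],[],[nat_lit 143,
    nat_lit 144],[],[],[],[nat_lit 142],[nat_lit 141],[],[nat_lit 146,nat_lit 148],[nat_lit 147,nat_lit 149]]]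
    [[[nat_lit 0x2000000000000000000000000000000000,nat_lit 0x2000000000000000000000000000000000,
    nat_lit 0x28000000000000000000000000000000000,nat_lit 0x28000000000000000000000000000000000,
    nat_lit 0x1000000000000000000000000000000000,nat_lit 0x200000000000000000000000000000000,nat_lit 0,nat_lit 0,
    nat_lit 0x24000000],[nat_lit 0x24000000,nat_lit 0x1000000,nat_lit 0x1000000,nat_lit 0x48800000,nat_lit 0,
    nat_lit 20,nat_lit 20,nat_lit 0,nat_lit 96],[nat_lit 0,nat_lit 0,nat_lit 2,nat_lit 2,nat_lit 2,nat_lit 0,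
    nat_lit 0x10000000000,nat_lit 0,nat_lit 0x44000000000],[nat_lit 0x44000000000,nat_lit 0x44000000000,nat_lit 0,
    nat_lit 0,nat_lit 0,nat_lit 0,nat_lit 0x20000,nat_lit 0,nat_lit 0],[nat_lit 0x488000,nat_lit 0x488000,
    nat_lit 0x2000000000000,nat_lit 0x2000000000000,nat_lit 0x18000000000000,nat_lit 0,nat_lit 0,nat_lit 0,nat_lit 0],
    [nat_lit 0x1400000000,nat_lit 0,nat_lit 0x200000000,nat_lit 0x200000000,nat_lit 0x8000000000000000,nat_lit 0,
    nat_lit 0xa0000000000000000,nat_lit 0x140000000000000000,nat_lit 0x140000000000000000],[nat_lit 0x1000000000000,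
    nat_lit 0x1000000000000,nat_lit 0,nat_lit 0x200000000000,nat_lit 0,nat_lit 0,nat_lit 0,nat_lit 0xc00000000000,
    nat_lit 0xc00000000000],[nat_lit 0xc0000000000000000000000,nat_lit 0,nat_lit 0x2000000000000000000000,
    nat_lit 0x2000000000000000000000,nat_lit 0x20400000000000000000000,nat_lit 0x20400000000000000000000,nat_lit 0,
    nat_lit 0,nat_lit 0],[nat_lit 0,nat_lit 0x200000000000000,nat_lit 0x200000000000000,nat_lit 0x2040000000000000,
    nat_lit 0x2040000000000000,nat_lit 0,nat_lit 0,nat_lit 0,nat_lit 0x4080000000000000]],[[nat_lit 0,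
    nat_lit 0x50004000000000000000000000000000,nat_lit 0,nat_lit 0x1000000000000000000000000000000,
    nat_lit 0x1000000000000000000000000000000,nat_lit 0,nat_lit 0x200000000000000000000000000000,
    nat_lit 0x2800000000000000000000000000000,nat_lit 0x2800000000000000000000000000000],
    [nat_lit 0x10000000000000000000000000000,nat_lit 0x140000000000000000000000000000,nat_lit 0x4000000000000000000,
    nat_lit 0,nat_lit 0,nat_lit 0,nat_lit 0x8000000000000000000,nat_lit 0x8000000000000000000,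
    nat_lit 0x8000000000000000000],[nat_lit 0,nat_lit 0,nat_lit 0x30000000000000000000,nat_lit 0x30000000000000000000,
    nat_lit 0x101000000000000000000,nat_lit 0x2000000000000000000,nat_lit 0x2000000000000000000,nat_lit 0,nat_lit 0],
    [nat_lit 0,nat_lit 0x40000000000000000000,nat_lit 0x28000000000000000000000000000000000000,
    nat_lit 0x28000000000000000000000000000000000000,nat_lit 0x2080000000000000000000000000000000000,
    nat_lit 0x2080000000000000000000000000000000000,nat_lit 0x2080000000000000000000000000000000000,nat_lit 0,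
    nat_lit 0],[nat_lit 0,nat_lit 0,nat_lit 0,nat_lit 0x1800000000000000000000000000000000000,
    nat_lit 0x1800000000000000000000000000000000000,nat_lit 0x200000000000000000000000000000000000,nat_lit 0,
    nat_lit 0x14000000000000000000000000000000000000,nat_lit 0x14000000000000000000000000000000000000],
    [nat_lit 0x400000000000000000000000000000000000,nat_lit 0x400000000000000000000000000000000000,nat_lit 0,
    nat_lit 0xa00100000000000000000000000,nat_lit 0xa00100000000000000000000000,nat_lit 0xa0000000000000000000000000,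
    nat_lit 0xa0000000000000000000000000,nat_lit 0x2400000000000000000000000,nat_lit 0x10000000000000000000000000],
    [nat_lit 0x1200000000000000000000000,nat_lit 0x1200000000000000000000000,nat_lit 0x4800000000000000000000000,
    nat_lit 0x4800000000000000000000000,nat_lit 0x800,nat_lit 0,nat_lit 0,nat_lit 0x3000,nat_lit 256],[nat_lit 0,
    nat_lit 0,nat_lit 0,nat_lit 0,nat_lit 640,nat_lit 640]]]
    []
    (nat_lit 0) (nat_lit 6) (nat_lit 6)
    [[nat_lit 2,nat_lit 0x10000002,nat_lit 17,nat_lit 0x10000011,nat_lit 257,nat_lit 513,nat_lit 0x1001,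
    nat_lit 0x11001,nat_lit 0x101001,nat_lit 0x1001001,nat_lit 0x10001,nat_lit 0x10011,nat_lit 0x10010001,
    nat_lit 0x100001,nat_lit 0x10100001,nat_lit 0x1000001,nat_lit 0x1000101,nat_lit 0x2000001,nat_lit 0x11000001,
    nat_lit 0x10000001,nat_lit 0x20000001],[nat_lit 32,nat_lit 0x10000020,nat_lit 0x1000020,nat_lit 272,
    nat_lit 0x10010,nat_lit 0x1010010,nat_lit 0x110010,nat_lit 0x100010,nat_lit 0x10100010,nat_lit 0x1100010,
    nat_lit 0x1000010,nat_lit 0x11000010,nat_lit 0x10000010,nat_lit 0x10010010,nat_lit 0x20000010],[nat_lit 512,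
    nat_lit 768,nat_lit 0x1100,nat_lit 0x1000100,nat_lit 0x10000100],[nat_lit 0x2000,nat_lit 0x11000,nat_lit 0x21000,
    nat_lit 0x1011000,nat_lit 0x101000,nat_lit 0x111000,nat_lit 0x201000,nat_lit 0x1101000,nat_lit 0x1001000,
    nat_lit 0x2001000,nat_lit 0x11001000,nat_lit 0x10001000],[nat_lit 0x20000,nat_lit 0x10020000,nat_lit 0x110000,
    nat_lit 0x10110000,nat_lit 0x1010000,nat_lit 0x11010000,nat_lit 0x10010000,nat_lit 0x20010000],[nat_lit 0x200000,
    nat_lit 0x300000,nat_lit 0x10200000,nat_lit 0x1100000,nat_lit 0x11100000,nat_lit 0x10100000,nat_lit 0x20100000],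
    [nat_lit 0x2000000,nat_lit 0x3000000,nat_lit 0x12000000,nat_lit 0x11000000,nat_lit 0x21000000],
    [nat_lit 0x20000000]]
    [.c (nat_lit 1) (nat_lit 2),.c (nat_lit 0) (nat_lit 0x18ce7300c7),.c (nat_lit 0) (nat_lit 0x220003),
    .c (nat_lit 0) (nat_lit 0x18cf399ccc),.c (nat_lit 0) (nat_lit 0x1000030007),.c (nat_lit 0) (nat_lit 0x58ce798ccc),
    .c (nat_lit 0) (nat_lit 0x18c6718cc5),.c (nat_lit 3) (nat_lit 0x408c030007),.c (nat_lit 0) (nat_lit 0x18c6718cc5),
    .c (nat_lit 2) (nat_lit 0x4410003),.c (nat_lit 0) (nat_lit 0x180e700cc7),.c (nat_lit 0) (nat_lit 0xc0738006),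
    .c (nat_lit 3) (nat_lit 0x2080030807),.c (nat_lit 0) (nat_lit 0x18ce730cc7),.c (nat_lit 0) (nat_lit 0x18ce7300c7),
    .c (nat_lit 1) (nat_lit 0x10002),.c (nat_lit 0) (nat_lit 0x10ce730ccd),.c (nat_lit 0) (nat_lit 0x18ce718cc5),
    .c (nat_lit 0) (nat_lit 0x18ce7000c7),.c (nat_lit 0) (nat_lit 0x66100d),.c (nat_lit 0) (nat_lit 0x18ce7318cd),
    .c (nat_lit 2) (nat_lit 2),.c (nat_lit 0) (nat_lit 0x295b969d86),.c (nat_lit 0) (nat_lit 0x18cef38cc4),
    .r (nat_lit 0xdb3) (nat_lit 3) [nat_lit 0x2118c0000e3,nat_lit 0x4200001],.c (nat_lit 0) (nat_lit 0x19cf338ccc),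
    .c (nat_lit 0) (nat_lit 0xc0700006),.c (nat_lit 0) (nat_lit 0x19cf338ccc),.c (nat_lit 3) (nat_lit 0x508c0308e6),
    .c (nat_lit 2) (nat_lit 0x108cc300e6),.r (nat_lit 0xdb3) (nat_lit 3) [nat_lit 0x300007198e3,nat_lit 0x4200001],
    .c (nat_lit 0) (nat_lit 0x200005),.c (nat_lit 0) (nat_lit 0x18cf339ccc),.c (nat_lit 3) (nat_lit 0x2000700c06),
    .c (nat_lit 0) (nat_lit 0x14070140c),.c (nat_lit 0) (nat_lit 0x18ced39cc6),.c (nat_lit 3) (nat_lit 2),
    .c (nat_lit 0) (nat_lit 0x38ce738cc4),.c (nat_lit 0) (nat_lit 0x10cc738ccd),.c (nat_lit 0) (nat_lit 0x1000000007),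
    .c (nat_lit 0) (nat_lit 0x1000030807),.c (nat_lit 4) (nat_lit 2),.r (nat_lit 0xdb3) (nat_lit 3) [nat_lit 65,
    nat_lit 0x4200001],.c (nat_lit 6) (nat_lit 0x280ed69587),.c (nat_lit 3) (nat_lit 0x408c000007),
    .c (nat_lit 0) (nat_lit 0x18c0738cc7),.c (nat_lit 0) (nat_lit 0x200cc611ac),.c (nat_lit 3) (nat_lit 0x410cc611a6),
    .c (nat_lit 0) (nat_lit 0x18c6738cc5),.c (nat_lit 0) (nat_lit 0x18c6738cc5),.c (nat_lit 2) (nat_lit 0x4400003),
    .r (nat_lit 0xdb3) (nat_lit 3) [nat_lit 0x10000180c3,nat_lit 0x4200001],.c (nat_lit 0) (nat_lit 0x18c07380c7),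
    .c (nat_lit 5) (nat_lit 2),.c (nat_lit 0) (nat_lit 0x140060c06),.c (nat_lit 0) (nat_lit 0x180e700cc7),
    .c (nat_lit 0) (nat_lit 0x10cc630cec),.c (nat_lit 0) (nat_lit 0x180e738cc7),.c (nat_lit 3) (nat_lit 0x2080000807),
    .c (nat_lit 0) (nat_lit 0x188e7388cd),.c (nat_lit 0) (nat_lit 0xc0031406),.c (nat_lit 6) (nat_lit 2),
    .c (nat_lit 3) (nat_lit 0x308c6308e2),.c (nat_lit 3) (nat_lit 0x6118c609a6),.c (nat_lit 0) (nat_lit 0x18ce738ccd),
    .c (nat_lit 0) (nat_lit 0x18ce7000c7),.c (nat_lit 0) (nat_lit 0x18ce7300c7),.c (nat_lit 3) (nat_lit 0x308c630ce6),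
    .c (nat_lit 7) (nat_lit 2),.c (nat_lit 0) (nat_lit 0x18ce738cc5),.c (nat_lit 0) (nat_lit 0x18ce7380c7),
    .c (nat_lit 0) (nat_lit 0x60100d),.c (nat_lit 0) (nat_lit 0x18ce7398cd),.c (nat_lit 8) (nat_lit 2)]]

/-- nodes -/
noncomputable def rD8k_5_3 : List RJ :=
  [.s (nat_lit 18) (nat_lit 0xf780) (nat_lit 5) (nat_lit 0x6307000091170000656f0000672700007f3700006c4f00007b6f00007b6f00007fa500007fa50000801300006727000092cf0000651700007c7700007c77) (nat_lit 0x1b800002fc800002ba800002d60000026800000139800001760000017600000132a0000132a00002ba8000012bc00002db8000000000000165800001658)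
    (nat_lit 0x18d7c69e70a51c33ef0f21c2947136dc4ba70f8a44fdd0d69c29471a79c5337132bc4ebf242fc635f1643c63b71a79c7d7f1f5fc7d7f0b544791d195bc7e5b18d7c29471f1dc7abf18edc33ef0e71c36af0ec9c5e3714b7c4ebf149144e7d2865ca34f0dedc656f1341c4f171643c294716ddc39c70c1fc538f10d9c68df124a4437d14e3c55470a51c67271dbdc79071f5fc294714e3c5e370fe7c4ba71e15c77ff1acc4786d14e3c774f0a51c67271dbdc79071a79c3c870c1fc3b271173c3f9f15bfc54ef1f9c48bad1029c6b470f21c6c4f157dc55f71f5fc4ba71a37c4ebf153bc77ff0c61c640f15a44663513f1c4367136dc7b6f1945c67271f5fc4db710d9c52df15bfc7857111bc31871a114684513f1c5ac713f1c7e871945c41af1e4744fdd10df44e7d22eb4786d1a11466351e99c8c1b143946ce91d5547fa519cf4673d0b5443e29124a452451f9c46b311a11456911b1ec7a6714ff46ce91dce481892414490511f96c29471551ca34f1ad1c774f16b1c43671b3a46ce914a1c6d570ad5c80131edbc446f195bc35a714e3ca1971029c538f13f1c4fc714ff450e50dedc52870d69c67271827c50cf0a51c533719c9c656f1b13c67271fa1c7b6f206247fa519c9c80131945c96971f8bc803f18d7c69e70a51c37b70f21c294713f1c4db71dce475550d69c2b5711f7c6517132bc4ebf1eafc4ebf1e41c4f17157dc7907106bc672724144673d1433c446f13afc803f0c61c559f1f1dc4caf1dbdc4d07157dc76f71945c651724144673d1827c7b6f132bc7e2f0bddc3187)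
    (nat_lit 0x18d7cf7803de00f7803de00f7803de00f7803de00f7803de00f7803de00f7803de00f7801a79c635f3de00f7803de00f7803de00f7803de00f7803de00f7803de00f7803de00f7800a51c590f0e71cf7803de00f7803de00f7803de00f7803de00f7803de00f7803de00f7800cfbc63b70dabc39c73de00f7803de00f7803de00f7803de00f7803de00f7803de00f7800f21c69e70ec9c307f0fe7cf7803de00f7803de00f7803de00f7803de00f7803de00f7800a51c7d7f178dc538f12e9c3f9f3de00f7803de00f7803de00f7803de00f7803de00f780136dc7d7f14b7c43671e15c56ff0c61cf7803de00f7803de00f7803de00f7803de00f78012e9c7d7f13afc68df1dffc54ef1903c31873de00f7803de00f7803de00f7803de00f7800f8a42d5114914492915a6069d815a4468451e99cf7803de00f7803de00f7803de00f78013f74791d139f4437d1e1b47ea4198d468452306c7a673de00f7803de00f7803de00f7800d69c656f228f8538f14e3c40a713f1c4fc71439453fd14a1cf7803de00f7803de00f7800a51c7e5b22fd855471dd3c6b4710d9c5ac71b3a456981b55c52873de00f7803de00f780174d8635f0dedc29470a51c3c87136dc4fc71d55477390ad5c35a71945cf7803de00f78014cdc2947174d8528e14a3865ce1d3b876fe1e490677014a385eee1f1f865173de00f780132bc75f61341c76f71dbdc55f71945c651719cf47a001edbc609f1d7d84caf0c61cf78013afc780613c5c79071e41c55f719c9c41af19cf47c10111bc50cf1e0184ebf1567c3187)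
    (nat_lit 6) (nat_lit 181)
    [[nat_lit 0,nat_lit 0,nat_lit 1,nat_lit 4],[nat_lit 0,nat_lit 0,nat_lit 1,nat_lit 5],[nat_lit 0,nat_lit 0,
    nat_lit 3,nat_lit 15],[nat_lit 0,nat_lit 0,nat_lit 9,nat_lit 4],[nat_lit 0,nat_lit 0,nat_lit 10,nat_lit 15],
    [nat_lit 0,nat_lit 0,nat_lit 14,nat_lit 2],[nat_lit 0,nat_lit 1,nat_lit 1,nat_lit 4],[nat_lit 0,nat_lit 1,
    nat_lit 1,nat_lit 5],[nat_lit 0,nat_lit 1,nat_lit 3,nat_lit 15],[nat_lit 0,nat_lit 1,nat_lit 4,nat_lit 0],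
    [nat_lit 0,nat_lit 1,nat_lit 5,nat_lit 0],[nat_lit 0,nat_lit 1,nat_lit 14,nat_lit 2],[nat_lit 0,nat_lit 2,
    nat_lit 13],[nat_lit 0,nat_lit 3,nat_lit 15,nat_lit 0],[nat_lit 0,nat_lit 5,nat_lit 0,nat_lit 8],[nat_lit 0,
    nat_lit 5,nat_lit 14],[nat_lit 0,nat_lit 8,nat_lit 0,nat_lit 5],[nat_lit 0,nat_lit 8,nat_lit 2,nat_lit 14],
    [nat_lit 0,nat_lit 8,nat_lit 5,nat_lit 8],[nat_lit 0,nat_lit 9,nat_lit 4,nat_lit 0],[nat_lit 0,nat_lit 10,
    nat_lit 13],[nat_lit 0,nat_lit 10,nat_lit 15,nat_lit 0],[nat_lit 0,nat_lit 10,nat_lit 15,nat_lit 8],[nat_lit 0,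
    nat_lit 12,nat_lit 2],[nat_lit 0,nat_lit 12,nat_lit 3],[nat_lit 0,nat_lit 12,nat_lit 10],[nat_lit 0,nat_lit 12,
    nat_lit 11],[nat_lit 0,nat_lit 14,nat_lit 2,nat_lit 0],[nat_lit 0,nat_lit 14,nat_lit 5],[nat_lit 0,nat_lit 15,
    nat_lit 4],[nat_lit 0,nat_lit 15,nat_lit 5],[nat_lit 1,nat_lit 1,nat_lit 3,nat_lit 15],[nat_lit 1,nat_lit 1,
    nat_lit 5,nat_lit 8],[nat_lit 1,nat_lit 1,nat_lit 14,nat_lit 2],[nat_lit 1,nat_lit 1,nat_lit 14,nat_lit 11],
    [nat_lit 1,nat_lit 2,nat_lit 13],[nat_lit 1,nat_lit 3,nat_lit 13],[nat_lit 1,nat_lit 3,nat_lit 15,nat_lit 1],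
    [nat_lit 1,nat_lit 4,nat_lit 1,nat_lit 9],[nat_lit 1,nat_lit 4,nat_lit 14],[nat_lit 1,nat_lit 4,nat_lit 15],
    [nat_lit 1,nat_lit 5,nat_lit 8,nat_lit 1],[nat_lit 1,nat_lit 5,nat_lit 14],[nat_lit 1,nat_lit 9,nat_lit 1,
    nat_lit 4],[nat_lit 1,nat_lit 9,nat_lit 4,nat_lit 9],[nat_lit 1,nat_lit 9,nat_lit 14,nat_lit 11],[nat_lit 1,
    nat_lit 10,nat_lit 13],[nat_lit 1,nat_lit 11,nat_lit 13],[nat_lit 1,nat_lit 12,nat_lit 3],[nat_lit 1,nat_lit 12,
    nat_lit 11],[nat_lit 1,nat_lit 14,nat_lit 2,nat_lit 1],[nat_lit 1,nat_lit 14,nat_lit 11,nat_lit 1],[nat_lit 1,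
    nat_lit 15,nat_lit 3,nat_lit 9],[nat_lit 1,nat_lit 15,nat_lit 4],[nat_lit 2,nat_lit 6],[nat_lit 2,nat_lit 7],
    [nat_lit 2,nat_lit 8,nat_lit 8,nat_lit 14],[nat_lit 2,nat_lit 8,nat_lit 12],[nat_lit 2,nat_lit 8,nat_lit 13],
    [nat_lit 2,nat_lit 9,nat_lit 8,nat_lit 14],[nat_lit 2,nat_lit 9,nat_lit 9,nat_lit 14],[nat_lit 2,nat_lit 9,
    nat_lit 12],[nat_lit 2,nat_lit 9,nat_lit 13],[nat_lit 2,nat_lit 12,nat_lit 9],[nat_lit 2,nat_lit 13,nat_lit 8],
    [nat_lit 2,nat_lit 14,nat_lit 9,nat_lit 9],[nat_lit 2,nat_lit 14,nat_lit 14],[nat_lit 2,nat_lit 14,nat_lit 15],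
    [nat_lit 2,nat_lit 15,nat_lit 14],[nat_lit 3,nat_lit 6],[nat_lit 3,nat_lit 7],[nat_lit 3,nat_lit 8,nat_lit 8,
    nat_lit 15],[nat_lit 3,nat_lit 8,nat_lit 13],[nat_lit 3,nat_lit 9,nat_lit 12],[nat_lit 3,nat_lit 12,nat_lit 8],
    [nat_lit 3,nat_lit 12,nat_lit 9],[nat_lit 3,nat_lit 13,nat_lit 8],[nat_lit 3,nat_lit 13,nat_lit 9],[nat_lit 3,
    nat_lit 14,nat_lit 15],[nat_lit 3,nat_lit 15,nat_lit 8,nat_lit 8],[nat_lit 3,nat_lit 15,nat_lit 9,nat_lit 8],
    [nat_lit 3,nat_lit 15,nat_lit 9,nat_lit 9],[nat_lit 3,nat_lit 15,nat_lit 14],[nat_lit 3,nat_lit 15,nat_lit 15],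
    [nat_lit 4,nat_lit 8,nat_lit 15],[nat_lit 4,nat_lit 9,nat_lit 9,nat_lit 9],[nat_lit 4,nat_lit 9,nat_lit 14],
    [nat_lit 4,nat_lit 9,nat_lit 15],[nat_lit 4,nat_lit 12],[nat_lit 4,nat_lit 13],[nat_lit 4,nat_lit 14,nat_lit 8],
    [nat_lit 4,nat_lit 14,nat_lit 9],[nat_lit 4,nat_lit 15,nat_lit 9],[nat_lit 5,nat_lit 8,nat_lit 8,nat_lit 8],
    [nat_lit 5,nat_lit 8,nat_lit 14],[nat_lit 5,nat_lit 8,nat_lit 15],[nat_lit 5,nat_lit 9,nat_lit 15],[nat_lit 5,
    nat_lit 12],[nat_lit 5,nat_lit 13],[nat_lit 5,nat_lit 14,nat_lit 8],[nat_lit 5,nat_lit 14,nat_lit 9],[nat_lit 5,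
    nat_lit 15,nat_lit 8],[nat_lit 6,nat_lit 10],[nat_lit 6,nat_lit 11],[nat_lit 7,nat_lit 10],[nat_lit 7,nat_lit 11],
    [nat_lit 8,nat_lit 10,nat_lit 12],[nat_lit 8,nat_lit 11,nat_lit 13],[nat_lit 8,nat_lit 13,nat_lit 10],[nat_lit 8,
    nat_lit 13,nat_lit 11],[nat_lit 9,nat_lit 10,nat_lit 12],[nat_lit 9,nat_lit 11,nat_lit 12],[nat_lit 9,nat_lit 12,
    nat_lit 10],[nat_lit 9,nat_lit 13,nat_lit 11],[nat_lit 10,nat_lit 14,nat_lit 14],[nat_lit 10,nat_lit 14,
    nat_lit 15],[nat_lit 10,nat_lit 15,nat_lit 14],[nat_lit 10,nat_lit 15,nat_lit 15],[nat_lit 11,nat_lit 14,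
    nat_lit 14],[nat_lit 11,nat_lit 14,nat_lit 15],[nat_lit 11,nat_lit 15,nat_lit 14],[nat_lit 11,nat_lit 15,
    nat_lit 15]]
    [nat_lit 0x10014,nat_lit 0x10015,nat_lit 0x1003f,nat_lit 0x10094,nat_lit 0x100af,nat_lit 0x100e2,nat_lit 0x10114,
    nat_lit 0x10115,nat_lit 0x1013f,nat_lit 0x10140,nat_lit 0x10150,nat_lit 0x101e2,nat_lit 0x102d,nat_lit 0x103f0,
    nat_lit 0x10508,nat_lit 0x105e,nat_lit 0x10805,nat_lit 0x1082e,nat_lit 0x10858,nat_lit 0x10940,nat_lit 0x10ad,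
    nat_lit 0x10af0,nat_lit 0x10af8,nat_lit 0x10c2,nat_lit 0x10c3,nat_lit 0x10ca,nat_lit 0x10cb,nat_lit 0x10e20,
    nat_lit 0x10e5,nat_lit 0x10f4,nat_lit 0x10f5,nat_lit 0x1113f,nat_lit 0x11158,nat_lit 0x111e2,nat_lit 0x111eb,
    nat_lit 0x112d,nat_lit 0x113d,nat_lit 0x113f1,nat_lit 0x11419,nat_lit 0x114e,nat_lit 0x114f,nat_lit 0x11581,
    nat_lit 0x115e,nat_lit 0x11914,nat_lit 0x11949,nat_lit 0x119eb,nat_lit 0x11ad,nat_lit 0x11bd,nat_lit 0x11c3,
    nat_lit 0x11cb,nat_lit 0x11e21,nat_lit 0x11eb1,nat_lit 0x11f39,nat_lit 0x11f4,nat_lit 294,nat_lit 295,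
    nat_lit 0x1288e,nat_lit 0x128c,nat_lit 0x128d,nat_lit 0x1298e,nat_lit 0x1299e,nat_lit 0x129c,nat_lit 0x129d,
    nat_lit 0x12c9,nat_lit 0x12d8,nat_lit 0x12e99,nat_lit 0x12ee,nat_lit 0x12ef,nat_lit 0x12fe,nat_lit 310,
    nat_lit 311,nat_lit 0x1388f,nat_lit 0x138d,nat_lit 0x139c,nat_lit 0x13c8,nat_lit 0x13c9,nat_lit 0x13d8,
    nat_lit 0x13d9,nat_lit 0x13ef,nat_lit 0x13f88,nat_lit 0x13f98,nat_lit 0x13f99,nat_lit 0x13fe,nat_lit 0x13ff,
    nat_lit 0x148f,nat_lit 0x14999,nat_lit 0x149e,nat_lit 0x149f,nat_lit 332,nat_lit 333,nat_lit 0x14e8,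
    nat_lit 0x14e9,nat_lit 0x14f9,nat_lit 0x15888,nat_lit 0x158e,nat_lit 0x158f,nat_lit 0x159f,nat_lit 348,
    nat_lit 349,nat_lit 0x15e8,nat_lit 0x15e9,nat_lit 0x15f8,nat_lit 362,nat_lit 363,nat_lit 378,nat_lit 379,
    nat_lit 0x18ac,nat_lit 0x18bd,nat_lit 0x18da,nat_lit 0x18db,nat_lit 0x19ac,nat_lit 0x19bc,nat_lit 0x19ca,
    nat_lit 0x19db,nat_lit 0x1aee,nat_lit 0x1aef,nat_lit 0x1afe,nat_lit 0x1aff,nat_lit 0x1bee,nat_lit 0x1bef,
    nat_lit 0x1bfe,nat_lit 0x1bff]
    [[[nat_lit 0,nat_lit 0,nat_lit 1,nat_lit 4],[nat_lit 0,nat_lit 0,nat_lit 1,nat_lit 5],[nat_lit 0,nat_lit 0,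
    nat_lit 3,nat_lit 15],[nat_lit 0,nat_lit 0,nat_lit 9,nat_lit 4],[nat_lit 0,nat_lit 0,nat_lit 10,nat_lit 15],
    [nat_lit 0,nat_lit 0,nat_lit 14,nat_lit 2],[nat_lit 0,nat_lit 1,nat_lit 1,nat_lit 4],[nat_lit 0,nat_lit 1,
    nat_lit 1,nat_lit 5],[nat_lit 0,nat_lit 1,nat_lit 3,nat_lit 15],[nat_lit 0,nat_lit 1,nat_lit 4,nat_lit 0],
    [nat_lit 0,nat_lit 1,nat_lit 5,nat_lit 0],[nat_lit 0,nat_lit 1,nat_lit 14,nat_lit 2]],[[nat_lit 0,nat_lit 2,
    nat_lit 13],[nat_lit 0,nat_lit 3,nat_lit 15,nat_lit 0],[nat_lit 0,nat_lit 5,nat_lit 0,nat_lit 8],[nat_lit 0,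
    nat_lit 5,nat_lit 14],[nat_lit 0,nat_lit 8,nat_lit 0,nat_lit 5],[nat_lit 0,nat_lit 8,nat_lit 2,nat_lit 14],
    [nat_lit 0,nat_lit 8,nat_lit 5,nat_lit 8],[nat_lit 0,nat_lit 9,nat_lit 4,nat_lit 0],[nat_lit 0,nat_lit 10,
    nat_lit 13],[nat_lit 0,nat_lit 10,nat_lit 15,nat_lit 0],[nat_lit 0,nat_lit 10,nat_lit 15,nat_lit 8],[nat_lit 0,
    nat_lit 12,nat_lit 2]],[[nat_lit 0,nat_lit 12,nat_lit 3],[nat_lit 0,nat_lit 12,nat_lit 10],[nat_lit 0,nat_lit 12,
    nat_lit 11],[nat_lit 0,nat_lit 14,nat_lit 2,nat_lit 0],[nat_lit 0,nat_lit 14,nat_lit 5],[nat_lit 0,nat_lit 15,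
    nat_lit 4],[nat_lit 0,nat_lit 15,nat_lit 5],[nat_lit 1,nat_lit 1,nat_lit 3,nat_lit 15],[nat_lit 1,nat_lit 1,
    nat_lit 4,nat_lit 0],[nat_lit 1,nat_lit 1,nat_lit 5,nat_lit 0],[nat_lit 1,nat_lit 1,nat_lit 5,nat_lit 8],
    [nat_lit 1,nat_lit 1,nat_lit 14,nat_lit 2]],[[nat_lit 1,nat_lit 1,nat_lit 14,nat_lit 11],[nat_lit 1,nat_lit 2,
    nat_lit 13],[nat_lit 1,nat_lit 3,nat_lit 13],[nat_lit 1,nat_lit 3,nat_lit 15,nat_lit 0],[nat_lit 1,nat_lit 3,
    nat_lit 15,nat_lit 1],[nat_lit 1,nat_lit 4,nat_lit 0,nat_lit 0],[nat_lit 1,nat_lit 4,nat_lit 0,nat_lit 1],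
    [nat_lit 1,nat_lit 4,nat_lit 1,nat_lit 9],[nat_lit 1,nat_lit 4,nat_lit 14],[nat_lit 1,nat_lit 4,nat_lit 15],
    [nat_lit 1,nat_lit 5,nat_lit 0,nat_lit 0],[nat_lit 1,nat_lit 5,nat_lit 0,nat_lit 1]],[[nat_lit 1,nat_lit 5,
    nat_lit 8,nat_lit 1],[nat_lit 1,nat_lit 5,nat_lit 14],[nat_lit 1,nat_lit 9,nat_lit 1,nat_lit 4],[nat_lit 1,
    nat_lit 9,nat_lit 4,nat_lit 9],[nat_lit 1,nat_lit 9,nat_lit 14,nat_lit 11],[nat_lit 1,nat_lit 10,nat_lit 13],
    [nat_lit 1,nat_lit 11,nat_lit 13],[nat_lit 1,nat_lit 12,nat_lit 3],[nat_lit 1,nat_lit 12,nat_lit 11],[nat_lit 1,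
    nat_lit 14,nat_lit 2,nat_lit 0],[nat_lit 1,nat_lit 14,nat_lit 2,nat_lit 1],[nat_lit 1,nat_lit 14,nat_lit 11,
    nat_lit 1]],[[nat_lit 1,nat_lit 15,nat_lit 3,nat_lit 9],[nat_lit 1,nat_lit 15,nat_lit 4],[nat_lit 2,nat_lit 0,
    nat_lit 0,nat_lit 14],[nat_lit 2,nat_lit 0,nat_lit 1,nat_lit 14],[nat_lit 2,nat_lit 0,nat_lit 12],[nat_lit 2,
    nat_lit 1,nat_lit 1,nat_lit 14],[nat_lit 2,nat_lit 6],[nat_lit 2,nat_lit 7],[nat_lit 2,nat_lit 8,nat_lit 8,
    nat_lit 14],[nat_lit 2,nat_lit 8,nat_lit 12],[nat_lit 2,nat_lit 8,nat_lit 13],[nat_lit 2,nat_lit 9,nat_lit 8,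
    nat_lit 14]],[[nat_lit 2,nat_lit 9,nat_lit 9,nat_lit 14],[nat_lit 2,nat_lit 9,nat_lit 12],[nat_lit 2,nat_lit 9,
    nat_lit 13],[nat_lit 2,nat_lit 12,nat_lit 9],[nat_lit 2,nat_lit 13,nat_lit 0],[nat_lit 2,nat_lit 13,nat_lit 1],
    [nat_lit 2,nat_lit 13,nat_lit 8],[nat_lit 2,nat_lit 14,nat_lit 0,nat_lit 8],[nat_lit 2,nat_lit 14,nat_lit 9,
    nat_lit 9],[nat_lit 2,nat_lit 14,nat_lit 14],[nat_lit 2,nat_lit 14,nat_lit 15],[nat_lit 2,nat_lit 15,nat_lit 14]],
    [[nat_lit 3,nat_lit 0,nat_lit 12],[nat_lit 3,nat_lit 1,nat_lit 12],[nat_lit 3,nat_lit 6],[nat_lit 3,nat_lit 7],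
    [nat_lit 3,nat_lit 8,nat_lit 8,nat_lit 15],[nat_lit 3,nat_lit 8,nat_lit 13],[nat_lit 3,nat_lit 9,nat_lit 1,
    nat_lit 15],[nat_lit 3,nat_lit 9,nat_lit 12],[nat_lit 3,nat_lit 12,nat_lit 8],[nat_lit 3,nat_lit 12,nat_lit 9],
    [nat_lit 3,nat_lit 13,nat_lit 1],[nat_lit 3,nat_lit 13,nat_lit 8]],[[nat_lit 3,nat_lit 13,nat_lit 9],[nat_lit 3,
    nat_lit 14,nat_lit 15],[nat_lit 3,nat_lit 15,nat_lit 0,nat_lit 0],[nat_lit 3,nat_lit 15,nat_lit 0,nat_lit 1],
    [nat_lit 3,nat_lit 15,nat_lit 1,nat_lit 1],[nat_lit 3,nat_lit 15,nat_lit 8,nat_lit 8],[nat_lit 3,nat_lit 15,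
    nat_lit 9,nat_lit 8],[nat_lit 3,nat_lit 15,nat_lit 9,nat_lit 9],[nat_lit 3,nat_lit 15,nat_lit 14],[nat_lit 3,
    nat_lit 15,nat_lit 15],[nat_lit 4,nat_lit 0,nat_lit 0,nat_lit 1],[nat_lit 4,nat_lit 0,nat_lit 0,nat_lit 9]],
    [[nat_lit 4,nat_lit 0,nat_lit 1,nat_lit 1],[nat_lit 4,nat_lit 0,nat_lit 15],[nat_lit 4,nat_lit 1,nat_lit 9,
    nat_lit 1],[nat_lit 4,nat_lit 1,nat_lit 15],[nat_lit 4,nat_lit 8,nat_lit 15],[nat_lit 4,nat_lit 9,nat_lit 1,
    nat_lit 9],[nat_lit 4,nat_lit 9,nat_lit 9,nat_lit 9],[nat_lit 4,nat_lit 9,nat_lit 14],[nat_lit 4,nat_lit 9,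
    nat_lit 15],[nat_lit 4,nat_lit 12],[nat_lit 4,nat_lit 13],[nat_lit 4,nat_lit 14,nat_lit 1]],[[nat_lit 4,
    nat_lit 14,nat_lit 8],[nat_lit 4,nat_lit 14,nat_lit 9],[nat_lit 4,nat_lit 15,nat_lit 1],[nat_lit 4,nat_lit 15,
    nat_lit 9],[nat_lit 5,nat_lit 0,nat_lit 0,nat_lit 1],[nat_lit 5,nat_lit 0,nat_lit 1,nat_lit 1],[nat_lit 5,
    nat_lit 0,nat_lit 8,nat_lit 0],[nat_lit 5,nat_lit 0,nat_lit 14],[nat_lit 5,nat_lit 0,nat_lit 15],[nat_lit 5,
    nat_lit 8,nat_lit 0,nat_lit 8],[nat_lit 5,nat_lit 8,nat_lit 1,nat_lit 1],[nat_lit 5,nat_lit 8,nat_lit 8,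
    nat_lit 8]],[[nat_lit 5,nat_lit 8,nat_lit 14],[nat_lit 5,nat_lit 8,nat_lit 15],[nat_lit 5,nat_lit 9,nat_lit 15],
    [nat_lit 5,nat_lit 12],[nat_lit 5,nat_lit 13],[nat_lit 5,nat_lit 14,nat_lit 0],[nat_lit 5,nat_lit 14,nat_lit 1],
    [nat_lit 5,nat_lit 14,nat_lit 8],[nat_lit 5,nat_lit 14,nat_lit 9],[nat_lit 5,nat_lit 15,nat_lit 8],[nat_lit 6,
    nat_lit 2],[nat_lit 6,nat_lit 3]],[[nat_lit 6,nat_lit 10],[nat_lit 6,nat_lit 11],[nat_lit 7,nat_lit 2],[nat_lit 7,
    nat_lit 3],[nat_lit 7,nat_lit 10],[nat_lit 7,nat_lit 11],[nat_lit 8,nat_lit 0,nat_lit 5,nat_lit 0],[nat_lit 8,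
    nat_lit 0,nat_lit 8,nat_lit 5],[nat_lit 8,nat_lit 0,nat_lit 10,nat_lit 15],[nat_lit 8,nat_lit 1,nat_lit 1,
    nat_lit 5],[nat_lit 8,nat_lit 2,nat_lit 13],[nat_lit 8,nat_lit 2,nat_lit 14,nat_lit 0]],[[nat_lit 8,nat_lit 3,
    nat_lit 12],[nat_lit 8,nat_lit 3,nat_lit 13],[nat_lit 8,nat_lit 3,nat_lit 15,nat_lit 8],[nat_lit 8,nat_lit 3,
    nat_lit 15,nat_lit 9],[nat_lit 8,nat_lit 4,nat_lit 14],[nat_lit 8,nat_lit 5,nat_lit 8,nat_lit 0],[nat_lit 8,
    nat_lit 5,nat_lit 8,nat_lit 8],[nat_lit 8,nat_lit 5,nat_lit 14],[nat_lit 8,nat_lit 5,nat_lit 15],[nat_lit 8,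
    nat_lit 8,nat_lit 3,nat_lit 15],[nat_lit 8,nat_lit 8,nat_lit 5,nat_lit 8],[nat_lit 8,nat_lit 8,nat_lit 8,
    nat_lit 5]],[[nat_lit 8,nat_lit 8,nat_lit 14,nat_lit 2],[nat_lit 8,nat_lit 8,nat_lit 15,nat_lit 3],[nat_lit 8,
    nat_lit 10,nat_lit 12],[nat_lit 8,nat_lit 11,nat_lit 13],[nat_lit 8,nat_lit 12,nat_lit 2],[nat_lit 8,nat_lit 13,
    nat_lit 2],[nat_lit 8,nat_lit 13,nat_lit 3],[nat_lit 8,nat_lit 13,nat_lit 10],[nat_lit 8,nat_lit 13,nat_lit 11],
    [nat_lit 8,nat_lit 14,nat_lit 2,nat_lit 8],[nat_lit 8,nat_lit 14,nat_lit 2,nat_lit 9],[nat_lit 8,nat_lit 14,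
    nat_lit 5]],[[nat_lit 8,nat_lit 15,nat_lit 3,nat_lit 8],[nat_lit 8,nat_lit 15,nat_lit 4],[nat_lit 8,nat_lit 15,
    nat_lit 5],[nat_lit 9,nat_lit 1,nat_lit 4,nat_lit 1],[nat_lit 9,nat_lit 1,nat_lit 9,nat_lit 4],[nat_lit 9,
    nat_lit 1,nat_lit 15,nat_lit 3],[nat_lit 9,nat_lit 2,nat_lit 12],[nat_lit 9,nat_lit 2,nat_lit 14,nat_lit 9],
    [nat_lit 9,nat_lit 3,nat_lit 12],[nat_lit 9,nat_lit 3,nat_lit 13],[nat_lit 9,nat_lit 3,nat_lit 15,nat_lit 9],
    [nat_lit 9,nat_lit 4,nat_lit 0,nat_lit 0]],[[nat_lit 9,nat_lit 4,nat_lit 9,nat_lit 1],[nat_lit 9,nat_lit 4,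
    nat_lit 9,nat_lit 9],[nat_lit 9,nat_lit 4,nat_lit 14],[nat_lit 9,nat_lit 4,nat_lit 15],[nat_lit 9,nat_lit 5,
    nat_lit 14],[nat_lit 9,nat_lit 8,nat_lit 3,nat_lit 15],[nat_lit 9,nat_lit 8,nat_lit 14,nat_lit 2],[nat_lit 9,
    nat_lit 9,nat_lit 2,nat_lit 14],[nat_lit 9,nat_lit 9,nat_lit 3,nat_lit 15],[nat_lit 9,nat_lit 9,nat_lit 4,
    nat_lit 9],[nat_lit 9,nat_lit 9,nat_lit 9,nat_lit 4],[nat_lit 9,nat_lit 9,nat_lit 14,nat_lit 2]],[[nat_lit 9,
    nat_lit 10,nat_lit 12],[nat_lit 9,nat_lit 11,nat_lit 12],[nat_lit 9,nat_lit 12,nat_lit 2],[nat_lit 9,nat_lit 12,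
    nat_lit 3],[nat_lit 9,nat_lit 12,nat_lit 10],[nat_lit 9,nat_lit 13,nat_lit 2],[nat_lit 9,nat_lit 13,nat_lit 11],
    [nat_lit 9,nat_lit 14,nat_lit 2,nat_lit 9],[nat_lit 9,nat_lit 14,nat_lit 4],[nat_lit 9,nat_lit 14,nat_lit 11,
    nat_lit 1],[nat_lit 9,nat_lit 15,nat_lit 4],[nat_lit 9,nat_lit 15,nat_lit 5]],[[nat_lit 10,nat_lit 0,nat_lit 12],
    [nat_lit 10,nat_lit 6],[nat_lit 10,nat_lit 7],[nat_lit 10,nat_lit 8,nat_lit 13],[nat_lit 10,nat_lit 9,nat_lit 12],
    [nat_lit 10,nat_lit 12,nat_lit 8],[nat_lit 10,nat_lit 12,nat_lit 9],[nat_lit 10,nat_lit 13,nat_lit 0],[nat_lit 10,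
    nat_lit 13,nat_lit 1],[nat_lit 10,nat_lit 14,nat_lit 14],[nat_lit 10,nat_lit 14,nat_lit 15],[nat_lit 10,
    nat_lit 15,nat_lit 0,nat_lit 0]],[[nat_lit 10,nat_lit 15,nat_lit 8,nat_lit 0],[nat_lit 10,nat_lit 15,nat_lit 14],
    [nat_lit 10,nat_lit 15,nat_lit 15],[nat_lit 11,nat_lit 0,nat_lit 12],[nat_lit 11,nat_lit 1,nat_lit 1,nat_lit 14],
    [nat_lit 11,nat_lit 1,nat_lit 9,nat_lit 14],[nat_lit 11,nat_lit 1,nat_lit 12],[nat_lit 11,nat_lit 6],[nat_lit 11,
    nat_lit 7],[nat_lit 11,nat_lit 8,nat_lit 13],[nat_lit 11,nat_lit 9,nat_lit 13],[nat_lit 11,nat_lit 12,nat_lit 9]],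
    [[nat_lit 11,nat_lit 13,nat_lit 1],[nat_lit 11,nat_lit 13,nat_lit 8],[nat_lit 11,nat_lit 14,nat_lit 14],
    [nat_lit 11,nat_lit 14,nat_lit 15],[nat_lit 11,nat_lit 15,nat_lit 14],[nat_lit 11,nat_lit 15,nat_lit 15],
    [nat_lit 12,nat_lit 2,nat_lit 0],[nat_lit 12,nat_lit 2,nat_lit 8],[nat_lit 12,nat_lit 2,nat_lit 9],[nat_lit 12,
    nat_lit 3,nat_lit 0],[nat_lit 12,nat_lit 3,nat_lit 1],[nat_lit 12,nat_lit 3,nat_lit 9]],[[nat_lit 12,nat_lit 4],
    [nat_lit 12,nat_lit 5],[nat_lit 12,nat_lit 8,nat_lit 3],[nat_lit 12,nat_lit 8,nat_lit 10],[nat_lit 12,nat_lit 9,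
    nat_lit 2],[nat_lit 12,nat_lit 9,nat_lit 3],[nat_lit 12,nat_lit 9,nat_lit 10],[nat_lit 12,nat_lit 9,nat_lit 11],
    [nat_lit 12,nat_lit 10,nat_lit 0],[nat_lit 12,nat_lit 10,nat_lit 9],[nat_lit 12,nat_lit 11,nat_lit 0],[nat_lit 12,
    nat_lit 11,nat_lit 1]],[[nat_lit 13,nat_lit 0,nat_lit 2],[nat_lit 13,nat_lit 0,nat_lit 10],[nat_lit 13,nat_lit 1,
    nat_lit 2],[nat_lit 13,nat_lit 1,nat_lit 3],[nat_lit 13,nat_lit 1,nat_lit 10],[nat_lit 13,nat_lit 1,nat_lit 11],
    [nat_lit 13,nat_lit 2,nat_lit 8],[nat_lit 13,nat_lit 2,nat_lit 9],[nat_lit 13,nat_lit 3,nat_lit 8],[nat_lit 13,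
    nat_lit 4],[nat_lit 13,nat_lit 5],[nat_lit 13,nat_lit 8,nat_lit 2]],[[nat_lit 13,nat_lit 8,nat_lit 3],[nat_lit 13,
    nat_lit 8,nat_lit 11],[nat_lit 13,nat_lit 9,nat_lit 3],[nat_lit 13,nat_lit 10,nat_lit 8],[nat_lit 13,nat_lit 11,
    nat_lit 8],[nat_lit 13,nat_lit 11,nat_lit 9],[nat_lit 14,nat_lit 0,nat_lit 5],[nat_lit 14,nat_lit 0,nat_lit 8,
    nat_lit 2],[nat_lit 14,nat_lit 1,nat_lit 4],[nat_lit 14,nat_lit 1,nat_lit 5],[nat_lit 14,nat_lit 2,nat_lit 0,
    nat_lit 0],[nat_lit 14,nat_lit 2,nat_lit 0,nat_lit 1]],[[nat_lit 14,nat_lit 2,nat_lit 1,nat_lit 1],[nat_lit 14,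
    nat_lit 2,nat_lit 8,nat_lit 8],[nat_lit 14,nat_lit 2,nat_lit 9,nat_lit 8],[nat_lit 14,nat_lit 2,nat_lit 9,
    nat_lit 9],[nat_lit 14,nat_lit 2,nat_lit 14],[nat_lit 14,nat_lit 2,nat_lit 15],[nat_lit 14,nat_lit 3,nat_lit 15],
    [nat_lit 14,nat_lit 4,nat_lit 9],[nat_lit 14,nat_lit 5,nat_lit 0],[nat_lit 14,nat_lit 5,nat_lit 8],[nat_lit 14,
    nat_lit 8,nat_lit 4],[nat_lit 14,nat_lit 8,nat_lit 5]],[[nat_lit 14,nat_lit 9,nat_lit 4],[nat_lit 14,nat_lit 9,
    nat_lit 5],[nat_lit 14,nat_lit 9,nat_lit 9,nat_lit 2],[nat_lit 14,nat_lit 10,nat_lit 14],[nat_lit 14,nat_lit 10,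
    nat_lit 15],[nat_lit 14,nat_lit 11,nat_lit 1,nat_lit 1],[nat_lit 14,nat_lit 11,nat_lit 1,nat_lit 9],[nat_lit 14,
    nat_lit 11,nat_lit 14],[nat_lit 14,nat_lit 11,nat_lit 15],[nat_lit 14,nat_lit 14,nat_lit 2],[nat_lit 14,
    nat_lit 14,nat_lit 10],[nat_lit 14,nat_lit 14,nat_lit 11]],[[nat_lit 14,nat_lit 15,nat_lit 2],[nat_lit 14,
    nat_lit 15,nat_lit 3],[nat_lit 14,nat_lit 15,nat_lit 10],[nat_lit 14,nat_lit 15,nat_lit 11],[nat_lit 15,nat_lit 0,
    nat_lit 0,nat_lit 3],[nat_lit 15,nat_lit 0,nat_lit 0,nat_lit 10],[nat_lit 15,nat_lit 0,nat_lit 1,nat_lit 3],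
    [nat_lit 15,nat_lit 1,nat_lit 1,nat_lit 3],[nat_lit 15,nat_lit 1,nat_lit 4],[nat_lit 15,nat_lit 2,nat_lit 14],
    [nat_lit 15,nat_lit 3,nat_lit 8,nat_lit 8],[nat_lit 15,nat_lit 3,nat_lit 9,nat_lit 1]],[[nat_lit 15,nat_lit 3,
    nat_lit 14],[nat_lit 15,nat_lit 3,nat_lit 15],[nat_lit 15,nat_lit 4,nat_lit 0],[nat_lit 15,nat_lit 4,nat_lit 1],
    [nat_lit 15,nat_lit 4,nat_lit 8],[nat_lit 15,nat_lit 4,nat_lit 9],[nat_lit 15,nat_lit 5,nat_lit 0],[nat_lit 15,
    nat_lit 5,nat_lit 8],[nat_lit 15,nat_lit 5,nat_lit 9],[nat_lit 15,nat_lit 8,nat_lit 0,nat_lit 10],[nat_lit 15,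
    nat_lit 8,nat_lit 5],[nat_lit 15,nat_lit 8,nat_lit 8,nat_lit 3]],[[nat_lit 15,nat_lit 9,nat_lit 4],[nat_lit 15,
    nat_lit 9,nat_lit 8,nat_lit 3],[nat_lit 15,nat_lit 9,nat_lit 9,nat_lit 3],[nat_lit 15,nat_lit 10,nat_lit 14],
    [nat_lit 15,nat_lit 10,nat_lit 15],[nat_lit 15,nat_lit 11,nat_lit 14],[nat_lit 15,nat_lit 11,nat_lit 15],
    [nat_lit 15,nat_lit 14,nat_lit 2],[nat_lit 15,nat_lit 14,nat_lit 3],[nat_lit 15,nat_lit 14,nat_lit 10],
    [nat_lit 15,nat_lit 14,nat_lit 11],[nat_lit 15,nat_lit 15,nat_lit 3]],[[nat_lit 15,nat_lit 15,nat_lit 10],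
    [nat_lit 15,nat_lit 15,nat_lit 11]]]
    [[nat_lit 9,nat_lit 10,nat_lit 13,nat_lit 19,nat_lit 21,nat_lit 27,nat_lit 32,nat_lit 33,nat_lit 39,nat_lit 41,
    nat_lit 46,nat_lit 57],[nat_lit 76,nat_lit 98,nat_lit 126,nat_lit 137,nat_lit 150,nat_lit 155,nat_lit 161,
    nat_lit 191,nat_lit 223,nat_lit 227,nat_lit 228,nat_lit 246],[nat_lit 249,nat_lit 260,nat_lit 262,nat_lit 286,
    nat_lit 296,nat_lit 326,nat_lit 330,nat_lit 40,nat_lit 42,nat_lit 47,nat_lit 48,nat_lit 58],[nat_lit 59,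
    nat_lit 77,nat_lit 94,nat_lit 99,nat_lit 100,nat_lit 106,nat_lit 108,nat_lit 110,nat_lit 119,nat_lit 122,
    nat_lit 124,nat_lit 125],[nat_lit 130,nat_lit 138,nat_lit 183,nat_lit 192,nat_lit 213,nat_lit 224,nat_lit 240,
    nat_lit 250,nat_lit 263,nat_lit 287,nat_lit 288,nat_lit 305],[nat_lit 323,nat_lit 327,nat_lit 5,nat_lit 11,
    nat_lit 23,nat_lit 35,nat_lit 142,nat_lit 146,nat_lit 168,nat_lit 172,nat_lit 173,nat_lit 198],[nat_lit 203,
    nat_lit 206,nat_lit 209,nat_lit 256,nat_lit 264,nat_lit 266,nat_lit 275,nat_lit 283,nat_lit 302,nat_lit 309,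
    nat_lit 312,nat_lit 343],[nat_lit 24,nat_lit 55,nat_lit 143,nat_lit 147,nat_lit 169,nat_lit 174,nat_lit 185,
    nat_lit 207,nat_lit 254,nat_lit 257,nat_lit 267,nat_lit 276],[nat_lit 278,nat_lit 313,nat_lit 316,nat_lit 318,
    nat_lit 319,nat_lit 335,nat_lit 337,nat_lit 338,nat_lit 344,nat_lit 347,nat_lit 0,nat_lit 3],[nat_lit 6,
    nat_lit 29,nat_lit 50,nat_lit 61,nat_lit 181,nat_lit 184,nat_lit 202,nat_lit 212,nat_lit 214,nat_lit 252,
    nat_lit 273,nat_lit 284],[nat_lit 298,nat_lit 300,nat_lit 320,nat_lit 336,nat_lit 1,nat_lit 7,nat_lit 16,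
    nat_lit 28,nat_lit 30,nat_lit 151,nat_lit 153,nat_lit 167],[nat_lit 179,nat_lit 182,nat_lit 215,nat_lit 253,
    nat_lit 274,nat_lit 282,nat_lit 285,nat_lit 299,nat_lit 301,nat_lit 334,nat_lit 66,nat_lit 86],[nat_lit 217,
    nat_lit 235,nat_lit 67,nat_lit 87,nat_lit 218,nat_lit 236,nat_lit 14,nat_lit 18,nat_lit 22,nat_lit 34,nat_lit 78,
    nat_lit 79],[nat_lit 92,nat_lit 95,nat_lit 101,nat_lit 102,nat_lit 120,nat_lit 129,nat_lit 131,nat_lit 139,
    nat_lit 141,nat_lit 158,nat_lit 162,nat_lit 166],[nat_lit 177,nat_lit 180,nat_lit 221,nat_lit 241,nat_lit 247,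
    nat_lit 270,nat_lit 272,nat_lit 279,nat_lit 280,nat_lit 289,nat_lit 290,nat_lit 297],[nat_lit 322,nat_lit 328,
    nat_lit 331,nat_lit 43,nat_lit 51,nat_lit 60,nat_lit 75,nat_lit 80,nat_lit 93,nat_lit 96,nat_lit 103,nat_lit 107],
    [nat_lit 113,nat_lit 114,nat_lit 121,nat_lit 123,nat_lit 140,nat_lit 159,nat_lit 178,nat_lit 187,nat_lit 190,
    nat_lit 193,nat_lit 201,nat_lit 211],[nat_lit 222,nat_lit 239,nat_lit 248,nat_lit 251,nat_lit 261,nat_lit 271,
    nat_lit 281,nat_lit 291,nat_lit 295,nat_lit 306,nat_lit 329,nat_lit 332],[nat_lit 25,nat_lit 144,nat_lit 148,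
    nat_lit 175,nat_lit 208,nat_lit 255,nat_lit 258,nat_lit 265,nat_lit 268,nat_lit 310,nat_lit 314,nat_lit 317],
    [nat_lit 333,nat_lit 345,nat_lit 348,nat_lit 26,nat_lit 36,nat_lit 52,nat_lit 56,nat_lit 145,nat_lit 149,
    nat_lit 176,nat_lit 210,nat_lit 259],[nat_lit 269,nat_lit 277,nat_lit 311,nat_lit 315,nat_lit 346,nat_lit 349,
    nat_lit 64,nat_lit 69,nat_lit 73,nat_lit 84,nat_lit 85,nat_lit 91],[nat_lit 117,nat_lit 135,nat_lit 156,
    nat_lit 170,nat_lit 186,nat_lit 188,nat_lit 204,nat_lit 205,nat_lit 216,nat_lit 220,nat_lit 231,nat_lit 234],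
    [nat_lit 12,nat_lit 20,nat_lit 37,nat_lit 38,nat_lit 53,nat_lit 54,nat_lit 70,nat_lit 74,nat_lit 89,nat_lit 118,
    nat_lit 136,nat_lit 154],[nat_lit 157,nat_lit 171,nat_lit 189,nat_lit 219,nat_lit 237,nat_lit 238,nat_lit 15,
    nat_lit 17,nat_lit 44,nat_lit 49,nat_lit 62,nat_lit 63],[nat_lit 65,nat_lit 68,nat_lit 71,nat_lit 72,nat_lit 81,
    nat_lit 83,nat_lit 104,nat_lit 115,nat_lit 127,nat_lit 132,nat_lit 160,nat_lit 163],[nat_lit 194,nat_lit 196,
    nat_lit 199,nat_lit 225,nat_lit 229,nat_lit 232,nat_lit 233,nat_lit 242,nat_lit 244,nat_lit 292,nat_lit 303,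
    nat_lit 307],[nat_lit 321,nat_lit 324,nat_lit 339,nat_lit 341,nat_lit 2,nat_lit 4,nat_lit 8,nat_lit 31,nat_lit 45,
    nat_lit 82,nat_lit 88,nat_lit 90],[nat_lit 97,nat_lit 105,nat_lit 109,nat_lit 111,nat_lit 112,nat_lit 116,
    nat_lit 128,nat_lit 133,nat_lit 134,nat_lit 152,nat_lit 164,nat_lit 165],[nat_lit 195,nat_lit 197,nat_lit 200,
    nat_lit 226,nat_lit 230,nat_lit 243,nat_lit 245,nat_lit 293,nat_lit 294,nat_lit 304,nat_lit 308,nat_lit 325],
    [nat_lit 340,nat_lit 342]]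
    [[nat_lit 106,nat_lit 124,nat_lit 316,nat_lit 107,nat_lit 317,nat_lit 62,nat_lit 108,nat_lit 125,nat_lit 318,
    nat_lit 0,nat_lit 1,nat_lit 63],[nat_lit 264,nat_lit 2,nat_lit 150,nat_lit 282,nat_lit 126,nat_lit 283,
    nat_lit 151,nat_lit 3,nat_lit 265,nat_lit 4,nat_lit 152,nat_lit 64],[nat_lit 84,nat_lit 216,nat_lit 231,nat_lit 5,
    nat_lit 127,nat_lit 109,nat_lit 128,nat_lit 319,nat_lit 6,nat_lit 7,nat_lit 153,nat_lit 65],[nat_lit 232,
    nat_lit 266,nat_lit 267,nat_lit 8,nat_lit 31,nat_lit 9,nat_lit 32,nat_lit 183,nat_lit 284,nat_lit 320,nat_lit 10,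
    nat_lit 33],[nat_lit 34,nat_lit 285,nat_lit 110,nat_lit 184,nat_lit 233,nat_lit 268,nat_lit 269,nat_lit 85,
    nat_lit 234,nat_lit 11,nat_lit 35,nat_lit 36],[nat_lit 185,nat_lit 111,nat_lit 286,nat_lit 287,nat_lit 246,
    nat_lit 288,nat_lit 142,nat_lit 146,nat_lit 289,nat_lit 247,nat_lit 270,nat_lit 290],[nat_lit 291,nat_lit 248,
    nat_lit 271,nat_lit 186,nat_lit 12,nat_lit 37,nat_lit 154,nat_lit 155,nat_lit 187,nat_lit 292,nat_lit 321,
    nat_lit 293],[nat_lit 249,nat_lit 250,nat_lit 143,nat_lit 147,nat_lit 322,nat_lit 272,nat_lit 323,nat_lit 251,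
    nat_lit 156,nat_lit 188,nat_lit 38,nat_lit 157],[nat_lit 189,nat_lit 324,nat_lit 13,nat_lit 39,nat_lit 40,
    nat_lit 158,nat_lit 159,nat_lit 190,nat_lit 294,nat_lit 325,nat_lit 41,nat_lit 191],[nat_lit 42,nat_lit 326,
    nat_lit 43,nat_lit 327,nat_lit 328,nat_lit 192,nat_lit 193,nat_lit 295,nat_lit 329,nat_lit 252,nat_lit 273,
    nat_lit 44],[nat_lit 160,nat_lit 194,nat_lit 45,nat_lit 195,nat_lit 46,nat_lit 47,nat_lit 14,nat_lit 296,
    nat_lit 330,nat_lit 161,nat_lit 48,nat_lit 162],[nat_lit 297,nat_lit 331,nat_lit 332,nat_lit 253,nat_lit 274,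
    nat_lit 15,nat_lit 49,nat_lit 163,nat_lit 196,nat_lit 164,nat_lit 66,nat_lit 86],[nat_lit 217,nat_lit 235,
    nat_lit 67,nat_lit 87,nat_lit 218,nat_lit 236,nat_lit 16,nat_lit 129,nat_lit 333,nat_lit 130,nat_lit 275,
    nat_lit 17],[nat_lit 254,nat_lit 276,nat_lit 165,nat_lit 197,nat_lit 298,nat_lit 18,nat_lit 166,nat_lit 299,
    nat_lit 334,nat_lit 335,nat_lit 167,nat_lit 131],[nat_lit 68,nat_lit 88,nat_lit 255,nat_lit 277,nat_lit 69,
    nat_lit 70,nat_lit 89,nat_lit 219,nat_lit 237,nat_lit 168,nat_lit 198,nat_lit 132],[nat_lit 169,nat_lit 112,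
    nat_lit 133,nat_lit 50,nat_lit 113,nat_lit 90,nat_lit 256,nat_lit 199,nat_lit 257,nat_lit 278,nat_lit 200,
    nat_lit 19],[nat_lit 51,nat_lit 201,nat_lit 300,nat_lit 336,nat_lit 301,nat_lit 337,nat_lit 71,nat_lit 302,
    nat_lit 338,nat_lit 202,nat_lit 114,nat_lit 72],[nat_lit 258,nat_lit 259,nat_lit 73,nat_lit 91,nat_lit 220,
    nat_lit 74,nat_lit 238,nat_lit 203,nat_lit 115,nat_lit 52,nat_lit 116,nat_lit 134],[nat_lit 260,nat_lit 144,
    nat_lit 148,nat_lit 279,nat_lit 261,nat_lit 170,nat_lit 204,nat_lit 20,nat_lit 53,nat_lit 303,nat_lit 339,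
    nat_lit 21],[nat_lit 22,nat_lit 304,nat_lit 340,nat_lit 262,nat_lit 305,nat_lit 306,nat_lit 263,nat_lit 145,
    nat_lit 149,nat_lit 280,nat_lit 281,nat_lit 205],[nat_lit 54,nat_lit 171,nat_lit 307,nat_lit 341,nat_lit 308,
    nat_lit 342,nat_lit 23,nat_lit 172,nat_lit 206,nat_lit 24,nat_lit 55,nat_lit 207],[nat_lit 117,nat_lit 135,
    nat_lit 92,nat_lit 221,nat_lit 75,nat_lit 93,nat_lit 222,nat_lit 239,nat_lit 25,nat_lit 208,nat_lit 26,
    nat_lit 56],[nat_lit 76,nat_lit 223,nat_lit 77,nat_lit 94,nat_lit 224,nat_lit 240,nat_lit 173,nat_lit 209,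
    nat_lit 174,nat_lit 118,nat_lit 136,nat_lit 78],[nat_lit 95,nat_lit 241,nat_lit 96,nat_lit 175,nat_lit 176,
    nat_lit 210,nat_lit 137,nat_lit 79,nat_lit 119,nat_lit 138,nat_lit 27,nat_lit 57],[nat_lit 58,nat_lit 177,
    nat_lit 178,nat_lit 211,nat_lit 309,nat_lit 343,nat_lit 344,nat_lit 212,nat_lit 28,nat_lit 179,nat_lit 120,
    nat_lit 139],[nat_lit 121,nat_lit 140,nat_lit 80,nat_lit 310,nat_lit 345,nat_lit 59,nat_lit 213,nat_lit 311,
    nat_lit 346,nat_lit 81,nat_lit 225,nat_lit 242],[nat_lit 82,nat_lit 97,nat_lit 226,nat_lit 243,nat_lit 98,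
    nat_lit 227,nat_lit 99,nat_lit 100,nat_lit 122,nat_lit 312,nat_lit 180,nat_lit 60],[nat_lit 313,nat_lit 347,
    nat_lit 29,nat_lit 61,nat_lit 181,nat_lit 214,nat_lit 30,nat_lit 182,nat_lit 215,nat_lit 228,nat_lit 141,
    nat_lit 101],[nat_lit 123,nat_lit 102,nat_lit 103,nat_lit 314,nat_lit 348,nat_lit 315,nat_lit 349,nat_lit 83,
    nat_lit 104,nat_lit 229,nat_lit 244,nat_lit 105],[nat_lit 230,nat_lit 245]]
    [[[nat_lit 283,nat_lit 302,nat_lit 309,nat_lit 312],[nat_lit 283,nat_lit 302,nat_lit 309,nat_lit 312],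
    [nat_lit 283,nat_lit 302,nat_lit 309,nat_lit 312],[nat_lit 283,nat_lit 302,nat_lit 309,nat_lit 312],[nat_lit 283,
    nat_lit 302,nat_lit 309,nat_lit 312],[nat_lit 283,nat_lit 302,nat_lit 309,nat_lit 312],[nat_lit 293,nat_lit 294,
    nat_lit 304,nat_lit 308],[nat_lit 293,nat_lit 294,nat_lit 304,nat_lit 308],[nat_lit 293,nat_lit 294,nat_lit 304,
    nat_lit 308],[nat_lit 293,nat_lit 294,nat_lit 304,nat_lit 308],[nat_lit 293,nat_lit 294,nat_lit 304,nat_lit 308],
    [nat_lit 293,nat_lit 294,nat_lit 304,nat_lit 308]],[[nat_lit 284,nat_lit 298,nat_lit 300],[nat_lit 287,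
    nat_lit 288,nat_lit 305],[nat_lit 313],[nat_lit 313],[nat_lit 310,nat_lit 314],[nat_lit 310,nat_lit 314],
    [nat_lit 310,nat_lit 314],[],[],[],[],[nat_lit 292,nat_lit 303,nat_lit 307]],[[nat_lit 292,nat_lit 303,
    nat_lit 307],[nat_lit 292,nat_lit 303,nat_lit 307],[nat_lit 292,nat_lit 303,nat_lit 307],[nat_lit 286,
    nat_lit 296],[nat_lit 286,nat_lit 296],[],[],[nat_lit 88,nat_lit 90,nat_lit 97,nat_lit 105],[nat_lit 88,
    nat_lit 90,nat_lit 97,nat_lit 105],[nat_lit 88,nat_lit 90,nat_lit 97,nat_lit 105],[nat_lit 88,nat_lit 90,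
    nat_lit 97,nat_lit 105],[nat_lit 88,nat_lit 90,nat_lit 97,nat_lit 105]],[[nat_lit 88,nat_lit 90,nat_lit 97,
    nat_lit 105],[],[nat_lit 94,nat_lit 99,nat_lit 100],[nat_lit 94,nat_lit 99,nat_lit 100],[nat_lit 94,nat_lit 99,
    nat_lit 100],[nat_lit 86],[nat_lit 86],[nat_lit 86],[nat_lit 86],[nat_lit 86],[],[]],[[],[],[nat_lit 87],
    [nat_lit 87],[nat_lit 87],[nat_lit 84,nat_lit 85,nat_lit 91],[nat_lit 93,nat_lit 96,nat_lit 103],[nat_lit 104],
    [nat_lit 104],[nat_lit 98],[nat_lit 98],[nat_lit 98]],[[nat_lit 89],[nat_lit 89],[nat_lit 5,nat_lit 11,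
    nat_lit 23],[nat_lit 5,nat_lit 11,nat_lit 23],[nat_lit 5,nat_lit 11,nat_lit 23],[nat_lit 2,nat_lit 4,nat_lit 8],
    [nat_lit 14,nat_lit 18,nat_lit 22],[nat_lit 1,nat_lit 7,nat_lit 16,nat_lit 28,nat_lit 30],[nat_lit 25],
    [nat_lit 25],[nat_lit 25],[]],[[],[],[],[nat_lit 15,nat_lit 17],[nat_lit 26],[nat_lit 26],[nat_lit 26],[nat_lit 9,
    nat_lit 10,nat_lit 13,nat_lit 19,nat_lit 21,nat_lit 27],[nat_lit 9,nat_lit 10,nat_lit 13,nat_lit 19,nat_lit 21,
    nat_lit 27],[nat_lit 9,nat_lit 10,nat_lit 13,nat_lit 19,nat_lit 21,nat_lit 27],[nat_lit 9,nat_lit 10,nat_lit 13,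
    nat_lit 19,nat_lit 21,nat_lit 27],[nat_lit 12,nat_lit 20]],[[],[nat_lit 128,nat_lit 133,nat_lit 134],[nat_lit 129,
    nat_lit 131,nat_lit 139,nat_lit 141],[],[],[],[],[],[nat_lit 127,nat_lit 132],[nat_lit 127,nat_lit 132],[],[]],
    [[],[nat_lit 126,nat_lit 137],[nat_lit 136],[nat_lit 136],[nat_lit 136],[nat_lit 136],[nat_lit 136],[nat_lit 136],
    [nat_lit 136],[nat_lit 136],[],[]],[[],[],[nat_lit 82],[nat_lit 82],[],[nat_lit 67],[nat_lit 67],[nat_lit 67],
    [nat_lit 67],[nat_lit 62,nat_lit 63,nat_lit 65,nat_lit 68,nat_lit 71,nat_lit 72,nat_lit 81,nat_lit 83],[],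
    [nat_lit 76]],[[nat_lit 76],[nat_lit 76],[nat_lit 70,nat_lit 74],[nat_lit 70,nat_lit 74],[nat_lit 146],
    [nat_lit 146],[nat_lit 146],[nat_lit 146],[nat_lit 146],[nat_lit 148],[nat_lit 148],[nat_lit 148]],[[nat_lit 148],
    [nat_lit 148],[],[],[nat_lit 149],[],[],[],[],[],[],[nat_lit 106,nat_lit 108,nat_lit 110,nat_lit 119,
    nat_lit 122]],[[nat_lit 117],[nat_lit 107,nat_lit 113,nat_lit 114,nat_lit 121,nat_lit 123],[nat_lit 184,
    nat_lit 202,nat_lit 212,nat_lit 214],[nat_lit 183,nat_lit 192,nat_lit 213],[nat_lit 186,nat_lit 188,nat_lit 204,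
    nat_lit 205],[nat_lit 187,nat_lit 190,nat_lit 193,nat_lit 201,nat_lit 211],[nat_lit 142],[nat_lit 142],
    [nat_lit 142],[],[],[]],[[],[],[],[],[],[nat_lit 143],[nat_lit 143],[nat_lit 143],[nat_lit 143],[nat_lit 144],
    [nat_lit 144],[nat_lit 144]],[[nat_lit 144],[nat_lit 144],[],[],[],[nat_lit 145],[nat_lit 145],[nat_lit 145],
    [nat_lit 145],[],[],[]],[[],[],[],[nat_lit 243,nat_lit 245],[nat_lit 243,nat_lit 245],[nat_lit 243,nat_lit 245],
    [],[],[nat_lit 240],[nat_lit 240],[nat_lit 240],[nat_lit 235]],[[nat_lit 235],[nat_lit 235],[nat_lit 235],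
    [nat_lit 235],[],[],[],[nat_lit 236],[nat_lit 236],[nat_lit 236],[nat_lit 236],[nat_lit 236]],[[nat_lit 231,
    nat_lit 234],[nat_lit 239],[nat_lit 232,nat_lit 233,nat_lit 242,nat_lit 244],[nat_lit 232,nat_lit 233,nat_lit 242,
    nat_lit 244],[nat_lit 232,nat_lit 233,nat_lit 242,nat_lit 244],[],[],[],[],[],[nat_lit 237,nat_lit 238],
    [nat_lit 237,nat_lit 238]],[[nat_lit 168,nat_lit 172,nat_lit 173],[nat_lit 158,nat_lit 162,nat_lit 166,
    nat_lit 177,nat_lit 180],[nat_lit 151,nat_lit 153,nat_lit 167,nat_lit 179,nat_lit 182],[nat_lit 175],[],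
    [nat_lit 160,nat_lit 163],[nat_lit 160,nat_lit 163],[nat_lit 176],[nat_lit 176],[nat_lit 150,nat_lit 155,
    nat_lit 161],[nat_lit 150,nat_lit 155,nat_lit 161],[nat_lit 154,nat_lit 157,nat_lit 171]],[[nat_lit 154,
    nat_lit 157,nat_lit 171],[nat_lit 154,nat_lit 157,nat_lit 171],[nat_lit 154,nat_lit 157,nat_lit 171],[nat_lit 264,
    nat_lit 266,nat_lit 275],[],[],[],[nat_lit 270,nat_lit 272,nat_lit 279,nat_lit 280],[nat_lit 274],[nat_lit 265,
    nat_lit 268],[],[]],[[nat_lit 269,nat_lit 277],[nat_lit 269,nat_lit 277],[],[],[],[],[],[],[],[nat_lit 224],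
    [nat_lit 224],[nat_lit 224]],[[nat_lit 217],[],[],[],[nat_lit 218],[nat_lit 218],[nat_lit 218],[nat_lit 218],
    [nat_lit 216,nat_lit 220],[nat_lit 216,nat_lit 220],[nat_lit 222],[nat_lit 222]],[[nat_lit 343],[nat_lit 343],
    [nat_lit 325,nat_lit 340,nat_lit 342],[nat_lit 325,nat_lit 340,nat_lit 342],[nat_lit 325,nat_lit 340,nat_lit 342],
    [nat_lit 325,nat_lit 340,nat_lit 342],[nat_lit 320,nat_lit 336],[nat_lit 320,nat_lit 336],[nat_lit 323,
    nat_lit 327],[],[nat_lit 316,nat_lit 318,nat_lit 319,nat_lit 335,nat_lit 337,nat_lit 338,nat_lit 344,nat_lit 347],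
    [nat_lit 317,nat_lit 333,nat_lit 345,nat_lit 348]],[[nat_lit 317,nat_lit 333,nat_lit 345,nat_lit 348],
    [nat_lit 317,nat_lit 333,nat_lit 345,nat_lit 348],[],[],[nat_lit 329,nat_lit 332],[nat_lit 329,nat_lit 332],
    [nat_lit 256],[nat_lit 256],[],[],[nat_lit 252],[nat_lit 252]],[[nat_lit 252],[nat_lit 252],[nat_lit 252],
    [nat_lit 252],[nat_lit 252],[nat_lit 252],[nat_lit 250,nat_lit 263],[],[nat_lit 254,nat_lit 257],[nat_lit 254,
    nat_lit 257],[nat_lit 255,nat_lit 258],[nat_lit 255,nat_lit 258]],[[],[],[],[],[],[nat_lit 248,nat_lit 251,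
    nat_lit 261],[nat_lit 248,nat_lit 251,nat_lit 261],[nat_lit 248,nat_lit 251,nat_lit 261],[nat_lit 248,nat_lit 251,
    nat_lit 261],[nat_lit 246,nat_lit 249,nat_lit 260,nat_lit 262],[nat_lit 246,nat_lit 249,nat_lit 260,nat_lit 262],
    [nat_lit 246,nat_lit 249,nat_lit 260,nat_lit 262]],[[],[],[],[],[nat_lit 35],[nat_lit 35],[nat_lit 35],
    [nat_lit 31,nat_lit 45],[nat_lit 31,nat_lit 45],[nat_lit 50,nat_lit 61],[nat_lit 40,nat_lit 42,nat_lit 47,
    nat_lit 48,nat_lit 58,nat_lit 59],[nat_lit 40,nat_lit 42,nat_lit 47,nat_lit 48,nat_lit 58,nat_lit 59]],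
    [[nat_lit 40,nat_lit 42,nat_lit 47,nat_lit 48,nat_lit 58,nat_lit 59],[nat_lit 40,nat_lit 42,nat_lit 47,nat_lit 48,
    nat_lit 58,nat_lit 59],[],[],[],[],[nat_lit 55],[nat_lit 55],[nat_lit 55],[],[],[]],[[],[],[],[],[],[nat_lit 43,
    nat_lit 51,nat_lit 60],[nat_lit 43,nat_lit 51,nat_lit 60],[nat_lit 32,nat_lit 33,nat_lit 39,nat_lit 41,nat_lit 46,
    nat_lit 57],[nat_lit 32,nat_lit 33,nat_lit 39,nat_lit 41,nat_lit 46,nat_lit 57],[nat_lit 32,nat_lit 33,nat_lit 39,
    nat_lit 41,nat_lit 46,nat_lit 57],[nat_lit 32,nat_lit 33,nat_lit 39,nat_lit 41,nat_lit 46,nat_lit 57],[nat_lit 37,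
    nat_lit 38,nat_lit 53,nat_lit 54]],[[nat_lit 37,nat_lit 38,nat_lit 53,nat_lit 54],[nat_lit 37,nat_lit 38,
    nat_lit 53,nat_lit 54]]]
    (nat_lit 350) [nat_lit 0,nat_lit 1,nat_lit 2,nat_lit 3,nat_lit 4,nat_lit 5,nat_lit 6,nat_lit 7,nat_lit 8,
    nat_lit 9,nat_lit 10,nat_lit 11,nat_lit 12,nat_lit 13,nat_lit 14,nat_lit 15,nat_lit 16,nat_lit 17,nat_lit 18,
    nat_lit 19,nat_lit 20,nat_lit 21,nat_lit 22,nat_lit 23,nat_lit 24,nat_lit 25,nat_lit 26,nat_lit 27,nat_lit 28,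
    nat_lit 29,nat_lit 30,nat_lit 31,nat_lit 34,nat_lit 35,nat_lit 36,nat_lit 37,nat_lit 38,nat_lit 40,nat_lit 43,
    nat_lit 44,nat_lit 45,nat_lit 48,nat_lit 49,nat_lit 50,nat_lit 51,nat_lit 52,nat_lit 53,nat_lit 54,nat_lit 55,
    nat_lit 56,nat_lit 58,nat_lit 59,nat_lit 60,nat_lit 61,nat_lit 66,nat_lit 67,nat_lit 68,nat_lit 69,nat_lit 70,
    nat_lit 71,nat_lit 72,nat_lit 73,nat_lit 74,nat_lit 75,nat_lit 78,nat_lit 80,nat_lit 81,nat_lit 82,nat_lit 83,
    nat_lit 86,nat_lit 87,nat_lit 88,nat_lit 89,nat_lit 91,nat_lit 92,nat_lit 93,nat_lit 95,nat_lit 96,nat_lit 97,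
    nat_lit 101,nat_lit 102,nat_lit 103,nat_lit 104,nat_lit 105,nat_lit 112,nat_lit 114,nat_lit 115,nat_lit 116,
    nat_lit 117,nat_lit 118,nat_lit 120,nat_lit 121,nat_lit 123,nat_lit 131,nat_lit 132,nat_lit 133,nat_lit 134,
    nat_lit 135,nat_lit 136,nat_lit 139,nat_lit 140,nat_lit 141,nat_lit 144,nat_lit 145,nat_lit 148,nat_lit 149,
    nat_lit 170,nat_lit 171,nat_lit 175,nat_lit 176,nat_lit 204,nat_lit 205,nat_lit 208,nat_lit 210,nat_lit 225,
    nat_lit 226,nat_lit 229,nat_lit 230,nat_lit 242,nat_lit 243,nat_lit 244,nat_lit 245]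
    [[[nat_lit 9,nat_lit 10,nat_lit 13,nat_lit 19,nat_lit 21,nat_lit 27],[],[nat_lit 5,nat_lit 11,nat_lit 23],
    [nat_lit 24],[nat_lit 0,nat_lit 3,nat_lit 6,nat_lit 29],[nat_lit 1,nat_lit 7,nat_lit 16,nat_lit 28,nat_lit 30],[],
    [],[nat_lit 14,nat_lit 18,nat_lit 22],[],[nat_lit 25],[nat_lit 26],[],[nat_lit 12,nat_lit 20],[nat_lit 15,
    nat_lit 17],[nat_lit 2,nat_lit 4,nat_lit 8]],[[nat_lit 32,nat_lit 33,nat_lit 39,nat_lit 41,nat_lit 46,nat_lit 57],
    [nat_lit 40,nat_lit 42,nat_lit 47,nat_lit 48,nat_lit 58,nat_lit 59],[nat_lit 35],[nat_lit 55],[nat_lit 50,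
    nat_lit 61],[],[],[],[nat_lit 34],[nat_lit 43,nat_lit 51,nat_lit 60],[],[nat_lit 36,nat_lit 52,nat_lit 56],[],
    [nat_lit 37,nat_lit 38,nat_lit 53,nat_lit 54],[nat_lit 44,nat_lit 49],[nat_lit 31,nat_lit 45]],[[nat_lit 76],
    [nat_lit 77],[],[],[],[],[nat_lit 66],[nat_lit 67],[nat_lit 78,nat_lit 79],[nat_lit 75,nat_lit 80],[],[],
    [nat_lit 64,nat_lit 69,nat_lit 73],[nat_lit 70,nat_lit 74],[nat_lit 62,nat_lit 63,nat_lit 65,nat_lit 68,
    nat_lit 71,nat_lit 72,nat_lit 81,nat_lit 83],[nat_lit 82]],[[nat_lit 98],[nat_lit 94,nat_lit 99,nat_lit 100],[],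
    [],[],[],[nat_lit 86],[nat_lit 87],[nat_lit 92,nat_lit 95,nat_lit 101,nat_lit 102],[nat_lit 93,nat_lit 96,
    nat_lit 103],[],[],[nat_lit 84,nat_lit 85,nat_lit 91],[nat_lit 89],[nat_lit 104],[nat_lit 88,nat_lit 90,
    nat_lit 97,nat_lit 105]],[[],[nat_lit 106,nat_lit 108,nat_lit 110,nat_lit 119,nat_lit 122],[],[],[],[],[],[],
    [nat_lit 120],[nat_lit 107,nat_lit 113,nat_lit 114,nat_lit 121,nat_lit 123],[],[],[nat_lit 117],[nat_lit 118],
    [nat_lit 115],[nat_lit 109,nat_lit 111,nat_lit 112,nat_lit 116]],[[nat_lit 126,nat_lit 137],[nat_lit 124,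
    nat_lit 125,nat_lit 130,nat_lit 138],[],[],[],[],[],[],[nat_lit 129,nat_lit 131,nat_lit 139,nat_lit 141],
    [nat_lit 140],[],[],[nat_lit 135],[nat_lit 136],[nat_lit 127,nat_lit 132],[nat_lit 128,nat_lit 133,nat_lit 134]],
    [[],[],[nat_lit 142],[nat_lit 143],[],[],[],[],[],[],[nat_lit 144],[nat_lit 145],[],[],[],[]],[[],[],
    [nat_lit 146],[nat_lit 147],[],[],[],[],[],[],[nat_lit 148],[nat_lit 149],[],[],[],[]],[[nat_lit 150,nat_lit 155,
    nat_lit 161],[],[nat_lit 168,nat_lit 172,nat_lit 173],[nat_lit 169,nat_lit 174],[nat_lit 181],[nat_lit 151,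
    nat_lit 153,nat_lit 167,nat_lit 179,nat_lit 182],[],[],[nat_lit 158,nat_lit 162,nat_lit 166,nat_lit 177,
    nat_lit 180],[nat_lit 159,nat_lit 178],[nat_lit 175],[nat_lit 176],[nat_lit 156,nat_lit 170],[nat_lit 154,
    nat_lit 157,nat_lit 171],[nat_lit 160,nat_lit 163],[nat_lit 152,nat_lit 164,nat_lit 165]],[[nat_lit 191],
    [nat_lit 183,nat_lit 192,nat_lit 213],[nat_lit 198,nat_lit 203,nat_lit 206,nat_lit 209],[nat_lit 185,nat_lit 207],
    [nat_lit 184,nat_lit 202,nat_lit 212,nat_lit 214],[nat_lit 215],[],[],[],[nat_lit 187,nat_lit 190,nat_lit 193,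
    nat_lit 201,nat_lit 211],[nat_lit 208],[nat_lit 210],[nat_lit 186,nat_lit 188,nat_lit 204,nat_lit 205],
    [nat_lit 189],[nat_lit 194,nat_lit 196,nat_lit 199],[nat_lit 195,nat_lit 197,nat_lit 200]],[[nat_lit 223,
    nat_lit 227,nat_lit 228],[nat_lit 224],[],[],[],[],[nat_lit 217],[nat_lit 218],[nat_lit 221],[nat_lit 222],[],[],
    [nat_lit 216,nat_lit 220],[nat_lit 219],[nat_lit 225,nat_lit 229],[nat_lit 226,nat_lit 230]],[[],[nat_lit 240],[],
    [],[],[],[nat_lit 235],[nat_lit 236],[nat_lit 241],[nat_lit 239],[],[],[nat_lit 231,nat_lit 234],[nat_lit 237,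
    nat_lit 238],[nat_lit 232,nat_lit 233,nat_lit 242,nat_lit 244],[nat_lit 243,nat_lit 245]],[[nat_lit 246,
    nat_lit 249,nat_lit 260,nat_lit 262],[nat_lit 250,nat_lit 263],[nat_lit 256],[nat_lit 254,nat_lit 257],
    [nat_lit 252],[nat_lit 253],[],[],[nat_lit 247],[nat_lit 248,nat_lit 251,nat_lit 261],[nat_lit 255,nat_lit 258],
    [nat_lit 259],[],[],[],[]],[[],[],[nat_lit 264,nat_lit 266,nat_lit 275],[nat_lit 267,nat_lit 276,nat_lit 278],
    [nat_lit 273],[nat_lit 274],[],[],[nat_lit 270,nat_lit 272,nat_lit 279,nat_lit 280],[nat_lit 271,nat_lit 281],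
    [nat_lit 265,nat_lit 268],[nat_lit 269,nat_lit 277],[],[],[],[]],[[nat_lit 286,nat_lit 296],[nat_lit 287,
    nat_lit 288,nat_lit 305],[nat_lit 283,nat_lit 302,nat_lit 309,nat_lit 312],[nat_lit 313],[nat_lit 284,nat_lit 298,
    nat_lit 300],[nat_lit 282,nat_lit 285,nat_lit 299,nat_lit 301],[],[],[nat_lit 289,nat_lit 290,nat_lit 297],
    [nat_lit 291,nat_lit 295,nat_lit 306],[nat_lit 310,nat_lit 314],[nat_lit 311,nat_lit 315],[],[],[nat_lit 292,
    nat_lit 303,nat_lit 307],[nat_lit 293,nat_lit 294,nat_lit 304,nat_lit 308]],[[nat_lit 326,nat_lit 330],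
    [nat_lit 323,nat_lit 327],[nat_lit 343],[nat_lit 316,nat_lit 318,nat_lit 319,nat_lit 335,nat_lit 337,nat_lit 338,
    nat_lit 344,nat_lit 347],[nat_lit 320,nat_lit 336],[nat_lit 334],[],[],[nat_lit 322,nat_lit 328,nat_lit 331],
    [nat_lit 329,nat_lit 332],[nat_lit 317,nat_lit 333,nat_lit 345,nat_lit 348],[nat_lit 346,nat_lit 349],[],[],
    [nat_lit 321,nat_lit 324,nat_lit 339,nat_lit 341],[nat_lit 325,nat_lit 340,nat_lit 342]]]
    [[[nat_lit 0x1204000080000000000000000000000000000000000000000000000000000000000000000000000,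
    nat_lit 0x1204000080000000000000000000000000000000000000000000000000000000000000000000000,
    nat_lit 0x1204000080000000000000000000000000000000000000000000000000000000000000000000000,
    nat_lit 0x1204000080000000000000000000000000000000000000000000000000000000000000000000000,
    nat_lit 0x1204000080000000000000000000000000000000000000000000000000000000000000000000000,
    nat_lit 0x1204000080000000000000000000000000000000000000000000000000000000000000000000000,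
    nat_lit 0x110060000000000000000000000000000000000000000000000000000000000000000000000000,
    nat_lit 0x110060000000000000000000000000000000000000000000000000000000000000000000000000,
    nat_lit 0x110060000000000000000000000000000000000000000000000000000000000000000000000000],
    [nat_lit 0x110060000000000000000000000000000000000000000000000000000000000000000000000000,
    nat_lit 0x110060000000000000000000000000000000000000000000000000000000000000000000000000,
    nat_lit 0x110060000000000000000000000000000000000000000000000000000000000000000000000000,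
    nat_lit 0x1400100000000000000000000000000000000000000000000000000000000000000000000000,
    nat_lit 0x20001800000000000000000000000000000000000000000000000000000000000000000000000,
    nat_lit 0x2000000000000000000000000000000000000000000000000000000000000000000000000000000,
    nat_lit 0x2000000000000000000000000000000000000000000000000000000000000000000000000000000,
    nat_lit 0x4400000000000000000000000000000000000000000000000000000000000000000000000000000,
    nat_lit 0x4400000000000000000000000000000000000000000000000000000000000000000000000000000],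
    [nat_lit 0x4400000000000000000000000000000000000000000000000000000000000000000000000000000,nat_lit 0,nat_lit 0,
    nat_lit 0,nat_lit 0,nat_lit 0x88010000000000000000000000000000000000000000000000000000000000000000000000000,
    nat_lit 0x88010000000000000000000000000000000000000000000000000000000000000000000000000,
    nat_lit 0x88010000000000000000000000000000000000000000000000000000000000000000000000000,
    nat_lit 0x88010000000000000000000000000000000000000000000000000000000000000000000000000],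
    [nat_lit 0x100400000000000000000000000000000000000000000000000000000000000000000000000,
    nat_lit 0x100400000000000000000000000000000000000000000000000000000000000000000000000,nat_lit 0,nat_lit 0,
    nat_lit 0x202050000000000000000000000,nat_lit 0x202050000000000000000000000,nat_lit 0x202050000000000000000000000,
    nat_lit 0x202050000000000000000000000,nat_lit 0x202050000000000000000000000],
    [nat_lit 0x202050000000000000000000000,nat_lit 0,nat_lit 0x18400000000000000000000000,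
    nat_lit 0x18400000000000000000000000,nat_lit 0x18400000000000000000000000,nat_lit 0x4000000000000000000000,
    nat_lit 0x4000000000000000000000,nat_lit 0x4000000000000000000000,nat_lit 0x4000000000000000000000],
    [nat_lit 0x4000000000000000000000,nat_lit 0,nat_lit 0,nat_lit 0,nat_lit 0,nat_lit 0x8000000000000000000000,
    nat_lit 0x8000000000000000000000,nat_lit 0x8000000000000000000000,nat_lit 0x83000000000000000000000],
    [nat_lit 0x81200000000000000000000000,nat_lit 0x100000000000000000000000000,nat_lit 0x100000000000000000000000000,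
    nat_lit 0x4000000000000000000000000,nat_lit 0x4000000000000000000000000,nat_lit 0x4000000000000000000000000,
    nat_lit 0x20000000000000000000000,nat_lit 0x20000000000000000000000,nat_lit 0x800820],[nat_lit 0x800820,
    nat_lit 0x800820,nat_lit 276,nat_lit 0x444000,nat_lit 0x50010082,nat_lit 0x2000000,nat_lit 0x2000000,
    nat_lit 0x2000000,nat_lit 0],[nat_lit 0,nat_lit 0,nat_lit 0,nat_lit 0x28000,nat_lit 0x4000000,nat_lit 0x4000000,
    nat_lit 0x4000000,nat_lit 0x8282600,nat_lit 0x8282600]],[[nat_lit 0x8282600,nat_lit 0x8282600,nat_lit 0x101000,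
    nat_lit 0,nat_lit 0x6100000000000000000000000000000000,nat_lit 0x280a00000000000000000000000000000000,nat_lit 0,
    nat_lit 0,nat_lit 0],[nat_lit 0,nat_lit 0,nat_lit 0x1080000000000000000000000000000000,
    nat_lit 0x1080000000000000000000000000000000,nat_lit 0,nat_lit 0,nat_lit 0,
    nat_lit 0x20040000000000000000000000000000000,nat_lit 0x10000000000000000000000000000000000],
    [nat_lit 0x10000000000000000000000000000000000,nat_lit 0x10000000000000000000000000000000000,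
    nat_lit 0x10000000000000000000000000000000000,nat_lit 0x10000000000000000000000000000000000,
    nat_lit 0x10000000000000000000000000000000000,nat_lit 0x10000000000000000000000000000000000,
    nat_lit 0x10000000000000000000000000000000000,nat_lit 0,nat_lit 0],[nat_lit 0,nat_lit 0,
    nat_lit 0x400000000000000000000,nat_lit 0x400000000000000000000,nat_lit 0,nat_lit 0x80000000000000000,
    nat_lit 0x80000000000000000,nat_lit 0x80000000000000000,nat_lit 0x80000000000000000],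
    [nat_lit 0xa0192c000000000000000,nat_lit 0,nat_lit 0x10000000000000000000,nat_lit 0x10000000000000000000,
    nat_lit 0x10000000000000000000,nat_lit 0x4400000000000000000,nat_lit 0x4400000000000000000,
    nat_lit 0x4000000000000000000000000000000000000,nat_lit 0x4000000000000000000000000000000000000],
    [nat_lit 0x4000000000000000000000000000000000000,nat_lit 0x4000000000000000000000000000000000000,
    nat_lit 0x4000000000000000000000000000000000000,nat_lit 0x10000000000000000000000000000000000000,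
    nat_lit 0x10000000000000000000000000000000000000,nat_lit 0x10000000000000000000000000000000000000,
    nat_lit 0x10000000000000000000000000000000000000,nat_lit 0x10000000000000000000000000000000000000,nat_lit 0],
    [nat_lit 0,nat_lit 0x20000000000000000000000000000000000000,nat_lit 0,nat_lit 0,nat_lit 0,nat_lit 0,nat_lit 0,
    nat_lit 0,nat_lit 0x4805400000000000000000000000000],[nat_lit 0x200000000000000000000000000000,
    nat_lit 0xa060800000000000000000000000000,nat_lit 0x500400010000000000000000000000000000000000000000000000,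
    nat_lit 0x200001008000000000000000000000000000000000000000000000,
    nat_lit 0x3000140000000000000000000000000000000000000000000000,
    nat_lit 0x80202480000000000000000000000000000000000000000000000,nat_lit 0x400000000000000000000000000000000000,
    nat_lit 0x400000000000000000000000000000000000,nat_lit 0x400000000000000000000000000000000000],[nat_lit 0,
    nat_lit 0,nat_lit 0,nat_lit 0,nat_lit 0,nat_lit 0,nat_lit 0,nat_lit 0,
    nat_lit 0x800000000000000000000000000000000000]],[[nat_lit 0x800000000000000000000000000000000000,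
    nat_lit 0x800000000000000000000000000000000000,nat_lit 0x800000000000000000000000000000000000,
    nat_lit 0x1000000000000000000000000000000000000,nat_lit 0x1000000000000000000000000000000000000,
    nat_lit 0x1000000000000000000000000000000000000,nat_lit 0x1000000000000000000000000000000000000,
    nat_lit 0x1000000000000000000000000000000000000,nat_lit 0],[nat_lit 0,nat_lit 0,
    nat_lit 0x2000000000000000000000000000000000000,nat_lit 0x2000000000000000000000000000000000000,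
    nat_lit 0x2000000000000000000000000000000000000,nat_lit 0x2000000000000000000000000000000000000,nat_lit 0,
    nat_lit 0,nat_lit 0],[nat_lit 0,nat_lit 0,nat_lit 0,
    nat_lit 0x28000000000000000000000000000000000000000000000000000000000000,
    nat_lit 0x28000000000000000000000000000000000000000000000000000000000000,
    nat_lit 0x28000000000000000000000000000000000000000000000000000000000000,nat_lit 0,nat_lit 0,
    nat_lit 0x1000000000000000000000000000000000000000000000000000000000000],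
    [nat_lit 0x1000000000000000000000000000000000000000000000000000000000000,
    nat_lit 0x1000000000000000000000000000000000000000000000000000000000000,
    nat_lit 0x80000000000000000000000000000000000000000000000000000000000,
    nat_lit 0x80000000000000000000000000000000000000000000000000000000000,
    nat_lit 0x80000000000000000000000000000000000000000000000000000000000,
    nat_lit 0x80000000000000000000000000000000000000000000000000000000000,
    nat_lit 0x80000000000000000000000000000000000000000000000000000000000,nat_lit 0,nat_lit 0],[nat_lit 0,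
    nat_lit 0x100000000000000000000000000000000000000000000000000000000000,
    nat_lit 0x100000000000000000000000000000000000000000000000000000000000,
    nat_lit 0x100000000000000000000000000000000000000000000000000000000000,
    nat_lit 0x100000000000000000000000000000000000000000000000000000000000,
    nat_lit 0x100000000000000000000000000000000000000000000000000000000000,
    nat_lit 0x48000000000000000000000000000000000000000000000000000000000,
    nat_lit 0x800000000000000000000000000000000000000000000000000000000000,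
    nat_lit 0x14030000000000000000000000000000000000000000000000000000000000],
    [nat_lit 0x14030000000000000000000000000000000000000000000000000000000000,
    nat_lit 0x14030000000000000000000000000000000000000000000000000000000000,nat_lit 0,nat_lit 0,nat_lit 0,nat_lit 0,
    nat_lit 0,nat_lit 0x600000000000000000000000000000000000000000000000000000000000,
    nat_lit 0x600000000000000000000000000000000000000000000000000000000000],
    [nat_lit 0x31000000000000000000000000000000000000000000,nat_lit 0x1200444000000000000000000000000000000000000000,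
    nat_lit 0x4800800280000000000000000000000000000000000000,nat_lit 0x80000000000000000000000000000000000000000000,
    nat_lit 0,nat_lit 0x90000000000000000000000000000000000000000,nat_lit 0x90000000000000000000000000000000000000000,
    nat_lit 0x100000000000000000000000000000000000000000000,nat_lit 0x100000000000000000000000000000000000000000000],
    [nat_lit 0x20840000000000000000000000000000000000000,nat_lit 0x20840000000000000000000000000000000000000,
    nat_lit 0x8002400000000000000000000000000000000000000,nat_lit 0x8002400000000000000000000000000000000000000,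
    nat_lit 0x8002400000000000000000000000000000000000000,nat_lit 0x8002400000000000000000000000000000000000000,
    nat_lit 0x805000000000000000000000000000000000000000000000000000000000000000000,nat_lit 0,nat_lit 0],[nat_lit 0,
    nat_lit 0x18140000000000000000000000000000000000000000000000000000000000000000000,
    nat_lit 0x400000000000000000000000000000000000000000000000000000000000000000000,
    nat_lit 0x12000000000000000000000000000000000000000000000000000000000000000000,nat_lit 0,nat_lit 0,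
    nat_lit 0x2020000000000000000000000000000000000000000000000000000000000000000000,
    nat_lit 0x2020000000000000000000000000000000000000000000000000000000000000000000,nat_lit 0]],[[nat_lit 0,
    nat_lit 0,nat_lit 0,nat_lit 0,nat_lit 0,nat_lit 0,
    nat_lit 0x100000000000000000000000000000000000000000000000000000000,
    nat_lit 0x100000000000000000000000000000000000000000000000000000000,
    nat_lit 0x100000000000000000000000000000000000000000000000000000000],
    [nat_lit 0x2000000000000000000000000000000000000000000000000000000,nat_lit 0,nat_lit 0,nat_lit 0,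
    nat_lit 0x4000000000000000000000000000000000000000000000000000000,
    nat_lit 0x4000000000000000000000000000000000000000000000000000000,
    nat_lit 0x4000000000000000000000000000000000000000000000000000000,
    nat_lit 0x4000000000000000000000000000000000000000000000000000000,
    nat_lit 0x11000000000000000000000000000000000000000000000000000000],
    [nat_lit 0x11000000000000000000000000000000000000000000000000000000,
    nat_lit 0x40000000000000000000000000000000000000000000000000000000,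
    nat_lit 0x40000000000000000000000000000000000000000000000000000000,
    nat_lit 0x80000000000000000000000000000000000000000000000000000000000000000000000000000000000000,
    nat_lit 0x80000000000000000000000000000000000000000000000000000000000000000000000000000000000000,
    nat_lit 0x50002000000000000000000000000000000000000000000000000000000000000000000000000000000000,
    nat_lit 0x50002000000000000000000000000000000000000000000000000000000000000000000000000000000000,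
    nat_lit 0x50002000000000000000000000000000000000000000000000000000000000000000000000000000000000,
    nat_lit 0x50002000000000000000000000000000000000000000000000000000000000000000000000000000000000],
    [nat_lit 0x1000100000000000000000000000000000000000000000000000000000000000000000000000000000000,
    nat_lit 0x1000100000000000000000000000000000000000000000000000000000000000000000000000000000000,
    nat_lit 0x8800000000000000000000000000000000000000000000000000000000000000000000000000000000,nat_lit 0,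
    nat_lit 0x9068000d0000000000000000000000000000000000000000000000000000000000000000000000000000000,
    nat_lit 0x1200200020000000000000000000000000000000000000000000000000000000000000000000000000000000,
    nat_lit 0x1200200020000000000000000000000000000000000000000000000000000000000000000000000000000000,
    nat_lit 0x1200200020000000000000000000000000000000000000000000000000000000000000000000000000000000,nat_lit 0],
    [nat_lit 0,nat_lit 0x120000000000000000000000000000000000000000000000000000000000000000000000000000000000,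
    nat_lit 0x120000000000000000000000000000000000000000000000000000000000000000000000000000000000,
    nat_lit 0x10000000000000000000000000000000000000000000000000000000000000000,
    nat_lit 0x10000000000000000000000000000000000000000000000000000000000000000,nat_lit 0,nat_lit 0,
    nat_lit 0x1000000000000000000000000000000000000000000000000000000000000000,
    nat_lit 0x1000000000000000000000000000000000000000000000000000000000000000],
    [nat_lit 0x1000000000000000000000000000000000000000000000000000000000000000,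
    nat_lit 0x1000000000000000000000000000000000000000000000000000000000000000,
    nat_lit 0x1000000000000000000000000000000000000000000000000000000000000000,
    nat_lit 0x1000000000000000000000000000000000000000000000000000000000000000,
    nat_lit 0x1000000000000000000000000000000000000000000000000000000000000000,
    nat_lit 0x1000000000000000000000000000000000000000000000000000000000000000,
    nat_lit 0x800400000000000000000000000000000000000000000000000000000000000000,nat_lit 0,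
    nat_lit 0x24000000000000000000000000000000000000000000000000000000000000000],
    [nat_lit 0x24000000000000000000000000000000000000000000000000000000000000000,
    nat_lit 0x48000000000000000000000000000000000000000000000000000000000000000,
    nat_lit 0x48000000000000000000000000000000000000000000000000000000000000000,nat_lit 0,nat_lit 0,nat_lit 0,
    nat_lit 0,nat_lit 0,nat_lit 0x200900000000000000000000000000000000000000000000000000000000000000],
    [nat_lit 0x200900000000000000000000000000000000000000000000000000000000000000,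
    nat_lit 0x200900000000000000000000000000000000000000000000000000000000000000,
    nat_lit 0x200900000000000000000000000000000000000000000000000000000000000000,
    nat_lit 0x500240000000000000000000000000000000000000000000000000000000000000,
    nat_lit 0x500240000000000000000000000000000000000000000000000000000000000000,
    nat_lit 0x500240000000000000000000000000000000000000000000000000000000000000,nat_lit 0,nat_lit 0,nat_lit 0],
    [nat_lit 0,nat_lit 0x800000000,nat_lit 0x800000000,nat_lit 0x800000000,nat_lit 0x200080000000,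
    nat_lit 0x200080000000,nat_lit 0x2004000000000000,nat_lit 0xc01850000000000,nat_lit 0xc01850000000000]],
    [[nat_lit 0xc01850000000000,nat_lit 0xc01850000000000,nat_lit 0,nat_lit 0,nat_lit 0,nat_lit 0,
    nat_lit 0x80000000000000,nat_lit 0x80000000000000,nat_lit 0x80000000000000],[nat_lit 0,nat_lit 0,nat_lit 0,
    nat_lit 0,nat_lit 0,nat_lit 0,nat_lit 0,nat_lit 0,nat_lit 0x1008080000000000],[nat_lit 0x1008080000000000,
    nat_lit 0x200428300000000,nat_lit 0x200428300000000,nat_lit 0x200428300000000,nat_lit 0x200428300000000,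
    nat_lit 0x60006000000000,nat_lit 0x60006000000000,nat_lit 0x60006000000000]]]
    [[[[nat_lit 0x1200000000000000000000000000000000000000000000000000000000000000000000000000000,
    nat_lit 0x1200000000000000000000000000000000000000000000000000000000000000000000000000000,
    nat_lit 0x1200000000000000000000000000000000000000000000000000000000000000000000000000000,nat_lit 0,nat_lit 0,
    nat_lit 0x1200000000000000000000000000000000000000000000000000000000000000000000000000000,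
    nat_lit 0x10060000000000000000000000000000000000000000000000000000000000000000000000000,
    nat_lit 0x10060000000000000000000000000000000000000000000000000000000000000000000000000,
    nat_lit 0x10040000000000000000000000000000000000000000000000000000000000000000000000000],
    [nat_lit 0x10020000000000000000000000000000000000000000000000000000000000000000000000000,nat_lit 0,
    nat_lit 0x10040000000000000000000000000000000000000000000000000000000000000000000000000,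
    nat_lit 0x1000100000000000000000000000000000000000000000000000000000000000000000000000,
    nat_lit 0x20001800000000000000000000000000000000000000000000000000000000000000000000000,
    nat_lit 0x2000000000000000000000000000000000000000000000000000000000000000000000000000000,nat_lit 0,nat_lit 0,
    nat_lit 0],[nat_lit 0,nat_lit 0,nat_lit 0,nat_lit 0,nat_lit 0,nat_lit 0,
    nat_lit 0x8010000000000000000000000000000000000000000000000000000000000000000000000000,
    nat_lit 0x8010000000000000000000000000000000000000000000000000000000000000000000000000,nat_lit 0],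
    [nat_lit 0x400000000000000000000000000000000000000000000000000000000000000000000000,
    nat_lit 0x400000000000000000000000000000000000000000000000000000000000000000000000,nat_lit 0,nat_lit 0,
    nat_lit 0x200040000000000000000000000,nat_lit 0x200000000000000000000000000,nat_lit 0,nat_lit 0,
    nat_lit 0x200040000000000000000000000],[nat_lit 0x200040000000000000000000000,nat_lit 0,nat_lit 0,
    nat_lit 0x18400000000000000000000000,nat_lit 0x18400000000000000000000000,nat_lit 0,nat_lit 0,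
    nat_lit 0x4000000000000000000000,nat_lit 0x4000000000000000000000],[nat_lit 0x4000000000000000000000,nat_lit 0,
    nat_lit 0,nat_lit 0,nat_lit 0,nat_lit 0,nat_lit 0,nat_lit 0,nat_lit 0x83000000000000000000000],
    [nat_lit 0x80200000000000000000000000,nat_lit 0x100000000000000000000000000,nat_lit 0x100000000000000000000000000,
    nat_lit 0x4000000000000000000000000,nat_lit 0x4000000000000000000000000,nat_lit 0x4000000000000000000000000,
    nat_lit 0x20000000000000000000000,nat_lit 0,nat_lit 0x820],[nat_lit 0x820,nat_lit 0x820,nat_lit 276,nat_lit 0,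
    nat_lit 0x50010000,nat_lit 0x2000000,nat_lit 0,nat_lit 0x2000000,nat_lit 0],[nat_lit 0,nat_lit 0,nat_lit 0,
    nat_lit 0x20000,nat_lit 0x4000000,nat_lit 0x4000000,nat_lit 0x4000000,nat_lit 0x8202000,nat_lit 0]],
    [[nat_lit 0x8202400,nat_lit 0,nat_lit 0x101000,nat_lit 0,nat_lit 0x4000000000000000000000000000000000,
    nat_lit 0x80800000000000000000000000000000000,nat_lit 0,nat_lit 0,nat_lit 0],[nat_lit 0,nat_lit 0,nat_lit 0,
    nat_lit 0x80000000000000000000000000000000,nat_lit 0,nat_lit 0,nat_lit 0,nat_lit 0,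
    nat_lit 0x10000000000000000000000000000000000],[nat_lit 0x10000000000000000000000000000000000,
    nat_lit 0x10000000000000000000000000000000000,nat_lit 0,nat_lit 0,nat_lit 0,
    nat_lit 0x10000000000000000000000000000000000,nat_lit 0x10000000000000000000000000000000000,nat_lit 0,nat_lit 0],
    [nat_lit 0,nat_lit 0,nat_lit 0,nat_lit 0,nat_lit 0,nat_lit 0,nat_lit 0x80000000000000000,nat_lit 0,
    nat_lit 0x80000000000000000],[nat_lit 0xa0002c000000000000000,nat_lit 0,nat_lit 0,nat_lit 0x10000000000000000000,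
    nat_lit 0,nat_lit 0x400000000000000000,nat_lit 0,nat_lit 0x4000000000000000000000000000000000000,
    nat_lit 0x4000000000000000000000000000000000000],[nat_lit 0x4000000000000000000000000000000000000,nat_lit 0,
    nat_lit 0,nat_lit 0,nat_lit 0,nat_lit 0x10000000000000000000000000000000000000,nat_lit 0,nat_lit 0,nat_lit 0],
    [nat_lit 0,nat_lit 0x20000000000000000000000000000000000000,nat_lit 0,nat_lit 0,nat_lit 0,nat_lit 0,nat_lit 0,
    nat_lit 0,nat_lit 0x5400000000000000000000000000],[nat_lit 0x200000000000000000000000000000,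
    nat_lit 0x40000000000000000000000000000,nat_lit 0x400010000000000000000000000000000000000000000000000,nat_lit 0,
    nat_lit 0x1000140000000000000000000000000000000000000000000000,
    nat_lit 0x202000000000000000000000000000000000000000000000000,nat_lit 0,nat_lit 0,nat_lit 0],[nat_lit 0,nat_lit 0,
    nat_lit 0,nat_lit 0,nat_lit 0,nat_lit 0,nat_lit 0,nat_lit 0,nat_lit 0x800000000000000000000000000000000000]],
    [[nat_lit 0x800000000000000000000000000000000000,nat_lit 0,nat_lit 0,nat_lit 0,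
    nat_lit 0x1000000000000000000000000000000000000,nat_lit 0x1000000000000000000000000000000000000,nat_lit 0,
    nat_lit 0,nat_lit 0],[nat_lit 0,nat_lit 0,nat_lit 0x2000000000000000000000000000000000000,
    nat_lit 0x2000000000000000000000000000000000000,nat_lit 0,nat_lit 0x2000000000000000000000000000000000000,
    nat_lit 0,nat_lit 0,nat_lit 0],[nat_lit 0,nat_lit 0,nat_lit 0,
    nat_lit 0x20000000000000000000000000000000000000000000000000000000000000,nat_lit 0,nat_lit 0,nat_lit 0,nat_lit 0,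
    nat_lit 0x1000000000000000000000000000000000000000000000000000000000000],[nat_lit 0,
    nat_lit 0x1000000000000000000000000000000000000000000000000000000000000,nat_lit 0,
    nat_lit 0x80000000000000000000000000000000000000000000000000000000000,
    nat_lit 0x80000000000000000000000000000000000000000000000000000000000,
    nat_lit 0x80000000000000000000000000000000000000000000000000000000000,
    nat_lit 0x80000000000000000000000000000000000000000000000000000000000,nat_lit 0,nat_lit 0],[nat_lit 0,nat_lit 0,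
    nat_lit 0x100000000000000000000000000000000000000000000000000000000000,
    nat_lit 0x100000000000000000000000000000000000000000000000000000000000,
    nat_lit 0x100000000000000000000000000000000000000000000000000000000000,nat_lit 0,
    nat_lit 0x40000000000000000000000000000000000000000000000000000000000,nat_lit 0,nat_lit 0],
    [nat_lit 0x14000000000000000000000000000000000000000000000000000000000000,
    nat_lit 0x14010000000000000000000000000000000000000000000000000000000000,nat_lit 0,nat_lit 0,nat_lit 0,nat_lit 0,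
    nat_lit 0,nat_lit 0,nat_lit 0x200000000000000000000000000000000000000000000000000000000000],
    [nat_lit 0x21000000000000000000000000000000000000000000,nat_lit 0x200440000000000000000000000000000000000000000,
    nat_lit 0x4800800080000000000000000000000000000000000000,nat_lit 0,nat_lit 0,nat_lit 0,
    nat_lit 0x10000000000000000000000000000000000000000,nat_lit 0x100000000000000000000000000000000000000000000,
    nat_lit 0],[nat_lit 0x40000000000000000000000000000000000000,nat_lit 0,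
    nat_lit 0x8000000000000000000000000000000000000000000,nat_lit 0,
    nat_lit 0x8000400000000000000000000000000000000000000,nat_lit 0x8000400000000000000000000000000000000000000,
    nat_lit 0x1000000000000000000000000000000000000000000000000000000000000000000,nat_lit 0,nat_lit 0],[nat_lit 0,
    nat_lit 0x10040000000000000000000000000000000000000000000000000000000000000000000,
    nat_lit 0x400000000000000000000000000000000000000000000000000000000000000000000,
    nat_lit 0x10000000000000000000000000000000000000000000000000000000000000000000,nat_lit 0,nat_lit 0,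
    nat_lit 0x20000000000000000000000000000000000000000000000000000000000000000000,
    nat_lit 0x20000000000000000000000000000000000000000000000000000000000000000000,nat_lit 0]],[[nat_lit 0,nat_lit 0,
    nat_lit 0,nat_lit 0,nat_lit 0,nat_lit 0,nat_lit 0,
    nat_lit 0x100000000000000000000000000000000000000000000000000000000,nat_lit 0],
    [nat_lit 0x2000000000000000000000000000000000000000000000000000000,nat_lit 0,nat_lit 0,nat_lit 0,nat_lit 0,
    nat_lit 0x4000000000000000000000000000000000000000000000000000000,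
    nat_lit 0x4000000000000000000000000000000000000000000000000000000,nat_lit 0,
    nat_lit 0x11000000000000000000000000000000000000000000000000000000],[nat_lit 0,
    nat_lit 0x40000000000000000000000000000000000000000000000000000000,nat_lit 0,
    nat_lit 0x80000000000000000000000000000000000000000000000000000000000000000000000000000000000000,nat_lit 0,
    nat_lit 0,nat_lit 0x10002000000000000000000000000000000000000000000000000000000000000000000000000000000000,
    nat_lit 0x10002000000000000000000000000000000000000000000000000000000000000000000000000000000000,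
    nat_lit 0x10002000000000000000000000000000000000000000000000000000000000000000000000000000000000],
    [nat_lit 0x1000100000000000000000000000000000000000000000000000000000000000000000000000000000000,nat_lit 0,
    nat_lit 0,nat_lit 0,
    nat_lit 0x9040000d0000000000000000000000000000000000000000000000000000000000000000000000000000000,nat_lit 0,
    nat_lit 0,nat_lit 0,nat_lit 0],[nat_lit 0,
    nat_lit 0x20000000000000000000000000000000000000000000000000000000000000000000000000000000000,nat_lit 0,nat_lit 0,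
    nat_lit 0,nat_lit 0,nat_lit 0,nat_lit 0x1000000000000000000000000000000000000000000000000000000000000000,
    nat_lit 0x1000000000000000000000000000000000000000000000000000000000000000],
    [nat_lit 0x1000000000000000000000000000000000000000000000000000000000000000,
    nat_lit 0x1000000000000000000000000000000000000000000000000000000000000000,nat_lit 0,nat_lit 0,
    nat_lit 0x1000000000000000000000000000000000000000000000000000000000000000,
    nat_lit 0x1000000000000000000000000000000000000000000000000000000000000000,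
    nat_lit 0x400000000000000000000000000000000000000000000000000000000000000,nat_lit 0,
    nat_lit 0x20000000000000000000000000000000000000000000000000000000000000000],
    [nat_lit 0x20000000000000000000000000000000000000000000000000000000000000000,nat_lit 0,
    nat_lit 0x40000000000000000000000000000000000000000000000000000000000000000,nat_lit 0,nat_lit 0,nat_lit 0,
    nat_lit 0,nat_lit 0,nat_lit 0],[nat_lit 0,nat_lit 0,nat_lit 0,
    nat_lit 0x500040000000000000000000000000000000000000000000000000000000000000,nat_lit 0,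
    nat_lit 0x500040000000000000000000000000000000000000000000000000000000000000,nat_lit 0,nat_lit 0,nat_lit 0],
    [nat_lit 0,nat_lit 0x800000000,nat_lit 0x800000000,nat_lit 0x800000000,nat_lit 0x200080000000,nat_lit 0,
    nat_lit 0x4000000000000,nat_lit 0,nat_lit 0]],[[nat_lit 0x400850000000000,nat_lit 0x400850000000000,nat_lit 0,
    nat_lit 0,nat_lit 0,nat_lit 0,nat_lit 0x80000000000000,nat_lit 0x80000000000000,nat_lit 0],[nat_lit 0,nat_lit 0,
    nat_lit 0,nat_lit 0,nat_lit 0,nat_lit 0,nat_lit 0,nat_lit 0,nat_lit 0],[nat_lit 0,nat_lit 0x200428000000000,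
    nat_lit 0x420200000000,nat_lit 0,nat_lit 0x200428200000000,nat_lit 0x40002000000000,nat_lit 0,
    nat_lit 0x40002000000000]]],
    [[[nat_lit 0x200000000000000000000000000000000000000000000000000000000000000000000000000000,nat_lit 0,
    nat_lit 0x200000000000000000000000000000000000000000000000000000000000000000000000000000,nat_lit 0,nat_lit 0,
    nat_lit 0x200000000000000000000000000000000000000000000000000000000000000000000000000000,
    nat_lit 0x40000000000000000000000000000000000000000000000000000000000000000000000000,nat_lit 0,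
    nat_lit 0x40000000000000000000000000000000000000000000000000000000000000000000000000],[nat_lit 0,nat_lit 0,
    nat_lit 0x40000000000000000000000000000000000000000000000000000000000000000000000000,nat_lit 0,nat_lit 0,
    nat_lit 0,nat_lit 0,nat_lit 0,nat_lit 0],[nat_lit 0,nat_lit 0,nat_lit 0,nat_lit 0,nat_lit 0,nat_lit 0,nat_lit 0,
    nat_lit 0,nat_lit 0],[nat_lit 0x400000000000000000000000000000000000000000000000000000000000000000000000,
    nat_lit 0x400000000000000000000000000000000000000000000000000000000000000000000000,nat_lit 0,nat_lit 0,nat_lit 0,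
    nat_lit 0,nat_lit 0,nat_lit 0,nat_lit 0],[nat_lit 0,nat_lit 0,nat_lit 0,nat_lit 0,nat_lit 0,nat_lit 0,nat_lit 0,
    nat_lit 0,nat_lit 0],[nat_lit 0x4000000000000000000000,nat_lit 0,nat_lit 0,nat_lit 0,nat_lit 0,nat_lit 0,
    nat_lit 0,nat_lit 0,nat_lit 0],[nat_lit 0,nat_lit 0,nat_lit 0,nat_lit 0x4000000000000000000000000,
    nat_lit 0x4000000000000000000000000,nat_lit 0,nat_lit 0,nat_lit 0,nat_lit 0],[nat_lit 0,nat_lit 0,nat_lit 260,
    nat_lit 0,nat_lit 0x10000000,nat_lit 0,nat_lit 0,nat_lit 0,nat_lit 0],[nat_lit 0,nat_lit 0,nat_lit 0,nat_lit 0,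
    nat_lit 0,nat_lit 0,nat_lit 0,nat_lit 0,nat_lit 0]],[[nat_lit 0,nat_lit 0,nat_lit 0,nat_lit 0,nat_lit 0,nat_lit 0,
    nat_lit 0,nat_lit 0,nat_lit 0],[nat_lit 0,nat_lit 0,nat_lit 0,nat_lit 0,nat_lit 0,nat_lit 0,nat_lit 0,nat_lit 0,
    nat_lit 0x10000000000000000000000000000000000],[nat_lit 0x10000000000000000000000000000000000,
    nat_lit 0x10000000000000000000000000000000000,nat_lit 0,nat_lit 0,nat_lit 0,nat_lit 0,nat_lit 0,nat_lit 0,
    nat_lit 0],[nat_lit 0,nat_lit 0,nat_lit 0,nat_lit 0,nat_lit 0,nat_lit 0,nat_lit 0,nat_lit 0,nat_lit 0],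
    [nat_lit 0x2c000000000000000,nat_lit 0,nat_lit 0,nat_lit 0,nat_lit 0,nat_lit 0,nat_lit 0,
    nat_lit 0x4000000000000000000000000000000000000,nat_lit 0],[nat_lit 0,nat_lit 0,nat_lit 0,nat_lit 0,nat_lit 0,
    nat_lit 0,nat_lit 0,nat_lit 0,nat_lit 0],[nat_lit 0,nat_lit 0x20000000000000000000000000000000000000,nat_lit 0,
    nat_lit 0,nat_lit 0,nat_lit 0,nat_lit 0,nat_lit 0,nat_lit 0x1000000000000000000000000000],
    [nat_lit 0x200000000000000000000000000000,nat_lit 0,nat_lit 0,nat_lit 0,nat_lit 0,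
    nat_lit 0x2000000000000000000000000000000000000000000000000,nat_lit 0,nat_lit 0,nat_lit 0],[nat_lit 0,nat_lit 0,
    nat_lit 0,nat_lit 0,nat_lit 0,nat_lit 0,nat_lit 0,nat_lit 0,nat_lit 0]],[[nat_lit 0,nat_lit 0,nat_lit 0,nat_lit 0,
    nat_lit 0,nat_lit 0x1000000000000000000000000000000000000,nat_lit 0,nat_lit 0,nat_lit 0],[nat_lit 0,nat_lit 0,
    nat_lit 0,nat_lit 0,nat_lit 0,nat_lit 0,nat_lit 0,nat_lit 0,nat_lit 0],[nat_lit 0,nat_lit 0,nat_lit 0,nat_lit 0,
    nat_lit 0,nat_lit 0,nat_lit 0,nat_lit 0,nat_lit 0],[nat_lit 0,nat_lit 0,nat_lit 0,nat_lit 0,nat_lit 0,nat_lit 0,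
    nat_lit 0,nat_lit 0,nat_lit 0],[nat_lit 0,nat_lit 0,
    nat_lit 0x100000000000000000000000000000000000000000000000000000000000,nat_lit 0,
    nat_lit 0x100000000000000000000000000000000000000000000000000000000000,nat_lit 0,nat_lit 0,nat_lit 0,nat_lit 0],
    [nat_lit 0,nat_lit 0,nat_lit 0,nat_lit 0,nat_lit 0,nat_lit 0,nat_lit 0,nat_lit 0,nat_lit 0],[nat_lit 0,
    nat_lit 0x200040000000000000000000000000000000000000000,nat_lit 0,nat_lit 0,nat_lit 0,nat_lit 0,nat_lit 0,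
    nat_lit 0,nat_lit 0],[nat_lit 0,nat_lit 0,nat_lit 0,nat_lit 0,nat_lit 0,nat_lit 0,nat_lit 0,nat_lit 0,nat_lit 0],
    [nat_lit 0,nat_lit 0,nat_lit 0x400000000000000000000000000000000000000000000000000000000000000000000,nat_lit 0,
    nat_lit 0,nat_lit 0,nat_lit 0,nat_lit 0,nat_lit 0]],[[nat_lit 0,nat_lit 0,nat_lit 0,nat_lit 0,nat_lit 0,nat_lit 0,
    nat_lit 0,nat_lit 0,nat_lit 0],[nat_lit 0x2000000000000000000000000000000000000000000000000000000,nat_lit 0,
    nat_lit 0,nat_lit 0,nat_lit 0,nat_lit 0,nat_lit 0,nat_lit 0,nat_lit 0],[nat_lit 0,nat_lit 0,nat_lit 0,nat_lit 0,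
    nat_lit 0,nat_lit 0,nat_lit 0,nat_lit 0,nat_lit 0],[nat_lit 0,nat_lit 0,nat_lit 0,nat_lit 0,
    nat_lit 0x804000000000000000000000000000000000000000000000000000000000000000000000000000000000000,nat_lit 0,
    nat_lit 0,nat_lit 0,nat_lit 0],[nat_lit 0,nat_lit 0,nat_lit 0,nat_lit 0,nat_lit 0,nat_lit 0,nat_lit 0,nat_lit 0,
    nat_lit 0],[nat_lit 0,nat_lit 0x1000000000000000000000000000000000000000000000000000000000000000,nat_lit 0,
    nat_lit 0,nat_lit 0x1000000000000000000000000000000000000000000000000000000000000000,nat_lit 0,nat_lit 0,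
    nat_lit 0,nat_lit 0],[nat_lit 0,nat_lit 0,nat_lit 0,nat_lit 0,nat_lit 0,nat_lit 0,nat_lit 0,nat_lit 0,nat_lit 0],
    [nat_lit 0,nat_lit 0,nat_lit 0,nat_lit 0,nat_lit 0,nat_lit 0,nat_lit 0,nat_lit 0,nat_lit 0],[nat_lit 0,nat_lit 0,
    nat_lit 0,nat_lit 0,nat_lit 0x200080000000,nat_lit 0,nat_lit 0,nat_lit 0,nat_lit 0]],[[nat_lit 0,
    nat_lit 0x400810000000000,nat_lit 0,nat_lit 0,nat_lit 0,nat_lit 0,nat_lit 0,nat_lit 0,nat_lit 0],[nat_lit 0,
    nat_lit 0,nat_lit 0,nat_lit 0,nat_lit 0,nat_lit 0,nat_lit 0,nat_lit 0,nat_lit 0],[nat_lit 0,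
    nat_lit 0x200408000000000,nat_lit 0,nat_lit 0,nat_lit 0,nat_lit 0,nat_lit 0,nat_lit 0]]]]
    (nat_lit 2) (nat_lit 1) (nat_lit 81)
    [[nat_lit 2,nat_lit 3,nat_lit 4,nat_lit 258,nat_lit 0x10002,nat_lit 514,nat_lit 17,nat_lit 0x10000011,
    nat_lit 0x10000111,nat_lit 0x10100011,nat_lit 0x11000011,nat_lit 257,nat_lit 0x10101,nat_lit 0x10001001,
    nat_lit 0x10001,nat_lit 0x20001,nat_lit 0x100001,nat_lit 0x100101,nat_lit 0x1000001,nat_lit 0x1000101,
    nat_lit 0x11000001,nat_lit 0x10000001],[nat_lit 32,nat_lit 0x10000120,nat_lit 0x10100020,nat_lit 0x11000020,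
    nat_lit 0x1000020,nat_lit 0x10000020,nat_lit 272,nat_lit 528,nat_lit 0x10000210,nat_lit 0x10001110,
    nat_lit 0x10010110,nat_lit 0x10110,nat_lit 0x100110,nat_lit 0x10100110,nat_lit 0x1000110,nat_lit 0x11000110,
    nat_lit 0x10000110,nat_lit 0x20000110,nat_lit 0x10001010,nat_lit 0x10010,nat_lit 0x10110010,nat_lit 0x11010010,
    nat_lit 0x10010010,nat_lit 0x100010,nat_lit 0x200010,nat_lit 0x11200010,nat_lit 0x10200010,nat_lit 0x1100010,
    nat_lit 0x12100010,nat_lit 0x11100010,nat_lit 0x10100010,nat_lit 0x20100010,nat_lit 0x1000010,nat_lit 0x11001010,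
    nat_lit 0x2000010,nat_lit 0x12000010,nat_lit 0x11000010,nat_lit 0x21000010,nat_lit 0x13000010,nat_lit 0x10000010],
    [nat_lit 512,nat_lit 0x10200,nat_lit 0x10000200,nat_lit 0x1100,nat_lit 0x10001100,nat_lit 0x10100,nat_lit 0x20100,
    nat_lit 0x1010100,nat_lit 0x100100,nat_lit 0x110100,nat_lit 0x1100100,nat_lit 0x10100100,nat_lit 0x2000100,
    nat_lit 0x11000100,nat_lit 0x10000100,nat_lit 0x20000100],[nat_lit 0x2000,nat_lit 0x11000,nat_lit 0x21000,
    nat_lit 0x1011000,nat_lit 0x1101000,nat_lit 0x1001000,nat_lit 0x2001000,nat_lit 0x11001000,nat_lit 0x10001000,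
    nat_lit 0x10011000,nat_lit 0x10101000,nat_lit 0x11101000,nat_lit 0x12001000,nat_lit 0x20001000],[nat_lit 0x20000,
    nat_lit 0x30000,nat_lit 0x40000,nat_lit 0x1030000,nat_lit 0x1020000,nat_lit 0x110000,nat_lit 0x1010000,
    nat_lit 0x2010000,nat_lit 0x11010000,nat_lit 0x10010000],[nat_lit 0x200000,nat_lit 0x300000,nat_lit 0x1200000,
    nat_lit 0x1300000,nat_lit 0x10200000,nat_lit 0x1100000,nat_lit 0x2100000,nat_lit 0x2200000,nat_lit 0x12100000,
    nat_lit 0x11100000,nat_lit 0x3100000,nat_lit 0x10100000],[nat_lit 0x2000000,nat_lit 0x3000000,nat_lit 0x4000000,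
    nat_lit 0x12000000,nat_lit 0x13000000,nat_lit 0x11000000,nat_lit 0x21000000],[nat_lit 0x20000000]]
    [.c (nat_lit 1) (nat_lit 2),.c (nat_lit 0) (nat_lit 0x18c009),.c (nat_lit 8) (nat_lit 0x5002),
    .c (nat_lit 0) (nat_lit 0x80000006005),.c (nat_lit 0) (nat_lit 0x100188009),
    .c (nat_lit 8) (nat_lit 0x80000002003),.c (nat_lit 0) (nat_lit 0x84003),.c (nat_lit 0) (nat_lit 0x82003),
    .c (nat_lit 8) (nat_lit 0x80000102005),.r (nat_lit 0xdbb) (nat_lit 8) [nat_lit 0x3003140004142,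
    nat_lit 0x82000001],.c (nat_lit 0) (nat_lit 0x84084004144),.c (nat_lit 0) (nat_lit 0x80000006005),
    .c (nat_lit 0) (nat_lit 0x80080004005),.r (nat_lit 0xdb2) (nat_lit 5) [nat_lit 0x2000104080142,
    nat_lit 0x30001450c4002],.c (nat_lit 1) (nat_lit 0xc0002004),.c (nat_lit 0) (nat_lit 0x200184009),
    .c (nat_lit 0) (nat_lit 0x2000004003),.c (nat_lit 3) (nat_lit 0x85000003004),
    .c (nat_lit 8) (nat_lit 0x84084100144),.c (nat_lit 0) (nat_lit 0x4084102144),
    .c (nat_lit 3) (nat_lit 0x850c5140105),.c (nat_lit 0) (nat_lit 0x184009),.c (nat_lit 2) (nat_lit 2),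
    .r (nat_lit 0xcd6) (nat_lit 11) [nat_lit 0x12000001,nat_lit 0xd95394d4e4341,nat_lit 0x900900000001,
    nat_lit 0x2012008000141,nat_lit 0xc000019000301],.r (nat_lit 0xdbb) (nat_lit 8) [nat_lit 0x30c31400c40c2,
    nat_lit 0x82000001],.c (nat_lit 0) (nat_lit 0x1081080c4248),
    .r (nat_lit 0xdbb) (nat_lit 8) [nat_lit 0x31431400c40c1,nat_lit 0x82000001],
    .c (nat_lit 3) (nat_lit 0x80000140002),.r (nat_lit 0xdb2) (nat_lit 5) [nat_lit 129,nat_lit 0x30001450c4002],
    .r (nat_lit 0xdbb) (nat_lit 8) [nat_lit 0x1431430c40c2,nat_lit 0x82000001],.c (nat_lit 8) (nat_lit 0x80000080003),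
    .c (nat_lit 0) (nat_lit 0x1400091c0008),.c (nat_lit 8) (nat_lit 0x80080100005),
    .c (nat_lit 3) (nat_lit 0x800c0140004),.r (nat_lit 986) (nat_lit 2) [nat_lit 0x31400c4142,nat_lit 0x3140005080102,
    nat_lit 0x2000001,nat_lit 0xc0003000081,nat_lit 0x80000001,nat_lit 0x2102004000142],
    .r (nat_lit 0xcd6) (nat_lit 11) [nat_lit 0x12000001,nat_lit 0xd6539594e4341,nat_lit 0x900900000001,
    nat_lit 0x2112004000141,nat_lit 0xc34000d000301],.c (nat_lit 8) (nat_lit 0x50c5003105),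
    .c (nat_lit 1) (nat_lit 0x50c5002105),.r (nat_lit 0xdbb) (nat_lit 8) [nat_lit 0x1431400c4142,nat_lit 0x82000001],
    .c (nat_lit 0) (nat_lit 0x1400000c0008),.c (nat_lit 0) (nat_lit 0x51c0004),.c (nat_lit 0) (nat_lit 0x100080009),
    .r (nat_lit 0xdbb) (nat_lit 8) [nat_lit 0x30001400c4142,nat_lit 0x82000001],
    .c (nat_lit 0) (nat_lit 0x840040c2144),.c (nat_lit 0) (nat_lit 0x100180009),.c (nat_lit 2) (nat_lit 0x3000080002),
    .c (nat_lit 3) (nat_lit 0x1050000c0002),.c (nat_lit 0) (nat_lit 0x109108384248),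
    .r (nat_lit 0xdbb) (nat_lit 8) [nat_lit 0x30031430c40c2,nat_lit 0x82000001],
    .r (nat_lit 0xdbb) (nat_lit 8) [nat_lit 0x30c31430c40c1,nat_lit 0x82000001],
    .c (nat_lit 0) (nat_lit 0x82084082142),.c (nat_lit 0) (nat_lit 0x100108184248),
    .c (nat_lit 3) (nat_lit 0x830000c0002),.c (nat_lit 8) (nat_lit 0x2000080003),
    .c (nat_lit 0) (nat_lit 0x1491490c5209),.c (nat_lit 0) (nat_lit 0x1081002c4248),
    .c (nat_lit 0) (nat_lit 0x108108084244),.c (nat_lit 0) (nat_lit 0x84084002142),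
    .c (nat_lit 0) (nat_lit 0x1081080c4248),.c (nat_lit 0) (nat_lit 0x1081081c4248),
    .c (nat_lit 0) (nat_lit 0x31831808c648),.c (nat_lit 0) (nat_lit 0x80005),.c (nat_lit 3) (nat_lit 2),
    .r (nat_lit 0xdbb) (nat_lit 8) [nat_lit 0x21401450c4142,nat_lit 0x82000001],
    .c (nat_lit 8) (nat_lit 0x80000000003),.c (nat_lit 0) (nat_lit 0x140007000006),
    .c (nat_lit 0) (nat_lit 0xc0003000002),.c (nat_lit 0) (nat_lit 0x8018000000d),
    .c (nat_lit 0) (nat_lit 0x80180000007),.c (nat_lit 0) (nat_lit 0xcc00c30634c),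
    .r (nat_lit 0xdb2) (nat_lit 5) [nat_lit 0xc0002000081,nat_lit 0x30001450c4002],
    .c (nat_lit 3) (nat_lit 0x850c0000004),.c (nat_lit 8) (nat_lit 0xc5143105),
    .r (nat_lit 0xdbb) (nat_lit 8) [nat_lit 0x31450c4142,nat_lit 0x82000001],.c (nat_lit 0) (nat_lit 0x4084102142),
    .c (nat_lit 0) (nat_lit 0x14c18c30634c),.c (nat_lit 0) (nat_lit 0x80000000007),
    .c (nat_lit 0) (nat_lit 0x140000000006),.c (nat_lit 4) (nat_lit 2),
    .r (nat_lit 0xdbb) (nat_lit 8) [nat_lit 0x31452450c4102,nat_lit 0x82000001],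
    .c (nat_lit 3) (nat_lit 0x80082000003),.c (nat_lit 2) (nat_lit 0xc5000103105),
    .c (nat_lit 0) (nat_lit 0x100106204248),.r (nat_lit 0xdb2) (nat_lit 5) [nat_lit 0x1430000c4142,
    nat_lit 0x30001450c4002],.r (nat_lit 0x7bd) (nat_lit 1) [nat_lit 0x5085149148141,nat_lit 0x54b5552d4002,
    nat_lit 0x2102084085081,nat_lit 0x3408210491202,nat_lit 0x5245142148141,nat_lit 0x4204388109101],
    .r (nat_lit 0xa48) (nat_lit 13) [nat_lit 0x5245349148101,nat_lit 0x2402484205101,nat_lit 0x31443450c4141,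
    nat_lit 0x41430050c4141,nat_lit 0x30c000001],.c (nat_lit 3) (nat_lit 0x80002000003),
    .r (nat_lit 0xdb2) (nat_lit 5) [nat_lit 0x2002104000142,nat_lit 0x30001450c4002],
    .c (nat_lit 0) (nat_lit 0x5003000004),.c (nat_lit 0) (nat_lit 0x10010a204248),
    .r (nat_lit 987) (nat_lit 1) [nat_lit 0x30830c50c40c1,nat_lit 0x34734d1cc002,nat_lit 0x2102084085082,
    nat_lit 0x3204108289102,nat_lit 0x31430c20c40c1,nat_lit 0x2102204085081],.c (nat_lit 2) (nat_lit 0x2100003),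
    .c (nat_lit 5) (nat_lit 2),.c (nat_lit 0) (nat_lit 0x300180009),.c (nat_lit 8) (nat_lit 0x140000002),
    .c (nat_lit 3) (nat_lit 0x85105143105),.r (nat_lit 0xdbb) (nat_lit 8) [nat_lit 0x3000000081,nat_lit 0x82000001],
    .c (nat_lit 0) (nat_lit 0x2100000003),.c (nat_lit 8) (nat_lit 0x84004102144),
    .r (nat_lit 0xdb2) (nat_lit 5) [nat_lit 0x3243245148142,nat_lit 0x30001450c4002],
    .c (nat_lit 3) (nat_lit 0x85005143105),.c (nat_lit 0) (nat_lit 0x100180009),.c (nat_lit 6) (nat_lit 2),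
    .c (nat_lit 3) (nat_lit 0x107000000002),.r (nat_lit 0xdbb) (nat_lit 8) [nat_lit 0x30031450c40c1,
    nat_lit 0x82000001],.r (nat_lit 0xcd6) (nat_lit 11) [nat_lit 0x12000001,nat_lit 0x19359c71670341,
    nat_lit 0x900900000001,nat_lit 0x32101450c4141,nat_lit 0x1864630c18d301],.c (nat_lit 3) (nat_lit 0x85000000002),
    .c (nat_lit 0) (nat_lit 0x143149245209),.c (nat_lit 0) (nat_lit 0x102108204244),
    .c (nat_lit 1) (nat_lit 0xc00c5140103),.c (nat_lit 0) (nat_lit 0x80084102142),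
    .c (nat_lit 0) (nat_lit 0x103108204248),.c (nat_lit 0) (nat_lit 0x30631860c648),
    .c (nat_lit 0) (nat_lit 0x2000000005),.c (nat_lit 7) (nat_lit 2),.r (nat_lit 0xa48) (nat_lit 13) [nat_lit 257,
    nat_lit 0x660678c30d101,nat_lit 0x734064d1cc141,nat_lit 0x34734d1cc141,nat_lit 0x30c000001],
    .r (nat_lit 987) (nat_lit 1) [nat_lit 0x50c52491480c1,nat_lit 0x34734d1cc002,nat_lit 0x4204208109082,
    nat_lit 0x2408410391102,nat_lit 0x52452431480c1,nat_lit 0x4204388109081],.c (nat_lit 2) (nat_lit 0xc50c5003103),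
    .r (nat_lit 0x7be) (nat_lit 8) [nat_lit 0x2c734d1cc141,nat_lit 0x234534d1cc142,nat_lit 0x30638c18d101,
    nat_lit 0x34734b1cc141,nat_lit 0x360c618399202,nat_lit 0x30630c18d102],
    .r (nat_lit 0xdbb) (nat_lit 8) [nat_lit 129,nat_lit 0x82000001],
    .r (nat_lit 0xdb2) (nat_lit 5) [nat_lit 0x1431400c4142,nat_lit 0x30001450c4002],.c (nat_lit 8) (nat_lit 2)]]

/-- nodes -/
noncomputable def rD8k_5_4 : List RJ :=
  [.s (nat_lit 16) (nat_lit 0x2d00) (nat_lit 4) (nat_lit 0x15160000126e00001236000012360000124200001242000013e6000013e6000014c60000166e000013a8000013a80000128a0000128a000013ba0000164e) (nat_lit 0x4000000015800000438000004380000042c0000042c000002880000028800000000000001a8000002c6000002c6000003e4000003e400000020000002b4)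
    (nat_lit 0x10be13be10de10de0b4210ea1fae151e0786096e1d3417981132092614f612620e6e10be0e360e360e7e0e4217be0d2e126e10c615440fa80e360e8a124e0fba0e3610de0dfe0dfe10c20e0a0fae0f72123608b60f700f700e5208b6126e0fd60e3610de0dfe0dfe10c20e0a0fae09be15b6108e095c0f700e520ea6121613560e4210ea0e0a0e0a14060e160fba0d021242109a0f280bfc0a8a147212220f8e0e7e0b4210c210c20e16140608620fba1242109a0f5808c4107a0e820f920f6a0d2e151e09be0f720fba0d02115e115e1a9e199610fc112010261026196e0f1617be1fae0fae0fae08620fba115e115e1346123e11201120100208ce1dc6136e10c6096e108e08b6109a109a123e199614c6131e193412a00ea610e207861212126e078615b612361242124213461a9e166e14c61a3c13a81236128a110613ba0fa817980f700f7008c40bfc1120112013a812a010e210e20fc409302118114815441d34095c0f700f580f28112010fc1a3c193410e210e20fc40fc41b940bc40e8a09260ea608b60e82147208ce1026128a10e20fc4093013d60ea607860fd60e3611320e520e52107a0a8a1002102612360ea60fc40fc413d613d6126a0fd60fba126213560fd60f6a0f8e136e0f1613ba12120bc411480fd60fd6139a0bd6124e14f61216126e0f9212221dc6196e110607861b942118126a0786162e139a)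
    (nat_lit 0x10be2d002d002d002d002d002d002d002d002d002d002d002d002d002d002d0013be10be2d002d002d002d002d002d002d002d002d002d002d002d002d002d0010de0e360dfe2d002d002d002d002d002d002d002d002d002d002d002d002d0010de0e360dfe0dfe2d002d002d002d002d002d002d002d002d002d002d002d000b420e7e10c210c214062d002d002d002d002d002d002d002d002d002d002d0010ea0e420e0a0e0a0e1614062d002d002d002d002d002d002d002d002d002d00194c16a40fae0fae0fba0862115e2d002d002d002d002d002d002d002d002d00151e0d2e0f7209be0d020fba115e115e2d002d002d002d002d002d002d002d000786126e123615b61242124214b4134614c62d002d002d002d002d002d002d00096e10c608b6108e109a109a1274123e131e14c62d002d002d002d002d002d00199815440f70095c0f280f5810fc112012121a3c10e22d002d002d002d002d00173e0fa80f700f700bfc08c41120112012a013a810e210e22d002d002d002d0011320e360e520e520a8a107a102610020ea612360fc40fc413d62d002d002d0009260e8a08b60ea614720e82102608ce10e2128a09300fc40ea613d62d002d000f0c124e126e121612100f9217ac178807861106174a174a0786126a139a2d0012620fba0fd613560f8e0f6a0f16136e121213ba11480bc40fd60fd60bd6139a)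
    (nat_lit 5) (nat_lit 163)
    [[nat_lit 0,nat_lit 0,nat_lit 0,nat_lit 11],[nat_lit 0,nat_lit 0,nat_lit 11,nat_lit 0],[nat_lit 0,nat_lit 2,
    nat_lit 10,nat_lit 13],[nat_lit 0,nat_lit 2,nat_lit 12,nat_lit 10],[nat_lit 0,nat_lit 2,nat_lit 12,nat_lit 11],
    [nat_lit 0,nat_lit 4],[nat_lit 0,nat_lit 5],[nat_lit 0,nat_lit 6,nat_lit 14,nat_lit 10],[nat_lit 0,nat_lit 8],
    [nat_lit 0,nat_lit 9],[nat_lit 0,nat_lit 11,nat_lit 0,nat_lit 0],[nat_lit 1,nat_lit 1,nat_lit 1,nat_lit 10],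
    [nat_lit 1,nat_lit 1,nat_lit 10,nat_lit 1],[nat_lit 1,nat_lit 4],[nat_lit 1,nat_lit 5],[nat_lit 1,nat_lit 8],
    [nat_lit 1,nat_lit 9],[nat_lit 1,nat_lit 10,nat_lit 1,nat_lit 1],[nat_lit 1,nat_lit 10,nat_lit 13,nat_lit 3],
    [nat_lit 1,nat_lit 11,nat_lit 13,nat_lit 3],[nat_lit 1,nat_lit 11,nat_lit 15,nat_lit 7],[nat_lit 1,nat_lit 12,
    nat_lit 11,nat_lit 3],[nat_lit 2,nat_lit 2,nat_lit 2,nat_lit 10,nat_lit 12],[nat_lit 2,nat_lit 2,nat_lit 4],
    [nat_lit 2,nat_lit 2,nat_lit 5],[nat_lit 2,nat_lit 2,nat_lit 8],[nat_lit 2,nat_lit 2,nat_lit 10,nat_lit 12,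
    nat_lit 2],[nat_lit 2,nat_lit 3,nat_lit 4],[nat_lit 2,nat_lit 3,nat_lit 5],[nat_lit 2,nat_lit 3,nat_lit 8],
    [nat_lit 2,nat_lit 3,nat_lit 9],[nat_lit 2,nat_lit 4,nat_lit 2],[nat_lit 2,nat_lit 4,nat_lit 3],[nat_lit 2,
    nat_lit 5,nat_lit 2],[nat_lit 2,nat_lit 5,nat_lit 3],[nat_lit 2,nat_lit 8,nat_lit 2],[nat_lit 2,nat_lit 10,
    nat_lit 12,nat_lit 2,nat_lit 2],[nat_lit 2,nat_lit 10,nat_lit 14,nat_lit 13],[nat_lit 2,nat_lit 14,nat_lit 10,
    nat_lit 12],[nat_lit 2,nat_lit 14,nat_lit 10,nat_lit 13],[nat_lit 3,nat_lit 3,nat_lit 3,nat_lit 13,nat_lit 11],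
    [nat_lit 3,nat_lit 3,nat_lit 4],[nat_lit 3,nat_lit 3,nat_lit 5],[nat_lit 3,nat_lit 3,nat_lit 9],[nat_lit 3,
    nat_lit 3,nat_lit 13,nat_lit 11,nat_lit 3],[nat_lit 3,nat_lit 4,nat_lit 3],[nat_lit 3,nat_lit 5,nat_lit 3],
    [nat_lit 3,nat_lit 9,nat_lit 3],[nat_lit 3,nat_lit 12,nat_lit 11,nat_lit 15],[nat_lit 3,nat_lit 12,nat_lit 15,
    nat_lit 11],[nat_lit 3,nat_lit 13,nat_lit 11,nat_lit 3,nat_lit 3],[nat_lit 3,nat_lit 13,nat_lit 11,nat_lit 15],
    [nat_lit 4,nat_lit 6],[nat_lit 4,nat_lit 7],[nat_lit 4,nat_lit 14],[nat_lit 4,nat_lit 15],[nat_lit 5,nat_lit 6],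
    [nat_lit 5,nat_lit 7],[nat_lit 5,nat_lit 14],[nat_lit 5,nat_lit 15],[nat_lit 6,nat_lit 8],[nat_lit 6,nat_lit 9],
    [nat_lit 6,nat_lit 14,nat_lit 10,nat_lit 14],[nat_lit 6,nat_lit 14,nat_lit 10,nat_lit 15],[nat_lit 6,nat_lit 14,
    nat_lit 11,nat_lit 15],[nat_lit 7,nat_lit 8],[nat_lit 7,nat_lit 9],[nat_lit 7,nat_lit 14,nat_lit 10,nat_lit 15],
    [nat_lit 7,nat_lit 14,nat_lit 11,nat_lit 15],[nat_lit 7,nat_lit 15,nat_lit 11,nat_lit 15],[nat_lit 8,nat_lit 14],
    [nat_lit 8,nat_lit 15],[nat_lit 9,nat_lit 14],[nat_lit 9,nat_lit 15],[nat_lit 10,nat_lit 12,nat_lit 12],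
    [nat_lit 10,nat_lit 12,nat_lit 13],[nat_lit 10,nat_lit 13,nat_lit 12],[nat_lit 10,nat_lit 13,nat_lit 13],
    [nat_lit 11,nat_lit 12,nat_lit 12],[nat_lit 11,nat_lit 12,nat_lit 13],[nat_lit 11,nat_lit 13,nat_lit 12],
    [nat_lit 11,nat_lit 13,nat_lit 13]]
    [nat_lit 0x1000b,nat_lit 0x100b0,nat_lit 0x102ad,nat_lit 0x102ca,nat_lit 0x102cb,nat_lit 260,nat_lit 261,
    nat_lit 0x106ea,nat_lit 264,nat_lit 265,nat_lit 0x10b00,nat_lit 0x1111a,nat_lit 0x111a1,nat_lit 276,nat_lit 277,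
    nat_lit 280,nat_lit 281,nat_lit 0x11a11,nat_lit 0x11ad3,nat_lit 0x11bd3,nat_lit 0x11bf7,nat_lit 0x11cb3,
    nat_lit 0x1222ac,nat_lit 0x1224,nat_lit 0x1225,nat_lit 0x1228,nat_lit 0x122ac2,nat_lit 0x1234,nat_lit 0x1235,
    nat_lit 0x1238,nat_lit 0x1239,nat_lit 0x1242,nat_lit 0x1243,nat_lit 0x1252,nat_lit 0x1253,nat_lit 0x1282,
    nat_lit 0x12ac22,nat_lit 0x12aed,nat_lit 0x12eac,nat_lit 0x12ead,nat_lit 0x1333db,nat_lit 0x1334,nat_lit 0x1335,
    nat_lit 0x1339,nat_lit 0x133db3,nat_lit 0x1343,nat_lit 0x1353,nat_lit 0x1393,nat_lit 0x13cbf,nat_lit 0x13cfb,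
    nat_lit 0x13db33,nat_lit 0x13dbf,nat_lit 326,nat_lit 327,nat_lit 334,nat_lit 335,nat_lit 342,nat_lit 343,
    nat_lit 350,nat_lit 351,nat_lit 360,nat_lit 361,nat_lit 0x16eae,nat_lit 0x16eaf,nat_lit 0x16ebf,nat_lit 376,
    nat_lit 377,nat_lit 0x17eaf,nat_lit 0x17ebf,nat_lit 0x17fbf,nat_lit 398,nat_lit 399,nat_lit 414,nat_lit 415,
    nat_lit 0x1acc,nat_lit 0x1acd,nat_lit 0x1adc,nat_lit 0x1add,nat_lit 0x1bcc,nat_lit 0x1bcd,nat_lit 0x1bdc,
    nat_lit 0x1bdd]
    [[[nat_lit 0,nat_lit 0,nat_lit 0,nat_lit 11],[nat_lit 0,nat_lit 0,nat_lit 11,nat_lit 0],[nat_lit 0,nat_lit 2,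
    nat_lit 10,nat_lit 13],[nat_lit 0,nat_lit 2,nat_lit 12,nat_lit 10],[nat_lit 0,nat_lit 2,nat_lit 12,nat_lit 11],
    [nat_lit 0,nat_lit 4],[nat_lit 0,nat_lit 5],[nat_lit 0,nat_lit 6,nat_lit 14,nat_lit 10],[nat_lit 0,nat_lit 8],
    [nat_lit 0,nat_lit 9],[nat_lit 0,nat_lit 11,nat_lit 0,nat_lit 0],[nat_lit 1,nat_lit 1,nat_lit 1,nat_lit 10]],
    [[nat_lit 1,nat_lit 1,nat_lit 10,nat_lit 1],[nat_lit 1,nat_lit 4],[nat_lit 1,nat_lit 5],[nat_lit 1,nat_lit 8],
    [nat_lit 1,nat_lit 9],[nat_lit 1,nat_lit 10,nat_lit 1,nat_lit 1],[nat_lit 1,nat_lit 10,nat_lit 13,nat_lit 3],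
    [nat_lit 1,nat_lit 11,nat_lit 13,nat_lit 3],[nat_lit 1,nat_lit 11,nat_lit 15,nat_lit 7],[nat_lit 1,nat_lit 12,
    nat_lit 11,nat_lit 3],[nat_lit 2,nat_lit 2,nat_lit 2,nat_lit 10,nat_lit 12],[nat_lit 2,nat_lit 2,nat_lit 4]],
    [[nat_lit 2,nat_lit 2,nat_lit 5],[nat_lit 2,nat_lit 2,nat_lit 8],[nat_lit 2,nat_lit 2,nat_lit 10,nat_lit 12,
    nat_lit 2],[nat_lit 2,nat_lit 3,nat_lit 4],[nat_lit 2,nat_lit 3,nat_lit 5],[nat_lit 2,nat_lit 3,nat_lit 8],
    [nat_lit 2,nat_lit 3,nat_lit 9],[nat_lit 2,nat_lit 4,nat_lit 2],[nat_lit 2,nat_lit 4,nat_lit 3],[nat_lit 2,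
    nat_lit 5,nat_lit 2],[nat_lit 2,nat_lit 5,nat_lit 3],[nat_lit 2,nat_lit 8,nat_lit 2]],[[nat_lit 2,nat_lit 10,
    nat_lit 12,nat_lit 2,nat_lit 2],[nat_lit 2,nat_lit 10,nat_lit 13,nat_lit 0],[nat_lit 2,nat_lit 10,nat_lit 14,
    nat_lit 13],[nat_lit 2,nat_lit 12,nat_lit 10,nat_lit 0],[nat_lit 2,nat_lit 12,nat_lit 11,nat_lit 0],[nat_lit 2,
    nat_lit 14,nat_lit 10,nat_lit 12],[nat_lit 2,nat_lit 14,nat_lit 10,nat_lit 13],[nat_lit 3,nat_lit 1,nat_lit 10,
    nat_lit 13],[nat_lit 3,nat_lit 1,nat_lit 11,nat_lit 13],[nat_lit 3,nat_lit 1,nat_lit 12,nat_lit 11],[nat_lit 3,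
    nat_lit 2,nat_lit 4],[nat_lit 3,nat_lit 2,nat_lit 5]],[[nat_lit 3,nat_lit 3,nat_lit 3,nat_lit 13,nat_lit 11],
    [nat_lit 3,nat_lit 3,nat_lit 4],[nat_lit 3,nat_lit 3,nat_lit 5],[nat_lit 3,nat_lit 3,nat_lit 9],[nat_lit 3,
    nat_lit 3,nat_lit 13,nat_lit 11,nat_lit 3],[nat_lit 3,nat_lit 4,nat_lit 2],[nat_lit 3,nat_lit 4,nat_lit 3],
    [nat_lit 3,nat_lit 5,nat_lit 2],[nat_lit 3,nat_lit 5,nat_lit 3],[nat_lit 3,nat_lit 8,nat_lit 2],[nat_lit 3,
    nat_lit 9,nat_lit 2],[nat_lit 3,nat_lit 9,nat_lit 3]],[[nat_lit 3,nat_lit 12,nat_lit 11,nat_lit 15],[nat_lit 3,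
    nat_lit 12,nat_lit 15,nat_lit 11],[nat_lit 3,nat_lit 13,nat_lit 11,nat_lit 3,nat_lit 3],[nat_lit 3,nat_lit 13,
    nat_lit 11,nat_lit 15],[nat_lit 4,nat_lit 0],[nat_lit 4,nat_lit 1],[nat_lit 4,nat_lit 2,nat_lit 2],[nat_lit 4,
    nat_lit 2,nat_lit 3],[nat_lit 4,nat_lit 3,nat_lit 2],[nat_lit 4,nat_lit 3,nat_lit 3],[nat_lit 4,nat_lit 6],
    [nat_lit 4,nat_lit 7]],[[nat_lit 4,nat_lit 14],[nat_lit 4,nat_lit 15],[nat_lit 5,nat_lit 0],[nat_lit 5,nat_lit 1],
    [nat_lit 5,nat_lit 2,nat_lit 2],[nat_lit 5,nat_lit 2,nat_lit 3],[nat_lit 5,nat_lit 3,nat_lit 2],[nat_lit 5,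
    nat_lit 3,nat_lit 3],[nat_lit 5,nat_lit 6],[nat_lit 5,nat_lit 7],[nat_lit 5,nat_lit 14],[nat_lit 5,nat_lit 15]],
    [[nat_lit 6,nat_lit 4],[nat_lit 6,nat_lit 5],[nat_lit 6,nat_lit 8],[nat_lit 6,nat_lit 9],[nat_lit 6,nat_lit 14,
    nat_lit 10,nat_lit 0],[nat_lit 6,nat_lit 14,nat_lit 10,nat_lit 14],[nat_lit 6,nat_lit 14,nat_lit 10,nat_lit 15],
    [nat_lit 6,nat_lit 14,nat_lit 11,nat_lit 15],[nat_lit 7,nat_lit 1,nat_lit 11,nat_lit 15],[nat_lit 7,nat_lit 4],
    [nat_lit 7,nat_lit 5],[nat_lit 7,nat_lit 8]],[[nat_lit 7,nat_lit 9],[nat_lit 7,nat_lit 14,nat_lit 10,nat_lit 15],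
    [nat_lit 7,nat_lit 14,nat_lit 11,nat_lit 15],[nat_lit 7,nat_lit 15,nat_lit 11,nat_lit 15],[nat_lit 8,nat_lit 0],
    [nat_lit 8,nat_lit 1],[nat_lit 8,nat_lit 2,nat_lit 2],[nat_lit 8,nat_lit 2,nat_lit 3],[nat_lit 8,nat_lit 6],
    [nat_lit 8,nat_lit 7],[nat_lit 8,nat_lit 14],[nat_lit 8,nat_lit 15]],[[nat_lit 9,nat_lit 0],[nat_lit 9,nat_lit 1],
    [nat_lit 9,nat_lit 2,nat_lit 3],[nat_lit 9,nat_lit 3,nat_lit 3],[nat_lit 9,nat_lit 6],[nat_lit 9,nat_lit 7],
    [nat_lit 9,nat_lit 14],[nat_lit 9,nat_lit 15],[nat_lit 10,nat_lit 0,nat_lit 2,nat_lit 12],[nat_lit 10,nat_lit 0,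
    nat_lit 6,nat_lit 14],[nat_lit 10,nat_lit 1,nat_lit 1,nat_lit 1],[nat_lit 10,nat_lit 12,nat_lit 2,nat_lit 2,
    nat_lit 2]],[[nat_lit 10,nat_lit 12,nat_lit 2,nat_lit 14],[nat_lit 10,nat_lit 12,nat_lit 12],[nat_lit 10,
    nat_lit 12,nat_lit 13],[nat_lit 10,nat_lit 13,nat_lit 0,nat_lit 2],[nat_lit 10,nat_lit 13,nat_lit 2,nat_lit 14],
    [nat_lit 10,nat_lit 13,nat_lit 3,nat_lit 1],[nat_lit 10,nat_lit 13,nat_lit 12],[nat_lit 10,nat_lit 13,nat_lit 13],
    [nat_lit 10,nat_lit 14,nat_lit 6,nat_lit 14],[nat_lit 10,nat_lit 14,nat_lit 13,nat_lit 2],[nat_lit 10,nat_lit 15,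
    nat_lit 6,nat_lit 14],[nat_lit 10,nat_lit 15,nat_lit 7,nat_lit 14]],[[nat_lit 11,nat_lit 0,nat_lit 0,nat_lit 0],
    [nat_lit 11,nat_lit 0,nat_lit 2,nat_lit 12],[nat_lit 11,nat_lit 3,nat_lit 1,nat_lit 12],[nat_lit 11,nat_lit 3,
    nat_lit 3,nat_lit 3,nat_lit 13],[nat_lit 11,nat_lit 3,nat_lit 12,nat_lit 15],[nat_lit 11,nat_lit 12,nat_lit 12],
    [nat_lit 11,nat_lit 12,nat_lit 13],[nat_lit 11,nat_lit 13,nat_lit 3,nat_lit 1],[nat_lit 11,nat_lit 13,nat_lit 12],
    [nat_lit 11,nat_lit 13,nat_lit 13],[nat_lit 11,nat_lit 15,nat_lit 3,nat_lit 12],[nat_lit 11,nat_lit 15,nat_lit 3,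
    nat_lit 13]],[[nat_lit 11,nat_lit 15,nat_lit 6,nat_lit 14],[nat_lit 11,nat_lit 15,nat_lit 7,nat_lit 1],
    [nat_lit 11,nat_lit 15,nat_lit 7,nat_lit 14],[nat_lit 11,nat_lit 15,nat_lit 7,nat_lit 15],[nat_lit 12,nat_lit 2,
    nat_lit 2,nat_lit 2,nat_lit 10],[nat_lit 12,nat_lit 2,nat_lit 14,nat_lit 10],[nat_lit 12,nat_lit 10,nat_lit 0,
    nat_lit 2],[nat_lit 12,nat_lit 10,nat_lit 12],[nat_lit 12,nat_lit 10,nat_lit 13],[nat_lit 12,nat_lit 11,nat_lit 0,
    nat_lit 2],[nat_lit 12,nat_lit 11,nat_lit 3,nat_lit 1],[nat_lit 12,nat_lit 11,nat_lit 12]],[[nat_lit 12,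
    nat_lit 11,nat_lit 13],[nat_lit 12,nat_lit 11,nat_lit 15,nat_lit 3],[nat_lit 12,nat_lit 12,nat_lit 10],
    [nat_lit 12,nat_lit 12,nat_lit 11],[nat_lit 12,nat_lit 13,nat_lit 10],[nat_lit 12,nat_lit 13,nat_lit 11],
    [nat_lit 12,nat_lit 15,nat_lit 11,nat_lit 3],[nat_lit 13,nat_lit 0,nat_lit 2,nat_lit 10],[nat_lit 13,nat_lit 2,
    nat_lit 10,nat_lit 14],[nat_lit 13,nat_lit 2,nat_lit 14,nat_lit 10],[nat_lit 13,nat_lit 3,nat_lit 1,nat_lit 10],
    [nat_lit 13,nat_lit 3,nat_lit 1,nat_lit 11]],[[nat_lit 13,nat_lit 10,nat_lit 12],[nat_lit 13,nat_lit 10,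
    nat_lit 13],[nat_lit 13,nat_lit 11,nat_lit 3,nat_lit 3,nat_lit 3],[nat_lit 13,nat_lit 11,nat_lit 12],[nat_lit 13,
    nat_lit 11,nat_lit 13],[nat_lit 13,nat_lit 11,nat_lit 15,nat_lit 3],[nat_lit 13,nat_lit 12,nat_lit 10],
    [nat_lit 13,nat_lit 12,nat_lit 11],[nat_lit 13,nat_lit 13,nat_lit 10],[nat_lit 13,nat_lit 13,nat_lit 11],
    [nat_lit 14,nat_lit 4],[nat_lit 14,nat_lit 5]],[[nat_lit 14,nat_lit 6,nat_lit 14,nat_lit 10],[nat_lit 14,
    nat_lit 8],[nat_lit 14,nat_lit 9],[nat_lit 14,nat_lit 10,nat_lit 0,nat_lit 6],[nat_lit 14,nat_lit 10,nat_lit 12,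
    nat_lit 2],[nat_lit 14,nat_lit 10,nat_lit 13,nat_lit 2],[nat_lit 14,nat_lit 10,nat_lit 14,nat_lit 6],[nat_lit 14,
    nat_lit 10,nat_lit 15,nat_lit 6],[nat_lit 14,nat_lit 10,nat_lit 15,nat_lit 7],[nat_lit 14,nat_lit 11,nat_lit 15,
    nat_lit 6],[nat_lit 14,nat_lit 11,nat_lit 15,nat_lit 7],[nat_lit 14,nat_lit 13,nat_lit 2,nat_lit 10]],
    [[nat_lit 15,nat_lit 3,nat_lit 12,nat_lit 11],[nat_lit 15,nat_lit 3,nat_lit 13,nat_lit 11],[nat_lit 15,nat_lit 4],
    [nat_lit 15,nat_lit 5],[nat_lit 15,nat_lit 6,nat_lit 14,nat_lit 10],[nat_lit 15,nat_lit 6,nat_lit 14,nat_lit 11],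
    [nat_lit 15,nat_lit 7,nat_lit 1,nat_lit 11],[nat_lit 15,nat_lit 7,nat_lit 14,nat_lit 10],[nat_lit 15,nat_lit 7,
    nat_lit 14,nat_lit 11],[nat_lit 15,nat_lit 7,nat_lit 15,nat_lit 11],[nat_lit 15,nat_lit 8],[nat_lit 15,
    nat_lit 9]],[[nat_lit 15,nat_lit 11,nat_lit 3,nat_lit 12],[nat_lit 15,nat_lit 11,nat_lit 15,nat_lit 7]]]
    [[nat_lit 1,nat_lit 10,nat_lit 37,nat_lit 39,nat_lit 40,nat_lit 64,nat_lit 74,nat_lit 88,nat_lit 100,nat_lit 108,
    nat_lit 132,nat_lit 12],[nat_lit 17,nat_lit 65,nat_lit 75,nat_lit 101,nat_lit 109,nat_lit 118,nat_lit 125,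
    nat_lit 139,nat_lit 145,nat_lit 154,nat_lit 26,nat_lit 31],[nat_lit 33,nat_lit 35,nat_lit 36,nat_lit 53,
    nat_lit 55,nat_lit 57,nat_lit 58,nat_lit 66,nat_lit 68,nat_lit 76,nat_lit 78,nat_lit 102],[nat_lit 119,
    nat_lit 123,nat_lit 129,nat_lit 150,nat_lit 153,nat_lit 184,nat_lit 185,nat_lit 18,nat_lit 19,nat_lit 21,
    nat_lit 32,nat_lit 34],[nat_lit 52,nat_lit 54,nat_lit 56,nat_lit 59,nat_lit 62,nat_lit 67,nat_lit 69,nat_lit 77,
    nat_lit 79,nat_lit 103,nat_lit 110,nat_lit 111],[nat_lit 157,nat_lit 162,nat_lit 170,nat_lit 173,nat_lit 5,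
    nat_lit 13,nat_lit 23,nat_lit 27,nat_lit 46,nat_lit 49,nat_lit 84,nat_lit 93],[nat_lit 178,nat_lit 194,nat_lit 6,
    nat_lit 14,nat_lit 24,nat_lit 28,nat_lit 47,nat_lit 50,nat_lit 85,nat_lit 94,nat_lit 179,nat_lit 195],[nat_lit 70,
    nat_lit 80,nat_lit 104,nat_lit 112,nat_lit 183,nat_lit 186,nat_lit 187,nat_lit 189,nat_lit 20,nat_lit 71,
    nat_lit 81,nat_lit 105],[nat_lit 113,nat_lit 188,nat_lit 190,nat_lit 205,nat_lit 8,nat_lit 15,nat_lit 25,
    nat_lit 29,nat_lit 86,nat_lit 95,nat_lit 181,nat_lit 202],[nat_lit 9,nat_lit 16,nat_lit 30,nat_lit 51,nat_lit 87,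
    nat_lit 96,nat_lit 182,nat_lit 203,nat_lit 3,nat_lit 7,nat_lit 11,nat_lit 148],[nat_lit 149,nat_lit 158,
    nat_lit 160,nat_lit 163,nat_lit 165,nat_lit 166,nat_lit 174,nat_lit 176,nat_lit 180,nat_lit 191,nat_lit 196,
    nat_lit 199],[nat_lit 0,nat_lit 4,nat_lit 45,nat_lit 48,nat_lit 61,nat_lit 159,nat_lit 161,nat_lit 167,
    nat_lit 175,nat_lit 177,nat_lit 192,nat_lit 193],[nat_lit 197,nat_lit 198,nat_lit 200,nat_lit 201,nat_lit 22,
    nat_lit 41,nat_lit 116,nat_lit 121,nat_lit 126,nat_lit 133,nat_lit 134,nat_lit 137],[nat_lit 140,nat_lit 142,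
    nat_lit 151,nat_lit 155,nat_lit 168,nat_lit 171,nat_lit 204,nat_lit 2,nat_lit 38,nat_lit 42,nat_lit 43,
    nat_lit 44],[nat_lit 122,nat_lit 127,nat_lit 135,nat_lit 138,nat_lit 141,nat_lit 143,nat_lit 152,nat_lit 156,
    nat_lit 169,nat_lit 172,nat_lit 72,nat_lit 82],[nat_lit 89,nat_lit 106,nat_lit 114,nat_lit 117,nat_lit 120,
    nat_lit 124,nat_lit 128,nat_lit 130,nat_lit 131,nat_lit 144,nat_lit 146,nat_lit 164],[nat_lit 60,nat_lit 63,
    nat_lit 73,nat_lit 83,nat_lit 90,nat_lit 91,nat_lit 92,nat_lit 97,nat_lit 98,nat_lit 99,nat_lit 107,nat_lit 115],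
    [nat_lit 136,nat_lit 147]]
    [[nat_lit 132,nat_lit 0,nat_lit 163,nat_lit 116,nat_lit 133,nat_lit 64,nat_lit 74,nat_lit 117,nat_lit 100,
    nat_lit 108,nat_lit 1,nat_lit 118],[nat_lit 11,nat_lit 65,nat_lit 75,nat_lit 101,nat_lit 109,nat_lit 12,
    nat_lit 43,nat_lit 44,nat_lit 92,nat_lit 45,nat_lit 148,nat_lit 66],[nat_lit 76,nat_lit 102,nat_lit 22,nat_lit 67,
    nat_lit 77,nat_lit 103,nat_lit 110,nat_lit 23,nat_lit 46,nat_lit 24,nat_lit 47,nat_lit 25],[nat_lit 26,nat_lit 2,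
    nat_lit 164,nat_lit 3,nat_lit 4,nat_lit 149,nat_lit 165,nat_lit 166,nat_lit 167,nat_lit 134,nat_lit 68,
    nat_lit 78],[nat_lit 135,nat_lit 69,nat_lit 79,nat_lit 111,nat_lit 48,nat_lit 27,nat_lit 49,nat_lit 28,nat_lit 50,
    nat_lit 29,nat_lit 30,nat_lit 51],[nat_lit 192,nat_lit 136,nat_lit 52,nat_lit 193,nat_lit 5,nat_lit 13,nat_lit 31,
    nat_lit 53,nat_lit 32,nat_lit 54,nat_lit 84,nat_lit 93],[nat_lit 178,nat_lit 194,nat_lit 6,nat_lit 14,nat_lit 33,
    nat_lit 55,nat_lit 34,nat_lit 56,nat_lit 85,nat_lit 94,nat_lit 179,nat_lit 195],[nat_lit 70,nat_lit 80,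
    nat_lit 104,nat_lit 112,nat_lit 7,nat_lit 180,nat_lit 196,nat_lit 197,nat_lit 198,nat_lit 71,nat_lit 81,
    nat_lit 105],[nat_lit 113,nat_lit 199,nat_lit 200,nat_lit 201,nat_lit 8,nat_lit 15,nat_lit 35,nat_lit 57,
    nat_lit 86,nat_lit 95,nat_lit 181,nat_lit 202],[nat_lit 9,nat_lit 16,nat_lit 58,nat_lit 59,nat_lit 87,nat_lit 96,
    nat_lit 182,nat_lit 203,nat_lit 150,nat_lit 183,nat_lit 17,nat_lit 36],[nat_lit 184,nat_lit 151,nat_lit 168,
    nat_lit 37,nat_lit 185,nat_lit 18,nat_lit 152,nat_lit 169,nat_lit 186,nat_lit 38,nat_lit 187,nat_lit 188],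
    [nat_lit 10,nat_lit 153,nat_lit 154,nat_lit 170,nat_lit 204,nat_lit 155,nat_lit 171,nat_lit 19,nat_lit 156,
    nat_lit 172,nat_lit 157,nat_lit 173],[nat_lit 189,nat_lit 20,nat_lit 190,nat_lit 205,nat_lit 119,nat_lit 120,
    nat_lit 39,nat_lit 158,nat_lit 174,nat_lit 40,nat_lit 21,nat_lit 159],[nat_lit 175,nat_lit 60,nat_lit 121,
    nat_lit 137,nat_lit 122,nat_lit 138,nat_lit 61,nat_lit 123,nat_lit 191,nat_lit 124,nat_lit 125,nat_lit 139],
    [nat_lit 160,nat_lit 176,nat_lit 62,nat_lit 161,nat_lit 177,nat_lit 63,nat_lit 126,nat_lit 140,nat_lit 127,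
    nat_lit 141,nat_lit 72,nat_lit 82],[nat_lit 128,nat_lit 106,nat_lit 114,nat_lit 88,nat_lit 41,nat_lit 42,
    nat_lit 89,nat_lit 90,nat_lit 97,nat_lit 91,nat_lit 98,nat_lit 129],[nat_lit 142,nat_lit 143,nat_lit 73,
    nat_lit 83,nat_lit 130,nat_lit 144,nat_lit 145,nat_lit 131,nat_lit 146,nat_lit 147,nat_lit 107,nat_lit 115],
    [nat_lit 162,nat_lit 99]]
    [[[nat_lit 184,nat_lit 185],[nat_lit 184,nat_lit 185],[nat_lit 178],[nat_lit 178],[nat_lit 178],[nat_lit 183,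
    nat_lit 186,nat_lit 187,nat_lit 189],[],[nat_lit 181],[nat_lit 180,nat_lit 191],[nat_lit 188,nat_lit 190],
    [nat_lit 182],[nat_lit 60,nat_lit 63]],[[nat_lit 60,nat_lit 63],[],[nat_lit 52,nat_lit 54,nat_lit 56,nat_lit 59,
    nat_lit 62],[],[],[],[],[nat_lit 51],[nat_lit 51],[],[nat_lit 5],[nat_lit 5]],[[nat_lit 5],[nat_lit 5],
    [nat_lit 5],[],[],[],[],[],[],[],[],[nat_lit 3,nat_lit 7]],[[],[],[],[],[],[nat_lit 1,nat_lit 10],[nat_lit 1,
    nat_lit 10],[nat_lit 83],[nat_lit 83],[nat_lit 83],[],[]],[[nat_lit 75],[nat_lit 75],[nat_lit 75],[nat_lit 75],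
    [nat_lit 75],[nat_lit 80],[nat_lit 80],[nat_lit 77,nat_lit 79],[nat_lit 77,nat_lit 79],[],[nat_lit 81],
    [nat_lit 81]],[[nat_lit 82],[nat_lit 82],[],[],[nat_lit 26,nat_lit 31,nat_lit 33,nat_lit 35,nat_lit 36],[],
    [nat_lit 23,nat_lit 27],[nat_lit 23,nat_lit 27],[],[],[nat_lit 25,nat_lit 29],[nat_lit 24,nat_lit 28]],
    [[nat_lit 37,nat_lit 39,nat_lit 40],[nat_lit 38,nat_lit 42],[],[nat_lit 92,nat_lit 97,nat_lit 98,nat_lit 99],
    [nat_lit 93],[nat_lit 93],[],[],[nat_lit 95],[nat_lit 94],[],[]],[[nat_lit 70],[nat_lit 67,nat_lit 69],[],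
    [nat_lit 71],[nat_lit 64],[nat_lit 64],[nat_lit 64],[nat_lit 64],[nat_lit 115],[nat_lit 112],[nat_lit 110,
    nat_lit 111],[]],[[nat_lit 113],[nat_lit 108],[nat_lit 108],[],[],[nat_lit 90,nat_lit 91],[nat_lit 84],
    [nat_lit 84],[nat_lit 86],[nat_lit 85],[nat_lit 88],[]],[[],[nat_lit 136,nat_lit 147],[],[nat_lit 139,
    nat_lit 145],[],[],[nat_lit 132],[nat_lit 135,nat_lit 138,nat_lit 141,nat_lit 143],[nat_lit 102],[nat_lit 102],
    [nat_lit 107],[nat_lit 106]],[[nat_lit 106],[nat_lit 106],[nat_lit 106],[],[],[],[],[],[nat_lit 100],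
    [nat_lit 100],[],[]],[[],[],[],[],[],[nat_lit 164],[nat_lit 164],[nat_lit 167,nat_lit 175,nat_lit 177],
    [nat_lit 167,nat_lit 175,nat_lit 177],[nat_lit 167,nat_lit 175,nat_lit 177],[nat_lit 169,nat_lit 172],
    [nat_lit 169,nat_lit 172]],[[nat_lit 169,nat_lit 172],[nat_lit 169,nat_lit 172],[nat_lit 169,nat_lit 172],
    [nat_lit 169,nat_lit 172],[],[],[nat_lit 116,nat_lit 121,nat_lit 126],[nat_lit 116,nat_lit 121,nat_lit 126],
    [nat_lit 116,nat_lit 121,nat_lit 126],[],[],[]],[[],[],[nat_lit 117,nat_lit 120,nat_lit 124,nat_lit 128,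
    nat_lit 130,nat_lit 131],[nat_lit 117,nat_lit 120,nat_lit 124,nat_lit 128,nat_lit 130,nat_lit 131],[],[],
    [nat_lit 122,nat_lit 127],[],[nat_lit 194],[nat_lit 194],[],[]],[[nat_lit 204],[nat_lit 204],[nat_lit 203],
    [nat_lit 203],[nat_lit 203],[nat_lit 203],[],[],[nat_lit 192,nat_lit 193,nat_lit 197,nat_lit 198,nat_lit 200,
    nat_lit 201],[nat_lit 192,nat_lit 193,nat_lit 197,nat_lit 198,nat_lit 200,nat_lit 201],[],[nat_lit 157,
    nat_lit 162]],[[],[nat_lit 148,nat_lit 149,nat_lit 158,nat_lit 160],[],[nat_lit 151,nat_lit 155],[nat_lit 151,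
    nat_lit 155],[nat_lit 151,nat_lit 155],[nat_lit 151,nat_lit 155],[nat_lit 151,nat_lit 155],[nat_lit 151,
    nat_lit 155],[],[],[nat_lit 159,nat_lit 161]],[[nat_lit 12,nat_lit 17],[nat_lit 12,nat_lit 17],[],[nat_lit 18,
    nat_lit 19,nat_lit 21],[nat_lit 15],[nat_lit 15],[nat_lit 14],[nat_lit 14],[nat_lit 14],[nat_lit 14],[nat_lit 11],
    [nat_lit 20]],[[nat_lit 16],[nat_lit 16]]]
    (nat_lit 206) [nat_lit 0,nat_lit 1,nat_lit 2,nat_lit 3,nat_lit 4,nat_lit 5,nat_lit 6,nat_lit 7,nat_lit 8,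
    nat_lit 9,nat_lit 10,nat_lit 11,nat_lit 12,nat_lit 13,nat_lit 14,nat_lit 15,nat_lit 16,nat_lit 17,nat_lit 18,
    nat_lit 19,nat_lit 20,nat_lit 21,nat_lit 22,nat_lit 23,nat_lit 24,nat_lit 25,nat_lit 26,nat_lit 27,nat_lit 28,
    nat_lit 29,nat_lit 30,nat_lit 31,nat_lit 32,nat_lit 33,nat_lit 34,nat_lit 35,nat_lit 36,nat_lit 38,nat_lit 41,
    nat_lit 42,nat_lit 48,nat_lit 49,nat_lit 50,nat_lit 51,nat_lit 52,nat_lit 54,nat_lit 56,nat_lit 59,nat_lit 60,
    nat_lit 61,nat_lit 62,nat_lit 63,nat_lit 70,nat_lit 71,nat_lit 72,nat_lit 73,nat_lit 80,nat_lit 81,nat_lit 82,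
    nat_lit 83,nat_lit 86,nat_lit 87,nat_lit 89,nat_lit 90,nat_lit 91,nat_lit 95,nat_lit 96,nat_lit 97,nat_lit 98,
    nat_lit 99,nat_lit 106,nat_lit 107,nat_lit 114,nat_lit 115,nat_lit 121,nat_lit 122,nat_lit 126,nat_lit 127,
    nat_lit 137,nat_lit 138,nat_lit 140,nat_lit 141]
    [[[nat_lit 1,nat_lit 10],[],[],[],[nat_lit 5],[nat_lit 6],[],[],[nat_lit 8],[nat_lit 9],[nat_lit 3,nat_lit 7],
    [nat_lit 0,nat_lit 4],[],[nat_lit 2],[],[]],[[],[nat_lit 12,nat_lit 17],[],[nat_lit 18,nat_lit 19,nat_lit 21],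
    [nat_lit 13],[nat_lit 14],[],[nat_lit 20],[nat_lit 15],[nat_lit 16],[nat_lit 11],[],[],[],[],[]],[[nat_lit 37,
    nat_lit 39,nat_lit 40],[],[nat_lit 26,nat_lit 31,nat_lit 33,nat_lit 35,nat_lit 36],[nat_lit 32,nat_lit 34],
    [nat_lit 23,nat_lit 27],[nat_lit 24,nat_lit 28],[],[],[nat_lit 25,nat_lit 29],[nat_lit 30],[],[],[nat_lit 22,
    nat_lit 41],[nat_lit 38,nat_lit 42],[],[]],[[],[],[nat_lit 53,nat_lit 55,nat_lit 57,nat_lit 58],[nat_lit 52,
    nat_lit 54,nat_lit 56,nat_lit 59,nat_lit 62],[nat_lit 46,nat_lit 49],[nat_lit 47,nat_lit 50],[],[],[],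
    [nat_lit 51],[],[nat_lit 45,nat_lit 48,nat_lit 61],[],[nat_lit 43,nat_lit 44],[],[nat_lit 60,nat_lit 63]],
    [[nat_lit 64],[nat_lit 65],[nat_lit 66,nat_lit 68],[nat_lit 67,nat_lit 69],[],[],[nat_lit 70],[nat_lit 71],[],[],
    [],[],[],[],[nat_lit 72],[nat_lit 73]],[[nat_lit 74],[nat_lit 75],[nat_lit 76,nat_lit 78],[nat_lit 77,nat_lit 79],
    [],[],[nat_lit 80],[nat_lit 81],[],[],[],[],[],[],[nat_lit 82],[nat_lit 83]],[[nat_lit 88],[],[],[],[nat_lit 84],
    [nat_lit 85],[],[],[nat_lit 86],[nat_lit 87],[],[],[],[],[nat_lit 89],[nat_lit 90,nat_lit 91]],[[],[],[],[],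
    [nat_lit 93],[nat_lit 94],[],[],[nat_lit 95],[nat_lit 96],[],[],[],[],[],[nat_lit 92,nat_lit 97,nat_lit 98,
    nat_lit 99]],[[nat_lit 100],[nat_lit 101],[nat_lit 102],[nat_lit 103],[],[],[nat_lit 104],[nat_lit 105],[],[],[],
    [],[],[],[nat_lit 106],[nat_lit 107]],[[nat_lit 108],[nat_lit 109],[],[nat_lit 110,nat_lit 111],[],[],
    [nat_lit 112],[nat_lit 113],[],[],[],[],[],[],[nat_lit 114],[nat_lit 115]],[[],[nat_lit 118,nat_lit 125],
    [nat_lit 119,nat_lit 123,nat_lit 129],[],[],[],[],[],[],[],[],[],[nat_lit 116,nat_lit 121,nat_lit 126],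
    [nat_lit 122,nat_lit 127],[nat_lit 117,nat_lit 120,nat_lit 124,nat_lit 128,nat_lit 130,nat_lit 131],[]],
    [[nat_lit 132],[nat_lit 139,nat_lit 145],[],[],[],[],[],[],[],[],[],[],[nat_lit 133,nat_lit 134,nat_lit 137,
    nat_lit 140,nat_lit 142],[nat_lit 135,nat_lit 138,nat_lit 141,nat_lit 143],[nat_lit 144,nat_lit 146],[nat_lit 136,
    nat_lit 147]],[[],[nat_lit 154],[nat_lit 150,nat_lit 153],[nat_lit 157,nat_lit 162],[],[],[],[],[],[],
    [nat_lit 148,nat_lit 149,nat_lit 158,nat_lit 160],[nat_lit 159,nat_lit 161],[nat_lit 151,nat_lit 155],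
    [nat_lit 152,nat_lit 156],[],[]],[[],[],[],[nat_lit 170,nat_lit 173],[],[],[],[],[],[],[nat_lit 163,nat_lit 165,
    nat_lit 166,nat_lit 174,nat_lit 176],[nat_lit 167,nat_lit 175,nat_lit 177],[nat_lit 168,nat_lit 171],[nat_lit 169,
    nat_lit 172],[nat_lit 164],[]],[[],[],[nat_lit 184,nat_lit 185],[],[nat_lit 178],[nat_lit 179],[nat_lit 183,
    nat_lit 186,nat_lit 187,nat_lit 189],[nat_lit 188,nat_lit 190],[nat_lit 181],[nat_lit 182],[nat_lit 180,
    nat_lit 191],[],[],[],[],[]],[[],[],[],[],[nat_lit 194],[nat_lit 195],[],[nat_lit 205],[nat_lit 202],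
    [nat_lit 203],[nat_lit 196,nat_lit 199],[nat_lit 192,nat_lit 193,nat_lit 197,nat_lit 198,nat_lit 200,nat_lit 201],
    [nat_lit 204],[],[],[]]]
    [[[nat_lit 0x30000000000000000000000000000000000000000000000,
    nat_lit 0x30000000000000000000000000000000000000000000000,nat_lit 0x400000000000000000000000000000000000000000000,
    nat_lit 0x400000000000000000000000000000000000000000000,nat_lit 0x400000000000000000000000000000000000000000000,
    nat_lit 0x2c8000000000000000000000000000000000000000000000,nat_lit 0,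
    nat_lit 0x2000000000000000000000000000000000000000000000,
    nat_lit 0x801000000000000000000000000000000000000000000000],
    [nat_lit 0x500000000000000000000000000000000000000000000000,
    nat_lit 0x4000000000000000000000000000000000000000000000,nat_lit 0x9000000000000000,nat_lit 0x9000000000000000,
    nat_lit 0,nat_lit 0x4950000000000000,nat_lit 0,nat_lit 0,nat_lit 0],[nat_lit 0,nat_lit 0x8000000000000,
    nat_lit 0x8000000000000,nat_lit 0,nat_lit 32,nat_lit 32,nat_lit 32,nat_lit 32,nat_lit 32],[nat_lit 0,nat_lit 0,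
    nat_lit 0,nat_lit 0,nat_lit 0,nat_lit 0,nat_lit 0,nat_lit 0,nat_lit 136],[nat_lit 0,nat_lit 0,nat_lit 0,nat_lit 0,
    nat_lit 0,nat_lit 0x402,nat_lit 0x402,nat_lit 0x800000000000000000000,nat_lit 0x800000000000000000000],
    [nat_lit 0x800000000000000000000,nat_lit 0,nat_lit 0,nat_lit 0x8000000000000000000,nat_lit 0x8000000000000000000,
    nat_lit 0x8000000000000000000,nat_lit 0x8000000000000000000,nat_lit 0x8000000000000000000,
    nat_lit 0x100000000000000000000],[nat_lit 0x100000000000000000000,nat_lit 0xa0000000000000000000,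
    nat_lit 0xa0000000000000000000,nat_lit 0,nat_lit 0x200000000000000000000,nat_lit 0x200000000000000000000,
    nat_lit 0x400000000000000000000,nat_lit 0x400000000000000000000,nat_lit 0],[nat_lit 0,nat_lit 0x1a84000000,
    nat_lit 0,nat_lit 0x8800000,nat_lit 0x8800000,nat_lit 0,nat_lit 0,nat_lit 0x22000000,nat_lit 0x11000000],
    [nat_lit 0x1a000000000,nat_lit 0x44000000000,nat_lit 0,nat_lit 0xe100000000000000000000000,
    nat_lit 0x200000000000000000000000,nat_lit 0x200000000000000000000000,nat_lit 0,nat_lit 0,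
    nat_lit 0x800000000000000000000000]],[[nat_lit 0x400000000000000000000000,nat_lit 0,nat_lit 0,
    nat_lit 0x400000000000000000,nat_lit 0x280000000000000000,nat_lit 0,nat_lit 0x800000000000000000,
    nat_lit 0x10000000000000000,nat_lit 0x10000000000000000],[nat_lit 0x10000000000000000,nat_lit 0x10000000000000000,
    nat_lit 0x80000000000000000000000000000,nat_lit 0x10000000000000000000000000000,
    nat_lit 0xc000000000000000000000000000,nat_lit 0,nat_lit 0x20000000000000000000000000000,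
    nat_lit 0x1000000000000000000000000000,nat_lit 0x1000000000000000000000000000],[nat_lit 0,nat_lit 0,
    nat_lit 0xc0000000000000000000000,nat_lit 0x1000000000000000000000,nat_lit 0x1000000000000000000000,
    nat_lit 0x4000000000000000000000,nat_lit 0x2000000000000000000000,nat_lit 0x10000000000000000000000,nat_lit 0],
    [nat_lit 0,nat_lit 0x8010000000000000000000000000000000000,nat_lit 0,
    nat_lit 0x2080000000000000000000000000000000000,nat_lit 0,nat_lit 0,nat_lit 0x1000000000000000000000000000000000,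
    nat_lit 0xa48000000000000000000000000000000000,nat_lit 0x40000000000000000000000000],
    [nat_lit 0x40000000000000000000000000,nat_lit 0x800000000000000000000000000,nat_lit 0x400000000000000000000000000,
    nat_lit 0x400000000000000000000000000,nat_lit 0x400000000000000000000000000,nat_lit 0x400000000000000000000000000,
    nat_lit 0,nat_lit 0,nat_lit 0],[nat_lit 0,nat_lit 0,nat_lit 0x10000000000000000000000000,
    nat_lit 0x10000000000000000000000000,nat_lit 0,nat_lit 0,nat_lit 0,nat_lit 0,nat_lit 0],[nat_lit 0,nat_lit 0,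
    nat_lit 0x100000000000000000000000000000000000000000,nat_lit 0x100000000000000000000000000000000000000000,
    nat_lit 0x280800000000000000000000000000000000000000000,nat_lit 0x280800000000000000000000000000000000000000000,
    nat_lit 0x280800000000000000000000000000000000000000000,nat_lit 0x12000000000000000000000000000000000000000000,
    nat_lit 0x12000000000000000000000000000000000000000000],[nat_lit 0x12000000000000000000000000000000000000000000,
    nat_lit 0x12000000000000000000000000000000000000000000,nat_lit 0x12000000000000000000000000000000000000000000,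
    nat_lit 0x12000000000000000000000000000000000000000000,nat_lit 0,nat_lit 0,
    nat_lit 0x42100000000000000000000000000000,nat_lit 0x42100000000000000000000000000000,
    nat_lit 0x42100000000000000000000000000000],[nat_lit 0,nat_lit 0,nat_lit 0,nat_lit 0,nat_lit 0,
    nat_lit 0xd11200000000000000000000000000000,nat_lit 0xd11200000000000000000000000000000,nat_lit 0,nat_lit 0]],
    [[nat_lit 0x84000000000000000000000000000000,nat_lit 0,
    nat_lit 0x4000000000000000000000000000000000000000000000000,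
    nat_lit 0x4000000000000000000000000000000000000000000000000,nat_lit 0,nat_lit 0,
    nat_lit 0x1000000000000000000000000000000000000000000000000000,
    nat_lit 0x1000000000000000000000000000000000000000000000000000,
    nat_lit 0x800000000000000000000000000000000000000000000000000],
    [nat_lit 0x800000000000000000000000000000000000000000000000000,
    nat_lit 0x800000000000000000000000000000000000000000000000000,
    nat_lit 0x800000000000000000000000000000000000000000000000000,nat_lit 0,nat_lit 0,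
    nat_lit 0x363000000000000000000000000000000000000000000000000,
    nat_lit 0x363000000000000000000000000000000000000000000000000,nat_lit 0,
    nat_lit 0x42000000000000000000000000000000000000000],[nat_lit 0,
    nat_lit 0x14030000000000000000000000000000000000000,nat_lit 0,nat_lit 0x880000000000000000000000000000000000000,
    nat_lit 0x880000000000000000000000000000000000000,nat_lit 0x880000000000000000000000000000000000000,
    nat_lit 0x880000000000000000000000000000000000000,nat_lit 0x880000000000000000000000000000000000000,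
    nat_lit 0x880000000000000000000000000000000000000],[nat_lit 0,nat_lit 0,
    nat_lit 0x28000000000000000000000000000000000000000,nat_lit 0x21000,nat_lit 0x21000,nat_lit 0,nat_lit 0x2c0000,
    nat_lit 0x8000,nat_lit 0x8000],[nat_lit 0x4000,nat_lit 0x4000,nat_lit 0x4000,nat_lit 0x4000,nat_lit 0x800,
    nat_lit 0x100000,nat_lit 0x10000,nat_lit 0x10000]]]
    [[[[nat_lit 0,nat_lit 0,nat_lit 0,nat_lit 0,nat_lit 0,nat_lit 0x8000000000000000000000000000000000000000000000,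
    nat_lit 0,nat_lit 0x2000000000000000000000000000000000000000000000,nat_lit 0],[nat_lit 0,nat_lit 0,nat_lit 0,
    nat_lit 0,nat_lit 0,nat_lit 0x4800000000000000,nat_lit 0,nat_lit 0,nat_lit 0],[nat_lit 0,nat_lit 0x8000000000000,
    nat_lit 0,nat_lit 0,nat_lit 32,nat_lit 0,nat_lit 0,nat_lit 32,nat_lit 0],[nat_lit 0,nat_lit 0,nat_lit 0,nat_lit 0,
    nat_lit 0,nat_lit 0,nat_lit 0,nat_lit 0,nat_lit 8],[nat_lit 0,nat_lit 0,nat_lit 0,nat_lit 0,nat_lit 0,nat_lit 0,
    nat_lit 0,nat_lit 0,nat_lit 0],[nat_lit 0,nat_lit 0,nat_lit 0,nat_lit 0x8000000000000000000,nat_lit 0,nat_lit 0,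
    nat_lit 0x8000000000000000000,nat_lit 0,nat_lit 0],[nat_lit 0,nat_lit 0,nat_lit 0,nat_lit 0,nat_lit 0,
    nat_lit 0x200000000000000000000,nat_lit 0,nat_lit 0,nat_lit 0],[nat_lit 0,nat_lit 0x1800000000,nat_lit 0,
    nat_lit 0,nat_lit 0,nat_lit 0,nat_lit 0,nat_lit 0x2000000,nat_lit 0],[nat_lit 0,nat_lit 0,nat_lit 0,
    nat_lit 0xc100000000000000000000000,nat_lit 0,nat_lit 0,nat_lit 0,nat_lit 0,nat_lit 0]],
    [[nat_lit 0x400000000000000000000000,nat_lit 0,nat_lit 0,nat_lit 0x400000000000000000,nat_lit 0,nat_lit 0,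
    nat_lit 0,nat_lit 0x10000000000000000,nat_lit 0x10000000000000000],[nat_lit 0x10000000000000000,nat_lit 0,
    nat_lit 0x80000000000000000000000000000,nat_lit 0,nat_lit 0x8000000000000000000000000000,nat_lit 0,nat_lit 0,
    nat_lit 0,nat_lit 0],[nat_lit 0,nat_lit 0,nat_lit 0,nat_lit 0x1000000000000000000000,nat_lit 0,nat_lit 0,
    nat_lit 0,nat_lit 0x10000000000000000000000,nat_lit 0],[nat_lit 0,nat_lit 0,nat_lit 0,
    nat_lit 0x2000000000000000000000000000000000000,nat_lit 0,nat_lit 0,nat_lit 0,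
    nat_lit 0x200000000000000000000000000000000000,nat_lit 0],[nat_lit 0x40000000000000000000000000,nat_lit 0,
    nat_lit 0,nat_lit 0,nat_lit 0x400000000000000000000000000,nat_lit 0,nat_lit 0,nat_lit 0,nat_lit 0],[nat_lit 0,
    nat_lit 0,nat_lit 0,nat_lit 0,nat_lit 0,nat_lit 0,nat_lit 0,nat_lit 0,nat_lit 0],[nat_lit 0,nat_lit 0,nat_lit 0,
    nat_lit 0,nat_lit 0,nat_lit 0,nat_lit 0x200800000000000000000000000000000000000000000,nat_lit 0,nat_lit 0],
    [nat_lit 0,nat_lit 0x10000000000000000000000000000000000000000000,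
    nat_lit 0x10000000000000000000000000000000000000000000,nat_lit 0x10000000000000000000000000000000000000000000,
    nat_lit 0,nat_lit 0,nat_lit 0x2000000000000000000000000000000,nat_lit 0x2000000000000000000000000000000,
    nat_lit 0],[nat_lit 0,nat_lit 0,nat_lit 0,nat_lit 0,nat_lit 0,nat_lit 0x500200000000000000000000000000000,
    nat_lit 0,nat_lit 0,nat_lit 0]],[[nat_lit 0,nat_lit 0,nat_lit 0,nat_lit 0,nat_lit 0,nat_lit 0,nat_lit 0,nat_lit 0,
    nat_lit 0],[nat_lit 0,nat_lit 0x800000000000000000000000000000000000000000000000000,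
    nat_lit 0x800000000000000000000000000000000000000000000000000,nat_lit 0,nat_lit 0,nat_lit 0,
    nat_lit 0x2000000000000000000000000000000000000000000000000,nat_lit 0,nat_lit 0],[nat_lit 0,
    nat_lit 0x4020000000000000000000000000000000000000,nat_lit 0,nat_lit 0,
    nat_lit 0x80000000000000000000000000000000000000,nat_lit 0,nat_lit 0,nat_lit 0,nat_lit 0],[nat_lit 0,nat_lit 0,
    nat_lit 0,nat_lit 0,nat_lit 0,nat_lit 0,nat_lit 0,nat_lit 0,nat_lit 0],[nat_lit 0x4000,nat_lit 0,nat_lit 0,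
    nat_lit 0,nat_lit 0,nat_lit 0x100000,nat_lit 0,nat_lit 0]]]]
    (nat_lit 1) (nat_lit 2) (nat_lit 18)
    [[nat_lit 2,nat_lit 18,nat_lit 17,nat_lit 33,nat_lit 273,nat_lit 0x1011,nat_lit 0x10011,nat_lit 0x100011,
    nat_lit 0x100111,nat_lit 0x110011,nat_lit 0x1000011,nat_lit 0x10000011,nat_lit 0x1001,nat_lit 0x1002,
    nat_lit 0x1101,nat_lit 0x11001,nat_lit 0x101001,nat_lit 0x10001001,nat_lit 0x10001101,nat_lit 0x100001,
    nat_lit 0x100101,nat_lit 0x110001,nat_lit 0x1000001,nat_lit 0x10000001],[nat_lit 32,nat_lit 0x100020,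
    nat_lit 0x1000020,nat_lit 0x10000020,nat_lit 272,nat_lit 528,nat_lit 0x10110,nat_lit 0x1000110,nat_lit 0x100110,
    nat_lit 0x10000110,nat_lit 0x1010,nat_lit 0x10001010,nat_lit 0x10011010,nat_lit 0x1001010,nat_lit 0x10010,
    nat_lit 0x20010,nat_lit 0x110010,nat_lit 0x1010010,nat_lit 0x10010010,nat_lit 0x100010,nat_lit 0x1100110,
    nat_lit 0x1110010,nat_lit 0x10110010,nat_lit 0x1100010,nat_lit 0x10100010,nat_lit 0x1000010,nat_lit 0x2000010,
    nat_lit 0x11000010,nat_lit 0x10000010,nat_lit 0x20000010],[nat_lit 512,nat_lit 0x100200,nat_lit 0x1000200,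
    nat_lit 0x10100,nat_lit 0x110100,nat_lit 0x1010100,nat_lit 0x100100,nat_lit 0x200100,nat_lit 0x10100100,
    nat_lit 0x1100100,nat_lit 0x1000100,nat_lit 0x2000100,nat_lit 0x1001100,nat_lit 0x11001100,nat_lit 0x11000100],
    [nat_lit 0x2000,nat_lit 0x1011000,nat_lit 0x10011000,nat_lit 0x101000,nat_lit 0x1101000,nat_lit 0x10101000,
    nat_lit 0x1001000,nat_lit 0x2001000,nat_lit 0x11001000,nat_lit 0x10001000,nat_lit 0x11101000,nat_lit 0x12001000,
    nat_lit 0x20001000],[nat_lit 0x20000,nat_lit 0x120000,nat_lit 0x1020000,nat_lit 0x110000,nat_lit 0x210000,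
    nat_lit 0x1110000,nat_lit 0x10110000,nat_lit 0x220000,nat_lit 0x1010000,nat_lit 0x2010000],[nat_lit 0x200000,
    nat_lit 0x1200000,nat_lit 0x1100000,nat_lit 0x10100000,nat_lit 0x10200000,nat_lit 0x11100000,nat_lit 0x20100000],
    [nat_lit 0x2000000,nat_lit 0x3000000,nat_lit 0x11000000],[nat_lit 0x20000000]]
    [.c (nat_lit 1) (nat_lit 2),.c (nat_lit 0) (nat_lit 0x500060600d),.c (nat_lit 0) (nat_lit 0x1000201005),
    .c (nat_lit 1) (nat_lit 0x300802),.c (nat_lit 0) (nat_lit 0xa300c04),.c (nat_lit 0) (nat_lit 0x500066300d),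
    .c (nat_lit 0) (nat_lit 0x140300c04),.c (nat_lit 0) (nat_lit 0x2000202805),.c (nat_lit 0) (nat_lit 0x181a70340c),
    .c (nat_lit 0) (nat_lit 0x1b4070340c),.c (nat_lit 7) (nat_lit 0x18c6319442),.c (nat_lit 0) (nat_lit 0x500060300d),
    .c (nat_lit 1) (nat_lit 0x18802),.c (nat_lit 7) (nat_lit 0x294a33a482),.c (nat_lit 0) (nat_lit 0x6018002),
    .c (nat_lit 0) (nat_lit 0xc0018002),.c (nat_lit 0) (nat_lit 0x1000011003),.c (nat_lit 7) (nat_lit 0x294a339c82),
    .c (nat_lit 0) (nat_lit 0x6018802),.c (nat_lit 0) (nat_lit 0x1000001803),.c (nat_lit 7) (nat_lit 0x1946328c83),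
    .c (nat_lit 7) (nat_lit 0x18ca328c83),.c (nat_lit 0) (nat_lit 0x1b5a76818d),.c (nat_lit 1) (nat_lit 0x802),
    .c (nat_lit 2) (nat_lit 2),.c (nat_lit 0) (nat_lit 0x1000600003),.c (nat_lit 0) (nat_lit 0x1b5a66b58d),
    .c (nat_lit 1) (nat_lit 0x301002),.c (nat_lit 0) (nat_lit 0x4200003),.c (nat_lit 0) (nat_lit 0x1012300004),
    .c (nat_lit 0) (nat_lit 0x114a300004),.c (nat_lit 0) (nat_lit 0x1080210862),
    .r (nat_lit 0xdb2) (nat_lit 3) [nat_lit 0x1000200001,nat_lit 0x1800300861],.c (nat_lit 0) (nat_lit 0x6000002),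
    .c (nat_lit 0) (nat_lit 0x1000220005),.c (nat_lit 0) (nat_lit 0x500066000d),.c (nat_lit 0) (nat_lit 0xc0218002),
    .c (nat_lit 7) (nat_lit 0x18c6328c42),.c (nat_lit 0) (nat_lit 0x80200003),.c (nat_lit 0) (nat_lit 0x1240300004),
    .r (nat_lit 0xdb2) (nat_lit 3) [nat_lit 0x1000200001,nat_lit 0xc0300861],.c (nat_lit 0) (nat_lit 0x1004210862),
    .c (nat_lit 0) (nat_lit 0xc0000002),.c (nat_lit 0) (nat_lit 0x1000600003),.c (nat_lit 1) (nat_lit 0xc0018843),
    .c (nat_lit 1) (nat_lit 0x6018843),.c (nat_lit 0) (nat_lit 0x1b4070000c),.c (nat_lit 0) (nat_lit 0xc6218c43),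
    .c (nat_lit 0) (nat_lit 0x1000400003),.c (nat_lit 1) (nat_lit 0x1084011862),
    .r (nat_lit 0xdb2) (nat_lit 3) [nat_lit 0x1000200001,nat_lit 0x21080220c41],.c (nat_lit 7) (nat_lit 0x18c6318c42),
    .c (nat_lit 0) (nat_lit 0x1000200005),.c (nat_lit 0) (nat_lit 0x500060000d),.c (nat_lit 3) (nat_lit 2),
    .c (nat_lit 0) (nat_lit 0x201a000006),.c (nat_lit 0) (nat_lit 0x21062210a4),.c (nat_lit 1) (nat_lit 0x84001003),
    .c (nat_lit 0) (nat_lit 0x21ce000006),.c (nat_lit 0) (nat_lit 0x20042210a4),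
    .r (nat_lit 0xdbb) (nat_lit 2) [nat_lit 0x10c0000041,nat_lit 0x80010001],
    .r (nat_lit 0xdb2) (nat_lit 3) [nat_lit 0x1000200001,nat_lit 0x28c6501062],.c (nat_lit 7) (nat_lit 0x1946329483),
    .c (nat_lit 0) (nat_lit 0x53006631ac),.c (nat_lit 0) (nat_lit 0x21062210a4),.c (nat_lit 0) (nat_lit 0x21062210a2),
    .c (nat_lit 0) (nat_lit 0x210e2010a4),.c (nat_lit 0) (nat_lit 0x21162010a4),.c (nat_lit 0) (nat_lit 0x210e2210a4),
    .c (nat_lit 4) (nat_lit 2),.c (nat_lit 0) (nat_lit 0x20082310a4),.c (nat_lit 0) (nat_lit 0xc0000002),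
    .c (nat_lit 0) (nat_lit 0x1000030003),.c (nat_lit 0) (nat_lit 0x14a311485),.c (nat_lit 0) (nat_lit 0x1000020003),
    .c (nat_lit 0) (nat_lit 0x1b5a70358d),.r (nat_lit 0xdbb) (nat_lit 2) [nat_lit 0x31946329061,nat_lit 0x80010001],
    .r (nat_lit 0xdb2) (nat_lit 3) [nat_lit 0x1000200001,nat_lit 0x310041],.c (nat_lit 1) (nat_lit 0x19002),
    .c (nat_lit 0) (nat_lit 0x1082110a4),.r (nat_lit 0xbcf) (nat_lit 7) [nat_lit 0x1000000001,nat_lit 0x2946319061,
    nat_lit 0x1004000001,nat_lit 0x80010001,nat_lit 0x80200001],.c (nat_lit 7) (nat_lit 0x294a339482),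
    .c (nat_lit 5) (nat_lit 2),.c (nat_lit 0) (nat_lit 0x2340000006),.c (nat_lit 0) (nat_lit 0x20c82210a4),
    .r (nat_lit 0xdbb) (nat_lit 2) [nat_lit 65,nat_lit 0x80010001],
    .r (nat_lit 0xdb2) (nat_lit 3) [nat_lit 0x1000200001,nat_lit 0x1946501062],.c (nat_lit 0) (nat_lit 0x50186631ac),
    .c (nat_lit 7) (nat_lit 0x18ca329483),.c (nat_lit 0) (nat_lit 0x2340000006),.c (nat_lit 0) (nat_lit 0x20c82210a4),
    .c (nat_lit 0) (nat_lit 0x20c82210a2),.c (nat_lit 6) (nat_lit 2),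
    .r (nat_lit 0xc1d) (nat_lit 7) [nat_lit 0x3000000001,nat_lit 0x22104421481,nat_lit 0x54a4a94a061,
    nat_lit 0x180030001,nat_lit 0x21a44318861],.c (nat_lit 0) (nat_lit 0x194a329485),
    .c (nat_lit 0) (nat_lit 0x1000000007),.r (nat_lit 0xbcf) (nat_lit 7) [nat_lit 0x1000000001,nat_lit 0x10041,
    nat_lit 0x1004000001,nat_lit 0x80010001,nat_lit 0x80200001],.c (nat_lit 0) (nat_lit 0x1b5a76b58d),
    .c (nat_lit 0) (nat_lit 0x2000000007),.c (nat_lit 7) (nat_lit 2),
    .r (nat_lit 0xc1d) (nat_lit 7) [nat_lit 0x3000000001,nat_lit 0x76b4ed6b0a1,nat_lit 65,nat_lit 0x180030001,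
    nat_lit 0x6300c631c41],.c (nat_lit 0) (nat_lit 0x1b5a76b58d),.c (nat_lit 8) (nat_lit 2)]]

/-- nodes -/
noncomputable def rD8k_5_5 : List RJ :=
  [.s (nat_lit 17) (nat_lit 0x7800) (nat_lit 5) (nat_lit 0x3163000031630000399f0000399f0000313300002fcb0000304b000035930000374700003747000036db00002db300002fd700002fd7000033fb00002ecb) (nat_lit 0x83c0000083c0000000000000000000009d40000086c0000040c00000954000002580000025800000bec000002c4000009c8000009c800000ad4000005a4)
    (nat_lit 0x14938a55c62c63163162b8923c281e237723818c28c4aee16d713cd895cc4d1e2bd714938a49c62c631630a478a3dc5aae280f235d8c16c4a8e3f8f1295894ac4d1e140f18b18c58c733e399f17e58c4cc6886434b132b8dd1c60461f2b23c38c01c5d96366b18b18c58c733e399f1a198c4cc6826431b1a238d71c5b662d7b23ab8bf5c666633fb147b8923c626631330a478a31c5d4e23771c1d8c16c4a8e316f13b589dac4cbe140f0a478b15c68662fcb12fb8523c60de267719118a90c3e5e2e5715598b0cc531e258f140788ddc8636434b133b88ddc5ede26f716518a50c3c5e28d7158d8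accc415e25f716ab8503c6826344318378ba9c630e2f6f199d8ccec534e32cf15258af2c524e2fef182d8c28c6b8e374715218c16c667629431a778d3bc56b6348316bf8b5fc8b763323235d91c0c688e265719118e0ec66762ca31a778d3bc517634830e2f8717c887631a31fc785b5c5af61f2b172b8c5bc659e28d71a418d20c781e341716898becc281e425712a3895dc5b6630230f978951c534e1e2f145d8ad6c438e3c0f11f588fac4a0e280f1295895cc5fae3007161989dac57962b330e2f8b5fc47d62fb313078983c4a062a33129589e6c8eae4787155989dac54962b1b0e2f8b5fc47d62d1313078983c49d62a330a078af5c67f6366b12c78503c5fde25f718d18cc8c501e425715198a8cc524e2e57134789a3c66662ecb14c78997c524e20af221d916ec4a0e140f12758940c478e2927)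
    (nat_lit 0x14939e000f00078003c001e000f00078003c001e000f00078003c001e000f000780014ab8a49cf00078003c001e000f00078003c001e000f00078003c001e000f000780018b18c58c733e78003c001e000f00078003c001e000f00078003c001e000f000780018b18c58c733e399f3c001e000f00078003c001e000f00078003c001e000f0007800162b8523c5f9634330a479e000f00078003c001e000f00078003c001e000f000780012478a3dc6266313314638523cf00078003c001e000f00078003c001e000f00078000a078b55c6886341317538a2785ede78003c001e000f00078003c001e000f000780011bb8a03c8696431b11bb899dc4dee2f6f3c001e000f00078003c001e000f0007800205911aec4cae34471c1d8c88c5946333b1a779e000f00078003c001e000f000780018518c16c6e8e35c7182d8a90c5286333b1a778d3bcf00078003c001e000f000780012bb8951c60462db312a387cbc3c5e29a715ad8a2ec781e78003c001e000f00078000b6b8fe3c3e562d7b18b78ad9851ae32cf1a418d20c682e3c0f3c001e000f000780013cd894ac862c475713b58aacc56362a4b16bf8717c5a2623eb13079e000f000780012b9894ac600e2fd713b58b0cc56662bcb16bf8717c5f6623eb13078983cf0007800134789a3c5d963333132f8a63c415e29271fb50f328281e25071281893ac524e780015eb8503c6cd633fb0a078963c4bee281e19918c68c55cc280f15198a8cc5cae2927)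
    (nat_lit 6) (nat_lit 214)
    [[nat_lit 0,nat_lit 0,nat_lit 0,nat_lit 4],[nat_lit 0,nat_lit 0,nat_lit 4,nat_lit 0],[nat_lit 0,nat_lit 0,
    nat_lit 4,nat_lit 14],[nat_lit 0,nat_lit 0,nat_lit 5,nat_lit 14],[nat_lit 0,nat_lit 1,nat_lit 0,nat_lit 4],
    [nat_lit 0,nat_lit 1,nat_lit 5,nat_lit 1],[nat_lit 0,nat_lit 1,nat_lit 5,nat_lit 14],[nat_lit 0,nat_lit 1,
    nat_lit 15,nat_lit 4],[nat_lit 0,nat_lit 4,nat_lit 0,nat_lit 0],[nat_lit 0,nat_lit 4,nat_lit 0,nat_lit 1],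
    [nat_lit 0,nat_lit 4,nat_lit 0,nat_lit 14],[nat_lit 0,nat_lit 4,nat_lit 1,nat_lit 14],[nat_lit 0,nat_lit 4,
    nat_lit 1,nat_lit 15],[nat_lit 0,nat_lit 4,nat_lit 2,nat_lit 11],[nat_lit 0,nat_lit 4,nat_lit 3,nat_lit 10],
    [nat_lit 0,nat_lit 4,nat_lit 8,nat_lit 11],[nat_lit 0,nat_lit 4,nat_lit 11,nat_lit 3],[nat_lit 0,nat_lit 4,
    nat_lit 14,nat_lit 0],[nat_lit 0,nat_lit 4,nat_lit 14,nat_lit 11,nat_lit 11],[nat_lit 0,nat_lit 4,nat_lit 14,
    nat_lit 14],[nat_lit 0,nat_lit 4,nat_lit 15,nat_lit 14],[nat_lit 0,nat_lit 5,nat_lit 1,nat_lit 14],[nat_lit 0,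
    nat_lit 5,nat_lit 1,nat_lit 15],[nat_lit 0,nat_lit 5,nat_lit 14,nat_lit 0],[nat_lit 0,nat_lit 5,nat_lit 14,
    nat_lit 14],[nat_lit 0,nat_lit 6],[nat_lit 0,nat_lit 7],[nat_lit 0,nat_lit 9,nat_lit 4,nat_lit 11],[nat_lit 0,
    nat_lit 10,nat_lit 5,nat_lit 14,nat_lit 11],[nat_lit 0,nat_lit 10,nat_lit 12],[nat_lit 0,nat_lit 10,nat_lit 15,
    nat_lit 4,nat_lit 11],[nat_lit 0,nat_lit 12,nat_lit 11],[nat_lit 0,nat_lit 13,nat_lit 11],[nat_lit 0,nat_lit 14,
    nat_lit 0,nat_lit 4],[nat_lit 0,nat_lit 14,nat_lit 5,nat_lit 14],[nat_lit 0,nat_lit 15,nat_lit 4,nat_lit 14],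
    [nat_lit 0,nat_lit 15,nat_lit 5,nat_lit 14],[nat_lit 1,nat_lit 1,nat_lit 1,nat_lit 5],[nat_lit 1,nat_lit 1,
    nat_lit 5,nat_lit 1],[nat_lit 1,nat_lit 1,nat_lit 15,nat_lit 4],[nat_lit 1,nat_lit 1,nat_lit 15,nat_lit 5],
    [nat_lit 1,nat_lit 2,nat_lit 10,nat_lit 5],[nat_lit 1,nat_lit 5,nat_lit 1,nat_lit 1],[nat_lit 1,nat_lit 5,
    nat_lit 1,nat_lit 15],[nat_lit 1,nat_lit 6],[nat_lit 1,nat_lit 7],[nat_lit 1,nat_lit 10,nat_lit 3,nat_lit 5],
    [nat_lit 1,nat_lit 10,nat_lit 5,nat_lit 8],[nat_lit 1,nat_lit 10,nat_lit 5,nat_lit 14,nat_lit 11],[nat_lit 1,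
    nat_lit 10,nat_lit 9,nat_lit 5],[nat_lit 1,nat_lit 10,nat_lit 10,nat_lit 15,nat_lit 5],[nat_lit 1,nat_lit 10,
    nat_lit 12],[nat_lit 1,nat_lit 10,nat_lit 13],[nat_lit 1,nat_lit 10,nat_lit 15,nat_lit 4,nat_lit 11],[nat_lit 1,
    nat_lit 11,nat_lit 2,nat_lit 5],[nat_lit 1,nat_lit 13,nat_lit 11],[nat_lit 1,nat_lit 15,nat_lit 1,nat_lit 5],
    [nat_lit 1,nat_lit 15,nat_lit 4,nat_lit 1],[nat_lit 1,nat_lit 15,nat_lit 4,nat_lit 14],[nat_lit 1,nat_lit 15,
    nat_lit 4,nat_lit 15],[nat_lit 1,nat_lit 15,nat_lit 5,nat_lit 1],[nat_lit 1,nat_lit 15,nat_lit 5,nat_lit 14],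
    [nat_lit 1,nat_lit 15,nat_lit 14,nat_lit 5],[nat_lit 1,nat_lit 15,nat_lit 15,nat_lit 4],[nat_lit 1,nat_lit 15,
    nat_lit 15,nat_lit 5],[nat_lit 2,nat_lit 2,nat_lit 4],[nat_lit 2,nat_lit 4,nat_lit 2],[nat_lit 2,nat_lit 4,
    nat_lit 3],[nat_lit 2,nat_lit 4,nat_lit 8],[nat_lit 2,nat_lit 5,nat_lit 3],[nat_lit 2,nat_lit 5,nat_lit 8],
    [nat_lit 2,nat_lit 5,nat_lit 14,nat_lit 11],[nat_lit 2,nat_lit 9,nat_lit 4],[nat_lit 2,nat_lit 10,nat_lit 15,
    nat_lit 4],[nat_lit 2,nat_lit 12],[nat_lit 2,nat_lit 13],[nat_lit 3,nat_lit 3,nat_lit 5],[nat_lit 3,nat_lit 5,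
    nat_lit 3],[nat_lit 3,nat_lit 5,nat_lit 8],[nat_lit 3,nat_lit 5,nat_lit 14,nat_lit 11],[nat_lit 3,nat_lit 9,
    nat_lit 4],[nat_lit 3,nat_lit 9,nat_lit 5],[nat_lit 3,nat_lit 10,nat_lit 15,nat_lit 4],[nat_lit 3,nat_lit 12],
    [nat_lit 3,nat_lit 13],[nat_lit 4,nat_lit 8,nat_lit 9],[nat_lit 4,nat_lit 9,nat_lit 9],[nat_lit 4,nat_lit 10,
    nat_lit 15,nat_lit 9],[nat_lit 5,nat_lit 8,nat_lit 8],[nat_lit 5,nat_lit 8,nat_lit 9],[nat_lit 5,nat_lit 8,
    nat_lit 14,nat_lit 11],[nat_lit 6,nat_lit 10,nat_lit 10],[nat_lit 6,nat_lit 10,nat_lit 11],[nat_lit 6,nat_lit 11,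
    nat_lit 11],[nat_lit 6,nat_lit 14],[nat_lit 6,nat_lit 15],[nat_lit 7,nat_lit 10,nat_lit 10],[nat_lit 7,nat_lit 10,
    nat_lit 11],[nat_lit 7,nat_lit 11,nat_lit 11],[nat_lit 7,nat_lit 14],[nat_lit 7,nat_lit 15],[nat_lit 8,
    nat_lit 12],[nat_lit 8,nat_lit 13],[nat_lit 9,nat_lit 12],[nat_lit 9,nat_lit 13],[nat_lit 10,nat_lit 10,
    nat_lit 10,nat_lit 12],[nat_lit 10,nat_lit 10,nat_lit 10,nat_lit 13],[nat_lit 10,nat_lit 10,nat_lit 12,
    nat_lit 10],[nat_lit 10,nat_lit 10,nat_lit 12,nat_lit 11],[nat_lit 10,nat_lit 10,nat_lit 13,nat_lit 10],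
    [nat_lit 10,nat_lit 10,nat_lit 13,nat_lit 11],[nat_lit 10,nat_lit 11,nat_lit 10,nat_lit 12],[nat_lit 10,
    nat_lit 11,nat_lit 13,nat_lit 11],[nat_lit 10,nat_lit 12,nat_lit 10,nat_lit 10],[nat_lit 10,nat_lit 12,nat_lit 10,
    nat_lit 11],[nat_lit 10,nat_lit 12,nat_lit 11,nat_lit 10],[nat_lit 10,nat_lit 12,nat_lit 11,nat_lit 11],
    [nat_lit 10,nat_lit 12,nat_lit 14],[nat_lit 10,nat_lit 12,nat_lit 15],[nat_lit 10,nat_lit 13,nat_lit 10,
    nat_lit 10],[nat_lit 10,nat_lit 13,nat_lit 11,nat_lit 10],[nat_lit 10,nat_lit 13,nat_lit 11,nat_lit 11],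
    [nat_lit 10,nat_lit 14,nat_lit 12],[nat_lit 10,nat_lit 14,nat_lit 13],[nat_lit 10,nat_lit 15,nat_lit 12],
    [nat_lit 10,nat_lit 15,nat_lit 13],[nat_lit 11,nat_lit 11,nat_lit 11,nat_lit 12],[nat_lit 11,nat_lit 11,
    nat_lit 11,nat_lit 13],[nat_lit 11,nat_lit 11,nat_lit 12,nat_lit 11],[nat_lit 11,nat_lit 11,nat_lit 13,
    nat_lit 11],[nat_lit 11,nat_lit 12,nat_lit 11,nat_lit 11],[nat_lit 11,nat_lit 12,nat_lit 14],[nat_lit 11,
    nat_lit 12,nat_lit 15],[nat_lit 11,nat_lit 13,nat_lit 11,nat_lit 11],[nat_lit 11,nat_lit 13,nat_lit 14],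
    [nat_lit 11,nat_lit 13,nat_lit 15],[nat_lit 11,nat_lit 14,nat_lit 13],[nat_lit 11,nat_lit 15,nat_lit 13]]
    [nat_lit 0x10004,nat_lit 0x10040,nat_lit 0x1004e,nat_lit 0x1005e,nat_lit 0x10104,nat_lit 0x10151,nat_lit 0x1015e,
    nat_lit 0x101f4,nat_lit 0x10400,nat_lit 0x10401,nat_lit 0x1040e,nat_lit 0x1041e,nat_lit 0x1041f,nat_lit 0x1042b,
    nat_lit 0x1043a,nat_lit 0x1048b,nat_lit 0x104b3,nat_lit 0x104e0,nat_lit 0x104ebb,nat_lit 0x104ee,nat_lit 0x104fe,
    nat_lit 0x1051e,nat_lit 0x1051f,nat_lit 0x105e0,nat_lit 0x105ee,nat_lit 262,nat_lit 263,nat_lit 0x1094b,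
    nat_lit 0x10a5eb,nat_lit 0x10ac,nat_lit 0x10af4b,nat_lit 0x10cb,nat_lit 0x10db,nat_lit 0x10e04,nat_lit 0x10e5e,
    nat_lit 0x10f4e,nat_lit 0x10f5e,nat_lit 0x11115,nat_lit 0x11151,nat_lit 0x111f4,nat_lit 0x111f5,nat_lit 0x112a5,
    nat_lit 0x11511,nat_lit 0x1151f,nat_lit 278,nat_lit 279,nat_lit 0x11a35,nat_lit 0x11a58,nat_lit 0x11a5eb,
    nat_lit 0x11a95,nat_lit 0x11aaf5,nat_lit 0x11ac,nat_lit 0x11ad,nat_lit 0x11af4b,nat_lit 0x11b25,nat_lit 0x11db,
    nat_lit 0x11f15,nat_lit 0x11f41,nat_lit 0x11f4e,nat_lit 0x11f4f,nat_lit 0x11f51,nat_lit 0x11f5e,nat_lit 0x11fe5,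
    nat_lit 0x11ff4,nat_lit 0x11ff5,nat_lit 0x1224,nat_lit 0x1242,nat_lit 0x1243,nat_lit 0x1248,nat_lit 0x1253,
    nat_lit 0x1258,nat_lit 0x125eb,nat_lit 0x1294,nat_lit 0x12af4,nat_lit 300,nat_lit 301,nat_lit 0x1335,
    nat_lit 0x1353,nat_lit 0x1358,nat_lit 0x135eb,nat_lit 0x1394,nat_lit 0x1395,nat_lit 0x13af4,nat_lit 316,
    nat_lit 317,nat_lit 0x1489,nat_lit 0x1499,nat_lit 0x14af9,nat_lit 0x1588,nat_lit 0x1589,nat_lit 0x158eb,
    nat_lit 0x16aa,nat_lit 0x16ab,nat_lit 0x16bb,nat_lit 366,nat_lit 367,nat_lit 0x17aa,nat_lit 0x17ab,nat_lit 0x17bb,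
    nat_lit 382,nat_lit 383,nat_lit 396,nat_lit 397,nat_lit 412,nat_lit 413,nat_lit 0x1aaac,nat_lit 0x1aaad,
    nat_lit 0x1aaca,nat_lit 0x1aacb,nat_lit 0x1aada,nat_lit 0x1aadb,nat_lit 0x1abac,nat_lit 0x1abdb,nat_lit 0x1acaa,
    nat_lit 0x1acab,nat_lit 0x1acba,nat_lit 0x1acbb,nat_lit 0x1ace,nat_lit 0x1acf,nat_lit 0x1adaa,nat_lit 0x1adba,
    nat_lit 0x1adbb,nat_lit 0x1aec,nat_lit 0x1aed,nat_lit 0x1afc,nat_lit 0x1afd,nat_lit 0x1bbbc,nat_lit 0x1bbbd,
    nat_lit 0x1bbcb,nat_lit 0x1bbdb,nat_lit 0x1bcbb,nat_lit 0x1bce,nat_lit 0x1bcf,nat_lit 0x1bdbb,nat_lit 0x1bde,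
    nat_lit 0x1bdf,nat_lit 0x1bed,nat_lit 0x1bfd]
    [[[nat_lit 0,nat_lit 0,nat_lit 0,nat_lit 4],[nat_lit 0,nat_lit 0,nat_lit 4,nat_lit 0],[nat_lit 0,nat_lit 0,
    nat_lit 4,nat_lit 14],[nat_lit 0,nat_lit 0,nat_lit 5,nat_lit 14],[nat_lit 0,nat_lit 1,nat_lit 0,nat_lit 4],
    [nat_lit 0,nat_lit 1,nat_lit 5,nat_lit 1],[nat_lit 0,nat_lit 1,nat_lit 5,nat_lit 14],[nat_lit 0,nat_lit 1,
    nat_lit 15,nat_lit 4],[nat_lit 0,nat_lit 4,nat_lit 0,nat_lit 0],[nat_lit 0,nat_lit 4,nat_lit 0,nat_lit 1],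
    [nat_lit 0,nat_lit 4,nat_lit 0,nat_lit 14],[nat_lit 0,nat_lit 4,nat_lit 1,nat_lit 14]],[[nat_lit 0,nat_lit 4,
    nat_lit 1,nat_lit 15],[nat_lit 0,nat_lit 4,nat_lit 2,nat_lit 11],[nat_lit 0,nat_lit 4,nat_lit 3,nat_lit 10],
    [nat_lit 0,nat_lit 4,nat_lit 8,nat_lit 11],[nat_lit 0,nat_lit 4,nat_lit 11,nat_lit 3],[nat_lit 0,nat_lit 4,
    nat_lit 14,nat_lit 0],[nat_lit 0,nat_lit 4,nat_lit 14,nat_lit 11,nat_lit 11],[nat_lit 0,nat_lit 4,nat_lit 14,
    nat_lit 14],[nat_lit 0,nat_lit 4,nat_lit 15,nat_lit 14],[nat_lit 0,nat_lit 5,nat_lit 1,nat_lit 14],[nat_lit 0,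
    nat_lit 5,nat_lit 1,nat_lit 15],[nat_lit 0,nat_lit 5,nat_lit 14,nat_lit 0]],[[nat_lit 0,nat_lit 5,nat_lit 14,
    nat_lit 14],[nat_lit 0,nat_lit 6],[nat_lit 0,nat_lit 7],[nat_lit 0,nat_lit 9,nat_lit 4,nat_lit 11],[nat_lit 0,
    nat_lit 10,nat_lit 5,nat_lit 14,nat_lit 11],[nat_lit 0,nat_lit 10,nat_lit 12],[nat_lit 0,nat_lit 10,nat_lit 15,
    nat_lit 4,nat_lit 11],[nat_lit 0,nat_lit 12,nat_lit 11],[nat_lit 0,nat_lit 13,nat_lit 11],[nat_lit 0,nat_lit 14,
    nat_lit 0,nat_lit 4],[nat_lit 0,nat_lit 14,nat_lit 5,nat_lit 14],[nat_lit 0,nat_lit 15,nat_lit 4,nat_lit 14]],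
    [[nat_lit 0,nat_lit 15,nat_lit 5,nat_lit 14],[nat_lit 1,nat_lit 0,nat_lit 1,nat_lit 5],[nat_lit 1,nat_lit 0,
    nat_lit 4,nat_lit 0],[nat_lit 1,nat_lit 1,nat_lit 1,nat_lit 5],[nat_lit 1,nat_lit 1,nat_lit 5,nat_lit 1],
    [nat_lit 1,nat_lit 1,nat_lit 15,nat_lit 4],[nat_lit 1,nat_lit 1,nat_lit 15,nat_lit 5],[nat_lit 1,nat_lit 2,
    nat_lit 10,nat_lit 5],[nat_lit 1,nat_lit 5,nat_lit 1,nat_lit 0],[nat_lit 1,nat_lit 5,nat_lit 1,nat_lit 1],
    [nat_lit 1,nat_lit 5,nat_lit 1,nat_lit 15],[nat_lit 1,nat_lit 5,nat_lit 14,nat_lit 0]],[[nat_lit 1,nat_lit 6],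
    [nat_lit 1,nat_lit 7],[nat_lit 1,nat_lit 10,nat_lit 3,nat_lit 5],[nat_lit 1,nat_lit 10,nat_lit 5,nat_lit 8],
    [nat_lit 1,nat_lit 10,nat_lit 5,nat_lit 14,nat_lit 11],[nat_lit 1,nat_lit 10,nat_lit 9,nat_lit 5],[nat_lit 1,
    nat_lit 10,nat_lit 10,nat_lit 15,nat_lit 5],[nat_lit 1,nat_lit 10,nat_lit 12],[nat_lit 1,nat_lit 10,nat_lit 13],
    [nat_lit 1,nat_lit 10,nat_lit 15,nat_lit 4,nat_lit 11],[nat_lit 1,nat_lit 11,nat_lit 2,nat_lit 5],[nat_lit 1,
    nat_lit 13,nat_lit 11]],[[nat_lit 1,nat_lit 14,nat_lit 0,nat_lit 4],[nat_lit 1,nat_lit 14,nat_lit 0,nat_lit 5],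
    [nat_lit 1,nat_lit 15,nat_lit 0,nat_lit 4],[nat_lit 1,nat_lit 15,nat_lit 0,nat_lit 5],[nat_lit 1,nat_lit 15,
    nat_lit 1,nat_lit 5],[nat_lit 1,nat_lit 15,nat_lit 4,nat_lit 0],[nat_lit 1,nat_lit 15,nat_lit 4,nat_lit 1],
    [nat_lit 1,nat_lit 15,nat_lit 4,nat_lit 14],[nat_lit 1,nat_lit 15,nat_lit 4,nat_lit 15],[nat_lit 1,nat_lit 15,
    nat_lit 5,nat_lit 1],[nat_lit 1,nat_lit 15,nat_lit 5,nat_lit 14],[nat_lit 1,nat_lit 15,nat_lit 14,nat_lit 5]],
    [[nat_lit 1,nat_lit 15,nat_lit 15,nat_lit 4],[nat_lit 1,nat_lit 15,nat_lit 15,nat_lit 5],[nat_lit 2,nat_lit 2,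
    nat_lit 4],[nat_lit 2,nat_lit 4,nat_lit 2],[nat_lit 2,nat_lit 4,nat_lit 3],[nat_lit 2,nat_lit 4,nat_lit 8],
    [nat_lit 2,nat_lit 5,nat_lit 1,nat_lit 11],[nat_lit 2,nat_lit 5,nat_lit 3],[nat_lit 2,nat_lit 5,nat_lit 8],
    [nat_lit 2,nat_lit 5,nat_lit 14,nat_lit 11],[nat_lit 2,nat_lit 9,nat_lit 4],[nat_lit 2,nat_lit 10,nat_lit 5,
    nat_lit 1]],[[nat_lit 2,nat_lit 10,nat_lit 15,nat_lit 4],[nat_lit 2,nat_lit 11,nat_lit 0,nat_lit 4],[nat_lit 2,
    nat_lit 12],[nat_lit 2,nat_lit 13],[nat_lit 3,nat_lit 0,nat_lit 4,nat_lit 11],[nat_lit 3,nat_lit 2,nat_lit 4],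
    [nat_lit 3,nat_lit 2,nat_lit 5],[nat_lit 3,nat_lit 3,nat_lit 5],[nat_lit 3,nat_lit 5,nat_lit 1,nat_lit 10],
    [nat_lit 3,nat_lit 5,nat_lit 3],[nat_lit 3,nat_lit 5,nat_lit 8],[nat_lit 3,nat_lit 5,nat_lit 14,nat_lit 11]],
    [[nat_lit 3,nat_lit 9,nat_lit 4],[nat_lit 3,nat_lit 9,nat_lit 5],[nat_lit 3,nat_lit 10,nat_lit 0,nat_lit 4],
    [nat_lit 3,nat_lit 10,nat_lit 15,nat_lit 4],[nat_lit 3,nat_lit 12],[nat_lit 3,nat_lit 13],[nat_lit 4,nat_lit 0,
    nat_lit 0,nat_lit 0],[nat_lit 4,nat_lit 0,nat_lit 1,nat_lit 0],[nat_lit 4,nat_lit 0,nat_lit 1,nat_lit 15],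
    [nat_lit 4,nat_lit 0,nat_lit 14,nat_lit 0],[nat_lit 4,nat_lit 1,nat_lit 1,nat_lit 15],[nat_lit 4,nat_lit 1,
    nat_lit 14,nat_lit 0]],[[nat_lit 4,nat_lit 1,nat_lit 15,nat_lit 0],[nat_lit 4,nat_lit 1,nat_lit 15,nat_lit 15],
    [nat_lit 4,nat_lit 2,nat_lit 2],[nat_lit 4,nat_lit 2,nat_lit 9],[nat_lit 4,nat_lit 2,nat_lit 10,nat_lit 15],
    [nat_lit 4,nat_lit 2,nat_lit 11,nat_lit 0],[nat_lit 4,nat_lit 3,nat_lit 2],[nat_lit 4,nat_lit 3,nat_lit 9],
    [nat_lit 4,nat_lit 3,nat_lit 10,nat_lit 0],[nat_lit 4,nat_lit 3,nat_lit 10,nat_lit 15],[nat_lit 4,nat_lit 8,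
    nat_lit 2],[nat_lit 4,nat_lit 8,nat_lit 9]],[[nat_lit 4,nat_lit 8,nat_lit 11,nat_lit 0],[nat_lit 4,nat_lit 9,
    nat_lit 9],[nat_lit 4,nat_lit 10,nat_lit 15,nat_lit 9],[nat_lit 4,nat_lit 11,nat_lit 0,nat_lit 9],[nat_lit 4,
    nat_lit 11,nat_lit 0,nat_lit 10,nat_lit 15],[nat_lit 4,nat_lit 11,nat_lit 1,nat_lit 10,nat_lit 15],[nat_lit 4,
    nat_lit 11,nat_lit 3,nat_lit 0],[nat_lit 4,nat_lit 14,nat_lit 0,nat_lit 0],[nat_lit 4,nat_lit 14,nat_lit 0,
    nat_lit 15],[nat_lit 4,nat_lit 14,nat_lit 1,nat_lit 15],[nat_lit 4,nat_lit 14,nat_lit 11,nat_lit 11,nat_lit 0],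
    [nat_lit 4,nat_lit 14,nat_lit 14,nat_lit 0]],[[nat_lit 4,nat_lit 15,nat_lit 1,nat_lit 15],[nat_lit 4,nat_lit 15,
    nat_lit 14,nat_lit 0],[nat_lit 5,nat_lit 1,nat_lit 0,nat_lit 1],[nat_lit 5,nat_lit 1,nat_lit 1,nat_lit 1],
    [nat_lit 5,nat_lit 1,nat_lit 1,nat_lit 15],[nat_lit 5,nat_lit 1,nat_lit 2,nat_lit 10],[nat_lit 5,nat_lit 1,
    nat_lit 10,nat_lit 3],[nat_lit 5,nat_lit 1,nat_lit 10,nat_lit 9],[nat_lit 5,nat_lit 1,nat_lit 10,nat_lit 10,
    nat_lit 15],[nat_lit 5,nat_lit 1,nat_lit 11,nat_lit 2],[nat_lit 5,nat_lit 1,nat_lit 14,nat_lit 0],[nat_lit 5,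
    nat_lit 1,nat_lit 15,nat_lit 0]],[[nat_lit 5,nat_lit 1,nat_lit 15,nat_lit 1],[nat_lit 5,nat_lit 1,nat_lit 15,
    nat_lit 14],[nat_lit 5,nat_lit 1,nat_lit 15,nat_lit 15],[nat_lit 5,nat_lit 3,nat_lit 2],[nat_lit 5,nat_lit 3,
    nat_lit 3],[nat_lit 5,nat_lit 3,nat_lit 9],[nat_lit 5,nat_lit 8,nat_lit 1,nat_lit 10],[nat_lit 5,nat_lit 8,
    nat_lit 2],[nat_lit 5,nat_lit 8,nat_lit 3],[nat_lit 5,nat_lit 8,nat_lit 8],[nat_lit 5,nat_lit 8,nat_lit 9],
    [nat_lit 5,nat_lit 8,nat_lit 14,nat_lit 11]],[[nat_lit 5,nat_lit 14,nat_lit 0,nat_lit 0],[nat_lit 5,nat_lit 14,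
    nat_lit 0,nat_lit 1],[nat_lit 5,nat_lit 14,nat_lit 0,nat_lit 14],[nat_lit 5,nat_lit 14,nat_lit 0,nat_lit 15],
    [nat_lit 5,nat_lit 14,nat_lit 1,nat_lit 15],[nat_lit 5,nat_lit 14,nat_lit 11,nat_lit 0,nat_lit 10],[nat_lit 5,
    nat_lit 14,nat_lit 11,nat_lit 1,nat_lit 10],[nat_lit 5,nat_lit 14,nat_lit 11,nat_lit 2],[nat_lit 5,nat_lit 14,
    nat_lit 11,nat_lit 3],[nat_lit 5,nat_lit 14,nat_lit 14,nat_lit 0],[nat_lit 6,nat_lit 0],[nat_lit 6,nat_lit 1]],
    [[nat_lit 6,nat_lit 10,nat_lit 10],[nat_lit 6,nat_lit 10,nat_lit 11],[nat_lit 6,nat_lit 11,nat_lit 11],[nat_lit 6,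
    nat_lit 14],[nat_lit 6,nat_lit 15],[nat_lit 7,nat_lit 0],[nat_lit 7,nat_lit 1],[nat_lit 7,nat_lit 10,nat_lit 10],
    [nat_lit 7,nat_lit 10,nat_lit 11],[nat_lit 7,nat_lit 11,nat_lit 11],[nat_lit 7,nat_lit 14],[nat_lit 7,
    nat_lit 15]],[[nat_lit 8,nat_lit 1,nat_lit 10,nat_lit 5],[nat_lit 8,nat_lit 2,nat_lit 4],[nat_lit 8,nat_lit 2,
    nat_lit 5],[nat_lit 8,nat_lit 3,nat_lit 5],[nat_lit 8,nat_lit 5,nat_lit 8],[nat_lit 8,nat_lit 8,nat_lit 5],
    [nat_lit 8,nat_lit 9,nat_lit 4],[nat_lit 8,nat_lit 9,nat_lit 5],[nat_lit 8,nat_lit 11,nat_lit 0,nat_lit 4],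
    [nat_lit 8,nat_lit 12],[nat_lit 8,nat_lit 13],[nat_lit 8,nat_lit 14,nat_lit 11,nat_lit 5]],[[nat_lit 9,nat_lit 4,
    nat_lit 2],[nat_lit 9,nat_lit 4,nat_lit 3],[nat_lit 9,nat_lit 4,nat_lit 8],[nat_lit 9,nat_lit 4,nat_lit 9],
    [nat_lit 9,nat_lit 4,nat_lit 10,nat_lit 15],[nat_lit 9,nat_lit 4,nat_lit 11,nat_lit 0],[nat_lit 9,nat_lit 5,
    nat_lit 1,nat_lit 10],[nat_lit 9,nat_lit 5,nat_lit 3],[nat_lit 9,nat_lit 5,nat_lit 8],[nat_lit 9,nat_lit 9,
    nat_lit 4],[nat_lit 9,nat_lit 12],[nat_lit 9,nat_lit 13]],[[nat_lit 10,nat_lit 0,nat_lit 4,nat_lit 3],[nat_lit 10,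
    nat_lit 3,nat_lit 5,nat_lit 1],[nat_lit 10,nat_lit 5,nat_lit 1,nat_lit 2],[nat_lit 10,nat_lit 5,nat_lit 8,
    nat_lit 1],[nat_lit 10,nat_lit 5,nat_lit 14,nat_lit 11,nat_lit 0],[nat_lit 10,nat_lit 5,nat_lit 14,nat_lit 11,
    nat_lit 1],[nat_lit 10,nat_lit 6,nat_lit 10],[nat_lit 10,nat_lit 7,nat_lit 10],[nat_lit 10,nat_lit 9,nat_lit 5,
    nat_lit 1],[nat_lit 10,nat_lit 10,nat_lit 6],[nat_lit 10,nat_lit 10,nat_lit 7],[nat_lit 10,nat_lit 10,nat_lit 10,
    nat_lit 12]],[[nat_lit 10,nat_lit 10,nat_lit 10,nat_lit 13],[nat_lit 10,nat_lit 10,nat_lit 12,nat_lit 10],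
    [nat_lit 10,nat_lit 10,nat_lit 12,nat_lit 11],[nat_lit 10,nat_lit 10,nat_lit 13,nat_lit 10],[nat_lit 10,
    nat_lit 10,nat_lit 13,nat_lit 11],[nat_lit 10,nat_lit 10,nat_lit 15,nat_lit 5,nat_lit 1],[nat_lit 10,nat_lit 11,
    nat_lit 6],[nat_lit 10,nat_lit 11,nat_lit 7],[nat_lit 10,nat_lit 11,nat_lit 10,nat_lit 12],[nat_lit 10,nat_lit 11,
    nat_lit 13,nat_lit 11],[nat_lit 10,nat_lit 12,nat_lit 0],[nat_lit 10,nat_lit 12,nat_lit 1]],[[nat_lit 10,
    nat_lit 12,nat_lit 10,nat_lit 10],[nat_lit 10,nat_lit 12,nat_lit 10,nat_lit 11],[nat_lit 10,nat_lit 12,nat_lit 11,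
    nat_lit 10],[nat_lit 10,nat_lit 12,nat_lit 11,nat_lit 11],[nat_lit 10,nat_lit 12,nat_lit 14],[nat_lit 10,
    nat_lit 12,nat_lit 15],[nat_lit 10,nat_lit 13,nat_lit 1],[nat_lit 10,nat_lit 13,nat_lit 10,nat_lit 10],
    [nat_lit 10,nat_lit 13,nat_lit 11,nat_lit 10],[nat_lit 10,nat_lit 13,nat_lit 11,nat_lit 11],[nat_lit 10,
    nat_lit 14,nat_lit 12],[nat_lit 10,nat_lit 14,nat_lit 13]],[[nat_lit 10,nat_lit 15,nat_lit 4,nat_lit 2],
    [nat_lit 10,nat_lit 15,nat_lit 4,nat_lit 3],[nat_lit 10,nat_lit 15,nat_lit 4,nat_lit 11,nat_lit 0],[nat_lit 10,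
    nat_lit 15,nat_lit 4,nat_lit 11,nat_lit 1],[nat_lit 10,nat_lit 15,nat_lit 5,nat_lit 1,nat_lit 10],[nat_lit 10,
    nat_lit 15,nat_lit 9,nat_lit 4],[nat_lit 10,nat_lit 15,nat_lit 12],[nat_lit 10,nat_lit 15,nat_lit 13],[nat_lit 11,
    nat_lit 0,nat_lit 4,nat_lit 2],[nat_lit 11,nat_lit 0,nat_lit 4,nat_lit 8],[nat_lit 11,nat_lit 0,nat_lit 4,
    nat_lit 14,nat_lit 11],[nat_lit 11,nat_lit 0,nat_lit 9,nat_lit 4]],[[nat_lit 11,nat_lit 0,nat_lit 10,nat_lit 5,
    nat_lit 14],[nat_lit 11,nat_lit 0,nat_lit 10,nat_lit 15,nat_lit 4],[nat_lit 11,nat_lit 0,nat_lit 12],[nat_lit 11,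
    nat_lit 0,nat_lit 13],[nat_lit 11,nat_lit 1,nat_lit 10,nat_lit 5,nat_lit 14],[nat_lit 11,nat_lit 1,nat_lit 10,
    nat_lit 15,nat_lit 4],[nat_lit 11,nat_lit 1,nat_lit 13],[nat_lit 11,nat_lit 2,nat_lit 5,nat_lit 1],[nat_lit 11,
    nat_lit 2,nat_lit 5,nat_lit 14],[nat_lit 11,nat_lit 3,nat_lit 0,nat_lit 4],[nat_lit 11,nat_lit 3,nat_lit 5,
    nat_lit 14],[nat_lit 11,nat_lit 5,nat_lit 8,nat_lit 14]],[[nat_lit 11,nat_lit 6,nat_lit 10],[nat_lit 11,nat_lit 6,
    nat_lit 11],[nat_lit 11,nat_lit 7,nat_lit 10],[nat_lit 11,nat_lit 7,nat_lit 11],[nat_lit 11,nat_lit 10,nat_lit 10,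
    nat_lit 12],[nat_lit 11,nat_lit 10,nat_lit 10,nat_lit 13],[nat_lit 11,nat_lit 10,nat_lit 11,nat_lit 13],
    [nat_lit 11,nat_lit 10,nat_lit 12,nat_lit 10],[nat_lit 11,nat_lit 10,nat_lit 12,nat_lit 11],[nat_lit 11,
    nat_lit 10,nat_lit 13,nat_lit 11],[nat_lit 11,nat_lit 11,nat_lit 0,nat_lit 4,nat_lit 14],[nat_lit 11,nat_lit 11,
    nat_lit 6]],[[nat_lit 11,nat_lit 11,nat_lit 7],[nat_lit 11,nat_lit 11,nat_lit 10,nat_lit 12],[nat_lit 11,
    nat_lit 11,nat_lit 10,nat_lit 13],[nat_lit 11,nat_lit 11,nat_lit 11,nat_lit 12],[nat_lit 11,nat_lit 11,nat_lit 11,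
    nat_lit 13],[nat_lit 11,nat_lit 11,nat_lit 12,nat_lit 11],[nat_lit 11,nat_lit 11,nat_lit 13,nat_lit 11],
    [nat_lit 11,nat_lit 12,nat_lit 11,nat_lit 11],[nat_lit 11,nat_lit 12,nat_lit 14],[nat_lit 11,nat_lit 12,
    nat_lit 15],[nat_lit 11,nat_lit 13,nat_lit 11,nat_lit 10],[nat_lit 11,nat_lit 13,nat_lit 11,nat_lit 11]],
    [[nat_lit 11,nat_lit 13,nat_lit 14],[nat_lit 11,nat_lit 13,nat_lit 15],[nat_lit 11,nat_lit 14,nat_lit 13],
    [nat_lit 11,nat_lit 15,nat_lit 13],[nat_lit 12,nat_lit 0,nat_lit 10],[nat_lit 12,nat_lit 1,nat_lit 10],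
    [nat_lit 12,nat_lit 2],[nat_lit 12,nat_lit 3],[nat_lit 12,nat_lit 8],[nat_lit 12,nat_lit 9],[nat_lit 12,
    nat_lit 10,nat_lit 10,nat_lit 10],[nat_lit 12,nat_lit 10,nat_lit 11,nat_lit 10]],[[nat_lit 12,nat_lit 10,
    nat_lit 14],[nat_lit 12,nat_lit 10,nat_lit 15],[nat_lit 12,nat_lit 11,nat_lit 0],[nat_lit 12,nat_lit 11,
    nat_lit 10,nat_lit 10],[nat_lit 12,nat_lit 11,nat_lit 11,nat_lit 10],[nat_lit 12,nat_lit 11,nat_lit 11,
    nat_lit 11],[nat_lit 12,nat_lit 14,nat_lit 10],[nat_lit 12,nat_lit 14,nat_lit 11],[nat_lit 12,nat_lit 15,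
    nat_lit 10],[nat_lit 12,nat_lit 15,nat_lit 11],[nat_lit 13,nat_lit 1,nat_lit 10],[nat_lit 13,nat_lit 2]],
    [[nat_lit 13,nat_lit 3],[nat_lit 13,nat_lit 8],[nat_lit 13,nat_lit 9],[nat_lit 13,nat_lit 10,nat_lit 10,
    nat_lit 10],[nat_lit 13,nat_lit 10,nat_lit 14],[nat_lit 13,nat_lit 10,nat_lit 15],[nat_lit 13,nat_lit 11,
    nat_lit 0],[nat_lit 13,nat_lit 11,nat_lit 1],[nat_lit 13,nat_lit 11,nat_lit 10,nat_lit 10],[nat_lit 13,nat_lit 11,
    nat_lit 10,nat_lit 11],[nat_lit 13,nat_lit 11,nat_lit 11,nat_lit 10],[nat_lit 13,nat_lit 11,nat_lit 11,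
    nat_lit 11]],[[nat_lit 13,nat_lit 11,nat_lit 14],[nat_lit 13,nat_lit 11,nat_lit 15],[nat_lit 13,nat_lit 14,
    nat_lit 11],[nat_lit 13,nat_lit 15,nat_lit 11],[nat_lit 14,nat_lit 0,nat_lit 0,nat_lit 4],[nat_lit 14,nat_lit 0,
    nat_lit 0,nat_lit 5],[nat_lit 14,nat_lit 0,nat_lit 1,nat_lit 5],[nat_lit 14,nat_lit 0,nat_lit 4,nat_lit 0],
    [nat_lit 14,nat_lit 0,nat_lit 4,nat_lit 1],[nat_lit 14,nat_lit 0,nat_lit 4,nat_lit 14],[nat_lit 14,nat_lit 0,
    nat_lit 4,nat_lit 15],[nat_lit 14,nat_lit 0,nat_lit 5,nat_lit 1]],[[nat_lit 14,nat_lit 0,nat_lit 5,nat_lit 14],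
    [nat_lit 14,nat_lit 0,nat_lit 14,nat_lit 5],[nat_lit 14,nat_lit 0,nat_lit 15,nat_lit 4],[nat_lit 14,nat_lit 0,
    nat_lit 15,nat_lit 5],[nat_lit 14,nat_lit 1,nat_lit 15,nat_lit 4],[nat_lit 14,nat_lit 1,nat_lit 15,nat_lit 5],
    [nat_lit 14,nat_lit 5,nat_lit 1,nat_lit 15],[nat_lit 14,nat_lit 5,nat_lit 14,nat_lit 0],[nat_lit 14,nat_lit 6],
    [nat_lit 14,nat_lit 7],[nat_lit 14,nat_lit 10,nat_lit 12],[nat_lit 14,nat_lit 11,nat_lit 0,nat_lit 10,nat_lit 5]],
    [[nat_lit 14,nat_lit 11,nat_lit 1,nat_lit 10,nat_lit 5],[nat_lit 14,nat_lit 11,nat_lit 2,nat_lit 5],[nat_lit 14,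
    nat_lit 11,nat_lit 3,nat_lit 5],[nat_lit 14,nat_lit 11,nat_lit 5,nat_lit 8],[nat_lit 14,nat_lit 11,nat_lit 11,
    nat_lit 0,nat_lit 4],[nat_lit 14,nat_lit 11,nat_lit 12],[nat_lit 14,nat_lit 11,nat_lit 13],[nat_lit 14,nat_lit 12,
    nat_lit 10],[nat_lit 14,nat_lit 13,nat_lit 10],[nat_lit 14,nat_lit 13,nat_lit 11],[nat_lit 14,nat_lit 14,
    nat_lit 0,nat_lit 4],[nat_lit 14,nat_lit 14,nat_lit 0,nat_lit 5]],[[nat_lit 15,nat_lit 0,nat_lit 4,nat_lit 1],
    [nat_lit 15,nat_lit 0,nat_lit 5,nat_lit 1],[nat_lit 15,nat_lit 1,nat_lit 5,nat_lit 1],[nat_lit 15,nat_lit 1,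
    nat_lit 15,nat_lit 4],[nat_lit 15,nat_lit 4,nat_lit 0,nat_lit 1],[nat_lit 15,nat_lit 4,nat_lit 1,nat_lit 1],
    [nat_lit 15,nat_lit 4,nat_lit 1,nat_lit 15],[nat_lit 15,nat_lit 4,nat_lit 2,nat_lit 10],[nat_lit 15,nat_lit 4,
    nat_lit 3,nat_lit 10],[nat_lit 15,nat_lit 4,nat_lit 11,nat_lit 0,nat_lit 10],[nat_lit 15,nat_lit 4,nat_lit 11,
    nat_lit 1,nat_lit 10],[nat_lit 15,nat_lit 4,nat_lit 14,nat_lit 0]],[[nat_lit 15,nat_lit 4,nat_lit 14,nat_lit 1],
    [nat_lit 15,nat_lit 4,nat_lit 15,nat_lit 1],[nat_lit 15,nat_lit 5,nat_lit 1,nat_lit 1],[nat_lit 15,nat_lit 5,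
    nat_lit 1,nat_lit 10,nat_lit 10],[nat_lit 15,nat_lit 5,nat_lit 1,nat_lit 15],[nat_lit 15,nat_lit 5,nat_lit 14,
    nat_lit 0],[nat_lit 15,nat_lit 5,nat_lit 14,nat_lit 1],[nat_lit 15,nat_lit 6],[nat_lit 15,nat_lit 7],[nat_lit 15,
    nat_lit 9,nat_lit 4,nat_lit 10],[nat_lit 15,nat_lit 10,nat_lit 12],[nat_lit 15,nat_lit 11,nat_lit 12]],
    [[nat_lit 15,nat_lit 11,nat_lit 13],[nat_lit 15,nat_lit 12,nat_lit 10],[nat_lit 15,nat_lit 13,nat_lit 10],
    [nat_lit 15,nat_lit 13,nat_lit 11],[nat_lit 15,nat_lit 14,nat_lit 0,nat_lit 4],[nat_lit 15,nat_lit 14,nat_lit 5,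
    nat_lit 1],[nat_lit 15,nat_lit 15,nat_lit 4,nat_lit 1],[nat_lit 15,nat_lit 15,nat_lit 5,nat_lit 1]]]
    [[nat_lit 1,nat_lit 8,nat_lit 17,nat_lit 23,nat_lit 38,nat_lit 44,nat_lit 47,nat_lit 65,nat_lit 102,nat_lit 103,
    nat_lit 105,nat_lit 107],[nat_lit 108,nat_lit 113,nat_lit 116,nat_lit 120,nat_lit 126,nat_lit 127,nat_lit 130,
    nat_lit 131,nat_lit 133,nat_lit 142,nat_lit 143,nat_lit 156],[nat_lit 165,nat_lit 166,nat_lit 173,nat_lit 197,
    nat_lit 208,nat_lit 226,nat_lit 242,nat_lit 302,nat_lit 318,nat_lit 331,nat_lit 343,nat_lit 371],[nat_lit 377,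
    nat_lit 5,nat_lit 9,nat_lit 40,nat_lit 45,nat_lit 66,nat_lit 69,nat_lit 83,nat_lit 134,nat_lit 135,nat_lit 144,
    nat_lit 157],[nat_lit 167,nat_lit 174,nat_lit 205,nat_lit 207,nat_lit 209,nat_lit 212,nat_lit 221,nat_lit 227,
    nat_lit 234,nat_lit 243,nat_lit 259,nat_lit 319],[nat_lit 332,nat_lit 335,nat_lit 360,nat_lit 361,nat_lit 362,
    nat_lit 364,nat_lit 365,nat_lit 372,nat_lit 373,nat_lit 374,nat_lit 378,nat_lit 389],[nat_lit 390,nat_lit 391,
    nat_lit 75,nat_lit 110,nat_lit 114,nat_lit 118,nat_lit 141,nat_lit 147,nat_lit 151,nat_lit 163,nat_lit 192,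
    nat_lit 206],[nat_lit 240,nat_lit 248,nat_lit 294,nat_lit 311,nat_lit 16,nat_lit 76,nat_lit 79,nat_lit 93,
    nat_lit 138,nat_lit 148,nat_lit 152,nat_lit 164],[nat_lit 193,nat_lit 199,nat_lit 204,nat_lit 241,nat_lit 295,
    nat_lit 312,nat_lit 0,nat_lit 4,nat_lit 7,nat_lit 33,nat_lit 41,nat_lit 60],[nat_lit 62,nat_lit 72,nat_lit 74,
    nat_lit 82,nat_lit 84,nat_lit 85,nat_lit 89,nat_lit 96,nat_lit 98,nat_lit 99,nat_lit 181,nat_lit 186],
    [nat_lit 188,nat_lit 201,nat_lit 245,nat_lit 251,nat_lit 253,nat_lit 257,nat_lit 261,nat_lit 328,nat_lit 338,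
    nat_lit 340,nat_lit 352,nat_lit 358],[nat_lit 363,nat_lit 388,nat_lit 37,nat_lit 39,nat_lit 42,nat_lit 43,
    nat_lit 50,nat_lit 53,nat_lit 54,nat_lit 58,nat_lit 61,nat_lit 63],[nat_lit 64,nat_lit 71,nat_lit 73,nat_lit 90,
    nat_lit 91,nat_lit 97,nat_lit 180,nat_lit 182,nat_lit 183,nat_lit 185,nat_lit 187,nat_lit 191],[nat_lit 329,
    nat_lit 330,nat_lit 337,nat_lit 339,nat_lit 341,nat_lit 347,nat_lit 348,nat_lit 349,nat_lit 350,nat_lit 359,
    nat_lit 25,nat_lit 48],[nat_lit 213,nat_lit 222,nat_lit 275,nat_lit 344,nat_lit 379,nat_lit 26,nat_lit 49,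
    nat_lit 214,nat_lit 223,nat_lit 276,nat_lit 345,nat_lit 380],[nat_lit 51,nat_lit 77,nat_lit 80,nat_lit 94,
    nat_lit 153,nat_lit 184,nat_lit 194,nat_lit 200,nat_lit 249,nat_lit 296,nat_lit 313,nat_lit 351],[nat_lit 111,
    nat_lit 115,nat_lit 119,nat_lit 121,nat_lit 122,nat_lit 123,nat_lit 139,nat_lit 149,nat_lit 154,nat_lit 195,
    nat_lit 297,nat_lit 314],[nat_lit 14,nat_lit 92,nat_lit 137,nat_lit 150,nat_lit 161,nat_lit 162,nat_lit 168,
    nat_lit 175,nat_lit 198,nat_lit 210,nat_lit 211,nat_lit 217],[nat_lit 219,nat_lit 228,nat_lit 230,nat_lit 235,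
    nat_lit 236,nat_lit 244,nat_lit 264,nat_lit 266,nat_lit 271,nat_lit 286,nat_lit 292,nat_lit 293],[nat_lit 298,
    nat_lit 299,nat_lit 303,nat_lit 304,nat_lit 306,nat_lit 308,nat_lit 310,nat_lit 315,nat_lit 320,nat_lit 322,
    nat_lit 355,nat_lit 356],[nat_lit 367,nat_lit 368,nat_lit 369,nat_lit 370,nat_lit 375,nat_lit 381,nat_lit 385,
    nat_lit 386,nat_lit 13,nat_lit 15,nat_lit 18,nat_lit 27],[nat_lit 28,nat_lit 30,nat_lit 31,nat_lit 32,nat_lit 52,
    nat_lit 57,nat_lit 59,nat_lit 78,nat_lit 81,nat_lit 88,nat_lit 95,nat_lit 155],[nat_lit 169,nat_lit 170,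
    nat_lit 176,nat_lit 177,nat_lit 218,nat_lit 220,nat_lit 225,nat_lit 229,nat_lit 231,nat_lit 237,nat_lit 250,
    nat_lit 265],[nat_lit 267,nat_lit 272,nat_lit 273,nat_lit 281,nat_lit 282,nat_lit 283,nat_lit 287,nat_lit 305,
    nat_lit 307,nat_lit 309,nat_lit 321,nat_lit 323],[nat_lit 326,nat_lit 327,nat_lit 357,nat_lit 387,nat_lit 29,
    nat_lit 55,nat_lit 86,nat_lit 100,nat_lit 189,nat_lit 202,nat_lit 215,nat_lit 224],[nat_lit 238,nat_lit 246,
    nat_lit 254,nat_lit 268,nat_lit 277,nat_lit 279,nat_lit 346,nat_lit 353,nat_lit 382,nat_lit 383,nat_lit 56,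
    nat_lit 87],[nat_lit 101,nat_lit 190,nat_lit 203,nat_lit 216,nat_lit 239,nat_lit 247,nat_lit 255,nat_lit 258,
    nat_lit 269,nat_lit 270,nat_lit 278,nat_lit 280],[nat_lit 290,nat_lit 291,nat_lit 354,nat_lit 384,nat_lit 2,
    nat_lit 3,nat_lit 6,nat_lit 10,nat_lit 11,nat_lit 19,nat_lit 20,nat_lit 21],[nat_lit 24,nat_lit 34,nat_lit 35,
    nat_lit 36,nat_lit 67,nat_lit 70,nat_lit 145,nat_lit 158,nat_lit 171,nat_lit 178,nat_lit 232,nat_lit 252],
    [nat_lit 256,nat_lit 260,nat_lit 262,nat_lit 263,nat_lit 274,nat_lit 284,nat_lit 288,nat_lit 300,nat_lit 316,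
    nat_lit 324,nat_lit 333,nat_lit 336],[nat_lit 12,nat_lit 22,nat_lit 46,nat_lit 68,nat_lit 104,nat_lit 106,
    nat_lit 109,nat_lit 112,nat_lit 117,nat_lit 124,nat_lit 125,nat_lit 128],[nat_lit 129,nat_lit 132,nat_lit 136,
    nat_lit 140,nat_lit 146,nat_lit 159,nat_lit 160,nat_lit 172,nat_lit 179,nat_lit 196,nat_lit 233,nat_lit 285],
    [nat_lit 289,nat_lit 301,nat_lit 317,nat_lit 325,nat_lit 334,nat_lit 342,nat_lit 366,nat_lit 376]]
    [[nat_lit 102,nat_lit 0,nat_lit 328,nat_lit 329,nat_lit 103,nat_lit 37,nat_lit 330,nat_lit 104,nat_lit 1,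
    nat_lit 38,nat_lit 331,nat_lit 332],[nat_lit 360,nat_lit 248,nat_lit 204,nat_lit 249,nat_lit 88,nat_lit 2,
    nat_lit 250,nat_lit 333,nat_lit 334,nat_lit 335,nat_lit 361,nat_lit 3],[nat_lit 336,nat_lit 166,nat_lit 173,
    nat_lit 251,nat_lit 252,nat_lit 292,nat_lit 253,nat_lit 254,nat_lit 255,nat_lit 105,nat_lit 337,nat_lit 338],
    [nat_lit 339,nat_lit 134,nat_lit 4,nat_lit 135,nat_lit 39,nat_lit 106,nat_lit 136,nat_lit 137,nat_lit 5,
    nat_lit 40,nat_lit 362,nat_lit 6],[nat_lit 167,nat_lit 174,nat_lit 138,nat_lit 180,nat_lit 256,nat_lit 139,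
    nat_lit 140,nat_lit 293,nat_lit 310,nat_lit 257,nat_lit 141,nat_lit 258],[nat_lit 107,nat_lit 142,nat_lit 108,
    nat_lit 143,nat_lit 144,nat_lit 7,nat_lit 41,nat_lit 340,nat_lit 363,nat_lit 42,nat_lit 341,nat_lit 145],
    [nat_lit 109,nat_lit 146,nat_lit 110,nat_lit 74,nat_lit 89,nat_lit 181,nat_lit 259,nat_lit 90,nat_lit 182,
    nat_lit 260,nat_lit 111,nat_lit 43],[nat_lit 112,nat_lit 113,nat_lit 294,nat_lit 311,nat_lit 261,nat_lit 114,
    nat_lit 147,nat_lit 148,nat_lit 205,nat_lit 91,nat_lit 183,nat_lit 262],[nat_lit 115,nat_lit 149,nat_lit 116,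
    nat_lit 117,nat_lit 295,nat_lit 312,nat_lit 8,nat_lit 9,nat_lit 364,nat_lit 10,nat_lit 365,nat_lit 11],
    [nat_lit 12,nat_lit 366,nat_lit 75,nat_lit 192,nat_lit 367,nat_lit 13,nat_lit 76,nat_lit 193,nat_lit 14,
    nat_lit 368,nat_lit 77,nat_lit 194],[nat_lit 15,nat_lit 195,nat_lit 196,nat_lit 197,nat_lit 369,nat_lit 370,
    nat_lit 16,nat_lit 17,nat_lit 371,nat_lit 372,nat_lit 18,nat_lit 19],[nat_lit 373,nat_lit 20,nat_lit 44,
    nat_lit 45,nat_lit 374,nat_lit 206,nat_lit 92,nat_lit 198,nat_lit 375,nat_lit 78,nat_lit 21,nat_lit 22],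
    [nat_lit 46,nat_lit 342,nat_lit 376,nat_lit 79,nat_lit 93,nat_lit 199,nat_lit 207,nat_lit 80,nat_lit 94,
    nat_lit 184,nat_lit 200,nat_lit 263],[nat_lit 23,nat_lit 47,nat_lit 343,nat_lit 377,nat_lit 378,nat_lit 208,
    nat_lit 209,nat_lit 81,nat_lit 95,nat_lit 24,nat_lit 25,nat_lit 48],[nat_lit 210,nat_lit 264,nat_lit 265,
    nat_lit 344,nat_lit 379,nat_lit 26,nat_lit 49,nat_lit 211,nat_lit 266,nat_lit 267,nat_lit 345,nat_lit 380],
    [nat_lit 150,nat_lit 118,nat_lit 151,nat_lit 152,nat_lit 185,nat_lit 153,nat_lit 119,nat_lit 154,nat_lit 120,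
    nat_lit 296,nat_lit 313,nat_lit 155],[nat_lit 82,nat_lit 96,nat_lit 186,nat_lit 201,nat_lit 381,nat_lit 27,
    nat_lit 212,nat_lit 97,nat_lit 187,nat_lit 121,nat_lit 297,nat_lit 314],[nat_lit 98,nat_lit 50,nat_lit 83,
    nat_lit 51,nat_lit 28,nat_lit 52,nat_lit 213,nat_lit 214,nat_lit 53,nat_lit 168,nat_lit 175,nat_lit 298],
    [nat_lit 315,nat_lit 215,nat_lit 268,nat_lit 216,nat_lit 269,nat_lit 54,nat_lit 169,nat_lit 176,nat_lit 299,
    nat_lit 270,nat_lit 29,nat_lit 55],[nat_lit 217,nat_lit 271,nat_lit 218,nat_lit 272,nat_lit 346,nat_lit 382,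
    nat_lit 56,nat_lit 219,nat_lit 220,nat_lit 273,nat_lit 300,nat_lit 316],[nat_lit 84,nat_lit 99,nat_lit 30,
    nat_lit 57,nat_lit 221,nat_lit 122,nat_lit 301,nat_lit 317,nat_lit 85,nat_lit 188,nat_lit 274,nat_lit 123],
    [nat_lit 347,nat_lit 124,nat_lit 302,nat_lit 318,nat_lit 348,nat_lit 125,nat_lit 319,nat_lit 58,nat_lit 349,
    nat_lit 126,nat_lit 350,nat_lit 351],[nat_lit 222,nat_lit 275,nat_lit 223,nat_lit 276,nat_lit 303,nat_lit 320,
    nat_lit 321,nat_lit 224,nat_lit 277,nat_lit 278,nat_lit 352,nat_lit 170],[nat_lit 177,nat_lit 304,nat_lit 322,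
    nat_lit 305,nat_lit 323,nat_lit 279,nat_lit 280,nat_lit 281,nat_lit 353,nat_lit 383,nat_lit 225,nat_lit 282],
    [nat_lit 354,nat_lit 384,nat_lit 324,nat_lit 325,nat_lit 226,nat_lit 227,nat_lit 86,nat_lit 100,nat_lit 189,
    nat_lit 202,nat_lit 228,nat_lit 229],[nat_lit 355,nat_lit 385,nat_lit 31,nat_lit 230,nat_lit 231,nat_lit 283,
    nat_lit 232,nat_lit 284,nat_lit 233,nat_lit 285,nat_lit 234,nat_lit 87],[nat_lit 101,nat_lit 190,nat_lit 203,
    nat_lit 235,nat_lit 356,nat_lit 386,nat_lit 32,nat_lit 59,nat_lit 236,nat_lit 286,nat_lit 237,nat_lit 287],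
    [nat_lit 357,nat_lit 387,nat_lit 288,nat_lit 289,nat_lit 127,nat_lit 156,nat_lit 157,nat_lit 33,nat_lit 60,
    nat_lit 358,nat_lit 388,nat_lit 61],[nat_lit 359,nat_lit 158,nat_lit 128,nat_lit 159,nat_lit 129,nat_lit 160,
    nat_lit 389,nat_lit 34,nat_lit 171,nat_lit 178,nat_lit 306,nat_lit 161],[nat_lit 162,nat_lit 163,nat_lit 164,
    nat_lit 191,nat_lit 130,nat_lit 307,nat_lit 326,nat_lit 238,nat_lit 239,nat_lit 290,nat_lit 131,nat_lit 165],
    [nat_lit 62,nat_lit 63,nat_lit 64,nat_lit 132,nat_lit 65,nat_lit 66,nat_lit 390,nat_lit 240,nat_lit 241,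
    nat_lit 242,nat_lit 243,nat_lit 35],[nat_lit 67,nat_lit 68,nat_lit 69,nat_lit 244,nat_lit 391,nat_lit 36,
    nat_lit 70,nat_lit 172,nat_lit 179,nat_lit 245,nat_lit 308,nat_lit 309],[nat_lit 327,nat_lit 246,nat_lit 247,
    nat_lit 291,nat_lit 133,nat_lit 71,nat_lit 72,nat_lit 73]]
    [[[],[],[],[],[nat_lit 334,nat_lit 342],[nat_lit 334,nat_lit 342],[nat_lit 334,nat_lit 342],[nat_lit 334,
    nat_lit 342],[nat_lit 344],[nat_lit 344],[nat_lit 344],[nat_lit 344]],[[nat_lit 344],[nat_lit 344],[nat_lit 344],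
    [nat_lit 344],[nat_lit 344],[nat_lit 344],[nat_lit 344],[nat_lit 344],[nat_lit 344],[],[],[]],[[],[nat_lit 351],
    [nat_lit 329,nat_lit 330,nat_lit 337,nat_lit 339,nat_lit 341,nat_lit 347,nat_lit 348,nat_lit 349,nat_lit 350,
    nat_lit 359],[nat_lit 345],[nat_lit 346,nat_lit 353],[nat_lit 346,nat_lit 353],[nat_lit 346,nat_lit 353],
    [nat_lit 333,nat_lit 336],[nat_lit 357],[nat_lit 331,nat_lit 343],[nat_lit 331,nat_lit 343],[nat_lit 354]],
    [[nat_lit 354],[],[],[],[],[],[],[nat_lit 89,nat_lit 96,nat_lit 98,nat_lit 99],[nat_lit 93],[nat_lit 93],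
    [nat_lit 93],[nat_lit 93]],[[nat_lit 94],[nat_lit 90,nat_lit 91,nat_lit 97],[nat_lit 100],[nat_lit 100],
    [nat_lit 100],[nat_lit 100],[nat_lit 100],[nat_lit 100],[nat_lit 100],[nat_lit 100],[],[nat_lit 88,nat_lit 95]],
    [[],[],[nat_lit 101],[nat_lit 101],[nat_lit 101],[nat_lit 101],[nat_lit 101],[nat_lit 101],[nat_lit 101],
    [nat_lit 101],[nat_lit 101],[nat_lit 101]],[[nat_lit 101],[nat_lit 101],[nat_lit 0,nat_lit 4,nat_lit 7,
    nat_lit 33],[nat_lit 25],[nat_lit 25],[nat_lit 25],[nat_lit 16],[nat_lit 16],[nat_lit 16],[nat_lit 16],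
    [nat_lit 26],[nat_lit 29]],[[nat_lit 29],[],[nat_lit 2,nat_lit 3,nat_lit 6,nat_lit 10,nat_lit 11,nat_lit 19,
    nat_lit 20,nat_lit 21,nat_lit 24,nat_lit 34,nat_lit 35,nat_lit 36],[nat_lit 13,nat_lit 15,nat_lit 18,nat_lit 27,
    nat_lit 28,nat_lit 30,nat_lit 31,nat_lit 32],[nat_lit 141,nat_lit 147,nat_lit 151,nat_lit 163],[],[],[nat_lit 134,
    nat_lit 135,nat_lit 144,nat_lit 157],[nat_lit 138,nat_lit 148,nat_lit 152,nat_lit 164],[nat_lit 138,nat_lit 148,
    nat_lit 152,nat_lit 164],[nat_lit 138,nat_lit 148,nat_lit 152,nat_lit 164],[nat_lit 138,nat_lit 148,nat_lit 152,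
    nat_lit 164]],[[],[],[],[],[nat_lit 145,nat_lit 158],[nat_lit 155],[nat_lit 75],[nat_lit 75],[nat_lit 75],
    [nat_lit 75],[],[]],[[],[],[nat_lit 74,nat_lit 82,nat_lit 84,nat_lit 85],[nat_lit 74,nat_lit 82,nat_lit 84,
    nat_lit 85],[nat_lit 74,nat_lit 82,nat_lit 84,nat_lit 85],[nat_lit 74,nat_lit 82,nat_lit 84,nat_lit 85],
    [nat_lit 83],[nat_lit 83],[nat_lit 83],[nat_lit 83],[],[]],[[],[],[nat_lit 86],[],[],[],[],[],[],[],[],[]],
    [[nat_lit 87],[nat_lit 87],[nat_lit 179],[nat_lit 179],[nat_lit 179],[nat_lit 179],[nat_lit 179],[nat_lit 179],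
    [nat_lit 179],[nat_lit 179],[nat_lit 179],[nat_lit 179]],[[nat_lit 179],[nat_lit 179],[nat_lit 179],[nat_lit 174],
    [nat_lit 174],[nat_lit 174],[nat_lit 175],[nat_lit 175],[nat_lit 175],[nat_lit 175],[nat_lit 175],[nat_lit 175]],
    [[nat_lit 173],[nat_lit 173],[nat_lit 173],[nat_lit 173],[nat_lit 173],[nat_lit 173],[nat_lit 173],[nat_lit 173],
    [nat_lit 173],[nat_lit 173],[nat_lit 110,nat_lit 114,nat_lit 118],[nat_lit 104,nat_lit 106,nat_lit 109,
    nat_lit 112,nat_lit 117,nat_lit 124,nat_lit 125,nat_lit 128,nat_lit 129,nat_lit 132]],[[],[],[nat_lit 111,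
    nat_lit 115,nat_lit 119,nat_lit 121,nat_lit 122,nat_lit 123],[nat_lit 102,nat_lit 103,nat_lit 105,nat_lit 107,
    nat_lit 108,nat_lit 113,nat_lit 116,nat_lit 120,nat_lit 126,nat_lit 127,nat_lit 130,nat_lit 131,nat_lit 133],[],
    [nat_lit 192],[nat_lit 196],[nat_lit 202],[nat_lit 202],[nat_lit 195],[nat_lit 197],[nat_lit 203]],[[nat_lit 172],
    [],[],[nat_lit 167],[],[nat_lit 168],[],[],[],[nat_lit 171],[nat_lit 169,nat_lit 170],[nat_lit 166]],
    [[nat_lit 275],[nat_lit 275],[nat_lit 275],[nat_lit 275],[nat_lit 275],[nat_lit 275],[],[],[],[nat_lit 276],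
    [nat_lit 252,nat_lit 256,nat_lit 260,nat_lit 262,nat_lit 263,nat_lit 274,nat_lit 284,nat_lit 288],[nat_lit 250,
    nat_lit 265,nat_lit 267,nat_lit 272,nat_lit 273,nat_lit 281,nat_lit 282,nat_lit 283,nat_lit 287]],[[],[],[],[],[],
    [],[nat_lit 184],[nat_lit 180,nat_lit 182,nat_lit 183,nat_lit 185,nat_lit 187,nat_lit 191],[],[nat_lit 189],
    [nat_lit 189],[nat_lit 189]],[[nat_lit 189],[nat_lit 189],[nat_lit 189],[nat_lit 189],[nat_lit 189],[nat_lit 189],
    [],[],[],[],[],[]],[[],[],[],[],[],[],[],[],[],[],[],[]],[[nat_lit 190],[nat_lit 190],[nat_lit 190],[nat_lit 190],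
    [nat_lit 190],[nat_lit 190],[nat_lit 190],[nat_lit 190],[nat_lit 311],[nat_lit 311],[nat_lit 311],[nat_lit 311]],
    [[nat_lit 311],[nat_lit 311],[nat_lit 311],[nat_lit 311],[nat_lit 317,nat_lit 325],[nat_lit 317,nat_lit 325],
    [nat_lit 317,nat_lit 325],[],[],[nat_lit 319],[nat_lit 319],[nat_lit 312]],[[nat_lit 313],[nat_lit 313],[],[],[],
    [],[],[],[],[],[nat_lit 314],[nat_lit 314]],[[nat_lit 314],[nat_lit 314],[nat_lit 314],[nat_lit 314],
    [nat_lit 314],[nat_lit 314],[nat_lit 314],[nat_lit 316,nat_lit 324],[nat_lit 316,nat_lit 324],[nat_lit 316,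
    nat_lit 324],[nat_lit 321,nat_lit 323,nat_lit 326,nat_lit 327],[nat_lit 321,nat_lit 323,nat_lit 326,nat_lit 327]],
    [[nat_lit 321,nat_lit 323,nat_lit 326,nat_lit 327],[nat_lit 321,nat_lit 323,nat_lit 326,nat_lit 327],
    [nat_lit 318],[],[nat_lit 206,nat_lit 240],[nat_lit 233],[nat_lit 245],[nat_lit 205,nat_lit 207,nat_lit 209,
    nat_lit 212,nat_lit 221,nat_lit 227,nat_lit 234,nat_lit 243],[nat_lit 210,nat_lit 211,nat_lit 217,nat_lit 219,
    nat_lit 228,nat_lit 230,nat_lit 235,nat_lit 236,nat_lit 244],[nat_lit 214,nat_lit 223],[nat_lit 215,nat_lit 224,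
    nat_lit 238,nat_lit 246],[nat_lit 215,nat_lit 224,nat_lit 238,nat_lit 246]],[[nat_lit 215,nat_lit 224,nat_lit 238,
    nat_lit 246],[nat_lit 215,nat_lit 224,nat_lit 238,nat_lit 246],[],[],[],[],[nat_lit 208,nat_lit 226,nat_lit 242],
    [nat_lit 208,nat_lit 226,nat_lit 242],[nat_lit 216,nat_lit 239,nat_lit 247],[nat_lit 216,nat_lit 239,nat_lit 247],
    [nat_lit 366,nat_lit 376],[nat_lit 363,nat_lit 388]],[[nat_lit 360,nat_lit 361,nat_lit 362,nat_lit 364,
    nat_lit 365,nat_lit 372,nat_lit 373,nat_lit 374,nat_lit 378,nat_lit 389,nat_lit 390,nat_lit 391],[nat_lit 367,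
    nat_lit 368,nat_lit 369,nat_lit 370,nat_lit 375,nat_lit 381,nat_lit 385,nat_lit 386],[nat_lit 380],[nat_lit 382,
    nat_lit 383],[nat_lit 382,nat_lit 383],[nat_lit 382,nat_lit 383],[],[],[],[],[],[]],[[],[],[nat_lit 371,
    nat_lit 377],[nat_lit 384],[nat_lit 294],[nat_lit 294],[nat_lit 294],[nat_lit 294],[nat_lit 294],[nat_lit 294],
    [nat_lit 294],[nat_lit 294]],[[nat_lit 294],[nat_lit 294],[nat_lit 294],[nat_lit 294],[nat_lit 301],[nat_lit 301],
    [nat_lit 295],[nat_lit 295],[nat_lit 296],[],[],[nat_lit 297]],[[nat_lit 297],[nat_lit 297],[nat_lit 297],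
    [nat_lit 297],[nat_lit 297],[nat_lit 297],[nat_lit 297],[nat_lit 300],[nat_lit 305,nat_lit 307,nat_lit 309],
    [nat_lit 305,nat_lit 307,nat_lit 309],[nat_lit 302],[nat_lit 302]],[[],[],[nat_lit 46,nat_lit 68],[nat_lit 46,
    nat_lit 68],[nat_lit 48],[nat_lit 48],[nat_lit 48],[nat_lit 48],[nat_lit 48],[nat_lit 48],[nat_lit 48],
    [nat_lit 48]],[[nat_lit 48],[nat_lit 48],[],[],[],[],[],[nat_lit 51],[nat_lit 37,nat_lit 39,nat_lit 42,nat_lit 43,
    nat_lit 50,nat_lit 53,nat_lit 54,nat_lit 58,nat_lit 61,nat_lit 63,nat_lit 64,nat_lit 71,nat_lit 73],[nat_lit 49],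
    [nat_lit 55],[]],[[],[nat_lit 67,nat_lit 70],[nat_lit 52,nat_lit 57,nat_lit 59],[nat_lit 52,nat_lit 57,
    nat_lit 59],[nat_lit 38,nat_lit 44,nat_lit 47,nat_lit 65],[nat_lit 38,nat_lit 44,nat_lit 47,nat_lit 65],
    [nat_lit 56],[nat_lit 56]]]
    (nat_lit 392) [nat_lit 0,nat_lit 1,nat_lit 2,nat_lit 3,nat_lit 4,nat_lit 5,nat_lit 6,nat_lit 7,nat_lit 8,
    nat_lit 9,nat_lit 10,nat_lit 11,nat_lit 12,nat_lit 13,nat_lit 14,nat_lit 15,nat_lit 16,nat_lit 17,nat_lit 18,
    nat_lit 19,nat_lit 20,nat_lit 21,nat_lit 22,nat_lit 23,nat_lit 24,nat_lit 25,nat_lit 26,nat_lit 27,nat_lit 28,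
    nat_lit 29,nat_lit 30,nat_lit 31,nat_lit 32,nat_lit 33,nat_lit 34,nat_lit 35,nat_lit 36,nat_lit 39,nat_lit 40,
    nat_lit 41,nat_lit 42,nat_lit 43,nat_lit 45,nat_lit 46,nat_lit 48,nat_lit 49,nat_lit 50,nat_lit 51,nat_lit 52,
    nat_lit 53,nat_lit 54,nat_lit 55,nat_lit 56,nat_lit 57,nat_lit 58,nat_lit 59,nat_lit 64,nat_lit 66,nat_lit 67,
    nat_lit 68,nat_lit 69,nat_lit 70,nat_lit 71,nat_lit 72,nat_lit 73,nat_lit 74,nat_lit 75,nat_lit 76,nat_lit 77,
    nat_lit 79,nat_lit 80,nat_lit 81,nat_lit 82,nat_lit 84,nat_lit 86,nat_lit 87,nat_lit 91,nat_lit 93,nat_lit 94,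
    nat_lit 95,nat_lit 96,nat_lit 97,nat_lit 99,nat_lit 100,nat_lit 101,nat_lit 119,nat_lit 121,nat_lit 122,
    nat_lit 153,nat_lit 154,nat_lit 155,nat_lit 168,nat_lit 169,nat_lit 170,nat_lit 171,nat_lit 172,nat_lit 175,
    nat_lit 176,nat_lit 177,nat_lit 178,nat_lit 179,nat_lit 189,nat_lit 190,nat_lit 202,nat_lit 203,nat_lit 215,
    nat_lit 216,nat_lit 217,nat_lit 218,nat_lit 219,nat_lit 220,nat_lit 224,nat_lit 225,nat_lit 228,nat_lit 229,
    nat_lit 230,nat_lit 231,nat_lit 232,nat_lit 233,nat_lit 235,nat_lit 236,nat_lit 237,nat_lit 238,nat_lit 239,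
    nat_lit 246,nat_lit 247,nat_lit 279,nat_lit 280,nat_lit 281,nat_lit 282,nat_lit 283,nat_lit 284,nat_lit 285,
    nat_lit 287,nat_lit 288,nat_lit 289,nat_lit 290,nat_lit 291]
    [[[nat_lit 1,nat_lit 8,nat_lit 17,nat_lit 23],[nat_lit 5,nat_lit 9],[],[nat_lit 16],[nat_lit 0,nat_lit 4,
    nat_lit 7,nat_lit 33],[],[nat_lit 25],[nat_lit 26],[],[],[nat_lit 14],[nat_lit 13,nat_lit 15,nat_lit 18,
    nat_lit 27,nat_lit 28,nat_lit 30,nat_lit 31,nat_lit 32],[nat_lit 29],[],[nat_lit 2,nat_lit 3,nat_lit 6,nat_lit 10,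
    nat_lit 11,nat_lit 19,nat_lit 20,nat_lit 21,nat_lit 24,nat_lit 34,nat_lit 35,nat_lit 36],[nat_lit 12,nat_lit 22]],
    [[nat_lit 38,nat_lit 44,nat_lit 47,nat_lit 65],[nat_lit 40,nat_lit 45,nat_lit 66,nat_lit 69],[],[],[nat_lit 41,
    nat_lit 60,nat_lit 62,nat_lit 72],[nat_lit 37,nat_lit 39,nat_lit 42,nat_lit 43,nat_lit 50,nat_lit 53,nat_lit 54,
    nat_lit 58,nat_lit 61,nat_lit 63,nat_lit 64,nat_lit 71,nat_lit 73],[nat_lit 48],[nat_lit 49],[nat_lit 51],[],[],
    [nat_lit 52,nat_lit 57,nat_lit 59],[nat_lit 55],[nat_lit 56],[nat_lit 67,nat_lit 70],[nat_lit 46,nat_lit 68]],[[],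
    [nat_lit 83],[nat_lit 75],[nat_lit 76,nat_lit 79],[nat_lit 74,nat_lit 82,nat_lit 84,nat_lit 85],[],[],[],
    [nat_lit 77,nat_lit 80],[],[],[nat_lit 78,nat_lit 81],[nat_lit 86],[nat_lit 87],[],[]],[[],[],[],[nat_lit 93],
    [nat_lit 89,nat_lit 96,nat_lit 98,nat_lit 99],[nat_lit 90,nat_lit 91,nat_lit 97],[],[],[nat_lit 94],[],
    [nat_lit 92],[nat_lit 88,nat_lit 95],[nat_lit 100],[nat_lit 101],[],[]],[[nat_lit 102,nat_lit 103,nat_lit 105,
    nat_lit 107,nat_lit 108,nat_lit 113,nat_lit 116,nat_lit 120,nat_lit 126,nat_lit 127,nat_lit 130,nat_lit 131,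
    nat_lit 133],[],[nat_lit 110,nat_lit 114,nat_lit 118],[],[],[],[],[],[],[nat_lit 111,nat_lit 115,nat_lit 119,
    nat_lit 121,nat_lit 122,nat_lit 123],[],[],[],[],[],[nat_lit 104,nat_lit 106,nat_lit 109,nat_lit 112,nat_lit 117,
    nat_lit 124,nat_lit 125,nat_lit 128,nat_lit 129,nat_lit 132]],[[nat_lit 142,nat_lit 143,nat_lit 156,nat_lit 165],
    [nat_lit 134,nat_lit 135,nat_lit 144,nat_lit 157],[nat_lit 141,nat_lit 147,nat_lit 151,nat_lit 163],[nat_lit 138,
    nat_lit 148,nat_lit 152,nat_lit 164],[],[],[],[],[nat_lit 153],[nat_lit 139,nat_lit 149,nat_lit 154],[nat_lit 137,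
    nat_lit 150,nat_lit 161,nat_lit 162],[nat_lit 155],[],[],[nat_lit 145,nat_lit 158],[nat_lit 136,nat_lit 140,
    nat_lit 146,nat_lit 159,nat_lit 160]],[[nat_lit 166],[nat_lit 167],[],[],[],[],[],[],[],[],[nat_lit 168],
    [nat_lit 169,nat_lit 170],[],[],[nat_lit 171],[nat_lit 172]],[[nat_lit 173],[nat_lit 174],[],[],[],[],[],[],[],[],
    [nat_lit 175],[nat_lit 176,nat_lit 177],[],[],[nat_lit 178],[nat_lit 179]],[[],[],[],[],[nat_lit 181,nat_lit 186,
    nat_lit 188],[nat_lit 180,nat_lit 182,nat_lit 183,nat_lit 185,nat_lit 187,nat_lit 191],[],[],[nat_lit 184],[],[],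
    [],[nat_lit 189],[nat_lit 190],[],[]],[[nat_lit 197],[],[nat_lit 192],[nat_lit 193,nat_lit 199],[nat_lit 201],[],
    [],[],[nat_lit 194,nat_lit 200],[nat_lit 195],[nat_lit 198],[],[nat_lit 202],[nat_lit 203],[],[nat_lit 196]],
    [[nat_lit 208,nat_lit 226,nat_lit 242],[nat_lit 205,nat_lit 207,nat_lit 209,nat_lit 212,nat_lit 221,nat_lit 227,
    nat_lit 234,nat_lit 243],[nat_lit 206,nat_lit 240],[nat_lit 204,nat_lit 241],[nat_lit 245],[],[nat_lit 213,
    nat_lit 222],[nat_lit 214,nat_lit 223],[],[],[nat_lit 210,nat_lit 211,nat_lit 217,nat_lit 219,nat_lit 228,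
    nat_lit 230,nat_lit 235,nat_lit 236,nat_lit 244],[nat_lit 218,nat_lit 220,nat_lit 225,nat_lit 229,nat_lit 231,
    nat_lit 237],[nat_lit 215,nat_lit 224,nat_lit 238,nat_lit 246],[nat_lit 216,nat_lit 239,nat_lit 247],
    [nat_lit 232],[nat_lit 233]],[[],[nat_lit 259],[nat_lit 248],[],[nat_lit 251,nat_lit 253,nat_lit 257,nat_lit 261],
    [],[nat_lit 275],[nat_lit 276],[nat_lit 249],[],[nat_lit 264,nat_lit 266,nat_lit 271,nat_lit 286],[nat_lit 250,
    nat_lit 265,nat_lit 267,nat_lit 272,nat_lit 273,nat_lit 281,nat_lit 282,nat_lit 283,nat_lit 287],[nat_lit 254,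
    nat_lit 268,nat_lit 277,nat_lit 279],[nat_lit 255,nat_lit 258,nat_lit 269,nat_lit 270,nat_lit 278,nat_lit 280,
    nat_lit 290,nat_lit 291],[nat_lit 252,nat_lit 256,nat_lit 260,nat_lit 262,nat_lit 263,nat_lit 274,nat_lit 284,
    nat_lit 288],[nat_lit 285,nat_lit 289]],[[nat_lit 302],[],[nat_lit 294],[nat_lit 295],[],[],[],[],[nat_lit 296],
    [nat_lit 297],[nat_lit 292,nat_lit 293,nat_lit 298,nat_lit 299,nat_lit 303,nat_lit 304,nat_lit 306,nat_lit 308],
    [nat_lit 305,nat_lit 307,nat_lit 309],[],[],[nat_lit 300],[nat_lit 301]],[[nat_lit 318],[nat_lit 319],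
    [nat_lit 311],[nat_lit 312],[],[],[],[],[nat_lit 313],[nat_lit 314],[nat_lit 310,nat_lit 315,nat_lit 320,
    nat_lit 322],[nat_lit 321,nat_lit 323,nat_lit 326,nat_lit 327],[],[],[nat_lit 316,nat_lit 324],[nat_lit 317,
    nat_lit 325]],[[nat_lit 331,nat_lit 343],[nat_lit 332,nat_lit 335],[],[],[nat_lit 328,nat_lit 338,nat_lit 340,
    nat_lit 352,nat_lit 358],[nat_lit 329,nat_lit 330,nat_lit 337,nat_lit 339,nat_lit 341,nat_lit 347,nat_lit 348,
    nat_lit 349,nat_lit 350,nat_lit 359],[nat_lit 344],[nat_lit 345],[nat_lit 351],[],[nat_lit 355,nat_lit 356],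
    [nat_lit 357],[nat_lit 346,nat_lit 353],[nat_lit 354],[nat_lit 333,nat_lit 336],[nat_lit 334,nat_lit 342]],
    [[nat_lit 371,nat_lit 377],[nat_lit 360,nat_lit 361,nat_lit 362,nat_lit 364,nat_lit 365,nat_lit 372,nat_lit 373,
    nat_lit 374,nat_lit 378,nat_lit 389,nat_lit 390,nat_lit 391],[],[],[nat_lit 363,nat_lit 388],[],[nat_lit 379],
    [nat_lit 380],[],[],[nat_lit 367,nat_lit 368,nat_lit 369,nat_lit 370,nat_lit 375,nat_lit 381,nat_lit 385,
    nat_lit 386],[nat_lit 387],[nat_lit 382,nat_lit 383],[nat_lit 384],[],[nat_lit 366,nat_lit 376]]]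
    [[[nat_lit 0,nat_lit 0,nat_lit 0,nat_lit 0,
    nat_lit 0x40400000000000000000000000000000000000000000000000000000000000000000000000000000000000,
    nat_lit 0x40400000000000000000000000000000000000000000000000000000000000000000000000000000000000,
    nat_lit 0x40400000000000000000000000000000000000000000000000000000000000000000000000000000000000,
    nat_lit 0x40400000000000000000000000000000000000000000000000000000000000000000000000000000000000,
    nat_lit 0x100000000000000000000000000000000000000000000000000000000000000000000000000000000000000],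
    [nat_lit 0x100000000000000000000000000000000000000000000000000000000000000000000000000000000000000,
    nat_lit 0x100000000000000000000000000000000000000000000000000000000000000000000000000000000000000,
    nat_lit 0x100000000000000000000000000000000000000000000000000000000000000000000000000000000000000,
    nat_lit 0x100000000000000000000000000000000000000000000000000000000000000000000000000000000000000,
    nat_lit 0x100000000000000000000000000000000000000000000000000000000000000000000000000000000000000,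
    nat_lit 0x100000000000000000000000000000000000000000000000000000000000000000000000000000000000000,
    nat_lit 0x100000000000000000000000000000000000000000000000000000000000000000000000000000000000000,
    nat_lit 0x100000000000000000000000000000000000000000000000000000000000000000000000000000000000000,
    nat_lit 0x100000000000000000000000000000000000000000000000000000000000000000000000000000000000000],
    [nat_lit 0x100000000000000000000000000000000000000000000000000000000000000000000000000000000000000,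
    nat_lit 0x100000000000000000000000000000000000000000000000000000000000000000000000000000000000000,
    nat_lit 0x100000000000000000000000000000000000000000000000000000000000000000000000000000000000000,nat_lit 0,
    nat_lit 0,nat_lit 0,nat_lit 0,
    nat_lit 0x8000000000000000000000000000000000000000000000000000000000000000000000000000000000000000,
    nat_lit 0x80782a060000000000000000000000000000000000000000000000000000000000000000000000000000000000],
    [nat_lit 0x200000000000000000000000000000000000000000000000000000000000000000000000000000000000000,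
    nat_lit 0x20400000000000000000000000000000000000000000000000000000000000000000000000000000000000000,
    nat_lit 0x20400000000000000000000000000000000000000000000000000000000000000000000000000000000000000,
    nat_lit 0x20400000000000000000000000000000000000000000000000000000000000000000000000000000000000000,
    nat_lit 0x1200000000000000000000000000000000000000000000000000000000000000000000000000000000000,
    nat_lit 0x200000000000000000000000000000000000000000000000000000000000000000000000000000000000000000,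
    nat_lit 0x80080000000000000000000000000000000000000000000000000000000000000000000000000000000000,
    nat_lit 0x80080000000000000000000000000000000000000000000000000000000000000000000000000000000000,
    nat_lit 0x40000000000000000000000000000000000000000000000000000000000000000000000000000000000000000],
    [nat_lit 0x40000000000000000000000000000000000000000000000000000000000000000000000000000000000000000,nat_lit 0,
    nat_lit 0,nat_lit 0,nat_lit 0,nat_lit 0,nat_lit 0,nat_lit 0xd020000000000000000000000,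
    nat_lit 0x200000000000000000000000],[nat_lit 0x200000000000000000000000,nat_lit 0x200000000000000000000000,
    nat_lit 0x200000000000000000000000,nat_lit 0x400000000000000000000000,nat_lit 0x20c0000000000000000000000,
    nat_lit 0x10000000000000000000000000,nat_lit 0x10000000000000000000000000,nat_lit 0x10000000000000000000000000,
    nat_lit 0x10000000000000000000000000],[nat_lit 0x10000000000000000000000000,nat_lit 0x10000000000000000000000000,
    nat_lit 0x10000000000000000000000000,nat_lit 0x10000000000000000000000000,nat_lit 0,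
    nat_lit 0x810000000000000000000000,nat_lit 0,nat_lit 0,nat_lit 0x20000000000000000000000000],
    [nat_lit 0x20000000000000000000000000,nat_lit 0x20000000000000000000000000,nat_lit 0x20000000000000000000000000,
    nat_lit 0x20000000000000000000000000,nat_lit 0x20000000000000000000000000,nat_lit 0x20000000000000000000000000,
    nat_lit 0x20000000000000000000000000,nat_lit 0x20000000000000000000000000,nat_lit 0x20000000000000000000000000],
    [nat_lit 0x20000000000000000000000000,nat_lit 0x20000000000000000000000000,nat_lit 0x200000091,nat_lit 0x2000000,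
    nat_lit 0x2000000,nat_lit 0x2000000,nat_lit 0x10000,nat_lit 0x10000,nat_lit 0x10000]],[[nat_lit 0x10000,
    nat_lit 0x4000000,nat_lit 0x20000000,nat_lit 0x20000000,nat_lit 0,nat_lit 0x1c01380c4c,nat_lit 0x1d804a000,
    nat_lit 0x80088200000000000000000000000000000000000,nat_lit 0],[nat_lit 0,
    nat_lit 0x200100c000000000000000000000000000000000,nat_lit 0x100110040000000000000000000000000000000000,
    nat_lit 0x100110040000000000000000000000000000000000,nat_lit 0x100110040000000000000000000000000000000000,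
    nat_lit 0x100110040000000000000000000000000000000000,nat_lit 0,nat_lit 0,nat_lit 0],[nat_lit 0,
    nat_lit 0x4002000000000000000000000000000000000000,nat_lit 0x800000000000000000000000000000000000000,
    nat_lit 0x8000000000000000000,nat_lit 0x8000000000000000000,nat_lit 0x8000000000000000000,
    nat_lit 0x8000000000000000000,nat_lit 0,nat_lit 0],[nat_lit 0,nat_lit 0,nat_lit 0x3404000000000000000000,
    nat_lit 0x3404000000000000000000,nat_lit 0x3404000000000000000000,nat_lit 0x3404000000000000000000,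
    nat_lit 0x800000000000000000000,nat_lit 0x800000000000000000000,nat_lit 0x800000000000000000000],
    [nat_lit 0x800000000000000000000,nat_lit 0,nat_lit 0,nat_lit 0,nat_lit 0,nat_lit 0x4000000000000000000000,
    nat_lit 0,nat_lit 0,nat_lit 0],[nat_lit 0,nat_lit 0,nat_lit 0,nat_lit 0,nat_lit 0,nat_lit 0,
    nat_lit 0x8000000000000000000000,nat_lit 0x8000000000000000000000,
    nat_lit 0x800000000000000000000000000000000000000000000],[nat_lit 0x800000000000000000000000000000000000000000000,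
    nat_lit 0x800000000000000000000000000000000000000000000,nat_lit 0x800000000000000000000000000000000000000000000,
    nat_lit 0x800000000000000000000000000000000000000000000,nat_lit 0x800000000000000000000000000000000000000000000,
    nat_lit 0x800000000000000000000000000000000000000000000,nat_lit 0x800000000000000000000000000000000000000000000,
    nat_lit 0x800000000000000000000000000000000000000000000,nat_lit 0x800000000000000000000000000000000000000000000],
    [nat_lit 0x800000000000000000000000000000000000000000000,nat_lit 0x800000000000000000000000000000000000000000000,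
    nat_lit 0x800000000000000000000000000000000000000000000,nat_lit 0x40000000000000000000000000000000000000000000,
    nat_lit 0x40000000000000000000000000000000000000000000,nat_lit 0x40000000000000000000000000000000000000000000,
    nat_lit 0x80000000000000000000000000000000000000000000,nat_lit 0x80000000000000000000000000000000000000000000,
    nat_lit 0x80000000000000000000000000000000000000000000],[nat_lit 0x80000000000000000000000000000000000000000000,
    nat_lit 0x80000000000000000000000000000000000000000000,nat_lit 0x80000000000000000000000000000000000000000000,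
    nat_lit 0x20000000000000000000000000000000000000000000,nat_lit 0x20000000000000000000000000000000000000000000,
    nat_lit 0x20000000000000000000000000000000000000000000,nat_lit 0x20000000000000000000000000000000000000000000,
    nat_lit 0x20000000000000000000000000000000000000000000,nat_lit 0x20000000000000000000000000000000000000000000]],
    [[nat_lit 0x20000000000000000000000000000000000000000000,nat_lit 0x20000000000000000000000000000000000000000000,
    nat_lit 0x20000000000000000000000000000000000000000000,nat_lit 0x20000000000000000000000000000000000000000000,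
    nat_lit 0x444000000000000000000000000000,nat_lit 0x1330212500000000000000000000000000,nat_lit 0,nat_lit 0,
    nat_lit 0xe888000000000000000000000000000],[nat_lit 0x2cc1121ac0000000000000000000000000,nat_lit 0,
    nat_lit 0x1000000000000000000000000000000000000000000000000,
    nat_lit 0x10000000000000000000000000000000000000000000000000,
    nat_lit 0x400000000000000000000000000000000000000000000000000,
    nat_lit 0x400000000000000000000000000000000000000000000000000,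
    nat_lit 0x8000000000000000000000000000000000000000000000000,
    nat_lit 0x20000000000000000000000000000000000000000000000000,
    nat_lit 0x800000000000000000000000000000000000000000000000000],
    [nat_lit 0x10000000000000000000000000000000000000000000,nat_lit 0,nat_lit 0,
    nat_lit 0x800000000000000000000000000000000000000000,nat_lit 0,
    nat_lit 0x1000000000000000000000000000000000000000000,nat_lit 0,nat_lit 0,nat_lit 0],
    [nat_lit 0x8000000000000000000000000000000000000000000,nat_lit 0x6000000000000000000000000000000000000000000,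
    nat_lit 0x400000000000000000000000000000000000000000,
    nat_lit 0x800000000000000000000000000000000000000000000000000000000000000000000,
    nat_lit 0x800000000000000000000000000000000000000000000000000000000000000000000,
    nat_lit 0x800000000000000000000000000000000000000000000000000000000000000000000,
    nat_lit 0x800000000000000000000000000000000000000000000000000000000000000000000,
    nat_lit 0x800000000000000000000000000000000000000000000000000000000000000000000,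
    nat_lit 0x800000000000000000000000000000000000000000000000000000000000000000000],[nat_lit 0,nat_lit 0,nat_lit 0,
    nat_lit 0x1000000000000000000000000000000000000000000000000000000000000000000000,
    nat_lit 0x1100400d11000000000000000000000000000000000000000000000000000000000000000,
    nat_lit 0x8e030a000400000000000000000000000000000000000000000000000000000000000000,nat_lit 0,nat_lit 0,nat_lit 0],
    [nat_lit 0,nat_lit 0,nat_lit 0,nat_lit 0x10000000000000000000000000000000000000000000000,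
    nat_lit 0x8ad000000000000000000000000000000000000000000000,nat_lit 0,
    nat_lit 0x200000000000000000000000000000000000000000000000,
    nat_lit 0x200000000000000000000000000000000000000000000000,
    nat_lit 0x200000000000000000000000000000000000000000000000],
    [nat_lit 0x200000000000000000000000000000000000000000000000,
    nat_lit 0x200000000000000000000000000000000000000000000000,
    nat_lit 0x200000000000000000000000000000000000000000000000,
    nat_lit 0x200000000000000000000000000000000000000000000000,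
    nat_lit 0x200000000000000000000000000000000000000000000000,
    nat_lit 0x200000000000000000000000000000000000000000000000,nat_lit 0,nat_lit 0,nat_lit 0],[nat_lit 0,nat_lit 0,
    nat_lit 0,nat_lit 0,nat_lit 0,nat_lit 0,nat_lit 0,nat_lit 0,nat_lit 0],[nat_lit 0,nat_lit 0,nat_lit 0,nat_lit 0,
    nat_lit 0,nat_lit 0,nat_lit 0x400000000000000000000000000000000000000000000000,
    nat_lit 0x400000000000000000000000000000000000000000000000,
    nat_lit 0x400000000000000000000000000000000000000000000000]],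
    [[nat_lit 0x400000000000000000000000000000000000000000000000,
    nat_lit 0x400000000000000000000000000000000000000000000000,
    nat_lit 0x400000000000000000000000000000000000000000000000,
    nat_lit 0x400000000000000000000000000000000000000000000000,
    nat_lit 0x400000000000000000000000000000000000000000000000,
    nat_lit 0x800000000000000000000000000000000000000000000000000000000000000000000000000000,
    nat_lit 0x800000000000000000000000000000000000000000000000000000000000000000000000000000,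
    nat_lit 0x800000000000000000000000000000000000000000000000000000000000000000000000000000,
    nat_lit 0x800000000000000000000000000000000000000000000000000000000000000000000000000000],
    [nat_lit 0x800000000000000000000000000000000000000000000000000000000000000000000000000000,
    nat_lit 0x800000000000000000000000000000000000000000000000000000000000000000000000000000,
    nat_lit 0x800000000000000000000000000000000000000000000000000000000000000000000000000000,
    nat_lit 0x800000000000000000000000000000000000000000000000000000000000000000000000000000,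
    nat_lit 0x2020000000000000000000000000000000000000000000000000000000000000000000000000000000,
    nat_lit 0x2020000000000000000000000000000000000000000000000000000000000000000000000000000000,
    nat_lit 0x2020000000000000000000000000000000000000000000000000000000000000000000000000000000,nat_lit 0,nat_lit 0],
    [nat_lit 0x80000000000000000000000000000000000000000000000000000000000000000000000000000000,
    nat_lit 0x80000000000000000000000000000000000000000000000000000000000000000000000000000000,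
    nat_lit 0x1000000000000000000000000000000000000000000000000000000000000000000000000000000,
    nat_lit 0x2000000000000000000000000000000000000000000000000000000000000000000000000000000,
    nat_lit 0x2000000000000000000000000000000000000000000000000000000000000000000000000000000,nat_lit 0,nat_lit 0,
    nat_lit 0,nat_lit 0],[nat_lit 0,nat_lit 0,nat_lit 0,nat_lit 0,
    nat_lit 0x4000000000000000000000000000000000000000000000000000000000000000000000000000000,
    nat_lit 0x4000000000000000000000000000000000000000000000000000000000000000000000000000000,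
    nat_lit 0x4000000000000000000000000000000000000000000000000000000000000000000000000000000,
    nat_lit 0x4000000000000000000000000000000000000000000000000000000000000000000000000000000,
    nat_lit 0x4000000000000000000000000000000000000000000000000000000000000000000000000000000],
    [nat_lit 0x4000000000000000000000000000000000000000000000000000000000000000000000000000000,
    nat_lit 0x4000000000000000000000000000000000000000000000000000000000000000000000000000000,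
    nat_lit 0x4000000000000000000000000000000000000000000000000000000000000000000000000000000,
    nat_lit 0x4000000000000000000000000000000000000000000000000000000000000000000000000000000,
    nat_lit 0x1010000000000000000000000000000000000000000000000000000000000000000000000000000000,
    nat_lit 0x1010000000000000000000000000000000000000000000000000000000000000000000000000000000,
    nat_lit 0x1010000000000000000000000000000000000000000000000000000000000000000000000000000000,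
    nat_lit 0xca00000000000000000000000000000000000000000000000000000000000000000000000000000000,
    nat_lit 0xca00000000000000000000000000000000000000000000000000000000000000000000000000000000],
    [nat_lit 0xca00000000000000000000000000000000000000000000000000000000000000000000000000000000,
    nat_lit 0xca00000000000000000000000000000000000000000000000000000000000000000000000000000000,
    nat_lit 0x40000000000000000000000000000000000000000000000000000000000000000000000000000000,nat_lit 0,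
    nat_lit 0x1000000004000000000000000000000000000000000000000000000000000,
    nat_lit 0x20000000000000000000000000000000000000000000000000000000000,
    nat_lit 0x20000000000000000000000000000000000000000000000000000000000000,
    nat_lit 0x804082012a000000000000000000000000000000000000000000000000000,
    nat_lit 0x1018500a0c0000000000000000000000000000000000000000000000000000],
    [nat_lit 0x80400000000000000000000000000000000000000000000000000000,
    nat_lit 0x40400100800000000000000000000000000000000000000000000000000000,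
    nat_lit 0x40400100800000000000000000000000000000000000000000000000000000,
    nat_lit 0x40400100800000000000000000000000000000000000000000000000000000,
    nat_lit 0x40400100800000000000000000000000000000000000000000000000000000,nat_lit 0,nat_lit 0,nat_lit 0,nat_lit 0],
    [nat_lit 0x4000400010000000000000000000000000000000000000000000000000000,
    nat_lit 0x4000400010000000000000000000000000000000000000000000000000000,
    nat_lit 0x80800001000000000000000000000000000000000000000000000000000000,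
    nat_lit 0x80800001000000000000000000000000000000000000000000000000000000,
    nat_lit 0x10040000000000000000000000000000000000000000000000000000000000000000000000000000000000000000000,
    nat_lit 0x10000008000000000000000000000000000000000000000000000000000000000000000000000000000000000000000000,
    nat_lit 0xe0047037000000000000000000000000000000000000000000000000000000000000000000000000000000000000000000,
    nat_lit 0x6208780000000000000000000000000000000000000000000000000000000000000000000000000000000000000000000,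
    nat_lit 0x100000000000000000000000000000000000000000000000000000000000000000000000000000000000000000000000],
    [nat_lit 0xc00000000000000000000000000000000000000000000000000000000000000000000000000000000000000000000000,
    nat_lit 0xc00000000000000000000000000000000000000000000000000000000000000000000000000000000000000000000000,
    nat_lit 0xc00000000000000000000000000000000000000000000000000000000000000000000000000000000000000000000000,
    nat_lit 0,nat_lit 0,nat_lit 0,nat_lit 0,nat_lit 0,nat_lit 0]],[[nat_lit 0,nat_lit 0,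
    nat_lit 0x20800000000000000000000000000000000000000000000000000000000000000000000000000000000000000000000,
    nat_lit 0x1000000000000000000000000000000000000000000000000000000000000000000000000000000000000000000000000,
    nat_lit 0x40000000000000000000000000000000000000000000000000000000000000000000000000,
    nat_lit 0x40000000000000000000000000000000000000000000000000000000000000000000000000,
    nat_lit 0x40000000000000000000000000000000000000000000000000000000000000000000000000,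
    nat_lit 0x40000000000000000000000000000000000000000000000000000000000000000000000000,
    nat_lit 0x40000000000000000000000000000000000000000000000000000000000000000000000000],
    [nat_lit 0x40000000000000000000000000000000000000000000000000000000000000000000000000,
    nat_lit 0x40000000000000000000000000000000000000000000000000000000000000000000000000,
    nat_lit 0x40000000000000000000000000000000000000000000000000000000000000000000000000,
    nat_lit 0x40000000000000000000000000000000000000000000000000000000000000000000000000,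
    nat_lit 0x40000000000000000000000000000000000000000000000000000000000000000000000000,
    nat_lit 0x40000000000000000000000000000000000000000000000000000000000000000000000000,
    nat_lit 0x40000000000000000000000000000000000000000000000000000000000000000000000000,
    nat_lit 0x2000000000000000000000000000000000000000000000000000000000000000000000000000,
    nat_lit 0x2000000000000000000000000000000000000000000000000000000000000000000000000000],
    [nat_lit 0x80000000000000000000000000000000000000000000000000000000000000000000000000,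
    nat_lit 0x80000000000000000000000000000000000000000000000000000000000000000000000000,
    nat_lit 0x100000000000000000000000000000000000000000000000000000000000000000000000000,nat_lit 0,nat_lit 0,
    nat_lit 0x200000000000000000000000000000000000000000000000000000000000000000000000000,
    nat_lit 0x200000000000000000000000000000000000000000000000000000000000000000000000000,
    nat_lit 0x200000000000000000000000000000000000000000000000000000000000000000000000000,
    nat_lit 0x200000000000000000000000000000000000000000000000000000000000000000000000000],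
    [nat_lit 0x200000000000000000000000000000000000000000000000000000000000000000000000000,
    nat_lit 0x200000000000000000000000000000000000000000000000000000000000000000000000000,
    nat_lit 0x200000000000000000000000000000000000000000000000000000000000000000000000000,
    nat_lit 0x200000000000000000000000000000000000000000000000000000000000000000000000000,
    nat_lit 0x1000000000000000000000000000000000000000000000000000000000000000000000000000,
    nat_lit 0x2a0000000000000000000000000000000000000000000000000000000000000000000000000000,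
    nat_lit 0x2a0000000000000000000000000000000000000000000000000000000000000000000000000000,
    nat_lit 0x4000000000000000000000000000000000000000000000000000000000000000000000000000,
    nat_lit 0x4000000000000000000000000000000000000000000000000000000000000000000000000000],[nat_lit 0,nat_lit 0,
    nat_lit 0x100000400000000000,nat_lit 0x100000400000000000,nat_lit 0x1000000000000,nat_lit 0x1000000000000,
    nat_lit 0x1000000000000,nat_lit 0x1000000000000,nat_lit 0x1000000000000],[nat_lit 0x1000000000000,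
    nat_lit 0x1000000000000,nat_lit 0x1000000000000,nat_lit 0x1000000000000,nat_lit 0x1000000000000,nat_lit 0,
    nat_lit 0,nat_lit 0,nat_lit 0],[nat_lit 0,nat_lit 0x8000000000000,nat_lit 0x281a4640ca000000000,
    nat_lit 0x2000000000000,nat_lit 0x80000000000000,nat_lit 0,nat_lit 0,nat_lit 0x480000000000000000,
    nat_lit 0xa10000000000000],[nat_lit 0xa10000000000000,nat_lit 0x20000904000000000,nat_lit 0x20000904000000000,
    nat_lit 0x100000000000000,nat_lit 0x100000000000000]]]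
    [[[[nat_lit 0,nat_lit 0,nat_lit 0,nat_lit 0,nat_lit 0,
    nat_lit 0x40400000000000000000000000000000000000000000000000000000000000000000000000000000000000,
    nat_lit 0x40400000000000000000000000000000000000000000000000000000000000000000000000000000000000,
    nat_lit 0x40400000000000000000000000000000000000000000000000000000000000000000000000000000000000,
    nat_lit 0x100000000000000000000000000000000000000000000000000000000000000000000000000000000000000],
    [nat_lit 0x100000000000000000000000000000000000000000000000000000000000000000000000000000000000000,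
    nat_lit 0x100000000000000000000000000000000000000000000000000000000000000000000000000000000000000,nat_lit 0,
    nat_lit 0,nat_lit 0x100000000000000000000000000000000000000000000000000000000000000000000000000000000000000,
    nat_lit 0x100000000000000000000000000000000000000000000000000000000000000000000000000000000000000,nat_lit 0,
    nat_lit 0,nat_lit 0],[nat_lit 0,nat_lit 0,
    nat_lit 0x100000000000000000000000000000000000000000000000000000000000000000000000000000000000000,nat_lit 0,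
    nat_lit 0,nat_lit 0,nat_lit 0,nat_lit 0,
    nat_lit 0x2000000000000000000000000000000000000000000000000000000000000000000000000000000000000],[nat_lit 0,
    nat_lit 0,nat_lit 0,nat_lit 0,nat_lit 0,nat_lit 0,
    nat_lit 0x80080000000000000000000000000000000000000000000000000000000000000000000000000000000000,
    nat_lit 0x80080000000000000000000000000000000000000000000000000000000000000000000000000000000000,
    nat_lit 0x40000000000000000000000000000000000000000000000000000000000000000000000000000000000000000],[nat_lit 0,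
    nat_lit 0,nat_lit 0,nat_lit 0,nat_lit 0,nat_lit 0,nat_lit 0,nat_lit 0x4000000000000000000000000,
    nat_lit 0x200000000000000000000000],[nat_lit 0x200000000000000000000000,nat_lit 0x200000000000000000000000,
    nat_lit 0,nat_lit 0x400000000000000000000000,nat_lit 0,nat_lit 0,nat_lit 0,nat_lit 0,nat_lit 0],
    [nat_lit 0x10000000000000000000000000,nat_lit 0,nat_lit 0,nat_lit 0x10000000000000000000000000,nat_lit 0,
    nat_lit 0,nat_lit 0,nat_lit 0,nat_lit 0],[nat_lit 0,nat_lit 0x20000000000000000000000000,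
    nat_lit 0x20000000000000000000000000,nat_lit 0x20000000000000000000000000,nat_lit 0x20000000000000000000000000,
    nat_lit 0x20000000000000000000000000,nat_lit 0,nat_lit 0,nat_lit 0x20000000000000000000000000],[nat_lit 0,
    nat_lit 0,nat_lit 0x200000011,nat_lit 0,nat_lit 0,nat_lit 0,nat_lit 0x10000,nat_lit 0,nat_lit 0]],[[nat_lit 0,
    nat_lit 0x4000000,nat_lit 0,nat_lit 0,nat_lit 0,nat_lit 0x1400100448,nat_lit 0x10040000,nat_lit 0,nat_lit 0],
    [nat_lit 0,nat_lit 0x2001004000000000000000000000000000000000,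
    nat_lit 0x100110000000000000000000000000000000000000,nat_lit 0,nat_lit 0x110000000000000000000000000000000000000,
    nat_lit 0,nat_lit 0,nat_lit 0,nat_lit 0],[nat_lit 0,nat_lit 0x4002000000000000000000000000000000000000,
    nat_lit 0x800000000000000000000000000000000000000,nat_lit 0,nat_lit 0x8000000000000000000,
    nat_lit 0x8000000000000000000,nat_lit 0x8000000000000000000,nat_lit 0,nat_lit 0],[nat_lit 0,nat_lit 0,
    nat_lit 0x2400000000000000000000,nat_lit 0x2400000000000000000000,nat_lit 0x2000000000000000000000,nat_lit 0,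
    nat_lit 0,nat_lit 0,nat_lit 0],[nat_lit 0,nat_lit 0,nat_lit 0,nat_lit 0,nat_lit 0,
    nat_lit 0x4000000000000000000000,nat_lit 0,nat_lit 0,nat_lit 0],[nat_lit 0,nat_lit 0,nat_lit 0,nat_lit 0,
    nat_lit 0,nat_lit 0,nat_lit 0x8000000000000000000000,nat_lit 0x8000000000000000000000,nat_lit 0],[nat_lit 0,
    nat_lit 0,nat_lit 0,nat_lit 0x800000000000000000000000000000000000000000000,
    nat_lit 0x800000000000000000000000000000000000000000000,nat_lit 0x800000000000000000000000000000000000000000000,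
    nat_lit 0,nat_lit 0,nat_lit 0x800000000000000000000000000000000000000000000],
    [nat_lit 0x800000000000000000000000000000000000000000000,nat_lit 0x800000000000000000000000000000000000000000000,
    nat_lit 0x800000000000000000000000000000000000000000000,nat_lit 0,
    nat_lit 0x40000000000000000000000000000000000000000000,nat_lit 0,nat_lit 0,nat_lit 0,
    nat_lit 0x80000000000000000000000000000000000000000000],[nat_lit 0,nat_lit 0,nat_lit 0,
    nat_lit 0x20000000000000000000000000000000000000000000,nat_lit 0x20000000000000000000000000000000000000000000,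
    nat_lit 0x20000000000000000000000000000000000000000000,nat_lit 0x20000000000000000000000000000000000000000000,
    nat_lit 0x20000000000000000000000000000000000000000000,nat_lit 0x20000000000000000000000000000000000000000000]],
    [[nat_lit 0x20000000000000000000000000000000000000000000,nat_lit 0x20000000000000000000000000000000000000000000,
    nat_lit 0x20000000000000000000000000000000000000000000,nat_lit 0,nat_lit 0x4000000000000000000000000000,
    nat_lit 0x1330210500000000000000000000000000,nat_lit 0,nat_lit 0,nat_lit 0x8000000000000000000000000000],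
    [nat_lit 0x2c01020a00000000000000000000000000,nat_lit 0,
    nat_lit 0x1000000000000000000000000000000000000000000000000,
    nat_lit 0x10000000000000000000000000000000000000000000000000,
    nat_lit 0x400000000000000000000000000000000000000000000000000,nat_lit 0,nat_lit 0,nat_lit 0,
    nat_lit 0x800000000000000000000000000000000000000000000000000],[nat_lit 0,nat_lit 0,nat_lit 0,
    nat_lit 0x800000000000000000000000000000000000000000,nat_lit 0,nat_lit 0,nat_lit 0,nat_lit 0,nat_lit 0],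
    [nat_lit 0x8000000000000000000000000000000000000000000,nat_lit 0x4000000000000000000000000000000000000000000,
    nat_lit 0x400000000000000000000000000000000000000000,
    nat_lit 0x800000000000000000000000000000000000000000000000000000000000000000000,nat_lit 0,nat_lit 0,nat_lit 0,
    nat_lit 0x800000000000000000000000000000000000000000000000000000000000000000000,nat_lit 0],[nat_lit 0,nat_lit 0,
    nat_lit 0,nat_lit 0,nat_lit 0x100000d11000000000000000000000000000000000000000000000000000000000000000,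
    nat_lit 0x880002000400000000000000000000000000000000000000000000000000000000000000,nat_lit 0,nat_lit 0,nat_lit 0],
    [nat_lit 0,nat_lit 0,nat_lit 0,nat_lit 0,nat_lit 0x808000000000000000000000000000000000000000000000,nat_lit 0,
    nat_lit 0,nat_lit 0x200000000000000000000000000000000000000000000000,
    nat_lit 0x200000000000000000000000000000000000000000000000],
    [nat_lit 0x200000000000000000000000000000000000000000000000,nat_lit 0,nat_lit 0,nat_lit 0,nat_lit 0,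
    nat_lit 0x200000000000000000000000000000000000000000000000,nat_lit 0,nat_lit 0,nat_lit 0],[nat_lit 0,nat_lit 0,
    nat_lit 0,nat_lit 0,nat_lit 0,nat_lit 0,nat_lit 0,nat_lit 0,nat_lit 0],[nat_lit 0,nat_lit 0,nat_lit 0,nat_lit 0,
    nat_lit 0,nat_lit 0,nat_lit 0x400000000000000000000000000000000000000000000000,
    nat_lit 0x400000000000000000000000000000000000000000000000,
    nat_lit 0x400000000000000000000000000000000000000000000000]],
    [[nat_lit 0x400000000000000000000000000000000000000000000000,nat_lit 0,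
    nat_lit 0x400000000000000000000000000000000000000000000000,nat_lit 0,
    nat_lit 0x400000000000000000000000000000000000000000000000,
    nat_lit 0x800000000000000000000000000000000000000000000000000000000000000000000000000000,
    nat_lit 0x800000000000000000000000000000000000000000000000000000000000000000000000000000,
    nat_lit 0x800000000000000000000000000000000000000000000000000000000000000000000000000000,nat_lit 0],
    [nat_lit 0x800000000000000000000000000000000000000000000000000000000000000000000000000000,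
    nat_lit 0x800000000000000000000000000000000000000000000000000000000000000000000000000000,nat_lit 0,
    nat_lit 0x800000000000000000000000000000000000000000000000000000000000000000000000000000,
    nat_lit 0x20000000000000000000000000000000000000000000000000000000000000000000000000000000,
    nat_lit 0x20000000000000000000000000000000000000000000000000000000000000000000000000000000,
    nat_lit 0x20000000000000000000000000000000000000000000000000000000000000000000000000000000,nat_lit 0,nat_lit 0],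
    [nat_lit 0x80000000000000000000000000000000000000000000000000000000000000000000000000000000,
    nat_lit 0x80000000000000000000000000000000000000000000000000000000000000000000000000000000,
    nat_lit 0x1000000000000000000000000000000000000000000000000000000000000000000000000000000,nat_lit 0,
    nat_lit 0x2000000000000000000000000000000000000000000000000000000000000000000000000000000,nat_lit 0,nat_lit 0,
    nat_lit 0,nat_lit 0],[nat_lit 0,nat_lit 0,nat_lit 0,nat_lit 0,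
    nat_lit 0x4000000000000000000000000000000000000000000000000000000000000000000000000000000,
    nat_lit 0x4000000000000000000000000000000000000000000000000000000000000000000000000000000,nat_lit 0,nat_lit 0,
    nat_lit 0],[nat_lit 0x4000000000000000000000000000000000000000000000000000000000000000000000000000000,
    nat_lit 0x4000000000000000000000000000000000000000000000000000000000000000000000000000000,
    nat_lit 0x4000000000000000000000000000000000000000000000000000000000000000000000000000000,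
    nat_lit 0x4000000000000000000000000000000000000000000000000000000000000000000000000000000,nat_lit 0,nat_lit 0,
    nat_lit 0x1000000000000000000000000000000000000000000000000000000000000000000000000000000000,nat_lit 0,nat_lit 0],
    [nat_lit 0x4800000000000000000000000000000000000000000000000000000000000000000000000000000000,nat_lit 0,
    nat_lit 0x40000000000000000000000000000000000000000000000000000000000000000000000000000000,nat_lit 0,
    nat_lit 0x1000000004000000000000000000000000000000000000000000000000000,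
    nat_lit 0x20000000000000000000000000000000000000000000000000000000000,
    nat_lit 0x20000000000000000000000000000000000000000000000000000000000000,
    nat_lit 0x8000820122000000000000000000000000000000000000000000000000000,
    nat_lit 0x1008100a080000000000000000000000000000000000000000000000000000],
    [nat_lit 0x400000000000000000000000000000000000000000000000000000,
    nat_lit 0x40000000000000000000000000000000000000000000000000000000000000,nat_lit 0,nat_lit 0,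
    nat_lit 0x40000000000000000000000000000000000000000000000000000000000000,nat_lit 0,nat_lit 0,nat_lit 0,nat_lit 0],
    [nat_lit 0,nat_lit 0x4000400010000000000000000000000000000000000000000000000000000,
    nat_lit 0x800000000000000000000000000000000000000000000000000000000000,nat_lit 0,nat_lit 0,
    nat_lit 0x10000008000000000000000000000000000000000000000000000000000000000000000000000000000000000000000000,
    nat_lit 0xa0002016000000000000000000000000000000000000000000000000000000000000000000000000000000000000000000,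
    nat_lit 0x2208400000000000000000000000000000000000000000000000000000000000000000000000000000000000000000000,
    nat_lit 0x100000000000000000000000000000000000000000000000000000000000000000000000000000000000000000000000],
    [nat_lit 0x800000000000000000000000000000000000000000000000000000000000000000000000000000000000000000000000,
    nat_lit 0,nat_lit 0,nat_lit 0,nat_lit 0,nat_lit 0,nat_lit 0,nat_lit 0,nat_lit 0]],[[nat_lit 0,nat_lit 0,nat_lit 0,
    nat_lit 0,nat_lit 0,nat_lit 0,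
    nat_lit 0x40000000000000000000000000000000000000000000000000000000000000000000000000,
    nat_lit 0x40000000000000000000000000000000000000000000000000000000000000000000000000,
    nat_lit 0x40000000000000000000000000000000000000000000000000000000000000000000000000],
    [nat_lit 0x40000000000000000000000000000000000000000000000000000000000000000000000000,
    nat_lit 0x40000000000000000000000000000000000000000000000000000000000000000000000000,nat_lit 0,nat_lit 0,
    nat_lit 0x40000000000000000000000000000000000000000000000000000000000000000000000000,nat_lit 0,nat_lit 0,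
    nat_lit 0,nat_lit 0],[nat_lit 0x80000000000000000000000000000000000000000000000000000000000000000000000000,
    nat_lit 0x80000000000000000000000000000000000000000000000000000000000000000000000000,
    nat_lit 0x100000000000000000000000000000000000000000000000000000000000000000000000000,nat_lit 0,nat_lit 0,
    nat_lit 0x200000000000000000000000000000000000000000000000000000000000000000000000000,nat_lit 0,nat_lit 0,
    nat_lit 0],[nat_lit 0x200000000000000000000000000000000000000000000000000000000000000000000000000,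
    nat_lit 0x200000000000000000000000000000000000000000000000000000000000000000000000000,nat_lit 0,
    nat_lit 0x200000000000000000000000000000000000000000000000000000000000000000000000000,nat_lit 0,
    nat_lit 0x20000000000000000000000000000000000000000000000000000000000000000000000000000,nat_lit 0,nat_lit 0,
    nat_lit 0],[nat_lit 0,nat_lit 0,nat_lit 0x100000400000000000,nat_lit 0x100000400000000000,nat_lit 0,nat_lit 0,
    nat_lit 0,nat_lit 0,nat_lit 0],[nat_lit 0,nat_lit 0,nat_lit 0,nat_lit 0,nat_lit 0x1000000000000,nat_lit 0,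
    nat_lit 0,nat_lit 0,nat_lit 0],[nat_lit 0,nat_lit 0,nat_lit 0x81040400a000000000,nat_lit 0,nat_lit 0,nat_lit 0,
    nat_lit 0,nat_lit 0x400000000000000000,nat_lit 0],[nat_lit 0,nat_lit 0x20000804000000000,
    nat_lit 0x20000804000000000,nat_lit 0,nat_lit 0]]],[[[nat_lit 0,nat_lit 0,nat_lit 0,nat_lit 0,nat_lit 0,nat_lit 0,
    nat_lit 0,nat_lit 0,nat_lit 0],[nat_lit 0,nat_lit 0,nat_lit 0,nat_lit 0,nat_lit 0,nat_lit 0,nat_lit 0,nat_lit 0,
    nat_lit 0],[nat_lit 0,nat_lit 0,nat_lit 0,nat_lit 0,nat_lit 0,nat_lit 0,nat_lit 0,nat_lit 0,nat_lit 0],[nat_lit 0,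
    nat_lit 0,nat_lit 0,nat_lit 0,nat_lit 0,nat_lit 0,nat_lit 0,nat_lit 0,nat_lit 0],[nat_lit 0,nat_lit 0,nat_lit 0,
    nat_lit 0,nat_lit 0,nat_lit 0,nat_lit 0,nat_lit 0,nat_lit 0],[nat_lit 0,nat_lit 0,nat_lit 0,nat_lit 0,nat_lit 0,
    nat_lit 0,nat_lit 0,nat_lit 0,nat_lit 0],[nat_lit 0,nat_lit 0,nat_lit 0,nat_lit 0,nat_lit 0,nat_lit 0,nat_lit 0,
    nat_lit 0,nat_lit 0],[nat_lit 0,nat_lit 0,nat_lit 0,nat_lit 0,nat_lit 0,nat_lit 0x20000000000000000000000000,
    nat_lit 0,nat_lit 0,nat_lit 0],[nat_lit 0,nat_lit 0,nat_lit 0,nat_lit 0,nat_lit 0,nat_lit 0,nat_lit 0,nat_lit 0,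
    nat_lit 0]],[[nat_lit 0,nat_lit 0,nat_lit 0,nat_lit 0,nat_lit 0,nat_lit 0x400000000,nat_lit 0,nat_lit 0,
    nat_lit 0],[nat_lit 0,nat_lit 0,nat_lit 0x10000000000000000000000000000000000000,nat_lit 0,
    nat_lit 0x110000000000000000000000000000000000000,nat_lit 0,nat_lit 0,nat_lit 0,nat_lit 0],[nat_lit 0,nat_lit 0,
    nat_lit 0x800000000000000000000000000000000000000,nat_lit 0,nat_lit 0,nat_lit 0,nat_lit 0,nat_lit 0,nat_lit 0],
    [nat_lit 0,nat_lit 0,nat_lit 0x2400000000000000000000,nat_lit 0x400000000000000000000,nat_lit 0,nat_lit 0,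
    nat_lit 0,nat_lit 0,nat_lit 0],[nat_lit 0,nat_lit 0,nat_lit 0,nat_lit 0,nat_lit 0,
    nat_lit 0x4000000000000000000000,nat_lit 0,nat_lit 0,nat_lit 0],[nat_lit 0,nat_lit 0,nat_lit 0,nat_lit 0,
    nat_lit 0,nat_lit 0,nat_lit 0,nat_lit 0,nat_lit 0],[nat_lit 0,nat_lit 0,nat_lit 0,nat_lit 0,nat_lit 0,
    nat_lit 0x800000000000000000000000000000000000000000000,nat_lit 0,nat_lit 0,nat_lit 0],[nat_lit 0,nat_lit 0,
    nat_lit 0,nat_lit 0,nat_lit 0,nat_lit 0,nat_lit 0,nat_lit 0,nat_lit 0],[nat_lit 0,nat_lit 0,nat_lit 0,nat_lit 0,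
    nat_lit 0x20000000000000000000000000000000000000000000,nat_lit 0x20000000000000000000000000000000000000000000,
    nat_lit 0,nat_lit 0,nat_lit 0]],[[nat_lit 0,nat_lit 0,nat_lit 0,nat_lit 0,nat_lit 0,
    nat_lit 0x1000000100000000000000000000000000,nat_lit 0,nat_lit 0,nat_lit 0],
    [nat_lit 0x400000000000000000000000000000000,nat_lit 0,
    nat_lit 0x1000000000000000000000000000000000000000000000000,nat_lit 0,nat_lit 0,nat_lit 0,nat_lit 0,nat_lit 0,
    nat_lit 0],[nat_lit 0,nat_lit 0,nat_lit 0,nat_lit 0x800000000000000000000000000000000000000000,nat_lit 0,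
    nat_lit 0,nat_lit 0,nat_lit 0,nat_lit 0],[nat_lit 0,nat_lit 0,nat_lit 0,
    nat_lit 0x800000000000000000000000000000000000000000000000000000000000000000000,nat_lit 0,nat_lit 0,nat_lit 0,
    nat_lit 0x800000000000000000000000000000000000000000000000000000000000000000000,nat_lit 0],[nat_lit 0,nat_lit 0,
    nat_lit 0,nat_lit 0,nat_lit 0,nat_lit 0,nat_lit 0,nat_lit 0,nat_lit 0],[nat_lit 0,nat_lit 0,nat_lit 0,nat_lit 0,
    nat_lit 0x808000000000000000000000000000000000000000000000,nat_lit 0,nat_lit 0,nat_lit 0,nat_lit 0],[nat_lit 0,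
    nat_lit 0,nat_lit 0,nat_lit 0,nat_lit 0,nat_lit 0,nat_lit 0,nat_lit 0,nat_lit 0],[nat_lit 0,nat_lit 0,nat_lit 0,
    nat_lit 0,nat_lit 0,nat_lit 0,nat_lit 0,nat_lit 0,nat_lit 0],[nat_lit 0,nat_lit 0,nat_lit 0,nat_lit 0,nat_lit 0,
    nat_lit 0,nat_lit 0,nat_lit 0,nat_lit 0]],[[nat_lit 0,nat_lit 0,nat_lit 0,nat_lit 0,nat_lit 0,
    nat_lit 0x800000000000000000000000000000000000000000000000000000000000000000000000000000,nat_lit 0,nat_lit 0,
    nat_lit 0],[nat_lit 0,nat_lit 0,nat_lit 0,nat_lit 0,nat_lit 0,nat_lit 0,nat_lit 0,nat_lit 0,nat_lit 0],[nat_lit 0,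
    nat_lit 0,nat_lit 0,nat_lit 0,
    nat_lit 0x2000000000000000000000000000000000000000000000000000000000000000000000000000000,nat_lit 0,nat_lit 0,
    nat_lit 0,nat_lit 0],[nat_lit 0,nat_lit 0,nat_lit 0,nat_lit 0,nat_lit 0,nat_lit 0,nat_lit 0,nat_lit 0,nat_lit 0],
    [nat_lit 0,nat_lit 0,nat_lit 0,nat_lit 0,nat_lit 0,nat_lit 0,nat_lit 0,nat_lit 0,nat_lit 0],[nat_lit 0,nat_lit 0,
    nat_lit 0,nat_lit 0,nat_lit 0,nat_lit 0,nat_lit 0,nat_lit 0x2000000000000000000000000000000000000000000000000000,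
    nat_lit 0],[nat_lit 0x400000000000000000000000000000000000000000000000000000,nat_lit 0,nat_lit 0,nat_lit 0,
    nat_lit 0,nat_lit 0,nat_lit 0,nat_lit 0,nat_lit 0],[nat_lit 0,nat_lit 0,nat_lit 0,nat_lit 0,nat_lit 0,nat_lit 0,
    nat_lit 0,
    nat_lit 0x200000000000000000000000000000000000000000000000000000000000000000000000000000000000000000000000,
    nat_lit 0],[nat_lit 0,nat_lit 0,nat_lit 0,nat_lit 0,nat_lit 0,nat_lit 0,nat_lit 0,nat_lit 0,nat_lit 0]],
    [[nat_lit 0,nat_lit 0,nat_lit 0,nat_lit 0,nat_lit 0,nat_lit 0,nat_lit 0,nat_lit 0,nat_lit 0],[nat_lit 0,nat_lit 0,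
    nat_lit 0,nat_lit 0,nat_lit 0,nat_lit 0,nat_lit 0,nat_lit 0,nat_lit 0],[nat_lit 0,nat_lit 0,nat_lit 0,nat_lit 0,
    nat_lit 0,nat_lit 0,nat_lit 0,nat_lit 0,nat_lit 0],
    [nat_lit 0x200000000000000000000000000000000000000000000000000000000000000000000000000,nat_lit 0,nat_lit 0,
    nat_lit 0,nat_lit 0,nat_lit 0,nat_lit 0,nat_lit 0,nat_lit 0],[nat_lit 0,nat_lit 0,nat_lit 0,nat_lit 0,nat_lit 0,
    nat_lit 0,nat_lit 0,nat_lit 0,nat_lit 0],[nat_lit 0,nat_lit 0,nat_lit 0,nat_lit 0,nat_lit 0,nat_lit 0,nat_lit 0,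
    nat_lit 0,nat_lit 0],[nat_lit 0,nat_lit 0,nat_lit 0,nat_lit 0,nat_lit 0,nat_lit 0,nat_lit 0,nat_lit 0,nat_lit 0],
    [nat_lit 0,nat_lit 0,nat_lit 0,nat_lit 0,nat_lit 0]]]]
    (nat_lit 2) (nat_lit 1) (nat_lit 81)
    [[nat_lit 2,nat_lit 258,nat_lit 0x100102,nat_lit 0x10010002,nat_lit 0x100002,nat_lit 0x10000002,nat_lit 0x200002,
    nat_lit 0x20000002,nat_lit 17,nat_lit 33,nat_lit 0x10000111,nat_lit 0x1011,nat_lit 0x10011,nat_lit 0x100011,
    nat_lit 0x10000011,nat_lit 0x10100011,nat_lit 257,nat_lit 273,nat_lit 0x10000201,nat_lit 0x10100201,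
    nat_lit 0x1101,nat_lit 0x10101,nat_lit 0x10010101,nat_lit 0x10110101,nat_lit 0x100101,nat_lit 0x200101,
    nat_lit 0x300101,nat_lit 0x10100101,nat_lit 0x10000101,nat_lit 0x10001,nat_lit 0x110001,nat_lit 0x10010001,
    nat_lit 0x10110001,nat_lit 0x10210001,nat_lit 0x20010001,nat_lit 0x100001,nat_lit 0x200001,nat_lit 0x300001,
    nat_lit 0x10100001,nat_lit 0x10200001,nat_lit 0x1000001,nat_lit 0x11000001,nat_lit 0x10000001,nat_lit 0x20100001,
    nat_lit 0x20000001],[nat_lit 32,nat_lit 48,nat_lit 0x1020,nat_lit 0x10000020,nat_lit 272,nat_lit 0x1110,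
    nat_lit 0x100110,nat_lit 0x10000110,nat_lit 0x1000110,nat_lit 0x1010,nat_lit 0x2010,nat_lit 0x11010,
    nat_lit 0x101010,nat_lit 0x10001010,nat_lit 0x10010,nat_lit 0x10010010,nat_lit 0x100010,nat_lit 0x200010,
    nat_lit 0x10200010,nat_lit 0x10100010,nat_lit 0x10000010,nat_lit 0x20000010],[nat_lit 512,nat_lit 0x1000200,
    nat_lit 0x1100,nat_lit 0x10001100,nat_lit 0x10100,nat_lit 0x1010100,nat_lit 0x10010100,nat_lit 0x20010100,
    nat_lit 0x100100,nat_lit 0x200100,nat_lit 0x10200100,nat_lit 0x10100100,nat_lit 0x110100,nat_lit 0x1100100,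
    nat_lit 0x1000100,nat_lit 0x11000100,nat_lit 0x10000100,nat_lit 0x20000100,nat_lit 0x20100100],[nat_lit 0x2000,
    nat_lit 0x11000,nat_lit 0x10011000,nat_lit 0x101000,nat_lit 0x1001000],[nat_lit 0x20000,nat_lit 0x10020000,
    nat_lit 0x110000,nat_lit 0x210000,nat_lit 0x10110000,nat_lit 0x10010000,nat_lit 0x20110000,nat_lit 0x10210000,
    nat_lit 0x10310000,nat_lit 0x20010000],[nat_lit 0x200000,nat_lit 0x300000,nat_lit 0x400000,nat_lit 0x500000,
    nat_lit 0x10400000,nat_lit 0x10300000,nat_lit 0x1200000,nat_lit 0x10200000,nat_lit 0x20200000,nat_lit 0x1100000,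
    nat_lit 0x10100000,nat_lit 0x20100000],[nat_lit 0x2000000,nat_lit 0x11000000],[nat_lit 0x20000000]]
    [.c (nat_lit 1) (nat_lit 2),.c (nat_lit 0) (nat_lit 0x80006003),.c (nat_lit 0) (nat_lit 0x10200a005),
    .r (nat_lit 0xdbe) (nat_lit 8) [nat_lit 0xc00c5104142,nat_lit 0x2000001],.c (nat_lit 0) (nat_lit 0x28601800d),
    .c (nat_lit 2) (nat_lit 0x2000005002),.c (nat_lit 2) (nat_lit 0x2003005002),
    .r (nat_lit 0xdb3) (nat_lit 7) [nat_lit 0x20021000c1,nat_lit 0x30c5005004002],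
    .c (nat_lit 0) (nat_lit 0x628000c00d),.r (nat_lit 0xdb3) (nat_lit 7) [nat_lit 0x820020800c1,
    nat_lit 0x30c5005004002],.c (nat_lit 0) (nat_lit 0x3140003004),.c (nat_lit 0) (nat_lit 0x3000142004),
    .r (nat_lit 0xdb3) (nat_lit 7) [nat_lit 0x2084004100142,nat_lit 0x30c5005004002],
    .c (nat_lit 2) (nat_lit 0x2003005004),.r (nat_lit 0xdb5) (nat_lit 11) [nat_lit 0x2080001,nat_lit 0x2000080140102],
    .r (nat_lit 0xdb3) (nat_lit 7) [nat_lit 0x84084100142,nat_lit 0x30c5005004002],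
    .c (nat_lit 0) (nat_lit 0x80006003),.c (nat_lit 0) (nat_lit 0x2100006005),
    .r (nat_lit 0xdb3) (nat_lit 7) [nat_lit 0x30020c0081,nat_lit 0x30c5005004002],
    .r (nat_lit 0xdb5) (nat_lit 11) [nat_lit 0x2080001,nat_lit 0x2088100100142],.c (nat_lit 2) (nat_lit 0x2080082003),
    .c (nat_lit 0) (nat_lit 0x80100006005),.c (nat_lit 0) (nat_lit 0xc0140003004),
    .c (nat_lit 0) (nat_lit 0xc0143000004),.c (nat_lit 0) (nat_lit 0x10200a005),.c (nat_lit 0) (nat_lit 0x82004003),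
    .c (nat_lit 0) (nat_lit 0x106006005),.c (nat_lit 0) (nat_lit 0x102006005),.c (nat_lit 0) (nat_lit 0x80004003),
    .c (nat_lit 0) (nat_lit 0x18028000c00d),.c (nat_lit 2) (nat_lit 0xc4003005004),
    .r (nat_lit 0xdb5) (nat_lit 11) [nat_lit 0x2080001,nat_lit 0x80080140102],
    .r (nat_lit 0xdb3) (nat_lit 7) [nat_lit 0x2004084100142,nat_lit 0x30c5005004002],
    .r (nat_lit 0xdbe) (nat_lit 8) [nat_lit 0xc0085004142,nat_lit 0x2000001],
    .r (nat_lit 0xdbe) (nat_lit 8) [nat_lit 0xc00c5004142,nat_lit 0x2000001],.c (nat_lit 0) (nat_lit 0x3002004005),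
    .c (nat_lit 1) (nat_lit 0x3002002),.c (nat_lit 0) (nat_lit 0x29200c00d),.c (nat_lit 0) (nat_lit 0x28600c00d),
    .c (nat_lit 2) (nat_lit 0x2003003002),.c (nat_lit 0) (nat_lit 0xc3143142105),
    .c (nat_lit 0) (nat_lit 0x82102102144),.c (nat_lit 1) (nat_lit 0x2002),
    .r (nat_lit 0xdb5) (nat_lit 11) [nat_lit 0x2080001,nat_lit 0x2080000140102],.c (nat_lit 2) (nat_lit 0x2000003002),
    .c (nat_lit 2) (nat_lit 2),.r (nat_lit 0xdbe) (nat_lit 8) [nat_lit 0x31000c5144142,nat_lit 0x2000001],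
    .c (nat_lit 0) (nat_lit 0x30001c0006),.r (nat_lit 0xdb3) (nat_lit 7) [nat_lit 0x820020000c1,
    nat_lit 0x30c5005004002],.c (nat_lit 0) (nat_lit 0x2080000003),.c (nat_lit 0) (nat_lit 0x70c034000c),
    .c (nat_lit 0) (nat_lit 0xa30600000d),.c (nat_lit 0) (nat_lit 0x4180000007),
    .c (nat_lit 2) (nat_lit 0xc4003145105),.c (nat_lit 0) (nat_lit 0x30001c0006),
    .c (nat_lit 0) (nat_lit 0x5000340006),.c (nat_lit 0) (nat_lit 0x1c200034000c),
    .c (nat_lit 0) (nat_lit 0x300734000c),.c (nat_lit 0) (nat_lit 0xc0002),.c (nat_lit 2) (nat_lit 0xc2000000004),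
    .r (nat_lit 0xdb3) (nat_lit 7) [nat_lit 0x2084004000142,nat_lit 0x30c5005004002],
    .c (nat_lit 1) (nat_lit 0x3003008004),.c (nat_lit 0) (nat_lit 0x628c00000d),
    .r (nat_lit 0xdb5) (nat_lit 11) [nat_lit 0x2080001,nat_lit 0x20000c0000102],.c (nat_lit 2) (nat_lit 0x2003000004),
    .c (nat_lit 0) (nat_lit 0x628000000d),.r (nat_lit 0xdb5) (nat_lit 11) [nat_lit 0x2080001,nat_lit 0x2000080000102],
    .c (nat_lit 3) (nat_lit 2),.r (nat_lit 6) (nat_lit 14) [nat_lit 0x760c1cd34c342,nat_lit 0x30c40c5684141,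
    nat_lit 0x30c40c5144141,nat_lit 0xd365359658181,nat_lit 0x30c4705144142,nat_lit 0x181cc1cd34c342,
    nat_lit 0x20850a2105101],.r (nat_lit 0xdb3) (nat_lit 7) [nat_lit 129,nat_lit 0x30c5005004002],
    .c (nat_lit 2) (nat_lit 0x2080080003),.c (nat_lit 0) (nat_lit 0x80080000005),
    .c (nat_lit 2) (nat_lit 0x2003145105),.c (nat_lit 0) (nat_lit 0x18028000000d),
    .c (nat_lit 0) (nat_lit 0x1c03c000000c),.c (nat_lit 0) (nat_lit 0x8600000d),.c (nat_lit 0) (nat_lit 0x86000007),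
    .c (nat_lit 0) (nat_lit 0x106000007),.c (nat_lit 0) (nat_lit 0x82000005),.c (nat_lit 0) (nat_lit 0x18020600000d),
    .r (nat_lit 0xdb3) (nat_lit 7) [nat_lit 0x2084008105102,nat_lit 0x30c5005004002],
    .r (nat_lit 0xdbe) (nat_lit 8) [nat_lit 129,nat_lit 0x2000001],.r (nat_lit 0xdb5) (nat_lit 11) [nat_lit 0x2080001,
    nat_lit 0x30c20c1],.c (nat_lit 0) (nat_lit 0x80000007),.c (nat_lit 0) (nat_lit 0x100000007),
    .c (nat_lit 0) (nat_lit 0x28600000d),.c (nat_lit 4) (nat_lit 2),.c (nat_lit 0) (nat_lit 0xc00001c0004),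
    .c (nat_lit 0) (nat_lit 0xc00002c0004),.c (nat_lit 0) (nat_lit 0x2080005),.c (nat_lit 0) (nat_lit 0x18658600c34c),
    .c (nat_lit 5) (nat_lit 2),.r (nat_lit 0xdb3) (nat_lit 7) [nat_lit 0x20020020000c1,nat_lit 0x30c5005004002],
    .c (nat_lit 1) (nat_lit 0xc0003008004),.c (nat_lit 0) (nat_lit 0x18028c00000d),
    .c (nat_lit 2) (nat_lit 0xc4003000004),.c (nat_lit 0) (nat_lit 0x18028000000d),
    .r (nat_lit 0xdb3) (nat_lit 7) [nat_lit 0x2004084000142,nat_lit 0x30c5005004002],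
    .r (nat_lit 0xdb5) (nat_lit 11) [nat_lit 0x2080001,nat_lit 0x800c0000102],
    .r (nat_lit 0xdb3) (nat_lit 7) [nat_lit 0x2004184000142,nat_lit 0x30c5005004002],
    .r (nat_lit 0xdb5) (nat_lit 11) [nat_lit 0x2080001,nat_lit 0x80080000102],.c (nat_lit 6) (nat_lit 2),
    .c (nat_lit 0) (nat_lit 0x3006000005),.c (nat_lit 1) (nat_lit 0x5004002),.c (nat_lit 0) (nat_lit 0x29e00000d),
    .c (nat_lit 2) (nat_lit 0x2005000002),.c (nat_lit 0) (nat_lit 0x29200000d),.c (nat_lit 0) (nat_lit 0xc3144145105),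
    .c (nat_lit 1) (nat_lit 0x3004002),.c (nat_lit 2) (nat_lit 0x2003000002),.c (nat_lit 0) (nat_lit 0xc3144145105),
    .c (nat_lit 0) (nat_lit 0x3002000005),.c (nat_lit 0) (nat_lit 0x28600000d),.c (nat_lit 7) (nat_lit 2),
    .c (nat_lit 0) (nat_lit 0xc3143145107),.c (nat_lit 8) (nat_lit 2)]]

end Pool.Agent.Lib_MP_fa6e45
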