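import Pool.Agent.Lib_MP_fa6e45.RJ0

/-!
MP_fa6e45_co, stage 9: straight-side patterns with `8` sides, raw data (generated by a program).
-/

namespace Pool.Agent.Lib_MP_fa6e45

/-- nodes -/
noncomputable def rD8k_6_0 : List RJ :=
  [.s (nat_lit 17) (nat_lit 0x6540) (nat_lit 4) (nat_lit 0x2fa600002fa600002af300002af30000266400002664000027600000276000003168000031680000264f0000264f000033b7000033b7000031ad000031ad) (nat_lit 0x41100000411000008c4000008c400000d5300000d5300000c5700000c570000024f0000024f00000d6800000d6800000000000000000000020a0000020a)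
    (nat_lit 0x16f98ae54524426e211058870c3d0e2547176e8cf3c40441e9c17d30be985b382b8015ca8b7cc51a826e211298894c43c224f918678d7042f7c223e17d30be985b38216c137109b88445e222f0dfb06eb82c641e9c14520a8483b161a131b918d5cc4d1628e9146a0a4884266222f0ed00768038b81ee413bf0a2903b161b2d17958b5ec52f228e911298870c3b401bae0c6486834341a1a0d1339899542ce81a221332099904434202211298882c3b401bf60c8886324341a1a0d12978944433f018de13320a29044c4245a127c8951c3dc81e9c0d0686834341a1b091297894442f7018de13b0099904b3c255610f087a1c38b816320d068683436a21a0d1297894443af81ea2129009d803dbc2b1a1ae08cf3c51482a121288899544a22251115378bb44480023e215d20b790684c319e18678bb744efc28a41297899cc4a5e252f096d8a9bc45b4240013590504066003078111f07a70365a1a130c6f068883d4418de120008f886c7e3525129a89dd4457e2efb0bdf080883b161d8b0cfc059d03af817b8116d090006522363f13278993c488a2dd517d30be985af635731452099904ec026640a080b7904c9e2775151386834679231ad17d30be985e5637231332099904a40276013590ae904c9e253519db8a89c679231ad10b60ae0051d228e9122d0808856342556183c0c6785baa2efb18d68c6b45f462fa316ce0b67052f2268b1131088683dbc259e19800d098488a22bf19e48cf245f462fa3)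
    (nat_lit 0x16f999500ca80654032a019500ca80654032a019500ca80654032a019500ca80654015ca8b7ccca80654032a019500ca80654032a019500ca80654032a019500ca80654014910a350445e654032a019500ca80654032a019500ca80654032a019500ca806540137109b88445e222f32a019500ca80654032a019500ca80654032a019500ca80654011058894c37ec1da00c6499500ca80654032a019500ca80654032a019500ca80654010e18894c375c1da00d0686324ca80654032a019500ca80654032a019500ca8065400f43887842c641c5c0d0686834341a654032a019500ca80654032a019500ca80654012a3893e43d381ee40d068683436121a0d32a019500ca80654032a019500ca806540176e8c33c5148277e1339894bc4a5e252f153799500ca80654032a019500ca80654019e78d704542428a4132a894444a22251117688a9bcca80654032a019500ca806540101105ef83b161d8b0b3a067e02f701d7c120008b685ea4654032a019500ca8065400f4e088f834261b2d0d110637831bc1ea211f10900066002f5232a019500ca80654017d30be986e462f2b1332099904ec0252015d209ac84a6a264f151399500ca80654017d30be986ae62d7b13320a2904cc8276016f2050404eea264f0d068a89cca80654016ce0b6704d162979110d089884b3c1ede1a130cc00457e244519e48cf245f46654015c0085b051d228e91011091684aac2b1a18cf0c1e05df62dd518d68c6b45f462fa3)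
    (nat_lit 4) (nat_lit 61)
    [[nat_lit 0,nat_lit 0,nat_lit 4],[nat_lit 0,nat_lit 4,nat_lit 0],[nat_lit 0,nat_lit 4,nat_lit 8,nat_lit 11],
    [nat_lit 0,nat_lit 4,nat_lit 14],[nat_lit 0,nat_lit 5,nat_lit 10,nat_lit 10],[nat_lit 0,nat_lit 5,nat_lit 11,
    nat_lit 9],[nat_lit 0,nat_lit 5,nat_lit 14],[nat_lit 0,nat_lit 5,nat_lit 15],[nat_lit 0,nat_lit 6],[nat_lit 0,
    nat_lit 7],[nat_lit 0,nat_lit 8,nat_lit 12],[nat_lit 0,nat_lit 8,nat_lit 13],[nat_lit 0,nat_lit 9,nat_lit 12],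
    [nat_lit 0,nat_lit 9,nat_lit 13],[nat_lit 0,nat_lit 10,nat_lit 13],[nat_lit 0,nat_lit 11,nat_lit 13],[nat_lit 0,
    nat_lit 12,nat_lit 9],[nat_lit 0,nat_lit 12,nat_lit 10],[nat_lit 0,nat_lit 12,nat_lit 11],[nat_lit 0,nat_lit 13,
    nat_lit 9],[nat_lit 1,nat_lit 1,nat_lit 5],[nat_lit 1,nat_lit 5,nat_lit 1],[nat_lit 1,nat_lit 6],[nat_lit 1,
    nat_lit 7],[nat_lit 1,nat_lit 8,nat_lit 10,nat_lit 4],[nat_lit 1,nat_lit 8,nat_lit 12],[nat_lit 1,nat_lit 8,
    nat_lit 13],[nat_lit 1,nat_lit 10,nat_lit 9,nat_lit 5],[nat_lit 1,nat_lit 10,nat_lit 13],[nat_lit 1,nat_lit 11,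
    nat_lit 11,nat_lit 4],[nat_lit 1,nat_lit 11,nat_lit 13],[nat_lit 1,nat_lit 12,nat_lit 8],[nat_lit 1,nat_lit 12,
    nat_lit 9],[nat_lit 1,nat_lit 12,nat_lit 10],[nat_lit 1,nat_lit 12,nat_lit 11],[nat_lit 1,nat_lit 13,nat_lit 8],
    [nat_lit 1,nat_lit 13,nat_lit 9],[nat_lit 1,nat_lit 14,nat_lit 4],[nat_lit 1,nat_lit 15,nat_lit 4],[nat_lit 1,
    nat_lit 15,nat_lit 5],[nat_lit 2,nat_lit 4,nat_lit 8],[nat_lit 2,nat_lit 4,nat_lit 10],[nat_lit 2,nat_lit 5,
    nat_lit 8],[nat_lit 2,nat_lit 5,nat_lit 10],[nat_lit 2,nat_lit 5,nat_lit 11],[nat_lit 2,nat_lit 9,nat_lit 4],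
    [nat_lit 2,nat_lit 9,nat_lit 5],[nat_lit 2,nat_lit 11,nat_lit 4],[nat_lit 2,nat_lit 11,nat_lit 5],[nat_lit 2,
    nat_lit 12],[nat_lit 2,nat_lit 13],[nat_lit 3,nat_lit 4,nat_lit 8],[nat_lit 3,nat_lit 4,nat_lit 10],[nat_lit 3,
    nat_lit 5,nat_lit 8],[nat_lit 3,nat_lit 5,nat_lit 10],[nat_lit 3,nat_lit 9,nat_lit 4],[nat_lit 3,nat_lit 9,
    nat_lit 5],[nat_lit 3,nat_lit 10,nat_lit 4],[nat_lit 3,nat_lit 11,nat_lit 4],[nat_lit 3,nat_lit 11,nat_lit 5],
    [nat_lit 3,nat_lit 12],[nat_lit 3,nat_lit 13],[nat_lit 4,nat_lit 8,nat_lit 11,nat_lit 15],[nat_lit 4,nat_lit 10,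
    nat_lit 8,nat_lit 15],[nat_lit 4,nat_lit 11,nat_lit 8,nat_lit 15],[nat_lit 4,nat_lit 14,nat_lit 15],[nat_lit 4,
    nat_lit 15,nat_lit 15],[nat_lit 5,nat_lit 14,nat_lit 9,nat_lit 10],[nat_lit 5,nat_lit 14,nat_lit 9,nat_lit 11],
    [nat_lit 5,nat_lit 14,nat_lit 10,nat_lit 9],[nat_lit 5,nat_lit 14,nat_lit 14],[nat_lit 5,nat_lit 14,nat_lit 15],
    [nat_lit 6,nat_lit 8,nat_lit 8],[nat_lit 6,nat_lit 8,nat_lit 10],[nat_lit 6,nat_lit 9,nat_lit 8],[nat_lit 6,
    nat_lit 9,nat_lit 9],[nat_lit 6,nat_lit 9,nat_lit 10],[nat_lit 6,nat_lit 10,nat_lit 8],[nat_lit 6,nat_lit 10,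
    nat_lit 9],[nat_lit 6,nat_lit 10,nat_lit 10],[nat_lit 6,nat_lit 10,nat_lit 11],[nat_lit 6,nat_lit 11,nat_lit 8],
    [nat_lit 6,nat_lit 11,nat_lit 9],[nat_lit 6,nat_lit 11,nat_lit 10],[nat_lit 6,nat_lit 11,nat_lit 11],[nat_lit 6,
    nat_lit 14],[nat_lit 6,nat_lit 15],[nat_lit 7,nat_lit 8,nat_lit 8],[nat_lit 7,nat_lit 8,nat_lit 10],[nat_lit 7,
    nat_lit 8,nat_lit 11],[nat_lit 7,nat_lit 9,nat_lit 8],[nat_lit 7,nat_lit 9,nat_lit 9],[nat_lit 7,nat_lit 9,
    nat_lit 10],[nat_lit 7,nat_lit 9,nat_lit 11],[nat_lit 7,nat_lit 10,nat_lit 10],[nat_lit 7,nat_lit 10,nat_lit 11],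
    [nat_lit 7,nat_lit 11,nat_lit 8],[nat_lit 7,nat_lit 11,nat_lit 9],[nat_lit 7,nat_lit 11,nat_lit 10],[nat_lit 7,
    nat_lit 11,nat_lit 11],[nat_lit 7,nat_lit 14],[nat_lit 7,nat_lit 15],[nat_lit 8,nat_lit 8,nat_lit 8,nat_lit 12],
    [nat_lit 8,nat_lit 8,nat_lit 12,nat_lit 8],[nat_lit 8,nat_lit 10,nat_lit 8,nat_lit 12],[nat_lit 8,nat_lit 11,
    nat_lit 10,nat_lit 12],[nat_lit 8,nat_lit 12,nat_lit 8,nat_lit 8],[nat_lit 8,nat_lit 12,nat_lit 8,nat_lit 10],
    [nat_lit 8,nat_lit 12,nat_lit 10,nat_lit 10],[nat_lit 8,nat_lit 12,nat_lit 11,nat_lit 11],[nat_lit 8,nat_lit 12,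
    nat_lit 14],[nat_lit 8,nat_lit 12,nat_lit 15],[nat_lit 8,nat_lit 14,nat_lit 12],[nat_lit 8,nat_lit 15,nat_lit 12],
    [nat_lit 8,nat_lit 15,nat_lit 13],[nat_lit 9,nat_lit 9,nat_lit 9,nat_lit 13],[nat_lit 9,nat_lit 9,nat_lit 13,
    nat_lit 9],[nat_lit 9,nat_lit 10,nat_lit 10,nat_lit 13],[nat_lit 9,nat_lit 11,nat_lit 9,nat_lit 13],[nat_lit 9,
    nat_lit 11,nat_lit 11,nat_lit 13],[nat_lit 9,nat_lit 12,nat_lit 14],[nat_lit 9,nat_lit 13,nat_lit 9,nat_lit 9],
    [nat_lit 9,nat_lit 13,nat_lit 9,nat_lit 11],[nat_lit 9,nat_lit 13,nat_lit 11,nat_lit 10],[nat_lit 9,nat_lit 13,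
    nat_lit 14],[nat_lit 9,nat_lit 13,nat_lit 15],[nat_lit 9,nat_lit 14,nat_lit 13],[nat_lit 9,nat_lit 15,nat_lit 13],
    [nat_lit 10,nat_lit 10,nat_lit 10,nat_lit 13],[nat_lit 10,nat_lit 10,nat_lit 13,nat_lit 10],[nat_lit 10,
    nat_lit 11,nat_lit 10,nat_lit 12],[nat_lit 10,nat_lit 11,nat_lit 13,nat_lit 11],[nat_lit 10,nat_lit 12,nat_lit 10,
    nat_lit 11],[nat_lit 10,nat_lit 12,nat_lit 14],[nat_lit 10,nat_lit 12,nat_lit 15],[nat_lit 10,nat_lit 13,
    nat_lit 10,nat_lit 10],[nat_lit 10,nat_lit 13,nat_lit 14],[nat_lit 10,nat_lit 13,nat_lit 15],[nat_lit 10,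
    nat_lit 15,nat_lit 12],[nat_lit 10,nat_lit 15,nat_lit 13],[nat_lit 11,nat_lit 11,nat_lit 11,nat_lit 12],
    [nat_lit 11,nat_lit 11,nat_lit 12,nat_lit 11],[nat_lit 11,nat_lit 12,nat_lit 11,nat_lit 11],[nat_lit 11,
    nat_lit 12,nat_lit 14],[nat_lit 11,nat_lit 13,nat_lit 14],[nat_lit 11,nat_lit 14,nat_lit 12],[nat_lit 11,
    nat_lit 14,nat_lit 13],[nat_lit 11,nat_lit 15,nat_lit 12],[nat_lit 11,nat_lit 15,nat_lit 13]]
    [nat_lit 0x1004,nat_lit 0x1040,nat_lit 0x1048b,nat_lit 0x104e,nat_lit 0x105aa,nat_lit 0x105b9,nat_lit 0x105e,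
    nat_lit 0x105f,nat_lit 262,nat_lit 263,nat_lit 0x108c,nat_lit 0x108d,nat_lit 0x109c,nat_lit 0x109d,nat_lit 0x10ad,
    nat_lit 0x10bd,nat_lit 0x10c9,nat_lit 0x10ca,nat_lit 0x10cb,nat_lit 0x10d9,nat_lit 0x1115,nat_lit 0x1151,
    nat_lit 278,nat_lit 279,nat_lit 0x118a4,nat_lit 0x118c,nat_lit 0x118d,nat_lit 0x11a95,nat_lit 0x11ad,
    nat_lit 0x11bb4,nat_lit 0x11bd,nat_lit 0x11c8,nat_lit 0x11c9,nat_lit 0x11ca,nat_lit 0x11cb,nat_lit 0x11d8,
    nat_lit 0x11d9,nat_lit 0x11e4,nat_lit 0x11f4,nat_lit 0x11f5,nat_lit 0x1248,nat_lit 0x124a,nat_lit 0x1258,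
    nat_lit 0x125a,nat_lit 0x125b,nat_lit 0x1294,nat_lit 0x1295,nat_lit 0x12b4,nat_lit 0x12b5,nat_lit 300,nat_lit 301,
    nat_lit 0x1348,nat_lit 0x134a,nat_lit 0x1358,nat_lit 0x135a,nat_lit 0x1394,nat_lit 0x1395,nat_lit 0x13a4,
    nat_lit 0x13b4,nat_lit 0x13b5,nat_lit 316,nat_lit 317,nat_lit 0x148bf,nat_lit 0x14a8f,nat_lit 0x14b8f,
    nat_lit 0x14ef,nat_lit 0x14ff,nat_lit 0x15e9a,nat_lit 0x15e9b,nat_lit 0x15ea9,nat_lit 0x15ee,nat_lit 0x15ef,
    nat_lit 0x1688,nat_lit 0x168a,nat_lit 0x1698,nat_lit 0x1699,nat_lit 0x169a,nat_lit 0x16a8,nat_lit 0x16a9,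
    nat_lit 0x16aa,nat_lit 0x16ab,nat_lit 0x16b8,nat_lit 0x16b9,nat_lit 0x16ba,nat_lit 0x16bb,nat_lit 366,nat_lit 367,
    nat_lit 0x1788,nat_lit 0x178a,nat_lit 0x178b,nat_lit 0x1798,nat_lit 0x1799,nat_lit 0x179a,nat_lit 0x179b,
    nat_lit 0x17aa,nat_lit 0x17ab,nat_lit 0x17b8,nat_lit 0x17b9,nat_lit 0x17ba,nat_lit 0x17bb,nat_lit 382,nat_lit 383,
    nat_lit 0x1888c,nat_lit 0x188c8,nat_lit 0x18a8c,nat_lit 0x18bac,nat_lit 0x18c88,nat_lit 0x18c8a,nat_lit 0x18caa,
    nat_lit 0x18cbb,nat_lit 0x18ce,nat_lit 0x18cf,nat_lit 0x18ec,nat_lit 0x18fc,nat_lit 0x18fd,nat_lit 0x1999d,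
    nat_lit 0x199d9,nat_lit 0x19aad,nat_lit 0x19b9d,nat_lit 0x19bbd,nat_lit 0x19ce,nat_lit 0x19d99,nat_lit 0x19d9b,
    nat_lit 0x19dba,nat_lit 0x19de,nat_lit 0x19df,nat_lit 0x19ed,nat_lit 0x19fd,nat_lit 0x1aaad,nat_lit 0x1aada,
    nat_lit 0x1abac,nat_lit 0x1abdb,nat_lit 0x1acab,nat_lit 0x1ace,nat_lit 0x1acf,nat_lit 0x1adaa,nat_lit 0x1ade,
    nat_lit 0x1adf,nat_lit 0x1afc,nat_lit 0x1afd,nat_lit 0x1bbbc,nat_lit 0x1bbcb,nat_lit 0x1bcbb,nat_lit 0x1bce,
    nat_lit 0x1bde,nat_lit 0x1bec,nat_lit 0x1bed,nat_lit 0x1bfc,nat_lit 0x1bfd]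
    [[[nat_lit 0,nat_lit 0,nat_lit 4],[nat_lit 0,nat_lit 4,nat_lit 0],[nat_lit 0,nat_lit 4,nat_lit 8,nat_lit 11],
    [nat_lit 0,nat_lit 4,nat_lit 14],[nat_lit 0,nat_lit 5,nat_lit 10,nat_lit 10],[nat_lit 0,nat_lit 5,nat_lit 11,
    nat_lit 9],[nat_lit 0,nat_lit 5,nat_lit 14],[nat_lit 0,nat_lit 5,nat_lit 15],[nat_lit 0,nat_lit 6],[nat_lit 0,
    nat_lit 7],[nat_lit 0,nat_lit 8,nat_lit 12],[nat_lit 0,nat_lit 8,nat_lit 13]],[[nat_lit 0,nat_lit 9,nat_lit 12],
    [nat_lit 0,nat_lit 9,nat_lit 13],[nat_lit 0,nat_lit 10,nat_lit 13],[nat_lit 0,nat_lit 11,nat_lit 13],[nat_lit 0,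
    nat_lit 12,nat_lit 9],[nat_lit 0,nat_lit 12,nat_lit 10],[nat_lit 0,nat_lit 12,nat_lit 11],[nat_lit 0,nat_lit 13,
    nat_lit 9],[nat_lit 1,nat_lit 1,nat_lit 5],[nat_lit 1,nat_lit 5,nat_lit 1],[nat_lit 1,nat_lit 6],[nat_lit 1,
    nat_lit 7]],[[nat_lit 1,nat_lit 8,nat_lit 10,nat_lit 4],[nat_lit 1,nat_lit 8,nat_lit 12],[nat_lit 1,nat_lit 8,
    nat_lit 13],[nat_lit 1,nat_lit 10,nat_lit 9,nat_lit 5],[nat_lit 1,nat_lit 10,nat_lit 13],[nat_lit 1,nat_lit 11,
    nat_lit 11,nat_lit 4],[nat_lit 1,nat_lit 11,nat_lit 13],[nat_lit 1,nat_lit 12,nat_lit 8],[nat_lit 1,nat_lit 12,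
    nat_lit 9],[nat_lit 1,nat_lit 12,nat_lit 10],[nat_lit 1,nat_lit 12,nat_lit 11],[nat_lit 1,nat_lit 13,nat_lit 8]],
    [[nat_lit 1,nat_lit 13,nat_lit 9],[nat_lit 1,nat_lit 14,nat_lit 4],[nat_lit 1,nat_lit 15,nat_lit 4],[nat_lit 1,
    nat_lit 15,nat_lit 5],[nat_lit 2,nat_lit 4,nat_lit 8],[nat_lit 2,nat_lit 4,nat_lit 10],[nat_lit 2,nat_lit 5,
    nat_lit 8],[nat_lit 2,nat_lit 5,nat_lit 10],[nat_lit 2,nat_lit 5,nat_lit 11],[nat_lit 2,nat_lit 9,nat_lit 4],
    [nat_lit 2,nat_lit 9,nat_lit 5],[nat_lit 2,nat_lit 11,nat_lit 4]],[[nat_lit 2,nat_lit 11,nat_lit 5],[nat_lit 2,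
    nat_lit 12],[nat_lit 2,nat_lit 13],[nat_lit 3,nat_lit 4,nat_lit 8],[nat_lit 3,nat_lit 4,nat_lit 10],[nat_lit 3,
    nat_lit 5,nat_lit 8],[nat_lit 3,nat_lit 5,nat_lit 10],[nat_lit 3,nat_lit 9,nat_lit 4],[nat_lit 3,nat_lit 9,
    nat_lit 5],[nat_lit 3,nat_lit 10,nat_lit 4],[nat_lit 3,nat_lit 11,nat_lit 4],[nat_lit 3,nat_lit 11,nat_lit 5]],
    [[nat_lit 3,nat_lit 12],[nat_lit 3,nat_lit 13],[nat_lit 4,nat_lit 0,nat_lit 0],[nat_lit 4,nat_lit 1,nat_lit 8,
    nat_lit 10],[nat_lit 4,nat_lit 1,nat_lit 11,nat_lit 11],[nat_lit 4,nat_lit 1,nat_lit 14],[nat_lit 4,nat_lit 1,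
    nat_lit 15],[nat_lit 4,nat_lit 2,nat_lit 9],[nat_lit 4,nat_lit 2,nat_lit 11],[nat_lit 4,nat_lit 3,nat_lit 9],
    [nat_lit 4,nat_lit 3,nat_lit 10],[nat_lit 4,nat_lit 3,nat_lit 11]],[[nat_lit 4,nat_lit 8,nat_lit 2],[nat_lit 4,
    nat_lit 8,nat_lit 3],[nat_lit 4,nat_lit 8,nat_lit 11,nat_lit 0],[nat_lit 4,nat_lit 8,nat_lit 11,nat_lit 15],
    [nat_lit 4,nat_lit 10,nat_lit 2],[nat_lit 4,nat_lit 10,nat_lit 3],[nat_lit 4,nat_lit 10,nat_lit 8,nat_lit 15],
    [nat_lit 4,nat_lit 11,nat_lit 8,nat_lit 15],[nat_lit 4,nat_lit 14,nat_lit 0],[nat_lit 4,nat_lit 14,nat_lit 15],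
    [nat_lit 4,nat_lit 15,nat_lit 15],[nat_lit 5,nat_lit 1,nat_lit 1]],[[nat_lit 5,nat_lit 1,nat_lit 10,nat_lit 9],
    [nat_lit 5,nat_lit 1,nat_lit 15],[nat_lit 5,nat_lit 2,nat_lit 9],[nat_lit 5,nat_lit 2,nat_lit 11],[nat_lit 5,
    nat_lit 3,nat_lit 9],[nat_lit 5,nat_lit 3,nat_lit 11],[nat_lit 5,nat_lit 8,nat_lit 2],[nat_lit 5,nat_lit 8,
    nat_lit 3],[nat_lit 5,nat_lit 10,nat_lit 2],[nat_lit 5,nat_lit 10,nat_lit 3],[nat_lit 5,nat_lit 10,nat_lit 10,
    nat_lit 0],[nat_lit 5,nat_lit 11,nat_lit 2]],[[nat_lit 5,nat_lit 11,nat_lit 9,nat_lit 0],[nat_lit 5,nat_lit 14,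
    nat_lit 0],[nat_lit 5,nat_lit 14,nat_lit 9,nat_lit 10],[nat_lit 5,nat_lit 14,nat_lit 9,nat_lit 11],[nat_lit 5,
    nat_lit 14,nat_lit 10,nat_lit 9],[nat_lit 5,nat_lit 14,nat_lit 14],[nat_lit 5,nat_lit 14,nat_lit 15],[nat_lit 5,
    nat_lit 15,nat_lit 0],[nat_lit 6,nat_lit 0],[nat_lit 6,nat_lit 1],[nat_lit 6,nat_lit 8,nat_lit 8],[nat_lit 6,
    nat_lit 8,nat_lit 10]],[[nat_lit 6,nat_lit 9,nat_lit 8],[nat_lit 6,nat_lit 9,nat_lit 9],[nat_lit 6,nat_lit 9,
    nat_lit 10],[nat_lit 6,nat_lit 10,nat_lit 8],[nat_lit 6,nat_lit 10,nat_lit 9],[nat_lit 6,nat_lit 10,nat_lit 10],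
    [nat_lit 6,nat_lit 10,nat_lit 11],[nat_lit 6,nat_lit 11,nat_lit 8],[nat_lit 6,nat_lit 11,nat_lit 9],[nat_lit 6,
    nat_lit 11,nat_lit 10],[nat_lit 6,nat_lit 11,nat_lit 11],[nat_lit 6,nat_lit 14]],[[nat_lit 6,nat_lit 15],
    [nat_lit 7,nat_lit 0],[nat_lit 7,nat_lit 1],[nat_lit 7,nat_lit 8,nat_lit 8],[nat_lit 7,nat_lit 8,nat_lit 10],
    [nat_lit 7,nat_lit 8,nat_lit 11],[nat_lit 7,nat_lit 9,nat_lit 8],[nat_lit 7,nat_lit 9,nat_lit 9],[nat_lit 7,
    nat_lit 9,nat_lit 10],[nat_lit 7,nat_lit 9,nat_lit 11],[nat_lit 7,nat_lit 10,nat_lit 10],[nat_lit 7,nat_lit 10,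
    nat_lit 11]],[[nat_lit 7,nat_lit 11,nat_lit 8],[nat_lit 7,nat_lit 11,nat_lit 9],[nat_lit 7,nat_lit 11,nat_lit 10],
    [nat_lit 7,nat_lit 11,nat_lit 11],[nat_lit 7,nat_lit 14],[nat_lit 7,nat_lit 15],[nat_lit 8,nat_lit 1,nat_lit 12],
    [nat_lit 8,nat_lit 1,nat_lit 13],[nat_lit 8,nat_lit 2,nat_lit 4],[nat_lit 8,nat_lit 2,nat_lit 5],[nat_lit 8,
    nat_lit 3,nat_lit 4],[nat_lit 8,nat_lit 3,nat_lit 5]],[[nat_lit 8,nat_lit 6,nat_lit 8],[nat_lit 8,nat_lit 6,
    nat_lit 9],[nat_lit 8,nat_lit 6,nat_lit 10],[nat_lit 8,nat_lit 6,nat_lit 11],[nat_lit 8,nat_lit 7,nat_lit 8],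
    [nat_lit 8,nat_lit 7,nat_lit 9],[nat_lit 8,nat_lit 7,nat_lit 11],[nat_lit 8,nat_lit 8,nat_lit 6],[nat_lit 8,
    nat_lit 8,nat_lit 7],[nat_lit 8,nat_lit 8,nat_lit 8,nat_lit 12],[nat_lit 8,nat_lit 8,nat_lit 12,nat_lit 8],
    [nat_lit 8,nat_lit 10,nat_lit 4,nat_lit 1]],[[nat_lit 8,nat_lit 10,nat_lit 6],[nat_lit 8,nat_lit 10,nat_lit 7],
    [nat_lit 8,nat_lit 10,nat_lit 8,nat_lit 12],[nat_lit 8,nat_lit 11,nat_lit 0,nat_lit 4],[nat_lit 8,nat_lit 11,
    nat_lit 7],[nat_lit 8,nat_lit 11,nat_lit 10,nat_lit 12],[nat_lit 8,nat_lit 11,nat_lit 15,nat_lit 4],[nat_lit 8,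
    nat_lit 12,nat_lit 0],[nat_lit 8,nat_lit 12,nat_lit 1],[nat_lit 8,nat_lit 12,nat_lit 8,nat_lit 8],[nat_lit 8,
    nat_lit 12,nat_lit 8,nat_lit 10],[nat_lit 8,nat_lit 12,nat_lit 10,nat_lit 10]],[[nat_lit 8,nat_lit 12,nat_lit 11,
    nat_lit 11],[nat_lit 8,nat_lit 12,nat_lit 14],[nat_lit 8,nat_lit 12,nat_lit 15],[nat_lit 8,nat_lit 13,nat_lit 0],
    [nat_lit 8,nat_lit 13,nat_lit 1],[nat_lit 8,nat_lit 14,nat_lit 12],[nat_lit 8,nat_lit 15,nat_lit 4,nat_lit 10],
    [nat_lit 8,nat_lit 15,nat_lit 4,nat_lit 11],[nat_lit 8,nat_lit 15,nat_lit 12],[nat_lit 8,nat_lit 15,nat_lit 13],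
    [nat_lit 9,nat_lit 0,nat_lit 5,nat_lit 11],[nat_lit 9,nat_lit 0,nat_lit 12]],[[nat_lit 9,nat_lit 0,nat_lit 13],
    [nat_lit 9,nat_lit 1,nat_lit 12],[nat_lit 9,nat_lit 1,nat_lit 13],[nat_lit 9,nat_lit 4,nat_lit 2],[nat_lit 9,
    nat_lit 4,nat_lit 3],[nat_lit 9,nat_lit 5,nat_lit 1,nat_lit 10],[nat_lit 9,nat_lit 5,nat_lit 2],[nat_lit 9,
    nat_lit 5,nat_lit 3],[nat_lit 9,nat_lit 5,nat_lit 14,nat_lit 10],[nat_lit 9,nat_lit 6,nat_lit 9],[nat_lit 9,
    nat_lit 6,nat_lit 10],[nat_lit 9,nat_lit 6,nat_lit 11]],[[nat_lit 9,nat_lit 7,nat_lit 9],[nat_lit 9,nat_lit 7,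
    nat_lit 11],[nat_lit 9,nat_lit 8,nat_lit 6],[nat_lit 9,nat_lit 8,nat_lit 7],[nat_lit 9,nat_lit 9,nat_lit 6],
    [nat_lit 9,nat_lit 9,nat_lit 7],[nat_lit 9,nat_lit 9,nat_lit 9,nat_lit 13],[nat_lit 9,nat_lit 9,nat_lit 13,
    nat_lit 9],[nat_lit 9,nat_lit 10,nat_lit 5,nat_lit 14],[nat_lit 9,nat_lit 10,nat_lit 6],[nat_lit 9,nat_lit 10,
    nat_lit 7],[nat_lit 9,nat_lit 10,nat_lit 10,nat_lit 13]],[[nat_lit 9,nat_lit 11,nat_lit 5,nat_lit 14],[nat_lit 9,
    nat_lit 11,nat_lit 7],[nat_lit 9,nat_lit 11,nat_lit 9,nat_lit 13],[nat_lit 9,nat_lit 11,nat_lit 11,nat_lit 13],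
    [nat_lit 9,nat_lit 12,nat_lit 0],[nat_lit 9,nat_lit 12,nat_lit 14],[nat_lit 9,nat_lit 13,nat_lit 0],[nat_lit 9,
    nat_lit 13,nat_lit 9,nat_lit 9],[nat_lit 9,nat_lit 13,nat_lit 9,nat_lit 11],[nat_lit 9,nat_lit 13,nat_lit 11,
    nat_lit 10],[nat_lit 9,nat_lit 13,nat_lit 14],[nat_lit 9,nat_lit 13,nat_lit 15]],[[nat_lit 9,nat_lit 14,
    nat_lit 13],[nat_lit 9,nat_lit 15,nat_lit 13],[nat_lit 10,nat_lit 0,nat_lit 5,nat_lit 10],[nat_lit 10,nat_lit 0,
    nat_lit 12],[nat_lit 10,nat_lit 1,nat_lit 12],[nat_lit 10,nat_lit 2,nat_lit 4],[nat_lit 10,nat_lit 2,nat_lit 5],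
    [nat_lit 10,nat_lit 3,nat_lit 4],[nat_lit 10,nat_lit 3,nat_lit 5],[nat_lit 10,nat_lit 4,nat_lit 1,nat_lit 8],
    [nat_lit 10,nat_lit 4,nat_lit 3],[nat_lit 10,nat_lit 5,nat_lit 14,nat_lit 9]],[[nat_lit 10,nat_lit 6,nat_lit 8],
    [nat_lit 10,nat_lit 6,nat_lit 9],[nat_lit 10,nat_lit 6,nat_lit 10],[nat_lit 10,nat_lit 6,nat_lit 11],[nat_lit 10,
    nat_lit 7,nat_lit 8],[nat_lit 10,nat_lit 7,nat_lit 9],[nat_lit 10,nat_lit 7,nat_lit 10],[nat_lit 10,nat_lit 7,
    nat_lit 11],[nat_lit 10,nat_lit 8,nat_lit 6],[nat_lit 10,nat_lit 8,nat_lit 12,nat_lit 8],[nat_lit 10,nat_lit 8,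
    nat_lit 12,nat_lit 10],[nat_lit 10,nat_lit 8,nat_lit 15,nat_lit 4]],[[nat_lit 10,nat_lit 9,nat_lit 5,nat_lit 1],
    [nat_lit 10,nat_lit 9,nat_lit 5,nat_lit 14],[nat_lit 10,nat_lit 9,nat_lit 6],[nat_lit 10,nat_lit 9,nat_lit 13,
    nat_lit 11],[nat_lit 10,nat_lit 10,nat_lit 0,nat_lit 5],[nat_lit 10,nat_lit 10,nat_lit 6],[nat_lit 10,nat_lit 10,
    nat_lit 7],[nat_lit 10,nat_lit 10,nat_lit 8,nat_lit 12],[nat_lit 10,nat_lit 10,nat_lit 10,nat_lit 13],[nat_lit 10,
    nat_lit 10,nat_lit 13,nat_lit 9],[nat_lit 10,nat_lit 10,nat_lit 13,nat_lit 10],[nat_lit 10,nat_lit 11,nat_lit 6]],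
    [[nat_lit 10,nat_lit 11,nat_lit 7],[nat_lit 10,nat_lit 11,nat_lit 10,nat_lit 12],[nat_lit 10,nat_lit 11,
    nat_lit 13,nat_lit 11],[nat_lit 10,nat_lit 12,nat_lit 8,nat_lit 11],[nat_lit 10,nat_lit 12,nat_lit 10,nat_lit 11],
    [nat_lit 10,nat_lit 12,nat_lit 14],[nat_lit 10,nat_lit 12,nat_lit 15],[nat_lit 10,nat_lit 13,nat_lit 0],
    [nat_lit 10,nat_lit 13,nat_lit 1],[nat_lit 10,nat_lit 13,nat_lit 9,nat_lit 10],[nat_lit 10,nat_lit 13,nat_lit 10,
    nat_lit 10],[nat_lit 10,nat_lit 13,nat_lit 14]],[[nat_lit 10,nat_lit 13,nat_lit 15],[nat_lit 10,nat_lit 15,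
    nat_lit 12],[nat_lit 10,nat_lit 15,nat_lit 13],[nat_lit 11,nat_lit 0,nat_lit 4,nat_lit 8],[nat_lit 11,nat_lit 0,
    nat_lit 12],[nat_lit 11,nat_lit 1,nat_lit 12],[nat_lit 11,nat_lit 2,nat_lit 5],[nat_lit 11,nat_lit 4,nat_lit 1,
    nat_lit 11],[nat_lit 11,nat_lit 4,nat_lit 2],[nat_lit 11,nat_lit 4,nat_lit 3],[nat_lit 11,nat_lit 5,nat_lit 2],
    [nat_lit 11,nat_lit 5,nat_lit 3]],[[nat_lit 11,nat_lit 5,nat_lit 14,nat_lit 9],[nat_lit 11,nat_lit 6,nat_lit 10],
    [nat_lit 11,nat_lit 6,nat_lit 11],[nat_lit 11,nat_lit 7,nat_lit 8],[nat_lit 11,nat_lit 7,nat_lit 9],[nat_lit 11,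
    nat_lit 7,nat_lit 10],[nat_lit 11,nat_lit 7,nat_lit 11],[nat_lit 11,nat_lit 8,nat_lit 6],[nat_lit 11,nat_lit 8,
    nat_lit 7],[nat_lit 11,nat_lit 8,nat_lit 12,nat_lit 11],[nat_lit 11,nat_lit 8,nat_lit 15,nat_lit 4],[nat_lit 11,
    nat_lit 9,nat_lit 0,nat_lit 5]],[[nat_lit 11,nat_lit 9,nat_lit 6],[nat_lit 11,nat_lit 9,nat_lit 7],[nat_lit 11,
    nat_lit 9,nat_lit 13,nat_lit 9],[nat_lit 11,nat_lit 10,nat_lit 6],[nat_lit 11,nat_lit 10,nat_lit 7],[nat_lit 11,
    nat_lit 10,nat_lit 9,nat_lit 13],[nat_lit 11,nat_lit 10,nat_lit 11,nat_lit 13],[nat_lit 11,nat_lit 10,nat_lit 12,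
    nat_lit 8],[nat_lit 11,nat_lit 10,nat_lit 12,nat_lit 10],[nat_lit 11,nat_lit 11,nat_lit 4,nat_lit 1],[nat_lit 11,
    nat_lit 11,nat_lit 6],[nat_lit 11,nat_lit 11,nat_lit 7]],[[nat_lit 11,nat_lit 11,nat_lit 8,nat_lit 12],
    [nat_lit 11,nat_lit 11,nat_lit 11,nat_lit 12],[nat_lit 11,nat_lit 11,nat_lit 12,nat_lit 11],[nat_lit 11,
    nat_lit 11,nat_lit 13,nat_lit 9],[nat_lit 11,nat_lit 12,nat_lit 11,nat_lit 11],[nat_lit 11,nat_lit 12,nat_lit 14],
    [nat_lit 11,nat_lit 13,nat_lit 0],[nat_lit 11,nat_lit 13,nat_lit 1],[nat_lit 11,nat_lit 13,nat_lit 9,nat_lit 11],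
    [nat_lit 11,nat_lit 13,nat_lit 11,nat_lit 10],[nat_lit 11,nat_lit 13,nat_lit 14],[nat_lit 11,nat_lit 14,
    nat_lit 12]],[[nat_lit 11,nat_lit 14,nat_lit 13],[nat_lit 11,nat_lit 15,nat_lit 4,nat_lit 8],[nat_lit 11,
    nat_lit 15,nat_lit 12],[nat_lit 11,nat_lit 15,nat_lit 13],[nat_lit 12,nat_lit 0,nat_lit 8],[nat_lit 12,nat_lit 0,
    nat_lit 9],[nat_lit 12,nat_lit 1,nat_lit 8],[nat_lit 12,nat_lit 2],[nat_lit 12,nat_lit 3],[nat_lit 12,nat_lit 8,
    nat_lit 1],[nat_lit 12,nat_lit 8,nat_lit 8,nat_lit 8],[nat_lit 12,nat_lit 8,nat_lit 10,nat_lit 8]],[[nat_lit 12,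
    nat_lit 8,nat_lit 11,nat_lit 10],[nat_lit 12,nat_lit 8,nat_lit 14],[nat_lit 12,nat_lit 8,nat_lit 15],[nat_lit 12,
    nat_lit 9,nat_lit 0],[nat_lit 12,nat_lit 9,nat_lit 1],[nat_lit 12,nat_lit 10,nat_lit 0],[nat_lit 12,nat_lit 10,
    nat_lit 1],[nat_lit 12,nat_lit 10,nat_lit 10,nat_lit 8],[nat_lit 12,nat_lit 10,nat_lit 11,nat_lit 10],[nat_lit 12,
    nat_lit 10,nat_lit 15],[nat_lit 12,nat_lit 11,nat_lit 0],[nat_lit 12,nat_lit 11,nat_lit 1]],[[nat_lit 12,
    nat_lit 11,nat_lit 11,nat_lit 8],[nat_lit 12,nat_lit 11,nat_lit 11,nat_lit 11],[nat_lit 12,nat_lit 11,nat_lit 14],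
    [nat_lit 12,nat_lit 11,nat_lit 15],[nat_lit 12,nat_lit 14,nat_lit 8],[nat_lit 12,nat_lit 14,nat_lit 9],
    [nat_lit 12,nat_lit 14,nat_lit 10],[nat_lit 12,nat_lit 14,nat_lit 11],[nat_lit 12,nat_lit 15,nat_lit 8],
    [nat_lit 12,nat_lit 15,nat_lit 10],[nat_lit 13,nat_lit 0,nat_lit 8],[nat_lit 13,nat_lit 0,nat_lit 9]],
    [[nat_lit 13,nat_lit 0,nat_lit 10],[nat_lit 13,nat_lit 0,nat_lit 11],[nat_lit 13,nat_lit 1,nat_lit 8],[nat_lit 13,
    nat_lit 1,nat_lit 10],[nat_lit 13,nat_lit 1,nat_lit 11],[nat_lit 13,nat_lit 2],[nat_lit 13,nat_lit 3],[nat_lit 13,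
    nat_lit 8,nat_lit 1],[nat_lit 13,nat_lit 8,nat_lit 15],[nat_lit 13,nat_lit 9,nat_lit 0],[nat_lit 13,nat_lit 9,
    nat_lit 1],[nat_lit 13,nat_lit 9,nat_lit 9,nat_lit 9]],[[nat_lit 13,nat_lit 9,nat_lit 10,nat_lit 10],[nat_lit 13,
    nat_lit 9,nat_lit 11,nat_lit 9],[nat_lit 13,nat_lit 9,nat_lit 11,nat_lit 11],[nat_lit 13,nat_lit 9,nat_lit 14],
    [nat_lit 13,nat_lit 9,nat_lit 15],[nat_lit 13,nat_lit 10,nat_lit 10,nat_lit 10],[nat_lit 13,nat_lit 10,
    nat_lit 15],[nat_lit 13,nat_lit 11,nat_lit 10,nat_lit 9],[nat_lit 13,nat_lit 11,nat_lit 10,nat_lit 11],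
    [nat_lit 13,nat_lit 11,nat_lit 14],[nat_lit 13,nat_lit 11,nat_lit 15],[nat_lit 13,nat_lit 14,nat_lit 9]],
    [[nat_lit 13,nat_lit 14,nat_lit 10],[nat_lit 13,nat_lit 14,nat_lit 11],[nat_lit 13,nat_lit 15,nat_lit 9],
    [nat_lit 13,nat_lit 15,nat_lit 10],[nat_lit 14,nat_lit 0,nat_lit 4],[nat_lit 14,nat_lit 0,nat_lit 5],[nat_lit 14,
    nat_lit 4,nat_lit 1],[nat_lit 14,nat_lit 5,nat_lit 14],[nat_lit 14,nat_lit 6],[nat_lit 14,nat_lit 7],[nat_lit 14,
    nat_lit 8,nat_lit 12],[nat_lit 14,nat_lit 9,nat_lit 10,nat_lit 5]],[[nat_lit 14,nat_lit 9,nat_lit 11,nat_lit 5],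
    [nat_lit 14,nat_lit 9,nat_lit 12],[nat_lit 14,nat_lit 9,nat_lit 13],[nat_lit 14,nat_lit 10,nat_lit 9,nat_lit 5],
    [nat_lit 14,nat_lit 10,nat_lit 12],[nat_lit 14,nat_lit 10,nat_lit 13],[nat_lit 14,nat_lit 11,nat_lit 12],
    [nat_lit 14,nat_lit 11,nat_lit 13],[nat_lit 14,nat_lit 12,nat_lit 8],[nat_lit 14,nat_lit 12,nat_lit 11],
    [nat_lit 14,nat_lit 13,nat_lit 9],[nat_lit 14,nat_lit 13,nat_lit 11]],[[nat_lit 14,nat_lit 14,nat_lit 5],
    [nat_lit 14,nat_lit 15,nat_lit 4],[nat_lit 14,nat_lit 15,nat_lit 5],[nat_lit 15,nat_lit 0,nat_lit 5],[nat_lit 15,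
    nat_lit 4,nat_lit 1],[nat_lit 15,nat_lit 4,nat_lit 8,nat_lit 11],[nat_lit 15,nat_lit 4,nat_lit 10,nat_lit 8],
    [nat_lit 15,nat_lit 4,nat_lit 11,nat_lit 8],[nat_lit 15,nat_lit 4,nat_lit 14],[nat_lit 15,nat_lit 4,nat_lit 15],
    [nat_lit 15,nat_lit 5,nat_lit 1],[nat_lit 15,nat_lit 5,nat_lit 14]],[[nat_lit 15,nat_lit 6],[nat_lit 15,
    nat_lit 7],[nat_lit 15,nat_lit 8,nat_lit 12],[nat_lit 15,nat_lit 9,nat_lit 13],[nat_lit 15,nat_lit 10,nat_lit 12],
    [nat_lit 15,nat_lit 10,nat_lit 13],[nat_lit 15,nat_lit 12,nat_lit 8],[nat_lit 15,nat_lit 12,nat_lit 10],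
    [nat_lit 15,nat_lit 12,nat_lit 11],[nat_lit 15,nat_lit 13,nat_lit 8],[nat_lit 15,nat_lit 13,nat_lit 9],
    [nat_lit 15,nat_lit 13,nat_lit 10]],[[nat_lit 15,nat_lit 13,nat_lit 11],[nat_lit 15,nat_lit 15,nat_lit 4]]]
    [[nat_lit 1,nat_lit 62,nat_lit 74,nat_lit 80,nat_lit 94,nat_lit 96,nat_lit 97,nat_lit 103,nat_lit 104,nat_lit 121,
    nat_lit 163,nat_lit 171],[nat_lit 208,nat_lit 210,nat_lit 259,nat_lit 306,nat_lit 327,nat_lit 329,nat_lit 334,
    nat_lit 357,nat_lit 21,nat_lit 83,nat_lit 105,nat_lit 122],[nat_lit 155,nat_lit 164,nat_lit 172,nat_lit 240,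
    nat_lit 260,nat_lit 297,nat_lit 307,nat_lit 321,nat_lit 328,nat_lit 330,nat_lit 335,nat_lit 355],[nat_lit 358,
    nat_lit 378,nat_lit 400,nat_lit 406,nat_lit 72,nat_lit 76,nat_lit 90,nat_lit 92,nat_lit 95,nat_lit 183,
    nat_lit 186,nat_lit 272],[nat_lit 274,nat_lit 319,nat_lit 353,nat_lit 73,nat_lit 77,nat_lit 91,nat_lit 93,
    nat_lit 184,nat_lit 187,nat_lit 226,nat_lit 273,nat_lit 275],[nat_lit 320,nat_lit 354,nat_lit 0,nat_lit 24,
    nat_lit 29,nat_lit 37,nat_lit 38,nat_lit 45,nat_lit 47,nat_lit 55,nat_lit 57,nat_lit 58],[nat_lit 140,nat_lit 142,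
    nat_lit 159,nat_lit 162,nat_lit 221,nat_lit 223,nat_lit 239,nat_lit 286,nat_lit 376,nat_lit 397,nat_lit 421,
    nat_lit 20],[nat_lit 27,nat_lit 39,nat_lit 46,nat_lit 48,nat_lit 56,nat_lit 59,nat_lit 141,nat_lit 143,
    nat_lit 222,nat_lit 224,nat_lit 244,nat_lit 270],[nat_lit 287,nat_lit 377,nat_lit 383,nat_lit 384,nat_lit 387,
    nat_lit 396,nat_lit 398,nat_lit 399,nat_lit 8,nat_lit 22,nat_lit 151,nat_lit 156],[nat_lit 194,nat_lit 196,
    nat_lit 201,nat_lit 236,nat_lit 242,nat_lit 245,nat_lit 251,nat_lit 283,nat_lit 288,nat_lit 291,nat_lit 298,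
    nat_lit 380],[nat_lit 408,nat_lit 9,nat_lit 23,nat_lit 152,nat_lit 157,nat_lit 160,nat_lit 195,nat_lit 197,
    nat_lit 202,nat_lit 205,nat_lit 246,nat_lit 252],[nat_lit 284,nat_lit 289,nat_lit 292,nat_lit 299,nat_lit 381,
    nat_lit 409,nat_lit 31,nat_lit 35,nat_lit 40,nat_lit 42,nat_lit 51,nat_lit 53],[nat_lit 106,nat_lit 108,
    nat_lit 111,nat_lit 115,nat_lit 123,nat_lit 126,nat_lit 132,nat_lit 144,nat_lit 148,nat_lit 154,nat_lit 165,
    nat_lit 225],[nat_lit 228,nat_lit 232,nat_lit 237,nat_lit 267,nat_lit 279,nat_lit 295,nat_lit 313,nat_lit 316,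
    nat_lit 318,nat_lit 322,nat_lit 323,nat_lit 331],[nat_lit 336,nat_lit 340,nat_lit 344,nat_lit 346,nat_lit 350,
    nat_lit 392,nat_lit 402,nat_lit 403,nat_lit 414,nat_lit 417,nat_lit 5,nat_lit 16],[nat_lit 19,nat_lit 32,
    nat_lit 36,nat_lit 67,nat_lit 69,nat_lit 84,nat_lit 86,nat_lit 88,nat_lit 100,nat_lit 109,nat_lit 112,
    nat_lit 116],[nat_lit 127,nat_lit 133,nat_lit 145,nat_lit 149,nat_lit 189,nat_lit 192,nat_lit 199,nat_lit 211,
    nat_lit 227,nat_lit 229,nat_lit 233,nat_lit 249],[nat_lit 276,nat_lit 280,nat_lit 290,nat_lit 303,nat_lit 317,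
    nat_lit 341,nat_lit 347,nat_lit 359,nat_lit 361,nat_lit 367,nat_lit 371,nat_lit 374],[nat_lit 394,nat_lit 418,
    nat_lit 4,nat_lit 17,nat_lit 33,nat_lit 41,nat_lit 43,nat_lit 52,nat_lit 54,nat_lit 63,nat_lit 70,nat_lit 98],
    [nat_lit 107,nat_lit 110,nat_lit 113,nat_lit 117,nat_lit 124,nat_lit 128,nat_lit 130,nat_lit 134,nat_lit 146,
    nat_lit 166,nat_lit 167,nat_lit 174],[nat_lit 185,nat_lit 188,nat_lit 190,nat_lit 213,nat_lit 218,nat_lit 230,
    nat_lit 234,nat_lit 238,nat_lit 250,nat_lit 261,nat_lit 262,nat_lit 277],[nat_lit 281,nat_lit 296,nat_lit 309,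
    nat_lit 324,nat_lit 332,nat_lit 342,nat_lit 345,nat_lit 348,nat_lit 351,nat_lit 360,nat_lit 365,nat_lit 372],
    [nat_lit 375,nat_lit 415,nat_lit 419,nat_lit 2,nat_lit 18,nat_lit 34,nat_lit 44,nat_lit 64,nat_lit 68,nat_lit 71,
    nat_lit 87,nat_lit 89],[nat_lit 99,nat_lit 114,nat_lit 118,nat_lit 125,nat_lit 129,nat_lit 131,nat_lit 135,
    nat_lit 147,nat_lit 150,nat_lit 168,nat_lit 175,nat_lit 178],[nat_lit 191,nat_lit 193,nat_lit 212,nat_lit 231,
    nat_lit 235,nat_lit 243,nat_lit 254,nat_lit 255,nat_lit 256,nat_lit 271,nat_lit 278,nat_lit 282],[nat_lit 285,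
    nat_lit 302,nat_lit 304,nat_lit 308,nat_lit 337,nat_lit 343,nat_lit 349,nat_lit 352,nat_lit 362,nat_lit 368,
    nat_lit 373,nat_lit 393],[nat_lit 395,nat_lit 401,nat_lit 416,nat_lit 420,nat_lit 10,nat_lit 12,nat_lit 25,
    nat_lit 49,nat_lit 60,nat_lit 138,nat_lit 153,nat_lit 158],[nat_lit 161,nat_lit 173,nat_lit 176,nat_lit 179,
    nat_lit 181,nat_lit 219,nat_lit 220,nat_lit 247,nat_lit 253,nat_lit 265,nat_lit 268,nat_lit 269],[nat_lit 300,
    nat_lit 301,nat_lit 311,nat_lit 314,nat_lit 382,nat_lit 385,nat_lit 388,nat_lit 390,nat_lit 410,nat_lit 412,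
    nat_lit 11,nat_lit 13],[nat_lit 14,nat_lit 15,nat_lit 26,nat_lit 28,nat_lit 30,nat_lit 50,nat_lit 61,nat_lit 139,
    nat_lit 177,nat_lit 180,nat_lit 182,nat_lit 198],[nat_lit 203,nat_lit 206,nat_lit 207,nat_lit 216,nat_lit 217,
    nat_lit 248,nat_lit 266,nat_lit 293,nat_lit 294,nat_lit 312,nat_lit 315,nat_lit 386],[nat_lit 389,nat_lit 391,
    nat_lit 411,nat_lit 413,nat_lit 3,nat_lit 6,nat_lit 65,nat_lit 101,nat_lit 119,nat_lit 136,nat_lit 169,
    nat_lit 200],[nat_lit 204,nat_lit 209,nat_lit 214,nat_lit 241,nat_lit 257,nat_lit 263,nat_lit 305,nat_lit 310,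
    nat_lit 325,nat_lit 338,nat_lit 363,nat_lit 369],[nat_lit 379,nat_lit 404,nat_lit 407,nat_lit 7,nat_lit 66,
    nat_lit 75,nat_lit 78,nat_lit 79,nat_lit 81,nat_lit 82,nat_lit 85,nat_lit 102],[nat_lit 120,nat_lit 137,
    nat_lit 170,nat_lit 215,nat_lit 258,nat_lit 264,nat_lit 326,nat_lit 333,nat_lit 339,nat_lit 356,nat_lit 364,
    nat_lit 366],[nat_lit 370,nat_lit 405]]
    [[nat_lit 62,nat_lit 0,nat_lit 267,nat_lit 376,nat_lit 218,nat_lit 178,nat_lit 377,nat_lit 399,nat_lit 104,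
    nat_lit 121,nat_lit 316,nat_lit 346],[nat_lit 317,nat_lit 347,nat_lit 348,nat_lit 349,nat_lit 179,nat_lit 219,
    nat_lit 268,nat_lit 180,nat_lit 83,nat_lit 20,nat_lit 105,nat_lit 122],[nat_lit 63,nat_lit 318,nat_lit 350,
    nat_lit 84,nat_lit 351,nat_lit 64,nat_lit 352,nat_lit 138,nat_lit 181,nat_lit 220,nat_lit 269,nat_lit 139],
    [nat_lit 182,nat_lit 65,nat_lit 66,nat_lit 85,nat_lit 140,nat_lit 221,nat_lit 141,nat_lit 222,nat_lit 270,
    nat_lit 67,nat_lit 86,nat_lit 68],[nat_lit 87,nat_lit 319,nat_lit 353,nat_lit 142,nat_lit 223,nat_lit 143,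
    nat_lit 224,nat_lit 69,nat_lit 88,nat_lit 70,nat_lit 71,nat_lit 89],[nat_lit 320,nat_lit 354,nat_lit 1,
    nat_lit 225,nat_lit 271,nat_lit 378,nat_lit 400,nat_lit 183,nat_lit 272,nat_lit 184,nat_lit 226,nat_lit 273],
    [nat_lit 40,nat_lit 51,nat_lit 2,nat_lit 401,nat_lit 41,nat_lit 52,nat_lit 402,nat_lit 403,nat_lit 3,nat_lit 404,
    nat_lit 405,nat_lit 21],[nat_lit 185,nat_lit 406,nat_lit 186,nat_lit 274,nat_lit 187,nat_lit 275,nat_lit 42,
    nat_lit 53,nat_lit 43,nat_lit 54,nat_lit 4,nat_lit 44],[nat_lit 5,nat_lit 6,nat_lit 227,nat_lit 276,nat_lit 188,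
    nat_lit 379,nat_lit 407,nat_lit 7,nat_lit 8,nat_lit 22,nat_lit 144,nat_lit 228],[nat_lit 145,nat_lit 189,
    nat_lit 229,nat_lit 146,nat_lit 190,nat_lit 230,nat_lit 277,nat_lit 147,nat_lit 191,nat_lit 231,nat_lit 278,
    nat_lit 380],[nat_lit 408,nat_lit 9,nat_lit 23,nat_lit 148,nat_lit 232,nat_lit 279,nat_lit 149,nat_lit 192,
    nat_lit 233,nat_lit 280,nat_lit 234,nat_lit 281],[nat_lit 150,nat_lit 193,nat_lit 235,nat_lit 282,nat_lit 381,
    nat_lit 409,nat_lit 321,nat_lit 355,nat_lit 72,nat_lit 90,nat_lit 73,nat_lit 91],[nat_lit 151,nat_lit 194,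
    nat_lit 236,nat_lit 283,nat_lit 152,nat_lit 195,nat_lit 284,nat_lit 106,nat_lit 123,nat_lit 322,nat_lit 153,
    nat_lit 24],[nat_lit 107,nat_lit 124,nat_lit 323,nat_lit 74,nat_lit 125,nat_lit 324,nat_lit 75,nat_lit 10,
    nat_lit 25,nat_lit 154,nat_lit 237,nat_lit 238],[nat_lit 285,nat_lit 382,nat_lit 410,nat_lit 11,nat_lit 26,
    nat_lit 325,nat_lit 239,nat_lit 286,nat_lit 326,nat_lit 356,nat_lit 287,nat_lit 327],[nat_lit 357,nat_lit 328,
    nat_lit 358,nat_lit 45,nat_lit 55,nat_lit 240,nat_lit 46,nat_lit 56,nat_lit 241,nat_lit 196,nat_lit 242,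
    nat_lit 288],[nat_lit 197,nat_lit 289,nat_lit 108,nat_lit 126,nat_lit 109,nat_lit 127,nat_lit 359,nat_lit 198,
    nat_lit 383,nat_lit 110,nat_lit 128,nat_lit 360],[nat_lit 384,nat_lit 129,nat_lit 361,nat_lit 362,nat_lit 12,
    nat_lit 385,nat_lit 13,nat_lit 199,nat_lit 290,nat_lit 243,nat_lit 386,nat_lit 411],[nat_lit 363,nat_lit 364,
    nat_lit 244,nat_lit 329,nat_lit 330,nat_lit 76,nat_lit 92,nat_lit 77,nat_lit 93,nat_lit 155,nat_lit 57,
    nat_lit 200],[nat_lit 156,nat_lit 201,nat_lit 245,nat_lit 291,nat_lit 157,nat_lit 202,nat_lit 246,nat_lit 292,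
    nat_lit 111,nat_lit 158,nat_lit 247,nat_lit 78],[nat_lit 27,nat_lit 387,nat_lit 112,nat_lit 293,nat_lit 94,
    nat_lit 113,nat_lit 130,nat_lit 331,nat_lit 365,nat_lit 203,nat_lit 248,nat_lit 114],[nat_lit 131,nat_lit 332,
    nat_lit 294,nat_lit 295,nat_lit 296,nat_lit 388,nat_lit 412,nat_lit 14,nat_lit 28,nat_lit 249,nat_lit 250,
    nat_lit 389],[nat_lit 413,nat_lit 333,nat_lit 366,nat_lit 159,nat_lit 334,nat_lit 335,nat_lit 95,nat_lit 297,
    nat_lit 47,nat_lit 58,nat_lit 48,nat_lit 59],[nat_lit 204,nat_lit 251,nat_lit 298,nat_lit 160,nat_lit 205,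
    nat_lit 252,nat_lit 299,nat_lit 115,nat_lit 132,nat_lit 300,nat_lit 79,nat_lit 96],[nat_lit 116,nat_lit 133,
    nat_lit 206,nat_lit 117,nat_lit 134,nat_lit 367,nat_lit 368,nat_lit 161,nat_lit 253,nat_lit 29,nat_lit 118,
    nat_lit 135],[nat_lit 336,nat_lit 337,nat_lit 301,nat_lit 207,nat_lit 302,nat_lit 390,nat_lit 15,nat_lit 30,
    nat_lit 303,nat_lit 254,nat_lit 391,nat_lit 338],[nat_lit 369,nat_lit 162,nat_lit 339,nat_lit 370,nat_lit 163,
    nat_lit 208,nat_lit 164,nat_lit 49,nat_lit 60,nat_lit 31,nat_lit 165,nat_lit 166],[nat_lit 255,nat_lit 392,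
    nat_lit 414,nat_lit 16,nat_lit 32,nat_lit 17,nat_lit 33,nat_lit 167,nat_lit 256,nat_lit 415,nat_lit 18,
    nat_lit 34],[nat_lit 168,nat_lit 304,nat_lit 393,nat_lit 416,nat_lit 169,nat_lit 209,nat_lit 257,nat_lit 305,
    nat_lit 170,nat_lit 258,nat_lit 171,nat_lit 210],[nat_lit 259,nat_lit 306,nat_lit 172,nat_lit 260,nat_lit 307,
    nat_lit 50,nat_lit 61,nat_lit 35,nat_lit 417,nat_lit 19,nat_lit 36,nat_lit 211],[nat_lit 261,nat_lit 212,
    nat_lit 308,nat_lit 394,nat_lit 418,nat_lit 262,nat_lit 419,nat_lit 213,nat_lit 309,nat_lit 395,nat_lit 420,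
    nat_lit 214],[nat_lit 263,nat_lit 310,nat_lit 215,nat_lit 264,nat_lit 80,nat_lit 97,nat_lit 37,nat_lit 396,
    nat_lit 119,nat_lit 136,nat_lit 340,nat_lit 98],[nat_lit 99,nat_lit 341,nat_lit 371,nat_lit 100,nat_lit 342,
    nat_lit 372,nat_lit 343,nat_lit 373,nat_lit 173,nat_lit 311,nat_lit 216,nat_lit 312],[nat_lit 101,nat_lit 81,
    nat_lit 102,nat_lit 103,nat_lit 38,nat_lit 313,nat_lit 174,nat_lit 175,nat_lit 397,nat_lit 421,nat_lit 39,
    nat_lit 398],[nat_lit 120,nat_lit 137,nat_lit 344,nat_lit 374,nat_lit 345,nat_lit 375,nat_lit 176,nat_lit 265,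
    nat_lit 314,nat_lit 177,nat_lit 217,nat_lit 266],[nat_lit 315,nat_lit 82]]
    [[[],[nat_lit 380],[nat_lit 380],[nat_lit 380],[],[],[],[],[nat_lit 392],[nat_lit 377,nat_lit 383,nat_lit 384,
    nat_lit 387,nat_lit 396,nat_lit 398],[],[]],[[nat_lit 381],[nat_lit 381],[nat_lit 382,nat_lit 385,nat_lit 388,
    nat_lit 390],[nat_lit 394],[nat_lit 379],[nat_lit 379],[nat_lit 379],[nat_lit 393,nat_lit 395],[],[],[nat_lit 51,
    nat_lit 53],[nat_lit 56,nat_lit 59]],[[nat_lit 52,nat_lit 54],[nat_lit 52,nat_lit 54],[nat_lit 52,nat_lit 54],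
    [nat_lit 60],[nat_lit 60],[],[],[],[],[],[],[]],[[],[],[nat_lit 61],[nat_lit 61],[nat_lit 8],[nat_lit 8],[],[],[],
    [nat_lit 9],[nat_lit 9],[nat_lit 5,nat_lit 16,nat_lit 19]],[[nat_lit 5,nat_lit 16,nat_lit 19],[nat_lit 3,
    nat_lit 6],[nat_lit 2,nat_lit 18],[],[],[nat_lit 91,nat_lit 93],[nat_lit 91,nat_lit 93],[],[],[],[nat_lit 84,
    nat_lit 86,nat_lit 88,nat_lit 100],[nat_lit 84,nat_lit 86,nat_lit 88,nat_lit 100]],[[nat_lit 101],[nat_lit 87,
    nat_lit 89,nat_lit 99],[],[],[],[],[],[nat_lit 45,nat_lit 47],[nat_lit 45,nat_lit 47],[],[],[]],[[nat_lit 41,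
    nat_lit 43],[nat_lit 41,nat_lit 43],[nat_lit 41,nat_lit 43],[nat_lit 41,nat_lit 43],[nat_lit 49],[nat_lit 49],
    [nat_lit 49],[],[],[],[nat_lit 50],[nat_lit 137]],[[nat_lit 137],[nat_lit 137],[],[],[nat_lit 122],[nat_lit 122],
    [nat_lit 124,nat_lit 128,nat_lit 130,nat_lit 134],[nat_lit 124,nat_lit 128,nat_lit 130,nat_lit 134],[],[],[],
    [nat_lit 127,nat_lit 133]],[[nat_lit 127,nat_lit 133],[nat_lit 121],[nat_lit 121],[nat_lit 121],[nat_lit 121],
    [nat_lit 121],[nat_lit 121],[],[nat_lit 72,nat_lit 76],[nat_lit 66,nat_lit 75,nat_lit 78,nat_lit 79,nat_lit 81,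
    nat_lit 82],[nat_lit 63,nat_lit 70],[nat_lit 63,nat_lit 70]],[[],[],[],[],[],[],[],[nat_lit 67,nat_lit 69],
    [nat_lit 67,nat_lit 69],[nat_lit 67,nat_lit 69],[nat_lit 67,nat_lit 69],[nat_lit 62,nat_lit 74,nat_lit 80]],[[],
    [nat_lit 183,nat_lit 186],[nat_lit 215],[nat_lit 185,nat_lit 188,nat_lit 190,nat_lit 213],[nat_lit 185,
    nat_lit 188,nat_lit 190,nat_lit 213],[nat_lit 185,nat_lit 188,nat_lit 190,nat_lit 213],[nat_lit 195,nat_lit 197,
    nat_lit 202,nat_lit 205],[nat_lit 195,nat_lit 197,nat_lit 202,nat_lit 205],[nat_lit 195,nat_lit 197,nat_lit 202,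
    nat_lit 205],[nat_lit 195,nat_lit 197,nat_lit 202,nat_lit 205],[nat_lit 179,nat_lit 181],[nat_lit 179,
    nat_lit 181]],[[nat_lit 189,nat_lit 192,nat_lit 199,nat_lit 211],[nat_lit 189,nat_lit 192,nat_lit 199,
    nat_lit 211],[nat_lit 189,nat_lit 192,nat_lit 199,nat_lit 211],[nat_lit 189,nat_lit 192,nat_lit 199,nat_lit 211],
    [nat_lit 208,nat_lit 210],[nat_lit 180,nat_lit 182,nat_lit 198,nat_lit 203,nat_lit 206,nat_lit 207,nat_lit 216,
    nat_lit 217],[nat_lit 120],[nat_lit 120],[],[],[nat_lit 105],[nat_lit 105]],[[nat_lit 106,nat_lit 108,nat_lit 111,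
    nat_lit 115],[nat_lit 106,nat_lit 108,nat_lit 111,nat_lit 115],[nat_lit 106,nat_lit 108,nat_lit 111,nat_lit 115],
    [nat_lit 106,nat_lit 108,nat_lit 111,nat_lit 115],[],[],[],[nat_lit 107,nat_lit 110,nat_lit 113,nat_lit 117],
    [nat_lit 107,nat_lit 110,nat_lit 113,nat_lit 117],[nat_lit 107,nat_lit 110,nat_lit 113,nat_lit 117],[nat_lit 107,
    nat_lit 110,nat_lit 113,nat_lit 117],[]],[[],[],[],[nat_lit 109,nat_lit 112,nat_lit 116],[nat_lit 109,nat_lit 112,
    nat_lit 116],[nat_lit 109,nat_lit 112,nat_lit 116],[nat_lit 109,nat_lit 112,nat_lit 116],[nat_lit 119],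
    [nat_lit 119],[nat_lit 119],[nat_lit 119],[nat_lit 119]],[[nat_lit 119],[nat_lit 119],[nat_lit 119],[nat_lit 114,
    nat_lit 118],[nat_lit 114,nat_lit 118],[nat_lit 104],[],[],[],[],[nat_lit 272,nat_lit 274],[nat_lit 272,
    nat_lit 274]],[[nat_lit 272,nat_lit 274],[],[],[nat_lit 283,nat_lit 288,nat_lit 291,nat_lit 298],[nat_lit 283,
    nat_lit 288,nat_lit 291,nat_lit 298],[nat_lit 273,nat_lit 275],[nat_lit 273,nat_lit 275],[nat_lit 273,
    nat_lit 275],[nat_lit 273,nat_lit 275],[nat_lit 267,nat_lit 279,nat_lit 295,nat_lit 313],[nat_lit 267,nat_lit 279,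
    nat_lit 295,nat_lit 313],[nat_lit 267,nat_lit 279,nat_lit 295,nat_lit 313]],[[nat_lit 270,nat_lit 287],
    [nat_lit 270,nat_lit 287],[nat_lit 277,nat_lit 281,nat_lit 296,nat_lit 309],[nat_lit 277,nat_lit 281,nat_lit 296,
    nat_lit 309],[nat_lit 284,nat_lit 289,nat_lit 292,nat_lit 299],[nat_lit 284,nat_lit 289,nat_lit 292,nat_lit 299],
    [nat_lit 284,nat_lit 289,nat_lit 292,nat_lit 299],[nat_lit 284,nat_lit 289,nat_lit 292,nat_lit 299],[nat_lit 268,
    nat_lit 269,nat_lit 300,nat_lit 301,nat_lit 311,nat_lit 314],[nat_lit 268,nat_lit 269,nat_lit 300,nat_lit 301,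
    nat_lit 311,nat_lit 314],[nat_lit 268,nat_lit 269,nat_lit 300,nat_lit 301,nat_lit 311,nat_lit 314],[nat_lit 268,
    nat_lit 269,nat_lit 300,nat_lit 301,nat_lit 311,nat_lit 314]],[[nat_lit 276,nat_lit 280,nat_lit 290,nat_lit 303],
    [nat_lit 276,nat_lit 280,nat_lit 290,nat_lit 303],[nat_lit 276,nat_lit 280,nat_lit 290,nat_lit 303],[nat_lit 276,
    nat_lit 280,nat_lit 290,nat_lit 303],[nat_lit 305,nat_lit 310],[nat_lit 305,nat_lit 310],[nat_lit 271,nat_lit 278,
    nat_lit 282,nat_lit 285,nat_lit 302,nat_lit 304,nat_lit 308],[nat_lit 271,nat_lit 278,nat_lit 282,nat_lit 285,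
    nat_lit 302,nat_lit 304,nat_lit 308],[nat_lit 271,nat_lit 278,nat_lit 282,nat_lit 285,nat_lit 302,nat_lit 304,
    nat_lit 308],[nat_lit 271,nat_lit 278,nat_lit 282,nat_lit 285,nat_lit 302,nat_lit 304,nat_lit 308],[nat_lit 271,
    nat_lit 278,nat_lit 282,nat_lit 285,nat_lit 302,nat_lit 304,nat_lit 308],[nat_lit 271,nat_lit 278,nat_lit 282,
    nat_lit 285,nat_lit 302,nat_lit 304,nat_lit 308]],[[nat_lit 306],[nat_lit 293,nat_lit 294,nat_lit 312,
    nat_lit 315],[],[],[nat_lit 170],[nat_lit 140,nat_lit 142,nat_lit 159,nat_lit 162],[nat_lit 140,nat_lit 142,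
    nat_lit 159,nat_lit 162],[nat_lit 155,nat_lit 164,nat_lit 172],[nat_lit 155,nat_lit 164,nat_lit 172],[nat_lit 151,
    nat_lit 156],[nat_lit 151,nat_lit 156],[]],[[nat_lit 144,nat_lit 148,nat_lit 154,nat_lit 165],[nat_lit 144,
    nat_lit 148,nat_lit 154,nat_lit 165],[nat_lit 144,nat_lit 148,nat_lit 154,nat_lit 165],[nat_lit 144,nat_lit 148,
    nat_lit 154,nat_lit 165],[nat_lit 141,nat_lit 143],[nat_lit 141,nat_lit 143],[nat_lit 141,nat_lit 143],
    [nat_lit 141,nat_lit 143],[nat_lit 146,nat_lit 166,nat_lit 167,nat_lit 174],[nat_lit 146,nat_lit 166,nat_lit 167,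
    nat_lit 174],[nat_lit 146,nat_lit 166,nat_lit 167,nat_lit 174],[nat_lit 146,nat_lit 166,nat_lit 167,nat_lit 174]],
    [[nat_lit 152,nat_lit 157,nat_lit 160],[nat_lit 152,nat_lit 157,nat_lit 160],[nat_lit 152,nat_lit 157,
    nat_lit 160],[nat_lit 152,nat_lit 157,nat_lit 160],[nat_lit 138,nat_lit 153,nat_lit 158,nat_lit 161,nat_lit 173,
    nat_lit 176],[nat_lit 138,nat_lit 153,nat_lit 158,nat_lit 161,nat_lit 173,nat_lit 176],[nat_lit 138,nat_lit 153,
    nat_lit 158,nat_lit 161,nat_lit 173,nat_lit 176],[nat_lit 138,nat_lit 153,nat_lit 158,nat_lit 161,nat_lit 173,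
    nat_lit 176],[nat_lit 138,nat_lit 153,nat_lit 158,nat_lit 161,nat_lit 173,nat_lit 176],[nat_lit 138,nat_lit 153,
    nat_lit 158,nat_lit 161,nat_lit 173,nat_lit 176],[nat_lit 138,nat_lit 153,nat_lit 158,nat_lit 161,nat_lit 173,
    nat_lit 176],[nat_lit 145,nat_lit 149]],[[nat_lit 145,nat_lit 149],[nat_lit 145,nat_lit 149],[nat_lit 145,
    nat_lit 149],[nat_lit 169],[nat_lit 169],[nat_lit 169],[nat_lit 169],[nat_lit 147,nat_lit 150,nat_lit 168,
    nat_lit 175],[nat_lit 147,nat_lit 150,nat_lit 168,nat_lit 175],[nat_lit 147,nat_lit 150,nat_lit 168,nat_lit 175],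
    [nat_lit 147,nat_lit 150,nat_lit 168,nat_lit 175],[nat_lit 147,nat_lit 150,nat_lit 168,nat_lit 175]],
    [[nat_lit 147,nat_lit 150,nat_lit 168,nat_lit 175],[nat_lit 139,nat_lit 177],[nat_lit 139,nat_lit 177],
    [nat_lit 353],[nat_lit 353],[nat_lit 356,nat_lit 364,nat_lit 366,nat_lit 370],[],[],[],[],[nat_lit 354],
    [nat_lit 354]],[[nat_lit 354],[nat_lit 346,nat_lit 350],[nat_lit 346,nat_lit 350],[],[],[],[],[nat_lit 348,
    nat_lit 351,nat_lit 360,nat_lit 365,nat_lit 372,nat_lit 375],[nat_lit 348,nat_lit 351,nat_lit 360,nat_lit 365,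
    nat_lit 372,nat_lit 375],[nat_lit 348,nat_lit 351,nat_lit 360,nat_lit 365,nat_lit 372,nat_lit 375],[nat_lit 348,
    nat_lit 351,nat_lit 360,nat_lit 365,nat_lit 372,nat_lit 375],[]],[[],[],[],[],[],[],[],[],[],[nat_lit 347,
    nat_lit 359,nat_lit 361,nat_lit 367,nat_lit 371,nat_lit 374],[nat_lit 347,nat_lit 359,nat_lit 361,nat_lit 367,
    nat_lit 371,nat_lit 374],[nat_lit 347,nat_lit 359,nat_lit 361,nat_lit 367,nat_lit 371,nat_lit 374]],[[nat_lit 347,
    nat_lit 359,nat_lit 361,nat_lit 367,nat_lit 371,nat_lit 374],[nat_lit 347,nat_lit 359,nat_lit 361,nat_lit 367,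
    nat_lit 371,nat_lit 374],[nat_lit 347,nat_lit 359,nat_lit 361,nat_lit 367,nat_lit 371,nat_lit 374],[nat_lit 347,
    nat_lit 359,nat_lit 361,nat_lit 367,nat_lit 371,nat_lit 374],[nat_lit 363,nat_lit 369],[nat_lit 363,nat_lit 369],
    [nat_lit 349,nat_lit 352,nat_lit 362,nat_lit 368,nat_lit 373],[nat_lit 349,nat_lit 352,nat_lit 362,nat_lit 368,
    nat_lit 373],[nat_lit 349,nat_lit 352,nat_lit 362,nat_lit 368,nat_lit 373],[nat_lit 349,nat_lit 352,nat_lit 362,
    nat_lit 368,nat_lit 373],[nat_lit 349,nat_lit 352,nat_lit 362,nat_lit 368,nat_lit 373],[nat_lit 357]],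
    [[nat_lit 357],[],[],[],[],[],[nat_lit 258,nat_lit 264],[nat_lit 221,nat_lit 223,nat_lit 239],[nat_lit 240,
    nat_lit 260],[nat_lit 218,nat_lit 230,nat_lit 234,nat_lit 238,nat_lit 250,nat_lit 261,nat_lit 262],[nat_lit 218,
    nat_lit 230,nat_lit 234,nat_lit 238,nat_lit 250,nat_lit 261,nat_lit 262],[nat_lit 218,nat_lit 230,nat_lit 234,
    nat_lit 238,nat_lit 250,nat_lit 261,nat_lit 262]],[[nat_lit 218,nat_lit 230,nat_lit 234,nat_lit 238,nat_lit 250,
    nat_lit 261,nat_lit 262],[nat_lit 218,nat_lit 230,nat_lit 234,nat_lit 238,nat_lit 250,nat_lit 261,nat_lit 262],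
    [nat_lit 218,nat_lit 230,nat_lit 234,nat_lit 238,nat_lit 250,nat_lit 261,nat_lit 262],[nat_lit 246,nat_lit 252],
    [nat_lit 246,nat_lit 252],[nat_lit 219,nat_lit 220,nat_lit 247,nat_lit 253,nat_lit 265],[nat_lit 219,nat_lit 220,
    nat_lit 247,nat_lit 253,nat_lit 265],[nat_lit 219,nat_lit 220,nat_lit 247,nat_lit 253,nat_lit 265],[nat_lit 219,
    nat_lit 220,nat_lit 247,nat_lit 253,nat_lit 265],[nat_lit 219,nat_lit 220,nat_lit 247,nat_lit 253,nat_lit 265],
    [nat_lit 227,nat_lit 229,nat_lit 233,nat_lit 249],[nat_lit 227,nat_lit 229,nat_lit 233,nat_lit 249]],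
    [[nat_lit 227,nat_lit 229,nat_lit 233,nat_lit 249],[nat_lit 227,nat_lit 229,nat_lit 233,nat_lit 249],[nat_lit 227,
    nat_lit 229,nat_lit 233,nat_lit 249],[nat_lit 227,nat_lit 229,nat_lit 233,nat_lit 249],[nat_lit 259],
    [nat_lit 259],[nat_lit 259],[nat_lit 259],[nat_lit 248,nat_lit 266],[nat_lit 248,nat_lit 266],[],[]],[[],[],
    [nat_lit 405],[nat_lit 405],[nat_lit 405],[nat_lit 421],[nat_lit 400,nat_lit 406],[nat_lit 415,nat_lit 419],
    [nat_lit 415,nat_lit 419],[nat_lit 409],[nat_lit 409],[nat_lit 409]],[[nat_lit 409],[nat_lit 409],[nat_lit 409],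
    [nat_lit 409],[nat_lit 409],[nat_lit 410,nat_lit 412],[nat_lit 410,nat_lit 412],[nat_lit 418],[nat_lit 418],
    [nat_lit 418],[nat_lit 418],[]],[[],[],[nat_lit 411,nat_lit 413],[nat_lit 411,nat_lit 413],[nat_lit 319],
    [nat_lit 319],[],[nat_lit 320],[nat_lit 316,nat_lit 318,nat_lit 322,nat_lit 323,nat_lit 331,nat_lit 336,
    nat_lit 340,nat_lit 344],[],[nat_lit 324,nat_lit 332,nat_lit 342,nat_lit 345],[]],[[],[],[],[],[],[],[nat_lit 317,
    nat_lit 341],[nat_lit 317,nat_lit 341],[nat_lit 325,nat_lit 338],[nat_lit 325,nat_lit 338],[nat_lit 337,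
    nat_lit 343],[nat_lit 337,nat_lit 343]],[[nat_lit 327,nat_lit 329,nat_lit 334],[],[],[],[nat_lit 22],[nat_lit 22],
    [nat_lit 22],[nat_lit 22],[nat_lit 22],[nat_lit 22],[],[]],[[nat_lit 31,nat_lit 35],[nat_lit 20,nat_lit 27,
    nat_lit 39],[nat_lit 33],[nat_lit 23],[nat_lit 25],[nat_lit 25],[],[],[],[nat_lit 34],[nat_lit 34],[nat_lit 34]],
    [[nat_lit 34],[nat_lit 26,nat_lit 28,nat_lit 30]]]
    (nat_lit 422) [nat_lit 0,nat_lit 1,nat_lit 2,nat_lit 3,nat_lit 4,nat_lit 5,nat_lit 6,nat_lit 7,nat_lit 8,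
    nat_lit 9,nat_lit 10,nat_lit 11,nat_lit 12,nat_lit 13,nat_lit 14,nat_lit 15,nat_lit 16,nat_lit 17,nat_lit 18,
    nat_lit 19,nat_lit 20,nat_lit 21,nat_lit 22,nat_lit 23,nat_lit 24,nat_lit 25,nat_lit 26,nat_lit 27,nat_lit 28,
    nat_lit 29,nat_lit 30,nat_lit 31,nat_lit 32,nat_lit 33,nat_lit 34,nat_lit 35,nat_lit 36,nat_lit 37,nat_lit 38,
    nat_lit 39,nat_lit 40,nat_lit 41,nat_lit 42,nat_lit 43,nat_lit 44,nat_lit 45,nat_lit 46,nat_lit 47,nat_lit 48,
    nat_lit 49,nat_lit 50,nat_lit 51,nat_lit 52,nat_lit 53,nat_lit 54,nat_lit 55,nat_lit 56,nat_lit 57,nat_lit 58,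
    nat_lit 59,nat_lit 60,nat_lit 61,nat_lit 75,nat_lit 78,nat_lit 79,nat_lit 81,nat_lit 82,nat_lit 98,nat_lit 99,
    nat_lit 100,nat_lit 101,nat_lit 102,nat_lit 106,nat_lit 107,nat_lit 108,nat_lit 109,nat_lit 110,nat_lit 111,
    nat_lit 112,nat_lit 113,nat_lit 114,nat_lit 115,nat_lit 116,nat_lit 117,nat_lit 118,nat_lit 119,nat_lit 120,
    nat_lit 123,nat_lit 124,nat_lit 125,nat_lit 126,nat_lit 127,nat_lit 128,nat_lit 129,nat_lit 130,nat_lit 131,
    nat_lit 132,nat_lit 133,nat_lit 134,nat_lit 135,nat_lit 136,nat_lit 137,nat_lit 153,nat_lit 154,nat_lit 158,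
    nat_lit 161,nat_lit 165,nat_lit 166,nat_lit 167,nat_lit 168,nat_lit 169,nat_lit 170,nat_lit 173,nat_lit 176,
    nat_lit 177,nat_lit 198,nat_lit 199,nat_lit 203,nat_lit 206,nat_lit 207,nat_lit 209,nat_lit 211,nat_lit 212,
    nat_lit 213,nat_lit 214,nat_lit 215,nat_lit 216,nat_lit 217,nat_lit 248,nat_lit 250,nat_lit 253,nat_lit 254,
    nat_lit 256,nat_lit 257,nat_lit 258,nat_lit 262,nat_lit 263,nat_lit 264,nat_lit 265,nat_lit 266,nat_lit 301,
    nat_lit 302,nat_lit 304,nat_lit 305,nat_lit 310,nat_lit 311,nat_lit 312,nat_lit 314,nat_lit 315]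
    [[[nat_lit 1],[],[],[],[nat_lit 0],[],[nat_lit 8],[nat_lit 9],[],[nat_lit 5,nat_lit 16,nat_lit 19],[nat_lit 4,
    nat_lit 17],[nat_lit 2,nat_lit 18],[nat_lit 10,nat_lit 12],[nat_lit 11,nat_lit 13,nat_lit 14,nat_lit 15],
    [nat_lit 3,nat_lit 6],[nat_lit 7]],[[],[nat_lit 21],[],[],[nat_lit 24,nat_lit 29,nat_lit 37,nat_lit 38],
    [nat_lit 20,nat_lit 27,nat_lit 39],[nat_lit 22],[nat_lit 23],[nat_lit 31,nat_lit 35],[nat_lit 32,nat_lit 36],
    [nat_lit 33],[nat_lit 34],[nat_lit 25],[nat_lit 26,nat_lit 28,nat_lit 30],[],[]],[[],[],[],[],[nat_lit 45,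
    nat_lit 47],[nat_lit 46,nat_lit 48],[],[],[nat_lit 40,nat_lit 42],[],[nat_lit 41,nat_lit 43],[nat_lit 44],
    [nat_lit 49],[nat_lit 50],[],[]],[[],[],[],[],[nat_lit 55,nat_lit 57,nat_lit 58],[nat_lit 56,nat_lit 59],[],[],
    [nat_lit 51,nat_lit 53],[],[nat_lit 52,nat_lit 54],[],[nat_lit 60],[nat_lit 61],[],[]],[[nat_lit 62,nat_lit 74,
    nat_lit 80],[],[nat_lit 72,nat_lit 76],[nat_lit 73,nat_lit 77],[],[],[],[],[],[nat_lit 67,nat_lit 69],[nat_lit 63,
    nat_lit 70],[nat_lit 64,nat_lit 68,nat_lit 71],[],[],[nat_lit 65],[nat_lit 66,nat_lit 75,nat_lit 78,nat_lit 79,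
    nat_lit 81,nat_lit 82]],[[nat_lit 94,nat_lit 96,nat_lit 97,nat_lit 103],[nat_lit 83],[nat_lit 90,nat_lit 92,
    nat_lit 95],[nat_lit 91,nat_lit 93],[],[],[],[],[],[nat_lit 84,nat_lit 86,nat_lit 88,nat_lit 100],[nat_lit 98],
    [nat_lit 87,nat_lit 89,nat_lit 99],[],[],[nat_lit 101],[nat_lit 85,nat_lit 102]],[[nat_lit 104],[nat_lit 105],[],
    [],[],[],[],[],[nat_lit 106,nat_lit 108,nat_lit 111,nat_lit 115],[nat_lit 109,nat_lit 112,nat_lit 116],
    [nat_lit 107,nat_lit 110,nat_lit 113,nat_lit 117],[nat_lit 114,nat_lit 118],[],[],[nat_lit 119],[nat_lit 120]],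
    [[nat_lit 121],[nat_lit 122],[],[],[],[],[],[],[nat_lit 123,nat_lit 126,nat_lit 132],[nat_lit 127,nat_lit 133],
    [nat_lit 124,nat_lit 128,nat_lit 130,nat_lit 134],[nat_lit 125,nat_lit 129,nat_lit 131,nat_lit 135],[],[],
    [nat_lit 136],[nat_lit 137]],[[nat_lit 163,nat_lit 171],[nat_lit 155,nat_lit 164,nat_lit 172],[],[],[nat_lit 140,
    nat_lit 142,nat_lit 159,nat_lit 162],[nat_lit 141,nat_lit 143],[nat_lit 151,nat_lit 156],[nat_lit 152,nat_lit 157,
    nat_lit 160],[nat_lit 144,nat_lit 148,nat_lit 154,nat_lit 165],[nat_lit 145,nat_lit 149],[nat_lit 146,nat_lit 166,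
    nat_lit 167,nat_lit 174],[nat_lit 147,nat_lit 150,nat_lit 168,nat_lit 175],[nat_lit 138,nat_lit 153,nat_lit 158,
    nat_lit 161,nat_lit 173,nat_lit 176],[nat_lit 139,nat_lit 177],[nat_lit 169],[nat_lit 170]],[[nat_lit 208,
    nat_lit 210],[],[nat_lit 183,nat_lit 186],[nat_lit 184,nat_lit 187],[],[],[nat_lit 194,nat_lit 196,nat_lit 201],
    [nat_lit 195,nat_lit 197,nat_lit 202,nat_lit 205],[],[nat_lit 189,nat_lit 192,nat_lit 199,nat_lit 211],
    [nat_lit 185,nat_lit 188,nat_lit 190,nat_lit 213],[nat_lit 178,nat_lit 191,nat_lit 193,nat_lit 212],[nat_lit 179,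
    nat_lit 181],[nat_lit 180,nat_lit 182,nat_lit 198,nat_lit 203,nat_lit 206,nat_lit 207,nat_lit 216,nat_lit 217],
    [nat_lit 200,nat_lit 204,nat_lit 209,nat_lit 214],[nat_lit 215]],[[nat_lit 259],[nat_lit 240,nat_lit 260],[],
    [nat_lit 226],[nat_lit 221,nat_lit 223,nat_lit 239],[nat_lit 222,nat_lit 224,nat_lit 244],[nat_lit 236,
    nat_lit 242,nat_lit 245,nat_lit 251],[nat_lit 246,nat_lit 252],[nat_lit 225,nat_lit 228,nat_lit 232,nat_lit 237],
    [nat_lit 227,nat_lit 229,nat_lit 233,nat_lit 249],[nat_lit 218,nat_lit 230,nat_lit 234,nat_lit 238,nat_lit 250,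
    nat_lit 261,nat_lit 262],[nat_lit 231,nat_lit 235,nat_lit 243,nat_lit 254,nat_lit 255,nat_lit 256],[nat_lit 219,
    nat_lit 220,nat_lit 247,nat_lit 253,nat_lit 265],[nat_lit 248,nat_lit 266],[nat_lit 241,nat_lit 257,nat_lit 263],
    [nat_lit 258,nat_lit 264]],[[nat_lit 306],[nat_lit 297,nat_lit 307],[nat_lit 272,nat_lit 274],[nat_lit 273,
    nat_lit 275],[nat_lit 286],[nat_lit 270,nat_lit 287],[nat_lit 283,nat_lit 288,nat_lit 291,nat_lit 298],
    [nat_lit 284,nat_lit 289,nat_lit 292,nat_lit 299],[nat_lit 267,nat_lit 279,nat_lit 295,nat_lit 313],[nat_lit 276,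
    nat_lit 280,nat_lit 290,nat_lit 303],[nat_lit 277,nat_lit 281,nat_lit 296,nat_lit 309],[nat_lit 271,nat_lit 278,
    nat_lit 282,nat_lit 285,nat_lit 302,nat_lit 304,nat_lit 308],[nat_lit 268,nat_lit 269,nat_lit 300,nat_lit 301,
    nat_lit 311,nat_lit 314],[nat_lit 293,nat_lit 294,nat_lit 312,nat_lit 315],[nat_lit 305,nat_lit 310],[]],
    [[nat_lit 327,nat_lit 329,nat_lit 334],[nat_lit 321,nat_lit 328,nat_lit 330,nat_lit 335],[nat_lit 319],
    [nat_lit 320],[],[],[],[],[nat_lit 316,nat_lit 318,nat_lit 322,nat_lit 323,nat_lit 331,nat_lit 336,nat_lit 340,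
    nat_lit 344],[nat_lit 317,nat_lit 341],[nat_lit 324,nat_lit 332,nat_lit 342,nat_lit 345],[nat_lit 337,
    nat_lit 343],[],[],[nat_lit 325,nat_lit 338],[nat_lit 326,nat_lit 333,nat_lit 339]],[[nat_lit 357],[nat_lit 355,
    nat_lit 358],[nat_lit 353],[nat_lit 354],[],[],[],[],[nat_lit 346,nat_lit 350],[nat_lit 347,nat_lit 359,
    nat_lit 361,nat_lit 367,nat_lit 371,nat_lit 374],[nat_lit 348,nat_lit 351,nat_lit 360,nat_lit 365,nat_lit 372,
    nat_lit 375],[nat_lit 349,nat_lit 352,nat_lit 362,nat_lit 368,nat_lit 373],[],[],[nat_lit 363,nat_lit 369],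
    [nat_lit 356,nat_lit 364,nat_lit 366,nat_lit 370]],[[],[nat_lit 378],[],[],[nat_lit 376,nat_lit 397],[nat_lit 377,
    nat_lit 383,nat_lit 384,nat_lit 387,nat_lit 396,nat_lit 398],[nat_lit 380],[nat_lit 381],[nat_lit 392],
    [nat_lit 394],[],[nat_lit 393,nat_lit 395],[nat_lit 382,nat_lit 385,nat_lit 388,nat_lit 390],[nat_lit 386,
    nat_lit 389,nat_lit 391],[nat_lit 379],[]],[[],[nat_lit 400,nat_lit 406],[],[],[nat_lit 421],[nat_lit 399],
    [nat_lit 408],[nat_lit 409],[nat_lit 402,nat_lit 403,nat_lit 414,nat_lit 417],[nat_lit 418],[nat_lit 415,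
    nat_lit 419],[nat_lit 401,nat_lit 416,nat_lit 420],[nat_lit 410,nat_lit 412],[nat_lit 411,nat_lit 413],
    [nat_lit 404,nat_lit 407],[nat_lit 405]]]
    [[[nat_lit 0,
    nat_lit 0x100000000000000000000000000000000000000000000000000000000000000000000000000000000000000000000000,
    nat_lit 0x100000000000000000000000000000000000000000000000000000000000000000000000000000000000000000000000,
    nat_lit 0x100000000000000000000000000000000000000000000000000000000000000000000000000000000000000000000000,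
    nat_lit 0,nat_lit 0,nat_lit 0,nat_lit 0,
    nat_lit 0x100000000000000000000000000000000000000000000000000000000000000000000000000000000000000000000000000],
    [nat_lit 0x5009820000000000000000000000000000000000000000000000000000000000000000000000000000000000000000000000,
    nat_lit 0,nat_lit 0,
    nat_lit 0x200000000000000000000000000000000000000000000000000000000000000000000000000000000000000000000000,
    nat_lit 0x200000000000000000000000000000000000000000000000000000000000000000000000000000000000000000000000,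
    nat_lit 0x52400000000000000000000000000000000000000000000000000000000000000000000000000000000000000000000000,
    nat_lit 0x400000000000000000000000000000000000000000000000000000000000000000000000000000000000000000000000000,
    nat_lit 0x80000000000000000000000000000000000000000000000000000000000000000000000000000000000000000000000,
    nat_lit 0x80000000000000000000000000000000000000000000000000000000000000000000000000000000000000000000000],
    [nat_lit 0x80000000000000000000000000000000000000000000000000000000000000000000000000000000000000000000000,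
    nat_lit 0xa00000000000000000000000000000000000000000000000000000000000000000000000000000000000000000000000000,
    nat_lit 0,nat_lit 0,nat_lit 0x28000000000000,nat_lit 0x900000000000000,nat_lit 0x50000000000000,
    nat_lit 0x50000000000000,nat_lit 0x50000000000000],[nat_lit 0x1000000000000000,nat_lit 0x1000000000000000,
    nat_lit 0,nat_lit 0,nat_lit 0,nat_lit 0,nat_lit 0,nat_lit 0,nat_lit 0],[nat_lit 0,nat_lit 0,
    nat_lit 0x2000000000000000,nat_lit 0x2000000000000000,nat_lit 256,nat_lit 256,nat_lit 0,nat_lit 0,nat_lit 0],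
    [nat_lit 512,nat_lit 512,nat_lit 0x90020,nat_lit 0x90020,nat_lit 72,nat_lit 0x40004,nat_lit 0,nat_lit 0,
    nat_lit 0x280000000000000000000000],[nat_lit 0x280000000000000000000000,nat_lit 0,nat_lit 0,nat_lit 0,
    nat_lit 0x10015000000000000000000000,nat_lit 0x10015000000000000000000000,nat_lit 0x20000000000000000000000000,
    nat_lit 0x8028000000000000000000000,nat_lit 0],[nat_lit 0,nat_lit 0,nat_lit 0,nat_lit 0,nat_lit 0xa00000000000,
    nat_lit 0xa00000000000,nat_lit 0,nat_lit 0,nat_lit 0],[nat_lit 0xa0000000000,nat_lit 0xa0000000000,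
    nat_lit 0xa0000000000,nat_lit 0xa0000000000,nat_lit 0x2000000000000,nat_lit 0x2000000000000,
    nat_lit 0x2000000000000,nat_lit 0,nat_lit 0]],[[nat_lit 0,nat_lit 0x4000000000000,
    nat_lit 0x20000000000000000000000000000000000,nat_lit 0x20000000000000000000000000000000000,
    nat_lit 0x20000000000000000000000000000000000,nat_lit 0,nat_lit 0,nat_lit 0x4000000000000000000000000000000,
    nat_lit 0x4000000000000000000000000000000],[nat_lit 0x4510000000000000000000000000000000,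
    nat_lit 0x4510000000000000000000000000000000,nat_lit 0,nat_lit 0,nat_lit 0,
    nat_lit 0x2080000000000000000000000000000000,nat_lit 0x2080000000000000000000000000000000,
    nat_lit 0x2000000000000000000000000000000,nat_lit 0x2000000000000000000000000000000],
    [nat_lit 0x2000000000000000000000000000000,nat_lit 0x2000000000000000000000000000000,
    nat_lit 0x2000000000000000000000000000000,nat_lit 0x2000000000000000000000000000000,nat_lit 0,
    nat_lit 0x11000000000000000000,nat_lit 0x6c8040000000000000000,nat_lit 0x408000000000000000,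
    nat_lit 0x408000000000000000],[nat_lit 0,nat_lit 0,nat_lit 0,nat_lit 0,nat_lit 0,nat_lit 0,nat_lit 0,
    nat_lit 0x280000000000000000,nat_lit 0x280000000000000000],[nat_lit 0x280000000000000000,
    nat_lit 0x280000000000000000,nat_lit 0x104004000000000000000,nat_lit 0,
    nat_lit 0x48000000000000000000000000000000000000000000000,
    nat_lit 0x800000000000000000000000000000000000000000000000000000,
    nat_lit 0x200000520000000000000000000000000000000000000000000000,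
    nat_lit 0x200000520000000000000000000000000000000000000000000000,
    nat_lit 0x200000520000000000000000000000000000000000000000000000],
    [nat_lit 0x2428000000000000000000000000000000000000000000000000,
    nat_lit 0x2428000000000000000000000000000000000000000000000000,
    nat_lit 0x2428000000000000000000000000000000000000000000000000,
    nat_lit 0x2428000000000000000000000000000000000000000000000000,
    nat_lit 0x2800000000000000000000000000000000000000000000,nat_lit 0x2800000000000000000000000000000000000000000000,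
    nat_lit 0x80081200000000000000000000000000000000000000000000000,
    nat_lit 0x80081200000000000000000000000000000000000000000000000,
    nat_lit 0x80081200000000000000000000000000000000000000000000000],
    [nat_lit 0x80081200000000000000000000000000000000000000000000000,
    nat_lit 0x50000000000000000000000000000000000000000000000000000,
    nat_lit 0x300c840005000000000000000000000000000000000000000000000,nat_lit 0x1000000000000000000000000000000,
    nat_lit 0x1000000000000000000000000000000,nat_lit 0,nat_lit 0,nat_lit 0x200000000000000000000000000,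
    nat_lit 0x200000000000000000000000000],[nat_lit 0x89400000000000000000000000000,
    nat_lit 0x89400000000000000000000000000,nat_lit 0x89400000000000000000000000000,
    nat_lit 0x89400000000000000000000000000,nat_lit 0,nat_lit 0,nat_lit 0,nat_lit 0x224800000000000000000000000000,
    nat_lit 0x224800000000000000000000000000],[nat_lit 0x224800000000000000000000000000,
    nat_lit 0x224800000000000000000000000000,nat_lit 0,nat_lit 0,nat_lit 0,nat_lit 0,
    nat_lit 0x112000000000000000000000000000,nat_lit 0x112000000000000000000000000000,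
    nat_lit 0x112000000000000000000000000000]],[[nat_lit 0x112000000000000000000000000000,
    nat_lit 0x800000000000000000000000000000,nat_lit 0x800000000000000000000000000000,
    nat_lit 0x800000000000000000000000000000,nat_lit 0x800000000000000000000000000000,
    nat_lit 0x800000000000000000000000000000,nat_lit 0x800000000000000000000000000000,
    nat_lit 0x800000000000000000000000000000,nat_lit 0x800000000000000000000000000000],
    [nat_lit 0x440000000000000000000000000000,nat_lit 0x440000000000000000000000000000,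
    nat_lit 0x100000000000000000000000000,nat_lit 0,nat_lit 0,nat_lit 0,nat_lit 0,
    nat_lit 0x500000000000000000000000000000000000000000000000000000000000000000000,
    nat_lit 0x500000000000000000000000000000000000000000000000000000000000000000000],
    [nat_lit 0x500000000000000000000000000000000000000000000000000000000000000000000,nat_lit 0,nat_lit 0,
    nat_lit 0x409080000000000000000000000000000000000000000000000000000000000000000000000,
    nat_lit 0x409080000000000000000000000000000000000000000000000000000000000000000000000,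
    nat_lit 0xa00000000000000000000000000000000000000000000000000000000000000000000,
    nat_lit 0xa00000000000000000000000000000000000000000000000000000000000000000000,
    nat_lit 0xa00000000000000000000000000000000000000000000000000000000000000000000,
    nat_lit 0xa00000000000000000000000000000000000000000000000000000000000000000000],
    [nat_lit 0x2000080008008000000000000000000000000000000000000000000000000000000000000000000,
    nat_lit 0x2000080008008000000000000000000000000000000000000000000000000000000000000000000,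
    nat_lit 0x2000080008008000000000000000000000000000000000000000000000000000000000000000000,
    nat_lit 0x800040000000000000000000000000000000000000000000000000000000000000000000,
    nat_lit 0x800040000000000000000000000000000000000000000000000000000000000000000000,
    nat_lit 0x200100022000000000000000000000000000000000000000000000000000000000000000000000,
    nat_lit 0x200100022000000000000000000000000000000000000000000000000000000000000000000000,
    nat_lit 0x812100000000000000000000000000000000000000000000000000000000000000000000000,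
    nat_lit 0x812100000000000000000000000000000000000000000000000000000000000000000000000],
    [nat_lit 0x812100000000000000000000000000000000000000000000000000000000000000000000000,
    nat_lit 0x812100000000000000000000000000000000000000000000000000000000000000000000000,
    nat_lit 0x4803000000030000000000000000000000000000000000000000000000000000000000000000000,
    nat_lit 0x4803000000030000000000000000000000000000000000000000000000000000000000000000000,
    nat_lit 0x4803000000030000000000000000000000000000000000000000000000000000000000000000000,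
    nat_lit 0x4803000000030000000000000000000000000000000000000000000000000000000000000000000,
    nat_lit 0x8004011000000000000000000000000000000000000000000000000000000000000000000000,
    nat_lit 0x8004011000000000000000000000000000000000000000000000000000000000000000000000,
    nat_lit 0x8004011000000000000000000000000000000000000000000000000000000000000000000000],
    [nat_lit 0x8004011000000000000000000000000000000000000000000000000000000000000000000000,
    nat_lit 0x420000000000000000000000000000000000000000000000000000000000000000000000000000,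
    nat_lit 0x420000000000000000000000000000000000000000000000000000000000000000000000000000,
    nat_lit 0x114000244080000000000000000000000000000000000000000000000000000000000000000000,
    nat_lit 0x114000244080000000000000000000000000000000000000000000000000000000000000000000,
    nat_lit 0x114000244080000000000000000000000000000000000000000000000000000000000000000000,
    nat_lit 0x114000244080000000000000000000000000000000000000000000000000000000000000000000,
    nat_lit 0x114000244080000000000000000000000000000000000000000000000000000000000000000000,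
    nat_lit 0x114000244080000000000000000000000000000000000000000000000000000000000000000000],
    [nat_lit 0x40000000000000000000000000000000000000000000000000000000000000000000000000000,
    nat_lit 0x9000060000000000000000000000000000000000000000000000000000000000000000000000000,nat_lit 0,nat_lit 0,
    nat_lit 0x4000000000000000000000000000000000000000000,nat_lit 0x48000500000000000000000000000000000000000,
    nat_lit 0x48000500000000000000000000000000000000000,nat_lit 0x10100800000000000000000000000000000000000000,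
    nat_lit 0x10100800000000000000000000000000000000000000],[nat_lit 0x1080000000000000000000000000000000000000,
    nat_lit 0x1080000000000000000000000000000000000000,nat_lit 0,nat_lit 0x200411000000000000000000000000000000000000,
    nat_lit 0x200411000000000000000000000000000000000000,nat_lit 0x200411000000000000000000000000000000000000,
    nat_lit 0x200411000000000000000000000000000000000000,nat_lit 0xa00000000000000000000000000000000000,
    nat_lit 0xa00000000000000000000000000000000000],[nat_lit 0xa00000000000000000000000000000000000,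
    nat_lit 0xa00000000000000000000000000000000000,nat_lit 0x40c00004000000000000000000000000000000000000,
    nat_lit 0x40c00004000000000000000000000000000000000000,nat_lit 0x40c00004000000000000000000000000000000000000,
    nat_lit 0x40c00004000000000000000000000000000000000000,nat_lit 0x12100000000000000000000000000000000000000,
    nat_lit 0x12100000000000000000000000000000000000000,nat_lit 0x12100000000000000000000000000000000000000]],
    [[nat_lit 0x12100000000000000000000000000000000000000,nat_lit 0x120024200040000000000000000000000000000000000,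
    nat_lit 0x120024200040000000000000000000000000000000000,nat_lit 0x120024200040000000000000000000000000000000000,
    nat_lit 0x120024200040000000000000000000000000000000000,nat_lit 0x120024200040000000000000000000000000000000000,
    nat_lit 0x120024200040000000000000000000000000000000000,nat_lit 0x120024200040000000000000000000000000000000000,
    nat_lit 0x22000000000000000000000000000000000000],[nat_lit 0x22000000000000000000000000000000000000,
    nat_lit 0x22000000000000000000000000000000000000,nat_lit 0x22000000000000000000000000000000000000,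
    nat_lit 0x2000000000000000000000000000000000000000000,nat_lit 0x2000000000000000000000000000000000000000000,
    nat_lit 0x2000000000000000000000000000000000000000000,nat_lit 0x2000000000000000000000000000000000000000000,
    nat_lit 0x81000048000000000000000000000000000000000000,nat_lit 0x81000048000000000000000000000000000000000000],
    [nat_lit 0x81000048000000000000000000000000000000000000,nat_lit 0x81000048000000000000000000000000000000000000,
    nat_lit 0x81000048000000000000000000000000000000000000,nat_lit 0x81000048000000000000000000000000000000000000,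
    nat_lit 0x200000000080000000000000000000000000000000000,nat_lit 0x200000000080000000000000000000000000000000000,
    nat_lit 0x20000000000000000000000000000000000000000000000000000000000000000000000000000000000000000,
    nat_lit 0x20000000000000000000000000000000000000000000000000000000000000000000000000000000000000000,
    nat_lit 0x450100000000000000000000000000000000000000000000000000000000000000000000000000000000000000000],
    [nat_lit 0,nat_lit 0,nat_lit 0,nat_lit 0,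
    nat_lit 0x40000000000000000000000000000000000000000000000000000000000000000000000000000000000000000,
    nat_lit 0x40000000000000000000000000000000000000000000000000000000000000000000000000000000000000000,
    nat_lit 0x40000000000000000000000000000000000000000000000000000000000000000000000000000000000000000,
    nat_lit 0x4400000000000000000000000000000000000000000000000000000000000000000000000000000000000000,
    nat_lit 0x4400000000000000000000000000000000000000000000000000000000000000000000000000000000000000],[nat_lit 0,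
    nat_lit 0,nat_lit 0,nat_lit 0,
    nat_lit 0x9021009000000000000000000000000000000000000000000000000000000000000000000000000000000000000000,
    nat_lit 0x9021009000000000000000000000000000000000000000000000000000000000000000000000000000000000000000,
    nat_lit 0x9021009000000000000000000000000000000000000000000000000000000000000000000000000000000000000000,
    nat_lit 0x9021009000000000000000000000000000000000000000000000000000000000000000000000000000000000000000,
    nat_lit 0],[nat_lit 0,nat_lit 0,nat_lit 0,nat_lit 0,nat_lit 0,nat_lit 0,nat_lit 0,nat_lit 0,nat_lit 0],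
    [nat_lit 0x4882800800000000000000000000000000000000000000000000000000000000000000000000000000000000000000,
    nat_lit 0x4882800800000000000000000000000000000000000000000000000000000000000000000000000000000000000000,
    nat_lit 0x4882800800000000000000000000000000000000000000000000000000000000000000000000000000000000000000,
    nat_lit 0x4882800800000000000000000000000000000000000000000000000000000000000000000000000000000000000000,
    nat_lit 0x4882800800000000000000000000000000000000000000000000000000000000000000000000000000000000000000,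
    nat_lit 0x4882800800000000000000000000000000000000000000000000000000000000000000000000000000000000000000,
    nat_lit 0x4882800800000000000000000000000000000000000000000000000000000000000000000000000000000000000000,
    nat_lit 0x208000000000000000000000000000000000000000000000000000000000000000000000000000000000000000000,
    nat_lit 0x208000000000000000000000000000000000000000000000000000000000000000000000000000000000000000000],
    [nat_lit 0x2104012000000000000000000000000000000000000000000000000000000000000000000000000000000000000000,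
    nat_lit 0x2104012000000000000000000000000000000000000000000000000000000000000000000000000000000000000000,
    nat_lit 0x2104012000000000000000000000000000000000000000000000000000000000000000000000000000000000000000,
    nat_lit 0x2104012000000000000000000000000000000000000000000000000000000000000000000000000000000000000000,
    nat_lit 0x2104012000000000000000000000000000000000000000000000000000000000000000000000000000000000000000,
    nat_lit 0x200000000000000000000000000000000000000000000000000000000000000000000000000000000000000000,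
    nat_lit 0x200000000000000000000000000000000000000000000000000000000000000000000000000000000000000000,nat_lit 0,
    nat_lit 0],[nat_lit 0,nat_lit 0,nat_lit 0,
    nat_lit 0x1040000000000000000000000000000000000000000000000000000000000000000,
    nat_lit 0x8000a0000000000000000000000000000000000000000000000000000000,
    nat_lit 0x100001000000000000000000000000000000000000000000000000000000000000,
    nat_lit 0x600400444004000000000000000000000000000000000000000000000000000000,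
    nat_lit 0x600400444004000000000000000000000000000000000000000000000000000000,
    nat_lit 0x600400444004000000000000000000000000000000000000000000000000000000]],
    [[nat_lit 0x600400444004000000000000000000000000000000000000000000000000000000,
    nat_lit 0x600400444004000000000000000000000000000000000000000000000000000000,
    nat_lit 0x600400444004000000000000000000000000000000000000000000000000000000,
    nat_lit 0x1040000000000000000000000000000000000000000000000000000000000000,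
    nat_lit 0x1040000000000000000000000000000000000000000000000000000000000000,
    nat_lit 0x2002080000018000000000000000000000000000000000000000000000000000000,
    nat_lit 0x2002080000018000000000000000000000000000000000000000000000000000000,
    nat_lit 0x2002080000018000000000000000000000000000000000000000000000000000000,
    nat_lit 0x2002080000018000000000000000000000000000000000000000000000000000000],
    [nat_lit 0x2002080000018000000000000000000000000000000000000000000000000000000,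
    nat_lit 0x200022800000000000000000000000000000000000000000000000000000000,
    nat_lit 0x200022800000000000000000000000000000000000000000000000000000000,
    nat_lit 0x200022800000000000000000000000000000000000000000000000000000000,
    nat_lit 0x200022800000000000000000000000000000000000000000000000000000000,
    nat_lit 0x200022800000000000000000000000000000000000000000000000000000000,
    nat_lit 0x200022800000000000000000000000000000000000000000000000000000000,
    nat_lit 0x80000000000000000000000000000000000000000000000000000000000000000,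
    nat_lit 0x80000000000000000000000000000000000000000000000000000000000000000],
    [nat_lit 0x80000000000000000000000000000000000000000000000000000000000000000,
    nat_lit 0x80000000000000000000000000000000000000000000000000000000000000000,
    nat_lit 0x4000100000000000000000000000000000000000000000000000000000000000000,
    nat_lit 0x4000100000000000000000000000000000000000000000000000000000000000000,nat_lit 0,nat_lit 0,nat_lit 0,
    nat_lit 0,
    nat_lit 0x200000000000000000000000000000000000000000000000000000000000000000000000000000000000000000000000000000],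
    [nat_lit 0x200000000000000000000000000000000000000000000000000000000000000000000000000000000000000000000000000000,
    nat_lit 0x200000000000000000000000000000000000000000000000000000000000000000000000000000000000000000000000000000,
    nat_lit 0x2000000000000000000000000000000000000000000000000000000000000000000000000000000000000000000000000000000000,
    nat_lit 0x410000000000000000000000000000000000000000000000000000000000000000000000000000000000000000000000000000,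
    nat_lit 0x880000000000000000000000000000000000000000000000000000000000000000000000000000000000000000000000000000000,
    nat_lit 0x880000000000000000000000000000000000000000000000000000000000000000000000000000000000000000000000000000000,
    nat_lit 0x2000000000000000000000000000000000000000000000000000000000000000000000000000000000000000000000000000000,
    nat_lit 0x2000000000000000000000000000000000000000000000000000000000000000000000000000000000000000000000000000000,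
    nat_lit 0x2000000000000000000000000000000000000000000000000000000000000000000000000000000000000000000000000000000],
    [nat_lit 0x2000000000000000000000000000000000000000000000000000000000000000000000000000000000000000000000000000000,
    nat_lit 0x2000000000000000000000000000000000000000000000000000000000000000000000000000000000000000000000000000000,
    nat_lit 0x2000000000000000000000000000000000000000000000000000000000000000000000000000000000000000000000000000000,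
    nat_lit 0x2000000000000000000000000000000000000000000000000000000000000000000000000000000000000000000000000000000,
    nat_lit 0x2000000000000000000000000000000000000000000000000000000000000000000000000000000000000000000000000000000,
    nat_lit 0x14000000000000000000000000000000000000000000000000000000000000000000000000000000000000000000000000000000,
    nat_lit 0x14000000000000000000000000000000000000000000000000000000000000000000000000000000000000000000000000000000,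
    nat_lit 0x400000000000000000000000000000000000000000000000000000000000000000000000000000000000000000000000000000000,
    nat_lit 0x400000000000000000000000000000000000000000000000000000000000000000000000000000000000000000000000000000000],
    [nat_lit 0x400000000000000000000000000000000000000000000000000000000000000000000000000000000000000000000000000000000,
    nat_lit 0x400000000000000000000000000000000000000000000000000000000000000000000000000000000000000000000000000000000,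
    nat_lit 0,nat_lit 0,nat_lit 0,
    nat_lit 0x28000000000000000000000000000000000000000000000000000000000000000000000000000000000000000000000000000000,
    nat_lit 0x28000000000000000000000000000000000000000000000000000000000000000000000000000000000000000000000000000000,
    nat_lit 0x80000000000000000000000000000000000000000000000000000000000000000000000000000000,
    nat_lit 0x80000000000000000000000000000000000000000000000000000000000000000000000000000000],[nat_lit 0,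
    nat_lit 0x100000000000000000000000000000000000000000000000000000000000000000000000000000000,
    nat_lit 0x111080c50000000000000000000000000000000000000000000000000000000000000000000000000000000,nat_lit 0,
    nat_lit 0x240101000000000000000000000000000000000000000000000000000000000000000000000000000000000,nat_lit 0,
    nat_lit 0,nat_lit 0,nat_lit 0],[nat_lit 0,nat_lit 0,nat_lit 0,
    nat_lit 0x20000020000000000000000000000000000000000000000000000000000000000000000000000000000000,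
    nat_lit 0x20000020000000000000000000000000000000000000000000000000000000000000000000000000000000,
    nat_lit 0x4002000000000000000000000000000000000000000000000000000000000000000000000000000000000,
    nat_lit 0x4002000000000000000000000000000000000000000000000000000000000000000000000000000000000,
    nat_lit 0x82000000000000000000000000000000000000000000000000000000000000000000000000000000000000,
    nat_lit 0x82000000000000000000000000000000000000000000000000000000000000000000000000000000000000],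
    [nat_lit 0x428000000000000000000000000000000000000000000000000000000000000000000000000000000000,nat_lit 0,
    nat_lit 0,nat_lit 0,nat_lit 0x400000,nat_lit 0x400000,nat_lit 0x400000,nat_lit 0x400000,nat_lit 0x400000]],
    [[nat_lit 0x400000,nat_lit 0,nat_lit 0,nat_lit 0x880000000,nat_lit 0x8008100000,nat_lit 0x200000000,
    nat_lit 0x800000,nat_lit 0x2000000,nat_lit 0x2000000],[nat_lit 0,nat_lit 0,nat_lit 0,nat_lit 0x400000000,
    nat_lit 0x400000000,nat_lit 0x400000000,nat_lit 0x400000000,nat_lit 0x54000000]]]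
    [[[[nat_lit 0,nat_lit 0,
    nat_lit 0x100000000000000000000000000000000000000000000000000000000000000000000000000000000000000000000000,
    nat_lit 0,nat_lit 0,nat_lit 0,nat_lit 0,nat_lit 0,
    nat_lit 0x100000000000000000000000000000000000000000000000000000000000000000000000000000000000000000000000000],
    [nat_lit 0x1009000000000000000000000000000000000000000000000000000000000000000000000000000000000000000000000000,
    nat_lit 0,nat_lit 0,nat_lit 0,nat_lit 0,
    nat_lit 0x40000000000000000000000000000000000000000000000000000000000000000000000000000000000000000000000000,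
    nat_lit 0,
    nat_lit 0x80000000000000000000000000000000000000000000000000000000000000000000000000000000000000000000000,
    nat_lit 0x80000000000000000000000000000000000000000000000000000000000000000000000000000000000000000000000],
    [nat_lit 0x80000000000000000000000000000000000000000000000000000000000000000000000000000000000000000000000,
    nat_lit 0,nat_lit 0,nat_lit 0,nat_lit 0x20000000000000,nat_lit 0x900000000000000,nat_lit 0,nat_lit 0,
    nat_lit 0x10000000000000],[nat_lit 0x1000000000000000,nat_lit 0x1000000000000000,nat_lit 0,nat_lit 0,nat_lit 0,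
    nat_lit 0,nat_lit 0,nat_lit 0,nat_lit 0],[nat_lit 0,nat_lit 0,nat_lit 0x2000000000000000,nat_lit 0,nat_lit 256,
    nat_lit 256,nat_lit 0,nat_lit 0,nat_lit 0],[nat_lit 512,nat_lit 0,nat_lit 0,nat_lit 0x10000,nat_lit 64,
    nat_lit 0x40004,nat_lit 0,nat_lit 0,nat_lit 0x280000000000000000000000],[nat_lit 0,nat_lit 0,nat_lit 0,nat_lit 0,
    nat_lit 0,nat_lit 0x10001000000000000000000000,nat_lit 0x20000000000000000000000000,
    nat_lit 0x8028000000000000000000000,nat_lit 0],[nat_lit 0,nat_lit 0,nat_lit 0,nat_lit 0,nat_lit 0x200000000000,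
    nat_lit 0x200000000000,nat_lit 0,nat_lit 0,nat_lit 0],[nat_lit 0,nat_lit 0,nat_lit 0x20000000000,
    nat_lit 0x20000000000,nat_lit 0x2000000000000,nat_lit 0x2000000000000,nat_lit 0x2000000000000,nat_lit 0,
    nat_lit 0]],[[nat_lit 0,nat_lit 0x4000000000000,nat_lit 0,nat_lit 0x20000000000000000000000000000000000,
    nat_lit 0x20000000000000000000000000000000000,nat_lit 0,nat_lit 0,nat_lit 0,
    nat_lit 0x4000000000000000000000000000000],[nat_lit 0,nat_lit 0x500000000000000000000000000000000,nat_lit 0,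
    nat_lit 0,nat_lit 0,nat_lit 0,nat_lit 0,nat_lit 0x2000000000000000000000000000000,nat_lit 0],[nat_lit 0,nat_lit 0,
    nat_lit 0x2000000000000000000000000000000,nat_lit 0,nat_lit 0,nat_lit 0x10000000000000000000,
    nat_lit 0x400040000000000000000,nat_lit 0,nat_lit 0],[nat_lit 0,nat_lit 0,nat_lit 0,nat_lit 0,nat_lit 0,nat_lit 0,
    nat_lit 0,nat_lit 0x80000000000000000,nat_lit 0],[nat_lit 0,nat_lit 0x80000000000000000,
    nat_lit 0x104000000000000000000,nat_lit 0,nat_lit 0x8000000000000000000000000000000000000000000000,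
    nat_lit 0x800000000000000000000000000000000000000000000000000000,
    nat_lit 0x20000000000000000000000000000000000000000000000,nat_lit 0,
    nat_lit 0x20000000000000000000000000000000000000000000000],
    [nat_lit 0x400000000000000000000000000000000000000000000000000,
    nat_lit 0x400000000000000000000000000000000000000000000000000,
    nat_lit 0x400000000000000000000000000000000000000000000000000,
    nat_lit 0x400000000000000000000000000000000000000000000000000,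
    nat_lit 0x800000000000000000000000000000000000000000000,nat_lit 0x800000000000000000000000000000000000000000000,
    nat_lit 0x80081000000000000000000000000000000000000000000000000,nat_lit 0,nat_lit 0],
    [nat_lit 0x80081000000000000000000000000000000000000000000000000,nat_lit 0,
    nat_lit 0x100c840000000000000000000000000000000000000000000000000,nat_lit 0,nat_lit 0,nat_lit 0,nat_lit 0,
    nat_lit 0,nat_lit 0x200000000000000000000000000],[nat_lit 0,nat_lit 0,nat_lit 0,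
    nat_lit 0x89400000000000000000000000000,nat_lit 0,nat_lit 0,nat_lit 0,nat_lit 0x24000000000000000000000000000,
    nat_lit 0],[nat_lit 0x24000000000000000000000000000,nat_lit 0x24000000000000000000000000000,nat_lit 0,nat_lit 0,
    nat_lit 0,nat_lit 0,nat_lit 0x12000000000000000000000000000,nat_lit 0,nat_lit 0]],[[nat_lit 0,nat_lit 0,nat_lit 0,
    nat_lit 0x800000000000000000000000000000,nat_lit 0x800000000000000000000000000000,
    nat_lit 0x800000000000000000000000000000,nat_lit 0x800000000000000000000000000000,nat_lit 0,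
    nat_lit 0x800000000000000000000000000000],[nat_lit 0,nat_lit 0x440000000000000000000000000000,
    nat_lit 0x100000000000000000000000000,nat_lit 0,nat_lit 0,nat_lit 0,nat_lit 0,nat_lit 0,
    nat_lit 0x100000000000000000000000000000000000000000000000000000000000000000000],
    [nat_lit 0x100000000000000000000000000000000000000000000000000000000000000000000,nat_lit 0,nat_lit 0,
    nat_lit 0x409080000000000000000000000000000000000000000000000000000000000000000000000,nat_lit 0,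
    nat_lit 0x800000000000000000000000000000000000000000000000000000000000000000000,nat_lit 0,
    nat_lit 0x800000000000000000000000000000000000000000000000000000000000000000000,
    nat_lit 0x800000000000000000000000000000000000000000000000000000000000000000000],[nat_lit 0,nat_lit 0,
    nat_lit 0x2000080008008000000000000000000000000000000000000000000000000000000000000000000,nat_lit 0,nat_lit 0,
    nat_lit 0x100020000000000000000000000000000000000000000000000000000000000000000000000,nat_lit 0,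
    nat_lit 0x10000000000000000000000000000000000000000000000000000000000000000000000000,nat_lit 0],
    [nat_lit 0x10000000000000000000000000000000000000000000000000000000000000000000000000,
    nat_lit 0x10000000000000000000000000000000000000000000000000000000000000000000000000,nat_lit 0,
    nat_lit 0x802000000010000000000000000000000000000000000000000000000000000000000000000000,
    nat_lit 0x801000000000000000000000000000000000000000000000000000000000000000000000000000,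
    nat_lit 0x803000000010000000000000000000000000000000000000000000000000000000000000000000,
    nat_lit 0x10000000000000000000000000000000000000000000000000000000000000000000000,nat_lit 0,nat_lit 0],
    [nat_lit 0x8004010000000000000000000000000000000000000000000000000000000000000000000000,nat_lit 0,nat_lit 0,
    nat_lit 0,nat_lit 0x10000004000000000000000000000000000000000000000000000000000000000000000000000,
    nat_lit 0x10000004000000000000000000000000000000000000000000000000000000000000000000000,nat_lit 0,nat_lit 0,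
    nat_lit 0x114000244000000000000000000000000000000000000000000000000000000000000000000000],[nat_lit 0,nat_lit 0,
    nat_lit 0,nat_lit 0,nat_lit 0,nat_lit 0x48000100000000000000000000000000000000000,nat_lit 0,nat_lit 0,
    nat_lit 0x10100000000000000000000000000000000000000000],[nat_lit 0,nat_lit 0,nat_lit 0,nat_lit 0,nat_lit 0,
    nat_lit 0,nat_lit 0x200410000000000000000000000000000000000000,nat_lit 0x800000000000000000000000000000000000,
    nat_lit 0x800000000000000000000000000000000000],[nat_lit 0x800000000000000000000000000000000000,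
    nat_lit 0x800000000000000000000000000000000000,nat_lit 0x40800000000000000000000000000000000000000000,
    nat_lit 0x800000000000000000000000000000000000000000,nat_lit 0x800000000000000000000000000000000000000000,
    nat_lit 0,nat_lit 0x2000000000000000000000000000000000000000,nat_lit 0x2000000000000000000000000000000000000000,
    nat_lit 0x2000000000000000000000000000000000000000]],[[nat_lit 0x2000000000000000000000000000000000000000,
    nat_lit 0,nat_lit 0x20000000000000000000000000000000000000000000,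
    nat_lit 0x20004200000000000000000000000000000000000000,nat_lit 0x20000000000000000000000000000000000000000000,
    nat_lit 0x20004200000000000000000000000000000000000000,nat_lit 0x20000000000000000000000000000000000000000000,
    nat_lit 0x20000000000000000000000000000000000000000000,nat_lit 0x20000000000000000000000000000000000000],
    [nat_lit 0,nat_lit 0,nat_lit 0x20000000000000000000000000000000000000,nat_lit 0,nat_lit 0,nat_lit 0,nat_lit 0,
    nat_lit 0,nat_lit 0x1000040000000000000000000000000000000000000],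
    [nat_lit 0x1000008000000000000000000000000000000000000,nat_lit 0x1000040000000000000000000000000000000000000,
    nat_lit 0,nat_lit 0x1000048000000000000000000000000000000000000,nat_lit 0,nat_lit 0,
    nat_lit 0x20000000000000000000000000000000000000000000000000000000000000000000000000000000000000000,nat_lit 0,
    nat_lit 0],[nat_lit 0,nat_lit 0,nat_lit 0,nat_lit 0,nat_lit 0,
    nat_lit 0x40000000000000000000000000000000000000000000000000000000000000000000000000000000000000000,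
    nat_lit 0x40000000000000000000000000000000000000000000000000000000000000000000000000000000000000000,nat_lit 0,
    nat_lit 0x4000000000000000000000000000000000000000000000000000000000000000000000000000000000000000],[nat_lit 0,
    nat_lit 0,nat_lit 0,nat_lit 0,
    nat_lit 0x21009000000000000000000000000000000000000000000000000000000000000000000000000000000000000000,nat_lit 0,
    nat_lit 0x21000000000000000000000000000000000000000000000000000000000000000000000000000000000000000000,nat_lit 0,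
    nat_lit 0],[nat_lit 0,nat_lit 0,nat_lit 0,nat_lit 0,nat_lit 0,nat_lit 0,nat_lit 0,nat_lit 0,nat_lit 0],[nat_lit 0,
    nat_lit 0x80800000000000000000000000000000000000000000000000000000000000000000000000000000000000000000,nat_lit 0,
    nat_lit 0x4080800000000000000000000000000000000000000000000000000000000000000000000000000000000000000000,
    nat_lit 0x4080800000000000000000000000000000000000000000000000000000000000000000000000000000000000000000,
    nat_lit 0x4000000000000000000000000000000000000000000000000000000000000000000000000000000000000000000000,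
    nat_lit 0x4080800000000000000000000000000000000000000000000000000000000000000000000000000000000000000000,
    nat_lit 0x200000000000000000000000000000000000000000000000000000000000000000000000000000000000000000000,
    nat_lit 0x200000000000000000000000000000000000000000000000000000000000000000000000000000000000000000000],
    [nat_lit 0,
    nat_lit 0x104000000000000000000000000000000000000000000000000000000000000000000000000000000000000000000,
    nat_lit 0x4000000000000000000000000000000000000000000000000000000000000000000000000000000000000000000,nat_lit 0,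
    nat_lit 0,nat_lit 0x200000000000000000000000000000000000000000000000000000000000000000000000000000000000000000,
    nat_lit 0x200000000000000000000000000000000000000000000000000000000000000000000000000000000000000000,nat_lit 0,
    nat_lit 0],[nat_lit 0,nat_lit 0,nat_lit 0,
    nat_lit 0x1040000000000000000000000000000000000000000000000000000000000000000,
    nat_lit 0x800020000000000000000000000000000000000000000000000000000000,
    nat_lit 0x1000000000000000000000000000000000000000000000000000000000000,nat_lit 0,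
    nat_lit 0x600000440000000000000000000000000000000000000000000000000000000000,nat_lit 0]],
    [[nat_lit 0x600000440000000000000000000000000000000000000000000000000000000000,
    nat_lit 0x600400400000000000000000000000000000000000000000000000000000000000,nat_lit 0,
    nat_lit 0x40000000000000000000000000000000000000000000000000000000000000,nat_lit 0,nat_lit 0,nat_lit 0,
    nat_lit 0x80000008000000000000000000000000000000000000000000000000000000,
    nat_lit 0x8000000000000000000000000000000000000000000000000000000],[nat_lit 0,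
    nat_lit 0x20000000000000000000000000000000000000000000000000000000000,
    nat_lit 0x20000000000000000000000000000000000000000000000000000000000,
    nat_lit 0x200020000000000000000000000000000000000000000000000000000000000,
    nat_lit 0x200020000000000000000000000000000000000000000000000000000000000,nat_lit 0,nat_lit 0,nat_lit 0,
    nat_lit 0],[nat_lit 0,nat_lit 0,nat_lit 0,
    nat_lit 0x4000100000000000000000000000000000000000000000000000000000000000000,nat_lit 0,nat_lit 0,nat_lit 0,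
    nat_lit 0,
    nat_lit 0x200000000000000000000000000000000000000000000000000000000000000000000000000000000000000000000000000000],
    [nat_lit 0,nat_lit 0,
    nat_lit 0x2000000000000000000000000000000000000000000000000000000000000000000000000000000000000000000000000000000000,
    nat_lit 0x400000000000000000000000000000000000000000000000000000000000000000000000000000000000000000000000000000,
    nat_lit 0,nat_lit 0,nat_lit 0,nat_lit 0,
    nat_lit 0x2000000000000000000000000000000000000000000000000000000000000000000000000000000000000000000000000000000],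
    [nat_lit 0x2000000000000000000000000000000000000000000000000000000000000000000000000000000000000000000000000000000,
    nat_lit 0x2000000000000000000000000000000000000000000000000000000000000000000000000000000000000000000000000000000,
    nat_lit 0x2000000000000000000000000000000000000000000000000000000000000000000000000000000000000000000000000000000,
    nat_lit 0,nat_lit 0,
    nat_lit 0x4000000000000000000000000000000000000000000000000000000000000000000000000000000000000000000000000000000,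
    nat_lit 0,nat_lit 0,nat_lit 0],[nat_lit 0,nat_lit 0,nat_lit 0,nat_lit 0,nat_lit 0,
    nat_lit 0x28000000000000000000000000000000000000000000000000000000000000000000000000000000000000000000000000000000,
    nat_lit 0x28000000000000000000000000000000000000000000000000000000000000000000000000000000000000000000000000000000,
    nat_lit 0x80000000000000000000000000000000000000000000000000000000000000000000000000000000,nat_lit 0],[nat_lit 0,
    nat_lit 0x100000000000000000000000000000000000000000000000000000000000000000000000000000000,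
    nat_lit 0x1080c00000000000000000000000000000000000000000000000000000000000000000000000000000000,nat_lit 0,
    nat_lit 0,nat_lit 0,nat_lit 0,nat_lit 0,nat_lit 0],[nat_lit 0,nat_lit 0,nat_lit 0,nat_lit 0,nat_lit 0,
    nat_lit 0x4002000000000000000000000000000000000000000000000000000000000000000000000000000000000,
    nat_lit 0x4002000000000000000000000000000000000000000000000000000000000000000000000000000000000,
    nat_lit 0x2000000000000000000000000000000000000000000000000000000000000000000000000000000000000,nat_lit 0],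
    [nat_lit 0x8000000000000000000000000000000000000000000000000000000000000000000000000000000000,nat_lit 0,nat_lit 0,
    nat_lit 0,nat_lit 0,nat_lit 0x400000,nat_lit 0x400000,nat_lit 0,nat_lit 0]],[[nat_lit 0x400000,nat_lit 0,
    nat_lit 0,nat_lit 0,nat_lit 0x8000000,nat_lit 0,nat_lit 0x800000,nat_lit 0,nat_lit 0],[nat_lit 0,nat_lit 0,
    nat_lit 0,nat_lit 0,nat_lit 0,nat_lit 0x400000000,nat_lit 0,nat_lit 0x54000000]]],[[[nat_lit 0,nat_lit 0,
    nat_lit 0x100000000000000000000000000000000000000000000000000000000000000000000000000000000000000000000000,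
    nat_lit 0,nat_lit 0,nat_lit 0,nat_lit 0,nat_lit 0,nat_lit 0],
    [nat_lit 0x1000000000000000000000000000000000000000000000000000000000000000000000000000000000000000000000000000,
    nat_lit 0,nat_lit 0,nat_lit 0,nat_lit 0,nat_lit 0,nat_lit 0,nat_lit 0,nat_lit 0],[nat_lit 0,nat_lit 0,nat_lit 0,
    nat_lit 0,nat_lit 0x20000000000000,nat_lit 0,nat_lit 0,nat_lit 0,nat_lit 0],[nat_lit 0,nat_lit 0,nat_lit 0,
    nat_lit 0,nat_lit 0,nat_lit 0,nat_lit 0,nat_lit 0,nat_lit 0],[nat_lit 0,nat_lit 0,nat_lit 0,nat_lit 0,nat_lit 0,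
    nat_lit 0,nat_lit 0,nat_lit 0,nat_lit 0],[nat_lit 512,nat_lit 0,nat_lit 0,nat_lit 0,nat_lit 0,nat_lit 0,nat_lit 0,
    nat_lit 0,nat_lit 0],[nat_lit 0,nat_lit 0,nat_lit 0,nat_lit 0,nat_lit 0,nat_lit 0,nat_lit 0,nat_lit 0,nat_lit 0],
    [nat_lit 0,nat_lit 0,nat_lit 0,nat_lit 0,nat_lit 0,nat_lit 0,nat_lit 0,nat_lit 0,nat_lit 0],[nat_lit 0,nat_lit 0,
    nat_lit 0,nat_lit 0,nat_lit 0,nat_lit 0,nat_lit 0,nat_lit 0,nat_lit 0]],[[nat_lit 0,nat_lit 0,nat_lit 0,
    nat_lit 0x20000000000000000000000000000000000,nat_lit 0,nat_lit 0,nat_lit 0,nat_lit 0,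
    nat_lit 0x4000000000000000000000000000000],[nat_lit 0,nat_lit 0x500000000000000000000000000000000,nat_lit 0,
    nat_lit 0,nat_lit 0,nat_lit 0,nat_lit 0,nat_lit 0,nat_lit 0],[nat_lit 0,nat_lit 0,nat_lit 0,nat_lit 0,nat_lit 0,
    nat_lit 0x10000000000000000000,nat_lit 0,nat_lit 0,nat_lit 0],[nat_lit 0,nat_lit 0,nat_lit 0,nat_lit 0,nat_lit 0,
    nat_lit 0,nat_lit 0,nat_lit 0x80000000000000000,nat_lit 0],[nat_lit 0,nat_lit 0x80000000000000000,
    nat_lit 0x4000000000000000000,nat_lit 0,nat_lit 0,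
    nat_lit 0x800000000000000000000000000000000000000000000000000000,nat_lit 0,nat_lit 0,nat_lit 0],[nat_lit 0,
    nat_lit 0,nat_lit 0,nat_lit 0,nat_lit 0,nat_lit 0,nat_lit 0,nat_lit 0,nat_lit 0],[nat_lit 0,nat_lit 0,
    nat_lit 0x840000000000000000000000000000000000000000000000000,nat_lit 0,nat_lit 0,nat_lit 0,nat_lit 0,nat_lit 0,
    nat_lit 0],[nat_lit 0,nat_lit 0,nat_lit 0,nat_lit 0,nat_lit 0,nat_lit 0,nat_lit 0,nat_lit 0,nat_lit 0],[nat_lit 0,
    nat_lit 0,nat_lit 0,nat_lit 0,nat_lit 0,nat_lit 0,nat_lit 0,nat_lit 0,nat_lit 0]],[[nat_lit 0,nat_lit 0,nat_lit 0,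
    nat_lit 0x800000000000000000000000000000,nat_lit 0,nat_lit 0,nat_lit 0x800000000000000000000000000000,nat_lit 0,
    nat_lit 0],[nat_lit 0,nat_lit 0,nat_lit 0x100000000000000000000000000,nat_lit 0,nat_lit 0,nat_lit 0,nat_lit 0,
    nat_lit 0,nat_lit 0],[nat_lit 0,nat_lit 0,nat_lit 0,nat_lit 0,nat_lit 0,
    nat_lit 0x800000000000000000000000000000000000000000000000000000000000000000000,nat_lit 0,nat_lit 0,nat_lit 0],
    [nat_lit 0,nat_lit 0,nat_lit 0,nat_lit 0,nat_lit 0,nat_lit 0,nat_lit 0,nat_lit 0,nat_lit 0],[nat_lit 0,nat_lit 0,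
    nat_lit 0,nat_lit 0,nat_lit 0x1000000000000000000000000000000000000000000000000000000000000000000000000000,
    nat_lit 0,nat_lit 0,nat_lit 0,nat_lit 0],
    [nat_lit 0x8004000000000000000000000000000000000000000000000000000000000000000000000000,nat_lit 0,nat_lit 0,
    nat_lit 0,nat_lit 0x4000000000000000000000000000000000000000000000000000000000000000000000,
    nat_lit 0x4000000000000000000000000000000000000000000000000000000000000000000000,nat_lit 0,nat_lit 0,
    nat_lit 0x104000200000000000000000000000000000000000000000000000000000000000000000000000],[nat_lit 0,nat_lit 0,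
    nat_lit 0,nat_lit 0,nat_lit 0,nat_lit 0x8000000000000000000000000000000000000000,nat_lit 0,nat_lit 0,nat_lit 0],
    [nat_lit 0,nat_lit 0,nat_lit 0,nat_lit 0,nat_lit 0,nat_lit 0,nat_lit 0,nat_lit 0,nat_lit 0],[nat_lit 0,nat_lit 0,
    nat_lit 0,nat_lit 0x800000000000000000000000000000000000000000,
    nat_lit 0x800000000000000000000000000000000000000000,nat_lit 0,nat_lit 0,nat_lit 0,nat_lit 0]],[[nat_lit 0,
    nat_lit 0,nat_lit 0,nat_lit 0x4200000000000000000000000000000000000000,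
    nat_lit 0x20000000000000000000000000000000000000000000,nat_lit 0,
    nat_lit 0x20000000000000000000000000000000000000000000,nat_lit 0x20000000000000000000000000000000000000000000,
    nat_lit 0],[nat_lit 0,nat_lit 0,nat_lit 0,nat_lit 0,nat_lit 0,nat_lit 0,nat_lit 0,nat_lit 0,nat_lit 0],
    [nat_lit 0x8000000000000000000000000000000000000,nat_lit 0,nat_lit 0,nat_lit 0,nat_lit 0,nat_lit 0,
    nat_lit 0x20000000000000000000000000000000000000000000000000000000000000000000000000000000000000000,nat_lit 0,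
    nat_lit 0],[nat_lit 0,nat_lit 0,nat_lit 0,nat_lit 0,nat_lit 0,nat_lit 0,nat_lit 0,nat_lit 0,nat_lit 0],[nat_lit 0,
    nat_lit 0,nat_lit 0,nat_lit 0,nat_lit 0,nat_lit 0,
    nat_lit 0x21000000000000000000000000000000000000000000000000000000000000000000000000000000000000000000,nat_lit 0,
    nat_lit 0],[nat_lit 0,nat_lit 0,nat_lit 0,nat_lit 0,nat_lit 0,nat_lit 0,nat_lit 0,nat_lit 0,nat_lit 0],[nat_lit 0,
    nat_lit 0,nat_lit 0,nat_lit 0,nat_lit 0,nat_lit 0,nat_lit 0,nat_lit 0,nat_lit 0],[nat_lit 0,nat_lit 0,nat_lit 0,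
    nat_lit 0,nat_lit 0,nat_lit 0,nat_lit 0,nat_lit 0,nat_lit 0],[nat_lit 0,nat_lit 0,nat_lit 0,nat_lit 0,nat_lit 0,
    nat_lit 0x1000000000000000000000000000000000000000000000000000000000000,nat_lit 0,nat_lit 0,nat_lit 0]],
    [[nat_lit 0,nat_lit 0,nat_lit 0,nat_lit 0,nat_lit 0,nat_lit 0,nat_lit 0,nat_lit 0,nat_lit 0],[nat_lit 0,nat_lit 0,
    nat_lit 0,nat_lit 0x200000000000000000000000000000000000000000000000000000000000000,
    nat_lit 0x200000000000000000000000000000000000000000000000000000000000000,nat_lit 0,nat_lit 0,nat_lit 0,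
    nat_lit 0],[nat_lit 0,nat_lit 0,nat_lit 0,nat_lit 0,nat_lit 0,nat_lit 0,nat_lit 0,nat_lit 0,nat_lit 0],[nat_lit 0,
    nat_lit 0,
    nat_lit 0x2000000000000000000000000000000000000000000000000000000000000000000000000000000000000000000000000000000000,
    nat_lit 0,nat_lit 0,nat_lit 0,nat_lit 0,nat_lit 0,nat_lit 0],
    [nat_lit 0x2000000000000000000000000000000000000000000000000000000000000000000000000000000000000000000000000000000,
    nat_lit 0,
    nat_lit 0x2000000000000000000000000000000000000000000000000000000000000000000000000000000000000000000000000000000,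
    nat_lit 0,nat_lit 0,nat_lit 0,nat_lit 0,nat_lit 0,nat_lit 0],[nat_lit 0,nat_lit 0,nat_lit 0,nat_lit 0,nat_lit 0,
    nat_lit 0x8000000000000000000000000000000000000000000000000000000000000000000000000000000000000000000000000000000,
    nat_lit 0,nat_lit 0,nat_lit 0],[nat_lit 0,
    nat_lit 0x100000000000000000000000000000000000000000000000000000000000000000000000000000000,
    nat_lit 0x1080000000000000000000000000000000000000000000000000000000000000000000000000000000000,nat_lit 0,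
    nat_lit 0,nat_lit 0,nat_lit 0,nat_lit 0,nat_lit 0],[nat_lit 0,nat_lit 0,nat_lit 0,nat_lit 0,nat_lit 0,
    nat_lit 0x2000000000000000000000000000000000000000000000000000000000000000000000000000000000,nat_lit 0,nat_lit 0,
    nat_lit 0],[nat_lit 0,nat_lit 0,nat_lit 0,nat_lit 0,nat_lit 0,nat_lit 0,nat_lit 0,nat_lit 0,nat_lit 0]],
    [[nat_lit 0x400000,nat_lit 0,nat_lit 0,nat_lit 0,nat_lit 0x8000000,nat_lit 0,nat_lit 0,nat_lit 0,nat_lit 0],
    [nat_lit 0,nat_lit 0,nat_lit 0,nat_lit 0,nat_lit 0,nat_lit 0,nat_lit 0,nat_lit 0]]]]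
    (nat_lit 2) (nat_lit 1) (nat_lit 81)
    [[nat_lit 2,nat_lit 257,nat_lit 0x100101,nat_lit 0x10001,nat_lit 0x110001,nat_lit 0x20001,nat_lit 0x100001,
    nat_lit 0x200001,nat_lit 0x1000001,nat_lit 0x10000001],[nat_lit 32,nat_lit 272,nat_lit 0x1110,nat_lit 0x1010,
    nat_lit 0x10010,nat_lit 0x11010,nat_lit 0x100010,nat_lit 0x101010,nat_lit 0x10000010],[nat_lit 0x1100,
    nat_lit 0x2100,nat_lit 0x11100,nat_lit 0x101100,nat_lit 0x10100,nat_lit 0x20100,nat_lit 0x120100,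
    nat_lit 0x1020100,nat_lit 0x110100,nat_lit 0x210100,nat_lit 0x1010100,nat_lit 0x1110100,nat_lit 0x10010100,
    nat_lit 0x100100,nat_lit 0x200200,nat_lit 0x200100,nat_lit 0x300100,nat_lit 0x1100100,nat_lit 0x10100100,
    nat_lit 0x1000100,nat_lit 0x2000100,nat_lit 0x11000100,nat_lit 0x10000100],[nat_lit 0x2000,nat_lit 0x12000,
    nat_lit 0x102000,nat_lit 0x11000,nat_lit 0x1011000,nat_lit 0x101000,nat_lit 0x1001000],[nat_lit 0x20000,
    nat_lit 0x30000,nat_lit 0x120000,nat_lit 0x1020000,nat_lit 0x10020000,nat_lit 0x110000,nat_lit 0x210000,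
    nat_lit 0x1110000,nat_lit 0x10110000,nat_lit 0x1010000,nat_lit 0x2010000,nat_lit 0x10010000],[nat_lit 0x200000,
    nat_lit 0x300000,nat_lit 0x400000,nat_lit 0x1200000,nat_lit 0x10200000,nat_lit 0x1100000,nat_lit 0x2100000,
    nat_lit 0x10100000],[nat_lit 0x2000000,nat_lit 0x11000000],[nat_lit 0x20000000]]
    [.c (nat_lit 1) (nat_lit 2),.c (nat_lit 0) (nat_lit 0x2403),.c (nat_lit 0) (nat_lit 0x2004605),
    .c (nat_lit 0) (nat_lit 0x30200405),.c (nat_lit 1) (nat_lit 0x3300404),.c (nat_lit 1) (nat_lit 0x300202),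
    .c (nat_lit 0) (nat_lit 0x32000405),.c (nat_lit 1) (nat_lit 0x3000202),.c (nat_lit 0) (nat_lit 0x33355245),
    .c (nat_lit 1) (nat_lit 514),.c (nat_lit 2) (nat_lit 2),.c (nat_lit 0) (nat_lit 0x40006007),
    .c (nat_lit 0) (nat_lit 0x30033002),.c (nat_lit 0) (nat_lit 0x30070006),.c (nat_lit 1) (nat_lit 0x30300804),
    .c (nat_lit 0) (nat_lit 0x307d000c),.c (nat_lit 1) (nat_lit 0x33000804),.c (nat_lit 0) (nat_lit 0x370d000c),
    .r (nat_lit 0xdb2) (nat_lit 11) [nat_lit 0x2021,nat_lit 0x22400002],.c (nat_lit 2) (nat_lit 0x20022003),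
    .c (nat_lit 1) (nat_lit 0x42803),.r (nat_lit 0xdb2) (nat_lit 11) [nat_lit 0x202444052,nat_lit 0x22400002],
    .r (nat_lit 0xdb2) (nat_lit 11) [nat_lit 0x220444052,nat_lit 0x22400002],.c (nat_lit 0) (nat_lit 0x402009),
    .c (nat_lit 0) (nat_lit 0x402005),.c (nat_lit 0) (nat_lit 0x4806009),
    .r (nat_lit 0xdb2) (nat_lit 11) [nat_lit 0x32500452,nat_lit 0x22400002],.c (nat_lit 0) (nat_lit 0x2202005),
    .c (nat_lit 0) (nat_lit 0x8406009),.c (nat_lit 2) (nat_lit 0x23050545),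
    .r (nat_lit 0xdb2) (nat_lit 11) [nat_lit 0x300231,nat_lit 0x22400002],.c (nat_lit 0) (nat_lit 0x406009),
    .c (nat_lit 0) (nat_lit 0x4002009),.c (nat_lit 2) (nat_lit 0x22004003),.c (nat_lit 0) (nat_lit 0x4002005),
    .c (nat_lit 0) (nat_lit 0xc006009),.c (nat_lit 2) (nat_lit 0x20350545),.c (nat_lit 0) (nat_lit 0x4006009),
    .r (nat_lit 0xdbe) (nat_lit 8) [nat_lit 33,nat_lit 0x200001],.r (nat_lit 0xdb2) (nat_lit 11) [nat_lit 0x33530432,
    nat_lit 0x22400002],.r (nat_lit 0xdb2) (nat_lit 11) [nat_lit 0x33500452,nat_lit 0x22400002],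
    .c (nat_lit 0) (nat_lit 0x2005),.c (nat_lit 4) (nat_lit 2),.c (nat_lit 0) (nat_lit 0x30390004),
    .c (nat_lit 0) (nat_lit 0x33090004),.c (nat_lit 0) (nat_lit 0x220005),.c (nat_lit 1) (nat_lit 0x33005445),
    .c (nat_lit 0) (nat_lit 0x2020005),.r (nat_lit 0xdb2) (nat_lit 11) [nat_lit 0x33050452,nat_lit 0x22400002],
    .c (nat_lit 5) (nat_lit 2),.c (nat_lit 0) (nat_lit 0x30600005),.c (nat_lit 0) (nat_lit 0x32400005),
    .c (nat_lit 0) (nat_lit 0x33455545),.c (nat_lit 1) (nat_lit 0x300402),.c (nat_lit 5) (nat_lit 0x3200004),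
    .c (nat_lit 0) (nat_lit 0x34200005),.c (nat_lit 0) (nat_lit 0x30255545),.c (nat_lit 1) (nat_lit 0x3300804),
    .c (nat_lit 0) (nat_lit 0x33455545),.r (nat_lit 0xdb2) (nat_lit 11) [nat_lit 0x353995852,nat_lit 0x22400002],
    .c (nat_lit 0) (nat_lit 0x30200005),.c (nat_lit 6) (nat_lit 2),.c (nat_lit 0) (nat_lit 0x36000005),
    .c (nat_lit 1) (nat_lit 0x5000402),.c (nat_lit 0) (nat_lit 0x34355545),.c (nat_lit 1) (nat_lit 0x3000402),
    .c (nat_lit 0) (nat_lit 0x34355545),.r (nat_lit 0xdb2) (nat_lit 11) [nat_lit 0x335995852,nat_lit 0x22400002],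
    .c (nat_lit 0) (nat_lit 0x32000005),.c (nat_lit 7) (nat_lit 2),.c (nat_lit 0) (nat_lit 0x33355547),
    .c (nat_lit 8) (nat_lit 2)]]

/-- nodes -/
noncomputable def rD8k_6_1 : List RJ :=
  [.s (nat_lit 16) (nat_lit 0x2d00) (nat_lit 4) (nat_lit 0x162300001623000012ef000012ef0000120f0000120f0000127f0000127f0000160b0000160b0000127f0000127f00001677000018af0000185b0000185b) (nat_lit 0x28c0000028c000005c0000005c0000006a0000006a00000063000000630000002a4000002a4000006300000063000000000000002380000005400000054)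
    (nat_lit 0x166713970fc310630cc307cb0ff30ff3137f10bf0ff30ff31a4316cb15cf173f18871667106310630ee30f830ff30ff312df12df0ff30f53162312ab15cf173f106310630d2f083f0c4f0c4f0d5f0d5f10eb104b0dff0d5f117f10b70fcb129b10630fc30d2f0d2f0baf0c4f0cbf0cbf104b104b0d5f0cbf12ef11e71a531d230f8307cb0c4f0c4f0b6f0b6f0bdf0c7f0f6b0f6b0aaf0bdf07870f37125b11bb0ee30cc30baf0c4f0e3f0b6f0bdf0bdf123b123b0bdf0bdf120f0fd711bb11bb0ff30ff30cbf0d5f0bdf0c7f097f097f0fdb0fdb0c4f097f127f104714eb122b0ff30ff30cbf0d5f0bdf0bdf0c4f097f0fdb0fdb0a1f0c4f131f10e714eb0eab12df10bf104b104b123b0f6b0fdb0fdb136713670f3b0fdb198b160315b7151712df137f104b10eb123b0f6b0fdb0fdb136713670fdb0fdb170b138315b715b70f530ff30cbf0d5f0bdf0bdf0c4f097f0fdb0fdb0c9f0c4f127f1047122b112b0ff30ff30d5f0dff0bdf0aaf0a1f0c4f0fdb0f3b0c4f0c9f127f10470f4b122b12ab16cb11e710b70fd70f3710e7104713831603104710471677143f1623162316231a4312ef117f120f0787131f127f170b198b127f127f18af167716eb185b173f173f1d23129b11bb11bb0eab122b15b71517122b112b185b162313e7180715cf15cf1a530fcb11bb125b14eb14eb15b715b70f4b122b16eb1623180713e7)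
    (nat_lit 0x16672d002d002d002d002d002d002d002d002d002d002d002d002d002d002d00139716672d002d002d002d002d002d002d002d002d002d002d002d002d002d000fc310630d2f2d002d002d002d002d002d002d002d002d002d002d002d002d0010631063083f0d2f2d002d002d002d002d002d002d002d002d002d002d002d000cc30ee30c4f0baf0b6f2d002d002d002d002d002d002d002d002d002d002d0007cb0f830c4f0c4f0b6f0b6f2d002d002d002d002d002d002d002d002d002d000ff30ff30d5f0cbf0bdf0bdf097f2d002d002d002d002d002d002d002d002d000ff30ff30d5f0cbf0c7f0bdf097f097f2d002d002d002d002d002d002d002d00137f12df10eb104b0f6b123b0fdb0fdb13672d002d002d002d002d002d002d0010bf12df104b104b0f6b123b0fdb0fdb136713672d002d002d002d002d002d000ff30ff30dff0d5f0aaf0bdf0c4f0a1f0f3b0fdb0c9f2d002d002d002d002d000ff30f530d5f0cbf0bdf0bdf097f0c4f0fdb0fdb0c4f0c9f2d002d002d002d00144a1623117f12ef0787120f127f131f198b170b127f127f16772d002d002d0016cb12ab10b711e70f370fd7104710e71603138310471047143f16772d002d0015cf15cf0fcb1a53125b11bb14eb14eb15b715b7122b0f4b162316eb13e72d00173f173f129b1b6a11bb11bb122b0eab151715b7112b122b1623185b180713e7)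
    (nat_lit 5) (nat_lit 79)
    [[nat_lit 0,nat_lit 5,nat_lit 10],[nat_lit 0,nat_lit 5,nat_lit 11],[nat_lit 0,nat_lit 8,nat_lit 10],[nat_lit 0,
    nat_lit 9,nat_lit 10],[nat_lit 0,nat_lit 10,nat_lit 8],[nat_lit 0,nat_lit 11,nat_lit 8],[nat_lit 0,nat_lit 11,
    nat_lit 9],[nat_lit 0,nat_lit 12],[nat_lit 0,nat_lit 13],[nat_lit 1,nat_lit 8,nat_lit 10],[nat_lit 1,nat_lit 9,
    nat_lit 10],[nat_lit 1,nat_lit 9,nat_lit 11],[nat_lit 1,nat_lit 10,nat_lit 4],[nat_lit 1,nat_lit 11,nat_lit 4],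
    [nat_lit 1,nat_lit 11,nat_lit 8],[nat_lit 1,nat_lit 11,nat_lit 9],[nat_lit 1,nat_lit 12],[nat_lit 1,nat_lit 13],
    [nat_lit 2,nat_lit 4,nat_lit 9],[nat_lit 2,nat_lit 5,nat_lit 8],[nat_lit 2,nat_lit 8,nat_lit 4],[nat_lit 2,
    nat_lit 8,nat_lit 5],[nat_lit 2,nat_lit 8,nat_lit 8],[nat_lit 2,nat_lit 8,nat_lit 9],[nat_lit 2,nat_lit 9,
    nat_lit 4],[nat_lit 2,nat_lit 9,nat_lit 9],[nat_lit 2,nat_lit 14],[nat_lit 2,nat_lit 15],[nat_lit 3,nat_lit 4,
    nat_lit 9],[nat_lit 3,nat_lit 5,nat_lit 8],[nat_lit 3,nat_lit 5,nat_lit 9],[nat_lit 3,nat_lit 8,nat_lit 5],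
    [nat_lit 3,nat_lit 8,nat_lit 8],[nat_lit 3,nat_lit 8,nat_lit 9],[nat_lit 3,nat_lit 9,nat_lit 4],[nat_lit 3,
    nat_lit 9,nat_lit 9],[nat_lit 3,nat_lit 14],[nat_lit 3,nat_lit 15],[nat_lit 4,nat_lit 6,nat_lit 12],[nat_lit 4,
    nat_lit 6,nat_lit 13],[nat_lit 4,nat_lit 7,nat_lit 12],[nat_lit 4,nat_lit 12,nat_lit 6],[nat_lit 4,nat_lit 12,
    nat_lit 7],[nat_lit 4,nat_lit 13,nat_lit 6],[nat_lit 4,nat_lit 13,nat_lit 7],[nat_lit 5,nat_lit 6,nat_lit 12],
    [nat_lit 5,nat_lit 6,nat_lit 13],[nat_lit 5,nat_lit 7,nat_lit 12],[nat_lit 5,nat_lit 7,nat_lit 13],[nat_lit 5,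
    nat_lit 12,nat_lit 7],[nat_lit 5,nat_lit 13,nat_lit 6],[nat_lit 5,nat_lit 13,nat_lit 7],[nat_lit 6,nat_lit 8,
    nat_lit 12],[nat_lit 6,nat_lit 8,nat_lit 13],[nat_lit 6,nat_lit 9,nat_lit 12],[nat_lit 6,nat_lit 9,nat_lit 13],
    [nat_lit 6,nat_lit 10,nat_lit 14],[nat_lit 6,nat_lit 10,nat_lit 15],[nat_lit 6,nat_lit 11,nat_lit 14],[nat_lit 6,
    nat_lit 12,nat_lit 9],[nat_lit 6,nat_lit 13,nat_lit 8],[nat_lit 6,nat_lit 13,nat_lit 9],[nat_lit 6,nat_lit 14,
    nat_lit 11],[nat_lit 6,nat_lit 15,nat_lit 10],[nat_lit 6,nat_lit 15,nat_lit 11],[nat_lit 7,nat_lit 8,nat_lit 12],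
    [nat_lit 7,nat_lit 8,nat_lit 13],[nat_lit 7,nat_lit 9,nat_lit 12],[nat_lit 7,nat_lit 10,nat_lit 14],[nat_lit 7,
    nat_lit 10,nat_lit 15],[nat_lit 7,nat_lit 11,nat_lit 14],[nat_lit 7,nat_lit 12,nat_lit 8],[nat_lit 7,nat_lit 12,
    nat_lit 9],[nat_lit 7,nat_lit 13,nat_lit 8],[nat_lit 7,nat_lit 13,nat_lit 9],[nat_lit 7,nat_lit 14,nat_lit 11],
    [nat_lit 7,nat_lit 15,nat_lit 10],[nat_lit 7,nat_lit 15,nat_lit 11]]
    [nat_lit 0x105a,nat_lit 0x105b,nat_lit 0x108a,nat_lit 0x109a,nat_lit 0x10a8,nat_lit 0x10b8,nat_lit 0x10b9,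
    nat_lit 268,nat_lit 269,nat_lit 0x118a,nat_lit 0x119a,nat_lit 0x119b,nat_lit 0x11a4,nat_lit 0x11b4,nat_lit 0x11b8,
    nat_lit 0x11b9,nat_lit 284,nat_lit 285,nat_lit 0x1249,nat_lit 0x1258,nat_lit 0x1284,nat_lit 0x1285,nat_lit 0x1288,
    nat_lit 0x1289,nat_lit 0x1294,nat_lit 0x1299,nat_lit 302,nat_lit 303,nat_lit 0x1349,nat_lit 0x1358,nat_lit 0x1359,
    nat_lit 0x1385,nat_lit 0x1388,nat_lit 0x1389,nat_lit 0x1394,nat_lit 0x1399,nat_lit 318,nat_lit 319,nat_lit 0x146c,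
    nat_lit 0x146d,nat_lit 0x147c,nat_lit 0x14c6,nat_lit 0x14c7,nat_lit 0x14d6,nat_lit 0x14d7,nat_lit 0x156c,
    nat_lit 0x156d,nat_lit 0x157c,nat_lit 0x157d,nat_lit 0x15c7,nat_lit 0x15d6,nat_lit 0x15d7,nat_lit 0x168c,
    nat_lit 0x168d,nat_lit 0x169c,nat_lit 0x169d,nat_lit 0x16ae,nat_lit 0x16af,nat_lit 0x16be,nat_lit 0x16c9,
    nat_lit 0x16d8,nat_lit 0x16d9,nat_lit 0x16eb,nat_lit 0x16fa,nat_lit 0x16fb,nat_lit 0x178c,nat_lit 0x178d,
    nat_lit 0x179c,nat_lit 0x17ae,nat_lit 0x17af,nat_lit 0x17be,nat_lit 0x17c8,nat_lit 0x17c9,nat_lit 0x17d8,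
    nat_lit 0x17d9,nat_lit 0x17eb,nat_lit 0x17fa,nat_lit 0x17fb]
    [[[nat_lit 0,nat_lit 5,nat_lit 10],[nat_lit 0,nat_lit 5,nat_lit 11],[nat_lit 0,nat_lit 8,nat_lit 10],[nat_lit 0,
    nat_lit 9,nat_lit 10],[nat_lit 0,nat_lit 10,nat_lit 8],[nat_lit 0,nat_lit 11,nat_lit 8],[nat_lit 0,nat_lit 11,
    nat_lit 9],[nat_lit 0,nat_lit 12],[nat_lit 0,nat_lit 13],[nat_lit 1,nat_lit 8,nat_lit 10],[nat_lit 1,nat_lit 9,
    nat_lit 10],[nat_lit 1,nat_lit 9,nat_lit 11]],[[nat_lit 1,nat_lit 10,nat_lit 4],[nat_lit 1,nat_lit 11,nat_lit 4],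
    [nat_lit 1,nat_lit 11,nat_lit 8],[nat_lit 1,nat_lit 11,nat_lit 9],[nat_lit 1,nat_lit 12],[nat_lit 1,nat_lit 13],
    [nat_lit 2,nat_lit 4,nat_lit 9],[nat_lit 2,nat_lit 5,nat_lit 8],[nat_lit 2,nat_lit 8,nat_lit 4],[nat_lit 2,
    nat_lit 8,nat_lit 5],[nat_lit 2,nat_lit 8,nat_lit 8],[nat_lit 2,nat_lit 8,nat_lit 9]],[[nat_lit 2,nat_lit 9,
    nat_lit 4],[nat_lit 2,nat_lit 9,nat_lit 9],[nat_lit 2,nat_lit 14],[nat_lit 2,nat_lit 15],[nat_lit 3,nat_lit 4,
    nat_lit 9],[nat_lit 3,nat_lit 5,nat_lit 8],[nat_lit 3,nat_lit 5,nat_lit 9],[nat_lit 3,nat_lit 8,nat_lit 5],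
    [nat_lit 3,nat_lit 8,nat_lit 8],[nat_lit 3,nat_lit 8,nat_lit 9],[nat_lit 3,nat_lit 9,nat_lit 4],[nat_lit 3,
    nat_lit 9,nat_lit 9]],[[nat_lit 3,nat_lit 14],[nat_lit 3,nat_lit 15],[nat_lit 4,nat_lit 1,nat_lit 10],[nat_lit 4,
    nat_lit 1,nat_lit 11],[nat_lit 4,nat_lit 2,nat_lit 8],[nat_lit 4,nat_lit 2,nat_lit 9],[nat_lit 4,nat_lit 3,
    nat_lit 9],[nat_lit 4,nat_lit 6,nat_lit 12],[nat_lit 4,nat_lit 6,nat_lit 13],[nat_lit 4,nat_lit 7,nat_lit 12],
    [nat_lit 4,nat_lit 9,nat_lit 2],[nat_lit 4,nat_lit 9,nat_lit 3]],[[nat_lit 4,nat_lit 12,nat_lit 6],[nat_lit 4,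
    nat_lit 12,nat_lit 7],[nat_lit 4,nat_lit 13,nat_lit 6],[nat_lit 4,nat_lit 13,nat_lit 7],[nat_lit 5,nat_lit 2,
    nat_lit 8],[nat_lit 5,nat_lit 3,nat_lit 8],[nat_lit 5,nat_lit 6,nat_lit 12],[nat_lit 5,nat_lit 6,nat_lit 13],
    [nat_lit 5,nat_lit 7,nat_lit 12],[nat_lit 5,nat_lit 7,nat_lit 13],[nat_lit 5,nat_lit 8,nat_lit 2],[nat_lit 5,
    nat_lit 8,nat_lit 3]],[[nat_lit 5,nat_lit 9,nat_lit 3],[nat_lit 5,nat_lit 10,nat_lit 0],[nat_lit 5,nat_lit 11,
    nat_lit 0],[nat_lit 5,nat_lit 12,nat_lit 7],[nat_lit 5,nat_lit 13,nat_lit 6],[nat_lit 5,nat_lit 13,nat_lit 7],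
    [nat_lit 6,nat_lit 4,nat_lit 12],[nat_lit 6,nat_lit 4,nat_lit 13],[nat_lit 6,nat_lit 5,nat_lit 13],[nat_lit 6,
    nat_lit 8,nat_lit 12],[nat_lit 6,nat_lit 8,nat_lit 13],[nat_lit 6,nat_lit 9,nat_lit 12]],[[nat_lit 6,nat_lit 9,
    nat_lit 13],[nat_lit 6,nat_lit 10,nat_lit 14],[nat_lit 6,nat_lit 10,nat_lit 15],[nat_lit 6,nat_lit 11,nat_lit 14],
    [nat_lit 6,nat_lit 12,nat_lit 4],[nat_lit 6,nat_lit 12,nat_lit 5],[nat_lit 6,nat_lit 12,nat_lit 9],[nat_lit 6,
    nat_lit 13,nat_lit 4],[nat_lit 6,nat_lit 13,nat_lit 5],[nat_lit 6,nat_lit 13,nat_lit 8],[nat_lit 6,nat_lit 13,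
    nat_lit 9],[nat_lit 6,nat_lit 14,nat_lit 11]],[[nat_lit 6,nat_lit 15,nat_lit 10],[nat_lit 6,nat_lit 15,
    nat_lit 11],[nat_lit 7,nat_lit 4,nat_lit 12],[nat_lit 7,nat_lit 4,nat_lit 13],[nat_lit 7,nat_lit 5,nat_lit 12],
    [nat_lit 7,nat_lit 5,nat_lit 13],[nat_lit 7,nat_lit 8,nat_lit 12],[nat_lit 7,nat_lit 8,nat_lit 13],[nat_lit 7,
    nat_lit 9,nat_lit 12],[nat_lit 7,nat_lit 10,nat_lit 14],[nat_lit 7,nat_lit 10,nat_lit 15],[nat_lit 7,nat_lit 11,
    nat_lit 14]],[[nat_lit 7,nat_lit 12,nat_lit 4],[nat_lit 7,nat_lit 12,nat_lit 5],[nat_lit 7,nat_lit 12,nat_lit 8],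
    [nat_lit 7,nat_lit 12,nat_lit 9],[nat_lit 7,nat_lit 13,nat_lit 5],[nat_lit 7,nat_lit 13,nat_lit 8],[nat_lit 7,
    nat_lit 13,nat_lit 9],[nat_lit 7,nat_lit 14,nat_lit 11],[nat_lit 7,nat_lit 15,nat_lit 10],[nat_lit 7,nat_lit 15,
    nat_lit 11],[nat_lit 8,nat_lit 0,nat_lit 10],[nat_lit 8,nat_lit 0,nat_lit 11]],[[nat_lit 8,nat_lit 1,nat_lit 11],
    [nat_lit 8,nat_lit 2,nat_lit 5],[nat_lit 8,nat_lit 2,nat_lit 8],[nat_lit 8,nat_lit 3,nat_lit 5],[nat_lit 8,
    nat_lit 3,nat_lit 8],[nat_lit 8,nat_lit 4,nat_lit 2],[nat_lit 8,nat_lit 5,nat_lit 2],[nat_lit 8,nat_lit 5,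
    nat_lit 3],[nat_lit 8,nat_lit 6,nat_lit 13],[nat_lit 8,nat_lit 7,nat_lit 12],[nat_lit 8,nat_lit 7,nat_lit 13],
    [nat_lit 8,nat_lit 8,nat_lit 2]],[[nat_lit 8,nat_lit 8,nat_lit 3],[nat_lit 8,nat_lit 9,nat_lit 2],[nat_lit 8,
    nat_lit 9,nat_lit 3],[nat_lit 8,nat_lit 10,nat_lit 0],[nat_lit 8,nat_lit 10,nat_lit 1],[nat_lit 8,nat_lit 12,
    nat_lit 6],[nat_lit 8,nat_lit 12,nat_lit 7],[nat_lit 8,nat_lit 13,nat_lit 6],[nat_lit 8,nat_lit 13,nat_lit 7],
    [nat_lit 9,nat_lit 0,nat_lit 11],[nat_lit 9,nat_lit 1,nat_lit 11],[nat_lit 9,nat_lit 2,nat_lit 4]],[[nat_lit 9,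
    nat_lit 2,nat_lit 8],[nat_lit 9,nat_lit 2,nat_lit 9],[nat_lit 9,nat_lit 3,nat_lit 4],[nat_lit 9,nat_lit 3,
    nat_lit 5],[nat_lit 9,nat_lit 3,nat_lit 8],[nat_lit 9,nat_lit 3,nat_lit 9],[nat_lit 9,nat_lit 4,nat_lit 2],
    [nat_lit 9,nat_lit 4,nat_lit 3],[nat_lit 9,nat_lit 6,nat_lit 12],[nat_lit 9,nat_lit 6,nat_lit 13],[nat_lit 9,
    nat_lit 7,nat_lit 12],[nat_lit 9,nat_lit 7,nat_lit 13]],[[nat_lit 9,nat_lit 9,nat_lit 2],[nat_lit 9,nat_lit 9,
    nat_lit 3],[nat_lit 9,nat_lit 10,nat_lit 0],[nat_lit 9,nat_lit 10,nat_lit 1],[nat_lit 9,nat_lit 11,nat_lit 1],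
    [nat_lit 9,nat_lit 12,nat_lit 6],[nat_lit 9,nat_lit 12,nat_lit 7],[nat_lit 9,nat_lit 13,nat_lit 6],[nat_lit 10,
    nat_lit 0,nat_lit 5],[nat_lit 10,nat_lit 0,nat_lit 8],[nat_lit 10,nat_lit 0,nat_lit 9],[nat_lit 10,nat_lit 1,
    nat_lit 8]],[[nat_lit 10,nat_lit 1,nat_lit 9],[nat_lit 10,nat_lit 4,nat_lit 1],[nat_lit 10,nat_lit 6,nat_lit 15],
    [nat_lit 10,nat_lit 7,nat_lit 15],[nat_lit 10,nat_lit 8,nat_lit 0],[nat_lit 10,nat_lit 14,nat_lit 6],[nat_lit 10,
    nat_lit 14,nat_lit 7],[nat_lit 10,nat_lit 15,nat_lit 6],[nat_lit 10,nat_lit 15,nat_lit 7],[nat_lit 11,nat_lit 0,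
    nat_lit 5],[nat_lit 11,nat_lit 1,nat_lit 9],[nat_lit 11,nat_lit 4,nat_lit 1]],[[nat_lit 11,nat_lit 6,nat_lit 14],
    [nat_lit 11,nat_lit 6,nat_lit 15],[nat_lit 11,nat_lit 7,nat_lit 14],[nat_lit 11,nat_lit 7,nat_lit 15],[nat_lit 11,
    nat_lit 8,nat_lit 0],[nat_lit 11,nat_lit 8,nat_lit 1],[nat_lit 11,nat_lit 9,nat_lit 0],[nat_lit 11,nat_lit 9,
    nat_lit 1],[nat_lit 11,nat_lit 14,nat_lit 6],[nat_lit 11,nat_lit 14,nat_lit 7],[nat_lit 12,nat_lit 0],[nat_lit 12,
    nat_lit 1]],[[nat_lit 12,nat_lit 4,nat_lit 6],[nat_lit 12,nat_lit 4,nat_lit 7],[nat_lit 12,nat_lit 5,nat_lit 6],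
    [nat_lit 12,nat_lit 5,nat_lit 7],[nat_lit 12,nat_lit 6,nat_lit 4],[nat_lit 12,nat_lit 6,nat_lit 8],[nat_lit 12,
    nat_lit 6,nat_lit 9],[nat_lit 12,nat_lit 7,nat_lit 4],[nat_lit 12,nat_lit 7,nat_lit 5],[nat_lit 12,nat_lit 7,
    nat_lit 8],[nat_lit 12,nat_lit 7,nat_lit 9],[nat_lit 12,nat_lit 8,nat_lit 7]],[[nat_lit 12,nat_lit 9,nat_lit 6],
    [nat_lit 12,nat_lit 9,nat_lit 7],[nat_lit 13,nat_lit 0],[nat_lit 13,nat_lit 1],[nat_lit 13,nat_lit 4,nat_lit 6],
    [nat_lit 13,nat_lit 5,nat_lit 6],[nat_lit 13,nat_lit 5,nat_lit 7],[nat_lit 13,nat_lit 6,nat_lit 4],[nat_lit 13,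
    nat_lit 6,nat_lit 5],[nat_lit 13,nat_lit 6,nat_lit 8],[nat_lit 13,nat_lit 6,nat_lit 9],[nat_lit 13,nat_lit 7,
    nat_lit 4]],[[nat_lit 13,nat_lit 7,nat_lit 5],[nat_lit 13,nat_lit 7,nat_lit 8],[nat_lit 13,nat_lit 8,nat_lit 6],
    [nat_lit 13,nat_lit 8,nat_lit 7],[nat_lit 13,nat_lit 9,nat_lit 6],[nat_lit 13,nat_lit 9,nat_lit 7],[nat_lit 14,
    nat_lit 2],[nat_lit 14,nat_lit 3],[nat_lit 14,nat_lit 6,nat_lit 10],[nat_lit 14,nat_lit 6,nat_lit 11],[nat_lit 14,
    nat_lit 7,nat_lit 10],[nat_lit 14,nat_lit 7,nat_lit 11]],[[nat_lit 14,nat_lit 11,nat_lit 6],[nat_lit 14,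
    nat_lit 11,nat_lit 7],[nat_lit 15,nat_lit 2],[nat_lit 15,nat_lit 3],[nat_lit 15,nat_lit 6,nat_lit 10],[nat_lit 15,
    nat_lit 7,nat_lit 10],[nat_lit 15,nat_lit 10,nat_lit 6],[nat_lit 15,nat_lit 10,nat_lit 7],[nat_lit 15,nat_lit 11,
    nat_lit 6],[nat_lit 15,nat_lit 11,nat_lit 7]]]
    [[nat_lit 61,nat_lit 62,nat_lit 123,nat_lit 146,nat_lit 160,nat_lit 172,nat_lit 174,nat_lit 178,nat_lit 194,
    nat_lit 124,nat_lit 147,nat_lit 148],[nat_lit 157,nat_lit 167,nat_lit 173,nat_lit 175,nat_lit 179,nat_lit 195,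
    nat_lit 46,nat_lit 58,nat_lit 113,nat_lit 114,nat_lit 119,nat_lit 121],[nat_lit 138,nat_lit 144,nat_lit 210,
    nat_lit 218,nat_lit 47,nat_lit 59,nat_lit 60,nat_lit 115,nat_lit 120,nat_lit 122,nat_lit 139,nat_lit 145],
    [nat_lit 211,nat_lit 219,nat_lit 12,nat_lit 13,nat_lit 20,nat_lit 24,nat_lit 34,nat_lit 76,nat_lit 79,nat_lit 96,
    nat_lit 131,nat_lit 134],[nat_lit 184,nat_lit 187,nat_lit 199,nat_lit 203,nat_lit 21,nat_lit 31,nat_lit 77,
    nat_lit 80,nat_lit 97,nat_lit 100,nat_lit 109,nat_lit 111],[nat_lit 135,nat_lit 152,nat_lit 165,nat_lit 188,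
    nat_lit 200,nat_lit 204,nat_lit 48,nat_lit 50,nat_lit 64,nat_lit 125,nat_lit 127,nat_lit 149],[nat_lit 151,
    nat_lit 161,nat_lit 163,nat_lit 176,nat_lit 180,nat_lit 182,nat_lit 192,nat_lit 196,nat_lit 197,nat_lit 206,
    nat_lit 208,nat_lit 216],[nat_lit 222,nat_lit 224,nat_lit 49,nat_lit 51,nat_lit 63,nat_lit 65,nat_lit 126,
    nat_lit 128,nat_lit 150,nat_lit 162,nat_lit 164,nat_lit 177],[nat_lit 181,nat_lit 183,nat_lit 191,nat_lit 193,
    nat_lit 198,nat_lit 207,nat_lit 209,nat_lit 217,nat_lit 223,nat_lit 225,nat_lit 4,nat_lit 5],[nat_lit 14,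
    nat_lit 19,nat_lit 22,nat_lit 29,nat_lit 32,nat_lit 40,nat_lit 52,nat_lit 53,nat_lit 81,nat_lit 98,nat_lit 101,
    nat_lit 110],[nat_lit 112,nat_lit 132,nat_lit 136,nat_lit 153,nat_lit 155,nat_lit 185,nat_lit 189,nat_lit 201,
    nat_lit 205,nat_lit 6,nat_lit 15,nat_lit 18],[nat_lit 23,nat_lit 25,nat_lit 28,nat_lit 30,nat_lit 33,nat_lit 35,
    nat_lit 41,nat_lit 42,nat_lit 78,nat_lit 82,nat_lit 99,nat_lit 102],[nat_lit 133,nat_lit 137,nat_lit 154,
    nat_lit 156,nat_lit 166,nat_lit 186,nat_lit 190,nat_lit 202,nat_lit 0,nat_lit 2,nat_lit 3,nat_lit 9],[nat_lit 10,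
    nat_lit 38,nat_lit 84,nat_lit 104,nat_lit 106,nat_lit 212,nat_lit 214,nat_lit 220,nat_lit 221,nat_lit 1,
    nat_lit 11,nat_lit 39],[nat_lit 83,nat_lit 85,nat_lit 103,nat_lit 105,nat_lit 107,nat_lit 108,nat_lit 129,
    nat_lit 130,nat_lit 213,nat_lit 215,nat_lit 7,nat_lit 16],[nat_lit 43,nat_lit 45,nat_lit 54,nat_lit 56,nat_lit 66,
    nat_lit 69,nat_lit 71,nat_lit 86,nat_lit 88,nat_lit 90,nat_lit 92,nat_lit 117],[nat_lit 140,nat_lit 142,nat_lit 8,
    nat_lit 17,nat_lit 44,nat_lit 55,nat_lit 57,nat_lit 67,nat_lit 68,nat_lit 70,nat_lit 72,nat_lit 87],[nat_lit 89,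
    nat_lit 91,nat_lit 116,nat_lit 118,nat_lit 141,nat_lit 143,nat_lit 26,nat_lit 36,nat_lit 73,nat_lit 75,nat_lit 93,
    nat_lit 95],[nat_lit 168,nat_lit 170,nat_lit 27,nat_lit 37,nat_lit 74,nat_lit 94,nat_lit 158,nat_lit 159,
    nat_lit 169,nat_lit 171]]
    [[nat_lit 152,nat_lit 165,nat_lit 153,nat_lit 154,nat_lit 106,nat_lit 107,nat_lit 129,nat_lit 178,nat_lit 194,
    nat_lit 155,nat_lit 156,nat_lit 166],[nat_lit 38,nat_lit 39,nat_lit 108,nat_lit 130,nat_lit 179,nat_lit 195,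
    nat_lit 131,nat_lit 109,nat_lit 40,nat_lit 52,nat_lit 110,nat_lit 132],[nat_lit 41,nat_lit 133,nat_lit 210,
    nat_lit 218,nat_lit 134,nat_lit 111,nat_lit 135,nat_lit 53,nat_lit 112,nat_lit 136,nat_lit 42,nat_lit 137],
    [nat_lit 211,nat_lit 219,nat_lit 157,nat_lit 167,nat_lit 113,nat_lit 138,nat_lit 139,nat_lit 180,nat_lit 196,
    nat_lit 181,nat_lit 18,nat_lit 28],[nat_lit 66,nat_lit 86,nat_lit 67,nat_lit 87,nat_lit 114,nat_lit 115,
    nat_lit 182,nat_lit 197,nat_lit 183,nat_lit 198,nat_lit 19,nat_lit 29],[nat_lit 30,nat_lit 0,nat_lit 1,nat_lit 88,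
    nat_lit 68,nat_lit 89,nat_lit 184,nat_lit 199,nat_lit 200,nat_lit 185,nat_lit 201,nat_lit 186],[nat_lit 202,
    nat_lit 212,nat_lit 220,nat_lit 213,nat_lit 43,nat_lit 54,nat_lit 140,nat_lit 44,nat_lit 55,nat_lit 116,
    nat_lit 141,nat_lit 168],[nat_lit 158,nat_lit 169,nat_lit 187,nat_lit 203,nat_lit 188,nat_lit 204,nat_lit 189,
    nat_lit 205,nat_lit 190,nat_lit 214,nat_lit 221,nat_lit 215],[nat_lit 45,nat_lit 56,nat_lit 117,nat_lit 142,
    nat_lit 57,nat_lit 118,nat_lit 143,nat_lit 170,nat_lit 159,nat_lit 171,nat_lit 160,nat_lit 172],[nat_lit 173,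
    nat_lit 58,nat_lit 119,nat_lit 59,nat_lit 120,nat_lit 20,nat_lit 21,nat_lit 31,nat_lit 206,nat_lit 191,
    nat_lit 207,nat_lit 22],[nat_lit 32,nat_lit 23,nat_lit 33,nat_lit 2,nat_lit 9,nat_lit 69,nat_lit 90,nat_lit 70,
    nat_lit 91,nat_lit 174,nat_lit 175,nat_lit 46],[nat_lit 121,nat_lit 144,nat_lit 47,nat_lit 60,nat_lit 122,
    nat_lit 145,nat_lit 24,nat_lit 34,nat_lit 192,nat_lit 208,nat_lit 193,nat_lit 209],[nat_lit 25,nat_lit 35,
    nat_lit 3,nat_lit 10,nat_lit 11,nat_lit 71,nat_lit 92,nat_lit 72,nat_lit 61,nat_lit 123,nat_lit 146,nat_lit 124],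
    [nat_lit 147,nat_lit 12,nat_lit 222,nat_lit 223,nat_lit 4,nat_lit 73,nat_lit 93,nat_lit 74,nat_lit 94,nat_lit 62,
    nat_lit 148,nat_lit 13],[nat_lit 216,nat_lit 224,nat_lit 217,nat_lit 225,nat_lit 5,nat_lit 14,nat_lit 6,
    nat_lit 15,nat_lit 75,nat_lit 95,nat_lit 7,nat_lit 16],[nat_lit 76,nat_lit 96,nat_lit 77,nat_lit 97,nat_lit 48,
    nat_lit 125,nat_lit 149,nat_lit 49,nat_lit 63,nat_lit 126,nat_lit 150,nat_lit 98],[nat_lit 78,nat_lit 99,
    nat_lit 8,nat_lit 17,nat_lit 79,nat_lit 80,nat_lit 100,nat_lit 50,nat_lit 64,nat_lit 127,nat_lit 151,nat_lit 51],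
    [nat_lit 65,nat_lit 128,nat_lit 81,nat_lit 101,nat_lit 82,nat_lit 102,nat_lit 26,nat_lit 36,nat_lit 161,
    nat_lit 176,nat_lit 162,nat_lit 177],[nat_lit 83,nat_lit 103,nat_lit 27,nat_lit 37,nat_lit 163,nat_lit 164,
    nat_lit 84,nat_lit 104,nat_lit 85,nat_lit 105]]
    [[[nat_lit 211],[nat_lit 211],[nat_lit 212,nat_lit 214],[nat_lit 217],[],[],[],[],[nat_lit 213,nat_lit 215],[],[],
    []],[[],[nat_lit 28,nat_lit 30,nat_lit 33,nat_lit 35],[nat_lit 28,nat_lit 30,nat_lit 33,nat_lit 35],[nat_lit 28,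
    nat_lit 30,nat_lit 33,nat_lit 35],[nat_lit 36],[],[],[],[nat_lit 0,nat_lit 2,nat_lit 3],[nat_lit 0,nat_lit 2,
    nat_lit 3],[nat_lit 0,nat_lit 2,nat_lit 3],[nat_lit 0,nat_lit 2,nat_lit 3]],[[],[],[],[nat_lit 8],[nat_lit 64],
    [nat_lit 59,nat_lit 60],[nat_lit 59,nat_lit 60],[],[],[],[nat_lit 63,nat_lit 65],[nat_lit 63,nat_lit 65]],
    [[nat_lit 61,nat_lit 62],[nat_lit 55,nat_lit 57],[nat_lit 27],[nat_lit 27],[nat_lit 20,nat_lit 24],[nat_lit 20,
    nat_lit 24],[],[nat_lit 19,nat_lit 22],[nat_lit 19,nat_lit 22],[nat_lit 21],[],[]],[[nat_lit 26],[nat_lit 26],[],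
    [],[nat_lit 96],[],[nat_lit 98,nat_lit 101],[nat_lit 98,nat_lit 101],[nat_lit 97,nat_lit 100],[nat_lit 97,
    nat_lit 100],[nat_lit 104],[nat_lit 104]],[[],[nat_lit 86,nat_lit 88,nat_lit 90,nat_lit 92],[nat_lit 99,
    nat_lit 102],[nat_lit 93,nat_lit 95],[nat_lit 103,nat_lit 105],[nat_lit 103,nat_lit 105],[nat_lit 48,nat_lit 50],
    [nat_lit 48,nat_lit 50],[nat_lit 47],[nat_lit 38],[nat_lit 38],[nat_lit 49,nat_lit 51]],[[nat_lit 49,nat_lit 51],
    [nat_lit 43,nat_lit 45],[nat_lit 43,nat_lit 45],[nat_lit 41,nat_lit 42],[],[],[],[nat_lit 39],[nat_lit 39],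
    [nat_lit 39],[nat_lit 39],[]],[[nat_lit 44],[nat_lit 44],[nat_lit 149,nat_lit 151],[nat_lit 149,nat_lit 151],
    [nat_lit 139,nat_lit 145],[nat_lit 139,nat_lit 145],[],[],[nat_lit 150],[nat_lit 140,nat_lit 142],[nat_lit 140,
    nat_lit 142],[nat_lit 133,nat_lit 137]],[[],[],[],[],[nat_lit 129,nat_lit 130],[nat_lit 129,nat_lit 130],
    [nat_lit 129,nat_lit 130],[nat_lit 146],[nat_lit 141,nat_lit 143],[nat_lit 141,nat_lit 143],[],[]],[[nat_lit 74],
    [nat_lit 76,nat_lit 79],[nat_lit 76,nat_lit 79],[],[],[],[],[],[nat_lit 81],[nat_lit 77,nat_lit 80],[nat_lit 77,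
    nat_lit 80],[nat_lit 84]],[[nat_lit 84],[],[],[nat_lit 66,nat_lit 69,nat_lit 71],[nat_lit 66,nat_lit 69,
    nat_lit 71],[nat_lit 73,nat_lit 75],[nat_lit 73,nat_lit 75],[nat_lit 83,nat_lit 85],[nat_lit 83,nat_lit 85],[],
    [nat_lit 169,nat_lit 171],[]],[[],[],[nat_lit 167,nat_lit 173,nat_lit 175],[nat_lit 167,nat_lit 173,nat_lit 175],
    [nat_lit 167,nat_lit 173,nat_lit 175],[nat_lit 167,nat_lit 173,nat_lit 175],[nat_lit 176],[nat_lit 176],[],[],
    [nat_lit 165],[nat_lit 165]],[[nat_lit 177],[nat_lit 177],[],[],[nat_lit 166],[nat_lit 168,nat_lit 170],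
    [nat_lit 168,nat_lit 170],[],[nat_lit 113,nat_lit 114,nat_lit 119,nat_lit 121],[nat_lit 113,nat_lit 114,
    nat_lit 119,nat_lit 121],[nat_lit 113,nat_lit 114,nat_lit 119,nat_lit 121],[]],[[],[nat_lit 125,nat_lit 127],
    [nat_lit 110,nat_lit 112],[nat_lit 109,nat_lit 111],[nat_lit 106],[nat_lit 123],[nat_lit 123],[nat_lit 116,
    nat_lit 118],[nat_lit 116,nat_lit 118],[],[],[nat_lit 196,nat_lit 197,nat_lit 206,nat_lit 208]],[[nat_lit 201,
    nat_lit 205],[nat_lit 201,nat_lit 205],[nat_lit 200,nat_lit 204],[nat_lit 200,nat_lit 204],[],[],[nat_lit 198,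
    nat_lit 207,nat_lit 209],[nat_lit 198,nat_lit 207,nat_lit 209],[nat_lit 194],[nat_lit 194],[],[nat_lit 158,
    nat_lit 159]],[[nat_lit 161,nat_lit 163],[nat_lit 161,nat_lit 163],[],[],[nat_lit 153,nat_lit 155],[nat_lit 153,
    nat_lit 155],[nat_lit 153,nat_lit 155],[nat_lit 152],[nat_lit 152],[nat_lit 152],[nat_lit 152],[]],[[nat_lit 162,
    nat_lit 164],[nat_lit 162,nat_lit 164],[nat_lit 218],[],[nat_lit 222,nat_lit 224],[nat_lit 219],[nat_lit 219],[],
    [],[],[],[]],[[],[],[nat_lit 220,nat_lit 221],[nat_lit 220,nat_lit 221],[nat_lit 223,nat_lit 225],[nat_lit 223,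
    nat_lit 225],[nat_lit 184,nat_lit 187],[nat_lit 179],[nat_lit 185,nat_lit 189],[nat_lit 185,nat_lit 189],
    [nat_lit 188],[nat_lit 188]],[[nat_lit 186,nat_lit 190],[nat_lit 186,nat_lit 190],[nat_lit 12,nat_lit 13],[],
    [nat_lit 14],[],[nat_lit 16],[nat_lit 16],[nat_lit 15],[nat_lit 15]]]
    (nat_lit 226) [nat_lit 0,nat_lit 1,nat_lit 2,nat_lit 3,nat_lit 4,nat_lit 5,nat_lit 6,nat_lit 7,nat_lit 8,
    nat_lit 9,nat_lit 10,nat_lit 11,nat_lit 12,nat_lit 13,nat_lit 14,nat_lit 15,nat_lit 16,nat_lit 17,nat_lit 18,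
    nat_lit 19,nat_lit 20,nat_lit 21,nat_lit 22,nat_lit 23,nat_lit 24,nat_lit 25,nat_lit 26,nat_lit 27,nat_lit 28,
    nat_lit 29,nat_lit 30,nat_lit 31,nat_lit 32,nat_lit 33,nat_lit 34,nat_lit 35,nat_lit 36,nat_lit 37,nat_lit 43,
    nat_lit 44,nat_lit 45,nat_lit 48,nat_lit 49,nat_lit 50,nat_lit 51,nat_lit 54,nat_lit 55,nat_lit 56,nat_lit 57,
    nat_lit 63,nat_lit 64,nat_lit 65,nat_lit 69,nat_lit 70,nat_lit 71,nat_lit 72,nat_lit 73,nat_lit 74,nat_lit 75,
    nat_lit 78,nat_lit 81,nat_lit 82,nat_lit 83,nat_lit 84,nat_lit 85,nat_lit 90,nat_lit 91,nat_lit 92,nat_lit 93,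
    nat_lit 94,nat_lit 95,nat_lit 98,nat_lit 99,nat_lit 101,nat_lit 102,nat_lit 103,nat_lit 104,nat_lit 105]
    [[[],[],[],[],[],[],[],[],[nat_lit 4,nat_lit 5],[nat_lit 6],[nat_lit 0,nat_lit 2,nat_lit 3],[nat_lit 1],
    [nat_lit 7],[nat_lit 8],[],[]],[[],[],[],[],[nat_lit 12,nat_lit 13],[],[],[],[nat_lit 14],[nat_lit 15],[nat_lit 9,
    nat_lit 10],[nat_lit 11],[nat_lit 16],[nat_lit 17],[],[]],[[],[],[],[],[nat_lit 20,nat_lit 24],[nat_lit 21],[],[],
    [nat_lit 19,nat_lit 22],[nat_lit 18,nat_lit 23,nat_lit 25],[],[],[],[],[nat_lit 26],[nat_lit 27]],[[],[],[],[],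
    [nat_lit 34],[nat_lit 31],[],[],[nat_lit 29,nat_lit 32],[nat_lit 28,nat_lit 30,nat_lit 33,nat_lit 35],[],[],[],[],
    [nat_lit 36],[nat_lit 37]],[[],[],[nat_lit 46],[nat_lit 47],[],[],[nat_lit 48,nat_lit 50],[nat_lit 49,nat_lit 51],
    [nat_lit 40],[nat_lit 41,nat_lit 42],[nat_lit 38],[nat_lit 39],[nat_lit 43,nat_lit 45],[nat_lit 44],[],[]],
    [[nat_lit 61,nat_lit 62],[],[nat_lit 58],[nat_lit 59,nat_lit 60],[],[],[nat_lit 64],[nat_lit 63,nat_lit 65],
    [nat_lit 52,nat_lit 53],[],[],[],[nat_lit 54,nat_lit 56],[nat_lit 55,nat_lit 57],[],[]],[[],[],[],[],[nat_lit 76,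
    nat_lit 79],[nat_lit 77,nat_lit 80],[],[],[nat_lit 81],[nat_lit 78,nat_lit 82],[nat_lit 84],[nat_lit 83,
    nat_lit 85],[nat_lit 66,nat_lit 69,nat_lit 71],[nat_lit 67,nat_lit 68,nat_lit 70,nat_lit 72],[nat_lit 73,
    nat_lit 75],[nat_lit 74]],[[],[],[],[],[nat_lit 96],[nat_lit 97,nat_lit 100],[],[],[nat_lit 98,nat_lit 101],
    [nat_lit 99,nat_lit 102],[nat_lit 104],[nat_lit 103,nat_lit 105],[nat_lit 86,nat_lit 88,nat_lit 90,nat_lit 92],
    [nat_lit 87,nat_lit 89,nat_lit 91],[nat_lit 93,nat_lit 95],[nat_lit 94]],[[nat_lit 123],[nat_lit 124],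
    [nat_lit 113,nat_lit 114,nat_lit 119,nat_lit 121],[nat_lit 115,nat_lit 120,nat_lit 122],[],[nat_lit 109,
    nat_lit 111],[nat_lit 125,nat_lit 127],[nat_lit 126,nat_lit 128],[nat_lit 110,nat_lit 112],[],[nat_lit 106],
    [nat_lit 107,nat_lit 108],[nat_lit 117],[nat_lit 116,nat_lit 118],[],[]],[[nat_lit 146],[nat_lit 147,nat_lit 148],
    [nat_lit 138,nat_lit 144],[nat_lit 139,nat_lit 145],[nat_lit 131,nat_lit 134],[nat_lit 135],[nat_lit 149,
    nat_lit 151],[nat_lit 150],[nat_lit 132,nat_lit 136],[nat_lit 133,nat_lit 137],[],[nat_lit 129,nat_lit 130],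
    [nat_lit 140,nat_lit 142],[nat_lit 141,nat_lit 143],[],[]],[[nat_lit 160],[nat_lit 157],[],[],[],[nat_lit 152],
    [nat_lit 161,nat_lit 163],[nat_lit 162,nat_lit 164],[nat_lit 153,nat_lit 155],[nat_lit 154,nat_lit 156],[],[],[],
    [],[],[nat_lit 158,nat_lit 159]],[[nat_lit 172,nat_lit 174],[nat_lit 167,nat_lit 173,nat_lit 175],[],[],[],
    [nat_lit 165],[nat_lit 176],[nat_lit 177],[],[nat_lit 166],[],[],[],[],[nat_lit 168,nat_lit 170],[nat_lit 169,
    nat_lit 171]],[[nat_lit 178],[nat_lit 179],[],[],[nat_lit 184,nat_lit 187],[nat_lit 188],[nat_lit 180,nat_lit 182,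
    nat_lit 192],[nat_lit 181,nat_lit 183,nat_lit 191,nat_lit 193],[nat_lit 185,nat_lit 189],[nat_lit 186,
    nat_lit 190],[],[],[],[],[],[]],[[nat_lit 194],[nat_lit 195],[],[],[nat_lit 199,nat_lit 203],[nat_lit 200,
    nat_lit 204],[nat_lit 196,nat_lit 197,nat_lit 206,nat_lit 208],[nat_lit 198,nat_lit 207,nat_lit 209],[nat_lit 201,
    nat_lit 205],[nat_lit 202],[],[],[],[],[],[]],[[],[],[nat_lit 210],[nat_lit 211],[],[],[nat_lit 216],
    [nat_lit 217],[],[],[nat_lit 212,nat_lit 214],[nat_lit 213,nat_lit 215],[],[],[],[]],[[],[],[nat_lit 218],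
    [nat_lit 219],[],[],[nat_lit 222,nat_lit 224],[nat_lit 223,nat_lit 225],[],[],[nat_lit 220,nat_lit 221],[],[],[],
    [],[]]]
    [[[nat_lit 0x80000000000000000000000000000000000000000000000000000,
    nat_lit 0x80000000000000000000000000000000000000000000000000000,
    nat_lit 0x500000000000000000000000000000000000000000000000000000,
    nat_lit 0x2000000000000000000000000000000000000000000000000000000,nat_lit 0,nat_lit 0,nat_lit 0,nat_lit 0,
    nat_lit 0xa00000000000000000000000000000000000000000000000000000],[nat_lit 0,nat_lit 0,nat_lit 0,nat_lit 0,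
    nat_lit 0xa50000000,nat_lit 0xa50000000,nat_lit 0xa50000000,nat_lit 0x1000000000,nat_lit 0],[nat_lit 0,nat_lit 0,
    nat_lit 13,nat_lit 13,nat_lit 13,nat_lit 13,nat_lit 0,nat_lit 0,nat_lit 0],[nat_lit 256,
    nat_lit 0x10000000000000000,nat_lit 0x1800000000000000,nat_lit 0x1800000000000000,nat_lit 0,nat_lit 0,nat_lit 0,
    nat_lit 0x28000000000000000,nat_lit 0x28000000000000000],[nat_lit 0x6000000000000000,nat_lit 0x280000000000000,
    nat_lit 0x8000000,nat_lit 0x8000000,nat_lit 0x1100000,nat_lit 0x1100000,nat_lit 0,nat_lit 0x480000,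
    nat_lit 0x480000],[nat_lit 0x200000,nat_lit 0,nat_lit 0,nat_lit 0x4000000,nat_lit 0x4000000,nat_lit 0,nat_lit 0,
    nat_lit 0x1000000000000000000000000,nat_lit 0],[nat_lit 0x24000000000000000000000000,
    nat_lit 0x24000000000000000000000000,nat_lit 0x12000000000000000000000000,nat_lit 0x12000000000000000000000000,
    nat_lit 0x100000000000000000000000000,nat_lit 0x100000000000000000000000000,nat_lit 0,
    nat_lit 0x154000000000000000000000,nat_lit 0x48000000000000000000000000],[nat_lit 0xa00000000000000000000000,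
    nat_lit 0x280000000000000000000000000,nat_lit 0x280000000000000000000000000,nat_lit 0x5000000000000,
    nat_lit 0x5000000000000,nat_lit 0x800000000000,nat_lit 0x4000000000,nat_lit 0x4000000000,nat_lit 0xa000000000000],
    [nat_lit 0xa000000000000,nat_lit 0x280000000000,nat_lit 0x280000000000,nat_lit 0x60000000000,nat_lit 0,nat_lit 0,
    nat_lit 0,nat_lit 0x8000000000,nat_lit 0x8000000000]],[[nat_lit 0x8000000000,nat_lit 0x8000000000,nat_lit 0,
    nat_lit 0x100000000000,nat_lit 0x100000000000,nat_lit 0xa0000000000000000000000000000000000000,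
    nat_lit 0xa0000000000000000000000000000000000000,nat_lit 0x2080000000000000000000000000000000000,
    nat_lit 0x2080000000000000000000000000000000000],[nat_lit 0,nat_lit 0,
    nat_lit 0x40000000000000000000000000000000000000,nat_lit 0x500000000000000000000000000000000000,
    nat_lit 0x500000000000000000000000000000000000,nat_lit 0x22000000000000000000000000000000000,nat_lit 0,nat_lit 0,
    nat_lit 0],[nat_lit 0,nat_lit 0x600000000000000000000000000000000,nat_lit 0x600000000000000000000000000000000,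
    nat_lit 0x600000000000000000000000000000000,nat_lit 0x4000000000000000000000000000000000000,
    nat_lit 0xa00000000000000000000000000000000000,nat_lit 0xa00000000000000000000000000000000000,nat_lit 0,
    nat_lit 0],[nat_lit 0x4000000000000000000,nat_lit 0x90000000000000000000,nat_lit 0x90000000000000000000,nat_lit 0,
    nat_lit 0,nat_lit 0,nat_lit 0,nat_lit 0,nat_lit 0x200000000000000000000],[nat_lit 0x120000000000000000000,
    nat_lit 0x120000000000000000000,nat_lit 0x1000000000000000000000,nat_lit 0x1000000000000000000000,nat_lit 0,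
    nat_lit 0,nat_lit 0xa40000000000000000,nat_lit 0xa40000000000000000,nat_lit 0xa000000000000000000],
    [nat_lit 0xa000000000000000000,nat_lit 0x2800000000000000000000,nat_lit 0x2800000000000000000000,nat_lit 0,
    nat_lit 0xa000000000000000000000000000000000000000000,nat_lit 0,nat_lit 0,nat_lit 0,
    nat_lit 0xa0800000000000000000000000000000000000000000],[nat_lit 0xa0800000000000000000000000000000000000000000,
    nat_lit 0xa0800000000000000000000000000000000000000000,nat_lit 0xa0800000000000000000000000000000000000000000,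
    nat_lit 0x100000000000000000000000000000000000000000000,nat_lit 0x100000000000000000000000000000000000000000000,
    nat_lit 0,nat_lit 0,nat_lit 0x200000000000000000000000000000000000000000,
    nat_lit 0x200000000000000000000000000000000000000000],[nat_lit 0x200000000000000000000000000000000000000000000,
    nat_lit 0x200000000000000000000000000000000000000000000,nat_lit 0,nat_lit 0,
    nat_lit 0x400000000000000000000000000000000000000000,nat_lit 0x5000000000000000000000000000000000000000000,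
    nat_lit 0x5000000000000000000000000000000000000000000,nat_lit 0,nat_lit 0x2860000000000000000000000000000],
    [nat_lit 0x2860000000000000000000000000000,nat_lit 0x2860000000000000000000000000000,nat_lit 0,nat_lit 0,
    nat_lit 0xa0000000000000000000000000000000,nat_lit 0x14000000000000000000000000000,
    nat_lit 0xa000000000000000000000000000,nat_lit 0x400000000000000000000000000,
    nat_lit 0x8000000000000000000000000000000]],[[nat_lit 0x8000000000000000000000000000000,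
    nat_lit 0x500000000000000000000000000000,nat_lit 0x500000000000000000000000000000,nat_lit 0,nat_lit 0,
    nat_lit 0x14030000000000000000000000000000000000000000000000000,
    nat_lit 0x2200000000000000000000000000000000000000000000000000,
    nat_lit 0x2200000000000000000000000000000000000000000000000000,
    nat_lit 0x1100000000000000000000000000000000000000000000000000],
    [nat_lit 0x1100000000000000000000000000000000000000000000000000,nat_lit 0,nat_lit 0,
    nat_lit 0x28040000000000000000000000000000000000000000000000000,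
    nat_lit 0x28040000000000000000000000000000000000000000000000000,
    nat_lit 0x4000000000000000000000000000000000000000000000000,
    nat_lit 0x4000000000000000000000000000000000000000000000000,nat_lit 0,
    nat_lit 0xc000000000000000000000000000000000000000],[nat_lit 0xa0000000000000000000000000000000000000000,
    nat_lit 0xa0000000000000000000000000000000000000000,nat_lit 0,nat_lit 0,
    nat_lit 0xa00000000000000000000000000000000000000,nat_lit 0xa00000000000000000000000000000000000000,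
    nat_lit 0xa00000000000000000000000000000000000000,nat_lit 0x100000000000000000000000000000000000000,
    nat_lit 0x100000000000000000000000000000000000000],[nat_lit 0x100000000000000000000000000000000000000,
    nat_lit 0x100000000000000000000000000000000000000,nat_lit 0,nat_lit 0x140000000000000000000000000000000000000000,
    nat_lit 0x140000000000000000000000000000000000000000,
    nat_lit 0x4000000000000000000000000000000000000000000000000000000,nat_lit 0,
    nat_lit 0x140000000000000000000000000000000000000000000000000000000,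
    nat_lit 0x8000000000000000000000000000000000000000000000000000000],
    [nat_lit 0x8000000000000000000000000000000000000000000000000000000,nat_lit 0,nat_lit 0,nat_lit 0,nat_lit 0,
    nat_lit 0,nat_lit 0,nat_lit 0,nat_lit 0x30000000000000000000000000000000000000000000000000000000],
    [nat_lit 0x30000000000000000000000000000000000000000000000000000000,
    nat_lit 0x280000000000000000000000000000000000000000000000000000000,
    nat_lit 0x280000000000000000000000000000000000000000000000000000000,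
    nat_lit 0x90000000000000000000000000000000000000000000000,nat_lit 0x800000000000000000000000000000000000000000000,
    nat_lit 0x220000000000000000000000000000000000000000000000,
    nat_lit 0x220000000000000000000000000000000000000000000000,
    nat_lit 0x100000000000000000000000000000000000000000000000,
    nat_lit 0x100000000000000000000000000000000000000000000000],
    [nat_lit 0x440000000000000000000000000000000000000000000000,
    nat_lit 0x440000000000000000000000000000000000000000000000,nat_lit 0x3000,nat_lit 0,nat_lit 0x4000,nat_lit 0,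
    nat_lit 0x10000,nat_lit 0x10000,nat_lit 0x8000],[nat_lit 0x8000]]]
    [[[[nat_lit 0,nat_lit 0,nat_lit 0,nat_lit 0,nat_lit 0,nat_lit 0,nat_lit 0,nat_lit 0,nat_lit 0],[nat_lit 0,
    nat_lit 0,nat_lit 0,nat_lit 0,nat_lit 0x800000000,nat_lit 0,nat_lit 0x800000000,nat_lit 0,nat_lit 0],[nat_lit 0,
    nat_lit 0,nat_lit 0,nat_lit 0,nat_lit 5,nat_lit 0,nat_lit 0,nat_lit 0,nat_lit 0],[nat_lit 0,nat_lit 0,nat_lit 0,
    nat_lit 0,nat_lit 0,nat_lit 0,nat_lit 0,nat_lit 0,nat_lit 0],[nat_lit 0,nat_lit 0,nat_lit 0,nat_lit 0,nat_lit 0,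
    nat_lit 0,nat_lit 0,nat_lit 0,nat_lit 0],[nat_lit 0,nat_lit 0,nat_lit 0,nat_lit 0,nat_lit 0,nat_lit 0,nat_lit 0,
    nat_lit 0,nat_lit 0],[nat_lit 0,nat_lit 0,nat_lit 0,nat_lit 0,nat_lit 0,nat_lit 0,nat_lit 0,
    nat_lit 0x150000000000000000000000,nat_lit 0],[nat_lit 0x200000000000000000000000,nat_lit 0,nat_lit 0,nat_lit 0,
    nat_lit 0,nat_lit 0,nat_lit 0,nat_lit 0,nat_lit 0],[nat_lit 0,nat_lit 0,nat_lit 0,nat_lit 0,nat_lit 0,nat_lit 0,
    nat_lit 0,nat_lit 0x8000000000,nat_lit 0]],[[nat_lit 0x8000000000,nat_lit 0x8000000000,nat_lit 0,nat_lit 0,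
    nat_lit 0x100000000000,nat_lit 0,nat_lit 0,nat_lit 0x2000000000000000000000000000000000000,nat_lit 0],[nat_lit 0,
    nat_lit 0,nat_lit 0,nat_lit 0,nat_lit 0,nat_lit 0,nat_lit 0,nat_lit 0,nat_lit 0],[nat_lit 0,nat_lit 0,
    nat_lit 0x400000000000000000000000000000000,nat_lit 0x400000000000000000000000000000000,
    nat_lit 0x4000000000000000000000000000000000000,nat_lit 0,nat_lit 0xa00000000000000000000000000000000000,
    nat_lit 0,nat_lit 0],[nat_lit 0x4000000000000000000,nat_lit 0,nat_lit 0x80000000000000000000,nat_lit 0,nat_lit 0,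
    nat_lit 0,nat_lit 0,nat_lit 0,nat_lit 0],[nat_lit 0,nat_lit 0,nat_lit 0,nat_lit 0,nat_lit 0,nat_lit 0,
    nat_lit 0xa00000000000000000,nat_lit 0,nat_lit 0x2000000000000000000],[nat_lit 0x2000000000000000000,nat_lit 0,
    nat_lit 0,nat_lit 0,nat_lit 0xa000000000000000000000000000000000000000000,nat_lit 0,nat_lit 0,nat_lit 0,
    nat_lit 0],[nat_lit 0,nat_lit 0,nat_lit 0xa0000000000000000000000000000000000000000000,nat_lit 0,nat_lit 0,
    nat_lit 0,nat_lit 0,nat_lit 0,nat_lit 0],[nat_lit 0,nat_lit 0x200000000000000000000000000000000000000000000,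
    nat_lit 0,nat_lit 0,nat_lit 0,nat_lit 0x4000000000000000000000000000000000000000000,
    nat_lit 0x4000000000000000000000000000000000000000000,nat_lit 0,nat_lit 0],
    [nat_lit 0x800000000000000000000000000000,nat_lit 0x800000000000000000000000000000,nat_lit 0,nat_lit 0,nat_lit 0,
    nat_lit 0x4000000000000000000000000000,nat_lit 0,nat_lit 0,nat_lit 0x8000000000000000000000000000000]],
    [[nat_lit 0x8000000000000000000000000000000,nat_lit 0x500000000000000000000000000000,nat_lit 0,nat_lit 0,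
    nat_lit 0,nat_lit 0,nat_lit 0,nat_lit 0,nat_lit 0],[nat_lit 0,nat_lit 0,nat_lit 0,nat_lit 0,nat_lit 0,nat_lit 0,
    nat_lit 0,nat_lit 0,nat_lit 0],[nat_lit 0,nat_lit 0,nat_lit 0,nat_lit 0,nat_lit 0,nat_lit 0,nat_lit 0,nat_lit 0,
    nat_lit 0],[nat_lit 0,nat_lit 0,nat_lit 0,nat_lit 0,nat_lit 0,nat_lit 0,nat_lit 0,
    nat_lit 0x40000000000000000000000000000000000000000000000000000000,nat_lit 0],[nat_lit 0,nat_lit 0,nat_lit 0,
    nat_lit 0,nat_lit 0,nat_lit 0,nat_lit 0,nat_lit 0,nat_lit 0],[nat_lit 0,nat_lit 0,nat_lit 0,nat_lit 0,nat_lit 0,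
    nat_lit 0,nat_lit 0,nat_lit 0,nat_lit 0x100000000000000000000000000000000000000000000000],[nat_lit 0,nat_lit 0,
    nat_lit 0,nat_lit 0,nat_lit 0,nat_lit 0,nat_lit 0,nat_lit 0,nat_lit 0],[nat_lit 0]]]]
    (nat_lit 1) (nat_lit 1) (nat_lit 9)
    [[nat_lit 2,nat_lit 257,nat_lit 0x10101,nat_lit 0x1001,nat_lit 0x10001,nat_lit 0x100001,nat_lit 0x1010001],
    [nat_lit 32,nat_lit 272,nat_lit 0x10010,nat_lit 0x100010,nat_lit 0x100110,nat_lit 0x110010,nat_lit 0x200010,
    nat_lit 0x1100010,nat_lit 0x10100010,nat_lit 0x1000010],[nat_lit 512,nat_lit 768,nat_lit 0x10300,nat_lit 0x1200,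
    nat_lit 0x10200,nat_lit 0x20200,nat_lit 0x100200,nat_lit 0x110200,nat_lit 0x1000200,nat_lit 0x10000200,
    nat_lit 0x1100,nat_lit 0x11100,nat_lit 0x101100,nat_lit 0x10100,nat_lit 0x20100,nat_lit 0x30100,nat_lit 0x110100,
    nat_lit 0x1010100,nat_lit 0x10010100,nat_lit 0x120100,nat_lit 0x2010100,nat_lit 0x100100,nat_lit 0x200100,
    nat_lit 0x210100,nat_lit 0x1100100,nat_lit 0x2100100,nat_lit 0x10100100,nat_lit 0x1000100,nat_lit 0x2000100,
    nat_lit 0x10000100],[nat_lit 0x2000,nat_lit 0x11000,nat_lit 0x21000,nat_lit 0x111000,nat_lit 0x101000,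
    nat_lit 0x1101000,nat_lit 0x1001000,nat_lit 0x2001000,nat_lit 0x10001000],[nat_lit 0x20000,nat_lit 0x30000,
    nat_lit 0x40000,nat_lit 0x130000,nat_lit 0x120000,nat_lit 0x220000,nat_lit 0x1020000,nat_lit 0x2020000,
    nat_lit 0x10020000,nat_lit 0x110000,nat_lit 0x210000,nat_lit 0x1110000,nat_lit 0x2110000,nat_lit 0x10110000,
    nat_lit 0x1010000,nat_lit 0x2010000,nat_lit 0x10010000],[nat_lit 0x200000,nat_lit 0x300000,nat_lit 0x1200000,
    nat_lit 0x2200000,nat_lit 0x10200000,nat_lit 0x1100000,nat_lit 0x2100000,nat_lit 0x11100000,nat_lit 0x12100000,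
    nat_lit 0x10100000],[nat_lit 0x2000000,nat_lit 0x3000000,nat_lit 0x4000000,nat_lit 0x11000000,nat_lit 0x12000000],
    [nat_lit 0x20000000]]
    [.c (nat_lit 1) (nat_lit 2),.c (nat_lit 0) (nat_lit 0xc60100d),.c (nat_lit 0) (nat_lit 0x218c00100d),
    .c (nat_lit 0) (nat_lit 0x100070100d),.c (nat_lit 0) (nat_lit 0x18060100d),.c (nat_lit 0) (nat_lit 0x19cf32818d),
    .c (nat_lit 0) (nat_lit 0x1c072940c),.c (nat_lit 2) (nat_lit 2),.c (nat_lit 0) (nat_lit 0x4200005),
    .c (nat_lit 0) (nat_lit 0x80200005),.r (nat_lit 0xdb7) (nat_lit 5) [nat_lit 65,nat_lit 0x301c05031a6],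
    .c (nat_lit 0) (nat_lit 0x31800211ac),.c (nat_lit 0) (nat_lit 0x300c0211ac),.c (nat_lit 0) (nat_lit 0x318c6211a6),
    .c (nat_lit 0) (nat_lit 0x418c0011ac),.c (nat_lit 0) (nat_lit 0x118c6211ac),.c (nat_lit 0) (nat_lit 0x1000718006),
    .c (nat_lit 3) (nat_lit 2),.c (nat_lit 0) (nat_lit 0x100c000005),.c (nat_lit 2) (nat_lit 0x8c800005),
    .c (nat_lit 0) (nat_lit 0x101860000d),.c (nat_lit 0) (nat_lit 0x1088000005),.c (nat_lit 2) (nat_lit 0x84400003),
    .c (nat_lit 0) (nat_lit 0x1ccd2958d),.c (nat_lit 6) (nat_lit 0x1946d29585),.c (nat_lit 6) (nat_lit 0x19c0d19587),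
    .c (nat_lit 2) (nat_lit 0x4400003),.c (nat_lit 0) (nat_lit 0x100c00000d),.c (nat_lit 0) (nat_lit 0x118c60000d),
    .c (nat_lit 0) (nat_lit 0x1ccd2958d),.c (nat_lit 3) (nat_lit 0xc4000004),.c (nat_lit 0) (nat_lit 0x1104000005),
    .c (nat_lit 2) (nat_lit 0x184800005),.c (nat_lit 0) (nat_lit 0x718cc7),.c (nat_lit 6) (nat_lit 0x29cf92a70d),
    .c (nat_lit 2) (nat_lit 0x84800005),.c (nat_lit 6) (nat_lit 0x18cad29585),.c (nat_lit 4) (nat_lit 0x218c04000d),
    .c (nat_lit 0) (nat_lit 0x19c0d2958d),.c (nat_lit 0) (nat_lit 0x330d84232c),.c (nat_lit 0) (nat_lit 0x218d84232c),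
    .c (nat_lit 0) (nat_lit 0x1180c011ac),.c (nat_lit 0) (nat_lit 0x1180c291ac),.c (nat_lit 6) (nat_lit 0x19cad29585),
    .c (nat_lit 0) (nat_lit 0x100c02000d),.c (nat_lit 0) (nat_lit 0x28006),.c (nat_lit 0) (nat_lit 0x1004000005),
    .c (nat_lit 4) (nat_lit 2),.c (nat_lit 0) (nat_lit 0x118000000d),.c (nat_lit 0) (nat_lit 0x1180000007),
    .c (nat_lit 0) (nat_lit 0xf32958d),.c (nat_lit 0) (nat_lit 0x1cf92958d),.c (nat_lit 0) (nat_lit 0x218cc011ac),
    .c (nat_lit 0) (nat_lit 0x100072000d),.c (nat_lit 0) (nat_lit 0x28006),.c (nat_lit 0) (nat_lit 0x1000000007),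
    .c (nat_lit 5) (nat_lit 2),.c (nat_lit 0) (nat_lit 0x1180000005),.c (nat_lit 2) (nat_lit 0x100400003),
    .c (nat_lit 6) (nat_lit 0x180ed29585),.c (nat_lit 0) (nat_lit 0x18ed2958d),.c (nat_lit 0) (nat_lit 0x100cc211a6),
    .c (nat_lit 6) (nat_lit 0x180ed19587),.c (nat_lit 4) (nat_lit 0x1180020007),.c (nat_lit 2) (nat_lit 0x80400003),
    .c (nat_lit 0) (nat_lit 0x180ed2958d),.c (nat_lit 0) (nat_lit 0x319984232c),.c (nat_lit 0) (nat_lit 0x100cc011ac),
    .c (nat_lit 0) (nat_lit 0x100cc291ac),.c (nat_lit 6) (nat_lit 0x194ed29585),.c (nat_lit 0) (nat_lit 0x118002000d),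
    .c (nat_lit 0) (nat_lit 0x28006),.c (nat_lit 0) (nat_lit 0x1080000005),.c (nat_lit 6) (nat_lit 2),
    .c (nat_lit 0) (nat_lit 0x218cc211a4),.c (nat_lit 3) (nat_lit 0x19c0d19587),.c (nat_lit 0) (nat_lit 0x28006),
    .c (nat_lit 0) (nat_lit 0x118cc211a6),.c (nat_lit 0) (nat_lit 0x218cc011ac),.c (nat_lit 0) (nat_lit 0x28006),
    .c (nat_lit 0) (nat_lit 0x118cc111a6),.c (nat_lit 0) (nat_lit 0x118cc011a6),.c (nat_lit 0) (nat_lit 0x1ced2958d),
    .c (nat_lit 7) (nat_lit 2),.c (nat_lit 0) (nat_lit 0x18002),.c (nat_lit 0) (nat_lit 0x48006),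
    .c (nat_lit 6) (nat_lit 0x19ced19587),.c (nat_lit 4) (nat_lit 0x1000020007),.c (nat_lit 8) (nat_lit 2)]]

/-- nodes -/
noncomputable def rD8k_6_2 : List RJ :=
  [.s (nat_lit 16) (nat_lit 0x2ee0) (nat_lit 5) (nat_lit 0x11a200001a860000150e0000150e000015f2000015f2000016f6000013a60000154e0000154e0000156e0000156e000015d8000015d800001afa00001afa) (nat_lit 0x7400000958000005ec000005ec00000508000005080000075400000404000005ac000005ac0000058c0000058c00000522000005220000000000000000)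
    (nat_lit 0xc96084a0bb60dea0c9a07d209da0d9e0d760cf20c160ba21958193011a211a21a120c9607d2149a14de157e133207d2155e14da14fa164e158c156418521a86149a0dea0f220f221eb61cce0dba11aa0e0e0f620f820efe0fec0fec19a614e607d20bb60f220f2211ee10060dba110a0f620f620f820f820fec0f1c19d61516157e07d210061cce10ea10ea0e9e1006104610461136106610c810d015f215f214de0c9a11ee1eb610ea10ea0d9a11ee114a114a0dce0f6210d010d015f2080a07d20d9e110a11aa11ee10060e9e12f2124e124e116a10661fbc146c16f616f6133209da0dba0dba0d9a0e9e0c520e9e0dfa0dfa0ede0e1a1a500f0012aa13a614da0cf20f620f62114a10460dfa124e0fa20fa20f460fc2102c0f6815c20982155e0d760f620e0e114a10460dfa124e0fa20fa20fbe0fc2102c0f5415c2154a164e0ba20f820efe0f6210660e1a10660fc20fc210ba0fe21050105013ee156e14fa0c160f820f820dce11360ede116a0fbe0f46106610ba104c104c08be1646156419300f1c0fec10d010d00f00146c0f540f68104c10500fde103215d815d8158c19580fec0fec10d010c81a501fbc102c102c104c105010b60fde15d815d81a8611a2151614e6080a15f213a616f6154a09821646156e15d815d80e221afa185211a219d619a615f215f212aa16f615c215c208be13ee15d815d81afa0e22)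
    (nat_lit 0xc962ee02ee02ee02ee02ee02ee02ee02ee02ee02ee02ee02ee02ee02ee02ee0084a0c962ee02ee02ee02ee02ee02ee02ee02ee02ee02ee02ee02ee02ee02ee00bb607d20f222ee02ee02ee02ee02ee02ee02ee02ee02ee02ee02ee02ee02ee00dea149a0f220f222ee02ee02ee02ee02ee02ee02ee02ee02ee02ee02ee02ee00c9a14de1eb611ee10ea2ee02ee02ee02ee02ee02ee02ee02ee02ee02ee02ee007d2157e1c6c0fa410ea10ea2ee02ee02ee02ee02ee02ee02ee02ee02ee02ee009da13320dba0dba0e9e0d9a0e9e2ee02ee02ee02ee02ee02ee02ee02ee02ee00d9e07d211aa110a0fa411ee12f20e9e2ee02ee02ee02ee02ee02ee02ee02ee00d76155e0e0e0f621046114a124e0dfa0fa22ee02ee02ee02ee02ee02ee02ee00cf214da0f620f621046114a124e0dfa0fa20fa22ee02ee02ee02ee02ee02ee00c1614fa0f820f8211360dce116a0ede0f460fbe10ba2ee02ee02ee02ee02ee00ba215ec0efe0f8210660f6210660e1a0fc20fc20fe210ba2ee02ee02ee02ee018a2158c0fec0fec10c810d01fbc1a50102c102c1050104c0fde2ee02ee02ee018a215640fec0f1c10d010d0146c0f000f680f541050104c10320fde2ee02ee011a2185217bc184015f215f216f612aa15c215c213ee08be15d815d80e222ee00fdc1a8614e6151615f2080a16f613a60982154a156e164615d815d81afa0e22)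
    (nat_lit 5) (nat_lit 83)
    [[nat_lit 0,nat_lit 0,nat_lit 2],[nat_lit 0,nat_lit 0,nat_lit 4,nat_lit 6,nat_lit 10],[nat_lit 0,nat_lit 0,
    nat_lit 4,nat_lit 11,nat_lit 7],[nat_lit 0,nat_lit 2,nat_lit 0],[nat_lit 0,nat_lit 2,nat_lit 10],[nat_lit 0,
    nat_lit 3,nat_lit 10],[nat_lit 0,nat_lit 4,nat_lit 6,nat_lit 10,nat_lit 0],[nat_lit 0,nat_lit 4,nat_lit 11,
    nat_lit 7,nat_lit 0],[nat_lit 0,nat_lit 5,nat_lit 8,nat_lit 7],[nat_lit 0,nat_lit 5,nat_lit 9,nat_lit 7],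
    [nat_lit 0,nat_lit 5,nat_lit 9,nat_lit 15,nat_lit 10],[nat_lit 0,nat_lit 5,nat_lit 14,nat_lit 7],[nat_lit 0,
    nat_lit 12],[nat_lit 0,nat_lit 13],[nat_lit 1,nat_lit 1,nat_lit 3],[nat_lit 1,nat_lit 1,nat_lit 6,nat_lit 10,
    nat_lit 5],[nat_lit 1,nat_lit 1,nat_lit 11,nat_lit 7,nat_lit 5],[nat_lit 1,nat_lit 3,nat_lit 1],[nat_lit 1,
    nat_lit 6,nat_lit 8,nat_lit 4],[nat_lit 1,nat_lit 6,nat_lit 9,nat_lit 4],[nat_lit 1,nat_lit 6,nat_lit 10,
    nat_lit 5,nat_lit 1],[nat_lit 1,nat_lit 6,nat_lit 15,nat_lit 4],[nat_lit 1,nat_lit 11,nat_lit 2],[nat_lit 1,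
    nat_lit 11,nat_lit 3],[nat_lit 1,nat_lit 11,nat_lit 7,nat_lit 5,nat_lit 1],[nat_lit 1,nat_lit 11,nat_lit 14,
    nat_lit 8,nat_lit 4],[nat_lit 1,nat_lit 12],[nat_lit 1,nat_lit 13],[nat_lit 2,nat_lit 8],[nat_lit 2,nat_lit 9],
    [nat_lit 2,nat_lit 10,nat_lit 11],[nat_lit 2,nat_lit 14],[nat_lit 2,nat_lit 15],[nat_lit 3,nat_lit 8],[nat_lit 3,
    nat_lit 9],[nat_lit 3,nat_lit 10,nat_lit 11],[nat_lit 3,nat_lit 14],[nat_lit 3,nat_lit 15],[nat_lit 4,nat_lit 6,
    nat_lit 6],[nat_lit 4,nat_lit 6,nat_lit 7],[nat_lit 4,nat_lit 7,nat_lit 6],[nat_lit 4,nat_lit 7,nat_lit 7],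
    [nat_lit 4,nat_lit 8,nat_lit 11,nat_lit 7],[nat_lit 4,nat_lit 9,nat_lit 14,nat_lit 8],[nat_lit 4,nat_lit 9,
    nat_lit 15,nat_lit 8],[nat_lit 4,nat_lit 11,nat_lit 7,nat_lit 8],[nat_lit 4,nat_lit 11,nat_lit 7,nat_lit 9],
    [nat_lit 4,nat_lit 14,nat_lit 8,nat_lit 9],[nat_lit 4,nat_lit 14,nat_lit 8,nat_lit 15],[nat_lit 4,nat_lit 14,
    nat_lit 9,nat_lit 15],[nat_lit 4,nat_lit 14,nat_lit 14,nat_lit 8],[nat_lit 5,nat_lit 6,nat_lit 6],[nat_lit 5,
    nat_lit 6,nat_lit 7],[nat_lit 5,nat_lit 6,nat_lit 10,nat_lit 9],[nat_lit 5,nat_lit 7,nat_lit 6],[nat_lit 5,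
    nat_lit 7,nat_lit 7],[nat_lit 5,nat_lit 8,nat_lit 6,nat_lit 10],[nat_lit 5,nat_lit 8,nat_lit 9,nat_lit 15],
    [nat_lit 5,nat_lit 9,nat_lit 6,nat_lit 10],[nat_lit 5,nat_lit 9,nat_lit 14,nat_lit 8],[nat_lit 5,nat_lit 9,
    nat_lit 15,nat_lit 8],[nat_lit 5,nat_lit 9,nat_lit 15,nat_lit 15],[nat_lit 5,nat_lit 14,nat_lit 8,nat_lit 15],
    [nat_lit 5,nat_lit 14,nat_lit 9,nat_lit 15],[nat_lit 10,nat_lit 12],[nat_lit 10,nat_lit 13],[nat_lit 11,
    nat_lit 12],[nat_lit 11,nat_lit 13]]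
    [nat_lit 0x1002,nat_lit 0x10046a,nat_lit 0x1004b7,nat_lit 0x1020,nat_lit 0x102a,nat_lit 0x103a,nat_lit 0x1046a0,
    nat_lit 0x104b70,nat_lit 0x10587,nat_lit 0x10597,nat_lit 0x1059fa,nat_lit 0x105e7,nat_lit 268,nat_lit 269,
    nat_lit 0x1113,nat_lit 0x1116a5,nat_lit 0x111b75,nat_lit 0x1131,nat_lit 0x11684,nat_lit 0x11694,nat_lit 0x116a51,
    nat_lit 0x116f4,nat_lit 0x11b2,nat_lit 0x11b3,nat_lit 0x11b751,nat_lit 0x11be84,nat_lit 284,nat_lit 285,
    nat_lit 296,nat_lit 297,nat_lit 0x12ab,nat_lit 302,nat_lit 303,nat_lit 312,nat_lit 313,nat_lit 0x13ab,nat_lit 318,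
    nat_lit 319,nat_lit 0x1466,nat_lit 0x1467,nat_lit 0x1476,nat_lit 0x1477,nat_lit 0x148b7,nat_lit 0x149e8,
    nat_lit 0x149f8,nat_lit 0x14b78,nat_lit 0x14b79,nat_lit 0x14e89,nat_lit 0x14e8f,nat_lit 0x14e9f,nat_lit 0x14ee8,
    nat_lit 0x1566,nat_lit 0x1567,nat_lit 0x156a9,nat_lit 0x1576,nat_lit 0x1577,nat_lit 0x1586a,nat_lit 0x1589f,
    nat_lit 0x1596a,nat_lit 0x159e8,nat_lit 0x159f8,nat_lit 0x159ff,nat_lit 0x15e8f,nat_lit 0x15e9f,nat_lit 428,
    nat_lit 429,nat_lit 444,nat_lit 445]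
    [[[nat_lit 0,nat_lit 0,nat_lit 2],[nat_lit 0,nat_lit 0,nat_lit 4,nat_lit 6,nat_lit 10],[nat_lit 0,nat_lit 0,
    nat_lit 4,nat_lit 11,nat_lit 7],[nat_lit 0,nat_lit 2,nat_lit 0],[nat_lit 0,nat_lit 2,nat_lit 10],[nat_lit 0,
    nat_lit 3,nat_lit 10],[nat_lit 0,nat_lit 4,nat_lit 6,nat_lit 10,nat_lit 0],[nat_lit 0,nat_lit 4,nat_lit 11,
    nat_lit 7,nat_lit 0],[nat_lit 0,nat_lit 5,nat_lit 8,nat_lit 7],[nat_lit 0,nat_lit 5,nat_lit 9,nat_lit 7],
    [nat_lit 0,nat_lit 5,nat_lit 9,nat_lit 15,nat_lit 10],[nat_lit 0,nat_lit 5,nat_lit 14,nat_lit 7]],[[nat_lit 0,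
    nat_lit 12],[nat_lit 0,nat_lit 13],[nat_lit 1,nat_lit 1,nat_lit 3],[nat_lit 1,nat_lit 1,nat_lit 6,nat_lit 10,
    nat_lit 5],[nat_lit 1,nat_lit 1,nat_lit 11,nat_lit 7,nat_lit 5],[nat_lit 1,nat_lit 3,nat_lit 1],[nat_lit 1,
    nat_lit 6,nat_lit 8,nat_lit 4],[nat_lit 1,nat_lit 6,nat_lit 9,nat_lit 4],[nat_lit 1,nat_lit 6,nat_lit 10,
    nat_lit 5,nat_lit 1],[nat_lit 1,nat_lit 6,nat_lit 15,nat_lit 4],[nat_lit 1,nat_lit 11,nat_lit 2],[nat_lit 1,
    nat_lit 11,nat_lit 3]],[[nat_lit 1,nat_lit 11,nat_lit 7,nat_lit 5,nat_lit 1],[nat_lit 1,nat_lit 11,nat_lit 14,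
    nat_lit 8,nat_lit 4],[nat_lit 1,nat_lit 12],[nat_lit 1,nat_lit 13],[nat_lit 2,nat_lit 0,nat_lit 0],[nat_lit 2,
    nat_lit 1,nat_lit 11],[nat_lit 2,nat_lit 8],[nat_lit 2,nat_lit 9],[nat_lit 2,nat_lit 10,nat_lit 0],[nat_lit 2,
    nat_lit 10,nat_lit 11],[nat_lit 2,nat_lit 14],[nat_lit 2,nat_lit 15]],[[nat_lit 3,nat_lit 1,nat_lit 1],[nat_lit 3,
    nat_lit 1,nat_lit 11],[nat_lit 3,nat_lit 8],[nat_lit 3,nat_lit 9],[nat_lit 3,nat_lit 10,nat_lit 0],[nat_lit 3,
    nat_lit 10,nat_lit 11],[nat_lit 3,nat_lit 14],[nat_lit 3,nat_lit 15],[nat_lit 4,nat_lit 1,nat_lit 6,nat_lit 8],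
    [nat_lit 4,nat_lit 1,nat_lit 6,nat_lit 9],[nat_lit 4,nat_lit 1,nat_lit 6,nat_lit 15],[nat_lit 4,nat_lit 1,
    nat_lit 11,nat_lit 14,nat_lit 8]],[[nat_lit 4,nat_lit 6,nat_lit 6],[nat_lit 4,nat_lit 6,nat_lit 7],[nat_lit 4,
    nat_lit 6,nat_lit 10,nat_lit 0,nat_lit 0],[nat_lit 4,nat_lit 7,nat_lit 6],[nat_lit 4,nat_lit 7,nat_lit 7],
    [nat_lit 4,nat_lit 8,nat_lit 11,nat_lit 7],[nat_lit 4,nat_lit 9,nat_lit 14,nat_lit 8],[nat_lit 4,nat_lit 9,
    nat_lit 15,nat_lit 8],[nat_lit 4,nat_lit 11,nat_lit 7,nat_lit 0,nat_lit 0],[nat_lit 4,nat_lit 11,nat_lit 7,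
    nat_lit 8],[nat_lit 4,nat_lit 11,nat_lit 7,nat_lit 9],[nat_lit 4,nat_lit 14,nat_lit 8,nat_lit 9]],[[nat_lit 4,
    nat_lit 14,nat_lit 8,nat_lit 15],[nat_lit 4,nat_lit 14,nat_lit 9,nat_lit 15],[nat_lit 4,nat_lit 14,nat_lit 14,
    nat_lit 8],[nat_lit 5,nat_lit 1,nat_lit 1,nat_lit 6,nat_lit 10],[nat_lit 5,nat_lit 1,nat_lit 1,nat_lit 11,
    nat_lit 7],[nat_lit 5,nat_lit 6,nat_lit 6],[nat_lit 5,nat_lit 6,nat_lit 7],[nat_lit 5,nat_lit 6,nat_lit 10,
    nat_lit 9],[nat_lit 5,nat_lit 7,nat_lit 6],[nat_lit 5,nat_lit 7,nat_lit 7],[nat_lit 5,nat_lit 8,nat_lit 6,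
    nat_lit 10],[nat_lit 5,nat_lit 8,nat_lit 7,nat_lit 0]],[[nat_lit 5,nat_lit 8,nat_lit 9,nat_lit 15],[nat_lit 5,
    nat_lit 9,nat_lit 6,nat_lit 10],[nat_lit 5,nat_lit 9,nat_lit 7,nat_lit 0],[nat_lit 5,nat_lit 9,nat_lit 14,
    nat_lit 8],[nat_lit 5,nat_lit 9,nat_lit 15,nat_lit 8],[nat_lit 5,nat_lit 9,nat_lit 15,nat_lit 10,nat_lit 0],
    [nat_lit 5,nat_lit 9,nat_lit 15,nat_lit 15],[nat_lit 5,nat_lit 14,nat_lit 7,nat_lit 0],[nat_lit 5,nat_lit 14,
    nat_lit 8,nat_lit 15],[nat_lit 5,nat_lit 14,nat_lit 9,nat_lit 15],[nat_lit 6,nat_lit 4,nat_lit 6],[nat_lit 6,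
    nat_lit 4,nat_lit 7]],[[nat_lit 6,nat_lit 5,nat_lit 6],[nat_lit 6,nat_lit 5,nat_lit 7],[nat_lit 6,nat_lit 6,
    nat_lit 4],[nat_lit 6,nat_lit 6,nat_lit 5],[nat_lit 6,nat_lit 7,nat_lit 4],[nat_lit 6,nat_lit 7,nat_lit 5],
    [nat_lit 6,nat_lit 8,nat_lit 4,nat_lit 1],[nat_lit 6,nat_lit 9,nat_lit 4,nat_lit 1],[nat_lit 6,nat_lit 10,
    nat_lit 0,nat_lit 0,nat_lit 4],[nat_lit 6,nat_lit 10,nat_lit 5,nat_lit 1,nat_lit 1],[nat_lit 6,nat_lit 10,
    nat_lit 5,nat_lit 8],[nat_lit 6,nat_lit 10,nat_lit 5,nat_lit 9]],[[nat_lit 6,nat_lit 10,nat_lit 9,nat_lit 5],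
    [nat_lit 6,nat_lit 15,nat_lit 4,nat_lit 1],[nat_lit 7,nat_lit 0,nat_lit 0,nat_lit 4,nat_lit 11],[nat_lit 7,
    nat_lit 0,nat_lit 5,nat_lit 8],[nat_lit 7,nat_lit 0,nat_lit 5,nat_lit 9],[nat_lit 7,nat_lit 0,nat_lit 5,
    nat_lit 14],[nat_lit 7,nat_lit 4,nat_lit 6],[nat_lit 7,nat_lit 4,nat_lit 7],[nat_lit 7,nat_lit 4,nat_lit 8,
    nat_lit 11],[nat_lit 7,nat_lit 5,nat_lit 1,nat_lit 1,nat_lit 11],[nat_lit 7,nat_lit 5,nat_lit 6],[nat_lit 7,
    nat_lit 5,nat_lit 7]],[[nat_lit 7,nat_lit 6,nat_lit 4],[nat_lit 7,nat_lit 6,nat_lit 5],[nat_lit 7,nat_lit 7,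
    nat_lit 4],[nat_lit 7,nat_lit 7,nat_lit 5],[nat_lit 7,nat_lit 8,nat_lit 4,nat_lit 11],[nat_lit 7,nat_lit 9,
    nat_lit 4,nat_lit 11],[nat_lit 8,nat_lit 2],[nat_lit 8,nat_lit 3],[nat_lit 8,nat_lit 4,nat_lit 1,nat_lit 6],
    [nat_lit 8,nat_lit 4,nat_lit 1,nat_lit 11,nat_lit 14],[nat_lit 8,nat_lit 4,nat_lit 9,nat_lit 14],[nat_lit 8,
    nat_lit 4,nat_lit 9,nat_lit 15]],[[nat_lit 8,nat_lit 4,nat_lit 11,nat_lit 7],[nat_lit 8,nat_lit 4,nat_lit 14,
    nat_lit 14],[nat_lit 8,nat_lit 5,nat_lit 9,nat_lit 14],[nat_lit 8,nat_lit 5,nat_lit 9,nat_lit 15],[nat_lit 8,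
    nat_lit 6,nat_lit 10,nat_lit 5],[nat_lit 8,nat_lit 7,nat_lit 0,nat_lit 5],[nat_lit 8,nat_lit 9,nat_lit 4,
    nat_lit 14],[nat_lit 8,nat_lit 9,nat_lit 15,nat_lit 5],[nat_lit 8,nat_lit 11,nat_lit 7,nat_lit 4],[nat_lit 8,
    nat_lit 15,nat_lit 4,nat_lit 14],[nat_lit 8,nat_lit 15,nat_lit 5,nat_lit 14],[nat_lit 9,nat_lit 2]],[[nat_lit 9,
    nat_lit 3],[nat_lit 9,nat_lit 4,nat_lit 1,nat_lit 6],[nat_lit 9,nat_lit 4,nat_lit 11,nat_lit 7],[nat_lit 9,
    nat_lit 4,nat_lit 14,nat_lit 8],[nat_lit 9,nat_lit 5,nat_lit 6,nat_lit 10],[nat_lit 9,nat_lit 6,nat_lit 10,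
    nat_lit 5],[nat_lit 9,nat_lit 7,nat_lit 0,nat_lit 5],[nat_lit 9,nat_lit 14,nat_lit 8,nat_lit 4],[nat_lit 9,
    nat_lit 14,nat_lit 8,nat_lit 5],[nat_lit 9,nat_lit 15,nat_lit 4,nat_lit 14],[nat_lit 9,nat_lit 15,nat_lit 5,
    nat_lit 8],[nat_lit 9,nat_lit 15,nat_lit 5,nat_lit 14]],[[nat_lit 9,nat_lit 15,nat_lit 8,nat_lit 4],[nat_lit 9,
    nat_lit 15,nat_lit 8,nat_lit 5],[nat_lit 9,nat_lit 15,nat_lit 10,nat_lit 0,nat_lit 5],[nat_lit 9,nat_lit 15,
    nat_lit 15,nat_lit 5],[nat_lit 10,nat_lit 0,nat_lit 0,nat_lit 4,nat_lit 6],[nat_lit 10,nat_lit 0,nat_lit 2],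
    [nat_lit 10,nat_lit 0,nat_lit 3],[nat_lit 10,nat_lit 0,nat_lit 5,nat_lit 9,nat_lit 15],[nat_lit 10,nat_lit 5,
    nat_lit 1,nat_lit 1,nat_lit 6],[nat_lit 10,nat_lit 5,nat_lit 8,nat_lit 6],[nat_lit 10,nat_lit 5,nat_lit 9,
    nat_lit 6],[nat_lit 10,nat_lit 9,nat_lit 5,nat_lit 6]],[[nat_lit 10,nat_lit 11,nat_lit 2],[nat_lit 10,nat_lit 11,
    nat_lit 3],[nat_lit 10,nat_lit 12],[nat_lit 10,nat_lit 13],[nat_lit 11,nat_lit 2,nat_lit 1],[nat_lit 11,nat_lit 2,
    nat_lit 10],[nat_lit 11,nat_lit 3,nat_lit 1],[nat_lit 11,nat_lit 3,nat_lit 10],[nat_lit 11,nat_lit 7,nat_lit 0,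
    nat_lit 0,nat_lit 4],[nat_lit 11,nat_lit 7,nat_lit 4,nat_lit 8],[nat_lit 11,nat_lit 7,nat_lit 5,nat_lit 1,
    nat_lit 1],[nat_lit 11,nat_lit 7,nat_lit 8,nat_lit 4]],[[nat_lit 11,nat_lit 7,nat_lit 9,nat_lit 4],[nat_lit 11,
    nat_lit 12],[nat_lit 11,nat_lit 13],[nat_lit 11,nat_lit 14,nat_lit 8,nat_lit 4,nat_lit 1],[nat_lit 12,nat_lit 0],
    [nat_lit 12,nat_lit 1],[nat_lit 12,nat_lit 10],[nat_lit 12,nat_lit 11],[nat_lit 13,nat_lit 0],[nat_lit 13,
    nat_lit 1],[nat_lit 13,nat_lit 10],[nat_lit 13,nat_lit 11]],[[nat_lit 14,nat_lit 2],[nat_lit 14,nat_lit 3],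
    [nat_lit 14,nat_lit 7,nat_lit 0,nat_lit 5],[nat_lit 14,nat_lit 8,nat_lit 4,nat_lit 1,nat_lit 11],[nat_lit 14,
    nat_lit 8,nat_lit 4,nat_lit 9],[nat_lit 14,nat_lit 8,nat_lit 4,nat_lit 14],[nat_lit 14,nat_lit 8,nat_lit 5,
    nat_lit 9],[nat_lit 14,nat_lit 8,nat_lit 9,nat_lit 4],[nat_lit 14,nat_lit 8,nat_lit 15,nat_lit 4],[nat_lit 14,
    nat_lit 8,nat_lit 15,nat_lit 5],[nat_lit 14,nat_lit 9,nat_lit 15,nat_lit 4],[nat_lit 14,nat_lit 9,nat_lit 15,
    nat_lit 5]],[[nat_lit 14,nat_lit 14,nat_lit 8,nat_lit 4],[nat_lit 15,nat_lit 2],[nat_lit 15,nat_lit 3],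
    [nat_lit 15,nat_lit 4,nat_lit 1,nat_lit 6],[nat_lit 15,nat_lit 4,nat_lit 14,nat_lit 8],[nat_lit 15,nat_lit 4,
    nat_lit 14,nat_lit 9],[nat_lit 15,nat_lit 5,nat_lit 8,nat_lit 9],[nat_lit 15,nat_lit 5,nat_lit 9,nat_lit 15],
    [nat_lit 15,nat_lit 5,nat_lit 14,nat_lit 8],[nat_lit 15,nat_lit 5,nat_lit 14,nat_lit 9],[nat_lit 15,nat_lit 8,
    nat_lit 4,nat_lit 9],[nat_lit 15,nat_lit 8,nat_lit 5,nat_lit 9]],[[nat_lit 15,nat_lit 10,nat_lit 0,nat_lit 5,
    nat_lit 9],[nat_lit 15,nat_lit 15,nat_lit 5,nat_lit 9]]]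
    [[nat_lit 3,nat_lit 6,nat_lit 7,nat_lit 28,nat_lit 32,nat_lit 40,nat_lit 50,nat_lit 56,nat_lit 71,nat_lit 74,
    nat_lit 77,nat_lit 79],[nat_lit 172,nat_lit 176,nat_lit 17,nat_lit 20,nat_lit 24,nat_lit 36,nat_lit 90,nat_lit 91,
    nat_lit 93,nat_lit 97,nat_lit 160,nat_lit 162],[nat_lit 166,nat_lit 171,nat_lit 173,nat_lit 177,nat_lit 0,
    nat_lit 22,nat_lit 114,nat_lit 131,nat_lit 149,nat_lit 156,nat_lit 180,nat_lit 193],[nat_lit 14,nat_lit 23,
    nat_lit 115,nat_lit 132,nat_lit 150,nat_lit 157,nat_lit 181,nat_lit 194,nat_lit 18,nat_lit 19,nat_lit 21,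
    nat_lit 25],[nat_lit 86,nat_lit 88,nat_lit 92,nat_lit 108,nat_lit 110,nat_lit 128,nat_lit 139,nat_lit 144,
    nat_lit 164,nat_lit 167,nat_lit 168,nat_lit 187],[nat_lit 188,nat_lit 190,nat_lit 192,nat_lit 15,nat_lit 16,
    nat_lit 87,nat_lit 89,nat_lit 96,nat_lit 109,nat_lit 111,nat_lit 124,nat_lit 125],[nat_lit 127,nat_lit 137,
    nat_lit 138,nat_lit 140,nat_lit 145,nat_lit 146,nat_lit 147,nat_lit 182,nat_lit 189,nat_lit 191,nat_lit 48,
    nat_lit 51],[nat_lit 65,nat_lit 68,nat_lit 82,nat_lit 84,nat_lit 102,nat_lit 106,nat_lit 116,nat_lit 133,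
    nat_lit 148,nat_lit 152,nat_lit 153,nat_lit 154],[nat_lit 155,nat_lit 195,nat_lit 2,nat_lit 8,nat_lit 9,
    nat_lit 11,nat_lit 49,nat_lit 52,nat_lit 53,nat_lit 64,nat_lit 66,nat_lit 69],[nat_lit 83,nat_lit 85,nat_lit 103,
    nat_lit 107,nat_lit 120,nat_lit 134,nat_lit 30,nat_lit 38,nat_lit 44,nat_lit 47,nat_lit 54,nat_lit 55],
    [nat_lit 57,nat_lit 62,nat_lit 75,nat_lit 76,nat_lit 94,nat_lit 99,nat_lit 135,nat_lit 142,nat_lit 165,
    nat_lit 196,nat_lit 200,nat_lit 31],[nat_lit 39,nat_lit 45,nat_lit 58,nat_lit 59,nat_lit 67,nat_lit 95,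
    nat_lit 100,nat_lit 184,nat_lit 186,nat_lit 197,nat_lit 198,nat_lit 201],[nat_lit 202,nat_lit 203,nat_lit 204,
    nat_lit 205,nat_lit 1,nat_lit 4,nat_lit 5,nat_lit 10,nat_lit 63,nat_lit 70,nat_lit 73,nat_lit 136],[nat_lit 161,
    nat_lit 163,nat_lit 174,nat_lit 178,nat_lit 29,nat_lit 33,nat_lit 37,nat_lit 41,nat_lit 98,nat_lit 104,
    nat_lit 105,nat_lit 112],[nat_lit 113,nat_lit 175,nat_lit 179,nat_lit 183,nat_lit 12,nat_lit 26,nat_lit 158,
    nat_lit 169,nat_lit 13,nat_lit 27,nat_lit 159,nat_lit 170],[nat_lit 34,nat_lit 42,nat_lit 101,nat_lit 117,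
    nat_lit 118,nat_lit 121,nat_lit 122,nat_lit 126,nat_lit 129,nat_lit 130,nat_lit 141,nat_lit 143],[nat_lit 185,
    nat_lit 35,nat_lit 43,nat_lit 46,nat_lit 60,nat_lit 61,nat_lit 72,nat_lit 78,nat_lit 80,nat_lit 81,nat_lit 119,
    nat_lit 123],[nat_lit 151,nat_lit 199]]
    [[nat_lit 28,nat_lit 148,nat_lit 98,nat_lit 0,nat_lit 149,nat_lit 150,nat_lit 1,nat_lit 2,nat_lit 99,nat_lit 100,
    nat_lit 151,nat_lit 101],[nat_lit 172,nat_lit 176,nat_lit 36,nat_lit 63,nat_lit 64,nat_lit 14,nat_lit 44,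
    nat_lit 45,nat_lit 15,nat_lit 46,nat_lit 29,nat_lit 37],[nat_lit 16,nat_lit 47,nat_lit 173,nat_lit 177,nat_lit 3,
    nat_lit 160,nat_lit 114,nat_lit 131,nat_lit 4,nat_lit 161,nat_lit 180,nat_lit 193],[nat_lit 17,nat_lit 162,
    nat_lit 115,nat_lit 132,nat_lit 5,nat_lit 163,nat_lit 181,nat_lit 194,nat_lit 116,nat_lit 133,nat_lit 195,
    nat_lit 117],[nat_lit 82,nat_lit 102,nat_lit 6,nat_lit 83,nat_lit 103,nat_lit 104,nat_lit 118,nat_lit 119,
    nat_lit 7,nat_lit 120,nat_lit 134,nat_lit 135],[nat_lit 196,nat_lit 197,nat_lit 121,nat_lit 152,nat_lit 105,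
    nat_lit 84,nat_lit 106,nat_lit 136,nat_lit 85,nat_lit 107,nat_lit 153,nat_lit 8],[nat_lit 198,nat_lit 154,
    nat_lit 9,nat_lit 122,nat_lit 123,nat_lit 10,nat_lit 199,nat_lit 11,nat_lit 200,nat_lit 201,nat_lit 86,
    nat_lit 108],[nat_lit 87,nat_lit 109,nat_lit 48,nat_lit 65,nat_lit 49,nat_lit 66,nat_lit 18,nat_lit 19,nat_lit 50,
    nat_lit 20,nat_lit 124,nat_lit 137],[nat_lit 67,nat_lit 21,nat_lit 164,nat_lit 125,nat_lit 138,nat_lit 182,
    nat_lit 88,nat_lit 110,nat_lit 165,nat_lit 166,nat_lit 89,nat_lit 111],[nat_lit 51,nat_lit 68,nat_lit 52,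
    nat_lit 69,nat_lit 167,nat_lit 168,nat_lit 30,nat_lit 38,nat_lit 90,nat_lit 183,nat_lit 184,nat_lit 202],
    [nat_lit 112,nat_lit 185,nat_lit 186,nat_lit 203,nat_lit 70,nat_lit 71,nat_lit 187,nat_lit 72,nat_lit 53,
    nat_lit 188,nat_lit 189,nat_lit 31],[nat_lit 39,nat_lit 91,nat_lit 113,nat_lit 126,nat_lit 155,nat_lit 73,
    nat_lit 74,nat_lit 54,nat_lit 75,nat_lit 190,nat_lit 127,nat_lit 191],[nat_lit 55,nat_lit 76,nat_lit 77,
    nat_lit 78,nat_lit 92,nat_lit 32,nat_lit 40,nat_lit 204,nat_lit 93,nat_lit 94,nat_lit 95,nat_lit 96],[nat_lit 33,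
    nat_lit 41,nat_lit 174,nat_lit 178,nat_lit 22,nat_lit 156,nat_lit 23,nat_lit 157,nat_lit 56,nat_lit 128,
    nat_lit 24,nat_lit 57],[nat_lit 58,nat_lit 175,nat_lit 179,nat_lit 25,nat_lit 12,nat_lit 26,nat_lit 158,
    nat_lit 169,nat_lit 13,nat_lit 27,nat_lit 159,nat_lit 170],[nat_lit 34,nat_lit 42,nat_lit 79,nat_lit 171,
    nat_lit 139,nat_lit 192,nat_lit 140,nat_lit 59,nat_lit 60,nat_lit 80,nat_lit 61,nat_lit 81],[nat_lit 62,
    nat_lit 35,nat_lit 43,nat_lit 97,nat_lit 129,nat_lit 141,nat_lit 142,nat_lit 205,nat_lit 130,nat_lit 143,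
    nat_lit 144,nat_lit 145],[nat_lit 146,nat_lit 147]]
    [[[nat_lit 180],[nat_lit 180],[nat_lit 180],[nat_lit 187,nat_lit 188,nat_lit 190,nat_lit 192],[nat_lit 187,
    nat_lit 188,nat_lit 190,nat_lit 192],[],[],[],[nat_lit 181],[nat_lit 181],[nat_lit 181],[nat_lit 181]],
    [[nat_lit 185],[nat_lit 183],[nat_lit 43],[nat_lit 43],[nat_lit 43],[nat_lit 36],[nat_lit 38],[nat_lit 38],
    [nat_lit 38],[nat_lit 38],[nat_lit 39],[nat_lit 39]],[[nat_lit 39],[nat_lit 39],[nat_lit 42],[nat_lit 37,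
    nat_lit 41],[nat_lit 0],[],[nat_lit 1,nat_lit 4,nat_lit 5,nat_lit 10],[nat_lit 2,nat_lit 8,nat_lit 9,nat_lit 11],
    [nat_lit 12],[nat_lit 12],[nat_lit 3,nat_lit 6,nat_lit 7],[nat_lit 13]],[[nat_lit 72,nat_lit 78,nat_lit 80,
    nat_lit 81],[nat_lit 72,nat_lit 78,nat_lit 80,nat_lit 81],[nat_lit 63,nat_lit 70,nat_lit 73],[nat_lit 64,
    nat_lit 66,nat_lit 69],[],[],[nat_lit 71,nat_lit 74,nat_lit 77,nat_lit 79],[],[nat_lit 35],[nat_lit 35],
    [nat_lit 35],[nat_lit 35]],[[nat_lit 30],[nat_lit 30],[nat_lit 30],[],[],[],[],[],[nat_lit 31],[nat_lit 31],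
    [nat_lit 31],[nat_lit 28,nat_lit 32]],[[nat_lit 28,nat_lit 32],[nat_lit 28,nat_lit 32],[nat_lit 28,nat_lit 32],[],
    [],[nat_lit 99],[nat_lit 99],[nat_lit 99],[nat_lit 109,nat_lit 111],[nat_lit 109,nat_lit 111],[],[]],[[],
    [nat_lit 103,nat_lit 107],[nat_lit 103,nat_lit 107],[nat_lit 103,nat_lit 107],[nat_lit 103,nat_lit 107],
    [nat_lit 103,nat_lit 107],[nat_lit 103,nat_lit 107],[],[],[],[nat_lit 48,nat_lit 51],[nat_lit 48,nat_lit 51]],[[],
    [],[nat_lit 44,nat_lit 47,nat_lit 54,nat_lit 55,nat_lit 57,nat_lit 62],[nat_lit 44,nat_lit 47,nat_lit 54,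
    nat_lit 55,nat_lit 57,nat_lit 62],[],[],[],[nat_lit 49,nat_lit 52,nat_lit 53],[],[],[],[]],[[],[],[nat_lit 131],
    [nat_lit 131],[nat_lit 131],[nat_lit 131],[nat_lit 133],[nat_lit 133],[nat_lit 133],[nat_lit 132],[nat_lit 132],
    [nat_lit 132]],[[nat_lit 135,nat_lit 142],[nat_lit 135,nat_lit 142],[nat_lit 137,nat_lit 138,nat_lit 140,
    nat_lit 145,nat_lit 146,nat_lit 147],[nat_lit 137,nat_lit 138,nat_lit 140,nat_lit 145,nat_lit 146,nat_lit 147],
    [nat_lit 136],[nat_lit 134],[nat_lit 86,nat_lit 88,nat_lit 92],[nat_lit 90,nat_lit 91,nat_lit 93,nat_lit 97],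
    [nat_lit 82,nat_lit 84],[nat_lit 82,nat_lit 84],[nat_lit 82,nat_lit 84],[nat_lit 82,nat_lit 84]],[[nat_lit 82,
    nat_lit 84],[nat_lit 82,nat_lit 84],[],[],[nat_lit 94],[nat_lit 87,nat_lit 89,nat_lit 96],[nat_lit 83,nat_lit 85],
    [nat_lit 83,nat_lit 85],[nat_lit 95],[],[],[nat_lit 164,nat_lit 167,nat_lit 168]],[[nat_lit 160,nat_lit 162,
    nat_lit 166,nat_lit 171],[],[],[],[],[nat_lit 165],[],[],[],[nat_lit 170],[nat_lit 170],[nat_lit 170]],
    [[nat_lit 170],[nat_lit 170],[nat_lit 170],[nat_lit 170],[nat_lit 114],[nat_lit 114],[nat_lit 114],[nat_lit 114],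
    [nat_lit 115],[nat_lit 115],[nat_lit 115],[nat_lit 120]],[[],[],[nat_lit 117,nat_lit 118,nat_lit 121,nat_lit 122,
    nat_lit 126,nat_lit 129,nat_lit 130],[],[],[],[nat_lit 177],[nat_lit 177],[],[],[],[]],[[],[],[nat_lit 179],
    [nat_lit 176],[nat_lit 149,nat_lit 156],[nat_lit 151],[nat_lit 158],[],[nat_lit 193],[nat_lit 199],[],
    [nat_lit 197,nat_lit 198,nat_lit 201,nat_lit 202,nat_lit 203,nat_lit 204,nat_lit 205]],[[],[nat_lit 173],[],
    [nat_lit 174],[nat_lit 174],[nat_lit 174],[nat_lit 174],[nat_lit 174],[nat_lit 174],[nat_lit 174],[],[]],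
    [[nat_lit 172],[nat_lit 18,nat_lit 19,nat_lit 21,nat_lit 25],[nat_lit 17,nat_lit 20,nat_lit 24],[],[],[],
    [nat_lit 14,nat_lit 23],[nat_lit 14,nat_lit 23],[nat_lit 14,nat_lit 23],[nat_lit 14,nat_lit 23],[],[]],
    [[nat_lit 26],[nat_lit 27]]]
    (nat_lit 206) [nat_lit 0,nat_lit 1,nat_lit 2,nat_lit 3,nat_lit 4,nat_lit 5,nat_lit 6,nat_lit 7,nat_lit 8,
    nat_lit 9,nat_lit 10,nat_lit 11,nat_lit 12,nat_lit 13,nat_lit 14,nat_lit 15,nat_lit 16,nat_lit 17,nat_lit 18,
    nat_lit 19,nat_lit 20,nat_lit 21,nat_lit 22,nat_lit 23,nat_lit 24,nat_lit 25,nat_lit 26,nat_lit 27,nat_lit 30,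
    nat_lit 31,nat_lit 33,nat_lit 34,nat_lit 35,nat_lit 38,nat_lit 39,nat_lit 41,nat_lit 42,nat_lit 43,nat_lit 48,
    nat_lit 49,nat_lit 51,nat_lit 52,nat_lit 53,nat_lit 54,nat_lit 55,nat_lit 57,nat_lit 58,nat_lit 59,nat_lit 60,
    nat_lit 61,nat_lit 62,nat_lit 65,nat_lit 66,nat_lit 67,nat_lit 68,nat_lit 69,nat_lit 70,nat_lit 72,nat_lit 73,
    nat_lit 75,nat_lit 76,nat_lit 78,nat_lit 80,nat_lit 81,nat_lit 158,nat_lit 159,nat_lit 169,nat_lit 170]
    [[[nat_lit 3,nat_lit 6,nat_lit 7],[],[nat_lit 0],[],[],[],[],[nat_lit 2,nat_lit 8,nat_lit 9,nat_lit 11],[],[],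
    [nat_lit 1,nat_lit 4,nat_lit 5,nat_lit 10],[],[nat_lit 12],[nat_lit 13],[],[]],[[],[nat_lit 17,nat_lit 20,
    nat_lit 24],[nat_lit 22],[nat_lit 14,nat_lit 23],[nat_lit 18,nat_lit 19,nat_lit 21,nat_lit 25],[nat_lit 15,
    nat_lit 16],[],[],[],[],[],[],[nat_lit 26],[nat_lit 27],[],[]],[[nat_lit 28,nat_lit 32],[],[],[],[],[],[],[],
    [nat_lit 30],[nat_lit 31],[],[nat_lit 29,nat_lit 33],[],[],[nat_lit 34],[nat_lit 35]],[[nat_lit 40],[nat_lit 36],
    [],[],[],[],[],[],[nat_lit 38],[nat_lit 39],[],[nat_lit 37,nat_lit 41],[],[],[nat_lit 42],[nat_lit 43]],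
    [[nat_lit 50,nat_lit 56],[],[],[],[],[],[nat_lit 48,nat_lit 51],[nat_lit 49,nat_lit 52,nat_lit 53],[nat_lit 44,
    nat_lit 47,nat_lit 54,nat_lit 55,nat_lit 57,nat_lit 62],[nat_lit 45,nat_lit 58,nat_lit 59],[],[],[],[],[],
    [nat_lit 46,nat_lit 60,nat_lit 61]],[[nat_lit 71,nat_lit 74,nat_lit 77,nat_lit 79],[],[],[],[],[],[nat_lit 65,
    nat_lit 68],[nat_lit 64,nat_lit 66,nat_lit 69],[nat_lit 75,nat_lit 76],[nat_lit 67],[nat_lit 63,nat_lit 70,
    nat_lit 73],[],[],[],[],[nat_lit 72,nat_lit 78,nat_lit 80,nat_lit 81]],[[],[nat_lit 90,nat_lit 91,nat_lit 93,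
    nat_lit 97],[],[],[nat_lit 86,nat_lit 88,nat_lit 92],[nat_lit 87,nat_lit 89,nat_lit 96],[nat_lit 82,nat_lit 84],
    [nat_lit 83,nat_lit 85],[nat_lit 94],[nat_lit 95],[],[],[],[],[],[]],[[],[],[],[],[nat_lit 108,nat_lit 110],
    [nat_lit 109,nat_lit 111],[nat_lit 102,nat_lit 106],[nat_lit 103,nat_lit 107],[nat_lit 99],[nat_lit 100],[],
    [nat_lit 98,nat_lit 104,nat_lit 105,nat_lit 112,nat_lit 113],[],[],[nat_lit 101],[]],[[],[],[nat_lit 114],
    [nat_lit 115],[nat_lit 128],[nat_lit 124,nat_lit 125,nat_lit 127],[nat_lit 116],[nat_lit 120],[],[],[],[],[],[],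
    [nat_lit 117,nat_lit 118,nat_lit 121,nat_lit 122,nat_lit 126,nat_lit 129,nat_lit 130],[nat_lit 119,nat_lit 123]],
    [[],[],[nat_lit 131],[nat_lit 132],[nat_lit 139,nat_lit 144],[nat_lit 137,nat_lit 138,nat_lit 140,nat_lit 145,
    nat_lit 146,nat_lit 147],[nat_lit 133],[nat_lit 134],[nat_lit 135,nat_lit 142],[],[nat_lit 136],[],[],[],
    [nat_lit 141,nat_lit 143],[]],[[],[],[nat_lit 149,nat_lit 156],[nat_lit 150,nat_lit 157],[],[],[nat_lit 148,
    nat_lit 152,nat_lit 153,nat_lit 154,nat_lit 155],[],[],[],[],[],[nat_lit 158],[nat_lit 159],[],[nat_lit 151]],[[],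
    [nat_lit 160,nat_lit 162,nat_lit 166,nat_lit 171],[],[],[nat_lit 164,nat_lit 167,nat_lit 168],[],[],[],
    [nat_lit 165],[],[nat_lit 161,nat_lit 163],[],[nat_lit 169],[nat_lit 170],[],[]],[[nat_lit 172],[nat_lit 173],[],
    [],[],[],[],[],[],[],[nat_lit 174],[nat_lit 175],[],[],[],[]],[[nat_lit 176],[nat_lit 177],[],[],[],[],[],[],[],
    [],[nat_lit 178],[nat_lit 179],[],[],[],[]],[[],[],[nat_lit 180],[nat_lit 181],[nat_lit 187,nat_lit 188,
    nat_lit 190,nat_lit 192],[nat_lit 182,nat_lit 189,nat_lit 191],[],[],[],[nat_lit 184,nat_lit 186],[],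
    [nat_lit 183],[],[],[nat_lit 185],[]],[[],[],[nat_lit 193],[nat_lit 194],[],[],[nat_lit 195],[],[nat_lit 196,
    nat_lit 200],[nat_lit 197,nat_lit 198,nat_lit 201,nat_lit 202,nat_lit 203,nat_lit 204,nat_lit 205],[],[],[],[],[],
    [nat_lit 199]]]
    [[[nat_lit 0x1000000000000000000000000000000000000000000000,
    nat_lit 0x1000000000000000000000000000000000000000000000,nat_lit 0x1000000000000000000000000000000000000000000000,
    nat_lit 0x1580000000000000000000000000000000000000000000000,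
    nat_lit 0x1580000000000000000000000000000000000000000000000,nat_lit 0,nat_lit 0,nat_lit 0,
    nat_lit 0x2000000000000000000000000000000000000000000000],
    [nat_lit 0x2000000000000000000000000000000000000000000000,
    nat_lit 0x2000000000000000000000000000000000000000000000,nat_lit 0x2000000000000000000000000000000000000000000000,
    nat_lit 0x20000000000000000000000000000000000000000000000,
    nat_lit 0x8000000000000000000000000000000000000000000000,nat_lit 0x80000000000,nat_lit 0x80000000000,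
    nat_lit 0x80000000000,nat_lit 0x1000000000],[nat_lit 0x4000000000,nat_lit 0x4000000000,nat_lit 0x4000000000,
    nat_lit 0x4000000000,nat_lit 0x8000000000,nat_lit 0x8000000000,nat_lit 0x8000000000,nat_lit 0x8000000000,
    nat_lit 0x40000000000],[nat_lit 0x22000000000,nat_lit 1,nat_lit 0,nat_lit 0x432,nat_lit 0xb04,nat_lit 0x1000,
    nat_lit 0x1000,nat_lit 200,nat_lit 0x2000],[nat_lit 0x341000000000000000000,nat_lit 0x341000000000000000000,
    nat_lit 0x2408000000000000000,nat_lit 0x250000000000000000,nat_lit 0,nat_lit 0,nat_lit 0xa4800000000000000000,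
    nat_lit 0,nat_lit 0x800000000],[nat_lit 0x800000000,nat_lit 0x800000000,nat_lit 0x800000000,nat_lit 0x40000000,
    nat_lit 0x40000000,nat_lit 0x40000000,nat_lit 0,nat_lit 0,nat_lit 0],[nat_lit 0,nat_lit 0,nat_lit 0x80000000,
    nat_lit 0x80000000,nat_lit 0x80000000,nat_lit 0x110000000,nat_lit 0x110000000,nat_lit 0x110000000,
    nat_lit 0x110000000],[nat_lit 0,nat_lit 0,nat_lit 0x8000000000000000000000000,nat_lit 0x8000000000000000000000000,
    nat_lit 0x8000000000000000000000000,nat_lit 0xa000000000000000000000000000,nat_lit 0xa000000000000000000000000000,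
    nat_lit 0,nat_lit 0],[nat_lit 0,nat_lit 0x880000000000000000000000000,nat_lit 0x880000000000000000000000000,
    nat_lit 0x880000000000000000000000000,nat_lit 0x880000000000000000000000000,nat_lit 0x880000000000000000000000000,
    nat_lit 0x880000000000000000000000000,nat_lit 0,nat_lit 0]],[[nat_lit 0,nat_lit 0x9000000000000,
    nat_lit 0x9000000000000,nat_lit 0,nat_lit 0,nat_lit 0x42c0900000000000,nat_lit 0x42c0900000000000,nat_lit 0,
    nat_lit 0],[nat_lit 0,nat_lit 0x32000000000000,nat_lit 0,nat_lit 0,nat_lit 0,nat_lit 0,nat_lit 0,nat_lit 0,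
    nat_lit 0x800000000000000000000000000000000],[nat_lit 0x800000000000000000000000000000000,
    nat_lit 0x800000000000000000000000000000000,nat_lit 0x800000000000000000000000000000000,
    nat_lit 0x2000000000000000000000000000000000,nat_lit 0x2000000000000000000000000000000000,
    nat_lit 0x2000000000000000000000000000000000,nat_lit 0x1000000000000000000000000000000000,
    nat_lit 0x1000000000000000000000000000000000,nat_lit 0x1000000000000000000000000000000000],
    [nat_lit 0x408000000000000000000000000000000000,nat_lit 0x408000000000000000000000000000000000,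
    nat_lit 0xe160000000000000000000000000000000000,nat_lit 0xe160000000000000000000000000000000000,
    nat_lit 0x10000000000000000000000000000000000,nat_lit 0x4000000000000000000000000000000000,
    nat_lit 0x114000000000000000000000,nat_lit 0x22c0000000000000000000000,nat_lit 0x1400000000000000000000],
    [nat_lit 0x1400000000000000000000,nat_lit 0x1400000000000000000000,nat_lit 0x1400000000000000000000,
    nat_lit 0x1400000000000000000000,nat_lit 0x1400000000000000000000,nat_lit 0,nat_lit 0,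
    nat_lit 0x400000000000000000000000,nat_lit 0x1028000000000000000000000],[nat_lit 0x2800000000000000000000,
    nat_lit 0x2800000000000000000000,nat_lit 0x800000000000000000000000,nat_lit 0,nat_lit 0,
    nat_lit 0x1900000000000000000000000000000000000000000,nat_lit 0x8450000000000000000000000000000000000000000,
    nat_lit 0,nat_lit 0],[nat_lit 0,nat_lit 0,nat_lit 0x200000000000000000000000000000000000000000,nat_lit 0,
    nat_lit 0,nat_lit 0,nat_lit 0x4000000000000000000000000000000000000000000,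
    nat_lit 0x4000000000000000000000000000000000000000000,nat_lit 0x4000000000000000000000000000000000000000000],
    [nat_lit 0x4000000000000000000000000000000000000000000,nat_lit 0x4000000000000000000000000000000000000000000,
    nat_lit 0x4000000000000000000000000000000000000000000,nat_lit 0x4000000000000000000000000000000000000000000,
    nat_lit 0x40000000000000000000000000000,nat_lit 0x40000000000000000000000000000,
    nat_lit 0x40000000000000000000000000000,nat_lit 0x40000000000000000000000000000,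
    nat_lit 0x80000000000000000000000000000],[nat_lit 0x80000000000000000000000000000,
    nat_lit 0x80000000000000000000000000000,nat_lit 0x1000000000000000000000000000000,nat_lit 0,nat_lit 0,
    nat_lit 0x646600000000000000000000000000000,nat_lit 0,nat_lit 0,nat_lit 0]],
    [[nat_lit 0x200000000000000000000000000000000000000000000,nat_lit 0x200000000000000000000000000000000000000000000,
    nat_lit 0,nat_lit 0,nat_lit 0,nat_lit 0,nat_lit 0,nat_lit 0,
    nat_lit 0x800000000000000000000000000000000000000000000],[nat_lit 0x100000000000000000000000000000000000000000000,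
    nat_lit 0x1020000000000000000000000000000000000000,nat_lit 0x80000000000000000000000000000000000000,
    nat_lit 0x4000000000000000000000000000000000000000,nat_lit 0,
    nat_lit 0x2000000000000000000000000000000000000000000000000,
    nat_lit 0x80000000000000000000000000000000000000000000000000,nat_lit 0,
    nat_lit 0x3e60000000000000000000000000000000000000000000000000],[nat_lit 0,
    nat_lit 0x20000000000000000000000000000000000000000000,nat_lit 0,
    nat_lit 0x40000000000000000000000000000000000000000000,nat_lit 0x40000000000000000000000000000000000000000000,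
    nat_lit 0x40000000000000000000000000000000000000000000,nat_lit 0x40000000000000000000000000000000000000000000,
    nat_lit 0x40000000000000000000000000000000000000000000,nat_lit 0x40000000000000000000000000000000000000000000],
    [nat_lit 0x40000000000000000000000000000000000000000000,nat_lit 0,nat_lit 0,
    nat_lit 0x10000000000000000000000000000000000000000000,nat_lit 0x22c0000,nat_lit 0x1120000,nat_lit 0,nat_lit 0,
    nat_lit 0],[nat_lit 0x804000,nat_lit 0x804000,nat_lit 0x804000,nat_lit 0x804000,nat_lit 0,nat_lit 0,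
    nat_lit 0x4000000,nat_lit 0x8000000]]]
    [[[[nat_lit 0,nat_lit 0,nat_lit 0,nat_lit 0,nat_lit 0,nat_lit 0,nat_lit 0,nat_lit 0,nat_lit 0],[nat_lit 0,
    nat_lit 0,nat_lit 0,nat_lit 0,nat_lit 0x8000000000000000000000000000000000000000000000,nat_lit 0,nat_lit 0,
    nat_lit 0,nat_lit 0],[nat_lit 0,nat_lit 0,nat_lit 0,nat_lit 0,nat_lit 0,nat_lit 0,nat_lit 0,nat_lit 0x8000000000,
    nat_lit 0x40000000000],[nat_lit 0,nat_lit 0,nat_lit 0,nat_lit 0x400,nat_lit 0,nat_lit 0,nat_lit 0,nat_lit 0,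
    nat_lit 0x2000],[nat_lit 0,nat_lit 0x201000000000000000000,nat_lit 0,nat_lit 0x200000000000000000,nat_lit 0,
    nat_lit 0,nat_lit 0x84800000000000000000,nat_lit 0,nat_lit 0x800000000],[nat_lit 0x800000000,nat_lit 0x800000000,
    nat_lit 0,nat_lit 0x40000000,nat_lit 0,nat_lit 0,nat_lit 0,nat_lit 0,nat_lit 0],[nat_lit 0,nat_lit 0,nat_lit 0,
    nat_lit 0,nat_lit 0,nat_lit 0x100000000,nat_lit 0x100000000,nat_lit 0,nat_lit 0],[nat_lit 0,nat_lit 0,nat_lit 0,
    nat_lit 0,nat_lit 0,nat_lit 0x8000000000000000000000000000,nat_lit 0x8000000000000000000000000000,nat_lit 0,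
    nat_lit 0],[nat_lit 0,nat_lit 0,nat_lit 0,nat_lit 0,nat_lit 0x800000000000000000000000000,
    nat_lit 0x800000000000000000000000000,nat_lit 0x800000000000000000000000000,nat_lit 0,nat_lit 0]],[[nat_lit 0,
    nat_lit 0x9000000000000,nat_lit 0,nat_lit 0,nat_lit 0,nat_lit 0x4040800000000000,nat_lit 0,nat_lit 0,nat_lit 0],
    [nat_lit 0,nat_lit 0,nat_lit 0,nat_lit 0,nat_lit 0,nat_lit 0,nat_lit 0,nat_lit 0,nat_lit 0],
    [nat_lit 0x800000000000000000000000000000000,nat_lit 0x800000000000000000000000000000000,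
    nat_lit 0x800000000000000000000000000000000,nat_lit 0,nat_lit 0,nat_lit 0,nat_lit 0,nat_lit 0,
    nat_lit 0x1000000000000000000000000000000000],[nat_lit 0x8000000000000000000000000000000000,nat_lit 0,nat_lit 0,
    nat_lit 0x20000000000000000000000000000000000,nat_lit 0,nat_lit 0,nat_lit 0x4000000000000000000000,
    nat_lit 0x20c0000000000000000000000,nat_lit 0],[nat_lit 0,nat_lit 0,nat_lit 0,nat_lit 0x400000000000000000000,
    nat_lit 0,nat_lit 0,nat_lit 0,nat_lit 0,nat_lit 0],[nat_lit 0,nat_lit 0x2000000000000000000000,nat_lit 0,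
    nat_lit 0,nat_lit 0,nat_lit 0x800000000000000000000000000000000000000000,
    nat_lit 0x40000000000000000000000000000000000000000,nat_lit 0,nat_lit 0],[nat_lit 0,nat_lit 0,nat_lit 0,nat_lit 0,
    nat_lit 0,nat_lit 0,nat_lit 0,nat_lit 0x4000000000000000000000000000000000000000000,
    nat_lit 0x4000000000000000000000000000000000000000000],[nat_lit 0,nat_lit 0,nat_lit 0,nat_lit 0,nat_lit 0,
    nat_lit 0x40000000000000000000000000000,nat_lit 0,nat_lit 0,nat_lit 0],[nat_lit 0,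
    nat_lit 0x80000000000000000000000000000,nat_lit 0,nat_lit 0,nat_lit 0,nat_lit 0x240000000000000000000000000000000,
    nat_lit 0,nat_lit 0,nat_lit 0]],[[nat_lit 0,nat_lit 0,nat_lit 0,nat_lit 0,nat_lit 0,nat_lit 0,nat_lit 0,nat_lit 0,
    nat_lit 0x800000000000000000000000000000000000000000000],[nat_lit 0,nat_lit 0,nat_lit 0,
    nat_lit 0x4000000000000000000000000000000000000000,nat_lit 0,nat_lit 0,nat_lit 0,nat_lit 0,
    nat_lit 0x3840000000000000000000000000000000000000000000000000],[nat_lit 0,nat_lit 0,nat_lit 0,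
    nat_lit 0x40000000000000000000000000000000000000000000,nat_lit 0x40000000000000000000000000000000000000000000,
    nat_lit 0x40000000000000000000000000000000000000000000,nat_lit 0,
    nat_lit 0x40000000000000000000000000000000000000000000,nat_lit 0],[nat_lit 0,nat_lit 0,nat_lit 0,nat_lit 0,
    nat_lit 0,nat_lit 0,nat_lit 0,nat_lit 0,nat_lit 0],[nat_lit 0,nat_lit 0,nat_lit 0,nat_lit 0,nat_lit 0,nat_lit 0,
    nat_lit 0x4000000,nat_lit 0]]]]
    (nat_lit 1) (nat_lit 2) (nat_lit 18)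
    [[nat_lit 2,nat_lit 3,nat_lit 258,nat_lit 0x1002,nat_lit 0x100002,nat_lit 17,nat_lit 0x1011,nat_lit 257,
    nat_lit 0x1101,nat_lit 0x100101,nat_lit 0x10101,nat_lit 0x1000101,nat_lit 0x1001,nat_lit 0x101001,nat_lit 0x10001,
    nat_lit 0x11001,nat_lit 0x110001,nat_lit 0x10010001,nat_lit 0x10110001,nat_lit 0x100001,nat_lit 0x10000001,
    nat_lit 0x11000001,nat_lit 0x10100001],[nat_lit 32,nat_lit 272,nat_lit 0x1000110,nat_lit 0x1010,nat_lit 0x1001010,
    nat_lit 0x100010,nat_lit 0x10100010,nat_lit 0x1000010,nat_lit 0x2000010],[nat_lit 512,nat_lit 0x1100,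
    nat_lit 0x11100,nat_lit 0x1001100,nat_lit 0x10100,nat_lit 0x20100,nat_lit 0x1010100,nat_lit 0x110100,
    nat_lit 0x10010100,nat_lit 0x10110100,nat_lit 0x100100,nat_lit 0x101100,nat_lit 0x200100,nat_lit 0x1100100,
    nat_lit 0x10100100,nat_lit 0x11100100,nat_lit 0x1000100,nat_lit 0x2000100,nat_lit 0x11000100,nat_lit 0x10000100,
    nat_lit 0x20000100],[nat_lit 0x2000,nat_lit 0x1002000,nat_lit 0x11000,nat_lit 0x1011000,nat_lit 0x10011000,
    nat_lit 0x101000,nat_lit 0x10101000,nat_lit 0x1001000,nat_lit 0x2001000,nat_lit 0x11001000,nat_lit 0x10001000],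
    [nat_lit 0x20000,nat_lit 0x30000,nat_lit 0x120000,nat_lit 0x10120000,nat_lit 0x1020000,nat_lit 0x10020000,
    nat_lit 0x20020000,nat_lit 0x110000,nat_lit 0x10110000,nat_lit 0x210000,nat_lit 0x10210000,nat_lit 0x20110000,
    nat_lit 0x1010000,nat_lit 0x2010000,nat_lit 0x11010000,nat_lit 0x21010000,nat_lit 0x10010000,nat_lit 0x20010000,
    nat_lit 0x30010000],[nat_lit 0x200000,nat_lit 0x10200000,nat_lit 0x11100000,nat_lit 0x10100000,
    nat_lit 0x20100000],[nat_lit 0x2000000,nat_lit 0x3000000,nat_lit 0x12000000,nat_lit 0x11000000,nat_lit 0x21000000,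
    nat_lit 0x22000000],[nat_lit 0x20000000,nat_lit 0x30000000]]
    [.c (nat_lit 1) (nat_lit 2),.c (nat_lit 0) (nat_lit 0x1000030005),.c (nat_lit 0) (nat_lit 0x1000030003),
    .c (nat_lit 0) (nat_lit 0x19ced3358d),.c (nat_lit 0) (nat_lit 0x1004020005),.c (nat_lit 0) (nat_lit 0x210003),
    .c (nat_lit 0) (nat_lit 0x20840210a4),.c (nat_lit 0) (nat_lit 0x1000030003),.c (nat_lit 0) (nat_lit 0xc6521485),
    .c (nat_lit 0) (nat_lit 0x2004050005),.c (nat_lit 0) (nat_lit 0x1000020803),.c (nat_lit 4) (nat_lit 0x28ca91a505),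
    .c (nat_lit 2) (nat_lit 0x28c6401485),.c (nat_lit 0) (nat_lit 0x19c0d0358d),.c (nat_lit 0) (nat_lit 0x1000011005),
    .c (nat_lit 4) (nat_lit 0x28c652a484),.c (nat_lit 2) (nat_lit 0x4811005),.c (nat_lit 0) (nat_lit 0x500003300d),
    .c (nat_lit 4) (nat_lit 0x494e93b504),.c (nat_lit 1) (nat_lit 0x6010004),.c (nat_lit 0) (nat_lit 0x1000010005),
    .c (nat_lit 0) (nat_lit 0xc0010004),.c (nat_lit 2) (nat_lit 0x4810005),.c (nat_lit 2) (nat_lit 2),
    .r (nat_lit 0xdbd) (nat_lit 10) [nat_lit 65,nat_lit 0x1080000002],.c (nat_lit 0) (nat_lit 0x10c0500004),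
    .c (nat_lit 0) (nat_lit 0x20843110a4),.c (nat_lit 0) (nat_lit 0x20040110a4),.c (nat_lit 0) (nat_lit 0x4200005),
    .c (nat_lit 0) (nat_lit 0x6700004),.c (nat_lit 0) (nat_lit 0x10c0500004),.c (nat_lit 1) (nat_lit 0x80220003),
    .c (nat_lit 3) (nat_lit 2),.c (nat_lit 0) (nat_lit 0x18c6519485),.c (nat_lit 0) (nat_lit 0x19ced3818d),
    .c (nat_lit 2) (nat_lit 0x4c110a4),.c (nat_lit 0) (nat_lit 0x1000001807),.c (nat_lit 0) (nat_lit 0x2000003007),
    .c (nat_lit 0) (nat_lit 0x19c000340c),.c (nat_lit 0) (nat_lit 0x1004001005),.c (nat_lit 0) (nat_lit 0x2000001807),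
    .c (nat_lit 0) (nat_lit 0x500c00300d),.c (nat_lit 0) (nat_lit 0x100c00000d),.c (nat_lit 0) (nat_lit 0x29c0d3b58d),
    .c (nat_lit 0) (nat_lit 0x100c000007),.c (nat_lit 4) (nat_lit 0x28c692a505),.c (nat_lit 0) (nat_lit 0x1004000005),
    .c (nat_lit 2) (nat_lit 0x28c6800004),.r (nat_lit 0xdb2) (nat_lit 10) [nat_lit 0x1080000002,nat_lit 0x1808200082],
    .c (nat_lit 2) (nat_lit 0x18c0800002),.c (nat_lit 0) (nat_lit 0x19c000000c),.c (nat_lit 0) (nat_lit 0x1000000007),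
    .c (nat_lit 0) (nat_lit 0x2000000007),.c (nat_lit 4) (nat_lit 2),.c (nat_lit 0) (nat_lit 0x21444110ac),
    .c (nat_lit 0) (nat_lit 0x19ced3818d),.c (nat_lit 0) (nat_lit 0x2a4651c48c),
    .r (nat_lit 0xdb2) (nat_lit 10) [nat_lit 0x1080000002,nat_lit 0x18c00010a2],.c (nat_lit 2) (nat_lit 0x28c0419485),
    .c (nat_lit 4) (nat_lit 0x28ca519484),.c (nat_lit 0) (nat_lit 0x21444110ac),.c (nat_lit 0) (nat_lit 0x21444110a6),
    .c (nat_lit 0) (nat_lit 0x2a4651948c),.c (nat_lit 0) (nat_lit 0x19ced3b58d),.c (nat_lit 5) (nat_lit 2),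
    .c (nat_lit 4) (nat_lit 0x28c651ac82),.c (nat_lit 0) (nat_lit 0x500c00600d),
    .r (nat_lit 0xdb2) (nat_lit 10) [nat_lit 0x1080000002,nat_lit 0x400882400a2],.c (nat_lit 0) (nat_lit 0xc0000c04),
    .c (nat_lit 4) (nat_lit 0x28c651a482),.r (nat_lit 0xdbd) (nat_lit 10) [nat_lit 0x20004020061,
    nat_lit 0x1080000002],.c (nat_lit 0) (nat_lit 0x1004001005),.c (nat_lit 0) (nat_lit 0x500c00300d),
    .c (nat_lit 2) (nat_lit 0x4400803),.c (nat_lit 4) (nat_lit 0x28ca519c82),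
    .r (nat_lit 0xdb2) (nat_lit 10) [nat_lit 0x1080000002,nat_lit 0x400882200a2],.c (nat_lit 0) (nat_lit 0xc0000c04),
    .c (nat_lit 0) (nat_lit 0xc0000c02),.c (nat_lit 0) (nat_lit 0xc0000804),.c (nat_lit 0) (nat_lit 0xc0001804),
    .c (nat_lit 2) (nat_lit 0x400803),.c (nat_lit 4) (nat_lit 0x28c6519c82),
    .r (nat_lit 0xdbd) (nat_lit 10) [nat_lit 0x20004010061,nat_lit 0x1080000002],.c (nat_lit 6) (nat_lit 2),
    .c (nat_lit 2) (nat_lit 0x4400003),.c (nat_lit 0) (nat_lit 0xc4000004),.c (nat_lit 0) (nat_lit 0x1004000005),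
    .c (nat_lit 0) (nat_lit 0x500c00000d),.c (nat_lit 7) (nat_lit 2),.c (nat_lit 0) (nat_lit 0x1c0001c04),
    .c (nat_lit 0) (nat_lit 0xc0000002),.c (nat_lit 0) (nat_lit 0xc0000002),.c (nat_lit 0) (nat_lit 0x140000002),
    .c (nat_lit 0) (nat_lit 0x140000002),.c (nat_lit 8) (nat_lit 2),.c (nat_lit 4) (nat_lit 0x28c6519482)]]

/-- nodes -/
noncomputable def rD8k_6_3 : List RJ :=
  [.l (nat_lit 15) (nat_lit 0x1478) (nat_lit 4) (nat_lit 0x10da00000cb400000b8800000d1600000c4200000c4a00000d3e00000ae400000bea00000b1a00000b0400000d2a00000abc00000abe00000c9800000c10) (nat_lit 0x42600000000000003c4000005520000049000000498000005f60000039c000005c0000004f0000003b0000005d60000061c0000061e000004ca00000442)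
    (nat_lit 0xa3c436868b0b9218941c6820c0d3e182c2fa85e4053419cc36786080c980830147847307621080169035f0b42111c2188513057c0db41e483f009c60ec42e4851e0aac099c1be827a07d00e541a6036e04180830112072a070411cc34584e60a3c110c21f8390097a115c2098312063e08301be06ba06240b481c6843f06fa0f641cc032608a60f081d48449051411ac25983bc0ae21080312844304ce0f741ec828c08ae0ac413404d0041816242e883c009e6168434f84bd07d0115c22984e909a213b4262820c08900a88186843a04180d7c106039004f40a3019303e809d20d0c17d039a068e0830131830d06a210c42fa8413069809a01d482fa098a0954106041d04b20b9c17306f60858111c3058457072a0ac41e1034309da09f412a8371054409fc1060610068c0af814d031f04180830145034708900a8812c841c058e0a6815b829f06c2144c2f2031206dc1340224839a04180dc420e84eb08380fbc1c302bf096c0f24367837c044817442598263061a08301730386056e083811083aa05aa0db4339820c04181624235820c054409fc17383ef0534094410702fa067c138c3260312070413cc2b8835104180d1821604b606c20cf816a82d308560fc030406ba0e540f001de030d0874184037b02bf053e0be81d503a305a6)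
    (nat_lit 0xa3c51e0a3c147828f051e0a3c147828f051e0a3c147828f051e0a3c147821b41478a3c147828f051e0a3c147828f051e0a3c147828f051e0a3c14781a2c239851e147828f051e0a3c147828f051e0a3c147828f051e0a3c147817241d885560a3c28f051e0a3c147828f051e0a3c147828f051e0a3c14781894210026708860f6451e0a3c147828f051e0a3c147828f051e0a3c14780e34169037d087e0e601ec8a3c147828f051e0a3c147828f051e0a3c147808301af827a07200c9814604e9147828f051e0a3c147828f051e0a3c14781a7c2d083e8097a114c22b84d109d228f051e0a3c147828f051e0a3c1478182c223839508ae0f0815884ed0686095451e0a3c147828f051e0a3c147817d4218834c08260ea413404c505f4083012a8a3c147828f051e0a3c14781060289836e0624112424c020c073410741b8841c147828f051e0a3c14780a6815f020c063e0a281060448068e096415102c7083828f051e0a3c147812b81b6820c041811ac23982a204180b9c13f829a07de083851e0a3c147814641e4822406f812cc23a030d04c60b9810602b7070c08841070a3c147815641f804cb0b620ef01e0043a061a1460283029f057e0ea817d02d3147810602718382062414c824c020c06a210b01a30361096c0b5419f042b05a6)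
    (nat_lit 7) (nat_lit 169)
    [[nat_lit 2,nat_lit 3,nat_lit 18,nat_lit 258,nat_lit 0x10002,nat_lit 0x1000002,nat_lit 17,nat_lit 33,
    nat_lit 0x10021,nat_lit 0x1011,nat_lit 0x10011,nat_lit 0x1000011,nat_lit 0x1000021,nat_lit 49,nat_lit 273,
    nat_lit 0x11011,nat_lit 257,nat_lit 0x1101,nat_lit 0x10101,nat_lit 0x10111,nat_lit 0x1010101,nat_lit 0x1000101,
    nat_lit 0x110101,nat_lit 0x1000111,nat_lit 0x10010101,nat_lit 0x10001,nat_lit 0x20001,nat_lit 0x1010001,
    nat_lit 0x20002,nat_lit 0x20011,nat_lit 0x100001,nat_lit 0x101001,nat_lit 0x110001,nat_lit 0x1100001,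
    nat_lit 0x10010001],[nat_lit 32,nat_lit 48,nat_lit 64,nat_lit 0x1030,nat_lit 0x10030,nat_lit 0x1000030,
    nat_lit 288,nat_lit 0x10120,nat_lit 0x1000120,nat_lit 0x1020,nat_lit 0x2020,nat_lit 0x10020,nat_lit 0x11020,
    nat_lit 0x1000020,nat_lit 0x1001020,nat_lit 0x1010020,nat_lit 272,nat_lit 0x1110,nat_lit 0x2110,nat_lit 0x10110,
    nat_lit 0x11110,nat_lit 0x1000110,nat_lit 0x1010,nat_lit 0x2010,nat_lit 0x3010,nat_lit 0x11010,nat_lit 0x1001010,
    nat_lit 0x1001110,nat_lit 0x101010,nat_lit 0x10010,nat_lit 0x20020,nat_lit 0x12010,nat_lit 0x20010,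
    nat_lit 0x110010,nat_lit 0x1010010,nat_lit 0x10010010,nat_lit 0x1010110,nat_lit 0x100110,nat_lit 0x1000010,
    nat_lit 0x2000020,nat_lit 0x2000010,nat_lit 0x2000110,nat_lit 0x1002010,nat_lit 0x1101010,nat_lit 0x1100010,
    nat_lit 0x10000110],[nat_lit 512,nat_lit 0x1200,nat_lit 0x10200,nat_lit 0x1000200,nat_lit 0x100200,nat_lit 0x1100,
    nat_lit 0x2100,nat_lit 0x101100,nat_lit 0x1001100,nat_lit 0x10100,nat_lit 0x11100,nat_lit 0x12100,
    nat_lit 0x110100,nat_lit 0x10110100,nat_lit 0x1010100,nat_lit 0x10010100,nat_lit 0x20010100,nat_lit 0x100100,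
    nat_lit 0x200100,nat_lit 0x1100100,nat_lit 0x1000100,nat_lit 0x11000100,nat_lit 0x10000100],[nat_lit 0x2000,
    nat_lit 0x3000,nat_lit 0x4000,nat_lit 0x102000,nat_lit 0x1002000,nat_lit 0x11000,nat_lit 0x111000,
    nat_lit 0x101000,nat_lit 0x201000,nat_lit 0x1001000],[nat_lit 0x20000,nat_lit 0x110000,nat_lit 0x1010000,
    nat_lit 0x10010000,nat_lit 0x10110000],[nat_lit 0x200000,nat_lit 0x1100000,nat_lit 0x10100000],[],
    [nat_lit 0x20000000,nat_lit 0x30000000]]
    [.c (nat_lit 1) (nat_lit 2),.c (nat_lit 0) (nat_lit 0x6000000600002),.c (nat_lit 0) (nat_lit 0x6000000600002),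
    .c (nat_lit 0) (nat_lit 0xe081020c18386),.c (nat_lit 1) (nat_lit 0x8001800000006),
    .c (nat_lit 0) (nat_lit 0x60c0000000006),.c (nat_lit 0) (nat_lit 0x6000000600002),
    .c (nat_lit 0) (nat_lit 0xa000000a00002),.c (nat_lit 0) (nat_lit 0x12001801a00006),
    .c (nat_lit 0) (nat_lit 0x12000030e00006),.c (nat_lit 0) (nat_lit 0x6001800e00006),
    .c (nat_lit 0) (nat_lit 0x120c0000e00006),.c (nat_lit 0) (nat_lit 0x1e0c0001a00006),
    .c (nat_lit 0) (nat_lit 0xe000000e00002),.c (nat_lit 2) (nat_lit 0x81021818386),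
    .c (nat_lit 0) (nat_lit 0xa001830e00006),.c (nat_lit 0) (nat_lit 0xc1831a1c307),
    .c (nat_lit 5) (nat_lit 0xc1000e1c307),.c (nat_lit 0) (nat_lit 0x6080020c18386),
    .c (nat_lit 0) (nat_lit 0x12080020018386),.c (nat_lit 0) (nat_lit 0xa000020c18386),
    .c (nat_lit 5) (nat_lit 0x1030e1c307),.c (nat_lit 1) (nat_lit 0x8080020c00386),
    .c (nat_lit 0) (nat_lit 0x1e3c387564c918),.c (nat_lit 1) (nat_lit 0x8080020c18386),
    .c (nat_lit 0) (nat_lit 0x6001800e00006),.c (nat_lit 0) (nat_lit 0x6002801600006),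
    .c (nat_lit 1) (nat_lit 0x40c1800000006),.c (nat_lit 1) (nat_lit 0x10002800000006),
    .c (nat_lit 0) (nat_lit 0x4002800e00006),.c (nat_lit 5) (nat_lit 0x600200001c006),
    .c (nat_lit 0) (nat_lit 0x6000030e1c006),.c (nat_lit 0) (nat_lit 0x6001801a1c006),
    .c (nat_lit 0) (nat_lit 0x60c0000e1c006),.c (nat_lit 0) (nat_lit 0x6001801a00006),.c (nat_lit 2) (nat_lit 2),
    .c (nat_lit 0) (nat_lit 0xe1c387564c908),.c (nat_lit 0) (nat_lit 0x60c1831e1c302),
    .c (nat_lit 0) (nat_lit 0x162c58f867cf0c),.c (nat_lit 0) (nat_lit 0x1800a00006),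
    .c (nat_lit 0) (nat_lit 0x163c58b867cf0c),.c (nat_lit 0) (nat_lit 0x60c1831e1c304),
    .c (nat_lit 0) (nat_lit 0x60c283261c306),.c (nat_lit 0) (nat_lit 0x1e5c78fb6ad518),
    .c (nat_lit 0) (nat_lit 0x1e3c797b6ad518),.c (nat_lit 0) (nat_lit 0xa142893234606),
    .c (nat_lit 0) (nat_lit 0x1800a00006),.c (nat_lit 0) (nat_lit 0x1830600006),
    .c (nat_lit 0) (nat_lit 0x1e5c78fb6ad518),.c (nat_lit 0) (nat_lit 0xa1c2873234606),
    .c (nat_lit 0) (nat_lit 0xc1800600006),.r (nat_lit 0xdb8) (nat_lit 11) [nat_lit 0x200001000000003,nat_lit 257],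
    .c (nat_lit 5) (nat_lit 0x60c300001c307),.c (nat_lit 0) (nat_lit 0x162c59b6e7cf18),
    .c (nat_lit 0) (nat_lit 0x60c5833e1c318),.c (nat_lit 2) (nat_lit 0x4080001818386),
    .c (nat_lit 5) (nat_lit 0x600303001c307),.c (nat_lit 5) (nat_lit 0x2020c00007),
    .c (nat_lit 0) (nat_lit 0x162c59b6e7cf18),.c (nat_lit 2) (nat_lit 0x30400002),
    .c (nat_lit 0) (nat_lit 0x1830600006),.c (nat_lit 0) (nat_lit 0x164c5936e7cf18),
    .c (nat_lit 0) (nat_lit 0x164c5936e7cf18),.c (nat_lit 0) (nat_lit 0x30a1c006),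
    .c (nat_lit 0) (nat_lit 0x1800a00006),.c (nat_lit 0) (nat_lit 0x2801200006),.c (nat_lit 0) (nat_lit 0x1850000006),
    .c (nat_lit 0) (nat_lit 0x2801200006),.c (nat_lit 1) (nat_lit 0x8001800e1c006),
    .c (nat_lit 0) (nat_lit 0xc1800600006),.c (nat_lit 1) (nat_lit 0x8001800e00006),
    .c (nat_lit 2) (nat_lit 0x4000021818386),.c (nat_lit 5) (nat_lit 0x60c1030000307),
    .c (nat_lit 5) (nat_lit 0x82000c00007),.c (nat_lit 0) (nat_lit 0xa242853234606),
    .c (nat_lit 0) (nat_lit 0x166c58b6e7cf18),.c (nat_lit 0) (nat_lit 0x166c58b6e7cf18),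
    .c (nat_lit 2) (nat_lit 0xc0050c00006),.c (nat_lit 0) (nat_lit 0xc003061c006),
    .c (nat_lit 0) (nat_lit 0xc0000a1c006),.c (nat_lit 5) (nat_lit 0x60c103001c307),.c (nat_lit 3) (nat_lit 2),
    .c (nat_lit 0) (nat_lit 0xa142831a18607),.c (nat_lit 0) (nat_lit 0xa141851a00607),
    .c (nat_lit 0) (nat_lit 0xa0c2851a18607),.c (nat_lit 0) (nat_lit 0xa142851a10607),
    .c (nat_lit 0) (nat_lit 0x60c1800e10307),.c (nat_lit 0) (nat_lit 0x60c1820e18307),
    .c (nat_lit 1) (nat_lit 0x40c1800e00307),.c (nat_lit 0) (nat_lit 0x6001800e18307),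
    .c (nat_lit 1) (nat_lit 0x40c0030e1c307),.c (nat_lit 0) (nat_lit 0x60c0000e00307),
    .c (nat_lit 5) (nat_lit 0x60c2020e1c307),.c (nat_lit 0) (nat_lit 0x162c18b3e1cf19),
    .c (nat_lit 5) (nat_lit 0x4082020c00386),.c (nat_lit 0) (nat_lit 0x6000030e00307),
    .c (nat_lit 0) (nat_lit 0x162c18b3e7cf19),.c (nat_lit 5) (nat_lit 0x4082020c18386),
    .c (nat_lit 0) (nat_lit 0x60c1830e08309),.c (nat_lit 0) (nat_lit 0x60c1830e08305),
    .c (nat_lit 1) (nat_lit 0x4001830e00307),.c (nat_lit 0) (nat_lit 0x6001830e10307),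
    .c (nat_lit 1) (nat_lit 0x4001830e1c307),.c (nat_lit 0) (nat_lit 0x60c1830e1c309),.c (nat_lit 4) (nat_lit 2),
    .c (nat_lit 0) (nat_lit 0x20008003),.c (nat_lit 5) (nat_lit 0x2080000007),.c (nat_lit 0) (nat_lit 0x20008003),
    .c (nat_lit 0) (nat_lit 0x80040018007),.c (nat_lit 0) (nat_lit 0x1040000007),
    .c (nat_lit 5) (nat_lit 0x103001c006),.c (nat_lit 0) (nat_lit 0x20008003),
    .c (nat_lit 0) (nat_lit 0x162c5833e48f19),.c (nat_lit 1) (nat_lit 0x8080020000007),.c (nat_lit 5) (nat_lit 2),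
    .c (nat_lit 0) (nat_lit 0x162c18b3e1cf19),.c (nat_lit 0) (nat_lit 0x10100000000d),
    .c (nat_lit 0) (nat_lit 0x162c18b3e7cf19),.c (nat_lit 5) (nat_lit 0x100000c002),.c (nat_lit 6) (nat_lit 2),
    .c (nat_lit 0) (nat_lit 0x80000008007),.c (nat_lit 2) (nat_lit 0x808003),.c (nat_lit 8) (nat_lit 2),
    .c (nat_lit 0) (nat_lit 0xe1c387264c909)]]

/-- nodes -/
noncomputable def rD8k_6_4 : List RJ :=
  [.s (nat_lit 14) (nat_lit 0x960) (nat_lit 4) (nat_lit 0x49a0000049a000004800000048000000456000004560000040e0000040e00000441000004410000040e0000040e00000499000004990000058a0000058a) (nat_lit 0xf0000000f00000010a0000010a00000134000001340000017c0000017c00000149000001490000017c0000017c000000f1000000f10000000000000000)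
    (nat_lit 0xea83aa0e403600d982aa0c7831e0d443510c7831e164c513126849a0ea83aa0c803900d983660c782e20c743510c7831e10a43a913284ca0e403600dd83760e203bc0c103040cdc3370c103380d7c38f12004000c803900dd83760d3034c0c103040cdc3370c103040e3c38f14f04bc0d982aa0d303bc0c883220b682da0c3430d0b682da0ca436511584560d983660d303880c883220b682da0cbc3630a982da0c3c36511583880b8831e0c103040b682da08f02920b142c50a482700fac35110384640c7831e0c103040b682da0a4823c0c242c50a0025e0e7439510384520d443510cdc3370d8c30d0b142c50cb02f809342810c3036211043c10c743510cdc3370cbc30d0c242c50be032c0aac2c50d4032e11044050c7831e0c103380b682da09782700b142810ad02920d64337103840e0c7831e0c103040a982da0a002920aac24d0b582b40dec31d0a904300ea45130e3c38f0d943650e543510cb83620c743370e18364126443b10a45930e3c35f0c3c3290e743eb0d4030c0dec3590ea03861264499132849a12f04000e20456114846410143c110c040e126443b0e8058a132849a14f04801158456103840e11044410a9040e126449916283a0)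
    (nat_lit 0xea896025809602580960258096025809602580960258096025809600ea83aa25809602580960258096025809602580960258096025809600e403200dd89602580960258096025809602580960258096025809600d803900dd83762580960258096025809602580960258096025809600d983660e2034c0c88960258096025809602580960258096025809600aa83660ef034c0c88322258096025809602580960258096025809600c7831e0c103040b682da08f096025809602580960258096025809600c782e20c103040b682da0a4823c25809602580960258096025809600d4431d0cdc3370c3432f0b143090cb09602580960258096025809600d443510cdc3370c343630b142c50be032c2580960258096025809600c7831e0c103040b682a60a4828009342ab0ad0960258096025809600c7831e0ce03040b682da09c025e0a042c50a482b425809602580960164c4290d7c38f0ca430f0fac39d0c303500d6437b0e189602580960144c3a90e3c38f0d943650d443950d8832e0cdc31d0d90386258096012684ca120053c1158456103840e110444110382a412644990e8096012684ca10004bc115838811904520f04405103843010ec49916283a0)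
    (nat_lit 6) (nat_lit 49)
    [[nat_lit 0,nat_lit 5,nat_lit 6],[nat_lit 0,nat_lit 5,nat_lit 7],[nat_lit 0,nat_lit 7,nat_lit 5],[nat_lit 0,
    nat_lit 7,nat_lit 8],[nat_lit 0,nat_lit 8,nat_lit 7],[nat_lit 0,nat_lit 12],[nat_lit 0,nat_lit 13],[nat_lit 1,
    nat_lit 4,nat_lit 6],[nat_lit 1,nat_lit 6,nat_lit 4],[nat_lit 1,nat_lit 6,nat_lit 9],[nat_lit 1,nat_lit 7,
    nat_lit 4],[nat_lit 1,nat_lit 9,nat_lit 6],[nat_lit 1,nat_lit 12],[nat_lit 1,nat_lit 13],[nat_lit 2,nat_lit 4,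
    nat_lit 4],[nat_lit 2,nat_lit 4,nat_lit 8],[nat_lit 2,nat_lit 4,nat_lit 9],[nat_lit 2,nat_lit 5,nat_lit 4],
    [nat_lit 2,nat_lit 5,nat_lit 9],[nat_lit 2,nat_lit 8,nat_lit 8],[nat_lit 2,nat_lit 9,nat_lit 4],[nat_lit 2,
    nat_lit 9,nat_lit 8],[nat_lit 2,nat_lit 9,nat_lit 9],[nat_lit 2,nat_lit 14],[nat_lit 2,nat_lit 15],[nat_lit 3,
    nat_lit 5,nat_lit 4],[nat_lit 3,nat_lit 5,nat_lit 5],[nat_lit 3,nat_lit 5,nat_lit 8],[nat_lit 3,nat_lit 8,
    nat_lit 4],[nat_lit 3,nat_lit 8,nat_lit 5],[nat_lit 3,nat_lit 8,nat_lit 8],[nat_lit 3,nat_lit 9,nat_lit 5],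
    [nat_lit 3,nat_lit 9,nat_lit 8],[nat_lit 3,nat_lit 9,nat_lit 9],[nat_lit 3,nat_lit 14],[nat_lit 3,nat_lit 15],
    [nat_lit 4,nat_lit 6,nat_lit 11,nat_lit 5],[nat_lit 4,nat_lit 10,nat_lit 5,nat_lit 6],[nat_lit 4,nat_lit 10,
    nat_lit 5,nat_lit 7],[nat_lit 4,nat_lit 10,nat_lit 6,nat_lit 9],[nat_lit 4,nat_lit 10,nat_lit 7,nat_lit 5],
    [nat_lit 4,nat_lit 10,nat_lit 9,nat_lit 7],[nat_lit 4,nat_lit 10,nat_lit 13],[nat_lit 4,nat_lit 11,nat_lit 5,
    nat_lit 6],[nat_lit 4,nat_lit 11,nat_lit 5,nat_lit 7],[nat_lit 4,nat_lit 11,nat_lit 13],[nat_lit 4,nat_lit 12,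
    nat_lit 10],[nat_lit 4,nat_lit 12,nat_lit 11],[nat_lit 4,nat_lit 13,nat_lit 10],[nat_lit 5,nat_lit 6,nat_lit 8,
    nat_lit 11],[nat_lit 5,nat_lit 8,nat_lit 7,nat_lit 11],[nat_lit 5,nat_lit 10,nat_lit 13],[nat_lit 5,nat_lit 11,
    nat_lit 12],[nat_lit 5,nat_lit 11,nat_lit 13],[nat_lit 5,nat_lit 12,nat_lit 10],[nat_lit 5,nat_lit 12,nat_lit 11],
    [nat_lit 6,nat_lit 8,nat_lit 9,nat_lit 10],[nat_lit 6,nat_lit 10,nat_lit 14],[nat_lit 6,nat_lit 11,nat_lit 14],
    [nat_lit 6,nat_lit 15,nat_lit 10],[nat_lit 7,nat_lit 11,nat_lit 8,nat_lit 9],[nat_lit 7,nat_lit 11,nat_lit 14],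
    [nat_lit 7,nat_lit 15,nat_lit 10],[nat_lit 7,nat_lit 15,nat_lit 11],[nat_lit 8,nat_lit 10,nat_lit 12],[nat_lit 8,
    nat_lit 10,nat_lit 13],[nat_lit 8,nat_lit 11,nat_lit 12],[nat_lit 8,nat_lit 11,nat_lit 13],[nat_lit 8,nat_lit 12,
    nat_lit 10],[nat_lit 8,nat_lit 12,nat_lit 11],[nat_lit 9,nat_lit 10,nat_lit 13],[nat_lit 9,nat_lit 11,nat_lit 13],
    [nat_lit 9,nat_lit 12,nat_lit 10],[nat_lit 9,nat_lit 12,nat_lit 11],[nat_lit 9,nat_lit 13,nat_lit 10],[nat_lit 9,
    nat_lit 13,nat_lit 11],[nat_lit 10,nat_lit 10,nat_lit 10],[nat_lit 11,nat_lit 11,nat_lit 11]]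
    [nat_lit 0x1056,nat_lit 0x1057,nat_lit 0x1075,nat_lit 0x1078,nat_lit 0x1087,nat_lit 268,nat_lit 269,
    nat_lit 0x1146,nat_lit 0x1164,nat_lit 0x1169,nat_lit 0x1174,nat_lit 0x1196,nat_lit 284,nat_lit 285,nat_lit 0x1244,
    nat_lit 0x1248,nat_lit 0x1249,nat_lit 0x1254,nat_lit 0x1259,nat_lit 0x1288,nat_lit 0x1294,nat_lit 0x1298,
    nat_lit 0x1299,nat_lit 302,nat_lit 303,nat_lit 0x1354,nat_lit 0x1355,nat_lit 0x1358,nat_lit 0x1384,nat_lit 0x1385,
    nat_lit 0x1388,nat_lit 0x1395,nat_lit 0x1398,nat_lit 0x1399,nat_lit 318,nat_lit 319,nat_lit 0x146b5,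
    nat_lit 0x14a56,nat_lit 0x14a57,nat_lit 0x14a69,nat_lit 0x14a75,nat_lit 0x14a97,nat_lit 0x14ad,nat_lit 0x14b56,
    nat_lit 0x14b57,nat_lit 0x14bd,nat_lit 0x14ca,nat_lit 0x14cb,nat_lit 0x14da,nat_lit 0x1568b,nat_lit 0x1587b,
    nat_lit 0x15ad,nat_lit 0x15bc,nat_lit 0x15bd,nat_lit 0x15ca,nat_lit 0x15cb,nat_lit 0x1689a,nat_lit 0x16ae,
    nat_lit 0x16be,nat_lit 0x16fa,nat_lit 0x17b89,nat_lit 0x17be,nat_lit 0x17fa,nat_lit 0x17fb,nat_lit 0x18ac,
    nat_lit 0x18ad,nat_lit 0x18bc,nat_lit 0x18bd,nat_lit 0x18ca,nat_lit 0x18cb,nat_lit 0x19ad,nat_lit 0x19bd,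
    nat_lit 0x19ca,nat_lit 0x19cb,nat_lit 0x19da,nat_lit 0x19db,nat_lit 0x1aaa,nat_lit 0x1bbb]
    [[[nat_lit 0,nat_lit 5,nat_lit 6],[nat_lit 0,nat_lit 5,nat_lit 7],[nat_lit 0,nat_lit 7,nat_lit 5],[nat_lit 0,
    nat_lit 7,nat_lit 8],[nat_lit 0,nat_lit 8,nat_lit 7],[nat_lit 0,nat_lit 12],[nat_lit 0,nat_lit 13],[nat_lit 1,
    nat_lit 4,nat_lit 6],[nat_lit 1,nat_lit 6,nat_lit 4],[nat_lit 1,nat_lit 6,nat_lit 9],[nat_lit 1,nat_lit 7,
    nat_lit 4],[nat_lit 1,nat_lit 9,nat_lit 6]],[[nat_lit 1,nat_lit 12],[nat_lit 1,nat_lit 13],[nat_lit 2,nat_lit 4,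
    nat_lit 4],[nat_lit 2,nat_lit 4,nat_lit 8],[nat_lit 2,nat_lit 4,nat_lit 9],[nat_lit 2,nat_lit 5,nat_lit 4],
    [nat_lit 2,nat_lit 5,nat_lit 9],[nat_lit 2,nat_lit 8,nat_lit 8],[nat_lit 2,nat_lit 9,nat_lit 4],[nat_lit 2,
    nat_lit 9,nat_lit 8],[nat_lit 2,nat_lit 9,nat_lit 9],[nat_lit 2,nat_lit 14]],[[nat_lit 2,nat_lit 15],[nat_lit 3,
    nat_lit 5,nat_lit 4],[nat_lit 3,nat_lit 5,nat_lit 5],[nat_lit 3,nat_lit 5,nat_lit 8],[nat_lit 3,nat_lit 8,
    nat_lit 4],[nat_lit 3,nat_lit 8,nat_lit 5],[nat_lit 3,nat_lit 8,nat_lit 8],[nat_lit 3,nat_lit 9,nat_lit 5],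
    [nat_lit 3,nat_lit 9,nat_lit 8],[nat_lit 3,nat_lit 9,nat_lit 9],[nat_lit 3,nat_lit 14],[nat_lit 3,nat_lit 15]],
    [[nat_lit 4,nat_lit 1,nat_lit 6],[nat_lit 4,nat_lit 1,nat_lit 7],[nat_lit 4,nat_lit 2,nat_lit 4],[nat_lit 4,
    nat_lit 2,nat_lit 5],[nat_lit 4,nat_lit 2,nat_lit 9],[nat_lit 4,nat_lit 3,nat_lit 5],[nat_lit 4,nat_lit 3,
    nat_lit 8],[nat_lit 4,nat_lit 4,nat_lit 2],[nat_lit 4,nat_lit 6,nat_lit 1],[nat_lit 4,nat_lit 6,nat_lit 11,
    nat_lit 5],[nat_lit 4,nat_lit 8,nat_lit 2],[nat_lit 4,nat_lit 9,nat_lit 2]],[[nat_lit 4,nat_lit 10,nat_lit 5,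
    nat_lit 6],[nat_lit 4,nat_lit 10,nat_lit 5,nat_lit 7],[nat_lit 4,nat_lit 10,nat_lit 6,nat_lit 9],[nat_lit 4,
    nat_lit 10,nat_lit 7,nat_lit 5],[nat_lit 4,nat_lit 10,nat_lit 9,nat_lit 7],[nat_lit 4,nat_lit 10,nat_lit 13],
    [nat_lit 4,nat_lit 11,nat_lit 5,nat_lit 6],[nat_lit 4,nat_lit 11,nat_lit 5,nat_lit 7],[nat_lit 4,nat_lit 11,
    nat_lit 13],[nat_lit 4,nat_lit 12,nat_lit 10],[nat_lit 4,nat_lit 12,nat_lit 11],[nat_lit 4,nat_lit 13,
    nat_lit 10]],[[nat_lit 5,nat_lit 0,nat_lit 7],[nat_lit 5,nat_lit 3,nat_lit 5],[nat_lit 5,nat_lit 3,nat_lit 8],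
    [nat_lit 5,nat_lit 3,nat_lit 9],[nat_lit 5,nat_lit 4,nat_lit 2],[nat_lit 5,nat_lit 4,nat_lit 3],[nat_lit 5,
    nat_lit 4,nat_lit 6,nat_lit 11],[nat_lit 5,nat_lit 4,nat_lit 10,nat_lit 7],[nat_lit 5,nat_lit 5,nat_lit 3],
    [nat_lit 5,nat_lit 6,nat_lit 0],[nat_lit 5,nat_lit 6,nat_lit 4,nat_lit 10],[nat_lit 5,nat_lit 6,nat_lit 4,
    nat_lit 11]],[[nat_lit 5,nat_lit 6,nat_lit 8,nat_lit 11],[nat_lit 5,nat_lit 7,nat_lit 0],[nat_lit 5,nat_lit 7,
    nat_lit 4,nat_lit 10],[nat_lit 5,nat_lit 7,nat_lit 4,nat_lit 11],[nat_lit 5,nat_lit 8,nat_lit 3],[nat_lit 5,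
    nat_lit 8,nat_lit 7,nat_lit 11],[nat_lit 5,nat_lit 9,nat_lit 2],[nat_lit 5,nat_lit 10,nat_lit 13],[nat_lit 5,
    nat_lit 11,nat_lit 12],[nat_lit 5,nat_lit 11,nat_lit 13],[nat_lit 5,nat_lit 12,nat_lit 10],[nat_lit 5,nat_lit 12,
    nat_lit 11]],[[nat_lit 6,nat_lit 0,nat_lit 5],[nat_lit 6,nat_lit 1,nat_lit 4],[nat_lit 6,nat_lit 1,nat_lit 9],
    [nat_lit 6,nat_lit 4,nat_lit 1],[nat_lit 6,nat_lit 4,nat_lit 10,nat_lit 5],[nat_lit 6,nat_lit 4,nat_lit 11,
    nat_lit 5],[nat_lit 6,nat_lit 8,nat_lit 9,nat_lit 10],[nat_lit 6,nat_lit 8,nat_lit 11,nat_lit 5],[nat_lit 6,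
    nat_lit 9,nat_lit 1],[nat_lit 6,nat_lit 9,nat_lit 4,nat_lit 10],[nat_lit 6,nat_lit 10,nat_lit 14],[nat_lit 6,
    nat_lit 11,nat_lit 5,nat_lit 4]],[[nat_lit 6,nat_lit 11,nat_lit 14],[nat_lit 6,nat_lit 15,nat_lit 10],[nat_lit 7,
    nat_lit 0,nat_lit 5],[nat_lit 7,nat_lit 0,nat_lit 8],[nat_lit 7,nat_lit 4,nat_lit 1],[nat_lit 7,nat_lit 4,
    nat_lit 10,nat_lit 5],[nat_lit 7,nat_lit 4,nat_lit 10,nat_lit 9],[nat_lit 7,nat_lit 4,nat_lit 11,nat_lit 5],
    [nat_lit 7,nat_lit 5,nat_lit 0],[nat_lit 7,nat_lit 5,nat_lit 4,nat_lit 10],[nat_lit 7,nat_lit 8,nat_lit 0],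
    [nat_lit 7,nat_lit 11,nat_lit 5,nat_lit 8]],[[nat_lit 7,nat_lit 11,nat_lit 8,nat_lit 9],[nat_lit 7,nat_lit 11,
    nat_lit 14],[nat_lit 7,nat_lit 15,nat_lit 10],[nat_lit 7,nat_lit 15,nat_lit 11],[nat_lit 8,nat_lit 0,nat_lit 7],
    [nat_lit 8,nat_lit 2,nat_lit 4],[nat_lit 8,nat_lit 2,nat_lit 8],[nat_lit 8,nat_lit 2,nat_lit 9],[nat_lit 8,
    nat_lit 3,nat_lit 5],[nat_lit 8,nat_lit 3,nat_lit 8],[nat_lit 8,nat_lit 3,nat_lit 9],[nat_lit 8,nat_lit 4,
    nat_lit 3]],[[nat_lit 8,nat_lit 5,nat_lit 3],[nat_lit 8,nat_lit 7,nat_lit 0],[nat_lit 8,nat_lit 7,nat_lit 11,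
    nat_lit 5],[nat_lit 8,nat_lit 8,nat_lit 2],[nat_lit 8,nat_lit 8,nat_lit 3],[nat_lit 8,nat_lit 9,nat_lit 7,
    nat_lit 11],[nat_lit 8,nat_lit 9,nat_lit 10,nat_lit 6],[nat_lit 8,nat_lit 10,nat_lit 12],[nat_lit 8,nat_lit 10,
    nat_lit 13],[nat_lit 8,nat_lit 11,nat_lit 5,nat_lit 6],[nat_lit 8,nat_lit 11,nat_lit 12],[nat_lit 8,nat_lit 11,
    nat_lit 13]],[[nat_lit 8,nat_lit 12,nat_lit 10],[nat_lit 8,nat_lit 12,nat_lit 11],[nat_lit 9,nat_lit 1,nat_lit 6],
    [nat_lit 9,nat_lit 2,nat_lit 4],[nat_lit 9,nat_lit 2,nat_lit 5],[nat_lit 9,nat_lit 2,nat_lit 9],[nat_lit 9,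
    nat_lit 3,nat_lit 9],[nat_lit 9,nat_lit 4,nat_lit 2],[nat_lit 9,nat_lit 4,nat_lit 10,nat_lit 6],[nat_lit 9,
    nat_lit 5,nat_lit 3],[nat_lit 9,nat_lit 6,nat_lit 1],[nat_lit 9,nat_lit 7,nat_lit 4,nat_lit 10]],[[nat_lit 9,
    nat_lit 7,nat_lit 11,nat_lit 8],[nat_lit 9,nat_lit 8,nat_lit 2],[nat_lit 9,nat_lit 8,nat_lit 3],[nat_lit 9,
    nat_lit 9,nat_lit 2],[nat_lit 9,nat_lit 9,nat_lit 3],[nat_lit 9,nat_lit 10,nat_lit 6,nat_lit 8],[nat_lit 9,
    nat_lit 10,nat_lit 13],[nat_lit 9,nat_lit 11,nat_lit 13],[nat_lit 9,nat_lit 12,nat_lit 10],[nat_lit 9,nat_lit 12,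
    nat_lit 11],[nat_lit 9,nat_lit 13,nat_lit 10],[nat_lit 9,nat_lit 13,nat_lit 11]],[[nat_lit 10,nat_lit 4,
    nat_lit 12],[nat_lit 10,nat_lit 4,nat_lit 13],[nat_lit 10,nat_lit 5,nat_lit 6,nat_lit 4],[nat_lit 10,nat_lit 5,
    nat_lit 7,nat_lit 4],[nat_lit 10,nat_lit 5,nat_lit 12],[nat_lit 10,nat_lit 6,nat_lit 8,nat_lit 9],[nat_lit 10,
    nat_lit 6,nat_lit 9,nat_lit 4],[nat_lit 10,nat_lit 6,nat_lit 15],[nat_lit 10,nat_lit 7,nat_lit 5,nat_lit 4],
    [nat_lit 10,nat_lit 7,nat_lit 15],[nat_lit 10,nat_lit 8,nat_lit 12],[nat_lit 10,nat_lit 9,nat_lit 7,nat_lit 4]],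
    [[nat_lit 10,nat_lit 9,nat_lit 12],[nat_lit 10,nat_lit 9,nat_lit 13],[nat_lit 10,nat_lit 10,nat_lit 10],
    [nat_lit 10,nat_lit 12,nat_lit 8],[nat_lit 10,nat_lit 13,nat_lit 4],[nat_lit 10,nat_lit 13,nat_lit 5],[nat_lit 10,
    nat_lit 13,nat_lit 8],[nat_lit 10,nat_lit 13,nat_lit 9],[nat_lit 10,nat_lit 14,nat_lit 6],[nat_lit 11,nat_lit 4,
    nat_lit 12],[nat_lit 11,nat_lit 5,nat_lit 4,nat_lit 6],[nat_lit 11,nat_lit 5,nat_lit 6,nat_lit 4]],[[nat_lit 11,
    nat_lit 5,nat_lit 6,nat_lit 8],[nat_lit 11,nat_lit 5,nat_lit 7,nat_lit 4],[nat_lit 11,nat_lit 5,nat_lit 8,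
    nat_lit 7],[nat_lit 11,nat_lit 5,nat_lit 12],[nat_lit 11,nat_lit 7,nat_lit 15],[nat_lit 11,nat_lit 8,nat_lit 9,
    nat_lit 7],[nat_lit 11,nat_lit 8,nat_lit 12],[nat_lit 11,nat_lit 9,nat_lit 12],[nat_lit 11,nat_lit 9,nat_lit 13],
    [nat_lit 11,nat_lit 11,nat_lit 11],[nat_lit 11,nat_lit 12,nat_lit 5],[nat_lit 11,nat_lit 12,nat_lit 8]],
    [[nat_lit 11,nat_lit 13,nat_lit 4],[nat_lit 11,nat_lit 13,nat_lit 5],[nat_lit 11,nat_lit 13,nat_lit 8],
    [nat_lit 11,nat_lit 13,nat_lit 9],[nat_lit 11,nat_lit 14,nat_lit 6],[nat_lit 11,nat_lit 14,nat_lit 7],[nat_lit 12,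
    nat_lit 0],[nat_lit 12,nat_lit 1],[nat_lit 12,nat_lit 5,nat_lit 11],[nat_lit 12,nat_lit 8,nat_lit 10],[nat_lit 12,
    nat_lit 8,nat_lit 11],[nat_lit 12,nat_lit 10,nat_lit 4]],[[nat_lit 12,nat_lit 10,nat_lit 5],[nat_lit 12,
    nat_lit 10,nat_lit 8],[nat_lit 12,nat_lit 10,nat_lit 9],[nat_lit 12,nat_lit 11,nat_lit 4],[nat_lit 12,nat_lit 11,
    nat_lit 5],[nat_lit 12,nat_lit 11,nat_lit 8],[nat_lit 12,nat_lit 11,nat_lit 9],[nat_lit 13,nat_lit 0],[nat_lit 13,
    nat_lit 1],[nat_lit 13,nat_lit 4,nat_lit 10],[nat_lit 13,nat_lit 4,nat_lit 11],[nat_lit 13,nat_lit 5,nat_lit 10]],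
    [[nat_lit 13,nat_lit 5,nat_lit 11],[nat_lit 13,nat_lit 8,nat_lit 10],[nat_lit 13,nat_lit 8,nat_lit 11],
    [nat_lit 13,nat_lit 9,nat_lit 10],[nat_lit 13,nat_lit 9,nat_lit 11],[nat_lit 13,nat_lit 10,nat_lit 4],[nat_lit 13,
    nat_lit 10,nat_lit 9],[nat_lit 13,nat_lit 11,nat_lit 9],[nat_lit 14,nat_lit 2],[nat_lit 14,nat_lit 3],[nat_lit 14,
    nat_lit 6,nat_lit 10],[nat_lit 14,nat_lit 6,nat_lit 11]],[[nat_lit 14,nat_lit 7,nat_lit 11],[nat_lit 15,
    nat_lit 2],[nat_lit 15,nat_lit 3],[nat_lit 15,nat_lit 10,nat_lit 6],[nat_lit 15,nat_lit 10,nat_lit 7],[nat_lit 15,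
    nat_lit 11,nat_lit 7]]]
    [[nat_lit 69,nat_lit 73,nat_lit 104,nat_lit 106,nat_lit 121,nat_lit 198,nat_lit 211,nat_lit 44,nat_lit 87,
    nat_lit 92,nat_lit 100,nat_lit 142],[nat_lit 199,nat_lit 212,nat_lit 43,nat_lit 46,nat_lit 47,nat_lit 64,
    nat_lit 78,nat_lit 123,nat_lit 139,nat_lit 145,nat_lit 147,nat_lit 224],[nat_lit 229,nat_lit 65,nat_lit 68,
    nat_lit 76,nat_lit 119,nat_lit 120,nat_lit 124,nat_lit 141,nat_lit 146,nat_lit 148,nat_lit 225,nat_lit 230],
    [nat_lit 8,nat_lit 10,nat_lit 14,nat_lit 17,nat_lit 20,nat_lit 25,nat_lit 28,nat_lit 38,nat_lit 85,nat_lit 95,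
    nat_lit 113,nat_lit 135],[nat_lit 158,nat_lit 159,nat_lit 162,nat_lit 164,nat_lit 167,nat_lit 172,nat_lit 179,
    nat_lit 181,nat_lit 192,nat_lit 203,nat_lit 207,nat_lit 221],[nat_lit 2,nat_lit 26,nat_lit 29,nat_lit 31,
    nat_lit 39,nat_lit 41,nat_lit 45,nat_lit 51,nat_lit 61,nat_lit 84,nat_lit 88,nat_lit 89],[nat_lit 91,nat_lit 98,
    nat_lit 101,nat_lit 103,nat_lit 116,nat_lit 122,nat_lit 136,nat_lit 173,nat_lit 190,nat_lit 193,nat_lit 204,
    nat_lit 208],[nat_lit 0,nat_lit 7,nat_lit 11,nat_lit 36,nat_lit 48,nat_lit 54,nat_lit 126,nat_lit 129,nat_lit 134,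
    nat_lit 140,nat_lit 176,nat_lit 178],[nat_lit 196,nat_lit 231,nat_lit 1,nat_lit 4,nat_lit 37,nat_lit 49,
    nat_lit 52,nat_lit 55,nat_lit 60,nat_lit 67,nat_lit 112,nat_lit 182],[nat_lit 185,nat_lit 197,nat_lit 232,
    nat_lit 233,nat_lit 3,nat_lit 15,nat_lit 19,nat_lit 21,nat_lit 27,nat_lit 30,nat_lit 32,nat_lit 42],[nat_lit 62,
    nat_lit 99,nat_lit 107,nat_lit 114,nat_lit 117,nat_lit 144,nat_lit 149,nat_lit 171,nat_lit 174,nat_lit 180,
    nat_lit 191,nat_lit 194],[nat_lit 205,nat_lit 209,nat_lit 9,nat_lit 16,nat_lit 18,nat_lit 22,nat_lit 33,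
    nat_lit 40,nat_lit 50,nat_lit 63,nat_lit 86,nat_lit 102],[nat_lit 108,nat_lit 115,nat_lit 118,nat_lit 137,
    nat_lit 138,nat_lit 161,nat_lit 175,nat_lit 195,nat_lit 206,nat_lit 210,nat_lit 222,nat_lit 223],[nat_lit 57,
    nat_lit 59,nat_lit 70,nat_lit 74,nat_lit 82,nat_lit 90,nat_lit 93,nat_lit 97,nat_lit 105,nat_lit 110,nat_lit 132,
    nat_lit 143],[nat_lit 152,nat_lit 154,nat_lit 170,nat_lit 201,nat_lit 213,nat_lit 215,nat_lit 217,nat_lit 219,
    nat_lit 226,nat_lit 58,nat_lit 66,nat_lit 71],[nat_lit 72,nat_lit 75,nat_lit 77,nat_lit 83,nat_lit 111,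
    nat_lit 125,nat_lit 133,nat_lit 153,nat_lit 155,nat_lit 189,nat_lit 200,nat_lit 202],[nat_lit 214,nat_lit 216,
    nat_lit 218,nat_lit 220,nat_lit 227,nat_lit 228,nat_lit 5,nat_lit 12,nat_lit 80,nat_lit 127,nat_lit 130,
    nat_lit 156],[nat_lit 160,nat_lit 166,nat_lit 168,nat_lit 177,nat_lit 183,nat_lit 186,nat_lit 187,nat_lit 6,
    nat_lit 13,nat_lit 53,nat_lit 56,nat_lit 79],[nat_lit 81,nat_lit 128,nat_lit 131,nat_lit 150,nat_lit 151,
    nat_lit 157,nat_lit 169,nat_lit 188,nat_lit 23,nat_lit 34,nat_lit 94,nat_lit 96],[nat_lit 109,nat_lit 24,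
    nat_lit 35,nat_lit 163,nat_lit 165,nat_lit 184]]
    [[nat_lit 84,nat_lit 98,nat_lit 60,nat_lit 112,nat_lit 99,nat_lit 198,nat_lit 211,nat_lit 85,nat_lit 36,
    nat_lit 134,nat_lit 37,nat_lit 86],[nat_lit 199,nat_lit 212,nat_lit 38,nat_lit 113,nat_lit 135,nat_lit 39,
    nat_lit 136,nat_lit 114,nat_lit 40,nat_lit 115,nat_lit 137,nat_lit 224],[nat_lit 229,nat_lit 41,nat_lit 61,
    nat_lit 116,nat_lit 42,nat_lit 62,nat_lit 117,nat_lit 63,nat_lit 118,nat_lit 138,nat_lit 225,nat_lit 230],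
    [nat_lit 87,nat_lit 100,nat_lit 43,nat_lit 64,nat_lit 139,nat_lit 65,nat_lit 119,nat_lit 14,nat_lit 7,nat_lit 66,
    nat_lit 15,nat_lit 16],[nat_lit 88,nat_lit 101,nat_lit 140,nat_lit 67,nat_lit 102,nat_lit 213,nat_lit 89,
    nat_lit 103,nat_lit 214,nat_lit 156,nat_lit 177,nat_lit 157],[nat_lit 104,nat_lit 68,nat_lit 120,nat_lit 141,
    nat_lit 17,nat_lit 25,nat_lit 178,nat_lit 105,nat_lit 26,nat_lit 0,nat_lit 158,nat_lit 179],[nat_lit 180,
    nat_lit 1,nat_lit 159,nat_lit 181,nat_lit 27,nat_lit 182,nat_lit 18,nat_lit 215,nat_lit 200,nat_lit 216,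
    nat_lit 160,nat_lit 183],[nat_lit 69,nat_lit 44,nat_lit 142,nat_lit 8,nat_lit 70,nat_lit 71,nat_lit 161,
    nat_lit 72,nat_lit 9,nat_lit 162,nat_lit 226,nat_lit 45],[nat_lit 227,nat_lit 163,nat_lit 73,nat_lit 121,
    nat_lit 10,nat_lit 74,nat_lit 143,nat_lit 75,nat_lit 2,nat_lit 164,nat_lit 3,nat_lit 122],[nat_lit 144,
    nat_lit 228,nat_lit 165,nat_lit 184,nat_lit 106,nat_lit 46,nat_lit 123,nat_lit 145,nat_lit 76,nat_lit 124,
    nat_lit 146,nat_lit 28],[nat_lit 29,nat_lit 4,nat_lit 77,nat_lit 19,nat_lit 30,nat_lit 185,nat_lit 90,nat_lit 201,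
    nat_lit 217,nat_lit 91,nat_lit 202,nat_lit 218],[nat_lit 166,nat_lit 186,nat_lit 92,nat_lit 47,nat_lit 78,
    nat_lit 147,nat_lit 148,nat_lit 20,nat_lit 93,nat_lit 31,nat_lit 11,nat_lit 167],[nat_lit 125,nat_lit 21,
    nat_lit 32,nat_lit 22,nat_lit 33,nat_lit 126,nat_lit 219,nat_lit 220,nat_lit 168,nat_lit 187,nat_lit 169,
    nat_lit 188],[nat_lit 203,nat_lit 221,nat_lit 48,nat_lit 49,nat_lit 204,nat_lit 149,nat_lit 50,nat_lit 231,
    nat_lit 51,nat_lit 232,nat_lit 205,nat_lit 52],[nat_lit 206,nat_lit 222,nat_lit 170,nat_lit 127,nat_lit 53,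
    nat_lit 79,nat_lit 128,nat_lit 150,nat_lit 94,nat_lit 207,nat_lit 95,nat_lit 54],[nat_lit 129,nat_lit 55,
    nat_lit 107,nat_lit 208,nat_lit 233,nat_lit 108,nat_lit 209,nat_lit 210,nat_lit 223,nat_lit 189,nat_lit 80,
    nat_lit 130],[nat_lit 56,nat_lit 81,nat_lit 131,nat_lit 151,nat_lit 96,nat_lit 109,nat_lit 5,nat_lit 12,
    nat_lit 190,nat_lit 171,nat_lit 191,nat_lit 57],[nat_lit 82,nat_lit 132,nat_lit 152,nat_lit 58,nat_lit 83,
    nat_lit 133,nat_lit 153,nat_lit 6,nat_lit 13,nat_lit 172,nat_lit 192,nat_lit 173],[nat_lit 193,nat_lit 174,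
    nat_lit 194,nat_lit 175,nat_lit 195,nat_lit 59,nat_lit 154,nat_lit 155,nat_lit 23,nat_lit 34,nat_lit 176,
    nat_lit 196],[nat_lit 197,nat_lit 24,nat_lit 35,nat_lit 97,nat_lit 110,nat_lit 111]]
    [[[nat_lit 225],[nat_lit 225],[],[],[nat_lit 226],[],[nat_lit 227,nat_lit 228],[],[nat_lit 27,nat_lit 30,
    nat_lit 32],[nat_lit 27,nat_lit 30,nat_lit 32],[nat_lit 26,nat_lit 29,nat_lit 31],[]],[[nat_lit 34],[],
    [nat_lit 0],[nat_lit 0],[nat_lit 0],[],[],[],[nat_lit 1,nat_lit 4],[nat_lit 1,nat_lit 4],[nat_lit 1,nat_lit 4],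
    []],[[nat_lit 6],[nat_lit 65,nat_lit 68,nat_lit 76],[nat_lit 65,nat_lit 68,nat_lit 76],[nat_lit 65,nat_lit 68,
    nat_lit 76],[nat_lit 70,nat_lit 74,nat_lit 82],[nat_lit 70,nat_lit 74,nat_lit 82],[nat_lit 70,nat_lit 74,
    nat_lit 82],[nat_lit 60,nat_lit 67],[nat_lit 60,nat_lit 67],[nat_lit 60,nat_lit 67],[nat_lit 69,nat_lit 73],
    [nat_lit 79,nat_lit 81]],[[nat_lit 24],[nat_lit 24],[nat_lit 14,nat_lit 17,nat_lit 20],[nat_lit 14,nat_lit 17,
    nat_lit 20],[nat_lit 14,nat_lit 17,nat_lit 20],[],[],[],[nat_lit 15,nat_lit 19,nat_lit 21],[nat_lit 15,nat_lit 19,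
    nat_lit 21],[],[]],[[],[],[],[],[],[],[nat_lit 16,nat_lit 18,nat_lit 22],[nat_lit 16,nat_lit 18,nat_lit 22],
    [nat_lit 16,nat_lit 18,nat_lit 22],[nat_lit 23],[nat_lit 23],[]],[[],[nat_lit 100],[nat_lit 100],[nat_lit 100],[],
    [],[],[],[],[nat_lit 99,nat_lit 107],[nat_lit 99,nat_lit 107],[nat_lit 99,nat_lit 107]],[[nat_lit 99,nat_lit 107],
    [nat_lit 98,nat_lit 101,nat_lit 103],[nat_lit 98,nat_lit 101,nat_lit 103],[nat_lit 98,nat_lit 101,nat_lit 103],
    [nat_lit 105,nat_lit 110],[nat_lit 105,nat_lit 110],[],[],[nat_lit 102,nat_lit 108],[nat_lit 102,nat_lit 108],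
    [nat_lit 109],[nat_lit 109]],[[nat_lit 43,nat_lit 46,nat_lit 47],[],[],[nat_lit 36,nat_lit 48,nat_lit 54],
    [nat_lit 36,nat_lit 48,nat_lit 54],[nat_lit 36,nat_lit 48,nat_lit 54],[nat_lit 57,nat_lit 59],[nat_lit 57,
    nat_lit 59],[nat_lit 37,nat_lit 49,nat_lit 52,nat_lit 55],[nat_lit 37,nat_lit 49,nat_lit 52,nat_lit 55],[],
    [nat_lit 40,nat_lit 50]],[[nat_lit 40,nat_lit 50],[nat_lit 53,nat_lit 56],[nat_lit 139,nat_lit 145,nat_lit 147],
    [nat_lit 139,nat_lit 145,nat_lit 147],[nat_lit 134,nat_lit 140],[nat_lit 134,nat_lit 140],[nat_lit 134,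
    nat_lit 140],[nat_lit 134,nat_lit 140],[nat_lit 141,nat_lit 146,nat_lit 148],[nat_lit 141,nat_lit 146,
    nat_lit 148],[nat_lit 143,nat_lit 152,nat_lit 154],[nat_lit 137,nat_lit 138]],[[nat_lit 137,nat_lit 138],
    [nat_lit 137,nat_lit 138],[nat_lit 150,nat_lit 151],[nat_lit 150,nat_lit 151],[],[nat_lit 85,nat_lit 95],
    [nat_lit 85,nat_lit 95],[nat_lit 85,nat_lit 95],[nat_lit 87,nat_lit 92],[nat_lit 87,nat_lit 92],[nat_lit 87,
    nat_lit 92],[]],[[],[nat_lit 84,nat_lit 88,nat_lit 89,nat_lit 91],[nat_lit 84,nat_lit 88,nat_lit 89,nat_lit 91],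
    [nat_lit 90,nat_lit 93,nat_lit 97],[nat_lit 90,nat_lit 93,nat_lit 97],[],[],[],[],[nat_lit 86],[nat_lit 86],
    [nat_lit 86]],[[nat_lit 94,nat_lit 96],[nat_lit 94,nat_lit 96],[nat_lit 184],[nat_lit 179,nat_lit 181,
    nat_lit 192],[nat_lit 179,nat_lit 181,nat_lit 192],[nat_lit 179,nat_lit 181,nat_lit 192],[],[nat_lit 178,
    nat_lit 196],[nat_lit 178,nat_lit 196],[],[nat_lit 180,nat_lit 191,nat_lit 194],[nat_lit 190,nat_lit 193]],
    [[nat_lit 190,nat_lit 193],[],[],[nat_lit 182,nat_lit 185,nat_lit 197],[nat_lit 182,nat_lit 185,nat_lit 197],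
    [nat_lit 177,nat_lit 183,nat_lit 186,nat_lit 187],[nat_lit 177,nat_lit 183,nat_lit 186,nat_lit 187],[nat_lit 195],
    [],[],[nat_lit 189],[nat_lit 189]],[[nat_lit 126,nat_lit 129],[nat_lit 126,nat_lit 129],[nat_lit 119,nat_lit 120,
    nat_lit 124],[nat_lit 119,nat_lit 120,nat_lit 124],[nat_lit 119,nat_lit 120,nat_lit 124],[nat_lit 114,
    nat_lit 117],[nat_lit 114,nat_lit 117],[nat_lit 114,nat_lit 117],[nat_lit 116,nat_lit 122],[nat_lit 116,
    nat_lit 122],[nat_lit 132],[nat_lit 112]],[[nat_lit 112],[nat_lit 112],[nat_lit 127,nat_lit 130],[],[nat_lit 125,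
    nat_lit 133],[nat_lit 125,nat_lit 133],[nat_lit 125,nat_lit 133],[nat_lit 125,nat_lit 133],[nat_lit 121],[],[],
    []],[[],[],[],[],[],[nat_lit 213,nat_lit 215,nat_lit 217,nat_lit 219],[nat_lit 213,nat_lit 215,nat_lit 217,
    nat_lit 219],[],[],[nat_lit 222,nat_lit 223],[],[]],[[nat_lit 214,nat_lit 216,nat_lit 218,nat_lit 220],
    [nat_lit 214,nat_lit 216,nat_lit 218,nat_lit 220],[nat_lit 214,nat_lit 216,nat_lit 218,nat_lit 220],[nat_lit 214,
    nat_lit 216,nat_lit 218,nat_lit 220],[nat_lit 211],[nat_lit 211],[],[nat_lit 163,nat_lit 165],[],[nat_lit 170],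
    [nat_lit 170],[nat_lit 156,nat_lit 160,nat_lit 166,nat_lit 168]],[[nat_lit 156,nat_lit 160,nat_lit 166,
    nat_lit 168],[nat_lit 156,nat_lit 160,nat_lit 166,nat_lit 168],[nat_lit 156,nat_lit 160,nat_lit 166,nat_lit 168],
    [nat_lit 161,nat_lit 175],[nat_lit 161,nat_lit 175],[nat_lit 161,nat_lit 175],[nat_lit 161,nat_lit 175],
    [nat_lit 229],[],[nat_lit 231],[nat_lit 231],[nat_lit 230]],[[nat_lit 230],[],[],[nat_lit 232,nat_lit 233],
    [nat_lit 232,nat_lit 233],[],[],[],[nat_lit 203,nat_lit 207],[nat_lit 199],[nat_lit 205,nat_lit 209],[nat_lit 205,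
    nat_lit 209]],[[nat_lit 204,nat_lit 208],[nat_lit 8,nat_lit 10],[],[nat_lit 12],[nat_lit 12],[nat_lit 9]]]
    (nat_lit 234) [nat_lit 0,nat_lit 1,nat_lit 2,nat_lit 3,nat_lit 4,nat_lit 5,nat_lit 6,nat_lit 7,nat_lit 8,
    nat_lit 9,nat_lit 10,nat_lit 11,nat_lit 12,nat_lit 13,nat_lit 14,nat_lit 15,nat_lit 16,nat_lit 17,nat_lit 18,
    nat_lit 19,nat_lit 20,nat_lit 21,nat_lit 22,nat_lit 23,nat_lit 24,nat_lit 25,nat_lit 26,nat_lit 27,nat_lit 28,
    nat_lit 29,nat_lit 30,nat_lit 31,nat_lit 32,nat_lit 33,nat_lit 34,nat_lit 35,nat_lit 45,nat_lit 48,nat_lit 49,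
    nat_lit 50,nat_lit 51,nat_lit 52,nat_lit 53,nat_lit 54,nat_lit 55,nat_lit 56,nat_lit 57,nat_lit 58,nat_lit 59,
    nat_lit 72,nat_lit 77,nat_lit 79,nat_lit 80,nat_lit 81,nat_lit 82,nat_lit 83,nat_lit 90,nat_lit 94,nat_lit 96,
    nat_lit 97,nat_lit 108,nat_lit 109,nat_lit 110,nat_lit 111,nat_lit 127,nat_lit 128,nat_lit 130,nat_lit 131,
    nat_lit 132,nat_lit 133,nat_lit 150,nat_lit 151,nat_lit 152,nat_lit 153,nat_lit 154,nat_lit 155,nat_lit 170,
    nat_lit 189]
    [[[],[],[],[],[],[nat_lit 2],[nat_lit 0],[nat_lit 1,nat_lit 4],[nat_lit 3],[],[],[],[nat_lit 5],[nat_lit 6],[],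
    []],[[],[],[],[],[nat_lit 8,nat_lit 10],[],[nat_lit 7,nat_lit 11],[],[],[nat_lit 9],[],[],[nat_lit 12],
    [nat_lit 13],[],[]],[[],[],[],[],[nat_lit 14,nat_lit 17,nat_lit 20],[],[],[],[nat_lit 15,nat_lit 19,nat_lit 21],
    [nat_lit 16,nat_lit 18,nat_lit 22],[],[],[],[],[nat_lit 23],[nat_lit 24]],[[],[],[],[],[nat_lit 25,nat_lit 28],
    [nat_lit 26,nat_lit 29,nat_lit 31],[],[],[nat_lit 27,nat_lit 30,nat_lit 32],[nat_lit 33],[],[],[],[],[nat_lit 34],
    [nat_lit 35]],[[],[nat_lit 44],[nat_lit 43,nat_lit 46,nat_lit 47],[],[nat_lit 38],[nat_lit 39,nat_lit 41,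
    nat_lit 45,nat_lit 51],[nat_lit 36,nat_lit 48,nat_lit 54],[nat_lit 37,nat_lit 49,nat_lit 52,nat_lit 55],
    [nat_lit 42],[nat_lit 40,nat_lit 50],[nat_lit 57,nat_lit 59],[nat_lit 58],[],[nat_lit 53,nat_lit 56],[],[]],
    [[nat_lit 69,nat_lit 73],[],[nat_lit 64,nat_lit 78],[nat_lit 65,nat_lit 68,nat_lit 76],[],[nat_lit 61],[],
    [nat_lit 60,nat_lit 67],[nat_lit 62],[nat_lit 63],[nat_lit 70,nat_lit 74,nat_lit 82],[nat_lit 66,nat_lit 71,
    nat_lit 72,nat_lit 75,nat_lit 77,nat_lit 83],[nat_lit 80],[nat_lit 79,nat_lit 81],[],[]],[[],[nat_lit 87,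
    nat_lit 92],[],[],[nat_lit 85,nat_lit 95],[nat_lit 84,nat_lit 88,nat_lit 89,nat_lit 91],[],[],[],[nat_lit 86],
    [nat_lit 90,nat_lit 93,nat_lit 97],[],[],[],[nat_lit 94,nat_lit 96],[]],[[nat_lit 104,nat_lit 106],[nat_lit 100],
    [],[],[],[nat_lit 98,nat_lit 101,nat_lit 103],[],[],[nat_lit 99,nat_lit 107],[nat_lit 102,nat_lit 108],
    [nat_lit 105,nat_lit 110],[nat_lit 111],[],[],[nat_lit 109],[]],[[nat_lit 121],[],[nat_lit 123],[nat_lit 119,
    nat_lit 120,nat_lit 124],[nat_lit 113],[nat_lit 116,nat_lit 122],[nat_lit 126,nat_lit 129],[nat_lit 112],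
    [nat_lit 114,nat_lit 117],[nat_lit 115,nat_lit 118],[nat_lit 132],[nat_lit 125,nat_lit 133],[nat_lit 127,
    nat_lit 130],[nat_lit 128,nat_lit 131],[],[]],[[],[nat_lit 142],[nat_lit 139,nat_lit 145,nat_lit 147],
    [nat_lit 141,nat_lit 146,nat_lit 148],[nat_lit 135],[nat_lit 136],[nat_lit 134,nat_lit 140],[],[nat_lit 144,
    nat_lit 149],[nat_lit 137,nat_lit 138],[nat_lit 143,nat_lit 152,nat_lit 154],[nat_lit 153,nat_lit 155],[],
    [nat_lit 150,nat_lit 151],[],[]],[[],[],[],[],[nat_lit 158,nat_lit 159,nat_lit 162,nat_lit 164,nat_lit 167,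
    nat_lit 172],[nat_lit 173],[nat_lit 176],[],[nat_lit 171,nat_lit 174],[nat_lit 161,nat_lit 175],[nat_lit 170],[],
    [nat_lit 156,nat_lit 160,nat_lit 166,nat_lit 168],[nat_lit 157,nat_lit 169],[],[nat_lit 163,nat_lit 165]],[[],[],
    [],[],[nat_lit 179,nat_lit 181,nat_lit 192],[nat_lit 190,nat_lit 193],[nat_lit 178,nat_lit 196],[nat_lit 182,
    nat_lit 185,nat_lit 197],[nat_lit 180,nat_lit 191,nat_lit 194],[nat_lit 195],[],[nat_lit 189],[nat_lit 177,
    nat_lit 183,nat_lit 186,nat_lit 187],[nat_lit 188],[],[nat_lit 184]],[[nat_lit 198],[nat_lit 199],[],[],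
    [nat_lit 203,nat_lit 207],[nat_lit 204,nat_lit 208],[],[],[nat_lit 205,nat_lit 209],[nat_lit 206,nat_lit 210],
    [nat_lit 201],[nat_lit 200,nat_lit 202],[],[],[],[]],[[nat_lit 211],[nat_lit 212],[],[],[nat_lit 221],[],[],[],[],
    [nat_lit 222,nat_lit 223],[nat_lit 213,nat_lit 215,nat_lit 217,nat_lit 219],[nat_lit 214,nat_lit 216,nat_lit 218,
    nat_lit 220],[],[],[],[]],[[],[],[nat_lit 224],[nat_lit 225],[],[],[],[],[],[],[nat_lit 226],[nat_lit 227,
    nat_lit 228],[],[],[],[]],[[],[],[nat_lit 229],[nat_lit 230],[],[],[nat_lit 231],[nat_lit 232,nat_lit 233],[],[],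
    [],[],[],[],[],[]]]
    [[[nat_lit 0x200000000000000000000000000000000000000000000000000000000,
    nat_lit 0x200000000000000000000000000000000000000000000000000000000,nat_lit 0,nat_lit 0,
    nat_lit 0x400000000000000000000000000000000000000000000000000000000,nat_lit 0,
    nat_lit 0x1800000000000000000000000000000000000000000000000000000000,nat_lit 0,nat_lit 0x148000000],
    [nat_lit 0x148000000,nat_lit 0xa4000000,nat_lit 0,nat_lit 0x400000000,nat_lit 0,nat_lit 1,nat_lit 1,nat_lit 1,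
    nat_lit 0],[nat_lit 0,nat_lit 0,nat_lit 18,nat_lit 18,nat_lit 18,nat_lit 0,nat_lit 64,
    nat_lit 0x10120000000000000000,nat_lit 0x10120000000000000000],[nat_lit 0x10120000000000000000,
    nat_lit 0x404400000000000000000,nat_lit 0x404400000000000000000,nat_lit 0x404400000000000000000,
    nat_lit 0x81000000000000000,nat_lit 0x81000000000000000,nat_lit 0x81000000000000000,nat_lit 0x2200000000000000000,
    nat_lit 0x280000000000000000000],[nat_lit 0x1000000,nat_lit 0x1000000,nat_lit 0x124000,nat_lit 0x124000,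
    nat_lit 0x124000,nat_lit 0,nat_lit 0,nat_lit 0,nat_lit 0x288000],[nat_lit 0x288000,nat_lit 0,nat_lit 0,nat_lit 0,
    nat_lit 0,nat_lit 0,nat_lit 0,nat_lit 0,nat_lit 0],[nat_lit 0x450000,nat_lit 0x450000,nat_lit 0x450000,
    nat_lit 0x800000,nat_lit 0x800000,nat_lit 0,nat_lit 0,nat_lit 0x10000000000000000000000000,
    nat_lit 0x10000000000000000000000000],[nat_lit 0x10000000000000000000000000,nat_lit 0,nat_lit 0,nat_lit 0,
    nat_lit 0,nat_lit 0,nat_lit 0x808000000000000000000000000,nat_lit 0x808000000000000000000000000,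
    nat_lit 0x808000000000000000000000000],[nat_lit 0x808000000000000000000000000,
    nat_lit 0xa4000000000000000000000000,nat_lit 0xa4000000000000000000000000,nat_lit 0xa4000000000000000000000000,
    nat_lit 0x4200000000000000000000000000,nat_lit 0x4200000000000000000000000000,nat_lit 0,nat_lit 0,
    nat_lit 0x1040000000000000000000000000]],[[nat_lit 0x1040000000000000000000000000,
    nat_lit 0x2000000000000000000000000000,nat_lit 0x2000000000000000000000000000,nat_lit 0xc80000000000,nat_lit 0,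
    nat_lit 0,nat_lit 0x41001000000000,nat_lit 0x41001000000000,nat_lit 0x41001000000000],[nat_lit 0xa00000000000000,
    nat_lit 0xa00000000000000,nat_lit 0x92002000000000,nat_lit 0x92002000000000,nat_lit 0,nat_lit 0x4010000000000,
    nat_lit 0x4010000000000,nat_lit 0x120000000000000,nat_lit 0xa080000000000000000000000000000000000],
    [nat_lit 0xa080000000000000000000000000000000000,nat_lit 0x104000000000000000000000000000000000,
    nat_lit 0x104000000000000000000000000000000000,nat_lit 0x104000000000000000000000000000000000,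
    nat_lit 0x104000000000000000000000000000000000,nat_lit 0x14200000000000000000000000000000000000,
    nat_lit 0x14200000000000000000000000000000000000,nat_lit 0x500800000000000000000000000000000000000,
    nat_lit 0x60000000000000000000000000000000000],[nat_lit 0x60000000000000000000000000000000000,
    nat_lit 0x60000000000000000000000000000000000,nat_lit 0xc0000000000000000000000000000000000000,
    nat_lit 0xc0000000000000000000000000000000000000,nat_lit 0,nat_lit 0x802000000000000000000000,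
    nat_lit 0x802000000000000000000000,nat_lit 0x802000000000000000000000,nat_lit 0x108000000000000000000000],
    [nat_lit 0x108000000000000000000000,nat_lit 0x108000000000000000000000,nat_lit 0,nat_lit 0,
    nat_lit 0xb1000000000000000000000,nat_lit 0xb1000000000000000000000,nat_lit 0x2240000000000000000000000,
    nat_lit 0x2240000000000000000000000,nat_lit 0],[nat_lit 0,nat_lit 0,nat_lit 0,nat_lit 0x4000000000000000000000,
    nat_lit 0x4000000000000000000000,nat_lit 0x4000000000000000000000,nat_lit 0x1400000000000000000000000,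
    nat_lit 0x1400000000000000000000000,nat_lit 0x10000000000000000000000000000000000000000000000],
    [nat_lit 0x1002800000000000000000000000000000000000000000000,
    nat_lit 0x1002800000000000000000000000000000000000000000000,
    nat_lit 0x1002800000000000000000000000000000000000000000000,nat_lit 0,
    nat_lit 0x10000400000000000000000000000000000000000000000000,
    nat_lit 0x10000400000000000000000000000000000000000000000000,nat_lit 0,
    nat_lit 0x4801000000000000000000000000000000000000000000000,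
    nat_lit 0x2400000000000000000000000000000000000000000000000],
    [nat_lit 0x2400000000000000000000000000000000000000000000000,nat_lit 0,nat_lit 0,
    nat_lit 0x20024000000000000000000000000000000000000000000000,
    nat_lit 0x20024000000000000000000000000000000000000000000000,
    nat_lit 0xc8200000000000000000000000000000000000000000000,
    nat_lit 0xc8200000000000000000000000000000000000000000000,
    nat_lit 0x8000000000000000000000000000000000000000000000000,nat_lit 0],[nat_lit 0,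
    nat_lit 0x200000000000000000000000000000000000000000000000,
    nat_lit 0x200000000000000000000000000000000000000000000000,nat_lit 0x240000000000000000000000000000000,
    nat_lit 0x240000000000000000000000000000000,nat_lit 0x11800000000000000000000000000000,
    nat_lit 0x11800000000000000000000000000000,nat_lit 0x11800000000000000000000000000000,
    nat_lit 0x240000000000000000000000000000]],[[nat_lit 0x240000000000000000000000000000,
    nat_lit 0x240000000000000000000000000000,nat_lit 0x4100000000000000000000000000000,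
    nat_lit 0x4100000000000000000000000000000,nat_lit 0x1000000000000000000000000000000000,
    nat_lit 0x10000000000000000000000000000,nat_lit 0x10000000000000000000000000000,
    nat_lit 0x10000000000000000000000000000,nat_lit 0x480000000000000000000000000000000],[nat_lit 0,
    nat_lit 0x2020000000000000000000000000000000,nat_lit 0x2020000000000000000000000000000000,
    nat_lit 0x2020000000000000000000000000000000,nat_lit 0x2020000000000000000000000000000000,
    nat_lit 0x2000000000000000000000000000000,nat_lit 0,nat_lit 0,nat_lit 0],[nat_lit 0,nat_lit 0,nat_lit 0,nat_lit 0,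
    nat_lit 0,nat_lit 0xaa00000000000000000000000000000000000000000000000000000,
    nat_lit 0xaa00000000000000000000000000000000000000000000000000000,nat_lit 0,nat_lit 0],
    [nat_lit 0xc0000000000000000000000000000000000000000000000000000000,nat_lit 0,nat_lit 0,
    nat_lit 0x15400000000000000000000000000000000000000000000000000000,
    nat_lit 0x15400000000000000000000000000000000000000000000000000000,
    nat_lit 0x15400000000000000000000000000000000000000000000000000000,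
    nat_lit 0x15400000000000000000000000000000000000000000000000000000,
    nat_lit 0x80000000000000000000000000000000000000000000000000000,
    nat_lit 0x80000000000000000000000000000000000000000000000000000],[nat_lit 0,
    nat_lit 0x280000000000000000000000000000000000000000,nat_lit 0,
    nat_lit 0x4000000000000000000000000000000000000000000,nat_lit 0x4000000000000000000000000000000000000000000,
    nat_lit 0x1411000000000000000000000000000000000000000,nat_lit 0x1411000000000000000000000000000000000000000,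
    nat_lit 0x1411000000000000000000000000000000000000000,nat_lit 0x1411000000000000000000000000000000000000000],
    [nat_lit 0x80020000000000000000000000000000000000000000,nat_lit 0x80020000000000000000000000000000000000000000,
    nat_lit 0x80020000000000000000000000000000000000000000,nat_lit 0x80020000000000000000000000000000000000000000,
    nat_lit 0x2000000000000000000000000000000000000000000000000000000000,nat_lit 0,
    nat_lit 0x8000000000000000000000000000000000000000000000000000000000,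
    nat_lit 0x8000000000000000000000000000000000000000000000000000000000,
    nat_lit 0x4000000000000000000000000000000000000000000000000000000000],
    [nat_lit 0x4000000000000000000000000000000000000000000000000000000000,nat_lit 0,nat_lit 0,
    nat_lit 0x30000000000000000000000000000000000000000000000000000000000,
    nat_lit 0x30000000000000000000000000000000000000000000000000000000000,nat_lit 0,nat_lit 0,nat_lit 0,
    nat_lit 0x8800000000000000000000000000000000000000000000000000],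
    [nat_lit 0x80000000000000000000000000000000000000000000000000,
    nat_lit 0x22000000000000000000000000000000000000000000000000000,
    nat_lit 0x22000000000000000000000000000000000000000000000000000,
    nat_lit 0x11000000000000000000000000000000000000000000000000000,nat_lit 0x500,nat_lit 0,nat_lit 0x1000,
    nat_lit 0x1000,nat_lit 512]]]
    [[[[nat_lit 0x200000000000000000000000000000000000000000000000000000000,
    nat_lit 0x200000000000000000000000000000000000000000000000000000000,nat_lit 0,nat_lit 0,nat_lit 0,nat_lit 0,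
    nat_lit 0x1800000000000000000000000000000000000000000000000000000000,nat_lit 0,nat_lit 0x48000000],
    [nat_lit 0x48000000,nat_lit 0,nat_lit 0,nat_lit 0x400000000,nat_lit 0,nat_lit 0,nat_lit 0,nat_lit 0,nat_lit 0],
    [nat_lit 0,nat_lit 0,nat_lit 18,nat_lit 0,nat_lit 18,nat_lit 0,nat_lit 64,nat_lit 0,nat_lit 0],
    [nat_lit 0x10100000000000000000,nat_lit 0,nat_lit 0,nat_lit 0x400000000000000000000,nat_lit 0,nat_lit 0,
    nat_lit 0x80000000000000000,nat_lit 0x2200000000000000000,nat_lit 0],[nat_lit 0x1000000,nat_lit 0x1000000,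
    nat_lit 0x100000,nat_lit 0,nat_lit 0x100000,nat_lit 0,nat_lit 0,nat_lit 0,nat_lit 0],[nat_lit 0x80000,nat_lit 0,
    nat_lit 0,nat_lit 0,nat_lit 0,nat_lit 0,nat_lit 0,nat_lit 0,nat_lit 0],[nat_lit 0,nat_lit 0,nat_lit 0x400000,
    nat_lit 0,nat_lit 0,nat_lit 0,nat_lit 0,nat_lit 0x10000000000000000000000000,
    nat_lit 0x10000000000000000000000000],[nat_lit 0,nat_lit 0,nat_lit 0,nat_lit 0,nat_lit 0,nat_lit 0,nat_lit 0,
    nat_lit 0x800000000000000000000000000,nat_lit 0x800000000000000000000000000],[nat_lit 0,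
    nat_lit 0x24000000000000000000000000,nat_lit 0x20000000000000000000000000,nat_lit 0x20000000000000000000000000,
    nat_lit 0x4000000000000000000000000000,nat_lit 0x4000000000000000000000000000,nat_lit 0,nat_lit 0,nat_lit 0]],
    [[nat_lit 0,nat_lit 0x2000000000000000000000000000,nat_lit 0x2000000000000000000000000000,nat_lit 0x880000000000,
    nat_lit 0,nat_lit 0,nat_lit 0x1000000000,nat_lit 0,nat_lit 0x41001000000000],[nat_lit 0,nat_lit 0,nat_lit 0,
    nat_lit 0x82000000000000,nat_lit 0,nat_lit 0,nat_lit 0x4010000000000,nat_lit 0x120000000000000,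
    nat_lit 0x8080000000000000000000000000000000000],[nat_lit 0x8080000000000000000000000000000000000,
    nat_lit 0x104000000000000000000000000000000000,nat_lit 0,nat_lit 0,nat_lit 0x104000000000000000000000000000000000,
    nat_lit 0,nat_lit 0,nat_lit 0,nat_lit 0],[nat_lit 0x60000000000000000000000000000000000,
    nat_lit 0x60000000000000000000000000000000000,nat_lit 0xc0000000000000000000000000000000000000,
    nat_lit 0xc0000000000000000000000000000000000000,nat_lit 0,nat_lit 0,nat_lit 0,nat_lit 0,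
    nat_lit 0x108000000000000000000000],[nat_lit 0x108000000000000000000000,nat_lit 0,nat_lit 0,nat_lit 0,
    nat_lit 0x11000000000000000000000,nat_lit 0x11000000000000000000000,nat_lit 0x2040000000000000000000000,
    nat_lit 0x2040000000000000000000000,nat_lit 0],[nat_lit 0,nat_lit 0,nat_lit 0,nat_lit 0,nat_lit 0,nat_lit 0,
    nat_lit 0x1400000000000000000000000,nat_lit 0x1400000000000000000000000,
    nat_lit 0x10000000000000000000000000000000000000000000000],
    [nat_lit 0x2800000000000000000000000000000000000000000000,nat_lit 0,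
    nat_lit 0x1002800000000000000000000000000000000000000000000,nat_lit 0,
    nat_lit 0x10000400000000000000000000000000000000000000000000,nat_lit 0,nat_lit 0,nat_lit 0,nat_lit 0],[nat_lit 0,
    nat_lit 0,nat_lit 0,nat_lit 0x20004000000000000000000000000000000000000000000000,nat_lit 0,
    nat_lit 0x48000000000000000000000000000000000000000000000,
    nat_lit 0x40000000000000000000000000000000000000000000000,
    nat_lit 0x8000000000000000000000000000000000000000000000000,nat_lit 0],[nat_lit 0,nat_lit 0,nat_lit 0,nat_lit 0,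
    nat_lit 0,nat_lit 0x11000000000000000000000000000000,nat_lit 0x11000000000000000000000000000000,
    nat_lit 0x10000000000000000000000000000000,nat_lit 0]],[[nat_lit 0x200000000000000000000000000000,
    nat_lit 0x200000000000000000000000000000,nat_lit 0x100000000000000000000000000000,
    nat_lit 0x100000000000000000000000000000,nat_lit 0x1000000000000000000000000000000000,nat_lit 0,nat_lit 0,
    nat_lit 0,nat_lit 0],[nat_lit 0,nat_lit 0x20000000000000000000000000000000,nat_lit 0,nat_lit 0,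
    nat_lit 0x2020000000000000000000000000000000,nat_lit 0x2000000000000000000000000000000,nat_lit 0,nat_lit 0,
    nat_lit 0],[nat_lit 0,nat_lit 0,nat_lit 0,nat_lit 0,nat_lit 0,nat_lit 0,
    nat_lit 0x8000000000000000000000000000000000000000000000000000000,nat_lit 0,nat_lit 0],[nat_lit 0,nat_lit 0,
    nat_lit 0,nat_lit 0x400000000000000000000000000000000000000000000000000000,nat_lit 0,nat_lit 0,
    nat_lit 0x10400000000000000000000000000000000000000000000000000000,
    nat_lit 0x80000000000000000000000000000000000000000000000000000,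
    nat_lit 0x80000000000000000000000000000000000000000000000000000],[nat_lit 0,
    nat_lit 0x280000000000000000000000000000000000000000,nat_lit 0,nat_lit 0,nat_lit 0,nat_lit 0,
    nat_lit 0x410000000000000000000000000000000000000000,nat_lit 0x400000000000000000000000000000000000000000,
    nat_lit 0],[nat_lit 0,nat_lit 0,nat_lit 0x80000000000000000000000000000000000000000000,nat_lit 0,
    nat_lit 0x2000000000000000000000000000000000000000000000000000000000,nat_lit 0,nat_lit 0,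
    nat_lit 0x8000000000000000000000000000000000000000000000000000000000,nat_lit 0],[nat_lit 0,nat_lit 0,nat_lit 0,
    nat_lit 0x10000000000000000000000000000000000000000000000000000000000,
    nat_lit 0x10000000000000000000000000000000000000000000000000000000000,nat_lit 0,nat_lit 0,nat_lit 0,nat_lit 0],
    [nat_lit 0x80000000000000000000000000000000000000000000000000,nat_lit 0,
    nat_lit 0x22000000000000000000000000000000000000000000000000000,
    nat_lit 0x1000000000000000000000000000000000000000000000000000,nat_lit 0x500,nat_lit 0,nat_lit 0x1000,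
    nat_lit 0x1000,nat_lit 0]]]]
    (nat_lit 1) (nat_lit 2) (nat_lit 18)
    [[nat_lit 2,nat_lit 17,nat_lit 257,nat_lit 0x100101,nat_lit 0x1001,nat_lit 0x10001,nat_lit 0x100001],[nat_lit 32,
    nat_lit 272,nat_lit 0x1110,nat_lit 0x1010,nat_lit 0x10010,nat_lit 0x100010,nat_lit 0x100110,nat_lit 0x110010,
    nat_lit 0x101010,nat_lit 0x1000010],[nat_lit 512,nat_lit 768,nat_lit 0x1200,nat_lit 0x10200,nat_lit 0x100200,
    nat_lit 0x1000200,nat_lit 0x10000200,nat_lit 0x1100,nat_lit 0x2100,nat_lit 0x11100,nat_lit 0x101100,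
    nat_lit 0x1001100,nat_lit 0x10001100,nat_lit 0x10100,nat_lit 0x20100,nat_lit 0x110100,nat_lit 0x1010100,
    nat_lit 0x10010100,nat_lit 0x100100,nat_lit 0x200100,nat_lit 0x10100100,nat_lit 0x1000100,nat_lit 0x11000100,
    nat_lit 0x10000100],[nat_lit 0x2000,nat_lit 0x3000,nat_lit 0x12000,nat_lit 0x11000,nat_lit 0x21000,
    nat_lit 0x111000,nat_lit 0x1011000,nat_lit 0x10011000,nat_lit 0x101000,nat_lit 0x102000,nat_lit 0x201000,
    nat_lit 0x1001000,nat_lit 0x10001000],[nat_lit 0x20000,nat_lit 0x30000,nat_lit 0x40000,nat_lit 0x120000,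
    nat_lit 0x1020000,nat_lit 0x10020000,nat_lit 0x110000,nat_lit 0x210000,nat_lit 0x10110000,nat_lit 0x1010000,
    nat_lit 0x11010000,nat_lit 0x10010000],[nat_lit 0x200000,nat_lit 0x10200000,nat_lit 0x1100000,nat_lit 0x11100000,
    nat_lit 0x10100000],[nat_lit 0x2000000,nat_lit 0x11000000],[nat_lit 0x20000000]]
    [.c (nat_lit 1) (nat_lit 2),.c (nat_lit 0) (nat_lit 0x8300034000c),.c (nat_lit 0) (nat_lit 0x10200600000d),
    .c (nat_lit 1) (nat_lit 0x200700500c),.c (nat_lit 0) (nat_lit 0x1020001c000d),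
    .c (nat_lit 0) (nat_lit 0x10218000000d),.c (nat_lit 0) (nat_lit 0x8200000400d),.c (nat_lit 2) (nat_lit 2),
    .c (nat_lit 0) (nat_lit 0x2080005),.r (nat_lit 0xdb8) (nat_lit 8) [nat_lit 0x90c734d14c306,
    nat_lit 0x408018c000346],.c (nat_lit 1) (nat_lit 0x84000180007),.c (nat_lit 0) (nat_lit 0x80080005),
    .c (nat_lit 1) (nat_lit 0x2000182007),.c (nat_lit 0) (nat_lit 0x8000734500c),
    .c (nat_lit 0) (nat_lit 0x801c034500c),.c (nat_lit 2) (nat_lit 0xc0000183006),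
    .r (nat_lit 0xdb8) (nat_lit 8) [nat_lit 129,nat_lit 0x50071c014c346],.c (nat_lit 3) (nat_lit 2),
    .c (nat_lit 0) (nat_lit 0x80006000005),.c (nat_lit 0) (nat_lit 0x80006000007),
    .c (nat_lit 0) (nat_lit 0x80084000005),.c (nat_lit 0) (nat_lit 0x80006002007),
    .c (nat_lit 0) (nat_lit 0xc31c634530d),.c (nat_lit 2) (nat_lit 0x2100003),.c (nat_lit 0) (nat_lit 0x80006000007),
    .r (nat_lit 0x68e) (nat_lit 4) [nat_lit 0x90801d8000306,nat_lit 0x40001090001c1,nat_lit 0x30000c4000101,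
    nat_lit 0x90021d4000302,nat_lit 0x8000193080343,nat_lit 0x40c702514c346],.c (nat_lit 0) (nat_lit 0x10018600000d),
    .c (nat_lit 0) (nat_lit 0x80006002007),.c (nat_lit 1) (nat_lit 0x21c034530d),
    .c (nat_lit 0) (nat_lit 0x80002000005),.c (nat_lit 3) (nat_lit 0xc2000004),.c (nat_lit 0) (nat_lit 0x80102000005),
    .c (nat_lit 0) (nat_lit 0x10018600400d),.c (nat_lit 0) (nat_lit 0xc300034530d),
    .c (nat_lit 2) (nat_lit 0x82200005),.c (nat_lit 0) (nat_lit 0x300600400d),.c (nat_lit 0) (nat_lit 0x8000600800d),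
    .r (nat_lit 0xdb8) (nat_lit 8) [nat_lit 0x50c700000c346,nat_lit 0x801c0140306],
    .c (nat_lit 0) (nat_lit 0x1431c034530d),.c (nat_lit 1) (nat_lit 0x10618030434c),
    .c (nat_lit 0) (nat_lit 0x80002000005),.c (nat_lit 4) (nat_lit 2),.c (nat_lit 1) (nat_lit 0x82000000003),
    .r (nat_lit 0x68e) (nat_lit 4) [nat_lit 0x9087018000306,nat_lit 0x8006091000342,nat_lit 0x3003004000101,
    nat_lit 0x500300a000181,nat_lit 0x8006013080343,nat_lit 0x40c01e514c346],.c (nat_lit 0) (nat_lit 0x8018000000d),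
    .c (nat_lit 0) (nat_lit 0x80180000007),.c (nat_lit 0) (nat_lit 0x1001801c400d),
    .c (nat_lit 1) (nat_lit 0x200734530d),.c (nat_lit 0) (nat_lit 0x80080000005),
    .c (nat_lit 0) (nat_lit 0x800001c2007),.c (nat_lit 1) (nat_lit 0x104000002007),
    .c (nat_lit 1) (nat_lit 0x82000004007),.r (nat_lit 0x68e) (nat_lit 4) [nat_lit 0x1061a410d306,
    nat_lit 0xc715d14c342,nat_lit 0x208619810d303,nat_lit 0x881a010d302,nat_lit 0xc71df0cc343,
    nat_lit 0x30c71d914c1c3],.c (nat_lit 0) (nat_lit 0x80000000007),.c (nat_lit 5) (nat_lit 2),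
    .c (nat_lit 0) (nat_lit 0x80180000005),.c (nat_lit 2) (nat_lit 0x100100003),
    .c (nat_lit 0) (nat_lit 0x80180002007),.c (nat_lit 0) (nat_lit 0xc318734530d),.c (nat_lit 2) (nat_lit 0x80100003),
    .c (nat_lit 0) (nat_lit 0x318000400d),.c (nat_lit 0) (nat_lit 0x8018000800d),
    .r (nat_lit 0xdb8) (nat_lit 8) [nat_lit 0x50c01c000c346,nat_lit 0x87000140306],
    .c (nat_lit 0) (nat_lit 0x14300734530d),.c (nat_lit 1) (nat_lit 0x10600630434c),
    .c (nat_lit 0) (nat_lit 0x80080000005),.c (nat_lit 6) (nat_lit 2),.c (nat_lit 1) (nat_lit 0x2000005006),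
    .c (nat_lit 0) (nat_lit 0x1431c74c030d),.c (nat_lit 0) (nat_lit 0x10218618034c),
    .c (nat_lit 0) (nat_lit 0x80000002007),.c (nat_lit 7) (nat_lit 2),.c (nat_lit 0) (nat_lit 0xc31c734530d),
    .c (nat_lit 8) (nat_lit 2)]]

/-- nodes -/
noncomputable def rD8k_6_5 : List RJ :=
  [.s (nat_lit 13) (nat_lit 0x500) (nat_lit 4) (nat_lit 0x20500000205000001e1000001e1000002150000021500000247000002470000024700000247000002870000028700000263000002630000020500000205) (nat_lit 0x8200000082000000a6000000a6000000720000007200000040000000400000004000000040000000000000000000000024000000240000008200000082)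
    (nat_lit 0xc1860c28e15f0d586ac35a1b50ee877440a1bd0e487e430616b0c1860c2be15f0c9864c38a1c50e2871440a2050f0872430616b0af857c27613b0b785bc3421a10d086843f21e10ea86f42be15f0af851c27613b0a185bc3a21a10c885d43f21e10de875428e15f0c986ac2de16f0d1868c4022010ea86943fa2250f887643561930c986ac28616f0d1868c3aa1d50ba875429a2250f886443461670e286d43421a10ea880440e2070fb881c54e2a71278bac35a1c50e286b43a21a10ea880440e207103881c48e2471118afc35a1950e287742ea1a10ea869440e207103881c356247129888c3ba1c50e287743221a10ba875440e1f7103881c48e2471658a6c41a1cd10286f43c21e1112889448e2a7123891c41e28712d898c3da15d10288143f21f90a687f448e2a712386ac50e20f125898c3da2050e487e43aa1bd0c8876457e2eb14d888c4c626311f88fc3c21f90f0872437a1d50f887c444624f165894c49625b11f88fc3f21e10b585ac2be15f0b3864c32a1c50e6871440a15d0f087e43361830c1860c28e15f0d186ac35a1ad10687743da1ed0fc878430619b)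
    (nat_lit 0xc19400a005002801400a005002801400a005002801400a005000c1860ca005002801400a005002801400a005002801400a005000a3857c2765002801400a005002801400a005002801400a005000af857c27613b2801400a005002801400a005002801400a005000d5864c2de1430d19400a005002801400a005002801400a005000d5864c2de16f0d1868ca005002801400a005002801400a005000d687143421d1100875440e5002801400a005002801400a005000da87143421a1100875440e2072801400a005002801400a005000ee87143421910ea85d43ee2071039400a005002801400a005000ee87143421750d2875440e207103881ca005002801400a0050010288143f21f90fe853454e2470d5891c41e5002801400a005000de88143c21e1112889454e247123891c50e20f2801400a005000e487843aa1bd0f887c449e2231298b2c4b624b11f9400a005000fc872437a1d50ec86445d62bf1118a6c4c626311f88fca005000c1860c2be1470d5868c35a1ad0ee88343da1ed0f087e43365000b585ac2be15f0c9859c38a1950e287342ba2050fc878430619b)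
    (nat_lit 6) (nat_lit 74)
    [[nat_lit 0,nat_lit 0,nat_lit 5],[nat_lit 0,nat_lit 0,nat_lit 13,nat_lit 10],[nat_lit 0,nat_lit 1,nat_lit 4],
    [nat_lit 0,nat_lit 1,nat_lit 5],[nat_lit 0,nat_lit 1,nat_lit 11,nat_lit 13],[nat_lit 0,nat_lit 1,nat_lit 12,
    nat_lit 10],[nat_lit 0,nat_lit 2,nat_lit 13],[nat_lit 0,nat_lit 5,nat_lit 0],[nat_lit 0,nat_lit 6,nat_lit 10],
    [nat_lit 0,nat_lit 6,nat_lit 11],[nat_lit 0,nat_lit 7,nat_lit 10],[nat_lit 0,nat_lit 10,nat_lit 0,nat_lit 12],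
    [nat_lit 0,nat_lit 10,nat_lit 7],[nat_lit 0,nat_lit 11,nat_lit 7],[nat_lit 0,nat_lit 12,nat_lit 0,nat_lit 10],
    [nat_lit 0,nat_lit 12,nat_lit 1,nat_lit 10],[nat_lit 0,nat_lit 12,nat_lit 1,nat_lit 11],[nat_lit 0,nat_lit 12,
    nat_lit 14,nat_lit 10],[nat_lit 0,nat_lit 12,nat_lit 14,nat_lit 11],[nat_lit 0,nat_lit 13,nat_lit 1,nat_lit 10],
    [nat_lit 0,nat_lit 13,nat_lit 1,nat_lit 11],[nat_lit 0,nat_lit 13,nat_lit 2],[nat_lit 0,nat_lit 13,nat_lit 10,
    nat_lit 0],[nat_lit 0,nat_lit 14,nat_lit 5],[nat_lit 0,nat_lit 15,nat_lit 5],[nat_lit 1,nat_lit 1,nat_lit 4],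
    [nat_lit 1,nat_lit 1,nat_lit 11,nat_lit 12],[nat_lit 1,nat_lit 3,nat_lit 12],[nat_lit 1,nat_lit 4,nat_lit 1],
    [nat_lit 1,nat_lit 4,nat_lit 14],[nat_lit 1,nat_lit 4,nat_lit 15],[nat_lit 1,nat_lit 6,nat_lit 10],[nat_lit 1,
    nat_lit 6,nat_lit 11],[nat_lit 1,nat_lit 10,nat_lit 7],[nat_lit 1,nat_lit 10,nat_lit 15,nat_lit 13],[nat_lit 1,
    nat_lit 11,nat_lit 1,nat_lit 13],[nat_lit 1,nat_lit 11,nat_lit 6],[nat_lit 1,nat_lit 11,nat_lit 7],[nat_lit 1,
    nat_lit 11,nat_lit 12,nat_lit 1],[nat_lit 1,nat_lit 11,nat_lit 15,nat_lit 13],[nat_lit 1,nat_lit 12,nat_lit 3],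
    [nat_lit 1,nat_lit 13,nat_lit 1,nat_lit 11],[nat_lit 2,nat_lit 6],[nat_lit 2,nat_lit 7],[nat_lit 2,nat_lit 12,
    nat_lit 14],[nat_lit 2,nat_lit 13,nat_lit 14],[nat_lit 2,nat_lit 14,nat_lit 12],[nat_lit 2,nat_lit 14,nat_lit 13],
    [nat_lit 2,nat_lit 15,nat_lit 13],[nat_lit 3,nat_lit 6],[nat_lit 3,nat_lit 7],[nat_lit 3,nat_lit 12,nat_lit 14],
    [nat_lit 3,nat_lit 12,nat_lit 15],[nat_lit 3,nat_lit 13,nat_lit 15],[nat_lit 3,nat_lit 15,nat_lit 12],[nat_lit 3,
    nat_lit 15,nat_lit 13],[nat_lit 4,nat_lit 8],[nat_lit 4,nat_lit 9],[nat_lit 4,nat_lit 15,nat_lit 15],[nat_lit 5,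
    nat_lit 8],[nat_lit 5,nat_lit 9],[nat_lit 5,nat_lit 14,nat_lit 14],[nat_lit 6,nat_lit 10,nat_lit 14],[nat_lit 6,
    nat_lit 10,nat_lit 15],[nat_lit 6,nat_lit 11,nat_lit 14],[nat_lit 6,nat_lit 11,nat_lit 15],[nat_lit 6,nat_lit 15,
    nat_lit 10],[nat_lit 7,nat_lit 11,nat_lit 14],[nat_lit 7,nat_lit 14,nat_lit 10],[nat_lit 7,nat_lit 14,nat_lit 11],
    [nat_lit 7,nat_lit 15,nat_lit 10],[nat_lit 7,nat_lit 15,nat_lit 11],[nat_lit 8,nat_lit 10,nat_lit 12],[nat_lit 8,
    nat_lit 10,nat_lit 13],[nat_lit 8,nat_lit 11,nat_lit 12],[nat_lit 8,nat_lit 11,nat_lit 13],[nat_lit 8,nat_lit 12,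
    nat_lit 10],[nat_lit 8,nat_lit 12,nat_lit 11],[nat_lit 8,nat_lit 13,nat_lit 11],[nat_lit 9,nat_lit 10,nat_lit 12],
    [nat_lit 9,nat_lit 10,nat_lit 13],[nat_lit 9,nat_lit 11,nat_lit 13],[nat_lit 9,nat_lit 12,nat_lit 10],[nat_lit 9,
    nat_lit 12,nat_lit 11],[nat_lit 9,nat_lit 13,nat_lit 10],[nat_lit 9,nat_lit 13,nat_lit 11],[nat_lit 10,nat_lit 12,
    nat_lit 15,nat_lit 14],[nat_lit 10,nat_lit 13,nat_lit 14,nat_lit 15],[nat_lit 10,nat_lit 13,nat_lit 15,
    nat_lit 14],[nat_lit 11,nat_lit 14,nat_lit 15,nat_lit 12],[nat_lit 11,nat_lit 15,nat_lit 14,nat_lit 12],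
    [nat_lit 11,nat_lit 15,nat_lit 14,nat_lit 13]]
    [nat_lit 0x1005,nat_lit 0x100da,nat_lit 0x1014,nat_lit 0x1015,nat_lit 0x101bd,nat_lit 0x101ca,nat_lit 0x102d,
    nat_lit 0x1050,nat_lit 0x106a,nat_lit 0x106b,nat_lit 0x107a,nat_lit 0x10a0c,nat_lit 0x10a7,nat_lit 0x10b7,
    nat_lit 0x10c0a,nat_lit 0x10c1a,nat_lit 0x10c1b,nat_lit 0x10cea,nat_lit 0x10ceb,nat_lit 0x10d1a,nat_lit 0x10d1b,
    nat_lit 0x10d2,nat_lit 0x10da0,nat_lit 0x10e5,nat_lit 0x10f5,nat_lit 0x1114,nat_lit 0x111bc,nat_lit 0x113c,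
    nat_lit 0x1141,nat_lit 0x114e,nat_lit 0x114f,nat_lit 0x116a,nat_lit 0x116b,nat_lit 0x11a7,nat_lit 0x11afd,
    nat_lit 0x11b1d,nat_lit 0x11b6,nat_lit 0x11b7,nat_lit 0x11bc1,nat_lit 0x11bfd,nat_lit 0x11c3,nat_lit 0x11d1b,
    nat_lit 294,nat_lit 295,nat_lit 0x12ce,nat_lit 0x12de,nat_lit 0x12ec,nat_lit 0x12ed,nat_lit 0x12fd,nat_lit 310,
    nat_lit 311,nat_lit 0x13ce,nat_lit 0x13cf,nat_lit 0x13df,nat_lit 0x13fc,nat_lit 0x13fd,nat_lit 328,nat_lit 329,
    nat_lit 0x14ff,nat_lit 344,nat_lit 345,nat_lit 0x15ee,nat_lit 0x16ae,nat_lit 0x16af,nat_lit 0x16be,nat_lit 0x16bf,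
    nat_lit 0x16fa,nat_lit 0x17be,nat_lit 0x17ea,nat_lit 0x17eb,nat_lit 0x17fa,nat_lit 0x17fb,nat_lit 0x18ac,
    nat_lit 0x18ad,nat_lit 0x18bc,nat_lit 0x18bd,nat_lit 0x18ca,nat_lit 0x18cb,nat_lit 0x18db,nat_lit 0x19ac,
    nat_lit 0x19ad,nat_lit 0x19bd,nat_lit 0x19ca,nat_lit 0x19cb,nat_lit 0x19da,nat_lit 0x19db,nat_lit 0x1acfe,
    nat_lit 0x1adef,nat_lit 0x1adfe,nat_lit 0x1befc,nat_lit 0x1bfec,nat_lit 0x1bfed]
    [[[nat_lit 0,nat_lit 0,nat_lit 5],[nat_lit 0,nat_lit 0,nat_lit 13,nat_lit 10],[nat_lit 0,nat_lit 1,nat_lit 4],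
    [nat_lit 0,nat_lit 1,nat_lit 5],[nat_lit 0,nat_lit 1,nat_lit 11,nat_lit 13],[nat_lit 0,nat_lit 1,nat_lit 12,
    nat_lit 10],[nat_lit 0,nat_lit 2,nat_lit 13],[nat_lit 0,nat_lit 5,nat_lit 0],[nat_lit 0,nat_lit 6,nat_lit 10],
    [nat_lit 0,nat_lit 6,nat_lit 11],[nat_lit 0,nat_lit 7,nat_lit 10],[nat_lit 0,nat_lit 10,nat_lit 0,nat_lit 12]],
    [[nat_lit 0,nat_lit 10,nat_lit 7],[nat_lit 0,nat_lit 11,nat_lit 7],[nat_lit 0,nat_lit 12,nat_lit 0,nat_lit 10],
    [nat_lit 0,nat_lit 12,nat_lit 1,nat_lit 10],[nat_lit 0,nat_lit 12,nat_lit 1,nat_lit 11],[nat_lit 0,nat_lit 12,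
    nat_lit 14,nat_lit 10],[nat_lit 0,nat_lit 12,nat_lit 14,nat_lit 11],[nat_lit 0,nat_lit 13,nat_lit 1,nat_lit 10],
    [nat_lit 0,nat_lit 13,nat_lit 1,nat_lit 11],[nat_lit 0,nat_lit 13,nat_lit 2],[nat_lit 0,nat_lit 13,nat_lit 10,
    nat_lit 0],[nat_lit 0,nat_lit 14,nat_lit 5]],[[nat_lit 0,nat_lit 15,nat_lit 5],[nat_lit 1,nat_lit 1,nat_lit 4],
    [nat_lit 1,nat_lit 1,nat_lit 11,nat_lit 12],[nat_lit 1,nat_lit 3,nat_lit 12],[nat_lit 1,nat_lit 4,nat_lit 0],
    [nat_lit 1,nat_lit 4,nat_lit 1],[nat_lit 1,nat_lit 4,nat_lit 14],[nat_lit 1,nat_lit 4,nat_lit 15],[nat_lit 1,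
    nat_lit 5,nat_lit 0],[nat_lit 1,nat_lit 6,nat_lit 10],[nat_lit 1,nat_lit 6,nat_lit 11],[nat_lit 1,nat_lit 10,
    nat_lit 0,nat_lit 12]],[[nat_lit 1,nat_lit 10,nat_lit 0,nat_lit 13],[nat_lit 1,nat_lit 10,nat_lit 7],[nat_lit 1,
    nat_lit 10,nat_lit 15,nat_lit 13],[nat_lit 1,nat_lit 11,nat_lit 0,nat_lit 12],[nat_lit 1,nat_lit 11,nat_lit 0,
    nat_lit 13],[nat_lit 1,nat_lit 11,nat_lit 1,nat_lit 13],[nat_lit 1,nat_lit 11,nat_lit 6],[nat_lit 1,nat_lit 11,
    nat_lit 7],[nat_lit 1,nat_lit 11,nat_lit 12,nat_lit 1],[nat_lit 1,nat_lit 11,nat_lit 13,nat_lit 0],[nat_lit 1,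
    nat_lit 11,nat_lit 15,nat_lit 13],[nat_lit 1,nat_lit 12,nat_lit 3]],[[nat_lit 1,nat_lit 12,nat_lit 10,nat_lit 0],
    [nat_lit 1,nat_lit 13,nat_lit 1,nat_lit 11],[nat_lit 2,nat_lit 0,nat_lit 13],[nat_lit 2,nat_lit 6],[nat_lit 2,
    nat_lit 7],[nat_lit 2,nat_lit 12,nat_lit 14],[nat_lit 2,nat_lit 13,nat_lit 0],[nat_lit 2,nat_lit 13,nat_lit 14],
    [nat_lit 2,nat_lit 14,nat_lit 12],[nat_lit 2,nat_lit 14,nat_lit 13],[nat_lit 2,nat_lit 15,nat_lit 13],[nat_lit 3,
    nat_lit 1,nat_lit 12]],[[nat_lit 3,nat_lit 6],[nat_lit 3,nat_lit 7],[nat_lit 3,nat_lit 12,nat_lit 1],[nat_lit 3,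
    nat_lit 12,nat_lit 14],[nat_lit 3,nat_lit 12,nat_lit 15],[nat_lit 3,nat_lit 13,nat_lit 15],[nat_lit 3,nat_lit 15,
    nat_lit 12],[nat_lit 3,nat_lit 15,nat_lit 13],[nat_lit 4,nat_lit 0,nat_lit 1],[nat_lit 4,nat_lit 1,nat_lit 1],
    [nat_lit 4,nat_lit 8],[nat_lit 4,nat_lit 9]],[[nat_lit 4,nat_lit 14,nat_lit 1],[nat_lit 4,nat_lit 15,nat_lit 1],
    [nat_lit 4,nat_lit 15,nat_lit 15],[nat_lit 5,nat_lit 0,nat_lit 0],[nat_lit 5,nat_lit 0,nat_lit 1],[nat_lit 5,
    nat_lit 0,nat_lit 14],[nat_lit 5,nat_lit 0,nat_lit 15],[nat_lit 5,nat_lit 8],[nat_lit 5,nat_lit 9],[nat_lit 5,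
    nat_lit 14,nat_lit 14],[nat_lit 6,nat_lit 1,nat_lit 11],[nat_lit 6,nat_lit 2]],[[nat_lit 6,nat_lit 3],[nat_lit 6,
    nat_lit 10,nat_lit 0],[nat_lit 6,nat_lit 10,nat_lit 1],[nat_lit 6,nat_lit 10,nat_lit 14],[nat_lit 6,nat_lit 10,
    nat_lit 15],[nat_lit 6,nat_lit 11,nat_lit 0],[nat_lit 6,nat_lit 11,nat_lit 1],[nat_lit 6,nat_lit 11,nat_lit 14],
    [nat_lit 6,nat_lit 11,nat_lit 15],[nat_lit 6,nat_lit 15,nat_lit 10],[nat_lit 7,nat_lit 0,nat_lit 10],[nat_lit 7,
    nat_lit 0,nat_lit 11]],[[nat_lit 7,nat_lit 1,nat_lit 10],[nat_lit 7,nat_lit 1,nat_lit 11],[nat_lit 7,nat_lit 2],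
    [nat_lit 7,nat_lit 3],[nat_lit 7,nat_lit 10,nat_lit 0],[nat_lit 7,nat_lit 11,nat_lit 14],[nat_lit 7,nat_lit 14,
    nat_lit 10],[nat_lit 7,nat_lit 14,nat_lit 11],[nat_lit 7,nat_lit 15,nat_lit 10],[nat_lit 7,nat_lit 15,nat_lit 11],
    [nat_lit 8,nat_lit 4],[nat_lit 8,nat_lit 5]],[[nat_lit 8,nat_lit 10,nat_lit 12],[nat_lit 8,nat_lit 10,nat_lit 13],
    [nat_lit 8,nat_lit 11,nat_lit 12],[nat_lit 8,nat_lit 11,nat_lit 13],[nat_lit 8,nat_lit 12,nat_lit 10],[nat_lit 8,
    nat_lit 12,nat_lit 11],[nat_lit 8,nat_lit 13,nat_lit 11],[nat_lit 9,nat_lit 4],[nat_lit 9,nat_lit 5],[nat_lit 9,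
    nat_lit 10,nat_lit 12],[nat_lit 9,nat_lit 10,nat_lit 13],[nat_lit 9,nat_lit 11,nat_lit 13]],[[nat_lit 9,
    nat_lit 12,nat_lit 10],[nat_lit 9,nat_lit 12,nat_lit 11],[nat_lit 9,nat_lit 13,nat_lit 10],[nat_lit 9,nat_lit 13,
    nat_lit 11],[nat_lit 10,nat_lit 0,nat_lit 0,nat_lit 13],[nat_lit 10,nat_lit 0,nat_lit 1,nat_lit 12],[nat_lit 10,
    nat_lit 0,nat_lit 6],[nat_lit 10,nat_lit 0,nat_lit 7],[nat_lit 10,nat_lit 0,nat_lit 12,nat_lit 0],[nat_lit 10,
    nat_lit 0,nat_lit 12,nat_lit 1],[nat_lit 10,nat_lit 0,nat_lit 12,nat_lit 14],[nat_lit 10,nat_lit 0,nat_lit 13,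
    nat_lit 1]],[[nat_lit 10,nat_lit 1,nat_lit 6],[nat_lit 10,nat_lit 6,nat_lit 15],[nat_lit 10,nat_lit 7,nat_lit 0],
    [nat_lit 10,nat_lit 7,nat_lit 1],[nat_lit 10,nat_lit 7,nat_lit 14],[nat_lit 10,nat_lit 7,nat_lit 15],[nat_lit 10,
    nat_lit 8,nat_lit 12],[nat_lit 10,nat_lit 9,nat_lit 12],[nat_lit 10,nat_lit 9,nat_lit 13],[nat_lit 10,nat_lit 12,
    nat_lit 8],[nat_lit 10,nat_lit 12,nat_lit 9],[nat_lit 10,nat_lit 12,nat_lit 15,nat_lit 14]],[[nat_lit 10,
    nat_lit 13,nat_lit 8],[nat_lit 10,nat_lit 13,nat_lit 9],[nat_lit 10,nat_lit 13,nat_lit 14,nat_lit 15],[nat_lit 10,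
    nat_lit 13,nat_lit 15,nat_lit 14],[nat_lit 10,nat_lit 14,nat_lit 6],[nat_lit 10,nat_lit 15,nat_lit 6],[nat_lit 10,
    nat_lit 15,nat_lit 13,nat_lit 1],[nat_lit 11,nat_lit 0,nat_lit 6],[nat_lit 11,nat_lit 0,nat_lit 12,nat_lit 1],
    [nat_lit 11,nat_lit 0,nat_lit 12,nat_lit 14],[nat_lit 11,nat_lit 0,nat_lit 13,nat_lit 1],[nat_lit 11,nat_lit 1,
    nat_lit 6]],[[nat_lit 11,nat_lit 1,nat_lit 13,nat_lit 1],[nat_lit 11,nat_lit 6,nat_lit 1],[nat_lit 11,nat_lit 7,
    nat_lit 0],[nat_lit 11,nat_lit 7,nat_lit 1],[nat_lit 11,nat_lit 7,nat_lit 14],[nat_lit 11,nat_lit 7,nat_lit 15],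
    [nat_lit 11,nat_lit 8,nat_lit 12],[nat_lit 11,nat_lit 8,nat_lit 13],[nat_lit 11,nat_lit 9,nat_lit 12],[nat_lit 11,
    nat_lit 9,nat_lit 13],[nat_lit 11,nat_lit 12,nat_lit 1,nat_lit 1],[nat_lit 11,nat_lit 12,nat_lit 8]],[[nat_lit 11,
    nat_lit 13,nat_lit 0,nat_lit 1],[nat_lit 11,nat_lit 13,nat_lit 8],[nat_lit 11,nat_lit 13,nat_lit 9],[nat_lit 11,
    nat_lit 14,nat_lit 6],[nat_lit 11,nat_lit 14,nat_lit 7],[nat_lit 11,nat_lit 14,nat_lit 15,nat_lit 12],[nat_lit 11,
    nat_lit 15,nat_lit 6],[nat_lit 11,nat_lit 15,nat_lit 13,nat_lit 1],[nat_lit 11,nat_lit 15,nat_lit 14,nat_lit 12],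
    [nat_lit 11,nat_lit 15,nat_lit 14,nat_lit 13],[nat_lit 12,nat_lit 0,nat_lit 10,nat_lit 0],[nat_lit 12,nat_lit 1,
    nat_lit 1,nat_lit 11]],[[nat_lit 12,nat_lit 1,nat_lit 3],[nat_lit 12,nat_lit 1,nat_lit 10,nat_lit 0],[nat_lit 12,
    nat_lit 1,nat_lit 11,nat_lit 0],[nat_lit 12,nat_lit 2,nat_lit 14],[nat_lit 12,nat_lit 3,nat_lit 1],[nat_lit 12,
    nat_lit 3,nat_lit 15],[nat_lit 12,nat_lit 8,nat_lit 10],[nat_lit 12,nat_lit 8,nat_lit 11],[nat_lit 12,nat_lit 9,
    nat_lit 10],[nat_lit 12,nat_lit 10,nat_lit 0,nat_lit 1],[nat_lit 12,nat_lit 10,nat_lit 8],[nat_lit 12,nat_lit 10,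
    nat_lit 9]],[[nat_lit 12,nat_lit 11,nat_lit 8],[nat_lit 12,nat_lit 11,nat_lit 9],[nat_lit 12,nat_lit 11,
    nat_lit 14,nat_lit 15],[nat_lit 12,nat_lit 11,nat_lit 15,nat_lit 14],[nat_lit 12,nat_lit 14,nat_lit 2],
    [nat_lit 12,nat_lit 14,nat_lit 3],[nat_lit 12,nat_lit 14,nat_lit 10,nat_lit 0],[nat_lit 12,nat_lit 14,nat_lit 11,
    nat_lit 0],[nat_lit 12,nat_lit 15,nat_lit 3],[nat_lit 12,nat_lit 15,nat_lit 14,nat_lit 10],[nat_lit 13,nat_lit 0,
    nat_lit 1,nat_lit 11],[nat_lit 13,nat_lit 0,nat_lit 2]],[[nat_lit 13,nat_lit 1,nat_lit 10,nat_lit 0],[nat_lit 13,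
    nat_lit 1,nat_lit 10,nat_lit 15],[nat_lit 13,nat_lit 1,nat_lit 11,nat_lit 0],[nat_lit 13,nat_lit 1,nat_lit 11,
    nat_lit 1],[nat_lit 13,nat_lit 1,nat_lit 11,nat_lit 15],[nat_lit 13,nat_lit 2,nat_lit 0],[nat_lit 13,nat_lit 2,
    nat_lit 14],[nat_lit 13,nat_lit 2,nat_lit 15],[nat_lit 13,nat_lit 3,nat_lit 15],[nat_lit 13,nat_lit 8,nat_lit 10],
    [nat_lit 13,nat_lit 8,nat_lit 11],[nat_lit 13,nat_lit 9,nat_lit 10]],[[nat_lit 13,nat_lit 9,nat_lit 11],
    [nat_lit 13,nat_lit 10,nat_lit 0,nat_lit 0],[nat_lit 13,nat_lit 10,nat_lit 9],[nat_lit 13,nat_lit 11,nat_lit 8],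
    [nat_lit 13,nat_lit 11,nat_lit 9],[nat_lit 13,nat_lit 11,nat_lit 15,nat_lit 14],[nat_lit 13,nat_lit 14,nat_lit 2],
    [nat_lit 13,nat_lit 14,nat_lit 15,nat_lit 10],[nat_lit 13,nat_lit 15,nat_lit 3],[nat_lit 13,nat_lit 15,nat_lit 14,
    nat_lit 10],[nat_lit 14,nat_lit 1,nat_lit 4],[nat_lit 14,nat_lit 2,nat_lit 12]],[[nat_lit 14,nat_lit 2,
    nat_lit 13],[nat_lit 14,nat_lit 3,nat_lit 12],[nat_lit 14,nat_lit 5,nat_lit 0],[nat_lit 14,nat_lit 5,nat_lit 14],
    [nat_lit 14,nat_lit 6,nat_lit 10],[nat_lit 14,nat_lit 6,nat_lit 11],[nat_lit 14,nat_lit 7,nat_lit 11],[nat_lit 14,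
    nat_lit 10,nat_lit 0,nat_lit 12],[nat_lit 14,nat_lit 10,nat_lit 7],[nat_lit 14,nat_lit 10,nat_lit 12,nat_lit 15],
    [nat_lit 14,nat_lit 10,nat_lit 13,nat_lit 15],[nat_lit 14,nat_lit 11,nat_lit 0,nat_lit 12]],[[nat_lit 14,
    nat_lit 11,nat_lit 7],[nat_lit 14,nat_lit 12,nat_lit 2],[nat_lit 14,nat_lit 12,nat_lit 11,nat_lit 15],[nat_lit 14,
    nat_lit 13,nat_lit 2],[nat_lit 14,nat_lit 13,nat_lit 11,nat_lit 15],[nat_lit 14,nat_lit 14,nat_lit 5],[nat_lit 14,
    nat_lit 15,nat_lit 10,nat_lit 13],[nat_lit 14,nat_lit 15,nat_lit 12,nat_lit 11],[nat_lit 15,nat_lit 1,nat_lit 4],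
    [nat_lit 15,nat_lit 3,nat_lit 12],[nat_lit 15,nat_lit 3,nat_lit 13],[nat_lit 15,nat_lit 4,nat_lit 15]],
    [[nat_lit 15,nat_lit 5,nat_lit 0],[nat_lit 15,nat_lit 6,nat_lit 10],[nat_lit 15,nat_lit 6,nat_lit 11],[nat_lit 15,
    nat_lit 10,nat_lit 6],[nat_lit 15,nat_lit 10,nat_lit 7],[nat_lit 15,nat_lit 10,nat_lit 13,nat_lit 14],[nat_lit 15,
    nat_lit 11,nat_lit 7],[nat_lit 15,nat_lit 12,nat_lit 3],[nat_lit 15,nat_lit 12,nat_lit 11,nat_lit 14],[nat_lit 15,
    nat_lit 13,nat_lit 1,nat_lit 10],[nat_lit 15,nat_lit 13,nat_lit 1,nat_lit 11],[nat_lit 15,nat_lit 13,nat_lit 2]],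
    [[nat_lit 15,nat_lit 13,nat_lit 3],[nat_lit 15,nat_lit 14,nat_lit 10,nat_lit 12],[nat_lit 15,nat_lit 14,
    nat_lit 10,nat_lit 13],[nat_lit 15,nat_lit 14,nat_lit 12,nat_lit 11],[nat_lit 15,nat_lit 14,nat_lit 13,
    nat_lit 11],[nat_lit 15,nat_lit 15,nat_lit 4]]]
    [[nat_lit 7,nat_lit 22,nat_lit 28,nat_lit 32,nat_lit 45,nat_lit 48,nat_lit 54,nat_lit 75,nat_lit 85,nat_lit 89,
    nat_lit 100,nat_lit 128],[nat_lit 134,nat_lit 158,nat_lit 178,nat_lit 181,nat_lit 182,nat_lit 198,nat_lit 199,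
    nat_lit 204,nat_lit 206,nat_lit 209,nat_lit 217,nat_lit 230],[nat_lit 252,nat_lit 29,nat_lit 44,nat_lit 62,
    nat_lit 68,nat_lit 69,nat_lit 72,nat_lit 73,nat_lit 76,nat_lit 86,nat_lit 90,nat_lit 129],[nat_lit 131,
    nat_lit 135,nat_lit 150,nat_lit 152,nat_lit 154,nat_lit 156,nat_lit 157,nat_lit 159,nat_lit 166,nat_lit 168,
    nat_lit 175,nat_lit 184],[nat_lit 189,nat_lit 207,nat_lit 21,nat_lit 83,nat_lit 98,nat_lit 196,nat_lit 203,
    nat_lit 222,nat_lit 241,nat_lit 243,nat_lit 263,nat_lit 47],[nat_lit 84,nat_lit 99,nat_lit 180,nat_lit 197,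
    nat_lit 200,nat_lit 224,nat_lit 259,nat_lit 264,nat_lit 2,nat_lit 25,nat_lit 106,nat_lit 115],[nat_lit 226,
    nat_lit 248,nat_lit 269,nat_lit 0,nat_lit 3,nat_lit 23,nat_lit 24,nat_lit 107,nat_lit 116,nat_lit 245,nat_lit 42,
    nat_lit 51],[nat_lit 60,nat_lit 126,nat_lit 132,nat_lit 148,nat_lit 149,nat_lit 151,nat_lit 155,nat_lit 171,
    nat_lit 174,nat_lit 255,nat_lit 12,nat_lit 13],[nat_lit 37,nat_lit 43,nat_lit 52,nat_lit 61,nat_lit 127,
    nat_lit 172,nat_lit 236,nat_lit 240,nat_lit 256,nat_lit 258,nat_lit 70,nat_lit 79],[nat_lit 141,nat_lit 144,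
    nat_lit 167,nat_lit 169,nat_lit 190,nat_lit 192,nat_lit 219,nat_lit 71,nat_lit 80,nat_lit 142,nat_lit 145,
    nat_lit 170],[nat_lit 191,nat_lit 193,nat_lit 218,nat_lit 220,nat_lit 1,nat_lit 5,nat_lit 8,nat_lit 10,nat_lit 14,
    nat_lit 15,nat_lit 17,nat_lit 19],[nat_lit 33,nat_lit 93,nat_lit 94,nat_lit 96,nat_lit 102,nat_lit 104,
    nat_lit 112,nat_lit 120,nat_lit 122,nat_lit 186,nat_lit 188,nat_lit 201],[nat_lit 213,nat_lit 215,nat_lit 223,
    nat_lit 225,nat_lit 232,nat_lit 253,nat_lit 261,nat_lit 9,nat_lit 16,nat_lit 18,nat_lit 20,nat_lit 34],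
    [nat_lit 49,nat_lit 82,nat_lit 95,nat_lit 97,nat_lit 103,nat_lit 105,nat_lit 113,nat_lit 114,nat_lit 121,
    nat_lit 123,nat_lit 179,nat_lit 187],[nat_lit 202,nat_lit 214,nat_lit 216,nat_lit 233,nat_lit 234,nat_lit 247,
    nat_lit 254,nat_lit 262,nat_lit 267,nat_lit 268,nat_lit 11,nat_lit 26],[nat_lit 27,nat_lit 35,nat_lit 39,
    nat_lit 56,nat_lit 59,nat_lit 66,nat_lit 108,nat_lit 110,nat_lit 117,nat_lit 125,nat_lit 138,nat_lit 139],
    [nat_lit 162,nat_lit 164,nat_lit 173,nat_lit 176,nat_lit 227,nat_lit 229,nat_lit 235,nat_lit 239,nat_lit 249,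
    nat_lit 265,nat_lit 4,nat_lit 6],[nat_lit 36,nat_lit 38,nat_lit 40,nat_lit 41,nat_lit 46,nat_lit 50,nat_lit 57,
    nat_lit 58,nat_lit 67,nat_lit 109,nat_lit 111,nat_lit 118],[nat_lit 119,nat_lit 124,nat_lit 140,nat_lit 163,
    nat_lit 165,nat_lit 177,nat_lit 228,nat_lit 246,nat_lit 250,nat_lit 266,nat_lit 30,nat_lit 53],[nat_lit 55,
    nat_lit 63,nat_lit 77,nat_lit 81,nat_lit 87,nat_lit 91,nat_lit 101,nat_lit 130,nat_lit 136,nat_lit 143,
    nat_lit 147,nat_lit 153],[nat_lit 160,nat_lit 183,nat_lit 195,nat_lit 210,nat_lit 221,nat_lit 231,nat_lit 257,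
    nat_lit 260,nat_lit 31,nat_lit 64,nat_lit 65,nat_lit 74],[nat_lit 78,nat_lit 88,nat_lit 92,nat_lit 133,
    nat_lit 137,nat_lit 146,nat_lit 161,nat_lit 185,nat_lit 194,nat_lit 205,nat_lit 208,nat_lit 211],[nat_lit 212,
    nat_lit 237,nat_lit 238,nat_lit 242,nat_lit 244,nat_lit 251]]
    [[nat_lit 75,nat_lit 124,nat_lit 68,nat_lit 76,nat_lit 202,nat_lit 125,nat_lit 203,nat_lit 0,nat_lit 126,
    nat_lit 151,nat_lit 127,nat_lit 178],[nat_lit 94,nat_lit 95,nat_lit 128,nat_lit 129,nat_lit 152,nat_lit 130,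
    nat_lit 153,nat_lit 131,nat_lit 154,nat_lit 50,nat_lit 1,nat_lit 77],[nat_lit 78,nat_lit 69,nat_lit 179,
    nat_lit 180,nat_lit 2,nat_lit 25,nat_lit 226,nat_lit 248,nat_lit 3,nat_lit 132,nat_lit 155,nat_lit 181],
    [nat_lit 204,nat_lit 96,nat_lit 205,nat_lit 182,nat_lit 206,nat_lit 207,nat_lit 82,nat_lit 97,nat_lit 26,
    nat_lit 4,nat_lit 208,nat_lit 59],[nat_lit 5,nat_lit 156,nat_lit 209,nat_lit 83,nat_lit 98,nat_lit 227,nat_lit 6,
    nat_lit 228,nat_lit 183,nat_lit 210,nat_lit 211,nat_lit 184],[nat_lit 84,nat_lit 99,nat_lit 27,nat_lit 229,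
    nat_lit 249,nat_lit 250,nat_lit 185,nat_lit 212,nat_lit 28,nat_lit 29,nat_lit 106,nat_lit 115],[nat_lit 30,
    nat_lit 31,nat_lit 251,nat_lit 7,nat_lit 32,nat_lit 230,nat_lit 252,nat_lit 107,nat_lit 116,nat_lit 231,
    nat_lit 157,nat_lit 51],[nat_lit 60,nat_lit 8,nat_lit 33,nat_lit 232,nat_lit 253,nat_lit 9,nat_lit 34,nat_lit 233,
    nat_lit 254,nat_lit 133,nat_lit 134,nat_lit 158],[nat_lit 135,nat_lit 159,nat_lit 52,nat_lit 61,nat_lit 10,
    nat_lit 234,nat_lit 136,nat_lit 160,nat_lit 137,nat_lit 161,nat_lit 70,nat_lit 79],[nat_lit 186,nat_lit 213,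
    nat_lit 187,nat_lit 214,nat_lit 138,nat_lit 162,nat_lit 163,nat_lit 71,nat_lit 80,nat_lit 188,nat_lit 215,
    nat_lit 216],[nat_lit 139,nat_lit 164,nat_lit 140,nat_lit 165,nat_lit 217,nat_lit 189,nat_lit 85,nat_lit 100,
    nat_lit 11,nat_lit 35,nat_lit 235,nat_lit 36],[nat_lit 86,nat_lit 255,nat_lit 12,nat_lit 37,nat_lit 236,
    nat_lit 256,nat_lit 190,nat_lit 191,nat_lit 218,nat_lit 108,nat_lit 117,nat_lit 237],[nat_lit 109,nat_lit 118,
    nat_lit 257,nat_lit 238,nat_lit 87,nat_lit 88,nat_lit 38,nat_lit 89,nat_lit 39,nat_lit 239,nat_lit 40,nat_lit 90],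
    [nat_lit 41,nat_lit 42,nat_lit 13,nat_lit 43,nat_lit 240,nat_lit 258,nat_lit 192,nat_lit 219,nat_lit 193,
    nat_lit 220,nat_lit 44,nat_lit 110],[nat_lit 45,nat_lit 111,nat_lit 119,nat_lit 91,nat_lit 101,nat_lit 194,
    nat_lit 92,nat_lit 46,nat_lit 195,nat_lit 221,nat_lit 14,nat_lit 166],[nat_lit 62,nat_lit 15,nat_lit 16,
    nat_lit 241,nat_lit 47,nat_lit 259,nat_lit 141,nat_lit 167,nat_lit 142,nat_lit 48,nat_lit 112,nat_lit 120],
    [nat_lit 113,nat_lit 121,nat_lit 260,nat_lit 242,nat_lit 53,nat_lit 63,nat_lit 17,nat_lit 18,nat_lit 64,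
    nat_lit 143,nat_lit 168,nat_lit 54],[nat_lit 19,nat_lit 261,nat_lit 20,nat_lit 49,nat_lit 262,nat_lit 21,
    nat_lit 243,nat_lit 263,nat_lit 264,nat_lit 144,nat_lit 169,nat_lit 145],[nat_lit 170,nat_lit 22,nat_lit 122,
    nat_lit 114,nat_lit 123,nat_lit 244,nat_lit 55,nat_lit 146,nat_lit 65,nat_lit 147,nat_lit 72,nat_lit 196],
    [nat_lit 222,nat_lit 197,nat_lit 23,nat_lit 245,nat_lit 148,nat_lit 171,nat_lit 172,nat_lit 198,nat_lit 102,
    nat_lit 265,nat_lit 266,nat_lit 199],[nat_lit 103,nat_lit 56,nat_lit 267,nat_lit 57,nat_lit 268,nat_lit 81,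
    nat_lit 223,nat_lit 173,nat_lit 73,nat_lit 200,nat_lit 224,nat_lit 269],[nat_lit 24,nat_lit 149,nat_lit 174,
    nat_lit 93,nat_lit 104,nat_lit 246,nat_lit 105,nat_lit 66,nat_lit 247,nat_lit 150,nat_lit 175,nat_lit 58],
    [nat_lit 67,nat_lit 201,nat_lit 225,nat_lit 176,nat_lit 177,nat_lit 74]]
    [[[nat_lit 241,nat_lit 243],[nat_lit 241,nat_lit 243],[nat_lit 237,nat_lit 238,nat_lit 242,nat_lit 244],
    [nat_lit 237,nat_lit 238,nat_lit 242,nat_lit 244],[nat_lit 237,nat_lit 238,nat_lit 242,nat_lit 244],[nat_lit 237,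
    nat_lit 238,nat_lit 242,nat_lit 244],[nat_lit 226],[],[],[],[nat_lit 245],[nat_lit 227,nat_lit 229,nat_lit 235,
    nat_lit 239]],[[nat_lit 227,nat_lit 229,nat_lit 235,nat_lit 239],[],[nat_lit 231],[nat_lit 231],[nat_lit 231],
    [nat_lit 231],[nat_lit 231],[nat_lit 233,nat_lit 234,nat_lit 247],[nat_lit 233,nat_lit 234,nat_lit 247],
    [nat_lit 233,nat_lit 234,nat_lit 247],[nat_lit 233,nat_lit 234,nat_lit 247],[nat_lit 230]],[[nat_lit 228,
    nat_lit 246],[nat_lit 64,nat_lit 65],[nat_lit 64,nat_lit 65],[nat_lit 62],[nat_lit 60],[nat_lit 60],[nat_lit 60],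
    [nat_lit 60],[],[],[],[nat_lit 59,nat_lit 66]],[[nat_lit 59,nat_lit 66],[nat_lit 59,nat_lit 66],[nat_lit 59,
    nat_lit 66],[],[],[],[],[],[],[],[],[nat_lit 63]],[[nat_lit 63],[],[nat_lit 21],[],[nat_lit 0,nat_lit 3,
    nat_lit 23,nat_lit 24],[],[nat_lit 9,nat_lit 16,nat_lit 18,nat_lit 20],[nat_lit 9,nat_lit 16,nat_lit 18,
    nat_lit 20],[nat_lit 7,nat_lit 22],[nat_lit 7,nat_lit 22],[nat_lit 4,nat_lit 6],[nat_lit 78]],[[nat_lit 79],[],
    [nat_lit 77,nat_lit 81],[nat_lit 77,nat_lit 81],[nat_lit 77,nat_lit 81],[],[],[],[],[],[],[nat_lit 52]],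
    [[nat_lit 54],[nat_lit 50,nat_lit 57,nat_lit 58],[nat_lit 50,nat_lit 57,nat_lit 58],[nat_lit 98],[nat_lit 98],
    [nat_lit 98],[nat_lit 98],[nat_lit 94,nat_lit 96,nat_lit 102,nat_lit 104],[],[nat_lit 100],[nat_lit 74],[]],
    [[nat_lit 68,nat_lit 69,nat_lit 72,nat_lit 73],[],[],[],[],[nat_lit 71],[nat_lit 71],[nat_lit 71],[nat_lit 71],[],
    [],[]],[[],[],[nat_lit 115],[],[nat_lit 117],[],[],[],[nat_lit 118,nat_lit 119],[nat_lit 118,nat_lit 119],[],
    [nat_lit 84]],[[],[],[],[],[nat_lit 87,nat_lit 91],[nat_lit 87,nat_lit 91],[nat_lit 82],[nat_lit 151,nat_lit 155,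
    nat_lit 171,nat_lit 174],[],[nat_lit 162,nat_lit 164,nat_lit 173,nat_lit 176],[nat_lit 162,nat_lit 164,
    nat_lit 173,nat_lit 176],[nat_lit 170]],[[nat_lit 153,nat_lit 160],[nat_lit 153,nat_lit 160],[],[],[],[],[],[],[],
    [],[],[]],[[],[],[nat_lit 107],[nat_lit 107],[nat_lit 107],[nat_lit 107],[nat_lit 112],[],[],[],[],[]],
    [[nat_lit 113,nat_lit 114],[nat_lit 113,nat_lit 114],[nat_lit 113,nat_lit 114],[nat_lit 113,nat_lit 114],[],
    [nat_lit 109,nat_lit 111],[nat_lit 109,nat_lit 111],[nat_lit 203,nat_lit 222],[nat_lit 203,nat_lit 222],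
    [nat_lit 203,nat_lit 222],[nat_lit 203,nat_lit 222],[nat_lit 205,nat_lit 208,nat_lit 211,nat_lit 212]],
    [[nat_lit 205,nat_lit 208,nat_lit 211,nat_lit 212],[nat_lit 219],[],[],[],[],[nat_lit 213,nat_lit 215,nat_lit 223,
    nat_lit 225],[nat_lit 213,nat_lit 215,nat_lit 223,nat_lit 225],[],[],[nat_lit 210,nat_lit 221],[nat_lit 210,
    nat_lit 221]],[[nat_lit 202,nat_lit 214,nat_lit 216],[nat_lit 202,nat_lit 214,nat_lit 216],[nat_lit 202,
    nat_lit 214,nat_lit 216],[nat_lit 204,nat_lit 206,nat_lit 209,nat_lit 217],[nat_lit 204,nat_lit 206,nat_lit 209,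
    nat_lit 217],[nat_lit 204,nat_lit 206,nat_lit 209,nat_lit 217],[],[],[],[],[],[nat_lit 133,nat_lit 137,
    nat_lit 146]],[[nat_lit 133,nat_lit 137,nat_lit 146],[nat_lit 133,nat_lit 137,nat_lit 146],[nat_lit 133,
    nat_lit 137,nat_lit 146],[],[nat_lit 129,nat_lit 131,nat_lit 135,nat_lit 150],[nat_lit 129,nat_lit 131,
    nat_lit 135,nat_lit 150],[],[],[nat_lit 127],[nat_lit 125,nat_lit 138,nat_lit 139],[nat_lit 125,nat_lit 138,
    nat_lit 139],[nat_lit 125,nat_lit 138,nat_lit 139]],[[nat_lit 142,nat_lit 145],[nat_lit 142,nat_lit 145],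
    [nat_lit 142,nat_lit 145],[nat_lit 142,nat_lit 145],[nat_lit 128,nat_lit 134],[nat_lit 128,nat_lit 134],
    [nat_lit 128,nat_lit 134],[nat_lit 128,nat_lit 134],[nat_lit 124,nat_lit 140],[nat_lit 124,nat_lit 140],
    [nat_lit 263],[nat_lit 263]],[[nat_lit 251],[nat_lit 251],[nat_lit 251],[nat_lit 251],[nat_lit 251],[nat_lit 248,
    nat_lit 269],[nat_lit 248,nat_lit 269],[nat_lit 248,nat_lit 269],[],[nat_lit 253,nat_lit 261],[nat_lit 253,
    nat_lit 261],[nat_lit 256,nat_lit 258]],[[nat_lit 256,nat_lit 258],[nat_lit 249,nat_lit 265],[nat_lit 249,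
    nat_lit 265],[],[],[],[nat_lit 252],[nat_lit 252],[nat_lit 250,nat_lit 266],[nat_lit 250,nat_lit 266],
    [nat_lit 185,nat_lit 194],[]],[[],[nat_lit 184,nat_lit 189],[nat_lit 180,nat_lit 197,nat_lit 200],[nat_lit 180,
    nat_lit 197,nat_lit 200],[nat_lit 190,nat_lit 192],[nat_lit 190,nat_lit 192],[],[],[],[],[],[nat_lit 191,
    nat_lit 193]],[[nat_lit 191,nat_lit 193],[nat_lit 183,nat_lit 195],[nat_lit 183,nat_lit 195],[nat_lit 179,
    nat_lit 187],[nat_lit 179,nat_lit 187],[nat_lit 178,nat_lit 181,nat_lit 182,nat_lit 198,nat_lit 199],[],[],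
    [nat_lit 31],[nat_lit 29,nat_lit 44],[nat_lit 29,nat_lit 44],[nat_lit 42]],[[nat_lit 47],[],[],[nat_lit 26,
    nat_lit 27,nat_lit 35,nat_lit 39],[nat_lit 26,nat_lit 27,nat_lit 35,nat_lit 39],[nat_lit 26,nat_lit 27,nat_lit 35,
    nat_lit 39],[],[nat_lit 30],[nat_lit 30],[nat_lit 34,nat_lit 49],[nat_lit 34,nat_lit 49],[nat_lit 34,nat_lit 49]],
    [[nat_lit 34,nat_lit 49],[nat_lit 28,nat_lit 32,nat_lit 45,nat_lit 48],[nat_lit 28,nat_lit 32,nat_lit 45,
    nat_lit 48],[nat_lit 28,nat_lit 32,nat_lit 45,nat_lit 48],[nat_lit 28,nat_lit 32,nat_lit 45,nat_lit 48],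
    [nat_lit 36,nat_lit 38,nat_lit 40,nat_lit 41,nat_lit 46]]]
    (nat_lit 270) [nat_lit 0,nat_lit 1,nat_lit 2,nat_lit 3,nat_lit 4,nat_lit 5,nat_lit 6,nat_lit 7,nat_lit 8,
    nat_lit 9,nat_lit 10,nat_lit 11,nat_lit 12,nat_lit 13,nat_lit 14,nat_lit 15,nat_lit 16,nat_lit 17,nat_lit 18,
    nat_lit 19,nat_lit 20,nat_lit 21,nat_lit 22,nat_lit 23,nat_lit 24,nat_lit 25,nat_lit 26,nat_lit 27,nat_lit 29,
    nat_lit 30,nat_lit 31,nat_lit 33,nat_lit 34,nat_lit 37,nat_lit 38,nat_lit 41,nat_lit 42,nat_lit 43,nat_lit 44,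
    nat_lit 46,nat_lit 47,nat_lit 49,nat_lit 51,nat_lit 52,nat_lit 53,nat_lit 55,nat_lit 56,nat_lit 57,nat_lit 58,
    nat_lit 60,nat_lit 61,nat_lit 63,nat_lit 64,nat_lit 65,nat_lit 66,nat_lit 67,nat_lit 70,nat_lit 71,nat_lit 74,
    nat_lit 79,nat_lit 80,nat_lit 81,nat_lit 87,nat_lit 88,nat_lit 91,nat_lit 92,nat_lit 93,nat_lit 101,nat_lit 102,
    nat_lit 103,nat_lit 104,nat_lit 105,nat_lit 108,nat_lit 109,nat_lit 110,nat_lit 111,nat_lit 112,nat_lit 113,
    nat_lit 114,nat_lit 117,nat_lit 118,nat_lit 119,nat_lit 120,nat_lit 121,nat_lit 122,nat_lit 123,nat_lit 143,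
    nat_lit 146,nat_lit 147,nat_lit 173,nat_lit 176,nat_lit 177]
    [[[nat_lit 7,nat_lit 22],[],[nat_lit 21],[],[nat_lit 2],[nat_lit 0,nat_lit 3,nat_lit 23,nat_lit 24],[],
    [nat_lit 12,nat_lit 13],[],[],[nat_lit 1,nat_lit 5,nat_lit 8,nat_lit 10,nat_lit 14,nat_lit 15,nat_lit 17,
    nat_lit 19],[nat_lit 9,nat_lit 16,nat_lit 18,nat_lit 20],[nat_lit 11],[nat_lit 4,nat_lit 6],[],[]],[[nat_lit 28,
    nat_lit 32,nat_lit 45,nat_lit 48],[nat_lit 29,nat_lit 44],[],[nat_lit 47],[nat_lit 25],[],[nat_lit 42],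
    [nat_lit 37,nat_lit 43],[],[],[nat_lit 33],[nat_lit 34,nat_lit 49],[nat_lit 26,nat_lit 27,nat_lit 35,nat_lit 39],
    [nat_lit 36,nat_lit 38,nat_lit 40,nat_lit 41,nat_lit 46],[nat_lit 30],[nat_lit 31]],[[nat_lit 54],[],[],[],[],[],
    [nat_lit 51],[nat_lit 52],[],[],[],[],[nat_lit 56],[nat_lit 50,nat_lit 57,nat_lit 58],[nat_lit 53,nat_lit 55],[]],
    [[],[nat_lit 62],[],[],[],[],[nat_lit 60],[nat_lit 61],[],[],[],[],[nat_lit 59,nat_lit 66],[nat_lit 67],
    [nat_lit 63],[nat_lit 64,nat_lit 65]],[[],[nat_lit 68,nat_lit 69,nat_lit 72,nat_lit 73],[],[],[],[],[],[],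
    [nat_lit 70],[nat_lit 71],[],[],[],[],[],[nat_lit 74]],[[nat_lit 75],[nat_lit 76],[],[],[],[],[],[],[nat_lit 79],
    [nat_lit 80],[],[],[],[],[nat_lit 77,nat_lit 81],[nat_lit 78]],[[nat_lit 85,nat_lit 89],[nat_lit 86,nat_lit 90],
    [nat_lit 83],[nat_lit 84],[],[],[],[],[],[],[nat_lit 93],[nat_lit 82],[],[],[nat_lit 87,nat_lit 91],[nat_lit 88,
    nat_lit 92]],[[nat_lit 100],[],[nat_lit 98],[nat_lit 99],[],[],[],[],[],[],[nat_lit 94,nat_lit 96,nat_lit 102,
    nat_lit 104],[nat_lit 95,nat_lit 97,nat_lit 103,nat_lit 105],[],[],[nat_lit 101],[]],[[],[],[],[],[nat_lit 106],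
    [nat_lit 107],[],[],[],[],[nat_lit 112],[nat_lit 113,nat_lit 114],[nat_lit 108,nat_lit 110],[nat_lit 109,
    nat_lit 111],[],[]],[[],[],[],[],[nat_lit 115],[nat_lit 116],[],[],[],[],[nat_lit 120,nat_lit 122],[nat_lit 121,
    nat_lit 123],[nat_lit 117],[nat_lit 118,nat_lit 119],[],[]],[[nat_lit 128,nat_lit 134],[nat_lit 129,nat_lit 131,
    nat_lit 135,nat_lit 150],[],[],[],[],[nat_lit 126,nat_lit 132,nat_lit 148,nat_lit 149],[nat_lit 127],[nat_lit 141,
    nat_lit 144],[nat_lit 142,nat_lit 145],[],[],[nat_lit 125,nat_lit 138,nat_lit 139],[nat_lit 124,nat_lit 140],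
    [nat_lit 130,nat_lit 136,nat_lit 143,nat_lit 147],[nat_lit 133,nat_lit 137,nat_lit 146]],[[nat_lit 158],
    [nat_lit 152,nat_lit 154,nat_lit 156,nat_lit 157,nat_lit 159,nat_lit 166,nat_lit 168,nat_lit 175],[],[],[],[],
    [nat_lit 151,nat_lit 155,nat_lit 171,nat_lit 174],[nat_lit 172],[nat_lit 167,nat_lit 169],[nat_lit 170],[],[],
    [nat_lit 162,nat_lit 164,nat_lit 173,nat_lit 176],[nat_lit 163,nat_lit 165,nat_lit 177],[nat_lit 153,nat_lit 160],
    [nat_lit 161]],[[nat_lit 178,nat_lit 181,nat_lit 182,nat_lit 198,nat_lit 199],[nat_lit 184,nat_lit 189],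
    [nat_lit 196],[nat_lit 180,nat_lit 197,nat_lit 200],[],[],[],[],[nat_lit 190,nat_lit 192],[nat_lit 191,
    nat_lit 193],[nat_lit 186,nat_lit 188,nat_lit 201],[nat_lit 179,nat_lit 187],[],[],[nat_lit 183,nat_lit 195],
    [nat_lit 185,nat_lit 194]],[[nat_lit 204,nat_lit 206,nat_lit 209,nat_lit 217],[nat_lit 207],[nat_lit 203,
    nat_lit 222],[nat_lit 224],[],[],[],[],[nat_lit 219],[nat_lit 218,nat_lit 220],[nat_lit 213,nat_lit 215,
    nat_lit 223,nat_lit 225],[nat_lit 202,nat_lit 214,nat_lit 216],[],[],[nat_lit 210,nat_lit 221],[nat_lit 205,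
    nat_lit 208,nat_lit 211,nat_lit 212]],[[nat_lit 230],[],[nat_lit 241,nat_lit 243],[],[nat_lit 226],[nat_lit 245],
    [],[nat_lit 236,nat_lit 240],[],[],[nat_lit 232],[nat_lit 233,nat_lit 234,nat_lit 247],[nat_lit 227,nat_lit 229,
    nat_lit 235,nat_lit 239],[nat_lit 228,nat_lit 246],[nat_lit 231],[nat_lit 237,nat_lit 238,nat_lit 242,
    nat_lit 244]],[[nat_lit 252],[],[nat_lit 263],[nat_lit 259,nat_lit 264],[nat_lit 248,nat_lit 269],[],
    [nat_lit 255],[nat_lit 256,nat_lit 258],[],[],[nat_lit 253,nat_lit 261],[nat_lit 254,nat_lit 262,nat_lit 267,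
    nat_lit 268],[nat_lit 249,nat_lit 265],[nat_lit 250,nat_lit 266],[nat_lit 257,nat_lit 260],[nat_lit 251]]]
    [[[nat_lit 0xa000000000000000000000000000000000000000000000000000000000000,
    nat_lit 0xa000000000000000000000000000000000000000000000000000000000000,
    nat_lit 0x14600000000000000000000000000000000000000000000000000000000000,
    nat_lit 0x14600000000000000000000000000000000000000000000000000000000000,
    nat_lit 0x14600000000000000000000000000000000000000000000000000000000000,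
    nat_lit 0x14600000000000000000000000000000000000000000000000000000000000,
    nat_lit 0x400000000000000000000000000000000000000000000000000000000,nat_lit 0,nat_lit 0],[nat_lit 0,
    nat_lit 0x20000000000000000000000000000000000000000000000000000000000000,
    nat_lit 0x882800000000000000000000000000000000000000000000000000000000,
    nat_lit 0x882800000000000000000000000000000000000000000000000000000000,nat_lit 0,
    nat_lit 0x8000000000000000000000000000000000000000000000000000000000,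
    nat_lit 0x8000000000000000000000000000000000000000000000000000000000,
    nat_lit 0x8000000000000000000000000000000000000000000000000000000000,
    nat_lit 0x8000000000000000000000000000000000000000000000000000000000],
    [nat_lit 0x8000000000000000000000000000000000000000000000000000000000,
    nat_lit 0x80060000000000000000000000000000000000000000000000000000000000,
    nat_lit 0x80060000000000000000000000000000000000000000000000000000000000,
    nat_lit 0x80060000000000000000000000000000000000000000000000000000000000,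
    nat_lit 0x80060000000000000000000000000000000000000000000000000000000000,
    nat_lit 0x4000000000000000000000000000000000000000000000000000000000,
    nat_lit 0x40001000000000000000000000000000000000000000000000000000000000,nat_lit 0x30000000000000000,
    nat_lit 0x30000000000000000],[nat_lit 0x4000000000000000,nat_lit 0x1000000000000000,nat_lit 0x1000000000000000,
    nat_lit 0x1000000000000000,nat_lit 0x1000000000000000,nat_lit 0,nat_lit 0,nat_lit 0,nat_lit 0x40800000000000000],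
    [nat_lit 0x40800000000000000,nat_lit 0x40800000000000000,nat_lit 0x40800000000000000,nat_lit 0,nat_lit 0,
    nat_lit 0,nat_lit 0,nat_lit 0,nat_lit 0],[nat_lit 0,nat_lit 0,nat_lit 0x8000000000000000,
    nat_lit 0x8000000000000000,nat_lit 0,nat_lit 0x200000,nat_lit 0,nat_lit 0x1800009,nat_lit 0],[nat_lit 0x150200,
    nat_lit 0x150200,nat_lit 0x400080,nat_lit 0x400080,nat_lit 80,nat_lit 0x40000000000000000000,
    nat_lit 0x80000000000000000000,nat_lit 0,nat_lit 0x220000000000000000000],[nat_lit 0x220000000000000000000,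
    nat_lit 0x220000000000000000000,nat_lit 0,nat_lit 0,nat_lit 0,nat_lit 0,nat_lit 0,nat_lit 0,
    nat_lit 0x10000000000000],[nat_lit 0x40000000000000,nat_lit 0x604000000000000,nat_lit 0x604000000000000,
    nat_lit 0x4000000000000000000000000,nat_lit 0x4000000000000000000000000,nat_lit 0x4000000000000000000000000,
    nat_lit 0x4000000000000000000000000,nat_lit 0x141400000000000000000000000,nat_lit 0]],
    [[nat_lit 0x10000000000000000000000000,nat_lit 0x4000000000000000000,nat_lit 0,nat_lit 0x3300000000000000000,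
    nat_lit 0,nat_lit 0,nat_lit 0,nat_lit 0,nat_lit 0x800000000000000000],[nat_lit 0x800000000000000000,
    nat_lit 0x800000000000000000,nat_lit 0x800000000000000000,nat_lit 0,nat_lit 0,nat_lit 0,nat_lit 0,nat_lit 0,
    nat_lit 0x80000000000000000000000000000],[nat_lit 0,nat_lit 0x200000000000000000000000000000,nat_lit 0,nat_lit 0,
    nat_lit 0,nat_lit 0xc00000000000000000000000000000,nat_lit 0xc00000000000000000000000000000,nat_lit 0,
    nat_lit 0x1000000000000000000000],[nat_lit 0,nat_lit 0,nat_lit 0,nat_lit 0,nat_lit 0x88000000000000000000000,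
    nat_lit 0x88000000000000000000000,nat_lit 0x400000000000000000000,
    nat_lit 0x48000880000000000000000000000000000000000000,nat_lit 0],
    [nat_lit 0x120140000000000000000000000000000000000000000,nat_lit 0x120140000000000000000000000000000000000000000,
    nat_lit 0x4000000000000000000000000000000000000000000,nat_lit 0x10200000000000000000000000000000000000000,
    nat_lit 0x10200000000000000000000000000000000000000,nat_lit 0,nat_lit 0,nat_lit 0,nat_lit 0],[nat_lit 0,nat_lit 0,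
    nat_lit 0,nat_lit 0,nat_lit 0,nat_lit 0,nat_lit 0,nat_lit 0,nat_lit 0x800000000000000000000000000],
    [nat_lit 0x800000000000000000000000000,nat_lit 0x800000000000000000000000000,
    nat_lit 0x800000000000000000000000000,nat_lit 0x10000000000000000000000000000,nat_lit 0,nat_lit 0,nat_lit 0,
    nat_lit 0,nat_lit 0],[nat_lit 0x60000000000000000000000000000,nat_lit 0x60000000000000000000000000000,
    nat_lit 0x60000000000000000000000000000,nat_lit 0x60000000000000000000000000000,nat_lit 0,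
    nat_lit 0xa000000000000000000000000000,nat_lit 0xa000000000000000000000000000,
    nat_lit 0x40000800000000000000000000000000000000000000000000000000,
    nat_lit 0x40000800000000000000000000000000000000000000000000000000],
    [nat_lit 0x40000800000000000000000000000000000000000000000000000000,
    nat_lit 0x40000800000000000000000000000000000000000000000000000000,
    nat_lit 0x192000000000000000000000000000000000000000000000000000,
    nat_lit 0x192000000000000000000000000000000000000000000000000000,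
    nat_lit 0x8000000000000000000000000000000000000000000000000000000,nat_lit 0,nat_lit 0,nat_lit 0,nat_lit 0]],
    [[nat_lit 0x280a00000000000000000000000000000000000000000000000000000,
    nat_lit 0x280a00000000000000000000000000000000000000000000000000000,nat_lit 0,nat_lit 0,
    nat_lit 0x20040000000000000000000000000000000000000000000000000000,
    nat_lit 0x20040000000000000000000000000000000000000000000000000000,
    nat_lit 0x1400400000000000000000000000000000000000000000000000000,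
    nat_lit 0x1400400000000000000000000000000000000000000000000000000,
    nat_lit 0x1400400000000000000000000000000000000000000000000000000],
    [nat_lit 0x2025000000000000000000000000000000000000000000000000000,
    nat_lit 0x2025000000000000000000000000000000000000000000000000000,
    nat_lit 0x2025000000000000000000000000000000000000000000000000000,nat_lit 0,nat_lit 0,nat_lit 0,nat_lit 0,
    nat_lit 0,nat_lit 0x4022000000000000000000000000000000000],[nat_lit 0x4022000000000000000000000000000000000,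
    nat_lit 0x4022000000000000000000000000000000000,nat_lit 0x4022000000000000000000000000000000000,nat_lit 0,
    nat_lit 0x40008a00000000000000000000000000000000,nat_lit 0x40008a00000000000000000000000000000000,nat_lit 0,
    nat_lit 0,nat_lit 0x80000000000000000000000000000000],[nat_lit 0xc0020000000000000000000000000000000,
    nat_lit 0xc0020000000000000000000000000000000,nat_lit 0xc0020000000000000000000000000000000,
    nat_lit 0x2400000000000000000000000000000000000,nat_lit 0x2400000000000000000000000000000000000,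
    nat_lit 0x2400000000000000000000000000000000000,nat_lit 0x2400000000000000000000000000000000000,
    nat_lit 0x4100000000000000000000000000000000,nat_lit 0x4100000000000000000000000000000000],
    [nat_lit 0x4100000000000000000000000000000000,nat_lit 0x4100000000000000000000000000000000,
    nat_lit 0x100010000000000000000000000000000000,nat_lit 0x100010000000000000000000000000000000,
    nat_lit 0x800000000000000000000000000000000000000000000000000000000000000000,
    nat_lit 0x800000000000000000000000000000000000000000000000000000000000000000,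
    nat_lit 0x800000000000000000000000000000000000000000000000000000000000000,
    nat_lit 0x800000000000000000000000000000000000000000000000000000000000000,
    nat_lit 0x800000000000000000000000000000000000000000000000000000000000000],
    [nat_lit 0x800000000000000000000000000000000000000000000000000000000000000,
    nat_lit 0x800000000000000000000000000000000000000000000000000000000000000,
    nat_lit 0x20000100000000000000000000000000000000000000000000000000000000000000,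
    nat_lit 0x20000100000000000000000000000000000000000000000000000000000000000000,
    nat_lit 0x20000100000000000000000000000000000000000000000000000000000000000000,nat_lit 0,
    nat_lit 0x202000000000000000000000000000000000000000000000000000000000000000,
    nat_lit 0x202000000000000000000000000000000000000000000000000000000000000000,
    nat_lit 0x50000000000000000000000000000000000000000000000000000000000000000],
    [nat_lit 0x50000000000000000000000000000000000000000000000000000000000000000,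
    nat_lit 0x2000200000000000000000000000000000000000000000000000000000000000000,
    nat_lit 0x2000200000000000000000000000000000000000000000000000000000000000000,nat_lit 0,nat_lit 0,nat_lit 0,
    nat_lit 0x1000000000000000000000000000000000000000000000000000000000000000,
    nat_lit 0x1000000000000000000000000000000000000000000000000000000000000000,
    nat_lit 0x4000400000000000000000000000000000000000000000000000000000000000000],
    [nat_lit 0x4000400000000000000000000000000000000000000000000000000000000000000,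
    nat_lit 0x4020000000000000000000000000000000000000000000000,nat_lit 0,nat_lit 0,
    nat_lit 0x210000000000000000000000000000000000000000000000,
    nat_lit 0x120001000000000000000000000000000000000000000000000,
    nat_lit 0x120001000000000000000000000000000000000000000000000,
    nat_lit 0x1400000000000000000000000000000000000000000000000,
    nat_lit 0x1400000000000000000000000000000000000000000000000],[nat_lit 0,nat_lit 0,nat_lit 0,nat_lit 0,nat_lit 0,
    nat_lit 0x2800000000000000000000000000000000000000000000000,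
    nat_lit 0x2800000000000000000000000000000000000000000000000,
    nat_lit 0x8008000000000000000000000000000000000000000000000,
    nat_lit 0x8008000000000000000000000000000000000000000000000]],
    [[nat_lit 0x80800000000000000000000000000000000000000000000,
    nat_lit 0x80800000000000000000000000000000000000000000000,
    nat_lit 0xc0006400000000000000000000000000000000000000000000,nat_lit 0,nat_lit 0,nat_lit 0x80000000,
    nat_lit 0x100020000000,nat_lit 0x100020000000,nat_lit 0x40000000000],[nat_lit 0x800000000000,nat_lit 0,nat_lit 0,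
    nat_lit 0x880c000000,nat_lit 0x880c000000,nat_lit 0x880c000000,nat_lit 0,nat_lit 0x40000000,nat_lit 0x40000000],
    [nat_lit 0x2000400000000,nat_lit 0x2000400000000,nat_lit 0x2000400000000,nat_lit 0x2000400000000,
    nat_lit 0x1200110000000,nat_lit 0x1200110000000,nat_lit 0x1200110000000,nat_lit 0x1200110000000,
    nat_lit 0x435000000000]]]
    [[[[nat_lit 0,nat_lit 0x8000000000000000000000000000000000000000000000000000000000000,
    nat_lit 0x600000000000000000000000000000000000000000000000000000000000,nat_lit 0,nat_lit 0,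
    nat_lit 0x600000000000000000000000000000000000000000000000000000000000,
    nat_lit 0x400000000000000000000000000000000000000000000000000000000,nat_lit 0,nat_lit 0],[nat_lit 0,
    nat_lit 0x20000000000000000000000000000000000000000000000000000000000000,nat_lit 0,
    nat_lit 0x2000000000000000000000000000000000000000000000000000000000,nat_lit 0,nat_lit 0,nat_lit 0,nat_lit 0,
    nat_lit 0],[nat_lit 0,nat_lit 0,nat_lit 0,
    nat_lit 0x80020000000000000000000000000000000000000000000000000000000000,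
    nat_lit 0x80020000000000000000000000000000000000000000000000000000000000,
    nat_lit 0x4000000000000000000000000000000000000000000000000000000000,
    nat_lit 0x40001000000000000000000000000000000000000000000000000000000000,nat_lit 0x30000000000000000,nat_lit 0],
    [nat_lit 0x4000000000000000,nat_lit 0,nat_lit 0,nat_lit 0x1000000000000000,nat_lit 0x1000000000000000,nat_lit 0,
    nat_lit 0,nat_lit 0,nat_lit 0],[nat_lit 0,nat_lit 0x40000000000000000,nat_lit 0,nat_lit 0,nat_lit 0,nat_lit 0,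
    nat_lit 0,nat_lit 0,nat_lit 0],[nat_lit 0,nat_lit 0,nat_lit 0,nat_lit 0,nat_lit 0,nat_lit 0x200000,nat_lit 0,
    nat_lit 0x1800000,nat_lit 0],[nat_lit 0,nat_lit 512,nat_lit 128,nat_lit 128,nat_lit 0,
    nat_lit 0x40000000000000000000,nat_lit 0x80000000000000000000,nat_lit 0,nat_lit 0x220000000000000000000],
    [nat_lit 0x200000000000000000000,nat_lit 0,nat_lit 0,nat_lit 0,nat_lit 0,nat_lit 0,nat_lit 0,nat_lit 0,
    nat_lit 0x10000000000000],[nat_lit 0x40000000000000,nat_lit 0x4000000000000,nat_lit 0x404000000000000,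
    nat_lit 0x4000000000000000000000000,nat_lit 0x4000000000000000000000000,nat_lit 0x4000000000000000000000000,
    nat_lit 0,nat_lit 0x101400000000000000000000000,nat_lit 0]],[[nat_lit 0,nat_lit 0,nat_lit 0,
    nat_lit 0x2300000000000000000,nat_lit 0,nat_lit 0,nat_lit 0,nat_lit 0,nat_lit 0x800000000000000000],
    [nat_lit 0x800000000000000000,nat_lit 0x800000000000000000,nat_lit 0,nat_lit 0,nat_lit 0,nat_lit 0,nat_lit 0,
    nat_lit 0,nat_lit 0x80000000000000000000000000000],[nat_lit 0,nat_lit 0,nat_lit 0,nat_lit 0,nat_lit 0,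
    nat_lit 0x400000000000000000000000000000,nat_lit 0,nat_lit 0,nat_lit 0x1000000000000000000000],[nat_lit 0,
    nat_lit 0,nat_lit 0,nat_lit 0,nat_lit 0,nat_lit 0x80000000000000000000000,nat_lit 0,
    nat_lit 0x8000000000000000000000000000000000000000000,nat_lit 0],[nat_lit 0,
    nat_lit 0x120040000000000000000000000000000000000000000,nat_lit 0,nat_lit 0,nat_lit 0,nat_lit 0,nat_lit 0,
    nat_lit 0,nat_lit 0],[nat_lit 0,nat_lit 0,nat_lit 0,nat_lit 0,nat_lit 0,nat_lit 0,nat_lit 0,nat_lit 0,nat_lit 0],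
    [nat_lit 0,nat_lit 0,nat_lit 0x800000000000000000000000000,nat_lit 0,nat_lit 0,nat_lit 0,nat_lit 0,nat_lit 0,
    nat_lit 0],[nat_lit 0,nat_lit 0x20000000000000000000000000000,nat_lit 0x20000000000000000000000000000,
    nat_lit 0x20000000000000000000000000000,nat_lit 0,nat_lit 0,nat_lit 0,nat_lit 0,
    nat_lit 0x800000000000000000000000000000000000000000000000000],
    [nat_lit 0x800000000000000000000000000000000000000000000000000,nat_lit 0,nat_lit 0,nat_lit 0,
    nat_lit 0x8000000000000000000000000000000000000000000000000000000,nat_lit 0,nat_lit 0,nat_lit 0,nat_lit 0]],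
    [[nat_lit 0x80800000000000000000000000000000000000000000000000000000,
    nat_lit 0x80800000000000000000000000000000000000000000000000000000,nat_lit 0,nat_lit 0,
    nat_lit 0x20040000000000000000000000000000000000000000000000000000,nat_lit 0,nat_lit 0,nat_lit 0,nat_lit 0],
    [nat_lit 0x2020000000000000000000000000000000000000000000000000000,nat_lit 0,nat_lit 0,nat_lit 0,nat_lit 0,
    nat_lit 0,nat_lit 0,nat_lit 0,nat_lit 0x20000000000000000000000000000000000],
    [nat_lit 0x20000000000000000000000000000000000,nat_lit 0,nat_lit 0,nat_lit 0,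
    nat_lit 0x40000800000000000000000000000000000000,nat_lit 0,nat_lit 0,nat_lit 0,
    nat_lit 0x80000000000000000000000000000000],[nat_lit 0,nat_lit 0,nat_lit 0,
    nat_lit 0x2400000000000000000000000000000000000,nat_lit 0,nat_lit 0x2400000000000000000000000000000000000,
    nat_lit 0,nat_lit 0,nat_lit 0],[nat_lit 0,nat_lit 0,nat_lit 0x10000000000000000000000000000000,
    nat_lit 0x10000000000000000000000000000000,
    nat_lit 0x800000000000000000000000000000000000000000000000000000000000000000,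
    nat_lit 0x800000000000000000000000000000000000000000000000000000000000000000,
    nat_lit 0x800000000000000000000000000000000000000000000000000000000000000,
    nat_lit 0x800000000000000000000000000000000000000000000000000000000000000,nat_lit 0],[nat_lit 0,nat_lit 0,
    nat_lit 0x20000000000000000000000000000000000000000000000000000000000000000000,
    nat_lit 0x20000000000000000000000000000000000000000000000000000000000000000000,
    nat_lit 0x20000100000000000000000000000000000000000000000000000000000000000000,nat_lit 0,nat_lit 0,nat_lit 0,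
    nat_lit 0x10000000000000000000000000000000000000000000000000000000000000000],[nat_lit 0,nat_lit 0,nat_lit 0,
    nat_lit 0,nat_lit 0,nat_lit 0,nat_lit 0,nat_lit 0,
    nat_lit 0x4000000000000000000000000000000000000000000000000000000000000000000],
    [nat_lit 0x4000000000000000000000000000000000000000000000000000000000000000000,nat_lit 0,nat_lit 0,nat_lit 0,
    nat_lit 0x210000000000000000000000000000000000000000000000,
    nat_lit 0x20000000000000000000000000000000000000000000000000,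
    nat_lit 0x120001000000000000000000000000000000000000000000000,nat_lit 0,
    nat_lit 0x1000000000000000000000000000000000000000000000000],[nat_lit 0,nat_lit 0,nat_lit 0,nat_lit 0,nat_lit 0,
    nat_lit 0,nat_lit 0,nat_lit 0,nat_lit 0x8008000000000000000000000000000000000000000000000]],[[nat_lit 0,nat_lit 0,
    nat_lit 0x80004000000000000000000000000000000000000000000000,nat_lit 0,nat_lit 0,nat_lit 0x80000000,
    nat_lit 0x100000000000,nat_lit 0,nat_lit 0x40000000000],[nat_lit 0x800000000000,nat_lit 0,nat_lit 0,nat_lit 0,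
    nat_lit 0xc000000,nat_lit 0xc000000,nat_lit 0,nat_lit 0x40000000,nat_lit 0x40000000],[nat_lit 0,nat_lit 0,
    nat_lit 0x400000000,nat_lit 0,nat_lit 0,nat_lit 0,nat_lit 0x200100000000,nat_lit 0x200100000000,nat_lit 0]]]]
    (nat_lit 1) (nat_lit 1) (nat_lit 9)
    [[nat_lit 2,nat_lit 3,nat_lit 0x10002,nat_lit 0x100002,nat_lit 0x1000002,nat_lit 0x10000002,nat_lit 17,
    nat_lit 257,nat_lit 0x100101,nat_lit 0x1001,nat_lit 0x1001001,nat_lit 0x10001,nat_lit 0x1010001,
    nat_lit 0x10010001,nat_lit 0x100001,nat_lit 0x200001,nat_lit 0x1100001,nat_lit 0x10100001,nat_lit 0x1000001,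
    nat_lit 0x1000101,nat_lit 0x2000001,nat_lit 0x11000001,nat_lit 0x10000001,nat_lit 0x20000001],[nat_lit 32,
    nat_lit 272,nat_lit 0x100010,nat_lit 0x1100010,nat_lit 0x1000010,nat_lit 0x2000010,nat_lit 0x10000010,
    nat_lit 0x10100010],[nat_lit 512,nat_lit 0x1100,nat_lit 0x100100,nat_lit 0x1100100,nat_lit 0x10100100,
    nat_lit 0x1000100,nat_lit 0x10000100],[nat_lit 0x2000,nat_lit 0x11000,nat_lit 0x101000,nat_lit 0x1101000,
    nat_lit 0x201000,nat_lit 0x1001000,nat_lit 0x2001000,nat_lit 0x11001000,nat_lit 0x10001000],[nat_lit 0x20000,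
    nat_lit 0x110000,nat_lit 0x1010000,nat_lit 0x2010000,nat_lit 0x11010000,nat_lit 0x10010000,nat_lit 0x20010000],
    [nat_lit 0x200000,nat_lit 0x300000,nat_lit 0x1200000,nat_lit 0x10200000,nat_lit 0x1100000,nat_lit 0x2100000,
    nat_lit 0x11100000,nat_lit 0x10100000,nat_lit 0x20100000],[nat_lit 0x2000000,nat_lit 0x3000000,nat_lit 0x4000000,
    nat_lit 0x12000000,nat_lit 0x11000000,nat_lit 0x21000000],[nat_lit 0x20000000,nat_lit 0x30000000]]
    [.c (nat_lit 1) (nat_lit 2),.c (nat_lit 2) (nat_lit 0x2000007002),.c (nat_lit 3) (nat_lit 0x2104003),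
    .c (nat_lit 0) (nat_lit 0xc3005144105),.c (nat_lit 0) (nat_lit 0xc30c5146105),
    .c (nat_lit 2) (nat_lit 0x2000005002),.c (nat_lit 0) (nat_lit 0xc00c5140105),.c (nat_lit 0) (nat_lit 0x84003),
    .c (nat_lit 0) (nat_lit 0x80106005),.c (nat_lit 0) (nat_lit 0x80000006005),.c (nat_lit 2) (nat_lit 0x20c5140105),
    .c (nat_lit 2) (nat_lit 0x2003003002),.c (nat_lit 0) (nat_lit 0x82080102144),.c (nat_lit 3) (nat_lit 0x2102003),
    .c (nat_lit 0) (nat_lit 0x3080004005),.c (nat_lit 1) (nat_lit 0xc0002002),.c (nat_lit 0) (nat_lit 0xc3005144105),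
    .c (nat_lit 0) (nat_lit 0xc3005140105),.c (nat_lit 0) (nat_lit 0xc30c5146105),
    .r (nat_lit 0xdb8) (nat_lit 5) [nat_lit 0x3003000004142,nat_lit 0x4082104005102],
    .c (nat_lit 3) (nat_lit 0x82084202142),.c (nat_lit 0) (nat_lit 0xc30c5142105),.c (nat_lit 1) (nat_lit 0x2002),
    .c (nat_lit 2) (nat_lit 0x2000003002),.c (nat_lit 2) (nat_lit 2),.c (nat_lit 0) (nat_lit 0x4000180007),
    .c (nat_lit 1) (nat_lit 0x30c0008004),.c (nat_lit 0) (nat_lit 0x1c200d34d30d),
    .c (nat_lit 0) (nat_lit 0x1c41cd34d30d),.r (nat_lit 0xdb8) (nat_lit 5) [nat_lit 0x30030c51440c1,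
    nat_lit 0x608420c209102],.c (nat_lit 0) (nat_lit 0xc00c5145105),.c (nat_lit 2) (nat_lit 0x20c0000004),
    .c (nat_lit 3) (nat_lit 2),.r (nat_lit 0xdb8) (nat_lit 5) [nat_lit 0x2080104000142,nat_lit 129],
    .c (nat_lit 0) (nat_lit 0x100080009),.c (nat_lit 3) (nat_lit 0x82004204144),.c (nat_lit 0) (nat_lit 0x100180009),
    .r (nat_lit 0xdc3) (nat_lit 8) [nat_lit 129,nat_lit 0x2002000100002],.c (nat_lit 0) (nat_lit 0x80005),
    .c (nat_lit 4) (nat_lit 2),.c (nat_lit 0) (nat_lit 0x140007000006),.c (nat_lit 0) (nat_lit 0x8018000000d),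
    .r (nat_lit 0xdb8) (nat_lit 5) [nat_lit 0x30c20c1,nat_lit 0x2080108105102],.c (nat_lit 0) (nat_lit 0x80180000007),
    .c (nat_lit 3) (nat_lit 0x2084304144),.r (nat_lit 565) (nat_lit 4) [nat_lit 0x30c5249308142,nat_lit 0x2100001,
    nat_lit 0x20821041c5081,nat_lit 0x80140001,nat_lit 0x3143249408142,nat_lit 0x82104345102],
    .c (nat_lit 2) (nat_lit 0x20c5145105),.c (nat_lit 0) (nat_lit 0x80000000007),.c (nat_lit 5) (nat_lit 2),
    .c (nat_lit 0) (nat_lit 0xc3000145105),.c (nat_lit 0) (nat_lit 0x145142249209),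
    .c (nat_lit 2) (nat_lit 0xc00c3145103),.c (nat_lit 0) (nat_lit 0x104102208248),
    .c (nat_lit 2) (nat_lit 0x2003000002),.c (nat_lit 3) (nat_lit 0x2100003),.c (nat_lit 6) (nat_lit 2),
    .c (nat_lit 0) (nat_lit 0x3180000005),.c (nat_lit 0) (nat_lit 0xc3205145105),.c (nat_lit 1) (nat_lit 0xc0004002),
    .c (nat_lit 0) (nat_lit 0xc3205145105),.r (nat_lit 0xdc3) (nat_lit 8) [nat_lit 0x2080108105102,
    nat_lit 0x2002000100002],.c (nat_lit 0) (nat_lit 0xc3105145105),.c (nat_lit 0) (nat_lit 0x3080000005),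
    .c (nat_lit 0) (nat_lit 0xc3005145105),.c (nat_lit 7) (nat_lit 2),
    .r (nat_lit 0x7ab) (nat_lit 12) [nat_lit 0x30492924925302,nat_lit 0x134d31e51e4341,nat_lit 0x71d834d34c142,
    nat_lit 641,nat_lit 0x71c734d34c141,nat_lit 0x13313965964342],
    .r (nat_lit 12) (nat_lit 0) [nat_lit 0x51452492480c1,nat_lit 0x51452493080c1,nat_lit 0xd20d6596581c2,
    nat_lit 0x8208424411101,nat_lit 0x2030c618619182,nat_lit 0x9249111450141,nat_lit 0x51502492480c2],
    .c (nat_lit 3) (nat_lit 0x82084204142),.c (nat_lit 0) (nat_lit 0xc30c514510b),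
    .c (nat_lit 0) (nat_lit 0x14514924920b),.c (nat_lit 8) (nat_lit 2),.c (nat_lit 2) (nat_lit 0x2000000002)]]

end Pool.Agent.Lib_MP_fa6e45
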