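import Pool.Agent.Lib_MP_fa6e45.DQ8k_0d
import Pool.Agent.Lib_MP_fa6e45.RD8k_6

/-!
MP_fa6e45_co, stage 9: straight-side patterns with `8` sides, part of a certificate (generated by a program).
-/

namespace Pool.Agent.Lib_MP_fa6e45

theorem cD8k_0_k6_0 : allI cD8k_0_c (rjL dJ cD8k_0_q rD8k_6_0) 3556 = true := by
  decide +kernel

theorem cD8k_0_k6_1 : allI cD8k_0_c (rjL dJ cD8k_0_q rD8k_6_1) 3557 = true := by
  decide +kernel

theorem cD8k_0_k6_2 : allI cD8k_0_c (rjL dJ cD8k_0_q rD8k_6_2) 3558 = true := by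
  decide +kernel

theorem cD8k_0_k6_3 : allI cD8k_0_c (rjL dJ cD8k_0_q rD8k_6_3) 3559 = true := by
  decide +kernel

theorem cD8k_0_k6_4 : allI cD8k_0_c (rjL dJ cD8k_0_q rD8k_6_4) 3560 = true := by
  decide +kernel

theorem cD8k_0_k6_5 : allI cD8k_0_c (rjL dJ cD8k_0_q rD8k_6_5) 3561 = true := by
  decide +kernel

/-- nodes -/
noncomputable def cD8k_0_n6 : List (QJ PN) :=
  rjL dJ cD8k_0_q rD8k_6_0 ++ (rjL dJ cD8k_0_q rD8k_6_1 ++ (rjL dJ cD8k_0_q rD8k_6_2 ++ (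
    rjL dJ cD8k_0_q rD8k_6_3 ++ (rjL dJ cD8k_0_q rD8k_6_4 ++ rjL dJ cD8k_0_q rD8k_6_5))))

theorem cD8k_0_k6 : allI cD8k_0_c cD8k_0_n6 3556 = true := by
  refine allI_appQ (k := 1) cD8k_0_k6_0 (by decide +kernel) ?_
  refine allI_appQ (k := 1) cD8k_0_k6_1 (by decide +kernel) ?_
  refine allI_appQ (k := 1) cD8k_0_k6_2 (by decide +kernel) ?_
  refine allI_appQ (k := 1) cD8k_0_k6_3 (by decide +kernel) ?_
  refine allI_appQ (k := 1) cD8k_0_k6_4 (by decide +kernel) ?_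
  exact cD8k_0_k6_5

theorem cD8k_0_l6 : cD8k_0_n6.length = 6 := by
  decide +kernel

end Pool.Agent.Lib_MP_fa6e45
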