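import Pool.Agent.Lib_MP_fa6e45.DQ8k_0d
import Pool.Agent.Lib_MP_fa6e45.RD8k_7

/-!
MP_fa6e45_co, stage 9: straight-side patterns with `8` sides, part of a certificate (generated by a program).
-/

namespace Pool.Agent.Lib_MP_fa6e45

theorem cD8k_0_k7_0 : allI cD8k_0_c (rjL dJ cD8k_0_q rD8k_7_0) 3562 = true := by
  decide +kernel

/-- nodes -/
noncomputable def cD8k_0_n7 : List (QJ PN) :=
  rjL dJ cD8k_0_q rD8k_7_0

theorem cD8k_0_k7 : allI cD8k_0_c cD8k_0_n7 3562 = true := by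
  exact cD8k_0_k7_0

theorem cD8k_0_l7 : cD8k_0_n7.length = 1 := by
  decide +kernel

end Pool.Agent.Lib_MP_fa6e45
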