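import Pool.Agent.Lib_MP_fa6e45.RJ0

/-!
MP_fa6e45_co, stage 9: straight-side patterns with `8` sides, raw data (generated by a program).
-/

namespace Pool.Agent.Lib_MP_fa6e45

/-- nodes -/
noncomputable def rD8k_8_0 : List RJ :=
  [.s (nat_lit 15) (nat_lit 0x1c20) (nat_lit 5) (nat_lit 0xe1f00000e1f00000cff00000cff00000c3300000c33000009e100000a1100000c7b00000ccf00000af500000af500000c3300000c3300000d7100000d71) (nat_lit 0x12000000120000001ec000001ec0000040e0000043e00000150000001a40000032a0000032a000001ec000001ec000000ae000000ae)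
    (nat_lit 0x1c3e387c67f8cff13fe30cc50889e1199e29dc57a8af52436318c6b88d711c3e387c67f8cff1fb6483c50889e1096631ec57a8af51f5627cc6b88d7119fe33fc3018bdf16262c4c4788519175e2d6c60a91f116262c4c62888d919fe33fc4e1860316262c4c47888c11cfe2d6c50e8ff916262c4c6288c51241e30cc5898b13148e318c41287f5097e2a3c4848639148e27fc5c28b851fb627fc5898b13148e291c41287f5163e2ebc48489090fc61f8c5c28bb513c2278446085190fea1fd425985a3112220f448d867b0f8a1fd45b38b971422284447888f1104a209425984b3172221b448d867b13da28745b38b9718f629dc5ad8b5b175e2a3c436883d172e309c3ac868110b6216c5e68a050966333c73f8baf163e12fc5c8889116fe2e5c4d289a515c62b8c6108c2115ea2bd47fc91f1121218e433d867b134a1a043e587cb121224245238a4715ea2bd450e8c151212242448d891b134a1d643cd87cb1212242450b8a4713e6318c5898b130fc627fc50e87f515c6216c4848909148e29dc5c28b851f56486c5898b130fc6291c4f687c515c6216c4848909148e291c5c28b851ae235c462888d9176a2e145cb8b97184228145238a47170a2e1436d8cc31ae235c46288c51170a2e145b38b6718422f3450b8a47170a2e1466186db)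
    (nat_lit 0x1c3e7080e101c2038407080e101c2038407080e101c2038407080e101c201c3e387ce101c2038407080e101c2038407080e101c2038407080e101c2019fe33fc3019c2038407080e101c2038407080e101c2038407080e101c2019fe33fc5ef860338407080e101c2038407080e101c2038407080e101c2013fe3f6c5898b13148e7080e101c2038407080e101c2038407080e101c201866483c5898b1318c6291ce101c2038407080e101c2038407080e101c201422284447888f1104a20942599c2038407080e101c2038407080e101c2013c2278428c88c10fea1fd42d184b338407080e101c2038407080e101c20199e12cc5d78e7f097e2c7c4488b91172e7080e101c2038407080e101c2014ee31ec5ad8b5b151e2ebc41e886d184e2e5ce101c2038407080e101c2015ea2bd460a8a1d1212242448d891b0eb226943e59c2038407080e101c2015ea2bd45ca0f3c0c72242433d867b0d0226943e587cb38407080e101c2023ac34385898b13148e1f8c3e289ed10b62b8c4848909148e7080e101c2018c627cc5898b1313fe1f8c3fa8a1d10b62b8c484890914ee291ce101c201ae235c46288c51170a2e145b38b67179a30845238a17170a2e1436d9c201ae235c446c8c51170a2ed45cb8b97140a30845238a47170a2e1466186db)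
    (nat_lit 6) (nat_lit 103)
    [[nat_lit 0,nat_lit 0,nat_lit 0,nat_lit 10],[nat_lit 0,nat_lit 0,nat_lit 0,nat_lit 11],[nat_lit 0,nat_lit 0,
    nat_lit 10,nat_lit 0],[nat_lit 0,nat_lit 0,nat_lit 11,nat_lit 0],[nat_lit 0,nat_lit 0,nat_lit 13],[nat_lit 0,
    nat_lit 2,nat_lit 4],[nat_lit 0,nat_lit 5,nat_lit 2],[nat_lit 0,nat_lit 5,nat_lit 10],[nat_lit 0,nat_lit 5,
    nat_lit 11],[nat_lit 0,nat_lit 7,nat_lit 8,nat_lit 10],[nat_lit 0,nat_lit 8,nat_lit 9,nat_lit 1,nat_lit 10],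
    [nat_lit 0,nat_lit 8,nat_lit 9,nat_lit 1,nat_lit 11],[nat_lit 0,nat_lit 8,nat_lit 9,nat_lit 12],[nat_lit 0,
    nat_lit 9,nat_lit 11,nat_lit 7],[nat_lit 0,nat_lit 10,nat_lit 0,nat_lit 0],[nat_lit 0,nat_lit 11,nat_lit 0,
    nat_lit 0],[nat_lit 0,nat_lit 11,nat_lit 4],[nat_lit 0,nat_lit 13,nat_lit 0],[nat_lit 0,nat_lit 13,nat_lit 8,
    nat_lit 9],[nat_lit 1,nat_lit 1,nat_lit 1,nat_lit 10],[nat_lit 1,nat_lit 1,nat_lit 1,nat_lit 11],[nat_lit 1,
    nat_lit 1,nat_lit 10,nat_lit 1],[nat_lit 1,nat_lit 1,nat_lit 11,nat_lit 1],[nat_lit 1,nat_lit 1,nat_lit 12],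
    [nat_lit 1,nat_lit 3,nat_lit 4],[nat_lit 1,nat_lit 5,nat_lit 3],[nat_lit 1,nat_lit 5,nat_lit 10],[nat_lit 1,
    nat_lit 6,nat_lit 10,nat_lit 8],[nat_lit 1,nat_lit 8,nat_lit 9,nat_lit 12],[nat_lit 1,nat_lit 10,nat_lit 1,
    nat_lit 1],[nat_lit 1,nat_lit 10,nat_lit 4],[nat_lit 1,nat_lit 11,nat_lit 1,nat_lit 1],[nat_lit 1,nat_lit 11,
    nat_lit 4],[nat_lit 1,nat_lit 11,nat_lit 9,nat_lit 6],[nat_lit 1,nat_lit 12,nat_lit 1],[nat_lit 1,nat_lit 13,
    nat_lit 8,nat_lit 9],[nat_lit 2,nat_lit 7,nat_lit 6],[nat_lit 2,nat_lit 8,nat_lit 8,nat_lit 4],[nat_lit 2,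
    nat_lit 8,nat_lit 9,nat_lit 4],[nat_lit 2,nat_lit 9,nat_lit 4,nat_lit 8],[nat_lit 2,nat_lit 9,nat_lit 5,
    nat_lit 8],[nat_lit 2,nat_lit 9,nat_lit 8,nat_lit 5],[nat_lit 2,nat_lit 14],[nat_lit 2,nat_lit 15],[nat_lit 3,
    nat_lit 4,nat_lit 9,nat_lit 8],[nat_lit 3,nat_lit 5,nat_lit 8,nat_lit 9],[nat_lit 3,nat_lit 5,nat_lit 9,
    nat_lit 9],[nat_lit 3,nat_lit 7,nat_lit 6],[nat_lit 3,nat_lit 9,nat_lit 4,nat_lit 8],[nat_lit 3,nat_lit 9,
    nat_lit 5,nat_lit 8],[nat_lit 3,nat_lit 14],[nat_lit 3,nat_lit 15],[nat_lit 4,nat_lit 8,nat_lit 8,nat_lit 10],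
    [nat_lit 4,nat_lit 8,nat_lit 9,nat_lit 11],[nat_lit 4,nat_lit 8,nat_lit 10,nat_lit 8],[nat_lit 4,nat_lit 9,
    nat_lit 9,nat_lit 11],[nat_lit 4,nat_lit 10,nat_lit 8,nat_lit 8],[nat_lit 4,nat_lit 10,nat_lit 8,nat_lit 9],
    [nat_lit 4,nat_lit 10,nat_lit 9,nat_lit 9],[nat_lit 4,nat_lit 11,nat_lit 9,nat_lit 9],[nat_lit 4,nat_lit 12],
    [nat_lit 4,nat_lit 13],[nat_lit 5,nat_lit 8,nat_lit 8,nat_lit 10],[nat_lit 5,nat_lit 8,nat_lit 8,nat_lit 11],
    [nat_lit 5,nat_lit 8,nat_lit 9,nat_lit 11],[nat_lit 5,nat_lit 9,nat_lit 9,nat_lit 11],[nat_lit 5,nat_lit 9,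
    nat_lit 11,nat_lit 9],[nat_lit 5,nat_lit 10,nat_lit 8,nat_lit 8],[nat_lit 5,nat_lit 10,nat_lit 8,nat_lit 9],
    [nat_lit 5,nat_lit 11,nat_lit 9,nat_lit 9],[nat_lit 5,nat_lit 12],[nat_lit 5,nat_lit 13],[nat_lit 6,nat_lit 6,
    nat_lit 10],[nat_lit 6,nat_lit 7,nat_lit 10],[nat_lit 6,nat_lit 7,nat_lit 11],[nat_lit 6,nat_lit 8,nat_lit 13],
    [nat_lit 6,nat_lit 9,nat_lit 12],[nat_lit 6,nat_lit 9,nat_lit 13],[nat_lit 6,nat_lit 10,nat_lit 6],[nat_lit 6,
    nat_lit 10,nat_lit 7],[nat_lit 6,nat_lit 11,nat_lit 7],[nat_lit 6,nat_lit 12,nat_lit 8],[nat_lit 6,nat_lit 12,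
    nat_lit 9],[nat_lit 6,nat_lit 13,nat_lit 8],[nat_lit 7,nat_lit 7,nat_lit 11],[nat_lit 7,nat_lit 8,nat_lit 13],
    [nat_lit 7,nat_lit 9,nat_lit 12],[nat_lit 7,nat_lit 9,nat_lit 13],[nat_lit 7,nat_lit 11,nat_lit 7],[nat_lit 7,
    nat_lit 12,nat_lit 8],[nat_lit 7,nat_lit 12,nat_lit 9],[nat_lit 7,nat_lit 13,nat_lit 8],[nat_lit 8,nat_lit 8,
    nat_lit 8,nat_lit 8,nat_lit 13],[nat_lit 8,nat_lit 8,nat_lit 8,nat_lit 9,nat_lit 12],[nat_lit 8,nat_lit 8,
    nat_lit 8,nat_lit 9,nat_lit 13],[nat_lit 8,nat_lit 8,nat_lit 8,nat_lit 13,nat_lit 8],[nat_lit 8,nat_lit 8,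
    nat_lit 9,nat_lit 9,nat_lit 12],[nat_lit 8,nat_lit 8,nat_lit 9,nat_lit 9,nat_lit 13],[nat_lit 8,nat_lit 8,
    nat_lit 9,nat_lit 12,nat_lit 8],[nat_lit 8,nat_lit 8,nat_lit 9,nat_lit 13,nat_lit 8],[nat_lit 8,nat_lit 8,
    nat_lit 13,nat_lit 8,nat_lit 8],[nat_lit 8,nat_lit 9,nat_lit 8,nat_lit 9,nat_lit 12],[nat_lit 8,nat_lit 9,
    nat_lit 8,nat_lit 9,nat_lit 13],[nat_lit 8,nat_lit 9,nat_lit 9,nat_lit 9,nat_lit 12],[nat_lit 8,nat_lit 9,
    nat_lit 9,nat_lit 9,nat_lit 13],[nat_lit 8,nat_lit 9,nat_lit 9,nat_lit 12,nat_lit 8],[nat_lit 8,nat_lit 9,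
    nat_lit 9,nat_lit 13,nat_lit 8],[nat_lit 8,nat_lit 9,nat_lit 12,nat_lit 8,nat_lit 8],[nat_lit 8,nat_lit 9,
    nat_lit 12,nat_lit 8,nat_lit 9],[nat_lit 8,nat_lit 9,nat_lit 13,nat_lit 8,nat_lit 8],[nat_lit 8,nat_lit 9,
    nat_lit 13,nat_lit 8,nat_lit 9],[nat_lit 8,nat_lit 13,nat_lit 8,nat_lit 8,nat_lit 8],[nat_lit 9,nat_lit 9,
    nat_lit 9,nat_lit 9,nat_lit 12],[nat_lit 9,nat_lit 9,nat_lit 9,nat_lit 12,nat_lit 9],[nat_lit 9,nat_lit 9,
    nat_lit 12,nat_lit 9,nat_lit 9],[nat_lit 9,nat_lit 12,nat_lit 9,nat_lit 9,nat_lit 9],[nat_lit 10,nat_lit 14],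
    [nat_lit 10,nat_lit 15],[nat_lit 11,nat_lit 14],[nat_lit 11,nat_lit 15]]
    [nat_lit 0x1000a,nat_lit 0x1000b,nat_lit 0x100a0,nat_lit 0x100b0,nat_lit 0x100d,nat_lit 0x1024,nat_lit 0x1052,
    nat_lit 0x105a,nat_lit 0x105b,nat_lit 0x1078a,nat_lit 0x10891a,nat_lit 0x10891b,nat_lit 0x1089c,nat_lit 0x109b7,
    nat_lit 0x10a00,nat_lit 0x10b00,nat_lit 0x10b4,nat_lit 0x10d0,nat_lit 0x10d89,nat_lit 0x1111a,nat_lit 0x1111b,
    nat_lit 0x111a1,nat_lit 0x111b1,nat_lit 0x111c,nat_lit 0x1134,nat_lit 0x1153,nat_lit 0x115a,nat_lit 0x116a8,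
    nat_lit 0x1189c,nat_lit 0x11a11,nat_lit 0x11a4,nat_lit 0x11b11,nat_lit 0x11b4,nat_lit 0x11b96,nat_lit 0x11c1,
    nat_lit 0x11d89,nat_lit 0x1276,nat_lit 0x12884,nat_lit 0x12894,nat_lit 0x12948,nat_lit 0x12958,nat_lit 0x12985,
    nat_lit 302,nat_lit 303,nat_lit 0x13498,nat_lit 0x13589,nat_lit 0x13599,nat_lit 0x1376,nat_lit 0x13948,
    nat_lit 0x13958,nat_lit 318,nat_lit 319,nat_lit 0x1488a,nat_lit 0x1489b,nat_lit 0x148a8,nat_lit 0x1499b,
    nat_lit 0x14a88,nat_lit 0x14a89,nat_lit 0x14a99,nat_lit 0x14b99,nat_lit 332,nat_lit 333,nat_lit 0x1588a,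
    nat_lit 0x1588b,nat_lit 0x1589b,nat_lit 0x1599b,nat_lit 0x159b9,nat_lit 0x15a88,nat_lit 0x15a89,nat_lit 0x15b99,
    nat_lit 348,nat_lit 349,nat_lit 0x166a,nat_lit 0x167a,nat_lit 0x167b,nat_lit 0x168d,nat_lit 0x169c,nat_lit 0x169d,
    nat_lit 0x16a6,nat_lit 0x16a7,nat_lit 0x16b7,nat_lit 0x16c8,nat_lit 0x16c9,nat_lit 0x16d8,nat_lit 0x177b,
    nat_lit 0x178d,nat_lit 0x179c,nat_lit 0x179d,nat_lit 0x17b7,nat_lit 0x17c8,nat_lit 0x17c9,nat_lit 0x17d8,
    nat_lit 0x18888d,nat_lit 0x18889c,nat_lit 0x18889d,nat_lit 0x1888d8,nat_lit 0x18899c,nat_lit 0x18899d,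
    nat_lit 0x1889c8,nat_lit 0x1889d8,nat_lit 0x188d88,nat_lit 0x18989c,nat_lit 0x18989d,nat_lit 0x18999c,
    nat_lit 0x18999d,nat_lit 0x1899c8,nat_lit 0x1899d8,nat_lit 0x189c88,nat_lit 0x189c89,nat_lit 0x189d88,
    nat_lit 0x189d89,nat_lit 0x18d888,nat_lit 0x19999c,nat_lit 0x1999c9,nat_lit 0x199c99,nat_lit 0x19c999,nat_lit 430,
    nat_lit 431,nat_lit 446,nat_lit 447]
    [[[nat_lit 0,nat_lit 0,nat_lit 0,nat_lit 10],[nat_lit 0,nat_lit 0,nat_lit 0,nat_lit 11],[nat_lit 0,nat_lit 0,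
    nat_lit 10,nat_lit 0],[nat_lit 0,nat_lit 0,nat_lit 11,nat_lit 0],[nat_lit 0,nat_lit 0,nat_lit 13],[nat_lit 0,
    nat_lit 2,nat_lit 4],[nat_lit 0,nat_lit 5,nat_lit 2],[nat_lit 0,nat_lit 5,nat_lit 10],[nat_lit 0,nat_lit 5,
    nat_lit 11],[nat_lit 0,nat_lit 7,nat_lit 8,nat_lit 10],[nat_lit 0,nat_lit 8,nat_lit 9,nat_lit 1,nat_lit 10],
    [nat_lit 0,nat_lit 8,nat_lit 9,nat_lit 1,nat_lit 11]],[[nat_lit 0,nat_lit 8,nat_lit 9,nat_lit 12],[nat_lit 0,
    nat_lit 9,nat_lit 11,nat_lit 7],[nat_lit 0,nat_lit 10,nat_lit 0,nat_lit 0],[nat_lit 0,nat_lit 11,nat_lit 0,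
    nat_lit 0],[nat_lit 0,nat_lit 11,nat_lit 4],[nat_lit 0,nat_lit 13,nat_lit 0],[nat_lit 0,nat_lit 13,nat_lit 8,
    nat_lit 9],[nat_lit 1,nat_lit 1,nat_lit 1,nat_lit 10],[nat_lit 1,nat_lit 1,nat_lit 1,nat_lit 11],[nat_lit 1,
    nat_lit 1,nat_lit 10,nat_lit 1],[nat_lit 1,nat_lit 1,nat_lit 11,nat_lit 1],[nat_lit 1,nat_lit 1,nat_lit 12]],
    [[nat_lit 1,nat_lit 3,nat_lit 4],[nat_lit 1,nat_lit 5,nat_lit 3],[nat_lit 1,nat_lit 5,nat_lit 10],[nat_lit 1,
    nat_lit 6,nat_lit 10,nat_lit 8],[nat_lit 1,nat_lit 8,nat_lit 9,nat_lit 12],[nat_lit 1,nat_lit 10,nat_lit 0,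
    nat_lit 8,nat_lit 9],[nat_lit 1,nat_lit 10,nat_lit 1,nat_lit 1],[nat_lit 1,nat_lit 10,nat_lit 4],[nat_lit 1,
    nat_lit 11,nat_lit 0,nat_lit 8,nat_lit 9],[nat_lit 1,nat_lit 11,nat_lit 1,nat_lit 1],[nat_lit 1,nat_lit 11,
    nat_lit 4],[nat_lit 1,nat_lit 11,nat_lit 9,nat_lit 6]],[[nat_lit 1,nat_lit 12,nat_lit 1],[nat_lit 1,nat_lit 13,
    nat_lit 8,nat_lit 9],[nat_lit 2,nat_lit 0,nat_lit 5],[nat_lit 2,nat_lit 4,nat_lit 0],[nat_lit 2,nat_lit 7,
    nat_lit 6],[nat_lit 2,nat_lit 8,nat_lit 8,nat_lit 4],[nat_lit 2,nat_lit 8,nat_lit 9,nat_lit 4],[nat_lit 2,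
    nat_lit 9,nat_lit 4,nat_lit 8],[nat_lit 2,nat_lit 9,nat_lit 5,nat_lit 8],[nat_lit 2,nat_lit 9,nat_lit 8,
    nat_lit 5],[nat_lit 2,nat_lit 14],[nat_lit 2,nat_lit 15]],[[nat_lit 3,nat_lit 1,nat_lit 5],[nat_lit 3,nat_lit 4,
    nat_lit 1],[nat_lit 3,nat_lit 4,nat_lit 9,nat_lit 8],[nat_lit 3,nat_lit 5,nat_lit 8,nat_lit 9],[nat_lit 3,
    nat_lit 5,nat_lit 9,nat_lit 9],[nat_lit 3,nat_lit 7,nat_lit 6],[nat_lit 3,nat_lit 9,nat_lit 4,nat_lit 8],
    [nat_lit 3,nat_lit 9,nat_lit 5,nat_lit 8],[nat_lit 3,nat_lit 14],[nat_lit 3,nat_lit 15],[nat_lit 4,nat_lit 0,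
    nat_lit 2],[nat_lit 4,nat_lit 0,nat_lit 11]],[[nat_lit 4,nat_lit 1,nat_lit 3],[nat_lit 4,nat_lit 1,nat_lit 10],
    [nat_lit 4,nat_lit 1,nat_lit 11],[nat_lit 4,nat_lit 2,nat_lit 8,nat_lit 8],[nat_lit 4,nat_lit 2,nat_lit 8,
    nat_lit 9],[nat_lit 4,nat_lit 8,nat_lit 2,nat_lit 9],[nat_lit 4,nat_lit 8,nat_lit 3,nat_lit 9],[nat_lit 4,
    nat_lit 8,nat_lit 8,nat_lit 10],[nat_lit 4,nat_lit 8,nat_lit 9,nat_lit 11],[nat_lit 4,nat_lit 8,nat_lit 10,
    nat_lit 8],[nat_lit 4,nat_lit 9,nat_lit 8,nat_lit 3],[nat_lit 4,nat_lit 9,nat_lit 9,nat_lit 11]],[[nat_lit 4,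
    nat_lit 10,nat_lit 8,nat_lit 8],[nat_lit 4,nat_lit 10,nat_lit 8,nat_lit 9],[nat_lit 4,nat_lit 10,nat_lit 9,
    nat_lit 9],[nat_lit 4,nat_lit 11,nat_lit 9,nat_lit 9],[nat_lit 4,nat_lit 12],[nat_lit 4,nat_lit 13],[nat_lit 5,
    nat_lit 2,nat_lit 0],[nat_lit 5,nat_lit 2,nat_lit 9,nat_lit 8],[nat_lit 5,nat_lit 3,nat_lit 1],[nat_lit 5,
    nat_lit 8,nat_lit 2,nat_lit 9],[nat_lit 5,nat_lit 8,nat_lit 3,nat_lit 9],[nat_lit 5,nat_lit 8,nat_lit 8,
    nat_lit 10]],[[nat_lit 5,nat_lit 8,nat_lit 8,nat_lit 11],[nat_lit 5,nat_lit 8,nat_lit 9,nat_lit 3],[nat_lit 5,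
    nat_lit 8,nat_lit 9,nat_lit 11],[nat_lit 5,nat_lit 9,nat_lit 9,nat_lit 3],[nat_lit 5,nat_lit 9,nat_lit 9,
    nat_lit 11],[nat_lit 5,nat_lit 9,nat_lit 11,nat_lit 9],[nat_lit 5,nat_lit 10,nat_lit 0],[nat_lit 5,nat_lit 10,
    nat_lit 1],[nat_lit 5,nat_lit 10,nat_lit 8,nat_lit 8],[nat_lit 5,nat_lit 10,nat_lit 8,nat_lit 9],[nat_lit 5,
    nat_lit 11,nat_lit 0],[nat_lit 5,nat_lit 11,nat_lit 9,nat_lit 9]],[[nat_lit 5,nat_lit 12],[nat_lit 5,nat_lit 13],
    [nat_lit 6,nat_lit 1,nat_lit 11,nat_lit 9],[nat_lit 6,nat_lit 2,nat_lit 7],[nat_lit 6,nat_lit 3,nat_lit 7],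
    [nat_lit 6,nat_lit 6,nat_lit 10],[nat_lit 6,nat_lit 7,nat_lit 10],[nat_lit 6,nat_lit 7,nat_lit 11],[nat_lit 6,
    nat_lit 8,nat_lit 13],[nat_lit 6,nat_lit 9,nat_lit 12],[nat_lit 6,nat_lit 9,nat_lit 13],[nat_lit 6,nat_lit 10,
    nat_lit 6]],[[nat_lit 6,nat_lit 10,nat_lit 7],[nat_lit 6,nat_lit 10,nat_lit 8,nat_lit 1],[nat_lit 6,nat_lit 11,
    nat_lit 7],[nat_lit 6,nat_lit 12,nat_lit 8],[nat_lit 6,nat_lit 12,nat_lit 9],[nat_lit 6,nat_lit 13,nat_lit 8],
    [nat_lit 7,nat_lit 0,nat_lit 9,nat_lit 11],[nat_lit 7,nat_lit 6,nat_lit 2],[nat_lit 7,nat_lit 6,nat_lit 3],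
    [nat_lit 7,nat_lit 6,nat_lit 10],[nat_lit 7,nat_lit 6,nat_lit 11],[nat_lit 7,nat_lit 7,nat_lit 11]],[[nat_lit 7,
    nat_lit 8,nat_lit 10,nat_lit 0],[nat_lit 7,nat_lit 8,nat_lit 13],[nat_lit 7,nat_lit 9,nat_lit 12],[nat_lit 7,
    nat_lit 9,nat_lit 13],[nat_lit 7,nat_lit 10,nat_lit 6],[nat_lit 7,nat_lit 11,nat_lit 6],[nat_lit 7,nat_lit 11,
    nat_lit 7],[nat_lit 7,nat_lit 12,nat_lit 8],[nat_lit 7,nat_lit 12,nat_lit 9],[nat_lit 7,nat_lit 13,nat_lit 8],
    [nat_lit 8,nat_lit 1,nat_lit 6,nat_lit 10],[nat_lit 8,nat_lit 2,nat_lit 9,nat_lit 4]],[[nat_lit 8,nat_lit 2,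
    nat_lit 9,nat_lit 5],[nat_lit 8,nat_lit 3,nat_lit 4,nat_lit 9],[nat_lit 8,nat_lit 3,nat_lit 9,nat_lit 4],
    [nat_lit 8,nat_lit 3,nat_lit 9,nat_lit 5],[nat_lit 8,nat_lit 4,nat_lit 2,nat_lit 8],[nat_lit 8,nat_lit 4,
    nat_lit 8,nat_lit 10],[nat_lit 8,nat_lit 4,nat_lit 10,nat_lit 8],[nat_lit 8,nat_lit 5,nat_lit 2,nat_lit 9],
    [nat_lit 8,nat_lit 5,nat_lit 10,nat_lit 8],[nat_lit 8,nat_lit 6,nat_lit 12],[nat_lit 8,nat_lit 6,nat_lit 13],
    [nat_lit 8,nat_lit 7,nat_lit 12]],[[nat_lit 8,nat_lit 7,nat_lit 13],[nat_lit 8,nat_lit 8,nat_lit 4,nat_lit 2],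
    [nat_lit 8,nat_lit 8,nat_lit 4,nat_lit 10],[nat_lit 8,nat_lit 8,nat_lit 5,nat_lit 10],[nat_lit 8,nat_lit 8,
    nat_lit 8,nat_lit 8,nat_lit 13],[nat_lit 8,nat_lit 8,nat_lit 8,nat_lit 9,nat_lit 12],[nat_lit 8,nat_lit 8,
    nat_lit 8,nat_lit 9,nat_lit 13],[nat_lit 8,nat_lit 8,nat_lit 8,nat_lit 13,nat_lit 8],[nat_lit 8,nat_lit 8,
    nat_lit 9,nat_lit 9,nat_lit 12],[nat_lit 8,nat_lit 8,nat_lit 9,nat_lit 9,nat_lit 13],[nat_lit 8,nat_lit 8,
    nat_lit 9,nat_lit 12,nat_lit 8],[nat_lit 8,nat_lit 8,nat_lit 9,nat_lit 13,nat_lit 8]],[[nat_lit 8,nat_lit 8,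
    nat_lit 10,nat_lit 4],[nat_lit 8,nat_lit 8,nat_lit 10,nat_lit 5],[nat_lit 8,nat_lit 8,nat_lit 11,nat_lit 5],
    [nat_lit 8,nat_lit 8,nat_lit 13,nat_lit 8,nat_lit 8],[nat_lit 8,nat_lit 9,nat_lit 0,nat_lit 13],[nat_lit 8,
    nat_lit 9,nat_lit 1,nat_lit 10,nat_lit 0],[nat_lit 8,nat_lit 9,nat_lit 1,nat_lit 11,nat_lit 0],[nat_lit 8,
    nat_lit 9,nat_lit 1,nat_lit 13],[nat_lit 8,nat_lit 9,nat_lit 3,nat_lit 5],[nat_lit 8,nat_lit 9,nat_lit 4,
    nat_lit 2],[nat_lit 8,nat_lit 9,nat_lit 4,nat_lit 10],[nat_lit 8,nat_lit 9,nat_lit 5,nat_lit 10]],[[nat_lit 8,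
    nat_lit 9,nat_lit 8,nat_lit 9,nat_lit 12],[nat_lit 8,nat_lit 9,nat_lit 8,nat_lit 9,nat_lit 13],[nat_lit 8,
    nat_lit 9,nat_lit 9,nat_lit 9,nat_lit 12],[nat_lit 8,nat_lit 9,nat_lit 9,nat_lit 9,nat_lit 13],[nat_lit 8,
    nat_lit 9,nat_lit 9,nat_lit 12,nat_lit 8],[nat_lit 8,nat_lit 9,nat_lit 9,nat_lit 13,nat_lit 8],[nat_lit 8,
    nat_lit 9,nat_lit 11,nat_lit 4],[nat_lit 8,nat_lit 9,nat_lit 11,nat_lit 5],[nat_lit 8,nat_lit 9,nat_lit 12,
    nat_lit 0],[nat_lit 8,nat_lit 9,nat_lit 12,nat_lit 1],[nat_lit 8,nat_lit 9,nat_lit 12,nat_lit 8,nat_lit 8],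
    [nat_lit 8,nat_lit 9,nat_lit 12,nat_lit 8,nat_lit 9]],[[nat_lit 8,nat_lit 9,nat_lit 13,nat_lit 8,nat_lit 8],
    [nat_lit 8,nat_lit 9,nat_lit 13,nat_lit 8,nat_lit 9],[nat_lit 8,nat_lit 10,nat_lit 0,nat_lit 7],[nat_lit 8,
    nat_lit 10,nat_lit 4,nat_lit 8],[nat_lit 8,nat_lit 10,nat_lit 5,nat_lit 8],[nat_lit 8,nat_lit 10,nat_lit 8,
    nat_lit 4],[nat_lit 8,nat_lit 11,nat_lit 5,nat_lit 8],[nat_lit 8,nat_lit 13,nat_lit 6],[nat_lit 8,nat_lit 13,
    nat_lit 7],[nat_lit 8,nat_lit 13,nat_lit 8,nat_lit 8,nat_lit 8],[nat_lit 9,nat_lit 0,nat_lit 13,nat_lit 8],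
    [nat_lit 9,nat_lit 1,nat_lit 10,nat_lit 0,nat_lit 8]],[[nat_lit 9,nat_lit 1,nat_lit 11,nat_lit 0,nat_lit 8],
    [nat_lit 9,nat_lit 1,nat_lit 13,nat_lit 8],[nat_lit 9,nat_lit 3,nat_lit 5,nat_lit 8],[nat_lit 9,nat_lit 3,
    nat_lit 5,nat_lit 9],[nat_lit 9,nat_lit 4,nat_lit 2,nat_lit 8],[nat_lit 9,nat_lit 4,nat_lit 8,nat_lit 2],
    [nat_lit 9,nat_lit 4,nat_lit 8,nat_lit 3],[nat_lit 9,nat_lit 4,nat_lit 10,nat_lit 8],[nat_lit 9,nat_lit 4,
    nat_lit 10,nat_lit 9],[nat_lit 9,nat_lit 4,nat_lit 11,nat_lit 9],[nat_lit 9,nat_lit 5,nat_lit 8,nat_lit 2],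
    [nat_lit 9,nat_lit 5,nat_lit 8,nat_lit 3]],[[nat_lit 9,nat_lit 5,nat_lit 9,nat_lit 11],[nat_lit 9,nat_lit 5,
    nat_lit 10,nat_lit 8],[nat_lit 9,nat_lit 5,nat_lit 11,nat_lit 9],[nat_lit 9,nat_lit 6,nat_lit 1,nat_lit 11],
    [nat_lit 9,nat_lit 6,nat_lit 12],[nat_lit 9,nat_lit 7,nat_lit 12],[nat_lit 9,nat_lit 8,nat_lit 3,nat_lit 4],
    [nat_lit 9,nat_lit 8,nat_lit 5,nat_lit 2],[nat_lit 9,nat_lit 8,nat_lit 9,nat_lit 12,nat_lit 8],[nat_lit 9,
    nat_lit 8,nat_lit 9,nat_lit 13,nat_lit 8],[nat_lit 9,nat_lit 9,nat_lit 3,nat_lit 5],[nat_lit 9,nat_lit 9,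
    nat_lit 4,nat_lit 10]],[[nat_lit 9,nat_lit 9,nat_lit 4,nat_lit 11],[nat_lit 9,nat_lit 9,nat_lit 5,nat_lit 11],
    [nat_lit 9,nat_lit 9,nat_lit 9,nat_lit 9,nat_lit 12],[nat_lit 9,nat_lit 9,nat_lit 9,nat_lit 12,nat_lit 8],
    [nat_lit 9,nat_lit 9,nat_lit 9,nat_lit 12,nat_lit 9],[nat_lit 9,nat_lit 9,nat_lit 9,nat_lit 13,nat_lit 8],
    [nat_lit 9,nat_lit 9,nat_lit 11,nat_lit 4],[nat_lit 9,nat_lit 9,nat_lit 11,nat_lit 5],[nat_lit 9,nat_lit 9,
    nat_lit 12,nat_lit 8,nat_lit 8],[nat_lit 9,nat_lit 9,nat_lit 12,nat_lit 8,nat_lit 9],[nat_lit 9,nat_lit 9,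
    nat_lit 12,nat_lit 9,nat_lit 9],[nat_lit 9,nat_lit 9,nat_lit 13,nat_lit 8,nat_lit 8]],[[nat_lit 9,nat_lit 9,
    nat_lit 13,nat_lit 8,nat_lit 9],[nat_lit 9,nat_lit 11,nat_lit 4,nat_lit 8],[nat_lit 9,nat_lit 11,nat_lit 4,
    nat_lit 9],[nat_lit 9,nat_lit 11,nat_lit 5,nat_lit 8],[nat_lit 9,nat_lit 11,nat_lit 5,nat_lit 9],[nat_lit 9,
    nat_lit 11,nat_lit 7,nat_lit 0],[nat_lit 9,nat_lit 11,nat_lit 9,nat_lit 5],[nat_lit 9,nat_lit 12,nat_lit 0,
    nat_lit 8],[nat_lit 9,nat_lit 12,nat_lit 1,nat_lit 8],[nat_lit 9,nat_lit 12,nat_lit 6],[nat_lit 9,nat_lit 12,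
    nat_lit 7],[nat_lit 9,nat_lit 12,nat_lit 8,nat_lit 8,nat_lit 8]],[[nat_lit 9,nat_lit 12,nat_lit 8,nat_lit 8,
    nat_lit 9],[nat_lit 9,nat_lit 12,nat_lit 8,nat_lit 9,nat_lit 8],[nat_lit 9,nat_lit 12,nat_lit 8,nat_lit 9,
    nat_lit 9],[nat_lit 9,nat_lit 12,nat_lit 9,nat_lit 9,nat_lit 9],[nat_lit 9,nat_lit 13,nat_lit 6],[nat_lit 9,
    nat_lit 13,nat_lit 7],[nat_lit 9,nat_lit 13,nat_lit 8,nat_lit 8,nat_lit 8],[nat_lit 9,nat_lit 13,nat_lit 8,
    nat_lit 8,nat_lit 9],[nat_lit 9,nat_lit 13,nat_lit 8,nat_lit 9,nat_lit 8],[nat_lit 9,nat_lit 13,nat_lit 8,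
    nat_lit 9,nat_lit 9],[nat_lit 10,nat_lit 0,nat_lit 0,nat_lit 0],[nat_lit 10,nat_lit 0,nat_lit 5]],[[nat_lit 10,
    nat_lit 0,nat_lit 7,nat_lit 8],[nat_lit 10,nat_lit 0,nat_lit 8,nat_lit 9,nat_lit 1],[nat_lit 10,nat_lit 1,
    nat_lit 1,nat_lit 1],[nat_lit 10,nat_lit 1,nat_lit 5],[nat_lit 10,nat_lit 4,nat_lit 1],[nat_lit 10,nat_lit 4,
    nat_lit 8,nat_lit 8],[nat_lit 10,nat_lit 5,nat_lit 8,nat_lit 8],[nat_lit 10,nat_lit 6,nat_lit 6],[nat_lit 10,
    nat_lit 6,nat_lit 7],[nat_lit 10,nat_lit 7,nat_lit 6],[nat_lit 10,nat_lit 8,nat_lit 1,nat_lit 6],[nat_lit 10,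
    nat_lit 8,nat_lit 4,nat_lit 8]],[[nat_lit 10,nat_lit 8,nat_lit 8,nat_lit 4],[nat_lit 10,nat_lit 8,nat_lit 8,
    nat_lit 5],[nat_lit 10,nat_lit 8,nat_lit 9,nat_lit 4],[nat_lit 10,nat_lit 8,nat_lit 9,nat_lit 5],[nat_lit 10,
    nat_lit 9,nat_lit 9,nat_lit 4],[nat_lit 10,nat_lit 14],[nat_lit 10,nat_lit 15],[nat_lit 11,nat_lit 0,nat_lit 0,
    nat_lit 0],[nat_lit 11,nat_lit 0,nat_lit 5],[nat_lit 11,nat_lit 0,nat_lit 8,nat_lit 9,nat_lit 1],[nat_lit 11,
    nat_lit 1,nat_lit 1,nat_lit 1],[nat_lit 11,nat_lit 4,nat_lit 0]],[[nat_lit 11,nat_lit 4,nat_lit 1],[nat_lit 11,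
    nat_lit 4,nat_lit 8,nat_lit 9],[nat_lit 11,nat_lit 4,nat_lit 9,nat_lit 9],[nat_lit 11,nat_lit 5,nat_lit 8,
    nat_lit 8],[nat_lit 11,nat_lit 5,nat_lit 8,nat_lit 9],[nat_lit 11,nat_lit 5,nat_lit 9,nat_lit 9],[nat_lit 11,
    nat_lit 6,nat_lit 7],[nat_lit 11,nat_lit 7,nat_lit 0,nat_lit 9],[nat_lit 11,nat_lit 7,nat_lit 6],[nat_lit 11,
    nat_lit 7,nat_lit 7],[nat_lit 11,nat_lit 9,nat_lit 5,nat_lit 9],[nat_lit 11,nat_lit 9,nat_lit 6,nat_lit 1]],
    [[nat_lit 11,nat_lit 9,nat_lit 9,nat_lit 4],[nat_lit 11,nat_lit 9,nat_lit 9,nat_lit 5],[nat_lit 11,nat_lit 14],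
    [nat_lit 11,nat_lit 15],[nat_lit 12,nat_lit 0,nat_lit 8,nat_lit 9],[nat_lit 12,nat_lit 1,nat_lit 1],[nat_lit 12,
    nat_lit 1,nat_lit 8,nat_lit 9],[nat_lit 12,nat_lit 4],[nat_lit 12,nat_lit 5],[nat_lit 12,nat_lit 6,nat_lit 9],
    [nat_lit 12,nat_lit 7,nat_lit 9],[nat_lit 12,nat_lit 8,nat_lit 6]],[[nat_lit 12,nat_lit 8,nat_lit 7],[nat_lit 12,
    nat_lit 8,nat_lit 8,nat_lit 8,nat_lit 9],[nat_lit 12,nat_lit 8,nat_lit 8,nat_lit 9,nat_lit 9],[nat_lit 12,
    nat_lit 8,nat_lit 9,nat_lit 8,nat_lit 9],[nat_lit 12,nat_lit 8,nat_lit 9,nat_lit 9,nat_lit 9],[nat_lit 12,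
    nat_lit 9,nat_lit 6],[nat_lit 12,nat_lit 9,nat_lit 7],[nat_lit 12,nat_lit 9,nat_lit 9,nat_lit 9,nat_lit 9],
    [nat_lit 13,nat_lit 0,nat_lit 0],[nat_lit 13,nat_lit 4],[nat_lit 13,nat_lit 5],[nat_lit 13,nat_lit 6,nat_lit 8]],
    [[nat_lit 13,nat_lit 6,nat_lit 9],[nat_lit 13,nat_lit 7,nat_lit 8],[nat_lit 13,nat_lit 7,nat_lit 9],[nat_lit 13,
    nat_lit 8,nat_lit 6],[nat_lit 13,nat_lit 8,nat_lit 7],[nat_lit 13,nat_lit 8,nat_lit 8,nat_lit 8,nat_lit 8],
    [nat_lit 13,nat_lit 8,nat_lit 8,nat_lit 8,nat_lit 9],[nat_lit 13,nat_lit 8,nat_lit 8,nat_lit 9,nat_lit 9],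
    [nat_lit 13,nat_lit 8,nat_lit 9,nat_lit 0],[nat_lit 13,nat_lit 8,nat_lit 9,nat_lit 1],[nat_lit 13,nat_lit 8,
    nat_lit 9,nat_lit 8,nat_lit 9],[nat_lit 13,nat_lit 8,nat_lit 9,nat_lit 9,nat_lit 9]],[[nat_lit 14,nat_lit 2],
    [nat_lit 14,nat_lit 3],[nat_lit 14,nat_lit 10],[nat_lit 14,nat_lit 11],[nat_lit 15,nat_lit 2],[nat_lit 15,
    nat_lit 3],[nat_lit 15,nat_lit 10],[nat_lit 15,nat_lit 11]]]
    [[nat_lit 2,nat_lit 3,nat_lit 14,nat_lit 15,nat_lit 17,nat_lit 39,nat_lit 78,nat_lit 90,nat_lit 94,nat_lit 120,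
    nat_lit 161,nat_lit 162],[nat_lit 176,nat_lit 233,nat_lit 250,nat_lit 271,nat_lit 275,nat_lit 308,nat_lit 320,
    nat_lit 21,nat_lit 22,nat_lit 30,nat_lit 33,nat_lit 36],[nat_lit 49,nat_lit 80,nat_lit 91,nat_lit 109,nat_lit 177,
    nat_lit 253,nat_lit 254,nat_lit 256,nat_lit 273,nat_lit 274,nat_lit 276,nat_lit 287],[nat_lit 293,nat_lit 321,
    nat_lit 6,nat_lit 58,nat_lit 115,nat_lit 145,nat_lit 165,nat_lit 197,nat_lit 202,nat_lit 211,nat_lit 324,
    nat_lit 328],[nat_lit 25,nat_lit 60,nat_lit 70,nat_lit 85,nat_lit 87,nat_lit 116,nat_lit 198,nat_lit 203,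
    nat_lit 325,nat_lit 329,nat_lit 5,nat_lit 16],[nat_lit 24,nat_lit 31,nat_lit 34,nat_lit 41,nat_lit 42,nat_lit 131,
    nat_lit 134,nat_lit 156,nat_lit 174,nat_lit 185,nat_lit 210,nat_lit 222],[nat_lit 264,nat_lit 266,nat_lit 268,
    nat_lit 288,nat_lit 295,nat_lit 309,nat_lit 38,nat_lit 45,nat_lit 48,nat_lit 132,nat_lit 135,nat_lit 157],
    [nat_lit 158,nat_lit 164,nat_lit 175,nat_lit 214,nat_lit 223,nat_lit 234,nat_lit 251,nat_lit 255,nat_lit 265,
    nat_lit 267,nat_lit 272,nat_lit 289],[nat_lit 296,nat_lit 310,nat_lit 35,nat_lit 40,nat_lit 53,nat_lit 107,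
    nat_lit 124,nat_lit 125,nat_lit 187,nat_lit 237,nat_lit 244,nat_lit 259],[nat_lit 261,nat_lit 262,nat_lit 284,
    nat_lit 299,nat_lit 305,nat_lit 315,nat_lit 13,nat_lit 99,nat_lit 100,nat_lit 108,nat_lit 110,nat_lit 126],
    [nat_lit 182,nat_lit 188,nat_lit 238,nat_lit 245,nat_lit 260,nat_lit 282,nat_lit 285,nat_lit 300,nat_lit 306,
    nat_lit 316,nat_lit 27,nat_lit 43],[nat_lit 44,nat_lit 50,nat_lit 54,nat_lit 55,nat_lit 63,nat_lit 69,nat_lit 72,
    nat_lit 79,nat_lit 92,nat_lit 111,nat_lit 113,nat_lit 127],[nat_lit 129,nat_lit 136,nat_lit 138,nat_lit 140,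
    nat_lit 151,nat_lit 154,nat_lit 155,nat_lit 159,nat_lit 172,nat_lit 173,nat_lit 178,nat_lit 180],[nat_lit 183,
    nat_lit 184,nat_lit 186,nat_lit 189,nat_lit 190,nat_lit 191,nat_lit 192,nat_lit 193,nat_lit 194,nat_lit 196,
    nat_lit 199,nat_lit 205],[nat_lit 212,nat_lit 213,nat_lit 219,nat_lit 221,nat_lit 224,nat_lit 227,nat_lit 229,
    nat_lit 231,nat_lit 235,nat_lit 236,nat_lit 239,nat_lit 241],[nat_lit 246,nat_lit 248,nat_lit 252,nat_lit 257,
    nat_lit 258,nat_lit 263,nat_lit 279,nat_lit 311,nat_lit 313,nat_lit 317,nat_lit 18,nat_lit 29],[nat_lit 32,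
    nat_lit 37,nat_lit 51,nat_lit 52,nat_lit 64,nat_lit 65,nat_lit 66,nat_lit 73,nat_lit 74,nat_lit 75,nat_lit 81,
    nat_lit 82],[nat_lit 89,nat_lit 93,nat_lit 95,nat_lit 98,nat_lit 112,nat_lit 128,nat_lit 133,nat_lit 139,
    nat_lit 179,nat_lit 181,nat_lit 195,nat_lit 200],[nat_lit 201,nat_lit 206,nat_lit 220,nat_lit 225,nat_lit 226,
    nat_lit 228,nat_lit 230,nat_lit 232,nat_lit 240,nat_lit 242,nat_lit 243,nat_lit 247],[nat_lit 249,nat_lit 277,
    nat_lit 278,nat_lit 280,nat_lit 281,nat_lit 283,nat_lit 286,nat_lit 292,nat_lit 294,nat_lit 297,nat_lit 298,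
    nat_lit 301],[nat_lit 302,nat_lit 303,nat_lit 304,nat_lit 307,nat_lit 312,nat_lit 314,nat_lit 318,nat_lit 319,
    nat_lit 322,nat_lit 323,nat_lit 0,nat_lit 7],[nat_lit 9,nat_lit 10,nat_lit 19,nat_lit 26,nat_lit 61,nat_lit 67,
    nat_lit 83,nat_lit 101,nat_lit 102,nat_lit 117,nat_lit 130,nat_lit 137],[nat_lit 146,nat_lit 147,nat_lit 166,
    nat_lit 167,nat_lit 215,nat_lit 326,nat_lit 330,nat_lit 1,nat_lit 8,nat_lit 11,nat_lit 20,nat_lit 59],[nat_lit 62,
    nat_lit 68,nat_lit 71,nat_lit 84,nat_lit 86,nat_lit 88,nat_lit 103,nat_lit 114,nat_lit 118,nat_lit 119,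
    nat_lit 204,nat_lit 207],[nat_lit 216,nat_lit 217,nat_lit 327,nat_lit 331,nat_lit 12,nat_lit 23,nat_lit 28,
    nat_lit 76,nat_lit 96,nat_lit 105,nat_lit 122,nat_lit 141],[nat_lit 143,nat_lit 149,nat_lit 152,nat_lit 168,
    nat_lit 170,nat_lit 208,nat_lit 209,nat_lit 218,nat_lit 4,nat_lit 77,nat_lit 97,nat_lit 104],[nat_lit 106,
    nat_lit 121,nat_lit 123,nat_lit 142,nat_lit 144,nat_lit 148,nat_lit 150,nat_lit 153,nat_lit 160,nat_lit 163,
    nat_lit 169,nat_lit 171],[nat_lit 46,nat_lit 56,nat_lit 269,nat_lit 290,nat_lit 47,nat_lit 57,nat_lit 270,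
    nat_lit 291]]
    [[nat_lit 250,nat_lit 271,nat_lit 0,nat_lit 1,nat_lit 308,nat_lit 58,nat_lit 38,nat_lit 251,nat_lit 272,
    nat_lit 252,nat_lit 253,nat_lit 273],[nat_lit 292,nat_lit 114,nat_lit 2,nat_lit 3,nat_lit 59,nat_lit 4,
    nat_lit 190,nat_lit 254,nat_lit 274,nat_lit 19,nat_lit 20,nat_lit 293],[nat_lit 60,nat_lit 48,nat_lit 255,
    nat_lit 130,nat_lit 294,nat_lit 191,nat_lit 21,nat_lit 61,nat_lit 192,nat_lit 22,nat_lit 62,nat_lit 98],
    [nat_lit 23,nat_lit 193,nat_lit 78,nat_lit 5,nat_lit 99,nat_lit 63,nat_lit 64,nat_lit 131,nat_lit 132,nat_lit 79,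
    nat_lit 324,nat_lit 328],[nat_lit 80,nat_lit 24,nat_lit 133,nat_lit 194,nat_lit 195,nat_lit 100,nat_lit 134,
    nat_lit 135,nat_lit 325,nat_lit 329,nat_lit 39,nat_lit 275],[nat_lit 49,nat_lit 256,nat_lit 276,nat_lit 136,
    nat_lit 196,nat_lit 197,nat_lit 198,nat_lit 257,nat_lit 277,nat_lit 137,nat_lit 50,nat_lit 278],[nat_lit 138,
    nat_lit 199,nat_lit 200,nat_lit 201,nat_lit 295,nat_lit 309,nat_lit 6,nat_lit 139,nat_lit 25,nat_lit 202,
    nat_lit 203,nat_lit 258],[nat_lit 279,nat_lit 51,nat_lit 280,nat_lit 52,nat_lit 281,nat_lit 204,nat_lit 7,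
    nat_lit 26,nat_lit 140,nat_lit 205,nat_lit 8,nat_lit 206],[nat_lit 296,nat_lit 310,nat_lit 207,nat_lit 115,
    nat_lit 116,nat_lit 259,nat_lit 260,nat_lit 282,nat_lit 311,nat_lit 297,nat_lit 312,nat_lit 101],[nat_lit 117,
    nat_lit 27,nat_lit 118,nat_lit 141,nat_lit 208,nat_lit 142,nat_lit 283,nat_lit 40,nat_lit 53,nat_lit 261,
    nat_lit 284,nat_lit 285],[nat_lit 9,nat_lit 313,nat_lit 298,nat_lit 314,nat_lit 102,nat_lit 103,nat_lit 119,
    nat_lit 143,nat_lit 209,nat_lit 144,nat_lit 262,nat_lit 65],[nat_lit 81,nat_lit 210,nat_lit 66,nat_lit 82,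
    nat_lit 145,nat_lit 263,nat_lit 146,nat_lit 211,nat_lit 147,nat_lit 299,nat_lit 315,nat_lit 300],[nat_lit 316,
    nat_lit 41,nat_lit 264,nat_lit 265,nat_lit 317,nat_lit 301,nat_lit 318,nat_lit 148,nat_lit 302,nat_lit 319,
    nat_lit 149,nat_lit 150],[nat_lit 67,nat_lit 83,nat_lit 84,nat_lit 151,nat_lit 320,nat_lit 10,nat_lit 11,
    nat_lit 321,nat_lit 85,nat_lit 42,nat_lit 266,nat_lit 267],[nat_lit 303,nat_lit 322,nat_lit 304,nat_lit 323,
    nat_lit 152,nat_lit 153,nat_lit 68,nat_lit 86,nat_lit 12,nat_lit 28,nat_lit 154,nat_lit 212],[nat_lit 155,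
    nat_lit 213,nat_lit 120,nat_lit 156,nat_lit 157,nat_lit 69,nat_lit 158,nat_lit 104,nat_lit 121,nat_lit 159,
    nat_lit 160,nat_lit 161],[nat_lit 162,nat_lit 163,nat_lit 164,nat_lit 214,nat_lit 165,nat_lit 43,nat_lit 54,
    nat_lit 166,nat_lit 215,nat_lit 216,nat_lit 44,nat_lit 55],[nat_lit 286,nat_lit 167,nat_lit 217,nat_lit 287,
    nat_lit 305,nat_lit 306,nat_lit 70,nat_lit 45,nat_lit 168,nat_lit 169,nat_lit 87,nat_lit 268],[nat_lit 288,
    nat_lit 289,nat_lit 307,nat_lit 170,nat_lit 218,nat_lit 171,nat_lit 71,nat_lit 88,nat_lit 172,nat_lit 219,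
    nat_lit 220,nat_lit 173],[nat_lit 221,nat_lit 174,nat_lit 222,nat_lit 175,nat_lit 223,nat_lit 13,nat_lit 89,
    nat_lit 176,nat_lit 177,nat_lit 105,nat_lit 122,nat_lit 178],[nat_lit 224,nat_lit 179,nat_lit 225,nat_lit 226,
    nat_lit 106,nat_lit 123,nat_lit 180,nat_lit 227,nat_lit 181,nat_lit 228,nat_lit 14,nat_lit 90],[nat_lit 182,
    nat_lit 29,nat_lit 30,nat_lit 91,nat_lit 31,nat_lit 183,nat_lit 184,nat_lit 107,nat_lit 124,nat_lit 108,
    nat_lit 109,nat_lit 185],[nat_lit 72,nat_lit 92,nat_lit 73,nat_lit 93,nat_lit 74,nat_lit 326,nat_lit 330,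
    nat_lit 15,nat_lit 94,nat_lit 32,nat_lit 33,nat_lit 16],[nat_lit 34,nat_lit 229,nat_lit 230,nat_lit 186,
    nat_lit 231,nat_lit 232,nat_lit 125,nat_lit 233,nat_lit 110,nat_lit 126,nat_lit 234,nat_lit 35],[nat_lit 75,
    nat_lit 95,nat_lit 327,nat_lit 331,nat_lit 235,nat_lit 36,nat_lit 236,nat_lit 76,nat_lit 96,nat_lit 237,
    nat_lit 238,nat_lit 111],[nat_lit 127,nat_lit 239,nat_lit 240,nat_lit 241,nat_lit 242,nat_lit 112,nat_lit 128,
    nat_lit 243,nat_lit 17,nat_lit 77,nat_lit 97,nat_lit 187],[nat_lit 244,nat_lit 188,nat_lit 245,nat_lit 113,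
    nat_lit 129,nat_lit 189,nat_lit 246,nat_lit 247,nat_lit 18,nat_lit 37,nat_lit 248,nat_lit 249],[nat_lit 46,
    nat_lit 56,nat_lit 269,nat_lit 290,nat_lit 47,nat_lit 57,nat_lit 270,nat_lit 291]]
    [[[nat_lit 324],[nat_lit 324],[nat_lit 324],[nat_lit 324],[nat_lit 324],[],[nat_lit 325],[nat_lit 325],
    [nat_lit 325],[],[nat_lit 326],[nat_lit 326]],[[nat_lit 326],[],[],[],[],[nat_lit 327],[nat_lit 327],[nat_lit 57],
    [nat_lit 57],[nat_lit 57],[nat_lit 57],[nat_lit 57]],[[nat_lit 49],[],[],[nat_lit 50,nat_lit 54,nat_lit 55],[],[],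
    [],[],[nat_lit 51,nat_lit 52],[nat_lit 51,nat_lit 52],[nat_lit 51,nat_lit 52],[nat_lit 51,nat_lit 52]],
    [[nat_lit 56],[],[nat_lit 6],[],[],[nat_lit 0,nat_lit 7,nat_lit 9,nat_lit 10],[nat_lit 0,nat_lit 7,nat_lit 9,
    nat_lit 10],[nat_lit 13],[nat_lit 13],[nat_lit 13],[nat_lit 2,nat_lit 3,nat_lit 14,nat_lit 15,nat_lit 17],
    [nat_lit 4]],[[],[],[],[nat_lit 85,nat_lit 87],[nat_lit 85,nat_lit 87],[],[],[],[nat_lit 78,nat_lit 90,
    nat_lit 94],[nat_lit 97],[],[]],[[nat_lit 47],[nat_lit 47],[nat_lit 47],[nat_lit 41,nat_lit 42],[nat_lit 41,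
    nat_lit 42],[],[],[],[],[],[],[]],[[],[],[],[],[nat_lit 46],[],[],[],[],[nat_lit 117],[nat_lit 117],
    [nat_lit 117]],[[nat_lit 117],[nat_lit 117],[nat_lit 117],[nat_lit 126],[nat_lit 126],[nat_lit 126],[nat_lit 122],
    [nat_lit 122],[nat_lit 122],[nat_lit 122],[nat_lit 128],[nat_lit 128]],[[],[nat_lit 114,nat_lit 118,nat_lit 119],
    [],[],[],[nat_lit 63,nat_lit 69,nat_lit 72],[],[],[nat_lit 61,nat_lit 67],[],[],[nat_lit 76]],[[nat_lit 76],
    [nat_lit 76],[nat_lit 64,nat_lit 65,nat_lit 66,nat_lit 73,nat_lit 74,nat_lit 75],[],[],[nat_lit 59,nat_lit 62,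
    nat_lit 68,nat_lit 71],[nat_lit 197,nat_lit 202,nat_lit 211],[nat_lit 190,nat_lit 191,nat_lit 192,nat_lit 193,
    nat_lit 194,nat_lit 196,nat_lit 199,nat_lit 205,nat_lit 212,nat_lit 213,nat_lit 219,nat_lit 221,nat_lit 224,
    nat_lit 227,nat_lit 229,nat_lit 231,nat_lit 235,nat_lit 236,nat_lit 239,nat_lit 241,nat_lit 246,nat_lit 248],
    [nat_lit 190,nat_lit 191,nat_lit 192,nat_lit 193,nat_lit 194,nat_lit 196,nat_lit 199,nat_lit 205,nat_lit 212,
    nat_lit 213,nat_lit 219,nat_lit 221,nat_lit 224,nat_lit 227,nat_lit 229,nat_lit 231,nat_lit 235,nat_lit 236,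
    nat_lit 239,nat_lit 241,nat_lit 246,nat_lit 248],[nat_lit 190,nat_lit 191,nat_lit 192,nat_lit 193,nat_lit 194,
    nat_lit 196,nat_lit 199,nat_lit 205,nat_lit 212,nat_lit 213,nat_lit 219,nat_lit 221,nat_lit 224,nat_lit 227,
    nat_lit 229,nat_lit 231,nat_lit 235,nat_lit 236,nat_lit 239,nat_lit 241,nat_lit 246,nat_lit 248],[nat_lit 190,
    nat_lit 191,nat_lit 192,nat_lit 193,nat_lit 194,nat_lit 196,nat_lit 199,nat_lit 205,nat_lit 212,nat_lit 213,
    nat_lit 219,nat_lit 221,nat_lit 224,nat_lit 227,nat_lit 229,nat_lit 231,nat_lit 235,nat_lit 236,nat_lit 239,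
    nat_lit 241,nat_lit 246,nat_lit 248],[nat_lit 214,nat_lit 223,nat_lit 234]],[[nat_lit 215],[nat_lit 215],
    [nat_lit 238,nat_lit 245],[nat_lit 238,nat_lit 245],[nat_lit 208,nat_lit 209,nat_lit 218],[nat_lit 195,
    nat_lit 200,nat_lit 201,nat_lit 206,nat_lit 220,nat_lit 225,nat_lit 226,nat_lit 228,nat_lit 230,nat_lit 232,
    nat_lit 240,nat_lit 242,nat_lit 243,nat_lit 247,nat_lit 249],[nat_lit 195,nat_lit 200,nat_lit 201,nat_lit 206,
    nat_lit 220,nat_lit 225,nat_lit 226,nat_lit 228,nat_lit 230,nat_lit 232,nat_lit 240,nat_lit 242,nat_lit 243,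
    nat_lit 247,nat_lit 249],[],[],[nat_lit 204,nat_lit 207,nat_lit 216,nat_lit 217],[],[]],[[],[nat_lit 109],
    [nat_lit 109],[nat_lit 109],[nat_lit 107],[nat_lit 107],[nat_lit 107],[],[],[nat_lit 111,nat_lit 113],
    [nat_lit 111,nat_lit 113],[]],[[],[nat_lit 101,nat_lit 102],[nat_lit 101,nat_lit 102],[nat_lit 101,nat_lit 102],
    [nat_lit 101,nat_lit 102],[nat_lit 101,nat_lit 102],[nat_lit 101,nat_lit 102],[nat_lit 101,nat_lit 102],
    [nat_lit 101,nat_lit 102],[nat_lit 101,nat_lit 102],[nat_lit 101,nat_lit 102],[nat_lit 101,nat_lit 102]],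
    [[nat_lit 101,nat_lit 102],[nat_lit 101,nat_lit 102],[nat_lit 101,nat_lit 102],[nat_lit 101,nat_lit 102],
    [nat_lit 99,nat_lit 100,nat_lit 108,nat_lit 110],[nat_lit 99,nat_lit 100,nat_lit 108,nat_lit 110],[nat_lit 99,
    nat_lit 100,nat_lit 108,nat_lit 110],[nat_lit 99,nat_lit 100,nat_lit 108,nat_lit 110],[nat_lit 99,nat_lit 100,
    nat_lit 108,nat_lit 110],[nat_lit 99,nat_lit 100,nat_lit 108,nat_lit 110],[nat_lit 99,nat_lit 100,nat_lit 108,
    nat_lit 110],[nat_lit 99,nat_lit 100,nat_lit 108,nat_lit 110]],[[nat_lit 99,nat_lit 100,nat_lit 108,nat_lit 110],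
    [nat_lit 99,nat_lit 100,nat_lit 108,nat_lit 110],[nat_lit 99,nat_lit 100,nat_lit 108,nat_lit 110],[nat_lit 99,
    nat_lit 100,nat_lit 108,nat_lit 110],[nat_lit 99,nat_lit 100,nat_lit 108,nat_lit 110],[nat_lit 99,nat_lit 100,
    nat_lit 108,nat_lit 110],[nat_lit 99,nat_lit 100,nat_lit 108,nat_lit 110],[nat_lit 99,nat_lit 100,nat_lit 108,
    nat_lit 110],[nat_lit 99,nat_lit 100,nat_lit 108,nat_lit 110],[nat_lit 99,nat_lit 100,nat_lit 108,nat_lit 110],
    [nat_lit 99,nat_lit 100,nat_lit 108,nat_lit 110],[nat_lit 99,nat_lit 100,nat_lit 108,nat_lit 110]],[[nat_lit 99,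
    nat_lit 100,nat_lit 108,nat_lit 110],[nat_lit 99,nat_lit 100,nat_lit 108,nat_lit 110],[nat_lit 105],[nat_lit 105],
    [nat_lit 105],[nat_lit 105],[nat_lit 98,nat_lit 112],[nat_lit 103],[nat_lit 103],[nat_lit 103],[],[nat_lit 291]],
    [[nat_lit 291],[nat_lit 291],[nat_lit 273,nat_lit 274,nat_lit 276,nat_lit 287],[nat_lit 273,nat_lit 274,
    nat_lit 276,nat_lit 287],[nat_lit 284],[nat_lit 284],[nat_lit 284],[nat_lit 284],[nat_lit 284],[nat_lit 284],[],
    []],[[],[],[],[nat_lit 279],[nat_lit 279],[nat_lit 272,nat_lit 289],[],[],[],[],[nat_lit 282,nat_lit 285],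
    [nat_lit 282,nat_lit 285]],[[nat_lit 282,nat_lit 285],[nat_lit 282,nat_lit 285],[nat_lit 282,nat_lit 285],
    [nat_lit 282,nat_lit 285],[nat_lit 282,nat_lit 285],[nat_lit 282,nat_lit 285],[nat_lit 282,nat_lit 285],
    [nat_lit 282,nat_lit 285],[nat_lit 282,nat_lit 285],[nat_lit 282,nat_lit 285],[nat_lit 282,nat_lit 285],
    [nat_lit 282,nat_lit 285]],[[nat_lit 282,nat_lit 285],[nat_lit 277,nat_lit 278,nat_lit 280,nat_lit 281,
    nat_lit 283,nat_lit 286],[nat_lit 277,nat_lit 278,nat_lit 280,nat_lit 281,nat_lit 283,nat_lit 286],[nat_lit 277,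
    nat_lit 278,nat_lit 280,nat_lit 281,nat_lit 283,nat_lit 286],[nat_lit 277,nat_lit 278,nat_lit 280,nat_lit 281,
    nat_lit 283,nat_lit 286],[nat_lit 277,nat_lit 278,nat_lit 280,nat_lit 281,nat_lit 283,nat_lit 286],[nat_lit 277,
    nat_lit 278,nat_lit 280,nat_lit 281,nat_lit 283,nat_lit 286],[nat_lit 290],[nat_lit 290],[nat_lit 290],
    [nat_lit 290],[nat_lit 290]],[[nat_lit 290],[nat_lit 290],[nat_lit 290],[nat_lit 290],[],[],[],[],[],[],
    [nat_lit 145,nat_lit 165],[nat_lit 145,nat_lit 165]],[[nat_lit 145,nat_lit 165],[nat_lit 145,nat_lit 165],[],[],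
    [nat_lit 187],[nat_lit 187],[],[nat_lit 136,nat_lit 138,nat_lit 140,nat_lit 151,nat_lit 154,nat_lit 155,
    nat_lit 159,nat_lit 172,nat_lit 173,nat_lit 178,nat_lit 180,nat_lit 183,nat_lit 184,nat_lit 186,nat_lit 189],
    [nat_lit 136,nat_lit 138,nat_lit 140,nat_lit 151,nat_lit 154,nat_lit 155,nat_lit 159,nat_lit 172,nat_lit 173,
    nat_lit 178,nat_lit 180,nat_lit 183,nat_lit 184,nat_lit 186,nat_lit 189],[nat_lit 132,nat_lit 135,nat_lit 157,
    nat_lit 158,nat_lit 164,nat_lit 175],[nat_lit 130,nat_lit 137,nat_lit 146,nat_lit 147,nat_lit 166,nat_lit 167],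
    [nat_lit 130,nat_lit 137,nat_lit 146,nat_lit 147,nat_lit 166,nat_lit 167]],[[nat_lit 130,nat_lit 137,nat_lit 146,
    nat_lit 147,nat_lit 166,nat_lit 167],[nat_lit 130,nat_lit 137,nat_lit 146,nat_lit 147,nat_lit 166,nat_lit 167],
    [nat_lit 130,nat_lit 137,nat_lit 146,nat_lit 147,nat_lit 166,nat_lit 167],[nat_lit 130,nat_lit 137,nat_lit 146,
    nat_lit 147,nat_lit 166,nat_lit 167],[nat_lit 182,nat_lit 188],[nat_lit 161,nat_lit 162,nat_lit 176],[nat_lit 142,
    nat_lit 144,nat_lit 148,nat_lit 150,nat_lit 153,nat_lit 160,nat_lit 163,nat_lit 169,nat_lit 171],[],[],[],[],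
    [nat_lit 315]],[[nat_lit 315],[nat_lit 315],[nat_lit 315],[],[],[],[nat_lit 311,nat_lit 313,nat_lit 317],
    [nat_lit 310],[nat_lit 310],[nat_lit 310],[nat_lit 316],[nat_lit 316]],[[nat_lit 316],[nat_lit 316],[nat_lit 308,
    nat_lit 320],[],[],[nat_lit 270],[nat_lit 270],[nat_lit 259,nat_lit 261,nat_lit 262],[],[nat_lit 252,nat_lit 257,
    nat_lit 258,nat_lit 263],[nat_lit 251,nat_lit 255,nat_lit 265,nat_lit 267],[]],[[],[],[],[],[],[nat_lit 260],
    [nat_lit 260],[nat_lit 260],[nat_lit 328],[],[nat_lit 329],[]],[[],[],[],[nat_lit 330],[nat_lit 330],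
    [nat_lit 330],[nat_lit 330],[nat_lit 330],[nat_lit 330],[nat_lit 330],[nat_lit 330],[nat_lit 330]],[[nat_lit 295],
    [nat_lit 293],[],[nat_lit 292,nat_lit 294,nat_lit 297,nat_lit 298,nat_lit 301,nat_lit 302,nat_lit 303,nat_lit 304,
    nat_lit 307],[nat_lit 24,nat_lit 31,nat_lit 34],[nat_lit 21,nat_lit 22,nat_lit 30,nat_lit 33,nat_lit 36],
    [nat_lit 23,nat_lit 28],[nat_lit 29,nat_lit 32,nat_lit 37]]]
    (nat_lit 332) [nat_lit 0,nat_lit 1,nat_lit 2,nat_lit 3,nat_lit 4,nat_lit 5,nat_lit 6,nat_lit 7,nat_lit 8,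
    nat_lit 9,nat_lit 10,nat_lit 11,nat_lit 12,nat_lit 13,nat_lit 14,nat_lit 15,nat_lit 16,nat_lit 17,nat_lit 18,
    nat_lit 19,nat_lit 20,nat_lit 21,nat_lit 22,nat_lit 23,nat_lit 24,nat_lit 25,nat_lit 26,nat_lit 27,nat_lit 28,
    nat_lit 30,nat_lit 31,nat_lit 33,nat_lit 34,nat_lit 35,nat_lit 36,nat_lit 37,nat_lit 40,nat_lit 41,nat_lit 42,
    nat_lit 43,nat_lit 44,nat_lit 45,nat_lit 46,nat_lit 47,nat_lit 50,nat_lit 51,nat_lit 52,nat_lit 53,nat_lit 54,
    nat_lit 55,nat_lit 56,nat_lit 57,nat_lit 67,nat_lit 68,nat_lit 69,nat_lit 71,nat_lit 72,nat_lit 73,nat_lit 74,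
    nat_lit 75,nat_lit 76,nat_lit 77,nat_lit 83,nat_lit 84,nat_lit 86,nat_lit 88,nat_lit 89,nat_lit 92,nat_lit 93,
    nat_lit 95,nat_lit 96,nat_lit 97,nat_lit 101,nat_lit 102,nat_lit 103,nat_lit 104,nat_lit 105,nat_lit 106,
    nat_lit 107,nat_lit 108,nat_lit 110,nat_lit 111,nat_lit 112,nat_lit 113,nat_lit 119,nat_lit 121,nat_lit 122,
    nat_lit 123,nat_lit 126,nat_lit 127,nat_lit 128,nat_lit 129,nat_lit 148,nat_lit 149,nat_lit 150,nat_lit 151,
    nat_lit 152,nat_lit 153,nat_lit 154,nat_lit 155,nat_lit 159,nat_lit 168,nat_lit 169,nat_lit 170,nat_lit 171,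
    nat_lit 172,nat_lit 173,nat_lit 178,nat_lit 179,nat_lit 180,nat_lit 181,nat_lit 189,nat_lit 218,nat_lit 220,
    nat_lit 226,nat_lit 243,nat_lit 269,nat_lit 270,nat_lit 290,nat_lit 291]
    [[[nat_lit 2,nat_lit 3,nat_lit 14,nat_lit 15,nat_lit 17],[],[nat_lit 6],[],[nat_lit 5,nat_lit 16],[],[],
    [nat_lit 13],[],[nat_lit 18],[nat_lit 0,nat_lit 7,nat_lit 9,nat_lit 10],[nat_lit 1,nat_lit 8,nat_lit 11],
    [nat_lit 12],[nat_lit 4],[],[]],[[],[nat_lit 21,nat_lit 22,nat_lit 30,nat_lit 33,nat_lit 36],[],[nat_lit 25],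
    [nat_lit 24,nat_lit 31,nat_lit 34],[],[nat_lit 35],[],[nat_lit 27],[nat_lit 29,nat_lit 32,nat_lit 37],[nat_lit 19,
    nat_lit 26],[nat_lit 20],[nat_lit 23,nat_lit 28],[],[],[]],[[nat_lit 39],[],[],[],[nat_lit 41,nat_lit 42],
    [nat_lit 38,nat_lit 45],[nat_lit 40],[],[nat_lit 43,nat_lit 44],[],[],[],[],[],[nat_lit 46],[nat_lit 47]],[[],
    [nat_lit 49],[],[],[],[nat_lit 48],[nat_lit 53],[],[nat_lit 50,nat_lit 54,nat_lit 55],[nat_lit 51,nat_lit 52],[],
    [],[],[],[nat_lit 56],[nat_lit 57]],[[],[],[nat_lit 58],[nat_lit 60,nat_lit 70],[],[],[],[],[nat_lit 63,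
    nat_lit 69,nat_lit 72],[nat_lit 64,nat_lit 65,nat_lit 66,nat_lit 73,nat_lit 74,nat_lit 75],[nat_lit 61,
    nat_lit 67],[nat_lit 59,nat_lit 62,nat_lit 68,nat_lit 71],[nat_lit 76],[nat_lit 77],[],[]],[[nat_lit 78,
    nat_lit 90,nat_lit 94],[nat_lit 80,nat_lit 91],[],[nat_lit 85,nat_lit 87],[],[],[],[],[nat_lit 79,nat_lit 92],
    [nat_lit 81,nat_lit 82,nat_lit 89,nat_lit 93,nat_lit 95],[nat_lit 83],[nat_lit 84,nat_lit 86,nat_lit 88],
    [nat_lit 96],[nat_lit 97],[],[]],[[],[nat_lit 109],[],[],[],[],[nat_lit 107],[nat_lit 99,nat_lit 100,nat_lit 108,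
    nat_lit 110],[nat_lit 111,nat_lit 113],[nat_lit 98,nat_lit 112],[nat_lit 101,nat_lit 102],[nat_lit 103],
    [nat_lit 105],[nat_lit 104,nat_lit 106],[],[]],[[nat_lit 120],[],[nat_lit 115],[nat_lit 116],[],[],[nat_lit 124,
    nat_lit 125],[nat_lit 126],[nat_lit 127,nat_lit 129],[nat_lit 128],[nat_lit 117],[nat_lit 114,nat_lit 118,
    nat_lit 119],[nat_lit 122],[nat_lit 121,nat_lit 123],[],[]],[[nat_lit 161,nat_lit 162,nat_lit 176],[nat_lit 177],
    [nat_lit 145,nat_lit 165],[],[nat_lit 131,nat_lit 134,nat_lit 156,nat_lit 174,nat_lit 185],[nat_lit 132,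
    nat_lit 135,nat_lit 157,nat_lit 158,nat_lit 164,nat_lit 175],[nat_lit 187],[nat_lit 182,nat_lit 188],[nat_lit 136,
    nat_lit 138,nat_lit 140,nat_lit 151,nat_lit 154,nat_lit 155,nat_lit 159,nat_lit 172,nat_lit 173,nat_lit 178,
    nat_lit 180,nat_lit 183,nat_lit 184,nat_lit 186,nat_lit 189],[nat_lit 133,nat_lit 139,nat_lit 179,nat_lit 181],
    [nat_lit 130,nat_lit 137,nat_lit 146,nat_lit 147,nat_lit 166,nat_lit 167],[],[nat_lit 141,nat_lit 143,nat_lit 149,
    nat_lit 152,nat_lit 168,nat_lit 170],[nat_lit 142,nat_lit 144,nat_lit 148,nat_lit 150,nat_lit 153,nat_lit 160,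
    nat_lit 163,nat_lit 169,nat_lit 171],[],[]],[[nat_lit 233],[],[nat_lit 197,nat_lit 202,nat_lit 211],[nat_lit 198,
    nat_lit 203],[nat_lit 210,nat_lit 222],[nat_lit 214,nat_lit 223,nat_lit 234],[nat_lit 237,nat_lit 244],
    [nat_lit 238,nat_lit 245],[nat_lit 190,nat_lit 191,nat_lit 192,nat_lit 193,nat_lit 194,nat_lit 196,nat_lit 199,
    nat_lit 205,nat_lit 212,nat_lit 213,nat_lit 219,nat_lit 221,nat_lit 224,nat_lit 227,nat_lit 229,nat_lit 231,
    nat_lit 235,nat_lit 236,nat_lit 239,nat_lit 241,nat_lit 246,nat_lit 248],[nat_lit 195,nat_lit 200,nat_lit 201,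
    nat_lit 206,nat_lit 220,nat_lit 225,nat_lit 226,nat_lit 228,nat_lit 230,nat_lit 232,nat_lit 240,nat_lit 242,
    nat_lit 243,nat_lit 247,nat_lit 249],[nat_lit 215],[nat_lit 204,nat_lit 207,nat_lit 216,nat_lit 217],[nat_lit 208,
    nat_lit 209,nat_lit 218],[],[],[]],[[nat_lit 250],[nat_lit 253,nat_lit 254,nat_lit 256],[],[],[nat_lit 264,
    nat_lit 266,nat_lit 268],[nat_lit 251,nat_lit 255,nat_lit 265,nat_lit 267],[nat_lit 259,nat_lit 261,nat_lit 262],
    [nat_lit 260],[nat_lit 252,nat_lit 257,nat_lit 258,nat_lit 263],[],[],[],[],[],[nat_lit 269],[nat_lit 270]],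
    [[nat_lit 271,nat_lit 275],[nat_lit 273,nat_lit 274,nat_lit 276,nat_lit 287],[],[],[nat_lit 288],[nat_lit 272,
    nat_lit 289],[nat_lit 284],[nat_lit 282,nat_lit 285],[nat_lit 279],[nat_lit 277,nat_lit 278,nat_lit 280,
    nat_lit 281,nat_lit 283,nat_lit 286],[],[],[],[],[nat_lit 290],[nat_lit 291]],[[],[nat_lit 293],[],[],
    [nat_lit 295],[nat_lit 296],[nat_lit 299,nat_lit 305],[nat_lit 300,nat_lit 306],[],[nat_lit 292,nat_lit 294,
    nat_lit 297,nat_lit 298,nat_lit 301,nat_lit 302,nat_lit 303,nat_lit 304,nat_lit 307],[],[],[],[],[],[]],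
    [[nat_lit 308,nat_lit 320],[nat_lit 321],[],[],[nat_lit 309],[nat_lit 310],[nat_lit 315],[nat_lit 316],
    [nat_lit 311,nat_lit 313,nat_lit 317],[nat_lit 312,nat_lit 314,nat_lit 318,nat_lit 319,nat_lit 322,nat_lit 323],
    [],[],[],[],[],[]],[[],[],[nat_lit 324],[nat_lit 325],[],[],[],[],[],[],[nat_lit 326],[nat_lit 327],[],[],[],[]],
    [[],[],[nat_lit 328],[nat_lit 329],[],[],[],[],[],[],[nat_lit 330],[nat_lit 331],[],[],[],[]]]
    [[[nat_lit 0x1000000000000000000000000000000000000000000000000000000000000000000000000000000000,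
    nat_lit 0x1000000000000000000000000000000000000000000000000000000000000000000000000000000000,
    nat_lit 0x1000000000000000000000000000000000000000000000000000000000000000000000000000000000,
    nat_lit 0x1000000000000000000000000000000000000000000000000000000000000000000000000000000000,
    nat_lit 0x1000000000000000000000000000000000000000000000000000000000000000000000000000000000,nat_lit 0,
    nat_lit 0x2000000000000000000000000000000000000000000000000000000000000000000000000000000000,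
    nat_lit 0x2000000000000000000000000000000000000000000000000000000000000000000000000000000000,
    nat_lit 0x2000000000000000000000000000000000000000000000000000000000000000000000000000000000],[nat_lit 0,
    nat_lit 0x4000000000000000000000000000000000000000000000000000000000000000000000000000000000,
    nat_lit 0x4000000000000000000000000000000000000000000000000000000000000000000000000000000000,
    nat_lit 0x4000000000000000000000000000000000000000000000000000000000000000000000000000000000,nat_lit 0,nat_lit 0,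
    nat_lit 0,nat_lit 0,nat_lit 0x8000000000000000000000000000000000000000000000000000000000000000000000000000000000],
    [nat_lit 0x8000000000000000000000000000000000000000000000000000000000000000000000000000000000,
    nat_lit 0x200000000000000,nat_lit 0x200000000000000,nat_lit 0x200000000000000,nat_lit 0x200000000000000,
    nat_lit 0x200000000000000,nat_lit 0x2000000000000,nat_lit 0,nat_lit 0],[nat_lit 0xc4000000000000,nat_lit 0,
    nat_lit 0,nat_lit 0,nat_lit 0,nat_lit 0x18000000000000,nat_lit 0x18000000000000,nat_lit 0x18000000000000,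
    nat_lit 0x18000000000000],[nat_lit 0x100000000000000,nat_lit 0,nat_lit 64,nat_lit 0,nat_lit 0,nat_lit 0x681,
    nat_lit 0x681,nat_lit 0x2000,nat_lit 0x2000],[nat_lit 0x2000,nat_lit 0x2c00c,nat_lit 16,nat_lit 0,nat_lit 0,
    nat_lit 0,nat_lit 0xa000000000000000000000,nat_lit 0xa000000000000000000000,nat_lit 0],[nat_lit 0,nat_lit 0,
    nat_lit 0x440040000000000000000000,nat_lit 0x2000000000000000000000000,nat_lit 0,nat_lit 0,nat_lit 0x800000000000,
    nat_lit 0x800000000000,nat_lit 0x800000000000],[nat_lit 0x60000000000,nat_lit 0x60000000000,nat_lit 0,nat_lit 0,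
    nat_lit 0,nat_lit 0,nat_lit 0,nat_lit 0,nat_lit 0],[nat_lit 0,nat_lit 0,nat_lit 0,nat_lit 0,
    nat_lit 0x400000000000,nat_lit 0,nat_lit 0,nat_lit 0,nat_lit 0]],[[nat_lit 0x200000000000000000000000000000,
    nat_lit 0x200000000000000000000000000000,nat_lit 0x200000000000000000000000000000,
    nat_lit 0x200000000000000000000000000000,nat_lit 0x200000000000000000000000000000,
    nat_lit 0x200000000000000000000000000000,nat_lit 0x40000000000000000000000000000000,
    nat_lit 0x40000000000000000000000000000000,nat_lit 0x40000000000000000000000000000000],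
    [nat_lit 0x4000000000000000000000000000000,nat_lit 0x4000000000000000000000000000000,
    nat_lit 0x4000000000000000000000000000000,nat_lit 0x4000000000000000000000000000000,
    nat_lit 0x100000000000000000000000000000000,nat_lit 0x100000000000000000000000000000000,nat_lit 0,
    nat_lit 0xc40000000000000000000000000000,nat_lit 0],[nat_lit 0,nat_lit 0,nat_lit 0x1208000000000000000,nat_lit 0,
    nat_lit 0,nat_lit 0x82000000000000000,nat_lit 0,nat_lit 0,nat_lit 0x10000000000000000000],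
    [nat_lit 0x10000000000000000000,nat_lit 0x10000000000000000000,nat_lit 0xe070000000000000000,nat_lit 0,nat_lit 0,
    nat_lit 0x904800000000000000,nat_lit 0x80420000000000000000000000000000000000000000000000000,
    nat_lit 0x14298a928302097c00000000000000000000000000000000000000000000000,
    nat_lit 0x14298a928302097c00000000000000000000000000000000000000000000000],
    [nat_lit 0x14298a928302097c00000000000000000000000000000000000000000000000,
    nat_lit 0x14298a928302097c00000000000000000000000000000000000000000000000,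
    nat_lit 0x40080400000000000000000000000000000000000000000000000000000,
    nat_lit 0x800000000000000000000000000000000000000000000000000000,
    nat_lit 0x800000000000000000000000000000000000000000000000000000,
    nat_lit 0x20400000000000000000000000000000000000000000000000000000000000,
    nat_lit 0x20400000000000000000000000000000000000000000000000000000000000,
    nat_lit 0x4030000000000000000000000000000000000000000000000000000,
    nat_lit 0x28d015610004308000000000000000000000000000000000000000000000000],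
    [nat_lit 0x28d015610004308000000000000000000000000000000000000000000000000,nat_lit 0,nat_lit 0,
    nat_lit 0x3009000000000000000000000000000000000000000000000000000,nat_lit 0,nat_lit 0,nat_lit 0,
    nat_lit 0x2000000000000000000000000000,nat_lit 0x2000000000000000000000000000],
    [nat_lit 0x2000000000000000000000000000,nat_lit 0x800000000000000000000000000,
    nat_lit 0x800000000000000000000000000,nat_lit 0x800000000000000000000000000,nat_lit 0,nat_lit 0,
    nat_lit 0x28000000000000000000000000000,nat_lit 0x28000000000000000000000000000,nat_lit 0],[nat_lit 0,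
    nat_lit 0x60000000000000000000000000,nat_lit 0x60000000000000000000000000,nat_lit 0x60000000000000000000000000,
    nat_lit 0x60000000000000000000000000,nat_lit 0x60000000000000000000000000,nat_lit 0x60000000000000000000000000,
    nat_lit 0x60000000000000000000000000,nat_lit 0x60000000000000000000000000],[nat_lit 0x60000000000000000000000000,
    nat_lit 0x60000000000000000000000000,nat_lit 0x60000000000000000000000000,nat_lit 0x60000000000000000000000000,
    nat_lit 0x60000000000000000000000000,nat_lit 0x60000000000000000000000000,nat_lit 0x60000000000000000000000000,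
    nat_lit 0x5018000000000000000000000000,nat_lit 0x5018000000000000000000000000]],
    [[nat_lit 0x5018000000000000000000000000,nat_lit 0x5018000000000000000000000000,
    nat_lit 0x5018000000000000000000000000,nat_lit 0x5018000000000000000000000000,
    nat_lit 0x5018000000000000000000000000,nat_lit 0x5018000000000000000000000000,
    nat_lit 0x5018000000000000000000000000,nat_lit 0x5018000000000000000000000000,
    nat_lit 0x5018000000000000000000000000],[nat_lit 0x5018000000000000000000000000,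
    nat_lit 0x5018000000000000000000000000,nat_lit 0x5018000000000000000000000000,
    nat_lit 0x5018000000000000000000000000,nat_lit 0x5018000000000000000000000000,
    nat_lit 0x5018000000000000000000000000,nat_lit 0x5018000000000000000000000000,
    nat_lit 0x5018000000000000000000000000,nat_lit 0x5018000000000000000000000000],
    [nat_lit 0x5018000000000000000000000000,nat_lit 0x5018000000000000000000000000,
    nat_lit 0x200000000000000000000000000,nat_lit 0x200000000000000000000000000,nat_lit 0x200000000000000000000000000,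
    nat_lit 0x200000000000000000000000000,nat_lit 0x10004000000000000000000000000,
    nat_lit 0x80000000000000000000000000,nat_lit 0x80000000000000000000000000],[nat_lit 0x80000000000000000000000000,
    nat_lit 0,nat_lit 0x8000000000000000000000000000000000000000000000000000000000000000000000000,
    nat_lit 0x8000000000000000000000000000000000000000000000000000000000000000000000000,
    nat_lit 0x8000000000000000000000000000000000000000000000000000000000000000000000000,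
    nat_lit 0x801600000000000000000000000000000000000000000000000000000000000000000000,
    nat_lit 0x801600000000000000000000000000000000000000000000000000000000000000000000,
    nat_lit 0x100000000000000000000000000000000000000000000000000000000000000000000000,
    nat_lit 0x100000000000000000000000000000000000000000000000000000000000000000000000],
    [nat_lit 0x100000000000000000000000000000000000000000000000000000000000000000000000,
    nat_lit 0x100000000000000000000000000000000000000000000000000000000000000000000000,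
    nat_lit 0x100000000000000000000000000000000000000000000000000000000000000000000000,
    nat_lit 0x100000000000000000000000000000000000000000000000000000000000000000000000,nat_lit 0,nat_lit 0,nat_lit 0,
    nat_lit 0,nat_lit 0],[nat_lit 0x8000000000000000000000000000000000000000000000000000000000000000000000,
    nat_lit 0x8000000000000000000000000000000000000000000000000000000000000000000000,
    nat_lit 0x2000100000000000000000000000000000000000000000000000000000000000000000000,nat_lit 0,nat_lit 0,nat_lit 0,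
    nat_lit 0,nat_lit 0x240000000000000000000000000000000000000000000000000000000000000000000000,
    nat_lit 0x240000000000000000000000000000000000000000000000000000000000000000000000],
    [nat_lit 0x240000000000000000000000000000000000000000000000000000000000000000000000,
    nat_lit 0x240000000000000000000000000000000000000000000000000000000000000000000000,
    nat_lit 0x240000000000000000000000000000000000000000000000000000000000000000000000,
    nat_lit 0x240000000000000000000000000000000000000000000000000000000000000000000000,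
    nat_lit 0x240000000000000000000000000000000000000000000000000000000000000000000000,
    nat_lit 0x240000000000000000000000000000000000000000000000000000000000000000000000,
    nat_lit 0x240000000000000000000000000000000000000000000000000000000000000000000000,
    nat_lit 0x240000000000000000000000000000000000000000000000000000000000000000000000,
    nat_lit 0x240000000000000000000000000000000000000000000000000000000000000000000000],
    [nat_lit 0x240000000000000000000000000000000000000000000000000000000000000000000000,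
    nat_lit 0x240000000000000000000000000000000000000000000000000000000000000000000000,
    nat_lit 0x240000000000000000000000000000000000000000000000000000000000000000000000,
    nat_lit 0x240000000000000000000000000000000000000000000000000000000000000000000000,
    nat_lit 0x4b6000000000000000000000000000000000000000000000000000000000000000000000,
    nat_lit 0x4b6000000000000000000000000000000000000000000000000000000000000000000000,
    nat_lit 0x4b6000000000000000000000000000000000000000000000000000000000000000000000,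
    nat_lit 0x4b6000000000000000000000000000000000000000000000000000000000000000000000,
    nat_lit 0x4b6000000000000000000000000000000000000000000000000000000000000000000000],
    [nat_lit 0x4b6000000000000000000000000000000000000000000000000000000000000000000000,
    nat_lit 0x4000000000000000000000000000000000000000000000000000000000000000000000000,
    nat_lit 0x4000000000000000000000000000000000000000000000000000000000000000000000000,
    nat_lit 0x4000000000000000000000000000000000000000000000000000000000000000000000000,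
    nat_lit 0x4000000000000000000000000000000000000000000000000000000000000000000000000,
    nat_lit 0x4000000000000000000000000000000000000000000000000000000000000000000000000,
    nat_lit 0x4000000000000000000000000000000000000000000000000000000000000000000000000,
    nat_lit 0x4000000000000000000000000000000000000000000000000000000000000000000000000,
    nat_lit 0x4000000000000000000000000000000000000000000000000000000000000000000000000]],
    [[nat_lit 0x4000000000000000000000000000000000000000000000000000000000000000000000000,nat_lit 0,nat_lit 0,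
    nat_lit 0,nat_lit 0,nat_lit 0,nat_lit 0,nat_lit 0x200002000000000000000000000000000000000000,
    nat_lit 0x200002000000000000000000000000000000000000],[nat_lit 0x200002000000000000000000000000000000000000,
    nat_lit 0x200002000000000000000000000000000000000000,nat_lit 0,nat_lit 0,
    nat_lit 0x80000000000000000000000000000000000000000000000,
    nat_lit 0x80000000000000000000000000000000000000000000000,nat_lit 0,
    nat_lit 0x259430008c80150000000000000000000000000000000000,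
    nat_lit 0x259430008c80150000000000000000000000000000000000],
    [nat_lit 0x80106000009000000000000000000000000000000000,nat_lit 0xc0000c020400000000000000000000000000000000,
    nat_lit 0xc0000c020400000000000000000000000000000000,nat_lit 0xc0000c020400000000000000000000000000000000,
    nat_lit 0xc0000c020400000000000000000000000000000000,nat_lit 0xc0000c020400000000000000000000000000000000,
    nat_lit 0xc0000c020400000000000000000000000000000000,nat_lit 0x104000000000000000000000000000000000000000000000,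
    nat_lit 0x100060000000000000000000000000000000000000000],[nat_lit 0xa090251400000000000000000000000000000000000,
    nat_lit 0,nat_lit 0,nat_lit 0,nat_lit 0,
    nat_lit 0x8000000000000000000000000000000000000000000000000000000000000000000000000000000,
    nat_lit 0x8000000000000000000000000000000000000000000000000000000000000000000000000000000,
    nat_lit 0x8000000000000000000000000000000000000000000000000000000000000000000000000000000,
    nat_lit 0x8000000000000000000000000000000000000000000000000000000000000000000000000000000],[nat_lit 0,nat_lit 0,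
    nat_lit 0,nat_lit 0x22800000000000000000000000000000000000000000000000000000000000000000000000000000,
    nat_lit 0x400000000000000000000000000000000000000000000000000000000000000000000000000000,
    nat_lit 0x400000000000000000000000000000000000000000000000000000000000000000000000000000,
    nat_lit 0x400000000000000000000000000000000000000000000000000000000000000000000000000000,
    nat_lit 0x10000000000000000000000000000000000000000000000000000000000000000000000000000000,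
    nat_lit 0x10000000000000000000000000000000000000000000000000000000000000000000000000000000],
    [nat_lit 0x10000000000000000000000000000000000000000000000000000000000000000000000000000000,
    nat_lit 0x10000000000000000000000000000000000000000000000000000000000000000000000000000000,
    nat_lit 0x100100000000000000000000000000000000000000000000000000000000000000000000000000000,nat_lit 0,nat_lit 0,
    nat_lit 0x40000000000000000000000000000000000000000000000000000000000000000000,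
    nat_lit 0x40000000000000000000000000000000000000000000000000000000000000000000,
    nat_lit 0x680000000000000000000000000000000000000000000000000000000000000000,nat_lit 0],
    [nat_lit 0x861000000000000000000000000000000000000000000000000000000000000000,
    nat_lit 0xa008800000000000000000000000000000000000000000000000000000000000000,nat_lit 0,nat_lit 0,nat_lit 0,
    nat_lit 0,nat_lit 0,nat_lit 0,nat_lit 0x100000000000000000000000000000000000000000000000000000000000000000],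
    [nat_lit 0x100000000000000000000000000000000000000000000000000000000000000000,
    nat_lit 0x100000000000000000000000000000000000000000000000000000000000000000,
    nat_lit 0x10000000000000000000000000000000000000000000000000000000000000000000000000000000000,nat_lit 0,
    nat_lit 0x20000000000000000000000000000000000000000000000000000000000000000000000000000000000,nat_lit 0,nat_lit 0,
    nat_lit 0,nat_lit 0],
    [nat_lit 0x40000000000000000000000000000000000000000000000000000000000000000000000000000000000,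
    nat_lit 0x40000000000000000000000000000000000000000000000000000000000000000000000000000000000,
    nat_lit 0x40000000000000000000000000000000000000000000000000000000000000000000000000000000000,
    nat_lit 0x40000000000000000000000000000000000000000000000000000000000000000000000000000000000,
    nat_lit 0x40000000000000000000000000000000000000000000000000000000000000000000000000000000000,
    nat_lit 0x40000000000000000000000000000000000000000000000000000000000000000000000000000000000,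
    nat_lit 0x40000000000000000000000000000000000000000000000000000000000000000000000000000000000,
    nat_lit 0x40000000000000000000000000000000000000000000000000000000000000000000000000000000000,
    nat_lit 0x40000000000000000000000000000000000000000000000000000000000000000000000000000000000]],
    [[nat_lit 0x80000000000000000000000000000000000000000000000000000000000000000000000000,
    nat_lit 0x20000000000000000000000000000000000000000000000000000000000000000000000000,nat_lit 0,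
    nat_lit 0x9e650000000000000000000000000000000000000000000000000000000000000000000000000,nat_lit 0x481000000,
    nat_lit 0x1240600000,nat_lit 0x10800000,nat_lit 0x2120000000]]]
    [[[[nat_lit 0x1000000000000000000000000000000000000000000000000000000000000000000000000000000000,
    nat_lit 0x1000000000000000000000000000000000000000000000000000000000000000000000000000000000,nat_lit 0,nat_lit 0,
    nat_lit 0x1000000000000000000000000000000000000000000000000000000000000000000000000000000000,nat_lit 0,nat_lit 0,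
    nat_lit 0,nat_lit 0],[nat_lit 0,nat_lit 0,nat_lit 0,nat_lit 0,nat_lit 0,nat_lit 0,nat_lit 0,nat_lit 0,
    nat_lit 0x8000000000000000000000000000000000000000000000000000000000000000000000000000000000],
    [nat_lit 0x8000000000000000000000000000000000000000000000000000000000000000000000000000000000,
    nat_lit 0x200000000000000,nat_lit 0x200000000000000,nat_lit 0,nat_lit 0x200000000000000,nat_lit 0,nat_lit 0,
    nat_lit 0,nat_lit 0],[nat_lit 0x80000000000000,nat_lit 0,nat_lit 0,nat_lit 0,nat_lit 0,nat_lit 0,nat_lit 0,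
    nat_lit 0x8000000000000,nat_lit 0x8000000000000],[nat_lit 0x100000000000000,nat_lit 0,nat_lit 0,nat_lit 0,
    nat_lit 0,nat_lit 0,nat_lit 640,nat_lit 0x2000,nat_lit 0],[nat_lit 0,nat_lit 0xc004,nat_lit 16,nat_lit 0,
    nat_lit 0,nat_lit 0,nat_lit 0xa000000000000000000000,nat_lit 0xa000000000000000000000,nat_lit 0],[nat_lit 0,
    nat_lit 0,nat_lit 0x40000000000000000000000,nat_lit 0x2000000000000000000000000,nat_lit 0,nat_lit 0,nat_lit 0,
    nat_lit 0,nat_lit 0x800000000000],[nat_lit 0x60000000000,nat_lit 0x60000000000,nat_lit 0,nat_lit 0,nat_lit 0,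
    nat_lit 0,nat_lit 0,nat_lit 0,nat_lit 0],[nat_lit 0,nat_lit 0,nat_lit 0,nat_lit 0,nat_lit 0x400000000000,
    nat_lit 0,nat_lit 0,nat_lit 0,nat_lit 0]],[[nat_lit 0,nat_lit 0x200000000000000000000000000000,
    nat_lit 0x200000000000000000000000000000,nat_lit 0x200000000000000000000000000000,
    nat_lit 0x200000000000000000000000000000,nat_lit 0x200000000000000000000000000000,
    nat_lit 0x40000000000000000000000000000000,nat_lit 0x40000000000000000000000000000000,
    nat_lit 0x40000000000000000000000000000000],[nat_lit 0x4000000000000000000000000000000,nat_lit 0,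
    nat_lit 0x4000000000000000000000000000000,nat_lit 0x4000000000000000000000000000000,nat_lit 0,nat_lit 0,nat_lit 0,
    nat_lit 0xc40000000000000000000000000000,nat_lit 0],[nat_lit 0,nat_lit 0,nat_lit 0x1208000000000000000,nat_lit 0,
    nat_lit 0,nat_lit 0,nat_lit 0,nat_lit 0,nat_lit 0x10000000000000000000],[nat_lit 0x10000000000000000000,
    nat_lit 0x10000000000000000000,nat_lit 0xe030000000000000000,nat_lit 0,nat_lit 0,nat_lit 0x904000000000000000,
    nat_lit 0,nat_lit 0,nat_lit 0],[nat_lit 0x40808920202096400000000000000000000000000000000000000000000000,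
    nat_lit 0x40808920202086400000000000000000000000000000000000000000000000,
    nat_lit 0x400000000000000000000000000000000000000000000000000000,nat_lit 0,nat_lit 0,nat_lit 0,nat_lit 0,
    nat_lit 0x4000000000000000000000000000000000000000000000000000000,
    nat_lit 0x81011200000008000000000000000000000000000000000000000000000000],
    [nat_lit 0x28d011600000008000000000000000000000000000000000000000000000000,nat_lit 0,nat_lit 0,
    nat_lit 0x9000000000000000000000000000000000000000000000000000,nat_lit 0,nat_lit 0,nat_lit 0,nat_lit 0,nat_lit 0],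
    [nat_lit 0,nat_lit 0x800000000000000000000000000,nat_lit 0,nat_lit 0,nat_lit 0,nat_lit 0,nat_lit 0,nat_lit 0,
    nat_lit 0],[nat_lit 0,nat_lit 0x60000000000000000000000000,nat_lit 0x60000000000000000000000000,nat_lit 0,
    nat_lit 0x20000000000000000000000000,nat_lit 0x20000000000000000000000000,nat_lit 0x20000000000000000000000000,
    nat_lit 0x20000000000000000000000000,nat_lit 0x60000000000000000000000000],[nat_lit 0x60000000000000000000000000,
    nat_lit 0x60000000000000000000000000,nat_lit 0x60000000000000000000000000,nat_lit 0,nat_lit 0,nat_lit 0,nat_lit 0,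
    nat_lit 0,nat_lit 0]],[[nat_lit 0,nat_lit 0,nat_lit 0x4000000000000000000000000000,
    nat_lit 0x5000000000000000000000000000,nat_lit 0x5000000000000000000000000000,nat_lit 0,nat_lit 0,nat_lit 0,
    nat_lit 0x5000000000000000000000000000],[nat_lit 0x5000000000000000000000000000,
    nat_lit 0x5000000000000000000000000000,nat_lit 0x5000000000000000000000000000,
    nat_lit 0x5000000000000000000000000000,nat_lit 0x5000000000000000000000000000,
    nat_lit 0x5000000000000000000000000000,nat_lit 0x5000000000000000000000000000,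
    nat_lit 0x5000000000000000000000000000,nat_lit 0x5000000000000000000000000000],[nat_lit 0,nat_lit 0,
    nat_lit 0x200000000000000000000000000,nat_lit 0,nat_lit 0,nat_lit 0x200000000000000000000000000,nat_lit 0,
    nat_lit 0,nat_lit 0],[nat_lit 0x80000000000000000000000000,nat_lit 0,nat_lit 0,nat_lit 0,nat_lit 0,
    nat_lit 0x1400000000000000000000000000000000000000000000000000000000000000000000,
    nat_lit 0x1400000000000000000000000000000000000000000000000000000000000000000000,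
    nat_lit 0x100000000000000000000000000000000000000000000000000000000000000000000000,nat_lit 0],[nat_lit 0,
    nat_lit 0,nat_lit 0,nat_lit 0,nat_lit 0,nat_lit 0,nat_lit 0,nat_lit 0,nat_lit 0],[nat_lit 0,nat_lit 0,nat_lit 0,
    nat_lit 0,nat_lit 0,nat_lit 0,nat_lit 0,nat_lit 0,
    nat_lit 0x200000000000000000000000000000000000000000000000000000000000000000000000],
    [nat_lit 0x200000000000000000000000000000000000000000000000000000000000000000000000,nat_lit 0,
    nat_lit 0x200000000000000000000000000000000000000000000000000000000000000000000000,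
    nat_lit 0x200000000000000000000000000000000000000000000000000000000000000000000000,
    nat_lit 0x200000000000000000000000000000000000000000000000000000000000000000000000,
    nat_lit 0x200000000000000000000000000000000000000000000000000000000000000000000000,
    nat_lit 0x200000000000000000000000000000000000000000000000000000000000000000000000,
    nat_lit 0x200000000000000000000000000000000000000000000000000000000000000000000000,
    nat_lit 0x200000000000000000000000000000000000000000000000000000000000000000000000],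
    [nat_lit 0x200000000000000000000000000000000000000000000000000000000000000000000000,
    nat_lit 0x200000000000000000000000000000000000000000000000000000000000000000000000,nat_lit 0,nat_lit 0,
    nat_lit 0x412000000000000000000000000000000000000000000000000000000000000000000000,
    nat_lit 0x412000000000000000000000000000000000000000000000000000000000000000000000,nat_lit 0,nat_lit 0,
    nat_lit 0x436000000000000000000000000000000000000000000000000000000000000000000000],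
    [nat_lit 0x412000000000000000000000000000000000000000000000000000000000000000000000,nat_lit 0,
    nat_lit 0x4000000000000000000000000000000000000000000000000000000000000000000000000,
    nat_lit 0x4000000000000000000000000000000000000000000000000000000000000000000000000,
    nat_lit 0x4000000000000000000000000000000000000000000000000000000000000000000000000,nat_lit 0,nat_lit 0,nat_lit 0,
    nat_lit 0]],[[nat_lit 0x4000000000000000000000000000000000000000000000000000000000000000000000000,nat_lit 0,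
    nat_lit 0,nat_lit 0,nat_lit 0,nat_lit 0,nat_lit 0,nat_lit 0x200002000000000000000000000000000000000000,
    nat_lit 0x200002000000000000000000000000000000000000],[nat_lit 0,nat_lit 0,nat_lit 0,nat_lit 0,nat_lit 0,
    nat_lit 0,nat_lit 0,nat_lit 0x251420008880140000000000000000000000000000000000,nat_lit 0],
    [nat_lit 0x100000000000000000000000000000000000000000,nat_lit 0,
    nat_lit 0x800008020400000000000000000000000000000000,nat_lit 0x400000000000000000000000000000000,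
    nat_lit 0x400000000000000000000000000000000,nat_lit 0x800008020400000000000000000000000000000000,
    nat_lit 0x800008020400000000000000000000000000000000,nat_lit 0,nat_lit 0],
    [nat_lit 0x10011400000000000000000000000000000000000,nat_lit 0,nat_lit 0,nat_lit 0,nat_lit 0,nat_lit 0,nat_lit 0,
    nat_lit 0,nat_lit 0],[nat_lit 0,nat_lit 0,nat_lit 0,nat_lit 0,
    nat_lit 0x400000000000000000000000000000000000000000000000000000000000000000000000000000,
    nat_lit 0x400000000000000000000000000000000000000000000000000000000000000000000000000000,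
    nat_lit 0x400000000000000000000000000000000000000000000000000000000000000000000000000000,nat_lit 0,nat_lit 0],
    [nat_lit 0,nat_lit 0,nat_lit 0x100000000000000000000000000000000000000000000000000000000000000000000000000000,
    nat_lit 0,nat_lit 0,nat_lit 0x40000000000000000000000000000000000000000000000000000000000000000000,nat_lit 0,
    nat_lit 0x680000000000000000000000000000000000000000000000000000000000000000,nat_lit 0],[nat_lit 0,nat_lit 0,
    nat_lit 0,nat_lit 0,nat_lit 0,nat_lit 0,nat_lit 0,nat_lit 0,nat_lit 0],[nat_lit 0,nat_lit 0,nat_lit 0,nat_lit 0,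
    nat_lit 0x20000000000000000000000000000000000000000000000000000000000000000000000000000000000,nat_lit 0,nat_lit 0,
    nat_lit 0,nat_lit 0],[nat_lit 0,nat_lit 0,
    nat_lit 0x40000000000000000000000000000000000000000000000000000000000000000000000000000000000,
    nat_lit 0x40000000000000000000000000000000000000000000000000000000000000000000000000000000000,
    nat_lit 0x40000000000000000000000000000000000000000000000000000000000000000000000000000000000,
    nat_lit 0x40000000000000000000000000000000000000000000000000000000000000000000000000000000000,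
    nat_lit 0x40000000000000000000000000000000000000000000000000000000000000000000000000000000000,
    nat_lit 0x40000000000000000000000000000000000000000000000000000000000000000000000000000000000,
    nat_lit 0x40000000000000000000000000000000000000000000000000000000000000000000000000000000000]],
    [[nat_lit 0x80000000000000000000000000000000000000000000000000000000000000000000000000,nat_lit 0,nat_lit 0,
    nat_lit 0x9e050000000000000000000000000000000000000000000000000000000000000000000000000,nat_lit 0,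
    nat_lit 0x1240000000,nat_lit 0x10800000,nat_lit 0]]]]
    (nat_lit 1) (nat_lit 1) (nat_lit 9)
    [[nat_lit 2,nat_lit 3,nat_lit 4,nat_lit 258,nat_lit 17,nat_lit 257,nat_lit 0x1001,nat_lit 0x10001,nat_lit 0x20001,
    nat_lit 0x100001,nat_lit 0x101001,nat_lit 0x1000001,nat_lit 0x2000001,nat_lit 0x10000001],[nat_lit 32,nat_lit 272,
    nat_lit 528,nat_lit 0x1110,nat_lit 0x10110,nat_lit 0x100110,nat_lit 0x1010,nat_lit 0x11010,nat_lit 0x101010,
    nat_lit 0x10001010,nat_lit 0x10010,nat_lit 0x20010,nat_lit 0x30010,nat_lit 0x110010,nat_lit 0x1010010,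
    nat_lit 0x10010010,nat_lit 0x100010,nat_lit 0x1000010],[nat_lit 512,nat_lit 768,nat_lit 0x1200,nat_lit 0x10200,
    nat_lit 0x20200,nat_lit 0x100200,nat_lit 0x101200,nat_lit 0x1100,nat_lit 0x2100,nat_lit 0x11100,nat_lit 0x21100,
    nat_lit 0x101100,nat_lit 0x111100,nat_lit 0x10001100,nat_lit 0x10100,nat_lit 0x20100,nat_lit 0x30100,
    nat_lit 0x110100,nat_lit 0x100100,nat_lit 0x200100,nat_lit 0x1010100,nat_lit 0x1020100,nat_lit 0x1100100,
    nat_lit 0x2010100,nat_lit 0x10000100,nat_lit 0x10010100,nat_lit 0x10100100],[nat_lit 0x2000,nat_lit 0x10002000,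
    nat_lit 0x11000,nat_lit 0x21000,nat_lit 0x31000,nat_lit 0x111000,nat_lit 0x101000,nat_lit 0x121000,
    nat_lit 0x201000,nat_lit 0x1101000,nat_lit 0x10101000,nat_lit 0x1001000,nat_lit 0x10001000,nat_lit 0x10011000,
    nat_lit 0x10021000],[nat_lit 0x20000,nat_lit 0x30000,nat_lit 0x40000,nat_lit 0x50000,nat_lit 0x130000,
    nat_lit 0x1030000,nat_lit 0x120000,nat_lit 0x1020000,nat_lit 0x2020000,nat_lit 0x10020000,nat_lit 0x110000,
    nat_lit 0x210000,nat_lit 0x1110000,nat_lit 0x10110000,nat_lit 0x1010000,nat_lit 0x2010000,nat_lit 0x3010000,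
    nat_lit 0x10010000],[nat_lit 0x200000,nat_lit 0x1100000],[nat_lit 0x2000000,nat_lit 0x3000000,nat_lit 0x4000000,
    nat_lit 0x11000000],[]]
    [.c (nat_lit 1) (nat_lit 2),.c (nat_lit 4) (nat_lit 0xc0080002),.c (nat_lit 3) (nat_lit 0x4240000006),
    .c (nat_lit 3) (nat_lit 0x2140000006),.c (nat_lit 0) (nat_lit 0x80002003),.c (nat_lit 4) (nat_lit 0x30c0180006),
    .c (nat_lit 0) (nat_lit 0x10018a00d),.c (nat_lit 0) (nat_lit 0x14500d1c730d),
    .c (nat_lit 1) (nat_lit 0x10418c18c346),.c (nat_lit 0) (nat_lit 0x82000003),.c (nat_lit 0) (nat_lit 0x84080005),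
    .c (nat_lit 0) (nat_lit 0x80100000007),.c (nat_lit 4) (nat_lit 0x100080180007),
    .c (nat_lit 3) (nat_lit 0x40c0000006),.c (nat_lit 2) (nat_lit 2),.c (nat_lit 0) (nat_lit 0x2000004007),
    .c (nat_lit 0) (nat_lit 0x5000009006),.c (nat_lit 0) (nat_lit 0x50001cf00c),
    .c (nat_lit 0) (nat_lit 0x14014d1c330d),.c (nat_lit 3) (nat_lit 0x2002002003),.c (nat_lit 0) (nat_lit 0x82005),
    .c (nat_lit 0) (nat_lit 0xc30c7003187),.r (nat_lit 0xdbe) (nat_lit 8) [nat_lit 0x2080000000003,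
    nat_lit 0x820800c1],.c (nat_lit 0) (nat_lit 0xc7004),.c (nat_lit 0) (nat_lit 0x14514d1cb30d),
    .c (nat_lit 0) (nat_lit 0x14514d1cb307),.c (nat_lit 0) (nat_lit 0x14514d1cb305),
    .r (nat_lit 0xdb7) (nat_lit 8) [nat_lit 0x2080000000003,nat_lit 129],
    .r (nat_lit 0xdbe) (nat_lit 8) [nat_lit 0x2080000000003,nat_lit 0xc31c00061c3],
    .c (nat_lit 0) (nat_lit 0x10410c18334c),.c (nat_lit 2) (nat_lit 0x3002002),
    .r (nat_lit 0xdb2) (nat_lit 10) [nat_lit 0x800c0081,nat_lit 0x82000180003],.c (nat_lit 3) (nat_lit 2),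
    .c (nat_lit 2) (nat_lit 0x2000004003),.r (nat_lit 0xdb7) (nat_lit 8) [nat_lit 0x2080000000003,
    nat_lit 0x30830000061c3],.r (nat_lit 0xdbe) (nat_lit 8) [nat_lit 0x2080000000003,nat_lit 0x20c2186187183],
    .r (nat_lit 0xdb2) (nat_lit 10) [nat_lit 0x30051c734c1c3,nat_lit 0x82000180003],
    .c (nat_lit 0) (nat_lit 0x3005000004),.c (nat_lit 0) (nat_lit 0x3009140008),
    .r (nat_lit 0xdbb) (nat_lit 14) [nat_lit 129,nat_lit 0x80000001],
    .r (nat_lit 0xdb2) (nat_lit 10) [nat_lit 0x20801860001c3,nat_lit 0x82000180003],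
    .c (nat_lit 3) (nat_lit 0x840860061c6),.r (nat_lit 0xdbe) (nat_lit 8) [nat_lit 0x2080000000003,
    nat_lit 0x408430630d183],.c (nat_lit 0) (nat_lit 0x3009140008),.c (nat_lit 0) (nat_lit 0x10210000c34c),
    .r (nat_lit 0x7bb) (nat_lit 10) [nat_lit 0x31431c61c6183,nat_lit 0x2000081,nat_lit 0x2080001,
    nat_lit 0x8200d0001c3,nat_lit 0x3000001,nat_lit 0x20800070001c3],.c (nat_lit 0) (nat_lit 0x14014d1c330d),
    .c (nat_lit 4) (nat_lit 0x10210c30c346),.r (nat_lit 0xdbb) (nat_lit 14) [nat_lit 0x2082184187081,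
    nat_lit 0x80000001],.c (nat_lit 0) (nat_lit 0x242240359619),.c (nat_lit 0) (nat_lit 0x2004000005),
    .c (nat_lit 3) (nat_lit 0x2004000003),.c (nat_lit 0) (nat_lit 0x2218318658),
    .c (nat_lit 0) (nat_lit 0x10621831864c),.c (nat_lit 4) (nat_lit 0x82006180007),
    .c (nat_lit 0) (nat_lit 0x247218318658),.r (nat_lit 0xdb2) (nat_lit 10) [nat_lit 0x20801800001c3,
    nat_lit 0x82000180003],.r (nat_lit 0xdb7) (nat_lit 8) [nat_lit 0x2080000000003,nat_lit 0x50c51c71cc1c3],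
    .c (nat_lit 0) (nat_lit 0x3000002),.c (nat_lit 4) (nat_lit 2),.c (nat_lit 2) (nat_lit 0x84003),
    .c (nat_lit 1) (nat_lit 0x821860061c6),.c (nat_lit 0) (nat_lit 0x2492591cf60d),
    .c (nat_lit 4) (nat_lit 0x820861061c2),.c (nat_lit 0) (nat_lit 0xc30c0087187),.c (nat_lit 0) (nat_lit 0x2080003),
    .c (nat_lit 0) (nat_lit 0x1451470cd307),.r (nat_lit 0xdbe) (nat_lit 8) [nat_lit 0x2080000000003,
    nat_lit 0x1020000c1],.r (nat_lit 0xdbb) (nat_lit 14) [nat_lit 0x20801860001c3,nat_lit 0x80000001],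
    .c (nat_lit 0) (nat_lit 0x3000002),.c (nat_lit 0) (nat_lit 0x80000100007),
    .r (nat_lit 0xdbe) (nat_lit 8) [nat_lit 0x2080000000003,nat_lit 129],
    .r (nat_lit 0xdb2) (nat_lit 10) [nat_lit 0xc30001c61c3,nat_lit 0x82000180003],
    .r (nat_lit 0xdb7) (nat_lit 8) [nat_lit 0x2080000000003,nat_lit 0x30c31431460c1],.c (nat_lit 5) (nat_lit 2),
    .c (nat_lit 0) (nat_lit 0x14514d1cb305),.c (nat_lit 1) (nat_lit 0x208318318646),
    .c (nat_lit 0) (nat_lit 0x55557d7f3f0d),.c (nat_lit 0) (nat_lit 0x14514b1cd303),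
    .c (nat_lit 0) (nat_lit 0x1c9259359607),.c (nat_lit 0) (nat_lit 0x14514b1cd303),
    .c (nat_lit 0) (nat_lit 0x1c9259359607),.c (nat_lit 4) (nat_lit 0x514d00d307),
    .c (nat_lit 3) (nat_lit 0x10810c18c346),.c (nat_lit 0) (nat_lit 0x14514b1cd303),
    .r (nat_lit 0xdb7) (nat_lit 8) [nat_lit 0x2080000000003,nat_lit 0xc0080081],
    .r (nat_lit 0xdbe) (nat_lit 8) [nat_lit 0x2080000000003,nat_lit 0xc30001c61c3],.c (nat_lit 0) (nat_lit 0x3000002),
    .c (nat_lit 0) (nat_lit 0x1c9259359607),.r (nat_lit 0xdbb) (nat_lit 14) [nat_lit 0x20031c01c61c3,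
    nat_lit 0x80000001],.c (nat_lit 0) (nat_lit 0x24410c1a234c),
    .r (nat_lit 0xdbb) (nat_lit 14) [nat_lit 0x2102186187183,nat_lit 0x80000001],.c (nat_lit 6) (nat_lit 2),
    .r (nat_lit 0xdb2) (nat_lit 10) [nat_lit 129,nat_lit 0x82000180003],.c (nat_lit 7) (nat_lit 2),
    .c (nat_lit 4) (nat_lit 0x80000100003),.c (nat_lit 0) (nat_lit 0x240000010006),
    .c (nat_lit 0) (nat_lit 0xc0000000004)]]

/-- nodes -/
noncomputable def rD8k_8_1 : List RJ :=
  [.s (nat_lit 13) (nat_lit 0x780) (nat_lit 3) (nat_lit 0x2df000002df000003c9000003c9000003d7000003d70000036f0000036f0000030300000303000002f1000002f100000303000003030000039300000393) (nat_lit 0xf8000000f80000000e0000000e00000000000000000000006800000068000000d4000000d4000000e6000000e6000000d4000000d40000004400000044)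
    (nat_lit 0x1a78afc5122891db923c4a622f0f3882c3f21f9117879c5362771b98d3c5a22d116f8edc4ee2771058afc3f21f915f882c5c629b1688a245c622f1e48f2455a36117a8bd45c62e317a8bd443a2d11688a247762e31e48f2481a4c117a8bd460e30717a8bd43aa3851db923c7923c913b8f5c6de36f16f895c5e22f11818b7c7b639316f8edc7923c91eb89dc69636f1818c0c5e22f11818c0c7b639313b88bc9823611b78dbc60e30714d8afc51228914d8a6c4a632b13b894c81a2ad1a58dbc60e30714d8a6c51228914d8a6c65630715f882c5ea2f5181895c5362bf11788bc43a21d12988bc5c62bf105879c5ea2f51818b7c53629b11788bc43a21d11788bc57e2bf0fc87e460e2e31788bc451228910e887441620b10e88745a22ad0fc87e460e2e31788bc451228910e887441620b10e88745a22ad105879c5ea2f51818b7c53629b11788bc43a21d11788bc57e2bf15f88bc5ea2f51818c0c53629b117894c43a21d11788bc5c62bf14d89dc70a2d11c98e4c60e32b15f8afc55a2ad15f8afc65634f1718a6c3aa21d1ed8f6c65625315f8b8c5a22d11718afc4ee32b)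
    (nat_lit 0x1a79e00f007803c01e00f007803c01e00f007803c01e00f0078015f8d3cf007803c01e00f007803c01e00f007803c01e00f007801448b445c67803c01e00f007803c01e00f007803c01e00f007801448b4445e2e33c01e00f007803c01e00f007803c01e00f007801db8b7c7923c913b9e00f007803c01e00f007803c01e00f007802478edc7923c91eb89dcf007803c01e00f007803c01e00f0078012989dc55a40d1b78d2c60e7803c01e00f007803c01e00f0078011789dc6c24c11b78dbc60e3073c01e00f007803c01e00f007800f3882c5ea2f516f8c0c53629b1179e00f007803c01e00f007801058afc5ea2f512b8c0c57e29b11788bcf007803c01e00f007800fc87e45c63071788bc451228910e88744167803c01e00f007800fc87e45c63071788bc451228910e887441620b3c01e00f007801178afc5ea2f51818c0c53629b12988bc43a21d1179e00f007800f3882c5ea2f516f8c0c53629b11788bc43a21d11788bcf0078014d8b8c43a1d51ed8f6c4a632b1718afc5a22d115f8b8c65678013b8a6c5a23851c98e4c65630715f8afc55a2ad15f8afc69e32b)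
    (nat_lit 4) (nat_lit 83)
    [[nat_lit 0,nat_lit 0,nat_lit 6],[nat_lit 0,nat_lit 2,nat_lit 14],[nat_lit 0,nat_lit 2,nat_lit 15],[nat_lit 0,
    nat_lit 3,nat_lit 14],[nat_lit 0,nat_lit 3,nat_lit 15],[nat_lit 0,nat_lit 6,nat_lit 0],[nat_lit 0,nat_lit 6,
    nat_lit 5,nat_lit 3],[nat_lit 0,nat_lit 6,nat_lit 14],[nat_lit 0,nat_lit 6,nat_lit 15],[nat_lit 0,nat_lit 7,
    nat_lit 14],[nat_lit 0,nat_lit 10],[nat_lit 0,nat_lit 11],[nat_lit 0,nat_lit 12,nat_lit 4],[nat_lit 0,nat_lit 12,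
    nat_lit 5],[nat_lit 0,nat_lit 13,nat_lit 4],[nat_lit 0,nat_lit 13,nat_lit 5],[nat_lit 0,nat_lit 14,nat_lit 2],
    [nat_lit 0,nat_lit 14,nat_lit 7],[nat_lit 1,nat_lit 1,nat_lit 7],[nat_lit 1,nat_lit 2,nat_lit 4,nat_lit 7],
    [nat_lit 1,nat_lit 3,nat_lit 15],[nat_lit 1,nat_lit 4,nat_lit 12],[nat_lit 1,nat_lit 4,nat_lit 13],[nat_lit 1,
    nat_lit 5,nat_lit 12],[nat_lit 1,nat_lit 5,nat_lit 13],[nat_lit 1,nat_lit 6,nat_lit 15],[nat_lit 1,nat_lit 7,
    nat_lit 1],[nat_lit 1,nat_lit 10],[nat_lit 1,nat_lit 11],[nat_lit 1,nat_lit 14,nat_lit 2],[nat_lit 1,nat_lit 14,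
    nat_lit 3],[nat_lit 1,nat_lit 14,nat_lit 7],[nat_lit 1,nat_lit 15,nat_lit 2],[nat_lit 1,nat_lit 15,nat_lit 3],
    [nat_lit 1,nat_lit 15,nat_lit 6],[nat_lit 1,nat_lit 15,nat_lit 7],[nat_lit 2,nat_lit 2,nat_lit 8],[nat_lit 2,
    nat_lit 2,nat_lit 9],[nat_lit 2,nat_lit 3,nat_lit 8],[nat_lit 2,nat_lit 3,nat_lit 9],[nat_lit 2,nat_lit 4,
    nat_lit 5,nat_lit 12],[nat_lit 2,nat_lit 4,nat_lit 10],[nat_lit 2,nat_lit 4,nat_lit 11],[nat_lit 2,nat_lit 4,
    nat_lit 15,nat_lit 3],[nat_lit 2,nat_lit 5,nat_lit 10],[nat_lit 2,nat_lit 5,nat_lit 11],[nat_lit 2,nat_lit 5,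
    nat_lit 15,nat_lit 6],[nat_lit 2,nat_lit 7,nat_lit 8],[nat_lit 2,nat_lit 7,nat_lit 9],[nat_lit 2,nat_lit 7,
    nat_lit 15,nat_lit 4],[nat_lit 2,nat_lit 8,nat_lit 2],[nat_lit 2,nat_lit 8,nat_lit 3],[nat_lit 2,nat_lit 8,
    nat_lit 6],[nat_lit 2,nat_lit 8,nat_lit 7],[nat_lit 2,nat_lit 9,nat_lit 2],[nat_lit 2,nat_lit 9,nat_lit 3],
    [nat_lit 2,nat_lit 9,nat_lit 7],[nat_lit 2,nat_lit 10,nat_lit 5],[nat_lit 2,nat_lit 11,nat_lit 4],[nat_lit 2,
    nat_lit 14,nat_lit 3,nat_lit 4],[nat_lit 2,nat_lit 14,nat_lit 3,nat_lit 5],[nat_lit 2,nat_lit 14,nat_lit 5,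
    nat_lit 3],[nat_lit 2,nat_lit 14,nat_lit 5,nat_lit 7],[nat_lit 2,nat_lit 14,nat_lit 7,nat_lit 5],[nat_lit 2,
    nat_lit 15,nat_lit 3,nat_lit 4],[nat_lit 2,nat_lit 15,nat_lit 3,nat_lit 5],[nat_lit 2,nat_lit 15,nat_lit 4,
    nat_lit 6],[nat_lit 3,nat_lit 3,nat_lit 8],[nat_lit 3,nat_lit 3,nat_lit 9],[nat_lit 3,nat_lit 4,nat_lit 6,
    nat_lit 15],[nat_lit 3,nat_lit 4,nat_lit 11],[nat_lit 3,nat_lit 5,nat_lit 10],[nat_lit 3,nat_lit 5,nat_lit 14,
    nat_lit 6],[nat_lit 3,nat_lit 6,nat_lit 4,nat_lit 15],[nat_lit 3,nat_lit 6,nat_lit 8],[nat_lit 3,nat_lit 6,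
    nat_lit 9],[nat_lit 3,nat_lit 7,nat_lit 5,nat_lit 14],[nat_lit 3,nat_lit 7,nat_lit 9],[nat_lit 3,nat_lit 7,
    nat_lit 14,nat_lit 4],[nat_lit 3,nat_lit 8,nat_lit 3],[nat_lit 3,nat_lit 8,nat_lit 6],[nat_lit 3,nat_lit 9,
    nat_lit 3],[nat_lit 3,nat_lit 9,nat_lit 6],[nat_lit 3,nat_lit 10,nat_lit 4],[nat_lit 3,nat_lit 10,nat_lit 5],
    [nat_lit 3,nat_lit 11,nat_lit 4],[nat_lit 3,nat_lit 11,nat_lit 5],[nat_lit 3,nat_lit 13,nat_lit 4,nat_lit 5],
    [nat_lit 4,nat_lit 6,nat_lit 10],[nat_lit 4,nat_lit 6,nat_lit 11],[nat_lit 4,nat_lit 7,nat_lit 10],[nat_lit 4,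
    nat_lit 7,nat_lit 11],[nat_lit 4,nat_lit 11,nat_lit 6],[nat_lit 4,nat_lit 11,nat_lit 7],[nat_lit 4,nat_lit 12,
    nat_lit 14],[nat_lit 4,nat_lit 15,nat_lit 6,nat_lit 7],[nat_lit 4,nat_lit 15,nat_lit 13],[nat_lit 5,nat_lit 6,
    nat_lit 7,nat_lit 14],[nat_lit 5,nat_lit 6,nat_lit 10],[nat_lit 5,nat_lit 7,nat_lit 10],[nat_lit 5,nat_lit 10,
    nat_lit 6],[nat_lit 5,nat_lit 10,nat_lit 7],[nat_lit 5,nat_lit 11,nat_lit 6],[nat_lit 5,nat_lit 11,nat_lit 7],
    [nat_lit 5,nat_lit 12,nat_lit 14],[nat_lit 5,nat_lit 15,nat_lit 13],[nat_lit 6,nat_lit 6,nat_lit 8],[nat_lit 6,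
    nat_lit 8,nat_lit 6],[nat_lit 6,nat_lit 8,nat_lit 7],[nat_lit 6,nat_lit 9,nat_lit 7],[nat_lit 6,nat_lit 14,
    nat_lit 15],[nat_lit 6,nat_lit 15,nat_lit 15],[nat_lit 7,nat_lit 7,nat_lit 9],[nat_lit 7,nat_lit 9,nat_lit 7],
    [nat_lit 7,nat_lit 14,nat_lit 14],[nat_lit 7,nat_lit 14,nat_lit 15],[nat_lit 8,nat_lit 12],[nat_lit 8,nat_lit 13],
    [nat_lit 9,nat_lit 12],[nat_lit 9,nat_lit 13],[nat_lit 10,nat_lit 14],[nat_lit 10,nat_lit 15],[nat_lit 11,
    nat_lit 14],[nat_lit 11,nat_lit 15]]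
    [nat_lit 0x1006,nat_lit 0x102e,nat_lit 0x102f,nat_lit 0x103e,nat_lit 0x103f,nat_lit 0x1060,nat_lit 0x10653,
    nat_lit 0x106e,nat_lit 0x106f,nat_lit 0x107e,nat_lit 266,nat_lit 267,nat_lit 0x10c4,nat_lit 0x10c5,nat_lit 0x10d4,
    nat_lit 0x10d5,nat_lit 0x10e2,nat_lit 0x10e7,nat_lit 0x1117,nat_lit 0x11247,nat_lit 0x113f,nat_lit 0x114c,
    nat_lit 0x114d,nat_lit 0x115c,nat_lit 0x115d,nat_lit 0x116f,nat_lit 0x1171,nat_lit 282,nat_lit 283,nat_lit 0x11e2,
    nat_lit 0x11e3,nat_lit 0x11e7,nat_lit 0x11f2,nat_lit 0x11f3,nat_lit 0x11f6,nat_lit 0x11f7,nat_lit 0x1228,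
    nat_lit 0x1229,nat_lit 0x1238,nat_lit 0x1239,nat_lit 0x1245c,nat_lit 0x124a,nat_lit 0x124b,nat_lit 0x124f3,
    nat_lit 0x125a,nat_lit 0x125b,nat_lit 0x125f6,nat_lit 0x1278,nat_lit 0x1279,nat_lit 0x127f4,nat_lit 0x1282,
    nat_lit 0x1283,nat_lit 0x1286,nat_lit 0x1287,nat_lit 0x1292,nat_lit 0x1293,nat_lit 0x1297,nat_lit 0x12a5,
    nat_lit 0x12b4,nat_lit 0x12e34,nat_lit 0x12e35,nat_lit 0x12e53,nat_lit 0x12e57,nat_lit 0x12e75,nat_lit 0x12f34,
    nat_lit 0x12f35,nat_lit 0x12f46,nat_lit 0x1338,nat_lit 0x1339,nat_lit 0x1346f,nat_lit 0x134b,nat_lit 0x135a,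
    nat_lit 0x135e6,nat_lit 0x1364f,nat_lit 0x1368,nat_lit 0x1369,nat_lit 0x1375e,nat_lit 0x1379,nat_lit 0x137e4,
    nat_lit 0x1383,nat_lit 0x1386,nat_lit 0x1393,nat_lit 0x1396,nat_lit 0x13a4,nat_lit 0x13a5,nat_lit 0x13b4,
    nat_lit 0x13b5,nat_lit 0x13d45,nat_lit 0x146a,nat_lit 0x146b,nat_lit 0x147a,nat_lit 0x147b,nat_lit 0x14b6,
    nat_lit 0x14b7,nat_lit 0x14ce,nat_lit 0x14f67,nat_lit 0x14fd,nat_lit 0x1567e,nat_lit 0x156a,nat_lit 0x157a,
    nat_lit 0x15a6,nat_lit 0x15a7,nat_lit 0x15b6,nat_lit 0x15b7,nat_lit 0x15ce,nat_lit 0x15fd,nat_lit 0x1668,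
    nat_lit 0x1686,nat_lit 0x1687,nat_lit 0x1697,nat_lit 0x16ef,nat_lit 0x16ff,nat_lit 0x1779,nat_lit 0x1797,
    nat_lit 0x17ee,nat_lit 0x17ef,nat_lit 396,nat_lit 397,nat_lit 412,nat_lit 413,nat_lit 430,nat_lit 431,nat_lit 446,
    nat_lit 447]
    [[[nat_lit 0,nat_lit 0,nat_lit 6],[nat_lit 0,nat_lit 2,nat_lit 14],[nat_lit 0,nat_lit 2,nat_lit 15],[nat_lit 0,
    nat_lit 3,nat_lit 14],[nat_lit 0,nat_lit 3,nat_lit 15],[nat_lit 0,nat_lit 6,nat_lit 0],[nat_lit 0,nat_lit 6,
    nat_lit 5,nat_lit 3],[nat_lit 0,nat_lit 6,nat_lit 14],[nat_lit 0,nat_lit 6,nat_lit 15],[nat_lit 0,nat_lit 7,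
    nat_lit 14],[nat_lit 0,nat_lit 10],[nat_lit 0,nat_lit 11]],[[nat_lit 0,nat_lit 12,nat_lit 4],[nat_lit 0,
    nat_lit 12,nat_lit 5],[nat_lit 0,nat_lit 13,nat_lit 4],[nat_lit 0,nat_lit 13,nat_lit 5],[nat_lit 0,nat_lit 14,
    nat_lit 2],[nat_lit 0,nat_lit 14,nat_lit 7],[nat_lit 1,nat_lit 1,nat_lit 7],[nat_lit 1,nat_lit 2,nat_lit 4,
    nat_lit 7],[nat_lit 1,nat_lit 3,nat_lit 15],[nat_lit 1,nat_lit 4,nat_lit 12],[nat_lit 1,nat_lit 4,nat_lit 13],
    [nat_lit 1,nat_lit 5,nat_lit 12]],[[nat_lit 1,nat_lit 5,nat_lit 13],[nat_lit 1,nat_lit 6,nat_lit 15],[nat_lit 1,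
    nat_lit 7,nat_lit 1],[nat_lit 1,nat_lit 10],[nat_lit 1,nat_lit 11],[nat_lit 1,nat_lit 14,nat_lit 2],[nat_lit 1,
    nat_lit 14,nat_lit 3],[nat_lit 1,nat_lit 14,nat_lit 7],[nat_lit 1,nat_lit 15,nat_lit 2],[nat_lit 1,nat_lit 15,
    nat_lit 3],[nat_lit 1,nat_lit 15,nat_lit 6],[nat_lit 1,nat_lit 15,nat_lit 7]],[[nat_lit 2,nat_lit 0,nat_lit 14],
    [nat_lit 2,nat_lit 1,nat_lit 14],[nat_lit 2,nat_lit 1,nat_lit 15],[nat_lit 2,nat_lit 2,nat_lit 8],[nat_lit 2,
    nat_lit 2,nat_lit 9],[nat_lit 2,nat_lit 3,nat_lit 8],[nat_lit 2,nat_lit 3,nat_lit 9],[nat_lit 2,nat_lit 4,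
    nat_lit 5,nat_lit 12],[nat_lit 2,nat_lit 4,nat_lit 7,nat_lit 1],[nat_lit 2,nat_lit 4,nat_lit 10],[nat_lit 2,
    nat_lit 4,nat_lit 11],[nat_lit 2,nat_lit 4,nat_lit 15,nat_lit 3]],[[nat_lit 2,nat_lit 5,nat_lit 10],[nat_lit 2,
    nat_lit 5,nat_lit 11],[nat_lit 2,nat_lit 5,nat_lit 15,nat_lit 6],[nat_lit 2,nat_lit 7,nat_lit 8],[nat_lit 2,
    nat_lit 7,nat_lit 9],[nat_lit 2,nat_lit 7,nat_lit 15,nat_lit 4],[nat_lit 2,nat_lit 8,nat_lit 2],[nat_lit 2,
    nat_lit 8,nat_lit 3],[nat_lit 2,nat_lit 8,nat_lit 6],[nat_lit 2,nat_lit 8,nat_lit 7],[nat_lit 2,nat_lit 9,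
    nat_lit 2],[nat_lit 2,nat_lit 9,nat_lit 3]],[[nat_lit 2,nat_lit 9,nat_lit 7],[nat_lit 2,nat_lit 10,nat_lit 5],
    [nat_lit 2,nat_lit 11,nat_lit 4],[nat_lit 2,nat_lit 14,nat_lit 0],[nat_lit 2,nat_lit 14,nat_lit 3,nat_lit 4],
    [nat_lit 2,nat_lit 14,nat_lit 3,nat_lit 5],[nat_lit 2,nat_lit 14,nat_lit 5,nat_lit 3],[nat_lit 2,nat_lit 14,
    nat_lit 5,nat_lit 7],[nat_lit 2,nat_lit 14,nat_lit 7,nat_lit 5],[nat_lit 2,nat_lit 15,nat_lit 0],[nat_lit 2,
    nat_lit 15,nat_lit 3,nat_lit 4],[nat_lit 2,nat_lit 15,nat_lit 3,nat_lit 5]],[[nat_lit 2,nat_lit 15,nat_lit 4,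
    nat_lit 6],[nat_lit 3,nat_lit 0,nat_lit 6,nat_lit 5],[nat_lit 3,nat_lit 1,nat_lit 14],[nat_lit 3,nat_lit 1,
    nat_lit 15],[nat_lit 3,nat_lit 2,nat_lit 4,nat_lit 15],[nat_lit 3,nat_lit 2,nat_lit 8],[nat_lit 3,nat_lit 2,
    nat_lit 9],[nat_lit 3,nat_lit 2,nat_lit 14,nat_lit 5],[nat_lit 3,nat_lit 3,nat_lit 8],[nat_lit 3,nat_lit 3,
    nat_lit 9],[nat_lit 3,nat_lit 4,nat_lit 2,nat_lit 14],[nat_lit 3,nat_lit 4,nat_lit 2,nat_lit 15]],[[nat_lit 3,
    nat_lit 4,nat_lit 6,nat_lit 15],[nat_lit 3,nat_lit 4,nat_lit 11],[nat_lit 3,nat_lit 5,nat_lit 2,nat_lit 14],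
    [nat_lit 3,nat_lit 5,nat_lit 2,nat_lit 15],[nat_lit 3,nat_lit 5,nat_lit 10],[nat_lit 3,nat_lit 5,nat_lit 14,
    nat_lit 6],[nat_lit 3,nat_lit 6,nat_lit 4,nat_lit 15],[nat_lit 3,nat_lit 6,nat_lit 8],[nat_lit 3,nat_lit 6,
    nat_lit 9],[nat_lit 3,nat_lit 7,nat_lit 5,nat_lit 14],[nat_lit 3,nat_lit 7,nat_lit 9],[nat_lit 3,nat_lit 7,
    nat_lit 14,nat_lit 4]],[[nat_lit 3,nat_lit 8,nat_lit 2],[nat_lit 3,nat_lit 8,nat_lit 3],[nat_lit 3,nat_lit 8,
    nat_lit 6],[nat_lit 3,nat_lit 9,nat_lit 2],[nat_lit 3,nat_lit 9,nat_lit 3],[nat_lit 3,nat_lit 9,nat_lit 6],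
    [nat_lit 3,nat_lit 10,nat_lit 4],[nat_lit 3,nat_lit 10,nat_lit 5],[nat_lit 3,nat_lit 11,nat_lit 4],[nat_lit 3,
    nat_lit 11,nat_lit 5],[nat_lit 3,nat_lit 13,nat_lit 4,nat_lit 5],[nat_lit 3,nat_lit 14,nat_lit 0]],[[nat_lit 3,
    nat_lit 15,nat_lit 0],[nat_lit 3,nat_lit 15,nat_lit 1],[nat_lit 4,nat_lit 0,nat_lit 12],[nat_lit 4,nat_lit 0,
    nat_lit 13],[nat_lit 4,nat_lit 2,nat_lit 7,nat_lit 15],[nat_lit 4,nat_lit 2,nat_lit 11],[nat_lit 4,nat_lit 2,
    nat_lit 14,nat_lit 3],[nat_lit 4,nat_lit 2,nat_lit 15,nat_lit 3],[nat_lit 4,nat_lit 3,nat_lit 7,nat_lit 14],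
    [nat_lit 4,nat_lit 3,nat_lit 10],[nat_lit 4,nat_lit 3,nat_lit 11],[nat_lit 4,nat_lit 5,nat_lit 3,nat_lit 13]],
    [[nat_lit 4,nat_lit 5,nat_lit 12,nat_lit 2],[nat_lit 4,nat_lit 6,nat_lit 2,nat_lit 15],[nat_lit 4,nat_lit 6,
    nat_lit 10],[nat_lit 4,nat_lit 6,nat_lit 11],[nat_lit 4,nat_lit 6,nat_lit 15,nat_lit 3],[nat_lit 4,nat_lit 7,
    nat_lit 1,nat_lit 2],[nat_lit 4,nat_lit 7,nat_lit 10],[nat_lit 4,nat_lit 7,nat_lit 11],[nat_lit 4,nat_lit 10,
    nat_lit 2],[nat_lit 4,nat_lit 11,nat_lit 2],[nat_lit 4,nat_lit 11,nat_lit 3],[nat_lit 4,nat_lit 11,nat_lit 6]],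
    [[nat_lit 4,nat_lit 11,nat_lit 7],[nat_lit 4,nat_lit 12,nat_lit 1],[nat_lit 4,nat_lit 12,nat_lit 14],[nat_lit 4,
    nat_lit 13,nat_lit 1],[nat_lit 4,nat_lit 15,nat_lit 3,nat_lit 2],[nat_lit 4,nat_lit 15,nat_lit 3,nat_lit 6],
    [nat_lit 4,nat_lit 15,nat_lit 6,nat_lit 7],[nat_lit 4,nat_lit 15,nat_lit 13],[nat_lit 5,nat_lit 0,nat_lit 12],
    [nat_lit 5,nat_lit 0,nat_lit 13],[nat_lit 5,nat_lit 2,nat_lit 10],[nat_lit 5,nat_lit 2,nat_lit 14,nat_lit 3]],
    [[nat_lit 5,nat_lit 2,nat_lit 14,nat_lit 7],[nat_lit 5,nat_lit 2,nat_lit 15,nat_lit 3],[nat_lit 5,nat_lit 3,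
    nat_lit 0,nat_lit 6],[nat_lit 5,nat_lit 3,nat_lit 2,nat_lit 14],[nat_lit 5,nat_lit 3,nat_lit 10],[nat_lit 5,
    nat_lit 3,nat_lit 11],[nat_lit 5,nat_lit 3,nat_lit 13,nat_lit 4],[nat_lit 5,nat_lit 6,nat_lit 7,nat_lit 14],
    [nat_lit 5,nat_lit 6,nat_lit 10],[nat_lit 5,nat_lit 7,nat_lit 2,nat_lit 14],[nat_lit 5,nat_lit 7,nat_lit 10],
    [nat_lit 5,nat_lit 10,nat_lit 2]],[[nat_lit 5,nat_lit 10,nat_lit 3],[nat_lit 5,nat_lit 10,nat_lit 6],[nat_lit 5,
    nat_lit 10,nat_lit 7],[nat_lit 5,nat_lit 11,nat_lit 2],[nat_lit 5,nat_lit 11,nat_lit 6],[nat_lit 5,nat_lit 11,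
    nat_lit 7],[nat_lit 5,nat_lit 12,nat_lit 1],[nat_lit 5,nat_lit 12,nat_lit 2,nat_lit 4],[nat_lit 5,nat_lit 12,
    nat_lit 14],[nat_lit 5,nat_lit 13,nat_lit 1],[nat_lit 5,nat_lit 14,nat_lit 3,nat_lit 7],[nat_lit 5,nat_lit 14,
    nat_lit 6,nat_lit 3]],[[nat_lit 5,nat_lit 15,nat_lit 6,nat_lit 2],[nat_lit 5,nat_lit 15,nat_lit 13],[nat_lit 6,
    nat_lit 0,nat_lit 0],[nat_lit 6,nat_lit 1,nat_lit 15],[nat_lit 6,nat_lit 2,nat_lit 5,nat_lit 15],[nat_lit 6,
    nat_lit 2,nat_lit 8],[nat_lit 6,nat_lit 2,nat_lit 15,nat_lit 4],[nat_lit 6,nat_lit 3,nat_lit 5,nat_lit 14],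
    [nat_lit 6,nat_lit 3,nat_lit 8],[nat_lit 6,nat_lit 3,nat_lit 9],[nat_lit 6,nat_lit 4,nat_lit 11],[nat_lit 6,
    nat_lit 4,nat_lit 15,nat_lit 3]],[[nat_lit 6,nat_lit 5,nat_lit 3,nat_lit 0],[nat_lit 6,nat_lit 5,nat_lit 10],
    [nat_lit 6,nat_lit 5,nat_lit 11],[nat_lit 6,nat_lit 6,nat_lit 8],[nat_lit 6,nat_lit 7,nat_lit 4,nat_lit 15],
    [nat_lit 6,nat_lit 7,nat_lit 14,nat_lit 5],[nat_lit 6,nat_lit 8,nat_lit 3],[nat_lit 6,nat_lit 8,nat_lit 6],
    [nat_lit 6,nat_lit 8,nat_lit 7],[nat_lit 6,nat_lit 9,nat_lit 3],[nat_lit 6,nat_lit 9,nat_lit 7],[nat_lit 6,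
    nat_lit 10,nat_lit 4]],[[nat_lit 6,nat_lit 10,nat_lit 5],[nat_lit 6,nat_lit 11,nat_lit 4],[nat_lit 6,nat_lit 14,
    nat_lit 0],[nat_lit 6,nat_lit 14,nat_lit 15],[nat_lit 6,nat_lit 15,nat_lit 0],[nat_lit 6,nat_lit 15,nat_lit 1],
    [nat_lit 6,nat_lit 15,nat_lit 3,nat_lit 4],[nat_lit 6,nat_lit 15,nat_lit 15],[nat_lit 7,nat_lit 0,nat_lit 14],
    [nat_lit 7,nat_lit 1,nat_lit 1],[nat_lit 7,nat_lit 1,nat_lit 2,nat_lit 4],[nat_lit 7,nat_lit 1,nat_lit 14]],
    [[nat_lit 7,nat_lit 1,nat_lit 15],[nat_lit 7,nat_lit 2,nat_lit 8],[nat_lit 7,nat_lit 2,nat_lit 9],[nat_lit 7,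
    nat_lit 2,nat_lit 14,nat_lit 5],[nat_lit 7,nat_lit 4,nat_lit 11],[nat_lit 7,nat_lit 4,nat_lit 15,nat_lit 6],
    [nat_lit 7,nat_lit 5,nat_lit 2,nat_lit 14],[nat_lit 7,nat_lit 5,nat_lit 10],[nat_lit 7,nat_lit 5,nat_lit 11],
    [nat_lit 7,nat_lit 5,nat_lit 14,nat_lit 3],[nat_lit 7,nat_lit 6,nat_lit 8],[nat_lit 7,nat_lit 6,nat_lit 9]],
    [[nat_lit 7,nat_lit 7,nat_lit 9],[nat_lit 7,nat_lit 8,nat_lit 2],[nat_lit 7,nat_lit 9,nat_lit 2],[nat_lit 7,
    nat_lit 9,nat_lit 3],[nat_lit 7,nat_lit 9,nat_lit 7],[nat_lit 7,nat_lit 10,nat_lit 4],[nat_lit 7,nat_lit 10,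
    nat_lit 5],[nat_lit 7,nat_lit 11,nat_lit 4],[nat_lit 7,nat_lit 14,nat_lit 0],[nat_lit 7,nat_lit 14,nat_lit 4,
    nat_lit 3],[nat_lit 7,nat_lit 14,nat_lit 5,nat_lit 6],[nat_lit 7,nat_lit 14,nat_lit 14]],[[nat_lit 7,nat_lit 14,
    nat_lit 15],[nat_lit 7,nat_lit 15,nat_lit 4,nat_lit 2],[nat_lit 8,nat_lit 2,nat_lit 2],[nat_lit 8,nat_lit 2,
    nat_lit 3],[nat_lit 8,nat_lit 2,nat_lit 7],[nat_lit 8,nat_lit 3,nat_lit 2],[nat_lit 8,nat_lit 3,nat_lit 3],
    [nat_lit 8,nat_lit 3,nat_lit 6],[nat_lit 8,nat_lit 6,nat_lit 2],[nat_lit 8,nat_lit 6,nat_lit 3],[nat_lit 8,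
    nat_lit 6,nat_lit 6],[nat_lit 8,nat_lit 7,nat_lit 2]],[[nat_lit 8,nat_lit 7,nat_lit 6],[nat_lit 8,nat_lit 12],
    [nat_lit 8,nat_lit 13],[nat_lit 9,nat_lit 2,nat_lit 2],[nat_lit 9,nat_lit 2,nat_lit 3],[nat_lit 9,nat_lit 2,
    nat_lit 7],[nat_lit 9,nat_lit 3,nat_lit 2],[nat_lit 9,nat_lit 3,nat_lit 3],[nat_lit 9,nat_lit 3,nat_lit 6],
    [nat_lit 9,nat_lit 3,nat_lit 7],[nat_lit 9,nat_lit 6,nat_lit 3],[nat_lit 9,nat_lit 7,nat_lit 2]],[[nat_lit 9,
    nat_lit 7,nat_lit 6],[nat_lit 9,nat_lit 7,nat_lit 7],[nat_lit 9,nat_lit 12],[nat_lit 9,nat_lit 13],[nat_lit 10,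
    nat_lit 0],[nat_lit 10,nat_lit 1],[nat_lit 10,nat_lit 2,nat_lit 4],[nat_lit 10,nat_lit 2,nat_lit 5],[nat_lit 10,
    nat_lit 3,nat_lit 5],[nat_lit 10,nat_lit 4,nat_lit 3],[nat_lit 10,nat_lit 4,nat_lit 6],[nat_lit 10,nat_lit 4,
    nat_lit 7]],[[nat_lit 10,nat_lit 5,nat_lit 2],[nat_lit 10,nat_lit 5,nat_lit 3],[nat_lit 10,nat_lit 5,nat_lit 6],
    [nat_lit 10,nat_lit 5,nat_lit 7],[nat_lit 10,nat_lit 6,nat_lit 5],[nat_lit 10,nat_lit 7,nat_lit 5],[nat_lit 10,
    nat_lit 14],[nat_lit 10,nat_lit 15],[nat_lit 11,nat_lit 0],[nat_lit 11,nat_lit 1],[nat_lit 11,nat_lit 2,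
    nat_lit 4],[nat_lit 11,nat_lit 2,nat_lit 5]],[[nat_lit 11,nat_lit 3,nat_lit 4],[nat_lit 11,nat_lit 4,nat_lit 2],
    [nat_lit 11,nat_lit 4,nat_lit 3],[nat_lit 11,nat_lit 4,nat_lit 6],[nat_lit 11,nat_lit 4,nat_lit 7],[nat_lit 11,
    nat_lit 5,nat_lit 3],[nat_lit 11,nat_lit 6,nat_lit 4],[nat_lit 11,nat_lit 6,nat_lit 5],[nat_lit 11,nat_lit 7,
    nat_lit 4],[nat_lit 11,nat_lit 7,nat_lit 5],[nat_lit 11,nat_lit 14],[nat_lit 11,nat_lit 15]],[[nat_lit 12,
    nat_lit 1,nat_lit 4],[nat_lit 12,nat_lit 1,nat_lit 5],[nat_lit 12,nat_lit 2,nat_lit 4,nat_lit 5],[nat_lit 12,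
    nat_lit 4,nat_lit 0],[nat_lit 12,nat_lit 5,nat_lit 0],[nat_lit 12,nat_lit 8],[nat_lit 12,nat_lit 9],[nat_lit 12,
    nat_lit 14,nat_lit 4],[nat_lit 12,nat_lit 14,nat_lit 5],[nat_lit 13,nat_lit 1,nat_lit 4],[nat_lit 13,nat_lit 1,
    nat_lit 5],[nat_lit 13,nat_lit 4,nat_lit 0]],[[nat_lit 13,nat_lit 4,nat_lit 5,nat_lit 3],[nat_lit 13,nat_lit 4,
    nat_lit 15],[nat_lit 13,nat_lit 5,nat_lit 0],[nat_lit 13,nat_lit 5,nat_lit 15],[nat_lit 13,nat_lit 8],[nat_lit 13,
    nat_lit 9],[nat_lit 14,nat_lit 0,nat_lit 2],[nat_lit 14,nat_lit 0,nat_lit 3],[nat_lit 14,nat_lit 0,nat_lit 6],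
    [nat_lit 14,nat_lit 0,nat_lit 7],[nat_lit 14,nat_lit 2,nat_lit 0],[nat_lit 14,nat_lit 2,nat_lit 1]],[[nat_lit 14,
    nat_lit 3,nat_lit 1],[nat_lit 14,nat_lit 3,nat_lit 4,nat_lit 2],[nat_lit 14,nat_lit 3,nat_lit 5,nat_lit 2],
    [nat_lit 14,nat_lit 3,nat_lit 7,nat_lit 5],[nat_lit 14,nat_lit 4,nat_lit 3,nat_lit 7],[nat_lit 14,nat_lit 4,
    nat_lit 12],[nat_lit 14,nat_lit 5,nat_lit 3,nat_lit 2],[nat_lit 14,nat_lit 5,nat_lit 6,nat_lit 7],[nat_lit 14,
    nat_lit 5,nat_lit 7,nat_lit 2],[nat_lit 14,nat_lit 5,nat_lit 12],[nat_lit 14,nat_lit 6,nat_lit 3,nat_lit 5],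
    [nat_lit 14,nat_lit 7,nat_lit 0]],[[nat_lit 14,nat_lit 7,nat_lit 1],[nat_lit 14,nat_lit 7,nat_lit 5,nat_lit 2],
    [nat_lit 14,nat_lit 7,nat_lit 14],[nat_lit 14,nat_lit 10],[nat_lit 14,nat_lit 11],[nat_lit 14,nat_lit 14,
    nat_lit 7],[nat_lit 14,nat_lit 15,nat_lit 6],[nat_lit 14,nat_lit 15,nat_lit 7],[nat_lit 15,nat_lit 0,nat_lit 2],
    [nat_lit 15,nat_lit 0,nat_lit 3],[nat_lit 15,nat_lit 0,nat_lit 6],[nat_lit 15,nat_lit 1,nat_lit 3]],[[nat_lit 15,
    nat_lit 1,nat_lit 6],[nat_lit 15,nat_lit 2,nat_lit 1],[nat_lit 15,nat_lit 3,nat_lit 1],[nat_lit 15,nat_lit 3,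
    nat_lit 2,nat_lit 4],[nat_lit 15,nat_lit 3,nat_lit 4,nat_lit 2],[nat_lit 15,nat_lit 3,nat_lit 4,nat_lit 6],
    [nat_lit 15,nat_lit 3,nat_lit 5,nat_lit 2],[nat_lit 15,nat_lit 3,nat_lit 6,nat_lit 4],[nat_lit 15,nat_lit 4,
    nat_lit 2,nat_lit 7],[nat_lit 15,nat_lit 4,nat_lit 6,nat_lit 2],[nat_lit 15,nat_lit 6,nat_lit 1],[nat_lit 15,
    nat_lit 6,nat_lit 2,nat_lit 5]],[[nat_lit 15,nat_lit 6,nat_lit 7,nat_lit 4],[nat_lit 15,nat_lit 6,nat_lit 14],
    [nat_lit 15,nat_lit 6,nat_lit 15],[nat_lit 15,nat_lit 7,nat_lit 1],[nat_lit 15,nat_lit 7,nat_lit 14],[nat_lit 15,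
    nat_lit 10],[nat_lit 15,nat_lit 11],[nat_lit 15,nat_lit 13,nat_lit 4],[nat_lit 15,nat_lit 13,nat_lit 5],
    [nat_lit 15,nat_lit 15,nat_lit 6]]]
    [[nat_lit 5,nat_lit 63,nat_lit 69,nat_lit 107,nat_lit 108,nat_lit 170,nat_lit 180,nat_lit 194,nat_lit 196,
    nat_lit 224,nat_lit 256,nat_lit 272],[nat_lit 291,nat_lit 292,nat_lit 299,nat_lit 302,nat_lit 310,nat_lit 323,
    nat_lit 26,nat_lit 44,nat_lit 109,nat_lit 133,nat_lit 135,nat_lit 162],[nat_lit 165,nat_lit 197,nat_lit 201,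
    nat_lit 257,nat_lit 273,nat_lit 311,nat_lit 312,nat_lit 324,nat_lit 337,nat_lit 338,nat_lit 346,nat_lit 351],
    [nat_lit 16,nat_lit 29,nat_lit 32,nat_lit 54,nat_lit 58,nat_lit 96,nat_lit 99,nat_lit 120,nat_lit 125,nat_lit 128,
    nat_lit 129,nat_lit 136],[nat_lit 155,nat_lit 159,nat_lit 168,nat_lit 217,nat_lit 218,nat_lit 229,nat_lit 230,
    nat_lit 233,nat_lit 236,nat_lit 239,nat_lit 243,nat_lit 246],[nat_lit 251,nat_lit 264,nat_lit 277,nat_lit 306,
    nat_lit 313,nat_lit 314,nat_lit 318,nat_lit 320,nat_lit 325,nat_lit 332,nat_lit 340,nat_lit 342],[nat_lit 345,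
    nat_lit 6,nat_lit 30,nat_lit 33,nat_lit 47,nat_lit 55,nat_lit 59,nat_lit 66,nat_lit 97,nat_lit 100,nat_lit 114,
    nat_lit 115],[nat_lit 124,nat_lit 130,nat_lit 143,nat_lit 145,nat_lit 156,nat_lit 167,nat_lit 179,nat_lit 186,
    nat_lit 189,nat_lit 213,nat_lit 219,nat_lit 225],[nat_lit 231,nat_lit 234,nat_lit 237,nat_lit 244,nat_lit 247,
    nat_lit 250,nat_lit 261,nat_lit 265,nat_lit 278,nat_lit 281,nat_lit 300,nat_lit 307],[nat_lit 333,nat_lit 335,
    nat_lit 12,nat_lit 14,nat_lit 53,nat_lit 62,nat_lit 64,nat_lit 70,nat_lit 95,nat_lit 102,nat_lit 104,nat_lit 150],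
    [nat_lit 163,nat_lit 174,nat_lit 191,nat_lit 193,nat_lit 198,nat_lit 202,nat_lit 221,nat_lit 223,nat_lit 258,
    nat_lit 274,nat_lit 276,nat_lit 282],[nat_lit 284,nat_lit 288,nat_lit 295,nat_lit 297,nat_lit 339,nat_lit 343,
    nat_lit 348,nat_lit 355,nat_lit 13,nat_lit 15,nat_lit 61,nat_lit 65],[nat_lit 68,nat_lit 71,nat_lit 73,nat_lit 79,
    nat_lit 103,nat_lit 105,nat_lit 106,nat_lit 185,nat_lit 192,nat_lit 207,nat_lit 222,nat_lit 259],[nat_lit 260,
    nat_lit 268,nat_lit 269,nat_lit 275,nat_lit 283,nat_lit 285,nat_lit 289,nat_lit 290,nat_lit 296,nat_lit 298,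
    nat_lit 315,nat_lit 322],[nat_lit 347,nat_lit 356,nat_lit 0,nat_lit 34,nat_lit 50,nat_lit 56,nat_lit 72,
    nat_lit 89,nat_lit 98,nat_lit 101,nat_lit 131,nat_lit 137],[nat_lit 146,nat_lit 157,nat_lit 160,nat_lit 187,
    nat_lit 209,nat_lit 226,nat_lit 235,nat_lit 238,nat_lit 240,nat_lit 248,nat_lit 252,nat_lit 262],[nat_lit 266,
    nat_lit 279,nat_lit 308,nat_lit 330,nat_lit 334,nat_lit 336,nat_lit 341,nat_lit 357,nat_lit 17,nat_lit 18,
    nat_lit 19,nat_lit 31],[nat_lit 35,nat_lit 57,nat_lit 60,nat_lit 67,nat_lit 132,nat_lit 138,nat_lit 144,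
    nat_lit 158,nat_lit 161,nat_lit 166,nat_lit 188,nat_lit 190],[nat_lit 220,nat_lit 232,nat_lit 245,nat_lit 249,
    nat_lit 253,nat_lit 263,nat_lit 267,nat_lit 280,nat_lit 309,nat_lit 316,nat_lit 319,nat_lit 329],[nat_lit 331,
    nat_lit 344,nat_lit 39,nat_lit 41,nat_lit 51,nat_lit 77,nat_lit 80,nat_lit 91,nat_lit 173,nat_lit 176,nat_lit 183,
    nat_lit 205],[nat_lit 214,nat_lit 293,nat_lit 304,nat_lit 40,nat_lit 42,nat_lit 52,nat_lit 78,nat_lit 81,
    nat_lit 92,nat_lit 94,nat_lit 177,nat_lit 206],[nat_lit 215,nat_lit 216,nat_lit 294,nat_lit 305,nat_lit 10,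
    nat_lit 27,nat_lit 45,nat_lit 48,nat_lit 88,nat_lit 117,nat_lit 122,nat_lit 126],[nat_lit 142,nat_lit 148,
    nat_lit 152,nat_lit 154,nat_lit 181,nat_lit 211,nat_lit 327,nat_lit 353,nat_lit 11,nat_lit 28,nat_lit 46,
    nat_lit 49],[nat_lit 85,nat_lit 113,nat_lit 118,nat_lit 123,nat_lit 127,nat_lit 149,nat_lit 178,nat_lit 182,
    nat_lit 208,nat_lit 212,nat_lit 328,nat_lit 354],[nat_lit 21,nat_lit 23,nat_lit 43,nat_lit 110,nat_lit 140,
    nat_lit 241,nat_lit 254,nat_lit 317,nat_lit 321,nat_lit 22,nat_lit 24,nat_lit 111],[nat_lit 119,nat_lit 139,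
    nat_lit 141,nat_lit 169,nat_lit 242,nat_lit 255,nat_lit 1,nat_lit 3,nat_lit 7,nat_lit 9,nat_lit 36,nat_lit 37],
    [nat_lit 74,nat_lit 82,nat_lit 86,nat_lit 93,nat_lit 116,nat_lit 134,nat_lit 147,nat_lit 151,nat_lit 153,
    nat_lit 164,nat_lit 175,nat_lit 200],[nat_lit 203,nat_lit 210,nat_lit 227,nat_lit 270,nat_lit 286,nat_lit 326,
    nat_lit 349,nat_lit 352,nat_lit 2,nat_lit 4,nat_lit 8,nat_lit 20],[nat_lit 25,nat_lit 38,nat_lit 75,nat_lit 76,
    nat_lit 83,nat_lit 84,nat_lit 87,nat_lit 90,nat_lit 112,nat_lit 121,nat_lit 171,nat_lit 172],[nat_lit 184,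
    nat_lit 195,nat_lit 199,nat_lit 204,nat_lit 228,nat_lit 271,nat_lit 287,nat_lit 301,nat_lit 303,nat_lit 350]]
    [[nat_lit 170,nat_lit 306,nat_lit 332,nat_lit 307,nat_lit 333,nat_lit 0,nat_lit 73,nat_lit 308,nat_lit 334,
    nat_lit 309,nat_lit 256,nat_lit 272],[nat_lit 110,nat_lit 140,nat_lit 111,nat_lit 141,nat_lit 36,nat_lit 200,
    nat_lit 201,nat_lit 202,nat_lit 335,nat_lit 288,nat_lit 297,nat_lit 289],[nat_lit 298,nat_lit 336,nat_lit 18,
    nat_lit 257,nat_lit 273,nat_lit 37,nat_lit 74,nat_lit 203,nat_lit 38,nat_lit 75,nat_lit 171,nat_lit 204],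
    [nat_lit 310,nat_lit 311,nat_lit 337,nat_lit 230,nat_lit 243,nat_lit 231,nat_lit 244,nat_lit 290,nat_lit 19,
    nat_lit 258,nat_lit 274,nat_lit 76],[nat_lit 259,nat_lit 275,nat_lit 172,nat_lit 232,nat_lit 245,nat_lit 112,
    nat_lit 39,nat_lit 77,nat_lit 173,nat_lit 205,nat_lit 40,nat_lit 78],[nat_lit 206,nat_lit 142,nat_lit 113,
    nat_lit 1,nat_lit 114,nat_lit 143,nat_lit 79,nat_lit 207,nat_lit 144,nat_lit 2,nat_lit 115,nat_lit 145],
    [nat_lit 174,nat_lit 146,nat_lit 312,nat_lit 338,nat_lit 339,nat_lit 233,nat_lit 246,nat_lit 147,nat_lit 234,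
    nat_lit 247,nat_lit 313,nat_lit 340],[nat_lit 341,nat_lit 276,nat_lit 314,nat_lit 342,nat_lit 260,nat_lit 175,
    nat_lit 343,nat_lit 235,nat_lit 248,nat_lit 315,nat_lit 249,nat_lit 116],[nat_lit 41,nat_lit 80,nat_lit 176,
    nat_lit 42,nat_lit 81,nat_lit 177,nat_lit 117,nat_lit 148,nat_lit 118,nat_lit 149,nat_lit 150,nat_lit 3],
    [nat_lit 4,nat_lit 20,nat_lit 291,nat_lit 299,nat_lit 344,nat_lit 277,nat_lit 82,nat_lit 83,nat_lit 316,
    nat_lit 261,nat_lit 278,nat_lit 300],[nat_lit 43,nat_lit 345,nat_lit 262,nat_lit 279,nat_lit 84,nat_lit 44,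
    nat_lit 263,nat_lit 280,nat_lit 45,nat_lit 46,nat_lit 85,nat_lit 178],[nat_lit 208,nat_lit 21,nat_lit 317,
    nat_lit 22,nat_lit 47,nat_lit 179,nat_lit 209,nat_lit 301,nat_lit 292,nat_lit 302,nat_lit 264,nat_lit 86],
    [nat_lit 210,nat_lit 87,nat_lit 180,nat_lit 318,nat_lit 265,nat_lit 281,nat_lit 119,nat_lit 319,nat_lit 266,
    nat_lit 320,nat_lit 267,nat_lit 48],[nat_lit 88,nat_lit 181,nat_lit 211,nat_lit 49,nat_lit 182,nat_lit 212,
    nat_lit 23,nat_lit 120,nat_lit 321,nat_lit 24,nat_lit 213,nat_lit 89],[nat_lit 50,nat_lit 303,nat_lit 5,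
    nat_lit 346,nat_lit 347,nat_lit 236,nat_lit 121,nat_lit 322,nat_lit 237,nat_lit 250,nat_lit 282,nat_lit 90],
    [nat_lit 6,nat_lit 268,nat_lit 283,nat_lit 238,nat_lit 348,nat_lit 151,nat_lit 91,nat_lit 183,nat_lit 214,
    nat_lit 92,nat_lit 215,nat_lit 122],[nat_lit 152,nat_lit 123,nat_lit 7,nat_lit 349,nat_lit 8,nat_lit 25,
    nat_lit 124,nat_lit 350,nat_lit 323,nat_lit 26,nat_lit 125,nat_lit 324],[nat_lit 351,nat_lit 239,nat_lit 251,
    nat_lit 153,nat_lit 284,nat_lit 184,nat_lit 325,nat_lit 269,nat_lit 285,nat_lit 93,nat_lit 240,nat_lit 252],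
    [nat_lit 253,nat_lit 51,nat_lit 52,nat_lit 94,nat_lit 216,nat_lit 126,nat_lit 154,nat_lit 127,nat_lit 9,
    nat_lit 95,nat_lit 185,nat_lit 326],[nat_lit 352,nat_lit 53,nat_lit 54,nat_lit 96,nat_lit 217,nat_lit 55,
    nat_lit 97,nat_lit 186,nat_lit 56,nat_lit 98,nat_lit 187,nat_lit 57],[nat_lit 188,nat_lit 293,nat_lit 304,
    nat_lit 58,nat_lit 99,nat_lit 218,nat_lit 59,nat_lit 100,nat_lit 189,nat_lit 219,nat_lit 101,nat_lit 60],
    [nat_lit 190,nat_lit 220,nat_lit 294,nat_lit 305,nat_lit 10,nat_lit 27,nat_lit 128,nat_lit 155,nat_lit 156,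
    nat_lit 102,nat_lit 191,nat_lit 221],[nat_lit 61,nat_lit 103,nat_lit 192,nat_lit 222,nat_lit 157,nat_lit 158,
    nat_lit 327,nat_lit 353,nat_lit 11,nat_lit 28,nat_lit 129,nat_lit 159],[nat_lit 130,nat_lit 62,nat_lit 104,
    nat_lit 193,nat_lit 223,nat_lit 105,nat_lit 131,nat_lit 160,nat_lit 132,nat_lit 161,nat_lit 328,nat_lit 354],
    [nat_lit 133,nat_lit 162,nat_lit 163,nat_lit 12,nat_lit 13,nat_lit 241,nat_lit 254,nat_lit 134,nat_lit 164,
    nat_lit 135,nat_lit 165,nat_lit 14],[nat_lit 106,nat_lit 355,nat_lit 15,nat_lit 356,nat_lit 242,nat_lit 255,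
    nat_lit 63,nat_lit 107,nat_lit 194,nat_lit 224,nat_lit 16,nat_lit 29],[nat_lit 30,nat_lit 64,nat_lit 65,
    nat_lit 166,nat_lit 225,nat_lit 295,nat_lit 66,nat_lit 226,nat_lit 67,nat_lit 296,nat_lit 167,nat_lit 17],
    [nat_lit 31,nat_lit 68,nat_lit 329,nat_lit 270,nat_lit 286,nat_lit 227,nat_lit 195,nat_lit 228,nat_lit 69,
    nat_lit 108,nat_lit 196,nat_lit 109],[nat_lit 197,nat_lit 32,nat_lit 33,nat_lit 136,nat_lit 70,nat_lit 198,
    nat_lit 71,nat_lit 137,nat_lit 229,nat_lit 72,nat_lit 34,nat_lit 168],[nat_lit 138,nat_lit 330,nat_lit 357,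
    nat_lit 35,nat_lit 331,nat_lit 271,nat_lit 287,nat_lit 139,nat_lit 169,nat_lit 199]]
    [[[nat_lit 306,nat_lit 313,nat_lit 314,nat_lit 318,nat_lit 320,nat_lit 325],[],[],[nat_lit 311,nat_lit 312,
    nat_lit 324],[nat_lit 311,nat_lit 312,nat_lit 324],[],[],[],[],[nat_lit 315,nat_lit 322],[nat_lit 317,
    nat_lit 321],[]],[[nat_lit 326],[nat_lit 326],[nat_lit 328],[nat_lit 328],[nat_lit 310,nat_lit 323],[nat_lit 310,
    nat_lit 323],[nat_lit 75,nat_lit 76,nat_lit 83,nat_lit 84,nat_lit 87,nat_lit 90],[nat_lit 95,nat_lit 102,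
    nat_lit 104],[nat_lit 109],[nat_lit 89,nat_lit 98,nat_lit 101],[nat_lit 89,nat_lit 98,nat_lit 101],[nat_lit 97,
    nat_lit 100]],[[nat_lit 97,nat_lit 100],[nat_lit 77,nat_lit 80,nat_lit 91],[nat_lit 73,nat_lit 79,nat_lit 103,
    nat_lit 105,nat_lit 106],[],[nat_lit 78,nat_lit 81,nat_lit 92,nat_lit 94],[nat_lit 107,nat_lit 108],[nat_lit 107,
    nat_lit 108],[nat_lit 107,nat_lit 108],[],[],[],[]],[[nat_lit 16],[nat_lit 2,nat_lit 4,nat_lit 8],[nat_lit 2,
    nat_lit 4,nat_lit 8],[nat_lit 12,nat_lit 14],[nat_lit 12,nat_lit 14],[],[],[nat_lit 0],[nat_lit 0],[nat_lit 0],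
    [nat_lit 0],[nat_lit 0]],[[nat_lit 6],[nat_lit 6],[nat_lit 6],[nat_lit 13,nat_lit 15],[nat_lit 13,nat_lit 15],
    [nat_lit 13,nat_lit 15],[nat_lit 10],[nat_lit 10],[nat_lit 10],[nat_lit 10],[nat_lit 17],[nat_lit 17]],
    [[nat_lit 17],[],[],[nat_lit 5],[nat_lit 5],[nat_lit 5],[nat_lit 5],[nat_lit 5],[nat_lit 5],[],[],[]],[[],
    [nat_lit 155,nat_lit 159,nat_lit 168],[],[],[nat_lit 150,nat_lit 163],[nat_lit 150,nat_lit 163],[nat_lit 150,
    nat_lit 163],[nat_lit 150,nat_lit 163],[nat_lit 162,nat_lit 165],[nat_lit 162,nat_lit 165],[nat_lit 146,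
    nat_lit 157,nat_lit 160],[nat_lit 146,nat_lit 157,nat_lit 160]],[[nat_lit 146,nat_lit 157,nat_lit 160],
    [nat_lit 146,nat_lit 157,nat_lit 160],[nat_lit 143,nat_lit 145,nat_lit 156,nat_lit 167],[nat_lit 143,nat_lit 145,
    nat_lit 156,nat_lit 167],[nat_lit 143,nat_lit 145,nat_lit 156,nat_lit 167],[nat_lit 143,nat_lit 145,nat_lit 156,
    nat_lit 167],[],[],[],[],[],[]],[[nat_lit 142,nat_lit 148,nat_lit 152,nat_lit 154],[nat_lit 142,nat_lit 148,
    nat_lit 152,nat_lit 154],[nat_lit 142,nat_lit 148,nat_lit 152,nat_lit 154],[nat_lit 144,nat_lit 158,nat_lit 161,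
    nat_lit 166],[nat_lit 144,nat_lit 158,nat_lit 161,nat_lit 166],[nat_lit 144,nat_lit 158,nat_lit 161,nat_lit 166],
    [nat_lit 140],[nat_lit 140],[],[],[nat_lit 149],[]],[[nat_lit 141,nat_lit 169],[nat_lit 141,nat_lit 169],
    [nat_lit 54,nat_lit 58],[nat_lit 54,nat_lit 58],[nat_lit 53,nat_lit 62,nat_lit 64,nat_lit 70],[nat_lit 53,
    nat_lit 62,nat_lit 64,nat_lit 70],[nat_lit 53,nat_lit 62,nat_lit 64,nat_lit 70],[nat_lit 53,nat_lit 62,nat_lit 64,
    nat_lit 70],[nat_lit 44],[nat_lit 44],[nat_lit 44],[nat_lit 47,nat_lit 55,nat_lit 59,nat_lit 66]],[[nat_lit 47,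
    nat_lit 55,nat_lit 59,nat_lit 66],[nat_lit 39,nat_lit 41,nat_lit 51],[nat_lit 39,nat_lit 41,nat_lit 51],
    [nat_lit 39,nat_lit 41,nat_lit 51],[nat_lit 39,nat_lit 41,nat_lit 51],[nat_lit 61,nat_lit 65,nat_lit 68,
    nat_lit 71],[nat_lit 61,nat_lit 65,nat_lit 68,nat_lit 71],[nat_lit 61,nat_lit 65,nat_lit 68,nat_lit 71],
    [nat_lit 43],[nat_lit 40,nat_lit 42,nat_lit 52],[nat_lit 40,nat_lit 42,nat_lit 52],[nat_lit 40,nat_lit 42,
    nat_lit 52]],[[nat_lit 40,nat_lit 42,nat_lit 52],[nat_lit 36,nat_lit 37],[nat_lit 36,nat_lit 37],[nat_lit 46,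
    nat_lit 49],[],[],[],[],[nat_lit 217,nat_lit 218,nat_lit 229],[nat_lit 217,nat_lit 218,nat_lit 229],[nat_lit 202,
    nat_lit 221,nat_lit 223],[nat_lit 202,nat_lit 221,nat_lit 223]],[[nat_lit 202,nat_lit 221,nat_lit 223],
    [nat_lit 202,nat_lit 221,nat_lit 223],[nat_lit 201],[nat_lit 201],[nat_lit 201],[nat_lit 201],[nat_lit 201],
    [nat_lit 205,nat_lit 214],[nat_lit 205,nat_lit 214],[nat_lit 207,nat_lit 222],[nat_lit 207,nat_lit 222],[]],[[],
    [],[],[nat_lit 206,nat_lit 215,nat_lit 216],[nat_lit 206,nat_lit 215,nat_lit 216],[nat_lit 206,nat_lit 215,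
    nat_lit 216],[nat_lit 200,nat_lit 203,nat_lit 210,nat_lit 227],[nat_lit 200,nat_lit 203,nat_lit 210,nat_lit 227],
    [nat_lit 200,nat_lit 203,nat_lit 210,nat_lit 227],[nat_lit 208,nat_lit 212],[nat_lit 224],[nat_lit 224]],[[],[],
    [nat_lit 120,nat_lit 125,nat_lit 128,nat_lit 129,nat_lit 136],[nat_lit 112,nat_lit 121],[],[],[],[nat_lit 133,
    nat_lit 135],[nat_lit 133,nat_lit 135],[nat_lit 133,nat_lit 135],[nat_lit 131,nat_lit 137],[nat_lit 131,
    nat_lit 137]],[[nat_lit 114,nat_lit 115,nat_lit 124,nat_lit 130],[nat_lit 114,nat_lit 115,nat_lit 124,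
    nat_lit 130],[nat_lit 114,nat_lit 115,nat_lit 124,nat_lit 130],[],[],[],[nat_lit 117,nat_lit 122,nat_lit 126],
    [nat_lit 117,nat_lit 122,nat_lit 126],[nat_lit 117,nat_lit 122,nat_lit 126],[nat_lit 132,nat_lit 138],
    [nat_lit 132,nat_lit 138],[nat_lit 110]],[[nat_lit 110],[],[],[],[nat_lit 111,nat_lit 119,nat_lit 139],
    [nat_lit 111,nat_lit 119,nat_lit 139],[nat_lit 111,nat_lit 119,nat_lit 139],[nat_lit 111,nat_lit 119,nat_lit 139],
    [nat_lit 243,nat_lit 246,nat_lit 251],[],[],[]],[[],[],[],[],[nat_lit 248,nat_lit 252],[nat_lit 248,nat_lit 252],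
    [nat_lit 244,nat_lit 247,nat_lit 250],[nat_lit 244,nat_lit 247,nat_lit 250],[nat_lit 244,nat_lit 247,nat_lit 250],
    [nat_lit 244,nat_lit 247,nat_lit 250],[],[]],[[],[],[nat_lit 245,nat_lit 249,nat_lit 253],[nat_lit 245,
    nat_lit 249,nat_lit 253],[nat_lit 245,nat_lit 249,nat_lit 253],[nat_lit 254],[nat_lit 254],[],[],[],[],[]],[[],
    [nat_lit 255],[nat_lit 174,nat_lit 191,nat_lit 193,nat_lit 198],[nat_lit 174,nat_lit 191,nat_lit 193,nat_lit 198],
    [nat_lit 174,nat_lit 191,nat_lit 193,nat_lit 198],[nat_lit 197],[nat_lit 197],[nat_lit 197],[nat_lit 173,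
    nat_lit 176,nat_lit 183],[nat_lit 173,nat_lit 176,nat_lit 183],[nat_lit 173,nat_lit 176,nat_lit 183],[nat_lit 185,
    nat_lit 192]],[[nat_lit 185,nat_lit 192],[nat_lit 175],[nat_lit 178,nat_lit 182],[nat_lit 274,nat_lit 276,
    nat_lit 282,nat_lit 284],[nat_lit 274,nat_lit 276,nat_lit 282,nat_lit 284],[nat_lit 274,nat_lit 276,nat_lit 282,
    nat_lit 284],[nat_lit 273],[nat_lit 273],[nat_lit 273],[nat_lit 273],[],[nat_lit 275,nat_lit 283,nat_lit 285]],
    [[nat_lit 275,nat_lit 283,nat_lit 285],[nat_lit 275,nat_lit 283,nat_lit 285],[nat_lit 286],[],[nat_lit 230,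
    nat_lit 233,nat_lit 236,nat_lit 239],[],[],[],[],[nat_lit 235,nat_lit 238,nat_lit 240],[nat_lit 235,nat_lit 238,
    nat_lit 240],[nat_lit 235,nat_lit 238,nat_lit 240]],[[nat_lit 231,nat_lit 234,nat_lit 237],[nat_lit 231,
    nat_lit 234,nat_lit 237],[nat_lit 231,nat_lit 234,nat_lit 237],[nat_lit 231,nat_lit 234,nat_lit 237],[],[],[],
    [nat_lit 242],[],[nat_lit 301,nat_lit 303],[nat_lit 297],[nat_lit 297]],[[],[],[],[],[],[nat_lit 300],
    [nat_lit 304],[nat_lit 304],[nat_lit 298],[nat_lit 298],[nat_lit 299,nat_lit 302],[]],[[nat_lit 271],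
    [nat_lit 271],[nat_lit 258],[nat_lit 262,nat_lit 266],[nat_lit 261,nat_lit 265],[],[nat_lit 263,nat_lit 267],
    [nat_lit 256],[nat_lit 256],[nat_lit 350],[nat_lit 350],[nat_lit 334,nat_lit 336,nat_lit 341,nat_lit 357]],
    [[nat_lit 334,nat_lit 336,nat_lit 341,nat_lit 357],[nat_lit 334,nat_lit 336,nat_lit 341,nat_lit 357],[nat_lit 333,
    nat_lit 335],[nat_lit 333,nat_lit 335],[nat_lit 353],[nat_lit 344],[],[],[],[],[nat_lit 288,nat_lit 295],
    [nat_lit 288,nat_lit 295]],[[],[],[],[],[],[],[],[],[],[],[nat_lit 293],[nat_lit 289,nat_lit 290,nat_lit 296]],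
    [[nat_lit 289,nat_lit 290,nat_lit 296],[nat_lit 289,nat_lit 290,nat_lit 296],[nat_lit 289,nat_lit 290,
    nat_lit 296],[],[nat_lit 294],[nat_lit 291,nat_lit 292],[],[],[nat_lit 29,nat_lit 32],[nat_lit 29,nat_lit 32],
    [nat_lit 29,nat_lit 32],[nat_lit 20,nat_lit 25]],[[nat_lit 20,nat_lit 25],[],[nat_lit 26],[nat_lit 26],
    [nat_lit 26],[nat_lit 26],[nat_lit 26],[nat_lit 26],[nat_lit 34],[nat_lit 34],[],[]],[[],[],[],[],[],[nat_lit 21,
    nat_lit 23],[],[nat_lit 28],[nat_lit 28],[nat_lit 22,nat_lit 24]]]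
    (nat_lit 358) [nat_lit 0,nat_lit 1,nat_lit 2,nat_lit 3,nat_lit 4,nat_lit 5,nat_lit 6,nat_lit 7,nat_lit 8,
    nat_lit 9,nat_lit 10,nat_lit 11,nat_lit 12,nat_lit 13,nat_lit 14,nat_lit 15,nat_lit 16,nat_lit 17,nat_lit 18,
    nat_lit 19,nat_lit 20,nat_lit 21,nat_lit 22,nat_lit 23,nat_lit 24,nat_lit 25,nat_lit 26,nat_lit 27,nat_lit 28,
    nat_lit 29,nat_lit 30,nat_lit 31,nat_lit 32,nat_lit 33,nat_lit 34,nat_lit 35,nat_lit 39,nat_lit 40,nat_lit 41,
    nat_lit 42,nat_lit 43,nat_lit 45,nat_lit 46,nat_lit 47,nat_lit 48,nat_lit 49,nat_lit 50,nat_lit 51,nat_lit 52,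
    nat_lit 53,nat_lit 54,nat_lit 55,nat_lit 56,nat_lit 57,nat_lit 58,nat_lit 59,nat_lit 60,nat_lit 61,nat_lit 62,
    nat_lit 64,nat_lit 65,nat_lit 66,nat_lit 67,nat_lit 68,nat_lit 70,nat_lit 71,nat_lit 72,nat_lit 80,nat_lit 81,
    nat_lit 84,nat_lit 85,nat_lit 88,nat_lit 89,nat_lit 90,nat_lit 91,nat_lit 92,nat_lit 93,nat_lit 94,nat_lit 95,
    nat_lit 97,nat_lit 98,nat_lit 100,nat_lit 101,nat_lit 102,nat_lit 103,nat_lit 104,nat_lit 105,nat_lit 106,
    nat_lit 122,nat_lit 123,nat_lit 126,nat_lit 127,nat_lit 131,nat_lit 132,nat_lit 134,nat_lit 138,nat_lit 139,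
    nat_lit 151,nat_lit 152,nat_lit 154,nat_lit 157,nat_lit 158,nat_lit 160,nat_lit 161,nat_lit 164,nat_lit 169,
    nat_lit 183,nat_lit 187,nat_lit 188,nat_lit 190,nat_lit 195,nat_lit 199,nat_lit 216,nat_lit 220,nat_lit 227,
    nat_lit 228,nat_lit 241,nat_lit 242,nat_lit 254,nat_lit 255,nat_lit 270,nat_lit 271,nat_lit 286,nat_lit 287]
    [[[nat_lit 5],[],[nat_lit 16],[nat_lit 6],[nat_lit 12,nat_lit 14],[nat_lit 13,nat_lit 15],[nat_lit 0],
    [nat_lit 17],[],[],[nat_lit 10],[nat_lit 11],[],[],[nat_lit 1,nat_lit 3,nat_lit 7,nat_lit 9],[nat_lit 2,nat_lit 4,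
    nat_lit 8]],[[],[nat_lit 26],[nat_lit 29,nat_lit 32],[nat_lit 30,nat_lit 33],[],[],[nat_lit 34],[nat_lit 18,
    nat_lit 19,nat_lit 31,nat_lit 35],[],[],[nat_lit 27],[nat_lit 28],[nat_lit 21,nat_lit 23],[nat_lit 22,nat_lit 24],
    [],[nat_lit 20,nat_lit 25]],[[nat_lit 63,nat_lit 69],[nat_lit 44],[nat_lit 54,nat_lit 58],[nat_lit 47,nat_lit 55,
    nat_lit 59,nat_lit 66],[nat_lit 53,nat_lit 62,nat_lit 64,nat_lit 70],[nat_lit 61,nat_lit 65,nat_lit 68,
    nat_lit 71],[nat_lit 50,nat_lit 56,nat_lit 72],[nat_lit 57,nat_lit 60,nat_lit 67],[nat_lit 39,nat_lit 41,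
    nat_lit 51],[nat_lit 40,nat_lit 42,nat_lit 52],[nat_lit 45,nat_lit 48],[nat_lit 46,nat_lit 49],[nat_lit 43],[],
    [nat_lit 36,nat_lit 37],[nat_lit 38]],[[nat_lit 107,nat_lit 108],[nat_lit 109],[nat_lit 96,nat_lit 99],
    [nat_lit 97,nat_lit 100],[nat_lit 95,nat_lit 102,nat_lit 104],[nat_lit 73,nat_lit 79,nat_lit 103,nat_lit 105,
    nat_lit 106],[nat_lit 89,nat_lit 98,nat_lit 101],[],[nat_lit 77,nat_lit 80,nat_lit 91],[nat_lit 78,nat_lit 81,
    nat_lit 92,nat_lit 94],[nat_lit 88],[nat_lit 85],[],[],[nat_lit 74,nat_lit 82,nat_lit 86,nat_lit 93],[nat_lit 75,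
    nat_lit 76,nat_lit 83,nat_lit 84,nat_lit 87,nat_lit 90]],[[],[nat_lit 133,nat_lit 135],[nat_lit 120,nat_lit 125,
    nat_lit 128,nat_lit 129,nat_lit 136],[nat_lit 114,nat_lit 115,nat_lit 124,nat_lit 130],[],[],[nat_lit 131,
    nat_lit 137],[nat_lit 132,nat_lit 138],[],[],[nat_lit 117,nat_lit 122,nat_lit 126],[nat_lit 113,nat_lit 118,
    nat_lit 123,nat_lit 127],[nat_lit 110],[nat_lit 111,nat_lit 119,nat_lit 139],[nat_lit 116,nat_lit 134],
    [nat_lit 112,nat_lit 121]],[[],[nat_lit 162,nat_lit 165],[nat_lit 155,nat_lit 159,nat_lit 168],[nat_lit 143,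
    nat_lit 145,nat_lit 156,nat_lit 167],[nat_lit 150,nat_lit 163],[],[nat_lit 146,nat_lit 157,nat_lit 160],
    [nat_lit 144,nat_lit 158,nat_lit 161,nat_lit 166],[],[],[nat_lit 142,nat_lit 148,nat_lit 152,nat_lit 154],
    [nat_lit 149],[nat_lit 140],[nat_lit 141,nat_lit 169],[nat_lit 147,nat_lit 151,nat_lit 153,nat_lit 164],[]],
    [[nat_lit 170,nat_lit 180,nat_lit 194,nat_lit 196],[nat_lit 197],[],[nat_lit 179,nat_lit 186,nat_lit 189],
    [nat_lit 174,nat_lit 191,nat_lit 193,nat_lit 198],[nat_lit 185,nat_lit 192],[nat_lit 187],[nat_lit 188,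
    nat_lit 190],[nat_lit 173,nat_lit 176,nat_lit 183],[nat_lit 177],[nat_lit 181],[nat_lit 178,nat_lit 182],[],[],
    [nat_lit 175],[nat_lit 171,nat_lit 172,nat_lit 184,nat_lit 195,nat_lit 199]],[[nat_lit 224],[nat_lit 201],
    [nat_lit 217,nat_lit 218,nat_lit 229],[nat_lit 213,nat_lit 219,nat_lit 225],[nat_lit 202,nat_lit 221,nat_lit 223],
    [nat_lit 207,nat_lit 222],[nat_lit 209,nat_lit 226],[nat_lit 220],[nat_lit 205,nat_lit 214],[nat_lit 206,
    nat_lit 215,nat_lit 216],[nat_lit 211],[nat_lit 208,nat_lit 212],[],[],[nat_lit 200,nat_lit 203,nat_lit 210,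
    nat_lit 227],[nat_lit 204,nat_lit 228]],[[],[],[nat_lit 230,nat_lit 233,nat_lit 236,nat_lit 239],[nat_lit 231,
    nat_lit 234,nat_lit 237],[],[],[nat_lit 235,nat_lit 238,nat_lit 240],[nat_lit 232],[],[],[],[],[nat_lit 241],
    [nat_lit 242],[],[]],[[],[],[nat_lit 243,nat_lit 246,nat_lit 251],[nat_lit 244,nat_lit 247,nat_lit 250],[],[],
    [nat_lit 248,nat_lit 252],[nat_lit 245,nat_lit 249,nat_lit 253],[],[],[],[],[nat_lit 254],[nat_lit 255],[],[]],
    [[nat_lit 256],[nat_lit 257],[nat_lit 264],[nat_lit 261,nat_lit 265],[nat_lit 258],[nat_lit 259,nat_lit 260,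
    nat_lit 268,nat_lit 269],[nat_lit 262,nat_lit 266],[nat_lit 263,nat_lit 267],[],[],[],[],[],[],[nat_lit 270],
    [nat_lit 271]],[[nat_lit 272],[nat_lit 273],[nat_lit 277],[nat_lit 278,nat_lit 281],[nat_lit 274,nat_lit 276,
    nat_lit 282,nat_lit 284],[nat_lit 275,nat_lit 283,nat_lit 285],[nat_lit 279],[nat_lit 280],[],[],[],[],[],[],
    [nat_lit 286],[nat_lit 287]],[[nat_lit 291,nat_lit 292],[],[],[],[nat_lit 288,nat_lit 295],[nat_lit 289,
    nat_lit 290,nat_lit 296],[],[],[nat_lit 293],[nat_lit 294],[],[],[],[],[],[]],[[nat_lit 299,nat_lit 302],[],[],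
    [nat_lit 300],[nat_lit 297],[nat_lit 298],[],[],[nat_lit 304],[nat_lit 305],[],[],[],[],[],[nat_lit 301,
    nat_lit 303]],[[nat_lit 310,nat_lit 323],[nat_lit 311,nat_lit 312,nat_lit 324],[nat_lit 306,nat_lit 313,
    nat_lit 314,nat_lit 318,nat_lit 320,nat_lit 325],[nat_lit 307],[],[nat_lit 315,nat_lit 322],[nat_lit 308,
    nat_lit 330],[nat_lit 309,nat_lit 316,nat_lit 319,nat_lit 329,nat_lit 331],[],[],[nat_lit 327],[nat_lit 328],
    [nat_lit 317,nat_lit 321],[],[nat_lit 326],[]],[[],[nat_lit 337,nat_lit 338,nat_lit 346,nat_lit 351],[nat_lit 332,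
    nat_lit 340,nat_lit 342,nat_lit 345],[nat_lit 333,nat_lit 335],[nat_lit 339,nat_lit 343,nat_lit 348,nat_lit 355],
    [nat_lit 347,nat_lit 356],[nat_lit 334,nat_lit 336,nat_lit 341,nat_lit 357],[nat_lit 344],[],[],[nat_lit 353],
    [nat_lit 354],[],[],[nat_lit 349,nat_lit 352],[nat_lit 350]]]
    [[[nat_lit 0x2146040000000000000000000000000000000000000000000000000000000000000000000000000000,nat_lit 0,
    nat_lit 0,nat_lit 0x1001800000000000000000000000000000000000000000000000000000000000000000000000000000,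
    nat_lit 0x1001800000000000000000000000000000000000000000000000000000000000000000000000000000,nat_lit 0,nat_lit 0,
    nat_lit 0,nat_lit 0],[nat_lit 0x408000000000000000000000000000000000000000000000000000000000000000000000000000000,
    nat_lit 0x220000000000000000000000000000000000000000000000000000000000000000000000000000000,nat_lit 0,
    nat_lit 0x4000000000000000000000000000000000000000000000000000000000000000000000000000000000,
    nat_lit 0x4000000000000000000000000000000000000000000000000000000000000000000000000000000000,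
    nat_lit 0x10000000000000000000000000000000000000000000000000000000000000000000000000000000000,
    nat_lit 0x10000000000000000000000000000000000000000000000000000000000000000000000000000000000,
    nat_lit 0x800400000000000000000000000000000000000000000000000000000000000000000000000000000,
    nat_lit 0x800400000000000000000000000000000000000000000000000000000000000000000000000000000],
    [nat_lit 0x49818000000000000000000,nat_lit 0x140800000000000000000000000,nat_lit 0x2000000000000000000000000000,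
    nat_lit 0x24020000000000000000000000,nat_lit 0x24020000000000000000000000,nat_lit 0x12000000000000000000000000,
    nat_lit 0x12000000000000000000000000,nat_lit 0x80120000000000000000000,nat_lit 0x680000082000000000000000000],
    [nat_lit 0,nat_lit 0x500240000000000000000000,nat_lit 0x1800000000000000000000000000,
    nat_lit 0x1800000000000000000000000000,nat_lit 0x1800000000000000000000000000,nat_lit 0,nat_lit 0,nat_lit 0,
    nat_lit 0],[nat_lit 0x10000,nat_lit 276,nat_lit 276,nat_lit 0x5000,nat_lit 0x5000,nat_lit 0,nat_lit 0,nat_lit 1,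
    nat_lit 1],[nat_lit 1,nat_lit 1,nat_lit 1,nat_lit 64,nat_lit 64,nat_lit 64,nat_lit 0xa000,nat_lit 0xa000,
    nat_lit 0xa000],[nat_lit 0x400,nat_lit 0x400,nat_lit 0x400,nat_lit 0x400,nat_lit 0x20000,nat_lit 0x20000,
    nat_lit 0x20000,nat_lit 0,nat_lit 0],[nat_lit 32,nat_lit 32,nat_lit 32,nat_lit 32,nat_lit 32,nat_lit 32,nat_lit 0,
    nat_lit 0,nat_lit 0],[nat_lit 0,nat_lit 0x1008800000000000000000000000000000000000000,nat_lit 0,nat_lit 0,
    nat_lit 0x80040000000000000000000000000000000000000,nat_lit 0x80040000000000000000000000000000000000000,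
    nat_lit 0x80040000000000000000000000000000000000000,nat_lit 0x80040000000000000000000000000000000000000,
    nat_lit 0x240000000000000000000000000000000000000000]],[[nat_lit 0x240000000000000000000000000000000000000000,
    nat_lit 0x12004000000000000000000000000000000000000,nat_lit 0x12004000000000000000000000000000000000000,
    nat_lit 0x12004000000000000000000000000000000000000,nat_lit 0x12004000000000000000000000000000000000000,
    nat_lit 0x801002800000000000000000000000000000000000,nat_lit 0x801002800000000000000000000000000000000000,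
    nat_lit 0x801002800000000000000000000000000000000000,nat_lit 0x801002800000000000000000000000000000000000],
    [nat_lit 0,nat_lit 0,nat_lit 0,nat_lit 0,nat_lit 0,nat_lit 0,nat_lit 0x510400000000000000000000000000000000000,
    nat_lit 0x510400000000000000000000000000000000000,nat_lit 0x510400000000000000000000000000000000000],
    [nat_lit 0x424001000000000000000000000000000000000000,nat_lit 0x424001000000000000000000000000000000000000,
    nat_lit 0x424001000000000000000000000000000000000000,nat_lit 0x100000000000000000000000000000000000,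
    nat_lit 0x100000000000000000000000000000000000,nat_lit 0,nat_lit 0,
    nat_lit 0x20000000000000000000000000000000000000,nat_lit 0],
    [nat_lit 0x2000000200000000000000000000000000000000000,nat_lit 0x2000000200000000000000000000000000000000000,
    nat_lit 0x440000000000000,nat_lit 0x440000000000000,nat_lit 0x414020000000000000,nat_lit 0x414020000000000000,
    nat_lit 0x414020000000000000,nat_lit 0x414020000000000000,nat_lit 0x100000000000],[nat_lit 0x100000000000,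
    nat_lit 0x100000000000,nat_lit 0x40880800000000000,nat_lit 0x40880800000000000,nat_lit 0x8028000000000,
    nat_lit 0x8028000000000,nat_lit 0x8028000000000,nat_lit 0x8028000000000,nat_lit 0x922000000000000000],
    [nat_lit 0x922000000000000000,nat_lit 0x922000000000000000,nat_lit 0x80000000000,nat_lit 0x10050000000000,
    nat_lit 0x10050000000000,nat_lit 0x10050000000000,nat_lit 0x10050000000000,nat_lit 0x3000000000,
    nat_lit 0x3000000000],[nat_lit 0x2400000000000,nat_lit 0,nat_lit 0,nat_lit 0,nat_lit 0,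
    nat_lit 0x2006000000000000000000000000000000000000000000000000000000,
    nat_lit 0x2006000000000000000000000000000000000000000000000000000000,
    nat_lit 0xa0000400000000000000000000000000000000000000000000000000,
    nat_lit 0xa0000400000000000000000000000000000000000000000000000000],
    [nat_lit 0xa0000400000000000000000000000000000000000000000000000000,
    nat_lit 0xa0000400000000000000000000000000000000000000000000000000,
    nat_lit 0x200000000000000000000000000000000000000000000000000,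
    nat_lit 0x200000000000000000000000000000000000000000000000000,
    nat_lit 0x200000000000000000000000000000000000000000000000000,
    nat_lit 0x200000000000000000000000000000000000000000000000000,
    nat_lit 0x200000000000000000000000000000000000000000000000000,
    nat_lit 0x402000000000000000000000000000000000000000000000000000,
    nat_lit 0x402000000000000000000000000000000000000000000000000000],
    [nat_lit 0x40008000000000000000000000000000000000000000000000000000,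
    nat_lit 0x40008000000000000000000000000000000000000000000000000000,nat_lit 0,nat_lit 0,nat_lit 0,nat_lit 0,
    nat_lit 0x1804000000000000000000000000000000000000000000000000000,
    nat_lit 0x1804000000000000000000000000000000000000000000000000000,
    nat_lit 0x1804000000000000000000000000000000000000000000000000000]],
    [[nat_lit 0x800040900000000000000000000000000000000000000000000000000,
    nat_lit 0x800040900000000000000000000000000000000000000000000000000,
    nat_lit 0x800040900000000000000000000000000000000000000000000000000,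
    nat_lit 0x110000000000000000000000000000000000000000000000000000,
    nat_lit 0x100000000000000000000000000000000000000000000000000000000,
    nat_lit 0x100000000000000000000000000000000000000000000000000000000,nat_lit 0,nat_lit 0,
    nat_lit 0x10321000000000000000000000000000000],[nat_lit 0x2010000000000000000000000000000,nat_lit 0,nat_lit 0,
    nat_lit 0,nat_lit 0xa000000000000000000000000000000000,nat_lit 0xa000000000000000000000000000000000,
    nat_lit 0xa000000000000000000000000000000000,nat_lit 0x20800000000000000000000000000000000,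
    nat_lit 0x20800000000000000000000000000000000],[nat_lit 0x4100c0000000000000000000000000000,
    nat_lit 0x4100c0000000000000000000000000000,nat_lit 0x4100c0000000000000000000000000000,nat_lit 0,nat_lit 0,
    nat_lit 0,nat_lit 0x44200000000000000000000000000000,nat_lit 0x44200000000000000000000000000000,
    nat_lit 0x44200000000000000000000000000000],[nat_lit 0x41000000000000000000000000000000000,
    nat_lit 0x41000000000000000000000000000000000,nat_lit 0x4000000000000000000000000000,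
    nat_lit 0x4000000000000000000000000000,nat_lit 0,nat_lit 0,nat_lit 0,
    nat_lit 0x80000808000000000000000000000000000,nat_lit 0x80000808000000000000000000000000000],
    [nat_lit 0x80000808000000000000000000000000000,nat_lit 0x80000808000000000000000000000000000,
    nat_lit 0x848000000000000000000000000000000000000000000000000000000000000,nat_lit 0,nat_lit 0,nat_lit 0,nat_lit 0,
    nat_lit 0,nat_lit 0],[nat_lit 0,nat_lit 0x1100000000000000000000000000000000000000000000000000000000000000,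
    nat_lit 0x1100000000000000000000000000000000000000000000000000000000000000,
    nat_lit 0x490000000000000000000000000000000000000000000000000000000000000,
    nat_lit 0x490000000000000000000000000000000000000000000000000000000000000,
    nat_lit 0x490000000000000000000000000000000000000000000000000000000000000,
    nat_lit 0x490000000000000000000000000000000000000000000000000000000000000,nat_lit 0,nat_lit 0],[nat_lit 0,
    nat_lit 0,nat_lit 0x2220000000000000000000000000000000000000000000000000000000000000,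
    nat_lit 0x2220000000000000000000000000000000000000000000000000000000000000,
    nat_lit 0x2220000000000000000000000000000000000000000000000000000000000000,
    nat_lit 0x4000000000000000000000000000000000000000000000000000000000000000,
    nat_lit 0x4000000000000000000000000000000000000000000000000000000000000000,nat_lit 0,nat_lit 0],[nat_lit 0,
    nat_lit 0,nat_lit 0,nat_lit 0,nat_lit 0x8000000000000000000000000000000000000000000000000000000000000000,
    nat_lit 0x42800040000000000000000000000000000000000000000000,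
    nat_lit 0x42800040000000000000000000000000000000000000000000,
    nat_lit 0x42800040000000000000000000000000000000000000000000,
    nat_lit 0x20000000000000000000000000000000000000000000000000],
    [nat_lit 0x20000000000000000000000000000000000000000000000000,
    nat_lit 0x20000000000000000000000000000000000000000000000000,
    nat_lit 0x8120000000000000000000000000000000000000000000,nat_lit 0x8120000000000000000000000000000000000000000000,
    nat_lit 0x8120000000000000000000000000000000000000000000,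
    nat_lit 0x1020000000000000000000000000000000000000000000000,
    nat_lit 0x1020000000000000000000000000000000000000000000000,
    nat_lit 0x80000000000000000000000000000000000000000000,nat_lit 0x4400000000000000000000000000000000000000000000]],
    [[nat_lit 0x141400000000000000000000000000000000000000000000000000000000000000000000,
    nat_lit 0x141400000000000000000000000000000000000000000000000000000000000000000000,
    nat_lit 0x141400000000000000000000000000000000000000000000000000000000000000000000,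
    nat_lit 0x200000000000000000000000000000000000000000000000000000000000000000000,
    nat_lit 0x200000000000000000000000000000000000000000000000000000000000000000000,
    nat_lit 0x200000000000000000000000000000000000000000000000000000000000000000000,
    nat_lit 0x200000000000000000000000000000000000000000000000000000000000000000000,nat_lit 0,
    nat_lit 0x280800000000000000000000000000000000000000000000000000000000000000000000],
    [nat_lit 0x280800000000000000000000000000000000000000000000000000000000000000000000,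
    nat_lit 0x280800000000000000000000000000000000000000000000000000000000000000000000,
    nat_lit 0x400000000000000000000000000000000000000000000000000000000000000000000000,nat_lit 0,
    nat_lit 0x924000000000000000000000000000000000000000000000000000000000,nat_lit 0,nat_lit 0,nat_lit 0,nat_lit 0],
    [nat_lit 0x1480000000000000000000000000000000000000000000000000000000000,
    nat_lit 0x1480000000000000000000000000000000000000000000000000000000000,
    nat_lit 0x1480000000000000000000000000000000000000000000000000000000000,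
    nat_lit 0x248000000000000000000000000000000000000000000000000000000000,
    nat_lit 0x248000000000000000000000000000000000000000000000000000000000,
    nat_lit 0x248000000000000000000000000000000000000000000000000000000000,
    nat_lit 0x248000000000000000000000000000000000000000000000000000000000,nat_lit 0,nat_lit 0],[nat_lit 0,
    nat_lit 0x4000000000000000000000000000000000000000000000000000000000000,nat_lit 0,
    nat_lit 0xa000000000000000000000000000000000000000000000000000000000000000000000000000,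
    nat_lit 0x200000000000000000000000000000000000000000000000000000000000000000000000000,
    nat_lit 0x200000000000000000000000000000000000000000000000000000000000000000000000000,nat_lit 0,nat_lit 0,
    nat_lit 0],[nat_lit 0,nat_lit 0,
    nat_lit 0x1000000000000000000000000000000000000000000000000000000000000000000000000000,
    nat_lit 0x10000000000000000000000000000000000000000000000000000000000000000000000000000,
    nat_lit 0x10000000000000000000000000000000000000000000000000000000000000000000000000000,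
    nat_lit 0x400000000000000000000000000000000000000000000000000000000000000000000000000,
    nat_lit 0x400000000000000000000000000000000000000000000000000000000000000000000000000,
    nat_lit 0x4800000000000000000000000000000000000000000000000000000000000000000000000000,nat_lit 0],
    [nat_lit 0x80000000000000000000000000000000000000000000000000000000000000000000,
    nat_lit 0x80000000000000000000000000000000000000000000000000000000000000000000,
    nat_lit 0x40000000000000000000000000000000000000000000000000000000000000000,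
    nat_lit 0x4400000000000000000000000000000000000000000000000000000000000000000,
    nat_lit 0x2200000000000000000000000000000000000000000000000000000000000000000,nat_lit 0,
    nat_lit 0x8800000000000000000000000000000000000000000000000000000000000000000,
    nat_lit 0x10000000000000000000000000000000000000000000000000000000000000000,
    nat_lit 0x10000000000000000000000000000000000000000000000000000000000000000],
    [nat_lit 0x4000000000000000000000000000000000000000000000000000000000000000000000000000000000000000,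
    nat_lit 0x4000000000000000000000000000000000000000000000000000000000000000000000000000000000000000,
    nat_lit 0x200021400000000000000000000000000000000000000000000000000000000000000000000000000000000000,
    nat_lit 0x200021400000000000000000000000000000000000000000000000000000000000000000000000000000000000,
    nat_lit 0x200021400000000000000000000000000000000000000000000000000000000000000000000000000000000000,
    nat_lit 0xa00000000000000000000000000000000000000000000000000000000000000000000000000000000000,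
    nat_lit 0xa00000000000000000000000000000000000000000000000000000000000000000000000000000000000,
    nat_lit 0x20000000000000000000000000000000000000000000000000000000000000000000000000000000000000000,
    nat_lit 0x100000000000000000000000000000000000000000000000000000000000000000000000000000000000000],[nat_lit 0,
    nat_lit 0,nat_lit 0,nat_lit 0,
    nat_lit 0x81000000000000000000000000000000000000000000000000000000000000000000000000,
    nat_lit 0x81000000000000000000000000000000000000000000000000000000000000000000000000,nat_lit 0,nat_lit 0,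
    nat_lit 0],[nat_lit 0,nat_lit 0,nat_lit 0,nat_lit 0,nat_lit 0,nat_lit 0,nat_lit 0,
    nat_lit 0x20000000000000000000000000000000000000000000000000000000000000000000000000,
    nat_lit 0x106000000000000000000000000000000000000000000000000000000000000000000000000]],
    [[nat_lit 0x106000000000000000000000000000000000000000000000000000000000000000000000000,
    nat_lit 0x106000000000000000000000000000000000000000000000000000000000000000000000000,
    nat_lit 0x106000000000000000000000000000000000000000000000000000000000000000000000000,nat_lit 0,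
    nat_lit 0x40000000000000000000000000000000000000000000000000000000000000000000000000,
    nat_lit 0x18000000000000000000000000000000000000000000000000000000000000000000000000,nat_lit 0,nat_lit 0,
    nat_lit 0x120000000],[nat_lit 0x120000000,nat_lit 0x120000000,nat_lit 0x2100000,nat_lit 0x2100000,nat_lit 0,
    nat_lit 0x4000000,nat_lit 0x4000000,nat_lit 0x4000000,nat_lit 0x4000000],[nat_lit 0x4000000,nat_lit 0x4000000,
    nat_lit 0x400000000,nat_lit 0x400000000,nat_lit 0,nat_lit 0,nat_lit 0,nat_lit 0,nat_lit 0],[nat_lit 0,nat_lit 0,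
    nat_lit 0xa00000,nat_lit 0,nat_lit 0x10000000,nat_lit 0x10000000,nat_lit 0x1400000]]]
    [[[[nat_lit 0,nat_lit 0,nat_lit 0,nat_lit 0,
    nat_lit 0x800000000000000000000000000000000000000000000000000000000000000000000000000000,nat_lit 0,nat_lit 0,
    nat_lit 0,nat_lit 0],[nat_lit 0,
    nat_lit 0x220000000000000000000000000000000000000000000000000000000000000000000000000000000,nat_lit 0,nat_lit 0,
    nat_lit 0,nat_lit 0x10000000000000000000000000000000000000000000000000000000000000000000000000000000000,nat_lit 0,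
    nat_lit 0x800400000000000000000000000000000000000000000000000000000000000000000000000000000,
    nat_lit 0x800400000000000000000000000000000000000000000000000000000000000000000000000000000],
    [nat_lit 0x1000000000000000000000,nat_lit 0,nat_lit 0x2000000000000000000000000000,
    nat_lit 0x4000000000000000000000000,nat_lit 0x4000000000000000000000000,nat_lit 0x2000000000000000000000000,
    nat_lit 0x2000000000000000000000000,nat_lit 0x20000000000000000000,nat_lit 0],[nat_lit 0,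
    nat_lit 0x500240000000000000000000,nat_lit 0x1000000000000000000000000000,nat_lit 0,
    nat_lit 0x1000000000000000000000000000,nat_lit 0,nat_lit 0,nat_lit 0,nat_lit 0],[nat_lit 0x10000,nat_lit 272,
    nat_lit 0,nat_lit 0,nat_lit 0x5000,nat_lit 0,nat_lit 0,nat_lit 0,nat_lit 0],[nat_lit 0,nat_lit 0,nat_lit 0,
    nat_lit 0,nat_lit 0,nat_lit 0,nat_lit 0,nat_lit 0xa000,nat_lit 0],[nat_lit 0x400,nat_lit 0x400,nat_lit 0x400,
    nat_lit 0x400,nat_lit 0,nat_lit 0x20000,nat_lit 0,nat_lit 0,nat_lit 0],[nat_lit 0,nat_lit 0,nat_lit 0,nat_lit 0,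
    nat_lit 0,nat_lit 32,nat_lit 0,nat_lit 0,nat_lit 0],[nat_lit 0,nat_lit 0,nat_lit 0,nat_lit 0,
    nat_lit 0x40000000000000000000000000000000000000,nat_lit 0,nat_lit 0x40000000000000000000000000000000000000,
    nat_lit 0,nat_lit 0x200000000000000000000000000000000000000000]],
    [[nat_lit 0x200000000000000000000000000000000000000000,nat_lit 0x10000000000000000000000000000000000000000,
    nat_lit 0x10000000000000000000000000000000000000000,nat_lit 0x10000000000000000000000000000000000000000,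
    nat_lit 0x10000000000000000000000000000000000000000,nat_lit 0x800000000000000000000000000000000000000000,
    nat_lit 0x800000000000000000000000000000000000000000,nat_lit 0,nat_lit 0],[nat_lit 0,nat_lit 0,nat_lit 0,
    nat_lit 0,nat_lit 0,nat_lit 0,nat_lit 0,nat_lit 0,nat_lit 0],[nat_lit 0,
    nat_lit 0x20001000000000000000000000000000000000000,nat_lit 0,nat_lit 0,nat_lit 0,nat_lit 0,nat_lit 0,nat_lit 0,
    nat_lit 0],[nat_lit 0x2000000000000000000000000000000000000000000,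
    nat_lit 0x2000000000000000000000000000000000000000000,nat_lit 0x440000000000000,nat_lit 0,
    nat_lit 0x410000000000000000,nat_lit 0,nat_lit 0,nat_lit 0,nat_lit 0],[nat_lit 0,nat_lit 0,nat_lit 0,
    nat_lit 0x40080000000000000,nat_lit 0,nat_lit 0x8000000000,nat_lit 0,nat_lit 0x8000000000,nat_lit 0],
    [nat_lit 0x922000000000000000,nat_lit 0,nat_lit 0,nat_lit 0,nat_lit 0,nat_lit 0,nat_lit 0,nat_lit 0,
    nat_lit 0x3000000000],[nat_lit 0,nat_lit 0,nat_lit 0,nat_lit 0,nat_lit 0,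
    nat_lit 0x2006000000000000000000000000000000000000000000000000000000,nat_lit 0,nat_lit 0,nat_lit 0],[nat_lit 0,
    nat_lit 0,nat_lit 0,nat_lit 0x200000000000000000000000000000000000000000000000000,
    nat_lit 0x200000000000000000000000000000000000000000000000000,nat_lit 0,nat_lit 0,nat_lit 0,
    nat_lit 0x2000000000000000000000000000000000000000000000000000],[nat_lit 0,
    nat_lit 0x40000000000000000000000000000000000000000000000000000000,nat_lit 0,nat_lit 0,nat_lit 0,nat_lit 0,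
    nat_lit 0,nat_lit 0,nat_lit 0]],[[nat_lit 0x800000000000000000000000000000000000000000000000000000000,nat_lit 0,
    nat_lit 0x40900000000000000000000000000000000000000000000000000,nat_lit 0,nat_lit 0,nat_lit 0,nat_lit 0,nat_lit 0,
    nat_lit 0x10200000000000000000000000000000000],[nat_lit 0,nat_lit 0,nat_lit 0,nat_lit 0,
    nat_lit 0x8000000000000000000000000000000000,nat_lit 0x8000000000000000000000000000000000,
    nat_lit 0x8000000000000000000000000000000000,nat_lit 0x800000000000000000000000000000000,nat_lit 0],[nat_lit 0,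
    nat_lit 0,nat_lit 0,nat_lit 0,nat_lit 0,nat_lit 0,nat_lit 0,nat_lit 0,nat_lit 0],
    [nat_lit 0x1000000000000000000000000000000000,nat_lit 0,nat_lit 0,nat_lit 0,nat_lit 0,nat_lit 0,nat_lit 0,
    nat_lit 0x80000000000000000000000000000000000,nat_lit 0x80000000000000000000000000000000000],
    [nat_lit 0x80000000000000000000000000000000000,nat_lit 0x8000000000000000000000000000,
    nat_lit 0x48000000000000000000000000000000000000000000000000000000000000,nat_lit 0,nat_lit 0,nat_lit 0,nat_lit 0,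
    nat_lit 0,nat_lit 0],[nat_lit 0,nat_lit 0,nat_lit 0,
    nat_lit 0x480000000000000000000000000000000000000000000000000000000000000,nat_lit 0,nat_lit 0,nat_lit 0,nat_lit 0,
    nat_lit 0],[nat_lit 0,nat_lit 0,nat_lit 0,
    nat_lit 0x20000000000000000000000000000000000000000000000000000000000000,nat_lit 0,nat_lit 0,nat_lit 0,nat_lit 0,
    nat_lit 0],[nat_lit 0,nat_lit 0,nat_lit 0,nat_lit 0,nat_lit 0,
    nat_lit 0x40000000000000000000000000000000000000000000000000,nat_lit 0,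
    nat_lit 0x40000000000000000000000000000000000000000000000000,
    nat_lit 0x20000000000000000000000000000000000000000000000000],
    [nat_lit 0x20000000000000000000000000000000000000000000000000,nat_lit 0,nat_lit 0,
    nat_lit 0x20000000000000000000000000000000000000000000,nat_lit 0,nat_lit 0,nat_lit 0,nat_lit 0,nat_lit 0]],
    [[nat_lit 0x41000000000000000000000000000000000000000000000000000000000000000000000,nat_lit 0,
    nat_lit 0x41000000000000000000000000000000000000000000000000000000000000000000000,nat_lit 0,nat_lit 0,nat_lit 0,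
    nat_lit 0,nat_lit 0,nat_lit 0],[nat_lit 0,nat_lit 0,nat_lit 0,nat_lit 0,nat_lit 0,nat_lit 0,nat_lit 0,nat_lit 0,
    nat_lit 0],[nat_lit 0,nat_lit 0,nat_lit 0,nat_lit 0x240000000000000000000000000000000000000000000000000000000000,
    nat_lit 0,nat_lit 0,nat_lit 0x240000000000000000000000000000000000000000000000000000000000,nat_lit 0,nat_lit 0],
    [nat_lit 0,nat_lit 0,nat_lit 0,nat_lit 0,
    nat_lit 0x200000000000000000000000000000000000000000000000000000000000000000000000000,nat_lit 0,nat_lit 0,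
    nat_lit 0,nat_lit 0],[nat_lit 0,nat_lit 0,nat_lit 0,
    nat_lit 0x10000000000000000000000000000000000000000000000000000000000000000000000000000,
    nat_lit 0x10000000000000000000000000000000000000000000000000000000000000000000000000000,
    nat_lit 0x400000000000000000000000000000000000000000000000000000000000000000000000000,
    nat_lit 0x400000000000000000000000000000000000000000000000000000000000000000000000000,nat_lit 0,nat_lit 0],
    [nat_lit 0,nat_lit 0,nat_lit 0,nat_lit 0x4400000000000000000000000000000000000000000000000000000000000000000,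
    nat_lit 0x2000000000000000000000000000000000000000000000000000000000000000000,nat_lit 0,
    nat_lit 0x8800000000000000000000000000000000000000000000000000000000000000000,nat_lit 0,nat_lit 0],
    [nat_lit 0x4000000000000000000000000000000000000000000000000000000000000000000000000000000000000000,
    nat_lit 0x4000000000000000000000000000000000000000000000000000000000000000000000000000000000000000,
    nat_lit 0x21000000000000000000000000000000000000000000000000000000000000000000000000000000000000,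
    nat_lit 0x21000000000000000000000000000000000000000000000000000000000000000000000000000000000000,nat_lit 0,
    nat_lit 0xa00000000000000000000000000000000000000000000000000000000000000000000000000000000000,nat_lit 0,
    nat_lit 0x20000000000000000000000000000000000000000000000000000000000000000000000000000000000000000,nat_lit 0],
    [nat_lit 0,nat_lit 0,nat_lit 0,nat_lit 0,
    nat_lit 0x1000000000000000000000000000000000000000000000000000000000000000000000000,
    nat_lit 0x1000000000000000000000000000000000000000000000000000000000000000000000000,nat_lit 0,nat_lit 0,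
    nat_lit 0],[nat_lit 0,nat_lit 0,nat_lit 0,nat_lit 0,nat_lit 0,nat_lit 0,nat_lit 0,nat_lit 0,
    nat_lit 0x6000000000000000000000000000000000000000000000000000000000000000000000000]],[[nat_lit 0,
    nat_lit 0x6000000000000000000000000000000000000000000000000000000000000000000000000,nat_lit 0,nat_lit 0,
    nat_lit 0x40000000000000000000000000000000000000000000000000000000000000000000000000,
    nat_lit 0x18000000000000000000000000000000000000000000000000000000000000000000000000,nat_lit 0,nat_lit 0,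
    nat_lit 0],[nat_lit 0x20000000,nat_lit 0,nat_lit 0x2100000,nat_lit 0x2100000,nat_lit 0,nat_lit 0,nat_lit 0,
    nat_lit 0,nat_lit 0],[nat_lit 0,nat_lit 0,nat_lit 0,nat_lit 0,nat_lit 0,nat_lit 0,nat_lit 0,nat_lit 0,nat_lit 0],
    [nat_lit 0,nat_lit 0,nat_lit 0x800000,nat_lit 0,nat_lit 0x10000000,nat_lit 0x10000000,nat_lit 0]]]]
    (nat_lit 1) (nat_lit 1) (nat_lit 9)
    [[nat_lit 2,nat_lit 17,nat_lit 257,nat_lit 0x10000101,nat_lit 0x1001,nat_lit 0x10001,nat_lit 0x10010001,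
    nat_lit 0x1000001,nat_lit 0x1000002,nat_lit 0x11000001,nat_lit 0x10000001],[nat_lit 32,nat_lit 48,nat_lit 288,
    nat_lit 0x1020,nat_lit 0x10000020,nat_lit 272,nat_lit 528,nat_lit 0x1110,nat_lit 0x10110,nat_lit 0x10000110,
    nat_lit 0x1010,nat_lit 0x2010,nat_lit 0x10001010,nat_lit 0x10010,nat_lit 0x10010010,nat_lit 0x100010,
    nat_lit 0x1000010,nat_lit 0x10000010],[nat_lit 512,nat_lit 768,nat_lit 0x1200,nat_lit 0x10200,nat_lit 0x10000200,
    nat_lit 0x1100,nat_lit 0x2100,nat_lit 0x11100,nat_lit 0x10001100,nat_lit 0x10100,nat_lit 0x10010100,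
    nat_lit 0x100100,nat_lit 0x1000100,nat_lit 0x10000100,nat_lit 0x20000100],[nat_lit 0x2000,nat_lit 0x3000,
    nat_lit 0x10002000,nat_lit 0x11000,nat_lit 0x10011000,nat_lit 0x101000,nat_lit 0x1001000,nat_lit 0x10001000,
    nat_lit 0x10101000],[nat_lit 0x20000,nat_lit 0x110000,nat_lit 0x10010000],[nat_lit 0x200000,nat_lit 0x300000],
    [nat_lit 0x2000000,nat_lit 0x11000000],[nat_lit 0x20000000]]
    [.c (nat_lit 1) (nat_lit 2),.c (nat_lit 0) (nat_lit 0x2403),.c (nat_lit 1) (nat_lit 0x3000602),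
    .r (nat_lit 0xdb7) (nat_lit 11) [nat_lit 0x230000021,nat_lit 0x303030231],.c (nat_lit 0) (nat_lit 0x20403),
    .r (nat_lit 0xdb7) (nat_lit 11) [nat_lit 33,nat_lit 0x33030231],.c (nat_lit 0) (nat_lit 0x34000302),
    .c (nat_lit 0) (nat_lit 0x30333023),.c (nat_lit 1) (nat_lit 0x33333623),.c (nat_lit 1) (nat_lit 0x33333423),
    .c (nat_lit 1) (nat_lit 514),.c (nat_lit 2) (nat_lit 2),.c (nat_lit 0) (nat_lit 0x4006003),
    .c (nat_lit 0) (nat_lit 0x4006005),.c (nat_lit 0) (nat_lit 0x4024003),.c (nat_lit 0) (nat_lit 0x2004003),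
    .c (nat_lit 0) (nat_lit 0x4006005),.c (nat_lit 1) (nat_lit 0x5003802),.c (nat_lit 0) (nat_lit 0x4042005),
    .r (nat_lit 0xdb7) (nat_lit 11) [nat_lit 0x30032021,nat_lit 0x3003231],.c (nat_lit 1) (nat_lit 0x3003402),
    .c (nat_lit 2) (nat_lit 0x32002),.c (nat_lit 0) (nat_lit 0x4042003),.c (nat_lit 0) (nat_lit 0x2022003),
    .c (nat_lit 1) (nat_lit 0x30003402),.c (nat_lit 0) (nat_lit 0x32003002),.c (nat_lit 0) (nat_lit 0x2202003),
    .c (nat_lit 0) (nat_lit 0x32330323),.c (nat_lit 0) (nat_lit 0x2005),.c (nat_lit 3) (nat_lit 2),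
    .r (nat_lit 0xde0) (nat_lit 3) [nat_lit 33,nat_lit 0x230001,nat_lit 0x200040001,nat_lit 0x333373201,
    nat_lit 0x70070021,nat_lit 0x66060031],.c (nat_lit 1) (nat_lit 0x5030802),
    .r (nat_lit 0xdb7) (nat_lit 11) [nat_lit 0x250004022,nat_lit 0x305055432],
    .r (nat_lit 0xc3c) (nat_lit 10) [nat_lit 0x230000021,nat_lit 0x33333201,nat_lit 0x2000001,nat_lit 0x22001,
    nat_lit 0x303330201],.c (nat_lit 0) (nat_lit 0x4060007),.c (nat_lit 0) (nat_lit 0x80c0007),
    .r (nat_lit 0xdb7) (nat_lit 11) [nat_lit 0x30302021,nat_lit 0x3233231],.c (nat_lit 1) (nat_lit 0x3030402),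
    .r (nat_lit 0xc3c) (nat_lit 10) [nat_lit 33,nat_lit 0x33333201,nat_lit 0x2000001,nat_lit 0x22001,
    nat_lit 0x303330201],.c (nat_lit 5) (nat_lit 0x23000002),.c (nat_lit 1) (nat_lit 0x3300402),
    .c (nat_lit 0) (nat_lit 0x72777767),.c (nat_lit 1) (nat_lit 0x3000802),
    .r (nat_lit 0xdb7) (nat_lit 11) [nat_lit 0x230002021,nat_lit 0x303033231],.c (nat_lit 4) (nat_lit 2),
    .c (nat_lit 0) (nat_lit 0x4060003),.c (nat_lit 0) (nat_lit 0x2040003),.c (nat_lit 1) (nat_lit 0x30030402),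
    .c (nat_lit 0) (nat_lit 0x32030002),.c (nat_lit 0) (nat_lit 0x2220003),.c (nat_lit 0) (nat_lit 0x32303323),
    .c (nat_lit 0) (nat_lit 0x20005),.c (nat_lit 1) (nat_lit 0x220403),.c (nat_lit 5) (nat_lit 2),
    .c (nat_lit 0) (nat_lit 0x32300002),.r (nat_lit 0xdb7) (nat_lit 11) [nat_lit 0x2021,nat_lit 0x33033231],
    .c (nat_lit 6) (nat_lit 2),.c (nat_lit 0) (nat_lit 0xd06004),.c (nat_lit 7) (nat_lit 2),
    .c (nat_lit 0) (nat_lit 0x30333323),.c (nat_lit 8) (nat_lit 2)]]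

/-- nodes -/
noncomputable def rD8k_8_2 : List RJ :=
  [.s (nat_lit 13) (nat_lit 0x4b0) (nat_lit 4) (nat_lit 0x23100000231000001fa000001fa0000021300000213000001b4000001b4000001be000001be00000204000002040000020e0000020e000001e6000001e6) (nat_lit 0x37000000370000001e0000001e0000007d0000007d00000073000000730000002d0000002d00000023000000230000004b0000004b)
    (nat_lit 0x10e88c42641fa12788c43681b40df06f84802220a808383cc1b411888743901fa136893c3681b40df06f84f825e10708383cc1e60fd07e830e1c30ee08382fa123096861c39a1cd0eb857c3861af0e404c83c218711b07702fa17d0c387843d61eb0be875c32218712788c43b820e0fa875c27813c0c106803cc1e610c0748520222136893c46c1dc0fa87d432c1960d006801b01e60f807c03901140da06d02fa1230cb04f026e1370a0850430e1871228a7c25a1690da06d02fa17d0cb04f026e1370b9850430e1870ff89642d21370df06f83c21870d006802821410a5852c19215f0e6866c2e61050df06f830e12d0d006082e61410a5852c322191104866c2aa17312f08883d61cd0f3079830e1870c8857c3ae1d70f0878437214b13e09003d61cd06c079830e1870c883243ae1d70f087843721b910708383ae15f0f807484b229f0cd866c3c21e10f587ac30e1c310705402fa1d70f808603fe24510487343c21e10b487ac3ea1c30f306d030e1af08a088826e1690b9841437214b0e1870c4b221d0f307983221c30e40a402d212d0aa85cc3721b90fa861c336259)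
    (nat_lit 0x10e92c09604b025812c09604b025812c09604b025812c09604b011888749604b025812c09604b025812c09604b025812c09604b0099072030e4b025812c09604b025812c09604b025812c09604b00fd07e838618725812c09604b025812c09604b025812c09604b012789b43b82360fa92c09604b025812c09604b025812c09604b0118893c41c1dc0eb87d49604b025812c09604b025812c09604b00da06d02fa17d09e065826e4b025812c09604b025812c09604b00da06d024617d09e065826e13725812c09604b025812c09604b00df06f825a1870c106802821730a592c09604b025812c09604b00df06f830e1e10d006802821410a5852c9604b025812c09604b012009f039a1eb0f3036030e18706486443ae4b025812c09604b0111097839a1eb0f3079830e1870af86443ae1d725812c09604b00a808383ae17d10c07c048a1ff0e688243c21e10f592c09604b010708382be1d70e907c053e2590cd866c3c21e10f587ac9604b00f30798386191134872025a1690b985543721b90c387d44b24b00da079835e18711104502d213708285cc2961b90e1870c43a259)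
    (nat_lit 4) (nat_lit 61)
    [[nat_lit 0,nat_lit 2,nat_lit 6],[nat_lit 0,nat_lit 2,nat_lit 7],[nat_lit 0,nat_lit 3,nat_lit 7],[nat_lit 0,
    nat_lit 8,nat_lit 4,nat_lit 11],[nat_lit 0,nat_lit 8,nat_lit 10,nat_lit 5],[nat_lit 0,nat_lit 8,nat_lit 10,
    nat_lit 10],[nat_lit 0,nat_lit 8,nat_lit 15],[nat_lit 0,nat_lit 9,nat_lit 15],[nat_lit 0,nat_lit 11,nat_lit 8,
    nat_lit 10],[nat_lit 0,nat_lit 11,nat_lit 9,nat_lit 10],[nat_lit 0,nat_lit 13,nat_lit 7,nat_lit 5],[nat_lit 1,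
    nat_lit 4,nat_lit 6,nat_lit 12],[nat_lit 1,nat_lit 4,nat_lit 11,nat_lit 9],[nat_lit 1,nat_lit 6,nat_lit 2],
    [nat_lit 1,nat_lit 6,nat_lit 3],[nat_lit 1,nat_lit 7,nat_lit 3],[nat_lit 1,nat_lit 10,nat_lit 5,nat_lit 9],
    [nat_lit 1,nat_lit 11,nat_lit 8,nat_lit 10],[nat_lit 1,nat_lit 11,nat_lit 9,nat_lit 10],[nat_lit 1,nat_lit 11,
    nat_lit 11,nat_lit 9],[nat_lit 1,nat_lit 14,nat_lit 8],[nat_lit 1,nat_lit 14,nat_lit 9],[nat_lit 2,nat_lit 8],
    [nat_lit 2,nat_lit 9],[nat_lit 3,nat_lit 8],[nat_lit 3,nat_lit 9],[nat_lit 4,nat_lit 4,nat_lit 11],[nat_lit 4,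
    nat_lit 5,nat_lit 10],[nat_lit 4,nat_lit 5,nat_lit 11],[nat_lit 4,nat_lit 9,nat_lit 12],[nat_lit 4,nat_lit 9,
    nat_lit 13],[nat_lit 4,nat_lit 10,nat_lit 5],[nat_lit 4,nat_lit 11,nat_lit 4],[nat_lit 4,nat_lit 11,nat_lit 5],
    [nat_lit 4,nat_lit 11,nat_lit 10],[nat_lit 4,nat_lit 11,nat_lit 11],[nat_lit 4,nat_lit 12,nat_lit 8],[nat_lit 4,
    nat_lit 12,nat_lit 9],[nat_lit 4,nat_lit 13,nat_lit 8],[nat_lit 4,nat_lit 14],[nat_lit 4,nat_lit 15],[nat_lit 5,
    nat_lit 5,nat_lit 10],[nat_lit 5,nat_lit 8,nat_lit 13],[nat_lit 5,nat_lit 9,nat_lit 12],[nat_lit 5,nat_lit 9,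
    nat_lit 13],[nat_lit 5,nat_lit 10,nat_lit 5],[nat_lit 5,nat_lit 10,nat_lit 10],[nat_lit 5,nat_lit 11,nat_lit 10],
    [nat_lit 5,nat_lit 12,nat_lit 8],[nat_lit 5,nat_lit 13,nat_lit 8],[nat_lit 5,nat_lit 14],[nat_lit 5,nat_lit 15],
    [nat_lit 6,nat_lit 12,nat_lit 12],[nat_lit 6,nat_lit 12,nat_lit 13],[nat_lit 6,nat_lit 13,nat_lit 13],[nat_lit 7,
    nat_lit 12,nat_lit 12],[nat_lit 7,nat_lit 12,nat_lit 13],[nat_lit 7,nat_lit 13,nat_lit 13],[nat_lit 8,nat_lit 10,
    nat_lit 12],[nat_lit 8,nat_lit 10,nat_lit 13],[nat_lit 8,nat_lit 11,nat_lit 13],[nat_lit 8,nat_lit 12,nat_lit 10],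
    [nat_lit 8,nat_lit 12,nat_lit 11],[nat_lit 8,nat_lit 13,nat_lit 11],[nat_lit 9,nat_lit 10,nat_lit 12],[nat_lit 9,
    nat_lit 10,nat_lit 13],[nat_lit 9,nat_lit 11,nat_lit 13],[nat_lit 9,nat_lit 12,nat_lit 10],[nat_lit 9,nat_lit 12,
    nat_lit 11],[nat_lit 9,nat_lit 13,nat_lit 11],[nat_lit 10,nat_lit 10,nat_lit 10],[nat_lit 10,nat_lit 10,
    nat_lit 11],[nat_lit 10,nat_lit 11,nat_lit 10],[nat_lit 10,nat_lit 11,nat_lit 11],[nat_lit 10,nat_lit 14],
    [nat_lit 10,nat_lit 15],[nat_lit 11,nat_lit 11,nat_lit 11],[nat_lit 11,nat_lit 14],[nat_lit 11,nat_lit 15]]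
    [nat_lit 0x1026,nat_lit 0x1027,nat_lit 0x1037,nat_lit 0x1084b,nat_lit 0x108a5,nat_lit 0x108aa,nat_lit 0x108f,
    nat_lit 0x109f,nat_lit 0x10b8a,nat_lit 0x10b9a,nat_lit 0x10d75,nat_lit 0x1146c,nat_lit 0x114b9,nat_lit 0x1162,
    nat_lit 0x1163,nat_lit 0x1173,nat_lit 0x11a59,nat_lit 0x11b8a,nat_lit 0x11b9a,nat_lit 0x11bb9,nat_lit 0x11e8,
    nat_lit 0x11e9,nat_lit 296,nat_lit 297,nat_lit 312,nat_lit 313,nat_lit 0x144b,nat_lit 0x145a,nat_lit 0x145b,
    nat_lit 0x149c,nat_lit 0x149d,nat_lit 0x14a5,nat_lit 0x14b4,nat_lit 0x14b5,nat_lit 0x14ba,nat_lit 0x14bb,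
    nat_lit 0x14c8,nat_lit 0x14c9,nat_lit 0x14d8,nat_lit 334,nat_lit 335,nat_lit 0x155a,nat_lit 0x158d,nat_lit 0x159c,
    nat_lit 0x159d,nat_lit 0x15a5,nat_lit 0x15aa,nat_lit 0x15ba,nat_lit 0x15c8,nat_lit 0x15d8,nat_lit 350,nat_lit 351,
    nat_lit 0x16cc,nat_lit 0x16cd,nat_lit 0x16dd,nat_lit 0x17cc,nat_lit 0x17cd,nat_lit 0x17dd,nat_lit 0x18ac,
    nat_lit 0x18ad,nat_lit 0x18bd,nat_lit 0x18ca,nat_lit 0x18cb,nat_lit 0x18db,nat_lit 0x19ac,nat_lit 0x19ad,
    nat_lit 0x19bd,nat_lit 0x19ca,nat_lit 0x19cb,nat_lit 0x19db,nat_lit 0x1aaa,nat_lit 0x1aab,nat_lit 0x1aba,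
    nat_lit 0x1abb,nat_lit 430,nat_lit 431,nat_lit 0x1bbb,nat_lit 446,nat_lit 447]
    [[[nat_lit 0,nat_lit 2,nat_lit 6],[nat_lit 0,nat_lit 2,nat_lit 7],[nat_lit 0,nat_lit 3,nat_lit 7],[nat_lit 0,
    nat_lit 8,nat_lit 4,nat_lit 11],[nat_lit 0,nat_lit 8,nat_lit 10,nat_lit 5],[nat_lit 0,nat_lit 8,nat_lit 10,
    nat_lit 10],[nat_lit 0,nat_lit 8,nat_lit 15],[nat_lit 0,nat_lit 9,nat_lit 15],[nat_lit 0,nat_lit 11,nat_lit 8,
    nat_lit 10],[nat_lit 0,nat_lit 11,nat_lit 9,nat_lit 10],[nat_lit 0,nat_lit 13,nat_lit 7,nat_lit 5],[nat_lit 1,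
    nat_lit 4,nat_lit 6,nat_lit 12]],[[nat_lit 1,nat_lit 4,nat_lit 11,nat_lit 9],[nat_lit 1,nat_lit 6,nat_lit 2],
    [nat_lit 1,nat_lit 6,nat_lit 3],[nat_lit 1,nat_lit 7,nat_lit 3],[nat_lit 1,nat_lit 10,nat_lit 5,nat_lit 9],
    [nat_lit 1,nat_lit 11,nat_lit 8,nat_lit 10],[nat_lit 1,nat_lit 11,nat_lit 9,nat_lit 10],[nat_lit 1,nat_lit 11,
    nat_lit 11,nat_lit 9],[nat_lit 1,nat_lit 14,nat_lit 8],[nat_lit 1,nat_lit 14,nat_lit 9],[nat_lit 2,nat_lit 1,
    nat_lit 6],[nat_lit 2,nat_lit 6,nat_lit 0]],[[nat_lit 2,nat_lit 7,nat_lit 0],[nat_lit 2,nat_lit 8],[nat_lit 2,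
    nat_lit 9],[nat_lit 3,nat_lit 1,nat_lit 6],[nat_lit 3,nat_lit 1,nat_lit 7],[nat_lit 3,nat_lit 7,nat_lit 0],
    [nat_lit 3,nat_lit 8],[nat_lit 3,nat_lit 9],[nat_lit 4,nat_lit 4,nat_lit 11],[nat_lit 4,nat_lit 5,nat_lit 10],
    [nat_lit 4,nat_lit 5,nat_lit 11],[nat_lit 4,nat_lit 6,nat_lit 12,nat_lit 1]],[[nat_lit 4,nat_lit 9,nat_lit 12],
    [nat_lit 4,nat_lit 9,nat_lit 13],[nat_lit 4,nat_lit 10,nat_lit 5],[nat_lit 4,nat_lit 11,nat_lit 0,nat_lit 8],
    [nat_lit 4,nat_lit 11,nat_lit 4],[nat_lit 4,nat_lit 11,nat_lit 5],[nat_lit 4,nat_lit 11,nat_lit 9,nat_lit 1],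
    [nat_lit 4,nat_lit 11,nat_lit 10],[nat_lit 4,nat_lit 11,nat_lit 11],[nat_lit 4,nat_lit 12,nat_lit 8],[nat_lit 4,
    nat_lit 12,nat_lit 9],[nat_lit 4,nat_lit 13,nat_lit 8]],[[nat_lit 4,nat_lit 14],[nat_lit 4,nat_lit 15],[nat_lit 5,
    nat_lit 0,nat_lit 8,nat_lit 10],[nat_lit 5,nat_lit 0,nat_lit 13,nat_lit 7],[nat_lit 5,nat_lit 4,nat_lit 10],
    [nat_lit 5,nat_lit 4,nat_lit 11],[nat_lit 5,nat_lit 5,nat_lit 10],[nat_lit 5,nat_lit 8,nat_lit 13],[nat_lit 5,
    nat_lit 9,nat_lit 1,nat_lit 10],[nat_lit 5,nat_lit 9,nat_lit 12],[nat_lit 5,nat_lit 9,nat_lit 13],[nat_lit 5,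
    nat_lit 10,nat_lit 4]],[[nat_lit 5,nat_lit 10,nat_lit 5],[nat_lit 5,nat_lit 10,nat_lit 10],[nat_lit 5,nat_lit 11,
    nat_lit 4],[nat_lit 5,nat_lit 11,nat_lit 10],[nat_lit 5,nat_lit 12,nat_lit 8],[nat_lit 5,nat_lit 13,nat_lit 8],
    [nat_lit 5,nat_lit 14],[nat_lit 5,nat_lit 15],[nat_lit 6,nat_lit 0,nat_lit 2],[nat_lit 6,nat_lit 2,nat_lit 1],
    [nat_lit 6,nat_lit 3,nat_lit 1],[nat_lit 6,nat_lit 12,nat_lit 1,nat_lit 4]],[[nat_lit 6,nat_lit 12,nat_lit 12],
    [nat_lit 6,nat_lit 12,nat_lit 13],[nat_lit 6,nat_lit 13,nat_lit 13],[nat_lit 7,nat_lit 0,nat_lit 2],[nat_lit 7,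
    nat_lit 0,nat_lit 3],[nat_lit 7,nat_lit 3,nat_lit 1],[nat_lit 7,nat_lit 5,nat_lit 0,nat_lit 13],[nat_lit 7,
    nat_lit 12,nat_lit 12],[nat_lit 7,nat_lit 12,nat_lit 13],[nat_lit 7,nat_lit 13,nat_lit 13],[nat_lit 8,nat_lit 1,
    nat_lit 14],[nat_lit 8,nat_lit 2]],[[nat_lit 8,nat_lit 3],[nat_lit 8,nat_lit 4,nat_lit 11,nat_lit 0],[nat_lit 8,
    nat_lit 4,nat_lit 12],[nat_lit 8,nat_lit 4,nat_lit 13],[nat_lit 8,nat_lit 5,nat_lit 12],[nat_lit 8,nat_lit 5,
    nat_lit 13],[nat_lit 8,nat_lit 10,nat_lit 0,nat_lit 11],[nat_lit 8,nat_lit 10,nat_lit 1,nat_lit 11],[nat_lit 8,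
    nat_lit 10,nat_lit 5,nat_lit 0],[nat_lit 8,nat_lit 10,nat_lit 10,nat_lit 0],[nat_lit 8,nat_lit 10,nat_lit 12],
    [nat_lit 8,nat_lit 10,nat_lit 13]],[[nat_lit 8,nat_lit 11,nat_lit 13],[nat_lit 8,nat_lit 12,nat_lit 10],
    [nat_lit 8,nat_lit 12,nat_lit 11],[nat_lit 8,nat_lit 13,nat_lit 5],[nat_lit 8,nat_lit 13,nat_lit 11],[nat_lit 8,
    nat_lit 15,nat_lit 0],[nat_lit 9,nat_lit 1,nat_lit 4,nat_lit 11],[nat_lit 9,nat_lit 1,nat_lit 10,nat_lit 5],
    [nat_lit 9,nat_lit 1,nat_lit 11,nat_lit 11],[nat_lit 9,nat_lit 1,nat_lit 14],[nat_lit 9,nat_lit 2],[nat_lit 9,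
    nat_lit 3]],[[nat_lit 9,nat_lit 4,nat_lit 12],[nat_lit 9,nat_lit 10,nat_lit 0,nat_lit 11],[nat_lit 9,nat_lit 10,
    nat_lit 1,nat_lit 11],[nat_lit 9,nat_lit 10,nat_lit 12],[nat_lit 9,nat_lit 10,nat_lit 13],[nat_lit 9,nat_lit 11,
    nat_lit 13],[nat_lit 9,nat_lit 12,nat_lit 4],[nat_lit 9,nat_lit 12,nat_lit 5],[nat_lit 9,nat_lit 12,nat_lit 10],
    [nat_lit 9,nat_lit 12,nat_lit 11],[nat_lit 9,nat_lit 13,nat_lit 4],[nat_lit 9,nat_lit 13,nat_lit 5]],[[nat_lit 9,
    nat_lit 13,nat_lit 11],[nat_lit 9,nat_lit 15,nat_lit 0],[nat_lit 10,nat_lit 0,nat_lit 8,nat_lit 10],[nat_lit 10,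
    nat_lit 0,nat_lit 11,nat_lit 8],[nat_lit 10,nat_lit 0,nat_lit 11,nat_lit 9],[nat_lit 10,nat_lit 1,nat_lit 11,
    nat_lit 8],[nat_lit 10,nat_lit 1,nat_lit 11,nat_lit 9],[nat_lit 10,nat_lit 4,nat_lit 5],[nat_lit 10,nat_lit 4,
    nat_lit 11],[nat_lit 10,nat_lit 5,nat_lit 0,nat_lit 8],[nat_lit 10,nat_lit 5,nat_lit 4],[nat_lit 10,nat_lit 5,
    nat_lit 5]],[[nat_lit 10,nat_lit 5,nat_lit 9,nat_lit 1],[nat_lit 10,nat_lit 5,nat_lit 10],[nat_lit 10,nat_lit 5,
    nat_lit 11],[nat_lit 10,nat_lit 8,nat_lit 12],[nat_lit 10,nat_lit 9,nat_lit 12],[nat_lit 10,nat_lit 10,nat_lit 0,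
    nat_lit 8],[nat_lit 10,nat_lit 10,nat_lit 5],[nat_lit 10,nat_lit 10,nat_lit 10],[nat_lit 10,nat_lit 10,
    nat_lit 11],[nat_lit 10,nat_lit 11,nat_lit 10],[nat_lit 10,nat_lit 11,nat_lit 11],[nat_lit 10,nat_lit 12,
    nat_lit 8]],[[nat_lit 10,nat_lit 12,nat_lit 9],[nat_lit 10,nat_lit 13,nat_lit 8],[nat_lit 10,nat_lit 13,
    nat_lit 9],[nat_lit 10,nat_lit 14],[nat_lit 10,nat_lit 15],[nat_lit 11,nat_lit 0,nat_lit 8,nat_lit 4],[nat_lit 11,
    nat_lit 4,nat_lit 4],[nat_lit 11,nat_lit 4,nat_lit 5],[nat_lit 11,nat_lit 4,nat_lit 11],[nat_lit 11,nat_lit 5,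
    nat_lit 4],[nat_lit 11,nat_lit 8,nat_lit 10,nat_lit 0],[nat_lit 11,nat_lit 8,nat_lit 10,nat_lit 1]],[[nat_lit 11,
    nat_lit 8,nat_lit 12],[nat_lit 11,nat_lit 8,nat_lit 13],[nat_lit 11,nat_lit 9,nat_lit 1,nat_lit 4],[nat_lit 11,
    nat_lit 9,nat_lit 1,nat_lit 11],[nat_lit 11,nat_lit 9,nat_lit 10,nat_lit 0],[nat_lit 11,nat_lit 9,nat_lit 10,
    nat_lit 1],[nat_lit 11,nat_lit 9,nat_lit 12],[nat_lit 11,nat_lit 9,nat_lit 13],[nat_lit 11,nat_lit 10,nat_lit 4],
    [nat_lit 11,nat_lit 10,nat_lit 5],[nat_lit 11,nat_lit 10,nat_lit 10],[nat_lit 11,nat_lit 10,nat_lit 11]],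
    [[nat_lit 11,nat_lit 11,nat_lit 4],[nat_lit 11,nat_lit 11,nat_lit 9,nat_lit 1],[nat_lit 11,nat_lit 11,nat_lit 10],
    [nat_lit 11,nat_lit 11,nat_lit 11],[nat_lit 11,nat_lit 13,nat_lit 8],[nat_lit 11,nat_lit 13,nat_lit 9],
    [nat_lit 11,nat_lit 14],[nat_lit 11,nat_lit 15],[nat_lit 12,nat_lit 1,nat_lit 4,nat_lit 6],[nat_lit 12,nat_lit 4,
    nat_lit 9],[nat_lit 12,nat_lit 5,nat_lit 9],[nat_lit 12,nat_lit 6,nat_lit 12]],[[nat_lit 12,nat_lit 7,nat_lit 12],
    [nat_lit 12,nat_lit 8,nat_lit 4],[nat_lit 12,nat_lit 8,nat_lit 5],[nat_lit 12,nat_lit 8,nat_lit 10],[nat_lit 12,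
    nat_lit 9,nat_lit 4],[nat_lit 12,nat_lit 9,nat_lit 10],[nat_lit 12,nat_lit 10,nat_lit 8],[nat_lit 12,nat_lit 10,
    nat_lit 9],[nat_lit 12,nat_lit 11,nat_lit 8],[nat_lit 12,nat_lit 11,nat_lit 9],[nat_lit 12,nat_lit 12,nat_lit 6],
    [nat_lit 12,nat_lit 12,nat_lit 7]],[[nat_lit 12,nat_lit 13,nat_lit 6],[nat_lit 12,nat_lit 13,nat_lit 7],
    [nat_lit 13,nat_lit 4,nat_lit 9],[nat_lit 13,nat_lit 5,nat_lit 8],[nat_lit 13,nat_lit 5,nat_lit 9],[nat_lit 13,
    nat_lit 6,nat_lit 12],[nat_lit 13,nat_lit 6,nat_lit 13],[nat_lit 13,nat_lit 7,nat_lit 5,nat_lit 0],[nat_lit 13,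
    nat_lit 7,nat_lit 12],[nat_lit 13,nat_lit 7,nat_lit 13],[nat_lit 13,nat_lit 8,nat_lit 4],[nat_lit 13,nat_lit 8,
    nat_lit 5]],[[nat_lit 13,nat_lit 8,nat_lit 10],[nat_lit 13,nat_lit 8,nat_lit 11],[nat_lit 13,nat_lit 9,
    nat_lit 10],[nat_lit 13,nat_lit 9,nat_lit 11],[nat_lit 13,nat_lit 11,nat_lit 8],[nat_lit 13,nat_lit 11,nat_lit 9],
    [nat_lit 13,nat_lit 13,nat_lit 6],[nat_lit 13,nat_lit 13,nat_lit 7],[nat_lit 14,nat_lit 4],[nat_lit 14,nat_lit 5],
    [nat_lit 14,nat_lit 8,nat_lit 1],[nat_lit 14,nat_lit 9,nat_lit 1]],[[nat_lit 14,nat_lit 10],[nat_lit 14,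
    nat_lit 11],[nat_lit 15,nat_lit 0,nat_lit 8],[nat_lit 15,nat_lit 0,nat_lit 9],[nat_lit 15,nat_lit 4],[nat_lit 15,
    nat_lit 5],[nat_lit 15,nat_lit 10],[nat_lit 15,nat_lit 11]]]
    [[nat_lit 23,nat_lit 24,nat_lit 29,nat_lit 85,nat_lit 92,nat_lit 93,nat_lit 101,nat_lit 121,nat_lit 154,
    nat_lit 160,nat_lit 199,nat_lit 35],[nat_lit 42,nat_lit 69,nat_lit 70,nat_lit 77,nat_lit 132,nat_lit 155,
    nat_lit 161,nat_lit 169,nat_lit 214,nat_lit 215,nat_lit 13,nat_lit 68],[nat_lit 75,nat_lit 83,nat_lit 106,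
    nat_lit 14,nat_lit 15,nat_lit 76,nat_lit 84,nat_lit 107,nat_lit 40,nat_lit 59,nat_lit 62,nat_lit 71],[nat_lit 114,
    nat_lit 118,nat_lit 130,nat_lit 149,nat_lit 150,nat_lit 153,nat_lit 158,nat_lit 164,nat_lit 168,nat_lit 181,
    nat_lit 184,nat_lit 202],[nat_lit 212,nat_lit 220,nat_lit 4,nat_lit 10,nat_lit 38,nat_lit 41,nat_lit 60,
    nat_lit 99,nat_lit 103,nat_lit 115,nat_lit 119,nat_lit 127],[nat_lit 131,nat_lit 138,nat_lit 151,nat_lit 165,
    nat_lit 182,nat_lit 203,nat_lit 213,nat_lit 221,nat_lit 0,nat_lit 22,nat_lit 27,nat_lit 176],[nat_lit 190,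
    nat_lit 192,nat_lit 210,nat_lit 1,nat_lit 2,nat_lit 28,nat_lit 51,nat_lit 191,nat_lit 193,nat_lit 211,nat_lit 20,
    nat_lit 25],[nat_lit 30,nat_lit 39,nat_lit 45,nat_lit 47,nat_lit 64,nat_lit 65,nat_lit 123,nat_lit 125,
    nat_lit 129,nat_lit 137,nat_lit 143,nat_lit 145],[nat_lit 172,nat_lit 186,nat_lit 188,nat_lit 195,nat_lit 208,
    nat_lit 218,nat_lit 12,nat_lit 16,nat_lit 19,nat_lit 21,nat_lit 26,nat_lit 31],[nat_lit 46,nat_lit 124,
    nat_lit 126,nat_lit 144,nat_lit 146,nat_lit 173,nat_lit 177,nat_lit 178,nat_lit 187,nat_lit 189,nat_lit 194,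
    nat_lit 196],[nat_lit 209,nat_lit 219,nat_lit 5,nat_lit 8,nat_lit 9,nat_lit 17,nat_lit 18,nat_lit 33,nat_lit 43,
    nat_lit 50,nat_lit 52,nat_lit 54],[nat_lit 56,nat_lit 61,nat_lit 63,nat_lit 97,nat_lit 116,nat_lit 122,
    nat_lit 133,nat_lit 139,nat_lit 141,nat_lit 166,nat_lit 170,nat_lit 183],[nat_lit 185,nat_lit 204,nat_lit 206,
    nat_lit 216,nat_lit 222,nat_lit 3,nat_lit 32,nat_lit 34,nat_lit 44,nat_lit 53,nat_lit 90,nat_lit 91],[nat_lit 98,
    nat_lit 100,nat_lit 102,nat_lit 104,nat_lit 109,nat_lit 110,nat_lit 117,nat_lit 120,nat_lit 128,nat_lit 134,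
    nat_lit 140,nat_lit 142],[nat_lit 152,nat_lit 159,nat_lit 167,nat_lit 171,nat_lit 205,nat_lit 207,nat_lit 217,
    nat_lit 223,nat_lit 11,nat_lit 36,nat_lit 57,nat_lit 72],[nat_lit 79,nat_lit 86,nat_lit 88,nat_lit 94,nat_lit 108,
    nat_lit 111,nat_lit 135,nat_lit 136,nat_lit 156,nat_lit 162,nat_lit 179,nat_lit 180],[nat_lit 197,nat_lit 200,
    nat_lit 37,nat_lit 55,nat_lit 58,nat_lit 73,nat_lit 74,nat_lit 78,nat_lit 80,nat_lit 81,nat_lit 87,nat_lit 89],
    [nat_lit 95,nat_lit 96,nat_lit 112,nat_lit 113,nat_lit 157,nat_lit 163,nat_lit 198,nat_lit 201,nat_lit 48,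
    nat_lit 66,nat_lit 82,nat_lit 105],[nat_lit 147,nat_lit 174,nat_lit 6,nat_lit 7,nat_lit 49,nat_lit 67,nat_lit 148,
    nat_lit 175]]
    [[nat_lit 68,nat_lit 75,nat_lit 76,nat_lit 149,nat_lit 50,nat_lit 122,nat_lit 218,nat_lit 219,nat_lit 123,
    nat_lit 124,nat_lit 51,nat_lit 176],[nat_lit 102,nat_lit 22,nat_lit 27,nat_lit 28,nat_lit 103,nat_lit 125,
    nat_lit 126,nat_lit 104,nat_lit 82,nat_lit 105,nat_lit 69,nat_lit 0],[nat_lit 1,nat_lit 83,nat_lit 106,nat_lit 70,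
    nat_lit 77,nat_lit 2,nat_lit 84,nat_lit 107,nat_lit 150,nat_lit 127,nat_lit 151,nat_lit 11],[nat_lit 177,
    nat_lit 194,nat_lit 52,nat_lit 85,nat_lit 32,nat_lit 53,nat_lit 12,nat_lit 128,nat_lit 152,nat_lit 86,nat_lit 108,
    nat_lit 87],[nat_lit 212,nat_lit 220,nat_lit 129,nat_lit 78,nat_lit 130,nat_lit 153,nat_lit 131,nat_lit 195,
    nat_lit 132,nat_lit 178,nat_lit 196,nat_lit 33],[nat_lit 54,nat_lit 133,nat_lit 34,nat_lit 134,nat_lit 88,
    nat_lit 89,nat_lit 213,nat_lit 221,nat_lit 23,nat_lit 13,nat_lit 14,nat_lit 35],[nat_lit 179,nat_lit 197,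
    nat_lit 198,nat_lit 24,nat_lit 29,nat_lit 15,nat_lit 199,nat_lit 180,nat_lit 200,nat_lit 201,nat_lit 214,
    nat_lit 25],[nat_lit 30,nat_lit 3,nat_lit 181,nat_lit 202,nat_lit 182,nat_lit 203,nat_lit 154,nat_lit 155,
    nat_lit 4,nat_lit 5,nat_lit 183,nat_lit 204],[nat_lit 205,nat_lit 135,nat_lit 156,nat_lit 55,nat_lit 157,
    nat_lit 6,nat_lit 158,nat_lit 56,nat_lit 159,nat_lit 215,nat_lit 26,nat_lit 31],[nat_lit 184,nat_lit 160,
    nat_lit 161,nat_lit 185,nat_lit 206,nat_lit 207,nat_lit 36,nat_lit 57,nat_lit 136,nat_lit 162,nat_lit 37,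
    nat_lit 58],[nat_lit 163,nat_lit 7,nat_lit 137,nat_lit 90,nat_lit 109,nat_lit 91,nat_lit 110,nat_lit 59,
    nat_lit 164,nat_lit 92,nat_lit 38,nat_lit 60],[nat_lit 16,nat_lit 138,nat_lit 165,nat_lit 186,nat_lit 187,
    nat_lit 93,nat_lit 61,nat_lit 139,nat_lit 166,nat_lit 140,nat_lit 167,nat_lit 94],[nat_lit 111,nat_lit 95,
    nat_lit 112,nat_lit 216,nat_lit 222,nat_lit 39,nat_lit 40,nat_lit 62,nat_lit 168,nat_lit 41,nat_lit 8,nat_lit 17],
    [nat_lit 188,nat_lit 208,nat_lit 42,nat_lit 169,nat_lit 9,nat_lit 18,nat_lit 189,nat_lit 209,nat_lit 43,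
    nat_lit 63,nat_lit 141,nat_lit 170],[nat_lit 44,nat_lit 19,nat_lit 142,nat_lit 171,nat_lit 96,nat_lit 113,
    nat_lit 217,nat_lit 223,nat_lit 71,nat_lit 114,nat_lit 115,nat_lit 190],[nat_lit 191,nat_lit 45,nat_lit 64,
    nat_lit 143,nat_lit 46,nat_lit 144,nat_lit 97,nat_lit 116,nat_lit 98,nat_lit 117,nat_lit 72,nat_lit 79],
    [nat_lit 73,nat_lit 80,nat_lit 118,nat_lit 99,nat_lit 119,nat_lit 192,nat_lit 210,nat_lit 10,nat_lit 193,
    nat_lit 211,nat_lit 47,nat_lit 65],[nat_lit 145,nat_lit 172,nat_lit 146,nat_lit 173,nat_lit 100,nat_lit 120,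
    nat_lit 74,nat_lit 81,nat_lit 48,nat_lit 66,nat_lit 20,nat_lit 21],[nat_lit 147,nat_lit 174,nat_lit 101,
    nat_lit 121,nat_lit 49,nat_lit 67,nat_lit 148,nat_lit 175]]
    [[[nat_lit 212],[nat_lit 212],[nat_lit 214,nat_lit 215],[nat_lit 216],[nat_lit 216],[nat_lit 216],[nat_lit 216],
    [],[],[],[nat_lit 217],[nat_lit 27]],[[nat_lit 27],[nat_lit 30],[nat_lit 30],[],[],[nat_lit 31],[nat_lit 31],
    [nat_lit 31],[nat_lit 29],[nat_lit 29],[nat_lit 6,nat_lit 7],[]],[[nat_lit 4,nat_lit 10],[nat_lit 5,nat_lit 8,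
    nat_lit 9],[nat_lit 1,nat_lit 2],[nat_lit 67],[nat_lit 67],[nat_lit 60],[nat_lit 50,nat_lit 52,nat_lit 54,
    nat_lit 56,nat_lit 61,nat_lit 63],[nat_lit 51],[nat_lit 22],[],[],[nat_lit 25]],[[],[],[],[nat_lit 26],
    [nat_lit 26],[nat_lit 26],[nat_lit 26],[nat_lit 26],[nat_lit 26],[],[],[]],[[nat_lit 23,nat_lit 24],[],
    [nat_lit 75],[nat_lit 75],[],[],[nat_lit 76],[],[],[],[],[nat_lit 79]],[[nat_lit 79],[nat_lit 79],[],[],[],[],[],
    [nat_lit 78,nat_lit 80,nat_lit 81],[],[nat_lit 40],[nat_lit 35,nat_lit 42],[nat_lit 48]],[[nat_lit 48],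
    [nat_lit 48],[nat_lit 32,nat_lit 34,nat_lit 44],[nat_lit 106],[nat_lit 106],[],[nat_lit 107],[nat_lit 105],
    [nat_lit 105],[nat_lit 102,nat_lit 104,nat_lit 109,nat_lit 110,nat_lit 117,nat_lit 120],[],[nat_lit 71]],
    [[nat_lit 69,nat_lit 70],[],[],[],[],[],[nat_lit 72],[nat_lit 72],[nat_lit 72],[nat_lit 72],[nat_lit 72],
    [nat_lit 72]],[[],[],[],[],[],[nat_lit 73,nat_lit 74],[nat_lit 175],[nat_lit 175],[nat_lit 175],[nat_lit 175],
    [nat_lit 149,nat_lit 150,nat_lit 153,nat_lit 158,nat_lit 164,nat_lit 168],[nat_lit 155,nat_lit 161,nat_lit 169]],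
    [[],[nat_lit 156,nat_lit 162],[nat_lit 156,nat_lit 162],[nat_lit 156,nat_lit 162],[nat_lit 156,nat_lit 162],
    [nat_lit 173],[nat_lit 174],[nat_lit 174],[nat_lit 174],[nat_lit 174],[nat_lit 152,nat_lit 159,nat_lit 167,
    nat_lit 171],[nat_lit 152,nat_lit 159,nat_lit 167,nat_lit 171]],[[nat_lit 152,nat_lit 159,nat_lit 167,
    nat_lit 171],[nat_lit 157,nat_lit 163],[nat_lit 83],[nat_lit 83],[nat_lit 83],[],[],[],[],[nat_lit 84],
    [nat_lit 84],[nat_lit 84]],[[nat_lit 84],[nat_lit 84],[nat_lit 84],[nat_lit 97],[],[nat_lit 86,nat_lit 88,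
    nat_lit 94],[nat_lit 86,nat_lit 88,nat_lit 94],[nat_lit 86,nat_lit 88,nat_lit 94],[nat_lit 86,nat_lit 88,
    nat_lit 94],[],[],[nat_lit 82]],[[nat_lit 82],[nat_lit 90,nat_lit 91,nat_lit 98,nat_lit 100],[nat_lit 90,
    nat_lit 91,nat_lit 98,nat_lit 100],[nat_lit 85,nat_lit 92,nat_lit 93,nat_lit 101],[nat_lit 87,nat_lit 89,
    nat_lit 95,nat_lit 96],[],[nat_lit 210],[nat_lit 210],[nat_lit 210],[],[nat_lit 204,nat_lit 206],[nat_lit 204,
    nat_lit 206]],[[nat_lit 204,nat_lit 206],[nat_lit 204,nat_lit 206],[nat_lit 211],[nat_lit 211],[nat_lit 211],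
    [nat_lit 211],[nat_lit 211],[nat_lit 211],[nat_lit 197,nat_lit 200],[nat_lit 197,nat_lit 200],[nat_lit 197,
    nat_lit 200],[nat_lit 197,nat_lit 200]],[[nat_lit 194,nat_lit 196,nat_lit 209],[nat_lit 194,nat_lit 196,
    nat_lit 209],[nat_lit 194,nat_lit 196,nat_lit 209],[nat_lit 194,nat_lit 196,nat_lit 209],[nat_lit 205,
    nat_lit 207],[nat_lit 205,nat_lit 207],[nat_lit 199],[nat_lit 198,nat_lit 201],[nat_lit 148],[],[],[nat_lit 123,
    nat_lit 125,nat_lit 129,nat_lit 137,nat_lit 143,nat_lit 145]],[[nat_lit 127,nat_lit 131,nat_lit 138],[nat_lit 122,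
    nat_lit 133,nat_lit 139,nat_lit 141],[nat_lit 122,nat_lit 133,nat_lit 139,nat_lit 141],[nat_lit 122,nat_lit 133,
    nat_lit 139,nat_lit 141],[],[],[nat_lit 135,nat_lit 136],[nat_lit 135,nat_lit 136],[nat_lit 124,nat_lit 126,
    nat_lit 144,nat_lit 146],[nat_lit 124,nat_lit 126,nat_lit 144,nat_lit 146],[nat_lit 147],[nat_lit 147]],
    [[nat_lit 128,nat_lit 134,nat_lit 140,nat_lit 142],[nat_lit 128,nat_lit 134,nat_lit 140,nat_lit 142],[],[],[],
    [nat_lit 218],[nat_lit 218],[nat_lit 221],[nat_lit 221],[nat_lit 221],[nat_lit 222],[nat_lit 222]],[[nat_lit 222],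
    [nat_lit 222],[],[],[nat_lit 219],[nat_lit 219],[nat_lit 223],[nat_lit 223],[nat_lit 176,nat_lit 190,nat_lit 192],
    [],[nat_lit 183,nat_lit 185],[nat_lit 191,nat_lit 193]],[[nat_lit 179,nat_lit 180],[nat_lit 177,nat_lit 178,
    nat_lit 187,nat_lit 189],[nat_lit 13],[nat_lit 13],[],[nat_lit 14,nat_lit 15],[nat_lit 11],[nat_lit 12,nat_lit 16,
    nat_lit 19,nat_lit 21]]]
    (nat_lit 224) [nat_lit 0,nat_lit 1,nat_lit 2,nat_lit 3,nat_lit 4,nat_lit 5,nat_lit 6,nat_lit 7,nat_lit 8,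
    nat_lit 9,nat_lit 10,nat_lit 11,nat_lit 12,nat_lit 13,nat_lit 14,nat_lit 15,nat_lit 16,nat_lit 17,nat_lit 18,
    nat_lit 19,nat_lit 20,nat_lit 21,nat_lit 25,nat_lit 26,nat_lit 30,nat_lit 31,nat_lit 32,nat_lit 33,nat_lit 34,
    nat_lit 36,nat_lit 37,nat_lit 38,nat_lit 40,nat_lit 41,nat_lit 43,nat_lit 44,nat_lit 45,nat_lit 46,nat_lit 47,
    nat_lit 48,nat_lit 49,nat_lit 54,nat_lit 55,nat_lit 57,nat_lit 58,nat_lit 60,nat_lit 61,nat_lit 63,nat_lit 64,
    nat_lit 65,nat_lit 66,nat_lit 67,nat_lit 72,nat_lit 73,nat_lit 74,nat_lit 79,nat_lit 80,nat_lit 81,nat_lit 94,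
    nat_lit 95,nat_lit 96,nat_lit 97,nat_lit 98,nat_lit 100,nat_lit 111,nat_lit 112,nat_lit 113,nat_lit 116,
    nat_lit 117,nat_lit 120,nat_lit 139,nat_lit 140,nat_lit 141,nat_lit 142,nat_lit 147,nat_lit 148,nat_lit 171,
    nat_lit 174,nat_lit 175]
    [[[],[],[],[],[],[nat_lit 4,nat_lit 10],[nat_lit 0],[nat_lit 1,nat_lit 2],[],[],[nat_lit 5,nat_lit 8,nat_lit 9],
    [nat_lit 3],[],[],[],[nat_lit 6,nat_lit 7]],[[],[],[nat_lit 13],[nat_lit 14,nat_lit 15],[],[],[],[],[nat_lit 20],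
    [nat_lit 12,nat_lit 16,nat_lit 19,nat_lit 21],[nat_lit 17,nat_lit 18],[],[nat_lit 11],[],[],[]],[[nat_lit 23,
    nat_lit 24],[],[],[],[],[],[nat_lit 22],[],[nat_lit 25],[nat_lit 26],[],[],[],[],[],[]],[[nat_lit 29],[],[],[],[],
    [],[nat_lit 27],[nat_lit 28],[nat_lit 30],[nat_lit 31],[],[],[],[],[],[]],[[],[nat_lit 35,nat_lit 42],[],[],
    [nat_lit 40],[nat_lit 38,nat_lit 41],[],[],[nat_lit 39,nat_lit 45,nat_lit 47],[nat_lit 46],[nat_lit 33,
    nat_lit 43],[nat_lit 32,nat_lit 34,nat_lit 44],[nat_lit 36],[nat_lit 37],[nat_lit 48],[nat_lit 49]],[[],[],[],[],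
    [nat_lit 59,nat_lit 62],[nat_lit 60],[],[nat_lit 51],[nat_lit 64,nat_lit 65],[],[nat_lit 50,nat_lit 52,nat_lit 54,
    nat_lit 56,nat_lit 61,nat_lit 63],[nat_lit 53],[nat_lit 57],[nat_lit 55,nat_lit 58],[nat_lit 66],[nat_lit 67]],
    [[],[nat_lit 69,nat_lit 70],[nat_lit 68],[],[nat_lit 71],[],[],[],[],[],[],[],[nat_lit 72],[nat_lit 73,
    nat_lit 74],[],[]],[[],[nat_lit 77],[nat_lit 75],[nat_lit 76],[],[],[],[],[],[],[],[],[nat_lit 79],[nat_lit 78,
    nat_lit 80,nat_lit 81],[],[]],[[nat_lit 85,nat_lit 92,nat_lit 93,nat_lit 101],[],[nat_lit 83],[nat_lit 84],[],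
    [nat_lit 99],[],[],[],[],[nat_lit 97],[nat_lit 90,nat_lit 91,nat_lit 98,nat_lit 100],[nat_lit 86,nat_lit 88,
    nat_lit 94],[nat_lit 87,nat_lit 89,nat_lit 95,nat_lit 96],[nat_lit 82],[]],[[nat_lit 121],[],[nat_lit 106],
    [nat_lit 107],[nat_lit 114,nat_lit 118],[nat_lit 103,nat_lit 115,nat_lit 119],[],[],[],[],[nat_lit 116],
    [nat_lit 102,nat_lit 104,nat_lit 109,nat_lit 110,nat_lit 117,nat_lit 120],[nat_lit 108,nat_lit 111],[nat_lit 112,
    nat_lit 113],[nat_lit 105],[]],[[],[nat_lit 132],[],[],[nat_lit 130],[nat_lit 127,nat_lit 131,nat_lit 138],[],[],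
    [nat_lit 123,nat_lit 125,nat_lit 129,nat_lit 137,nat_lit 143,nat_lit 145],[nat_lit 124,nat_lit 126,nat_lit 144,
    nat_lit 146],[nat_lit 122,nat_lit 133,nat_lit 139,nat_lit 141],[nat_lit 128,nat_lit 134,nat_lit 140,nat_lit 142],
    [nat_lit 135,nat_lit 136],[],[nat_lit 147],[nat_lit 148]],[[nat_lit 154,nat_lit 160],[nat_lit 155,nat_lit 161,
    nat_lit 169],[],[],[nat_lit 149,nat_lit 150,nat_lit 153,nat_lit 158,nat_lit 164,nat_lit 168],[nat_lit 151,
    nat_lit 165],[],[],[nat_lit 172],[nat_lit 173],[nat_lit 166,nat_lit 170],[nat_lit 152,nat_lit 159,nat_lit 167,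
    nat_lit 171],[nat_lit 156,nat_lit 162],[nat_lit 157,nat_lit 163],[nat_lit 174],[nat_lit 175]],[[],[],[],[],
    [nat_lit 181,nat_lit 184],[nat_lit 182],[nat_lit 176,nat_lit 190,nat_lit 192],[nat_lit 191,nat_lit 193],
    [nat_lit 186,nat_lit 188],[nat_lit 177,nat_lit 178,nat_lit 187,nat_lit 189],[nat_lit 183,nat_lit 185],[],
    [nat_lit 179,nat_lit 180],[],[],[]],[[nat_lit 199],[],[],[],[nat_lit 202],[nat_lit 203],[nat_lit 210],
    [nat_lit 211],[nat_lit 195,nat_lit 208],[nat_lit 194,nat_lit 196,nat_lit 209],[nat_lit 204,nat_lit 206],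
    [nat_lit 205,nat_lit 207],[nat_lit 197,nat_lit 200],[nat_lit 198,nat_lit 201],[],[]],[[],[nat_lit 214,
    nat_lit 215],[],[],[nat_lit 212],[nat_lit 213],[],[],[],[],[nat_lit 216],[nat_lit 217],[],[],[],[]],[[],[],[],[],
    [nat_lit 220],[nat_lit 221],[],[],[nat_lit 218],[nat_lit 219],[nat_lit 222],[nat_lit 223],[],[],[],[]]]
    [[[nat_lit 0x100000000000000000000000000000000000000000000000000000,
    nat_lit 0x100000000000000000000000000000000000000000000000000000,
    nat_lit 0xc00000000000000000000000000000000000000000000000000000,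
    nat_lit 0x1000000000000000000000000000000000000000000000000000000,
    nat_lit 0x1000000000000000000000000000000000000000000000000000000,
    nat_lit 0x1000000000000000000000000000000000000000000000000000000,
    nat_lit 0x1000000000000000000000000000000000000000000000000000000,nat_lit 0,nat_lit 0],[nat_lit 0,
    nat_lit 0x2000000000000000000000000000000000000000000000000000000,nat_lit 0x8000000,nat_lit 0x8000000,
    nat_lit 0x40000000,nat_lit 0x40000000,nat_lit 0,nat_lit 0,nat_lit 0x80000000],[nat_lit 0x80000000,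
    nat_lit 0x80000000,nat_lit 0x20000000,nat_lit 0x20000000,nat_lit 192,nat_lit 0,nat_lit 0x410,nat_lit 800,
    nat_lit 6],[nat_lit 0x80000000000000000,nat_lit 0x80000000000000000,nat_lit 0x1000000000000000,
    nat_lit 0xa154000000000000,nat_lit 0x8000000000000,nat_lit 0x400000,nat_lit 0,nat_lit 0,nat_lit 0x2000000],
    [nat_lit 0,nat_lit 0,nat_lit 0,nat_lit 0x4000000,nat_lit 0x4000000,nat_lit 0x4000000,nat_lit 0x4000000,
    nat_lit 0x4000000,nat_lit 0x4000000],[nat_lit 0,nat_lit 0,nat_lit 0,nat_lit 0x1800000,nat_lit 0,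
    nat_lit 0x8000000000000000000,nat_lit 0x8000000000000000000,nat_lit 0,nat_lit 0],[nat_lit 0x10000000000000000000,
    nat_lit 0,nat_lit 0,nat_lit 0,nat_lit 0,nat_lit 0x80000000000000000000,nat_lit 0x80000000000000000000,
    nat_lit 0x80000000000000000000,nat_lit 0],[nat_lit 0,nat_lit 0,nat_lit 0,nat_lit 0,
    nat_lit 0x340000000000000000000,nat_lit 0,nat_lit 0x10000000000,nat_lit 0x40800000000,nat_lit 0x1000000000000],
    [nat_lit 0x1000000000000,nat_lit 0x1000000000000,nat_lit 0x100500000000,nat_lit 0x400000000000000000000000000,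
    nat_lit 0x400000000000000000000000000,nat_lit 0,nat_lit 0x800000000000000000000000000,
    nat_lit 0x200000000000000000000000000,nat_lit 0x200000000000000000000000000]],
    [[nat_lit 0x1206140000000000000000000000000,nat_lit 0,nat_lit 0x800000000000000000,nat_lit 0x600000000000000000,
    nat_lit 0,nat_lit 0,nat_lit 0,nat_lit 0,nat_lit 0],[nat_lit 0x1000000000000000000,nat_lit 0x1000000000000000000,
    nat_lit 0x1000000000000000000,nat_lit 0x1000000000000000000,nat_lit 0x1000000000000000000,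
    nat_lit 0x1000000000000000000,nat_lit 0,nat_lit 0,nat_lit 0],[nat_lit 0,nat_lit 0,nat_lit 0x6000000000000000000,
    nat_lit 0x80000000000000000000000000000000000000000000,nat_lit 0x80000000000000000000000000000000000000000000,
    nat_lit 0x80000000000000000000000000000000000000000000,nat_lit 0x80000000000000000000000000000000000000000000,
    nat_lit 0x1104260000000000000000000000000000000000000,nat_lit 0x2020800000000000000000000000000000000000000],
    [nat_lit 0,nat_lit 0x41000000000000000000000000000000000000000,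
    nat_lit 0x41000000000000000000000000000000000000000,nat_lit 0x41000000000000000000000000000000000000000,
    nat_lit 0x41000000000000000000000000000000000000000,nat_lit 0x20000000000000000000000000000000000000000000,
    nat_lit 0x40000000000000000000000000000000000000000000,nat_lit 0x40000000000000000000000000000000000000000000,
    nat_lit 0x40000000000000000000000000000000000000000000],[nat_lit 0x40000000000000000000000000000000000000000000,
    nat_lit 0x8808100000000000000000000000000000000000000,nat_lit 0x8808100000000000000000000000000000000000000,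
    nat_lit 0x8808100000000000000000000000000000000000000,nat_lit 0x82000000000000000000000000000000000000000,
    nat_lit 0x800000000000000000000,nat_lit 0x800000000000000000000,nat_lit 0x800000000000000000000,nat_lit 0],
    [nat_lit 0,nat_lit 0,nat_lit 0,nat_lit 0x1000000000000000000000,nat_lit 0x1000000000000000000000,
    nat_lit 0x1000000000000000000000,nat_lit 0x1000000000000000000000,nat_lit 0x1000000000000000000000,
    nat_lit 0x1000000000000000000000],[nat_lit 0x2000000000000000000000000,nat_lit 0,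
    nat_lit 0x414000000000000000000000,nat_lit 0x414000000000000000000000,nat_lit 0x414000000000000000000000,
    nat_lit 0x414000000000000000000000,nat_lit 0,nat_lit 0,nat_lit 0x400000000000000000000],
    [nat_lit 0x400000000000000000000,nat_lit 0x140c0000000000000000000000,nat_lit 0x140c0000000000000000000000,
    nat_lit 0x20302000000000000000000000,nat_lit 0x1828000000000000000000000,nat_lit 0,
    nat_lit 0x40000000000000000000000000000000000000000000000000000,
    nat_lit 0x40000000000000000000000000000000000000000000000000000,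
    nat_lit 0x40000000000000000000000000000000000000000000000000000],[nat_lit 0,
    nat_lit 0x5000000000000000000000000000000000000000000000000000,
    nat_lit 0x5000000000000000000000000000000000000000000000000000,
    nat_lit 0x5000000000000000000000000000000000000000000000000000,
    nat_lit 0x5000000000000000000000000000000000000000000000000000,
    nat_lit 0x80000000000000000000000000000000000000000000000000000,
    nat_lit 0x80000000000000000000000000000000000000000000000000000,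
    nat_lit 0x80000000000000000000000000000000000000000000000000000,
    nat_lit 0x80000000000000000000000000000000000000000000000000000]],
    [[nat_lit 0x80000000000000000000000000000000000000000000000000000,
    nat_lit 0x80000000000000000000000000000000000000000000000000000,
    nat_lit 0x120000000000000000000000000000000000000000000000000,
    nat_lit 0x120000000000000000000000000000000000000000000000000,
    nat_lit 0x120000000000000000000000000000000000000000000000000,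
    nat_lit 0x120000000000000000000000000000000000000000000000000,
    nat_lit 0x20014000000000000000000000000000000000000000000000000,
    nat_lit 0x20014000000000000000000000000000000000000000000000000,
    nat_lit 0x20014000000000000000000000000000000000000000000000000],
    [nat_lit 0x20014000000000000000000000000000000000000000000000000,
    nat_lit 0xa000000000000000000000000000000000000000000000000000,
    nat_lit 0xa000000000000000000000000000000000000000000000000000,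
    nat_lit 0x80000000000000000000000000000000000000000000000000,
    nat_lit 0x240000000000000000000000000000000000000000000000000,nat_lit 0x10000000000000000000000000000000000000,
    nat_lit 0,nat_lit 0,nat_lit 0x2820228000000000000000000000000000000],
    [nat_lit 0x40880000000000000000000000000000000,nat_lit 0x282004000000000000000000000000000000,
    nat_lit 0x282004000000000000000000000000000000,nat_lit 0x282004000000000000000000000000000000,nat_lit 0,nat_lit 0,
    nat_lit 0x18000000000000000000000000000000000,nat_lit 0x18000000000000000000000000000000000,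
    nat_lit 0x5000050000000000000000000000000000000],[nat_lit 0x5000050000000000000000000000000000000,
    nat_lit 0x8000000000000000000000000000000000000,nat_lit 0x8000000000000000000000000000000000000,
    nat_lit 0x504100000000000000000000000000000000,nat_lit 0x504100000000000000000000000000000000,nat_lit 0,nat_lit 0,
    nat_lit 0,nat_lit 0x4000000000000000000000000000000000000000000000000000000],
    [nat_lit 0x4000000000000000000000000000000000000000000000000000000,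
    nat_lit 0x20000000000000000000000000000000000000000000000000000000,
    nat_lit 0x20000000000000000000000000000000000000000000000000000000,
    nat_lit 0x20000000000000000000000000000000000000000000000000000000,
    nat_lit 0x40000000000000000000000000000000000000000000000000000000,
    nat_lit 0x40000000000000000000000000000000000000000000000000000000,
    nat_lit 0x40000000000000000000000000000000000000000000000000000000,
    nat_lit 0x40000000000000000000000000000000000000000000000000000000,nat_lit 0],[nat_lit 0,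
    nat_lit 0x8000000000000000000000000000000000000000000000000000000,
    nat_lit 0x8000000000000000000000000000000000000000000000000000000,
    nat_lit 0x80000000000000000000000000000000000000000000000000000000,
    nat_lit 0x80000000000000000000000000000000000000000000000000000000,
    nat_lit 0x1400100000000000000000000000000000000000000000000,nat_lit 0,
    nat_lit 0x28000000000000000000000000000000000000000000000,
    nat_lit 0x2800000000000000000000000000000000000000000000000],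
    [nat_lit 0x1800000000000000000000000000000000000000000000,
    nat_lit 0x280600000000000000000000000000000000000000000000,nat_lit 0x2000,nat_lit 0x2000,nat_lit 0,nat_lit 0xc000,
    nat_lit 0x800,nat_lit 0x291000]]]
    [[[[nat_lit 0,nat_lit 0x100000000000000000000000000000000000000000000000000000,nat_lit 0,nat_lit 0,nat_lit 0,
    nat_lit 0,nat_lit 0x1000000000000000000000000000000000000000000000000000000,nat_lit 0,nat_lit 0],[nat_lit 0,
    nat_lit 0,nat_lit 0x8000000,nat_lit 0x8000000,nat_lit 0x40000000,nat_lit 0x40000000,nat_lit 0,nat_lit 0,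
    nat_lit 0x80000000],[nat_lit 0x80000000,nat_lit 0,nat_lit 0x20000000,nat_lit 0x20000000,nat_lit 192,nat_lit 0,
    nat_lit 0x410,nat_lit 768,nat_lit 6],[nat_lit 0x80000000000000000,nat_lit 0,nat_lit 0x1000000000000000,
    nat_lit 0xa044000000000000,nat_lit 0x8000000000000,nat_lit 0x400000,nat_lit 0,nat_lit 0,nat_lit 0x2000000],
    [nat_lit 0,nat_lit 0,nat_lit 0,nat_lit 0,nat_lit 0x4000000,nat_lit 0,nat_lit 0x4000000,nat_lit 0x4000000,
    nat_lit 0x4000000],[nat_lit 0,nat_lit 0,nat_lit 0,nat_lit 0x1000000,nat_lit 0,nat_lit 0x8000000000000000000,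
    nat_lit 0x8000000000000000000,nat_lit 0,nat_lit 0],[nat_lit 0,nat_lit 0,nat_lit 0,nat_lit 0,nat_lit 0,nat_lit 0,
    nat_lit 0x80000000000000000000,nat_lit 0x80000000000000000000,nat_lit 0],[nat_lit 0,nat_lit 0,nat_lit 0,nat_lit 0,
    nat_lit 0x300000000000000000000,nat_lit 0,nat_lit 0,nat_lit 0x40800000000,nat_lit 0],[nat_lit 0x1000000000000,
    nat_lit 0x1000000000000,nat_lit 0x100100000000,nat_lit 0x400000000000000000000000000,
    nat_lit 0x400000000000000000000000000,nat_lit 0,nat_lit 0x800000000000000000000000000,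
    nat_lit 0x200000000000000000000000000,nat_lit 0x200000000000000000000000000]],
    [[nat_lit 0x204140000000000000000000000000,nat_lit 0,nat_lit 0x800000000000000000,nat_lit 0x600000000000000000,
    nat_lit 0,nat_lit 0,nat_lit 0,nat_lit 0,nat_lit 0],[nat_lit 0x1000000000000000000,nat_lit 0,
    nat_lit 0x1000000000000000000,nat_lit 0x1000000000000000000,nat_lit 0,nat_lit 0x1000000000000000000,nat_lit 0,
    nat_lit 0,nat_lit 0],[nat_lit 0,nat_lit 0,nat_lit 0x6000000000000000000,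
    nat_lit 0x80000000000000000000000000000000000000000000,nat_lit 0,
    nat_lit 0x80000000000000000000000000000000000000000000,nat_lit 0,
    nat_lit 0x1004040000000000000000000000000000000000000,nat_lit 0x2000000000000000000000000000000000000000000],
    [nat_lit 0,nat_lit 0x40000000000000000000000000000000000000000,nat_lit 0,nat_lit 0,
    nat_lit 0x40000000000000000000000000000000000000000,nat_lit 0,nat_lit 0,nat_lit 0,nat_lit 0],
    [nat_lit 0x40000000000000000000000000000000000000000000,nat_lit 0,nat_lit 0,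
    nat_lit 0x100000000000000000000000000000000000000,nat_lit 0x80000000000000000000000000000000000000000,
    nat_lit 0x800000000000000000000,nat_lit 0,nat_lit 0,nat_lit 0],[nat_lit 0,nat_lit 0,nat_lit 0,
    nat_lit 0x1000000000000000000000,nat_lit 0,nat_lit 0x1000000000000000000000,nat_lit 0,
    nat_lit 0x1000000000000000000000,nat_lit 0],[nat_lit 0,nat_lit 0,nat_lit 0,nat_lit 0x400000000000000000000000,
    nat_lit 0,nat_lit 0,nat_lit 0,nat_lit 0,nat_lit 0x400000000000000000000],[nat_lit 0,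
    nat_lit 0x4080000000000000000000000,nat_lit 0,nat_lit 0x300000000000000000000000,
    nat_lit 0x800000000000000000000000,nat_lit 0,nat_lit 0,nat_lit 0,
    nat_lit 0x40000000000000000000000000000000000000000000000000000],[nat_lit 0,
    nat_lit 0x5000000000000000000000000000000000000000000000000000,
    nat_lit 0x5000000000000000000000000000000000000000000000000000,nat_lit 0,nat_lit 0,nat_lit 0,nat_lit 0,
    nat_lit 0x80000000000000000000000000000000000000000000000000000,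
    nat_lit 0x80000000000000000000000000000000000000000000000000000]],[[nat_lit 0,
    nat_lit 0x80000000000000000000000000000000000000000000000000000,nat_lit 0,
    nat_lit 0x120000000000000000000000000000000000000000000000000,nat_lit 0,nat_lit 0,
    nat_lit 0x20000000000000000000000000000000000000000000000000000,
    nat_lit 0x20000000000000000000000000000000000000000000000000000,nat_lit 0],[nat_lit 0,nat_lit 0,nat_lit 0,
    nat_lit 0x80000000000000000000000000000000000000000000000000,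
    nat_lit 0x240000000000000000000000000000000000000000000000000,nat_lit 0x10000000000000000000000000000000000000,
    nat_lit 0,nat_lit 0,nat_lit 0x800028000000000000000000000000000000],
    [nat_lit 0x40000000000000000000000000000000000,nat_lit 0,nat_lit 0,nat_lit 0x2004000000000000000000000000000000,
    nat_lit 0,nat_lit 0,nat_lit 0,nat_lit 0,nat_lit 0x50000000000000000000000000000000],
    [nat_lit 0x50000000000000000000000000000000,nat_lit 0x8000000000000000000000000000000000000,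
    nat_lit 0x8000000000000000000000000000000000000,nat_lit 0x100000000000000000000000000000000,
    nat_lit 0x100000000000000000000000000000000,nat_lit 0,nat_lit 0,nat_lit 0,nat_lit 0],
    [nat_lit 0x4000000000000000000000000000000000000000000000000000000,
    nat_lit 0x20000000000000000000000000000000000000000000000000000000,nat_lit 0,
    nat_lit 0x20000000000000000000000000000000000000000000000000000000,nat_lit 0,nat_lit 0,nat_lit 0,nat_lit 0,
    nat_lit 0],[nat_lit 0,nat_lit 0,nat_lit 0,nat_lit 0x80000000000000000000000000000000000000000000000000000000,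
    nat_lit 0x80000000000000000000000000000000000000000000000000000000,
    nat_lit 0x400100000000000000000000000000000000000000000000,nat_lit 0,nat_lit 0,
    nat_lit 0x800000000000000000000000000000000000000000000000],
    [nat_lit 0x1800000000000000000000000000000000000000000000,nat_lit 0,nat_lit 0,nat_lit 0,nat_lit 0,nat_lit 0x4000,
    nat_lit 0,nat_lit 0x200000]]]]
    (nat_lit 1) (nat_lit 1) (nat_lit 9)
    [[nat_lit 2,nat_lit 258,nat_lit 0x1002,nat_lit 0x10002,nat_lit 17,nat_lit 257,nat_lit 0x1101,nat_lit 0x10101,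
    nat_lit 0x1001,nat_lit 0x2001,nat_lit 0x11001,nat_lit 0x101001,nat_lit 0x1001001,nat_lit 0x10001,nat_lit 0x20001,
    nat_lit 0x21001,nat_lit 0x110001,nat_lit 0x1010001,nat_lit 0x100001,nat_lit 0x1000001,nat_lit 0x1000101,
    nat_lit 0x10000001,nat_lit 0x10001001],[nat_lit 32,nat_lit 0x1020,nat_lit 0x1000020,nat_lit 272,nat_lit 0x1110,
    nat_lit 0x100110,nat_lit 0x1010,nat_lit 0x100010,nat_lit 0x1000010,nat_lit 0x1001010,nat_lit 0x2000010,
    nat_lit 0x10000010,nat_lit 0x10001010,nat_lit 0x11000010],[nat_lit 512,nat_lit 0x1200,nat_lit 0x1100,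
    nat_lit 0x2100,nat_lit 0x11100,nat_lit 0x101100,nat_lit 0x1001100,nat_lit 0x10001100,nat_lit 0x10100,
    nat_lit 0x20100,nat_lit 0x110100,nat_lit 0x100100,nat_lit 0x1100100,nat_lit 0x1000100],[nat_lit 0x2000,
    nat_lit 0x3000,nat_lit 0x12000,nat_lit 0x102000,nat_lit 0x1002000,nat_lit 0x11000,nat_lit 0x21000,
    nat_lit 0x111000,nat_lit 0x1011000,nat_lit 0x101000,nat_lit 0x1001000,nat_lit 0x1101000,nat_lit 0x11001000,
    nat_lit 0x10001000],[nat_lit 0x20000,nat_lit 0x30000,nat_lit 0x120000,nat_lit 0x1020000,nat_lit 0x10020000,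
    nat_lit 0x110000,nat_lit 0x210000,nat_lit 0x1010000,nat_lit 0x2010000,nat_lit 0x11010000,nat_lit 0x10010000],
    [nat_lit 0x200000,nat_lit 0x1100000],[nat_lit 0x2000000,nat_lit 0x3000000,nat_lit 0x11000000],
    [nat_lit 0x20000000]]
    [.c (nat_lit 1) (nat_lit 2),.c (nat_lit 0) (nat_lit 0x54000207),.c (nat_lit 0) (nat_lit 0x4600007),
    .c (nat_lit 0) (nat_lit 0x52733367),.c (nat_lit 7) (nat_lit 0x33000006),.c (nat_lit 0) (nat_lit 0x32000207),
    .c (nat_lit 0) (nat_lit 0x4600207),.c (nat_lit 0) (nat_lit 0x30733067),.c (nat_lit 0) (nat_lit 0x4600007),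
    .c (nat_lit 0) (nat_lit 0x8c00007),.c (nat_lit 2) (nat_lit 0x20033367),.c (nat_lit 0) (nat_lit 0x4602007),
    .c (nat_lit 0) (nat_lit 0x2600007),.c (nat_lit 0) (nat_lit 0x30733367),.c (nat_lit 0) (nat_lit 0x50d555c7),
    .c (nat_lit 0) (nat_lit 0x547555c7),.c (nat_lit 0) (nat_lit 0x30730367),.c (nat_lit 0) (nat_lit 0x50733367),
    .c (nat_lit 0) (nat_lit 0x32002007),.c (nat_lit 0) (nat_lit 0x52000007),.c (nat_lit 7) (nat_lit 0x3000306),
    .c (nat_lit 0) (nat_lit 0x32020007),.c (nat_lit 0) (nat_lit 0x4620007),.c (nat_lit 2) (nat_lit 2),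
    .c (nat_lit 0) (nat_lit 0x50700006),.c (nat_lit 0) (nat_lit 0x56000006),.c (nat_lit 0) (nat_lit 0x32000306),
    .c (nat_lit 0) (nat_lit 0x50700306),.c (nat_lit 0) (nat_lit 0x32003306),.c (nat_lit 0) (nat_lit 0x22600007),
    .c (nat_lit 0) (nat_lit 0x32003006),.c (nat_lit 0) (nat_lit 0x34000006),.c (nat_lit 0) (nat_lit 0x30700006),
    .c (nat_lit 0) (nat_lit 0x36000006),.c (nat_lit 0) (nat_lit 0x32030006),.c (nat_lit 0) (nat_lit 0x50730006),
    .c (nat_lit 0) (nat_lit 0x34030006),.c (nat_lit 3) (nat_lit 2),.c (nat_lit 0) (nat_lit 0x4600407),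
    .c (nat_lit 2) (nat_lit 0x40600207),.c (nat_lit 0) (nat_lit 0x8c00207),.c (nat_lit 0) (nat_lit 0x34033067),
    .c (nat_lit 0) (nat_lit 0x4602207),.c (nat_lit 0) (nat_lit 0x2600207),.c (nat_lit 7) (nat_lit 0x620207),
    .c (nat_lit 0) (nat_lit 0x30733067),.c (nat_lit 0) (nat_lit 0x50d553c7),.c (nat_lit 0) (nat_lit 0x30730067),
    .c (nat_lit 0) (nat_lit 0x2207),.c (nat_lit 0) (nat_lit 0x2003306),.c (nat_lit 0) (nat_lit 0x60040d),
    .c (nat_lit 4) (nat_lit 2),.c (nat_lit 0) (nat_lit 0x4600003),.c (nat_lit 0) (nat_lit 0x38633367),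
    .c (nat_lit 0) (nat_lit 0x8c02007),.c (nat_lit 0) (nat_lit 0x2400003),.c (nat_lit 0) (nat_lit 0x34033367),
    .c (nat_lit 0) (nat_lit 0x547555c7),.c (nat_lit 0) (nat_lit 0x34030367),.c (nat_lit 0) (nat_lit 0x32033367),
    .c (nat_lit 2) (nat_lit 0x40602007),.c (nat_lit 0) (nat_lit 0x200005),.c (nat_lit 0) (nat_lit 0x2602007),
    .c (nat_lit 0) (nat_lit 0x75000c),.c (nat_lit 0) (nat_lit 0x4620007),.c (nat_lit 5) (nat_lit 2),
    .c (nat_lit 0) (nat_lit 0x30733363),.c (nat_lit 0) (nat_lit 0x50d535c7),.c (nat_lit 0) (nat_lit 0x53d555c7),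
    .c (nat_lit 7) (nat_lit 0x55d355c7),.c (nat_lit 0) (nat_lit 0x30730367),.c (nat_lit 0) (nat_lit 0x30732367),
    .c (nat_lit 0) (nat_lit 0x33733367),.c (nat_lit 0) (nat_lit 0x24622276),.c (nat_lit 0) (nat_lit 0x22602276),
    .c (nat_lit 0) (nat_lit 0x30703367),.c (nat_lit 6) (nat_lit 2),.c (nat_lit 0) (nat_lit 0x60400d),
    .c (nat_lit 7) (nat_lit 2),.c (nat_lit 0) (nat_lit 0x2000002),.c (nat_lit 0) (nat_lit 0x2030006),
    .c (nat_lit 8) (nat_lit 2)]]

end Pool.Agent.Lib_MP_fa6e45
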