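import Pool.Agent.Lib_MP_fa6e45.RJ0

/-!
MP_fa6e45_co, stage 9: straight-side patterns with `8` sides, raw data (generated by a program).
-/

namespace Pool.Agent.Lib_MP_fa6e45

/-- nodes -/
noncomputable def rD8k_9_0 : List RJ :=
  [.s (nat_lit 17) (nat_lit 0x6900) (nat_lit 4) (nat_lit 0x282e0000282e000026b4000026b400002f7b00002f7b0000292a0000292a000034d0000034d0000036190000361900003118000031180000311800003118) (nat_lit 0xdeb00000deb00000f6500000f650000069e0000069e00000cef00000cef0000014900000149000000000000000000000501000005010000050100000501)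
    (nat_lit 0xe1d870ec319218c910c8086402ca61d370c2589b944be0282e119686714465a2a9d0d9f870ec319218c910c808a302aae1c3b10fc88bd449e8273210d28834c465a29a10c64863242ca616530f8d080583b6a19c513338ad4c521c2ba00d9f893b43f76233b0c64863242e9e1653100b080583b6a19c513338ad4c50242ba010d98849c43661f75114608640402c2016146e8a3743948228c14a30a908600e2e7f165c0a47054f42a7a10c808640402c1f1a146e8a37442cc228c154b0a51873be385715de0a47051042a7a0e1d874dc338a19c5114608a30424e1c3b0f828a41c55102cc6121486714485222e70aab8594c3b6a1db510b30729041fa212713f089f844748292a0d60890a448522a9d117a89b9456a62b5314a30a9084fc2290719c38bb1469a034d014ad8d5546976393710fc8612c4cce2667154b0a5184fc21f0519c38ce1c69a034d019848fc0c5f9e344b13990a0b857402ba01c2b8b9fc52542cc61a680d3404dca3619164e0c4607f642dde127a097c05024290e1cef8c01c47482a881a680d3406c3226e5188c0c460750028ac106986714424e24ed148e0a470485219c51f818d554623031181a418b05c5caa2c1710d288cb443661b3f15de0b2e03582242919848a56c62302c9c17388d20c494e2c1714d08aa743eea233b153d0a9e8553a22e71a258e4dc51582dde160b8b05c582e29bd119688cb443661fbb14410a9e84852242917e78d2ec75003fb212538b954543e2c17)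
    (nat_lit 0xe1d9a400d200690034801a400d200690034801a400d200690034801a400d20069000e1d870ecd200690034801a400d200690034801a400d200690034801a400d20069000c64863242ca6690034801a400d200690034801a400d200690034801a400d20069000c64863242ca6165334801a400d200690034801a400d200690034801a400d200690010c8086403e342016146e9a400d200690034801a400d200690034801a400d200690010c808a30402c2016146e8a374d200690034801a400d200690034801a400d20069000b298555c3b6a1db50e5208598424e690034801a400d200690034801a400d20069000e9b870ec338a19c5114608a303876212734801a400d200690034801a400d20069000c25887e44cce266714a30aa583e0a27e119c39a400d200690034801a400d2006900137288bd456a62b5315210a518520e27e117628ce1cd200690034801a400d200690012f8093d0521c281218038e77c551023a41a680d3404dca690034801a400d2006900141709cc857402ba0173f8e15c598c292a1a680d3406c3226e534801a400d2006900119688694367e21b3165c0aef048521ac114ad8cc24593831181a419a400d20069000ce28834c49da2127148e0a470338a24291aaa8e47862303118160b8d20cd2006900119688cb43f7621b3153d0a208485224291a5d8bf3c7f643a80172a8929c582e6900154e8a68446761f75153d0a9e845ce2a9d1c9b8d12c5bbc28ac160b8b05c537a2c17)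
    (nat_lit 5) (nat_lit 61)
    [[nat_lit 0,nat_lit 0,nat_lit 9],[nat_lit 0,nat_lit 0,nat_lit 12],[nat_lit 0,nat_lit 3,nat_lit 14],[nat_lit 0,
    nat_lit 4],[nat_lit 0,nat_lit 5],[nat_lit 0,nat_lit 8,nat_lit 1],[nat_lit 0,nat_lit 8,nat_lit 11],[nat_lit 0,
    nat_lit 9,nat_lit 0],[nat_lit 0,nat_lit 9,nat_lit 1],[nat_lit 0,nat_lit 10,nat_lit 9],[nat_lit 0,nat_lit 11,
    nat_lit 9],[nat_lit 0,nat_lit 11,nat_lit 12],[nat_lit 0,nat_lit 11,nat_lit 13],[nat_lit 0,nat_lit 12,nat_lit 0],
    [nat_lit 0,nat_lit 12,nat_lit 1],[nat_lit 0,nat_lit 12,nat_lit 10],[nat_lit 0,nat_lit 13,nat_lit 1],[nat_lit 0,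
    nat_lit 13,nat_lit 10],[nat_lit 0,nat_lit 14,nat_lit 3],[nat_lit 1,nat_lit 1,nat_lit 8],[nat_lit 1,nat_lit 1,
    nat_lit 13],[nat_lit 1,nat_lit 2,nat_lit 15],[nat_lit 1,nat_lit 4],[nat_lit 1,nat_lit 5],[nat_lit 1,nat_lit 8,
    nat_lit 1],[nat_lit 1,nat_lit 8,nat_lit 10],[nat_lit 1,nat_lit 8,nat_lit 11],[nat_lit 1,nat_lit 10,nat_lit 9],
    [nat_lit 1,nat_lit 11,nat_lit 12],[nat_lit 1,nat_lit 11,nat_lit 13],[nat_lit 1,nat_lit 12,nat_lit 10],[nat_lit 1,
    nat_lit 13,nat_lit 1],[nat_lit 1,nat_lit 13,nat_lit 10],[nat_lit 1,nat_lit 15,nat_lit 2],[nat_lit 2,nat_lit 6],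
    [nat_lit 2,nat_lit 7],[nat_lit 2,nat_lit 8,nat_lit 14,nat_lit 15],[nat_lit 2,nat_lit 9,nat_lit 14,nat_lit 15],
    [nat_lit 2,nat_lit 10,nat_lit 15],[nat_lit 2,nat_lit 11,nat_lit 14],[nat_lit 2,nat_lit 11,nat_lit 15],[nat_lit 2,
    nat_lit 12,nat_lit 15,nat_lit 15],[nat_lit 2,nat_lit 14,nat_lit 10],[nat_lit 2,nat_lit 14,nat_lit 11],[nat_lit 2,
    nat_lit 15,nat_lit 9,nat_lit 15],[nat_lit 2,nat_lit 15,nat_lit 10],[nat_lit 2,nat_lit 15,nat_lit 15,nat_lit 9],
    [nat_lit 3,nat_lit 6],[nat_lit 3,nat_lit 7],[nat_lit 3,nat_lit 8,nat_lit 14,nat_lit 14],[nat_lit 3,nat_lit 10,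
    nat_lit 15],[nat_lit 3,nat_lit 11,nat_lit 14],[nat_lit 3,nat_lit 11,nat_lit 15],[nat_lit 3,nat_lit 14,nat_lit 8,
    nat_lit 14],[nat_lit 3,nat_lit 14,nat_lit 10],[nat_lit 3,nat_lit 14,nat_lit 11],[nat_lit 3,nat_lit 14,nat_lit 14,
    nat_lit 13],[nat_lit 3,nat_lit 14,nat_lit 15,nat_lit 8],[nat_lit 3,nat_lit 14,nat_lit 15,nat_lit 9],[nat_lit 3,
    nat_lit 15,nat_lit 10],[nat_lit 4,nat_lit 8,nat_lit 14],[nat_lit 4,nat_lit 8,nat_lit 15],[nat_lit 4,nat_lit 9,
    nat_lit 14],[nat_lit 4,nat_lit 9,nat_lit 15],[nat_lit 4,nat_lit 10],[nat_lit 4,nat_lit 11],[nat_lit 4,nat_lit 13,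
    nat_lit 14],[nat_lit 4,nat_lit 13,nat_lit 15],[nat_lit 4,nat_lit 14,nat_lit 9],[nat_lit 4,nat_lit 14,nat_lit 13],
    [nat_lit 4,nat_lit 15,nat_lit 9],[nat_lit 4,nat_lit 15,nat_lit 12],[nat_lit 4,nat_lit 15,nat_lit 13],[nat_lit 5,
    nat_lit 8,nat_lit 14],[nat_lit 5,nat_lit 8,nat_lit 15],[nat_lit 5,nat_lit 10],[nat_lit 5,nat_lit 11],[nat_lit 5,
    nat_lit 12,nat_lit 14],[nat_lit 5,nat_lit 12,nat_lit 15],[nat_lit 5,nat_lit 13,nat_lit 14],[nat_lit 5,nat_lit 14,
    nat_lit 8],[nat_lit 5,nat_lit 14,nat_lit 9],[nat_lit 5,nat_lit 14,nat_lit 12],[nat_lit 5,nat_lit 15,nat_lit 8],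
    [nat_lit 5,nat_lit 15,nat_lit 9],[nat_lit 5,nat_lit 15,nat_lit 12],[nat_lit 6,nat_lit 8,nat_lit 8],[nat_lit 6,
    nat_lit 8,nat_lit 12],[nat_lit 6,nat_lit 8,nat_lit 13],[nat_lit 6,nat_lit 12,nat_lit 8],[nat_lit 6,nat_lit 12,
    nat_lit 9],[nat_lit 6,nat_lit 12,nat_lit 12],[nat_lit 6,nat_lit 13,nat_lit 8],[nat_lit 6,nat_lit 13,nat_lit 9],
    [nat_lit 6,nat_lit 13,nat_lit 12],[nat_lit 6,nat_lit 13,nat_lit 13],[nat_lit 7,nat_lit 8,nat_lit 12],[nat_lit 7,
    nat_lit 8,nat_lit 13],[nat_lit 7,nat_lit 9,nat_lit 9],[nat_lit 7,nat_lit 9,nat_lit 12],[nat_lit 7,nat_lit 9,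
    nat_lit 13],[nat_lit 7,nat_lit 12,nat_lit 9],[nat_lit 7,nat_lit 12,nat_lit 12],[nat_lit 7,nat_lit 13,nat_lit 9],
    [nat_lit 7,nat_lit 13,nat_lit 12],[nat_lit 7,nat_lit 13,nat_lit 13],[nat_lit 8,nat_lit 10,nat_lit 9,nat_lit 14],
    [nat_lit 8,nat_lit 10,nat_lit 9,nat_lit 15],[nat_lit 8,nat_lit 10,nat_lit 10],[nat_lit 8,nat_lit 10,nat_lit 11],
    [nat_lit 8,nat_lit 10,nat_lit 15,nat_lit 9],[nat_lit 8,nat_lit 11,nat_lit 9,nat_lit 14],[nat_lit 8,nat_lit 11,
    nat_lit 9,nat_lit 15],[nat_lit 8,nat_lit 11,nat_lit 12,nat_lit 14],[nat_lit 8,nat_lit 14,nat_lit 10,nat_lit 13],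
    [nat_lit 8,nat_lit 14,nat_lit 11,nat_lit 9],[nat_lit 8,nat_lit 14,nat_lit 13,nat_lit 11],[nat_lit 8,nat_lit 15,
    nat_lit 10,nat_lit 12],[nat_lit 8,nat_lit 15,nat_lit 10,nat_lit 13],[nat_lit 9,nat_lit 10,nat_lit 11],[nat_lit 9,
    nat_lit 10,nat_lit 12,nat_lit 15],[nat_lit 9,nat_lit 11,nat_lit 11],[nat_lit 9,nat_lit 12,nat_lit 11,nat_lit 14],
    [nat_lit 9,nat_lit 12,nat_lit 11,nat_lit 15],[nat_lit 9,nat_lit 13,nat_lit 11,nat_lit 14],[nat_lit 9,nat_lit 15,
    nat_lit 13,nat_lit 10],[nat_lit 10,nat_lit 10,nat_lit 12],[nat_lit 10,nat_lit 10,nat_lit 13],[nat_lit 10,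
    nat_lit 11,nat_lit 12],[nat_lit 10,nat_lit 11,nat_lit 13],[nat_lit 10,nat_lit 12,nat_lit 10],[nat_lit 10,
    nat_lit 12,nat_lit 11],[nat_lit 10,nat_lit 12,nat_lit 12,nat_lit 15],[nat_lit 10,nat_lit 12,nat_lit 13,
    nat_lit 14],[nat_lit 10,nat_lit 13,nat_lit 10],[nat_lit 10,nat_lit 13,nat_lit 11],[nat_lit 10,nat_lit 13,
    nat_lit 12,nat_lit 15],[nat_lit 10,nat_lit 15,nat_lit 12,nat_lit 13],[nat_lit 11,nat_lit 11,nat_lit 12],
    [nat_lit 11,nat_lit 11,nat_lit 13],[nat_lit 11,nat_lit 12,nat_lit 11],[nat_lit 11,nat_lit 12,nat_lit 13,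
    nat_lit 14],[nat_lit 11,nat_lit 13,nat_lit 11],[nat_lit 11,nat_lit 14,nat_lit 13,nat_lit 12],[nat_lit 11,
    nat_lit 14,nat_lit 13,nat_lit 13],[nat_lit 11,nat_lit 15,nat_lit 12,nat_lit 13],[nat_lit 12,nat_lit 12,nat_lit 15,
    nat_lit 12,nat_lit 15],[nat_lit 12,nat_lit 15,nat_lit 12,nat_lit 12,nat_lit 15],[nat_lit 12,nat_lit 15,nat_lit 12,
    nat_lit 15,nat_lit 12],[nat_lit 13,nat_lit 13,nat_lit 14,nat_lit 13,nat_lit 14],[nat_lit 13,nat_lit 14,nat_lit 13,
    nat_lit 13,nat_lit 14],[nat_lit 13,nat_lit 14,nat_lit 13,nat_lit 14,nat_lit 13]]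
    [nat_lit 0x1009,nat_lit 0x100c,nat_lit 0x103e,nat_lit 260,nat_lit 261,nat_lit 0x1081,nat_lit 0x108b,
    nat_lit 0x1090,nat_lit 0x1091,nat_lit 0x10a9,nat_lit 0x10b9,nat_lit 0x10bc,nat_lit 0x10bd,nat_lit 0x10c0,
    nat_lit 0x10c1,nat_lit 0x10ca,nat_lit 0x10d1,nat_lit 0x10da,nat_lit 0x10e3,nat_lit 0x1118,nat_lit 0x111d,
    nat_lit 0x112f,nat_lit 276,nat_lit 277,nat_lit 0x1181,nat_lit 0x118a,nat_lit 0x118b,nat_lit 0x11a9,nat_lit 0x11bc,
    nat_lit 0x11bd,nat_lit 0x11ca,nat_lit 0x11d1,nat_lit 0x11da,nat_lit 0x11f2,nat_lit 294,nat_lit 295,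
    nat_lit 0x128ef,nat_lit 0x129ef,nat_lit 0x12af,nat_lit 0x12be,nat_lit 0x12bf,nat_lit 0x12cff,nat_lit 0x12ea,
    nat_lit 0x12eb,nat_lit 0x12f9f,nat_lit 0x12fa,nat_lit 0x12ff9,nat_lit 310,nat_lit 311,nat_lit 0x138ee,
    nat_lit 0x13af,nat_lit 0x13be,nat_lit 0x13bf,nat_lit 0x13e8e,nat_lit 0x13ea,nat_lit 0x13eb,nat_lit 0x13eed,
    nat_lit 0x13ef8,nat_lit 0x13ef9,nat_lit 0x13fa,nat_lit 0x148e,nat_lit 0x148f,nat_lit 0x149e,nat_lit 0x149f,
    nat_lit 330,nat_lit 331,nat_lit 0x14de,nat_lit 0x14df,nat_lit 0x14e9,nat_lit 0x14ed,nat_lit 0x14f9,nat_lit 0x14fc,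
    nat_lit 0x14fd,nat_lit 0x158e,nat_lit 0x158f,nat_lit 346,nat_lit 347,nat_lit 0x15ce,nat_lit 0x15cf,nat_lit 0x15de,
    nat_lit 0x15e8,nat_lit 0x15e9,nat_lit 0x15ec,nat_lit 0x15f8,nat_lit 0x15f9,nat_lit 0x15fc,nat_lit 0x1688,
    nat_lit 0x168c,nat_lit 0x168d,nat_lit 0x16c8,nat_lit 0x16c9,nat_lit 0x16cc,nat_lit 0x16d8,nat_lit 0x16d9,
    nat_lit 0x16dc,nat_lit 0x16dd,nat_lit 0x178c,nat_lit 0x178d,nat_lit 0x1799,nat_lit 0x179c,nat_lit 0x179d,
    nat_lit 0x17c9,nat_lit 0x17cc,nat_lit 0x17d9,nat_lit 0x17dc,nat_lit 0x17dd,nat_lit 0x18a9e,nat_lit 0x18a9f,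
    nat_lit 0x18aa,nat_lit 0x18ab,nat_lit 0x18af9,nat_lit 0x18b9e,nat_lit 0x18b9f,nat_lit 0x18bce,nat_lit 0x18ead,
    nat_lit 0x18eb9,nat_lit 0x18edb,nat_lit 0x18fac,nat_lit 0x18fad,nat_lit 0x19ab,nat_lit 0x19acf,nat_lit 0x19bb,
    nat_lit 0x19cbe,nat_lit 0x19cbf,nat_lit 0x19dbe,nat_lit 0x19fda,nat_lit 0x1aac,nat_lit 0x1aad,nat_lit 0x1abc,
    nat_lit 0x1abd,nat_lit 0x1aca,nat_lit 0x1acb,nat_lit 0x1accf,nat_lit 0x1acde,nat_lit 0x1ada,nat_lit 0x1adb,
    nat_lit 0x1adcf,nat_lit 0x1afcd,nat_lit 0x1bbc,nat_lit 0x1bbd,nat_lit 0x1bcb,nat_lit 0x1bcde,nat_lit 0x1bdb,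
    nat_lit 0x1bedc,nat_lit 0x1bedd,nat_lit 0x1bfcd,nat_lit 0x1ccfcf,nat_lit 0x1cfccf,nat_lit 0x1cfcfc,
    nat_lit 0x1ddede,nat_lit 0x1dedde,nat_lit 0x1deded]
    [[[nat_lit 0,nat_lit 0,nat_lit 9],[nat_lit 0,nat_lit 0,nat_lit 12],[nat_lit 0,nat_lit 3,nat_lit 14],[nat_lit 0,
    nat_lit 4],[nat_lit 0,nat_lit 5],[nat_lit 0,nat_lit 8,nat_lit 1],[nat_lit 0,nat_lit 8,nat_lit 11],[nat_lit 0,
    nat_lit 9,nat_lit 0],[nat_lit 0,nat_lit 9,nat_lit 1],[nat_lit 0,nat_lit 10,nat_lit 9],[nat_lit 0,nat_lit 11,
    nat_lit 9],[nat_lit 0,nat_lit 11,nat_lit 12]],[[nat_lit 0,nat_lit 11,nat_lit 13],[nat_lit 0,nat_lit 12,nat_lit 0],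
    [nat_lit 0,nat_lit 12,nat_lit 1],[nat_lit 0,nat_lit 12,nat_lit 10],[nat_lit 0,nat_lit 13,nat_lit 1],[nat_lit 0,
    nat_lit 13,nat_lit 10],[nat_lit 0,nat_lit 14,nat_lit 3],[nat_lit 1,nat_lit 0,nat_lit 8],[nat_lit 1,nat_lit 0,
    nat_lit 9],[nat_lit 1,nat_lit 0,nat_lit 12],[nat_lit 1,nat_lit 0,nat_lit 13],[nat_lit 1,nat_lit 1,nat_lit 8]],
    [[nat_lit 1,nat_lit 1,nat_lit 13],[nat_lit 1,nat_lit 2,nat_lit 15],[nat_lit 1,nat_lit 4],[nat_lit 1,nat_lit 5],
    [nat_lit 1,nat_lit 8,nat_lit 1],[nat_lit 1,nat_lit 8,nat_lit 10],[nat_lit 1,nat_lit 8,nat_lit 11],[nat_lit 1,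
    nat_lit 10,nat_lit 9],[nat_lit 1,nat_lit 11,nat_lit 12],[nat_lit 1,nat_lit 11,nat_lit 13],[nat_lit 1,nat_lit 12,
    nat_lit 10],[nat_lit 1,nat_lit 13,nat_lit 1]],[[nat_lit 1,nat_lit 13,nat_lit 10],[nat_lit 1,nat_lit 15,nat_lit 2],
    [nat_lit 2,nat_lit 1,nat_lit 15],[nat_lit 2,nat_lit 6],[nat_lit 2,nat_lit 7],[nat_lit 2,nat_lit 8,nat_lit 14,
    nat_lit 15],[nat_lit 2,nat_lit 9,nat_lit 14,nat_lit 15],[nat_lit 2,nat_lit 10,nat_lit 15],[nat_lit 2,nat_lit 11,
    nat_lit 14],[nat_lit 2,nat_lit 11,nat_lit 15],[nat_lit 2,nat_lit 12,nat_lit 15,nat_lit 15],[nat_lit 2,nat_lit 14,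
    nat_lit 10]],[[nat_lit 2,nat_lit 14,nat_lit 11],[nat_lit 2,nat_lit 15,nat_lit 1],[nat_lit 2,nat_lit 15,nat_lit 9,
    nat_lit 15],[nat_lit 2,nat_lit 15,nat_lit 10],[nat_lit 2,nat_lit 15,nat_lit 15,nat_lit 9],[nat_lit 3,nat_lit 0,
    nat_lit 14],[nat_lit 3,nat_lit 6],[nat_lit 3,nat_lit 7],[nat_lit 3,nat_lit 8,nat_lit 14,nat_lit 14],[nat_lit 3,
    nat_lit 10,nat_lit 15],[nat_lit 3,nat_lit 11,nat_lit 14],[nat_lit 3,nat_lit 11,nat_lit 15]],[[nat_lit 3,
    nat_lit 14,nat_lit 0],[nat_lit 3,nat_lit 14,nat_lit 8,nat_lit 14],[nat_lit 3,nat_lit 14,nat_lit 10],[nat_lit 3,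
    nat_lit 14,nat_lit 11],[nat_lit 3,nat_lit 14,nat_lit 14,nat_lit 13],[nat_lit 3,nat_lit 14,nat_lit 15,nat_lit 8],
    [nat_lit 3,nat_lit 14,nat_lit 15,nat_lit 9],[nat_lit 3,nat_lit 15,nat_lit 10],[nat_lit 4,nat_lit 0],[nat_lit 4,
    nat_lit 1],[nat_lit 4,nat_lit 8,nat_lit 14],[nat_lit 4,nat_lit 8,nat_lit 15]],[[nat_lit 4,nat_lit 9,nat_lit 14],
    [nat_lit 4,nat_lit 9,nat_lit 15],[nat_lit 4,nat_lit 10],[nat_lit 4,nat_lit 11],[nat_lit 4,nat_lit 13,nat_lit 14],
    [nat_lit 4,nat_lit 13,nat_lit 15],[nat_lit 4,nat_lit 14,nat_lit 9],[nat_lit 4,nat_lit 14,nat_lit 13],[nat_lit 4,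
    nat_lit 15,nat_lit 9],[nat_lit 4,nat_lit 15,nat_lit 12],[nat_lit 4,nat_lit 15,nat_lit 13],[nat_lit 5,nat_lit 0]],
    [[nat_lit 5,nat_lit 1],[nat_lit 5,nat_lit 8,nat_lit 14],[nat_lit 5,nat_lit 8,nat_lit 15],[nat_lit 5,nat_lit 10],
    [nat_lit 5,nat_lit 11],[nat_lit 5,nat_lit 12,nat_lit 14],[nat_lit 5,nat_lit 12,nat_lit 15],[nat_lit 5,nat_lit 13,
    nat_lit 14],[nat_lit 5,nat_lit 14,nat_lit 8],[nat_lit 5,nat_lit 14,nat_lit 9],[nat_lit 5,nat_lit 14,nat_lit 12],
    [nat_lit 5,nat_lit 15,nat_lit 8]],[[nat_lit 5,nat_lit 15,nat_lit 9],[nat_lit 5,nat_lit 15,nat_lit 12],[nat_lit 6,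
    nat_lit 2],[nat_lit 6,nat_lit 3],[nat_lit 6,nat_lit 8,nat_lit 8],[nat_lit 6,nat_lit 8,nat_lit 12],[nat_lit 6,
    nat_lit 8,nat_lit 13],[nat_lit 6,nat_lit 12,nat_lit 8],[nat_lit 6,nat_lit 12,nat_lit 9],[nat_lit 6,nat_lit 12,
    nat_lit 12],[nat_lit 6,nat_lit 13,nat_lit 8],[nat_lit 6,nat_lit 13,nat_lit 9]],[[nat_lit 6,nat_lit 13,nat_lit 12],
    [nat_lit 6,nat_lit 13,nat_lit 13],[nat_lit 7,nat_lit 2],[nat_lit 7,nat_lit 3],[nat_lit 7,nat_lit 8,nat_lit 12],
    [nat_lit 7,nat_lit 8,nat_lit 13],[nat_lit 7,nat_lit 9,nat_lit 9],[nat_lit 7,nat_lit 9,nat_lit 12],[nat_lit 7,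
    nat_lit 9,nat_lit 13],[nat_lit 7,nat_lit 12,nat_lit 9],[nat_lit 7,nat_lit 12,nat_lit 12],[nat_lit 7,nat_lit 13,
    nat_lit 9]],[[nat_lit 7,nat_lit 13,nat_lit 12],[nat_lit 7,nat_lit 13,nat_lit 13],[nat_lit 8,nat_lit 1,nat_lit 0],
    [nat_lit 8,nat_lit 1,nat_lit 1],[nat_lit 8,nat_lit 3,nat_lit 14,nat_lit 15],[nat_lit 8,nat_lit 5,nat_lit 14],
    [nat_lit 8,nat_lit 5,nat_lit 15],[nat_lit 8,nat_lit 6,nat_lit 8],[nat_lit 8,nat_lit 6,nat_lit 12],[nat_lit 8,
    nat_lit 6,nat_lit 13],[nat_lit 8,nat_lit 8,nat_lit 6],[nat_lit 8,nat_lit 10,nat_lit 1]],[[nat_lit 8,nat_lit 10,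
    nat_lit 9,nat_lit 14],[nat_lit 8,nat_lit 10,nat_lit 9,nat_lit 15],[nat_lit 8,nat_lit 10,nat_lit 10],[nat_lit 8,
    nat_lit 10,nat_lit 11],[nat_lit 8,nat_lit 10,nat_lit 15,nat_lit 9],[nat_lit 8,nat_lit 11,nat_lit 0],[nat_lit 8,
    nat_lit 11,nat_lit 1],[nat_lit 8,nat_lit 11,nat_lit 9,nat_lit 14],[nat_lit 8,nat_lit 11,nat_lit 9,nat_lit 15],
    [nat_lit 8,nat_lit 11,nat_lit 12,nat_lit 14],[nat_lit 8,nat_lit 12,nat_lit 6],[nat_lit 8,nat_lit 12,nat_lit 7]],
    [[nat_lit 8,nat_lit 13,nat_lit 6],[nat_lit 8,nat_lit 13,nat_lit 7],[nat_lit 8,nat_lit 14,nat_lit 3,nat_lit 14],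
    [nat_lit 8,nat_lit 14,nat_lit 4],[nat_lit 8,nat_lit 14,nat_lit 5],[nat_lit 8,nat_lit 14,nat_lit 10,nat_lit 13],
    [nat_lit 8,nat_lit 14,nat_lit 11,nat_lit 9],[nat_lit 8,nat_lit 14,nat_lit 13,nat_lit 11],[nat_lit 8,nat_lit 14,
    nat_lit 14,nat_lit 3],[nat_lit 8,nat_lit 14,nat_lit 15,nat_lit 2],[nat_lit 8,nat_lit 15,nat_lit 4],[nat_lit 8,
    nat_lit 15,nat_lit 5]],[[nat_lit 8,nat_lit 15,nat_lit 10,nat_lit 12],[nat_lit 8,nat_lit 15,nat_lit 10,nat_lit 13],
    [nat_lit 9,nat_lit 0,nat_lit 0],[nat_lit 9,nat_lit 0,nat_lit 10],[nat_lit 9,nat_lit 0,nat_lit 11],[nat_lit 9,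
    nat_lit 1,nat_lit 0],[nat_lit 9,nat_lit 1,nat_lit 10],[nat_lit 9,nat_lit 2,nat_lit 15,nat_lit 15],[nat_lit 9,
    nat_lit 3,nat_lit 14,nat_lit 15],[nat_lit 9,nat_lit 4,nat_lit 14],[nat_lit 9,nat_lit 4,nat_lit 15],[nat_lit 9,
    nat_lit 5,nat_lit 14]],[[nat_lit 9,nat_lit 5,nat_lit 15],[nat_lit 9,nat_lit 6,nat_lit 12],[nat_lit 9,nat_lit 6,
    nat_lit 13],[nat_lit 9,nat_lit 7,nat_lit 9],[nat_lit 9,nat_lit 7,nat_lit 12],[nat_lit 9,nat_lit 7,nat_lit 13],
    [nat_lit 9,nat_lit 8,nat_lit 10,nat_lit 15],[nat_lit 9,nat_lit 8,nat_lit 14,nat_lit 11],[nat_lit 9,nat_lit 9,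
    nat_lit 7],[nat_lit 9,nat_lit 10,nat_lit 11],[nat_lit 9,nat_lit 10,nat_lit 12,nat_lit 15],[nat_lit 9,nat_lit 11,
    nat_lit 11]],[[nat_lit 9,nat_lit 12,nat_lit 7],[nat_lit 9,nat_lit 12,nat_lit 11,nat_lit 14],[nat_lit 9,nat_lit 12,
    nat_lit 11,nat_lit 15],[nat_lit 9,nat_lit 13,nat_lit 7],[nat_lit 9,nat_lit 13,nat_lit 11,nat_lit 14],[nat_lit 9,
    nat_lit 14,nat_lit 4],[nat_lit 9,nat_lit 14,nat_lit 8,nat_lit 10],[nat_lit 9,nat_lit 14,nat_lit 8,nat_lit 11],
    [nat_lit 9,nat_lit 14,nat_lit 15,nat_lit 2],[nat_lit 9,nat_lit 15,nat_lit 2,nat_lit 15],[nat_lit 9,nat_lit 15,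
    nat_lit 4],[nat_lit 9,nat_lit 15,nat_lit 8,nat_lit 10]],[[nat_lit 9,nat_lit 15,nat_lit 8,nat_lit 11],[nat_lit 9,
    nat_lit 15,nat_lit 13,nat_lit 10],[nat_lit 10,nat_lit 0,nat_lit 12],[nat_lit 10,nat_lit 0,nat_lit 13],[nat_lit 10,
    nat_lit 1,nat_lit 8],[nat_lit 10,nat_lit 1,nat_lit 12],[nat_lit 10,nat_lit 1,nat_lit 13],[nat_lit 10,nat_lit 2,
    nat_lit 14],[nat_lit 10,nat_lit 2,nat_lit 15],[nat_lit 10,nat_lit 3,nat_lit 14],[nat_lit 10,nat_lit 3,nat_lit 15],
    [nat_lit 10,nat_lit 4]],[[nat_lit 10,nat_lit 5],[nat_lit 10,nat_lit 8,nat_lit 10],[nat_lit 10,nat_lit 9,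
    nat_lit 0],[nat_lit 10,nat_lit 9,nat_lit 1],[nat_lit 10,nat_lit 9,nat_lit 14,nat_lit 8],[nat_lit 10,nat_lit 9,
    nat_lit 15,nat_lit 8],[nat_lit 10,nat_lit 9,nat_lit 15,nat_lit 13],[nat_lit 10,nat_lit 10,nat_lit 8],[nat_lit 10,
    nat_lit 10,nat_lit 12],[nat_lit 10,nat_lit 10,nat_lit 13],[nat_lit 10,nat_lit 11,nat_lit 8],[nat_lit 10,
    nat_lit 11,nat_lit 9]],[[nat_lit 10,nat_lit 11,nat_lit 12],[nat_lit 10,nat_lit 11,nat_lit 13],[nat_lit 10,
    nat_lit 12,nat_lit 8,nat_lit 15],[nat_lit 10,nat_lit 12,nat_lit 10],[nat_lit 10,nat_lit 12,nat_lit 11],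
    [nat_lit 10,nat_lit 12,nat_lit 12,nat_lit 15],[nat_lit 10,nat_lit 12,nat_lit 13,nat_lit 14],[nat_lit 10,
    nat_lit 12,nat_lit 15,nat_lit 9],[nat_lit 10,nat_lit 13,nat_lit 8,nat_lit 14],[nat_lit 10,nat_lit 13,nat_lit 8,
    nat_lit 15],[nat_lit 10,nat_lit 13,nat_lit 10],[nat_lit 10,nat_lit 13,nat_lit 11]],[[nat_lit 10,nat_lit 13,
    nat_lit 12,nat_lit 15],[nat_lit 10,nat_lit 15,nat_lit 2],[nat_lit 10,nat_lit 15,nat_lit 3],[nat_lit 10,nat_lit 15,
    nat_lit 9,nat_lit 8],[nat_lit 10,nat_lit 15,nat_lit 12,nat_lit 13],[nat_lit 11,nat_lit 0,nat_lit 8],[nat_lit 11,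
    nat_lit 1,nat_lit 8],[nat_lit 11,nat_lit 2,nat_lit 14],[nat_lit 11,nat_lit 3,nat_lit 14],[nat_lit 11,nat_lit 4],
    [nat_lit 11,nat_lit 5],[nat_lit 11,nat_lit 8,nat_lit 10]],[[nat_lit 11,nat_lit 8,nat_lit 14,nat_lit 13],
    [nat_lit 11,nat_lit 9,nat_lit 0],[nat_lit 11,nat_lit 9,nat_lit 8,nat_lit 14],[nat_lit 11,nat_lit 9,nat_lit 10],
    [nat_lit 11,nat_lit 9,nat_lit 11],[nat_lit 11,nat_lit 9,nat_lit 14,nat_lit 8],[nat_lit 11,nat_lit 9,nat_lit 15,
    nat_lit 8],[nat_lit 11,nat_lit 10,nat_lit 12],[nat_lit 11,nat_lit 10,nat_lit 13],[nat_lit 11,nat_lit 11,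
    nat_lit 9],[nat_lit 11,nat_lit 11,nat_lit 12],[nat_lit 11,nat_lit 11,nat_lit 13]],[[nat_lit 11,nat_lit 12,
    nat_lit 0],[nat_lit 11,nat_lit 12,nat_lit 1],[nat_lit 11,nat_lit 12,nat_lit 10],[nat_lit 11,nat_lit 12,
    nat_lit 11],[nat_lit 11,nat_lit 12,nat_lit 13,nat_lit 14],[nat_lit 11,nat_lit 12,nat_lit 14,nat_lit 8],
    [nat_lit 11,nat_lit 13,nat_lit 0],[nat_lit 11,nat_lit 13,nat_lit 1],[nat_lit 11,nat_lit 13,nat_lit 10],
    [nat_lit 11,nat_lit 13,nat_lit 11],[nat_lit 11,nat_lit 14,nat_lit 2],[nat_lit 11,nat_lit 14,nat_lit 3]],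
    [[nat_lit 11,nat_lit 14,nat_lit 9,nat_lit 12],[nat_lit 11,nat_lit 14,nat_lit 9,nat_lit 13],[nat_lit 11,nat_lit 14,
    nat_lit 13,nat_lit 12],[nat_lit 11,nat_lit 14,nat_lit 13,nat_lit 13],[nat_lit 11,nat_lit 15,nat_lit 2],
    [nat_lit 11,nat_lit 15,nat_lit 3],[nat_lit 11,nat_lit 15,nat_lit 9,nat_lit 12],[nat_lit 11,nat_lit 15,nat_lit 12,
    nat_lit 13],[nat_lit 12,nat_lit 0,nat_lit 0],[nat_lit 12,nat_lit 0,nat_lit 11],[nat_lit 12,nat_lit 1,nat_lit 0],
    [nat_lit 12,nat_lit 1,nat_lit 11]],[[nat_lit 12,nat_lit 4,nat_lit 15],[nat_lit 12,nat_lit 5,nat_lit 14],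
    [nat_lit 12,nat_lit 5,nat_lit 15],[nat_lit 12,nat_lit 6,nat_lit 8],[nat_lit 12,nat_lit 6,nat_lit 12],[nat_lit 12,
    nat_lit 6,nat_lit 13],[nat_lit 12,nat_lit 7,nat_lit 8],[nat_lit 12,nat_lit 7,nat_lit 9],[nat_lit 12,nat_lit 7,
    nat_lit 12],[nat_lit 12,nat_lit 7,nat_lit 13],[nat_lit 12,nat_lit 8,nat_lit 6],[nat_lit 12,nat_lit 8,nat_lit 15,
    nat_lit 10]],[[nat_lit 12,nat_lit 9,nat_lit 6],[nat_lit 12,nat_lit 9,nat_lit 7],[nat_lit 12,nat_lit 10,nat_lit 0],
    [nat_lit 12,nat_lit 10,nat_lit 1],[nat_lit 12,nat_lit 10,nat_lit 10],[nat_lit 12,nat_lit 10,nat_lit 11],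
    [nat_lit 12,nat_lit 11,nat_lit 10],[nat_lit 12,nat_lit 11,nat_lit 11],[nat_lit 12,nat_lit 11,nat_lit 14,
    nat_lit 9],[nat_lit 12,nat_lit 11,nat_lit 14,nat_lit 13],[nat_lit 12,nat_lit 11,nat_lit 15,nat_lit 9],[nat_lit 12,
    nat_lit 12,nat_lit 6]],[[nat_lit 12,nat_lit 12,nat_lit 7],[nat_lit 12,nat_lit 12,nat_lit 15,nat_lit 10],
    [nat_lit 12,nat_lit 12,nat_lit 15,nat_lit 12,nat_lit 15],[nat_lit 12,nat_lit 13,nat_lit 10,nat_lit 15],
    [nat_lit 12,nat_lit 13,nat_lit 11,nat_lit 15],[nat_lit 12,nat_lit 13,nat_lit 14,nat_lit 10],[nat_lit 12,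
    nat_lit 13,nat_lit 14,nat_lit 11],[nat_lit 12,nat_lit 14,nat_lit 5],[nat_lit 12,nat_lit 14,nat_lit 8,nat_lit 11],
    [nat_lit 12,nat_lit 15,nat_lit 5],[nat_lit 12,nat_lit 15,nat_lit 9,nat_lit 10],[nat_lit 12,nat_lit 15,nat_lit 10,
    nat_lit 12]],[[nat_lit 12,nat_lit 15,nat_lit 10,nat_lit 13],[nat_lit 12,nat_lit 15,nat_lit 12,nat_lit 12,
    nat_lit 15],[nat_lit 12,nat_lit 15,nat_lit 12,nat_lit 15,nat_lit 12],[nat_lit 12,nat_lit 15,nat_lit 15,nat_lit 2],
    [nat_lit 13,nat_lit 0,nat_lit 11],[nat_lit 13,nat_lit 1,nat_lit 0],[nat_lit 13,nat_lit 1,nat_lit 1],[nat_lit 13,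
    nat_lit 1,nat_lit 11],[nat_lit 13,nat_lit 3,nat_lit 14,nat_lit 14],[nat_lit 13,nat_lit 4,nat_lit 14],[nat_lit 13,
    nat_lit 4,nat_lit 15],[nat_lit 13,nat_lit 6,nat_lit 8]],[[nat_lit 13,nat_lit 6,nat_lit 13],[nat_lit 13,nat_lit 7,
    nat_lit 8],[nat_lit 13,nat_lit 7,nat_lit 9],[nat_lit 13,nat_lit 7,nat_lit 13],[nat_lit 13,nat_lit 8,nat_lit 6],
    [nat_lit 13,nat_lit 8,nat_lit 14,nat_lit 10],[nat_lit 13,nat_lit 8,nat_lit 15,nat_lit 10],[nat_lit 13,nat_lit 9,
    nat_lit 6],[nat_lit 13,nat_lit 9,nat_lit 7],[nat_lit 13,nat_lit 10,nat_lit 0],[nat_lit 13,nat_lit 10,nat_lit 1],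
    [nat_lit 13,nat_lit 10,nat_lit 9,nat_lit 15]],[[nat_lit 13,nat_lit 10,nat_lit 10],[nat_lit 13,nat_lit 10,
    nat_lit 11],[nat_lit 13,nat_lit 10,nat_lit 15,nat_lit 12],[nat_lit 13,nat_lit 11,nat_lit 8,nat_lit 14],
    [nat_lit 13,nat_lit 11,nat_lit 10],[nat_lit 13,nat_lit 11,nat_lit 11],[nat_lit 13,nat_lit 11,nat_lit 14,
    nat_lit 9],[nat_lit 13,nat_lit 11,nat_lit 14,nat_lit 13],[nat_lit 13,nat_lit 11,nat_lit 15,nat_lit 12],
    [nat_lit 13,nat_lit 12,nat_lit 6],[nat_lit 13,nat_lit 12,nat_lit 7],[nat_lit 13,nat_lit 12,nat_lit 11,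
    nat_lit 14]],[[nat_lit 13,nat_lit 12,nat_lit 15,nat_lit 10],[nat_lit 13,nat_lit 13,nat_lit 6],[nat_lit 13,
    nat_lit 13,nat_lit 7],[nat_lit 13,nat_lit 13,nat_lit 11,nat_lit 14],[nat_lit 13,nat_lit 13,nat_lit 14,nat_lit 13,
    nat_lit 14],[nat_lit 13,nat_lit 14,nat_lit 4],[nat_lit 13,nat_lit 14,nat_lit 5],[nat_lit 13,nat_lit 14,nat_lit 10,
    nat_lit 12],[nat_lit 13,nat_lit 14,nat_lit 11,nat_lit 12],[nat_lit 13,nat_lit 14,nat_lit 13,nat_lit 13,
    nat_lit 14],[nat_lit 13,nat_lit 14,nat_lit 13,nat_lit 14,nat_lit 13],[nat_lit 13,nat_lit 15,nat_lit 4]],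
    [[nat_lit 14,nat_lit 0,nat_lit 3],[nat_lit 14,nat_lit 2,nat_lit 11],[nat_lit 14,nat_lit 3,nat_lit 0],[nat_lit 14,
    nat_lit 3,nat_lit 8,nat_lit 14],[nat_lit 14,nat_lit 3,nat_lit 11],[nat_lit 14,nat_lit 3,nat_lit 14,nat_lit 8],
    [nat_lit 14,nat_lit 4,nat_lit 8],[nat_lit 14,nat_lit 4,nat_lit 9],[nat_lit 14,nat_lit 4,nat_lit 13],[nat_lit 14,
    nat_lit 5,nat_lit 8],[nat_lit 14,nat_lit 5,nat_lit 12],[nat_lit 14,nat_lit 5,nat_lit 13]],[[nat_lit 14,nat_lit 8,
    nat_lit 5],[nat_lit 14,nat_lit 8,nat_lit 10,nat_lit 9],[nat_lit 14,nat_lit 8,nat_lit 11,nat_lit 9],[nat_lit 14,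
    nat_lit 8,nat_lit 11,nat_lit 12],[nat_lit 14,nat_lit 8,nat_lit 14,nat_lit 3],[nat_lit 14,nat_lit 9,nat_lit 4],
    [nat_lit 14,nat_lit 9,nat_lit 5],[nat_lit 14,nat_lit 9,nat_lit 12,nat_lit 11],[nat_lit 14,nat_lit 9,nat_lit 13,
    nat_lit 11],[nat_lit 14,nat_lit 10,nat_lit 2],[nat_lit 14,nat_lit 10,nat_lit 3],[nat_lit 14,nat_lit 10,nat_lit 12,
    nat_lit 13]],[[nat_lit 14,nat_lit 10,nat_lit 13,nat_lit 8],[nat_lit 14,nat_lit 11,nat_lit 2],[nat_lit 14,
    nat_lit 11,nat_lit 3],[nat_lit 14,nat_lit 11,nat_lit 9,nat_lit 8],[nat_lit 14,nat_lit 11,nat_lit 12,nat_lit 13],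
    [nat_lit 14,nat_lit 12,nat_lit 5],[nat_lit 14,nat_lit 13,nat_lit 3,nat_lit 14],[nat_lit 14,nat_lit 13,nat_lit 4],
    [nat_lit 14,nat_lit 13,nat_lit 11,nat_lit 8],[nat_lit 14,nat_lit 13,nat_lit 12,nat_lit 11],[nat_lit 14,nat_lit 13,
    nat_lit 13,nat_lit 11],[nat_lit 14,nat_lit 13,nat_lit 13,nat_lit 14,nat_lit 13]],[[nat_lit 14,nat_lit 13,
    nat_lit 14,nat_lit 13,nat_lit 13],[nat_lit 14,nat_lit 14,nat_lit 3,nat_lit 8],[nat_lit 14,nat_lit 14,nat_lit 13,
    nat_lit 3],[nat_lit 14,nat_lit 15,nat_lit 2,nat_lit 8],[nat_lit 14,nat_lit 15,nat_lit 2,nat_lit 9],[nat_lit 14,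
    nat_lit 15,nat_lit 8,nat_lit 3],[nat_lit 14,nat_lit 15,nat_lit 9,nat_lit 3],[nat_lit 15,nat_lit 1,nat_lit 2],
    [nat_lit 15,nat_lit 2,nat_lit 1],[nat_lit 15,nat_lit 2,nat_lit 8,nat_lit 14],[nat_lit 15,nat_lit 2,nat_lit 9,
    nat_lit 14],[nat_lit 15,nat_lit 2,nat_lit 10]],[[nat_lit 15,nat_lit 2,nat_lit 11],[nat_lit 15,nat_lit 2,
    nat_lit 12,nat_lit 15],[nat_lit 15,nat_lit 2,nat_lit 15,nat_lit 9],[nat_lit 15,nat_lit 3,nat_lit 10],[nat_lit 15,
    nat_lit 3,nat_lit 11],[nat_lit 15,nat_lit 4,nat_lit 8],[nat_lit 15,nat_lit 4,nat_lit 9],[nat_lit 15,nat_lit 4,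
    nat_lit 13],[nat_lit 15,nat_lit 5,nat_lit 8],[nat_lit 15,nat_lit 5,nat_lit 12],[nat_lit 15,nat_lit 8,nat_lit 3,
    nat_lit 14],[nat_lit 15,nat_lit 8,nat_lit 5]],[[nat_lit 15,nat_lit 8,nat_lit 10,nat_lit 9],[nat_lit 15,nat_lit 8,
    nat_lit 11,nat_lit 9],[nat_lit 15,nat_lit 9,nat_lit 2,nat_lit 15],[nat_lit 15,nat_lit 9,nat_lit 3,nat_lit 14],
    [nat_lit 15,nat_lit 9,nat_lit 4],[nat_lit 15,nat_lit 9,nat_lit 5],[nat_lit 15,nat_lit 9,nat_lit 8,nat_lit 10],
    [nat_lit 15,nat_lit 9,nat_lit 10,nat_lit 12],[nat_lit 15,nat_lit 9,nat_lit 12,nat_lit 11],[nat_lit 15,nat_lit 9,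
    nat_lit 15,nat_lit 2],[nat_lit 15,nat_lit 10,nat_lit 2],[nat_lit 15,nat_lit 10,nat_lit 3]],[[nat_lit 15,
    nat_lit 10,nat_lit 12,nat_lit 8],[nat_lit 15,nat_lit 10,nat_lit 12,nat_lit 12],[nat_lit 15,nat_lit 10,nat_lit 13,
    nat_lit 8],[nat_lit 15,nat_lit 10,nat_lit 13,nat_lit 12],[nat_lit 15,nat_lit 12,nat_lit 4],[nat_lit 15,nat_lit 12,
    nat_lit 5],[nat_lit 15,nat_lit 12,nat_lit 12,nat_lit 15,nat_lit 12],[nat_lit 15,nat_lit 12,nat_lit 13,nat_lit 10],
    [nat_lit 15,nat_lit 12,nat_lit 13,nat_lit 11],[nat_lit 15,nat_lit 12,nat_lit 15,nat_lit 12,nat_lit 12],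
    [nat_lit 15,nat_lit 13,nat_lit 4],[nat_lit 15,nat_lit 13,nat_lit 10,nat_lit 9]],[[nat_lit 15,nat_lit 15,nat_lit 2,
    nat_lit 12],[nat_lit 15,nat_lit 15,nat_lit 9,nat_lit 2]]]
    [[nat_lit 7,nat_lit 13,nat_lit 60,nat_lit 68,nat_lit 83,nat_lit 122,nat_lit 137,nat_lit 158,nat_lit 161,
    nat_lit 206,nat_lit 241,nat_lit 252],[nat_lit 258,nat_lit 272,nat_lit 274,nat_lit 290,nat_lit 317,nat_lit 333,
    nat_lit 362,nat_lit 5,nat_lit 8,nat_lit 14,nat_lit 16,nat_lit 28],[nat_lit 35,nat_lit 49,nat_lit 69,nat_lit 84,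
    nat_lit 123,nat_lit 131,nat_lit 138,nat_lit 207,nat_lit 253,nat_lit 259,nat_lit 291,nat_lit 318],[nat_lit 334,
    nat_lit 404,nat_lit 37,nat_lit 98,nat_lit 110,nat_lit 153,nat_lit 188,nat_lit 229,nat_lit 262,nat_lit 268,
    nat_lit 315,nat_lit 381],[nat_lit 385,nat_lit 403,nat_lit 429,nat_lit 430,nat_lit 445,nat_lit 18,nat_lit 99,
    nat_lit 111,nat_lit 152,nat_lit 230,nat_lit 263,nat_lit 269],[nat_lit 360,nat_lit 376,nat_lit 382,nat_lit 386,
    nat_lit 398,nat_lit 401,nat_lit 402,nat_lit 431,nat_lit 3,nat_lit 26,nat_lit 147,nat_lit 154],[nat_lit 185,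
    nat_lit 190,nat_lit 203,nat_lit 237,nat_lit 353,nat_lit 359,nat_lit 377,nat_lit 391,nat_lit 424,nat_lit 436,
    nat_lit 442,nat_lit 4],[nat_lit 27,nat_lit 148,nat_lit 155,nat_lit 204,nat_lit 238,nat_lit 307,nat_lit 309,
    nat_lit 354,nat_lit 372,nat_lit 378,nat_lit 389,nat_lit 419],[nat_lit 425,nat_lit 437,nat_lit 39,nat_lit 54,
    nat_lit 130,nat_lit 142,nat_lit 144,nat_lit 286,nat_lit 288,nat_lit 299,nat_lit 328,nat_lit 331],[nat_lit 345,
    nat_lit 349,nat_lit 40,nat_lit 55,nat_lit 143,nat_lit 145,nat_lit 176,nat_lit 180,nat_lit 183,nat_lit 289,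
    nat_lit 300,nat_lit 332],[nat_lit 346,nat_lit 350,nat_lit 19,nat_lit 23,nat_lit 65,nat_lit 92,nat_lit 95,
    nat_lit 100,nat_lit 103,nat_lit 106,nat_lit 127,nat_lit 196],[nat_lit 208,nat_lit 209,nat_lit 211,nat_lit 214,
    nat_lit 231,nat_lit 233,nat_lit 234,nat_lit 245,nat_lit 246,nat_lit 257,nat_lit 279,nat_lit 282],[nat_lit 323,
    nat_lit 325,nat_lit 365,nat_lit 366,nat_lit 369,nat_lit 384,nat_lit 387,nat_lit 392,nat_lit 397,nat_lit 399,
    nat_lit 413,nat_lit 416],[nat_lit 432,nat_lit 434,nat_lit 0,nat_lit 9,nat_lit 10,nat_lit 20,nat_lit 31,nat_lit 52,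
    nat_lit 66,nat_lit 78,nat_lit 80,nat_lit 93],[nat_lit 96,nat_lit 104,nat_lit 107,nat_lit 114,nat_lit 117,
    nat_lit 119,nat_lit 136,nat_lit 150,nat_lit 171,nat_lit 215,nat_lit 223,nat_lit 249],[nat_lit 283,nat_lit 296,
    nat_lit 298,nat_lit 326,nat_lit 342,nat_lit 367,nat_lit 373,nat_lit 374,nat_lit 400,nat_lit 410,nat_lit 414,
    nat_lit 420],[nat_lit 421,nat_lit 443,nat_lit 15,nat_lit 17,nat_lit 29,nat_lit 34,nat_lit 36,nat_lit 47,
    nat_lit 51,nat_lit 62,nat_lit 67,nat_lit 74],[nat_lit 87,nat_lit 134,nat_lit 159,nat_lit 162,nat_lit 186,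
    nat_lit 191,nat_lit 193,nat_lit 205,nat_lit 219,nat_lit 226,nat_lit 239,nat_lit 243],[nat_lit 254,nat_lit 260,
    nat_lit 287,nat_lit 292,nat_lit 294,nat_lit 301,nat_lit 305,nat_lit 310,nat_lit 329,nat_lit 330,nat_lit 336,
    nat_lit 340],[nat_lit 348,nat_lit 407,nat_lit 411,nat_lit 426,nat_lit 439,nat_lit 6,nat_lit 30,nat_lit 48,
    nat_lit 63,nat_lit 75,nat_lit 88,nat_lit 135],[nat_lit 151,nat_lit 160,nat_lit 175,nat_lit 177,nat_lit 179,
    nat_lit 187,nat_lit 192,nat_lit 220,nat_lit 227,nat_lit 244,nat_lit 255,nat_lit 261],[nat_lit 273,nat_lit 275,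
    nat_lit 293,nat_lit 295,nat_lit 306,nat_lit 308,nat_lit 316,nat_lit 319,nat_lit 337,nat_lit 341,nat_lit 361,
    nat_lit 364],[nat_lit 379,nat_lit 380,nat_lit 393,nat_lit 394,nat_lit 408,nat_lit 412,nat_lit 428,nat_lit 440,
    nat_lit 1,nat_lit 11,nat_lit 21,nat_lit 32],[nat_lit 81,nat_lit 94,nat_lit 97,nat_lit 101,nat_lit 105,nat_lit 108,
    nat_lit 112,nat_lit 115,nat_lit 118,nat_lit 120,nat_lit 128,nat_lit 156],[nat_lit 169,nat_lit 172,nat_lit 194,
    nat_lit 197,nat_lit 212,nat_lit 216,nat_lit 247,nat_lit 250,nat_lit 264,nat_lit 266,nat_lit 270,nat_lit 280],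
    [nat_lit 284,nat_lit 311,nat_lit 314,nat_lit 338,nat_lit 344,nat_lit 355,nat_lit 356,nat_lit 370,nat_lit 375,
    nat_lit 417,nat_lit 427,nat_lit 433],[nat_lit 435,nat_lit 438,nat_lit 441,nat_lit 444,nat_lit 12,nat_lit 22,
    nat_lit 24,nat_lit 33,nat_lit 64,nat_lit 79,nat_lit 82,nat_lit 102],[nat_lit 109,nat_lit 113,nat_lit 116,
    nat_lit 121,nat_lit 129,nat_lit 149,nat_lit 157,nat_lit 170,nat_lit 173,nat_lit 195,nat_lit 198,nat_lit 210],
    [nat_lit 213,nat_lit 217,nat_lit 232,nat_lit 240,nat_lit 248,nat_lit 251,nat_lit 265,nat_lit 267,nat_lit 271,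
    nat_lit 281,nat_lit 285,nat_lit 297],[nat_lit 312,nat_lit 324,nat_lit 327,nat_lit 343,nat_lit 358,nat_lit 368,
    nat_lit 371,nat_lit 383,nat_lit 388,nat_lit 395,nat_lit 396,nat_lit 415],[nat_lit 2,nat_lit 44,nat_lit 53,
    nat_lit 56,nat_lit 58,nat_lit 61,nat_lit 70,nat_lit 72,nat_lit 76,nat_lit 85,nat_lit 89,nat_lit 91],[nat_lit 125,
    nat_lit 132,nat_lit 139,nat_lit 141,nat_lit 146,nat_lit 165,nat_lit 167,nat_lit 181,nat_lit 184,nat_lit 199,
    nat_lit 201,nat_lit 222],[nat_lit 224,nat_lit 235,nat_lit 236,nat_lit 242,nat_lit 256,nat_lit 277,nat_lit 320,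
    nat_lit 321,nat_lit 339,nat_lit 347,nat_lit 351,nat_lit 352],[nat_lit 357,nat_lit 363,nat_lit 390,nat_lit 405,
    nat_lit 406,nat_lit 418,nat_lit 423,nat_lit 25,nat_lit 38,nat_lit 41,nat_lit 42,nat_lit 43],[nat_lit 45,
    nat_lit 46,nat_lit 50,nat_lit 57,nat_lit 59,nat_lit 71,nat_lit 73,nat_lit 77,nat_lit 86,nat_lit 90,nat_lit 124,
    nat_lit 126],[nat_lit 133,nat_lit 140,nat_lit 163,nat_lit 164,nat_lit 166,nat_lit 168,nat_lit 174,nat_lit 178,
    nat_lit 182,nat_lit 189,nat_lit 200,nat_lit 202],[nat_lit 218,nat_lit 221,nat_lit 225,nat_lit 228,nat_lit 276,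
    nat_lit 278,nat_lit 302,nat_lit 303,nat_lit 304,nat_lit 313,nat_lit 322,nat_lit 335],[nat_lit 409,nat_lit 422]]
    [[nat_lit 158,nat_lit 272,nat_lit 360,nat_lit 68,nat_lit 83,nat_lit 19,nat_lit 233,nat_lit 0,nat_lit 20,
    nat_lit 159,nat_lit 160,nat_lit 273],[nat_lit 316,nat_lit 1,nat_lit 21,nat_lit 194,nat_lit 22,nat_lit 195,
    nat_lit 53,nat_lit 122,nat_lit 161,nat_lit 274,nat_lit 317,nat_lit 123],[nat_lit 318,nat_lit 403,nat_lit 69,
    nat_lit 84,nat_lit 23,nat_lit 196,nat_lit 234,nat_lit 162,nat_lit 275,nat_lit 319,nat_lit 197,nat_lit 24],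
    [nat_lit 198,nat_lit 38,nat_lit 404,nat_lit 98,nat_lit 110,nat_lit 405,nat_lit 406,nat_lit 407,nat_lit 361,
    nat_lit 408,nat_lit 409,nat_lit 199],[nat_lit 235,nat_lit 25,nat_lit 410,nat_lit 200,nat_lit 163,nat_lit 362,
    nat_lit 99,nat_lit 111,nat_lit 363,nat_lit 411,nat_lit 364,nat_lit 412],[nat_lit 2,nat_lit 365,nat_lit 201,
    nat_lit 236,nat_lit 320,nat_lit 124,nat_lit 164,nat_lit 202,nat_lit 3,nat_lit 26,nat_lit 366,nat_lit 413],
    [nat_lit 367,nat_lit 414,nat_lit 203,nat_lit 237,nat_lit 368,nat_lit 415,nat_lit 165,nat_lit 321,nat_lit 166,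
    nat_lit 276,nat_lit 322,nat_lit 4],[nat_lit 27,nat_lit 369,nat_lit 416,nat_lit 204,nat_lit 238,nat_lit 370,
    nat_lit 417,nat_lit 371,nat_lit 125,nat_lit 167,nat_lit 277,nat_lit 126],[nat_lit 168,nat_lit 278,nat_lit 39,
    nat_lit 54,nat_lit 127,nat_lit 279,nat_lit 323,nat_lit 128,nat_lit 169,nat_lit 280,nat_lit 129,nat_lit 170],
    [nat_lit 281,nat_lit 324,nat_lit 40,nat_lit 55,nat_lit 282,nat_lit 325,nat_lit 171,nat_lit 283,nat_lit 326,
    nat_lit 172,nat_lit 284,nat_lit 173],[nat_lit 285,nat_lit 327,nat_lit 5,nat_lit 28,nat_lit 418,nat_lit 372,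
    nat_lit 419,nat_lit 130,nat_lit 286,nat_lit 328,nat_lit 100,nat_lit 29],[nat_lit 373,nat_lit 420,nat_lit 205,
    nat_lit 239,nat_lit 174,nat_lit 6,nat_lit 30,nat_lit 374,nat_lit 421,nat_lit 375,nat_lit 101,nat_lit 112],
    [nat_lit 102,nat_lit 113,nat_lit 376,nat_lit 70,nat_lit 85,nat_lit 329,nat_lit 175,nat_lit 240,nat_lit 56,
    nat_lit 41,nat_lit 71,nat_lit 86],[nat_lit 287,nat_lit 330,nat_lit 7,nat_lit 206,nat_lit 241,nat_lit 8,
    nat_lit 207,nat_lit 422,nat_lit 423,nat_lit 377,nat_lit 424,nat_lit 378],[nat_lit 425,nat_lit 288,nat_lit 331,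
    nat_lit 176,nat_lit 289,nat_lit 332,nat_lit 426,nat_lit 242,nat_lit 114,nat_lit 243,nat_lit 427,nat_lit 244],
    [nat_lit 115,nat_lit 379,nat_lit 428,nat_lit 116,nat_lit 380,nat_lit 72,nat_lit 208,nat_lit 245,nat_lit 42,
    nat_lit 429,nat_lit 73,nat_lit 209],[nat_lit 246,nat_lit 210,nat_lit 290,nat_lit 333,nat_lit 131,nat_lit 291,
    nat_lit 334,nat_lit 381,nat_lit 430,nat_lit 382,nat_lit 431,nat_lit 74],[nat_lit 87,nat_lit 211,nat_lit 9,
    nat_lit 31,nat_lit 132,nat_lit 133,nat_lit 335,nat_lit 134,nat_lit 292,nat_lit 336,nat_lit 135,nat_lit 177],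
    [nat_lit 293,nat_lit 337,nat_lit 432,nat_lit 212,nat_lit 247,nat_lit 433,nat_lit 383,nat_lit 178,nat_lit 384,
    nat_lit 434,nat_lit 213,nat_lit 248],[nat_lit 435,nat_lit 43,nat_lit 57,nat_lit 136,nat_lit 338,nat_lit 137,
    nat_lit 138,nat_lit 385,nat_lit 386,nat_lit 75,nat_lit 88,nat_lit 214],[nat_lit 339,nat_lit 10,nat_lit 387,
    nat_lit 215,nat_lit 249,nat_lit 139,nat_lit 140,nat_lit 294,nat_lit 340,nat_lit 179,nat_lit 295,nat_lit 341],
    [nat_lit 11,nat_lit 32,nat_lit 216,nat_lit 250,nat_lit 388,nat_lit 141,nat_lit 12,nat_lit 33,nat_lit 217,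
    nat_lit 251,nat_lit 44,nat_lit 58],[nat_lit 296,nat_lit 342,nat_lit 297,nat_lit 343,nat_lit 45,nat_lit 59,
    nat_lit 298,nat_lit 344,nat_lit 13,nat_lit 252,nat_lit 14,nat_lit 253],[nat_lit 436,nat_lit 389,nat_lit 437,
    nat_lit 142,nat_lit 299,nat_lit 345,nat_lit 143,nat_lit 180,nat_lit 300,nat_lit 346,nat_lit 103,nat_lit 218],
    [nat_lit 104,nat_lit 117,nat_lit 15,nat_lit 34,nat_lit 219,nat_lit 254,nat_lit 220,nat_lit 255,nat_lit 181,
    nat_lit 347,nat_lit 182,nat_lit 105],[nat_lit 118,nat_lit 221,nat_lit 438,nat_lit 439,nat_lit 440,nat_lit 222,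
    nat_lit 256,nat_lit 89,nat_lit 257,nat_lit 90,nat_lit 223,nat_lit 301],[nat_lit 348,nat_lit 441,nat_lit 302,
    nat_lit 46,nat_lit 258,nat_lit 16,nat_lit 35,nat_lit 259,nat_lit 390,nat_lit 391,nat_lit 442,nat_lit 144],
    [nat_lit 349,nat_lit 145,nat_lit 183,nat_lit 350,nat_lit 106,nat_lit 224,nat_lit 225,nat_lit 107,nat_lit 119,
    nat_lit 17,nat_lit 36,nat_lit 443],[nat_lit 226,nat_lit 260,nat_lit 303,nat_lit 392,nat_lit 227,nat_lit 261,
    nat_lit 184,nat_lit 351,nat_lit 304,nat_lit 108,nat_lit 120,nat_lit 393],[nat_lit 228,nat_lit 109,nat_lit 121,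
    nat_lit 394,nat_lit 395,nat_lit 76,nat_lit 91,nat_lit 305,nat_lit 306,nat_lit 396,nat_lit 352,nat_lit 77],
    [nat_lit 60,nat_lit 262,nat_lit 18,nat_lit 397,nat_lit 263,nat_lit 146,nat_lit 147,nat_lit 185,nat_lit 353,
    nat_lit 148,nat_lit 307,nat_lit 354],[nat_lit 92,nat_lit 186,nat_lit 187,nat_lit 308,nat_lit 61,nat_lit 78,
    nat_lit 93,nat_lit 264,nat_lit 265,nat_lit 47,nat_lit 62,nat_lit 355],[nat_lit 149,nat_lit 48,nat_lit 63,
    nat_lit 150,nat_lit 356,nat_lit 94,nat_lit 398,nat_lit 79,nat_lit 151,nat_lit 266,nat_lit 267,nat_lit 357],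
    [nat_lit 358,nat_lit 152,nat_lit 64,nat_lit 153,nat_lit 188,nat_lit 65,nat_lit 66,nat_lit 49,nat_lit 37,
    nat_lit 399,nat_lit 400,nat_lit 229],[nat_lit 268,nat_lit 444,nat_lit 189,nat_lit 230,nat_lit 269,nat_lit 154,
    nat_lit 190,nat_lit 359,nat_lit 155,nat_lit 309,nat_lit 401,nat_lit 95],[nat_lit 191,nat_lit 192,nat_lit 445,
    nat_lit 402,nat_lit 80,nat_lit 96,nat_lit 231,nat_lit 310,nat_lit 270,nat_lit 50,nat_lit 51,nat_lit 67],
    [nat_lit 156,nat_lit 311,nat_lit 157,nat_lit 312,nat_lit 81,nat_lit 97,nat_lit 313,nat_lit 232,nat_lit 271,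
    nat_lit 314,nat_lit 82,nat_lit 193],[nat_lit 315,nat_lit 52]]
    [[[nat_lit 381,nat_lit 385],[nat_lit 381,nat_lit 385],[],[],[nat_lit 360,nat_lit 376,nat_lit 382,nat_lit 386,
    nat_lit 398,nat_lit 401,nat_lit 402],[],[],[],[],[nat_lit 370,nat_lit 375],[nat_lit 367,nat_lit 373,nat_lit 374,
    nat_lit 400],[nat_lit 367,nat_lit 373,nat_lit 374,nat_lit 400]],[[nat_lit 367,nat_lit 373,nat_lit 374,
    nat_lit 400],[nat_lit 363,nat_lit 390],[nat_lit 363,nat_lit 390],[nat_lit 363,nat_lit 390],[nat_lit 361,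
    nat_lit 364,nat_lit 379,nat_lit 380,nat_lit 393,nat_lit 394],[nat_lit 361,nat_lit 364,nat_lit 379,nat_lit 380,
    nat_lit 393,nat_lit 394],[nat_lit 362],[],[],[],[],[nat_lit 57,nat_lit 59]],[[nat_lit 57,nat_lit 59],[],
    [nat_lit 54],[],[nat_lit 62,nat_lit 67],[nat_lit 62,nat_lit 67],[nat_lit 62,nat_lit 67],[],[nat_lit 66],
    [nat_lit 66],[nat_lit 53,nat_lit 56,nat_lit 58,nat_lit 61],[nat_lit 63]],[[nat_lit 63],[nat_lit 64],[],[],
    [nat_lit 4],[nat_lit 15,nat_lit 17],[],[nat_lit 1,nat_lit 11],[nat_lit 0,nat_lit 9,nat_lit 10],[nat_lit 0,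
    nat_lit 9,nat_lit 10],[nat_lit 2],[nat_lit 7,nat_lit 13]],[[nat_lit 7,nat_lit 13],[nat_lit 12],[nat_lit 12],
    [nat_lit 12],[nat_lit 12],[],[nat_lit 92,nat_lit 95],[],[nat_lit 87],[nat_lit 94,nat_lit 97],[nat_lit 93,
    nat_lit 96],[nat_lit 93,nat_lit 96]],[[nat_lit 83],[nat_lit 83],[nat_lit 83],[nat_lit 83],[nat_lit 83],
    [nat_lit 83],[nat_lit 83],[],[],[nat_lit 38,nat_lit 41,nat_lit 42,nat_lit 43,nat_lit 45,nat_lit 46,nat_lit 50],
    [nat_lit 47,nat_lit 51],[nat_lit 47,nat_lit 51]],[[nat_lit 40],[nat_lit 40],[],[nat_lit 52],[nat_lit 48],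
    [nat_lit 48],[],[],[],[],[],[nat_lit 110]],[[],[],[],[nat_lit 112,nat_lit 115,nat_lit 118,nat_lit 120],
    [nat_lit 114,nat_lit 117,nat_lit 119],[],[],[],[],[],[],[nat_lit 113,nat_lit 116,nat_lit 121]],[[nat_lit 113,
    nat_lit 116,nat_lit 121],[nat_lit 113,nat_lit 116,nat_lit 121],[],[nat_lit 69],[nat_lit 74],[nat_lit 74],
    [nat_lit 74],[nat_lit 70,nat_lit 72,nat_lit 76],[nat_lit 70,nat_lit 72,nat_lit 76],[nat_lit 70,nat_lit 72,
    nat_lit 76],[nat_lit 75],[nat_lit 75]],[[nat_lit 75],[nat_lit 75],[nat_lit 185,nat_lit 190],[],[nat_lit 159,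
    nat_lit 162,nat_lit 186,nat_lit 191,nat_lit 193],[nat_lit 159,nat_lit 162,nat_lit 186,nat_lit 191,nat_lit 193],
    [nat_lit 176,nat_lit 180,nat_lit 183],[nat_lit 176,nat_lit 180,nat_lit 183],[nat_lit 176,nat_lit 180,nat_lit 183],
    [nat_lit 165,nat_lit 167,nat_lit 181,nat_lit 184],[nat_lit 165,nat_lit 167,nat_lit 181,nat_lit 184],[nat_lit 160,
    nat_lit 175,nat_lit 177,nat_lit 179,nat_lit 187,nat_lit 192]],[[nat_lit 160,nat_lit 175,nat_lit 177,nat_lit 179,
    nat_lit 187,nat_lit 192],[nat_lit 160,nat_lit 175,nat_lit 177,nat_lit 179,nat_lit 187,nat_lit 192],[],[],[],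
    [nat_lit 99],[nat_lit 99],[nat_lit 100,nat_lit 103,nat_lit 106],[nat_lit 100,nat_lit 103,nat_lit 106],
    [nat_lit 100,nat_lit 103,nat_lit 106],[],[nat_lit 101,nat_lit 105,nat_lit 108]],[[nat_lit 101,nat_lit 105,
    nat_lit 108],[nat_lit 101,nat_lit 105,nat_lit 108],[nat_lit 101,nat_lit 105,nat_lit 108],[nat_lit 101,nat_lit 105,
    nat_lit 108],[nat_lit 101,nat_lit 105,nat_lit 108],[nat_lit 104,nat_lit 107],[nat_lit 104,nat_lit 107],
    [nat_lit 104,nat_lit 107],[nat_lit 104,nat_lit 107],[nat_lit 104,nat_lit 107],[],[]],[[],[],[],[],[],[],[],[],[],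
    [],[nat_lit 102,nat_lit 109],[nat_lit 102,nat_lit 109]],[[nat_lit 102,nat_lit 109],[nat_lit 102,nat_lit 109],
    [nat_lit 262,nat_lit 268],[nat_lit 262,nat_lit 268],[nat_lit 262,nat_lit 268],[],[],[nat_lit 237],[nat_lit 253,
    nat_lit 259],[],[],[nat_lit 263,nat_lit 269]],[[nat_lit 263,nat_lit 269],[nat_lit 233,nat_lit 234,nat_lit 245,
    nat_lit 246,nat_lit 257],[nat_lit 233,nat_lit 234,nat_lit 245,nat_lit 246,nat_lit 257],[nat_lit 238],
    [nat_lit 238],[nat_lit 238],[nat_lit 239,nat_lit 243,nat_lit 254,nat_lit 260],[nat_lit 239,nat_lit 243,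
    nat_lit 254,nat_lit 260],[],[nat_lit 247,nat_lit 250,nat_lit 264,nat_lit 266,nat_lit 270],[nat_lit 247,
    nat_lit 250,nat_lit 264,nat_lit 266,nat_lit 270],[nat_lit 249]],[[nat_lit 235,nat_lit 236,nat_lit 242,
    nat_lit 256],[nat_lit 235,nat_lit 236,nat_lit 242,nat_lit 256],[nat_lit 235,nat_lit 236,nat_lit 242,nat_lit 256],
    [nat_lit 244,nat_lit 255,nat_lit 261],[nat_lit 244,nat_lit 255,nat_lit 261],[nat_lit 241,nat_lit 252,nat_lit 258],
    [nat_lit 241,nat_lit 252,nat_lit 258],[nat_lit 241,nat_lit 252,nat_lit 258],[nat_lit 241,nat_lit 252,nat_lit 258],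
    [nat_lit 240,nat_lit 248,nat_lit 251,nat_lit 265,nat_lit 267,nat_lit 271],[nat_lit 240,nat_lit 248,nat_lit 251,
    nat_lit 265,nat_lit 267,nat_lit 271],[nat_lit 240,nat_lit 248,nat_lit 251,nat_lit 265,nat_lit 267,nat_lit 271]],
    [[nat_lit 240,nat_lit 248,nat_lit 251,nat_lit 265,nat_lit 267,nat_lit 271],[nat_lit 240,nat_lit 248,nat_lit 251,
    nat_lit 265,nat_lit 267,nat_lit 271],[nat_lit 153],[nat_lit 153],[nat_lit 124,nat_lit 126,nat_lit 133,
    nat_lit 140],[nat_lit 124,nat_lit 126,nat_lit 133,nat_lit 140],[nat_lit 124,nat_lit 126,nat_lit 133,nat_lit 140],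
    [nat_lit 147,nat_lit 154],[nat_lit 147,nat_lit 154],[nat_lit 123,nat_lit 131,nat_lit 138],[nat_lit 123,
    nat_lit 131,nat_lit 138],[nat_lit 130,nat_lit 142,nat_lit 144]],[[nat_lit 152],[nat_lit 134],[nat_lit 143,
    nat_lit 145],[nat_lit 143,nat_lit 145],[nat_lit 143,nat_lit 145],[nat_lit 143,nat_lit 145],[nat_lit 143,
    nat_lit 145],[nat_lit 128,nat_lit 156],[nat_lit 128,nat_lit 156],[nat_lit 128,nat_lit 156],[nat_lit 136,
    nat_lit 150],[nat_lit 136,nat_lit 150]],[[nat_lit 136,nat_lit 150],[nat_lit 136,nat_lit 150],[nat_lit 125,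
    nat_lit 132,nat_lit 139,nat_lit 141,nat_lit 146],[nat_lit 125,nat_lit 132,nat_lit 139,nat_lit 141,nat_lit 146],
    [nat_lit 125,nat_lit 132,nat_lit 139,nat_lit 141,nat_lit 146],[nat_lit 125,nat_lit 132,nat_lit 139,nat_lit 141,
    nat_lit 146],[nat_lit 125,nat_lit 132,nat_lit 139,nat_lit 141,nat_lit 146],[nat_lit 125,nat_lit 132,nat_lit 139,
    nat_lit 141,nat_lit 146],[nat_lit 135,nat_lit 151],[nat_lit 135,nat_lit 151],[nat_lit 135,nat_lit 151],
    [nat_lit 135,nat_lit 151]],[[nat_lit 135,nat_lit 151],[nat_lit 129,nat_lit 149,nat_lit 157],[nat_lit 129,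
    nat_lit 149,nat_lit 157],[nat_lit 129,nat_lit 149,nat_lit 157],[nat_lit 129,nat_lit 149,nat_lit 157],[],
    [nat_lit 322,nat_lit 335],[nat_lit 353,nat_lit 359],[nat_lit 318,nat_lit 334],[nat_lit 328,nat_lit 331,
    nat_lit 345,nat_lit 349],[],[nat_lit 329,nat_lit 330,nat_lit 336,nat_lit 340,nat_lit 348]],[[nat_lit 329,
    nat_lit 330,nat_lit 336,nat_lit 340,nat_lit 348],[nat_lit 332,nat_lit 346,nat_lit 350],[nat_lit 332,nat_lit 346,
    nat_lit 350],[nat_lit 332,nat_lit 346,nat_lit 350],[nat_lit 332,nat_lit 346,nat_lit 350],[nat_lit 332,nat_lit 346,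
    nat_lit 350],[nat_lit 332,nat_lit 346,nat_lit 350],[nat_lit 338,nat_lit 344,nat_lit 355,nat_lit 356],[nat_lit 338,
    nat_lit 344,nat_lit 355,nat_lit 356],[nat_lit 326,nat_lit 342],[nat_lit 326,nat_lit 342],[nat_lit 326,
    nat_lit 342]],[[nat_lit 320,nat_lit 321,nat_lit 339,nat_lit 347,nat_lit 351,nat_lit 352,nat_lit 357],[nat_lit 320,
    nat_lit 321,nat_lit 339,nat_lit 347,nat_lit 351,nat_lit 352,nat_lit 357],[nat_lit 320,nat_lit 321,nat_lit 339,
    nat_lit 347,nat_lit 351,nat_lit 352,nat_lit 357],[nat_lit 320,nat_lit 321,nat_lit 339,nat_lit 347,nat_lit 351,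
    nat_lit 352,nat_lit 357],[nat_lit 320,nat_lit 321,nat_lit 339,nat_lit 347,nat_lit 351,nat_lit 352,nat_lit 357],
    [nat_lit 320,nat_lit 321,nat_lit 339,nat_lit 347,nat_lit 351,nat_lit 352,nat_lit 357],[nat_lit 316,nat_lit 319,
    nat_lit 337,nat_lit 341],[nat_lit 316,nat_lit 319,nat_lit 337,nat_lit 341],[nat_lit 316,nat_lit 319,nat_lit 337,
    nat_lit 341],[nat_lit 316,nat_lit 319,nat_lit 337,nat_lit 341],[nat_lit 317,nat_lit 333],[nat_lit 317,
    nat_lit 333]],[[nat_lit 317,nat_lit 333],[nat_lit 317,nat_lit 333],[nat_lit 317,nat_lit 333],[nat_lit 317,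
    nat_lit 333],[nat_lit 324,nat_lit 327,nat_lit 343,nat_lit 358],[nat_lit 324,nat_lit 327,nat_lit 343,nat_lit 358],
    [nat_lit 324,nat_lit 327,nat_lit 343,nat_lit 358],[nat_lit 324,nat_lit 327,nat_lit 343,nat_lit 358],[nat_lit 229],
    [nat_lit 229],[nat_lit 200,nat_lit 202,nat_lit 218,nat_lit 221,nat_lit 225,nat_lit 228],[nat_lit 200,nat_lit 202,
    nat_lit 218,nat_lit 221,nat_lit 225,nat_lit 228]],[[],[nat_lit 230],[nat_lit 230],[nat_lit 196,nat_lit 208,
    nat_lit 209,nat_lit 211,nat_lit 214,nat_lit 231],[nat_lit 196,nat_lit 208,nat_lit 209,nat_lit 211,nat_lit 214,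
    nat_lit 231],[nat_lit 196,nat_lit 208,nat_lit 209,nat_lit 211,nat_lit 214,nat_lit 231],[nat_lit 204],
    [nat_lit 204],[nat_lit 204],[nat_lit 204],[nat_lit 205,nat_lit 219,nat_lit 226],[nat_lit 205,nat_lit 219,
    nat_lit 226]],[[],[],[nat_lit 194,nat_lit 197,nat_lit 212,nat_lit 216],[nat_lit 194,nat_lit 197,nat_lit 212,
    nat_lit 216],[nat_lit 194,nat_lit 197,nat_lit 212,nat_lit 216],[nat_lit 194,nat_lit 197,nat_lit 212,nat_lit 216],
    [nat_lit 215,nat_lit 223],[nat_lit 215,nat_lit 223],[nat_lit 215,nat_lit 223],[nat_lit 215,nat_lit 223],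
    [nat_lit 215,nat_lit 223],[nat_lit 199,nat_lit 201,nat_lit 222,nat_lit 224]],[[nat_lit 199,nat_lit 201,
    nat_lit 222,nat_lit 224],[nat_lit 199,nat_lit 201,nat_lit 222,nat_lit 224],[nat_lit 199,nat_lit 201,nat_lit 222,
    nat_lit 224],[nat_lit 220,nat_lit 227],[nat_lit 220,nat_lit 227],[nat_lit 220,nat_lit 227],[nat_lit 220,
    nat_lit 227],[nat_lit 206],[nat_lit 206],[nat_lit 195,nat_lit 198,nat_lit 210,nat_lit 213,nat_lit 217,
    nat_lit 232],[nat_lit 195,nat_lit 198,nat_lit 210,nat_lit 213,nat_lit 217,nat_lit 232],[nat_lit 195,nat_lit 198,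
    nat_lit 210,nat_lit 213,nat_lit 217,nat_lit 232]],[[nat_lit 195,nat_lit 198,nat_lit 210,nat_lit 213,nat_lit 217,
    nat_lit 232],[nat_lit 195,nat_lit 198,nat_lit 210,nat_lit 213,nat_lit 217,nat_lit 232],[nat_lit 195,nat_lit 198,
    nat_lit 210,nat_lit 213,nat_lit 217,nat_lit 232],[nat_lit 195,nat_lit 198,nat_lit 210,nat_lit 213,nat_lit 217,
    nat_lit 232],[nat_lit 403,nat_lit 429,nat_lit 430,nat_lit 445],[nat_lit 409,nat_lit 422],[nat_lit 409,
    nat_lit 422],[nat_lit 409,nat_lit 422],[nat_lit 404],[],[],[nat_lit 413,nat_lit 416,nat_lit 432,nat_lit 434]],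
    [[nat_lit 413,nat_lit 416,nat_lit 432,nat_lit 434],[nat_lit 419,nat_lit 425,nat_lit 437],[nat_lit 419,nat_lit 425,
    nat_lit 437],[nat_lit 419,nat_lit 425,nat_lit 437],[nat_lit 407,nat_lit 411,nat_lit 426,nat_lit 439],[nat_lit 407,
    nat_lit 411,nat_lit 426,nat_lit 439],[nat_lit 407,nat_lit 411,nat_lit 426,nat_lit 439],[],[],[nat_lit 417,
    nat_lit 427,nat_lit 433,nat_lit 435,nat_lit 438,nat_lit 441,nat_lit 444],[nat_lit 417,nat_lit 427,nat_lit 433,
    nat_lit 435,nat_lit 438,nat_lit 441,nat_lit 444],[nat_lit 417,nat_lit 427,nat_lit 433,nat_lit 435,nat_lit 438,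
    nat_lit 441,nat_lit 444]],[[nat_lit 417,nat_lit 427,nat_lit 433,nat_lit 435,nat_lit 438,nat_lit 441,nat_lit 444],
    [nat_lit 417,nat_lit 427,nat_lit 433,nat_lit 435,nat_lit 438,nat_lit 441,nat_lit 444],[nat_lit 417,nat_lit 427,
    nat_lit 433,nat_lit 435,nat_lit 438,nat_lit 441,nat_lit 444],[nat_lit 410,nat_lit 414,nat_lit 420,nat_lit 421,
    nat_lit 443],[nat_lit 410,nat_lit 414,nat_lit 420,nat_lit 421,nat_lit 443],[nat_lit 410,nat_lit 414,nat_lit 420,
    nat_lit 421,nat_lit 443],[nat_lit 410,nat_lit 414,nat_lit 420,nat_lit 421,nat_lit 443],[nat_lit 410,nat_lit 414,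
    nat_lit 420,nat_lit 421,nat_lit 443],[nat_lit 410,nat_lit 414,nat_lit 420,nat_lit 421,nat_lit 443],[nat_lit 405,
    nat_lit 406,nat_lit 418,nat_lit 423],[nat_lit 405,nat_lit 406,nat_lit 418,nat_lit 423],[nat_lit 405,nat_lit 406,
    nat_lit 418,nat_lit 423]],[[nat_lit 405,nat_lit 406,nat_lit 418,nat_lit 423],[nat_lit 408,nat_lit 412,nat_lit 428,
    nat_lit 440],[nat_lit 408,nat_lit 412,nat_lit 428,nat_lit 440],[nat_lit 408,nat_lit 412,nat_lit 428,nat_lit 440],
    [nat_lit 408,nat_lit 412,nat_lit 428,nat_lit 440],[],[],[],[],[],[],[nat_lit 415]],[[nat_lit 315],[],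
    [nat_lit 291],[nat_lit 291],[nat_lit 291],[nat_lit 291],[nat_lit 286,nat_lit 288,nat_lit 299],[nat_lit 286,
    nat_lit 288,nat_lit 299],[nat_lit 286,nat_lit 288,nat_lit 299],[],[],[]],[[nat_lit 287,nat_lit 292,nat_lit 294,
    nat_lit 301,nat_lit 305,nat_lit 310],[nat_lit 287,nat_lit 292,nat_lit 294,nat_lit 301,nat_lit 305,nat_lit 310],
    [nat_lit 287,nat_lit 292,nat_lit 294,nat_lit 301,nat_lit 305,nat_lit 310],[nat_lit 287,nat_lit 292,nat_lit 294,
    nat_lit 301,nat_lit 305,nat_lit 310],[nat_lit 287,nat_lit 292,nat_lit 294,nat_lit 301,nat_lit 305,nat_lit 310],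
    [nat_lit 289,nat_lit 300],[nat_lit 289,nat_lit 300],[nat_lit 289,nat_lit 300],[nat_lit 289,nat_lit 300],
    [nat_lit 280,nat_lit 284,nat_lit 311,nat_lit 314],[nat_lit 280,nat_lit 284,nat_lit 311,nat_lit 314],[nat_lit 280,
    nat_lit 284,nat_lit 311,nat_lit 314]],[[nat_lit 280,nat_lit 284,nat_lit 311,nat_lit 314],[nat_lit 283,nat_lit 296,
    nat_lit 298],[nat_lit 283,nat_lit 296,nat_lit 298],[nat_lit 283,nat_lit 296,nat_lit 298],[nat_lit 283,nat_lit 296,
    nat_lit 298],[nat_lit 277],[nat_lit 273,nat_lit 275,nat_lit 293,nat_lit 295,nat_lit 306,nat_lit 308],[nat_lit 273,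
    nat_lit 275,nat_lit 293,nat_lit 295,nat_lit 306,nat_lit 308],[nat_lit 273,nat_lit 275,nat_lit 293,nat_lit 295,
    nat_lit 306,nat_lit 308],[nat_lit 273,nat_lit 275,nat_lit 293,nat_lit 295,nat_lit 306,nat_lit 308],[nat_lit 273,
    nat_lit 275,nat_lit 293,nat_lit 295,nat_lit 306,nat_lit 308],[nat_lit 273,nat_lit 275,nat_lit 293,nat_lit 295,
    nat_lit 306,nat_lit 308]],[[nat_lit 273,nat_lit 275,nat_lit 293,nat_lit 295,nat_lit 306,nat_lit 308],[nat_lit 272,
    nat_lit 274,nat_lit 290],[nat_lit 272,nat_lit 274,nat_lit 290],[nat_lit 281,nat_lit 285,nat_lit 297,nat_lit 312],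
    [nat_lit 281,nat_lit 285,nat_lit 297,nat_lit 312],[nat_lit 281,nat_lit 285,nat_lit 297,nat_lit 312],[nat_lit 281,
    nat_lit 285,nat_lit 297,nat_lit 312],[nat_lit 25],[nat_lit 26],[nat_lit 26],[nat_lit 26],[nat_lit 26]],
    [[nat_lit 26],[nat_lit 26],[nat_lit 26],[nat_lit 28,nat_lit 35],[nat_lit 28,nat_lit 35],[],[],[],[],[],
    [nat_lit 29,nat_lit 34,nat_lit 36],[nat_lit 29,nat_lit 34,nat_lit 36]],[[nat_lit 29,nat_lit 34,nat_lit 36],
    [nat_lit 29,nat_lit 34,nat_lit 36],[],[],[],[],[],[],[],[],[nat_lit 21,nat_lit 32],[nat_lit 21,nat_lit 32]],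
    [[nat_lit 21,nat_lit 32],[nat_lit 21,nat_lit 32],[nat_lit 21,nat_lit 32],[nat_lit 21,nat_lit 32],[],[],[],[],[],
    [],[nat_lit 30],[nat_lit 30]],[[nat_lit 22,nat_lit 24,nat_lit 33],[nat_lit 22,nat_lit 24,nat_lit 33]]]
    (nat_lit 446) [nat_lit 0,nat_lit 1,nat_lit 2,nat_lit 3,nat_lit 4,nat_lit 5,nat_lit 6,nat_lit 7,nat_lit 8,
    nat_lit 9,nat_lit 10,nat_lit 11,nat_lit 12,nat_lit 13,nat_lit 14,nat_lit 15,nat_lit 16,nat_lit 17,nat_lit 18,
    nat_lit 23,nat_lit 24,nat_lit 25,nat_lit 26,nat_lit 27,nat_lit 28,nat_lit 29,nat_lit 30,nat_lit 31,nat_lit 32,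
    nat_lit 33,nat_lit 34,nat_lit 35,nat_lit 36,nat_lit 37,nat_lit 39,nat_lit 40,nat_lit 41,nat_lit 42,nat_lit 43,
    nat_lit 44,nat_lit 45,nat_lit 46,nat_lit 47,nat_lit 48,nat_lit 50,nat_lit 51,nat_lit 52,nat_lit 54,nat_lit 55,
    nat_lit 56,nat_lit 57,nat_lit 58,nat_lit 59,nat_lit 61,nat_lit 62,nat_lit 63,nat_lit 64,nat_lit 65,nat_lit 66,
    nat_lit 67,nat_lit 70,nat_lit 71,nat_lit 72,nat_lit 73,nat_lit 74,nat_lit 75,nat_lit 76,nat_lit 77,nat_lit 78,
    nat_lit 79,nat_lit 80,nat_lit 81,nat_lit 82,nat_lit 85,nat_lit 86,nat_lit 87,nat_lit 88,nat_lit 89,nat_lit 90,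
    nat_lit 91,nat_lit 92,nat_lit 93,nat_lit 94,nat_lit 95,nat_lit 96,nat_lit 97,nat_lit 100,nat_lit 101,nat_lit 102,
    nat_lit 103,nat_lit 104,nat_lit 105,nat_lit 106,nat_lit 107,nat_lit 108,nat_lit 109,nat_lit 112,nat_lit 113,
    nat_lit 114,nat_lit 115,nat_lit 116,nat_lit 117,nat_lit 118,nat_lit 119,nat_lit 120,nat_lit 121,nat_lit 132,
    nat_lit 133,nat_lit 134,nat_lit 135,nat_lit 136,nat_lit 139,nat_lit 140,nat_lit 141,nat_lit 149,nat_lit 150,
    nat_lit 151,nat_lit 156,nat_lit 157,nat_lit 177,nat_lit 178,nat_lit 179,nat_lit 181,nat_lit 182,nat_lit 184,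
    nat_lit 193,nat_lit 212,nat_lit 213,nat_lit 216,nat_lit 217,nat_lit 219,nat_lit 220,nat_lit 221,nat_lit 222,
    nat_lit 226,nat_lit 227,nat_lit 228,nat_lit 232,nat_lit 250,nat_lit 251,nat_lit 255,nat_lit 256,nat_lit 261,
    nat_lit 266,nat_lit 267,nat_lit 271,nat_lit 302,nat_lit 313,nat_lit 314,nat_lit 352,nat_lit 357,nat_lit 358]
    [[[nat_lit 7,nat_lit 13],[nat_lit 5,nat_lit 8,nat_lit 14,nat_lit 16],[],[nat_lit 18],[nat_lit 3],[nat_lit 4],[],
    [],[],[nat_lit 0,nat_lit 9,nat_lit 10],[nat_lit 15,nat_lit 17],[nat_lit 6],[nat_lit 1,nat_lit 11],[nat_lit 12],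
    [nat_lit 2],[]],[[],[nat_lit 28,nat_lit 35],[nat_lit 37],[],[nat_lit 26],[nat_lit 27],[],[],[nat_lit 19,
    nat_lit 23],[nat_lit 20,nat_lit 31],[nat_lit 29,nat_lit 34,nat_lit 36],[nat_lit 30],[nat_lit 21,nat_lit 32],
    [nat_lit 22,nat_lit 24,nat_lit 33],[],[nat_lit 25]],[[],[nat_lit 49],[],[],[],[],[nat_lit 39],[nat_lit 40],[],
    [nat_lit 52],[nat_lit 47,nat_lit 51],[nat_lit 48],[],[],[nat_lit 44],[nat_lit 38,nat_lit 41,nat_lit 42,nat_lit 43,
    nat_lit 45,nat_lit 46,nat_lit 50]],[[nat_lit 60],[],[],[],[],[],[nat_lit 54],[nat_lit 55],[nat_lit 65],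
    [nat_lit 66],[nat_lit 62,nat_lit 67],[nat_lit 63],[],[nat_lit 64],[nat_lit 53,nat_lit 56,nat_lit 58,nat_lit 61],
    [nat_lit 57,nat_lit 59]],[[nat_lit 68],[nat_lit 69],[],[],[],[],[],[],[],[nat_lit 78,nat_lit 80],[nat_lit 74],
    [nat_lit 75],[nat_lit 81],[nat_lit 79,nat_lit 82],[nat_lit 70,nat_lit 72,nat_lit 76],[nat_lit 71,nat_lit 73,
    nat_lit 77]],[[nat_lit 83],[nat_lit 84],[],[],[],[],[],[],[nat_lit 92,nat_lit 95],[nat_lit 93,nat_lit 96],
    [nat_lit 87],[nat_lit 88],[nat_lit 94,nat_lit 97],[],[nat_lit 85,nat_lit 89,nat_lit 91],[nat_lit 86,nat_lit 90]],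
    [[],[],[nat_lit 98],[nat_lit 99],[],[],[],[],[nat_lit 100,nat_lit 103,nat_lit 106],[nat_lit 104,nat_lit 107],[],
    [],[nat_lit 101,nat_lit 105,nat_lit 108],[nat_lit 102,nat_lit 109],[],[]],[[],[],[nat_lit 110],[nat_lit 111],[],
    [],[],[],[],[nat_lit 114,nat_lit 117,nat_lit 119],[],[],[nat_lit 112,nat_lit 115,nat_lit 118,nat_lit 120],
    [nat_lit 113,nat_lit 116,nat_lit 121],[],[]],[[nat_lit 122,nat_lit 137],[nat_lit 123,nat_lit 131,nat_lit 138],
    [nat_lit 153],[nat_lit 152],[nat_lit 147,nat_lit 154],[nat_lit 148,nat_lit 155],[nat_lit 130,nat_lit 142,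
    nat_lit 144],[nat_lit 143,nat_lit 145],[nat_lit 127],[nat_lit 136,nat_lit 150],[nat_lit 134],[nat_lit 135,
    nat_lit 151],[nat_lit 128,nat_lit 156],[nat_lit 129,nat_lit 149,nat_lit 157],[nat_lit 125,nat_lit 132,nat_lit 139,
    nat_lit 141,nat_lit 146],[nat_lit 124,nat_lit 126,nat_lit 133,nat_lit 140]],[[nat_lit 158,nat_lit 161],[],
    [nat_lit 188],[],[nat_lit 185,nat_lit 190],[],[],[nat_lit 176,nat_lit 180,nat_lit 183],[],[nat_lit 171],
    [nat_lit 159,nat_lit 162,nat_lit 186,nat_lit 191,nat_lit 193],[nat_lit 160,nat_lit 175,nat_lit 177,nat_lit 179,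
    nat_lit 187,nat_lit 192],[nat_lit 169,nat_lit 172],[nat_lit 170,nat_lit 173],[nat_lit 165,nat_lit 167,nat_lit 181,
    nat_lit 184],[nat_lit 163,nat_lit 164,nat_lit 166,nat_lit 168,nat_lit 174,nat_lit 178,nat_lit 182,nat_lit 189]],
    [[nat_lit 206],[nat_lit 207],[nat_lit 229],[nat_lit 230],[nat_lit 203],[nat_lit 204],[],[],[nat_lit 196,
    nat_lit 208,nat_lit 209,nat_lit 211,nat_lit 214,nat_lit 231],[nat_lit 215,nat_lit 223],[nat_lit 205,nat_lit 219,
    nat_lit 226],[nat_lit 220,nat_lit 227],[nat_lit 194,nat_lit 197,nat_lit 212,nat_lit 216],[nat_lit 195,nat_lit 198,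
    nat_lit 210,nat_lit 213,nat_lit 217,nat_lit 232],[nat_lit 199,nat_lit 201,nat_lit 222,nat_lit 224],[nat_lit 200,
    nat_lit 202,nat_lit 218,nat_lit 221,nat_lit 225,nat_lit 228]],[[nat_lit 241,nat_lit 252,nat_lit 258],[nat_lit 253,
    nat_lit 259],[nat_lit 262,nat_lit 268],[nat_lit 263,nat_lit 269],[nat_lit 237],[nat_lit 238],[],[],[nat_lit 233,
    nat_lit 234,nat_lit 245,nat_lit 246,nat_lit 257],[nat_lit 249],[nat_lit 239,nat_lit 243,nat_lit 254,nat_lit 260],
    [nat_lit 244,nat_lit 255,nat_lit 261],[nat_lit 247,nat_lit 250,nat_lit 264,nat_lit 266,nat_lit 270],[nat_lit 240,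
    nat_lit 248,nat_lit 251,nat_lit 265,nat_lit 267,nat_lit 271],[nat_lit 235,nat_lit 236,nat_lit 242,nat_lit 256],
    []],[[nat_lit 272,nat_lit 274,nat_lit 290],[nat_lit 291],[nat_lit 315],[],[],[nat_lit 307,nat_lit 309],
    [nat_lit 286,nat_lit 288,nat_lit 299],[nat_lit 289,nat_lit 300],[nat_lit 279,nat_lit 282],[nat_lit 283,
    nat_lit 296,nat_lit 298],[nat_lit 287,nat_lit 292,nat_lit 294,nat_lit 301,nat_lit 305,nat_lit 310],[nat_lit 273,
    nat_lit 275,nat_lit 293,nat_lit 295,nat_lit 306,nat_lit 308],[nat_lit 280,nat_lit 284,nat_lit 311,nat_lit 314],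
    [nat_lit 281,nat_lit 285,nat_lit 297,nat_lit 312],[nat_lit 277],[nat_lit 276,nat_lit 278,nat_lit 302,nat_lit 303,
    nat_lit 304,nat_lit 313]],[[nat_lit 317,nat_lit 333],[nat_lit 318,nat_lit 334],[],[],[nat_lit 353,nat_lit 359],
    [nat_lit 354],[nat_lit 328,nat_lit 331,nat_lit 345,nat_lit 349],[nat_lit 332,nat_lit 346,nat_lit 350],
    [nat_lit 323,nat_lit 325],[nat_lit 326,nat_lit 342],[nat_lit 329,nat_lit 330,nat_lit 336,nat_lit 340,nat_lit 348],
    [nat_lit 316,nat_lit 319,nat_lit 337,nat_lit 341],[nat_lit 338,nat_lit 344,nat_lit 355,nat_lit 356],[nat_lit 324,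
    nat_lit 327,nat_lit 343,nat_lit 358],[nat_lit 320,nat_lit 321,nat_lit 339,nat_lit 347,nat_lit 351,nat_lit 352,
    nat_lit 357],[nat_lit 322,nat_lit 335]],[[nat_lit 362],[],[nat_lit 381,nat_lit 385],[nat_lit 360,nat_lit 376,
    nat_lit 382,nat_lit 386,nat_lit 398,nat_lit 401,nat_lit 402],[nat_lit 377,nat_lit 391],[nat_lit 372,nat_lit 378,
    nat_lit 389],[],[],[nat_lit 365,nat_lit 366,nat_lit 369,nat_lit 384,nat_lit 387,nat_lit 392,nat_lit 397,
    nat_lit 399],[nat_lit 367,nat_lit 373,nat_lit 374,nat_lit 400],[],[nat_lit 361,nat_lit 364,nat_lit 379,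
    nat_lit 380,nat_lit 393,nat_lit 394],[nat_lit 370,nat_lit 375],[nat_lit 368,nat_lit 371,nat_lit 383,nat_lit 388,
    nat_lit 395,nat_lit 396],[nat_lit 363,nat_lit 390],[]],[[],[nat_lit 404],[nat_lit 403,nat_lit 429,nat_lit 430,
    nat_lit 445],[nat_lit 431],[nat_lit 424,nat_lit 436,nat_lit 442],[nat_lit 419,nat_lit 425,nat_lit 437],[],[],
    [nat_lit 413,nat_lit 416,nat_lit 432,nat_lit 434],[nat_lit 410,nat_lit 414,nat_lit 420,nat_lit 421,nat_lit 443],
    [nat_lit 407,nat_lit 411,nat_lit 426,nat_lit 439],[nat_lit 408,nat_lit 412,nat_lit 428,nat_lit 440],[nat_lit 417,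
    nat_lit 427,nat_lit 433,nat_lit 435,nat_lit 438,nat_lit 441,nat_lit 444],[nat_lit 415],[nat_lit 405,nat_lit 406,
    nat_lit 418,nat_lit 423],[nat_lit 409,nat_lit 422]]]
    [[[nat_lit 0x2200000000000000000000000000000000000000000000000000000000000000000000000000000000000000000000000,
    nat_lit 0x2200000000000000000000000000000000000000000000000000000000000000000000000000000000000000000000000,
    nat_lit 0,nat_lit 0,
    nat_lit 0x64004410001000000000000000000000000000000000000000000000000000000000000000000000000000000000000000000,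
    nat_lit 0,nat_lit 0,nat_lit 0,nat_lit 0],
    [nat_lit 0x8400000000000000000000000000000000000000000000000000000000000000000000000000000000000000000000,
    nat_lit 0x10000006080000000000000000000000000000000000000000000000000000000000000000000000000000000000000000000,
    nat_lit 0x10000006080000000000000000000000000000000000000000000000000000000000000000000000000000000000000000000,
    nat_lit 0x10000006080000000000000000000000000000000000000000000000000000000000000000000000000000000000000000000,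
    nat_lit 0x40000008000000000000000000000000000000000000000000000000000000000000000000000000000000000000000000,
    nat_lit 0x40000008000000000000000000000000000000000000000000000000000000000000000000000000000000000000000000,
    nat_lit 0x40000008000000000000000000000000000000000000000000000000000000000000000000000000000000000000000000,
    nat_lit 0x600180012000000000000000000000000000000000000000000000000000000000000000000000000000000000000000000,
    nat_lit 0x600180012000000000000000000000000000000000000000000000000000000000000000000000000000000000000000000],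
    [nat_lit 0x4000000000000000000000000000000000000000000000000000000000000000000000000000000000000000000,nat_lit 0,
    nat_lit 0,nat_lit 0,nat_lit 0,nat_lit 0xa00000000000000,nat_lit 0xa00000000000000,nat_lit 0,
    nat_lit 0x40000000000000],[nat_lit 0,nat_lit 0x84000000000000000,nat_lit 0x84000000000000000,
    nat_lit 0x84000000000000000,nat_lit 0,nat_lit 0x40000000000000000,nat_lit 0x40000000000000000,
    nat_lit 0x2520000000000000,nat_lit 0x8000000000000000],[nat_lit 0x8000000000000000,nat_lit 0x10000000000000000,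
    nat_lit 0,nat_lit 0,nat_lit 16,nat_lit 0x28000,nat_lit 0,nat_lit 0x802,nat_lit 0x601],[nat_lit 0x601,nat_lit 4,
    nat_lit 0x2080,nat_lit 0x2080,nat_lit 0x1000,nat_lit 0x1000,nat_lit 0x1000,nat_lit 0x1000,nat_lit 0],
    [nat_lit 0x900000000000000000000000,nat_lit 0,nat_lit 0x8000000000000000000000,
    nat_lit 0x2400000000000000000000000,nat_lit 0x1200000000000000000000000,nat_lit 0x1200000000000000000000000,
    nat_lit 0x800000000000000000000,nat_lit 0x800000000000000000000,nat_lit 0x800000000000000000000],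
    [nat_lit 0x800000000000000000000,nat_lit 0x800000000000000000000,nat_lit 0x800000000000000000000,
    nat_lit 0x800000000000000000000,nat_lit 0,nat_lit 0,nat_lit 0x46e4000000000,nat_lit 0x8800000000000,
    nat_lit 0x8800000000000],[nat_lit 0x10000000000,nat_lit 0x10000000000,nat_lit 0,nat_lit 0x10000000000000,
    nat_lit 0x1000000000000,nat_lit 0x1000000000000,nat_lit 0,nat_lit 0,nat_lit 0]],[[nat_lit 0,nat_lit 0,
    nat_lit 0x4000000000000000000000000000,nat_lit 0,nat_lit 0,nat_lit 0,nat_lit 0x1490000000000000000000000000000,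
    nat_lit 0xa40000000000000000000000000000,nat_lit 0],[nat_lit 0,nat_lit 0,nat_lit 0,nat_lit 0,nat_lit 0,
    nat_lit 0x2120000000000000000000000000000,nat_lit 0x2120000000000000000000000000000,
    nat_lit 0x2120000000000000000000000000000,nat_lit 0],[nat_lit 0x200000000000000000,nat_lit 0x4000000000000000000,
    nat_lit 0x4000000000000000000,nat_lit 0x4000000000000000000,nat_lit 0x11400000000000000000,
    nat_lit 0x11400000000000000000,nat_lit 0x11400000000000000000,nat_lit 0x8000000000000000000,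
    nat_lit 0x8000000000000000000],[nat_lit 0x8000000000000000000,nat_lit 0x8000000000000000000,
    nat_lit 0x420000000000000000000000000000000000000000000000,nat_lit 0,
    nat_lit 0x2840000048000000000000000000000000000000000000000,
    nat_lit 0x2840000048000000000000000000000000000000000000000,
    nat_lit 0x9100000000000000000000000000000000000000000000,nat_lit 0x9100000000000000000000000000000000000000000000,
    nat_lit 0x9100000000000000000000000000000000000000000000],
    [nat_lit 0x12000a00000000000000000000000000000000000000000,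
    nat_lit 0x12000a00000000000000000000000000000000000000000,
    nat_lit 0x1080a80010000000000000000000000000000000000000000,
    nat_lit 0x1080a80010000000000000000000000000000000000000000,
    nat_lit 0x1080a80010000000000000000000000000000000000000000,nat_lit 0,nat_lit 0,nat_lit 0,
    nat_lit 0x8000000000000000000000000],[nat_lit 0x8000000000000000000000000,nat_lit 0x490000000000000000000000000,
    nat_lit 0x490000000000000000000000000,nat_lit 0x490000000000000000000000000,nat_lit 0,
    nat_lit 0x1220000000000000000000000000,nat_lit 0x1220000000000000000000000000,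
    nat_lit 0x1220000000000000000000000000,nat_lit 0x1220000000000000000000000000],
    [nat_lit 0x1220000000000000000000000000,nat_lit 0x1220000000000000000000000000,
    nat_lit 0x900000000000000000000000000,nat_lit 0x900000000000000000000000000,nat_lit 0x900000000000000000000000000,
    nat_lit 0x900000000000000000000000000,nat_lit 0x900000000000000000000000000,nat_lit 0,nat_lit 0],[nat_lit 0,
    nat_lit 0,nat_lit 0,nat_lit 0,nat_lit 0,nat_lit 0,nat_lit 0,nat_lit 0,nat_lit 0],[nat_lit 0,
    nat_lit 0x2040000000000000000000000000,nat_lit 0x2040000000000000000000000000,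
    nat_lit 0x2040000000000000000000000000,nat_lit 0x2040000000000000000000000000,
    nat_lit 0x10400000000000000000000000000000000000000000000000000000000000000000,
    nat_lit 0x10400000000000000000000000000000000000000000000000000000000000000000,
    nat_lit 0x10400000000000000000000000000000000000000000000000000000000000000000,nat_lit 0]],[[nat_lit 0,
    nat_lit 0x200000000000000000000000000000000000000000000000000000000000,
    nat_lit 0x82000000000000000000000000000000000000000000000000000000000000000,nat_lit 0,nat_lit 0,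
    nat_lit 0x20800000000000000000000000000000000000000000000000000000000000000000,
    nat_lit 0x20800000000000000000000000000000000000000000000000000000000000000000,
    nat_lit 0x20060060000000000000000000000000000000000000000000000000000000000,
    nat_lit 0x20060060000000000000000000000000000000000000000000000000000000000],
    [nat_lit 0x400000000000000000000000000000000000000000000000000000000000,
    nat_lit 0x400000000000000000000000000000000000000000000000000000000000,
    nat_lit 0x400000000000000000000000000000000000000000000000000000000000,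
    nat_lit 0x104008800000000000000000000000000000000000000000000000000000000000,
    nat_lit 0x104008800000000000000000000000000000000000000000000000000000000000,nat_lit 0,
    nat_lit 0x45000480000000000000000000000000000000000000000000000000000000000000,
    nat_lit 0x45000480000000000000000000000000000000000000000000000000000000000000,
    nat_lit 0x200000000000000000000000000000000000000000000000000000000000000],
    [nat_lit 0x10004180000000000000000000000000000000000000000000000000000000000,
    nat_lit 0x10004180000000000000000000000000000000000000000000000000000000000,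
    nat_lit 0x10004180000000000000000000000000000000000000000000000000000000000,
    nat_lit 0x208010000000000000000000000000000000000000000000000000000000000000,
    nat_lit 0x208010000000000000000000000000000000000000000000000000000000000000,
    nat_lit 0x41002000000000000000000000000000000000000000000000000000000000000,
    nat_lit 0x41002000000000000000000000000000000000000000000000000000000000000,
    nat_lit 0x41002000000000000000000000000000000000000000000000000000000000000,
    nat_lit 0x41002000000000000000000000000000000000000000000000000000000000000],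
    [nat_lit 0x8a000901000000000000000000000000000000000000000000000000000000000000,
    nat_lit 0x8a000901000000000000000000000000000000000000000000000000000000000000,
    nat_lit 0x8a000901000000000000000000000000000000000000000000000000000000000000,
    nat_lit 0x8a000901000000000000000000000000000000000000000000000000000000000000,
    nat_lit 0x8a000901000000000000000000000000000000000000000000000000000000000000,
    nat_lit 0x200000000000000000000000000000000000000,nat_lit 0x200000000000000000000000000000000000000,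
    nat_lit 0x102050000000000000000000000000000000,nat_lit 0x102050000000000000000000000000000000],
    [nat_lit 0x102050000000000000000000000000000000,nat_lit 0x408000000000000000000000000000000000000,
    nat_lit 0x408000000000000000000000000000000000000,nat_lit 0x40808000000000000000000000000000000,
    nat_lit 0x40808000000000000000000000000000000,nat_lit 0x1400400000000000000000000000000000000,
    nat_lit 0x100000000000000000000000000000000000000,nat_lit 0x4000000000000000000000000000000000,
    nat_lit 0x2800000000000000000000000000000000000],[nat_lit 0x2800000000000000000000000000000000000,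
    nat_lit 0x2800000000000000000000000000000000000,nat_lit 0x2800000000000000000000000000000000000,
    nat_lit 0x2800000000000000000000000000000000000,nat_lit 0x1000000100000000000000000000000000000000,
    nat_lit 0x1000000100000000000000000000000000000000,nat_lit 0x1000000100000000000000000000000000000000,
    nat_lit 0x40010000000000000000000000000000000000,nat_lit 0x40010000000000000000000000000000000000],
    [nat_lit 0x40010000000000000000000000000000000000,nat_lit 0x40010000000000000000000000000000000000,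
    nat_lit 0x4281020000000000000000000000000000000,nat_lit 0x4281020000000000000000000000000000000,
    nat_lit 0x4281020000000000000000000000000000000,nat_lit 0x4281020000000000000000000000000000000,
    nat_lit 0x4281020000000000000000000000000000000,nat_lit 0x4281020000000000000000000000000000000,
    nat_lit 0x80008000000000000000000000000000000000],[nat_lit 0x80008000000000000000000000000000000000,
    nat_lit 0x80008000000000000000000000000000000000,nat_lit 0x80008000000000000000000000000000000000,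
    nat_lit 0x80008000000000000000000000000000000000,nat_lit 0x2020000200000000000000000000000000000000,
    nat_lit 0x2020000200000000000000000000000000000000,nat_lit 0x2020000200000000000000000000000000000000,
    nat_lit 0x2020000200000000000000000000000000000000,nat_lit 0],
    [nat_lit 0x800400000000000000000000000000000000000000000000000000000000000000000000000000000000,
    nat_lit 0x820000000000000000000000000000000000000000000000000000000000000000000000000000000000000000,
    nat_lit 0x400040000000000000000000000000000000000000000000000000000000000000000000000000000000,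
    nat_lit 0x2200090000000000000000000000000000000000000000000000000000000000000000000000000000000000,nat_lit 0,
    nat_lit 0x1011060000000000000000000000000000000000000000000000000000000000000000000000000000000000,
    nat_lit 0x1011060000000000000000000000000000000000000000000000000000000000000000000000000000000000,
    nat_lit 0x4400100000000000000000000000000000000000000000000000000000000000000000000000000000000000,
    nat_lit 0x4400100000000000000000000000000000000000000000000000000000000000000000000000000000000000]],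
    [[nat_lit 0x4400100000000000000000000000000000000000000000000000000000000000000000000000000000000000,
    nat_lit 0x4400100000000000000000000000000000000000000000000000000000000000000000000000000000000000,
    nat_lit 0x4400100000000000000000000000000000000000000000000000000000000000000000000000000000000000,
    nat_lit 0x4400100000000000000000000000000000000000000000000000000000000000000000000000000000000000,
    nat_lit 0x180104000000000000000000000000000000000000000000000000000000000000000000000000000000000000,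
    nat_lit 0x180104000000000000000000000000000000000000000000000000000000000000000000000000000000000000,
    nat_lit 0x40004000000000000000000000000000000000000000000000000000000000000000000000000000000000,
    nat_lit 0x40004000000000000000000000000000000000000000000000000000000000000000000000000000000000,
    nat_lit 0x40004000000000000000000000000000000000000000000000000000000000000000000000000000000000],
    [nat_lit 0x218808000300000000000000000000000000000000000000000000000000000000000000000000000000000000,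
    nat_lit 0x218808000300000000000000000000000000000000000000000000000000000000000000000000000000000000,
    nat_lit 0x218808000300000000000000000000000000000000000000000000000000000000000000000000000000000000,
    nat_lit 0x218808000300000000000000000000000000000000000000000000000000000000000000000000000000000000,
    nat_lit 0x218808000300000000000000000000000000000000000000000000000000000000000000000000000000000000,
    nat_lit 0x218808000300000000000000000000000000000000000000000000000000000000000000000000000000000000,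
    nat_lit 0x22000090000000000000000000000000000000000000000000000000000000000000000000000000000000,
    nat_lit 0x22000090000000000000000000000000000000000000000000000000000000000000000000000000000000,
    nat_lit 0x22000090000000000000000000000000000000000000000000000000000000000000000000000000000000],
    [nat_lit 0x22000090000000000000000000000000000000000000000000000000000000000000000000000000000000,
    nat_lit 0x200020000000000000000000000000000000000000000000000000000000000000000000000000000000,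
    nat_lit 0x200020000000000000000000000000000000000000000000000000000000000000000000000000000000,
    nat_lit 0x200020000000000000000000000000000000000000000000000000000000000000000000000000000000,
    nat_lit 0x200020000000000000000000000000000000000000000000000000000000000000000000000000000000,
    nat_lit 0x200020000000000000000000000000000000000000000000000000000000000000000000000000000000,
    nat_lit 0x200020000000000000000000000000000000000000000000000000000000000000000000000000000000,
    nat_lit 0x400080009000000000000000000000000000000000000000000000000000000000000000000000000000000000,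
    nat_lit 0x400080009000000000000000000000000000000000000000000000000000000000000000000000000000000000],
    [nat_lit 0x400080009000000000000000000000000000000000000000000000000000000000000000000000000000000000,
    nat_lit 0x400080009000000000000000000000000000000000000000000000000000000000000000000000000000000000,
    nat_lit 0x2000000000000000000000000000000000000000000000000000000000,
    nat_lit 0x2000000000000000000000000000000000000000000000000000000000,
    nat_lit 0x1224000500000000000000000000000000000000000000000000000000,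
    nat_lit 0x1224000500000000000000000000000000000000000000000000000000,nat_lit 0,
    nat_lit 0x4000000000000000000000000000000000000000000000000000000000,
    nat_lit 0x4000000000000000000000000000000000000000000000000000000000],
    [nat_lit 0x80004b0010000000000000000000000000000000000000000000000000,
    nat_lit 0x80004b0010000000000000000000000000000000000000000000000000,
    nat_lit 0x80004b0010000000000000000000000000000000000000000000000000,
    nat_lit 0x1000000000000000000000000000000000000000000000000000,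
    nat_lit 0x1000000000000000000000000000000000000000000000000000,
    nat_lit 0x1000000000000000000000000000000000000000000000000000,
    nat_lit 0x1000000000000000000000000000000000000000000000000000,
    nat_lit 0x408002000000000000000000000000000000000000000000000000000,
    nat_lit 0x408002000000000000000000000000000000000000000000000000000],[nat_lit 0,nat_lit 0,
    nat_lit 0x1100024000000000000000000000000000000000000000000000000,
    nat_lit 0x1100024000000000000000000000000000000000000000000000000,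
    nat_lit 0x1100024000000000000000000000000000000000000000000000000,
    nat_lit 0x1100024000000000000000000000000000000000000000000000000,
    nat_lit 0x80800000000000000000000000000000000000000000000000000000,
    nat_lit 0x80800000000000000000000000000000000000000000000000000000,
    nat_lit 0x80800000000000000000000000000000000000000000000000000000],
    [nat_lit 0x80800000000000000000000000000000000000000000000000000000,
    nat_lit 0x80800000000000000000000000000000000000000000000000000000,
    nat_lit 0x140000280000000000000000000000000000000000000000000000000,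
    nat_lit 0x140000280000000000000000000000000000000000000000000000000,
    nat_lit 0x140000280000000000000000000000000000000000000000000000000,
    nat_lit 0x140000280000000000000000000000000000000000000000000000000,
    nat_lit 0x810000000000000000000000000000000000000000000000000000000,
    nat_lit 0x810000000000000000000000000000000000000000000000000000000,
    nat_lit 0x810000000000000000000000000000000000000000000000000000000],
    [nat_lit 0x810000000000000000000000000000000000000000000000000000000,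
    nat_lit 0x4000000000000000000000000000000000000000000000000000,
    nat_lit 0x4000000000000000000000000000000000000000000000000000,
    nat_lit 0x10002240048000000000000000000000000000000000000000000000000,
    nat_lit 0x10002240048000000000000000000000000000000000000000000000000,
    nat_lit 0x10002240048000000000000000000000000000000000000000000000000,
    nat_lit 0x10002240048000000000000000000000000000000000000000000000000,
    nat_lit 0x10002240048000000000000000000000000000000000000000000000000,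
    nat_lit 0x10002240048000000000000000000000000000000000000000000000000],
    [nat_lit 0x10002240048000000000000000000000000000000000000000000000000,
    nat_lit 0x2000600000080000000000000000000000000000000000000000000000000000000000000000000000000000000000000000000000000000,
    nat_lit 0x4002000000000000000000000000000000000000000000000000000000000000000000000000000000000000000000000000000000,
    nat_lit 0x4002000000000000000000000000000000000000000000000000000000000000000000000000000000000000000000000000000000,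
    nat_lit 0x4002000000000000000000000000000000000000000000000000000000000000000000000000000000000000000000000000000000,
    nat_lit 0x100000000000000000000000000000000000000000000000000000000000000000000000000000000000000000000000000000,
    nat_lit 0,nat_lit 0,
    nat_lit 0x5000120000000000000000000000000000000000000000000000000000000000000000000000000000000000000000000000000000000]],
    [[nat_lit 0x5000120000000000000000000000000000000000000000000000000000000000000000000000000000000000000000000000000000000,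
    nat_lit 0x20020800000000000000000000000000000000000000000000000000000000000000000000000000000000000000000000000000000000,
    nat_lit 0x20020800000000000000000000000000000000000000000000000000000000000000000000000000000000000000000000000000000000,
    nat_lit 0x20020800000000000000000000000000000000000000000000000000000000000000000000000000000000000000000000000000000000,
    nat_lit 0x80040008800000000000000000000000000000000000000000000000000000000000000000000000000000000000000000000000000000,
    nat_lit 0x80040008800000000000000000000000000000000000000000000000000000000000000000000000000000000000000000000000000000,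
    nat_lit 0x80040008800000000000000000000000000000000000000000000000000000000000000000000000000000000000000000000000000000,
    nat_lit 0,nat_lit 0],
    [nat_lit 0x124a080200000000000000000000000000000000000000000000000000000000000000000000000000000000000000000000000000000000,
    nat_lit 0x124a080200000000000000000000000000000000000000000000000000000000000000000000000000000000000000000000000000000000,
    nat_lit 0x124a080200000000000000000000000000000000000000000000000000000000000000000000000000000000000000000000000000000000,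
    nat_lit 0x124a080200000000000000000000000000000000000000000000000000000000000000000000000000000000000000000000000000000000,
    nat_lit 0x124a080200000000000000000000000000000000000000000000000000000000000000000000000000000000000000000000000000000000,
    nat_lit 0x124a080200000000000000000000000000000000000000000000000000000000000000000000000000000000000000000000000000000000,
    nat_lit 0x800003044000000000000000000000000000000000000000000000000000000000000000000000000000000000000000000000000000000,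
    nat_lit 0x800003044000000000000000000000000000000000000000000000000000000000000000000000000000000000000000000000000000000,
    nat_lit 0x800003044000000000000000000000000000000000000000000000000000000000000000000000000000000000000000000000000000000],
    [nat_lit 0x800003044000000000000000000000000000000000000000000000000000000000000000000000000000000000000000000000000000000,
    nat_lit 0x800003044000000000000000000000000000000000000000000000000000000000000000000000000000000000000000000000000000000,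
    nat_lit 0x800003044000000000000000000000000000000000000000000000000000000000000000000000000000000000000000000000000000000,
    nat_lit 0x8400600000000000000000000000000000000000000000000000000000000000000000000000000000000000000000000000000000,
    nat_lit 0x8400600000000000000000000000000000000000000000000000000000000000000000000000000000000000000000000000000000,
    nat_lit 0x8400600000000000000000000000000000000000000000000000000000000000000000000000000000000000000000000000000000,
    nat_lit 0x8400600000000000000000000000000000000000000000000000000000000000000000000000000000000000000000000000000000,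
    nat_lit 0x100100011000000000000000000000000000000000000000000000000000000000000000000000000000000000000000000000000000000,
    nat_lit 0x100100011000000000000000000000000000000000000000000000000000000000000000000000000000000000000000000000000000000],
    [nat_lit 0x100100011000000000000000000000000000000000000000000000000000000000000000000000000000000000000000000000000000000,
    nat_lit 0x100100011000000000000000000000000000000000000000000000000000000000000000000000000000000000000000000000000000000,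
    nat_lit 0,nat_lit 0,nat_lit 0,nat_lit 0,nat_lit 0,nat_lit 0,
    nat_lit 0x80000000000000000000000000000000000000000000000000000000000000000000000000000000000000000000000000000000],
    [nat_lit 0x8000000000000000000000000000000000000000000000000000000000000000000000000000000,nat_lit 0,
    nat_lit 0x8000000000000000000000000000000000000000000000000000000000000000000000000,
    nat_lit 0x8000000000000000000000000000000000000000000000000000000000000000000000000,
    nat_lit 0x8000000000000000000000000000000000000000000000000000000000000000000000000,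
    nat_lit 0x8000000000000000000000000000000000000000000000000000000000000000000000000,
    nat_lit 0x801400000000000000000000000000000000000000000000000000000000000000000000000,
    nat_lit 0x801400000000000000000000000000000000000000000000000000000000000000000000000,
    nat_lit 0x801400000000000000000000000000000000000000000000000000000000000000000000000],[nat_lit 0,nat_lit 0,
    nat_lit 0,nat_lit 0x422050800000000000000000000000000000000000000000000000000000000000000000000000,
    nat_lit 0x422050800000000000000000000000000000000000000000000000000000000000000000000000,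
    nat_lit 0x422050800000000000000000000000000000000000000000000000000000000000000000000000,
    nat_lit 0x422050800000000000000000000000000000000000000000000000000000000000000000000000,
    nat_lit 0x422050800000000000000000000000000000000000000000000000000000000000000000000000,
    nat_lit 0x1002000000000000000000000000000000000000000000000000000000000000000000000000],
    [nat_lit 0x1002000000000000000000000000000000000000000000000000000000000000000000000000,
    nat_lit 0x1002000000000000000000000000000000000000000000000000000000000000000000000000,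
    nat_lit 0x1002000000000000000000000000000000000000000000000000000000000000000000000000,
    nat_lit 0x4800000110000000000000000000000000000000000000000000000000000000000000000000000,
    nat_lit 0x4800000110000000000000000000000000000000000000000000000000000000000000000000000,
    nat_lit 0x4800000110000000000000000000000000000000000000000000000000000000000000000000000,
    nat_lit 0x4800000110000000000000000000000000000000000000000000000000000000000000000000000,
    nat_lit 0x500080000000000000000000000000000000000000000000000000000000000000000000000,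
    nat_lit 0x500080000000000000000000000000000000000000000000000000000000000000000000000],
    [nat_lit 0x500080000000000000000000000000000000000000000000000000000000000000000000000,
    nat_lit 0x500080000000000000000000000000000000000000000000000000000000000000000000000,
    nat_lit 0x2000000000000000000000000000000000000000000000000000000000000000000000,
    nat_lit 0x1400a0000a00000000000000000000000000000000000000000000000000000000000000000000,
    nat_lit 0x1400a0000a00000000000000000000000000000000000000000000000000000000000000000000,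
    nat_lit 0x1400a0000a00000000000000000000000000000000000000000000000000000000000000000000,
    nat_lit 0x1400a0000a00000000000000000000000000000000000000000000000000000000000000000000,
    nat_lit 0x1400a0000a00000000000000000000000000000000000000000000000000000000000000000000,
    nat_lit 0x1400a0000a00000000000000000000000000000000000000000000000000000000000000000000],
    [nat_lit 0x1400a0000a00000000000000000000000000000000000000000000000000000000000000000000,
    nat_lit 0x4000500000000000000000000000000000000000000000000000000000000000000000000,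
    nat_lit 0x4000500000000000000000000000000000000000000000000000000000000000000000000,
    nat_lit 0x1000200220000000000000000000000000000000000000000000000000000000000000000000000,
    nat_lit 0x1000200220000000000000000000000000000000000000000000000000000000000000000000000,
    nat_lit 0x1000200220000000000000000000000000000000000000000000000000000000000000000000000,
    nat_lit 0x1000200220000000000000000000000000000000000000000000000000000000000000000000000,nat_lit 0x2000000,
    nat_lit 0x4000000]],[[nat_lit 0x4000000,nat_lit 0x4000000,nat_lit 0x4000000,nat_lit 0x4000000,nat_lit 0x4000000,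
    nat_lit 0x4000000,nat_lit 0x810000000,nat_lit 0x810000000,nat_lit 0],[nat_lit 0,nat_lit 0,nat_lit 0,nat_lit 0,
    nat_lit 0x1420000000,nat_lit 0x1420000000,nat_lit 0x1420000000,nat_lit 0x1420000000,nat_lit 0],[nat_lit 0,
    nat_lit 0,nat_lit 0,nat_lit 0,nat_lit 0,nat_lit 0,nat_lit 0,nat_lit 0x100200000,nat_lit 0x100200000],
    [nat_lit 0x100200000,nat_lit 0x100200000,nat_lit 0x100200000,nat_lit 0x100200000,nat_lit 0,nat_lit 0,nat_lit 0,
    nat_lit 0,nat_lit 0],[nat_lit 0,nat_lit 0x40000000,nat_lit 0x40000000,nat_lit 0x201400000,nat_lit 0x201400000]]]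
    [[[[nat_lit 0,
    nat_lit 0x2200000000000000000000000000000000000000000000000000000000000000000000000000000000000000000000000,
    nat_lit 0,nat_lit 0,
    nat_lit 0x40004410000000000000000000000000000000000000000000000000000000000000000000000000000000000000000000000,
    nat_lit 0,nat_lit 0,nat_lit 0,nat_lit 0],[nat_lit 0,
    nat_lit 0x6080000000000000000000000000000000000000000000000000000000000000000000000000000000000000000000,
    nat_lit 0x6080000000000000000000000000000000000000000000000000000000000000000000000000000000000000000000,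
    nat_lit 0x6080000000000000000000000000000000000000000000000000000000000000000000000000000000000000000000,
    nat_lit 0x40000000000000000000000000000000000000000000000000000000000000000000000000000000000000000000000000,
    nat_lit 0x40000000000000000000000000000000000000000000000000000000000000000000000000000000000000000000000000,
    nat_lit 0x40000000000000000000000000000000000000000000000000000000000000000000000000000000000000000000000000,
    nat_lit 0x600180002000000000000000000000000000000000000000000000000000000000000000000000000000000000000000000,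
    nat_lit 0x600180002000000000000000000000000000000000000000000000000000000000000000000000000000000000000000000],
    [nat_lit 0,nat_lit 0,nat_lit 0,nat_lit 0,nat_lit 0,nat_lit 0xa00000000000000,nat_lit 0xa00000000000000,nat_lit 0,
    nat_lit 0x40000000000000],[nat_lit 0,nat_lit 0,nat_lit 0x84000000000000000,nat_lit 0x84000000000000000,nat_lit 0,
    nat_lit 0,nat_lit 0,nat_lit 0x500000000000000,nat_lit 0x8000000000000000],[nat_lit 0x8000000000000000,
    nat_lit 0x10000000000000000,nat_lit 0,nat_lit 0,nat_lit 16,nat_lit 0,nat_lit 0,nat_lit 0x802,nat_lit 0x600],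
    [nat_lit 0x600,nat_lit 4,nat_lit 0x2080,nat_lit 0x2080,nat_lit 0,nat_lit 0,nat_lit 0x1000,nat_lit 0x1000,
    nat_lit 0],[nat_lit 0x900000000000000000000000,nat_lit 0,nat_lit 0,nat_lit 0,nat_lit 0,
    nat_lit 0x200000000000000000000000,nat_lit 0x800000000000000000000,nat_lit 0x800000000000000000000,
    nat_lit 0x800000000000000000000],[nat_lit 0x800000000000000000000,nat_lit 0x800000000000000000000,
    nat_lit 0x800000000000000000000,nat_lit 0x800000000000000000000,nat_lit 0,nat_lit 0,nat_lit 0x46e4000000000,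
    nat_lit 0,nat_lit 0x800000000000],[nat_lit 0x10000000000,nat_lit 0x10000000000,nat_lit 0,nat_lit 0,nat_lit 0,
    nat_lit 0,nat_lit 0,nat_lit 0,nat_lit 0]],[[nat_lit 0,nat_lit 0,nat_lit 0x4000000000000000000000000000,nat_lit 0,
    nat_lit 0,nat_lit 0,nat_lit 0,nat_lit 0,nat_lit 0],[nat_lit 0,nat_lit 0,nat_lit 0,nat_lit 0,nat_lit 0,
    nat_lit 0x2100000000000000000000000000000,nat_lit 0,nat_lit 0,nat_lit 0],[nat_lit 0x200000000000000000,nat_lit 0,
    nat_lit 0,nat_lit 0,nat_lit 0x1000000000000000000,nat_lit 0,nat_lit 0x1000000000000000000,nat_lit 0,nat_lit 0],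
    [nat_lit 0,nat_lit 0,nat_lit 0x20000000000000000000000000000000000000000000000,nat_lit 0,nat_lit 0,nat_lit 0,
    nat_lit 0,nat_lit 0x9000000000000000000000000000000000000000000000,
    nat_lit 0x9000000000000000000000000000000000000000000000],[nat_lit 0,
    nat_lit 0x12000000000000000000000000000000000000000000000,nat_lit 0,
    nat_lit 0xa80010000000000000000000000000000000000000000,nat_lit 0xa80010000000000000000000000000000000000000000,
    nat_lit 0,nat_lit 0,nat_lit 0,nat_lit 0],[nat_lit 0x8000000000000000000000000,nat_lit 0,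
    nat_lit 0x480000000000000000000000000,nat_lit 0x480000000000000000000000000,nat_lit 0,
    nat_lit 0x1200000000000000000000000000,nat_lit 0,nat_lit 0,nat_lit 0x1200000000000000000000000000],
    [nat_lit 0x1200000000000000000000000000,nat_lit 0x1200000000000000000000000000,nat_lit 0,nat_lit 0,nat_lit 0,
    nat_lit 0,nat_lit 0,nat_lit 0,nat_lit 0],[nat_lit 0,nat_lit 0,nat_lit 0,nat_lit 0,nat_lit 0,nat_lit 0,nat_lit 0,
    nat_lit 0,nat_lit 0],[nat_lit 0,nat_lit 0,nat_lit 0,nat_lit 0x2000000000000000000000000000,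
    nat_lit 0x2000000000000000000000000000,
    nat_lit 0x10000000000000000000000000000000000000000000000000000000000000000000,
    nat_lit 0x10000000000000000000000000000000000000000000000000000000000000000000,
    nat_lit 0x10000000000000000000000000000000000000000000000000000000000000000000,nat_lit 0]],[[nat_lit 0,
    nat_lit 0x200000000000000000000000000000000000000000000000000000000000,
    nat_lit 0x82000000000000000000000000000000000000000000000000000000000000000,nat_lit 0,nat_lit 0,nat_lit 0,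
    nat_lit 0x20800000000000000000000000000000000000000000000000000000000000000000,
    nat_lit 0x20060040000000000000000000000000000000000000000000000000000000000,
    nat_lit 0x20060040000000000000000000000000000000000000000000000000000000000],[nat_lit 0,nat_lit 0,nat_lit 0,
    nat_lit 0x104008800000000000000000000000000000000000000000000000000000000000,nat_lit 0,nat_lit 0,
    nat_lit 0x45000480000000000000000000000000000000000000000000000000000000000000,
    nat_lit 0x45000480000000000000000000000000000000000000000000000000000000000000,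
    nat_lit 0x200000000000000000000000000000000000000000000000000000000000000],[nat_lit 0,
    nat_lit 0x180000000000000000000000000000000000000000000000000000000000,
    nat_lit 0x180000000000000000000000000000000000000000000000000000000000,
    nat_lit 0x208010000000000000000000000000000000000000000000000000000000000000,
    nat_lit 0x208010000000000000000000000000000000000000000000000000000000000000,
    nat_lit 0x41002000000000000000000000000000000000000000000000000000000000000,
    nat_lit 0x41002000000000000000000000000000000000000000000000000000000000000,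
    nat_lit 0x41002000000000000000000000000000000000000000000000000000000000000,
    nat_lit 0x41002000000000000000000000000000000000000000000000000000000000000],
    [nat_lit 0x8a000901000000000000000000000000000000000000000000000000000000000000,nat_lit 0,
    nat_lit 0x8a000901000000000000000000000000000000000000000000000000000000000000,
    nat_lit 0x8a000901000000000000000000000000000000000000000000000000000000000000,
    nat_lit 0x8a000901000000000000000000000000000000000000000000000000000000000000,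
    nat_lit 0x200000000000000000000000000000000000000,nat_lit 0x200000000000000000000000000000000000000,
    nat_lit 0x102050000000000000000000000000000000,nat_lit 0x102050000000000000000000000000000000],
    [nat_lit 0x102050000000000000000000000000000000,nat_lit 0x8000000000000000000000000000000000000,
    nat_lit 0x8000000000000000000000000000000000000,nat_lit 0x40808000000000000000000000000000000,nat_lit 0,nat_lit 0,
    nat_lit 0x100000000000000000000000000000000000000,nat_lit 0x4000000000000000000000000000000000,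
    nat_lit 0x2800000000000000000000000000000000000],[nat_lit 0,nat_lit 0x2800000000000000000000000000000000000,
    nat_lit 0x2800000000000000000000000000000000000,nat_lit 0x2800000000000000000000000000000000000,
    nat_lit 0x1000000100000000000000000000000000000000,nat_lit 0x1000000100000000000000000000000000000000,
    nat_lit 0x1000000100000000000000000000000000000000,nat_lit 0x40000000000000000000000000000000000000,
    nat_lit 0x40000000000000000000000000000000000000],[nat_lit 0x40000000000000000000000000000000000000,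
    nat_lit 0x40000000000000000000000000000000000000,nat_lit 0x4281000000000000000000000000000000000,
    nat_lit 0x4281000000000000000000000000000000000,nat_lit 0x4281000000000000000000000000000000000,
    nat_lit 0x4281000000000000000000000000000000000,nat_lit 0x4281000000000000000000000000000000000,
    nat_lit 0x4281000000000000000000000000000000000,nat_lit 0x80008000000000000000000000000000000000],
    [nat_lit 0x80008000000000000000000000000000000000,nat_lit 0x80008000000000000000000000000000000000,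
    nat_lit 0x80008000000000000000000000000000000000,nat_lit 0x80008000000000000000000000000000000000,
    nat_lit 0x2020000000000000000000000000000000000000,nat_lit 0x2020000000000000000000000000000000000000,nat_lit 0,
    nat_lit 0,nat_lit 0],
    [nat_lit 0x800000000000000000000000000000000000000000000000000000000000000000000000000000000000,
    nat_lit 0x20000000000000000000000000000000000000000000000000000000000000000000000000000000000000000,
    nat_lit 0x400040000000000000000000000000000000000000000000000000000000000000000000000000000000,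
    nat_lit 0x2200090000000000000000000000000000000000000000000000000000000000000000000000000000000000,nat_lit 0,
    nat_lit 0x1011060000000000000000000000000000000000000000000000000000000000000000000000000000000000,nat_lit 0,
    nat_lit 0x4400000000000000000000000000000000000000000000000000000000000000000000000000000000000000,
    nat_lit 0x4400000000000000000000000000000000000000000000000000000000000000000000000000000000000000]],
    [[nat_lit 0x4400000000000000000000000000000000000000000000000000000000000000000000000000000000000000,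
    nat_lit 0x4400000000000000000000000000000000000000000000000000000000000000000000000000000000000000,
    nat_lit 0x4400000000000000000000000000000000000000000000000000000000000000000000000000000000000000,
    nat_lit 0x4400000000000000000000000000000000000000000000000000000000000000000000000000000000000000,
    nat_lit 0x180000000000000000000000000000000000000000000000000000000000000000000000000000000000000000,
    nat_lit 0x180000000000000000000000000000000000000000000000000000000000000000000000000000000000000000,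
    nat_lit 0x40004000000000000000000000000000000000000000000000000000000000000000000000000000000000,
    nat_lit 0x40004000000000000000000000000000000000000000000000000000000000000000000000000000000000,
    nat_lit 0x40004000000000000000000000000000000000000000000000000000000000000000000000000000000000],
    [nat_lit 0x100000000000000000000000000000000000000000000000000000000000000000000000000000000,
    nat_lit 0x8800000100000000000000000000000000000000000000000000000000000000000000000000000000000000,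
    nat_lit 0x8800000100000000000000000000000000000000000000000000000000000000000000000000000000000000,
    nat_lit 0x8800000100000000000000000000000000000000000000000000000000000000000000000000000000000000,
    nat_lit 0x8800000100000000000000000000000000000000000000000000000000000000000000000000000000000000,nat_lit 0,
    nat_lit 0x22000010000000000000000000000000000000000000000000000000000000000000000000000000000000,
    nat_lit 0x22000010000000000000000000000000000000000000000000000000000000000000000000000000000000,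
    nat_lit 0x22000010000000000000000000000000000000000000000000000000000000000000000000000000000000],
    [nat_lit 0x22000010000000000000000000000000000000000000000000000000000000000000000000000000000000,nat_lit 0,
    nat_lit 0x200000000000000000000000000000000000000000000000000000000000000000000000000000000000,
    nat_lit 0x200000000000000000000000000000000000000000000000000000000000000000000000000000000000,
    nat_lit 0x200000000000000000000000000000000000000000000000000000000000000000000000000000000000,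
    nat_lit 0x200000000000000000000000000000000000000000000000000000000000000000000000000000000000,
    nat_lit 0x200000000000000000000000000000000000000000000000000000000000000000000000000000000000,
    nat_lit 0x400080008000000000000000000000000000000000000000000000000000000000000000000000000000000000,
    nat_lit 0x400080008000000000000000000000000000000000000000000000000000000000000000000000000000000000],[nat_lit 0,
    nat_lit 0,nat_lit 0x2000000000000000000000000000000000000000000000000000000000,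
    nat_lit 0x2000000000000000000000000000000000000000000000000000000000,nat_lit 0,
    nat_lit 0x1224000100000000000000000000000000000000000000000000000000,nat_lit 0,nat_lit 0,
    nat_lit 0x4000000000000000000000000000000000000000000000000000000000],[nat_lit 0,
    nat_lit 0x80004b0010000000000000000000000000000000000000000000000000,
    nat_lit 0x80004b0010000000000000000000000000000000000000000000000000,
    nat_lit 0x1000000000000000000000000000000000000000000000000000,
    nat_lit 0x1000000000000000000000000000000000000000000000000000,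
    nat_lit 0x1000000000000000000000000000000000000000000000000000,
    nat_lit 0x1000000000000000000000000000000000000000000000000000,
    nat_lit 0x408002000000000000000000000000000000000000000000000000000,
    nat_lit 0x408002000000000000000000000000000000000000000000000000000],[nat_lit 0,nat_lit 0,nat_lit 0,
    nat_lit 0x1100024000000000000000000000000000000000000000000000000,
    nat_lit 0x1100024000000000000000000000000000000000000000000000000,
    nat_lit 0x1100024000000000000000000000000000000000000000000000000,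
    nat_lit 0x800000000000000000000000000000000000000000000000000000,
    nat_lit 0x800000000000000000000000000000000000000000000000000000,
    nat_lit 0x800000000000000000000000000000000000000000000000000000],
    [nat_lit 0x800000000000000000000000000000000000000000000000000000,
    nat_lit 0x800000000000000000000000000000000000000000000000000000,
    nat_lit 0x280000000000000000000000000000000000000000000000000,nat_lit 0,
    nat_lit 0x280000000000000000000000000000000000000000000000000,
    nat_lit 0x280000000000000000000000000000000000000000000000000,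
    nat_lit 0x810000000000000000000000000000000000000000000000000000000,
    nat_lit 0x810000000000000000000000000000000000000000000000000000000,nat_lit 0],[nat_lit 0,nat_lit 0,
    nat_lit 0x4000000000000000000000000000000000000000000000000000,nat_lit 0,nat_lit 0,
    nat_lit 0x10002200008000000000000000000000000000000000000000000000000,
    nat_lit 0x10002200008000000000000000000000000000000000000000000000000,nat_lit 0,nat_lit 0],
    [nat_lit 0x10002200048000000000000000000000000000000000000000000000000,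
    nat_lit 0x2000600000000000000000000000000000000000000000000000000000000000000000000000000000000000000000000000000000000000,
    nat_lit 0,
    nat_lit 0x4002000000000000000000000000000000000000000000000000000000000000000000000000000000000000000000000000000000,
    nat_lit 0x4002000000000000000000000000000000000000000000000000000000000000000000000000000000000000000000000000000000,
    nat_lit 0,nat_lit 0,nat_lit 0,nat_lit 0]],
    [[nat_lit 0x5000020000000000000000000000000000000000000000000000000000000000000000000000000000000000000000000000000000000,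
    nat_lit 0x20020800000000000000000000000000000000000000000000000000000000000000000000000000000000000000000000000000000000,
    nat_lit 0x20020800000000000000000000000000000000000000000000000000000000000000000000000000000000000000000000000000000000,
    nat_lit 0x20020800000000000000000000000000000000000000000000000000000000000000000000000000000000000000000000000000000000,
    nat_lit 0x80040000800000000000000000000000000000000000000000000000000000000000000000000000000000000000000000000000000000,
    nat_lit 0,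
    nat_lit 0x80040000000000000000000000000000000000000000000000000000000000000000000000000000000000000000000000000000000000,
    nat_lit 0,nat_lit 0],[nat_lit 0,
    nat_lit 0x120a080000000000000000000000000000000000000000000000000000000000000000000000000000000000000000000000000000000000,
    nat_lit 0,
    nat_lit 0x120a080000000000000000000000000000000000000000000000000000000000000000000000000000000000000000000000000000000000,
    nat_lit 0x120a080000000000000000000000000000000000000000000000000000000000000000000000000000000000000000000000000000000000,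
    nat_lit 0x120a080000000000000000000000000000000000000000000000000000000000000000000000000000000000000000000000000000000000,
    nat_lit 0x800003040000000000000000000000000000000000000000000000000000000000000000000000000000000000000000000000000000000,
    nat_lit 0x800003040000000000000000000000000000000000000000000000000000000000000000000000000000000000000000000000000000000,
    nat_lit 0x800003040000000000000000000000000000000000000000000000000000000000000000000000000000000000000000000000000000000],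
    [nat_lit 0x800003040000000000000000000000000000000000000000000000000000000000000000000000000000000000000000000000000000000,
    nat_lit 0x800003040000000000000000000000000000000000000000000000000000000000000000000000000000000000000000000000000000000,
    nat_lit 0x800003040000000000000000000000000000000000000000000000000000000000000000000000000000000000000000000000000000000,
    nat_lit 0x8400400000000000000000000000000000000000000000000000000000000000000000000000000000000000000000000000000000,
    nat_lit 0,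
    nat_lit 0x8400400000000000000000000000000000000000000000000000000000000000000000000000000000000000000000000000000000,
    nat_lit 0x8400400000000000000000000000000000000000000000000000000000000000000000000000000000000000000000000000000000,
    nat_lit 0x100000000000000000000000000000000000000000000000000000000000000000000000000000000000000000000000000000000000000,
    nat_lit 0x100100011000000000000000000000000000000000000000000000000000000000000000000000000000000000000000000000000000000],
    [nat_lit 0x100100011000000000000000000000000000000000000000000000000000000000000000000000000000000000000000000000000000000,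
    nat_lit 0,nat_lit 0,nat_lit 0,nat_lit 0,nat_lit 0,nat_lit 0,nat_lit 0,nat_lit 0],[nat_lit 0,nat_lit 0,nat_lit 0,
    nat_lit 0x8000000000000000000000000000000000000000000000000000000000000000000000000,
    nat_lit 0x8000000000000000000000000000000000000000000000000000000000000000000000000,
    nat_lit 0x8000000000000000000000000000000000000000000000000000000000000000000000000,
    nat_lit 0x801400000000000000000000000000000000000000000000000000000000000000000000000,
    nat_lit 0x801400000000000000000000000000000000000000000000000000000000000000000000000,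
    nat_lit 0x801400000000000000000000000000000000000000000000000000000000000000000000000],[nat_lit 0,nat_lit 0,
    nat_lit 0,nat_lit 0x422050800000000000000000000000000000000000000000000000000000000000000000000000,
    nat_lit 0x422050800000000000000000000000000000000000000000000000000000000000000000000000,
    nat_lit 0x422050800000000000000000000000000000000000000000000000000000000000000000000000,
    nat_lit 0x422050800000000000000000000000000000000000000000000000000000000000000000000000,nat_lit 0,nat_lit 0],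
    [nat_lit 0x1000000000000000000000000000000000000000000000000000000000000000000000000000,
    nat_lit 0x1000000000000000000000000000000000000000000000000000000000000000000000000000,
    nat_lit 0x1000000000000000000000000000000000000000000000000000000000000000000000000000,
    nat_lit 0x800000010000000000000000000000000000000000000000000000000000000000000000000000,
    nat_lit 0x800000010000000000000000000000000000000000000000000000000000000000000000000000,
    nat_lit 0x800000110000000000000000000000000000000000000000000000000000000000000000000000,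
    nat_lit 0x800000010000000000000000000000000000000000000000000000000000000000000000000000,nat_lit 0,
    nat_lit 0x80000000000000000000000000000000000000000000000000000000000000000000000],
    [nat_lit 0x100080000000000000000000000000000000000000000000000000000000000000000000000,
    nat_lit 0x100080000000000000000000000000000000000000000000000000000000000000000000000,nat_lit 0,
    nat_lit 0x400a0000200000000000000000000000000000000000000000000000000000000000000000000,nat_lit 0,
    nat_lit 0x400a0000200000000000000000000000000000000000000000000000000000000000000000000,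
    nat_lit 0x400a0000200000000000000000000000000000000000000000000000000000000000000000000,
    nat_lit 0x400a0000200000000000000000000000000000000000000000000000000000000000000000000,
    nat_lit 0x400a0000200000000000000000000000000000000000000000000000000000000000000000000],[nat_lit 0,
    nat_lit 0x4000100000000000000000000000000000000000000000000000000000000000000000000,
    nat_lit 0x4000100000000000000000000000000000000000000000000000000000000000000000000,
    nat_lit 0x1000200200000000000000000000000000000000000000000000000000000000000000000000000,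
    nat_lit 0x1000200200000000000000000000000000000000000000000000000000000000000000000000000,
    nat_lit 0x1000200200000000000000000000000000000000000000000000000000000000000000000000000,nat_lit 0,nat_lit 0,
    nat_lit 0]],[[nat_lit 0x4000000,nat_lit 0,nat_lit 0x4000000,nat_lit 0x4000000,nat_lit 0,nat_lit 0x4000000,
    nat_lit 0x800000000,nat_lit 0x800000000,nat_lit 0],[nat_lit 0,nat_lit 0,nat_lit 0,nat_lit 0,nat_lit 0,
    nat_lit 0x1420000000,nat_lit 0x1420000000,nat_lit 0x1420000000,nat_lit 0],[nat_lit 0,nat_lit 0,nat_lit 0,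
    nat_lit 0,nat_lit 0,nat_lit 0,nat_lit 0,nat_lit 0,nat_lit 0x100200000],[nat_lit 0x100200000,nat_lit 0x100200000,
    nat_lit 0x100200000,nat_lit 0x100200000,nat_lit 0,nat_lit 0,nat_lit 0,nat_lit 0,nat_lit 0],[nat_lit 0,nat_lit 0,
    nat_lit 0,nat_lit 0x201400000,nat_lit 0]]],[[[nat_lit 0,nat_lit 0,nat_lit 0,nat_lit 0,
    nat_lit 0x4400000000000000000000000000000000000000000000000000000000000000000000000000000000000000000000000,
    nat_lit 0,nat_lit 0,nat_lit 0,nat_lit 0],[nat_lit 0,
    nat_lit 0x80000000000000000000000000000000000000000000000000000000000000000000000000000000000000000000,nat_lit 0,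
    nat_lit 0x80000000000000000000000000000000000000000000000000000000000000000000000000000000000000000000,nat_lit 0,
    nat_lit 0,nat_lit 0,nat_lit 0,nat_lit 0],[nat_lit 0,nat_lit 0,nat_lit 0,nat_lit 0,nat_lit 0,nat_lit 0,
    nat_lit 0x800000000000000,nat_lit 0,nat_lit 0x40000000000000],[nat_lit 0,nat_lit 0,nat_lit 0,nat_lit 0,nat_lit 0,
    nat_lit 0,nat_lit 0,nat_lit 0,nat_lit 0],[nat_lit 0,nat_lit 0,nat_lit 0,nat_lit 0,nat_lit 16,nat_lit 0,nat_lit 0,
    nat_lit 0,nat_lit 0],[nat_lit 0,nat_lit 0,nat_lit 0x2000,nat_lit 0,nat_lit 0,nat_lit 0,nat_lit 0,nat_lit 0,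
    nat_lit 0],[nat_lit 0x800000000000000000000000,nat_lit 0,nat_lit 0,nat_lit 0,nat_lit 0,nat_lit 0,nat_lit 0,
    nat_lit 0,nat_lit 0x800000000000000000000],[nat_lit 0,nat_lit 0,nat_lit 0x800000000000000000000,nat_lit 0,
    nat_lit 0,nat_lit 0,nat_lit 0x240000000000,nat_lit 0,nat_lit 0],[nat_lit 0x10000000000,nat_lit 0,nat_lit 0,
    nat_lit 0,nat_lit 0,nat_lit 0,nat_lit 0,nat_lit 0,nat_lit 0]],[[nat_lit 0,nat_lit 0,
    nat_lit 0x4000000000000000000000000000,nat_lit 0,nat_lit 0,nat_lit 0,nat_lit 0,nat_lit 0,nat_lit 0],[nat_lit 0,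
    nat_lit 0,nat_lit 0,nat_lit 0,nat_lit 0,nat_lit 0,nat_lit 0,nat_lit 0,nat_lit 0],[nat_lit 0x200000000000000000,
    nat_lit 0,nat_lit 0,nat_lit 0,nat_lit 0,nat_lit 0,nat_lit 0,nat_lit 0,nat_lit 0],[nat_lit 0,nat_lit 0,
    nat_lit 0x20000000000000000000000000000000000000000000000,nat_lit 0,nat_lit 0,nat_lit 0,nat_lit 0,nat_lit 0,
    nat_lit 0x8000000000000000000000000000000000000000000000],[nat_lit 0,nat_lit 0,nat_lit 0,nat_lit 0,
    nat_lit 0x800010000000000000000000000000000000000000000,nat_lit 0,nat_lit 0,nat_lit 0,nat_lit 0],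
    [nat_lit 0x8000000000000000000000000,nat_lit 0,nat_lit 0x80000000000000000000000000,nat_lit 0,nat_lit 0,
    nat_lit 0x200000000000000000000000000,nat_lit 0,nat_lit 0,nat_lit 0x200000000000000000000000000],[nat_lit 0,
    nat_lit 0,nat_lit 0,nat_lit 0,nat_lit 0,nat_lit 0,nat_lit 0,nat_lit 0,nat_lit 0],[nat_lit 0,nat_lit 0,nat_lit 0,
    nat_lit 0,nat_lit 0,nat_lit 0,nat_lit 0,nat_lit 0,nat_lit 0],[nat_lit 0,nat_lit 0,nat_lit 0,nat_lit 0,nat_lit 0,
    nat_lit 0,nat_lit 0,nat_lit 0x10000000000000000000000000000000000000000000000000000000000000000000,nat_lit 0]],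
    [[nat_lit 0,nat_lit 0,nat_lit 0x82000000000000000000000000000000000000000000000000000000000000000,nat_lit 0,
    nat_lit 0,nat_lit 0,nat_lit 0,nat_lit 0,nat_lit 0],[nat_lit 0,nat_lit 0,nat_lit 0,
    nat_lit 0x100000800000000000000000000000000000000000000000000000000000000000,nat_lit 0,nat_lit 0,nat_lit 0,
    nat_lit 0,nat_lit 0],[nat_lit 0,nat_lit 0,nat_lit 0,nat_lit 0,nat_lit 0,nat_lit 0,
    nat_lit 0x1002000000000000000000000000000000000000000000000000000000000000,
    nat_lit 0x1002000000000000000000000000000000000000000000000000000000000000,nat_lit 0],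
    [nat_lit 0xa000800000000000000000000000000000000000000000000000000000000000000,nat_lit 0,
    nat_lit 0x800000000000000000000000000000000000000000000000000000000000000,
    nat_lit 0x800000000000000000000000000000000000000000000000000000000000000,nat_lit 0,
    nat_lit 0x200000000000000000000000000000000000000,nat_lit 0x200000000000000000000000000000000000000,
    nat_lit 0x102000000000000000000000000000000000,nat_lit 0],[nat_lit 0x102000000000000000000000000000000000,
    nat_lit 0,nat_lit 0,nat_lit 0x800000000000000000000000000000000,nat_lit 0,nat_lit 0,nat_lit 0,nat_lit 0,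
    nat_lit 0],[nat_lit 0,nat_lit 0,nat_lit 0,nat_lit 0,nat_lit 0,nat_lit 0,nat_lit 0,nat_lit 0,
    nat_lit 0x40000000000000000000000000000000000000],[nat_lit 0x40000000000000000000000000000000000000,nat_lit 0,
    nat_lit 0x4000000000000000000000000000000000000,nat_lit 0x4081000000000000000000000000000000000,nat_lit 0,
    nat_lit 0x4000000000000000000000000000000000000,nat_lit 0,nat_lit 0,nat_lit 0],[nat_lit 0,nat_lit 0,nat_lit 0,
    nat_lit 0,nat_lit 0,nat_lit 0,nat_lit 0,nat_lit 0,nat_lit 0],
    [nat_lit 0x800000000000000000000000000000000000000000000000000000000000000000000000000000000000,nat_lit 0,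
    nat_lit 0x400040000000000000000000000000000000000000000000000000000000000000000000000000000000,nat_lit 0,
    nat_lit 0,nat_lit 0,nat_lit 0,nat_lit 0,nat_lit 0]],[[nat_lit 0,nat_lit 0,
    nat_lit 0x4000000000000000000000000000000000000000000000000000000000000000000000000000000000000000,nat_lit 0,
    nat_lit 0,nat_lit 0,nat_lit 0x4000000000000000000000000000000000000000000000000000000000000000000000000000000000,
    nat_lit 0x4000000000000000000000000000000000000000000000000000000000000000000000000000000000,nat_lit 0],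
    [nat_lit 0,nat_lit 0,nat_lit 0,nat_lit 0,nat_lit 0,nat_lit 0,nat_lit 0,nat_lit 0,nat_lit 0],
    [nat_lit 0x10000000000000000000000000000000000000000000000000000000000000000000000000000000,nat_lit 0,nat_lit 0,
    nat_lit 0,nat_lit 0,nat_lit 0,nat_lit 0,
    nat_lit 0x80008000000000000000000000000000000000000000000000000000000000000000000000000000000000,
    nat_lit 0x8000000000000000000000000000000000000000000000000000000000000000000000000000000000],[nat_lit 0,
    nat_lit 0,nat_lit 0x2000000000000000000000000000000000000000000000000000000000,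
    nat_lit 0x2000000000000000000000000000000000000000000000000000000000,nat_lit 0,nat_lit 0,nat_lit 0,nat_lit 0,
    nat_lit 0],[nat_lit 0,nat_lit 0x20000000000000000000000000000000000000000000000000000,nat_lit 0,nat_lit 0,
    nat_lit 0,nat_lit 0,nat_lit 0,nat_lit 0x400002000000000000000000000000000000000000000000000000000,nat_lit 0],
    [nat_lit 0,nat_lit 0,nat_lit 0,nat_lit 0x100000000000000000000000000000000000000000000000000000,nat_lit 0,
    nat_lit 0,nat_lit 0,nat_lit 0,nat_lit 0],[nat_lit 0,nat_lit 0,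
    nat_lit 0x280000000000000000000000000000000000000000000000000,nat_lit 0,
    nat_lit 0x200000000000000000000000000000000000000000000000000,nat_lit 0,nat_lit 0,nat_lit 0,nat_lit 0],[nat_lit 0,
    nat_lit 0,nat_lit 0x4000000000000000000000000000000000000000000000000000,nat_lit 0,nat_lit 0,nat_lit 0,nat_lit 0,
    nat_lit 0,nat_lit 0],[nat_lit 0,
    nat_lit 0x200000000000000000000000000000000000000000000000000000000000000000000000000000000000000000000000000000000000,
    nat_lit 0,nat_lit 0,nat_lit 0,nat_lit 0,nat_lit 0,nat_lit 0,nat_lit 0]],[[nat_lit 0,nat_lit 0,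
    nat_lit 0x800000000000000000000000000000000000000000000000000000000000000000000000000000000000000000000000000000000,
    nat_lit 0,
    nat_lit 0x80040000000000000000000000000000000000000000000000000000000000000000000000000000000000000000000000000000000000,
    nat_lit 0,nat_lit 0,nat_lit 0,nat_lit 0],[nat_lit 0,
    nat_lit 0x2080000000000000000000000000000000000000000000000000000000000000000000000000000000000000000000000000000000000,
    nat_lit 0,
    nat_lit 0x2000000000000000000000000000000000000000000000000000000000000000000000000000000000000000000000000000000000000,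
    nat_lit 0,nat_lit 0,nat_lit 0,nat_lit 0,nat_lit 0],[nat_lit 0,nat_lit 0,nat_lit 0,
    nat_lit 0x8000000000000000000000000000000000000000000000000000000000000000000000000000000000000000000000000000000000,
    nat_lit 0,nat_lit 0,
    nat_lit 0x8000000000000000000000000000000000000000000000000000000000000000000000000000000000000000000000000000000000,
    nat_lit 0,nat_lit 0],[nat_lit 0,nat_lit 0,nat_lit 0,nat_lit 0,nat_lit 0,nat_lit 0,nat_lit 0,nat_lit 0,nat_lit 0],
    [nat_lit 0,nat_lit 0,nat_lit 0,nat_lit 0,nat_lit 0,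
    nat_lit 0x8000000000000000000000000000000000000000000000000000000000000000000000000,nat_lit 0,
    nat_lit 0x400000000000000000000000000000000000000000000000000000000000000000000000,nat_lit 0],[nat_lit 0,
    nat_lit 0,nat_lit 0,nat_lit 0,nat_lit 0,nat_lit 0,nat_lit 0,nat_lit 0,nat_lit 0],[nat_lit 0,nat_lit 0,nat_lit 0,
    nat_lit 0,nat_lit 0,nat_lit 0,nat_lit 0,nat_lit 0,nat_lit 0],
    [nat_lit 0x80000000000000000000000000000000000000000000000000000000000000000000000,
    nat_lit 0x80000000000000000000000000000000000000000000000000000000000000000000000,nat_lit 0,nat_lit 0,nat_lit 0,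
    nat_lit 0x200000000000000000000000000000000000000000000000000000000000000000000,nat_lit 0,
    nat_lit 0x80000200000000000000000000000000000000000000000000000000000000000000000000,nat_lit 0],[nat_lit 0,
    nat_lit 0,nat_lit 0,nat_lit 0x200200000000000000000000000000000000000000000000000000000000000000000000000,
    nat_lit 0,nat_lit 0,nat_lit 0,nat_lit 0,nat_lit 0]],[[nat_lit 0,nat_lit 0,nat_lit 0x4000000,nat_lit 0x4000000,
    nat_lit 0,nat_lit 0,nat_lit 0,nat_lit 0,nat_lit 0],[nat_lit 0,nat_lit 0,nat_lit 0,nat_lit 0,nat_lit 0,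
    nat_lit 0x420000000,nat_lit 0,nat_lit 0,nat_lit 0],[nat_lit 0,nat_lit 0,nat_lit 0,nat_lit 0,nat_lit 0,nat_lit 0,
    nat_lit 0,nat_lit 0,nat_lit 0],[nat_lit 0,nat_lit 0,nat_lit 0,nat_lit 0,nat_lit 0,nat_lit 0,nat_lit 0,nat_lit 0,
    nat_lit 0],[nat_lit 0,nat_lit 0,nat_lit 0,nat_lit 0,nat_lit 0]]]]
    (nat_lit 2) (nat_lit 1) (nat_lit 81)
    [[nat_lit 2,nat_lit 17,nat_lit 0x10001,nat_lit 0x20001,nat_lit 0x1010001,nat_lit 0x10010001,nat_lit 0x100001,
    nat_lit 0x1000001,nat_lit 0x2000001,nat_lit 0x11000001,nat_lit 0x10000001],[nat_lit 32,nat_lit 272,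
    nat_lit 0x10001010,nat_lit 0x10010,nat_lit 0x20010,nat_lit 0x1010010,nat_lit 0x10010010,nat_lit 0x10020010,
    nat_lit 0x110010,nat_lit 0x11010010,nat_lit 0x100010,nat_lit 0x1000010,nat_lit 0x1100010,nat_lit 0x2000010,
    nat_lit 0x12000010,nat_lit 0x11000010,nat_lit 0x10000010,nat_lit 0x20000010],[nat_lit 512,nat_lit 0x10100,
    nat_lit 0x1000100,nat_lit 0x10000100,nat_lit 0x20000100],[nat_lit 0x2000,nat_lit 0x11000,nat_lit 0x111000,
    nat_lit 0x10011000,nat_lit 0x101000,nat_lit 0x1001000,nat_lit 0x11001000,nat_lit 0x10001000,nat_lit 0x10101000,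
    nat_lit 0x20001000],[nat_lit 0x20000,nat_lit 0x30000,nat_lit 0x120000,nat_lit 0x1020000,nat_lit 0x10020000,
    nat_lit 0x110000,nat_lit 0x1110000,nat_lit 0x10110000,nat_lit 0x1010000,nat_lit 0x2010000,nat_lit 0x3010000,
    nat_lit 0x11010000,nat_lit 0x11020000,nat_lit 0x10010000,nat_lit 0x20020000,nat_lit 0x12010000,nat_lit 0x21010000,
    nat_lit 0x20010000],[nat_lit 0x200000,nat_lit 0x1100000,nat_lit 0x2100000,nat_lit 0x11100000,nat_lit 0x10100000,
    nat_lit 0x20100000],[nat_lit 0x2000000,nat_lit 0x3000000,nat_lit 0x4000000,nat_lit 0x13000000,nat_lit 0x12000000,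
    nat_lit 0x22000000,nat_lit 0x11000000,nat_lit 0x21000000],[nat_lit 0x20000000,nat_lit 0x30000000]]
    [.c (nat_lit 1) (nat_lit 2),.c (nat_lit 0) (nat_lit 0x80000807),.c (nat_lit 0) (nat_lit 0x11007),
    .c (nat_lit 0) (nat_lit 0x20807),.c (nat_lit 0) (nat_lit 0x4010807),.c (nat_lit 1) (nat_lit 0x18806),
    .c (nat_lit 1) (nat_lit 0x300806),.c (nat_lit 0) (nat_lit 0x4001007),.c (nat_lit 0) (nat_lit 0x8000807),
    .c (nat_lit 1) (nat_lit 0x6000806),.c (nat_lit 1) (nat_lit 0x802),.c (nat_lit 2) (nat_lit 2),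
    .r (nat_lit 0xdb8) (nat_lit 11) [nat_lit 0xc63018e3,nat_lit 65],.c (nat_lit 0) (nat_lit 0x10042108e6),
    .c (nat_lit 0) (nat_lit 0x80010007),.c (nat_lit 2) (nat_lit 0x80028006),.c (nat_lit 2) (nat_lit 0x86018006),
    .c (nat_lit 0) (nat_lit 0x80010007),.r (nat_lit 0xdb8) (nat_lit 11) [nat_lit 0x300c62018e3,nat_lit 0x200005000c3],
    .r (nat_lit 0xdb8) (nat_lit 11) [nat_lit 0x300c00018e3,nat_lit 0x200063000c3],
    .r (nat_lit 0xdb8) (nat_lit 11) [nat_lit 0x300060018e3,nat_lit 0x200c03000c3],.c (nat_lit 0) (nat_lit 0x80200007),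
    .c (nat_lit 0) (nat_lit 0x84000007),.r (nat_lit 0xdb8) (nat_lit 11) [nat_lit 0x300003018e3,nat_lit 0x200c60000c3],
    .c (nat_lit 2) (nat_lit 0x8a000006),.r (nat_lit 0xdb8) (nat_lit 11) [nat_lit 0x300863018e3,nat_lit 0x201400000c3],
    .c (nat_lit 0) (nat_lit 0x84000007),.c (nat_lit 0) (nat_lit 0x80000009),.c (nat_lit 1) (nat_lit 0xc0001006),
    .c (nat_lit 3) (nat_lit 2),.c (nat_lit 0) (nat_lit 0x1000010007),.c (nat_lit 0) (nat_lit 0x1004000007),
    .c (nat_lit 1) (nat_lit 0x1800001006),.r (nat_lit 0xdb8) (nat_lit 11) [nat_lit 0x518c63018c3,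
    nat_lit 0x410000000e3],.c (nat_lit 4) (nat_lit 2),.c (nat_lit 1) (nat_lit 0x10842018e6),
    .c (nat_lit 0) (nat_lit 0x10840008e6),.r (nat_lit 0xdb8) (nat_lit 11) [nat_lit 0x3100c3,nat_lit 0xc60198e3],
    .r (nat_lit 0xdb8) (nat_lit 11) [nat_lit 0x60100c3,nat_lit 0xc03198e3],.c (nat_lit 1) (nat_lit 0x10802118e6),
    .r (nat_lit 0xdb8) (nat_lit 11) [nat_lit 0xc00100c3,nat_lit 0x63198e3],.r (nat_lit 0xdb7) (nat_lit 3) [nat_lit 65,
    nat_lit 0x63198e3],.c (nat_lit 2) (nat_lit 0x1886018cc7),.r (nat_lit 0xdb8) (nat_lit 11) [nat_lit 0x318c63118c6,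
    nat_lit 0x210c63198e6],.c (nat_lit 5) (nat_lit 2),.c (nat_lit 0) (nat_lit 0x10003),
    .c (nat_lit 0) (nat_lit 0x220007),.c (nat_lit 0) (nat_lit 0x4020007),.c (nat_lit 0) (nat_lit 0x10005),
    .c (nat_lit 0) (nat_lit 0x41000d),.c (nat_lit 0) (nat_lit 0x4210007),.c (nat_lit 1) (nat_lit 0x319006),
    .c (nat_lit 5) (nat_lit 0x6010006),.c (nat_lit 0) (nat_lit 0x8010007),.c (nat_lit 2) (nat_lit 0x10e018006),
    .c (nat_lit 0) (nat_lit 0x801000d),.c (nat_lit 0) (nat_lit 0x4020007),.c (nat_lit 0) (nat_lit 0x10005),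
    .c (nat_lit 1) (nat_lit 0x29006),.c (nat_lit 0) (nat_lit 0x8010007),.c (nat_lit 1) (nat_lit 0x6019006),
    .c (nat_lit 1) (nat_lit 0x1a006),.c (nat_lit 6) (nat_lit 2),.c (nat_lit 0) (nat_lit 0x4400007),
    .c (nat_lit 0) (nat_lit 0x8200007),.c (nat_lit 1) (nat_lit 0x6301006),.c (nat_lit 1) (nat_lit 0x302006),
    .r (nat_lit 0xdb7) (nat_lit 3) [nat_lit 0x318ca3198c3,nat_lit 0x210840000e3],.c (nat_lit 7) (nat_lit 2),
    .c (nat_lit 0) (nat_lit 0x4000003),.c (nat_lit 2) (nat_lit 0x112000006),.c (nat_lit 0) (nat_lit 0x4000003),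
    .c (nat_lit 0) (nat_lit 0x4000005),.c (nat_lit 1) (nat_lit 0xa001006),.c (nat_lit 0) (nat_lit 0x4000005),
    .c (nat_lit 1) (nat_lit 0x6002006),.c (nat_lit 8) (nat_lit 2),
    .r (nat_lit 0x59b) (nat_lit 14) [nat_lit 0x701ce73c801,nat_lit 0x30041,nat_lit 193,nat_lit 0x1800000a1,
    nat_lit 0x63198634ce1,nat_lit 0x739ce03c881]]]

/-- nodes -/
noncomputable def rD8k_9_1 : List RJ :=
  [.s (nat_lit 13) (nat_lit 0x780) (nat_lit 3) (nat_lit 0x30c0000030c000002fa000002fa0000034b0000034b0000034b0000034b0000033900000339000003c5000003c500000354000003540000034200000342) (nat_lit 0xb9000000b9000000cb000000cb0000007a0000007a0000007a0000007a0000008c0000008c000000000000000000000071000000710000008300000083)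
    (nat_lit 0x12988bc55a2411490a485242921400d606f030c14d8a6c5122890f3894c55a24114908985242921400bb06f030c14d8a6c512289120890453629b140085042828013709b85f42fa14488744ee2771568ab453629b1400a005482800dd09b85f42fa1448a244ee2771130a4850021416889945a22d115f8a6c6963ff16d0b684b82c81490a485002801688b445a22d10f38afc6de42316d0ad85902c81490a485002801688b445a22d10f38afc6de42316d0ad85902c81490a485482141688b445c62d115f8afc6963ff1010b683e02c81760d604dc26e15f8a6c57e2bf0fc8a6c6723391640b2056c38e1400a0037426e0f38afc57e1e715687e46de339253129856c2da1860c305f42fa2118ffc7fe42319c8ce43ce3c51980c786841641bc0de05f42fa1b78d2c69636f1b78ce478a1e71aa0d5068434214d8a6c51221d15b0b685b42b62530b206a831e1718b8c4ca2d114d8a6c51228916d0b684042da2530b206a83301718b8c5a22d11448a244ee2771640b205902c816d0e386841641688b4457e2bf1448a244ee27716409703e02c815b0ad868434216889945c62bf)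
    (nat_lit 0x1299e00f007803c01e00f007803c01e00f007803c01e00f00780117894cf007803c01e00f007803c01e00f007803c01e00f007801568ab45367803c01e00f007803c01e00f007803c01e00f00780120890453629b3c01e00f007803c01e00f007803c01e00f007801490a485002801689e00f007803c01e00f007803c01e00f0078014908984282801328b44f007803c01e00f007803c01e00f007801490a484282a41688b445a27803c01e00f007803c01e00f007801490a485002801688b445a22d13c01e00f007803c01e00f007801400a004dc1ba15f879c3ce2bf0fc9e00f007803c01e00f007801ac0bb04dc26e14d8afc57e2bf14d87e4f007803c01e00f007801bc0de05f42fa1a58dbc6de34b19c8dbc3ce7803c01e00f007801860c305f42fa1ff908c8463ff19c8ce478a1e73c01e00f0078014d8a6c51228916d0b685b42021640fa46603541719e00f0078014d8a6c43a28916d0ad856c2da1640f5c63c3541718b8cf007801448a244ee27712e0b205901f015b0ad86843421328b4457e7801448a244ee2771640b205902c81c70b682c83421688b4457e2bf)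
    (nat_lit 4) (nat_lit 71)
    [[nat_lit 0,nat_lit 0,nat_lit 5],[nat_lit 0,nat_lit 0,nat_lit 9,nat_lit 13],[nat_lit 0,nat_lit 0,nat_lit 11,
    nat_lit 13],[nat_lit 0,nat_lit 2,nat_lit 12],[nat_lit 0,nat_lit 2,nat_lit 13],[nat_lit 0,nat_lit 3,nat_lit 12],
    [nat_lit 0,nat_lit 3,nat_lit 13],[nat_lit 0,nat_lit 5,nat_lit 0],[nat_lit 0,nat_lit 5,nat_lit 14],[nat_lit 0,
    nat_lit 5,nat_lit 15],[nat_lit 0,nat_lit 6,nat_lit 8],[nat_lit 0,nat_lit 6,nat_lit 11],[nat_lit 0,nat_lit 7,
    nat_lit 9],[nat_lit 0,nat_lit 9,nat_lit 7],[nat_lit 0,nat_lit 9,nat_lit 13,nat_lit 0],[nat_lit 0,nat_lit 9,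
    nat_lit 14,nat_lit 12],[nat_lit 0,nat_lit 10,nat_lit 7],[nat_lit 0,nat_lit 11,nat_lit 13,nat_lit 0],[nat_lit 0,
    nat_lit 13,nat_lit 2],[nat_lit 0,nat_lit 13,nat_lit 8,nat_lit 15],[nat_lit 0,nat_lit 14,nat_lit 5],[nat_lit 0,
    nat_lit 15,nat_lit 4],[nat_lit 0,nat_lit 15,nat_lit 5],[nat_lit 1,nat_lit 1,nat_lit 4],[nat_lit 1,nat_lit 1,
    nat_lit 12,nat_lit 8],[nat_lit 1,nat_lit 1,nat_lit 12,nat_lit 10],[nat_lit 1,nat_lit 3,nat_lit 12],[nat_lit 1,
    nat_lit 4,nat_lit 1],[nat_lit 1,nat_lit 4,nat_lit 14],[nat_lit 1,nat_lit 4,nat_lit 15],[nat_lit 1,nat_lit 5,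
    nat_lit 14],[nat_lit 1,nat_lit 6,nat_lit 8],[nat_lit 1,nat_lit 6,nat_lit 11],[nat_lit 1,nat_lit 8,nat_lit 6],
    [nat_lit 1,nat_lit 9,nat_lit 7],[nat_lit 1,nat_lit 10,nat_lit 7],[nat_lit 1,nat_lit 12,nat_lit 2],[nat_lit 1,
    nat_lit 12,nat_lit 3],[nat_lit 1,nat_lit 12,nat_lit 8,nat_lit 1],[nat_lit 1,nat_lit 12,nat_lit 10,nat_lit 1],
    [nat_lit 1,nat_lit 13,nat_lit 2],[nat_lit 1,nat_lit 13,nat_lit 3],[nat_lit 1,nat_lit 13,nat_lit 15,nat_lit 8],
    [nat_lit 1,nat_lit 14,nat_lit 4],[nat_lit 1,nat_lit 14,nat_lit 9,nat_lit 12],[nat_lit 1,nat_lit 15,nat_lit 4],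
    [nat_lit 2,nat_lit 6],[nat_lit 2,nat_lit 7],[nat_lit 2,nat_lit 12,nat_lit 14],[nat_lit 2,nat_lit 12,nat_lit 15],
    [nat_lit 2,nat_lit 13,nat_lit 14],[nat_lit 2,nat_lit 13,nat_lit 15],[nat_lit 2,nat_lit 14,nat_lit 12],[nat_lit 2,
    nat_lit 14,nat_lit 13],[nat_lit 2,nat_lit 15,nat_lit 12],[nat_lit 2,nat_lit 15,nat_lit 13],[nat_lit 3,nat_lit 6],
    [nat_lit 3,nat_lit 7],[nat_lit 3,nat_lit 12,nat_lit 14],[nat_lit 3,nat_lit 12,nat_lit 15],[nat_lit 3,nat_lit 13,
    nat_lit 14],[nat_lit 3,nat_lit 13,nat_lit 15],[nat_lit 3,nat_lit 14,nat_lit 12],[nat_lit 3,nat_lit 14,nat_lit 13],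
    [nat_lit 3,nat_lit 15,nat_lit 12],[nat_lit 3,nat_lit 15,nat_lit 13],[nat_lit 4,nat_lit 8],[nat_lit 4,nat_lit 9],
    [nat_lit 4,nat_lit 10],[nat_lit 4,nat_lit 11],[nat_lit 4,nat_lit 14,nat_lit 15],[nat_lit 4,nat_lit 15,nat_lit 15],
    [nat_lit 5,nat_lit 8],[nat_lit 5,nat_lit 9],[nat_lit 5,nat_lit 10],[nat_lit 5,nat_lit 11],[nat_lit 5,nat_lit 14,
    nat_lit 14],[nat_lit 5,nat_lit 14,nat_lit 15],[nat_lit 6,nat_lit 8,nat_lit 14],[nat_lit 6,nat_lit 8,nat_lit 15],
    [nat_lit 6,nat_lit 10,nat_lit 14],[nat_lit 6,nat_lit 11,nat_lit 14],[nat_lit 6,nat_lit 11,nat_lit 15],[nat_lit 6,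
    nat_lit 14,nat_lit 10],[nat_lit 6,nat_lit 15,nat_lit 10],[nat_lit 7,nat_lit 11,nat_lit 14],[nat_lit 7,nat_lit 11,
    nat_lit 15],[nat_lit 7,nat_lit 14,nat_lit 9],[nat_lit 7,nat_lit 14,nat_lit 10],[nat_lit 7,nat_lit 15,nat_lit 9],
    [nat_lit 7,nat_lit 15,nat_lit 10],[nat_lit 7,nat_lit 15,nat_lit 11],[nat_lit 8,nat_lit 8,nat_lit 12],[nat_lit 8,
    nat_lit 10,nat_lit 12],[nat_lit 8,nat_lit 11,nat_lit 12],[nat_lit 8,nat_lit 11,nat_lit 13],[nat_lit 8,nat_lit 12,
    nat_lit 8],[nat_lit 8,nat_lit 12,nat_lit 9],[nat_lit 8,nat_lit 12,nat_lit 10],[nat_lit 8,nat_lit 12,nat_lit 11],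
    [nat_lit 8,nat_lit 13,nat_lit 9],[nat_lit 8,nat_lit 15,nat_lit 12,nat_lit 14],[nat_lit 8,nat_lit 15,nat_lit 13,
    nat_lit 14],[nat_lit 8,nat_lit 15,nat_lit 13,nat_lit 15],[nat_lit 8,nat_lit 15,nat_lit 15,nat_lit 13],[nat_lit 9,
    nat_lit 9,nat_lit 13],[nat_lit 9,nat_lit 10,nat_lit 13],[nat_lit 9,nat_lit 11,nat_lit 13],[nat_lit 9,nat_lit 12,
    nat_lit 10],[nat_lit 9,nat_lit 12,nat_lit 14,nat_lit 14],[nat_lit 9,nat_lit 13,nat_lit 9],[nat_lit 9,nat_lit 13,
    nat_lit 10],[nat_lit 9,nat_lit 13,nat_lit 11],[nat_lit 9,nat_lit 14,nat_lit 12,nat_lit 14],[nat_lit 9,nat_lit 15,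
    nat_lit 12,nat_lit 14],[nat_lit 9,nat_lit 15,nat_lit 13,nat_lit 14],[nat_lit 10,nat_lit 10,nat_lit 12],
    [nat_lit 10,nat_lit 10,nat_lit 13],[nat_lit 10,nat_lit 11,nat_lit 12],[nat_lit 10,nat_lit 11,nat_lit 13],
    [nat_lit 10,nat_lit 12,nat_lit 10],[nat_lit 10,nat_lit 12,nat_lit 11],[nat_lit 10,nat_lit 13,nat_lit 10],
    [nat_lit 10,nat_lit 13,nat_lit 11],[nat_lit 11,nat_lit 11,nat_lit 12],[nat_lit 11,nat_lit 11,nat_lit 13],
    [nat_lit 11,nat_lit 12,nat_lit 11],[nat_lit 11,nat_lit 13,nat_lit 11]]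
    [nat_lit 0x1005,nat_lit 0x1009d,nat_lit 0x100bd,nat_lit 0x102c,nat_lit 0x102d,nat_lit 0x103c,nat_lit 0x103d,
    nat_lit 0x1050,nat_lit 0x105e,nat_lit 0x105f,nat_lit 0x1068,nat_lit 0x106b,nat_lit 0x1079,nat_lit 0x1097,
    nat_lit 0x109d0,nat_lit 0x109ec,nat_lit 0x10a7,nat_lit 0x10bd0,nat_lit 0x10d2,nat_lit 0x10d8f,nat_lit 0x10e5,
    nat_lit 0x10f4,nat_lit 0x10f5,nat_lit 0x1114,nat_lit 0x111c8,nat_lit 0x111ca,nat_lit 0x113c,nat_lit 0x1141,
    nat_lit 0x114e,nat_lit 0x114f,nat_lit 0x115e,nat_lit 0x1168,nat_lit 0x116b,nat_lit 0x1186,nat_lit 0x1197,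
    nat_lit 0x11a7,nat_lit 0x11c2,nat_lit 0x11c3,nat_lit 0x11c81,nat_lit 0x11ca1,nat_lit 0x11d2,nat_lit 0x11d3,
    nat_lit 0x11df8,nat_lit 0x11e4,nat_lit 0x11e9c,nat_lit 0x11f4,nat_lit 294,nat_lit 295,nat_lit 0x12ce,
    nat_lit 0x12cf,nat_lit 0x12de,nat_lit 0x12df,nat_lit 0x12ec,nat_lit 0x12ed,nat_lit 0x12fc,nat_lit 0x12fd,
    nat_lit 310,nat_lit 311,nat_lit 0x13ce,nat_lit 0x13cf,nat_lit 0x13de,nat_lit 0x13df,nat_lit 0x13ec,nat_lit 0x13ed,
    nat_lit 0x13fc,nat_lit 0x13fd,nat_lit 328,nat_lit 329,nat_lit 330,nat_lit 331,nat_lit 0x14ef,nat_lit 0x14ff,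
    nat_lit 344,nat_lit 345,nat_lit 346,nat_lit 347,nat_lit 0x15ee,nat_lit 0x15ef,nat_lit 0x168e,nat_lit 0x168f,
    nat_lit 0x16ae,nat_lit 0x16be,nat_lit 0x16bf,nat_lit 0x16ea,nat_lit 0x16fa,nat_lit 0x17be,nat_lit 0x17bf,
    nat_lit 0x17e9,nat_lit 0x17ea,nat_lit 0x17f9,nat_lit 0x17fa,nat_lit 0x17fb,nat_lit 0x188c,nat_lit 0x18ac,
    nat_lit 0x18bc,nat_lit 0x18bd,nat_lit 0x18c8,nat_lit 0x18c9,nat_lit 0x18ca,nat_lit 0x18cb,nat_lit 0x18d9,
    nat_lit 0x18fce,nat_lit 0x18fde,nat_lit 0x18fdf,nat_lit 0x18ffd,nat_lit 0x199d,nat_lit 0x19ad,nat_lit 0x19bd,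
    nat_lit 0x19ca,nat_lit 0x19cee,nat_lit 0x19d9,nat_lit 0x19da,nat_lit 0x19db,nat_lit 0x19ece,nat_lit 0x19fce,
    nat_lit 0x19fde,nat_lit 0x1aac,nat_lit 0x1aad,nat_lit 0x1abc,nat_lit 0x1abd,nat_lit 0x1aca,nat_lit 0x1acb,
    nat_lit 0x1ada,nat_lit 0x1adb,nat_lit 0x1bbc,nat_lit 0x1bbd,nat_lit 0x1bcb,nat_lit 0x1bdb]
    [[[nat_lit 0,nat_lit 0,nat_lit 5],[nat_lit 0,nat_lit 0,nat_lit 9,nat_lit 13],[nat_lit 0,nat_lit 0,nat_lit 11,
    nat_lit 13],[nat_lit 0,nat_lit 2,nat_lit 12],[nat_lit 0,nat_lit 2,nat_lit 13],[nat_lit 0,nat_lit 3,nat_lit 12],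
    [nat_lit 0,nat_lit 3,nat_lit 13],[nat_lit 0,nat_lit 5,nat_lit 0],[nat_lit 0,nat_lit 5,nat_lit 14],[nat_lit 0,
    nat_lit 5,nat_lit 15],[nat_lit 0,nat_lit 6,nat_lit 8],[nat_lit 0,nat_lit 6,nat_lit 11]],[[nat_lit 0,nat_lit 7,
    nat_lit 9],[nat_lit 0,nat_lit 9,nat_lit 7],[nat_lit 0,nat_lit 9,nat_lit 13,nat_lit 0],[nat_lit 0,nat_lit 9,
    nat_lit 14,nat_lit 12],[nat_lit 0,nat_lit 10,nat_lit 7],[nat_lit 0,nat_lit 11,nat_lit 13,nat_lit 0],[nat_lit 0,
    nat_lit 13,nat_lit 2],[nat_lit 0,nat_lit 13,nat_lit 8,nat_lit 15],[nat_lit 0,nat_lit 14,nat_lit 5],[nat_lit 0,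
    nat_lit 15,nat_lit 4],[nat_lit 0,nat_lit 15,nat_lit 5],[nat_lit 1,nat_lit 1,nat_lit 4]],[[nat_lit 1,nat_lit 1,
    nat_lit 12,nat_lit 8],[nat_lit 1,nat_lit 1,nat_lit 12,nat_lit 10],[nat_lit 1,nat_lit 3,nat_lit 12],[nat_lit 1,
    nat_lit 4,nat_lit 1],[nat_lit 1,nat_lit 4,nat_lit 14],[nat_lit 1,nat_lit 4,nat_lit 15],[nat_lit 1,nat_lit 5,
    nat_lit 14],[nat_lit 1,nat_lit 6,nat_lit 8],[nat_lit 1,nat_lit 6,nat_lit 11],[nat_lit 1,nat_lit 8,nat_lit 6],
    [nat_lit 1,nat_lit 9,nat_lit 7],[nat_lit 1,nat_lit 10,nat_lit 7]],[[nat_lit 1,nat_lit 12,nat_lit 2],[nat_lit 1,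
    nat_lit 12,nat_lit 3],[nat_lit 1,nat_lit 12,nat_lit 8,nat_lit 1],[nat_lit 1,nat_lit 12,nat_lit 10,nat_lit 1],
    [nat_lit 1,nat_lit 13,nat_lit 2],[nat_lit 1,nat_lit 13,nat_lit 3],[nat_lit 1,nat_lit 13,nat_lit 15,nat_lit 8],
    [nat_lit 1,nat_lit 14,nat_lit 4],[nat_lit 1,nat_lit 14,nat_lit 9,nat_lit 12],[nat_lit 1,nat_lit 15,nat_lit 4],
    [nat_lit 2,nat_lit 0,nat_lit 13],[nat_lit 2,nat_lit 1,nat_lit 12]],[[nat_lit 2,nat_lit 1,nat_lit 13],[nat_lit 2,
    nat_lit 6],[nat_lit 2,nat_lit 7],[nat_lit 2,nat_lit 12,nat_lit 0],[nat_lit 2,nat_lit 12,nat_lit 14],[nat_lit 2,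
    nat_lit 12,nat_lit 15],[nat_lit 2,nat_lit 13,nat_lit 0],[nat_lit 2,nat_lit 13,nat_lit 14],[nat_lit 2,nat_lit 13,
    nat_lit 15],[nat_lit 2,nat_lit 14,nat_lit 12],[nat_lit 2,nat_lit 14,nat_lit 13],[nat_lit 2,nat_lit 15,
    nat_lit 12]],[[nat_lit 2,nat_lit 15,nat_lit 13],[nat_lit 3,nat_lit 1,nat_lit 12],[nat_lit 3,nat_lit 1,nat_lit 13],
    [nat_lit 3,nat_lit 6],[nat_lit 3,nat_lit 7],[nat_lit 3,nat_lit 12,nat_lit 0],[nat_lit 3,nat_lit 12,nat_lit 1],
    [nat_lit 3,nat_lit 12,nat_lit 14],[nat_lit 3,nat_lit 12,nat_lit 15],[nat_lit 3,nat_lit 13,nat_lit 0],[nat_lit 3,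
    nat_lit 13,nat_lit 14],[nat_lit 3,nat_lit 13,nat_lit 15]],[[nat_lit 3,nat_lit 14,nat_lit 12],[nat_lit 3,
    nat_lit 14,nat_lit 13],[nat_lit 3,nat_lit 15,nat_lit 12],[nat_lit 3,nat_lit 15,nat_lit 13],[nat_lit 4,nat_lit 0,
    nat_lit 15],[nat_lit 4,nat_lit 1,nat_lit 1],[nat_lit 4,nat_lit 1,nat_lit 14],[nat_lit 4,nat_lit 1,nat_lit 15],
    [nat_lit 4,nat_lit 8],[nat_lit 4,nat_lit 9],[nat_lit 4,nat_lit 10],[nat_lit 4,nat_lit 11]],[[nat_lit 4,nat_lit 14,
    nat_lit 1],[nat_lit 4,nat_lit 14,nat_lit 15],[nat_lit 4,nat_lit 15,nat_lit 1],[nat_lit 4,nat_lit 15,nat_lit 15],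
    [nat_lit 5,nat_lit 0,nat_lit 0],[nat_lit 5,nat_lit 0,nat_lit 14],[nat_lit 5,nat_lit 0,nat_lit 15],[nat_lit 5,
    nat_lit 8],[nat_lit 5,nat_lit 9],[nat_lit 5,nat_lit 10],[nat_lit 5,nat_lit 11],[nat_lit 5,nat_lit 14,nat_lit 0]],
    [[nat_lit 5,nat_lit 14,nat_lit 1],[nat_lit 5,nat_lit 14,nat_lit 14],[nat_lit 5,nat_lit 14,nat_lit 15],[nat_lit 5,
    nat_lit 15,nat_lit 0],[nat_lit 6,nat_lit 1,nat_lit 8],[nat_lit 6,nat_lit 2],[nat_lit 6,nat_lit 3],[nat_lit 6,
    nat_lit 8,nat_lit 0],[nat_lit 6,nat_lit 8,nat_lit 1],[nat_lit 6,nat_lit 8,nat_lit 14],[nat_lit 6,nat_lit 8,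
    nat_lit 15],[nat_lit 6,nat_lit 10,nat_lit 14]],[[nat_lit 6,nat_lit 11,nat_lit 0],[nat_lit 6,nat_lit 11,nat_lit 1],
    [nat_lit 6,nat_lit 11,nat_lit 14],[nat_lit 6,nat_lit 11,nat_lit 15],[nat_lit 6,nat_lit 14,nat_lit 10],[nat_lit 6,
    nat_lit 15,nat_lit 10],[nat_lit 7,nat_lit 0,nat_lit 9],[nat_lit 7,nat_lit 0,nat_lit 10],[nat_lit 7,nat_lit 1,
    nat_lit 9],[nat_lit 7,nat_lit 1,nat_lit 10],[nat_lit 7,nat_lit 2],[nat_lit 7,nat_lit 3]],[[nat_lit 7,nat_lit 9,
    nat_lit 0],[nat_lit 7,nat_lit 11,nat_lit 14],[nat_lit 7,nat_lit 11,nat_lit 15],[nat_lit 7,nat_lit 14,nat_lit 9],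
    [nat_lit 7,nat_lit 14,nat_lit 10],[nat_lit 7,nat_lit 15,nat_lit 9],[nat_lit 7,nat_lit 15,nat_lit 10],[nat_lit 7,
    nat_lit 15,nat_lit 11],[nat_lit 8,nat_lit 0,nat_lit 6],[nat_lit 8,nat_lit 1,nat_lit 1,nat_lit 12],[nat_lit 8,
    nat_lit 1,nat_lit 6],[nat_lit 8,nat_lit 1,nat_lit 13,nat_lit 15]],[[nat_lit 8,nat_lit 4],[nat_lit 8,nat_lit 5],
    [nat_lit 8,nat_lit 6,nat_lit 1],[nat_lit 8,nat_lit 8,nat_lit 12],[nat_lit 8,nat_lit 10,nat_lit 12],[nat_lit 8,
    nat_lit 11,nat_lit 12],[nat_lit 8,nat_lit 11,nat_lit 13],[nat_lit 8,nat_lit 12,nat_lit 8],[nat_lit 8,nat_lit 12,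
    nat_lit 9],[nat_lit 8,nat_lit 12,nat_lit 10],[nat_lit 8,nat_lit 12,nat_lit 11],[nat_lit 8,nat_lit 13,nat_lit 9]],
    [[nat_lit 8,nat_lit 14,nat_lit 6],[nat_lit 8,nat_lit 15,nat_lit 0,nat_lit 13],[nat_lit 8,nat_lit 15,nat_lit 6],
    [nat_lit 8,nat_lit 15,nat_lit 12,nat_lit 14],[nat_lit 8,nat_lit 15,nat_lit 13,nat_lit 14],[nat_lit 8,nat_lit 15,
    nat_lit 13,nat_lit 15],[nat_lit 8,nat_lit 15,nat_lit 15,nat_lit 13],[nat_lit 9,nat_lit 0,nat_lit 7],[nat_lit 9,
    nat_lit 4],[nat_lit 9,nat_lit 5],[nat_lit 9,nat_lit 7,nat_lit 0],[nat_lit 9,nat_lit 7,nat_lit 1]],[[nat_lit 9,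
    nat_lit 7,nat_lit 14],[nat_lit 9,nat_lit 7,nat_lit 15],[nat_lit 9,nat_lit 8,nat_lit 12],[nat_lit 9,nat_lit 8,
    nat_lit 13],[nat_lit 9,nat_lit 9,nat_lit 13],[nat_lit 9,nat_lit 10,nat_lit 13],[nat_lit 9,nat_lit 11,nat_lit 13],
    [nat_lit 9,nat_lit 12,nat_lit 1,nat_lit 14],[nat_lit 9,nat_lit 12,nat_lit 10],[nat_lit 9,nat_lit 12,nat_lit 14,
    nat_lit 14],[nat_lit 9,nat_lit 13,nat_lit 0,nat_lit 0],[nat_lit 9,nat_lit 13,nat_lit 9]],[[nat_lit 9,nat_lit 13,
    nat_lit 10],[nat_lit 9,nat_lit 13,nat_lit 11],[nat_lit 9,nat_lit 14,nat_lit 12,nat_lit 0],[nat_lit 9,nat_lit 14,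
    nat_lit 12,nat_lit 14],[nat_lit 9,nat_lit 15,nat_lit 12,nat_lit 14],[nat_lit 9,nat_lit 15,nat_lit 13,nat_lit 14],
    [nat_lit 10,nat_lit 1,nat_lit 1,nat_lit 12],[nat_lit 10,nat_lit 4],[nat_lit 10,nat_lit 5],[nat_lit 10,nat_lit 6,
    nat_lit 14],[nat_lit 10,nat_lit 6,nat_lit 15],[nat_lit 10,nat_lit 7,nat_lit 0]],[[nat_lit 10,nat_lit 7,nat_lit 1],
    [nat_lit 10,nat_lit 7,nat_lit 14],[nat_lit 10,nat_lit 7,nat_lit 15],[nat_lit 10,nat_lit 8,nat_lit 12],[nat_lit 10,
    nat_lit 9,nat_lit 12],[nat_lit 10,nat_lit 9,nat_lit 13],[nat_lit 10,nat_lit 10,nat_lit 12],[nat_lit 10,nat_lit 10,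
    nat_lit 13],[nat_lit 10,nat_lit 11,nat_lit 12],[nat_lit 10,nat_lit 11,nat_lit 13],[nat_lit 10,nat_lit 12,
    nat_lit 8],[nat_lit 10,nat_lit 12,nat_lit 10]],[[nat_lit 10,nat_lit 12,nat_lit 11],[nat_lit 10,nat_lit 13,
    nat_lit 9],[nat_lit 10,nat_lit 13,nat_lit 10],[nat_lit 10,nat_lit 13,nat_lit 11],[nat_lit 10,nat_lit 14,
    nat_lit 6],[nat_lit 11,nat_lit 0,nat_lit 6],[nat_lit 11,nat_lit 1,nat_lit 6],[nat_lit 11,nat_lit 4],[nat_lit 11,
    nat_lit 5],[nat_lit 11,nat_lit 7,nat_lit 15],[nat_lit 11,nat_lit 8,nat_lit 12],[nat_lit 11,nat_lit 9,nat_lit 13]],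
    [[nat_lit 11,nat_lit 10,nat_lit 12],[nat_lit 11,nat_lit 10,nat_lit 13],[nat_lit 11,nat_lit 11,nat_lit 12],
    [nat_lit 11,nat_lit 11,nat_lit 13],[nat_lit 11,nat_lit 12,nat_lit 8],[nat_lit 11,nat_lit 12,nat_lit 10],
    [nat_lit 11,nat_lit 12,nat_lit 11],[nat_lit 11,nat_lit 13,nat_lit 0,nat_lit 0],[nat_lit 11,nat_lit 13,nat_lit 8],
    [nat_lit 11,nat_lit 13,nat_lit 9],[nat_lit 11,nat_lit 13,nat_lit 10],[nat_lit 11,nat_lit 13,nat_lit 11]],
    [[nat_lit 11,nat_lit 14,nat_lit 6],[nat_lit 11,nat_lit 14,nat_lit 7],[nat_lit 11,nat_lit 15,nat_lit 6],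
    [nat_lit 11,nat_lit 15,nat_lit 7],[nat_lit 12,nat_lit 0,nat_lit 2],[nat_lit 12,nat_lit 0,nat_lit 3],[nat_lit 12,
    nat_lit 0,nat_lit 9,nat_lit 14],[nat_lit 12,nat_lit 1,nat_lit 3],[nat_lit 12,nat_lit 1,nat_lit 14,nat_lit 9],
    [nat_lit 12,nat_lit 2,nat_lit 1],[nat_lit 12,nat_lit 2,nat_lit 14],[nat_lit 12,nat_lit 2,nat_lit 15]],
    [[nat_lit 12,nat_lit 3,nat_lit 1],[nat_lit 12,nat_lit 3,nat_lit 14],[nat_lit 12,nat_lit 3,nat_lit 15],[nat_lit 12,
    nat_lit 8,nat_lit 1,nat_lit 1],[nat_lit 12,nat_lit 8,nat_lit 8],[nat_lit 12,nat_lit 8,nat_lit 10],[nat_lit 12,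
    nat_lit 8,nat_lit 11],[nat_lit 12,nat_lit 9,nat_lit 8],[nat_lit 12,nat_lit 10,nat_lit 1,nat_lit 1],[nat_lit 12,
    nat_lit 10,nat_lit 8],[nat_lit 12,nat_lit 10,nat_lit 9],[nat_lit 12,nat_lit 10,nat_lit 10]],[[nat_lit 12,
    nat_lit 10,nat_lit 11],[nat_lit 12,nat_lit 11,nat_lit 8],[nat_lit 12,nat_lit 11,nat_lit 10],[nat_lit 12,
    nat_lit 11,nat_lit 11],[nat_lit 12,nat_lit 14,nat_lit 2],[nat_lit 12,nat_lit 14,nat_lit 3],[nat_lit 12,nat_lit 14,
    nat_lit 8,nat_lit 15],[nat_lit 12,nat_lit 14,nat_lit 9,nat_lit 14],[nat_lit 12,nat_lit 14,nat_lit 9,nat_lit 15],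
    [nat_lit 12,nat_lit 14,nat_lit 14,nat_lit 9],[nat_lit 12,nat_lit 15,nat_lit 2],[nat_lit 12,nat_lit 15,nat_lit 3]],
    [[nat_lit 13,nat_lit 0,nat_lit 0,nat_lit 9],[nat_lit 13,nat_lit 0,nat_lit 0,nat_lit 11],[nat_lit 13,nat_lit 0,
    nat_lit 2],[nat_lit 13,nat_lit 0,nat_lit 3],[nat_lit 13,nat_lit 2,nat_lit 0],[nat_lit 13,nat_lit 2,nat_lit 1],
    [nat_lit 13,nat_lit 2,nat_lit 14],[nat_lit 13,nat_lit 2,nat_lit 15],[nat_lit 13,nat_lit 3,nat_lit 1],[nat_lit 13,
    nat_lit 3,nat_lit 14],[nat_lit 13,nat_lit 3,nat_lit 15],[nat_lit 13,nat_lit 8,nat_lit 11]],[[nat_lit 13,nat_lit 8,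
    nat_lit 15,nat_lit 0],[nat_lit 13,nat_lit 8,nat_lit 15,nat_lit 15],[nat_lit 13,nat_lit 9,nat_lit 8],[nat_lit 13,
    nat_lit 9,nat_lit 9],[nat_lit 13,nat_lit 9,nat_lit 10],[nat_lit 13,nat_lit 9,nat_lit 11],[nat_lit 13,nat_lit 10,
    nat_lit 9],[nat_lit 13,nat_lit 10,nat_lit 10],[nat_lit 13,nat_lit 10,nat_lit 11],[nat_lit 13,nat_lit 11,
    nat_lit 9],[nat_lit 13,nat_lit 11,nat_lit 10],[nat_lit 13,nat_lit 11,nat_lit 11]],[[nat_lit 13,nat_lit 14,
    nat_lit 2],[nat_lit 13,nat_lit 14,nat_lit 3],[nat_lit 13,nat_lit 14,nat_lit 8,nat_lit 15],[nat_lit 13,nat_lit 14,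
    nat_lit 9,nat_lit 15],[nat_lit 13,nat_lit 15,nat_lit 2],[nat_lit 13,nat_lit 15,nat_lit 3],[nat_lit 13,nat_lit 15,
    nat_lit 8,nat_lit 1],[nat_lit 13,nat_lit 15,nat_lit 8,nat_lit 15],[nat_lit 14,nat_lit 0,nat_lit 5],[nat_lit 14,
    nat_lit 1,nat_lit 4],[nat_lit 14,nat_lit 1,nat_lit 5],[nat_lit 14,nat_lit 2,nat_lit 12]],[[nat_lit 14,nat_lit 2,
    nat_lit 13],[nat_lit 14,nat_lit 3,nat_lit 12],[nat_lit 14,nat_lit 3,nat_lit 13],[nat_lit 14,nat_lit 4,nat_lit 1],
    [nat_lit 14,nat_lit 5,nat_lit 0],[nat_lit 14,nat_lit 5,nat_lit 14],[nat_lit 14,nat_lit 6,nat_lit 8],[nat_lit 14,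
    nat_lit 6,nat_lit 10],[nat_lit 14,nat_lit 6,nat_lit 11],[nat_lit 14,nat_lit 7,nat_lit 11],[nat_lit 14,nat_lit 8,
    nat_lit 15,nat_lit 12],[nat_lit 14,nat_lit 8,nat_lit 15,nat_lit 13]],[[nat_lit 14,nat_lit 9,nat_lit 7],
    [nat_lit 14,nat_lit 9,nat_lit 12,nat_lit 1],[nat_lit 14,nat_lit 9,nat_lit 12,nat_lit 14],[nat_lit 14,nat_lit 9,
    nat_lit 14,nat_lit 12],[nat_lit 14,nat_lit 9,nat_lit 15,nat_lit 12],[nat_lit 14,nat_lit 9,nat_lit 15,nat_lit 13],
    [nat_lit 14,nat_lit 10,nat_lit 6],[nat_lit 14,nat_lit 10,nat_lit 7],[nat_lit 14,nat_lit 12,nat_lit 0,nat_lit 9],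
    [nat_lit 14,nat_lit 12,nat_lit 2],[nat_lit 14,nat_lit 12,nat_lit 3],[nat_lit 14,nat_lit 12,nat_lit 14,nat_lit 9]],
    [[nat_lit 14,nat_lit 13,nat_lit 2],[nat_lit 14,nat_lit 13,nat_lit 3],[nat_lit 14,nat_lit 14,nat_lit 5],
    [nat_lit 14,nat_lit 14,nat_lit 9,nat_lit 12],[nat_lit 14,nat_lit 15,nat_lit 4],[nat_lit 14,nat_lit 15,nat_lit 5],
    [nat_lit 15,nat_lit 0,nat_lit 5],[nat_lit 15,nat_lit 0,nat_lit 13,nat_lit 8],[nat_lit 15,nat_lit 1,nat_lit 4],
    [nat_lit 15,nat_lit 2,nat_lit 12],[nat_lit 15,nat_lit 2,nat_lit 13],[nat_lit 15,nat_lit 3,nat_lit 12]],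
    [[nat_lit 15,nat_lit 3,nat_lit 13],[nat_lit 15,nat_lit 4,nat_lit 0],[nat_lit 15,nat_lit 4,nat_lit 1],[nat_lit 15,
    nat_lit 4,nat_lit 14],[nat_lit 15,nat_lit 4,nat_lit 15],[nat_lit 15,nat_lit 5,nat_lit 0],[nat_lit 15,nat_lit 5,
    nat_lit 14],[nat_lit 15,nat_lit 6,nat_lit 8],[nat_lit 15,nat_lit 6,nat_lit 11],[nat_lit 15,nat_lit 7,nat_lit 11],
    [nat_lit 15,nat_lit 8,nat_lit 1,nat_lit 13],[nat_lit 15,nat_lit 8,nat_lit 15,nat_lit 13]],[[nat_lit 15,nat_lit 9,
    nat_lit 7],[nat_lit 15,nat_lit 10,nat_lit 6],[nat_lit 15,nat_lit 10,nat_lit 7],[nat_lit 15,nat_lit 11,nat_lit 7],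
    [nat_lit 15,nat_lit 12,nat_lit 2],[nat_lit 15,nat_lit 12,nat_lit 3],[nat_lit 15,nat_lit 12,nat_lit 14,nat_lit 8],
    [nat_lit 15,nat_lit 12,nat_lit 14,nat_lit 9],[nat_lit 15,nat_lit 13,nat_lit 2],[nat_lit 15,nat_lit 13,nat_lit 3],
    [nat_lit 15,nat_lit 13,nat_lit 8,nat_lit 15],[nat_lit 15,nat_lit 13,nat_lit 14,nat_lit 8]],[[nat_lit 15,
    nat_lit 13,nat_lit 14,nat_lit 9],[nat_lit 15,nat_lit 13,nat_lit 15,nat_lit 8],[nat_lit 15,nat_lit 15,nat_lit 4],
    [nat_lit 15,nat_lit 15,nat_lit 13,nat_lit 8]]]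
    [[nat_lit 7,nat_lit 14,nat_lit 17,nat_lit 51,nat_lit 54,nat_lit 65,nat_lit 69,nat_lit 88,nat_lit 95,nat_lit 99,
    nat_lit 103,nat_lit 108],[nat_lit 120,nat_lit 154,nat_lit 166,nat_lit 170,nat_lit 179,nat_lit 211,nat_lit 256,
    nat_lit 264,nat_lit 292,nat_lit 325,nat_lit 329,nat_lit 27],[nat_lit 38,nat_lit 39,nat_lit 66,nat_lit 77,
    nat_lit 84,nat_lit 86,nat_lit 96,nat_lit 104,nat_lit 109,nat_lit 134,nat_lit 155,nat_lit 180],[nat_lit 225,
    nat_lit 228,nat_lit 231,nat_lit 236,nat_lit 257,nat_lit 260,nat_lit 282,nat_lit 291,nat_lit 301,nat_lit 326,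
    nat_lit 18,nat_lit 36],[nat_lit 40,nat_lit 101,nat_lit 118,nat_lit 220,nat_lit 244,nat_lit 250,nat_lit 254,
    nat_lit 276,nat_lit 280,nat_lit 309,nat_lit 312,nat_lit 340],[nat_lit 344,nat_lit 37,nat_lit 41,nat_lit 102,
    nat_lit 119,nat_lit 221,nat_lit 223,nat_lit 245,nat_lit 251,nat_lit 255,nat_lit 277,nat_lit 281],[nat_lit 310,
    nat_lit 313,nat_lit 341,nat_lit 345,nat_lit 21,nat_lit 23,nat_lit 43,nat_lit 45,nat_lit 132,nat_lit 152,
    nat_lit 175,nat_lit 199],[nat_lit 285,nat_lit 316,nat_lit 320,nat_lit 350,nat_lit 0,nat_lit 20,nat_lit 22,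
    nat_lit 133,nat_lit 153,nat_lit 176,nat_lit 200,nat_lit 284],[nat_lit 286,nat_lit 314,nat_lit 317,nat_lit 318,
    nat_lit 33,nat_lit 49,nat_lit 63,nat_lit 128,nat_lit 130,nat_lit 144,nat_lit 146,nat_lit 196],[nat_lit 197,
    nat_lit 198,nat_lit 216,nat_lit 218,nat_lit 306,nat_lit 337,nat_lit 13,nat_lit 16,nat_lit 34,nat_lit 35,
    nat_lit 50,nat_lit 64],[nat_lit 151,nat_lit 217,nat_lit 219,nat_lit 300,nat_lit 307,nat_lit 336,nat_lit 338,
    nat_lit 339,nat_lit 10,nat_lit 24,nat_lit 31,nat_lit 42],[nat_lit 80,nat_lit 91,nat_lit 100,nat_lit 139,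
    nat_lit 190,nat_lit 208,nat_lit 212,nat_lit 232,nat_lit 235,nat_lit 237,nat_lit 241,nat_lit 266],[nat_lit 294,
    nat_lit 319,nat_lit 331,nat_lit 342,nat_lit 347,nat_lit 349,nat_lit 351,nat_lit 12,nat_lit 81,nat_lit 92,
    nat_lit 114,nat_lit 116],[nat_lit 123,nat_lit 125,nat_lit 140,nat_lit 143,nat_lit 167,nat_lit 193,nat_lit 213,
    nat_lit 224,nat_lit 238,nat_lit 249,nat_lit 252,nat_lit 267],[nat_lit 270,nat_lit 273,nat_lit 308,nat_lit 311,
    nat_lit 343,nat_lit 348,nat_lit 25,nat_lit 82,nat_lit 93,nat_lit 112,nat_lit 113,nat_lit 115],[nat_lit 117,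
    nat_lit 124,nat_lit 126,nat_lit 141,nat_lit 164,nat_lit 168,nat_lit 191,nat_lit 194,nat_lit 209,nat_lit 214,
    nat_lit 233,nat_lit 239],[nat_lit 242,nat_lit 268,nat_lit 271,nat_lit 274,nat_lit 295,nat_lit 11,nat_lit 32,
    nat_lit 83,nat_lit 94,nat_lit 127,nat_lit 142,nat_lit 169],[nat_lit 192,nat_lit 195,nat_lit 210,nat_lit 215,
    nat_lit 234,nat_lit 240,nat_lit 243,nat_lit 253,nat_lit 263,nat_lit 269,nat_lit 272,nat_lit 275],[nat_lit 296,
    nat_lit 297,nat_lit 332,nat_lit 333,nat_lit 3,nat_lit 5,nat_lit 15,nat_lit 26,nat_lit 44,nat_lit 47,nat_lit 57,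
    nat_lit 59],[nat_lit 61,nat_lit 72,nat_lit 74,nat_lit 129,nat_lit 135,nat_lit 136,nat_lit 137,nat_lit 158,
    nat_lit 174,nat_lit 183,nat_lit 184,nat_lit 186],[nat_lit 188,nat_lit 202,nat_lit 204,nat_lit 206,nat_lit 287,
    nat_lit 289,nat_lit 298,nat_lit 303,nat_lit 304,nat_lit 315,nat_lit 321,nat_lit 323],[nat_lit 1,nat_lit 2,
    nat_lit 4,nat_lit 6,nat_lit 46,nat_lit 48,nat_lit 58,nat_lit 60,nat_lit 62,nat_lit 73,nat_lit 75,nat_lit 138],
    [nat_lit 145,nat_lit 150,nat_lit 159,nat_lit 160,nat_lit 161,nat_lit 162,nat_lit 185,nat_lit 187,nat_lit 189,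
    nat_lit 203,nat_lit 205,nat_lit 207],[nat_lit 288,nat_lit 290,nat_lit 299,nat_lit 305,nat_lit 322,nat_lit 324,
    nat_lit 334,nat_lit 335,nat_lit 8,nat_lit 28,nat_lit 30,nat_lit 52],[nat_lit 55,nat_lit 67,nat_lit 70,nat_lit 78,
    nat_lit 89,nat_lit 97,nat_lit 105,nat_lit 107,nat_lit 110,nat_lit 121,nat_lit 147,nat_lit 148],[nat_lit 156,
    nat_lit 163,nat_lit 165,nat_lit 171,nat_lit 172,nat_lit 173,nat_lit 177,nat_lit 181,nat_lit 222,nat_lit 226,
    nat_lit 229,nat_lit 247],[nat_lit 258,nat_lit 261,nat_lit 293,nat_lit 302,nat_lit 327,nat_lit 330,nat_lit 9,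
    nat_lit 19,nat_lit 29,nat_lit 53,nat_lit 56,nat_lit 68],[nat_lit 71,nat_lit 76,nat_lit 79,nat_lit 85,nat_lit 87,
    nat_lit 90,nat_lit 98,nat_lit 106,nat_lit 111,nat_lit 122,nat_lit 131,nat_lit 149],[nat_lit 157,nat_lit 178,
    nat_lit 182,nat_lit 201,nat_lit 227,nat_lit 230,nat_lit 246,nat_lit 248,nat_lit 259,nat_lit 262,nat_lit 265,
    nat_lit 278],[nat_lit 279,nat_lit 283,nat_lit 328,nat_lit 346]]
    [[nat_lit 88,nat_lit 252,nat_lit 253,nat_lit 220,nat_lit 254,nat_lit 221,nat_lit 255,nat_lit 0,nat_lit 284,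
    nat_lit 318,nat_lit 128,nat_lit 197],[nat_lit 151,nat_lit 114,nat_lit 1,nat_lit 222,nat_lit 115,nat_lit 2,
    nat_lit 46,nat_lit 319,nat_lit 89,nat_lit 76,nat_lit 90,nat_lit 77],[nat_lit 129,nat_lit 174,nat_lit 223,
    nat_lit 23,nat_lit 285,nat_lit 320,nat_lit 286,nat_lit 130,nat_lit 198,nat_lit 100,nat_lit 116,nat_lit 117],
    [nat_lit 47,nat_lit 61,nat_lit 24,nat_lit 25,nat_lit 48,nat_lit 62,nat_lit 131,nat_lit 78,nat_lit 224,nat_lit 79,
    nat_lit 256,nat_lit 225],[nat_lit 257,nat_lit 101,nat_lit 118,nat_lit 3,nat_lit 287,nat_lit 321,nat_lit 4,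
    nat_lit 288,nat_lit 322,nat_lit 226,nat_lit 258,nat_lit 227],[nat_lit 259,nat_lit 228,nat_lit 260,nat_lit 102,
    nat_lit 119,nat_lit 5,nat_lit 26,nat_lit 289,nat_lit 323,nat_lit 6,nat_lit 290,nat_lit 324],[nat_lit 229,
    nat_lit 261,nat_lit 230,nat_lit 262,nat_lit 325,nat_lit 27,nat_lit 291,nat_lit 326,nat_lit 132,nat_lit 152,
    nat_lit 175,nat_lit 199],[nat_lit 28,nat_lit 327,nat_lit 29,nat_lit 328,nat_lit 7,nat_lit 292,nat_lit 329,
    nat_lit 133,nat_lit 153,nat_lit 176,nat_lit 200,nat_lit 8],[nat_lit 30,nat_lit 293,nat_lit 330,nat_lit 9,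
    nat_lit 134,nat_lit 49,nat_lit 63,nat_lit 10,nat_lit 31,nat_lit 294,nat_lit 331,nat_lit 295],[nat_lit 11,
    nat_lit 32,nat_lit 296,nat_lit 332,nat_lit 177,nat_lit 178,nat_lit 154,nat_lit 179,nat_lit 155,nat_lit 180,
    nat_lit 50,nat_lit 64],[nat_lit 12,nat_lit 297,nat_lit 333,nat_lit 156,nat_lit 181,nat_lit 157,nat_lit 182,
    nat_lit 201,nat_lit 103,nat_lit 231,nat_lit 104,nat_lit 334],[nat_lit 80,nat_lit 91,nat_lit 33,nat_lit 232,
    nat_lit 233,nat_lit 234,nat_lit 263,nat_lit 135,nat_lit 158,nat_lit 183,nat_lit 202,nat_lit 159],[nat_lit 105,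
    nat_lit 264,nat_lit 106,nat_lit 298,nat_lit 299,nat_lit 335,nat_lit 265,nat_lit 120,nat_lit 81,nat_lit 92,
    nat_lit 13,nat_lit 34],[nat_lit 300,nat_lit 336,nat_lit 235,nat_lit 266,nat_lit 267,nat_lit 268,nat_lit 269,
    nat_lit 301,nat_lit 184,nat_lit 302,nat_lit 14,nat_lit 160],[nat_lit 185,nat_lit 203,nat_lit 15,nat_lit 303,
    nat_lit 304,nat_lit 305,nat_lit 236,nat_lit 82,nat_lit 93,nat_lit 306,nat_lit 337,nat_lit 16],[nat_lit 35,
    nat_lit 307,nat_lit 338,nat_lit 237,nat_lit 238,nat_lit 270,nat_lit 239,nat_lit 271,nat_lit 240,nat_lit 272,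
    nat_lit 136,nat_lit 186],[nat_lit 204,nat_lit 161,nat_lit 187,nat_lit 205,nat_lit 107,nat_lit 108,nat_lit 109,
    nat_lit 83,nat_lit 94,nat_lit 339,nat_lit 241,nat_lit 273],[nat_lit 242,nat_lit 274,nat_lit 243,nat_lit 275,
    nat_lit 137,nat_lit 188,nat_lit 206,nat_lit 17,nat_lit 138,nat_lit 162,nat_lit 189,nat_lit 207],[nat_lit 110,
    nat_lit 121,nat_lit 111,nat_lit 122,nat_lit 51,nat_lit 65,nat_lit 308,nat_lit 66,nat_lit 163,nat_lit 36,
    nat_lit 309,nat_lit 340],[nat_lit 37,nat_lit 310,nat_lit 341,nat_lit 38,nat_lit 139,nat_lit 190,nat_lit 208,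
    nat_lit 140,nat_lit 39,nat_lit 141,nat_lit 164,nat_lit 191],[nat_lit 209,nat_lit 142,nat_lit 192,nat_lit 210,
    nat_lit 52,nat_lit 67,nat_lit 342,nat_lit 311,nat_lit 343,nat_lit 165,nat_lit 53,nat_lit 68],[nat_lit 166,
    nat_lit 211,nat_lit 54,nat_lit 69,nat_lit 18,nat_lit 40,nat_lit 312,nat_lit 344,nat_lit 41,nat_lit 313,
    nat_lit 345,nat_lit 212],[nat_lit 19,nat_lit 346,nat_lit 143,nat_lit 167,nat_lit 193,nat_lit 213,nat_lit 168,
    nat_lit 194,nat_lit 214,nat_lit 169,nat_lit 195,nat_lit 215],[nat_lit 55,nat_lit 70,nat_lit 347,nat_lit 348,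
    nat_lit 56,nat_lit 71,nat_lit 42,nat_lit 349,nat_lit 95,nat_lit 84,nat_lit 96,nat_lit 244],[nat_lit 276,
    nat_lit 245,nat_lit 277,nat_lit 43,nat_lit 20,nat_lit 314,nat_lit 144,nat_lit 196,nat_lit 216,nat_lit 217,
    nat_lit 246,nat_lit 278],[nat_lit 123,nat_lit 44,nat_lit 315,nat_lit 247,nat_lit 248,nat_lit 279,nat_lit 112,
    nat_lit 124,nat_lit 170,nat_lit 57,nat_lit 72,nat_lit 171],[nat_lit 58,nat_lit 73,nat_lit 97,nat_lit 249,
    nat_lit 85,nat_lit 98,nat_lit 99,nat_lit 145,nat_lit 86,nat_lit 250,nat_lit 280,nat_lit 251],[nat_lit 281,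
    nat_lit 21,nat_lit 45,nat_lit 316,nat_lit 350,nat_lit 22,nat_lit 317,nat_lit 146,nat_lit 218,nat_lit 219,
    nat_lit 282,nat_lit 283],[nat_lit 125,nat_lit 113,nat_lit 126,nat_lit 127,nat_lit 59,nat_lit 74,nat_lit 147,
    nat_lit 172,nat_lit 60,nat_lit 75,nat_lit 351,nat_lit 148],[nat_lit 173,nat_lit 149,nat_lit 87,nat_lit 150]]
    [[[nat_lit 309,nat_lit 312],[nat_lit 309,nat_lit 312],[nat_lit 309,nat_lit 312],[nat_lit 285,nat_lit 316],
    [nat_lit 285,nat_lit 316],[nat_lit 291,nat_lit 301],[nat_lit 291,nat_lit 301],[nat_lit 310,nat_lit 313],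
    [nat_lit 310,nat_lit 313],[nat_lit 310,nat_lit 313],[nat_lit 294],[nat_lit 294]],[[nat_lit 284,nat_lit 286,
    nat_lit 314,nat_lit 317],[nat_lit 300,nat_lit 307],[nat_lit 300,nat_lit 307],[nat_lit 300,nat_lit 307],
    [nat_lit 287,nat_lit 289,nat_lit 298,nat_lit 303,nat_lit 304,nat_lit 315],[nat_lit 308,nat_lit 311],[nat_lit 296,
    nat_lit 297],[nat_lit 296,nat_lit 297],[nat_lit 292],[nat_lit 288,nat_lit 290,nat_lit 299,nat_lit 305],
    [nat_lit 288,nat_lit 290,nat_lit 299,nat_lit 305],[nat_lit 68,nat_lit 71]],[[nat_lit 68,nat_lit 71],[nat_lit 68,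
    nat_lit 71],[nat_lit 66],[nat_lit 63],[nat_lit 63],[nat_lit 63],[],[],[],[],[nat_lit 64],[nat_lit 61,nat_lit 72,
    nat_lit 74]],[[nat_lit 67,nat_lit 70],[nat_lit 67,nat_lit 70],[nat_lit 67,nat_lit 70],[nat_lit 67,nat_lit 70],[],
    [],[],[nat_lit 65,nat_lit 69],[nat_lit 65,nat_lit 69],[nat_lit 62,nat_lit 73,nat_lit 75],[nat_lit 18],[nat_lit 9,
    nat_lit 19]],[[nat_lit 9,nat_lit 19],[nat_lit 10],[nat_lit 0,nat_lit 20,nat_lit 22],[nat_lit 8],[nat_lit 8],
    [nat_lit 8],[nat_lit 11],[nat_lit 11],[nat_lit 11],[nat_lit 7,nat_lit 14,nat_lit 17],[nat_lit 7,nat_lit 14,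
    nat_lit 17],[nat_lit 1,nat_lit 2,nat_lit 4,nat_lit 6]],[[nat_lit 1,nat_lit 2,nat_lit 4,nat_lit 6],[nat_lit 90,
    nat_lit 98],[nat_lit 90,nat_lit 98],[nat_lit 91],[],[nat_lit 89,nat_lit 97],[nat_lit 89,nat_lit 97],[nat_lit 89,
    nat_lit 97],[nat_lit 89,nat_lit 97],[nat_lit 94],[nat_lit 94],[nat_lit 94]],[[nat_lit 88,nat_lit 95,nat_lit 99],
    [nat_lit 88,nat_lit 95,nat_lit 99],[],[],[],[nat_lit 53,nat_lit 56],[nat_lit 53,nat_lit 56],[nat_lit 53,
    nat_lit 56],[],[nat_lit 50],[nat_lit 47,nat_lit 57,nat_lit 59],[]],[[nat_lit 51,nat_lit 54],[nat_lit 51,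
    nat_lit 54],[nat_lit 46,nat_lit 48,nat_lit 58,nat_lit 60],[nat_lit 46,nat_lit 48,nat_lit 58,nat_lit 60],
    [nat_lit 118],[nat_lit 118],[nat_lit 118],[nat_lit 115,nat_lit 117,nat_lit 124,nat_lit 126],[],[],[nat_lit 114,
    nat_lit 116,nat_lit 123,nat_lit 125],[nat_lit 120]],[[nat_lit 120],[nat_lit 120],[nat_lit 120],[],[nat_lit 76,
    nat_lit 79,nat_lit 85,nat_lit 87],[],[nat_lit 77,nat_lit 84,nat_lit 86],[nat_lit 82],[nat_lit 82],[nat_lit 82],
    [nat_lit 82],[]],[[nat_lit 81],[nat_lit 81],[nat_lit 81],[nat_lit 81],[],[],[],[],[nat_lit 157],[nat_lit 157],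
    [nat_lit 152],[nat_lit 155]],[[nat_lit 151],[nat_lit 167],[nat_lit 167],[nat_lit 154,nat_lit 166,nat_lit 170],
    [nat_lit 154,nat_lit 166,nat_lit 170],[nat_lit 159,nat_lit 160,nat_lit 161,nat_lit 162],[nat_lit 159,nat_lit 160,
    nat_lit 161,nat_lit 162],[nat_lit 159,nat_lit 160,nat_lit 161,nat_lit 162],[nat_lit 101],[nat_lit 106,
    nat_lit 111],[nat_lit 106,nat_lit 111],[nat_lit 106,nat_lit 111]],[[],[nat_lit 102],[nat_lit 100],[nat_lit 112,
    nat_lit 113],[],[],[],[nat_lit 105,nat_lit 107,nat_lit 110],[nat_lit 105,nat_lit 107,nat_lit 110],[nat_lit 105,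
    nat_lit 107,nat_lit 110],[nat_lit 105,nat_lit 107,nat_lit 110],[]],[[nat_lit 103,nat_lit 108],[],[],[],[],[],[],
    [],[nat_lit 197,nat_lit 198,nat_lit 216,nat_lit 218],[],[nat_lit 200],[nat_lit 200]],[[nat_lit 200],[nat_lit 200],
    [nat_lit 209,nat_lit 214],[nat_lit 209,nat_lit 214],[nat_lit 217,nat_lit 219],[nat_lit 202,nat_lit 204,
    nat_lit 206],[nat_lit 213],[],[],[],[nat_lit 210,nat_lit 215],[nat_lit 210,nat_lit 215]],[[nat_lit 210,
    nat_lit 215],[nat_lit 210,nat_lit 215],[nat_lit 211],[nat_lit 211],[nat_lit 203,nat_lit 205,nat_lit 207],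
    [nat_lit 203,nat_lit 205,nat_lit 207],[nat_lit 131,nat_lit 149],[nat_lit 128,nat_lit 130,nat_lit 144,nat_lit 146],
    [],[nat_lit 139],[nat_lit 139],[nat_lit 133]],[[nat_lit 133],[nat_lit 133],[nat_lit 133],[nat_lit 141],[],[],
    [nat_lit 129,nat_lit 135,nat_lit 136,nat_lit 137],[nat_lit 129,nat_lit 135,nat_lit 136,nat_lit 137],[nat_lit 140,
    nat_lit 143],[nat_lit 140,nat_lit 143],[nat_lit 147,nat_lit 148],[nat_lit 147,nat_lit 148]],[[nat_lit 147,
    nat_lit 148],[nat_lit 142],[nat_lit 142],[nat_lit 142],[],[nat_lit 254,nat_lit 276,nat_lit 280],[nat_lit 259,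
    nat_lit 262,nat_lit 265,nat_lit 278,nat_lit 279,nat_lit 283],[],[nat_lit 255,nat_lit 277,nat_lit 281],[],
    [nat_lit 268,nat_lit 271,nat_lit 274],[]],[[],[],[nat_lit 252,nat_lit 267,nat_lit 270,nat_lit 273],[nat_lit 252,
    nat_lit 267,nat_lit 270,nat_lit 273],[nat_lit 258,nat_lit 261],[nat_lit 258,nat_lit 261],[nat_lit 258,
    nat_lit 261],[nat_lit 253,nat_lit 263,nat_lit 269,nat_lit 272,nat_lit 275],[nat_lit 253,nat_lit 263,nat_lit 269,
    nat_lit 272,nat_lit 275],[nat_lit 253,nat_lit 263,nat_lit 269,nat_lit 272,nat_lit 275],[nat_lit 253,nat_lit 263,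
    nat_lit 269,nat_lit 272,nat_lit 275],[nat_lit 253,nat_lit 263,nat_lit 269,nat_lit 272,nat_lit 275]],[[nat_lit 256,
    nat_lit 264],[nat_lit 256,nat_lit 264],[],[],[],[],[],[nat_lit 178,nat_lit 182],[nat_lit 178,nat_lit 182],
    [nat_lit 175],[nat_lit 175],[nat_lit 175]],[[nat_lit 180],[nat_lit 180],[nat_lit 180],[nat_lit 191,nat_lit 194],
    [nat_lit 191,nat_lit 194],[nat_lit 191,nat_lit 194],[nat_lit 191,nat_lit 194],[],[nat_lit 174,nat_lit 183,
    nat_lit 184,nat_lit 186,nat_lit 188],[nat_lit 174,nat_lit 183,nat_lit 184,nat_lit 186,nat_lit 188],[nat_lit 174,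
    nat_lit 183,nat_lit 184,nat_lit 186,nat_lit 188],[nat_lit 174,nat_lit 183,nat_lit 184,nat_lit 186,nat_lit 188]],
    [[nat_lit 174,nat_lit 183,nat_lit 184,nat_lit 186,nat_lit 188],[nat_lit 193],[nat_lit 193],[nat_lit 193],
    [nat_lit 179],[nat_lit 179],[nat_lit 179],[nat_lit 179],[nat_lit 179],[nat_lit 179],[nat_lit 185,nat_lit 187,
    nat_lit 189],[nat_lit 185,nat_lit 187,nat_lit 189]],[[nat_lit 340,nat_lit 344],[nat_lit 340,nat_lit 344],
    [nat_lit 340,nat_lit 344],[nat_lit 340,nat_lit 344],[nat_lit 320,nat_lit 350],[nat_lit 320,nat_lit 350],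
    [nat_lit 320,nat_lit 350],[nat_lit 320,nat_lit 350],[nat_lit 326],[nat_lit 326],[nat_lit 326],[]],[[],[],
    [nat_lit 336,nat_lit 338,nat_lit 339],[nat_lit 336,nat_lit 338,nat_lit 339],[nat_lit 336,nat_lit 338,nat_lit 339],
    [nat_lit 336,nat_lit 338,nat_lit 339],[nat_lit 321,nat_lit 323],[nat_lit 321,nat_lit 323],[nat_lit 321,
    nat_lit 323],[nat_lit 343,nat_lit 348],[nat_lit 343,nat_lit 348],[nat_lit 343,nat_lit 348]],[[nat_lit 325,
    nat_lit 329],[nat_lit 325,nat_lit 329],[nat_lit 325,nat_lit 329],[nat_lit 325,nat_lit 329],[nat_lit 322,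
    nat_lit 324,nat_lit 334,nat_lit 335],[nat_lit 322,nat_lit 324,nat_lit 334,nat_lit 335],[nat_lit 322,nat_lit 324,
    nat_lit 334,nat_lit 335],[nat_lit 322,nat_lit 324,nat_lit 334,nat_lit 335],[nat_lit 220,nat_lit 244,nat_lit 250],
    [nat_lit 227,nat_lit 230,nat_lit 246,nat_lit 248],[nat_lit 227,nat_lit 230,nat_lit 246,nat_lit 248],[]],[[],
    [nat_lit 225,nat_lit 228,nat_lit 231,nat_lit 236],[nat_lit 225,nat_lit 228,nat_lit 231,nat_lit 236],[],
    [nat_lit 221,nat_lit 223,nat_lit 245,nat_lit 251],[nat_lit 221,nat_lit 223,nat_lit 245,nat_lit 251],[nat_lit 232,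
    nat_lit 235,nat_lit 237,nat_lit 241],[nat_lit 232,nat_lit 235,nat_lit 237,nat_lit 241],[nat_lit 232,nat_lit 235,
    nat_lit 237,nat_lit 241],[],[nat_lit 233,nat_lit 239,nat_lit 242],[nat_lit 233,nat_lit 239,nat_lit 242]],[[],[],
    [],[],[],[],[],[],[nat_lit 222,nat_lit 226,nat_lit 229,nat_lit 247],[nat_lit 222,nat_lit 226,nat_lit 229,
    nat_lit 247],[nat_lit 222,nat_lit 226,nat_lit 229,nat_lit 247],[nat_lit 222,nat_lit 226,nat_lit 229,nat_lit 247]],
    [[nat_lit 234,nat_lit 240,nat_lit 243],[nat_lit 234,nat_lit 240,nat_lit 243],[],[],[],[],[nat_lit 36,nat_lit 40],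
    [nat_lit 36,nat_lit 40],[nat_lit 29],[nat_lit 23,nat_lit 43,nat_lit 45],[nat_lit 23,nat_lit 43,nat_lit 45],
    [nat_lit 27,nat_lit 38,nat_lit 39]],[[nat_lit 27,nat_lit 38,nat_lit 39],[nat_lit 33],[nat_lit 33],[nat_lit 33],
    [nat_lit 33],[nat_lit 37,nat_lit 41],[nat_lit 37,nat_lit 41],[nat_lit 24,nat_lit 31,nat_lit 42],[nat_lit 24,
    nat_lit 31,nat_lit 42],[],[nat_lit 25],[nat_lit 25]],[[nat_lit 34,nat_lit 35],[nat_lit 26,nat_lit 44],[nat_lit 26,
    nat_lit 44],[],[nat_lit 28,nat_lit 30],[nat_lit 28,nat_lit 30],[nat_lit 28,nat_lit 30],[nat_lit 28,nat_lit 30],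
    [nat_lit 32],[nat_lit 32],[nat_lit 32],[nat_lit 32]],[[nat_lit 32],[nat_lit 32],[],[]]]
    (nat_lit 352) [nat_lit 0,nat_lit 1,nat_lit 2,nat_lit 3,nat_lit 4,nat_lit 5,nat_lit 6,nat_lit 7,nat_lit 8,
    nat_lit 9,nat_lit 10,nat_lit 11,nat_lit 12,nat_lit 13,nat_lit 14,nat_lit 15,nat_lit 16,nat_lit 17,nat_lit 18,
    nat_lit 19,nat_lit 20,nat_lit 21,nat_lit 22,nat_lit 23,nat_lit 24,nat_lit 25,nat_lit 26,nat_lit 27,nat_lit 28,
    nat_lit 29,nat_lit 30,nat_lit 31,nat_lit 32,nat_lit 33,nat_lit 34,nat_lit 35,nat_lit 36,nat_lit 37,nat_lit 38,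
    nat_lit 39,nat_lit 40,nat_lit 41,nat_lit 42,nat_lit 43,nat_lit 44,nat_lit 45,nat_lit 49,nat_lit 50,nat_lit 52,
    nat_lit 53,nat_lit 55,nat_lit 56,nat_lit 57,nat_lit 58,nat_lit 59,nat_lit 60,nat_lit 63,nat_lit 64,nat_lit 67,
    nat_lit 68,nat_lit 70,nat_lit 71,nat_lit 72,nat_lit 73,nat_lit 74,nat_lit 75,nat_lit 80,nat_lit 81,nat_lit 82,
    nat_lit 83,nat_lit 85,nat_lit 87,nat_lit 91,nat_lit 92,nat_lit 93,nat_lit 94,nat_lit 97,nat_lit 98,nat_lit 105,
    nat_lit 106,nat_lit 107,nat_lit 110,nat_lit 111,nat_lit 112,nat_lit 113,nat_lit 121,nat_lit 122,nat_lit 123,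
    nat_lit 124,nat_lit 125,nat_lit 126,nat_lit 127,nat_lit 135,nat_lit 136,nat_lit 137,nat_lit 138,nat_lit 139,
    nat_lit 140,nat_lit 141,nat_lit 142,nat_lit 143,nat_lit 147,nat_lit 148,nat_lit 149,nat_lit 150,nat_lit 160,
    nat_lit 161,nat_lit 162,nat_lit 164,nat_lit 165,nat_lit 167,nat_lit 168,nat_lit 169,nat_lit 171,nat_lit 172,
    nat_lit 173,nat_lit 186,nat_lit 187,nat_lit 188,nat_lit 189,nat_lit 191,nat_lit 192,nat_lit 194,nat_lit 195,
    nat_lit 206,nat_lit 207,nat_lit 210,nat_lit 215]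
    [[[nat_lit 7,nat_lit 14,nat_lit 17],[],[nat_lit 18],[],[nat_lit 21],[nat_lit 0,nat_lit 20,nat_lit 22],[],
    [nat_lit 13,nat_lit 16],[nat_lit 10],[nat_lit 12],[],[nat_lit 11],[nat_lit 3,nat_lit 5,nat_lit 15],[nat_lit 1,
    nat_lit 2,nat_lit 4,nat_lit 6],[nat_lit 8],[nat_lit 9,nat_lit 19]],[[],[nat_lit 27,nat_lit 38,nat_lit 39],
    [nat_lit 36,nat_lit 40],[nat_lit 37,nat_lit 41],[nat_lit 23,nat_lit 43,nat_lit 45],[],[nat_lit 33],[nat_lit 34,
    nat_lit 35],[nat_lit 24,nat_lit 31,nat_lit 42],[],[nat_lit 25],[nat_lit 32],[nat_lit 26,nat_lit 44],[],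
    [nat_lit 28,nat_lit 30],[nat_lit 29]],[[nat_lit 51,nat_lit 54],[],[],[],[],[],[nat_lit 49],[nat_lit 50],[],[],[],
    [],[nat_lit 47,nat_lit 57,nat_lit 59],[nat_lit 46,nat_lit 48,nat_lit 58,nat_lit 60],[nat_lit 52,nat_lit 55],
    [nat_lit 53,nat_lit 56]],[[nat_lit 65,nat_lit 69],[nat_lit 66],[],[],[],[],[nat_lit 63],[nat_lit 64],[],[],[],[],
    [nat_lit 61,nat_lit 72,nat_lit 74],[nat_lit 62,nat_lit 73,nat_lit 75],[nat_lit 67,nat_lit 70],[nat_lit 68,
    nat_lit 71]],[[],[nat_lit 77,nat_lit 84,nat_lit 86],[],[],[],[],[],[],[nat_lit 80],[nat_lit 81],[nat_lit 82],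
    [nat_lit 83],[],[],[nat_lit 78],[nat_lit 76,nat_lit 79,nat_lit 85,nat_lit 87]],[[nat_lit 88,nat_lit 95,
    nat_lit 99],[nat_lit 96],[],[],[],[],[],[],[nat_lit 91],[nat_lit 92],[nat_lit 93],[nat_lit 94],[],[],[nat_lit 89,
    nat_lit 97],[nat_lit 90,nat_lit 98]],[[nat_lit 103,nat_lit 108],[nat_lit 104,nat_lit 109],[nat_lit 101],
    [nat_lit 102],[],[],[],[],[nat_lit 100],[],[nat_lit 112,nat_lit 113],[],[],[],[nat_lit 105,nat_lit 107,
    nat_lit 110],[nat_lit 106,nat_lit 111]],[[nat_lit 120],[],[nat_lit 118],[nat_lit 119],[],[],[],[],[],[nat_lit 114,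
    nat_lit 116,nat_lit 123,nat_lit 125],[nat_lit 115,nat_lit 117,nat_lit 124,nat_lit 126],[nat_lit 127],[],[],
    [nat_lit 121],[nat_lit 122]],[[],[nat_lit 134],[],[],[nat_lit 132],[nat_lit 133],[nat_lit 128,nat_lit 130,
    nat_lit 144,nat_lit 146],[],[nat_lit 139],[nat_lit 140,nat_lit 143],[nat_lit 141],[nat_lit 142],[nat_lit 129,
    nat_lit 135,nat_lit 136,nat_lit 137],[nat_lit 138,nat_lit 145,nat_lit 150],[nat_lit 147,nat_lit 148],[nat_lit 131,
    nat_lit 149]],[[nat_lit 154,nat_lit 166,nat_lit 170],[nat_lit 155],[],[],[nat_lit 152],[nat_lit 153],[],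
    [nat_lit 151],[],[nat_lit 167],[nat_lit 164,nat_lit 168],[nat_lit 169],[nat_lit 158],[nat_lit 159,nat_lit 160,
    nat_lit 161,nat_lit 162],[nat_lit 156,nat_lit 163,nat_lit 165,nat_lit 171,nat_lit 172,nat_lit 173],[nat_lit 157]],
    [[nat_lit 179],[nat_lit 180],[],[],[nat_lit 175],[nat_lit 176],[nat_lit 196],[],[nat_lit 190],[nat_lit 193],
    [nat_lit 191,nat_lit 194],[nat_lit 192,nat_lit 195],[nat_lit 174,nat_lit 183,nat_lit 184,nat_lit 186,nat_lit 188],
    [nat_lit 185,nat_lit 187,nat_lit 189],[nat_lit 177,nat_lit 181],[nat_lit 178,nat_lit 182]],[[nat_lit 211],[],[],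
    [],[nat_lit 199],[nat_lit 200],[nat_lit 197,nat_lit 198,nat_lit 216,nat_lit 218],[nat_lit 217,nat_lit 219],
    [nat_lit 208,nat_lit 212],[nat_lit 213],[nat_lit 209,nat_lit 214],[nat_lit 210,nat_lit 215],[nat_lit 202,
    nat_lit 204,nat_lit 206],[nat_lit 203,nat_lit 205,nat_lit 207],[],[nat_lit 201]],[[],[nat_lit 225,nat_lit 228,
    nat_lit 231,nat_lit 236],[nat_lit 220,nat_lit 244,nat_lit 250],[nat_lit 221,nat_lit 223,nat_lit 245,nat_lit 251],
    [],[],[],[],[nat_lit 232,nat_lit 235,nat_lit 237,nat_lit 241],[nat_lit 224,nat_lit 238,nat_lit 249],[nat_lit 233,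
    nat_lit 239,nat_lit 242],[nat_lit 234,nat_lit 240,nat_lit 243],[],[],[nat_lit 222,nat_lit 226,nat_lit 229,
    nat_lit 247],[nat_lit 227,nat_lit 230,nat_lit 246,nat_lit 248]],[[nat_lit 256,nat_lit 264],[nat_lit 257,
    nat_lit 260,nat_lit 282],[nat_lit 254,nat_lit 276,nat_lit 280],[nat_lit 255,nat_lit 277,nat_lit 281],[],[],[],[],
    [nat_lit 266],[nat_lit 252,nat_lit 267,nat_lit 270,nat_lit 273],[nat_lit 268,nat_lit 271,nat_lit 274],
    [nat_lit 253,nat_lit 263,nat_lit 269,nat_lit 272,nat_lit 275],[],[],[nat_lit 258,nat_lit 261],[nat_lit 259,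
    nat_lit 262,nat_lit 265,nat_lit 278,nat_lit 279,nat_lit 283]],[[nat_lit 292],[nat_lit 291,nat_lit 301],
    [nat_lit 309,nat_lit 312],[nat_lit 310,nat_lit 313],[nat_lit 285,nat_lit 316],[nat_lit 284,nat_lit 286,
    nat_lit 314,nat_lit 317],[nat_lit 306],[nat_lit 300,nat_lit 307],[nat_lit 294],[nat_lit 308,nat_lit 311],
    [nat_lit 295],[nat_lit 296,nat_lit 297],[nat_lit 287,nat_lit 289,nat_lit 298,nat_lit 303,nat_lit 304,nat_lit 315],
    [nat_lit 288,nat_lit 290,nat_lit 299,nat_lit 305],[nat_lit 293,nat_lit 302],[]],[[nat_lit 325,nat_lit 329],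
    [nat_lit 326],[nat_lit 340,nat_lit 344],[nat_lit 341,nat_lit 345],[nat_lit 320,nat_lit 350],[nat_lit 318],
    [nat_lit 337],[nat_lit 336,nat_lit 338,nat_lit 339],[nat_lit 319,nat_lit 331,nat_lit 342,nat_lit 347,nat_lit 349,
    nat_lit 351],[nat_lit 343,nat_lit 348],[],[nat_lit 332,nat_lit 333],[nat_lit 321,nat_lit 323],[nat_lit 322,
    nat_lit 324,nat_lit 334,nat_lit 335],[nat_lit 327,nat_lit 330],[nat_lit 328,nat_lit 346]]]
    [[[nat_lit 0x1200000000000000000000000000000000000000000000000000000000000000000000000000000,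
    nat_lit 0x1200000000000000000000000000000000000000000000000000000000000000000000000000000,
    nat_lit 0x1200000000000000000000000000000000000000000000000000000000000000000000000000000,
    nat_lit 0x10000000200000000000000000000000000000000000000000000000000000000000000000000000,
    nat_lit 0x10000000200000000000000000000000000000000000000000000000000000000000000000000000,
    nat_lit 0x2008000000000000000000000000000000000000000000000000000000000000000000000000,
    nat_lit 0x2008000000000000000000000000000000000000000000000000000000000000000000000000,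
    nat_lit 0x2400000000000000000000000000000000000000000000000000000000000000000000000000000,
    nat_lit 0x2400000000000000000000000000000000000000000000000000000000000000000000000000000],
    [nat_lit 0x2400000000000000000000000000000000000000000000000000000000000000000000000000000,
    nat_lit 0x40000000000000000000000000000000000000000000000000000000000000000000000000,
    nat_lit 0x40000000000000000000000000000000000000000000000000000000000000000000000000,
    nat_lit 0x24000000500000000000000000000000000000000000000000000000000000000000000000000000,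
    nat_lit 0x81000000000000000000000000000000000000000000000000000000000000000000000000000,
    nat_lit 0x81000000000000000000000000000000000000000000000000000000000000000000000000000,
    nat_lit 0x81000000000000000000000000000000000000000000000000000000000000000000000000000,
    nat_lit 0x8018402800000000000000000000000000000000000000000000000000000000000000000000000,
    nat_lit 0x900000000000000000000000000000000000000000000000000000000000000000000000000000],
    [nat_lit 0x300000000000000000000000000000000000000000000000000000000000000000000000000,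
    nat_lit 0x300000000000000000000000000000000000000000000000000000000000000000000000000,
    nat_lit 0x10000000000000000000000000000000000000000000000000000000000000000000000000,
    nat_lit 0x20805000000000000000000000000000000000000000000000000000000000000000000000000,
    nat_lit 0x20805000000000000000000000000000000000000000000000000000000000000000000000000,
    nat_lit 0x900000000000000000,nat_lit 0x900000000000000000,nat_lit 0x900000000000000000,
    nat_lit 0x40000000000000000],[nat_lit 0x8000000000000000,nat_lit 0x8000000000000000,nat_lit 0x8000000000000000,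
    nat_lit 0,nat_lit 0,nat_lit 0,nat_lit 0,nat_lit 0x10000000000000000,nat_lit 0x5002000000000000000],
    [nat_lit 0x480000000000000000,nat_lit 0x480000000000000000,nat_lit 0x480000000000000000,
    nat_lit 0x480000000000000000,nat_lit 0,nat_lit 0,nat_lit 0,nat_lit 0x220000000000000000,
    nat_lit 0x220000000000000000],[nat_lit 0xa004000000000000000,nat_lit 0x40000,nat_lit 0x80200,nat_lit 0x80200,
    nat_lit 0x400,nat_lit 0x500001,nat_lit 256,nat_lit 256,nat_lit 256],[nat_lit 0x800,nat_lit 0x800,nat_lit 0x800,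
    nat_lit 0x24080,nat_lit 0x24080,nat_lit 86,nat_lit 86,nat_lit 0x4040000000000000000000000,
    nat_lit 0x4040000000000000000000000],[nat_lit 0x80000000000000000000000,nat_lit 0,
    nat_lit 0x2020000000000000000000000,nat_lit 0x2020000000000000000000000,nat_lit 0x2020000000000000000000000,
    nat_lit 0x2020000000000000000000000,nat_lit 0x400000000000000000000000,nat_lit 0x400000000000000000000000,
    nat_lit 0x400000000000000000000000],[nat_lit 0x8810000000000000000000000,nat_lit 0x8810000000000000000000000,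
    nat_lit 0,nat_lit 0,nat_lit 0,nat_lit 0x120000000000000,nat_lit 0x120000000000000,nat_lit 0x120000000000000,
    nat_lit 0]],[[nat_lit 0x4000000000000,nat_lit 0xa00800000000000,nat_lit 0,nat_lit 0x48000000000000,
    nat_lit 0x48000000000000,nat_lit 0x1401400000000000,nat_lit 0x1401400000000000,
    nat_lit 0x400000000000000000000000000000,nat_lit 0x400000000000000000000000000000],
    [nat_lit 0x400000000000000000000000000000,nat_lit 0x50280000000000000000000000000000,nat_lit 0,nat_lit 0,
    nat_lit 0x28140000000000000000000000000000,nat_lit 0x1000000000000000000000000000000,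
    nat_lit 0x1000000000000000000000000000000,nat_lit 0x1000000000000000000000000000000,
    nat_lit 0x1000000000000000000000000000000],[nat_lit 0,nat_lit 0xa090000000000000000000,nat_lit 0,
    nat_lit 0x5020000000000000000000,nat_lit 0x400000000000000000000,nat_lit 0x400000000000000000000,
    nat_lit 0x400000000000000000000,nat_lit 0x400000000000000000000,nat_lit 0],[nat_lit 0x200000000000000000000,
    nat_lit 0x200000000000000000000,nat_lit 0x200000000000000000000,nat_lit 0x200000000000000000000,nat_lit 0,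
    nat_lit 0,nat_lit 0,nat_lit 0,nat_lit 0x2000000000000000000000000000000000000000],
    [nat_lit 0x2000000000000000000000000000000000000000,nat_lit 0x100000000000000000000000000000000000000,
    nat_lit 0x800000000000000000000000000000000000000,nat_lit 0x80000000000000000000000000000000000000,
    nat_lit 0x800000000000000000000000000000000000000000,nat_lit 0x800000000000000000000000000000000000000000,
    nat_lit 0x4400400000000000000000000000000000000000000,nat_lit 0x4400400000000000000000000000000000000000000,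
    nat_lit 0x78000000000000000000000000000000000000000],[nat_lit 0x78000000000000000000000000000000000000000,
    nat_lit 0x78000000000000000000000000000000000000000,nat_lit 0x20000000000000000000000000,
    nat_lit 0x8400000000000000000000000000,nat_lit 0x8400000000000000000000000000,
    nat_lit 0x8400000000000000000000000000,nat_lit 0,nat_lit 0x40000000000000000000000000,
    nat_lit 0x10000000000000000000000000],[nat_lit 0x30000000000000000000000000000,nat_lit 0,nat_lit 0,nat_lit 0,
    nat_lit 0x4a00000000000000000000000000,nat_lit 0x4a00000000000000000000000000,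
    nat_lit 0x4a00000000000000000000000000,nat_lit 0x4a00000000000000000000000000,nat_lit 0],
    [nat_lit 0x1080000000000000000000000000,nat_lit 0,nat_lit 0,nat_lit 0,nat_lit 0,nat_lit 0,nat_lit 0,nat_lit 0,
    nat_lit 0x5000060000000000000000000000000000000000000000000000000],[nat_lit 0,
    nat_lit 0x100000000000000000000000000000000000000000000000000,
    nat_lit 0x100000000000000000000000000000000000000000000000000,
    nat_lit 0x100000000000000000000000000000000000000000000000000,
    nat_lit 0x100000000000000000000000000000000000000000000000000,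
    nat_lit 0x420000000000000000000000000000000000000000000000000000,
    nat_lit 0x420000000000000000000000000000000000000000000000000000,
    nat_lit 0xa000000000000000000000000000000000000000000000000000000,
    nat_lit 0x5400000000000000000000000000000000000000000000000000]],
    [[nat_lit 0x200000000000000000000000000000000000000000000000000000,nat_lit 0,nat_lit 0,nat_lit 0,
    nat_lit 0x840000000000000000000000000000000000000000000000000000,
    nat_lit 0x840000000000000000000000000000000000000000000000000000,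
    nat_lit 0x840000000000000000000000000000000000000000000000000000,
    nat_lit 0x840000000000000000000000000000000000000000000000000000,
    nat_lit 0x80000000000000000000000000000000000000000000000000000],
    [nat_lit 0x80000000000000000000000000000000000000000000000000000,
    nat_lit 0xa800000000000000000000000000000000000000000000000000,
    nat_lit 0xa800000000000000000000000000000000000000000000000000,nat_lit 0x20000800000000000000000000000000000000,
    nat_lit 0x5000500000000000000000000000000000000,nat_lit 0,nat_lit 0x80000000000000000000000000000000000,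
    nat_lit 0x80000000000000000000000000000000000,nat_lit 0x2000000000000000000000000000000000],
    [nat_lit 0x2000000000000000000000000000000000,nat_lit 0x2000000000000000000000000000000000,
    nat_lit 0x2000000000000000000000000000000000,nat_lit 0x200000000000000000000000000000000000,nat_lit 0,nat_lit 0,
    nat_lit 0x38200000000000000000000000000000000,nat_lit 0x38200000000000000000000000000000000,
    nat_lit 0x900000000000000000000000000000000000],[nat_lit 0x900000000000000000000000000000000000,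
    nat_lit 0x18000000000000000000000000000000000000,nat_lit 0x18000000000000000000000000000000000000,
    nat_lit 0x18000000000000000000000000000000000000,nat_lit 0x400000000000000000000000000000000000,
    nat_lit 0x400000000000000000000000000000000000,nat_lit 0x400000000000000000000000000000000000,nat_lit 0,
    nat_lit 0x11000004000000000000000000000000000000000000000000000000000000000000000],
    [nat_lit 0x8c002480000000000000000000000000000000000000000000000000000000000000000,nat_lit 0,
    nat_lit 0x22000008000000000000000000000000000000000000000000000000000000000000000,nat_lit 0,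
    nat_lit 0x490000000000000000000000000000000000000000000000000000000000000000000,nat_lit 0,nat_lit 0,nat_lit 0,
    nat_lit 0x248001000000000000000000000000000000000000000000000000000000000000000],
    [nat_lit 0x248001000000000000000000000000000000000000000000000000000000000000000,
    nat_lit 0x240000000000000000000000000000000000000000000000000000000000000000,
    nat_lit 0x240000000000000000000000000000000000000000000000000000000000000000,
    nat_lit 0x240000000000000000000000000000000000000000000000000000000000000000,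
    nat_lit 0x920802000000000000000000000000000000000000000000000000000000000000000,
    nat_lit 0x920802000000000000000000000000000000000000000000000000000000000000000,
    nat_lit 0x920802000000000000000000000000000000000000000000000000000000000000000,
    nat_lit 0x920802000000000000000000000000000000000000000000000000000000000000000,
    nat_lit 0x920802000000000000000000000000000000000000000000000000000000000000000],
    [nat_lit 0x1010000000000000000000000000000000000000000000000000000000000000000,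
    nat_lit 0x1010000000000000000000000000000000000000000000000000000000000000000,nat_lit 0,nat_lit 0,nat_lit 0,
    nat_lit 0,nat_lit 0,nat_lit 0x4400000000000000000000000000000000000000000000,
    nat_lit 0x4400000000000000000000000000000000000000000000],[nat_lit 0x80000000000000000000000000000000000000000000,
    nat_lit 0x80000000000000000000000000000000000000000000,nat_lit 0x80000000000000000000000000000000000000000000,
    nat_lit 0x1000000000000000000000000000000000000000000000,nat_lit 0x1000000000000000000000000000000000000000000000,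
    nat_lit 0x1000000000000000000000000000000000000000000000,
    nat_lit 0x4800000000000000000000000000000000000000000000000,
    nat_lit 0x4800000000000000000000000000000000000000000000000,
    nat_lit 0x4800000000000000000000000000000000000000000000000],
    [nat_lit 0x4800000000000000000000000000000000000000000000000,nat_lit 0,
    nat_lit 0x158040000000000000000000000000000000000000000000,
    nat_lit 0x158040000000000000000000000000000000000000000000,
    nat_lit 0x158040000000000000000000000000000000000000000000,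
    nat_lit 0x158040000000000000000000000000000000000000000000,
    nat_lit 0x158040000000000000000000000000000000000000000000,
    nat_lit 0x2000000000000000000000000000000000000000000000000,
    nat_lit 0x2000000000000000000000000000000000000000000000000]],
    [[nat_lit 0x2000000000000000000000000000000000000000000000000,
    nat_lit 0x800000000000000000000000000000000000000000000,nat_lit 0x800000000000000000000000000000000000000000000,
    nat_lit 0x800000000000000000000000000000000000000000000,nat_lit 0x800000000000000000000000000000000000000000000,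
    nat_lit 0x800000000000000000000000000000000000000000000,nat_lit 0x800000000000000000000000000000000000000000000,
    nat_lit 0x2a0000000000000000000000000000000000000000000000,
    nat_lit 0x2a0000000000000000000000000000000000000000000000],
    [nat_lit 0x110000000000000000000000000000000000000000000000000000000000000000000000000000000000000,
    nat_lit 0x110000000000000000000000000000000000000000000000000000000000000000000000000000000000000,
    nat_lit 0x110000000000000000000000000000000000000000000000000000000000000000000000000000000000000,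
    nat_lit 0x110000000000000000000000000000000000000000000000000000000000000000000000000000000000000,
    nat_lit 0x4000000100000000000000000000000000000000000000000000000000000000000000000000000000000000,
    nat_lit 0x4000000100000000000000000000000000000000000000000000000000000000000000000000000000000000,
    nat_lit 0x4000000100000000000000000000000000000000000000000000000000000000000000000000000000000000,
    nat_lit 0x4000000100000000000000000000000000000000000000000000000000000000000000000000000000000000,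
    nat_lit 0x4000000000000000000000000000000000000000000000000000000000000000000000000000000000],
    [nat_lit 0x4000000000000000000000000000000000000000000000000000000000000000000000000000000000,
    nat_lit 0x4000000000000000000000000000000000000000000000000000000000000000000000000000000000,nat_lit 0,nat_lit 0,
    nat_lit 0,nat_lit 0xd000000000000000000000000000000000000000000000000000000000000000000000000000000000000,
    nat_lit 0xd000000000000000000000000000000000000000000000000000000000000000000000000000000000000,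
    nat_lit 0xd000000000000000000000000000000000000000000000000000000000000000000000000000000000000,
    nat_lit 0xd000000000000000000000000000000000000000000000000000000000000000000000000000000000000],
    [nat_lit 0xa00000000000000000000000000000000000000000000000000000000000000000000000000000000,
    nat_lit 0xa00000000000000000000000000000000000000000000000000000000000000000000000000000000,
    nat_lit 0xa00000000000000000000000000000000000000000000000000000000000000000000000000000000,
    nat_lit 0x1080000000000000000000000000000000000000000000000000000000000000000000000000000000000000,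
    nat_lit 0x1080000000000000000000000000000000000000000000000000000000000000000000000000000000000000,
    nat_lit 0x1080000000000000000000000000000000000000000000000000000000000000000000000000000000000000,
    nat_lit 0x22000000000000000000000000000000000000000000000000000000000000000000000000000000000,
    nat_lit 0x22000000000000000000000000000000000000000000000000000000000000000000000000000000000,
    nat_lit 0x22000000000000000000000000000000000000000000000000000000000000000000000000000000000],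
    [nat_lit 0x22000000000000000000000000000000000000000000000000000000000000000000000000000000000,
    nat_lit 0xc01400000000000000000000000000000000000000000000000000000000000000000000000000000000,
    nat_lit 0xc01400000000000000000000000000000000000000000000000000000000000000000000000000000000,
    nat_lit 0xc01400000000000000000000000000000000000000000000000000000000000000000000000000000000,
    nat_lit 0xc01400000000000000000000000000000000000000000000000000000000000000000000000000000000,
    nat_lit 0x410000010000000000000000000000000000000000000000000000000000000,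
    nat_lit 0x140004800000000000000000000000000000000000000000000000000000000,
    nat_lit 0x140004800000000000000000000000000000000000000000000000000000000,nat_lit 0],[nat_lit 0,
    nat_lit 0x109200000000000000000000000000000000000000000000000000000000,
    nat_lit 0x109200000000000000000000000000000000000000000000000000000000,nat_lit 0,
    nat_lit 0x8200000a0000000000000000000000000000000000000000000000000000000,
    nat_lit 0x8200000a0000000000000000000000000000000000000000000000000000000,
    nat_lit 0x2290000000000000000000000000000000000000000000000000000000000,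
    nat_lit 0x2290000000000000000000000000000000000000000000000000000000000,
    nat_lit 0x2290000000000000000000000000000000000000000000000000000000000],[nat_lit 0,
    nat_lit 0x4820000000000000000000000000000000000000000000000000000000000,
    nat_lit 0x4820000000000000000000000000000000000000000000000000000000000,nat_lit 0,nat_lit 0,nat_lit 0,nat_lit 0,
    nat_lit 0,nat_lit 0],[nat_lit 0,nat_lit 0,
    nat_lit 0x80002440000000000000000000000000000000000000000000000000000000,
    nat_lit 0x80002440000000000000000000000000000000000000000000000000000000,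
    nat_lit 0x80002440000000000000000000000000000000000000000000000000000000,
    nat_lit 0x80002440000000000000000000000000000000000000000000000000000000,
    nat_lit 0x9040000000000000000000000000000000000000000000000000000000000,
    nat_lit 0x9040000000000000000000000000000000000000000000000000000000000,nat_lit 0],[nat_lit 0,nat_lit 0,nat_lit 0,
    nat_lit 0x11000000000,nat_lit 0x11000000000,nat_lit 0x20000000,nat_lit 0x280000800000,nat_lit 0x280000800000,
    nat_lit 0xc008000000]],[[nat_lit 0xc008000000,nat_lit 0x200000000,nat_lit 0x200000000,nat_lit 0x200000000,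
    nat_lit 0x200000000,nat_lit 0x22000000000,nat_lit 0x22000000000,nat_lit 0x40081000000,nat_lit 0x40081000000],
    [nat_lit 0,nat_lit 0x2000000,nat_lit 0x2000000,nat_lit 0xc00000000,nat_lit 0x100004000000,nat_lit 0x100004000000,
    nat_lit 0,nat_lit 0x50000000,nat_lit 0x50000000],[nat_lit 0x50000000,nat_lit 0x50000000,nat_lit 0x100000000,
    nat_lit 0x100000000,nat_lit 0x100000000,nat_lit 0x100000000,nat_lit 0x100000000,nat_lit 0x100000000,nat_lit 0],
    [nat_lit 0]]]
    [[[[nat_lit 0x1200000000000000000000000000000000000000000000000000000000000000000000000000000,nat_lit 0,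
    nat_lit 0x1200000000000000000000000000000000000000000000000000000000000000000000000000000,
    nat_lit 0x200000000000000000000000000000000000000000000000000000000000000000000000,nat_lit 0,
    nat_lit 0x8000000000000000000000000000000000000000000000000000000000000000000000000,
    nat_lit 0x2008000000000000000000000000000000000000000000000000000000000000000000000000,
    nat_lit 0x2000000000000000000000000000000000000000000000000000000000000000000000000000000,nat_lit 0],[nat_lit 0,
    nat_lit 0x40000000000000000000000000000000000000000000000000000000000000000000000000,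
    nat_lit 0x40000000000000000000000000000000000000000000000000000000000000000000000000,nat_lit 0,
    nat_lit 0x81000000000000000000000000000000000000000000000000000000000000000000000000000,
    nat_lit 0x81000000000000000000000000000000000000000000000000000000000000000000000000000,
    nat_lit 0x81000000000000000000000000000000000000000000000000000000000000000000000000000,
    nat_lit 0x18400000000000000000000000000000000000000000000000000000000000000000000000000,
    nat_lit 0x100000000000000000000000000000000000000000000000000000000000000000000000000000],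
    [nat_lit 0x200000000000000000000000000000000000000000000000000000000000000000000000000,nat_lit 0,
    nat_lit 0x10000000000000000000000000000000000000000000000000000000000000000000000000,nat_lit 0,
    nat_lit 0x20805000000000000000000000000000000000000000000000000000000000000000000000000,
    nat_lit 0x900000000000000000,nat_lit 0x900000000000000000,nat_lit 0x900000000000000000,nat_lit 0],
    [nat_lit 0x8000000000000000,nat_lit 0x8000000000000000,nat_lit 0x8000000000000000,nat_lit 0,nat_lit 0,nat_lit 0,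
    nat_lit 0,nat_lit 0,nat_lit 0x5000000000000000000],[nat_lit 0x400000000000000000,nat_lit 0,
    nat_lit 0x400000000000000000,nat_lit 0x400000000000000000,nat_lit 0,nat_lit 0,nat_lit 0,nat_lit 0,nat_lit 0],
    [nat_lit 0,nat_lit 0,nat_lit 0,nat_lit 0,nat_lit 0,nat_lit 0x500001,nat_lit 0,nat_lit 0,nat_lit 0],[nat_lit 0,
    nat_lit 0x800,nat_lit 0x800,nat_lit 0x24080,nat_lit 0x24080,nat_lit 70,nat_lit 0,
    nat_lit 0x40000000000000000000000,nat_lit 0],[nat_lit 0x80000000000000000000000,nat_lit 0,nat_lit 0,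
    nat_lit 0x20000000000000000000000,nat_lit 0,nat_lit 0x20000000000000000000000,nat_lit 0x400000000000000000000000,
    nat_lit 0x400000000000000000000000,nat_lit 0x400000000000000000000000],[nat_lit 0x8810000000000000000000000,
    nat_lit 0x8010000000000000000000000,nat_lit 0,nat_lit 0,nat_lit 0,nat_lit 0x120000000000000,
    nat_lit 0x120000000000000,nat_lit 0x100000000000000,nat_lit 0]],[[nat_lit 0x4000000000000,
    nat_lit 0xa00800000000000,nat_lit 0,nat_lit 0x40000000000000,nat_lit 0,nat_lit 0x400400000000000,nat_lit 0,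
    nat_lit 0x400000000000000000000000000000,nat_lit 0x400000000000000000000000000000],
    [nat_lit 0x400000000000000000000000000000,nat_lit 0x280000000000000000000000000000,nat_lit 0,nat_lit 0,
    nat_lit 0x20040000000000000000000000000000,nat_lit 0,nat_lit 0,nat_lit 0,nat_lit 0],[nat_lit 0,nat_lit 0,
    nat_lit 0,nat_lit 0x5020000000000000000000,nat_lit 0,nat_lit 0x400000000000000000000,
    nat_lit 0x400000000000000000000,nat_lit 0,nat_lit 0],[nat_lit 0x200000000000000000000,
    nat_lit 0x200000000000000000000,nat_lit 0,nat_lit 0,nat_lit 0,nat_lit 0,nat_lit 0,nat_lit 0,nat_lit 0],[nat_lit 0,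
    nat_lit 0x100000000000000000000000000000000000000,nat_lit 0,nat_lit 0,
    nat_lit 0x800000000000000000000000000000000000000000,nat_lit 0,nat_lit 0,nat_lit 0,nat_lit 0],
    [nat_lit 0x70000000000000000000000000000000000000000,nat_lit 0,nat_lit 0,nat_lit 0,nat_lit 0,nat_lit 0,nat_lit 0,
    nat_lit 0x40000000000000000000000000,nat_lit 0],[nat_lit 0x20000000000000000000000000000,nat_lit 0,nat_lit 0,
    nat_lit 0,nat_lit 0x4000000000000000000000000000,nat_lit 0,nat_lit 0x4000000000000000000000000000,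
    nat_lit 0x4000000000000000000000000000,nat_lit 0],[nat_lit 0,nat_lit 0,nat_lit 0,nat_lit 0,nat_lit 0,nat_lit 0,
    nat_lit 0,nat_lit 0,nat_lit 0x5000020000000000000000000000000000000000000000000000000],[nat_lit 0,nat_lit 0,
    nat_lit 0x100000000000000000000000000000000000000000000000000,
    nat_lit 0x100000000000000000000000000000000000000000000000000,
    nat_lit 0x100000000000000000000000000000000000000000000000000,
    nat_lit 0x420000000000000000000000000000000000000000000000000000,nat_lit 0,nat_lit 0,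
    nat_lit 0x5400000000000000000000000000000000000000000000000000]],
    [[nat_lit 0x200000000000000000000000000000000000000000000000000000,nat_lit 0,nat_lit 0,nat_lit 0,
    nat_lit 0x40000000000000000000000000000000000000000000000000000,
    nat_lit 0x40000000000000000000000000000000000000000000000000000,
    nat_lit 0x40000000000000000000000000000000000000000000000000000,
    nat_lit 0x40000000000000000000000000000000000000000000000000000,
    nat_lit 0x80000000000000000000000000000000000000000000000000000],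
    [nat_lit 0x80000000000000000000000000000000000000000000000000000,
    nat_lit 0xa800000000000000000000000000000000000000000000000000,nat_lit 0,
    nat_lit 0x20000800000000000000000000000000000000,nat_lit 0x5000100000000000000000000000000000000,nat_lit 0,
    nat_lit 0,nat_lit 0,nat_lit 0],[nat_lit 0x2000000000000000000000000000000000,
    nat_lit 0x2000000000000000000000000000000000,nat_lit 0x2000000000000000000000000000000000,
    nat_lit 0x200000000000000000000000000000000000,nat_lit 0,nat_lit 0,nat_lit 0,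
    nat_lit 0x38200000000000000000000000000000000,nat_lit 0x800000000000000000000000000000000000],
    [nat_lit 0x800000000000000000000000000000000000,nat_lit 0x10000000000000000000000000000000000000,
    nat_lit 0x10000000000000000000000000000000000000,nat_lit 0x10000000000000000000000000000000000000,
    nat_lit 0x400000000000000000000000000000000000,nat_lit 0x400000000000000000000000000000000000,
    nat_lit 0x400000000000000000000000000000000000,nat_lit 0,nat_lit 0],[nat_lit 0,nat_lit 0,
    nat_lit 0x22000008000000000000000000000000000000000000000000000000000000000000000,nat_lit 0,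
    nat_lit 0x90000000000000000000000000000000000000000000000000000000000000000000,nat_lit 0,nat_lit 0,nat_lit 0,
    nat_lit 0x1000000000000000000000000000000000000000000000000000000000000000],
    [nat_lit 0x1000000000000000000000000000000000000000000000000000000000000000,
    nat_lit 0x240000000000000000000000000000000000000000000000000000000000000000,
    nat_lit 0x240000000000000000000000000000000000000000000000000000000000000000,
    nat_lit 0x240000000000000000000000000000000000000000000000000000000000000000,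
    nat_lit 0x920002000000000000000000000000000000000000000000000000000000000000000,nat_lit 0,
    nat_lit 0x920002000000000000000000000000000000000000000000000000000000000000000,
    nat_lit 0x920002000000000000000000000000000000000000000000000000000000000000000,
    nat_lit 0x920002000000000000000000000000000000000000000000000000000000000000000],
    [nat_lit 0x1000000000000000000000000000000000000000000000000000000000000000000,nat_lit 0,nat_lit 0,nat_lit 0,
    nat_lit 0,nat_lit 0,nat_lit 0,nat_lit 0,nat_lit 0x4000000000000000000000000000000000000000000000],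
    [nat_lit 0x80000000000000000000000000000000000000000000,nat_lit 0x80000000000000000000000000000000000000000000,
    nat_lit 0x80000000000000000000000000000000000000000000,nat_lit 0,nat_lit 0,nat_lit 0,
    nat_lit 0x4800000000000000000000000000000000000000000000000,nat_lit 0,nat_lit 0],[nat_lit 0,nat_lit 0,
    nat_lit 0x148040000000000000000000000000000000000000000000,
    nat_lit 0x148040000000000000000000000000000000000000000000,nat_lit 0,
    nat_lit 0x148040000000000000000000000000000000000000000000,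
    nat_lit 0x148040000000000000000000000000000000000000000000,
    nat_lit 0x2000000000000000000000000000000000000000000000000,nat_lit 0]],
    [[nat_lit 0x2000000000000000000000000000000000000000000000000,nat_lit 0,nat_lit 0,nat_lit 0,nat_lit 0,nat_lit 0,
    nat_lit 0,nat_lit 0x2a0000000000000000000000000000000000000000000000,
    nat_lit 0x2a0000000000000000000000000000000000000000000000],
    [nat_lit 0x110000000000000000000000000000000000000000000000000000000000000000000000000000000000000,
    nat_lit 0x110000000000000000000000000000000000000000000000000000000000000000000000000000000000000,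
    nat_lit 0x110000000000000000000000000000000000000000000000000000000000000000000000000000000000000,nat_lit 0,
    nat_lit 0,nat_lit 0x100000000000000000000000000000000000000000000000000000000000000000000000000000000,
    nat_lit 0x100000000000000000000000000000000000000000000000000000000000000000000000000000000,
    nat_lit 0x100000000000000000000000000000000000000000000000000000000000000000000000000000000,
    nat_lit 0x4000000000000000000000000000000000000000000000000000000000000000000000000000000000],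
    [nat_lit 0x4000000000000000000000000000000000000000000000000000000000000000000000000000000000,nat_lit 0,nat_lit 0,
    nat_lit 0,nat_lit 0,
    nat_lit 0x5000000000000000000000000000000000000000000000000000000000000000000000000000000000000,
    nat_lit 0x4000000000000000000000000000000000000000000000000000000000000000000000000000000000000,
    nat_lit 0x5000000000000000000000000000000000000000000000000000000000000000000000000000000000000,
    nat_lit 0x5000000000000000000000000000000000000000000000000000000000000000000000000000000000000],[nat_lit 0,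
    nat_lit 0x800000000000000000000000000000000000000000000000000000000000000000000000000000000,
    nat_lit 0x800000000000000000000000000000000000000000000000000000000000000000000000000000000,nat_lit 0,nat_lit 0,
    nat_lit 0,nat_lit 0,nat_lit 0x20000000000000000000000000000000000000000000000000000000000000000000000000000000000,
    nat_lit 0x20000000000000000000000000000000000000000000000000000000000000000000000000000000000],[nat_lit 0,
    nat_lit 0x801400000000000000000000000000000000000000000000000000000000000000000000000000000000,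
    nat_lit 0x801400000000000000000000000000000000000000000000000000000000000000000000000000000000,
    nat_lit 0x801400000000000000000000000000000000000000000000000000000000000000000000000000000000,
    nat_lit 0x801400000000000000000000000000000000000000000000000000000000000000000000000000000000,
    nat_lit 0x400000010000000000000000000000000000000000000000000000000000000,
    nat_lit 0x100000800000000000000000000000000000000000000000000000000000000,nat_lit 0,nat_lit 0],[nat_lit 0,
    nat_lit 0x109000000000000000000000000000000000000000000000000000000000,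
    nat_lit 0x109000000000000000000000000000000000000000000000000000000000,nat_lit 0,
    nat_lit 0x820000020000000000000000000000000000000000000000000000000000000,nat_lit 0,
    nat_lit 0x2280000000000000000000000000000000000000000000000000000000000,nat_lit 0,
    nat_lit 0x2290000000000000000000000000000000000000000000000000000000000],[nat_lit 0,nat_lit 0,nat_lit 0,nat_lit 0,
    nat_lit 0,nat_lit 0,nat_lit 0,nat_lit 0,nat_lit 0],[nat_lit 0,nat_lit 0,nat_lit 0,
    nat_lit 0x80002440000000000000000000000000000000000000000000000000000000,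
    nat_lit 0x80002440000000000000000000000000000000000000000000000000000000,
    nat_lit 0x80002440000000000000000000000000000000000000000000000000000000,
    nat_lit 0x9000000000000000000000000000000000000000000000000000000000000,nat_lit 0,nat_lit 0],[nat_lit 0,nat_lit 0,
    nat_lit 0,nat_lit 0x11000000000,nat_lit 0x1000000000,nat_lit 0x20000000,nat_lit 0x800000,nat_lit 0,
    nat_lit 0x8008000000]],[[nat_lit 0x8008000000,nat_lit 0,nat_lit 0,nat_lit 0,nat_lit 0,nat_lit 0x20000000000,
    nat_lit 0,nat_lit 0x40081000000,nat_lit 0x40081000000],[nat_lit 0,nat_lit 0x2000000,nat_lit 0,nat_lit 0xc00000000,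
    nat_lit 0x4000000,nat_lit 0,nat_lit 0,nat_lit 0x10000000,nat_lit 0x10000000],[nat_lit 0x10000000,
    nat_lit 0x10000000,nat_lit 0,nat_lit 0,nat_lit 0,nat_lit 0x100000000,nat_lit 0x100000000,nat_lit 0x100000000,
    nat_lit 0],[nat_lit 0]]]]
    (nat_lit 1) (nat_lit 1) (nat_lit 9)
    [[nat_lit 2,nat_lit 0x10002,nat_lit 17,nat_lit 273,nat_lit 0x10011,nat_lit 257,nat_lit 513,nat_lit 0x1001,
    nat_lit 0x1001001,nat_lit 0x1101,nat_lit 0x10001,nat_lit 0x10101,nat_lit 0x1010001,nat_lit 0x10010001,
    nat_lit 0x100001,nat_lit 0x100101,nat_lit 0x1100001,nat_lit 0x10100001,nat_lit 0x1000001,nat_lit 0x1000101,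
    nat_lit 0x11000001,nat_lit 0x10000001,nat_lit 0x20000001],[nat_lit 32,nat_lit 272,nat_lit 0x1001010,
    nat_lit 0x10010,nat_lit 0x1010010,nat_lit 0x11010,nat_lit 0x10010010,nat_lit 0x100010,nat_lit 0x1100010,
    nat_lit 0x1000010,nat_lit 0x2000010,nat_lit 0x10000010,nat_lit 0x10100010,nat_lit 0x20000010],[nat_lit 512,
    nat_lit 768,nat_lit 0x1100,nat_lit 0x1000100,nat_lit 0x10000100],[nat_lit 0x2000,nat_lit 0x3000,nat_lit 0x12000,
    nat_lit 0x102000,nat_lit 0x1002000,nat_lit 0x10002000,nat_lit 0x11000,nat_lit 0x21000,nat_lit 0x111000,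
    nat_lit 0x1011000,nat_lit 0x101000,nat_lit 0x201000,nat_lit 0x1101000,nat_lit 0x1001000,nat_lit 0x2001000,
    nat_lit 0x11001000,nat_lit 0x10001000],[nat_lit 0x20000,nat_lit 0x110000,nat_lit 0x1010000,nat_lit 0x2010000,
    nat_lit 0x11010000,nat_lit 0x10010000,nat_lit 0x20010000],[nat_lit 0x200000,nat_lit 0x1100000,nat_lit 0x2100000,
    nat_lit 0x11100000,nat_lit 0x10100000,nat_lit 0x20100000],[nat_lit 0x2000000,nat_lit 0x12000000,
    nat_lit 0x11000000,nat_lit 0x21000000],[nat_lit 0x20000000,nat_lit 0x30000000]]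
    [.c (nat_lit 1) (nat_lit 2),.c (nat_lit 3) (nat_lit 0x24403),.c (nat_lit 3) (nat_lit 0x2004203),
    .c (nat_lit 0) (nat_lit 0x3003202),.c (nat_lit 2) (nat_lit 0x2030302),.c (nat_lit 0) (nat_lit 0x2403),
    .c (nat_lit 0) (nat_lit 0x3005302),.c (nat_lit 0) (nat_lit 0x20000603),.c (nat_lit 2) (nat_lit 0x2333023),
    .c (nat_lit 3) (nat_lit 0x30002302),.c (nat_lit 0) (nat_lit 0x3020203),.c (nat_lit 0) (nat_lit 0x33002),
    .c (nat_lit 0) (nat_lit 0x33303223),.c (nat_lit 3) (nat_lit 0x24203),.c (nat_lit 0) (nat_lit 0x3200203),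
    .c (nat_lit 0) (nat_lit 0x303002),.c (nat_lit 0) (nat_lit 0x33033223),.c (nat_lit 3) (nat_lit 0x204203),
    .c (nat_lit 0) (nat_lit 0x33333623),.r (nat_lit 0xdb7) (nat_lit 10) [nat_lit 0x300300231,nat_lit 0x200202001],
    .c (nat_lit 0) (nat_lit 0x33333423),.c (nat_lit 1) (nat_lit 514),.c (nat_lit 0) (nat_lit 0x3000203),
    .c (nat_lit 2) (nat_lit 2),.c (nat_lit 0) (nat_lit 0x5007006),.c (nat_lit 3) (nat_lit 0x226232),
    .r (nat_lit 0xdb7) (nat_lit 10) [nat_lit 0x2300021,nat_lit 0x200202001],.c (nat_lit 0) (nat_lit 0x62606676),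
    .c (nat_lit 0) (nat_lit 0x73070006),.c (nat_lit 2) (nat_lit 0x2030002),
    .r (nat_lit 0xdb7) (nat_lit 10) [nat_lit 33,nat_lit 0x200202001],.c (nat_lit 0) (nat_lit 0x62066676),
    .c (nat_lit 0) (nat_lit 0x72777767),.r (nat_lit 0xdb7) (nat_lit 10) [nat_lit 0x503555431,nat_lit 0x200202001],
    .c (nat_lit 3) (nat_lit 0x2004003),.c (nat_lit 2) (nat_lit 0x2300002),
    .r (nat_lit 0xdb7) (nat_lit 10) [nat_lit 0x2000021,nat_lit 0x200202001],.c (nat_lit 3) (nat_lit 2),
    .c (nat_lit 0) (nat_lit 0x5007002),.r (nat_lit 0xdb7) (nat_lit 10) [nat_lit 0x222020031,nat_lit 0x200202001],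
    .c (nat_lit 2) (nat_lit 0x32330323),.c (nat_lit 0) (nat_lit 0x2005),.c (nat_lit 4) (nat_lit 2),
    .r (nat_lit 0xa5c) (nat_lit 10) [nat_lit 0x660001,nat_lit 33,nat_lit 0x660000031,nat_lit 0xd77770621,
    nat_lit 0xc666c6731],.c (nat_lit 3) (nat_lit 0x50034002),.c (nat_lit 3) (nat_lit 0x50304002),
    .r (nat_lit 0xdb7) (nat_lit 10) [nat_lit 0x222333232,nat_lit 0x200202001],
    .r (nat_lit 0xdb7) (nat_lit 10) [nat_lit 0x422000031,nat_lit 0x200202001],.c (nat_lit 0) (nat_lit 0x40060007),
    .c (nat_lit 0) (nat_lit 0x900d0006),.c (nat_lit 0) (nat_lit 0x90770006),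
    .r (nat_lit 0xdb7) (nat_lit 10) [nat_lit 0x33231,nat_lit 0x200202001],.c (nat_lit 0) (nat_lit 0x40600007),
    .c (nat_lit 0) (nat_lit 0x90d00006),.r (nat_lit 0xdb7) (nat_lit 10) [nat_lit 0x2333231,nat_lit 0x200202001],
    .r (nat_lit 0xdba) (nat_lit 14) [nat_lit 0x2020001,nat_lit 33],.r (nat_lit 332) (nat_lit 1) [nat_lit 0x953555441,
    nat_lit 0xa44444571,nat_lit 0x533330221,nat_lit 0x220000031,nat_lit 0x844464551,nat_lit 33],
    .c (nat_lit 2) (nat_lit 0x2333323),.c (nat_lit 0) (nat_lit 0x20000007),.c (nat_lit 5) (nat_lit 2),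
    .c (nat_lit 3) (nat_lit 0x224003),.c (nat_lit 0) (nat_lit 0x33323323),.c (nat_lit 2) (nat_lit 0x50535543),
    .c (nat_lit 0) (nat_lit 0x55525545),.c (nat_lit 0) (nat_lit 0x3020003),.c (nat_lit 3) (nat_lit 0x24003),
    .c (nat_lit 6) (nat_lit 2),.c (nat_lit 0) (nat_lit 0x33233323),.c (nat_lit 2) (nat_lit 0x50355543),
    .c (nat_lit 0) (nat_lit 0x55255545),.c (nat_lit 0) (nat_lit 0x3200003),.c (nat_lit 3) (nat_lit 0x204003),
    .c (nat_lit 7) (nat_lit 2),.r (nat_lit 0xdba) (nat_lit 14) [nat_lit 0x2020001,nat_lit 0x422222321],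
    .c (nat_lit 0) (nat_lit 0x33333329),.c (nat_lit 0) (nat_lit 0x33333325),.c (nat_lit 8) (nat_lit 2),
    .c (nat_lit 0) (nat_lit 0x3000003)]]

end Pool.Agent.Lib_MP_fa6e45
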