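import Pool.Agent.Lib_MP_fa6e45.DQ8k_0d
import Pool.Agent.Lib_MP_fa6e45.RD8k_9

/-!
MP_fa6e45_co, stage 9: straight-side patterns with `8` sides, part of a certificate (generated by a program).
-/

namespace Pool.Agent.Lib_MP_fa6e45

theorem cD8k_0_k9_0 : allI cD8k_0_c (rjL dJ cD8k_0_q rD8k_9_0) 3566 = true := by
  decide +kernel

theorem cD8k_0_k9_1 : allI cD8k_0_c (rjL dJ cD8k_0_q rD8k_9_1) 3567 = true := by
  decide +kernel

/-- nodes -/
noncomputable def cD8k_0_n9 : List (QJ PN) :=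
  rjL dJ cD8k_0_q rD8k_9_0 ++ rjL dJ cD8k_0_q rD8k_9_1

theorem cD8k_0_k9 : allI cD8k_0_c cD8k_0_n9 3566 = true := by
  refine allI_appQ (k := 1) cD8k_0_k9_0 (by decide +kernel) ?_
  exact cD8k_0_k9_1

theorem cD8k_0_l9 : cD8k_0_n9.length = 2 := by
  decide +kernel

end Pool.Agent.Lib_MP_fa6e45
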