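import Pool.Agent.Lib_MP_fa6e45.RJ1
import Pool.Agent.Lib_MP_fa6e45.CJ3
import Pool.Agent.Lib_MP_fa6e45.DQ8kT
import Pool.Agent.Lib_MP_fa6e45.RD8k_d0
import Pool.Agent.Lib_MP_fa6e45.RD8k_d1
import Pool.Agent.Lib_MP_fa6e45.RD8k_d2
import Pool.Agent.Lib_MP_fa6e45.RD8k_d3
import Pool.Agent.Lib_MP_fa6e45.RD8k_d4
import Pool.Agent.Lib_MP_fa6e45.RD8k_d5
import Pool.Agent.Lib_MP_fa6e45.RD8k_d6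
import Pool.Agent.Lib_MP_fa6e45.RD8k_d7
import Pool.Agent.Lib_MP_fa6e45.RD8k_d8
import Pool.Agent.Lib_MP_fa6e45.RD8k_d9
import Pool.Agent.Lib_MP_fa6e45.RD8k_d10
import Pool.Agent.Lib_MP_fa6e45.RD8k_d11
import Pool.Agent.Lib_MP_fa6e45.RD8k_d12
import Pool.Agent.Lib_MP_fa6e45.RD8k_d13
import Pool.Agent.Lib_MP_fa6e45.RD8k_d14
import Pool.Agent.Lib_MP_fa6e45.RD8k_d15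

/-!
MP_fa6e45_co, stage 9: straight-side patterns with `8` sides, data of a certificate (generated by a program).
-/

namespace Pool.Agent.Lib_MP_fa6e45

/-- classes `0 0 0 0 0 0 0 0` -/
noncomputable def cD8k_0_w : List ℕ := [k0,k0,k0,k0,k0,k0,k0,k0]

/-- symmetries -/
noncomputable def cD8k_0_s : List (Bool × ℕ × List ℕ) :=
  [(true,k6,[k6,k5,k4,k3,k2,k1,k0,k7]),(true,k4,[k4,k3,k2,k1,k0,k7,k6,k5]),(true,k5,[k5,k4,k3,k2,k1,k0,k7,k6]),(false,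
    k5,[k5,k6,k7,k0,k1,k2,k3,k4]),(true,k7,[k7,k6,k5,k4,k3,k2,k1,k0]),(false,k7,[k7,k0,k1,k2,k3,k4,k5,k6]),(false,k4,
    [k4,k5,k6,k7,k0,k1,k2,k3]),(true,k3,[k3,k2,k1,k0,k7,k6,k5,k4]),(false,k2,[k2,k3,k4,k5,k6,k7,k0,k1]),(true,k0,[k0,
    k7,k6,k5,k4,k3,k2,k1]),(false,k3,[k3,k4,k5,k6,k7,k0,k1,k2]),(false,k0,[k0,k1,k2,k3,k4,k5,k6,k7]),(true,k2,[k2,k1,
    k0,k7,k6,k5,k4,k3]),(false,k1,[k1,k2,k3,k4,k5,k6,k7,k0]),(false,k6,[k6,k7,k0,k1,k2,k3,k4,k5]),(true,k1,[k1,k0,k7,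
    k6,k5,k4,k3,k2])]

/-- steps -/
noncomputable def cD8k_0_t : List (ℕ × ℕ × ℕ × ℕ × ℕ × ℕ) :=
  [(k0,k46,k0,k0,k2,k14),(k1,254,k0,k1,k15,k14),(k2,k78,k0,k2,k4,k14),(k3,k30,k0,k3,k1,k14),(k4,k110,k0,k4,k6,k14),
    (k5,k62,k0,k5,k3,k14),(k6,k142,k0,k6,k8,k14),(k7,k94,k0,k7,k5,k14),(k8,k174,k0,k8,k10,k14),(k9,k126,k0,k9,k7,k14),
    (k10,206,k0,k10,k12,k14),(k11,k158,k0,k11,k9,k14),(k12,238,k0,k12,k14,k14),(k13,k190,k0,k13,k11,k14),(k14,k14,k0,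
    k14,k0,k14),(k15,222,k0,k15,k13,k14),(k16,k35,k1,k0,k2,k3),(k17,243,k1,k1,k15,k3),(k18,k67,k1,k2,k4,k3),(k19,k19,
    k1,k3,k1,k3),(k20,k99,k1,k4,k6,k3),(k21,k51,k1,k5,k3,k3),(k22,k131,k1,k6,k8,k3),(k23,k83,k1,k7,k5,k3),(k24,k163,
    k1,k8,k10,k3),(k25,k115,k1,k9,k7,k3),(k26,k195,k1,k10,k12,k3),(k27,k147,k1,k11,k9,k3),(k28,227,k1,k12,k14,k3),
    (k29,k179,k1,k13,k11,k3),(k31,211,k1,k15,k13,k3),(k32,k32,k2,k0,k2,k0),(k33,240,k2,k1,k15,k0),(k34,k64,k2,k2,k4,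
    k0),(k36,k96,k2,k4,k6,k0),(k37,k48,k2,k5,k3,k0),(k38,k128,k2,k6,k8,k0),(k39,k80,k2,k7,k5,k0),(k40,k160,k2,k8,k10,
    k0),(k41,k112,k2,k9,k7,k0),(k42,k192,k2,k10,k12,k0),(k43,k144,k2,k11,k9,k0),(k44,224,k2,k12,k14,k0),(k45,k176,k2,
    k13,k11,k0),(k47,208,k2,k15,k13,k0),(k49,245,k3,k1,k15,k5),(k50,k69,k3,k2,k4,k5),(k52,k101,k3,k4,k6,k5),(k53,k53,
    k3,k5,k3,k5),(k54,k133,k3,k6,k8,k5),(k55,k85,k3,k7,k5,k5),(k56,k165,k3,k8,k10,k5),(k57,k117,k3,k9,k7,k5),(k58,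
    k197,k3,k10,k12,k5),(k59,k149,k3,k11,k9,k5),(k60,229,k3,k12,k14,k5),(k61,k181,k3,k13,k11,k5),(k63,213,k3,k15,k13,
    k5),(k65,242,k4,k1,k15,k2),(k66,k66,k4,k2,k4,k2),(k68,k98,k4,k4,k6,k2),(k70,k130,k4,k6,k8,k2),(k71,k82,k4,k7,k5,
    k2),(k72,k162,k4,k8,k10,k2),(k73,k114,k4,k9,k7,k2),(k74,k194,k4,k10,k12,k2),(k75,k146,k4,k11,k9,k2),(k76,226,k4,
    k12,k14,k2),(k77,k178,k4,k13,k11,k2),(k79,210,k4,k15,k13,k2),(k81,247,k5,k1,k15,k7),(k84,k103,k5,k4,k6,k7),(k86,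
    k135,k5,k6,k8,k7),(k87,k87,k5,k7,k5,k7),(k88,k167,k5,k8,k10,k7),(k89,k119,k5,k9,k7,k7),(k90,k199,k5,k10,k12,k7),
    (k91,k151,k5,k11,k9,k7),(k92,231,k5,k12,k14,k7),(k93,k183,k5,k13,k11,k7),(k95,215,k5,k15,k13,k7),(k97,244,k6,k1,
    k15,k4),(k100,k100,k6,k4,k6,k4),(k102,k132,k6,k6,k8,k4),(k104,k164,k6,k8,k10,k4),(k105,k116,k6,k9,k7,k4),(k106,
    k196,k6,k10,k12,k4),(k107,k148,k6,k11,k9,k4),(k108,228,k6,k12,k14,k4),(k109,k180,k6,k13,k11,k4),(k111,212,k6,k15,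
    k13,k4),(k113,249,k7,k1,k15,k9),(k118,k137,k7,k6,k8,k9),(k120,k169,k7,k8,k10,k9),(k121,k121,k7,k9,k7,k9),(k122,
    201,k7,k10,k12,k9),(k123,k153,k7,k11,k9,k9),(k124,233,k7,k12,k14,k9),(k125,k185,k7,k13,k11,k9),(k127,217,k7,k15,
    k13,k9),(k129,246,k8,k1,k15,k6),(k134,k134,k8,k6,k8,k6),(k136,k166,k8,k8,k10,k6),(k138,k198,k8,k10,k12,k6),(k139,
    k150,k8,k11,k9,k6),(k140,230,k8,k12,k14,k6),(k141,k182,k8,k13,k11,k6),(k143,214,k8,k15,k13,k6),(k145,251,k9,k1,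
    k15,k11),(k152,k171,k9,k8,k10,k11),(k154,203,k9,k10,k12,k11),(k155,k155,k9,k11,k9,k11),(k156,235,k9,k12,k14,k11),
    (k157,k187,k9,k13,k11,k11),(k159,219,k9,k15,k13,k11),(k161,248,k10,k1,k15,k8),(k168,k168,k10,k8,k10,k8),(k170,200,
    k10,k10,k12,k8),(k172,232,k10,k12,k14,k8),(k173,k184,k10,k13,k11,k8),(k175,216,k10,k15,k13,k8),(k177,253,k11,k1,
    k15,k13),(k186,205,k11,k10,k12,k13),(k188,237,k11,k12,k14,k13),(k189,k189,k11,k13,k11,k13),(k191,221,k11,k15,k13,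
    k13),(k193,250,k12,k1,k15,k10),(202,202,k12,k10,k12,k10),(204,234,k12,k12,k14,k10),(207,218,k12,k15,k13,k10),(209,
    255,k13,k1,k15,k15),(220,239,k13,k12,k14,k15),(223,223,k13,k15,k13,k15),(225,252,k14,k1,k15,k12),(236,236,k14,k12,
    k14,k12),(241,241,k15,k1,k15,k1)]

/-- equations of the nodes -/
noncomputable def cD8k_0_D : List (List (List (List (ℕ × ℕ)))) :=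
  [cD8k_0_D0, cD8k_0_D1, cD8k_0_D2, cD8k_0_D3, cD8k_0_D4, cD8k_0_D5, cD8k_0_D6, cD8k_0_D7, cD8k_0_D8, cD8k_0_D9,
     cD8k_0_D10, cD8k_0_D11, cD8k_0_D12, cD8k_0_D13, cD8k_0_D14, cD8k_0_D15, cD8k_0_D16, cD8k_0_D17, cD8k_0_D18,
     cD8k_0_D19, cD8k_0_D20, cD8k_0_D21, cD8k_0_D22, cD8k_0_D23, cD8k_0_D24]

/-- other nodes -/
noncomputable def cD8k_0_q0 : List (QJ PN) :=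
  [.i (.h (.n (.q (.old [([z0,z0,z0,z0,z2,z1,z0,z0],z2),([z0,z0,z0,z1,z0,z0,z1,z0],z2),([z0,z1,z0,z0,z0,z0,z0,z1],z2),
    ([z0,z1,z1,z0,z0,z0,z0,z0],z2),([z2,z1,z0,z0,z0,z0,z0,z0],z2),([z0,z0,z1,z0,z0,z0,z1,z1],z2)]
    (.z (.x (.old (.tor k0 false k0 [(z1,[z1]),(z1,[z0,z1]),(z1,[z0,z0,z0,z0,z0,z1]),(z1,[y1,y1,y1,z0,y1,y1,z2]),(z1,
    [z0,z0,z1]),(z1,[z0,z0,z0,z1]),(z1,[z0,y1,z0,y1,z0,z0,z1]),(z1,[z0,z0,z0,z0,z1])])))))))),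
    .i (.h (.n (.q (.old [([z0,z0,z0,z0,z0,z1,z0,z1],z2),([z0,z0,z0,z0,z1,z0,z1,z0],z2),([z0,z0,z0,z2,z0,z1,z0,z0],
    z2),([z0,z0,z1,z0,z1,z0,z0,z0],z2),([z0,z1,z0,z0,z0,z1,z0,z0],z2),([z0,z1,z1,z0,z0,z0,z0,z1],z2)]
    (.z (.x (.old (.tor k1 false k0 [(z1,[z1]),(z1,[z0,z1]),(z1,[z0,z0,z1]),(z1,[z0,z0,z0,z1]),(z1,[z0,z0,z0,z0,z1]),
    (z1,[z0,z0,z0,z0,z0,z1]),(z1,[y1,z0,z0,y1,z0,z0,z1]),(z1,[z0,y1,y1,y1,y1,y1,z2])])))))))),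
    .i (.h (.n (.q (.old [([z0,z0,z0,z0,z1,z0,z1,z0],z2),([z0,z0,z0,z1,z0,z0,z0,z1],z2),([z0,z0,z1,z0,z0,z2,z0,z0],
    z2),([z0,z1,z0,z0,z0,z0,z1,z0],z2),([z1,z0,z0,z1,z0,z0,z0,z0],z2),([z0,z1,z0,z1,z1,z0,z0,z0],z2)]
    (.z (.x (.old (.tor k2 false k0 [(z1,[z1]),(z1,[z0,z1]),(z1,[z0,z0,z1]),(z1,[z0,z0,z0,z1]),(z1,[z0,z0,z0,z0,z0,
    z1]),(z1,[z0,z0,z0,z0,z1]),(z1,[y1,z0,y1,y1,y1,y1,z2]),(z1,[z0,y1,z0,y1,z0,z0,z1])])))))))),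
    .i (.h (.n (.q (.old [([z0,z0,z0,z1,z0,z0,z0,z1],z2),([z0,z1,z0,z0,z0,z0,z1,z0],z2),([z0,z0,z0,z1,z1,z1,z0,z0],
    z2),([z0,z0,z1,z0,z1,z0,z1,z0],z2)]
    (.z (.x (.old (.tor k3 false k0 [(z1,[z1]),(z1,[z0,z0,z1]),(z1,[z0,z0,z0,z1]),(z1,[z0,z1]),(z1,[z0,y1,y1,z0,z1]),
    (z1,[y1,z0,z0,y1,z1])])))))))),
    .i (.h (.n (.q (.old [([z2,z0,z0,z0,z0,z0,z0,y1],z0),([z0,z1,z0,z0,z0,z0,z0,z1],z2),([z0,z0,z0,z0,z0,z2,z0,y1],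
    z0),([z0,z0,z0,z0,z0,z0,z2,z1],z4),([z0,z0,z0,z4,z0,z0,z0,z1],z4),([z0,z0,z0,z0,z8,z0,z0,y1],z4)]
    (.z (.num k1 z8 k7 [(z0,z4),(z16,y8),(z4,y3),(z8,y2),(z4,z1),(z0,z4),(z16,y4),(z0,z8)] [(z1,[z4]),(z1,[z0,z8]),
    (z1,[y4,y8,y4,y4,y2,y1,z8]),(z1,[z0,z0,z0,z0,z2]),(z1,[z0,z0,z0,z0,z0,z1]),(z1,[z0,z0,z4]),(z1,[z0,z0,z0,z4]),(z1,
    [])]
    (.spl (.spl (.spl (.dir 12 11 []) (.spl (.dir 11 13 []) (.spl (.dir 12 10 []) (.dir 12 10 [])))) (.spl (.spl (.spl (.spl (.dir 11 11 []) (.spl (.spl (.dir 10 12 []) (.spl (.dir 9 12 []) (.spl (.dir 8 11 [.z1 2]) (.dir 8 10 [.z2 1 4,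
     .z2 5 6])))) (.spl (.spl (.dir 7 8 []) (.dir 9 2 [])) (.dir 3 12 [])))) (.spl (.dir 3 12 []) (.dir 5 8 []))) (.dir 5 8 [])) (.dir 5 8 []))) (.dir 5 8 [.p1 0 1 ⟨⟨1048576,
     2097152, 16, 0, []⟩, ⟨3, 26, 0, 0, [(2, true, 16)]⟩⟩, .p1 1 1 ⟨⟨1, 2, 0, 0, []⟩, ⟨1, 14, 0, 0, []⟩⟩,
     .p2 2 4 0 0 ⟨⟨3, 38, 0, 0, [(2, true, 7)]⟩, ⟨1048576, 1048576, 7, 0, []⟩⟩ ⟨⟨8, 96, 0, 0, [(7, true, 1)]⟩, ⟨3, 8,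
     0, 0, [(2, true, 1)]⟩⟩, .p2 3 5 0 0 ⟨⟨3, 22, 0, 0, [(2, true, 5)]⟩, ⟨8, 16, 0, 0, [(7, true, 5)]⟩⟩ ⟨⟨3, 40, 0, 0,
     [(2, true, 5)]⟩, ⟨1048576, 1048576, 5, 0, []⟩⟩, .p1 6 0 ⟨⟨3, 22, 0, 0, [(2, true, 8)]⟩, ⟨1048576, 6291456, 8, 0,
     []⟩⟩, .p1 7 0 ⟨⟨8, 16, 0, 0, [(7, true, 8)]⟩, ⟨3, 10, 0, 0, [(2, true, 8)]⟩⟩])))))))),
    .i (.h (.n (.q (.old [([z0,z3,z0,z0,z0,z0,z0,z0],z2),([z0,z0,z0,z0,z1,z0,z0,z1],z2),([z3,z0,z0,z0,z0,z0,z0,y3],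
    y2),([z0,z0,z0,z6,z0,z0,z0,z3],z4),([z0,z0,z0,z0,z0,z0,z3,y3],y2),([z0,z0,z0,z0,z0,z6,z0,z3],z8)]
    (.z (.num k1 z6 k7 [(y4,z6),(z4,z0),(z16,y6),(z4,y3),(z12,y6),(z8,y3),(y4,z6),(z0,z6)] [(z1,[z0,z0,z2]),(z1,[z2]),
    (z1,[y2,y6,y2,y1,y2,y1,z6]),(z1,[z0,z0,z0,z1]),(z1,[z0,z6]),(z1,[z0,z0,z0,z0,z0,z1]),(z1,[z0,z0,z0,z0,z2]),(z1,
    [])]
    (.spl (.dir 3 12 [.z2 5 7, .p2 0 1 2 0 ⟨⟨6, 12, 0, 0, [(6, true, 24)]⟩, ⟨1048576, 2097152, 0, 24, []⟩⟩ ⟨⟨1, 8, 0,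
     0, []⟩, ⟨1, 4, 0, 0, []⟩⟩, .p2 2 3 2 0 ⟨⟨6, 48, 0, 0, [(6, true, 9)]⟩, ⟨1048576, 1048576, 0, 9, []⟩⟩ ⟨⟨6, 60, 0,
     0, [(6, true, 3)]⟩, ⟨3, 0, 0, 0, [(3, true, 3)]⟩⟩, .p2 4 6 2 0 ⟨⟨3, 0, 0, 0, [(3, true, 3)]⟩, ⟨6, 60, 0, 0, [(6,
     true, 3)]⟩⟩ ⟨⟨3, 30, 0, 0, [(3, true, 3)]⟩, ⟨6, 0, 0, 0, [(6, true,
     3)]⟩⟩]) (.spl (.spl (.spl (.spl (.dir 2 12 []) (.spl (.spl (.dir 3 0 [.z1 0]) (.spl (.dir 0 3 [.z2 1 2]) (.spl (.dir 11 15 []) (.dir 10 6 [])))) (.spl (.spl (.spl (.dir 9 9 [.z2 1 5,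
     .z2 2 6,
     .z1 3]) (.dir 7 12 [])) (.dir 2 6 [.z2 1 6])) (.dir 1 18 [.z1 5])))) (.dir 11 9 [])) (.dir 11 9 [])) .bnd)))))))),
    
    .i (.h (.n (.q (.old [([z0,z0,z0,z0,z0,z1,z0,y1],z0),([z2,z0,z0,z0,z0,z0,z0,y1],z0),([z0,z1,z0,z0,z0,z0,z0,z1],
    z2),([z0,z0,z0,z2,z0,z0,z0,y1],z0),([z0,z0,z0,z0,z0,z0,z2,z1],z4),([z0,z0,z0,z0,z1,z0,z0,z3],z2)]
    (.z (.num k1 z2 k7 [(z0,z1),(z4,y2),(z0,z3),(z0,z1),(z4,y6),(z0,z2),(z4,y1),(z0,z2)] [(z1,[z0,z1]),(z1,[z0,z0,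
    z2]),(z1,[y2,y1,y2,y1,y1,y2,z2]),(z1,[z0,z0,z0,z1]),(z1,[z0,z0,z0,z0,z0,z2]),(z1,[z2]),(z1,[z0,z0,z0,z0,z1]),(z1,
    [])]
    (.dir 2 1 [.z2 0 1, .z2 3 4, .p2 2 5 1 1 ⟨⟨2, 0, 0, 0, [(7, true, 1)]⟩, ⟨6, 20, 0, 0, [(4, true, 1)]⟩⟩ ⟨⟨2, 0, 0,
     0, [(7, true, 3)]⟩, ⟨6, 12, 0, 0, [(4, true, 3)]⟩⟩, .p2 6 7 0 0 ⟨⟨6, 16, 0, 0, [(4, true, 2)]⟩, ⟨2, 0, 0, 0, [(7,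
     true, 2)]⟩⟩ ⟨⟨6, 16, 0, 0, [(4, true, 2)]⟩, ⟨2, 0, 0, 0, [(7, true, 2)]⟩⟩]))))))),
    .i (.h (.n (.q (.old [([z0,z0,z0,z2,z0,z1,z0,z0],z2),([z0,z0,z1,z0,z0,z0,z1,z0],z2),([z0,z0,z1,z0,z1,z0,z0,z0],
    z2),([z0,z1,z0,z0,z0,z0,z0,z1],z2),([z0,z1,z0,z1,z0,z0,z0,z0],z2),([z2,z0,z1,z0,z0,z0,z0,z0],z2)]
    (.z (.x (.old (.tor k4 false k0 [(z1,[y1,y1,z0,y2,z0,y1,z2]),(z1,[z1,z0,z0,z1,y1]),(z1,[z1]),(z1,[z0,z1]),(z1,[z0,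
    z0,z1]),(z1,[z0,z0,z0,z1]),(z1,[z0,z0,z0,z0,z1]),(z1,[y1,y1,y1,y2,z0,z0,z2]),(z1,[z0,z0,z0,z0,z0,z1])])))))))),
    .i (.h (.n (.q (.old [([z0,z0,z0,z0,z3,z0,z0,z0],z2),([z0,z0,z1,z0,z0,z0,z0,z1],z2),([z3,z0,z0,z0,z0,z0,z0,y3],
    y2),([z0,z0,z0,z6,z0,z0,z0,z3],z4),([z0,z0,z0,z0,z0,z0,z6,z3],z4),([z0,z6,z0,z0,z0,z0,z0,z3],z8)]
    (.z (.num k1 z6 k7 [(y4,z6),(z8,y3),(z12,y6),(z4,y3),(z4,z0),(z8,z3),(z4,y3),(z0,z6)] [(z1,[z0,z0,z2]),(z1,[z0,z0,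
    z0,z0,z0,z1]),(z1,[z0,z6]),(z1,[z0,z0,z0,z1]),(z1,[z2]),(z1,[y2,y6,y2,y1,y1,y1,z6]),(z1,[z0,z0,z0,z0,z1]),(z1,[])]
    (.spl (.spl .bnd (.spl (.dir 5 12 [.z1 4, .z1 6]) (.spl (.dir 7 9 [.z1 2,
     .z2 3 7]) (.spl (.spl (.dir 4 12 [.z2 3 4]) (.spl (.dir 4 12 [.z2 3 4]) (.spl (.dir 3 0 [.z1 0]) (.spl (.dir 3 0 [.z1 0]) (.dir 6 9 []))))) (.spl (.spl (.spl (.spl (.spl (.spl (.dir 7 6 [.z2 0 4]) (.dir 6 6 [.z2 0 3])) (.dir 11 12 [.z1 4,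
     .z1 6])) (.dir 4 6 [.z2 1 2])) (.dir 1 9 [.z1 2,
     .z2 3 7])) (.dir 10 12 [.z2 3 4])) (.dir 10 12 [.z2 3 4])))))) (.spl (.spl (.dir 4 6 [.z2 1 2]) (.dir 4 6 [.z2 1 2])) .bnd)))))))),
    
    .i (.h (.n (.q (.old [([z0,z0,z0,z0,z0,z2,z2,z0],z2),([z0,z0,z0,z0,z1,z0,z0,z1],z2),([z0,z0,z1,z1,z0,z0,z0,z0],
    z2),([z0,z1,z0,z0,z0,z0,z0,z1],z2),([z1,z0,z1,z0,z0,z0,z0,z0],z2),([z0,z1,z1,z0,z0,z1,z0,z0],z2)]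
    (.z (.x (.old (.tor k5 false k0 [(z1,[z1]),(z1,[z0,z1]),(z1,[z0,z0,z1]),(z1,[z0,z0,z0,z1]),(z1,[z0,z0,z0,z0,z0,
    z1]),(z1,[z0,y1,z0,z0,z0,y1,z1]),(z1,[z0,z0,z0,z0,z1]),(z1,[y1,y1,y1,y1,y1,z0,z2])])))))))),
    .i (.h (.n (.q (.old [([z0,z0,z0,z0,z1,z0,z1,z0],z2),([z0,z0,z0,z1,z0,z0,z0,z1],z2),([z0,z0,z0,z1,z0,z2,z0,z0],
    z2),([z1,z0,z0,z1,z0,z0,z0,z0],z2),([z0,z0,z0,z0,z0,z1,z1,z1],z2),([z1,z0,z1,z0,z0,z0,z0,z1],z2)]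
    (.z (.x (.old (.tor k6 false k0 [(z1,[z0,z0,z0,z0,z1]),(z1,[z1]),(z1,[z0,z1]),(z1,[z0,z0,z1]),(z1,[z0,z0,z0,y1,y1,
    z0,z1]),(z1,[z0,z0,z0,z1]),(z1,[z0,z0,z0,z0,z0,z1]),(z1,[y2,y1,y1,z0,z0,y1,z2])])))))))),
    .i (.h (.n (.q (.old [([z0,z0,z0,z0,z1,z0,z0,y1],z0),([z2,z0,z0,z0,z0,z0,z0,y1],z0),([z0,z0,z1,z0,z0,z0,z0,z1],
    z2),([z0,z0,z0,z2,z0,z0,z0,y1],z0),([z0,z0,z0,z0,z0,z0,z1,z2],z2),([z0,z2,z0,z0,z0,z0,z0,y3],z0)]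
    (.z (.num k1 z2 k7 [(z0,z1),(z0,z3),(z4,y2),(z0,z1),(z0,z2),(z4,y3),(z4,y4),(z0,z2)] [(z1,[z0,z1]),(z1,[z0,z0,z0,
    z0,z0,z1]),(z1,[z0,z0,z2]),(z1,[z0,z0,z0,z1]),(z1,[z2]),(z1,[y2,y1,y2,y1,y2,y1,z2]),(z1,[z0,z0,z0,z0,z2]),(z1,[])]
    (.spl (.spl (.dir 2 (-1) [.z2 0 3, .z2 2 5, .p2 1 4 0 0 ⟨⟨2, 0, 0, 0, [(7, true, 5)]⟩, ⟨1048576, 1572864, 0, 5,
     []⟩⟩ ⟨⟨4, 12, 0, 0, [(6, true, 1)]⟩, ⟨2, 0, 0, 0, [(7, true, 1)]⟩⟩, .p2 6 7 0 0 ⟨⟨1048576, 1048576, 0, 6, []⟩,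
     ⟨2, 0, 0, 0, [(7, true, 6)]⟩⟩ ⟨⟨4, 8, 0, 0, [(6, true, 2)]⟩, ⟨2, 0, 0, 0, [(7, true,
     2)]⟩⟩]) (.spl (.spl (.dir 1 0 [.z1 0, .z2 2 5]) (.dir 1 (-1) [.z2 1 7, .z1 2, .z1 5])) (.dir 3 (-4) [.z2 2 5,
     .z1 4, .p2 0 6 (-1) 1 ⟨⟨4, 4, 0, 0, [(6, true, 11)]⟩, ⟨1048576, 262144, 11, 0, []⟩⟩ ⟨⟨1048576, 262144, 3, 0, []⟩,
     ⟨4, 12, 0, 0, [(6, true, 3)]⟩⟩, .p1 1 0 ⟨⟨4, 8, 0, 0, [(6, true, 2)]⟩, ⟨2, 0, 0, 0, [(7, true, 2)]⟩⟩,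
     .p2 3 7 (-1) 1 ⟨⟨4, 4, 0, 0, [(6, true, 7)]⟩, ⟨1048576, 1310720, 7, 0, []⟩⟩ ⟨⟨1048576, 262144, 3, 0, []⟩, ⟨4, 12,
     0, 0, [(6, true, 3)]⟩⟩]))) .bnd))))))),
    .i (.h (.n (.q (.old [([z0,z0,z1,z0,z0,z0,z0,y1],z0),([z2,z0,z0,z0,z0,z0,z0,y1],z0),([z0,z0,z0,z1,z0,z0,z0,y2],
    z0),([z0,z0,z0,z0,z0,z1,z0,z2],z2),([z0,z0,z0,z0,z0,z0,z1,z1],z2),([z0,z0,z0,z0,z1,z0,z0,y3],y2)]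
    (.z (.num k1 z2 k7 [(z0,z1),(z8,y9),(z0,z2),(z0,z4),(y4,z6),(z4,y4),(z4,y2),(z0,z2)] [(z1,[z0,z1]),(z1,[y2,y1,y2,
    y2,y2,y2,z2]),(z1,[z2]),(z1,[z0,z0,z2]),(z1,[z0,z0,z0,z0,z0,z2]),(z1,[z0,z0,z0,z2]),(z1,[z0,z0,z0,z0,z2]),(z1,[])]
    (.spl (.spl .bnd (.spl (.spl .bnd (.spl (.dir 2 2 [.z2 3 6]) (.spl (.spl (.dir 2 2 [.z2 3 6]) (.spl (.spl (.dir 2 2 [.z2 3 6]) (.spl (.dir 1 9 [.z1 1,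
     .z2 3 6]) (.spl (.dir 3 6 [.z2 1 3]) (.spl (.dir 2 7 [.z2 3 6]) (.dir 3 5 [.z2 1 5,
     .z2 2 6]))))) (.spl (.spl (.dir 0 3 [.z2 1 4, .z2 3 6]) (.dir 0 8 [.z2 1 2,
     .z2 3 6])) (.dir 2 5 [.z2 2 3])))) (.dir 1 1 [.z2 3 6, .z1 5, .z1 7])))) (.spl (.spl (.dir 1 1 [.z2 3 6, .z1 5,
     .z1 7]) (.dir 2 0 [.z2 3 4])) (.dir 2 5 [.z2 2 3, .p2 0 6 3 1 ⟨⟨1048576, 131072, 7, 0, []⟩, ⟨9, 34, 0, 0, [(1,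
     true, 7)]⟩⟩ ⟨⟨6, 0, 0, 0, [(4, true, 3)]⟩, ⟨9, 30, 0, 0, [(1, true, 3)]⟩⟩, .p1 1 1 ⟨⟨9, 26, 0, 0, [(1, true,
     8)]⟩, ⟨1048576, 1048576, 8, 0, []⟩⟩, .p2 4 5 2 0 ⟨⟨6, 0, 0, 0, [(4, true, 12)]⟩, ⟨9, 12, 0, 0, [(1, true,
     12)]⟩⟩ ⟨⟨6, 16, 0, 0, [(4, true, 4)]⟩, ⟨9, 4, 0, 0, [(1, true, 4)]⟩⟩, .p1 7 1 ⟨⟨1048576, 1048576, 8, 0, []⟩, ⟨9,
     26, 0, 0, [(1, true, 8)]⟩⟩])))) .bnd))))))),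
    .i (.h (.n (.q (.old [([z0,z0,z0,z0,z0,z0,z2,z1],z2),([z0,z0,z0,z1,z1,z0,z0,z0],z2),([z0,z0,z1,z0,z0,z2,z0,z0],
    z2),([z0,z1,z0,z0,z1,z0,z0,z0],z2),([z1,z0,z1,z0,z0,z0,z0,z1],z2)]
    (.z (.x (.old (.tor k7 false k0 [(z1,[z1]),(z1,[z0,z1]),(z1,[z0,z0,z1]),(z1,[z0,z0,z0,z1]),(z1,[z0,z0,z0,z0,z1]),
    (z1,[y1,y1,y1,y1,y1,z2])])))))))),
    .i (.h (.n (.q (.old [([z0,z0,z0,z0,z1,z0,z1,z0],z2),([z0,z0,z0,z1,z0,z0,z0,z2],z2),([z0,z0,z1,z0,z0,z0,z1,z0],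
    z2),([z0,z0,z1,z1,z0,z0,z0,z0],z2),([z0,z1,z0,z0,z0,z2,z0,z0],z2)]
    (.z (.x (.old (.tor k8 false k0 [(z1,[z1]),(z1,[z0,z1]),(z1,[z0,z0,z1]),(z1,[z0,z0,z0,z1]),(z1,[z0,z0,z0,z0,z1]),
    (z1,[y1,y1,y1,y1,y1,z2])])))))))),
    .i (.h (.n (.q (.old [([z0,z0,z0,z0,z0,z1,z2,z0],z2),([z0,z0,z0,z0,z1,z0,z0,z1],z2),([z0,z0,z1,z1,z0,z0,z0,z0],
    z2),([z0,z2,z0,z0,z1,z0,z0,z0],z2),([z2,z0,z0,z1,z0,z0,z0,z0],z2)]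
    (.z (.x (.old (.tor k9 false k0 [(z1,[z1]),(z1,[z0,z1]),(z1,[y1,y1,y1,y1,y1,z2]),(z1,[z0,z0,z1]),(z1,[z0,z0,z0,
    z1]),(z1,[z0,z0,z0,z0,z1])]))))))))]

/-- other nodes -/
noncomputable def cD8k_0_q1 : List (QJ PN) :=
  [.i (.h (.n (.q (.old [([z0,z0,z0,z0,z0,z2,z0,z1],z2),([z0,z0,z0,z0,z2,z0,z1,z0],z2),([z0,z0,z1,z0,z0,z0,z0,z1],z2),
    ([z0,z1,z1,z0,z0,z0,z0,z0],z2),([z1,z0,z0,z2,z0,z0,z0,z0],z2)]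
    (.z (.x (.old (.tor k10 false k0 [(z1,[z1]),(z1,[z0,z1]),(z1,[z0,z0,z1]),(z1,[z0,z0,z0,z1]),(z1,[z0,z0,z0,z0,z1]),
    (z1,[y1,y1,y1,y1,y1,z2])])))))))),
    .i (.h (.n (.q (.old [([z0,z0,z0,z0,z0,z0,z2,z1],z2),([z0,z0,z0,z0,z0,z1,z0,z1],z2),([z0,z0,z2,z1,z0,z0,z0,z0],
    z2),([z1,z0,z0,z0,z0,z1,z0,z0],z2),([z0,z1,z0,z1,z1,z0,z0,z0],z2)]
    (.z (.x (.old (.tor k11 false k0 [(z1,[z1]),(z1,[z0,z1]),(z1,[z0,z0,z1]),(z1,[z0,z0,z0,z0,z1]),(z1,[z0,z0,z0,z1]),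
    (z1,[y1,y1,y1,y1,y1,z2])])))))))),
    .i (.h (.n (.q (.old [([z0,z0,z0,z0,z1,z0,z0,z2],z2),([z0,z0,z0,z1,z0,z0,z1,z0],z2),([z0,z1,z0,z0,z0,z1,z0,z0],
    z2),([z0,z1,z1,z0,z0,z0,z0,z0],z2),([z0,z0,z1,z0,z0,z1,z1,z0],z2)]
    (.z (.x (.old (.tor k12 false k0 [(z1,[z1]),(z1,[z0,z1]),(z1,[z0,z0,z0,z0,z1]),(z1,[z0,z0,z1]),(z1,[z0,z0,z0,z1]),
    (z1,[y1,y1,y1,y1,y1,z2])])))))))),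
    .i (.h (.n (.q (.old [([z0,z0,z0,z2,z0,z0,z1,z0],z2),([z0,z0,z1,z0,z0,z1,z0,z0],z2),([z0,z1,z0,z0,z0,z0,z0,z1],
    z2),([z0,z1,z0,z0,z2,z0,z0,z0],z2),([z2,z0,z0,z0,z0,z1,z0,z0],z2)]
    (.z (.x (.old (.tor k13 false k0 [(z1,[z1]),(z1,[y1,y1,y1,y1,y1,z2]),(z1,[z0,z1]),(z1,[z0,z0,z1]),(z1,[z0,z0,z0,
    z1]),(z1,[z0,z0,z0,z0,z1])])))))))),
    .i (.h (.n (.q (.old [([z0,z0,z0,z0,z0,z0,z1,z2],z2),([z0,z0,z0,z1,z1,z0,z0,z0],z2),([z0,z0,z2,z0,z0,z1,z0,z0],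
    z2),([z0,z1,z0,z1,z0,z0,z0,z0],z2),([z2,z0,z0,z0,z1,z0,z0,z0],z2)]
    (.z (.x (.old (.tor k14 false k0 [(z1,[z1]),(z1,[z0,z1]),(z1,[z0,z0,z1]),(z1,[y1,y1,y1,y1,y1,z2]),(z1,[z0,z0,z0,
    z1]),(z1,[z0,z0,z0,z0,z1])])))))))),
    .i (.h (.n (.q (.old [([z0,z0,z0,z1,z0,z1,z0,z0],z2),([z0,z0,z1,z0,z0,z0,z1,z0],z2),([z1,z0,z0,z0,z0,z1,z0,z0],
    z2),([z0,z1,z0,z0,z0,z0,z1,z1],z2),([z0,z1,z0,z0,z2,z0,z0,z1],z2)]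
    (.z (.x (.old (.tor k15 false k0 [(z1,[z1]),(z1,[z0,z1]),(z1,[z0,z0,z0,z1]),(z1,[z0,z0,z0,z0,z1]),(z1,[z0,z0,z1]),
    (z1,[y1,y1,y1,y1,y1,z2])])))))))),
    .i (.h (.n (.q (.old [([z0,z0,z2,z0,z0,z0,z1,z0],z2),([z0,z1,z0,z1,z0,z0,z0,z0],z2),([z1,z0,z0,z0,z1,z0,z0,z0],
    z2),([z0,z0,z0,z0,z1,z1,z1,z0],z2),([z0,z0,z0,z1,z0,z1,z0,z1],z2)]
    (.z (.x (.old (.tor k16 false k0 [(z1,[z0,z0,z0,z1]),(z1,[z0,z0,z0,z0,z1]),(z1,[z1]),(z1,[z0,z1]),(z1,[z0,z0,z1]),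
    (z1,[y1,y1,y1,y1,y1,z2])])))))))),
    .i (.h (.n (.q (.old [([z0,z0,z0,z0,z1,z1,z0,z0],z2),([z0,z0,z1,z0,z0,z0,z1,z0],z2),([z0,z1,z0,z0,z1,z0,z0,z0],
    z2),([z2,z0,z0,z1,z0,z0,z0,z0],z2),([z0,z0,z0,z1,z0,z0,z1,z2],z2)]
    (.z (.x (.old (.tor k17 false k0 [(z1,[z1]),(z1,[z0,z0,z0,z0,z1]),(z1,[z0,z1]),(z1,[z0,z0,z1]),(z1,[y1,y1,y1,y1,
    y1,z2]),(z1,[z0,z0,z0,z1])])))))))),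
    .i (.h (.n (.q (.old [([z0,z0,z0,z0,z1,z0,z1,z0],z2),([z0,z0,z0,z1,z0,z1,z0,z0],z2),([z0,z1,z0,z0,z0,z0,z1,z0],
    z2),([z0,z0,z1,z0,z0,z1,z0,z1],z2),([z0,z1,z1,z0,z1,z0,z0,z0],z2)]
    (.z (.x (.old (.tor k18 false k0 [(z1,[z1]),(z1,[z0,z1]),(z1,[z0,z0,z0,z1]),(z1,[z0,z0,z1]),(z1,[z0,z0,z0,z0,z1]),
    (z1,[y1,y1,y1,y1,y1,z2])])))))))),
    .i (.h (.n (.q (.old [([z0,z0,z0,z1,z0,z1,z0,z0],z2),([z0,z0,z1,z0,z1,z0,z0,z0],z2),([z2,z0,z0,z0,z0,z1,z0,z0],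
    z2),([z0,z0,z0,z0,z1,z0,z1,z1],z2),([z0,z1,z0,z1,z0,z0,z1,z0],z2)]
    (.z (.x (.old (.tor k19 false k0 [(z1,[z0,z0,z0,z1]),(z1,[z1]),(z1,[z0,z1]),(z1,[z0,z0,z0,z0,z1]),(z1,[y1,y1,y1,
    y1,y1,z2]),(z1,[z0,z0,z1])])))))))),
    .i (.h (.n (.q (.old [([z0,z0,z0,z0,z0,z1,z0,z1],z2),([z0,z0,z1,z0,z0,z0,z2,z0],z2),([z0,z0,z1,z0,z1,z0,z0,z0],
    z2),([z0,z1,z0,z0,z0,z0,z0,z1],z2),([z2,z0,z0,z0,z1,z0,z0,z0],z2)]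
    (.z (.x (.old (.tor k20 false k0 [(z1,[z1]),(z1,[z0,z1]),(z1,[z0,z0,z1]),(z1,[z0,z0,z0,z1]),(z1,[y1,y1,y1,y1,y1,
    z2]),(z1,[z0,z0,z0,z0,z1])])))))))),
    .i (.h (.n (.q (.old [([z0,z0,z0,z2,z0,z0,z0,z1],z2),([z0,z0,z1,z0,z0,z0,z1,z0],z2),([z0,z2,z0,z0,z0,z1,z0,z0],
    z2),([z1,z0,z0,z0,z2,z0,z0,z0],z2),([z1,z0,z1,z0,z0,z0,z0,z0],z2)]
    (.z (.x (.old (.tor k21 false k0 [(z1,[y1,y1,y1,y1,y1,z2]),(z1,[z1]),(z1,[z0,z1]),(z1,[z0,z0,z1]),(z1,[z0,z0,z0,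
    z1]),(z1,[z0,z0,z0,z0,z1])])))))))),
    .i (.h (.n (.q (.old [([z0,z0,z0,z0,z1,z0,z1,z0],z2),([z0,z0,z2,z0,z0,z0,z1,z0],z2),([z0,z1,z0,z1,z0,z0,z0,z0],
    z2),([z1,z0,z0,z0,z1,z0,z0,z0],z2),([z0,z0,z0,z1,z0,z2,z0,z1],z2)]
    (.z (.x (.old (.tor k22 false k0 [(z1,[z1]),(z1,[z0,z0,z0,z0,z1]),(z1,[z0,z1]),(z1,[z0,z0,z1]),(z1,[z0,z0,z0,z1]),
    (z1,[y1,y1,y1,y1,y1,z2])])))))))),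
    .i (.h (.n (.q (.old [([z0,z0,z0,z0,z1,z0,z1,z0],z2),([z0,z0,z0,z1,z0,z0,z0,z2],z2),([z0,z0,z1,z0,z0,z0,z1,z0],
    z2),([z0,z1,z0,z0,z0,z2,z0,z0],z2),([z0,z1,z0,z1,z0,z0,z0,z0],z2)]
    (.z (.x (.old (.tor k23 false k0 [(z1,[z1]),(z1,[z0,z1]),(z1,[z0,z0,z1]),(z1,[z0,z0,z0,z1]),(z1,[z0,z0,z0,z0,z1]),
    (z1,[y1,y1,y1,y1,y1,z2])])))))))),
    .i (.h (.n (.q (.old [([z0,z0,z0,z0,z1,z0,z1,z0],z2),([z0,z0,z0,z1,z0,z0,z0,z2],z2),([z0,z0,z2,z0,z0,z0,z1,z0],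
    z2),([z0,z1,z0,z0,z0,z2,z0,z0],z2),([z0,z1,z0,z1,z0,z0,z0,z0],z2)]
    (.z (.x (.old (.tor k24 false k0 [(z1,[z1]),(z1,[z0,z1]),(z1,[z0,z0,z1]),(z1,[z0,z0,z0,z1]),(z1,[z0,z0,z0,z0,z1]),
    (z1,[y1,y1,y1,y1,y1,z2])])))))))),
    .i (.h (.n (.q (.old [([z0,z0,z0,z0,z1,z0,z0,z2],z2),([z0,z0,z0,z1,z0,z0,z1,z0],z2),([z0,z1,z1,z0,z0,z0,z0,z0],
    z2),([z1,z0,z0,z0,z0,z0,z1,z0],z2),([z0,z1,z0,z0,z1,z1,z0,z0],z2)]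
    (.z (.x (.old (.tor k25 false k0 [(z1,[z1]),(z1,[z0,z1]),(z1,[z0,z0,z0,z0,z1]),(z1,[z0,z0,z1]),(z1,[z0,z0,z0,z1]),
    (z1,[y1,y1,y1,y1,y1,z2])]))))))))]

/-- other nodes -/
noncomputable def cD8k_0_q2 : List (QJ PN) :=
  [.i (.h (.n (.q (.old [([z0,z0,z0,z0,z0,z0,z1,z1],z2),([z0,z1,z2,z0,z0,z0,z0,z0],z2),([z1,z0,z0,z1,z0,z0,z0,z0],z2),
    ([z0,z0,z0,z0,z1,z1,z1,z0],z2),([z0,z1,z0,z1,z0,z1,z0,z0],z2)]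
    (.z (.x (.old (.tor k26 false k0 [(z1,[z1]),(z1,[z0,z0,z0,z1]),(z1,[z0,z0,z0,z0,z1]),(z1,[z0,z1]),(z1,[y1,y1,y1,
    y1,y1,z2]),(z1,[z0,z0,z1])])))))))),
    .i (.h (.n (.q (.old [([z0,z0,z0,z1,z0,z1,z0,z0],z2),([z0,z0,z1,z0,z0,z0,z0,z1],z2),([z1,z2,z0,z0,z0,z0,z0,z0],
    z2),([z0,z0,z0,z0,z1,z1,z1,z0],z2),([z0,z0,z0,z1,z0,z0,z1,z1],z2)]
    (.z (.x (.old (.tor k27 false k0 [(z1,[z0,z0,z0,z1]),(z1,[z0,z0,z0,z0,z1]),(z1,[z1]),(z1,[z0,z1]),(z1,[y1,y1,y1,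
    y1,y1,z2]),(z1,[z0,z0,z1])])))))))),
    .i (.h (.n (.q (.old [([z0,z0,z0,z0,z0,z2,z1,z0],z2),([z0,z0,z1,z1,z0,z0,z0,z0],z2),([z0,z1,z0,z0,z0,z0,z0,z1],
    z2),([z0,z1,z0,z0,z2,z0,z0,z0],z2),([z2,z0,z0,z1,z0,z0,z0,z0],z2)]
    (.z (.x (.old (.tor k28 false k0 [(z1,[z1]),(z1,[y1,y1,y1,y1,y1,z2]),(z1,[z0,z1]),(z1,[z0,z0,z1]),(z1,[z0,z0,z0,
    z1]),(z1,[z0,z0,z0,z0,z1])])))))))),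
    .i (.h (.n (.q (.old [([z0,z0,z0,z0,z1,z0,z1,z0],z2),([z0,z0,z0,z1,z0,z0,z0,z1],z2),([z0,z1,z0,z0,z0,z2,z0,z0],
    z2),([z0,z1,z1,z0,z0,z0,z0,z1],z2),([z1,z0,z0,z1,z1,z0,z0,z0],z2)]
    (.z (.x (.old (.tor k29 false k0 [(z1,[z1]),(z1,[z0,z1]),(z1,[z0,z0,z1]),(z1,[z0,z0,z0,z1]),(z1,[z0,z0,z0,z0,z1]),
    (z1,[y1,y1,y1,y1,y1,z2])])))))))),
    .i (.h (.n (.q (.old [([z0,z0,z0,z0,z0,z1,z0,z1],z2),([z0,z0,z0,z1,z1,z0,z0,z0],z2),([z0,z1,z0,z0,z0,z0,z2,z0],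
    z2),([z0,z1,z1,z0,z0,z0,z0,z1],z2),([z1,z0,z0,z0,z1,z1,z0,z0],z2)]
    (.z (.x (.old (.tor k30 false k0 [(z1,[z1]),(z1,[z0,z1]),(z1,[z0,z0,z1]),(z1,[z0,z0,z0,z1]),(z1,[z0,z0,z0,z0,z1]),
    (z1,[y1,y1,y1,y1,y1,z2])])))))))),
    .i (.h (.n (.q (.old [([z0,z0,z0,z0,z1,z0,z0,z1],z2),([z0,z0,z0,z1,z0,z0,z2,z0],z2),([z0,z0,z1,z0,z0,z1,z0,z0],
    z2),([z0,z0,z1,z1,z0,z0,z0,z0],z2),([z0,z2,z0,z0,z1,z0,z0,z0],z2)]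
    (.z (.x (.old (.tor k31 false k0 [(z1,[z1]),(z1,[z0,z1]),(z1,[z0,z0,z1]),(z1,[z0,z0,z0,z1]),(z1,[z0,z0,z0,z0,z1]),
    (z1,[y1,y1,y1,y1,y1,z2])])))))))),
    .i (.h (.n (.q (.old [([z0,z0,z0,z1,z1,z0,z0,z0],z2),([z0,z0,z2,z0,z0,z1,z0,z0],z2),([z0,z2,z0,z0,z0,z0,z1,z0],
    z2),([z1,z0,z0,z0,z0,z1,z0,z0],z2),([z0,z0,z0,z1,z0,z0,z1,z1],z2)]
    (.z (.x (.old (.tor k32 false k0 [(z1,[z0,z0,z0,z0,z1]),(z1,[z1]),(z1,[z0,z1]),(z1,[z0,z0,z1]),(z1,[z0,z0,z0,z1]),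
    (z1,[y1,y1,y1,y1,y1,z2])])))))))),
    .i (.h (.n (.q (.old [([z0,z0,z0,z1,z1,z0,z0,z0],z2),([z0,z0,z1,z0,z0,z0,z0,z1],z2),([z0,z0,z1,z0,z0,z2,z0,z0],
    z2),([z0,z2,z0,z0,z0,z0,z1,z0],z2),([z2,z0,z0,z1,z0,z0,z0,z0],z2)]
    (.z (.x (.old (.tor k33 false k0 [(z1,[y1,y1,y1,y1,y1,z2]),(z1,[z1]),(z1,[z0,z1]),(z1,[z0,z0,z1]),(z1,[z0,z0,z0,
    z1]),(z1,[z0,z0,z0,z0,z1])])))))))),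
    .i (.h (.n (.q (.old [([z0,z0,z0,z0,z0,z1,z1,z0],z2),([z0,z0,z0,z0,z2,z0,z0,z1],z2),([z0,z0,z1,z2,z0,z0,z0,z0],
    z2),([z0,z1,z0,z0,z0,z0,z0,z1],z2),([z1,z0,z0,z0,z0,z1,z0,z0],z2)]
    (.z (.x (.old (.tor k34 false k0 [(z1,[z1]),(z1,[z0,z1]),(z1,[z0,z0,z1]),(z1,[z0,z0,z0,z1]),(z1,[z0,z0,z0,z0,z1]),
    (z1,[y1,y1,y1,y1,y1,z2])])))))))),
    .i (.h (.n (.q (.old [([z0,z0,z0,z1,z0,z0,z1,z0],z2),([z0,z0,z0,z1,z1,z0,z0,z0],z2),([z0,z0,z2,z0,z0,z1,z0,z0],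
    z2),([z0,z2,z0,z0,z0,z0,z1,z0],z2),([z1,z0,z0,z0,z0,z1,z0,z0],z2)]
    (.z (.x (.old (.tor k35 false k0 [(z1,[z1]),(z1,[z0,z1]),(z1,[z0,z0,z1]),(z1,[z0,z0,z0,z1]),(z1,[z0,z0,z0,z0,z1]),
    (z1,[y1,y1,y1,y1,y1,z2])])))))))),
    .i (.h (.n (.q (.old [([z0,z0,z0,z0,z0,z0,z1,z2],z2),([z0,z0,z0,z0,z0,z1,z1,z0],z2),([z0,z0,z1,z0,z1,z0,z0,z0],
    z2),([z0,z2,z0,z1,z0,z0,z0,z0],z2),([z2,z0,z1,z0,z0,z0,z0,z0],z2)]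
    (.z (.x (.old (.tor k36 false k0 [(z1,[z1]),(z1,[z0,z1]),(z1,[y1,y1,y1,y1,y1,z2]),(z1,[z0,z0,z1]),(z1,[z0,z0,z0,
    z1]),(z1,[z0,z0,z0,z0,z1])])))))))),
    .i (.h (.n (.q (.old [([z0,z0,z0,z0,z1,z0,z1,z0],z2),([z0,z0,z0,z1,z0,z0,z0,z2],z2),([z0,z0,z0,z1,z1,z0,z0,z0],
    z2),([z0,z0,z1,z0,z0,z0,z1,z0],z2),([z2,z1,z0,z0,z0,z0,z0,z0],z2)]
    (.z (.x (.old (.tor k37 false k0 [(z1,[z1]),(z1,[z0,z1]),(z1,[z0,z0,z1]),(z1,[z0,z0,z0,z1]),(z1,[y1,y1,y1,y1,y1,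
    z2]),(z1,[z0,z0,z0,z0,z1])])))))))),
    .i (.h (.n (.q (.old [([z0,z0,z0,z0,z0,z1,z1,z0],z2),([z0,z0,z0,z1,z0,z1,z0,z0],z2),([z0,z0,z1,z0,z1,z0,z0,z0],
    z2),([z0,z2,z0,z1,z0,z0,z0,z0],z2),([z2,z0,z1,z0,z0,z0,z0,z0],z2)]
    (.z (.x (.old (.tor k38 false k0 [(z1,[z1]),(z1,[y1,y1,y1,y1,y1,z2]),(z1,[z0,z1]),(z1,[z0,z0,z1]),(z1,[z0,z0,z0,
    z1]),(z1,[z0,z0,z0,z0,z1])])))))))),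
    .i (.h (.n (.q (.old [([z0,z0,z0,z0,z0,z0,z1,z1],z2),([z0,z0,z1,z0,z0,z1,z0,z0],z2),([z0,z2,z0,z0,z1,z0,z0,z0],
    z2),([z1,z0,z1,z0,z0,z0,z0,z0],z2),([z1,z0,z0,z1,z0,z0,z0,z1],z2)]
    (.z (.x (.old (.tor k39 false k0 [(z1,[z1]),(z1,[y1,y1,y1,y1,y1,z2]),(z1,[z0,z1]),(z1,[z0,z0,z1]),(z1,[z0,z0,z0,
    z0,z1]),(z1,[z0,z0,z0,z1])])))))))),
    .i (.h (.n (.q (.old [([z0,z0,z0,z0,z2,z0,z1,z0],z2),([z0,z0,z0,z1,z0,z2,z0,z0],z2),([z0,z0,z1,z0,z0,z0,z1,z0],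
    z2),([z0,z1,z0,z0,z0,z0,z0,z1],z2),([z2,z1,z0,z0,z0,z0,z0,z0],z2)]
    (.z (.x (.old (.tor k40 false k0 [(z1,[z1]),(z1,[z0,z1]),(z1,[z0,z0,z1]),(z1,[y1,y1,y1,y1,y1,z2]),(z1,[z0,z0,z0,
    z1]),(z1,[z0,z0,z0,z0,z1])])))))))),
    .i (.h (.n (.q (.old [([z0,z0,z0,z0,z0,z1,z1,z0],z2),([z0,z0,z0,z2,z0,z1,z0,z0],z2),([z0,z0,z1,z0,z0,z0,z1,z0],
    z2),([z0,z1,z0,z0,z0,z0,z0,z1],z2),([z2,z1,z0,z0,z0,z0,z0,z0],z2)]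
    (.z (.x (.old (.tor k41 false k0 [(z1,[z1]),(z1,[z0,z1]),(z1,[z0,z0,z1]),(z1,[y1,y1,y1,y1,y1,z2]),(z1,[z0,z0,z0,
    z1]),(z1,[z0,z0,z0,z0,z1])]))))))))]

/-- other nodes -/
noncomputable def cD8k_0_q3 : List (QJ PN) :=
  [.i (.h (.n (.q (.old [([z0,z0,z0,z0,z0,z1,z1,z0],z2),([z0,z0,z1,z2,z0,z0,z0,z0],z2),([z0,z1,z0,z0,z0,z0,z0,z1],z2),
    ([z0,z1,z0,z0,z1,z0,z0,z0],z2),([z1,z0,z0,z0,z0,z0,z1,z1],z2)]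
    (.z (.x (.old (.tor k42 false k0 [(z1,[z1]),(z1,[z0,z1]),(z1,[z0,z0,z1]),(z1,[z0,z0,z0,z1]),(z1,[z0,z0,z0,z0,z1]),
    (z1,[y1,y1,y1,y1,y1,z2])])))))))),
    .i (.h (.n (.q (.old [([z0,z0,z0,z0,z0,z1,z0,z1],z2),([z0,z0,z0,z0,z2,z0,z1,z0],z2),([z0,z0,z0,z2,z0,z1,z0,z0],
    z2),([z0,z1,z0,z0,z0,z0,z0,z1],z2),([z1,z0,z0,z0,z0,z0,z1,z0],z2)]
    (.z (.x (.old (.tor k43 false k0 [(z1,[z1]),(z1,[z0,z1]),(z1,[z0,z0,z1]),(z1,[z0,z0,z0,z1]),(z1,[z0,z0,z0,z0,z1]),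
    (z1,[y1,y1,y1,y1,y1,z2])])))))))),
    .i (.h (.n (.q (.old [([z0,z0,z0,z0,z0,z0,z1,z1],z2),([z0,z0,z0,z1,z0,z0,z0,z1],z2),([z0,z0,z1,z0,z0,z1,z0,z0],
    z2),([z0,z2,z0,z0,z1,z0,z0,z0],z2),([z1,z0,z1,z0,z0,z0,z0,z0],z2)]
    (.z (.x (.old (.tor k44 false k0 [(z1,[z1]),(z1,[z0,z1]),(z1,[z0,z0,z1]),(z1,[z0,z0,z0,z1]),(z1,[y1,y1,y1,y1,y1,
    z2]),(z1,[z0,z0,z0,z0,z1])])))))))),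
    .i (.h (.n (.q (.old [([z0,z0,z0,z0,z0,z1,z2,z0],z2),([z0,z0,z1,z0,z1,z0,z0,z0],z2),([z0,z1,z0,z0,z0,z0,z0,z2],
    z2),([z0,z1,z0,z1,z0,z0,z0,z0],z2),([z2,z0,z1,z0,z0,z0,z0,z0],z2)]
    (.z (.x (.old (.tor k45 false k0 [(z1,[z1]),(z1,[y1,y1,y1,y1,y1,z2]),(z1,[z0,z1]),(z1,[z0,z0,z1]),(z1,[z0,z0,z0,
    z1]),(z1,[z0,z0,z0,z0,z1])])))))))),
    .i (.h (.n (.q (.old [([z0,z0,z0,z0,z0,z0,z1,z1],z2),([z0,z0,z0,z2,z0,z0,z1,z0],z2),([z0,z0,z1,z0,z0,z0,z0,z1],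
    z2),([z0,z0,z1,z0,z0,z1,z0,z0],z2),([z0,z1,z0,z0,z2,z0,z0,z0],z2)]
    (.z (.x (.old (.tor k46 false k0 [(z1,[z1]),(z1,[z0,z1]),(z1,[z0,z0,z1]),(z1,[z0,z0,z0,z1]),(z1,[z0,z0,z0,z0,z1]),
    (z1,[y1,y1,y1,y1,y1,z2])])))))))),
    .i (.h (.n (.q (.old [([z0,z0,z0,z0,z2,z1,z0,z0],z2),([z0,z0,z0,z1,z0,z0,z1,z0],z2),([z0,z0,z1,z0,z0,z0,z0,z2],
    z2),([z0,z1,z0,z0,z0,z0,z1,z0],z2),([z0,z1,z1,z0,z0,z0,z0,z0],z2)]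
    (.z (.x (.old (.tor k47 false k0 [(z1,[z1]),(z1,[z0,z1]),(z1,[z0,z0,z1]),(z1,[z0,z0,z0,z1]),(z1,[z0,z0,z0,z0,z1]),
    (z1,[y1,y1,y1,y1,y1,z2])])))))))),
    .i (.h (.n (.q (.old [([z0,z0,z0,z0,z1,z0,z0,z1],z2),([z0,z0,z0,z1,z0,z0,z2,z0],z2),([z0,z0,z2,z0,z0,z0,z0,z1],
    z2),([z0,z1,z0,z1,z0,z0,z0,z0],z2),([z1,z1,z0,z0,z0,z0,z0,z0],z2)]
    (.z (.x (.old (.tor k48 false k0 [(z1,[z1]),(z1,[z0,z1]),(z1,[z0,z0,z1]),(z1,[z0,z0,z0,z1]),(z1,[y1,y1,y1,y1,y1,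
    z2]),(z1,[z0,z0,z0,z0,z1])])))))))),
    .i (.h (.n (.q (.old [([z0,z0,z0,z0,z0,z1,z0,z1],z2),([z0,z0,z1,z0,z0,z0,z1,z0],z2),([z0,z0,z1,z0,z1,z0,z0,z0],
    z2),([z0,z1,z0,z0,z0,z0,z0,z1],z2),([z0,z1,z0,z2,z0,z1,z0,z0],z2)]
    (.z (.x (.old (.tor k49 false k0 [(z1,[z1]),(z1,[z0,z1]),(z1,[z0,z0,z1]),(z1,[z0,z0,z0,z1]),(z1,[z0,z0,z0,z0,z1]),
    (z1,[y1,y1,y1,y1,y1,z2])])))))))),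
    .i (.h (.n (.q (.old [([z0,z0,z0,z0,z0,z1,z0,z2],z2),([z0,z0,z0,z0,z1,z0,z1,z0],z2),([z0,z0,z0,z1,z0,z1,z0,z0],
    z2),([z0,z0,z1,z0,z1,z0,z0,z0],z2),([z0,z2,z0,z1,z0,z0,z0,z0],z2)]
    (.z (.x (.old (.tor k50 false k0 [(z1,[z1]),(z1,[z0,z1]),(z1,[z0,z0,z1]),(z1,[z0,z0,z0,z1]),(z1,[z0,z0,z0,z0,z1]),
    (z1,[y1,y1,y1,y1,y1,z2])])))))))),
    .i (.h (.n (.q (.old [([z0,z0,z0,z0,z0,z1,z0,z1],z2),([z0,z1,z0,z0,z0,z0,z0,z1],z2),([z1,z0,z1,z0,z0,z0,z0,z0],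
    z2),([z0,z0,z1,z1,z1,z0,z0,z0],z2),([z0,z1,z0,z1,z0,z1,z0,z0],z2)]
    (.z (.x (.old (.tor k51 false k0 [(z1,[z1]),(z1,[z0,z0,z0,z1]),(z1,[z0,z1]),(z1,[z0,z0,z0,z0,z1]),(z1,[y1,y1,y1,
    y1,y1,z2]),(z1,[z0,z0,z1])])))))))),
    .i (.h (.n (.q (.old [([z0,z0,z1,z0,z0,z0,z1,z0],z2),([z0,z1,z0,z0,z0,z0,z0,z1],z2),([z0,z1,z0,z1,z0,z0,z0,z0],
    z2),([z0,z0,z0,z0,z1,z1,z1,z0],z2),([z0,z0,z0,z1,z0,z1,z0,z1],z2)]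
    (.z (.x (.old (.tor k52 false k0 [(z1,[z0,z0,z0,z1]),(z1,[z0,z0,z0,z0,z1]),(z1,[z1]),(z1,[z0,z1]),(z1,[z0,z0,z1]),
    (z1,[y1,y1,y1,y1,y1,z2])])))))))),
    .i (.h (.n (.q (.old [([z0,z0,z0,z0,z0,z1,z0,z2],z2),([z0,z0,z0,z0,z1,z0,z2,z0],z2),([z0,z0,z0,z1,z0,z1,z0,z0],
    z2),([z0,z0,z1,z0,z1,z0,z0,z0],z2),([z0,z2,z0,z1,z0,z0,z0,z0],z2)]
    (.z (.x (.old (.tor k53 false k0 [(z1,[z1]),(z1,[z0,z1]),(z1,[z0,z0,z1]),(z1,[z0,z0,z0,z1]),(z1,[z0,z0,z0,z0,z1]),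
    (z1,[y1,y1,y1,y1,y1,z2])])))))))),
    .i (.h (.n (.q (.old [([z0,z0,z0,z0,z1,z0,z1,z0],z2),([z0,z0,z0,z1,z0,z1,z0,z0],z2),([z0,z1,z0,z0,z0,z0,z1,z0],
    z2),([z0,z0,z1,z0,z0,z1,z0,z1],z2),([z1,z0,z0,z1,z0,z0,z0,z1],z2)]
    (.z (.x (.old (.tor k54 false k0 [(z1,[z1]),(z1,[z0,z1]),(z1,[z0,z0,z0,z1]),(z1,[z0,z0,z1]),(z1,[z0,z0,z0,z0,z1]),
    (z1,[y1,y1,y1,y1,y1,z2])])))))))),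
    .i (.h (.n (.q (.old [([z0,z0,z0,z0,z0,z0,z1,z1],z2),([z0,z0,z0,z1,z0,z1,z0,z0],z2),([z0,z0,z1,z0,z0,z0,z0,z1],
    z2),([z0,z1,z1,z0,z0,z0,z1,z0],z2),([z1,z0,z0,z0,z2,z1,z0,z0],z2)]
    (.z (.x (.old (.tor k55 false k0 [(z1,[z1]),(z1,[z0,z1]),(z1,[z0,z0,z1]),(z1,[z0,z0,z0,z1]),(z1,[z0,z0,z0,z0,z1]),
    (z1,[y1,y1,y1,y1,y1,z2])])))))))),
    .i (.h (.n (.q (.old [([z0,z0,z0,z0,z0,z0,z1,z1],z2),([z0,z0,z0,z0,z0,z2,z1,z0],z2),([z0,z0,z1,z0,z2,z0,z0,z0],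
    z2),([z0,z1,z0,z2,z0,z0,z0,z0],z2),([z1,z1,z0,z0,z0,z0,z0,z0],z2)]
    (.z (.x (.old (.tor k56 false k0 [(z1,[z1]),(z1,[z0,z1]),(z1,[z0,z0,z1]),(z1,[z0,z0,z0,z1]),(z1,[y1,y1,y1,y1,y1,
    z2]),(z1,[z0,z0,z0,z0,z1])])))))))),
    .i (.h (.n (.q (.old [([z0,z0,z0,z0,z0,z0,z1,z2],z2),([z0,z0,z1,z0,z0,z1,z0,z0],z2),([z0,z1,z0,z0,z2,z0,z0,z0],
    z2),([z0,z1,z1,z0,z0,z0,z0,z0],z2),([z2,z0,z0,z1,z0,z0,z0,z0],z2)]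
    (.z (.x (.old (.tor k57 false k0 [(z1,[z1]),(z1,[y1,y1,y1,y1,y1,z2]),(z1,[z0,z1]),(z1,[z0,z0,z1]),(z1,[z0,z0,z0,
    z1]),(z1,[z0,z0,z0,z0,z1])]))))))))]

/-- other nodes -/
noncomputable def cD8k_0_q4 : List (QJ PN) :=
  [.i (.h (.n (.q (.old [([z0,z0,z0,z0,z0,z0,z1,z1],z2),([z0,z0,z0,z1,z0,z1,z0,z0],z2),([z0,z0,z1,z0,z0,z0,z1,z0],z2),
    ([z1,z0,z0,z1,z0,z0,z0,z0],z2),([z0,z1,z1,z0,z0,z0,z0,z1],z2)]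
    (.z (.x (.old (.tor k58 false k0 [(z1,[z1]),(z1,[z0,z1]),(z1,[z0,z0,z1]),(z1,[z0,z0,z0,z0,z1]),(z1,[z0,z0,z0,z1]),
    (z1,[y1,y1,y1,y1,y1,z2])])))))))),
    .i (.h (.n (.q (.old [([z0,z0,z0,z0,z2,z0,z0,z1],z2),([z0,z0,z0,z1,z0,z0,z1,z0],z2),([z0,z0,z1,z0,z0,z2,z0,z0],
    z2),([z0,z1,z0,z0,z0,z0,z0,z1],z2),([z1,z0,z0,z1,z0,z0,z0,z0],z2)]
    (.z (.x (.old (.tor k59 false k0 [(z1,[z1]),(z1,[z0,z1]),(z1,[z0,z0,z1]),(z1,[z0,z0,z0,z1]),(z1,[z0,z0,z0,z0,z1]),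
    (z1,[y1,y1,y1,y1,y1,z2])])))))))),
    .i (.h (.n (.q (.old [([z0,z0,z0,z0,z1,z0,z0,z1],z2),([z0,z0,z1,z0,z0,z0,z1,z0],z2),([z0,z1,z0,z0,z0,z0,z0,z1],
    z2),([z2,z0,z0,z1,z0,z0,z0,z0],z2),([z0,z0,z0,z1,z0,z1,z1,z0],z2)]
    (.z (.x (.old (.tor k60 false k0 [(z1,[z1]),(z1,[z0,z0,z0,z0,z1]),(z1,[z0,z1]),(z1,[z0,z0,z1]),(z1,[y1,y1,y1,y1,
    y1,z2]),(z1,[z0,z0,z0,z1])])))))))),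
    .i (.h (.n (.q (.old [([z0,z0,z2,z0,z0,z0,z0,z1],z2),([z0,z2,z0,z0,z1,z0,z0,z0],z2),([z1,z0,z0,z0,z0,z1,z0,z0],
    z2),([z1,z0,z0,z1,z0,z0,z0,z0],z2),([z0,z0,z0,z0,z1,z1,z1,z0],z2)]
    (.z (.x (.old (.tor k61 false k0 [(z1,[z0,z0,z0,z0,z1]),(z1,[y1,y1,y1,y1,y1,z2]),(z1,[z1]),(z1,[z0,z1]),(z1,[z0,
    z0,z1]),(z1,[z0,z0,z0,z1])])))))))),
    .i (.h (.n (.q (.old [([z0,z0,z0,z0,z3,z0,z0,z0],z2),([z0,z0,z0,z0,z0,z0,z3,z0],z2),([z0,z3,z0,z0,z0,z0,z0,z0],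
    z2),([z1,z0,z1,z0,z0,z0,z0,z0],z2)]
    (.z (.x (.old (.leafM k2 [k3,k4,k5,k6,k7,k1] [(z1,[z1]),(z1,[z0,z1]),(z1,[z0,z0,z1])] [(k0,k2,z1,[z0,z0,z0,z1]),
    (k2,k0,z1,[z0,z0,z0,z1])])))))))),
    .i (.h (.n (.q (.old [([z0,z0,z3,z0,z0,z0,z0,z0],z2),([z0,z0,z0,z0,z0,z0,z3,z0],z1),([z0,z0,z0,z0,z0,z1,z0,z1],
    z1),([z1,z0,z0,z0,z1,z0,z0,z0],z2)]
    (.z (.x (.old (.leafM k8 [k7,k2,k5,k6] [(z1,[z1]),(z1,[z0,z1]),(z1,[z0,z0,z1])] [(k0,k4,z1,[z0,z0,z0,z1]),(k1,k3,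
    z3,[y1,y1,y3,y3,z3]),(k3,k1,z3,[y1,y1,y3,y3,z3]),(k4,k0,z1,[z0,z0,z0,z1])])))))))),
    .i (.h (.n (.q (.old [([z0,z0,z2,z0,z0,z0,z0,z0],z1),([z0,z0,z0,z0,z0,z0,z2,z0],z1),([z0,z0,z0,z0,z0,z1,z0,z1],
    z1),([z1,z0,z0,z0,z1,z0,z0,z0],z2)]
    (.z (.x (.old (.leafM k9 [k7,k2,k5,k6] [(z1,[z1]),(z1,[z0,z1]),(z1,[z0,z0,z1])] [(k0,k4,z1,[z0,z0,z0,z1]),(k1,k3,
    z2,[y1,y1,y2,y2,z2]),(k3,k1,z2,[y1,y1,y2,y2,z2]),(k4,k0,z1,[z0,z0,z0,z1])])))))))),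
    .i (.h (.n (.q (.old [([z0,z0,z0,z0,z0,z0,z3,z0],z2),([z0,z0,z3,z0,z0,z0,z0,z0],z2),([z0,z0,z0,z0,z0,z3,z0,z3],
    z2),([z1,z0,z0,z0,z1,z0,z0,z0],z2)]
    (.z (.x (.old (.leafM k10 [k5,k6,k7,k2] [(z1,[z1]),(z1,[z0,z1]),(z1,[z0,z0,z1])] [(k0,k4,z1,[z0,z0,z0,z1]),(k1,k3,
    z3,[y1,y1,y1,y3,z3]),(k3,k1,z3,[y1,y1,y1,y3,z3]),(k4,k0,z1,[z0,z0,z0,z1])])))))))),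
    .i (.h (.n (.q (.old [([z0,z0,z0,z0,z0,z0,z3,z0],z2),([z0,z0,z3,z0,z0,z0,z0,z0],z1),([z0,z0,z0,z0,z0,z1,z0,z1],
    z1),([z1,z0,z0,z0,z1,z0,z0,z0],z2)]
    (.z (.x (.old (.leafM k11 [k5,k6,k7,k2] [(z1,[z1]),(z1,[z0,z1]),(z1,[z0,z0,z1])] [(k0,k4,z1,[z0,z0,z0,z1]),(k1,k3,
    z3,[y1,y1,y3,y3,z3]),(k3,k1,z3,[y1,y1,y3,y3,z3]),(k4,k0,z1,[z0,z0,z0,z1])])))))))),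
    .i (.h (.n (.q (.old [([z0,z0,z1,z0,z1,z0,z0,z0],z2),([z0,z1,z0,z1,z0,z0,z0,z0],z2),([z1,z0,z1,z0,z0,z0,z0,z0],
    z2),([z0,z0,z0,z1,z0,z1,z1,z0],z2)]
    (.z (.x (.old (.tor k62 false k0 [(z1,[z0,y1,y1,z0,z1]),(z1,[z0,z0,z0,z1]),(z1,[z1]),(z1,[z0,z1]),(z1,[z0,z0,z1]),
    (z1,[y1,z0,z0,y1,z1])])))))))),
    .i (.h (.n (.q (.old [([z0,z0,z0,z0,z1,z0,z0,z1],z2),([z0,z1,z0,z0,z0,z0,z0,z1],z2),([z0,z0,z0,z1,z0,z1,z1,z0],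
    z2),([z0,z0,z1,z1,z1,z0,z0,z0],z2)]
    (.z (.x (.old (.tor k63 false k0 [(z1,[z1]),(z1,[z0,z0,z1]),(z1,[z0,z0,z0,z1]),(z1,[z0,z1]),(z1,[z0,y1,z0,y1,z1]),
    (z1,[y1,z0,y1,z0,z1])])))))))),
    .i (.h (.n (.q (.old [([z0,z0,z0,z0,z1,z0,z1,z0],z2),([z0,z0,z0,z1,z0,z1,z0,z0],z2),([z1,z0,z0,z1,z0,z0,z0,z0],
    z2),([z0,z0,z0,z0,z0,z1,z1,z1],z2)]
    (.z (.x (.old (.tor k64 false k0 [(z1,[z0,z0,z0,z1]),(z1,[z1]),(z1,[z0,z1]),(z1,[z0,z0,y1,y1,z1]),(z1,[z0,z0,z1]),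
    (z1,[y1,y1,z0,z0,z1])])))))))),
    .i (.h (.n (.q (.old [([z0,z0,z0,z0,z1,z0,z0,z1],z2),([z0,z0,z1,z0,z1,z0,z0,z0],z2),([z0,z1,z0,z0,z0,z0,z1,z0],
    z2),([z0,z1,z0,z1,z0,z0,z0,z0],z2)]
    (.z (.x (.old (.tor k65 false k0 [(z1,[z1]),(z1,[z0,z1]),(z1,[z0,z0,z1]),(z1,[z0,z0,z0,z1]),(z1,[z0,y1,z0,y1,z1]),
    (z1,[y1,z0,y1,z0,z1])])))))))),
    .i (.h (.n (.q (.old [([z0,z0,z1,z0,z0,z1,z0,z0],z2),([z1,z0,z0,z1,z0,z0,z0,z0],z2),([z0,z0,z1,z0,z1,z0,z0,z1],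
    z2),([z0,z1,z0,z1,z1,z0,z0,z0],z2)]
    (.z (.x (.old (.tor k66 false k0 [(z1,[z1]),(z1,[z0,z0,z1]),(z1,[z0,y1,y1,z0,z1]),(z1,[z0,z0,z0,z1]),(z1,[y1,z0,
    z0,y1,z1]),(z1,[z0,z1])])))))))),
    .i (.h (.n (.q (.old [([z0,z0,z1,z0,z1,z0,z0,z0],z2),([z0,z1,z0,z0,z0,z0,z0,z1],z2),([z0,z1,z0,z1,z0,z0,z0,z0],
    z2),([z1,z0,z1,z0,z0,z0,z0,z0],z2)]
    (.z (.x (.old (.tor k67 false k0 [(z1,[z0,y1,z0,y1,z1]),(z1,[z1]),(z1,[z0,z1]),(z1,[z0,z0,z1]),(z1,[y1,z0,y1,z0,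
    z1]),(z1,[z0,z0,z0,z1])])))))))),
    .i (.h (.n (.q (.old [([z1,z1,z0,z0,z0,z0,z0,z0],z2),([z0,z0,z0,z1,z1,z1,z0,z0],z2)]
    (.z (.x (.old (.leafM k0 [k2,k3,k4,k5,k6,k7] [(z1,[z0,z1])] [(k0,k1,z1,[z1]),(k1,k0,z1,[z1])]))))))))]

/-- other nodes -/
noncomputable def cD8k_0_q5 : List (QJ PN) :=
  [.i (.h (.n (.q (.old [([z1,z1,z0,z0,z0,z0,z0,z0],z2),([z0,z0,z0,z1,z0,z1,z1,z0],z2)]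
    (.z (.x (.old (.leafM k3 [k2,k3,k4,k5,k6,k7] [(z1,[z0,z1])] [(k0,k1,z1,[z1]),(k1,k0,z1,[z1])])))))))),
    .i (.h (.n (.q (.old [([z1,z0,z1,z0,z0,z0,z0,z0],z2),([z0,z0,z0,z0,z1,z1,z1,z0],z2)]
    (.z (.x (.old (.leafM k4 [k7,k1,k3,k4,k5,k6] [(z1,[z0,z1])] [(k0,k2,z1,[z1]),(k2,k0,z1,[z1])])))))))),
    .i (.h (.n (.q (.old [([z1,z0,z0,z1,z0,z0,z0,z0],z2),([z0,z1,z0,z0,z1,z1,z0,z0],z2)]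
    (.z (.x (.old (.leafM k3 [k7,k1,k2,k4,k5,k6] [(z1,[z0,z1])] [(k0,k3,z1,[z1]),(k3,k0,z1,[z1])])))))))),
    .i (.h (.n (.q (.old [([z1,z0,z0,z0,z1,z0,z0,z0],z2),([z0,z0,z0,z0,z0,z1,z1,z1],z2)]
    (.z (.x (.old (.leafM k0 [k3,k5,k6,k7,k1,k2] [(z1,[z0,z1])] [(k4,k0,z1,[z1]),(k0,k4,z1,[z1])])))))))),
    .i (.h (.n (.q (.old [([z1,z0,z0,z0,z1,z0,z0,z0],z2),([z0,z0,z0,z1,z0,z0,z1,z1],z2)]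
    (.z (.x (.old (.leafM k3 [k2,k3,k5,k6,k7,k1] [(z1,[z0,z1])] [(k4,k0,z1,[z1]),(k0,k4,z1,[z1])])))))))),
    .i (.h (.n (.q (.old [([z1,z0,z0,z1,z0,z0,z0,z0],z2),([z0,z1,z1,z0,z0,z0,z0,z0],z2)]
    (.z (.x (.old (.leafM k0 [k4,k5,k6,k7] [] [(k0,k3,z1,[z1]),(k1,k2,z1,[z0,z1]),(k2,k1,z1,[z0,z1]),(k3,k0,z1,
    [z1])])))))))),
    .i (.h (.n (.q (.old [([z0,z0,z0,z1,z1,z0,z0,z0],z2),([z1,z1,z0,z0,z0,z0,z0,z0],z2)]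
    (.z (.x (.old (.leafM k0 [k2,k5,k6,k7] [] [(k3,k4,z1,[z1]),(k4,k3,z1,[z1]),(k0,k1,z1,[z0,z1]),(k1,k0,z1,[z0,
    z1])])))))))),
    .i (.h (.n (.q (.old [([z1,z0,z0,z1,z0,z0,z0,z0],z2),([z0,z1,z0,z0,z1,z0,z0,z0],z2)]
    (.z (.x (.old (.leafM k1 [k5,k6,k7,k2] [] [(k0,k3,z1,[z1]),(k1,k4,z1,[z0,z1]),(k3,k0,z1,[z1]),(k4,k1,z1,[z0,
    z1])])))))))),
    .i (.h (.n (.q (.old [([z1,z1,z0,z0,z0,z0,z0,z0],z2),([z0,z0,z0,z1,z0,z1,z0,z0],z2)]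
    (.z (.x (.old (.leafM k1 [k6,k7,k2,k4] [] [(k0,k1,z1,[z1]),(k1,k0,z1,[z1]),(k3,k5,z1,[z0,z1]),(k5,k3,z1,[z0,
    z1])])))))))),
    .i (.h (.n (.q (.old [([z1,z1,z0,z0,z0,z0,z0,z0],z2),([z0,z0,z0,z1,z0,z0,z1,z0],z2)]
    (.z (.x (.old (.leafM k2 [k4,k5,k7,k2] [] [(k0,k1,z1,[z1]),(k1,k0,z1,[z1]),(k6,k3,z1,[z0,z1]),(k3,k6,z1,[z0,
    z1])])))))))),
    .i (.h (.n (.q (.old [([z0,z0,z0,z0,z1,z1,z0,z0],z2),([z1,z1,z0,z0,z0,z0,z0,z0],z2)]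
    (.z (.x (.old (.leafM k0 [k2,k3,k6,k7] [] [(k4,k5,z1,[z1]),(k5,k4,z1,[z1]),(k0,k1,z1,[z0,z1]),(k1,k0,z1,[z0,
    z1])])))))))),
    .i (.h (.n (.q (.old [([z1,z0,z0,z0,z1,z0,z0,z0],z2),([z0,z1,z0,z0,z0,z1,z0,z0],z2)]
    (.z (.x (.old (.leafM k2 [k2,k3,k6,k7] [] [(k4,k0,z1,[z1]),(k5,k1,z1,[z0,z1]),(k0,k4,z1,[z1]),(k1,k5,z1,[z0,
    z1])])))))))),
    .i (.h (.n (.q (.old [([z0,z1,z0,z0,z1,z0,z0,z0],z2),([z1,z0,z0,z0,z0,z1,z0,z0],z2)]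
    (.z (.x (.old (.leafM k5 [k2,k3,k6,k7] [] [(k4,k1,z1,[z1]),(k5,k0,z1,[z0,z1]),(k0,k5,z1,[z0,z1]),(k1,k4,z1,
    [z1])])))))))),
    .i (.h (.n (.q (.old [([z0,z0,z1,z0,z1,z0,z0,z0],z2),([z1,z0,z0,z0,z0,z0,z1,z0],z2)]
    (.z (.x (.old (.leafM k3 [k1,k3,k5,k7] [] [(k2,k4,z1,[z1]),(k4,k2,z1,[z1]),(k6,k0,z1,[z0,z1]),(k0,k6,z1,[z0,
    z1])])))))))),
    .i (.h (.n (.q (.old [([z0,z0,z1,z0,z0,z0,z1,z0],z2),([z1,z0,z0,z0,z1,z0,z0,z0],z2)]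
    (.z (.x (.old (.leafM k5 [k1,k3,k5,k7] [] [(k2,k6,z1,[z1]),(k6,k2,z1,[z1]),(k4,k0,z1,[z0,z1]),(k0,k4,z1,[z0,
    z1])])))))))),
    .i (.h (.n (.q (.old [([z1,z0,z0,z1,z0,z0,z0,z0],z2),([z0,z0,z1,z0,z0,z1,z0,z1],z2)]
    (.z (.x (.old (.leafM k5 [k4,k5,k6,k7,k1,k2] [(z1,[z0,z1]),(z1,[y1,y1,z1])] [(k0,k3,z1,[z1]),(k3,k0,z1,
    [z1])]))))))))]

/-- other nodes -/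
noncomputable def cD8k_0_q6 : List (QJ PN) :=
  [.i (.h (.n (.q (.old [([z1,z0,z0,z0,z1,z0,z0,z0],z2),([z0,z0,z1,z0,z0,z1,z0,z1],z2)]
    (.z (.x (.old (.leafM k1 [k1,k2,k3,k5,k6,k7] [(z1,[z0,z1]),(z1,[y1,y1,z1])] [(k4,k0,z1,[z1]),(k0,k4,z1,
    [z1])]))))))))]

/-- other nodes -/
noncomputable def cD8k_0_q : List (QJ PN) :=
  cD8k_0_q0 ++ (cD8k_0_q1 ++ (cD8k_0_q2 ++ (cD8k_0_q3 ++ (cD8k_0_q4 ++ (cD8k_0_q5 ++ cD8k_0_q6)))))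

/-- the check of a node -/
noncomputable def cD8k_0_c : ℕ → QJ PN → Bool :=
  chkJ (ckP 8 ttD8k cD8k_0_w cD8k_0_s) 8 cD8k_0_w 1 cD8k_0_s cD8k_0_t (bl3 [] cD8k_0_D)

end Pool.Agent.Lib_MP_fa6e45
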