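import Pool.Agent.Lib_MP_fa6e45.DQA
import Pool.Agent.Lib_MP_fa6e45.DQ8k_0b
import Pool.Agent.Lib_MP_fa6e45.DQ8k_0_0
import Pool.Agent.Lib_MP_fa6e45.DQ8k_0_1
import Pool.Agent.Lib_MP_fa6e45.DQ8k_0_2
import Pool.Agent.Lib_MP_fa6e45.DQ8k_0_3
import Pool.Agent.Lib_MP_fa6e45.DQ8k_0_4
import Pool.Agent.Lib_MP_fa6e45.DQ8k_0_5
import Pool.Agent.Lib_MP_fa6e45.DQ8k_0_6
import Pool.Agent.Lib_MP_fa6e45.DQ8k_0_7
import Pool.Agent.Lib_MP_fa6e45.DQ8k_0_8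
import Pool.Agent.Lib_MP_fa6e45.DQ8k_0_9
import Pool.Agent.Lib_MP_fa6e45.DQ8k_0_10
import Pool.Agent.Lib_MP_fa6e45.DQ8k_0_11
import Pool.Agent.Lib_MP_fa6e45.DQ8k_0_12
import Pool.Agent.Lib_MP_fa6e45.DQ8k_0_13
import Pool.Agent.Lib_MP_fa6e45.DQ8k_0_14
import Pool.Agent.Lib_MP_fa6e45.DQ8k_0_15
import Pool.Agent.Lib_MP_fa6e45.DQ8k_0_16
import Pool.Agent.Lib_MP_fa6e45.DQ8k_0_17
import Pool.Agent.Lib_MP_fa6e45.DQ8k_0_18
import Pool.Agent.Lib_MP_fa6e45.DQ8k_0_19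
import Pool.Agent.Lib_MP_fa6e45.DQ8k_0_20
import Pool.Agent.Lib_MP_fa6e45.DQ8k_0_21
import Pool.Agent.Lib_MP_fa6e45.DQ8k_0_22
import Pool.Agent.Lib_MP_fa6e45.DQ8k_0_23
import Pool.Agent.Lib_MP_fa6e45.DQ8k_0_24
import Pool.Agent.Lib_MP_fa6e45.DQ8k_0_25
import Pool.Agent.Lib_MP_fa6e45.DQ8k_0_26
import Pool.Agent.Lib_MP_fa6e45.DQ8k_0_27
import Pool.Agent.Lib_MP_fa6e45.DQ8k_0_28
import Pool.Agent.Lib_MP_fa6e45.DQ8k_0_29
import Pool.Agent.Lib_MP_fa6e45.DQ8k_0_30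
import Pool.Agent.Lib_MP_fa6e45.DQ8k_0_31
import Pool.Agent.Lib_MP_fa6e45.DQ8k_0_32
import Pool.Agent.Lib_MP_fa6e45.DQ8k_0_33
import Pool.Agent.Lib_MP_fa6e45.DQ8k_0_34
import Pool.Agent.Lib_MP_fa6e45.DQ8k_0_35
import Pool.Agent.Lib_MP_fa6e45.DQ8k_0_36
import Pool.Agent.Lib_MP_fa6e45.DQ8k_0_37
import Pool.Agent.Lib_MP_fa6e45.DQ8k_0_38
import Pool.Agent.Lib_MP_fa6e45.DQ8k_0_39
import Pool.Agent.Lib_MP_fa6e45.DQ8k_0_40
import Pool.Agent.Lib_MP_fa6e45.DQ8k_0_41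
import Pool.Agent.Lib_MP_fa6e45.DQ8k_0_42
import Pool.Agent.Lib_MP_fa6e45.DQ8k_0_43

/-!
MP_fa6e45_co, stage 9: straight-side patterns with `8` sides, a large certificate (generated by a program).
-/

namespace Pool.Agent.Lib_MP_fa6e45

/-- nodes -/
noncomputable def cD8k_0_n : List (QJ PN) :=
  cD8k_0_n0 ++ (cD8k_0_n1 ++ (cD8k_0_n2 ++ (cD8k_0_n3 ++ (cD8k_0_n4 ++ (cD8k_0_n5 ++ (cD8k_0_n6 ++ (
    cD8k_0_n7 ++ (cD8k_0_n8 ++ (cD8k_0_n9 ++ (cD8k_0_n10 ++ (cD8k_0_n11 ++ (cD8k_0_n12 ++ (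
    cD8k_0_n13 ++ (cD8k_0_n14 ++ (cD8k_0_n15 ++ (cD8k_0_n16 ++ (cD8k_0_n17 ++ (cD8k_0_n18 ++ (
    cD8k_0_n19 ++ (cD8k_0_n20 ++ (cD8k_0_n21 ++ (cD8k_0_n22 ++ (cD8k_0_n23 ++ (cD8k_0_n24 ++ (
    cD8k_0_n25 ++ (cD8k_0_n26 ++ (cD8k_0_n27 ++ (cD8k_0_n28 ++ (cD8k_0_n29 ++ (cD8k_0_n30 ++ (
    cD8k_0_n31 ++ (cD8k_0_n32 ++ (cD8k_0_n33 ++ (cD8k_0_n34 ++ (cD8k_0_n35 ++ (cD8k_0_n36 ++ (
    cD8k_0_n37 ++ (cD8k_0_n38 ++ (cD8k_0_n39 ++ (cD8k_0_n40 ++ (cD8k_0_n41 ++ (cD8k_0_n42 ++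
    cD8k_0_n43))))))))))))))))))))))))))))))))))))))))))

theorem cD8k_0_ok : allI cD8k_0_c cD8k_0_n 0 = true := by
  refine allI_appQ (k := 1893) cD8k_0_k0 (by decide +kernel) ?_
  refine allI_appQ (k := 898) cD8k_0_k1 (by decide +kernel) ?_
  refine allI_appQ (k := 695) cD8k_0_k2 (by decide +kernel) ?_
  refine allI_appQ (k := 59) cD8k_0_k3 (by decide +kernel) ?_
  refine allI_appQ (k := 5) cD8k_0_k4 (by decide +kernel) ?_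
  refine allI_appQ (k := 6) cD8k_0_k5 (by decide +kernel) ?_
  refine allI_appQ (k := 6) cD8k_0_k6 (by decide +kernel) ?_
  refine allI_appQ (k := 1) cD8k_0_k7 (by decide +kernel) ?_
  refine allI_appQ (k := 3) cD8k_0_k8 (by decide +kernel) ?_
  refine allI_appQ (k := 2) cD8k_0_k9 (by decide +kernel) ?_
  refine allI_appQ (k := 54) cD8k_0_k10 (by decide +kernel) ?_
  refine allI_appQ (k := 100) cD8k_0_k11 (by decide +kernel) ?_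
  refine allI_appQ (k := 99) cD8k_0_k12 (by decide +kernel) ?_
  refine allI_appQ (k := 83) cD8k_0_k13 (by decide +kernel) ?_
  refine allI_appQ (k := 64) cD8k_0_k14 (by decide +kernel) ?_
  refine allI_appQ (k := 1) cD8k_0_k15 (by decide +kernel) ?_
  refine allI_appQ (k := 93) cD8k_0_k16 (by decide +kernel) ?_
  refine allI_appQ (k := 98) cD8k_0_k17 (by decide +kernel) ?_
  refine allI_appQ (k := 98) cD8k_0_k18 (by decide +kernel) ?_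
  refine allI_appQ (k := 94) cD8k_0_k19 (by decide +kernel) ?_
  refine allI_appQ (k := 33) cD8k_0_k20 (by decide +kernel) ?_
  refine allI_appQ (k := 100) cD8k_0_k21 (by decide +kernel) ?_
  refine allI_appQ (k := 110) cD8k_0_k22 (by decide +kernel) ?_
  refine allI_appQ (k := 107) cD8k_0_k23 (by decide +kernel) ?_
  refine allI_appQ (k := 76) cD8k_0_k24 (by decide +kernel) ?_
  refine allI_appQ (k := 104) cD8k_0_k25 (by decide +kernel) ?_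
  refine allI_appQ (k := 75) cD8k_0_k26 (by decide +kernel) ?_
  refine allI_appQ (k := 97) cD8k_0_k27 (by decide +kernel) ?_
  refine allI_appQ (k := 72) cD8k_0_k28 (by decide +kernel) ?_
  refine allI_appQ (k := 64) cD8k_0_k29 (by decide +kernel) ?_
  refine allI_appQ (k := 77) cD8k_0_k30 (by decide +kernel) ?_
  refine allI_appQ (k := 94) cD8k_0_k31 (by decide +kernel) ?_
  refine allI_appQ (k := 73) cD8k_0_k32 (by decide +kernel) ?_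
  refine allI_appQ (k := 97) cD8k_0_k33 (by decide +kernel) ?_
  refine allI_appQ (k := 61) cD8k_0_k34 (by decide +kernel) ?_
  refine allI_appQ (k := 85) cD8k_0_k35 (by decide +kernel) ?_
  refine allI_appQ (k := 59) cD8k_0_k36 (by decide +kernel) ?_
  refine allI_appQ (k := 61) cD8k_0_k37 (by decide +kernel) ?_
  refine allI_appQ (k := 68) cD8k_0_k38 (by decide +kernel) ?_
  refine allI_appQ (k := 83) cD8k_0_k39 (by decide +kernel) ?_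
  refine allI_appQ (k := 93) cD8k_0_k40 (by decide +kernel) ?_
  refine allI_appQ (k := 101) cD8k_0_k41 (by decide +kernel) ?_
  refine allI_appQ (k := 77) cD8k_0_k42 (by decide +kernel) ?_
  exact cD8k_0_k43

theorem cD8k_0_len : cD8k_0_n.length = 6301 := by
  unfold cD8k_0_n
  simp only [List.length_append, cD8k_0_l0, cD8k_0_l1, cD8k_0_l2, cD8k_0_l3, cD8k_0_l4, cD8k_0_l5, cD8k_0_l6, cD8k_0_l7, cD8k_0_l8, cD8k_0_l9,
        cD8k_0_l10, cD8k_0_l11, cD8k_0_l12, cD8k_0_l13, cD8k_0_l14, cD8k_0_l15, cD8k_0_l16, cD8k_0_l17, cD8k_0_l18,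
        cD8k_0_l19, cD8k_0_l20, cD8k_0_l21, cD8k_0_l22, cD8k_0_l23, cD8k_0_l24, cD8k_0_l25, cD8k_0_l26, cD8k_0_l27,
        cD8k_0_l28, cD8k_0_l29, cD8k_0_l30, cD8k_0_l31, cD8k_0_l32, cD8k_0_l33, cD8k_0_l34, cD8k_0_l35, cD8k_0_l36,
        cD8k_0_l37, cD8k_0_l38, cD8k_0_l39, cD8k_0_l40, cD8k_0_l41, cD8k_0_l42, cD8k_0_l43]

theorem cD8k_0 : NodeU 8 cD8k_0_w [] :=
  nodeJ_parts (C := 1) (sy := cD8k_0_s) (st := cD8k_0_t) (D := cD8k_0_D) (Ns := cD8k_0_n) (by norm_num) (by norm_num)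
    ttD8k_ok cD8k_0_gw cD8k_0_pr cD8k_0_mk cD8k_0_bd cD8k_0_len cD8k_0_ls cD8k_0_ok

theorem sD8k_J : Solved 8 [cD8k_0_w] :=
  Solved.cons cD8k_0 Solved.nil

end Pool.Agent.Lib_MP_fa6e45
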