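import Pool.Agent.Lib_MP_fa6e45.CT5

/-!
MP_fa6e45_co, stage 9: straight-side patterns with `8` sides, tables of tori (generated by a program).
-/

namespace Pool.Agent.Lib_MP_fa6e45

/-- the torus -/
def ttd8r_11 : TT where
  k := 8
  rf := [false, false, false, false, true, true, true, true]
  tau := [13, 12, 11, 19, 26, 21, 9, 39, 38, 6, 20, 2, 1, 0, 32, 47, 29, 28, 27, 3, 10, 5, 25, 55, 54, 22, 4, 18, 17,
    16, 48, 63, 14, 46, 60, 42, 41, 40, 8, 7, 37, 36, 35, 59, 50, 61, 33, 15, 30, 62, 44, 58, 57, 56, 24, 23, 53, 52,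
    51, 43, 34, 45, 49, 31]
  par := [0, 0, 3, 4, 7, 15, 23, 31]
  stars := [[0, 32, 14], [1, 13], [2, 12], [3, 11, 20], [4, 19, 27], [5, 26, 22], [6, 21, 10], [7, 9, 39], [8, 40,
    38], [15, 33, 47], [16, 48, 30], [17, 29], [18, 28], [23, 25, 55], [24, 56, 54], [31, 49, 63], [34, 61, 46], [35,
    43, 60], [36, 42], [37, 41], [44, 51, 59], [45, 62, 50], [52, 58], [53, 57]]
  word := [[], [], [], [], [], [1], [1], [], [0], [0], [], [], [], [], [2, 1, 3, 0], [], [], [], [], [], [], [0],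
    [0], [], [1], [1], [], [], [], [], [], [], [1, 2, 0, 3], [1, 2, 0, 3], [1, 2, 0], [1], [1], [1], [1], [], [0],
    [0], [0], [2, 0], [2], [2], [2, 1, 3, 0], [], [], [], [3], [0], [0], [0], [0], [], [1], [1], [1], [1, 3], [1, 3,
    0], [3], [], []]
  rank := [0, 1, 2, 0, 0, 1, 4, 0, 5, 4, 3, 2, 1, 0, 11, 0, 3, 2, 1, 0, 3, 1, 0, 0, 1, 0, 0, 1, 2, 3, 4, 0, 11, 10,
    9, 8, 7, 6, 5, 0, 6, 7, 8, 5, 0, 6, 10, 0, 4, 5, 0, 4, 3, 2, 1, 0, 2, 3, 4, 5, 9, 6, 5, 0]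
  just := [0, 1, 2, 0, 0, 5, 6, 0, 7, 6, 3, 2, 1, 0, 9, 0, 11, 12, 4, 0, 3, 5, 0, 0, 13, 0, 0, 4, 12, 11, 10, 0, 9,
    16, 17, 18, 19, 8, 7, 0, 8, 19, 18, 20, 0, 21, 16, 0, 10, 15, 0, 22, 23, 14, 13, 0, 14, 23, 22, 20, 17, 21, 15, 0]
  gA := 22
  gB := 44
  fin := 0
  sid := [0, 1, 2, 3, 4, 5, 6, 7, 8, 7, 6, 3, 2, 1, 0, 9, 10, 11, 12, 4, 3, 6, 5, 13, 14, 13, 5, 4, 12, 11, 10, 15,
    0, 9, 16, 17, 18, 19, 8, 7, 8, 19, 18, 17, 20, 21, 16, 9, 10, 15, 21, 20, 22, 23, 14, 13, 14, 23, 22, 20, 17, 16,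
    21, 15]
  off := [(0, 0), (0, 0), (0, 0), (0, 0), (0, 0), (0, 0), (0, 0), (0, 0), (0, 0), (1, 0), (1, 0), (0, 0), (0, 0), (0,
    0), (0, 0), (0, 0), (0, 0), (0, 0), (0, 0), (0, 0), (0, 0), (1, 0), (1, 0), (0, 0), (0, 0), (-1, 0), (0, 0), (0,
    0), (0, 0), (0, 0), (0, 0), (0, 0), (0, 0), (0, 0), (0, 0), (0, 0), (0, 0), (0, 0), (-1, 0), (0, 0), (0, 0), (1,
    0), (1, 0), (1, 0), (0, 0), (0, 0), (0, 0), (0, 0), (0, 0), (0, 0), (0, -1), (0, -1), (0, 0), (0, 0), (1, 0), (0,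
    0), (0, 0), (-1, 0), (-1, 0), (-1, -1), (0, -1), (0, -1), (0, -1), (0, 0)]

/-- glued arcs and equations -/
def tord8r_11 : TorT :=
  ⟨[(0, 5, true), (0, 6, false), (1, 4, true), (1, 6, true), (2, 3, true), (2, 4, true), (3, 3, true), (5, 5, true),
    (7, 7, false)],
    [([0, 0, 0, 2, 1, 0, 0, 0], 2), ([0, 0, 1, 0, 0, 1, 1, 0], 2), ([0, 0, 1, 0, 1, 0, 0, 0], 2), ([0, 1, 0, 0, 0, 0,
    0, 2], 2), ([0, 1, 0, 0, 0, 1, 0, 0], 2), ([2, 0, 0, 0, 0, 0, 1, 0], 2)]⟩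

theorem tord8r_11_ok : tord8r_11.OK 8 := TT.leaf_ok (T := ttd8r_11) (by decide +kernel)

/-- the torus -/
def ttd8r_12 : TT where
  k := 8
  rf := [false, false, true, false, true, false, true, true]
  tau := [10, 9, 8, 11, 16, 17, 28, 23, 2, 1, 0, 3, 32, 33, 44, 39, 4, 5, 29, 30, 54, 26, 27, 7, 52, 53, 21, 22, 6,
    18, 19, 55, 12, 13, 45, 46, 62, 42, 43, 15, 60, 61, 37, 38, 14, 34, 35, 63, 58, 57, 56, 59, 24, 25, 20, 31, 50,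
    49, 48, 51, 40, 41, 36, 47]
  par := [0, 0, 4, 6, 12, 14, 20, 36]
  stars := [[0, 16, 4, 11], [1, 10], [2, 9], [3, 8, 32, 12], [5, 17], [6, 18, 29], [7, 28, 23], [13, 33], [14, 34,
    45], [15, 44, 39], [19, 30], [20, 55, 31], [21, 26, 54], [22, 27], [24, 48, 59, 52], [25, 53], [35, 46], [36, 63,
    47], [37, 42, 62], [38, 43], [40, 56, 51, 60], [41, 61], [49, 58], [50, 57]]
  word := [[], [], [], [1, 2], [], [], [], [0, 3], [], [], [], [3, 0], [], [], [], [1, 2], [], [], [], [], [], [2,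
    1], [2, 1], [2, 1], [0, 3], [0, 3], [0, 3], [0, 3], [], [], [], [], [], [], [], [], [], [3, 0], [3, 0], [3, 0],
    [1, 2], [1, 2], [1, 2], [1, 2], [], [], [], [], [0], [0], [0], [2], [2, 1], [2, 1], [], [], [1], [1], [1], [3],
    [3, 0], [3, 0], [], []]
  rank := [0, 1, 2, 10, 0, 1, 0, 9, 2, 1, 0, 10, 0, 1, 0, 9, 0, 1, 2, 3, 0, 7, 8, 9, 5, 6, 7, 8, 0, 2, 3, 4, 0, 1, 2,
    3, 0, 7, 8, 9, 5, 6, 7, 8, 0, 2, 3, 4, 1, 0, 1, 0, 5, 6, 0, 4, 1, 0, 1, 0, 5, 6, 0, 4]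
  just := [0, 1, 2, 3, 0, 4, 0, 6, 2, 1, 0, 3, 0, 7, 0, 9, 0, 4, 5, 10, 0, 12, 13, 6, 14, 15, 12, 13, 0, 5, 10, 11,
    0, 7, 8, 16, 0, 18, 19, 9, 20, 21, 18, 19, 0, 8, 16, 17, 22, 0, 23, 0, 14, 15, 0, 11, 23, 0, 22, 0, 20, 21, 0, 17]
  gA := 49
  gB := 51
  fin := 0
  sid := [0, 1, 2, 3, 0, 4, 5, 6, 3, 2, 1, 0, 3, 7, 8, 9, 0, 4, 5, 10, 11, 12, 13, 6, 14, 15, 12, 13, 6, 5, 10, 11,
    3, 7, 8, 16, 17, 18, 19, 9, 20, 21, 18, 19, 9, 8, 16, 17, 14, 22, 23, 20, 14, 15, 12, 11, 20, 23, 22, 14, 20, 21,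
    18, 17]
  off := [(0, 0), (0, 0), (0, 0), (0, 0), (-1, 1), (0, 0), (0, 0), (0, 0), (0, 0), (0, 0), (0, 0), (0, 0), (1, -1),
    (0, 0), (0, 0), (0, 0), (-1, 1), (0, 0), (0, 0), (0, 0), (0, 0), (0, 0), (0, 0), (-1, 1), (0, 0), (0, 0), (1,
    -1), (1, -1), (0, 0), (0, 0), (0, 0), (0, 0), (1, -1), (0, 0), (0, 0), (0, 0), (0, 0), (0, 0), (0, 0), (1, -1),
    (0, 0), (0, 0), (-1, 1), (-1, 1), (0, 0), (0, 0), (0, 0), (0, 0), (0, 0), (0, 0), (0, 0), (1, 0), (-1, 1), (-1,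
    1), (0, 0), (0, 0), (0, 0), (-1, 0), (-1, 0), (-1, 0), (1, -1), (1, -1), (0, 0), (0, 0)]

/-- glued arcs and equations -/
def tord8r_12 : TorT :=
  ⟨[(0, 2, true), (0, 4, false), (1, 1, true), (1, 5, false), (2, 5, false), (3, 3, true), (3, 6, false), (4, 6,
    true), (7, 7, false)],
    [([0, 0, 0, 0, 1, 0, 0, 2], 2), ([0, 0, 0, 1, 0, 0, 1, 0], 2), ([0, 0, 1, 0, 0, 1, 1, 0], 2), ([0, 1, 0, 0, 0, 1,
    0, 0], 2), ([0, 1, 1, 0, 0, 0, 0, 0], 2), ([2, 0, 0, 1, 1, 0, 0, 0], 2)]⟩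

theorem tord8r_12_ok : tord8r_12.OK 8 := TT.leaf_ok (T := ttd8r_12) (by decide +kernel)

/-- the torus -/
def ttd8r_13 : TT where
  k := 8
  rf := [false, false, true, false, true, false, true, true]
  tau := [8, 11, 10, 9, 16, 17, 28, 23, 0, 3, 2, 1, 32, 33, 44, 39, 4, 5, 29, 30, 54, 26, 27, 7, 52, 53, 21, 22, 6,
    18, 19, 55, 12, 13, 45, 46, 62, 42, 43, 15, 60, 61, 37, 38, 14, 34, 35, 63, 56, 59, 58, 57, 24, 25, 20, 31, 48,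
    51, 50, 49, 40, 41, 36, 47]
  par := [0, 0, 4, 6, 12, 14, 20, 36]
  stars := [[0, 16, 4, 9], [1, 8, 32, 12], [2, 11], [3, 10], [5, 17], [6, 18, 29], [7, 28, 23], [13, 33], [14, 34,
    45], [15, 44, 39], [19, 30], [20, 55, 31], [21, 26, 54], [22, 27], [24, 48, 57, 52], [25, 53], [35, 46], [36, 63,
    47], [37, 42, 62], [38, 43], [40, 56, 49, 60], [41, 61], [50, 59], [51, 58]]
  word := [[], [0], [0], [0], [], [], [], [2, 1, 3], [], [1], [1], [1], [], [], [], [0], [], [], [], [], [], [2, 0,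
    3], [2, 0, 3], [2, 0, 3], [2, 1, 3], [2, 1, 3], [2, 1, 3], [2, 1, 3], [], [], [], [], [], [], [], [], [], [1],
    [1], [1], [0], [0], [0], [0], [], [], [], [], [2, 1], [2], [2], [2], [2, 0, 3], [2, 0, 3], [], [], [0, 3], [3],
    [3], [3], [1], [1], [], []]
  rank := [0, 5, 6, 7, 0, 1, 0, 10, 0, 7, 6, 5, 0, 1, 0, 4, 0, 1, 2, 3, 0, 8, 9, 10, 6, 7, 8, 9, 0, 2, 3, 4, 0, 1, 2,
    3, 0, 2, 3, 4, 0, 1, 2, 3, 0, 2, 3, 4, 5, 1, 0, 1, 6, 7, 0, 4, 5, 1, 0, 1, 0, 1, 0, 4]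
  just := [0, 1, 2, 3, 0, 4, 0, 6, 0, 3, 2, 1, 0, 7, 0, 9, 0, 4, 5, 10, 0, 12, 13, 6, 14, 15, 12, 13, 0, 5, 10, 11,
    0, 7, 8, 16, 0, 18, 19, 9, 0, 21, 18, 19, 0, 8, 16, 17, 20, 22, 0, 23, 14, 15, 0, 11, 20, 23, 0, 22, 0, 21, 0, 17]
  gA := 40
  gB := 50
  fin := 0
  sid := [0, 1, 2, 3, 0, 4, 5, 6, 1, 0, 3, 2, 1, 7, 8, 9, 0, 4, 5, 10, 11, 12, 13, 6, 14, 15, 12, 13, 6, 5, 10, 11,
    1, 7, 8, 16, 17, 18, 19, 9, 20, 21, 18, 19, 9, 8, 16, 17, 14, 20, 22, 23, 14, 15, 12, 11, 20, 14, 23, 22, 20, 21,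
    18, 17]
  off := [(0, 0), (0, 0), (0, 0), (0, 0), (1, 0), (0, 0), (0, 0), (0, 0), (0, 0), (0, 0), (-1, 0), (-1, 0), (-1, 0),
    (0, 0), (0, 0), (0, 0), (1, 0), (0, 0), (0, 0), (0, 0), (0, 0), (0, 0), (0, 0), (1, 0), (0, 0), (0, 0), (-1, 0),
    (-1, 0), (0, 0), (0, 0), (0, 0), (0, 0), (-1, 0), (0, 0), (0, 0), (0, 0), (0, 0), (0, 0), (0, 0), (-1, 0), (0,
    0), (0, 0), (1, 0), (1, 0), (0, 0), (0, 0), (0, 0), (0, 0), (0, 0), (-1, 1), (0, 0), (0, 0), (1, 0), (1, 0), (0,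
    0), (0, 0), (0, 0), (1, -1), (0, -1), (0, -1), (-1, 0), (-1, 0), (0, 0), (0, 0)]

/-- glued arcs and equations -/
def tord8r_13 : TorT :=
  ⟨[(0, 0, true), (0, 4, false), (1, 3, true), (1, 5, false), (2, 2, true), (2, 5, false), (3, 6, false), (4, 6,
    true), (7, 7, false)],
    [([0, 0, 0, 0, 1, 0, 0, 2], 2), ([0, 0, 0, 1, 0, 0, 1, 0], 2), ([0, 0, 1, 0, 0, 1, 1, 0], 2), ([0, 0, 1, 1, 0, 0,
    0, 0], 2), ([0, 1, 0, 0, 0, 1, 0, 0], 2), ([2, 1, 0, 0, 1, 0, 0, 0], 2)]⟩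

theorem tord8r_13_ok : tord8r_13.OK 8 := TT.leaf_ok (T := ttd8r_13) (by decide +kernel)

/-- the torus -/
def ttd8r_14 : TT where
  k := 8
  rf := [false, false, true, false, true, false, true, true]
  tau := [9, 19, 20, 21, 22, 29, 30, 23, 18, 0, 16, 33, 34, 35, 36, 39, 10, 32, 8, 1, 2, 3, 4, 7, 41, 51, 52, 53, 54,
    5, 6, 55, 17, 11, 12, 13, 14, 61, 62, 15, 50, 24, 48, 57, 58, 59, 60, 63, 42, 56, 40, 25, 26, 27, 28, 31, 49, 43,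
    44, 45, 46, 37, 38, 47]
  par := [0, 0, 1, 5, 11, 24, 25, 37]
  stars := [[0, 16, 10], [1, 9, 19], [2, 20], [3, 21], [4, 22], [5, 23, 7, 30], [6, 29, 55, 31], [8, 32, 18], [11,
    17, 33], [12, 34], [13, 35], [14, 36], [15, 37, 62, 39], [24, 48, 42], [25, 41, 51], [26, 52], [27, 53], [28,
    54], [38, 63, 47, 61], [40, 56, 50], [43, 49, 57], [44, 58], [45, 59], [46, 60]]
  word := [[], [], [], [], [], [], [2, 1], [2, 1], [], [], [1, 2], [], [], [], [], [3, 0], [3, 0], [3, 0], [], [],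
    [], [], [], [0, 3], [], [], [], [], [], [], [0, 3], [0, 3], [1, 2], [], [], [], [], [], [1, 2], [1, 2], [], [],
    [0, 3], [0], [0], [0], [0], [2], [2, 1], [2], [], [], [], [], [], [2, 1], [3], [1], [1], [1], [1], [], [3, 0],
    [3]]
  rank := [0, 0, 1, 2, 3, 0, 5, 6, 1, 0, 6, 0, 1, 2, 3, 4, 6, 5, 1, 0, 1, 2, 3, 6, 0, 0, 1, 2, 3, 0, 5, 4, 5, 0, 1,
    2, 3, 0, 2, 4, 1, 0, 3, 2, 1, 0, 1, 0, 3, 2, 1, 0, 1, 2, 3, 4, 2, 2, 1, 0, 1, 0, 2, 0]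
  just := [0, 0, 2, 3, 4, 0, 6, 5, 1, 0, 8, 0, 9, 10, 11, 12, 8, 7, 1, 0, 2, 3, 4, 5, 0, 0, 15, 16, 17, 0, 6, 13, 7,
    0, 9, 10, 11, 0, 18, 12, 14, 0, 20, 21, 22, 0, 23, 0, 20, 19, 14, 0, 15, 16, 17, 13, 19, 21, 22, 0, 23, 0, 18, 0]
  gA := 45
  gB := 47
  fin := 0
  sid := [0, 1, 2, 3, 4, 5, 6, 5, 7, 1, 0, 8, 9, 10, 11, 12, 0, 8, 7, 1, 2, 3, 4, 5, 13, 14, 15, 16, 17, 6, 5, 6, 7,
    8, 9, 10, 11, 12, 18, 12, 19, 14, 13, 20, 21, 22, 23, 18, 13, 20, 19, 14, 15, 16, 17, 6, 19, 20, 21, 22, 23, 18,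
    12, 18]
  off := [(0, 0), (0, 0), (0, 0), (0, 0), (0, 0), (0, 0), (0, 0), (-1, 1), (0, 0), (0, 0), (0, 0), (0, 0), (0, 0),
    (0, 0), (0, 0), (0, 0), (1, -1), (1, -1), (0, 0), (0, 0), (0, 0), (0, 0), (0, 0), (0, 0), (0, 0), (0, 0), (0, 0),
    (0, 0), (0, 0), (0, 0), (0, 0), (1, -1), (-1, 1), (0, 0), (0, 0), (0, 0), (0, 0), (0, 0), (0, 0), (-1, 1), (0,
    0), (0, 0), (0, 0), (0, 0), (0, 0), (0, 0), (0, 0), (1, 0), (-1, 1), (-1, 1), (0, 0), (0, 0), (0, 0), (0, 0), (0,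
    0), (0, 0), (0, -1), (-1, 0), (-1, 0), (-1, 0), (-1, 0), (0, 0), (0, 0), (1, -1)]

/-- glued arcs and equations -/
def tord8r_14 : TorT :=
  ⟨[(0, 1, true), (0, 2, false), (1, 3, false), (2, 4, false), (3, 5, false), (4, 6, false), (5, 5, true), (6, 6,
    true), (7, 7, false)],
    [([0, 0, 0, 0, 0, 1, 1, 2], 2), ([0, 0, 0, 0, 1, 0, 1, 0], 2), ([0, 0, 0, 1, 0, 1, 0, 0], 2), ([0, 0, 1, 0, 1, 0,
    0, 0], 2), ([0, 2, 0, 1, 0, 0, 0, 0], 2), ([2, 0, 1, 0, 0, 0, 0, 0], 2)]⟩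

theorem tord8r_14_ok : tord8r_14.OK 8 := TT.leaf_ok (T := ttd8r_14) (by decide +kernel)

/-- the torus -/
def ttd8r_15 : TT where
  k := 8
  rf := [false, false, false, true, true, true, true, false]
  tau := [11, 10, 20, 19, 18, 30, 22, 39, 36, 37, 1, 0, 32, 33, 45, 55, 59, 58, 4, 3, 2, 38, 6, 31, 60, 61, 41, 40,
    56, 57, 5, 23, 12, 13, 49, 48, 8, 9, 21, 7, 27, 26, 52, 51, 50, 14, 54, 63, 35, 34, 44, 43, 42, 62, 46, 15, 28,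
    29, 17, 16, 24, 25, 53, 47]
  par := [0, 0, 2, 5, 7, 14, 15, 16]
  stars := [[0, 32, 12], [1, 11], [2, 10, 38, 21], [3, 20], [4, 19], [5, 18, 58, 30], [6, 31, 23], [7, 22, 39], [8,
    48, 36], [9, 37], [13, 33], [14, 34, 50, 45], [15, 46, 55], [16, 24, 60], [17, 59], [25, 61], [26, 42, 53, 62],
    [27, 41], [28, 56, 40], [29, 57], [35, 49], [43, 52], [44, 51], [47, 63, 54]]
  word := [[], [], [], [], [], [], [1], [], [0], [0], [], [], [2, 1, 3, 0], [2, 1, 3, 0], [], [], [], [], [], [], [],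
    [0], [0], [0], [1], [1], [3], [3], [], [], [], [1], [1, 2, 0, 3], [1, 2, 0, 3], [1], [1], [1], [1], [1], [], [2],
    [2], [2, 1, 3], [2, 1, 3], [2, 1, 3], [], [], [2], [0], [0], [2, 0, 3], [2, 0, 3], [2, 0, 3], [2], [], [], [],
    [], [], [], [0], [0], [3], [3]]
  rank := [0, 1, 0, 1, 2, 0, 1, 0, 4, 3, 1, 0, 11, 10, 0, 0, 0, 1, 2, 1, 0, 2, 1, 0, 1, 2, 6, 5, 4, 3, 0, 0, 11, 10,
    6, 5, 4, 3, 2, 0, 5, 6, 7, 8, 9, 0, 1, 0, 5, 6, 9, 8, 7, 2, 1, 0, 4, 3, 1, 0, 1, 2, 2, 0]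
  just := [0, 1, 0, 3, 4, 0, 6, 0, 9, 2, 1, 0, 10, 11, 0, 0, 0, 14, 4, 3, 0, 7, 6, 0, 13, 15, 17, 18, 19, 5, 0, 0,
    10, 11, 20, 8, 9, 2, 7, 0, 18, 17, 16, 21, 22, 0, 12, 0, 8, 20, 22, 21, 16, 23, 12, 0, 19, 5, 14, 0, 13, 15, 23,
    0]
  gA := 23
  gB := 47
  fin := 0
  sid := [0, 1, 2, 3, 4, 5, 6, 7, 8, 9, 2, 1, 0, 10, 11, 12, 13, 14, 5, 4, 3, 2, 7, 6, 13, 15, 16, 17, 18, 19, 5, 6,
    0, 10, 11, 20, 8, 9, 2, 7, 18, 17, 16, 21, 22, 11, 12, 23, 8, 20, 11, 22, 21, 16, 23, 12, 18, 19, 5, 14, 13, 15,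
    16, 23]
  off := [(0, 0), (0, 0), (0, 0), (0, 0), (0, 0), (0, 0), (0, 0), (0, 0), (0, 0), (0, 0), (0, 0), (0, 0), (0, 0), (0,
    0), (0, 0), (0, 0), (0, 0), (0, 0), (0, 0), (0, 0), (0, 0), (0, 0), (1, 0), (1, 0), (-1, 0), (0, 0), (0, 0), (0,
    0), (0, 0), (0, 0), (0, 0), (0, 0), (0, 0), (0, 0), (0, 0), (0, 0), (-1, 0), (-1, 0), (-1, 0), (0, 0), (0, 1),
    (0, 1), (0, 1), (0, 0), (0, 0), (0, 0), (0, 0), (0, 0), (0, 0), (1, 0), (1, 0), (1, 0), (1, 0), (1, 1), (0, 0),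
    (0, 0), (0, 0), (0, 0), (0, 0), (0, 0), (0, 0), (1, 0), (1, 0), (0, -1)]

/-- glued arcs and equations -/
def tord8r_15 : TorT :=
  ⟨[(0, 3, true), (0, 4, false), (1, 2, true), (1, 5, false), (2, 4, true), (3, 3, true), (5, 6, false), (6, 6,
    true), (7, 7, false)],
    [([0, 0, 0, 0, 0, 0, 1, 2], 2), ([0, 0, 0, 1, 1, 0, 0, 0], 2), ([0, 0, 2, 0, 0, 1, 1, 0], 2), ([0, 1, 0, 0, 0, 1,
    0, 0], 2), ([0, 1, 0, 1, 0, 0, 0, 0], 2), ([2, 0, 0, 0, 1, 0, 0, 0], 2)]⟩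

theorem tord8r_15_ok : tord8r_15.OK 8 := TT.leaf_ok (T := ttd8r_15) (by decide +kernel)

/-- the torus -/
def ttd8r_16 : TT where
  k := 8
  rf := [false, false, true, false, true, false, true, true]
  tau := [11, 10, 22, 29, 28, 27, 30, 23, 20, 21, 1, 0, 16, 17, 34, 39, 12, 13, 33, 32, 8, 9, 2, 7, 43, 42, 54, 5, 4,
    3, 6, 55, 19, 18, 14, 61, 60, 59, 62, 15, 52, 53, 25, 24, 48, 49, 58, 63, 44, 45, 57, 56, 40, 41, 26, 31, 51, 50,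
    46, 37, 36, 35, 38, 47]
  par := [0, 0, 2, 3, 14, 24, 26, 35]
  stars := [[0, 16, 12], [1, 11], [2, 10, 22], [3, 23, 7, 30], [4, 29], [5, 28], [6, 27, 55, 31], [8, 32, 20], [9,
    21], [13, 17], [14, 18, 34], [15, 35, 62, 39], [19, 33], [24, 48, 44], [25, 43], [26, 42, 54], [36, 61], [37,
    60], [38, 63, 47, 59], [40, 56, 52], [41, 53], [45, 49], [46, 50, 58], [51, 57]]
  word := [[], [], [], [], [], [], [2, 0, 3], [2, 0, 3], [], [], [], [], [0], [0], [], [1], [1], [1], [1], [1], [],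
    [], [], [2, 1, 3], [], [], [], [], [], [], [2, 1, 3], [2, 1, 3], [0], [0], [], [], [], [], [0], [0], [], [], [],
    [], [2, 1, 3], [2, 1, 3], [2, 1], [2], [2, 0, 3], [2, 0, 3], [2], [2], [], [], [], [2, 0, 3], [3], [3], [0, 3],
    [], [], [], [1], [3]]
  rank := [0, 1, 0, 0, 1, 2, 9, 10, 3, 2, 1, 0, 7, 6, 0, 1, 7, 6, 5, 4, 3, 2, 0, 10, 0, 1, 0, 2, 1, 0, 9, 8, 4, 5, 0,
    0, 1, 2, 0, 1, 3, 2, 1, 0, 7, 6, 5, 4, 7, 6, 1, 0, 3, 2, 0, 8, 0, 1, 5, 2, 1, 0, 0, 4]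
  just := [0, 1, 0, 0, 4, 5, 6, 3, 8, 2, 1, 0, 9, 10, 0, 11, 9, 10, 12, 7, 8, 2, 0, 3, 0, 14, 0, 5, 4, 0, 6, 13, 7,
    12, 0, 0, 16, 17, 0, 11, 20, 15, 14, 0, 21, 22, 18, 19, 21, 22, 23, 0, 20, 15, 0, 13, 0, 23, 18, 17, 16, 0, 0, 19]
  gA := 38
  gB := 51
  fin := 0
  sid := [0, 1, 2, 3, 4, 5, 6, 3, 7, 8, 2, 1, 0, 9, 10, 11, 0, 9, 10, 12, 7, 8, 2, 3, 13, 14, 15, 6, 5, 4, 3, 6, 7,
    12, 10, 11, 16, 17, 18, 11, 19, 20, 15, 14, 13, 21, 22, 18, 13, 21, 22, 23, 19, 20, 15, 6, 19, 23, 22, 18, 17,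
    16, 11, 18]
  off := [(0, 0), (0, 0), (0, 0), (0, 0), (0, 0), (0, 0), (0, 0), (1, 0), (0, 0), (0, 0), (0, 0), (0, 0), (0, 0), (0,
    0), (0, 0), (0, 0), (-1, 0), (-1, 0), (-1, 0), (0, 0), (0, 0), (0, 0), (0, 0), (0, 0), (0, 0), (0, 0), (0, 0),
    (0, 0), (0, 0), (0, 0), (0, 0), (-1, 0), (1, 0), (1, 0), (0, 0), (0, 0), (0, 0), (0, 0), (0, 0), (1, 0), (0, 0),
    (0, 0), (0, 0), (0, 0), (0, 0), (0, 0), (0, 0), (-1, 1), (1, 0), (1, 0), (1, 0), (0, 0), (0, 0), (0, 0), (0, 0),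
    (0, 0), (0, -1), (0, -1), (1, -1), (0, 0), (0, 0), (0, 0), (0, 0), (-1, 0)]

/-- glued arcs and equations -/
def tord8r_16 : TorT :=
  ⟨[(0, 3, true), (0, 4, false), (1, 2, true), (1, 5, false), (2, 6, false), (3, 5, true), (4, 4, true), (6, 6,
    true), (7, 7, false)],
    [([0, 0, 0, 0, 1, 1, 0, 0], 2), ([0, 0, 0, 1, 0, 0, 1, 2], 2), ([0, 0, 2, 0, 0, 0, 1, 0], 2), ([0, 1, 0, 0, 0, 1,
    0, 0], 2), ([0, 1, 0, 1, 0, 0, 0, 0], 2), ([2, 0, 0, 0, 1, 0, 0, 0], 2)]⟩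

theorem tord8r_16_ok : tord8r_16.OK 8 := TT.leaf_ok (T := ttd8r_16) (by decide +kernel)

/-- the torus -/
def ttd8r_17 : TT where
  k := 4
  rf := [false, true, true, false]
  tau := [10, 11, 8, 9, 16, 28, 27, 23, 2, 3, 0, 1, 24, 20, 19, 31, 4, 29, 30, 14, 13, 25, 26, 7, 12, 21, 22, 6, 5,
    17, 18, 15]
  par := [0, 0, 4, 5]
  stars := [[0, 16, 4, 10], [1, 11], [2, 12, 24, 8], [3, 9], [5, 17, 29], [6, 28], [7, 27, 23], [13, 21, 25], [14,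
    20], [15, 31, 19], [18, 30], [22, 26]]
  word := [[], [], [0, 2, 1], [0, 2, 1], [], [], [], [3], [0, 3, 1], [0, 3, 1], [], [], [0, 2], [0], [0], [0], [],
    [], [], [1], [1], [2], [2], [2], [3, 1], [3], [3], [], [], [], [], [1]]
  rank := [0, 1, 4, 5, 0, 0, 1, 2, 4, 5, 0, 1, 2, 1, 0, 3, 0, 1, 2, 0, 1, 0, 1, 2, 2, 0, 1, 1, 0, 1, 2, 3]
  just := [0, 1, 2, 3, 0, 0, 5, 6, 2, 3, 0, 1, 7, 8, 0, 9, 0, 4, 10, 0, 8, 0, 11, 6, 7, 0, 11, 5, 0, 4, 10, 9]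
  gA := 14
  gB := 21
  fin := 0
  sid := [0, 1, 2, 3, 0, 4, 5, 6, 2, 3, 0, 1, 2, 7, 8, 9, 0, 4, 10, 9, 8, 7, 11, 6, 2, 7, 11, 6, 5, 4, 10, 9]
  off := [(0, 0), (0, 0), (0, 0), (0, 0), (0, 1), (0, 0), (0, 0), (0, 0), (0, -1), (0, -1), (0, 0), (0, 0), (0, 0),
    (0, 0), (0, 0), (0, 0), (0, 1), (0, 0), (0, 0), (-1, 0), (-1, 0), (-1, 0), (0, 0), (0, 1), (-1, -1), (-1, -1),
    (0, -1), (0, 0), (0, 0), (0, 0), (0, 0), (-1, 0)]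

/-- glued arcs and equations -/
def tord8r_17 : TorT :=
  ⟨[(0, 2, false), (0, 4, false), (1, 3, false), (1, 5, false), (2, 6, false), (3, 6, true), (4, 5, true), (7, 7,
    false)],
    [([0, 0, 0, 0, 1, 0, 1, 0], 2), ([0, 0, 0, 1, 0, 0, 0, 2], 2), ([0, 0, 1, 0, 0, 0, 1, 0], 2), ([0, 1, 0, 0, 0, 2,
    0, 0], 2), ([0, 1, 0, 1, 0, 0, 0, 0], 2), ([2, 0, 1, 0, 1, 0, 0, 0], 2)]⟩

theorem tord8r_17_ok : tord8r_17.OK 8 := TT.leaf_ok (T := ttd8r_17) (by decide +kernel)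

/-- the torus -/
def ttd8r_18 : TT where
  k := 8
  rf := [false, false, true, false, true, false, true, true]
  tau := [3, 9, 10, 0, 16, 28, 27, 23, 11, 1, 2, 8, 32, 44, 43, 39, 4, 29, 30, 54, 53, 25, 26, 7, 52, 21, 22, 6, 5,
    17, 18, 55, 12, 45, 46, 62, 61, 41, 42, 15, 60, 37, 38, 14, 13, 33, 34, 63, 51, 57, 58, 48, 24, 20, 19, 31, 59,
    49, 50, 56, 40, 36, 35, 47]
  par := [0, 1, 4, 5, 12, 13, 19, 35]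
  stars := [[0, 16, 4], [1, 3, 10], [2, 9, 11], [5, 17, 29], [6, 28], [7, 27, 23], [8, 32, 12], [13, 33, 45], [14,
    44], [15, 43, 39], [18, 30], [19, 55, 31], [20, 54], [21, 25, 53], [22, 26], [24, 48, 52], [34, 46], [35, 63,
    47], [36, 62], [37, 41, 61], [38, 42], [40, 56, 60], [49, 58, 51], [50, 59, 57]]
  word := [[3], [], [2], [2], [], [], [], [0, 3, 1], [2], [], [3], [3], [], [], [], [2], [], [], [], [], [], [0, 2,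
    1], [0, 2, 1], [0, 2, 1], [0, 3, 1], [0, 3, 1], [0, 3, 1], [], [], [], [], [], [], [], [], [], [], [3], [3], [3],
    [2], [2], [2], [], [], [], [], [], [0, 3, 1], [0, 3], [0], [0, 2, 1], [0, 2, 1], [], [], [], [2], [2, 1], [1],
    [3], [3], [], [], []]
  rank := [10, 0, 9, 10, 0, 0, 1, 7, 8, 0, 9, 8, 0, 0, 1, 7, 0, 1, 2, 0, 1, 5, 6, 7, 4, 5, 6, 1, 0, 1, 2, 3, 0, 1, 2,
    0, 1, 5, 6, 7, 4, 5, 6, 1, 0, 1, 2, 3, 2, 1, 0, 2, 4, 1, 0, 3, 0, 1, 0, 0, 4, 1, 0, 3]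
  just := [1, 0, 2, 1, 0, 0, 4, 5, 6, 0, 2, 6, 0, 0, 8, 9, 0, 3, 10, 0, 12, 13, 14, 5, 15, 13, 14, 4, 0, 3, 10, 11,
    0, 7, 16, 0, 18, 19, 20, 9, 21, 19, 20, 8, 0, 7, 16, 17, 22, 23, 0, 22, 15, 12, 0, 11, 0, 23, 0, 0, 21, 18, 0, 17]
  gA := 50
  gB := 56
  fin := 0
  sid := [0, 1, 2, 1, 0, 3, 4, 5, 6, 2, 1, 2, 6, 7, 8, 9, 0, 3, 10, 11, 12, 13, 14, 5, 15, 13, 14, 5, 4, 3, 10, 11,
    6, 7, 16, 17, 18, 19, 20, 9, 21, 19, 20, 9, 8, 7, 16, 17, 15, 22, 23, 22, 15, 13, 12, 11, 21, 23, 22, 23, 21, 19,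
    18, 17]
  off := [(0, 0), (0, 0), (0, 0), (0, 1), (0, 1), (0, 0), (0, 0), (0, 0), (0, 0), (0, 0), (0, 0), (0, -1), (0, -1),
    (0, 0), (0, 0), (0, 0), (0, 1), (0, 0), (0, 0), (0, 0), (0, 0), (0, 0), (0, 0), (0, 1), (0, 0), (0, -1), (0, -1),
    (0, 0), (0, 0), (0, 0), (0, 0), (0, 0), (0, -1), (0, 0), (0, 0), (0, 0), (0, 0), (0, 0), (0, 0), (0, -1), (0, 0),
    (0, 1), (0, 1), (0, 0), (0, 0), (0, 0), (0, 0), (0, 0), (0, 0), (0, 0), (0, 0), (0, 1), (0, 1), (0, 0), (0, 0),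
    (0, 0), (0, 0), (-1, 1), (-1, 1), (-1, 0), (0, -1), (0, 0), (0, 0), (0, 0)]

/-- glued arcs and equations -/
def tord8r_18 : TorT :=
  ⟨[(0, 3, true), (0, 4, false), (1, 1, true), (1, 5, false), (2, 2, true), (2, 6, false), (3, 6, true), (4, 5,
    true), (7, 7, false)],
    [([0, 0, 0, 0, 1, 0, 1, 0], 2), ([0, 0, 0, 1, 0, 0, 0, 2], 2), ([0, 0, 1, 0, 0, 0, 1, 0], 2), ([0, 1, 0, 0, 0, 2,
    0, 0], 2), ([0, 1, 1, 1, 0, 0, 0, 0], 2), ([2, 0, 0, 0, 1, 0, 0, 0], 2)]⟩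

theorem tord8r_18_ok : tord8r_18.OK 8 := TT.leaf_ok (T := ttd8r_18) (by decide +kernel)

/-- the torus -/
def ttd8r_19 : TT where
  k := 8
  rf := [false, false, true, true, false, false, true, true]
  tau := [8, 16, 30, 38, 37, 41, 26, 55, 0, 48, 62, 46, 45, 33, 58, 23, 1, 29, 52, 51, 50, 60, 59, 15, 56, 40, 6, 54,
    53, 17, 2, 39, 57, 13, 44, 43, 42, 4, 3, 31, 25, 5, 36, 35, 34, 12, 11, 63, 9, 61, 20, 19, 18, 28, 27, 7, 24, 32,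
    14, 22, 21, 49, 10, 47]
  par := [0, 0, 1, 2, 3, 5, 7, 10]
  stars := [[0, 48, 9], [1, 8, 16], [2, 17, 30], [3, 31, 39], [4, 38], [5, 37, 42], [6, 41, 26], [7, 27, 55], [10,
    49, 62], [11, 63, 47], [12, 46], [13, 45, 34], [14, 33, 58], [15, 59, 23], [18, 53, 29], [19, 52], [20, 51], [21,
    61, 50], [22, 60], [24, 57, 32], [25, 40, 56], [28, 54], [35, 44], [36, 43]]
  word := [[], [], [], [], [], [], [1], [], [], [3, 1, 2, 0], [], [3], [3], [3], [3, 0, 2], [], [], [], [0], [0],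
    [0], [3, 0, 2], [3, 0, 2], [], [0, 2], [0], [0], [0], [0], [], [], [], [0, 2], [2], [], [], [], [], [], [], [1],
    [], [], [], [], [2], [2], [2], [1, 3, 0, 2], [1, 3, 0, 2], [1], [1], [1], [1], [1], [], [3, 1], [3, 1], [3, 1,
    2], [3, 1, 2], [3, 1, 2], [3, 1, 2, 0], [], [3]]
  rank := [0, 0, 0, 0, 1, 0, 1, 0, 0, 10, 0, 1, 2, 5, 6, 1, 0, 1, 4, 5, 6, 8, 7, 1, 1, 0, 1, 2, 3, 1, 0, 1, 2, 5, 4,
    3, 2, 1, 0, 1, 0, 0, 2, 3, 4, 2, 1, 0, 10, 9, 6, 5, 4, 3, 2, 0, 1, 2, 6, 7, 8, 9, 0, 0]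
  just := [0, 0, 0, 0, 4, 0, 6, 0, 0, 8, 0, 9, 10, 11, 12, 1, 0, 2, 14, 15, 16, 18, 13, 1, 20, 0, 6, 7, 21, 2, 0, 3,
    19, 11, 22, 23, 5, 4, 0, 3, 0, 0, 5, 23, 22, 10, 9, 0, 8, 17, 16, 15, 14, 21, 7, 0, 20, 19, 12, 13, 18, 17, 0, 0]
  gA := 25
  gB := 47
  fin := 0
  sid := [0, 1, 2, 3, 4, 5, 6, 7, 1, 0, 8, 9, 10, 11, 12, 13, 1, 2, 14, 15, 16, 17, 18, 13, 19, 20, 6, 7, 21, 14, 2,
    3, 19, 12, 11, 22, 23, 5, 4, 3, 20, 6, 5, 23, 22, 11, 10, 9, 0, 8, 17, 16, 15, 14, 21, 7, 20, 19, 12, 13, 18, 17,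
    8, 9]
  off := [(0, 0), (0, 0), (0, 0), (0, 0), (0, 0), (0, 0), (0, 0), (0, 0), (0, 0), (0, 0), (0, 0), (0, 0), (0, 0), (0,
    0), (0, 0), (0, 0), (0, 0), (0, 0), (0, 0), (0, 0), (0, 0), (0, 0), (0, 0), (0, 0), (0, 0), (0, 0), (1, 0), (1,
    0), (0, 0), (0, 0), (0, 0), (0, 0), (0, 0), (0, 1), (0, 1), (0, 0), (0, 0), (0, 0), (0, 0), (0, 0), (-1, 0), (0,
    0), (0, 0), (0, 0), (0, 0), (0, 1), (0, 1), (0, 1), (0, 0), (0, 0), (-1, 0), (-1, 0), (-1, 0), (-1, 0), (-1, 0),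
    (0, 0), (-1, -1), (-1, -1), (-1, 0), (-1, 0), (-1, 0), (-1, 0), (0, 0), (0, 0)]

/-- glued arcs and equations -/
def tord8r_19 : TorT :=
  ⟨[(0, 0, true), (0, 1, false), (1, 5, true), (2, 4, true), (2, 6, false), (3, 3, true), (3, 6, true), (4, 5, true),
    (7, 7, false)],
    [([0, 0, 0, 0, 1, 0, 1, 0], 2), ([0, 0, 0, 1, 0, 0, 0, 2], 2), ([0, 0, 0, 1, 1, 0, 0, 0], 2), ([0, 0, 1, 0, 0, 2,
    0, 0], 2), ([0, 1, 1, 0, 0, 0, 1, 0], 2), ([2, 1, 0, 0, 0, 0, 0, 0], 2)]⟩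

theorem tord8r_19_ok : tord8r_19.OK 8 := TT.leaf_ok (T := ttd8r_19) (by decide +kernel)

/-- the torus -/
def ttd8r_20 : TT where
  k := 8
  rf := [false, false, false, false, true, true, true, true]
  tau := [10, 9, 8, 21, 27, 26, 25, 39, 2, 1, 0, 29, 19, 18, 17, 47, 46, 14, 13, 12, 28, 3, 40, 55, 38, 6, 5, 4, 20,
    11, 32, 63, 30, 62, 61, 60, 44, 51, 24, 7, 22, 54, 53, 52, 36, 59, 16, 15, 58, 57, 56, 37, 43, 42, 41, 23, 50,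
    49, 48, 45, 35, 34, 33, 31]
  par := [0, 0, 3, 4, 7, 15, 23, 31]
  stars := [[0, 32, 30, 11], [1, 10], [2, 9], [3, 8, 40, 22], [4, 21, 28], [5, 27], [6, 26], [7, 25, 39], [12, 29,
    20], [13, 19], [14, 18], [15, 17, 47], [16, 48, 59, 46], [23, 41, 55], [24, 56, 51, 38], [31, 33, 63], [34, 62],
    [35, 61], [36, 45, 60], [37, 52, 44], [42, 54], [43, 53], [49, 58], [50, 57]]
  word := [[], [], [], [], [], [], [], [], [], [], [], [0, 3], [0, 3], [0, 3], [0, 3], [], [2, 1], [2, 1], [2, 1],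
    [2, 1], [], [], [], [], [], [], [], [], [], [2, 1], [1, 2], [], [3, 0], [3, 0], [3, 0], [3, 0], [3], [3], [], [],
    [], [], [], [], [2], [0], [0, 3], [], [2], [2], [2], [2], [], [], [], [], [3], [3], [3], [1], [1, 2], [1, 2], [1,
    2], []]
  rank := [0, 1, 2, 0, 0, 1, 2, 0, 2, 1, 0, 7, 6, 5, 4, 0, 3, 4, 5, 6, 1, 0, 3, 0, 3, 2, 1, 0, 1, 7, 11, 0, 11, 10,
    9, 8, 7, 4, 3, 0, 3, 4, 5, 6, 7, 0, 3, 0, 2, 1, 0, 4, 6, 5, 4, 0, 0, 1, 2, 0, 8, 9, 10, 0]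
  just := [0, 1, 2, 0, 0, 5, 6, 0, 2, 1, 0, 8, 9, 10, 11, 0, 12, 11, 10, 9, 4, 0, 3, 0, 7, 6, 5, 0, 4, 8, 15, 0, 15,
    16, 17, 18, 19, 14, 7, 0, 3, 13, 20, 21, 19, 0, 12, 0, 22, 23, 0, 14, 21, 20, 13, 0, 0, 23, 22, 0, 18, 17, 16, 0]
  gA := 45
  gB := 50
  fin := 0
  sid := [0, 1, 2, 3, 4, 5, 6, 7, 3, 2, 1, 0, 8, 9, 10, 11, 12, 11, 10, 9, 8, 4, 3, 13, 14, 7, 6, 5, 4, 8, 0, 15, 0,
    15, 16, 17, 18, 19, 14, 7, 3, 13, 20, 21, 19, 18, 12, 11, 12, 22, 23, 14, 19, 21, 20, 13, 14, 23, 22, 12, 18, 17,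
    16, 15]
  off := [(0, 0), (0, 0), (0, 0), (0, 0), (0, 0), (0, 0), (0, 0), (0, 0), (0, 0), (0, 0), (0, 0), (0, 0), (0, 0), (0,
    0), (0, 0), (0, 0), (0, 0), (-1, 1), (-1, 1), (-1, 1), (-1, 1), (0, 0), (0, 0), (0, 0), (0, 0), (0, 0), (0, 0),
    (0, 0), (0, 0), (-1, 1), (-1, 1), (0, 0), (0, 0), (1, -1), (0, 0), (0, 0), (0, 0), (0, 0), (0, 0), (0, 0), (0,
    0), (0, 0), (0, 0), (0, 0), (0, 1), (0, 1), (1, -1), (0, 0), (0, 0), (0, 0), (0, 0), (0, 1), (0, 1), (0, 0), (0,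
    0), (0, 0), (0, 0), (0, -1), (0, -1), (0, -1), (-1, 1), (-1, 1), (-1, 1), (0, 0)]

/-- glued arcs and equations -/
def tord8r_20 : TorT :=
  ⟨[(0, 2, true), (0, 6, false), (1, 1, true), (1, 6, true), (2, 5, true), (3, 4, true), (3, 5, true), (4, 4, true),
    (7, 7, false)],
    [([0, 0, 0, 0, 2, 1, 0, 0], 2), ([0, 0, 0, 1, 0, 1, 0, 0], 2), ([0, 0, 1, 0, 0, 0, 1, 0], 2), ([0, 1, 0, 0, 0, 0,
    0, 2], 2), ([0, 1, 1, 0, 0, 0, 0, 0], 2), ([2, 0, 0, 1, 0, 0, 1, 0], 2)]⟩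

theorem tord8r_20_ok : tord8r_20.OK 8 := TT.leaf_ok (T := ttd8r_20) (by decide +kernel)

/-- the torus -/
def ttd8r_21 : TT where
  k := 8
  rf := [false, false, true, false, true, false, true, true]
  tau := [9, 19, 20, 21, 30, 29, 28, 23, 18, 0, 16, 33, 34, 35, 46, 39, 10, 32, 8, 1, 2, 3, 54, 7, 41, 51, 52, 53, 6,
    5, 4, 55, 17, 11, 12, 13, 62, 61, 60, 15, 50, 24, 48, 57, 58, 59, 14, 63, 42, 56, 40, 25, 26, 27, 22, 31, 49, 43,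
    44, 45, 38, 37, 36, 47]
  par := [0, 0, 1, 4, 11, 14, 22, 36]
  stars := [[0, 16, 10], [1, 9, 19], [2, 20], [3, 21], [4, 22, 55, 31], [5, 30], [6, 29], [7, 28, 54, 23], [8, 32,
    18], [11, 17, 33], [12, 34], [13, 35], [14, 36, 63, 47], [15, 46, 60, 39], [24, 48, 42], [25, 41, 51], [26, 52],
    [27, 53], [37, 62], [38, 61], [40, 56, 50], [43, 49, 57], [44, 58], [45, 59]]
  word := [[], [], [], [], [], [], [], [2, 1, 3], [], [], [1], [], [], [], [], [0], [0], [0], [], [], [], [], [], [2,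
    0, 3], [2, 1], [2, 1, 3], [2, 1, 3], [2, 1, 3], [], [], [], [], [1], [], [], [], [], [], [], [1], [3], [0, 3],
    [0, 3], [0], [0], [0], [], [], [2, 1], [2], [2], [2, 0, 3], [2, 0, 3], [2, 0, 3], [], [], [3], [1], [1], [1], [],
    [], [], []]
  rank := [0, 0, 1, 2, 0, 1, 2, 8, 1, 0, 5, 0, 1, 2, 0, 3, 5, 4, 1, 0, 1, 2, 0, 8, 4, 5, 6, 7, 2, 1, 0, 3, 4, 0, 1,
    2, 0, 1, 2, 3, 4, 4, 1, 0, 1, 2, 0, 3, 1, 0, 4, 5, 6, 7, 0, 3, 0, 0, 1, 2, 2, 1, 0, 3]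
  just := [0, 0, 2, 3, 0, 5, 6, 7, 1, 0, 9, 0, 10, 11, 0, 13, 9, 8, 1, 0, 2, 3, 0, 7, 14, 15, 16, 17, 6, 5, 0, 4, 8,
    0, 10, 11, 0, 18, 19, 13, 20, 14, 21, 0, 22, 23, 0, 12, 21, 0, 20, 15, 16, 17, 0, 4, 0, 0, 22, 23, 19, 18, 0, 12]
  gA := 43
  gB := 49
  fin := 0
  sid := [0, 1, 2, 3, 4, 5, 6, 7, 8, 1, 0, 9, 10, 11, 12, 13, 0, 9, 8, 1, 2, 3, 4, 7, 14, 15, 16, 17, 7, 6, 5, 4, 8,
    9, 10, 11, 12, 18, 19, 13, 20, 15, 14, 21, 22, 23, 13, 12, 14, 21, 20, 15, 16, 17, 7, 4, 20, 21, 22, 23, 13, 19,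
    18, 12]
  off := [(0, 0), (0, 0), (0, 0), (0, 0), (0, 0), (0, 0), (0, 0), (0, 0), (0, 0), (0, 0), (0, 0), (0, 0), (0, 0), (0,
    0), (0, 0), (0, 0), (1, 0), (1, 0), (0, 0), (0, 0), (0, 0), (0, 0), (0, 0), (1, 0), (0, 0), (0, 0), (0, 0), (0,
    0), (0, 0), (0, 0), (0, 0), (0, 0), (-1, 0), (0, 0), (0, 0), (0, 0), (0, 0), (0, 0), (0, 0), (-1, 0), (0, 0), (1,
    -1), (1, -1), (0, 0), (0, 0), (0, 0), (0, 0), (0, 0), (0, 0), (-1, 1), (0, 1), (1, 0), (1, 0), (1, 0), (1, 0),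
    (0, 0), (0, 0), (-1, 0), (-1, 0), (-1, 0), (-1, 0), (0, 0), (0, 0), (0, 0)]

/-- glued arcs and equations -/
def tord8r_21 : TorT :=
  ⟨[(0, 1, true), (0, 2, false), (1, 3, false), (2, 4, false), (3, 5, false), (4, 6, true), (5, 5, true), (6, 6,
    true), (7, 7, false)],
    [([0, 0, 0, 0, 0, 1, 1, 0], 2), ([0, 0, 0, 0, 1, 0, 1, 2], 2), ([0, 0, 0, 1, 0, 1, 0, 0], 2), ([0, 0, 1, 0, 1, 0,
    0, 0], 2), ([0, 2, 0, 1, 0, 0, 0, 0], 2), ([2, 0, 1, 0, 0, 0, 0, 0], 2)]⟩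

theorem tord8r_21_ok : tord8r_21.OK 8 := TT.leaf_ok (T := ttd8r_21) (by decide +kernel)

end Pool.Agent.Lib_MP_fa6e45
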