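import Pool.Agent.Lib_MP_fa6e45.CT5

/-!
MP_fa6e45_co, stage 9: straight-side patterns with `8` sides, tables of tori (generated by a program).
-/

namespace Pool.Agent.Lib_MP_fa6e45

/-- the torus -/
def ttd8r_110 : TT where
  k := 24
  rf := [false, false, false, false, false, false, false, false, false, false, false, false, false, false, false,
    false, false, false, false, false, false, false, false, false]
  tau := [9, 16, 23, 26, 25, 36, 35, 10, 41, 0, 7, 54, 53, 56, 63, 42, 1, 64, 71, 74, 73, 84, 83, 2, 37, 4, 3, 94,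
    93, 96, 103, 38, 109, 116, 115, 6, 5, 24, 31, 110, 121, 8, 15, 130, 129, 140, 139, 122, 113, 80, 87, 58, 57, 12,
    11, 114, 13, 52, 51, 146, 145, 156, 155, 14, 17, 120, 127, 166, 165, 168, 175, 18, 85, 20, 19, 178, 177, 148,
    147, 86, 49, 88, 95, 22, 21, 72, 79, 50, 81, 160, 167, 98, 97, 28, 27, 82, 29, 92, 91, 126, 125, 104, 111, 30,
    101, 124, 123, 118, 117, 32, 39, 102, 137, 48, 55, 34, 33, 108, 107, 138, 65, 40, 47, 106, 105, 100, 99, 66, 141,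
    44, 43, 154, 153, 188, 187, 142, 161, 112, 119, 46, 45, 128, 135, 162, 157, 60, 59, 78, 77, 176, 183, 158, 189,
    132, 131, 62, 61, 144, 151, 190, 89, 136, 143, 170, 169, 68, 67, 90, 69, 164, 163, 186, 185, 180, 179, 70, 149,
    76, 75, 174, 173, 184, 191, 150, 181, 172, 171, 134, 133, 152, 159, 182]
  par := [0, 0, 1, 3, 5, 8, 11, 13, 17, 19, 21, 27, 29, 32, 33, 40, 43, 45, 59, 61, 67, 69, 75, 133]
  stars := [[0, 10], [1, 9, 41, 121, 65, 17], [2, 16], [3, 23, 83, 95, 27], [4, 26], [5, 25, 37], [6, 36], [7, 35,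
    115, 55, 11], [8, 42], [12, 54], [13, 53, 57], [14, 56], [15, 63, 155, 131, 43], [18, 64], [19, 71, 175, 179,
    75], [20, 74], [21, 73, 85], [22, 84], [24, 38], [28, 94], [29, 93, 97], [30, 96], [31, 103, 111, 39], [32, 110],
    [33, 109, 117], [34, 116], [40, 122], [44, 130], [45, 129, 141], [46, 140], [47, 139, 119, 107, 123], [48, 114],
    [49, 113, 137, 161, 89, 81], [50, 80], [51, 87, 79, 147, 59], [52, 58], [60, 146], [61, 145, 157], [62, 156],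
    [66, 120], [67, 127, 99, 91, 167], [68, 166], [69, 165, 169], [70, 168], [72, 86], [76, 178], [77, 177, 149],
    [78, 148], [82, 88], [90, 160], [92, 98], [100, 126], [101, 125, 105], [102, 104], [106, 124], [108, 118], [112,
    138], [128, 142], [132, 154], [133, 153, 189], [134, 188], [135, 187, 171, 163, 143], [136, 162], [144, 158],
    [150, 176], [151, 183, 191, 159], [152, 190], [164, 170], [172, 186], [173, 185, 181], [174, 180], [182, 184]]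
  word := [[], [], [], [], [], [], [], [0, 3, 1, 2], [], [], [3, 0, 2, 1], [], [], [], [], [], [], [], [], [], [],
    [], [], [], [], [], [], [], [], [], [], [], [], [], [], [], [], [], [], [], [], [], [], [], [], [], [], [], [3,
    0, 2, 1], [3], [3], [], [], [], [], [3, 0, 2, 1], [], [], [], [], [], [], [], [], [], [], [], [], [], [], [], [],
    [], [], [], [], [], [2], [2], [], [2], [], [], [], [], [], [], [2], [], [0], [0], [], [], [], [], [], [], [], [],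
    [0], [0], [], [], [], [], [0], [0], [], [], [], [], [], [0], [0, 3, 1, 2], [0, 3, 1, 2], [], [], [], [], [0], [],
    [], [], [1], [1], [1], [1], [], [], [], [], [], [], [], [], [], [3], [1], [1], [], [], [], [], [3], [], [], [],
    [3], [3], [3], [3], [], [], [], [], [], [], [], [], [], [1], [2], [2], [], [], [], [], [1], [], [], [], [2], [2],
    [], [], [], [2], [], [], [], [], [2], [2], [2], [3], [3], [3], [], [], [], [], [3]]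
  rank := [0, 0, 1, 0, 1, 0, 1, 14, 0, 0, 14, 0, 1, 0, 1, 1, 0, 0, 1, 0, 1, 0, 1, 1, 2, 1, 0, 0, 1, 0, 1, 3, 0, 0, 1,
    1, 0, 2, 3, 1, 0, 0, 1, 0, 1, 0, 1, 1, 12, 11, 10, 3, 2, 1, 0, 13, 0, 2, 3, 0, 1, 0, 1, 1, 0, 1, 2, 0, 1, 0, 1,
    1, 2, 1, 0, 0, 1, 8, 9, 3, 11, 3, 2, 1, 0, 2, 3, 10, 3, 9, 8, 3, 2, 1, 0, 2, 0, 2, 3, 7, 6, 5, 4, 1, 5, 0, 1, 2,
    1, 0, 1, 4, 4, 12, 13, 1, 0, 1, 2, 3, 1, 0, 1, 1, 0, 6, 7, 2, 2, 1, 0, 2, 3, 0, 1, 3, 7, 4, 3, 1, 0, 2, 3, 6, 2,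
    1, 0, 9, 8, 7, 6, 3, 4, 3, 2, 1, 0, 2, 3, 5, 9, 7, 6, 3, 2, 1, 0, 8, 0, 2, 3, 5, 4, 3, 2, 1, 7, 1, 0, 2, 3, 1, 0,
    6, 1, 4, 5, 1, 0, 4, 5, 0]
  just := [0, 0, 2, 0, 4, 0, 6, 7, 0, 0, 7, 0, 9, 0, 11, 8, 0, 0, 13, 0, 15, 0, 17, 2, 5, 4, 0, 0, 19, 0, 21, 18, 0,
    0, 25, 6, 0, 5, 18, 23, 0, 0, 8, 0, 27, 0, 29, 26, 32, 33, 34, 35, 10, 9, 0, 31, 0, 10, 35, 0, 36, 0, 38, 11, 0,
    1, 39, 0, 41, 0, 43, 13, 16, 15, 0, 0, 45, 46, 47, 44, 33, 48, 3, 17, 0, 16, 44, 34, 48, 49, 40, 50, 20, 19, 0,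
    3, 0, 20, 50, 51, 52, 53, 22, 21, 53, 0, 54, 55, 24, 0, 23, 22, 56, 32, 31, 25, 0, 24, 55, 30, 1, 0, 26, 54, 0,
    52, 51, 39, 28, 27, 0, 12, 58, 0, 60, 57, 62, 56, 30, 29, 0, 28, 57, 61, 37, 36, 0, 47, 46, 64, 65, 63, 59, 58,
    12, 38, 0, 37, 63, 66, 49, 62, 61, 67, 42, 41, 0, 40, 0, 42, 67, 68, 69, 70, 14, 43, 64, 45, 0, 14, 70, 71, 0,
    65, 71, 69, 68, 60, 0, 59, 66, 0]
  gA := 105
  gB := 182
  fin := 0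
  sid := [0, 1, 2, 3, 4, 5, 6, 7, 8, 1, 0, 7, 9, 10, 11, 12, 2, 1, 13, 14, 15, 16, 17, 3, 18, 5, 4, 3, 19, 20, 21,
    22, 23, 24, 25, 7, 6, 5, 18, 22, 26, 1, 8, 12, 27, 28, 29, 30, 31, 32, 33, 34, 35, 10, 9, 7, 11, 10, 35, 34, 36,
    37, 38, 12, 13, 1, 39, 40, 41, 42, 43, 14, 44, 16, 15, 14, 45, 46, 47, 34, 33, 32, 48, 3, 17, 16, 44, 34, 48, 32,
    49, 40, 50, 20, 19, 3, 21, 20, 50, 40, 51, 52, 53, 22, 53, 52, 54, 30, 55, 24, 23, 22, 56, 32, 31, 7, 25, 24, 55,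
    30, 39, 1, 26, 30, 54, 52, 51, 40, 57, 28, 27, 12, 58, 59, 60, 61, 62, 32, 56, 30, 29, 28, 57, 61, 63, 37, 36,
    34, 47, 46, 64, 65, 66, 59, 58, 12, 38, 37, 63, 65, 49, 32, 62, 61, 67, 42, 41, 40, 43, 42, 67, 61, 68, 69, 70,
    14, 64, 46, 45, 14, 70, 69, 71, 65, 71, 69, 68, 61, 60, 59, 66, 65]
  off := [(0, 0), (0, 0), (0, 0), (0, 0), (0, 0), (0, 0), (0, 0), (0, 0), (0, 0), (0, 0), (0, 0), (0, 0), (0, 0), (0,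
    0), (0, 0), (0, 0), (0, 0), (0, 0), (0, 0), (0, 0), (0, 0), (0, 0), (0, 0), (0, 0), (0, 0), (0, 0), (0, 0), (0,
    0), (0, 0), (0, 0), (0, 0), (0, 0), (0, 0), (0, 0), (0, 0), (0, 0), (0, 0), (0, 0), (0, 0), (0, 0), (0, 0), (0,
    0), (0, 0), (0, 0), (0, 0), (0, 0), (0, 0), (0, 0), (0, 0), (0, 0), (0, 0), (0, 0), (0, 0), (0, 0), (0, 0), (0,
    0), (0, 0), (0, 0), (0, 0), (0, 0), (0, 0), (0, 0), (0, 0), (0, 0), (0, 0), (0, 0), (0, 0), (0, 0), (0, 0), (0,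
    0), (0, 0), (0, 0), (0, 0), (0, 0), (0, 0), (0, 0), (0, 0), (0, 0), (0, 0), (0, 1), (0, 1), (0, 1), (0, 0), (0,
    0), (0, 0), (0, 0), (0, 0), (0, 1), (0, 0), (0, 1), (0, 0), (1, 0), (0, 0), (0, 0), (0, 0), (0, 0), (0, 0), (0,
    0), (0, 0), (1, 0), (0, 0), (0, 0), (0, 0), (0, 0), (0, 0), (0, 0), (0, 0), (1, 0), (0, 0), (0, 0), (0, 0), (0,
    0), (0, 0), (0, 0), (0, 0), (0, 0), (0, 0), (0, 0), (0, 0), (1, 0), (0, 0), (0, 0), (0, 0), (0, 0), (-1, 0), (-1,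
    0), (-1, 0), (0, 0), (0, 0), (0, 0), (0, 0), (0, 0), (0, 0), (0, 0), (0, 0), (0, 0), (0, 0), (-1, 0), (-1, 0),
    (0, 0), (0, 0), (0, 0), (0, 0), (0, 0), (0, 0), (0, 0), (0, 0), (0, 0), (0, -1), (0, -1), (0, 0), (0, 0), (0, 0),
    (0, 0), (0, 0), (0, 0), (0, 0), (0, 0), (0, 0), (0, 0), (-1, 0), (-1, 1), (0, 1), (0, 1), (0, 0), (0, 0), (0, 0),
    (0, 0), (0, 0), (0, 0), (0, 0), (0, 1), (0, 0), (0, 0), (0, 0), (0, 0), (0, 1), (0, 0), (0, 0), (0, 0), (0, 0),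
    (0, 0), (0, 0), (0, 1), (0, -1), (0, -1), (0, -1), (0, 0), (0, 0), (0, 0), (0, 0), (0, 0)]

/-- glued arcs and equations -/
def tord8r_110 : TorT :=
  ⟨[(0, 1, true), (0, 5, true), (1, 4, true), (2, 3, true), (2, 7, true), (3, 6, true), (4, 5, true), (6, 7, true)],
    [([0, 0, 0, 0, 0, 0, 0, 4], 2), ([0, 0, 0, 0, 1, 0, 1, 0], 2), ([0, 0, 0, 3, 0, 0, 0, 2], 2), ([0, 0, 1, 0, 1, 0,
    0, 0], 2), ([0, 1, 0, 0, 0, 2, 0, 0], 2), ([0, 6, 0, 0, 0, 0, 0, 0], 2), ([1, 0, 0, 0, 0, 0, 1, 0], 2), ([1, 0,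
    1, 0, 0, 0, 0, 0], 2)]⟩

theorem tord8r_110_ok : tord8r_110.OK 8 := TT.leaf_ok (T := ttd8r_110) (by decide +kernel)

/-- the torus -/
def ttd8r_111 : TT where
  k := 16
  rf := [false, false, false, false, false, false, false, false, false, false, false, false, false, false, false,
    false]
  tau := [9, 16, 23, 26, 25, 36, 35, 10, 41, 0, 7, 50, 49, 60, 59, 42, 1, 40, 47, 66, 65, 76, 75, 2, 37, 4, 3, 58,
    57, 84, 83, 38, 93, 68, 67, 6, 5, 24, 31, 94, 17, 8, 15, 98, 97, 108, 107, 18, 61, 12, 11, 106, 105, 116, 115,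
    62, 85, 28, 27, 14, 13, 48, 55, 86, 77, 20, 19, 34, 33, 92, 91, 78, 125, 100, 99, 22, 21, 64, 71, 126, 113, 88,
    95, 30, 29, 56, 63, 114, 81, 120, 127, 70, 69, 32, 39, 82, 109, 44, 43, 74, 73, 124, 123, 110, 117, 52, 51, 46,
    45, 96, 103, 118, 121, 80, 87, 54, 53, 104, 111, 122, 89, 112, 119, 102, 101, 72, 79, 90]
  par := [0, 0, 1, 3, 5, 8, 11, 13, 19, 21, 29, 32, 43, 45, 53, 72]
  stars := [[0, 10], [1, 9, 41, 17], [2, 16], [3, 23, 75, 99, 43, 15, 59, 27], [4, 26], [5, 25, 37], [6, 36], [7, 35,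
    67, 19, 47, 107, 51, 11], [8, 42], [12, 50], [13, 49, 61], [14, 60], [18, 40], [20, 66], [21, 65, 77], [22, 76],
    [24, 38], [28, 58], [29, 57, 85], [30, 84], [31, 83, 95, 39], [32, 94], [33, 93, 69], [34, 68], [44, 98], [45,
    97, 109], [46, 108], [48, 62], [52, 106], [53, 105, 117], [54, 116], [55, 115, 87, 63], [56, 86], [64, 78], [70,
    92], [71, 91, 127, 79], [72, 126], [73, 125, 101], [74, 100], [80, 114], [81, 113, 121, 89], [82, 88], [90, 120],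
    [96, 110], [102, 124], [103, 123, 119, 111], [104, 118], [112, 122]]
  word := [[], [], [], [], [], [], [], [0, 2, 1, 3], [], [], [2, 0, 3, 1], [], [], [], [], [], [], [], [], [], [],
    [], [], [], [], [], [], [0], [0], [], [], [], [], [0, 2], [0, 2], [], [], [], [], [], [], [], [], [], [], [], [],
    [], [], [], [], [2, 0], [2, 0], [], [], [], [1], [1], [1], [], [], [], [], [1], [], [], [], [3, 1], [3, 1], [3,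
    1], [3, 1], [], [], [0], [0], [], [], [], [], [], [0], [], [], [], [], [0], [0], [0], [], [0, 2], [0, 2], [0, 2],
    [0, 2], [], [], [], [], [], [], [1], [1], [1], [1], [], [1, 3], [1, 3], [1, 3], [], [], [], [], [1, 3], [2], [1],
    [1], [], [], [2, 0], [2, 0], [2], [3, 1], [3], [3], [0], [0], [], [], [3, 1]]
  rank := [0, 0, 1, 0, 1, 0, 1, 12, 0, 0, 12, 0, 1, 0, 1, 1, 0, 1, 2, 0, 1, 0, 1, 1, 2, 1, 0, 1, 0, 0, 1, 3, 0, 10,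
    11, 1, 0, 2, 3, 1, 1, 0, 1, 0, 1, 0, 1, 2, 2, 1, 0, 9, 8, 0, 1, 3, 1, 0, 1, 1, 0, 2, 3, 2, 2, 1, 0, 11, 10, 9, 8,
    3, 0, 3, 2, 1, 0, 2, 3, 1, 5, 5, 4, 1, 0, 1, 2, 4, 5, 6, 7, 8, 9, 0, 1, 4, 2, 1, 0, 2, 3, 4, 5, 3, 7, 8, 9, 1, 0,
    2, 3, 6, 0, 5, 4, 1, 0, 7, 6, 1, 6, 0, 1, 5, 4, 0, 1, 7]
  just := [0, 0, 2, 0, 4, 0, 6, 7, 0, 0, 7, 0, 9, 0, 11, 8, 0, 1, 12, 0, 13, 0, 15, 2, 5, 4, 0, 17, 0, 0, 19, 16, 0,
    22, 23, 6, 0, 5, 16, 21, 1, 0, 8, 0, 24, 0, 26, 12, 10, 9, 0, 28, 29, 0, 30, 27, 18, 0, 17, 11, 0, 10, 27, 32,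
    14, 13, 0, 23, 22, 34, 35, 33, 0, 38, 3, 15, 0, 14, 33, 36, 39, 41, 20, 19, 0, 18, 32, 31, 41, 40, 42, 35, 34, 0,
    21, 20, 25, 24, 0, 3, 38, 37, 44, 43, 46, 29, 28, 26, 0, 25, 43, 45, 0, 39, 31, 30, 0, 46, 45, 47, 40, 0, 47, 44,
    37, 0, 36, 42]
  gA := 28
  gB := 112
  fin := 0
  sid := [0, 1, 2, 3, 4, 5, 6, 7, 8, 1, 0, 7, 9, 10, 11, 3, 2, 1, 12, 7, 13, 14, 15, 3, 16, 5, 4, 3, 17, 18, 19, 20,
    21, 22, 23, 7, 6, 5, 16, 20, 12, 1, 8, 3, 24, 25, 26, 7, 27, 10, 9, 7, 28, 29, 30, 31, 32, 18, 17, 3, 11, 10, 27,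
    31, 33, 14, 13, 7, 23, 22, 34, 35, 36, 37, 38, 3, 15, 14, 33, 35, 39, 40, 41, 20, 19, 18, 32, 31, 41, 40, 42, 35,
    34, 22, 21, 20, 43, 25, 24, 3, 38, 37, 44, 45, 46, 29, 28, 7, 26, 25, 43, 45, 47, 40, 39, 31, 30, 29, 46, 45, 42,
    40, 47, 45, 44, 37, 36, 35]
  off := [(0, 0), (0, 0), (0, 0), (0, 0), (0, 0), (0, 0), (0, 0), (0, 0), (0, 0), (0, 0), (0, 0), (0, 0), (0, 0), (0,
    0), (0, 0), (-1, 0), (0, 0), (0, 0), (0, 0), (-1, -1), (0, 0), (0, 0), (0, 0), (0, 0), (0, 0), (0, 0), (0, 0),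
    (0, 0), (0, 0), (0, 0), (0, 0), (0, 0), (0, 0), (0, 0), (0, 0), (0, 0), (0, 0), (0, 0), (0, 0), (0, 0), (0, 0),
    (0, 0), (0, 0), (-1, 0), (0, 0), (0, 0), (0, 0), (-1, -1), (0, 0), (0, 0), (0, 0), (0, 0), (0, 0), (0, 0), (0,
    0), (0, 0), (0, 0), (-1, 0), (-1, 0), (-1, 0), (0, 0), (0, 0), (0, 0), (0, 0), (0, 0), (0, 0), (0, 0), (-1, -1),
    (-1, -1), (-1, -1), (0, 0), (0, 0), (0, 0), (0, 0), (0, 0), (0, 0), (0, 0), (0, 0), (0, 0), (0, 0), (0, 0), (0,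
    0), (0, 0), (0, 0), (0, 0), (0, 0), (1, 0), (1, 0), (0, 0), (0, 0), (0, 0), (1, 1), (1, 1), (0, 0), (0, 0), (0,
    0), (0, 0), (0, 0), (0, 0), (-1, 0), (-1, 0), (-1, 0), (0, 0), (0, 0), (0, 0), (-1, -1), (-1, -1), (-1, -1), (0,
    0), (0, 0), (0, 0), (0, 0), (0, 0), (-1, 0), (-1, 0), (0, 0), (0, 0), (0, 0), (1, 1), (1, 1), (-1, -1), (-1, -1),
    (0, -1), (1, 0), (1, 0), (0, 0), (0, 0), (0, 0)]

/-- glued arcs and equations -/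
def tord8r_111 : TorT :=
  ⟨[(0, 1, true), (0, 5, true), (1, 4, true), (2, 3, true), (2, 7, true), (3, 6, true), (4, 5, true), (6, 7, true)],
    [([0, 0, 0, 0, 1, 0, 1, 0], 2), ([0, 0, 0, 1, 0, 0, 0, 3], 2), ([0, 0, 0, 6, 0, 0, 0, 2], 2), ([0, 0, 1, 0, 1, 0,
    0, 0], 2), ([0, 1, 0, 0, 0, 2, 0, 0], 2), ([0, 4, 0, 0, 0, 0, 0, 0], 2), ([1, 0, 0, 0, 0, 0, 1, 0], 2), ([1, 0,
    1, 0, 0, 0, 0, 0], 2)]⟩

theorem tord8r_111_ok : tord8r_111.OK 8 := TT.leaf_ok (T := ttd8r_111) (by decide +kernel)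

/-- the torus -/
def ttd8r_112 : TT where
  k := 11
  rf := [false, false, false, false, false, false, false, false, false, false, false]
  tau := [9, 20, 19, 26, 25, 36, 35, 10, 17, 0, 7, 42, 41, 52, 51, 18, 57, 8, 15, 2, 1, 64, 71, 58, 37, 4, 3, 50, 49,
    76, 75, 38, 61, 84, 83, 6, 5, 24, 31, 62, 53, 12, 11, 82, 81, 68, 67, 54, 77, 28, 27, 14, 13, 40, 47, 78, 73, 16,
    23, 86, 85, 32, 39, 74, 21, 72, 79, 46, 45, 80, 87, 22, 65, 56, 63, 30, 29, 48, 55, 66, 69, 44, 43, 34, 33, 60,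
    59, 70]
  par := [0, 0, 1, 3, 5, 11, 13, 16, 21, 29, 33]
  stars := [[0, 10], [1, 9, 17, 57, 73, 65, 21], [2, 20], [3, 19, 15, 51, 27], [4, 26], [5, 25, 37], [6, 36], [7, 35,
    83, 43, 11], [8, 18], [12, 42], [13, 41, 53], [14, 52], [16, 58], [22, 64], [23, 71, 87, 59], [24, 38], [28, 50],
    [29, 49, 77], [30, 76], [31, 75, 63, 39], [32, 62], [33, 61, 85], [34, 84], [40, 54], [44, 82], [45, 81, 69],
    [46, 68], [47, 67, 79, 55], [48, 78], [56, 74], [60, 86], [66, 72], [70, 80]]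
  word := [[], [], [], [], [], [], [], [2, 0, 3, 1], [0], [], [0, 2, 1, 3], [], [], [], [], [0], [], [1], [1], [],
    [], [], [], [], [], [], [], [1], [1], [], [], [], [2], [], [], [], [], [], [], [2], [], [], [], [0, 2, 1, 3], [0,
    2, 1, 3], [0, 2, 1], [0, 2, 1], [], [0], [0], [0], [], [], [], [], [0], [3], [], [], [3], [3], [3], [3], [3], [],
    [0, 3], [0, 3], [0, 3, 1], [0, 3, 1], [3], [3], [], [2, 1], [2], [2], [], [], [1], [1], [2, 1], [2], [2, 0, 3,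
    1], [2, 0, 3, 1], [], [], [2], [2], [2]]
  rank := [0, 0, 1, 0, 1, 0, 1, 12, 1, 0, 12, 0, 1, 0, 1, 0, 0, 1, 0, 1, 0, 0, 1, 1, 2, 1, 0, 2, 3, 0, 1, 3, 1, 0, 1,
    1, 0, 2, 3, 0, 2, 1, 0, 11, 10, 9, 8, 3, 4, 3, 2, 1, 0, 2, 3, 5, 5, 0, 1, 3, 2, 1, 0, 4, 0, 6, 7, 8, 9, 5, 4, 1,
    6, 5, 4, 1, 0, 4, 5, 7, 5, 10, 11, 1, 0, 2, 3, 4]
  just := [0, 0, 2, 0, 4, 0, 6, 7, 8, 0, 7, 0, 9, 0, 11, 0, 0, 8, 0, 2, 0, 0, 13, 12, 5, 4, 0, 3, 16, 0, 18, 15, 20,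
    0, 22, 6, 0, 5, 15, 0, 10, 9, 0, 24, 25, 26, 27, 23, 17, 16, 3, 11, 0, 10, 23, 28, 29, 0, 12, 30, 21, 20, 0, 19,
    0, 1, 31, 27, 26, 32, 14, 13, 1, 29, 19, 18, 0, 17, 28, 31, 32, 25, 24, 22, 0, 21, 30, 14]
  gA := 15
  gB := 39
  fin := 0
  sid := [0, 1, 2, 3, 4, 5, 6, 7, 8, 1, 0, 7, 9, 10, 11, 3, 12, 1, 8, 3, 2, 1, 13, 14, 15, 5, 4, 3, 16, 17, 18, 19,
    20, 21, 22, 7, 6, 5, 15, 19, 23, 10, 9, 7, 24, 25, 26, 27, 28, 17, 16, 3, 11, 10, 23, 27, 29, 1, 12, 14, 30, 21,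
    20, 19, 13, 1, 31, 27, 26, 25, 32, 14, 31, 1, 29, 19, 18, 17, 28, 27, 32, 25, 24, 7, 22, 21, 30, 14]
  off := [(0, 0), (0, 0), (0, 0), (0, 0), (0, 0), (0, 0), (0, 0), (0, 0), (0, 0), (0, 0), (0, 0), (0, 0), (0, 0), (0,
    0), (0, 0), (1, 0), (0, 0), (-1, 0), (-1, 0), (0, 0), (0, 0), (0, 0), (0, 0), (0, 0), (0, 0), (0, 0), (0, 0), (0,
    0), (0, 0), (0, 0), (0, 0), (0, 0), (0, 0), (0, 0), (0, 0), (0, 0), (0, 0), (0, 0), (0, 0), (0, 0), (0, 0), (0,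
    0), (0, 0), (0, 0), (0, 0), (0, 0), (0, 0), (0, 0), (0, 0), (1, 0), (1, 0), (1, 0), (0, 0), (0, 0), (0, 0), (0,
    0), (0, 0), (-1, 0), (0, 0), (0, 0), (0, 0), (0, -1), (0, -1), (0, -1), (0, 0), (0, 0), (0, 0), (0, -1), (0, -1),
    (0, -1), (0, 0), (0, 0), (-1, 1), (-1, 1), (0, 1), (0, 0), (0, 0), (0, 0), (-1, 0), (-1, 0), (0, 1), (0, 0), (0,
    0), (0, 0), (0, 0), (0, 0), (0, 1), (0, 1)]

/-- glued arcs and equations -/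
def tord8r_112 : TorT :=
  ⟨[(0, 1, true), (0, 5, true), (1, 4, true), (2, 3, true), (2, 7, true), (3, 6, true), (4, 5, true), (6, 7, true)],
    [([0, 0, 0, 0, 1, 0, 1, 0], 2), ([0, 0, 0, 1, 0, 0, 0, 3], 2), ([0, 0, 0, 4, 0, 0, 0, 1], 2), ([0, 0, 1, 0, 1, 0,
    0, 0], 2), ([0, 1, 0, 0, 0, 2, 0, 0], 2), ([0, 6, 0, 0, 0, 1, 0, 0], 2), ([1, 0, 0, 0, 0, 0, 1, 0], 2), ([1, 0,
    1, 0, 0, 0, 0, 0], 2)]⟩

theorem tord8r_112_ok : tord8r_112.OK 8 := TT.leaf_ok (T := ttd8r_112) (by decide +kernel)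

/-- the torus -/
def ttd8r_113 : TT where
  k := 5
  rf := [false, false, false, false, false]
  tau := [9, 16, 23, 26, 25, 32, 39, 10, 29, 0, 7, 38, 37, 20, 19, 30, 1, 24, 31, 14, 13, 36, 35, 2, 17, 4, 3, 34,
    33, 8, 15, 18, 5, 28, 27, 22, 21, 12, 11, 6]
  par := [0, 0, 1, 3, 5]
  stars := [[0, 10], [1, 9, 29, 33, 5, 25, 17], [2, 16], [3, 23, 35, 27], [4, 26], [6, 32], [7, 39, 11], [8, 30],
    [12, 38], [13, 37, 21], [14, 20], [15, 19, 31], [18, 24], [22, 36], [28, 34]]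
  word := [[], [], [], [], [], [], [], [3, 0, 2, 1], [0, 3], [], [0, 3, 1, 2], [0, 3, 1, 2], [0, 3, 1, 2], [0, 3, 1],
    [0, 3, 1], [0, 3], [], [0], [0], [0, 2, 1], [0, 2, 1], [2], [2], [], [1], [], [], [2], [2], [2, 1], [2, 1], [1],
    [], [3], [3], [3], [3], [3, 0, 2, 1], [3, 0, 2, 1], []]
  rank := [0, 0, 1, 0, 1, 0, 1, 8, 2, 0, 8, 7, 6, 5, 4, 3, 0, 0, 1, 4, 5, 3, 2, 1, 0, 1, 0, 1, 0, 2, 3, 1, 0, 0, 1,
    2, 3, 6, 7, 1]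
  just := [0, 0, 2, 0, 4, 0, 5, 6, 1, 0, 6, 8, 9, 10, 11, 7, 0, 0, 12, 11, 10, 13, 3, 2, 0, 4, 0, 14, 0, 1, 7, 12, 0,
    0, 14, 3, 13, 9, 8, 5]
  gA := 17
  gB := 28
  fin := 0
  sid := [0, 1, 2, 3, 4, 1, 5, 6, 7, 1, 0, 6, 8, 9, 10, 11, 2, 1, 12, 11, 10, 9, 13, 3, 12, 1, 4, 3, 14, 1, 7, 11, 5,
    1, 14, 3, 13, 9, 8, 6]
  off := [(0, 0), (0, 0), (0, 0), (0, 0), (0, 0), (-1, 0), (0, 0), (0, 0), (0, 0), (0, 0), (0, 0), (0, 0), (0, 0),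
    (0, 0), (0, 0), (0, 0), (0, 0), (0, 0), (0, 0), (0, 1), (0, 1), (0, 1), (0, 0), (0, 0), (-1, 0), (-1, 0), (0, 0),
    (0, 0), (0, 0), (-1, 1), (-1, 1), (-1, 1), (0, 0), (-1, 0), (0, -1), (0, -1), (0, -1), (0, 0), (0, 0), (0, 0)]

/-- glued arcs and equations -/
def tord8r_113 : TorT :=
  ⟨[(0, 1, true), (0, 5, true), (1, 4, true), (2, 3, true), (2, 7, true), (3, 6, true), (4, 5, true), (6, 7, true)],
    [([0, 0, 0, 0, 0, 3, 0, 0], 2), ([0, 0, 0, 0, 1, 0, 1, 0], 2), ([0, 0, 0, 1, 0, 0, 0, 2], 2), ([0, 0, 0, 3, 0, 0,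
    0, 1], 2), ([0, 0, 1, 0, 1, 0, 0, 0], 2), ([0, 5, 0, 0, 0, 2, 0, 0], 2), ([1, 0, 0, 0, 0, 0, 1, 0], 2), ([1, 0,
    1, 0, 0, 0, 0, 0], 2)]⟩

theorem tord8r_113_ok : tord8r_113.OK 8 := TT.leaf_ok (T := ttd8r_113) (by decide +kernel)

/-- the torus -/
def ttd8r_114 : TT where
  k := 5
  rf := [false, false, false, false, false]
  tau := [9, 16, 23, 14, 13, 28, 27, 10, 21, 0, 7, 34, 33, 4, 3, 22, 1, 24, 31, 38, 37, 8, 15, 2, 17, 36, 35, 6, 5,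
    32, 39, 18, 29, 12, 11, 26, 25, 20, 19, 30]
  par := [0, 0, 1, 5, 11]
  stars := [[0, 10], [1, 9, 21, 37, 25, 17], [2, 16], [3, 23, 15], [4, 14], [5, 13, 33, 29], [6, 28], [7, 27, 35,
    11], [8, 22], [12, 34], [18, 24], [19, 31, 39], [20, 38], [26, 36], [30, 32]]
  word := [[], [], [], [2], [2], [], [], [2, 1, 3, 0], [3], [], [1, 2, 0, 3], [], [], [3], [3], [3], [], [0, 3], [0,
    3], [0], [0], [2], [2], [], [2, 1], [2, 1, 3, 0], [2, 1, 3, 0], [], [], [2], [2], [2, 1], [3], [], [], [1, 2, 0,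
    3], [1, 2, 0, 3], [1], [1], [3]]
  rank := [0, 0, 1, 3, 2, 0, 1, 8, 5, 0, 8, 0, 1, 2, 3, 4, 0, 3, 2, 0, 1, 5, 4, 1, 3, 6, 7, 1, 0, 0, 1, 2, 0, 1, 0,
    7, 6, 1, 0, 1]
  just := [0, 0, 2, 4, 5, 0, 6, 7, 8, 0, 7, 0, 9, 5, 4, 3, 0, 10, 11, 0, 12, 8, 3, 2, 10, 1, 13, 6, 0, 0, 14, 11, 0,
    9, 0, 13, 1, 12, 0, 14]
  gA := 19
  gB := 29
  fin := 0
  sid := [0, 1, 2, 3, 4, 5, 6, 7, 8, 1, 0, 7, 9, 5, 4, 3, 2, 1, 10, 11, 12, 1, 8, 3, 10, 1, 13, 7, 6, 5, 14, 11, 14,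
    5, 9, 7, 13, 1, 12, 11]
  off := [(0, 0), (0, 0), (0, 0), (0, 0), (0, 0), (0, 0), (0, 0), (0, 0), (0, 0), (0, 0), (0, 0), (0, 0), (0, 0), (0,
    -1), (0, -1), (0, -1), (0, 0), (0, 0), (0, 0), (0, 0), (0, 0), (0, 1), (0, 1), (0, 0), (-1, 1), (-1, 1), (0, 0),
    (0, 0), (0, 0), (0, 0), (0, 0), (-1, 1), (0, -1), (0, -1), (0, 0), (0, 0), (0, 0), (-1, 1), (-1, 0), (-1, 0)]

/-- glued arcs and equations -/
def tord8r_114 : TorT :=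
  ⟨[(0, 1, true), (0, 5, true), (1, 4, true), (2, 3, true), (2, 7, true), (3, 6, true), (4, 5, true), (6, 7, true)],
    [([0, 0, 0, 0, 1, 0, 1, 0], 2), ([0, 0, 0, 1, 0, 0, 0, 2], 2), ([0, 0, 0, 3, 0, 0, 0, 1], 2), ([0, 0, 1, 0, 1, 0,
    0, 0], 2), ([0, 1, 0, 0, 0, 3, 0, 0], 2), ([0, 4, 0, 0, 0, 2, 0, 0], 2), ([1, 0, 0, 0, 0, 0, 1, 0], 2), ([1, 0,
    1, 0, 0, 0, 0, 0], 2)]⟩

theorem tord8r_114_ok : tord8r_114.OK 8 := TT.leaf_ok (T := ttd8r_114) (by decide +kernel)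

/-- the torus -/
def ttd8r_115 : TT where
  k := 5
  rf := [false, false, false, false, false]
  tau := [9, 12, 11, 18, 17, 20, 19, 10, 25, 0, 7, 2, 1, 32, 39, 26, 29, 4, 3, 6, 5, 36, 35, 30, 33, 8, 15, 38, 37,
    16, 23, 34, 13, 24, 31, 22, 21, 28, 27, 14]
  par := [0, 0, 3, 8, 13]
  stars := [[0, 10], [1, 9, 25, 33, 13], [2, 12], [3, 11, 7, 19], [4, 18], [5, 17, 29, 37, 21], [6, 20], [8, 26],
    [14, 32], [15, 39, 27], [16, 30], [22, 36], [23, 35, 31], [24, 34], [28, 38]]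
  word := [[], [3, 0], [3, 0], [], [], [2, 1], [2, 1], [2, 1, 3, 0], [], [], [1, 2, 0, 3], [1, 2], [1, 2], [], [],
    [], [2], [], [], [0, 3], [0, 3], [0], [0], [2], [3, 0], [], [], [], [], [3], [3], [3, 0], [], [1, 2], [1, 2],
    [1], [1], [], [], []]
  rank := [0, 3, 4, 0, 1, 4, 5, 6, 0, 0, 6, 4, 3, 0, 1, 1, 1, 1, 0, 5, 4, 1, 0, 0, 2, 0, 1, 2, 3, 1, 0, 1, 0, 2, 1,
    0, 1, 3, 2, 1]
  just := [0, 1, 2, 0, 4, 5, 6, 3, 0, 0, 3, 2, 1, 0, 8, 7, 10, 4, 0, 6, 5, 11, 0, 0, 13, 0, 7, 9, 14, 10, 0, 12, 0,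
    13, 12, 0, 11, 14, 9, 8]
  gA := 22
  gB := 23
  fin := 0
  sid := [0, 1, 2, 3, 4, 5, 6, 3, 7, 1, 0, 3, 2, 1, 8, 9, 10, 5, 4, 3, 6, 5, 11, 12, 13, 1, 7, 9, 14, 5, 10, 12, 8,
    1, 13, 12, 11, 5, 14, 9]
  off := [(0, 0), (0, 0), (0, 0), (0, 0), (0, 0), (0, 0), (0, 0), (-1, 1), (0, 0), (0, 0), (0, 0), (-1, 1), (-1, 1),
    (-1, 1), (0, 0), (0, 0), (0, 0), (0, 0), (0, 0), (0, 0), (1, -1), (1, -1), (0, 0), (0, 0), (0, 0), (0, 0), (0,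
    0), (0, 0), (0, 0), (0, -1), (0, -1), (0, -1), (0, 0), (-1, 1), (-1, 1), (-1, 0), (-1, 0), (0, -1), (0, 0), (0,
    0)]

/-- glued arcs and equations -/
def tord8r_115 : TorT :=
  ⟨[(0, 1, true), (0, 5, true), (1, 4, true), (2, 3, true), (2, 7, true), (3, 6, true), (4, 5, true), (6, 7, true)],
    [([0, 0, 0, 0, 1, 0, 1, 0], 2), ([0, 0, 0, 1, 0, 0, 0, 2], 2), ([0, 0, 0, 3, 0, 0, 0, 1], 2), ([0, 0, 1, 0, 1, 0,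
    0, 0], 2), ([0, 1, 0, 0, 0, 4, 0, 0], 2), ([0, 4, 0, 0, 0, 1, 0, 0], 2), ([1, 0, 0, 0, 0, 0, 1, 0], 2), ([1, 0,
    1, 0, 0, 0, 0, 0], 2)]⟩

theorem tord8r_115_ok : tord8r_115.OK 8 := TT.leaf_ok (T := ttd8r_115) (by decide +kernel)

/-- the torus -/
def ttd8r_116 : TT where
  k := 9
  rf := [false, false, false, false, false, false, false, false, false]
  tau := [9, 16, 23, 30, 29, 32, 39, 10, 17, 0, 7, 38, 37, 40, 47, 18, 1, 8, 15, 46, 45, 24, 31, 2, 21, 48, 55, 58,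
    57, 4, 3, 22, 5, 68, 67, 54, 53, 12, 11, 6, 13, 64, 71, 62, 61, 20, 19, 14, 25, 60, 59, 66, 65, 36, 35, 26, 69,
    28, 27, 50, 49, 44, 43, 70, 41, 52, 51, 34, 33, 56, 63, 42]
  par := [0, 0, 1, 3, 5, 13, 25, 27, 33]
  stars := [[0, 10], [1, 9, 17], [2, 16], [3, 23, 31], [4, 30], [5, 29, 57, 69, 33], [6, 32], [7, 39, 11], [8, 18],
    [12, 38], [13, 37, 53, 65, 41], [14, 40], [15, 47, 19], [20, 46], [21, 45, 61, 49, 25], [22, 24], [26, 48], [27,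
    55, 35, 67, 51, 59], [28, 58], [34, 68], [36, 54], [42, 64], [43, 71, 63], [44, 62], [50, 60], [52, 66], [56, 70]]
  word := [[], [], [], [], [], [], [], [3, 0, 2, 1], [], [], [0, 3, 1, 2], [0, 3, 1, 2], [0, 3, 1, 2], [], [], [],
    [], [], [], [], [], [], [], [], [], [], [], [], [], [], [], [], [], [], [], [3, 0], [3, 0], [3, 0, 2, 1], [3, 0,
    2, 1], [], [], [0], [0], [0], [0], [], [], [], [], [0], [0], [2], [2], [1, 2], [1, 2], [], [], [], [], [1], [1],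
    [1], [1], [], [1], [3], [3], [], [], [], [], [1]]
  rank := [0, 0, 1, 0, 1, 0, 1, 11, 1, 0, 11, 10, 9, 0, 1, 2, 0, 1, 2, 3, 4, 3, 2, 1, 3, 0, 1, 0, 1, 1, 0, 2, 0, 0,
    1, 7, 8, 9, 10, 1, 0, 5, 4, 1, 0, 4, 3, 1, 0, 5, 6, 0, 1, 8, 7, 1, 2, 1, 0, 6, 5, 0, 1, 3, 5, 1, 0, 1, 0, 2, 3, 4]
  just := [0, 0, 2, 0, 4, 0, 6, 7, 1, 0, 7, 9, 10, 0, 11, 8, 0, 1, 8, 12, 13, 15, 3, 2, 15, 0, 16, 0, 18, 4, 0, 3, 0,
    0, 19, 17, 20, 10, 9, 6, 0, 21, 22, 23, 0, 13, 12, 11, 0, 14, 24, 0, 25, 20, 17, 16, 5, 18, 0, 24, 14, 0, 23, 26,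
    21, 25, 0, 19, 0, 5, 26, 22]
  gA := 44
  gB := 51
  fin := 0
  sid := [0, 1, 2, 3, 4, 5, 6, 7, 8, 1, 0, 7, 9, 10, 11, 12, 2, 1, 8, 12, 13, 14, 15, 3, 15, 14, 16, 17, 18, 5, 4, 3,
    6, 5, 19, 17, 20, 10, 9, 7, 11, 10, 21, 22, 23, 14, 13, 12, 16, 14, 24, 17, 25, 10, 20, 17, 26, 5, 18, 17, 24,
    14, 23, 22, 21, 10, 25, 17, 19, 5, 26, 22]
  off := [(0, 0), (0, 0), (0, 0), (0, 0), (0, 0), (0, 0), (0, 0), (0, 0), (0, 0), (0, 0), (0, 0), (0, 0), (0, 0), (0,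
    0), (0, 0), (0, 0), (0, 0), (0, 0), (0, 0), (0, 0), (0, 0), (0, 0), (0, 0), (0, 0), (0, 0), (0, 0), (0, 0), (0,
    0), (0, 0), (0, 0), (0, 0), (0, 0), (0, 0), (0, 0), (0, 0), (1, -1), (0, 0), (0, 0), (0, 0), (0, 0), (0, 0), (0,
    0), (0, 0), (0, 0), (0, 0), (0, 0), (0, 0), (0, 0), (0, 0), (0, 0), (0, 0), (1, 0), (0, 0), (-1, 1), (-1, 1), (0,
    0), (0, 0), (0, 0), (0, 0), (0, 0), (-1, 0), (-1, 0), (-1, 0), (-1, 0), (-1, 0), (-1, 0), (0, -1), (1, -1), (0,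
    0), (0, 0), (0, 0), (-1, 0)]

/-- glued arcs and equations -/
def tord8r_116 : TorT :=
  ⟨[(0, 1, true), (0, 5, true), (1, 4, true), (2, 3, true), (2, 7, true), (3, 6, true), (4, 5, true), (6, 7, true)],
    [([0, 0, 0, 0, 1, 0, 1, 0], 2), ([0, 0, 0, 1, 0, 0, 0, 2], 2), ([0, 0, 0, 5, 0, 0, 0, 1], 2), ([0, 0, 1, 0, 1, 0,
    0, 0], 2), ([0, 2, 0, 0, 0, 3, 0, 0], 2), ([0, 3, 0, 0, 0, 0, 0, 0], 2), ([1, 0, 0, 0, 0, 0, 1, 0], 2), ([1, 0,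
    1, 0, 0, 0, 0, 0], 2)]⟩

theorem tord8r_116_ok : tord8r_116.OK 8 := TT.leaf_ok (T := ttd8r_116) (by decide +kernel)

/-- the torus -/
def ttd8r_117 : TT where
  k := 7
  rf := [false, false, false, false, false, false, false]
  tau := [9, 12, 11, 18, 17, 28, 27, 10, 33, 0, 7, 2, 1, 40, 47, 34, 53, 4, 3, 26, 25, 44, 43, 54, 37, 20, 19, 6, 5,
    52, 51, 38, 49, 8, 15, 46, 45, 24, 31, 50, 13, 48, 55, 22, 21, 36, 35, 14, 41, 32, 39, 30, 29, 16, 23, 42]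
  par := [0, 0, 3, 5, 8, 13, 16]
  stars := [[0, 10], [1, 9, 33, 49, 41, 13], [2, 12], [3, 11, 7, 27, 19], [4, 18], [5, 17, 53, 29], [6, 28], [8, 34],
    [14, 40], [15, 47, 35], [16, 54], [20, 26], [21, 25, 37, 45], [22, 44], [23, 43, 55], [24, 38], [30, 52], [31,
    51, 39], [32, 50], [36, 46], [42, 48]]
  word := [[], [3, 0], [3, 0], [], [], [], [], [2, 1, 3, 0], [], [], [1, 2, 0, 3], [1, 2], [1, 2], [], [], [], [],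
    [], [], [0, 3], [0, 3], [0], [0], [], [2], [2, 1], [2, 1], [], [], [], [], [2], [3], [], [], [], [], [3], [3],
    [3], [], [1], [1], [1], [1], [], [], [], [0], [2], [2], [], [], [], [], [0]]
  rank := [0, 6, 7, 0, 1, 0, 1, 8, 0, 0, 8, 7, 6, 0, 1, 1, 0, 1, 0, 5, 4, 1, 0, 1, 1, 4, 5, 1, 0, 2, 3, 0, 5, 0, 1,
    2, 3, 1, 0, 4, 0, 3, 2, 0, 1, 3, 2, 1, 3, 5, 4, 3, 2, 0, 1, 2]
  just := [0, 1, 2, 0, 4, 0, 6, 3, 0, 0, 3, 2, 1, 0, 8, 7, 0, 4, 0, 11, 12, 13, 0, 10, 15, 12, 11, 6, 0, 5, 16, 0,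
    18, 0, 7, 9, 19, 15, 0, 17, 0, 20, 14, 0, 13, 19, 9, 8, 20, 18, 17, 16, 5, 0, 10, 14]
  gA := 22
  gB := 31
  fin := 0
  sid := [0, 1, 2, 3, 4, 5, 6, 3, 7, 1, 0, 3, 2, 1, 8, 9, 10, 5, 4, 3, 11, 12, 13, 14, 15, 12, 11, 3, 6, 5, 16, 17,
    18, 1, 7, 9, 19, 12, 15, 17, 8, 1, 20, 14, 13, 12, 19, 9, 20, 1, 18, 17, 16, 5, 10, 14]
  off := [(0, 0), (0, 0), (0, 0), (0, 0), (0, 0), (0, 0), (0, 0), (-1, 1), (0, 0), (0, 0), (0, 0), (-1, 1), (-1, 1),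
    (-1, 1), (0, 0), (0, 0), (0, 0), (0, 0), (0, 0), (0, 0), (0, 0), (0, 0), (0, 0), (0, 0), (0, 0), (-1, 1), (-1,
    1), (-1, 1), (0, 0), (0, 0), (0, 0), (0, 0), (0, 0), (0, 0), (0, 0), (0, 0), (0, 0), (-1, 0), (0, -1), (0, -1),
    (0, 0), (-1, 1), (0, 0), (-1, 0), (-1, 0), (-1, 0), (0, 0), (0, 0), (1, 0), (0, 1), (0, 1), (0, 0), (0, 0), (0,
    0), (0, 0), (0, 0)]

/-- glued arcs and equations -/
def tord8r_117 : TorT :=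
  ⟨[(0, 1, true), (0, 5, true), (1, 4, true), (2, 3, true), (2, 7, true), (3, 6, true), (4, 5, true), (6, 7, true)],
    [([0, 0, 0, 0, 1, 0, 1, 0], 2), ([0, 0, 0, 1, 0, 0, 0, 2], 2), ([0, 0, 0, 4, 0, 0, 0, 1], 2), ([0, 0, 1, 0, 1, 0,
    0, 0], 2), ([0, 1, 0, 0, 0, 3, 0, 0], 2), ([0, 5, 0, 0, 0, 1, 0, 0], 2), ([1, 0, 0, 0, 0, 0, 1, 0], 2), ([1, 0,
    1, 0, 0, 0, 0, 0], 2)]⟩

theorem tord8r_117_ok : tord8r_117.OK 8 := TT.leaf_ok (T := ttd8r_117) (by decide +kernel)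

/-- the torus -/
def ttd8r_118 : TT where
  k := 9
  rf := [false, false, false, false, false, false, false, false, false]
  tau := [9, 16, 23, 30, 29, 32, 39, 10, 17, 0, 7, 46, 45, 48, 55, 18, 1, 8, 15, 62, 61, 64, 71, 2, 69, 44, 43, 58,
    57, 4, 3, 70, 5, 52, 51, 66, 65, 40, 47, 6, 37, 60, 59, 26, 25, 12, 11, 38, 13, 68, 67, 34, 33, 56, 63, 14, 53,
    28, 27, 42, 41, 20, 19, 54, 21, 36, 35, 50, 49, 24, 31, 22]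
  par := [0, 0, 1, 3, 5, 11, 13, 19, 21]
  stars := [[0, 10], [1, 9, 17], [2, 16], [3, 23, 71, 31], [4, 30], [5, 29, 57, 53, 33], [6, 32], [7, 39, 47, 11],
    [8, 18], [12, 46], [13, 45, 25, 69, 49], [14, 48], [15, 55, 63, 19], [20, 62], [21, 61, 41, 37, 65], [22, 64],
    [24, 70], [26, 44], [27, 43, 59], [28, 58], [34, 52], [35, 51, 67], [36, 66], [38, 40], [42, 60], [50, 68], [54,
    56]]
  word := [[], [], [], [], [], [], [], [2, 1, 3, 0], [], [], [1, 2, 0, 3], [], [], [], [], [], [], [], [], [], [],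
    [], [], [], [], [0], [0], [2], [2], [], [], [], [], [2], [2], [2, 1], [2, 1], [2, 1, 3, 0], [2, 1, 3, 0], [], [1,
    2, 0, 3], [1, 2], [1, 2], [1], [1], [], [], [1, 2, 0, 3], [], [1], [1], [3], [3], [], [], [], [], [3], [3], [3,
    0], [3, 0], [], [], [], [], [0, 3], [0, 3], [0], [0], [], [], []]
  rank := [0, 0, 1, 0, 1, 0, 1, 11, 1, 0, 11, 0, 1, 0, 1, 2, 0, 1, 2, 0, 1, 0, 1, 1, 3, 0, 1, 1, 0, 1, 0, 2, 0, 5, 6,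
    7, 8, 9, 10, 1, 9, 3, 2, 1, 0, 1, 0, 10, 0, 4, 5, 6, 5, 4, 3, 1, 4, 0, 1, 2, 3, 1, 0, 3, 0, 8, 7, 5, 4, 3, 2, 1]
  just := [0, 0, 2, 0, 4, 0, 6, 7, 1, 0, 7, 0, 9, 0, 11, 8, 0, 1, 8, 0, 13, 0, 15, 2, 16, 0, 17, 19, 0, 4, 0, 3, 0,
    5, 20, 21, 22, 14, 23, 6, 14, 24, 18, 17, 0, 9, 0, 23, 0, 10, 25, 20, 5, 26, 12, 11, 26, 0, 19, 18, 24, 13, 0,
    12, 0, 22, 21, 25, 10, 16, 3, 15]
  gA := 25
  gB := 28
  fin := 0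
  sid := [0, 1, 2, 3, 4, 5, 6, 7, 8, 1, 0, 7, 9, 10, 11, 12, 2, 1, 8, 12, 13, 14, 15, 3, 16, 10, 17, 18, 19, 5, 4, 3,
    6, 5, 20, 21, 22, 14, 23, 7, 23, 14, 24, 18, 17, 10, 9, 7, 11, 10, 25, 21, 20, 5, 26, 12, 26, 5, 19, 18, 24, 14,
    13, 12, 15, 14, 22, 21, 25, 10, 16, 3]
  off := [(0, 0), (0, 0), (0, 0), (0, 0), (0, 0), (0, 0), (0, 0), (0, 0), (0, 0), (0, 0), (0, 0), (0, 0), (0, 0), (0,
    0), (0, 0), (0, 0), (0, 0), (0, 0), (0, 0), (0, 0), (0, 0), (0, 0), (0, 0), (0, 0), (0, 0), (1, 0), (0, 0), (0,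
    0), (0, 0), (0, 0), (0, 0), (0, 0), (0, 0), (0, 0), (0, 0), (0, 0), (0, 0), (-1, 1), (0, 0), (0, 0), (0, 0), (-1,
    1), (0, 0), (-1, 0), (-1, 0), (0, 0), (0, 0), (0, 0), (0, 0), (0, 0), (0, 0), (0, -1), (0, -1), (0, -1), (0, 0),
    (0, 0), (0, 0), (0, -1), (0, -1), (0, -1), (1, -1), (0, 0), (0, 0), (0, 0), (0, 0), (0, 0), (1, -1), (1, -1), (1,
    0), (1, 0), (0, 0), (0, 0)]

/-- glued arcs and equations -/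
def tord8r_118 : TorT :=
  ⟨[(0, 1, true), (0, 5, true), (1, 4, true), (2, 3, true), (2, 7, true), (3, 6, true), (4, 5, true), (6, 7, true)],
    [([0, 0, 0, 0, 1, 0, 1, 0], 2), ([0, 0, 0, 1, 0, 0, 0, 3], 2), ([0, 0, 0, 3, 0, 0, 0, 0], 2), ([0, 0, 1, 0, 1, 0,
    0, 0], 2), ([0, 2, 0, 0, 0, 3, 0, 0], 2), ([0, 3, 0, 0, 0, 0, 0, 0], 2), ([1, 0, 0, 0, 0, 0, 1, 0], 2), ([1, 0,
    1, 0, 0, 0, 0, 0], 2)]⟩

theorem tord8r_118_ok : tord8r_118.OK 8 := TT.leaf_ok (T := ttd8r_118) (by decide +kernel)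

/-- the torus -/
def ttd8r_119 : TT where
  k := 4
  rf := [false, false, false, false]
  tau := [9, 4, 18, 19, 1, 8, 15, 10, 5, 0, 7, 14, 28, 29, 11, 6, 25, 20, 2, 3, 17, 24, 31, 26, 21, 16, 23, 30, 12,
    13, 27, 22]
  par := [0, 0, 2, 12]
  stars := [[0, 10], [1, 9, 5], [2, 4, 19], [3, 18, 20], [6, 8], [7, 15, 11], [12, 14, 29], [13, 28, 30], [16, 26],
    [17, 25, 21], [22, 24], [23, 31, 27]]
  word := [[], [2, 1], [], [0, 3], [0, 3], [0, 3], [0, 3], [0, 3, 1, 2], [2, 1], [], [3, 0, 2, 1], [3, 0], [], [1,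
    2], [1, 2], [2, 1], [0], [0, 3], [], [2, 1], [2, 1], [2], [2], [0], [3], [1], [1], [1, 2], [], [3, 0], [3, 0],
    [3]]
  rank := [0, 3, 0, 2, 3, 4, 5, 6, 4, 0, 6, 4, 0, 3, 4, 5, 0, 1, 0, 2, 1, 0, 1, 1, 0, 0, 1, 2, 0, 3, 2, 1]
  just := [0, 2, 0, 3, 2, 1, 4, 5, 1, 0, 5, 6, 0, 7, 6, 4, 0, 9, 0, 3, 9, 0, 10, 8, 0, 0, 8, 11, 0, 7, 11, 10]
  gA := 16
  gB := 21
  fin := 0
  sid := [0, 1, 2, 3, 2, 1, 4, 5, 4, 1, 0, 5, 6, 7, 6, 5, 8, 9, 3, 2, 3, 9, 10, 11, 10, 9, 8, 11, 7, 6, 7, 11]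
  off := [(0, 0), (0, 0), (0, 0), (0, 0), (1, -1), (1, -1), (0, 0), (0, 0), (-1, 1), (0, 0), (0, 0), (0, 0), (0, 0),
    (0, 0), (-1, 1), (-1, 1), (0, 0), (0, 0), (0, 0), (0, 0), (-1, 1), (-1, 1), (0, 0), (0, 0), (0, -1), (-1, 0),
    (-1, 0), (-1, 0), (0, 0), (0, 0), (1, -1), (0, -1)]

/-- glued arcs and equations -/
def tord8r_119 : TorT :=
  ⟨[(0, 1, true), (0, 5, true), (1, 4, true), (2, 2, true), (2, 7, true), (3, 3, true), (3, 6, true), (4, 4, true),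
    (5, 5, true), (6, 7, true)],
    [([0, 0, 0, 0, 1, 1, 1, 0], 2), ([0, 0, 0, 1, 0, 0, 0, 2], 2), ([0, 0, 1, 1, 1, 0, 0, 0], 2), ([0, 2, 0, 0, 0, 1,
    0, 0], 2), ([1, 0, 0, 0, 0, 0, 1, 0], 2), ([1, 0, 1, 0, 0, 0, 0, 0], 2)]⟩

theorem tord8r_119_ok : tord8r_119.OK 8 := TT.leaf_ok (T := ttd8r_119) (by decide +kernel)

/-- the torus -/
def ttd8r_120 : TT where
  k := 2
  rf := [false, false]
  tau := [9, 12, 11, 14, 13, 8, 15, 10, 5, 0, 7, 2, 1, 4, 3, 6]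
  par := [0, 0]
  stars := [[0, 10], [1, 9, 5, 13], [2, 12], [3, 11, 7, 15], [4, 14], [6, 8]]
  word := [[], [3, 0], [3, 0], [0], [0], [2], [2], [2, 1, 3, 0], [3], [], [1, 2, 0, 3], [1, 2], [1, 2], [1], [1], [3]]
  rank := [0, 1, 2, 1, 0, 0, 1, 3, 0, 0, 3, 2, 1, 0, 1, 1]
  just := [0, 1, 2, 4, 0, 0, 5, 3, 0, 0, 3, 2, 1, 0, 4, 5]
  gA := 4
  gB := 5
  fin := 0
  sid := [0, 1, 2, 3, 4, 1, 5, 3, 5, 1, 0, 3, 2, 1, 4, 3]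
  off := [(0, 0), (0, 0), (0, 0), (0, 0), (0, 0), (0, 1), (0, 0), (-1, 1), (0, -1), (0, 0), (0, 0), (-1, 1), (-1, 1),
    (-1, 1), (-1, 0), (-1, 0)]

/-- glued arcs and equations -/
def tord8r_120 : TorT :=
  ⟨[(0, 1, true), (0, 5, true), (1, 4, true), (2, 3, true), (2, 7, true), (3, 6, true), (4, 5, true), (6, 7, true)],
    [([0, 0, 0, 0, 1, 0, 1, 0], 2), ([0, 0, 0, 2, 0, 0, 0, 2], 2), ([0, 0, 1, 0, 1, 0, 0, 0], 2), ([0, 2, 0, 0, 0, 2,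
    0, 0], 2), ([1, 0, 0, 0, 0, 0, 1, 0], 2), ([1, 0, 1, 0, 0, 0, 0, 0], 2)]⟩

theorem tord8r_120_ok : tord8r_120.OK 8 := TT.leaf_ok (T := ttd8r_120) (by decide +kernel)

end Pool.Agent.Lib_MP_fa6e45
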