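import Pool.Agent.Lib_MP_fa6e45.CT5

/-!
MP_fa6e45_co, stage 9: straight-side patterns with `8` sides, tables of tori (generated by a program).
-/

namespace Pool.Agent.Lib_MP_fa6e45

/-- the torus -/
def ttd8r_22 : TT where
  k := 8
  rf := [false, false, true, false, true, true, true, false]
  tau := [9, 19, 20, 21, 28, 38, 30, 23, 18, 0, 16, 41, 42, 43, 53, 47, 10, 40, 8, 1, 2, 3, 29, 7, 57, 35, 36, 37, 4,
    22, 6, 39, 58, 48, 56, 25, 26, 27, 5, 31, 17, 11, 12, 13, 52, 62, 54, 15, 33, 59, 60, 61, 44, 14, 46, 63, 34, 24,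
    32, 49, 50, 51, 45, 55]
  par := [0, 0, 1, 4, 5, 11, 14, 24]
  stars := [[0, 16, 10], [1, 9, 19], [2, 20], [3, 21], [4, 22, 29], [5, 28, 38], [6, 39, 31], [7, 30, 23], [8, 40,
    18], [11, 17, 41], [12, 42], [13, 43], [14, 44, 53], [15, 54, 47], [24, 32, 58], [25, 57, 35], [26, 36], [27,
    37], [33, 49, 59], [34, 56, 48], [45, 62, 52], [46, 55, 63], [50, 60], [51, 61]]
  word := [[], [], [], [], [], [], [3, 0], [3, 0], [], [], [0, 3], [], [], [], [], [2, 1], [2, 1], [2, 1], [], [],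
    [], [], [], [1, 2], [], [], [], [], [], [], [1, 2], [1, 2], [3, 0], [3], [], [], [], [], [], [3, 0], [0, 3], [],
    [], [], [], [0], [0, 3], [0, 3], [2], [0], [0], [0], [], [], [2, 1], [2], [], [], [1, 2], [1], [1], [1], [1], [3]]
  rank := [0, 0, 1, 2, 0, 0, 8, 9, 1, 0, 8, 0, 1, 2, 0, 6, 8, 7, 1, 0, 1, 2, 3, 9, 0, 3, 2, 1, 0, 3, 8, 7, 6, 5, 4,
    3, 2, 1, 0, 7, 7, 0, 1, 2, 3, 4, 5, 6, 5, 2, 1, 0, 3, 0, 5, 0, 4, 0, 6, 2, 1, 0, 4, 0]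
  just := [0, 0, 2, 3, 0, 0, 6, 7, 1, 0, 9, 0, 10, 11, 0, 13, 9, 8, 1, 0, 2, 3, 4, 7, 0, 16, 17, 5, 0, 4, 6, 14, 18,
    19, 15, 16, 17, 5, 0, 14, 8, 0, 10, 11, 12, 20, 21, 13, 19, 22, 23, 0, 12, 0, 21, 0, 15, 0, 18, 22, 23, 0, 20, 0]
  gA := 51
  gB := 55
  fin := 0
  sid := [0, 1, 2, 3, 4, 5, 6, 7, 8, 1, 0, 9, 10, 11, 12, 13, 0, 9, 8, 1, 2, 3, 4, 7, 14, 15, 16, 17, 5, 4, 7, 6, 14,
    18, 19, 15, 16, 17, 5, 6, 8, 9, 10, 11, 12, 20, 21, 13, 19, 18, 22, 23, 20, 12, 13, 21, 19, 15, 14, 18, 22, 23,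
    20, 21]
  off := [(0, 0), (0, 0), (0, 0), (0, 0), (0, 0), (0, 0), (0, 0), (0, 0), (0, 0), (0, 0), (0, 0), (0, 0), (0, 0), (0,
    0), (0, 0), (0, 0), (-1, 1), (-1, 1), (0, 0), (0, 0), (0, 0), (0, 0), (0, 0), (-1, 1), (0, 0), (0, 0), (0, 0),
    (0, 0), (0, 0), (0, 0), (-1, 1), (-1, 1), (1, -1), (0, 0), (0, 0), (0, 0), (0, 0), (0, 0), (0, 0), (0, 0), (1,
    -1), (0, 0), (0, 0), (0, 0), (0, 0), (0, 0), (0, 0), (1, -1), (0, 1), (0, 1), (0, 0), (0, 0), (0, 0), (0, 0), (0,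
    0), (-1, 1), (0, 0), (0, 0), (0, 0), (-1, 1), (-1, 0), (-1, 0), (-1, 0), (-1, 0)]

/-- glued arcs and equations -/
def tord8r_22 : TorT :=
  ⟨[(0, 1, true), (0, 2, false), (1, 3, false), (2, 4, false), (3, 5, false), (4, 4, true), (5, 6, false), (6, 6,
    true), (7, 7, false)],
    [([0, 0, 0, 0, 0, 0, 1, 2], 2), ([0, 0, 0, 0, 1, 1, 1, 0], 2), ([0, 0, 0, 1, 0, 1, 0, 0], 2), ([0, 0, 1, 0, 1, 0,
    0, 0], 2), ([0, 2, 0, 1, 0, 0, 0, 0], 2), ([2, 0, 1, 0, 0, 0, 0, 0], 2)]⟩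

theorem tord8r_22_ok : tord8r_22.OK 8 := TT.leaf_ok (T := ttd8r_22) (by decide +kernel)

/-- the torus -/
def ttd8r_23 : TT where
  k := 8
  rf := [false, false, true, true, false, true, true, false]
  tau := [8, 16, 29, 34, 33, 26, 19, 47, 0, 40, 53, 58, 57, 50, 43, 23, 1, 28, 27, 6, 46, 45, 44, 15, 48, 32, 5, 18,
    17, 2, 35, 63, 25, 4, 3, 30, 62, 61, 60, 55, 9, 52, 51, 14, 22, 21, 20, 7, 24, 56, 13, 42, 41, 10, 59, 39, 49,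
    12, 11, 54, 38, 37, 36, 31]
  par := [0, 0, 1, 2, 3, 7, 10, 11]
  stars := [[0, 40, 9], [1, 8, 16], [2, 17, 29], [3, 30, 35], [4, 34], [5, 33, 26], [6, 27, 19], [7, 20, 47], [10,
    41, 53], [11, 54, 59], [12, 58], [13, 57, 50], [14, 51, 43], [15, 44, 23], [18, 28], [21, 46], [22, 45], [24, 49,
    56], [25, 32, 48], [31, 63, 36], [37, 62], [38, 61], [39, 60, 55], [42, 52]]
  word := [[], [], [], [], [], [0], [0], [], [], [3, 0, 2, 1], [], [], [], [3, 1, 2], [1], [], [], [], [], [1], [1],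
    [1], [1], [], [1, 2], [1], [1], [], [], [], [], [2], [0], [], [], [], [2], [2], [2], [2], [0, 3, 1, 2], [0, 3, 1,
    2], [0, 3, 1, 2], [0], [0], [0], [0], [], [3, 0], [3, 0, 2], [3, 0, 2], [3, 0, 2, 1], [3, 0, 2, 1], [], [], [3],
    [3, 1, 2], [], [], [], [3], [3], [3], [3]]
  rank := [0, 0, 0, 0, 1, 3, 0, 0, 0, 10, 0, 0, 1, 7, 4, 1, 0, 1, 2, 0, 1, 2, 3, 1, 5, 4, 3, 2, 1, 0, 1, 2, 4, 1, 0,
    1, 1, 0, 1, 2, 10, 9, 8, 4, 3, 2, 1, 0, 5, 6, 7, 8, 9, 0, 1, 2, 6, 1, 0, 1, 1, 0, 1, 2]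
  just := [0, 0, 0, 0, 4, 6, 0, 0, 0, 8, 0, 0, 10, 11, 13, 1, 0, 2, 14, 0, 7, 15, 16, 1, 18, 5, 6, 14, 2, 0, 3, 19,
    5, 4, 0, 3, 20, 0, 21, 22, 8, 23, 12, 13, 16, 15, 7, 0, 18, 17, 11, 12, 23, 0, 9, 22, 17, 10, 0, 9, 21, 0, 20, 19]
  gA := 6
  gB := 37
  fin := 0
  sid := [0, 1, 2, 3, 4, 5, 6, 7, 1, 0, 8, 9, 10, 11, 12, 13, 1, 2, 14, 6, 7, 15, 16, 13, 17, 18, 5, 6, 14, 2, 3, 19,
    18, 5, 4, 3, 19, 20, 21, 22, 0, 8, 23, 12, 13, 16, 15, 7, 18, 17, 11, 12, 23, 8, 9, 22, 17, 11, 10, 9, 22, 21,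
    20, 19]
  off := [(0, 0), (0, 0), (0, 0), (0, 0), (0, 0), (0, 0), (0, 0), (0, 0), (0, 0), (0, 0), (0, 0), (0, 0), (0, 0), (0,
    0), (0, 0), (0, 0), (0, 0), (0, 0), (0, 0), (-1, 0), (-1, 0), (0, 0), (0, 0), (0, 0), (0, 0), (0, 0), (-1, 0),
    (-1, 0), (0, 0), (0, 0), (0, 0), (0, 0), (1, 0), (0, 0), (0, 0), (0, 0), (0, 0), (0, 0), (0, 0), (0, 0), (0, 0),
    (0, 0), (0, 0), (1, 0), (1, 0), (1, 0), (1, 0), (0, 0), (1, -1), (1, -1), (1, 0), (1, 0), (0, 0), (0, 0), (0, 0),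
    (0, -1), (0, -1), (0, 0), (0, 0), (0, 0), (0, -1), (0, -1), (0, -1), (0, -1)]

/-- glued arcs and equations -/
def tord8r_23 : TorT :=
  ⟨[(0, 0, true), (0, 1, false), (1, 4, true), (2, 3, true), (2, 5, false), (3, 6, false), (4, 6, true), (5, 5,
    true), (7, 7, false)],
    [([0, 0, 0, 0, 0, 1, 1, 0], 2), ([0, 0, 0, 0, 1, 0, 0, 2], 2), ([0, 0, 0, 2, 0, 0, 1, 0], 2), ([0, 0, 1, 0, 1, 0,
    0, 0], 2), ([0, 1, 1, 0, 0, 1, 0, 0], 2), ([2, 1, 0, 0, 0, 0, 0, 0], 2)]⟩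

theorem tord8r_23_ok : tord8r_23.OK 8 := TT.leaf_ok (T := ttd8r_23) (by decide +kernel)

/-- the torus -/
def ttd8r_24 : TT where
  k := 8
  rf := [false, false, false, false, true, true, true, true]
  tau := [12, 17, 27, 21, 20, 19, 10, 39, 37, 38, 6, 18, 0, 32, 33, 47, 28, 1, 11, 5, 4, 3, 26, 55, 53, 54, 22, 2,
    16, 48, 49, 63, 13, 14, 46, 58, 40, 8, 9, 7, 36, 57, 51, 61, 60, 59, 34, 15, 29, 30, 62, 42, 56, 24, 25, 23, 52,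
    41, 35, 45, 44, 43, 50, 31]
  par := [0, 0, 1, 2, 7, 15, 23, 31]
  stars := [[0, 32, 13], [1, 12, 18], [2, 17, 28], [3, 27, 22], [4, 21], [5, 20], [6, 19, 11], [7, 10, 39], [8, 40,
    37], [9, 38], [14, 33], [15, 34, 47], [16, 48, 29], [23, 26, 55], [24, 56, 53], [25, 54], [30, 49], [31, 50, 63],
    [35, 59, 46], [36, 41, 58], [42, 52, 57], [43, 62, 51], [44, 61], [45, 60]]
  word := [[], [], [], [0], [0], [0], [0], [], [1], [1], [1], [], [], [2, 0, 3, 1], [2, 0, 3, 1], [], [], [], [],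
    [1], [1], [1], [1], [], [0], [0], [0], [], [], [], [], [], [0, 2, 1, 3], [0, 2, 1, 3], [0, 2, 1, 3], [0, 2, 1],
    [0], [0], [0], [], [1], [2, 1], [2], [2], [2], [2], [2, 0, 3, 1], [], [], [], [], [3], [1], [1], [1], [], [0],
    [0, 3], [0, 3, 1], [3], [3], [3], [], []]
  rank := [0, 0, 0, 0, 1, 2, 3, 0, 5, 4, 3, 1, 0, 10, 9, 0, 1, 0, 1, 2, 1, 0, 1, 0, 3, 2, 1, 0, 1, 2, 3, 0, 10, 9, 8,
    7, 6, 5, 4, 0, 6, 6, 5, 0, 1, 2, 8, 0, 2, 3, 4, 5, 4, 3, 2, 0, 4, 6, 7, 2, 1, 0, 4, 0]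
  just := [0, 0, 0, 0, 4, 5, 6, 0, 9, 7, 6, 1, 0, 10, 11, 0, 2, 0, 1, 5, 4, 0, 3, 0, 15, 13, 3, 0, 2, 12, 16, 0, 10,
    11, 18, 19, 8, 9, 7, 0, 8, 20, 21, 0, 22, 23, 18, 0, 12, 16, 17, 21, 14, 15, 13, 0, 14, 20, 19, 23, 22, 0, 17, 0]
  gA := 3
  gB := 43
  fin := 0
  sid := [0, 1, 2, 3, 4, 5, 6, 7, 8, 9, 7, 6, 1, 0, 10, 11, 12, 2, 1, 6, 5, 4, 3, 13, 14, 15, 13, 3, 2, 12, 16, 17,
    0, 10, 11, 18, 19, 8, 9, 7, 8, 19, 20, 21, 22, 23, 18, 11, 12, 16, 17, 21, 20, 14, 15, 13, 14, 20, 19, 18, 23,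
    22, 21, 17]
  off := [(0, 0), (0, 0), (0, 0), (0, 0), (0, 0), (0, 0), (0, 0), (0, 0), (0, 0), (0, 0), (-1, 0), (-1, 0), (0, 0),
    (0, 0), (0, 0), (0, 0), (0, 0), (0, 0), (0, 0), (-1, 0), (-1, 0), (-1, 0), (-1, 0), (0, 0), (0, 0), (0, 0), (1,
    0), (0, 0), (0, 0), (0, 0), (0, 0), (0, 0), (0, 0), (0, 0), (0, 0), (0, 0), (0, 0), (1, 0), (1, 0), (0, 0), (0,
    0), (-1, 0), (0, 0), (0, 0), (0, 0), (0, 0), (0, 0), (0, 0), (0, 0), (0, 0), (0, 0), (0, -1), (0, -1), (-1, 0),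
    (-1, 0), (0, 0), (0, 0), (1, -1), (0, -1), (0, -1), (0, -1), (0, -1), (0, -1), (0, 0)]

/-- glued arcs and equations -/
def tord8r_24 : TorT :=
  ⟨[(0, 4, true), (0, 5, false), (1, 1, true), (1, 6, false), (2, 3, true), (2, 6, true), (3, 5, true), (4, 4, true),
    (7, 7, false)],
    [([0, 0, 0, 0, 1, 1, 0, 0], 2), ([0, 0, 0, 2, 0, 0, 1, 0], 2), ([0, 0, 1, 0, 0, 0, 0, 2], 2), ([0, 1, 0, 0, 0, 0,
    1, 0], 2), ([0, 1, 1, 0, 1, 0, 0, 0], 2), ([2, 0, 0, 0, 0, 1, 0, 0], 2)]⟩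

theorem tord8r_24_ok : tord8r_24.OK 8 := TT.leaf_ok (T := ttd8r_24) (by decide +kernel)

/-- the torus -/
def ttd8r_25 : TT where
  k := 4
  rf := [false, false, true, true]
  tau := [11, 10, 22, 14, 13, 25, 18, 31, 28, 21, 1, 0, 24, 4, 3, 23, 27, 26, 6, 30, 29, 9, 2, 15, 12, 5, 17, 16, 8,
    20, 19, 7]
  par := [0, 0, 2, 5]
  stars := [[0, 24, 12], [1, 11], [2, 10, 22], [3, 23, 15], [4, 14], [5, 13, 25], [6, 26, 18], [7, 19, 31], [8, 16,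
    28], [9, 29, 21], [17, 27], [20, 30]]
  word := [[], [], [], [3], [3], [], [1, 2], [1, 2, 0], [0], [], [], [], [2], [2], [2], [2], [3, 0], [3, 0], [3, 0],
    [0], [0], [], [], [3], [3], [], [1, 2], [1, 2], [1], [1], [1], [1, 3, 0]]
  rank := [0, 1, 0, 1, 2, 0, 3, 5, 0, 2, 1, 0, 3, 2, 1, 0, 1, 2, 3, 4, 3, 2, 0, 0, 3, 0, 2, 1, 0, 3, 4, 5]
  just := [0, 1, 0, 3, 4, 0, 6, 7, 0, 2, 1, 0, 5, 4, 3, 0, 8, 10, 6, 11, 9, 2, 0, 0, 5, 0, 10, 8, 0, 9, 11, 7]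
  gA := 8
  gB := 15
  fin := 0
  sid := [0, 1, 2, 3, 4, 5, 6, 7, 8, 9, 2, 1, 0, 5, 4, 3, 8, 10, 6, 7, 11, 9, 2, 3, 0, 5, 6, 10, 8, 9, 11, 7]
  off := [(0, 0), (0, 0), (0, 0), (0, 0), (0, 0), (0, 0), (0, 0), (0, 0), (0, 0), (0, 0), (0, 0), (0, 0), (0, 0), (0,
    1), (0, 1), (0, 1), (0, -1), (0, 0), (1, -1), (1, -1), (0, 0), (0, 0), (0, 0), (0, 0), (0, -1), (0, 0), (0, 0),
    (-1, 1), (-1, 0), (-1, 0), (-1, 0), (0, -1)]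

/-- glued arcs and equations -/
def tord8r_25 : TorT :=
  ⟨[(0, 3, true), (0, 4, false), (1, 2, true), (1, 5, false), (2, 6, false), (3, 6, true), (4, 5, true), (7, 7,
    false)],
    [([0, 0, 0, 0, 1, 0, 1, 0], 2), ([0, 0, 0, 1, 0, 0, 0, 2], 2), ([0, 0, 2, 0, 0, 0, 1, 0], 2), ([0, 1, 0, 0, 0, 2,
    0, 0], 2), ([0, 1, 0, 1, 0, 0, 0, 0], 2), ([2, 0, 0, 0, 1, 0, 0, 0], 2)]⟩

theorem tord8r_25_ok : tord8r_25.OK 8 := TT.leaf_ok (T := ttd8r_25) (by decide +kernel)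

/-- the torus -/
def ttd8r_26 : TT where
  k := 8
  rf := [false, false, true, true, false, false, true, true]
  tau := [10, 9, 8, 16, 17, 22, 14, 31, 2, 1, 0, 24, 25, 30, 6, 23, 3, 4, 36, 37, 34, 35, 5, 15, 11, 12, 44, 45, 42,
    43, 13, 7, 51, 52, 20, 21, 18, 19, 53, 63, 59, 60, 28, 29, 26, 27, 61, 55, 58, 57, 56, 32, 33, 38, 62, 47, 50,
    49, 48, 40, 41, 46, 54, 39]
  par := [0, 0, 3, 7, 18, 26, 32, 39]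
  stars := [[0, 24, 11], [1, 10], [2, 9], [3, 8, 16], [4, 17], [5, 18, 36, 22], [6, 23, 15], [7, 14, 31], [12, 25],
    [13, 26, 44, 30], [19, 37], [20, 34, 53, 38], [21, 35], [27, 45], [28, 42, 61, 46], [29, 43], [32, 56, 51], [33,
    52], [39, 54, 63], [40, 48, 59], [41, 60], [47, 62, 55], [49, 58], [50, 57]]
  word := [[], [], [], [], [], [1], [1], [], [], [], [], [0, 2, 1, 3], [0, 2, 1, 3], [0], [0], [], [], [], [], [],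
    [0], [0], [0], [], [2, 0, 3, 1], [2, 0, 3, 1], [], [], [2, 1, 3], [2, 1, 3], [1], [], [], [], [1], [1], [], [],
    [0], [], [2], [2], [2, 0, 3], [2, 0, 3], [], [], [2, 1], [2], [], [], [], [], [], [1], [1], [3], [], [], [], [3],
    [3], [0, 3], [0], []]
  rank := [0, 1, 2, 0, 1, 4, 5, 0, 2, 1, 0, 9, 8, 6, 5, 3, 0, 1, 0, 1, 2, 3, 4, 3, 9, 8, 0, 1, 6, 7, 6, 0, 0, 1, 2,
    3, 0, 1, 0, 0, 4, 5, 6, 7, 0, 1, 2, 0, 3, 2, 1, 0, 1, 0, 1, 0, 1, 2, 3, 4, 5, 2, 1, 0]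
  just := [0, 1, 2, 0, 4, 5, 6, 0, 2, 1, 0, 8, 9, 7, 6, 3, 0, 4, 0, 10, 11, 12, 5, 3, 8, 9, 0, 13, 14, 15, 7, 0, 0,
    17, 11, 12, 0, 10, 0, 0, 19, 20, 14, 15, 0, 13, 21, 0, 22, 23, 16, 0, 17, 0, 18, 0, 16, 23, 22, 19, 20, 21, 18, 0]
  gA := 38
  gB := 47
  fin := 0
  sid := [0, 1, 2, 3, 4, 5, 6, 7, 3, 2, 1, 0, 8, 9, 7, 6, 3, 4, 5, 10, 11, 12, 5, 6, 0, 8, 9, 13, 14, 15, 9, 7, 16,
    17, 11, 12, 5, 10, 11, 18, 19, 20, 14, 15, 9, 13, 14, 21, 19, 22, 23, 16, 17, 11, 18, 21, 16, 23, 22, 19, 20, 14,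
    21, 18]
  off := [(0, 0), (0, 0), (0, 0), (0, 0), (0, 0), (0, 0), (0, 0), (0, 0), (0, 0), (0, 0), (0, 0), (0, 0), (0, 0), (0,
    0), (1, 0), (1, 0), (0, 0), (0, 0), (0, 0), (0, 0), (0, 0), (0, 0), (1, 0), (1, 0), (0, 0), (0, 0), (0, 0), (0,
    0), (0, 0), (0, 0), (-1, 0), (0, 0), (0, 0), (0, 0), (-1, 0), (-1, 0), (0, 0), (0, 0), (0, 0), (0, 0), (0, 0),
    (0, 0), (1, 0), (1, 0), (0, 0), (0, 0), (0, 0), (0, 0), (0, -1), (0, 0), (0, 0), (0, 0), (0, 0), (-1, 0), (-1,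
    0), (0, -1), (0, 0), (0, 0), (0, 0), (0, -1), (0, -1), (1, -1), (1, -1), (0, 0)]

/-- glued arcs and equations -/
def tord8r_26 : TorT :=
  ⟨[(0, 2, true), (0, 3, false), (1, 1, true), (1, 4, false), (2, 4, false), (3, 5, false), (5, 6, false), (6, 6,
    true), (7, 7, false)],
    [([0, 0, 0, 0, 0, 0, 1, 2], 2), ([0, 0, 0, 1, 0, 1, 0, 0], 2), ([0, 0, 1, 0, 1, 1, 1, 0], 2), ([0, 1, 0, 0, 1, 0,
    0, 0], 2), ([0, 1, 1, 0, 0, 0, 0, 0], 2), ([2, 0, 0, 1, 0, 0, 0, 0], 2)]⟩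

theorem tord8r_26_ok : tord8r_26.OK 8 := TT.leaf_ok (T := ttd8r_26) (by decide +kernel)

/-- the torus -/
def ttd8r_27 : TT where
  k := 8
  rf := [false, false, true, true, false, false, true, true]
  tau := [10, 9, 8, 16, 17, 27, 37, 31, 2, 1, 0, 24, 25, 19, 45, 23, 3, 4, 26, 13, 46, 54, 44, 15, 11, 12, 18, 5, 38,
    62, 36, 7, 51, 52, 42, 61, 30, 6, 28, 63, 59, 60, 34, 53, 22, 14, 20, 55, 58, 57, 56, 32, 33, 43, 21, 47, 50, 49,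
    48, 40, 41, 35, 29, 39]
  par := [0, 0, 3, 5, 6, 14, 21, 29]
  stars := [[0, 24, 11], [1, 10], [2, 9], [3, 8, 16], [4, 17], [5, 18, 27], [6, 28, 38], [7, 37, 31], [12, 25], [13,
    26, 19], [14, 20, 46], [15, 45, 23], [21, 55, 47], [22, 44, 54], [29, 63, 39], [30, 36, 62], [32, 56, 51], [33,
    52], [34, 53, 43], [35, 42, 61], [40, 48, 59], [41, 60], [49, 58], [50, 57]]
  word := [[], [], [], [], [], [], [], [3, 0, 2], [], [], [], [0], [0], [0], [], [], [], [], [], [1], [1], [], [],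
    [], [1], [1], [], [], [], [], [3, 1, 2], [3, 1, 2], [3], [3], [3], [3, 0, 2], [3, 0, 2], [], [], [], [0, 2], [0,
    2], [2], [], [], [], [0], [0], [2], [2], [2], [2], [2], [], [], [1], [3], [3], [3], [3, 1], [3, 1], [3, 1, 2],
    [], []]
  rank := [0, 1, 2, 0, 1, 0, 0, 9, 2, 1, 0, 4, 3, 2, 0, 3, 0, 1, 2, 2, 1, 0, 4, 3, 4, 3, 2, 0, 1, 0, 8, 9, 3, 4, 6,
    7, 8, 0, 1, 2, 2, 3, 6, 5, 4, 0, 1, 0, 1, 0, 1, 3, 4, 5, 0, 0, 1, 0, 1, 2, 3, 7, 0, 2]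
  just := [0, 1, 2, 0, 4, 0, 0, 7, 2, 1, 0, 8, 9, 10, 0, 3, 0, 4, 5, 10, 12, 0, 11, 3, 8, 9, 5, 0, 6, 0, 15, 7, 16,
    17, 18, 19, 15, 0, 6, 14, 20, 21, 18, 13, 11, 0, 12, 0, 22, 0, 23, 16, 17, 13, 0, 0, 23, 0, 22, 20, 21, 19, 0, 14]
  gA := 47
  gB := 49
  fin := 0
  sid := [0, 1, 2, 3, 4, 5, 6, 7, 3, 2, 1, 0, 8, 9, 10, 11, 3, 4, 5, 9, 10, 12, 13, 11, 0, 8, 9, 5, 6, 14, 15, 7, 16,
    17, 18, 19, 15, 7, 6, 14, 20, 21, 19, 18, 13, 11, 10, 12, 20, 22, 23, 16, 17, 18, 13, 12, 16, 23, 22, 20, 21, 19,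
    15, 14]
  off := [(0, 0), (0, 0), (0, 0), (0, 0), (0, 0), (0, 0), (0, 0), (0, 0), (0, 0), (0, 0), (0, 0), (0, 0), (0, 0), (0,
    0), (0, 0), (0, 0), (0, 0), (0, 0), (0, 0), (-1, 0), (-1, 0), (0, 0), (0, 0), (0, 0), (-1, 0), (-1, 0), (-1, 0),
    (0, 0), (0, 0), (0, 0), (0, 0), (-1, 0), (0, 0), (0, 0), (0, 0), (0, 0), (1, 0), (0, 0), (0, 0), (0, 0), (0, 0),
    (0, 0), (0, 1), (0, 1), (0, 0), (0, 0), (0, 0), (1, 0), (-1, 0), (0, 0), (0, 0), (0, 1), (0, 1), (0, 1), (0, 0),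
    (0, 0), (0, 0), (0, -1), (0, -1), (-1, -1), (-1, -1), (-1, 0), (0, 0), (0, 0)]

/-- glued arcs and equations -/
def tord8r_27 : TorT :=
  ⟨[(0, 2, true), (0, 3, false), (1, 1, true), (1, 4, false), (2, 2, true), (3, 5, false), (4, 6, false), (5, 6,
    true), (7, 7, false)],
    [([0, 0, 0, 0, 0, 1, 0, 2], 2), ([0, 0, 0, 0, 1, 0, 2, 0], 2), ([0, 0, 1, 1, 0, 1, 0, 0], 2), ([0, 1, 0, 0, 1, 0,
    0, 0], 2), ([0, 1, 1, 0, 0, 0, 0, 0], 2), ([2, 0, 0, 1, 0, 0, 0, 0], 2)]⟩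

theorem tord8r_27_ok : tord8r_27.OK 8 := TT.leaf_ok (T := ttd8r_27) (by decide +kernel)

/-- the torus -/
def ttd8r_28 : TT where
  k := 8
  rf := [false, false, true, false, true, false, true, true]
  tau := [10, 9, 8, 16, 17, 28, 14, 39, 2, 1, 0, 32, 33, 44, 6, 23, 3, 4, 29, 30, 53, 26, 27, 15, 51, 52, 21, 22, 5,
    18, 19, 63, 11, 12, 45, 46, 61, 42, 43, 7, 59, 60, 37, 38, 13, 34, 35, 55, 58, 57, 56, 24, 25, 20, 62, 47, 50,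
    49, 48, 40, 41, 36, 54, 31]
  par := [0, 0, 3, 5, 7, 13, 20, 31]
  stars := [[0, 32, 11], [1, 10], [2, 9], [3, 8, 16], [4, 17], [5, 18, 29], [6, 28, 23, 15], [7, 14, 44, 39], [12,
    33], [13, 34, 45], [19, 30], [20, 54, 63, 31], [21, 26, 53], [22, 27], [24, 56, 51], [25, 52], [35, 46], [36, 62,
    55, 47], [37, 42, 61], [38, 43], [40, 48, 59], [41, 60], [49, 58], [50, 57]]
  word := [[], [], [], [], [], [], [0], [], [], [], [], [2, 0, 3, 1], [2, 0, 3, 1], [], [1], [], [], [], [], [], [],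
    [1], [1], [], [0], [0], [0], [0], [], [], [], [], [0, 2, 1, 3], [0, 2, 1, 3], [0, 2, 1, 3], [0, 2, 1, 3], [0, 2],
    [0], [0], [], [2], [2], [1], [1], [], [2, 0, 3, 1], [2, 0, 3, 1], [2, 0], [1], [1], [1], [1], [1], [], [], [1,
    3], [0], [0], [0], [3], [3], [3, 1], [], []]
  rank := [0, 1, 2, 0, 1, 0, 4, 0, 2, 1, 0, 11, 10, 0, 4, 3, 0, 1, 2, 3, 0, 1, 2, 3, 1, 0, 1, 2, 0, 2, 3, 0, 11, 10,
    9, 8, 7, 6, 5, 0, 0, 1, 6, 5, 0, 9, 8, 5, 4, 3, 2, 1, 0, 0, 4, 5, 2, 3, 4, 0, 1, 7, 4, 0]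
  just := [0, 1, 2, 0, 4, 0, 6, 0, 2, 1, 0, 8, 9, 0, 6, 3, 0, 4, 5, 10, 0, 12, 13, 3, 15, 0, 12, 13, 0, 5, 10, 0, 8,
    9, 16, 17, 18, 19, 7, 0, 0, 21, 19, 7, 0, 16, 17, 20, 22, 23, 14, 15, 0, 0, 11, 20, 14, 23, 22, 0, 21, 18, 11, 0]
  gA := 25
  gB := 40
  fin := 0
  sid := [0, 1, 2, 3, 4, 5, 6, 7, 3, 2, 1, 0, 8, 9, 7, 6, 3, 4, 5, 10, 11, 12, 13, 6, 14, 15, 12, 13, 6, 5, 10, 11,
    0, 8, 9, 16, 17, 18, 19, 7, 20, 21, 18, 19, 7, 9, 16, 17, 20, 22, 23, 14, 15, 12, 11, 17, 14, 23, 22, 20, 21, 18,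
    17, 11]
  off := [(0, 0), (0, 0), (0, 0), (0, 0), (0, 0), (0, 0), (0, 0), (0, 0), (0, 0), (0, 0), (0, 0), (0, 0), (0, 0), (0,
    0), (-1, 0), (-1, 0), (0, 0), (0, 0), (0, 0), (0, 0), (0, 0), (0, 0), (0, 0), (-1, 0), (0, 0), (0, 0), (1, 0),
    (1, 0), (0, 0), (0, 0), (0, 0), (0, 0), (0, 0), (0, 0), (0, 0), (0, 0), (0, 0), (0, 0), (0, 0), (0, 0), (0, 0),
    (0, 0), (-1, 0), (-1, 0), (-1, 0), (0, 0), (0, 0), (0, 0), (-1, -1), (0, 0), (0, 0), (-1, 0), (-1, 0), (0, 0),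
    (0, 0), (-1, -1), (0, 0), (1, 0), (1, 0), (0, -1), (0, -1), (-1, -1), (-1, -1), (0, 0)]

/-- glued arcs and equations -/
def tord8r_28 : TorT :=
  ⟨[(0, 2, true), (0, 3, false), (1, 1, true), (1, 4, false), (2, 5, false), (3, 6, false), (4, 5, true), (6, 6,
    true), (7, 7, false)],
    [([0, 0, 0, 0, 1, 0, 1, 2], 2), ([0, 0, 0, 1, 0, 0, 1, 0], 2), ([0, 0, 1, 0, 0, 2, 0, 0], 2), ([0, 1, 0, 0, 1, 0,
    0, 0], 2), ([0, 1, 1, 0, 0, 0, 0, 0], 2), ([2, 0, 0, 1, 0, 0, 0, 0], 2)]⟩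

theorem tord8r_28_ok : tord8r_28.OK 8 := TT.leaf_ok (T := ttd8r_28) (by decide +kernel)

/-- the torus -/
def ttd8r_29 : TT where
  k := 8
  rf := [false, false, true, false, true, false, true, true]
  tau := [10, 9, 8, 16, 17, 13, 28, 39, 2, 1, 0, 32, 33, 5, 44, 23, 3, 4, 45, 46, 54, 42, 43, 15, 51, 52, 37, 38, 6,
    34, 35, 63, 11, 12, 29, 30, 62, 26, 27, 7, 59, 60, 21, 22, 14, 18, 19, 55, 58, 57, 56, 24, 25, 61, 20, 47, 50,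
    49, 48, 40, 41, 53, 36, 31]
  par := [0, 0, 3, 6, 7, 14, 20, 31]
  stars := [[0, 32, 11], [1, 10], [2, 9], [3, 8, 16], [4, 17], [5, 18, 45, 14], [6, 13, 34, 29], [7, 28, 39], [12,
    33], [15, 44, 23], [19, 46], [20, 55, 47], [21, 42, 61, 54], [22, 43], [24, 56, 51], [25, 52], [26, 53, 62, 37],
    [27, 38], [30, 35], [31, 36, 63], [40, 48, 59], [41, 60], [49, 58], [50, 57]]
  word := [[], [], [], [], [], [2, 1], [], [], [], [], [], [0, 3, 1, 2], [0, 3, 1, 2], [0, 3], [], [], [], [], [2,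
    1], [2, 1], [], [], [], [], [3], [3], [], [], [], [1, 2], [1, 2], [], [3, 0, 2, 1], [3, 0, 2, 1], [3, 0], [3, 0],
    [3, 0], [], [], [], [0], [0], [], [], [], [0, 3], [0, 3], [0, 3], [2], [2], [2], [2], [2], [0], [], [2, 1], [3],
    [3], [3], [1], [1], [1], [1, 2], []]
  rank := [0, 1, 2, 0, 1, 6, 0, 0, 2, 1, 0, 11, 10, 6, 0, 3, 0, 1, 5, 4, 0, 5, 4, 3, 1, 2, 2, 1, 0, 9, 8, 0, 11, 10,
    9, 8, 7, 2, 1, 0, 1, 0, 5, 4, 0, 5, 4, 3, 2, 1, 0, 1, 2, 6, 0, 3, 0, 1, 2, 1, 0, 6, 7, 0]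
  just := [0, 1, 2, 0, 4, 5, 0, 0, 2, 1, 0, 8, 6, 5, 0, 3, 0, 4, 10, 11, 0, 13, 9, 3, 14, 15, 17, 7, 0, 18, 19, 0, 8,
    6, 18, 19, 16, 17, 7, 0, 21, 0, 13, 9, 0, 10, 11, 20, 22, 23, 0, 14, 15, 12, 0, 20, 0, 23, 22, 21, 0, 12, 16, 0]
  gA := 41
  gB := 50
  fin := 0
  sid := [0, 1, 2, 3, 4, 5, 6, 7, 3, 2, 1, 0, 8, 6, 5, 9, 3, 4, 5, 10, 11, 12, 13, 9, 14, 15, 16, 17, 7, 6, 18, 19,
    0, 8, 6, 18, 19, 16, 17, 7, 20, 21, 12, 13, 9, 5, 10, 11, 20, 22, 23, 14, 15, 16, 12, 11, 14, 23, 22, 20, 21, 12,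
    16, 19]
  off := [(0, 0), (0, 0), (0, 0), (0, 0), (0, 0), (0, 0), (0, 0), (0, 0), (0, 0), (0, 0), (0, 0), (0, 0), (0, 0), (1,
    -1), (1, -1), (0, 0), (0, 0), (0, 0), (0, 0), (0, 0), (0, 0), (0, 0), (0, 0), (0, 0), (0, 0), (0, 0), (0, 0), (0,
    0), (0, 0), (0, 0), (0, 0), (0, 0), (0, 0), (0, 0), (1, -1), (1, -1), (1, -1), (0, 0), (0, 0), (0, 0), (0, 0),
    (0, 0), (0, 0), (0, 0), (0, 0), (1, -1), (1, -1), (1, -1), (-1, 1), (0, 0), (0, 0), (0, 1), (0, 1), (0, 1), (0,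
    0), (0, 0), (0, 0), (0, -1), (0, -1), (-1, 0), (-1, 0), (-1, 0), (-1, 1), (0, 0)]

/-- glued arcs and equations -/
def tord8r_29 : TorT :=
  ⟨[(0, 2, true), (0, 3, false), (1, 1, true), (1, 4, false), (2, 5, false), (3, 6, false), (4, 6, true), (5, 5,
    true), (7, 7, false)],
    [([0, 0, 0, 0, 1, 0, 0, 2], 2), ([0, 0, 0, 1, 0, 0, 1, 0], 2), ([0, 0, 1, 0, 0, 2, 1, 0], 2), ([0, 1, 0, 0, 1, 0,
    0, 0], 2), ([0, 1, 1, 0, 0, 0, 0, 0], 2), ([2, 0, 0, 1, 0, 0, 0, 0], 2)]⟩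

theorem tord8r_29_ok : tord8r_29.OK 8 := TT.leaf_ok (T := ttd8r_29) (by decide +kernel)

/-- the torus -/
def ttd8r_30 : TT where
  k := 8
  rf := [false, false, true, false, true, false, true, true]
  tau := [10, 9, 8, 16, 17, 27, 21, 39, 2, 1, 0, 32, 33, 43, 37, 23, 3, 4, 28, 53, 26, 6, 38, 15, 51, 52, 20, 5, 18,
    54, 46, 63, 11, 12, 44, 61, 42, 14, 22, 7, 59, 60, 36, 13, 34, 62, 30, 55, 58, 57, 56, 24, 25, 19, 29, 47, 50,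
    49, 48, 40, 41, 35, 45, 31]
  par := [0, 0, 3, 5, 7, 13, 19, 31]
  stars := [[0, 32, 11], [1, 10], [2, 9], [3, 8, 16], [4, 17], [5, 18, 28], [6, 27, 21], [7, 22, 39], [12, 33], [13,
    34, 44], [14, 43, 37], [15, 38, 23], [19, 54, 29], [20, 26, 53], [24, 56, 51], [25, 52], [30, 55, 47], [31, 46,
    63], [35, 62, 45], [36, 42, 61], [40, 48, 59], [41, 60], [49, 58], [50, 57]]
  word := [[], [], [], [], [], [], [0], [], [], [], [], [2, 0, 3, 1], [2, 0, 3, 1], [], [1], [], [], [], [], [], [1],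
    [1], [1], [], [0], [0], [0], [], [], [], [3], [], [0, 2, 1, 3], [0, 2, 1, 3], [0, 2, 1, 3], [0, 2, 1], [0], [0],
    [0], [], [2, 1], [2, 1], [1], [], [2, 0, 3, 1], [2], [2], [2], [1], [1], [1], [1], [1], [], [], [3], [0], [0],
    [0], [0, 3], [0, 3], [0, 3, 1], [3], []]
  rank := [0, 1, 2, 0, 1, 0, 3, 0, 2, 1, 0, 10, 9, 0, 5, 3, 0, 1, 2, 0, 2, 3, 4, 3, 0, 1, 2, 0, 2, 3, 4, 0, 10, 9, 8,
    7, 6, 5, 4, 0, 4, 5, 6, 0, 8, 5, 4, 0, 3, 2, 1, 0, 1, 0, 3, 0, 1, 2, 3, 4, 5, 7, 5, 0]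
  just := [0, 1, 2, 0, 4, 0, 6, 0, 2, 1, 0, 8, 9, 0, 11, 3, 0, 4, 5, 0, 13, 6, 7, 3, 0, 15, 13, 0, 5, 12, 16, 0, 8,
    9, 18, 19, 10, 11, 7, 0, 20, 21, 10, 0, 18, 17, 16, 0, 22, 23, 14, 0, 15, 0, 12, 0, 14, 23, 22, 20, 21, 19, 17, 0]
  gA := 24
  gB := 47
  fin := 0
  sid := [0, 1, 2, 3, 4, 5, 6, 7, 3, 2, 1, 0, 8, 9, 10, 11, 3, 4, 5, 12, 13, 6, 7, 11, 14, 15, 13, 6, 5, 12, 16, 17,
    0, 8, 9, 18, 19, 10, 11, 7, 20, 21, 19, 10, 9, 18, 17, 16, 20, 22, 23, 14, 15, 13, 12, 16, 14, 23, 22, 20, 21,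
    19, 18, 17]
  off := [(0, 0), (0, 0), (0, 0), (0, 0), (0, 0), (0, 0), (0, 0), (0, 0), (0, 0), (0, 0), (0, 0), (0, 0), (0, 0), (0,
    0), (0, 0), (0, 0), (0, 0), (0, 0), (0, 0), (0, 0), (0, 0), (-1, 0), (-1, 0), (0, 0), (0, 0), (0, 0), (1, 0), (0,
    0), (0, 0), (0, 0), (0, 0), (0, 0), (0, 0), (0, 0), (0, 0), (0, 0), (0, 0), (1, 0), (1, 0), (0, 0), (0, 0), (0,
    0), (-1, 0), (0, 0), (0, 0), (0, 0), (0, 1), (0, 1), (0, -1), (0, 0), (0, 0), (-1, 0), (-1, 0), (0, 0), (0, 0),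
    (0, 0), (0, 0), (1, 0), (1, 0), (1, -1), (1, -1), (0, -1), (0, -1), (0, 0)]

/-- glued arcs and equations -/
def tord8r_30 : TorT :=
  ⟨[(0, 2, true), (0, 3, false), (1, 1, true), (1, 4, false), (2, 4, false), (3, 5, true), (5, 6, false), (6, 6,
    true), (7, 7, false)],
    [([0, 0, 0, 0, 0, 0, 1, 2], 2), ([0, 0, 0, 1, 0, 1, 1, 0], 2), ([0, 0, 1, 0, 1, 1, 0, 0], 2), ([0, 1, 0, 0, 1, 0,
    0, 0], 2), ([0, 1, 1, 0, 0, 0, 0, 0], 2), ([2, 0, 0, 1, 0, 0, 0, 0], 2)]⟩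

theorem tord8r_30_ok : tord8r_30.OK 8 := TT.leaf_ok (T := ttd8r_30) (by decide +kernel)

/-- the torus -/
def ttd8r_31 : TT where
  k := 8
  rf := [false, false, false, true, true, false, true, true]
  tau := [12, 11, 5, 19, 20, 2, 10, 31, 29, 30, 6, 1, 0, 24, 25, 39, 44, 43, 21, 3, 4, 18, 42, 55, 13, 14, 38, 33,
    32, 8, 9, 7, 28, 27, 37, 59, 60, 34, 26, 15, 53, 54, 22, 17, 16, 48, 49, 63, 45, 46, 62, 57, 56, 40, 41, 23, 52,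
    51, 61, 35, 36, 58, 50, 47]
  par := [0, 0, 3, 7, 15, 16, 23, 35]
  stars := [[0, 24, 13], [1, 12], [2, 11, 6], [3, 5, 20], [4, 19, 21], [7, 10, 31], [8, 32, 29], [9, 30], [14, 25],
    [15, 26, 39], [16, 48, 45], [17, 44], [18, 43, 22], [23, 42, 55], [27, 34, 38], [28, 33], [35, 60, 37], [36, 61,
    59], [40, 56, 53], [41, 54], [46, 49], [47, 50, 63], [51, 58, 62], [52, 57]]
  word := [[], [], [0], [], [1], [1], [1], [], [0], [0], [0], [], [], [3, 1, 2, 0], [3, 1, 2, 0], [], [], [], [1],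
    [], [0], [0], [0], [], [1, 3, 0, 2], [1, 3, 0, 2], [1, 3, 0, 2], [1], [1], [1], [1], [], [0], [0], [3, 0, 2], [],
    [3, 1, 2], [3, 1, 2], [3, 1, 2, 0], [], [1], [1], [1], [], [], [], [], [1, 2], [], [], [1, 2], [2], [2], [0],
    [0], [], [3], [3], [3, 1, 2], [], [3, 0, 2], [3, 0, 2], [3, 0], [3, 0]]
  rank := [0, 1, 4, 0, 3, 4, 5, 0, 7, 6, 5, 1, 0, 12, 11, 0, 0, 1, 2, 0, 3, 2, 0, 0, 12, 11, 10, 9, 8, 7, 6, 0, 8, 9,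
    7, 0, 6, 7, 10, 0, 2, 1, 0, 1, 0, 1, 2, 3, 1, 2, 4, 1, 0, 2, 1, 0, 0, 1, 5, 0, 6, 5, 4, 3]
  just := [0, 1, 3, 0, 4, 3, 2, 0, 7, 5, 2, 1, 0, 8, 9, 0, 0, 11, 12, 0, 4, 12, 0, 0, 8, 9, 14, 15, 6, 7, 5, 0, 6,
    15, 16, 0, 17, 16, 14, 0, 19, 13, 0, 11, 0, 10, 20, 18, 10, 20, 21, 23, 0, 19, 13, 0, 0, 23, 22, 0, 17, 22, 21,
    18]
  gA := 22
  gB := 52
  fin := 0
  sid := [0, 1, 2, 3, 4, 3, 2, 5, 6, 7, 5, 2, 1, 0, 8, 9, 10, 11, 12, 4, 3, 4, 12, 13, 0, 8, 9, 14, 15, 6, 7, 5, 6,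
    15, 14, 16, 17, 16, 14, 9, 18, 19, 13, 12, 11, 10, 20, 21, 10, 20, 21, 22, 23, 18, 19, 13, 18, 23, 22, 17, 16,
    17, 22, 21]
  off := [(0, 0), (0, 0), (0, 0), (0, 0), (0, 0), (-1, 0), (-1, 0), (0, 0), (0, 0), (0, 0), (1, 0), (0, 0), (0, 0),
    (0, 0), (0, 0), (0, 0), (0, 0), (0, 0), (0, 0), (0, 0), (0, 0), (1, 0), (1, 0), (0, 0), (0, 0), (0, 0), (0, 0),
    (0, 0), (0, 0), (-1, 0), (-1, 0), (0, 0), (0, 0), (1, 0), (1, 0), (0, 0), (0, 0), (-1, 0), (0, 0), (0, 0), (0,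
    0), (0, 0), (-1, 0), (0, 0), (0, 0), (0, 0), (0, 0), (0, 0), (0, 0), (0, 0), (0, 0), (0, 0), (0, 0), (1, 0), (1,
    0), (0, 0), (1, -1), (0, -1), (0, -1), (0, 0), (0, 0), (1, 0), (1, -1), (1, -1)]

/-- glued arcs and equations -/
def tord8r_31 : TorT :=
  ⟨[(0, 4, true), (0, 5, false), (1, 3, true), (1, 6, false), (2, 5, true), (2, 6, true), (3, 3, true), (4, 4, true),
    (7, 7, false)],
    [([0, 0, 0, 1, 1, 1, 0, 0], 2), ([0, 0, 1, 0, 0, 0, 0, 2], 2), ([0, 0, 1, 1, 0, 0, 1, 0], 2), ([0, 1, 0, 0, 0, 0,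
    1, 0], 2), ([0, 1, 0, 0, 1, 0, 0, 0], 2), ([2, 0, 0, 0, 0, 1, 0, 0], 2)]⟩

theorem tord8r_31_ok : tord8r_31.OK 8 := TT.leaf_ok (T := ttd8r_31) (by decide +kernel)

/-- the torus -/
def ttd8r_32 : TT where
  k := 8
  rf := [false, false, true, false, false, true, true, true]
  tau := [10, 9, 8, 16, 29, 35, 34, 47, 2, 1, 0, 40, 37, 27, 26, 23, 3, 30, 54, 53, 44, 60, 25, 15, 59, 22, 14, 13,
    36, 4, 17, 55, 51, 46, 6, 5, 28, 12, 41, 63, 11, 38, 62, 61, 20, 52, 33, 7, 58, 57, 56, 32, 45, 19, 18, 31, 50,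
    49, 48, 24, 21, 43, 42, 39]
  par := [0, 0, 3, 4, 5, 7, 18, 21]
  stars := [[0, 40, 11], [1, 10], [2, 9], [3, 8, 16], [4, 17, 30], [5, 29, 36], [6, 35], [7, 34, 47], [12, 41, 38],
    [13, 37, 28], [14, 27], [15, 26, 23], [18, 55, 31], [19, 54], [20, 45, 53], [21, 61, 44], [22, 25, 60], [24, 48,
    59], [32, 56, 51], [33, 52, 46], [39, 42, 63], [43, 62], [49, 58], [50, 57]]
  word := [[], [], [], [], [], [], [], [], [], [], [], [3, 1, 2, 0], [3], [3], [3], [], [], [], [], [], [0], [], [3],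
    [], [2], [2], [2], [2], [], [], [], [], [1], [], [], [], [], [2], [1, 2, 0], [1, 2], [1, 3, 0, 2], [1, 3, 0],
    [1], [1], [1], [1], [], [], [2], [2], [2], [0], [0], [], [], [], [3], [3], [3], [3], [], [0], [0], [3, 0]]
  rank := [0, 1, 2, 0, 0, 0, 1, 0, 2, 1, 0, 8, 7, 6, 5, 3, 0, 1, 0, 1, 0, 0, 4, 3, 3, 4, 5, 6, 1, 0, 1, 2, 3, 2, 1,
    0, 1, 7, 5, 4, 8, 5, 2, 1, 0, 2, 2, 0, 0, 1, 2, 3, 2, 1, 0, 2, 2, 1, 0, 3, 0, 1, 2, 4]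
  just := [0, 1, 2, 0, 0, 0, 6, 0, 2, 1, 0, 8, 9, 10, 11, 3, 0, 4, 0, 13, 0, 0, 16, 3, 17, 16, 11, 10, 5, 0, 4, 12,
    19, 7, 6, 0, 5, 9, 20, 18, 8, 20, 21, 15, 0, 14, 7, 0, 0, 22, 23, 19, 14, 13, 0, 12, 23, 22, 0, 17, 0, 15, 21, 18]
  gA := 20
  gB := 48
  fin := 0
  sid := [0, 1, 2, 3, 4, 5, 6, 7, 3, 2, 1, 0, 8, 9, 10, 11, 3, 4, 12, 13, 14, 15, 16, 11, 17, 16, 11, 10, 9, 5, 4,
    12, 18, 19, 7, 6, 5, 9, 8, 20, 0, 8, 20, 21, 15, 14, 19, 7, 17, 22, 23, 18, 19, 14, 13, 12, 18, 23, 22, 17, 16,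
    15, 21, 20]
  off := [(0, 0), (0, 0), (0, 0), (0, 0), (0, 0), (0, 0), (0, 0), (0, 0), (0, 0), (0, 0), (0, 0), (0, 0), (0, 0), (0,
    0), (0, 0), (0, 0), (0, 0), (0, 0), (0, 0), (0, 0), (0, 0), (0, 0), (0, 0), (0, 0), (0, 0), (0, 1), (0, 1), (0,
    1), (0, 1), (0, 0), (0, 0), (0, 0), (0, 0), (0, 0), (0, 0), (0, 0), (0, 0), (0, 1), (0, 1), (0, 0), (0, 0), (0,
    0), (0, -1), (0, 0), (-1, 0), (-1, 0), (0, 0), (0, 0), (0, 0), (0, 0), (0, 0), (1, 0), (1, 0), (0, 0), (0, 0),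
    (0, 0), (1, -1), (0, -1), (0, -1), (0, -1), (0, 0), (0, 0), (1, 0), (1, -1)]

/-- glued arcs and equations -/
def tord8r_32 : TorT :=
  ⟨[(0, 2, true), (0, 3, false), (1, 1, true), (1, 6, false), (2, 6, true), (3, 5, true), (4, 4, true), (4, 5, true),
    (7, 7, false)],
    [([0, 0, 0, 0, 1, 2, 0, 0], 2), ([0, 0, 0, 1, 0, 0, 1, 0], 2), ([0, 0, 1, 0, 0, 0, 0, 2], 2), ([0, 1, 0, 0, 1, 0,
    1, 0], 2), ([0, 1, 1, 0, 0, 0, 0, 0], 2), ([2, 0, 0, 1, 0, 0, 0, 0], 2)]⟩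

theorem tord8r_32_ok : tord8r_32.OK 8 := TT.leaf_ok (T := ttd8r_32) (by decide +kernel)

end Pool.Agent.Lib_MP_fa6e45
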