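import Pool.Agent.Lib_MP_fa6e45.CT5

/-!
MP_fa6e45_co, stage 9: straight-side patterns with `8` sides, tables of tori (generated by a program).
-/

namespace Pool.Agent.Lib_MP_fa6e45

/-- the torus -/
def ttd8r_33 : TT where
  k := 8
  rf := [false, false, true, true, true, false, true, false]
  tau := [8, 16, 17, 29, 38, 46, 36, 31, 0, 24, 25, 21, 54, 62, 52, 23, 1, 2, 28, 27, 26, 11, 53, 15, 9, 10, 20, 19,
    18, 3, 37, 7, 48, 56, 57, 45, 6, 30, 4, 47, 49, 50, 60, 59, 58, 35, 5, 39, 32, 40, 41, 61, 14, 22, 12, 63, 33,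
    34, 44, 43, 42, 51, 13, 55]
  par := [0, 0, 1, 3, 4, 5, 12, 13]
  stars := [[0, 24, 9], [1, 8, 16], [2, 17], [3, 18, 29], [4, 30, 38], [5, 39, 47], [6, 46, 36], [7, 37, 31], [10,
    25], [11, 26, 21], [12, 22, 54], [13, 55, 63], [14, 62, 52], [15, 53, 23], [19, 28], [20, 27], [32, 49, 40], [33,
    56, 48], [34, 57], [35, 45, 58], [41, 50], [42, 51, 61], [43, 60], [44, 59]]
  word := [[], [], [], [], [], [], [0, 2, 1], [0, 2, 1], [], [2], [2], [2], [], [], [3], [], [], [], [], [], [], [3],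
    [3], [], [3], [3], [], [], [], [], [], [0, 3, 1], [0], [0], [0], [0, 3, 1], [0, 3, 1], [], [], [], [0], [0], [0,
    2], [0, 2], [0, 2], [0, 2, 1], [], [], [1], [1], [1], [2], [2], [2], [], [], [1], [1], [3, 1], [3, 1], [3, 1],
    [3], [], []]
  rank := [0, 0, 1, 0, 0, 0, 6, 7, 0, 6, 5, 3, 0, 0, 1, 1, 0, 1, 2, 3, 4, 3, 2, 1, 6, 5, 4, 3, 2, 0, 1, 7, 2, 3, 4,
    5, 6, 1, 0, 1, 1, 0, 1, 2, 3, 5, 0, 1, 2, 1, 0, 0, 1, 2, 0, 1, 3, 4, 3, 2, 1, 0, 0, 1]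
  just := [0, 0, 2, 0, 0, 0, 6, 7, 0, 8, 9, 10, 0, 0, 12, 1, 0, 2, 3, 14, 15, 10, 13, 1, 8, 9, 15, 14, 3, 0, 4, 7,
    16, 17, 18, 19, 6, 4, 0, 5, 20, 0, 21, 22, 23, 19, 0, 5, 16, 20, 0, 0, 12, 13, 0, 11, 17, 18, 23, 22, 21, 0, 0,
    11]
  gA := 41
  gB := 51
  fin := 0
  sid := [0, 1, 2, 3, 4, 5, 6, 7, 1, 0, 8, 9, 10, 11, 12, 13, 1, 2, 3, 14, 15, 9, 10, 13, 0, 8, 9, 15, 14, 3, 4, 7,
    16, 17, 18, 19, 6, 7, 4, 5, 16, 20, 21, 22, 23, 19, 6, 5, 17, 16, 20, 21, 12, 13, 10, 11, 17, 18, 19, 23, 22, 21,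
    12, 11]
  off := [(0, 0), (0, 0), (0, 0), (0, 0), (0, 0), (0, 0), (0, 0), (0, 0), (0, 0), (0, 0), (0, 0), (0, 0), (0, 0), (0,
    0), (0, 0), (0, 0), (0, 0), (0, 0), (0, 0), (0, 0), (0, 0), (0, -1), (0, -1), (0, 0), (0, -1), (0, -1), (0, -1),
    (0, 0), (0, 0), (0, 0), (0, 0), (0, -1), (0, 0), (0, 0), (0, 0), (0, 0), (0, -1), (0, -1), (0, 0), (0, 0), (0,
    0), (0, 0), (0, 0), (0, 0), (0, 0), (0, 1), (0, 0), (0, 0), (-1, 0), (-1, 0), (-1, 0), (-1, 0), (0, 1), (0, 1),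
    (0, 0), (0, 0), (-1, 0), (-1, 0), (-1, 0), (-1, -1), (-1, -1), (-1, -1), (0, 0), (0, 0)]

/-- glued arcs and equations -/
def tord8r_33 : TorT :=
  ⟨[(0, 0, true), (0, 1, false), (1, 2, false), (2, 4, true), (3, 3, true), (3, 5, false), (4, 6, false), (5, 6,
    true), (7, 7, false)],
    [([0, 0, 0, 0, 0, 1, 0, 2], 2), ([0, 0, 0, 0, 1, 0, 2, 0], 2), ([0, 0, 0, 1, 1, 0, 0, 0], 2), ([0, 0, 1, 1, 0, 1,
    0, 0], 2), ([0, 1, 1, 0, 0, 0, 0, 0], 2), ([2, 1, 0, 0, 0, 0, 0, 0], 2)]⟩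

theorem tord8r_33_ok : tord8r_33.OK 8 := TT.leaf_ok (T := ttd8r_33) (by decide +kernel)

/-- the torus -/
def ttd8r_34 : TT where
  k := 4
  rf := [false, false, true, true]
  tau := [12, 11, 20, 21, 18, 19, 10, 31, 29, 30, 6, 1, 0, 24, 25, 23, 28, 27, 4, 5, 2, 3, 26, 15, 13, 14, 22, 17,
    16, 8, 9, 7]
  par := [0, 0, 2, 7]
  stars := [[0, 24, 13], [1, 12], [2, 11, 6, 20], [3, 21], [4, 22, 27, 18], [5, 19], [7, 10, 31], [8, 16, 29], [9,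
    30], [14, 25], [15, 26, 23], [17, 28]]
  word := [[], [], [], [], [0], [0], [0], [], [1], [1], [1], [], [], [1, 3, 0, 2], [1, 3, 0, 2], [1, 3], [2], [2],
    [1], [1], [], [], [0, 2], [2, 0], [3, 1, 2, 0], [3, 1, 2, 0], [3, 1], [3], [3], [0], [0], []]
  rank := [0, 1, 0, 1, 3, 2, 0, 0, 2, 1, 0, 1, 0, 6, 5, 3, 1, 0, 3, 2, 0, 1, 4, 3, 6, 5, 4, 0, 1, 2, 1, 0]
  just := [0, 1, 0, 3, 5, 2, 0, 0, 8, 6, 0, 1, 0, 9, 10, 7, 11, 0, 5, 2, 0, 3, 4, 7, 9, 10, 4, 0, 11, 8, 6, 0]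
  gA := 6
  gB := 17
  fin := 0
  sid := [0, 1, 2, 3, 4, 5, 2, 6, 7, 8, 6, 2, 1, 0, 9, 10, 7, 11, 4, 5, 2, 3, 4, 10, 0, 9, 10, 4, 11, 7, 8, 6]
  off := [(0, 0), (0, 0), (0, 0), (0, 0), (0, 0), (0, 0), (1, 0), (0, 0), (0, 0), (0, 0), (-1, 0), (0, 0), (0, 0),
    (0, 0), (0, 0), (0, 0), (1, 1), (0, 0), (-1, 0), (-1, 0), (0, 0), (0, 0), (0, 0), (1, 1), (0, 0), (0, 0), (0, 0),
    (-1, -1), (0, -1), (1, 0), (1, 0), (0, 0)]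

/-- glued arcs and equations -/
def tord8r_34 : TorT :=
  ⟨[(0, 4, true), (0, 5, false), (1, 3, true), (1, 6, false), (2, 4, false), (2, 6, true), (3, 5, false), (7, 7,
    false)],
    [([0, 0, 0, 1, 0, 1, 0, 0], 2), ([0, 0, 1, 0, 0, 0, 0, 2], 2), ([0, 0, 1, 1, 1, 0, 1, 0], 2), ([0, 1, 0, 0, 0, 0,
    1, 0], 2), ([0, 1, 0, 0, 1, 0, 0, 0], 2), ([2, 0, 0, 0, 0, 1, 0, 0], 2)]⟩

theorem tord8r_34_ok : tord8r_34.OK 8 := TT.leaf_ok (T := ttd8r_34) (by decide +kernel)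

/-- the torus -/
def ttd8r_35 : TT where
  k := 8
  rf := [false, false, false, false, true, true, true, true]
  tau := [12, 11, 18, 26, 22, 21, 20, 39, 37, 38, 19, 1, 0, 32, 33, 47, 28, 27, 2, 10, 6, 5, 4, 55, 53, 54, 3, 17,
    16, 48, 49, 63, 13, 14, 59, 41, 40, 8, 9, 7, 36, 35, 58, 50, 62, 61, 60, 15, 29, 30, 43, 57, 56, 24, 25, 23, 52,
    51, 42, 34, 46, 45, 44, 31]
  par := [0, 0, 2, 3, 7, 15, 23, 31]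
  stars := [[0, 32, 13], [1, 12], [2, 11, 19], [3, 18, 27], [4, 26, 55, 23], [5, 22], [6, 21], [7, 20, 10, 39], [8,
    40, 37], [9, 38], [14, 33], [15, 34, 60, 47], [16, 48, 29], [17, 28], [24, 56, 53], [25, 54], [30, 49], [31, 50,
    44, 63], [35, 42, 59], [36, 41], [43, 51, 58], [45, 62], [46, 61], [52, 57]]
  word := [[], [], [], [], [0], [0], [0], [], [1], [1], [], [], [], [2, 0, 3, 1], [2, 0, 3, 1], [], [], [], [], [],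
    [1], [1], [1], [], [0], [0], [], [], [], [], [], [], [0, 2, 1, 3], [0, 2, 1, 3], [0, 2, 1], [0], [0], [0], [0],
    [], [1], [1], [2, 1], [2], [2], [2], [2], [], [], [], [3], [1], [1], [1], [1], [], [0], [0], [0, 3], [0, 3, 1],
    [3], [3], [3], []]
  rank := [0, 1, 0, 0, 0, 1, 2, 0, 4, 3, 2, 1, 0, 9, 8, 0, 2, 1, 0, 2, 2, 1, 0, 0, 2, 1, 0, 1, 2, 3, 4, 0, 9, 8, 7,
    6, 5, 4, 3, 0, 5, 6, 6, 5, 0, 1, 2, 0, 3, 4, 5, 4, 3, 2, 1, 0, 3, 4, 6, 7, 2, 1, 0, 0]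
  just := [0, 1, 0, 0, 0, 5, 6, 0, 9, 7, 2, 1, 0, 10, 11, 0, 13, 3, 0, 2, 6, 5, 0, 0, 15, 4, 0, 3, 13, 12, 16, 0, 10,
    11, 18, 19, 8, 9, 7, 0, 8, 19, 20, 17, 0, 21, 22, 0, 12, 16, 17, 23, 14, 15, 4, 0, 14, 23, 20, 18, 22, 21, 0, 0]
  gA := 4
  gB := 44
  fin := 0
  sid := [0, 1, 2, 3, 4, 5, 6, 7, 8, 9, 7, 2, 1, 0, 10, 11, 12, 13, 3, 2, 7, 6, 5, 4, 14, 15, 4, 3, 13, 12, 16, 17,
    0, 10, 11, 18, 19, 8, 9, 7, 8, 19, 18, 20, 17, 21, 22, 11, 12, 16, 17, 20, 23, 14, 15, 4, 14, 23, 20, 18, 11, 22,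
    21, 17]
  off := [(0, 0), (0, 0), (0, 0), (0, 0), (0, 0), (0, 0), (0, 0), (0, 0), (0, 0), (0, 0), (-1, 0), (0, 0), (0, 0),
    (0, 0), (0, 0), (0, 0), (0, 0), (0, 0), (0, 0), (0, 0), (-1, 0), (-1, 0), (-1, 0), (-1, 0), (0, 0), (0, 0), (0,
    0), (0, 0), (0, 0), (0, 0), (0, 0), (0, 0), (0, 0), (0, 0), (0, 0), (0, 0), (0, 0), (1, 0), (1, 0), (0, 0), (0,
    0), (-1, 0), (-1, 0), (0, 0), (0, 1), (0, 0), (0, 0), (0, 0), (0, 0), (0, 0), (0, 0), (0, -1), (0, 0), (-1, 0),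
    (-1, 0), (-1, 0), (0, 0), (1, 0), (1, -1), (0, -1), (0, -1), (0, -1), (0, -1), (0, 0)]

/-- glued arcs and equations -/
def tord8r_35 : TorT :=
  ⟨[(0, 4, true), (0, 5, false), (1, 3, true), (1, 6, false), (2, 2, true), (2, 3, true), (4, 6, true), (5, 5, true),
    (7, 7, false)],
    [([0, 0, 0, 0, 0, 1, 1, 0], 2), ([0, 0, 1, 0, 1, 0, 0, 2], 2), ([0, 0, 1, 2, 0, 0, 0, 0], 2), ([0, 1, 0, 0, 0, 0,
    1, 0], 2), ([0, 1, 0, 0, 1, 0, 0, 0], 2), ([2, 0, 0, 0, 0, 1, 0, 0], 2)]⟩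

theorem tord8r_35_ok : tord8r_35.OK 8 := TT.leaf_ok (T := ttd8r_35) (by decide +kernel)

/-- the torus -/
def ttd8r_36 : TT where
  k := 8
  rf := [false, false, false, true, true, false, true, true]
  tau := [12, 11, 18, 21, 20, 19, 10, 31, 29, 30, 6, 1, 0, 24, 25, 39, 44, 43, 2, 5, 4, 3, 42, 55, 13, 14, 38, 33,
    32, 8, 9, 7, 28, 27, 58, 61, 60, 59, 26, 15, 53, 54, 22, 17, 16, 48, 49, 63, 45, 46, 62, 57, 56, 40, 41, 23, 52,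
    51, 34, 37, 36, 35, 50, 47]
  par := [0, 0, 2, 7, 15, 16, 23, 34]
  stars := [[0, 24, 13], [1, 12], [2, 11, 6, 19], [3, 18, 43, 22], [4, 21], [5, 20], [7, 10, 31], [8, 32, 29], [9,
    30], [14, 25], [15, 26, 39], [16, 48, 45], [17, 44], [23, 42, 55], [27, 34, 59, 38], [28, 33], [35, 62, 51, 58],
    [36, 61], [37, 60], [40, 56, 53], [41, 54], [46, 49], [47, 50, 63], [52, 57]]
  word := [[], [], [], [1], [1], [1], [1], [], [0], [0], [0], [], [], [3, 1, 2, 0], [3, 1, 2, 0], [], [], [], [],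
    [0], [0], [0], [0], [], [1, 3, 0, 2], [1, 3, 0, 2], [1, 3, 0, 2], [1], [1], [1], [1], [], [0], [0], [], [3, 1,
    2], [3, 1, 2], [3, 1, 2], [3, 1, 2, 0], [], [1], [1], [1], [], [], [], [], [1, 2], [], [], [1, 2], [2], [2], [0],
    [0], [], [3], [3], [], [3, 0, 2], [3, 0, 2], [3, 0, 2], [3, 0], [3, 0]]
  rank := [0, 1, 0, 2, 3, 4, 5, 0, 7, 6, 5, 1, 0, 12, 11, 0, 0, 1, 0, 4, 3, 2, 0, 0, 12, 11, 10, 9, 8, 7, 6, 0, 8, 9,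
    0, 5, 6, 7, 10, 0, 2, 1, 0, 1, 0, 1, 2, 3, 1, 2, 4, 1, 0, 2, 1, 0, 0, 1, 0, 7, 6, 5, 4, 3]
  just := [0, 1, 0, 3, 4, 5, 2, 0, 8, 6, 2, 1, 0, 9, 10, 0, 0, 12, 0, 5, 4, 3, 0, 0, 9, 10, 14, 15, 7, 8, 6, 0, 7,
    15, 0, 16, 17, 18, 14, 0, 20, 13, 0, 12, 0, 11, 21, 19, 11, 21, 22, 23, 0, 20, 13, 0, 0, 23, 0, 18, 17, 16, 22,
    19]
  gA := 22
  gB := 52
  fin := 0
  sid := [0, 1, 2, 3, 4, 5, 2, 6, 7, 8, 6, 2, 1, 0, 9, 10, 11, 12, 3, 2, 5, 4, 3, 13, 0, 9, 10, 14, 15, 7, 8, 6, 7,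
    15, 14, 16, 17, 18, 14, 10, 19, 20, 13, 3, 12, 11, 21, 22, 11, 21, 22, 16, 23, 19, 20, 13, 19, 23, 16, 14, 18,
    17, 16, 22]
  off := [(0, 0), (0, 0), (0, 0), (0, 0), (0, 0), (0, 0), (-1, 0), (0, 0), (0, 0), (0, 0), (1, 0), (0, 0), (0, 0),
    (0, 0), (0, 0), (0, 0), (0, 0), (0, 0), (0, 0), (0, 0), (1, 0), (1, 0), (1, 0), (0, 0), (0, 0), (0, 0), (0, 0),
    (0, 0), (0, 0), (-1, 0), (-1, 0), (0, 0), (0, 0), (1, 0), (1, 0), (0, 0), (0, 0), (0, 0), (0, 0), (0, 0), (0, 0),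
    (0, 0), (-1, 0), (0, 0), (0, 0), (0, 0), (0, 0), (0, 0), (0, 0), (0, 0), (0, 0), (0, 1), (0, 0), (1, 0), (1, 0),
    (0, 0), (1, -1), (0, -1), (0, 0), (1, 0), (1, 0), (1, 0), (1, 0), (1, -1)]

/-- glued arcs and equations -/
def tord8r_36 : TorT :=
  ⟨[(0, 4, true), (0, 5, false), (1, 3, true), (1, 6, false), (2, 2, true), (2, 6, true), (3, 5, true), (4, 4, true),
    (7, 7, false)],
    [([0, 0, 0, 0, 1, 1, 0, 0], 2), ([0, 0, 1, 0, 0, 0, 0, 2], 2), ([0, 0, 1, 2, 0, 0, 1, 0], 2), ([0, 1, 0, 0, 0, 0,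
    1, 0], 2), ([0, 1, 0, 0, 1, 0, 0, 0], 2), ([2, 0, 0, 0, 0, 1, 0, 0], 2)]⟩

theorem tord8r_36_ok : tord8r_36.OK 8 := TT.leaf_ok (T := ttd8r_36) (by decide +kernel)

/-- the torus -/
def ttd8r_37 : TT where
  k := 4
  rf := [false, false, true, true]
  tau := [4, 11, 13, 12, 0, 16, 17, 23, 29, 30, 14, 1, 3, 2, 10, 31, 5, 6, 22, 25, 27, 26, 18, 7, 28, 19, 21, 20, 24,
    8, 9, 15]
  par := [0, 1, 5, 8]
  stars := [[0, 16, 5], [1, 4, 12], [2, 11, 14], [3, 13], [6, 17], [7, 18, 23], [8, 24, 29], [9, 30], [10, 31, 15],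
    [19, 26, 22], [20, 28, 25], [21, 27]]
  word := [[0], [], [1], [1], [1], [], [], [2, 0, 3], [], [], [1], [], [0], [0], [0], [0], [], [], [2, 0, 3], [2, 0],
    [2], [2], [2, 1, 3], [2, 1, 3], [1], [1, 3], [3], [3], [0], [], [], [1]]
  rank := [5, 0, 3, 4, 5, 0, 1, 4, 0, 1, 2, 0, 4, 3, 2, 0, 0, 1, 3, 2, 0, 1, 3, 4, 1, 2, 1, 0, 1, 0, 1, 0]
  just := [1, 0, 2, 3, 1, 0, 4, 5, 0, 7, 8, 0, 3, 2, 8, 0, 0, 4, 9, 10, 0, 11, 9, 5, 6, 10, 11, 0, 6, 0, 7, 0]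
  gA := 15
  gB := 20
  fin := 0
  sid := [0, 1, 2, 3, 1, 0, 4, 5, 6, 7, 8, 2, 1, 3, 2, 8, 0, 4, 5, 9, 10, 11, 9, 5, 6, 10, 9, 11, 10, 6, 7, 8]
  off := [(0, 0), (0, 0), (0, 0), (0, 0), (-1, 0), (-1, 0), (0, 0), (0, 0), (0, 0), (0, 0), (0, 0), (0, 0), (0, 0),
    (1, 0), (1, 0), (1, 0), (-1, 0), (0, 0), (0, 0), (0, 0), (0, 0), (0, 0), (-1, 0), (-1, 0), (-1, 0), (-1, -1),
    (-1, -1), (0, -1), (0, -1), (0, 0), (0, 0), (0, 0)]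

/-- glued arcs and equations -/
def tord8r_37 : TorT :=
  ⟨[(0, 4, true), (0, 5, false), (1, 3, true), (1, 6, false), (2, 5, true), (2, 6, true), (3, 4, true), (7, 7,
    false)],
    [([0, 0, 0, 1, 0, 1, 0, 0], 2), ([0, 0, 1, 0, 0, 0, 0, 2], 2), ([0, 0, 1, 1, 0, 0, 1, 0], 2), ([0, 1, 0, 0, 0, 0,
    1, 0], 2), ([0, 1, 0, 0, 2, 0, 0, 0], 2), ([2, 0, 0, 0, 0, 1, 0, 0], 2)]⟩

theorem tord8r_37_ok : tord8r_37.OK 8 := TT.leaf_ok (T := ttd8r_37) (by decide +kernel)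

/-- the torus -/
def ttd8r_38 : TT where
  k := 8
  rf := [false, false, true, true, false, false, true, true]
  tau := [8, 16, 17, 11, 26, 27, 37, 31, 0, 24, 25, 3, 18, 19, 45, 23, 1, 2, 12, 13, 46, 54, 44, 15, 9, 10, 4, 5, 38,
    62, 36, 7, 49, 50, 60, 61, 30, 6, 28, 63, 57, 58, 52, 53, 22, 14, 20, 55, 56, 32, 33, 59, 42, 43, 21, 47, 48, 40,
    41, 51, 34, 35, 29, 39]
  par := [0, 0, 1, 4, 6, 14, 21, 29]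
  stars := [[0, 24, 9], [1, 8, 16], [2, 17], [3, 18, 12], [4, 11, 26], [5, 27], [6, 28, 38], [7, 37, 31], [10, 25],
    [13, 19], [14, 20, 46], [15, 45, 23], [21, 55, 47], [22, 44, 54], [29, 63, 39], [30, 36, 62], [32, 56, 49], [33,
    50], [34, 51, 60], [35, 61], [40, 48, 57], [41, 58], [42, 59, 52], [43, 53]]
  word := [[], [], [], [3], [], [], [], [1, 2, 0], [], [2], [2], [2], [2], [2], [], [], [], [], [3], [3], [3], [],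
    [], [], [3], [3], [], [], [], [], [1, 3, 0], [1, 3, 0], [1, 2], [1, 2], [1, 2, 0], [1, 2, 0], [1, 2, 0], [], [],
    [], [0], [0], [], [], [], [], [2], [2], [3, 0], [3, 0], [3, 0], [0], [], [], [], [3], [1, 2], [1], [1], [1], [1,
    3, 0], [1, 3, 0], [], []]
  rank := [0, 0, 1, 4, 0, 1, 0, 9, 0, 6, 5, 4, 3, 2, 0, 1, 0, 1, 3, 2, 1, 0, 2, 1, 6, 5, 0, 1, 2, 0, 8, 9, 4, 5, 6,
    7, 8, 0, 2, 3, 0, 1, 4, 3, 2, 0, 1, 0, 1, 4, 5, 5, 4, 3, 0, 0, 1, 0, 1, 5, 6, 7, 0, 3]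
  just := [0, 0, 2, 3, 0, 5, 0, 7, 0, 8, 4, 3, 9, 10, 0, 1, 0, 2, 9, 10, 12, 0, 11, 1, 8, 4, 0, 5, 6, 0, 15, 7, 16,
    17, 18, 19, 15, 0, 6, 14, 0, 21, 23, 13, 11, 0, 12, 0, 20, 16, 17, 22, 23, 13, 0, 0, 20, 0, 21, 22, 18, 19, 0, 14]
  gA := 40
  gB := 47
  fin := 0
  sid := [0, 1, 2, 3, 4, 5, 6, 7, 1, 0, 8, 4, 3, 9, 10, 11, 1, 2, 3, 9, 10, 12, 13, 11, 0, 8, 4, 5, 6, 14, 15, 7, 16,
    17, 18, 19, 15, 7, 6, 14, 20, 21, 22, 23, 13, 11, 10, 12, 20, 16, 17, 18, 22, 23, 13, 12, 16, 20, 21, 22, 18, 19,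
    15, 14]
  off := [(0, 0), (0, 0), (0, 0), (0, 0), (0, 0), (0, 0), (0, 0), (0, 0), (0, 0), (0, 0), (0, 0), (0, 1), (0, 1), (0,
    0), (0, 0), (0, 0), (0, 0), (0, 0), (0, 0), (0, -1), (0, -1), (0, 0), (0, 0), (0, 0), (0, -1), (0, -1), (0, 0),
    (0, 0), (0, 0), (0, 0), (0, 0), (0, -1), (0, 0), (0, 0), (0, 0), (0, 0), (0, 1), (0, 0), (0, 0), (0, 0), (0, 0),
    (0, 0), (0, 0), (0, 0), (0, 0), (0, 0), (0, 0), (0, 1), (0, -1), (1, -1), (1, -1), (1, -1), (0, 0), (0, 0), (0,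
    0), (0, 0), (0, 0), (-1, 0), (-1, 0), (-1, 0), (0, -1), (0, -1), (0, 0), (0, 0)]

/-- glued arcs and equations -/
def tord8r_38 : TorT :=
  ⟨[(0, 0, true), (0, 1, false), (1, 2, false), (2, 4, false), (3, 3, true), (3, 5, false), (4, 6, false), (5, 6,
    true), (7, 7, false)],
    [([0, 0, 0, 0, 0, 1, 0, 2], 2), ([0, 0, 0, 0, 1, 0, 2, 0], 2), ([0, 0, 0, 1, 0, 1, 0, 0], 2), ([0, 0, 1, 1, 1, 0,
    0, 0], 2), ([0, 1, 1, 0, 0, 0, 0, 0], 2), ([2, 1, 0, 0, 0, 0, 0, 0], 2)]⟩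

theorem tord8r_38_ok : tord8r_38.OK 8 := TT.leaf_ok (T := ttd8r_38) (by decide +kernel)

/-- the torus -/
def ttd8r_39 : TT where
  k := 8
  rf := [false, false, false, false, true, true, true, true]
  tau := [8, 20, 19, 13, 12, 11, 26, 39, 0, 28, 27, 5, 4, 3, 18, 47, 45, 46, 14, 2, 1, 40, 41, 55, 37, 38, 6, 10, 9,
    32, 33, 63, 29, 30, 62, 50, 49, 24, 25, 7, 21, 22, 54, 58, 57, 16, 17, 15, 56, 36, 35, 61, 60, 59, 42, 23, 48,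
    44, 43, 53, 52, 51, 34, 31]
  par := [0, 0, 1, 6, 7, 15, 23, 31]
  stars := [[0, 32, 29, 9], [1, 8, 40, 21], [2, 20], [3, 19, 14], [4, 13], [5, 12], [6, 11, 27], [7, 26, 39], [10,
    28], [15, 18, 47], [16, 48, 57, 45], [17, 46], [22, 41], [23, 42, 55], [24, 56, 49, 37], [25, 38], [30, 33], [31,
    34, 63], [35, 51, 62], [36, 50], [43, 59, 54], [44, 58], [52, 61], [53, 60]]
  word := [[], [], [], [0], [0], [0], [], [], [], [1], [1], [1], [1], [1], [1], [], [0], [0], [0], [], [], [], [],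
    [], [], [], [], [0], [0], [3, 0, 2], [3, 0, 2], [], [3, 1, 2], [3, 1, 2], [3, 1, 2], [3, 1], [3, 1], [], [], [],
    [], [], [], [2], [2], [1], [1], [], [0, 2], [0, 2], [0, 2], [2], [2], [2], [], [], [3, 1], [3], [3], [3], [3],
    [3], [3, 0, 2], []]
  rank := [0, 0, 1, 3, 4, 5, 0, 0, 0, 7, 6, 5, 4, 3, 2, 0, 0, 1, 2, 1, 0, 1, 2, 0, 2, 1, 0, 6, 7, 9, 8, 0, 9, 8, 7,
    4, 3, 2, 1, 0, 1, 2, 3, 0, 1, 0, 1, 0, 2, 3, 4, 6, 5, 4, 3, 0, 2, 1, 0, 4, 5, 6, 7, 0]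
  just := [0, 0, 2, 3, 4, 5, 0, 0, 0, 8, 6, 5, 4, 3, 9, 0, 0, 11, 9, 2, 0, 1, 12, 0, 15, 7, 0, 6, 8, 16, 17, 0, 16,
    17, 18, 19, 14, 15, 7, 0, 1, 12, 13, 0, 21, 0, 11, 0, 10, 14, 19, 22, 23, 20, 13, 0, 10, 21, 0, 20, 23, 22, 18, 0]
  gA := 16
  gB := 43
  fin := 0
  sid := [0, 1, 2, 3, 4, 5, 6, 7, 1, 0, 8, 6, 5, 4, 3, 9, 10, 11, 9, 3, 2, 1, 12, 13, 14, 15, 7, 6, 8, 0, 16, 17, 0,
    16, 17, 18, 19, 14, 15, 7, 1, 12, 13, 20, 21, 10, 11, 9, 10, 14, 19, 18, 22, 23, 20, 13, 14, 10, 21, 20, 23, 22,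
    18, 17]
  off := [(0, 0), (0, 0), (0, 0), (0, 0), (0, 0), (0, 0), (0, 0), (0, 0), (0, 0), (0, 0), (0, 0), (-1, 0), (-1, 0),
    (-1, 0), (-1, 0), (0, 0), (0, 0), (0, 0), (1, 0), (0, 0), (0, 0), (0, 0), (0, 0), (0, 0), (0, 0), (0, 0), (0, 0),
    (0, 0), (1, 0), (1, 0), (0, 0), (0, 0), (0, 0), (-1, 0), (-1, 0), (0, 0), (0, 0), (0, 0), (0, 0), (0, 0), (0, 0),
    (0, 0), (0, 0), (0, 0), (0, 0), (-1, 0), (-1, 0), (0, 0), (0, 0), (1, 1), (1, 1), (1, 1), (0, 0), (0, 0), (0, 0),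
    (0, 0), (0, 0), (-1, -1), (0, -1), (0, -1), (0, -1), (0, -1), (1, 0), (0, 0)]

/-- glued arcs and equations -/
def tord8r_39 : TorT :=
  ⟨[(0, 0, true), (0, 5, false), (1, 4, true), (1, 6, false), (2, 3, true), (2, 6, true), (3, 5, true), (4, 4, true),
    (7, 7, false)],
    [([0, 0, 0, 0, 1, 1, 0, 0], 2), ([0, 0, 0, 2, 0, 0, 1, 0], 2), ([0, 0, 1, 0, 0, 0, 0, 2], 2), ([0, 0, 1, 0, 1, 0,
    0, 0], 2), ([0, 1, 0, 0, 0, 0, 1, 0], 2), ([2, 1, 0, 0, 0, 1, 0, 0], 2)]⟩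

theorem tord8r_39_ok : tord8r_39.OK 8 := TT.leaf_ok (T := ttd8r_39) (by decide +kernel)

/-- the torus -/
def ttd8r_40 : TT where
  k := 4
  rf := [false, false, true, true]
  tau := [9, 19, 20, 21, 30, 14, 28, 23, 18, 0, 16, 25, 26, 27, 5, 31, 10, 24, 8, 1, 2, 3, 29, 7, 17, 11, 12, 13, 6,
    22, 4, 15]
  par := [0, 0, 1, 4]
  stars := [[0, 16, 10], [1, 9, 19], [2, 20], [3, 21], [4, 22, 30], [5, 31, 15], [6, 14, 28], [7, 29, 23], [8, 24,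
    18], [11, 17, 25], [12, 26], [13, 27]]
  word := [[], [], [], [], [], [3], [3, 0], [3, 0], [], [], [0, 3], [0], [0], [0], [2], [2], [2, 1], [2], [], [], [],
    [], [], [1, 2], [3], [1], [1], [1], [1, 2], [], [], [3]]
  rank := [0, 0, 1, 2, 0, 1, 2, 4, 1, 0, 3, 1, 0, 1, 1, 0, 3, 2, 1, 0, 1, 2, 3, 4, 2, 1, 0, 1, 2, 3, 0, 0]
  just := [0, 0, 2, 3, 0, 5, 6, 7, 1, 0, 9, 10, 0, 11, 5, 0, 9, 8, 1, 0, 2, 3, 4, 7, 8, 10, 0, 11, 6, 4, 0, 0]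
  gA := 12
  gB := 15
  fin := 0
  sid := [0, 1, 2, 3, 4, 5, 6, 7, 8, 1, 0, 9, 10, 11, 6, 5, 0, 9, 8, 1, 2, 3, 4, 7, 8, 9, 10, 11, 6, 7, 4, 5]
  off := [(0, 0), (0, 0), (0, 0), (0, 0), (0, 0), (0, 0), (0, 0), (0, 0), (0, 0), (0, 0), (0, 0), (0, 0), (0, 0), (0,
    0), (0, 1), (0, 1), (-1, 1), (-1, 1), (0, 0), (0, 0), (0, 0), (0, 0), (0, 0), (-1, 1), (0, -1), (-1, 0), (-1, 0),
    (-1, 0), (-1, 1), (-1, 1), (0, 0), (0, 0)]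

/-- glued arcs and equations -/
def tord8r_40 : TorT :=
  ⟨[(0, 1, true), (0, 2, false), (1, 3, false), (2, 4, false), (3, 5, false), (4, 6, false), (5, 6, true), (7, 7,
    false)],
    [([0, 0, 0, 0, 0, 1, 0, 2], 2), ([0, 0, 0, 0, 1, 0, 2, 0], 2), ([0, 0, 0, 1, 0, 1, 0, 0], 2), ([0, 0, 1, 0, 1, 0,
    0, 0], 2), ([0, 2, 0, 1, 0, 0, 0, 0], 2), ([2, 0, 1, 0, 0, 0, 0, 0], 2)]⟩

theorem tord8r_40_ok : tord8r_40.OK 8 := TT.leaf_ok (T := ttd8r_40) (by decide +kernel)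

/-- the torus -/
def ttd8r_41 : TT where
  k := 8
  rf := [false, false, true, false, true, false, true, true]
  tau := [8, 16, 27, 22, 14, 13, 12, 39, 0, 32, 43, 38, 6, 5, 4, 23, 1, 28, 29, 50, 25, 26, 3, 15, 49, 20, 21, 2, 17,
    18, 51, 63, 9, 44, 45, 58, 41, 42, 11, 7, 57, 36, 37, 10, 33, 34, 59, 55, 56, 24, 19, 30, 62, 61, 60, 47, 48, 40,
    35, 46, 54, 53, 52, 31]
  par := [0, 0, 1, 2, 7, 10, 19, 31]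
  stars := [[0, 32, 9], [1, 8, 16], [2, 17, 28], [3, 27, 22], [4, 23, 15], [5, 14], [6, 13], [7, 12, 39], [10, 33,
    44], [11, 43, 38], [18, 29], [19, 51, 30], [20, 25, 50], [21, 26], [24, 56, 49], [31, 52, 63], [34, 45], [35, 59,
    46], [36, 41, 58], [37, 42], [40, 48, 57], [47, 60, 55], [53, 62], [54, 61]]
  word := [[], [], [], [0], [0], [0], [0], [], [], [2, 0, 3, 1], [], [1], [1], [1], [1], [], [], [], [], [], [1],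
    [1], [1], [], [0], [0], [0], [], [], [], [], [], [0, 2, 1, 3], [0, 2, 1, 3], [0, 2, 1, 3], [0, 2, 1], [0], [0],
    [0], [], [2, 1], [1], [1], [], [2, 0, 3, 1], [2, 0, 3, 1], [2], [2], [1], [1], [], [], [], [], [], [3], [0], [0,
    3], [0, 3, 1], [3], [], [], [], []]
  rank := [0, 0, 0, 0, 2, 3, 4, 0, 0, 11, 0, 5, 4, 3, 2, 1, 0, 1, 2, 0, 2, 1, 0, 1, 3, 2, 1, 0, 1, 2, 3, 0, 11, 10,
    9, 8, 7, 6, 5, 0, 5, 7, 6, 0, 10, 9, 7, 0, 4, 3, 0, 3, 4, 5, 6, 0, 4, 5, 8, 7, 6, 5, 4, 0]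
  just := [0, 0, 0, 0, 4, 5, 6, 0, 0, 8, 0, 7, 6, 5, 4, 1, 0, 2, 10, 0, 13, 3, 0, 1, 12, 13, 3, 0, 2, 10, 11, 0, 8,
    16, 17, 18, 19, 9, 7, 0, 20, 19, 9, 0, 16, 17, 21, 0, 14, 12, 0, 11, 15, 22, 23, 0, 14, 20, 18, 21, 23, 22, 15, 0]
  gA := 3
  gB := 47
  fin := 0
  sid := [0, 1, 2, 3, 4, 5, 6, 7, 1, 0, 8, 9, 7, 6, 5, 4, 1, 2, 10, 11, 12, 13, 3, 4, 14, 12, 13, 3, 2, 10, 11, 15,
    0, 8, 16, 17, 18, 19, 9, 7, 20, 18, 19, 9, 8, 16, 17, 21, 20, 14, 12, 11, 15, 22, 23, 21, 14, 20, 18, 17, 21, 23,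
    22, 15]
  off := [(0, 0), (0, 0), (0, 0), (0, 0), (0, 0), (0, 0), (0, 0), (0, 0), (0, 0), (0, 0), (0, 0), (0, 0), (-1, 0),
    (-1, 0), (-1, 0), (-1, 0), (0, 0), (0, 0), (0, 0), (0, 0), (0, 0), (0, 0), (-1, 0), (-1, 0), (0, 0), (1, 0), (1,
    0), (0, 0), (0, 0), (0, 0), (0, 0), (0, 0), (0, 0), (0, 0), (0, 0), (0, 0), (0, 0), (0, 0), (1, 0), (0, 0), (0,
    0), (-1, 0), (-1, 0), (0, 0), (0, 0), (0, 0), (0, 0), (0, 0), (0, -1), (-1, 0), (0, 0), (0, 0), (0, 0), (0, 0),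
    (0, 0), (0, -1), (0, 0), (1, -1), (0, -1), (0, -1), (0, -1), (0, 0), (0, 0), (0, 0)]

/-- glued arcs and equations -/
def tord8r_41 : TorT :=
  ⟨[(0, 0, true), (0, 1, false), (1, 4, false), (2, 3, true), (2, 5, false), (3, 6, false), (4, 6, true), (5, 5,
    true), (7, 7, false)],
    [([0, 0, 0, 0, 0, 1, 1, 0], 2), ([0, 0, 0, 0, 1, 0, 0, 2], 2), ([0, 0, 0, 2, 0, 0, 1, 0], 2), ([0, 0, 1, 0, 0, 1,
    0, 0], 2), ([0, 1, 1, 0, 1, 0, 0, 0], 2), ([2, 1, 0, 0, 0, 0, 0, 0], 2)]⟩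

theorem tord8r_41_ok : tord8r_41.OK 8 := TT.leaf_ok (T := ttd8r_41) (by decide +kernel)

/-- the torus -/
def ttd8r_42 : TT where
  k := 4
  rf := [false, false, false, false]
  tau := [10, 19, 18, 17, 25, 24, 22, 30, 21, 20, 0, 29, 28, 27, 23, 31, 26, 3, 2, 1, 9, 8, 6, 14, 5, 4, 16, 13, 12,
    11, 7, 15]
  par := [0, 0, 1, 4]
  stars := [[0, 30, 11], [1, 10, 20], [2, 19], [3, 18], [4, 17, 26], [5, 25], [6, 24, 15, 23], [7, 22, 8, 31], [9,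
    21], [12, 29], [13, 28], [14, 27, 16]]
  word := [[], [], [], [], [], [], [3, 0], [3, 0, 2], [], [], [], [0], [0], [0], [0], [2], [], [], [], [], [], [],
    [1, 2], [1], [], [], [], [1], [1], [1], [3, 1, 2], [3]]
  rank := [0, 0, 1, 2, 0, 1, 5, 6, 2, 1, 0, 2, 1, 0, 4, 0, 3, 2, 1, 0, 1, 2, 5, 4, 1, 0, 3, 0, 1, 2, 6, 0]
  just := [0, 0, 2, 3, 0, 5, 6, 7, 8, 1, 0, 9, 10, 0, 11, 0, 4, 3, 2, 0, 1, 8, 6, 11, 5, 0, 4, 0, 10, 9, 7, 0]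
  gA := 13
  gB := 15
  fin := 0
  sid := [0, 1, 2, 3, 4, 5, 6, 7, 7, 8, 1, 0, 9, 10, 11, 6, 11, 4, 3, 2, 1, 8, 7, 6, 6, 5, 4, 11, 10, 9, 0, 7]
  off := [(0, 0), (0, 0), (0, 0), (0, 0), (0, 0), (0, 0), (0, 0), (0, 0), (-1, 1), (0, 0), (0, 0), (0, 0), (0, 0),
    (0, 0), (0, 0), (0, 1), (-1, 0), (0, 0), (0, 0), (0, 0), (0, 0), (0, 0), (-1, 1), (-1, 1), (0, 0), (0, 0), (0,
    0), (-1, 0), (-1, 0), (-1, 0), (-1, 0), (-1, 0)]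

/-- glued arcs and equations -/
def tord8r_42 : TorT :=
  ⟨[(0, 2, true), (0, 5, true), (1, 3, true), (1, 4, true), (2, 2, true), (3, 5, true), (4, 4, true), (6, 6, true),
    (6, 7, true), (7, 7, true)],
    [([0, 0, 0, 0, 1, 1, 0, 0], 2), ([0, 0, 1, 1, 0, 0, 0, 0], 2), ([0, 1, 0, 0, 0, 1, 0, 0], 2), ([0, 1, 1, 0, 1, 0,
    0, 0], 2), ([1, 0, 0, 0, 0, 0, 1, 2], 2), ([1, 0, 0, 1, 0, 0, 1, 0], 2)]⟩

theorem tord8r_42_ok : tord8r_42.OK 8 := TT.leaf_ok (T := ttd8r_42) (by decide +kernel)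

/-- the torus -/
def ttd8r_43 : TT where
  k := 8
  rf := [false, false, true, true, false, false, true, true]
  tau := [8, 22, 30, 36, 40, 47, 26, 53, 0, 54, 62, 44, 32, 39, 58, 21, 28, 51, 50, 49, 59, 15, 1, 29, 56, 46, 6, 52,
    16, 23, 2, 37, 12, 43, 42, 41, 3, 31, 57, 13, 4, 35, 34, 33, 11, 63, 25, 5, 60, 19, 18, 17, 27, 7, 9, 61, 24, 38,
    14, 20, 48, 55, 10, 45]
  par := [0, 0, 1, 2, 3, 4, 7, 10]
  stars := [[0, 54, 9], [1, 8, 22], [2, 23, 30], [3, 31, 37], [4, 36, 41], [5, 40], [6, 47, 26], [7, 27, 53], [10,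
    55, 62], [11, 63, 45], [12, 44, 33], [13, 32], [14, 39, 58], [15, 59, 21], [16, 29], [17, 52, 28], [18, 51], [19,
    50], [20, 60, 49], [24, 57, 38], [25, 46, 56], [34, 43], [35, 42], [48, 61]]
  word := [[], [], [], [], [], [], [1], [], [], [3, 1, 2, 0], [], [3], [3], [3], [3, 0, 2], [], [], [0], [0], [0],
    [3, 0, 2], [], [], [], [0, 2], [0], [0], [0], [], [], [], [], [2], [], [], [], [], [], [0, 2], [2], [], [], [],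
    [], [2], [2], [1], [], [1, 3, 0, 2], [1], [1], [1], [1], [], [1, 3, 0, 2], [1, 3, 0, 2], [3, 1], [3, 1], [3, 1,
    2], [3, 1, 2], [3, 1, 2, 0], [3, 1, 2, 0], [], [3]]
  rank := [0, 0, 0, 0, 0, 1, 2, 0, 0, 10, 0, 1, 4, 5, 6, 1, 2, 4, 5, 6, 7, 1, 0, 1, 1, 0, 2, 3, 2, 1, 0, 1, 4, 3, 2,
    1, 0, 1, 2, 5, 0, 1, 2, 3, 1, 0, 0, 1, 8, 6, 5, 4, 3, 0, 10, 9, 1, 2, 6, 7, 8, 9, 0, 0]
  just := [0, 0, 0, 0, 0, 5, 6, 0, 0, 8, 0, 9, 10, 11, 12, 1, 14, 15, 16, 17, 13, 1, 0, 2, 20, 0, 6, 7, 14, 2, 0, 3,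
    10, 21, 22, 4, 0, 3, 19, 11, 0, 4, 22, 21, 9, 0, 0, 5, 18, 17, 16, 15, 7, 0, 8, 23, 20, 19, 12, 13, 18, 23, 0, 0]
  gA := 25
  gB := 45
  fin := 0
  sid := [0, 1, 2, 3, 4, 5, 6, 7, 1, 0, 8, 9, 10, 11, 12, 13, 14, 15, 16, 17, 18, 13, 1, 2, 19, 20, 6, 7, 15, 14, 2,
    3, 11, 10, 21, 22, 4, 3, 19, 12, 5, 4, 22, 21, 10, 9, 20, 6, 23, 18, 17, 16, 15, 7, 0, 8, 20, 19, 12, 13, 18, 23,
    8, 9]
  off := [(0, 0), (0, 0), (0, 0), (0, 0), (0, 0), (0, 0), (0, 0), (0, 0), (0, 0), (0, 0), (0, 0), (0, 0), (0, 0), (0,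
    0), (0, 0), (0, 0), (0, 0), (0, 0), (0, 0), (0, 0), (0, 0), (0, 0), (0, 0), (0, 0), (0, 0), (0, 0), (1, 0), (1,
    0), (0, 0), (0, 0), (0, 0), (0, 0), (0, 1), (0, 1), (0, 0), (0, 0), (0, 0), (0, 0), (0, 0), (0, 1), (0, 0), (0,
    0), (0, 0), (0, 0), (0, 1), (0, 1), (-1, 0), (0, 0), (0, 0), (-1, 0), (-1, 0), (-1, 0), (-1, 0), (0, 0), (0, 0),
    (0, 0), (-1, -1), (-1, -1), (-1, 0), (-1, 0), (-1, 0), (0, 0), (0, 0), (0, 0)]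

/-- glued arcs and equations -/
def tord8r_43 : TorT :=
  ⟨[(0, 0, true), (0, 4, true), (1, 3, true), (1, 6, false), (2, 2, true), (2, 6, false), (3, 4, true), (5, 7,
    false), (5, 7, true)],
    [([0, 0, 0, 1, 0, 1, 0, 1], 2), ([0, 0, 1, 0, 0, 0, 1, 1], 2), ([0, 0, 1, 1, 0, 0, 0, 0], 2), ([0, 1, 0, 0, 2, 0,
    0, 0], 2), ([1, 0, 0, 0, 0, 1, 0, 0], 2), ([1, 1, 0, 0, 0, 0, 1, 0], 2)]⟩

theorem tord8r_43_ok : tord8r_43.OK 8 := TT.leaf_ok (T := ttd8r_43) (by decide +kernel)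

end Pool.Agent.Lib_MP_fa6e45
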