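import Pool.Agent.Lib_MP_fa6e45.CT5

/-!
MP_fa6e45_co, stage 9: straight-side patterns with `8` sides, tables of tori (generated by a program).
-/

namespace Pool.Agent.Lib_MP_fa6e45

/-- the torus -/
def ttd8r_44 : TT where
  k := 4
  rf := [false, false, false, false]
  tau := [8, 6, 22, 28, 16, 23, 1, 15, 0, 14, 30, 20, 24, 31, 9, 7, 4, 27, 26, 25, 11, 29, 2, 5, 12, 19, 18, 17, 3,
    21, 10, 13]
  par := [0, 0, 2, 3]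
  stars := [[0, 15, 9], [1, 8, 7], [2, 6, 23], [3, 22, 29], [4, 28, 17], [5, 16], [10, 14, 31], [11, 30, 21], [12,
    20, 25], [13, 24], [18, 27], [19, 26]]
  word := [[], [2], [], [], [3], [3], [3], [3], [], [0, 3, 1], [0, 3], [0, 3], [0], [0], [0, 2, 1], [2], [2], [2],
    [2], [2], [2, 1], [], [], [2], [1], [3], [3], [3], [], [], [2, 1], [1]]
  rank := [0, 4, 0, 0, 2, 3, 4, 5, 0, 4, 3, 2, 0, 1, 4, 5, 2, 1, 0, 1, 2, 1, 0, 3, 0, 1, 0, 1, 0, 1, 3, 1]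
  just := [0, 2, 0, 0, 4, 5, 2, 1, 0, 6, 7, 8, 0, 9, 6, 1, 4, 10, 0, 11, 8, 3, 0, 5, 0, 11, 0, 10, 0, 3, 7, 9]
  gA := 12
  gB := 18
  fin := 0
  sid := [0, 1, 2, 3, 4, 5, 2, 1, 1, 0, 6, 7, 8, 9, 6, 0, 5, 4, 10, 11, 8, 7, 3, 2, 9, 8, 11, 10, 4, 3, 7, 6]
  off := [(0, 0), (0, 0), (0, 0), (0, 0), (0, 0), (0, 0), (0, -1), (0, -1), (0, 0), (0, 0), (0, 0), (0, 0), (0, 0),
    (0, 0), (0, 1), (0, 1), (0, 1), (0, 1), (0, 0), (0, 0), (-1, 1), (-1, 1), (0, 0), (0, 0), (-1, 0), (-1, 0), (0,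
    -1), (0, -1), (0, 0), (0, 0), (-1, 1), (-1, 1)]

/-- glued arcs and equations -/
def tord8r_44 : TorT :=
  ⟨[(0, 0, true), (0, 4, true), (1, 3, true), (1, 6, true), (2, 2, true), (2, 6, true), (3, 4, true), (5, 5, true),
    (5, 7, true), (7, 7, true)],
    [([0, 0, 0, 1, 0, 1, 1, 0], 2), ([0, 0, 1, 0, 0, 0, 1, 1], 2), ([0, 0, 1, 1, 0, 0, 0, 0], 2), ([0, 1, 0, 0, 2, 0,
    0, 0], 2), ([1, 0, 0, 0, 0, 1, 0, 0], 2), ([1, 1, 0, 0, 0, 0, 0, 1], 2)]⟩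

theorem tord8r_44_ok : tord8r_44.OK 8 := TT.leaf_ok (T := ttd8r_44) (by decide +kernel)

/-- the torus -/
def ttd8r_45 : TT where
  k := 4
  rf := [false, false, false, false]
  tau := [8, 20, 19, 25, 24, 13, 23, 29, 0, 28, 27, 17, 16, 5, 31, 21, 12, 11, 26, 2, 1, 15, 30, 6, 4, 3, 18, 10, 9,
    7, 22, 14]
  par := [0, 0, 1, 3]
  stars := [[0, 29, 9], [1, 8, 21], [2, 20], [3, 19, 26], [4, 25], [5, 24, 14], [6, 13, 16], [7, 23, 30], [10, 28],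
    [11, 27, 18], [12, 17], [15, 31, 22]]
  word := [[], [], [], [], [], [3], [3, 0], [3, 0, 2], [], [0], [0], [0], [0], [2], [2], [], [1], [1], [], [], [],
    [], [2], [1, 2], [], [], [], [1], [1], [3, 1, 2], [3], [3]]
  rank := [0, 0, 1, 0, 1, 2, 3, 4, 0, 4, 3, 0, 1, 2, 0, 1, 1, 0, 2, 1, 0, 1, 2, 3, 1, 0, 2, 3, 4, 4, 2, 0]
  just := [0, 0, 2, 0, 4, 5, 6, 7, 0, 8, 9, 0, 10, 5, 0, 1, 10, 0, 3, 2, 0, 1, 11, 6, 4, 0, 3, 9, 8, 7, 11, 0]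
  gA := 11
  gB := 14
  fin := 0
  sid := [0, 1, 2, 3, 4, 5, 6, 7, 1, 0, 8, 9, 10, 6, 5, 11, 6, 10, 9, 3, 2, 1, 11, 7, 5, 4, 3, 9, 8, 0, 7, 11]
  off := [(0, 0), (0, 0), (0, 0), (0, 0), (0, 0), (0, 0), (0, 0), (0, 0), (0, 0), (0, 0), (0, 0), (0, 0), (0, 0), (0,
    1), (0, 1), (0, 0), (-1, 1), (-1, 0), (-1, 0), (0, 0), (0, 0), (0, 0), (0, 0), (-1, 1), (0, 0), (0, 0), (0, 0),
    (-1, 0), (-1, 0), (-1, 0), (-1, 0), (0, -1)]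

/-- glued arcs and equations -/
def tord8r_45 : TorT :=
  ⟨[(0, 0, true), (0, 4, true), (1, 3, true), (1, 4, true), (2, 2, true), (2, 3, true), (5, 5, true), (5, 7, true),
    (6, 6, true), (6, 7, true)],
    [([0, 0, 0, 0, 0, 0, 1, 2], 2), ([0, 0, 1, 0, 1, 0, 0, 0], 2), ([0, 0, 1, 2, 0, 0, 0, 0], 2), ([0, 1, 0, 0, 1, 0,
    0, 0], 2), ([1, 0, 0, 0, 0, 1, 1, 0], 2), ([1, 1, 0, 0, 0, 1, 0, 0], 2)]⟩

theorem tord8r_45_ok : tord8r_45.OK 8 := TT.leaf_ok (T := ttd8r_45) (by decide +kernel)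

/-- the torus -/
def ttd8r_46 : TT where
  k := 4
  rf := [false, false, false, false]
  tau := [11, 10, 18, 25, 24, 21, 15, 29, 20, 19, 1, 0, 28, 23, 30, 6, 27, 26, 2, 9, 8, 5, 31, 13, 4, 3, 17, 16, 12,
    7, 14, 22]
  par := [0, 0, 2, 3]
  stars := [[0, 29, 12], [1, 11], [2, 10, 19], [3, 18, 26], [4, 25], [5, 24, 22], [6, 21, 8], [7, 15, 30], [9, 20],
    [13, 28, 16], [14, 23, 31], [17, 27]]
  word := [[], [], [], [], [], [3], [3], [3, 0, 2], [], [], [], [], [0], [0], [0, 2], [2], [], [], [], [], [], [2],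
    [2], [1], [], [], [], [], [1], [3, 1, 2], [3, 1], [3]]
  rank := [0, 1, 0, 0, 1, 2, 4, 5, 3, 2, 1, 0, 3, 0, 1, 4, 2, 1, 0, 2, 3, 2, 0, 0, 1, 0, 1, 2, 3, 5, 1, 0]
  just := [0, 1, 0, 0, 4, 5, 6, 7, 8, 2, 1, 0, 9, 0, 10, 6, 11, 3, 0, 2, 8, 5, 0, 0, 4, 0, 3, 11, 9, 7, 10, 0]
  gA := 13
  gB := 22
  fin := 0
  sid := [0, 1, 2, 3, 4, 5, 6, 7, 6, 8, 2, 1, 0, 9, 10, 7, 9, 11, 3, 2, 8, 6, 5, 10, 5, 4, 3, 11, 9, 0, 7, 10]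
  off := [(0, 0), (0, 0), (0, 0), (0, 0), (0, 0), (0, 0), (0, 0), (0, 0), (0, 1), (0, 0), (0, 0), (0, 0), (0, 0), (0,
    0), (0, 0), (0, 1), (-1, 0), (0, 0), (0, 0), (0, 0), (0, 0), (0, 1), (0, 1), (-1, 0), (0, 0), (0, 0), (0, 0), (0,
    0), (-1, 0), (-1, 0), (-1, 0), (-1, -1)]

/-- glued arcs and equations -/
def tord8r_46 : TorT :=
  ⟨[(0, 3, true), (0, 4, true), (1, 2, true), (1, 3, true), (2, 2, true), (4, 4, true), (5, 5, true), (5, 7, true),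
    (6, 6, true), (6, 7, true)],
    [([0, 0, 0, 0, 0, 0, 1, 2], 2), ([0, 0, 2, 1, 0, 0, 0, 0], 2), ([0, 1, 0, 0, 1, 0, 0, 0], 2), ([0, 1, 0, 1, 0, 0,
    0, 0], 2), ([1, 0, 0, 0, 0, 1, 1, 0], 2), ([1, 0, 0, 0, 1, 1, 0, 0], 2)]⟩

theorem tord8r_46_ok : tord8r_46.OK 8 := TT.leaf_ok (T := ttd8r_46) (by decide +kernel)

/-- the torus -/
def ttd8r_47 : TT where
  k := 4
  rf := [false, false, false, false]
  tau := [10, 9, 8, 20, 24, 13, 23, 29, 2, 1, 0, 28, 16, 5, 31, 21, 12, 27, 26, 25, 3, 15, 30, 6, 4, 19, 18, 17, 11,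
    7, 22, 14]
  par := [0, 0, 3, 4]
  stars := [[0, 29, 11], [1, 10], [2, 9], [3, 8, 21], [4, 20, 25], [5, 24, 14], [6, 13, 16], [7, 23, 30], [12, 28,
    17], [15, 31, 22], [18, 27], [19, 26]]
  word := [[], [], [], [], [], [3], [3, 0], [3, 0, 2], [], [], [], [0], [0], [2], [2], [], [1], [], [], [], [], [],
    [2], [1, 2], [], [], [], [], [1], [3, 1, 2], [3], [3]]
  rank := [0, 1, 2, 0, 0, 1, 2, 5, 2, 1, 0, 4, 0, 1, 0, 3, 0, 3, 2, 1, 0, 3, 4, 2, 0, 1, 2, 3, 4, 5, 4, 0]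
  just := [0, 1, 2, 0, 0, 5, 6, 7, 2, 1, 0, 8, 0, 5, 0, 3, 0, 10, 11, 4, 0, 3, 9, 6, 0, 4, 11, 10, 8, 7, 9, 0]
  gA := 12
  gB := 14
  fin := 0
  sid := [0, 1, 2, 3, 4, 5, 6, 7, 3, 2, 1, 0, 8, 6, 5, 9, 6, 8, 10, 11, 4, 3, 9, 7, 5, 4, 11, 10, 8, 0, 7, 9]
  off := [(0, 0), (0, 0), (0, 0), (0, 0), (0, 0), (0, 0), (0, 0), (0, 0), (0, 0), (0, 0), (0, 0), (0, 0), (0, 0), (0,
    1), (0, 1), (0, 0), (-1, 1), (-1, 0), (0, 0), (0, 0), (0, 0), (0, 0), (0, 0), (-1, 1), (0, 0), (0, 0), (0, 0),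
    (0, 0), (-1, 0), (-1, 0), (-1, 0), (0, -1)]

/-- glued arcs and equations -/
def tord8r_47 : TorT :=
  ⟨[(0, 2, true), (0, 4, true), (1, 1, true), (1, 3, true), (2, 2, true), (3, 4, true), (5, 5, true), (5, 7, true),
    (6, 6, true), (6, 7, true)],
    [([0, 0, 0, 0, 0, 0, 1, 2], 2), ([0, 0, 1, 1, 0, 0, 0, 0], 2), ([0, 1, 0, 0, 2, 0, 0, 0], 2), ([0, 1, 1, 0, 0, 0,
    0, 0], 2), ([1, 0, 0, 0, 0, 1, 1, 0], 2), ([1, 0, 0, 1, 0, 1, 0, 0], 2)]⟩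

theorem tord8r_47_ok : tord8r_47.OK 8 := TT.leaf_ok (T := ttd8r_47) (by decide +kernel)

/-- the torus -/
def ttd8r_48 : TT where
  k := 4
  rf := [false, false, false, false]
  tau := [9, 19, 18, 17, 24, 21, 15, 29, 20, 0, 28, 27, 26, 23, 30, 6, 25, 3, 2, 1, 8, 5, 31, 13, 4, 16, 12, 11, 10,
    7, 14, 22]
  par := [0, 0, 1, 4]
  stars := [[0, 29, 10], [1, 9, 20], [2, 19], [3, 18], [4, 17, 25], [5, 24, 22], [6, 21, 8], [7, 15, 30], [11, 28],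
    [12, 27], [13, 26, 16], [14, 23, 31]]
  word := [[], [], [], [], [], [3], [3], [3, 0, 2], [], [], [0], [0], [0], [0], [0, 2], [2], [], [], [], [], [], [2],
    [2], [1], [], [], [1], [1], [1], [3, 1, 2], [3, 1], [3]]
  rank := [0, 0, 1, 2, 0, 1, 2, 6, 1, 0, 2, 1, 0, 4, 5, 2, 3, 2, 1, 0, 1, 1, 0, 4, 0, 3, 0, 1, 2, 6, 5, 0]
  just := [0, 0, 2, 3, 0, 5, 6, 7, 1, 0, 8, 9, 0, 10, 11, 6, 4, 3, 2, 0, 1, 5, 0, 10, 0, 4, 0, 9, 8, 7, 11, 0]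
  gA := 12
  gB := 22
  fin := 0
  sid := [0, 1, 2, 3, 4, 5, 6, 7, 6, 1, 0, 8, 9, 10, 11, 7, 10, 4, 3, 2, 1, 6, 5, 11, 5, 4, 10, 9, 8, 0, 7, 11]
  off := [(0, 0), (0, 0), (0, 0), (0, 0), (0, 0), (0, 0), (0, 0), (0, 0), (0, 1), (0, 0), (0, 0), (0, 0), (0, 0), (0,
    0), (0, 0), (0, 1), (-1, 0), (0, 0), (0, 0), (0, 0), (0, 0), (0, 1), (0, 1), (-1, 0), (0, 0), (0, 0), (-1, 0),
    (-1, 0), (-1, 0), (-1, 0), (-1, 0), (-1, -1)]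

/-- glued arcs and equations -/
def tord8r_48 : TorT :=
  ⟨[(0, 1, true), (0, 4, true), (1, 3, true), (2, 2, true), (2, 4, true), (3, 3, true), (5, 5, true), (5, 7, true),
    (6, 6, true), (6, 7, true)],
    [([0, 0, 0, 0, 0, 0, 1, 2], 2), ([0, 0, 0, 1, 1, 0, 0, 0], 2), ([0, 0, 1, 1, 0, 0, 0, 0], 2), ([0, 2, 0, 0, 1, 0,
    0, 0], 2), ([1, 0, 0, 0, 0, 1, 1, 0], 2), ([1, 0, 1, 0, 0, 1, 0, 0], 2)]⟩

theorem tord8r_48_ok : tord8r_48.OK 8 := TT.leaf_ok (T := ttd8r_48) (by decide +kernel)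

/-- the torus -/
def ttd8r_49 : TT where
  k := 8
  rf := [false, false, false, false, true, true, true, true]
  tau := [11, 10, 17, 16, 23, 19, 18, 12, 30, 13, 1, 0, 7, 9, 24, 31, 3, 2, 6, 5, 36, 34, 35, 4, 14, 29, 45, 46, 44,
    25, 8, 15, 54, 37, 21, 22, 20, 33, 48, 55, 59, 58, 62, 61, 28, 26, 27, 60, 38, 53, 57, 56, 63, 49, 32, 39, 51,
    50, 41, 40, 47, 43, 42, 52]
  par := [0, 0, 2, 8, 20, 26, 32, 40]
  stars := [[0, 12], [1, 11], [2, 10, 13, 7, 18], [3, 17], [4, 16], [5, 23, 36, 20], [6, 19], [8, 31], [9, 30, 25,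
    14], [15, 24], [21, 37, 34], [22, 35], [26, 29, 45], [27, 46], [28, 47, 61, 44], [32, 55], [33, 38, 49, 54], [39,
    48], [40, 60], [41, 59], [42, 63, 53, 50, 58], [43, 62], [51, 57], [52, 56]]
  word := [[], [], [], [], [], [0], [0], [0, 3, 1, 2], [], [3, 1, 2], [], [], [3, 0, 2, 1], [3, 0, 2], [], [], [],
    [], [1], [1], [], [0], [0], [], [], [3, 0, 2], [], [], [3, 1, 2], [3, 1, 2], [], [], [], [1], [1], [1], [], [0],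
    [], [], [], [], [3, 0, 2], [3, 0, 2], [3, 0, 2], [], [], [], [], [0], [2], [2], [2], [1], [], [], [3], [3], [],
    [], [], [3, 1, 2], [3, 1, 2], [3]]
  rank := [0, 1, 0, 1, 2, 6, 7, 8, 0, 6, 1, 0, 8, 6, 2, 1, 1, 0, 7, 6, 0, 4, 5, 2, 2, 5, 0, 1, 4, 5, 0, 1, 0, 3, 4,
    5, 0, 3, 2, 1, 0, 1, 2, 3, 4, 0, 1, 1, 2, 0, 1, 0, 1, 0, 0, 1, 0, 1, 1, 0, 1, 3, 2, 1]
  just := [0, 1, 0, 3, 4, 5, 6, 2, 0, 8, 1, 0, 2, 8, 9, 7, 3, 0, 6, 5, 0, 10, 11, 4, 9, 12, 0, 13, 14, 12, 0, 7, 0,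
    16, 10, 11, 0, 16, 17, 15, 0, 19, 20, 21, 14, 0, 13, 18, 17, 0, 22, 0, 23, 0, 0, 15, 0, 22, 19, 0, 18, 21, 20, 23]
  gA := 49
  gB := 51
  fin := 0
  sid := [0, 1, 2, 3, 4, 5, 6, 2, 7, 8, 2, 1, 0, 2, 8, 9, 4, 3, 2, 6, 5, 10, 11, 5, 9, 8, 12, 13, 14, 12, 8, 7, 15,
    16, 10, 11, 5, 10, 16, 17, 18, 19, 20, 21, 14, 12, 13, 14, 17, 16, 20, 22, 23, 20, 16, 15, 23, 22, 20, 19, 18,
    14, 21, 20]
  off := [(0, 0), (0, 0), (0, 0), (0, 0), (0, 0), (0, 0), (0, 0), (1, 0), (0, 0), (0, 0), (0, 0), (0, 0), (0, 0), (1,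
    0), (1, 0), (0, 0), (0, 0), (0, 0), (0, 0), (-1, 0), (-1, 0), (0, 0), (0, 0), (0, 0), (0, 0), (1, 0), (0, 0), (0,
    0), (0, 0), (-1, 0), (0, 0), (0, 0), (0, 0), (0, 0), (-1, 0), (-1, 0), (-1, 0), (0, 0), (1, 0), (0, 0), (0, 0),
    (0, 0), (0, 0), (0, 0), (1, 0), (0, 0), (0, 0), (0, 0), (0, 0), (1, 0), (0, 1), (0, 0), (0, 0), (-1, 1), (0, 0),
    (0, 0), (0, -1), (0, -1), (0, 0), (0, 0), (0, 0), (0, 0), (-1, 0), (-1, 0)]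

/-- glued arcs and equations -/
def tord8r_49 : TorT :=
  ⟨[(0, 3, true), (0, 6, true), (1, 2, true), (1, 5, true), (2, 5, false), (2, 6, true), (3, 5, true), (3, 6, false),
    (4, 4, false), (4, 7, true), (7, 7, true)],
    [([0, 0, 0, 0, 2, 1, 0, 1], 2), ([0, 0, 0, 1, 0, 0, 1, 0], 2), ([0, 0, 1, 0, 0, 2, 0, 0], 2), ([0, 0, 3, 0, 0, 1,
    0, 1], 2), ([0, 1, 0, 1, 0, 0, 0, 0], 2), ([0, 2, 0, 0, 0, 0, 2, 0], 2), ([1, 0, 0, 0, 0, 0, 0, 1], 2), ([1, 0,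
    0, 0, 1, 0, 0, 0], 2)]⟩

theorem tord8r_49_ok : tord8r_49.OK 8 := TT.leaf_ok (T := ttd8r_49) (by decide +kernel)

/-- the torus -/
def ttd8r_50 : TT where
  k := 10
  rf := [false, false, false, true, false, false, true, false, false, false]
  tau := [8, 6, 22, 21, 28, 37, 1, 15, 0, 14, 46, 45, 52, 61, 9, 7, 35, 34, 65, 64, 71, 3, 2, 36, 48, 30, 69, 70, 4,
    38, 25, 55, 67, 66, 17, 16, 23, 5, 29, 68, 59, 58, 73, 72, 79, 11, 10, 60, 24, 54, 77, 78, 12, 62, 49, 31, 75,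
    74, 41, 40, 47, 13, 53, 76, 19, 18, 33, 32, 39, 26, 27, 20, 43, 42, 57, 56, 63, 50, 51, 44]
  par := [0, 0, 2, 4, 5, 10, 12, 13, 18, 42]
  stars := [[0, 15, 9], [1, 8, 7], [2, 6, 37, 23], [3, 22], [4, 21, 71, 28], [5, 29, 38], [10, 14, 61, 47], [11, 46],
    [12, 45, 79, 52], [13, 53, 62], [16, 36], [17, 35], [18, 34, 66], [19, 65], [20, 64], [24, 49, 55], [25, 31, 48],
    [26, 69, 39, 30], [27, 70], [32, 68], [33, 67], [40, 60], [41, 59], [42, 58, 74], [43, 73], [44, 72], [50, 77,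
    63, 54], [51, 78], [56, 76], [57, 75]]
  word := [[], [0, 3], [], [], [], [], [2, 1], [2, 1], [], [1, 2], [], [], [], [], [3, 0], [0, 3], [0, 3], [0, 3],
    [], [], [], [], [], [0, 3], [0], [0, 3], [], [], [], [], [2, 1], [2], [2, 1], [2, 1], [2, 1], [2, 1], [2, 1], [],
    [], [2, 1], [1, 2], [1, 2], [], [], [], [], [], [1, 2], [1], [1, 2], [], [], [], [], [3, 0], [3], [3, 0], [3, 0],
    [3, 0], [3, 0], [3, 0], [], [], [3, 0], [], [], [0, 3], [0, 3], [0, 3], [], [], [], [], [], [1, 2], [1, 2], [1,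
    2], [], [], []]
  rank := [0, 11, 0, 1, 0, 0, 11, 12, 0, 11, 0, 1, 0, 0, 11, 12, 9, 8, 0, 1, 2, 1, 0, 10, 0, 1, 4, 3, 0, 1, 1, 0, 6,
    7, 8, 9, 10, 0, 1, 5, 9, 8, 0, 1, 2, 1, 0, 10, 0, 1, 4, 3, 0, 1, 1, 0, 6, 7, 8, 9, 10, 0, 1, 5, 1, 0, 7, 6, 5, 4,
    3, 2, 1, 0, 7, 6, 5, 4, 3, 2]
  just := [0, 2, 0, 3, 0, 0, 2, 1, 0, 6, 0, 7, 0, 0, 6, 1, 11, 12, 0, 13, 14, 3, 0, 10, 0, 16, 18, 4, 0, 5, 16, 0,
    19, 20, 12, 11, 10, 0, 5, 17, 22, 23, 0, 24, 25, 7, 0, 21, 0, 15, 27, 8, 0, 9, 15, 0, 28, 29, 23, 22, 21, 0, 9,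
    26, 13, 0, 20, 19, 17, 18, 4, 14, 24, 0, 29, 28, 26, 27, 8, 25]
  gA := 24
  gB := 31
  fin := 0
  sid := [0, 1, 2, 3, 4, 5, 2, 1, 1, 0, 6, 7, 8, 9, 6, 0, 10, 11, 12, 13, 14, 4, 3, 2, 15, 16, 17, 18, 4, 5, 17, 16,
    19, 20, 12, 11, 10, 2, 5, 17, 21, 22, 23, 24, 25, 8, 7, 6, 16, 15, 26, 27, 8, 9, 26, 15, 28, 29, 23, 22, 21, 6,
    9, 26, 14, 13, 12, 20, 19, 17, 18, 4, 25, 24, 23, 29, 28, 26, 27, 8]
  off := [(0, 0), (0, 0), (0, 0), (0, 0), (0, 0), (0, 0), (-1, 1), (-1, 1), (0, 0), (0, 0), (0, 0), (0, 0), (0, 0),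
    (0, 0), (1, -1), (1, -1), (0, 0), (0, 0), (0, 0), (0, 0), (0, 0), (0, 0), (0, 0), (0, 0), (0, 0), (0, 0), (0, 0),
    (0, 0), (0, 0), (0, 0), (-1, 1), (-1, 1), (0, 0), (0, 0), (-1, 1), (-1, 1), (-1, 1), (-1, 1), (0, 0), (-1, 1),
    (0, 0), (0, 0), (0, 0), (0, 0), (0, 0), (0, 0), (0, 0), (0, 0), (-1, 0), (-1, 0), (0, 0), (0, 0), (0, 0), (0, 0),
    (1, -1), (0, -1), (0, 0), (0, 0), (1, -1), (1, -1), (1, -1), (1, -1), (0, 0), (1, -1), (0, 0), (0, 0), (0, 0),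
    (1, -1), (1, -1), (0, 0), (0, 0), (0, 0), (0, 0), (0, 0), (0, 0), (-1, 1), (-1, 1), (0, 0), (0, 0), (0, 0)]

/-- glued arcs and equations -/
def tord8r_50 : TorT :=
  ⟨[(0, 0, true), (0, 3, true), (1, 2, true), (1, 6, true), (2, 5, false), (2, 6, true), (3, 5, true), (3, 6, false),
    (4, 4, false), (4, 7, true), (5, 5, true), (5, 6, false), (7, 7, true)],
    [([0, 0, 0, 0, 0, 2, 1, 0], 2), ([0, 0, 0, 0, 2, 1, 0, 1], 2), ([0, 0, 0, 1, 0, 0, 1, 0], 2), ([0, 0, 1, 0, 0, 1,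
    1, 1], 2), ([0, 0, 3, 0, 0, 0, 0, 0], 2), ([0, 1, 0, 1, 0, 0, 0, 0], 2), ([1, 0, 0, 0, 1, 0, 0, 0], 2), ([1, 1,
    0, 0, 0, 0, 0, 1], 2)]⟩

theorem tord8r_50_ok : tord8r_50.OK 8 := TT.leaf_ok (T := ttd8r_50) (by decide +kernel)

/-- the torus -/
def ttd8r_51 : TT where
  k := 8
  rf := [false, false, true, false, true, false, true, true]
  tau := [8, 21, 25, 24, 31, 19, 14, 36, 0, 37, 41, 40, 47, 35, 6, 20, 51, 50, 30, 5, 15, 1, 26, 52, 3, 2, 22, 53,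
    63, 49, 18, 4, 59, 58, 46, 13, 7, 9, 42, 60, 11, 10, 38, 61, 55, 57, 34, 12, 56, 29, 17, 16, 23, 27, 62, 44, 48,
    45, 33, 32, 39, 43, 54, 28]
  par := [0, 0, 1, 2, 7, 10, 16, 28]
  stars := [[0, 37, 9], [1, 8, 21], [2, 22, 26], [3, 25], [4, 24], [5, 31, 19], [6, 20, 15], [7, 14, 36], [10, 38,
    42], [11, 41], [12, 40], [13, 47, 35], [16, 52], [17, 51], [18, 30, 50], [23, 53, 27], [28, 54, 63], [29, 56,
    49], [32, 60], [33, 59], [34, 46, 58], [39, 61, 43], [44, 62, 55], [45, 48, 57]]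
  word := [[], [], [], [], [], [0], [0], [], [], [2, 0, 3, 1], [], [], [], [1], [1], [], [], [], [1], [1], [], [],
    [], [], [], [], [], [], [], [0], [0], [], [0, 2], [0, 2], [0], [0], [], [0, 2, 1, 3], [0, 2, 1, 3], [0, 2], [],
    [], [2, 0, 3, 1], [2, 0], [2, 0], [2], [1], [], [1], [1], [], [], [], [], [], [1, 3], [0], [3], [3, 1], [3, 1],
    [3, 1], [1, 3], [], []]
  rank := [0, 0, 0, 1, 2, 0, 2, 0, 0, 9, 0, 1, 2, 3, 2, 1, 0, 1, 3, 0, 1, 0, 1, 1, 1, 0, 1, 2, 0, 4, 3, 2, 6, 5, 4,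
    3, 0, 9, 8, 7, 1, 0, 8, 7, 6, 0, 4, 2, 5, 4, 1, 0, 1, 2, 3, 6, 5, 0, 5, 6, 7, 7, 3, 0]
  just := [0, 0, 0, 3, 4, 0, 6, 0, 0, 8, 0, 9, 10, 7, 6, 1, 0, 13, 5, 0, 1, 0, 2, 12, 3, 0, 2, 15, 0, 14, 5, 4, 19,
    20, 11, 7, 0, 8, 21, 18, 9, 0, 21, 22, 23, 0, 11, 10, 17, 14, 13, 0, 12, 15, 16, 23, 17, 0, 20, 19, 18, 22, 16, 0]
  gA := 5
  gB := 45
  fin := 0
  sid := [0, 1, 2, 3, 4, 5, 6, 7, 1, 0, 8, 9, 10, 11, 7, 6, 12, 13, 14, 5, 6, 1, 2, 15, 4, 3, 2, 15, 16, 17, 14, 5,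
    18, 19, 20, 11, 7, 0, 8, 21, 10, 9, 8, 21, 22, 23, 20, 11, 23, 17, 14, 13, 12, 15, 16, 22, 17, 23, 20, 19, 18,
    21, 22, 16]
  off := [(0, 0), (0, 0), (0, 0), (0, 0), (0, 0), (0, 0), (0, 0), (0, 0), (0, 0), (0, 0), (0, 0), (0, 0), (0, 0), (0,
    0), (-1, 0), (-1, 0), (0, 0), (0, 0), (0, 0), (-1, 0), (-1, 0), (0, 0), (0, 0), (0, 0), (0, 0), (0, 0), (0, 0),
    (0, 0), (0, 0), (0, 0), (1, 0), (0, 0), (0, 0), (0, 0), (0, 0), (1, 0), (0, 0), (0, 0), (0, 0), (0, 0), (0, 0),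
    (0, 0), (0, 0), (0, 0), (0, 0), (0, 0), (-1, 0), (0, 0), (-1, -1), (-1, 0), (0, 0), (0, 0), (0, 0), (0, 0), (0,
    0), (-1, -1), (0, 0), (0, -1), (-1, -1), (-1, -1), (-1, -1), (-1, -1), (-1, -1), (0, 0)]

/-- glued arcs and equations -/
def tord8r_51 : TorT :=
  ⟨[(0, 0, true), (0, 3, true), (1, 2, true), (1, 5, false), (2, 6, false), (3, 5, false), (4, 7, false), (4, 7,
    true), (6, 6, true)],
    [([0, 0, 0, 0, 1, 0, 1, 1], 2), ([0, 0, 0, 1, 0, 1, 0, 1], 2), ([0, 0, 2, 0, 0, 0, 1, 0], 2), ([0, 1, 0, 1, 0, 0,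
    0, 0], 2), ([1, 0, 0, 0, 1, 0, 0, 0], 2), ([1, 1, 0, 0, 0, 1, 0, 0], 2)]⟩

theorem tord8r_51_ok : tord8r_51.OK 8 := TT.leaf_ok (T := ttd8r_51) (by decide +kernel)

/-- the torus -/
def ttd8r_52 : TT where
  k := 4
  rf := [false, false, false, false]
  tau := [8, 6, 17, 16, 23, 18, 1, 15, 0, 14, 25, 24, 31, 26, 9, 7, 3, 2, 5, 22, 28, 29, 19, 4, 11, 10, 13, 30, 20,
    21, 27, 12]
  par := [0, 0, 2, 10]
  stars := [[0, 15, 9], [1, 8, 7], [2, 6, 18], [3, 17], [4, 16], [5, 23, 19], [10, 14, 26], [11, 25], [12, 24], [13,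
    31, 27], [20, 22, 29], [21, 28, 30]]
  word := [[], [0, 3], [], [], [], [2, 1], [2, 1], [2, 1], [], [1, 2], [], [], [], [3, 0], [3, 0], [0, 3], [], [],
    [0, 3], [0, 3], [0], [2], [2, 1], [], [], [], [1, 2], [1, 2], [1], [3], [3, 0], []]
  rank := [0, 4, 0, 1, 2, 3, 4, 5, 0, 4, 0, 1, 2, 3, 4, 5, 1, 0, 3, 1, 0, 0, 1, 2, 1, 0, 3, 1, 0, 0, 1, 2]
  just := [0, 2, 0, 3, 4, 5, 2, 1, 0, 6, 0, 7, 8, 9, 6, 1, 3, 0, 5, 10, 0, 0, 10, 4, 7, 0, 9, 11, 0, 0, 11, 8]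
  gA := 20
  gB := 21
  fin := 0
  sid := [0, 1, 2, 3, 4, 5, 2, 1, 1, 0, 6, 7, 8, 9, 6, 0, 4, 3, 2, 5, 10, 11, 10, 5, 8, 7, 6, 9, 11, 10, 11, 9]
  off := [(0, 0), (0, 0), (0, 0), (0, 0), (0, 0), (0, 0), (-1, 1), (-1, 1), (0, 0), (0, 0), (0, 0), (0, 0), (0, 0),
    (0, 0), (1, -1), (1, -1), (0, 0), (0, 0), (0, 0), (1, -1), (0, 0), (0, 0), (-1, 1), (0, 0), (0, 0), (0, 0), (0,
    0), (-1, 1), (-1, 0), (-1, 0), (0, -1), (0, 0)]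

/-- glued arcs and equations -/
def tord8r_52 : TorT :=
  ⟨[(0, 0, true), (0, 3, true), (1, 2, true), (1, 6, true), (2, 5, true), (3, 6, true), (4, 4, true), (4, 7, true),
    (5, 5, true), (7, 7, true)],
    [([0, 0, 0, 0, 1, 1, 1, 0], 2), ([0, 0, 0, 1, 0, 1, 0, 1], 2), ([0, 0, 2, 0, 0, 0, 1, 0], 2), ([0, 1, 0, 1, 0, 0,
    0, 0], 2), ([1, 0, 0, 0, 1, 0, 0, 0], 2), ([1, 1, 0, 0, 0, 0, 0, 1], 2)]⟩

theorem tord8r_52_ok : tord8r_52.OK 8 := TT.leaf_ok (T := ttd8r_52) (by decide +kernel)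

/-- the torus -/
def ttd8r_53 : TT where
  k := 16
  rf := [false, false, true, true, true, false, false, true, false, true, false, true, true, false, false, true]
  tau := [11, 10, 17, 18, 28, 33, 44, 12, 53, 61, 1, 0, 7, 64, 71, 54, 77, 2, 3, 27, 84, 88, 95, 78, 101, 82, 83, 19,
    4, 32, 39, 102, 29, 5, 57, 56, 63, 96, 103, 30, 109, 67, 66, 65, 6, 112, 119, 110, 69, 122, 123, 115, 60, 8, 15,
    70, 35, 34, 113, 114, 52, 9, 76, 36, 13, 43, 42, 41, 86, 48, 55, 14, 93, 99, 98, 97, 62, 16, 23, 94, 107, 106,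
    25, 26, 20, 89, 68, 108, 21, 85, 121, 120, 127, 72, 79, 22, 37, 75, 74, 73, 126, 24, 31, 38, 117, 125, 81, 80,
    87, 40, 47, 118, 45, 58, 59, 51, 124, 104, 111, 46, 91, 90, 49, 50, 116, 105, 100, 92]
  par := [0, 0, 2, 4, 5, 6, 8, 9, 13, 16, 20, 21, 24, 40, 45, 49]
  stars := [[0, 12], [1, 11], [2, 10, 62, 77, 17], [3, 18], [4, 19, 28], [5, 29, 33], [6, 34, 58, 113, 45], [7, 44,
    65, 13], [8, 54], [9, 53, 61], [14, 64], [15, 71, 55], [16, 78], [20, 84, 27], [21, 89, 85], [22, 88], [23, 79,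
    95], [24, 102], [25, 82, 106, 126, 101], [26, 83], [30, 32], [31, 103, 39], [35, 57], [36, 56], [37, 97, 76, 63],
    [38, 96], [40, 110], [41, 109, 87, 68], [42, 67], [43, 66], [46, 112], [47, 119, 111], [48, 70], [49, 69, 86, 90,
    122], [50, 123], [51, 124, 116], [52, 115, 60], [59, 114], [72, 94], [73, 100, 127, 93], [74, 99], [75, 98], [80,
    108], [81, 107], [91, 121], [92, 120], [104, 118], [105, 117, 125]]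
  word := [[], [], [], [], [], [], [], [0, 3, 1, 2], [], [], [], [], [3, 0, 2, 1], [], [], [], [], [], [], [], [],
    [], [], [], [], [], [], [], [], [], [], [], [], [], [0], [0], [0], [], [], [], [], [0, 3, 1, 2], [0, 3, 1, 2],
    [0, 3, 1, 2], [], [], [], [], [], [], [], [1], [], [], [], [], [1], [1], [1], [1], [], [], [], [1], [], [3, 0, 2,
    1], [3, 0, 2, 1], [3, 0, 2, 1], [3, 0], [], [], [], [], [1], [1], [1], [], [], [], [], [2, 1], [2, 1], [], [],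
    [], [], [1, 2], [2, 1], [], [], [1, 2], [1, 2], [1, 2], [], [], [], [], [0], [0], [0], [2], [], [], [], [], [0],
    [0, 3], [0, 3], [0, 3], [], [], [], [], [0], [0], [0], [0], [], [], [], [3, 0], [3, 0], [], [], [1], [1], [3],
    [3, 0]]
  rank := [0, 1, 0, 1, 0, 0, 0, 15, 0, 0, 1, 0, 15, 0, 1, 1, 0, 0, 1, 2, 0, 0, 1, 1, 0, 4, 3, 2, 0, 1, 2, 1, 1, 0, 0,
    1, 2, 4, 3, 2, 0, 12, 13, 14, 0, 0, 1, 1, 3, 0, 1, 3, 1, 0, 1, 2, 1, 0, 1, 2, 1, 0, 2, 2, 0, 14, 13, 12, 11, 3,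
    2, 1, 3, 7, 6, 5, 2, 0, 1, 2, 7, 6, 4, 3, 0, 1, 11, 8, 0, 1, 10, 9, 8, 3, 2, 1, 4, 5, 6, 7, 0, 0, 1, 3, 3, 5, 6,
    7, 8, 0, 1, 2, 0, 1, 2, 3, 4, 3, 2, 1, 9, 10, 0, 1, 4, 5, 0, 8]
  just := [0, 1, 0, 3, 0, 0, 0, 7, 0, 0, 1, 0, 7, 0, 10, 8, 0, 0, 3, 4, 0, 0, 15, 12, 0, 19, 13, 4, 0, 5, 20, 17, 5,
    0, 0, 22, 23, 25, 21, 20, 0, 27, 28, 29, 0, 0, 30, 26, 32, 0, 34, 36, 9, 0, 8, 11, 22, 0, 6, 37, 9, 0, 2, 23, 0,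
    29, 28, 27, 33, 32, 11, 10, 38, 40, 41, 24, 2, 0, 12, 16, 43, 18, 19, 13, 0, 14, 33, 42, 0, 14, 44, 45, 39, 38,
    16, 15, 25, 24, 41, 40, 0, 0, 17, 21, 46, 47, 18, 43, 42, 0, 26, 31, 0, 6, 37, 36, 35, 46, 31, 30, 45, 44, 0, 34,
    35, 47, 0, 39]
  gA := 34
  gB := 100
  fin := 0
  sid := [0, 1, 2, 3, 4, 5, 6, 7, 8, 9, 2, 1, 0, 7, 10, 11, 12, 2, 3, 4, 13, 14, 15, 16, 17, 18, 19, 13, 4, 5, 20,
    21, 20, 5, 6, 22, 23, 24, 25, 21, 26, 27, 28, 29, 7, 6, 30, 31, 32, 33, 34, 35, 36, 9, 8, 11, 23, 22, 6, 37, 36,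
    9, 2, 24, 10, 7, 29, 28, 27, 33, 32, 11, 38, 39, 40, 41, 24, 2, 12, 16, 42, 43, 18, 19, 13, 14, 33, 27, 15, 14,
    33, 44, 45, 39, 38, 16, 25, 24, 41, 40, 39, 18, 17, 21, 46, 47, 18, 43, 42, 27, 26, 31, 30, 6, 37, 36, 35, 47,
    46, 31, 45, 44, 33, 34, 35, 47, 18, 39]
  off := [(0, 0), (0, 0), (0, 0), (0, 0), (0, 0), (0, 0), (0, 0), (0, 0), (0, 0), (0, 0), (0, 0), (0, 0), (0, 0), (0,
    0), (0, 0), (0, 0), (0, 0), (0, 0), (0, 0), (0, 0), (0, 0), (0, 0), (0, 0), (0, 0), (0, 0), (0, 0), (0, 0), (0,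
    0), (0, 0), (0, 0), (0, 0), (0, 0), (0, 0), (0, 0), (0, 0), (0, 0), (0, 0), (0, 0), (0, 0), (0, 0), (0, 0), (0,
    0), (0, 0), (0, 0), (0, 0), (0, 0), (0, 0), (0, 0), (0, 0), (0, 0), (0, 0), (0, 0), (0, 0), (0, 0), (0, 0), (0,
    0), (-1, 0), (-1, 0), (-1, 0), (0, 0), (0, 0), (0, 0), (0, 0), (-1, 0), (0, 0), (0, 0), (0, 0), (0, 0), (0, 0),
    (0, 0), (0, 0), (0, 0), (0, 0), (0, 0), (0, 0), (0, 0), (-1, 0), (0, 0), (0, 0), (0, 0), (0, 0), (0, 0), (0, 0),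
    (0, 0), (0, 0), (0, 0), (-1, 1), (-1, 1), (0, 0), (0, 0), (-1, 1), (0, 0), (0, 0), (0, 0), (0, 0), (0, 0), (0,
    0), (0, 0), (1, 0), (1, 0), (1, 0), (0, 0), (0, 0), (0, 0), (0, 0), (0, 0), (1, -1), (1, -1), (1, -1), (0, 0),
    (0, 0), (0, 0), (0, 0), (0, 0), (1, 0), (1, 0), (1, 0), (0, 0), (0, 0), (0, 0), (1, -1), (1, -1), (0, 0), (0, 0),
    (0, 0), (-1, 0), (0, -1), (1, -1)]

/-- glued arcs and equations -/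
def tord8r_53 : TorT :=
  ⟨[(0, 3, true), (0, 5, true), (1, 2, false), (1, 2, true), (1, 3, true), (1, 5, false), (2, 2, true), (2, 3,
    false), (3, 3, true), (4, 4, false), (4, 6, true), (4, 7, true), (6, 7, true)],
    [([0, 0, 0, 0, 0, 0, 0, 3], 2), ([0, 0, 0, 1, 2, 0, 0, 0], 2), ([0, 0, 1, 1, 0, 0, 0, 0], 2), ([0, 1, 0, 0, 0, 2,
    0, 0], 2), ([0, 1, 0, 0, 1, 1, 0, 1], 2), ([0, 1, 0, 1, 0, 0, 0, 0], 2), ([0, 1, 2, 0, 0, 1, 1, 0], 2), ([1, 0,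
    0, 0, 0, 0, 1, 0], 2), ([1, 0, 0, 0, 1, 0, 0, 0], 2)]⟩

theorem tord8r_53_ok : tord8r_53.OK 8 := TT.leaf_ok (T := ttd8r_53) (by decide +kernel)

/-- the torus -/
def ttd8r_54 : TT where
  k := 16
  rf := [false, false, false, true, true, false, false, false, true, false, true, true, true, true, true, false]
  tau := [11, 10, 17, 16, 23, 26, 36, 12, 19, 18, 1, 0, 7, 40, 47, 20, 3, 2, 9, 8, 15, 53, 62, 4, 69, 61, 5, 35, 78,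
    57, 86, 70, 93, 45, 77, 27, 6, 41, 102, 94, 13, 37, 109, 59, 118, 33, 54, 14, 75, 74, 121, 120, 127, 21, 46, 76,
    125, 29, 117, 43, 110, 25, 22, 126, 99, 98, 105, 104, 111, 24, 31, 100, 123, 122, 49, 48, 55, 34, 28, 124, 115,
    114, 89, 88, 95, 101, 30, 116, 83, 82, 113, 112, 119, 32, 39, 84, 107, 106, 65, 64, 71, 85, 38, 108, 67, 66, 97,
    96, 103, 42, 60, 68, 91, 90, 81, 80, 87, 58, 44, 92, 51, 50, 73, 72, 79, 56, 63, 52]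
  par := [0, 0, 2, 5, 6, 13, 21, 22, 24, 28, 30, 32, 38, 42, 44, 50]
  stars := [[0, 12], [1, 11], [2, 10, 18], [3, 17], [4, 16], [5, 23, 62, 26], [6, 27, 36], [7, 37, 41, 13], [8, 20],
    [9, 19], [14, 40], [15, 47, 54, 21], [22, 53, 127, 63], [24, 70], [25, 61, 111, 69], [28, 78, 35], [29, 57, 125,
    79], [30, 87, 117, 58], [31, 71, 101, 86], [32, 94], [33, 45, 119, 93], [34, 77, 55, 46], [38, 103, 109, 42],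
    [39, 95, 85, 102], [43, 110, 60], [44, 59, 118], [48, 76], [49, 75], [50, 74, 122], [51, 121], [52, 120], [56,
    126], [64, 100], [65, 99], [66, 106, 98], [67, 105], [68, 104], [72, 124], [73, 123], [80, 116], [81, 115], [82,
    90, 114], [83, 89], [84, 88], [91, 113], [92, 112], [96, 108], [97, 107]]
  word := [[], [], [], [], [], [], [], [1, 3, 0, 2], [], [], [], [], [3, 1, 2, 0], [], [], [], [], [], [], [], [],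
    [], [], [], [], [], [], [], [], [1], [], [], [], [1], [], [], [], [1, 3, 0, 2], [], [], [], [3, 1, 2, 0], [], [3,
    1], [], [0], [], [], [0], [0], [], [], [], [], [], [0], [], [0], [0, 2], [0, 2], [0, 2], [], [], [], [2, 0], [2,
    0], [0, 2], [0, 2], [0, 2], [], [], [2, 0], [1], [1], [1], [1], [1], [], [], [1], [2], [2], [2, 0], [2, 0], [2,
    0], [2, 0], [], [2], [1, 3], [1, 3], [1], [1], [1], [], [], [1, 3], [1, 3, 0, 2], [1, 3, 0, 2], [1, 3], [1, 3],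
    [1, 3], [1, 3], [], [1, 3, 0, 2], [3, 1], [3, 1], [3, 1, 2, 0], [3, 1, 2, 0], [3, 1, 2, 0], [], [3, 1], [3, 1],
    [0], [0], [3], [3], [3], [3, 1], [], [0], [], [], [0], [0], [0], [], [], []]
  rank := [0, 1, 0, 1, 2, 0, 0, 21, 3, 2, 1, 0, 21, 0, 1, 4, 1, 0, 2, 3, 4, 0, 0, 2, 0, 3, 0, 1, 0, 5, 0, 1, 0, 6, 2,
    1, 0, 20, 0, 1, 0, 20, 0, 7, 0, 6, 5, 1, 0, 1, 0, 1, 2, 0, 5, 1, 4, 5, 6, 7, 8, 3, 0, 3, 15, 16, 11, 10, 9, 0, 1,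
    14, 3, 2, 1, 0, 1, 2, 0, 4, 0, 1, 10, 11, 12, 13, 0, 1, 11, 10, 9, 8, 7, 0, 1, 12, 18, 17, 16, 15, 14, 13, 0, 19,
    10, 11, 17, 18, 19, 0, 8, 9, 8, 9, 1, 0, 1, 6, 0, 7, 1, 0, 2, 3, 4, 4, 3, 2]
  just := [0, 1, 0, 3, 4, 0, 0, 7, 9, 2, 1, 0, 7, 0, 10, 8, 3, 0, 2, 9, 8, 0, 0, 4, 0, 5, 0, 6, 0, 16, 0, 13, 0, 21,
    15, 6, 0, 22, 0, 19, 0, 22, 0, 25, 0, 21, 11, 10, 0, 27, 0, 29, 30, 0, 11, 26, 31, 16, 17, 25, 24, 5, 0, 12, 32,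
    33, 35, 36, 14, 0, 13, 18, 38, 28, 27, 0, 26, 15, 0, 37, 0, 40, 41, 42, 43, 23, 0, 39, 42, 41, 44, 45, 20, 0, 19,
    43, 47, 34, 33, 32, 18, 23, 0, 46, 36, 35, 34, 47, 46, 0, 24, 14, 45, 44, 40, 0, 39, 17, 0, 20, 29, 0, 28, 38,
    37, 31, 12, 30]
  gA := 48
  gB := 80
  fin := 0
  sid := [0, 1, 2, 3, 4, 5, 6, 7, 8, 9, 2, 1, 0, 7, 10, 11, 4, 3, 2, 9, 8, 11, 12, 5, 13, 14, 5, 6, 15, 16, 17, 18,
    19, 20, 21, 15, 6, 7, 22, 23, 10, 7, 22, 24, 25, 20, 21, 11, 26, 27, 28, 29, 30, 12, 11, 21, 31, 16, 17, 25, 24,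
    14, 5, 12, 32, 33, 34, 35, 36, 14, 13, 18, 37, 38, 28, 27, 26, 21, 15, 16, 39, 40, 41, 42, 43, 23, 18, 17, 43,
    42, 41, 44, 45, 20, 19, 23, 46, 47, 34, 33, 32, 18, 23, 22, 36, 35, 34, 47, 46, 22, 24, 14, 45, 44, 41, 40, 39,
    17, 25, 20, 30, 29, 28, 38, 37, 16, 31, 12]
  off := [(0, 0), (0, 0), (0, 0), (0, 0), (0, 0), (0, 0), (0, 0), (0, 0), (0, 0), (0, 0), (0, 0), (0, 0), (0, 0), (0,
    0), (0, 0), (0, 0), (0, 0), (0, 0), (0, 0), (0, 0), (0, 0), (0, 0), (0, 0), (0, 0), (0, 0), (0, 0), (0, 0), (0,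
    0), (0, 0), (0, 0), (0, 0), (0, 0), (0, 0), (0, 0), (0, 0), (0, 0), (0, 0), (0, 0), (0, 0), (0, 0), (0, 0), (0,
    0), (0, 0), (0, 0), (0, 0), (1, 0), (1, 0), (0, 0), (0, 0), (0, 0), (0, 0), (0, 0), (0, 0), (0, 0), (0, 0), (1,
    0), (0, 0), (1, 0), (1, 0), (1, 1), (1, 1), (0, 0), (0, 0), (0, 0), (0, 0), (0, 0), (0, 0), (0, 0), (0, 0), (0,
    0), (0, 0), (0, 0), (0, 0), (0, 0), (-1, 0), (-1, 0), (-1, 0), (0, 0), (0, 0), (0, 0), (0, 0), (0, 0), (0, 0),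
    (0, 0), (0, 0), (1, 1), (0, 0), (0, 0), (-1, -1), (-1, -1), (-1, -1), (0, 0), (0, 0), (0, 0), (0, 0), (0, 0), (0,
    0), (0, 0), (-1, -1), (-1, -1), (-1, -1), (-1, -1), (0, 0), (0, 0), (-1, -1), (-1, -1), (-1, -1), (0, 0), (0, 0),
    (0, 0), (0, 0), (-1, -1), (1, 0), (1, 0), (0, -1), (0, -1), (0, -1), (0, -1), (0, 0), (1, 0), (0, 0), (0, 0), (0,
    0), (1, 0), (1, 0), (1, 0), (0, 0), (0, 0)]

/-- glued arcs and equations -/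
def tord8r_54 : TorT :=
  ⟨[(0, 3, true), (0, 5, true), (1, 2, true), (1, 5, false), (2, 5, false), (3, 3, true), (4, 6, false), (4, 7,
    true), (5, 5, true), (6, 6, true), (6, 7, true)],
    [([0, 0, 0, 0, 0, 1, 1, 2], 2), ([0, 0, 0, 1, 1, 0, 1, 0], 2), ([0, 0, 1, 0, 0, 1, 1, 1], 2), ([0, 0, 3, 0, 0, 0,
    0, 0], 2), ([0, 1, 0, 0, 0, 2, 0, 1], 2), ([0, 1, 0, 1, 0, 0, 0, 0], 2), ([1, 0, 0, 0, 0, 0, 1, 0], 2), ([1, 0,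
    0, 0, 1, 0, 0, 0], 2)]⟩

theorem tord8r_54_ok : tord8r_54.OK 8 := TT.leaf_ok (T := ttd8r_54) (by decide +kernel)

end Pool.Agent.Lib_MP_fa6e45
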