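import Pool.Agent.Lib_MP_fa6e45.CT5

/-!
MP_fa6e45_co, stage 9: straight-side patterns with `8` sides, tables of tori (generated by a program).
-/

namespace Pool.Agent.Lib_MP_fa6e45

/-- the torus -/
def ttd8r_55 : TT where
  k := 4
  rf := [false, false, false, false]
  tau := [11, 10, 18, 25, 20, 8, 15, 12, 5, 19, 1, 0, 7, 29, 30, 6, 27, 26, 2, 9, 4, 24, 31, 28, 21, 3, 17, 16, 23,
    13, 14, 22]
  par := [0, 0, 2, 3]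
  stars := [[0, 12], [1, 11], [2, 10, 19], [3, 18, 26], [4, 25, 21], [5, 20, 9], [6, 8], [7, 15, 30, 13], [14, 29,
    23, 31], [16, 28], [17, 27], [22, 24]]
  word := [[], [], [], [], [3], [3], [3], [3, 0, 2, 1], [2], [], [], [], [0, 3, 1, 2], [0, 3], [0], [2], [], [], [],
    [], [2], [2], [2], [], [3], [], [], [], [], [2, 1], [1], [3]]
  rank := [0, 1, 0, 0, 1, 3, 4, 5, 3, 2, 1, 0, 5, 4, 0, 4, 2, 1, 0, 2, 1, 0, 1, 3, 0, 0, 1, 2, 3, 4, 0, 1]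
  just := [0, 1, 0, 0, 4, 5, 6, 7, 5, 2, 1, 0, 7, 8, 0, 6, 10, 3, 0, 2, 4, 0, 11, 9, 0, 0, 3, 10, 9, 8, 0, 11]
  gA := 14
  gB := 21
  fin := 0
  sid := [0, 1, 2, 3, 4, 5, 6, 7, 6, 5, 2, 1, 0, 7, 8, 7, 9, 10, 3, 2, 5, 4, 11, 8, 11, 4, 3, 10, 9, 8, 7, 8]
  off := [(0, 0), (0, 0), (0, 0), (0, 0), (0, 0), (0, 0), (0, 0), (0, 0), (0, 1), (0, 1), (0, 0), (0, 0), (0, 0), (0,
    0), (0, 0), (0, 1), (0, 0), (0, 0), (0, 0), (0, 0), (0, 1), (0, 1), (0, 0), (-1, 1), (0, -1), (0, 0), (0, 0), (0,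
    0), (0, 0), (-1, 1), (-1, 1), (-1, 0)]

/-- glued arcs and equations -/
def tord8r_55 : TorT :=
  ⟨[(0, 3, true), (0, 5, true), (1, 2, true), (1, 3, true), (2, 2, true), (4, 4, true), (4, 7, true), (5, 5, true),
    (6, 6, true), (6, 7, true)],
    [([0, 0, 0, 0, 0, 1, 1, 2], 2), ([0, 0, 2, 1, 0, 0, 0, 0], 2), ([0, 1, 0, 0, 1, 1, 0, 0], 2), ([0, 1, 0, 1, 0, 0,
    0, 0], 2), ([1, 0, 0, 0, 0, 0, 1, 0], 2), ([1, 0, 0, 0, 1, 0, 0, 0], 2)]⟩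

theorem tord8r_55_ok : tord8r_55.OK 8 := TT.leaf_ok (T := ttd8r_55) (by decide +kernel)

/-- the torus -/
def ttd8r_56 : TT where
  k := 4
  rf := [false, false, false, false]
  tau := [10, 17, 25, 24, 31, 21, 22, 30, 19, 18, 0, 29, 28, 27, 23, 20, 26, 1, 9, 8, 15, 5, 6, 14, 3, 2, 16, 13, 12,
    11, 7, 4]
  par := [0, 0, 1, 2]
  stars := [[0, 30, 11], [1, 10, 18], [2, 17, 26], [3, 25], [4, 24], [5, 31, 7, 22], [6, 21, 15, 23], [8, 20], [9,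
    19], [12, 29], [13, 28], [14, 27, 16]]
  word := [[], [], [], [], [], [0, 3], [0], [0, 2, 1], [], [], [], [2], [2], [2], [2], [], [], [], [], [], [], [2,
    1], [1], [3], [], [], [], [3], [3], [3], [0, 3, 1], []]
  rank := [0, 0, 0, 1, 2, 4, 0, 5, 2, 1, 0, 2, 1, 0, 2, 3, 1, 0, 1, 2, 3, 4, 0, 2, 1, 0, 1, 0, 1, 2, 5, 2]
  just := [0, 0, 0, 3, 4, 6, 0, 5, 8, 1, 0, 9, 10, 0, 11, 7, 2, 0, 1, 8, 7, 6, 0, 11, 3, 0, 2, 0, 10, 9, 5, 4]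
  gA := 6
  gB := 13
  fin := 0
  sid := [0, 1, 2, 3, 4, 5, 6, 5, 7, 8, 1, 0, 9, 10, 11, 6, 11, 2, 1, 8, 7, 6, 5, 6, 4, 3, 2, 11, 10, 9, 0, 5]
  off := [(0, 0), (0, 0), (0, 0), (0, 0), (0, 0), (0, 0), (0, 0), (0, 1), (0, 0), (0, 0), (0, 0), (0, 0), (0, 0), (0,
    0), (0, 0), (-1, 1), (0, -1), (0, 0), (0, 0), (0, 0), (0, 0), (-1, 1), (-1, 1), (-1, 0), (0, 0), (0, 0), (0, 0),
    (0, -1), (0, -1), (0, -1), (0, -1), (0, 0)]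

/-- glued arcs and equations -/
def tord8r_56 : TorT :=
  ⟨[(0, 2, true), (0, 3, true), (1, 1, true), (1, 2, true), (3, 5, true), (4, 4, true), (4, 7, true), (5, 5, true),
    (6, 6, true), (6, 7, true)],
    [([0, 0, 0, 0, 0, 1, 1, 2], 2), ([0, 0, 0, 0, 1, 1, 0, 0], 2), ([0, 1, 0, 1, 0, 0, 0, 0], 2), ([0, 1, 2, 0, 0, 0,
    0, 0], 2), ([1, 0, 0, 0, 1, 0, 0, 0], 2), ([1, 0, 0, 1, 0, 0, 1, 0], 2)]⟩

theorem tord8r_56_ok : tord8r_56.OK 8 := TT.leaf_ok (T := ttd8r_56) (by decide +kernel)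

/-- the torus -/
def ttd8r_57 : TT where
  k := 8
  rf := [false, false, true, true, true, true, true, true]
  tau := [8, 21, 29, 13, 12, 11, 38, 46, 0, 53, 37, 5, 4, 3, 30, 62, 35, 34, 57, 56, 63, 1, 54, 36, 43, 42, 49, 48,
    55, 2, 14, 44, 59, 58, 17, 16, 23, 10, 6, 60, 51, 50, 25, 24, 31, 61, 7, 52, 27, 26, 41, 40, 47, 9, 22, 28, 19,
    18, 33, 32, 39, 45, 15, 20]
  par := [0, 0, 1, 2, 6, 7, 9, 15]
  stars := [[0, 47, 53, 9], [1, 8, 63, 21], [2, 22, 55, 29], [3, 30, 14], [4, 13], [5, 12], [6, 11, 38], [7, 39, 61,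
    46], [10, 54, 23, 37], [15, 31, 45, 62], [16, 36], [17, 35], [18, 58, 34], [19, 57], [20, 56], [24, 44], [25,
    43], [26, 50, 42], [27, 49], [28, 48], [32, 60], [33, 59], [40, 52], [41, 51]]
  word := [[], [], [], [0], [0], [0], [], [], [], [], [1], [1], [1], [1], [1], [], [2], [2], [], [], [], [], [2, 0],
    [2], [0, 2], [0, 2], [2, 0], [2, 0], [2, 0], [], [0], [0, 2], [3], [3], [3], [3], [3], [0], [], [3], [3, 1, 2,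
    0], [3, 1, 2, 0], [3, 1], [3, 1], [3, 1], [3], [], [3, 1, 2, 0], [1, 3], [1, 3], [1, 3, 0, 2], [1, 3, 0, 2], [1,
    3, 0, 2], [], [1, 3], [1, 3], [], [], [2], [2], [2], [2], [], []]
  rank := [0, 0, 0, 2, 1, 0, 0, 0, 0, 0, 1, 0, 1, 2, 3, 0, 1, 0, 3, 2, 1, 0, 3, 2, 9, 10, 6, 5, 4, 0, 3, 8, 5, 4, 0,
    1, 2, 1, 0, 6, 12, 11, 10, 9, 8, 7, 0, 13, 5, 6, 11, 12, 13, 0, 3, 4, 2, 3, 4, 5, 6, 7, 0, 1]
  just := [0, 0, 0, 4, 5, 0, 0, 0, 0, 0, 6, 0, 5, 4, 3, 0, 11, 0, 13, 14, 1, 0, 8, 10, 15, 16, 18, 19, 2, 0, 3, 9,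
    21, 12, 0, 11, 10, 6, 0, 20, 23, 17, 16, 15, 9, 7, 0, 22, 19, 18, 17, 23, 22, 0, 8, 2, 14, 13, 12, 21, 20, 7, 0,
    1]
  gA := 5
  gB := 17
  fin := 0
  sid := [0, 1, 2, 3, 4, 5, 6, 7, 1, 0, 8, 6, 5, 4, 3, 9, 10, 11, 12, 13, 14, 1, 2, 8, 15, 16, 17, 18, 19, 2, 3, 9,
    20, 21, 12, 11, 10, 8, 6, 7, 22, 23, 17, 16, 15, 9, 7, 0, 19, 18, 17, 23, 22, 0, 8, 2, 14, 13, 12, 21, 20, 7, 9,
    1]
  off := [(0, 0), (0, 0), (0, 0), (0, 0), (0, 0), (0, 0), (0, 0), (0, 0), (0, 0), (0, 0), (0, 0), (-1, 0), (-1, 0),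
    (-1, 0), (-1, 0), (0, 0), (0, 0), (0, 0), (0, 0), (0, 0), (0, 0), (0, 0), (0, 0), (1, 1), (0, 0), (0, 0), (0, 0),
    (0, 0), (0, 0), (0, 0), (0, 0), (1, 0), (0, 0), (0, 0), (0, -1), (0, -1), (0, -1), (1, 0), (0, 0), (0, 0), (0,
    0), (0, 0), (-1, -1), (-1, -1), (-1, -1), (0, -1), (0, 0), (0, 0), (-1, -1), (-1, -1), (-1, -1), (0, 0), (0, 0),
    (0, 0), (0, 0), (-1, -1), (0, 0), (0, 0), (0, 0), (0, 1), (0, 1), (0, 1), (0, 0), (0, 0)]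

/-- glued arcs and equations -/
def tord8r_57 : TorT :=
  ⟨[(0, 0, true), (0, 3, true), (1, 2, true), (1, 5, false), (2, 5, false), (3, 5, true), (4, 4, true), (4, 7, true),
    (5, 5, true), (6, 6, false), (6, 6, true), (6, 7, false)],
    [([0, 0, 0, 0, 0, 1, 1, 2], 2), ([0, 0, 0, 0, 1, 1, 0, 0], 2), ([0, 0, 0, 1, 0, 0, 2, 0], 2), ([0, 0, 1, 0, 0, 1,
    1, 1], 2), ([0, 0, 3, 0, 0, 0, 0, 0], 2), ([0, 1, 0, 1, 0, 0, 0, 0], 2), ([1, 0, 0, 0, 1, 0, 0, 0], 2), ([1, 1,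
    0, 0, 0, 1, 0, 1], 2)]⟩

theorem tord8r_57_ok : tord8r_57.OK 8 := TT.leaf_ok (T := ttd8r_57) (by decide +kernel)

/-- the torus -/
def ttd8r_58 : TT where
  k := 8
  rf := [false, false, false, true, false, false, true, false]
  tau := [13, 17, 24, 25, 20, 32, 39, 14, 37, 43, 42, 41, 55, 0, 7, 38, 45, 1, 48, 49, 4, 56, 63, 46, 2, 3, 57, 58,
    52, 35, 36, 44, 5, 50, 51, 29, 30, 8, 15, 6, 61, 11, 10, 9, 31, 16, 23, 62, 18, 19, 33, 34, 28, 59, 60, 12, 21,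
    26, 27, 53, 54, 40, 47, 22]
  par := [0, 0, 1, 2, 5, 9, 12, 21]
  stars := [[0, 14], [1, 13, 48, 18], [2, 17, 45, 24], [3, 25], [4, 26, 57, 21], [5, 20, 50, 33], [6, 32], [7, 39,
    15], [8, 38], [9, 37, 31, 44], [10, 43], [11, 42], [12, 41, 61, 55], [16, 46], [19, 49], [22, 56], [23, 63, 47],
    [27, 58], [28, 53, 59], [29, 35, 52], [30, 36], [34, 51], [40, 62], [54, 60]]
  word := [[], [], [], [], [0], [], [], [0, 2, 1, 3], [2, 0, 3, 1], [], [], [], [], [], [2, 0, 3, 1], [2, 0, 3, 1],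
    [3], [], [], [], [1], [], [], [3], [], [], [0], [0], [0, 3], [0, 3, 1], [0, 3, 1], [3], [], [0], [0], [0, 2, 1],
    [0, 2, 1], [0, 2, 1, 3], [0, 2, 1, 3], [], [2], [], [], [], [2], [2], [2], [2], [], [], [1], [1], [2, 1], [2],
    [2], [], [], [1], [1], [3], [3], [3], [3], []]
  rank := [0, 0, 0, 1, 0, 0, 1, 10, 8, 0, 1, 2, 0, 0, 10, 9, 3, 0, 1, 2, 0, 0, 1, 2, 0, 1, 2, 3, 5, 6, 7, 4, 0, 3, 4,
    6, 7, 8, 9, 1, 0, 2, 1, 0, 4, 3, 2, 1, 1, 2, 3, 4, 5, 4, 3, 0, 0, 2, 3, 4, 3, 0, 1, 1]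
  just := [0, 0, 0, 3, 0, 0, 6, 7, 9, 0, 10, 11, 0, 0, 7, 8, 13, 0, 1, 14, 0, 0, 15, 16, 0, 3, 4, 17, 18, 19, 20, 2,
    0, 5, 21, 19, 20, 9, 8, 6, 0, 11, 10, 0, 2, 13, 16, 22, 1, 14, 5, 21, 18, 23, 12, 0, 0, 4, 17, 23, 12, 0, 22, 15]
  gA := 4
  gB := 40
  fin := 0
  sid := [0, 1, 2, 3, 4, 5, 6, 7, 8, 9, 10, 11, 12, 1, 0, 7, 13, 2, 1, 14, 5, 4, 15, 16, 2, 3, 4, 17, 18, 19, 20, 9,
    6, 5, 21, 19, 20, 9, 8, 7, 22, 12, 11, 10, 9, 2, 13, 16, 1, 14, 5, 21, 19, 18, 23, 12, 15, 4, 17, 18, 23, 12, 22,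
    16]
  off := [(0, 0), (0, 0), (0, 0), (0, 0), (0, 0), (0, 0), (0, 0), (0, 0), (0, 0), (0, 0), (0, 0), (0, 0), (0, 0), (0,
    0), (0, 0), (0, 0), (0, 0), (0, 0), (0, 0), (0, 0), (-1, 0), (-1, 0), (0, 0), (0, 0), (0, 0), (0, 0), (0, 0), (0,
    0), (0, 0), (0, 0), (0, 0), (0, -1), (0, 0), (0, 0), (0, 0), (0, 1), (0, 1), (0, 0), (0, 0), (0, 0), (0, 0), (0,
    0), (0, 0), (0, 0), (0, 0), (0, 1), (0, 1), (0, 1), (0, 0), (0, 0), (-1, 0), (-1, 0), (-1, 1), (-1, 1), (0, 0),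
    (0, 0), (0, 0), (-1, 0), (-1, 0), (-1, 0), (0, -1), (0, -1), (0, -1), (0, 0)]

/-- glued arcs and equations -/
def tord8r_58 : TorT :=
  ⟨[(0, 2, false), (0, 5, true), (1, 1, true), (1, 2, false), (1, 3, false), (1, 3, true), (2, 2, true), (2, 3,
    false), (3, 5, false), (4, 4, true), (4, 6, false), (4, 7, false), (6, 7, true)],
    [([0, 0, 0, 0, 0, 0, 0, 3], 2), ([0, 0, 0, 0, 1, 0, 1, 0], 2), ([0, 0, 0, 1, 1, 1, 0, 0], 2), ([0, 0, 1, 1, 0, 0,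
    0, 0], 2), ([0, 1, 0, 0, 1, 1, 0, 1], 2), ([0, 1, 0, 1, 0, 0, 0, 0], 2), ([0, 1, 1, 0, 1, 1, 0, 0], 2), ([1, 0,
    0, 0, 0, 0, 1, 0], 2), ([1, 1, 1, 0, 0, 1, 0, 0], 2)]⟩

theorem tord8r_58_ok : tord8r_58.OK 8 := TT.leaf_ok (T := ttd8r_58) (by decide +kernel)

/-- the torus -/
def ttd8r_59 : TT where
  k := 8
  rf := [false, false, true, false, true, false, true, true]
  tau := [8, 20, 24, 31, 14, 13, 12, 35, 0, 36, 40, 47, 6, 5, 4, 19, 50, 29, 30, 15, 1, 25, 26, 51, 2, 21, 22, 63,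
    49, 17, 18, 3, 58, 45, 46, 7, 9, 41, 42, 59, 10, 37, 38, 55, 57, 33, 34, 11, 56, 28, 16, 23, 62, 61, 60, 43, 48,
    44, 32, 39, 54, 53, 52, 27]
  par := [0, 0, 1, 2, 7, 10, 16, 27]
  stars := [[0, 36, 9], [1, 8, 20], [2, 21, 25], [3, 24], [4, 31, 19, 15], [5, 14], [6, 13], [7, 12, 47, 35], [10,
    37, 41], [11, 40], [16, 51], [17, 29, 50], [18, 30], [22, 26], [23, 52, 63, 27], [28, 56, 49], [32, 59], [33, 45,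
    58], [34, 46], [38, 42], [39, 60, 55, 43], [44, 48, 57], [53, 62], [54, 61]]
  word := [[], [], [], [], [0], [0], [0], [], [], [2, 0, 3, 1], [], [], [1], [1], [1], [], [], [1], [1], [], [], [],
    [], [], [], [], [], [], [0], [0], [0], [], [0, 2], [0], [0], [], [0, 2, 1, 3], [0, 2, 1, 3], [0, 2, 1, 3], [0,
    2], [], [2, 0, 3, 1], [2, 0, 3, 1], [2, 0], [2], [1], [1], [], [1], [1], [], [], [], [], [], [1, 3], [0], [3],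
    [3, 1], [3, 1], [], [], [], []]
  rank := [0, 0, 0, 1, 0, 1, 2, 0, 0, 9, 0, 1, 2, 1, 0, 1, 0, 3, 2, 1, 0, 1, 2, 1, 0, 1, 2, 0, 4, 3, 2, 1, 5, 4, 3,
    0, 9, 8, 7, 6, 0, 8, 7, 6, 0, 4, 3, 1, 5, 4, 0, 1, 3, 4, 5, 6, 5, 0, 5, 6, 5, 4, 3, 0]
  just := [0, 0, 0, 3, 0, 5, 6, 0, 0, 8, 0, 9, 6, 5, 0, 1, 0, 12, 4, 1, 0, 2, 13, 10, 0, 2, 13, 0, 11, 12, 4, 3, 17,
    18, 7, 0, 8, 19, 20, 16, 0, 19, 20, 21, 0, 18, 7, 9, 15, 11, 0, 10, 14, 22, 23, 21, 15, 0, 17, 16, 23, 22, 14, 0]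
  gA := 4
  gB := 44
  fin := 0
  sid := [0, 1, 2, 3, 4, 5, 6, 7, 1, 0, 8, 9, 7, 6, 5, 4, 10, 11, 12, 4, 1, 2, 13, 14, 3, 2, 13, 14, 15, 11, 12, 4,
    16, 17, 18, 7, 0, 8, 19, 20, 9, 8, 19, 20, 21, 17, 18, 7, 21, 15, 11, 10, 14, 22, 23, 20, 15, 21, 17, 16, 20, 23,
    22, 14]
  off := [(0, 0), (0, 0), (0, 0), (0, 0), (0, 0), (0, 0), (0, 0), (0, 0), (0, 0), (0, 0), (0, 0), (0, 0), (-1, 0),
    (-1, 0), (-1, 0), (-1, 0), (0, 0), (0, 0), (0, 0), (-1, 0), (0, 0), (0, 0), (0, 0), (0, 0), (0, 0), (0, 0), (0,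
    0), (0, 0), (0, 0), (1, 0), (1, 0), (0, 0), (0, 0), (0, 0), (0, 0), (0, 0), (0, 0), (0, 0), (0, 0), (0, 0), (0,
    0), (0, 0), (0, 0), (0, 0), (0, 0), (-1, 0), (-1, 0), (-1, 0), (-1, -1), (-1, 0), (0, 0), (0, 0), (0, 0), (0, 0),
    (0, 0), (-1, -1), (0, 0), (0, -1), (-1, -1), (-1, -1), (-1, -1), (0, 0), (0, 0), (0, 0)]

/-- glued arcs and equations -/
def tord8r_59 : TorT :=
  ⟨[(0, 0, true), (0, 2, true), (1, 4, false), (1, 5, false), (2, 6, false), (3, 7, false), (3, 7, true), (4, 6,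
    true), (5, 5, true)],
    [([0, 0, 0, 0, 0, 1, 1, 0], 2), ([0, 0, 0, 1, 1, 0, 0, 2], 2), ([0, 0, 1, 0, 0, 0, 1, 0], 2), ([0, 1, 1, 0, 0, 1,
    0, 0], 2), ([1, 0, 0, 1, 0, 0, 0, 0], 2), ([1, 1, 0, 0, 1, 0, 0, 0], 2)]⟩

theorem tord8r_59_ok : tord8r_59.OK 8 := TT.leaf_ok (T := ttd8r_59) (by decide +kernel)

/-- the torus -/
def ttd8r_60 : TT where
  k := 4
  rf := [false, false, false, false]
  tau := [10, 9, 8, 23, 22, 17, 16, 15, 2, 1, 0, 31, 30, 25, 24, 7, 6, 5, 21, 27, 28, 18, 4, 3, 14, 13, 29, 19, 20,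
    26, 12, 11]
  par := [0, 0, 3, 11]
  stars := [[0, 15, 24, 11], [1, 10], [2, 9], [3, 8, 7, 16], [4, 23], [5, 22, 18], [6, 17], [12, 31], [13, 30, 26],
    [14, 25], [19, 21, 28], [20, 27, 29]]
  word := [[], [], [], [], [], [2, 1], [2, 1], [2, 1], [], [], [], [], [], [3, 0], [3, 0], [0, 3], [0, 3], [0, 3],
    [0, 3], [0], [2], [2, 1], [], [], [1, 2], [1, 2], [1, 2], [1], [3], [3, 0], [], []]
  rank := [0, 1, 2, 0, 1, 2, 3, 4, 2, 1, 0, 0, 1, 2, 3, 4, 3, 2, 1, 0, 0, 1, 1, 0, 3, 2, 1, 0, 0, 1, 1, 0]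
  just := [0, 1, 2, 0, 4, 5, 6, 3, 2, 1, 0, 0, 7, 8, 9, 3, 6, 5, 10, 0, 0, 10, 4, 0, 9, 8, 11, 0, 0, 11, 7, 0]
  gA := 19
  gB := 20
  fin := 0
  sid := [0, 1, 2, 3, 4, 5, 6, 3, 3, 2, 1, 0, 7, 8, 9, 0, 3, 6, 5, 10, 11, 10, 5, 4, 0, 9, 8, 11, 10, 11, 8, 7]
  off := [(0, 0), (0, 0), (0, 0), (0, 0), (0, 0), (0, 0), (0, 0), (-1, 1), (0, 0), (0, 0), (0, 0), (0, 0), (0, 0),
    (0, 0), (0, 0), (1, -1), (0, 0), (1, -1), (1, -1), (0, 0), (0, 0), (-1, 1), (0, 0), (0, 0), (0, 0), (-1, 1), (-1,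
    1), (-1, 0), (-1, 0), (0, -1), (0, 0), (0, 0)]

/-- glued arcs and equations -/
def tord8r_60 : TorT :=
  ⟨[(0, 2, true), (0, 6, true), (1, 1, true), (1, 5, true), (2, 5, true), (3, 3, true), (3, 7, true), (4, 4, true),
    (4, 6, true), (7, 7, true)],
    [([0, 0, 0, 0, 1, 0, 0, 1], 2), ([0, 0, 0, 1, 1, 1, 0, 0], 2), ([0, 0, 1, 0, 0, 1, 1, 0], 2), ([0, 1, 0, 0, 0, 0,
    1, 0], 2), ([0, 1, 1, 0, 0, 0, 0, 0], 2), ([2, 0, 0, 1, 0, 0, 0, 1], 2)]⟩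

theorem tord8r_60_ok : tord8r_60.OK 8 := TT.leaf_ok (T := ttd8r_60) (by decide +kernel)

/-- the torus -/
def ttd8r_61 : TT where
  k := 4
  rf := [false, false, false, false]
  tau := [10, 9, 8, 22, 21, 16, 23, 15, 2, 1, 0, 30, 29, 24, 31, 7, 5, 20, 26, 27, 17, 4, 3, 6, 13, 28, 18, 19, 25,
    12, 11, 14]
  par := [0, 0, 3, 11]
  stars := [[0, 15, 31, 11], [1, 10], [2, 9], [3, 8, 7, 23], [4, 22], [5, 21, 17], [6, 16], [12, 30], [13, 29, 25],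
    [14, 24], [18, 20, 27], [19, 26, 28]]
  word := [[], [], [], [], [], [2, 1], [2, 1], [2, 1], [], [], [], [], [], [3, 0], [3, 0], [0, 3], [0, 3], [0, 3],
    [0], [2], [2, 1], [], [], [0, 3], [1, 2], [1, 2], [1], [3], [3, 0], [], [], [1, 2]]
  rank := [0, 1, 2, 0, 1, 2, 3, 4, 2, 1, 0, 0, 1, 2, 3, 4, 2, 1, 0, 0, 1, 1, 0, 3, 2, 1, 0, 0, 1, 1, 0, 3]
  just := [0, 1, 2, 0, 4, 5, 6, 3, 2, 1, 0, 0, 7, 8, 9, 3, 5, 10, 0, 0, 10, 4, 0, 6, 8, 11, 0, 0, 11, 7, 0, 9]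
  gA := 18
  gB := 19
  fin := 0
  sid := [0, 1, 2, 3, 4, 5, 6, 3, 3, 2, 1, 0, 7, 8, 9, 0, 6, 5, 10, 11, 10, 5, 4, 3, 9, 8, 11, 10, 11, 8, 7, 0]
  off := [(0, 0), (0, 0), (0, 0), (0, 0), (0, 0), (0, 0), (0, 0), (-1, 1), (0, 0), (0, 0), (0, 0), (0, 0), (0, 0),
    (0, 0), (0, 0), (1, -1), (1, -1), (1, -1), (0, 0), (0, 0), (-1, 1), (0, 0), (0, 0), (0, 0), (-1, 1), (-1, 1),
    (-1, 0), (-1, 0), (0, -1), (0, 0), (0, 0), (0, 0)]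

/-- glued arcs and equations -/
def tord8r_61 : TorT :=
  ⟨[(0, 2, true), (0, 5, true), (1, 1, true), (1, 4, true), (2, 2, true), (3, 3, true), (3, 6, true), (4, 5, true),
    (6, 7, true), (7, 7, true)],
    [([0, 0, 0, 0, 1, 0, 1, 0], 2), ([0, 0, 1, 1, 1, 0, 0, 0], 2), ([0, 1, 0, 0, 0, 2, 0, 0], 2), ([0, 1, 1, 0, 0, 0,
    0, 0], 2), ([1, 0, 0, 0, 0, 0, 1, 0], 2), ([1, 0, 0, 1, 0, 0, 0, 2], 2)]⟩

theorem tord8r_61_ok : tord8r_61.OK 8 := TT.leaf_ok (T := ttd8r_61) (by decide +kernel)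

/-- the torus -/
def ttd8r_62 : TT where
  k := 8
  rf := [false, false, false, false, false, false, false, false]
  tau := [8, 21, 20, 30, 29, 36, 35, 46, 0, 45, 44, 54, 53, 60, 59, 22, 42, 41, 40, 31, 2, 1, 15, 39, 50, 49, 48, 38,
    37, 4, 3, 19, 58, 57, 56, 6, 5, 28, 27, 23, 18, 17, 16, 55, 10, 9, 7, 63, 26, 25, 24, 62, 61, 12, 11, 43, 34, 33,
    32, 14, 13, 52, 51, 47]
  par := [0, 0, 1, 3, 5, 7, 11, 13]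
  stars := [[0, 46, 9], [1, 8, 22], [2, 21], [3, 20, 31], [4, 30], [5, 29, 37], [6, 36], [7, 35, 56, 47], [10, 45],
    [11, 44, 55], [12, 54], [13, 53, 61], [14, 60], [15, 59, 32, 23], [16, 39, 27, 48, 43], [17, 42], [18, 41], [19,
    40, 63, 51, 24], [25, 50], [26, 49], [28, 38], [33, 58], [34, 57], [52, 62]]
  word := [[], [], [], [], [], [], [], [], [], [1, 2, 0, 3], [1, 2, 0, 3], [], [], [], [], [], [0, 3], [0, 3], [0,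
    3], [], [], [], [], [3], [0], [0], [0], [], [], [], [], [], [2], [2], [2], [], [], [], [], [2], [2, 1], [2, 1],
    [2, 1], [2, 1, 3, 0], [2, 1, 3, 0], [2, 1, 3, 0], [], [2], [1], [1], [1], [], [], [], [], [1, 2, 0, 3], [3], [3],
    [3], [], [], [], [], [3]]
  rank := [0, 0, 1, 0, 1, 0, 1, 0, 0, 9, 8, 0, 1, 0, 1, 1, 6, 5, 4, 2, 1, 0, 1, 3, 0, 1, 2, 3, 2, 1, 0, 2, 2, 1, 0,
    1, 0, 2, 3, 3, 4, 5, 6, 7, 8, 9, 0, 2, 2, 1, 0, 3, 2, 1, 0, 7, 0, 1, 2, 1, 0, 2, 3, 2]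
  just := [0, 0, 2, 0, 4, 0, 6, 0, 0, 8, 9, 0, 10, 0, 12, 1, 15, 16, 17, 3, 2, 0, 1, 13, 0, 18, 19, 20, 5, 4, 0, 3,
    21, 22, 0, 6, 0, 5, 20, 13, 17, 16, 15, 14, 9, 8, 0, 7, 19, 18, 0, 23, 11, 10, 0, 14, 0, 22, 21, 12, 0, 11, 23, 7]
  gA := 24
  gB := 34
  fin := 0
  sid := [0, 1, 2, 3, 4, 5, 6, 7, 1, 0, 8, 9, 10, 11, 12, 13, 14, 15, 16, 17, 3, 2, 1, 13, 17, 18, 19, 14, 20, 5, 4,
    3, 13, 21, 22, 7, 6, 5, 20, 14, 17, 16, 15, 14, 9, 8, 0, 7, 14, 19, 18, 17, 23, 11, 10, 9, 7, 22, 21, 13, 12, 11,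
    23, 17]
  off := [(0, 0), (0, 0), (0, 0), (0, 0), (0, 0), (0, 0), (0, 0), (0, 0), (0, 0), (0, 0), (0, 0), (0, 0), (0, 0), (0,
    0), (0, 0), (0, 0), (0, 0), (0, 0), (0, 0), (0, 0), (0, 0), (0, 0), (0, 0), (0, 0), (0, 0), (0, 0), (0, 0), (0,
    1), (0, 0), (0, 0), (0, 0), (0, 0), (0, 1), (0, 0), (0, 0), (0, 0), (0, 0), (0, 0), (0, 0), (0, 1), (-1, 1), (-1,
    1), (-1, 1), (-1, 1), (0, 0), (0, 0), (0, 0), (0, 0), (-1, 1), (-1, 0), (-1, 0), (-1, 0), (0, 0), (0, 0), (0, 0),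
    (0, 0), (0, -1), (0, -1), (0, -1), (0, 0), (0, 0), (0, 0), (0, 0), (-1, 0)]

/-- glued arcs and equations -/
def tord8r_62 : TorT :=
  ⟨[(0, 0, true), (0, 2, true), (1, 1, true), (1, 5, true), (2, 4, true), (3, 6, true), (3, 7, true), (4, 5, true),
    (6, 7, true), (7, 7, true)],
    [([0, 0, 0, 0, 0, 3, 0, 0], 2), ([0, 0, 0, 0, 1, 0, 1, 0], 2), ([0, 0, 0, 1, 1, 0, 0, 1], 2), ([0, 0, 1, 0, 0, 1,
    0, 0], 2), ([0, 1, 1, 0, 0, 0, 0, 0], 2), ([1, 0, 0, 1, 0, 0, 0, 2], 2), ([1, 1, 0, 0, 0, 0, 1, 0], 2), ([2, 0,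
    0, 2, 0, 0, 0, 1], 2)]⟩

theorem tord8r_62_ok : tord8r_62.OK 8 := TT.leaf_ok (T := ttd8r_62) (by decide +kernel)

/-- the torus -/
def ttd8r_63 : TT where
  k := 12
  rf := [false, false, false, false, false, false, false, false, false, false, false, false]
  tau := [8, 21, 20, 30, 29, 36, 35, 46, 0, 45, 44, 54, 53, 60, 59, 22, 34, 33, 32, 31, 2, 1, 15, 47, 66, 65, 64, 78,
    77, 4, 3, 19, 18, 17, 16, 6, 5, 76, 75, 67, 58, 57, 56, 55, 10, 9, 7, 23, 82, 81, 80, 94, 93, 12, 11, 43, 42, 41,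
    40, 14, 13, 92, 91, 83, 26, 25, 24, 39, 74, 73, 95, 87, 88, 69, 68, 38, 37, 28, 27, 86, 50, 49, 48, 63, 90, 89,
    79, 71, 72, 85, 84, 62, 61, 52, 51, 70]
  par := [0, 0, 1, 3, 5, 7, 11, 13, 24, 27, 48, 51]
  stars := [[0, 46, 9], [1, 8, 22], [2, 21], [3, 20, 31], [4, 30], [5, 29, 77, 37], [6, 36], [7, 35, 16, 47], [10,
    45], [11, 44, 55], [12, 54], [13, 53, 93, 61], [14, 60], [15, 59, 40, 23], [17, 34], [18, 33], [19, 32, 67, 24],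
    [25, 66], [26, 65], [27, 64, 87, 79], [28, 78], [38, 76], [39, 75, 68], [41, 58], [42, 57], [43, 56, 83, 48],
    [49, 82], [50, 81], [51, 80, 71, 95], [52, 94], [62, 92], [63, 91, 84], [69, 74], [70, 73, 88], [72, 86, 89],
    [85, 90]]
  word := [[], [], [], [], [], [], [], [], [], [3, 0, 2, 1], [3, 0, 2, 1], [], [], [], [], [], [1], [1], [1], [], [],
    [], [], [1], [], [], [], [], [], [], [], [], [0], [0], [0], [], [], [], [], [0], [0], [0], [0], [0, 3, 1, 2], [0,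
    3, 1, 2], [0, 3, 1, 2], [], [0], [], [], [], [], [], [], [], [3, 0, 2, 1], [1], [1], [1], [], [], [], [], [3, 1,
    2], [], [], [], [1], [1], [1], [2], [2], [0, 2], [0], [0], [], [], [], [], [2], [], [], [], [3, 0, 2], [3, 0, 2],
    [3, 0, 2], [3], [3], [3, 1], [3, 1, 2], [3, 1, 2], [], [], [], [], [3]]
  rank := [0, 0, 1, 0, 1, 0, 1, 0, 0, 12, 11, 0, 1, 0, 1, 1, 5, 4, 3, 2, 1, 0, 1, 6, 0, 1, 2, 0, 1, 1, 0, 2, 3, 4, 5,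
    1, 0, 2, 3, 0, 7, 8, 9, 10, 11, 12, 0, 6, 0, 1, 2, 0, 1, 1, 0, 10, 9, 8, 7, 1, 0, 2, 3, 9, 2, 1, 0, 0, 4, 5, 3,
    0, 6, 5, 4, 3, 2, 1, 0, 3, 2, 1, 0, 9, 8, 7, 3, 0, 6, 7, 8, 3, 2, 1, 0, 3]
  just := [0, 0, 2, 0, 4, 0, 6, 0, 0, 8, 9, 0, 10, 0, 12, 1, 14, 15, 16, 3, 2, 0, 1, 7, 0, 17, 18, 0, 20, 4, 0, 3,
    16, 15, 14, 6, 0, 5, 21, 0, 13, 23, 24, 25, 9, 8, 0, 7, 0, 26, 27, 0, 29, 10, 0, 25, 24, 23, 13, 12, 0, 11, 30,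
    31, 18, 17, 0, 0, 22, 32, 28, 0, 33, 32, 22, 21, 5, 20, 0, 19, 27, 26, 0, 31, 35, 34, 19, 0, 33, 34, 35, 30, 11,
    29, 0, 28]
  gA := 39
  gB := 71
  fin := 0
  sid := [0, 1, 2, 3, 4, 5, 6, 7, 1, 0, 8, 9, 10, 11, 12, 13, 7, 14, 15, 16, 3, 2, 1, 13, 16, 17, 18, 19, 20, 5, 4,
    3, 16, 15, 14, 7, 6, 5, 21, 22, 13, 23, 24, 25, 9, 8, 0, 7, 25, 26, 27, 28, 29, 11, 10, 9, 25, 24, 23, 13, 12,
    11, 30, 31, 19, 18, 17, 16, 22, 32, 33, 28, 34, 33, 32, 22, 21, 5, 20, 19, 28, 27, 26, 25, 31, 35, 34, 19, 33,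
    34, 35, 31, 30, 11, 29, 28]
  off := [(0, 0), (0, 0), (0, 0), (0, 0), (0, 0), (0, 0), (0, 0), (0, 0), (0, 0), (0, 0), (0, 0), (0, 0), (0, 0), (0,
    0), (0, 0), (0, 0), (-1, 0), (0, 0), (0, 0), (0, 0), (0, 0), (0, 0), (0, 0), (0, 0), (0, 0), (0, 0), (0, 0), (0,
    0), (0, 0), (0, 0), (0, 0), (0, 0), (1, 0), (1, 0), (1, 0), (0, 0), (0, 0), (0, 0), (0, 0), (0, 0), (1, 0), (0,
    0), (0, 0), (0, 0), (0, 0), (0, 0), (0, 0), (0, 0), (0, 0), (0, 0), (0, 0), (0, 0), (0, 0), (0, 0), (0, 0), (0,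
    0), (-1, 0), (-1, 0), (-1, 0), (0, 0), (0, 0), (0, 0), (0, 0), (0, 0), (0, 0), (0, 0), (0, 0), (0, 0), (-1, 0),
    (0, 0), (0, 0), (0, 1), (0, 0), (1, 0), (1, 0), (0, 0), (0, 0), (0, 0), (0, 0), (0, 0), (0, 0), (0, 0), (0, 0),
    (0, 0), (1, 0), (0, 0), (0, -1), (0, -1), (0, -1), (-1, -1), (-1, 0), (0, 0), (0, 0), (0, 0), (0, 0), (0, 0)]

/-- glued arcs and equations -/
def tord8r_63 : TorT :=
  ⟨[(0, 0, true), (0, 2, true), (1, 1, true), (1, 5, true), (2, 4, true), (3, 6, true), (3, 7, true), (4, 5, true),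
    (6, 7, true), (7, 7, true)],
    [([0, 0, 0, 0, 0, 4, 0, 0], 2), ([0, 0, 0, 0, 1, 0, 1, 0], 2), ([0, 0, 0, 1, 1, 0, 0, 1], 2), ([0, 0, 1, 0, 0, 1,
    0, 0], 2), ([0, 1, 1, 0, 0, 0, 0, 0], 2), ([1, 0, 0, 1, 0, 0, 0, 2], 2), ([1, 1, 0, 0, 0, 0, 1, 0], 2), ([2, 0,
    0, 2, 0, 0, 0, 0], 2)]⟩

theorem tord8r_63_ok : tord8r_63.OK 8 := TT.leaf_ok (T := ttd8r_63) (by decide +kernel)

/-- the torus -/
def ttd8r_64 : TT where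
  k := 2
  rf := [false, false]
  tau := [10, 13, 12, 14, 9, 8, 15, 11, 5, 4, 0, 7, 2, 1, 3, 6]
  par := [0, 0]
  stars := [[0, 11], [1, 10, 4, 14], [2, 13], [3, 12, 7, 15], [5, 9], [6, 8]]
  word := [[], [0], [0], [2, 0], [2], [2], [2], [2, 1, 3, 0], [3], [3], [], [1, 2, 0, 3], [1], [1], [1, 3], [3]]
  rank := [0, 0, 1, 2, 1, 0, 1, 3, 0, 1, 0, 3, 1, 0, 2, 1]
  just := [0, 0, 2, 1, 4, 0, 5, 3, 0, 4, 0, 3, 2, 0, 1, 5]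
  gA := 1
  gB := 5
  fin := 0
  sid := [0, 1, 2, 3, 1, 4, 5, 3, 5, 4, 1, 0, 3, 2, 1, 3]
  off := [(0, 0), (0, 0), (0, 0), (0, 0), (0, 1), (0, 0), (0, 0), (-1, 0), (0, -1), (0, -1), (0, 0), (0, 0), (-1, 0),
    (-1, 0), (-1, 0), (-1, -1)]

/-- glued arcs and equations -/
def tord8r_64 : TorT :=
  ⟨[(0, 2, true), (0, 5, true), (1, 4, true), (1, 5, true), (2, 4, true), (3, 6, true), (3, 7, true), (6, 7, true)],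
    [([0, 0, 0, 1, 1, 0, 0, 2], 2), ([0, 0, 1, 0, 0, 1, 0, 0], 2), ([0, 1, 0, 0, 0, 1, 0, 0], 2), ([0, 1, 1, 0, 1, 0,
    1, 0], 2), ([1, 0, 0, 0, 0, 0, 1, 0], 2), ([1, 0, 0, 1, 0, 0, 0, 0], 2)]⟩

theorem tord8r_64_ok : tord8r_64.OK 8 := TT.leaf_ok (T := ttd8r_64) (by decide +kernel)

/-- the torus -/
def ttd8r_65 : TT where
  k := 8
  rf := [false, false, false, false, false, false, false, false]
  tau := [10, 9, 8, 22, 21, 28, 27, 35, 2, 1, 0, 46, 45, 52, 51, 59, 42, 41, 40, 30, 29, 4, 3, 39, 61, 60, 50, 6, 5,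
    20, 19, 62, 58, 57, 56, 7, 49, 48, 55, 23, 18, 17, 16, 54, 53, 12, 11, 63, 37, 36, 26, 14, 13, 44, 43, 38, 34,
    33, 32, 15, 25, 24, 31, 47]
  par := [0, 0, 3, 5, 7, 11, 13, 15]
  stars := [[0, 35, 56, 47, 11], [1, 10], [2, 9], [3, 8, 59, 32, 23], [4, 22], [5, 21, 29], [6, 28], [7, 27, 50, 36],
    [12, 46], [13, 45, 53], [14, 52], [15, 51, 26, 60], [16, 39, 55, 43], [17, 42], [18, 41], [19, 40, 63, 31], [20,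
    30], [24, 62], [25, 61], [33, 58], [34, 57], [37, 49], [38, 48], [44, 54]]
  word := [[], [], [], [], [], [], [], [], [], [], [], [], [], [], [], [], [0], [0], [0], [], [], [], [], [0, 3],
    [2], [2], [2], [], [], [], [], [2], [2, 1], [2, 1], [2, 1], [], [2], [2], [2], [2, 1], [1], [1], [1], [], [], [],
    [], [1, 2], [3], [3], [3], [], [], [], [], [3], [0, 3], [0, 3], [0, 3], [], [3], [3], [3], [3, 0]]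
  rank := [0, 1, 2, 0, 1, 0, 1, 0, 2, 1, 0, 0, 1, 0, 1, 0, 0, 1, 2, 3, 2, 1, 0, 4, 4, 3, 2, 1, 0, 2, 3, 5, 5, 6, 7,
    0, 0, 1, 2, 4, 2, 1, 0, 3, 2, 1, 0, 6, 1, 0, 2, 1, 0, 2, 3, 2, 7, 6, 5, 0, 3, 4, 5, 6]
  just := [0, 1, 2, 0, 4, 0, 6, 0, 2, 1, 0, 0, 8, 0, 10, 0, 0, 13, 14, 16, 5, 4, 0, 12, 18, 11, 7, 6, 0, 5, 16, 17,
    3, 19, 20, 0, 0, 21, 22, 12, 14, 13, 0, 23, 9, 8, 0, 15, 21, 0, 7, 10, 0, 9, 23, 22, 20, 19, 3, 0, 11, 18, 17, 15]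
  gA := 16
  gB := 36
  fin := 0
  sid := [0, 1, 2, 3, 4, 5, 6, 7, 3, 2, 1, 0, 8, 9, 10, 11, 12, 13, 14, 15, 16, 5, 4, 3, 17, 18, 11, 7, 6, 5, 16, 15,
    3, 19, 20, 0, 7, 21, 22, 12, 15, 14, 13, 12, 23, 9, 8, 0, 22, 21, 7, 11, 10, 9, 23, 12, 0, 20, 19, 3, 11, 18, 17,
    15]
  off := [(0, 0), (0, 0), (0, 0), (0, 0), (0, 0), (0, 0), (0, 0), (0, 0), (0, 0), (0, 0), (0, 0), (0, 0), (0, 0), (0,
    0), (0, 0), (0, 0), (0, 0), (0, 0), (0, 0), (0, 0), (0, 0), (0, 0), (0, 0), (0, 0), (0, 0), (0, 0), (0, 1), (0,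
    0), (0, 0), (0, 0), (0, 0), (0, 0), (-1, 1), (0, 0), (0, 0), (0, 0), (0, 0), (0, 0), (0, 0), (-1, 1), (-1, 0),
    (-1, 0), (-1, 0), (-1, 0), (0, 0), (0, 0), (0, 0), (0, 0), (0, -1), (0, -1), (0, -1), (0, 0), (0, 0), (0, 0), (0,
    0), (-1, 0), (1, -1), (1, -1), (1, -1), (0, 0), (0, 0), (0, -1), (0, -1), (0, -1)]

/-- glued arcs and equations -/
def tord8r_65 : TorT :=
  ⟨[(0, 2, true), (0, 5, true), (1, 1, true), (1, 4, true), (2, 2, true), (3, 6, true), (3, 7, true), (4, 5, true),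
    (6, 7, true), (7, 7, true)],
    [([0, 0, 0, 0, 0, 3, 0, 0], 2), ([0, 0, 0, 0, 1, 0, 1, 0], 2), ([0, 0, 1, 1, 1, 0, 0, 1], 2), ([0, 1, 0, 0, 0, 1,
    0, 0], 2), ([0, 1, 1, 0, 0, 0, 0, 0], 2), ([1, 0, 0, 0, 0, 0, 1, 0], 2), ([1, 0, 0, 1, 0, 0, 0, 2], 2), ([2, 0,
    0, 2, 0, 0, 0, 1], 2)]⟩

theorem tord8r_65_ok : tord8r_65.OK 8 := TT.leaf_ok (T := ttd8r_65) (by decide +kernel)

end Pool.Agent.Lib_MP_fa6e45
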