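import Pool.Agent.Lib_MP_fa6e45.CT5

/-!
MP_fa6e45_co, stage 9: straight-side patterns with `8` sides, tables of tori (generated by a program).
-/

namespace Pool.Agent.Lib_MP_fa6e45

/-- the torus -/
def ttd8r_66 : TT where
  k := 12
  rf := [false, false, false, false, false, false, false, false, false, false, false, false]
  tau := [10, 9, 8, 22, 21, 28, 27, 35, 2, 1, 0, 47, 49, 48, 55, 63, 61, 60, 50, 46, 45, 4, 3, 62, 69, 68, 74, 6, 5,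
    44, 43, 70, 42, 41, 40, 7, 73, 72, 79, 71, 34, 33, 32, 30, 29, 20, 19, 11, 13, 12, 18, 86, 85, 92, 91, 14, 90,
    89, 88, 87, 17, 16, 23, 15, 82, 81, 80, 95, 25, 24, 31, 39, 37, 36, 26, 94, 93, 84, 83, 38, 66, 65, 64, 78, 77,
    52, 51, 59, 58, 57, 56, 54, 53, 76, 75, 67]
  par := [0, 0, 3, 5, 7, 11, 12, 15, 24, 26, 51, 53]
  stars := [[0, 35, 40, 11], [1, 10], [2, 9], [3, 8, 63, 23], [4, 22], [5, 21, 45, 29], [6, 28], [7, 27, 74, 36],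
    [12, 47, 19, 50], [13, 49], [14, 48], [15, 55, 91, 56], [16, 62], [17, 61], [18, 60, 87, 51], [20, 46], [24, 70],
    [25, 69], [26, 68, 95, 75], [30, 44], [31, 43, 32, 71], [33, 42], [34, 41], [37, 73], [38, 72], [39, 79, 83, 64],
    [52, 86], [53, 85, 77, 93], [54, 92], [57, 90], [58, 89], [59, 88, 67, 80], [65, 82], [66, 81], [76, 94], [78,
    84]]
  word := [[], [], [], [], [], [], [], [], [], [], [], [], [], [], [], [], [], [], [0], [0], [0], [], [], [], [], [],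
    [], [], [], [0], [0], [], [2, 1, 3, 0], [2, 1, 3, 0], [2, 1, 3, 0], [], [], [], [], [2, 1, 3], [1, 2, 0, 3], [1,
    2, 0, 3], [1, 2, 0, 3], [1], [1], [1], [1], [], [], [], [1], [], [], [], [], [], [], [], [], [0], [], [], [], [],
    [2, 0], [2, 0], [2, 0], [2], [], [], [], [2, 0, 3], [], [], [], [2], [2], [2], [2], [], [1, 3], [1, 3], [1, 3],
    [3], [3], [], [], [1], [], [], [], [], [], [3], [3], [3]]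
  rank := [0, 1, 2, 0, 1, 0, 1, 0, 2, 1, 0, 0, 0, 1, 2, 0, 4, 5, 6, 7, 8, 1, 0, 3, 0, 1, 0, 1, 0, 9, 10, 1, 11, 12,
    13, 0, 2, 3, 4, 9, 13, 12, 11, 10, 9, 8, 7, 0, 1, 0, 6, 0, 1, 0, 1, 2, 3, 4, 5, 0, 5, 4, 3, 0, 8, 7, 6, 2, 1, 0,
    1, 9, 3, 2, 0, 0, 1, 2, 3, 4, 6, 7, 8, 3, 2, 1, 0, 0, 5, 4, 3, 1, 0, 1, 0, 2]
  just := [0, 1, 2, 0, 4, 0, 6, 0, 2, 1, 0, 0, 0, 9, 10, 0, 12, 13, 14, 8, 15, 4, 0, 3, 0, 17, 0, 6, 0, 5, 19, 16,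
    20, 21, 22, 0, 7, 23, 24, 25, 22, 21, 20, 19, 5, 15, 8, 0, 9, 0, 14, 0, 26, 0, 28, 10, 11, 29, 30, 0, 13, 12, 3,
    0, 32, 33, 31, 18, 17, 0, 16, 25, 23, 7, 0, 0, 34, 27, 35, 24, 31, 33, 32, 35, 27, 26, 0, 0, 30, 29, 11, 28, 0,
    34, 0, 18]
  gA := 59
  gB := 75
  fin := 0
  sid := [0, 1, 2, 3, 4, 5, 6, 7, 3, 2, 1, 0, 8, 9, 10, 11, 12, 13, 14, 8, 15, 5, 4, 3, 16, 17, 18, 7, 6, 5, 19, 20,
    20, 21, 22, 0, 7, 23, 24, 25, 0, 22, 21, 20, 19, 5, 15, 8, 10, 9, 8, 14, 26, 27, 28, 11, 11, 29, 30, 31, 14, 13,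
    12, 3, 25, 32, 33, 31, 18, 17, 16, 20, 24, 23, 7, 18, 34, 27, 35, 25, 31, 33, 32, 25, 35, 27, 26, 14, 31, 30, 29,
    11, 28, 27, 34, 18]
  off := [(0, 0), (0, 0), (0, 0), (0, 0), (0, 0), (0, 0), (0, 0), (0, 0), (0, 0), (0, 0), (0, 0), (0, 0), (0, 0), (0,
    0), (0, 0), (0, 0), (0, 0), (0, 0), (0, 0), (1, 0), (0, 0), (0, 0), (0, 0), (0, 0), (0, 0), (0, 0), (0, 0), (0,
    0), (0, 0), (0, 0), (0, 0), (0, 0), (-1, 0), (0, 0), (0, 0), (0, 0), (0, 0), (0, 0), (0, 0), (0, 0), (0, 0), (0,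
    0), (0, 0), (-1, 0), (-1, 0), (-1, 0), (-1, 0), (0, 0), (0, 0), (0, 0), (0, 0), (-1, 0), (0, 0), (0, 0), (0, 0),
    (0, 0), (0, 0), (0, 0), (0, 0), (0, 0), (0, 0), (0, 0), (0, 0), (0, 0), (1, 0), (0, 0), (0, 0), (0, 1), (0, 0),
    (0, 0), (0, 0), (0, 0), (0, 0), (0, 0), (0, 0), (0, 0), (0, 0), (0, 1), (0, 0), (0, 0), (-1, 0), (-1, -1), (-1,
    -1), (0, -1), (0, -1), (0, 0), (0, 0), (-1, 0), (0, 0), (0, 0), (0, 0), (0, 0), (0, 0), (0, 0), (0, -1), (0, -1)]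

/-- glued arcs and equations -/
def tord8r_66 : TorT :=
  ⟨[(0, 2, true), (0, 5, true), (1, 1, true), (1, 4, true), (2, 2, true), (3, 6, true), (3, 7, true), (4, 5, true),
    (6, 7, true), (7, 7, true)],
    [([0, 0, 0, 0, 0, 4, 0, 0], 2), ([0, 0, 0, 0, 1, 0, 1, 0], 2), ([0, 0, 1, 1, 1, 0, 0, 1], 2), ([0, 1, 0, 0, 0, 1,
    0, 0], 2), ([0, 1, 1, 0, 0, 0, 0, 0], 2), ([1, 0, 0, 0, 0, 0, 1, 0], 2), ([1, 0, 0, 1, 0, 0, 0, 2], 2), ([2, 0,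
    0, 2, 0, 0, 0, 0], 2)]⟩

theorem tord8r_66_ok : tord8r_66.OK 8 := TT.leaf_ok (T := ttd8r_66) (by decide +kernel)

/-- the torus -/
def ttd8r_67 : TT where
  k := 4
  rf := [false, false, false, false]
  tau := [8, 21, 12, 11, 10, 28, 27, 30, 0, 29, 4, 3, 2, 20, 19, 22, 26, 25, 24, 14, 13, 1, 15, 31, 18, 17, 16, 6, 5,
    9, 7, 23]
  par := [0, 0, 1, 5]
  stars := [[0, 30, 9], [1, 8, 22], [2, 21, 13], [3, 12], [4, 11], [5, 10, 29], [6, 28], [7, 27, 16, 31], [14, 20],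
    [15, 19, 24, 23], [17, 26], [18, 25]]
  word := [[], [], [0], [0], [0], [], [], [3, 1, 2], [], [1], [1], [1], [1], [1], [1], [], [2], [2], [2], [0], [0],
    [], [], [1, 2], [3], [3], [3], [], [], [0], [3, 0, 2], [3, 0]]
  rank := [0, 0, 0, 1, 2, 0, 1, 4, 0, 3, 2, 1, 0, 1, 2, 1, 2, 1, 0, 2, 1, 0, 1, 3, 0, 1, 2, 1, 0, 3, 4, 3]
  just := [0, 0, 0, 3, 4, 0, 6, 7, 0, 5, 4, 3, 0, 2, 8, 1, 10, 11, 0, 8, 2, 0, 1, 9, 0, 11, 10, 6, 0, 5, 7, 9]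
  gA := 2
  gB := 18
  fin := 0
  sid := [0, 1, 2, 3, 4, 5, 6, 7, 1, 0, 5, 4, 3, 2, 8, 9, 7, 10, 11, 9, 8, 2, 1, 9, 9, 11, 10, 7, 6, 5, 0, 7]
  off := [(0, 0), (0, 0), (0, 0), (0, 0), (0, 0), (0, 0), (0, 0), (0, 0), (0, 0), (0, 0), (-1, 0), (-1, 0), (-1, 0),
    (-1, 0), (0, 0), (0, 0), (0, 1), (0, 0), (0, 0), (1, 0), (1, 0), (0, 0), (0, 0), (0, 0), (1, -1), (0, -1), (0,
    -1), (0, 0), (0, 0), (0, 0), (1, 0), (1, 0)]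

/-- glued arcs and equations -/
def tord8r_67 : TorT :=
  ⟨[(0, 0, true), (0, 2, true), (1, 1, true), (1, 5, true), (2, 4, true), (3, 3, true), (3, 6, true), (4, 5, true),
    (6, 7, true), (7, 7, true)],
    [([0, 0, 0, 0, 1, 0, 1, 0], 2), ([0, 0, 0, 1, 1, 0, 0, 0], 2), ([0, 0, 1, 0, 0, 2, 0, 0], 2), ([0, 1, 1, 0, 0, 0,
    0, 0], 2), ([1, 0, 0, 1, 0, 0, 0, 2], 2), ([1, 1, 0, 0, 0, 0, 1, 0], 2)]⟩

theorem tord8r_67_ok : tord8r_67.OK 8 := TT.leaf_ok (T := ttd8r_67) (by decide +kernel)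

/-- the torus -/
def ttd8r_68 : TT where
  k := 8
  rf := [false, false, false, false, false, false, false, false]
  tau := [9, 20, 26, 35, 17, 44, 43, 51, 21, 0, 50, 31, 58, 40, 47, 22, 45, 4, 34, 27, 1, 8, 15, 46, 49, 36, 2, 19,
    33, 60, 59, 11, 61, 28, 18, 3, 25, 48, 55, 62, 13, 57, 52, 6, 5, 16, 23, 14, 37, 24, 10, 7, 42, 56, 63, 38, 53,
    41, 12, 30, 29, 32, 39, 54]
  par := [0, 0, 1, 2, 3, 5, 7, 12]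
  stars := [[0, 51, 10], [1, 9, 21], [2, 20, 27], [3, 26, 36], [4, 35, 18], [5, 17, 45], [6, 44], [7, 43, 52], [8,
    22], [11, 50, 24], [12, 31, 59], [13, 58, 41], [14, 40], [15, 47, 23], [16, 46], [19, 34, 28], [25, 49, 37], [29,
    33, 61], [30, 60], [32, 62], [38, 48], [39, 55, 63], [42, 57, 53], [54, 56]]
  word := [[], [], [], [], [1], [], [], [], [], [], [3, 1, 2, 0], [3, 1], [], [0], [0], [], [0], [0], [0], [], [],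
    [], [], [0], [2, 0], [], [], [], [0], [0, 2], [0, 2], [0, 2], [2], [1], [1], [], [], [2, 0], [2, 0], [2], [1],
    [1], [], [], [], [1], [1], [1], [1, 3], [1, 3], [1, 3, 0, 2], [], [], [1], [1], [1, 3], [0], [0], [], [3, 1], [3,
    1], [3], [3], [0]]
  rank := [0, 0, 0, 0, 5, 0, 1, 0, 1, 0, 11, 10, 0, 1, 0, 2, 4, 5, 6, 1, 0, 1, 2, 3, 7, 1, 0, 1, 7, 8, 9, 10, 1, 7,
    6, 0, 1, 6, 5, 0, 1, 2, 2, 1, 0, 4, 3, 0, 6, 7, 11, 0, 2, 3, 4, 5, 3, 2, 0, 9, 8, 1, 0, 4]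
  just := [0, 0, 0, 0, 5, 0, 6, 0, 1, 0, 9, 10, 0, 12, 0, 8, 14, 5, 4, 2, 0, 1, 8, 13, 16, 3, 0, 2, 15, 17, 18, 10,
    19, 15, 4, 0, 3, 20, 21, 0, 12, 11, 7, 6, 0, 14, 13, 0, 20, 16, 9, 0, 7, 22, 23, 21, 22, 11, 0, 18, 17, 19, 0, 23]
  gA := 14
  gB := 39
  fin := 0
  sid := [0, 1, 2, 3, 4, 5, 6, 7, 8, 1, 0, 9, 10, 11, 12, 13, 14, 5, 4, 15, 2, 1, 8, 13, 9, 16, 3, 2, 15, 17, 18, 10,
    19, 17, 15, 4, 3, 16, 20, 21, 12, 11, 22, 7, 6, 5, 14, 13, 20, 16, 9, 0, 7, 22, 23, 21, 23, 22, 11, 10, 18, 17,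
    19, 21]
  off := [(0, 0), (0, 0), (0, 0), (0, 0), (0, 0), (0, 0), (0, 0), (0, 0), (0, 0), (0, 0), (0, 0), (0, 0), (0, 0), (0,
    0), (0, 0), (0, 0), (0, 0), (1, 0), (1, 0), (0, 0), (0, 0), (0, 0), (0, 0), (0, 0), (1, 1), (0, 0), (0, 0), (0,
    0), (0, 0), (0, 0), (0, 0), (1, 1), (0, 0), (-1, 0), (-1, 0), (0, 0), (0, 0), (0, 0), (0, 0), (0, 0), (-1, 0),
    (-1, 0), (0, 0), (0, 0), (0, 0), (0, 0), (-1, 0), (-1, 0), (-1, -1), (-1, -1), (0, 0), (0, 0), (0, 0), (0, 0),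
    (0, 0), (-1, -1), (1, 0), (1, 0), (0, 0), (0, 0), (-1, -1), (-1, -1), (0, -1), (0, -1)]

/-- glued arcs and equations -/
def tord8r_68 : TorT :=
  ⟨[(0, 1, true), (0, 5, true), (1, 1, true), (1, 4, true), (2, 2, true), (2, 4, true), (3, 3, true), (3, 6, true),
    (3, 7, true), (4, 5, true), (6, 7, true)],
    [([0, 0, 0, 0, 0, 0, 0, 3], 2), ([0, 0, 0, 0, 1, 0, 1, 0], 2), ([0, 0, 0, 1, 1, 0, 0, 1], 2), ([0, 0, 1, 1, 1, 0,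
    0, 0], 2), ([0, 1, 0, 0, 0, 2, 0, 0], 2), ([0, 1, 1, 0, 0, 1, 0, 0], 2), ([0, 2, 0, 0, 0, 1, 0, 0], 2), ([1, 0,
    0, 0, 0, 0, 1, 0], 2), ([1, 0, 1, 1, 0, 0, 0, 0], 2)]⟩

theorem tord8r_68_ok : tord8r_68.OK 8 := TT.leaf_ok (T := ttd8r_68) (by decide +kernel)

/-- the torus -/
def ttd8r_69 : TT where
  k := 12
  rf := [false, false, false, false, false, false, true, true, true, true, true, true]
  tau := [9, 17, 24, 31, 33, 27, 26, 23, 18, 0, 22, 21, 40, 43, 42, 19, 25, 1, 8, 15, 41, 11, 10, 7, 2, 16, 6, 5, 32,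
    35, 34, 3, 28, 4, 30, 29, 54, 55, 52, 53, 12, 20, 14, 13, 62, 63, 60, 61, 68, 76, 70, 69, 38, 39, 36, 37, 84, 92,
    86, 85, 46, 47, 44, 45, 74, 88, 78, 77, 48, 51, 50, 75, 81, 89, 64, 71, 49, 67, 66, 95, 90, 72, 94, 93, 56, 59,
    58, 91, 65, 73, 80, 87, 57, 83, 82, 79]
  par := [0, 0, 1, 2, 4, 12, 36, 44, 48, 49, 56, 57]
  stars := [[0, 23, 10], [1, 9, 18], [2, 17, 25], [3, 24], [4, 31, 34], [5, 33, 28], [6, 27], [7, 26, 16], [8, 19],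
    [11, 22], [12, 21, 41], [13, 40, 62, 44], [14, 43], [15, 42, 20], [29, 32, 54, 36], [30, 35], [37, 55], [38, 48,
    69, 52], [39, 53], [45, 63], [46, 56, 85, 60], [47, 61], [49, 77, 68], [50, 71, 76], [51, 70], [57, 93, 84], [58,
    87, 92], [59, 86], [64, 75], [65, 89, 74], [66, 79, 88], [67, 78], [72, 82, 95], [73, 90, 81], [80, 91], [83, 94]]
  word := [[], [], [], [], [], [0, 3, 1], [0, 3, 1], [0, 3, 1], [], [], [3], [3], [], [2], [2], [], [], [], [], [],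
    [2], [2], [2], [0, 2, 1], [], [], [0, 2, 1], [0, 2, 1], [0, 2, 1], [], [], [], [0, 3, 1], [], [], [], [], [], [0,
    3, 1], [0, 3, 1], [], [3], [3], [3], [], [], [2], [2], [], [], [0, 2, 1], [0, 2, 1], [0, 2, 1], [0, 2, 1], [],
    [], [], [], [3], [3], [3], [3], [], [], [0, 3, 1], [0], [], [], [], [0, 3, 1], [0, 3, 1], [0, 3, 1], [0], [0, 2],
    [0, 2, 1], [0, 2, 1], [], [], [], [0], [2], [1], [], [], [], [2], [2], [2], [1], [3, 1], [3], [3], [], [], [],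
    [1]]
  rank := [0, 0, 0, 1, 0, 12, 13, 14, 1, 0, 10, 9, 0, 6, 7, 2, 1, 0, 1, 2, 8, 9, 10, 14, 0, 1, 13, 12, 11, 3, 2, 1,
    11, 0, 2, 3, 0, 1, 9, 10, 0, 8, 7, 6, 0, 1, 4, 5, 0, 0, 7, 8, 9, 10, 0, 1, 0, 0, 2, 3, 4, 5, 0, 1, 5, 4, 2, 1, 0,
    8, 7, 6, 0, 1, 5, 6, 0, 1, 2, 3, 0, 0, 2, 1, 0, 3, 2, 1, 4, 1, 0, 1, 0, 1, 2, 3]
  just := [0, 0, 0, 3, 0, 5, 6, 7, 1, 0, 9, 10, 0, 11, 12, 8, 2, 0, 1, 8, 13, 10, 9, 7, 0, 2, 6, 5, 14, 15, 4, 3, 14,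
    0, 4, 15, 0, 16, 17, 18, 0, 13, 12, 11, 0, 19, 20, 21, 0, 0, 23, 24, 17, 18, 0, 16, 0, 0, 26, 27, 20, 21, 0, 19,
    29, 30, 31, 22, 0, 24, 23, 28, 0, 33, 29, 28, 0, 22, 31, 32, 0, 0, 35, 25, 0, 27, 26, 34, 30, 33, 0, 34, 0, 25,
    35, 32]
  gA := 72
  gB := 80
  fin := 0
  sid := [0, 1, 2, 3, 4, 5, 6, 7, 8, 1, 0, 9, 10, 11, 12, 13, 7, 2, 1, 8, 13, 10, 9, 0, 3, 2, 7, 6, 5, 14, 15, 4, 14,
    5, 4, 15, 14, 16, 17, 18, 11, 10, 13, 12, 11, 19, 20, 21, 17, 22, 23, 24, 17, 18, 14, 16, 20, 25, 26, 27, 20, 21,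
    11, 19, 28, 29, 30, 31, 22, 17, 24, 23, 32, 33, 29, 28, 23, 22, 31, 30, 34, 33, 32, 35, 25, 20, 27, 26, 30, 29,
    33, 34, 26, 25, 35, 32]
  off := [(0, 0), (0, 0), (0, 0), (0, 0), (0, 0), (0, 0), (0, 0), (0, 0), (0, 0), (0, 0), (0, 0), (0, 0), (0, 0), (0,
    0), (0, 0), (0, 0), (0, 1), (0, 0), (0, 0), (0, 0), (0, 0), (0, 1), (0, 1), (0, 1), (0, 0), (0, 0), (0, 1), (0,
    1), (0, 1), (0, 0), (0, 0), (0, 0), (0, -1), (0, 0), (0, 0), (0, 0), (0, 0), (0, 0), (0, 0), (0, 0), (0, 0), (0,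
    0), (0, -1), (0, -1), (0, -1), (0, 0), (0, 0), (0, 0), (0, 0), (0, 0), (0, 0), (0, 0), (0, 1), (0, 1), (0, 0),
    (0, 0), (0, 0), (0, 0), (0, 0), (0, 0), (0, -1), (0, -1), (0, -1), (0, 0), (0, 0), (0, 0), (0, 0), (0, 0), (0,
    0), (0, 0), (0, -1), (0, -1), (0, 0), (0, 0), (0, 1), (0, 1), (0, 0), (0, 0), (0, 0), (0, 0), (0, 0), (-1, 0),
    (-1, 0), (0, 0), (0, 0), (0, 0), (0, 1), (0, 1), (-1, 0), (-1, 0), (-1, -1), (0, -1), (0, 0), (0, 0), (0, 0),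
    (-1, 0)]

/-- glued arcs and equations -/
def tord8r_69 : TorT :=
  ⟨[(0, 1, true), (0, 2, true), (0, 4, true), (1, 1, true), (1, 4, true), (2, 6, true), (3, 5, true), (3, 7, true),
    (4, 6, false), (5, 7, false), (7, 7, true)],
    [([0, 0, 0, 0, 0, 1, 0, 1], 2), ([0, 0, 0, 1, 0, 0, 1, 0], 2), ([0, 0, 1, 0, 1, 0, 0, 1], 2), ([0, 1, 0, 0, 1, 1,
    0, 0], 2), ([0, 2, 1, 0, 0, 0, 0, 0], 2), ([1, 0, 0, 0, 1, 1, 1, 0], 2), ([1, 0, 0, 1, 0, 0, 0, 0], 2), ([1, 0,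
    1, 0, 0, 0, 0, 1], 2)]⟩

theorem tord8r_69_ok : tord8r_69.OK 8 := TT.leaf_ok (T := ttd8r_69) (by decide +kernel)

/-- the torus -/
def ttd8r_70 : TT where
  k := 6
  rf := [false, false, false, true, true, false]
  tau := [10, 17, 8, 15, 25, 21, 34, 11, 2, 41, 0, 7, 30, 31, 24, 3, 42, 1, 40, 47, 33, 5, 26, 43, 14, 4, 22, 37, 36,
    35, 12, 13, 46, 20, 6, 29, 28, 27, 44, 45, 18, 9, 16, 23, 38, 39, 32, 19]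
  par := [0, 0, 1, 4, 6, 9]
  stars := [[0, 11], [1, 10, 41, 18], [2, 17, 42, 9], [3, 8], [4, 15, 25], [5, 26, 22], [6, 21, 34], [7, 35, 30, 12],
    [13, 31], [14, 24], [16, 43], [19, 40], [20, 47, 33], [23, 27, 38, 44], [28, 37], [29, 36], [32, 46], [39, 45]]
  word := [[], [], [0], [0], [], [2], [], [2, 1, 3, 0], [1], [], [], [1, 2, 0, 3], [1], [1], [1], [1], [0], [], [],
    [], [3], [3], [3], [0], [0], [], [2], [2, 0, 3], [2, 0, 3], [2, 0, 3], [0], [0], [2], [2], [], [2, 1, 3], [2, 1,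
    3], [2, 1, 3], [2], [2], [], [], [1], [1], [3], [3], [3], []]
  rank := [0, 0, 1, 2, 0, 4, 0, 9, 1, 0, 0, 9, 5, 4, 3, 2, 0, 0, 1, 2, 3, 4, 5, 1, 3, 0, 5, 6, 7, 8, 5, 4, 0, 3, 0,
    8, 7, 6, 2, 1, 1, 0, 0, 1, 2, 1, 0, 2]
  just := [0, 0, 2, 3, 0, 6, 0, 7, 2, 0, 0, 7, 8, 9, 4, 3, 0, 0, 1, 11, 12, 6, 5, 10, 4, 0, 5, 13, 14, 15, 8, 9, 0,
    12, 0, 15, 14, 13, 17, 16, 1, 0, 0, 10, 17, 16, 0, 11]
  gA := 16
  gB := 32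
  fin := 0
  sid := [0, 1, 2, 3, 4, 5, 6, 7, 3, 2, 1, 0, 7, 8, 9, 4, 10, 2, 1, 11, 12, 6, 5, 13, 9, 4, 5, 13, 14, 15, 7, 8, 16,
    12, 6, 7, 15, 14, 13, 17, 11, 1, 2, 10, 13, 17, 16, 12]
  off := [(0, 0), (0, 0), (0, 0), (0, 0), (0, 0), (0, 0), (0, 0), (0, 0), (-1, 0), (-1, 0), (0, 0), (0, 0), (0, 0),
    (0, 0), (0, 0), (-1, 0), (0, 0), (0, 0), (0, 0), (0, 0), (0, 0), (0, -1), (0, -1), (0, 0), (1, 0), (0, 0), (0,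
    0), (0, 1), (0, 0), (0, 0), (1, 0), (1, 0), (0, 0), (0, 1), (0, 0), (0, 0), (-1, 0), (-1, 0), (-1, 1), (0, 0),
    (0, 0), (0, 0), (-1, 0), (-1, 0), (-1, 0), (0, -1), (0, -1), (0, 0)]

/-- glued arcs and equations -/
def tord8r_70 : TorT :=
  ⟨[(0, 2, true), (0, 6, false), (1, 1, true), (1, 4, false), (2, 6, false), (3, 5, true), (3, 7, true), (4, 4,
    true), (4, 6, false), (5, 5, true), (5, 7, false)],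
    [([0, 0, 0, 0, 0, 1, 0, 1], 2), ([0, 0, 0, 0, 1, 1, 0, 0], 2), ([0, 0, 0, 1, 1, 0, 1, 1], 2), ([0, 0, 1, 0, 0, 1,
    1, 0], 2), ([0, 1, 0, 0, 1, 0, 0, 1], 2), ([0, 2, 2, 0, 0, 0, 0, 0], 2), ([1, 0, 0, 0, 0, 0, 1, 0], 2), ([1, 0,
    0, 1, 0, 0, 0, 0], 2)]⟩

theorem tord8r_70_ok : tord8r_70.OK 8 := TT.leaf_ok (T := ttd8r_70) (by decide +kernel)

/-- the torus -/
def ttd8r_71 : TT where
  k := 2
  rf := [false, false]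
  tau := [10, 6, 14, 13, 8, 15, 1, 11, 4, 12, 0, 7, 9, 3, 2, 5]
  par := [0, 0]
  stars := [[0, 11], [1, 10, 12, 7], [2, 6, 15], [3, 14], [4, 13, 9], [5, 8]]
  word := [[], [0, 3], [0], [0], [2], [2], [2, 1], [2, 1, 3, 0], [3], [3, 0], [], [1, 2, 0, 3], [1, 2], [1], [1], [3]]
  rank := [0, 2, 1, 0, 0, 1, 2, 3, 0, 1, 0, 3, 1, 0, 1, 1]
  just := [0, 2, 3, 0, 0, 5, 2, 1, 0, 4, 0, 1, 4, 0, 3, 5]
  gA := 3
  gB := 4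
  fin := 0
  sid := [0, 1, 2, 3, 4, 5, 2, 1, 5, 4, 1, 0, 1, 4, 3, 2]
  off := [(0, 0), (0, 0), (0, 0), (0, 0), (0, 0), (0, 0), (-1, 1), (-1, 1), (0, -1), (0, -1), (0, 0), (0, 0), (-1,
    1), (-1, 0), (-1, 0), (-1, 0)]

/-- glued arcs and equations -/
def tord8r_71 : TorT :=
  ⟨[(0, 2, true), (0, 4, true), (1, 4, true), (1, 6, true), (2, 6, true), (3, 5, true), (3, 7, true), (5, 7, true)],
    [([0, 0, 0, 1, 0, 0, 1, 0], 2), ([0, 0, 1, 0, 0, 0, 1, 1], 2), ([0, 1, 0, 0, 1, 1, 0, 0], 2), ([0, 1, 1, 0, 1, 0,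
    0, 1], 2), ([1, 0, 0, 0, 0, 1, 0, 0], 2), ([1, 0, 0, 1, 0, 0, 0, 0], 2)]⟩

theorem tord8r_71_ok : tord8r_71.OK 8 := TT.leaf_ok (T := ttd8r_71) (by decide +kernel)

/-- the torus -/
def ttd8r_72 : TT where
  k := 8
  rf := [false, false, false, false, true, true, true, true]
  tau := [9, 17, 24, 31, 30, 23, 22, 21, 18, 0, 36, 37, 34, 35, 20, 19, 25, 1, 8, 15, 14, 7, 6, 5, 2, 16, 44, 45, 42,
    43, 4, 3, 50, 56, 12, 13, 10, 11, 52, 51, 58, 48, 28, 29, 26, 27, 60, 59, 41, 57, 32, 39, 38, 63, 62, 61, 33, 49,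
    40, 47, 46, 55, 54, 53]
  par := [0, 0, 1, 2, 10, 26, 32, 33]
  stars := [[0, 21, 14, 36, 10], [1, 9, 18], [2, 17, 25], [3, 24], [4, 31], [5, 30, 44, 26, 16], [6, 23], [7, 22],
    [8, 19], [11, 37], [12, 38, 53, 56, 34], [13, 35], [15, 20], [27, 45], [28, 46, 61, 48, 42], [29, 43], [32, 51],
    [33, 57, 50], [39, 52], [40, 59], [41, 49, 58], [47, 60], [54, 63], [55, 62]]
  word := [[], [], [], [], [], [0, 3, 1], [0, 3, 1], [0, 3, 1], [], [], [], [], [2], [2], [], [], [], [], [], [], [],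
    [0, 2, 1], [0, 2, 1], [0, 2, 1], [], [], [], [], [0, 3, 1], [0, 3, 1], [], [], [], [], [3], [3], [], [], [], [],
    [0], [0], [0, 2, 1], [0, 2, 1], [], [], [0], [0], [1], [], [], [], [], [2], [2], [2], [], [], [1], [1], [1], [3],
    [3], [3]]
  rank := [0, 0, 0, 1, 2, 5, 6, 7, 1, 0, 0, 1, 3, 4, 3, 2, 1, 0, 1, 2, 3, 7, 6, 5, 0, 1, 0, 1, 3, 4, 2, 1, 0, 0, 3,
    4, 0, 1, 2, 1, 1, 2, 3, 4, 0, 1, 1, 0, 2, 1, 0, 1, 2, 2, 1, 0, 0, 1, 1, 0, 1, 0, 1, 2]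
  just := [0, 0, 0, 3, 4, 5, 6, 7, 1, 0, 0, 9, 10, 11, 12, 8, 2, 0, 1, 8, 12, 7, 6, 5, 0, 2, 0, 13, 14, 15, 4, 3, 0,
    0, 10, 11, 0, 9, 18, 16, 19, 20, 14, 15, 0, 13, 21, 0, 20, 17, 0, 16, 18, 22, 23, 0, 0, 17, 19, 0, 21, 0, 23, 22]
  gA := 47
  gB := 55
  fin := 0
  sid := [0, 1, 2, 3, 4, 5, 6, 7, 8, 1, 0, 9, 10, 11, 0, 12, 5, 2, 1, 8, 12, 0, 7, 6, 3, 2, 5, 13, 14, 15, 5, 4, 16,
    17, 10, 11, 0, 9, 10, 18, 19, 20, 14, 15, 5, 13, 14, 21, 14, 20, 17, 16, 18, 10, 22, 23, 10, 17, 20, 19, 21, 14,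
    23, 22]
  off := [(0, 0), (0, 0), (0, 0), (0, 0), (0, 0), (0, 0), (0, 0), (0, 0), (0, 0), (0, 0), (0, 0), (0, 0), (0, 0), (0,
    0), (0, 1), (0, 0), (0, 1), (0, 0), (0, 0), (0, 0), (0, 0), (0, 1), (0, 1), (0, 1), (0, 0), (0, 0), (0, 1), (0,
    0), (0, 0), (0, 0), (0, 0), (0, 0), (0, 0), (0, 0), (0, -1), (0, -1), (0, 0), (0, 0), (0, 0), (0, 0), (0, 0), (0,
    0), (0, 1), (0, 1), (0, 1), (0, 0), (0, 0), (0, 0), (-1, 1), (-1, 0), (0, 0), (0, 0), (0, 0), (0, 0), (0, 0), (0,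
    0), (0, -1), (0, 0), (-1, 0), (-1, 0), (-1, 0), (-1, 0), (0, -1), (0, -1)]

/-- glued arcs and equations -/
def tord8r_72 : TorT :=
  ⟨[(0, 1, true), (0, 2, true), (1, 1, true), (2, 4, false), (3, 5, false), (3, 7, true), (4, 6, true), (5, 7, true),
    (6, 6, true)],
    [([0, 0, 0, 0, 0, 0, 1, 1], 2), ([0, 0, 0, 0, 1, 0, 0, 1], 2), ([0, 0, 0, 1, 0, 1, 0, 0], 2), ([0, 2, 1, 0, 0, 0,
    0, 0], 2), ([1, 0, 0, 1, 0, 0, 0, 0], 2), ([1, 0, 1, 0, 1, 1, 1, 0], 2)]⟩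

theorem tord8r_72_ok : tord8r_72.OK 8 := TT.leaf_ok (T := ttd8r_72) (by decide +kernel)

/-- the torus -/
def ttd8r_73 : TT where
  k := 4
  rf := [false, false, false, false]
  tau := [9, 17, 24, 31, 30, 27, 26, 23, 18, 0, 22, 21, 28, 29, 20, 19, 25, 1, 8, 15, 14, 11, 10, 7, 2, 16, 6, 5, 12,
    13, 4, 3]
  par := [0, 0, 1, 2]
  stars := [[0, 23, 10], [1, 9, 18], [2, 17, 25], [3, 24], [4, 31], [5, 30, 13, 28], [6, 27], [7, 26, 16], [8, 19],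
    [11, 22], [12, 21, 14, 29], [15, 20]]
  word := [[], [], [], [], [], [3, 0], [3, 0], [3, 0], [], [], [0, 3], [0, 3], [0], [2], [], [], [], [], [], [], [],
    [2, 1], [2, 1], [1, 2], [], [], [1, 2], [1, 2], [1], [3], [], []]
  rank := [0, 0, 0, 1, 2, 3, 4, 5, 1, 0, 5, 4, 0, 0, 3, 2, 1, 0, 1, 2, 3, 4, 5, 5, 0, 1, 4, 3, 0, 0, 2, 1]
  just := [0, 0, 0, 3, 4, 5, 6, 7, 1, 0, 9, 10, 0, 0, 11, 8, 2, 0, 1, 8, 11, 10, 9, 7, 0, 2, 6, 5, 0, 0, 4, 3]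
  gA := 12
  gB := 13
  fin := 0
  sid := [0, 1, 2, 3, 4, 5, 6, 7, 8, 1, 0, 9, 10, 5, 10, 11, 7, 2, 1, 8, 11, 10, 9, 0, 3, 2, 7, 6, 5, 10, 5, 4]
  off := [(0, 0), (0, 0), (0, 0), (0, 0), (0, 0), (0, 0), (0, 0), (0, 0), (0, 0), (0, 0), (0, 0), (0, 0), (0, 0), (0,
    1), (-1, 1), (0, 0), (-1, 1), (0, 0), (0, 0), (0, 0), (0, 0), (-1, 1), (-1, 1), (-1, 1), (0, 0), (0, 0), (-1, 1),
    (-1, 1), (-1, 1), (-1, 0), (0, 0), (0, 0)]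

/-- glued arcs and equations -/
def tord8r_73 : TorT :=
  ⟨[(0, 1, true), (0, 2, true), (1, 1, true), (2, 6, true), (3, 5, true), (3, 7, true), (4, 4, true), (4, 6, true),
    (5, 5, true), (7, 7, true)],
    [([0, 0, 0, 0, 1, 0, 0, 1], 2), ([0, 0, 0, 0, 1, 2, 1, 0], 2), ([0, 0, 0, 1, 0, 0, 1, 0], 2), ([0, 2, 1, 0, 0, 0,
    0, 0], 2), ([1, 0, 0, 1, 0, 0, 0, 0], 2), ([1, 0, 1, 0, 0, 0, 0, 1], 2)]⟩

theorem tord8r_73_ok : tord8r_73.OK 8 := TT.leaf_ok (T := ttd8r_73) (by decide +kernel)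

/-- the torus -/
def ttd8r_74 : TT where
  k := 4
  rf := [false, false, false, false]
  tau := [14, 18, 24, 31, 12, 27, 8, 15, 6, 26, 16, 23, 4, 19, 0, 7, 10, 25, 1, 13, 30, 29, 28, 11, 2, 17, 9, 5, 22,
    21, 20, 3]
  par := [0, 0, 1, 2]
  stars := [[0, 15], [1, 14, 19], [2, 18, 25], [3, 24], [4, 31, 20, 13], [5, 12, 23, 28], [6, 27, 9], [7, 8], [10,
    26, 17], [11, 16], [21, 30], [22, 29]]
  word := [[], [], [], [], [3], [3, 0, 2], [3, 0, 2, 1], [3, 0, 2, 1], [0, 3, 1, 2], [0], [0], [0], [2], [], [], [0,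
    3, 1, 2], [1], [], [], [], [2], [2], [2], [1], [], [], [1], [3, 1, 2], [3], [3], [3], []]
  rank := [0, 0, 0, 1, 2, 3, 4, 5, 4, 2, 0, 1, 2, 1, 0, 5, 0, 1, 0, 1, 1, 0, 1, 1, 0, 1, 2, 3, 1, 0, 1, 1]
  just := [0, 0, 0, 3, 4, 5, 6, 7, 6, 8, 0, 9, 4, 1, 0, 7, 0, 2, 0, 1, 10, 0, 11, 9, 0, 2, 8, 5, 11, 0, 10, 3]
  gA := 10
  gB := 21
  fin := 0
  sid := [0, 1, 2, 3, 4, 5, 6, 7, 7, 6, 8, 9, 5, 4, 1, 0, 9, 8, 2, 1, 4, 10, 11, 5, 3, 2, 8, 6, 5, 11, 10, 4]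
  off := [(0, 0), (0, 0), (0, 0), (0, 0), (0, 0), (0, 0), (0, 0), (0, 0), (0, 0), (0, 0), (0, 0), (0, 0), (0, 1), (0,
    1), (0, 0), (0, 0), (-1, 0), (-1, 0), (0, 0), (0, 0), (0, 1), (0, 0), (0, 0), (-1, 1), (0, 0), (0, 0), (-1, 0),
    (-1, 0), (-1, 0), (0, -1), (0, -1), (0, 0)]

/-- glued arcs and equations -/
def tord8r_74 : TorT :=
  ⟨[(0, 2, true), (0, 6, true), (1, 1, true), (1, 2, true), (3, 5, true), (3, 7, true), (4, 4, true), (4, 6, true),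
    (5, 5, true), (7, 7, true)],
    [([0, 0, 0, 0, 0, 1, 1, 0], 2), ([0, 0, 0, 0, 2, 1, 0, 1], 2), ([0, 1, 0, 1, 0, 0, 1, 0], 2), ([0, 1, 2, 0, 0, 0,
    0, 0], 2), ([1, 0, 0, 0, 0, 0, 0, 1], 2), ([1, 0, 0, 1, 0, 0, 0, 0], 2)]⟩

theorem tord8r_74_ok : tord8r_74.OK 8 := TT.leaf_ok (T := ttd8r_74) (by decide +kernel)

/-- the torus -/
def ttd8r_75 : TT where
  k := 8
  rf := [false, false, false, false, true, true, true, true]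
  tau := [10, 17, 25, 37, 40, 35, 12, 11, 52, 18, 0, 7, 6, 31, 30, 29, 26, 1, 9, 53, 56, 51, 28, 27, 36, 2, 16, 23,
    22, 15, 14, 13, 58, 49, 41, 5, 24, 3, 60, 59, 4, 34, 48, 55, 54, 63, 62, 61, 42, 33, 57, 21, 8, 19, 44, 43, 20,
    50, 32, 39, 38, 47, 46, 45]
  par := [0, 0, 1, 2, 3, 4, 8, 20]
  stars := [[0, 11], [1, 10, 18], [2, 17, 26], [3, 25, 37], [4, 38, 61, 40], [5, 41, 35], [6, 36, 24, 13], [7, 12],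
    [8, 29, 22, 52], [9, 53, 19], [14, 31], [15, 30], [16, 27], [20, 54, 45, 56], [21, 57, 51], [23, 28], [32, 59],
    [33, 50, 58], [34, 42, 49], [39, 60], [43, 48], [44, 55], [46, 63], [47, 62]]
  word := [[], [], [], [], [], [2, 1, 3], [2, 1, 3, 0], [2, 1, 3, 0], [], [], [], [1, 2, 0, 3], [1, 2, 0, 3], [1],
    [1], [1], [], [], [], [], [], [0], [], [], [], [], [], [], [], [0], [0], [0], [2], [2, 0], [2, 0, 3], [2, 0, 3],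
    [], [], [2], [2], [], [2, 1, 3], [2], [2], [2], [2], [2], [2], [3], [1, 3], [1], [1], [], [], [3], [3], [], [0],
    [3], [3], [3], [3], [3], [3]]
  rank := [0, 0, 0, 0, 0, 7, 8, 9, 0, 1, 0, 9, 8, 6, 5, 4, 1, 0, 1, 2, 0, 0, 3, 2, 1, 0, 1, 2, 3, 4, 5, 6, 4, 5, 6,
    7, 1, 0, 2, 3, 0, 6, 5, 4, 3, 1, 0, 1, 5, 5, 1, 0, 0, 2, 3, 4, 0, 1, 4, 3, 2, 1, 0, 1]
  just := [0, 0, 0, 0, 0, 5, 6, 7, 0, 1, 0, 7, 6, 10, 11, 8, 2, 0, 1, 9, 0, 0, 15, 12, 3, 0, 2, 12, 15, 8, 11, 10,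
    16, 17, 18, 5, 3, 0, 4, 19, 0, 18, 20, 21, 13, 22, 0, 23, 20, 17, 14, 0, 0, 9, 13, 21, 0, 14, 16, 19, 4, 23, 0,
    22]
  gA := 21
  gB := 46
  fin := 0
  sid := [0, 1, 2, 3, 4, 5, 6, 7, 8, 9, 1, 0, 7, 6, 10, 11, 12, 2, 1, 9, 13, 14, 8, 15, 6, 3, 2, 12, 15, 8, 11, 10,
    16, 17, 18, 5, 6, 3, 4, 19, 4, 5, 18, 20, 21, 13, 22, 23, 20, 18, 17, 14, 8, 9, 13, 21, 13, 14, 17, 16, 19, 4,
    23, 22]
  off := [(0, 0), (0, 0), (0, 0), (0, 0), (0, 0), (0, 0), (0, 0), (0, 0), (0, 0), (0, 0), (0, 0), (0, 0), (0, 0), (0,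
    0), (0, 0), (0, 0), (0, 0), (0, 0), (0, 0), (0, 0), (0, 0), (0, 0), (1, 0), (0, 0), (1, 0), (0, 0), (0, 0), (0,
    0), (0, 0), (1, 0), (1, 0), (1, 0), (0, 0), (0, 0), (0, 0), (1, 0), (1, 0), (0, 0), (0, 0), (0, 0), (0, 0), (0,
    0), (-1, 0), (0, 0), (0, 0), (0, 1), (0, 0), (0, 0), (0, -1), (-1, -1), (-1, -1), (-1, 0), (0, 0), (0, 0), (0,
    0), (0, -1), (0, 0), (0, 0), (0, -1), (0, -1), (0, -1), (0, -1), (0, -1), (0, -1)]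

/-- glued arcs and equations -/
def tord8r_75 : TorT :=
  ⟨[(0, 2, true), (0, 4, false), (1, 1, true), (1, 2, true), (3, 5, false), (3, 7, true), (4, 6, true), (5, 7, true),
    (6, 6, true)],
    [([0, 0, 0, 0, 0, 0, 1, 1], 2), ([0, 0, 0, 0, 1, 0, 0, 1], 2), ([0, 1, 0, 1, 0, 1, 0, 0], 2), ([0, 1, 2, 0, 0, 0,
    0, 0], 2), ([1, 0, 0, 0, 1, 1, 1, 0], 2), ([1, 0, 0, 1, 0, 0, 0, 0], 2)]⟩

theorem tord8r_75_ok : tord8r_75.OK 8 := TT.leaf_ok (T := ttd8r_75) (by decide +kernel)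

/-- the torus -/
def ttd8r_76 : TT where
  k := 8
  rf := [false, false, false, false, true, true, true, true]
  tau := [9, 17, 24, 31, 34, 35, 45, 46, 18, 0, 52, 53, 28, 62, 63, 19, 25, 1, 8, 15, 42, 43, 37, 38, 2, 16, 60, 61,
    12, 54, 55, 3, 58, 48, 4, 5, 44, 22, 23, 59, 50, 56, 20, 21, 36, 6, 7, 51, 33, 57, 40, 47, 10, 11, 29, 30, 41,
    49, 32, 39, 26, 27, 13, 14]
  par := [0, 0, 1, 2, 4, 6, 10, 13]
  stars := [[0, 47, 52, 10], [1, 9, 18], [2, 17, 25], [3, 24], [4, 31, 48, 34], [5, 35], [6, 36, 45], [7, 46], [8,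
    19], [11, 53], [12, 54, 29], [13, 28, 62], [14, 63], [15, 56, 42, 20], [16, 39, 60, 26], [21, 43], [22, 44, 37],
    [23, 38], [27, 61], [30, 55], [32, 59], [33, 49, 58], [40, 51], [41, 57, 50]]
  word := [[], [], [], [], [], [], [], [], [], [], [], [], [0], [], [], [], [], [], [], [], [2], [2], [2], [2], [],
    [], [1], [1], [1], [1], [1], [], [3, 1], [1], [], [], [], [3], [3], [3, 1], [3, 0, 2, 1], [3], [3], [3], [], [],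
    [], [3, 0, 2, 1], [0], [0, 3, 1], [0, 3, 1, 2], [0, 3, 1, 2], [], [], [0], [0], [2], [0, 2, 1], [0, 2], [0, 2],
    [0], [0], [], []]
  rank := [0, 0, 0, 1, 0, 1, 0, 1, 1, 0, 0, 1, 0, 0, 1, 2, 1, 0, 1, 2, 4, 3, 1, 0, 0, 1, 2, 1, 0, 2, 3, 1, 4, 4, 0,
    1, 2, 1, 0, 3, 6, 5, 4, 3, 2, 0, 1, 7, 4, 5, 6, 7, 0, 1, 2, 3, 5, 5, 4, 3, 2, 1, 0, 1]
  just := [0, 0, 0, 3, 0, 5, 0, 7, 1, 0, 0, 9, 0, 0, 12, 8, 2, 0, 1, 8, 15, 16, 17, 0, 0, 2, 18, 11, 0, 10, 19, 3,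
    20, 4, 0, 5, 6, 17, 0, 14, 23, 13, 15, 16, 6, 0, 7, 22, 4, 21, 23, 22, 0, 9, 10, 19, 13, 21, 20, 14, 18, 11, 0,
    12]
  gA := 12
  gB := 23
  fin := 0
  sid := [0, 1, 2, 3, 4, 5, 6, 7, 8, 1, 0, 9, 10, 11, 12, 13, 14, 2, 1, 8, 13, 15, 16, 17, 3, 2, 14, 18, 11, 10, 19,
    4, 20, 21, 4, 5, 6, 16, 17, 14, 22, 23, 13, 15, 16, 6, 7, 0, 4, 21, 23, 22, 0, 9, 10, 19, 13, 23, 21, 20, 14, 18,
    11, 12]
  off := [(0, 0), (0, 0), (0, 0), (0, 0), (0, 0), (0, 0), (0, 0), (0, 0), (0, 0), (0, 0), (0, 0), (0, 0), (0, 0), (0,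
    0), (0, 0), (0, 0), (0, 0), (0, 0), (0, 0), (0, 0), (0, 0), (0, 0), (0, 0), (0, 0), (0, 0), (0, 0), (0, 0), (0,
    0), (-1, 0), (-1, 0), (0, 0), (0, 0), (0, 0), (0, 0), (0, 0), (0, 0), (0, 0), (0, -1), (0, -1), (0, -1), (0, 0),
    (0, 0), (0, -1), (0, -1), (0, -1), (0, 0), (0, 0), (0, 0), (1, 0), (1, 0), (0, 0), (0, 0), (0, 0), (0, 0), (0,
    0), (1, 0), (0, 0), (0, 1), (1, 1), (1, 1), (1, 0), (1, 0), (0, 0), (0, 0)]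

/-- glued arcs and equations -/
def tord8r_76 : TorT :=
  ⟨[(0, 1, true), (0, 2, true), (1, 1, true), (2, 4, false), (3, 5, false), (3, 7, true), (4, 4, true), (5, 6,
    false), (6, 7, false)],
    [([0, 0, 0, 0, 0, 0, 1, 1], 2), ([0, 0, 0, 0, 1, 1, 1, 0], 2), ([0, 0, 0, 1, 0, 1, 0, 0], 2), ([0, 2, 1, 0, 0, 0,
    0, 0], 2), ([1, 0, 0, 1, 0, 0, 0, 0], 2), ([1, 0, 1, 0, 1, 0, 0, 1], 2)]⟩

theorem tord8r_76_ok : tord8r_76.OK 8 := TT.leaf_ok (T := ttd8r_76) (by decide +kernel)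

end Pool.Agent.Lib_MP_fa6e45
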