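import Pool.Agent.Lib_MP_fa6e45.CT5

/-!
MP_fa6e45_co, stage 9: straight-side patterns with `8` sides, tables of tori (generated by a program).
-/

namespace Pool.Agent.Lib_MP_fa6e45

/-- the torus -/
def ttd8r_77 : TT where
  k := 8
  rf := [false, false, false, false, true, true, true, true]
  tau := [10, 17, 25, 37, 20, 46, 47, 11, 44, 18, 0, 7, 40, 51, 61, 62, 26, 1, 9, 45, 4, 38, 39, 27, 36, 2, 16, 23,
    32, 59, 53, 54, 28, 58, 48, 55, 24, 3, 21, 22, 12, 50, 56, 63, 8, 19, 5, 6, 34, 57, 41, 13, 60, 30, 31, 35, 42,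
    49, 33, 29, 52, 14, 15, 43]
  par := [0, 0, 1, 2, 3, 5, 13, 14]
  stars := [[0, 11], [1, 10, 18], [2, 17, 26], [3, 25, 37], [4, 38, 21], [5, 20, 46], [6, 47], [7, 40, 12], [8, 63,
    44], [9, 45, 19], [13, 41, 51], [14, 52, 61], [15, 62], [16, 27], [22, 39], [23, 32, 28], [24, 55, 36], [29, 33,
    59], [30, 60, 53], [31, 54], [34, 49, 58], [35, 48], [42, 57, 50], [43, 56]]
  word := [[], [], [], [], [1], [], [], [1, 3, 0, 2], [0], [], [], [3, 1, 2, 0], [3, 1, 2, 0], [], [], [], [], [],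
    [], [0], [0], [0], [0], [], [], [], [], [], [0], [2], [2], [2], [1], [1, 2], [2], [2], [], [], [1], [1], [1, 3,
    0, 2], [1, 3, 0, 2], [1], [1], [1], [1], [], [], [3], [3, 1, 2], [3, 1, 2, 0], [], [], [3], [3], [3], [0], [3, 0,
    2], [3, 0], [3], [], [], [], [0]]
  rank := [0, 0, 0, 0, 1, 0, 1, 8, 3, 1, 0, 8, 7, 0, 0, 1, 1, 0, 1, 2, 1, 0, 1, 2, 1, 0, 1, 2, 3, 2, 1, 0, 3, 4, 3,
    2, 1, 0, 0, 1, 7, 6, 5, 4, 3, 2, 0, 1, 3, 5, 6, 0, 1, 1, 0, 2, 5, 5, 4, 2, 1, 0, 1, 4]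
  just := [0, 0, 0, 0, 4, 0, 6, 7, 9, 1, 0, 7, 10, 0, 0, 12, 2, 0, 1, 5, 4, 0, 14, 13, 3, 0, 2, 13, 15, 18, 19, 0,
    15, 17, 21, 16, 3, 0, 0, 14, 10, 22, 23, 8, 9, 5, 0, 6, 21, 20, 22, 0, 11, 19, 0, 16, 23, 20, 17, 18, 11, 0, 12,
    8]
  gA := 21
  gB := 31
  fin := 0
  sid := [0, 1, 2, 3, 4, 5, 6, 7, 8, 9, 1, 0, 7, 10, 11, 12, 13, 2, 1, 9, 5, 4, 14, 15, 16, 3, 2, 13, 15, 17, 18, 19,
    15, 17, 20, 21, 16, 3, 4, 14, 7, 10, 22, 23, 8, 9, 5, 6, 21, 20, 22, 10, 11, 18, 19, 16, 23, 22, 20, 17, 18, 11,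
    12, 8]
  off := [(0, 0), (0, 0), (0, 0), (0, 0), (0, 0), (0, 0), (0, 0), (0, 0), (0, 0), (0, 0), (0, 0), (0, 0), (0, 0), (0,
    0), (0, 0), (0, 0), (0, 0), (0, 0), (0, 0), (0, 0), (1, 0), (1, 0), (0, 0), (0, 0), (0, 0), (0, 0), (0, 0), (0,
    0), (0, 0), (0, 0), (0, 0), (0, 0), (-1, 0), (-1, 0), (0, 0), (0, 0), (0, 0), (0, 0), (0, 0), (-1, 0), (0, 0),
    (0, 0), (0, 0), (0, 0), (-1, 0), (-1, 0), (0, 0), (0, 0), (0, -1), (0, -1), (0, 0), (0, 0), (0, 0), (0, -1), (0,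
    -1), (0, -1), (1, 0), (1, 0), (1, -1), (0, -1), (0, -1), (0, 0), (0, 0), (0, 0)]

/-- glued arcs and equations -/
def tord8r_77 : TorT :=
  ⟨[(0, 2, true), (0, 4, false), (1, 1, true), (1, 2, true), (3, 5, false), (3, 7, true), (4, 4, true), (5, 6,
    false), (6, 7, false)],
    [([0, 0, 0, 0, 0, 0, 1, 1], 2), ([0, 0, 0, 0, 1, 1, 1, 0], 2), ([0, 1, 0, 1, 0, 1, 0, 0], 2), ([0, 1, 2, 0, 0, 0,
    0, 0], 2), ([1, 0, 0, 0, 1, 0, 0, 1], 2), ([1, 0, 0, 1, 0, 0, 0, 0], 2)]⟩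

theorem tord8r_77_ok : tord8r_77.OK 8 := TT.leaf_ok (T := ttd8r_77) (by decide +kernel)

/-- the torus -/
def ttd8r_78 : TT where
  k := 8
  rf := [false, false, false, false, true, true, true, true]
  tau := [9, 17, 24, 39, 42, 54, 55, 35, 18, 0, 36, 29, 28, 27, 61, 62, 25, 1, 8, 63, 50, 46, 47, 59, 2, 16, 60, 13,
    12, 11, 37, 38, 41, 57, 48, 7, 10, 30, 31, 3, 58, 32, 4, 53, 52, 51, 21, 22, 34, 56, 20, 45, 44, 43, 5, 6, 49,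
    33, 40, 23, 26, 14, 15, 19]
  par := [0, 0, 1, 2, 3, 4, 5, 14]
  stars := [[0, 36, 10], [1, 9, 18], [2, 17, 25], [3, 24, 39], [4, 32, 42], [5, 43, 54], [6, 55], [7, 48, 35], [8,
    63, 19], [11, 37, 30], [12, 29], [13, 28], [14, 27, 61], [15, 62], [16, 60, 26], [20, 56, 50], [21, 51, 46], [22,
    47], [23, 40, 59], [31, 38], [33, 58, 41], [34, 49, 57], [44, 53], [45, 52]]
  word := [[], [], [], [], [], [], [], [1, 3, 0], [], [], [3], [3], [3], [3], [], [], [], [], [], [], [0], [0], [0],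
    [2], [], [], [2], [2], [2], [2], [], [], [], [1, 2], [1, 2, 0], [1, 2, 0], [2], [], [], [], [1, 2], [], [], [],
    [], [], [1], [1], [1, 3, 0], [1], [1], [], [], [], [], [], [0], [3, 0], [3, 0], [3], [3], [], [], []]
  rank := [0, 0, 0, 0, 0, 0, 1, 7, 1, 0, 4, 3, 2, 1, 0, 1, 1, 0, 1, 2, 4, 0, 1, 2, 0, 1, 0, 1, 2, 3, 2, 1, 1, 4, 6,
    7, 4, 2, 1, 0, 3, 1, 0, 1, 2, 3, 0, 1, 6, 5, 4, 3, 2, 1, 0, 1, 5, 4, 3, 2, 0, 0, 1, 2]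
  just := [0, 0, 0, 0, 0, 0, 6, 7, 1, 0, 9, 10, 11, 12, 0, 13, 2, 0, 1, 8, 16, 0, 17, 14, 0, 2, 0, 12, 11, 10, 19, 3,
    4, 20, 21, 7, 9, 19, 3, 0, 18, 4, 0, 5, 22, 23, 0, 17, 21, 15, 16, 23, 22, 5, 0, 6, 15, 20, 18, 14, 0, 0, 13, 8]
  gA := 21
  gB := 26
  fin := 0
  sid := [0, 1, 2, 3, 4, 5, 6, 7, 8, 1, 0, 9, 10, 11, 12, 13, 14, 2, 1, 8, 15, 16, 17, 18, 3, 2, 14, 12, 11, 10, 9,
    19, 4, 20, 21, 7, 0, 9, 19, 3, 18, 20, 4, 5, 22, 23, 16, 17, 7, 21, 15, 16, 23, 22, 5, 6, 15, 21, 20, 18, 14, 12,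
    13, 8]
  off := [(0, 0), (0, 0), (0, 0), (0, 0), (0, 0), (0, 0), (0, 0), (0, 0), (0, 0), (0, 0), (0, 0), (0, 0), (0, 0), (0,
    0), (0, 0), (0, 0), (0, 0), (0, 0), (0, 0), (0, 0), (0, 0), (0, 0), (0, 0), (0, 0), (0, 0), (0, 0), (0, 0), (0,
    1), (0, 1), (0, 1), (0, 1), (0, 0), (0, 0), (0, 0), (0, 0), (0, 1), (0, 1), (0, 1), (0, 0), (0, 0), (-1, 0), (0,
    0), (0, 0), (0, 0), (0, 0), (0, 0), (-1, 0), (-1, 0), (0, 0), (0, -1), (-1, 0), (-1, 0), (0, 0), (0, 0), (0, 0),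
    (0, 0), (0, 0), (1, -1), (1, -1), (0, -1), (0, -1), (0, 0), (0, 0), (0, 0)]

/-- glued arcs and equations -/
def tord8r_78 : TorT :=
  ⟨[(0, 1, true), (0, 2, true), (1, 1, true), (2, 4, false), (3, 5, true), (3, 7, false), (4, 4, true), (5, 6,
    false), (6, 7, false)],
    [([0, 0, 0, 0, 0, 0, 1, 1], 2), ([0, 0, 0, 0, 1, 1, 0, 0], 2), ([0, 0, 0, 1, 0, 1, 1, 0], 2), ([0, 2, 1, 0, 0, 0,
    0, 0], 2), ([1, 0, 0, 1, 0, 0, 0, 1], 2), ([1, 0, 1, 0, 1, 0, 0, 0], 2)]⟩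

theorem tord8r_78_ok : tord8r_78.OK 8 := TT.leaf_ok (T := ttd8r_78) (by decide +kernel)

/-- the torus -/
def ttd8r_79 : TT where
  k := 8
  rf := [false, false, false, false, true, true, true, true]
  tau := [10, 17, 25, 21, 20, 19, 37, 38, 36, 18, 0, 39, 32, 46, 47, 35, 26, 1, 9, 5, 4, 3, 53, 54, 52, 2, 16, 55,
    48, 62, 63, 51, 12, 58, 40, 15, 8, 6, 7, 11, 34, 57, 49, 61, 60, 59, 13, 14, 28, 42, 56, 31, 24, 22, 23, 27, 50,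
    41, 33, 45, 44, 43, 29, 30]
  par := [0, 0, 1, 2, 6, 13, 22, 29]
  stars := [[0, 39, 11], [1, 10, 18], [2, 17, 26], [3, 25, 53, 22], [4, 21], [5, 20], [6, 19, 9, 37], [7, 38], [8,
    36], [12, 32], [13, 33, 59, 46], [14, 47], [15, 40, 35], [16, 55, 27], [23, 54], [24, 52], [28, 48], [29, 49, 43,
    62], [30, 63], [31, 56, 51], [34, 41, 58], [42, 50, 57], [44, 61], [45, 60]]
  word := [[], [], [], [0], [0], [0], [], [], [1], [], [], [2, 0, 3, 1], [2, 0, 3, 1], [], [], [1], [], [], [], [1],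
    [1], [1], [], [], [0], [], [], [], [], [], [], [0], [0, 2, 1, 3], [0, 2, 1], [0], [0], [0], [], [], [0, 2, 1, 3],
    [1], [2, 1], [2], [2], [2], [2], [], [], [], [3], [1], [1], [1], [], [], [], [0], [0, 3], [0, 3, 1], [3], [3],
    [3], [], []]
  rank := [0, 0, 0, 0, 1, 2, 0, 1, 3, 1, 0, 8, 7, 0, 1, 4, 1, 0, 1, 2, 1, 0, 0, 1, 1, 0, 1, 2, 3, 0, 1, 2, 7, 6, 5,
    4, 3, 0, 1, 8, 5, 5, 4, 0, 1, 2, 0, 1, 3, 4, 3, 2, 1, 0, 1, 2, 3, 5, 6, 2, 1, 0, 0, 1]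
  just := [0, 0, 0, 0, 4, 5, 0, 7, 6, 1, 0, 9, 10, 0, 11, 8, 2, 0, 1, 5, 4, 0, 0, 14, 3, 0, 2, 13, 16, 0, 18, 15, 10,
    20, 12, 8, 6, 0, 7, 9, 12, 21, 17, 0, 22, 23, 0, 11, 16, 17, 19, 15, 3, 0, 14, 13, 19, 21, 20, 23, 22, 0, 0, 18]
  gA := 3
  gB := 43
  fin := 0
  sid := [0, 1, 2, 3, 4, 5, 6, 7, 8, 6, 1, 0, 9, 10, 11, 12, 13, 2, 1, 6, 5, 4, 3, 14, 15, 3, 2, 13, 16, 17, 18, 19,
    9, 10, 20, 12, 8, 6, 7, 0, 12, 20, 21, 17, 22, 23, 10, 11, 16, 17, 21, 19, 15, 3, 14, 13, 19, 21, 20, 10, 23, 22,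
    17, 18]
  off := [(0, 0), (0, 0), (0, 0), (0, 0), (0, 0), (0, 0), (0, 0), (0, 0), (0, 0), (-1, 0), (0, 0), (0, 0), (0, 0),
    (0, 0), (0, 0), (0, 0), (0, 0), (0, 0), (0, 0), (-1, 0), (-1, 0), (-1, 0), (-1, 0), (0, 0), (0, 0), (0, 0), (0,
    0), (0, 0), (0, 0), (0, 0), (0, 0), (0, 0), (0, 0), (0, 0), (0, 0), (1, 0), (1, 0), (0, 0), (0, 0), (0, 0), (0,
    0), (-1, 0), (0, 0), (0, 1), (0, 0), (0, 0), (0, 0), (0, 0), (0, 0), (0, 0), (0, -1), (-1, 0), (-1, 0), (-1, 0),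
    (0, 0), (0, 0), (0, 0), (1, -1), (0, -1), (0, -1), (0, -1), (0, -1), (0, 0), (0, 0)]

/-- glued arcs and equations -/
def tord8r_79 : TorT :=
  ⟨[(0, 2, true), (0, 4, false), (1, 1, true), (1, 2, true), (3, 5, true), (3, 7, false), (4, 4, true), (5, 6,
    false), (6, 7, false)],
    [([0, 0, 0, 0, 0, 0, 1, 1], 2), ([0, 0, 0, 0, 1, 1, 0, 0], 2), ([0, 1, 0, 1, 0, 1, 1, 0], 2), ([0, 1, 2, 0, 0, 0,
    0, 0], 2), ([1, 0, 0, 0, 1, 0, 0, 0], 2), ([1, 0, 0, 1, 0, 0, 0, 1], 2)]⟩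

theorem tord8r_79_ok : tord8r_79.OK 8 := TT.leaf_ok (T := ttd8r_79) (by decide +kernel)

/-- the torus -/
def ttd8r_80 : TT where
  k := 4
  rf := [false, false, false, false]
  tau := [10, 17, 25, 19, 8, 15, 29, 11, 4, 18, 0, 7, 28, 22, 30, 5, 26, 1, 9, 3, 24, 31, 13, 27, 20, 2, 16, 23, 12,
    6, 14, 21]
  par := [0, 0, 1, 2]
  stars := [[0, 11], [1, 10, 18], [2, 17, 26], [3, 25, 20], [4, 19, 9], [5, 8], [6, 15, 30], [7, 29, 12], [13, 28,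
    23], [14, 22, 31], [16, 27], [21, 24]]
  word := [[], [], [], [3], [3], [3], [3, 0, 2], [3, 0, 2, 1], [2], [], [], [0, 3, 1, 2], [0], [0], [0, 2], [2], [],
    [], [], [2], [2], [2], [1], [], [3], [], [], [], [1], [3, 1, 2], [3, 1], [3]]
  rank := [0, 0, 0, 1, 2, 3, 4, 5, 2, 1, 0, 5, 3, 0, 2, 3, 1, 0, 1, 1, 0, 1, 0, 2, 0, 0, 1, 2, 3, 4, 2, 1]
  just := [0, 0, 0, 3, 4, 5, 6, 7, 4, 1, 0, 7, 8, 0, 9, 5, 2, 0, 1, 3, 0, 11, 0, 10, 0, 0, 2, 10, 8, 6, 9, 11]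
  gA := 13
  gB := 20
  fin := 0
  sid := [0, 1, 2, 3, 4, 5, 6, 7, 5, 4, 1, 0, 7, 8, 9, 6, 10, 2, 1, 4, 3, 11, 9, 8, 11, 3, 2, 10, 8, 7, 6, 9]
  off := [(0, 0), (0, 0), (0, 0), (0, 0), (0, 0), (0, 0), (0, 0), (0, 0), (0, 1), (0, 1), (0, 0), (0, 0), (0, 0), (0,
    0), (0, 0), (0, 1), (0, 0), (0, 0), (0, 0), (0, 1), (0, 1), (0, 0), (-1, 0), (-1, 0), (0, -1), (0, 0), (0, 0),
    (0, 0), (-1, 0), (-1, 0), (-1, 0), (-1, -1)]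

/-- glued arcs and equations -/
def tord8r_80 : TorT :=
  ⟨[(0, 2, true), (0, 4, true), (1, 1, true), (1, 2, true), (3, 3, true), (3, 7, true), (4, 4, true), (5, 6, true),
    (5, 7, true), (6, 6, true)],
    [([0, 0, 0, 0, 0, 0, 2, 1], 2), ([0, 0, 0, 0, 1, 1, 0, 1], 2), ([0, 1, 0, 1, 1, 0, 0, 0], 2), ([0, 1, 2, 0, 0, 0,
    0, 0], 2), ([1, 0, 0, 0, 0, 1, 0, 0], 2), ([1, 0, 0, 1, 0, 0, 0, 0], 2)]⟩

theorem tord8r_80_ok : tord8r_80.OK 8 := TT.leaf_ok (T := ttd8r_80) (by decide +kernel)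

/-- the torus -/
def ttd8r_81 : TT where
  k := 4
  rf := [false, false, false, false]
  tau := [10, 17, 25, 19, 8, 15, 22, 30, 4, 18, 0, 29, 28, 27, 23, 5, 26, 1, 9, 3, 24, 31, 6, 14, 20, 2, 16, 13, 12,
    11, 7, 21]
  par := [0, 0, 1, 2]
  stars := [[0, 30, 11], [1, 10, 18], [2, 17, 26], [3, 25, 20], [4, 19, 9], [5, 8], [6, 15, 23], [7, 22, 31], [12,
    29], [13, 28], [14, 27, 16], [21, 24]]
  word := [[], [], [], [0], [0], [0], [0, 2], [0, 2, 1], [1], [], [], [2], [2], [2], [2], [1], [], [], [], [1], [1],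
    [1], [3, 1], [3], [0], [], [], [3], [3], [3], [0, 3, 1], [0]]
  rank := [0, 0, 0, 0, 2, 3, 4, 5, 2, 1, 0, 2, 1, 0, 2, 3, 1, 0, 1, 0, 1, 2, 4, 2, 1, 0, 1, 0, 1, 2, 5, 2]
  just := [0, 0, 0, 0, 4, 5, 6, 7, 4, 1, 0, 8, 9, 0, 10, 5, 2, 0, 1, 0, 3, 11, 6, 10, 3, 0, 2, 0, 9, 8, 7, 11]
  gA := 3
  gB := 13
  fin := 0
  sid := [0, 1, 2, 3, 4, 5, 6, 7, 5, 4, 1, 0, 8, 9, 10, 6, 10, 2, 1, 4, 3, 11, 7, 6, 11, 3, 2, 10, 9, 8, 0, 7]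
  off := [(0, 0), (0, 0), (0, 0), (0, 0), (0, 0), (0, 0), (0, 0), (0, 0), (-1, 0), (-1, 0), (0, 0), (0, 0), (0, 0),
    (0, 0), (0, 0), (-1, 0), (0, -1), (0, 0), (0, 0), (-1, 0), (-1, 0), (0, 0), (-1, -1), (-1, -1), (1, 0), (0, 0),
    (0, 0), (0, -1), (0, -1), (0, -1), (0, -1), (0, -1)]

/-- glued arcs and equations -/
def tord8r_81 : TorT :=
  ⟨[(0, 2, true), (0, 4, true), (1, 1, true), (1, 2, true), (3, 3, true), (3, 5, true), (4, 4, true), (5, 7, true),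
    (6, 6, true), (6, 7, true)],
    [([0, 0, 0, 0, 0, 0, 1, 2], 2), ([0, 0, 0, 0, 1, 1, 0, 0], 2), ([0, 1, 0, 1, 1, 0, 0, 0], 2), ([0, 1, 2, 0, 0, 0,
    0, 0], 2), ([1, 0, 0, 0, 0, 1, 0, 0], 2), ([1, 0, 0, 1, 0, 0, 1, 0], 2)]⟩

theorem tord8r_81_ok : tord8r_81.OK 8 := TT.leaf_ok (T := ttd8r_81) (by decide +kernel)

/-- the torus -/
def ttd8r_82 : TT where
  k := 4
  rf := [false, false, false, false]
  tau := [9, 17, 24, 21, 20, 19, 15, 29, 18, 0, 28, 27, 26, 23, 30, 6, 25, 1, 8, 5, 4, 3, 31, 13, 2, 16, 12, 11, 10,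
    7, 14, 22]
  par := [0, 0, 1, 2]
  stars := [[0, 29, 10], [1, 9, 18], [2, 17, 25], [3, 24, 22], [4, 21], [5, 20], [6, 19, 8], [7, 15, 30], [11, 28],
    [12, 27], [13, 26, 16], [14, 23, 31]]
  word := [[], [], [], [0], [0], [0], [0], [0, 2, 1], [], [], [2], [2], [2], [2], [2, 1], [1], [], [], [], [1], [1],
    [1], [1], [3], [], [], [3], [3], [3], [0, 3, 1], [0, 3], [0]]
  rank := [0, 0, 0, 0, 1, 2, 3, 4, 1, 0, 2, 1, 0, 2, 3, 3, 1, 0, 1, 2, 1, 0, 1, 2, 0, 1, 0, 1, 2, 4, 3, 1]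
  just := [0, 0, 0, 0, 4, 5, 6, 7, 1, 0, 8, 9, 0, 10, 11, 6, 2, 0, 1, 5, 4, 0, 3, 10, 0, 2, 0, 9, 8, 7, 11, 3]
  gA := 3
  gB := 12
  fin := 0
  sid := [0, 1, 2, 3, 4, 5, 6, 7, 6, 1, 0, 8, 9, 10, 11, 7, 10, 2, 1, 6, 5, 4, 3, 11, 3, 2, 10, 9, 8, 0, 7, 11]
  off := [(0, 0), (0, 0), (0, 0), (0, 0), (0, 0), (0, 0), (0, 0), (0, 0), (-1, 0), (0, 0), (0, 0), (0, 0), (0, 0),
    (0, 0), (0, 0), (-1, 0), (0, -1), (0, 0), (0, 0), (-1, 0), (-1, 0), (-1, 0), (-1, 0), (0, -1), (0, 0), (0, 0),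
    (0, -1), (0, -1), (0, -1), (0, -1), (0, -1), (1, -1)]

/-- glued arcs and equations -/
def tord8r_82 : TorT :=
  ⟨[(0, 1, true), (0, 2, true), (1, 1, true), (2, 4, true), (3, 3, true), (3, 5, true), (4, 4, true), (5, 7, true),
    (6, 6, true), (6, 7, true)],
    [([0, 0, 0, 0, 0, 0, 1, 2], 2), ([0, 0, 0, 0, 1, 1, 0, 0], 2), ([0, 0, 0, 1, 1, 0, 0, 0], 2), ([0, 2, 1, 0, 0, 0,
    0, 0], 2), ([1, 0, 0, 1, 0, 0, 1, 0], 2), ([1, 0, 1, 0, 0, 1, 0, 0], 2)]⟩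

theorem tord8r_82_ok : tord8r_82.OK 8 := TT.leaf_ok (T := ttd8r_82) (by decide +kernel)

/-- the torus -/
def ttd8r_83 : TT where
  k := 12
  rf := [false, false, false, false, false, false, false, false, true, true, true, true]
  tau := [10, 9, 8, 23, 30, 32, 39, 19, 2, 1, 0, 47, 54, 56, 63, 43, 42, 41, 40, 7, 38, 24, 31, 3, 21, 37, 69, 70,
    76, 33, 4, 22, 5, 29, 77, 78, 68, 25, 20, 6, 18, 17, 16, 15, 62, 48, 55, 11, 45, 61, 85, 86, 92, 57, 12, 46, 13,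
    53, 93, 94, 84, 49, 44, 14, 82, 81, 80, 79, 36, 26, 27, 75, 90, 89, 88, 71, 28, 34, 35, 67, 66, 65, 64, 95, 60,
    50, 51, 91, 74, 73, 72, 87, 52, 58, 59, 83]
  par := [0, 0, 3, 4, 5, 11, 12, 13, 26, 28, 50, 52]
  stars := [[0, 19, 40, 11], [1, 10], [2, 9], [3, 8, 43, 16], [4, 23, 31], [5, 30, 33], [6, 32], [7, 39, 20], [12,
    47, 55], [13, 54, 57], [14, 56], [15, 63, 44], [17, 42], [18, 41], [21, 38, 25], [22, 24], [26, 37, 69], [27,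
    70], [28, 71, 76], [29, 77, 34], [35, 78], [36, 79, 68], [45, 62, 49], [46, 48], [50, 61, 85], [51, 86], [52, 87,
    92], [53, 93, 58], [59, 94], [60, 95, 84], [64, 83, 88, 75], [65, 82], [66, 81], [67, 72, 91, 80], [73, 90], [74,
    89]]
  word := [[], [], [], [], [], [], [], [0, 2, 1], [], [], [], [], [], [], [], [3], [3], [3], [3], [0, 3, 1], [0, 3,
    1], [], [], [], [], [0, 3, 1], [], [], [], [], [], [], [], [], [], [], [0, 2, 1], [0, 2, 1], [0, 2, 1], [], [2],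
    [2], [2], [2], [2], [], [], [], [], [2], [], [], [], [], [], [], [], [], [], [], [3], [3], [3], [], [0, 3], [0,
    3], [0, 3], [0, 3, 1], [0, 3, 1], [], [], [], [0], [0], [0], [], [], [], [], [0, 2, 1], [2, 1], [2, 1], [2, 1],
    [2], [2], [], [], [], [1], [1], [1], [], [], [], [], [3]]
  rank := [0, 1, 2, 0, 0, 0, 1, 10, 2, 1, 0, 0, 0, 0, 1, 7, 8, 9, 10, 10, 9, 2, 1, 0, 2, 8, 0, 1, 0, 1, 0, 1, 0, 1,
    2, 3, 7, 8, 9, 1, 10, 9, 8, 7, 6, 2, 1, 0, 2, 5, 0, 1, 0, 1, 0, 1, 0, 1, 2, 3, 4, 5, 6, 1, 3, 4, 5, 6, 7, 0, 1,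
    2, 2, 1, 0, 2, 0, 2, 3, 6, 5, 4, 3, 0, 4, 0, 1, 2, 0, 1, 2, 2, 0, 2, 3, 0]
  just := [0, 1, 2, 0, 0, 0, 6, 7, 2, 1, 0, 0, 0, 0, 10, 11, 3, 12, 13, 7, 14, 15, 4, 0, 15, 16, 0, 17, 0, 5, 0, 4,
    0, 5, 19, 20, 21, 16, 14, 6, 13, 12, 3, 11, 22, 23, 8, 0, 23, 24, 0, 25, 0, 9, 0, 8, 0, 9, 27, 28, 29, 24, 22,
    10, 30, 31, 32, 33, 21, 0, 17, 18, 34, 35, 0, 18, 0, 19, 20, 33, 32, 31, 30, 0, 29, 0, 25, 26, 0, 35, 34, 26, 0,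
    27, 28, 0]
  gA := 74
  gB := 83
  fin := 0
  sid := [0, 1, 2, 3, 4, 5, 6, 7, 3, 2, 1, 0, 8, 9, 10, 11, 3, 12, 13, 0, 7, 14, 15, 4, 15, 14, 16, 17, 18, 19, 5, 4,
    6, 5, 19, 20, 21, 16, 14, 7, 0, 13, 12, 3, 11, 22, 23, 8, 23, 22, 24, 25, 26, 27, 9, 8, 10, 9, 27, 28, 29, 24,
    22, 11, 30, 31, 32, 33, 21, 16, 17, 18, 33, 34, 35, 30, 18, 19, 20, 21, 33, 32, 31, 30, 29, 24, 25, 26, 30, 35,
    34, 33, 26, 27, 28, 29]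
  off := [(0, 0), (0, 0), (0, 0), (0, 0), (0, 0), (0, 0), (0, 0), (0, 0), (0, 0), (0, 0), (0, 0), (0, 0), (0, 0), (0,
    0), (0, 0), (0, 0), (0, 0), (0, 0), (0, 0), (0, -1), (0, -1), (0, 0), (0, 0), (0, 0), (0, 0), (0, 0), (0, 0), (0,
    0), (0, 0), (0, 0), (0, 0), (0, 0), (0, 0), (0, 0), (0, 0), (0, 0), (0, 0), (0, 1), (0, 1), (0, 0), (0, 0), (0,
    1), (0, 1), (0, 1), (0, 1), (0, 0), (0, 0), (0, 0), (0, 0), (0, 0), (0, 0), (0, 0), (0, 0), (0, 0), (0, 0), (0,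
    0), (0, 0), (0, 0), (0, 0), (0, 0), (0, 0), (0, -1), (0, -1), (0, 0), (0, 0), (0, 0), (0, 0), (0, 0), (0, -1),
    (0, 0), (0, 0), (0, 0), (0, 1), (0, 0), (0, 0), (0, 0), (0, 0), (0, 0), (0, 0), (0, 0), (-1, 1), (-1, 1), (-1,
    1), (-1, 1), (0, 1), (0, 0), (0, 0), (0, 0), (-1, 0), (-1, 0), (-1, 0), (-1, 1), (0, 0), (0, 0), (0, 0), (0, 0)]

/-- glued arcs and equations -/
def tord8r_83 : TorT :=
  ⟨[(0, 2, true), (0, 5, true), (1, 1, true), (1, 5, true), (2, 5, false), (3, 6, false), (3, 7, true), (4, 4,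
    false), (4, 6, true), (6, 7, true)],
    [([0, 0, 0, 0, 1, 0, 0, 2], 2), ([0, 0, 0, 0, 2, 0, 0, 1], 2), ([0, 0, 0, 1, 0, 0, 1, 0], 2), ([0, 0, 1, 0, 0, 2,
    0, 0], 2), ([0, 1, 0, 0, 0, 1, 1, 0], 2), ([0, 1, 1, 0, 0, 0, 0, 0], 2), ([1, 0, 0, 0, 0, 0, 1, 0], 2), ([2, 0,
    0, 2, 0, 0, 0, 0], 2)]⟩

theorem tord8r_83_ok : tord8r_83.OK 8 := TT.leaf_ok (T := ttd8r_83) (by decide +kernel)

/-- the torus -/
def ttd8r_84 : TT where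
  k := 3
  rf := [false, false, true]
  tau := [9, 16, 17, 12, 23, 8, 15, 20, 5, 0, 21, 22, 3, 18, 19, 6, 1, 2, 13, 14, 7, 10, 11, 4]
  par := [0, 0, 1]
  stars := [[0, 21, 10], [1, 9, 5, 16], [2, 17], [3, 18, 13], [4, 12, 23], [6, 8], [7, 15, 20], [11, 22], [14, 19]]
  word := [[], [], [], [0], [2], [2], [2], [2, 1], [3], [], [1, 2], [1, 2], [1], [1], [1], [3], [], [], [0], [0], [0,
    3], [3, 0], [3, 0], [3]]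
  rank := [0, 0, 1, 0, 0, 1, 2, 4, 1, 0, 2, 1, 0, 2, 3, 2, 0, 1, 2, 3, 4, 2, 1, 0]
  just := [0, 0, 2, 0, 0, 1, 5, 6, 1, 0, 7, 4, 0, 3, 8, 5, 0, 2, 3, 8, 6, 7, 4, 0]
  gA := 3
  gB := 4
  fin := 0
  sid := [0, 1, 2, 3, 4, 1, 5, 6, 5, 1, 0, 7, 4, 3, 8, 6, 1, 2, 3, 8, 6, 0, 7, 4]
  off := [(0, 0), (0, 0), (0, 0), (0, 0), (0, 0), (0, 1), (0, 0), (0, 0), (0, -1), (0, 0), (0, 0), (0, 0), (-1, 0),
    (-1, 0), (0, 0), (0, -1), (0, 0), (0, 0), (0, 0), (1, 0), (1, -1), (1, -1), (1, -1), (0, -1)]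

/-- glued arcs and equations -/
def tord8r_84 : TorT :=
  ⟨[(0, 1, false), (0, 1, true), (0, 5, true), (1, 2, false), (2, 5, false), (3, 4, true), (3, 6, false), (4, 7,
    false), (6, 7, true)],
    [([0, 0, 0, 0, 1, 0, 0, 2], 2), ([0, 0, 0, 0, 2, 0, 0, 1], 2), ([0, 0, 0, 1, 0, 0, 1, 0], 2), ([0, 0, 1, 1, 0, 1,
    0, 0], 2), ([0, 1, 1, 0, 0, 0, 0, 0], 2), ([1, 0, 0, 0, 0, 0, 1, 0], 2), ([1, 0, 1, 0, 0, 1, 0, 0], 2), ([1, 2,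
    0, 0, 0, 1, 0, 0], 2)]⟩

theorem tord8r_84_ok : tord8r_84.OK 8 := TT.leaf_ok (T := ttd8r_84) (by decide +kernel)

/-- the torus -/
def ttd8r_85 : TT where
  k := 8
  rf := [false, false, true, false, true, false, true, true]
  tau := [13, 16, 17, 27, 28, 18, 19, 14, 33, 34, 37, 38, 23, 0, 7, 20, 1, 2, 5, 6, 15, 32, 39, 12, 45, 48, 49, 3, 4,
    50, 51, 46, 21, 8, 9, 59, 60, 10, 11, 22, 57, 58, 61, 62, 55, 24, 31, 52, 25, 26, 29, 30, 47, 56, 63, 44, 53, 40,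
    41, 35, 36, 42, 43, 54]
  par := [0, 0, 1, 3, 8, 24, 25, 35]
  stars := [[0, 14], [1, 13, 16], [2, 17], [3, 18, 5, 28], [4, 27, 50, 29], [6, 19], [7, 20, 15], [8, 21, 33], [9,
    34], [10, 35, 60, 37], [11, 38], [12, 39, 23], [22, 32], [24, 46], [25, 45, 48], [26, 49], [30, 51], [31, 52,
    47], [36, 61, 42, 59], [40, 53, 57], [41, 58], [43, 62], [44, 63, 55], [54, 56]]
  word := [[], [], [], [], [2, 1], [2, 1], [2, 1], [2, 1, 3, 0], [], [], [3, 0], [3, 0], [], [], [1, 2, 0, 3], [1,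
    2], [], [], [0, 3], [0, 3], [3, 0], [3, 0], [3, 0], [], [], [], [], [], [0, 3], [0, 3], [0, 3], [], [1, 2], [],
    [], [], [1, 2], [1, 2], [1, 2], [1, 2], [0], [0], [2], [2], [], [], [], [0, 3], [], [], [2, 1], [2, 1], [2, 1],
    [2], [2], [], [3], [1], [1], [], [3, 0], [3], [3], [3]]
  rank := [0, 0, 1, 0, 7, 8, 9, 10, 0, 1, 3, 4, 1, 0, 10, 7, 0, 1, 8, 9, 7, 6, 5, 1, 0, 0, 1, 0, 7, 6, 5, 1, 6, 0, 1,
    0, 2, 3, 4, 5, 1, 0, 1, 0, 1, 0, 1, 4, 0, 1, 6, 5, 4, 3, 2, 1, 3, 1, 0, 0, 2, 1, 0, 2]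
  just := [0, 0, 2, 0, 4, 3, 5, 6, 0, 8, 9, 10, 1, 0, 6, 7, 0, 2, 3, 5, 7, 12, 11, 1, 0, 0, 15, 0, 4, 16, 17, 13, 12,
    0, 8, 0, 18, 9, 10, 11, 20, 0, 21, 0, 14, 0, 13, 19, 0, 15, 16, 17, 19, 23, 22, 14, 23, 20, 0, 0, 18, 21, 0, 22]
  gA := 41
  gB := 43
  fin := 0
  sid := [0, 1, 2, 3, 4, 3, 5, 6, 7, 8, 9, 10, 11, 1, 0, 6, 1, 2, 3, 5, 6, 7, 12, 11, 13, 14, 15, 4, 3, 4, 16, 17,
    12, 7, 8, 9, 18, 9, 10, 11, 19, 20, 18, 21, 22, 14, 13, 17, 14, 15, 4, 16, 17, 19, 23, 22, 23, 19, 20, 18, 9, 18,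
    21, 22]
  off := [(0, 0), (0, 0), (0, 0), (0, 0), (0, 0), (-1, 1), (0, 0), (0, 0), (0, 0), (0, 0), (0, 0), (0, 0), (0, 0),
    (0, 0), (0, 0), (0, 0), (0, 0), (0, 0), (0, 0), (1, -1), (1, -1), (1, -1), (0, 0), (0, 0), (0, 0), (0, 0), (0,
    0), (0, 0), (0, 0), (1, -1), (0, 0), (0, 0), (-1, 1), (0, 0), (0, 0), (0, 0), (0, 0), (-1, 1), (-1, 1), (-1, 1),
    (0, 0), (0, 0), (1, 0), (0, 0), (0, 0), (0, 0), (0, 0), (0, 0), (0, 0), (0, 0), (0, 0), (-1, 1), (-1, 1), (-1,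
    1), (0, 0), (0, 0), (0, -1), (-1, 0), (-1, 0), (0, 0), (0, 0), (1, -1), (0, -1), (0, -1)]

/-- glued arcs and equations -/
def tord8r_85 : TorT :=
  ⟨[(0, 1, false), (0, 5, true), (1, 2, false), (2, 5, false), (3, 3, true), (3, 6, false), (4, 4, true), (4, 7,
    false), (6, 7, true)],
    [([0, 0, 0, 0, 1, 0, 0, 2], 2), ([0, 0, 0, 1, 0, 0, 1, 0], 2), ([0, 0, 1, 1, 1, 1, 0, 0], 2), ([0, 1, 1, 0, 0, 0,
    0, 0], 2), ([1, 0, 0, 0, 0, 0, 1, 0], 2), ([1, 1, 0, 0, 0, 1, 0, 0], 2)]⟩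

theorem tord8r_85_ok : tord8r_85.OK 8 := TT.leaf_ok (T := ttd8r_85) (by decide +kernel)

/-- the torus -/
def ttd8r_86 : TT where
  k := 8
  rf := [false, true, false, false, true, true, false, true]
  tau := [9, 10, 5, 19, 20, 2, 11, 30, 29, 0, 1, 6, 31, 24, 39, 28, 41, 42, 21, 3, 4, 18, 43, 54, 13, 32, 33, 38, 15,
    8, 7, 12, 25, 26, 37, 59, 60, 34, 27, 14, 53, 16, 17, 22, 55, 48, 63, 52, 45, 56, 57, 62, 47, 40, 23, 44, 49, 50,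
    61, 35, 36, 58, 51, 46]
  par := [0, 0, 3, 7, 14, 16, 23, 35]
  stars := [[0, 30, 9], [1, 10], [2, 11, 6], [3, 5, 20], [4, 19, 21], [7, 12, 31], [8, 29], [13, 24], [14, 32, 25],
    [15, 28, 39], [16, 54, 41], [17, 42], [18, 43, 22], [23, 44, 55], [26, 33], [27, 34, 38], [35, 60, 37], [36, 61,
    59], [40, 53], [45, 48], [46, 56, 49], [47, 52, 63], [50, 57], [51, 58, 62]]
  word := [[], [], [0], [], [1], [1], [1], [], [3, 1, 2, 0], [], [], [0], [0], [0], [], [3, 1, 2, 0], [], [], [1],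
    [], [0], [0], [0], [], [1], [1], [1], [1, 3, 0, 2], [1, 3, 0, 2], [1, 3, 0, 2], [], [1], [0], [0], [3, 0, 2], [],
    [3, 1, 2], [3, 1, 2], [3, 1, 2, 0], [], [], [], [], [1], [1], [1], [2], [], [0], [0, 2], [0, 2], [2], [], [], [],
    [0], [3, 1], [3, 1], [3, 1, 2], [], [3, 0, 2], [3, 0, 2], [3], [3]]
  rank := [0, 1, 4, 0, 3, 4, 5, 0, 12, 0, 1, 5, 6, 7, 0, 11, 0, 1, 2, 0, 3, 2, 0, 0, 7, 8, 9, 10, 11, 12, 0, 6, 8, 9,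
    7, 0, 6, 7, 10, 0, 1, 0, 1, 0, 1, 2, 0, 2, 2, 3, 4, 3, 2, 1, 0, 1, 3, 4, 5, 0, 6, 5, 3, 0]
  just := [0, 1, 3, 0, 4, 3, 2, 0, 6, 0, 1, 2, 5, 7, 0, 9, 0, 11, 12, 0, 4, 12, 0, 0, 7, 8, 14, 15, 9, 6, 0, 5, 8,
    14, 16, 0, 17, 16, 15, 0, 10, 0, 11, 0, 13, 19, 0, 18, 19, 20, 22, 21, 18, 10, 0, 13, 20, 22, 23, 0, 17, 23, 21,
    0]
  gA := 22
  gB := 46
  fin := 0
  sid := [0, 1, 2, 3, 4, 3, 2, 5, 6, 0, 1, 2, 5, 7, 8, 9, 10, 11, 12, 4, 3, 4, 12, 13, 7, 8, 14, 15, 9, 6, 0, 5, 8,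
    14, 15, 16, 17, 16, 15, 9, 18, 10, 11, 12, 13, 19, 20, 21, 19, 20, 22, 23, 21, 18, 10, 13, 20, 22, 23, 17, 16,
    17, 23, 21]
  off := [(0, 0), (0, 0), (0, 0), (0, 0), (0, 0), (-1, 0), (-1, 0), (0, 0), (0, 0), (0, 0), (0, 0), (0, 0), (1, 0),
    (0, 0), (0, 0), (0, 0), (0, 0), (0, 0), (0, 0), (0, 0), (0, 0), (1, 0), (1, 0), (0, 0), (-1, 0), (-1, 0), (0, 0),
    (0, 0), (0, 0), (0, 0), (0, 0), (0, 0), (0, 0), (1, 0), (1, 0), (0, 0), (0, 0), (-1, 0), (0, 0), (0, 0), (0, 0),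
    (0, 0), (0, 0), (0, 0), (-1, 0), (0, 0), (0, 0), (0, 0), (1, 0), (1, 0), (0, 0), (0, 0), (0, 0), (0, 0), (0, 0),
    (0, 0), (0, -1), (-1, -1), (-1, -1), (0, 0), (0, 0), (1, 0), (0, -1), (0, -1)]

/-- glued arcs and equations -/
def tord8r_86 : TorT :=
  ⟨[(0, 1, false), (0, 5, false), (1, 2, false), (2, 5, true), (3, 3, true), (3, 6, false), (4, 4, true), (4, 7,
    false), (6, 7, true)],
    [([0, 0, 0, 0, 1, 0, 0, 2], 2), ([0, 0, 0, 1, 1, 1, 0, 0], 2), ([0, 0, 1, 1, 0, 0, 1, 0], 2), ([0, 1, 1, 0, 0, 0,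
    0, 0], 2), ([1, 0, 0, 0, 0, 1, 0, 0], 2), ([1, 1, 0, 0, 0, 0, 1, 0], 2)]⟩

theorem tord8r_86_ok : tord8r_86.OK 8 := TT.leaf_ok (T := ttd8r_86) (by decide +kernel)

/-- the torus -/
def ttd8r_87 : TT where
  k := 12
  rf := [false, false, false, false, false, false, true, true, true, true, true, true]
  tau := [8, 16, 23, 24, 19, 18, 17, 15, 0, 32, 39, 40, 35, 34, 33, 7, 1, 6, 5, 4, 27, 26, 25, 2, 3, 22, 21, 20, 54,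
    55, 52, 53, 9, 14, 13, 12, 43, 42, 41, 10, 11, 38, 37, 36, 62, 63, 60, 61, 67, 78, 77, 76, 30, 31, 28, 29, 83,
    94, 93, 92, 46, 47, 44, 45, 80, 72, 79, 48, 75, 74, 73, 87, 65, 70, 69, 68, 51, 50, 49, 66, 64, 88, 95, 56, 91,
    90, 89, 71, 81, 86, 85, 84, 59, 58, 57, 82]
  par := [0, 0, 1, 3, 9, 11, 28, 44, 48, 49, 56, 57]
  stars := [[0, 15, 33, 9], [1, 8, 7, 17], [2, 16], [3, 23, 25], [4, 24, 54, 28, 20], [5, 19], [6, 18], [10, 32],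
    [11, 39, 41], [12, 40, 62, 44, 36], [13, 35], [14, 34], [21, 27], [22, 26], [29, 55], [30, 48, 68, 76, 52], [31,
    53], [37, 43], [38, 42], [45, 63], [46, 56, 84, 92, 60], [47, 61], [49, 79, 67], [50, 78], [51, 77], [57, 95,
    83], [58, 94], [59, 93], [64, 81, 89, 87], [65, 73, 71, 80], [66, 72], [69, 75], [70, 74], [82, 88], [85, 91],
    [86, 90]]
  word := [[], [], [], [], [2, 1], [2, 1], [2, 1], [2, 1], [], [], [], [], [3, 0], [3, 0], [3, 0], [0, 3], [], [0,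
    3], [0, 3], [0, 3], [], [], [], [], [], [], [], [], [], [], [2, 1], [2, 1], [], [1, 2], [1, 2], [1, 2], [], [],
    [], [], [], [], [], [], [], [], [3, 0], [3, 0], [], [], [], [], [0, 3], [0, 3], [], [], [], [], [], [], [1, 2],
    [1, 2], [], [], [0], [], [], [], [2, 1], [2, 1], [2, 1], [2], [], [0, 3], [0, 3], [0, 3], [], [], [], [], [1],
    [], [], [], [3, 0], [3, 0], [3, 0], [3], [], [1, 2], [1, 2], [1, 2], [], [], [], []]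
  rank := [0, 0, 1, 0, 8, 9, 10, 11, 0, 0, 1, 0, 8, 9, 10, 11, 0, 10, 9, 8, 4, 3, 2, 1, 0, 2, 3, 4, 0, 1, 6, 7, 0,
    10, 9, 8, 4, 3, 2, 1, 0, 2, 3, 4, 0, 1, 6, 7, 0, 0, 1, 2, 6, 7, 0, 1, 0, 0, 1, 2, 6, 7, 0, 1, 0, 2, 1, 0, 5, 4,
    3, 0, 2, 3, 4, 5, 2, 1, 0, 1, 0, 2, 1, 0, 5, 4, 3, 0, 2, 3, 4, 5, 2, 1, 0, 1]
  just := [0, 0, 2, 0, 4, 5, 6, 1, 0, 0, 7, 0, 9, 10, 11, 1, 0, 6, 5, 4, 12, 13, 3, 2, 0, 3, 13, 12, 0, 14, 15, 16,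
    0, 11, 10, 9, 17, 18, 8, 7, 0, 8, 18, 17, 0, 19, 20, 21, 0, 0, 23, 24, 15, 16, 0, 14, 0, 0, 26, 27, 20, 21, 0,
    19, 0, 30, 22, 0, 31, 32, 29, 0, 30, 29, 32, 31, 24, 23, 0, 22, 0, 33, 25, 0, 34, 35, 28, 0, 33, 28, 35, 34, 27,
    26, 0, 25]
  gA := 64
  gB := 71
  fin := 0
  sid := [0, 1, 2, 3, 4, 5, 6, 1, 1, 0, 7, 8, 9, 10, 11, 0, 2, 1, 6, 5, 4, 12, 13, 3, 4, 3, 13, 12, 4, 14, 15, 16, 7,
    0, 11, 10, 9, 17, 18, 8, 9, 8, 18, 17, 9, 19, 20, 21, 15, 22, 23, 24, 15, 16, 4, 14, 20, 25, 26, 27, 20, 21, 9,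
    19, 28, 29, 30, 22, 15, 31, 32, 29, 30, 29, 32, 31, 15, 24, 23, 22, 29, 28, 33, 25, 20, 34, 35, 28, 33, 28, 35,
    34, 20, 27, 26, 25]
  off := [(0, 0), (0, 0), (0, 0), (0, 0), (0, 0), (0, 0), (0, 0), (-1, 1), (0, 0), (0, 0), (0, 0), (0, 0), (0, 0),
    (0, 0), (0, 0), (1, -1), (0, 0), (0, 0), (1, -1), (1, -1), (1, -1), (0, 0), (0, 0), (0, 0), (0, 0), (0, 0), (0,
    0), (0, 0), (1, -1), (0, 0), (0, 0), (0, 0), (0, 0), (0, 0), (-1, 1), (-1, 1), (-1, 1), (0, 0), (0, 0), (0, 0),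
    (0, 0), (0, 0), (0, 0), (0, 0), (-1, 1), (0, 0), (0, 0), (0, 0), (0, 0), (0, 0), (0, 0), (0, 0), (1, -1), (1,
    -1), (1, -1), (0, 0), (0, 0), (0, 0), (0, 0), (0, 0), (-1, 1), (-1, 1), (-1, 1), (0, 0), (0, 0), (0, 0), (0, 0),
    (0, 0), (0, 0), (0, 0), (0, 0), (-1, 1), (0, 0), (0, 0), (1, -1), (1, -1), (1, -1), (0, 0), (0, 0), (0, 0), (-1,
    0), (-1, 0), (0, 0), (0, 0), (0, 0), (0, 0), (0, 0), (0, -1), (0, 0), (-1, 0), (-1, 1), (-1, 1), (-1, 1), (0, 0),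
    (0, 0), (0, 0)]

/-- glued arcs and equations -/
def tord8r_87 : TorT :=
  ⟨[(0, 0, true), (0, 1, true), (0, 3, true), (1, 6, true), (2, 5, true), (2, 7, true), (3, 4, true), (4, 6, false),
    (5, 7, false), (7, 7, true)],
    [([0, 0, 0, 0, 0, 1, 0, 1], 2), ([0, 0, 0, 1, 0, 1, 0, 0], 2), ([0, 0, 1, 0, 0, 0, 1, 0], 2), ([0, 1, 0, 1, 0, 0,
    0, 1], 2), ([1, 0, 0, 0, 3, 0, 1, 0], 2), ([1, 0, 1, 0, 0, 0, 0, 0], 2), ([1, 2, 0, 0, 0, 0, 0, 1], 2)]⟩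

theorem tord8r_87_ok : tord8r_87.OK 8 := TT.leaf_ok (T := ttd8r_87) (by decide +kernel)

end Pool.Agent.Lib_MP_fa6e45
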