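import Pool.Agent.Lib_MP_fa6e45.CT5

/-!
MP_fa6e45_co, stage 9: straight-side patterns with `8` sides, tables of tori (generated by a program).
-/

namespace Pool.Agent.Lib_MP_fa6e45

/-- the torus -/
def ttd8r_88 : TT where
  k := 8
  rf := [false, false, true, false, false, false, true, false]
  tau := [8, 19, 29, 28, 35, 34, 40, 50, 0, 51, 61, 60, 43, 42, 32, 18, 57, 46, 15, 1, 30, 31, 24, 55, 22, 48, 37,
    36, 3, 2, 20, 21, 14, 41, 5, 4, 27, 26, 49, 47, 6, 33, 13, 12, 59, 58, 17, 39, 25, 38, 7, 9, 62, 63, 56, 23, 54,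
    16, 45, 44, 11, 10, 52, 53]
  par := [0, 0, 1, 2, 4, 6, 7, 10]
  stars := [[0, 51, 9], [1, 8, 19], [2, 20, 30], [3, 29], [4, 28, 36], [5, 35], [6, 34, 41], [7, 40, 39, 50], [10,
    52, 62], [11, 61], [12, 60, 44], [13, 43], [14, 42, 33], [15, 32, 47, 18], [16, 57, 55], [17, 46, 58], [21, 31],
    [22, 24], [23, 48, 25], [26, 49, 38], [27, 37], [45, 59], [53, 63], [54, 56]]
  word := [[], [], [], [], [], [], [], [], [], [0, 3, 1, 2], [], [], [0], [0], [0], [], [0, 2, 1], [0, 2], [], [],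
    [], [], [], [2], [], [2], [], [], [], [], [], [], [1], [], [], [], [], [], [2], [2], [], [], [1], [1], [1], [1],
    [3, 1], [3], [3], [3], [], [3, 0, 2, 1], [3, 0, 2, 1], [3, 0, 2, 1], [3, 0, 2, 1], [3], [0, 3, 1, 2], [0, 3, 1],
    [0], [0], [], [], [0, 3, 1, 2], [0, 3, 1, 2]]
  rank := [0, 0, 0, 1, 0, 1, 0, 0, 0, 9, 0, 1, 0, 1, 3, 1, 5, 4, 1, 0, 1, 2, 3, 5, 3, 4, 3, 2, 1, 0, 1, 2, 3, 2, 1,
    0, 2, 3, 0, 1, 0, 2, 1, 0, 2, 3, 4, 1, 4, 0, 0, 9, 8, 7, 6, 5, 6, 5, 3, 2, 1, 0, 8, 7]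
  just := [0, 0, 0, 3, 0, 5, 0, 0, 0, 8, 0, 9, 0, 11, 12, 1, 15, 13, 1, 0, 2, 16, 17, 18, 17, 19, 20, 4, 3, 0, 2, 16,
    12, 6, 5, 0, 4, 20, 0, 7, 0, 6, 11, 0, 10, 21, 13, 7, 19, 0, 0, 8, 22, 23, 14, 18, 14, 15, 21, 10, 9, 0, 22, 23]
  gA := 12
  gB := 38
  fin := 0
  sid := [0, 1, 2, 3, 4, 5, 6, 7, 1, 0, 8, 9, 10, 11, 12, 13, 14, 15, 13, 1, 2, 16, 17, 18, 17, 18, 19, 20, 4, 3, 2,
    16, 13, 12, 6, 5, 4, 20, 19, 7, 7, 6, 12, 11, 10, 21, 15, 13, 18, 19, 7, 0, 8, 22, 23, 14, 23, 14, 15, 21, 10, 9,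
    8, 22]
  off := [(0, 0), (0, 0), (0, 0), (0, 0), (0, 0), (0, 0), (0, 0), (0, 0), (0, 0), (0, 0), (0, 0), (0, 0), (0, 0), (0,
    0), (0, 0), (0, 0), (0, 0), (0, 0), (0, 0), (0, 0), (0, 0), (0, 0), (0, 0), (0, 0), (0, 0), (0, 0), (0, 0), (0,
    0), (0, 0), (0, 0), (0, 0), (0, 0), (-1, 0), (-1, 0), (0, 0), (0, 0), (0, 0), (0, 0), (0, 0), (0, 1), (0, 0), (0,
    0), (-1, 0), (-1, 0), (-1, 0), (0, 0), (-1, -1), (-1, -1), (0, -1), (0, -1), (0, 0), (0, 0), (0, 0), (0, 0), (0,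
    0), (0, -1), (0, 0), (0, -1), (0, -1), (1, 0), (0, 0), (0, 0), (0, 0), (0, 0)]

/-- glued arcs and equations -/
def tord8r_88 : TorT :=
  ⟨[(0, 0, true), (0, 1, false), (0, 6, false), (0, 6, true), (1, 1, true), (1, 3, false), (1, 6, false), (2, 5,
    true), (2, 7, false), (3, 4, true), (4, 6, false), (5, 7, false), (7, 7, true)],
    [([0, 0, 0, 0, 0, 1, 0, 1], 2), ([0, 0, 0, 0, 3, 0, 0, 0], 2), ([0, 0, 0, 1, 0, 1, 0, 0], 2), ([0, 0, 1, 0, 1, 0,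
    1, 0], 2), ([0, 1, 1, 0, 0, 0, 1, 0], 2), ([1, 0, 0, 0, 0, 0, 1, 0], 2), ([1, 0, 1, 0, 0, 0, 0, 2], 2), ([1, 1,
    0, 0, 0, 0, 0, 1], 2), ([1, 1, 0, 1, 0, 0, 0, 0], 2)]⟩

theorem tord8r_88_ok : tord8r_88.OK 8 := TT.leaf_ok (T := ttd8r_88) (by decide +kernel)

/-- the torus -/
def ttd8r_89 : TT where
  k := 12
  rf := [false, false, true, false, false, true, true, false, false, true, false, false]
  tau := [8, 19, 29, 28, 35, 34, 41, 50, 0, 51, 61, 60, 67, 66, 73, 18, 57, 86, 15, 1, 30, 31, 24, 55, 22, 48, 93,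
    92, 3, 2, 20, 21, 78, 40, 5, 4, 91, 90, 76, 77, 33, 6, 95, 81, 70, 71, 64, 79, 25, 94, 7, 9, 62, 63, 56, 23, 54,
    16, 85, 84, 11, 10, 52, 53, 46, 72, 13, 12, 83, 82, 44, 45, 65, 14, 87, 89, 38, 39, 32, 47, 88, 43, 69, 68, 59,
    58, 17, 74, 80, 75, 37, 36, 27, 26, 49, 42]
  par := [0, 0, 1, 2, 4, 6, 7, 10, 12, 14, 17, 26]
  stars := [[0, 51, 9], [1, 8, 19], [2, 20, 30], [3, 29], [4, 28, 92, 36], [5, 35], [6, 34, 41], [7, 42, 95, 50],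
    [10, 52, 62], [11, 61], [12, 60, 84, 68], [13, 67], [14, 66, 73], [15, 74, 87, 18], [16, 57, 55], [17, 86, 58],
    [21, 31], [22, 24], [23, 48, 25], [26, 49, 94], [27, 93], [32, 78], [33, 79, 40], [37, 91], [38, 90, 76], [39,
    77], [43, 81, 88], [44, 70, 82], [45, 71], [46, 64], [47, 72, 65], [53, 63], [54, 56], [59, 85], [69, 83], [75,
    89, 80]]
  word := [[], [], [], [], [], [], [], [], [], [1, 2, 0, 3], [], [], [], [], [], [], [3, 0], [], [], [], [], [], [],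
    [0, 3], [], [0, 3], [], [], [], [], [], [], [0], [], [], [], [], [], [0], [0], [], [], [2, 1], [2], [0], [0],
    [0], [0], [2, 1], [2, 1], [], [2, 1, 3, 0], [2, 1, 3, 0], [2, 1, 3, 0], [2, 1, 3, 0], [2, 1], [1, 2, 0, 3], [1,
    2], [1, 2], [1, 2], [], [], [1, 2, 0, 3], [1, 2, 0, 3], [1], [], [], [], [1, 2], [1, 2], [1], [1], [], [], [],
    [1], [1], [1], [1], [1], [1], [3], [3, 0], [3, 0], [3, 0], [3, 0], [], [], [0], [0], [], [], [], [], [0, 3], [0,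
    3]]
  rank := [0, 0, 0, 1, 0, 1, 0, 0, 0, 15, 0, 1, 0, 1, 0, 1, 11, 0, 1, 0, 1, 2, 3, 9, 3, 8, 0, 1, 1, 0, 1, 2, 0, 2, 1,
    0, 2, 3, 2, 1, 2, 0, 6, 0, 6, 5, 4, 3, 8, 7, 0, 15, 14, 13, 12, 9, 12, 11, 10, 9, 1, 0, 14, 13, 4, 2, 1, 0, 8, 7,
    6, 5, 2, 0, 2, 4, 2, 1, 0, 3, 5, 0, 7, 8, 9, 10, 0, 2, 5, 4, 3, 2, 1, 0, 7, 6]
  just := [0, 0, 0, 3, 0, 5, 0, 0, 0, 8, 0, 9, 0, 11, 0, 1, 15, 0, 1, 0, 2, 16, 17, 18, 17, 19, 0, 20, 3, 0, 2, 16,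
    0, 6, 5, 0, 4, 23, 25, 21, 6, 0, 26, 0, 28, 29, 30, 22, 19, 7, 0, 8, 31, 32, 14, 18, 14, 15, 33, 10, 9, 0, 31,
    32, 30, 12, 11, 0, 34, 27, 28, 29, 12, 0, 13, 24, 25, 21, 0, 22, 35, 0, 27, 34, 10, 33, 0, 13, 35, 24, 23, 4, 20,
    0, 7, 26]
  gA := 32
  gB := 43
  fin := 0
  sid := [0, 1, 2, 3, 4, 5, 6, 7, 1, 0, 8, 9, 10, 11, 12, 13, 14, 15, 13, 1, 2, 16, 17, 18, 17, 18, 19, 20, 4, 3, 2,
    16, 21, 22, 6, 5, 4, 23, 24, 25, 22, 6, 7, 26, 27, 28, 29, 30, 18, 19, 7, 0, 8, 31, 32, 14, 32, 14, 15, 33, 10,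
    9, 8, 31, 29, 30, 12, 11, 10, 34, 27, 28, 30, 12, 13, 35, 24, 25, 21, 22, 35, 26, 27, 34, 10, 33, 15, 13, 26, 35,
    24, 23, 4, 20, 19, 7]
  off := [(0, 0), (0, 0), (0, 0), (0, 0), (0, 0), (0, 0), (0, 0), (0, 0), (0, 0), (0, 0), (0, 0), (0, 0), (0, 0), (0,
    0), (0, 0), (0, 0), (0, 0), (0, 0), (0, 0), (0, 0), (0, 0), (0, 0), (0, 0), (0, 0), (0, 0), (0, 0), (0, 0), (0,
    0), (0, 0), (0, 0), (0, 0), (0, 0), (0, 0), (0, 0), (0, 0), (0, 0), (0, 0), (0, 0), (0, 0), (0, 0), (0, 0), (0,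
    0), (0, 0), (0, 0), (0, 0), (0, 0), (0, 0), (0, 0), (-1, 1), (-1, 1), (0, 0), (0, 0), (0, 0), (0, 0), (0, 0),
    (-1, 1), (0, 0), (-1, 1), (-1, 1), (0, 0), (0, 0), (0, 0), (0, 0), (0, 0), (-1, 0), (-1, 0), (0, 0), (0, 0), (0,
    0), (0, 0), (-1, 0), (-1, 0), (-1, 0), (0, 0), (0, 0), (0, 0), (-1, 0), (-1, 0), (-1, 0), (-1, 0), (0, 0), (0,
    -1), (0, -1), (1, -1), (1, -1), (1, -1), (0, 0), (0, 0), (1, -1), (1, 0), (0, 0), (0, 0), (0, 0), (0, 0), (0, 0),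
    (1, -1)]

/-- glued arcs and equations -/
def tord8r_89 : TorT :=
  ⟨[(0, 0, true), (0, 1, false), (0, 6, false), (1, 3, false), (1, 6, false), (2, 5, true), (2, 7, false), (3, 4,
    true), (4, 6, false), (5, 7, false), (7, 7, true)],
    [([0, 0, 0, 0, 0, 1, 0, 1], 2), ([0, 0, 0, 0, 4, 0, 0, 0], 2), ([0, 0, 0, 1, 0, 1, 0, 0], 2), ([0, 0, 1, 0, 1, 0,
    1, 0], 2), ([0, 0, 2, 0, 0, 0, 0, 2], 2), ([0, 1, 1, 0, 0, 0, 1, 0], 2), ([1, 0, 0, 0, 0, 0, 1, 0], 2), ([1, 1,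
    0, 0, 0, 0, 0, 1], 2), ([1, 1, 0, 1, 0, 0, 0, 0], 2)]⟩

theorem tord8r_89_ok : tord8r_89.OK 8 := TT.leaf_ok (T := ttd8r_89) (by decide +kernel)

/-- the torus -/
def ttd8r_90 : TT where
  k := 8
  rf := [false, false, false, false, true, true, true, true]
  tau := [8, 9, 7, 16, 19, 18, 17, 2, 0, 1, 15, 24, 27, 26, 25, 10, 3, 6, 5, 4, 38, 39, 36, 37, 11, 14, 13, 12, 46,
    47, 44, 45, 51, 54, 53, 52, 22, 23, 20, 21, 59, 62, 61, 60, 30, 31, 28, 29, 56, 57, 55, 32, 35, 34, 33, 50, 48,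
    49, 63, 40, 43, 42, 41, 58]
  par := [0, 0, 3, 11, 20, 28, 32, 40]
  stars := [[0, 2, 9], [1, 8, 10], [3, 7, 17], [4, 16, 38, 20], [5, 19], [6, 18], [11, 15, 25], [12, 24, 46, 28],
    [13, 27], [14, 26], [21, 39], [22, 32, 52, 36], [23, 37], [29, 47], [30, 40, 60, 44], [31, 45], [33, 55, 51],
    [34, 54], [35, 53], [41, 63, 59], [42, 62], [43, 61], [48, 57, 50], [49, 58, 56]]
  word := [[], [1, 2], [2, 1], [], [0, 3], [0, 3], [0, 3], [0, 3], [], [3, 0], [3, 0], [], [1, 2], [1, 2], [1, 2],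
    [1, 2], [], [2, 1], [2, 1], [2, 1], [], [], [0, 3], [0, 3], [], [3, 0], [3, 0], [3, 0], [], [], [1, 2], [1, 2],
    [], [2, 1], [2, 1], [2, 1], [2, 1], [2, 1], [], [], [], [3, 0], [3, 0], [3, 0], [3, 0], [3, 0], [], [], [0], [2],
    [2, 1], [], [0, 3], [0, 3], [0, 3], [0, 3], [1], [3], [3, 0], [], [1, 2], [1, 2], [1, 2], [1, 2]]
  rank := [0, 11, 10, 0, 7, 8, 9, 10, 0, 11, 10, 0, 7, 8, 9, 10, 0, 9, 8, 7, 0, 1, 5, 6, 0, 9, 8, 7, 0, 1, 5, 6, 0,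
    2, 3, 4, 5, 6, 0, 1, 0, 2, 3, 4, 5, 6, 0, 1, 0, 0, 1, 0, 4, 3, 2, 1, 0, 0, 1, 0, 4, 3, 2, 1]
  just := [0, 1, 2, 0, 3, 4, 5, 2, 0, 1, 6, 0, 7, 8, 9, 6, 0, 5, 4, 3, 0, 10, 11, 12, 0, 9, 8, 7, 0, 13, 14, 15, 0,
    16, 17, 18, 11, 12, 0, 10, 0, 19, 20, 21, 14, 15, 0, 13, 0, 0, 22, 0, 18, 17, 16, 22, 0, 0, 23, 0, 21, 20, 19, 23]
  gA := 48
  gB := 49
  fin := 0
  sid := [0, 1, 0, 2, 3, 4, 5, 2, 1, 0, 1, 6, 7, 8, 9, 6, 3, 2, 5, 4, 3, 10, 11, 12, 7, 6, 9, 8, 7, 13, 14, 15, 11,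
    16, 17, 18, 11, 12, 3, 10, 14, 19, 20, 21, 14, 15, 7, 13, 22, 23, 22, 16, 11, 18, 17, 16, 23, 22, 23, 19, 14, 21,
    20, 19]
  off := [(0, 0), (0, 0), (-1, 1), (0, 0), (0, 0), (0, 0), (0, 0), (1, -1), (0, 0), (0, 0), (1, -1), (0, 0), (0, 0),
    (0, 0), (0, 0), (-1, 1), (0, 0), (0, 0), (-1, 1), (-1, 1), (-1, 1), (0, 0), (0, 0), (0, 0), (0, 0), (0, 0), (1,
    -1), (1, -1), (1, -1), (0, 0), (0, 0), (0, 0), (0, 0), (0, 0), (0, 0), (0, 0), (-1, 1), (-1, 1), (-1, 1), (0, 0),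
    (0, 0), (0, 0), (0, 0), (0, 0), (1, -1), (1, -1), (1, -1), (0, 0), (0, 0), (0, 0), (-1, 1), (0, 0), (0, 0), (1,
    -1), (1, -1), (1, -1), (-1, 0), (-1, 0), (0, -1), (0, 0), (0, 0), (-1, 1), (-1, 1), (-1, 1)]

/-- glued arcs and equations -/
def tord8r_90 : TorT :=
  ⟨[(0, 0, true), (0, 3, true), (1, 1, true), (1, 6, true), (2, 5, true), (2, 7, true), (3, 4, true), (4, 6, false),
    (5, 7, false)],
    [([0, 0, 0, 0, 0, 1, 0, 1], 2), ([0, 0, 0, 1, 0, 1, 0, 0], 2), ([0, 0, 1, 0, 0, 0, 1, 0], 2), ([0, 1, 0, 1, 0, 0,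
    0, 1], 2), ([1, 0, 0, 0, 2, 0, 1, 0], 2), ([1, 1, 1, 0, 0, 0, 0, 0], 2)]⟩

theorem tord8r_90_ok : tord8r_90.OK 8 := TT.leaf_ok (T := ttd8r_90) (by decide +kernel)

/-- the torus -/
def ttd8r_91 : TT where
  k := 4
  rf := [false, false, true, true]
  tau := [9, 19, 13, 12, 22, 23, 16, 10, 30, 0, 7, 25, 3, 2, 28, 29, 6, 24, 31, 1, 27, 26, 4, 5, 17, 11, 21, 20, 14,
    15, 8, 18]
  par := [0, 0, 1, 8]
  stars := [[0, 10], [1, 9, 31, 19], [2, 20, 28, 14], [3, 13], [4, 12, 26, 22], [5, 23], [6, 16], [7, 17, 25, 11],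
    [8, 30], [15, 29], [18, 24], [21, 27]]
  word := [[], [], [2], [2], [0], [0], [0], [0, 3, 1, 2], [], [], [3, 0, 2, 1], [3, 0, 2], [3], [3], [], [], [1], [],
    [], [], [2], [2], [1], [1], [], [3, 1, 2], [3], [3], [], [], [], []]
  rank := [0, 0, 3, 4, 0, 1, 2, 6, 0, 0, 6, 5, 4, 3, 2, 1, 2, 2, 1, 0, 0, 1, 0, 1, 2, 5, 1, 0, 2, 1, 0, 1]
  just := [0, 0, 2, 3, 0, 5, 6, 7, 0, 0, 7, 4, 3, 2, 9, 8, 6, 10, 1, 0, 0, 11, 0, 5, 10, 4, 11, 0, 9, 8, 0, 1]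
  gA := 4
  gB := 20
  fin := 0
  sid := [0, 1, 2, 3, 4, 5, 6, 7, 8, 1, 0, 7, 4, 3, 2, 9, 6, 7, 10, 1, 2, 11, 4, 5, 10, 7, 4, 11, 2, 9, 8, 1]
  off := [(0, 0), (0, 0), (0, 0), (0, 0), (0, 0), (0, 0), (0, 0), (0, 0), (0, 0), (0, 0), (0, 0), (0, 0), (0, -1),
    (0, -1), (0, -1), (0, 0), (-1, 0), (-1, 0), (0, 0), (0, 0), (0, 0), (0, 0), (-1, 0), (-1, 0), (0, 0), (-1, 0),
    (-1, -1), (0, -1), (0, -1), (0, 0), (0, 0), (0, 0)]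

/-- glued arcs and equations -/
def tord8r_91 : TorT :=
  ⟨[(0, 1, true), (0, 6, false), (1, 3, false), (2, 5, true), (2, 7, true), (3, 4, true), (4, 6, false), (5, 7,
    false)],
    [([0, 0, 0, 0, 0, 1, 0, 1], 2), ([0, 0, 0, 1, 0, 1, 0, 0], 2), ([0, 0, 1, 0, 2, 0, 1, 0], 2), ([0, 2, 0, 1, 0, 0,
    0, 1], 2), ([1, 0, 0, 0, 0, 0, 1, 0], 2), ([1, 0, 1, 0, 0, 0, 0, 0], 2)]⟩

theorem tord8r_91_ok : tord8r_91.OK 8 := TT.leaf_ok (T := ttd8r_91) (by decide +kernel)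

/-- the torus -/
def ttd8r_92 : TT where
  k := 4
  rf := [false, false, false, false]
  tau := [14, 16, 23, 11, 19, 18, 8, 15, 6, 24, 31, 3, 27, 26, 0, 7, 1, 25, 5, 4, 30, 29, 28, 2, 9, 17, 13, 12, 22,
    21, 20, 10]
  par := [0, 0, 1, 9]
  stars := [[0, 15], [1, 14, 26, 17], [2, 16], [3, 23, 28, 12], [4, 11, 31, 20], [5, 19], [6, 18, 25, 9], [7, 8],
    [10, 24], [13, 27], [21, 30], [22, 29]]
  word := [[], [], [], [2, 1], [2, 1, 3], [2, 1, 3], [2, 1, 3, 0], [2, 1, 3, 0], [1, 2, 0, 3], [], [], [0, 3], [0],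
    [0], [], [1, 2, 0, 3], [], [0], [2, 0, 3], [2, 0, 3], [2], [2], [2], [], [], [1], [1], [1], [3], [3], [3], []]
  rank := [0, 0, 1, 2, 3, 4, 5, 6, 5, 0, 1, 2, 0, 1, 0, 6, 0, 2, 4, 3, 1, 0, 1, 1, 0, 2, 1, 0, 1, 0, 1, 1]
  just := [0, 0, 2, 3, 4, 5, 6, 7, 6, 0, 8, 3, 0, 9, 0, 7, 0, 1, 5, 4, 10, 0, 11, 2, 0, 1, 9, 0, 11, 0, 10, 8]
  gA := 12
  gB := 21
  fin := 0
  sid := [0, 1, 2, 3, 4, 5, 6, 7, 7, 6, 8, 4, 3, 9, 1, 0, 2, 1, 6, 5, 4, 10, 11, 3, 8, 6, 1, 9, 3, 11, 10, 4]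
  off := [(0, 0), (0, 0), (0, 0), (0, 0), (0, 0), (0, 0), (0, 0), (0, 0), (0, 0), (0, 0), (0, 0), (1, -1), (1, -1),
    (0, 0), (0, 0), (0, 0), (0, 0), (0, 0), (1, 0), (1, 0), (1, 0), (0, 0), (0, 0), (0, 0), (0, 0), (0, 0), (-1, 0),
    (-1, 0), (0, -1), (0, -1), (0, -1), (1, -1)]

/-- glued arcs and equations -/
def tord8r_92 : TorT :=
  ⟨[(0, 1, true), (0, 6, true), (1, 1, true), (2, 5, true), (2, 7, true), (3, 3, true), (3, 4, true), (4, 6, true),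
    (5, 5, true), (7, 7, true)],
    [([0, 0, 0, 0, 0, 1, 1, 0], 2), ([0, 0, 0, 1, 0, 1, 0, 0], 2), ([0, 0, 0, 1, 2, 0, 0, 1], 2), ([0, 2, 1, 0, 0, 0,
    1, 0], 2), ([1, 0, 0, 0, 0, 0, 0, 1], 2), ([1, 0, 1, 0, 0, 0, 0, 0], 2)]⟩

theorem tord8r_92_ok : tord8r_92.OK 8 := TT.leaf_ok (T := ttd8r_92) (by decide +kernel)

/-- the torus -/
def ttd8r_93 : TT where
  k := 4
  rf := [false, false, false, false]
  tau := [8, 6, 21, 20, 24, 31, 1, 15, 0, 14, 29, 28, 16, 23, 9, 7, 12, 27, 26, 25, 3, 2, 30, 13, 4, 19, 18, 17, 11,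
    10, 22, 5]
  par := [0, 0, 2, 4]
  stars := [[0, 15, 9], [1, 8, 7], [2, 6, 31, 22], [3, 21], [4, 20, 25], [5, 24], [10, 14, 23, 30], [11, 29], [12,
    28, 17], [13, 16], [18, 27], [19, 26]]
  word := [[], [2], [], [], [], [], [3], [3], [], [0, 3, 1], [0], [0], [0], [0], [0, 2, 1], [2], [1], [], [], [], [],
    [], [2], [1], [], [], [], [], [1], [1], [3], []]
  rank := [0, 2, 0, 1, 0, 1, 2, 3, 0, 7, 6, 5, 0, 1, 7, 3, 0, 4, 3, 2, 1, 0, 0, 1, 0, 2, 3, 4, 5, 6, 0, 1]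
  just := [0, 2, 0, 3, 0, 5, 2, 1, 0, 6, 7, 8, 0, 9, 6, 1, 0, 10, 11, 4, 3, 0, 0, 9, 0, 4, 11, 10, 8, 7, 0, 5]
  gA := 12
  gB := 22
  fin := 0
  sid := [0, 1, 2, 3, 4, 5, 2, 1, 1, 0, 6, 7, 8, 9, 6, 0, 9, 8, 10, 11, 4, 3, 2, 6, 5, 4, 11, 10, 8, 7, 6, 2]
  off := [(0, 0), (0, 0), (0, 0), (0, 0), (0, 0), (0, 0), (0, -1), (0, -1), (0, 0), (0, 0), (0, 0), (0, 0), (0, 0),
    (0, 0), (0, 1), (0, 1), (-1, 0), (-1, 0), (0, 0), (0, 0), (0, 0), (0, 0), (0, 0), (-1, 1), (0, 0), (0, 0), (0,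
    0), (0, 0), (-1, 0), (-1, 0), (-1, 0), (0, -1)]

/-- glued arcs and equations -/
def tord8r_93 : TorT :=
  ⟨[(0, 0, true), (0, 4, true), (1, 3, true), (1, 6, true), (2, 2, true), (2, 5, true), (3, 4, true), (5, 7, true),
    (6, 6, true), (7, 7, true)],
    [([0, 0, 0, 1, 0, 1, 0, 0], 2), ([0, 0, 1, 0, 0, 0, 2, 1], 2), ([0, 0, 1, 1, 0, 0, 0, 0], 2), ([0, 1, 0, 0, 2, 0,
    0, 0], 2), ([1, 0, 0, 0, 0, 1, 0, 0], 2), ([1, 1, 0, 0, 0, 0, 0, 1], 2)]⟩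

theorem tord8r_93_ok : tord8r_93.OK 8 := TT.leaf_ok (T := ttd8r_93) (by decide +kernel)

/-- the torus -/
def ttd8r_94 : TT where
  k := 4
  rf := [false, false, false, false]
  tau := [9, 19, 18, 17, 24, 31, 28, 10, 20, 0, 7, 27, 22, 29, 30, 21, 25, 3, 2, 1, 8, 15, 12, 26, 4, 16, 23, 11, 6,
    13, 14, 5]
  par := [0, 0, 1, 4]
  stars := [[0, 10], [1, 9, 20], [2, 19], [3, 18], [4, 17, 25], [5, 24], [6, 31, 14, 29], [7, 28, 11], [8, 21], [12,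
    27, 23], [13, 22, 15, 30], [16, 26]]
  word := [[], [], [], [], [], [], [3, 0, 2], [3, 0, 2, 1], [], [], [0, 3, 1, 2], [0], [0], [0, 2], [2], [], [], [],
    [], [], [], [], [1], [], [], [], [], [1], [3, 1, 2], [3, 1], [3], []]
  rank := [0, 0, 1, 2, 0, 1, 4, 6, 1, 0, 6, 5, 0, 3, 0, 2, 3, 2, 1, 0, 1, 2, 0, 4, 0, 3, 4, 5, 4, 3, 0, 1]
  just := [0, 0, 2, 3, 0, 5, 6, 7, 1, 0, 7, 9, 0, 10, 0, 8, 4, 3, 2, 0, 1, 8, 0, 11, 0, 4, 11, 9, 6, 10, 0, 5]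
  gA := 12
  gB := 14
  fin := 0
  sid := [0, 1, 2, 3, 4, 5, 6, 7, 8, 1, 0, 7, 9, 10, 6, 10, 11, 4, 3, 2, 1, 8, 10, 9, 5, 4, 11, 9, 7, 6, 10, 6]
  off := [(0, 0), (0, 0), (0, 0), (0, 0), (0, 0), (0, 0), (0, 0), (0, 0), (0, 0), (0, 0), (0, 0), (0, 0), (0, 0), (0,
    0), (0, 1), (-1, 0), (0, 0), (0, 0), (0, 0), (0, 0), (0, 0), (0, 0), (-1, 0), (-1, 0), (0, 0), (0, 0), (0, 0),
    (-1, 0), (-1, 0), (-1, 0), (-1, -1), (0, 0)]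

/-- glued arcs and equations -/
def tord8r_94 : TorT :=
  ⟨[(0, 1, true), (0, 4, true), (1, 3, true), (2, 2, true), (2, 7, true), (3, 3, true), (4, 6, true), (5, 5, true),
    (5, 7, true), (6, 6, true)],
    [([0, 0, 0, 0, 0, 1, 2, 1], 2), ([0, 0, 0, 1, 1, 0, 0, 1], 2), ([0, 0, 1, 1, 0, 0, 0, 0], 2), ([0, 2, 0, 0, 1, 0,
    0, 0], 2), ([1, 0, 0, 0, 0, 1, 0, 0], 2), ([1, 0, 1, 0, 0, 0, 0, 0], 2)]⟩

theorem tord8r_94_ok : tord8r_94.OK 8 := TT.leaf_ok (T := ttd8r_94) (by decide +kernel)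

/-- the torus -/
def ttd8r_95 : TT where
  k := 4
  rf := [false, false, false, false]
  tau := [8, 16, 23, 22, 19, 18, 17, 15, 0, 24, 31, 30, 27, 26, 25, 7, 1, 6, 5, 4, 28, 29, 3, 2, 9, 14, 13, 12, 20,
    21, 11, 10]
  par := [0, 0, 1, 9]
  stars := [[0, 15, 25, 9], [1, 8, 7, 17], [2, 16], [3, 23], [4, 22, 29, 20], [5, 19], [6, 18], [10, 24], [11, 31],
    [12, 30, 21, 28], [13, 27], [14, 26]]
  word := [[], [], [], [], [2, 1], [2, 1], [2, 1], [2, 1], [], [], [], [], [3, 0], [3, 0], [3, 0], [0, 3], [], [0,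
    3], [0, 3], [0, 3], [0], [2], [], [], [], [1, 2], [1, 2], [1, 2], [1], [3], [], []]
  rank := [0, 0, 1, 2, 3, 4, 5, 6, 0, 0, 1, 2, 3, 4, 5, 6, 0, 5, 4, 3, 0, 0, 2, 1, 0, 5, 4, 3, 0, 0, 2, 1]
  just := [0, 0, 2, 3, 4, 5, 6, 1, 0, 0, 7, 8, 9, 10, 11, 1, 0, 6, 5, 4, 0, 0, 3, 2, 0, 11, 10, 9, 0, 0, 8, 7]
  gA := 20
  gB := 21
  fin := 0
  sid := [0, 1, 2, 3, 4, 5, 6, 1, 1, 0, 7, 8, 9, 10, 11, 0, 2, 1, 6, 5, 4, 9, 4, 3, 7, 0, 11, 10, 9, 4, 9, 8]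
  off := [(0, 0), (0, 0), (0, 0), (0, 0), (0, 0), (0, 0), (0, 0), (-1, 1), (0, 0), (0, 0), (0, 0), (0, 0), (0, 0),
    (0, 0), (0, 0), (1, -1), (0, 0), (0, 0), (1, -1), (1, -1), (1, -1), (0, 1), (0, 0), (0, 0), (0, 0), (0, 0), (-1,
    1), (-1, 1), (-1, 1), (0, -1), (0, 0), (0, 0)]

/-- glued arcs and equations -/
def tord8r_95 : TorT :=
  ⟨[(0, 0, true), (0, 1, true), (1, 6, true), (2, 5, true), (2, 7, true), (3, 4, true), (3, 6, true), (4, 4, true),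
    (5, 5, true), (7, 7, true)],
    [([0, 0, 0, 0, 2, 1, 1, 0], 2), ([0, 0, 0, 1, 0, 0, 0, 1], 2), ([0, 0, 0, 1, 0, 1, 0, 0], 2), ([0, 0, 1, 0, 0, 0,
    1, 0], 2), ([1, 0, 1, 0, 0, 0, 0, 0], 2), ([1, 2, 0, 0, 0, 0, 0, 1], 2)]⟩

theorem tord8r_95_ok : tord8r_95.OK 8 := TT.leaf_ok (T := ttd8r_95) (by decide +kernel)

/-- the torus -/
def ttd8r_96 : TT where
  k := 4
  rf := [false, false, true, true]
  tau := [9, 14, 13, 12, 16, 23, 11, 10, 28, 0, 7, 6, 3, 2, 1, 29, 4, 24, 31, 30, 27, 26, 25, 5, 17, 22, 21, 20, 8,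
    15, 19, 18]
  par := [0, 0, 4, 8]
  stars := [[0, 10], [1, 9, 29, 15], [2, 14], [3, 13], [4, 12, 6, 16], [5, 17, 25, 23], [7, 11], [8, 30, 20, 28],
    [18, 24], [19, 31], [21, 27], [22, 26]]
  word := [[], [1, 2], [1, 2], [1, 2], [], [0, 3], [0, 3, 1, 2], [0, 3, 1, 2], [], [], [3, 0, 2, 1], [3, 0, 2, 1],
    [3, 0], [3, 0], [3, 0], [3, 0], [], [0], [0], [0], [2], [2], [2], [2, 1], [1], [3], [3], [3], [], [1, 2], [1],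
    [1]]
  rank := [0, 2, 3, 4, 0, 3, 5, 6, 0, 0, 6, 5, 4, 3, 2, 1, 0, 2, 1, 0, 0, 1, 2, 3, 2, 2, 1, 0, 0, 1, 0, 1]
  just := [0, 1, 2, 3, 0, 5, 4, 6, 0, 0, 6, 4, 3, 2, 1, 7, 0, 8, 9, 0, 0, 10, 11, 5, 8, 11, 10, 0, 0, 7, 0, 9]
  gA := 19
  gB := 20
  fin := 0
  sid := [0, 1, 2, 3, 4, 5, 4, 6, 7, 1, 0, 6, 4, 3, 2, 1, 4, 5, 8, 9, 7, 10, 11, 5, 8, 5, 11, 10, 7, 1, 7, 9]
  off := [(0, 0), (0, 0), (0, 0), (0, 0), (0, 0), (0, 0), (1, -1), (0, 0), (0, 0), (0, 0), (0, 0), (0, 0), (1, -1),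
    (1, -1), (1, -1), (1, -1), (0, 0), (0, 0), (0, 0), (0, 0), (0, 1), (0, 0), (0, 0), (-1, 1), (-1, 0), (-1, 0), (0,
    -1), (0, -1), (0, 0), (0, 0), (-1, 1), (-1, 0)]

/-- glued arcs and equations -/
def tord8r_96 : TorT :=
  ⟨[(0, 1, true), (0, 4, false), (1, 6, true), (2, 5, true), (2, 7, true), (3, 4, true), (3, 6, true), (5, 7, false)],
    [([0, 0, 0, 1, 0, 0, 0, 1], 2), ([0, 0, 0, 1, 0, 1, 0, 0], 2), ([0, 0, 1, 0, 0, 0, 1, 0], 2), ([0, 2, 0, 0, 0, 1,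
    0, 1], 2), ([1, 0, 0, 0, 2, 0, 1, 0], 2), ([1, 0, 1, 0, 0, 0, 0, 0], 2)]⟩

theorem tord8r_96_ok : tord8r_96.OK 8 := TT.leaf_ok (T := ttd8r_96) (by decide +kernel)

/-- the torus -/
def ttd8r_97 : TT where
  k := 2
  rf := [false, false]
  tau := [6, 14, 13, 12, 8, 15, 0, 10, 4, 11, 7, 9, 3, 2, 1, 5]
  par := [0, 1]
  stars := [[0, 10, 11, 7], [1, 6, 15], [2, 14], [3, 13], [4, 12, 9], [5, 8]]
  word := [[1], [], [], [], [0], [0], [0], [2], [1], [1], [3], [0], [], [], [], [1]]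
  rank := [2, 0, 1, 2, 0, 1, 2, 0, 0, 3, 0, 3, 2, 1, 0, 1]
  just := [1, 0, 2, 3, 0, 5, 1, 0, 0, 4, 0, 4, 3, 2, 0, 5]
  gA := 4
  gB := 7
  fin := 0
  sid := [0, 1, 2, 3, 4, 5, 1, 0, 5, 4, 0, 0, 4, 3, 2, 1]
  off := [(0, 0), (0, 0), (0, 0), (0, 0), (0, 0), (0, 0), (1, 0), (1, 0), (-1, 0), (-1, 0), (0, -1), (1, -1), (0, 0),
    (0, 0), (0, 0), (0, 0)]

/-- glued arcs and equations -/
def tord8r_97 : TorT :=
  ⟨[(0, 4, true), (0, 6, true), (1, 3, true), (1, 6, true), (2, 5, true), (2, 7, true), (3, 4, true), (5, 7, true)],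
    [([0, 0, 0, 1, 0, 1, 0, 0], 2), ([0, 0, 1, 0, 0, 0, 1, 0], 2), ([0, 1, 0, 0, 0, 0, 1, 1], 2), ([0, 1, 0, 0, 2, 0,
    0, 0], 2), ([1, 0, 0, 0, 0, 1, 0, 0], 2), ([1, 0, 1, 1, 0, 0, 0, 1], 2)]⟩

theorem tord8r_97_ok : tord8r_97.OK 8 := TT.leaf_ok (T := ttd8r_97) (by decide +kernel)

/-- the torus -/
def ttd8r_98 : TT where
  k := 8
  rf := [false, true, false, false, true, true, false, true]
  tau := [9, 22, 21, 20, 28, 31, 30, 29, 19, 0, 23, 16, 35, 34, 33, 18, 11, 32, 15, 8, 3, 2, 1, 10, 41, 54, 53, 52,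
    4, 7, 6, 5, 17, 14, 13, 12, 60, 63, 62, 61, 51, 24, 55, 48, 59, 58, 57, 50, 43, 56, 47, 40, 27, 26, 25, 42, 49,
    46, 45, 44, 36, 39, 38, 37]
  par := [0, 0, 1, 4, 12, 24, 25, 36]
  stars := [[0, 29, 4, 20, 9], [1, 10, 23], [2, 22], [3, 21], [5, 28, 52, 41, 24], [6, 31], [7, 30], [8, 19], [11,
    16], [12, 36, 61, 32, 17], [13, 35], [14, 34], [15, 18, 33], [25, 42, 55], [26, 54], [27, 53], [37, 56, 49, 44,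
    60], [38, 63], [39, 62], [40, 51], [43, 48], [45, 59], [46, 58], [47, 50, 57]]
  word := [[], [], [], [], [], [2, 0, 3], [2, 0, 3], [2, 0, 3], [0], [], [], [], [], [], [], [0], [], [1], [1], [1],
    [], [], [], [], [], [], [], [], [], [2, 1, 3], [2, 1, 3], [2, 1, 3], [0], [], [], [], [], [0], [0], [0], [2, 1,
    3], [], [], [], [2], [2], [2], [2, 1, 3], [], [2, 0], [2, 0, 3], [2, 0, 3], [], [], [], [], [1, 3], [3], [3],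
    [3], [], [1], [1], [1]]
  rank := [0, 0, 1, 2, 0, 6, 7, 8, 5, 0, 1, 2, 0, 1, 2, 4, 2, 3, 4, 5, 2, 1, 0, 1, 0, 0, 1, 2, 0, 8, 7, 6, 3, 2, 1,
    0, 0, 0, 1, 2, 5, 0, 1, 2, 0, 1, 2, 4, 2, 3, 4, 5, 2, 1, 0, 1, 3, 2, 1, 0, 0, 2, 1, 0]
  just := [0, 0, 2, 3, 0, 4, 5, 6, 7, 0, 1, 8, 0, 10, 11, 12, 8, 9, 12, 7, 3, 2, 0, 1, 0, 0, 14, 15, 0, 6, 5, 4, 9,
    11, 10, 0, 0, 0, 17, 18, 19, 0, 13, 20, 0, 21, 22, 23, 20, 16, 23, 19, 15, 14, 0, 13, 16, 22, 21, 0, 0, 18, 17, 0]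
  gA := 37
  gB := 44
  fin := 0
  sid := [0, 1, 2, 3, 0, 4, 5, 6, 7, 0, 1, 8, 9, 10, 11, 12, 8, 9, 12, 7, 0, 3, 2, 1, 4, 13, 14, 15, 4, 0, 6, 5, 9,
    12, 11, 10, 9, 16, 17, 18, 19, 4, 13, 20, 16, 21, 22, 23, 20, 16, 23, 19, 4, 15, 14, 13, 16, 23, 22, 21, 16, 9,
    18, 17]
  off := [(0, 0), (0, 0), (0, 0), (0, 0), (-1, 0), (0, 0), (0, 0), (0, 0), (0, 0), (0, 0), (0, 0), (0, 0), (0, 0),
    (0, 0), (0, 0), (0, 0), (0, 0), (0, 0), (-1, 0), (-1, 0), (-1, 0), (0, 0), (0, 0), (0, 0), (-1, 0), (0, 0), (0,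
    0), (0, 0), (0, 0), (-1, 0), (-1, 0), (-1, 0), (1, 0), (0, 0), (0, 0), (0, 0), (0, 0), (0, 0), (0, 0), (0, 0),
    (0, 0), (-1, 0), (0, 0), (0, 0), (0, 1), (0, 0), (0, 0), (0, 0), (0, 0), (0, 1), (1, 0), (1, 0), (0, 0), (0, 0),
    (0, 0), (0, 0), (-1, 0), (0, -1), (0, -1), (0, -1), (0, 0), (0, 0), (-1, 0), (-1, 0)]

/-- glued arcs and equations -/
def tord8r_98 : TorT :=
  ⟨[(0, 1, false), (0, 3, false), (1, 6, true), (2, 5, true), (2, 7, false), (3, 4, true), (4, 4, true), (5, 7,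
    true), (6, 6, true)],
    [([0, 0, 0, 0, 0, 0, 1, 1], 2), ([0, 0, 0, 1, 0, 1, 0, 0], 2), ([0, 0, 1, 0, 0, 0, 1, 0], 2), ([0, 1, 1, 0, 0, 0,
    0, 1], 2), ([1, 0, 0, 1, 0, 0, 0, 0], 2), ([1, 1, 0, 0, 2, 1, 0, 0], 2)]⟩

theorem tord8r_98_ok : tord8r_98.OK 8 := TT.leaf_ok (T := ttd8r_98) (by decide +kernel)

end Pool.Agent.Lib_MP_fa6e45
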