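import Pool.Agent.Lib_MP_fa6e45.CT5

/-!
MP_fa6e45_co, stage 9: straight-side patterns with `8` sides, tables of tori (generated by a program).
-/

namespace Pool.Agent.Lib_MP_fa6e45

/-- the torus -/
def ttd8r_99 : TT where
  k := 8
  rf := [false, false, true, true, false, true, true, false]
  tau := [9, 20, 21, 24, 17, 18, 11, 10, 19, 0, 7, 6, 36, 39, 38, 37, 25, 4, 5, 8, 1, 2, 27, 26, 3, 16, 23, 22, 44,
    47, 46, 45, 51, 56, 63, 62, 12, 15, 14, 13, 59, 48, 55, 54, 28, 31, 30, 29, 41, 60, 61, 32, 57, 58, 43, 42, 33,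
    52, 53, 40, 49, 50, 35, 34]
  par := [0, 0, 1, 3, 12, 28, 32, 33]
  stars := [[0, 10], [1, 9, 20], [2, 21], [3, 22, 28, 45, 24], [4, 25, 17], [5, 18], [6, 19, 8, 37, 12], [7, 11],
    [13, 36, 62, 51, 32], [14, 39], [15, 38], [16, 26], [23, 27], [29, 40, 59, 54, 44], [30, 47], [31, 46], [33, 52,
    57], [34, 56], [35, 63], [41, 49, 60], [42, 48], [43, 55], [50, 61], [53, 58]]
  word := [[], [], [], [], [1], [1], [1, 3, 0, 2], [1, 3, 0, 2], [], [], [3, 1, 2, 0], [3, 1, 2, 0], [], [3, 0, 2],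
    [3, 0, 2], [3, 0, 2], [0], [0], [0], [], [], [], [0], [0], [], [1], [1], [1], [], [0], [0], [0], [], [], [], [],
    [], [3, 1, 2], [3, 1, 2], [3, 1, 2], [1, 2], [2], [2], [2], [], [1], [1], [1], [3], [3, 1, 2], [3, 1, 2], [], [],
    [], [3], [3], [], [], [], [3, 0], [3, 0, 2], [3, 0, 2], [], []]
  rank := [0, 0, 1, 0, 6, 7, 9, 10, 1, 0, 10, 9, 0, 6, 7, 8, 5, 6, 7, 1, 0, 1, 3, 4, 0, 5, 4, 3, 0, 0, 1, 2, 0, 0, 1,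
    2, 0, 8, 7, 6, 3, 1, 0, 1, 0, 2, 1, 0, 1, 4, 5, 0, 1, 2, 1, 0, 0, 1, 2, 3, 4, 5, 2, 1]
  just := [0, 0, 2, 0, 4, 5, 6, 7, 1, 0, 7, 6, 0, 8, 9, 10, 11, 4, 5, 1, 0, 2, 3, 12, 0, 11, 12, 3, 0, 0, 14, 15, 0,
    0, 17, 18, 0, 10, 9, 8, 13, 20, 0, 21, 0, 15, 14, 0, 20, 19, 22, 0, 16, 23, 21, 0, 0, 16, 23, 13, 19, 22, 18, 17]
  gA := 29
  gB := 42
  fin := 0
  sid := [0, 1, 2, 3, 4, 5, 6, 7, 6, 1, 0, 7, 6, 8, 9, 10, 11, 4, 5, 6, 1, 2, 3, 12, 3, 4, 11, 12, 3, 13, 14, 15, 8,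
    16, 17, 18, 8, 6, 10, 9, 13, 19, 20, 21, 13, 3, 15, 14, 20, 19, 22, 8, 16, 23, 13, 21, 17, 16, 23, 13, 19, 22, 8,
    18]
  off := [(0, 0), (0, 0), (0, 0), (0, 0), (0, 0), (0, 0), (0, 0), (0, 0), (1, 0), (0, 0), (0, 0), (0, 0), (0, 0), (0,
    0), (0, 0), (0, 0), (0, 0), (1, 0), (1, 0), (1, 0), (0, 0), (0, 0), (0, 0), (0, 0), (0, 0), (0, 0), (-1, 0), (-1,
    0), (-1, 0), (0, 0), (0, 0), (0, 0), (-1, 0), (0, 0), (0, 0), (0, 0), (0, 0), (0, 0), (-1, 0), (-1, 0), (-1, 0),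
    (0, 0), (0, 0), (0, 0), (0, 0), (-1, 0), (-1, 0), (-1, 0), (0, -1), (0, -1), (0, 0), (-1, 0), (0, 0), (0, 0), (0,
    -1), (0, -1), (0, 0), (0, 0), (0, 0), (0, -1), (1, -1), (1, 0), (0, 0), (0, 0)]

/-- glued arcs and equations -/
def tord8r_99 : TorT :=
  ⟨[(0, 1, true), (0, 3, false), (1, 4, false), (2, 5, false), (2, 7, true), (3, 6, true), (4, 4, true), (5, 7,
    true), (6, 6, true)],
    [([0, 0, 0, 0, 0, 0, 1, 1], 2), ([0, 0, 0, 1, 0, 0, 0, 1], 2), ([0, 0, 1, 0, 0, 1, 0, 0], 2), ([0, 2, 0, 0, 1, 0,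
    0, 0], 2), ([1, 0, 0, 1, 1, 1, 1, 0], 2), ([1, 0, 1, 0, 0, 0, 0, 0], 2)]⟩

theorem tord8r_99_ok : tord8r_99.OK 8 := TT.leaf_ok (T := ttd8r_99) (by decide +kernel)

/-- the torus -/
def ttd8r_100 : TT where
  k := 8
  rf := [false, false, true, false, true, false, true, true]
  tau := [11, 16, 13, 12, 28, 31, 30, 29, 33, 22, 23, 0, 3, 2, 17, 18, 1, 14, 15, 32, 35, 34, 9, 10, 43, 48, 45, 44,
    4, 7, 6, 5, 19, 8, 21, 20, 60, 63, 62, 61, 57, 54, 55, 24, 27, 26, 49, 50, 25, 46, 47, 56, 59, 58, 41, 42, 51,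
    40, 53, 52, 36, 39, 38, 37]
  par := [0, 0, 1, 4, 8, 24, 25, 36]
  stars := [[0, 29, 4, 12], [1, 11, 16], [2, 17, 14], [3, 13], [5, 28, 44, 24], [6, 31], [7, 30], [8, 19, 33], [9,
    34, 22], [10, 23], [15, 18], [20, 36, 61, 32], [21, 35], [25, 43, 48], [26, 49, 46], [27, 45], [37, 56, 52, 60],
    [38, 63], [39, 62], [40, 51, 57], [41, 58, 54], [42, 55], [47, 50], [53, 59]]
  word := [[], [], [1, 2], [1, 2], [], [0, 3], [0, 3], [0, 3], [], [], [], [], [3, 0], [3, 0], [3, 0], [3, 0], [],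
    [1, 2], [1, 2], [1, 2], [], [], [], [], [], [], [0, 3], [0, 3], [], [2, 1], [2, 1], [2, 1], [3, 0], [], [], [],
    [], [3, 0], [3, 0], [3, 0], [2], [], [], [], [2, 1], [2, 1], [2, 1], [2, 1], [], [0, 3], [0, 3], [0], [2], [2],
    [], [], [1], [3], [3], [3], [], [1, 2], [1, 2], [1, 2]]
  rank := [0, 0, 8, 9, 0, 8, 9, 10, 0, 2, 1, 0, 9, 8, 7, 6, 0, 7, 6, 5, 4, 3, 2, 1, 0, 0, 6, 7, 0, 10, 9, 8, 5, 0, 3,
    4, 0, 2, 3, 4, 3, 2, 1, 0, 7, 6, 5, 4, 0, 5, 4, 0, 1, 0, 2, 1, 0, 3, 0, 1, 0, 4, 3, 2]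
  just := [0, 0, 2, 3, 0, 4, 5, 6, 0, 9, 1, 0, 3, 2, 10, 7, 0, 10, 7, 11, 12, 8, 9, 1, 0, 0, 14, 15, 0, 6, 5, 4, 11,
    0, 8, 12, 0, 16, 17, 18, 20, 21, 13, 0, 15, 14, 22, 19, 0, 22, 19, 0, 23, 0, 21, 13, 0, 20, 0, 23, 0, 18, 17, 16]
  gA := 51
  gB := 53
  fin := 0
  sid := [0, 1, 2, 3, 0, 4, 5, 6, 7, 8, 9, 1, 0, 3, 2, 10, 1, 2, 10, 7, 11, 12, 8, 9, 4, 13, 14, 15, 4, 0, 6, 5, 11,
    7, 8, 12, 11, 16, 17, 18, 19, 20, 21, 13, 4, 15, 14, 22, 13, 14, 22, 19, 16, 23, 20, 21, 16, 19, 20, 23, 16, 11,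
    18, 17]
  off := [(0, 0), (0, 0), (0, 0), (0, 0), (-1, 1), (0, 0), (0, 0), (0, 0), (0, 0), (0, 0), (0, 0), (0, 0), (0, 0),
    (1, -1), (1, -1), (0, 0), (0, 0), (0, 0), (-1, 1), (-1, 1), (0, 0), (0, 0), (0, 0), (0, 0), (-1, 1), (0, 0), (0,
    0), (0, 0), (0, 0), (-1, 1), (-1, 1), (-1, 1), (1, -1), (0, 0), (0, 0), (0, 0), (0, 0), (0, 0), (0, 0), (0, 0),
    (0, 0), (0, 0), (0, 0), (0, 0), (-1, 1), (-1, 1), (-1, 1), (0, 0), (0, 0), (0, 0), (1, -1), (1, -1), (0, 1), (0,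
    0), (0, 0), (0, 0), (-1, 1), (0, -1), (0, -1), (0, -1), (0, 0), (0, 0), (-1, 1), (-1, 1)]

/-- glued arcs and equations -/
def tord8r_100 : TorT :=
  ⟨[(0, 1, false), (0, 3, true), (1, 6, false), (2, 5, true), (2, 7, false), (3, 4, true), (4, 4, true), (5, 7,
    true), (6, 6, true)],
    [([0, 0, 0, 0, 0, 0, 1, 1], 2), ([0, 0, 0, 1, 0, 1, 0, 0], 2), ([0, 0, 1, 0, 0, 0, 0, 1], 2), ([0, 1, 1, 0, 0, 0,
    1, 0], 2), ([1, 0, 0, 0, 2, 1, 0, 0], 2), ([1, 1, 0, 1, 0, 0, 0, 0], 2)]⟩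

theorem tord8r_100_ok : tord8r_100.OK 8 := TT.leaf_ok (T := ttd8r_100) (by decide +kernel)

/-- the torus -/
def ttd8r_101 : TT where
  k := 8
  rf := [false, false, true, true, false, false, true, true]
  tau := [9, 20, 21, 24, 17, 18, 36, 10, 19, 0, 7, 35, 46, 39, 38, 37, 25, 4, 5, 8, 1, 2, 52, 26, 3, 16, 23, 51, 62,
    55, 54, 53, 59, 40, 47, 11, 6, 15, 14, 13, 33, 60, 61, 48, 57, 58, 12, 34, 43, 56, 63, 27, 22, 31, 30, 29, 49,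
    44, 45, 32, 41, 42, 28, 50]
  par := [0, 0, 1, 3, 6, 12, 22, 28]
  stars := [[0, 10], [1, 9, 20], [2, 21], [3, 22, 53, 24], [4, 25, 17], [5, 18], [6, 19, 8, 37], [7, 36, 11], [12,
    35, 47], [13, 46, 59, 32], [14, 39], [15, 38], [16, 26], [23, 27, 52], [28, 63, 51], [29, 48, 43, 62], [30, 55],
    [31, 54], [33, 60, 41], [34, 40], [42, 61], [44, 49, 57], [45, 58], [50, 56]]
  word := [[], [], [], [], [1], [1], [], [1, 2, 0, 3], [], [], [2, 1, 3, 0], [2, 1, 3, 0], [], [0], [0], [0], [0],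
    [0], [0], [], [], [], [], [0], [], [1], [1], [1], [], [], [], [], [1, 2, 0], [1, 2, 0, 3], [1, 2, 0, 3], [1, 2,
    0, 3], [], [1], [1], [1], [2, 1, 3, 0], [2], [2], [2], [2, 0], [2, 0], [], [2, 1, 3, 0], [3], [0], [0], [0], [],
    [], [], [], [1], [1, 3], [1, 3], [1, 3, 0], [3], [3], [], [1]]
  rank := [0, 0, 1, 0, 2, 3, 0, 11, 1, 0, 11, 10, 0, 6, 5, 4, 1, 2, 3, 1, 0, 1, 0, 0, 0, 1, 0, 1, 0, 4, 3, 2, 7, 8,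
    9, 10, 0, 4, 5, 6, 8, 6, 5, 0, 4, 5, 0, 9, 0, 3, 2, 1, 0, 2, 3, 4, 3, 4, 5, 7, 6, 5, 0, 2]
  just := [0, 0, 2, 0, 4, 5, 0, 7, 1, 0, 7, 8, 0, 10, 11, 6, 12, 4, 5, 1, 0, 2, 0, 0, 0, 12, 0, 13, 0, 16, 17, 3, 9,
    18, 19, 8, 0, 6, 11, 10, 18, 20, 15, 0, 21, 22, 0, 19, 0, 23, 14, 13, 0, 3, 17, 16, 23, 21, 22, 9, 20, 15, 0, 14]
  gA := 23
  gB := 43
  fin := 0
  sid := [0, 1, 2, 3, 4, 5, 6, 7, 6, 1, 0, 7, 8, 9, 10, 11, 12, 4, 5, 6, 1, 2, 3, 13, 3, 4, 12, 13, 14, 15, 16, 17,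
    9, 18, 19, 8, 7, 6, 11, 10, 19, 18, 20, 15, 21, 22, 9, 8, 15, 21, 23, 14, 13, 3, 17, 16, 23, 21, 22, 9, 18, 20,
    15, 14]
  off := [(0, 0), (0, 0), (0, 0), (0, 0), (0, 0), (0, 0), (0, 0), (0, 0), (1, 0), (0, 0), (0, 0), (0, 0), (0, 0), (0,
    0), (0, 0), (0, 0), (0, 0), (1, 0), (1, 0), (1, 0), (0, 0), (0, 0), (0, 0), (0, 0), (0, 0), (0, 0), (-1, 0), (-1,
    0), (0, 0), (0, 0), (0, 0), (0, 0), (-1, 0), (0, 0), (0, 0), (0, 0), (0, 0), (0, 0), (-1, 0), (-1, 0), (0, 0),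
    (0, 0), (0, 0), (0, 1), (0, 0), (0, 0), (0, 0), (0, 0), (0, 0), (0, -1), (0, 0), (1, 0), (0, 0), (0, 0), (0, 0),
    (0, 0), (-1, 0), (-1, -1), (-1, -1), (-1, -1), (0, -1), (0, -1), (0, 0), (0, 0)]

/-- glued arcs and equations -/
def tord8r_101 : TorT :=
  ⟨[(0, 1, true), (0, 3, false), (1, 4, false), (2, 5, false), (2, 7, true), (3, 3, true), (4, 6, true), (5, 7,
    true), (6, 6, true)],
    [([0, 0, 0, 0, 0, 0, 1, 1], 2), ([0, 0, 0, 1, 1, 0, 0, 1], 2), ([0, 0, 1, 0, 0, 1, 0, 0], 2), ([0, 2, 0, 0, 1, 0,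
    0, 0], 2), ([1, 0, 0, 1, 0, 1, 1, 0], 2), ([1, 0, 1, 0, 0, 0, 0, 0], 2)]⟩

theorem tord8r_101_ok : tord8r_101.OK 8 := TT.leaf_ok (T := ttd8r_101) (by decide +kernel)

/-- the torus -/
def ttd8r_102 : TT where
  k := 16
  rf := [false, false, false, true, false, true, false, false, false, false, true, true, true, true, true, true]
  tau := [9, 16, 23, 24, 38, 37, 36, 10, 17, 0, 7, 41, 42, 43, 55, 18, 1, 8, 15, 59, 70, 69, 68, 2, 3, 75, 76, 77,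
    86, 85, 84, 94, 73, 56, 63, 40, 6, 5, 4, 74, 35, 11, 12, 13, 102, 101, 100, 110, 115, 107, 108, 109, 62, 61, 60,
    14, 33, 72, 79, 19, 54, 53, 52, 34, 123, 91, 92, 93, 22, 21, 20, 78, 57, 32, 39, 25, 26, 27, 71, 58, 121, 104,
    111, 99, 30, 29, 28, 122, 97, 112, 119, 65, 66, 67, 31, 98, 113, 88, 95, 83, 46, 45, 44, 114, 81, 120, 127, 49,
    50, 51, 47, 82, 89, 96, 103, 48, 126, 125, 124, 90, 105, 80, 87, 64, 118, 117, 116, 106]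
  par := [0, 0, 1, 3, 4, 11, 14, 19, 20, 25, 28, 31, 44, 47, 48, 64]
  stars := [[0, 10], [1, 9, 17], [2, 16], [3, 23, 68, 94, 24], [4, 25, 75, 39], [5, 38], [6, 37], [7, 36, 41, 11],
    [8, 18], [12, 42], [13, 43], [14, 44, 103, 115, 48], [15, 55, 60, 19], [20, 59, 79, 71], [21, 70], [22, 69], [26,
    76], [27, 77], [28, 87, 123, 64, 78], [29, 86], [30, 85], [31, 95, 99, 84], [32, 74], [33, 73, 57], [34, 56],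
    [35, 63, 52, 110, 40], [45, 102], [46, 101], [47, 111, 83, 100], [49, 116, 127, 107], [50, 108], [51, 109], [53,
    62], [54, 61], [58, 72], [65, 124, 119, 91], [66, 92], [67, 93], [80, 122], [81, 105, 121], [82, 104], [88, 98],
    [89, 113, 97], [90, 112], [96, 114], [106, 120], [117, 126], [118, 125]]
  word := [[], [], [], [], [], [], [], [0, 3, 1, 2], [], [], [3, 0, 2, 1], [], [], [], [], [], [], [], [], [], [],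
    [], [], [], [], [], [], [], [], [], [], [], [], [0], [0], [0, 3, 1, 2], [], [], [], [], [3, 0, 2, 1], [], [], [],
    [], [], [], [], [], [3, 1, 2], [3, 1, 2], [3, 1, 2], [], [], [], [], [1], [1], [1], [], [], [], [], [1], [], [],
    [], [], [], [], [], [1], [0], [], [], [], [], [], [0], [0], [0], [2], [2], [2], [], [], [], [0], [2], [2], [2],
    [], [], [], [], [2], [], [3], [3], [3], [], [], [], [], [3], [3, 0], [3, 0], [3, 0, 2], [3, 0, 2], [3, 0, 2], [],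
    [3], [3], [], [], [], [3], [3], [3], [3], [1, 2], [1], [1], [], [2], [2], [2], [1, 2]]
  rank := [0, 0, 1, 0, 0, 1, 2, 14, 1, 0, 14, 0, 1, 2, 0, 2, 0, 1, 2, 0, 0, 1, 2, 1, 0, 0, 1, 2, 0, 1, 2, 0, 2, 6, 7,
    13, 2, 1, 0, 1, 13, 0, 1, 2, 0, 1, 2, 0, 0, 10, 11, 12, 5, 4, 3, 0, 6, 5, 4, 0, 3, 4, 5, 7, 0, 5, 4, 3, 2, 1, 0,
    3, 5, 2, 1, 0, 1, 2, 3, 4, 0, 5, 4, 3, 2, 1, 0, 1, 0, 5, 6, 5, 4, 3, 0, 1, 4, 0, 1, 3, 2, 1, 0, 3, 5, 6, 7, 10,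
    11, 12, 0, 4, 5, 4, 3, 0, 9, 8, 7, 6, 6, 0, 1, 0, 7, 8, 9, 7]
  just := [0, 0, 2, 0, 0, 5, 6, 7, 1, 0, 7, 0, 9, 10, 0, 8, 0, 1, 8, 0, 0, 14, 15, 2, 0, 0, 16, 17, 0, 19, 20, 0, 22,
    23, 24, 25, 6, 5, 0, 4, 25, 0, 9, 10, 0, 26, 27, 0, 0, 29, 30, 31, 32, 33, 12, 0, 23, 34, 13, 0, 12, 33, 32, 24,
    0, 36, 37, 3, 15, 14, 0, 18, 34, 22, 4, 0, 16, 17, 18, 13, 0, 40, 28, 21, 20, 19, 0, 38, 0, 42, 43, 36, 37, 3, 0,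
    41, 44, 0, 41, 21, 27, 26, 0, 11, 40, 39, 45, 29, 30, 31, 0, 28, 42, 44, 11, 0, 46, 47, 35, 43, 39, 0, 38, 0, 35,
    47, 46, 45]
  gA := 80
  gB := 88
  fin := 0
  sid := [0, 1, 2, 3, 4, 5, 6, 7, 8, 1, 0, 7, 9, 10, 11, 12, 2, 1, 8, 12, 13, 14, 15, 3, 3, 4, 16, 17, 18, 19, 20,
    21, 22, 23, 24, 25, 7, 6, 5, 4, 25, 7, 9, 10, 11, 26, 27, 28, 11, 29, 30, 31, 25, 32, 33, 12, 24, 23, 34, 13, 12,
    33, 32, 25, 18, 35, 36, 37, 3, 15, 14, 13, 34, 23, 22, 4, 16, 17, 18, 13, 38, 39, 40, 28, 21, 20, 19, 18, 41, 42,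
    43, 35, 36, 37, 3, 21, 44, 42, 41, 21, 28, 27, 26, 11, 40, 39, 45, 29, 30, 31, 25, 28, 43, 42, 44, 11, 29, 46,
    47, 35, 45, 39, 38, 18, 35, 47, 46, 29]
  off := [(0, 0), (0, 0), (0, 0), (0, 0), (0, 0), (0, 0), (0, 0), (0, 0), (0, 0), (0, 0), (0, 0), (0, 0), (0, 0), (0,
    0), (0, 0), (0, 0), (0, 0), (0, 0), (0, 0), (0, 0), (0, 0), (0, 0), (0, 0), (0, 0), (0, 0), (0, 0), (0, 0), (0,
    0), (0, 0), (0, 0), (0, 0), (0, 0), (0, 0), (0, 0), (0, 0), (0, 0), (0, 0), (0, 0), (0, 0), (0, 0), (0, 0), (0,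
    0), (0, 0), (0, 0), (0, 0), (0, 0), (0, 0), (0, 0), (0, 0), (0, 0), (0, 0), (0, 0), (-1, 0), (0, 0), (0, 0), (0,
    0), (-1, 0), (-1, 0), (0, 0), (0, 0), (0, 0), (0, 0), (0, 0), (-1, 0), (-1, 0), (0, 0), (0, 0), (0, 0), (0, 0),
    (0, 0), (0, 0), (0, 0), (1, 0), (0, 0), (0, 0), (0, 0), (0, 0), (0, 0), (0, 0), (1, 0), (0, 0), (0, 0), (0, 0),
    (0, 1), (0, 0), (0, 0), (0, 0), (0, 0), (0, 0), (0, 0), (0, 0), (0, 0), (0, 0), (0, 0), (0, 0), (0, 0), (0, 0),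
    (0, -1), (0, -1), (0, -1), (0, 0), (0, 0), (0, 0), (0, 0), (0, -1), (0, -1), (0, 0), (1, 0), (1, 0), (1, 0), (0,
    0), (0, 0), (0, -1), (0, -1), (0, 0), (0, 0), (0, 0), (0, 0), (0, 0), (0, -1), (-1, 1), (-1, 0), (-1, 0), (-1,
    0), (0, 0), (0, 1), (0, 1), (0, 1)]

/-- glued arcs and equations -/
def tord8r_102 : TorT :=
  ⟨[(0, 1, true), (0, 3, false), (1, 3, false), (2, 4, false), (2, 7, true), (3, 3, true), (3, 5, false), (4, 6,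
    true), (5, 5, true), (6, 7, true)],
    [([0, 0, 0, 0, 0, 1, 1, 0], 2), ([0, 0, 0, 1, 0, 1, 0, 0], 2), ([0, 0, 0, 1, 1, 0, 0, 2], 2), ([0, 0, 1, 0, 1, 0,
    0, 0], 2), ([0, 1, 0, 1, 1, 0, 0, 1], 2), ([0, 3, 0, 0, 0, 0, 0, 0], 2), ([1, 0, 0, 1, 1, 0, 1, 1], 2), ([1, 0,
    1, 0, 0, 0, 0, 0], 2)]⟩

theorem tord8r_102_ok : tord8r_102.OK 8 := TT.leaf_ok (T := ttd8r_102) (by decide +kernel)

/-- the torus -/
def ttd8r_103 : TT where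
  k := 12
  rf := [false, false, false, true, true, true, true, true, true, false, false, false]
  tau := [9, 16, 23, 25, 26, 35, 36, 10, 17, 0, 7, 41, 42, 51, 52, 18, 1, 8, 15, 57, 58, 67, 68, 2, 69, 3, 4, 77, 78,
    48, 55, 70, 61, 75, 76, 5, 6, 40, 47, 62, 37, 11, 12, 85, 86, 64, 71, 38, 29, 83, 84, 13, 14, 56, 63, 30, 53, 19,
    20, 93, 94, 32, 39, 54, 45, 91, 92, 21, 22, 24, 31, 46, 81, 88, 95, 33, 34, 27, 28, 82, 89, 72, 79, 49, 50, 43,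
    44, 90, 73, 80, 87, 65, 66, 59, 60, 74]
  par := [0, 0, 1, 3, 5, 11, 13, 19, 21, 27, 43, 59]
  stars := [[0, 10], [1, 9, 17], [2, 16], [3, 23, 69, 25], [4, 26], [5, 27, 77, 35], [6, 36], [7, 37, 41, 11], [8,
    18], [12, 42], [13, 43, 85, 51], [14, 52], [15, 53, 57, 19], [20, 58], [21, 59, 93, 67], [22, 68], [24, 70], [28,
    78], [29, 49, 83, 79], [30, 48], [31, 71, 47, 39, 63, 55], [32, 62], [33, 75, 95, 61], [34, 76], [38, 40], [44,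
    86], [45, 65, 91, 87], [46, 64], [50, 84], [54, 56], [60, 94], [66, 92], [72, 82], [73, 81, 89], [74, 88], [80,
    90]]
  word := [[], [], [], [], [], [], [], [0, 2, 1, 3], [], [], [2, 0, 3, 1], [], [], [], [], [], [], [], [], [], [],
    [], [], [], [], [], [], [], [], [0, 3], [0, 3], [], [0], [], [], [], [], [0, 2, 1, 3], [0, 2, 1, 3], [0], [2, 0,
    3, 1], [], [], [], [], [2], [2], [2, 0, 3, 1], [2, 1], [], [], [], [], [], [], [2, 1], [], [], [], [], [], [1],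
    [1], [], [3], [], [], [], [], [], [], [3], [0, 3], [0], [0], [], [], [], [], [0, 3], [2], [2, 1], [2, 1], [], [],
    [], [], [2], [1], [3], [3], [], [], [], [], [1]]
  rank := [0, 0, 1, 0, 1, 0, 1, 8, 1, 0, 8, 0, 1, 0, 1, 2, 0, 1, 2, 0, 1, 0, 1, 1, 2, 0, 1, 0, 1, 4, 5, 3, 4, 3, 2,
    0, 1, 7, 6, 5, 7, 0, 1, 0, 1, 4, 5, 6, 4, 3, 2, 0, 1, 3, 4, 5, 3, 0, 1, 0, 1, 4, 5, 4, 4, 3, 2, 0, 1, 2, 3, 5, 1,
    0, 1, 3, 2, 0, 1, 2, 0, 1, 2, 3, 2, 0, 1, 1, 0, 0, 1, 3, 2, 0, 1, 1]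
  just := [0, 0, 2, 0, 4, 0, 6, 7, 1, 0, 7, 0, 9, 0, 11, 8, 0, 1, 8, 0, 13, 0, 15, 2, 3, 0, 4, 0, 17, 18, 19, 16, 22,
    23, 5, 0, 6, 24, 20, 21, 24, 0, 9, 0, 25, 26, 27, 20, 18, 28, 10, 0, 11, 12, 29, 19, 12, 0, 13, 0, 30, 22, 21,
    29, 26, 31, 14, 0, 15, 3, 16, 27, 33, 0, 34, 23, 5, 0, 17, 32, 0, 33, 32, 28, 10, 0, 25, 35, 0, 0, 35, 31, 14, 0,
    30, 34]
  gA := 73
  gB := 80
  fin := 0
  sid := [0, 1, 2, 3, 4, 5, 6, 7, 8, 1, 0, 7, 9, 10, 11, 12, 2, 1, 8, 12, 13, 14, 15, 3, 16, 3, 4, 5, 17, 18, 19, 20,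
    21, 22, 23, 5, 6, 7, 24, 20, 24, 7, 9, 10, 25, 26, 27, 20, 19, 18, 28, 10, 11, 12, 29, 20, 29, 12, 13, 14, 30,
    22, 21, 20, 27, 26, 31, 14, 15, 3, 16, 20, 32, 33, 34, 22, 23, 5, 17, 18, 35, 33, 32, 18, 28, 10, 25, 26, 34, 33,
    35, 26, 31, 14, 30, 22]
  off := [(0, 0), (0, 0), (0, 0), (0, 0), (0, 0), (0, 0), (0, 0), (0, 0), (0, 0), (0, 0), (0, 0), (0, 0), (0, 0), (0,
    0), (0, 0), (0, 0), (0, 0), (0, 0), (0, 0), (0, 0), (0, 0), (0, 0), (0, 0), (0, 0), (0, 0), (0, 0), (0, 0), (0,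
    0), (0, 0), (0, 0), (0, 0), (0, 0), (0, 0), (0, 0), (0, 0), (0, 0), (0, 0), (0, 0), (0, 0), (0, 1), (0, 0), (0,
    0), (0, 0), (0, 0), (0, 0), (0, 0), (0, 0), (0, 1), (-1, 1), (-1, 1), (0, 0), (0, 0), (0, 0), (0, 0), (0, 0),
    (-1, 1), (0, 0), (0, 0), (0, 0), (0, 0), (0, 0), (-1, 0), (-1, 0), (-1, 1), (0, -1), (0, -1), (0, 0), (0, 0), (0,
    0), (0, 0), (0, 0), (0, 0), (0, 0), (0, 0), (0, 0), (0, 0), (0, 0), (0, 0), (0, 0), (0, 0), (0, 0), (-1, 1), (-1,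
    1), (-1, 1), (0, 0), (0, 0), (0, 0), (0, 0), (-1, 0), (-1, 0), (0, -1), (0, -1), (0, 0), (0, 0), (0, 0), (-1, 0)]

/-- glued arcs and equations -/
def tord8r_103 : TorT :=
  ⟨[(0, 1, true), (0, 5, true), (1, 3, false), (2, 4, false), (2, 7, true), (3, 5, false), (4, 6, false), (6, 7,
    true)],
    [([0, 0, 0, 0, 0, 0, 0, 6], 2), ([0, 0, 0, 0, 1, 0, 1, 0], 2), ([0, 0, 0, 2, 0, 2, 0, 0], 2), ([0, 0, 1, 0, 1, 0,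
    0, 0], 2), ([0, 1, 0, 1, 0, 1, 0, 1], 2), ([0, 3, 0, 0, 0, 0, 0, 0], 2), ([1, 0, 0, 0, 0, 0, 1, 0], 2), ([1, 0,
    1, 0, 0, 0, 0, 0], 2)]⟩

theorem tord8r_103_ok : tord8r_103.OK 8 := TT.leaf_ok (T := ttd8r_103) (by decide +kernel)

/-- the torus -/
def ttd8r_104 : TT where
  k := 16
  rf := [false, false, false, false, false, true, false, false, false, true, true, true, true, true, true, true]
  tau := [9, 16, 23, 29, 38, 37, 36, 10, 17, 0, 7, 41, 42, 27, 54, 18, 1, 8, 15, 53, 63, 67, 30, 2, 65, 48, 55, 13,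
    39, 3, 22, 66, 43, 75, 76, 40, 6, 5, 4, 28, 35, 11, 12, 32, 86, 85, 84, 92, 25, 64, 71, 97, 98, 19, 14, 26, 99,
    107, 108, 96, 70, 69, 68, 20, 49, 24, 31, 21, 62, 61, 60, 50, 113, 80, 87, 33, 34, 91, 110, 114, 73, 112, 119,
    93, 46, 45, 44, 74, 121, 104, 111, 77, 47, 83, 118, 122, 59, 51, 52, 56, 126, 125, 124, 116, 89, 120, 127, 57,
    58, 115, 78, 90, 81, 72, 79, 109, 103, 123, 94, 82, 105, 88, 95, 117, 102, 101, 100, 106]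
  par := [0, 0, 1, 3, 4, 11, 14, 20, 21, 33, 44, 47, 51, 57, 72, 88]
  stars := [[0, 10], [1, 9, 17], [2, 16], [3, 23, 30], [4, 29, 39], [5, 38], [6, 37], [7, 36, 41, 11], [8, 18], [12,
    42], [13, 43, 32, 28], [14, 27, 55], [15, 54, 19], [20, 53, 99, 56], [21, 63, 68], [22, 67, 31], [24, 66], [25,
    65, 49], [26, 48], [33, 44, 87, 75], [34, 76], [35, 77, 92, 40], [45, 86], [46, 85], [47, 93, 84], [50, 64], [51,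
    71, 60, 97], [52, 98], [57, 100, 127, 107], [58, 108], [59, 109, 116, 96], [61, 70], [62, 69], [72, 114], [73,
    81, 113], [74, 80], [78, 111, 91], [79, 115, 110], [82, 112], [83, 94, 119], [88, 122], [89, 105, 121], [90,
    104], [95, 123, 118], [101, 126], [102, 125], [103, 117, 124], [106, 120]]
  word := [[], [], [], [], [], [], [], [0, 3, 1, 2], [], [], [3, 0, 2, 1], [], [], [1], [], [], [], [], [], [], [],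
    [], [], [], [], [0], [0], [0], [], [], [], [], [0], [], [], [0, 3, 1, 2], [], [], [], [], [3, 0, 2, 1], [], [],
    [1], [], [], [], [], [1], [1], [1], [], [], [], [], [1], [], [], [], [0], [], [], [], [], [0], [], [], [], [],
    [], [], [0], [], [0], [0], [], [], [0, 3, 1, 2], [0, 3, 1], [], [1], [1], [1], [], [], [], [], [1], [], [3], [3],
    [3, 0, 2, 1], [], [], [1], [], [1], [], [], [], [2], [2], [2], [2, 1], [2], [2], [2], [], [], [0, 2, 1], [0, 2,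
    1], [2], [0], [], [], [0, 3, 1], [0, 3], [0], [0], [0], [3], [], [], [1], [3], [3], [3], [3]]
  rank := [0, 0, 1, 0, 0, 1, 2, 12, 1, 0, 12, 0, 1, 2, 0, 2, 0, 1, 2, 3, 0, 0, 2, 1, 4, 4, 3, 2, 1, 0, 2, 3, 1, 0, 1,
    11, 2, 1, 0, 1, 11, 0, 1, 1, 0, 1, 2, 0, 4, 5, 6, 0, 1, 3, 0, 3, 4, 0, 1, 7, 3, 2, 1, 0, 5, 4, 3, 0, 1, 2, 3, 6,
    0, 1, 0, 0, 1, 10, 9, 1, 1, 2, 3, 3, 2, 1, 0, 0, 0, 7, 8, 10, 0, 3, 4, 1, 7, 0, 1, 4, 0, 1, 2, 6, 7, 6, 5, 0, 1,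
    8, 9, 8, 2, 0, 1, 8, 6, 5, 4, 3, 6, 0, 1, 5, 2, 1, 0, 5]
  just := [0, 0, 2, 0, 0, 5, 6, 7, 1, 0, 7, 0, 9, 10, 0, 8, 0, 1, 8, 12, 0, 0, 3, 2, 16, 18, 11, 10, 4, 0, 3, 15, 19,
    0, 20, 21, 6, 5, 0, 4, 21, 0, 9, 19, 0, 22, 23, 0, 18, 17, 25, 0, 27, 12, 0, 11, 13, 0, 29, 26, 31, 32, 14, 0,
    17, 16, 15, 0, 14, 32, 31, 25, 0, 35, 0, 0, 20, 36, 37, 33, 35, 34, 38, 24, 23, 22, 0, 0, 0, 41, 42, 36, 0, 24,
    39, 40, 26, 0, 27, 13, 0, 44, 45, 46, 41, 47, 28, 0, 29, 30, 37, 42, 34, 0, 33, 30, 46, 43, 39, 38, 47, 0, 40,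
    43, 45, 44, 0, 28]
  gA := 74
  gB := 100
  fin := 0
  sid := [0, 1, 2, 3, 4, 5, 6, 7, 8, 1, 0, 7, 9, 10, 11, 12, 2, 1, 8, 12, 13, 14, 15, 3, 16, 17, 18, 11, 10, 4, 3,
    15, 10, 19, 20, 21, 7, 6, 5, 4, 21, 7, 9, 10, 19, 22, 23, 24, 18, 17, 25, 26, 27, 13, 12, 11, 13, 28, 29, 30, 26,
    31, 32, 14, 25, 17, 16, 15, 14, 32, 31, 26, 33, 34, 35, 19, 20, 21, 36, 37, 35, 34, 38, 39, 24, 23, 22, 19, 40,
    41, 42, 36, 21, 24, 39, 43, 30, 26, 27, 13, 28, 44, 45, 46, 42, 41, 47, 28, 29, 30, 37, 36, 38, 34, 33, 37, 30,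
    46, 43, 39, 47, 41, 40, 43, 46, 45, 44, 28]
  off := [(0, 0), (0, 0), (0, 0), (0, 0), (0, 0), (0, 0), (0, 0), (0, 0), (0, 0), (0, 0), (0, 0), (0, 0), (0, 0), (0,
    0), (0, 0), (0, 0), (0, 0), (0, 0), (0, 0), (0, 0), (0, 0), (0, 0), (0, 0), (0, 0), (0, 0), (0, 0), (0, 0), (1,
    0), (1, 0), (0, 0), (0, 0), (0, 0), (1, 0), (0, 0), (0, 0), (0, 0), (0, 0), (0, 0), (0, 0), (0, 0), (0, 0), (0,
    0), (0, 0), (0, 0), (-1, 0), (0, 0), (0, 0), (0, 0), (-1, 0), (-1, 0), (0, 0), (0, 0), (0, 0), (0, 0), (0, 0),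
    (0, 0), (0, 0), (0, 0), (0, 0), (0, 0), (1, 0), (0, 0), (0, 0), (0, 0), (1, 0), (0, 0), (0, 0), (0, 0), (0, 0),
    (0, 0), (0, 0), (1, 0), (0, 0), (0, 0), (0, 0), (0, 0), (0, 0), (0, 0), (0, 0), (0, 0), (-1, 0), (-1, 0), (0, 0),
    (0, 0), (0, 0), (0, 0), (0, 0), (-1, 0), (0, 0), (0, 0), (0, 0), (0, 0), (0, 0), (0, 0), (0, 0), (0, 0), (-1, 0),
    (0, 0), (0, 0), (0, 0), (0, 0), (0, 0), (0, 0), (0, 0), (0, 1), (0, 1), (0, 0), (0, 0), (0, 0), (0, 0), (0, 1),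
    (0, 1), (1, 0), (0, 0), (0, 0), (0, 0), (0, -1), (1, -1), (1, 0), (1, 0), (0, -1), (0, 0), (0, 0), (0, 0), (0,
    -1), (0, -1), (0, -1), (0, -1)]

/-- glued arcs and equations -/
def tord8r_104 : TorT :=
  ⟨[(0, 1, true), (0, 3, false), (1, 3, false), (2, 4, false), (2, 7, true), (3, 5, true), (4, 6, true), (4, 7,
    true), (5, 5, true), (6, 6, true)],
    [([0, 0, 0, 0, 0, 1, 1, 0], 2), ([0, 0, 0, 0, 1, 1, 0, 1], 2), ([0, 0, 0, 1, 0, 0, 1, 1], 2), ([0, 0, 1, 0, 1, 0,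
    0, 0], 2), ([0, 1, 0, 1, 1, 0, 0, 1], 2), ([0, 3, 0, 0, 0, 0, 0, 0], 2), ([1, 0, 0, 1, 1, 1, 0, 0], 2), ([1, 0,
    1, 0, 0, 0, 0, 0], 2)]⟩

theorem tord8r_104_ok : tord8r_104.OK 8 := TT.leaf_ok (T := ttd8r_104) (by decide +kernel)

/-- the torus -/
def ttd8r_105 : TT where
  k := 8
  rf := [false, false, false, false, false, false, false, false]
  tau := [9, 16, 23, 27, 38, 40, 47, 10, 17, 0, 7, 53, 52, 51, 36, 18, 1, 8, 15, 35, 62, 49, 28, 2, 57, 32, 39, 3,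
    22, 48, 55, 58, 25, 56, 63, 19, 14, 41, 4, 26, 5, 37, 50, 61, 60, 59, 54, 6, 29, 21, 42, 13, 12, 11, 46, 30, 33,
    24, 31, 45, 44, 43, 20, 34]
  par := [0, 0, 1, 3, 4, 5, 11, 20]
  stars := [[0, 10], [1, 9, 17], [2, 16], [3, 23, 28], [4, 27, 39], [5, 38, 41], [6, 40], [7, 47, 54, 11], [8, 18],
    [12, 53], [13, 52], [14, 51, 42, 37], [15, 36, 19], [20, 35, 63], [21, 62, 43, 50], [22, 49, 29], [24, 58], [25,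
    57, 33], [26, 32], [30, 48], [31, 55, 46, 59], [34, 56], [44, 61], [45, 60]]
  word := [[], [], [], [], [], [], [], [2, 0, 3, 1], [], [], [0, 2, 1, 3], [], [], [], [0], [], [], [], [], [0], [],
    [3, 1], [], [], [1], [], [], [], [], [3, 1], [3, 1], [1], [], [1], [1], [1], [1], [], [], [], [], [], [1], [2],
    [2], [2], [2, 0, 3, 1], [], [0, 2], [0, 2], [0], [], [], [], [0, 2, 1, 3], [0, 2], [0], [0], [0], [3], [3], [3],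
    [], [0]]
  rank := [0, 0, 1, 0, 0, 0, 1, 9, 1, 0, 9, 0, 1, 2, 3, 2, 0, 1, 2, 0, 0, 5, 2, 1, 3, 2, 1, 0, 2, 6, 7, 4, 2, 2, 1,
    0, 3, 1, 0, 1, 0, 1, 4, 0, 1, 2, 8, 1, 6, 5, 4, 2, 1, 0, 8, 7, 2, 3, 4, 2, 1, 0, 0, 1]
  just := [0, 0, 2, 0, 0, 0, 6, 7, 1, 0, 7, 0, 9, 10, 12, 8, 0, 1, 8, 0, 0, 14, 3, 2, 17, 18, 4, 0, 3, 15, 19, 16,
    18, 21, 13, 0, 12, 5, 0, 4, 0, 5, 11, 0, 22, 23, 20, 6, 15, 14, 11, 10, 9, 0, 20, 19, 21, 17, 16, 23, 22, 0, 0,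
    13]
  gA := 19
  gB := 43
  fin := 0
  sid := [0, 1, 2, 3, 4, 5, 6, 7, 8, 1, 0, 7, 9, 10, 11, 12, 2, 1, 8, 12, 13, 14, 15, 3, 16, 17, 18, 4, 3, 15, 19,
    20, 18, 17, 21, 13, 12, 11, 5, 4, 6, 5, 11, 14, 22, 23, 20, 7, 19, 15, 14, 11, 10, 9, 7, 20, 21, 17, 16, 20, 23,
    22, 14, 13]
  off := [(0, 0), (0, 0), (0, 0), (0, 0), (0, 0), (0, 0), (0, 0), (0, 0), (0, 0), (0, 0), (0, 0), (0, 0), (0, 0), (0,
    0), (0, 0), (0, 0), (0, 0), (0, 0), (0, 0), (0, 0), (0, 0), (0, 0), (0, 0), (0, 0), (0, 0), (0, 0), (0, 0), (0,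
    0), (0, 0), (0, 0), (0, 0), (0, 0), (0, 0), (0, 0), (0, 0), (-1, 0), (-1, 0), (-1, 0), (0, 0), (0, 0), (0, 0),
    (0, 0), (-1, 0), (0, 1), (0, 0), (0, 0), (1, 1), (0, 0), (1, 1), (1, 1), (1, 1), (0, 0), (0, 0), (0, 0), (0, 0),
    (1, 1), (1, 0), (1, 0), (1, 0), (1, 0), (0, -1), (0, -1), (0, 0), (0, 0)]

/-- glued arcs and equations -/
def tord8r_105 : TorT :=
  ⟨[(0, 1, true), (0, 5, true), (1, 5, true), (2, 2, true), (2, 7, true), (3, 3, true), (3, 5, true), (4, 4, true),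
    (4, 6, true), (6, 6, true), (6, 7, true)],
    [([0, 0, 0, 0, 1, 1, 0, 0], 2), ([0, 0, 0, 1, 0, 0, 1, 2], 2), ([0, 0, 0, 1, 1, 0, 0, 1], 2), ([0, 0, 1, 1, 0, 1,
    1, 0], 2), ([0, 1, 0, 0, 0, 1, 1, 0], 2), ([0, 3, 0, 0, 0, 0, 0, 0], 2), ([1, 0, 0, 0, 0, 0, 1, 0], 2), ([1, 0,
    1, 0, 0, 0, 0, 0], 2)]⟩

theorem tord8r_105_ok : tord8r_105.OK 8 := TT.leaf_ok (T := ttd8r_105) (by decide +kernel)

/-- the torus -/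
def ttd8r_106 : TT where
  k := 4
  rf := [false, false, false, false]
  tau := [9, 17, 20, 19, 18, 8, 15, 10, 5, 0, 7, 29, 28, 27, 30, 6, 25, 1, 4, 3, 2, 24, 31, 26, 21, 16, 23, 13, 12,
    11, 14, 22]
  par := [0, 0, 1, 11]
  stars := [[0, 10], [1, 9, 5, 18], [2, 17, 25, 21], [3, 20], [4, 19], [6, 8], [7, 15, 30, 11], [12, 29], [13, 28],
    [14, 27, 23, 31], [16, 26], [22, 24]]
  word := [[], [], [0], [0], [0], [0], [0], [0, 3, 1, 2], [1], [], [3, 0, 2, 1], [], [], [], [3, 1, 2], [1], [2], [],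
    [1], [1], [1], [1, 2], [1, 2], [2], [3, 0], [3], [3], [], [], [], [3, 0, 2], [3, 0]]
  rank := [0, 0, 0, 1, 2, 3, 4, 5, 3, 0, 5, 0, 1, 2, 3, 4, 0, 0, 2, 1, 0, 1, 2, 1, 1, 0, 1, 2, 1, 0, 3, 2]
  just := [0, 0, 0, 3, 4, 1, 5, 6, 1, 0, 6, 0, 7, 8, 9, 5, 0, 0, 4, 3, 0, 2, 11, 10, 2, 0, 10, 8, 7, 0, 9, 11]
  gA := 2
  gB := 16
  fin := 0
  sid := [0, 1, 2, 3, 4, 1, 5, 6, 5, 1, 0, 6, 7, 8, 9, 6, 10, 2, 1, 4, 3, 2, 11, 9, 11, 2, 10, 9, 8, 7, 6, 9]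
  off := [(0, 0), (0, 0), (0, 0), (0, 0), (0, 0), (1, 0), (0, 0), (0, 0), (-1, 0), (0, 0), (0, 0), (0, 0), (0, 0),
    (0, 0), (0, 0), (-1, 0), (0, 0), (0, 0), (0, 0), (-1, 0), (-1, 0), (-1, 0), (0, 0), (0, 1), (1, -1), (0, -1), (0,
    -1), (0, 0), (0, 0), (0, 0), (0, 0), (1, 0)]

/-- glued arcs and equations -/
def tord8r_106 : TorT :=
  ⟨[(0, 1, true), (0, 5, true), (1, 1, true), (2, 4, true), (2, 7, true), (3, 3, true), (3, 5, true), (4, 4, true),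
    (6, 6, true), (6, 7, true)],
    [([0, 0, 0, 0, 1, 1, 0, 0], 2), ([0, 0, 0, 1, 0, 0, 1, 2], 2), ([0, 0, 0, 1, 1, 0, 0, 0], 2), ([0, 2, 1, 0, 0, 1,
    0, 0], 2), ([1, 0, 0, 0, 0, 0, 1, 0], 2), ([1, 0, 1, 0, 0, 0, 0, 0], 2)]⟩

theorem tord8r_106_ok : tord8r_106.OK 8 := TT.leaf_ok (T := ttd8r_106) (by decide +kernel)

/-- the torus -/
def ttd8r_107 : TT where
  k := 4
  rf := [false, false, true, true]
  tau := [9, 19, 20, 17, 18, 8, 15, 10, 5, 0, 7, 29, 30, 27, 28, 6, 25, 3, 4, 1, 2, 24, 31, 26, 21, 16, 23, 13, 14,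
    11, 12, 22]
  par := [0, 0, 1, 11]
  stars := [[0, 10], [1, 9, 5, 19], [2, 20], [3, 21, 25, 17], [4, 18], [6, 8], [7, 15, 29, 11], [12, 30], [13, 31,
    23, 27], [14, 28], [16, 26], [22, 24]]
  word := [[], [], [], [2, 1], [2, 1], [2, 1], [2, 1], [2, 1, 3, 0], [0, 3], [], [1, 2, 0, 3], [], [], [3, 0], [3,
    0], [0, 3], [0], [0, 3], [0, 3], [], [], [2], [2], [0], [3], [1], [1], [1, 2], [1, 2], [], [], [3]]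
  rank := [0, 0, 1, 2, 3, 4, 5, 6, 4, 0, 6, 0, 1, 2, 3, 5, 0, 2, 3, 0, 1, 0, 1, 1, 0, 0, 1, 2, 3, 0, 1, 1]
  just := [0, 0, 2, 3, 4, 1, 5, 6, 1, 0, 6, 0, 7, 8, 9, 5, 0, 3, 4, 0, 2, 0, 11, 10, 0, 0, 10, 8, 9, 0, 7, 11]
  gA := 16
  gB := 21
  fin := 0
  sid := [0, 1, 2, 3, 4, 1, 5, 6, 5, 1, 0, 6, 7, 8, 9, 6, 10, 3, 4, 1, 2, 3, 11, 8, 11, 3, 10, 8, 9, 6, 7, 8]
  off := [(0, 0), (0, 0), (0, 0), (0, 0), (0, 0), (-1, 1), (0, 0), (0, 0), (1, -1), (0, 0), (0, 0), (0, 0), (0, 0),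
    (0, 0), (0, 0), (1, -1), (0, 0), (1, -1), (1, -1), (0, 0), (0, 0), (0, 0), (0, 0), (0, 1), (0, -1), (0, -1), (-1,
    0), (-1, 1), (-1, 1), (0, 0), (0, 0), (0, 0)]

/-- glued arcs and equations -/
def tord8r_107 : TorT :=
  ⟨[(0, 1, true), (0, 5, true), (1, 3, false), (2, 4, false), (2, 7, true), (3, 5, false), (4, 6, false), (6, 7,
    true)],
    [([0, 0, 0, 0, 1, 0, 1, 0], 2), ([0, 0, 0, 1, 0, 1, 0, 2], 2), ([0, 0, 1, 0, 1, 0, 0, 0], 2), ([0, 2, 0, 1, 0, 1,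
    0, 0], 2), ([1, 0, 0, 0, 0, 0, 1, 0], 2), ([1, 0, 1, 0, 0, 0, 0, 0], 2)]⟩

theorem tord8r_107_ok : tord8r_107.OK 8 := TT.leaf_ok (T := ttd8r_107) (by decide +kernel)

/-- the torus -/
def ttd8r_108 : TT where
  k := 8
  rf := [false, false, false, true, false, true, true, true]
  tau := [8, 9, 7, 17, 30, 19, 18, 2, 0, 1, 15, 33, 46, 35, 34, 10, 29, 3, 6, 5, 31, 24, 52, 28, 21, 51, 54, 53, 23,
    16, 4, 20, 45, 11, 14, 13, 47, 40, 60, 44, 37, 59, 62, 61, 39, 32, 12, 36, 56, 57, 55, 25, 22, 27, 26, 50, 48,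
    49, 63, 41, 38, 43, 42, 58]
  par := [0, 0, 3, 4, 11, 12, 22, 38]
  stars := [[0, 2, 9], [1, 8, 10], [3, 7, 18], [4, 17, 30], [5, 31, 20], [6, 19], [11, 15, 34], [12, 33, 46], [13,
    47, 36], [14, 35], [16, 29], [21, 24], [22, 25, 52], [23, 53, 28], [26, 55, 51], [27, 54], [32, 45], [37, 40],
    [38, 41, 60], [39, 61, 44], [42, 63, 59], [43, 62], [48, 57, 50], [49, 58, 56]]
  word := [[], [1, 2], [2, 1], [], [], [0, 3], [0, 3], [0, 3], [], [3, 0], [3, 0], [], [], [1, 2], [1, 2], [1, 2],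
    [], [], [2, 1], [2, 1], [2, 1], [2, 1], [], [], [0, 3], [0, 3], [], [], [], [], [], [0, 3], [], [], [3, 0], [3,
    0], [3, 0], [3, 0], [], [], [1, 2], [1, 2], [], [], [], [], [], [1, 2], [0], [2], [2, 1], [2, 1], [], [], [], [0,
    3], [1], [3], [3, 0], [3, 0], [], [], [], [1, 2]]
  rank := [0, 11, 10, 0, 0, 8, 9, 10, 0, 11, 10, 0, 0, 8, 9, 10, 1, 0, 9, 8, 7, 6, 0, 2, 6, 5, 4, 3, 2, 1, 0, 7, 1,
    0, 9, 8, 7, 6, 0, 2, 6, 5, 4, 3, 2, 1, 0, 7, 0, 0, 1, 5, 0, 3, 4, 1, 0, 0, 1, 5, 0, 3, 4, 1]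
  just := [0, 1, 2, 0, 0, 4, 5, 2, 0, 1, 6, 0, 0, 8, 9, 6, 3, 0, 5, 4, 11, 12, 0, 10, 12, 14, 15, 13, 10, 3, 0, 11,
    7, 0, 9, 8, 17, 18, 0, 16, 18, 20, 21, 19, 16, 7, 0, 17, 0, 0, 22, 14, 0, 13, 15, 22, 0, 0, 23, 20, 0, 19, 21, 23]
  gA := 48
  gB := 49
  fin := 0
  sid := [0, 1, 0, 2, 3, 4, 5, 2, 1, 0, 1, 6, 7, 8, 9, 6, 10, 3, 2, 5, 4, 11, 12, 13, 11, 12, 14, 15, 13, 10, 3, 4,
    16, 7, 6, 9, 8, 17, 18, 19, 17, 18, 20, 21, 19, 16, 7, 8, 22, 23, 22, 14, 12, 13, 15, 14, 23, 22, 23, 20, 18, 19,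
    21, 20]
  off := [(0, 0), (0, 0), (-1, 1), (0, 0), (0, 0), (0, 0), (0, 0), (1, -1), (0, 0), (0, 0), (1, -1), (0, 0), (0, 0),
    (0, 0), (0, 0), (-1, 1), (0, 0), (0, 0), (0, 0), (-1, 1), (-1, 1), (0, 0), (0, 0), (0, 0), (1, -1), (1, -1), (0,
    0), (0, 0), (0, 0), (0, 0), (0, 0), (0, 0), (0, 0), (0, 0), (0, 0), (1, -1), (1, -1), (0, 0), (0, 0), (0, 0),
    (-1, 1), (-1, 1), (0, 0), (0, 0), (0, 0), (0, 0), (0, 0), (0, 0), (0, 0), (0, 0), (-1, 1), (-1, 1), (0, 0), (0,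
    0), (0, 0), (0, 0), (-1, 0), (-1, 0), (0, -1), (1, -1), (0, 0), (0, 0), (0, 0), (0, 0)]

/-- glued arcs and equations -/
def tord8r_108 : TorT :=
  ⟨[(0, 0, true), (0, 5, false), (1, 1, true), (1, 3, true), (2, 6, true), (2, 7, true), (3, 5, true), (4, 6, false),
    (4, 7, false)],
    [([0, 0, 0, 0, 1, 1, 0, 1], 2), ([0, 0, 0, 1, 0, 0, 1, 0], 2), ([0, 0, 1, 1, 0, 0, 0, 1], 2), ([0, 1, 0, 0, 1, 0,
    1, 0], 2), ([1, 0, 0, 0, 0, 1, 0, 0], 2), ([1, 1, 1, 0, 0, 0, 0, 0], 2)]⟩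

theorem tord8r_108_ok : tord8r_108.OK 8 := TT.leaf_ok (T := ttd8r_108) (by decide +kernel)

/-- the torus -/
def ttd8r_109 : TT where
  k := 8
  rf := [false, true, false, false, true, true, false, true]
  tau := [9, 22, 21, 6, 28, 29, 3, 20, 19, 0, 23, 16, 39, 34, 33, 18, 11, 32, 15, 8, 7, 2, 1, 10, 41, 54, 53, 30, 4,
    5, 27, 52, 17, 14, 13, 38, 60, 61, 35, 12, 51, 24, 55, 48, 63, 58, 57, 50, 43, 56, 47, 40, 31, 26, 25, 42, 49,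
    46, 45, 62, 36, 37, 59, 44]
  par := [0, 0, 1, 4, 12, 24, 25, 36]
  stars := [[0, 20, 9], [1, 10, 23], [2, 22], [3, 21, 7], [4, 6, 29], [5, 28, 30], [8, 19], [11, 16], [12, 32, 17],
    [13, 35, 39], [14, 34], [15, 18, 33], [24, 52, 41], [25, 42, 55], [26, 54], [27, 53, 31], [36, 61, 38], [37, 62,
    60], [40, 51], [43, 48], [44, 56, 49], [45, 59, 63], [46, 58], [47, 50, 57]]
  word := [[], [], [], [2, 1], [], [0, 3], [0, 3], [0, 3], [3, 0], [], [], [], [], [3, 0], [3, 0], [3, 0], [], [],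
    [1, 2], [1, 2], [2, 1], [], [], [], [], [], [], [0, 3], [], [2, 1], [2, 1], [2, 1], [], [1, 2], [1, 2], [1, 2],
    [], [3, 0], [3, 0], [], [2, 1], [], [], [], [0], [2], [2], [2, 1], [], [0], [0, 3], [0, 3], [0, 3], [], [], [],
    [1], [3], [3], [3, 0], [], [1, 2], [1, 2], [1]]
  rank := [0, 0, 1, 9, 0, 8, 9, 10, 7, 0, 1, 2, 0, 4, 5, 6, 2, 3, 6, 7, 10, 1, 0, 1, 0, 0, 1, 7, 0, 8, 7, 6, 3, 5, 4,
    3, 0, 2, 3, 0, 5, 0, 1, 2, 0, 0, 1, 4, 2, 3, 4, 5, 6, 1, 0, 1, 3, 1, 0, 1, 0, 2, 1, 0]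
  just := [0, 0, 2, 4, 0, 5, 4, 3, 6, 0, 1, 7, 0, 9, 10, 11, 7, 8, 11, 6, 3, 2, 0, 1, 0, 0, 14, 15, 0, 5, 15, 12, 8,
    10, 9, 16, 0, 17, 16, 0, 18, 0, 13, 19, 0, 0, 22, 23, 19, 20, 23, 18, 12, 14, 0, 13, 20, 22, 0, 21, 0, 17, 21, 0]
  gA := 44
  gB := 45
  fin := 0
  sid := [0, 1, 2, 3, 4, 5, 4, 3, 6, 0, 1, 7, 8, 9, 10, 11, 7, 8, 11, 6, 0, 3, 2, 1, 12, 13, 14, 15, 5, 4, 5, 15, 8,
    11, 10, 9, 16, 17, 16, 9, 18, 12, 13, 19, 20, 21, 22, 23, 19, 20, 23, 18, 12, 15, 14, 13, 20, 23, 22, 21, 17, 16,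
    17, 21]
  off := [(0, 0), (0, 0), (0, 0), (0, 0), (0, 0), (0, 0), (1, -1), (1, -1), (0, 0), (0, 0), (0, 0), (0, 0), (0, 0),
    (0, 0), (0, 0), (0, 0), (0, 0), (0, 0), (-1, 1), (-1, 1), (-1, 1), (0, 0), (0, 0), (0, 0), (0, 0), (0, 0), (0,
    0), (0, 0), (0, 0), (0, 0), (-1, 1), (-1, 1), (0, 0), (-1, 1), (-1, 1), (-1, 1), (0, 0), (0, 0), (1, -1), (0, 0),
    (0, 0), (0, 0), (0, 0), (0, 0), (0, 0), (0, 0), (0, 0), (0, 0), (0, 0), (0, 0), (1, -1), (1, -1), (1, -1), (0,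
    0), (0, 0), (0, 0), (-1, 0), (0, -1), (0, -1), (0, -1), (0, 0), (0, 0), (-1, 1), (-1, 0)]

/-- glued arcs and equations -/
def tord8r_109 : TorT :=
  ⟨[(0, 1, false), (0, 3, false), (1, 6, true), (2, 5, true), (2, 7, false), (3, 6, true), (4, 4, true), (4, 7,
    true), (5, 5, true)],
    [([0, 0, 0, 0, 1, 1, 1, 0], 2), ([0, 0, 0, 1, 0, 1, 0, 1], 2), ([0, 0, 1, 0, 0, 0, 1, 0], 2), ([0, 1, 1, 0, 0, 0,
    0, 1], 2), ([1, 0, 0, 1, 0, 0, 0, 0], 2), ([1, 1, 0, 0, 1, 0, 0, 0], 2)]⟩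

theorem tord8r_109_ok : tord8r_109.OK 8 := TT.leaf_ok (T := ttd8r_109) (by decide +kernel)

end Pool.Agent.Lib_MP_fa6e45
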