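import Pool.Agent.Lib_MP_fa6e45.DQ8rT0
import Pool.Agent.Lib_MP_fa6e45.DQ8rT1
import Pool.Agent.Lib_MP_fa6e45.DQ8rT2
import Pool.Agent.Lib_MP_fa6e45.DQ8rT3
import Pool.Agent.Lib_MP_fa6e45.DQ8rT4
import Pool.Agent.Lib_MP_fa6e45.DQ8rT5
import Pool.Agent.Lib_MP_fa6e45.DQ8rT6
import Pool.Agent.Lib_MP_fa6e45.DQ8rT7
import Pool.Agent.Lib_MP_fa6e45.DQ8rT8
import Pool.Agent.Lib_MP_fa6e45.DQ8rT9
import Pool.Agent.Lib_MP_fa6e45.DQ8rT10
import Pool.Agent.Lib_MP_fa6e45.DQ8rT11

/-!
MP_fa6e45_co, stage 9: straight-side patterns with `8` sides, the list of tori (generated by a program).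
-/

namespace Pool.Agent.Lib_MP_fa6e45

/-- tables -/
def ttD8r_0 : List TorT := [tord8r_0, tord8r_1, tord8r_2, tord8r_3, tord8r_4, tord8r_5, tord8r_6, tord8r_7, tord8r_8,
    tord8r_9, tord8r_10]

theorem ttD8r_0_ok : ∀ T ∈ ttD8r_0, T.OK 8 := by
  intro T hT
  simp only [ttD8r_0, List.mem_cons, List.not_mem_nil, or_false] at hT
  rcases hT with rfl | rfl | rfl | rfl | rfl | rfl | rfl | rfl | rfl | rfl | rfl
  · exact tord8r_0_ok
  · exact tord8r_1_ok
  · exact tord8r_2_ok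
  · exact tord8r_3_ok
  · exact tord8r_4_ok
  · exact tord8r_5_ok
  · exact tord8r_6_ok
  · exact tord8r_7_ok
  · exact tord8r_8_ok
  · exact tord8r_9_ok
  · exact tord8r_10_ok

/-- tables -/
def ttD8r_1 : List TorT := [tord8r_11, tord8r_12, tord8r_13, tord8r_14, tord8r_15, tord8r_16, tord8r_17, tord8r_18,
    tord8r_19, tord8r_20, tord8r_21]

theorem ttD8r_1_ok : ∀ T ∈ ttD8r_1, T.OK 8 := by
  intro T hT
  simp only [ttD8r_1, List.mem_cons, List.not_mem_nil, or_false] at hT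
  rcases hT with rfl | rfl | rfl | rfl | rfl | rfl | rfl | rfl | rfl | rfl | rfl
  · exact tord8r_11_ok
  · exact tord8r_12_ok
  · exact tord8r_13_ok
  · exact tord8r_14_ok
  · exact tord8r_15_ok
  · exact tord8r_16_ok
  · exact tord8r_17_ok
  · exact tord8r_18_ok
  · exact tord8r_19_ok
  · exact tord8r_20_ok
  · exact tord8r_21_ok

/-- tables -/
def ttD8r_2 : List TorT := [tord8r_22, tord8r_23, tord8r_24, tord8r_25, tord8r_26, tord8r_27, tord8r_28, tord8r_29,
    tord8r_30, tord8r_31, tord8r_32]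

theorem ttD8r_2_ok : ∀ T ∈ ttD8r_2, T.OK 8 := by
  intro T hT
  simp only [ttD8r_2, List.mem_cons, List.not_mem_nil, or_false] at hT
  rcases hT with rfl | rfl | rfl | rfl | rfl | rfl | rfl | rfl | rfl | rfl | rfl
  · exact tord8r_22_ok
  · exact tord8r_23_ok
  · exact tord8r_24_ok
  · exact tord8r_25_ok
  · exact tord8r_26_ok
  · exact tord8r_27_ok
  · exact tord8r_28_ok
  · exact tord8r_29_ok
  · exact tord8r_30_ok
  · exact tord8r_31_ok
  · exact tord8r_32_ok

/-- tables -/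
def ttD8r_3 : List TorT := [tord8r_33, tord8r_34, tord8r_35, tord8r_36, tord8r_37, tord8r_38, tord8r_39, tord8r_40,
    tord8r_41, tord8r_42, tord8r_43]

theorem ttD8r_3_ok : ∀ T ∈ ttD8r_3, T.OK 8 := by
  intro T hT
  simp only [ttD8r_3, List.mem_cons, List.not_mem_nil, or_false] at hT
  rcases hT with rfl | rfl | rfl | rfl | rfl | rfl | rfl | rfl | rfl | rfl | rfl
  · exact tord8r_33_ok
  · exact tord8r_34_ok
  · exact tord8r_35_ok
  · exact tord8r_36_ok
  · exact tord8r_37_ok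
  · exact tord8r_38_ok
  · exact tord8r_39_ok
  · exact tord8r_40_ok
  · exact tord8r_41_ok
  · exact tord8r_42_ok
  · exact tord8r_43_ok

/-- tables -/
def ttD8r_4 : List TorT := [tord8r_44, tord8r_45, tord8r_46, tord8r_47, tord8r_48, tord8r_49, tord8r_50, tord8r_51,
    tord8r_52, tord8r_53, tord8r_54]

theorem ttD8r_4_ok : ∀ T ∈ ttD8r_4, T.OK 8 := by
  intro T hT
  simp only [ttD8r_4, List.mem_cons, List.not_mem_nil, or_false] at hT
  rcases hT with rfl | rfl | rfl | rfl | rfl | rfl | rfl | rfl | rfl | rfl | rfl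
  · exact tord8r_44_ok
  · exact tord8r_45_ok
  · exact tord8r_46_ok
  · exact tord8r_47_ok
  · exact tord8r_48_ok
  · exact tord8r_49_ok
  · exact tord8r_50_ok
  · exact tord8r_51_ok
  · exact tord8r_52_ok
  · exact tord8r_53_ok
  · exact tord8r_54_ok

/-- tables -/
def ttD8r_5 : List TorT := [tord8r_55, tord8r_56, tord8r_57, tord8r_58, tord8r_59, tord8r_60, tord8r_61, tord8r_62,
    tord8r_63, tord8r_64, tord8r_65]

theorem ttD8r_5_ok : ∀ T ∈ ttD8r_5, T.OK 8 := by
  intro T hT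
  simp only [ttD8r_5, List.mem_cons, List.not_mem_nil, or_false] at hT
  rcases hT with rfl | rfl | rfl | rfl | rfl | rfl | rfl | rfl | rfl | rfl | rfl
  · exact tord8r_55_ok
  · exact tord8r_56_ok
  · exact tord8r_57_ok
  · exact tord8r_58_ok
  · exact tord8r_59_ok
  · exact tord8r_60_ok
  · exact tord8r_61_ok
  · exact tord8r_62_ok
  · exact tord8r_63_ok
  · exact tord8r_64_ok
  · exact tord8r_65_ok

/-- tables -/
def ttD8r_6 : List TorT := [tord8r_66, tord8r_67, tord8r_68, tord8r_69, tord8r_70, tord8r_71, tord8r_72, tord8r_73,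
    tord8r_74, tord8r_75, tord8r_76]

theorem ttD8r_6_ok : ∀ T ∈ ttD8r_6, T.OK 8 := by
  intro T hT
  simp only [ttD8r_6, List.mem_cons, List.not_mem_nil, or_false] at hT
  rcases hT with rfl | rfl | rfl | rfl | rfl | rfl | rfl | rfl | rfl | rfl | rfl
  · exact tord8r_66_ok
  · exact tord8r_67_ok
  · exact tord8r_68_ok
  · exact tord8r_69_ok
  · exact tord8r_70_ok
  · exact tord8r_71_ok
  · exact tord8r_72_ok
  · exact tord8r_73_ok
  · exact tord8r_74_ok
  · exact tord8r_75_ok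
  · exact tord8r_76_ok

/-- tables -/
def ttD8r_7 : List TorT := [tord8r_77, tord8r_78, tord8r_79, tord8r_80, tord8r_81, tord8r_82, tord8r_83, tord8r_84,
    tord8r_85, tord8r_86, tord8r_87]

theorem ttD8r_7_ok : ∀ T ∈ ttD8r_7, T.OK 8 := by
  intro T hT
  simp only [ttD8r_7, List.mem_cons, List.not_mem_nil, or_false] at hT
  rcases hT with rfl | rfl | rfl | rfl | rfl | rfl | rfl | rfl | rfl | rfl | rfl
  · exact tord8r_77_ok
  · exact tord8r_78_ok
  · exact tord8r_79_ok
  · exact tord8r_80_ok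
  · exact tord8r_81_ok
  · exact tord8r_82_ok
  · exact tord8r_83_ok
  · exact tord8r_84_ok
  · exact tord8r_85_ok
  · exact tord8r_86_ok
  · exact tord8r_87_ok

/-- tables -/
def ttD8r_8 : List TorT := [tord8r_88, tord8r_89, tord8r_90, tord8r_91, tord8r_92, tord8r_93, tord8r_94, tord8r_95,
    tord8r_96, tord8r_97, tord8r_98]

theorem ttD8r_8_ok : ∀ T ∈ ttD8r_8, T.OK 8 := by
  intro T hT
  simp only [ttD8r_8, List.mem_cons, List.not_mem_nil, or_false] at hT
  rcases hT with rfl | rfl | rfl | rfl | rfl | rfl | rfl | rfl | rfl | rfl | rfl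
  · exact tord8r_88_ok
  · exact tord8r_89_ok
  · exact tord8r_90_ok
  · exact tord8r_91_ok
  · exact tord8r_92_ok
  · exact tord8r_93_ok
  · exact tord8r_94_ok
  · exact tord8r_95_ok
  · exact tord8r_96_ok
  · exact tord8r_97_ok
  · exact tord8r_98_ok

/-- tables -/
def ttD8r_9 : List TorT := [tord8r_99, tord8r_100, tord8r_101, tord8r_102, tord8r_103, tord8r_104, tord8r_105,
    tord8r_106, tord8r_107, tord8r_108, tord8r_109]

theorem ttD8r_9_ok : ∀ T ∈ ttD8r_9, T.OK 8 := by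
  intro T hT
  simp only [ttD8r_9, List.mem_cons, List.not_mem_nil, or_false] at hT
  rcases hT with rfl | rfl | rfl | rfl | rfl | rfl | rfl | rfl | rfl | rfl | rfl
  · exact tord8r_99_ok
  · exact tord8r_100_ok
  · exact tord8r_101_ok
  · exact tord8r_102_ok
  · exact tord8r_103_ok
  · exact tord8r_104_ok
  · exact tord8r_105_ok
  · exact tord8r_106_ok
  · exact tord8r_107_ok
  · exact tord8r_108_ok
  · exact tord8r_109_ok

/-- tables -/
def ttD8r_10 : List TorT := [tord8r_110, tord8r_111, tord8r_112, tord8r_113, tord8r_114, tord8r_115, tord8r_116,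
    tord8r_117, tord8r_118, tord8r_119, tord8r_120]

theorem ttD8r_10_ok : ∀ T ∈ ttD8r_10, T.OK 8 := by
  intro T hT
  simp only [ttD8r_10, List.mem_cons, List.not_mem_nil, or_false] at hT
  rcases hT with rfl | rfl | rfl | rfl | rfl | rfl | rfl | rfl | rfl | rfl | rfl
  · exact tord8r_110_ok
  · exact tord8r_111_ok
  · exact tord8r_112_ok
  · exact tord8r_113_ok
  · exact tord8r_114_ok
  · exact tord8r_115_ok
  · exact tord8r_116_ok
  · exact tord8r_117_ok
  · exact tord8r_118_ok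
  · exact tord8r_119_ok
  · exact tord8r_120_ok

/-- tables -/
def ttD8r_11 : List TorT := [tord8r_121, tord8r_122]

theorem ttD8r_11_ok : ∀ T ∈ ttD8r_11, T.OK 8 := by
  intro T hT
  simp only [ttD8r_11, List.mem_cons, List.not_mem_nil, or_false] at hT
  rcases hT with rfl | rfl
  · exact tord8r_121_ok
  · exact tord8r_122_ok

/-- all tables -/
def ttD8r : List TorT :=
  ttD8r_0 ++ (ttD8r_1 ++ (ttD8r_2 ++ (ttD8r_3 ++ (ttD8r_4 ++ (ttD8r_5 ++ (ttD8r_6 ++ (ttD8r_7 ++ (
    ttD8r_8 ++ (ttD8r_9 ++ (ttD8r_10 ++ ttD8r_11))))))))))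

theorem ttD8r_ok : ∀ T ∈ ttD8r, T.OK 8 := by
  intro T hT
  unfold ttD8r at hT
  rcases List.mem_append.1 hT with hT | hT
  · exact ttD8r_0_ok T hT
  rcases List.mem_append.1 hT with hT | hT
  · exact ttD8r_1_ok T hT
  rcases List.mem_append.1 hT with hT | hT
  · exact ttD8r_2_ok T hT
  rcases List.mem_append.1 hT with hT | hT
  · exact ttD8r_3_ok T hT
  rcases List.mem_append.1 hT with hT | hT
  · exact ttD8r_4_ok T hT
  rcases List.mem_append.1 hT with hT | hT
  · exact ttD8r_5_ok T hT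
  rcases List.mem_append.1 hT with hT | hT
  · exact ttD8r_6_ok T hT
  rcases List.mem_append.1 hT with hT | hT
  · exact ttD8r_7_ok T hT
  rcases List.mem_append.1 hT with hT | hT
  · exact ttD8r_8_ok T hT
  rcases List.mem_append.1 hT with hT | hT
  · exact ttD8r_9_ok T hT
  rcases List.mem_append.1 hT with hT | hT
  · exact ttD8r_10_ok T hT
  exact ttD8r_11_ok T hT

end Pool.Agent.Lib_MP_fa6e45
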