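import Pool.Agent.Lib_MP_fa6e45.DQA
import Pool.Agent.Lib_MP_fa6e45.DQ8rT

/-!
MP_fa6e45_co, stage 9: straight-side patterns with `8` sides, certificates (generated by a program).
-/

namespace Pool.Agent.Lib_MP_fa6e45

/-- classes `0 0 1 2 3 4 5 6` -/
noncomputable def cD8r_1_w : List ℕ := [k0,k0,k16,k32,k48,k64,k80,k96]

/-- symmetries -/
noncomputable def cD8r_1_s : List (Bool × ℕ × List ℕ) :=
  []

/-- steps -/
noncomputable def cD8r_1_t : List (ℕ × ℕ × ℕ × ℕ × ℕ × ℕ) :=
  [(k1,254,k0,k1,k15,k14),(k14,k14,k0,k14,k0,k14),(k16,k35,k1,k0,k2,k3),(k18,k67,k1,k2,k4,k3),(k19,k19,k1,k3,k1,k3),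
    (k21,k51,k1,k5,k3,k3),(k32,k32,k2,k0,k2,k0),(k34,k64,k2,k2,k4,k0),(k37,k48,k2,k5,k3,k0),(k50,k69,k3,k2,k4,k5),
    (k53,k53,k3,k5,k3,k5),(k66,k66,k4,k2,k4,k2),(k84,k103,k5,k4,k6,k7),(k87,k87,k5,k7,k5,k7),(k100,k100,k6,k4,k6,k4),
    (k118,k137,k7,k6,k8,k9),(k121,k121,k7,k9,k7,k9),(k134,k134,k8,k6,k8,k6),(k152,k171,k9,k8,k10,k11),(k155,k155,k9,
    k11,k9,k11),(k168,k168,k10,k8,k10,k8),(k186,205,k11,k10,k12,k13),(k189,k189,k11,k13,k11,k13),(202,202,k12,k10,k12,
    k10),(220,239,k13,k12,k14,k15),(223,223,k13,k15,k13,k15),(236,236,k14,k12,k14,k12),(241,241,k15,k1,k15,k1)]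

/-- equations of the nodes -/
noncomputable def cD8r_1_D : List (List (List (List (ℕ × ℕ)))) :=
  [[[[]]]]

/-- nodes -/
noncomputable def cD8r_1_n : List (QG PN) :=
  [.q (.lp 7 24 2 0xc0000000c0000000c0000000c0000000900000009000000090000000900000009000000090000000c0000000c0000000a0000000a0000000900000009 0x30000000300000003000000030000000300000003000000000000000000000002000000020000000300000003
    0x3030c183060c183060c1830604981860c0c3060c183060c183060c181860c0c3060c183060c183060c1830606183024c183060c183060c1830604983018c183060c183060c183060c180c60c063060c183060c183060c180c60c063060c183060c183060c1830603183018c183060c183060c1830603183018c183060c183060c183060c180c60c093060c183060c183060c181260c0c3060c183060c183060c1830606180c28c093060c183060c1830605181020c0b3060c183060c1830603181020c073060c183060c1830604980e2cc063024c183060c183060c183060318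
    0x3060c183060c183060c183060c181860c183060c183060c183060c183060c183060c183060c183060c1830306183060c183060c183060c183060c183060c183060c183060c183054a890c30c183060c183060c183060c183060c183060c183060c183060c0f181830c3060c183060c183060c183060c183060c183060c183060c1524306060c30c183060c183060c183060c183060c183060c183060c183054a8f1e246183060c183060c183060c152a3c9061060c183060c183060c18304cb0a1020c181254a983060c183060c183060c181e60c183060c183048a89161c30c 2
    [[2],[32],[],[0x2000],[0x20000],[0x200000],[],[]]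
    [.con 1 2,.con 2 2,.con 4 2,.con 5 2,.con 6 2])]

theorem cD8r_1 : NodeU 8 cD8r_1_w [] :=
  nodeG_of (C := 7) (sy := cD8r_1_s) (st := cD8r_1_t) (D := cD8r_1_D) (Ns := cD8r_1_n) (by norm_num) (by norm_num)
    ttD8r_ok (by decide +kernel) (by decide +kernel) (by decide +kernel)

/-- classes `0 1 0 2 3 4 5 6` -/
noncomputable def cD8r_2_w : List ℕ := [k0,k16,k0,k32,k48,k64,k80,k96]

/-- symmetries -/
noncomputable def cD8r_2_s : List (Bool × ℕ × List ℕ) :=
  []

/-- steps -/
noncomputable def cD8r_2_t : List (ℕ × ℕ × ℕ × ℕ × ℕ × ℕ) :=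
  [(k1,254,k0,k1,k15,k14),(k14,k14,k0,k14,k0,k14),(k16,k35,k1,k0,k2,k3),(k19,k19,k1,k3,k1,k3),(k20,k99,k1,k4,k6,k3),
    (k23,k83,k1,k7,k5,k3),(k32,k32,k2,k0,k2,k0),(k36,k96,k2,k4,k6,k0),(k39,k80,k2,k7,k5,k0),(k50,k69,k3,k2,k4,k5),
    (k53,k53,k3,k5,k3,k5),(k66,k66,k4,k2,k4,k2),(k84,k103,k5,k4,k6,k7),(k87,k87,k5,k7,k5,k7),(k100,k100,k6,k4,k6,k4),
    (k118,k137,k7,k6,k8,k9),(k121,k121,k7,k9,k7,k9),(k134,k134,k8,k6,k8,k6),(k152,k171,k9,k8,k10,k11),(k155,k155,k9,
    k11,k9,k11),(k168,k168,k10,k8,k10,k8),(k186,205,k11,k10,k12,k13),(k189,k189,k11,k13,k11,k13),(202,202,k12,k10,k12,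
    k10),(220,239,k13,k12,k14,k15),(223,223,k13,k15,k13,k15),(236,236,k14,k12,k14,k12),(241,241,k15,k1,k15,k1)]

/-- equations of the nodes -/
noncomputable def cD8r_2_D : List (List (List (List (ℕ × ℕ)))) :=
  [[[[]]]]

/-- nodes -/
noncomputable def cD8r_2_n : List (QG PN) :=
  [.q (.lp 7 24 2 0xd0000000d0000000a0000000a0000000a0000000a0000000a0000000a0000000c0000000e0000000e0000000e0000000a0000000a0000000a0000000a 0x1000000010000000400000004000000040000000400000004000000040000000000000002000000000000000000000004000000040000000400000004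
    0x3030c183060c183060c1830604981860c093060c183060c183060c181260c063060c183060c183060c1830603183018c183060c183060c1830603183018c183060c183060c183060c180c60c063060c183060c183060c180c60c063060c183060c183060c1830603183020c183060c183060c1830604183028c183060c183060c183060c181c60c0e1460c063060c183060c181c60c0e1c60c0a3060c183060c1830607183028c183060c183060c1830605183018c183060c183060c181460c0e0c60c063060c183060c180c60c0a0c60c063024c183060c183060c183060318
    0x3060c183060c183060c183060c181860c183060c183060c183060c183060c183060c183060c183060c182a2430c3060c183060c183060c183060c183060c183060c183060c18303c6060c30c183060c183060c183060c183060c183060c183060c18305490c181830c3060c183060c183060c183060c183060c183060c183060c1428387081460c183060c183060c183060c183060c183060c183060c183060c1630387183060c183060c183060c1228287183060c183060c183060c183040a0a0c30c1812549183060c183060c183060c181e60c183050a0e2018510181830c 2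
    [[2],[32],[],[],[0x20000],[0x200000],[0x2000000],[]]
    [.con 1 2,.con 2 2,.con 5 2,.con 6 2,.con 7 2])]

theorem cD8r_2 : NodeU 8 cD8r_2_w [] :=
  nodeG_of (C := 7) (sy := cD8r_2_s) (st := cD8r_2_t) (D := cD8r_2_D) (Ns := cD8r_2_n) (by norm_num) (by norm_num)
    ttD8r_ok (by decide +kernel) (by decide +kernel) (by decide +kernel)

/-- classes `0 0 0 1 2 3 4 5` -/
noncomputable def cD8r_5_w : List ℕ := [k0,k0,k0,k16,k32,k48,k64,k80]

/-- symmetries -/
noncomputable def cD8r_5_s : List (Bool × ℕ × List ℕ) :=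
  []

/-- steps -/
noncomputable def cD8r_5_t : List (ℕ × ℕ × ℕ × ℕ × ℕ × ℕ) :=
  [(k1,254,k0,k1,k15,k14),(k14,k14,k0,k14,k0,k14),(k16,k35,k1,k0,k2,k3),(k18,k67,k1,k2,k4,k3),(k19,k19,k1,k3,k1,k3),
    (k20,k99,k1,k4,k6,k3),(k21,k51,k1,k5,k3,k3),(k23,k83,k1,k7,k5,k3),(k32,k32,k2,k0,k2,k0),(k34,k64,k2,k2,k4,k0),
    (k36,k96,k2,k4,k6,k0),(k37,k48,k2,k5,k3,k0),(k39,k80,k2,k7,k5,k0),(k50,k69,k3,k2,k4,k5),(k52,k101,k3,k4,k6,k5),
    (k53,k53,k3,k5,k3,k5),(k55,k85,k3,k7,k5,k5),(k66,k66,k4,k2,k4,k2),(k68,k98,k4,k4,k6,k2),(k71,k82,k4,k7,k5,k2),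
    (k84,k103,k5,k4,k6,k7),(k87,k87,k5,k7,k5,k7),(k100,k100,k6,k4,k6,k4),(k118,k137,k7,k6,k8,k9),(k121,k121,k7,k9,k7,
    k9),(k134,k134,k8,k6,k8,k6),(k152,k171,k9,k8,k10,k11),(k155,k155,k9,k11,k9,k11),(k168,k168,k10,k8,k10,k8),(k186,
    205,k11,k10,k12,k13),(k189,k189,k11,k13,k11,k13),(202,202,k12,k10,k12,k10),(220,239,k13,k12,k14,k15),(223,223,k13,
    k15,k13,k15),(236,236,k14,k12,k14,k12),(241,241,k15,k1,k15,k1)]

/-- equations of the nodes -/
noncomputable def cD8r_5_D : List (List (List (List (ℕ × ℕ)))) :=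
  [[[[]]]]

/-- nodes -/
noncomputable def cD8r_5_n : List (QG PN) :=
  [.q (.lp 7 24 2 0xd0000000d0000000a0000000a0000000a0000000a0000000a0000000a0000000b0000000b0000000e0000000e0000000c0000000c0000000a0000000a 0x1000000010000000400000004000000040000000400000004000000040000000300000003000000000000000000000002000000020000000400000004
    0x3030c183060c183060c1830604981860c093060c183060c183060c181260c063060c183060c183060c1830603183018c183060c183060c1830603183018c183060c183060c183060c180c60c063060c183060c183060c180c60c063060c183060c183060c183060318301cc183060c183060c1830603983020c183060c183060c183060c18206048b1224c073060c183060c1816607061838c0a3060c183060c18126090e1430c0a3060c183060c18126060e1418c0a3060c183060c18126050c1428c083060c183060c180e6050a1028c063024c183060c183060c183060318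
    0x3060c183060c183060c183060c181860c183060c183060c183060c183060c183060c183060c183060c182a2430c3060c183060c183060c183060c183060c183060c183060c18303c6060c30c183060c183060c183060c183060c183060c183060c18305490c181830c3060c183060c183060c183060c183060c183060c183060c1326346871060c183060c183060c183058b1022247183060c183060c183060c12262c30e3060c183060c183058b10222460a1460c183060c183058b10222470c0c28c1812549183060c183060c183060c181e60c183050a0e1e1c50a142030c 2
    [[2],[32],[],[],[0x20000],[0x200000],[0x2000000],[]]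
    [.con 1 2,.con 2 2,.con 5 2,.con 6 2,.con 7 2])]

theorem cD8r_5 : NodeU 8 cD8r_5_w [] :=
  nodeG_of (C := 6) (sy := cD8r_5_s) (st := cD8r_5_t) (D := cD8r_5_D) (Ns := cD8r_5_n) (by norm_num) (by norm_num)
    ttD8r_ok (by decide +kernel) (by decide +kernel) (by decide +kernel)

/-- classes `0 0 1 0 2 3 4 5` -/
noncomputable def cD8r_6_w : List ℕ := [k0,k0,k16,k0,k32,k48,k64,k80]

/-- symmetries -/
noncomputable def cD8r_6_s : List (Bool × ℕ × List ℕ) :=
  []

/-- steps -/
noncomputable def cD8r_6_t : List (ℕ × ℕ × ℕ × ℕ × ℕ × ℕ) :=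
  [(k1,254,k0,k1,k15,k14),(k14,k14,k0,k14,k0,k14),(k16,k35,k1,k0,k2,k3),(k18,k67,k1,k2,k4,k3),(k19,k19,k1,k3,k1,k3),
    (k21,k51,k1,k5,k3,k3),(k22,k131,k1,k6,k8,k3),(k25,k115,k1,k9,k7,k3),(k32,k32,k2,k0,k2,k0),(k34,k64,k2,k2,k4,k0),
    (k37,k48,k2,k5,k3,k0),(k38,k128,k2,k6,k8,k0),(k41,k112,k2,k9,k7,k0),(k50,k69,k3,k2,k4,k5),(k53,k53,k3,k5,k3,k5),
    (k54,k133,k3,k6,k8,k5),(k57,k117,k3,k9,k7,k5),(k66,k66,k4,k2,k4,k2),(k70,k130,k4,k6,k8,k2),(k73,k114,k4,k9,k7,k2),
    (k84,k103,k5,k4,k6,k7),(k87,k87,k5,k7,k5,k7),(k100,k100,k6,k4,k6,k4),(k118,k137,k7,k6,k8,k9),(k121,k121,k7,k9,k7,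
    k9),(k134,k134,k8,k6,k8,k6),(k152,k171,k9,k8,k10,k11),(k155,k155,k9,k11,k9,k11),(k168,k168,k10,k8,k10,k8),(k186,
    205,k11,k10,k12,k13),(k189,k189,k11,k13,k11,k13),(202,202,k12,k10,k12,k10),(220,239,k13,k12,k14,k15),(223,223,k13,
    k15,k13,k15),(236,236,k14,k12,k14,k12),(241,241,k15,k1,k15,k1)]

/-- equations of the nodes -/
noncomputable def cD8r_6_D : List (List (List (List (ℕ × ℕ)))) :=
  [[[[]]]]

/-- nodes -/
noncomputable def cD8r_6_n : List (QG PN) :=
  [.q (.lp 7 24 2 0xc0000000c000000090000000900000009000000090000000a0000000c0000000b000000090000000c0000000c0000000a0000000a0000000900000009 0x300000003000000030000000300000000000000020000000300000001000000000000000000000002000000020000000300000003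
    0x3030c183060c183060c1830604981860c093060c183060c183060c181260c063060c183060c183060c1830603183018c183060c183060c1830603183018c183060c183060c183060c180c60c073060c183060c183060c180e60c083060c183060c183060c183060818302c6181418c093060c18306059830187981224c083060c183060c180c60c093060c183060c183060c181260c0c3060c183060c183060618303c6180c28c093060c18306031830245181020c0b3060c18306051830243181020c073060c18306049830204980e2cc063024c183060c183060c183060318
    0x3060c183060c183060c183060c181860c183060c183060c183060c183060c183060c183060c183060c182a2430c3060c183060c183060c183060c183060c183060c183060c18303c6060c30c183060c183060c183060c183060c183060c183060c18305898d1a1c4183060c183060c183060c183060c183060c183060c183060c18304898b0c30c183060c183060c18304ca0c1e54c183060c183060c183060c141e246183060c183060c172e4490a123c9061060c183060c132634706123c90a1020c1812549183060c183060c183060c181e60c162c408891038889161c30c 2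
    [[2],[32],[],[0x2000],[],[0x200000],[0x2000000],[]]
    [.con 1 2,.con 2 2,.con 4 2,.con 6 2,.con 7 2])]

theorem cD8r_6 : NodeU 8 cD8r_6_w [] :=
  nodeG_of (C := 6) (sy := cD8r_6_s) (st := cD8r_6_t) (D := cD8r_6_D) (Ns := cD8r_6_n) (by norm_num) (by norm_num)
    ttD8r_ok (by decide +kernel) (by decide +kernel) (by decide +kernel)

/-- classes `0 0 1 1 2 3 4 5` -/
noncomputable def cD8r_7_w : List ℕ := [k0,k0,k16,k16,k32,k48,k64,k80]

/-- symmetries -/
noncomputable def cD8r_7_s : List (Bool × ℕ × List ℕ) :=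
  []

/-- steps -/
noncomputable def cD8r_7_t : List (ℕ × ℕ × ℕ × ℕ × ℕ × ℕ) :=
  [(k1,254,k0,k1,k15,k14),(k14,k14,k0,k14,k0,k14),(k16,k35,k1,k0,k2,k3),(k18,k67,k1,k2,k4,k3),(k19,k19,k1,k3,k1,k3),
    (k21,k51,k1,k5,k3,k3),(k32,k32,k2,k0,k2,k0),(k34,k64,k2,k2,k4,k0),(k37,k48,k2,k5,k3,k0),(k50,k69,k3,k2,k4,k5),
    (k53,k53,k3,k5,k3,k5),(k66,k66,k4,k2,k4,k2),(k84,k103,k5,k4,k6,k7),(k86,k135,k5,k6,k8,k7),(k87,k87,k5,k7,k5,k7),
    (k89,k119,k5,k9,k7,k7),(k100,k100,k6,k4,k6,k4),(k102,k132,k6,k6,k8,k4),(k105,k116,k6,k9,k7,k4),(k118,k137,k7,k6,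
    k8,k9),(k121,k121,k7,k9,k7,k9),(k134,k134,k8,k6,k8,k6),(k152,k171,k9,k8,k10,k11),(k155,k155,k9,k11,k9,k11),(k168,
    k168,k10,k8,k10,k8),(k186,205,k11,k10,k12,k13),(k189,k189,k11,k13,k11,k13),(202,202,k12,k10,k12,k10),(220,239,k13,
    k12,k14,k15),(223,223,k13,k15,k13,k15),(236,236,k14,k12,k14,k12),(241,241,k15,k1,k15,k1)]

/-- equations of the nodes -/
noncomputable def cD8r_7_D : List (List (List (List (ℕ × ℕ)))) :=
  [[[[]]]]

/-- nodes -/
noncomputable def cD8r_7_n : List (QG PN) :=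
  [.q (.lp 7 24 2 0xc0000000c0000000c0000000c000000090000000900000009000000090000000a0000000a0000000c0000000c0000000a0000000a0000000900000009 0x30000000300000003000000030000000200000002000000000000000000000002000000020000000300000003
    0x3030c183060c183060c1830604981860c0c3060c183060c183060c181860c0c3060c183060c183060c1830606183024c183060c183060c1830604983018c183060c183060c183060c180c60c063060c183060c183060c180c60c063060c183060c183060c183060318161cc093060c183060c1830603981020c063060c183060c1830605981020c0a3060c183060c1830604981418c0c3060c183060c183060c1830606180c28c093060c183060c1830605181020c0b3060c183060c1830603181020c073060c183060c1830604980e2cc063024c183060c183060c183060318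
    0x3060c183060c183060c183060c181860c183060c183060c183060c183060c183060c183060c183060c1830306183060c183060c183060c183060c183060c183060c183060c183054a890c30c183060c183060c183060c183060c183060c183060c183060c0f181830c3060c183060c183060c182e4488b1060c183060c183060c1626346871020c183060c183060c183060c183060c183060c183060c182a3c7890c286183060c183060c183054a8f18409061060c183060c183060c132050b0a1020c181254a983060c183060c183060c181e60c183060c121e4ca89161c30c 2
    [[2],[32],[],[0x2000],[0x20000],[0x200000],[],[]]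
    [.con 1 2,.con 2 2,.con 4 2,.con 5 2,.con 6 2])]

theorem cD8r_7 : NodeU 8 cD8r_7_w [] :=
  nodeG_of (C := 6) (sy := cD8r_7_s) (st := cD8r_7_t) (D := cD8r_7_D) (Ns := cD8r_7_n) (by norm_num) (by norm_num)
    ttD8r_ok (by decide +kernel) (by decide +kernel) (by decide +kernel)

/-- classes `0 0 1 2 0 3 4 5` -/
noncomputable def cD8r_8_w : List ℕ := [k0,k0,k16,k32,k0,k48,k64,k80]

/-- symmetries -/
noncomputable def cD8r_8_s : List (Bool × ℕ × List ℕ) :=
  []

/-- steps -/
noncomputable def cD8r_8_t : List (ℕ × ℕ × ℕ × ℕ × ℕ × ℕ) :=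
  [(k1,254,k0,k1,k15,k14),(k14,k14,k0,k14,k0,k14),(k16,k35,k1,k0,k2,k3),(k18,k67,k1,k2,k4,k3),(k19,k19,k1,k3,k1,k3),
    (k21,k51,k1,k5,k3,k3),(k24,k163,k1,k8,k10,k3),(k27,k147,k1,k11,k9,k3),(k32,k32,k2,k0,k2,k0),(k34,k64,k2,k2,k4,k0),
    (k37,k48,k2,k5,k3,k0),(k40,k160,k2,k8,k10,k0),(k43,k144,k2,k11,k9,k0),(k50,k69,k3,k2,k4,k5),(k53,k53,k3,k5,k3,k5),
    (k56,k165,k3,k8,k10,k5),(k59,k149,k3,k11,k9,k5),(k66,k66,k4,k2,k4,k2),(k72,k162,k4,k8,k10,k2),(k75,k146,k4,k11,k9,
    k2),(k84,k103,k5,k4,k6,k7),(k87,k87,k5,k7,k5,k7),(k100,k100,k6,k4,k6,k4),(k118,k137,k7,k6,k8,k9),(k121,k121,k7,k9,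
    k7,k9),(k134,k134,k8,k6,k8,k6),(k152,k171,k9,k8,k10,k11),(k155,k155,k9,k11,k9,k11),(k168,k168,k10,k8,k10,k8),
    (k186,205,k11,k10,k12,k13),(k189,k189,k11,k13,k11,k13),(202,202,k12,k10,k12,k10),(220,239,k13,k12,k14,k15),(223,
    223,k13,k15,k13,k15),(236,236,k14,k12,k14,k12),(241,241,k15,k1,k15,k1)]

/-- equations of the nodes -/
noncomputable def cD8r_8_D : List (List (List (List (ℕ × ℕ)))) :=
  [[[[]]]]

/-- nodes -/
noncomputable def cD8r_8_n : List (QG PN) :=
  [.q (.lp 8 48 2 0x18000000180000001800000018000000130000001300000014000000140000001200000012000000170000001700000015000000150000001200000012 0x50000000500000004000000040000000600000006000000010000000100000003000000030000000600000006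
    0x3018303030303030303030303030123018303018303030303030303030303030183030183030303030303030303030303030183030133030303030303030303030301330300e30303030303030303030303030300e30300f303012301210300d303030300f303010303013301111300c3030303030301030300e3030303030303030303030300e30300c30303030303030303030303030300c3030113030303030303030303030301130301630303030303030301230301330301c300e143011303030301030301130301430120c3015303030301230301130300e301212300f303030300d30300c303011300f15300c30123030303030303030303030300c30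
    0x3030303030303030303030303030303018303030303030303030303030303030303030303030303030303030303030303018183030303030303030303030303030303030303030303030303030303030302b2b130e1c3030303030303030303030303030303030303030303030303030303030221d0f1020303030303030303030303030303030303030303030303030303030302b1d1e0e0c183030303030303030302520121323212d303030303030303030303028291f1d1116303030303030303025201211211f1f240e12303030303030231e1011211f252a140c123030122a2a303030303030303030303030301e3030201b0d0c1c1a222711150f0c18 2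
    [[2],[32],[],[0x2000],[0x20000],[0x200000],[],[]]
    [.con 1 2,.con 2 2,.con 4 2,.con 5 2,.con 6 2])]

theorem cD8r_8 : NodeU 8 cD8r_8_w [] :=
  nodeG_of (C := 6) (sy := cD8r_8_s) (st := cD8r_8_t) (D := cD8r_8_D) (Ns := cD8r_8_n) (by norm_num) (by norm_num)
    ttD8r_ok (by decide +kernel) (by decide +kernel) (by decide +kernel)

/-- classes `0 0 1 2 1 3 4 5` -/
noncomputable def cD8r_9_w : List ℕ := [k0,k0,k16,k32,k16,k48,k64,k80]

/-- symmetries -/
noncomputable def cD8r_9_s : List (Bool × ℕ × List ℕ) :=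
  []

/-- steps -/
noncomputable def cD8r_9_t : List (ℕ × ℕ × ℕ × ℕ × ℕ × ℕ) :=
  [(k1,254,k0,k1,k15,k14),(k14,k14,k0,k14,k0,k14),(k16,k35,k1,k0,k2,k3),(k18,k67,k1,k2,k4,k3),(k19,k19,k1,k3,k1,k3),
    (k21,k51,k1,k5,k3,k3),(k32,k32,k2,k0,k2,k0),(k34,k64,k2,k2,k4,k0),(k37,k48,k2,k5,k3,k0),(k50,k69,k3,k2,k4,k5),
    (k53,k53,k3,k5,k3,k5),(k66,k66,k4,k2,k4,k2),(k84,k103,k5,k4,k6,k7),(k87,k87,k5,k7,k5,k7),(k88,k167,k5,k8,k10,k7),
    (k91,k151,k5,k11,k9,k7),(k100,k100,k6,k4,k6,k4),(k104,k164,k6,k8,k10,k4),(k107,k148,k6,k11,k9,k4),(k118,k137,k7,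
    k6,k8,k9),(k121,k121,k7,k9,k7,k9),(k134,k134,k8,k6,k8,k6),(k152,k171,k9,k8,k10,k11),(k155,k155,k9,k11,k9,k11),
    (k168,k168,k10,k8,k10,k8),(k186,205,k11,k10,k12,k13),(k189,k189,k11,k13,k11,k13),(202,202,k12,k10,k12,k10),(220,
    239,k13,k12,k14,k15),(223,223,k13,k15,k13,k15),(236,236,k14,k12,k14,k12),(241,241,k15,k1,k15,k1)]

/-- equations of the nodes -/
noncomputable def cD8r_9_D : List (List (List (List (ℕ × ℕ)))) :=
  [[[[]]]]

/-- nodes -/
noncomputable def cD8r_9_n : List (QG PN) :=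
  [.q (.lp 7 24 2 0xf0000000f0000000c0000000c0000000c000000120000000c0000000c0000000c0000000c000000120000000c0000000d0000000d0000000d0000000d 0x3000000030000000600000006000000000000000600000006000000060000000600000006000000060000000000000005000000050000000500000005
    0x3030c183060c183060c1830605181860c093060c183060c183060c181260c063060c183060c183060c1830603183018c183060c183060c1830603183018c183060c183060c183060c182460c0c1860c063060c183060c181860c062460c0c3060c183060c1830603183018c183060c183060c1830603183018c183060c183060c181860c120c60c0c3060c183060c180c60c0c1860c123060c183060c183060c1830603180e1cc073060c183060c1830603981020c083060c183060c1830603981020c083060c183060c1830603981020c083028c183060c183060c183060418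
    0x3060c183060c183060c183060c181860c183060c183060c183060c183060c183060c183060c183060c182a2430c3060c183060c183060c183060c183060c183060c183060c18303c6060c60c183060c183060c183060c183060c183060c183060c183060c12243030c3060c183060c183060c1224309183060c183060c183060c1830486060c30c183060c183060c183060c183060c183060c18305490c181861224309183060c183060c132634998304cc071060c183060c132634998304cc071020c1814589983060c183060c183060c182460c132634998304cc071020410 2
    [[2],[32],[],[0x2000],[0x20000],[],[0x2000000],[]]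
    [.con 1 2,.con 2 2,.con 4 2,.con 5 2,.con 7 2])]

theorem cD8r_9 : NodeU 8 cD8r_9_w [] :=
  nodeG_of (C := 6) (sy := cD8r_9_s) (st := cD8r_9_t) (D := cD8r_9_D) (Ns := cD8r_9_n) (by norm_num) (by norm_num)
    ttD8r_ok (by decide +kernel) (by decide +kernel) (by decide +kernel)

/-- classes `0 0 1 2 3 1 4 5` -/
noncomputable def cD8r_11_w : List ℕ := [k0,k0,k16,k32,k48,k16,k64,k80]

/-- symmetries -/
noncomputable def cD8r_11_s : List (Bool × ℕ × List ℕ) :=
  []

/-- steps -/
noncomputable def cD8r_11_t : List (ℕ × ℕ × ℕ × ℕ × ℕ × ℕ) :=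
  [(k1,254,k0,k1,k15,k14),(k14,k14,k0,k14,k0,k14),(k16,k35,k1,k0,k2,k3),(k18,k67,k1,k2,k4,k3),(k19,k19,k1,k3,k1,k3),
    (k21,k51,k1,k5,k3,k3),(k32,k32,k2,k0,k2,k0),(k34,k64,k2,k2,k4,k0),(k37,k48,k2,k5,k3,k0),(k50,k69,k3,k2,k4,k5),
    (k53,k53,k3,k5,k3,k5),(k66,k66,k4,k2,k4,k2),(k84,k103,k5,k4,k6,k7),(k87,k87,k5,k7,k5,k7),(k90,k199,k5,k10,k12,k7),
    (k93,k183,k5,k13,k11,k7),(k100,k100,k6,k4,k6,k4),(k106,k196,k6,k10,k12,k4),(k109,k180,k6,k13,k11,k4),(k118,k137,
    k7,k6,k8,k9),(k121,k121,k7,k9,k7,k9),(k134,k134,k8,k6,k8,k6),(k152,k171,k9,k8,k10,k11),(k155,k155,k9,k11,k9,k11),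
    (k168,k168,k10,k8,k10,k8),(k186,205,k11,k10,k12,k13),(k189,k189,k11,k13,k11,k13),(202,202,k12,k10,k12,k10),(220,
    239,k13,k12,k14,k15),(223,223,k13,k15,k13,k15),(236,236,k14,k12,k14,k12),(241,241,k15,k1,k15,k1)]

/-- equations of the nodes -/
noncomputable def cD8r_11_D : List (List (List (List (ℕ × ℕ)))) :=
  [[[[]]]]

/-- nodes -/
noncomputable def cD8r_11_n : List (QG PN) :=
  [.q (.lp 7 24 2 0xc0000000c0000000c0000000c0000000900000009000000090000000900000009000000090000000c0000000c0000000a0000000a0000000900000009 0x30000000300000003000000030000000300000003000000000000000000000002000000020000000300000003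
    0x3030c183060c183060c1830604981860c0c3060c183060c183060c181860c0c3060c183060c183060c1830606183024c181260c063060c1830604983018c181860c093060c183060c180c60c063060c183060c183060c180c60c063060c183060c183060c1830603183018c183060c183060c1830603183018c183060c1830604983030c180c60c093060c1830603183024c181260c0c3060c183060c183060c1830606180c28c093060c183060c1830605181020c0b3060c183060c1830603181020c073060c183060c1830604980e2cc063024c183060c183060c183060318
    0x3060c183060c183060c183060c181860c183060c183060c183060c183060c183060c183060c183060c1830306183060c183060c183060c183060c183060c183060c183060c183054a890c30c183060c183060c183060c183060c183060c183060c183060c0f181830c3060c183060c183054a8918489183060c183060c183060c0f24306060c30c183060c183060c183060c183060c183060c183048906123c78f1e246183060c183060c0c1e54a952a3c9061060c183060c102660c18304cb0a1020c181254a983060c183060c183060c181e60c0f2460c183048a89161c30c 2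
    [[2],[32],[],[0x2000],[0x20000],[0x200000],[],[]]
    [.con 1 2,.con 2 2,.con 4 2,.con 5 2,.con 6 2])]

theorem cD8r_11 : NodeU 8 cD8r_11_w [] :=
  nodeG_of (C := 6) (sy := cD8r_11_s) (st := cD8r_11_t) (D := cD8r_11_D) (Ns := cD8r_11_n) (by norm_num) (by norm_num)
    ttD8r_ok (by decide +kernel) (by decide +kernel) (by decide +kernel)

/-- classes `0 0 1 2 3 2 4 5` -/
noncomputable def cD8r_12_w : List ℕ := [k0,k0,k16,k32,k48,k32,k64,k80]

/-- symmetries -/
noncomputable def cD8r_12_s : List (Bool × ℕ × List ℕ) :=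
  []

/-- steps -/
noncomputable def cD8r_12_t : List (ℕ × ℕ × ℕ × ℕ × ℕ × ℕ) :=
  [(k1,254,k0,k1,k15,k14),(k14,k14,k0,k14,k0,k14),(k16,k35,k1,k0,k2,k3),(k18,k67,k1,k2,k4,k3),(k19,k19,k1,k3,k1,k3),
    (k21,k51,k1,k5,k3,k3),(k32,k32,k2,k0,k2,k0),(k34,k64,k2,k2,k4,k0),(k37,k48,k2,k5,k3,k0),(k50,k69,k3,k2,k4,k5),
    (k53,k53,k3,k5,k3,k5),(k66,k66,k4,k2,k4,k2),(k84,k103,k5,k4,k6,k7),(k87,k87,k5,k7,k5,k7),(k100,k100,k6,k4,k6,k4),
    (k118,k137,k7,k6,k8,k9),(k121,k121,k7,k9,k7,k9),(k122,201,k7,k10,k12,k9),(k125,k185,k7,k13,k11,k9),(k134,k134,k8,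
    k6,k8,k6),(k138,k198,k8,k10,k12,k6),(k141,k182,k8,k13,k11,k6),(k152,k171,k9,k8,k10,k11),(k155,k155,k9,k11,k9,k11),
    (k168,k168,k10,k8,k10,k8),(k186,205,k11,k10,k12,k13),(k189,k189,k11,k13,k11,k13),(202,202,k12,k10,k12,k10),(220,
    239,k13,k12,k14,k15),(223,223,k13,k15,k13,k15),(236,236,k14,k12,k14,k12),(241,241,k15,k1,k15,k1)]

/-- equations of the nodes -/
noncomputable def cD8r_12_D : List (List (List (List (ℕ × ℕ)))) :=
  [[[[]]]]

/-- nodes -/
noncomputable def cD8r_12_n : List (QG PN) :=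
  [.q (.lp 7 24 2 0xc0000000c0000000c000000120000000f0000000f0000000c0000000c0000000c0000000c0000000f0000000f0000000d0000000d0000000c0000000c 0x6000000060000000000000006000000030000000300000006000000060000000600000006000000030000000300000005000000050000000600000006
    0x3018c183060c183060c1830603180c60c063060c183060c183060c180c60c063060c183060c183060c183060918303c6183018c183060c18306079830307983024c183060c183060c181860c093060c183060c183060c181260c063060c183060c183060618303c3183018c183060c18306031830243183018c183060c183060c183060c180c60c093060c183060c183060c181260c0c3060c183060c183060c1830606180c28c093060c183060c1830605181020c0b3060c183060c1830603181020c073060c183060c1830604980e2cc063018c183060c183060c183060318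
    0x3060c183060c183060c183060c180c30c183060c183060c183060c183060c183060c183060c183060c1818183183060c183060c183060c183060c183060c183060c183060c183054a8f1860c183060c183060c18304890c1e60c183060c183060c183060c122a2430c3060c183060c183060c183060c183060c183060c182430606123c6060c30c183060c183060c183060c183060c183060c183054a8f2460a8f1e246183060c183060c153060c152a3c9061060c183060c183060c18304cb0a1020c180c306183060c182460c183060c1818489183060c183048a89161c30c 2
    [[2],[32],[],[0x2000],[0x20000],[],[],[0x20000000]]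
    [.con 1 2,.con 2 2,.con 4 2,.con 5 2,.con 8 2])]

theorem cD8r_12 : NodeU 8 cD8r_12_w [] :=
  nodeG_of (C := 6) (sy := cD8r_12_s) (st := cD8r_12_t) (D := cD8r_12_D) (Ns := cD8r_12_n) (by norm_num) (by norm_num)
    ttD8r_ok (by decide +kernel) (by decide +kernel) (by decide +kernel)

/-- classes `0 0 1 2 3 4 1 5` -/
noncomputable def cD8r_14_w : List ℕ := [k0,k0,k16,k32,k48,k64,k16,k80]

/-- symmetries -/
noncomputable def cD8r_14_s : List (Bool × ℕ × List ℕ) :=
  []

/-- steps -/
noncomputable def cD8r_14_t : List (ℕ × ℕ × ℕ × ℕ × ℕ × ℕ) :=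
  [(k1,254,k0,k1,k15,k14),(k14,k14,k0,k14,k0,k14),(k16,k35,k1,k0,k2,k3),(k18,k67,k1,k2,k4,k3),(k19,k19,k1,k3,k1,k3),
    (k21,k51,k1,k5,k3,k3),(k32,k32,k2,k0,k2,k0),(k34,k64,k2,k2,k4,k0),(k37,k48,k2,k5,k3,k0),(k50,k69,k3,k2,k4,k5),
    (k53,k53,k3,k5,k3,k5),(k66,k66,k4,k2,k4,k2),(k84,k103,k5,k4,k6,k7),(k87,k87,k5,k7,k5,k7),(k92,231,k5,k12,k14,k7),
    (k95,215,k5,k15,k13,k7),(k100,k100,k6,k4,k6,k4),(k108,228,k6,k12,k14,k4),(k111,212,k6,k15,k13,k4),(k118,k137,k7,
    k6,k8,k9),(k121,k121,k7,k9,k7,k9),(k134,k134,k8,k6,k8,k6),(k152,k171,k9,k8,k10,k11),(k155,k155,k9,k11,k9,k11),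
    (k168,k168,k10,k8,k10,k8),(k186,205,k11,k10,k12,k13),(k189,k189,k11,k13,k11,k13),(202,202,k12,k10,k12,k10),(220,
    239,k13,k12,k14,k15),(223,223,k13,k15,k13,k15),(236,236,k14,k12,k14,k12),(241,241,k15,k1,k15,k1)]

/-- equations of the nodes -/
noncomputable def cD8r_14_D : List (List (List (List (ℕ × ℕ)))) :=
  [[[[]]]]

/-- nodes -/
noncomputable def cD8r_14_n : List (QG PN) :=
  [.q (.lp 7 24 2 0xc0000000c0000000c0000000c0000000900000009000000090000000900000009000000090000000c0000000c0000000a0000000a0000000900000009 0x30000000300000003000000030000000300000003000000000000000000000002000000020000000300000003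
    0x3030c183060c183060c1830604981860c0c3060c181260c0c3060c181860c0c3060c181260c0c3060c1830606183024c183060c183060c1830604983018c183060c183060c183060c180c60c063060c183060c183060c180c60c063060c183060c183060c1830603183018c183060c183060c1830603183018c183060c181260c093060c180c60c093060c181860c0c3060c181260c0c3060c183060c183060c1830606180c28c093060c183060c1830605181020c0b3060c183060c1830603181020c073060c183060c1830604980e2cc063024c183060c183060c183060318
    0x3060c183060c183060c183060c181860c183060c183060c183060c183060c183060c183060c183060c1830306183060c183060c183060c183060c183060c183060c183060c183054a890c30c183060c183060c183060c183060c183060c183060c183060c0f181830c3060c183060c182a244952460c183060c183060c18303c79524306060c30c183060c183060c183060c183060c183060c1830306182a54a8f1e246183060c1830489183060c152a3c9061060c183058b183060c18304cb0a1020c181254a983060c183048a983060c181e54a983060c183048a89161c30c 2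
    [[2],[32],[],[0x2000],[0x20000],[0x200000],[],[]]
    [.con 1 2,.con 2 2,.con 4 2,.con 5 2,.con 6 2])]

theorem cD8r_14 : NodeU 8 cD8r_14_w [] :=
  nodeG_of (C := 6) (sy := cD8r_14_s) (st := cD8r_14_t) (D := cD8r_14_D) (Ns := cD8r_14_n) (by norm_num) (by norm_num)
    ttD8r_ok (by decide +kernel) (by decide +kernel) (by decide +kernel)

/-- classes `0 0 1 2 3 4 2 5` -/
noncomputable def cD8r_15_w : List ℕ := [k0,k0,k16,k32,k48,k64,k32,k80]

/-- symmetries -/
noncomputable def cD8r_15_s : List (Bool × ℕ × List ℕ) :=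
  []

/-- steps -/
noncomputable def cD8r_15_t : List (ℕ × ℕ × ℕ × ℕ × ℕ × ℕ) :=
  [(k1,254,k0,k1,k15,k14),(k14,k14,k0,k14,k0,k14),(k16,k35,k1,k0,k2,k3),(k18,k67,k1,k2,k4,k3),(k19,k19,k1,k3,k1,k3),
    (k21,k51,k1,k5,k3,k3),(k32,k32,k2,k0,k2,k0),(k34,k64,k2,k2,k4,k0),(k37,k48,k2,k5,k3,k0),(k50,k69,k3,k2,k4,k5),
    (k53,k53,k3,k5,k3,k5),(k66,k66,k4,k2,k4,k2),(k84,k103,k5,k4,k6,k7),(k87,k87,k5,k7,k5,k7),(k100,k100,k6,k4,k6,k4),
    (k118,k137,k7,k6,k8,k9),(k121,k121,k7,k9,k7,k9),(k124,233,k7,k12,k14,k9),(k127,217,k7,k15,k13,k9),(k134,k134,k8,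
    k6,k8,k6),(k140,230,k8,k12,k14,k6),(k143,214,k8,k15,k13,k6),(k152,k171,k9,k8,k10,k11),(k155,k155,k9,k11,k9,k11),
    (k168,k168,k10,k8,k10,k8),(k186,205,k11,k10,k12,k13),(k189,k189,k11,k13,k11,k13),(202,202,k12,k10,k12,k10),(220,
    239,k13,k12,k14,k15),(223,223,k13,k15,k13,k15),(236,236,k14,k12,k14,k12),(241,241,k15,k1,k15,k1)]

/-- equations of the nodes -/
noncomputable def cD8r_15_D : List (List (List (List (ℕ × ℕ)))) :=
  [[[[]]]]

/-- nodes -/
noncomputable def cD8r_15_n : List (QG PN) :=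
  [.q (.lp 7 24 2 0xc0000000c0000000c0000000c0000000900000009000000090000000900000009000000090000000c0000000c0000000a0000000a0000000900000009 0x30000000300000003000000030000000300000003000000000000000000000002000000020000000300000003
    0x3030c183060c183060c1830604981860c0c30604983024c183060c181860c0c30604983024c183060c1830606183024c183060c183060c1830604983018c183060c183060c183060c180c60c063060c183060c183060c180c60c063060c183060c181260c0930603183018c183060c181260c0930603183018c183060c183060c183060c180c60c093060c183060c183060c181260c0c3060c183060c183060c1830606180c28c093060c183060c1830605181020c0b3060c183060c1830603181020c073060c183060c1830604980e2cc063024c183060c183060c183060318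
    0x3060c183060c183060c183060c181860c183060c183060c183060c183060c183060c183060c183060c1830306183060c183060c183060c183060c183060c183060c183060c183054a890c30c183060c183060c182a244952460c183060c183060c18303c78f181830c3060c183060c183060c183060c183060c183060c182a2449524306060c30c183060c183060c183060c183060c183060c1830489183054a8f1e246183060c183060c183060c152a3c9061060c183060c183060c18304cb0a1020c181254a983060c122460c183060c181e60c183060c183048a89161c30c 2
    [[2],[32],[],[0x2000],[0x20000],[0x200000],[],[]]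
    [.con 1 2,.con 2 2,.con 4 2,.con 5 2,.con 6 2])]

theorem cD8r_15 : NodeU 8 cD8r_15_w [] :=
  nodeG_of (C := 6) (sy := cD8r_15_s) (st := cD8r_15_t) (D := cD8r_15_D) (Ns := cD8r_15_n) (by norm_num) (by norm_num)
    ttD8r_ok (by decide +kernel) (by decide +kernel) (by decide +kernel)

/-- classes `0 0 1 2 3 4 5 1` -/
noncomputable def cD8r_16_w : List ℕ := [k0,k0,k16,k32,k48,k64,k80,k16]

/-- symmetries -/
noncomputable def cD8r_16_s : List (Bool × ℕ × List ℕ) :=
  []

/-- steps -/
noncomputable def cD8r_16_t : List (ℕ × ℕ × ℕ × ℕ × ℕ × ℕ) :=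
  [(k1,254,k0,k1,k15,k14),(k4,k110,k0,k4,k6,k14),(k7,k94,k0,k7,k5,k14),(k14,k14,k0,k14,k0,k14),(k16,k35,k1,k0,k2,k3),
    (k18,k67,k1,k2,k4,k3),(k19,k19,k1,k3,k1,k3),(k21,k51,k1,k5,k3,k3),(k32,k32,k2,k0,k2,k0),(k34,k64,k2,k2,k4,k0),
    (k37,k48,k2,k5,k3,k0),(k50,k69,k3,k2,k4,k5),(k53,k53,k3,k5,k3,k5),(k66,k66,k4,k2,k4,k2),(k81,247,k5,k1,k15,k7),
    (k84,k103,k5,k4,k6,k7),(k87,k87,k5,k7,k5,k7),(k97,244,k6,k1,k15,k4),(k100,k100,k6,k4,k6,k4),(k118,k137,k7,k6,k8,
    k9),(k121,k121,k7,k9,k7,k9),(k134,k134,k8,k6,k8,k6),(k152,k171,k9,k8,k10,k11),(k155,k155,k9,k11,k9,k11),(k168,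
    k168,k10,k8,k10,k8),(k186,205,k11,k10,k12,k13),(k189,k189,k11,k13,k11,k13),(202,202,k12,k10,k12,k10),(220,239,k13,
    k12,k14,k15),(223,223,k13,k15,k13,k15),(236,236,k14,k12,k14,k12),(241,241,k15,k1,k15,k1)]

/-- equations of the nodes -/
noncomputable def cD8r_16_D : List (List (List (List (ℕ × ℕ)))) :=
  [[[[]]]]

/-- nodes -/
noncomputable def cD8r_16_n : List (QG PN) :=
  [.q (.lp 7 24 2 0xe0000000c0000000d0000000d0000000a0000000a0000000a0000000a0000000a0000000a0000000d0000000d0000000b0000000b0000000b0000000b 0x2000000000000000100000001000000040000000400000004000000040000000400000004000000010000000100000003000000030000000300000003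
    0x3038c183060c180c60c0d30605981460c0b3060c183060c183060c181660c0c3060c183060c183060c1830606183024c183060c183060c1830604983018c183060c183060c183060c180c60c063060c183060c183060c180c60c063060c183060c183060c1830603183018c183060c183060c1830603183018c183060c183018c183060c180c60c0930603983034c183060c181260c0c30607183060c183060c1830606181428c0a3060c183060c1830605181020c083060c183060c1830605181020c083060c183060c1830605181020c08302cc183060c180e60c0e3060418
    0x3060c183060c183060c183060c181c60c183060c183060c183060c183060c183060c183060c183060c18302c6183060c183060c183060c183060c183060c183060c183060c183050a890c30c183060c183060c183060c183060c183060c183060c183060c0f181830c3060c183060c180c408983060c183060c183060c181858b9524306060c30c183060c183060c183060c183060c183060c181a5cc183054a8f1e246183060c182e60c183060c18304cb0a1060c182e60c183060c18304cb0a1020c181654b18304c98d1a1c7183060c182660c183060c152a3cb0a1020410 2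
    [[2],[32],[],[0x2000],[0x20000],[0x200000],[],[]]
    [.con 1 2,.con 2 2,.con 4 2,.con 5 2,.con 6 2])]

theorem cD8r_16 : NodeU 8 cD8r_16_w [] :=
  nodeG_of (C := 6) (sy := cD8r_16_s) (st := cD8r_16_t) (D := cD8r_16_D) (Ns := cD8r_16_n) (by norm_num) (by norm_num)
    ttD8r_ok (by decide +kernel) (by decide +kernel) (by decide +kernel)

/-- classes `0 1 0 1 2 3 4 5` -/
noncomputable def cD8r_17_w : List ℕ := [k0,k16,k0,k16,k32,k48,k64,k80]

/-- symmetries -/
noncomputable def cD8r_17_s : List (Bool × ℕ × List ℕ) :=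
  []

/-- steps -/
noncomputable def cD8r_17_t : List (ℕ × ℕ × ℕ × ℕ × ℕ × ℕ) :=
  [(k1,254,k0,k1,k15,k14),(k14,k14,k0,k14,k0,k14),(k16,k35,k1,k0,k2,k3),(k19,k19,k1,k3,k1,k3),(k20,k99,k1,k4,k6,k3),
    (k23,k83,k1,k7,k5,k3),(k32,k32,k2,k0,k2,k0),(k36,k96,k2,k4,k6,k0),(k39,k80,k2,k7,k5,k0),(k50,k69,k3,k2,k4,k5),
    (k53,k53,k3,k5,k3,k5),(k54,k133,k3,k6,k8,k5),(k57,k117,k3,k9,k7,k5),(k66,k66,k4,k2,k4,k2),(k70,k130,k4,k6,k8,k2),
    (k73,k114,k4,k9,k7,k2),(k84,k103,k5,k4,k6,k7),(k87,k87,k5,k7,k5,k7),(k100,k100,k6,k4,k6,k4),(k118,k137,k7,k6,k8,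
    k9),(k121,k121,k7,k9,k7,k9),(k134,k134,k8,k6,k8,k6),(k152,k171,k9,k8,k10,k11),(k155,k155,k9,k11,k9,k11),(k168,
    k168,k10,k8,k10,k8),(k186,205,k11,k10,k12,k13),(k189,k189,k11,k13,k11,k13),(202,202,k12,k10,k12,k10),(220,239,k13,
    k12,k14,k15),(223,223,k13,k15,k13,k15),(236,236,k14,k12,k14,k12),(241,241,k15,k1,k15,k1)]

/-- equations of the nodes -/
noncomputable def cD8r_17_D : List (List (List (List (ℕ × ℕ)))) :=
  [[[[]]]]

/-- nodes -/
noncomputable def cD8r_17_n : List (QG PN) :=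
  [.q (.lp 7 24 2 0xd0000000d0000000a0000000a0000000a0000000a0000000a0000000a0000000c0000000e0000000d0000000d0000000b0000000b0000000a0000000a 0x1000000010000000400000004000000040000000400000004000000040000000000000002000000010000000100000003000000030000000400000004
    0x3030c183060c183060c1830604981860c093060c183060c183060c181260c063060c183060c183060c1830603183018c183060c183060c1830603183018c183060c183060c183060c180c60c063060c183060c183060c180c60c063060c183060c183060c1830603183020418301cc183060c18306041830285983028c183060c183060c181c60c0d1c60c063060c183060c181a60c0c1c60c063060c183060418302c6183028c183060c18306039830285183020c183060c183060c181c60c0e1060c073060c183060c180c60c060e60c063024c183060c183060c183060318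
    0x3060c183060c183060c183060c181860c183060c183060c183060c183060c183060c183060c183060c182a2430c3060c183060c183060c183060c183060c183060c183060c18303c6060c30c183060c183060c183060c183060c183060c183060c18305490c181830c3060c183060c183060c183060c183060c183060c183060c1428387081460c183060c183060c1428387081660c183060c183060c183060c142e346183060c183060c183060c1630387183060c183060c1326346871458b0a1040c1812549183060c183060c183060c181e60c183050a0e20183111e1c30c 2
    [[2],[32],[],[],[0x20000],[0x200000],[0x2000000],[]]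
    [.con 1 2,.con 2 2,.con 5 2,.con 6 2,.con 7 2])]

theorem cD8r_17 : NodeU 8 cD8r_17_w [] :=
  nodeG_of (C := 6) (sy := cD8r_17_s) (st := cD8r_17_t) (D := cD8r_17_D) (Ns := cD8r_17_n) (by norm_num) (by norm_num)
    ttD8r_ok (by decide +kernel) (by decide +kernel) (by decide +kernel)

/-- classes `0 1 0 2 0 3 4 5` -/
noncomputable def cD8r_18_w : List ℕ := [k0,k16,k0,k32,k0,k48,k64,k80]

/-- symmetries -/
noncomputable def cD8r_18_s : List (Bool × ℕ × List ℕ) :=
  []

/-- steps -/
noncomputable def cD8r_18_t : List (ℕ × ℕ × ℕ × ℕ × ℕ × ℕ) :=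
  [(k1,254,k0,k1,k15,k14),(k14,k14,k0,k14,k0,k14),(k16,k35,k1,k0,k2,k3),(k19,k19,k1,k3,k1,k3),(k20,k99,k1,k4,k6,k3),
    (k23,k83,k1,k7,k5,k3),(k24,k163,k1,k8,k10,k3),(k27,k147,k1,k11,k9,k3),(k32,k32,k2,k0,k2,k0),(k36,k96,k2,k4,k6,k0),
    (k39,k80,k2,k7,k5,k0),(k40,k160,k2,k8,k10,k0),(k43,k144,k2,k11,k9,k0),(k50,k69,k3,k2,k4,k5),(k53,k53,k3,k5,k3,k5),
    (k66,k66,k4,k2,k4,k2),(k84,k103,k5,k4,k6,k7),(k87,k87,k5,k7,k5,k7),(k88,k167,k5,k8,k10,k7),(k91,k151,k5,k11,k9,
    k7),(k100,k100,k6,k4,k6,k4),(k104,k164,k6,k8,k10,k4),(k107,k148,k6,k11,k9,k4),(k118,k137,k7,k6,k8,k9),(k121,k121,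
    k7,k9,k7,k9),(k134,k134,k8,k6,k8,k6),(k152,k171,k9,k8,k10,k11),(k155,k155,k9,k11,k9,k11),(k168,k168,k10,k8,k10,
    k8),(k186,205,k11,k10,k12,k13),(k189,k189,k11,k13,k11,k13),(202,202,k12,k10,k12,k10),(220,239,k13,k12,k14,k15),
    (223,223,k13,k15,k13,k15),(236,236,k14,k12,k14,k12),(241,241,k15,k1,k15,k1)]

/-- equations of the nodes -/
noncomputable def cD8r_18_D : List (List (List (List (ℕ × ℕ)))) :=
  [[[[]]]]

/-- nodes -/
noncomputable def cD8r_18_n : List (QG PN) :=
  [.q (.lp 7 24 2 0xf0000000f0000000c0000000c0000000c0000000c0000000c0000000c0000000e00000012000000100000000e0000000c0000000c0000000c0000000c 0x3000000030000000600000006000000060000000600000006000000060000000000000004000000040000000200000006000000060000000600000006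
    0x3030c183060c183060c1830604981860c093060c183060c183060c181260c063060c183060c183060c1830603183018c183060c183060c1830603183018c183060c183060c183060c180c60c061860c060c60c063060c180c60c062060c0a0c60c063060c1830603183020c183060c183060c1830604183028c183060c183060c181860c102460c101860c063060c180c60c0a2060c0e2060c0a3060c183060c1830605183020c183060c183060c1830604183018c183060c180c60c061860c100c60c063060c180c60c060c60c0a0c60c063024c183060c183060c183060318
    0x3060c183060c183060c183060c181860c183060c183060c183060c183060c183060c183060c183060c182a2430c3060c183060c183060c183060c183060c183060c183060c18303c6060c30c183060c183060c183060c183060c183060c183060c18305490c181830c3060c183060c183060c1224308163060c183060c183060c1428387081460c183060c183060c183060c183060c183060c18305490c181851024407183060c18305490c181830c1c308183060c183060c1224306122848b080c30c1812549183060c183060c183060c181e5490c181830c1c1850e181830c 2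
    [[2],[32],[],[],[0x20000],[0x200000],[0x2000000],[]]
    [.con 1 2,.con 2 2,.con 5 2,.con 6 2,.con 7 2])]

theorem cD8r_18 : NodeU 8 cD8r_18_w [] :=
  nodeG_of (C := 6) (sy := cD8r_18_s) (st := cD8r_18_t) (D := cD8r_18_D) (Ns := cD8r_18_n) (by norm_num) (by norm_num)
    ttD8r_ok (by decide +kernel) (by decide +kernel) (by decide +kernel)

/-- classes `0 1 0 2 1 3 4 5` -/
noncomputable def cD8r_19_w : List ℕ := [k0,k16,k0,k32,k16,k48,k64,k80]

/-- symmetries -/
noncomputable def cD8r_19_s : List (Bool × ℕ × List ℕ) :=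
  []

/-- steps -/
noncomputable def cD8r_19_t : List (ℕ × ℕ × ℕ × ℕ × ℕ × ℕ) :=
  [(k1,254,k0,k1,k15,k14),(k14,k14,k0,k14,k0,k14),(k16,k35,k1,k0,k2,k3),(k19,k19,k1,k3,k1,k3),(k20,k99,k1,k4,k6,k3),
    (k23,k83,k1,k7,k5,k3),(k32,k32,k2,k0,k2,k0),(k36,k96,k2,k4,k6,k0),(k39,k80,k2,k7,k5,k0),(k50,k69,k3,k2,k4,k5),
    (k53,k53,k3,k5,k3,k5),(k56,k165,k3,k8,k10,k5),(k59,k149,k3,k11,k9,k5),(k66,k66,k4,k2,k4,k2),(k72,k162,k4,k8,k10,
    k2),(k75,k146,k4,k11,k9,k2),(k84,k103,k5,k4,k6,k7),(k87,k87,k5,k7,k5,k7),(k100,k100,k6,k4,k6,k4),(k118,k137,k7,k6,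
    k8,k9),(k121,k121,k7,k9,k7,k9),(k134,k134,k8,k6,k8,k6),(k152,k171,k9,k8,k10,k11),(k155,k155,k9,k11,k9,k11),(k168,
    k168,k10,k8,k10,k8),(k186,205,k11,k10,k12,k13),(k189,k189,k11,k13,k11,k13),(202,202,k12,k10,k12,k10),(220,239,k13,
    k12,k14,k15),(223,223,k13,k15,k13,k15),(236,236,k14,k12,k14,k12),(241,241,k15,k1,k15,k1)]

/-- equations of the nodes -/
noncomputable def cD8r_19_D : List (List (List (List (ℕ × ℕ)))) :=
  [[[[]]]]

/-- nodes -/
noncomputable def cD8r_19_n : List (QG PN) :=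
  [.q (.lp 7 24 2 0xd0000000d0000000a0000000a0000000a0000000a0000000a0000000a0000000c0000000e0000000d0000000d0000000b0000000b0000000a0000000a 0x1000000010000000400000004000000040000000400000004000000040000000000000002000000010000000100000003000000030000000400000004
    0x3030c183060c183060c1830604981860c093060c183060c183060c181260c063060c183060c183060c1830603183018c183060c183060c1830603183018c183060c183060c183060c180c60c063060498301cc183060c180c60c063060498301cc183060c1830603183020c183060c183060c1830604183028c183060c183060c183060c181c60c0d1660c063060c183060c181a60c0c1c60c093060c181260c0930606183028c183060c180e60c0730605183020c183060c183060c181660c0e1060c073060c183060c180c60c090e60c063024c183060c183060c183060318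
    0x3060c183060c183060c183060c181860c183060c183060c183060c183060c183060c183060c183060c182a2430c3060c183060c183060c183060c183060c183060c183060c18303c6060c30c183060c183060c183060c183060c183060c183060c18305490c181830c3060c183060c183060c183060c183060c183060c183060c1428387081460c183060c183060a8f1e2448f2260c183060c183060c183054a952e346183060c183060c18305cb932a2c7183060c18305898d1a1c38d1e4cb0a1040c1812549183060c183060c183060c181e60c14283870e20184911e1c30c 2
    [[2],[32],[],[],[0x20000],[0x200000],[0x2000000],[]]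
    [.con 1 2,.con 2 2,.con 5 2,.con 6 2,.con 7 2])]

theorem cD8r_19 : NodeU 8 cD8r_19_w [] :=
  nodeG_of (C := 6) (sy := cD8r_19_s) (st := cD8r_19_t) (D := cD8r_19_D) (Ns := cD8r_19_n) (by norm_num) (by norm_num)
    ttD8r_ok (by decide +kernel) (by decide +kernel) (by decide +kernel)

/-- classes `0 1 0 2 3 0 4 5` -/
noncomputable def cD8r_20_w : List ℕ := [k0,k16,k0,k32,k48,k0,k64,k80]

/-- symmetries -/
noncomputable def cD8r_20_s : List (Bool × ℕ × List ℕ) :=
  []

/-- steps -/
noncomputable def cD8r_20_t : List (ℕ × ℕ × ℕ × ℕ × ℕ × ℕ) :=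
  [(k1,254,k0,k1,k15,k14),(k14,k14,k0,k14,k0,k14),(k16,k35,k1,k0,k2,k3),(k19,k19,k1,k3,k1,k3),(k20,k99,k1,k4,k6,k3),
    (k23,k83,k1,k7,k5,k3),(k26,k195,k1,k10,k12,k3),(k29,k179,k1,k13,k11,k3),(k32,k32,k2,k0,k2,k0),(k36,k96,k2,k4,k6,
    k0),(k39,k80,k2,k7,k5,k0),(k42,k192,k2,k10,k12,k0),(k45,k176,k2,k13,k11,k0),(k50,k69,k3,k2,k4,k5),(k53,k53,k3,k5,
    k3,k5),(k66,k66,k4,k2,k4,k2),(k84,k103,k5,k4,k6,k7),(k87,k87,k5,k7,k5,k7),(k90,k199,k5,k10,k12,k7),(k93,k183,k5,
    k13,k11,k7),(k100,k100,k6,k4,k6,k4),(k106,k196,k6,k10,k12,k4),(k109,k180,k6,k13,k11,k4),(k118,k137,k7,k6,k8,k9),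
    (k121,k121,k7,k9,k7,k9),(k134,k134,k8,k6,k8,k6),(k152,k171,k9,k8,k10,k11),(k155,k155,k9,k11,k9,k11),(k168,k168,
    k10,k8,k10,k8),(k186,205,k11,k10,k12,k13),(k189,k189,k11,k13,k11,k13),(202,202,k12,k10,k12,k10),(220,239,k13,k12,
    k14,k15),(223,223,k13,k15,k13,k15),(236,236,k14,k12,k14,k12),(241,241,k15,k1,k15,k1)]

/-- equations of the nodes -/
noncomputable def cD8r_20_D : List (List (List (List (ℕ × ℕ)))) :=
  [[[[]]]]

/-- nodes -/
noncomputable def cD8r_20_n : List (QG PN) :=
  [.q (.lp 7 24 2 0xe0000000e0000000b0000000b0000000b0000000b0000000b0000000b0000000c000000100000000f0000000f0000000b0000000b0000000b0000000b 0x2000000020000000500000005000000050000000500000005000000050000000000000004000000010000000100000005000000050000000500000005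
    0x3030c183060c183060c1830604981860c093060c183060c183060c181260c063060c183060c183060c1830603183018c181660c0a0c60c0630603183018c181660c0a0c60c063060c180c60c063060c183060c183060c180c60c063060c183060c183060c183060318301cc183060c183060c1830603983020c183060c183060598302cc182060c0f1660c0730605183028c181e60c0e1c60c0a3060c183060c1830607183028c183060c183060c1830605183018c1830603183018c181660c0e0c60c0630603183018c180e60c0a0c60c063024c183060c183060c183060318
    0x3060c183060c183060c183060c181860c183060c183060c183060c183060c183060c183060c183060c182a2430c3060c183060c183060c183060c183060c183060c183060c18303c6060c30c183060c183060c183060c183060c183060c183060c18305490c181830c3060c183060c18305088b16448973060c183060c183060c1326346871060c183060c183060c183060c183060c183060c18304c80a14408162e3c7183060c18303c6060c30612262c7183060c18305490c18489183044a0a0c30c1812549183060c183060c183060c181e3c6060c3060e1e1c510181830c 2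
    [[2],[32],[],[],[0x20000],[0x200000],[0x2000000],[]]
    [.con 1 2,.con 2 2,.con 5 2,.con 6 2,.con 7 2])]

theorem cD8r_20 : NodeU 8 cD8r_20_w [] :=
  nodeG_of (C := 6) (sy := cD8r_20_s) (st := cD8r_20_t) (D := cD8r_20_D) (Ns := cD8r_20_n) (by norm_num) (by norm_num)
    ttD8r_ok (by decide +kernel) (by decide +kernel) (by decide +kernel)

/-- classes `0 0 0 0 1 2 3 4` -/
noncomputable def cD8r_32_w : List ℕ := [k0,k0,k0,k0,k16,k32,k48,k64]

/-- symmetries -/
noncomputable def cD8r_32_s : List (Bool × ℕ × List ℕ) :=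
  []

/-- steps -/
noncomputable def cD8r_32_t : List (ℕ × ℕ × ℕ × ℕ × ℕ × ℕ) :=
  [(k1,254,k0,k1,k15,k14),(k14,k14,k0,k14,k0,k14),(k16,k35,k1,k0,k2,k3),(k18,k67,k1,k2,k4,k3),(k19,k19,k1,k3,k1,k3),
    (k20,k99,k1,k4,k6,k3),(k21,k51,k1,k5,k3,k3),(k22,k131,k1,k6,k8,k3),(k23,k83,k1,k7,k5,k3),(k25,k115,k1,k9,k7,k3),
    (k32,k32,k2,k0,k2,k0),(k34,k64,k2,k2,k4,k0),(k36,k96,k2,k4,k6,k0),(k37,k48,k2,k5,k3,k0),(k38,k128,k2,k6,k8,k0),
    (k39,k80,k2,k7,k5,k0),(k41,k112,k2,k9,k7,k0),(k50,k69,k3,k2,k4,k5),(k52,k101,k3,k4,k6,k5),(k53,k53,k3,k5,k3,k5),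
    (k54,k133,k3,k6,k8,k5),(k55,k85,k3,k7,k5,k5),(k57,k117,k3,k9,k7,k5),(k66,k66,k4,k2,k4,k2),(k68,k98,k4,k4,k6,k2),
    (k70,k130,k4,k6,k8,k2),(k71,k82,k4,k7,k5,k2),(k73,k114,k4,k9,k7,k2),(k84,k103,k5,k4,k6,k7),(k86,k135,k5,k6,k8,k7),
    (k87,k87,k5,k7,k5,k7),(k89,k119,k5,k9,k7,k7),(k100,k100,k6,k4,k6,k4),(k102,k132,k6,k6,k8,k4),(k105,k116,k6,k9,k7,
    k4),(k118,k137,k7,k6,k8,k9),(k121,k121,k7,k9,k7,k9),(k134,k134,k8,k6,k8,k6),(k152,k171,k9,k8,k10,k11),(k155,k155,
    k9,k11,k9,k11),(k168,k168,k10,k8,k10,k8),(k186,205,k11,k10,k12,k13),(k189,k189,k11,k13,k11,k13),(202,202,k12,k10,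
    k12,k10),(220,239,k13,k12,k14,k15),(223,223,k13,k15,k13,k15),(236,236,k14,k12,k14,k12),(241,241,k15,k1,k15,k1)]

/-- equations of the nodes -/
noncomputable def cD8r_32_D : List (List (List (List (ℕ × ℕ)))) :=
  [[[[]]]]

/-- nodes -/
noncomputable def cD8r_32_n : List (QG PN) :=
  [.q (.lp 7 24 2 0xa0000000a0000000a0000000a0000000a0000000a0000000b0000000b0000000e0000000d0000000d0000000d0000000d0000000c0000000a0000000a 0x4000000040000000400000004000000040000000400000003000000030000000100000000000000010000000100000002000000010000000400000004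
    0x3018c183060c183060c1830603180c60c063060c183060c183060c180c60c063060c183060c183060c1830603183018c183060c183060c1830603183018c183060c183060c183060c180c60c073060c183060c183060c180e60c083060c183060c183060c183060818122c50a1228c073060c1830605981a1868e1834c0a3060c183060498243450c1630c083060c18306051818386061838c093060c183060518143490c1430c093060c183060518183460e1618c0a3060c183060498163050c142cc083060c18306039810284891028c063018c183060c183060c183060318
    0x3060c183060c183060c183060c180c30c183060c183060c183060c183060c183060c183060c183060c18181830c3060c183060c183060c183060c183060c183060c183060c1824306060c30c183060c183060c183060c183060c183060c183060c18304c98d1a1c4183060c183060c183060c162c408891a60c183060c183060c18304898b0c34c183060c183060c172e4490a1a286183060c183060c172e4490a1c3030c3060c183060c162c40889182c60a1660c183060c172e4490a1a3070c0c2cc180c306122460c183060c183060c18184891428387871420489142030c 2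
    [[2],[32],[],[],[],[0x200000],[0x2000000],[0x20000000]]
    [.con 1 2,.con 2 2,.con 6 2,.con 7 2,.con 8 2])]

theorem cD8r_32 : NodeU 8 cD8r_32_w [] :=
  nodeG_of (C := 5) (sy := cD8r_32_s) (st := cD8r_32_t) (D := cD8r_32_D) (Ns := cD8r_32_n) (by norm_num) (by norm_num)
    ttD8r_ok (by decide +kernel) (by decide +kernel) (by decide +kernel)

/-- classes `0 0 0 1 1 2 3 4` -/
noncomputable def cD8r_34_w : List ℕ := [k0,k0,k0,k16,k16,k32,k48,k64]

/-- symmetries -/
noncomputable def cD8r_34_s : List (Bool × ℕ × List ℕ) :=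
  []

/-- steps -/
noncomputable def cD8r_34_t : List (ℕ × ℕ × ℕ × ℕ × ℕ × ℕ) :=
  [(k1,254,k0,k1,k15,k14),(k14,k14,k0,k14,k0,k14),(k16,k35,k1,k0,k2,k3),(k18,k67,k1,k2,k4,k3),(k19,k19,k1,k3,k1,k3),
    (k20,k99,k1,k4,k6,k3),(k21,k51,k1,k5,k3,k3),(k23,k83,k1,k7,k5,k3),(k32,k32,k2,k0,k2,k0),(k34,k64,k2,k2,k4,k0),
    (k36,k96,k2,k4,k6,k0),(k37,k48,k2,k5,k3,k0),(k39,k80,k2,k7,k5,k0),(k50,k69,k3,k2,k4,k5),(k52,k101,k3,k4,k6,k5),
    (k53,k53,k3,k5,k3,k5),(k55,k85,k3,k7,k5,k5),(k66,k66,k4,k2,k4,k2),(k68,k98,k4,k4,k6,k2),(k71,k82,k4,k7,k5,k2),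
    (k84,k103,k5,k4,k6,k7),(k87,k87,k5,k7,k5,k7),(k100,k100,k6,k4,k6,k4),(k118,k137,k7,k6,k8,k9),(k120,k169,k7,k8,k10,
    k9),(k121,k121,k7,k9,k7,k9),(k123,k153,k7,k11,k9,k9),(k134,k134,k8,k6,k8,k6),(k136,k166,k8,k8,k10,k6),(k139,k150,
    k8,k11,k9,k6),(k152,k171,k9,k8,k10,k11),(k155,k155,k9,k11,k9,k11),(k168,k168,k10,k8,k10,k8),(k186,205,k11,k10,k12,
    k13),(k189,k189,k11,k13,k11,k13),(202,202,k12,k10,k12,k10),(220,239,k13,k12,k14,k15),(223,223,k13,k15,k13,k15),
    (236,236,k14,k12,k14,k12),(241,241,k15,k1,k15,k1)]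

/-- equations of the nodes -/
noncomputable def cD8r_34_D : List (List (List (List (ℕ × ℕ)))) :=
  [[[[]]]]

/-- nodes -/
noncomputable def cD8r_34_n : List (QG PN) :=
  [.q (.lp 7 24 2 0xd0000000d0000000a0000000a0000000a0000000a0000000c0000000c0000000a0000000a0000000e0000000e0000000c0000000c0000000a0000000a 0x1000000010000000400000004000000040000000400000002000000020000000400000004000000000000000000000002000000020000000400000004
    0x3030c183060c183060c1830604981860c093060c183060c183060c181260c063060c183060c183060c1830603183018c183060c183060c1830603183018c183060c183060c183060c180c605083018c183060c183060c18106050a3018c183060c183060c18146040a3020c183060c183060c180c604063020c183060c183060c183060c181c6040a1020c063060c183060c1814607061838c0a3060c183060c18106090e1430c0a3060c183060c18106060e1418c0a3060c183060c18106050c1428c083060c183060c180c6050a1028c063024c183060c183060c183060318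
    0x3060c183060c183060c183060c181860c183060c183060c183060c183060c183060c183060c183060c182a2430c3060c183060c183060c183060c183060c183060c183060c18303c6060c30c183060c183060c183060b1020285183060c183060c18305ca0e1c2050a3060c183060c183060c183060c183060c183060c18305490c18183081058c183060c183060c14283871020207183060c183060c162c40812242830e3060c183060c142838710202060a1460c183060c142838710202070c0c28c1812549183060c183060c183060c181e60c12243060e1c1850a142030c 2
    [[2],[32],[],[0x2000],[0x20000],[0x200000],[0x2000000],[]]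
    [.con 1 2,.con 2 2,.con 4 2,.con 5 2,.con 6 2,.con 7 2])]

theorem cD8r_34 : NodeU 8 cD8r_34_w [] :=
  nodeG_of (C := 5) (sy := cD8r_34_s) (st := cD8r_34_t) (D := cD8r_34_D) (Ns := cD8r_34_n) (by norm_num) (by norm_num)
    ttD8r_ok (by decide +kernel) (by decide +kernel) (by decide +kernel)

/-- classes `0 0 0 1 2 0 3 4` -/
noncomputable def cD8r_35_w : List ℕ := [k0,k0,k0,k16,k32,k0,k48,k64]

/-- symmetries -/
noncomputable def cD8r_35_s : List (Bool × ℕ × List ℕ) :=
  []

/-- steps -/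
noncomputable def cD8r_35_t : List (ℕ × ℕ × ℕ × ℕ × ℕ × ℕ) :=
  [(k1,254,k0,k1,k15,k14),(k14,k14,k0,k14,k0,k14),(k16,k35,k1,k0,k2,k3),(k18,k67,k1,k2,k4,k3),(k19,k19,k1,k3,k1,k3),
    (k20,k99,k1,k4,k6,k3),(k21,k51,k1,k5,k3,k3),(k23,k83,k1,k7,k5,k3),(k26,k195,k1,k10,k12,k3),(k29,k179,k1,k13,k11,
    k3),(k32,k32,k2,k0,k2,k0),(k34,k64,k2,k2,k4,k0),(k36,k96,k2,k4,k6,k0),(k37,k48,k2,k5,k3,k0),(k39,k80,k2,k7,k5,k0),
    (k42,k192,k2,k10,k12,k0),(k45,k176,k2,k13,k11,k0),(k50,k69,k3,k2,k4,k5),(k52,k101,k3,k4,k6,k5),(k53,k53,k3,k5,k3,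
    k5),(k55,k85,k3,k7,k5,k5),(k58,k197,k3,k10,k12,k5),(k61,k181,k3,k13,k11,k5),(k66,k66,k4,k2,k4,k2),(k68,k98,k4,k4,
    k6,k2),(k71,k82,k4,k7,k5,k2),(k74,k194,k4,k10,k12,k2),(k77,k178,k4,k13,k11,k2),(k84,k103,k5,k4,k6,k7),(k87,k87,k5,
    k7,k5,k7),(k90,k199,k5,k10,k12,k7),(k93,k183,k5,k13,k11,k7),(k100,k100,k6,k4,k6,k4),(k106,k196,k6,k10,k12,k4),
    (k109,k180,k6,k13,k11,k4),(k118,k137,k7,k6,k8,k9),(k121,k121,k7,k9,k7,k9),(k134,k134,k8,k6,k8,k6),(k152,k171,k9,
    k8,k10,k11),(k155,k155,k9,k11,k9,k11),(k168,k168,k10,k8,k10,k8),(k186,205,k11,k10,k12,k13),(k189,k189,k11,k13,k11,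
    k13),(202,202,k12,k10,k12,k10),(220,239,k13,k12,k14,k15),(223,223,k13,k15,k13,k15),(236,236,k14,k12,k14,k12),(241,
    241,k15,k1,k15,k1)]

/-- equations of the nodes -/
noncomputable def cD8r_35_D : List (List (List (List (ℕ × ℕ)))) :=
  [[[[]]]]

/-- nodes -/
noncomputable def cD8r_35_n : List (QG PN) :=
  [.q (.lp 8 48 2 0x18000000180000001200000012000000130000001300000012000000120000001700000017000000180000001800000016000000160000001200000012 0x600000006000000050000000500000006000000060000000100000001000000000000000000000002000000020000000600000006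
    0x30183030303030303030303030301230183030123030303030303030303030301230300c30303030303030303030303030300c30300d3030113012121113300c30300d30300e3030123010131111300c303030300e30300d3030303030303030303030300d30300c30303030303030303030303030300c3030113030303030303030303030301130301630303030303030301130301230301a300f171515300d3030123030133030173018141a1e301230301230301030300f301c181216301230301330301130301530161e1410301430301130301130301530121a1414301030300c30300c30300d3012121014300c30123030303030303030303030300c30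
    0x3030303030303030303030303030303018303030303030303030303030303030303030303030303030303030303030302a120c1830303030303030303030303030303030303030303030303030303030301f190d0e1c3030303030303030303030303030303030303030303030303030302c261a1b0d0c18303030303030303030231d1112201f2b303030303030303030303027281e1d11163030303030303030241e12101e1d20250f18303030303030241e12132120282d1714183030303030231d11111f1e262b151a121430303030251f13111f1e262b151e1610143030122a24303030303030303030303030301e1e180c0c1a191e230d121214100c18 2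
    [[2],[32],[],[],[0x20000],[0x200000],[0x2000000],[]]
    [.con 1 2,.con 2 2,.con 5 2,.con 6 2,.con 7 2])]

theorem cD8r_35 : NodeU 8 cD8r_35_w [] :=
  nodeG_of (C := 5) (sy := cD8r_35_s) (st := cD8r_35_t) (D := cD8r_35_D) (Ns := cD8r_35_n) (by norm_num) (by norm_num)
    ttD8r_ok (by decide +kernel) (by decide +kernel) (by decide +kernel)

/-- classes `0 0 1 0 1 2 3 4` -/
noncomputable def cD8r_42_w : List ℕ := [k0,k0,k16,k0,k16,k32,k48,k64]

/-- symmetries -/
noncomputable def cD8r_42_s : List (Bool × ℕ × List ℕ) :=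
  []

/-- steps -/
noncomputable def cD8r_42_t : List (ℕ × ℕ × ℕ × ℕ × ℕ × ℕ) :=
  [(k1,254,k0,k1,k15,k14),(k14,k14,k0,k14,k0,k14),(k16,k35,k1,k0,k2,k3),(k18,k67,k1,k2,k4,k3),(k19,k19,k1,k3,k1,k3),
    (k21,k51,k1,k5,k3,k3),(k22,k131,k1,k6,k8,k3),(k25,k115,k1,k9,k7,k3),(k32,k32,k2,k0,k2,k0),(k34,k64,k2,k2,k4,k0),
    (k37,k48,k2,k5,k3,k0),(k38,k128,k2,k6,k8,k0),(k41,k112,k2,k9,k7,k0),(k50,k69,k3,k2,k4,k5),(k53,k53,k3,k5,k3,k5),
    (k54,k133,k3,k6,k8,k5),(k57,k117,k3,k9,k7,k5),(k66,k66,k4,k2,k4,k2),(k70,k130,k4,k6,k8,k2),(k73,k114,k4,k9,k7,k2),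
    (k84,k103,k5,k4,k6,k7),(k87,k87,k5,k7,k5,k7),(k88,k167,k5,k8,k10,k7),(k91,k151,k5,k11,k9,k7),(k100,k100,k6,k4,k6,
    k4),(k104,k164,k6,k8,k10,k4),(k107,k148,k6,k11,k9,k4),(k118,k137,k7,k6,k8,k9),(k121,k121,k7,k9,k7,k9),(k134,k134,
    k8,k6,k8,k6),(k152,k171,k9,k8,k10,k11),(k155,k155,k9,k11,k9,k11),(k168,k168,k10,k8,k10,k8),(k186,205,k11,k10,k12,
    k13),(k189,k189,k11,k13,k11,k13),(202,202,k12,k10,k12,k10),(220,239,k13,k12,k14,k15),(223,223,k13,k15,k13,k15),
    (236,236,k14,k12,k14,k12),(241,241,k15,k1,k15,k1)]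

/-- equations of the nodes -/
noncomputable def cD8r_42_D : List (List (List (List (ℕ × ℕ)))) :=
  [[[[]]]]

/-- nodes -/
noncomputable def cD8r_42_n : List (QG PN) :=
  [.q (.lp 7 24 2 0xd0000000d0000000a0000000a0000000a0000000a0000000c0000000e0000000b0000000b0000000e0000000c0000000a0000000c0000000a0000000a 0x1000000010000000400000004000000040000000400000000000000020000000300000003000000020000000000000002000000040000000400000004
    0x3030c183060c183060c1830604981860c093060c183060c183060c181260c063060c183060c183060c1830603183018c183060c183060c1830603183018c183060c183060c183060c180c60c080e60c063060c183060c181060c0a1a60c0c3060c183060c183060718302c6181818c0a3060c1830605983020698121cc073060c180e60c0d1060c0b3060c183060c180c60c0c1660c0e3060c183060c18306061830345180c20c083060c183060318301c4181018c0a3060c18306061830243181420c083060c183060518301c4181028c063024c183060c183060c183060318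
    0x3060c183060c183060c183060c181860c183060c183060c183060c183060c183060c183060c183060c182a2430c3060c183060c183060c183060c183060c183060c183060c18303c6060c30c183060c183060c183060c183060c183060c183060c18305ca0e1c205183060c183060c18305898d1a1c6983060c183060c183060c152a3ca8b1040c183060c183060c183050b0c1a54c183060c18305490c1818616262c7183060c183060c12243090c1244a061060c183060c1428388060e3c9080c20c1812549183060c183060c183060c181e60c142838a0a0e3c908142030c 2
    [[2],[32],[],[0x2000],[],[0x200000],[0x2000000],[]]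
    [.con 1 2,.con 2 2,.con 4 2,.con 6 2,.con 7 2])]

theorem cD8r_42 : NodeU 8 cD8r_42_w [] :=
  nodeG_of (C := 5) (sy := cD8r_42_s) (st := cD8r_42_t) (D := cD8r_42_D) (Ns := cD8r_42_n) (by norm_num) (by norm_num)
    ttD8r_ok (by decide +kernel) (by decide +kernel) (by decide +kernel)

/-- classes `0 0 1 0 2 1 3 4` -/
noncomputable def cD8r_44_w : List ℕ := [k0,k0,k16,k0,k32,k16,k48,k64]

/-- symmetries -/
noncomputable def cD8r_44_s : List (Bool × ℕ × List ℕ) :=
  []

/-- steps -/
noncomputable def cD8r_44_t : List (ℕ × ℕ × ℕ × ℕ × ℕ × ℕ) :=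
  [(k1,254,k0,k1,k15,k14),(k14,k14,k0,k14,k0,k14),(k16,k35,k1,k0,k2,k3),(k18,k67,k1,k2,k4,k3),(k19,k19,k1,k3,k1,k3),
    (k21,k51,k1,k5,k3,k3),(k22,k131,k1,k6,k8,k3),(k25,k115,k1,k9,k7,k3),(k32,k32,k2,k0,k2,k0),(k34,k64,k2,k2,k4,k0),
    (k37,k48,k2,k5,k3,k0),(k38,k128,k2,k6,k8,k0),(k41,k112,k2,k9,k7,k0),(k50,k69,k3,k2,k4,k5),(k53,k53,k3,k5,k3,k5),
    (k54,k133,k3,k6,k8,k5),(k57,k117,k3,k9,k7,k5),(k66,k66,k4,k2,k4,k2),(k70,k130,k4,k6,k8,k2),(k73,k114,k4,k9,k7,k2),
    (k84,k103,k5,k4,k6,k7),(k87,k87,k5,k7,k5,k7),(k90,k199,k5,k10,k12,k7),(k93,k183,k5,k13,k11,k7),(k100,k100,k6,k4,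
    k6,k4),(k106,k196,k6,k10,k12,k4),(k109,k180,k6,k13,k11,k4),(k118,k137,k7,k6,k8,k9),(k121,k121,k7,k9,k7,k9),(k134,
    k134,k8,k6,k8,k6),(k152,k171,k9,k8,k10,k11),(k155,k155,k9,k11,k9,k11),(k168,k168,k10,k8,k10,k8),(k186,205,k11,k10,
    k12,k13),(k189,k189,k11,k13,k11,k13),(202,202,k12,k10,k12,k10),(220,239,k13,k12,k14,k15),(223,223,k13,k15,k13,
    k15),(236,236,k14,k12,k14,k12),(241,241,k15,k1,k15,k1)]

/-- equations of the nodes -/
noncomputable def cD8r_44_D : List (List (List (List (ℕ × ℕ)))) :=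
  [[[[]]]]

/-- nodes -/
noncomputable def cD8r_44_n : List (QG PN) :=
  [.q (.lp 7 24 2 0xc0000000c000000090000000900000009000000090000000a0000000c0000000b000000090000000c0000000c0000000a0000000a0000000900000009 0x300000003000000030000000300000000000000020000000300000001000000000000000000000002000000020000000300000003
    0x3030c183060c183060c1830604981860c093060c183060c183060c181260c063060c183060c183060c1830603183018c180c60c093060c1830603183018c180c60c093060c183060c180c60c073060c183060c183060c180e60c083060c183060c183060c183060818302c6181418c093060c18306059830187981224c0830603183018c180c60c093060c1830604983024c181260c0c3060c183060c183060618303c6180c28c093060c18306031830245181020c0b3060c18306051830243181020c073060c18306049830204980e2cc063024c183060c183060c183060318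
    0x3060c183060c183060c183060c181860c183060c183060c183060c183060c183060c183060c183060c182a2430c3060c183060c183060c183060c183060c183060c183060c18303c6060c30c183060c183060c183060c183060c183060c183060c18305898d1a1c4183060c183060c18303c6060c306983060c183060c18305490c184898b0c30c183060c183060c152a4ca0c1e54c183060c183048789123c8141e246183060c183060a8f1e4490a123c9061060c183060a8f1e34706123c90a1020c1812549183060c183060c183060c181e5ca0e1c408891038889161c30c 2
    [[2],[32],[],[0x2000],[],[0x200000],[0x2000000],[]]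
    [.con 1 2,.con 2 2,.con 4 2,.con 6 2,.con 7 2])]

theorem cD8r_44 : NodeU 8 cD8r_44_w [] :=
  nodeG_of (C := 5) (sy := cD8r_44_s) (st := cD8r_44_t) (D := cD8r_44_D) (Ns := cD8r_44_n) (by norm_num) (by norm_num)
    ttD8r_ok (by decide +kernel) (by decide +kernel) (by decide +kernel)

/-- classes `0 0 1 0 2 2 3 4` -/
noncomputable def cD8r_45_w : List ℕ := [k0,k0,k16,k0,k32,k32,k48,k64]

/-- symmetries -/
noncomputable def cD8r_45_s : List (Bool × ℕ × List ℕ) :=
  []

/-- steps -/
noncomputable def cD8r_45_t : List (ℕ × ℕ × ℕ × ℕ × ℕ × ℕ) :=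
  [(k1,254,k0,k1,k15,k14),(k14,k14,k0,k14,k0,k14),(k16,k35,k1,k0,k2,k3),(k18,k67,k1,k2,k4,k3),(k19,k19,k1,k3,k1,k3),
    (k21,k51,k1,k5,k3,k3),(k22,k131,k1,k6,k8,k3),(k25,k115,k1,k9,k7,k3),(k32,k32,k2,k0,k2,k0),(k34,k64,k2,k2,k4,k0),
    (k37,k48,k2,k5,k3,k0),(k38,k128,k2,k6,k8,k0),(k41,k112,k2,k9,k7,k0),(k50,k69,k3,k2,k4,k5),(k53,k53,k3,k5,k3,k5),
    (k54,k133,k3,k6,k8,k5),(k57,k117,k3,k9,k7,k5),(k66,k66,k4,k2,k4,k2),(k70,k130,k4,k6,k8,k2),(k73,k114,k4,k9,k7,k2),
    (k84,k103,k5,k4,k6,k7),(k87,k87,k5,k7,k5,k7),(k100,k100,k6,k4,k6,k4),(k118,k137,k7,k6,k8,k9),(k121,k121,k7,k9,k7,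
    k9),(k134,k134,k8,k6,k8,k6),(k152,k171,k9,k8,k10,k11),(k154,203,k9,k10,k12,k11),(k155,k155,k9,k11,k9,k11),(k157,
    k187,k9,k13,k11,k11),(k168,k168,k10,k8,k10,k8),(k170,200,k10,k10,k12,k8),(k173,k184,k10,k13,k11,k8),(k186,205,k11,
    k10,k12,k13),(k189,k189,k11,k13,k11,k13),(202,202,k12,k10,k12,k10),(220,239,k13,k12,k14,k15),(223,223,k13,k15,k13,
    k15),(236,236,k14,k12,k14,k12),(241,241,k15,k1,k15,k1)]

/-- equations of the nodes -/
noncomputable def cD8r_45_D : List (List (List (List (ℕ × ℕ)))) :=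
  [[[[]]]]

/-- nodes -/
noncomputable def cD8r_45_n : List (QG PN) :=
  [.q (.lp 7 24 2 0xd0000000d0000000a0000000a0000000c0000000a0000000c0000000c0000000c0000000a0000000c0000000e0000000c0000000a0000000a0000000a 0x1000000010000000400000004000000040000000200000002000000020000000400000002000000000000000200000004000000020000000400000004
    0x3030c183060c183060c1830604981860c093060c183060c183060c181260c063060c183060c183060c1830603181420c083060c183060c1830604181028c063060c183060c1830605180c20c083060c183060c1830604181018c0a3060c183060c183060c18306071830286181018c083060c18306051830188181028c083060c183060c180c60c083060c183060c183060c181060c0a3060c183060c18306061830407180c30c0a3060c18306031830286181028c0c3060c18306041830203180c20c063060c18306041830205180c30c063024c183060c183060c183060318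
    0x3060c183060c183060c183060c181860c183060c183060c183060c183060c183060c183060c183060c182a2430c3060c183060c183060c18304c80a1060c183060c183060c1830447081420c183060c183060c183060c183060c183060c183060c1830447080c205183060c183060c183060c183060c183060c183060c183060c122048a0a0c30c183060c183060c142450b0c2058c183060c183060c183060c121c205183060c183060b101c4090810388061060c18305ca0e1838806144090c1420c1812549183060c183060c183060c181e60b101c40908103880a181830c 2
    [[2],[32],[],[0x2000],[],[0x200000],[0x2000000],[]]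
    [.con 1 2,.con 2 2,.con 4 2,.con 6 2,.con 7 2])]

theorem cD8r_45 : NodeU 8 cD8r_45_w [] :=
  nodeG_of (C := 5) (sy := cD8r_45_s) (st := cD8r_45_t) (D := cD8r_45_D) (Ns := cD8r_45_n) (by norm_num) (by norm_num)
    ttD8r_ok (by decide +kernel) (by decide +kernel) (by decide +kernel)

/-- classes `0 0 1 0 2 3 1 4` -/
noncomputable def cD8r_47_w : List ℕ := [k0,k0,k16,k0,k32,k48,k16,k64]

/-- symmetries -/
noncomputable def cD8r_47_s : List (Bool × ℕ × List ℕ) :=
  []

/-- steps -/
noncomputable def cD8r_47_t : List (ℕ × ℕ × ℕ × ℕ × ℕ × ℕ) :=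
  [(k1,254,k0,k1,k15,k14),(k14,k14,k0,k14,k0,k14),(k16,k35,k1,k0,k2,k3),(k18,k67,k1,k2,k4,k3),(k19,k19,k1,k3,k1,k3),
    (k21,k51,k1,k5,k3,k3),(k22,k131,k1,k6,k8,k3),(k25,k115,k1,k9,k7,k3),(k32,k32,k2,k0,k2,k0),(k34,k64,k2,k2,k4,k0),
    (k37,k48,k2,k5,k3,k0),(k38,k128,k2,k6,k8,k0),(k41,k112,k2,k9,k7,k0),(k50,k69,k3,k2,k4,k5),(k53,k53,k3,k5,k3,k5),
    (k54,k133,k3,k6,k8,k5),(k57,k117,k3,k9,k7,k5),(k66,k66,k4,k2,k4,k2),(k70,k130,k4,k6,k8,k2),(k73,k114,k4,k9,k7,k2),
    (k84,k103,k5,k4,k6,k7),(k87,k87,k5,k7,k5,k7),(k92,231,k5,k12,k14,k7),(k95,215,k5,k15,k13,k7),(k100,k100,k6,k4,k6,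
    k4),(k108,228,k6,k12,k14,k4),(k111,212,k6,k15,k13,k4),(k118,k137,k7,k6,k8,k9),(k121,k121,k7,k9,k7,k9),(k134,k134,
    k8,k6,k8,k6),(k152,k171,k9,k8,k10,k11),(k155,k155,k9,k11,k9,k11),(k168,k168,k10,k8,k10,k8),(k186,205,k11,k10,k12,
    k13),(k189,k189,k11,k13,k11,k13),(202,202,k12,k10,k12,k10),(220,239,k13,k12,k14,k15),(223,223,k13,k15,k13,k15),
    (236,236,k14,k12,k14,k12),(241,241,k15,k1,k15,k1)]

/-- equations of the nodes -/
noncomputable def cD8r_47_D : List (List (List (List (ℕ × ℕ)))) :=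
  [[[[]]]]

/-- nodes -/
noncomputable def cD8r_47_n : List (QG PN) :=
  [.q (.lp 7 24 2 0xc0000000c000000090000000900000009000000090000000a0000000c0000000b000000090000000c0000000c0000000a0000000a0000000900000009 0x300000003000000030000000300000000000000020000000300000001000000000000000000000002000000020000000300000003
    0x3030c183060c183060c1830604981860c093060c181260c0c3060c181260c063060c180c60c093060c1830603183018c183060c183060c1830603183018c183060c183060c183060c180c60c073060c183060c183060c180e60c083060c183060c183060c183060818302c6181418c093060c18306059830187981224c081260c063060c180c60c093060c181860c093060c181260c0c3060c183060c183060618303c6180c28c093060c18306031830245181020c0b3060c18306051830243181020c073060c18306049830204980e2cc063024c183060c183060c183060318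
    0x3060c183060c183060c183060c181860c183060c183060c183060c183060c183060c183060c183060c182a2430c3060c183060c183060c183060c183060c183060c183060c18303c6060c30c183060c183060c183060c183060c183060c183060c18305898d1a1c4183060c183060c182a2430c18489983060c183060c18303c612244898b0c30c183060c183060a98304ca0c1e54c183060c18303048f1e54b141e246183060c1830487952a4490a123c9061060c1830487932634706123c90a1020c1812549183060c183048a983060c181e4471428408891038889161c30c 2
    [[2],[32],[],[0x2000],[],[0x200000],[0x2000000],[]]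
    [.con 1 2,.con 2 2,.con 4 2,.con 6 2,.con 7 2])]

theorem cD8r_47 : NodeU 8 cD8r_47_w [] :=
  nodeG_of (C := 5) (sy := cD8r_47_s) (st := cD8r_47_t) (D := cD8r_47_D) (Ns := cD8r_47_n) (by norm_num) (by norm_num)
    ttD8r_ok (by decide +kernel) (by decide +kernel) (by decide +kernel)

/-- classes `0 0 1 0 2 3 3 4` -/
noncomputable def cD8r_49_w : List ℕ := [k0,k0,k16,k0,k32,k48,k48,k64]

/-- symmetries -/
noncomputable def cD8r_49_s : List (Bool × ℕ × List ℕ) :=
  []

/-- steps -/
noncomputable def cD8r_49_t : List (ℕ × ℕ × ℕ × ℕ × ℕ × ℕ) :=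
  [(k1,254,k0,k1,k15,k14),(k14,k14,k0,k14,k0,k14),(k16,k35,k1,k0,k2,k3),(k18,k67,k1,k2,k4,k3),(k19,k19,k1,k3,k1,k3),
    (k21,k51,k1,k5,k3,k3),(k22,k131,k1,k6,k8,k3),(k25,k115,k1,k9,k7,k3),(k32,k32,k2,k0,k2,k0),(k34,k64,k2,k2,k4,k0),
    (k37,k48,k2,k5,k3,k0),(k38,k128,k2,k6,k8,k0),(k41,k112,k2,k9,k7,k0),(k50,k69,k3,k2,k4,k5),(k53,k53,k3,k5,k3,k5),
    (k54,k133,k3,k6,k8,k5),(k57,k117,k3,k9,k7,k5),(k66,k66,k4,k2,k4,k2),(k70,k130,k4,k6,k8,k2),(k73,k114,k4,k9,k7,k2),
    (k84,k103,k5,k4,k6,k7),(k87,k87,k5,k7,k5,k7),(k100,k100,k6,k4,k6,k4),(k118,k137,k7,k6,k8,k9),(k121,k121,k7,k9,k7,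
    k9),(k134,k134,k8,k6,k8,k6),(k152,k171,k9,k8,k10,k11),(k155,k155,k9,k11,k9,k11),(k168,k168,k10,k8,k10,k8),(k186,
    205,k11,k10,k12,k13),(k188,237,k11,k12,k14,k13),(k189,k189,k11,k13,k11,k13),(k191,221,k11,k15,k13,k13),(202,202,
    k12,k10,k12,k10),(204,234,k12,k12,k14,k10),(207,218,k12,k15,k13,k10),(220,239,k13,k12,k14,k15),(223,223,k13,k15,
    k13,k15),(236,236,k14,k12,k14,k12),(241,241,k15,k1,k15,k1)]

/-- equations of the nodes -/
noncomputable def cD8r_49_D : List (List (List (List (ℕ × ℕ)))) :=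
  [[[[]]]]

/-- nodes -/
noncomputable def cD8r_49_n : List (QG PN) :=
  [.q (.lp 7 24 2 0xc0000000c000000120000000c0000000c0000000c0000000d0000000f0000000e0000000c0000000f0000000f0000000d0000000d0000000c0000000c 0x6000000060000000600000000000000060000000600000003000000050000000600000004000000030000000300000005000000050000000600000006
    0x3018c183060c183060c183060318246030c3018c183060c183060c1818606063030c183060c183060c180c6030c3018c183060c183060c180c6030c3018c183060c183060c183060c180c60c073060c183060c183060c180e60c083060c183060c183060c183060818302c6181418c093060c18306059830187981224c083060c183060c180c60c093060c183060c183060c181260c0c3060c183060c183060618303c6180c28c093060c18306031830245181020c0b3060c18306051830243181020c073060c18306049830204980e2cc063018c183060c183060c183060318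
    0x3060c183060c183060c183060c180c60c183060c183060c183060c1818186183060c183060c183060c18243030c3060c183060c183060c183060c183060c183060c183060c1818186060c30c183060c183060c183060c183060c183060c183060c18263498d1a1c4183060c183060c183060c183060c183060c183060c183060c18304898b0c30c183060c183060c18304ca0c1e54c183060c183060c183060c141e246183060c18305cc172e4490a123c9061060c18304cc132634706123c90a1020c180c6090c18489983060c183060c181858c1224408891038889161c30c 2
    [[2],[32],[],[0x2000],[],[0x200000],[0x2000000],[]]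
    [.con 1 2,.con 2 2,.con 4 2,.con 6 2,.con 7 2])]

theorem cD8r_49 : NodeU 8 cD8r_49_w [] :=
  nodeG_of (C := 5) (sy := cD8r_49_s) (st := cD8r_49_t) (D := cD8r_49_D) (Ns := cD8r_49_n) (by norm_num) (by norm_num)
    ttD8r_ok (by decide +kernel) (by decide +kernel) (by decide +kernel)

/-- classes `0 0 1 0 2 3 4 1` -/
noncomputable def cD8r_50_w : List ℕ := [k0,k0,k16,k0,k32,k48,k64,k16]

/-- symmetries -/
noncomputable def cD8r_50_s : List (Bool × ℕ × List ℕ) :=
  []

/-- steps -/
noncomputable def cD8r_50_t : List (ℕ × ℕ × ℕ × ℕ × ℕ × ℕ) :=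
  [(k1,254,k0,k1,k15,k14),(k4,k110,k0,k4,k6,k14),(k7,k94,k0,k7,k5,k14),(k14,k14,k0,k14,k0,k14),(k16,k35,k1,k0,k2,k3),
    (k18,k67,k1,k2,k4,k3),(k19,k19,k1,k3,k1,k3),(k21,k51,k1,k5,k3,k3),(k22,k131,k1,k6,k8,k3),(k25,k115,k1,k9,k7,k3),
    (k32,k32,k2,k0,k2,k0),(k34,k64,k2,k2,k4,k0),(k37,k48,k2,k5,k3,k0),(k38,k128,k2,k6,k8,k0),(k41,k112,k2,k9,k7,k0),
    (k50,k69,k3,k2,k4,k5),(k53,k53,k3,k5,k3,k5),(k54,k133,k3,k6,k8,k5),(k57,k117,k3,k9,k7,k5),(k66,k66,k4,k2,k4,k2),
    (k70,k130,k4,k6,k8,k2),(k73,k114,k4,k9,k7,k2),(k81,247,k5,k1,k15,k7),(k84,k103,k5,k4,k6,k7),(k87,k87,k5,k7,k5,k7),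
    (k97,244,k6,k1,k15,k4),(k100,k100,k6,k4,k6,k4),(k118,k137,k7,k6,k8,k9),(k121,k121,k7,k9,k7,k9),(k134,k134,k8,k6,
    k8,k6),(k152,k171,k9,k8,k10,k11),(k155,k155,k9,k11,k9,k11),(k168,k168,k10,k8,k10,k8),(k186,205,k11,k10,k12,k13),
    (k189,k189,k11,k13,k11,k13),(202,202,k12,k10,k12,k10),(220,239,k13,k12,k14,k15),(223,223,k13,k15,k13,k15),(236,
    236,k14,k12,k14,k12),(241,241,k15,k1,k15,k1)]

/-- equations of the nodes -/
noncomputable def cD8r_50_D : List (List (List (List (ℕ × ℕ)))) :=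
  [[[[]]]]

/-- nodes -/
noncomputable def cD8r_50_n : List (QG PN) :=
  [.q (.lp 7 24 2 0xc0000000c0000000a0000000a0000000a0000000a0000000b0000000d0000000c0000000a0000000e0000000c0000000b0000000b0000000c0000000c 0x2000000020000000400000004000000040000000400000001000000030000000400000002000000020000000000000003000000030000000200000002
    0x3038c183060c180c60c0630605181460c083060c183060c183060c181060c063060c183060c183060c1830603183018c183060c183060c1830603183018c183060c183060c183060c180c60c073060c183060c183060c180e60c083060c183060c183060c183060818302c5981418c0b3060c18306059830187181224c0a3018c183060c180c60c0a30607183018c183060c181460c0e30607183060c18306059830385181224c0a3060c18306031830244981020c093060c18306051830244981020c093060c18306059830285181224c0a3028c183060c181c60c0e3060318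
    0x3060c183060c183060c183060c181c60c183060c183060c183060c183060c183060c183060c183060c182c2030c3060c183060c183060c183060c183060c183060c183060c1830386060c30c183060c183060c183060c183060c183060c183060c18305498d1a1c4183060c183060c180c407142860c183060c183060c181858a18304898b0c30c183060c182860c18304898b1c50c183060c180c407142860c1520287183060c181e60b972e4490a123c9891060c181e60b932634706123c9891020c1814509183060c1828387182e5cc182060c18304898b1440a0a1224510 2
    [[2],[32],[],[0x2000],[],[0x200000],[0x2000000],[]]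
    [.con 1 2,.con 2 2,.con 4 2,.con 6 2,.con 7 2])]

theorem cD8r_50 : NodeU 8 cD8r_50_w [] :=
  nodeG_of (C := 5) (sy := cD8r_50_s) (st := cD8r_50_t) (D := cD8r_50_D) (Ns := cD8r_50_n) (by norm_num) (by norm_num)
    ttD8r_ok (by decide +kernel) (by decide +kernel) (by decide +kernel)

/-- classes `0 0 1 0 2 3 4 4` -/
noncomputable def cD8r_53_w : List ℕ := [k0,k0,k16,k0,k32,k48,k64,k64]

/-- symmetries -/
noncomputable def cD8r_53_s : List (Bool × ℕ × List ℕ) :=
  []

/-- steps -/
noncomputable def cD8r_53_t : List (ℕ × ℕ × ℕ × ℕ × ℕ × ℕ) :=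
  [(k1,254,k0,k1,k15,k14),(k12,238,k0,k12,k14,k14),(k14,k14,k0,k14,k0,k14),(k15,222,k0,k15,k13,k14),(k16,k35,k1,k0,k2,
    k3),(k18,k67,k1,k2,k4,k3),(k19,k19,k1,k3,k1,k3),(k21,k51,k1,k5,k3,k3),(k22,k131,k1,k6,k8,k3),(k25,k115,k1,k9,k7,
    k3),(k32,k32,k2,k0,k2,k0),(k34,k64,k2,k2,k4,k0),(k37,k48,k2,k5,k3,k0),(k38,k128,k2,k6,k8,k0),(k41,k112,k2,k9,k7,
    k0),(k50,k69,k3,k2,k4,k5),(k53,k53,k3,k5,k3,k5),(k54,k133,k3,k6,k8,k5),(k57,k117,k3,k9,k7,k5),(k66,k66,k4,k2,k4,
    k2),(k70,k130,k4,k6,k8,k2),(k73,k114,k4,k9,k7,k2),(k84,k103,k5,k4,k6,k7),(k87,k87,k5,k7,k5,k7),(k100,k100,k6,k4,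
    k6,k4),(k118,k137,k7,k6,k8,k9),(k121,k121,k7,k9,k7,k9),(k134,k134,k8,k6,k8,k6),(k152,k171,k9,k8,k10,k11),(k155,
    k155,k9,k11,k9,k11),(k168,k168,k10,k8,k10,k8),(k186,205,k11,k10,k12,k13),(k189,k189,k11,k13,k11,k13),(202,202,k12,
    k10,k12,k10),(209,255,k13,k1,k15,k15),(220,239,k13,k12,k14,k15),(223,223,k13,k15,k13,k15),(225,252,k14,k1,k15,
    k12),(236,236,k14,k12,k14,k12),(241,241,k15,k1,k15,k1)]

/-- equations of the nodes -/
noncomputable def cD8r_53_D : List (List (List (List (ℕ × ℕ)))) :=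
  [[[[]]]]

/-- nodes -/
noncomputable def cD8r_53_n : List (QG PN) :=
  [.q (.lp 7 24 2 0xc0000000c000000090000000900000009000000090000000a0000000c0000000b000000090000000c0000000c0000000a0000000a0000000900000009 0x300000003000000030000000300000000000000020000000300000001000000000000000000000002000000020000000300000003
    0x1830c093060c183060c1830604981830c093060c183060c1830604981224c063060c183060c18306031830603183018c183060c183060c1830603183018c183060c183060c183060c180c60c073060c183060c183060c180e60c083060c183060c183060c183060818302c6181418c093060c18306059830187981224c083060c183060c180c60c093060c183060c183060c181260c0c3060c183060c183060618303c6180c28c093060c18306031830245181020c0b3060c18306051830243181020c073060c18306049830204980e2cc061224c063060c183060c183060318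
    0x1860c183060c183060c183060c181830c183060c183060c183060c183060c183060c183060c183060c18122430c3060c183060c183060c183060c183060c183060c183060c181e3c6060c30c183060c183060c183060c183060c183060c183060c182c5898d1a1c4183060c183060c183060c183060c183060c183060c183060c18304898b0c30c183060c183060c18304ca0c1e54c183060c183060c183060c141e246183060c183060c172e4490a123c9061060c183060c132634706123c90a1020c18122430c18489983060c183060c181e3c61224408891038889161c30c 2
    [[2],[32],[],[0x2000],[],[0x200000],[0x2000000],[]]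
    [.con 1 2,.con 2 2,.con 4 2,.con 6 2,.con 7 2])]

theorem cD8r_53 : NodeU 8 cD8r_53_w [] :=
  nodeG_of (C := 5) (sy := cD8r_53_s) (st := cD8r_53_t) (D := cD8r_53_D) (Ns := cD8r_53_n) (by norm_num) (by norm_num)
    ttD8r_ok (by decide +kernel) (by decide +kernel) (by decide +kernel)

/-- classes `0 0 1 1 0 2 3 4` -/
noncomputable def cD8r_54_w : List ℕ := [k0,k0,k16,k16,k0,k32,k48,k64]

/-- symmetries -/
noncomputable def cD8r_54_s : List (Bool × ℕ × List ℕ) :=
  []

/-- steps -/
noncomputable def cD8r_54_t : List (ℕ × ℕ × ℕ × ℕ × ℕ × ℕ) :=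
  [(k1,254,k0,k1,k15,k14),(k14,k14,k0,k14,k0,k14),(k16,k35,k1,k0,k2,k3),(k18,k67,k1,k2,k4,k3),(k19,k19,k1,k3,k1,k3),
    (k21,k51,k1,k5,k3,k3),(k24,k163,k1,k8,k10,k3),(k27,k147,k1,k11,k9,k3),(k32,k32,k2,k0,k2,k0),(k34,k64,k2,k2,k4,k0),
    (k37,k48,k2,k5,k3,k0),(k40,k160,k2,k8,k10,k0),(k43,k144,k2,k11,k9,k0),(k50,k69,k3,k2,k4,k5),(k53,k53,k3,k5,k3,k5),
    (k56,k165,k3,k8,k10,k5),(k59,k149,k3,k11,k9,k5),(k66,k66,k4,k2,k4,k2),(k72,k162,k4,k8,k10,k2),(k75,k146,k4,k11,k9,
    k2),(k84,k103,k5,k4,k6,k7),(k86,k135,k5,k6,k8,k7),(k87,k87,k5,k7,k5,k7),(k89,k119,k5,k9,k7,k7),(k100,k100,k6,k4,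
    k6,k4),(k102,k132,k6,k6,k8,k4),(k105,k116,k6,k9,k7,k4),(k118,k137,k7,k6,k8,k9),(k121,k121,k7,k9,k7,k9),(k134,k134,
    k8,k6,k8,k6),(k152,k171,k9,k8,k10,k11),(k155,k155,k9,k11,k9,k11),(k168,k168,k10,k8,k10,k8),(k186,205,k11,k10,k12,
    k13),(k189,k189,k11,k13,k11,k13),(202,202,k12,k10,k12,k10),(220,239,k13,k12,k14,k15),(223,223,k13,k15,k13,k15),
    (236,236,k14,k12,k14,k12),(241,241,k15,k1,k15,k1)]

/-- equations of the nodes -/
noncomputable def cD8r_54_D : List (List (List (List (ℕ × ℕ)))) :=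
  [[[[]]]]

/-- nodes -/
noncomputable def cD8r_54_n : List (QG PN) :=
  [.q (.lp 7 24 2 0xc0000000c00000009000000090000000a0000000c0000000b000000090000000a0000000a0000000c0000000c0000000a0000000a0000000900000009 0x300000003000000000000000200000003000000010000000200000002000000000000000000000002000000020000000300000003
    0x3030c183060c183060c1830604981860c093060c183060c183060c181260c063060c183060c183060c183060318301cc183060c183060c1830603983020c183060c183060c183060c182060c0b30606181418c093060c181660c0630607981224c083060c183060318161cc093060c183060c1830603981020c063060c183060c1830605981020c0a3060c183060c1830604981418c0c3060c183060c181860c0f30606180c28c093060c180c60c0930605181020c0b3060c181460c0930603181020c073060c181260c0830604980e2cc063024c183060c183060c183060318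
    0x3060c183060c183060c183060c181860c183060c183060c183060c183060c183060c183060c183060c182a2430c3060c183060c183060c183060c183060c183060c183060c1830406871060c183060c183060c183060c183060c183060c183060c183060c12262c30c3060c183060c183060c18305888b1060c183060c183060c1830486871020c183060c183060c1328307952c60c183060c183060c1830507890c286183060c183060b91242848f18409061060c18305898d1c1848f205090a1020c1812549183060c183060c183060c181e60b10222440e1e4c889161c30c 2
    [[2],[32],[],[0x2000],[0x20000],[],[0x2000000],[]]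
    [.con 1 2,.con 2 2,.con 4 2,.con 5 2,.con 7 2])]

theorem cD8r_54 : NodeU 8 cD8r_54_w [] :=
  nodeG_of (C := 5) (sy := cD8r_54_s) (st := cD8r_54_t) (D := cD8r_54_D) (Ns := cD8r_54_n) (by norm_num) (by norm_num)
    ttD8r_ok (by decide +kernel) (by decide +kernel) (by decide +kernel)

/-- classes `0 0 1 1 2 0 3 4` -/
noncomputable def cD8r_55_w : List ℕ := [k0,k0,k16,k16,k32,k0,k48,k64]

/-- symmetries -/
noncomputable def cD8r_55_s : List (Bool × ℕ × List ℕ) :=
  []

/-- steps -/
noncomputable def cD8r_55_t : List (ℕ × ℕ × ℕ × ℕ × ℕ × ℕ) :=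
  [(k1,254,k0,k1,k15,k14),(k14,k14,k0,k14,k0,k14),(k16,k35,k1,k0,k2,k3),(k18,k67,k1,k2,k4,k3),(k19,k19,k1,k3,k1,k3),
    (k21,k51,k1,k5,k3,k3),(k26,k195,k1,k10,k12,k3),(k29,k179,k1,k13,k11,k3),(k32,k32,k2,k0,k2,k0),(k34,k64,k2,k2,k4,
    k0),(k37,k48,k2,k5,k3,k0),(k42,k192,k2,k10,k12,k0),(k45,k176,k2,k13,k11,k0),(k50,k69,k3,k2,k4,k5),(k53,k53,k3,k5,
    k3,k5),(k58,k197,k3,k10,k12,k5),(k61,k181,k3,k13,k11,k5),(k66,k66,k4,k2,k4,k2),(k74,k194,k4,k10,k12,k2),(k77,k178,
    k4,k13,k11,k2),(k84,k103,k5,k4,k6,k7),(k86,k135,k5,k6,k8,k7),(k87,k87,k5,k7,k5,k7),(k89,k119,k5,k9,k7,k7),(k100,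
    k100,k6,k4,k6,k4),(k102,k132,k6,k6,k8,k4),(k105,k116,k6,k9,k7,k4),(k118,k137,k7,k6,k8,k9),(k121,k121,k7,k9,k7,k9),
    (k134,k134,k8,k6,k8,k6),(k152,k171,k9,k8,k10,k11),(k155,k155,k9,k11,k9,k11),(k168,k168,k10,k8,k10,k8),(k186,205,
    k11,k10,k12,k13),(k189,k189,k11,k13,k11,k13),(202,202,k12,k10,k12,k10),(220,239,k13,k12,k14,k15),(223,223,k13,k15,
    k13,k15),(236,236,k14,k12,k14,k12),(241,241,k15,k1,k15,k1)]

/-- equations of the nodes -/
noncomputable def cD8r_55_D : List (List (List (List (ℕ × ℕ)))) :=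
  [[[[]]]]

/-- nodes -/
noncomputable def cD8r_55_n : List (QG PN) :=
  [.q (.lp 7 24 2 0xc0000000c0000000c0000000c000000090000000900000009000000090000000a0000000a0000000c0000000c0000000a0000000a0000000900000009 0x30000000300000003000000030000000200000002000000000000000000000002000000020000000300000003
    0x3030c183060c183060c1830604981860c0c3060c183060c183060c181860c0c3060c183060c183060c1830606183024c1830605981428c0630604983018c1830604981420c063060c180c60c063060c183060c183060c180c60c063060c183060c183060c183060318161cc093060c183060c1830603981020c063060c183060c1830605981020c0a3060c183060c1830604981418c0c3060c1830605983024c1830606180c28c0930605183020c1830605181020c0b30605183028c1830603181020c0730603183018c1830604980e2cc063024c183060c183060c183060318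
    0x3060c183060c183060c183060c181860c183060c183060c183060c183060c183060c183060c183060c1830306183060c183060c183060c183060c183060c183060c183060c183054a890c30c183060c183060c183060c183060c183060c183060c183060c0f181830c3060c183060c183060c182e4488b1060c183060c183060c1626346871020c183060c18305cb8b123c7952c60c183060c183060c172a3c7890c286183060c183058b0a144080f18409061060c183058b0a10387132050b0a1020c181254a983060c183060c183060c181e489060c306121e4ca89161c30c 2
    [[2],[32],[],[0x2000],[0x20000],[0x200000],[],[]]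
    [.con 1 2,.con 2 2,.con 4 2,.con 5 2,.con 6 2])]

theorem cD8r_55 : NodeU 8 cD8r_55_w [] :=
  nodeG_of (C := 5) (sy := cD8r_55_s) (st := cD8r_55_t) (D := cD8r_55_D) (Ns := cD8r_55_n) (by norm_num) (by norm_num)
    ttD8r_ok (by decide +kernel) (by decide +kernel) (by decide +kernel)

/-- classes `0 0 1 1 2 3 2 4` -/
noncomputable def cD8r_57_w : List ℕ := [k0,k0,k16,k16,k32,k48,k32,k64]

/-- symmetries -/
noncomputable def cD8r_57_s : List (Bool × ℕ × List ℕ) :=
  []

/-- steps -/
noncomputable def cD8r_57_t : List (ℕ × ℕ × ℕ × ℕ × ℕ × ℕ) :=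
  [(k1,254,k0,k1,k15,k14),(k14,k14,k0,k14,k0,k14),(k16,k35,k1,k0,k2,k3),(k18,k67,k1,k2,k4,k3),(k19,k19,k1,k3,k1,k3),
    (k21,k51,k1,k5,k3,k3),(k32,k32,k2,k0,k2,k0),(k34,k64,k2,k2,k4,k0),(k37,k48,k2,k5,k3,k0),(k50,k69,k3,k2,k4,k5),
    (k53,k53,k3,k5,k3,k5),(k66,k66,k4,k2,k4,k2),(k84,k103,k5,k4,k6,k7),(k86,k135,k5,k6,k8,k7),(k87,k87,k5,k7,k5,k7),
    (k89,k119,k5,k9,k7,k7),(k100,k100,k6,k4,k6,k4),(k102,k132,k6,k6,k8,k4),(k105,k116,k6,k9,k7,k4),(k118,k137,k7,k6,
    k8,k9),(k121,k121,k7,k9,k7,k9),(k134,k134,k8,k6,k8,k6),(k152,k171,k9,k8,k10,k11),(k155,k155,k9,k11,k9,k11),(k156,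
    235,k9,k12,k14,k11),(k159,219,k9,k15,k13,k11),(k168,k168,k10,k8,k10,k8),(k172,232,k10,k12,k14,k8),(k175,216,k10,
    k15,k13,k8),(k186,205,k11,k10,k12,k13),(k189,k189,k11,k13,k11,k13),(202,202,k12,k10,k12,k10),(220,239,k13,k12,k14,
    k15),(223,223,k13,k15,k13,k15),(236,236,k14,k12,k14,k12),(241,241,k15,k1,k15,k1)]

/-- equations of the nodes -/
noncomputable def cD8r_57_D : List (List (List (List (ℕ × ℕ)))) :=
  [[[[]]]]

/-- nodes -/
noncomputable def cD8r_57_n : List (QG PN) :=
  [.q (.lp 7 24 2 0xc000000120000000f0000000f0000000c0000000c0000000c0000000c0000000d0000000d0000000f0000000f0000000d0000000d0000000c0000000c 0x60000000300000003000000060000000600000006000000060000000500000005000000030000000300000005000000050000000600000006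
    0x3018c183060c183060c1830603182460c0f1860c063060c183060c181e60c0c1e60c093060c183060c1830606183024c183060c183060c1830604983018c183060c183060c181860c0f0c60c063060c183060c180c60c090c60c063060c183060c183060c183060318161cc093060c183060c1830603981020c063060c183060c1830605981020c0a3060c183060c1830604981418c0c3060c183060c183060c1830606180c28c093060c183060c1830605181020c0b3060c183060c1830603181020c073060c183060c1830604980e2cc063018c183060c183060c183060318
    0x3060c183060c183060c183060c180c60c183060c183060c183060c183060c183060c183060c183060c182a3c6183060c183060c183060c1824307983060c183060c183060c183048a890c30c183060c183060c183060c183060c183060c183060c18181848f181830c3060c183060c182e44a182e4488b1060c183060c18263481626346871020c183060c183060c183060c183060c183060c182a3c9182a3c7890c286183060c183054c183054a8f18409061060c183060c183060c132050b0a1020c180c60a983048612265ca983060c181860c1830609121e4ca89161c30c 2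
    [[2],[32],[],[0x2000],[0x20000],[0x200000],[],[]]
    [.con 1 2,.con 2 2,.con 4 2,.con 5 2,.con 6 2])]

theorem cD8r_57 : NodeU 8 cD8r_57_w [] :=
  nodeG_of (C := 5) (sy := cD8r_57_s) (st := cD8r_57_t) (D := cD8r_57_D) (Ns := cD8r_57_n) (by norm_num) (by norm_num)
    ttD8r_ok (by decide +kernel) (by decide +kernel) (by decide +kernel)

/-- classes `0 0 1 1 2 3 3 4` -/
noncomputable def cD8r_58_w : List ℕ := [k0,k0,k16,k16,k32,k48,k48,k64]

/-- symmetries -/
noncomputable def cD8r_58_s : List (Bool × ℕ × List ℕ) :=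
  []

/-- steps -/
noncomputable def cD8r_58_t : List (ℕ × ℕ × ℕ × ℕ × ℕ × ℕ) :=
  [(k1,254,k0,k1,k15,k14),(k14,k14,k0,k14,k0,k14),(k16,k35,k1,k0,k2,k3),(k18,k67,k1,k2,k4,k3),(k19,k19,k1,k3,k1,k3),
    (k21,k51,k1,k5,k3,k3),(k32,k32,k2,k0,k2,k0),(k34,k64,k2,k2,k4,k0),(k37,k48,k2,k5,k3,k0),(k50,k69,k3,k2,k4,k5),
    (k53,k53,k3,k5,k3,k5),(k66,k66,k4,k2,k4,k2),(k84,k103,k5,k4,k6,k7),(k86,k135,k5,k6,k8,k7),(k87,k87,k5,k7,k5,k7),
    (k89,k119,k5,k9,k7,k7),(k100,k100,k6,k4,k6,k4),(k102,k132,k6,k6,k8,k4),(k105,k116,k6,k9,k7,k4),(k118,k137,k7,k6,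
    k8,k9),(k121,k121,k7,k9,k7,k9),(k134,k134,k8,k6,k8,k6),(k152,k171,k9,k8,k10,k11),(k155,k155,k9,k11,k9,k11),(k168,
    k168,k10,k8,k10,k8),(k186,205,k11,k10,k12,k13),(k188,237,k11,k12,k14,k13),(k189,k189,k11,k13,k11,k13),(k191,221,
    k11,k15,k13,k13),(202,202,k12,k10,k12,k10),(204,234,k12,k12,k14,k10),(207,218,k12,k15,k13,k10),(220,239,k13,k12,
    k14,k15),(223,223,k13,k15,k13,k15),(236,236,k14,k12,k14,k12),(241,241,k15,k1,k15,k1)]

/-- equations of the nodes -/
noncomputable def cD8r_58_D : List (List (List (List (ℕ × ℕ)))) :=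
  [[[[]]]]

/-- nodes -/
noncomputable def cD8r_58_n : List (QG PN) :=
  [.q (.lp 7 24 2 0xc0000000c0000000c0000000c000000090000000900000009000000090000000a0000000a0000000c0000000c0000000a0000000a0000000900000009 0x30000000300000003000000030000000200000002000000000000000000000002000000020000000300000003
    0x3030c183060c183060c183060498186060c3024c183060c183060c18186060c3024c183060c183060c18186060c3024c183060c183060c1812604893018c183060c183060c183060c180c60c063060c183060c183060c180c60c063060c183060c183060c183060318161cc093060c183060c1830603981020c063060c183060c1830605981020c0a3060c183060c1830604981418c0c3060c183060c183060c1830606180c28c093060c183060c1830605181020c0b3060c183060c1830603181020c073060c183060c1830604980e2cc063024c183060c183060c183060318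
    0x3060c183060c183060c183060c181860c183060c183060c183060c1830306183060c183060c183060c18303060c3060c183060c183060c183060c183060c183060c183060c182a244890c30c183060c183060c183060c183060c183060c183060c18303c78f181830c3060c183060c183060c182e4488b1060c183060c183058b1626346871020c183060c183060c183060c183060c183060c183060c182a3c7890c286183060c183060c183054a8f18409061060c183060c183060c132050b0a1020c181254a952460c183060c183060c181e60c183060c121e4ca89161c30c 2
    [[2],[32],[],[0x2000],[0x20000],[0x200000],[],[]]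
    [.con 1 2,.con 2 2,.con 4 2,.con 5 2,.con 6 2])]

theorem cD8r_58 : NodeU 8 cD8r_58_w [] :=
  nodeG_of (C := 5) (sy := cD8r_58_s) (st := cD8r_58_t) (D := cD8r_58_D) (Ns := cD8r_58_n) (by norm_num) (by norm_num)
    ttD8r_ok (by decide +kernel) (by decide +kernel) (by decide +kernel)

/-- classes `0 0 1 1 2 3 4 2` -/
noncomputable def cD8r_59_w : List ℕ := [k0,k0,k16,k16,k32,k48,k64,k32]

/-- symmetries -/
noncomputable def cD8r_59_s : List (Bool × ℕ × List ℕ) :=
  []

/-- steps -/
noncomputable def cD8r_59_t : List (ℕ × ℕ × ℕ × ℕ × ℕ × ℕ) :=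
  [(k1,254,k0,k1,k15,k14),(k8,k174,k0,k8,k10,k14),(k11,k158,k0,k11,k9,k14),(k14,k14,k0,k14,k0,k14),(k16,k35,k1,k0,k2,
    k3),(k18,k67,k1,k2,k4,k3),(k19,k19,k1,k3,k1,k3),(k21,k51,k1,k5,k3,k3),(k32,k32,k2,k0,k2,k0),(k34,k64,k2,k2,k4,k0),
    (k37,k48,k2,k5,k3,k0),(k50,k69,k3,k2,k4,k5),(k53,k53,k3,k5,k3,k5),(k66,k66,k4,k2,k4,k2),(k84,k103,k5,k4,k6,k7),
    (k86,k135,k5,k6,k8,k7),(k87,k87,k5,k7,k5,k7),(k89,k119,k5,k9,k7,k7),(k100,k100,k6,k4,k6,k4),(k102,k132,k6,k6,k8,
    k4),(k105,k116,k6,k9,k7,k4),(k118,k137,k7,k6,k8,k9),(k121,k121,k7,k9,k7,k9),(k134,k134,k8,k6,k8,k6),(k145,251,k9,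
    k1,k15,k11),(k152,k171,k9,k8,k10,k11),(k155,k155,k9,k11,k9,k11),(k161,248,k10,k1,k15,k8),(k168,k168,k10,k8,k10,
    k8),(k186,205,k11,k10,k12,k13),(k189,k189,k11,k13,k11,k13),(202,202,k12,k10,k12,k10),(220,239,k13,k12,k14,k15),
    (223,223,k13,k15,k13,k15),(236,236,k14,k12,k14,k12),(241,241,k15,k1,k15,k1)]

/-- equations of the nodes -/
noncomputable def cD8r_59_D : List (List (List (List (ℕ × ℕ)))) :=
  [[[[]]]]

/-- nodes -/
noncomputable def cD8r_59_n : List (QG PN) :=
  [.q (.lp 7 24 2 0xc0000000c0000000c0000000c000000090000000900000009000000090000000a0000000a0000000c0000000c0000000a0000000a0000000900000009 0x30000000300000003000000030000000200000002000000000000000000000002000000020000000300000003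
    0x3030c181260c093060c1830604981860c0c3060c183060c183060c181860c0c3060c183060c183060c1830606183024c183060c183060c1830604983018c183060c183060c183024c180c60c063060c1830603183024c180c60c063060c1830603183060c183060318161cc093060c183060c1830603981020c063060c183060c1830605981020c0a3060c183060c1830604981418c0c3060c183060c183060c1830606180c28c093060c183060c1830605181020c0b3060c183060c1830603181020c073060c183060c1830604980e2cc063024c180c60c063060c183060318
    0x3060c183060c183060c183060c181860c183060c183060c183060c183060c183060c183060c183060c1830306183060c183060c183060c181254a983060c183060c183060c181e54a890c30c183060c183060c183060c183060c183060c183060c181254a8f181830c3060c183060c182860c182e4488b1060c183060c182060c1626346871020c183060c183060c183060c183060c183060c182460c182a3c7890c286183060c183060c183054a8f18409061060c183060c183060c132050b0a1020c181254a8f181830c1a447983054c181e60c1524306121e4ca89161c30c 2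
    [[2],[32],[],[0x2000],[0x20000],[0x200000],[],[]]
    [.con 1 2,.con 2 2,.con 4 2,.con 5 2,.con 6 2])]

theorem cD8r_59 : NodeU 8 cD8r_59_w [] :=
  nodeG_of (C := 5) (sy := cD8r_59_s) (st := cD8r_59_t) (D := cD8r_59_D) (Ns := cD8r_59_n) (by norm_num) (by norm_num)
    ttD8r_ok (by decide +kernel) (by decide +kernel) (by decide +kernel)

/-- classes `0 0 1 2 0 3 3 4` -/
noncomputable def cD8r_65_w : List ℕ := [k0,k0,k16,k32,k0,k48,k48,k64]

/-- symmetries -/
noncomputable def cD8r_65_s : List (Bool × ℕ × List ℕ) :=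
  []

/-- steps -/
noncomputable def cD8r_65_t : List (ℕ × ℕ × ℕ × ℕ × ℕ × ℕ) :=
  [(k1,254,k0,k1,k15,k14),(k14,k14,k0,k14,k0,k14),(k16,k35,k1,k0,k2,k3),(k18,k67,k1,k2,k4,k3),(k19,k19,k1,k3,k1,k3),
    (k21,k51,k1,k5,k3,k3),(k24,k163,k1,k8,k10,k3),(k27,k147,k1,k11,k9,k3),(k32,k32,k2,k0,k2,k0),(k34,k64,k2,k2,k4,k0),
    (k37,k48,k2,k5,k3,k0),(k40,k160,k2,k8,k10,k0),(k43,k144,k2,k11,k9,k0),(k50,k69,k3,k2,k4,k5),(k53,k53,k3,k5,k3,k5),
    (k56,k165,k3,k8,k10,k5),(k59,k149,k3,k11,k9,k5),(k66,k66,k4,k2,k4,k2),(k72,k162,k4,k8,k10,k2),(k75,k146,k4,k11,k9,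
    k2),(k84,k103,k5,k4,k6,k7),(k87,k87,k5,k7,k5,k7),(k100,k100,k6,k4,k6,k4),(k118,k137,k7,k6,k8,k9),(k121,k121,k7,k9,
    k7,k9),(k134,k134,k8,k6,k8,k6),(k152,k171,k9,k8,k10,k11),(k155,k155,k9,k11,k9,k11),(k168,k168,k10,k8,k10,k8),
    (k186,205,k11,k10,k12,k13),(k188,237,k11,k12,k14,k13),(k189,k189,k11,k13,k11,k13),(k191,221,k11,k15,k13,k13),(202,
    202,k12,k10,k12,k10),(204,234,k12,k12,k14,k10),(207,218,k12,k15,k13,k10),(220,239,k13,k12,k14,k15),(223,223,k13,
    k15,k13,k15),(236,236,k14,k12,k14,k12),(241,241,k15,k1,k15,k1)]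

/-- equations of the nodes -/
noncomputable def cD8r_65_D : List (List (List (List (ℕ × ℕ)))) :=
  [[[[]]]]

/-- nodes -/
noncomputable def cD8r_65_n : List (QG PN) :=
  [.q (.lp 8 48 2 0x18000000180000001800000018000000130000001300000014000000140000001200000012000000170000001700000015000000150000001200000012 0x50000000500000004000000040000000600000006000000010000000100000003000000030000000600000006
    0x3018303030303030303030303030123018301818301330303030303030303030183018183013303030303030303030301830181830133030303030303030303013301313300e30303030303030303030303030300e30300f303012301210300d303030300f303010303013301111300c3030303030301030300e3030303030303030303030300e30300c30303030303030303030303030300c3030113030303030303030303030301130301630303030303030301230301330301c300e143011303030301030301130301430120c3015303030301230301130300e301212300f303030300d30300c303011300f15300c30123030303030303030303030300c30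
    0x30303030303030303030303030303030183030303030303030303030303030303018183030303030303030303030303030181818303030303030303030303030303030303030303030303030303030302b1313130e1c3030303030303030303030303030303030303030303030303030302222221d0f1020303030303030303030303030303030303030303030303030303030302b1d1e0e0c183030303030303025252520121323212d303030303030303030303028291f1d1116303030303030252525201211211f1f240e12303030302323231e1011211f252a140c123030122a2a2a2530303030303030303030301e2020201b0d0c1c1a222711150f0c18 2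
    [[2],[32],[],[0x2000],[0x20000],[0x200000],[],[]]
    [.con 1 2,.con 2 2,.con 4 2,.con 5 2,.con 6 2])]

theorem cD8r_65 : NodeU 8 cD8r_65_w [] :=
  nodeG_of (C := 5) (sy := cD8r_65_s) (st := cD8r_65_t) (D := cD8r_65_D) (Ns := cD8r_65_n) (by norm_num) (by norm_num)
    ttD8r_ok (by decide +kernel) (by decide +kernel) (by decide +kernel)

/-- classes `0 0 1 2 1 3 1 4` -/
noncomputable def cD8r_70_w : List ℕ := [k0,k0,k16,k32,k16,k48,k16,k64]

/-- symmetries -/
noncomputable def cD8r_70_s : List (Bool × ℕ × List ℕ) :=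
  []

/-- steps -/
noncomputable def cD8r_70_t : List (ℕ × ℕ × ℕ × ℕ × ℕ × ℕ) :=
  [(k1,254,k0,k1,k15,k14),(k14,k14,k0,k14,k0,k14),(k16,k35,k1,k0,k2,k3),(k18,k67,k1,k2,k4,k3),(k19,k19,k1,k3,k1,k3),
    (k21,k51,k1,k5,k3,k3),(k32,k32,k2,k0,k2,k0),(k34,k64,k2,k2,k4,k0),(k37,k48,k2,k5,k3,k0),(k50,k69,k3,k2,k4,k5),
    (k53,k53,k3,k5,k3,k5),(k66,k66,k4,k2,k4,k2),(k84,k103,k5,k4,k6,k7),(k87,k87,k5,k7,k5,k7),(k88,k167,k5,k8,k10,k7),
    (k91,k151,k5,k11,k9,k7),(k92,231,k5,k12,k14,k7),(k95,215,k5,k15,k13,k7),(k100,k100,k6,k4,k6,k4),(k104,k164,k6,k8,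
    k10,k4),(k107,k148,k6,k11,k9,k4),(k108,228,k6,k12,k14,k4),(k111,212,k6,k15,k13,k4),(k118,k137,k7,k6,k8,k9),(k121,
    k121,k7,k9,k7,k9),(k134,k134,k8,k6,k8,k6),(k152,k171,k9,k8,k10,k11),(k155,k155,k9,k11,k9,k11),(k156,235,k9,k12,
    k14,k11),(k159,219,k9,k15,k13,k11),(k168,k168,k10,k8,k10,k8),(k172,232,k10,k12,k14,k8),(k175,216,k10,k15,k13,k8),
    (k186,205,k11,k10,k12,k13),(k189,k189,k11,k13,k11,k13),(202,202,k12,k10,k12,k10),(220,239,k13,k12,k14,k15),(223,
    223,k13,k15,k13,k15),(236,236,k14,k12,k14,k12),(241,241,k15,k1,k15,k1)]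

/-- equations of the nodes -/
noncomputable def cD8r_70_D : List (List (List (List (ℕ × ℕ)))) :=
  [[[[]]]]

/-- nodes -/
noncomputable def cD8r_70_n : List (QG PN) :=
  [.q (.lp 8 48 2 0x1c000000240000001a0000001a0000001a000000280000001a0000001a0000001a0000001a000000240000001c0000001c0000001c0000001b0000001b 0x40000000c0000000e0000000e000000000000000e0000000e0000000e0000000e0000000e0000000c000000040000000c0000000c0000000d0000000d
    0x30103030303030303030303030300f30203030162430300c16303020303030301630300c2430300c0c3030163030303030300c30300c3030303030303030303030300c30300c30303030303030303030243030242830301a1a30300c303030300c30300c1a30300c24303016303030303030303030300c30300c3030303030303030303030300c30300c3030303030301630300c1a3030240c30301630303030203030160c30301616303020303030303030303030303030303010300c10300f30303030303030303030103010103013303030303030303030300c301010300f303030303030303030300f300f13300e300f3030303030303030303030300e30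
    0x30303030303030303030303030303030103030303030303030303030303030303030303030303030303030303030303026160c18303030303030303030303030302424303030303030303030303030303022180c0c3030303030303030303030303030303030303030303030303030301c0c0c18181a0c18303030303030303026160c18181a24303030303030303030281818242426180c0c183030303030303030303030303030303030303030303030201618180c16222216203030303030302c22242418222e2e222c0c1030303030302628281c263030263010101030300f2f253030301b2727252f30303030301d2f2527271b253030252f0f130f0e1c 2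
    [[2],[32],[],[0x2000],[0x20000],[],[0x2000000],[]]
    [.con 1 2,.con 2 2,.con 4 2,.con 5 2,.con 7 2])]

theorem cD8r_70 : NodeU 8 cD8r_70_w [] :=
  nodeG_of (C := 5) (sy := cD8r_70_s) (st := cD8r_70_t) (D := cD8r_70_D) (Ns := cD8r_70_n) (by norm_num) (by norm_num)
    ttD8r_ok (by decide +kernel) (by decide +kernel) (by decide +kernel)

/-- classes `0 0 1 2 1 3 2 4` -/
noncomputable def cD8r_71_w : List ℕ := [k0,k0,k16,k32,k16,k48,k32,k64]

/-- symmetries -/
noncomputable def cD8r_71_s : List (Bool × ℕ × List ℕ) :=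
  []

/-- steps -/
noncomputable def cD8r_71_t : List (ℕ × ℕ × ℕ × ℕ × ℕ × ℕ) :=
  [(k1,254,k0,k1,k15,k14),(k14,k14,k0,k14,k0,k14),(k16,k35,k1,k0,k2,k3),(k18,k67,k1,k2,k4,k3),(k19,k19,k1,k3,k1,k3),
    (k21,k51,k1,k5,k3,k3),(k32,k32,k2,k0,k2,k0),(k34,k64,k2,k2,k4,k0),(k37,k48,k2,k5,k3,k0),(k50,k69,k3,k2,k4,k5),
    (k53,k53,k3,k5,k3,k5),(k66,k66,k4,k2,k4,k2),(k84,k103,k5,k4,k6,k7),(k87,k87,k5,k7,k5,k7),(k88,k167,k5,k8,k10,k7),
    (k91,k151,k5,k11,k9,k7),(k100,k100,k6,k4,k6,k4),(k104,k164,k6,k8,k10,k4),(k107,k148,k6,k11,k9,k4),(k118,k137,k7,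
    k6,k8,k9),(k121,k121,k7,k9,k7,k9),(k124,233,k7,k12,k14,k9),(k127,217,k7,k15,k13,k9),(k134,k134,k8,k6,k8,k6),(k140,
    230,k8,k12,k14,k6),(k143,214,k8,k15,k13,k6),(k152,k171,k9,k8,k10,k11),(k155,k155,k9,k11,k9,k11),(k168,k168,k10,k8,
    k10,k8),(k186,205,k11,k10,k12,k13),(k189,k189,k11,k13,k11,k13),(202,202,k12,k10,k12,k10),(220,239,k13,k12,k14,
    k15),(223,223,k13,k15,k13,k15),(236,236,k14,k12,k14,k12),(241,241,k15,k1,k15,k1)]

/-- equations of the nodes -/
noncomputable def cD8r_71_D : List (List (List (List (ℕ × ℕ)))) :=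
  [[[[]]]]

/-- nodes -/
noncomputable def cD8r_71_n : List (QG PN) :=
  [.q (.lp 7 24 2 0xf0000000f0000000c0000000c0000000c000000120000000c0000000c0000000c0000000c000000120000000c0000000d0000000d0000000d0000000d 0x3000000030000000600000006000000000000000600000006000000060000000600000006000000060000000000000005000000050000000500000005
    0x3030c183060c183060c1830605181860c0930604983024c183060c181260c0630603183018c183060c1830603183018c183060c183060c1830603183018c183060c183060c183060c182460c0c1860c063060c183060c181860c062460c0c3060c181260c0630603183018c183060c181260c0630603183018c183060c183060c181860c120c60c0c3060c183060c180c60c0c1860c123060c183060c183060c1830603180e1cc073060c183060c1830603981020c083060c183060c1830603981020c083060c183060c1830603981020c083028c183060c183060c183060418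
    0x3060c183060c183060c183060c181860c183060c183060c183060c183060c183060c183060c183060c182a2430c3060c183060c183060c183060c183060c183060c183060c18303c6060c60c183060c183060c182a2430c1860c183060c183060c18303c612243030c3060c183060c183060c1224309183060c183060c182a2430c18486060c30c183060c183060c183060c183060c183060c18305490c181861224309183060c183060c132634998304cc071060c183060c132634998304cc071020c1814589983060c132660c183060c182460c132634998304cc071020410 2
    [[2],[32],[],[0x2000],[0x20000],[],[0x2000000],[]]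
    [.con 1 2,.con 2 2,.con 4 2,.con 5 2,.con 7 2])]

theorem cD8r_71 : NodeU 8 cD8r_71_w [] :=
  nodeG_of (C := 5) (sy := cD8r_71_s) (st := cD8r_71_t) (D := cD8r_71_D) (Ns := cD8r_71_n) (by norm_num) (by norm_num)
    ttD8r_ok (by decide +kernel) (by decide +kernel) (by decide +kernel)

/-- classes `0 0 1 2 1 3 4 1` -/
noncomputable def cD8r_73_w : List ℕ := [k0,k0,k16,k32,k16,k48,k64,k16]

/-- symmetries -/
noncomputable def cD8r_73_s : List (Bool × ℕ × List ℕ) :=
  []

/-- steps -/
noncomputable def cD8r_73_t : List (ℕ × ℕ × ℕ × ℕ × ℕ × ℕ) :=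
  [(k1,254,k0,k1,k15,k14),(k4,k110,k0,k4,k6,k14),(k7,k94,k0,k7,k5,k14),(k8,k174,k0,k8,k10,k14),(k11,k158,k0,k11,k9,
    k14),(k14,k14,k0,k14,k0,k14),(k16,k35,k1,k0,k2,k3),(k18,k67,k1,k2,k4,k3),(k19,k19,k1,k3,k1,k3),(k21,k51,k1,k5,k3,
    k3),(k32,k32,k2,k0,k2,k0),(k34,k64,k2,k2,k4,k0),(k37,k48,k2,k5,k3,k0),(k50,k69,k3,k2,k4,k5),(k53,k53,k3,k5,k3,k5),
    (k66,k66,k4,k2,k4,k2),(k81,247,k5,k1,k15,k7),(k84,k103,k5,k4,k6,k7),(k87,k87,k5,k7,k5,k7),(k88,k167,k5,k8,k10,k7),
    (k91,k151,k5,k11,k9,k7),(k97,244,k6,k1,k15,k4),(k100,k100,k6,k4,k6,k4),(k104,k164,k6,k8,k10,k4),(k107,k148,k6,k11,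
    k9,k4),(k118,k137,k7,k6,k8,k9),(k121,k121,k7,k9,k7,k9),(k134,k134,k8,k6,k8,k6),(k145,251,k9,k1,k15,k11),(k152,
    k171,k9,k8,k10,k11),(k155,k155,k9,k11,k9,k11),(k161,248,k10,k1,k15,k8),(k168,k168,k10,k8,k10,k8),(k186,205,k11,
    k10,k12,k13),(k189,k189,k11,k13,k11,k13),(202,202,k12,k10,k12,k10),(220,239,k13,k12,k14,k15),(223,223,k13,k15,k13,
    k15),(236,236,k14,k12,k14,k12),(241,241,k15,k1,k15,k1)]

/-- equations of the nodes -/
noncomputable def cD8r_73_D : List (List (List (List (ℕ × ℕ)))) :=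
  [[[[]]]]

/-- nodes -/
noncomputable def cD8r_73_n : List (QG PN) :=
  [.q (.lp 7 24 2 0x100000000e0000000c0000000c0000000c000000120000000c0000000c0000000c0000000c000000120000000c0000000d0000000d0000000d0000000d 0x4000000020000000600000006000000000000000600000006000000060000000600000006000000060000000000000005000000050000000500000005
    0x3038c182060c0a0c60c1030605981460c083060c183060c183060c181060c063060c183060c183060c1830603183018c183060c183060c1830603183018c183060c183060c183040c182460c0c1860c0630606983028c181860c062460c0c30603983060c1830603183018c183060c183060c1830603183018c183060c183018c181860c120c60c0c30603983040c180c60c0c1860c1230608983060c183060c1830603180e1cc073060c183060c1830603981020c083060c183060c1830603981020c083060c183060c1830603981020c08302cc181a60c070e60c113060418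
    0x3060c183060c183060c183060c181c60c183060c183060c183060c183060c183060c183060c183060c182c2030c3060c183060c183060c182060c183060c183060c183060c182c386060c60c183060c183060c183060c183060c183060c183060c181450912243030c3060c183060c180c4071224309183060c183060c181858a1830486060c30c183060c183060c183060c183060c183060c18205090c181861224309183060c182e60c132634998304cc071060c182e60c132634998304cc071020c181654993263438d1a1c8973060c182660c1326347952a3cc071020410 2
    [[2],[32],[],[0x2000],[0x20000],[],[0x2000000],[]]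
    [.con 1 2,.con 2 2,.con 4 2,.con 5 2,.con 7 2])]

theorem cD8r_73 : NodeU 8 cD8r_73_w [] :=
  nodeG_of (C := 5) (sy := cD8r_73_s) (st := cD8r_73_t) (D := cD8r_73_D) (Ns := cD8r_73_n) (by norm_num) (by norm_num)
    ttD8r_ok (by decide +kernel) (by decide +kernel) (by decide +kernel)

/-- classes `0 0 1 2 1 3 4 2` -/
noncomputable def cD8r_74_w : List ℕ := [k0,k0,k16,k32,k16,k48,k64,k32]

/-- symmetries -/
noncomputable def cD8r_74_s : List (Bool × ℕ × List ℕ) :=
  []

/-- steps -/
noncomputable def cD8r_74_t : List (ℕ × ℕ × ℕ × ℕ × ℕ × ℕ) :=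
  [(k1,254,k0,k1,k15,k14),(k6,k142,k0,k6,k8,k14),(k9,k126,k0,k9,k7,k14),(k14,k14,k0,k14,k0,k14),(k16,k35,k1,k0,k2,k3),
    (k18,k67,k1,k2,k4,k3),(k19,k19,k1,k3,k1,k3),(k21,k51,k1,k5,k3,k3),(k32,k32,k2,k0,k2,k0),(k34,k64,k2,k2,k4,k0),
    (k37,k48,k2,k5,k3,k0),(k50,k69,k3,k2,k4,k5),(k53,k53,k3,k5,k3,k5),(k66,k66,k4,k2,k4,k2),(k84,k103,k5,k4,k6,k7),
    (k87,k87,k5,k7,k5,k7),(k88,k167,k5,k8,k10,k7),(k91,k151,k5,k11,k9,k7),(k100,k100,k6,k4,k6,k4),(k104,k164,k6,k8,
    k10,k4),(k107,k148,k6,k11,k9,k4),(k113,249,k7,k1,k15,k9),(k118,k137,k7,k6,k8,k9),(k121,k121,k7,k9,k7,k9),(k129,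
    246,k8,k1,k15,k6),(k134,k134,k8,k6,k8,k6),(k152,k171,k9,k8,k10,k11),(k155,k155,k9,k11,k9,k11),(k168,k168,k10,k8,
    k10,k8),(k186,205,k11,k10,k12,k13),(k189,k189,k11,k13,k11,k13),(202,202,k12,k10,k12,k10),(220,239,k13,k12,k14,
    k15),(223,223,k13,k15,k13,k15),(236,236,k14,k12,k14,k12),(241,241,k15,k1,k15,k1)]

/-- equations of the nodes -/
noncomputable def cD8r_74_D : List (List (List (List (ℕ × ℕ)))) :=
  [[[[]]]]

/-- nodes -/
noncomputable def cD8r_74_n : List (QG PN) :=
  [.q (.lp 7 24 2 0xf0000000f0000000c0000000c0000000c000000120000000c0000000c0000000c0000000c000000120000000c0000000d0000000d0000000d0000000d 0x3000000030000000600000006000000000000000600000006000000060000000600000006000000060000000000000005000000050000000500000005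
    0x3030c1830604983024c1830605181860c093060c183060c183060c181260c063060c183060c183060c1830603183018c183060c183060c1830603183018c183060c183060c183060c182460c0c1860c063060c183060c181860c062460c0c3060c183024c1830603183018c1830603983024c1830603183018c1830603983060c181860c120c60c0c3060c183060c180c60c0c1860c123060c183060c183060c1830603180e1cc073060c183060c1830603981020c083060c183060c1830603981020c083060c183060c1830603981020c083028c183060398301cc183060418
    0x3060c183060c183060c183060c181860c183060c183060c183060c183060c183060c183060c183060c182a2430c3060c183060c183060c183060c183060c183060c183060c18303c6060c60c183060c183060c1812549183060c183060c183060c181e60c12243030c3060c183060c183060c1224309183060c183060c18125491830486060c30c183060c183060c183060c183060c183060c182a5490c181861224309183060c183060c132634998304cc071060c183060c132634998304cc071020c181458998304c6870e349983060c182460c13263498f1e4cc071020410 2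
    [[2],[32],[],[0x2000],[0x20000],[],[0x2000000],[]]
    [.con 1 2,.con 2 2,.con 4 2,.con 5 2,.con 7 2])]

theorem cD8r_74 : NodeU 8 cD8r_74_w [] :=
  nodeG_of (C := 5) (sy := cD8r_74_s) (st := cD8r_74_t) (D := cD8r_74_D) (Ns := cD8r_74_n) (by norm_num) (by norm_num)
    ttD8r_ok (by decide +kernel) (by decide +kernel) (by decide +kernel)

/-- classes `0 0 1 2 2 3 1 4` -/
noncomputable def cD8r_77_w : List ℕ := [k0,k0,k16,k32,k32,k48,k16,k64]

/-- symmetries -/
noncomputable def cD8r_77_s : List (Bool × ℕ × List ℕ) :=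
  []

/-- steps -/
noncomputable def cD8r_77_t : List (ℕ × ℕ × ℕ × ℕ × ℕ × ℕ) :=
  [(k1,254,k0,k1,k15,k14),(k14,k14,k0,k14,k0,k14),(k16,k35,k1,k0,k2,k3),(k18,k67,k1,k2,k4,k3),(k19,k19,k1,k3,k1,k3),
    (k21,k51,k1,k5,k3,k3),(k32,k32,k2,k0,k2,k0),(k34,k64,k2,k2,k4,k0),(k37,k48,k2,k5,k3,k0),(k50,k69,k3,k2,k4,k5),
    (k53,k53,k3,k5,k3,k5),(k66,k66,k4,k2,k4,k2),(k84,k103,k5,k4,k6,k7),(k87,k87,k5,k7,k5,k7),(k92,231,k5,k12,k14,k7),
    (k95,215,k5,k15,k13,k7),(k100,k100,k6,k4,k6,k4),(k108,228,k6,k12,k14,k4),(k111,212,k6,k15,k13,k4),(k118,k137,k7,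
    k6,k8,k9),(k120,k169,k7,k8,k10,k9),(k121,k121,k7,k9,k7,k9),(k123,k153,k7,k11,k9,k9),(k134,k134,k8,k6,k8,k6),(k136,
    k166,k8,k8,k10,k6),(k139,k150,k8,k11,k9,k6),(k152,k171,k9,k8,k10,k11),(k155,k155,k9,k11,k9,k11),(k168,k168,k10,k8,
    k10,k8),(k186,205,k11,k10,k12,k13),(k189,k189,k11,k13,k11,k13),(202,202,k12,k10,k12,k10),(220,239,k13,k12,k14,
    k15),(223,223,k13,k15,k13,k15),(236,236,k14,k12,k14,k12),(241,241,k15,k1,k15,k1)]

/-- equations of the nodes -/
noncomputable def cD8r_77_D : List (List (List (List (ℕ × ℕ)))) :=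
  [[[[]]]]

/-- nodes -/
noncomputable def cD8r_77_n : List (QG PN) :=
  [.q (.lp 7 24 2 0xc0000000c00000009000000090000000c0000000c0000000a0000000a00000009000000090000000c0000000c0000000a0000000a0000000900000009 0x300000003000000000000000000000002000000020000000300000003000000000000000000000002000000020000000300000003
    0x3030c183060c183060c1830604981860c093060c181260c0c3060c181260c063060c180c60c093060c1830603183024c183060c183060c1830604983030c183060c183060c183060c18186030a3024c183060c183060c181460408302cc183060c183060c180c60408301cc183060c183060c18126038b3018c183060c181260c063060c180c60c093060c181860c093060c181260c0c3060c183060c183060c1830606180c28c093060c183060c1830605181020c0b3060c183060c1830603181020c073060c183060c1830604980e2cc063024c183060c183060c183060318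
    0x3060c183060c183060c183060c181860c183060c183060c183060c183060c183060c183060c183060c182a2430c3060c183060c183060c183060c183060c183060c183060c1830487891860c183060c183060c183060a8f24184183060c183060c183060c132c284083060c183060c182a2430c1e60c153060c183060c18303c6122a245870c30c183060c183060c183060c183060c183060c18303048f2448a101e246183060c1830487953060c162a3c9061060c1830589983060c18304cb0a1020c1812549183060c183048a983060c181e549183060c183048a89161c30c 2
    [[2],[32],[],[0x2000],[0x20000],[],[0x2000000],[]]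
    [.con 1 2,.con 2 2,.con 4 2,.con 5 2,.con 7 2])]

theorem cD8r_77 : NodeU 8 cD8r_77_w [] :=
  nodeG_of (C := 5) (sy := cD8r_77_s) (st := cD8r_77_t) (D := cD8r_77_D) (Ns := cD8r_77_n) (by norm_num) (by norm_num)
    ttD8r_ok (by decide +kernel) (by decide +kernel) (by decide +kernel)

/-- classes `0 0 1 2 3 1 2 4` -/
noncomputable def cD8r_78_w : List ℕ := [k0,k0,k16,k32,k48,k16,k32,k64]

/-- symmetries -/
noncomputable def cD8r_78_s : List (Bool × ℕ × List ℕ) :=
  []

/-- steps -/
noncomputable def cD8r_78_t : List (ℕ × ℕ × ℕ × ℕ × ℕ × ℕ) :=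
  [(k1,254,k0,k1,k15,k14),(k14,k14,k0,k14,k0,k14),(k16,k35,k1,k0,k2,k3),(k18,k67,k1,k2,k4,k3),(k19,k19,k1,k3,k1,k3),
    (k21,k51,k1,k5,k3,k3),(k32,k32,k2,k0,k2,k0),(k34,k64,k2,k2,k4,k0),(k37,k48,k2,k5,k3,k0),(k50,k69,k3,k2,k4,k5),
    (k53,k53,k3,k5,k3,k5),(k66,k66,k4,k2,k4,k2),(k84,k103,k5,k4,k6,k7),(k87,k87,k5,k7,k5,k7),(k90,k199,k5,k10,k12,k7),
    (k93,k183,k5,k13,k11,k7),(k100,k100,k6,k4,k6,k4),(k106,k196,k6,k10,k12,k4),(k109,k180,k6,k13,k11,k4),(k118,k137,
    k7,k6,k8,k9),(k121,k121,k7,k9,k7,k9),(k124,233,k7,k12,k14,k9),(k127,217,k7,k15,k13,k9),(k134,k134,k8,k6,k8,k6),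
    (k140,230,k8,k12,k14,k6),(k143,214,k8,k15,k13,k6),(k152,k171,k9,k8,k10,k11),(k155,k155,k9,k11,k9,k11),(k168,k168,
    k10,k8,k10,k8),(k186,205,k11,k10,k12,k13),(k189,k189,k11,k13,k11,k13),(202,202,k12,k10,k12,k10),(220,239,k13,k12,
    k14,k15),(223,223,k13,k15,k13,k15),(236,236,k14,k12,k14,k12),(241,241,k15,k1,k15,k1)]

/-- equations of the nodes -/
noncomputable def cD8r_78_D : List (List (List (List (ℕ × ℕ)))) :=
  [[[[]]]]

/-- nodes -/
noncomputable def cD8r_78_n : List (QG PN) :=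
  [.q (.lp 7 24 2 0xc0000000c0000000c0000000c0000000900000009000000090000000900000009000000090000000c0000000c0000000a0000000a0000000900000009 0x30000000300000003000000030000000300000003000000000000000000000002000000020000000300000003
    0x3030c183060c183060c1830604981860c0c30603183024c183060c181860c0c30604983030c183060c1830606183024c181860c063060c1830604983018c181860c063060c183060c180c60c063060c183060c183060c180c60c063060c183060c180c60c0930603183018c183060c181260c0c30603183018c183060c1830606183030c180c60c093060c1830603183018c181260c0c3060c183060c183060c1830606180c28c093060c183060c1830605181020c0b3060c183060c1830603181020c073060c183060c1830604980e2cc063024c183060c183060c183060318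
    0x3060c183060c183060c183060c181860c183060c183060c183060c183060c183060c183060c183060c1830306183060c183060c183060c183060c183060c183060c183060c183054a890c30c183060c183060c1824184952460c183060c183060c18303078f181830c3060c183060c183060c0c18489153060c183060c182a2461224306060c30c183060c183060c183060c183060c183060c1830489060c3060f1e246183060c183060c0c18489152a3c9061060c183060c102058b18304cb0a1020c181254a983054a8f2460c183060c181e60c0f1e54a953048a89161c30c 2
    [[2],[32],[],[0x2000],[0x20000],[0x200000],[],[]]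
    [.con 1 2,.con 2 2,.con 4 2,.con 5 2,.con 6 2])]

theorem cD8r_78 : NodeU 8 cD8r_78_w [] :=
  nodeG_of (C := 5) (sy := cD8r_78_s) (st := cD8r_78_t) (D := cD8r_78_D) (Ns := cD8r_78_n) (by norm_num) (by norm_num)
    ttD8r_ok (by decide +kernel) (by decide +kernel) (by decide +kernel)

/-- classes `0 0 1 2 3 1 3 4` -/
noncomputable def cD8r_79_w : List ℕ := [k0,k0,k16,k32,k48,k16,k48,k64]

/-- symmetries -/
noncomputable def cD8r_79_s : List (Bool × ℕ × List ℕ) :=
  []

/-- steps -/
noncomputable def cD8r_79_t : List (ℕ × ℕ × ℕ × ℕ × ℕ × ℕ) :=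
  [(k1,254,k0,k1,k15,k14),(k14,k14,k0,k14,k0,k14),(k16,k35,k1,k0,k2,k3),(k18,k67,k1,k2,k4,k3),(k19,k19,k1,k3,k1,k3),
    (k21,k51,k1,k5,k3,k3),(k32,k32,k2,k0,k2,k0),(k34,k64,k2,k2,k4,k0),(k37,k48,k2,k5,k3,k0),(k50,k69,k3,k2,k4,k5),
    (k53,k53,k3,k5,k3,k5),(k66,k66,k4,k2,k4,k2),(k84,k103,k5,k4,k6,k7),(k87,k87,k5,k7,k5,k7),(k90,k199,k5,k10,k12,k7),
    (k93,k183,k5,k13,k11,k7),(k100,k100,k6,k4,k6,k4),(k106,k196,k6,k10,k12,k4),(k109,k180,k6,k13,k11,k4),(k118,k137,
    k7,k6,k8,k9),(k121,k121,k7,k9,k7,k9),(k134,k134,k8,k6,k8,k6),(k152,k171,k9,k8,k10,k11),(k155,k155,k9,k11,k9,k11),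
    (k156,235,k9,k12,k14,k11),(k159,219,k9,k15,k13,k11),(k168,k168,k10,k8,k10,k8),(k172,232,k10,k12,k14,k8),(k175,216,
    k10,k15,k13,k8),(k186,205,k11,k10,k12,k13),(k189,k189,k11,k13,k11,k13),(202,202,k12,k10,k12,k10),(220,239,k13,k12,
    k14,k15),(223,223,k13,k15,k13,k15),(236,236,k14,k12,k14,k12),(241,241,k15,k1,k15,k1)]

/-- equations of the nodes -/
noncomputable def cD8r_79_D : List (List (List (List (ℕ × ℕ)))) :=
  [[[[]]]]

/-- nodes -/
noncomputable def cD8r_79_n : List (QG PN) :=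
  [.q (.lp 7 24 2 0xc000000120000000f0000000f0000000c0000000c0000000c0000000c0000000c0000000c0000000f0000000f0000000d0000000d0000000c0000000c 0x60000000300000003000000060000000600000006000000060000000600000006000000030000000300000005000000050000000600000006
    0x3018c183060c183060c1830603182460c0f1860c063060c183060c181e60c0c1e60c093060c183060c1830606183024c181260c063060c1830604983018c181860c093060c181860c0f0c60c063060c183060c180c60c090c60c063060c183060c183060c1830603183018c183060c183060c1830603183018c183060c1830604983030c180c60c093060c1830603183024c181260c0c3060c183060c183060c1830606180c28c093060c183060c1830605181020c0b3060c183060c1830603181020c073060c183060c1830604980e2cc063018c183060c183060c183060318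
    0x3060c183060c183060c183060c180c60c183060c183060c183060c183060c183060c183060c183060c182a3c6183060c183060c183060c1824307983060c183060c183060c183048a890c30c183060c183060c183060c183060c183060c183060c18181848f181830c3060c183060c183060a8918489183060c183060c18243078f24306060c30c183060c183060c183060c183060c183060c183054906123c78f1e246183060c183060c0c1e54a952a3c9061060c183060c102660c18304cb0a1020c180c60a9830486122460c183060c181860c0f24609183048a89161c30c 2
    [[2],[32],[],[0x2000],[0x20000],[0x200000],[],[]]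
    [.con 1 2,.con 2 2,.con 4 2,.con 5 2,.con 6 2])]

theorem cD8r_79 : NodeU 8 cD8r_79_w [] :=
  nodeG_of (C := 5) (sy := cD8r_79_s) (st := cD8r_79_t) (D := cD8r_79_D) (Ns := cD8r_79_n) (by norm_num) (by norm_num)
    ttD8r_ok (by decide +kernel) (by decide +kernel) (by decide +kernel)

/-- classes `0 0 1 2 3 1 4 2` -/
noncomputable def cD8r_80_w : List ℕ := [k0,k0,k16,k32,k48,k16,k64,k32]

/-- symmetries -/
noncomputable def cD8r_80_s : List (Bool × ℕ × List ℕ) :=
  []

/-- steps -/
noncomputable def cD8r_80_t : List (ℕ × ℕ × ℕ × ℕ × ℕ × ℕ) :=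
  [(k1,254,k0,k1,k15,k14),(k6,k142,k0,k6,k8,k14),(k9,k126,k0,k9,k7,k14),(k14,k14,k0,k14,k0,k14),(k16,k35,k1,k0,k2,k3),
    (k18,k67,k1,k2,k4,k3),(k19,k19,k1,k3,k1,k3),(k21,k51,k1,k5,k3,k3),(k32,k32,k2,k0,k2,k0),(k34,k64,k2,k2,k4,k0),
    (k37,k48,k2,k5,k3,k0),(k50,k69,k3,k2,k4,k5),(k53,k53,k3,k5,k3,k5),(k66,k66,k4,k2,k4,k2),(k84,k103,k5,k4,k6,k7),
    (k87,k87,k5,k7,k5,k7),(k90,k199,k5,k10,k12,k7),(k93,k183,k5,k13,k11,k7),(k100,k100,k6,k4,k6,k4),(k106,k196,k6,k10,
    k12,k4),(k109,k180,k6,k13,k11,k4),(k113,249,k7,k1,k15,k9),(k118,k137,k7,k6,k8,k9),(k121,k121,k7,k9,k7,k9),(k129,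
    246,k8,k1,k15,k6),(k134,k134,k8,k6,k8,k6),(k152,k171,k9,k8,k10,k11),(k155,k155,k9,k11,k9,k11),(k168,k168,k10,k8,
    k10,k8),(k186,205,k11,k10,k12,k13),(k189,k189,k11,k13,k11,k13),(202,202,k12,k10,k12,k10),(220,239,k13,k12,k14,
    k15),(223,223,k13,k15,k13,k15),(236,236,k14,k12,k14,k12),(241,241,k15,k1,k15,k1)]

/-- equations of the nodes -/
noncomputable def cD8r_80_D : List (List (List (List (ℕ × ℕ)))) :=
  [[[[]]]]

/-- nodes -/
noncomputable def cD8r_80_n : List (QG PN) :=
  [.q (.lp 7 24 2 0xc0000000c0000000c0000000c0000000900000009000000090000000900000009000000090000000c0000000c0000000a0000000a0000000900000009 0x30000000300000003000000030000000300000003000000000000000000000002000000020000000300000003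
    0x3030c1830604983024c1830604981860c0c3060c183060c183060c181860c0c3060c183060c183060c1830606183024c181260c063060c1830604983018c181860c093060c183060c180c60c063060c183060c183060c180c60c063060c183060c183024c1830603183018c1830603183024c1830603183018c18306031830604983030c180c60c093060c1830603183024c181260c0c3060c183060c183060c1830606180c28c093060c183060c1830605181020c0b3060c183060c1830603181020c073060c183060c1830604980e2cc063024c1830603183018c183060318
    0x3060c183060c183060c183060c181860c183060c183060c183060c183060c183060c183060c183060c1830306183060c183060c183060c183060c183060c183060c183060c183054a890c30c183060c183060c181254a983060c183060c183060c181e60c0f181830c3060c183060c183054a8918489183060c183060c181254a8f24306060c30c183060c183060c183060c183060c183060c182448906123c78f1e246183060c183060c0c1e54a952a3c9061060c183060c102660c18304cb0a1020c181254a8f24306060c307983054c181e60c0f244890c1848a89161c30c 2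
    [[2],[32],[],[0x2000],[0x20000],[0x200000],[],[]]
    [.con 1 2,.con 2 2,.con 4 2,.con 5 2,.con 6 2])]

theorem cD8r_80 : NodeU 8 cD8r_80_w [] :=
  nodeG_of (C := 5) (sy := cD8r_80_s) (st := cD8r_80_t) (D := cD8r_80_D) (Ns := cD8r_80_n) (by norm_num) (by norm_num)
    ttD8r_ok (by decide +kernel) (by decide +kernel) (by decide +kernel)

/-- classes `0 0 1 2 3 1 4 3` -/
noncomputable def cD8r_81_w : List ℕ := [k0,k0,k16,k32,k48,k16,k64,k48]

/-- symmetries -/
noncomputable def cD8r_81_s : List (Bool × ℕ × List ℕ) :=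
  []

/-- steps -/
noncomputable def cD8r_81_t : List (ℕ × ℕ × ℕ × ℕ × ℕ × ℕ) :=
  [(k1,254,k0,k1,k15,k14),(k8,k174,k0,k8,k10,k14),(k11,k158,k0,k11,k9,k14),(k14,k14,k0,k14,k0,k14),(k16,k35,k1,k0,k2,
    k3),(k18,k67,k1,k2,k4,k3),(k19,k19,k1,k3,k1,k3),(k21,k51,k1,k5,k3,k3),(k32,k32,k2,k0,k2,k0),(k34,k64,k2,k2,k4,k0),
    (k37,k48,k2,k5,k3,k0),(k50,k69,k3,k2,k4,k5),(k53,k53,k3,k5,k3,k5),(k66,k66,k4,k2,k4,k2),(k84,k103,k5,k4,k6,k7),
    (k87,k87,k5,k7,k5,k7),(k90,k199,k5,k10,k12,k7),(k93,k183,k5,k13,k11,k7),(k100,k100,k6,k4,k6,k4),(k106,k196,k6,k10,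
    k12,k4),(k109,k180,k6,k13,k11,k4),(k118,k137,k7,k6,k8,k9),(k121,k121,k7,k9,k7,k9),(k134,k134,k8,k6,k8,k6),(k145,
    251,k9,k1,k15,k11),(k152,k171,k9,k8,k10,k11),(k155,k155,k9,k11,k9,k11),(k161,248,k10,k1,k15,k8),(k168,k168,k10,k8,
    k10,k8),(k186,205,k11,k10,k12,k13),(k189,k189,k11,k13,k11,k13),(202,202,k12,k10,k12,k10),(220,239,k13,k12,k14,
    k15),(223,223,k13,k15,k13,k15),(236,236,k14,k12,k14,k12),(241,241,k15,k1,k15,k1)]

/-- equations of the nodes -/
noncomputable def cD8r_81_D : List (List (List (List (ℕ × ℕ)))) :=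
  [[[[]]]]

/-- nodes -/
noncomputable def cD8r_81_n : List (QG PN) :=
  [.q (.lp 7 24 2 0xc0000000c0000000c0000000c0000000900000009000000090000000900000009000000090000000c0000000c0000000a0000000a0000000900000009 0x30000000300000003000000030000000300000003000000000000000000000002000000020000000300000003
    0x3030c181260c093060c1830604981860c0c3060c183060c183060c181860c0c3060c183060c183060c1830606183024c181260c063060c1830604983018c181860c093060c183024c180c60c063060c1830603183024c180c60c063060c1830603183060c1830603183018c183060c183060c1830603183018c183060c1830604983030c180c60c093060c1830603183024c181260c0c3060c183060c183060c1830606180c28c093060c183060c1830605181020c0b3060c183060c1830603181020c073060c183060c1830604980e2cc063024c180c60c063060c183060318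
    0x3060c183060c183060c183060c181860c183060c183060c183060c183060c183060c183060c183060c1830306183060c183060c183060c181254a983060c183060c183060c181e54a890c30c183060c183060c183060c183060c183060c183060c181254a8f181830c3060c183060c182a54a8918489183060c183060c181e60c0f24306060c30c183060c183060c183060c183060c183060c182448906123c78f1e246183060c183060c0c1e54a952a3c9061060c183060c102660c18304cb0a1020c181254a8f181830c18487983054c181e60c0f24306122448a89161c30c 2
    [[2],[32],[],[0x2000],[0x20000],[0x200000],[],[]]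
    [.con 1 2,.con 2 2,.con 4 2,.con 5 2,.con 6 2])]

theorem cD8r_81 : NodeU 8 cD8r_81_w [] :=
  nodeG_of (C := 5) (sy := cD8r_81_s) (st := cD8r_81_t) (D := cD8r_81_D) (Ns := cD8r_81_n) (by norm_num) (by norm_num)
    ttD8r_ok (by decide +kernel) (by decide +kernel) (by decide +kernel)

/-- classes `0 0 1 2 3 2 3 4` -/
noncomputable def cD8r_83_w : List ℕ := [k0,k0,k16,k32,k48,k32,k48,k64]

/-- symmetries -/
noncomputable def cD8r_83_s : List (Bool × ℕ × List ℕ) :=
  []

/-- steps -/
noncomputable def cD8r_83_t : List (ℕ × ℕ × ℕ × ℕ × ℕ × ℕ) :=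
  [(k1,254,k0,k1,k15,k14),(k14,k14,k0,k14,k0,k14),(k16,k35,k1,k0,k2,k3),(k18,k67,k1,k2,k4,k3),(k19,k19,k1,k3,k1,k3),
    (k21,k51,k1,k5,k3,k3),(k32,k32,k2,k0,k2,k0),(k34,k64,k2,k2,k4,k0),(k37,k48,k2,k5,k3,k0),(k50,k69,k3,k2,k4,k5),
    (k53,k53,k3,k5,k3,k5),(k66,k66,k4,k2,k4,k2),(k84,k103,k5,k4,k6,k7),(k87,k87,k5,k7,k5,k7),(k100,k100,k6,k4,k6,k4),
    (k118,k137,k7,k6,k8,k9),(k121,k121,k7,k9,k7,k9),(k122,201,k7,k10,k12,k9),(k125,k185,k7,k13,k11,k9),(k134,k134,k8,
    k6,k8,k6),(k138,k198,k8,k10,k12,k6),(k141,k182,k8,k13,k11,k6),(k152,k171,k9,k8,k10,k11),(k155,k155,k9,k11,k9,k11),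
    (k156,235,k9,k12,k14,k11),(k159,219,k9,k15,k13,k11),(k168,k168,k10,k8,k10,k8),(k172,232,k10,k12,k14,k8),(k175,216,
    k10,k15,k13,k8),(k186,205,k11,k10,k12,k13),(k189,k189,k11,k13,k11,k13),(202,202,k12,k10,k12,k10),(220,239,k13,k12,
    k14,k15),(223,223,k13,k15,k13,k15),(236,236,k14,k12,k14,k12),(241,241,k15,k1,k15,k1)]

/-- equations of the nodes -/
noncomputable def cD8r_83_D : List (List (List (List (ℕ × ℕ)))) :=
  [[[[]]]]

/-- nodes -/
noncomputable def cD8r_83_n : List (QG PN) :=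
  [.q (.lp 7 24 2 0xc0000000c0000000c000000120000000f0000000f0000000c0000000c0000000c0000000c0000000f0000000f0000000d0000000d0000000c0000000c 0x6000000060000000000000006000000030000000300000006000000060000000600000006000000030000000300000005000000050000000600000006
    0x3018c183060c183060c1830603180c60c060c60c063060c183060c180c60c061260c093060c183060c183060918303c7983018c183060c18306079830307983018c183060c180c60c091860c093060c183060c180c60c091260c063060c183060c183060798303c3183018c183060c18306031830183183018c183060c183060c183060c180c60c093060c183060c183060c181260c0c3060c183060c183060c1830606180c28c093060c183060c1830605181020c0b3060c183060c1830603181020c073060c183060c1830604980e2cc063018c183060c183060c183060318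
    0x3060c183060c183060c183060c180c30c183060c183060c183060c183060c183060c183060c183060c1818183183060c183060c183060c1818184983060c183060c183060c183048a8f1860c183060c183060c183054a8f1e60c183060c183060c1818184952a2430c3060c183060c183060c183060c183060c183060c1824306060c3c6060c30c183060c183060c183060c183060c183060c183054a8f1e60a8f1e246183060c183060c152a60c152a3c9061060c183060c183060c18304cb0a1020c180c3061830306122460c183060c18184891830489183048a89161c30c 2
    [[2],[32],[],[0x2000],[0x20000],[],[],[0x20000000]]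
    [.con 1 2,.con 2 2,.con 4 2,.con 5 2,.con 8 2])]

theorem cD8r_83 : NodeU 8 cD8r_83_w [] :=
  nodeG_of (C := 5) (sy := cD8r_83_s) (st := cD8r_83_t) (D := cD8r_83_D) (Ns := cD8r_83_n) (by norm_num) (by norm_num)
    ttD8r_ok (by decide +kernel) (by decide +kernel) (by decide +kernel)

/-- classes `0 0 1 2 3 3 1 4` -/
noncomputable def cD8r_85_w : List ℕ := [k0,k0,k16,k32,k48,k48,k16,k64]

/-- symmetries -/
noncomputable def cD8r_85_s : List (Bool × ℕ × List ℕ) :=
  []

/-- steps -/
noncomputable def cD8r_85_t : List (ℕ × ℕ × ℕ × ℕ × ℕ × ℕ) :=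
  [(k1,254,k0,k1,k15,k14),(k14,k14,k0,k14,k0,k14),(k16,k35,k1,k0,k2,k3),(k18,k67,k1,k2,k4,k3),(k19,k19,k1,k3,k1,k3),
    (k21,k51,k1,k5,k3,k3),(k32,k32,k2,k0,k2,k0),(k34,k64,k2,k2,k4,k0),(k37,k48,k2,k5,k3,k0),(k50,k69,k3,k2,k4,k5),
    (k53,k53,k3,k5,k3,k5),(k66,k66,k4,k2,k4,k2),(k84,k103,k5,k4,k6,k7),(k87,k87,k5,k7,k5,k7),(k92,231,k5,k12,k14,k7),
    (k95,215,k5,k15,k13,k7),(k100,k100,k6,k4,k6,k4),(k108,228,k6,k12,k14,k4),(k111,212,k6,k15,k13,k4),(k118,k137,k7,
    k6,k8,k9),(k121,k121,k7,k9,k7,k9),(k134,k134,k8,k6,k8,k6),(k152,k171,k9,k8,k10,k11),(k154,203,k9,k10,k12,k11),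
    (k155,k155,k9,k11,k9,k11),(k157,k187,k9,k13,k11,k11),(k168,k168,k10,k8,k10,k8),(k170,200,k10,k10,k12,k8),(k173,
    k184,k10,k13,k11,k8),(k186,205,k11,k10,k12,k13),(k189,k189,k11,k13,k11,k13),(202,202,k12,k10,k12,k10),(220,239,
    k13,k12,k14,k15),(223,223,k13,k15,k13,k15),(236,236,k14,k12,k14,k12),(241,241,k15,k1,k15,k1)]

/-- equations of the nodes -/
noncomputable def cD8r_85_D : List (List (List (List (ℕ × ℕ)))) :=
  [[[[]]]]

/-- nodes -/
noncomputable def cD8r_85_n : List (QG PN) :=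
  [.q (.lp 7 24 2 0xc0000000c0000000c0000000c0000000a0000000a000000090000000900000009000000090000000c0000000c0000000a0000000a0000000900000009 0x20000000200000003000000030000000300000003000000000000000000000002000000020000000300000003
    0x3030c183060c183060c1830604981860c0c3060c181260c0c3060c181860c0c3060c181260c0c3060c1830606180c28c093060c183060c1830605181020c0b3060c183060c1830603181020c073060c183060c1830604980e2cc063060c183060c183060c1830603183018c183060c183060c1830603183018c183060c181260c093060c180c60c093060c181860c0c3060c181260c0c3060c183060c183060c1830606180c28c093060c183060c1830605181020c0b3060c183060c1830603181020c073060c183060c1830604980e2cc063024c183060c183060c183060318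
    0x3060c183060c183060c183060c181860c183060c183060c183060c183060c183060c183060c183060c1830306183060c183060c183060c1830489061060c183060c183060c183058b0a1020c183060c183060c183060c183060c183060c183060c183054a89161c30c3060c183060c182a24495263c9183060c183060c18303c78f22346060c30c183060c183060c183060c183060c183060c1830306182c48a8f1e246183060c1830489183060c152a3c9061060c183058b183060c18304cb0a1020c181254a983060c183048a983060c181e54a983060c183048a89161c30c 2
    [[2],[32],[],[0x2000],[0x20000],[0x200000],[],[]]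
    [.con 1 2,.con 2 2,.con 4 2,.con 5 2,.con 6 2])]

theorem cD8r_85 : NodeU 8 cD8r_85_w [] :=
  nodeG_of (C := 5) (sy := cD8r_85_s) (st := cD8r_85_t) (D := cD8r_85_D) (Ns := cD8r_85_n) (by norm_num) (by norm_num)
    ttD8r_ok (by decide +kernel) (by decide +kernel) (by decide +kernel)

/-- classes `0 0 1 2 3 4 1 2` -/
noncomputable def cD8r_87_w : List ℕ := [k0,k0,k16,k32,k48,k64,k16,k32]

/-- symmetries -/
noncomputable def cD8r_87_s : List (Bool × ℕ × List ℕ) :=
  []

/-- steps -/
noncomputable def cD8r_87_t : List (ℕ × ℕ × ℕ × ℕ × ℕ × ℕ) :=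
  [(k1,254,k0,k1,k15,k14),(k6,k142,k0,k6,k8,k14),(k9,k126,k0,k9,k7,k14),(k14,k14,k0,k14,k0,k14),(k16,k35,k1,k0,k2,k3),
    (k18,k67,k1,k2,k4,k3),(k19,k19,k1,k3,k1,k3),(k21,k51,k1,k5,k3,k3),(k32,k32,k2,k0,k2,k0),(k34,k64,k2,k2,k4,k0),
    (k37,k48,k2,k5,k3,k0),(k50,k69,k3,k2,k4,k5),(k53,k53,k3,k5,k3,k5),(k66,k66,k4,k2,k4,k2),(k84,k103,k5,k4,k6,k7),
    (k87,k87,k5,k7,k5,k7),(k92,231,k5,k12,k14,k7),(k95,215,k5,k15,k13,k7),(k100,k100,k6,k4,k6,k4),(k108,228,k6,k12,
    k14,k4),(k111,212,k6,k15,k13,k4),(k113,249,k7,k1,k15,k9),(k118,k137,k7,k6,k8,k9),(k121,k121,k7,k9,k7,k9),(k129,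
    246,k8,k1,k15,k6),(k134,k134,k8,k6,k8,k6),(k152,k171,k9,k8,k10,k11),(k155,k155,k9,k11,k9,k11),(k168,k168,k10,k8,
    k10,k8),(k186,205,k11,k10,k12,k13),(k189,k189,k11,k13,k11,k13),(202,202,k12,k10,k12,k10),(220,239,k13,k12,k14,
    k15),(223,223,k13,k15,k13,k15),(236,236,k14,k12,k14,k12),(241,241,k15,k1,k15,k1)]

/-- equations of the nodes -/
noncomputable def cD8r_87_D : List (List (List (List (ℕ × ℕ)))) :=
  [[[[]]]]

/-- nodes -/
noncomputable def cD8r_87_n : List (QG PN) :=
  [.q (.lp 7 24 2 0xc0000000c0000000c0000000c0000000900000009000000090000000900000009000000090000000c0000000c0000000a0000000a0000000900000009 0x30000000300000003000000030000000300000003000000000000000000000002000000020000000300000003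
    0x3030c1830604983024c1830604981860c0c3060c181e60c0c3060c181860c0c3060c181260c063060c1830606183024c183060c183060c1830604983018c183060c183060c183060c180c60c063060c183060c183060c180c60c063060c183060c183024c1830603183018c1830603183024c1830603183018c1830603181e60c093060c180c60c093060c181860c063060c181260c0c3060c183060c183060c1830606180c28c093060c183060c1830605181020c0b3060c183060c1830603181020c073060c183060c1830604980e2cc063024c1830603183018c183060318
    0x3060c183060c183060c183060c181860c183060c183060c183060c183060c183060c183060c183060c1830306183060c183060c183060c183060c183060c183060c183060c183054a890c30c183060c183060c181254a983060c183060c183060c181e60c0f181830c3060c183060c18303c4952460c183060c183060c18125479524306060c30c183060c183060c183060c183060c183060c1824303121e54a8f1e246183060c1830486182a60c152a3c9061060c1830588183060c18304cb0a1020c18125479524306060c307983054c181e54798304890c1848a89161c30c 2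
    [[2],[32],[],[0x2000],[0x20000],[0x200000],[],[]]
    [.con 1 2,.con 2 2,.con 4 2,.con 5 2,.con 6 2])]

theorem cD8r_87 : NodeU 8 cD8r_87_w [] :=
  nodeG_of (C := 5) (sy := cD8r_87_s) (st := cD8r_87_t) (D := cD8r_87_D) (Ns := cD8r_87_n) (by norm_num) (by norm_num)
    ttD8r_ok (by decide +kernel) (by decide +kernel) (by decide +kernel)

/-- classes `0 0 0 1 1 0 2 3` -/
noncomputable def cD8r_131_w : List ℕ := [k0,k0,k0,k16,k16,k0,k32,k48]

/-- symmetries -/
noncomputable def cD8r_131_s : List (Bool × ℕ × List ℕ) :=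
  []

/-- steps -/
noncomputable def cD8r_131_t : List (ℕ × ℕ × ℕ × ℕ × ℕ × ℕ) :=
  [(k1,254,k0,k1,k15,k14),(k14,k14,k0,k14,k0,k14),(k16,k35,k1,k0,k2,k3),(k18,k67,k1,k2,k4,k3),(k19,k19,k1,k3,k1,k3),
    (k20,k99,k1,k4,k6,k3),(k21,k51,k1,k5,k3,k3),(k23,k83,k1,k7,k5,k3),(k26,k195,k1,k10,k12,k3),(k29,k179,k1,k13,k11,
    k3),(k32,k32,k2,k0,k2,k0),(k34,k64,k2,k2,k4,k0),(k36,k96,k2,k4,k6,k0),(k37,k48,k2,k5,k3,k0),(k39,k80,k2,k7,k5,k0),
    (k42,k192,k2,k10,k12,k0),(k45,k176,k2,k13,k11,k0),(k50,k69,k3,k2,k4,k5),(k52,k101,k3,k4,k6,k5),(k53,k53,k3,k5,k3,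
    k5),(k55,k85,k3,k7,k5,k5),(k58,k197,k3,k10,k12,k5),(k61,k181,k3,k13,k11,k5),(k66,k66,k4,k2,k4,k2),(k68,k98,k4,k4,
    k6,k2),(k71,k82,k4,k7,k5,k2),(k74,k194,k4,k10,k12,k2),(k77,k178,k4,k13,k11,k2),(k84,k103,k5,k4,k6,k7),(k87,k87,k5,
    k7,k5,k7),(k90,k199,k5,k10,k12,k7),(k93,k183,k5,k13,k11,k7),(k100,k100,k6,k4,k6,k4),(k106,k196,k6,k10,k12,k4),
    (k109,k180,k6,k13,k11,k4),(k118,k137,k7,k6,k8,k9),(k120,k169,k7,k8,k10,k9),(k121,k121,k7,k9,k7,k9),(k123,k153,k7,
    k11,k9,k9),(k134,k134,k8,k6,k8,k6),(k136,k166,k8,k8,k10,k6),(k139,k150,k8,k11,k9,k6),(k152,k171,k9,k8,k10,k11),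
    (k155,k155,k9,k11,k9,k11),(k168,k168,k10,k8,k10,k8),(k186,205,k11,k10,k12,k13),(k189,k189,k11,k13,k11,k13),(202,
    202,k12,k10,k12,k10),(220,239,k13,k12,k14,k15),(223,223,k13,k15,k13,k15),(236,236,k14,k12,k14,k12),(241,241,k15,
    k1,k15,k1)]

/-- equations of the nodes -/
noncomputable def cD8r_131_D : List (List (List (List (ℕ × ℕ)))) :=
  [[[[]]]]

/-- nodes -/
noncomputable def cD8r_131_n : List (QG PN) :=
  [.q (.lp 7 24 2 0xb0000000b0000000c000000100000000b0000000b0000000d0000000b0000000d0000000d0000000e0000000e0000000d0000000d0000000b0000000b 0x5000000050000000000000004000000050000000500000005000000030000000300000003000000020000000200000003000000030000000500000005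
    0x3018c183060c183060c1830603180c60c073060c183060c183060c180e60c083060c183060c183060c183060818302cc181a606061a34c0b30605983018c1820604891028c063060c180c605083020c183060c183060c18106040a3018c183060c183060c1814603083020c183060c183060c1810604063028c183060c1830606983040c181c6038b1428c0630603183024c1816606081a3cc0930606183024c180e6080c122cc0930606983028c18146058f1418c0a30606983020c18146048d1428c0830605983018c180c604891028c063018c183060c183060c183060318
    0x3060c183060c183060c183060c180c30c183060c183060c183060c183060c183060c183060c183060c181a1c4183060c183060c183060c183060c183060c183060c183060c18304898b0c30c183060c183060c183060c1520284183060c183060c183060c131c205083060c183060c183050a8d2058c183060c183060c183060c131c203081460c183060c18304ca0c123c68f221c6183060c182634706123c893222c40c3060c183050a8d103881220286891460c183050a8d1440812242878b0c28c180c306983060c1830609983060c18184898b0c3060e1c18489142030c 2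
    [[2],[32],[],[],[0x20000],[0x200000],[],[0x20000000]]
    [.con 1 2,.con 2 2,.con 5 2,.con 6 2,.con 8 2])]

theorem cD8r_131 : NodeU 8 cD8r_131_w [] :=
  nodeG_of (C := 4) (sy := cD8r_131_s) (st := cD8r_131_t) (D := cD8r_131_D) (Ns := cD8r_131_n) (by norm_num) (by norm_num)
    ttD8r_ok (by decide +kernel) (by decide +kernel) (by decide +kernel)

/-- classes `0 0 0 1 1 2 3 3` -/
noncomputable def cD8r_137_w : List ℕ := [k0,k0,k0,k16,k16,k32,k48,k48]

/-- symmetries -/
noncomputable def cD8r_137_s : List (Bool × ℕ × List ℕ) :=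
  []

/-- steps -/
noncomputable def cD8r_137_t : List (ℕ × ℕ × ℕ × ℕ × ℕ × ℕ) :=
  [(k1,254,k0,k1,k15,k14),(k12,238,k0,k12,k14,k14),(k14,k14,k0,k14,k0,k14),(k15,222,k0,k15,k13,k14),(k16,k35,k1,k0,k2,
    k3),(k18,k67,k1,k2,k4,k3),(k19,k19,k1,k3,k1,k3),(k20,k99,k1,k4,k6,k3),(k21,k51,k1,k5,k3,k3),(k23,k83,k1,k7,k5,k3),
    (k32,k32,k2,k0,k2,k0),(k34,k64,k2,k2,k4,k0),(k36,k96,k2,k4,k6,k0),(k37,k48,k2,k5,k3,k0),(k39,k80,k2,k7,k5,k0),
    (k50,k69,k3,k2,k4,k5),(k52,k101,k3,k4,k6,k5),(k53,k53,k3,k5,k3,k5),(k55,k85,k3,k7,k5,k5),(k66,k66,k4,k2,k4,k2),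
    (k68,k98,k4,k4,k6,k2),(k71,k82,k4,k7,k5,k2),(k84,k103,k5,k4,k6,k7),(k87,k87,k5,k7,k5,k7),(k100,k100,k6,k4,k6,k4),
    (k118,k137,k7,k6,k8,k9),(k120,k169,k7,k8,k10,k9),(k121,k121,k7,k9,k7,k9),(k123,k153,k7,k11,k9,k9),(k134,k134,k8,
    k6,k8,k6),(k136,k166,k8,k8,k10,k6),(k139,k150,k8,k11,k9,k6),(k152,k171,k9,k8,k10,k11),(k155,k155,k9,k11,k9,k11),
    (k168,k168,k10,k8,k10,k8),(k186,205,k11,k10,k12,k13),(k189,k189,k11,k13,k11,k13),(202,202,k12,k10,k12,k10),(209,
    255,k13,k1,k15,k15),(220,239,k13,k12,k14,k15),(223,223,k13,k15,k13,k15),(225,252,k14,k1,k15,k12),(236,236,k14,k12,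
    k14,k12),(241,241,k15,k1,k15,k1)]

/-- equations of the nodes -/
noncomputable def cD8r_137_D : List (List (List (List (ℕ × ℕ)))) :=
  [[[[]]]]

/-- nodes -/
noncomputable def cD8r_137_n : List (QG PN) :=
  [.q (.lp 7 24 2 0xc0000000c000000090000000900000009000000090000000b000000090000000b0000000b0000000c0000000c0000000b0000000b0000000900000009 0x300000003000000030000000300000003000000010000000100000001000000000000000000000001000000010000000300000003
    0x1830c093060c183060c1830604981830c093060c183060c1830604981224c063060c183060c18306031830603183018c183060c183060c1830603183018c183060c183060c183060c180c605083020c183060c183060c18106040a3018c183060c183060c1814603083020c183060c183060c1810604063028c183060c183060c183060c181c6038b1428c063060c183060c1816606081a3cc093060c183060c180e6080c122cc093060c183060c18146058f1418c0a3060c183060c18146048d1428c083060c183060c180c604891028c061224c063060c183060c183060318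
    0x1860c183060c183060c183060c181830c183060c183060c183060c183060c183060c183060c183060c18122430c3060c183060c183060c183060c183060c183060c183060c181e3c6060c30c183060c183060c183060b1020284183060c183060c182e5ca0e1c205083060c183060c183060c183060c183060c183060c182e5ca0e1c203081460c183060c183060c152a3c68f221c6183060c183060c18304c8932a2c40c3060c183060c18304881228286891460c183060c183048812282878b0c28c18122430c1848a162860c183060c181e3c612243860e2018489142030c 2
    [[2],[32],[],[],[0x20000],[0x200000],[0x2000000],[]]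
    [.con 1 2,.con 2 2,.con 5 2,.con 6 2,.con 7 2])]

theorem cD8r_137 : NodeU 8 cD8r_137_w [] :=
  nodeG_of (C := 4) (sy := cD8r_137_s) (st := cD8r_137_t) (D := cD8r_137_D) (Ns := cD8r_137_n) (by norm_num) (by norm_num)
    ttD8r_ok (by decide +kernel) (by decide +kernel) (by decide +kernel)

/-- classes `0 0 1 0 1 1 2 3` -/
noncomputable def cD8r_156_w : List ℕ := [k0,k0,k16,k0,k16,k16,k32,k48]

/-- symmetries -/
noncomputable def cD8r_156_s : List (Bool × ℕ × List ℕ) :=
  []

/-- steps -/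
noncomputable def cD8r_156_t : List (ℕ × ℕ × ℕ × ℕ × ℕ × ℕ) :=
  [(k1,254,k0,k1,k15,k14),(k14,k14,k0,k14,k0,k14),(k16,k35,k1,k0,k2,k3),(k18,k67,k1,k2,k4,k3),(k19,k19,k1,k3,k1,k3),
    (k21,k51,k1,k5,k3,k3),(k22,k131,k1,k6,k8,k3),(k25,k115,k1,k9,k7,k3),(k32,k32,k2,k0,k2,k0),(k34,k64,k2,k2,k4,k0),
    (k37,k48,k2,k5,k3,k0),(k38,k128,k2,k6,k8,k0),(k41,k112,k2,k9,k7,k0),(k50,k69,k3,k2,k4,k5),(k53,k53,k3,k5,k3,k5),
    (k54,k133,k3,k6,k8,k5),(k57,k117,k3,k9,k7,k5),(k66,k66,k4,k2,k4,k2),(k70,k130,k4,k6,k8,k2),(k73,k114,k4,k9,k7,k2),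
    (k84,k103,k5,k4,k6,k7),(k87,k87,k5,k7,k5,k7),(k88,k167,k5,k8,k10,k7),(k90,k199,k5,k10,k12,k7),(k91,k151,k5,k11,k9,
    k7),(k93,k183,k5,k13,k11,k7),(k100,k100,k6,k4,k6,k4),(k104,k164,k6,k8,k10,k4),(k106,k196,k6,k10,k12,k4),(k107,
    k148,k6,k11,k9,k4),(k109,k180,k6,k13,k11,k4),(k118,k137,k7,k6,k8,k9),(k121,k121,k7,k9,k7,k9),(k134,k134,k8,k6,k8,
    k6),(k152,k171,k9,k8,k10,k11),(k154,203,k9,k10,k12,k11),(k155,k155,k9,k11,k9,k11),(k157,k187,k9,k13,k11,k11),
    (k168,k168,k10,k8,k10,k8),(k170,200,k10,k10,k12,k8),(k173,k184,k10,k13,k11,k8),(k186,205,k11,k10,k12,k13),(k189,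
    k189,k11,k13,k11,k13),(202,202,k12,k10,k12,k10),(220,239,k13,k12,k14,k15),(223,223,k13,k15,k13,k15),(236,236,k14,
    k12,k14,k12),(241,241,k15,k1,k15,k1)]

/-- equations of the nodes -/
noncomputable def cD8r_156_D : List (List (List (List (ℕ × ℕ)))) :=
  [[[[]]]]

/-- nodes -/
noncomputable def cD8r_156_n : List (QG PN) :=
  [.q (.lp 7 24 2 0xa0000000a0000000c0000000e0000000a0000000a0000000c0000000e0000000b0000000b0000000e0000000c0000000a0000000c0000000a0000000a 0x4000000040000000000000002000000040000000400000000000000020000000300000003000000020000000000000002000000040000000400000004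
    0x3018c183060c183060c1830603180c60c083060c183060c183060c181060c0a3060c183060c183060c1830607181428c061660c0c3060c1830605181818c081260c0a3060c1830605180c30c080e60c063060c1830603181020c0a1a60c0c3060c183060c183060718302c6181818c0a3060c1830605983020698121cc0730605980e24c0d1060c0b3060c1830606180c28c0c1660c0e3060c183060c18306061830345180c20c083060c183060318301c4181018c0a3060c18306061830243181420c083060c183060518301c4181028c063018c183060c183060c183060318
    0x3060c183060c183060c183060c180c30c183060c183060c183060c183060c183060c183060c183060c181c205183060c183060c183060c183048a0a1860c183060c183060c183048a0a0c30c183060c183060c183060c183060c183060c183060c18283880610205183060c183060c18304ca8b121c6983060c183060c183060c11223ca8b1040c183060c183060c122850b0c1a54c183060c183050b0c1418616262c7183060c183060c12203090c1244a061060c183050b0c1c388060e3c9080c20c180c307183060a183060c183060c181848a102038a0a0e3c908142030c 2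
    [[2],[32],[],[0x2000],[],[0x200000],[],[0x20000000]]
    [.con 1 2,.con 2 2,.con 4 2,.con 6 2,.con 8 2])]

theorem cD8r_156 : NodeU 8 cD8r_156_w [] :=
  nodeG_of (C := 4) (sy := cD8r_156_s) (st := cD8r_156_t) (D := cD8r_156_D) (Ns := cD8r_156_n) (by norm_num) (by norm_num)
    ttD8r_ok (by decide +kernel) (by decide +kernel) (by decide +kernel)

/-- classes `0 0 1 0 1 2 2 3` -/
noncomputable def cD8r_159_w : List ℕ := [k0,k0,k16,k0,k16,k32,k32,k48]

/-- symmetries -/
noncomputable def cD8r_159_s : List (Bool × ℕ × List ℕ) :=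
  []

/-- steps -/
noncomputable def cD8r_159_t : List (ℕ × ℕ × ℕ × ℕ × ℕ × ℕ) :=
  [(k1,254,k0,k1,k15,k14),(k14,k14,k0,k14,k0,k14),(k16,k35,k1,k0,k2,k3),(k18,k67,k1,k2,k4,k3),(k19,k19,k1,k3,k1,k3),
    (k21,k51,k1,k5,k3,k3),(k22,k131,k1,k6,k8,k3),(k25,k115,k1,k9,k7,k3),(k32,k32,k2,k0,k2,k0),(k34,k64,k2,k2,k4,k0),
    (k37,k48,k2,k5,k3,k0),(k38,k128,k2,k6,k8,k0),(k41,k112,k2,k9,k7,k0),(k50,k69,k3,k2,k4,k5),(k53,k53,k3,k5,k3,k5),
    (k54,k133,k3,k6,k8,k5),(k57,k117,k3,k9,k7,k5),(k66,k66,k4,k2,k4,k2),(k70,k130,k4,k6,k8,k2),(k73,k114,k4,k9,k7,k2),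
    (k84,k103,k5,k4,k6,k7),(k87,k87,k5,k7,k5,k7),(k88,k167,k5,k8,k10,k7),(k91,k151,k5,k11,k9,k7),(k100,k100,k6,k4,k6,
    k4),(k104,k164,k6,k8,k10,k4),(k107,k148,k6,k11,k9,k4),(k118,k137,k7,k6,k8,k9),(k121,k121,k7,k9,k7,k9),(k134,k134,
    k8,k6,k8,k6),(k152,k171,k9,k8,k10,k11),(k155,k155,k9,k11,k9,k11),(k168,k168,k10,k8,k10,k8),(k186,205,k11,k10,k12,
    k13),(k188,237,k11,k12,k14,k13),(k189,k189,k11,k13,k11,k13),(k191,221,k11,k15,k13,k13),(202,202,k12,k10,k12,k10),
    (204,234,k12,k12,k14,k10),(207,218,k12,k15,k13,k10),(220,239,k13,k12,k14,k15),(223,223,k13,k15,k13,k15),(236,236,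
    k14,k12,k14,k12),(241,241,k15,k1,k15,k1)]

/-- equations of the nodes -/
noncomputable def cD8r_159_D : List (List (List (List (ℕ × ℕ)))) :=
  [[[[]]]]

/-- nodes -/
noncomputable def cD8r_159_n : List (QG PN) :=
  [.q (.lp 7 24 2 0xc0000000c000000120000000c0000000c0000000c0000000e000000100000000d0000000d000000100000000e0000000c0000000e0000000c0000000c 0x6000000060000000600000000000000060000000600000002000000040000000500000005000000040000000200000004000000060000000600000006
    0x3018c183060c183060c183060318246030c3018c183060c183060c1818606063030c183060c183060c180c6030c3018c183060c183060c180c6030c3018c183060c183060c183060c180c60c080e60c063060c183060c181060c0a1a60c0c3060c183060c183060718302c6181818c0a3060c1830605983020698121cc073060c180e60c0d1060c0b3060c183060c180c60c0c1660c0e3060c183060c18306061830345180c20c083060c183060318301c4181018c0a3060c18306061830243181420c083060c183060518301c4181028c063018c183060c183060c183060318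
    0x3060c183060c183060c183060c180c60c183060c183060c183060c1818186183060c183060c183060c18243030c3060c183060c183060c183060c183060c183060c183060c1818186060c30c183060c183060c183060c183060c183060c183060c182838a0e1c205183060c183060c18263498d1a1c6983060c183060c183054c152a3ca8b1040c183060c183060c183050b0c1a54c183060c18243090c1818616262c7183060c183048c12243090c1244a061060c183050c1428388060e3c9080c20c180c6090c1848a18304c9183060c181850c122438a0a0e3c908142030c 2
    [[2],[32],[],[0x2000],[],[0x200000],[0x2000000],[]]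
    [.con 1 2,.con 2 2,.con 4 2,.con 6 2,.con 7 2])]

theorem cD8r_159 : NodeU 8 cD8r_159_w [] :=
  nodeG_of (C := 4) (sy := cD8r_159_s) (st := cD8r_159_t) (D := cD8r_159_D) (Ns := cD8r_159_n) (by norm_num) (by norm_num)
    ttD8r_ok (by decide +kernel) (by decide +kernel) (by decide +kernel)

/-- classes `0 0 1 0 1 2 3 3` -/
noncomputable def cD8r_162_w : List ℕ := [k0,k0,k16,k0,k16,k32,k48,k48]

/-- symmetries -/
noncomputable def cD8r_162_s : List (Bool × ℕ × List ℕ) :=
  []

/-- steps -/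
noncomputable def cD8r_162_t : List (ℕ × ℕ × ℕ × ℕ × ℕ × ℕ) :=
  [(k1,254,k0,k1,k15,k14),(k12,238,k0,k12,k14,k14),(k14,k14,k0,k14,k0,k14),(k15,222,k0,k15,k13,k14),(k16,k35,k1,k0,k2,
    k3),(k18,k67,k1,k2,k4,k3),(k19,k19,k1,k3,k1,k3),(k21,k51,k1,k5,k3,k3),(k22,k131,k1,k6,k8,k3),(k25,k115,k1,k9,k7,
    k3),(k32,k32,k2,k0,k2,k0),(k34,k64,k2,k2,k4,k0),(k37,k48,k2,k5,k3,k0),(k38,k128,k2,k6,k8,k0),(k41,k112,k2,k9,k7,
    k0),(k50,k69,k3,k2,k4,k5),(k53,k53,k3,k5,k3,k5),(k54,k133,k3,k6,k8,k5),(k57,k117,k3,k9,k7,k5),(k66,k66,k4,k2,k4,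
    k2),(k70,k130,k4,k6,k8,k2),(k73,k114,k4,k9,k7,k2),(k84,k103,k5,k4,k6,k7),(k87,k87,k5,k7,k5,k7),(k88,k167,k5,k8,
    k10,k7),(k91,k151,k5,k11,k9,k7),(k100,k100,k6,k4,k6,k4),(k104,k164,k6,k8,k10,k4),(k107,k148,k6,k11,k9,k4),(k118,
    k137,k7,k6,k8,k9),(k121,k121,k7,k9,k7,k9),(k134,k134,k8,k6,k8,k6),(k152,k171,k9,k8,k10,k11),(k155,k155,k9,k11,k9,
    k11),(k168,k168,k10,k8,k10,k8),(k186,205,k11,k10,k12,k13),(k189,k189,k11,k13,k11,k13),(202,202,k12,k10,k12,k10),
    (209,255,k13,k1,k15,k15),(220,239,k13,k12,k14,k15),(223,223,k13,k15,k13,k15),(225,252,k14,k1,k15,k12),(236,236,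
    k14,k12,k14,k12),(241,241,k15,k1,k15,k1)]

/-- equations of the nodes -/
noncomputable def cD8r_162_D : List (List (List (List (ℕ × ℕ)))) :=
  [[[[]]]]

/-- nodes -/
noncomputable def cD8r_162_n : List (QG PN) :=
  [.q (.lp 7 24 2 0xd0000000d0000000a0000000a0000000a0000000a0000000c0000000e0000000b0000000b0000000e0000000c0000000a0000000c0000000a0000000a 0x1000000010000000400000004000000040000000400000000000000020000000300000003000000020000000000000002000000040000000400000004
    0x1830c093060c183060c1830604981830c093060c183060c1830604981224c063060c183060c18306031830603183018c183060c183060c1830603183018c183060c183060c183060c180c60c080e60c063060c183060c181060c0a1a60c0c3060c183060c183060718302c6181818c0a3060c1830605983020698121cc073060c180e60c0d1060c0b3060c183060c180c60c0c1660c0e3060c183060c18306061830345180c20c083060c183060318301c4181018c0a3060c18306061830243181420c083060c183060518301c4181028c061224c063060c183060c183060318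
    0x1860c183060c183060c183060c181830c183060c183060c183060c183060c183060c183060c183060c18122430c3060c183060c183060c183060c183060c183060c183060c181e3c6060c30c183060c183060c183060c183060c183060c183060c182e5ca0e1c205183060c183060c182c5898d1a1c6983060c183060c183060c152a3ca8b1040c183060c183060c183050b0c1a54c183060c182a5490c1818616262c7183060c183060c12243090c1244a061060c183060c1428388060e3c9080c20c18122430c1848a18304c9183060c181e3c6122438a0a0e3c908142030c 2
    [[2],[32],[],[0x2000],[],[0x200000],[0x2000000],[]]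
    [.con 1 2,.con 2 2,.con 4 2,.con 6 2,.con 7 2])]

theorem cD8r_162 : NodeU 8 cD8r_162_w [] :=
  nodeG_of (C := 4) (sy := cD8r_162_s) (st := cD8r_162_t) (D := cD8r_162_D) (Ns := cD8r_162_n) (by norm_num) (by norm_num)
    ttD8r_ok (by decide +kernel) (by decide +kernel) (by decide +kernel)

/-- classes `0 0 1 0 2 1 3 3` -/
noncomputable def cD8r_173_w : List ℕ := [k0,k0,k16,k0,k32,k16,k48,k48]

/-- symmetries -/
noncomputable def cD8r_173_s : List (Bool × ℕ × List ℕ) :=
  []

/-- steps -/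
noncomputable def cD8r_173_t : List (ℕ × ℕ × ℕ × ℕ × ℕ × ℕ) :=
  [(k1,254,k0,k1,k15,k14),(k12,238,k0,k12,k14,k14),(k14,k14,k0,k14,k0,k14),(k15,222,k0,k15,k13,k14),(k16,k35,k1,k0,k2,
    k3),(k18,k67,k1,k2,k4,k3),(k19,k19,k1,k3,k1,k3),(k21,k51,k1,k5,k3,k3),(k22,k131,k1,k6,k8,k3),(k25,k115,k1,k9,k7,
    k3),(k32,k32,k2,k0,k2,k0),(k34,k64,k2,k2,k4,k0),(k37,k48,k2,k5,k3,k0),(k38,k128,k2,k6,k8,k0),(k41,k112,k2,k9,k7,
    k0),(k50,k69,k3,k2,k4,k5),(k53,k53,k3,k5,k3,k5),(k54,k133,k3,k6,k8,k5),(k57,k117,k3,k9,k7,k5),(k66,k66,k4,k2,k4,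
    k2),(k70,k130,k4,k6,k8,k2),(k73,k114,k4,k9,k7,k2),(k84,k103,k5,k4,k6,k7),(k87,k87,k5,k7,k5,k7),(k90,k199,k5,k10,
    k12,k7),(k93,k183,k5,k13,k11,k7),(k100,k100,k6,k4,k6,k4),(k106,k196,k6,k10,k12,k4),(k109,k180,k6,k13,k11,k4),
    (k118,k137,k7,k6,k8,k9),(k121,k121,k7,k9,k7,k9),(k134,k134,k8,k6,k8,k6),(k152,k171,k9,k8,k10,k11),(k155,k155,k9,
    k11,k9,k11),(k168,k168,k10,k8,k10,k8),(k186,205,k11,k10,k12,k13),(k189,k189,k11,k13,k11,k13),(202,202,k12,k10,k12,
    k10),(209,255,k13,k1,k15,k15),(220,239,k13,k12,k14,k15),(223,223,k13,k15,k13,k15),(225,252,k14,k1,k15,k12),(236,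
    236,k14,k12,k14,k12),(241,241,k15,k1,k15,k1)]

/-- equations of the nodes -/
noncomputable def cD8r_173_D : List (List (List (List (ℕ × ℕ)))) :=
  [[[[]]]]

/-- nodes -/
noncomputable def cD8r_173_n : List (QG PN) :=
  [.q (.lp 8 48 2 0x18000000180000001200000012000000120000001200000017000000170000001500000015000000180000001800000014000000140000001300000013 0x600000006000000060000000600000001000000010000000300000003000000000000000000000004000000040000000500000005
    0x18183012303030303030303030301330181830123030303030303030303013301212300c303030303030303030300d3030300c30300c3030153030123030303030300c30300c30300f30300c30303030303030300c3030113030303030303030303030301130301630303030303030303030303030301c3030141730130d30123030303030301430300c1b301111301030301530300f3030123030153030303030301230300c303015303018303030303030303030301730301b18300e1430133030303030300d303011143010103015303030303030133030110e301010300f3030303030301230301013300f15300e1313300d303030303030303030300e30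
    0x18303030303030303030303030303030181830303030303030303030303030303030303030303030303030303030303012120c18303030303030303030303030303030303030303030303030303030301e1e180c0c1830303030303030303030303030303030303030303030303030302f2f291d1d1116303030303030303030272721150f1b2030303030303030303030302d211b252a140c1e303030303030303030302a282d171b2d30303030303024241e120c181d29211518303030303030302c201a2429131123260e1030303030303026201e230d112326141010303013130d1919252a302e221f30302d303021211b251f23281210222513150f0e1c 2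
    [[2],[32],[],[0x2000],[],[0x200000],[0x2000000],[]]
    [.con 1 2,.con 2 2,.con 4 2,.con 6 2,.con 7 2])]

theorem cD8r_173 : NodeU 8 cD8r_173_w [] :=
  nodeG_of (C := 4) (sy := cD8r_173_s) (st := cD8r_173_t) (D := cD8r_173_D) (Ns := cD8r_173_n) (by norm_num) (by norm_num)
    ttD8r_ok (by decide +kernel) (by decide +kernel) (by decide +kernel)

/-- classes `0 0 1 0 2 2 1 3` -/
noncomputable def cD8r_175_w : List ℕ := [k0,k0,k16,k0,k32,k32,k16,k48]

/-- symmetries -/
noncomputable def cD8r_175_s : List (Bool × ℕ × List ℕ) :=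
  []

/-- steps -/
noncomputable def cD8r_175_t : List (ℕ × ℕ × ℕ × ℕ × ℕ × ℕ) :=
  [(k1,254,k0,k1,k15,k14),(k14,k14,k0,k14,k0,k14),(k16,k35,k1,k0,k2,k3),(k18,k67,k1,k2,k4,k3),(k19,k19,k1,k3,k1,k3),
    (k21,k51,k1,k5,k3,k3),(k22,k131,k1,k6,k8,k3),(k25,k115,k1,k9,k7,k3),(k32,k32,k2,k0,k2,k0),(k34,k64,k2,k2,k4,k0),
    (k37,k48,k2,k5,k3,k0),(k38,k128,k2,k6,k8,k0),(k41,k112,k2,k9,k7,k0),(k50,k69,k3,k2,k4,k5),(k53,k53,k3,k5,k3,k5),
    (k54,k133,k3,k6,k8,k5),(k57,k117,k3,k9,k7,k5),(k66,k66,k4,k2,k4,k2),(k70,k130,k4,k6,k8,k2),(k73,k114,k4,k9,k7,k2),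
    (k84,k103,k5,k4,k6,k7),(k87,k87,k5,k7,k5,k7),(k92,231,k5,k12,k14,k7),(k95,215,k5,k15,k13,k7),(k100,k100,k6,k4,k6,
    k4),(k108,228,k6,k12,k14,k4),(k111,212,k6,k15,k13,k4),(k118,k137,k7,k6,k8,k9),(k121,k121,k7,k9,k7,k9),(k134,k134,
    k8,k6,k8,k6),(k152,k171,k9,k8,k10,k11),(k154,203,k9,k10,k12,k11),(k155,k155,k9,k11,k9,k11),(k157,k187,k9,k13,k11,
    k11),(k168,k168,k10,k8,k10,k8),(k170,200,k10,k10,k12,k8),(k173,k184,k10,k13,k11,k8),(k186,205,k11,k10,k12,k13),
    (k189,k189,k11,k13,k11,k13),(202,202,k12,k10,k12,k10),(220,239,k13,k12,k14,k15),(223,223,k13,k15,k13,k15),(236,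
    236,k14,k12,k14,k12),(241,241,k15,k1,k15,k1)]

/-- equations of the nodes -/
noncomputable def cD8r_175_D : List (List (List (List (ℕ × ℕ)))) :=
  [[[[]]]]

/-- nodes -/
noncomputable def cD8r_175_n : List (QG PN) :=
  [.q (.lp 7 24 2 0xd0000000d0000000a0000000a0000000c0000000a0000000c0000000c0000000c0000000a0000000c0000000e0000000c0000000a0000000a0000000a 0x1000000010000000400000004000000040000000200000002000000020000000400000002000000000000000200000004000000020000000400000004
    0x3030c183060c183060c1830604981860c093060c181260c0b3060c181260c063060c180c60c083060c1830603181420c083060c183060c1830604181028c063060c183060c1830605180c20c083060c183060c1830604181018c0a3060c183060c183060c18306071830286181018c083060c18306051830188181028c081260c063060c180c60c083060c181660c083060c181060c0a3060c183060c18306061830407180c30c0a3060c18306031830286181028c0c3060c18306041830203180c20c063060c18306041830205180c30c063024c183060c183060c183060318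
    0x3060c183060c183060c183060c181860c183060c183060c183060c183060c183060c183060c183060c182a2430c3060c183060c183060c18304c80a1060c183060c183060c1830447081420c183060c183060c183060c183060c183060c183060c1830447080c205183060c183060c182a2430c1c407183060c183060c18303c6122048a0a0c30c183060c183060b142450b0c2058c183060c182e2c40e20488121c205183060c1830447101c4090810388061060c18304c80e1838806144090c1420c1812549183060c183048a183060c181e447101c40908103880a181830c 2
    [[2],[32],[],[0x2000],[],[0x200000],[0x2000000],[]]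
    [.con 1 2,.con 2 2,.con 4 2,.con 6 2,.con 7 2])]

theorem cD8r_175 : NodeU 8 cD8r_175_w [] :=
  nodeG_of (C := 4) (sy := cD8r_175_s) (st := cD8r_175_t) (D := cD8r_175_D) (Ns := cD8r_175_n) (by norm_num) (by norm_num)
    ttD8r_ok (by decide +kernel) (by decide +kernel) (by decide +kernel)

/-- classes `0 0 1 0 2 2 3 3` -/
noncomputable def cD8r_178_w : List ℕ := [k0,k0,k16,k0,k32,k32,k48,k48]

/-- symmetries -/
noncomputable def cD8r_178_s : List (Bool × ℕ × List ℕ) :=
  []

/-- steps -/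
noncomputable def cD8r_178_t : List (ℕ × ℕ × ℕ × ℕ × ℕ × ℕ) :=
  [(k1,254,k0,k1,k15,k14),(k12,238,k0,k12,k14,k14),(k14,k14,k0,k14,k0,k14),(k15,222,k0,k15,k13,k14),(k16,k35,k1,k0,k2,
    k3),(k18,k67,k1,k2,k4,k3),(k19,k19,k1,k3,k1,k3),(k21,k51,k1,k5,k3,k3),(k22,k131,k1,k6,k8,k3),(k25,k115,k1,k9,k7,
    k3),(k32,k32,k2,k0,k2,k0),(k34,k64,k2,k2,k4,k0),(k37,k48,k2,k5,k3,k0),(k38,k128,k2,k6,k8,k0),(k41,k112,k2,k9,k7,
    k0),(k50,k69,k3,k2,k4,k5),(k53,k53,k3,k5,k3,k5),(k54,k133,k3,k6,k8,k5),(k57,k117,k3,k9,k7,k5),(k66,k66,k4,k2,k4,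
    k2),(k70,k130,k4,k6,k8,k2),(k73,k114,k4,k9,k7,k2),(k84,k103,k5,k4,k6,k7),(k87,k87,k5,k7,k5,k7),(k100,k100,k6,k4,
    k6,k4),(k118,k137,k7,k6,k8,k9),(k121,k121,k7,k9,k7,k9),(k134,k134,k8,k6,k8,k6),(k152,k171,k9,k8,k10,k11),(k154,
    203,k9,k10,k12,k11),(k155,k155,k9,k11,k9,k11),(k157,k187,k9,k13,k11,k11),(k168,k168,k10,k8,k10,k8),(k170,200,k10,
    k10,k12,k8),(k173,k184,k10,k13,k11,k8),(k186,205,k11,k10,k12,k13),(k189,k189,k11,k13,k11,k13),(202,202,k12,k10,
    k12,k10),(209,255,k13,k1,k15,k15),(220,239,k13,k12,k14,k15),(223,223,k13,k15,k13,k15),(225,252,k14,k1,k15,k12),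
    (236,236,k14,k12,k14,k12),(241,241,k15,k1,k15,k1)]

/-- equations of the nodes -/
noncomputable def cD8r_178_D : List (List (List (List (ℕ × ℕ)))) :=
  [[[[]]]]

/-- nodes -/
noncomputable def cD8r_178_n : List (QG PN) :=
  [.q (.lp 7 24 2 0xd0000000d0000000a0000000a0000000c0000000a0000000c0000000e0000000a0000000a0000000c0000000e0000000c0000000a0000000a0000000a 0x1000000010000000400000004000000040000000200000000000000020000000400000004000000000000000200000004000000020000000400000004
    0x1830c093060c183060c1830604981830c093060c183060c1830604981224c063060c183060c18306031830603181420c083060c183060c1830604181028c063060c183060c1830605180c20c083060c183060c1830604181018c0a3060c183060c183060c18306071830285181418c0a3060c18306051830188180c30c063060c183060c180c60c083060c183060c183060c181060c0a3060c183060c18306051830407180c30c0a3060c18306031830306181028c0c3060c18306051830183180c20c063060c18306051830185180c30c061224c063060c183060c183060318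
    0x1860c183060c183060c183060c181830c183060c183060c183060c183060c183060c183060c183060c18122430c3060c183060c183060c18264c80a1060c183060c183060c1822447081420c183060c183060c183060c183060c183060c183060c1822447080c205183060c183060c183060c183060c183060c183060c183060c122048a0a0c30c183060c183060c122048a0a2058c183060c183060c183060c121c205183060c183060c122048a0a0c307061060c182e5ca0e18388061848a0c1420c18122430c1c407183060c182860c181e3c6122048a0a0c3070a181830c 2
    [[2],[32],[],[0x2000],[],[0x200000],[0x2000000],[]]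
    [.con 1 2,.con 2 2,.con 4 2,.con 6 2,.con 7 2])]

theorem cD8r_178 : NodeU 8 cD8r_178_w [] :=
  nodeG_of (C := 4) (sy := cD8r_178_s) (st := cD8r_178_t) (D := cD8r_178_D) (Ns := cD8r_178_n) (by norm_num) (by norm_num)
    ttD8r_ok (by decide +kernel) (by decide +kernel) (by decide +kernel)

/-- classes `0 0 1 1 0 2 1 3` -/
noncomputable def cD8r_189_w : List ℕ := [k0,k0,k16,k16,k0,k32,k16,k48]

/-- symmetries -/
noncomputable def cD8r_189_s : List (Bool × ℕ × List ℕ) :=
  []

/-- steps -/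
noncomputable def cD8r_189_t : List (ℕ × ℕ × ℕ × ℕ × ℕ × ℕ) :=
  [(k1,254,k0,k1,k15,k14),(k14,k14,k0,k14,k0,k14),(k16,k35,k1,k0,k2,k3),(k18,k67,k1,k2,k4,k3),(k19,k19,k1,k3,k1,k3),
    (k21,k51,k1,k5,k3,k3),(k24,k163,k1,k8,k10,k3),(k27,k147,k1,k11,k9,k3),(k32,k32,k2,k0,k2,k0),(k34,k64,k2,k2,k4,k0),
    (k37,k48,k2,k5,k3,k0),(k40,k160,k2,k8,k10,k0),(k43,k144,k2,k11,k9,k0),(k50,k69,k3,k2,k4,k5),(k53,k53,k3,k5,k3,k5),
    (k56,k165,k3,k8,k10,k5),(k59,k149,k3,k11,k9,k5),(k66,k66,k4,k2,k4,k2),(k72,k162,k4,k8,k10,k2),(k75,k146,k4,k11,k9,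
    k2),(k84,k103,k5,k4,k6,k7),(k86,k135,k5,k6,k8,k7),(k87,k87,k5,k7,k5,k7),(k89,k119,k5,k9,k7,k7),(k92,231,k5,k12,
    k14,k7),(k95,215,k5,k15,k13,k7),(k100,k100,k6,k4,k6,k4),(k102,k132,k6,k6,k8,k4),(k105,k116,k6,k9,k7,k4),(k108,228,
    k6,k12,k14,k4),(k111,212,k6,k15,k13,k4),(k118,k137,k7,k6,k8,k9),(k121,k121,k7,k9,k7,k9),(k124,233,k7,k12,k14,k9),
    (k127,217,k7,k15,k13,k9),(k134,k134,k8,k6,k8,k6),(k140,230,k8,k12,k14,k6),(k143,214,k8,k15,k13,k6),(k152,k171,k9,
    k8,k10,k11),(k155,k155,k9,k11,k9,k11),(k168,k168,k10,k8,k10,k8),(k186,205,k11,k10,k12,k13),(k189,k189,k11,k13,k11,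
    k13),(202,202,k12,k10,k12,k10),(220,239,k13,k12,k14,k15),(223,223,k13,k15,k13,k15),(236,236,k14,k12,k14,k12),(241,
    241,k15,k1,k15,k1)]

/-- equations of the nodes -/
noncomputable def cD8r_189_D : List (List (List (List (ℕ × ℕ)))) :=
  [[[[]]]]

/-- nodes -/
noncomputable def cD8r_189_n : List (QG PN) :=
  [.q (.lp 7 24 2 0xc0000000c00000009000000090000000a0000000c0000000b000000090000000a0000000a0000000c0000000c0000000a0000000a0000000900000009 0x300000003000000000000000200000003000000010000000200000002000000000000000000000002000000020000000300000003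
    0x3030c183060c183060c1830604981860c0930604981428c083060c181260c063060318161cc093060c183060318301cc183060c183060c1830603983020c183060c183060c183060c182060c0b30606181418c093060c181660c0630607981224c081260c063060318161cc093060c181460c0730603981020c063060c181460c0b30605981020c0a3060c181060c0930604981418c0c3060c183060c181860c0f30606180c28c093060c180c60c0930605181020c0b3060c181460c0930603181020c073060c181260c0830604980e2cc063024c183060c183060c183060318
    0x3060c183060c183060c183060c181860c183060c183060c183060c183060c183060c183060c183060c182a2430c3060c183060c183060c183060c183060c183060c183060c1830406871060c183060c183060c182a2430c1a60c183060c183060c18303c612262c30c3060c183060c182c28591245888b1060c183060c182c2838d1c486871020c183060c183060a9328307952c60c183060c18282048f20507890c286183060c183038791242848f18409061060c18304878d1c1848f205090a1020c1812549183060c12264c898305cc181e44710222440e1e4c889161c30c 2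
    [[2],[32],[],[0x2000],[0x20000],[],[0x2000000],[]]
    [.con 1 2,.con 2 2,.con 4 2,.con 5 2,.con 7 2])]

theorem cD8r_189 : NodeU 8 cD8r_189_w [] :=
  nodeG_of (C := 4) (sy := cD8r_189_s) (st := cD8r_189_t) (D := cD8r_189_D) (Ns := cD8r_189_n) (by norm_num) (by norm_num)
    ttD8r_ok (by decide +kernel) (by decide +kernel) (by decide +kernel)

/-- classes `0 0 1 1 0 2 3 3` -/
noncomputable def cD8r_193_w : List ℕ := [k0,k0,k16,k16,k0,k32,k48,k48]

/-- symmetries -/
noncomputable def cD8r_193_s : List (Bool × ℕ × List ℕ) :=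
  []

/-- steps -/
noncomputable def cD8r_193_t : List (ℕ × ℕ × ℕ × ℕ × ℕ × ℕ) :=
  [(k1,254,k0,k1,k15,k14),(k12,238,k0,k12,k14,k14),(k14,k14,k0,k14,k0,k14),(k15,222,k0,k15,k13,k14),(k16,k35,k1,k0,k2,
    k3),(k18,k67,k1,k2,k4,k3),(k19,k19,k1,k3,k1,k3),(k21,k51,k1,k5,k3,k3),(k24,k163,k1,k8,k10,k3),(k27,k147,k1,k11,k9,
    k3),(k32,k32,k2,k0,k2,k0),(k34,k64,k2,k2,k4,k0),(k37,k48,k2,k5,k3,k0),(k40,k160,k2,k8,k10,k0),(k43,k144,k2,k11,k9,
    k0),(k50,k69,k3,k2,k4,k5),(k53,k53,k3,k5,k3,k5),(k56,k165,k3,k8,k10,k5),(k59,k149,k3,k11,k9,k5),(k66,k66,k4,k2,k4,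
    k2),(k72,k162,k4,k8,k10,k2),(k75,k146,k4,k11,k9,k2),(k84,k103,k5,k4,k6,k7),(k86,k135,k5,k6,k8,k7),(k87,k87,k5,k7,
    k5,k7),(k89,k119,k5,k9,k7,k7),(k100,k100,k6,k4,k6,k4),(k102,k132,k6,k6,k8,k4),(k105,k116,k6,k9,k7,k4),(k118,k137,
    k7,k6,k8,k9),(k121,k121,k7,k9,k7,k9),(k134,k134,k8,k6,k8,k6),(k152,k171,k9,k8,k10,k11),(k155,k155,k9,k11,k9,k11),
    (k168,k168,k10,k8,k10,k8),(k186,205,k11,k10,k12,k13),(k189,k189,k11,k13,k11,k13),(202,202,k12,k10,k12,k10),(209,
    255,k13,k1,k15,k15),(220,239,k13,k12,k14,k15),(223,223,k13,k15,k13,k15),(225,252,k14,k1,k15,k12),(236,236,k14,k12,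
    k14,k12),(241,241,k15,k1,k15,k1)]

/-- equations of the nodes -/
noncomputable def cD8r_193_D : List (List (List (List (ℕ × ℕ)))) :=
  [[[[]]]]

/-- nodes -/
noncomputable def cD8r_193_n : List (QG PN) :=
  [.q (.lp 7 24 2 0xe0000000e0000000b0000000b0000000c000000100000000b0000000b0000000c0000000c0000000e0000000e0000000c0000000c0000000b0000000b 0x2000000020000000500000005000000000000000400000005000000050000000400000004000000020000000200000004000000040000000500000005
    0x1830c093060c183060c1830604981830c093060c183060c1830604981224c063060c183060c1830603183060318301cc183060c183060c1830603983020c183060c183060c183060c182060c0b30605181818c0b3060c181660c0630607980e2cc063060c183060318161cc093060c183060c1830603981020c063060c183060c1830605981020c0a3060c183060c1830604981418c0c3060c183060c181460c0f30606180c28c093060c180c60c0b30605181020c0b3060c181860c0730603181020c073060c181660c0630604980e2cc061224c063060c183060c183060318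
    0x1860c183060c183060c183060c181830c183060c183060c183060c183060c183060c183060c183060c18122430c3060c183060c183060c183060c183060c183060c183060c1820406871060c183060c183060c183060c183060c183060c183060c183060c12262c30c3060c183060c183060c18305888b1060c183060c183060c1830486871020c183060c183060b9124287952c60c183060c183060c1830507890c286183060c183060c13283038d18408061060c182c5898d1c185912050a0a1020c18122430c1a60c183060c172660c181e3c612262c30c1a44789161c30c 2
    [[2],[32],[],[0x2000],[0x20000],[],[0x2000000],[]]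
    [.con 1 2,.con 2 2,.con 4 2,.con 5 2,.con 7 2])]

theorem cD8r_193 : NodeU 8 cD8r_193_w [] :=
  nodeG_of (C := 4) (sy := cD8r_193_s) (st := cD8r_193_t) (D := cD8r_193_D) (Ns := cD8r_193_n) (by norm_num) (by norm_num)
    ttD8r_ok (by decide +kernel) (by decide +kernel) (by decide +kernel)

/-- classes `0 0 1 1 2 0 1 3` -/
noncomputable def cD8r_194_w : List ℕ := [k0,k0,k16,k16,k32,k0,k16,k48]

/-- symmetries -/
noncomputable def cD8r_194_s : List (Bool × ℕ × List ℕ) :=
  []

/-- steps -/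
noncomputable def cD8r_194_t : List (ℕ × ℕ × ℕ × ℕ × ℕ × ℕ) :=
  [(k1,254,k0,k1,k15,k14),(k14,k14,k0,k14,k0,k14),(k16,k35,k1,k0,k2,k3),(k18,k67,k1,k2,k4,k3),(k19,k19,k1,k3,k1,k3),
    (k21,k51,k1,k5,k3,k3),(k26,k195,k1,k10,k12,k3),(k29,k179,k1,k13,k11,k3),(k32,k32,k2,k0,k2,k0),(k34,k64,k2,k2,k4,
    k0),(k37,k48,k2,k5,k3,k0),(k42,k192,k2,k10,k12,k0),(k45,k176,k2,k13,k11,k0),(k50,k69,k3,k2,k4,k5),(k53,k53,k3,k5,
    k3,k5),(k58,k197,k3,k10,k12,k5),(k61,k181,k3,k13,k11,k5),(k66,k66,k4,k2,k4,k2),(k74,k194,k4,k10,k12,k2),(k77,k178,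
    k4,k13,k11,k2),(k84,k103,k5,k4,k6,k7),(k86,k135,k5,k6,k8,k7),(k87,k87,k5,k7,k5,k7),(k89,k119,k5,k9,k7,k7),(k92,
    231,k5,k12,k14,k7),(k95,215,k5,k15,k13,k7),(k100,k100,k6,k4,k6,k4),(k102,k132,k6,k6,k8,k4),(k105,k116,k6,k9,k7,
    k4),(k108,228,k6,k12,k14,k4),(k111,212,k6,k15,k13,k4),(k118,k137,k7,k6,k8,k9),(k121,k121,k7,k9,k7,k9),(k124,233,
    k7,k12,k14,k9),(k127,217,k7,k15,k13,k9),(k134,k134,k8,k6,k8,k6),(k140,230,k8,k12,k14,k6),(k143,214,k8,k15,k13,k6),
    (k152,k171,k9,k8,k10,k11),(k155,k155,k9,k11,k9,k11),(k168,k168,k10,k8,k10,k8),(k186,205,k11,k10,k12,k13),(k189,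
    k189,k11,k13,k11,k13),(202,202,k12,k10,k12,k10),(220,239,k13,k12,k14,k15),(223,223,k13,k15,k13,k15),(236,236,k14,
    k12,k14,k12),(241,241,k15,k1,k15,k1)]

/-- equations of the nodes -/
noncomputable def cD8r_194_D : List (List (List (List (ℕ × ℕ)))) :=
  [[[[]]]]

/-- nodes -/
noncomputable def cD8r_194_n : List (QG PN) :=
  [.q (.lp 7 24 2 0xd0000000d0000000c0000000e0000000a0000000a0000000a0000000a0000000b0000000b0000000d0000000d0000000b0000000b0000000a0000000a 0x1000000010000000000000002000000040000000400000004000000040000000300000003000000010000000100000003000000030000000400000004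
    0x3030c183060c183060c1830604981860c0b30604981428c0c3060c181660c0a30604181224c0b3060c1830607183028c183060698162cc0630605183018c183060498161cc063060c180c60c063060c183060c183060c180c60c063060c183060c181260c083060318161cc093060c181460c0930603981020c063060c181460c0930605981020c0a3060c181860c0b30604981418c0c3060c1830606983024c1830606180c28c093060598301cc1830605181020c0b3060598302cc1830603181020c0730603183018c1830604980e2cc063024c183060c183060c183060318
    0x3060c183060c183060c183060c181860c183060c183060c183060c183060c183060c183060c183060c182e2c5183060c183060c183060c183060c183060c183060c183060c183054a0a0c30c183060c183060c182a244162460c183060c183060c18303c710181830c3060c183060c182c28497264488b1060c183060c182c2849726346871020c183060c183060b8d123c7952c58c183060c1830305982a3c7890c286183060c18304888b164488f18409061060c183058a8b0e346932050b0a1020c181254a183060c12264ca983060c181e448060c3060e1e3c889161c30c 2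
    [[2],[32],[],[0x2000],[0x20000],[0x200000],[],[]]
    [.con 1 2,.con 2 2,.con 4 2,.con 5 2,.con 6 2])]

theorem cD8r_194 : NodeU 8 cD8r_194_w [] :=
  nodeG_of (C := 4) (sy := cD8r_194_s) (st := cD8r_194_t) (D := cD8r_194_D) (Ns := cD8r_194_n) (by norm_num) (by norm_num)
    ttD8r_ok (by decide +kernel) (by decide +kernel) (by decide +kernel)

/-- classes `0 0 1 1 2 0 2 3` -/
noncomputable def cD8r_195_w : List ℕ := [k0,k0,k16,k16,k32,k0,k32,k48]

/-- symmetries -/
noncomputable def cD8r_195_s : List (Bool × ℕ × List ℕ) :=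
  []

/-- steps -/
noncomputable def cD8r_195_t : List (ℕ × ℕ × ℕ × ℕ × ℕ × ℕ) :=
  [(k1,254,k0,k1,k15,k14),(k14,k14,k0,k14,k0,k14),(k16,k35,k1,k0,k2,k3),(k18,k67,k1,k2,k4,k3),(k19,k19,k1,k3,k1,k3),
    (k21,k51,k1,k5,k3,k3),(k26,k195,k1,k10,k12,k3),(k29,k179,k1,k13,k11,k3),(k32,k32,k2,k0,k2,k0),(k34,k64,k2,k2,k4,
    k0),(k37,k48,k2,k5,k3,k0),(k42,k192,k2,k10,k12,k0),(k45,k176,k2,k13,k11,k0),(k50,k69,k3,k2,k4,k5),(k53,k53,k3,k5,
    k3,k5),(k58,k197,k3,k10,k12,k5),(k61,k181,k3,k13,k11,k5),(k66,k66,k4,k2,k4,k2),(k74,k194,k4,k10,k12,k2),(k77,k178,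
    k4,k13,k11,k2),(k84,k103,k5,k4,k6,k7),(k86,k135,k5,k6,k8,k7),(k87,k87,k5,k7,k5,k7),(k89,k119,k5,k9,k7,k7),(k100,
    k100,k6,k4,k6,k4),(k102,k132,k6,k6,k8,k4),(k105,k116,k6,k9,k7,k4),(k118,k137,k7,k6,k8,k9),(k121,k121,k7,k9,k7,k9),
    (k134,k134,k8,k6,k8,k6),(k152,k171,k9,k8,k10,k11),(k155,k155,k9,k11,k9,k11),(k156,235,k9,k12,k14,k11),(k159,219,
    k9,k15,k13,k11),(k168,k168,k10,k8,k10,k8),(k172,232,k10,k12,k14,k8),(k175,216,k10,k15,k13,k8),(k186,205,k11,k10,
    k12,k13),(k189,k189,k11,k13,k11,k13),(202,202,k12,k10,k12,k10),(220,239,k13,k12,k14,k15),(223,223,k13,k15,k13,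
    k15),(236,236,k14,k12,k14,k12),(241,241,k15,k1,k15,k1)]

/-- equations of the nodes -/
noncomputable def cD8r_195_D : List (List (List (List (ℕ × ℕ)))) :=
  [[[[]]]]

/-- nodes -/
noncomputable def cD8r_195_n : List (QG PN) :=
  [.q (.lp 8 48 2 0x18000000200000001b0000001b0000001800000018000000160000001600000019000000190000001a0000001a00000019000000190000001600000016 0x8000000050000000500000008000000080000000a0000000a0000000700000007000000060000000600000007000000070000000a0000000a
    0x30103030303030303030303030300e302030301b1830300c30303030303030301b3030161d303011303030303030303030301a3030133030303015301414301130301330300c3030303012301111300e1830301d1030300e30303030303030300c3030110e30300c30303030303030303030303030300c30150f3010303030303030303030300f301212300d3030303030303030303015300e123013303030303030303030301030130d3018303030303030153030123030303018300d133010303014303011303030301330120e3015303014303011303030300d301212300f30301130300e3030303010300f15300c300e3030303030303030303030300c30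
    0x3030303030303030303030303030303010303030303030303030303030303030303030303030303030303030303030302b1b163030303030303030303030303028181d30303030303030303030303030302429130c1c30303030303030303030303030303030303030303030303030301c0c11211a0e0c183030303030303030302126302f23211512303030303030302b1b2030291d1b0f1212303030303030302a2b151222202c2f303030303030302c1c212d2a1e1c100d1318303030303030292a1411211f1d1a20250d1230303030292a1411211f2320262b130e1230300e2e293030261a26292f2a30303030301a2627110e1e1c201d232810150f0c18 2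
    [[2],[32],[],[0x2000],[0x20000],[0x200000],[],[]]
    [.con 1 2,.con 2 2,.con 4 2,.con 5 2,.con 6 2])]

theorem cD8r_195 : NodeU 8 cD8r_195_w [] :=
  nodeG_of (C := 4) (sy := cD8r_195_s) (st := cD8r_195_t) (D := cD8r_195_D) (Ns := cD8r_195_n) (by norm_num) (by norm_num)
    ttD8r_ok (by decide +kernel) (by decide +kernel) (by decide +kernel)

/-- classes `0 0 1 1 2 0 3 2` -/
noncomputable def cD8r_196_w : List ℕ := [k0,k0,k16,k16,k32,k0,k48,k32]

/-- symmetries -/
noncomputable def cD8r_196_s : List (Bool × ℕ × List ℕ) :=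
  []

/-- steps -/
noncomputable def cD8r_196_t : List (ℕ × ℕ × ℕ × ℕ × ℕ × ℕ) :=
  [(k1,254,k0,k1,k15,k14),(k8,k174,k0,k8,k10,k14),(k11,k158,k0,k11,k9,k14),(k14,k14,k0,k14,k0,k14),(k16,k35,k1,k0,k2,
    k3),(k18,k67,k1,k2,k4,k3),(k19,k19,k1,k3,k1,k3),(k21,k51,k1,k5,k3,k3),(k26,k195,k1,k10,k12,k3),(k29,k179,k1,k13,
    k11,k3),(k32,k32,k2,k0,k2,k0),(k34,k64,k2,k2,k4,k0),(k37,k48,k2,k5,k3,k0),(k42,k192,k2,k10,k12,k0),(k45,k176,k2,
    k13,k11,k0),(k50,k69,k3,k2,k4,k5),(k53,k53,k3,k5,k3,k5),(k58,k197,k3,k10,k12,k5),(k61,k181,k3,k13,k11,k5),(k66,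
    k66,k4,k2,k4,k2),(k74,k194,k4,k10,k12,k2),(k77,k178,k4,k13,k11,k2),(k84,k103,k5,k4,k6,k7),(k86,k135,k5,k6,k8,k7),
    (k87,k87,k5,k7,k5,k7),(k89,k119,k5,k9,k7,k7),(k100,k100,k6,k4,k6,k4),(k102,k132,k6,k6,k8,k4),(k105,k116,k6,k9,k7,
    k4),(k118,k137,k7,k6,k8,k9),(k121,k121,k7,k9,k7,k9),(k134,k134,k8,k6,k8,k6),(k145,251,k9,k1,k15,k11),(k152,k171,
    k9,k8,k10,k11),(k155,k155,k9,k11,k9,k11),(k161,248,k10,k1,k15,k8),(k168,k168,k10,k8,k10,k8),(k186,205,k11,k10,k12,
    k13),(k189,k189,k11,k13,k11,k13),(202,202,k12,k10,k12,k10),(220,239,k13,k12,k14,k15),(223,223,k13,k15,k13,k15),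
    (236,236,k14,k12,k14,k12),(241,241,k15,k1,k15,k1)]

/-- equations of the nodes -/
noncomputable def cD8r_196_D : List (List (List (List (ℕ × ℕ)))) :=
  [[[[]]]]

/-- nodes -/
noncomputable def cD8r_196_n : List (QG PN) :=
  [.q (.lp 7 24 2 0x120000000c0000000d0000000f0000000e0000000c0000000c0000000c0000000d0000000d0000000f0000000f0000000d0000000d0000000c0000000c 0x6000000000000000300000005000000060000000400000006000000060000000500000005000000030000000300000005000000050000000600000006
    0x3048c181860c063060c1830606180c60c073060c183060c183060c180e60c083060c183060c183060c183060818302cc1830606180c28c0930605983018c1830605981224c0c3030c180c60c063060c1830606183018c180c60c063060c1830603183060c183060318161cc093060c183060c1830603981020c063060c183060c1830605981020c0a3060c183060c1830604981418c0c3060c183060618302cc1830606180c28c0930605183024c1830605181020c0b30603183024c1830603181020c0730604983030c1830604980e2cc063030c181860c063060c183060318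
    0x3060c183060c183060c183060c182460c183060c183060c183060c183060c183060c183060c183060c18301c4183060c183060c183060c1818489983060c183060c183060c18244898b0c30c183060c183060c183060c183060c183060c183060c180c30691181830c3060c183060c18225cc182e4488b1060c183060c181a4ca1826346871020c183060c182e4ca0c16448973060c183060c181e54b182a3c7890c286183060c182a34706123c78f18409061060c182a4490a123c7932050b0a1020c181848997243030c1a447972a54c18244088918486121e4ca89161c30c 2
    [[2],[32],[],[0x2000],[0x20000],[0x200000],[],[]]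
    [.con 1 2,.con 2 2,.con 4 2,.con 5 2,.con 6 2])]

theorem cD8r_196 : NodeU 8 cD8r_196_w [] :=
  nodeG_of (C := 4) (sy := cD8r_196_s) (st := cD8r_196_t) (D := cD8r_196_D) (Ns := cD8r_196_n) (by norm_num) (by norm_num)
    ttD8r_ok (by decide +kernel) (by decide +kernel) (by decide +kernel)

/-- classes `0 0 1 1 2 3 2 3` -/
noncomputable def cD8r_198_w : List ℕ := [k0,k0,k16,k16,k32,k48,k32,k48]

/-- symmetries -/
noncomputable def cD8r_198_s : List (Bool × ℕ × List ℕ) :=
  []

/-- steps -/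
noncomputable def cD8r_198_t : List (ℕ × ℕ × ℕ × ℕ × ℕ × ℕ) :=
  [(k1,254,k0,k1,k15,k14),(k10,206,k0,k10,k12,k14),(k13,k190,k0,k13,k11,k14),(k14,k14,k0,k14,k0,k14),(k16,k35,k1,k0,
    k2,k3),(k18,k67,k1,k2,k4,k3),(k19,k19,k1,k3,k1,k3),(k21,k51,k1,k5,k3,k3),(k32,k32,k2,k0,k2,k0),(k34,k64,k2,k2,k4,
    k0),(k37,k48,k2,k5,k3,k0),(k50,k69,k3,k2,k4,k5),(k53,k53,k3,k5,k3,k5),(k66,k66,k4,k2,k4,k2),(k84,k103,k5,k4,k6,
    k7),(k86,k135,k5,k6,k8,k7),(k87,k87,k5,k7,k5,k7),(k89,k119,k5,k9,k7,k7),(k100,k100,k6,k4,k6,k4),(k102,k132,k6,k6,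
    k8,k4),(k105,k116,k6,k9,k7,k4),(k118,k137,k7,k6,k8,k9),(k121,k121,k7,k9,k7,k9),(k134,k134,k8,k6,k8,k6),(k152,k171,
    k9,k8,k10,k11),(k155,k155,k9,k11,k9,k11),(k156,235,k9,k12,k14,k11),(k159,219,k9,k15,k13,k11),(k168,k168,k10,k8,
    k10,k8),(k172,232,k10,k12,k14,k8),(k175,216,k10,k15,k13,k8),(k177,253,k11,k1,k15,k13),(k186,205,k11,k10,k12,k13),
    (k189,k189,k11,k13,k11,k13),(k193,250,k12,k1,k15,k10),(202,202,k12,k10,k12,k10),(220,239,k13,k12,k14,k15),(223,
    223,k13,k15,k13,k15),(236,236,k14,k12,k14,k12),(241,241,k15,k1,k15,k1)]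

/-- equations of the nodes -/
noncomputable def cD8r_198_D : List (List (List (List (ℕ × ℕ)))) :=
  [[[[]]]]

/-- nodes -/
noncomputable def cD8r_198_n : List (QG PN) :=
  [.q (.lp 7 24 2 0xc000000120000000f0000000f0000000c0000000c0000000c0000000c0000000d0000000d0000000f0000000f0000000d0000000d0000000c0000000c 0x60000000300000003000000060000000600000006000000060000000500000005000000030000000300000005000000050000000600000006
    0x30184983024c183060c1830603182460c0f1e60c063060c183060c181e60c0c1e60c063060c183060c1830246183024c183060c18306031830244983018c183060c1830603181e60c0f0c60c063060c183060c180c60c060c60c063060c183060c183060c183060318161cc093060c183060c1830603981020c063060c183060c1830605981020c0a3060c183060c1830604981418c0c3060c183060c183060c1830606180c28c093060c183060c1830605181020c0b3060c183060c1830603181020c073060c183060c1830604980e2cc0630183183018c183060c183060318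
    0x3060c183060c183060c183060c180c60c183060c183060c183060c181260c183060c183060c183060c182a3c6183060c183060c183060c182a3c7983060c183060c183060c181254a890c30c183060c183060c183060c183060c183060c183060c18181830f181830c3060c183060c182e448982e4488b1060c183060c18263469626346871020c183060c183060c183060c183060c183060c182a3c7982a3c7890c286183060c183054a983054a8f18409061060c183060c183060c132050b0a1020c180c549060c30612265ca983060c181860c0c18489121e4ca89161c30c 2
    [[2],[32],[],[0x2000],[0x20000],[0x200000],[],[]]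
    [.con 1 2,.con 2 2,.con 4 2,.con 5 2,.con 6 2])]

theorem cD8r_198 : NodeU 8 cD8r_198_w [] :=
  nodeG_of (C := 4) (sy := cD8r_198_s) (st := cD8r_198_t) (D := cD8r_198_D) (Ns := cD8r_198_n) (by norm_num) (by norm_num)
    ttD8r_ok (by decide +kernel) (by decide +kernel) (by decide +kernel)

/-- classes `0 0 1 2 0 1 1 3` -/
noncomputable def cD8r_202_w : List ℕ := [k0,k0,k16,k32,k0,k16,k16,k48]

/-- symmetries -/
noncomputable def cD8r_202_s : List (Bool × ℕ × List ℕ) :=
  []

/-- steps -/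
noncomputable def cD8r_202_t : List (ℕ × ℕ × ℕ × ℕ × ℕ × ℕ) :=
  [(k1,254,k0,k1,k15,k14),(k14,k14,k0,k14,k0,k14),(k16,k35,k1,k0,k2,k3),(k18,k67,k1,k2,k4,k3),(k19,k19,k1,k3,k1,k3),
    (k21,k51,k1,k5,k3,k3),(k24,k163,k1,k8,k10,k3),(k27,k147,k1,k11,k9,k3),(k32,k32,k2,k0,k2,k0),(k34,k64,k2,k2,k4,k0),
    (k37,k48,k2,k5,k3,k0),(k40,k160,k2,k8,k10,k0),(k43,k144,k2,k11,k9,k0),(k50,k69,k3,k2,k4,k5),(k53,k53,k3,k5,k3,k5),
    (k56,k165,k3,k8,k10,k5),(k59,k149,k3,k11,k9,k5),(k66,k66,k4,k2,k4,k2),(k72,k162,k4,k8,k10,k2),(k75,k146,k4,k11,k9,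
    k2),(k84,k103,k5,k4,k6,k7),(k87,k87,k5,k7,k5,k7),(k90,k199,k5,k10,k12,k7),(k92,231,k5,k12,k14,k7),(k93,k183,k5,
    k13,k11,k7),(k95,215,k5,k15,k13,k7),(k100,k100,k6,k4,k6,k4),(k106,k196,k6,k10,k12,k4),(k108,228,k6,k12,k14,k4),
    (k109,k180,k6,k13,k11,k4),(k111,212,k6,k15,k13,k4),(k118,k137,k7,k6,k8,k9),(k121,k121,k7,k9,k7,k9),(k134,k134,k8,
    k6,k8,k6),(k152,k171,k9,k8,k10,k11),(k155,k155,k9,k11,k9,k11),(k168,k168,k10,k8,k10,k8),(k186,205,k11,k10,k12,
    k13),(k188,237,k11,k12,k14,k13),(k189,k189,k11,k13,k11,k13),(k191,221,k11,k15,k13,k13),(202,202,k12,k10,k12,k10),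
    (204,234,k12,k12,k14,k10),(207,218,k12,k15,k13,k10),(220,239,k13,k12,k14,k15),(223,223,k13,k15,k13,k15),(236,236,
    k14,k12,k14,k12),(241,241,k15,k1,k15,k1)]

/-- equations of the nodes -/
noncomputable def cD8r_202_D : List (List (List (List (ℕ × ℕ)))) :=
  [[[[]]]]

/-- nodes -/
noncomputable def cD8r_202_n : List (QG PN) :=
  [.q (.lp 8 48 2 0x17000000170000001800000018000000140000001600000013000000130000001200000012000000180000001800000014000000140000001200000012 0x1000000010000000000000000000000020000000400000005000000050000000600000006000000000000000000000004000000040000000600000006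
    0x301630303030303030303030303011301a3017173013303011303011303030301730181430143030183030183030303017301c18301430300c3030143030303013301414300c30301230301a303030303030303014303011303016301212300c303030301130300e30301330130f300d3030303030300e30300d3030303030303030303030300d30300c30303030303011300c18301230300c3030123030303011301418301a303012303018303030303030303016303013303018300c143012303030301230300f3030143010103016303030301230301330300c301010300e303030300c30300d303012300e16300c30113030303030303030303030300c30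
    0x30303030303030303030303030303030163030303030303030303030303030302d1718303030303030303030303030302d17141830303030303030303030303030303030303030303030303030303030291314140c203030303030303030303030303030303030303030303030303030302425251d110e1c30303030303030302711180c122623303030303030303030301d24181e1e1b0d0c1830303030303030292a2a221613212028303030303030271118141a2e2b1f1e12183030303030301d24201e121321201e240c10303030302526261e120f1d1c242c1410103030112b28282430302f2e222230302e30301d1f2020180c0d1b1a1e2612160e0c18 2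
    [[2],[32],[],[0x2000],[0x20000],[0x200000],[],[]]
    [.con 1 2,.con 2 2,.con 4 2,.con 5 2,.con 6 2])]

theorem cD8r_202 : NodeU 8 cD8r_202_w [] :=
  nodeG_of (C := 4) (sy := cD8r_202_s) (st := cD8r_202_t) (D := cD8r_202_D) (Ns := cD8r_202_n) (by norm_num) (by norm_num)
    ttD8r_ok (by decide +kernel) (by decide +kernel) (by decide +kernel)

/-- classes `0 0 1 2 3 3 1 2` -/
noncomputable def cD8r_226_w : List ℕ := [k0,k0,k16,k32,k48,k48,k16,k32]

/-- symmetries -/
noncomputable def cD8r_226_s : List (Bool × ℕ × List ℕ) :=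
  []

/-- steps -/
noncomputable def cD8r_226_t : List (ℕ × ℕ × ℕ × ℕ × ℕ × ℕ) :=
  [(k1,254,k0,k1,k15,k14),(k6,k142,k0,k6,k8,k14),(k9,k126,k0,k9,k7,k14),(k14,k14,k0,k14,k0,k14),(k16,k35,k1,k0,k2,k3),
    (k18,k67,k1,k2,k4,k3),(k19,k19,k1,k3,k1,k3),(k21,k51,k1,k5,k3,k3),(k32,k32,k2,k0,k2,k0),(k34,k64,k2,k2,k4,k0),
    (k37,k48,k2,k5,k3,k0),(k50,k69,k3,k2,k4,k5),(k53,k53,k3,k5,k3,k5),(k66,k66,k4,k2,k4,k2),(k84,k103,k5,k4,k6,k7),
    (k87,k87,k5,k7,k5,k7),(k92,231,k5,k12,k14,k7),(k95,215,k5,k15,k13,k7),(k100,k100,k6,k4,k6,k4),(k108,228,k6,k12,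
    k14,k4),(k111,212,k6,k15,k13,k4),(k113,249,k7,k1,k15,k9),(k118,k137,k7,k6,k8,k9),(k121,k121,k7,k9,k7,k9),(k129,
    246,k8,k1,k15,k6),(k134,k134,k8,k6,k8,k6),(k152,k171,k9,k8,k10,k11),(k154,203,k9,k10,k12,k11),(k155,k155,k9,k11,
    k9,k11),(k157,k187,k9,k13,k11,k11),(k168,k168,k10,k8,k10,k8),(k170,200,k10,k10,k12,k8),(k173,k184,k10,k13,k11,k8),
    (k186,205,k11,k10,k12,k13),(k189,k189,k11,k13,k11,k13),(202,202,k12,k10,k12,k10),(220,239,k13,k12,k14,k15),(223,
    223,k13,k15,k13,k15),(236,236,k14,k12,k14,k12),(241,241,k15,k1,k15,k1)]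

/-- equations of the nodes -/
noncomputable def cD8r_226_D : List (List (List (List (ℕ × ℕ)))) :=
  [[[[]]]]

/-- nodes -/
noncomputable def cD8r_226_n : List (QG PN) :=
  [.q (.lp 7 24 2 0xc0000000c0000000c0000000c0000000a0000000a000000090000000900000009000000090000000c0000000c0000000a0000000a0000000900000009 0x20000000200000003000000030000000300000003000000000000000000000002000000020000000300000003
    0x3030c1830604983024c1830604981860c0c3060c181e60c0c3060c181860c0c3060c181260c063060c1830606180c28c093060c183060c1830605181020c0b3060c183060c1830603181020c073060c183060c1830604980e2cc063060c183060c183024c1830603183018c1830603183024c1830603183018c1830603181e60c093060c180c60c093060c181860c063060c181260c0c3060c183060c183060c1830606180c28c093060c183060c1830605181020c0b3060c183060c1830603181020c073060c183060c1830604980e2cc063024c1830603183018c183060318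
    0x3060c183060c183060c183060c181860c183060c183060c183060c183060c183060c183060c183060c1830306183060c183060c183060c1830489061060c183060c183060c183058b0a1020c183060c183060c181254a983060c183060c183060c181e54a89161c30c3060c183060c18303c495263c9183060c183060c18125478f22346060c30c183060c183060c183060c183060c183060c182430312203078f1e246183060c1830486182c48a952a3c9061060c1830588183058c18304cb0a1020c18125478f22346060c307983054c181e547952e4c90c1848a89161c30c 2
    [[2],[32],[],[0x2000],[0x20000],[0x200000],[],[]]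
    [.con 1 2,.con 2 2,.con 4 2,.con 5 2,.con 6 2])]

theorem cD8r_226 : NodeU 8 cD8r_226_w [] :=
  nodeG_of (C := 4) (sy := cD8r_226_s) (st := cD8r_226_t) (D := cD8r_226_D) (Ns := cD8r_226_n) (by norm_num) (by norm_num)
    ttD8r_ok (by decide +kernel) (by decide +kernel) (by decide +kernel)

theorem sD8r_13 : Solved 8 [cD8r_1_w, cD8r_2_w, cD8r_5_w, cD8r_6_w, cD8r_7_w, cD8r_8_w, cD8r_9_w, cD8r_11_w,
    cD8r_12_w, cD8r_14_w, cD8r_15_w, cD8r_16_w, cD8r_17_w, cD8r_18_w, cD8r_19_w, cD8r_20_w, cD8r_32_w, cD8r_34_w,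
    cD8r_35_w, cD8r_42_w, cD8r_44_w, cD8r_45_w, cD8r_47_w, cD8r_49_w, cD8r_50_w, cD8r_53_w, cD8r_54_w, cD8r_55_w,
    cD8r_57_w, cD8r_58_w, cD8r_59_w, cD8r_65_w, cD8r_70_w, cD8r_71_w, cD8r_73_w, cD8r_74_w, cD8r_77_w, cD8r_78_w,
    cD8r_79_w, cD8r_80_w, cD8r_81_w, cD8r_83_w, cD8r_85_w, cD8r_87_w, cD8r_131_w, cD8r_137_w, cD8r_156_w, cD8r_159_w,
    cD8r_162_w, cD8r_173_w, cD8r_175_w, cD8r_178_w, cD8r_189_w, cD8r_193_w, cD8r_194_w, cD8r_195_w, cD8r_196_w,
    cD8r_198_w, cD8r_202_w, cD8r_226_w] :=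
  Solved.cons cD8r_1 (
  Solved.cons cD8r_2 (
  Solved.cons cD8r_5 (
  Solved.cons cD8r_6 (
  Solved.cons cD8r_7 (
  Solved.cons cD8r_8 (
  Solved.cons cD8r_9 (
  Solved.cons cD8r_11 (
  Solved.cons cD8r_12 (
  Solved.cons cD8r_14 (
  Solved.cons cD8r_15 (
  Solved.cons cD8r_16 (
  Solved.cons cD8r_17 (
  Solved.cons cD8r_18 (
  Solved.cons cD8r_19 (
  Solved.cons cD8r_20 (
  Solved.cons cD8r_32 (
  Solved.cons cD8r_34 (
  Solved.cons cD8r_35 (
  Solved.cons cD8r_42 (
  Solved.cons cD8r_44 (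
  Solved.cons cD8r_45 (
  Solved.cons cD8r_47 (
  Solved.cons cD8r_49 (
  Solved.cons cD8r_50 (
  Solved.cons cD8r_53 (
  Solved.cons cD8r_54 (
  Solved.cons cD8r_55 (
  Solved.cons cD8r_57 (
  Solved.cons cD8r_58 (
  Solved.cons cD8r_59 (
  Solved.cons cD8r_65 (
  Solved.cons cD8r_70 (
  Solved.cons cD8r_71 (
  Solved.cons cD8r_73 (
  Solved.cons cD8r_74 (
  Solved.cons cD8r_77 (
  Solved.cons cD8r_78 (
  Solved.cons cD8r_79 (
  Solved.cons cD8r_80 (
  Solved.cons cD8r_81 (
  Solved.cons cD8r_83 (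
  Solved.cons cD8r_85 (
  Solved.cons cD8r_87 (
  Solved.cons cD8r_131 (
  Solved.cons cD8r_137 (
  Solved.cons cD8r_156 (
  Solved.cons cD8r_159 (
  Solved.cons cD8r_162 (
  Solved.cons cD8r_173 (
  Solved.cons cD8r_175 (
  Solved.cons cD8r_178 (
  Solved.cons cD8r_189 (
  Solved.cons cD8r_193 (
  Solved.cons cD8r_194 (
  Solved.cons cD8r_195 (
  Solved.cons cD8r_196 (
  Solved.cons cD8r_198 (
  Solved.cons cD8r_202 (
  Solved.cons cD8r_226 (
  Solved.nil))))))))))))))))))))))))))))))))))))))))))))))))))))))))))))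

end Pool.Agent.Lib_MP_fa6e45
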