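import Pool.Agent.Lib_MP_fa6e45.DQA
import Pool.Agent.Lib_MP_fa6e45.DQ8rT

/-!
MP_fa6e45_co, stage 9: straight-side patterns with `8` sides, certificates (generated by a program).
-/

namespace Pool.Agent.Lib_MP_fa6e45

/-- classes `0 1 2 3 4 5 6 7` -/
noncomputable def cD8r_0_w : List ℕ := [k0,k16,k32,k48,k64,k80,k96,k112]

/-- symmetries -/
noncomputable def cD8r_0_s : List (Bool × ℕ × List ℕ) :=
  []

/-- steps -/
noncomputable def cD8r_0_t : List (ℕ × ℕ × ℕ × ℕ × ℕ × ℕ) :=
  [(k1,254,k0,k1,k15,k14),(k14,k14,k0,k14,k0,k14),(k16,k35,k1,k0,k2,k3),(k19,k19,k1,k3,k1,k3),(k32,k32,k2,k0,k2,k0),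
    (k50,k69,k3,k2,k4,k5),(k53,k53,k3,k5,k3,k5),(k66,k66,k4,k2,k4,k2),(k84,k103,k5,k4,k6,k7),(k87,k87,k5,k7,k5,k7),
    (k100,k100,k6,k4,k6,k4),(k118,k137,k7,k6,k8,k9),(k121,k121,k7,k9,k7,k9),(k134,k134,k8,k6,k8,k6),(k152,k171,k9,k8,
    k10,k11),(k155,k155,k9,k11,k9,k11),(k168,k168,k10,k8,k10,k8),(k186,205,k11,k10,k12,k13),(k189,k189,k11,k13,k11,
    k13),(202,202,k12,k10,k12,k10),(220,239,k13,k12,k14,k15),(223,223,k13,k15,k13,k15),(236,236,k14,k12,k14,k12),(241,
    241,k15,k1,k15,k1)]

/-- equations of the nodes -/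
noncomputable def cD8r_0_D : List (List (List (List (ℕ × ℕ)))) :=
  [[[[]]]]

/-- nodes -/
noncomputable def cD8r_0_n : List (QG PN) :=
  [.q (.lp 6 8 2 0x4000000040000000400000004000000040000000400000003000000030000000300000003000000030000000300000003000000030000000300000003 0x1000000010000000100000001000000010000000100000001000000010000000100000001
    0x2042082082082082082080c81082042082082082082082081082042082082082082082082081082042082082082082082081082042082082082082082082081082032082082082082082080c8202208208208208208208208088202208208208208208208088202208208208208208208208088202208208208208208208088202208208208208208208208088202208208208208208208088202208208208208208208208088202208208208208208208088202203208208208208208208088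
    0x2082082082082082082082081082082082082082082082082082082082082082082082082041082082082082082082082082082082082082082082082082041082082082082082082082082082082082082082082082071c30842082082082082082082082082082082082082082082051020842082082082082082082082082082082082082082071841020842082082082082082082082082082082082082082061841020842080c71c8208208208208208208148208208208206184102084 2
    [[2],[32],[512],[0x2000],[0x20000],[],[],[]]
    [.con 1 2,.con 2 2,.con 3 2,.con 4 2,.con 5 2])]

theorem cD8r_0 : NodeU 8 cD8r_0_w [] :=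
  nodeG_of (C := 8) (sy := cD8r_0_s) (st := cD8r_0_t) (D := cD8r_0_D) (Ns := cD8r_0_n) (by norm_num) (by norm_num)
    ttD8r_ok (by decide +kernel) (by decide +kernel) (by decide +kernel)

/-- classes `0 1 2 0 3 4 5 6` -/
noncomputable def cD8r_3_w : List ℕ := [k0,k16,k32,k0,k48,k64,k80,k96]

/-- symmetries -/
noncomputable def cD8r_3_s : List (Bool × ℕ × List ℕ) :=
  []

/-- steps -/
noncomputable def cD8r_3_t : List (ℕ × ℕ × ℕ × ℕ × ℕ × ℕ) :=
  [(k1,254,k0,k1,k15,k14),(k14,k14,k0,k14,k0,k14),(k16,k35,k1,k0,k2,k3),(k19,k19,k1,k3,k1,k3),(k22,k131,k1,k6,k8,k3),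
    (k25,k115,k1,k9,k7,k3),(k32,k32,k2,k0,k2,k0),(k38,k128,k2,k6,k8,k0),(k41,k112,k2,k9,k7,k0),(k50,k69,k3,k2,k4,k5),
    (k53,k53,k3,k5,k3,k5),(k66,k66,k4,k2,k4,k2),(k84,k103,k5,k4,k6,k7),(k87,k87,k5,k7,k5,k7),(k100,k100,k6,k4,k6,k4),
    (k118,k137,k7,k6,k8,k9),(k121,k121,k7,k9,k7,k9),(k134,k134,k8,k6,k8,k6),(k152,k171,k9,k8,k10,k11),(k155,k155,k9,
    k11,k9,k11),(k168,k168,k10,k8,k10,k8),(k186,205,k11,k10,k12,k13),(k189,k189,k11,k13,k11,k13),(202,202,k12,k10,k12,
    k10),(220,239,k13,k12,k14,k15),(223,223,k13,k15,k13,k15),(236,236,k14,k12,k14,k12),(241,241,k15,k1,k15,k1)]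

/-- equations of the nodes -/
noncomputable def cD8r_3_D : List (List (List (List (ℕ × ℕ)))) :=
  [[[[]]]]

/-- nodes -/
noncomputable def cD8r_3_n : List (QG PN) :=
  [.q (.lp 7 24 2 0xd0000000d0000000d0000000d0000000a0000000a0000000c0000000e0000000b0000000b0000000a0000000a0000000a0000000a0000000a0000000a 0x1000000010000000100000001000000040000000400000000000000020000000300000003000000040000000400000004000000040000000400000004
    0x3030c183060c183060c1830604981860c0c3060c183060c183060c181860c0c3060c183060c183060c1830606183024c183060c183060c1830604983018c183060c183060c183060c180c60c083060c183060c183060c181060c0a3060c183060c183060c183060718302cc181460c063060c1830605983020c181660c073060c183060c181060c073060c183060c183060c180e60c063060c183060c183060c1830603183018c183060c183060c1830603183018c183060c183060518302cc180c60c063060c183060318301cc180c60c063024c183060c183060c183060318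
    0x3060c183060c183060c183060c181860c183060c183060c183060c183060c183060c183060c183060c1830306183060c183060c183060c183060c183060c183060c183060c183054a890c30c183060c183060c183060c183060c183060c183060c183060c111c205183060c183060c183060c183060c183060c183060c183060c18304ca8b1040c183060c183060c183060c183060c183060c183060c183060c121e1c30c3060c183060c183048a0a164c9183060c183060c183060c1022346060c30c181254a983060c183060c183060c181e60c1728388060e3c70c181830c 2
    [[2],[32],[512],[0x2000],[],[0x200000],[],[]]
    [.con 1 2,.con 2 2,.con 3 2,.con 4 2,.con 6 2])]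

theorem cD8r_3 : NodeU 8 cD8r_3_w [] :=
  nodeG_of (C := 7) (sy := cD8r_3_s) (st := cD8r_3_t) (D := cD8r_3_D) (Ns := cD8r_3_n) (by norm_num) (by norm_num)
    ttD8r_ok (by decide +kernel) (by decide +kernel) (by decide +kernel)

/-- classes `0 1 2 3 0 4 5 6` -/
noncomputable def cD8r_4_w : List ℕ := [k0,k16,k32,k48,k0,k64,k80,k96]

/-- symmetries -/
noncomputable def cD8r_4_s : List (Bool × ℕ × List ℕ) :=
  []

/-- steps -/
noncomputable def cD8r_4_t : List (ℕ × ℕ × ℕ × ℕ × ℕ × ℕ) :=
  [(k1,254,k0,k1,k15,k14),(k14,k14,k0,k14,k0,k14),(k16,k35,k1,k0,k2,k3),(k19,k19,k1,k3,k1,k3),(k24,k163,k1,k8,k10,k3),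
    (k27,k147,k1,k11,k9,k3),(k32,k32,k2,k0,k2,k0),(k40,k160,k2,k8,k10,k0),(k43,k144,k2,k11,k9,k0),(k50,k69,k3,k2,k4,
    k5),(k53,k53,k3,k5,k3,k5),(k66,k66,k4,k2,k4,k2),(k84,k103,k5,k4,k6,k7),(k87,k87,k5,k7,k5,k7),(k100,k100,k6,k4,k6,
    k4),(k118,k137,k7,k6,k8,k9),(k121,k121,k7,k9,k7,k9),(k134,k134,k8,k6,k8,k6),(k152,k171,k9,k8,k10,k11),(k155,k155,
    k9,k11,k9,k11),(k168,k168,k10,k8,k10,k8),(k186,205,k11,k10,k12,k13),(k189,k189,k11,k13,k11,k13),(202,202,k12,k10,
    k12,k10),(220,239,k13,k12,k14,k15),(223,223,k13,k15,k13,k15),(236,236,k14,k12,k14,k12),(241,241,k15,k1,k15,k1)]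

/-- equations of the nodes -/
noncomputable def cD8r_4_D : List (List (List (List (ℕ × ℕ)))) :=
  [[[[]]]]

/-- nodes -/
noncomputable def cD8r_4_n : List (QG PN) :=
  [.q (.lp 6 8 2 0x4000000040000000400000004000000040000000400000003000000030000000300000003000000030000000300000003000000030000000300000003 0x1000000010000000100000001000000010000000100000001000000010000000100000001
    0x2042082082082082082080c81082042082082082082082081082042082082082082082082081082042082082082082082081082042082082082082082082081082032082080c82032082080c82022082080882022082082080882022082082082082082080882022082082082082082082080882022082082082082082080882022082082082082082082080882022082082082082082080882022082082080c82022082080882022082080c8202208208088202203208208208208208208088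
    0x2082082082082082082082081082082082082082082082082082082082082082082082082041082082082082082082082082082082082082082082082082041082082082082082082082082082082082082082082082071c30842082082082082082082082082082082082082082082051020842082082082082082082082082082082082082082071841020842082082082071c30841061882082082082082051061841020842080c71c82082082082082082081482071c3084106184102084 2
    [[2],[32],[512],[0x2000],[0x20000],[],[],[]]
    [.con 1 2,.con 2 2,.con 3 2,.con 4 2,.con 5 2])]

theorem cD8r_4 : NodeU 8 cD8r_4_w [] :=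
  nodeG_of (C := 7) (sy := cD8r_4_s) (st := cD8r_4_t) (D := cD8r_4_D) (Ns := cD8r_4_n) (by norm_num) (by norm_num)
    ttD8r_ok (by decide +kernel) (by decide +kernel) (by decide +kernel)

/-- classes `0 1 0 2 3 1 4 5` -/
noncomputable def cD8r_21_w : List ℕ := [k0,k16,k0,k32,k48,k16,k64,k80]

/-- symmetries -/
noncomputable def cD8r_21_s : List (Bool × ℕ × List ℕ) :=
  []

/-- steps -/
noncomputable def cD8r_21_t : List (ℕ × ℕ × ℕ × ℕ × ℕ × ℕ) :=
  [(k1,254,k0,k1,k15,k14),(k14,k14,k0,k14,k0,k14),(k16,k35,k1,k0,k2,k3),(k19,k19,k1,k3,k1,k3),(k20,k99,k1,k4,k6,k3),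
    (k23,k83,k1,k7,k5,k3),(k32,k32,k2,k0,k2,k0),(k36,k96,k2,k4,k6,k0),(k39,k80,k2,k7,k5,k0),(k50,k69,k3,k2,k4,k5),
    (k53,k53,k3,k5,k3,k5),(k58,k197,k3,k10,k12,k5),(k61,k181,k3,k13,k11,k5),(k66,k66,k4,k2,k4,k2),(k74,k194,k4,k10,
    k12,k2),(k77,k178,k4,k13,k11,k2),(k84,k103,k5,k4,k6,k7),(k87,k87,k5,k7,k5,k7),(k100,k100,k6,k4,k6,k4),(k118,k137,
    k7,k6,k8,k9),(k121,k121,k7,k9,k7,k9),(k134,k134,k8,k6,k8,k6),(k152,k171,k9,k8,k10,k11),(k155,k155,k9,k11,k9,k11),
    (k168,k168,k10,k8,k10,k8),(k186,205,k11,k10,k12,k13),(k189,k189,k11,k13,k11,k13),(202,202,k12,k10,k12,k10),(220,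
    239,k13,k12,k14,k15),(223,223,k13,k15,k13,k15),(236,236,k14,k12,k14,k12),(241,241,k15,k1,k15,k1)]

/-- equations of the nodes -/
noncomputable def cD8r_21_D : List (List (List (List (ℕ × ℕ)))) :=
  [[[[]]]]

/-- nodes -/
noncomputable def cD8r_21_n : List (QG PN) :=
  [.q (.lp 7 24 2 0xd0000000d0000000a0000000a0000000a0000000a0000000a0000000a0000000c0000000e0000000d0000000d0000000b0000000b0000000a0000000a 0x1000000010000000400000004000000040000000400000004000000040000000000000002000000010000000100000003000000030000000400000004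
    0x3030c183060c183060c1830604981860c093060c183060c183060c181260c063060c183060c183060c1830603183018c183060498301cc1830603183018c183060498301cc183060c180c60c063060c183060c183060c180c60c063060c183060c183060c1830603183020c183060c183060c1830604183028c183060c183060c183060c181c60c0d1660c063060c183060c181a60c0c1c60c0930604983024c1830606183028c183060398301cc1830605183020c183060c183060c181660c0e1060c073060c183060c180c60c090e60c063024c183060c183060c183060318
    0x3060c183060c183060c183060c181860c183060c183060c183060c183060c183060c183060c183060c182a2430c3060c183060c183060c183060c183060c183060c183060c18303c6060c30c183060c183060c183060c183060c183060c183060c18305490c181830c3060c183060c183060c183060c183060c183060c183060c1428387081460c183060c183048789123c7952e60c183060c183060c152a60c152e346183060c183060c172e60c132a2c7183060c1830406870e346932a4cb0a1040c1812549183060c183060c183060c181e5ca0e1c50a0e20184911e1c30c 2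
    [[2],[32],[],[],[0x20000],[0x200000],[0x2000000],[]]
    [.con 1 2,.con 2 2,.con 5 2,.con 6 2,.con 7 2])]

theorem cD8r_21 : NodeU 8 cD8r_21_w [] :=
  nodeG_of (C := 6) (sy := cD8r_21_s) (st := cD8r_21_t) (D := cD8r_21_D) (Ns := cD8r_21_n) (by norm_num) (by norm_num)
    ttD8r_ok (by decide +kernel) (by decide +kernel) (by decide +kernel)

/-- classes `0 1 2 0 1 3 4 5` -/
noncomputable def cD8r_26_w : List ℕ := [k0,k16,k32,k0,k16,k48,k64,k80]

/-- symmetries -/
noncomputable def cD8r_26_s : List (Bool × ℕ × List ℕ) :=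
  []

/-- steps -/
noncomputable def cD8r_26_t : List (ℕ × ℕ × ℕ × ℕ × ℕ × ℕ) :=
  [(k1,254,k0,k1,k15,k14),(k14,k14,k0,k14,k0,k14),(k16,k35,k1,k0,k2,k3),(k19,k19,k1,k3,k1,k3),(k22,k131,k1,k6,k8,k3),
    (k25,k115,k1,k9,k7,k3),(k32,k32,k2,k0,k2,k0),(k38,k128,k2,k6,k8,k0),(k41,k112,k2,k9,k7,k0),(k50,k69,k3,k2,k4,k5),
    (k53,k53,k3,k5,k3,k5),(k56,k165,k3,k8,k10,k5),(k59,k149,k3,k11,k9,k5),(k66,k66,k4,k2,k4,k2),(k72,k162,k4,k8,k10,
    k2),(k75,k146,k4,k11,k9,k2),(k84,k103,k5,k4,k6,k7),(k87,k87,k5,k7,k5,k7),(k100,k100,k6,k4,k6,k4),(k118,k137,k7,k6,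
    k8,k9),(k121,k121,k7,k9,k7,k9),(k134,k134,k8,k6,k8,k6),(k152,k171,k9,k8,k10,k11),(k155,k155,k9,k11,k9,k11),(k168,
    k168,k10,k8,k10,k8),(k186,205,k11,k10,k12,k13),(k189,k189,k11,k13,k11,k13),(202,202,k12,k10,k12,k10),(220,239,k13,
    k12,k14,k15),(223,223,k13,k15,k13,k15),(236,236,k14,k12,k14,k12),(241,241,k15,k1,k15,k1)]

/-- equations of the nodes -/
noncomputable def cD8r_26_D : List (List (List (List (ℕ × ℕ)))) :=
  [[[[]]]]

/-- nodes -/
noncomputable def cD8r_26_n : List (QG PN) :=
  [.q (.lp 7 24 2 0xd0000000d0000000a0000000a0000000c0000000c0000000e0000000e0000000a0000000a0000000a0000000a0000000b0000000b0000000a0000000a 0x1000000010000000400000004000000020000000200000000000000000000000400000004000000040000000400000003000000030000000400000004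
    0x3030c183060c183060c1830604981860c093060c183060c183060c181260c063060c183060c183060c1830603183020c183060c183060c1830604183028c183060c183060c183060c181c60c0c30603183024c183060c181860c0a30605183034c183060c1830607183028c181660c063060c1830605183018c181660c063060c183060c180c60c063060c183060c183060c180c60c063060c183060c180c60c0a3060318301cc183060c181260c0d30603983020c183060c183060598302cc181060c073060c1830603183018c180e60c063024c183060c183060c183060318
    0x3060c183060c183060c183060c181860c183060c183060c183060c183060c183060c183060c183060c182a2430c3060c183060c183060c183060c183060c183060c183060c1830447081460c183060c183060c183060c183060c183060c183060c183060c142c305183060c183060c183060c183060c183060c183060c183060c183058a0a0c30c183060c18305ca0e20185182860c183060c183060c142c30810181830c3060c183060c18305ca8b16448953060c183060b91262469326346871040c1812549183060c183060c183060c181e60c1830408060c3060e1e1c30c 2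
    [[2],[32],[512],[0x2000],[],[],[0x2000000],[]]
    [.con 1 2,.con 2 2,.con 3 2,.con 4 2,.con 7 2])]

theorem cD8r_26 : NodeU 8 cD8r_26_w [] :=
  nodeG_of (C := 6) (sy := cD8r_26_s) (st := cD8r_26_t) (D := cD8r_26_D) (Ns := cD8r_26_n) (by norm_num) (by norm_num)
    ttD8r_ok (by decide +kernel) (by decide +kernel) (by decide +kernel)

/-- classes `0 1 2 0 3 1 4 5` -/
noncomputable def cD8r_27_w : List ℕ := [k0,k16,k32,k0,k48,k16,k64,k80]

/-- symmetries -/
noncomputable def cD8r_27_s : List (Bool × ℕ × List ℕ) :=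
  []

/-- steps -/
noncomputable def cD8r_27_t : List (ℕ × ℕ × ℕ × ℕ × ℕ × ℕ) :=
  [(k1,254,k0,k1,k15,k14),(k14,k14,k0,k14,k0,k14),(k16,k35,k1,k0,k2,k3),(k19,k19,k1,k3,k1,k3),(k22,k131,k1,k6,k8,k3),
    (k25,k115,k1,k9,k7,k3),(k32,k32,k2,k0,k2,k0),(k38,k128,k2,k6,k8,k0),(k41,k112,k2,k9,k7,k0),(k50,k69,k3,k2,k4,k5),
    (k53,k53,k3,k5,k3,k5),(k58,k197,k3,k10,k12,k5),(k61,k181,k3,k13,k11,k5),(k66,k66,k4,k2,k4,k2),(k74,k194,k4,k10,
    k12,k2),(k77,k178,k4,k13,k11,k2),(k84,k103,k5,k4,k6,k7),(k87,k87,k5,k7,k5,k7),(k100,k100,k6,k4,k6,k4),(k118,k137,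
    k7,k6,k8,k9),(k121,k121,k7,k9,k7,k9),(k134,k134,k8,k6,k8,k6),(k152,k171,k9,k8,k10,k11),(k155,k155,k9,k11,k9,k11),
    (k168,k168,k10,k8,k10,k8),(k186,205,k11,k10,k12,k13),(k189,k189,k11,k13,k11,k13),(202,202,k12,k10,k12,k10),(220,
    239,k13,k12,k14,k15),(223,223,k13,k15,k13,k15),(236,236,k14,k12,k14,k12),(241,241,k15,k1,k15,k1)]

/-- equations of the nodes -/
noncomputable def cD8r_27_D : List (List (List (List (ℕ × ℕ)))) :=
  [[[[]]]]

/-- nodes -/
noncomputable def cD8r_27_n : List (QG PN) :=
  [.q (.lp 7 24 2 0xe0000000e0000000e0000000e0000000b0000000b0000000c000000100000000b0000000b0000000b0000000b0000000c0000000c0000000b0000000b 0x2000000020000000200000002000000050000000500000000000000040000000500000005000000050000000500000004000000040000000500000005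
    0x3030c183060c183060c1830604981860c0c3060c183060c183060c181860c0c3060c183060c183060c1830606183024c1830604983028c1830604983018c183060318301cc183060c180c60c073060c183060c183060c180e60c083060c183060c183060c183060818302cc181860c073060c1830605983018c181660c063060c183060c180c60c063060c183060c183060c180c60c063060c1830604983018c183060318301cc183060518301cc1830603983020c183060c183060618302cc181060c073060c1830603983018c180e60c063024c183060c183060c183060318
    0x3060c183060c183060c183060c181860c183060c183060c183060c183060c183060c183060c183060c1830306183060c183060c183060c183060c183060c183060c183060c183054a890c30c183060c183060c183060c183060c183060c183060c183060c101a1c4183060c183060c183060c183060c183060c183060c183060c18304898b0c30c183060c183054a890c306983060c183060c183060c0f1848991181830c3060c183060c182e4ca0c16448973060c183058b0a0e3471426346871040c181254a983060c183060c183060c181e60c111c387870c3060e1e1c30c 2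
    [[2],[32],[512],[0x2000],[],[0x200000],[],[]]
    [.con 1 2,.con 2 2,.con 3 2,.con 4 2,.con 6 2])]

theorem cD8r_27 : NodeU 8 cD8r_27_w [] :=
  nodeG_of (C := 6) (sy := cD8r_27_s) (st := cD8r_27_t) (D := cD8r_27_D) (Ns := cD8r_27_n) (by norm_num) (by norm_num)
    ttD8r_ok (by decide +kernel) (by decide +kernel) (by decide +kernel)

/-- classes `0 1 2 0 3 2 4 5` -/
noncomputable def cD8r_28_w : List ℕ := [k0,k16,k32,k0,k48,k32,k64,k80]

/-- symmetries -/
noncomputable def cD8r_28_s : List (Bool × ℕ × List ℕ) :=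
  []

/-- steps -/
noncomputable def cD8r_28_t : List (ℕ × ℕ × ℕ × ℕ × ℕ × ℕ) :=
  [(k1,254,k0,k1,k15,k14),(k14,k14,k0,k14,k0,k14),(k16,k35,k1,k0,k2,k3),(k19,k19,k1,k3,k1,k3),(k22,k131,k1,k6,k8,k3),
    (k25,k115,k1,k9,k7,k3),(k32,k32,k2,k0,k2,k0),(k38,k128,k2,k6,k8,k0),(k41,k112,k2,k9,k7,k0),(k50,k69,k3,k2,k4,k5),
    (k53,k53,k3,k5,k3,k5),(k66,k66,k4,k2,k4,k2),(k84,k103,k5,k4,k6,k7),(k87,k87,k5,k7,k5,k7),(k90,k199,k5,k10,k12,k7),
    (k93,k183,k5,k13,k11,k7),(k100,k100,k6,k4,k6,k4),(k106,k196,k6,k10,k12,k4),(k109,k180,k6,k13,k11,k4),(k118,k137,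
    k7,k6,k8,k9),(k121,k121,k7,k9,k7,k9),(k134,k134,k8,k6,k8,k6),(k152,k171,k9,k8,k10,k11),(k155,k155,k9,k11,k9,k11),
    (k168,k168,k10,k8,k10,k8),(k186,205,k11,k10,k12,k13),(k189,k189,k11,k13,k11,k13),(202,202,k12,k10,k12,k10),(220,
    239,k13,k12,k14,k15),(223,223,k13,k15,k13,k15),(236,236,k14,k12,k14,k12),(241,241,k15,k1,k15,k1)]

/-- equations of the nodes -/
noncomputable def cD8r_28_D : List (List (List (List (ℕ × ℕ)))) :=
  [[[[]]]]

/-- nodes -/
noncomputable def cD8r_28_n : List (QG PN) :=
  [.q (.lp 7 24 2 0xd0000000d0000000d0000000d0000000a0000000a0000000c0000000e0000000a0000000a0000000a0000000a0000000b0000000b0000000a0000000a 0x1000000010000000100000001000000040000000400000000000000020000000400000004000000040000000400000003000000030000000400000004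
    0x3030c183060c183060c1830604981860c0c3060c183060c183060c181860c0c3060c183060c183060c1830606183024c181260c093060c1830604983018c180c60c063060c183060c180c60c083060c183060c183060c181060c0a3060c183060c183060c1830607183028c181660c063060c1830605183018c181660c0630604983018c180c60c063060c1830604983018c180c60c063060c183060c183060c183060318301cc183060c183060c1830603983020c183060c183060598302cc181060c073060c1830603183018c180e60c063024c183060c183060c183060318
    0x3060c183060c183060c183060c181860c183060c183060c183060c183060c183060c183060c183060c1830306183060c183060c183060c183060c183060c183060c183060c183054a890c30c183060c183060c183060c183060c183060c183060c183060c111c205183060c183060c183054a890c307183060c183060c183060c0f1848a0a0c30c183060c183060c183060c183060c183060c183054a890c30710181830c3060c183060c14224ca8b16448973060c183060c101a4ca9326346871040c181254a983060c183060c183060c181e60c0f18388060c3060e1e1c30c 2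
    [[2],[32],[512],[0x2000],[],[0x200000],[],[]]
    [.con 1 2,.con 2 2,.con 3 2,.con 4 2,.con 6 2])]

theorem cD8r_28 : NodeU 8 cD8r_28_w [] :=
  nodeG_of (C := 6) (sy := cD8r_28_s) (st := cD8r_28_t) (D := cD8r_28_D) (Ns := cD8r_28_n) (by norm_num) (by norm_num)
    ttD8r_ok (by decide +kernel) (by decide +kernel) (by decide +kernel)

/-- classes `0 1 2 3 0 1 4 5` -/
noncomputable def cD8r_30_w : List ℕ := [k0,k16,k32,k48,k0,k16,k64,k80]

/-- symmetries -/
noncomputable def cD8r_30_s : List (Bool × ℕ × List ℕ) :=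
  []

/-- steps -/
noncomputable def cD8r_30_t : List (ℕ × ℕ × ℕ × ℕ × ℕ × ℕ) :=
  [(k1,254,k0,k1,k15,k14),(k14,k14,k0,k14,k0,k14),(k16,k35,k1,k0,k2,k3),(k19,k19,k1,k3,k1,k3),(k24,k163,k1,k8,k10,k3),
    (k27,k147,k1,k11,k9,k3),(k32,k32,k2,k0,k2,k0),(k40,k160,k2,k8,k10,k0),(k43,k144,k2,k11,k9,k0),(k50,k69,k3,k2,k4,
    k5),(k53,k53,k3,k5,k3,k5),(k58,k197,k3,k10,k12,k5),(k61,k181,k3,k13,k11,k5),(k66,k66,k4,k2,k4,k2),(k74,k194,k4,
    k10,k12,k2),(k77,k178,k4,k13,k11,k2),(k84,k103,k5,k4,k6,k7),(k87,k87,k5,k7,k5,k7),(k100,k100,k6,k4,k6,k4),(k118,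
    k137,k7,k6,k8,k9),(k121,k121,k7,k9,k7,k9),(k134,k134,k8,k6,k8,k6),(k152,k171,k9,k8,k10,k11),(k155,k155,k9,k11,k9,
    k11),(k168,k168,k10,k8,k10,k8),(k186,205,k11,k10,k12,k13),(k189,k189,k11,k13,k11,k13),(202,202,k12,k10,k12,k10),
    (220,239,k13,k12,k14,k15),(223,223,k13,k15,k13,k15),(236,236,k14,k12,k14,k12),(241,241,k15,k1,k15,k1)]

/-- equations of the nodes -/
noncomputable def cD8r_30_D : List (List (List (List (ℕ × ℕ)))) :=
  [[[[]]]]

/-- nodes -/
noncomputable def cD8r_30_n : List (QG PN) :=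
  [.q (.lp 7 24 2 0xe0000000e0000000c000000100000000e0000000e0000000b0000000b0000000b0000000b0000000b0000000b0000000c0000000c0000000b0000000b 0x2000000020000000000000004000000020000000200000005000000050000000500000005000000050000000500000004000000040000000500000005
    0x3030c183060c183060c1830604981860c0a3060c183060c183060c181460c083060c183060c183060c1830608183038c1830603983030c1830607183030c1830604983038c183060c181860c093060c181460c093060c181260c063060c180e60c063060c1830603183018c183060c183060c1830603183018c183060c183060c183060c180c60c063060c183060c183060c180c60c063060c1830603983024c183060318301cc1830606183038c1830603983020c183060c181460c073060c181060c073060c181260c063060c180e60c063024c183060c183060c183060318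
    0x3060c183060c183060c183060c181860c183060c183060c183060c183060c183060c183060c183060c182c284183060c183060c183060c183060c183060c183060c183060c183060b0e1860c183060c183060c183060c183060c183060c183060c183060c172a2430c3060c183060c183060c183060c183060c183060c183060c18303c6060c30c183060c18304478712549183060c183060c18305ca8d1e5490c181830c3060c183060c182c2838d1a4c9933060c183058a0c1c4879326346871040c1812549983060c183060c183060c181e60c132a2430c184890e1e1c30c 2
    [[2],[32],[512],[0x2000],[0x20000],[],[],[]]
    [.con 1 2,.con 2 2,.con 3 2,.con 4 2,.con 5 2])]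

theorem cD8r_30 : NodeU 8 cD8r_30_w [] :=
  nodeG_of (C := 6) (sy := cD8r_30_s) (st := cD8r_30_t) (D := cD8r_30_D) (Ns := cD8r_30_n) (by norm_num) (by norm_num)
    ttD8r_ok (by decide +kernel) (by decide +kernel) (by decide +kernel)

/-- classes `0 1 2 3 0 4 2 5` -/
noncomputable def cD8r_31_w : List ℕ := [k0,k16,k32,k48,k0,k64,k32,k80]

/-- symmetries -/
noncomputable def cD8r_31_s : List (Bool × ℕ × List ℕ) :=
  []

/-- steps -/
noncomputable def cD8r_31_t : List (ℕ × ℕ × ℕ × ℕ × ℕ × ℕ) :=
  [(k1,254,k0,k1,k15,k14),(k14,k14,k0,k14,k0,k14),(k16,k35,k1,k0,k2,k3),(k19,k19,k1,k3,k1,k3),(k24,k163,k1,k8,k10,k3),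
    (k27,k147,k1,k11,k9,k3),(k32,k32,k2,k0,k2,k0),(k40,k160,k2,k8,k10,k0),(k43,k144,k2,k11,k9,k0),(k50,k69,k3,k2,k4,
    k5),(k53,k53,k3,k5,k3,k5),(k66,k66,k4,k2,k4,k2),(k84,k103,k5,k4,k6,k7),(k87,k87,k5,k7,k5,k7),(k92,231,k5,k12,k14,
    k7),(k95,215,k5,k15,k13,k7),(k100,k100,k6,k4,k6,k4),(k108,228,k6,k12,k14,k4),(k111,212,k6,k15,k13,k4),(k118,k137,
    k7,k6,k8,k9),(k121,k121,k7,k9,k7,k9),(k134,k134,k8,k6,k8,k6),(k152,k171,k9,k8,k10,k11),(k155,k155,k9,k11,k9,k11),
    (k168,k168,k10,k8,k10,k8),(k186,205,k11,k10,k12,k13),(k189,k189,k11,k13,k11,k13),(202,202,k12,k10,k12,k10),(220,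
    239,k13,k12,k14,k15),(223,223,k13,k15,k13,k15),(236,236,k14,k12,k14,k12),(241,241,k15,k1,k15,k1)]

/-- equations of the nodes -/
noncomputable def cD8r_31_D : List (List (List (List (ℕ × ℕ)))) :=
  [[[[]]]]

/-- nodes -/
noncomputable def cD8r_31_n : List (QG PN) :=
  [.q (.lp 6 8 2 0x4000000040000000400000004000000040000000400000003000000030000000300000003000000030000000300000003000000030000000300000003 0x1000000010000000100000001000000010000000100000001000000010000000100000001
    0x2042082082082082082080c81082042082080c82032082081082042082080c82032082082081082042082082082082082081082042082082082082082082081082032082080c82032082080c82022082080882022082082080882022082082082082082080882022082082080c82032082080882022082080c82032082080882022082082082082082082080882022082082082082082080882022082082080c82022082080882022082080c8202208208088202203208208208208208208088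
    0x2082082082082082082082081082082082082082082082082082082082082082082082082041082082082082082082082082082082082082082082082082041082082082082082082082082082082082082082082082071c30842082082082081c30c71c82082082082082082051482051020842082082082082082082082082082082081c30c71c71841020842082082071c71c30841061882082082051482051061841020842080c71c82082082061882082081471c71c3084106184102084 2
    [[2],[32],[512],[0x2000],[0x20000],[],[],[]]
    [.con 1 2,.con 2 2,.con 3 2,.con 4 2,.con 5 2])]

theorem cD8r_31 : NodeU 8 cD8r_31_w [] :=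
  nodeG_of (C := 6) (sy := cD8r_31_s) (st := cD8r_31_t) (D := cD8r_31_D) (Ns := cD8r_31_n) (by norm_num) (by norm_num)
    ttD8r_ok (by decide +kernel) (by decide +kernel) (by decide +kernel)

theorem sD8r_14 : Solved 8 [cD8r_0_w, cD8r_3_w, cD8r_4_w, cD8r_21_w, cD8r_26_w, cD8r_27_w, cD8r_28_w, cD8r_30_w,
    cD8r_31_w] :=
  Solved.cons cD8r_0 (
  Solved.cons cD8r_3 (
  Solved.cons cD8r_4 (
  Solved.cons cD8r_21 (
  Solved.cons cD8r_26 (
  Solved.cons cD8r_27 (
  Solved.cons cD8r_28 (
  Solved.cons cD8r_30 (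
  Solved.cons cD8r_31 (
  Solved.nil)))))))))

end Pool.Agent.Lib_MP_fa6e45
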