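import Pool.Agent.Lib_MP_fa6e45.DQA
import Pool.Agent.Lib_MP_fa6e45.DQ8r_15_0
import Pool.Agent.Lib_MP_fa6e45.DQ8r_15_1
import Pool.Agent.Lib_MP_fa6e45.DQ8r_15_2
import Pool.Agent.Lib_MP_fa6e45.DQ8r_15_3
import Pool.Agent.Lib_MP_fa6e45.DQ8r_15_4
import Pool.Agent.Lib_MP_fa6e45.DQ8r_15_5
import Pool.Agent.Lib_MP_fa6e45.DQ8r_15_6
import Pool.Agent.Lib_MP_fa6e45.DQ8r_15_7
import Pool.Agent.Lib_MP_fa6e45.DQ8r_15_8
import Pool.Agent.Lib_MP_fa6e45.DQ8r_16_0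
import Pool.Agent.Lib_MP_fa6e45.DQ8r_16_1
import Pool.Agent.Lib_MP_fa6e45.DQ8r_17_0
import Pool.Agent.Lib_MP_fa6e45.DQ8r_17_1
import Pool.Agent.Lib_MP_fa6e45.DQ8r_18_0
import Pool.Agent.Lib_MP_fa6e45.DQ8r_18_1
import Pool.Agent.Lib_MP_fa6e45.DQ8r_19_0
import Pool.Agent.Lib_MP_fa6e45.DQ8r_19_1
import Pool.Agent.Lib_MP_fa6e45.DQ8r_19_2
import Pool.Agent.Lib_MP_fa6e45.DQ8r_19_3
import Pool.Agent.Lib_MP_fa6e45.DQ8r_20_0
import Pool.Agent.Lib_MP_fa6e45.DQ8r_20_1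
import Pool.Agent.Lib_MP_fa6e45.DQ8r_21_0
import Pool.Agent.Lib_MP_fa6e45.DQ8r_21_1
import Pool.Agent.Lib_MP_fa6e45.DQ8r_21_2
import Pool.Agent.Lib_MP_fa6e45.DQ8r_22_0
import Pool.Agent.Lib_MP_fa6e45.DQ8r_22_1
import Pool.Agent.Lib_MP_fa6e45.DQ8r_23_0

/-!
MP_fa6e45_co, stage 9: straight-side patterns with `8` sides, large certificates (generated by a program).
-/

namespace Pool.Agent.Lib_MP_fa6e45

/-- nodes -/
noncomputable def cD8r_336_n : List (QG PN) :=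
  cD8r_336_n0 ++ (cD8r_336_n1 ++ (cD8r_336_n2 ++ (cD8r_336_n3 ++ (cD8r_336_n4 ++ (cD8r_336_n5 ++ (
    cD8r_336_n6 ++ (cD8r_336_n7 ++ cD8r_336_n8)))))))

theorem cD8r_336_ok :
    allI (chkG (ckP 8 ttD8r cD8r_336_w cD8r_336_s) 8 cD8r_336_w 2 cD8r_336_s cD8r_336_t (bl3 [] cD8r_336_D)) cD8r_336_n 0 = true := by
  refine allI_appQ (k := 323) cD8r_336_k0 (by decide +kernel) ?_
  refine allI_appQ (k := 88) cD8r_336_k1 (by decide +kernel) ?_
  refine allI_appQ (k := 117) cD8r_336_k2 (by decide +kernel) ?_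
  refine allI_appQ (k := 124) cD8r_336_k3 (by decide +kernel) ?_
  refine allI_appQ (k := 127) cD8r_336_k4 (by decide +kernel) ?_
  refine allI_appQ (k := 130) cD8r_336_k5 (by decide +kernel) ?_
  refine allI_appQ (k := 140) cD8r_336_k6 (by decide +kernel) ?_
  refine allI_appQ (k := 142) cD8r_336_k7 (by decide +kernel) ?_
  exact cD8r_336_k8

theorem cD8r_336 : NodeU 8 cD8r_336_w [] :=
  nodeG_of (C := 2) (sy := cD8r_336_s) (st := cD8r_336_t) (D := cD8r_336_D) (Ns := cD8r_336_n) (by norm_num) (by norm_num)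
    ttD8r_ok (by decide +kernel) (by decide +kernel) cD8r_336_ok

/-- nodes -/
noncomputable def cD8r_337_n : List (QG PN) :=
  cD8r_337_n0 ++ cD8r_337_n1

theorem cD8r_337_ok :
    allI (chkG (ckP 8 ttD8r cD8r_337_w cD8r_337_s) 8 cD8r_337_w 2 cD8r_337_s cD8r_337_t (bl3 [] cD8r_337_D)) cD8r_337_n 0 = true := by
  refine allI_appQ (k := 208) cD8r_337_k0 (by decide +kernel) ?_
  exact cD8r_337_k1

theorem cD8r_337 : NodeU 8 cD8r_337_w [] :=
  nodeG_of (C := 2) (sy := cD8r_337_s) (st := cD8r_337_t) (D := cD8r_337_D) (Ns := cD8r_337_n) (by norm_num) (by norm_num)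
    ttD8r_ok (by decide +kernel) (by decide +kernel) cD8r_337_ok

/-- nodes -/
noncomputable def cD8r_340_n : List (QG PN) :=
  cD8r_340_n0 ++ cD8r_340_n1

theorem cD8r_340_ok :
    allI (chkG (ckP 8 ttD8r cD8r_340_w cD8r_340_s) 8 cD8r_340_w 2 cD8r_340_s cD8r_340_t (bl3 [] cD8r_340_D)) cD8r_340_n 0 = true := by
  refine allI_appQ (k := 171) cD8r_340_k0 (by decide +kernel) ?_
  exact cD8r_340_k1

theorem cD8r_340 : NodeU 8 cD8r_340_w [] :=
  nodeG_of (C := 2) (sy := cD8r_340_s) (st := cD8r_340_t) (D := cD8r_340_D) (Ns := cD8r_340_n) (by norm_num) (by norm_num)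
    ttD8r_ok (by decide +kernel) (by decide +kernel) cD8r_340_ok

/-- nodes -/
noncomputable def cD8r_341_n : List (QG PN) :=
  cD8r_341_n0 ++ cD8r_341_n1

theorem cD8r_341_ok :
    allI (chkG (ckP 8 ttD8r cD8r_341_w cD8r_341_s) 8 cD8r_341_w 2 cD8r_341_s cD8r_341_t (bl3 [] cD8r_341_D)) cD8r_341_n 0 = true := by
  refine allI_appQ (k := 83) cD8r_341_k0 (by decide +kernel) ?_
  exact cD8r_341_k1

theorem cD8r_341 : NodeU 8 cD8r_341_w [] :=
  nodeG_of (C := 2) (sy := cD8r_341_s) (st := cD8r_341_t) (D := cD8r_341_D) (Ns := cD8r_341_n) (by norm_num) (by norm_num)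
    ttD8r_ok (by decide +kernel) (by decide +kernel) cD8r_341_ok

/-- nodes -/
noncomputable def cD8r_344_n : List (QG PN) :=
  cD8r_344_n0 ++ (cD8r_344_n1 ++ (cD8r_344_n2 ++ cD8r_344_n3))

theorem cD8r_344_ok :
    allI (chkG (ckP 8 ttD8r cD8r_344_w cD8r_344_s) 8 cD8r_344_w 2 cD8r_344_s cD8r_344_t (bl3 [] cD8r_344_D)) cD8r_344_n 0 = true := by
  refine allI_appQ (k := 92) cD8r_344_k0 (by decide +kernel) ?_
  refine allI_appQ (k := 1) cD8r_344_k1 (by decide +kernel) ?_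
  refine allI_appQ (k := 199) cD8r_344_k2 (by decide +kernel) ?_
  exact cD8r_344_k3

theorem cD8r_344 : NodeU 8 cD8r_344_w [] :=
  nodeG_of (C := 2) (sy := cD8r_344_s) (st := cD8r_344_t) (D := cD8r_344_D) (Ns := cD8r_344_n) (by norm_num) (by norm_num)
    ttD8r_ok (by decide +kernel) (by decide +kernel) cD8r_344_ok

/-- nodes -/
noncomputable def cD8r_345_n : List (QG PN) :=
  cD8r_345_n0 ++ cD8r_345_n1

theorem cD8r_345_ok :
    allI (chkG (ckP 8 ttD8r cD8r_345_w cD8r_345_s) 8 cD8r_345_w 2 cD8r_345_s cD8r_345_t (bl3 [] cD8r_345_D)) cD8r_345_n 0 = true := by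
  refine allI_appQ (k := 98) cD8r_345_k0 (by decide +kernel) ?_
  exact cD8r_345_k1

theorem cD8r_345 : NodeU 8 cD8r_345_w [] :=
  nodeG_of (C := 2) (sy := cD8r_345_s) (st := cD8r_345_t) (D := cD8r_345_D) (Ns := cD8r_345_n) (by norm_num) (by norm_num)
    ttD8r_ok (by decide +kernel) (by decide +kernel) cD8r_345_ok

/-- nodes -/
noncomputable def cD8r_348_n : List (QG PN) :=
  cD8r_348_n0 ++ (cD8r_348_n1 ++ cD8r_348_n2)

theorem cD8r_348_ok :
    allI (chkG (ckP 8 ttD8r cD8r_348_w cD8r_348_s) 8 cD8r_348_w 2 cD8r_348_s cD8r_348_t (bl3 [] cD8r_348_D)) cD8r_348_n 0 = true := by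
  refine allI_appQ (k := 216) cD8r_348_k0 (by decide +kernel) ?_
  refine allI_appQ (k := 137) cD8r_348_k1 (by decide +kernel) ?_
  exact cD8r_348_k2

theorem cD8r_348 : NodeU 8 cD8r_348_w [] :=
  nodeG_of (C := 2) (sy := cD8r_348_s) (st := cD8r_348_t) (D := cD8r_348_D) (Ns := cD8r_348_n) (by norm_num) (by norm_num)
    ttD8r_ok (by decide +kernel) (by decide +kernel) cD8r_348_ok

/-- nodes -/
noncomputable def cD8r_349_n : List (QG PN) :=
  cD8r_349_n0 ++ cD8r_349_n1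

theorem cD8r_349_ok :
    allI (chkG (ckP 8 ttD8r cD8r_349_w cD8r_349_s) 8 cD8r_349_w 2 cD8r_349_s cD8r_349_t (bl3 [] cD8r_349_D)) cD8r_349_n 0 = true := by
  refine allI_appQ (k := 122) cD8r_349_k0 (by decide +kernel) ?_
  exact cD8r_349_k1

theorem cD8r_349 : NodeU 8 cD8r_349_w [] :=
  nodeG_of (C := 2) (sy := cD8r_349_s) (st := cD8r_349_t) (D := cD8r_349_D) (Ns := cD8r_349_n) (by norm_num) (by norm_num)
    ttD8r_ok (by decide +kernel) (by decide +kernel) cD8r_349_ok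

/-- nodes -/
noncomputable def cD8r_350_n : List (QG PN) :=
  cD8r_350_n0

theorem cD8r_350_ok :
    allI (chkG (ckP 8 ttD8r cD8r_350_w cD8r_350_s) 8 cD8r_350_w 2 cD8r_350_s cD8r_350_t (bl3 [] cD8r_350_D)) cD8r_350_n 0 = true := by
  exact cD8r_350_k0

theorem cD8r_350 : NodeU 8 cD8r_350_w [] :=
  nodeG_of (C := 2) (sy := cD8r_350_s) (st := cD8r_350_t) (D := cD8r_350_D) (Ns := cD8r_350_n) (by norm_num) (by norm_num)
    ttD8r_ok (by decide +kernel) (by decide +kernel) cD8r_350_ok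

theorem sD8r_J : Solved 8 [cD8r_336_w, cD8r_337_w, cD8r_340_w, cD8r_341_w, cD8r_344_w, cD8r_345_w, cD8r_348_w, cD8r_349_w, cD8r_350_w] :=
  Solved.cons cD8r_336 (
  Solved.cons cD8r_337 (
  Solved.cons cD8r_340 (
  Solved.cons cD8r_341 (
  Solved.cons cD8r_344 (
  Solved.cons cD8r_345 (
  Solved.cons cD8r_348 (
  Solved.cons cD8r_349 (
  Solved.cons cD8r_350 (
  Solved.nil)))))))))

end Pool.Agent.Lib_MP_fa6e45
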