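import Pool.Agent.Lib_MP_fa6e45.GQ7
import Pool.Agent.Lib_MP_fa6e45.CV1
import Pool.Agent.Lib_MP_fa6e45.HK

/-!
MP_fa6e45_co, stage 9: lists of solved words (all arcs are sides).
-/

namespace Pool.Agent.Lib_MP_fa6e45

/-- solved words -/
def Solved (m : ℕ) [NeZero m] (l : List (List ℕ)) : Prop := ∀ w ∈ l, NodeU m w []

theorem Solved.nil {m : ℕ} [NeZero m] : Solved m [] := by
  intro w hw
  exact absurd hw (by simp)

theorem Solved.cons {m : ℕ} [NeZero m] {w : List ℕ} {l : List (List ℕ)} (h : NodeU m w [])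
    (h' : Solved m l) : Solved m (w :: l) := by
  intro x hx
  rcases List.mem_cons.1 hx with hx | hx
  · rw [hx]
    intro n P S b M h1 h2
    exact h P S b M h1 h2
  · exact h' x hx

theorem Solved.app {m : ℕ} [NeZero m] {l l' : List (List ℕ)} (h : Solved m l) (h' : Solved m l') :
    Solved m (l ++ l') := by
  intro w hw
  rcases List.mem_append.1 hw with hw | hw
  · exact h w hw
  · exact h' w hw

theorem Solved.get {m : ℕ} [NeZero m] {l cs : List (List ℕ)} (h : Solved m l)
    (hc : (cs.all fun c => l.contains (wS c)) = true) : ∀ c ∈ cs, NodeU m (wS c) [] := by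
  intro c hcs
  have h2 := List.all_eq_true.1 hc c hcs
  rw [List.contains_iff_mem] at h2
  intro n P S b M h1 h3
  exact h _ h2 P S b M h1 h3

/-- all lists of classes with two different lengths are solved -/
theorem Solved.getN {m : ℕ} [NeZero m] {l cs : List (List ℕ)} (h : Solved m l)
    (hc : (cs.all fun c => (c.all fun x => x == 0) || l.contains (wS c)) = true) :
    ∀ c ∈ cs, (∃ x ∈ c, x ≠ 0) → NodeU m (wS c) [] := by
  intro c hcs ⟨x, hx, hx0⟩
  have h2 := List.all_eq_true.1 hc c hcs
  rw [Bool.or_eq_true] at h2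
  rcases h2 with h2 | h2
  · have h3 := List.all_eq_true.1 h2 x hx
    rw [beq_iff_eq] at h3
    exact (hx0 h3).elim
  · rw [List.contains_iff_mem] at h2
    intro n P S b M h1 h3
    exact h _ h2 P S b M h1 h3

end Pool.Agent.Lib_MP_fa6e45
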