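import Pool.Agent.Lib_MP_fa6e45.DQA
import Pool.Agent.Lib_MP_fa6e45.CE2
import Pool.Agent.Lib_MP_fa6e45.H4
import Pool.Agent.Lib_MP_fa6e45.DQ3_0
import Pool.Agent.Lib_MP_fa6e45.DQ4_0
import Pool.Agent.Lib_MP_fa6e45.DQ5_0
import Pool.Agent.Lib_MP_fa6e45.DQ5_1
import Pool.Agent.Lib_MP_fa6e45.DQ5_2
import Pool.Agent.Lib_MP_fa6e45.DQ6_0
import Pool.Agent.Lib_MP_fa6e45.DQ6_1
import Pool.Agent.Lib_MP_fa6e45.DQ6_2
import Pool.Agent.Lib_MP_fa6e45.DQ6_3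
import Pool.Agent.Lib_MP_fa6e45.DQ6_4

/-!
MP_fa6e45_co, stage 9: all straight-side patterns with at most `6` sides are solved.
-/

namespace Pool.Agent.Lib_MP_fa6e45

theorem certV3 : ∀ c ∈ h4C3, NodeU 3 (wS c) [] :=
  Solved.get (sD3_0) (by decide +kernel)

theorem certV4 : ∀ c ∈ h4C4, NodeU 4 (wS c) [] :=
  Solved.get (sD4_0) (by decide +kernel)

theorem certV5 : ∀ c ∈ h4C5, NodeU 5 (wS c) [] :=
  Solved.get (sD5_0.app (sD5_1.app (sD5_2))) (by decide +kernel)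

theorem certV6 : ∀ c ∈ h4C6, NodeU 6 (wS c) [] :=
  Solved.get (sD6_0.app (sD6_1.app (sD6_2.app (sD6_3.app (
    sD6_4))))) (by decide +kernel)

end Pool.Agent.Lib_MP_fa6e45
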