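import Pool.Agent.Lib_MP_fa6e45.DQA
import Pool.Agent.Lib_MP_fa6e45.DQ7a_0
import Pool.Agent.Lib_MP_fa6e45.DQ7a_1
import Pool.Agent.Lib_MP_fa6e45.DQ7a_2
import Pool.Agent.Lib_MP_fa6e45.DQ7a_3
import Pool.Agent.Lib_MP_fa6e45.DQ7a_4
import Pool.Agent.Lib_MP_fa6e45.DQ7a_5
import Pool.Agent.Lib_MP_fa6e45.DQ7a_6
import Pool.Agent.Lib_MP_fa6e45.DQ7a_7
import Pool.Agent.Lib_MP_fa6e45.DQ7a_8
import Pool.Agent.Lib_MP_fa6e45.DQ7a_9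
import Pool.Agent.Lib_MP_fa6e45.DQ7a_10
import Pool.Agent.Lib_MP_fa6e45.DQ7a_11
import Pool.Agent.Lib_MP_fa6e45.DQ7a_12
import Pool.Agent.Lib_MP_fa6e45.DQ7a_13
import Pool.Agent.Lib_MP_fa6e45.DQ7a_14

/-!
MP_fa6e45_co, stage 9: all straight-side patterns with `7` sides and two different lengths are solved.
-/

namespace Pool.Agent.Lib_MP_fa6e45

theorem certV7n : ∀ c ∈ h4C7, (∃ x ∈ c, x ≠ 0) → NodeU 7 (wS c) [] :=
  Solved.getN (sD7a_0.app (sD7a_1.app (sD7a_2.app (sD7a_3.app (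
    sD7a_4.app (sD7a_5.app (sD7a_6.app (sD7a_7.app (
    sD7a_8.app (sD7a_9.app (sD7a_10.app (sD7a_11.app (
    sD7a_12.app (sD7a_13.app (sD7a_14))))))))))))))) (by decide +kernel)

end Pool.Agent.Lib_MP_fa6e45
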