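import Pool.Agent.Lib_MP_fa6e45.DQA
import Pool.Agent.Lib_MP_fa6e45.CW1
import Pool.Agent.Lib_MP_fa6e45.DQ8a_0
import Pool.Agent.Lib_MP_fa6e45.DQ8a_1
import Pool.Agent.Lib_MP_fa6e45.DQ8a_2
import Pool.Agent.Lib_MP_fa6e45.DQ8a_3
import Pool.Agent.Lib_MP_fa6e45.DQ8a_4
import Pool.Agent.Lib_MP_fa6e45.DQ8a_5
import Pool.Agent.Lib_MP_fa6e45.DQ8a_6
import Pool.Agent.Lib_MP_fa6e45.DQ8a_7
import Pool.Agent.Lib_MP_fa6e45.DQ8a_8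
import Pool.Agent.Lib_MP_fa6e45.DQ8a_9
import Pool.Agent.Lib_MP_fa6e45.DQ8a_10
import Pool.Agent.Lib_MP_fa6e45.DQ8a_11
import Pool.Agent.Lib_MP_fa6e45.DQ8a_12
import Pool.Agent.Lib_MP_fa6e45.DQ8a_13
import Pool.Agent.Lib_MP_fa6e45.DQ8a_14
import Pool.Agent.Lib_MP_fa6e45.DQ8a_15
import Pool.Agent.Lib_MP_fa6e45.DQ8a_16
import Pool.Agent.Lib_MP_fa6e45.DQ8a_17
import Pool.Agent.Lib_MP_fa6e45.DQ8a_18
import Pool.Agent.Lib_MP_fa6e45.DQ8a_19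
import Pool.Agent.Lib_MP_fa6e45.DQ8a_20
import Pool.Agent.Lib_MP_fa6e45.DQ8a_21
import Pool.Agent.Lib_MP_fa6e45.DQ8a_22
import Pool.Agent.Lib_MP_fa6e45.DQ8a_23
import Pool.Agent.Lib_MP_fa6e45.DQ8a_24
import Pool.Agent.Lib_MP_fa6e45.DQ8a_25
import Pool.Agent.Lib_MP_fa6e45.DQ8a_26
import Pool.Agent.Lib_MP_fa6e45.DQ8a_27
import Pool.Agent.Lib_MP_fa6e45.DQ8a_28
import Pool.Agent.Lib_MP_fa6e45.DQ8a_29
import Pool.Agent.Lib_MP_fa6e45.DQ8a_30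
import Pool.Agent.Lib_MP_fa6e45.DQ8a_31
import Pool.Agent.Lib_MP_fa6e45.DQ8a_32
import Pool.Agent.Lib_MP_fa6e45.DQ8a_33
import Pool.Agent.Lib_MP_fa6e45.DQ8a_34
import Pool.Agent.Lib_MP_fa6e45.DQ8a_35
import Pool.Agent.Lib_MP_fa6e45.DQ8a_36
import Pool.Agent.Lib_MP_fa6e45.DQ8a_37
import Pool.Agent.Lib_MP_fa6e45.DQ8a_38
import Pool.Agent.Lib_MP_fa6e45.DQ8a_39
import Pool.Agent.Lib_MP_fa6e45.DQ8a_40
import Pool.Agent.Lib_MP_fa6e45.DQ8a_41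
import Pool.Agent.Lib_MP_fa6e45.DQ8a_42
import Pool.Agent.Lib_MP_fa6e45.DQ8a_43
import Pool.Agent.Lib_MP_fa6e45.DQ8b_0
import Pool.Agent.Lib_MP_fa6e45.DQ8b_1
import Pool.Agent.Lib_MP_fa6e45.DQ8b_2
import Pool.Agent.Lib_MP_fa6e45.DQ8b_3
import Pool.Agent.Lib_MP_fa6e45.DQ8b_4
import Pool.Agent.Lib_MP_fa6e45.DQ8b_5
import Pool.Agent.Lib_MP_fa6e45.DQ8b_6
import Pool.Agent.Lib_MP_fa6e45.DQ8b_7
import Pool.Agent.Lib_MP_fa6e45.DQ8b_8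
import Pool.Agent.Lib_MP_fa6e45.DQ8b_9
import Pool.Agent.Lib_MP_fa6e45.DQ8b_10
import Pool.Agent.Lib_MP_fa6e45.DQ8b_11
import Pool.Agent.Lib_MP_fa6e45.DQ8b_12
import Pool.Agent.Lib_MP_fa6e45.DQ8b_13
import Pool.Agent.Lib_MP_fa6e45.DQ8b_14
import Pool.Agent.Lib_MP_fa6e45.DQ8b_15
import Pool.Agent.Lib_MP_fa6e45.DQ8c_0

/-!
MP_fa6e45_co, stage 9: all straight-side patterns with `8` sides and two different lengths are solved.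
-/

namespace Pool.Agent.Lib_MP_fa6e45

theorem certV8n : ∀ c ∈ h4C8, (∃ x ∈ c, x ≠ 0) → NodeU 8 (wS c) [] :=
  Solved.getN (sD8a_0.app (sD8a_1.app (sD8a_2.app (sD8a_3.app (
    sD8a_4.app (sD8a_5.app (sD8a_6.app (sD8a_7.app (
    sD8a_8.app (sD8a_9.app (sD8a_10.app (sD8a_11.app (
    sD8a_12.app (sD8a_13.app (sD8a_14.app (sD8a_15.app (
    sD8a_16.app (sD8a_17.app (sD8a_18.app (sD8a_19.app (
    sD8a_20.app (sD8a_21.app (sD8a_22.app (sD8a_23.app (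
    sD8a_24.app (sD8a_25.app (sD8a_26.app (sD8a_27.app (
    sD8a_28.app (sD8a_29.app (sD8a_30.app (sD8a_31.app (
    sD8a_32.app (sD8a_33.app (sD8a_34.app (sD8a_35.app (
    sD8a_36.app (sD8a_37.app (sD8a_38.app (sD8a_39.app (
    sD8a_40.app (sD8a_41.app (sD8a_42.app (sD8a_43.app (
    sD8b_0.app (sD8b_1.app (sD8b_2.app (sD8b_3.app (
    sD8b_4.app (sD8b_5.app (sD8b_6.app (sD8b_7.app (
    sD8b_8.app (sD8b_9.app (sD8b_10.app (sD8b_11.app (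
    sD8b_12.app (sD8b_13.app (sD8b_14.app (sD8b_15.app (
    sD8c_0))))))))))))))))))))))))))))))))))))))))))))))))))))))))))))) (by decide +kernel)

end Pool.Agent.Lib_MP_fa6e45
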