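import Pool.Agent.Lib_MP_fa6e45.DQA
import Pool.Agent.Lib_MP_fa6e45.DQ7r_0
import Pool.Agent.Lib_MP_fa6e45.DQ7r_1
import Pool.Agent.Lib_MP_fa6e45.DQ7r_2
import Pool.Agent.Lib_MP_fa6e45.DQ7r_3
import Pool.Agent.Lib_MP_fa6e45.DQ7r_4
import Pool.Agent.Lib_MP_fa6e45.DQ7r_J
import Pool.Agent.Lib_MP_fa6e45.DQ7k_J

/-!
MP_fa6e45_co, stage 9: all straight-side patterns with `7` sides are solved.
-/

namespace Pool.Agent.Lib_MP_fa6e45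

theorem certV7 : ∀ c ∈ h4C7, NodeU 7 (wS c) [] :=
  Solved.get (sD7r_0.app (sD7r_1.app (sD7r_2.app (sD7r_3.app (
    sD7r_4.app (sD7r_J.app (sD7k_J))))))) (by decide +kernel)

end Pool.Agent.Lib_MP_fa6e45
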