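import Pool.Agent.Lib_MP_fa6e45.DQA
import Pool.Agent.Lib_MP_fa6e45.CW1
import Pool.Agent.Lib_MP_fa6e45.DQ8r_0
import Pool.Agent.Lib_MP_fa6e45.DQ8r_1
import Pool.Agent.Lib_MP_fa6e45.DQ8r_2
import Pool.Agent.Lib_MP_fa6e45.DQ8r_3
import Pool.Agent.Lib_MP_fa6e45.DQ8r_4
import Pool.Agent.Lib_MP_fa6e45.DQ8r_5
import Pool.Agent.Lib_MP_fa6e45.DQ8r_6
import Pool.Agent.Lib_MP_fa6e45.DQ8r_7
import Pool.Agent.Lib_MP_fa6e45.DQ8r_8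
import Pool.Agent.Lib_MP_fa6e45.DQ8r_9
import Pool.Agent.Lib_MP_fa6e45.DQ8r_10
import Pool.Agent.Lib_MP_fa6e45.DQ8r_11
import Pool.Agent.Lib_MP_fa6e45.DQ8r_12
import Pool.Agent.Lib_MP_fa6e45.DQ8r_13
import Pool.Agent.Lib_MP_fa6e45.DQ8r_14
import Pool.Agent.Lib_MP_fa6e45.DQ8r_J
import Pool.Agent.Lib_MP_fa6e45.DQ8k_J

/-!
MP_fa6e45_co, stage 9: all straight-side patterns with `8` sides are solved.
-/

namespace Pool.Agent.Lib_MP_fa6e45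

theorem certV8 : ∀ c ∈ h4C8, NodeU 8 (wS c) [] :=
  Solved.get (sD8r_0.app (sD8r_1.app (sD8r_2.app (sD8r_3.app (
    sD8r_4.app (sD8r_5.app (sD8r_6.app (sD8r_7.app (
    sD8r_8.app (sD8r_9.app (sD8r_10.app (sD8r_11.app (
    sD8r_12.app (sD8r_13.app (sD8r_14.app (sD8r_J.app (
    sD8k_J))))))))))))))))) (by decide +kernel)

end Pool.Agent.Lib_MP_fa6e45
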