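import Mathlib

/-!
MP_fa6e45_co, stage 3, definitions for the patterns at the level of the marked corners (no proofs): `R i j`: the arcs
`i`, `j` are equal or twins; `act i j`: the marks `i`, `j` are an active pair. Arc `i` goes from mark `i` to mark `i + 1`.
-/

namespace Pool.Agent.Lib_MP_fa6e45

/-- the combinatorial properties of the classes `R` of arcs and of the active pairs `act` -/
structure SAx {m : ℕ} [NeZero m] (R act : ZMod m → ZMod m → Prop) : Prop where
  refl : ∀ i, R i i
  symm : ∀ i j, R i j → R j i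
  trans : ∀ i j k, R i j → R j k → R i k
  two : ∀ i j k, i ≠ j → j ≠ k → i ≠ k → ¬ (R i j ∧ R j k)
  asymm : ∀ i j, act i j → act j i
  ne : ∀ i j, act i j → i ≠ j
  side : ∀ i j, act i j → ¬ R (i - 1) i
  len : ∀ i j, act i j → (R (i - 1) j ∧ R i (j - 1)) ∨ (R (i - 1) (j - 1) ∧ R i j)
  adj : ∀ i j k, act i j → act (i + 1) k → R (i - 1) (i + 1)
  mid : ∀ i, act i (i + 1) → ∃ s, s ≠ i ∧ R i s ∧ ¬ act s (s + 1)
  three : ∀ i j k, act i j → act i k → j ≠ k → (∀ x, act i x → x = j ∨ x = k) ∧
    ∀ x, act j x → x = i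

/-- passive marks -/
def Pas {m : ℕ} (act : ZMod m → ZMod m → Prop) (i : ZMod m) : Prop := ∀ j, ¬ act i j

/-- marks with two partners -/
def Dbl {m : ℕ} (act : ZMod m → ZMod m → Prop) (i : ZMod m) : Prop :=
  ∃ j k, j ≠ k ∧ act i j ∧ act i k

/-- marks with exactly one partner whose only partner is the mark -/
def Fre {m : ℕ} (act : ZMod m → ZMod m → Prop) (i : ZMod m) : Prop :=
  ∃ j, act i j ∧ (∀ x, act i x → x = j) ∧ ∀ x, act j x → x = i

/-- marks whose partner has two partners -/
def Sec {m : ℕ} (act : ZMod m → ZMod m → Prop) (i : ZMod m) : Prop := ∃ j, act i j ∧ Dbl act j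

/-- the inequalities between the numbers of passive, double and free marks -/
structure Cnt {m : ℕ} (act : ZMod m → ZMod m → Prop) : Prop where
  total : {i | Pas act i}.ncard + 3 * {i | Dbl act i}.ncard + {i | Fre act i}.ncard = m
  even : Even {i | Fre act i}.ncard
  le_six : {i | Pas act i}.ncard + {i | Dbl act i}.ncard ≤ 6
  le_five : (∃ i, Fre act i) → {i | Pas act i}.ncard + {i | Dbl act i}.ncard ≤ 5
  ge_three : 3 ≤ {i | Pas act i}.ncard + {i | Dbl act i}.ncard

end Pool.Agent.Lib_MP_fa6e45
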