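import Pool.Agent.Lib_MP_fa6e45.F5c

/-!
PIECE F5d (about 300 lines): corners which are active but not rigid.
`act_three`: let `x = l (i - 1)`, `y = l i`; all partners of `i`, `j` are corners between a side of length `x` and one of length
`y`; there are at most three such corners (four of them are all corners: `Y1_four`, private in Y1, repeat it; `5 ≤ n`), so
these are `i, j, k`, and `Act j k` would give `a i = a j = a k = π`. `act_imp`: `imp_iff` and `rigid_iff`.
`act_mark`: `j` is not rigid by `rigid_act`. Suppose `i + 1` is rigid with partner `k` (then `Act (i + 1) k`). By `act_adj`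
`l (i - 1) = l (i + 1) =: x`, `y = l i`. `k ≠ i` (else `i` is rigid, `rigid_act`). `i`, `j`, `i + 1`, `k` are corners between the lengths `x`, `y`;
`j ≠ i + 1` (the only partner of `i + 1` is `k ≠ i`), and `j ≠ k` (the only partner of `k` is `i + 1`): four different corners,
contradiction as above. `i - 1`: the same with the sides reversed (`l (i - 2) = l i` by `act_adj` for `i - 1`).
`act_mid_mark`: `s` exists by `act_mid`. If `s` (or `s + 1`) is rigid with partner `k`: `k` is an end of a side of length `l i`, so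
`k ∈ {i, i + 1, s, s + 1}`; not `i`, `i + 1` (`i + 1` is not rigid by `rigid_act`, `act_symm`), so `Act s (s + 1)`: contradiction
to `act_cc`.
-/

open Set MeasureTheory Complex
open scoped Topology

namespace Pool.Agent.Lib_MP_fa6e45

variable {n : ℕ} [NeZero n] {a l : ZMod n → ℝ} {ι : Type}

private theorem F5d_card (hl : NoThree l) (x : ℝ) :
    (Finset.univ.filter fun e : ZMod n => l e = x).card ≤ 2 := by
  by_contra hcon
  push Not at hcon
  obtain ⟨i, j, k, hi, hj, hk, h1, h2, h3⟩ := Finset.two_lt_card_iff.1 hcon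
  rw [Finset.mem_filter] at hi hj hk
  exact hl i j k h1 h3 h2 ⟨hi.2.trans hj.2.symm, hj.2.trans hk.2.symm⟩

private theorem F5d_univ (hl : NoThree l) (x y : ℝ) (hxy : x ≠ y) (S : Finset (ZMod n))
    (hS : 4 ≤ S.card)
    (hT : ∀ m ∈ S, (l (m - 1) = x ∧ l m = y) ∨ (l (m - 1) = y ∧ l m = x)) :
    S = Finset.univ := by
  classical
  set X := Finset.univ.filter fun e : ZMod n => l e = x with hX
  set Y := Finset.univ.filter fun e : ZMod n => l e = y with hY
  have hXc : X.card ≤ 2 := F5d_card hl x
  have hYc : Y.card ≤ 2 := F5d_card hl y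
  set S1 := S.filter fun m => l m = y with hS1
  set S2 := S.filter fun m => l m = x with hS2
  have hsub : S ⊆ S1 ∪ S2 := by
    intro m hm
    rw [Finset.mem_union, hS1, hS2, Finset.mem_filter, Finset.mem_filter]
    rcases hT m hm with h | h
    · exact Or.inl ⟨hm, h.2⟩
    · exact Or.inr ⟨hm, h.2⟩
  have h1Y : S1 ⊆ Y := by
    intro m hm
    rw [hS1, Finset.mem_filter] at hm
    rw [hY, Finset.mem_filter]
    exact ⟨Finset.mem_univ m, hm.2⟩
  have h2X : S2 ⊆ X := by
    intro m hm
    rw [hS2, Finset.mem_filter] at hm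
    rw [hX, Finset.mem_filter]
    exact ⟨Finset.mem_univ m, hm.2⟩
  have hc1 := Finset.card_le_card h1Y
  have hc2 := Finset.card_le_card h2X
  have hc3 := (Finset.card_le_card hsub).trans (Finset.card_union_le S1 S2)
  have hinj : Function.Injective fun m : ZMod n => m - 1 := sub_left_injective
  have i1 : S1.image (fun m => m - 1) = X := by
    refine Finset.eq_of_subset_of_card_le ?_ ?_
    · intro e he
      obtain ⟨m, hm, rfl⟩ := Finset.mem_image.1 he
      rw [hS1, Finset.mem_filter] at hm
      rw [hX, Finset.mem_filter]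
      refine ⟨Finset.mem_univ _, ?_⟩
      rcases hT m hm.1 with h | h
      · exact h.1
      · exact absurd (h.2.symm.trans hm.2) hxy
    · rw [Finset.card_image_of_injective _ hinj]
      omega
  have i2 : S2.image (fun m => m - 1) = Y := by
    refine Finset.eq_of_subset_of_card_le ?_ ?_
    · intro e he
      obtain ⟨m, hm, rfl⟩ := Finset.mem_image.1 he
      rw [hS2, Finset.mem_filter] at hm
      rw [hY, Finset.mem_filter]
      refine ⟨Finset.mem_univ _, ?_⟩
      rcases hT m hm.1 with h | h
      · exact absurd (hm.2.symm.trans h.2) hxy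
      · exact h.1
    · rw [Finset.card_image_of_injective _ hinj]
      omega
  have hstep : ∀ m ∈ S, m + 1 ∈ S := by
    intro m hm
    rcases hT m hm with h | h
    · have h1 : m ∈ Y := by
        rw [hY, Finset.mem_filter]
        exact ⟨Finset.mem_univ m, h.2⟩
      rw [← i2, Finset.mem_image] at h1
      obtain ⟨m', hm', h2⟩ := h1
      rw [hS2, Finset.mem_filter] at hm'
      have h3 : m + 1 = m' := by
        rw [← h2]
        ring
      rw [h3]
      exact hm'.1
    · have h1 : m ∈ X := by
        rw [hX, Finset.mem_filter]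
        exact ⟨Finset.mem_univ m, h.2⟩
      rw [← i1, Finset.mem_image] at h1
      obtain ⟨m', hm', h2⟩ := h1
      rw [hS1, Finset.mem_filter] at hm'
      have h3 : m + 1 = m' := by
        rw [← h2]
        ring
      rw [h3]
      exact hm'.1
  obtain ⟨m0, hm0⟩ : S.Nonempty := Finset.card_pos.1 (by omega)
  have hall : ∀ k : ℕ, m0 + (k : ZMod n) ∈ S := by
    intro k
    induction k with
    | zero =>
      rw [Nat.cast_zero, add_zero]
      exact hm0
    | succ k ih =>
      rw [Nat.cast_succ, ← add_assoc]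
      exact hstep _ ih
  rw [Finset.eq_univ_iff_forall]
  intro z
  have h := hall (z - m0).val
  rw [ZMod.natCast_zmod_val, add_sub_cancel] at h
  exact h

/-- corner `m` is between sides of lengths `x` and `y` -/
private def F5d_ty (l : ZMod n → ℝ) (x y : ℝ) (m : ZMod n) : Prop :=
  (l (m - 1) = x ∧ l m = y) ∨ (l (m - 1) = y ∧ l m = x)

/-- there are at most three corners between sides of lengths `x` and `y` -/
private theorem F5d_four (hn : 5 ≤ n) (hl : NoThree l) {x y : ℝ} (hxy : x ≠ y)
    {p q r s : ZMod n} (hpq : p ≠ q) (hpr : p ≠ r) (hps : p ≠ s) (hqr : q ≠ r) (hqs : q ≠ s)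
    (hrs : r ≠ s) (hp : F5d_ty l x y p) (hq : F5d_ty l x y q) (hr : F5d_ty l x y r)
    (hs : F5d_ty l x y s) : False := by
  classical
  have hcard : ({p, q, r, s} : Finset (ZMod n)).card = 4 := by
    rw [Finset.card_insert_of_notMem, Finset.card_insert_of_notMem,
      Finset.card_insert_of_notMem, Finset.card_singleton]
    · simpa using hrs
    · simp only [Finset.mem_insert, Finset.mem_singleton, not_or]
      exact ⟨hqr, hqs⟩
    · simp only [Finset.mem_insert, Finset.mem_singleton, not_or]
      exact ⟨hpq, hpr, hps⟩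
  have hS := F5d_univ hl x y hxy {p, q, r, s} hcard.ge (by
    intro u hu
    simp only [Finset.mem_insert, Finset.mem_singleton] at hu
    rcases hu with rfl | rfl | rfl | rfl
    · exact hp
    · exact hq
    · exact hr
    · exact hs)
  have h1 : (Finset.univ : Finset (ZMod n)).card = 4 := by rw [← hS]; exact hcard
  rw [Finset.card_univ, ZMod.card] at h1
  omega

omit [NeZero n] in
private theorem F5d_one (hn : 5 ≤ n) : (1 : ZMod n) ≠ 0 := by
  have : Fact (1 < n) := ⟨by omega⟩
  exact one_ne_zero

namespace Mean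

variable {K : CombA n a l ι} {μ : Mean K} {i j k s : ZMod n}

omit [NeZero n] in
private theorem F5d_self (i : ZMod n) : F5d_ty l (l (i - 1)) (l i) i := Or.inl ⟨rfl, rfl⟩

private theorem F5d_act_ty {x y : ℝ} (h : μ.Act i j) (hi : F5d_ty l x y i) : F5d_ty l x y j := by
  rcases act_len h with ⟨h1, h2⟩ | ⟨h1, h2⟩ <;> rcases hi with ⟨h3, h4⟩ | ⟨h3, h4⟩
  · exact Or.inr ⟨h2.symm.trans h4, h1.symm.trans h3⟩
  · exact Or.inl ⟨h2.symm.trans h4, h1.symm.trans h3⟩
  · exact Or.inl ⟨h1.symm.trans h3, h2.symm.trans h4⟩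
  · exact Or.inr ⟨h1.symm.trans h3, h2.symm.trans h4⟩

theorem act_three (hn : 5 ≤ n) (hl : NoThree l) (h1 : μ.Act i j) (h2 : μ.Act i k) (hjk : j ≠ k) :
    (∀ x, μ.Act i x → x = j ∨ x = k) ∧ ∀ x, μ.Act j x → x = i := by
  have hxy := act_side hl h1
  have ti := F5d_self (l := l) i
  have tj := F5d_act_ty h1 ti
  have tk := F5d_act_ty h2 ti
  have hij := act_ne h1
  have hik := act_ne h2
  constructor
  · intro x hx
    by_contra hcon
    push Not at hcon
    exact F5d_four hn hl hxy hij hik (act_ne hx) hjk (Ne.symm hcon.1) (Ne.symm hcon.2) ti tj tk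
      (F5d_act_ty hx ti)
  · intro x hx
    by_contra hcon
    have hjx := act_ne hx
    by_cases hxk : x = k
    · subst hxk
      have a1 := act_ang h1
      have a2 := act_ang h2
      have a3 := act_ang hx
      exact K.a_ne i (by linarith)
    · exact F5d_four hn hl hxy hij hik (Ne.symm hcon) hjk hjx (Ne.symm hxk) ti tj tk
        (F5d_act_ty hx tj)

theorem act_imp (h : μ.Act i j) (hr : ¬ μ.Rigid i) (u1 : ∀ x, μ.Act i x → x = j)
    (u2 : ∀ x, μ.Act j x → x = i) : μ.Imp i ∧ μ.Imp j := by
  have h1 := imp_iff h u1 u2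
  have h2 : μ.Imp i := by
    by_contra hcon
    exact hr (rigid_iff.2 ⟨j, h, hcon, fun h3 => hcon (h1.2 h3), u1, u2⟩)
  exact ⟨h2, h1.1 h2⟩

theorem act_mark (hn : 5 ≤ n) (hl : NoThree l) (h : μ.Act i j) (hr : ¬ μ.Rigid i) :
    ¬ μ.Rigid j ∧ ¬ μ.Rigid (i + 1) ∧ ¬ μ.Rigid (i - 1) := by
  have hxy := act_side hl h
  have hone := F5d_one hn
  have hi1 : i ≠ i + 1 := fun h1 => hone (by
    have h2 : i + 0 = i + 1 := by rw [add_zero]; exact h1
    exact (add_left_cancel h2).symm)
  have hi2 : i ≠ i - 1 := fun h1 => hone (by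
    have h2 : i - 0 = i - 1 := by rw [sub_zero]; exact h1
    exact (sub_right_injective h2).symm)
  have ti := F5d_self (l := l) i
  have tj := F5d_act_ty h ti
  refine ⟨fun hj => hr (rigid_act hj (act_symm h)), fun h1 => ?_, fun h1 => ?_⟩
  · obtain ⟨k, hk, -, -, u1, u2⟩ := rigid_iff.1 h1
    by_cases hl1 : l (i - 1) = l (i + 1)
    · have ti1 : F5d_ty l (l (i - 1)) (l i) (i + 1) := Or.inr ⟨by rw [add_sub_cancel_right],
        hl1.symm⟩
      have tk := F5d_act_ty hk ti1
      have hki : i ≠ k := by
        rintro rfl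
        exact hr (rigid_act h1 hk)
      have hji1 : i + 1 ≠ j := by
        rintro rfl
        exact hki (u1 i (act_symm h))
      have hjk : j ≠ k := by
        rintro rfl
        exact hi1 (u2 i (act_symm h))
      exact F5d_four hn hl hxy (act_ne h) hi1 hki (Ne.symm hji1) hjk (act_ne hk) ti tj ti1 tk
    · exact hr (act_adj hn hl h hk hl1).1
  · obtain ⟨k, hk, -, -, u1, u2⟩ := rigid_iff.1 h1
    have hii : i - 1 + 1 = i := sub_add_cancel i 1
    by_cases hl1 : l (i - 1 - 1) = l i
    · have ti1 : F5d_ty l (l (i - 1)) (l i) (i - 1) := Or.inr ⟨hl1, rfl⟩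
      have tk := F5d_act_ty hk ti1
      have hki : i ≠ k := by
        rintro rfl
        exact hr (rigid_act h1 hk)
      have hji1 : i - 1 ≠ j := by
        rintro rfl
        exact hki (u1 i (act_symm h))
      have hjk : j ≠ k := by
        rintro rfl
        exact hi2 (u2 i (act_symm h))
      exact F5d_four hn hl hxy (act_ne h) hi2 hki (Ne.symm hji1) hjk (act_ne hk) ti tj ti1 tk
    · have h3 := act_adj hn hl hk (i := i - 1) (k := j) (by rw [hii]; exact h)
        (by rw [hii]; exact hl1)
      rw [hii] at h3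
      exact hr h3.2

theorem act_mid_mark (hn : 5 ≤ n) (hl : NoThree l) (h : μ.Act i (i + 1)) (hr : ¬ μ.Rigid i) :
    ∃ s, s ≠ i ∧ l s = l i ∧ ¬ μ.Rigid s ∧ ¬ μ.Rigid (s + 1) ∧ ¬ μ.Act s (s + 1) := by
  have hex : ∃ s, s ≠ i ∧ l s = l i := by
    by_contra hcon
    push Not at hcon
    exact hr (act_mid hn hl h hcon).1
  obtain ⟨s, hs, hls⟩ := hex
  have hact : ¬ μ.Act s (s + 1) := fun h1 => hr (act_cc hn hl h hs hls h1).1
  have hr1 : ¬ μ.Rigid (i + 1) := fun h1 => hr (rigid_act h1 (act_symm h))
  -- a side of length `l i` is `i` or `s`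
  have hside : ∀ e, l e = l i → e = i ∨ e = s := by
    intro e he
    by_contra hcon
    push Not at hcon
    exact hl e i s hcon.1 (Ne.symm hs) hcon.2 ⟨he, hls.symm⟩
  -- the partner of an end of `s`
  have hend : ∀ e k, (e = s ∨ e = s + 1) → μ.Act e k → μ.Rigid e → False := by
    intro e k he hk hre
    have h1 : l k = l i ∨ l (k - 1) = l i := by
      have h2 : l e = l i ∨ l (e - 1) = l i := by
        rcases he with rfl | rfl
        · exact Or.inl hls
        · exact Or.inr (by rw [add_sub_cancel_right]; exact hls)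
      rcases act_len hk with ⟨h3, h4⟩ | ⟨h3, h4⟩ <;> rcases h2 with h2 | h2
      · exact Or.inr (h4.symm.trans h2)
      · exact Or.inl (h3.symm.trans h2)
      · exact Or.inl (h4.symm.trans h2)
      · exact Or.inr (h3.symm.trans h2)
    have h2 : k = i ∨ k = i + 1 ∨ k = s ∨ k = s + 1 := by
      rcases h1 with h1 | h1
      · rcases hside k h1 with h3 | h3
        · exact Or.inl h3
        · exact Or.inr (Or.inr (Or.inl h3))
      · rcases hside (k - 1) h1 with h3 | h3
        · exact Or.inr (Or.inl (by rw [← h3, sub_add_cancel]))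
        · exact Or.inr (Or.inr (Or.inr (by rw [← h3, sub_add_cancel])))
    have hrk : μ.Rigid k := rigid_act hre hk
    rcases h2 with h2 | h2 | h2 | h2
    · exact hr (h2 ▸ hrk)
    · exact hr1 (h2 ▸ hrk)
    · subst h2
      rcases he with he | he
      · exact act_ne hk he
      · rw [he] at hk
        exact hact (act_symm hk)
    · subst h2
      rcases he with he | he
      · rw [he] at hk
        exact hact hk
      · exact act_ne hk he
  refine ⟨s, hs, hls, fun h1 => ?_, fun h1 => ?_, hact⟩
  · obtain ⟨k, hk, -⟩ := rigid_iff.1 h1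
    exact hend s k (Or.inl rfl) hk h1
  · obtain ⟨k, hk, -⟩ := rigid_iff.1 h1
    exact hend (s + 1) k (Or.inr rfl) hk h1

end Mean

end Pool.Agent.Lib_MP_fa6e45
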