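import Pool.Agent.Lib_MP_fa6e45.F2

/-!
PIECE F3 (about 250 lines): sums over tiles and over stars. `tile_ge`: `n • M f = ∑ j, M (f ∘ shift j) = M (tile sum)`, and the
tile sum is `≥ δ` outside a set of weight 0 (there it is bounded). `star_le`: let `D` be a bound for the degrees;
for every `d ≤ D` the function `f * 1 [deg = d]` has the same mean as `(f ∘ nx^[k]) * 1 [deg = d]` for all `k` (the
degree is constant on stars), so `M (f * 1 [deg = d]) = M (1 [deg = d] * (star sum) / d)`; sum over `d`. `star_lt`: the same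
with the mean `≤ - (δ / D) * wt R` . `avg1`, `avg2` by contradiction.
-/

open Set MeasureTheory Complex
open scoped Topology

namespace Pool.Agent.Lib_MP_fa6e45

variable {n : ℕ} [NeZero n] {a l : ZMod n → ℝ} {ι : Type}

namespace Mean

variable {K : CombA n a l ι} (μ : Mean K)

omit [NeZero n] in
private theorem bd_const (r : ℝ) : Bd (fun _ : ι × ZMod n => r) := ⟨|r|, fun _ => le_rfl⟩

omit [NeZero n] in
private theorem bd_add {f g : ι × ZMod n → ℝ} (hf : Bd f) (hg : Bd g) : Bd (fun c => f c + g c) := by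
  obtain ⟨C, hC⟩ := hf
  obtain ⟨D, hD⟩ := hg
  exact ⟨C + D, fun x => (abs_add_le _ _).trans (add_le_add (hC x) (hD x))⟩

omit [NeZero n] in
private theorem bd_mul {f g : ι × ZMod n → ℝ} (hf : Bd f) (hg : Bd g) : Bd (fun c => f c * g c) := by
  obtain ⟨C, hC⟩ := hf
  obtain ⟨D, hD⟩ := hg
  refine ⟨C * D, fun x => ?_⟩
  rw [abs_mul]
  exact mul_le_mul (hC x) (hD x) (abs_nonneg _) ((abs_nonneg _).trans (hC x))

omit [NeZero n] in
private theorem bd_comp {f : ι × ZMod n → ℝ} (hf : Bd f) (s : ι × ZMod n → ι × ZMod n) :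
    Bd (fun c => f (s c)) := by
  obtain ⟨C, hC⟩ := hf
  exact ⟨C, fun x => hC _⟩

omit [NeZero n] in
private theorem bd_ind (S : Set (ι × ZMod n)) : Bd (S.indicator fun _ => (1 : ℝ)) := by
  classical
  refine ⟨1, fun x => ?_⟩
  rw [Set.indicator_apply]
  split_ifs <;> simp

omit [NeZero n] in
private theorem bd_sum {α : Type} (s : Finset α) (f : α → ι × ZMod n → ℝ) (hf : ∀ j, Bd (f j)) :
    Bd (fun c => ∑ j ∈ s, f j c) := by
  classical
  induction s using Finset.induction_on with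
  | empty => simpa using bd_const 0
  | insert j s hj ih =>
    have e : (fun c => ∑ j ∈ insert j s, f j c) = fun c => f j c + ∑ j ∈ s, f j c := by
      funext c
      rw [Finset.sum_insert hj]
    rw [e]
    exact bd_add (hf j) ih

private theorem M_zero : μ.M (fun _ => 0) = 0 := by
  have := μ.smul 0 (fun _ => 0) (bd_const 0)
  simpa using this

private theorem M_const (r : ℝ) : μ.M (fun _ => r) = r * n := by
  have := μ.smul r (fun _ => 1) (bd_const 1)
  rw [μ.one] at this
  simpa using this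

private theorem M_sum {α : Type} (s : Finset α) (f : α → ι × ZMod n → ℝ) (hf : ∀ j, Bd (f j)) :
    μ.M (fun c => ∑ j ∈ s, f j c) = ∑ j ∈ s, μ.M (f j) := by
  classical
  induction s using Finset.induction_on with
  | empty => simpa using μ.M_zero
  | insert j s hj ih =>
    have e : (fun c => ∑ j ∈ insert j s, f j c) = fun c => f j c + ∑ j ∈ s, f j c := by
      funext c
      rw [Finset.sum_insert hj]
    rw [e, μ.add _ _ (hf j) (bd_sum s f hf), ih, Finset.sum_insert hj]

private theorem M_iter (f : ι × ZMod n → ℝ) (hf : Bd f) (k : ℕ) :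
    μ.M (fun c => f (K.nx^[k] c)) = μ.M f := by
  induction k with
  | zero => rfl
  | succ k ih =>
    rw [← ih]
    have := μ.nx (fun c => f (K.nx^[k] c)) (bd_comp hf _)
    rw [← this]
    rfl

private theorem M_shift (f : ι × ZMod n → ℝ) (hf : Bd f) (k : ℕ) :
    μ.M (fun c => f (c.1, c.2 + (k : ZMod n))) = μ.M f := by
  induction k with
  | zero => simp
  | succ k ih =>
    rw [← ih]
    have := μ.tile (fun c => f (c.1, c.2 + (k : ZMod n))) (bd_comp hf _)
    rw [← this]
    congr 1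
    funext c
    push_cast
    congr 2
    ring

private theorem M_ae_le {f g : ι × ZMod n → ℝ} (hf : Bd f) (hg : Bd g)
    (h : μ.AE fun c => f c ≤ g c) : μ.M f ≤ μ.M g := by
  classical
  obtain ⟨C, hC⟩ := hf
  obtain ⟨D, hD⟩ := hg
  have hf' : Bd f := ⟨C, hC⟩
  have hg' : Bd g := ⟨D, hD⟩
  have h1 : μ.M f ≤ μ.M (fun c => g c + (C + D) * ({c | ¬ f c ≤ g c}.indicator (fun _ => (1 : ℝ)) c)) := by
    refine μ.mono _ _ hf' (bd_add hg' (bd_mul (bd_const _) (bd_ind _))) fun c => ?_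
    rw [Set.indicator_apply]
    split_ifs with hc
    · have h1 := (abs_le.1 (hC c)).2
      have h2 := (abs_le.1 (hD c)).1
      linarith
    · have : f c ≤ g c := by
        by_contra h'
        exact hc h'
      linarith
  rw [μ.add _ _ hg' (bd_mul (bd_const _) (bd_ind _)), μ.smul _ _ (bd_ind _)] at h1
  have h2 : μ.M ({c | ¬ f c ≤ g c}.indicator (fun _ => (1 : ℝ))) = 0 := h
  rw [h2] at h1
  linarith

private theorem deg_nx (c : ι × ZMod n) : K.toComb.deg (K.nx c) = K.toComb.deg c := by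
  unfold Comb.deg
  exact Function.minimalPeriod_apply (Function.minimalPeriod_pos_iff_mem_periodicPts.1 (K.deg_pos c))

private theorem deg_iter (c : ι × ZMod n) (k : ℕ) :
    K.toComb.deg (K.nx^[k] c) = K.toComb.deg c := by
  induction k with
  | zero => rfl
  | succ k ih => rw [Function.iterate_succ_apply', deg_nx, ih]

/-- star average -/
private noncomputable def sav (K : CombA n a l ι) (f : ι × ZMod n → ℝ) (c : ι × ZMod n) : ℝ :=
  (∑ k ∈ Finset.range (K.toComb.deg c), f (K.nx^[k] c)) / (K.toComb.deg c : ℝ)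

private theorem sav_bd {f : ι × ZMod n → ℝ} (hf : Bd f) : Bd (sav K f) := by
  obtain ⟨C, hC⟩ := hf
  refine ⟨C, fun c => ?_⟩
  have hd : (0 : ℝ) < (K.toComb.deg c : ℝ) := by
    have := K.deg_pos c
    unfold Comb.deg
    exact_mod_cast this
  unfold sav
  rw [abs_div, abs_of_pos hd, div_le_iff₀ hd]
  calc |∑ k ∈ Finset.range (K.toComb.deg c), f (K.nx^[k] c)|
      ≤ ∑ k ∈ Finset.range (K.toComb.deg c), |f (K.nx^[k] c)| := Finset.abs_sum_le_sum_abs _ _
    _ ≤ ∑ k ∈ Finset.range (K.toComb.deg c), C := Finset.sum_le_sum fun k _ => hC _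
    _ = C * (K.toComb.deg c : ℝ) := by
      rw [Finset.sum_const, Finset.card_range, nsmul_eq_mul, mul_comm]

private theorem M_sav (f : ι × ZMod n → ℝ) (hf : Bd f) : μ.M (sav K f) = μ.M f := by
  classical
  obtain ⟨D, hD⟩ := K.deg_bound
  have hpos : ∀ c, 0 < K.toComb.deg c := fun c => K.deg_pos c
  -- the part of degree `d`
  let F : ℕ → ι × ZMod n → ℝ := fun d c => ({c | K.toComb.deg c = d}.indicator (fun _ => (1 : ℝ)) c) * f c
  have hF : ∀ d, Bd (F d) := fun d => bd_mul (bd_ind _) hf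
  have hFk : ∀ d k, μ.M (fun c => F d (K.nx^[k] c)) = μ.M (F d) := fun d k => μ.M_iter _ (hF d) k
  have e1 : f = fun c => ∑ d ∈ Finset.Icc 1 D, F d c := by
    funext c
    have : ∑ d ∈ Finset.Icc 1 D, F d c = F (K.toComb.deg c) c := by
      apply Finset.sum_eq_single
      · intro d _ hne
        simp only [F]
        rw [Set.indicator_of_notMem (by simpa using hne.symm), zero_mul]
      · intro h
        exact absurd (Finset.mem_Icc.2 ⟨hpos c, hD c⟩) h
    rw [this]
    simp only [F]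
    rw [Set.indicator_of_mem (by simp), one_mul]
  have e2 : sav K f = fun c => ∑ d ∈ Finset.Icc 1 D,
      ((1 / (d : ℝ)) * ∑ k ∈ Finset.range d, F d (K.nx^[k] c)) := by
    funext c
    have : ∑ d ∈ Finset.Icc 1 D, ((1 / (d : ℝ)) * ∑ k ∈ Finset.range d, F d (K.nx^[k] c)) =
        (1 / (K.toComb.deg c : ℝ)) * ∑ k ∈ Finset.range (K.toComb.deg c),
          F (K.toComb.deg c) (K.nx^[k] c) := by
      apply Finset.sum_eq_single
      · intro d _ hne
        rw [Finset.sum_eq_zero, mul_zero]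
        intro k _
        simp only [F]
        rw [Set.indicator_of_notMem, zero_mul]
        simp only [Set.mem_ofPred_eq]
        rw [deg_iter]
        exact hne.symm
      · intro h
        exact absurd (Finset.mem_Icc.2 ⟨hpos c, hD c⟩) h
    rw [this]
    unfold sav
    rw [div_eq_mul_one_div, mul_comm]
    congr 1
    refine Finset.sum_congr rfl fun k _ => ?_
    simp only [F]
    rw [Set.indicator_of_mem, one_mul]
    simp only [Set.mem_ofPred_eq]
    rw [deg_iter]
  have hb : ∀ d, Bd (fun c => ∑ k ∈ Finset.range d, F d (K.nx^[k] c)) := fun d =>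
    bd_sum _ (fun k c => F d (K.nx^[k] c)) fun k => bd_comp (hF d) _
  rw [e2, μ.M_sum _ (fun (d : ℕ) c => (1 / (d : ℝ)) * ∑ k ∈ Finset.range d, F d (K.nx^[k] c))
    (fun d => bd_mul (bd_const _) (hb d))]
  conv_rhs => rw [e1]
  rw [μ.M_sum _ F hF]
  refine Finset.sum_congr rfl fun d hd => ?_
  have hd0 : (d : ℝ) ≠ 0 := by
    have := (Finset.mem_Icc.1 hd).1
    positivity
  rw [μ.smul _ _ (hb d), μ.M_sum _ (fun k c => F d (K.nx^[k] c)) (fun k => bd_comp (hF d) _)]
  simp only [hFk]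
  rw [Finset.sum_const, Finset.card_range, nsmul_eq_mul]
  field_simp

private theorem sav_le_zero {f : ι × ZMod n → ℝ} {c : ι × ZMod n}
    (h : ∑ k ∈ Finset.range (K.toComb.deg c), f (K.nx^[k] c) ≤ 0) : sav K f c ≤ 0 :=
  div_nonpos_of_nonpos_of_nonneg h (by positivity)

theorem tile_ge (f : ι × ZMod n → ℝ) (hf : Bd f) (δ : ℝ)
    (h : μ.AE fun c => δ ≤ ∑ i, f (c.1, i)) : δ ≤ μ.M f := by
  have hn : (0 : ℝ) < n := by
    have := NeZero.pos n
    exact_mod_cast this
  have hb : ∀ j : ZMod n, Bd (fun c : ι × ZMod n => f (c.1, c.2 + j)) := fun j => bd_comp hf _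
  have h1 : μ.M (fun c => ∑ j : ZMod n, f (c.1, c.2 + j)) = n * μ.M f := by
    rw [μ.M_sum Finset.univ (fun (j : ZMod n) (c : ι × ZMod n) => f (c.1, c.2 + j)) hb]
    have : ∀ j : ZMod n, μ.M (fun c => f (c.1, c.2 + j)) = μ.M f := by
      intro j
      have := μ.M_shift f hf j.val
      rwa [ZMod.natCast_zmod_val] at this
    simp only [this]
    rw [Finset.sum_const, Finset.card_univ, ZMod.card, nsmul_eq_mul]
  have e : (fun c : ι × ZMod n => ∑ j : ZMod n, f (c.1, c.2 + j)) = fun c => ∑ i, f (c.1, i) := by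
    funext c
    exact Equiv.sum_comp (Equiv.addLeft c.2) (fun i => f (c.1, i))
  rw [e] at h1
  have h2 : μ.M (fun _ => δ) ≤ μ.M (fun c => ∑ i, f (c.1, i)) := by
    refine μ.M_ae_le (bd_const δ) ?_ h
    exact bd_sum Finset.univ (fun (i : ZMod n) (c : ι × ZMod n) => f (c.1, i)) fun i => bd_comp hf _
  rw [h1, M_const, mul_comm] at h2
  exact le_of_mul_le_mul_left h2 hn

theorem star_le (f : ι × ZMod n → ℝ) (hf : Bd f)
    (h : μ.AE fun c => ∑ k ∈ Finset.range (K.toComb.deg c), f (K.nx^[k] c) ≤ 0) : μ.M f ≤ 0 := by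
  rw [← μ.M_sav f hf, ← μ.M_zero]
  exact μ.M_ae_le (sav_bd hf) (bd_const 0) (h.mono fun c hc => sav_le_zero hc)

theorem star_lt (f : ι × ZMod n → ℝ) (hf : Bd f)
    (h : μ.AE fun c => ∑ k ∈ Finset.range (K.toComb.deg c), f (K.nx^[k] c) ≤ 0)
    {R : ι × ZMod n → Prop} (hR : μ.Pos R) {δ : ℝ} (hδ : 0 < δ)
    (h2 : μ.AE fun c => R c → ∑ k ∈ Finset.range (K.toComb.deg c), f (K.nx^[k] c) ≤ -δ) :
    μ.M f < 0 := by
  classical
  obtain ⟨D, hD⟩ := K.deg_bound
  have hD1 : (0 : ℝ) < (D : ℝ) + 1 := by positivity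
  have key : μ.M (sav K f) ≤ μ.M (fun c => (-(δ / ((D : ℝ) + 1))) * ({c | R c}.indicator (fun _ => (1 : ℝ)) c)) := by
    refine μ.M_ae_le (sav_bd hf) (bd_mul (bd_const _) (bd_ind _)) ((h.and h2).mono fun c hc => ?_)
    rw [Set.indicator_apply]
    split_ifs with hr
    · have h3 := hc.2 hr
      have hd : (0 : ℝ) < (K.toComb.deg c : ℝ) := by
        have := K.deg_pos c
        unfold Comb.deg
        exact_mod_cast this
      have hdD : (K.toComb.deg c : ℝ) ≤ (D : ℝ) + 1 := by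
        have : (K.toComb.deg c : ℝ) ≤ (D : ℝ) := by exact_mod_cast hD c
        linarith
      have h4 : δ / ((D : ℝ) + 1) ≤ δ / (K.toComb.deg c : ℝ) := div_le_div_of_nonneg_left hδ.le hd hdD
      have h5 : sav K f c ≤ -δ / (K.toComb.deg c : ℝ) := div_le_div_of_nonneg_right h3 hd.le
      rw [neg_div] at h5
      rw [mul_one]
      linarith
    · rw [mul_zero]
      exact sav_le_zero hc.1
  rw [μ.M_sav f hf, μ.smul _ _ (bd_ind _)] at key
  have hR' : 0 < μ.M ({c | R c}.indicator (fun _ => (1 : ℝ))) := hR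
  have : 0 < δ / ((D : ℝ) + 1) * μ.M ({c | R c}.indicator (fun _ => (1 : ℝ))) :=
    mul_pos (div_pos hδ hD1) hR'
  linarith

theorem avg1 (f : ι × ZMod n → ℝ) (hf : Bd f) {Q : ι × ZMod n → Prop} (hQ : μ.AE Q) {δ : ℝ}
    (hδ : 0 < δ) (h : μ.AE fun c => δ ≤ ∑ i, f (c.1, i)) :
    ∃ c, Q c ∧ 0 < ∑ k ∈ Finset.range (K.toComb.deg c), f (K.nx^[k] c) := by
  by_contra hne
  push Not at hne
  have h1 := μ.star_le f hf (hQ.mono hne)
  have h2 := μ.tile_ge f hf δ h
  linarith

theorem avg2 (f : ι × ZMod n → ℝ) (hf : Bd f) {Q : ι × ZMod n → Prop} (hQ : μ.AE Q)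
    {R : ι × ZMod n → Prop} (hR : μ.Pos R) {δ : ℝ} (hδ : 0 < δ)
    (h : μ.AE fun c => 0 ≤ ∑ i, f (c.1, i)) :
    ∃ c, Q c ∧ (0 < ∑ k ∈ Finset.range (K.toComb.deg c), f (K.nx^[k] c) ∨
      (R c ∧ -δ < ∑ k ∈ Finset.range (K.toComb.deg c), f (K.nx^[k] c))) := by
  by_contra hne
  push Not at hne
  have h1 := μ.star_lt f hf (hQ.mono fun c hc => (hne c hc).1) hR hδ
    (hQ.mono fun c hc => (hne c hc).2)
  have h2 := μ.tile_ge f hf 0 h
  linarith

end Mean

end Pool.Agent.Lib_MP_fa6e45
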