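import Pool.Agent.Lib_MP_fa6e45.F8b
import Pool.Agent.Lib_MP_fa6e45.F3

/-!
PIECE F8c (about 250 lines): the linear programming principles. Good corners (almost everywhere: `AE.star`,
`ae_tgood`, `ae_act`, `AE.tile`, `AE.nx`): all tiles of the star are good; then either all corners of the star are marked or none
(a rigid corner in a good tile has a rigid successor). `avg1`/`avg2` for the function of `lp_fun` (`v`, `A`, `L` cast to `ℝ`), with
`δ = (m - 2) L / 2 - ∑ v > 0` resp. `δ = 1` (all costs are integers: `L - cost > -1` means `cost ≤ L`). The star found has a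
positive star sum (or is in `R`), so its corners are marked; `star_of`. `R` for `lp_imp`: `c.2 = κ i ∧ deg c ≠ 2`; for `lp_two`:
`c.2 = κ i ∧ deg c = 2 ∧ (nx c).2 = κ j`.
`two_sum`: `Pos` and the good corners give a good star of degree two; `glued2`: a good corner with `c.2 = κ (j + 1)` or `κ j`.
`b_sum2`: copy of `CombG.b_sum` (Y7).
-/

open Set MeasureTheory Complex
open scoped Topology

namespace Pool.Agent.Lib_MP_fa6e45

private theorem F8c_dich {n : ℕ} [NeZero n] {a l : ZMod n → ℝ} {ι : Type} {K : CombA n a l ι} (μ : Mean K)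
    (c : ι × ZMod n) (hg : ∀ k : ℕ, μ.TGood (K.nx^[k] c).1) :
    (∀ k : ℕ, μ.Rigid (K.nx^[k] c).2) ∨ ∀ k : ℕ, ¬ μ.Rigid (K.nx^[k] c).2 := by
  by_cases h : ∃ k : ℕ, μ.Rigid (K.nx^[k] c).2
  · left
    obtain ⟨k₀, h₀⟩ := h
    have hstep : ∀ q : ℕ, μ.Rigid (K.nx^[k₀ + q] c).2 := by
      intro q
      induction q with
      | zero => exact h₀
      | succ q ih =>
        rw [← add_assoc, Function.iterate_succ_apply']
        exact (hg (k₀ + q) _ ih).2
    intro k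
    have hp : Function.IsPeriodicPt K.nx (k₀ * Function.minimalPeriod K.nx c) c :=
      (Function.isPeriodicPt_minimalPeriod K.nx c).const_mul k₀
    have h1 : K.nx^[k + k₀ * Function.minimalPeriod K.nx c] c = K.nx^[k] c := by
      rw [Function.iterate_add_apply, hp]
    have h2 : 2 ≤ Function.minimalPeriod K.nx c := K.toComb.two_le c
    have h3 : k₀ ≤ k + k₀ * Function.minimalPeriod K.nx c :=
      (Nat.le_mul_of_pos_right k₀ (by omega)).trans (Nat.le_add_left _ _)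
    obtain ⟨q, hq⟩ := Nat.exists_eq_add_of_le h3
    rw [← h1, hq]
    exact hstep q
  · right
    push Not at h
    exact h

private theorem F8c_good {n : ℕ} [NeZero n] {P : Polygon n} {ι : Type} {K : CombA n P.ang P.len ι}
    (μ : Mean K) : μ.AE fun c => ∀ k : ℕ, μ.TGood (K.nx^[k] c).1 ∧
      (K.toComb.deg (K.nx^[k] c) = 2 → μ.Act (K.nx^[k] c).2 (K.nx^[k + 1] c).2) := by
  have h1 := (μ.ae_tgood.and μ.ae_act).star
  refine h1.mono fun c hc k => ⟨(hc k).1, fun h => ?_⟩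
  rw [Function.iterate_succ_apply']
  exact (hc k).2 h

private theorem F8c_out {n : ℕ} [NeZero n] {P : Polygon n} {ι : Type} {K : CombA n P.ang P.len ι}
    (μ : Mean K) {m : ℕ} [NeZero m] (S : Arcs P m) (hS : Marks μ S) (hκ : Function.Injective S.κ)
    (σ ε : ZMod m → ℝ) (hp : ∀ j k, S.Rel j k true → σ j = ε k ∧ ε j = σ k)
    (hm : ∀ j k, S.Rel j k false → σ j = -σ k ∧ ε j = -ε k) (c : ι × ZMod n)
    (hc : ∀ k : ℕ, μ.TGood (K.nx^[k] c).1 ∧
      (K.toComb.deg (K.nx^[k] c) = 2 → μ.Act (K.nx^[k] c).2 (K.nx^[k + 1] c).2))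
    (hr : ∀ k : ℕ, ¬ μ.Rigid (K.nx^[k] c).2) :
    ∃ (x : ZMod m × Bool) (y : List (ZMod m × Bool)),
      Star2 (fun i j => μ.Act (S.κ i) (S.κ j)) (fun j => P.ang (S.κ j) / Real.pi)
        (fun j => P.ang (S.κ j) / Real.pi + σ j - ε (j - 1)) S.Rel x y ∧
      (∀ (v : ZMod m → ℤ) (A : ZMod m × Bool → ZMod m × Bool → ℤ),
        ((pcost (stepCost v A) x y x : ℤ) : ℝ) = ∑ k ∈ Finset.range (K.toComb.deg c),
          ((v (S.fl K (K.nx^[k] c)).1 : ℝ) +
            (A (exW (S.fl K (K.nx^[k] c))) (enW (S.fl K (K.nx^[k + 1] c))) : ℝ))) ∧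
      y.length + 1 = K.toComb.deg c ∧
      ∀ i, (x.1 = i ∨ ∃ z ∈ y, z.1 = i) ↔ ∃ k : ℕ, (K.nx^[k] c).2 = S.κ i := by
  obtain ⟨x, y, h1, h2, h3, h4⟩ := star_of μ S hS hκ σ ε hp hm c (fun k => (hS.iff _).1 (hr k))
    (fun k => (hc k).1) (fun k => (hc k).2)
  refine ⟨x, y, h1, fun v A => ?_, h3, h4⟩
  rw [h2 v A]
  push_cast
  refine Finset.sum_congr rfl fun k _ => ?_
  unfold stepCost
  push_cast
  rfl

private theorem F8c_two {m : ℕ} {i j : ZMod m} {x : ZMod m × Bool} {y : List (ZMod m × Bool)} {d : ℕ}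
    {R : ZMod m → Prop} (hne : i ≠ j) (h3 : y.length + 1 = d) (h6 : d = 2)
    (h4 : ∀ i, (x.1 = i ∨ ∃ z ∈ y, z.1 = i) ↔ R i) (hi : R i) (hj : R j) : TTwo i j x y := by
  have hy : y.length = 1 := by omega
  obtain ⟨z, rfl⟩ := List.length_eq_one_iff.1 hy
  have h1 := (h4 i).2 hi
  have h2 := (h4 j).2 hj
  simp only [List.mem_singleton, exists_eq_left] at h1 h2
  refine ⟨z, rfl, ?_⟩
  rcases h1 with h1 | h1 <;> rcases h2 with h2 | h2
  · exact absurd (h1.symm.trans h2) hne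
  · exact Or.inl ⟨h1, h2⟩
  · exact Or.inr ⟨h2, h1⟩
  · exact absurd (h1.symm.trans h2) hne

variable {n : ℕ} [NeZero n] {P : Polygon n} {ι : Type} {K : CombA n P.ang P.len ι} (μ : Mean K)
  {m : ℕ} [NeZero m] (S : Arcs P m) (hS : Marks μ S) (hκ : Function.Injective S.κ)
  (hsum : ∑ j, P.ang (S.κ j) = ((m : ℝ) - 2) * Real.pi) (σ ε : ZMod m → ℝ)
  (hp : ∀ j k, S.Rel j k true → σ j = ε k ∧ ε j = σ k)
  (hm : ∀ j k, S.Rel j k false → σ j = -σ k ∧ ε j = -ε k)

include hS hκ hsum hp hm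

theorem lp_one : LP1 (fun i j => μ.Act (S.κ i) (S.κ j)) (fun j => P.ang (S.κ j) / Real.pi)
    (fun j => P.ang (S.κ j) / Real.pi + σ j - ε (j - 1)) S.Rel := by
  intro v A hA L hv
  obtain ⟨f, hf, ht, hs, h0⟩ := lp_fun μ S hS hκ hsum (fun i => (v i : ℝ)) (fun x y => (A x y : ℝ))
    (fun x y => by rw [hA x y]; push_cast; ring) (L : ℝ)
  have hv' : 2 * ∑ i, (v i : ℝ) < ((m : ℝ) - 2) * L := by exact_mod_cast hv
  have hδ : 0 < ((m : ℝ) - 2) * L / 2 - ∑ j, (v j : ℝ) := by linarith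
  obtain ⟨c, hc, hpos⟩ := μ.avg1 f hf (F8c_good μ) hδ (ht.mono fun c hc => hc.ge)
  rcases F8c_dich μ c (fun k => (hc k).1) with h | h
  · rw [h0 c fun k hk => ((hS.iff _).2 hk) (h k)] at hpos
    exact absurd hpos (lt_irrefl _)
  · rw [hs c fun k => (hS.iff _).1 (h k)] at hpos
    obtain ⟨x, y, h1, h2, -, -⟩ := F8c_out μ S hS hκ σ ε hp hm c hc h
    refine ⟨x, y, h1, ?_⟩
    have h3 : ((pcost (stepCost v A) x y x : ℤ) : ℝ) < (L : ℝ) := by
      rw [h2 v A]
      linarith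
    exact_mod_cast h3

theorem lp_imp (i : ZMod m) (h : μ.Imp (S.κ i)) :
    LP2 (fun i j => μ.Act (S.κ i) (S.κ j)) (fun j => P.ang (S.κ j) / Real.pi)
      (fun j => P.ang (S.κ j) / Real.pi + σ j - ε (j - 1)) S.Rel (TImp i) := by
  intro v A hA L hv
  obtain ⟨f, hf, ht, hs, h0⟩ := lp_fun μ S hS hκ hsum (fun i => (v i : ℝ)) (fun x y => (A x y : ℝ))
    (fun x y => by rw [hA x y]; push_cast; ring) (L : ℝ)
  have hv' : 2 * ∑ i, (v i : ℝ) ≤ ((m : ℝ) - 2) * L := by exact_mod_cast hv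
  have hδ : 0 ≤ ((m : ℝ) - 2) * L / 2 - ∑ j, (v j : ℝ) := by linarith
  obtain ⟨c, hc, hpos⟩ := μ.avg2 f hf (F8c_good μ) h one_pos (ht.mono fun c hc => hδ.trans hc.ge)
  rcases F8c_dich μ c (fun k => (hc k).1) with hr | hr
  · rw [h0 c fun k hk => ((hS.iff _).2 hk) (hr k)] at hpos
    rcases hpos with hpos | ⟨⟨h1, -⟩, -⟩
    · exact absurd hpos (lt_irrefl _)
    · exact absurd (hr 0) ((hS.iff _).2 ⟨i, h1.symm⟩)
  · rw [hs c fun k => (hS.iff _).1 (hr k)] at hpos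
    obtain ⟨x, y, h1, h2, h3, h4⟩ := F8c_out μ S hS hκ σ ε hp hm c hc hr
    refine ⟨x, y, h1, ?_⟩
    rcases hpos with hpos | ⟨⟨h5, h6⟩, hpos⟩
    · left
      have h7 : ((pcost (stepCost v A) x y x : ℤ) : ℝ) < (L : ℝ) := by
        rw [h2 v A]
        linarith
      exact_mod_cast h7
    · right
      have h7 : ((pcost (stepCost v A) x y x : ℤ) : ℝ) < ((L + 1 : ℤ) : ℝ) := by
        rw [h2 v A]
        push_cast
        linarith
      have h8 : pcost (stepCost v A) x y x < L + 1 := by exact_mod_cast h7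
      have h9 : 2 ≤ K.toComb.deg c := K.toComb.two_le c
      exact ⟨⟨by omega, (h4 i).2 ⟨0, h5⟩⟩, by omega⟩

theorem lp_two (i j : ZMod m) (h : μ.Act (S.κ i) (S.κ j)) :
    LP2 (fun i j => μ.Act (S.κ i) (S.κ j)) (fun j => P.ang (S.κ j) / Real.pi)
      (fun j => P.ang (S.κ j) / Real.pi + σ j - ε (j - 1)) S.Rel (TTwo i j) := by
  intro v A hA L hv
  obtain ⟨f, hf, ht, hs, h0⟩ := lp_fun μ S hS hκ hsum (fun i => (v i : ℝ)) (fun x y => (A x y : ℝ))
    (fun x y => by rw [hA x y]; push_cast; ring) (L : ℝ)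
  have hv' : 2 * ∑ i, (v i : ℝ) ≤ ((m : ℝ) - 2) * L := by exact_mod_cast hv
  have hδ : 0 ≤ ((m : ℝ) - 2) * L / 2 - ∑ j, (v j : ℝ) := by linarith
  obtain ⟨c, hc, hpos⟩ := μ.avg2 f hf (F8c_good μ) h one_pos (ht.mono fun c hc => hδ.trans hc.ge)
  rcases F8c_dich μ c (fun k => (hc k).1) with hr | hr
  · rw [h0 c fun k hk => ((hS.iff _).2 hk) (hr k)] at hpos
    rcases hpos with hpos | ⟨⟨h1, -⟩, -⟩
    · exact absurd hpos (lt_irrefl _)
    · exact absurd (hr 0) ((hS.iff _).2 ⟨i, h1.symm⟩)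
  · rw [hs c fun k => (hS.iff _).1 (hr k)] at hpos
    obtain ⟨x, y, h1, h2, h3, h4⟩ := F8c_out μ S hS hκ σ ε hp hm c hc hr
    refine ⟨x, y, h1, ?_⟩
    rcases hpos with hpos | ⟨⟨h5, h6, h6'⟩, hpos⟩
    · left
      have h7 : ((pcost (stepCost v A) x y x : ℤ) : ℝ) < (L : ℝ) := by
        rw [h2 v A]
        linarith
      exact_mod_cast h7
    · right
      have h7 : ((pcost (stepCost v A) x y x : ℤ) : ℝ) < ((L + 1 : ℤ) : ℝ) := by
        rw [h2 v A]
        push_cast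
        linarith
      have h8 : pcost (stepCost v A) x y x < L + 1 := by exact_mod_cast h7
      have hne : i ≠ j := fun e => Mean.act_ne h (by rw [e])
      exact ⟨F8c_two hne h3 h6 h4 ⟨0, h5⟩ ⟨1, h6'⟩, by omega⟩

omit hsum in
theorem two_sum (i j : ZMod m) (h : μ.Act (S.κ i) (S.κ j)) :
    P.ang (S.κ i) / Real.pi + P.ang (S.κ j) / Real.pi = 2 ∧
    (P.ang (S.κ i) / Real.pi + σ i - ε (i - 1)) + (P.ang (S.κ j) / Real.pi + σ j - ε (j - 1)) = 2 := by
  have hpi := Real.pi_pos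
  constructor
  · rw [← add_div, Mean.act_ang h]
    field_simp
  · obtain ⟨c, ⟨h5, h6, h6'⟩, hc⟩ := (Mean.Pos.and h (F8c_good μ)).exists
    have hr : ∀ k : ℕ, ¬ μ.Rigid (K.nx^[k] c).2 := by
      rcases F8c_dich μ c (fun k => (hc k).1) with hr | hr
      · exact absurd (hr 0) ((hS.iff _).2 ⟨i, h5.symm⟩)
      · exact hr
    obtain ⟨x, y, h1, h2, h3, h4⟩ := F8c_out μ S hS hκ σ ε hp hm c hc hr
    have hne : i ≠ j := fun e => Mean.act_ne h (by rw [e])
    obtain ⟨d, hd, h7⟩ := F8c_two hne h3 h6 h4 ⟨0, h5⟩ ⟨1, h6'⟩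
    obtain ⟨-, -, -, h8, -⟩ := h1
    rw [hd] at h8
    simp only [List.map_cons, List.map_nil, List.sum_cons, List.sum_nil, add_zero] at h8
    rcases h7 with ⟨e1, e2⟩ | ⟨e1, e2⟩
    · rw [e1, e2] at h8
      exact h8
    · rw [e1, e2] at h8
      rw [add_comm]
      exact h8

omit hsum hp hm hκ in
theorem glued2 (j : ZMod m) : ∃ k b, S.Rel j k b := by
  obtain ⟨c, -, hc⟩ := ((F8c_good μ).tile).exists 0
  have key : ∀ i : ZMod m, ∃ k b, S.Rel (exS K.rf (c.1, i)) k b := by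
    intro i
    have h1 : μ.TGood c.1 := (hc (S.κ i) 0).1
    have h2 : μ.TGood (K.nx (c.1, S.κ i)).1 := (hc (S.κ i) 1).1
    obtain ⟨d, -, h3, -⟩ := arc_walk2 μ S hS (c.1, i) h1 h2
    exact ⟨_, _, h3⟩
  cases h : K.rf c.1
  · have h1 := key (j + 1)
    have h2 : exS K.rf (c.1, j + 1) = j := by
      unfold exS
      simp [h]
    rwa [h2] at h1
  · have h1 := key j
    have h2 : exS K.rf (c.1, j) = j := by
      unfold exS
      simp [h]
    rwa [h2] at h1

theorem b_sum2 (hl : P.NoThreeEqual) :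
    ∑ j, (P.ang (S.κ j) / Real.pi + σ j - ε (j - 1)) = (m : ℝ) - 2 := by
  classical
  have hpi := Real.pi_pos
  have hneg : ∀ j k b, S.Rel j k b → σ j - ε j + (σ k - ε k) = 0 := by
    intro j k b h
    cases b
    · have := hm j k h
      linarith [this.1, this.2]
    · have := hp j k h
      linarith [this.1, this.2]
  have hz : ∑ j, (σ j - ε j) = 0 := by
    let p : ZMod m → ZMod m := fun j =>
      if h : ∃ k b, S.Rel j k b ∧ k ≠ j then h.choose else j
    have hpp : ∀ j, (∃ b, S.Rel j (p j) b ∧ p j ≠ j) ∨ (p j = j ∧ ¬ ∃ k b, S.Rel j k b ∧ k ≠ j) := by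
      intro j
      by_cases h : ∃ k b, S.Rel j k b ∧ k ≠ j
      · left
        have : p j = h.choose := dif_pos h
        rw [this]
        exact h.choose_spec
      · right
        exact ⟨dif_neg h, h⟩
    have hsum : ∀ j, σ j - ε j + (σ (p j) - ε (p j)) = 0 := by
      intro j
      rcases hpp j with ⟨b, h1, _⟩ | ⟨h1, h2⟩
      · exact hneg j (p j) b h1
      · rw [h1]
        obtain ⟨k, b, hk⟩ := glued2 μ S hS j
        have : k = j := by
          by_contra hne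
          exact h2 ⟨k, b, hk, hne⟩
        rw [this] at hk
        exact hneg j j b hk
    have hinv : ∀ j, p (p j) = j := by
      intro j
      rcases hpp j with ⟨b, h1, h2⟩ | ⟨h1, h2⟩
      · have h3 := S.rel_symm h1
        rcases hpp (p j) with ⟨b', h4, h5⟩ | ⟨h4, h5⟩
        · exact (S.rel_unique hl h3 h4 (Ne.symm h2) h5).symm
        · exact absurd ⟨j, b, h3, Ne.symm h2⟩ h5
      · rw [h1, h1]
    refine Finset.sum_involution (fun j _ => p j) (fun j _ => hsum j) (fun j _ hj hj' => hj ?_)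
      (fun j _ => Finset.mem_univ _) (fun j _ => hinv j)
    have h1 := hsum j
    have h2 : p j = j := hj'
    rw [h2] at h1
    linarith
  have hshift : ∑ j, ε (j - 1) = ∑ j, ε j := Equiv.sum_comp (Equiv.subRight (1 : ZMod m)) ε
  rw [Finset.sum_sub_distrib, Finset.sum_add_distrib, hshift, ← Finset.sum_div, hsum]
  rw [Finset.sum_sub_distrib] at hz
  have : ((m : ℝ) - 2) * Real.pi / Real.pi = (m : ℝ) - 2 := by field_simp
  rw [this]
  linarith

end Pool.Agent.Lib_MP_fa6e45
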