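import Pool.Agent.Lib_MP_fa6e45.G0
import Pool.Agent.Lib_MP_fa6e45.F8c
import Pool.Agent.Lib_MP_fa6e45.F5d
import Pool.Agent.Lib_MP_fa6e45.Y5

/-!
MP_fa6e45_co, stage 3: the model `MdlF` of a tiling (captain).
-/

open Set MeasureTheory Complex
open scoped Topology

namespace Pool.Agent.Lib_MP_fa6e45

open Pool.Agent.Lib_PL (cr InSector Poly)

variable {n : ℕ} [NeZero n] {P : Polygon n} {ι : Type} {K : CombA n P.ang P.len ι} {m : ℕ}
  [NeZero m]

/-- a straight arc which is related to some arc is of type `S` -/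
private theorem F10_S (S : Arcs P m) (cls : ZMod m → ℕ)
    (hcls : ∀ i j, (i = j ∨ ∃ b, S.Rel i j b) ↔ cls i = cls j) {j k : ZMod m} {b : Bool}
    (h : S.Rel j k b) (hw : S.w j = 1) : IsTy S.Rel cls j Ty.S := by
  intro l b' hlj
  rcases (hcls l j).2 hlj with rfl | ⟨b'', h2⟩
  · exact (S.rel_one h hw b').2.2
  · exact (S.rel_one (S.rel_symm h2) hw b').2.1

/-- the relations of an arc with at least two sides and a twin -/
private theorem F10_T (hl : P.NoThreeEqual) (S : Arcs P m) (cls : ZMod m → ℕ)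
    (hcls : ∀ i j, (i = j ∨ ∃ b, S.Rel i j b) ↔ cls i = cls j) {j k : ZMod m} {b : Bool}
    (h : S.Rel j k b) (hk : k ≠ j) (hw : S.w j ≠ 1) :
    (∀ l, l ≠ j → cls l = cls j → S.Rel j l b) ∧ ∀ l b', S.Rel j l b' → l ≠ j ∧ b' = b := by
  constructor
  · intro l hlj hc
    rcases (hcls l j).2 hc with h1 | ⟨b'', h2⟩
    · exact absurd h1 hlj
    · obtain ⟨h3, h4⟩ := S.rel_type hl hw h (S.rel_symm h2)
      rw [← h3]
      exact h
  · intro l b' h2
    obtain ⟨h3, h4⟩ := S.rel_type hl hw h h2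
    exact ⟨h3 ▸ hk, h4.symm⟩

/-- the arcs at an active mark are straight -/
theorem act_w (μ : Mean K) (hn : 5 ≤ n) (hl : P.NoThreeEqual) (S : Arcs P m) (hS : Marks μ S)
    {i j : ZMod m} (h : μ.Act (S.κ i) (S.κ j)) : S.w i = 1 ∧ S.w (i - 1) = 1 := by
  obtain ⟨-, h1, h2⟩ := Mean.act_mark hn hl h (hS.1 i)
  constructor
  · by_contra hw
    have h3 := S.w_pos i
    have h4 := hS.2 i 1 (by norm_num) (by omega)
    rw [Nat.cast_one] at h4
    exact h1 h4
  · by_contra hw
    have h3 := S.w_pos (i - 1)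
    have h4 := hS.2 (i - 1) (S.w (i - 1) - 1) (by omega) (by omega)
    have h5 := S.step (i - 1)
    rw [sub_add_cancel] at h5
    rw [Nat.cast_sub (by omega), Nat.cast_one, add_sub, ← h5] at h4
    exact h2 h4

/-- a corner active with a mark is a mark -/
theorem act_ex (μ : Mean K) (hn : 5 ≤ n) (hl : P.NoThreeEqual) (S : Arcs P m) (hS : Marks μ S)
    {i : ZMod m} {x : ZMod n} (h : μ.Act (S.κ i) x) : ∃ j, S.κ j = x :=
  (hS.iff x).1 (Mean.act_mark hn hl h (hS.1 i)).1

/-- the model for the second checker -/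
theorem mdlf_of (μ : Mean K) (hn : 5 ≤ n) (hl : P.NoThreeEqual) (S : Arcs P m) (hS : Marks μ S)
    (hκ : Function.Injective S.κ) (hm3 : 3 ≤ m)
    (hsum : ∑ j, P.ang (S.κ j) = ((m : ℝ) - 2) * Real.pi) (cls : ZMod m → ℕ)
    (hcls : ∀ i j, (i = j ∨ ∃ b, S.Rel i j b) ↔ cls i = cls j) :
    ∃ b : ZMod m → ℝ, S.ChordAng b ∧ MdlF cls (fun i j => μ.Act (S.κ i) (S.κ j))
      (fun j => P.ang (S.κ j) / Real.pi) b S.Rel := by
  have hpi := Real.pi_pos
  obtain ⟨σ, ε, hp, hmm, hch⟩ := S.chord_angles (by omega) hl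
  have hp : ∀ j k, S.Rel j k true → σ j = ε k ∧ ε j = σ k := fun j k h => hp j k h
  have hmm : ∀ j k, S.Rel j k false → σ j = -σ k ∧ ε j = -ε k := fun j k h => hmm j k h
  have hS1 : ∀ j, S.w j = 1 → IsTy S.Rel cls j Ty.S := by
    intro j hw
    obtain ⟨k, b, hkb⟩ := glued2 μ S hS j
    exact F10_S S cls hcls hkb hw
  refine ⟨_, hch, ?_⟩
  exact
    { a_pos := fun i => div_pos (K.a_pos _) hpi
      a_lt := fun i => (div_lt_iff₀ hpi).2 (K.a_lt _)
      a_ne := fun i h => K.a_ne _ ((div_eq_one_iff_eq hpi.ne').1 h)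
      a_sum := by
        rw [← Finset.sum_div, hsum, mul_div_cancel_right₀ _ hpi.ne']
      b_sum := b_sum2 μ S hS hκ hsum σ ε hp hmm hl
      cls_eq := fun j k b h => (hcls j k).1 (Or.inr ⟨b, h⟩)
      single := by
        intro j hj
        obtain ⟨k, b, hkb⟩ := glued2 μ S hS j
        have hkj : k = j := hj k ((hcls j k).1 (Or.inr ⟨b, hkb⟩)).symm
        subst hkj
        by_cases hw : S.w k = 1
        · exact Or.inl (hS1 k hw)
        · right
          cases b
          · exact absurd (S.minus_self k hkb) hw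
          · refine ⟨hkb, fun l b' h2 => ?_⟩
            obtain ⟨h3, h4⟩ := S.rel_type hl hw hkb h2
            exact ⟨h3.symm, h4.symm⟩
      twins := by
        intro j k hjk hc
        rcases (hcls j k).2 hc with h1 | ⟨b, h1⟩
        · exact absurd h1 hjk
        · have h2 := S.rel_symm h1
          by_cases hw : S.w j = 1
          · exact ⟨Ty.S, Or.inl rfl, hS1 j hw, hS1 k (S.rel_one h1 hw b).1⟩
          · have hwk : S.w k ≠ 1 := fun hk => hw (S.rel_one h2 hk b).1
            have h3 := F10_T hl S cls hcls h1 hjk.symm hw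
            have h4 := F10_T hl S cls hcls h2 hjk hwk
            cases b
            · exact ⟨Ty.G, Or.inr (Or.inr rfl), h3, h4⟩
            · exact ⟨Ty.R, Or.inr (Or.inl rfl), h3, h4⟩
      three := by
        rintro i j k hij hjk hik ⟨h1, h2⟩
        rcases (hcls i j).2 h1 with h3 | ⟨b, h3⟩
        · exact hij h3
        rcases (hcls j k).2 h2 with h4 | ⟨b', h4⟩
        · exact hjk h4
        exact hik (S.rel_unique hl (S.rel_symm h3) h4 hij hjk.symm)
      lp1 := lp_one μ S hS hκ hsum σ ε hp hmm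
      lpTwo := fun i j h => lp_two μ S hS hκ hsum σ ε hp hmm i j h
      lpImp := by
        intro i j h u1 u2
        refine lp_imp μ S hS hκ hsum σ ε hp hmm i (Mean.act_imp h (hS.1 i) ?_ ?_).1
        · intro x hx
          obtain ⟨j', rfl⟩ := act_ex μ hn hl S hS hx
          rw [u1 j' hx]
        · intro x hx
          obtain ⟨j', rfl⟩ := act_ex μ hn hl S hS hx
          rw [u2 j' hx]
      two_symm := fun i j h => Mean.act_symm h
      two_sum := fun i j h => two_sum μ S hS hκ σ ε hp hmm i j h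
      straight := by
        intro i j s h hs
        have key : ∀ e, S.w e = 1 → cls s = cls e → IsTy S.Rel cls s Ty.S := by
          intro e he hse
          apply hS1
          rcases (hcls s e).2 hse with h1 | ⟨b, h1⟩
          · rw [h1]
            exact he
          · exact (S.rel_one (S.rel_symm h1) he b).1
        obtain ⟨h1, h2⟩ := act_w μ hn hl S hS h
        rcases hs with hs | hs
        · exact key i h1 hs
        · exact key (i - 1) h2 hs }

/-- without active pairs the model is one for the first checker -/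
theorem MdlF.mdl {cls : ZMod m → ℕ} {two : ZMod m → ZMod m → Prop} {a b : ZMod m → ℝ}
    {G : ZMod m → ZMod m → Bool → Prop} (M : MdlF cls two a b G) (h : ∀ i j, ¬ two i j) :
    Mdl cls a b G :=
  { a_pos := M.a_pos
    a_lt := M.a_lt
    a_ne := M.a_ne
    a_sum := M.a_sum
    b_sum := M.b_sum
    cls_eq := M.cls_eq
    single := M.single
    twins := M.twins
    two := M.three
    wp := by
      intro v A hA L hL
      obtain ⟨c, l, ⟨h1, h2, h3, h4, h5⟩, h6⟩ := M.lp1 v A hA L hL
      refine ⟨c, l, h1, h2, ?_, h3, h4, h6⟩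
      rcases h5 with h5 | ⟨d, -, h5⟩
      · exact h5
      · exact absurd h5 (h _ _) }

end Pool.Agent.Lib_MP_fa6e45
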