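import Pool.Agent.Lib_MP_fa6e45.E0
import Pool.Agent.Lib_MP_fa6e45.F10

/-!
MP_fa6e45_co, stage 3.

PIECE E1 (about 200 lines): the properties `SAx` of the marked corners of a tiling. `refl`, `symm`, `trans`, `two`: as
`ZF_rel` in `ZF.lean` (private, copy). By `act_w` (in `F10`) the arcs `i` and `i - 1` at an active mark `i` are straight:
`S.w i = 1`, `S.w (i - 1) = 1`, so `S.κ i = S.κ (i - 1) + 1`, `S.κ (i + 1) = S.κ i + 1` (`S.step`). Straight arcs with
equal lengths `P.len (S.κ e) = P.len (S.κ g)` are related (`S.Rel e g b` for all `b`, unfold `Plus`, `Minus`; the statements for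
inner corners are empty), and conversely (`rel_one`, then the lengths are equal). `side`: `Mean.act_side`. `len`: `Mean.act_len`
(use `act_symm` for `act_w` at `j`). `adj`: otherwise `Mean.act_adj` gives `Rigid (κ i)`, contradiction to `hS.1`. `mid`:
`Mean.act_mid_mark`, the corner `s` is a mark (`Marks.iff`), its arc is straight as `s + 1` is not rigid (`hS.2`). `three`:
`Mean.act_three` and `hκ`. `P.NoThreeEqual` unfolds to `NoThree P.len`.
-/

open Set MeasureTheory Complex
open scoped Topology

namespace Pool.Agent.Lib_MP_fa6e45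

open Pool.Agent.Lib_PL (cr InSector Poly)

variable {n : ℕ} [NeZero n] {P : Polygon n} {ι : Type} {K : CombA n P.ang P.len ι} {m : ℕ}
  [NeZero m]

/-- the classes of arcs: equal or related -/
private theorem E1_rel (hl : P.NoThreeEqual) (S : Arcs P m) :
    (∀ i : ZMod m, i = i ∨ ∃ b, S.Rel i i b) ∧
    (∀ i j : ZMod m, (i = j ∨ ∃ b, S.Rel i j b) → (j = i ∨ ∃ b, S.Rel j i b)) ∧
    (∀ i j k : ZMod m, (i = j ∨ ∃ b, S.Rel i j b) → (j = k ∨ ∃ b, S.Rel j k b) →
      (i = k ∨ ∃ b, S.Rel i k b)) ∧
    (∀ i j k : ZMod m, i ≠ j → j ≠ k → i ≠ k →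
      ¬ ((i = j ∨ ∃ b, S.Rel i j b) ∧ (j = k ∨ ∃ b, S.Rel j k b))) := by
  have h4 : ∀ i j k : ZMod m, i ≠ j → j ≠ k → i ≠ k →
      ¬ ((i = j ∨ ∃ b, S.Rel i j b) ∧ (j = k ∨ ∃ b, S.Rel j k b)) := by
    rintro i j k hij hjk hik ⟨h1 | ⟨b, h1⟩, h2 | ⟨b', h2⟩⟩
    · exact hij h1
    · exact hij h1
    · exact hjk h2
    · exact hik (S.rel_unique hl (S.rel_symm h1) h2 hij hjk.symm)
  refine ⟨fun i => Or.inl rfl, ?_, ?_, h4⟩
  · rintro i j (h | ⟨b, h⟩)
    · exact Or.inl h.symm
    · exact Or.inr ⟨b, S.rel_symm h⟩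
  · intro i j k h1 h2
    by_cases hij : i = j
    · subst hij
      exact h2
    by_cases hjk : j = k
    · subst hjk
      exact h1
    by_cases hik : i = k
    · exact Or.inl hik
    · exact (h4 i j k hij hjk hik ⟨h1, h2⟩).elim

/-- straight arcs with equal lengths are related -/
private theorem E1_R (S : Arcs P m) {i j : ZMod m} (hi : S.w i = 1) (hj : S.w j = 1)
    (h : P.len (S.κ i) = P.len (S.κ j)) : i = j ∨ ∃ b, S.Rel i j b := by
  refine Or.inr ⟨false, ?_⟩
  refine ⟨by rw [hi, hj], fun t ht => ?_, fun t ht ht' => by omega⟩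
  have h0 : t = 0 := by omega
  subst h0
  rw [Nat.cast_zero, add_zero, add_zero]
  exact h

/-- related straight arcs have equal lengths -/
private theorem E1_len (S : Arcs P m) {i j : ZMod m} (hi : S.w i = 1)
    (h : i = j ∨ ∃ b, S.Rel i j b) : P.len (S.κ i) = P.len (S.κ j) := by
  rcases h with rfl | ⟨b, h⟩
  · rfl
  · obtain ⟨-, h2, -⟩ := S.rel_one h hi false
    obtain ⟨-, h3, -⟩ := h2
    have h4 := h3 0 (by omega)
    rwa [Nat.cast_zero, add_zero, add_zero] at h4

/-- the corner after a straight arc -/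
private theorem E1_next (S : Arcs P m) {i : ZMod m} (hi : S.w i = 1) : S.κ (i + 1) = S.κ i + 1 := by
  have h := S.step i
  rwa [hi, Nat.cast_one] at h

private theorem E1_prev (S : Arcs P m) {i : ZMod m} (hi : S.w (i - 1) = 1) :
    S.κ (i - 1) = S.κ i - 1 := by
  have h := E1_next S hi
  rw [sub_add_cancel] at h
  rw [h, add_sub_cancel_right]

theorem sax_of (μ : Mean K) (hn : 5 ≤ n) (hl : P.NoThreeEqual) (S : Arcs P m) (hS : Marks μ S)
    (hκ : Function.Injective S.κ) (hm3 : 3 ≤ m) :
    SAx (fun i j => i = j ∨ ∃ b, S.Rel i j b) (fun i j => μ.Act (S.κ i) (S.κ j)) := by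
  obtain ⟨r1, r2, r3, r4⟩ := E1_rel hl S
  exact
    { refl := r1
      symm := r2
      trans := r3
      two := r4
      asymm := fun i j h => Mean.act_symm h
      ne := fun i j h hij => Mean.act_ne h (congrArg S.κ hij)
      side := by
        intro i j h hR
        obtain ⟨w1, w2⟩ := act_w μ hn hl S hS h
        have h1 := E1_len S w2 hR
        rw [E1_prev S w2] at h1
        exact Mean.act_side hl h h1
      len := by
        intro i j h
        obtain ⟨w1, w2⟩ := act_w μ hn hl S hS h
        obtain ⟨w3, w4⟩ := act_w μ hn hl S hS (Mean.act_symm h)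
        rcases Mean.act_len h with ⟨h1, h2⟩ | ⟨h1, h2⟩
        · refine Or.inl ⟨E1_R S w2 w3 ?_, E1_R S w1 w4 ?_⟩
          · rw [E1_prev S w2]
            exact h1
          · rw [E1_prev S w4]
            exact h2
        · refine Or.inr ⟨E1_R S w2 w4 ?_, E1_R S w1 w3 h2⟩
          rw [E1_prev S w2, E1_prev S w4]
          exact h1
      adj := by
        intro i j k h h'
        obtain ⟨w1, w2⟩ := act_w μ hn hl S hS h
        obtain ⟨w3, w4⟩ := act_w μ hn hl S hS h'
        by_contra hR
        have h1 : μ.Act (S.κ i + 1) (S.κ k) := by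
          rw [← E1_next S w1]
          exact h'
        have h2 : P.len (S.κ i - 1) ≠ P.len (S.κ i + 1) := by
          intro h3
          apply hR
          apply E1_R S w2 w3
          rw [E1_prev S w2, E1_next S w1]
          exact h3
        exact hS.1 i (Mean.act_adj hn hl h h1 h2).1
      mid := by
        intro i h
        obtain ⟨w1, w2⟩ := act_w μ hn hl S hS h
        have h1 : μ.Act (S.κ i) (S.κ i + 1) := by
          rw [← E1_next S w1]
          exact h
        obtain ⟨s', h2, h3, h4, h5, h6⟩ := Mean.act_mid_mark hn hl h1 (hS.1 i)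
        obtain ⟨s, rfl⟩ := (hS.iff s').1 h4
        have ws : S.w s = 1 := by
          by_contra hw
          have h7 := S.w_pos s
          have h8 := hS.2 s 1 (by norm_num) (by omega)
          rw [Nat.cast_one] at h8
          exact h5 h8
        refine ⟨s, fun hsi => h2 (congrArg S.κ hsi), E1_R S w1 ws h3.symm, ?_⟩
        rw [E1_next S ws]
        exact h6
      three := by
        intro i j k h h' hjk
        obtain ⟨h1, h2⟩ := Mean.act_three hn hl h h' (fun he => hjk (hκ he))
        refine ⟨fun x hx => ?_, fun x hx => hκ (h2 _ hx)⟩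
        rcases h1 _ hx with h3 | h3
        · exact Or.inl (hκ h3)
        · exact Or.inr (hκ h3) }

end Pool.Agent.Lib_MP_fa6e45
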