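import Pool.Agent.Lib_MP_fa6e45.Z0

/-!
PIECE Z1 (about 150 lines): soundness of the search `dfs` (induction on `l` or on the fuel: fuel 0 gives
`false`). All costs in the table are natural numbers, so partial sums of a path of total cost `< L` are `< L`.
-/

namespace Pool.Agent.Lib_MP_fa6e45

/-- there is a path from `cur` through `l` to `d` in the table with total cost `t` -/
def TPath (tab : List (List (ℕ × ℕ))) : ℕ → List ℕ → ℕ → ℕ → Prop
  | cur, [], d, t => (d, t) ∈ tab.getD cur []
  | cur, x :: l, d, t => ∃ t1 t2, (x, t1) ∈ tab.getD cur [] ∧ TPath tab x l d t2 ∧ t = t1 + t2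

private theorem Z1_all {tab : List (List (ℕ × ℕ))} {L : ℕ} {cvs : List (List ℕ)} {m c0 : ℕ}
    {fuel cur s : ℕ} {path : List ℕ} (h : dfs tab L cvs m c0 fuel cur s path = true) {y t : ℕ}
    (hy : (y, t) ∈ tab.getD cur []) (ht : s + t < L) :
    (y = c0 → 3 ≤ path.length → cntv m path ∈ cvs) ∧
      (c0 ≤ y → ∃ fuel', dfs tab L cvs m c0 fuel' y (s + t) (y :: path) = true) := by
  cases fuel with
  | zero => simp [dfs] at h
  | succ fuel =>
    rw [dfs, List.all_eq_true] at h
    have h1 := h (y, t) hy
    rw [Bool.or_eq_true, Bool.and_eq_true, Bool.or_eq_true, Bool.or_eq_true, Bool.or_eq_true,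
      decide_eq_true_iff, decide_eq_true_iff, decide_eq_true_iff] at h1
    rcases h1 with h1 | ⟨h2, h3⟩
    · exact absurd ht (not_lt.2 h1)
    · constructor
      · intro he hlen
        rcases h2 with (h2 | h2) | h2
        · simp [he] at h2
        · exact absurd hlen (not_le.2 h2)
        · exact List.contains_iff_mem.1 h2
      · intro hc
        rcases h3 with h3 | h3
        · exact absurd hc (not_le.2 h3)
        · exact ⟨fuel, h3⟩

theorem dfs_sound {tab : List (List (ℕ × ℕ))} {L : ℕ} {cvs : List (List ℕ)} {m c0 : ℕ} (fuel cur s : ℕ)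
    (path : List ℕ) (h : dfs tab L cvs m c0 fuel cur s path = true) (l : List ℕ) (t : ℕ)
    (hp : TPath tab cur l c0 t) (hl : ∀ x ∈ l, c0 ≤ x) (ht : s + t < L)
    (h3 : 3 ≤ path.length + l.length) : cntv m (l.reverse ++ path) ∈ cvs := by
  induction l generalizing fuel cur s path t with
  | nil =>
    exact (Z1_all h hp ht).1 rfl (by simpa using h3)
  | cons y l ih =>
    obtain ⟨t1, t2, h4, h5, rfl⟩ := hp
    obtain ⟨fuel', h6⟩ := (Z1_all h h4 (by omega)).2 (hl y List.mem_cons_self)
    have h7 := ih fuel' y (s + t1) (y :: path) h6 t2 h5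
      (fun x hx => hl x (List.mem_cons_of_mem y hx)) (by omega)
      (by rw [List.length_cons] at h3 ⊢; omega)
    rwa [List.reverse_cons, List.append_assoc, List.singleton_append]

end Pool.Agent.Lib_MP_fa6e45
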