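import Pool.Agent.Lib_MP_fa6e45.Z0

/-!
MP_fa6e45_co, stage 2b: the tables of the schemes and of the canonical patterns of classes (captain, generated).
-/

namespace Pool.Agent.Lib_MP_fa6e45

/-- the schemes for `m = 3` -/
def sch3 (k : ℕ) : Sch :=
  ([⟨[(0, 0, true), (1, 1, true), (2, 2, true)], []⟩,
    ⟨[(0, 0, true), (1, 2, false), (2, 1, false)], []⟩,
    ⟨[(0, 1, true), (1, 0, true), (2, 2, true)], [([0, 3, 0], 2), ([3, 0, 3], 1)]⟩,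
    ⟨[(0, 1, true), (1, 0, true), (2, 2, true)], [([0, 2, 0], 1), ([2, 0, 2], 1)]⟩,
    ⟨[(0, 1, true), (1, 0, true), (2, 2, true)], [([0, 3, 0], 1), ([3, 0, 3], 2)]⟩] : List Sch).getD k ⟨[], [([], 1)]⟩

/-- the canonical patterns of classes for `m = 3`, up to rotation -/
def canC3 (q : Fin 2) (i : ZMod 3) : ℕ :=
  (([[0, 1, 2],
    [0, 0, 1]] : List (List ℕ)).getD q.val []).getD i.val 0

/-- the schemes for `m = 4` -/
def sch4 (k : ℕ) : Sch :=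
  ([⟨[(0, 0, true), (1, 1, true), (2, 2, true), (3, 3, true)], []⟩,
    ⟨[(0, 0, true), (1, 1, true), (2, 3, false), (3, 2, false)], []⟩,
    ⟨[(0, 0, true), (2, 2, true), (1, 3, false), (3, 1, false)], []⟩,
    ⟨[(0, 1, false), (1, 0, false), (2, 3, false), (3, 2, false)], []⟩,
    ⟨[(0, 2, true), (2, 0, true), (1, 1, true), (3, 3, true)], [([0, 1, 1, 0], 1)]⟩,
    ⟨[(0, 2, true), (2, 0, true), (1, 3, true), (3, 1, true)], []⟩,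
    ⟨[(0, 2, true), (2, 0, true), (1, 3, false), (3, 1, false)], []⟩,
    ⟨[(0, 2, false), (2, 0, false), (1, 3, false), (3, 1, false)], [([0, 1, 0, 1], 1)]⟩,
    ⟨[(0, 1, true), (1, 0, true), (2, 2, false), (3, 3, false)], [([0, 3, 0, 0], 2), ([0, 0, 0, 3], 1), ([1, 0, 1, 0], 1)]⟩,
    ⟨[(0, 1, true), (1, 0, true), (2, 2, false), (3, 3, false)], [([0, 2, 0, 0], 1), ([0, 0, 0, 2], 1), ([1, 0, 1, 0], 1)]⟩,
    ⟨[(0, 1, true), (1, 0, true), (2, 3, true), (3, 2, true)], [([0, 3, 0, 0], 2), ([0, 0, 0, 3], 2), ([3, 0, 3, 0], 2)]⟩,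
    ⟨[(0, 1, true), (1, 0, true), (2, 3, true), (3, 2, true)], [([0, 3, 0, 0], 2), ([0, 0, 0, 3], 1), ([1, 0, 1, 0], 1)]⟩,
    ⟨[(0, 1, true), (1, 0, true), (2, 3, true), (3, 2, true)], [([0, 2, 0, 0], 1), ([0, 0, 0, 2], 1), ([1, 0, 1, 0], 1)]⟩,
    ⟨[(0, 1, true), (1, 0, true), (2, 3, true), (3, 2, true)], [([0, 3, 0, 0], 1), ([0, 0, 0, 3], 2), ([1, 0, 1, 0], 1)]⟩] : List Sch).getD k ⟨[], [([], 1)]⟩

/-- the canonical patterns of classes for `m = 4`, up to rotation -/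
def canC4 (q : Fin 5) (i : ZMod 4) : ℕ :=
  (([[0, 1, 2, 3],
    [0, 0, 1, 2],
    [0, 1, 0, 2],
    [0, 0, 1, 1],
    [0, 1, 0, 1]] : List (List ℕ)).getD q.val []).getD i.val 0

/-- the schemes for `m = 5` -/
def sch5 (k : ℕ) : Sch :=
  ([⟨[(4, 4, false), (1, 1, false), (0, 0, true), (2, 2, true), (3, 3, true)], [([1, 1, 0, 0, 0], 1)]⟩,
    ⟨[(0, 2, true), (2, 0, true), (1, 1, true), (3, 3, true), (4, 4, true)], [([0, 1, 1, 0, 0], 1)]⟩,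
    ⟨[(0, 2, false), (2, 0, false), (1, 3, false), (3, 1, false), (4, 4, true)], [([0, 1, 0, 1, 0], 1)]⟩,
    ⟨[(0, 1, false), (1, 0, false), (2, 4, true), (4, 2, true), (3, 3, true)], [([0, 0, 0, 1, 1], 1)]⟩,
    ⟨[(0, 1, true), (1, 0, true), (2, 3, true), (3, 2, true), (4, 4, true)], [([0, 3, 0, 0, 0], 2), ([0, 0, 0, 3, 0], 1)]⟩,
    ⟨[(0, 1, true), (1, 0, true), (2, 3, true), (3, 2, true), (4, 4, true)], [([0, 2, 0, 0, 0], 1), ([0, 0, 0, 2, 0], 1)]⟩,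
    ⟨[(0, 1, true), (1, 0, true), (2, 3, true), (3, 2, true), (4, 4, true)], [([0, 3, 0, 0, 0], 1), ([0, 0, 0, 3, 0], 2)]⟩,
    ⟨[(0, 1, true), (2, 3, true)], [([2, 1, 0, 0, 0], 2), ([0, 0, 0, 1, 2], 2)]⟩] : List Sch).getD k ⟨[], [([], 1)]⟩

/-- the canonical patterns of classes for `m = 5`, up to rotation -/
def canC5 (q : Fin 6) (i : ZMod 5) : ℕ :=
  (([[0, 1, 2, 3, 4],
    [0, 0, 1, 2, 3],
    [0, 1, 0, 2, 3],
    [0, 0, 1, 1, 2],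
    [0, 0, 1, 2, 1],
    [0, 1, 0, 1, 2]] : List (List ℕ)).getD q.val []).getD i.val 0

/-- the schemes for `m = 6` -/
def sch6 (k : ℕ) : Sch :=
  ([⟨[(0, 3, true), (3, 0, true), (1, 1, true), (2, 2, true), (4, 4, true), (5, 5, true)], [([0, 1, 1, 1, 0, 0], 2)]⟩,
    ⟨[(0, 3, true), (1, 4, true), (2, 5, true), (3, 0, true), (4, 1, true), (5, 2, true)], [([0, 1, 0, 1, 0, 1], 2), ([1, 0, 1, 0, 1, 0], 2)]⟩,
    ⟨[(0, 1, true), (1, 0, true), (2, 3, true), (3, 2, true), (4, 5, true), (5, 4, true)], [([0, 3, 0, 0, 0, 0], 2), ([0, 0, 0, 3, 0, 0], 2), ([0, 0, 0, 0, 0, 3], 2)]⟩,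
    ⟨[(0, 2, false), (2, 0, false), (1, 4, false), (4, 1, false), (3, 3, true), (5, 5, true)], [([0, 1, 0, 1, 1, 0], 2)]⟩,
    ⟨[(0, 1, false), (1, 0, false), (2, 5, true), (5, 2, true), (3, 3, true), (4, 4, true)], [([0, 0, 0, 1, 1, 1], 2)]⟩,
    ⟨[(0, 2, false), (2, 0, false), (1, 4, true), (4, 1, true), (3, 5, false), (5, 3, false)], [([0, 1, 0, 1, 0, 1], 2), ([1, 0, 1, 0, 1, 0], 2)]⟩,
    ⟨[(0, 1, false), (1, 0, false), (2, 5, true), (5, 2, true), (3, 4, false), (4, 3, false)], [([0, 0, 0, 1, 1, 1], 2)]⟩,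
    ⟨[(0, 0, false), (1, 1, false), (2, 2, false), (3, 3, false), (4, 4, false), (5, 5, false), (0, 1, true), (3, 4, true)], [([2, 1, 0, 0, 0, 0], 2), ([-1, 0, 1, 0, 0, 0], 0), ([0, 0, 0, 2, 1, 0], 2), ([0, 0, 0, -1, 0, 1], 0)]⟩] : List Sch).getD k ⟨[], [([], 1)]⟩

/-- the canonical patterns of classes for `m = 6`, up to rotation -/
def canC6 (q : Fin 18) (i : ZMod 6) : ℕ :=
  (([[0, 1, 2, 3, 4, 5],
    [0, 0, 1, 2, 3, 4],
    [0, 1, 0, 2, 3, 4],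
    [0, 1, 2, 0, 3, 4],
    [0, 0, 1, 1, 2, 3],
    [0, 0, 1, 2, 1, 3],
    [0, 0, 1, 2, 2, 3],
    [0, 0, 1, 2, 3, 1],
    [0, 0, 1, 2, 3, 2],
    [0, 1, 0, 1, 2, 3],
    [0, 1, 0, 2, 1, 3],
    [0, 1, 0, 2, 3, 2],
    [0, 1, 2, 0, 1, 3],
    [0, 0, 1, 1, 2, 2],
    [0, 0, 1, 2, 1, 2],
    [0, 0, 1, 2, 2, 1],
    [0, 1, 0, 2, 1, 2],
    [0, 1, 2, 0, 1, 2]] : List (List ℕ)).getD q.val []).getD i.val 0

end Pool.Agent.Lib_MP_fa6e45
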