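import Pool.Agent.Lib_MP_fa6e45.F0
import Pool.Agent.Lib_MP_fa6e45.Z1
import Pool.Agent.Lib_MP_fa6e45.ZS

/-!
MP_fa6e45_co, stage 3: the second checker (definitions only). Patterns with active pairs (two-tile stars), coarse
leaves (some marked corners are dropped).
-/

namespace Pool.Agent.Lib_MP_fa6e45

/-- the systems to which certificate trees apply, without the linear programming principles -/
structure MdlB {m : ℕ} [NeZero m] (cls : ZMod m → ℕ) (a b : ZMod m → ℝ)
    (G : ZMod m → ZMod m → Bool → Prop) : Prop where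
  a_pos : ∀ i, 0 < a i
  a_lt : ∀ i, a i < 2
  a_ne : ∀ i, a i ≠ 1
  a_sum : ∑ i, a i = (m : ℝ) - 2
  b_sum : ∑ i, b i = (m : ℝ) - 2
  cls_eq : ∀ j k b, G j k b → cls j = cls k
  single : ∀ j, (∀ k, cls k = cls j → k = j) → IsTy G cls j Ty.S ∨ IsTy G cls j Ty.C
  twins : ∀ j k, j ≠ k → cls j = cls k → ∃ t : Ty, (t = Ty.S ∨ t = Ty.R ∨ t = Ty.G) ∧
    IsTy G cls j t ∧ IsTy G cls k t
  three : ∀ i j k, i ≠ j → j ≠ k → i ≠ k → ¬ (cls i = cls j ∧ cls j = cls k)

/-- with active pairs (`two`) and the linear programming principles -/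
structure MdlF {m : ℕ} [NeZero m] (cls : ZMod m → ℕ) (two : ZMod m → ZMod m → Prop)
    (a b : ZMod m → ℝ) (G : ZMod m → ZMod m → Bool → Prop) : Prop extends MdlB cls a b G where
  lp1 : LP1 two a b G
  lpTwo : ∀ i j, two i j → LP2 two a b G (TTwo i j)
  lpImp : ∀ i j, two i j → (∀ x, two i x → x = j) → (∀ x, two j x → x = i) →
    LP2 two a b G (TImp i)
  two_symm : ∀ i j, two i j → two j i
  two_sum : ∀ i j, two i j → a i + a j = 2 ∧ b i + b j = 2
  straight : ∀ i j s, two i j → (cls s = cls i ∨ cls s = cls (i - 1)) → IsTy G cls s Ty.S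

/-- `i`, `j` is an active pair of the list -/
def actB (act : List (ℕ × ℕ)) (i j : ℕ) : Bool := act.contains (i, j) || act.contains (j, i)

/-- which stars are known to have positive weight: nothing, improper stars with corner `i`, the star `i, j` -/
inductive T0
  | none
  | imp (i : ℕ)
  | two (i j : ℕ)

/-- is the closed path (codes of corners) of the kind `t0` -/
def inT0 (t0 : T0) (path : List ℕ) : Bool :=
  match t0 with
    | T0.none => false
    | T0.imp i => decide (3 ≤ path.length) && path.any fun x => x / 2 == i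
    | T0.two i j => path.length == 2 && (path.any fun x => x / 2 == i) && path.any fun x => x / 2 == j

/-- is the kind `t0` justified by the list of active pairs -/
def okT0 (m : ℕ) (act : List (ℕ × ℕ)) (t0 : T0) : Bool :=
  match t0 with
    | T0.none => true
    | T0.imp i => decide (i < m) && (List.range m).any fun j => actB act i j &&
        ((List.range m).all fun x => !actB act i x || x == j) &&
        (List.range m).all fun x => !actB act j x || x == i
    | T0.two i j => decide (i < m) && decide (j < m) && actB act i j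

/-- a closed path with total cost `tot` is accepted -/
def accB (m : ℕ) (act : List (ℕ × ℕ)) (t0 : T0) (L : ℕ) (cvs : List (List ℕ)) (path : List ℕ)
    (tot : ℕ) : Bool :=
  decide (path.length < 2) ||
    (path.length == 2 && !actB act (path.getD 0 0 / 2) (path.getD 1 0 / 2)) ||
    cvs.contains (cntv m path) || (decide (L ≤ tot) && !inT0 t0 path)

/-- all closed walks from `c0` (through corners with codes `≥ c0`) with cost `< LL` are accepted -/
def dfs2 (tab : List (List (ℕ × ℕ))) (LL : ℕ) (acc : List ℕ → ℕ → Bool) (c0 : ℕ) :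
    ℕ → ℕ → ℕ → List ℕ → Bool
  | 0, _, _, _ => false
  | fuel + 1, cur, s, path =>
      (tab.getD cur []).all fun x =>
        decide (LL ≤ s + x.2) ||
          ((x.1 != c0 || acc path (s + x.2)) &&
            (decide (x.1 < c0) || dfs2 tab LL acc c0 fuel x.1 (s + x.2) (x.1 :: path)))

/-- bound for the costs -/
def llOf (t0 : T0) (L : ℕ) : ℕ :=
  match t0 with
    | T0.none => L
    | _ => L + 1

/-- the sum of the weights is small enough -/
def budB (m : ℕ) (t0 : T0) (v : List ℤ) (L : ℕ) : Bool :=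
  match t0 with
    | T0.none => decide (2 * ((List.range m).map fun i => v.getD i 0).sum < ((m : ℤ) - 2) * L)
    | _ => decide (2 * ((List.range m).map fun i => v.getD i 0).sum ≤ ((m : ℤ) - 2) * L)

/-- the node is correct -/
def lpB2 {m : ℕ} (cls : ZMod m → ℕ) (ty : ZMod m → Ty) (act : List (ℕ × ℕ)) (t0 : T0) (v : List ℤ)
    (A : List (ℕ × ℕ × ℤ)) (φ : List ℤ) (L fuel : ℕ) (tab : List (List (ℕ × ℕ)))
    (cvs : List (List ℕ)) : Bool :=
  budB m t0 v L && okT0 m act t0 &&
    ((allC m).all fun c => (allC m).all fun d => stepB cls ty v A φ (llOf t0 L) tab c d) &&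
    (List.range (2 * m)).all fun c => dfs2 tab (llOf t0 L) (accB m act t0 L cvs) c fuel c 0 [c]

/-- number of arcs between the kept corners `nu j` and `nu (j + 1)` -/
def nuU (m : ℕ) (nu : List ℕ) (j : ℕ) : ℕ :=
  (nu.getD ((j + 1) % nu.length) 0 + m - nu.getD j 0) % m

/-- the list of kept corners is correct -/
def nuOK (m : ℕ) (nu : List ℕ) : Bool :=
  decide (3 ≤ nu.length) && (nu.all fun x => decide (x < m)) &&
    ((List.range nu.length).all fun j => decide (0 < nuU m nu j)) &&
    ((List.range nu.length).map fun j => nuU m nu j).sum == m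

/-- the corner or arc at place `t` of the coarse arc `j` -/
def nuA (m : ℕ) (nu : List ℕ) (j t : ℕ) : ZMod m := ((nu.getD j 0 + t : ℕ) : ZMod m)

/-- the coarse arcs of `g` are congruent -/
def GlueM {m : ℕ} (a : ZMod m → ℝ) (G : ZMod m → ZMod m → Bool → Prop) (nu : List ℕ)
    (g : ℕ × ℕ × Bool) : Prop :=
  nuU m nu g.2.1 = nuU m nu g.1 ∧
  (∀ t, t < nuU m nu g.1 → G (nuA m nu g.1 t)
    (nuA m nu g.2.1 (if g.2.2 then nuU m nu g.1 - 1 - t else t)) g.2.2) ∧
  ∀ t, 0 < t → t < nuU m nu g.1 → a (nuA m nu g.1 t) +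
    a (nuA m nu g.2.1 (if g.2.2 then nuU m nu g.1 - t else t)) = 2

/-- check of `GlueM` -/
def glueMB {m : ℕ} (cls : ZMod m → ℕ) (ty : ZMod m → Ty) (act : List (ℕ × ℕ)) (nu : List ℕ)
    (g : ℕ × ℕ × Bool) : Bool :=
  nuU m nu g.2.1 == nuU m nu g.1 &&
    ((List.range (nuU m nu g.1)).all fun t => factB cls ty (nuA m nu g.1 t)
      (nuA m nu g.2.1 (if g.2.2 then nuU m nu g.1 - 1 - t else t)) g.2.2) &&
    (List.range (nuU m nu g.1)).all fun t => t == 0 ||
      actB act ((nu.getD g.1 0 + t) % m)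
        ((nu.getD g.2.1 0 + (if g.2.2 then nuU m nu g.1 - t else t)) % m)

/-- schemes for coarse leaves with `M` arcs -/
def schM (M k : ℕ) : Sch :=
  match M with
    | 3 => sch3 k
    | 4 => sch4 k
    | 5 => if k = 7 then ⟨[], [([], 1)]⟩ else sch5 k
    | 6 => if k = 7 then ⟨[], [([], 1)]⟩ else sch6 k
    | _ => ⟨[], [([], 1)]⟩

/-- the equations of the scheme for the kept corners are derived -/
def derMB (m : ℕ) (eqs : List Eqn) (nu : List ℕ) : List Eqn → List (ℤ × List ℤ) → Bool
  | [], [] => true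
  | E :: Es, c :: cs =>
      c.1 != 0 && ((List.range m).all fun i => lcCo c.2 eqs i ==
        c.1 * ((List.range nu.length).map fun j => if nu.getD j 0 = i then E.1.getD j 0 else 0).sum) &&
        lcRhs c.2 eqs == c.1 * E.2 && derMB m eqs nu Es cs
  | _, _ => false

/-- some scheme applies to the arcs after some marked corners have been dropped -/
def AppliesM {m : ℕ} (a : ZMod m → ℝ) (G : ZMod m → ZMod m → Bool → Prop) : Prop :=
  ∃ (k : ℕ) (nu : List ℕ), nuOK m nu = true ∧ (∀ g ∈ (schM nu.length k).glue, GlueM a G nu g) ∧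
    ∀ E ∈ (schM nu.length k).eqs,
      ∑ j ∈ Finset.range nu.length, ((E.1.getD j 0 : ℤ) : ℝ) * a (nuA m nu j 0) = (E.2 : ℝ)

/-- certificate trees; the children of a node `lp` form a chain of `cons` -/
inductive Tr2
  | leaf (k p : ℕ) (cs : List (ℤ × List ℤ))
  | leafM (k : ℕ) (nu : List ℕ) (cs : List (ℤ × List ℤ))
  | contra (ls : List ℤ)
  | splitT (j : ℕ) (tS tR tG : Tr2)
  | splitU (j : ℕ) (tS tC : Tr2)
  | lp (t0 : T0) (v : List ℤ) (A : List (ℕ × ℕ × ℤ)) (φ : List ℤ) (L fuel : ℕ)
      (tab : List (List (ℕ × ℕ))) (cvs : List (List ℕ)) (ch : Tr2)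
  | cons (t rest : Tr2)
  | nil

/-- the checker, compare `chk` -/
def chk2 {m : ℕ} (cls : ZMod m → ℕ) (act : List (ℕ × ℕ)) (tab : ℕ → Sch) :
    Tr2 → (ZMod m → Ty) → List Eqn → Option (List (List ℕ)) → Bool
  | Tr2.leaf k p cs, ty, eqs, _ =>
      ((tab k).glue.all fun g =>
        factB cls ty ((g.1 : ZMod m) + (p : ZMod m)) ((g.2.1 : ZMod m) + (p : ZMod m)) g.2.2) &&
        derB m eqs p (tab k).eqs cs
  | Tr2.leafM k nu cs, ty, eqs, _ =>
      nuOK m nu && ((schM nu.length k).glue.all fun g => glueMB cls ty act nu g) &&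
        derMB m eqs nu (schM nu.length k).eqs cs
  | Tr2.contra ls, _, eqs, _ => contraB m eqs ls
  | Tr2.splitT j tS tR tG, ty, eqs, _ =>
      !alone cls (j : ZMod m) && chk2 cls act tab tS (setTy cls ty j Ty.S) eqs none &&
        chk2 cls act tab tR (setTy cls ty j Ty.R) eqs none &&
        chk2 cls act tab tG (setTy cls ty j Ty.G) eqs none
  | Tr2.splitU j tS tC, ty, eqs, _ =>
      alone cls (j : ZMod m) && chk2 cls act tab tS (setTy cls ty j Ty.S) eqs none &&
        chk2 cls act tab tC (setTy cls ty j Ty.C) eqs none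
  | Tr2.lp t0 v A φ L fuel t cvs ch, ty, eqs, _ =>
      lpB2 cls ty act t0 v A φ L fuel t cvs && chk2 cls act tab ch ty eqs (some cvs)
  | Tr2.cons t rest, ty, eqs, some (cv :: cvs) =>
      chk2 cls act tab t ty ((cv.map fun x => (x : ℤ), 2) :: eqs) none &&
        chk2 cls act tab rest ty eqs (some cvs)
  | Tr2.cons _ _, _, _, _ => false
  | Tr2.nil, _, _, some [] => true
  | Tr2.nil, _, _, _ => false

/-- the types known at the root: sides at active corners are straight -/
def ty0 {m : ℕ} (cls : ZMod m → ℕ) (act : List (ℕ × ℕ)) (i : ZMod m) : Ty :=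
  if act.any fun p => cls i == cls (p.1 : ZMod m) || cls i == cls ((p.1 : ZMod m) - 1) ||
    cls i == cls (p.2 : ZMod m) || cls i == cls ((p.2 : ZMod m) - 1) then Ty.S else Ty.U

/-- the coefficients of `a i + a j` -/
def pairE (m i j : ℕ) : List ℤ :=
  (List.range m).map fun x => (if x = i then 1 else 0) + if x = j then 1 else 0

/-- the equations known at the root -/
def eqs0 (m : ℕ) (act : List (ℕ × ℕ)) : List Eqn :=
  act.map (fun p => (pairE m p.1 p.2, 2)) ++ [(List.replicate m 1, (m : ℤ) - 2)]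

/-- the check at the root -/
def chkR {m : ℕ} (cls : ZMod m → ℕ) (act : List (ℕ × ℕ)) (tab : ℕ → Sch) (t : Tr2) : Bool :=
  (act.all fun p => decide (p.1 < m) && decide (p.2 < m)) &&
    chk2 cls act tab t (ty0 cls act) (eqs0 m act) none

end Pool.Agent.Lib_MP_fa6e45
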