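import Pool.Agent.Lib_MP_fa6e45.E0
import Pool.Agent.Lib_MP_fa6e45.G0

/-!
MP_fa6e45_co, stage 3.

PIECE E2 (about 300 lines): the inequalities `Cnt`. Every mark is exactly one of `Pas`, `Dbl`, `Fre`, `Sec` (if `Dbl i` with
partners `j`, `k` then by `H.three` the only partner of `j` is `i`). `#Sec = 2 * #Dbl` (every double mark has exactly two
partners, they are `Sec`; the partner of a `Sec` mark is unique). `even`: the partner is an involution without fixed points on
`Fre` (`H.ne`). With `P = #Pas`, `q = #Dbl`, `F = #Fre`: `m = P + 3 q + F`.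
`le_six`: `M.lp1` with `v = 2` on `Pas`, `4` on `Dbl`, `3` on `Fre`, `2` on `Sec`, `A = 0`, `L = 6`: the cost of a star is the sum of
`v` over its corners, at least `6` for three corners, and `3 + 3` or `4 + 2` for two-tile stars (`two_symm`); so
`2 ∑ v ≥ 6 (m - 2)` where `∑ v = 2 P + 4 q + 3 F + 2 (2 q)`, hence `P + q ≤ 6`. `le_five`: if `Fre i` then `M.lpImp` gives
`LP2 (TImp i)`; stars with `TImp i` cost at least `3 + 2 + 2 = 7`; so `2 ∑ v > 6 (m - 2)`. `ge_three`: `∑ a = m - 2`,
`a i + a j = 2` for active pairs: `∑ a = ∑_Pas a + F + ∑_Dbl (4 - a)` (the two partners of a double mark `c` have the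
angle `2 - a c`), so `P - q - 2 = ∑_Pas a - ∑_Dbl a`, and `0 < a < 2`: `P + q > 2` (`P = q = 0` is impossible as well).
-/

open scoped Topology

namespace Pool.Agent.Lib_MP_fa6e45

variable {m : ℕ} [NeZero m] {cls : ZMod m → ℕ} {R two : ZMod m → ZMod m → Prop} {a b : ZMod m → ℝ}
  {G : ZMod m → ZMod m → Bool → Prop}

/-! ### the four kinds of marks -/

private lemma e2_only {R act : ZMod m → ZMod m → Prop} (H : SAx R act) {i j : ZMod m}
    (hD : Dbl act j) (h : act j i) : ∀ x, act i x → x = j := by
  obtain ⟨k, l, hkl, hk, hl⟩ := hD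
  rcases (H.three j k l hk hl hkl).1 i h with e | e
  · subst e
    exact (H.three j i l hk hl hkl).2
  · subst e
    exact (H.three j i k hl hk hkl.symm).2

private lemma e2_cases {R act : ZMod m → ZMod m → Prop} (H : SAx R act) (i : ZMod m) :
    Pas act i ∨ Dbl act i ∨ Fre act i ∨ Sec act i := by
  by_cases h1 : Pas act i
  · exact Or.inl h1
  · by_cases h2 : Dbl act i
    · exact Or.inr (Or.inl h2)
    · have h3 : ∃ j, act i j := by
        by_contra h
        exact h1 fun j hj => h ⟨j, hj⟩
      obtain ⟨j, hj⟩ := h3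
      by_cases h4 : Dbl act j
      · exact Or.inr (Or.inr (Or.inr ⟨j, hj, h4⟩))
      · refine Or.inr (Or.inr (Or.inl ⟨j, hj, ?_, ?_⟩))
        · intro x hx
          by_contra h
          exact h2 ⟨x, j, h, hx, hj⟩
        · intro x hx
          by_contra h
          exact h4 ⟨x, i, h, hx, H.asymm i j hj⟩

private lemma e2_pas_dbl {act : ZMod m → ZMod m → Prop} {i : ZMod m} (h : Pas act i) :
    ¬ Dbl act i := by
  rintro ⟨j, -, -, hj, -⟩
  exact h j hj

private lemma e2_pas_fre {act : ZMod m → ZMod m → Prop} {i : ZMod m} (h : Pas act i) :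
    ¬ Fre act i := by
  rintro ⟨j, hj, -⟩
  exact h j hj

private lemma e2_pas_sec {act : ZMod m → ZMod m → Prop} {i : ZMod m} (h : Pas act i) :
    ¬ Sec act i := by
  rintro ⟨j, hj, -⟩
  exact h j hj

private lemma e2_dbl_fre {act : ZMod m → ZMod m → Prop} {i : ZMod m} (h : Dbl act i) :
    ¬ Fre act i := by
  rintro ⟨j, -, hj, -⟩
  obtain ⟨k, l, hkl, hk, hl⟩ := h
  exact hkl ((hj k hk).trans (hj l hl).symm)

private lemma e2_dbl_sec {R act : ZMod m → ZMod m → Prop} (H : SAx R act) {i : ZMod m}
    (h : Dbl act i) : ¬ Sec act i := by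
  rintro ⟨j, hj, hD⟩
  have h1 := e2_only H hD (H.asymm i j hj)
  obtain ⟨k, l, hkl, hk, hl⟩ := h
  exact hkl ((h1 k hk).trans (h1 l hl).symm)

private lemma e2_fre_sec {act : ZMod m → ZMod m → Prop} {i : ZMod m} (h : Fre act i) :
    ¬ Sec act i := by
  rintro ⟨j, hj, hD⟩
  obtain ⟨k, hk, h1, h2⟩ := h
  have e := h1 j hj
  subst e
  obtain ⟨x, y, hxy, hx, hy⟩ := hD
  exact hxy ((h2 x hx).trans (h2 y hy).symm)

open scoped Classical in
/-- weights of the marks -/
private noncomputable def e2_v (act : ZMod m → ZMod m → Prop) (i : ZMod m) : ℤ :=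
  if Pas act i then 2 else if Dbl act i then 4 else if Fre act i then 3 else 2

private lemma e2_v_pas {act : ZMod m → ZMod m → Prop} {i : ZMod m} (h : Pas act i) :
    e2_v act i = 2 := by
  simp [e2_v, h]

private lemma e2_v_dbl {act : ZMod m → ZMod m → Prop} {i : ZMod m} (h : Dbl act i) :
    e2_v act i = 4 := by
  have h1 : ¬ Pas act i := fun h' => e2_pas_dbl h' h
  simp [e2_v, h, h1]

private lemma e2_v_fre {act : ZMod m → ZMod m → Prop} {i : ZMod m} (h : Fre act i) :
    e2_v act i = 3 := by
  have h1 : ¬ Pas act i := fun h' => e2_pas_fre h' h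
  have h2 : ¬ Dbl act i := fun h' => e2_dbl_fre h' h
  simp [e2_v, h, h1, h2]

private lemma e2_v_sec {R act : ZMod m → ZMod m → Prop} (H : SAx R act) {i : ZMod m}
    (h : Sec act i) : e2_v act i = 2 := by
  have h1 : ¬ Pas act i := fun h' => e2_pas_sec h' h
  have h2 : ¬ Dbl act i := fun h' => e2_dbl_sec H h' h
  have h3 : ¬ Fre act i := fun h' => e2_fre_sec h' h
  simp [e2_v, h1, h2, h3]

private lemma e2_v_ge {R act : ZMod m → ZMod m → Prop} (H : SAx R act) (i : ZMod m) :
    2 ≤ e2_v act i := by
  rcases e2_cases H i with h | h | h | h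
  · rw [e2_v_pas h]
  · rw [e2_v_dbl h]; norm_num
  · rw [e2_v_fre h]; norm_num
  · rw [e2_v_sec H h]

private lemma e2_v_two {R act : ZMod m → ZMod m → Prop} (H : SAx R act) {i j : ZMod m}
    (h : act i j) : e2_v act i + e2_v act j = 6 := by
  have hs := H.asymm i j h
  rcases e2_cases H i with h1 | h1 | h1 | h1
  · exact absurd h (h1 j)
  · have h2 : Sec act j := ⟨i, hs, h1⟩
    rw [e2_v_dbl h1, e2_v_sec H h2]; norm_num
  · have h2 : Fre act j := by
      obtain ⟨k, hk, h3, h4⟩ := h1
      have e := h3 j h
      subst e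
      exact ⟨i, hs, h4, h3⟩
    rw [e2_v_fre h1, e2_v_fre h2]; norm_num
  · have h2 : Dbl act j := by
      obtain ⟨k, hk, hD⟩ := h1
      have e := e2_only H hD (H.asymm i k hk) j h
      rw [e]
      exact hD
    rw [e2_v_sec H h1, e2_v_dbl h2]; norm_num

open scoped Classical in
private lemma e2_split {R act : ZMod m → ZMod m → Prop} (H : SAx R act) {N : Type}
    [AddCommMonoid N] (g : ZMod m → N) :
    ∑ i, g i = ∑ i with Pas act i, g i + ∑ i with Dbl act i, g i + ∑ i with Fre act i, g i +
      ∑ i with Sec act i, g i := by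
  rw [Finset.sum_filter, Finset.sum_filter, Finset.sum_filter, Finset.sum_filter,
    ← Finset.sum_add_distrib, ← Finset.sum_add_distrib, ← Finset.sum_add_distrib]
  refine Finset.sum_congr rfl fun i _ => ?_
  rcases e2_cases H i with h | h | h | h
  · simp [h, e2_pas_dbl h, e2_pas_fre h, e2_pas_sec h]
  · have h1 : ¬ Pas act i := fun h' => e2_pas_dbl h' h
    simp [h, h1, e2_dbl_fre h, e2_dbl_sec H h]
  · have h1 : ¬ Pas act i := fun h' => e2_pas_fre h' h
    have h2 : ¬ Dbl act i := fun h' => e2_dbl_fre h' h
    simp [h, h1, h2, e2_fre_sec h]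
  · have h1 : ¬ Pas act i := fun h' => e2_pas_sec h' h
    have h2 : ¬ Dbl act i := fun h' => e2_dbl_sec H h' h
    have h3 : ¬ Fre act i := fun h' => e2_fre_sec h' h
    simp [h, h1, h2, h3]

open scoped Classical in
private lemma e2_secsum {R act : ZMod m → ZMod m → Prop} (H : SAx R act) {N : Type}
    [AddCommMonoid N] (g : ZMod m → N) :
    ∑ i with Sec act i, g i = ∑ i with Dbl act i, ∑ j with act i j, g j := by
  rw [← Finset.sum_biUnion]
  · refine Finset.sum_congr ?_ fun _ _ => rfl
    ext j
    simp only [Finset.mem_filter, Finset.mem_univ, true_and, Finset.mem_biUnion, Sec]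
    constructor
    · rintro ⟨i, hi, hD⟩
      exact ⟨i, hD, H.asymm j i hi⟩
    · rintro ⟨i, hD, hi⟩
      exact ⟨i, H.asymm i j hi, hD⟩
  · intro i hi i' hi' hne
    simp only [Finset.coe_filter, Finset.mem_univ, true_and, Set.mem_setOf_eq] at hi hi'
    refine Finset.disjoint_left.2 fun j hj hj' => hne ?_
    simp only [Finset.mem_filter, Finset.mem_univ, true_and] at hj hj'
    exact (e2_only H hi hj i' (H.asymm i' j hj')).symm

open scoped Classical in
private lemma e2_nb {R act : ZMod m → ZMod m → Prop} (H : SAx R act) {i : ZMod m}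
    (h : Dbl act i) : ∃ j k, j ≠ k ∧ act i j ∧ act i k ∧
      (Finset.univ.filter fun x => act i x) = {j, k} := by
  obtain ⟨j, k, hjk, hj, hk⟩ := h
  refine ⟨j, k, hjk, hj, hk, ?_⟩
  ext x
  simp only [Finset.mem_filter, Finset.mem_univ, true_and, Finset.mem_insert,
    Finset.mem_singleton]
  constructor
  · exact (H.three i j k hj hk hjk).1 x
  · rintro (e | e)
    · rw [e]; exact hj
    · rw [e]; exact hk

open scoped Classical in
private lemma e2_card {R act : ZMod m → ZMod m → Prop} (H : SAx R act) :
    (Finset.univ.filter fun i => Sec act i).card =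
      2 * (Finset.univ.filter fun i => Dbl act i).card := by
  have h1 := e2_secsum H (fun _ => (1 : ℕ))
  rw [Finset.sum_const, smul_eq_mul, mul_one] at h1
  rw [h1, Finset.sum_congr rfl (g := fun _ => 2)]
  · rw [Finset.sum_const, smul_eq_mul, mul_comm]
  · intro i hi
    simp only [Finset.mem_filter, Finset.mem_univ, true_and] at hi
    obtain ⟨j, k, hjk, -, -, e⟩ := e2_nb H hi
    rw [e, Finset.sum_pair hjk]

/-! ### partners -/

open scoped Classical in
/-- a partner -/
private noncomputable def e2_pt (act : ZMod m → ZMod m → Prop) (i : ZMod m) : ZMod m :=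
  if h : ∃ j, act i j then h.choose else i

private lemma e2_pt_spec {R act : ZMod m → ZMod m → Prop} (H : SAx R act) {i : ZMod m}
    (h : Fre act i) : act i (e2_pt act i) ∧ Fre act (e2_pt act i) ∧
      e2_pt act (e2_pt act i) = i := by
  obtain ⟨j, hj, h1, h2⟩ := h
  have h3 : ∃ j, act i j := ⟨j, hj⟩
  have h4 : act i (e2_pt act i) := by
    rw [e2_pt, dif_pos h3]
    exact h3.choose_spec
  have e : e2_pt act i = j := h1 _ h4
  have hs := H.asymm i j hj
  have h5 : ∃ x, act j x := ⟨i, hs⟩
  have h6 : act j (e2_pt act j) := by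
    rw [e2_pt, dif_pos h5]
    exact h5.choose_spec
  refine ⟨h4, ?_, ?_⟩
  · rw [e]
    exact ⟨i, hs, h2, h1⟩
  · rw [e]
    exact h2 _ h6

open scoped Classical in
private lemma e2_even {R act : ZMod m → ZMod m → Prop} (H : SAx R act) :
    Even (Finset.univ.filter fun i => Fre act i).card := by
  have h1 : ∏ i ∈ Finset.univ.filter (fun i => Fre act i), (-1 : ℤ) = 1 := by
    refine Finset.prod_involution (fun i _ => e2_pt act i) ?_ ?_ ?_ ?_
    · intro i _
      norm_num
    · intro i hi _ e
      simp only [Finset.mem_filter, Finset.mem_univ, true_and] at hi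
      have h2 := (e2_pt_spec H hi).1
      exact H.ne _ _ h2 e.symm
    · intro i hi
      simp only [Finset.mem_filter, Finset.mem_univ, true_and] at hi ⊢
      exact (e2_pt_spec H hi).2.1
    · intro i hi
      simp only [Finset.mem_filter, Finset.mem_univ, true_and] at hi
      exact (e2_pt_spec H hi).2.2
  rw [Finset.prod_const] at h1
  rcases Nat.even_or_odd (Finset.univ.filter fun i => Fre act i).card with h | h
  · exact h
  · rw [h.neg_one_pow] at h1
    norm_num at h1

open scoped Classical in
private lemma e2_fresum {R act : ZMod m → ZMod m → Prop} (H : SAx R act) (a : ZMod m → ℝ)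
    (ha : ∀ i j, act i j → a i + a j = 2) :
    ∑ i with Fre act i, a i = ((Finset.univ.filter fun i => Fre act i).card : ℝ) := by
  have h1 : ∑ i with Fre act i, a i = ∑ i with Fre act i, a (e2_pt act i) := by
    refine Finset.sum_nbij' (fun i => e2_pt act i) (fun i => e2_pt act i) ?_ ?_ ?_ ?_ ?_
    · intro i hi
      simp only [Finset.mem_filter, Finset.mem_univ, true_and] at hi ⊢
      exact (e2_pt_spec H hi).2.1
    · intro i hi
      simp only [Finset.mem_filter, Finset.mem_univ, true_and] at hi ⊢
      exact (e2_pt_spec H hi).2.1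
    · intro i hi
      simp only [Finset.mem_filter, Finset.mem_univ, true_and] at hi
      exact (e2_pt_spec H hi).2.2
    · intro i hi
      simp only [Finset.mem_filter, Finset.mem_univ, true_and] at hi
      exact (e2_pt_spec H hi).2.2
    · intro i hi
      simp only [Finset.mem_filter, Finset.mem_univ, true_and] at hi
      rw [(e2_pt_spec H hi).2.2]
  have h2 : ∑ i with Fre act i, a i + ∑ i with Fre act i, a (e2_pt act i) =
      2 * ((Finset.univ.filter fun i => Fre act i).card : ℝ) := by
    rw [← Finset.sum_add_distrib, Finset.sum_congr rfl (g := fun _ => (2 : ℝ))]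
    · rw [Finset.sum_const, nsmul_eq_mul, mul_comm]
    · intro i hi
      simp only [Finset.mem_filter, Finset.mem_univ, true_and] at hi
      exact ha _ _ (e2_pt_spec H hi).1
  linarith

/-! ### costs -/

private lemma e2_pcost (v : ZMod m → ℤ) (c d : ZMod m × Bool) (l : List (ZMod m × Bool)) :
    pcost (stepCost v (fun _ _ => 0)) c l d = v c.1 + (l.map fun x => v x.1).sum := by
  induction l generalizing c with
  | nil => simp [pcost, stepCost]
  | cons x l ih => simp [pcost, stepCost, ih]

private lemma e2_len {v : ZMod m → ℤ} (hv : ∀ i, 2 ≤ v i) (l : List (ZMod m × Bool)) :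
    2 * (l.length : ℤ) ≤ (l.map fun x => v x.1).sum := by
  induction l with
  | nil => simp
  | cons x l ih =>
    have := hv x.1
    simp only [List.length_cons, List.map_cons, List.sum_cons]
    push_cast
    linarith

private lemma e2_len' {v : ZMod m → ℤ} (hv : ∀ i, 2 ≤ v i) (l : List (ZMod m × Bool))
    {i : ZMod m} (hi : 3 ≤ v i) (h : ∃ x ∈ l, x.1 = i) :
    2 * (l.length : ℤ) + 1 ≤ (l.map fun x => v x.1).sum := by
  induction l with
  | nil => simp at h
  | cons x l ih =>
    have h1 := hv x.1
    simp only [List.length_cons, List.map_cons, List.sum_cons]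
    push_cast
    obtain ⟨y, hy, hyi⟩ := h
    rcases List.mem_cons.1 hy with e | e
    · subst e
      rw [hyi]
      have := e2_len hv l
      linarith
    · have := ih ⟨y, e, hyi⟩
      linarith

private lemma e2_star {R act : ZMod m → ZMod m → Prop} (H : SAx R act)
    (c : ZMod m × Bool) (l : List (ZMod m × Bool))
    (h : 2 ≤ l.length ∨ ∃ d, l = [d] ∧ act c.1 d.1) :
    6 ≤ e2_v act c.1 + (l.map fun x => e2_v act x.1).sum := by
  rcases h with h | ⟨d, rfl, h⟩
  · have h1 := e2_v_ge H c.1
    have h2 := e2_len (e2_v_ge H) l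
    have h3 : (2 : ℤ) ≤ (l.length : ℤ) := by exact_mod_cast h
    linarith
  · have := e2_v_two H h
    simp only [List.map_cons, List.map_nil, List.sum_cons, List.sum_nil, add_zero]
    linarith

open scoped Classical in
private lemma e2_vsum {R act : ZMod m → ZMod m → Prop} (H : SAx R act) :
    ∑ i, e2_v act i = 2 * ((Finset.univ.filter fun i => Pas act i).card : ℤ) +
      8 * ((Finset.univ.filter fun i => Dbl act i).card : ℤ) +
      3 * ((Finset.univ.filter fun i => Fre act i).card : ℤ) := by
  have hS : ((Finset.univ.filter fun i => Sec act i).card : ℤ) =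
      2 * ((Finset.univ.filter fun i => Dbl act i).card : ℤ) := by
    exact_mod_cast e2_card H
  rw [e2_split H (e2_v act),
    Finset.sum_congr (s₂ := Finset.univ.filter fun i => Pas act i) rfl (g := fun _ => (2 : ℤ))
      (fun i hi => e2_v_pas (by simpa using hi)),
    Finset.sum_congr (s₂ := Finset.univ.filter fun i => Dbl act i) rfl (g := fun _ => (4 : ℤ))
      (fun i hi => e2_v_dbl (by simpa using hi)),
    Finset.sum_congr (s₂ := Finset.univ.filter fun i => Fre act i) rfl (g := fun _ => (3 : ℤ))
      (fun i hi => e2_v_fre (by simpa using hi)),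
    Finset.sum_congr (s₂ := Finset.univ.filter fun i => Sec act i) rfl (g := fun _ => (2 : ℤ))
      (fun i hi => e2_v_sec H (by simpa using hi))]
  simp only [Finset.sum_const, nsmul_eq_mul]
  linarith

open scoped Classical in
private lemma e2_total {R act : ZMod m → ZMod m → Prop} (H : SAx R act) :
    (Finset.univ.filter fun i => Pas act i).card + 3 * (Finset.univ.filter fun i => Dbl act i).card +
      (Finset.univ.filter fun i => Fre act i).card = m := by
  have h1 := e2_split H (fun _ => (1 : ℕ))
  simp only [Finset.sum_const, smul_eq_mul, mul_one, Finset.card_univ, ZMod.card] at h1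
  have h2 := e2_card H
  omega

open scoped Classical in
private lemma e2_ge {R act : ZMod m → ZMod m → Prop} (H : SAx R act) (a : ZMod m → ℝ)
    (ha : ∀ i j, act i j → a i + a j = 2) (h0 : ∀ i, 0 < a i) (h2 : ∀ i, a i < 2)
    (hs : ∑ i, a i = (m : ℝ) - 2) :
    3 ≤ (Finset.univ.filter fun i => Pas act i).card +
      (Finset.univ.filter fun i => Dbl act i).card := by
  have h3 := e2_split H a
  rw [e2_fresum H a ha, e2_secsum H a] at h3
  have h4 : ∑ i with Dbl act i, ∑ j with act i j, a j = ∑ i with Dbl act i, (4 - 2 * a i) := by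
    refine Finset.sum_congr rfl fun i hi => ?_
    simp only [Finset.mem_filter, Finset.mem_univ, true_and] at hi
    obtain ⟨j, k, hjk, hj, hk, e⟩ := e2_nb H hi
    rw [e, Finset.sum_pair hjk]
    linarith [ha _ _ hj, ha _ _ hk]
  rw [h4] at h3
  have h5 : ∑ i with Dbl act i, (4 - 2 * a i) =
      ∑ i with Dbl act i, (2 - a i) + ∑ i with Dbl act i, (2 - a i) := by
    rw [← Finset.sum_add_distrib]
    exact Finset.sum_congr rfl fun i _ => by ring
  have h6 : ∑ i with Dbl act i, a i + ∑ i with Dbl act i, (2 - a i) =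
      2 * ((Finset.univ.filter fun i => Dbl act i).card : ℝ) := by
    rw [← Finset.sum_add_distrib, Finset.sum_congr rfl (g := fun _ => (2 : ℝ))
      (fun i _ => by ring), Finset.sum_const, nsmul_eq_mul, mul_comm]
  have h7 : ((Finset.univ.filter fun i => Pas act i).card : ℝ) +
      3 * ((Finset.univ.filter fun i => Dbl act i).card : ℝ) +
      ((Finset.univ.filter fun i => Fre act i).card : ℝ) = m := by
    exact_mod_cast e2_total H
  have h8 : ∑ i with Pas act i, a i + ∑ i with Dbl act i, (2 - a i) =
      ((Finset.univ.filter fun i => Pas act i).card : ℝ) +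
      ((Finset.univ.filter fun i => Dbl act i).card : ℝ) - 2 := by
    rw [hs, h5] at h3
    linarith
  have h9 : 0 ≤ ∑ i with Pas act i, a i := Finset.sum_nonneg fun i _ => (h0 i).le
  have h10 : 0 ≤ ∑ i with Dbl act i, (2 - a i) :=
    Finset.sum_nonneg fun i _ => by linarith [h2 i]
  have h11 : (2 : ℝ) < ((Finset.univ.filter fun i => Pas act i).card : ℝ) +
      ((Finset.univ.filter fun i => Dbl act i).card : ℝ) := by
    by_cases hP : (Finset.univ.filter fun i => Pas act i).Nonempty
    · have : 0 < ∑ i with Pas act i, a i := Finset.sum_pos (fun i _ => h0 i) hP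
      linarith
    · by_cases hQ : (Finset.univ.filter fun i => Dbl act i).Nonempty
      · have : 0 < ∑ i with Dbl act i, (2 - a i) :=
          Finset.sum_pos (fun i _ => by linarith [h2 i]) hQ
        linarith
      · rw [Finset.not_nonempty_iff_eq_empty] at hP hQ
        rw [hP, hQ] at h8
        norm_num at h8
  have h12 : 2 < (Finset.univ.filter fun i => Pas act i).card +
      (Finset.univ.filter fun i => Dbl act i).card := by exact_mod_cast h11
  omega

private lemma e2_ncard (p : ZMod m → Prop) [DecidablePred p] :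
    {i | p i}.ncard = (Finset.univ.filter fun i => p i).card := by
  rw [← Set.ncard_coe_finset]
  congr 1
  ext i
  simp

theorem cnt_of (M : MdlF cls two a b G) (H : SAx R two) (hm : 3 ≤ m) : Cnt two := by
  classical
  have hT := e2_total H
  have hV := e2_vsum H
  have hTz : ((Finset.univ.filter fun i => Pas two i).card : ℤ) +
      3 * ((Finset.univ.filter fun i => Dbl two i).card : ℤ) +
      ((Finset.univ.filter fun i => Fre two i).card : ℤ) = m := by
    exact_mod_cast hT
  refine ⟨?_, ?_, ?_, ?_, ?_⟩
  · rw [e2_ncard, e2_ncard, e2_ncard]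
    exact hT
  · rw [e2_ncard]
    exact e2_even H
  · rw [e2_ncard, e2_ncard]
    by_contra hlt
    have h7 : (7 : ℤ) ≤ ((Finset.univ.filter fun i => Pas two i).card : ℤ) +
        ((Finset.univ.filter fun i => Dbl two i).card : ℤ) := by
      have : 7 ≤ (Finset.univ.filter fun i => Pas two i).card +
        (Finset.univ.filter fun i => Dbl two i).card := by omega
      exact_mod_cast this
    obtain ⟨c, l, hst, hc⟩ := M.lp1 (e2_v two) (fun _ _ => 0) (fun _ _ => by simp) 6 (by
      rw [hV]
      linarith)
    rw [e2_pcost] at hc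
    have := e2_star H c l hst.2.2.2.2
    linarith
  · rintro ⟨i, hi⟩
    rw [e2_ncard, e2_ncard]
    by_contra hlt
    have h6 : (6 : ℤ) ≤ ((Finset.univ.filter fun i => Pas two i).card : ℤ) +
        ((Finset.univ.filter fun i => Dbl two i).card : ℤ) := by
      have : 6 ≤ (Finset.univ.filter fun i => Pas two i).card +
        (Finset.univ.filter fun i => Dbl two i).card := by omega
      exact_mod_cast this
    have hvi := e2_v_fre hi
    obtain ⟨j, hj, h1, h2⟩ := hi
    obtain ⟨c, l, hst, hc⟩ := M.lpImp i j hj h1 h2 (e2_v two) (fun _ _ => 0)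
      (fun _ _ => by simp) 6 (by
      rw [hV]
      linarith)
    rw [e2_pcost] at hc
    rcases hc with hc | ⟨⟨hl, hi⟩, hc⟩
    · have := e2_star H c l hst.2.2.2.2
      linarith
    · have h3 : (2 : ℤ) ≤ (l.length : ℤ) := by exact_mod_cast hl
      rcases hi with hi | hi
      · have h4 := e2_len (e2_v_ge H) l
        rw [hi, hvi] at hc
        linarith
      · have h4 := e2_len' (e2_v_ge H) l (i := i) (by rw [hvi]) hi
        have h5 := e2_v_ge H c.1
        linarith
  · rw [e2_ncard, e2_ncard]
    exact e2_ge H a (fun i j h => (M.two_sum i j h).1) M.a_pos M.a_lt M.a_sum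

/-- an active pair needs at least five marks -/
theorem five_le (M : MdlF cls two a b G) (H : SAx R two) (hm : 3 ≤ m) {i j : ZMod m}
    (h : two i j) : 5 ≤ m := by
  classical
  have hC := cnt_of M H hm
  have h1 := hC.total
  have h2 := hC.even
  have h3 := hC.ge_three
  rw [e2_ncard, e2_ncard, e2_ncard] at h1
  rw [e2_ncard] at h2
  rw [e2_ncard, e2_ncard] at h3
  by_cases hQ : (Finset.univ.filter fun i => Dbl two i).card = 0
  · have hQ' : ∀ x, ¬ Dbl two x := by
      intro x hx
      rw [Finset.card_eq_zero] at hQ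
      have : x ∈ Finset.univ.filter fun i => Dbl two i := by simpa using hx
      rw [hQ] at this
      simp at this
    have hF : Fre two i := by
      rcases e2_cases H i with h4 | h4 | h4 | h4
      · exact absurd h (h4 j)
      · exact absurd h4 (hQ' i)
      · exact h4
      · obtain ⟨k, -, hk⟩ := h4
        exact absurd hk (hQ' k)
    have hF' : 0 < (Finset.univ.filter fun i => Fre two i).card :=
      Finset.card_pos.2 ⟨i, by simpa using hF⟩
    obtain ⟨r, hr⟩ := h2
    omega
  · omega

end Pool.Agent.Lib_MP_fa6e45
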