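import Pool.Agent.Lib_MP_fa6e45.E0

/-!
MP_fa6e45_co, stage 3.

PIECE E3 (about 300 lines): `count_act`: the number of active marks. Let `d e ∈ {0, 1, 2}` be the number of active marks among the
ends `e`, `e + 1` of arc `e`; `∑ e, d e = 2 (m - #Pas)`. Let `t` be the involution: `t e` is the twin of `e` (`R e (t e)`, `t e ≠ e`) or
`t e = e` if there is none. (1) if `e` has no twin then `d e = 0`: `H.len` for an active end `i` of `e` (`e = i` or `e = i - 1`): the
second case gives `R i j` or `R (i - 1) (j - 1)` with `j ≠ i`, a twin; in the first case `R e g` with `g = j - 1` resp. `j`, so `j = i + 1`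
resp. `j = i - 1`, i.e. `e` is the middle side of an adjacent active pair, contradiction to `H.mid`. (2) if `e`, `s = t e` are twins then
`d e + d s ≤ 2` unless there is a double mark `c` with `R e c ∨ R e (c - 1)`, and always `≤ 3`. Suppose both ends `e`, `e + 1` are
active (otherwise, if both arcs have at most one active end, the sum is `≤ 2`; if both ends of `s` are active exchange). Then
`R (e - 1) (e + 1)` by `H.adj`. If `s = e + 2` (or `s = e - 2`, the same reflected): the four arcs `e - 1, …, e + 2` have the classes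
`y x y x`; the mark `e + 3` is not active: if it is, with partner `j`, then `H.len` says that the arcs at `j` are one of `{e, e + 2}` and
one with the class of `e + 3`; neither `e - 1` nor `e + 1` has the class of `e + 3` (`m ≥ 5` and `H.two`), so `j = e + 3`. The marks `e, e + 1, e + 2`:
if all three are active then all their partners are among them (marks between an `x` and a `y` arc), so one of them is double. If
`s ≠ e + 2`, `s ≠ e - 2`: the partner of `e` is `e + 1` (the marks between the classes of `e` and `e - 1`), so by `H.mid`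
(the twin is unique) `¬ act s (s + 1)`; if `s` or `s + 1` is active, its partner is the other one: contradiction; so `d s = 0`.
Then `2 ∑ d = ∑ (d e + d (t e)) ≤ 2 m + #{e | d e + d (t e) = 3}`, and to every double mark `c` belong at most four arcs with
`R e c ∨ R e (c - 1)`.
`le_twelve`: arithmetic: with `s = P + q`: `m - s = 2 q + F` even, `2 (m - P) ≤ m + 2 q`, so `m ≤ 2 s ≤ 12`; `m = 11` gives `s = 6`, not even.
`m = 12`, `10`: `s = 6`, so `F = 0`.
`block`: `x`-arcs: class of `c - 1`, `y`-arcs: class of `c`; the marks `c, j, k` are between an `x`-arc and a `y`-arc (`H.len`). For `j`: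
either (a) `j`, `j - 1` are the twins of `c` and `c - 1`, or (b) `j = c + 1` is the twin of `c - 1`, or (c) `j = c - 1`, `c - 2` is the twin of
`c`, or (d) `j` is the twin of `c - 1` and `j - 1` is the twin of `c`; the same for `k ≠ j`; all combinations give the block or are impossible.
-/

namespace Pool.Agent.Lib_MP_fa6e45

variable {m : ℕ} [NeZero m] {R act : ZMod m → ZMod m → Prop}

private theorem E3_ne (hm : 5 ≤ m) :
    (1 : ZMod m) ≠ 0 ∧ (2 : ZMod m) ≠ 0 ∧ (3 : ZMod m) ≠ 0 ∧ (4 : ZMod m) ≠ 0 := by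
  have key : ∀ k : ℕ, 0 < k → k < 5 → ((k : ℕ) : ZMod m) ≠ 0 := by
    intro k h0 h5 h
    rw [ZMod.natCast_eq_zero_iff] at h
    exact absurd (Nat.le_of_dvd h0 h) (by omega)
  refine ⟨?_, ?_, ?_, ?_⟩
  · simpa using key 1 (by norm_num) (by norm_num)
  · simpa using key 2 (by norm_num) (by norm_num)
  · simpa using key 3 (by norm_num) (by norm_num)
  · simpa using key 4 (by norm_num) (by norm_num)

private theorem E3_tw (H : SAx R act) {i j k : ZMod m} (h : R i j) (hne : i ≠ j) (hk : R i k) :
    k = i ∨ k = j := by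
  by_contra hcon
  push Not at hcon
  exact H.two j i k hne.symm (Ne.symm hcon.1) (Ne.symm hcon.2) ⟨H.symm _ _ h, hk⟩

/-- an arc without a twin has passive ends -/
private theorem E3_alone (H : SAx R act) {e : ZMod m} (hu : ∀ g, R e g → g = e) :
    Pas act e ∧ Pas act (e + 1) := by
  have hmid : ¬ act e (e + 1) := by
    intro hj
    obtain ⟨s, hs1, hs2, -⟩ := H.mid e hj
    exact hs1 (hu s hs2)
  constructor
  · intro j hj
    rcases H.len e j hj with ⟨-, h2⟩ | ⟨-, h2⟩
    · have h3 : j = e + 1 := by linear_combination hu _ h2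
      rw [h3] at hj
      exact hmid hj
    · exact H.ne e j hj (hu _ h2).symm
  · intro j hj
    rcases H.len (e + 1) j hj with ⟨h2, -⟩ | ⟨h2, -⟩
    · rw [add_sub_cancel_right] at h2
      rw [hu _ h2] at hj
      exact hmid (H.asymm _ _ hj)
    · rw [add_sub_cancel_right] at h2
      exact H.ne _ _ hj (by linear_combination -(hu _ h2))

/-- four consecutive arcs with the classes `y x y x` -/
private theorem E3_quad (H : SAx R act) (hm : 5 ≤ m) {p : ZMod m} (hy : R p (p + 2))
    (hx : R (p + 1) (p + 3)) :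
    (∀ j, act (p + 1) j → j = p + 2 ∨ j = p + 3) ∧ (∀ j, act (p + 2) j → j = p + 1 ∨ j = p + 3) ∧
      (∀ j, act (p + 3) j → j = p + 1 ∨ j = p + 2) ∧ Pas act p ∧ Pas act (p + 4) := by
  obtain ⟨-, n2, -, n4⟩ := E3_ne hm
  have hY : ∀ g, R p g → g = p ∨ g = p + 2 := fun g hg =>
    E3_tw H hy (fun h => n2 (by linear_combination -h)) hg
  have hY2 : ∀ g, R (p + 2) g → g = p ∨ g = p + 2 := fun g hg => hY g (H.trans _ _ _ hy hg)
  have hX : ∀ g, R (p + 1) g → g = p + 1 ∨ g = p + 3 := fun g hg =>
    E3_tw H hx (fun h => n2 (by linear_combination -h)) hg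
  have hX2 : ∀ g, R (p + 3) g → g = p + 1 ∨ g = p + 3 := fun g hg => hX g (H.trans _ _ _ hx hg)
  -- the arcs `p - 1` and `p + 4` are not in these classes
  have hZ : ∀ g, g = p + 1 ∨ g = p + 3 → g ≠ p - 1 := by
    rintro g (h | h) h'
    · exact n2 (by linear_combination h' - h)
    · exact n4 (by linear_combination h' - h)
  have hZ' : ∀ g, g = p ∨ g = p + 2 → g ≠ p + 4 := by
    rintro g (h | h) h'
    · exact n4 (by linear_combination h - h')
    · exact n2 (by linear_combination h - h')
  refine ⟨fun j hj => ?_, fun j hj => ?_, fun j hj => ?_, fun j hj => ?_, fun j hj => ?_⟩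
  · have e1 : (p + 1 - 1 : ZMod m) = p := by ring
    have hl := H.len _ _ hj
    rw [e1] at hl
    rcases hl with ⟨h1, h2⟩ | ⟨h1, h2⟩
    · rcases hY _ h1 with h3 | h3
      · exact absurd (by rw [h3]) (hZ _ (hX _ h2))
      · exact Or.inl h3
    · rcases hX _ h2 with h3 | h3
      · exact absurd h3.symm (H.ne _ _ hj)
      · exact Or.inr h3
  · have e1 : (p + 2 - 1 : ZMod m) = p + 1 := by ring
    have hl := H.len _ _ hj
    rw [e1] at hl
    rcases hl with ⟨h1, h2⟩ | ⟨h1, h2⟩
    · exact hX _ h1
    · rcases hY2 _ h2 with h3 | h3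
      · exact absurd (by rw [h3]) (hZ _ (hX _ h1))
      · exact absurd h3.symm (H.ne _ _ hj)
  · have e1 : (p + 3 - 1 : ZMod m) = p + 2 := by ring
    have hl := H.len _ _ hj
    rw [e1] at hl
    rcases hl with ⟨h1, h2⟩ | ⟨h1, h2⟩
    · rcases hY2 _ h1 with h3 | h3
      · exact absurd (by rw [h3]) (hZ _ (hX2 _ h2))
      · exact Or.inr h3
    · rcases hX2 _ h2 with h3 | h3
      · exact Or.inl h3
      · exact absurd h3.symm (H.ne _ _ hj)
  · rcases H.len _ _ hj with ⟨h1, h2⟩ | ⟨h1, h2⟩
    · rcases hY _ h2 with h3 | h3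
      · have h4 : j = p + 1 := by linear_combination h3
        rw [h4] at h1
        exact hZ _ (hX _ (H.symm _ _ h1)) rfl
      · have h4 : j = p + 3 := by linear_combination h3
        rw [h4] at h1
        exact hZ _ (hX2 _ (H.symm _ _ h1)) rfl
    · rcases hY _ h2 with h3 | h3
      · exact absurd h3.symm (H.ne _ _ hj)
      · have h4 : j - 1 = p + 1 := by linear_combination h3
        rw [h4] at h1
        exact hZ _ (hX _ (H.symm _ _ h1)) rfl
  · have e1 : (p + 4 - 1 : ZMod m) = p + 3 := by ring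
    have hl := H.len _ _ hj
    rw [e1] at hl
    rcases hl with ⟨h1, h2⟩ | ⟨h1, h2⟩
    · rcases hX2 _ h1 with h3 | h3
      · have h4 : j - 1 = p := by linear_combination h3
        rw [h4] at h2
        exact hZ' _ (hY _ (H.symm _ _ h2)) rfl
      · have h4 : j - 1 = p + 2 := by linear_combination h3
        rw [h4] at h2
        exact hZ' _ (hY2 _ (H.symm _ _ h2)) rfl
    · rcases hX2 _ h1 with h3 | h3
      · have h4 : j = p + 2 := by linear_combination h3
        rw [h4] at h2
        exact hZ' _ (hY2 _ (H.symm _ _ h2)) rfl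
      · exact absurd (by linear_combination -h3) (H.ne _ _ hj)

/-- three active marks with all partners among them -/
private theorem E3_tri (H : SAx R act) {a b c : ZMod m} (hab : a ≠ b) (hac : a ≠ c) (hbc : b ≠ c)
    (ha : ¬ Pas act a) (hb : ¬ Pas act b) (hc : ¬ Pas act c) (ha' : ∀ j, act a j → j = b ∨ j = c)
    (hb' : ∀ j, act b j → j = a ∨ j = c) (hc' : ∀ j, act c j → j = a ∨ j = b) :
    ∃ d, (d = a ∨ d = b ∨ d = c) ∧ Dbl act d := by
  unfold Pas at ha hb hc
  push Not at ha hb hc
  obtain ⟨x, hx⟩ := ha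
  obtain ⟨y, hy⟩ := hb
  obtain ⟨z, hz⟩ := hc
  rcases ha' _ hx with h | h
  · rw [h] at hx
    rcases hc' _ hz with h' | h'
    · rw [h'] at hz
      exact ⟨a, Or.inl rfl, b, c, hbc, hx, H.asymm _ _ hz⟩
    · rw [h'] at hz
      exact ⟨b, Or.inr (Or.inl rfl), a, c, hac, H.asymm _ _ hx, H.asymm _ _ hz⟩
  · rw [h] at hx
    rcases hb' _ hy with h' | h'
    · rw [h'] at hy
      exact ⟨a, Or.inl rfl, b, c, hbc, H.asymm _ _ hy, hx⟩
    · rw [h'] at hy
      exact ⟨c, Or.inr (Or.inr rfl), a, b, hab, H.asymm _ _ hx, H.asymm _ _ hy⟩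

private theorem E3_both (H : SAx R act) (hm : 5 ≤ m) {e s : ZMod m} (hs : R e s) (hne : e ≠ s)
    (hE : ¬ Pas act e) (hE1 : ¬ Pas act (e + 1)) :
    (Pas act s ∧ Pas act (s + 1)) ∨
      ((Pas act s ∨ Pas act (s + 1)) ∧ ∃ c, Dbl act c ∧ (R e c ∨ R e (c - 1))) := by
  obtain ⟨n1, n2, n3, n4⟩ := E3_ne hm
  have hadj : R (e - 1) (e + 1) := by
    unfold Pas at hE hE1
    push Not at hE hE1
    obtain ⟨j, hj⟩ := hE
    obtain ⟨k, hk⟩ := hE1
    exact H.adj e j k hj hk
  by_cases c1 : s = e + 2
  · -- the quadruple starts at `e - 1`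
    obtain ⟨q1, q2, q3, -, q5⟩ := E3_quad H hm (p := e - 1) (by convert hadj using 1; ring)
      (by convert hs using 1 <;> [ring; (rw [c1]; ring)])
    have a1 : e - 1 + 1 = e := by ring
    have a2 : e - 1 + 2 = e + 1 := by ring
    have a3 : e - 1 + 3 = e + 2 := by ring
    have a4 : e - 1 + 4 = s + 1 := by rw [c1]; ring
    rw [a1, a2, a3] at q1
    rw [a1, a2, a3] at q2
    rw [a1, a2, a3] at q3
    rw [a4] at q5
    by_cases hP : Pas act s
    · exact Or.inl ⟨hP, q5⟩
    · right
      refine ⟨Or.inr q5, ?_⟩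
      rw [c1] at hP
      obtain ⟨d, hd, hd'⟩ := E3_tri H (a := e) (b := e + 1) (c := e + 2)
        (fun h => n1 (by linear_combination -h)) (fun h => n2 (by linear_combination -h))
        (fun h => n1 (by linear_combination -h)) hE hE1 hP q1 q2 q3
      refine ⟨d, hd', ?_⟩
      rcases hd with h | h | h
      · rw [h]
        exact Or.inl (H.refl _)
      · rw [h, add_sub_cancel_right]
        exact Or.inr (H.refl _)
      · rw [h, ← c1]
        exact Or.inl hs
  by_cases c2 : s = e - 2
  · -- the quadruple starts at `e - 2`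
    obtain ⟨q1, q2, q3, q4, -⟩ := E3_quad H hm (p := e - 2)
      (by rw [← c2, show s + 2 = e by rw [c2]; ring]; exact H.symm _ _ hs)
      (by rw [show e - 2 + 1 = e - 1 by ring, show e - 2 + 3 = e + 1 by ring]; exact hadj)
    have a1 : e - 2 + 1 = e - 1 := by ring
    have a2 : e - 2 + 2 = e := by ring
    have a3 : e - 2 + 3 = e + 1 := by ring
    rw [a1, a2, a3] at q1
    rw [a1, a2, a3] at q2
    rw [a1, a2, a3] at q3
    rw [← c2] at q4
    by_cases hP : Pas act (s + 1)
    · exact Or.inl ⟨q4, hP⟩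
    · right
      refine ⟨Or.inl q4, ?_⟩
      have a5 : s + 1 = e - 1 := by rw [c2]; ring
      rw [a5] at hP
      obtain ⟨d, hd, hd'⟩ := E3_tri H (a := e - 1) (b := e) (c := e + 1)
        (fun h => n1 (by linear_combination -h)) (fun h => n2 (by linear_combination -h))
        (fun h => n1 (by linear_combination -h)) hP hE hE1 q1 q2 q3
      refine ⟨d, hd', ?_⟩
      rcases hd with h | h | h
      · rw [h, show e - 1 - 1 = s by rw [c2]; ring]
        exact Or.inr hs
      · rw [h]
        exact Or.inl (H.refl _)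
      · rw [h, add_sub_cancel_right]
        exact Or.inr (H.refl _)
  -- the twin is far
  left
  have hX : ∀ g, R e g → g = e ∨ g = s := fun g hg => E3_tw H hs hne hg
  have hX2 : ∀ g, R s g → g = e ∨ g = s := fun g hg => hX g (H.trans _ _ _ hs hg)
  have hY : ∀ g, R (e - 1) g → g = e - 1 ∨ g = e + 1 := fun g hg =>
    E3_tw H hadj (fun h => n2 (by linear_combination -h)) hg
  have hY2 : ∀ g, R (e + 1) g → g = e - 1 ∨ g = e + 1 := fun g hg =>
    hY g (H.trans _ _ _ hadj hg)
  have hact : act e (e + 1) := by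
    unfold Pas at hE
    push Not at hE
    obtain ⟨j, hj⟩ := hE
    have hj1 : j = e + 1 := by
      rcases H.len _ _ hj with ⟨h1, h2⟩ | ⟨h1, h2⟩
      · rcases hY _ h1 with h3 | h3
        · rcases hX _ h2 with h4 | h4
          · exact absurd (by linear_combination h3 - h4) n2
          · exact absurd (by linear_combination h3 - h4) c2
        · exact h3
      · rcases hX _ h2 with h3 | h3
        · exact absurd h3.symm (H.ne _ _ hj)
        · rcases hY _ h1 with h4 | h4
          · exact absurd (by linear_combination h3 - h4) hne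
          · exact absurd (by linear_combination h4 - h3) c1
    rw [← hj1]
    rwa [hj1] at hj ⊢
  have hmid : ¬ act s (s + 1) := by
    obtain ⟨s', h1, h2, h3⟩ := H.mid e hact
    rcases hX _ h2 with h4 | h4
    · exact absurd h4 h1
    · rwa [h4] at h3
  -- neighbours of `s` are not in the class of `e + 1`
  have hs1 : ∀ g, g = e - 1 ∨ g = e + 1 → g ≠ s - 1 := by
    rintro g (h | h) h'
    · exact hne (by linear_combination h' - h)
    · exact c1 (by linear_combination h - h')
  have hs2 : ∀ g, g = e - 1 ∨ g = e + 1 → g ≠ s + 1 := by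
    rintro g (h | h) h'
    · exact c2 (by linear_combination h - h')
    · exact hne (by linear_combination h' - h)
  constructor
  · intro l hl
    rcases H.len _ _ hl with ⟨h1, h2⟩ | ⟨h1, h2⟩
    · rcases hX2 _ h2 with h3 | h3
      · have h4 : l = e + 1 := by linear_combination h3
        rw [h4] at h1
        exact hs1 _ (hY2 _ (H.symm _ _ h1)) rfl
      · have h4 : l = s + 1 := by linear_combination h3
        rw [h4] at hl
        exact hmid hl
    · rcases hX2 _ h2 with h3 | h3
      · have h4 : l - 1 = e - 1 := by linear_combination h3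
        rw [h4] at h1
        exact hs1 _ (hY _ (H.symm _ _ h1)) rfl
      · exact H.ne _ _ hl h3.symm
  · intro l hl
    have hlen := H.len _ _ hl
    rw [add_sub_cancel_right] at hlen
    rcases hlen with ⟨h1, h2⟩ | ⟨h1, h2⟩
    · rcases hX2 _ h1 with h3 | h3
      · have h4 : l - 1 = e - 1 := by linear_combination h3
        rw [h4] at h2
        exact hs2 _ (hY _ (H.symm _ _ h2)) rfl
      · rw [h3] at hl
        exact hmid (H.asymm _ _ hl)
    · rcases hX2 _ h1 with h3 | h3
      · have h4 : l = e + 1 := by linear_combination h3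
        rw [h4] at h2
        exact hs2 _ (hY2 _ (H.symm _ _ h2)) rfl
      · exact H.ne _ _ hl (by linear_combination -h3)

private theorem E3_twin (H : SAx R act) (e : ZMod m) :
    ∃ s, R e s ∧ ∀ g, R e g → g = e ∨ g = s := by
  by_cases h : ∃ g, g ≠ e ∧ R e g
  · obtain ⟨s, h1, h2⟩ := h
    exact ⟨s, h2, fun g hg => E3_tw H h2 h1.symm hg⟩
  · push Not at h
    refine ⟨e, H.refl e, fun g hg => Or.inl ?_⟩
    by_contra h1
    exact h g h1 hg

private theorem E3_card_le (H : SAx R act) (c : ZMod m) [DecidablePred fun e => R e c] :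
    (Finset.univ.filter fun e => R e c).card ≤ 2 := by
  classical
  obtain ⟨s, -, h2⟩ := E3_twin H c
  have h3 : (Finset.univ.filter fun e => R e c) ⊆ {c, s} := by
    intro e he
    rw [Finset.mem_filter] at he
    rw [Finset.mem_insert, Finset.mem_singleton]
    exact h2 e (H.symm _ _ he.2)
  exact (Finset.card_le_card h3).trans Finset.card_le_two

theorem count_act (H : SAx R act) (hm : 5 ≤ m) :
    2 * (m - {i | Pas act i}.ncard) ≤ m + 2 * {i | Dbl act i}.ncard := by
  classical
  choose t ht1 ht2 using E3_twin H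
  have hinv : Function.Involutive t := by
    intro e
    rcases ht2 (t e) e (H.symm _ _ (ht1 e)) with h | h
    · rw [← h, ← h]
    · exact h.symm
  set A : ZMod m → ℕ := fun i => if Pas act i then 0 else 1 with hA
  have hA1 : ∀ i, A i ≤ 1 := by
    intro i
    simp only [hA]
    split_ifs <;> omega
  have hA0 : ∀ i, Pas act i → A i = 0 := fun i hi => if_pos hi
  have hsumA : ∑ i, A i + {i | Pas act i}.ncard = m := by
    have h1 : {i | Pas act i}.ncard = ∑ i : ZMod m, if Pas act i then 1 else 0 := by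
      rw [Set.ncard_eq_toFinset_card', Finset.card_eq_sum_ones, ← Finset.sum_filter]
      congr 1
      ext i
      simp
    rw [h1, ← Finset.sum_add_distrib]
    have h2 : ∀ i ∈ (Finset.univ : Finset (ZMod m)), (A i + if Pas act i then 1 else 0) = 1 := by
      intro i _
      simp only [hA]
      split_ifs <;> rfl
    rw [Finset.sum_congr rfl h2, Finset.sum_const, Finset.card_univ, ZMod.card, smul_eq_mul,
      mul_one]
  have hshift : ∑ e, A (e + 1) = ∑ e, A e := Equiv.sum_comp (Equiv.addRight (1 : ZMod m)) A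
  set d : ZMod m → ℕ := fun e => A e + A (e + 1) with hd
  have hsumd : ∑ e, d e = 2 * ∑ i, A i := by
    simp only [hd]
    rw [Finset.sum_add_distrib, hshift]
    ring
  have hsumt : ∑ e, d (t e) = ∑ e, d e := Equiv.sum_comp (hinv.toPerm) d
  set χ : ZMod m → ℕ := fun e => if ∃ c, Dbl act c ∧ (R e c ∨ R e (c - 1)) then 1 else 0 with hχ
  have hχ1 : ∀ e, (∃ c, Dbl act c ∧ (R e c ∨ R e (c - 1))) → χ e = 1 := fun e he => if_pos he
  have hboth : ∀ e s, R e s → e ≠ s → ¬ Pas act e → ¬ Pas act (e + 1) →
      A s + A (s + 1) ≤ χ e := by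
    intro e s hs hne h1 h2
    rcases E3_both H hm hs hne h1 h2 with ⟨h3, h4⟩ | ⟨h3, h4⟩
    · rw [hA0 _ h3, hA0 _ h4]
      omega
    · rw [hχ1 e h4]
      have h5 := hA1 s
      have h6 := hA1 (s + 1)
      rcases h3 with h3 | h3
      · rw [hA0 _ h3]
        omega
      · rw [hA0 _ h3]
        omega
  have hpt : ∀ e, d e + d (t e) ≤ 2 + χ e := by
    intro e
    by_cases hte : t e = e
    · have h1 : ∀ g, R e g → g = e := by
        intro g hg
        rcases ht2 e g hg with h | h
        · exact h
        · rw [h, hte]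
      obtain ⟨h2, h3⟩ := E3_alone H h1
      have h4 : d e = 0 := by
        simp only [hd]
        rw [hA0 _ h2, hA0 _ h3]
      rw [hte, h4]
      omega
    · have hs := ht1 e
      have hne : e ≠ t e := fun h => hte h.symm
      have b1 := hA1 e
      have b2 := hA1 (e + 1)
      have b3 := hA1 (t e)
      have b4 := hA1 (t e + 1)
      have hde : d e = A e + A (e + 1) := rfl
      have hdt : d (t e) = A (t e) + A (t e + 1) := rfl
      by_cases c1 : Pas act e ∨ Pas act (e + 1)
      · by_cases c2 : Pas act (t e) ∨ Pas act (t e + 1)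
        · have h5 : A e + A (e + 1) ≤ 1 := by
            rcases c1 with h | h <;> rw [hA0 _ h] <;> omega
          have h6 : A (t e) + A (t e + 1) ≤ 1 := by
            rcases c2 with h | h <;> rw [hA0 _ h] <;> omega
          omega
        · push Not at c2
          have h5 := hboth (t e) e (H.symm _ _ hs) hne.symm c2.1 c2.2
          have h6 : χ (t e) ≤ χ e := by
            by_cases h7 : ∃ c, Dbl act c ∧ (R (t e) c ∨ R (t e) (c - 1))
            · obtain ⟨c, hc, hc'⟩ := h7
              rw [hχ1 (t e) ⟨c, hc, hc'⟩, hχ1 e ⟨c, hc, hc'.imp (H.trans _ _ _ hs)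
                (H.trans _ _ _ hs)⟩]
            · simp only [hχ]
              rw [if_neg h7]
              omega
          omega
      · push Not at c1
        have h5 := hboth e (t e) hs hne c1.1 c1.2
        omega
  have hsumχ : ∑ e, χ e ≤ 4 * {i | Dbl act i}.ncard := by
    have h1 : ∀ e, χ e ≤ ∑ c : ZMod m, if Dbl act c then
        ((if R e c then 1 else 0) + if R e (c - 1) then 1 else 0) else 0 := by
      intro e
      by_cases h : ∃ c, Dbl act c ∧ (R e c ∨ R e (c - 1))
      · rw [hχ1 e h]
        obtain ⟨c, hc, hc'⟩ := h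
        refine le_trans ?_ (Finset.single_le_sum (f := fun c : ZMod m => if Dbl act c then
          ((if R e c then 1 else 0) + if R e (c - 1) then 1 else 0) else 0)
          (fun _ _ => Nat.zero_le _) (Finset.mem_univ c))
        simp only [if_pos hc]
        rcases hc' with h' | h'
        · rw [if_pos h']
          omega
        · rw [if_pos h']
          omega
      · simp only [hχ]
        rw [if_neg h]
        exact Nat.zero_le _
    refine (Finset.sum_le_sum fun e _ => h1 e).trans ?_
    rw [Finset.sum_comm]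
    have h2 : ∀ c ∈ (Finset.univ : Finset (ZMod m)), (∑ e : ZMod m, if Dbl act c then
        ((if R e c then 1 else 0) + if R e (c - 1) then 1 else 0) else 0) ≤
        if Dbl act c then 4 else 0 := by
      intro c _
      by_cases hc : Dbl act c
      · simp only [if_pos hc]
        rw [Finset.sum_add_distrib]
        have h3 : ∀ c : ZMod m, (∑ e : ZMod m, if R e c then 1 else 0) ≤ 2 := by
          intro c
          rw [← Finset.sum_filter, ← Finset.card_eq_sum_ones]
          exact E3_card_le H c
        have h4 := h3 c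
        have h5 := h3 (c - 1)
        omega
      · simp only [if_neg hc]
        simp
    refine (Finset.sum_le_sum h2).trans ?_
    rw [← Finset.sum_filter, Finset.sum_const, smul_eq_mul, mul_comm,
      Set.ncard_eq_toFinset_card']
    refine Nat.mul_le_mul_left _ (Finset.card_le_card ?_)
    intro c hc
    rw [Finset.mem_filter] at hc
    simpa using hc.2
  have hfin : ∑ e, (d e + d (t e)) ≤ ∑ e : ZMod m, (2 + χ e) :=
    Finset.sum_le_sum fun e _ => hpt e
  have hL : ∑ e, (d e + d (t e)) = ∑ e, d e + ∑ e, d (t e) := Finset.sum_add_distrib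
  have hR : ∑ e : ZMod m, (2 + χ e) = m * 2 + ∑ e, χ e := by
    rw [Finset.sum_add_distrib, Finset.sum_const, Finset.card_univ, ZMod.card, smul_eq_mul]
  rw [hL, hR, hsumt, hsumd] at hfin
  omega

theorem le_twelve (H : SAx R act) (hC : Cnt act) (hm : 5 ≤ m) : m ≤ 12 ∧ m ≠ 11 ∧
    ((m = 10 ∨ m = 12) → (∃ i, Dbl act i) ∧ ¬ ∃ i, Fre act i) := by
  have h1 := count_act H hm
  have h2 := hC.total
  have h3 := hC.le_six
  have h4 := hC.le_five
  obtain ⟨r, hr⟩ := hC.even
  have hF : ¬ (∃ i, Fre act i) → {i | Fre act i}.ncard = 0 := by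
    intro h
    push Not at h
    rw [Set.ncard_eq_zero]
    ext i
    simp [h i]
  have hD : {i | Dbl act i}.ncard ≠ 0 → ∃ i, Dbl act i := by
    intro h
    obtain ⟨i, hi⟩ := (Set.nonempty_of_ncard_ne_zero h)
    exact ⟨i, hi⟩
  set p := {i | Pas act i}.ncard with hp
  set q := {i | Dbl act i}.ncard with hq
  set F := {i | Fre act i}.ncard with hFd
  by_cases hex : ∃ i, Fre act i
  · have h5 := h4 hex
    refine ⟨by omega, by omega, ?_⟩
    rintro (h | h)
    · omega
    · omega
  · have h5 := hF hex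
    refine ⟨by omega, by omega, ?_⟩
    rintro (h | h)
    · exact ⟨hD (by omega), hex⟩
    · exact ⟨hD (by omega), hex⟩

theorem block (H : SAx R act) (hm : 5 ≤ m) {c j k : ZMod m} (hj : act c j) (hk : act c k)
    (hjk : j ≠ k) : ∃ p : ZMod m, R p (p + 2) ∧ R (p + 1) (p + 3) ∧
      (∀ x, (x = c ∨ x = j ∨ x = k) ↔ (x = p + 1 ∨ x = p + 2 ∨ x = p + 3)) := by
  obtain ⟨n1, n2, n3, n4⟩ := E3_ne hm
  obtain ⟨u, hu1, hu2⟩ := E3_twin H (c - 1)
  obtain ⟨v, hv1, hv2⟩ := E3_twin H c
  -- the possible partners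
  have hopt : ∀ j, act c j → (j = c - 1 ∧ v = c - 2) ∨ (j = c + 1 ∧ u = c + 1) ∨
      (j = u ∧ u = v + 1) ∨ (j = v ∧ v = u + 1) := by
    intro j hj
    rcases H.len _ _ hj with ⟨h1, h2⟩ | ⟨h1, h2⟩
    · rcases hu2 _ h1 with h3 | h3
      · rcases hv2 _ h2 with h4 | h4
        · exact absurd (by linear_combination h3 - h4) n2
        · exact Or.inl ⟨h3, by linear_combination h3 - h4⟩
      · rcases hv2 _ h2 with h4 | h4
        · exact Or.inr (Or.inl ⟨by linear_combination h4, by linear_combination h4 - h3⟩)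
        · exact Or.inr (Or.inr (Or.inl ⟨h3, by linear_combination h4 - h3⟩))
    · rcases hv2 _ h2 with h3 | h3
      · exact absurd h3.symm (H.ne _ _ hj)
      · rcases hu2 _ h1 with h4 | h4
        · exact absurd (by linear_combination -h4) (H.ne _ _ hj)
        · exact Or.inr (Or.inr (Or.inr ⟨h3, by linear_combination h4 - h3⟩))
  have hcj := H.ne _ _ hj
  have hck := H.ne _ _ hk
  have key : ∀ j k, c ≠ j → c ≠ k → j ≠ k → act c j → act c k →
      ((j = c - 1 ∧ v = c - 2) ∨ (j = c + 1 ∧ u = c + 1)) →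
      ∃ p : ZMod m, R p (p + 2) ∧ R (p + 1) (p + 3) ∧
        (∀ x, (x = c ∨ x = j ∨ x = k) ↔ (x = p + 1 ∨ x = p + 2 ∨ x = p + 3)) := by
    intro j k hcj hck hjk hj hk h
    rcases h with ⟨h1, h2⟩ | ⟨h1, h2⟩
    · rcases hopt k hk with ⟨h3, h4⟩ | ⟨h3, h4⟩ | ⟨h3, h4⟩ | ⟨h3, h4⟩
      · exact absurd (by rw [h1, h3]) hjk
      · refine ⟨c - 2, ?_, ?_, fun x => ?_⟩
        · rw [show c - 2 + 2 = c by ring, ← h2]
          exact H.symm _ _ hv1
        · rw [show c - 2 + 1 = c - 1 by ring, show c - 2 + 3 = c + 1 by ring, ← h4]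
          exact hu1
        · rw [show c - 2 + 1 = c - 1 by ring, show c - 2 + 3 = c + 1 by ring,
            show c - 2 + 2 = c by ring, h1, h3]
          tauto
      · exact absurd (by rw [h1, h3, h4, h2]; ring) hjk
      · have h5 : u = c - 3 := by linear_combination h2 - h4
        refine ⟨c - 3, ?_, ?_, fun x => ?_⟩
        · rw [show c - 3 + 2 = c - 1 by ring, ← h5]
          exact H.symm _ _ hu1
        · rw [show c - 3 + 1 = c - 2 by ring, show c - 3 + 3 = c by ring, ← h2]
          exact H.symm _ _ hv1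
        · rw [show c - 3 + 1 = c - 2 by ring, show c - 3 + 3 = c by ring,
            show c - 3 + 2 = c - 1 by ring, h1, h3, h2]
          tauto
    · rcases hopt k hk with ⟨h3, h4⟩ | ⟨h3, h4⟩ | ⟨h3, h4⟩ | ⟨h3, h4⟩
      · refine ⟨c - 2, ?_, ?_, fun x => ?_⟩
        · rw [show c - 2 + 2 = c by ring, ← h4]
          exact H.symm _ _ hv1
        · rw [show c - 2 + 1 = c - 1 by ring, show c - 2 + 3 = c + 1 by ring, ← h2]
          exact hu1
        · rw [show c - 2 + 1 = c - 1 by ring, show c - 2 + 3 = c + 1 by ring,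
            show c - 2 + 2 = c by ring, h1, h3]
          tauto
      · exact absurd (by rw [h1, h3]) hjk
      · exact absurd (by rw [h1, h3, h2]) hjk
      · have h5 : v = c + 2 := by linear_combination h2 + h4
        refine ⟨c - 1, ?_, ?_, fun x => ?_⟩
        · rw [show c - 1 + 2 = c + 1 by ring, ← h2]
          exact hu1
        · rw [show c - 1 + 1 = c by ring, show c - 1 + 3 = c + 2 by ring, ← h5]
          exact hv1
        · rw [show c - 1 + 1 = c by ring, show c - 1 + 3 = c + 2 by ring,
            show c - 1 + 2 = c + 1 by ring, h1, h3, h5]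
  rcases hopt j hj with h | h | ⟨h1, h2⟩ | ⟨h1, h2⟩
  · exact key j k hcj hck hjk hj hk (Or.inl h)
  · exact key j k hcj hck hjk hj hk (Or.inr h)
  · rcases hopt k hk with h | h | ⟨h3, h4⟩ | ⟨h3, h4⟩
    · obtain ⟨p, hp1, hp2, hp3⟩ := key k j hck hcj hjk.symm hk hj (Or.inl h)
      exact ⟨p, hp1, hp2, fun x => by rw [← hp3 x]; tauto⟩
    · obtain ⟨p, hp1, hp2, hp3⟩ := key k j hck hcj hjk.symm hk hj (Or.inr h)
      exact ⟨p, hp1, hp2, fun x => by rw [← hp3 x]; tauto⟩
    · exact absurd (by rw [h1, h3]) hjk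
    · exact absurd (by linear_combination -h2 - h4) n2
  · rcases hopt k hk with h | h | ⟨h3, h4⟩ | ⟨h3, h4⟩
    · obtain ⟨p, hp1, hp2, hp3⟩ := key k j hck hcj hjk.symm hk hj (Or.inl h)
      exact ⟨p, hp1, hp2, fun x => by rw [← hp3 x]; tauto⟩
    · obtain ⟨p, hp1, hp2, hp3⟩ := key k j hck hcj hjk.symm hk hj (Or.inr h)
      exact ⟨p, hp1, hp2, fun x => by rw [← hp3 x]; tauto⟩
    · exact absurd (by linear_combination -h2 - h4) n2
    · exact absurd (by rw [h1, h3]) hjk

end Pool.Agent.Lib_MP_fa6e45
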