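import Pool.Agent.Lib_MP_fa6e45.ZT0
import Pool.Agent.Lib_MP_fa6e45.ZH
import Pool.Agent.Lib_MP_fa6e45.E0

/-!
MP_fa6e45_co, stage 3: the search through all patterns at the level of the marked corners (definitions only). The classes
of the arcs are the digits of a number `C` (base 16), class = least index of an arc of the class.
-/

namespace Pool.Agent.Lib_MP_fa6e45

/-- the class of arc `x` -/
def clD (C x : ℕ) : ℕ := Nat.mod (Nat.div C (Nat.pow 16 x)) 16

/-- the class of arc `x` (mod `n`) -/
def ecl (n C x : ℕ) : ℕ := clD C (Nat.mod x n)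

/-- are the arcs `x`, `y` (mod `n`) in the same class -/
def eqc (n C x y : ℕ) : Bool := Nat.beq (ecl n C x) (ecl n C y)

/-- has arc `x < n` a twin -/
def twB (n C x : ℕ) : Bool := (List.range n).any fun s => !Nat.beq s x && eqc n C s x

/-- can the marks `p.1 < p.2` be an active pair -/
def candB (n C : ℕ) (p : ℕ × ℕ) : Bool :=
  ((eqc n C (Nat.add p.1 (Nat.pred n)) p.2 && eqc n C p.1 (Nat.add p.2 (Nat.pred n))) ||
    (eqc n C (Nat.add p.1 (Nat.pred n)) (Nat.add p.2 (Nat.pred n)) && eqc n C p.1 p.2)) &&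
  !eqc n C (Nat.add p.1 (Nat.pred n)) p.1 &&
  (!Nat.beq (Nat.mod (Nat.succ p.1) n) p.2 || twB n C p.1) &&
  (!Nat.beq (Nat.mod (Nat.succ p.2) n) p.1 || twB n C p.2)

/-- the pairs `i < j < n` -/
def pairsN (n : ℕ) : List (ℕ × ℕ) :=
  (List.range n).flatMap fun i => ((List.range n).filter fun j => Nat.blt i j).map fun j => (i, j)

/-- if the active mark `y` follows the active mark `x` then the arcs next to them are twins -/
def adjB (n C x y : ℕ) : Bool :=
  !Nat.beq (Nat.mod (Nat.succ x) n) y || eqc n C (Nat.add x (Nat.pred n)) y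

/-- the middle arcs of two adjacent active pairs are not twins -/
def midB (n C : ℕ) (a b : ℕ × ℕ) : Bool :=
  !(Nat.beq (Nat.mod (Nat.succ a.1) n) a.2 && Nat.beq (Nat.mod (Nat.succ b.1) n) b.2 &&
    !Nat.beq a.1 b.1 && eqc n C a.1 b.1)

/-- the active pairs `p`, `q` are compatible -/
def compB (n C : ℕ) (p q : ℕ × ℕ) : Bool :=
  [p, (p.2, p.1)].all fun a => [q, (q.2, q.1)].all fun b =>
    adjB n C a.1 b.1 && adjB n C b.1 a.1 && midB n C a b

/-- all sets of pairwise compatible elements of the list, together with `cur`, satisfy `fin` -/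
def clq {α : Type} (comp : α → α → Bool) (fin : List α → Bool) : List α → List α → Bool
  | [], cur => fin cur
  | x :: xs, cur => clq comp fin xs cur && (!(cur.all fun y => comp x y) || clq comp fin xs (x :: cur))

/-- number of pairs with the mark `i` -/
def degN (i : ℕ) : List (ℕ × ℕ) → ℕ
  | [] => 0
  | p :: al => bif Nat.beq p.1 i || Nat.beq p.2 i then Nat.succ (degN i al) else degN i al

/-- number of entries `x` -/
def cntN (x : ℕ) : List ℕ → ℕ
  | [] => 0
  | y :: D => bif Nat.beq y x then Nat.succ (cntN x D) else cntN x D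

/-- the numbers of passive, double and free marks are possible (`D`: numbers of partners, `P`, `q`: numbers of passive and
double marks) -/
def cntB (n : ℕ) (al : List (ℕ × ℕ)) (D : ℕ → ℕ) (P q : ℕ) : Bool :=
  Nat.ble (Nat.add P q) 6 && Nat.ble 3 (Nat.add P q) &&
  ((List.range n).all fun i => Nat.ble (D i) 2) &&
  (al.all fun p => (!Nat.beq (D p.1) 2 || Nat.beq (D p.2) 1) && (!Nat.beq (D p.2) 2 || Nat.beq (D p.1) 1)) &&
  (Nat.ble (Nat.add P q) 5 || !(al.any fun p => Nat.beq (D p.1) 1 && Nat.beq (D p.2) 1))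

/-- is `i`, `j` a pair of the list -/
def actN (i j : ℕ) : List (ℕ × ℕ) → Bool
  | [] => false
  | p :: al => (Nat.beq p.1 i && Nat.beq p.2 j) || (Nat.beq p.1 j && Nat.beq p.2 i) || actN i j al

/-- equality of truth values -/
def eqb (a b : Bool) : Bool := bif a then b else !b

/-- the classes `C` and active pairs `al`, rotated by `k`, are the pattern `p` -/
def eqPat (n C : ℕ) (al : List (ℕ × ℕ)) (k : ℕ) (p : List ℕ × List (ℕ × ℕ)) : Bool :=
  ((List.range n).all fun i => (List.range n).all fun j =>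
    eqb (actN (Nat.mod (Nat.add i k) n) (Nat.mod (Nat.add j k) n) al) (actN i j p.2)) &&
  ((List.range n).all fun i => (List.range n).all fun j =>
    eqb (eqc n C (Nat.add i k) (Nat.add j k)) (Nat.beq (p.1.getD i 0) (p.1.getD j 0)))

/-- the code of classes and active pairs (only used to find the pattern) -/
def codeB (C : ℕ) (al : List (ℕ × ℕ)) : ℕ :=
  Nat.add C (Nat.mul (Nat.pow 2 64) (al.foldr (fun p s => Nat.add s
    (Nat.pow 2 (bif Nat.blt p.1 p.2 then Nat.add (Nat.mul 16 p.1) p.2 else Nat.add (Nat.mul 16 p.2) p.1))) 0))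

/-- the pattern is in the list -/
def foundB (n : ℕ) (pats : List (List ℕ × List (ℕ × ℕ))) (ht : HT) (C : ℕ) (al : List (ℕ × ℕ)) :
    Bool :=
  (fun r : ℕ × ℕ => Nat.blt r.2 pats.length && eqPat n C al r.1 (pats.getD r.2 ([], [])))
    (ht.find (0, pats.length) (codeB C al))

/-- the final check -/
def finB (n : ℕ) (pats : List (List ℕ × List (ℕ × ℕ))) (ht : HT) (C : ℕ) (al : List (ℕ × ℕ)) : Bool :=
  Nat.beq al.length 0 || Nat.blt (Nat.mul 2 al.length) (Nat.sub n 6) ||
    !cntB n al (fun i => degN i al) (cntN 0 ((List.range n).map fun i => degN i al))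
      (cntN 2 ((List.range n).map fun i => degN i al)) || foundB n pats ht C al

/-- all possible sets of active pairs for the classes `C` lead to a pattern of the list -/
def actsB (n : ℕ) (pats : List (List ℕ × List (ℕ × ℕ))) (ht : HT) (C : ℕ) : Bool :=
  clq (compB n C) (finB n pats ht C) ((pairsN n).filter (candB n C)) []

/-- all class numbers which continue `C` (with `l` digits) by `k` further digits satisfy `f`; `S`: mask of the classes with
one arc so far -/
def allCl (f : ℕ → Bool) : ℕ → ℕ → ℕ → ℕ → Bool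
  | 0, _, C, _ => f C
  | k + 1, l, C, S => allCl f k (Nat.succ l) (Nat.add C (Nat.mul l (Nat.pow 16 l))) (Nat.add S (Nat.pow 2 l)) &&
      (List.range l).all fun j => Nat.beq (Nat.mod (Nat.div S (Nat.pow 2 j)) 2) 0 ||
        allCl f k (Nat.succ l) (Nat.add C (Nat.mul j (Nat.pow 16 l))) (Nat.sub S (Nat.pow 2 j))

end Pool.Agent.Lib_MP_fa6e45
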