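import Pool.Agent.Lib_MP_fa6e45.E4

/-!
MP_fa6e45_co, stage 3: the search through all patterns can be done in parts (captain).
-/

namespace Pool.Agent.Lib_MP_fa6e45

/-- the continuations of `C` (with `l` digits) by `k` further digits, with their masks -/
def prefs : ℕ → ℕ → ℕ → ℕ → List (ℕ × ℕ)
  | 0, _, C, S => [(C, S)]
  | k + 1, l, C, S =>
      prefs k (Nat.succ l) (Nat.add C (Nat.mul l (Nat.pow 16 l))) (Nat.add S (Nat.pow 2 l)) ++
      (List.range l).flatMap fun j =>
        bif Nat.beq (Nat.mod (Nat.div S (Nat.pow 2 j)) 2) 0 then [] else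
        prefs k (Nat.succ l) (Nat.add C (Nat.mul j (Nat.pow 16 l))) (Nat.sub S (Nat.pow 2 j))

theorem allCl_split (f : ℕ → Bool) (m : ℕ) : ∀ k l C S : ℕ,
    ((prefs k l C S).all fun p => allCl f m (l + k) p.1 p.2) = true → allCl f (k + m) l C S = true
  | 0, l, C, S, h => by
    simpa [prefs] using h
  | k + 1, l, C, S, h => by
    rw [prefs, List.all_append, Bool.and_eq_true, List.all_eq_true, List.all_eq_true] at h
    rw [Nat.add_right_comm, allCl, Bool.and_eq_true]
    have e : l + (k + 1) = Nat.succ l + k := by omega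
    rw [e] at h
    refine ⟨allCl_split f m k _ _ _ (List.all_eq_true.2 h.1), List.all_eq_true.2 fun j hj => ?_⟩
    rw [Bool.or_eq_true]
    by_cases hb : Nat.beq (Nat.mod (Nat.div S (Nat.pow 2 j)) 2) 0 = true
    · exact Or.inl hb
    · refine Or.inr (allCl_split f m k _ _ _ (List.all_eq_true.2 fun p hp => h.2 p ?_))
      refine List.mem_flatMap.2 ⟨j, hj, ?_⟩
      rw [Bool.not_eq_true] at hb
      rw [hb]
      exact hp

end Pool.Agent.Lib_MP_fa6e45
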