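import Pool.Agent.Lib_MP_fa6e45.E5c

/-!
MP_fa6e45_co, stage 3: soundness of the search through all patterns (captain).
-/

namespace Pool.Agent.Lib_MP_fa6e45

variable {n : ℕ} [NeZero n] {R act : ZMod n → ZMod n → Prop}

private theorem E5_exists (hr : ∀ i, R i i) (hs : ∀ i j, R i j → R j i)
    (ht : ∀ i j k, R i j → R j k → R i k) :
    ∃ c : ZMod n → ℕ, (∀ i j, R i j ↔ c i = c j) ∧ (∀ i, c i ≤ i.val) ∧
      (∀ i, c ((c i : ℕ) : ZMod n) = c i) ∧ ∀ i (k : ℕ), R i (k : ZMod n) → c i ≤ k := by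
  classical
  have hex : ∀ i : ZMod n, ∃ k : ℕ, R i (k : ZMod n) := fun i =>
    ⟨i.val, by rw [ZMod.natCast_zmod_val]; exact hr i⟩
  have hspec : ∀ i, R i ((Nat.find (hex i) : ℕ) : ZMod n) := fun i => Nat.find_spec (hex i)
  have hle : ∀ i j, R i j → Nat.find (hex i) ≤ Nat.find (hex j) := fun i j h =>
    Nat.find_min' (hex i) (ht _ _ _ h (hspec j))
  have heq : ∀ i j, R i j → Nat.find (hex i) = Nat.find (hex j) := fun i j h =>
    le_antisymm (hle i j h) (hle j i (hs _ _ h))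
  refine ⟨fun i => Nat.find (hex i), fun i j => ⟨heq i j, fun h => ?_⟩, fun i => ?_, fun i => ?_,
    fun i k h => Nat.find_min' (hex i) h⟩
  · have h' : Nat.find (hex i) = Nat.find (hex j) := h
    have h2 := hspec i
    rw [h'] at h2
    exact ht _ _ _ h2 (hs _ _ (hspec j))
  · exact Nat.find_min' (hex i) (by rw [ZMod.natCast_zmod_val]; exact hr i)
  · exact (heq _ _ (hspec i)).symm

omit [NeZero n] in
private theorem E5_mem_pairs {i j : ℕ} : (i, j) ∈ pairsN n ↔ i < j ∧ j < n := by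
  unfold pairsN
  simp only [List.mem_flatMap, List.mem_range, List.mem_map, List.mem_filter, Prod.mk.injEq]
  constructor
  · rintro ⟨a, ha, b, ⟨hb, hab⟩, rfl, rfl⟩
    exact ⟨by simpa [Nat.blt_eq] using hab, hb⟩
  · rintro ⟨h1, h2⟩
    exact ⟨i, by omega, j, ⟨h2, by simpa [Nat.blt_eq] using h1⟩, rfl, rfl⟩

omit [NeZero n] in
private theorem E5_nodup : (pairsN n).Nodup := by
  unfold pairsN
  rw [List.nodup_flatMap]
  refine ⟨fun i _ => ?_, ?_⟩
  · exact (List.nodup_range.filter _).map (fun a b h => (Prod.mk.inj h).2)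
  · refine List.nodup_range.imp ?_
    intro i j hij
    rw [Function.onFun, List.disjoint_left]
    rintro ⟨a, b⟩ h1 h2
    simp only [List.mem_map, List.mem_filter, Prod.mk.injEq] at h1 h2
    obtain ⟨_, _, h3, _⟩ := h1
    obtain ⟨_, _, h4, _⟩ := h2
    exact hij (h3.trans h4.symm)

private theorem E5_blt {a b : ℕ} (h : Nat.blt a b = true) : a < b := by
  rwa [Nat.blt_eq] at h

/-- the part of the proof after the classes have been found -/
private theorem E5_main (h5 : 5 ≤ n) {pats : List (List ℕ × List (ℕ × ℕ))} {ht : HT}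
    (H : SAx R act) (hC : Cnt act) (hex : ∃ i j, act i j) {c : ZMod n → ℕ} {C : ℕ}
    (hc : ∀ i j, R i j ↔ c i = c j) (hcode : CodeOf c C) (h : actsB n pats ht C = true) :
    ∃ (k : ZMod n) (q : ℕ), q < pats.length ∧
      (∀ i j : ZMod n, R (i + k) (j + k) ↔ (pats.getD q ([], [])).1.getD i.val 0 =
        (pats.getD q ([], [])).1.getD j.val 0) ∧
      ∀ i j : ZMod n, act (i + k) (j + k) ↔ actB (pats.getD q ([], [])).2 i.val j.val = true := by
  classical
  set al : List (ℕ × ℕ) := ((pairsN n).filter (candB n C)).filter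
    (fun p => decide (act (p.1 : ZMod n) (p.2 : ZMod n))) with hal
  have hmem : ∀ p, p ∈ al ↔ (p.1 < p.2 ∧ p.2 < n) ∧ act (p.1 : ZMod n) (p.2 : ZMod n) := by
    intro p
    rw [hal, List.mem_filter, List.mem_filter, decide_eq_true_iff]
    constructor
    · rintro ⟨⟨h1, -⟩, h2⟩
      exact ⟨E5_mem_pairs.1 h1, h2⟩
    · rintro ⟨h1, h2⟩
      exact ⟨⟨E5_mem_pairs.2 h1, cand_sound h5 H hc hcode (by omega) h1.2 h2⟩, h2⟩
  have hL : ActL act al := by
    refine ⟨(E5_nodup.filter _).filter _, ?_, ?_⟩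
    · intro p hp
      obtain ⟨⟨h1, h2⟩, h3⟩ := (hmem p).1 hp
      exact ⟨h1, h2, h3⟩
    · intro i j h1 h2 h3
      exact (hmem (i, j)).2 ⟨⟨h1, h2⟩, h3⟩
  have hL' : ActL act (al.reverse ++ []) := by
    rw [List.append_nil]
    exact ⟨List.nodup_reverse.2 hL.nodup, fun p hp => hL.lt p (List.mem_reverse.1 hp),
      fun i j h1 h2 h3 => List.mem_reverse.2 (hL.mem i j h1 h2 h3)⟩
  unfold actsB at h
  have h1 := clq_sound _ _ h al List.filter_sublist (fun x hx y hy => ?_) (by simp)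
  · unfold finB at h1
    obtain ⟨h2, h3⟩ := length_ok H hC hex hL'
    rw [Bool.or_eq_true, Bool.or_eq_true, Bool.or_eq_true, cntB_true H hC hL'] at h1
    rcases h1 with ((h1 | h1) | h1) | h1
    · exact absurd (Nat.eq_of_beq_eq_true h1) h2
    · have h4 : 2 * (al.reverse ++ []).length < n - 6 := E5_blt h1
      omega
    · exact absurd h1 (by simp)
    · unfold foundB at h1
      rw [Bool.and_eq_true] at h1
      obtain ⟨h4, h5⟩ := h1
      obtain ⟨h6, h7⟩ := eqPat_sound H hc hcode hL' h5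
      exact ⟨_, _, E5_blt h4, h6, h7⟩
  · obtain ⟨⟨hx1, hx2⟩, hx3⟩ := (hmem x).1 hx
    obtain ⟨⟨hy1, hy2⟩, hy3⟩ := (hmem y).1 hy
    exact comp_sound h5 H hc hcode (by omega) hx2 hx3 (by omega) hy2 hy3

/-- the search for `n ≤ 9` marks -/
theorem enum_sound (h5 : 5 ≤ n) (hn : n ≤ 16) {pats : List (List ℕ × List (ℕ × ℕ))} {ht : HT}
    (H : SAx R act) (hC : Cnt act) (hex : ∃ i j, act i j)
    (h : allCl (actsB n pats ht) n 0 0 0 = true) :
    ∃ (k : ZMod n) (q : ℕ), q < pats.length ∧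
      (∀ i j : ZMod n, R (i + k) (j + k) ↔ (pats.getD q ([], [])).1.getD i.val 0 =
        (pats.getD q ([], [])).1.getD j.val 0) ∧
      ∀ i j : ZMod n, act (i + k) (j + k) ↔ actB (pats.getD q ([], [])).2 i.val j.val = true := by
  obtain ⟨c, hc, h1, h2, -⟩ := E5_exists H.refl H.symm H.trans
  obtain ⟨C, hcode, h3⟩ := allCl_sound hn h1 h2 (fun i j k hij hjk hik h4 =>
    H.two i j k hij hjk hik ⟨(hc i j).2 h4.1, (hc j k).2 h4.2⟩) h
  exact E5_main h5 H hC hex hc hcode h3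

/-- the search with a block at the marks `1`, `2`, `3` -/
theorem enum_sound4 (h5 : 5 ≤ n) (hn : n ≤ 16) {pats : List (List ℕ × List (ℕ × ℕ))} {ht : HT}
    (H : SAx R act) (hC : Cnt act) (hex : ∃ i j, act i j) (r1 : R 0 2) (r2 : R 1 3) (r3 : ¬ R 0 1)
    (h : allCl (actsB n pats ht) (n - 4) 4 (16 + 16 ^ 3) 0 = true) :
    ∃ (k : ZMod n) (q : ℕ), q < pats.length ∧
      (∀ i j : ZMod n, R (i + k) (j + k) ↔ (pats.getD q ([], [])).1.getD i.val 0 =
        (pats.getD q ([], [])).1.getD j.val 0) ∧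
      ∀ i j : ZMod n, act (i + k) (j + k) ↔ actB (pats.getD q ([], [])).2 i.val j.val = true := by
  obtain ⟨c, hc, h1, h2, h2'⟩ := E5_exists H.refl H.symm H.trans
  have c0 : c 0 = 0 := Nat.le_zero.1 (by simpa using h1 0)
  have c1 : c 1 = 1 := by
    have h4 : c 1 ≤ 1 := h2' 1 1 (by rw [Nat.cast_one]; exact H.refl 1)
    have h5 : c 1 ≠ 0 := by
      intro h6
      exact r3 ((hc 0 1).2 (c0.trans h6.symm))
    omega
  have c2 : c 2 = 0 := ((hc 0 2).1 r1).symm.trans c0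
  have c3 : c 3 = 1 := ((hc 1 3).1 r2).symm.trans c1
  obtain ⟨C, hcode, h3⟩ := allCl_sound4 hn h5 h1 h2 (fun i j k hij hjk hik h4 =>
    H.two i j k hij hjk hik ⟨(hc i j).2 h4.1, (hc j k).2 h4.2⟩) c0 c1 c2 c3 h
  exact E5_main h5 H hC hex hc hcode h3

end Pool.Agent.Lib_MP_fa6e45
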