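import Pool.Agent.Lib_MP_fa6e45.E4

/-!
MP_fa6e45_co, stage 3.

PIECE E5a (about 200 lines): the search through all class numbers (`allCl` of `E4`). All raw operations (`Nat.add`, `Nat.mul`,
`Nat.div`, `Nat.mod`, `Nat.pow`, `Nat.beq`) are the usual ones (`Nat.beq_eq`, `rfl`). With `C l = ∑ i < l, c i * 16 ^ i` and
`S l = ∑ j < l, (if c j = j and no other i < l has c i = j then 2 ^ j else 0)`: by induction on `n - l`:
`allCl f (n - l) l (C l) (S l) = true` implies `f (C n) = true`. Step: `c l = l` (new class: first part) or `j = c l < l`; then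
`c j = j` (`h2`) and `j` is the only `i < l` with `c i = j` (`h3`), so the bit `j` of `S l` is one and `S (l + 1) = S l - 2 ^ j`.
-/

namespace Pool.Agent.Lib_MP_fa6e45

variable {n : ℕ} [NeZero n]

/-- `C` is the number of the class function `c` -/
def CodeOf (c : ZMod n → ℕ) (C : ℕ) : Prop := ∀ x, x < n → clD C x = c (x : ZMod n)

theorem CodeOf.ecl {c : ZMod n → ℕ} {C : ℕ} (h : CodeOf c C) (x : ℕ) :
    ecl n C x = c (x : ZMod n) := by
  have h1 := h (x % n) (Nat.mod_lt _ (Nat.pos_of_ne_zero (NeZero.ne n)))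
  rw [ZMod.natCast_mod] at h1
  exact h1

theorem CodeOf.eqc {c : ZMod n → ℕ} {C : ℕ} (h : CodeOf c C) (x y : ℕ) :
    eqc n C x y = true ↔ c (x : ZMod n) = c (y : ZMod n) := by
  unfold Lib_MP_fa6e45.eqc
  rw [h.ecl, h.ecl, Nat.beq_eq]

private def dsum (B : ℕ) (d : ℕ → ℕ) (l : ℕ) : ℕ := ∑ i ∈ Finset.range l, d i * B ^ i

private theorem dsum_succ (B : ℕ) (d : ℕ → ℕ) (l : ℕ) :
    dsum B d (l + 1) = dsum B d l + d l * B ^ l := Finset.sum_range_succ _ _

private theorem dsum_lt {B : ℕ} {d : ℕ → ℕ} (l : ℕ) (hd : ∀ i, i < l → d i < B) :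
    dsum B d l < B ^ l := by
  induction l with
  | zero => exact Nat.one_pos
  | succ l ih =>
    have h1 := ih fun i hi => hd i (by omega)
    have h2 : d l + 1 ≤ B := hd l (by omega)
    have h3 : (d l + 1) * B ^ l ≤ B * B ^ l := Nat.mul_le_mul_right _ h2
    rw [dsum_succ, pow_succ']
    rw [add_mul, one_mul] at h3
    omega

private theorem dsum_digit {B : ℕ} {d : ℕ → ℕ} (l : ℕ) (hd : ∀ i, i < l → d i < B) (x : ℕ)
    (hx : x < l) : dsum B d l / B ^ x % B = d x := by
  induction l with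
  | zero => omega
  | succ l ih =>
    have hB : 0 < B := lt_of_le_of_lt (Nat.zero_le _) (hd l (by omega))
    rw [dsum_succ]
    rcases Nat.lt_or_ge x l with h | h
    · obtain ⟨m, hm⟩ : ∃ m, l = x + (m + 1) := ⟨l - x - 1, by omega⟩
      have e : d l * B ^ l = B ^ x * (B * (d l * B ^ m)) := by
        rw [hm, pow_add, pow_succ]
        ring
      rw [e, Nat.add_mul_div_left _ _ (Nat.pow_pos hB), Nat.add_mul_mod_self_left]
      exact ih (fun i hi => hd i (by omega)) h
    · obtain rfl : x = l := by omega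
      rw [Nat.add_mul_div_right _ _ (Nat.pow_pos hB),
        Nat.div_eq_of_lt (dsum_lt x fun i hi => hd i (by omega)), zero_add]
      exact Nat.mod_eq_of_lt (hd x (by omega))

open Classical in
private noncomputable def sg (γ : ℕ → ℕ) (l j : ℕ) : ℕ :=
  if γ j = j ∧ ∀ i, i < l → i ≠ j → γ i ≠ j then 1 else 0

private theorem sg_lt (γ : ℕ → ℕ) (l j : ℕ) : sg γ l j < 2 := by
  unfold sg
  split_ifs <;> omega

private theorem sg_one {γ : ℕ → ℕ} {l j : ℕ} (h1 : γ j = j) (h2 : ∀ i, i < l → i ≠ j → γ i ≠ j) :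
    sg γ l j = 1 := if_pos ⟨h1, h2⟩

private theorem sg_zero {γ : ℕ → ℕ} {l j : ℕ} (h : ¬ (γ j = j ∧ ∀ i, i < l → i ≠ j → γ i ≠ j)) :
    sg γ l j = 0 := if_neg h

private theorem sg_succ {γ : ℕ → ℕ} {l j : ℕ} (h : γ l ≠ j) : sg γ (l + 1) j = sg γ l j := by
  unfold sg
  congr 1
  refine propext (and_congr_right fun _ => ⟨fun h1 i hi hij => h1 i (by omega) hij,
    fun h1 i hi hij => ?_⟩)
  rcases Nat.lt_succ_iff_lt_or_eq.1 hi with h2 | h2
  · exact h1 i h2 hij
  · rw [h2]
    exact h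

private theorem core (f : ℕ → Bool) (γ : ℕ → ℕ) (n : ℕ) (h1 : ∀ i, i < n → γ i ≤ i)
    (h2 : ∀ i, i < n → γ (γ i) = γ i)
    (h3 : ∀ i j k, i < n → j < n → k < n → i ≠ j → j ≠ k → i ≠ k → ¬ (γ i = γ j ∧ γ j = γ k))
    (k : ℕ) : ∀ l, k + l = n → allCl f k l (dsum 16 γ l) (dsum 2 (sg γ l) l) = true →
      f (dsum 16 γ n) = true := by
  induction k with
  | zero =>
    intro l hl h
    have e : l = n := by omega
    rw [← e]
    exact h
  | succ k ih =>
    intro l hl h
    rw [allCl, Bool.and_eq_true] at h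
    obtain ⟨ha, hb⟩ := h
    rcases Nat.lt_or_ge (γ l) l with hlt | hge
    · obtain ⟨j, hj⟩ : ∃ j, j = γ l := ⟨_, rfl⟩
      rw [← hj] at hlt
      have hjj : γ j = j := by
        have := h2 l (by omega)
        rw [hj]
        exact this
      have hu : ∀ i, i < l → i ≠ j → γ i ≠ j := by
        intro i hi hij he
        exact h3 i j l (by omega) (by omega) (by omega) hij (by omega) (by omega)
          ⟨by rw [he, hjj], by rw [hjj, hj]⟩
      have hs : sg γ l j = 1 := sg_one hjj hu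
      have h4 := (List.all_eq_true.1 hb) j (List.mem_range.2 hlt)
      rw [Bool.or_eq_true] at h4
      have h5 : ¬ (Nat.beq (Nat.mod (Nat.div (dsum 2 (sg γ l) l) (Nat.pow 2 j)) 2) 0 = true) := by
        intro h6
        have h7 : dsum 2 (sg γ l) l / 2 ^ j % 2 = 0 := Nat.eq_of_beq_eq_true h6
        rw [dsum_digit l (fun i _ => sg_lt γ l i) j hlt, hs] at h7
        exact absurd h7 one_ne_zero
      have h6 := h4.resolve_left h5
      have eC : Nat.add (dsum 16 γ l) (Nat.mul j (Nat.pow 16 l)) = dsum 16 γ (l + 1) := by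
        rw [dsum_succ, ← hj]
        rfl
      have eS : Nat.sub (dsum 2 (sg γ l) l) (Nat.pow 2 j) = dsum 2 (sg γ (l + 1)) (l + 1) := by
        have e1 : dsum 2 (sg γ (l + 1)) (l + 1) = dsum 2 (sg γ (l + 1)) l := by
          rw [dsum_succ, sg_zero (j := l), zero_mul, add_zero]
          rintro ⟨h8, -⟩
          omega
        have e2 : dsum 2 (sg γ l) l = dsum 2 (sg γ (l + 1)) l + 2 ^ j := by
          unfold dsum
          rw [← Finset.add_sum_erase _ _ (Finset.mem_range.2 hlt),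
            ← Finset.add_sum_erase (Finset.range l) (fun i => sg γ (l + 1) i * 2 ^ i)
              (Finset.mem_range.2 hlt)]
          have e3 : sg γ (l + 1) j = 0 := by
            refine sg_zero ?_
            rintro ⟨-, h8⟩
            exact h8 l (by omega) (by omega) hj.symm
          have e4 : ∑ x ∈ (Finset.range l).erase j, sg γ (l + 1) x * 2 ^ x =
              ∑ x ∈ (Finset.range l).erase j, sg γ l x * 2 ^ x := by
            refine Finset.sum_congr rfl fun x hx => ?_
            rw [sg_succ]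
            rw [← hj]
            exact fun h8 => (Finset.ne_of_mem_erase hx) h8.symm
          simp only [e3, hs, zero_mul, one_mul, zero_add, e4]
          exact Nat.add_comm _ _
        rw [e1]
        change dsum 2 (sg γ l) l - 2 ^ j = _
        rw [e2, Nat.add_sub_cancel]
      rw [eC, eS] at h6
      exact ih (l + 1) (by omega) h6
    · have he : γ l = l := le_antisymm (h1 l (by omega)) hge
      have eC : Nat.add (dsum 16 γ l) (Nat.mul l (Nat.pow 16 l)) = dsum 16 γ (l + 1) := by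
        rw [dsum_succ, he]
        rfl
      have eS : Nat.add (dsum 2 (sg γ l) l) (Nat.pow 2 l) = dsum 2 (sg γ (l + 1)) (l + 1) := by
        rw [dsum_succ]
        have e1 : sg γ (l + 1) l = 1 := by
          refine sg_one he fun i hi hil => ?_
          have := h1 i (by omega)
          omega
        have e2 : dsum 2 (sg γ (l + 1)) l = dsum 2 (sg γ l) l := by
          unfold dsum
          refine Finset.sum_congr rfl fun x hx => ?_
          rw [sg_succ]
          rw [he]
          have := Finset.mem_range.1 hx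
          omega
        rw [e1, e2, one_mul]
        rfl
      rw [eC, eS] at ha
      exact ih (l + 1) (by omega) ha

omit [NeZero n] in
private theorem codeOf_dsum (hn : n ≤ 16) {c : ZMod n → ℕ} (h1 : ∀ i, c i ≤ i.val) :
    CodeOf c (dsum 16 (fun i => c (i : ZMod n)) n) := by
  intro x hx
  refine dsum_digit n (fun i hi => ?_) x hx
  have := h1 (i : ZMod n)
  rw [ZMod.val_cast_of_lt hi] at this
  omega

omit [NeZero n] in
private theorem cond {f : ℕ → Bool} {c : ZMod n → ℕ} (h1 : ∀ i, c i ≤ i.val)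
    (h2 : ∀ i, c ((c i : ℕ) : ZMod n) = c i)
    (h3 : ∀ i j k : ZMod n, i ≠ j → j ≠ k → i ≠ k → ¬ (c i = c j ∧ c j = c k)) (k l : ℕ)
    (hkl : k + l = n)
    (h : allCl f k l (dsum 16 (fun i => c (i : ZMod n)) l)
      (dsum 2 (sg (fun i => c (i : ZMod n)) l) l) = true) :
    f (dsum 16 (fun i => c (i : ZMod n)) n) = true := by
  have hne : ∀ i j : ℕ, i < n → j < n → i ≠ j → (i : ZMod n) ≠ (j : ZMod n) := by
    intro i j hi hj hij he
    apply hij
    have := congrArg ZMod.val he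
    rwa [ZMod.val_cast_of_lt hi, ZMod.val_cast_of_lt hj] at this
  refine core f (fun i => c (i : ZMod n)) n (fun i hi => ?_) (fun i hi => h2 _)
    (fun i j k hi hj hk hij hjk hik => h3 _ _ _ (hne i j hi hj hij) (hne j k hj hk hjk)
      (hne i k hi hk hik)) k l hkl h
  have := h1 (i : ZMod n)
  rwa [ZMod.val_cast_of_lt hi] at this

theorem allCl_sound (hn : n ≤ 16) {f : ℕ → Bool} {c : ZMod n → ℕ} (h1 : ∀ i, c i ≤ i.val)
    (h2 : ∀ i, c ((c i : ℕ) : ZMod n) = c i)
    (h3 : ∀ i j k : ZMod n, i ≠ j → j ≠ k → i ≠ k → ¬ (c i = c j ∧ c j = c k))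
    (h : allCl f n 0 0 0 = true) : ∃ C, CodeOf c C ∧ f C = true :=
  ⟨_, codeOf_dsum hn h1, cond h1 h2 h3 n 0 rfl h⟩

theorem allCl_sound4 (hn : n ≤ 16) (hn4 : 5 ≤ n) {f : ℕ → Bool} {c : ZMod n → ℕ} (h1 : ∀ i, c i ≤ i.val)
    (h2 : ∀ i, c ((c i : ℕ) : ZMod n) = c i)
    (h3 : ∀ i j k : ZMod n, i ≠ j → j ≠ k → i ≠ k → ¬ (c i = c j ∧ c j = c k))
    (c0 : c 0 = 0) (c1 : c 1 = 1) (c2 : c 2 = 0) (c3 : c 3 = 1)
    (h : allCl f (n - 4) 4 (16 + 16 ^ 3) 0 = true) : ∃ C, CodeOf c C ∧ f C = true := by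
  refine ⟨_, codeOf_dsum hn h1, cond h1 h2 h3 (n - 4) 4 (by omega) ?_⟩
  have g0 : c ((0 : ℕ) : ZMod n) = 0 := by rw [Nat.cast_zero]; exact c0
  have g1 : c ((1 : ℕ) : ZMod n) = 1 := by rw [Nat.cast_one]; exact c1
  have g2 : c ((2 : ℕ) : ZMod n) = 0 := by exact_mod_cast c2
  have g3 : c ((3 : ℕ) : ZMod n) = 1 := by exact_mod_cast c3
  have e1 : dsum 16 (fun i => c (i : ZMod n)) 4 = 16 + 16 ^ 3 := by
    simp only [dsum, Finset.sum_range_succ, Finset.sum_range_zero, g0, g1, g2, g3]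
    norm_num
  have s0 : sg (fun i => c (i : ZMod n)) 4 0 = 0 := sg_zero fun h4 => h4.2 2 (by omega) (by omega) g2
  have s1 : sg (fun i => c (i : ZMod n)) 4 1 = 0 := sg_zero fun h4 => h4.2 3 (by omega) (by omega) g3
  have s2 : sg (fun i => c (i : ZMod n)) 4 2 = 0 := sg_zero fun h4 => by
    have h5 : c ((2 : ℕ) : ZMod n) = 2 := h4.1
    omega
  have s3 : sg (fun i => c (i : ZMod n)) 4 3 = 0 := sg_zero fun h4 => by
    have h5 : c ((3 : ℕ) : ZMod n) = 3 := h4.1
    omega
  have e2 : dsum 2 (sg (fun i => c (i : ZMod n)) 4) 4 = 0 := by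
    simp only [dsum, Finset.sum_range_succ, Finset.sum_range_zero, s0, s1, s2, s3, zero_mul,
      add_zero]
  rw [e1, e2]
  exact h

end Pool.Agent.Lib_MP_fa6e45
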