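import Pool.Agent.Lib_MP_fa6e45.E5a

/-!
MP_fa6e45_co, stage 3.

PIECE E5b (about 200 lines): `clq_sound`: induction on `xs`. `cand_sound`, `comp_sound`: from `SAx` (`R i j ↔ c i = c j`) with
`CodeOf.eqc`; a natural number `x + (n - 1)` is `x - 1` in `ZMod n`, `Nat.mod (x + 1) n = y` (for `y < n`) means `x + 1 = y` in
`ZMod n`. `candB`: `H.side`, `H.len`, and for adjacent marks `H.mid` (a twin exists; also for the pair in the other order,
`H.asymm`). `compB`: `adjB` for active marks `x`, `y` (with partners): `H.adj`; `midB` for active pairs `a`, `b` (in any order):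
if `a.2 = a.1 + 1`, `b.2 = b.1 + 1`, `a.1 ≠ b.1`, `R a.1 b.1` then by `H.mid` and `H.two` the arc `s` of `H.mid` is `b.1`,
contradiction. `eqPat_sound`: unfold; `i + k` for `i : ZMod n` and the value of `k`.
-/

namespace Pool.Agent.Lib_MP_fa6e45

theorem clq_sound {α : Type} {comp : α → α → Bool} {fin : List α → Bool} (xs cur : List α)
    (h : clq comp fin xs cur = true) (s : List α) (hs : s.Sublist xs)
    (h1 : ∀ x ∈ s, ∀ y ∈ s, comp x y = true) (h2 : ∀ x ∈ s, ∀ y ∈ cur, comp x y = true) :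
    fin (s.reverse ++ cur) = true := by
  induction xs generalizing cur s with
  | nil =>
    have : s = [] := List.sublist_nil.mp hs
    subst this
    simpa [clq] using h
  | cons x xs ih =>
    rw [clq, Bool.and_eq_true] at h
    obtain ⟨ha, hb⟩ := h
    rcases hs with _ | _ | hs
    · rename_i hs
      exact ih cur ha s hs h1 h2
    · rename_i s' hs
      have hall : (cur.all fun y => comp x y) = true := by
        rw [List.all_eq_true]
        intro y hy
        exact h2 x (by simp) y hy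
      rw [hall] at hb
      have hb' : clq comp fin xs (x :: cur) = true := by simpa using hb
      have h3 := ih (x :: cur) hb' s' hs
        (fun u hu v hv => h1 u (by simp [hu]) v (by simp [hv]))
        (fun u hu v hv => by
          rcases List.mem_cons.mp hv with hv | hv
          · rw [hv]
            exact h1 u (by simp [hu]) x (by simp)
          · exact h2 u (by simp [hu]) v hv)
      simpa [List.reverse_cons, List.append_assoc] using h3

variable {n : ℕ} [NeZero n] {R act : ZMod n → ZMod n → Prop} {c : ZMod n → ℕ} {C : ℕ}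

omit [NeZero n] in
private theorem castPred (hn : 5 ≤ n) (x : ℕ) :
    ((Nat.add x (Nat.pred n) : ℕ) : ZMod n) = (x : ZMod n) - 1 := by
  have h : Nat.add x (Nat.pred n) = x + (n - 1) := rfl
  rw [h, Nat.cast_add, Nat.cast_sub (by omega), ZMod.natCast_self]
  push_cast
  ring

omit [NeZero n] in
private theorem modSucc {x y : ℕ} (h : Nat.mod (Nat.succ x) n = y) :
    (y : ZMod n) = (x : ZMod n) + 1 := by
  have h' : (x + 1) % n = y := h
  rw [← h', ZMod.natCast_mod]
  push_cast
  ring

private theorem nbeq {a b : ℕ} : Nat.beq a b = true ↔ a = b := by rw [Nat.beq_eq]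

private theorem eqc_of (hc : ∀ i j, R i j ↔ c i = c j) (hC : CodeOf c C) {x y : ℕ}
    (h : R (x : ZMod n) (y : ZMod n)) : eqc n C x y = true :=
  (hC.eqc x y).mpr ((hc _ _).mp h)

private theorem of_eqc (hc : ∀ i j, R i j ↔ c i = c j) (hC : CodeOf c C) {x y : ℕ}
    (h : eqc n C x y = true) : R (x : ZMod n) (y : ZMod n) :=
  (hc _ _).mpr ((hC.eqc x y).mp h)

private theorem tw_sound (H : SAx R act) (hc : ∀ i j, R i j ↔ c i = c j)
    (hC : CodeOf c C) {x y : ℕ} (h : act (x : ZMod n) (y : ZMod n)) :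
    (!Nat.beq (Nat.mod (Nat.succ x) n) y || twB n C x) = true := by
  cases hb : Nat.beq (Nat.mod (Nat.succ x) n) y with
  | false => simp
  | true =>
    have hy := modSucc (nbeq.mp hb)
    rw [hy] at h
    obtain ⟨s, hs1, hs2, -⟩ := H.mid _ h
    simp only [Bool.not_true, Bool.false_or, twB, List.any_eq_true]
    refine ⟨s.val, List.mem_range.mpr (ZMod.val_lt s), ?_⟩
    rw [Bool.and_eq_true]
    constructor
    · cases hb' : Nat.beq s.val x with
      | false => rfl
      | true =>
        exfalso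
        apply hs1
        rw [← nbeq.mp hb', ZMod.natCast_zmod_val]
    · apply eqc_of hc hC
      rw [ZMod.natCast_zmod_val]
      exact H.symm _ _ hs2

theorem cand_sound (hn : 5 ≤ n) (H : SAx R act) (hc : ∀ i j, R i j ↔ c i = c j) (hC : CodeOf c C)
    {p : ℕ × ℕ} (h1 : p.1 < n) (h2 : p.2 < n) (h : act (p.1 : ZMod n) (p.2 : ZMod n)) :
    candB n C p = true := by
  unfold candB
  rw [Bool.and_eq_true, Bool.and_eq_true, Bool.and_eq_true]
  refine ⟨⟨⟨?_, ?_⟩, tw_sound H hc hC h⟩, tw_sound H hc hC (H.asymm _ _ h)⟩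
  · rw [Bool.or_eq_true, Bool.and_eq_true, Bool.and_eq_true]
    rcases H.len _ _ h with h3 | h3
    · left
      constructor
      · apply eqc_of hc hC
        rw [castPred hn]
        exact h3.1
      · apply eqc_of hc hC
        rw [castPred hn]
        exact h3.2
    · right
      constructor
      · apply eqc_of hc hC
        rw [castPred hn, castPred hn]
        exact h3.1
      · exact eqc_of hc hC h3.2
  · cases hb : eqc n C (Nat.add p.1 (Nat.pred n)) p.1 with
    | false => rfl
    | true =>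
      exfalso
      have h3 := of_eqc hc hC hb
      rw [castPred hn] at h3
      exact H.side _ _ h h3

private theorem adj_sound (hn : 5 ≤ n) (H : SAx R act) (hc : ∀ i j, R i j ↔ c i = c j)
    (hC : CodeOf c C) {x x' y y' : ℕ} (h : act (x : ZMod n) (x' : ZMod n))
    (h' : act (y : ZMod n) (y' : ZMod n)) : adjB n C x y = true := by
  unfold adjB
  cases hb : Nat.beq (Nat.mod (Nat.succ x) n) y with
  | false => simp
  | true =>
    have hy := modSucc (nbeq.mp hb)
    simp only [Bool.not_true, Bool.false_or]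
    apply eqc_of hc hC
    rw [castPred hn, hy]
    rw [hy] at h'
    exact H.adj _ _ _ h h'

omit [NeZero n] in
private theorem natCast_ne {x y : ℕ} (hx : x < n) (hy : y < n) (h : x ≠ y) :
    (x : ZMod n) ≠ (y : ZMod n) := by
  intro h1
  apply h
  have h2 := congrArg ZMod.val h1
  rwa [ZMod.val_natCast_of_lt hx, ZMod.val_natCast_of_lt hy] at h2

private theorem mid_sound (H : SAx R act) (hc : ∀ i j, R i j ↔ c i = c j)
    (hC : CodeOf c C) {a b : ℕ × ℕ} (h1 : a.1 < n) (h2 : b.1 < n)
    (h : act (a.1 : ZMod n) (a.2 : ZMod n)) (h' : act (b.1 : ZMod n) (b.2 : ZMod n)) :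
    midB n C a b = true := by
  unfold midB
  rw [Bool.not_eq_true']
  by_contra hcon
  rw [Bool.not_eq_false, Bool.and_eq_true, Bool.and_eq_true, Bool.and_eq_true] at hcon
  obtain ⟨⟨⟨ha, hb⟩, hne⟩, he⟩ := hcon
  have ha' := modSucc (nbeq.mp ha)
  have hb' := modSucc (nbeq.mp hb)
  have hne' : a.1 ≠ b.1 := by
    intro h3
    rw [h3] at hne
    have : Nat.beq b.1 b.1 = true := nbeq.mpr rfl
    rw [this] at hne
    simp at hne
  have hne2 := natCast_ne (n := n) h1 h2 hne'
  have he' := of_eqc hc hC he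
  rw [ha'] at h
  rw [hb'] at h'
  obtain ⟨s, hs1, hs2, hs3⟩ := H.mid _ h
  by_cases hsb : s = (b.1 : ZMod n)
  · exact hs3 (by rw [hsb]; exact h')
  · exact H.two (b.1 : ZMod n) (a.1 : ZMod n) s (Ne.symm hne2) (Ne.symm hs1) (Ne.symm hsb)
      ⟨H.symm _ _ he', hs2⟩

theorem comp_sound (hn : 5 ≤ n) (H : SAx R act) (hc : ∀ i j, R i j ↔ c i = c j) (hC : CodeOf c C)
    {p q : ℕ × ℕ} (h1 : p.1 < n) (h2 : p.2 < n) (h : act (p.1 : ZMod n) (p.2 : ZMod n))
    (h3 : q.1 < n) (h4 : q.2 < n) (h' : act (q.1 : ZMod n) (q.2 : ZMod n)) :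
    compB n C p q = true := by
  have key : ∀ a b : ℕ × ℕ, a.1 < n → b.1 < n → act (a.1 : ZMod n) (a.2 : ZMod n) →
      act (b.1 : ZMod n) (b.2 : ZMod n) →
      (adjB n C a.1 b.1 && adjB n C b.1 a.1 && midB n C a b) = true := by
    intro a b ha hb hab hab'
    rw [Bool.and_eq_true, Bool.and_eq_true]
    exact ⟨⟨adj_sound hn H hc hC hab hab', adj_sound hn H hc hC hab' hab⟩,
      mid_sound H hc hC ha hb hab hab'⟩
  unfold compB
  rw [List.all_eq_true]
  intro a ha
  rw [List.all_eq_true]
  intro b hb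
  have ha' : a.1 < n ∧ act (a.1 : ZMod n) (a.2 : ZMod n) := by
    simp only [List.mem_cons, List.not_mem_nil, or_false] at ha
    rcases ha with ha | ha
    · rw [ha]
      exact ⟨h1, h⟩
    · rw [ha]
      exact ⟨h2, H.asymm _ _ h⟩
  have hb' : b.1 < n ∧ act (b.1 : ZMod n) (b.2 : ZMod n) := by
    simp only [List.mem_cons, List.not_mem_nil, or_false] at hb
    rcases hb with hb | hb
    · rw [hb]
      exact ⟨h3, h'⟩
    · rw [hb]
      exact ⟨h4, H.asymm _ _ h'⟩
  exact key a b ha'.1 hb'.1 ha'.2 hb'.2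

/-- the list `al` consists of the active pairs, each once -/
structure ActL (act : ZMod n → ZMod n → Prop) (al : List (ℕ × ℕ)) : Prop where
  nodup : al.Nodup
  lt : ∀ p ∈ al, p.1 < p.2 ∧ p.2 < n ∧ act (p.1 : ZMod n) (p.2 : ZMod n)
  mem : ∀ i j : ℕ, i < j → j < n → act (i : ZMod n) (j : ZMod n) → (i, j) ∈ al

theorem actN_iff (i j : ℕ) (al : List (ℕ × ℕ)) : actN i j al = true ↔ (i, j) ∈ al ∨ (j, i) ∈ al := by
  induction al with
  | nil => simp [actN]
  | cons p al ih =>
    obtain ⟨x, y⟩ := p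
    rw [actN, Bool.or_eq_true, Bool.or_eq_true, Bool.and_eq_true, Bool.and_eq_true, ih]
    simp only [nbeq, List.mem_cons, Prod.mk.injEq]
    constructor
    · rintro ((⟨h1, h2⟩ | ⟨h1, h2⟩) | (h | h))
      · exact Or.inl (Or.inl ⟨h1.symm, h2.symm⟩)
      · exact Or.inr (Or.inl ⟨h1.symm, h2.symm⟩)
      · exact Or.inl (Or.inr h)
      · exact Or.inr (Or.inr h)
    · rintro ((⟨h1, h2⟩ | h) | (⟨h1, h2⟩ | h))
      · exact Or.inl (Or.inl ⟨h1.symm, h2.symm⟩)
      · exact Or.inr (Or.inl h)
      · exact Or.inl (Or.inr ⟨h1.symm, h2.symm⟩)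
      · exact Or.inr (Or.inr h)

theorem ActL.iff (H : SAx R act) {al : List (ℕ × ℕ)} (h : ActL act al) (i j : ZMod n) :
    actN i.val j.val al = true ↔ act i j := by
  rw [actN_iff]
  constructor
  · rintro (h1 | h1)
    · have h2 := (h.lt _ h1).2.2
      simpa only [ZMod.natCast_zmod_val] using h2
    · have h2 := (h.lt _ h1).2.2
      simp only [ZMod.natCast_zmod_val] at h2
      exact H.asymm _ _ h2
  · intro h1
    have hne : i.val ≠ j.val := fun h2 => H.ne _ _ h1 (ZMod.val_injective n h2)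
    rcases lt_or_gt_of_ne hne with h2 | h2
    · left
      apply h.mem _ _ h2 (ZMod.val_lt j)
      simpa only [ZMod.natCast_zmod_val] using h1
    · right
      apply h.mem _ _ h2 (ZMod.val_lt i)
      simpa only [ZMod.natCast_zmod_val] using H.asymm _ _ h1

private theorem eqb_iff {a b : Bool} (h : eqb a b = true) : a = true ↔ b = true := by
  cases a <;> cases b <;> simp_all [eqb]

theorem eqPat_sound (H : SAx R act) (hc : ∀ i j, R i j ↔ c i = c j) (hC : CodeOf c C)
    {al : List (ℕ × ℕ)} (hal : ActL act al) {k : ℕ} {p : List ℕ × List (ℕ × ℕ)}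
    (h : eqPat n C al k p = true) :
    (∀ i j : ZMod n, R (i + (k : ZMod n)) (j + (k : ZMod n)) ↔
      p.1.getD i.val 0 = p.1.getD j.val 0) ∧
    ∀ i j : ZMod n, act (i + (k : ZMod n)) (j + (k : ZMod n)) ↔ actB p.2 i.val j.val = true := by
  unfold eqPat at h
  rw [Bool.and_eq_true, List.all_eq_true, List.all_eq_true] at h
  obtain ⟨hA, hB⟩ := h
  have hv : ∀ i : ZMod n, Nat.mod (Nat.add i.val k) n = (i + (k : ZMod n)).val := by
    intro i
    have h1 : Nat.mod (Nat.add i.val k) n = (i.val + k) % n := rfl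
    rw [h1, ← ZMod.val_natCast, Nat.cast_add, ZMod.natCast_zmod_val]
  have hw : ∀ i : ZMod n, ((Nat.add i.val k : ℕ) : ZMod n) = i + (k : ZMod n) := by
    intro i
    have h1 : Nat.add i.val k = i.val + k := rfl
    rw [h1, Nat.cast_add, ZMod.natCast_zmod_val]
  constructor
  · intro i j
    have h1 := hB i.val (List.mem_range.mpr (ZMod.val_lt i))
    rw [List.all_eq_true] at h1
    have h2 := eqb_iff (h1 j.val (List.mem_range.mpr (ZMod.val_lt j)))
    rw [hC.eqc, hw, hw, nbeq] at h2
    rw [hc]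
    exact h2
  · intro i j
    have h1 := hA i.val (List.mem_range.mpr (ZMod.val_lt i))
    rw [List.all_eq_true] at h1
    have h2 := eqb_iff (h1 j.val (List.mem_range.mpr (ZMod.val_lt j)))
    rw [hv, hv, hal.iff H] at h2
    rw [h2, actN_iff]
    unfold actB
    rw [Bool.or_eq_true, List.contains_iff_mem, List.contains_iff_mem]

end Pool.Agent.Lib_MP_fa6e45
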