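import Pool.Agent.Lib_MP_fa6e45.E5b

/-!
MP_fa6e45_co, stage 3.

PIECE E5c (about 200 lines): the check `cntB` is satisfied. `deg_eq`: `degN i al` is the number of partners of `i` (every partner
`j` gives exactly one pair of the list, `(i, j)` or `(j, i)`). So `degN i al = 0` iff `Pas`; `= 2` iff `Dbl` (never more than two,
`H.three`); `cntN` counts the entries: the numbers of passive and double marks (the marks are the casts of `0, …, n - 1`).
Both marks of a pair of the list with `degN = 1` are `Fre` (`hC.le_five`); a partner of a double mark has degree one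
(`H.three`). `length_ok`: there is an active pair, so `al ≠ []`; every active mark belongs to a pair of the list, so
`n - #Pas ≤ 2 * al.length`, and `#Pas ≤ 6`.
-/

namespace Pool.Agent.Lib_MP_fa6e45

variable {n : ℕ} [NeZero n] {R act : ZMod n → ZMod n → Prop}

private theorem E5c_degN (i : ℕ) (al : List (ℕ × ℕ)) :
    degN i al = (al.filter fun p => decide (p.1 = i ∨ p.2 = i)).length := by
  induction al with
  | nil => rfl
  | cons p al ih =>
    unfold degN
    by_cases h : p.1 = i ∨ p.2 = i
    · have h1 : (Nat.beq p.1 i || Nat.beq p.2 i) = true := by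
        simp only [Bool.or_eq_true, Nat.beq_eq]
        exact h
      rw [h1, List.filter_cons_of_pos (by simpa using h)]
      simp [ih]
    · have h1 : (Nat.beq p.1 i || Nat.beq p.2 i) = false := by
        rw [← Bool.not_eq_true]
        simp only [Bool.or_eq_true, Nat.beq_eq]
        exact h
      rw [h1, List.filter_cons_of_neg (by simpa using h)]
      simp [ih]

private theorem E5c_cntN (x : ℕ) (D : List ℕ) : cntN x D = D.countP fun y => decide (y = x) := by
  induction D with
  | nil => rfl
  | cons y D ih =>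
    unfold cntN
    by_cases h : y = x
    · subst h
      rw [List.countP_cons_of_pos (by simp)]
      have : Nat.beq y y = true := by rw [Nat.beq_eq]
      rw [this]
      simp [ih]
    · have : Nat.beq y x = false := by
        rw [← Bool.not_eq_true, Nat.beq_eq]
        exact h
      rw [List.countP_cons_of_neg (by simpa using h), this]
      simp [ih]

omit [NeZero n] in
/-- numbers below `n` are determined by their casts -/
private theorem E5c_cast {i j : ℕ} (hi : i < n) (hj : j < n) (h : (i : ZMod n) = (j : ZMod n)) : i = j := by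
  have h1 := congrArg ZMod.val h
  rwa [ZMod.val_cast_of_lt hi, ZMod.val_cast_of_lt hj] at h1

private theorem E5c_card (Q : ZMod n → Prop) [DecidablePred Q] :
    {i | Q i}.ncard = (List.range n).countP (fun i : ℕ => decide (Q (i : ZMod n))) := by
  have e : {i : ZMod n | Q i} =
      (fun i : ℕ => (i : ZMod n)) '' ((Finset.range n).filter fun i : ℕ => Q (i : ZMod n) : Finset ℕ) := by
    ext j
    simp only [Set.mem_ofPred_eq, Set.mem_image, Finset.coe_filter, Finset.mem_range]
    constructor
    · intro h
      exact ⟨j.val, ⟨ZMod.val_lt j, by rwa [ZMod.natCast_zmod_val]⟩, ZMod.natCast_zmod_val j⟩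
    · rintro ⟨i, ⟨-, h⟩, rfl⟩
      exact h
  rw [e, Set.InjOn.ncard_image, Set.ncard_coe_finset, List.countP_eq_length_filter]
  · rfl
  · intro a ha b hb hab
    simp only [Finset.coe_filter, Finset.mem_range, Set.mem_ofPred_eq] at ha hb
    exact E5c_cast ha.1 hb.1 hab

theorem deg_eq (H : SAx R act) {al : List (ℕ × ℕ)} (hal : ActL act al) {i : ℕ} (hi : i < n) :
    degN i al = {j | act (i : ZMod n) j}.ncard := by
  classical
  have e : {j : ZMod n | act (i : ZMod n) j} =
      (fun p : ℕ × ℕ => ((if p.1 = i then p.2 else p.1 : ℕ) : ZMod n)) ''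
        (al.toFinset.filter fun p => p.1 = i ∨ p.2 = i) := by
    ext j
    simp only [Set.mem_ofPred_eq, Set.mem_image, Finset.coe_filter, List.mem_toFinset]
    constructor
    · intro h
      have hj : ((j.val : ℕ) : ZMod n) = j := ZMod.natCast_zmod_val j
      have hne : i ≠ j.val := by
        intro h1
        apply H.ne _ _ h
        rw [h1, hj]
      rcases lt_or_gt_of_ne hne with h1 | h1
      · exact ⟨(i, j.val), ⟨hal.mem i j.val h1 (ZMod.val_lt j) (by rwa [hj]), Or.inl rfl⟩, by simp⟩
      · refine ⟨(j.val, i), ⟨hal.mem j.val i h1 hi (by rw [hj]; exact H.asymm _ _ h), Or.inr rfl⟩, ?_⟩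
        simp [hne.symm]
    · rintro ⟨p, ⟨h1, h2⟩, rfl⟩
      obtain ⟨h3, h4, h5⟩ := hal.lt p h1
      split_ifs with h6
      · rwa [← h6]
      · rcases h2 with h2 | h2
        · exact absurd h2 h6
        · rw [← h2]
          exact H.asymm _ _ h5
  rw [e, Set.InjOn.ncard_image, Set.ncard_coe_finset, E5c_degN,
    ← List.toFinset_card_of_nodup (hal.nodup.filter _), List.toFinset_filter]
  · congr 1
    ext p
    simp
  · intro p hp q hq hpq
    simp only [Finset.coe_filter, List.mem_toFinset, Set.mem_ofPred_eq] at hp hq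
    obtain ⟨h3, h4, -⟩ := hal.lt p hp.1
    obtain ⟨h5, h6, -⟩ := hal.lt q hq.1
    have h7 : (if p.1 = i then p.2 else p.1) = (if q.1 = i then q.2 else q.1) := by
      apply E5c_cast (n := n) _ _ hpq
      · split_ifs <;> omega
      · split_ifs <;> omega
    have hp2 := hp.2
    have hq2 := hq.2
    apply Prod.ext
    · split_ifs at h7 <;> omega
    · split_ifs at h7 <;> omega

/-- the number of partners -/
private theorem E5c_zero (i : ZMod n) : {j | act i j}.ncard = 0 ↔ Pas act i := by
  rw [Set.ncard_eq_zero (Set.toFinite _), Set.eq_empty_iff_forall_notMem]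
  rfl

private theorem E5c_le (H : SAx R act) (i : ZMod n) : {j | act i j}.ncard ≤ 2 := by
  by_contra h
  push Not at h
  obtain ⟨a, b, c, ha, hb, hc, hab, hac, hbc⟩ := (Set.two_lt_ncard_iff (Set.toFinite _)).1 h
  rcases (H.three i a b ha hb hab).1 c hc with h1 | h1
  · exact hac h1.symm
  · exact hbc h1.symm

private theorem E5c_two (H : SAx R act) (i : ZMod n) : {j | act i j}.ncard = 2 ↔ Dbl act i := by
  constructor
  · intro h
    obtain ⟨a, b, hab, h1⟩ := Set.ncard_eq_two.1 h
    have ha : a ∈ {j | act i j} := by rw [h1]; simp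
    have hb : b ∈ {j | act i j} := by rw [h1]; simp
    exact ⟨a, b, hab, ha, hb⟩
  · rintro ⟨a, b, hab, ha, hb⟩
    apply le_antisymm (E5c_le H i)
    have h1 : ({a, b} : Set (ZMod n)) ⊆ {j | act i j} := by
      rintro x (rfl | rfl)
      · exact ha
      · exact hb
    calc 2 = ({a, b} : Set (ZMod n)).ncard := (Set.ncard_pair hab).symm
      _ ≤ _ := Set.ncard_le_ncard h1 (Set.toFinite _)

omit [NeZero n] in
private theorem E5c_one (i : ZMod n) : {j | act i j}.ncard = 1 ↔ ∃ j, act i j ∧ ∀ x, act i x → x = j := by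
  rw [Set.ncard_eq_one]
  constructor
  · rintro ⟨a, h⟩
    have ha : a ∈ {j | act i j} := by rw [h]; simp
    refine ⟨a, ha, fun x hx => ?_⟩
    have : x ∈ {j | act i j} := hx
    rw [h] at this
    exact this
  · rintro ⟨j, h1, h2⟩
    refine ⟨j, ?_⟩
    ext x
    simp only [Set.mem_ofPred_eq, Set.mem_singleton_iff]
    exact ⟨h2 x, fun h => h ▸ h1⟩

/-- a partner of a double mark has one partner -/
private theorem E5c_dbl (H : SAx R act) {i j : ZMod n} (h : act i j) (h2 : {x | act i x}.ncard = 2) :
    {x | act j x}.ncard = 1 := by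
  obtain ⟨a, b, hab, ha, hb⟩ := (E5c_two H i).1 h2
  rw [E5c_one]
  refine ⟨i, H.asymm _ _ h, ?_⟩
  rcases (H.three i a b ha hb hab).1 j h with rfl | rfl
  · exact (H.three i _ _ ha hb hab).2
  · exact (H.three i _ _ hb ha hab.symm).2

theorem cntB_true (H : SAx R act) (hC : Cnt act) {al : List (ℕ × ℕ)} (hal : ActL act al) :
    cntB n al (fun i => degN i al) (cntN 0 ((List.range n).map fun i => degN i al))
      (cntN 2 ((List.range n).map fun i => degN i al)) = true := by
  classical
  have hP : cntN 0 ((List.range n).map fun i => degN i al) = {i | Pas act i}.ncard := by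
    rw [E5c_cntN, E5c_card, List.countP_map]
    apply List.countP_congr
    intro x hx
    have hx' : x < n := List.mem_range.1 hx
    simp only [Function.comp, decide_eq_true_eq]
    rw [deg_eq H hal hx', E5c_zero]
  have hD : cntN 2 ((List.range n).map fun i => degN i al) = {i | Dbl act i}.ncard := by
    rw [E5c_cntN, E5c_card, List.countP_map]
    apply List.countP_congr
    intro x hx
    have hx' : x < n := List.mem_range.1 hx
    simp only [Function.comp, decide_eq_true_eq]
    rw [deg_eq H hal hx', E5c_two H]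
  rw [hP, hD]
  have hle : ∀ a b : ℕ, Nat.ble a b = true ↔ a ≤ b := fun a b => by rw [Nat.ble_eq]
  have hbe : ∀ a b : ℕ, Nat.beq a b = true ↔ a = b := fun a b => by rw [Nat.beq_eq]
  unfold cntB
  simp only [Bool.and_eq_true, List.all_eq_true, Bool.or_eq_true, Bool.not_eq_true', List.mem_range]
  refine ⟨⟨⟨⟨(hle _ _).2 hC.le_six, (hle _ _).2 hC.ge_three⟩, fun i hi => ?_⟩, fun p hp => ?_⟩, ?_⟩
  · rw [hle, deg_eq H hal hi]
    exact E5c_le H _
  · obtain ⟨h1, h2, h3⟩ := hal.lt p hp
    have h4 : p.1 < n := h1.trans h2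
    rw [deg_eq H hal h4, deg_eq H hal h2]
    constructor
    · by_cases h : {j | act (p.1 : ZMod n) j}.ncard = 2
      · exact Or.inr ((hbe _ _).2 (E5c_dbl H h3 h))
      · left
        rw [← Bool.not_eq_true, hbe]
        exact h
    · by_cases h : {j | act (p.2 : ZMod n) j}.ncard = 2
      · exact Or.inr ((hbe _ _).2 (E5c_dbl H (H.asymm _ _ h3) h))
      · left
        rw [← Bool.not_eq_true, hbe]
        exact h
  · by_cases h : ∃ i, Fre act i
    · exact Or.inl ((hle _ _).2 (hC.le_five h))
    · right
      rw [← Bool.not_eq_true, List.any_eq_true]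
      rintro ⟨p, hp, h5⟩
      simp only [Bool.and_eq_true, hbe] at h5
      obtain ⟨h1, h2, h3⟩ := hal.lt p hp
      have h4 : p.1 < n := h1.trans h2
      rw [deg_eq H hal h4, deg_eq H hal h2, E5c_one, E5c_one] at h5
      obtain ⟨⟨a, ha, ha'⟩, ⟨b, hb, hb'⟩⟩ := h5
      have e1 := ha' _ h3
      have e2 := hb' _ (H.asymm _ _ h3)
      exact h ⟨(p.1 : ZMod n), (p.2 : ZMod n), h3, fun x hx => (ha' x hx).trans e1.symm,
        fun x hx => (hb' x hx).trans e2.symm⟩

theorem length_ok (H : SAx R act) (hC : Cnt act) (hex : ∃ i j, act i j) {al : List (ℕ × ℕ)}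
    (hal : ActL act al) : al.length ≠ 0 ∧ n - 6 ≤ 2 * al.length := by
  classical
  have key : ∀ i j : ZMod n, act i j → ∃ p ∈ al, (p.1 : ZMod n) = i ∨ (p.2 : ZMod n) = i := by
    intro i j h
    have hi : ((i.val : ℕ) : ZMod n) = i := ZMod.natCast_zmod_val i
    have hj : ((j.val : ℕ) : ZMod n) = j := ZMod.natCast_zmod_val j
    have hne : i.val ≠ j.val := by
      intro h1
      apply H.ne _ _ h
      rw [← hi, ← hj, h1]
    rcases lt_or_gt_of_ne hne with h1 | h1
    · exact ⟨(i.val, j.val), hal.mem _ _ h1 (ZMod.val_lt j) (by rwa [hi, hj]), Or.inl hi⟩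
    · exact ⟨(j.val, i.val), hal.mem _ _ h1 (ZMod.val_lt i) (by rw [hi, hj]; exact H.asymm _ _ h), Or.inr hi⟩
  constructor
  · obtain ⟨i, j, h⟩ := hex
    obtain ⟨p, hp, -⟩ := key i j h
    intro h0
    rw [List.length_eq_zero_iff.1 h0] at hp
    exact absurd hp (List.not_mem_nil)
  · have h1 : {i | ¬ Pas act i} ⊆
        ((al.toFinset.image fun p => (p.1 : ZMod n)) ∪ (al.toFinset.image fun p => (p.2 : ZMod n)) : Finset (ZMod n)) := by
      intro i hi
      simp only [Set.mem_ofPred_eq, Pas, not_forall, not_not] at hi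
      obtain ⟨j, hj⟩ := hi
      obtain ⟨p, hp, h⟩ := key i j hj
      simp only [Finset.coe_union, Finset.coe_image, Set.mem_union, Set.mem_image, List.coe_toFinset,
        Set.mem_ofPred_eq]
      rcases h with h | h
      · exact Or.inl ⟨p, hp, h⟩
      · exact Or.inr ⟨p, hp, h⟩
    have h2 : {i | ¬ Pas act i}.ncard ≤ al.length + al.length := by
      calc _ ≤ _ := Set.ncard_le_ncard h1 (Set.toFinite _)
        _ = _ := Set.ncard_coe_finset _
        _ ≤ _ := Finset.card_union_le _ _
        _ ≤ _ := Nat.add_le_add (Finset.card_image_le.trans (List.toFinset_card_le _))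
          (Finset.card_image_le.trans (List.toFinset_card_le _))
    have h3 : {i : ZMod n | Pas act i}.ncard + {i : ZMod n | Pas act i}ᶜ.ncard = Nat.card (ZMod n) :=
      Set.ncard_add_ncard_compl _
    rw [Nat.card_zmod] at h3
    have h4 : {i : ZMod n | Pas act i}ᶜ = {i | ¬ Pas act i} := rfl
    rw [h4] at h3
    have h5 := hC.le_six
    omega

end Pool.Agent.Lib_MP_fa6e45
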