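import Pool.Agent.Lib_MP_fa6e45.E4s

/-!
MP_fa6e45_co, stage 3: the search through all patterns with 12 marked corners, part 2 (kernel computation, captain; generated).
-/

namespace Pool.Agent.Lib_MP_fa6e45

/-- first digits and masks of part `8` -/
def enL12_8 : List (ℕ × ℕ) :=
    [(645425008656, 544), (370547101712, 0), (654283378704, 848), (310685995024, 320),
      (448124948496, 272), (585563901968, 80)]

theorem enT12_8 : (enL12_8.all fun p => allCl (actsB 12 patS12 htS12) 2 10 p.1 p.2) = true := by
  decide +kernel

/-- first digits and masks of part `9` -/
def enL12_9 : List (ℕ × ℕ) :=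
    [(637103509520, 576), (430945079312, 0), (645693444112, 528), (302096060432, 0),
      (654551814160, 816), (310954430480, 288), (379673907216, 272)]

theorem enT12_9 : (enL12_9.all fun p => allCl (actsB 12 patS12 htS12) 2 10 p.1 p.2) = true := by
  decide +kernel

/-- first digits and masks of part `10` -/
def enL12_10 : List (ℕ × ℕ) :=
    [(585832337424, 48), (637371944976, 544), (362494038032, 0), (641666912272, 528),
      (298069528592, 0), (654786695184, 928), (379908788240, 384)]

theorem enT12_10 : (enL12_10.all fun p => allCl (actsB 12 patS12 htS12) 2 10 p.1 p.2) = true := by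
  decide +kernel

/-- first digits and masks of part `11` -/
def enL12_11 : List (ℕ × ℕ) :=
    [(517347741712, 288), (586067218448, 160), (641901793296, 640), (504462839824, 0),
      (650491727888, 544), (375613820944, 0), (654249824272, 768), (585530347536, 0)]

theorem enT12_11 : (enL12_11.all fun p => allCl (actsB 12 patS12 htS12) 2 10 p.1 p.2) = true := by
  decide +kernel

/-- first digits and masks of part `12` -/
def enL12_12 : List (ℕ × ℕ) :=
    [(654803472400, 912), (311206088720, 384), (517364518928, 272), (586083995664, 144),
      (637623603216, 640), (500184649744, 0)]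

theorem enT12_12 : (enL12_12.all fun p => allCl (actsB 12 patS12 htS12) 2 10 p.1 p.2) = true := by
  decide +kernel

/-- first digits and masks of part `13` -/
def enL12_13 : List (ℕ × ℕ) :=
    [(650508505104, 528), (306911121424, 0), (653998166032, 768), (585278689296, 0),
      (654819201040, 960), (448660770832, 384), (517380247568, 320)]

theorem enT12_13 : (enL12_13.all fun p => allCl (actsB 12 patS12 htS12) 2 10 p.1 p.2) = true := by
  decide +kernel

/-- first digits and masks of part `14` -/
def enL12_14 : List (ℕ × ℕ) :=
    [(586099724304, 192), (646229266448, 640), (508790312976, 0), (650524233744, 576),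
      (444365803536, 0), (654550765584, 768), (585831288848, 0)]

theorem enT12_14 : (enL12_14.all fun p => allCl (actsB 12 patS12 htS12) 2 10 p.1 p.2) = true := by
  decide +kernel

end Pool.Agent.Lib_MP_fa6e45
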