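import Pool.Agent.Lib_MP_fa6e45.EN12a
import Pool.Agent.Lib_MP_fa6e45.EN12b

/-!
MP_fa6e45_co, stage 3: the search through all patterns with 12 marked corners (kernel computation, captain; generated).
-/

namespace Pool.Agent.Lib_MP_fa6e45

private theorem EN12_prefs : prefs 6 4 (16 + 16 ^ 3) 0 =
      enL12_0 ++ enL12_1 ++ enL12_2 ++ enL12_3 ++ enL12_4 ++ enL12_5 ++ enL12_6 ++ enL12_7 ++
      enL12_8 ++ enL12_9 ++ enL12_10 ++ enL12_11 ++ enL12_12 ++ enL12_13 ++ enL12_14 := by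
  decide +kernel

theorem enumS12 : allCl (actsB 12 patS12 htS12) (12 - 4) 4 (16 + 16 ^ 3) 0 = true := by
  refine allCl_split _ 2 6 4 _ _ ?_
  rw [EN12_prefs]
  simp only [List.all_append, Bool.and_eq_true]
  exact ⟨⟨⟨⟨⟨⟨⟨⟨⟨⟨⟨⟨⟨⟨enT12_0, enT12_1⟩, enT12_2⟩, enT12_3⟩, enT12_4⟩, enT12_5⟩, enT12_6⟩, enT12_7⟩,
    enT12_8⟩, enT12_9⟩, enT12_10⟩, enT12_11⟩, enT12_12⟩, enT12_13⟩, enT12_14⟩

end Pool.Agent.Lib_MP_fa6e45
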