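import Pool.Agent.Lib_MP_fa6e45.E4s

/-!
MP_fa6e45_co, stage 3: the search through all patterns with 12 marked corners, part 1 (kernel computation, captain; generated).
-/

namespace Pool.Agent.Lib_MP_fa6e45

/-- first digits and masks of part `0` -/
def enL12_0 : List (ℕ × ℕ) :=
    [(654820249616, 1008)]

theorem enT12_0 : (enL12_0.all fun p => allCl (actsB 12 patS12 htS12) 2 10 p.1 p.2) = true := by
  decide +kernel

/-- first digits and masks of part `1` -/
def enL12_1 : List (ℕ × ℕ) :=
    [(311222865936, 480), (379942342672, 464)]

theorem enT12_1 : (enL12_1.all fun p => allCl (actsB 12 patS12 htS12) 2 10 p.1 p.2) = true := by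
  decide +kernel

/-- first digits and masks of part `2` -/
def enL12_2 : List (ℕ × ℕ) :=
    [(448661819408, 432), (517381296144, 368)]

theorem enT12_2 : (enL12_2.all fun p => allCl (actsB 12 patS12 htS12) 2 10 p.1 p.2) = true := by
  decide +kernel

/-- first digits and masks of part `3` -/
def enL12_3 : List (ℕ × ℕ) :=
    [(586100772880, 240), (637640380432, 736), (362762473488, 192), (431481950224, 160)]

theorem enT12_3 : (enL12_3.all fun p => allCl (actsB 12 patS12 htS12) 2 10 p.1 p.2) = true := by
  decide +kernel

/-- first digits and masks of part `4` -/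
def enL12_4 : List (ℕ × ℕ) :=
    [(500201426960, 96), (641935347728, 720), (298337964048, 192), (435776917520, 144),
      (504496394256, 80)]

theorem enT12_4 : (enL12_4.all fun p => allCl (actsB 12 patS12 htS12) 2 10 p.1 p.2) = true := by
  decide +kernel

/-- first digits and masks of part `5` -/
def enL12_5 : List (ℕ × ℕ) :=
    [(646230315024, 688), (302632931344, 160), (371352408080, 144), (508791361552, 48)]

theorem enT12_5 : (enL12_5.all fun p => allCl (actsB 12 patS12 htS12) 2 10 p.1 p.2) = true := by
  decide +kernel

/-- first digits and masks of part `6` -/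
def enL12_6 : List (ℕ × ℕ) :=
    [(650525282320, 624), (306927898640, 96), (375647375376, 80), (444366852112, 48)]

theorem enT12_6 : (enL12_6.all fun p => allCl (actsB 12 patS12 htS12) 2 10 p.1 p.2) = true := by
  decide +kernel

/-- first digits and masks of part `7` -/
def enL12_7 : List (ℕ × ℕ) :=
    [(654014943248, 864), (379137036304, 320), (447856513040, 288), (585295466512, 96),
      (641130041360, 576), (434971611152, 0)]

theorem enT12_7 : (enL12_7.all fun p => allCl (actsB 12 patS12 htS12) 2 10 p.1 p.2) = true := by
  decide +kernel

end Pool.Agent.Lib_MP_fa6e45
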