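import Pool.Agent.Lib_MP_fa6e45.E4

/-!
MP_fa6e45_co, stage 3: the search through all patterns with 6 marked corners (kernel computation, captain).
-/

namespace Pool.Agent.Lib_MP_fa6e45

theorem enumS6 : allCl (actsB 6 patS6 htS6) 6 0 0 0 = true := by
  decide +kernel

end Pool.Agent.Lib_MP_fa6e45
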