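import Pool.Agent.Lib_MP_fa6e45.E4s

/-!
MP_fa6e45_co, stage 3: the search through all patterns with 8 marked corners, part 2 (kernel computation, captain; generated).
-/

namespace Pool.Agent.Lib_MP_fa6e45

/-- first digits and masks of part `6` -/
def enL8_6 : List (ℕ × ℕ) :=
    [(5509648, 53), (266768, 20), (2363920, 17), (4461072, 5), (5247504, 36), (2101776, 0),
      (5378576, 33), (135696, 0)]

theorem enT8_6 : (enL8_6.all fun p => allCl (actsB 8 patS8 htS8) 2 6 p.1 p.2) = true := by
  decide +kernel

/-- first digits and masks of part `7` -/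
def enL8_7 : List (ℕ × ℕ) :=
    [(5513744, 51), (270864, 18), (1319440, 17), (4465168, 3), (5251600, 34), (1057296, 0),
      (5317136, 33), (74256, 0)]

theorem enT8_7 : (enL8_7.all fun p => allCl (actsB 8 patS8 htS8) 2 6 p.1 p.2) = true := by
  decide +kernel

/-- first digits and masks of part `8` -/
def enL8_8 : List (ℕ × ℕ) :=
    [(5517328, 58), (1323024, 24), (3420176, 18), (4468752, 10), (5320720, 40), (3223568, 0),
      (5451792, 34), (1257488, 0)]

theorem enT8_8 : (enL8_8.all fun p => allCl (actsB 8 patS8 htS8) 2 6 p.1 p.2) = true := by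
  decide +kernel

/-- first digits and masks of part `9` -/
def enL8_9 : List (ℕ × ℕ) :=
    [(5509136, 48), (4460560, 0), (5517584, 57), (274704, 24), (3420432, 17), (4469008, 9),
      (5255440, 40), (3158288, 0)]

theorem enT8_9 : (enL8_9.all fun p => allCl (actsB 8 patS8 htS8) 2 6 p.1 p.2) = true := by
  decide +kernel

/-- first digits and masks of part `10` -/
def enL8_10 : List (ℕ × ℕ) :=
    [(5452048, 33), (209168, 0), (5505296, 48), (4456720, 0), (5517824, 60), (2372096, 24),
      (3420672, 20), (4469248, 12)]

theorem enT8_10 : (enL8_10.all fun p => allCl (actsB 8 patS8 htS8) 2 6 p.1 p.2) = true := by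
  decide +kernel

/-- first digits and masks of part `11` -/
def enL8_11 : List (ℕ × ℕ) :=
    [(5386752, 40), (3289600, 0), (5452288, 36), (2306560, 0), (5513728, 48), (4465152, 0)]

theorem enT8_11 : (enL8_11.all fun p => allCl (actsB 8 patS8 htS8) 2 6 p.1 p.2) = true := by
  decide +kernel

end Pool.Agent.Lib_MP_fa6e45
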