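import Pool.Agent.Lib_MP_fa6e45.EN8a
import Pool.Agent.Lib_MP_fa6e45.EN8b

/-!
MP_fa6e45_co, stage 3: the search through all patterns with 8 marked corners (kernel computation, captain; generated).
-/

namespace Pool.Agent.Lib_MP_fa6e45

private theorem EN8_prefs : prefs 6 0 0 0 =
      enL8_0 ++ enL8_1 ++ enL8_2 ++ enL8_3 ++ enL8_4 ++ enL8_5 ++ enL8_6 ++ enL8_7 ++ enL8_8 ++
      enL8_9 ++ enL8_10 ++ enL8_11 := by
  decide +kernel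

theorem enumS8 : allCl (actsB 8 patS8 htS8) 8 0 0 0 = true := by
  refine allCl_split _ 2 6 0 _ _ ?_
  rw [EN8_prefs]
  simp only [List.all_append, Bool.and_eq_true]
  exact ⟨⟨⟨⟨⟨⟨⟨⟨⟨⟨⟨enT8_0, enT8_1⟩, enT8_2⟩, enT8_3⟩, enT8_4⟩, enT8_5⟩, enT8_6⟩, enT8_7⟩, enT8_8⟩,
    enT8_9⟩, enT8_10⟩, enT8_11⟩

end Pool.Agent.Lib_MP_fa6e45
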