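import Pool.Agent.Lib_MP_fa6e45.E4s

/-!
MP_fa6e45_co, stage 3: the search through all patterns with 8 marked corners, part 1 (kernel computation, captain; generated).
-/

namespace Pool.Agent.Lib_MP_fa6e45

/-- first digits and masks of part `0` -/
def enL8_0 : List (ℕ × ℕ) :=
    [(5517840, 63), (274960, 30)]

theorem enT8_0 : (enL8_0.all fun p => allCl (actsB 8 patS8 htS8) 2 6 p.1 p.2) = true := by
  decide +kernel

/-- first digits and masks of part `1` -/
def enL8_1 : List (ℕ × ℕ) :=
    [(1323536, 29), (2372112, 27), (3420688, 23)]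

theorem enT8_1 : (enL8_1.all fun p => allCl (actsB 8 patS8 htS8) 2 6 p.1 p.2) = true := by
  decide +kernel

/-- first digits and masks of part `2` -/
def enL8_2 : List (ℕ × ℕ) :=
    [(4469264, 15), (5255696, 46), (1061392, 12), (2109968, 10), (3158544, 6)]

theorem enT8_2 : (enL8_2.all fun p => allCl (actsB 8 patS8 htS8) 2 6 p.1 p.2) = true := by
  decide +kernel

/-- first digits and masks of part `3` -/
def enL8_3 : List (ℕ × ℕ) :=
    [(5321232, 45), (78352, 12), (2175504, 9), (3224080, 5), (5386768, 43)]

theorem enT8_3 : (enL8_3.all fun p => allCl (actsB 8 patS8 htS8) 2 6 p.1 p.2) = true := by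
  decide +kernel

/-- first digits and masks of part `4` -/
def enL8_4 : List (ℕ × ℕ) :=
    [(143888, 10), (1192464, 9), (3289616, 3), (5452304, 39), (209424, 6), (1258000, 5),
      (2306576, 3)]

theorem enT8_4 : (enL8_4.all fun p => allCl (actsB 8 patS8 htS8) 2 6 p.1 p.2) = true := by
  decide +kernel

/-- first digits and masks of part `5` -/
def enL8_5 : List (ℕ × ℕ) :=
    [(5505552, 54), (1311248, 20), (2359824, 18), (4456976, 6), (5308944, 36), (2163216, 0),
      (5374480, 34), (1180176, 0)]

theorem enT8_5 : (enL8_5.all fun p => allCl (actsB 8 patS8 htS8) 2 6 p.1 p.2) = true := by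
  decide +kernel

end Pool.Agent.Lib_MP_fa6e45
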