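import Pool.Agent.Lib_MP_fa6e45.E4s

/-!
MP_fa6e45_co, stage 3: the search through all patterns with 9 marked corners, part 2 (kernel computation, captain; generated).
-/

namespace Pool.Agent.Lib_MP_fa6e45

/-- first digits and masks of part `8` -/
def enL9_8 : List (ℕ × ℕ) :=
    [(21246480, 13), (38023696, 11), (54800912, 7), (105918992, 110), (22032912, 44)]

theorem enT9_8 : (enL9_8.all fun p => allCl (actsB 9 patS9 htS9) 2 7 p.1 p.2) = true := by
  decide +kernel

/-- first digits and masks of part `9` -/
def enL9_9 : List (ℕ × ℕ) :=
    [(38810128, 42), (55587344, 38), (89141776, 14), (101724688, 76), (34615824, 8), (51393040,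
      4), (102773264, 74), (18887184, 8), (52441616, 2)]

theorem enT9_9 : (enL9_9.all fun p => allCl (actsB 9 patS9 htS9) 2 7 p.1 p.2) = true := by
  decide +kernel

/-- first digits and masks of part `10` -/
def enL9_10 : List (ℕ × ℕ) :=
    [(103821840, 70), (19935760, 4), (36712976, 2), (105984528, 109), (5321232, 44), (38875664,
      41)]

theorem enT9_10 : (enL9_10.all fun p => allCl (actsB 9 patS9 htS9) 2 7 p.1 p.2) = true := by
  decide +kernel

/-- first digits and masks of part `11` -/
def enL9_11 : List (ℕ × ℕ) :=
    [(55652880, 37), (89207312, 13), (100741648, 76), (33632784, 8), (50410000, 4), (102838800,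
      73), (2175504, 8), (52507152, 1), (103887376, 69), (3224080, 4)]

theorem enT9_11 : (enL9_11.all fun p => allCl (actsB 9 patS9 htS9) 2 7 p.1 p.2) = true := by
  decide +kernel

/-- first digits and masks of part `12` -/
def enL9_12 : List (ℕ × ℕ) :=
    [(36778512, 1), (106050064, 107), (5386768, 42), (22163984, 41), (55718416, 35)]

theorem enT9_12 : (enL9_12.all fun p => allCl (actsB 9 patS9 htS9) 2 7 p.1 p.2) = true := by
  decide +kernel

/-- first digits and masks of part `13` -/
def enL9_13 : List (ℕ × ℕ) :=
    [(89272848, 11), (100807184, 74), (16921104, 8), (50475536, 2), (101855760, 73), (1192464,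
      8), (51524112, 1), (103952912, 67), (3289616, 2), (20066832, 1)]

theorem enT9_13 : (enL9_13.all fun p => allCl (actsB 9 patS9 htS9) 2 7 p.1 p.2) = true := by
  decide +kernel

/-- first digits and masks of part `14` -/
def enL9_14 : List (ℕ × ℕ) :=
    [(106115600, 103), (5452304, 38), (22229520, 37), (39006736, 35), (89338384, 7)]

theorem enT9_14 : (enL9_14.all fun p => allCl (actsB 9 patS9 htS9) 2 7 p.1 p.2) = true := by
  decide +kernel

/-- first digits and masks of part `15` -/
def enL9_15 : List (ℕ × ℕ) :=
    [(100872720, 70), (16986640, 4), (33763856, 2), (101921296, 69), (1258000, 4), (34812432, 1),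
      (102969872, 67), (2306576, 2), (19083792, 1)]

theorem enT9_15 : (enL9_15.all fun p => allCl (actsB 9 patS9 htS9) 2 7 p.1 p.2) = true := by
  decide +kernel

end Pool.Agent.Lib_MP_fa6e45
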