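import Pool.Agent.Lib_MP_fa6e45.E4s

/-!
MP_fa6e45_co, stage 3: the search through all patterns with 9 marked corners, part 3 (kernel computation, captain; generated).
-/

namespace Pool.Agent.Lib_MP_fa6e45

/-- first digits and masks of part `16` -/
def enL9_16 : List (ℕ × ℕ) :=
    [(106168848, 118), (22282768, 52), (39059984, 50), (72614416, 38), (89391632, 22)]

theorem enT9_16 : (enL9_16.all fun p => allCl (actsB 9 patS9 htS9) 2 7 p.1 p.2) = true := by
  decide +kernel

/-- first digits and masks of part `17` -/
def enL9_17 : List (ℕ × ℕ) :=
    [(101974544, 84), (34865680, 16), (68420112, 4), (103023120, 82), (19137040, 16), (69468688,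
      2), (105120272, 70), (21234192, 4), (38011408, 2), (105972240, 100), (38863376, 32),
      (89195024, 4)]

theorem enT9_17 : (enL9_17.all fun p => allCl (actsB 9 patS9 htS9) 2 7 p.1 p.2) = true := by
  decide +kernel

/-- first digits and masks of part `18` -/
def enL9_18 : List (ℕ × ℕ) :=
    [(102826512, 64), (106037776, 98), (22151696, 32), (89260560, 2), (101843472, 64),
      (106172944, 117), (5509648, 52), (39064080, 49)]

theorem enT9_18 : (enL9_18.all fun p => allCl (actsB 9 patS9 htS9) 2 7 p.1 p.2) = true := by
  decide +kernel

/-- first digits and masks of part `19` -/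
def enL9_19 : List (ℕ × ℕ) :=
    [(72618512, 37), (89395728, 21), (100930064, 84), (33821200, 16), (67375632, 4), (103027216,
      81), (2363920, 16), (69472784, 1), (105124368, 69), (4461072, 4)]

theorem enT9_19 : (enL9_19.all fun p => allCl (actsB 9 patS9 htS9) 2 7 p.1 p.2) = true := by
  decide +kernel

/-- first digits and masks of part `20` -/
def enL9_20 : List (ℕ × ℕ) :=
    [(38015504, 1), (105910800, 100), (38801936, 32), (89133584, 4), (102765072, 64), (106041872,
      97), (5378576, 32), (89264656, 1), (100798992, 64), (106177040, 115)]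

theorem enT9_20 : (enL9_20.all fun p => allCl (actsB 9 patS9 htS9) 2 7 p.1 p.2) = true := by
  decide +kernel

/-- first digits and masks of part `21` -/
def enL9_21 : List (ℕ × ℕ) :=
    [(5513744, 50), (22290960, 49), (72622608, 35), (89399824, 19), (100934160, 82), (17048080,
      16), (67379728, 2)]

theorem enT9_21 : (enL9_21.all fun p => allCl (actsB 9 patS9 htS9) 2 7 p.1 p.2) = true := by
  decide +kernel

/-- first digits and masks of part `22` -/
def enL9_22 : List (ℕ × ℕ) :=
    [(101982736, 81), (1319440, 16), (68428304, 1), (105128464, 67), (4465168, 2), (21242384, 1),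
      (105914896, 98), (22028816, 32), (89137680, 2), (101720592, 64), (105980432, 97), (5317136,
      32)]

theorem enT9_22 : (enL9_22.all fun p => allCl (actsB 9 patS9 htS9) 2 7 p.1 p.2) = true := by
  decide +kernel

/-- first digits and masks of part `23` -/
def enL9_23 : List (ℕ × ℕ) :=
    [(89203216, 1), (100737552, 64), (106180624, 122), (22294544, 56), (55848976, 50), (72626192,
      42)]

theorem enT9_23 : (enL9_23.all fun p => allCl (actsB 9 patS9 htS9) 2 7 p.1 p.2) = true := by
  decide +kernel

end Pool.Agent.Lib_MP_fa6e45
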