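import Pool.Agent.Lib_MP_fa6e45.E4s

/-!
MP_fa6e45_co, stage 3: the search through all patterns with 9 marked corners, part 4 (kernel computation, captain; generated).
-/

namespace Pool.Agent.Lib_MP_fa6e45

/-- first digits and masks of part `24` -/
def enL9_24 : List (ℕ × ℕ) :=
    [(89403408, 26), (101986320, 88), (51654672, 16), (68431888, 8), (104083472, 82), (20197392,
      16), (70529040, 2), (105132048, 74), (21245968, 8), (54800400, 2)]

theorem enT9_24 : (enL9_24.all fun p => allCl (actsB 9 patS9 htS9) 2 7 p.1 p.2) = true := by
  decide +kernel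

/-- first digits and masks of part `25` -/
def enL9_25 : List (ℕ × ℕ) :=
    [(105984016, 104), (55652368, 32), (89206800, 8), (103886864, 64), (106115088, 98),
      (22229008, 32), (89337872, 2), (101920784, 64), (106172432, 112), (72618000, 32),
      (89395216, 16), (105123856, 64)]

theorem enT9_25 : (enL9_25.all fun p => allCl (actsB 9 patS9 htS9) 2 7 p.1 p.2) = true := by
  decide +kernel

/-- first digits and masks of part `26` -/
def enL9_26 : List (ℕ × ℕ) :=
    [(106180880, 121), (5517584, 56), (55849232, 49), (72626448, 41), (89403664, 25)]

theorem enT9_26 : (enL9_26.all fun p => allCl (actsB 9 patS9 htS9) 2 7 p.1 p.2) = true := by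
  decide +kernel

/-- first digits and masks of part `27` -/
def enL9_27 : List (ℕ × ℕ) :=
    [(100938000, 88), (50606352, 16), (67383568, 8), (104083728, 81), (3420432, 16), (70529296,
      1), (105132304, 73), (4469008, 8), (54800656, 1), (105918736, 104), (55587088, 32),
      (89141520, 8)]

theorem enT9_27 : (enL9_27.all fun p => allCl (actsB 9 patS9 htS9) 2 7 p.1 p.2) = true := by
  decide +kernel

/-- first digits and masks of part `28` -/
def enL9_28 : List (ℕ × ℕ) :=
    [(103821584, 64), (106115344, 97), (5452048, 32), (89338128, 1), (100872464, 64), (106168592,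
      112), (72614160, 32), (89391376, 16), (105120016, 64), (106181120, 124)]

theorem enT9_28 : (enL9_28.all fun p => allCl (actsB 9 patS9 htS9) 2 7 p.1 p.2) = true := by
  decide +kernel

/-- first digits and masks of part `29` -/
def enL9_29 : List (ℕ × ℕ) :=
    [(39072256, 56), (55849472, 52), (72626688, 44), (89403904, 28), (103035392, 88), (52703744,
      16), (69480960, 8)]

theorem enT9_29 : (enL9_29.all fun p => allCl (actsB 9 patS9 htS9) 2 7 p.1 p.2) = true := by
  decide +kernel

/-- first digits and masks of part `30` -/
def enL9_30 : List (ℕ × ℕ) :=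
    [(104083968, 84), (36975104, 16), (70529536, 4), (105132544, 76), (38023680, 8), (54800896,
      4), (106050048, 104), (55718400, 32), (89272832, 8), (103952896, 64), (106115584, 100),
      (39006720, 32)]

theorem enT9_30 : (enL9_30.all fun p => allCl (actsB 9 patS9 htS9) 2 7 p.1 p.2) = true := by
  decide +kernel

/-- first digits and masks of part `31` -/
def enL9_31 : List (ℕ × ℕ) :=
    [(89338368, 4), (102969856, 64), (106177024, 112), (72622592, 32), (89399808, 16),
      (105128448, 64)]

theorem enT9_31 : (enL9_31.all fun p => allCl (actsB 9 patS9 htS9) 2 7 p.1 p.2) = true := by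
  decide +kernel

end Pool.Agent.Lib_MP_fa6e45
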