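import Pool.Agent.Lib_MP_fa6e45.EN9a
import Pool.Agent.Lib_MP_fa6e45.EN9b
import Pool.Agent.Lib_MP_fa6e45.EN9c
import Pool.Agent.Lib_MP_fa6e45.EN9d

/-!
MP_fa6e45_co, stage 3: the search through all patterns with 9 marked corners (kernel computation, captain; generated).
-/

namespace Pool.Agent.Lib_MP_fa6e45

private theorem EN9_prefs : prefs 7 0 0 0 =
      enL9_0 ++ enL9_1 ++ enL9_2 ++ enL9_3 ++ enL9_4 ++ enL9_5 ++ enL9_6 ++ enL9_7 ++ enL9_8 ++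
      enL9_9 ++ enL9_10 ++ enL9_11 ++ enL9_12 ++ enL9_13 ++ enL9_14 ++ enL9_15 ++ enL9_16 ++
      enL9_17 ++ enL9_18 ++ enL9_19 ++ enL9_20 ++ enL9_21 ++ enL9_22 ++ enL9_23 ++ enL9_24 ++
      enL9_25 ++ enL9_26 ++ enL9_27 ++ enL9_28 ++ enL9_29 ++ enL9_30 ++ enL9_31 := by
  decide +kernel

theorem enumS9 : allCl (actsB 9 patS9 htS9) 9 0 0 0 = true := by
  refine allCl_split _ 2 7 0 _ _ ?_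
  rw [EN9_prefs]
  simp only [List.all_append, Bool.and_eq_true]
  exact ⟨⟨⟨⟨⟨⟨⟨⟨⟨⟨⟨⟨⟨⟨⟨⟨⟨⟨⟨⟨⟨⟨⟨⟨⟨⟨⟨⟨⟨⟨⟨enT9_0, enT9_1⟩, enT9_2⟩, enT9_3⟩, enT9_4⟩, enT9_5⟩, enT9_6⟩,
    enT9_7⟩, enT9_8⟩, enT9_9⟩, enT9_10⟩, enT9_11⟩, enT9_12⟩, enT9_13⟩, enT9_14⟩, enT9_15⟩,
    enT9_16⟩, enT9_17⟩, enT9_18⟩, enT9_19⟩, enT9_20⟩, enT9_21⟩, enT9_22⟩, enT9_23⟩, enT9_24⟩,
    enT9_25⟩, enT9_26⟩, enT9_27⟩, enT9_28⟩, enT9_29⟩, enT9_30⟩, enT9_31⟩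

end Pool.Agent.Lib_MP_fa6e45
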