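import Pool.Agent.Lib_MP_fa6e45.E4s

/-!
MP_fa6e45_co, stage 3: the search through all patterns with 9 marked corners, part 1 (kernel computation, captain; generated).
-/

namespace Pool.Agent.Lib_MP_fa6e45

/-- first digits and masks of part `0` -/
def enL9_0 : List (ℕ × ℕ) :=
    [(106181136, 127), (5517840, 62)]

theorem enT9_0 : (enL9_0.all fun p => allCl (actsB 9 patS9 htS9) 2 7 p.1 p.2) = true := by
  decide +kernel

/-- first digits and masks of part `1` -/
def enL9_1 : List (ℕ × ℕ) :=
    [(22295056, 61), (39072272, 59)]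

theorem enT9_1 : (enL9_1.all fun p => allCl (actsB 9 patS9 htS9) 2 7 p.1 p.2) = true := by
  decide +kernel

/-- first digits and masks of part `2` -/
def enL9_2 : List (ℕ × ℕ) :=
    [(55849488, 55), (72626704, 47)]

theorem enT9_2 : (enL9_2.all fun p => allCl (actsB 9 patS9 htS9) 2 7 p.1 p.2) = true := by
  decide +kernel

/-- first digits and masks of part `3` -/
def enL9_3 : List (ℕ × ℕ) :=
    [(89403920, 31), (100938256, 94), (17052176, 28)]

theorem enT9_3 : (enL9_3.all fun p => allCl (actsB 9 patS9 htS9) 2 7 p.1 p.2) = true := by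
  decide +kernel

/-- first digits and masks of part `4` -/
def enL9_4 : List (ℕ × ℕ) :=
    [(33829392, 26), (50606608, 22), (67383824, 14), (101986832, 93), (1323536, 28)]

theorem enT9_4 : (enL9_4.all fun p => allCl (actsB 9 patS9 htS9) 2 7 p.1 p.2) = true := by
  decide +kernel

/-- first digits and masks of part `5` -/
def enL9_5 : List (ℕ × ℕ) :=
    [(34877968, 25), (51655184, 21), (68432400, 13), (103035408, 91), (2372112, 26)]

theorem enT9_5 : (enL9_5.all fun p => allCl (actsB 9 patS9 htS9) 2 7 p.1 p.2) = true := by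
  decide +kernel

/-- first digits and masks of part `6` -/
def enL9_6 : List (ℕ × ℕ) :=
    [(19149328, 25), (52703760, 19), (69480976, 11), (104083984, 87), (3420688, 22)]

theorem enT9_6 : (enL9_6.all fun p => allCl (actsB 9 patS9 htS9) 2 7 p.1 p.2) = true := by
  decide +kernel

/-- first digits and masks of part `7` -/
def enL9_7 : List (ℕ × ℕ) :=
    [(20197904, 21), (36975120, 19), (70529552, 7), (105132560, 79), (4469264, 14)]

theorem enT9_7 : (enL9_7.all fun p => allCl (actsB 9 patS9 htS9) 2 7 p.1 p.2) = true := by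
  decide +kernel

end Pool.Agent.Lib_MP_fa6e45
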