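import Pool.Agent.Lib_MP_fa6e45.V2

/-!
MP_fa6e45_co: the equality case of the averaging inequality. If the average of the star sums is equal to their lower
bound, then there are arbitrarily large parts of the tiling in which all star sums are close to the lower bound.
-/

open Set

namespace Pool.Agent.Lib_MP_fa6e45

/-- `s` is reached from the tile `t` by at most `k` steps over sides -/
def NearP {n : ℕ} {ι : Type} (nx : Equiv.Perm (ι × ZMod n)) : ℕ → ι → ι → Prop
  | 0, t, s => s = t
  | k + 1, t, s => NearP nx k t s ∨ ∃ i, NearP nx k (nx (t, i)).1 s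

section

variable {n : ℕ} {ι : Type} (nx : Equiv.Perm (ι × ZMod n))

theorem nearP_mono {k m : ℕ} (h : k ≤ m) {t s : ι} (h1 : NearP nx k t s) : NearP nx m t s := by
  induction m, h using Nat.le_induction with
  | base => exact h1
  | succ m _ ih => exact Or.inl ih

theorem nearP_refl (k : ℕ) (t : ι) : NearP nx k t t := nearP_mono nx (Nat.zero_le k) rfl

theorem nearP_step {k : ℕ} {t s : ι} (h : NearP nx k t s) (i : ZMod n) : NearP nx (k + 1) t (nx (s, i)).1 := by
  induction k generalizing t with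
  | zero =>
    have h1 : s = t := h
    subst h1
    exact Or.inr ⟨i, rfl⟩
  | succ k ih =>
    rcases h with h | ⟨j, h⟩
    · exact Or.inl (ih h)
    · exact Or.inr ⟨j, ih h⟩

theorem nearP_iter {k : ℕ} {t : ι} {c : ι × ZMod n} (h : NearP nx k t c.1) (m : ℕ) :
    NearP nx (k + m) t (nx^[m] c).1 := by
  induction m with
  | zero => exact h
  | succ m ih =>
    rw [Function.iterate_succ_apply']
    exact nearP_step nx ih _

end

variable {n : ℕ} [NeZero n] {a l : ZMod n → ℝ} {ι : Type}

/-- the degrees are bounded -/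
theorem Comb.deg_bdd (K : Comb n a l ι) : ∃ D : ℕ, 0 < D ∧ ∀ c, K.deg c ≤ D := by
  obtain ⟨i₀, hi₀⟩ := Finite.exists_min a
  obtain ⟨D, hD⟩ := exists_nat_gt (2 * Real.pi / a i₀)
  have h0 := K.a_pos i₀
  refine ⟨D, ?_, fun c => ?_⟩
  · have : (0 : ℝ) < D := lt_trans (div_pos (by have := Real.pi_pos; linarith) h0) hD
    exact_mod_cast this
  · have h1 := K.sum c
    have h2 := Finset.card_nsmul_le_sum (Finset.range (Function.minimalPeriod K.nx c))
      (fun k => a ((K.nx^[k] c).2)) (a i₀) (fun k _ => hi₀ _)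
    rw [h1, Finset.card_range, nsmul_eq_mul] at h2
    have h3 : ((Function.minimalPeriod K.nx c : ℕ) : ℝ) < D := lt_of_le_of_lt ((le_div_iff₀ h0).2 h2) hD
    exact_mod_cast h3.le

/-- star sums in the equality case: in some large part of the tiling all of them are close to the lower bound -/
theorem CombA.exists_tight (K : CombA n a l ι) (v : ZMod n → ℝ) (L κ : ℝ) (hκ : 0 < κ)
    (hv : 2 * ∑ i, v i = ((n : ℝ) - 2) * L)
    (hs : ∀ c, L ≤ ∑ k ∈ Finset.range (K.toComb.deg c), v ((K.nx^[k] c).2)) (N : ℕ) :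
    ∃ t, ∀ s, NearP K.nx N t s → ∀ i,
      ∑ k ∈ Finset.range (K.toComb.deg (s, i)), v ((K.nx^[k] (s, i)).2) < L + κ := by
  classical
  by_contra hcon
  push Not at hcon
  obtain ⟨D, hD0, hD⟩ := K.toComb.deg_bdd
  have hpi := Real.pi_pos
  set S : ι × ZMod n → ℝ := fun c => ∑ k ∈ Finset.range (K.toComb.deg c), v ((K.nx^[k] c).2) with hS
  -- the level of a tile
  have hex : ∀ t, ∃ k, ∃ s, NearP K.nx k t s ∧ ∃ i, L + κ ≤ S (s, i) := by
    intro t
    obtain ⟨s, h1, i, h2⟩ := hcon t
    exact ⟨N, s, h1, i, h2⟩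
  obtain ⟨Lv, hLv⟩ : ∃ Lv : ι → ℕ, ∀ t, Lv t = Nat.find (hex t) := ⟨_, fun _ => rfl⟩
  have hN : ∀ t, Lv t ≤ N := by
    intro t
    rw [hLv]
    obtain ⟨s, h1, i, h2⟩ := hcon t
    exact Nat.find_min' (hex t) ⟨s, h1, i, h2⟩
  have h0 : ∀ t, Lv t = 0 → ∃ i, L + κ ≤ S (t, i) := by
    intro t ht
    have h1 := Nat.find_spec (hex t)
    rw [← hLv, ht] at h1
    obtain ⟨s, h2, i, h3⟩ := h1
    have h4 : s = t := h2
    subst h4
    exact ⟨i, h3⟩
  have hstep : ∀ t r, Lv t = r + 1 → ∃ i, Lv (K.nx (t, i)).1 ≤ r := by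
    intro t r ht
    have h1 := Nat.find_spec (hex t)
    rw [← hLv, ht] at h1
    obtain ⟨s, h2, i, h3⟩ := h1
    rcases h2 with h2 | ⟨j, h2⟩
    · exfalso
      have h4 : Lv t ≤ r := by
        rw [hLv]
        exact Nat.find_min' (hex t) ⟨s, h2, i, h3⟩
      omega
    · refine ⟨j, ?_⟩
      rw [hLv]
      exact Nat.find_min' (hex _) ⟨s, h2, i, h3⟩
  -- the constants
  have hn3 := K.three_le
  have hn0 : (0 : ℝ) < n := by
    have : 0 < n := by omega
    exact_mod_cast this
  have hDr : (0 : ℝ) < D := by exact_mod_cast hD0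
  set θ : ℝ := 1 / (2 * n) with hθ
  have hθ0 : 0 < θ := by positivity
  have hθ1 : θ ≤ 1 := by
    rw [hθ, div_le_one (by positivity)]
    have : (1 : ℝ) ≤ n := by exact_mod_cast (by omega : 1 ≤ n)
    linarith
  have hθn : (n : ℝ) * θ = 1 / 2 := by
    rw [hθ]
    field_simp
  set ε : ℝ := κ / (2 * n * D) with hε
  have hε0 : 0 < ε := by positivity
  have hεn : ε * n = κ / D / 2 := by
    rw [hε]
    field_simp
  set φ : ι → ℝ := fun t => θ ^ Lv t with hφ
  have hφ0 : ∀ t, 0 < φ t := fun t => pow_pos hθ0 _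
  have hφ1 : ∀ t, φ t ≤ 1 := fun t => pow_le_one₀ hθ0.le hθ1
  have hper : ∀ c, K.nx^[K.toComb.deg c] c = c := fun c => Function.iterate_minimalPeriod
  -- `S` is constant on stars
  have hSnx : ∀ c, S (K.nx c) = S c := by
    intro c
    have hd : K.toComb.deg (K.nx c) = K.toComb.deg c := by
      unfold Comb.deg
      exact Function.minimalPeriod_apply (Function.mk_mem_periodicPts (K.toComb.deg_pos c)
        (Function.isPeriodicPt_minimalPeriod _ _))
    simp only [hS]
    rw [hd]
    have e1 : ∀ k, K.nx^[k] (K.nx c) = K.nx^[k + 1] c := fun k => (Function.iterate_succ_apply _ _ _).symm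
    simp only [e1]
    have h1 := Finset.sum_range_succ' (fun k => v ((K.nx^[k] c).2)) (K.toComb.deg c)
    rw [Finset.sum_range_succ] at h1
    have h2 : K.nx^[0] c = c := rfl
    rw [hper c, h2] at h1
    linarith
  have hSit : ∀ c k, S (K.nx^[k] c) = S c := by
    intro c k
    induction k with
    | zero => rfl
    | succ k ih => rw [Function.iterate_succ_apply', hSnx, ih]
  refine K.avg (fun c => (L * a c.2 / (2 * Real.pi) - v c.2) + (if L + κ ≤ S c then κ / D else 0) +
    ε * (φ (K.nx c).1 - φ c.1)) ?_ ?_ (ε * θ ^ N / 2) (by positivity) ?_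
  · refine ⟨|L| + ∑ i, |v i| + κ / D + ε, fun c => ?_⟩
    have h1 : |L * a c.2 / (2 * Real.pi)| ≤ |L| := by
      rw [mul_div_assoc, abs_mul]
      have h2 : |a c.2 / (2 * Real.pi)| ≤ 1 := by
        rw [abs_of_pos (div_pos (K.a_pos _) (by positivity)), div_le_one (by positivity)]
        exact (K.a_lt _).le
      calc |L| * |a c.2 / (2 * Real.pi)| ≤ |L| * 1 := mul_le_mul_of_nonneg_left h2 (abs_nonneg _)
        _ = |L| := mul_one _
    have h2 : |v c.2| ≤ ∑ i, |v i| :=
      Finset.single_le_sum (f := fun i => |v i|) (fun i _ => abs_nonneg _) (Finset.mem_univ c.2)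
    have h3 : |if L + κ ≤ S c then κ / (D : ℝ) else 0| ≤ κ / D := by
      split_ifs
      · rw [abs_of_pos (by positivity)]
      · rw [abs_zero]
        positivity
    have h4 : |ε * (φ (K.nx c).1 - φ c.1)| ≤ ε := by
      rw [abs_mul, abs_of_pos hε0]
      have h5 : |φ (K.nx c).1 - φ c.1| ≤ 1 := by
        rw [abs_le]
        constructor
        · linarith [hφ0 (K.nx c).1, hφ1 c.1]
        · linarith [hφ0 c.1, hφ1 (K.nx c).1]
      calc ε * |φ (K.nx c).1 - φ c.1| ≤ ε * 1 := mul_le_mul_of_nonneg_left h5 hε0.le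
        _ = ε := mul_one _
    have h6 := abs_add_le ((L * a c.2 / (2 * Real.pi) - v c.2) + (if L + κ ≤ S c then κ / (D : ℝ) else 0))
      (ε * (φ (K.nx c).1 - φ c.1))
    have h7 := abs_add_le (L * a c.2 / (2 * Real.pi) - v c.2) (if L + κ ≤ S c then κ / (D : ℝ) else 0)
    have h8 := abs_sub (L * a c.2 / (2 * Real.pi)) (v c.2)
    linarith
  · intro c
    change ∑ k ∈ Finset.range (K.toComb.deg c), _ ≤ 0
    simp only [Finset.sum_add_distrib, Finset.sum_sub_distrib]
    rw [← Finset.mul_sum]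
    have h1 : ∑ k ∈ Finset.range (K.toComb.deg c), L * a (K.nx^[k] c).2 / (2 * Real.pi) = L := by
      have h2 : ∀ k, L * a (K.nx^[k] c).2 / (2 * Real.pi) = L / (2 * Real.pi) * a (K.nx^[k] c).2 := by
        intro k
        ring
      simp only [h2]
      rw [← Finset.mul_sum]
      have h3 : ∑ k ∈ Finset.range (K.toComb.deg c), a (K.nx^[k] c).2 = 2 * Real.pi := K.sum c
      rw [h3]
      field_simp
    have h4 : ∑ k ∈ Finset.range (K.toComb.deg c), (φ (K.nx (K.nx^[k] c)).1 - φ (K.nx^[k] c).1) = 0 := by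
      have e1 : ∀ k, K.nx (K.nx^[k] c) = K.nx^[k + 1] c := fun k => (Function.iterate_succ_apply' _ _ _).symm
      simp only [e1]
      rw [Finset.sum_range_sub (fun k => φ (K.nx^[k] c).1), hper c]
      exact sub_self _
    rw [h4, h1, mul_zero, add_zero]
    simp only [hSit]
    rw [Finset.sum_const, Finset.card_range, nsmul_eq_mul]
    have h5 : ∑ k ∈ Finset.range (K.toComb.deg c), v ((K.nx^[k] c).2) = S c := rfl
    rw [h5]
    split_ifs with h6
    · have h7 : (K.toComb.deg c : ℝ) * (κ / D) ≤ κ := by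
        have h8 : (K.toComb.deg c : ℝ) ≤ D := by exact_mod_cast hD c
        calc (K.toComb.deg c : ℝ) * (κ / D) ≤ D * (κ / D) := mul_le_mul_of_nonneg_right h8 (by positivity)
          _ = κ := by field_simp
      linarith
    · have h7 : L ≤ S c := hs c
      rw [mul_zero]
      linarith
  · intro t
    simp only [Finset.sum_add_distrib, Finset.sum_sub_distrib]
    rw [← Finset.mul_sum]
    simp only [Finset.sum_sub_distrib]
    have h1 : ∑ i : ZMod n, L * a i / (2 * Real.pi) = ((n : ℝ) - 2) * L / 2 := by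
      have h2 : ∀ i, L * a i / (2 * Real.pi) = L / (2 * Real.pi) * a i := by
        intro i
        ring
      simp only [h2]
      rw [← Finset.mul_sum, K.a_sum]
      field_simp
    have h3 : ∑ i : ZMod n, φ t = n * φ t := by
      rw [Finset.sum_const, Finset.card_univ, ZMod.card, nsmul_eq_mul]
    rw [h1, h3]
    have h4 : ∑ i, v i = ((n : ℝ) - 2) * L / 2 := by linarith
    rw [h4, sub_self, zero_add]
    have h5 : ∀ i : ZMod n, (0 : ℝ) ≤ if L + κ ≤ S (t, i) then κ / (D : ℝ) else 0 := by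
      intro i
      split_ifs
      · positivity
      · exact le_rfl
    have hθN : θ ^ N ≤ φ t := pow_le_pow_of_le_one hθ0.le hθ1 (hN t)
    rcases Nat.eq_zero_or_pos (Lv t) with h6 | h6
    · obtain ⟨i, hi⟩ := h0 t h6
      have h7 : κ / (D : ℝ) ≤ ∑ i : ZMod n, if L + κ ≤ S (t, i) then κ / (D : ℝ) else 0 := by
        have h8 := Finset.single_le_sum (f := fun i : ZMod n => if L + κ ≤ S (t, i) then κ / (D : ℝ) else 0)
          (fun i _ => h5 i) (Finset.mem_univ i)
        simp only [if_pos hi] at h8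
        exact h8
      have h9 : (0 : ℝ) ≤ ∑ i, φ (K.nx (t, i)).1 := Finset.sum_nonneg fun i _ => (hφ0 _).le
      have h10 : ε * (∑ i, φ (K.nx (t, i)).1 - n * φ t) ≥ -(κ / D / 2) := by
        have h11 : ε * (∑ i, φ (K.nx (t, i)).1 - n * φ t) ≥ ε * (-(n : ℝ)) := by
          refine mul_le_mul_of_nonneg_left ?_ hε0.le
          have := mul_le_mul_of_nonneg_left (hφ1 t) hn0.le
          linarith
        linarith
      have h12 : ε * θ ^ N ≤ κ / D / 2 := by
        rw [← hεn]
        refine mul_le_mul_of_nonneg_left ?_ hε0.le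
        have h13 : θ ^ N ≤ 1 := pow_le_one₀ hθ0.le hθ1
        have h14 : (1 : ℝ) ≤ n := by exact_mod_cast (by omega : 1 ≤ n)
        linarith
      have h15 : 0 < κ / (D : ℝ) := by positivity
      linarith
    · obtain ⟨r, hr⟩ := Nat.exists_eq_succ_of_ne_zero h6.ne'
      obtain ⟨i, hi⟩ := hstep t r hr
      have h7 : θ ^ r ≤ ∑ i, φ (K.nx (t, i)).1 := by
        have h8 := Finset.single_le_sum (f := fun i : ZMod n => φ (K.nx (t, i)).1)
          (fun i _ => (hφ0 _).le) (Finset.mem_univ i)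
        exact le_trans (pow_le_pow_of_le_one hθ0.le hθ1 hi) h8
      have h8 : (n : ℝ) * φ t = θ ^ r / 2 := by
        simp only [hφ]
        rw [hr, pow_succ]
        linear_combination (θ ^ r) * hθn
      have h9 : (0 : ℝ) ≤ ∑ i : ZMod n, if L + κ ≤ S (t, i) then κ / (D : ℝ) else 0 :=
        Finset.sum_nonneg fun i _ => h5 i
      have h10 : θ ^ N ≤ θ ^ r := pow_le_pow_of_le_one hθ0.le hθ1 (by have := hN t; omega)
      have h11 : ε * (θ ^ N / 2) ≤ ε * (∑ i, φ (K.nx (t, i)).1 - n * φ t) :=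
        mul_le_mul_of_nonneg_left (by linarith) hε0.le
      linarith

end Pool.Agent.Lib_MP_fa6e45
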