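import Pool.Agent.Lib_MP_fa6e45.EQ1
import Pool.Agent.Lib_MP_fa6e45.V1b
import Pool.Agent.Lib_MP_fa6e45.CT1

/-!
MP_fa6e45_co: moved tilings, the corners at a point as an orbit, the combinatorial data with its steps.
-/

open Set MeasureTheory Complex
open scoped Topology

namespace Pool.Agent.Lib_MP_fa6e45

open Pool.Agent.Lib_PL (cr InSector Poly)

variable {n : ℕ} {P : Polygon n} {ι : Type}

private theorem EQ2_aff (g : Mo) (a b : ℝ) (hab : a + b = 1) (x y : ℂ) :
    a • g.app x + b • g.app y = g.app (a • x + b • y) := by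
  simp only [Complex.real_smul]
  have h1 : g.lin ((a : ℂ) * x + (b : ℂ) * y) = (a : ℂ) * g.lin x + (b : ℂ) * g.lin y := by
    rw [g.lin_add, g.lin_mul, g.lin_mul]
  unfold Mo.app
  rw [h1]
  have h2 : (a : ℂ) + (b : ℂ) = 1 := by exact_mod_cast hab
  linear_combination g.b * h2

theorem Mo.openSegment_app (g : Mo) (x y : ℂ) :
    openSegment ℝ (g.app x) (g.app y) = g.app '' openSegment ℝ x y := by
  ext z
  constructor
  · rintro ⟨a, b, ha, hb, hab, rfl⟩
    exact ⟨_, ⟨a, b, ha, hb, hab, rfl⟩, (EQ2_aff g a b hab x y).symm⟩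
  · rintro ⟨w, ⟨a, b, ha, hb, hab, rfl⟩, rfl⟩
    exact ⟨a, b, ha, hb, hab, EQ2_aff g a b hab x y⟩

/-- two motions of the same kind which agree at two points are equal -/
theorem Mo.eq_of_two {g h : Mo} (hr : g.rf = h.rf) {p q : ℂ} (hpq : p ≠ q) (hp : g.app p = h.app p)
    (hq : g.app q = h.app q) : g = h := by
  obtain ⟨a, b, rf, ha⟩ := g
  obtain ⟨c, d, rf', hc⟩ := h
  simp only at hr
  subst hr
  have h1 : a = c ∧ b = d := by
    cases rf
    · simp only [Mo.app, Mo.lin, Bool.false_eq_true, if_false] at hp hq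
      have h2 : (a - c) * (p - q) = 0 := by linear_combination hp - hq
      have h3 : a = c := by
        rcases mul_eq_zero.1 h2 with h4 | h4
        · exact sub_eq_zero.1 h4
        · exact absurd (sub_eq_zero.1 h4) hpq
      refine ⟨h3, ?_⟩
      rw [h3] at hp
      linear_combination hp
    · simp only [Mo.app, Mo.lin, if_true] at hp hq
      have h2 : (a - c) * ((starRingEnd ℂ) p - (starRingEnd ℂ) q) = 0 := by linear_combination hp - hq
      have h3 : a = c := by
        rcases mul_eq_zero.1 h2 with h4 | h4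
        · exact sub_eq_zero.1 h4
        · exact absurd ((starRingEnd ℂ).injective (sub_eq_zero.1 h4)) hpq
      refine ⟨h3, ?_⟩
      rw [h3] at hp
      linear_combination hp
  obtain ⟨rfl, rfl⟩ := h1
  rfl

/-- the tiling moved by `h` -/
noncomputable def Til.move (T : Til P ι) (h : Mo) : Til P ι where
  g s := h.mul (T.g s)
  cover := by
    intro z
    obtain ⟨t, w, hw, hz⟩ := T.cover (h.inv.app z)
    refine ⟨t, w, hw, ?_⟩
    rw [Mo.mul_app, hz, h.app_inv]
  disj := by
    intro s t hst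
    rw [Set.disjoint_left]
    rintro _ ⟨w, hw, rfl⟩ ⟨w', hw', e⟩
    rw [Mo.mul_app, Mo.mul_app] at e
    exact Set.disjoint_left.1 (T.disj s t hst) ⟨w, hw, rfl⟩ ⟨w', hw', h.app_injective e⟩
  e2e := by
    intro s t i j hm
    rw [Mo.mul_app, Mo.mul_app, Mo.mul_app, Mo.openSegment_app] at hm
    obtain ⟨w, hw, e⟩ := hm
    rw [h.app_injective e] at hw
    exact T.e2e s t i j hw

theorem Til.move_g (T : Til P ι) (h : Mo) (s : ι) : (T.move h).g s = h.mul (T.g s) := rfl

theorem Til.move_vx (T : Til P ι) (h : Mo) (c : ι × ZMod n) : (T.move h).vx c = h.app (T.vx c) :=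
  Mo.mul_app _ _ _

theorem Til.move_rf (T : Til P ι) {h : Mo} (hr : h.rf = false) : (T.move h).rf = T.rf := by
  funext s
  change (h.rf != (T.g s).rf) = (T.g s).rf
  rw [hr]
  cases (T.g s).rf <;> rfl

theorem Til.move_step (T : Til P ι) {h : Mo} (hr : h.rf = false) {c c' : ι × ZMod n} (hs : T.Step c c') :
    (T.move h).Step c c' := by
  obtain ⟨⟨h1, h2⟩, h3⟩ := hs
  refine ⟨⟨h1, ?_⟩, ?_⟩
  · rw [T.move_rf hr]
    simp only [T.move_vx]
    split_ifs at h2 ⊢ with h4
    · exact ⟨congrArg _ h2.1, congrArg _ h2.2⟩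
    · exact ⟨congrArg _ h2.1, congrArg _ h2.2⟩
  · rw [T.move_vx, T.move_vx, h3]

theorem Til.vx_iter (T : Til P ι) (nx : Equiv.Perm (ι × ZMod n))
    (h : ∀ c, T.Step c (nx c)) (c : ι × ZMod n) (k : ℕ) : T.vx (nx^[k] c) = T.vx c := by
  induction k with
  | zero => rfl
  | succ k ih =>
    rw [Function.iterate_succ_apply', (h _).2, ih]

/-- the corners at a point are an orbit of `nx` -/
theorem Til.orbit (hc : P.CCW) (T : Til P ι) (nx : Equiv.Perm (ι × ZMod n))
    (h : ∀ c, T.Step c (nx c)) {c x : ι × ZMod n} (hx : T.vx x = T.vx c) :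
    ∃ k < Function.minimalPeriod nx c, nx^[k] c = x := by
  classical
  have hinj : Set.InjOn (fun k : ℕ => nx^[k] c)
      (Finset.range (Function.minimalPeriod nx c) : Set ℕ) := by
    intro a ha b hb hab
    rw [Finset.coe_range] at ha hb
    exact Function.iterate_injOn_Iio_minimalPeriod ha hb hab
  have hsub : (Finset.range (Function.minimalPeriod nx c)).image (fun k : ℕ => nx^[k] c) ⊆
      (T.star_finite (T.vx c)).toFinset := by
    intro x hx
    obtain ⟨k, -, rfl⟩ := Finset.mem_image.1 hx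
    exact (T.star_finite (T.vx c)).mem_toFinset.2 (T.vx_iter nx h c k)
  have hcard : (T.star_finite (T.vx c)).toFinset.card ≤
      ((Finset.range (Function.minimalPeriod nx c)).image (fun k : ℕ => nx^[k] c)).card := by
    rw [Finset.card_image_of_injOn hinj, Finset.card_range,
      ← Set.ncard_eq_toFinset_card _ (T.star_finite (T.vx c)), (T.nx_orbit hc nx h c).2.2]
  have h1 : x ∈ (T.star_finite (T.vx c)).toFinset := (T.star_finite (T.vx c)).mem_toFinset.2 hx
  rw [← Finset.eq_of_subset_of_card_le hsub hcard] at h1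
  obtain ⟨k, hk, e⟩ := Finset.mem_image.1 h1
  exact ⟨k, Finset.mem_range.1 hk, e⟩

/-- the combinatorial data of a tiling, with its steps -/
theorem Til.combW [NeZero n] (hc : P.CCW) (T : Til P ι) :
    ∃ K : CombA n P.ang P.len ι, (∀ c, K.toComb.deg c = (T.star (T.vx c)).ncard) ∧
      ∀ c, T.Step c (K.nx c) := by
  classical
  obtain ⟨nx, hnx⟩ := T.exists_nx hc
  refine ⟨{
    three_le := P.three_le
    a_pos := P.ang_pos
    a_lt := P.ang_lt
    a_ne := P.ang_ne
    a_sum := P.ang_sum hc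
    rf := T.rf
    nx := nx
    deg_pos := fun c => (T.nx_orbit hc nx hnx c).1
    sum := fun c => (T.nx_orbit hc nx hnx c).2.1
    len := ?_
    flip := ?_
    count := ?_
    avg := ?_ }, fun c => ((T.nx_orbit hc nx hnx c).2.2).symm, hnx⟩
  · intro c
    rw [← T.norm_uu, ← T.norm_ww, T.uu_step (hnx c)]
  · intro c
    exact T.step_unique hc (hnx _) (T.step_flip (hnx c))
  · intro D h0 hD
    apply T.count hc D h0
    intro c
    rw [(T.nx_orbit hc nx hnx c).2.2]
    exact hD c
  · rintro f ⟨B, hB⟩ hs δ hδ ht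
    apply T.avg f B hB _ δ hδ ht
    intro c
    have h1 : ∑ x ∈ (T.star_finite (T.vx c)).toFinset, f x =
        ∑ k ∈ Finset.range (Function.minimalPeriod nx c), f (nx^[k] c) := by
      symm
      refine Finset.sum_bij (fun k _ => nx^[k] c) ?_ ?_ ?_ ?_
      · intro k _
        exact (T.star_finite (T.vx c)).mem_toFinset.2 (T.vx_iter nx hnx c k)
      · intro a ha b hb hab
        exact Function.iterate_injOn_Iio_minimalPeriod (Finset.mem_range.1 ha) (Finset.mem_range.1 hb) hab
      · intro x hx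
        obtain ⟨k, hk, e⟩ := T.orbit hc nx hnx ((T.star_finite (T.vx c)).mem_toFinset.1 hx)
        exact ⟨k, Finset.mem_range.2 hk, e⟩
      · intro k _
        rfl
    rw [h1]
    exact hs c

end Pool.Agent.Lib_MP_fa6e45
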