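import Pool.Agent.Lib_MP_fa6e45.EQ2

/-!
MP_fa6e45_co: limits of tilings. `T k` are edge-to-edge tilings by copies of `P` with the same combinatorial steps `nx`
and a base tile `t k` in a fixed position; the limit along an ultrafilter consists of all positions which occur, at a
bounded number of steps from the base tile, for almost all `k`.
-/

open Set MeasureTheory Complex Filter
open scoped Topology

namespace Pool.Agent.Lib_MP_fa6e45

open Pool.Agent.Lib_PL (cr InSector Poly)

variable {n : ℕ} {P : Polygon n} {ι : Type}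

/-- two tiles in the same position are equal -/
theorem Til.g_inj (T : Til P ι) {s s' : ι} (h : T.g s = T.g s') : s = s' := by
  by_contra hne
  have h1 := T.disj s s' hne
  rw [h, disjoint_self] at h1
  have h2 := P.volume_pos
  have h3 := T.volume_R s'
  rw [T.R_eq] at h3
  have h4 : T.I s' = ∅ := h1
  rw [h4, union_empty, T.volume_C] at h3
  rw [← h3] at h2
  simp at h2

/-- the position of the next tile is determined by the position of the tile and the combinatorial data -/
theorem Til.step_det {T T' : Til P ι} {s s' : ι} {i : ZMod n} {c c' : ι × ZMod n}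
    (h : T.Step (s, i) c) (h' : T'.Step (s', i) c') (hg : T.g s = T'.g s') (h2 : c.2 = c'.2)
    (hr : T.rf c.1 = T'.rf c'.1) : T.g c.1 = T'.g c'.1 := by
  have hss : T.rf s = T'.rf s' := by
    change (T.g s).rf = (T'.g s').rf
    rw [hg]
  have hu := T.uu_step h
  have hu' := T'.uu_step h'
  have hw : T.ww (s, i) = T'.ww (s', i) := by
    unfold Til.ww Til.vx bwd
    simp only [hg, hss]
  have e1 : T.vx (s, i) = T'.vx (s', i) := by
    unfold Til.vx
    simp only [hg]
  have e2 : T.vx c = T'.vx c' := by rw [h.2, h'.2, e1]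
  have e3 : T.vx (fwd T.rf c) = T'.vx (fwd T'.rf c') := by
    have h3 : T.vx (fwd T.rf c) - T.vx c = T'.vx (fwd T'.rf c') - T'.vx c' := by
      change T.uu c = T'.uu c'
      rw [hu, hu', hw]
    rw [e2] at h3
    linear_combination h3
  obtain ⟨u, j⟩ := c
  obtain ⟨u', j'⟩ := c'
  simp only at h2 hr
  subst h2
  have hne : j ≠ (if T.rf u then j - 1 else j + 1) := by
    have h3 := P.three_le
    have : Fact (1 < n) := ⟨by omega⟩
    split_ifs
    · intro h4
      have h5 : (1 : ZMod n) = 0 := by linear_combination h4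
      exact one_ne_zero h5
    · intro h4
      have h5 : (1 : ZMod n) = 0 := by linear_combination -h4
      exact one_ne_zero h5
  refine Mo.eq_of_two (p := P.vertex j) (q := P.vertex (if T.rf u then j - 1 else j + 1)) hr
    (fun h3 => hne (P.injective h3)) e2 ?_
  have e4 : (T.g u).app (P.vertex (if T.rf u then j - 1 else j + 1)) =
      (T'.g u').app (P.vertex (if T'.rf u' then j - 1 else j + 1)) := e3
  rw [← hr] at e4
  exact e4

/-- the corner of the tile `s` whose exit side is `e` -/
private theorem EQ3_ex (rf : ι → Bool) (t : ι) (e : ZMod n) :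
    exS rf (t, if rf t then e else e + 1) = e := by
  unfold exS
  cases rf t <;> simp

/-- near a point of the tile `s` the plane is covered by the tiles which are reached from the corners of `s` -/
theorem Til.cover_near (hc : P.CCW) (T : Til P ι) (nx : Equiv.Perm (ι × ZMod n)) (hnx : ∀ c, T.Step c (nx c))
    (D : ℕ) (hD0 : 0 < D) (hD : ∀ c, Function.minimalPeriod nx c ≤ D) (s : ι) (z : ℂ) (hz : z ∈ T.R s) :
    ∃ ρ > 0, ∀ w, ‖w - z‖ < ρ → ∃ i, ∃ j ≤ D, w ∈ T.R (nx^[j] (s, i)).1 := by
  have hself : ∀ w, w ∈ T.R s → ∃ i, ∃ j ≤ D, w ∈ T.R (nx^[j] (s, i)).1 := fun w hw =>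
    ⟨0, 0, Nat.zero_le D, hw⟩
  rw [T.R_eq] at hz
  rcases hz with hz | hz
  · rcases T.mem_C hz with ⟨i, hi⟩ | ⟨e, he⟩
    · -- a corner
      obtain ⟨ρ, hρ, h1⟩ := T.near z
      refine ⟨ρ, hρ, fun w hw => ?_⟩
      obtain ⟨u, hu⟩ := T.cover w
      have h2 : z ∈ T.R u := h1 w hw u hu
      rw [hi] at h2
      obtain ⟨j, hj⟩ := T.corner_at (s, i) h2
      obtain ⟨k, hk, e⟩ := T.orbit hc nx hnx hj
      refine ⟨i, k, hk.le.trans (hD _), ?_⟩
      rw [e]
      exact hu
    · -- a point of an open side
      obtain ⟨c, hcd⟩ : ∃ c : ι × ZMod n, c = (s, if T.rf s then e else e + 1) := ⟨_, rfl⟩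
      have hex : exS T.rf c = e := by rw [hcd, EQ3_ex]
      have hc1 : c.1 = s := by rw [hcd]
      have hgl : T.Glued (s, e) ((nx c).1, enS T.rf (nx c)) := by
        have := (hnx c).1
        rwa [hex, hc1] at this
      obtain ⟨y, hy⟩ : ∃ y : ι × ZMod n, y = ((nx c).1, enS T.rf (nx c)) := ⟨_, rfl⟩
      rw [← hy] at hgl
      obtain ⟨-, hgl2⟩ := hgl
      have hy1 : y.1 = (nx c).1 := by rw [hy]
      obtain ⟨ρ₁, hρ₁, h₁⟩ := T.local_side hc s e z he
      have hz2 : z ∈ openSegment ℝ (T.vx (y.1, y.2)) (T.vx (y.1, y.2 + 1)) := by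
        split_ifs at hgl2 with hr
        · obtain ⟨h3, h4⟩ := hgl2
          rw [h3, h4, openSegment_symm]
          exact he
        · obtain ⟨h3, h4⟩ := hgl2
          rw [h3, h4]
          exact he
      obtain ⟨ρ₂, hρ₂, h₂⟩ := T.local_side hc y.1 y.2 z hz2
      refine ⟨min ρ₁ ρ₂, lt_min hρ₁ hρ₂, fun w hw => ?_⟩
      by_cases hws : w ∈ T.R s
      · exact hself w hws
      have hwz : z + (w - z) = w := by ring
      have h5 := (h₁ (w - z) (hw.trans_le (min_le_left _ _))).2
      rw [hwz] at h5
      have h6 := h5.1 hws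
      have h7 := (h₂ (w - z) (hw.trans_le (min_le_right _ _))).1
      rw [hwz] at h7
      have h8 : w ∈ T.I y.1 := by
        rw [h7]
        have e5 : ∀ A B d : ℂ, cr (A - B) d = -cr (B - A) d := by
          intro A B d
          simp only [cr, sub_re, sub_im]
          ring
        change (if T.rf s = T.rf y.1 then _ else _) at hgl2
        split_ifs at hgl2 with hr
        · obtain ⟨h3, h4⟩ := hgl2
          rw [h3, h4, e5, ← hr]
          have h9 : (if T.rf s then (-1 : ℝ) else 1) * -cr (T.vx (s, e + 1) - T.vx (s, e)) (w - z) =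
              -((if T.rf s then (-1 : ℝ) else 1) * cr (T.vx (s, e + 1) - T.vx (s, e)) (w - z)) := by ring
          rw [h9]
          linarith
        · obtain ⟨h3, h4⟩ := hgl2
          rw [h3, h4]
          have h9 : (if T.rf y.1 then (-1 : ℝ) else 1) = -(if T.rf s then (-1 : ℝ) else 1) := by
            cases h10 : T.rf s <;> cases h11 : T.rf y.1
            · exact absurd (h10.trans h11.symm) hr
            · simp
            · simp
            · exact absurd (h10.trans h11.symm) hr
          rw [h9, neg_mul]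
          linarith
      refine ⟨c.2, 1, hD0, ?_⟩
      have e6 : (s, c.2) = c := by rw [← hc1]
      rw [Function.iterate_one, e6, ← hy1, T.R_eq]
      exact Or.inr h8
  · obtain ⟨ρ, hρ, h1⟩ := Metric.isOpen_iff.1 (T.I_open s) z hz
    refine ⟨ρ, hρ, fun w hw => hself w ?_⟩
    rw [T.R_eq]
    refine Or.inr (h1 ?_)
    rw [Metric.mem_ball, dist_eq_norm]
    exact hw

end Pool.Agent.Lib_MP_fa6e45
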