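import Pool.Agent.Lib_MP_fa6e45.EQ3

/-!
MP_fa6e45_co: the limit tiling.
-/

open Set MeasureTheory Complex Filter
open scoped Topology

namespace Pool.Agent.Lib_MP_fa6e45

open Pool.Agent.Lib_PL (cr InSector Poly)

variable {n : ℕ} {P : Polygon n} {ι : Type}

/-- the positions which occur for almost all `k` at a bounded number of steps from the base tile -/
def LimG (T : ℕ → Til P ι) (nx : Equiv.Perm (ι × ZMod n)) (t : ℕ → ι) : Set Mo :=
  {m | ∃ N, ∀ᶠ k in (hyperfilter ℕ : Filter ℕ), ∃ s, NearP nx N (t k) s ∧ (T k).g s = m}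

section

variable (T : ℕ → Til P ι) (nx : Equiv.Perm (ι × ZMod n)) (t : ℕ → ι)

theorem limG_finset (F : Finset Mo) (hF : ∀ m ∈ F, m ∈ LimG T nx t) :
    ∃ N, ∀ᶠ k in (hyperfilter ℕ : Filter ℕ), ∀ m ∈ F, ∃ s, NearP nx N (t k) s ∧ (T k).g s = m := by
  classical
  choose! N hN using hF
  refine ⟨F.sup N, ?_⟩
  rw [Filter.eventually_all_finset]
  intro m hm
  filter_upwards [hN m hm] with k hk
  obtain ⟨s, h1, h2⟩ := hk
  exact ⟨s, nearP_mono nx (Finset.le_sup hm) h1, h2⟩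

/-- one step from a position of the limit -/
theorem limG_step (hnx : ∀ k c, (T k).Step c (nx c)) {m : Mo} (hm : m ∈ LimG T nx t) (i : ZMod n) :
    ∃ m' ∈ LimG T nx t, ∃ i', ∀ᶠ k in (hyperfilter ℕ : Filter ℕ), ∀ s, (T k).g s = m →
      (nx (s, i)).2 = i' ∧ (T k).g (nx (s, i)).1 = m' := by
  have : NeZero n := ⟨by have := P.three_le; omega⟩
  obtain ⟨N, hN⟩ := hm
  -- the data of the next corner are constant
  have h1 : ∀ᶠ k in (hyperfilter ℕ : Filter ℕ), ∃ d : ZMod n × Bool, ∃ s, NearP nx N (t k) s ∧ (T k).g s = m ∧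
      (nx (s, i)).2 = d.1 ∧ (T k).rf (nx (s, i)).1 = d.2 := by
    filter_upwards [hN] with k hk
    obtain ⟨s, h2, h3⟩ := hk
    exact ⟨((nx (s, i)).2, (T k).rf (nx (s, i)).1), s, h2, h3, rfl, rfl⟩
  rw [Ultrafilter.eventually_exists_iff] at h1
  obtain ⟨d, hd⟩ := h1
  obtain ⟨k₀, s₀, -, h3, h4, h5⟩ := hd.exists
  have h6 : ∀ᶠ k in (hyperfilter ℕ : Filter ℕ), ∃ s, NearP nx N (t k) s ∧ (T k).g s = m ∧
      (nx (s, i)).2 = d.1 ∧ (T k).g (nx (s, i)).1 = (T k₀).g (nx (s₀, i)).1 := by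
    filter_upwards [hd] with k hk
    obtain ⟨s, g1, g2, g3, g4⟩ := hk
    refine ⟨s, g1, g2, g3, ?_⟩
    exact Til.step_det (hnx k (s, i)) (hnx k₀ (s₀, i)) (g2.trans h3.symm) (g3.trans h4.symm) (g4.trans h5.symm)
  refine ⟨(T k₀).g (nx (s₀, i)).1, ⟨N + 1, ?_⟩, d.1, ?_⟩
  · filter_upwards [h6] with k hk
    obtain ⟨s, g1, g2, g3, g4⟩ := hk
    exact ⟨(nx (s, i)).1, nearP_step nx g1 i, g4⟩
  · filter_upwards [h6] with k hk
    obtain ⟨s, g1, g2, g3, g4⟩ := hk
    intro s' hs'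
    have e : s' = s := (T k).g_inj (hs'.trans g2.symm)
    rw [e]
    exact ⟨g3, g4⟩

theorem limG_iter (hnx : ∀ k c, (T k).Step c (nx c)) {m : Mo} (hm : m ∈ LimG T nx t) (i : ZMod n) (j : ℕ) :
    ∃ m' ∈ LimG T nx t, ∃ i', ∀ᶠ k in (hyperfilter ℕ : Filter ℕ), ∀ s, (T k).g s = m →
      (nx^[j] (s, i)).2 = i' ∧ (T k).g (nx^[j] (s, i)).1 = m' := by
  induction j with
  | zero => exact ⟨m, hm, i, Filter.Eventually.of_forall fun k s hs => ⟨rfl, hs⟩⟩
  | succ j ih =>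
    obtain ⟨m₁, hm₁, i₁, h1⟩ := ih
    obtain ⟨m₂, hm₂, i₂, h2⟩ := limG_step T nx t hnx hm₁ i₁
    refine ⟨m₂, hm₂, i₂, ?_⟩
    filter_upwards [h1, h2] with k g1 g2
    intro s hs
    obtain ⟨g3, g4⟩ := g1 s hs
    have g5 := g2 _ g4
    rw [Function.iterate_succ_apply']
    have e : ((nx^[j] (s, i)).1, i₁) = nx^[j] (s, i) := by rw [← g3]
    rw [e] at g5
    exact g5

/-- near a point of a tile of the limit the plane is covered by tiles of the limit -/
theorem limG_open (hc : P.CCW) (hnx : ∀ k c, (T k).Step c (nx c)) (D : ℕ) (hD0 : 0 < D)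
    (hD : ∀ c, Function.minimalPeriod nx c ≤ D) {m : Mo} (hm : m ∈ LimG T nx t) {z : ℂ}
    (hz : z ∈ m.app '' P.region) :
    ∃ ρ > 0, ∀ w, ‖w - z‖ < ρ → ∃ m' ∈ LimG T nx t, w ∈ m'.app '' P.region := by
  have : NeZero n := ⟨by have := P.three_le; omega⟩
  have h1 : ∀ᶠ k in (hyperfilter ℕ : Filter ℕ), ∀ i : ZMod n, ∀ j : Fin (D + 1), ∀ s, (T k).g s = m →
      (T k).g (nx^[(j : ℕ)] (s, i)).1 ∈ LimG T nx t := by
    rw [Filter.eventually_all]
    intro i
    rw [Filter.eventually_all]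
    intro j
    obtain ⟨m', hm', i', h2⟩ := limG_iter T nx t hnx hm i j
    filter_upwards [h2] with k g s hs
    rw [(g s hs).2]
    exact hm'
  obtain ⟨N, hN⟩ := id hm
  obtain ⟨k, hk, s, -, hs⟩ := (h1.and hN).exists
  obtain ⟨ρ, hρ, h2⟩ := (T k).cover_near hc nx (hnx k) D hD0 hD s z (by
    change z ∈ ((T k).g s).app '' P.region
    rw [hs]
    exact hz)
  refine ⟨ρ, hρ, fun w hw => ?_⟩
  obtain ⟨i, j, hj, h3⟩ := h2 w hw
  exact ⟨_, hk i ⟨j, by omega⟩ s hs, h3⟩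

/-- only finitely many tiles of the limit meet a disc -/
theorem limG_finite (r : ℝ) :
    {m : Mo | m ∈ LimG T nx t ∧ (m.app '' P.region ∩ Metric.closedBall 0 r).Nonempty}.Finite := by
  classical
  rcases lt_or_ge r 0 with hr | hr
  · have : {m : Mo | m ∈ LimG T nx t ∧ (m.app '' P.region ∩ Metric.closedBall 0 r).Nonempty} = ∅ := by
      simp [Metric.closedBall_eq_empty.2 hr]
    rw [this]
    exact Set.finite_empty
  by_contra hinf
  obtain ⟨N, hN⟩ := exists_nat_gt (Real.pi * (r + P.dm) ^ 2 / (volume P.region).toReal)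
  obtain ⟨F, hF, hcard⟩ := Set.Infinite.exists_subset_card_eq hinf N
  obtain ⟨M, hM⟩ := limG_finset T nx t F fun m hm => (hF hm).1
  obtain ⟨k, hk⟩ := hM.exists
  have : Nonempty ι := ⟨t 0⟩
  choose! s hs1 hs2 using hk
  have h1 : F.card ≤ ((T k).meets r).ncard := by
    rw [← Set.ncard_coe_finset]
    refine Set.ncard_le_ncard_of_injOn s ?_ ?_ ((T k).meets_finite r)
    · intro m hm
      have h2 := (hF hm).2
      change (((T k).g (s m)).app '' P.region ∩ Metric.closedBall 0 r).Nonempty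
      rw [hs2 m hm]
      exact h2
    · intro m hm m' hm' e
      rw [← hs2 m hm, ← hs2 m' hm', e]
  have h2 := (T k).count_le hr
  rw [hcard] at h1
  rw [div_lt_iff₀ P.volume_pos] at hN
  have h3 : (N : ℝ) ≤ ((T k).meets r).ncard := by exact_mod_cast h1
  have h4 := mul_le_mul_of_nonneg_right h3 P.volume_pos.le
  linarith

/-- the tiles of the limit cover the plane -/
theorem limG_cover (hc : P.CCW) (hnx : ∀ k c, (T k).Step c (nx c)) (D : ℕ) (hD0 : 0 < D)
    (hD : ∀ c, Function.minimalPeriod nx c ≤ D) (m0 : Mo) (h0 : ∀ k, (T k).g (t k) = m0) (z : ℂ) :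
    ∃ m ∈ LimG T nx t, z ∈ m.app '' P.region := by
  have : NeZero n := ⟨by have := P.three_le; omega⟩
  obtain ⟨U, hU⟩ : ∃ U : Set ℂ, U = ⋃ m : LimG T nx t, (m : Mo).app '' P.region := ⟨_, rfl⟩
  have hne : U.Nonempty := by
    have h1 : m0 ∈ LimG T nx t :=
      ⟨0, Filter.Eventually.of_forall fun k => ⟨t k, rfl, h0 k⟩⟩
    obtain ⟨p, hp⟩ : P.region.Nonempty := by
      by_contra h
      rw [Set.not_nonempty_iff_eq_empty] at h
      have h2 := P.volume_pos
      rw [h] at h2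
      simp at h2
    refine ⟨m0.app p, ?_⟩
    rw [hU]
    exact Set.mem_iUnion.2 ⟨⟨m0, h1⟩, p, hp, rfl⟩
  have hop : IsOpen U := by
    rw [Metric.isOpen_iff]
    intro x hx
    rw [hU] at hx
    obtain ⟨m, hm⟩ := Set.mem_iUnion.1 hx
    obtain ⟨ρ, hρ, h1⟩ := limG_open T nx t hc hnx D hD0 hD m.2 hm
    refine ⟨ρ, hρ, fun w hw => ?_⟩
    rw [Metric.mem_ball, dist_eq_norm] at hw
    obtain ⟨m', hm', h2⟩ := h1 w hw
    rw [hU]
    exact Set.mem_iUnion.2 ⟨⟨m', hm'⟩, h2⟩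
  have hcl : IsClosed U := by
    rw [hU]
    refine LocallyFinite.isClosed_iUnion ?_ ?_
    · intro x
      refine ⟨Metric.closedBall 0 (‖x‖ + 1), ?_, ?_⟩
      · refine Filter.mem_of_superset (Metric.ball_mem_nhds x one_pos) ?_
        intro w hw
        rw [Metric.mem_ball, dist_eq_norm] at hw
        rw [Metric.mem_closedBall, dist_zero_right]
        have h1 := norm_add_le (w - x) x
        rw [sub_add_cancel] at h1
        linarith
      · have h1 := (limG_finite T nx t (‖x‖ + 1)).preimage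
          (Subtype.val_injective (p := fun m => m ∈ LimG T nx t)).injOn
        refine h1.subset ?_
        intro m hm
        exact ⟨m.2, hm⟩
    · intro m
      have h1 : IsCompact P.region := by
        exact Metric.isCompact_of_isClosed_isBounded P.region_closed P.region_bounded
      exact (h1.image ((m : Mo).iso.continuous)).isClosed
  have huniv : U = univ := IsClopen.eq_univ ⟨hcl, hop⟩ hne
  have hz : z ∈ U := by
    rw [huniv]
    exact mem_univ z
  rw [hU] at hz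
  obtain ⟨m, hm⟩ := Set.mem_iUnion.1 hz
  exact ⟨m, m.2, hm⟩

/-- the limit tiling -/
theorem exists_limit (hc : P.CCW) (hnx : ∀ k c, (T k).Step c (nx c)) (D : ℕ) (hD0 : 0 < D)
    (hD : ∀ c, Function.minimalPeriod nx c ≤ D) (m0 : Mo) (h0 : ∀ k, (T k).g (t k) = m0) :
    ∃ T' : Til P (LimG T nx t), ∀ m, T'.g m = m := by
  refine ⟨{
    g := Subtype.val
    cover := fun z => ?_
    disj := ?_
    e2e := ?_ }, fun m => rfl⟩
  · obtain ⟨m, hm, h1⟩ := limG_cover T nx t hc hnx D hD0 hD m0 h0 z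
    exact ⟨⟨m, hm⟩, h1⟩
  · intro m m' hne
    obtain ⟨N, hN⟩ := m.2
    obtain ⟨N', hN'⟩ := m'.2
    obtain ⟨k, ⟨s, -, hs⟩, s', -, hs'⟩ := (hN.and hN').exists
    have h1 : s ≠ s' := by
      rintro rfl
      exact hne (Subtype.ext (hs.symm.trans hs'))
    have h2 := (T k).disj s s' h1
    rw [hs, hs'] at h2
    exact h2
  · intro m m' i j
    obtain ⟨N, hN⟩ := m.2
    obtain ⟨N', hN'⟩ := m'.2
    obtain ⟨k, ⟨s, -, hs⟩, s', -, hs'⟩ := (hN.and hN').exists
    have h2 := (T k).e2e s s' i j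
    rw [hs, hs'] at h2
    exact h2

end

end Pool.Agent.Lib_MP_fa6e45
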