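import Pool.Agent.Lib_MP_fa6e45.EQ4
import Pool.Agent.Lib_MP_fa6e45.CU9
import Pool.Agent.Lib_MP_fa6e45.R

/-!
MP_fa6e45_co: a polygon with an edge-to-edge tiling which has exactly six corners which are not complementary has an
edge-to-edge tiling in which exactly two tiles meet at every complementary corner and no other corner coincides with a
complementary corner; hence it has a periodic tiling.
-/

open Set MeasureTheory Complex Filter
open scoped Topology

namespace Pool.Agent.Lib_MP_fa6e45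

open Pool.Agent.Lib_PL (cr InSector Poly)

variable {n : ℕ} {P : Polygon n} {ι : Type}

/-- good parts of every size: a tiling which is good everywhere -/
theorem exists_good_til (hc : P.CCW) (T : Til P ι) (nx : Equiv.Perm (ι × ZMod n)) (hnx : ∀ c, T.Step c (nx c))
    (M : Finset (ZMod n)) (D : ℕ) (hD0 : 0 < D) (hD : ∀ c, Function.minimalPeriod nx c ≤ D)
    (h : ∀ N, ∃ t, ∀ s, NearP nx N t s → ∀ i, (∀ y, T.vx y = T.vx (s, i) → (y.2 ∈ M ↔ i ∈ M)) ∧
      (i ∉ M → (T.star (T.vx (s, i))).ncard ≤ 2)) :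
    ∃ (ι' : Type) (T' : Til P ι'), (∀ x y, T'.vx y = T'.vx x → (y.2 ∈ M ↔ x.2 ∈ M)) ∧
      ∀ x, x.2 ∉ M → (T'.star (T'.vx x)).ncard ≤ 2 := by
  classical
  -- all base tiles of the same kind
  obtain ⟨r, hr⟩ : ∃ r : Bool, ∀ N, ∃ t, T.rf t = r ∧ ∀ s, NearP nx N t s → ∀ i,
      (∀ y, T.vx y = T.vx (s, i) → (y.2 ∈ M ↔ i ∈ M)) ∧ (i ∉ M → (T.star (T.vx (s, i))).ncard ≤ 2) := by
    by_contra hcon
    push Not at hcon
    obtain ⟨N₁, h₁⟩ := hcon false
    obtain ⟨N₂, h₂⟩ := hcon true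
    obtain ⟨t, ht⟩ := h (max N₁ N₂)
    cases hrf : T.rf t
    · obtain ⟨s, hs, i, hi⟩ := h₁ t hrf
      obtain ⟨h3, h4⟩ := ht s (nearP_mono nx (le_max_left _ _) hs) i
      obtain ⟨h5, h6⟩ := hi h3
      have := h4 h5
      omega
    · obtain ⟨s, hs, i, hi⟩ := h₂ t hrf
      obtain ⟨h3, h4⟩ := ht s (nearP_mono nx (le_max_right _ _) hs) i
      obtain ⟨h5, h6⟩ := hi h3
      have := h4 h5
      omega
  choose t ht1 ht2 using hr
  obtain ⟨hm, hhm⟩ : ∃ hm : ℕ → Mo, ∀ k, hm k = ⟨(starRingEnd ℂ) (T.g (t k)).a,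
      -((starRingEnd ℂ) (T.g (t k)).a * (T.g (t k)).b), false, by
        rw [RCLike.norm_conj]
        exact (T.g (t k)).ha⟩ := ⟨_, fun _ => rfl⟩
  have hmrf : ∀ k, (hm k).rf = false := fun k => by rw [hhm]
  have h0 : ∀ k, (T.move (hm k)).g (t k) = ⟨1, 0, r, norm_one⟩ := by
    intro k
    have h1 := (T.g (t k)).a_conj
    have h2 : (T.g (t k)).rf = r := ht1 k
    have h3 : (0 : ℂ) ≠ 1 := zero_ne_one
    refine Mo.eq_of_two ?_ h3 ?_ ?_
    · change ((hm k).rf != (T.g (t k)).rf) = r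
      rw [hmrf, h2]
      cases r <;> rfl
    · rw [T.move_g, Mo.mul_app, hhm]
      generalize T.g (t k) = g at *
      obtain ⟨a, b, rf, ha⟩ := g
      simp only at h1 h2
      subst h2
      cases rf <;> simp [Mo.app, Mo.lin]
    · rw [T.move_g, Mo.mul_app, hhm]
      generalize T.g (t k) = g at *
      obtain ⟨a, b, rf, ha⟩ := g
      simp only at h1 h2
      subst h2
      cases rf <;> simp [Mo.app, Mo.lin] <;> linear_combination h1
  obtain ⟨T', hT'⟩ := exists_limit (fun k => T.move (hm k)) nx t hc (fun k c => T.move_step (hmrf k) (hnx c))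
    D hD0 hD ⟨1, 0, r, norm_one⟩ h0
  -- finitely many tiles of the limit occur together in a good part
  have key : ∀ F : Finset Mo, (∀ m ∈ F, m ∈ LimG (fun k => T.move (hm k)) nx t) →
      ∃ k, ∀ m ∈ F, ∃ s, NearP nx k (t k) s ∧ (hm k).mul (T.g s) = m := by
    intro F hF
    obtain ⟨N, hN⟩ := limG_finset _ nx t F hF
    have h1 : ∀ᶠ k in (hyperfilter ℕ : Filter ℕ), N ≤ k :=
      Nat.hyperfilter_le_atTop (Filter.eventually_ge_atTop N)
    obtain ⟨k, hk, hNk⟩ := (hN.and h1).exists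
    refine ⟨k, fun m hm => ?_⟩
    obtain ⟨s, h2, h3⟩ := hk m hm
    exact ⟨s, nearP_mono nx hNk h2, h3⟩
  have hvx : ∀ (k : ℕ) (s : ι) (x : LimG (fun k => T.move (hm k)) nx t × ZMod n), (hm k).mul (T.g s) = x.1 →
      T'.vx x = (hm k).app (T.vx (s, x.2)) := by
    intro k s x hx
    change (T'.g x.1).app (P.vertex x.2) = (hm k).app ((T.g s).app (P.vertex x.2))
    rw [hT', ← hx, Mo.mul_app]
  refine ⟨_, T', ?_, ?_⟩
  · intro x y hxy
    obtain ⟨k, hk⟩ := key {x.1.1, y.1.1} (by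
      intro m hm
      rw [Finset.mem_insert, Finset.mem_singleton] at hm
      rcases hm with rfl | rfl
      · exact x.1.2
      · exact y.1.2)
    obtain ⟨s, hs1, hs2⟩ := hk x.1.1 (by simp)
    obtain ⟨s', hs1', hs2'⟩ := hk y.1.1 (by simp)
    rw [hvx k s x hs2, hvx k s' y hs2'] at hxy
    exact (ht2 k s hs1 x.2).1 (s', y.2) ((hm k).app_injective hxy)
  · intro x hx
    by_contra hlt
    push Not at hlt
    obtain ⟨a, b, c, ha, hb, hc', hab, hac, hbc⟩ := (Set.two_lt_ncard_iff (T'.star_finite _)).1 hlt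
    obtain ⟨k, hk⟩ := key {x.1.1, a.1.1, b.1.1, c.1.1} (by
      intro m hm
      simp only [Finset.mem_insert, Finset.mem_singleton] at hm
      rcases hm with rfl | rfl | rfl | rfl
      · exact x.1.2
      · exact a.1.2
      · exact b.1.2
      · exact c.1.2)
    obtain ⟨s, hs1, hs2⟩ := hk x.1.1 (by simp)
    obtain ⟨sa, -, hsa⟩ := hk a.1.1 (by simp)
    obtain ⟨sb, -, hsb⟩ := hk b.1.1 (by simp)
    obtain ⟨sc, -, hsc⟩ := hk c.1.1 (by simp)
    have h1 := (ht2 k s hs1 x.2).2 hx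
    have hmem : ∀ (u : ι) (d : LimG (fun k => T.move (hm k)) nx t × ZMod n), (hm k).mul (T.g u) = d.1 →
        d ∈ T'.star (T'.vx x) → (u, d.2) ∈ T.star (T.vx (s, x.2)) := by
      intro u d hu hd
      have h2 : T'.vx d = T'.vx x := hd
      rw [hvx k s x hs2, hvx k u d hu] at h2
      exact (hm k).app_injective h2
    have hne : ∀ (u u' : ι) (d d' : LimG (fun k => T.move (hm k)) nx t × ZMod n), (hm k).mul (T.g u) = d.1 →
        (hm k).mul (T.g u') = d'.1 → d ≠ d' → ((u, d.2) : ι × ZMod n) ≠ (u', d'.2) := by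
      intro u u' d d' hu hu' hd he
      rw [Prod.mk.injEq] at he
      obtain ⟨rfl, he2⟩ := he
      exact hd (Prod.ext (Subtype.ext (hu.symm.trans hu')) he2)
    have h3 : 2 < (T.star (T.vx (s, x.2))).ncard :=
      (Set.two_lt_ncard_iff (T.star_finite _)).2 ⟨(sa, a.2), (sb, b.2), (sc, c.2), hmem _ _ hsa ha,
        hmem _ _ hsb hb, hmem _ _ hsc hc', hne _ _ _ _ hsa hsb hab, hne _ _ _ _ hsa hsc hac,
        hne _ _ _ _ hsb hsc hbc⟩
    omega

/-- exactly six corners are not complementary, combinatorial part: a star with a small sum -/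
private theorem EQ5_star [NeZero n] {a l : ZMod n → ℝ} (K : CombA n a l ι) (M : Finset (ZMod n))
    (hM : ∀ i, i ∈ M ↔ ¬ ∃ j, Compl a l i j) (v : ZMod n → ℝ) (hv1 : ∀ i, i ∈ M → v i = 1)
    (hv2 : ∀ i, i ∉ M → v i = 3 / 2) (c : ι × ZMod n) :
    3 ≤ ∑ k ∈ Finset.range (K.toComb.deg c), v ((K.nx^[k] c).2) ∧
      (∑ k ∈ Finset.range (K.toComb.deg c), v ((K.nx^[k] c).2) < 3 + 1 / 2 →
        (K.toComb.deg c = 2 ∧ ∀ k < K.toComb.deg c, (K.nx^[k] c).2 ∉ M) ∨
          ∀ k < K.toComb.deg c, (K.nx^[k] c).2 ∈ M) := by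
  have h2 : 2 ≤ K.toComb.deg c := K.toComb.two_le c
  have hv3 : ∀ i, 1 ≤ v i := by
    intro i
    by_cases hi : i ∈ M
    · rw [hv1 i hi]
    · rw [hv2 i hi]
      norm_num
  rcases h2.eq_or_lt with h3 | h3
  · -- degree two
    have h4 := K.toComb.deg_two c h3.symm
    have h5 : c.2 ∉ M := by
      rw [hM]
      push Not
      exact ⟨_, h4⟩
    have h6 : (K.nx c).2 ∉ M := by
      rw [hM]
      push Not
      refine ⟨c.2, h4.1.symm, ?_, ?_⟩
      · rw [add_comm]
        exact h4.2.1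
      · rcases h4.2.2 with ⟨g1, g2⟩ | ⟨g1, g2⟩
        · exact Or.inl ⟨g1.symm, g2.symm⟩
        · exact Or.inr ⟨g2.symm, g1.symm⟩
    rw [← h3]
    simp only [Finset.sum_range_succ, Finset.sum_range_zero, Function.iterate_succ_apply',
      Function.iterate_zero_apply, zero_add]
    rw [hv2 _ h5, hv2 _ h6]
    refine ⟨by norm_num, fun _ => Or.inl ⟨trivial, ?_⟩⟩
    intro k hk
    have hk' : k = 0 ∨ k = 1 := by omega
    rcases hk' with rfl | rfl
    · exact h5
    · exact h6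
  · have h4 := Finset.card_nsmul_le_sum (Finset.range (K.toComb.deg c))
      (fun k => v (K.nx^[k] c).2) 1 (fun k _ => hv3 _)
    rw [Finset.card_range, nsmul_eq_mul, mul_one] at h4
    have h5 : (3 : ℝ) ≤ K.toComb.deg c := by exact_mod_cast h3
    refine ⟨h5.trans h4, fun hlt => Or.inr fun k hk => ?_⟩
    by_contra hkM
    have h6 : ∑ j ∈ Finset.range (K.toComb.deg c), (1 + if j = k then (1 / 2 : ℝ) else 0) ≤
        ∑ j ∈ Finset.range (K.toComb.deg c), v ((K.nx^[j] c).2) := by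
      refine Finset.sum_le_sum fun j _ => ?_
      split_ifs with hj
      · rw [hj, hv2 _ hkM]
        norm_num
      · rw [add_zero]
        exact hv3 _
    rw [Finset.sum_add_distrib, Finset.sum_const, Finset.card_range, nsmul_eq_mul, mul_one,
      Finset.sum_ite_eq' _ k, if_pos (Finset.mem_range.2 hk)] at h6
    linarith

/-- a polygon with an edge-to-edge tiling which has exactly six corners which are not complementary -/
theorem six_ccw (c3 : ∀ x ∈ tabT3, NodeU 3 (decW 3 x) [])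
    (c4 : ∀ x ∈ tabT4, NodeU 4 (decW 4 x) []) (c5 : ∀ x ∈ tabT5, NodeU 5 (decW 5 x) [])
    (c6 : ∀ x ∈ tabT6, NodeU 6 (decW 6 x) []) (P : Polygon n) (hc : P.CCW) (hn : 7 ≤ n)
    {𝒮 : Set (Set ℂ)} (h : P.IsTiling 𝒮) (he : P.EdgeToEdge 𝒮)
    (h6 : {i : ZMod n | ¬ P.Complementary i}.ncard = 6) :
    ∃ 𝒯 : Set (Set ℂ), P.IsTiling 𝒯 ∧ Periodic 𝒯 := by
  classical
  have : NeZero n := ⟨by omega⟩
  obtain ⟨T⟩ := exists_til P h he
  obtain ⟨K, hK, hx⟩ := T.combW hc
  obtain ⟨M, hM⟩ : ∃ M : Finset (ZMod n), M = Finset.univ.filter fun i => ¬ ∃ j, Compl P.ang P.len i j :=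
    ⟨_, rfl⟩
  have hMi : ∀ i, i ∈ M ↔ ¬ ∃ j, Compl P.ang P.len i j := by
    intro i
    rw [hM, Finset.mem_filter]
    simp
  have hcard : M.card = 6 := by
    have h2 : {i : ZMod n | ¬ P.Complementary i} = (M : Set (ZMod n)) := by
      ext i
      rw [Finset.mem_coe, hMi]
      simp only [mem_ofPred_eq]
      have h3 : P.Complementary i ↔ ∃ j, Compl P.ang P.len i j := by
        unfold Polygon.Complementary Compl
        simp only [Polygon.angle_eq hc]
      rw [h3]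
    rwa [h2, Set.ncard_coe_finset] at h6
  obtain ⟨v, hv⟩ : ∃ v : ZMod n → ℝ, ∀ i, v i = 3 / 2 - (if i ∈ M then (1 / 2 : ℝ) else 0) := ⟨_, fun _ => rfl⟩
  have hv1 : ∀ i, i ∈ M → v i = 1 := by
    intro i hi
    rw [hv, if_pos hi]
    norm_num
  have hv2 : ∀ i, i ∉ M → v i = 3 / 2 := by
    intro i hi
    rw [hv, if_neg hi]
    norm_num
  have hsum : 2 * ∑ i, v i = ((n : ℝ) - 2) * 3 := by
    rw [Finset.sum_congr rfl fun i _ => hv i, Finset.sum_sub_distrib, Finset.sum_const, Finset.card_univ,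
      ZMod.card, ← Finset.sum_filter, Finset.sum_const, Finset.filter_mem_eq_inter, Finset.univ_inter, hcard]
    simp only [nsmul_eq_mul]
    push_cast
    ring
  obtain ⟨D, hD0, hD⟩ := K.toComb.deg_bdd
  obtain ⟨ι', T', hT1, hT2⟩ := exists_good_til hc T K.nx hx M D hD0 hD (by
    intro N
    obtain ⟨t, ht⟩ := K.exists_tight v 3 (1 / 2) (by norm_num) hsum
      (fun c => (EQ5_star K M hMi v hv1 hv2 c).1) N
    refine ⟨t, fun s hs i => ?_⟩
    have h1 := (EQ5_star K M hMi v hv1 hv2 (s, i)).2 (ht s hs i)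
    have hpos : 0 < K.toComb.deg (s, i) := K.toComb.deg_pos _
    constructor
    · intro y hy
      obtain ⟨k, hk, e⟩ := T.orbit hc K.nx hx hy
      have hk' : k < K.toComb.deg (s, i) := hk
      rcases h1 with ⟨-, h1⟩ | h1
      · have h2 := h1 k hk'
        have h3 := h1 0 hpos
        rw [e] at h2
        exact ⟨fun h4 => absurd h4 h2, fun h4 => absurd h4 h3⟩
      · have h2 := h1 k hk'
        have h3 := h1 0 hpos
        rw [e] at h2
        exact ⟨fun _ => h3, fun _ => h2⟩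
    · intro hi
      rcases h1 with ⟨h1, -⟩ | h1
      · rw [← hK, h1]
      · exact absurd (h1 0 hpos) hi)
  obtain ⟨K', hK', hx'⟩ := T'.combV hc
  refine hom_periodicU c3 c4 c5 c6 hc hn K' M hcard.le (fun x => hT1 _ _ (hx' x)) (fun x hx2 => ?_)
  have h2 : 2 ≤ K'.toComb.deg x := K'.toComb.two_le x
  have h3 := hT2 x hx2
  rw [← hK'] at h3
  omega

end Pool.Agent.Lib_MP_fa6e45
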