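import Pool.Agent.Lib_MP_fa6e45.EQ5

/-!
MP_fa6e45_co: exactly six corners which are not complementary, either orientation.
-/

open Set MeasureTheory Complex
open scoped Topology

namespace Pool.Agent.Lib_MP_fa6e45

variable {n : ℕ}

/-- a polygon with an edge-to-edge tiling: at most five corners are not complementary, or exactly six and there is a
periodic tiling; the certificates and the case of at most six corners are hypotheses -/
theorem six_thm (c3 : ∀ x ∈ tabT3, NodeU 3 (decW 3 x) [])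
    (c4 : ∀ x ∈ tabT4, NodeU 4 (decW 4 x) []) (c5 : ∀ x ∈ tabT5, NodeU 5 (decW 5 x) [])
    (c6 : ∀ x ∈ tabT6, NodeU 6 (decW 6 x) []) (P : Polygon n) {𝒮 : Set (Set ℂ)}
    (h : P.IsTiling 𝒮) (he : P.EdgeToEdge 𝒮)
    (hk : n ≤ 6 → ∃ 𝒯 : Set (Set ℂ), P.IsTiling 𝒯 ∧ Periodic 𝒯) :
    {i : ZMod n | ¬ P.Complementary i}.ncard ≤ 5 ∨
      ({i : ZMod n | ¬ P.Complementary i}.ncard = 6 ∧ ∃ 𝒯 : Set (Set ℂ), P.IsTiling 𝒯 ∧ Periodic 𝒯) := by
  have h1 := (main_thm P h he).1
  rcases Nat.lt_or_ge {i : ZMod n | ¬ P.Complementary i}.ncard 6 with h2 | h2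
  · exact Or.inl (by omega)
  have h6 : {i : ZMod n | ¬ P.Complementary i}.ncard = 6 := le_antisymm h1 h2
  refine Or.inr ⟨h6, ?_⟩
  rcases Nat.lt_or_ge n 7 with hn | hn
  · exact hk (by omega)
  rcases P.ccw_or with hc | hc
  · exact six_ccw c3 c4 c5 c6 P hc hn h he h6
  have hT : ∀ 𝒯 : Set (Set ℂ), P.rev.IsTiling 𝒯 ↔ P.IsTiling 𝒯 := by
    intro 𝒯
    constructor
    · rintro ⟨h1, h2, h3⟩
      exact ⟨fun t ht => by simpa only [P.rev_region] using h1 t ht, h2, h3⟩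
    · rintro ⟨h1, h2, h3⟩
      exact ⟨fun t ht => by simpa only [P.rev_region] using h1 t ht, h2, h3⟩
  have hE : P.rev.EdgeToEdge 𝒮 := by
    intro g k hg hk i j
    rw [P.rev_region] at hg hk
    have h1 := he g k hg hk (-i) (-j - 1)
    rw [openSegment_symm] at h1
    have e1 : -j - 1 + 1 = -j := by ring
    have e2 : -(j + 1) = -j - 1 := by ring
    rw [e1] at h1
    change g (P.vertex (-i)) ∉ openSegment ℝ (k (P.vertex (-j))) (k (P.vertex (-(j + 1))))
    rw [e2]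
    exact h1
  have h3 : ∀ i, P.rev.Complementary i ↔ P.Complementary (-i) := by
    intro i
    unfold Polygon.Complementary
    simp only [P.rev_angle, P.rev_len]
    have e1 : ∀ k : ZMod n, -(k - 1) - 1 = -k := fun k => by ring
    constructor
    · rintro ⟨j, hj, h4, h5⟩
      refine ⟨-j, fun h => hj (neg_injective h), h4, ?_⟩
      simp only [e1] at h5
      rcases h5 with ⟨h5, h6⟩ | ⟨h5, h6⟩
      · exact Or.inl ⟨h6, h5⟩
      · exact Or.inr ⟨h6, h5⟩
    · rintro ⟨j, hj, h4, h5⟩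
      refine ⟨-j, fun h => hj (by rw [← h, neg_neg]), by rw [neg_neg]; exact h4, ?_⟩
      simp only [e1, neg_neg]
      rcases h5 with ⟨h5, h6⟩ | ⟨h5, h6⟩
      · exact Or.inl ⟨h6, h5⟩
      · exact Or.inr ⟨h6, h5⟩
  have h4 : {i : ZMod n | ¬ P.rev.Complementary i} =
      (fun i => -i) '' {i : ZMod n | ¬ P.Complementary i} := by
    ext i
    simp only [mem_ofPred_eq, mem_image, h3]
    constructor
    · intro h
      exact ⟨-i, h, neg_neg i⟩
    · rintro ⟨j, hj, rfl⟩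
      rwa [neg_neg]
  have h5 : {i : ZMod n | ¬ P.rev.Complementary i}.ncard = 6 := by
    rw [h4, ncard_image_of_injective _ neg_injective]
    exact h6
  obtain ⟨𝒯, g1, g2⟩ := six_ccw c3 c4 c5 c6 P.rev hc hn ((hT 𝒮).2 h) hE h5
  exact ⟨𝒯, (hT 𝒯).1 g1, g2⟩

end Pool.Agent.Lib_MP_fa6e45
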