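import Pool.Agent.Lib_MP_fa6e45.EQ5

/-!
MP_fa6e45_co: tilings in which reflex corners outside a set `M` of corners meet exactly one other tile, never at a corner
in `M`, and in which at most half of the corners outside `M` are convex: by averaging the convex corners outside `M` meet
exactly one other tile, at a reflex corner outside `M`, in large parts of the tiling, and hence in the limit tiling
everywhere.
-/

open Set MeasureTheory Complex Filter
open scoped Topology

namespace Pool.Agent.Lib_MP_fa6e45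

open Pool.Agent.Lib_PL (cr InSector Poly)

variable {n : ℕ} {P : Polygon n} {ι : Type}

/-- weights which are tight only at stars inside `M` and at stars of two corners outside `M` -/
theorem tight_periodic [NeZero n] (c3 : ∀ x ∈ tabT3, NodeU 3 (decW 3 x) [])
    (c4 : ∀ x ∈ tabT4, NodeU 4 (decW 4 x) []) (c5 : ∀ x ∈ tabT5, NodeU 5 (decW 5 x) [])
    (c6 : ∀ x ∈ tabT6, NodeU 6 (decW 6 x) []) (hc : P.CCW) (hn : 7 ≤ n) (T : Til P ι)
    (K : CombA n P.ang P.len ι) (hK : ∀ c, K.toComb.deg c = (T.star (T.vx c)).ncard)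
    (hx : ∀ c, T.Step c (K.nx c)) (M : Finset (ZMod n)) (h6 : M.card ≤ 6) (v : ZMod n → ℝ) (L κ : ℝ)
    (hκ : 0 < κ) (hv : 2 * ∑ i, v i = ((n : ℝ) - 2) * L)
    (hs : ∀ c, L ≤ ∑ k ∈ Finset.range (K.toComb.deg c), v ((K.nx^[k] c).2))
    (ht : ∀ c, ∑ k ∈ Finset.range (K.toComb.deg c), v ((K.nx^[k] c).2) < L + κ →
      (K.toComb.deg c = 2 ∧ ∀ k < K.toComb.deg c, (K.nx^[k] c).2 ∉ M) ∨
        ∀ k < K.toComb.deg c, (K.nx^[k] c).2 ∈ M) : HasPeriodic P := by
  classical
  obtain ⟨D, hD0, hD⟩ := K.toComb.deg_bdd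
  obtain ⟨ι', T', hT1, hT2⟩ := exists_good_til hc T K.nx hx M D hD0 hD (by
    intro N
    obtain ⟨t, htt⟩ := K.exists_tight v L κ hκ hv hs N
    refine ⟨t, fun s hs' i => ?_⟩
    have h1 := ht (s, i) (htt s hs' i)
    have hpos : 0 < K.toComb.deg (s, i) := K.toComb.deg_pos _
    constructor
    · intro y hy
      obtain ⟨k, hk, e⟩ := T.orbit hc K.nx hx hy
      have hk' : k < K.toComb.deg (s, i) := hk
      rcases h1 with ⟨-, h1⟩ | h1
      · have h2 := h1 k hk'
        have h3 := h1 0 hpos
        rw [e] at h2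
        exact ⟨fun h4 => absurd h4 h2, fun h4 => absurd h4 h3⟩
      · have h2 := h1 k hk'
        have h3 := h1 0 hpos
        rw [e] at h2
        exact ⟨fun _ => h3, fun _ => h2⟩
    · intro hi
      rcases h1 with ⟨h1, -⟩ | h1
      · rw [← hK, h1]
      · exact absurd (h1 0 hpos) hi)
  obtain ⟨K', hK', hx'⟩ := T'.combV hc
  refine hom_periodicU c3 c4 c5 c6 hc hn K' M h6 (fun x => hT1 _ _ (hx' x)) (fun x hx2 => ?_)
  have h2 : 2 ≤ K'.toComb.deg x := K'.toComb.two_le x
  have h3 := hT2 x hx2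
  rw [← hK'] at h3
  omega

/-- the combinatorial form: reflex corners outside `M` have degree two and do not meet `M`, at most half of the corners
outside `M` are convex, and `M` has at most six elements or all reflex corners in `M` have degree at least three -/
theorem reflex_periodic [NeZero n] (c3 : ∀ x ∈ tabT3, NodeU 3 (decW 3 x) [])
    (c4 : ∀ x ∈ tabT4, NodeU 4 (decW 4 x) []) (c5 : ∀ x ∈ tabT5, NodeU 5 (decW 5 x) [])
    (c6 : ∀ x ∈ tabT6, NodeU 6 (decW 6 x) []) (hc : P.CCW) (hn : 7 ≤ n) (T : Til P ι)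
    (K : CombA n P.ang P.len ι) (hK : ∀ c, K.toComb.deg c = (T.star (T.vx c)).ncard)
    (hx : ∀ c, T.Step c (K.nx c)) (M X Y : Finset (ZMod n))
    (hX : ∀ i, i ∈ X ↔ i ∉ M ∧ Real.pi < P.ang i) (hY : ∀ i, i ∈ Y ↔ i ∉ M ∧ P.ang i < Real.pi)
    (h1 : ∀ c : ι × ZMod n, c.2 ∈ X → K.toComb.deg c = 2)
    (h2 : ∀ c : ι × ZMod n, c.2 ∈ X → (K.nx c).2 ∉ M)
    (h3 : Y.card ≤ X.card ∨ ∀ c : ι × ZMod n, c.2 ∉ M → K.toComb.deg c = 2 ∧ (K.nx c).2 ∉ M)
    (h4 : M.card ≤ 6 ∨ ∀ c : ι × ZMod n, c.2 ∈ M → Real.pi < P.ang c.2 → 3 ≤ K.toComb.deg c) :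
    HasPeriodic P := by
  classical
  have htri : ∀ i, i ∈ M ∨ i ∈ X ∨ i ∈ Y := by
    intro i
    by_cases hi : i ∈ M
    · exact Or.inl hi
    · rcases lt_or_gt_of_ne (K.a_ne i) with h5 | h5
      · exact Or.inr (Or.inr ((hY i).2 ⟨hi, h5⟩))
      · exact Or.inr (Or.inl ((hX i).2 ⟨hi, h5⟩))
  have hXY : ∀ i, i ∈ X → i ∉ Y := by
    intro i h5 h6
    have h7 := ((hX i).1 h5).2
    have h8 := ((hY i).1 h6).2
    linarith
  have hXM : ∀ i, i ∈ X → i ∉ M := fun i h5 => ((hX i).1 h5).1
  have hYM : ∀ i, i ∈ Y → i ∉ M := fun i h5 => ((hY i).1 h5).1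
  have hper : ∀ c, K.nx^[K.toComb.deg c] c = c := fun c => Function.iterate_minimalPeriod
  -- a star with a corner in `X` consists of this corner and a corner in `Y`
  have hsum2 : ∀ c : ι × ZMod n, K.toComb.deg c = 2 → P.ang c.2 + P.ang (K.nx c).2 = 2 * Real.pi :=
    fun c h5 => (K.toComb.deg_two c h5).2.1
  have hXs : ∀ c : ι × ZMod n, c.2 ∈ X → (K.nx c).2 ∈ Y := by
    intro c h5
    have h6 := hsum2 c (h1 c h5)
    have h7 := ((hX _).1 h5).2
    exact (hY _).2 ⟨h2 c h5, by linarith⟩
  have hdnx : ∀ c : ι × ZMod n, K.toComb.deg (K.nx c) = K.toComb.deg c := by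
    intro c
    unfold Comb.deg
    exact Function.minimalPeriod_apply (Function.mk_mem_periodicPts (K.toComb.deg_pos c)
      (Function.isPeriodicPt_minimalPeriod _ _))
  have hdit : ∀ (c : ι × ZMod n) (k : ℕ), K.toComb.deg (K.nx^[k] c) = K.toComb.deg c := by
    intro c k
    induction k with
    | zero => rfl
    | succ k ih => rw [Function.iterate_succ_apply', hdnx, ih]
  -- the two possible shapes of a star
  have hshape : ∀ c : ι × ZMod n, (K.toComb.deg c = 2 ∧
      ((c.2 ∈ X ∧ (K.nx c).2 ∈ Y) ∨ (c.2 ∈ Y ∧ (K.nx c).2 ∈ X))) ∨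
      ∀ k < K.toComb.deg c, (K.nx^[k] c).2 ∉ X := by
    intro c
    by_cases h5 : ∀ k < K.toComb.deg c, (K.nx^[k] c).2 ∉ X
    · exact Or.inr h5
    push Not at h5
    obtain ⟨k, hk, h6⟩ := h5
    have h7 : K.toComb.deg c = 2 := by
      rw [← hdit c k]
      exact h1 _ h6
    refine Or.inl ⟨h7, ?_⟩
    have hk' : k = 0 ∨ k = 1 := by omega
    rcases hk' with rfl | rfl
    · exact Or.inl ⟨h6, hXs c h6⟩
    · refine Or.inr ⟨?_, h6⟩
      have h8 := hXs _ h6
      have h9 := hper c
      rw [h7] at h9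
      have e : K.nx (K.nx^[1] c) = c := h9
      rwa [e] at h8
  -- the weights
  obtain ⟨v, hv⟩ : ∃ v : ZMod n → ℝ, ∀ i, v i = (if i ∈ Y then (1 : ℝ) else 0) - (if i ∈ X then (1 : ℝ) else 0) :=
    ⟨_, fun _ => rfl⟩
  have hvX : ∀ i, i ∈ X → v i = -1 := by
    intro i hi
    rw [hv, if_pos hi, if_neg (hXY i hi)]
    norm_num
  have hvY : ∀ i, i ∈ Y → v i = 1 := by
    intro i hi
    rw [hv, if_pos hi, if_neg fun h => hXY i h hi]
    norm_num
  have hv0 : ∀ i, i ∉ X → 0 ≤ v i := by
    intro i hi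
    rw [hv, if_neg hi]
    split_ifs <;> norm_num
  have hvs : ∑ i, v i = (Y.card : ℝ) - X.card := by
    rw [Finset.sum_congr rfl fun i _ => hv i, Finset.sum_sub_distrib, ← Finset.sum_filter,
      ← Finset.sum_filter, Finset.sum_const, Finset.sum_const, Finset.filter_mem_eq_inter,
      Finset.filter_mem_eq_inter, Finset.univ_inter, Finset.univ_inter]
    simp only [nsmul_eq_mul, mul_one]
  have hs2 : ∀ (f : ZMod n → ℝ) (c : ι × ZMod n), K.toComb.deg c = 2 →
      ∑ k ∈ Finset.range (K.toComb.deg c), f ((K.nx^[k] c).2) = f c.2 + f (K.nx c).2 := by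
    intro f c h5
    rw [h5]
    simp only [Finset.sum_range_succ, Finset.sum_range_zero, Function.iterate_succ_apply',
      Function.iterate_zero_apply, zero_add]
  have hs : ∀ c, (0 : ℝ) ≤ ∑ k ∈ Finset.range (K.toComb.deg c), v ((K.nx^[k] c).2) := by
    intro c
    rcases hshape c with ⟨h5, ⟨h6, h7⟩ | ⟨h6, h7⟩⟩ | h5
    · rw [hs2 v c h5, hvX _ h6, hvY _ h7]
      norm_num
    · rw [hs2 v c h5, hvX _ h7, hvY _ h6]
      norm_num
    · exact Finset.sum_nonneg fun k hk => hv0 _ (h5 k (Finset.mem_range.1 hk))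
  -- as many corners in `Y` as in `X`
  have hXYc : Y.card = X.card := by
    refine le_antisymm ?_ ?_
    · rcases h3 with h3 | h3
      · exact h3
      by_contra hlt
      push Not at hlt
      have h5 : (X.card : ℝ) < Y.card := by exact_mod_cast hlt
      obtain ⟨c, hcc⟩ := K.lp (fun i => -v i) (fun _ _ => 0) (by simp) 0 (by
        rw [Finset.sum_neg_distrib, hvs]
        linarith)
      have h6 : ∀ k, K.toComb.cross (fun _ _ => 0) (K.nx^[k] c) = 0 := fun k => rfl
      simp only [h6, add_zero] at hcc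
      rw [Finset.sum_neg_distrib] at hcc
      rcases hshape c with ⟨h5, ⟨h7, h8⟩ | ⟨h7, h8⟩⟩ | h9
      · rw [hs2 v c h5, hvX _ h7, hvY _ h8] at hcc
        norm_num at hcc
      · rw [hs2 v c h5, hvX _ h8, hvY _ h7] at hcc
        norm_num at hcc
      · have h10 : ∑ k ∈ Finset.range (K.toComb.deg c), v ((K.nx^[k] c).2) = 0 := by
          refine Finset.sum_eq_zero fun k hk => ?_
          have h11 := h9 k (Finset.mem_range.1 hk)
          have h12 : (K.nx^[k] c).2 ∉ Y := by
            intro h13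
            obtain ⟨h14, h15⟩ := h3 _ (hYM _ h13)
            have h16 := hsum2 _ h14
            have h17 := ((hY _).1 h13).2
            have h18 : (K.nx (K.nx^[k] c)).2 ∈ X := (hX _).2 ⟨h15, by linarith⟩
            have h19 : K.toComb.deg c = 2 := by rw [← hdit c k]; exact h14
            have hk' : k = 0 ∨ k = 1 := by
              have := Finset.mem_range.1 hk
              omega
            rcases hk' with rfl | rfl
            · exact h9 1 (by omega) h18
            · have h20 := hper c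
              rw [h19] at h20
              have e : K.nx (K.nx^[1] c) = c := h20
              rw [e] at h18
              exact h9 0 (by omega) h18
          rw [hv, if_neg h11, if_neg h12]
          norm_num
        rw [h10] at hcc
        norm_num at hcc
    by_contra hlt
    push Not at hlt
    have h5 : (Y.card : ℝ) < X.card := by exact_mod_cast hlt
    obtain ⟨c, hcc⟩ := K.lp v (fun _ _ => 0) (by simp) 0 (by rw [hvs]; linarith)
    have h6 : ∀ k, K.toComb.cross (fun _ _ => 0) (K.nx^[k] c) = 0 := fun k => rfl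
    simp only [h6, add_zero] at hcc
    have := hs c
    linarith
  have hcard : M.card + X.card + Y.card = n := by
    have h5 : M ∪ (X ∪ Y) = Finset.univ := by
      ext i
      simp only [Finset.mem_union, Finset.mem_univ, iff_true]
      exact htri i
    have h6 : Disjoint X Y := Finset.disjoint_left.2 hXY
    have h7 : Disjoint M (X ∪ Y) := by
      rw [Finset.disjoint_left]
      intro i hi h8
      rcases Finset.mem_union.1 h8 with h9 | h9
      · exact hXM i h9 hi
      · exact hYM i h9 hi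
    have h8 := congrArg Finset.card h5
    rw [Finset.card_union_of_disjoint h7, Finset.card_union_of_disjoint h6, Finset.card_univ,
      ZMod.card] at h8
    omega
  -- at most six corners in `M`
  have hM6 : M.card ≤ 6 := by
    rcases h4 with h4 | h4
    · exact h4
    by_contra hlt
    obtain ⟨w, hw⟩ : ∃ w : ZMod n → ℝ, ∀ i, w i = 1 + (if i ∈ X then (1 : ℝ) else 0) := ⟨_, fun _ => rfl⟩
    have hw1 : ∀ i, 1 ≤ w i := by
      intro i
      rw [hw]
      split_ifs <;> norm_num
    have hw2 : ∀ i, i ∈ X → w i = 2 := by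
      intro i hi
      rw [hw, if_pos hi]
      norm_num
    have hcn : (7 : ℝ) + 2 * X.card ≤ n := by
      have h5 : 7 + 2 * X.card ≤ n := by omega
      exact_mod_cast h5
    obtain ⟨c, hcc⟩ := K.lp w (fun _ _ => 0) (by simp) 3 (by
      rw [Finset.sum_congr rfl fun i _ => hw i, Finset.sum_add_distrib, Finset.sum_const, Finset.card_univ,
        ZMod.card, ← Finset.sum_filter, Finset.sum_const, Finset.filter_mem_eq_inter, Finset.univ_inter]
      simp only [nsmul_eq_mul, mul_one]
      linarith)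
    have h6 : ∀ k, K.toComb.cross (fun _ _ => 0) (K.nx^[k] c) = 0 := fun k => rfl
    simp only [h6, add_zero] at hcc
    rcases hshape c with ⟨h5, ⟨h7, h8⟩ | ⟨h7, h8⟩⟩ | h5
    · rw [hs2 w c h5, hw2 _ h7] at hcc
      have := hw1 (K.nx c).2
      linarith
    · rw [hs2 w c h5, hw2 _ h8] at hcc
      have := hw1 c.2
      linarith
    · have h7 := Finset.card_nsmul_le_sum (Finset.range (K.toComb.deg c))
        (fun k => w (K.nx^[k] c).2) 1 (fun k _ => hw1 _)
      rw [Finset.card_range, nsmul_eq_mul, mul_one] at h7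
      have h8 : (K.toComb.deg c : ℝ) < 3 := lt_of_le_of_lt h7 hcc
      have h9 : K.toComb.deg c < 3 := by exact_mod_cast h8
      have h10 : 2 ≤ K.toComb.deg c := K.toComb.two_le c
      have h11 : K.toComb.deg c = 2 := by omega
      have h12 := hsum2 c h11
      have hc0 := h5 0 (by omega)
      have hc1 := h5 1 (by omega)
      rcases lt_or_gt_of_ne (K.a_ne c.2) with h13 | h13
      · -- the next corner is reflex
        have h14 : Real.pi < P.ang (K.nx c).2 := by linarith
        rcases htri (K.nx c).2 with h15 | h15 | h15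
        · have h16 := h4 (K.nx c) h15 h14
          rw [hdnx] at h16
          omega
        · exact hc1 h15
        · have := ((hY _).1 h15).2
          linarith
      · rcases htri c.2 with h15 | h15 | h15
        · have h16 := h4 c h15 h13
          omega
        · exact hc0 h15
        · have := ((hY _).1 h15).2
          linarith
  refine tight_periodic c3 c4 c5 c6 hc hn T K hK hx M hM6 v 0 1 one_pos ?_ hs ?_
  · rw [hvs, hXYc]
    ring
  · intro c hlt
    rcases hshape c with ⟨h5, h6⟩ | h5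
    · refine Or.inl ⟨h5, ?_⟩
      intro k hk
      have hk' : k = 0 ∨ k = 1 := by omega
      rcases hk' with rfl | rfl
      · rcases h6 with ⟨h6, -⟩ | ⟨h6, -⟩
        · exact hXM _ h6
        · exact hYM _ h6
      · rcases h6 with ⟨-, h6⟩ | ⟨-, h6⟩
        · exact hYM _ h6
        · exact hXM _ h6
    · refine Or.inr fun k hk => ?_
      rcases htri (K.nx^[k] c).2 with h6 | h6 | h6
      · exact h6
      · exact absurd h6 (h5 k hk)
      · exfalso
        have h7 := Finset.single_le_sum (f := fun k => v (K.nx^[k] c).2)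
          (fun k hk => hv0 _ (h5 k (Finset.mem_range.1 hk))) (Finset.mem_range.2 hk)
        rw [hvY _ h6] at h7
        linarith

end Pool.Agent.Lib_MP_fa6e45
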