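import Pool.Agent.Lib_MP_fa6e45.Stmt3

/-!
MP_fa6e45_co, stage 2b: at least three tiles meet at a point.
-/

open Set

namespace Pool.Agent.Lib_MP_fa6e45

/-- At least three sets of the family `𝒮` contain the point `z`. -/
def ThreeAt (𝒮 : Set (Set ℂ)) (z : ℂ) : Prop :=
  ∃ r ∈ 𝒮, ∃ s ∈ 𝒮, ∃ t ∈ 𝒮, r ≠ s ∧ s ≠ t ∧ r ≠ t ∧ z ∈ r ∧ z ∈ s ∧ z ∈ t

end Pool.Agent.Lib_MP_fa6e45
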