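import Pool.Agent.Lib_MP_fa6e45.EQ7
import Pool.Agent.Lib_MP_fa6e45.Stmt4

/-!
MP_fa6e45_co: the geometric form of EQ7.
-/

open Set MeasureTheory Complex
open scoped Topology

namespace Pool.Agent.Lib_MP_fa6e45

open Pool.Agent.Lib_PL (cr InSector Poly)

variable {n : ℕ}

/-- the indexed tiling with given labels -/
theorem exists_til_labels (P : Polygon n) {𝒮 : Set (Set ℂ)} (h : P.IsTiling 𝒮)
    (he : P.EdgeToEdge 𝒮) (g : Set ℂ → ℂ ≃ᵢ ℂ) (hg : ∀ t ∈ 𝒮, t = g t '' P.region) :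
    ∃ T : Til P 𝒮, (∀ t : 𝒮, T.R t = (t : Set ℂ)) ∧ ∀ (t : 𝒮) (i : ZMod n),
      T.vx (t, i) = g t (P.vertex i) := by
  have h0 : ∀ t : 𝒮, ∃ m : Mo, ∀ z, g t z = m.app z := fun t => exists_mo (g t)
  choose m hgm using h0
  have hm : ∀ t : 𝒮, (t : Set ℂ) = (m t).app '' P.region := by
    intro t
    have h1 := hg t t.2
    have h2 : g t '' P.region = (m t).app '' P.region := Set.image_congr fun z _ => hgm t z
    exact h1.trans h2
  have h2 : ∀ t : 𝒮, (m t).app '' P.inner ⊆ interior (t : Set ℂ) := by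
    intro t
    apply interior_maximal
    · rw [hm t]
      apply Set.image_mono
      rw [P.region_union]
      exact Set.subset_union_right
    · exact (m t).iso.toHomeomorph.isOpenMap _ P.inner_open
  refine ⟨⟨m, ?_, ?_, ?_⟩, fun t => (hm t).symm, fun t i => (hgm t _).symm⟩
  · intro z
    have hz : z ∈ ⋃₀ 𝒮 := by
      rw [h.cover]
      trivial
    obtain ⟨t, ht, hzt⟩ := hz
    refine ⟨⟨t, ht⟩, ?_⟩
    rw [← hm ⟨t, ht⟩]
    exact hzt
  · intro s t hst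
    exact (h.disj s s.2 t t.2 fun h => hst (Subtype.ext h)).mono (h2 s) (h2 t)
  · intro s t i j
    have hs : (m s).iso '' P.region ∈ 𝒮 := by
      have := hm s
      change (m s).app '' P.region ∈ 𝒮
      rw [← this]
      exact s.2
    have ht : (m t).iso '' P.region ∈ 𝒮 := by
      have := hm t
      change (m t).app '' P.region ∈ 𝒮
      rw [← this]
      exact t.2
    exact he (m s).iso (m t).iso hs ht i j

private theorem EQ8_vx_mem {P : Polygon n} {𝒮 : Set (Set ℂ)} (T : Til P 𝒮)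
    (hT : ∀ t : 𝒮, T.R t = (t : Set ℂ)) (c : 𝒮 × ZMod n) : T.vx c ∈ (c.1 : Set ℂ) := by
  rw [← hT c.1]
  refine ⟨P.vertex c.2, ?_, rfl⟩
  rw [P.region_union, P.bdry_eq]
  exact Or.inl (Set.mem_iUnion.2 ⟨c.2, left_mem_segment ℝ _ _⟩)

private theorem EQ8_tile_ne {P : Polygon n} {𝒮 : Set (Set ℂ)} (T : Til P 𝒮) {z : ℂ}
    {c d : 𝒮 × ZMod n} (hc : T.vx c = z) (hd : T.vx d = z) (h : c ≠ d) :
    (c.1 : Set ℂ) ≠ (d.1 : Set ℂ) := by
  intro e
  apply h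
  have e1 : c.1 = d.1 := Subtype.ext e
  obtain ⟨s, i⟩ := c
  obtain ⟨t, j⟩ := d
  change s = t at e1
  subst e1
  rw [T.vx_inj (hc.trans hd.symm)]

/-- three corners at a point give three tiles, and conversely -/
theorem threeAt_iff {P : Polygon n} {𝒮 : Set (Set ℂ)} (T : Til P 𝒮)
    (hT : ∀ t : 𝒮, T.R t = (t : Set ℂ)) (c : 𝒮 × ZMod n) :
    3 ≤ (T.star (T.vx c)).ncard ↔ ThreeAt 𝒮 (T.vx c) := by
  constructor
  · intro h
    obtain ⟨a, b, d, ha, hb, hd, hab, had, hbd⟩ := (Set.two_lt_ncard_iff (T.star_finite (T.vx c))).1 h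
    have ha' : T.vx a = T.vx c := ha
    have hb' : T.vx b = T.vx c := hb
    have hd' : T.vx d = T.vx c := hd
    refine ⟨a.1, a.1.2, b.1, b.1.2, d.1, d.1.2, EQ8_tile_ne T ha' hb' hab,
      EQ8_tile_ne T hb' hd' hbd, EQ8_tile_ne T ha' hd' had, ?_, ?_, ?_⟩
    · have := EQ8_vx_mem T hT a
      rwa [ha'] at this
    · have := EQ8_vx_mem T hT b
      rwa [hb'] at this
    · have := EQ8_vx_mem T hT d
      rwa [hd'] at this
  · rintro ⟨r, hr, s, hs, t, ht, hrs, hst, hrt, h1, h2, h3⟩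
    obtain ⟨i, hi⟩ := T.corner_at c (t := ⟨r, hr⟩) (by rw [hT]; exact h1)
    obtain ⟨j, hj⟩ := T.corner_at c (t := ⟨s, hs⟩) (by rw [hT]; exact h2)
    obtain ⟨k, hk⟩ := T.corner_at c (t := ⟨t, ht⟩) (by rw [hT]; exact h3)
    refine (Set.two_lt_ncard_iff (T.star_finite (T.vx c))).2
      ⟨(⟨r, hr⟩, i), (⟨s, hs⟩, j), (⟨t, ht⟩, k), hi, hj, hk, ?_, ?_, ?_⟩
    · intro e
      exact hrs (congrArg (fun x : 𝒮 × ZMod n => (x.1 : Set ℂ)) e)
    · intro e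
      exact hrt (congrArg (fun x : 𝒮 × ZMod n => (x.1 : Set ℂ)) e)
    · intro e
      exact hst (congrArg (fun x : 𝒮 × ZMod n => (x.1 : Set ℂ)) e)

theorem reflex_ccw (c3 : ∀ x ∈ tabT3, NodeU 3 (decW 3 x) [])
    (c4 : ∀ x ∈ tabT4, NodeU 4 (decW 4 x) []) (c5 : ∀ x ∈ tabT5, NodeU 5 (decW 5 x) [])
    (c6 : ∀ x ∈ tabT6, NodeU 6 (decW 6 x) []) (P : Polygon n) (hc : P.CCW) (hn : 7 ≤ n)
    {𝒮 : Set (Set ℂ)} (h : P.IsTiling 𝒮)
    (he : P.EdgeToEdge 𝒮) (g : Set ℂ → ℂ ≃ᵢ ℂ) (hg : ∀ t ∈ 𝒮, t = g t '' P.region)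
    (M : Finset (ZMod n))
    (h1 : ∀ t ∈ 𝒮, ∀ i : ZMod n, i ∉ M → Real.pi < P.angle i → ¬ ThreeAt 𝒮 (g t (P.vertex i)))
    (h2 : ∀ s ∈ 𝒮, ∀ t ∈ 𝒮, ∀ i j : ZMod n, i ∉ M → Real.pi < P.angle i → j ∈ M →
      g s (P.vertex i) ≠ g t (P.vertex j))
    (h3 : {i : ZMod n | i ∉ M ∧ P.angle i < Real.pi}.ncard ≤
        {i : ZMod n | i ∉ M ∧ Real.pi < P.angle i}.ncard ∨
      (∀ t ∈ 𝒮, ∀ i : ZMod n, i ∉ M → ¬ ThreeAt 𝒮 (g t (P.vertex i))) ∧
        ∀ s ∈ 𝒮, ∀ t ∈ 𝒮, ∀ i j : ZMod n, i ∉ M → j ∈ M → g s (P.vertex i) ≠ g t (P.vertex j))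
    (h4 : M.card ≤ 6 ∨ ∀ t ∈ 𝒮, ∀ i ∈ M, Real.pi < P.angle i → ThreeAt 𝒮 (g t (P.vertex i))) :
    ∃ 𝒯 : Set (Set ℂ), P.IsTiling 𝒯 ∧ Periodic 𝒯 := by
  classical
  have : NeZero n := ⟨by have := P.three_le; omega⟩
  obtain ⟨T, hT, hv⟩ := exists_til_labels P h he g hg
  obtain ⟨K, hK, hx⟩ := T.combW hc
  simp only [Polygon.angle_eq hc] at h1 h2 h3 h4
  refine reflex_periodic c3 c4 c5 c6 hc hn T K hK hx M
    (Finset.univ.filter fun i => i ∉ M ∧ Real.pi < P.ang i) (Finset.univ.filter fun i => i ∉ M ∧ P.ang i < Real.pi)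
    (fun i => by simp) (fun i => by simp) (fun c hcX => ?_) (fun c hcX => ?_) ?_ ?_
  · rw [Finset.mem_filter] at hcX
    obtain ⟨-, h5, h6⟩ := hcX
    have h7 : 2 ≤ K.toComb.deg c := K.toComb.two_le c
    by_contra h8
    have h9 : 3 ≤ (T.star (T.vx c)).ncard := by
      rw [← hK]
      omega
    have h10 := (threeAt_iff T hT c).1 h9
    have h11 : T.vx c = g c.1 (P.vertex c.2) := hv c.1 c.2
    rw [h11] at h10
    exact h1 _ c.1.2 _ h5 h6 h10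
  · rw [Finset.mem_filter] at hcX
    obtain ⟨-, h5, h6⟩ := hcX
    intro h7
    refine h2 _ c.1.2 _ (K.nx c).1.2 _ _ h5 h6 h7 ?_
    rw [← hv c.1 c.2, ← hv (K.nx c).1 (K.nx c).2]
    exact (hx c).2.symm
  · have e1 : {i : ZMod n | i ∉ M ∧ P.ang i < Real.pi} =
        ((Finset.univ.filter fun i => i ∉ M ∧ P.ang i < Real.pi : Finset (ZMod n)) : Set (ZMod n)) := by
      ext i
      simp
    have e2 : {i : ZMod n | i ∉ M ∧ Real.pi < P.ang i} =
        ((Finset.univ.filter fun i => i ∉ M ∧ Real.pi < P.ang i : Finset (ZMod n)) : Set (ZMod n)) := by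
      ext i
      simp
    rcases h3 with h3 | ⟨h3, h3'⟩
    · rw [e1, e2, Set.ncard_coe_finset, Set.ncard_coe_finset] at h3
      exact Or.inl h3
    · refine Or.inr fun c h5 => ⟨?_, fun h7 => ?_⟩
      · have h7 : 2 ≤ K.toComb.deg c := K.toComb.two_le c
        by_contra h8
        have h9 : 3 ≤ (T.star (T.vx c)).ncard := by
          rw [← hK]
          omega
        have h10 := (threeAt_iff T hT c).1 h9
        have h11 : T.vx c = g c.1 (P.vertex c.2) := hv c.1 c.2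
        rw [h11] at h10
        exact h3 _ c.1.2 _ h5 h10
      · refine h3' _ c.1.2 _ (K.nx c).1.2 _ _ h5 h7 ?_
        rw [← hv c.1 c.2, ← hv (K.nx c).1 (K.nx c).2]
        exact (hx c).2.symm
  · rcases h4 with h4 | h4
    · exact Or.inl h4
    · refine Or.inr fun c h5 h6 => ?_
      have h7 := h4 _ c.1.2 _ h5 h6
      have h11 : T.vx c = g c.1 (P.vertex c.2) := hv c.1 c.2
      rw [← h11] at h7
      have h8 := (threeAt_iff T hT c).2 h7
      rwa [← hK] at h8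

/-- either orientation, any number of corners; the case of at most six corners is a hypothesis -/
theorem reflex_thm (c3 : ∀ x ∈ tabT3, NodeU 3 (decW 3 x) [])
    (c4 : ∀ x ∈ tabT4, NodeU 4 (decW 4 x) []) (c5 : ∀ x ∈ tabT5, NodeU 5 (decW 5 x) [])
    (c6 : ∀ x ∈ tabT6, NodeU 6 (decW 6 x) []) (P : Polygon n)
    {𝒮 : Set (Set ℂ)} (h : P.IsTiling 𝒮)
    (he : P.EdgeToEdge 𝒮) (hk : n ≤ 6 → ∃ 𝒯 : Set (Set ℂ), P.IsTiling 𝒯 ∧ Periodic 𝒯)
    (g : Set ℂ → ℂ ≃ᵢ ℂ) (hg : ∀ t ∈ 𝒮, t = g t '' P.region)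
    (M : Finset (ZMod n))
    (h1 : ∀ t ∈ 𝒮, ∀ i : ZMod n, i ∉ M → Real.pi < P.angle i → ¬ ThreeAt 𝒮 (g t (P.vertex i)))
    (h2 : ∀ s ∈ 𝒮, ∀ t ∈ 𝒮, ∀ i j : ZMod n, i ∉ M → Real.pi < P.angle i → j ∈ M →
      g s (P.vertex i) ≠ g t (P.vertex j))
    (h3 : {i : ZMod n | i ∉ M ∧ P.angle i < Real.pi}.ncard ≤
        {i : ZMod n | i ∉ M ∧ Real.pi < P.angle i}.ncard ∨
      (∀ t ∈ 𝒮, ∀ i : ZMod n, i ∉ M → ¬ ThreeAt 𝒮 (g t (P.vertex i))) ∧
        ∀ s ∈ 𝒮, ∀ t ∈ 𝒮, ∀ i j : ZMod n, i ∉ M → j ∈ M → g s (P.vertex i) ≠ g t (P.vertex j))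
    (h4 : M.card ≤ 6 ∨ ∀ t ∈ 𝒮, ∀ i ∈ M, Real.pi < P.angle i → ThreeAt 𝒮 (g t (P.vertex i))) :
    ∃ 𝒯 : Set (Set ℂ), P.IsTiling 𝒯 ∧ Periodic 𝒯 := by
  classical
  rcases Nat.lt_or_ge n 7 with hn | hn
  · exact hk (by omega)
  rcases P.ccw_or with hc | hc
  · exact reflex_ccw c3 c4 c5 c6 P hc hn h he g hg M h1 h2 h3 h4
  have hT : ∀ 𝒯 : Set (Set ℂ), P.rev.IsTiling 𝒯 ↔ P.IsTiling 𝒯 := by
    intro 𝒯
    constructor
    · rintro ⟨h1, h2, h3⟩
      exact ⟨fun t ht => by simpa only [P.rev_region] using h1 t ht, h2, h3⟩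
    · rintro ⟨h1, h2, h3⟩
      exact ⟨fun t ht => by simpa only [P.rev_region] using h1 t ht, h2, h3⟩
  have hE : P.rev.EdgeToEdge 𝒮 := by
    intro g k hg hk i j
    rw [P.rev_region] at hg hk
    have h1 := he g k hg hk (-i) (-j - 1)
    rw [openSegment_symm] at h1
    have e1 : -j - 1 + 1 = -j := by ring
    have e2 : -(j + 1) = -j - 1 := by ring
    rw [e1] at h1
    change g (P.vertex (-i)) ∉ openSegment ℝ (k (P.vertex (-j))) (k (P.vertex (-(j + 1))))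
    rw [e2]
    exact h1
  have hg' : ∀ t ∈ 𝒮, t = g t '' P.rev.region := by
    intro t ht
    rw [P.rev_region]
    exact hg t ht
  have hmem : ∀ i : ZMod n, i ∈ M.image (fun i => -i) ↔ -i ∈ M := by
    intro i
    rw [Finset.mem_image]
    constructor
    · rintro ⟨j, hj, rfl⟩
      rwa [neg_neg]
    · intro hi
      exact ⟨-i, hi, neg_neg i⟩
  have him : ∀ p : ZMod n → Prop, {i : ZMod n | p (-i)}.ncard = {i : ZMod n | p i}.ncard := by
    intro p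
    have e : {i : ZMod n | p (-i)} = (fun i => -i) '' {i : ZMod n | p i} := by
      ext i
      simp only [mem_ofPred_eq, mem_image]
      constructor
      · intro h
        exact ⟨-i, h, neg_neg i⟩
      · rintro ⟨j, hj, rfl⟩
        rwa [neg_neg]
    rw [e, ncard_image_of_injective _ neg_injective]
  obtain ⟨𝒯, g1, g2⟩ := reflex_ccw c3 c4 c5 c6 P.rev hc hn ((hT 𝒮).2 h) hE g hg'
    (M.image fun i => -i)
    (fun t ht i hi ha => h1 t ht (-i) (fun hi' => hi ((hmem i).2 hi')) (by rwa [P.rev_angle] at ha))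
    (fun s hs t ht i j hi ha hj => h2 s hs t ht (-i) (-j) (fun hi' => hi ((hmem i).2 hi'))
      (by rwa [P.rev_angle] at ha) ((hmem j).1 hj))
    (by
      rcases h3 with h3 | ⟨h3, h3'⟩
      · left
        simp only [P.rev_angle, hmem]
        rw [him fun i => i ∉ M ∧ P.angle i < Real.pi, him fun i => i ∉ M ∧ Real.pi < P.angle i]
        exact h3
      · right
        exact ⟨fun t ht i hi => h3 t ht (-i) (fun hi' => hi ((hmem i).2 hi')),
          fun s hs t ht i j hi hj => h3' s hs t ht (-i) (-j) (fun hi' => hi ((hmem i).2 hi')) ((hmem j).1 hj)⟩)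
    (by
      rcases h4 with h4 | h4
      · exact Or.inl (Finset.card_image_le.trans h4)
      · refine Or.inr fun t ht i hi ha => ?_
        rw [P.rev_angle] at ha
        exact h4 t ht (-i) ((hmem i).1 hi) ha)
  exact ⟨𝒯, (hT 𝒯).1 g1, g2⟩

end Pool.Agent.Lib_MP_fa6e45
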