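import Pool.Agent.Lib_MP_fa6e45.EQ8

/-!
MP_fa6e45_co: polygons in which no angle at a convex complementary corner is a sum of two or more angles, and in which at
most as many convex as reflex corners are complementary.
-/

open Set MeasureTheory Complex
open scoped Topology

namespace Pool.Agent.Lib_MP_fa6e45

open Pool.Agent.Lib_PL (cr InSector Poly)

variable {n : ℕ}

private theorem EQ9_list {ι : Type} (a : ZMod n → ℝ) (nx : ι × ZMod n → ι × ZMod n) (c : ι × ZMod n) (m : ℕ) :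
    (((List.range m).map fun k => (nx^[k + 1] c).2).map a).sum =
      ∑ k ∈ Finset.range m, a (nx^[k + 1] c).2 := by
  rw [List.map_map, Finset.sum_range, ← List.sum_ofFn, List.ofFn_eq_map]
  congr 1
  apply List.ext_getElem
  · simp
  · intro i h1 h2
    simp

theorem generic_ccw (c3 : ∀ x ∈ tabT3, NodeU 3 (decW 3 x) [])
    (c4 : ∀ x ∈ tabT4, NodeU 4 (decW 4 x) []) (c5 : ∀ x ∈ tabT5, NodeU 5 (decW 5 x) [])
    (c6 : ∀ x ∈ tabT6, NodeU 6 (decW 6 x) []) (P : Polygon n) (hc : P.CCW) (hn : 7 ≤ n)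
    {𝒮 : Set (Set ℂ)} (h : P.IsTiling 𝒮) (he : P.EdgeToEdge 𝒮)
    (h1 : ∀ j : ZMod n, P.Complementary j → P.angle j < Real.pi → ∀ l : List (ZMod n), 2 ≤ l.length →
      (l.map P.angle).sum ≠ P.angle j)
    (h2 : {j : ZMod n | P.Complementary j ∧ P.angle j < Real.pi}.ncard ≤
      {j : ZMod n | P.Complementary j ∧ Real.pi < P.angle j}.ncard) :
    ∃ 𝒯 : Set (Set ℂ), P.IsTiling 𝒯 ∧ Periodic 𝒯 := by
  classical
  have : NeZero n := ⟨by have := P.three_le; omega⟩
  obtain ⟨T⟩ := exists_til P h he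
  obtain ⟨K, hK, hx⟩ := T.combW hc
  have hCc : ∀ i, P.Complementary i ↔ ∃ j, Compl P.ang P.len i j := by
    intro i
    unfold Polygon.Complementary Compl
    simp only [Polygon.angle_eq hc]
  have hang : P.angle = P.ang := by
    funext i
    exact Polygon.angle_eq hc i
  rw [hang] at h1 h2
  simp only [hCc] at h1 h2
  have hsymm : ∀ i j, Compl P.ang P.len i j → Compl P.ang P.len j i := by
    rintro i j ⟨g1, g2, g3⟩
    refine ⟨g1.symm, by rw [add_comm]; exact g2, ?_⟩
    rcases g3 with ⟨g3, g4⟩ | ⟨g3, g4⟩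
    · exact Or.inl ⟨g3.symm, g4.symm⟩
    · exact Or.inr ⟨g4.symm, g3.symm⟩
  refine reflex_periodic c3 c4 c5 c6 hc hn T K hK hx (Finset.univ.filter fun i => ¬ ∃ j, Compl P.ang P.len i j)
    (Finset.univ.filter fun i => (∃ j, Compl P.ang P.len i j) ∧ Real.pi < P.ang i)
    (Finset.univ.filter fun i => (∃ j, Compl P.ang P.len i j) ∧ P.ang i < Real.pi)
    (fun i => by simp) (fun i => by simp) (fun c hcX => ?_) (fun c hcX => ?_) (Or.inl ?_) (Or.inr fun c hcM hr => ?_)
  · -- a complementary reflex corner has degree two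
    rw [Finset.mem_filter] at hcX
    obtain ⟨-, ⟨j, hj⟩, hr⟩ := hcX
    have h7 : 2 ≤ K.toComb.deg c := K.toComb.two_le c
    by_contra h8
    obtain ⟨m, hm⟩ : ∃ m, K.toComb.deg c = m + 1 := ⟨K.toComb.deg c - 1, by omega⟩
    have hsum : ∑ k ∈ Finset.range (K.toComb.deg c), P.ang ((K.nx^[k] c).2) = 2 * Real.pi := K.sum c
    rw [hm, Finset.sum_range_succ'] at hsum
    have h0 : K.nx^[0] c = c := rfl
    rw [h0] at hsum
    have hj2 := hj.2.1
    refine h1 j ⟨c.2, hsymm _ _ hj⟩ (by linarith) ((List.range m).map fun k => (K.nx^[k + 1] c).2) ?_ ?_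
    · rw [List.length_map, List.length_range]
      omega
    · rw [EQ9_list]
      linarith
  · rw [Finset.mem_filter] at hcX
    obtain ⟨-, ⟨j, hj⟩, hr⟩ := hcX
    rw [Finset.mem_filter]
    rintro ⟨-, hno⟩
    have h7 : 2 ≤ K.toComb.deg c := K.toComb.two_le c
    have hd2 : K.toComb.deg c = 2 := by
      by_contra h8
      obtain ⟨m, hm⟩ : ∃ m, K.toComb.deg c = m + 1 := ⟨K.toComb.deg c - 1, by omega⟩
      have hsum : ∑ k ∈ Finset.range (K.toComb.deg c), P.ang ((K.nx^[k] c).2) = 2 * Real.pi := K.sum c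
      rw [hm, Finset.sum_range_succ'] at hsum
      have h0 : K.nx^[0] c = c := rfl
      rw [h0] at hsum
      have hj2 := hj.2.1
      refine h1 j ⟨c.2, hsymm _ _ hj⟩ (by linarith) ((List.range m).map fun k => (K.nx^[k + 1] c).2) ?_ ?_
      · rw [List.length_map, List.length_range]
        omega
      · rw [EQ9_list]
        linarith
    exact hno ⟨c.2, hsymm _ _ (K.toComb.deg_two c hd2)⟩
  · have e1 : {j : ZMod n | (∃ k, Compl P.ang P.len j k) ∧ P.ang j < Real.pi} =
        ((Finset.univ.filter fun i => (∃ j, Compl P.ang P.len i j) ∧ P.ang i < Real.pi : Finset (ZMod n)) :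
          Set (ZMod n)) := by
      ext i
      simp
    have e2 : {j : ZMod n | (∃ k, Compl P.ang P.len j k) ∧ Real.pi < P.ang j} =
        ((Finset.univ.filter fun i => (∃ j, Compl P.ang P.len i j) ∧ Real.pi < P.ang i : Finset (ZMod n)) :
          Set (ZMod n)) := by
      ext i
      simp
    rw [e1, e2, Set.ncard_coe_finset, Set.ncard_coe_finset] at h2
    exact h2
  · rw [Finset.mem_filter] at hcM
    have h7 : 2 ≤ K.toComb.deg c := K.toComb.two_le c
    by_contra h8
    have h9 : K.toComb.deg c = 2 := by omega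
    exact hcM.2 ⟨_, K.toComb.deg_two c h9⟩

/-- either orientation; the case of at most six corners is a hypothesis -/
theorem generic_thm (c3 : ∀ x ∈ tabT3, NodeU 3 (decW 3 x) [])
    (c4 : ∀ x ∈ tabT4, NodeU 4 (decW 4 x) []) (c5 : ∀ x ∈ tabT5, NodeU 5 (decW 5 x) [])
    (c6 : ∀ x ∈ tabT6, NodeU 6 (decW 6 x) []) (P : Polygon n)
    {𝒮 : Set (Set ℂ)} (h : P.IsTiling 𝒮) (he : P.EdgeToEdge 𝒮)
    (hk : n ≤ 6 → ∃ 𝒯 : Set (Set ℂ), P.IsTiling 𝒯 ∧ Periodic 𝒯)
    (h1 : ∀ j : ZMod n, P.Complementary j → P.angle j < Real.pi → ∀ l : List (ZMod n), 2 ≤ l.length →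
      (l.map P.angle).sum ≠ P.angle j)
    (h2 : {j : ZMod n | P.Complementary j ∧ P.angle j < Real.pi}.ncard ≤
      {j : ZMod n | P.Complementary j ∧ Real.pi < P.angle j}.ncard) :
    ∃ 𝒯 : Set (Set ℂ), P.IsTiling 𝒯 ∧ Periodic 𝒯 := by
  rcases Nat.lt_or_ge n 7 with hn | hn
  · exact hk (by omega)
  rcases P.ccw_or with hc | hc
  · exact generic_ccw c3 c4 c5 c6 P hc hn h he h1 h2
  have hT : ∀ 𝒯 : Set (Set ℂ), P.rev.IsTiling 𝒯 ↔ P.IsTiling 𝒯 := by
    intro 𝒯
    constructor
    · rintro ⟨h1, h2, h3⟩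
      exact ⟨fun t ht => by simpa only [P.rev_region] using h1 t ht, h2, h3⟩
    · rintro ⟨h1, h2, h3⟩
      exact ⟨fun t ht => by simpa only [P.rev_region] using h1 t ht, h2, h3⟩
  have hE : P.rev.EdgeToEdge 𝒮 := by
    intro g k hg hk i j
    rw [P.rev_region] at hg hk
    have h1 := he g k hg hk (-i) (-j - 1)
    rw [openSegment_symm] at h1
    have e1 : -j - 1 + 1 = -j := by ring
    have e2 : -(j + 1) = -j - 1 := by ring
    rw [e1] at h1
    change g (P.vertex (-i)) ∉ openSegment ℝ (k (P.vertex (-j))) (k (P.vertex (-(j + 1))))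
    rw [e2]
    exact h1
  have h3 : ∀ i, P.rev.Complementary i ↔ P.Complementary (-i) := by
    intro i
    unfold Polygon.Complementary
    simp only [P.rev_angle, P.rev_len]
    have e1 : ∀ k : ZMod n, -(k - 1) - 1 = -k := fun k => by ring
    constructor
    · rintro ⟨j, hj, h4, h5⟩
      refine ⟨-j, fun h => hj (neg_injective h), h4, ?_⟩
      simp only [e1] at h5
      rcases h5 with ⟨h5, h6⟩ | ⟨h5, h6⟩
      · exact Or.inl ⟨h6, h5⟩
      · exact Or.inr ⟨h6, h5⟩
    · rintro ⟨j, hj, h4, h5⟩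
      refine ⟨-j, fun h => hj (by rw [← h, neg_neg]), by rw [neg_neg]; exact h4, ?_⟩
      simp only [e1, neg_neg]
      rcases h5 with ⟨h5, h6⟩ | ⟨h5, h6⟩
      · exact Or.inl ⟨h6, h5⟩
      · exact Or.inr ⟨h6, h5⟩
  have him : ∀ p : ZMod n → Prop, {i : ZMod n | p (-i)}.ncard = {i : ZMod n | p i}.ncard := by
    intro p
    have e : {i : ZMod n | p (-i)} = (fun i => -i) '' {i : ZMod n | p i} := by
      ext i
      simp only [mem_ofPred_eq, mem_image]
      constructor
      · intro h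
        exact ⟨-i, h, neg_neg i⟩
      · rintro ⟨j, hj, rfl⟩
        rwa [neg_neg]
    rw [e, ncard_image_of_injective _ neg_injective]
  obtain ⟨𝒯, g1, g2⟩ := generic_ccw c3 c4 c5 c6 P.rev hc hn ((hT 𝒮).2 h) hE
    (by
      intro j hj ha l hl
      rw [h3] at hj
      rw [P.rev_angle] at ha ⊢
      have e : l.map P.rev.angle = (l.map fun i => -i).map P.angle := by
        rw [List.map_map]
        refine List.map_congr_left fun i _ => ?_
        exact P.rev_angle i
      rw [e]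
      exact h1 (-j) hj ha _ (by rwa [List.length_map]))
    (by
      simp only [P.rev_angle, h3]
      rw [him fun j => P.Complementary j ∧ P.angle j < Real.pi,
        him fun j => P.Complementary j ∧ Real.pi < P.angle j]
      exact h2)
  exact ⟨𝒯, (hT 𝒯).1 g1, g2⟩

end Pool.Agent.Lib_MP_fa6e45
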