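import Pool.Agent.Lib_MP_fa6e45.Y0

/-!
PIECE Y2 (about 150 lines): a nonempty set of `m` corners divides the cycle `ZMod n` into `m` arcs. For
instance: `F.sort` of the values `i.val`, `κ j` = the `j`-th smallest (`Finset.orderEmbOfFin`), `w j` = difference of
consecutive values (`+ n` for the last one).
-/

open Set MeasureTheory Complex
open scoped Topology

namespace Pool.Agent.Lib_MP_fa6e45

open Pool.Agent.Lib_PL (cr InSector Poly)
variable {n : ℕ}

/-- the positions, continued periodically -/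
private def Y2_V (n : ℕ) {m : ℕ} [NeZero m] (v : Fin m → ℕ) (q : ℕ) : ℕ :=
  v ⟨q % m, Nat.mod_lt _ (Nat.pos_of_ne_zero (NeZero.ne m))⟩ + n * (q / m)

private theorem Y2_V_lt {m : ℕ} [NeZero m] (v : Fin m → ℕ) {q : ℕ} (h : q < m) :
    Y2_V n v q = v ⟨q, h⟩ := by
  unfold Y2_V
  simp only [Nat.mod_eq_of_lt h, Nat.div_eq_of_lt h, mul_zero, add_zero]

private theorem Y2_V_add {m : ℕ} [NeZero m] (v : Fin m → ℕ) (q s : ℕ) :
    Y2_V n v (q + m * s) = Y2_V n v q + n * s := by
  have hm : 0 < m := Nat.pos_of_ne_zero (NeZero.ne m)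
  unfold Y2_V
  simp only [Nat.add_mul_mod_self_left, Nat.add_mul_div_left q s hm]
  ring

private theorem Y2_mono {m : ℕ} [NeZero m] (v : Fin m → ℕ) (hv : StrictMono v)
    (hn : ∀ j, v j < n) : StrictMono (Y2_V n v) := by
  have hm : 0 < m := Nat.pos_of_ne_zero (NeZero.ne m)
  refine strictMono_nat_of_lt_succ fun q => ?_
  have h1 : q = q % m + m * (q / m) := (Nat.mod_add_div q m).symm
  have hb : q % m < m := Nat.mod_lt _ hm
  rw [h1]
  set a := q / m
  set b := q % m
  have e : b + m * a + 1 = (b + 1) + m * a := by ring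
  rw [e, Y2_V_add, Y2_V_add]
  by_cases h : b + 1 < m
  · rw [Y2_V_lt v hb, Y2_V_lt v h]
    have : v ⟨b, hb⟩ < v ⟨b + 1, h⟩ := hv (by
      rw [Fin.lt_def]
      exact Nat.lt_succ_self b)
    omega
  · have h2 : b + 1 = 0 + m * 1 := by omega
    rw [h2, Y2_V_add, Y2_V_lt v hb, Y2_V_lt v hm]
    have := hn ⟨b, hb⟩
    omega

theorem arcs_exist [NeZero n] {m : ℕ} [NeZero m] (F : Finset (ZMod n)) (hF : F.card = m) :
    ∃ (κ : ZMod m → ZMod n) (w : ZMod m → ℕ), (∀ j, 0 < w j) ∧
      (∀ j, κ (j + 1) = κ j + (w j : ZMod n)) ∧ ∑ j, w j = n ∧ Function.Injective κ ∧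
      (∀ i, i ∈ F ↔ ∃ j, κ j = i) ∧
      ∀ j (t : ℕ), 0 < t → t < w j → κ j + (t : ZMod n) ∉ F := by
  classical
  have hm : 0 < m := Nat.pos_of_ne_zero (NeZero.ne m)
  have hcard : (F.image ZMod.val).card = m := by
    rw [Finset.card_image_of_injective _ (ZMod.val_injective n)]
    exact hF
  set v : Fin m → ℕ := fun j => (F.image ZMod.val).orderEmbOfFin hcard j with hv
  have hv1 : StrictMono v := ((F.image ZMod.val).orderEmbOfFin hcard).strictMono
  have hvF : ∀ j, ((v j : ℕ) : ZMod n) ∈ F := by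
    intro j
    have h := (F.image ZMod.val).orderEmbOfFin_mem hcard j
    obtain ⟨i, hi, h2⟩ := Finset.mem_image.1 h
    have h3 : v j = i.val := h2.symm
    rw [h3, ZMod.natCast_zmod_val]
    exact hi
  have hv2 : ∀ j, v j < n := by
    intro j
    have h := (F.image ZMod.val).orderEmbOfFin_mem hcard j
    obtain ⟨i, hi, h2⟩ := Finset.mem_image.1 h
    have h3 : v j = i.val := h2.symm
    rw [h3]
    exact ZMod.val_lt i
  have hv3 : ∀ i ∈ F, ∃ j, v j = i.val := by
    intro i hi
    have h : i.val ∈ Set.range ((F.image ZMod.val).orderEmbOfFin hcard) := by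
      rw [Finset.range_orderEmbOfFin]
      exact Finset.mem_coe.2 (Finset.mem_image_of_mem _ hi)
    exact h
  set V := Y2_V n v with hV
  have hmono : StrictMono V := Y2_mono v hv1 hv2
  have hper : ∀ q s, V (q + m * s) = V q + n * s := Y2_V_add v
  have hsmall : ∀ q (h : q < m), V q = v ⟨q, h⟩ := fun q h => Y2_V_lt v h
  have hsn : ∀ q, q < m → V q < n := fun q h => by
    rw [hsmall q h]
    exact hv2 _
  -- the key: a number congruent to a marked number is a value of `V`
  have hkey : ∀ x : ℕ, ((x : ℕ) : ZMod n) ∈ F → ∃ q, V q = x := by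
    intro x hx
    obtain ⟨j, hj⟩ := hv3 _ hx
    refine ⟨(j : ℕ) + m * (x / n), ?_⟩
    rw [hper, hsmall j j.2]
    have h1 : v ⟨(j : ℕ), j.2⟩ = x % n := by
      have h2 : v ⟨(j : ℕ), j.2⟩ = v j := rfl
      rw [h2, hj, ZMod.val_natCast]
    rw [h1]
    exact Nat.mod_add_div x n
  have hzv : ∀ j : ZMod m, j.val < m := fun j => ZMod.val_lt j
  refine ⟨fun j => ((V j.val : ℕ) : ZMod n), fun j => V (j.val + 1) - V j.val, ?_, ?_, ?_, ?_, ?_, ?_⟩
  · intro j
    have := hmono (Nat.lt_succ_self j.val)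
    simp only [Nat.succ_eq_add_one] at this
    simp only
    omega
  · intro j
    simp only
    have h1 : V j.val ≤ V (j.val + 1) := (hmono (Nat.lt_succ_self j.val)).le
    have h2 : ((V j.val : ℕ) : ZMod n) + ((V (j.val + 1) - V j.val : ℕ) : ZMod n) =
        ((V (j.val + 1) : ℕ) : ZMod n) := by
      rw [← Nat.cast_add, Nat.add_sub_cancel' h1]
    rw [h2]
    have h3 : (j + 1).val = (j.val + 1) % m := by
      have h4 : j + 1 = ((j.val + 1 : ℕ) : ZMod m) := by
        push_cast
        rw [ZMod.natCast_zmod_val]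
      rw [h4, ZMod.val_natCast]
    rw [h3]
    have h5 : V (j.val + 1) = V ((j.val + 1) % m) + n * ((j.val + 1) / m) := by
      rw [← hper, Nat.mod_add_div]
    rw [h5]
    push_cast
    rw [ZMod.natCast_self, zero_mul, add_zero]
  · have h1 : ∑ j : ZMod m, (V (j.val + 1) - V j.val) =
        ∑ q ∈ Finset.range m, (V (q + 1) - V q) := by
      refine Finset.sum_bij (fun j _ => j.val) ?_ ?_ ?_ ?_
      · intro j _
        exact Finset.mem_range.2 (hzv j)
      · intro j _ k _ h
        exact ZMod.val_injective m h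
      · intro q hq
        refine ⟨(q : ZMod m), Finset.mem_univ _, ?_⟩
        exact ZMod.val_natCast_of_lt (Finset.mem_range.1 hq)
      · intro j _
        rfl
    rw [h1, Finset.sum_range_tsub hmono.monotone]
    have h2 := hper 0 1
    simp only [zero_add, mul_one] at h2
    omega
  · intro j k h
    simp only at h
    rw [ZMod.natCast_eq_natCast_iff', Nat.mod_eq_of_lt (hsn _ (hzv j)),
      Nat.mod_eq_of_lt (hsn _ (hzv k))] at h
    exact ZMod.val_injective m (hmono.injective h)
  · intro i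
    constructor
    · intro hi
      obtain ⟨j, hj⟩ := hv3 i hi
      refine ⟨((j : ℕ) : ZMod m), ?_⟩
      simp only
      rw [ZMod.val_natCast_of_lt j.2, hsmall j j.2]
      have h2 : v ⟨(j : ℕ), j.2⟩ = v j := rfl
      rw [h2, hj, ZMod.natCast_zmod_val]
    · rintro ⟨j, hj⟩
      rw [← hj]
      simp only
      rw [hsmall _ (hzv j)]
      exact hvF _
  · intro j t ht1 ht2 hF2
    simp only at ht2 hF2
    rw [← Nat.cast_add] at hF2
    obtain ⟨q, hq⟩ := hkey _ hF2
    have h1 : V j.val < V q := by omega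
    have h2 : V q < V (j.val + 1) := by omega
    have h3 := hmono.lt_iff_lt.1 h1
    have h4 := hmono.lt_iff_lt.1 h2
    omega

end Pool.Agent.Lib_MP_fa6e45
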