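import Pool.Agent.Lib_MP_fa6e45.Y1
import Pool.Agent.Lib_MP_fa6e45.Y2
import Pool.Agent.Lib_MP_fa6e45.Y3
import Pool.Agent.Lib_MP_fa6e45.Y5
import Pool.Agent.Lib_MP_fa6e45.Y6

/-!
MP_fa6e45_co, stage 3 (no three equal sides), definitions for the measure part (no proofs). An invariant mean on the
corners of the tiling; statements which hold almost everywhere (`AE`) or with positive weight (`Pos`);
active pairs, improper corners, rigid corners of `P`.
-/

open Set MeasureTheory Complex
open scoped Topology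

namespace Pool.Agent.Lib_MP_fa6e45

open Pool.Agent.Lib_PL (cr InSector Poly)

/-- bounded function -/
def Bd {α : Type} (f : α → ℝ) : Prop := ∃ C : ℝ, ∀ x, |f x| ≤ C

/-- an invariant mean for the corners of a tiling (a tile has total weight `n`) -/
structure Mean {n : ℕ} [NeZero n] {a l : ZMod n → ℝ} {ι : Type} (K : CombA n a l ι) where
  M : (ι × ZMod n → ℝ) → ℝ
  add : ∀ f g, Bd f → Bd g → M (fun c => f c + g c) = M f + M g
  smul : ∀ (r : ℝ) f, Bd f → M (fun c => r * f c) = r * M f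
  mono : ∀ f g, Bd f → Bd g → (∀ c, f c ≤ g c) → M f ≤ M g
  one : M (fun _ => 1) = (n : ℝ)
  nx : ∀ f, Bd f → M (fun c => f (K.nx c)) = M f
  tile : ∀ f, Bd f → M (fun c => f (c.1, c.2 + 1)) = M f

namespace Mean

variable {n : ℕ} [NeZero n] {a l : ZMod n → ℝ} {ι : Type} {K : CombA n a l ι} (μ : Mean K)

/-- weight of the set of the corners with the property `Q` -/
noncomputable def wt (Q : ι × ZMod n → Prop) : ℝ := μ.M ({c | Q c}.indicator fun _ => 1)

/-- `Q` holds almost everywhere -/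
def AE (Q : ι × ZMod n → Prop) : Prop := μ.wt (fun c => ¬ Q c) = 0

/-- `Q` holds with positive weight -/
def Pos (Q : ι × ZMod n → Prop) : Prop := 0 < μ.wt Q

/-- `i`, `j` is an active pair: the two-tile star of the corners `i`, `j` has positive weight -/
def Act (i j : ZMod n) : Prop :=
  μ.Pos fun c => c.2 = i ∧ K.toComb.deg c = 2 ∧ (K.nx c).2 = j

/-- corner `i` is in stars with at least three corners with positive weight -/
def Imp (i : ZMod n) : Prop := μ.Pos fun c => c.2 = i ∧ K.toComb.deg c ≠ 2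

/-- corner `i` is almost everywhere in a two-tile star with a fixed corner `j`, and conversely -/
def Rigid (i : ZMod n) : Prop :=
  ∃ j, (μ.AE fun c => c.2 = i → K.toComb.deg c = 2 ∧ (K.nx c).2 = j) ∧
    μ.AE fun c => c.2 = j → K.toComb.deg c = 2 ∧ (K.nx c).2 = i

/-- good tile: all rigid corners are in two-tile stars with rigid corners -/
def TGood (t : ι) : Prop :=
  ∀ i, μ.Rigid i → K.toComb.deg (t, i) = 2 ∧ μ.Rigid (K.nx (t, i)).2

end Mean

/-- the marked corners are exactly the corners which are not rigid -/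
def Marks {n : ℕ} [NeZero n] {P : Polygon n} {ι : Type} {K : CombA n P.ang P.len ι} (μ : Mean K)
    {m : ℕ} [NeZero m] (S : Arcs P m) : Prop :=
  (∀ j, ¬ μ.Rigid (S.κ j)) ∧ ∀ j (t : ℕ), 0 < t → t < S.w j → μ.Rigid (S.κ j + (t : ZMod n))

/-! ### Stars in terms of arcs, with two-tile stars -/

/-- `c, l` is a star (cyclic sequence of corners, with a corner of minimal code first); `two i j`: two-tile stars of
`i`, `j` are allowed -/
def Star2 {m : ℕ} (two : ZMod m → ZMod m → Prop) (a b : ZMod m → ℝ)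
    (G : ZMod m → ZMod m → Bool → Prop) (c : ZMod m × Bool) (l : List (ZMod m × Bool)) : Prop :=
  (∀ x ∈ l, code c ≤ code x) ∧ Pth (StepG G) c l c ∧ a c.1 + (l.map fun x => a x.1).sum = 2 ∧
    b c.1 + (l.map fun x => b x.1).sum = 2 ∧ (2 ≤ l.length ∨ ∃ d, l = [d] ∧ two c.1 d.1)

/-- the star has at least three corners and contains corner `i` -/
def TImp {m : ℕ} (i : ZMod m) (c : ZMod m × Bool) (l : List (ZMod m × Bool)) : Prop :=
  2 ≤ l.length ∧ (c.1 = i ∨ ∃ x ∈ l, x.1 = i)

/-- the star is the two-tile star of the corners `i`, `j` -/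
def TTwo {m : ℕ} (i j : ZMod m) (c : ZMod m × Bool) (l : List (ZMod m × Bool)) : Prop :=
  ∃ d, l = [d] ∧ ((c.1 = i ∧ d.1 = j) ∨ (c.1 = j ∧ d.1 = i))

/-- first linear programming principle -/
def LP1 {m : ℕ} [NeZero m] (two : ZMod m → ZMod m → Prop) (a b : ZMod m → ℝ)
    (G : ZMod m → ZMod m → Bool → Prop) : Prop :=
  ∀ (v : ZMod m → ℤ) (A : ZMod m × Bool → ZMod m × Bool → ℤ), (∀ x y, A y x = -A x y) →
    ∀ L : ℤ, 2 * ∑ i, v i < ((m : ℤ) - 2) * L →
      ∃ (c : ZMod m × Bool) (l : List (ZMod m × Bool)), Star2 two a b G c l ∧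
        pcost (stepCost v A) c l c < L

/-- second linear programming principle: stars with the property `T` have positive weight -/
def LP2 {m : ℕ} [NeZero m] (two : ZMod m → ZMod m → Prop) (a b : ZMod m → ℝ)
    (G : ZMod m → ZMod m → Bool → Prop) (T : ZMod m × Bool → List (ZMod m × Bool) → Prop) : Prop :=
  ∀ (v : ZMod m → ℤ) (A : ZMod m × Bool → ZMod m × Bool → ℤ), (∀ x y, A y x = -A x y) →
    ∀ L : ℤ, 2 * ∑ i, v i ≤ ((m : ℤ) - 2) * L →
      ∃ (c : ZMod m × Bool) (l : List (ZMod m × Bool)), Star2 two a b G c l ∧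
        (pcost (stepCost v A) c l c < L ∨ (T c l ∧ pcost (stepCost v A) c l c ≤ L))

end Pool.Agent.Lib_MP_fa6e45
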