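import Pool.Agent.Lib_MP_fa6e45.F0

/-!
PIECE F2 (about 250 lines): the calculus of `wt`, `AE`, `Pos`. Everything follows from the fields of `Mean` applied to
indicator functions (bounded by 1). `wt_corner`: the `n` sets `{c | c.2 = i}` are shifts of each other and have total weight
`n`. `AE.star`: the degrees are bounded (`deg_bound`: all angles are at least the smallest one `> 0` and sum to `2 π`), and
`nx^[k] c` for `k ≥ deg c` is one of the first ones.
-/

open Set MeasureTheory Complex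
open scoped Topology

namespace Pool.Agent.Lib_MP_fa6e45

variable {n : ℕ} [NeZero n] {a l : ZMod n → ℝ} {ι : Type}

/-- the degrees are bounded -/
theorem CombA.deg_bound (K : CombA n a l ι) : ∃ D : ℕ, ∀ c, K.toComb.deg c ≤ D := by
  obtain ⟨i0, hi0⟩ := Finite.exists_min a
  have h0 : 0 < a i0 := K.a_pos i0
  refine ⟨⌊2 * Real.pi / a i0⌋₊, fun c => ?_⟩
  refine Nat.le_floor ?_
  rw [le_div_iff₀ h0, ← K.sum c]
  have h1 : ((K.toComb.deg c : ℕ) : ℝ) * a i0 =
      ∑ _k ∈ Finset.range (Function.minimalPeriod K.nx c), a i0 := by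
    rw [Finset.sum_const, Finset.card_range, nsmul_eq_mul]
    rfl
  rw [h1]
  exact Finset.sum_le_sum fun k _ => hi0 _

namespace Mean

variable {K : CombA n a l ι} (μ : Mean K)

private theorem F2_bd (Q : ι × ZMod n → Prop) :
    Bd ({c | Q c}.indicator fun _ => (1 : ℝ)) := by
  classical
  refine ⟨1, fun c => ?_⟩
  rw [Set.indicator_apply]
  split_ifs <;> simp

private theorem F2_zero : μ.M (fun _ => 0) = 0 := by
  have h := μ.smul 0 (fun _ => 1) ⟨1, fun _ => by simp⟩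
  simpa using h

private theorem F2_bd_sum {α : Type} (s : Finset α) (f : α → ι × ZMod n → ℝ)
    (hf : ∀ x, Bd (f x)) : Bd fun c => ∑ x ∈ s, f x c := by
  choose C hC using hf
  refine ⟨∑ x ∈ s, C x, fun c => ?_⟩
  exact (Finset.abs_sum_le_sum_abs _ _).trans (Finset.sum_le_sum fun x _ => hC x c)

private theorem F2_sum {α : Type} (s : Finset α) (f : α → ι × ZMod n → ℝ)
    (hf : ∀ x, Bd (f x)) : μ.M (fun c => ∑ x ∈ s, f x c) = ∑ x ∈ s, μ.M (f x) := by
  classical
  induction s using Finset.induction_on with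
  | empty =>
    simp only [Finset.sum_empty]
    exact F2_zero μ
  | insert x s hx ih =>
    rw [Finset.sum_insert hx, ← ih, ← μ.add _ _ (hf x) (F2_bd_sum s f hf)]
    congr 1
    funext c
    rw [Finset.sum_insert hx]

theorem wt_nonneg (Q : ι × ZMod n → Prop) : 0 ≤ μ.wt Q := by
  classical
  rw [← F2_zero μ]
  refine μ.mono _ _ ⟨0, fun _ => by simp⟩ (F2_bd Q) fun c => ?_
  rw [Set.indicator_apply]
  split_ifs <;> simp

theorem wt_mono {Q R : ι × ZMod n → Prop} (h : ∀ c, Q c → R c) : μ.wt Q ≤ μ.wt R := by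
  classical
  refine μ.mono _ _ (F2_bd Q) (F2_bd R) fun c => ?_
  rw [Set.indicator_apply, Set.indicator_apply]
  by_cases h1 : Q c
  · have h2 := h c h1
    simp [h1, h2]
  · by_cases h2 : R c <;> simp [h1, h2]

/-- additivity for disjoint properties -/
theorem wt_or (Q R : ι × ZMod n → Prop) (h : ∀ c, ¬ (Q c ∧ R c)) :
    μ.wt (fun c => Q c ∨ R c) = μ.wt Q + μ.wt R := by
  classical
  unfold wt
  rw [← μ.add _ _ (F2_bd Q) (F2_bd R)]
  congr 1
  funext c
  rw [Set.indicator_apply, Set.indicator_apply, Set.indicator_apply]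
  by_cases h1 : Q c
  · have h2 : ¬ R c := fun h2 => h c ⟨h1, h2⟩
    simp [h1, h2]
  · by_cases h2 : R c <;> simp [h1, h2]

theorem wt_or_le (Q R : ι × ZMod n → Prop) : μ.wt (fun c => Q c ∨ R c) ≤ μ.wt Q + μ.wt R := by
  have h1 : μ.wt (fun c => Q c ∨ R c) = μ.wt Q + μ.wt (fun c => R c ∧ ¬ Q c) := by
    rw [← μ.wt_or Q (fun c => R c ∧ ¬ Q c) fun c h => h.2.2 h.1]
    congr 1
    funext c
    apply propext
    tauto
  have h2 : μ.wt (fun c => R c ∧ ¬ Q c) ≤ μ.wt R := μ.wt_mono fun c h => h.1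
  linarith

theorem wt_nx (Q : ι × ZMod n → Prop) : μ.wt (fun c => Q (K.nx c)) = μ.wt Q :=
  μ.nx _ (F2_bd Q)

theorem wt_tile (Q : ι × ZMod n → Prop) (j : ZMod n) :
    μ.wt (fun c => Q (c.1, c.2 + j)) = μ.wt Q := by
  have h : ∀ k : ℕ, μ.wt (fun c => Q (c.1, c.2 + (k : ZMod n))) = μ.wt Q := by
    intro k
    induction k with
    | zero => simp
    | succ k ih =>
      rw [← ih]
      have h1 := μ.tile _ (F2_bd fun c => Q (c.1, c.2 + (k : ZMod n)))
      refine Eq.trans ?_ h1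
      unfold wt
      congr 1
      funext c
      have h2 : c.2 + ((k + 1 : ℕ) : ZMod n) = c.2 + 1 + (k : ZMod n) := by
        push_cast
        ring
      have h3 : Q (c.1, c.2 + ((k + 1 : ℕ) : ZMod n)) ↔ Q (c.1, c.2 + 1 + (k : ZMod n)) := by
        rw [h2]
      by_cases h4 : Q (c.1, c.2 + 1 + (k : ZMod n))
      · exact (Set.indicator_of_mem
          (s := {c : ι × ZMod n | Q (c.1, c.2 + ((k + 1 : ℕ) : ZMod n))}) (a := c) (h3.2 h4) _).trans
          (Set.indicator_of_mem (s := {c : ι × ZMod n | Q (c.1, c.2 + (k : ZMod n))})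
          (a := (c.1, c.2 + 1)) h4 (fun _ => (1 : ℝ))).symm
      · exact (Set.indicator_of_notMem
          (s := {c : ι × ZMod n | Q (c.1, c.2 + ((k + 1 : ℕ) : ZMod n))}) (a := c)
          (fun h => h4 (h3.1 h)) _).trans
          (Set.indicator_of_notMem (s := {c : ι × ZMod n | Q (c.1, c.2 + (k : ZMod n))})
          (a := (c.1, c.2 + 1)) h4 (fun _ => (1 : ℝ))).symm
  have h1 := h j.val
  rwa [ZMod.natCast_zmod_val] at h1

theorem wt_true : μ.wt (fun _ => True) = (n : ℝ) := by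
  rw [← μ.one]
  unfold wt
  congr 1
  funext c
  simp

theorem wt_corner (i : ZMod n) : μ.wt (fun c => c.2 = i) = 1 := by
  classical
  have h0 : ∀ i : ZMod n, μ.wt (fun c => c.2 = i) = μ.wt (fun c => c.2 = 0) := by
    intro i
    rw [← μ.wt_tile (fun c => c.2 = i) i]
    congr 1
    funext c
    apply propext
    change c.2 + i = i ↔ c.2 = 0
    simp
  have h1 : ∑ i : ZMod n, μ.wt (fun c => c.2 = i) = (n : ℝ) := by
    rw [← μ.wt_true]
    unfold wt
    rw [← F2_sum μ Finset.univ _ fun i => F2_bd _]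
    congr 1
    funext c
    rw [Finset.sum_eq_single c.2]
    · simp
    · intro j _ hj
      rw [Set.indicator_apply, if_neg]
      exact fun h => hj h.symm
    · intro h
      exact absurd (Finset.mem_univ _) h
  rw [Finset.sum_congr rfl fun i _ => h0 i, Finset.sum_const, Finset.card_univ, ZMod.card,
    nsmul_eq_mul] at h1
  rw [h0]
  have hn : (n : ℝ) ≠ 0 := by exact_mod_cast NeZero.ne n
  exact mul_left_cancel₀ hn (by rw [h1, mul_one])

/-- a property and its negation below another property -/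
theorem wt_split (Q R : ι × ZMod n → Prop) :
    μ.wt Q = μ.wt (fun c => Q c ∧ R c) + μ.wt (fun c => Q c ∧ ¬ R c) := by
  rw [← μ.wt_or _ _ fun c h => h.2.2 h.1.2]
  congr 1
  funext c
  apply propext
  tauto

private theorem F2_zero_of_le {Q R : ι × ZMod n → Prop} (h : ∀ c, Q c → R c) (hR : μ.wt R = 0) :
    μ.wt Q = 0 :=
  le_antisymm (hR ▸ μ.wt_mono h) (μ.wt_nonneg Q)

theorem wt_congr {Q R : ι × ZMod n → Prop} (h : μ.AE fun c => Q c ↔ R c) : μ.wt Q = μ.wt R := by
  rw [μ.wt_split Q R, μ.wt_split R Q]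
  have h1 : μ.wt (fun c => Q c ∧ ¬ R c) = 0 := F2_zero_of_le μ (by tauto) h
  have h2 : μ.wt (fun c => R c ∧ ¬ Q c) = 0 := F2_zero_of_le μ (by tauto) h
  rw [h1, h2]
  congr 2
  funext c
  exact propext and_comm

theorem not_pos {Q : ι × ZMod n → Prop} : ¬ μ.Pos Q ↔ μ.AE fun c => ¬ Q c := by
  unfold Pos AE
  simp only [not_not]
  constructor
  · intro h
    exact le_antisymm (not_lt.1 h) (μ.wt_nonneg Q)
  · intro h
    rw [h]
    exact lt_irrefl 0

private theorem F2_false {Q : ι × ZMod n → Prop} (h : ∀ c, ¬ Q c) : μ.wt Q = 0 := by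
  rw [← F2_zero μ]
  unfold wt
  congr 1
  funext c
  rw [Set.indicator_of_notMem]
  exact h c

theorem ae_of_forall {Q : ι × ZMod n → Prop} (h : ∀ c, Q c) : μ.AE Q :=
  F2_false μ fun c hc => hc (h c)

variable {μ}

theorem AE.mono {Q R : ι × ZMod n → Prop} (hQ : μ.AE Q) (h : ∀ c, Q c → R c) : μ.AE R :=
  F2_zero_of_le μ (fun c hc h1 => hc (h c h1)) hQ

theorem AE.and {Q R : ι × ZMod n → Prop} (hQ : μ.AE Q) (hR : μ.AE R) :
    μ.AE fun c => Q c ∧ R c := by
  have h1 := μ.wt_or_le (fun c => ¬ Q c) (fun c => ¬ R c)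
  have h2 : μ.wt (fun c => ¬ Q c) = 0 := hQ
  have h3 : μ.wt (fun c => ¬ R c) = 0 := hR
  rw [h2, h3, add_zero] at h1
  have h4 : μ.wt (fun c => ¬ Q c ∨ ¬ R c) = 0 := le_antisymm h1 (μ.wt_nonneg _)
  exact F2_zero_of_le μ (fun c hc => by tauto) h4

theorem AE.all {α : Type} [Finite α] {Q : α → ι × ZMod n → Prop} (h : ∀ x, μ.AE (Q x)) :
    μ.AE fun c => ∀ x, Q x c := by
  classical
  have := Fintype.ofFinite α
  have h1 : ∀ s : Finset α, μ.AE fun c => ∀ x ∈ s, Q x c := by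
    intro s
    induction s using Finset.induction_on with
    | empty => exact μ.ae_of_forall fun c x hx => absurd hx (Finset.notMem_empty x)
    | insert x s hx ih =>
      refine ((h x).and ih).mono fun c hc y hy => ?_
      rcases Finset.mem_insert.1 hy with rfl | hy
      · exact hc.1
      · exact hc.2 y hy
  exact (h1 Finset.univ).mono fun c hc x => hc x (Finset.mem_univ x)

theorem AE.nx {Q : ι × ZMod n → Prop} (h : μ.AE Q) : μ.AE fun c => Q (K.nx c) :=
  (μ.wt_nx fun c => ¬ Q c).trans h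

theorem AE.nx_symm {Q : ι × ZMod n → Prop} (h : μ.AE Q) : μ.AE fun c => Q (K.nx.symm c) := by
  have h1 := μ.wt_nx fun c => ¬ Q (K.nx.symm c)
  simp only [Equiv.symm_apply_apply] at h1
  exact h1.symm.trans h

theorem AE.tile {Q : ι × ZMod n → Prop} (h : μ.AE Q) : μ.AE fun c => ∀ i, Q (c.1, i) := by
  have h1 : μ.AE fun c => ∀ j : ZMod n, Q (c.1, c.2 + j) :=
    AE.all fun j => (μ.wt_tile (fun c => ¬ Q c) j).trans h
  refine h1.mono fun c hc i => ?_
  have h2 := hc (i - c.2)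
  rwa [add_sub_cancel] at h2

theorem AE.star {Q : ι × ZMod n → Prop} (h : μ.AE Q) : μ.AE fun c => ∀ k : ℕ, Q (K.nx^[k] c) := by
  obtain ⟨D, hD⟩ := K.deg_bound
  have h1 : ∀ k : ℕ, μ.AE fun c => Q (K.nx^[k] c) := by
    intro k
    induction k with
    | zero => exact h
    | succ k ih =>
      exact AE.nx ih
  have h2 : μ.AE fun c => ∀ k : Fin D, Q (K.nx^[(k : ℕ)] c) := AE.all fun k => h1 k
  refine h2.mono fun c hc k => ?_
  have h3 : k % Function.minimalPeriod K.nx c < D :=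
    (Nat.mod_lt _ (K.deg_pos c)).trans_le (hD c)
  have h4 := hc ⟨_, h3⟩
  change Q (K.nx^[k % Function.minimalPeriod K.nx c] c) at h4
  rwa [Function.iterate_mod_minimalPeriod_eq] at h4

theorem AE.exists {Q : ι × ZMod n → Prop} (h : μ.AE Q) (i : ZMod n) : ∃ c, c.2 = i ∧ Q c := by
  by_contra hc
  push Not at hc
  have h1 := F2_zero_of_le μ (Q := fun c => c.2 = i) hc h
  rw [μ.wt_corner] at h1
  exact one_ne_zero h1

theorem Pos.exists {Q : ι × ZMod n → Prop} (h : μ.Pos Q) : ∃ c, Q c := by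
  by_contra hc
  push Not at hc
  have h1 := F2_false μ hc
  unfold Pos at h
  rw [h1] at h
  exact lt_irrefl 0 h

theorem Pos.mono {Q R : ι × ZMod n → Prop} (hQ : μ.Pos Q) (h : ∀ c, Q c → R c) : μ.Pos R :=
  lt_of_lt_of_le hQ (μ.wt_mono h)

theorem Pos.and {Q R : ι × ZMod n → Prop} (hQ : μ.Pos Q) (hR : μ.AE R) :
    μ.Pos fun c => Q c ∧ R c := by
  unfold Pos at hQ ⊢
  rw [μ.wt_split Q R] at hQ
  have h1 : μ.wt (fun c => Q c ∧ ¬ R c) = 0 := F2_zero_of_le μ (fun c hc => hc.2) hR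
  rwa [h1, add_zero] at hQ

theorem Pos.or {Q R : ι × ZMod n → Prop} (h : μ.Pos fun c => Q c ∨ R c) : μ.Pos Q ∨ μ.Pos R := by
  by_contra hc
  push Not at hc
  have h1 := AE.and (μ.not_pos.1 hc.1) (μ.not_pos.1 hc.2)
  refine (μ.not_pos (Q := fun c => Q c ∨ R c)).2 (h1.mono fun c hc => ?_) h
  tauto

theorem Pos.any {α : Type} [Finite α] {Q : α → ι × ZMod n → Prop}
    (h : μ.Pos fun c => ∃ x, Q x c) : ∃ x, μ.Pos (Q x) := by
  by_contra hc
  push Not at hc
  have h1 := AE.all fun x => μ.not_pos.1 (hc x)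
  refine (μ.not_pos (Q := fun c => ∃ x, Q x c)).2 (h1.mono fun c hc => ?_) h
  push Not
  exact hc

theorem pos_nx {Q : ι × ZMod n → Prop} : μ.Pos (fun c => Q (K.nx c)) ↔ μ.Pos Q := by
  unfold Pos
  rw [μ.wt_nx]

theorem pos_tile {Q : ι × ZMod n → Prop} (j : ZMod n) :
    μ.Pos (fun c => Q (c.1, c.2 + j)) ↔ μ.Pos Q := by
  unfold Pos
  rw [μ.wt_tile]

end Mean

end Pool.Agent.Lib_MP_fa6e45
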