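import Pool.Agent.Lib_MP_fa6e45.F2

/-!
PIECE F5a (about 250 lines): basic facts on active pairs and rigid corners. `star_lt`: in a star with at least three
corners two corners have angles with sum `< 2 π` (`K.sum`, all angles positive). `act_*`: `Pos.exists` gives a star of
degree two; use `Comb.deg_two` (K1) and the proofs in Y1 (`Y1_len`, `Y1_ne`; private, repeat them). `act_symm`: `wt_nx` and
`nx (nx c) = c` for degree two. `ae_act`: finitely many pairs; those which are not active have weight 0. `imp_iff`: the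
weight of `c.2 = i, deg = 2` is the weight of `c.2 = i, deg = 2, nx = j`, equal to that of `c.2 = j, deg = 2, nx = i`; all corners
have weight 1 (`wt_corner`, `wt_split`). `rigid_iff`: the definition.
-/

open Set MeasureTheory Complex
open scoped Topology

namespace Pool.Agent.Lib_MP_fa6e45

variable {n : ℕ} [NeZero n] {a l : ZMod n → ℝ} {ι : Type}

private theorem F5a_deg_nx (K : Comb n a l ι) (c : ι × ZMod n) : K.deg (K.nx c) = K.deg c :=
  Function.minimalPeriod_apply (Function.minimalPeriod_pos_iff_mem_periodicPts.1 (K.deg_pos c))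

private theorem F5a_nx_nx (K : Comb n a l ι) (c : ι × ZMod n) (hc : K.deg c = 2) :
    K.nx (K.nx c) = c := by
  have h1 := Function.isPeriodicPt_minimalPeriod K.nx c
  change K.nx^[K.deg c] c = c at h1
  rw [hc] at h1
  exact h1

theorem Comb.star_lt (K : Comb n a l ι) (c : ι × ZMod n) (k : ℕ) (h0 : 0 < k) (hk : k < K.deg c)
    (hd : K.deg c ≠ 2) : a c.2 + a (K.nx^[k] c).2 < 2 * Real.pi := by
  classical
  have h2 : 2 ≤ K.deg c := K.two_le c
  obtain ⟨m, hm0, hmk, hm⟩ : ∃ m, m ≠ 0 ∧ m ≠ k ∧ m < K.deg c := by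
    by_cases h1 : k = 1
    · exact ⟨2, by omega, by omega, by omega⟩
    · exact ⟨1, by omega, by omega, by omega⟩
  have h3 : ∑ j ∈ ({0, k, m} : Finset ℕ), a (K.nx^[j] c).2 ≤
      ∑ j ∈ Finset.range (Function.minimalPeriod K.nx c), a (K.nx^[j] c).2 := by
    refine Finset.sum_le_sum_of_subset_of_nonneg ?_ fun j _ _ => (K.a_pos _).le
    intro j hj
    simp only [Finset.mem_insert, Finset.mem_singleton] at hj
    rw [Finset.mem_range]
    change j < K.deg c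
    omega
  rw [K.sum c, Finset.sum_insert (by simp; omega), Finset.sum_insert (by simp; omega),
    Finset.sum_singleton] at h3
  have h4 := K.a_pos (K.nx^[m] c).2
  change a c.2 + (a (K.nx^[k] c).2 + a (K.nx^[m] c).2) ≤ 2 * Real.pi at h3
  linarith

theorem Comb.star_two (K : Comb n a l ι) (c : ι × ZMod n) (k : ℕ) (h0 : 0 < k) (hk : k < K.deg c)
    (h : a c.2 + a (K.nx^[k] c).2 = 2 * Real.pi) : K.deg c = 2 := by
  by_contra hd
  exact absurd h (K.star_lt c k h0 hk hd).ne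

namespace Mean

variable {K : CombA n a l ι} {μ : Mean K} {i j : ZMod n}

private theorem F5a_compl (h : μ.Act i j) : Compl a l i j := by
  obtain ⟨c, h1, h2, h3⟩ := Pos.exists h
  have h4 := K.toComb.deg_two c h2
  rw [h1, h3] at h4
  exact h4

theorem act_symm (h : μ.Act i j) : μ.Act j i := by
  rw [Act, ← pos_nx]
  refine Pos.mono h fun c hc => ?_
  obtain ⟨h1, h2, h3⟩ := hc
  exact ⟨h3, (F5a_deg_nx K.toComb c).trans h2, by rw [F5a_nx_nx K.toComb c h2]; exact h1⟩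

theorem act_ang (h : μ.Act i j) : a i + a j = 2 * Real.pi := (F5a_compl h).2.1

theorem act_ne (h : μ.Act i j) : i ≠ j := (F5a_compl h).1.symm

theorem act_len (h : μ.Act i j) : (l (i - 1) = l j ∧ l i = l (j - 1)) ∨
    (l (i - 1) = l (j - 1) ∧ l i = l j) := (F5a_compl h).2.2.symm

omit [NeZero n] in
private theorem F5a_two_ne (hn : 3 ≤ n) : (2 : ZMod n) ≠ 0 := by
  intro h
  have h1 : ((2 : ℕ) : ZMod n) = 0 := by exact_mod_cast h
  have h2 := (ZMod.natCast_eq_zero_iff 2 n).1 h1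
  have h3 := Nat.le_of_dvd (by norm_num) h2
  omega

private theorem F5a_one_ne (hn : 3 ≤ n) : (1 : ZMod n) ≠ 0 := by
  intro h
  apply F5a_two_ne hn
  have : (2 : ZMod n) = 1 + 1 := by norm_num
  rw [this, h, add_zero]

/-- the two lengths at a corner of degree two are different -/
private theorem F5a_ne (hn : 3 ≤ n) (hl : NoThree l) {i j : ZMod n} (h : Compl a l i j) :
    l (i - 1) ≠ l i := by
  intro hxy
  obtain ⟨hji, -, h⟩ := h
  have h1 : (1 : ZMod n) ≠ 0 := F5a_one_ne hn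
  have h2 : l (j - 1) = l i ∧ l j = l i := by
    rcases h with ⟨h3, h4⟩ | ⟨h3, h4⟩
    · exact ⟨by rw [← h3, hxy], h4.symm⟩
    · exact ⟨h4.symm, by rw [← h3, hxy]⟩
  have hi : i - 1 ≠ i := by
    intro h3
    apply h1
    exact sub_eq_self.1 h3
  by_cases hj : j - 1 = i
  · refine hl (i - 1) i j hi hji.symm ?_ ⟨hxy, h2.2.symm⟩
    intro h3
    apply F5a_two_ne hn
    have h4 : j - 1 = i := hj
    rw [← h3] at h4
    have h5 : i - 1 - 1 = i - 2 := by ring
    rw [h5] at h4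
    exact sub_eq_self.1 h4
  · refine hl (i - 1) i (j - 1) hi (Ne.symm hj) ?_ ⟨hxy, h2.1.symm⟩
    intro h3
    exact hji (sub_left_injective h3).symm

theorem act_side (hl : NoThree l) (h : μ.Act i j) : l (i - 1) ≠ l i :=
  F5a_ne K.three_le hl (F5a_compl h)

theorem act_deg (h : μ.Act i j) (c : ι × ZMod n) (hc : c.2 = i) (k : ℕ) (h0 : 0 < k)
    (hk : k < K.toComb.deg c) (hj : (K.nx^[k] c).2 = j) : K.toComb.deg c = 2 := by
  refine K.toComb.star_two c k h0 hk ?_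
  rw [hc, hj]
  exact act_ang h

theorem ae_act (μ : Mean K) : μ.AE fun c => K.toComb.deg c = 2 → μ.Act c.2 (K.nx c).2 := by
  have h1 : μ.AE fun c => ∀ x : ZMod n × ZMod n,
      (c.2 = x.1 ∧ K.toComb.deg c = 2 ∧ (K.nx c).2 = x.2) → μ.Act x.1 x.2 := by
    refine AE.all fun x => ?_
    by_cases hx : μ.Act x.1 x.2
    · exact μ.ae_of_forall fun c _ => hx
    · refine (μ.not_pos.1 hx).mono fun c hc h => ?_
      exact absurd h hc
  refine h1.mono fun c hc h => ?_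
  exact hc (c.2, (K.nx c).2) ⟨rfl, h, rfl⟩

private theorem F5a_wt (h : μ.Act i j) (u1 : ∀ x, μ.Act i x → x = j) :
    μ.wt (fun c => c.2 = i ∧ K.toComb.deg c = 2) =
      μ.wt (fun c => c.2 = i ∧ K.toComb.deg c = 2 ∧ (K.nx c).2 = j) := by
  refine μ.wt_congr (μ.ae_act.mono fun c hc => ?_)
  constructor
  · rintro ⟨h1, h2⟩
    refine ⟨h1, h2, u1 _ ?_⟩
    rw [← h1]
    exact hc h2
  · rintro ⟨h1, h2, h3⟩
    exact ⟨h1, h2⟩

private theorem F5a_wt_swap (i j : ZMod n) :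
    μ.wt (fun c => c.2 = i ∧ K.toComb.deg c = 2 ∧ (K.nx c).2 = j) =
      μ.wt (fun c => c.2 = j ∧ K.toComb.deg c = 2 ∧ (K.nx c).2 = i) := by
  rw [← μ.wt_nx fun c => c.2 = j ∧ K.toComb.deg c = 2 ∧ (K.nx c).2 = i]
  congr 1
  funext c
  apply propext
  rw [F5a_deg_nx]
  constructor
  · rintro ⟨h1, h2, h3⟩
    exact ⟨h3, h2, by rw [F5a_nx_nx K.toComb c h2]; exact h1⟩
  · rintro ⟨h1, h2, h3⟩
    rw [F5a_nx_nx K.toComb c h2] at h3
    exact ⟨h3, h2, h1⟩

theorem imp_iff (h : μ.Act i j) (u1 : ∀ x, μ.Act i x → x = j) (u2 : ∀ x, μ.Act j x → x = i) :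
    μ.Imp i ↔ μ.Imp j := by
  have h1 := μ.wt_split (fun c => c.2 = i) (fun c => K.toComb.deg c = 2)
  have h2 := μ.wt_split (fun c => c.2 = j) (fun c => K.toComb.deg c = 2)
  rw [μ.wt_corner, F5a_wt h u1, F5a_wt_swap] at h1
  rw [μ.wt_corner, F5a_wt (act_symm h) u2] at h2
  have h3 : μ.wt (fun c => c.2 = i ∧ ¬ K.toComb.deg c = 2) =
      μ.wt (fun c => c.2 = j ∧ ¬ K.toComb.deg c = 2) := by linarith
  unfold Imp Pos
  exact Iff.of_eq (congrArg (fun x : ℝ => 0 < x) h3)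

private theorem F5a_pos_corner (μ : Mean K) (i : ZMod n) : μ.Pos fun c => c.2 = i := by
  unfold Pos
  rw [μ.wt_corner]
  exact one_pos

private theorem F5a_rigid_one
    (h1 : μ.AE fun c => c.2 = i → K.toComb.deg c = 2 ∧ (K.nx c).2 = j) :
    μ.Act i j ∧ ¬ μ.Imp i ∧ ∀ x, μ.Act i x → x = j := by
  refine ⟨?_, fun h => ?_, fun x h => ?_⟩
  · refine ((F5a_pos_corner μ i).and h1).mono fun c hc => ?_
    exact ⟨hc.1, (hc.2 hc.1).1, (hc.2 hc.1).2⟩
  · obtain ⟨c, hc1, hc2⟩ := (Pos.and h h1).exists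
    exact hc1.2 (hc2 hc1.1).1
  · obtain ⟨c, hc1, hc2⟩ := (Pos.and h h1).exists
    rw [← hc1.2.2]
    exact (hc2 hc1.1).2

private theorem F5a_rigid_two (h1 : ¬ μ.Imp i) (h2 : ∀ x, μ.Act i x → x = j) :
    μ.AE fun c => c.2 = i → K.toComb.deg c = 2 ∧ (K.nx c).2 = j := by
  refine ((μ.not_pos.1 h1).and μ.ae_act).mono fun c hc hi => ?_
  have h3 : K.toComb.deg c = 2 := by
    by_contra h3
    exact hc.1 ⟨hi, h3⟩
  refine ⟨h3, h2 _ ?_⟩
  rw [← hi]
  exact hc.2 h3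

theorem rigid_iff : μ.Rigid i ↔ ∃ j, μ.Act i j ∧ ¬ μ.Imp i ∧ ¬ μ.Imp j ∧
    (∀ x, μ.Act i x → x = j) ∧ ∀ x, μ.Act j x → x = i := by
  constructor
  · rintro ⟨j, h1, h2⟩
    obtain ⟨h3, h4, h5⟩ := F5a_rigid_one h1
    obtain ⟨h6, h7, h8⟩ := F5a_rigid_one h2
    exact ⟨j, h3, h4, h7, h5, h8⟩
  · rintro ⟨j, h1, h2, h3, h4, h5⟩
    exact ⟨j, F5a_rigid_two h2 h4, F5a_rigid_two h3 h5⟩

theorem rigid_act (h : μ.Rigid i) (h2 : μ.Act i j) : μ.Rigid j := by
  obtain ⟨j', h3, h4, h5, h6, h7⟩ := rigid_iff.1 h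
  obtain rfl := h6 j h2
  exact rigid_iff.2 ⟨i, act_symm h2, h5, h4, h7, h6⟩

theorem act_or_imp (μ : Mean K) (i : ZMod n) : (∃ j, μ.Act i j) ∨ μ.Imp i := by
  have h1 : μ.Pos fun c => (c.2 = i ∧ K.toComb.deg c = 2) ∨ (c.2 = i ∧ K.toComb.deg c ≠ 2) :=
    (F5a_pos_corner μ i).mono fun c hc => by
      by_cases h : K.toComb.deg c = 2
      · exact Or.inl ⟨hc, h⟩
      · exact Or.inr ⟨hc, h⟩
  rcases Pos.or h1 with h2 | h2
  · left
    have h3 : μ.Pos fun c => ∃ j, c.2 = i ∧ K.toComb.deg c = 2 ∧ (K.nx c).2 = j :=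
      h2.mono fun c hc => ⟨_, hc.1, hc.2, rfl⟩
    exact Pos.any h3
  · exact Or.inr h2

end Mean

end Pool.Agent.Lib_MP_fa6e45
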