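import Pool.Agent.Lib_MP_fa6e45.F5a

/-!
PIECE F5b (about 300 lines): two neighbouring active corners `i`, `i + 1` whose outer sides have different lengths are
rigid. Let `x = l (i - 1)`, `y = l i`, `z = l (i + 1)`, `x ≠ z` (`x ≠ y ≠ z` by `act_side`). The partner `j` of `i` has sides of
lengths `x, y`, its `y`-side is not side `i` (else `j = i + 1` and `z = x`), so it is the second side `s` of length `y`, and the
partner `k` of `i + 1` is the other end of `s`. So (a) the partners `j` of `i` and `k` of `i + 1` are unique, and conversely (all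
corners at the sides of length `y` are `i, i + 1, j, k`, `NoThree`). (b) On every tile: `(t, i)` is in a star `{i, j}` of degree two
iff `(t, i + 1)` is in a star `{i + 1, k}` of degree two (`K.flip`: the other end of the common side of length `y`; a star
containing `i + 1` and `k` has degree two by `act_deg`). So with `wt_tile`, `wt_nx`, `ae_act` all four corners have the same
improper weight: `Imp i ↔ Imp j ↔ Imp (i + 1) ↔ Imp k`. (c) Assume `Imp`. Let `r0` be the corner of `{i, j}` with angle `> π`, `g0` the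
other one, `r1`, `g1` the same for `{i + 1, k}`. A star of degree `≠ 2` with `r0`: the neighbour across the side of length `y` is
one of `i, i + 1, j, k`, not `r0`, not `g0`, not `r1` (`star_lt`), so it is `g1` and `a r0 + a g1 < 2 π`, i.e. `a g1 < a g0`. In the same way
`a g0 < a g1`. Contradiction. So no corner is improper, and `rigid_iff`.
-/

open Set MeasureTheory Complex
open scoped Topology

namespace Pool.Agent.Lib_MP_fa6e45

variable {n : ℕ} [NeZero n] {a l : ZMod n → ℝ} {ι : Type}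

private theorem F5b_per (K : Comb n a l ι) (c : ι × ZMod n) : c ∈ Function.periodicPts K.nx :=
  Function.minimalPeriod_pos_iff_mem_periodicPts.1 (K.deg_pos c)

private theorem F5b_deg_iter (K : Comb n a l ι) (c : ι × ZMod n) (k : ℕ) :
    K.deg (K.nx^[k] c) = K.deg c :=
  Function.minimalPeriod_apply_iterate (F5b_per K c) k

private theorem F5b_deg_nx (K : Comb n a l ι) (c : ι × ZMod n) : K.deg (K.nx c) = K.deg c :=
  F5b_deg_iter K c 1

private theorem F5b_nx_nx (K : Comb n a l ι) (c : ι × ZMod n) (hc : K.deg c = 2) :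
    K.nx (K.nx c) = c := by
  have h1 := Function.isPeriodicPt_minimalPeriod K.nx c
  change K.nx^[K.deg c] c = c at h1
  rw [hc] at h1
  exact h1

/-- side `σ` joins the corners `p` and `p'` -/
private def F5b_Lk (σ p p' : ZMod n) : Prop := (σ = p ∧ p' = p + 1) ∨ (σ = p - 1 ∧ p' = p - 1)

/-- the two sides at the corner `p` have the lengths `u`, `v` -/
private def F5b_HS (l : ZMod n → ℝ) (p : ZMod n) (u v : ℝ) : Prop :=
  (l (p - 1) = u ∧ l p = v) ∨ (l (p - 1) = v ∧ l p = u)

omit [NeZero n] in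
private theorem F5b_HS_inj {p : ZMod n} {u v w : ℝ} (h1 : F5b_HS l p u v) (h2 : F5b_HS l p w v) :
    u = w := by
  rcases h1 with ⟨h1, h3⟩ | ⟨h1, h3⟩ <;> rcases h2 with ⟨h2, h4⟩ | ⟨h2, h4⟩
  · exact h1.symm.trans h2
  · exact h1.symm.trans (h2.trans (h3.symm.trans h4))
  · exact h3.symm.trans (h4.trans (h1.symm.trans h2))
  · exact h3.symm.trans h4

omit [NeZero n] in
private theorem F5b_Lk_uniq {σ σ' p e e' : ZMod n} {u y : ℝ} (hu : u ≠ y)
    (hp : F5b_HS l p u y) (h1 : F5b_Lk σ p e) (h2 : F5b_Lk σ' p e') (l1 : l σ = y)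
    (l2 : l σ' = y) : e = e' := by
  rcases h1 with ⟨a1, b1⟩ | ⟨a1, b1⟩ <;> rcases h2 with ⟨a2, b2⟩ | ⟨a2, b2⟩
  · rw [b1, b2]
  · exfalso
    rw [a1] at l1
    rw [a2] at l2
    rcases hp with ⟨h3, h4⟩ | ⟨h3, h4⟩
    · exact hu (h3.symm.trans l2)
    · exact hu (h4.symm.trans l1)
  · exfalso
    rw [a1] at l1
    rw [a2] at l2
    rcases hp with ⟨h3, h4⟩ | ⟨h3, h4⟩
    · exact hu (h3.symm.trans l1)
    · exact hu (h4.symm.trans l2)
  · rw [b1, b2]

/-- the other end of a common side of a two-tile star -/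
private theorem F5b_cross (K : Comb n a l ι) (c : ι × ZMod n) (hc : K.deg c = 2) {σ e : ZMod n}
    (h : F5b_Lk σ c.2 e) : ∃ σ' e' : ZMod n, F5b_Lk σ' (K.nx c).2 e' ∧ l σ' = l σ ∧
      (K.nx (c.1, e) = ((K.nx c).1, e') ∨ K.nx ((K.nx c).1, e') = (c.1, e)) := by
  -- the exit side
  have hA : ∀ σ e : ZMod n, σ = exS K.rf c → (c.1, e) = bwd K.rf c →
      ∃ σ' e' : ZMod n, F5b_Lk σ' (K.nx c).2 e' ∧ l σ' = l σ ∧
      (K.nx (c.1, e) = ((K.nx c).1, e') ∨ K.nx ((K.nx c).1, e') = (c.1, e)) := by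
    intro σ e h1 h2
    refine ⟨enS K.rf (K.nx c), (fwd K.rf (K.nx c)).2, ?_, ?_, Or.inr ?_⟩
    · unfold enS fwd F5b_Lk
      by_cases hr : K.rf (K.nx c).1 = true
      · right
        simp [hr]
      · left
        simp [hr]
    · rw [h1]
      exact K.len c
    · rw [h2, ← K.flip c]
      rfl
  have hB : ∀ σ e : ZMod n, σ = enS K.rf c → (c.1, e) = fwd K.rf c →
      ∃ σ' e' : ZMod n, F5b_Lk σ' (K.nx c).2 e' ∧ l σ' = l σ ∧
      (K.nx (c.1, e) = ((K.nx c).1, e') ∨ K.nx ((K.nx c).1, e') = (c.1, e)) := by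
    intro σ e h1 h2
    have hp := F5b_nx_nx K c hc
    refine ⟨exS K.rf (K.nx c), (bwd K.rf (K.nx c)).2, ?_, ?_, Or.inl ?_⟩
    · unfold exS bwd F5b_Lk
      by_cases hr : K.rf (K.nx c).1 = true
      · left
        simp [hr]
      · right
        simp [hr]
    · have h3 := K.len (K.nx c)
      rw [hp] at h3
      rw [h1, h3]
    · have h3 := K.flip (K.nx c)
      rw [hp] at h3
      rw [h2, h3]
      rfl
  by_cases hr : K.rf c.1 = true
  · rcases h with ⟨h1, h2⟩ | ⟨h1, h2⟩
    · refine hA σ e ?_ ?_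
      · unfold exS
        simp [hr, h1]
      · unfold bwd
        simp [hr, h2]
    · refine hB σ e ?_ ?_
      · unfold enS
        simp [hr, h1]
      · unfold fwd
        simp [hr, h2]
  · rcases h with ⟨h1, h2⟩ | ⟨h1, h2⟩
    · refine hB σ e ?_ ?_
      · unfold enS
        simp [hr, h1]
      · unfold fwd
        simp [hr, h2]
    · refine hA σ e ?_ ?_
      · unfold exS
        simp [hr, h1]
      · unfold bwd
        simp [hr, h2]

namespace Mean

variable {K : CombA n a l ι} {μ : Mean K} {i j k : ZMod n}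

/-- the neighbour `e` of `c` across a side of length `l s`: one of the ends of a side of this length -/
theorem across (c : ι × ZMod n) (s : ZMod n) (hs : s = c.2 ∨ s = c.2 - 1)
    (hd : K.toComb.deg c ≠ 2) : ∃ (q : ℕ) (t : ZMod n), 0 < q ∧ q < K.toComb.deg c ∧ l t = l s ∧
      ((K.nx^[q] c).2 = t ∨ (K.nx^[q] c).2 = t + 1) := by
  have h2 : 2 ≤ K.toComb.deg c := K.toComb.two_le c
  by_cases hx : s = exS K.rf c
  · refine ⟨1, enS K.rf (K.nx c), by norm_num, by omega, ?_, ?_⟩
    · rw [hx]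
      exact K.len c
    · rw [Function.iterate_one]
      unfold enS
      by_cases hr : K.rf (K.nx c).1 = true
      · right
        simp [hr]
      · left
        simp [hr]
  · have hen : s = enS K.rf c := by
      unfold exS at hx
      unfold enS
      by_cases hr : K.rf c.1 = true
      · simp only [hr, if_true] at hx ⊢
        rcases hs with h | h
        · exact absurd h hx
        · exact h
      · simp only [hr] at hx ⊢
        rcases hs with h | h
        · exact h
        · exact absurd h hx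
    have hit : K.nx (K.nx^[K.toComb.deg c - 1] c) = c := by
      rw [← Function.iterate_succ_apply' K.nx]
      have h3 : (K.toComb.deg c - 1).succ = K.toComb.deg c := by omega
      rw [h3]
      exact Function.isPeriodicPt_minimalPeriod K.nx c
    refine ⟨K.toComb.deg c - 1, exS K.rf (K.nx^[K.toComb.deg c - 1] c), by omega, by omega, ?_, ?_⟩
    · have h3 := K.len (K.nx^[K.toComb.deg c - 1] c)
      rw [hit] at h3
      rw [hen, h3]
    · unfold exS
      by_cases hr : K.rf (K.nx^[K.toComb.deg c - 1] c).1 = true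
      · left
        simp [hr]
      · right
        simp [hr]

private theorem F5b_adj (h : μ.Act i j) (x y : ι × ZMod n) (hxy : K.nx x = y) (hx : x.2 = i)
    (hy : y.2 = j) : K.toComb.deg x = 2 := by
  have h2 : 2 ≤ K.toComb.deg x := K.toComb.two_le x
  refine act_deg h x hx 1 (by norm_num) (by omega) ?_
  rw [Function.iterate_one, hxy, hy]

/-- transport of a two-tile star along a common side -/
private theorem F5b_step {p p' σ e σ' e' : ZMod n} {u y : ℝ} (hu : u ≠ y)
    (hp' : F5b_HS l p' u y) (h1 : F5b_Lk σ p e) (h2 : F5b_Lk σ' p' e') (l1 : l σ = y)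
    (l2 : l σ' = y) (hA : μ.Act e e') (c : ι × ZMod n) (hc : c.2 = p)
    (hd : K.toComb.deg c = 2) (hn' : (K.nx c).2 = p') :
    K.toComb.deg (c.1, e) = 2 ∧ (K.nx (c.1, e)).2 = e' := by
  rw [← hc] at h1
  obtain ⟨σ'', e'', h3, h4, h5⟩ := F5b_cross K.toComb c hd h1
  rw [hn'] at h3
  have h6 : e'' = e' := F5b_Lk_uniq hu hp' h3 h2 (h4.trans l1) l2
  subst h6
  rcases h5 with h5 | h5
  · exact ⟨F5b_adj hA _ _ h5 rfl rfl, by
      have := congrArg Prod.snd h5
      exact this⟩
  · have h7 : K.toComb.deg ((K.nx c).1, e'') = 2 := F5b_adj (act_symm hA) _ _ h5 rfl rfl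
    have h8 : K.toComb.deg (c.1, e) = 2 := by
      rw [← h7, ← F5b_deg_nx K.toComb ((K.nx c).1, e'')]
      exact congrArg K.toComb.deg h5.symm
    have h9 := F5b_nx_nx K.toComb _ h7
    have h10 : K.nx (K.nx ((K.nx c).1, e'')) = ((K.nx c).1, e'') := h9
    rw [h5] at h10
    exact ⟨h8, congrArg Prod.snd h10⟩

private theorem F5b_act_HS (h : μ.Act i j) {u v : ℝ} (hi : F5b_HS l i u v) : F5b_HS l j u v := by
  unfold F5b_HS at hi ⊢
  rcases act_len h with ⟨h1, h2⟩ | ⟨h1, h2⟩
  · rw [h1, h2] at hi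
    rcases hi with ⟨h3, h4⟩ | ⟨h3, h4⟩
    · exact Or.inr ⟨h4, h3⟩
    · exact Or.inl ⟨h4, h3⟩
  · rw [h1, h2] at hi
    exact hi

private theorem F5b_imp_wt (h : ∀ x, μ.Act i x → x = j) :
    μ.wt (fun c => c.2 = i ∧ K.toComb.deg c ≠ 2) =
      1 - μ.wt (fun c => c.2 = i ∧ K.toComb.deg c = 2 ∧ (K.nx c).2 = j) := by
  have h1 := μ.wt_split (fun c => c.2 = i) (fun c => K.toComb.deg c = 2)
  rw [μ.wt_corner i] at h1
  have h2 : μ.wt (fun c => c.2 = i ∧ K.toComb.deg c = 2) =
      μ.wt (fun c => c.2 = i ∧ K.toComb.deg c = 2 ∧ (K.nx c).2 = j) := by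
    refine μ.wt_congr ((ae_act μ).mono fun c hc => ?_)
    constructor
    · rintro ⟨h3, h4⟩
      refine ⟨h3, h4, ?_⟩
      have h5 := hc h4
      rw [h3] at h5
      exact h _ h5
    · rintro ⟨h3, h4, -⟩
      exact ⟨h3, h4⟩
  rw [← h2]
  have h3 : μ.wt (fun c => c.2 = i ∧ K.toComb.deg c ≠ 2) =
      μ.wt (fun c => c.2 = i ∧ ¬ K.toComb.deg c = 2) := rfl
  rw [h3]
  linarith

private theorem F5b_lt {r g : ZMod n} {y : ℝ} (hI : μ.Imp r) (hy : l r = y ∨ l (r - 1) = y)
    (hall : ∀ p t : ZMod n, l t = y → (p = t ∨ p = t + 1) → 2 * Real.pi ≤ a r + a p ∨ p = g) :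
    a r + a g < 2 * Real.pi := by
  obtain ⟨c, hc, hd⟩ := Pos.exists hI
  have h0 : ∃ s : ZMod n, (s = c.2 ∨ s = c.2 - 1) ∧ l s = y := by
    rcases hy with h | h
    · exact ⟨r, Or.inl hc.symm, h⟩
    · exact ⟨r - 1, Or.inr (by rw [hc]), h⟩
  obtain ⟨s, hs, hsy⟩ := h0
  obtain ⟨q, t, hq0, hq, hlt, hqt⟩ := across (K := K) c s hs hd
  have h1 := Comb.star_lt K.toComb c q hq0 hq hd
  have h2 : a c.2 + a (K.nx^[q] c).2 < 2 * Real.pi := h1
  rw [hc] at h2
  rcases hall (K.nx^[q] c).2 t (hlt.trans hsy) hqt with h3 | h3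
  · linarith
  · rw [h3] at h2
    exact h2

theorem act_adj (hn : 5 ≤ n) (hl : NoThree l) (h1 : μ.Act i j) (h2 : μ.Act (i + 1) k)
    (h : l (i - 1) ≠ l (i + 1)) : μ.Rigid i ∧ μ.Rigid (i + 1) := by
  have e1 : i + 1 - 1 = i := add_sub_cancel_right i 1
  have hxy : l (i - 1) ≠ l i := act_side hl h1
  have hzy : l (i + 1) ≠ l i := by
    have := act_side hl h2
    rw [e1] at this
    exact this.symm
  have Hi : F5b_HS l i (l (i - 1)) (l i) := Or.inl ⟨rfl, rfl⟩
  have Hi1 : F5b_HS l (i + 1) (l (i + 1)) (l i) := Or.inr ⟨by rw [e1], rfl⟩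
  have Hj := F5b_act_HS h1 Hi
  have Hk := F5b_act_HS h2 Hi1
  have hij : i ≠ j := act_ne h1
  have hik : i + 1 ≠ k := act_ne h2
  -- `j` is not `i + 1`, `k` is not `i`, `j` is not `k`
  have hj1 : j ≠ i + 1 := by
    rintro rfl
    exact h (F5b_HS_inj Hj Hi1)
  have hk0 : k ≠ i := by
    rintro rfl
    exact h (F5b_HS_inj Hi Hk)
  have hjk : j ≠ k := by
    rintro rfl
    exact h (F5b_HS_inj Hj Hk)
  -- the second side of length `l i`
  obtain ⟨s, hsi, hsl, hsjk, hskj, hsc⟩ : ∃ s : ZMod n, s ≠ i ∧ l s = l i ∧ F5b_Lk s j k ∧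
      F5b_Lk s k j ∧ (∀ p, (p = s ∨ p = s + 1) → p = j ∨ p = k) := by
    have key : ∀ s1 s2 : ZMod n, l s1 = l i → l s2 = l i → s1 ≠ i → s2 ≠ i → s1 = s2 := by
      intro s1 s2 a1 a2 b1 b2
      by_contra hne
      exact hl i s1 s2 b1.symm hne b2.symm ⟨a1.symm, a1.trans a2.symm⟩
    rcases Hj with ⟨p1, p2⟩ | ⟨p1, p2⟩ <;> rcases Hk with ⟨q1, q2⟩ | ⟨q1, q2⟩
    · -- sides `j` and `k`
      exact absurd (key j k p2 q2 hij.symm hk0) hjk
    · -- sides `j` and `k - 1`
      have h3 : j = k - 1 := key j (k - 1) p2 q1 hij.symm (by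
        intro h4
        exact hik (by rw [← h4]; ring))
      refine ⟨j, hij.symm, p2, Or.inl ⟨rfl, by rw [h3]; ring⟩, Or.inr ⟨h3, h3⟩, ?_⟩
      rintro p (rfl | rfl)
      · exact Or.inl rfl
      · right
        rw [h3]; ring
    · -- sides `j - 1` and `k`
      have h3 : j - 1 = k := key (j - 1) k p1 q2 (by
        intro h4
        exact hj1 (by rw [← h4]; ring)) hk0
      have h3' : k = j - 1 := h3.symm
      refine ⟨k, hk0, q2, Or.inr ⟨h3', h3'⟩, Or.inl ⟨rfl, by rw [h3']; ring⟩, ?_⟩
      rintro p (rfl | rfl)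
      · exact Or.inr rfl
      · left
        rw [h3']; ring
    · -- sides `j - 1` and `k - 1`
      have h3 : j - 1 = k - 1 := key (j - 1) (k - 1) p1 q1 (by
        intro h4
        exact hj1 (by rw [← h4]; ring)) (by
        intro h4
        exact hik (by rw [← h4]; ring))
      exact absurd (sub_left_injective h3) hjk
  -- corners at the sides of length `l i`
  have hside : ∀ t : ZMod n, l t = l i → t = i ∨ t = s := by
    intro t ht
    by_contra hcon
    push Not at hcon
    exact hl i s t hsi.symm (Ne.symm hcon.2) (Ne.symm hcon.1) ⟨hsl.symm, hsl.trans ht.symm⟩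
  have hcor : ∀ p t : ZMod n, l t = l i → (p = t ∨ p = t + 1) →
      p = i ∨ p = i + 1 ∨ p = j ∨ p = k := by
    intro p t ht hp
    rcases hside t ht with rfl | rfl
    · rcases hp with hp | hp
      · exact Or.inl hp
      · exact Or.inr (Or.inl hp)
    · exact Or.inr (Or.inr (hsc p hp))
  have hHS : ∀ (p : ZMod n) (u : ℝ), F5b_HS l p u (l i) → p = i ∨ p = i + 1 ∨ p = j ∨ p = k := by
    rintro p u (⟨p1, p2⟩ | ⟨p1, p2⟩)
    · exact hcor p p p2 (Or.inl rfl)
    · exact hcor p (p - 1) p1 (Or.inr (by ring))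
  have u1 : ∀ x, μ.Act i x → x = j := by
    intro x hx
    have h3 := F5b_act_HS hx Hi
    rcases hHS x _ h3 with rfl | rfl | rfl | rfl
    · exact absurd rfl (act_ne hx)
    · exact absurd (F5b_HS_inj h3 Hi1) h
    · rfl
    · exact absurd (F5b_HS_inj h3 Hk) h
  have u2 : ∀ x, μ.Act j x → x = i := by
    intro x hx
    have h3 := F5b_act_HS hx Hj
    rcases hHS x _ h3 with rfl | rfl | rfl | rfl
    · rfl
    · exact absurd (F5b_HS_inj h3 Hi1) h
    · exact absurd rfl (act_ne hx)
    · exact absurd (F5b_HS_inj h3 Hk) h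
  have u3 : ∀ x, μ.Act (i + 1) x → x = k := by
    intro x hx
    have h3 := F5b_act_HS hx Hi1
    rcases hHS x _ h3 with rfl | rfl | rfl | rfl
    · exact absurd (F5b_HS_inj Hi h3) h
    · exact absurd rfl (act_ne hx)
    · exact absurd (F5b_HS_inj Hj h3) h
    · rfl
  have u4 : ∀ x, μ.Act k x → x = i + 1 := by
    intro x hx
    have h3 := F5b_act_HS hx Hk
    rcases hHS x _ h3 with rfl | rfl | rfl | rfl
    · exact absurd (F5b_HS_inj Hi h3) h
    · rfl
    · exact absurd (F5b_HS_inj Hj h3) h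
    · exact absurd rfl (act_ne hx)
  -- the two-tile stars on the same tile
  have hcong : (fun c : ι × ZMod n => c.2 = i ∧ K.toComb.deg c = 2 ∧ (K.nx c).2 = j) =
      fun c => (c.1, c.2 + 1).2 = i + 1 ∧ K.toComb.deg (c.1, c.2 + 1) = 2 ∧
        (K.nx (c.1, c.2 + 1)).2 = k := by
    funext c
    apply propext
    constructor
    · rintro ⟨c1, c2, c3⟩
      have h3 := F5b_step (σ := i) (e := i + 1) (e' := k) hxy Hj (Or.inl ⟨rfl, rfl⟩) hsjk rfl hsl h2
        c c1 c2 c3
      rw [c1]
      exact ⟨rfl, h3.1, h3.2⟩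
    · rintro ⟨c1, c2, c3⟩
      have c4 : c.2 = i := add_right_cancel c1
      have h3 := F5b_step (p := i + 1) (σ := i) (e := i) (e' := j) hzy Hk (Or.inr ⟨e1.symm, e1.symm⟩)
        hskj rfl hsl h1 (c.1, c.2 + 1) c1 c2 c3
      have c5 : (c.1, i) = c := by rw [← c4]
      simp only [c5] at h3
      exact ⟨c4, h3.1, h3.2⟩
  have hw : μ.wt (fun c => c.2 = i ∧ K.toComb.deg c = 2 ∧ (K.nx c).2 = j) =
      μ.wt (fun c => c.2 = i + 1 ∧ K.toComb.deg c = 2 ∧ (K.nx c).2 = k) := by
    rw [hcong]
    exact μ.wt_tile (fun c => c.2 = i + 1 ∧ K.toComb.deg c = 2 ∧ (K.nx c).2 = k) 1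
  have hImp : μ.Imp i ↔ μ.Imp (i + 1) := by
    unfold Imp Pos
    rw [F5b_imp_wt u1, F5b_imp_wt u3, hw]
  have hImp1 : μ.Imp i ↔ μ.Imp j := imp_iff h1 u1 u2
  have hImp2 : μ.Imp (i + 1) ↔ μ.Imp k := imp_iff h2 u3 u4
  have aj := act_ang h1
  have ak := act_ang h2
  have hno : ¬ μ.Imp i := by
    intro hI
    have hI1 := hImp.1 hI
    have hIj := hImp1.1 hI
    have hIk := hImp2.1 hI1
    have yi : l i = l i ∨ l (i - 1) = l i := Or.inl rfl
    have yi1 : l (i + 1) = l i ∨ l (i + 1 - 1) = l i := Or.inr (by rw [e1])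
    have yj : l j = l i ∨ l (j - 1) = l i := by
      rcases Hj with ⟨-, p2⟩ | ⟨p1, -⟩
      · exact Or.inl p2
      · exact Or.inr p1
    have yk : l k = l i ∨ l (k - 1) = l i := by
      rcases Hk with ⟨-, p2⟩ | ⟨p1, -⟩
      · exact Or.inl p2
      · exact Or.inr p1
    rcases lt_or_gt_of_ne (K.a_ne i) with hi | hi <;>
      rcases lt_or_gt_of_ne (K.a_ne (i + 1)) with hi1 | hi1
    · -- `j`, `k` are the large corners
      have f1 := F5b_lt (g := i + 1) hIj yj (by
        intro p t ht hp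
        rcases hcor p t ht hp with rfl | rfl | rfl | rfl
        · left; linarith
        · right; rfl
        · left; linarith
        · left; linarith)
      have f2 := F5b_lt (g := i) hIk yk (by
        intro p t ht hp
        rcases hcor p t ht hp with rfl | rfl | rfl | rfl
        · right; rfl
        · left; linarith
        · left; linarith
        · left; linarith)
      linarith
    · -- `j`, `i + 1`
      have f1 := F5b_lt (g := k) hIj yj (by
        intro p t ht hp
        rcases hcor p t ht hp with rfl | rfl | rfl | rfl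
        · left; linarith
        · left; linarith
        · left; linarith
        · right; rfl)
      have f2 := F5b_lt (g := i) hI1 yi1 (by
        intro p t ht hp
        rcases hcor p t ht hp with rfl | rfl | rfl | rfl
        · right; rfl
        · left; linarith
        · left; linarith
        · left; linarith)
      linarith
    · -- `i`, `k`
      have f1 := F5b_lt (g := i + 1) hI yi (by
        intro p t ht hp
        rcases hcor p t ht hp with rfl | rfl | rfl | rfl
        · left; linarith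
        · right; rfl
        · left; linarith
        · left; linarith)
      have f2 := F5b_lt (g := j) hIk yk (by
        intro p t ht hp
        rcases hcor p t ht hp with rfl | rfl | rfl | rfl
        · left; linarith
        · left; linarith
        · right; rfl
        · left; linarith)
      linarith
    · -- `i`, `i + 1`
      have f1 := F5b_lt (g := k) hI yi (by
        intro p t ht hp
        rcases hcor p t ht hp with rfl | rfl | rfl | rfl
        · left; linarith
        · left; linarith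
        · left; linarith
        · right; rfl)
      have f2 := F5b_lt (g := j) hI1 yi1 (by
        intro p t ht hp
        rcases hcor p t ht hp with rfl | rfl | rfl | rfl
        · left; linarith
        · left; linarith
        · right; rfl
        · left; linarith)
      linarith
  have hno1 : ¬ μ.Imp (i + 1) := fun hh => hno (hImp.2 hh)
  exact ⟨rigid_iff.2 ⟨j, h1, hno, fun hh => hno (hImp1.2 hh), u1, u2⟩,
    rigid_iff.2 ⟨k, h2, hno1, fun hh => hno1 (hImp2.2 hh), u3, u4⟩⟩

end Mean

end Pool.Agent.Lib_MP_fa6e45
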