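import Pool.Agent.Lib_MP_fa6e45.F5b

/-!
PIECE F5c (about 250 lines): active pairs `i`, `i + 1` (then `l (i - 1) = l (i + 1)` by `act_len`, `act_side`; `y = l i`).
`act_mid`: side `i` is the only one of length `y`. The partners of `i` and `i + 1` are unique (corners at sides of length
`y`: `i`, `i + 1`), so `Imp i ↔ Imp (i + 1)` (`imp_iff`); if they are improper take the one, `r`, with angle `> π`: in a star of
degree `≠ 2` its neighbour across the side `i` (`across`) is `i` or `i + 1`, contradiction to `star_lt` (sum of the angles `≥ 2 π`).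
`act_cc`: the other side of length `y` is `s`; the corners at the sides of length `y` are `i, i + 1, s, s + 1`;
`l (s - 1) = l (s + 1) ≠ l (i - 1)` (else three or four equal sides, `5 ≤ n`), so the partners are unique. If one pair is
improper: `r0` (angle `> π`) of `{i, i + 1}`, its neighbour across `y` is the corner `g1` of `{s, s + 1}` with angle `< π`, so
`a g1 < a g0`, and `g1` is in a star of degree `≠ 2` with positive weight (`Pos` of the set of these stars, `pos_nx`), so the pair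
`{s, s + 1}` is improper, too, and `a g0 < a g1`, contradiction. So both pairs are not improper: `rigid_iff`.
-/

open Set MeasureTheory Complex
open scoped Topology

namespace Pool.Agent.Lib_MP_fa6e45

variable {n : ℕ} [NeZero n] {a l : ZMod n → ℝ} {ι : Type}

private theorem F5c_deg (K : Comb n a l ι) (c : ι × ZMod n) (k : ℕ) :
    K.deg (K.nx^[k] c) = K.deg c :=
  Function.minimalPeriod_apply_iterate
    (Function.minimalPeriod_pos_iff_mem_periodicPts.1 (K.deg_pos c)) k

omit [NeZero n] in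
private theorem F5c_cast_ne (hn : 5 ≤ n) (m : ℕ) (h0 : 0 < m) (hm : m < 5) : (m : ZMod n) ≠ 0 := by
  intro h
  have h2 := (ZMod.natCast_eq_zero_iff m n).1 h
  have h3 := Nat.le_of_dvd h0 h2
  omega

namespace Mean

variable {K : CombA n a l ι} {μ : Mean K} {i j k s : ZMod n}

/-- one of the two corners has angle `> π` -/
private theorem F5c_big (h : μ.Act i (i + 1)) (h1 : μ.Imp i) (h2 : μ.Imp (i + 1)) :
    ∃ r g : ZMod n, μ.Imp r ∧ (i = r ∨ i = r - 1) ∧ Real.pi < a r ∧ a g < Real.pi ∧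
      a r + a g = 2 * Real.pi ∧ ((r = i ∧ g = i + 1) ∨ (r = i + 1 ∧ g = i)) := by
  have ha := act_ang h
  rcases lt_trichotomy (a i) Real.pi with hlt | heq | hgt
  · exact ⟨i + 1, i, h2, Or.inr (by ring), by linarith, hlt, by linarith, Or.inr ⟨rfl, rfl⟩⟩
  · exact absurd heq (K.a_ne i)
  · exact ⟨i, i + 1, h1, Or.inl rfl, hgt, by linarith, ha, Or.inl ⟨rfl, rfl⟩⟩

private theorem F5c_key (hi : μ.Act i (i + 1)) (hcl : ∀ t, l t = l i → t = i ∨ t = s)
    (h1 : μ.Imp i) (h2 : μ.Imp (i + 1)) :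
    ∃ g0, (g0 = i ∨ g0 = i + 1) ∧ a g0 < Real.pi ∧
      ∃ g, (g = s ∨ g = s + 1) ∧ a g < a g0 ∧ μ.Imp g := by
  obtain ⟨r, g0, hr, hside, hrp, hgp, hsum, hcase⟩ := F5c_big hi h1 h2
  have hg0 : g0 = i ∨ g0 = i + 1 := by
    rcases hcase with ⟨-, h⟩ | ⟨-, h⟩
    · exact Or.inr h
    · exact Or.inl h
  have hri : ∀ x, x = i ∨ x = i + 1 → x = r ∨ x = g0 := by
    rintro x (rfl | rfl)
    · rcases hcase with ⟨h, -⟩ | ⟨-, h⟩
      · exact Or.inl h.symm
      · exact Or.inr h.symm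
    · rcases hcase with ⟨-, h⟩ | ⟨h, -⟩
      · exact Or.inr h.symm
      · exact Or.inl h.symm
  refine ⟨g0, hg0, hgp, ?_⟩
  by_contra hcon
  push Not at hcon
  have hae : μ.AE fun c => ∀ g : ZMod n, (g = s ∨ g = s + 1) → a g < a g0 →
      ¬ (c.2 = g ∧ K.toComb.deg c ≠ 2) := by
    refine AE.all fun g => ?_
    by_cases hg : (g = s ∨ g = s + 1) ∧ a g < a g0
    · have h3 := hcon g hg.1 hg.2
      have h4 := (μ.not_pos).1 h3
      exact h4.mono fun c hc _ _ => hc
    · exact μ.ae_of_forall fun c hg1 hg2 => absurd ⟨hg1, hg2⟩ hg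
  obtain ⟨c, ⟨hc, hd⟩, hst⟩ := (Pos.and hr hae.star).exists
  obtain ⟨q, t, hq0, hq, hlt, ht⟩ := across (K := K) c i (by rw [hc]; exact hside) hd
  have hlt2 := K.toComb.star_lt c q hq0 hq hd
  rw [hc] at hlt2
  rcases hcl t hlt with rfl | rfl
  · rcases hri _ ht with h | h
    · rw [h] at hlt2
      linarith
    · rw [h] at hlt2
      linarith
  · refine hst q _ ht ?_ ⟨rfl, ?_⟩
    · linarith
    · rw [F5c_deg]
      exact hd

theorem act_mid (hn : 5 ≤ n) (hl : NoThree l) (h : μ.Act i (i + 1))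
    (hs : ∀ s, s ≠ i → l s ≠ l i) : μ.Rigid i ∧ μ.Rigid (i + 1) := by
  have hcl : ∀ t, l t = l i → t = i := fun t ht => by
    by_contra hne
    exact hs t hne ht
  have h' := act_symm h
  have u1 : ∀ x, μ.Act i x → x = i + 1 := by
    intro x hx
    rcases act_len hx with ⟨-, h2⟩ | ⟨-, h2⟩
    · have h3 := hcl _ h2.symm
      rw [← h3]
      ring
    · exact absurd (hcl _ h2.symm).symm (act_ne hx)
  have u2 : ∀ x, μ.Act (i + 1) x → x = i := by
    intro x hx
    rcases act_len hx with ⟨h2, -⟩ | ⟨h2, -⟩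
    · rw [add_sub_cancel_right] at h2
      exact hcl _ h2.symm
    · rw [add_sub_cancel_right] at h2
      have h3 := hcl _ h2.symm
      exact absurd (by rw [← h3]; ring) (act_ne hx)
  have hno : ¬ μ.Imp i := by
    intro h1
    have h2 := (imp_iff h u1 u2).1 h1
    obtain ⟨g0, hg0, hgp, g, hg, hlt, -⟩ :=
      F5c_key (s := i) h (fun t ht => Or.inl (hcl t ht)) h1 h2
    have ha := act_ang h
    rcases hg0 with rfl | rfl <;> rcases hg with rfl | rfl
    · exact lt_irrefl _ hlt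
    · linarith
    · linarith
    · exact lt_irrefl _ hlt
  have hno' : ¬ μ.Imp (i + 1) := fun h2 => hno ((imp_iff h u1 u2).2 h2)
  exact ⟨rigid_iff.2 ⟨i + 1, h, hno, hno', u1, u2⟩, rigid_iff.2 ⟨i, h', hno', hno, u2, u1⟩⟩

/-- the outer sides of an active pair `i`, `i + 1` have equal lengths -/
private theorem F5c_out (hl : NoThree l) (h : μ.Act i (i + 1)) :
    l (i - 1) = l (i + 1) ∧ l (i - 1) ≠ l i := by
  have h1 := act_side hl h
  refine ⟨?_, h1⟩
  rcases act_len h with ⟨h2, -⟩ | ⟨h2, -⟩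
  · exact h2
  · rw [add_sub_cancel_right] at h2
    exact absurd h2 h1

private theorem F5c_uniq (hl : NoThree l) (h : μ.Act i (i + 1)) (h2 : μ.Act s (s + 1))
    (hcl : ∀ t, l t = l i → t = i ∨ t = s) (hxz : l (i - 1) ≠ l (s - 1)) :
    (∀ x, μ.Act i x → x = i + 1) ∧ ∀ x, μ.Act (i + 1) x → x = i := by
  obtain ⟨o1, o2⟩ := F5c_out hl h
  obtain ⟨p1, p2⟩ := F5c_out hl h2
  constructor
  · intro x hx
    rcases act_len hx with ⟨h3, h4⟩ | ⟨h3, h4⟩
    · rcases hcl _ h4.symm with h5 | h5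
      · rw [← h5]
        ring
      · exfalso
        have h6 : x = s + 1 := by
          rw [← h5]
          ring
        rw [h6, ← p1] at h3
        exact hxz h3
    · rcases hcl _ h4.symm with h5 | h5
      · exact absurd h5.symm (act_ne hx)
      · rw [h5] at h3
        exact absurd h3 hxz
  · intro x hx
    rcases act_len hx with ⟨h3, h4⟩ | ⟨h3, h4⟩
    · rw [add_sub_cancel_right] at h3
      rcases hcl _ h3.symm with h5 | h5
      · exact h5
      · exfalso
        rw [h5, ← o1] at h4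
        exact hxz h4
    · rw [add_sub_cancel_right] at h3
      rcases hcl _ h3.symm with h5 | h5
      · exact absurd (by rw [← h5]; ring) (act_ne hx)
      · exfalso
        have h6 : x = s + 1 := by
          rw [← h5]
          ring
        rw [h6, ← p1, ← o1] at h4
        exact hxz h4

theorem act_cc (hn : 5 ≤ n) (hl : NoThree l) (h : μ.Act i (i + 1)) (hs : s ≠ i) (hls : l s = l i)
    (h2 : μ.Act s (s + 1)) : μ.Rigid i ∧ μ.Rigid s := by
  obtain ⟨o1, o2⟩ := F5c_out hl h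
  obtain ⟨p1, p2⟩ := F5c_out hl h2
  have hcl : ∀ t, l t = l i → t = i ∨ t = s := by
    intro t ht
    by_contra hcon
    push Not at hcon
    exact hl t i s hcon.1 hs.symm hcon.2 ⟨ht, hls.symm⟩
  have hcl' : ∀ t, l t = l s → t = s ∨ t = i := by
    intro t ht
    exact (hcl t (ht.trans hls)).symm
  have c2 : (2 : ZMod n) ≠ 0 := by exact_mod_cast F5c_cast_ne hn 2 (by norm_num) (by norm_num)
  have c4 : (4 : ZMod n) ≠ 0 := by exact_mod_cast F5c_cast_ne hn 4 (by norm_num) (by norm_num)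
  have hi2 : i - 1 ≠ i + 1 := by
    intro h3
    apply c2
    linear_combination -h3
  have hxz : l (i - 1) ≠ l (s - 1) := by
    intro h3
    have e1 : s - 1 ≠ i - 1 := fun h4 => hs (by linear_combination h4)
    have e2 : s + 1 ≠ i + 1 := fun h4 => hs (by linear_combination h4)
    have e3 : s - 1 = i + 1 := by
      by_contra h4
      exact hl (s - 1) (i - 1) (i + 1) e1 hi2 h4 ⟨h3.symm, o1⟩
    have e4 : s + 1 = i - 1 := by
      by_contra h4
      exact hl (s + 1) (i - 1) (i + 1) h4 hi2 e2 ⟨(h3.trans p1).symm, o1⟩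
    apply c4
    linear_combination e4 - e3
  obtain ⟨u1, u2⟩ := F5c_uniq hl h h2 hcl hxz
  obtain ⟨v1, v2⟩ := F5c_uniq hl h2 h hcl' hxz.symm
  have key : ∀ {g : ZMod n}, (g = i ∨ g = i + 1) → μ.Imp g → μ.Imp i ∧ μ.Imp (i + 1) := by
    rintro g (rfl | rfl) hg
    · exact ⟨hg, (imp_iff h u1 u2).1 hg⟩
    · exact ⟨(imp_iff h u1 u2).2 hg, hg⟩
  have key' : ∀ {g : ZMod n}, (g = s ∨ g = s + 1) → μ.Imp g → μ.Imp s ∧ μ.Imp (s + 1) := by
    rintro g (rfl | rfl) hg
    · exact ⟨hg, (imp_iff h2 v1 v2).1 hg⟩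
    · exact ⟨(imp_iff h2 v1 v2).2 hg, hg⟩
  have ha := act_ang h
  have ha' := act_ang h2
  have both : ¬ (μ.Imp i ∧ μ.Imp (i + 1)) := by
    rintro ⟨m1, m2⟩
    obtain ⟨g0, hg0, hgp, g, hg, hlt, hI⟩ := F5c_key (s := s) h hcl m1 m2
    obtain ⟨m3, m4⟩ := key' hg hI
    obtain ⟨g0', hg0', hgp', g', hg', hlt', -⟩ := F5c_key (s := i) h2 hcl' m3 m4
    have e1 : g = g0' := by
      rcases hg with rfl | rfl <;> rcases hg0' with rfl | rfl
      · rfl
      · linarith
      · linarith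
      · rfl
    have e2 : g' = g0 := by
      rcases hg' with rfl | rfl <;> rcases hg0 with rfl | rfl
      · rfl
      · linarith
      · linarith
      · rfl
    rw [e1] at hlt
    rw [e2] at hlt'
    linarith
  have both' : ¬ (μ.Imp s ∧ μ.Imp (s + 1)) := by
    rintro ⟨m1, m2⟩
    obtain ⟨g0, hg0, hgp, g, hg, hlt, hI⟩ := F5c_key (s := i) h2 hcl' m1 m2
    exact both (key hg hI)
  have n1 : ¬ μ.Imp i := fun h3 => both (key (Or.inl rfl) h3)
  have n2 : ¬ μ.Imp (i + 1) := fun h3 => both (key (Or.inr rfl) h3)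
  have n3 : ¬ μ.Imp s := fun h3 => both' (key' (Or.inl rfl) h3)
  have n4 : ¬ μ.Imp (s + 1) := fun h3 => both' (key' (Or.inr rfl) h3)
  exact ⟨rigid_iff.2 ⟨i + 1, h, n1, n2, u1, u2⟩, rigid_iff.2 ⟨s + 1, h2, n3, n4, v1, v2⟩⟩

end Mean

end Pool.Agent.Lib_MP_fa6e45
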