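import Pool.Agent.Lib_MP_fa6e45.F5a
import Pool.Agent.Lib_MP_fa6e45.X1b

/-!
PIECE F6 (about 200 lines): the arcs between the corners which are not rigid. The partner map on the rigid corners is
an involution with `a i + a (p i) = 2 π` (`rigid_iff`, `rigid_act`), so the rigid corners have the angle sum `π` times their
number, and the others `(m - 2) π`; as it is `> 0` or there are no others (then `-2 π = 0`), `3 ≤ m`. `arcs_exist` (Y2) for
`F = univ.filter (not rigid)`.
-/

open Set MeasureTheory Complex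
open scoped Topology

namespace Pool.Agent.Lib_MP_fa6e45

variable {n : ℕ} [NeZero n] {P : Polygon n} {ι : Type}

/-- the partner of a rigid corner -/
private theorem F6_partner {K : CombA n P.ang P.len ι} (μ : Mean K) :
    ∃ p : ZMod n → ZMod n, ∀ i, μ.Rigid i → μ.Rigid (p i) ∧ p (p i) = i ∧
      P.ang i + P.ang (p i) = 2 * Real.pi := by
  classical
  have h : ∀ i, ∃ j, μ.Rigid i → μ.Act i j := by
    intro i
    by_cases hi : μ.Rigid i
    · obtain ⟨j, hj, _⟩ := Mean.rigid_iff.1 hi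
      exact ⟨j, fun _ => hj⟩
    · exact ⟨i, fun h => absurd h hi⟩
  choose p hp using h
  refine ⟨p, fun i hi => ?_⟩
  have h1 := hp i hi
  have h2 : μ.Rigid (p i) := Mean.rigid_act hi h1
  refine ⟨h2, ?_, Mean.act_ang h1⟩
  obtain ⟨j, _, _, _, u1, u2⟩ := Mean.rigid_iff.1 hi
  have h3 : p i = j := u1 _ h1
  have h4 := hp (p i) h2
  have h5 : μ.Act j (p (p i)) := by
    rw [← h3]
    exact h4
  exact u2 _ h5

private theorem F6_sum {K : CombA n P.ang P.len ι} (μ : Mean K) (R : Finset (ZMod n))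
    (hR : ∀ i, i ∈ R ↔ μ.Rigid i) : ∑ i ∈ R, P.ang i = (R.card : ℝ) * Real.pi := by
  obtain ⟨p, hp⟩ := F6_partner μ
  have h1 : ∑ i ∈ R, P.ang (p i) = ∑ i ∈ R, P.ang i := by
    refine Finset.sum_nbij' p p ?_ ?_ ?_ ?_ ?_
    · intro i hi
      exact (hR _).2 (hp i ((hR i).1 hi)).1
    · intro i hi
      exact (hR _).2 (hp i ((hR i).1 hi)).1
    · intro i hi
      exact (hp i ((hR i).1 hi)).2.1
    · intro i hi
      exact (hp i ((hR i).1 hi)).2.1
    · intro i _
      rfl
  have h2 : ∑ i ∈ R, (P.ang i + P.ang (p i)) = ∑ _i ∈ R, 2 * Real.pi :=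
    Finset.sum_congr rfl fun i hi => (hp i ((hR i).1 hi)).2.2
  rw [Finset.sum_add_distrib, h1, Finset.sum_const, nsmul_eq_mul] at h2
  linarith

theorem Mean.marks_exist {K : CombA n P.ang P.len ι} (μ : Mean K) :
    ∃ (m : ℕ) (_ : NeZero m) (S : Arcs P m), 3 ≤ m ∧ Function.Injective S.κ ∧ Marks μ S ∧
      ∑ j, P.ang (S.κ j) = ((m : ℝ) - 2) * Real.pi := by
  classical
  set F : Finset (ZMod n) := Finset.univ.filter fun i => ¬ μ.Rigid i with hF
  set R : Finset (ZMod n) := Finset.univ.filter fun i => μ.Rigid i with hR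
  have hRm : ∀ i, i ∈ R ↔ μ.Rigid i := fun i => by simp [hR]
  have hFm : ∀ i, i ∈ F ↔ ¬ μ.Rigid i := fun i => by simp [hF]
  have h1 := F6_sum μ R hRm
  have h2 : ∑ i ∈ R, P.ang i + ∑ i ∈ F, P.ang i = ∑ i, P.ang i :=
    Finset.sum_filter_add_sum_filter_not _ _ _
  have h3 : R.card + F.card = n := by
    rw [hR, hF, Finset.card_filter_add_card_filter_not, Finset.card_univ, ZMod.card]
  have h4 : ∑ i ∈ F, P.ang i = ((F.card : ℝ) - 2) * Real.pi := by
    have h5 := K.a_sum
    have h6 : (n : ℝ) = (R.card : ℝ) + (F.card : ℝ) := by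
      rw [← Nat.cast_add, h3]
    rw [← h2, h1, h6] at h5
    linarith
  have hpi := Real.pi_pos
  have h5 : F.Nonempty := by
    by_contra hne
    rw [Finset.not_nonempty_iff_eq_empty] at hne
    rw [hne] at h4
    simp only [Finset.sum_empty, Finset.card_empty, Nat.cast_zero, zero_sub] at h4
    linarith
  have h6 : 0 < ∑ i ∈ F, P.ang i := Finset.sum_pos (fun i _ => K.a_pos i) h5
  have h7 : 3 ≤ F.card := by
    by_contra hlt
    have h8 : F.card ≤ 2 := by omega
    have h9 : (F.card : ℝ) ≤ 2 := by exact_mod_cast h8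
    rw [h4] at h6
    nlinarith
  have : NeZero F.card := ⟨by omega⟩
  obtain ⟨κ, w, w1, w2, w3, hinj, hmem, hbet⟩ := arcs_exist F (rfl : F.card = F.card)
  refine ⟨F.card, inferInstance, ⟨κ, w, w1, w2, w3⟩, h7, hinj, ⟨?_, ?_⟩, ?_⟩
  · intro j
    exact (hFm _).1 ((hmem _).2 ⟨j, rfl⟩)
  · intro j t ht1 ht2
    have := hbet j t ht1 ht2
    rw [hFm] at this
    exact not_not.1 this
  · rw [← h4]
    have h8 : F = Finset.univ.image κ := by
      ext i
      rw [hmem]
      simp
    conv_rhs => rw [h8]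
    rw [Finset.sum_image fun x _ y _ h => hinj h]

theorem Marks.shift {K : CombA n P.ang P.len ι} {μ : Mean K} {m : ℕ} [NeZero m] {S : Arcs P m}
    (h : Marks μ S) (p : ZMod m) : Marks μ (S.shift p) :=
  ⟨fun j => h.1 (j + p), fun j t h1 h2 => h.2 (j + p) t h1 h2⟩

/-- the marked corners are the corners which are not rigid -/
theorem Marks.iff {K : CombA n P.ang P.len ι} {μ : Mean K} {m : ℕ} [NeZero m] {S : Arcs P m}
    (h : Marks μ S) (i : ZMod n) : ¬ μ.Rigid i ↔ ∃ j, S.κ j = i := by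
  constructor
  · intro hi
    obtain ⟨⟨j, t⟩, ⟨ht, hj⟩, _⟩ := S.index i
    simp only at ht hj
    rcases Nat.eq_zero_or_pos t with h0 | h0
    · refine ⟨j, ?_⟩
      rw [h0] at hj
      simpa using hj
    · exact absurd (hj ▸ h.2 j t h0 ht) hi
  · rintro ⟨j, rfl⟩
    exact h.1 j

end Pool.Agent.Lib_MP_fa6e45
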