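import Pool.Agent.Lib_MP_fa6e45.F6

/-!
PIECE F7 (about 300 lines): walking along an arc, local version of Y3 (copy the proof of `arc_walk` and adapt it).
In Y3 the marked corners had degree `≥ 3` in all tiles, here they are the corners which are not rigid; the inner corners
of the arcs are rigid, and in the two good tiles `t = c.1` and `t' = (nx c).1` a rigid corner is in a star of degree two
with a rigid corner. So in these two tiles: if `x` is rigid then `nx x` is rigid (and `nx (nx x) = x`); in particular if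
`c = (t, κ j)` is marked then `nx c` is marked (otherwise `nx (nx c) = c` would be rigid), and along the common arcs the
corners `c k` of `t` and `d k` of `t'` (see Y3) are rigid at the same time. `ae_tgood`: `rigid_iff`, `rigid_act`, `AE.tile`, finitely
many corners.
-/

open Set MeasureTheory Complex
open scoped Topology

namespace Pool.Agent.Lib_MP_fa6e45

variable {n : ℕ} [NeZero n] {P : Polygon n} {ι : Type}

section

variable {n : ℕ} {P : Polygon n} {m : ℕ} [NeZero m] {ι : Type}

/-- `q` steps forward (`b = true`) or backward -/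
private def F7_wk (b : Bool) (i : ZMod n) (q : ℕ) : ZMod n :=
  if b then i + (q : ZMod n) else i - (q : ZMod n)

/-- the arc traversed from the marked corner `j` on -/
private def F7_arc (b : Bool) (j : ZMod m) : ZMod m := if b then j else j - 1

private theorem F7_wk_arc (S : Arcs P m) (b : Bool) (j : ZMod m) (q : ℕ)
    (hq : q ≤ S.w (F7_arc b j)) :
    F7_wk b (S.κ j) q = S.κ (F7_arc b j) +
      ((if b then q else S.w (F7_arc b j) - q : ℕ) : ZMod n) := by
  cases b
  · simp only [F7_wk, F7_arc, Bool.false_eq_true, if_false] at hq ⊢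
    have h1 := S.step (j - 1)
    rw [sub_add_cancel] at h1
    rw [h1, Nat.cast_sub hq]
    ring
  · simp [F7_wk, F7_arc]

private theorem F7_wk_end (S : Arcs P m) (b : Bool) (j : ZMod m) :
    F7_wk b (S.κ j) (S.w (F7_arc b j)) = S.κ (if b then j + 1 else j - 1) := by
  cases b
  · simp only [F7_wk, F7_arc, Bool.false_eq_true, if_false]
    have h1 := S.step (j - 1)
    rw [sub_add_cancel] at h1
    rw [h1]
    ring
  · simp only [F7_wk, F7_arc, if_true]
    rw [S.step]

private theorem F7_bwd (rf : ι → Bool) (t : ι) (i : ZMod n) (q : ℕ) :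
    bwd rf (t, F7_wk (rf t) i q) = (t, F7_wk (rf t) i (q + 1)) := by
  unfold bwd F7_wk
  cases rf t <;> simp <;> ring

private theorem F7_fwd (rf : ι → Bool) (t : ι) (i : ZMod n) (q : ℕ) :
    fwd rf (t, F7_wk (!rf t) i q) = (t, F7_wk (!rf t) i (q + 1)) := by
  unfold fwd F7_wk
  cases rf t <;> simp <;> ring

private theorem F7_ex (S : Arcs P m) (rf : ι → Bool) (t : ι) (j : ZMod m) (q : ℕ)
    (hq : q < S.w (F7_arc (rf t) j)) :
    exS rf (t, F7_wk (rf t) (S.κ j) q) = S.κ (F7_arc (rf t) j) +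
      ((if rf t then q else S.w (F7_arc (rf t) j) - 1 - q : ℕ) : ZMod n) := by
  have h := F7_wk_arc S (rf t) j q hq.le
  unfold exS
  rw [h]
  cases hr : rf t
  · rw [hr] at hq
    simp only [Bool.false_eq_true, if_false]
    have e : S.w (F7_arc false j) - q = (S.w (F7_arc false j) - 1 - q) + 1 := by omega
    rw [e]
    push_cast
    ring
  · simp

private theorem F7_en (S : Arcs P m) (rf : ι → Bool) (t : ι) (j : ZMod m) (q : ℕ)
    (hq : q < S.w (F7_arc (!rf t) j)) :
    enS rf (t, F7_wk (!rf t) (S.κ j) q) = S.κ (F7_arc (!rf t) j) +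
      ((if !rf t then q else S.w (F7_arc (!rf t) j) - 1 - q : ℕ) : ZMod n) := by
  have h := F7_wk_arc S (!rf t) j q hq.le
  unfold enS
  rw [h]
  cases hr : rf t
  · simp
  · rw [hr] at hq
    simp only [Bool.not_true, Bool.false_eq_true, if_false, if_true] at hq ⊢
    have e : S.w (F7_arc false j) - q = (S.w (F7_arc false j) - 1 - q) + 1 := by omega
    rw [e]
    push_cast
    ring

end

theorem Mean.ae_tgood {a l : ZMod n → ℝ} {K : CombA n a l ι} (μ : Mean K) :
    μ.AE fun c => μ.TGood c.1 := by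
  have h1 : ∀ i : ZMod n, μ.AE fun c => c.2 = i →
      (μ.Rigid i → K.toComb.deg c = 2 ∧ μ.Rigid (K.nx c).2) := by
    intro i
    by_cases hi : μ.Rigid i
    · obtain ⟨j, hj1, hj2⟩ := hi
      have hj : μ.Rigid j := ⟨i, hj2, hj1⟩
      refine hj1.mono fun c hc hci _ => ?_
      obtain ⟨h3, h4⟩ := hc hci
      exact ⟨h3, h4 ▸ hj⟩
    · exact μ.ae_of_forall fun c _ h => absurd h hi
  have h2 : μ.AE fun c => μ.Rigid c.2 → K.toComb.deg c = 2 ∧ μ.Rigid (K.nx c).2 :=
    (Mean.AE.all h1).mono fun c hc => hc c.2 rfl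
  exact h2.tile.mono fun c hc i hi => hc i hi

theorem arc_walk2 {K : CombA n P.ang P.len ι} (μ : Mean K) {m : ℕ} [NeZero m] (S : Arcs P m)
    (hS : Marks μ S) (c : ι × ZMod m) (h1 : μ.TGood c.1) (h2 : μ.TGood (K.nx (S.up c)).1) :
    ∃ d : ι × ZMod m, K.nx (S.up c) = S.up d ∧
      S.Rel (exS K.rf c) (enS K.rf d) (K.rf c.1 == K.rf d.1) ∧
      K.nx (S.up (fwd K.rf d)) = S.up (bwd K.rf c) := by
  have hdeg : ∀ x, K.toComb.deg (K.nx x) = K.toComb.deg x := fun x =>
    Function.minimalPeriod_apply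
      (Function.minimalPeriod_pos_iff_mem_periodicPts.1 (K.deg_pos x))
  have hper : ∀ x, K.toComb.deg x = 2 → K.nx (K.nx x) = x := by
    intro x hx
    have e5 := Function.isPeriodicPt_minimalPeriod K.nx x
    have e6 : Function.minimalPeriod K.nx x = 2 := hx
    rw [e6] at e5
    exact e5
  have hmk : ∃ j' : ZMod m, S.κ j' = (K.nx (S.up c)).2 := by
    obtain ⟨⟨j', s⟩, ⟨hs1, hs2⟩, -⟩ := S.index (K.nx (S.up c)).2
    rcases Nat.eq_zero_or_pos s with h0 | h0
    · refine ⟨j', ?_⟩
      simp only [h0, Nat.cast_zero, add_zero] at hs2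
      exact hs2
    · exfalso
      have h3 := hS.2 j' s h0 hs1
      simp only at hs2
      rw [hs2] at h3
      have h4 := h2 _ h3
      change K.toComb.deg (K.nx (S.up c)) = 2 ∧ μ.Rigid (K.nx (K.nx (S.up c))).2 at h4
      have h5 := hper _ ((hdeg _).symm.trans h4.1)
      rw [h5] at h4
      exact hS.1 c.2 h4.2
  obtain ⟨j', hj'⟩ := hmk
  obtain ⟨t', ht'⟩ : ∃ t', t' = (K.nx (S.up c)).1 := ⟨_, rfl⟩
  have hd0 : K.nx (S.up c) = (t', S.κ j') := Prod.ext ht'.symm hj'.symm
  obtain ⟨t, j⟩ := c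
  rw [← ht'] at h2
  change μ.TGood t at h1
  let cc : ℕ → ι × ZMod n := fun q => (t, F7_wk (K.rf t) (S.κ j) q)
  let dd : ℕ → ι × ZMod n := fun q => (t', F7_wk (!K.rf t') (S.κ j') q)
  have ccz : cc 0 = S.up (t, j) := by
    change (t, F7_wk (K.rf t) (S.κ j) 0) = (t, S.κ j)
    unfold F7_wk
    cases K.rf t <;> simp
  have ddz : dd 0 = K.nx (S.up (t, j)) := by
    rw [hd0]
    change (t', F7_wk (!K.rf t') (S.κ j') 0) = (t', S.κ j')
    unfold F7_wk
    cases K.rf t' <;> simp
  have hcs : ∀ q, bwd K.rf (cc q) = cc (q + 1) := fun q => F7_bwd K.rf t (S.κ j) q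
  have hds : ∀ q, fwd K.rf (dd q) = dd (q + 1) := fun q => F7_fwd K.rf t' (S.κ j') q
  obtain ⟨J, hJ⟩ : ∃ J, J = F7_arc (K.rf t) j := ⟨_, rfl⟩
  obtain ⟨L, hL⟩ : ∃ L, L = F7_arc (!K.rf t') j' := ⟨_, rfl⟩
  have hci0 : ∀ q, 0 < q → q < S.w J → μ.Rigid (cc q).2 := by
    intro q hq hq'
    have h3 := F7_wk_arc S (K.rf t) j q (by rw [← hJ]; exact hq'.le)
    change μ.Rigid (F7_wk (K.rf t) (S.κ j) q)
    rw [h3, ← hJ]
    refine hS.2 J _ ?_ ?_ <;> (split_ifs <;> omega)
  have hgc : ∀ q, μ.Rigid (cc q).2 → K.toComb.deg (cc q) = 2 ∧ μ.Rigid (K.nx (cc q)).2 :=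
    fun q hq => h1 _ hq
  have hgd : ∀ q, μ.Rigid (dd q).2 → K.toComb.deg (dd q) = 2 ∧ μ.Rigid (K.nx (dd q)).2 :=
    fun q hq => h2 _ hq
  have hci : ∀ q, 0 < q → q < S.w J → K.toComb.deg (cc q) = 2 := fun q hq hq' =>
    (hgc q (hci0 q hq hq')).1
  have hcw : ¬ μ.Rigid (cc (S.w J)).2 := by
    change ¬ μ.Rigid (F7_wk (K.rf t) (S.κ j) (S.w J))
    rw [hJ, F7_wk_end]
    exact hS.1 _
  have hdi : ∀ q, 0 < q → q < S.w L → μ.Rigid (dd q).2 := by
    intro q hq hq'
    have h3 := F7_wk_arc S (!K.rf t') j' q (by rw [← hL]; exact hq'.le)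
    change μ.Rigid (F7_wk (!K.rf t') (S.κ j') q)
    rw [h3, ← hL]
    refine hS.2 L _ ?_ ?_ <;> (split_ifs <;> omega)
  have hdw : ¬ μ.Rigid (dd (S.w L)).2 := by
    change ¬ μ.Rigid (F7_wk (!K.rf t') (S.κ j') (S.w L))
    rw [hL, F7_wk_end]
    exact hS.1 _
  have hback : ∀ q, K.nx (dd q) = cc q → K.toComb.deg (cc q) = 2 → K.nx (cc q) = dd q := by
    intro q e1 e2
    have e4 : K.toComb.deg (dd q) = 2 := by rw [← hdeg (dd q), e1, e2]
    have e5 := Function.isPeriodicPt_minimalPeriod K.nx (dd q)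
    have e6 : Function.minimalPeriod K.nx (dd q) = 2 := e4
    rw [e6] at e5
    have e7 : K.nx (K.nx (dd q)) = dd q := e5
    rwa [e1] at e7
  have key : ∀ q, 1 ≤ q → q ≤ S.w J → K.nx (dd q) = cc q := by
    intro q hq1
    induction q, hq1 using Nat.le_induction with
    | base =>
      intro _
      have h3 := K.flip (S.up (t, j))
      rw [← ddz, hds, ← ccz, hcs] at h3
      exact h3
    | succ q hq ih =>
      intro hq'
      have h3 := K.flip (cc q)
      rw [hback q (ih (by omega)) (hci q (by omega) (by omega)), hds, hcs] at h3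
      exact h3
  have hnx : ∀ q, 0 < q → q < S.w J → K.nx (cc q) = dd q := fun q hq hq' =>
    hback q (key q hq hq'.le) (hci q hq hq')
  have hdd : ∀ q, 1 ≤ q → q ≤ S.w J → (μ.Rigid (dd q).2 ↔ μ.Rigid (cc q).2) := by
    intro q hq hq'
    constructor
    · intro h3
      have h4 := (hgd q h3).2
      rwa [key q hq hq'] at h4
    · intro h3
      have h4 := hgc q h3
      have h5 := h4.2
      rwa [hback q (key q hq hq') h4.1] at h5
  have hw : S.w J = S.w L := by
    rcases lt_trichotomy (S.w J) (S.w L) with h | h | h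
    · exact absurd ((hdd _ (S.w_pos J) le_rfl).1 (hdi _ (S.w_pos J) h)) hcw
    · exact h
    · exact absurd ((hdd _ (S.w_pos L) h.le).2 (hci0 _ (S.w_pos L) h)) hdw
  have hlen : ∀ q, q < S.w J → P.len (exS K.rf (cc q)) = P.len (enS K.rf (dd q)) := by
    intro q hq
    rcases Nat.eq_zero_or_pos q with h | h
    · rw [h, ccz, ddz]
      exact (K.len (S.up (t, j))).symm
    · have h3 := K.len (cc q)
      rw [hnx q h hq] at h3
      exact h3.symm
  have hang : ∀ q, 0 < q → q < S.w J → P.ang (cc q).2 + P.ang (dd q).2 = 2 * Real.pi := by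
    intro q hq hq'
    have h3 := K.sum (cc q)
    have h4 : Function.minimalPeriod K.nx (cc q) = 2 := hci q hq hq'
    rw [h4, Finset.sum_range_succ, Finset.sum_range_one] at h3
    have h5 : P.ang (cc q).2 + P.ang (K.nx (cc q)).2 = 2 * Real.pi := h3
    rwa [hnx q hq hq'] at h5
  -- positions
  have pex : ∀ q, q < S.w J → exS K.rf (cc q) =
      S.κ J + ((if K.rf t then q else S.w J - 1 - q : ℕ) : ZMod n) := by
    intro q hq
    rw [hJ] at hq ⊢
    exact F7_ex S K.rf t j q hq
  have pen : ∀ q, q < S.w J → enS K.rf (dd q) =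
      S.κ L + ((if !K.rf t' then q else S.w J - 1 - q : ℕ) : ZMod n) := by
    intro q hq
    rw [hw] at hq ⊢
    rw [hL] at hq ⊢
    exact F7_en S K.rf t' j' q hq
  have pc : ∀ q, q ≤ S.w J → (cc q).2 =
      S.κ J + ((if K.rf t then q else S.w J - q : ℕ) : ZMod n) := by
    intro q hq
    rw [hJ] at hq ⊢
    exact F7_wk_arc S (K.rf t) j q hq
  have pd : ∀ q, q ≤ S.w J → (dd q).2 =
      S.κ L + ((if !K.rf t' then q else S.w J - q : ℕ) : ZMod n) := by
    intro q hq
    rw [hw] at hq ⊢
    rw [hL] at hq ⊢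
    exact F7_wk_arc S (!K.rf t') j' q hq
  refine ⟨(t', j'), hd0, ?_, ?_⟩
  · have eJ : exS K.rf (t, j) = J := by
      rw [hJ]
      rfl
    have eL : enS K.rf (t', j') = L := by
      rw [hL]
      unfold enS F7_arc
      cases K.rf t' <;> simp
    rw [eJ, eL]
    change S.Rel J L (K.rf t == K.rf t')
    have hl : ∀ q, q < S.w J →
        P.len (S.κ J + ((if K.rf t then q else S.w J - 1 - q : ℕ) : ZMod n)) =
        P.len (S.κ L + ((if !K.rf t' then q else S.w J - 1 - q : ℕ) : ZMod n)) := by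
      intro q hq
      rw [← pex q hq, ← pen q hq]
      exact hlen q hq
    have ha : ∀ q, 0 < q → q < S.w J →
        P.ang (S.κ J + ((if K.rf t then q else S.w J - q : ℕ) : ZMod n)) +
        P.ang (S.κ L + ((if !K.rf t' then q else S.w J - q : ℕ) : ZMod n)) = 2 * Real.pi := by
      intro q hq hq'
      rw [← pc q hq'.le, ← pd q hq'.le]
      exact hang q hq hq'
    cases hr : K.rf t <;> cases hr' : K.rf t' <;>
      simp only [hr, hr', Bool.not_true, Bool.not_false, Bool.false_eq_true, if_true,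
        if_false] at hl ha
    · change S.Plus J L
      refine ⟨hw, fun a b hab => ?_, fun a b ha0 hb0 hab => ?_⟩
      · have h3 := hl b (by omega)
        have e : S.w J - 1 - b = a := by omega
        rwa [e] at h3
      · have h3 := ha b hb0 (by omega)
        have e : S.w J - b = a := by omega
        rwa [e] at h3
    · change S.Minus J L
      refine ⟨hw, fun a hab => ?_, fun a ha0 hab => ?_⟩
      · have h3 := hl (S.w J - 1 - a) (by omega)
        have e : S.w J - 1 - (S.w J - 1 - a) = a := by omega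
        rwa [e] at h3
      · have h3 := ha (S.w J - a) (by omega) (by omega)
        have e : S.w J - (S.w J - a) = a := by omega
        rwa [e] at h3
    · change S.Minus J L
      exact ⟨hw, fun a hab => hl a hab, fun a ha0 hab => ha a ha0 hab⟩
    · change S.Plus J L
      refine ⟨hw, fun a b hab => ?_, fun a b ha0 hb0 hab => ?_⟩
      · have h3 := hl a (by omega)
        have e : S.w J - 1 - a = b := by omega
        rwa [e] at h3
      · have h3 := ha a ha0 (by omega)
        have e : S.w J - a = b := by omega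
        rwa [e] at h3
  · have h3 := key (S.w J) (S.w_pos J) le_rfl
    have e1 : dd (S.w J) = S.up (fwd K.rf (t', j')) := by
      rw [hw, hL]
      change (t', F7_wk (!K.rf t') (S.κ j') (S.w (F7_arc (!K.rf t') j'))) = _
      rw [F7_wk_end]
      unfold fwd Arcs.up
      cases K.rf t' <;> simp
    have e2 : cc (S.w J) = S.up (bwd K.rf (t, j)) := by
      rw [hJ]
      change (t, F7_wk (K.rf t) (S.κ j) (S.w (F7_arc (K.rf t) j))) = _
      rw [F7_wk_end]
      unfold bwd Arcs.up
      cases K.rf t <;> simp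
    rw [e1, e2] at h3
    exact h3

end Pool.Agent.Lib_MP_fa6e45
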