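import Pool.Agent.Lib_MP_fa6e45.F7
import Pool.Agent.Lib_MP_fa6e45.Y7

/-!
PIECE F8a (about 250 lines): the test function. `ix i` is the index of the marked corner `i`. For a corner `c` put
`fl c = (ix c.2, rf c.1)`, `cross c = A (exW (fl c)) (enW (fl (nx c)))`, and
`f c = L * ang c.2 / (2 π) - v (ix c.2) - (cross c + cross (nx⁻¹ c)) / 2` if `c.2` is marked, `f c = 0` otherwise. Tile sums (almost
everywhere: the tile `t` and all its neighbours `(nx (t, κ j)).1` and `(nx⁻¹ (t, κ j)).1` are good): as in Y7 (`Y7_cross_bwd`,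
`Y7_tile`), with `arc_walk2` instead of `K.flip`. Star sums: as in Y7 (`Y7_lp`) if all corners of the star are marked; 0 if
no corner of the star is marked.
-/

open Set MeasureTheory Complex
open scoped Topology

namespace Pool.Agent.Lib_MP_fa6e45

variable {n : ℕ} [NeZero n] {P : Polygon n} {ι : Type}

/-- index of a marked corner -/
noncomputable def Arcs.ix {m : ℕ} [NeZero m] (S : Arcs P m) (i : ZMod n) : ZMod m :=
  open Classical in if h : ∃ j, S.κ j = i then h.choose else 0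

/-- a corner of the tiling as a corner of the arc polygon with its flag -/
noncomputable def Arcs.fl {m : ℕ} [NeZero m] (S : Arcs P m) (K : CombA n P.ang P.len ι)
    (c : ι × ZMod n) : ZMod m × Bool := (S.ix c.2, K.rf c.1)

theorem Arcs.ix_κ {m : ℕ} [NeZero m] (S : Arcs P m) (hκ : Function.Injective S.κ) (j : ZMod m) :
    S.ix (S.κ j) = j := by
  classical
  have h : ∃ j', S.κ j' = S.κ j := ⟨j, rfl⟩
  have h1 : S.ix (S.κ j) = h.choose := by
    unfold Arcs.ix
    rw [dif_pos h]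
  rw [h1]
  exact hκ h.choose_spec

/-! ### Crossings -/

/-- value of `A` at the crossing from `c` to the next corner -/
private noncomputable def F8a_cross {m : ℕ} [NeZero m] (S : Arcs P m) (K : CombA n P.ang P.len ι)
    (A : ZMod m × Bool → ZMod m × Bool → ℝ) (c : ι × ZMod n) : ℝ :=
  A (exW (S.fl K c)) (enW (S.fl K (K.nx c)))

omit [NeZero n] in
private theorem F8a_enS_bwd {m : ℕ} (rf : ι → Bool) (c : ι × ZMod m) :
    enS rf (bwd rf c) = exS rf c := by
  unfold enS bwd exS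
  cases h : rf c.1 <;> simp

omit [NeZero n] in
private theorem F8a_exS_fwd {m : ℕ} (rf : ι → Bool) (c : ι × ZMod m) :
    exS rf (fwd rf c) = enS rf c := by
  unfold enS fwd exS
  cases h : rf c.1 <;> simp

private theorem F8a_fl_up {m : ℕ} [NeZero m] (S : Arcs P m) (hκ : Function.Injective S.κ)
    (K : CombA n P.ang P.len ι) (c : ι × ZMod m) : S.fl K (S.up c) = (c.2, K.rf c.1) := by
  unfold Arcs.fl Arcs.up
  rw [S.ix_κ hκ]

private theorem F8a_exW {m : ℕ} [NeZero m] (S : Arcs P m) (hκ : Function.Injective S.κ)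
    (K : CombA n P.ang P.len ι) (c : ι × ZMod m) :
    exW (S.fl K (S.up c)) = (exS K.rf c, K.rf c.1) := by
  rw [F8a_fl_up S hκ]
  rfl

private theorem F8a_enW {m : ℕ} [NeZero m] (S : Arcs P m) (hκ : Function.Injective S.κ)
    (K : CombA n P.ang P.len ι) (c : ι × ZMod m) :
    enW (S.fl K (S.up c)) = (enS K.rf c, K.rf c.1) := by
  rw [F8a_fl_up S hκ]
  rfl

private theorem F8a_cross_bwd {K : CombA n P.ang P.len ι} (μ : Mean K) {m : ℕ} [NeZero m]
    (S : Arcs P m) (hS : Marks μ S) (hκ : Function.Injective S.κ)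
    (A : ZMod m × Bool → ZMod m × Bool → ℝ) (hA : ∀ x y, A y x = -A x y)
    (c : ι × ZMod m) (h1 : μ.TGood c.1) (h2 : μ.TGood (K.nx (S.up c)).1) :
    F8a_cross S K A (K.nx.symm (S.up (bwd K.rf c))) = -F8a_cross S K A (S.up c) := by
  obtain ⟨d, hd1, -, hd2⟩ := arc_walk2 μ S hS c h1 h2
  have h3 : K.nx.symm (S.up (bwd K.rf c)) = S.up (fwd K.rf d) := by
    rw [← hd2, Equiv.symm_apply_apply]
  unfold F8a_cross
  rw [Equiv.apply_symm_apply, h3, hd1, F8a_exW S hκ, F8a_enW S hκ, F8a_exW S hκ, F8a_enW S hκ,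
    F8a_enS_bwd, F8a_exS_fwd, ← hA]
  rfl

private theorem F8a_sum_bwd {m : ℕ} [NeZero m] (rf : ι → Bool) (g : ι × ZMod m → ℝ) (t : ι) :
    ∑ i, g (bwd rf (t, i)) = ∑ i, g (t, i) := by
  unfold bwd
  cases h : rf t
  · simp only [h]
    exact Equiv.sum_comp (Equiv.subRight (1 : ZMod m)) (fun i => g (t, i))
  · simp only [h]
    exact Equiv.sum_comp (Equiv.addRight (1 : ZMod m)) (fun i => g (t, i))

private theorem F8a_tile {K : CombA n P.ang P.len ι} (μ : Mean K) {m : ℕ} [NeZero m]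
    (S : Arcs P m) (hS : Marks μ S) (hκ : Function.Injective S.κ)
    (A : ZMod m × Bool → ZMod m × Bool → ℝ) (hA : ∀ x y, A y x = -A x y)
    (t : ι) (h1 : μ.TGood t) (h2 : ∀ i, μ.TGood (K.nx (t, i)).1) :
    ∑ j, F8a_cross S K A (K.nx.symm (t, S.κ j)) = -∑ j, F8a_cross S K A (t, S.κ j) := by
  have h3 := F8a_sum_bwd K.rf (fun c : ι × ZMod m => F8a_cross S K A (K.nx.symm (S.up c))) t
  have h4 : ∑ j, F8a_cross S K A (K.nx.symm (t, S.κ j)) =
      ∑ j, F8a_cross S K A (K.nx.symm (S.up (bwd K.rf (t, j)))) := h3.symm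
  rw [h4, ← Finset.sum_neg_distrib]
  exact Finset.sum_congr rfl fun j _ => F8a_cross_bwd μ S hS hκ A hA (t, j) h1 (h2 _)

/-! ### Stars -/

private theorem F8a_star_shift {a l : ZMod n → ℝ} (K : CombA n a l ι) (g : ι × ZMod n → ℝ)
    (c : ι × ZMod n) :
    ∑ k ∈ Finset.range (K.toComb.deg c), g (K.nx^[k + 1] c) =
      ∑ k ∈ Finset.range (K.toComb.deg c), g (K.nx^[k] c) := by
  obtain ⟨d, hd⟩ : ∃ d, K.toComb.deg c = d + 1 :=
    Nat.exists_eq_succ_of_ne_zero (K.deg_pos c).ne'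
  have hd' : Function.minimalPeriod K.nx c = d + 1 := hd
  rw [hd, Finset.sum_range_succ, Finset.sum_range_succ' (fun k => g (K.nx^[k] c))]
  congr 1
  have h : K.nx^[Function.minimalPeriod K.nx c] c = c := Function.iterate_minimalPeriod
  rw [hd'] at h
  rw [h]
  rfl

private theorem F8a_star_symm {a l : ZMod n → ℝ} (K : CombA n a l ι) (g : ι × ZMod n → ℝ)
    (c : ι × ZMod n) :
    ∑ k ∈ Finset.range (K.toComb.deg c), g (K.nx.symm (K.nx^[k] c)) =
      ∑ k ∈ Finset.range (K.toComb.deg c), g (K.nx^[k] c) := by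
  rw [← F8a_star_shift K (fun c => g (K.nx.symm c)) c]
  refine Finset.sum_congr rfl fun k _ => ?_
  rw [Function.iterate_succ_apply', Equiv.symm_apply_apply]

private theorem F8a_abs_le {T : Type} [Fintype T] (f : T → ℝ) (x : T) : |f x| ≤ ∑ y, |f y| :=
  Finset.single_le_sum (f := fun y => |f y|) (fun y _ => abs_nonneg (f y)) (Finset.mem_univ x)

private theorem F8a_cross_le {m : ℕ} [NeZero m] (S : Arcs P m) (K : CombA n P.ang P.len ι)
    (A : ZMod m × Bool → ZMod m × Bool → ℝ) (c : ι × ZMod n) :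
    |F8a_cross S K A c| ≤ ∑ p : (ZMod m × Bool) × (ZMod m × Bool), |A p.1 p.2| :=
  F8a_abs_le (fun p : (ZMod m × Bool) × (ZMod m × Bool) => A p.1 p.2)
    (exW (S.fl K c), enW (S.fl K (K.nx c)))

/-- the value of the test function at a marked corner -/
private noncomputable def F8a_g {m : ℕ} [NeZero m] (S : Arcs P m) (K : CombA n P.ang P.len ι)
    (v : ZMod m → ℝ) (A : ZMod m × Bool → ZMod m × Bool → ℝ) (L : ℝ) (c : ι × ZMod n) : ℝ :=
  L * P.ang c.2 / (2 * Real.pi) - v (S.ix c.2) -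
    (F8a_cross S K A c + F8a_cross S K A (K.nx.symm c)) / 2

private theorem F8a_g_le {m : ℕ} [NeZero m] (S : Arcs P m) (K : CombA n P.ang P.len ι)
    (v : ZMod m → ℝ) (A : ZMod m × Bool → ZMod m × Bool → ℝ) (L : ℝ) (c : ι × ZMod n) :
    |F8a_g S K v A L c| ≤
      |L| + ∑ i, |v i| + ∑ p : (ZMod m × Bool) × (ZMod m × Bool), |A p.1 p.2| := by
  have hpi := Real.pi_pos
  have h1 : |L * P.ang c.2 / (2 * Real.pi)| ≤ |L| := by
    rw [mul_div_assoc, abs_mul]
    have h2 : |P.ang c.2 / (2 * Real.pi)| ≤ 1 := by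
      rw [abs_of_pos (div_pos (K.a_pos _) (by positivity)), div_le_one (by positivity)]
      exact (K.a_lt _).le
    calc |L| * |P.ang c.2 / (2 * Real.pi)| ≤ |L| * 1 :=
          mul_le_mul_of_nonneg_left h2 (abs_nonneg L)
      _ = |L| := mul_one _
  have h2 : |v (S.ix c.2)| ≤ ∑ i, |v i| := F8a_abs_le v (S.ix c.2)
  have h3 := F8a_cross_le S K A c
  have h4 := F8a_cross_le S K A (K.nx.symm c)
  unfold F8a_g
  rw [abs_le] at *
  constructor <;> linarith [h1.1, h1.2, h2.1, h2.2, h3.1, h3.2, h4.1, h4.2]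

private theorem F8a_g_tile {K : CombA n P.ang P.len ι} (μ : Mean K) {m : ℕ} [NeZero m]
    (S : Arcs P m) (hS : Marks μ S) (hκ : Function.Injective S.κ)
    (hsum : ∑ j, P.ang (S.κ j) = ((m : ℝ) - 2) * Real.pi) (v : ZMod m → ℝ)
    (A : ZMod m × Bool → ZMod m × Bool → ℝ) (hA : ∀ x y, A y x = -A x y) (L : ℝ)
    (t : ι) (h1 : μ.TGood t) (h2 : ∀ i, μ.TGood (K.nx (t, i)).1) :
    ∑ j, F8a_g S K v A L (t, S.κ j) = ((m : ℝ) - 2) * L / 2 - ∑ j, v j := by
  have hpi := Real.pi_pos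
  have h3 := F8a_tile μ S hS hκ A hA t h1 h2
  have h4 : ∀ j, F8a_g S K v A L (t, S.κ j) = L * P.ang (S.κ j) / (2 * Real.pi) - v j -
      (F8a_cross S K A (t, S.κ j) + F8a_cross S K A (K.nx.symm (t, S.κ j))) / 2 := by
    intro j
    unfold F8a_g
    simp only
    rw [S.ix_κ hκ]
  rw [Finset.sum_congr rfl fun j _ => h4 j, Finset.sum_sub_distrib, Finset.sum_sub_distrib,
    ← Finset.sum_div, ← Finset.sum_div, ← Finset.mul_sum, Finset.sum_add_distrib, h3, hsum]
  field_simp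
  ring

private theorem F8a_g_star {m : ℕ} [NeZero m] (S : Arcs P m) (K : CombA n P.ang P.len ι)
    (v : ZMod m → ℝ) (A : ZMod m × Bool → ZMod m × Bool → ℝ) (L : ℝ) (c : ι × ZMod n) :
    ∑ k ∈ Finset.range (K.toComb.deg c), F8a_g S K v A L (K.nx^[k] c) =
      L - ∑ k ∈ Finset.range (K.toComb.deg c), (v (S.fl K (K.nx^[k] c)).1 +
        A (exW (S.fl K (K.nx^[k] c))) (enW (S.fl K (K.nx^[k + 1] c)))) := by
  have hpi := Real.pi_pos
  have h2 : ∑ k ∈ Finset.range (K.toComb.deg c), P.ang (K.nx^[k] c).2 = 2 * Real.pi := K.sum c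
  have h3 := F8a_star_symm K (F8a_cross S K A) c
  have h4 : ∑ k ∈ Finset.range (K.toComb.deg c), (v (S.fl K (K.nx^[k] c)).1 +
        A (exW (S.fl K (K.nx^[k] c))) (enW (S.fl K (K.nx^[k + 1] c)))) =
      ∑ k ∈ Finset.range (K.toComb.deg c), v (S.ix (K.nx^[k] c).2) +
        ∑ k ∈ Finset.range (K.toComb.deg c), F8a_cross S K A (K.nx^[k] c) := by
    rw [← Finset.sum_add_distrib]
    refine Finset.sum_congr rfl fun k _ => ?_
    unfold F8a_cross
    rw [Function.iterate_succ_apply']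
    rfl
  rw [h4]
  unfold F8a_g
  rw [Finset.sum_sub_distrib, Finset.sum_sub_distrib, ← Finset.sum_div, ← Finset.sum_div,
    ← Finset.mul_sum, Finset.sum_add_distrib, h2, h3]
  have h5 : L * (2 * Real.pi) / (2 * Real.pi) = L := by field_simp
  rw [h5]
  ring

theorem lp_fun {K : CombA n P.ang P.len ι} (μ : Mean K) {m : ℕ} [NeZero m] (S : Arcs P m)
    (hS : Marks μ S) (hκ : Function.Injective S.κ)
    (hsum : ∑ j, P.ang (S.κ j) = ((m : ℝ) - 2) * Real.pi) (v : ZMod m → ℝ)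
    (A : ZMod m × Bool → ZMod m × Bool → ℝ) (hA : ∀ x y, A y x = -A x y) (L : ℝ) :
    ∃ f : ι × ZMod n → ℝ, Bd f ∧
      (μ.AE fun c => ∑ i, f (c.1, i) = ((m : ℝ) - 2) * L / 2 - ∑ j, v j) ∧
      (∀ c, (∀ k : ℕ, ∃ j, S.κ j = (K.nx^[k] c).2) →
        ∑ k ∈ Finset.range (K.toComb.deg c), f (K.nx^[k] c) =
          L - ∑ k ∈ Finset.range (K.toComb.deg c), (v (S.fl K (K.nx^[k] c)).1 +
            A (exW (S.fl K (K.nx^[k] c))) (enW (S.fl K (K.nx^[k + 1] c))))) ∧
      ∀ c, (∀ k : ℕ, ¬ ∃ j, S.κ j = (K.nx^[k] c).2) →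
        ∑ k ∈ Finset.range (K.toComb.deg c), f (K.nx^[k] c) = 0 := by
  classical
  have hon : ∀ c : ι × ZMod n, (∃ j, S.κ j = c.2) →
      (if ∃ j, S.κ j = c.2 then F8a_g S K v A L c else 0) = F8a_g S K v A L c :=
    fun c h => if_pos h
  have hoff : ∀ c : ι × ZMod n, (¬ ∃ j, S.κ j = c.2) →
      (if ∃ j, S.κ j = c.2 then F8a_g S K v A L c else 0) = 0 := fun c h => if_neg h
  refine ⟨fun c => if ∃ j, S.κ j = c.2 then F8a_g S K v A L c else 0, ?_, ?_, ?_, ?_⟩
  · refine ⟨|L| + ∑ i, |v i| + ∑ p : (ZMod m × Bool) × (ZMod m × Bool), |A p.1 p.2|,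
      fun c => ?_⟩
    have h1 := F8a_g_le S K v A L c
    by_cases h : ∃ j, S.κ j = c.2
    · simp only
      rw [hon c h]
      exact h1
    · simp only
      rw [hoff c h, abs_zero]
      exact (abs_nonneg _).trans h1
  · have h0 : μ.AE fun c => μ.TGood c.1 := μ.ae_tgood
    have h1 : μ.AE fun c => ∀ i, μ.TGood (K.nx (c.1, i)).1 := h0.nx.tile
    refine (h0.and h1).mono fun c hc => ?_
    rw [← F8a_g_tile μ S hS hκ hsum v A hA L c.1 hc.1 hc.2]
    refine (Fintype.sum_of_injective S.κ hκ _ _ ?_ ?_).symm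
    · intro i hi
      refine hoff (c.1, i) ?_
      rintro ⟨j, hj⟩
      exact hi ⟨j, hj⟩
    · intro j
      exact (hon (c.1, S.κ j) ⟨j, rfl⟩).symm
  · intro c hc
    rw [← F8a_g_star S K v A L c]
    exact Finset.sum_congr rfl fun k _ => hon _ (hc k)
  · intro c hc
    exact Finset.sum_eq_zero fun k _ => hoff _ (hc k)

end Pool.Agent.Lib_MP_fa6e45
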