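import Pool.Agent.Lib_MP_fa6e45.F8a

/-!
PIECE F8b (about 250 lines): a good star as a cyclic list (`Star2`). As the second half of the proof of `CombG.wp` (Y7:
start at the corner with minimal code, `Y7list`; private, repeat it), with `StepG S.Rel` from `arc_walk2` (for
`c = S.up (t, j)` in good tiles: the corner `nx c = S.up d`, `S.Rel (exS ..) (enS ..)` is `StepG`), sums of `ang / π` by `K.sum`, of
`b` by the cancellation of `σ`, `ε` (Y7_cancel). `mem`: the corners of the list are those of the star.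
-/

open Set MeasureTheory Complex
open scoped Topology

namespace Pool.Agent.Lib_MP_fa6e45

variable {n : ℕ} [NeZero n] {P : Polygon n} {ι : Type}

/-! ### Lists along a sequence -/

private def F8list {α : Type} (x : ℕ → α) : ℕ → ℕ → List α
  | _, 0 => []
  | i, d + 1 => x (i + 1) :: F8list x (i + 1) d

private theorem F8list_length {α : Type} (x : ℕ → α) (d i : ℕ) : (F8list x i d).length = d := by
  induction d generalizing i with
  | zero => rfl
  | succ d ih => simp [F8list, ih]

private theorem F8list_mem {α : Type} (x : ℕ → α) (d i : ℕ) (y : α) (hy : y ∈ F8list x i d) :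
    ∃ k, y = x k := by
  induction d generalizing i with
  | zero => simp [F8list] at hy
  | succ d ih =>
    rw [F8list, List.mem_cons] at hy
    rcases hy with h | h
    · exact ⟨_, h⟩
    · exact ih _ h

private theorem F8list_mem' {α : Type} (x : ℕ → α) (d i k : ℕ) (h0 : 0 < k) (hk : k ≤ d) :
    x (i + k) ∈ F8list x i d := by
  induction d generalizing i k with
  | zero => omega
  | succ d ih =>
    rw [F8list, List.mem_cons]
    rcases Nat.lt_or_ge 1 k with h | h
    · right
      have := ih (i + 1) (k - 1) (by omega) (by omega)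
      rwa [show i + 1 + (k - 1) = i + k by omega] at this
    · left
      rw [show k = 1 by omega]

private theorem F8list_pth {α : Type} {R : α → α → Prop} (x : ℕ → α)
    (h : ∀ k, R (x k) (x (k + 1))) (d i : ℕ) : Pth R (x i) (F8list x i d) (x (i + d + 1)) := by
  induction d generalizing i with
  | zero => exact h i
  | succ d ih =>
    refine ⟨h i, ?_⟩
    have := ih (i + 1)
    rwa [show i + 1 + d + 1 = i + (d + 1) + 1 by ring] at this

private theorem F8list_cost {α M : Type} [AddCommMonoid M] (f : α → α → M) (x : ℕ → α) (d i : ℕ) :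
    pcost f (x i) (F8list x i d) (x (i + d + 1)) =
      ∑ k ∈ Finset.range (d + 1), f (x (i + k)) (x (i + k + 1)) := by
  induction d generalizing i with
  | zero => simp [F8list, pcost]
  | succ d ih =>
    have := ih (i + 1)
    rw [show i + 1 + d + 1 = i + (d + 1) + 1 by ring] at this
    change f (x i) (x (i + 1)) + pcost f (x (i + 1)) (F8list x (i + 1) d) (x (i + (d + 1) + 1)) = _
    rw [this, Finset.sum_range_succ' (fun k => f (x (i + k)) (x (i + k + 1))) (d + 1),
      add_comm (f (x i) (x (i + 1)))]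
    congr 1
    exact Finset.sum_congr rfl fun k _ => by
      rw [show i + 1 + k = i + (k + 1) by ring]

private theorem F8list_sum {α : Type} (g : α → ℝ) (x : ℕ → α) (d i : ℕ) :
    ((F8list x i d).map g).sum = ∑ k ∈ Finset.range d, g (x (i + 1 + k)) := by
  induction d generalizing i with
  | zero => simp [F8list]
  | succ d ih =>
    rw [Finset.sum_range_succ', F8list, List.map_cons, List.sum_cons, ih, add_comm]
    congr 1
    exact Finset.sum_congr rfl fun k _ => by
      rw [show i + 1 + 1 + k = i + 1 + (k + 1) by ring]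

/-! ### Sums over stars -/

section
variable {β : Type} (f : β → β)

private theorem F8_star_shift {M : Type} [AddCommMonoid M] (g : β → M) (c : β)
    (hc : 0 < Function.minimalPeriod f c) :
    ∑ k ∈ Finset.range (Function.minimalPeriod f c), g (f^[k + 1] c) =
      ∑ k ∈ Finset.range (Function.minimalPeriod f c), g (f^[k] c) := by
  obtain ⟨d, hd⟩ : ∃ d, Function.minimalPeriod f c = d + 1 :=
    Nat.exists_eq_succ_of_ne_zero (by omega)
  rw [hd, Finset.sum_range_succ, Finset.sum_range_succ' (fun k => g (f^[k] c))]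
  congr 1
  have h : f^[Function.minimalPeriod f c] c = c := Function.iterate_minimalPeriod
  rw [hd] at h
  rw [h]
  rfl

private theorem F8_deg_iter (c : β) (hc : 0 < Function.minimalPeriod f c) (k : ℕ) :
    Function.minimalPeriod f (f^[k] c) = Function.minimalPeriod f c :=
  Function.minimalPeriod_apply_iterate (Function.minimalPeriod_pos_iff_mem_periodicPts.1 hc) k

private theorem F8_star_iter {M : Type} [AddCommMonoid M] (g : β → M) (c : β)
    (hc : 0 < Function.minimalPeriod f c) (j : ℕ) :
    ∑ k ∈ Finset.range (Function.minimalPeriod f (f^[j] c)), g (f^[k] (f^[j] c)) =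
      ∑ k ∈ Finset.range (Function.minimalPeriod f c), g (f^[k] c) := by
  induction j with
  | zero => rfl
  | succ j ih =>
    rw [← ih, ← F8_star_shift f g (f^[j] c) (by rw [F8_deg_iter f c hc]; exact hc),
      F8_deg_iter f c hc, F8_deg_iter f c hc]
    refine Finset.sum_congr rfl fun k _ => ?_
    rw [Function.iterate_succ_apply', Function.iterate_succ_apply]

/-- every point of the cycle of `c` is one of the first points of the cycle of `f^[j] c` -/
private theorem F8_reach (c : β) (hc : 0 < Function.minimalPeriod f c) (j k : ℕ) :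
    ∃ r, r < Function.minimalPeriod f c ∧ f^[r] (f^[j] c) = f^[k] c := by
  set D := Function.minimalPeriod f c with hD
  have hper : ∀ q, f^[k + D * q] c = f^[k] c := by
    intro q
    rw [Function.iterate_add_apply, Function.iterate_mul]
    congr 1
    exact Function.iterate_fixed Function.iterate_minimalPeriod q
  have hj : j ≤ k + D * j := by nlinarith
  refine ⟨(k + D * j - j) % D, Nat.mod_lt _ hc, ?_⟩
  have h1 : Function.minimalPeriod f (f^[j] c) = D := F8_deg_iter f c hc j
  rw [← h1, Function.iterate_mod_minimalPeriod_eq, ← Function.iterate_add_apply,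
    Nat.sub_add_cancel (by rw [h1]; exact hj), h1]
  exact hper j

end

/-- contribution of the exit side -/
private def F8out {m : ℕ} (σ ε : ZMod m → ℝ) (y : ZMod m × Bool) : ℝ :=
  if y.2 then σ (exW y).1 else -ε (exW y).1

/-- contribution of the entry side -/
private def F8inn {m : ℕ} (σ ε : ZMod m → ℝ) (y : ZMod m × Bool) : ℝ :=
  if y.2 then -ε (enW y).1 else σ (enW y).1

private theorem F8_b {m : ℕ} (σ ε : ZMod m → ℝ) (y : ZMod m × Bool) :
    σ y.1 - ε (y.1 - 1) = F8out σ ε y + F8inn σ ε y := by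
  obtain ⟨i, f⟩ := y
  cases f
  · simp only [F8out, F8inn, exW, enW, Bool.false_eq_true, if_false]
    ring
  · simp only [F8out, F8inn, exW, enW, if_true]
    ring

private theorem F8_cancel {m : ℕ} {G : ZMod m → ZMod m → Bool → Prop} (σ ε : ZMod m → ℝ)
    (hp : ∀ j k, G j k true → σ j = ε k ∧ ε j = σ k)
    (hm : ∀ j k, G j k false → σ j = -σ k ∧ ε j = -ε k)
    (y z : ZMod m × Bool) (h : StepG G y z) : F8out σ ε y + F8inn σ ε z = 0 := by
  unfold StepG at h
  obtain ⟨i, f⟩ := y
  obtain ⟨j, g⟩ := z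
  cases f <;> cases g
  · have := hp _ _ h
    simp only [F8out, F8inn, Bool.false_eq_true, if_false]
    linarith [this.2]
  · have := hm _ _ h
    simp only [F8out, F8inn, Bool.false_eq_true, if_false, if_true]
    linarith [this.2]
  · have := hm _ _ h
    simp only [F8out, F8inn, Bool.false_eq_true, if_false, if_true]
    linarith [this.1]
  · have := hp _ _ h
    simp only [F8out, F8inn, if_true]
    linarith [this.1]

private theorem F8_step {K : CombA n P.ang P.len ι} (μ : Mean K) {m : ℕ} [NeZero m]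
    (S : Arcs P m) (hS : Marks μ S) (hκ : Function.Injective S.κ) (c : ι × ZMod n)
    (h0 : ∃ j, S.κ j = c.2) (h1 : μ.TGood c.1) (h2 : μ.TGood (K.nx c).1) :
    StepG S.Rel (S.fl K c) (S.fl K (K.nx c)) := by
  obtain ⟨t, i⟩ := c
  obtain ⟨j, rfl⟩ := h0
  obtain ⟨d, hd1, hd2, -⟩ := arc_walk2 μ S hS (t, j) h1 h2
  have e1 : S.fl K (t, S.κ j) = (j, K.rf t) := by
    unfold Arcs.fl
    rw [S.ix_κ hκ]
  have e2 : S.fl K (K.nx (t, S.κ j)) = (d.2, K.rf d.1) := by
    change S.fl K (K.nx (S.up (t, j))) = _
    rw [hd1]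
    unfold Arcs.fl Arcs.up
    rw [S.ix_κ hκ]
  rw [e1, e2]
  exact hd2

theorem star_of {K : CombA n P.ang P.len ι} (μ : Mean K) {m : ℕ} [NeZero m] (S : Arcs P m)
    (hS : Marks μ S) (hκ : Function.Injective S.κ) (σ ε : ZMod m → ℝ)
    (hp : ∀ j k, S.Rel j k true → σ j = ε k ∧ ε j = σ k)
    (hm : ∀ j k, S.Rel j k false → σ j = -σ k ∧ ε j = -ε k) (c : ι × ZMod n)
    (hc : ∀ k : ℕ, ∃ j, S.κ j = (K.nx^[k] c).2) (hg : ∀ k : ℕ, μ.TGood (K.nx^[k] c).1)
    (ha : ∀ k : ℕ, K.toComb.deg (K.nx^[k] c) = 2 → μ.Act (K.nx^[k] c).2 (K.nx^[k + 1] c).2) :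
    ∃ (x : ZMod m × Bool) (y : List (ZMod m × Bool)),
      Star2 (fun i j => μ.Act (S.κ i) (S.κ j)) (fun j => P.ang (S.κ j) / Real.pi)
        (fun j => P.ang (S.κ j) / Real.pi + σ j - ε (j - 1)) S.Rel x y ∧
      (∀ (v : ZMod m → ℤ) (A : ZMod m × Bool → ZMod m × Bool → ℤ),
        pcost (stepCost v A) x y x = ∑ k ∈ Finset.range (K.toComb.deg c),
          stepCost v A (S.fl K (K.nx^[k] c)) (S.fl K (K.nx^[k + 1] c))) ∧
      y.length + 1 = K.toComb.deg c ∧
      ∀ i, (x.1 = i ∨ ∃ z ∈ y, z.1 = i) ↔ ∃ k : ℕ, (K.nx^[k] c).2 = S.κ i := by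
  have hpi := Real.pi_pos
  -- the first corner with minimal code
  have hc0 : 0 < Function.minimalPeriod K.nx c := K.deg_pos c
  set f : ℕ → ℕ := fun k => code (S.fl K (K.nx^[k] c)) with hf
  set k₀ : ℕ := Function.argmin f with hk₀
  have hmin : ∀ k, f k₀ ≤ f k := fun k => Function.argmin_le f k
  set c' := K.nx^[k₀] c with hc'
  have hdeg : Function.minimalPeriod K.nx c' = Function.minimalPeriod K.nx c :=
    F8_deg_iter K.nx c hc0 k₀
  have hit : ∀ k, K.nx^[k] c' = K.nx^[k + k₀] c := fun k => by
    rw [hc', ← Function.iterate_add_apply]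
  have hD : Function.minimalPeriod K.nx c ≠ 1 := by
    intro h
    have h1 := K.sum c
    rw [h, Finset.sum_range_one] at h1
    exact (K.a_lt _).ne h1
  obtain ⟨d, hd⟩ : ∃ d, Function.minimalPeriod K.nx c' = d + 1 :=
    Nat.exists_eq_succ_of_ne_zero (by omega)
  have hd1 : 1 ≤ d := by omega
  have hper : K.nx^[Function.minimalPeriod K.nx c'] c' = c' := Function.iterate_minimalPeriod
  have hsa := K.sum c'
  have hκx : ∀ k, S.κ (S.fl K (K.nx^[k] c)).1 = (K.nx^[k] c).2 := by
    intro k
    obtain ⟨j, hj⟩ := hc k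
    unfold Arcs.fl
    rw [← hj, S.ix_κ hκ]
  have hstep' : ∀ k, StepG S.Rel (S.fl K (K.nx^[k] c)) (S.fl K (K.nx^[k + 1] c)) := by
    intro k
    rw [Function.iterate_succ_apply']
    refine F8_step μ S hS hκ _ (hc k) (hg k) ?_
    have := hg (k + 1)
    rwa [Function.iterate_succ_apply'] at this
  set x : ℕ → ZMod m × Bool := fun k => S.fl K (K.nx^[k] c') with hx
  have hxs : ∀ k, x k = S.fl K (K.nx^[k + k₀] c) := fun k => by
    simp only [hx]
    rw [hit]
  have hκx' : ∀ k, S.κ (x k).1 = (K.nx^[k] c').2 := fun k => by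
    rw [hxs, hκx, hit]
  have hstep : ∀ k, StepG S.Rel (x k) (x (k + 1)) := fun k => by
    rw [hxs, hxs, show k + 1 + k₀ = k + k₀ + 1 by ring]
    exact hstep' _
  have hbs : ∑ k ∈ Finset.range (Function.minimalPeriod K.nx c'),
      (F8out σ ε (S.fl K (K.nx^[k] c')) + F8inn σ ε (S.fl K (K.nx^[k] c'))) = 0 := by
    rw [Finset.sum_add_distrib,
      ← F8_star_shift K.nx (fun c => F8inn σ ε (S.fl K c)) c' (by omega),
      ← Finset.sum_add_distrib]
    refine Finset.sum_eq_zero fun k _ => ?_
    exact F8_cancel σ ε hp hm _ _ (hstep k)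
  have hxe : x (0 + d + 1) = x 0 := by
    simp only [hx, zero_add]
    rw [hd] at hper
    rw [hper]
    rfl
  have hlist : ∀ g : ZMod m × Bool → ℝ,
      g (x 0) + ((F8list x 0 d).map g).sum = ∑ k ∈ Finset.range (d + 1), g (x k) := by
    intro g
    rw [F8list_sum, Finset.sum_range_succ', add_comm]
    congr 1
    exact Finset.sum_congr rfl fun k _ => by rw [show 0 + 1 + k = k + 1 by ring]
  have haa : ∑ k ∈ Finset.range (d + 1), P.ang (S.κ (x k).1) = 2 * Real.pi := by
    rw [← hsa, hd]
    exact Finset.sum_congr rfl fun k _ => by rw [hκx']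
  refine ⟨x 0, F8list x 0 d, ⟨?_, ?_, ?_, ?_, ?_⟩, ?_, ?_, ?_⟩
  · intro y hy
    obtain ⟨k, rfl⟩ := F8list_mem x d 0 y hy
    have h1 := hmin (k + k₀)
    simp only [hf] at h1
    rw [hxs, hxs, zero_add]
    exact h1
  · have := F8list_pth x hstep d 0
    rwa [hxe] at this
  · rw [hlist fun y => P.ang (S.κ y.1) / Real.pi, ← Finset.sum_div, haa]
    field_simp
  · rw [hlist fun y => P.ang (S.κ y.1) / Real.pi + σ y.1 - ε (y.1 - 1)]
    have h1 : ∀ k, P.ang (S.κ (x k).1) / Real.pi + σ (x k).1 - ε ((x k).1 - 1) =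
        P.ang (S.κ (x k).1) / Real.pi + (F8out σ ε (x k) + F8inn σ ε (x k)) := fun k => by
      rw [← F8_b]
      ring
    simp only [h1]
    rw [Finset.sum_add_distrib, ← Finset.sum_div, haa]
    rw [hd] at hbs
    rw [hbs]
    field_simp
    norm_num
  · rcases Nat.lt_or_ge 1 d with h | h
    · left
      rw [F8list_length]
      omega
    · right
      have h1 : d = 1 := by omega
      refine ⟨x 1, ?_, ?_⟩
      · rw [h1]
        rfl
      · change μ.Act (S.κ (x 0).1) (S.κ (x 1).1)
        rw [hκx', hκx']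
        have h2 := ha k₀ (by
          change Function.minimalPeriod K.nx (K.nx^[k₀] c) = 2
          rw [← hc', hd, h1])
        have h3 : K.nx^[1] c' = K.nx^[k₀ + 1] c := by rw [hit, add_comm]
        rw [h3]
        exact h2
  · intro v A
    have h1 := F8list_cost (stepCost v A) x d 0
    rw [hxe] at h1
    rw [h1]
    have h2 := F8_star_iter K.nx (fun e => stepCost v A (S.fl K e) (S.fl K (K.nx e))) c hc0 k₀
    rw [← hc', hd] at h2
    have h3 : K.toComb.deg c = Function.minimalPeriod K.nx c := rfl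
    rw [h3]
    have h4 : ∀ k, stepCost v A (S.fl K (K.nx^[k] c)) (S.fl K (K.nx^[k + 1] c)) =
        stepCost v A (S.fl K (K.nx^[k] c)) (S.fl K (K.nx (K.nx^[k] c))) := fun k => by
      rw [Function.iterate_succ_apply']
    simp only [h4]
    rw [← h2]
    refine Finset.sum_congr rfl fun k _ => ?_
    rw [zero_add]
    simp only [hx]
    rw [Function.iterate_succ_apply']
  · rw [F8list_length, ← hd, hdeg]
    rfl
  · intro i
    constructor
    · rintro (h | ⟨z, hz, h⟩)
      · refine ⟨0 + k₀, ?_⟩
        rw [← hit, ← h, hκx']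
      · obtain ⟨k, rfl⟩ := F8list_mem x d 0 z hz
        refine ⟨k + k₀, ?_⟩
        rw [← hit, ← h, hκx']
    · rintro ⟨k, hk⟩
      obtain ⟨r, hr, hr2⟩ := F8_reach K.nx c hc0 k₀ k
      have h1 : (x r).1 = i := by
        apply hκ
        rw [hκx', hc', hr2, hk]
      rcases Nat.eq_zero_or_pos r with h | h
      · left
        rw [← h]
        exact h1
      · right
        refine ⟨x (0 + r), F8list_mem' x d 0 r h (by omega), ?_⟩
        rw [zero_add]
        exact h1

end Pool.Agent.Lib_MP_fa6e45
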