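import Pool.Agent.Lib_MP_fa6e45.G0

/-!
MP_fa6e45_co, stage 3: soundness of the search `dfs2`, compare `Z1`.
-/

namespace Pool.Agent.Lib_MP_fa6e45

private theorem G1_all {tab : List (List (ℕ × ℕ))} {LL : ℕ} {acc : List ℕ → ℕ → Bool} {c0 : ℕ}
    {fuel cur s : ℕ} {path : List ℕ} (h : dfs2 tab LL acc c0 fuel cur s path = true) {y t : ℕ}
    (hy : (y, t) ∈ tab.getD cur []) (ht : s + t < LL) :
    (y = c0 → acc path (s + t) = true) ∧
      (c0 ≤ y → ∃ fuel', dfs2 tab LL acc c0 fuel' y (s + t) (y :: path) = true) := by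
  cases fuel with
  | zero => simp [dfs2] at h
  | succ fuel =>
    rw [dfs2, List.all_eq_true] at h
    have h1 := h (y, t) hy
    rw [Bool.or_eq_true, Bool.and_eq_true, Bool.or_eq_true, Bool.or_eq_true,
      decide_eq_true_iff, decide_eq_true_iff] at h1
    rcases h1 with h1 | ⟨h2, h3⟩
    · exact absurd ht (not_lt.2 h1)
    · constructor
      · intro he
        rcases h2 with h2 | h2
        · simp [he] at h2
        · exact h2
      · intro hc
        rcases h3 with h3 | h3
        · exact absurd hc (not_le.2 h3)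
        · exact ⟨fuel, h3⟩

theorem dfs2_sound {tab : List (List (ℕ × ℕ))} {LL : ℕ} {acc : List ℕ → ℕ → Bool} {c0 : ℕ}
    (fuel cur s : ℕ) (path : List ℕ) (h : dfs2 tab LL acc c0 fuel cur s path = true) (l : List ℕ)
    (t : ℕ) (hp : TPath tab cur l c0 t) (hl : ∀ x ∈ l, c0 ≤ x) (ht : s + t < LL) :
    acc (l.reverse ++ path) (s + t) = true := by
  induction l generalizing fuel cur s path t with
  | nil =>
    exact (G1_all h hp ht).1 rfl
  | cons y l ih =>
    obtain ⟨t1, t2, h4, h5, rfl⟩ := hp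
    obtain ⟨fuel', h6⟩ := (G1_all h h4 (by omega)).2 (hl y List.mem_cons_self)
    have h7 := ih fuel' y (s + t1) (y :: path) h6 t2 h5
      (fun x hx => hl x (List.mem_cons_of_mem y hx)) (by omega)
    rwa [List.reverse_cons, List.append_assoc, List.singleton_append, ← Nat.add_assoc]

end Pool.Agent.Lib_MP_fa6e45
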