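import Pool.Agent.Lib_MP_fa6e45.G0
import Pool.Agent.Lib_MP_fa6e45.Z3

/-!
MP_fa6e45_co, stage 3: the small soundness lemmas of `Z2`, `Z3` for `MdlB` (the same proofs).
-/

open scoped Topology

namespace Pool.Agent.Lib_MP_fa6e45

variable {m : ℕ} [NeZero m] {cls : ZMod m → ℕ} {a b : ZMod m → ℝ} {G : ZMod m → ZMod m → Bool → Prop}

theorem okB_B (M : MdlB cls a b G) {ty : ZMod m → Ty} (hty : ∀ j, IsTy G cls j (ty j))
    {e g : ZMod m} {b' : Bool} (h : G e g b') : okB cls ty e g b' = true := by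
  have h1 : cls e = cls g := M.cls_eq e g b' h
  have h2 := hty e
  unfold okB
  rw [Bool.and_eq_true]
  refine ⟨by rw [h1]; exact beq_self_eq_true _, ?_⟩
  cases hte : ty e with
  | U => rfl
  | S => rfl
  | C =>
    rw [hte] at h2
    obtain ⟨h3, h4⟩ := h2.2 g b' h
    simp [h3, h4]
  | R =>
    rw [hte] at h2
    obtain ⟨h3, h4⟩ := h2.2 g b' h
    have h5 : e ≠ g := fun h6 => h3 h6.symm
    simp [h5, h4]
  | G =>
    rw [hte] at h2
    obtain ⟨h3, h4⟩ := h2.2 g b' h
    have h5 : e ≠ g := fun h6 => h3 h6.symm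
    simp [h5, h4]

private theorem Z3_sum_list (f : ℕ → ℤ) (n : ℕ) :
    ((List.range n).map f).sum = ∑ i ∈ Finset.range n, f i := by
  induction n with
  | zero => simp
  | succ n ih =>
    rw [List.range_succ, List.map_append, List.sum_append, Finset.sum_range_succ, ih]
    simp

private theorem Z3_sum (f : ℕ → ℤ) :
    ((List.range m).map f).sum = ∑ i : ZMod m, f i.val := by
  rw [Z3_sum_list]
  symm
  refine Finset.sum_bij (fun j _ => j.val) ?_ ?_ ?_ ?_
  · intro j _
    exact Finset.mem_range.2 (ZMod.val_lt j)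
  · intro j _ k _ h
    exact ZMod.val_injective m h
  · intro q hq
    refine ⟨(q : ZMod m), Finset.mem_univ _, ?_⟩
    exact ZMod.val_natCast_of_lt (Finset.mem_range.1 hq)
  · intro j _
    rfl

theorem contra_B (M : MdlB cls a b G) {eqs : List Eqn} (h : ∀ E ∈ eqs, Eqn.Holds E a) {ls : List ℤ}
    (hc : contraB m eqs ls = true) : False := by
  have hlc := lc_holds h ls
  unfold contraB at hc
  simp only [Bool.or_eq_true, Bool.and_eq_true, List.all_eq_true, List.any_eq_true, List.mem_range,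
    bne_iff_ne, beq_iff_eq, decide_eq_true_eq, ne_eq] at hc
  rcases hc with (⟨h1, h2⟩ | ⟨⟨j, hj, h1⟩, h2⟩) | ⟨j, hj, ⟨h1, h2⟩, h3⟩
  · apply h2
    have h3 : ∑ i : ZMod m, ((lcCo ls eqs i.val : ℤ) : ℝ) * a i = 0 := by
      refine Finset.sum_eq_zero fun i _ => ?_
      rw [h1 i.val (ZMod.val_lt i)]
      simp
    rw [h3] at hlc
    exact_mod_cast hlc.symm
  · rw [Z3_sum] at h2
    have h3 : ∑ i : ZMod m, (((if lcCo ls eqs i.val < 0 then 2 * lcCo ls eqs i.val else 0 : ℤ)) : ℝ) <
        ∑ i : ZMod m, ((lcCo ls eqs i.val : ℤ) : ℝ) * a i := by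
      refine Finset.sum_lt_sum ?_ ⟨(j : ZMod m), Finset.mem_univ _, ?_⟩
      · intro i _
        have h4 := M.a_pos i
        have h5 := M.a_lt i
        split_ifs with h6
        · have h7 : ((lcCo ls eqs i.val : ℤ) : ℝ) < 0 := by exact_mod_cast h6
          push_cast
          nlinarith
        · have h7 : (0 : ℝ) ≤ ((lcCo ls eqs i.val : ℤ) : ℝ) := by exact_mod_cast not_lt.1 h6
          push_cast
          positivity
      · have h4 := M.a_pos (j : ZMod m)
        have h5 := M.a_lt (j : ZMod m)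
        rw [ZMod.val_natCast_of_lt hj]
        split_ifs with h6
        · have h7 : ((lcCo ls eqs j : ℤ) : ℝ) < 0 := by exact_mod_cast h6
          push_cast
          nlinarith
        · have h8 : 0 < lcCo ls eqs j := lt_of_le_of_ne (not_lt.1 h6) (Ne.symm h1)
          have h7 : (0 : ℝ) < ((lcCo ls eqs j : ℤ) : ℝ) := by exact_mod_cast h8
          push_cast
          positivity
    rw [hlc] at h3
    have h4 : ∑ i : ZMod m, (if lcCo ls eqs i.val < 0 then 2 * lcCo ls eqs i.val else 0 : ℤ) <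
        lcRhs ls eqs := by
      have h5 : ((∑ i : ZMod m, (if lcCo ls eqs i.val < 0 then 2 * lcCo ls eqs i.val else 0 : ℤ) :
          ℤ) : ℝ) < ((lcRhs ls eqs : ℤ) : ℝ) := by
        rw [Int.cast_sum]
        exact h3
      exact_mod_cast h5
    omega
  · have h4 : ∑ i : ZMod m, ((lcCo ls eqs i.val : ℤ) : ℝ) * a i =
        ((lcCo ls eqs j : ℤ) : ℝ) * a (j : ZMod m) := by
      rw [Finset.sum_eq_single (j : ZMod m)]
      · rw [ZMod.val_natCast_of_lt hj]
      · intro i _ hi
        rcases h3 i.val (ZMod.val_lt i) with h5 | h5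
        · exfalso
          apply hi
          rw [← h5, ZMod.natCast_zmod_val]
        · rw [h5]
          simp
      · intro h5
        exact absurd (Finset.mem_univ _) h5
    rw [h4, h2] at hlc
    have h5 : ((lcCo ls eqs j : ℤ) : ℝ) ≠ 0 := by exact_mod_cast h1
    apply M.a_ne (j : ZMod m)
    have h6 : ((lcCo ls eqs j : ℤ) : ℝ) * a (j : ZMod m) = ((lcCo ls eqs j : ℤ) : ℝ) * 1 := by
      rw [hlc, mul_one]
    exact mul_left_cancel₀ h5 h6

private theorem Z3_alone {j : ZMod m} (h : alone cls j = true) : ∀ k, cls k = cls j → k = j := by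
  intro k hk
  unfold alone at h
  simp only [List.all_eq_true, List.mem_range, Bool.or_eq_true, bne_iff_ne, beq_iff_eq,
    ne_eq] at h
  have h1 := h k.val (ZMod.val_lt k)
  rw [ZMod.natCast_zmod_val] at h1
  rcases h1 with h1 | h1
  · exact absurd hk h1
  · exact h1

private theorem Z3_not_alone {j : ZMod m} (h : alone cls j = false) :
    ∃ k, k ≠ j ∧ cls k = cls j := by
  by_contra hcon
  push Not at hcon
  have h1 : alone cls j = true := by
    unfold alone
    simp only [List.all_eq_true, List.mem_range, Bool.or_eq_true, bne_iff_ne, beq_iff_eq,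
      ne_eq]
    intro k _
    by_cases hk : (k : ZMod m) = j
    · exact Or.inr hk
    · exact Or.inl (hcon _ hk)
  rw [h1] at h
  exact absurd h (by simp)

theorem fact_B (M : MdlB cls a b G) {ty : ZMod m → Ty} (hty : ∀ j, IsTy G cls j (ty j))
    {e g : ZMod m} {b' : Bool} (h : factB cls ty e g b' = true) : G e g b' := by
  have h1 := hty e
  unfold factB at h
  cases hte : ty e with
  | U =>
    rw [hte] at h
    simp only [Bool.and_eq_true, beq_iff_eq] at h
    obtain ⟨⟨rfl, rfl⟩, h4⟩ := h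
    rcases M.single e (Z3_alone h4) with h5 | h5
    · exact h5 e true rfl
    · exact h5.1
  | S =>
    rw [hte] at h h1
    simp only [beq_iff_eq] at h
    exact h1 g b' h.symm
  | C =>
    rw [hte] at h h1
    simp only [Bool.and_eq_true, beq_iff_eq] at h
    obtain ⟨rfl, rfl⟩ := h
    exact h1.1
  | R =>
    rw [hte] at h h1
    simp only [Bool.and_eq_true, beq_iff_eq, bne_iff_ne, ne_eq] at h
    obtain ⟨⟨h2, h3⟩, rfl⟩ := h
    exact h1.1 g (Ne.symm h2) h3.symm
  | G =>
    rw [hte] at h h1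
    simp only [Bool.and_eq_true, beq_iff_eq, bne_iff_ne, ne_eq, Bool.not_eq_true'] at h
    obtain ⟨⟨h2, h3⟩, rfl⟩ := h
    exact h1.1 g (Ne.symm h2) h3.symm

theorem splitT_B (M : MdlB cls a b G) {ty : ZMod m → Ty} (hty : ∀ j, IsTy G cls j (ty j)) {j : ℕ}
    (h : alone cls (j : ZMod m) = false) : ∃ t : Ty, (t = Ty.S ∨ t = Ty.R ∨ t = Ty.G) ∧
      ∀ i, IsTy G cls i (setTy cls ty j t i) := by
  obtain ⟨k, hk, hck⟩ := Z3_not_alone h
  obtain ⟨t, ht, h1, h2⟩ := M.twins (j : ZMod m) k (Ne.symm hk) hck.symm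
  refine ⟨t, ht, fun i => ?_⟩
  unfold setTy
  by_cases hi : cls i = cls (j : ZMod m)
  · rw [if_pos hi]
    by_cases hij : i = (j : ZMod m)
    · rw [hij]
      exact h1
    · by_cases hik : i = k
      · rw [hik]
        exact h2
      · exact absurd ⟨hi, hck.symm⟩ (M.three i (j : ZMod m) k hij (Ne.symm hk) hik)
  · rw [if_neg hi]
    exact hty i

theorem splitU_B (M : MdlB cls a b G) {ty : ZMod m → Ty} (hty : ∀ j, IsTy G cls j (ty j)) {j : ℕ}
    (h : alone cls (j : ZMod m) = true) : ∃ t : Ty, (t = Ty.S ∨ t = Ty.C) ∧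
      ∀ i, IsTy G cls i (setTy cls ty j t i) := by
  have h1 := Z3_alone h
  have key : ∀ t : Ty, IsTy G cls (j : ZMod m) t → ∀ i, IsTy G cls i (setTy cls ty j t i) := by
    intro t ht i
    unfold setTy
    by_cases hi : cls i = cls (j : ZMod m)
    · rw [if_pos hi, h1 i hi]
      exact ht
    · rw [if_neg hi]
      exact hty i
  rcases M.single (j : ZMod m) h1 with h2 | h2
  · exact ⟨Ty.S, Or.inl rfl, key _ h2⟩
  · exact ⟨Ty.C, Or.inr rfl, key _ h2⟩

end Pool.Agent.Lib_MP_fa6e45
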