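import Pool.Agent.Lib_MP_fa6e45.G1
import Pool.Agent.Lib_MP_fa6e45.G3

/-!
MP_fa6e45_co, stage 3.

PIECE G2 (about 250 lines, mostly copied from `Z2`): soundness of an `lp` node of the second checker (`G0`). By `t0`:
`M.lp1`, `M.lpTwo`, `M.lpImp` (with `okT0` and `hact`) applied to `v = vF v`, `A = aF A` gives a star `c, l` with cost
`< L` or (kind `t0` and cost `≤ L`), hence with cost `< llOf t0 L`. As in `Z2` its codes form a `TPath` with total
`t ≤ cost`; `dfs2_sound` gives `accB … = true` for the path of codes `(l.reverse ++ [c]).map code`. Its cases: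
length `< 2` is impossible (`Star2`), length 2 without active pair contradicts `Star2` and `hact`
(`code x / 2 = x.1.val`); `cvs.contains` gives the result as in `Z2`; the last case contradicts that cost `< L` or the
star is of the kind `t0` (`inT0`; `TImp`, `TTwo`). Private lemmas of `Z2` may be copied.
-/

open scoped Topology

namespace Pool.Agent.Lib_MP_fa6e45

variable {m : ℕ} [NeZero m] {cls : ZMod m → ℕ} {two : ZMod m → ZMod m → Prop} {a b : ZMod m → ℝ}
  {G : ZMod m → ZMod m → Bool → Prop}

private theorem G2_sum_zmod (f : ℕ → ℤ) :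
    ∑ i : ZMod m, f i.val = ((List.range m).map f).sum := by
  have h1 : ∀ n : ℕ, ∑ i ∈ Finset.range n, f i = ((List.range n).map f).sum := by
    intro n
    induction n with
    | zero => simp
    | succ n ih =>
      rw [Finset.sum_range_succ, ih, List.range_succ, List.map_append, List.sum_append]
      simp
  rw [← h1]
  obtain ⟨k, rfl⟩ := Nat.exists_eq_succ_of_ne_zero (NeZero.ne m)
  exact Fin.sum_univ_eq_sum_range f (k + 1)

private theorem G2_mem_allC (c : ZMod m × Bool) : c ∈ allC m := by
  unfold allC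
  rw [List.mem_flatMap]
  refine ⟨c.1, ?_, ?_⟩
  · refine List.mem_flatMap.2 ⟨c.1.val, List.mem_range.2 (ZMod.val_lt c.1), ?_⟩
    rw [ZMod.natCast_zmod_val]
    exact List.mem_singleton.2 rfl
  · obtain ⟨x, _ | _⟩ := c
    · simp
    · simp

private theorem G2_code_lt (c : ZMod m × Bool) : code c < 2 * m := by
  unfold code
  have h1 := ZMod.val_lt c.1
  have h2 : c.2.toNat ≤ 1 := Bool.toNat_le c.2
  omega

omit [NeZero m] in
private theorem G2_code_div (c : ZMod m × Bool) : code c / 2 = c.1.val := by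
  unfold code
  have h2 : c.2.toNat ≤ 1 := Bool.toNat_le c.2
  omega

omit [NeZero m] in
private theorem G2_aF (A : List (ℕ × ℕ × ℤ)) (x y : ZMod m × Bool) : aF A y x = -aF A x y := by
  unfold aF
  ring

omit [NeZero m] in
private theorem G2_telescope (v : List ℤ) (A : List (ℕ × ℕ × ℤ)) (φ : List ℤ)
    (l : List (ZMod m × Bool)) (c d : ZMod m × Bool) :
    pcost (cost v A φ) c l d =
      pcost (stepCost (vF v) (aF A)) c l d + φ.getD (code c) 0 - φ.getD (code d) 0 := by
  induction l generalizing c with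
  | nil => rfl
  | cons x l ih =>
    change cost v A φ c x + pcost (cost v A φ) x l d =
      stepCost (vF v) (aF A) c x + pcost (stepCost (vF v) (aF A)) x l d + φ.getD (code c) 0 -
        φ.getD (code d) 0
    rw [ih x, cost]
    ring

private theorem G2_step (M : MdlB cls a b G) {ty : ZMod m → Ty} (hty : ∀ j, IsTy G cls j (ty j))
    {v : List ℤ} {A : List (ℕ × ℕ × ℤ)} {φ : List ℤ} {L : ℕ} {tab : List (List (ℕ × ℕ))}
    (hs : ∀ c d : ZMod m × Bool, stepB cls ty v A φ L tab c d = true) {c d : ZMod m × Bool}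
    (hG : StepG G c d) : 0 ≤ cost v A φ c d ∧ (cost v A φ c d < L →
      ∃ t : ℕ, (code d, t) ∈ tab.getD (code c) [] ∧ (t : ℤ) ≤ cost v A φ c d) := by
  have h1 := hs c d
  have h2 : okB cls ty (exW c).1 (enW d).1 (c.2 == d.2) = true := okB_B M hty hG
  unfold stepB at h1
  rw [h2, Bool.not_true, Bool.false_or, Bool.and_eq_true, Bool.or_eq_true, decide_eq_true_iff,
    decide_eq_true_iff, List.any_eq_true] at h1
  refine ⟨h1.1, fun h3 => ?_⟩
  rcases h1.2 with h4 | ⟨x, hx, h4⟩
  · exact absurd h3 (not_lt.2 h4)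
  · rw [Bool.and_eq_true, decide_eq_true_iff, beq_iff_eq] at h4
    refine ⟨x.2, ?_, h4.2⟩
    rw [← h4.1]
    exact hx

private theorem G2_nonneg (M : MdlB cls a b G) {ty : ZMod m → Ty} (hty : ∀ j, IsTy G cls j (ty j))
    {v : List ℤ} {A : List (ℕ × ℕ × ℤ)} {φ : List ℤ} {L : ℕ} {tab : List (List (ℕ × ℕ))}
    (hs : ∀ c d : ZMod m × Bool, stepB cls ty v A φ L tab c d = true)
    (l : List (ZMod m × Bool)) (c d : ZMod m × Bool) (hP : Pth (StepG G) c l d) :
    0 ≤ pcost (cost v A φ) c l d := by
  induction l generalizing c with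
  | nil => exact (G2_step M hty hs hP).1
  | cons x l ih =>
    have h1 := (G2_step M hty hs hP.1).1
    have h2 := ih x hP.2
    change 0 ≤ cost v A φ c x + pcost (cost v A φ) x l d
    linarith

private theorem G2_tpath (M : MdlB cls a b G) {ty : ZMod m → Ty} (hty : ∀ j, IsTy G cls j (ty j))
    {v : List ℤ} {A : List (ℕ × ℕ × ℤ)} {φ : List ℤ} {L : ℕ} {tab : List (List (ℕ × ℕ))}
    (hs : ∀ c d : ZMod m × Bool, stepB cls ty v A φ L tab c d = true)
    (l : List (ZMod m × Bool)) (c d : ZMod m × Bool) (hP : Pth (StepG G) c l d)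
    (hL : pcost (cost v A φ) c l d < L) :
    ∃ t : ℕ, TPath tab (code c) (l.map code) (code d) t ∧ (t : ℤ) ≤ pcost (cost v A φ) c l d := by
  induction l generalizing c with
  | nil =>
    obtain ⟨t, h1, h2⟩ := (G2_step M hty hs hP).2 hL
    exact ⟨t, h1, h2⟩
  | cons x l ih =>
    have h1 := G2_step M hty hs hP.1
    have h2 := G2_nonneg M hty hs l x d hP.2
    have h3 : cost v A φ c x + pcost (cost v A φ) x l d < L := hL
    obtain ⟨t1, h4, h5⟩ := h1.2 (by linarith)
    obtain ⟨t2, h6, h7⟩ := ih x hP.2 (by linarith [h1.1])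
    refine ⟨t1 + t2, ⟨t1, t2, h4, h6, rfl⟩, ?_⟩
    change ((t1 + t2 : ℕ) : ℤ) ≤ cost v A φ c x + pcost (cost v A φ) x l d
    push_cast
    linarith

private theorem G2_count (p : List (ZMod m × Bool)) (f : ZMod m → ℝ) :
    ∑ i : ZMod m, (((p.map code).countP fun x => x / 2 == i.val : ℕ) : ℝ) * f i =
      (p.map fun x => f x.1).sum := by
  induction p with
  | nil => simp
  | cons x p ih =>
    rw [List.map_cons, List.map_cons, List.sum_cons, ← ih]
    have h1 : ∀ i : ZMod m, (((code x :: p.map code).countP fun x => x / 2 == i.val : ℕ) : ℝ) * f i =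
        (if i = x.1 then f i else 0) +
          (((p.map code).countP fun x => x / 2 == i.val : ℕ) : ℝ) * f i := by
      intro i
      rw [List.countP_cons, G2_code_div]
      by_cases h : i = x.1
      · rw [if_pos h, if_pos (by rw [h]; exact beq_self_eq_true _)]
        push_cast
        ring
      · rw [if_neg h, if_neg]
        · simp
        · rw [beq_iff_eq]
          intro h2
          exact h (ZMod.val_injective m h2).symm
    rw [Finset.sum_congr rfl fun i _ => h1 i, Finset.sum_add_distrib]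
    rw [Finset.sum_ite_eq' Finset.univ x.1 f, if_pos (Finset.mem_univ _)]

private theorem G2_holds (p : List (ZMod m × Bool)) (f : ZMod m → ℝ)
    (h : (p.map fun x => f x.1).sum = 2) :
    Eqn.Holds ((cntv m (p.map code)).map fun x => (x : ℤ), 2) f := by
  unfold Eqn.Holds
  have h1 : ∀ i : ZMod m,
      (((((cntv m (p.map code)).map fun x => (x : ℤ)).getD i.val 0 : ℤ) : ℝ) * f i) =
        (((p.map code).countP fun x => x / 2 == i.val : ℕ) : ℝ) * f i := by
    intro i
    congr 1
    have h2 : i.val < m := ZMod.val_lt i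
    have h3 : ((cntv m (p.map code)).map fun x => (x : ℤ)).getD i.val 0 =
        (((p.map code).countP fun x => x / 2 == i.val : ℕ) : ℤ) := by
      have h5 : ((cntv m (p.map code)).map fun x => (x : ℤ)) =
          List.map (fun x : ℕ => (x : ℤ)) (cntv m (p.map code)) := by
        rw [List.map_eq_flatMap (f := fun x : ℕ => (x : ℤ))]
        exact List.map_id _
      rw [h5]
      unfold cntv
      rw [List.getD_eq_getElem?_getD, List.map_map, List.getElem?_map,
        List.getElem?_range h2]
      rfl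
    rw [h3]
    push_cast
    rfl
  rw [Finset.sum_congr rfl fun i _ => h1 i, G2_count, h]
  push_cast
  rfl

/-- the star is of the kind `t0` -/
private def G2_InT (m : ℕ) (t0 : T0) (c : ZMod m × Bool) (l : List (ZMod m × Bool)) : Prop :=
  match t0 with
    | T0.none => False
    | T0.imp i => i < m ∧ TImp (i : ZMod m) c l
    | T0.two i j => i < m ∧ j < m ∧ TTwo (i : ZMod m) (j : ZMod m) c l

private theorem G2_code_nat {i : ℕ} (hi : i < m) {x : ZMod m × Bool} (h : x.1 = (i : ZMod m)) :
    (code x / 2 == i) = true := by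
  rw [G2_code_div, h, ZMod.val_natCast_of_lt hi]
  exact beq_self_eq_true _

private theorem G2_inT {t0 : T0} {c : ZMod m × Bool} {l : List (ZMod m × Bool)}
    (h : G2_InT m t0 c l) : inT0 t0 ((l.reverse ++ [c]).map code) = true := by
  cases t0 with
  | none => exact absurd h id
  | imp i =>
    obtain ⟨hi, h1, h2⟩ := h
    unfold inT0
    rw [Bool.and_eq_true, decide_eq_true_iff, List.any_eq_true]
    refine ⟨?_, ?_⟩
    · rw [List.length_map, List.length_append, List.length_reverse, List.length_singleton]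
      omega
    · rcases h2 with h2 | ⟨x, hx, h2⟩
      · exact ⟨code c, List.mem_map.2 ⟨c, List.mem_append.2 (Or.inr (List.mem_singleton.2 rfl)), rfl⟩,
          G2_code_nat hi h2⟩
      · exact ⟨code x, List.mem_map.2 ⟨x, List.mem_append.2 (Or.inl (List.mem_reverse.2 hx)), rfl⟩,
          G2_code_nat hi h2⟩
  | two i j =>
    obtain ⟨hi, hj, d, rfl, h2⟩ := h
    unfold inT0
    have h3 : (([d] : List (ZMod m × Bool)).reverse ++ [c]).map code = [code d, code c] := rfl
    rw [h3]
    rcases h2 with ⟨h4, h5⟩ | ⟨h4, h5⟩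
    · have e1 := G2_code_nat hi h4
      have e2 := G2_code_nat hj h5
      simp only [List.any_cons, e1, e2, List.length_cons, List.length_nil, Bool.or_true,
        Bool.true_or, Bool.and_true]
      decide
    · have e1 := G2_code_nat hj h4
      have e2 := G2_code_nat hi h5
      simp only [List.any_cons, e1, e2, List.length_cons, List.length_nil, Bool.or_true,
        Bool.true_or, Bool.and_true]
      decide

private theorem G2_star (M : MdlF cls two a b G) {act : List (ℕ × ℕ)}
    (hact : ∀ i j : ZMod m, two i j ↔ actB act i.val j.val = true) {t0 : T0} {v : List ℤ}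
    {A : List (ℕ × ℕ × ℤ)} {L : ℕ} (hb : budB m t0 v L = true) (hok : okT0 m act t0 = true) :
    ∃ (c : ZMod m × Bool) (l : List (ZMod m × Bool)), Star2 two a b G c l ∧
      (pcost (stepCost (vF v) (aF A)) c l c < L ∨
        (G2_InT m t0 c l ∧ pcost (stepCost (vF v) (aF A)) c l c ≤ L)) := by
  have h5 : ∑ i : ZMod m, vF v i = ((List.range m).map fun i => v.getD i 0).sum :=
    G2_sum_zmod fun i => v.getD i 0
  cases t0 with
  | none =>
    unfold budB at hb
    rw [decide_eq_true_iff, ← h5] at hb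
    obtain ⟨c, l, h1, h2⟩ := M.lp1 (vF v) (aF A) (G2_aF A) (L : ℤ) hb
    exact ⟨c, l, h1, Or.inl h2⟩
  | imp i =>
    unfold budB at hb
    rw [decide_eq_true_iff, ← h5] at hb
    unfold okT0 at hok
    simp only [Bool.and_eq_true, decide_eq_true_iff, List.any_eq_true, List.all_eq_true,
      List.mem_range, Bool.or_eq_true, Bool.not_eq_true', beq_iff_eq] at hok
    obtain ⟨hi, j, hj, ⟨h1, h2⟩, h3⟩ := hok
    have vi : ((i : ℕ) : ZMod m).val = i := ZMod.val_natCast_of_lt hi
    have vj : ((j : ℕ) : ZMod m).val = j := ZMod.val_natCast_of_lt hj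
    have t1 : two (i : ZMod m) (j : ZMod m) := (hact _ _).2 (by rw [vi, vj]; exact h1)
    have t2 : ∀ x, two (i : ZMod m) x → x = (j : ZMod m) := by
      intro x hx
      have h6 := (hact _ _).1 hx
      rw [vi] at h6
      rcases h2 x.val (ZMod.val_lt x) with h7 | h7
      · rw [h7] at h6
        exact absurd h6 (by decide)
      · rw [← h7, ZMod.natCast_zmod_val]
    have t3 : ∀ x, two (j : ZMod m) x → x = (i : ZMod m) := by
      intro x hx
      have h6 := (hact _ _).1 hx
      rw [vj] at h6
      rcases h3 x.val (ZMod.val_lt x) with h7 | h7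
      · rw [h7] at h6
        exact absurd h6 (by decide)
      · rw [← h7, ZMod.natCast_zmod_val]
    obtain ⟨c, l, h8, h9⟩ := M.lpImp _ _ t1 t2 t3 (vF v) (aF A) (G2_aF A) (L : ℤ) hb
    refine ⟨c, l, h8, ?_⟩
    rcases h9 with h9 | ⟨h9, h10⟩
    · exact Or.inl h9
    · exact Or.inr ⟨⟨hi, h9⟩, h10⟩
  | two i j =>
    unfold budB at hb
    rw [decide_eq_true_iff, ← h5] at hb
    unfold okT0 at hok
    simp only [Bool.and_eq_true, decide_eq_true_iff] at hok
    obtain ⟨⟨hi, hj⟩, h1⟩ := hok
    have vi : ((i : ℕ) : ZMod m).val = i := ZMod.val_natCast_of_lt hi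
    have vj : ((j : ℕ) : ZMod m).val = j := ZMod.val_natCast_of_lt hj
    have t1 : two (i : ZMod m) (j : ZMod m) := (hact _ _).2 (by rw [vi, vj]; exact h1)
    obtain ⟨c, l, h8, h9⟩ := M.lpTwo _ _ t1 (vF v) (aF A) (G2_aF A) (L : ℤ) hb
    refine ⟨c, l, h8, ?_⟩
    rcases h9 with h9 | ⟨h9, h10⟩
    · exact Or.inl h9
    · exact Or.inr ⟨⟨hi, hj, h9⟩, h10⟩

omit [NeZero m] in
private theorem G2_ll {t0 : T0} {L : ℕ} {P : ℤ} {c : ZMod m × Bool} {l : List (ZMod m × Bool)}
    (h : P < L ∨ (G2_InT m t0 c l ∧ P ≤ L)) : P < (llOf t0 L : ℕ) := by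
  cases t0 with
  | none =>
    rcases h with h | ⟨h, _⟩
    · exact h
    · exact absurd h id
  | imp i =>
    change P < ((L + 1 : ℕ) : ℤ)
    push_cast
    rcases h with h | ⟨_, h⟩ <;> linarith
  | two i j =>
    change P < ((L + 1 : ℕ) : ℤ)
    push_cast
    rcases h with h | ⟨_, h⟩ <;> linarith

theorem lp2_sound (M : MdlF cls two a b G) {act : List (ℕ × ℕ)}
    (hact : ∀ i j : ZMod m, two i j ↔ actB act i.val j.val = true) {ty : ZMod m → Ty}
    (hty : ∀ j, IsTy G cls j (ty j)) {t0 : T0} {v : List ℤ} {A : List (ℕ × ℕ × ℤ)} {φ : List ℤ}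
    {L fuel : ℕ} {tab : List (List (ℕ × ℕ))} {cvs : List (List ℕ)}
    (h : lpB2 cls ty act t0 v A φ L fuel tab cvs = true) :
    ∃ cv ∈ cvs, Eqn.Holds (cv.map fun x => (x : ℤ), 2) a ∧
      Eqn.Holds (cv.map fun x => (x : ℤ), 2) b := by
  unfold lpB2 at h
  rw [Bool.and_eq_true, Bool.and_eq_true, Bool.and_eq_true, List.all_eq_true,
    List.all_eq_true] at h
  obtain ⟨⟨⟨h0, h1⟩, h2⟩, h3⟩ := h
  have hs : ∀ c d : ZMod m × Bool, stepB cls ty v A φ (llOf t0 L) tab c d = true := fun c d =>
    List.all_eq_true.1 (h2 c (G2_mem_allC c)) d (G2_mem_allC d)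
  obtain ⟨c, l, ⟨hcode, hP, ha, hb, hlen⟩, hcost⟩ := G2_star (A := A) M hact h0 h1
  have h5 : pcost (cost v A φ) c l c = pcost (stepCost (vF v) (aF A)) c l c := by
    rw [G2_telescope]
    ring
  have h5' : pcost (cost v A φ) c l c < (llOf t0 L : ℕ) := by
    rw [h5]
    exact G2_ll hcost
  obtain ⟨t, h6, h7⟩ := G2_tpath M.toMdlB hty hs l c c hP h5'
  have h8 := h3 (code c) (List.mem_range.2 (G2_code_lt c))
  have h9 := dfs2_sound fuel (code c) 0 [code c] h8 (l.map code) t h6
    (fun x hx => by
      obtain ⟨y, hy, rfl⟩ := List.mem_map.1 hx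
      exact hcode y hy)
    (by
      have : (t : ℤ) < (llOf t0 L : ℕ) := lt_of_le_of_lt h7 h5'
      omega)
  have h10 : (l.map code).reverse ++ [code c] = (l.reverse ++ [c]).map code := by
    rw [List.map_append, List.map_reverse]
    rfl
  rw [h10, Nat.zero_add] at h9
  have hsum : ∀ f : ZMod m → ℝ, f c.1 + (l.map fun x => f x.1).sum = 2 →
      ((l.reverse ++ [c]).map fun x => f x.1).sum = 2 := by
    intro f hf
    rw [List.map_append, List.sum_append, List.map_reverse, List.sum_reverse, ← hf]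
    simp [add_comm]
  have hlen2 : ((l.reverse ++ [c]).map code).length = l.length + 1 := by
    rw [List.length_map, List.length_append, List.length_reverse, List.length_singleton]
  unfold accB at h9
  rw [Bool.or_eq_true, Bool.or_eq_true, Bool.or_eq_true, Bool.and_eq_true, Bool.and_eq_true,
    decide_eq_true_iff, decide_eq_true_iff, beq_iff_eq, hlen2] at h9
  rcases h9 with ((h9 | ⟨h9, h11⟩) | h9) | ⟨h9, h11⟩
  · exfalso
    rcases hlen with hlen | ⟨d, rfl, _⟩
    · omega
    · rw [List.length_singleton] at h9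
      omega
  · exfalso
    rcases hlen with hlen | ⟨d, rfl, h12⟩
    · omega
    · have h13 : (([d] : List (ZMod m × Bool)).reverse ++ [c]).map code = [code d, code c] := rfl
      rw [h13] at h11
      have h14 : ([code d, code c] : List ℕ).getD 0 0 / 2 = d.1.val := G2_code_div d
      have h15 : ([code d, code c] : List ℕ).getD 1 0 / 2 = c.1.val := G2_code_div c
      rw [h14, h15, (hact _ _).1 (M.two_symm _ _ h12)] at h11
      exact absurd h11 (by decide)
  · exact ⟨_, List.contains_iff_mem.1 h9, G2_holds _ a (hsum a ha), G2_holds _ b (hsum b hb)⟩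
  · exfalso
    rcases hcost with hcost | ⟨hcost, _⟩
    · rw [h5] at h7
      have : (t : ℤ) < L := lt_of_le_of_lt h7 hcost
      omega
    · rw [G2_inT hcost] at h11
      exact absurd h11 (by decide)

end Pool.Agent.Lib_MP_fa6e45
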