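import Pool.Agent.Lib_MP_fa6e45.GQ0
import Pool.Agent.Lib_MP_fa6e45.H6a
import Pool.Agent.Lib_MP_fa6e45.CQ1

/-!
MP_fa6e45_co, stage 9: the table of cosines of GQ0.
-/

namespace Pool.Agent.Lib_MP_fa6e45

/-- check of the entries `512 * i + k`, `k < 512` -/
private noncomputable def gqTc (i : ℕ) : Bool :=
  allN (fun k => decide (((gqE gqT (Nat.add (Nat.mul 512 i) k) : ℕ) : ℤ) * 65536 ≤
    (gexp ((Nat.mul 8 (Nat.add (Nat.mul 512 i) k) : ℕ) : ℤ)).1 + 1073741824 + 64536)) 512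

private theorem gqTc_all : allN gqTc 8 = true := by
  decide +kernel

private theorem gqE_tab (k : ℕ) (hk : k < 4096) :
    ((gqE gqT k : ℕ) : ℤ) * 65536 ≤ (gexp ((8 * k : ℕ) : ℤ)).1 + 1073741824 + 64536 := by
  have h := gqTc_all
  rw [allN_iff] at h
  have h1 := h (k / 512) (by omega)
  unfold gqTc at h1
  rw [allN_iff] at h1
  have h2 := h1 (k % 512) (by omega)
  rw [decide_eq_true_eq] at h2
  have e : Nat.add (Nat.mul 512 (k / 512)) (k % 512) = k := Nat.div_add_mod k 512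
  rw [e] at h2
  exact h2

private theorem gqE_mod (k : ℕ) : gqE gqT k = gqE gqT (k % 4096) := by
  unfold gqE
  have e : Nat.mod (Nat.mul 16 k) 65536 = Nat.mod (Nat.mul 16 (k % 4096)) 65536 := by
    show 16 * k % 65536 = 16 * (k % 4096) % 65536
    omega
  rw [e]

/-- the entries of the table (compared with `gexp`, whose error is at most `1000 / 2 ^ 30`) -/
theorem gqE_le (k : ℕ) : (gqE gqT k : ℝ) ≤ 16384 * (1 + Real.cos (Real.pi * k / 2048)) + 1 := by
  have h1 := gqE_tab (k % 4096) (Nat.mod_lt _ (by norm_num))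
  rw [← gqE_mod] at h1
  have h2 := gexp_err ((8 * (k % 4096) : ℕ) : ℤ)
  have h3 := (Complex.abs_re_le_norm _).trans h2
  have hre : (gcx (gexp ((8 * (k % 4096) : ℕ) : ℤ)) -
      1073741824 * gz (((8 * (k % 4096) : ℕ) : ℤ) * (Real.pi / 16384))).re =
      ((gexp ((8 * (k % 4096) : ℕ) : ℤ)).1 : ℝ) -
        1073741824 * Real.cos (((8 * (k % 4096) : ℕ) : ℤ) * (Real.pi / 16384)) := by
    rw [← gz_re]
    unfold gcx
    simp
  rw [hre] at h3
  have hcos : Real.cos (((8 * (k % 4096) : ℕ) : ℤ) * (Real.pi / 16384)) = Real.cos (Real.pi * k / 2048) := by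
    have hk : (k : ℝ) = 4096 * ((k / 4096 : ℕ) : ℝ) + ((k % 4096 : ℕ) : ℝ) := by
      exact_mod_cast (Nat.div_add_mod k 4096).symm
    have e : Real.pi * k / 2048 = ((8 * (k % 4096) : ℕ) : ℤ) * (Real.pi / 16384) +
        ((k / 4096 : ℕ) : ℝ) * (2 * Real.pi) := by
      rw [hk]
      generalize k % 4096 = r
      generalize k / 4096 = q
      push_cast
      ring
    rw [e, Real.cos_add_nat_mul_two_pi]
  rw [hcos] at h3
  have h4 : ((gqE gqT k : ℕ) : ℝ) * 65536 ≤ ((gexp ((8 * (k % 4096) : ℕ) : ℤ)).1 : ℝ) + 1073741824 + 64536 := by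
    exact_mod_cast h1
  have h5 := (abs_le.1 h3).2
  linarith

end Pool.Agent.Lib_MP_fa6e45
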