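import Pool.Agent.Lib_MP_fa6e45.G20
import Pool.Agent.Lib_MP_fa6e45.GQ1

/-!
MP_fa6e45_co, stage 9: positivity of the sums, two parameters (compare GQ3).
-/

namespace Pool.Agent.Lib_MP_fa6e45

/-- the angle of a lane -/
noncomputable def an2 (D : ℕ) (t u : ℝ) (e : ℕ × ℕ × ℕ × ℕ) : ℝ :=
  Real.pi * ((e.1 : ℝ) + e.2.1 * t + e.2.2.1 * u) / D

/-- the rotation -/
noncomputable def om2 (D s r p ρ σ : ℕ) (t u : ℝ) : ℝ :=
  Real.pi * ((p : ℝ) - 1 / 2) / 2048 - Real.pi * ρ * (t - s / 2048) / D - Real.pi * σ * (u - r / 2048) / D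

private theorem G21_abs (a b : ℕ) : |(a : ℝ) - b| = ((a - b : ℕ) : ℝ) + ((b - a : ℕ) : ℝ) := by
  rcases le_total a b with hle | hle
  · have h1 : a - b = 0 := Nat.sub_eq_zero_of_le hle
    rw [h1, Nat.cast_sub hle, abs_of_nonpos (by
      have : (a : ℝ) ≤ b := by exact_mod_cast hle
      linarith)]
    push_cast
    ring
  · have h1 : b - a = 0 := Nat.sub_eq_zero_of_le hle
    rw [h1, Nat.cast_sub hle, abs_of_nonneg (by
      have : (b : ℝ) ≤ a := by exact_mod_cast hle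
      linarith)]
    push_cast
    ring

private theorem G21_lip (x y : ℝ) : Real.cos x - Real.cos y ≤ |x - y| := by
  refine (le_abs_self _).trans ?_
  have h1 := Real.lipschitzWith_cos.dist_le_mul x y
  rw [Real.dist_eq, Real.dist_eq, NNReal.coe_one, one_mul] at h1
  exact h1

private theorem G21_pi : Real.pi < 22 / 7 := by
  have := Real.pi_lt_d4
  norm_num at this ⊢
  linarith

/-- rounding down -/
private theorem G21_fr {D X : ℕ} (hD : 0 < D) :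
    0 ≤ (X : ℝ) / D - ((X / D : ℕ) : ℝ) ∧ (X : ℝ) / D - ((X / D : ℕ) : ℝ) < 1 := by
  have hDr : (0 : ℝ) < D := by exact_mod_cast hD
  have h1 : ((X / D : ℕ) : ℝ) * D ≤ X := by exact_mod_cast Nat.div_mul_le_self X D
  have h2 : (X : ℝ) < ((X / D : ℕ) : ℝ) * D + D := by exact_mod_cast Nat.lt_div_mul_add (a := X) hD
  have h3 : ((X / D : ℕ) : ℝ) ≤ (X : ℝ) / D := by
    rw [le_div_iff₀ hDr]
    exact h1
  have h4 : (X : ℝ) / D < ((X / D : ℕ) : ℝ) + 1 := by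
    rw [div_lt_iff₀ hDr]
    linarith
  constructor <;> linarith

/-- one lane -/
private theorem G21_lane {D s r p ρ σ h k : ℕ} (hD : 0 < D) {t u : ℝ} (ht : |2048 * t - s| ≤ h)
    (hu : |2048 * u - r| ≤ k) (al be ga c : ℕ) :
    (gqE gqT ((2048 * al + be * s + ga * r) / D + p) : ℝ) - 16398 -
      (176 * (((be - ρ : ℕ) : ℝ) + ((ρ - be : ℕ) : ℝ))) * h / (7 * D) -
      (176 * (((ga - σ : ℕ) : ℝ) + ((σ - ga : ℕ) : ℝ))) * k / (7 * D) ≤
      16384 * Real.cos (an2 D t u (al, be, ga, c) + om2 D s r p ρ σ t u) := by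
  have hDr : (0 : ℝ) < D := by exact_mod_cast hD
  have hpi := Real.pi_pos
  have hpi2 := G21_pi
  obtain ⟨f1, f2⟩ := G21_fr (X := 2048 * al + be * s + ga * r) hD
  set q : ℕ := (2048 * al + be * s + ga * r) / D with hq
  have hE := gqE_le (q + p)
  have hlip := G21_lip (Real.pi * ((q + p : ℕ) : ℝ) / 2048) (an2 D t u (al, be, ga, c) + om2 D s r p ρ σ t u)
  have hpsi : Real.pi * ((q + p : ℕ) : ℝ) / 2048 - (an2 D t u (al, be, ga, c) + om2 D s r p ρ σ t u) =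
      Real.pi / 2048 * ((1 / 2 - (((2048 * al + be * s + ga * r : ℕ) : ℝ) / D - q)) -
        ((be : ℝ) - ρ) * (2048 * t - s) / D - ((ga : ℝ) - σ) * (2048 * u - r) / D) := by
    unfold an2 om2
    push_cast
    field_simp
    ring
  have hfr : |1 / 2 - (((2048 * al + be * s + ga * r : ℕ) : ℝ) / D - q)| ≤ 1 / 2 := by
    rw [abs_le]
    constructor <;> linarith
  have hb1 : |((be : ℝ) - ρ) * (2048 * t - s) / D| ≤
      (((be - ρ : ℕ) : ℝ) + ((ρ - be : ℕ) : ℝ)) * h / D := by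
    rw [abs_div, abs_mul, abs_of_pos hDr, ← G21_abs]
    gcongr
  have hb2 : |((ga : ℝ) - σ) * (2048 * u - r) / D| ≤
      (((ga - σ : ℕ) : ℝ) + ((σ - ga : ℕ) : ℝ)) * k / D := by
    rw [abs_div, abs_mul, abs_of_pos hDr, ← G21_abs]
    gcongr
  have hB1 : (0 : ℝ) ≤ (((be - ρ : ℕ) : ℝ) + ((ρ - be : ℕ) : ℝ)) * h / D := by positivity
  have hB2 : (0 : ℝ) ≤ (((ga - σ : ℕ) : ℝ) + ((σ - ga : ℕ) : ℝ)) * k / D := by positivity
  have e1 : (176 * (((be - ρ : ℕ) : ℝ) + ((ρ - be : ℕ) : ℝ))) * h / (7 * D) =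
      176 / 7 * ((((be - ρ : ℕ) : ℝ) + ((ρ - be : ℕ) : ℝ)) * h / D) := by
    field_simp
  have e2 : (176 * (((ga - σ : ℕ) : ℝ) + ((σ - ga : ℕ) : ℝ))) * k / (7 * D) =
      176 / 7 * ((((ga - σ : ℕ) : ℝ) + ((σ - ga : ℕ) : ℝ)) * k / D) := by
    field_simp
  rw [e1, e2]
  generalize (((be - ρ : ℕ) : ℝ) + ((ρ - be : ℕ) : ℝ)) * h / D = B1 at hb1 hB1 ⊢
  generalize (((ga - σ : ℕ) : ℝ) + ((σ - ga : ℕ) : ℝ)) * k / D = B2 at hb2 hB2 ⊢
  have hdist : |Real.pi * ((q + p : ℕ) : ℝ) / 2048 - (an2 D t u (al, be, ga, c) + om2 D s r p ρ σ t u)| ≤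
      Real.pi / 2048 * (1 / 2 + B1 + B2) := by
    rw [hpsi, abs_mul, abs_of_pos (by positivity : 0 < Real.pi / 2048)]
    refine mul_le_mul_of_nonneg_left ?_ (by positivity)
    refine (abs_sub _ _).trans ?_
    refine add_le_add ?_ hb2
    refine (abs_sub _ _).trans ?_
    exact add_le_add hfr hb1
  have h3 : 16384 * (Real.pi / 2048 * (1 / 2 + B1 + B2)) = 4 * Real.pi + 8 * Real.pi * (B1 + B2) := by ring
  have h4 : 8 * Real.pi * (B1 + B2) ≤ 176 / 7 * (B1 + B2) := by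
    refine mul_le_mul_of_nonneg_right ?_ (by linarith)
    linarith
  have h5 : 4 * Real.pi ≤ 13 := by linarith
  linarith [hlip, hdist, hE, h3, h4, h5]

private theorem G21_sum {D s r p c ρ σ h k : ℕ} (hD : 0 < D) {t u : ℝ} (ht : |2048 * t - s| ≤ h)
    (hu : |2048 * u - r| ≤ k) (l : List (ℕ × ℕ × ℕ × ℕ)) :
    (g2S gqT D s r p c l : ℝ) - g2N c l - (g2B ρ c l : ℝ) * h / (7 * D) - (g2G σ c l : ℝ) * k / (7 * D) ≤
      16384 * ((l.filter fun e => e.2.2.2 == c).map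
        fun e => Real.cos (an2 D t u e + om2 D s r p ρ σ t u)).sum := by
  have hDr : (0 : ℝ) < D := by exact_mod_cast hD
  induction l with
  | nil =>
    have h1 : g2S gqT D s r p c [] = 0 := rfl
    have h2 : g2N c [] = 0 := rfl
    have h3 : g2B ρ c [] = 0 := rfl
    have h4 : g2G σ c [] = 0 := rfl
    rw [h1, h2, h3, h4]
    simp
  | cons e l ih =>
    have h1 : g2S gqT D s r p c (e :: l) = bif Nat.beq e.2.2.2 c then
        Nat.add (gqE gqT (Nat.add (Nat.div (Nat.add (Nat.add (Nat.mul 2048 e.1) (Nat.mul e.2.1 s))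
          (Nat.mul e.2.2.1 r)) D) p)) (g2S gqT D s r p c l) else g2S gqT D s r p c l := rfl
    have h2 : g2N c (e :: l) = bif Nat.beq e.2.2.2 c then Nat.add 16398 (g2N c l) else g2N c l := rfl
    have h3 : g2B ρ c (e :: l) = bif Nat.beq e.2.2.2 c then
        Nat.add (Nat.mul 176 (Nat.add (Nat.sub e.2.1 ρ) (Nat.sub ρ e.2.1))) (g2B ρ c l) else g2B ρ c l := rfl
    have h4 : g2G σ c (e :: l) = bif Nat.beq e.2.2.2 c then
        Nat.add (Nat.mul 176 (Nat.add (Nat.sub e.2.2.1 σ) (Nat.sub σ e.2.2.1))) (g2G σ c l)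
          else g2G σ c l := rfl
    by_cases hc : e.2.2.2 = c
    · have hb : Nat.beq e.2.2.2 c = true := Nat.beq_eq.symm ▸ hc
      rw [h1, h2, h3, h4, hb, List.filter_cons_of_pos (by simpa using hc), List.map_cons, List.sum_cons]
      have h5 := G21_lane (p := p) (ρ := ρ) (σ := σ) hD ht hu e.1 e.2.1 e.2.2.1 e.2.2.2
      simp only [cond_true]
      have e1 : (Nat.add (gqE gqT (Nat.add (Nat.div (Nat.add (Nat.add (Nat.mul 2048 e.1) (Nat.mul e.2.1 s))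
          (Nat.mul e.2.2.1 r)) D) p)) (g2S gqT D s r p c l) : ℕ) =
          gqE gqT ((2048 * e.1 + e.2.1 * s + e.2.2.1 * r) / D + p) + g2S gqT D s r p c l := rfl
      have e2 : (Nat.add 16398 (g2N c l) : ℕ) = 16398 + g2N c l := rfl
      have e3 : (Nat.add (Nat.mul 176 (Nat.add (Nat.sub e.2.1 ρ) (Nat.sub ρ e.2.1))) (g2B ρ c l) : ℕ) =
          176 * ((e.2.1 - ρ) + (ρ - e.2.1)) + g2B ρ c l := rfl
      have e4 : (Nat.add (Nat.mul 176 (Nat.add (Nat.sub e.2.2.1 σ) (Nat.sub σ e.2.2.1))) (g2G σ c l) : ℕ) =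
          176 * ((e.2.2.1 - σ) + (σ - e.2.2.1)) + g2G σ c l := rfl
      rw [e1, e2, e3, e4]
      have e5 : an2 D t u (e.1, e.2.1, e.2.2.1, e.2.2.2) = an2 D t u e := rfl
      rw [e5] at h5
      push_cast
      have e6 : (176 * (((e.2.1 - ρ : ℕ) : ℝ) + ((ρ - e.2.1 : ℕ) : ℝ)) + (g2B ρ c l : ℝ)) * h / (7 * D) =
          176 * (((e.2.1 - ρ : ℕ) : ℝ) + ((ρ - e.2.1 : ℕ) : ℝ)) * h / (7 * D) +
            (g2B ρ c l : ℝ) * h / (7 * D) := by
        ring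
      have e7 : (176 * (((e.2.2.1 - σ : ℕ) : ℝ) + ((σ - e.2.2.1 : ℕ) : ℝ)) + (g2G σ c l : ℝ)) * k / (7 * D) =
          176 * (((e.2.2.1 - σ : ℕ) : ℝ) + ((σ - e.2.2.1 : ℕ) : ℝ)) * k / (7 * D) +
            (g2G σ c l : ℝ) * k / (7 * D) := by
        ring
      rw [e6, e7]
      linarith
    · have hb : Nat.beq e.2.2.2 c = false := by
        rw [← Bool.not_eq_true, Nat.beq_eq]
        exact hc
      rw [h1, h2, h3, h4, hb, List.filter_cons_of_neg (by simpa using hc)]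
      simpa only [cond_false] using ih

theorem g2S_pos {l : List (ℕ × ℕ × ℕ × ℕ)} {D s r p c ρ σ BB GG NN h k : ℕ} (hD : 0 < D)
    (h1 : (BB * h + GG * k) / (7 * D) + NN < g2S gqT D s r p c l) (h2 : g2B ρ c l ≤ BB) (h3 : g2G σ c l ≤ GG)
    (h4 : g2N c l ≤ NN) {t u : ℝ} (ht : |2048 * t - s| ≤ h) (hu : |2048 * u - r| ≤ k) :
    0 < ((l.filter fun e => e.2.2.2 == c).map fun e => Real.cos (an2 D t u e + om2 D s r p ρ σ t u)).sum := by
  have hDr : (0 : ℝ) < D := by exact_mod_cast hD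
  have key := G21_sum (p := p) (c := c) (ρ := ρ) (σ := σ) hD ht hu l
  have hfl : ((BB : ℝ) * h + GG * k) / (7 * D) < (((BB * h + GG * k) / (7 * D) : ℕ) : ℝ) + 1 := by
    rw [div_lt_iff₀ (by positivity)]
    have := Nat.lt_div_mul_add (a := BB * h + GG * k) (b := 7 * D) (by omega)
    have h4 : ((BB * h + GG * k : ℕ) : ℝ) < (((BB * h + GG * k) / (7 * D) * (7 * D) + 7 * D : ℕ) : ℝ) := by
      exact_mod_cast this
    push_cast at h4
    linarith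
  have h5 : (((BB * h + GG * k) / (7 * D) : ℕ) : ℝ) + 1 + NN ≤ g2S gqT D s r p c l := by
    have : (BB * h + GG * k) / (7 * D) + 1 + NN ≤ g2S gqT D s r p c l := by omega
    exact_mod_cast this
  have h6 : (g2B ρ c l : ℝ) * h / (7 * D) ≤ (BB : ℝ) * h / (7 * D) := by
    have : (g2B ρ c l : ℝ) ≤ BB := by exact_mod_cast h2
    gcongr
  have h7 : (g2G σ c l : ℝ) * k / (7 * D) ≤ (GG : ℝ) * k / (7 * D) := by
    have : (g2G σ c l : ℝ) ≤ GG := by exact_mod_cast h3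
    gcongr
  have h8 : (g2N c l : ℝ) ≤ NN := by exact_mod_cast h4
  have h9 : ((BB : ℝ) * h + GG * k) / (7 * D) = (BB : ℝ) * h / (7 * D) + (GG : ℝ) * k / (7 * D) := by ring
  linarith

private theorem G21_rec (f : ℕ → ℕ) (n : ℕ) :
    (Nat.rec (motive := fun _ => ℕ) 0 (fun i x => Nat.add (f i) x) n : ℕ) = ∑ i ∈ Finset.range n, f i := by
  induction n with
  | zero => rfl
  | succ n ih =>
    rw [Finset.sum_range_succ, ← ih]
    exact Nat.add_comm _ _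

/-- one lane, relative to another one -/
private theorem G21_rel {D s r h k z : ℕ} (hD : 0 < D) {t u : ℝ} (ht : |2048 * t - s| ≤ h)
    (hu : |2048 * u - r| ≤ k) (e e' : ℕ × ℕ × ℕ × ℕ) :
    (gqE gqT (g2I D s r e' + (z + (4096 - g2I D s r e % 4096))) : ℝ) ≤
      16411 + (g2E h k e e' : ℝ) / (7 * D) +
        16384 * Real.cos (an2 D t u e' - an2 D t u e + Real.pi * z / 2048) := by
  have hDr : (0 : ℝ) < D := by exact_mod_cast hD
  have hpi := Real.pi_pos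
  have hpi2 := G21_pi
  obtain ⟨f1, f2⟩ := G21_fr (X := 2048 * e.1 + e.2.1 * s + e.2.2.1 * r) hD
  obtain ⟨f3, f4⟩ := G21_fr (X := 2048 * e'.1 + e'.2.1 * s + e'.2.2.1 * r) hD
  have i1 : g2I D s r e = (2048 * e.1 + e.2.1 * s + e.2.2.1 * r) / D := rfl
  have i2 : g2I D s r e' = (2048 * e'.1 + e'.2.1 * s + e'.2.2.1 * r) / D := rfl
  rw [← i1] at f1 f2
  rw [← i2] at f3 f4
  set q := g2I D s r e' with hq
  set q0 := g2I D s r e with hq0
  have hE := gqE_le (q + (z + (4096 - q0 % 4096)))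
  have hz : ((q + (z + (4096 - q0 % 4096)) : ℕ) : ℝ) = (q : ℝ) - q0 + z + 4096 * ((q0 / 4096 : ℕ) + 1 : ℝ) := by
    have h1 : q0 % 4096 ≤ 4096 := (Nat.mod_lt _ (by norm_num)).le
    have h2 : (q0 : ℝ) = 4096 * ((q0 / 4096 : ℕ) : ℝ) + ((q0 % 4096 : ℕ) : ℝ) := by
      exact_mod_cast (Nat.div_add_mod q0 4096).symm
    push_cast [Nat.cast_sub h1]
    linarith
  have hcos : Real.cos (Real.pi * ((q + (z + (4096 - q0 % 4096)) : ℕ) : ℝ) / 2048) =
      Real.cos (Real.pi * ((q : ℝ) - q0 + z) / 2048) := by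
    have e1 : Real.pi * ((q + (z + (4096 - q0 % 4096)) : ℕ) : ℝ) / 2048 =
        Real.pi * ((q : ℝ) - q0 + z) / 2048 + ((q0 / 4096 + 1 : ℕ) : ℝ) * (2 * Real.pi) := by
      rw [hz]
      push_cast
      ring
    rw [e1, Real.cos_add_nat_mul_two_pi]
  rw [hcos] at hE
  have hlip := G21_lip (Real.pi * ((q : ℝ) - q0 + z) / 2048)
    (an2 D t u e' - an2 D t u e + Real.pi * z / 2048)
  have hpsi : Real.pi * ((q : ℝ) - q0 + z) / 2048 - (an2 D t u e' - an2 D t u e + Real.pi * z / 2048) =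
      Real.pi / 2048 * (((((2048 * e.1 + e.2.1 * s + e.2.2.1 * r : ℕ) : ℝ) / D - q0) -
        (((2048 * e'.1 + e'.2.1 * s + e'.2.2.1 * r : ℕ) : ℝ) / D - q)) -
        ((e'.2.1 : ℝ) - e.2.1) * (2048 * t - s) / D - ((e'.2.2.1 : ℝ) - e.2.2.1) * (2048 * u - r) / D) := by
    unfold an2
    push_cast
    field_simp
    ring
  have hfr : |(((2048 * e.1 + e.2.1 * s + e.2.2.1 * r : ℕ) : ℝ) / D - q0) -
        (((2048 * e'.1 + e'.2.1 * s + e'.2.2.1 * r : ℕ) : ℝ) / D - q)| ≤ 1 := by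
    rw [abs_le]
    constructor <;> linarith
  have hb1 : |((e'.2.1 : ℝ) - e.2.1) * (2048 * t - s) / D| ≤
      (((e'.2.1 - e.2.1 : ℕ) : ℝ) + ((e.2.1 - e'.2.1 : ℕ) : ℝ)) * h / D := by
    rw [abs_div, abs_mul, abs_of_pos hDr, ← G21_abs]
    gcongr
  have hb2 : |((e'.2.2.1 : ℝ) - e.2.2.1) * (2048 * u - r) / D| ≤
      (((e'.2.2.1 - e.2.2.1 : ℕ) : ℝ) + ((e.2.2.1 - e'.2.2.1 : ℕ) : ℝ)) * k / D := by
    rw [abs_div, abs_mul, abs_of_pos hDr, ← G21_abs]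
    gcongr
  have hB1 : (0 : ℝ) ≤ (((e'.2.1 - e.2.1 : ℕ) : ℝ) + ((e.2.1 - e'.2.1 : ℕ) : ℝ)) * h / D := by positivity
  have hB2 : (0 : ℝ) ≤ (((e'.2.2.1 - e.2.2.1 : ℕ) : ℝ) + ((e.2.2.1 - e'.2.2.1 : ℕ) : ℝ)) * k / D := by
    positivity
  have e3 : g2E h k e e' = 176 * (((e'.2.1 - e.2.1) + (e.2.1 - e'.2.1)) * h +
      ((e'.2.2.1 - e.2.2.1) + (e.2.2.1 - e'.2.2.1)) * k) := rfl
  have e4 : (g2E h k e e' : ℝ) / (7 * D) =
      176 / 7 * ((((e'.2.1 - e.2.1 : ℕ) : ℝ) + ((e.2.1 - e'.2.1 : ℕ) : ℝ)) * h / D +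
        (((e'.2.2.1 - e.2.2.1 : ℕ) : ℝ) + ((e.2.2.1 - e'.2.2.1 : ℕ) : ℝ)) * k / D) := by
    rw [e3]
    push_cast
    field_simp
  rw [e4]
  generalize (((e'.2.1 - e.2.1 : ℕ) : ℝ) + ((e.2.1 - e'.2.1 : ℕ) : ℝ)) * h / D = B1 at hb1 hB1 ⊢
  generalize (((e'.2.2.1 - e.2.2.1 : ℕ) : ℝ) + ((e.2.2.1 - e'.2.2.1 : ℕ) : ℝ)) * k / D = B2 at hb2 hB2 ⊢
  have hdist : |Real.pi * ((q : ℝ) - q0 + z) / 2048 - (an2 D t u e' - an2 D t u e + Real.pi * z / 2048)| ≤
      Real.pi / 2048 * (1 + B1 + B2) := by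
    rw [hpsi, abs_mul, abs_of_pos (by positivity : 0 < Real.pi / 2048)]
    refine mul_le_mul_of_nonneg_left ?_ (by positivity)
    refine (abs_sub _ _).trans ?_
    refine add_le_add ?_ hb2
    refine (abs_sub _ _).trans ?_
    exact add_le_add hfr hb1
  have h3 : 16384 * (Real.pi / 2048 * (1 + B1 + B2)) = 8 * Real.pi + 8 * Real.pi * (B1 + B2) := by ring
  have h4 : 8 * Real.pi * (B1 + B2) ≤ 176 / 7 * (B1 + B2) := by
    refine mul_le_mul_of_nonneg_right ?_ (by linarith)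
    linarith
  have h5 : 8 * Real.pi ≤ 26 := by linarith
  linarith [hlip, hdist, hE, h3, h4, h5]

theorem g2Y_pos {m D s r h k z a n : ℕ} {l : List (ℕ × ℕ × ℕ × ℕ)} {e : ℕ × ℕ × ℕ × ℕ} (hD : 0 < D)
    (h1 : g2Y m gqT D s r h k z l e a n = true) {t u : ℝ} (ht : |2048 * t - s| ≤ h) (hu : |2048 * u - r| ≤ k) :
    0 < ∑ i ∈ Finset.range n,
      Real.cos (an2 D t u (g2L m l (a + i)) - an2 D t u e + Real.pi * z / 2048) := by
  have hDr : (0 : ℝ) < D := by exact_mod_cast hD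
  have h2 : 16411 * n + (Nat.rec (motive := fun _ => ℕ) 0
        (fun i x => Nat.add (g2E h k e (g2L m l (a + i))) x) n : ℕ) / (7 * D) <
      (Nat.rec (motive := fun _ => ℕ) 0
        (fun i x => Nat.add (gqE gqT (g2I D s r (g2L m l (a + i)) + (z + (4096 - g2I D s r e % 4096)))) x) n : ℕ) := by
    have h3 : g2Y m gqT D s r h k z l e a n = Nat.blt (16411 * n + (Nat.rec (motive := fun _ => ℕ) 0
        (fun i x => Nat.add (g2E h k e (g2L m l (a + i))) x) n : ℕ) / (7 * D))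
      (Nat.rec (motive := fun _ => ℕ) 0
        (fun i x => Nat.add (gqE gqT (g2I D s r (g2L m l (a + i)) + (z + (4096 - g2I D s r e % 4096)))) x) n : ℕ) := rfl
    rw [h3] at h1
    exact Nat.le_of_ble_eq_true h1
  rw [G21_rec, G21_rec] at h2
  have h4 : (∑ i ∈ Finset.range n, gqE gqT (g2I D s r (g2L m l (a + i)) +
      (z + (4096 - g2I D s r e % 4096))) : ℝ) ≤
      ∑ i ∈ Finset.range n, (16411 + (g2E h k e (g2L m l (a + i)) : ℝ) / (7 * D) +
        16384 * Real.cos (an2 D t u (g2L m l (a + i)) - an2 D t u e + Real.pi * z / 2048)) :=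
    Finset.sum_le_sum fun i _ => G21_rel hD ht hu e (g2L m l (a + i))
  rw [Finset.sum_add_distrib, Finset.sum_add_distrib, ← Finset.mul_sum, ← Finset.sum_div, Finset.sum_const,
    Finset.card_range, nsmul_eq_mul] at h4
  set E : ℕ := ∑ i ∈ Finset.range n, g2E h k e (g2L m l (a + i)) with hE
  set Q : ℕ := ∑ i ∈ Finset.range n, gqE gqT (g2I D s r (g2L m l (a + i)) + (z + (4096 - g2I D s r e % 4096))) with hQ
  have h5 : (∑ i ∈ Finset.range n, (g2E h k e (g2L m l (a + i)) : ℝ)) = (E : ℝ) := by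
    rw [hE]
    push_cast
    rfl
  have h6 : (∑ i ∈ Finset.range n, gqE gqT (g2I D s r (g2L m l (a + i)) +
      (z + (4096 - g2I D s r e % 4096))) : ℝ) = (Q : ℝ) := by
    rw [hQ]
    push_cast
    rfl
  rw [h5, h6] at h4
  obtain ⟨-, f2⟩ := G21_fr (X := E) (D := 7 * D) (by omega)
  have h7 : ((16411 * n + E / (7 * D) + 1 : ℕ) : ℝ) ≤ Q := by exact_mod_cast h2
  push_cast at h7 f2
  linarith

end Pool.Agent.Lib_MP_fa6e45
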