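import Pool.Agent.Lib_MP_fa6e45.G2
import Pool.Agent.Lib_MP_fa6e45.G4a

/-!
MP_fa6e45_co, stage 3: soundness of the second checker, compare `Z4`.
-/

namespace Pool.Agent.Lib_MP_fa6e45

variable {m : ℕ} [NeZero m] {cls : ZMod m → ℕ} {two : ZMod m → ZMod m → Prop} {a b : ZMod m → ℝ}
  {G : ZMod m → ZMod m → Bool → Prop}

theorem chk2_sound (M : MdlF cls two a b G) {act : List (ℕ × ℕ)}
    (hact : ∀ i j : ZMod m, two i j ↔ actB act i.val j.val = true) (tab : ℕ → Sch) (t : Tr2)
    (ty : ZMod m → Ty) (hty : ∀ j, IsTy G cls j (ty j)) (eqs : List Eqn)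
    (ha : ∀ E ∈ eqs, Eqn.Holds E a) (hb : ∀ E ∈ eqs, Eqn.Holds E b) (o : Option (List (List ℕ)))
    (h : chk2 cls act tab t ty eqs o = true)
    (ho : ∀ cvs, o = some cvs → ∃ cv ∈ cvs, Eqn.Holds (cv.map fun x => (x : ℤ), 2) a ∧
      Eqn.Holds (cv.map fun x => (x : ℤ), 2) b) : Applies tab b G ∨ AppliesM a G := by
  induction t generalizing ty eqs o with
  | leaf k p cs =>
    simp only [chk2, Bool.and_eq_true, List.all_eq_true] at h
    exact Or.inl ⟨k, p, fun g hg => fact_B M.toMdlB hty (h.1 g hg), der_sound hb h.2⟩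
  | leafM k nu cs =>
    simp only [chk2, Bool.and_eq_true, List.all_eq_true] at h
    have hnu : ∀ x ∈ nu, x < m := by
      have h1 := h.1.1
      unfold nuOK at h1
      simp only [Bool.and_eq_true, List.all_eq_true, decide_eq_true_eq] at h1
      exact h1.1.1.2
    exact Or.inr ⟨k, nu, h.1.1, fun g hg => glueM_sound M hact hty (h.1.2 g hg),
      derM_sound ha hnu h.2⟩
  | contra ls =>
    simp only [chk2] at h
    exact (contra_B M.toMdlB ha h).elim
  | splitT j tS tR tG ihS ihR ihG =>
    simp only [chk2, Bool.and_eq_true, Bool.not_eq_true'] at h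
    obtain ⟨⟨⟨h0, hS⟩, hR⟩, hG⟩ := h
    obtain ⟨t, ht, hty'⟩ := splitT_B M.toMdlB hty h0
    rcases ht with rfl | rfl | rfl
    · exact ihS _ hty' eqs ha hb none hS (fun _ h' => by cases h')
    · exact ihR _ hty' eqs ha hb none hR (fun _ h' => by cases h')
    · exact ihG _ hty' eqs ha hb none hG (fun _ h' => by cases h')
  | splitU j tS tC ihS ihC =>
    simp only [chk2, Bool.and_eq_true] at h
    obtain ⟨⟨h0, hS⟩, hC⟩ := h
    obtain ⟨t, ht, hty'⟩ := splitU_B M.toMdlB hty h0
    rcases ht with rfl | rfl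
    · exact ihS _ hty' eqs ha hb none hS (fun _ h' => by cases h')
    · exact ihC _ hty' eqs ha hb none hC (fun _ h' => by cases h')
  | lp t0 v A φ L fuel t cvs ch ih =>
    simp only [chk2, Bool.and_eq_true] at h
    exact ih ty hty eqs ha hb (some cvs) h.2
      (fun cvs' h' => by cases h'; exact lp2_sound M hact hty h.1)
  | cons t rest iht ihr =>
    rcases o with _ | (_ | ⟨cv, cvs⟩)
    · simp [chk2] at h
    · simp [chk2] at h
    · simp only [chk2, Bool.and_eq_true] at h
      obtain ⟨cv', hcv', h1, h2⟩ := ho _ rfl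
      rcases List.mem_cons.1 hcv' with rfl | hmem
      · refine iht ty hty _ ?_ ?_ none h.1 (fun _ h' => by cases h')
        · intro E hE
          rcases List.mem_cons.1 hE with rfl | hE
          · exact h1
          · exact ha E hE
        · intro E hE
          rcases List.mem_cons.1 hE with rfl | hE
          · exact h2
          · exact hb E hE
      · exact ihr ty hty eqs ha hb (some cvs) h.2
          (fun cvs'' h' => by cases h'; exact ⟨cv', hmem, h1, h2⟩)
  | nil =>
    rcases o with _ | (_ | ⟨cv, cvs⟩)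
    · simp [chk2] at h
    · obtain ⟨cv', hcv', _⟩ := ho _ rfl
      exact absurd hcv' List.not_mem_nil
    · simp [chk2] at h

/-- the checker proves that a scheme applies -/
theorem check2 (M : MdlF cls two a b G) {act : List (ℕ × ℕ)}
    (hact : ∀ i j : ZMod m, two i j ↔ actB act i.val j.val = true) (tab : ℕ → Sch) (t : Tr2)
    (h : chkR cls act tab t = true) : Applies tab b G ∨ AppliesM a G := by
  unfold chkR at h
  simp only [Bool.and_eq_true, List.all_eq_true, decide_eq_true_eq] at h
  obtain ⟨hlt, h⟩ := h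
  have h2 : ∀ p ∈ act, two (p.1 : ZMod m) (p.2 : ZMod m) := by
    intro p hp
    rw [hact, ZMod.val_natCast_of_lt (hlt p hp).1, ZMod.val_natCast_of_lt (hlt p hp).2]
    unfold actB
    rw [Bool.or_eq_true]
    exact Or.inl (List.contains_iff_mem.2 hp)
  exact chk2_sound M hact tab t _ (ty0_sound M hact hlt) _
    (eqs0_sound M.a_sum (fun p hp => (M.two_sum _ _ (h2 p hp)).1) hlt)
    (eqs0_sound M.b_sum (fun p hp => (M.two_sum _ _ (h2 p hp)).2) hlt) none h
    (fun _ h' => by cases h')

end Pool.Agent.Lib_MP_fa6e45
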