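import Pool.Agent.Lib_MP_fa6e45.G0

/-!
MP_fa6e45_co, stage 3: coarse arcs.

PIECE G5a (about 150 lines): `coarse_step`: `nuA m nu ((j + 1) % nu.length) 0 = nuA m nu j (nuU m nu j)` in `ZMod m`
(by the definition of `nuU`). `coarse_kappa`: with `S.step`, by induction on `r`. `coarse_total`: the sum over all `j` of
the sums over the pieces of the coarse arc `j` is the sum of `S.w` over `ZMod m`: with `K r = ∑ i < r, nuU m nu i` the
pieces are `nuA m nu 0 (K j + t)`, `K nu.length = m`; compare the proof of the similar lemma in `X1c.lean` (`X1c_K`).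
-/

open Set MeasureTheory Complex
open scoped Topology

namespace Pool.Agent.Lib_MP_fa6e45

open Pool.Agent.Lib_PL (cr InSector Poly)

variable {n : ℕ} {P : Polygon n} {m : ℕ} [NeZero m]

private theorem G5a_sum_map_range (f : ℕ → ℕ) (N : ℕ) :
    ((List.range N).map f).sum = ∑ j ∈ Finset.range N, f j := by
  induction N with
  | zero => simp
  | succ N ih => rw [List.range_succ, List.map_append, List.sum_append, ih, Finset.sum_range_succ]; simp

theorem nuOK_iff {nu : List ℕ} (h : nuOK m nu = true) : 3 ≤ nu.length ∧ (∀ x ∈ nu, x < m) ∧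
    (∀ j, j < nu.length → 0 < nuU m nu j) ∧ ∑ j ∈ Finset.range nu.length, nuU m nu j = m := by
  unfold nuOK at h
  simp only [Bool.and_eq_true, decide_eq_true_eq, List.all_eq_true, List.mem_range,
    beq_iff_eq] at h
  obtain ⟨⟨⟨h1, h2⟩, h3⟩, h4⟩ := h
  refine ⟨h1, h2, h3, ?_⟩
  rw [← G5a_sum_map_range]
  exact h4

theorem coarse_step {nu : List ℕ} (h : nuOK m nu = true) {j : ℕ} (hj : j < nu.length) :
    nuA m nu ((j + 1) % nu.length) 0 = nuA m nu j (nuU m nu j) := by
  obtain ⟨h1, h2, -, -⟩ := nuOK_iff h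
  have hx : nu.getD j 0 < m := by
    rw [List.getD_eq_getElem _ _ hj]
    exact h2 _ (List.getElem_mem hj)
  unfold nuA nuU
  rw [Nat.cast_add, Nat.cast_add, ZMod.natCast_mod, Nat.cast_sub (by omega), Nat.cast_add,
    ZMod.natCast_self]
  push_cast
  ring

theorem coarse_kappa (S : Arcs P m) (nu : List ℕ) (j r : ℕ) :
    S.κ (nuA m nu j r) =
      S.κ (nuA m nu j 0) + ((∑ t ∈ Finset.range r, S.w (nuA m nu j t) : ℕ) : ZMod n) := by
  induction r with
  | zero => simp
  | succ r ih =>
    have h1 : nuA m nu j (r + 1) = nuA m nu j r + 1 := by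
      unfold nuA
      push_cast
      ring
    rw [h1, S.step, ih, Finset.sum_range_succ]
    push_cast
    ring

private theorem sum_zmod_range_aux {α : Type} [AddCommMonoid α] {M : ℕ} [NeZero M] (f : ℕ → α) :
    ∑ j : ZMod M, f j.val = ∑ j ∈ Finset.range M, f j := by
  cases M with
  | zero => exact absurd rfl (NeZero.ne 0)
  | succ M => exact Fin.sum_univ_eq_sum_range f (M + 1)

theorem coarse_total {nu : List ℕ} (h : nuOK m nu = true) (w : ZMod m → ℕ) :
    ∑ j ∈ Finset.range nu.length, ∑ t ∈ Finset.range (nuU m nu j), w (nuA m nu j t) = ∑ j, w j := by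
  obtain ⟨h1, h2, h3, h4⟩ := nuOK_iff h
  -- start of the coarse arc `r`
  have hK : ∀ r, r < nu.length → nuA m nu r 0 =
      nuA m nu 0 0 + ((∑ i ∈ Finset.range r, nuU m nu i : ℕ) : ZMod m) := by
    intro r
    induction r with
    | zero => intro _; simp
    | succ r ih =>
      intro hr
      have h5 := coarse_step h (j := r) (by omega)
      rw [Nat.mod_eq_of_lt hr] at h5
      have h6 : nuA m nu r (nuU m nu r) = nuA m nu r 0 + ((nuU m nu r : ℕ) : ZMod m) := by
        unfold nuA
        push_cast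
        ring
      rw [h5, h6, ih (by omega), Finset.sum_range_succ]
      push_cast
      ring
  -- telescoping of the ranges
  have hS : ∀ r, ∑ j ∈ Finset.range r, ∑ t ∈ Finset.range (nuU m nu j),
      w (nuA m nu 0 0 + (((∑ i ∈ Finset.range j, nuU m nu i) + t : ℕ) : ZMod m)) =
      ∑ s ∈ Finset.range (∑ i ∈ Finset.range r, nuU m nu i),
        w (nuA m nu 0 0 + ((s : ℕ) : ZMod m)) := by
    intro r
    induction r with
    | zero => simp
    | succ r ih =>
      rw [Finset.sum_range_succ, ih, Finset.sum_range_succ (fun i => nuU m nu i) r,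
        Finset.sum_range_add]
  have h7 : ∑ j ∈ Finset.range nu.length, ∑ t ∈ Finset.range (nuU m nu j), w (nuA m nu j t) =
      ∑ j ∈ Finset.range nu.length, ∑ t ∈ Finset.range (nuU m nu j),
      w (nuA m nu 0 0 + (((∑ i ∈ Finset.range j, nuU m nu i) + t : ℕ) : ZMod m)) := by
    refine Finset.sum_congr rfl fun j hj => Finset.sum_congr rfl fun t _ => ?_
    have h8 : nuA m nu j t = nuA m nu j 0 + ((t : ℕ) : ZMod m) := by
      unfold nuA
      push_cast
      ring
    rw [h8, hK j (Finset.mem_range.1 hj)]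
    push_cast
    rw [add_assoc]
  rw [h7, hS, h4]
  have h9 : ∑ j : ZMod m, w j = ∑ j : ZMod m, w (nuA m nu 0 0 + j) :=
    (Equiv.sum_comp (Equiv.addLeft (nuA m nu 0 0)) w).symm
  rw [h9, ← sum_zmod_range_aux (fun s : ℕ => w (nuA m nu 0 0 + ((s : ℕ) : ZMod m)))]
  refine Finset.sum_congr rfl fun j _ => ?_
  rw [ZMod.natCast_zmod_val]

theorem sum_zmod_range {α : Type} [AddCommMonoid α] {M : ℕ} [NeZero M] (f : ℕ → α) :
    ∑ j : ZMod M, f j.val = ∑ j ∈ Finset.range M, f j :=
  sum_zmod_range_aux f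

/-- the coarse arcs -/
def Arcs.coarse (S : Arcs P m) {nu : List ℕ} (h : nuOK m nu = true) {M : ℕ} [NeZero M]
    (hM : nu.length = M) : Arcs P M where
  κ := fun j => S.κ (nuA m nu j.val 0)
  w := fun j => ∑ t ∈ Finset.range (nuU m nu j.val), S.w (nuA m nu j.val t)
  w_pos := fun j => by
    have h1 := (nuOK_iff h).2.2.1 j.val (by rw [hM]; exact ZMod.val_lt j)
    exact Finset.sum_pos (fun t _ => S.w_pos _) (by
      rw [Finset.nonempty_range_iff]
      omega)
  step := fun j => by
    have h3 := (nuOK_iff h).1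
    have h1 : (j + 1).val = (j.val + 1) % nu.length := by
      rw [hM, ZMod.val_add, ZMod.val_one'' (by omega)]
    rw [h1, coarse_step h (by rw [hM]; exact ZMod.val_lt j), coarse_kappa]
  total := by
    rw [sum_zmod_range (fun j => ∑ t ∈ Finset.range (nuU m nu j), S.w (nuA m nu j t)), ← hM,
      coarse_total h, S.total]

end Pool.Agent.Lib_MP_fa6e45
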