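import Pool.Agent.Lib_MP_fa6e45.G5a

/-!
MP_fa6e45_co, stage 3: the relation of coarse arcs.

PIECE G5b (about 200 lines). `plus_append`, `minus_append`: by cases (`t < W₁`, `t = W₁`, `t > W₁`). `coarse_rel`:
by induction on the number `r` of pieces, starting at the beginning of the coarse arc `j`: for `g.2.2 = true` (Plus)
`PlusP P (κ j 0) (κ k (u - r)) (sum of the first r pieces)`, where piece `t` of `j` belongs to piece `u - 1 - t` of `k`
(`S.Rel` gives the equality of `S.w` and the statements for the piece); for `false` (Minus) the pieces are in the same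
order. `P.ang / π` at the inner corners sum to `2`. Use `coarse_kappa` for the places of the corners.
-/

open Set MeasureTheory Complex
open scoped Topology

namespace Pool.Agent.Lib_MP_fa6e45

open Pool.Agent.Lib_PL (cr InSector Poly)

variable {n : ℕ} {P : Polygon n} {m : ℕ} [NeZero m]

/-- the part of the boundary with `W` sides from corner `x` on fits to the part with `W` sides from `y` on, traversed
backwards -/
def PlusP (P : Polygon n) (x y : ZMod n) (W : ℕ) : Prop :=
  (∀ t s : ℕ, t + s + 1 = W → P.len (x + (t : ZMod n)) = P.len (y + (s : ZMod n))) ∧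
  ∀ t s : ℕ, 0 < t → 0 < s → t + s = W →
    P.ang (x + (t : ZMod n)) + P.ang (y + (s : ZMod n)) = 2 * Real.pi

/-- the part of the boundary with `W` sides from corner `x` on fits to the reflected part with `W` sides from `y` on -/
def MinusP (P : Polygon n) (x y : ZMod n) (W : ℕ) : Prop :=
  (∀ t : ℕ, t < W → P.len (x + (t : ZMod n)) = P.len (y + (t : ZMod n))) ∧
  ∀ t : ℕ, 0 < t → t < W →
    P.ang (x + (t : ZMod n)) + P.ang (y + (t : ZMod n)) = 2 * Real.pi

theorem plus_append {x y : ZMod n} {W₁ W₂ : ℕ} (h1 : PlusP P x (y + (W₂ : ZMod n)) W₁)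
    (h2 : PlusP P (x + (W₁ : ZMod n)) y W₂)
    (h : 0 < W₁ → 0 < W₂ → P.ang (x + (W₁ : ZMod n)) + P.ang (y + (W₂ : ZMod n)) = 2 * Real.pi) :
    PlusP P x y (W₁ + W₂) := by
  constructor
  · intro t s hts
    rcases lt_or_ge t W₁ with ht | ht
    · obtain ⟨s', rfl⟩ := Nat.exists_eq_add_of_le (show W₂ ≤ s by omega)
      have := h1.1 t s' (by omega)
      rw [this, Nat.cast_add, add_assoc]
    · obtain ⟨t', rfl⟩ := Nat.exists_eq_add_of_le ht
      have := h2.1 t' s (by omega)
      rw [← this, Nat.cast_add, add_assoc]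
  · intro t s ht0 hs0 hts
    rcases lt_trichotomy t W₁ with ht | ht | ht
    · obtain ⟨s', rfl⟩ := Nat.exists_eq_add_of_le (show W₂ ≤ s by omega)
      have := h1.2 t s' ht0 (by omega) (by omega)
      rw [Nat.cast_add, ← add_assoc y]
      exact this
    · obtain rfl : s = W₂ := by omega
      subst ht
      exact h ht0 hs0
    · obtain ⟨t', rfl⟩ := Nat.exists_eq_add_of_le ht.le
      have := h2.2 t' s (by omega) hs0 (by omega)
      rw [Nat.cast_add, ← add_assoc x]
      exact this

theorem minus_append {x y : ZMod n} {W₁ W₂ : ℕ} (h1 : MinusP P x y W₁)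
    (h2 : MinusP P (x + (W₁ : ZMod n)) (y + (W₁ : ZMod n)) W₂)
    (h : 0 < W₁ → 0 < W₂ → P.ang (x + (W₁ : ZMod n)) + P.ang (y + (W₁ : ZMod n)) = 2 * Real.pi) :
    MinusP P x y (W₁ + W₂) := by
  constructor
  · intro t hts
    rcases lt_or_ge t W₁ with ht | ht
    · exact h1.1 t ht
    · obtain ⟨t', rfl⟩ := Nat.exists_eq_add_of_le ht
      have := h2.1 t' (by omega)
      rw [Nat.cast_add, ← add_assoc x, ← add_assoc y]
      exact this
  · intro t ht0 hts
    rcases lt_trichotomy t W₁ with ht | ht | ht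
    · exact h1.2 t ht0 ht
    · subst ht
      exact h ht0 (by omega)
    · obtain ⟨t', rfl⟩ := Nat.exists_eq_add_of_le ht.le
      have := h2.2 t' (by omega) (by omega)
      rw [Nat.cast_add, ← add_assoc x, ← add_assoc y]
      exact this

private theorem kappa_succ (S : Arcs P m) (nu : List ℕ) (j t : ℕ) :
    S.κ (nuA m nu j t) + (S.w (nuA m nu j t) : ZMod n) = S.κ (nuA m nu j (t + 1)) := by
  rw [← S.step]
  congr 1
  unfold nuA
  push_cast
  ring

private theorem coarse_plus (S : Arcs P m) (nu : List ℕ) (j k u : ℕ)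
    (hG : ∀ t, t < u → S.Plus (nuA m nu j t) (nuA m nu k (u - 1 - t)))
    (hA : ∀ t, 0 < t → t < u →
      P.ang (S.κ (nuA m nu j t)) + P.ang (S.κ (nuA m nu k (u - t))) = 2 * Real.pi) :
    ∀ r, r ≤ u → PlusP P (S.κ (nuA m nu j 0)) (S.κ (nuA m nu k (u - r)))
      (∑ t ∈ Finset.range r, S.w (nuA m nu j t)) := by
  intro r
  induction r with
  | zero =>
    intro _
    rw [Finset.sum_range_zero]
    exact ⟨fun t s h => by omega, fun t s _ _ h => by omega⟩
  | succ r ih =>
    intro hr
    have ih' := ih (by omega)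
    have hp := hG r (by omega)
    have e0 : u - (r + 1) = u - 1 - r := by omega
    have e1 : u - r = u - 1 - r + 1 := by omega
    have hx : S.κ (nuA m nu j 0) + ((∑ t ∈ Finset.range r, S.w (nuA m nu j t) : ℕ) : ZMod n) =
        S.κ (nuA m nu j r) := (coarse_kappa S nu j r).symm
    have hy : S.κ (nuA m nu k (u - (r + 1))) + (S.w (nuA m nu j r) : ZMod n) =
        S.κ (nuA m nu k (u - r)) := by
      rw [hp.1, e0, kappa_succ, ← e1]
    rw [Finset.sum_range_succ]
    apply plus_append
    · rw [hy]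
      exact ih'
    · rw [hx, e0]
      exact hp.2
    · intro hW _
      rw [hx, hy]
      refine hA r ?_ (by omega)
      rcases Nat.eq_zero_or_pos r with rfl | h0
      · rw [Finset.sum_range_zero] at hW
        exact absurd hW (lt_irrefl 0)
      · exact h0

private theorem coarse_minus (S : Arcs P m) (nu : List ℕ) (j k u : ℕ)
    (hG : ∀ t, t < u → S.Minus (nuA m nu j t) (nuA m nu k t))
    (hA : ∀ t, 0 < t → t < u →
      P.ang (S.κ (nuA m nu j t)) + P.ang (S.κ (nuA m nu k t)) = 2 * Real.pi) :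
    ∀ r, r ≤ u → MinusP P (S.κ (nuA m nu j 0)) (S.κ (nuA m nu k 0))
      (∑ t ∈ Finset.range r, S.w (nuA m nu j t)) ∧
      ∑ t ∈ Finset.range r, S.w (nuA m nu j t) = ∑ t ∈ Finset.range r, S.w (nuA m nu k t) := by
  intro r
  induction r with
  | zero =>
    intro _
    simp only [Finset.sum_range_zero]
    exact ⟨⟨fun t h => by omega, fun t _ h => by omega⟩, trivial⟩
  | succ r ih =>
    intro hr
    obtain ⟨ih1, ih2⟩ := ih (by omega)
    have hp := hG r (by omega)
    have hx : S.κ (nuA m nu j 0) + ((∑ t ∈ Finset.range r, S.w (nuA m nu j t) : ℕ) : ZMod n) =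
        S.κ (nuA m nu j r) := (coarse_kappa S nu j r).symm
    have hy : S.κ (nuA m nu k 0) + ((∑ t ∈ Finset.range r, S.w (nuA m nu j t) : ℕ) : ZMod n) =
        S.κ (nuA m nu k r) := by
      rw [ih2]
      exact (coarse_kappa S nu k r).symm
    constructor
    · rw [Finset.sum_range_succ]
      apply minus_append
      · exact ih1
      · rw [hx, hy]
        exact hp.2
      · intro hW _
        rw [hx, hy]
        refine hA r ?_ (by omega)
        rcases Nat.eq_zero_or_pos r with rfl | h0
        · rw [Finset.sum_range_zero] at hW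
          exact absurd hW (lt_irrefl 0)
        · exact h0
    · rw [Finset.sum_range_succ, Finset.sum_range_succ, ih2, hp.1]

theorem coarse_rel (S : Arcs P m) {nu : List ℕ} (h : nuOK m nu = true) {M : ℕ} [NeZero M]
    (hM : nu.length = M) {g : ℕ × ℕ × Bool} (h1 : g.1 < M) (h2 : g.2.1 < M)
    (hg : GlueM (fun j => P.ang (S.κ j) / Real.pi) S.Rel nu g) :
    (S.coarse h hM).Rel (g.1 : ZMod M) (g.2.1 : ZMod M) g.2.2 := by
  obtain ⟨j, k, b⟩ := g
  obtain ⟨hu, hG, hA⟩ := hg
  dsimp only at h1 h2 hu hG hA ⊢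
  have hpi := Real.pi_ne_zero
  have hj : ((j : ℕ) : ZMod M).val = j := ZMod.val_natCast_of_lt h1
  have hk : ((k : ℕ) : ZMod M).val = k := ZMod.val_natCast_of_lt h2
  have hwj : (S.coarse h hM).w (j : ZMod M) =
      ∑ t ∈ Finset.range (nuU m nu j), S.w (nuA m nu j t) := by
    change ∑ t ∈ Finset.range (nuU m nu (j : ZMod M).val), S.w (nuA m nu (j : ZMod M).val t) = _
    rw [hj]
  have hwk : (S.coarse h hM).w (k : ZMod M) =
      ∑ t ∈ Finset.range (nuU m nu j), S.w (nuA m nu k t) := by
    change ∑ t ∈ Finset.range (nuU m nu (k : ZMod M).val), S.w (nuA m nu (k : ZMod M).val t) = _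
    rw [hk, hu]
  have hκj : (S.coarse h hM).κ (j : ZMod M) = S.κ (nuA m nu j 0) := by
    change S.κ (nuA m nu (j : ZMod M).val 0) = _
    rw [hj]
  have hκk : (S.coarse h hM).κ (k : ZMod M) = S.κ (nuA m nu k 0) := by
    change S.κ (nuA m nu (k : ZMod M).val 0) = _
    rw [hk]
  cases b with
  | true =>
    have hG' : ∀ t, t < nuU m nu j →
        S.Plus (nuA m nu j t) (nuA m nu k (nuU m nu j - 1 - t)) := fun t ht => hG t ht
    have hA' : ∀ t, 0 < t → t < nuU m nu j →
        P.ang (S.κ (nuA m nu j t)) + P.ang (S.κ (nuA m nu k (nuU m nu j - t))) =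
          2 * Real.pi := by
      intro t ht0 ht
      have := hA t ht0 ht
      rw [if_pos rfl, ← add_div, div_eq_iff hpi] at this
      exact this
    have hP := coarse_plus S nu j k (nuU m nu j) hG' hA' (nuU m nu j) le_rfl
    rw [Nat.sub_self] at hP
    change (S.coarse h hM).Plus _ _
    refine ⟨?_, ?_, ?_⟩
    · rw [hwj, hwk, ← Finset.sum_range_reflect (fun t => S.w (nuA m nu k t))]
      refine Finset.sum_congr rfl fun t ht => ?_
      exact (hG' t (Finset.mem_range.1 ht)).1
    · rw [hwj, hκj, hκk]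
      exact hP.1
    · rw [hwj, hκj, hκk]
      exact hP.2
  | false =>
    have hG' : ∀ t, t < nuU m nu j →
        S.Minus (nuA m nu j t) (nuA m nu k t) := fun t ht => hG t ht
    have hA' : ∀ t, 0 < t → t < nuU m nu j →
        P.ang (S.κ (nuA m nu j t)) + P.ang (S.κ (nuA m nu k t)) = 2 * Real.pi := by
      intro t ht0 ht
      have := hA t ht0 ht
      rw [if_neg Bool.false_ne_true, ← add_div, div_eq_iff hpi] at this
      exact this
    have hP := coarse_minus S nu j k (nuU m nu j) hG' hA' (nuU m nu j) le_rfl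
    change (S.coarse h hM).Minus _ _
    refine ⟨?_, ?_, ?_⟩
    · rw [hwj, hwk]
      exact hP.2
    · rw [hwj, hκj, hκk]
      exact hP.1.1
    · rw [hwj, hκj, hκk]
      exact hP.1.2

end Pool.Agent.Lib_MP_fa6e45
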