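import Pool.Agent.Lib_MP_fa6e45.V9b
import Pool.Agent.Lib_MP_fa6e45.V9c

/-!
The main theorem of stage 2a (assembly, captain).
-/

open Set MeasureTheory Complex
open scoped Topology

namespace Pool.Agent.Lib_MP_fa6e45

open Pool.Agent.Lib_PL (cr InSector Poly)

variable {n : ℕ}

theorem main3_ccw (P : Polygon n) (hc : P.CCW) {𝒮 : Set (Set ℂ)} (h : P.IsTiling 𝒮)
    (he : P.EdgeToEdge 𝒮) (h3 : P.ThreeAtCorners 𝒮) (hl : P.NoThreeEqual) :
    ∃ 𝒯 : Set (Set ℂ), P.IsTiling 𝒯 ∧ Periodic 𝒯 := by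
  haveI : NeZero n := ⟨by have := P.three_le; omega⟩
  obtain ⟨T, hT⟩ := three_star P h he h3
  obtain ⟨K, hK⟩ := T.combA hc
  have h6 : n ≤ 6 := K.le_six fun c => by
    rw [hK]
    exact hT c
  have h2 := P.three_le
  clear hK
  have h7 : n = 3 ∨ n = 4 ∨ n = 5 ∨ n = 6 := by omega
  rcases h7 with h1 | h1 | h1 | h1
  · subst h1
    exact tri P hc
  · subst h1
    exact quad P hc
  · subst h1
    exact main5 P hc T hT hl
  · subst h1
    exact main6 P hc T hT hl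

theorem main3 (P : Polygon n) {𝒮 : Set (Set ℂ)} (h : P.IsTiling 𝒮)
    (he : P.EdgeToEdge 𝒮) (h3 : P.ThreeAtCorners 𝒮) (hl : P.NoThreeEqual) :
    ∃ 𝒯 : Set (Set ℂ), P.IsTiling 𝒯 ∧ Periodic 𝒯 := by
  rcases P.ccw_or with hc | hc
  · exact main3_ccw P hc h he h3 hl
  have hT : ∀ 𝒯 : Set (Set ℂ), P.rev.IsTiling 𝒯 ↔ P.IsTiling 𝒯 := by
    intro 𝒯
    constructor
    · rintro ⟨h1, h2, h3⟩
      exact ⟨fun t ht => by simpa only [P.rev_region] using h1 t ht, h2, h3⟩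
    · rintro ⟨h1, h2, h3⟩
      exact ⟨fun t ht => by simpa only [P.rev_region] using h1 t ht, h2, h3⟩
  have hE : P.rev.EdgeToEdge 𝒮 := by
    intro g k hg hk i j
    rw [P.rev_region] at hg hk
    have h1 := he g k hg hk (-i) (-j - 1)
    rw [openSegment_symm] at h1
    have e1 : -j - 1 + 1 = -j := by ring
    have e2 : -(j + 1) = -j - 1 := by ring
    rw [e1] at h1
    change g (P.vertex (-i)) ∉ openSegment ℝ (k (P.vertex (-j))) (k (P.vertex (-(j + 1))))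
    rw [e2]
    exact h1
  obtain ⟨𝒯, h1, h2⟩ := main3_ccw P.rev hc ((hT 𝒮).2 h) hE (P.rev_three h3) (P.rev_noThree hl)
  exact ⟨𝒯, (hT 𝒯).1 h1, h2⟩

end Pool.Agent.Lib_MP_fa6e45
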