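import Pool.Agent.Lib_MP_fa6e45.Z2
import Pool.Agent.Lib_MP_fa6e45.Z3

/-!
PIECE Z4 (about 120 lines): soundness of the checker, by induction on the tree; for `o = some cvs` the statement
is: if some `cv ∈ cvs` gives a valid equation (for `a` and `b`) then the conclusion holds; for `o = none` (or a
proper node) the conclusion holds.
-/

namespace Pool.Agent.Lib_MP_fa6e45

variable {m : ℕ} [NeZero m] {cls : ZMod m → ℕ} {a b : ZMod m → ℝ} {G : ZMod m → ZMod m → Bool → Prop}

theorem chk_sound (M : Mdl cls a b G) (tab : ℕ → Sch) (t : Tr) (ty : ZMod m → Ty)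
    (hty : ∀ j, IsTy G cls j (ty j)) (eqs : List Eqn) (ha : ∀ E ∈ eqs, Eqn.Holds E a)
    (hb : ∀ E ∈ eqs, Eqn.Holds E b) (o : Option (List (List ℕ))) (h : chk cls tab t ty eqs o = true)
    (ho : ∀ cvs, o = some cvs → ∃ cv ∈ cvs, Eqn.Holds (cv.map fun x => (x : ℤ), 2) a ∧
      Eqn.Holds (cv.map fun x => (x : ℤ), 2) b) : Applies tab b G := by
  induction t generalizing ty eqs o with
  | leaf k p cs =>
    simp only [chk, Bool.and_eq_true, List.all_eq_true] at h
    exact ⟨k, p, fun g hg => fact_sound M hty (h.1 g hg), der_sound hb h.2⟩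
  | contra ls =>
    simp only [chk] at h
    exact (contra_sound M ha h).elim
  | splitT j tS tR tG ihS ihR ihG =>
    simp only [chk, Bool.and_eq_true, Bool.not_eq_true'] at h
    obtain ⟨⟨⟨h0, hS⟩, hR⟩, hG⟩ := h
    obtain ⟨t, ht, hty'⟩ := splitT_sound M hty h0
    rcases ht with rfl | rfl | rfl
    · exact ihS _ hty' eqs ha hb none hS (fun _ h' => by cases h')
    · exact ihR _ hty' eqs ha hb none hR (fun _ h' => by cases h')
    · exact ihG _ hty' eqs ha hb none hG (fun _ h' => by cases h')
  | splitU j tS tC ihS ihC =>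
    simp only [chk, Bool.and_eq_true] at h
    obtain ⟨⟨h0, hS⟩, hC⟩ := h
    obtain ⟨t, ht, hty'⟩ := splitU_sound M hty h0
    rcases ht with rfl | rfl
    · exact ihS _ hty' eqs ha hb none hS (fun _ h' => by cases h')
    · exact ihC _ hty' eqs ha hb none hC (fun _ h' => by cases h')
  | lp v A φ L fuel t cvs ch ih =>
    simp only [chk, Bool.and_eq_true] at h
    exact ih ty hty eqs ha hb (some cvs) h.2
      (fun cvs' h' => by cases h'; exact lp_sound M hty h.1)
  | cons t rest iht ihr =>
    rcases o with _ | (_ | ⟨cv, cvs⟩)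
    · simp [chk] at h
    · simp [chk] at h
    · simp only [chk, Bool.and_eq_true] at h
      obtain ⟨cv', hcv', h1, h2⟩ := ho _ rfl
      rcases List.mem_cons.1 hcv' with rfl | hmem
      · refine iht ty hty _ ?_ ?_ none h.1 (fun _ h' => by cases h')
        · intro E hE
          rcases List.mem_cons.1 hE with rfl | hE
          · exact h1
          · exact ha E hE
        · intro E hE
          rcases List.mem_cons.1 hE with rfl | hE
          · exact h2
          · exact hb E hE
      · exact ihr ty hty eqs ha hb (some cvs) h.2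
          (fun cvs'' h' => by cases h'; exact ⟨cv', hmem, h1, h2⟩)
  | nil =>
    rcases o with _ | (_ | ⟨cv, cvs⟩)
    · simp [chk] at h
    · obtain ⟨cv', hcv', _⟩ := ho _ rfl
      exact absurd hcv' List.not_mem_nil
    · simp [chk] at h

private theorem Z4_base {f : ZMod m → ℝ} (hf : ∑ i, f i = (m : ℝ) - 2) :
    Eqn.Holds (List.replicate m 1, (m : ℤ) - 2) f := by
  unfold Eqn.Holds
  have h1 : ∀ i : ZMod m, (((List.replicate m (1 : ℤ)).getD i.val 0 : ℤ) : ℝ) * f i = f i := by
    intro i
    rw [List.getD_replicate (h := ZMod.val_lt i)]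
    simp
  rw [Finset.sum_congr rfl (fun i _ => h1 i), hf]
  push_cast
  ring

/-- the checker proves that a scheme applies -/
theorem check (M : Mdl cls a b G) (tab : ℕ → Sch) (t : Tr)
    (h : chk cls tab t (fun _ => Ty.U) [(List.replicate m 1, (m : ℤ) - 2)] none = true) :
    Applies tab b G := by
  refine chk_sound M tab t (fun _ => Ty.U) (fun _ => trivial) _ ?_ ?_ none h
    (fun _ h' => by cases h')
  · intro E hE
    rw [List.mem_singleton] at hE
    rw [hE]
    exact Z4_base M.a_sum
  · intro E hE
    rw [List.mem_singleton] at hE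
    rw [hE]
    exact Z4_base M.b_sum

end Pool.Agent.Lib_MP_fa6e45
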