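import Pool.Agent.Lib_MP_fa6e45.ZS

/-!
MP_fa6e45_co, stage 2b: certificate trees for `m = 3` (generated).
-/

namespace Pool.Agent.Lib_MP_fa6e45

/-- classes `012` -/
def tr3_0 : Tr :=
  .leaf 0 0 []

/-- classes `001` -/
def tr3_1 : Tr :=
  .splitT 0
 (.leaf 0 0 [])
 (.lp [10, 14, 10] [] [-5, -5, -7, -7, -5, -5] 70 8
  [[(1, 10), (4, 10)], [(5, 10)], [(2, 14)], [(3, 14)], [(0, 10)], [(1, 10), (4, 10)]]
  [[3, 0, 3], [2, 0, 2], [0, 3, 0], [0, 4, 0]]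
  (.cons (.leaf 4 0 [(1, [-1, 3]), (1, [1, 0])])
  (.cons (.contra [-1, 2])
  (.cons (.leaf 2 0 [(1, [1, 0]), (1, [-1, 3])])
  (.cons (.leaf 3 0 [(2, [1, 0]), (2, [-1, 4])])
  .nil)))))
 (.leaf 1 2 [])

/-- the trees for `m = 3` -/
def tr3 (q : Fin 2) : Tr :=
  ([tr3_0, tr3_1] : List Tr).getD q.val Tr.nil

theorem ok3 : ∀ q : Fin 2, chk (canC3 q) sch3 (tr3 q) (fun _ => Ty.U)
    [(List.replicate 3 1, ((3 : ℕ) : ℤ) - 2)] none = true := by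
  decide +kernel

end Pool.Agent.Lib_MP_fa6e45
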