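import Pool.Agent.Lib_MP_fa6e45.ZS

/-!
MP_fa6e45_co, stage 2b: certificate trees for `m = 4` (generated).
-/

namespace Pool.Agent.Lib_MP_fa6e45

/-- classes `0123` -/
def tr4_0 : Tr :=
  .leaf 0 0 []

/-- classes `0012` -/
def tr4_1 : Tr :=
  .splitT 0
 (.leaf 0 0 [])
 (.lp [24, 40, 24, 30] [] [-12, -12, -20, -20, -12, -12, -15, -15] 120 6
  [[(1, 24), (6, 27)], [(5, 24)], [(2, 40)], [(3, 40)], [(0, 24)], [(4, 24), (7, 27)], [(4, 27),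
      (7, 30)], [(1, 27), (6, 30)]]
  [[2, 0, 2, 0], [1, 0, 1, 1]]
  (.cons (.lp [12, 10, 8, 8] [] [-6, -6, -5, -5, -4, -4, -4, -4] 40 6
   [[(1, 12), (6, 10)], [(5, 10)], [(2, 10)], [(3, 10)], [(0, 10)], [(4, 8), (7, 8)], [(4, 8), (7,
      8)], [(1, 10), (6, 8)]]
   [[1, 0, 1, 1], [0, 3, 0, 0], [0, 0, 0, 4]]
   (.cons (.contra [2, -1, 0])
   (.cons (.splitU 2
    (.splitU 3
     (.leaf 8 0 [(1, [1, 0, 0]), (2, [-2, -3, 6]), (2, [0, 1, 0])])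
     (.lp [6, 10, 6, 6] [] [-3, -3, -5, -5, -3, -3, -3, -3] 30 6
      [[(6, 6)], [(5, 6)], [(2, 10)], [(3, 10)], [(0, 6)], [(4, 6), (7, 6)], [(4, 6), (7, 6)], [(1,
      6)]]
      [[1, 0, 1, 1]]
      (.cons (.contra [1, 1, 0, -1])
      .nil)))
    (.lp [6, 10, 6, 6] [] [-3, -3, -5, -5, -3, -3, -3, -3] 30 6
     [[(1, 6), (6, 6)], [(5, 6)], [(2, 10)], [(3, 10)], [(0, 6)], [(7, 6)], [(4, 6)], [(1, 6), (6,
      6)]]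
     [[1, 0, 1, 1]]
     (.cons (.contra [1, 1, 0, -1])
     .nil)))
   (.cons (.splitU 2
    (.splitU 3
     (.leaf 9 0 [(2, [-1, -2, 4]), (2, [1, 0, 0]), (2, [0, 1, 0])])
     (.lp [6, 10, 6, 6] [] [-3, -3, -5, -5, -3, -3, -3, -3] 30 6
      [[(6, 6)], [(5, 6)], [(2, 10)], [(3, 10)], [(0, 6)], [(4, 6), (7, 6)], [(4, 6), (7, 6)], [(1,
      6)]]
      [[1, 0, 1, 1]]
      (.cons (.contra [2, -1, -2, 2])
      .nil)))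
    (.lp [6, 10, 6, 6] [] [-3, -3, -5, -5, -3, -3, -3, -3] 30 6
     [[(1, 6), (6, 6)], [(5, 6)], [(2, 10)], [(3, 10)], [(0, 6)], [(7, 6)], [(4, 6)], [(1, 6), (6,
      6)]]
     [[1, 0, 1, 1]]
     (.cons (.contra [2, -1, -2, 2])
     .nil)))
   .nil))))
  (.cons (.contra [-1, 1])
  .nil)))
 (.leaf 1 2 [])

/-- classes `0102` -/
def tr4_2 : Tr :=
  .splitT 0
 (.leaf 0 0 [])
 (.lp [4, 6, 4, 4] [] [-2, -2, -3, -3, -2, -2, -2, -2] 20 6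
  [[(1, 4), (6, 4)], [(7, 4)], [(4, 5)], [(2, 6), (5, 5)], [(2, 5), (5, 4)], [(3, 5)], [(0, 4)],
      [(1, 4), (6, 4)]]
  [[2, 0, 0, 2]]
  (.cons (.leaf 4 0 [(2, [-1, 2])])
  .nil))
 (.leaf 2 1 [])

/-- classes `0011` -/
def tr4_3 : Tr :=
  .splitT 0
 (.splitT 2
  (.leaf 0 0 [])
  (.lp [24, 40, 24, 30] [] [-12, -12, -20, -20, -12, -12, -15, -15] 120 6
   [[(4, 24)], [(0, 24), (2, 32), (3, 32), (5, 24)], [(0, 32), (2, 40), (3, 40), (5, 32)], [(0,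
      32), (2, 40), (3, 40), (5, 32)], [(0, 24), (2, 32), (3, 32), (5, 24)], [(1, 24)], [(6, 30)],
      [(7, 30)]]
   [[2, 0, 2, 0], [1, 1, 1, 0], [0, 0, 0, 3]]
   (.cons (.lp [12, 10, 8, 8] [] [-6, -6, -5, -5, -4, -4, -4, -4] 40 6
    [[(4, 10)], [(0, 12), (2, 11), (3, 11), (5, 10)], [(0, 11), (2, 10), (3, 10), (5, 9)], [(0,
      11), (2, 10), (3, 10), (5, 9)], [(0, 10), (2, 9), (3, 9), (5, 8)], [(1, 10)], [(6, 8)], [(7,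
      8)]]
    [[1, 1, 1, 0], [0, 3, 0, 0], [0, 0, 0, 3], [0, 0, 0, 4]]
    (.cons (.contra [2, -1, 0])
    (.cons (.leaf 11 0 [(1, [1, 0, 0]), (2, [-2, -3, 6]), (2, [0, 1, 0])])
    (.cons (.leaf 8 2 [(1, [1, 0, 0]), (2, [-2, -3, 6]), (2, [0, 1, 0])])
    (.cons (.leaf 9 2 [(2, [1, 0, 0]), (2, [-1, -2, 4]), (2, [0, 1, 0])])
    .nil)))))
   (.cons (.contra [-1, 1])
   (.cons (.lp [24, 30, 24, 40] [] [-12, -12, -15, -15, -12, -12, -20, -20] 120 6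
    [[(4, 24)], [(0, 24), (2, 27), (3, 27), (5, 24)], [(0, 27), (2, 30), (3, 30), (5, 27)], [(0,
      27), (2, 30), (3, 30), (5, 27)], [(0, 24), (2, 27), (3, 27), (5, 24)], [(1, 24)], [(6, 40)],
      [(7, 40)]]
    [[2, 0, 2, 0], [1, 1, 1, 0], [1, 2, 1, 0], [0, 3, 0, 0]]
    (.cons (.leaf 8 2 [(1, [0, 1, 0]), (2, [-3, -2, 6]), (2, [1, 0, 0])])
    (.cons (.contra [1, 1, -1])
    (.cons (.leaf 10 0 [(1, [3, 1, -3]), (1, [0, 1, 0]), (1, [-3, -2, 6])])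
    (.cons (.leaf 10 0 [(1, [1, 0, 0]), (1, [0, 1, 0]), (1, [-1, -1, 3])])
    .nil)))))
   .nil))))
  (.leaf 1 0 []))
 (.splitT 2
  (.lp [12, 8, 8, 10] [] [-6, -6, -4, -4, -4, -4, -5, -5] 40 6
   [[(1, 12), (4, 10), (6, 11), (7, 11)], [(5, 10)], [(2, 8)], [(3, 8)], [(0, 10)], [(1, 10), (4,
      8), (6, 9), (7, 9)], [(1, 11), (4, 9), (6, 10), (7, 10)], [(1, 11), (4, 9), (6, 10), (7, 10)]]
   [[1, 0, 1, 1], [0, 3, 0, 0], [0, 4, 0, 0], [0, 0, 0, 3]]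
   (.cons (.contra [-1, 1])
   (.cons (.lp [24, 40, 24, 30] [] [-12, -12, -20, -20, -12, -12, -15, -15] 120 6
    [[(1, 24), (4, 24), (6, 27), (7, 27)], [(5, 24)], [(2, 40)], [(3, 40)], [(0, 24)], [(1, 24),
      (4, 24), (6, 27), (7, 27)], [(1, 27), (4, 27), (6, 30), (7, 30)], [(1, 27), (4, 27), (6, 30),
      (7, 30)]]
    [[2, 0, 2, 0], [1, 0, 1, 1], [1, 0, 1, 2], [0, 0, 0, 3]]
    (.cons (.leaf 8 0 [(1, [0, 1, 0]), (2, [-3, -2, 6]), (2, [1, 0, 0])])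
    (.cons (.contra [1, 1, -1])
    (.cons (.leaf 10 0 [(1, [0, 1, 0]), (1, [3, 1, -3]), (1, [-3, -2, 6])])
    (.cons (.leaf 10 0 [(1, [0, 1, 0]), (1, [1, 0, 0]), (1, [-1, -1, 3])])
    .nil)))))
   (.cons (.lp [24, 30, 24, 40] [] [-12, -12, -15, -15, -12, -12, -20, -20] 120 6
    [[(1, 24), (4, 24), (6, 32), (7, 32)], [(5, 24)], [(2, 30)], [(3, 30)], [(0, 24)], [(1, 24),
      (4, 24), (6, 32), (7, 32)], [(1, 32), (4, 32), (6, 40), (7, 40)], [(1, 32), (4, 32), (6, 40),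
      (7, 40)]]
    [[2, 0, 2, 0], [1, 0, 1, 1], [0, 3, 0, 0]]
    (.cons (.leaf 9 0 [(2, [0, 1, 0]), (2, [-2, -1, 4]), (2, [1, 0, 0])])
    (.cons (.contra [2, 1, -2])
    (.cons (.contra [2, -1, 0])
    .nil))))
   (.cons (.lp [24, 30, 24, 40] [] [-12, -12, -15, -15, -12, -12, -20, -20] 120 6
    [[(1, 24), (4, 24), (6, 32), (7, 32)], [(5, 24)], [(2, 30)], [(3, 30)], [(0, 24)], [(1, 24),
      (4, 24), (6, 32), (7, 32)], [(1, 32), (4, 32), (6, 40), (7, 40)], [(1, 32), (4, 32), (6, 40),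
      (7, 40)]]
    [[2, 0, 2, 0], [1, 0, 1, 1], [0, 3, 0, 0]]
    (.cons (.leaf 11 2 [(1, [0, 1, 0]), (2, [-3, -2, 6]), (2, [1, 0, 0])])
    (.cons (.contra [-1, 0, 1])
    (.cons (.leaf 10 0 [(1, [1, 0, 0]), (1, [0, 1, 0]), (1, [-1, -1, 3])])
    .nil))))
   .nil)))))
  (.lp [48, 40, 0, 30] [] [-24, -24, -20, -20, 0, 0, -15, -15] 120 6
   [[(4, 24)], [(5, 24)], [(2, 40)], [(3, 40)], [(0, 24)], [(1, 24)], [(6, 30)], [(7, 30)]]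
   [[2, 0, 2, 0], [0, 0, 0, 3]]
   (.cons (.lp [20, 10, 0, 8] [] [-10, -10, -5, -5, 0, 0, -4, -4] 40 6
    [[(4, 10)], [(5, 10)], [(2, 10)], [(3, 10)], [(0, 10)], [(1, 10)], [(6, 8)], [(7, 8)]]
    [[0, 3, 0, 0], [0, 0, 0, 3], [0, 0, 0, 4]]
    (.cons (.leaf 11 0 [(1, [1, 0, 0]), (2, [-2, -3, 6]), (2, [0, 1, 0])])
    (.cons (.leaf 11 2 [(1, [1, 0, 0]), (2, [-2, -3, 6]), (2, [0, 1, 0])])
    (.cons (.leaf 12 0 [(2, [-1, -2, 4]), (2, [1, 0, 0]), (2, [0, 1, 0])])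
    .nil))))
   (.cons (.lp [48, 30, 0, 40] [] [-24, -24, -15, -15, 0, 0, -20, -20] 120 6
    [[(4, 24)], [(5, 24)], [(2, 30)], [(3, 30)], [(0, 24)], [(1, 24)], [(6, 40)], [(7, 40)]]
    [[2, 0, 2, 0], [0, 3, 0, 0]]
    (.cons (.leaf 11 2 [(1, [0, 1, 0]), (2, [-3, -2, 6]), (2, [1, 0, 0])])
    (.cons (.leaf 10 0 [(1, [1, 0, 0]), (1, [0, 1, 0]), (1, [-1, -1, 3])])
    .nil)))
   .nil)))
  (.lp [6, 10, 6, 6] [] [-3, -3, -5, -5, -3, -3, -3, -3] 30 6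
   [[(7, 6)], [(5, 6)], [(2, 10)], [(3, 10)], [(0, 6)], [(6, 6)], [(1, 6)], [(4, 6)]]
   [[1, 0, 1, 1]]
   (.cons (.contra [-1, 1])
   .nil)))
 (.splitT 2
  (.leaf 1 2 [])
  (.lp [6, 6, 6, 10] [] [-3, -3, -3, -3, -3, -3, -5, -5] 30 6
   [[(4, 6)], [(2, 6)], [(5, 6)], [(0, 6)], [(3, 6)], [(1, 6)], [(6, 10)], [(7, 10)]]
   [[1, 1, 1, 0]]
   (.cons (.contra [-1, 1])
   .nil))
  (.leaf 3 0 []))

/-- classes `0101` -/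
def tr4_4 : Tr :=
  .splitT 0
 (.splitT 1
  (.leaf 0 0 [])
  (.leaf 5 0 [])
  (.leaf 2 0 []))
 (.splitT 1
  (.leaf 5 0 [])
  (.leaf 5 0 [])
  (.leaf 6 0 []))
 (.splitT 1
  (.leaf 2 1 [])
  (.leaf 6 1 [])
  (.lp [10, 0, 0, 8] [] [-5, -5, 0, 0, 0, 0, -4, -4] 20 6
   [[(5, 5)], [(4, 5)], [(7, 4)], [(6, 4)], [(1, 5)], [(0, 5)], [(3, 4)], [(2, 4)]]
   [[0, 2, 0, 2]]
   (.cons (.leaf 7 0 [(2, [1, 0])])
   .nil)))

/-- the trees for `m = 4` -/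
def tr4 (q : Fin 5) : Tr :=
  ([tr4_0, tr4_1, tr4_2, tr4_3, tr4_4] : List Tr).getD q.val Tr.nil

theorem ok4 : ∀ q : Fin 5, chk (canC4 q) sch4 (tr4 q) (fun _ => Ty.U)
    [(List.replicate 4 1, ((4 : ℕ) : ℤ) - 2)] none = true := by
  decide +kernel

end Pool.Agent.Lib_MP_fa6e45
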