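import Pool.Agent.Lib_MP_fa6e45.ZS

/-!
MP_fa6e45_co, stage 2b: certificate trees for `m = 5` (generated).
-/

namespace Pool.Agent.Lib_MP_fa6e45

/-- classes `01234` -/
def tr5_0 : Tr :=
  .lp [2, 2, 2, 2, 2] [] [-1, -1, -1, -1, -1, -1, -1, -1, -1, -1] 8 5
 [[(1, 2), (8, 2)], [(0, 2), (3, 2)], [(0, 2), (3, 2)], [(2, 2), (5, 2)], [(2, 2), (5, 2)], [(4,
      2), (7, 2)], [(4, 2), (7, 2)], [(6, 2), (9, 2)], [(6, 2), (9, 2)], [(1, 2), (8, 2)]]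
 []
 .nil

/-- classes `00123` -/
def tr5_1 : Tr :=
  .splitT 0
 (.lp [6, 8, 8, 6, 6] [] [-3, -3, -4, -4, -4, -4, -3, -3, -3, -3] 24 5
  [[(1, 6), (8, 6)], [(0, 6), (2, 7), (3, 7), (5, 7)], [(0, 7), (2, 8), (3, 8), (5, 8)], [(0, 7),
      (2, 8), (3, 8), (5, 8)], [(0, 7), (2, 8), (3, 8), (5, 8)], [(4, 8), (7, 7)], [(4, 7), (7,
      6)], [(6, 6), (9, 6)], [(6, 6), (9, 6)], [(1, 6), (8, 6)]]
  [[2, 1, 0, 0, 0]]
  (.cons (.lp [8, 8, 6, 6, 6] [] [-4, -4, -4, -4, -3, -3, -3, -3, -3, -3] 24 5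
   [[(1, 8), (8, 7)], [(0, 8), (2, 8), (3, 8), (5, 7)], [(0, 8), (2, 8), (3, 8), (5, 7)], [(0, 8),
      (2, 8), (3, 8), (5, 7)], [(0, 7), (2, 7), (3, 7), (5, 6)], [(4, 6), (7, 6)], [(4, 6), (7,
      6)], [(6, 6), (9, 6)], [(6, 6), (9, 6)], [(1, 7), (8, 6)]]
   [[0, 1, 2, 0, 0]]
   (.cons (.splitU 2
    (.splitU 4
     (.leaf 0 3 [(2, [-1, -1, 2])])
     (.lp [6, 8, 8, 6, 6] [] [-3, -3, -4, -4, -4, -4, -3, -3, -3, -3] 24 5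
      [[(8, 6)], [(0, 6), (2, 7), (3, 7), (5, 7)], [(0, 7), (2, 8), (3, 8), (5, 8)], [(0, 7), (2,
      8), (3, 8), (5, 8)], [(0, 7), (2, 8), (3, 8), (5, 8)], [(4, 8), (7, 7)], [(4, 7), (7, 6)],
      [(6, 6), (9, 6)], [(6, 6), (9, 6)], [(1, 6)]]
      []
      .nil))
    (.lp [8, 8, 6, 6, 6] [] [-4, -4, -4, -4, -3, -3, -3, -3, -3, -3] 24 5
     [[(1, 8), (8, 7)], [(0, 8), (2, 8), (3, 8), (5, 7)], [(0, 8), (2, 8), (3, 8), (5, 7)], [(0,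
      8), (2, 8), (3, 8), (5, 7)], [(0, 7), (2, 7), (3, 7), (5, 6)], [(7, 6)], [(4, 6)], [(6, 6),
      (9, 6)], [(6, 6), (9, 6)], [(1, 7), (8, 6)]]
     []
     .nil))
   .nil))
  .nil))
 (.lp [6, 8, 6, 6, 6] [] [-3, -3, -4, -4, -3, -3, -3, -3, -3, -3] 24 5
  [[(1, 6), (8, 6)], [(5, 6)], [(2, 8)], [(3, 8)], [(0, 6)], [(4, 6), (7, 6)], [(4, 6), (7, 6)],
      [(6, 6), (9, 6)], [(6, 6), (9, 6)], [(1, 6), (8, 6)]]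
  []
  .nil)
 (.lp [2, 2, 2, 2, 2] [] [-1, -1, -1, -1, -1, -1, -1, -1, -1, -1] 8 5
  [[(1, 2), (8, 2)], [(2, 2)], [(5, 2)], [(0, 2)], [(3, 2)], [(4, 2), (7, 2)], [(4, 2), (7, 2)],
      [(6, 2), (9, 2)], [(6, 2), (9, 2)], [(1, 2), (8, 2)]]
  []
  .nil)

/-- classes `01023` -/
def tr5_2 : Tr :=
  .splitT 0
 (.lp [2, 2, 2, 2, 2] [] [-1, -1, -1, -1, -1, -1, -1, -1, -1, -1] 8 5
  [[(1, 2), (8, 2)], [(0, 2), (3, 2), (4, 2), (7, 2)], [(0, 2), (3, 2), (4, 2), (7, 2)], [(2, 2),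
      (5, 2)], [(2, 2), (5, 2)], [(0, 2), (3, 2), (4, 2), (7, 2)], [(0, 2), (3, 2), (4, 2), (7,
      2)], [(6, 2), (9, 2)], [(6, 2), (9, 2)], [(1, 2), (8, 2)]]
  [[1, 0, 0, 1, 1]]
  (.cons (.leaf 0 1 [(1, [-1, 1])])
  .nil))
 (.lp [2, 2, 2, 2, 2] [] [-1, -1, -1, -1, -1, -1, -1, -1, -1, -1] 8 5
  [[(1, 2), (8, 2)], [(7, 2)], [(4, 2)], [(2, 2), (5, 2)], [(2, 2), (5, 2)], [(3, 2)], [(0, 2)],
      [(6, 2), (9, 2)], [(6, 2), (9, 2)], [(1, 2), (8, 2)]]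
  [[1, 0, 0, 1, 1]]
  (.cons (.leaf 1 0 [(1, [-1, 1])])
  .nil))
 (.lp [2, 2, 2, 2, 2] [] [-1, -1, -1, -1, -1, -1, -1, -1, -1, -1] 8 5
  [[(1, 2), (8, 2)], [(4, 2)], [(7, 2)], [(2, 2), (5, 2)], [(2, 2), (5, 2)], [(0, 2)], [(3, 2)],
      [(6, 2), (9, 2)], [(6, 2), (9, 2)], [(1, 2), (8, 2)]]
  []
  .nil)

/-- classes `00112` -/
def tr5_3 : Tr :=
  .splitT 0
 (.splitT 2
  (.lp [24, 31, 30, 34, 21] [(0, 2, 3), (3, 1, 3), (0, 3, 5), (2, 1, 5), (4, 7, -2), (6, 5, -2),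
      (6, 7, 6)] [-12, -12, -17, -14, -15, -15, -17, -17, -12, -9] 96 5
   [[(1, 24), (8, 24)], [(0, 24), (2, 24), (3, 26), (5, 24)], [(0, 26), (2, 34), (3, 28), (5, 34)],
      [(0, 24), (2, 34), (3, 34), (5, 32)], [(0, 24), (2, 32), (3, 34), (5, 30)], [(4, 30), (6,
      34), (7, 32), (9, 24)], [(4, 32), (6, 34), (7, 34), (9, 24)], [(4, 34), (6, 28), (7, 34), (9,
      26)], [(4, 24), (6, 26), (7, 24), (9, 24)], [(1, 24), (8, 24)]]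
   [[2, 1, 0, 0, 0], [1, 0, 1, 0, 1], [0, 0, 0, 1, 2]]
   (.cons (.lp [34, 44, 30, 40, 30] [(0, 3, -8), (2, 1, -8), (2, 3, 12), (4, 7, -8), (6, 5, -8)]
      [-17, -17, -21, -23, -15, -15, -17, -23, -15, -15] 120 5
    [[(1, 34), (8, 32)], [(0, 34), (2, 46), (3, 40), (5, 32)], [(0, 40), (2, 44), (3, 46), (5,
      30)], [(0, 46), (2, 30), (3, 44), (5, 36)], [(0, 32), (2, 36), (3, 30), (5, 42)], [(4, 30),
      (6, 40), (7, 38), (9, 30)], [(4, 38), (6, 40), (7, 46), (9, 30)], [(4, 40), (6, 34), (7, 40),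
      (9, 32)], [(4, 30), (6, 32), (7, 30), (9, 30)], [(1, 32), (8, 30)]]
    [[1, 0, 1, 0, 1], [0, 1, 2, 0, 0], [0, 0, 0, 1, 2]]
    (.cons (.lp [1200, 624, 1170, 780, 780] [(0, 3, -130), (2, 1, -130)] [-600, -600, -312, -312,
      -585, -585, -390, -390, -390, -390] 3120 6
     [[(1, 1200), (8, 990)], [(0, 1200), (2, 1042), (3, 912), (5, 1185)], [(0, 912), (2, 624), (3,
      624), (5, 767)], [(0, 1042), (2, 624), (3, 624), (5, 897)], [(0, 1185), (2, 897), (3, 767),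
      (5, 1170)], [(4, 1170), (6, 975), (7, 975), (9, 975)], [(4, 975), (6, 780), (7, 780), (9,
      780)], [(4, 975), (6, 780), (7, 780), (9, 780)], [(4, 975), (6, 780), (7, 780), (9, 780)],
      [(1, 990), (8, 780)]]
     [[0, 3, 0, 0, 0], [0, 4, 0, 0, 0], [0, 1, 2, 0, 0], [0, 0, 0, 3, 0], [0, 0, 0, 1, 2]]
     (.cons (.leaf 4 0 [(1, [1, 0, 0, 0]), (1, [-1, -3, 0, 3])])
     (.cons (.leaf 5 0 [(2, [1, 0, 0, 0]), (2, [-1, -4, 0, 4])])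
     (.cons (.splitU 4
      (.leaf 0 3 [(2, [-1, 0, -1, 2])])
      (.lp [16, 8, 16, 10, 8] [] [-8, -8, -4, -4, -8, -8, -5, -5, -4, -4] 40 6
       [[(8, 12)], [(0, 16), (2, 12), (3, 12), (5, 16)], [(0, 12), (2, 8), (3, 8), (5, 12)], [(0,
      12), (2, 8), (3, 8), (5, 12)], [(0, 16), (2, 12), (3, 12), (5, 16)], [(4, 16), (6, 13), (7,
      13), (9, 12)], [(4, 13), (6, 10), (7, 10), (9, 9)], [(4, 13), (6, 10), (7, 10), (9, 9)], [(4,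
      12), (6, 9), (7, 9), (9, 8)], [(1, 12)]]
       [[0, 3, 0, 0, 0], [0, 4, 0, 0, 0], [0, 0, 0, 3, 0]]
       (.cons (.leaf 0 2 [(2, [-1, 1, -2, 0, 2])])
       (.cons (.leaf 5 0 [(2, [1, 0, 0, 0, 0]), (2, [-1, 0, -4, 0, 4])])
       (.cons (.leaf 6 0 [(1, [-1, 0, -3, 0, 3]), (1, [1, 0, 0, 0, 0])])
       .nil)))))
     (.cons (.leaf 6 0 [(1, [-1, -3, 0, 3]), (1, [1, 0, 0, 0])])
     (.cons (.leaf 7 0 [(1, [0, 0, 1, 0]), (1, [1, 0, 0, 0])])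
     .nil))))))
    (.cons (.splitU 4
     (.leaf 0 3 [(2, [-1, -1, 2])])
     (.lp [27, 31, 30, 34, 18] [(0, 2, 3), (3, 1, 3), (0, 3, 5), (2, 1, 5), (4, 7, -2), (6, 5, -2),
      (6, 7, 6)] [-12, -15, -17, -14, -15, -15, -17, -17, -9, -9] 96 5
      [[(8, 24)], [(0, 24), (2, 24), (3, 26), (5, 24)], [(0, 26), (2, 34), (3, 28), (5, 34)], [(0,
      24), (2, 34), (3, 34), (5, 32)], [(0, 24), (2, 32), (3, 34), (5, 30)], [(4, 30), (6, 34), (7,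
      32), (9, 24)], [(4, 32), (6, 34), (7, 34), (9, 24)], [(4, 34), (6, 28), (7, 34), (9, 26)],
      [(4, 24), (6, 26), (7, 24), (9, 24)], [(1, 24)]]
      [[1, 0, 1, 0, 1]]
      (.cons (.lp [16, 8, 16, 10, 8] [] [-8, -8, -4, -4, -8, -8, -5, -5, -4, -4] 40 6
       [[(8, 12)], [(0, 16), (2, 12), (3, 12), (5, 16)], [(0, 12), (2, 8), (3, 8), (5, 12)], [(0,
      12), (2, 8), (3, 8), (5, 12)], [(0, 16), (2, 12), (3, 12), (5, 16)], [(4, 16), (6, 13), (7,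
      13), (9, 12)], [(4, 13), (6, 10), (7, 10), (9, 9)], [(4, 13), (6, 10), (7, 10), (9, 9)], [(4,
      12), (6, 9), (7, 9), (9, 8)], [(1, 12)]]
       [[0, 3, 0, 0, 0], [0, 4, 0, 0, 0], [0, 0, 0, 3, 0]]
       (.cons (.leaf 0 2 [(2, [-1, -2, 1, 0, 2])])
       (.cons (.leaf 5 0 [(2, [1, 0, 0, 0, 0]), (2, [-1, -4, 0, 0, 4])])
       (.cons (.leaf 6 0 [(1, [-1, -3, 0, 0, 3]), (1, [1, 0, 0, 0, 0])])
       .nil))))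
      .nil)))
    (.cons (.leaf 7 0 [(1, [0, 1, 0]), (1, [1, 0, 0])])
    .nil))))
   (.cons (.lp [210, 168, 336, 210, 300] [(4, 7, 35), (6, 5, 35)] [-105, -105, -84, -84, -168,
      -168, -105, -105, -150, -150] 840 6
    [[(1, 210), (8, 255)], [(0, 210), (2, 189), (3, 189), (5, 273)], [(0, 189), (2, 168), (3, 168),
      (5, 252)], [(0, 189), (2, 168), (3, 168), (5, 252)], [(0, 273), (2, 252), (3, 252), (5,
      336)], [(4, 336), (6, 238), (7, 273), (9, 318)], [(4, 273), (6, 210), (7, 210), (9, 290)],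
      [(4, 238), (6, 210), (7, 210), (9, 255)], [(4, 318), (6, 255), (7, 290), (9, 300)], [(1,
      255), (8, 300)]]
    [[2, 1, 0, 0, 0], [2, 2, 0, 0, 0], [0, 3, 0, 0, 0], [0, 4, 0, 0, 0], [0, 0, 0, 3, 0]]
    (.cons (.lp [1200, 624, 1170, 780, 780] [(0, 3, -130), (2, 1, -130)] [-600, -600, -312, -312,
      -585, -585, -390, -390, -390, -390] 3120 6
     [[(1, 1200), (8, 990)], [(0, 1200), (2, 1042), (3, 912), (5, 1185)], [(0, 912), (2, 624), (3,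
      624), (5, 767)], [(0, 1042), (2, 624), (3, 624), (5, 897)], [(0, 1185), (2, 897), (3, 767),
      (5, 1170)], [(4, 1170), (6, 975), (7, 975), (9, 975)], [(4, 975), (6, 780), (7, 780), (9,
      780)], [(4, 975), (6, 780), (7, 780), (9, 780)], [(4, 975), (6, 780), (7, 780), (9, 780)],
      [(1, 990), (8, 780)]]
     [[0, 3, 0, 0, 0], [0, 4, 0, 0, 0], [0, 1, 2, 0, 0], [0, 0, 0, 3, 0], [0, 0, 0, 1, 2]]
     (.cons (.leaf 4 0 [(1, [1, 0, 0, 0]), (1, [-1, 0, -3, 3])])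
     (.cons (.leaf 5 0 [(2, [1, 0, 0, 0]), (2, [-1, 0, -4, 4])])
     (.cons (.splitU 4
      (.leaf 0 3 [(2, [-1, -1, 0, 2])])
      (.lp [16, 8, 16, 10, 8] [] [-8, -8, -4, -4, -8, -8, -5, -5, -4, -4] 40 6
       [[(8, 12)], [(0, 16), (2, 12), (3, 12), (5, 16)], [(0, 12), (2, 8), (3, 8), (5, 12)], [(0,
      12), (2, 8), (3, 8), (5, 12)], [(0, 16), (2, 12), (3, 12), (5, 16)], [(4, 16), (6, 13), (7,
      13), (9, 12)], [(4, 13), (6, 10), (7, 10), (9, 9)], [(4, 13), (6, 10), (7, 10), (9, 9)], [(4,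
      12), (6, 9), (7, 9), (9, 8)], [(1, 12)]]
       [[0, 3, 0, 0, 0], [0, 4, 0, 0, 0], [0, 0, 0, 3, 0]]
       (.cons (.leaf 0 2 [(2, [-1, 1, 0, -2, 2])])
       (.cons (.leaf 5 0 [(2, [1, 0, 0, 0, 0]), (2, [-1, 0, 0, -4, 4])])
       (.cons (.leaf 6 0 [(1, [-1, 0, 0, -3, 3]), (1, [1, 0, 0, 0, 0])])
       .nil)))))
     (.cons (.leaf 6 0 [(1, [-1, 0, -3, 3]), (1, [1, 0, 0, 0])])
     (.cons (.leaf 7 0 [(1, [0, 1, 0, 0]), (1, [1, 0, 0, 0])])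
     .nil))))))
    (.cons (.splitU 4
     (.leaf 0 0 [(2, [1, 0, 0])])
     (.lp [16, 8, 16, 10, 8] [] [-8, -8, -4, -4, -8, -8, -5, -5, -4, -4] 40 6
      [[(8, 12)], [(0, 16), (2, 12), (3, 12), (5, 16)], [(0, 12), (2, 8), (3, 8), (5, 12)], [(0,
      12), (2, 8), (3, 8), (5, 12)], [(0, 16), (2, 12), (3, 12), (5, 16)], [(4, 16), (6, 13), (7,
      13), (9, 12)], [(4, 13), (6, 10), (7, 10), (9, 9)], [(4, 13), (6, 10), (7, 10), (9, 9)], [(4,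
      12), (6, 9), (7, 9), (9, 8)], [(1, 12)]]
      [[0, 3, 0, 0, 0], [0, 4, 0, 0, 0], [0, 0, 0, 3, 0]]
      (.cons (.leaf 4 0 [(1, [1, 0, 0, 0]), (1, [-1, 0, -3, 3])])
      (.cons (.leaf 5 0 [(2, [1, 0, 0, 0]), (2, [-1, 0, -4, 4])])
      (.cons (.leaf 6 0 [(1, [-1, 0, -3, 3]), (1, [1, 0, 0, 0])])
      .nil)))))
    (.cons (.leaf 4 0 [(1, [1, 0, 0]), (1, [-1, -3, 3])])
    (.cons (.leaf 5 0 [(2, [1, 0, 0]), (2, [-1, -4, 4])])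
    (.cons (.leaf 6 0 [(1, [-1, -3, 3]), (1, [1, 0, 0])])
    .nil))))))
   (.cons (.lp [30, 40, 30, 44, 34] [(0, 3, 8), (2, 1, 8), (4, 5, -12), (4, 7, 8), (6, 5, 8)] [-15,
      -15, -23, -17, -15, -15, -23, -21, -17, -17] 120 5
    [[(1, 30), (8, 32)], [(0, 30), (2, 30), (3, 32), (5, 30)], [(0, 32), (2, 40), (3, 34), (5,
      40)], [(0, 30), (2, 46), (3, 40), (5, 38)], [(0, 30), (2, 38), (3, 40), (5, 30)], [(4, 42),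
      (6, 30), (7, 36), (9, 32)], [(4, 36), (6, 44), (7, 30), (9, 46)], [(4, 30), (6, 46), (7, 44),
      (9, 40)], [(4, 32), (6, 40), (7, 46), (9, 34)], [(1, 32), (8, 34)]]
    [[2, 1, 0, 0, 0], [1, 0, 1, 0, 1], [0, 0, 2, 1, 0]]
    (.cons (.leaf 7 0 [(1, [1, 0, 0]), (1, [0, 1, 0])])
    (.cons (.lp [210, 168, 336, 210, 300] [(4, 7, 35), (6, 5, 35)] [-105, -105, -84, -84, -168,
      -168, -105, -105, -150, -150] 840 6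
     [[(1, 210), (8, 255)], [(0, 210), (2, 189), (3, 189), (5, 273)], [(0, 189), (2, 168), (3,
      168), (5, 252)], [(0, 189), (2, 168), (3, 168), (5, 252)], [(0, 273), (2, 252), (3, 252), (5,
      336)], [(4, 336), (6, 238), (7, 273), (9, 318)], [(4, 273), (6, 210), (7, 210), (9, 290)],
      [(4, 238), (6, 210), (7, 210), (9, 255)], [(4, 318), (6, 255), (7, 290), (9, 300)], [(1,
      255), (8, 300)]]
     [[2, 1, 0, 0, 0], [2, 2, 0, 0, 0], [0, 3, 0, 0, 0], [0, 4, 0, 0, 0], [0, 0, 0, 3, 0]]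
     (.cons (.leaf 7 0 [(1, [1, 0, 0, 0]), (1, [0, 0, 1, 0])])
     (.cons (.splitU 4
      (.leaf 0 0 [(2, [1, 0, 0, 0])])
      (.lp [16, 8, 16, 10, 8] [] [-8, -8, -4, -4, -8, -8, -5, -5, -4, -4] 40 6
       [[(8, 12)], [(0, 16), (2, 12), (3, 12), (5, 16)], [(0, 12), (2, 8), (3, 8), (5, 12)], [(0,
      12), (2, 8), (3, 8), (5, 12)], [(0, 16), (2, 12), (3, 12), (5, 16)], [(4, 16), (6, 13), (7,
      13), (9, 12)], [(4, 13), (6, 10), (7, 10), (9, 9)], [(4, 13), (6, 10), (7, 10), (9, 9)], [(4,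
      12), (6, 9), (7, 9), (9, 8)], [(1, 12)]]
       [[0, 3, 0, 0, 0], [0, 4, 0, 0, 0], [0, 0, 0, 3, 0]]
       (.cons (.leaf 4 0 [(1, [1, 0, 0, 0, 0]), (1, [-1, 0, -3, 0, 3])])
       (.cons (.leaf 5 0 [(2, [1, 0, 0, 0, 0]), (2, [-1, 0, -4, 0, 4])])
       (.cons (.leaf 0 1 [(2, [-1, -1, -2, -1, 4])])
       .nil)))))
     (.cons (.leaf 4 0 [(1, [1, 0, 0, 0]), (1, [-1, -3, 0, 3])])
     (.cons (.leaf 5 0 [(2, [1, 0, 0, 0]), (2, [-1, -4, 0, 4])])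
     (.cons (.leaf 6 0 [(1, [-1, -3, 0, 3]), (1, [1, 0, 0, 0])])
     .nil))))))
    (.cons (.splitU 4
     (.leaf 0 0 [(2, [-1, -1, 2])])
     (.lp [27, 31, 30, 34, 18] [(0, 2, 3), (3, 1, 3), (0, 3, 5), (2, 1, 5), (4, 7, -2), (6, 5, -2),
      (6, 7, 6)] [-12, -15, -17, -14, -15, -15, -17, -17, -9, -9] 96 5
      [[(8, 24)], [(0, 24), (2, 24), (3, 26), (5, 24)], [(0, 26), (2, 34), (3, 28), (5, 34)], [(0,
      24), (2, 34), (3, 34), (5, 32)], [(0, 24), (2, 32), (3, 34), (5, 30)], [(4, 30), (6, 34), (7,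
      32), (9, 24)], [(4, 32), (6, 34), (7, 34), (9, 24)], [(4, 34), (6, 28), (7, 34), (9, 26)],
      [(4, 24), (6, 26), (7, 24), (9, 24)], [(1, 24)]]
      [[1, 0, 1, 0, 1]]
      (.cons (.lp [16, 8, 16, 10, 8] [] [-8, -8, -4, -4, -8, -8, -5, -5, -4, -4] 40 6
       [[(8, 12)], [(0, 16), (2, 12), (3, 12), (5, 16)], [(0, 12), (2, 8), (3, 8), (5, 12)], [(0,
      12), (2, 8), (3, 8), (5, 12)], [(0, 16), (2, 12), (3, 12), (5, 16)], [(4, 16), (6, 13), (7,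
      13), (9, 12)], [(4, 13), (6, 10), (7, 10), (9, 9)], [(4, 13), (6, 10), (7, 10), (9, 9)], [(4,
      12), (6, 9), (7, 9), (9, 8)], [(1, 12)]]
       [[0, 3, 0, 0, 0], [0, 4, 0, 0, 0], [0, 0, 0, 3, 0]]
       (.cons (.leaf 4 0 [(1, [1, 0, 0, 0, 0]), (1, [-1, -3, 0, 0, 3])])
       (.cons (.leaf 5 0 [(2, [1, 0, 0, 0, 0]), (2, [-1, -4, 0, 0, 4])])
       (.cons (.leaf 0 1 [(2, [-1, -2, 1, 0, 2])])
       .nil))))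
      .nil)))
    .nil))))
   .nil))))
  (.lp [144, 152, 114, 152, 114] [(0, 3, -19), (2, 1, -19)] [-72, -72, -76, -76, -57, -57, -76,
      -76, -57, -57] 456 5
   [[(1, 144), (8, 129)], [(0, 144), (2, 167), (3, 148), (5, 129)], [(0, 148), (2, 152), (3, 152),
      (5, 114)], [(0, 167), (2, 152), (3, 152), (5, 133)], [(0, 129), (2, 133), (3, 114), (5,
      114)], [(9, 114)], [(6, 152)], [(7, 152)], [(4, 114)], [(1, 129), (8, 114)]]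
   [[1, 0, 1, 0, 1]]
   (.cons (.lp [210, 140, 240, 112, 112] [] [-105, -105, -70, -70, -120, -120, -56, -56, -56, -56]
      560 6
    [[(1, 210), (8, 161)], [(0, 210), (2, 175), (3, 175), (5, 225)], [(0, 175), (2, 140), (3, 140),
      (5, 190)], [(0, 175), (2, 140), (3, 140), (5, 190)], [(0, 225), (2, 190), (3, 190), (5,
      240)], [(9, 176)], [(6, 112)], [(7, 112)], [(4, 176)], [(1, 161), (8, 112)]]
    [[0, 3, 0, 0, 0], [0, 0, 0, 3, 0], [0, 0, 0, 4, 0]]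
    (.cons (.leaf 4 0 [(1, [1, 0, 0]), (1, [-1, -3, 3])])
    (.cons (.leaf 6 0 [(1, [-1, -3, 3]), (1, [1, 0, 0])])
    (.cons (.leaf 5 0 [(2, [-1, -4, 4]), (2, [1, 0, 0])])
    .nil))))
   .nil))
  (.lp [8, 8, 6, 6, 6] [] [-4, -4, -4, -4, -3, -3, -3, -3, -3, -3] 24 5
   [[(1, 8), (8, 7)], [(0, 8), (2, 8), (3, 8), (5, 7)], [(0, 8), (2, 8), (3, 8), (5, 7)], [(0, 8),
      (2, 8), (3, 8), (5, 7)], [(0, 7), (2, 7), (3, 7), (5, 6)], [(6, 6)], [(9, 6)], [(4, 6)], [(7,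
      6)], [(1, 7), (8, 6)]]
   []
   .nil))
 (.splitT 2
  (.lp [114, 152, 114, 152, 144] [(4, 7, 19), (6, 5, 19)] [-57, -57, -76, -76, -57, -57, -76, -76,
      -72, -72] 456 5
   [[(1, 114), (8, 129)], [(5, 114)], [(2, 152)], [(3, 152)], [(0, 114)], [(4, 114), (6, 114), (7,
      133), (9, 129)], [(4, 133), (6, 152), (7, 152), (9, 167)], [(4, 114), (6, 152), (7, 152), (9,
      148)], [(4, 129), (6, 148), (7, 167), (9, 144)], [(1, 129), (8, 144)]]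
   [[1, 0, 1, 0, 1]]
   (.cons (.lp [112, 112, 240, 140, 210] [] [-56, -56, -56, -56, -120, -120, -70, -70, -105, -105]
      560 6
    [[(1, 112), (8, 161)], [(5, 176)], [(2, 112)], [(3, 112)], [(0, 176)], [(4, 240), (6, 190), (7,
      190), (9, 225)], [(4, 190), (6, 140), (7, 140), (9, 175)], [(4, 190), (6, 140), (7, 140), (9,
      175)], [(4, 225), (6, 175), (7, 175), (9, 210)], [(1, 161), (8, 210)]]
    [[0, 3, 0, 0, 0], [0, 4, 0, 0, 0], [0, 0, 0, 3, 0]]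
    (.cons (.leaf 4 0 [(1, [1, 0, 0]), (1, [-1, -3, 3])])
    (.cons (.leaf 5 0 [(2, [1, 0, 0]), (2, [-1, -4, 4])])
    (.cons (.leaf 6 0 [(1, [-1, -3, 3]), (1, [1, 0, 0])])
    .nil))))
   .nil))
  (.lp [6, 8, 6, 8, 6] [] [-3, -3, -4, -4, -3, -3, -4, -4, -3, -3] 24 5
   [[(1, 6), (8, 6)], [(5, 6)], [(2, 8)], [(3, 8)], [(0, 6)], [(9, 6)], [(6, 8)], [(7, 8)], [(4,
      6)], [(1, 6), (8, 6)]]
   [[1, 0, 1, 0, 1]]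
   (.cons (.lp [24, 10, 8, 8, 8] [] [-12, -12, -5, -5, -4, -4, -4, -4, -4, -4] 40 6
    [[(1, 24), (8, 16)], [(5, 16)], [(2, 10)], [(3, 10)], [(0, 16)], [(9, 8)], [(6, 8)], [(7, 8)],
      [(4, 8)], [(1, 16), (8, 8)]]
    [[0, 3, 0, 0, 0], [0, 0, 0, 3, 0], [0, 0, 0, 4, 0]]
    (.cons (.leaf 4 0 [(1, [1, 0, 0]), (1, [-1, -3, 3])])
    (.cons (.leaf 6 0 [(1, [-1, -3, 3]), (1, [1, 0, 0])])
    (.cons (.leaf 5 0 [(2, [-1, -4, 4]), (2, [1, 0, 0])])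
    .nil))))
   .nil))
  (.lp [6, 8, 6, 6, 6] [] [-3, -3, -4, -4, -3, -3, -3, -3, -3, -3] 24 5
   [[(1, 6), (8, 6)], [(5, 6)], [(2, 8)], [(3, 8)], [(0, 6)], [(6, 6)], [(9, 6)], [(4, 6)], [(7,
      6)], [(1, 6), (8, 6)]]
   []
   .nil))
 (.splitT 2
  (.lp [6, 6, 6, 8, 8] [] [-3, -3, -3, -3, -3, -3, -4, -4, -4, -4] 24 5
   [[(1, 6), (8, 7)], [(2, 6)], [(5, 6)], [(0, 6)], [(3, 6)], [(4, 6), (6, 7), (7, 7), (9, 7)],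
      [(4, 7), (6, 8), (7, 8), (9, 8)], [(4, 7), (6, 8), (7, 8), (9, 8)], [(4, 7), (6, 8), (7, 8),
      (9, 8)], [(1, 7), (8, 8)]]
   []
   .nil)
  (.lp [6, 6, 6, 8, 6] [] [-3, -3, -3, -3, -3, -3, -4, -4, -3, -3] 24 5
   [[(1, 6), (8, 6)], [(2, 6)], [(5, 6)], [(0, 6)], [(3, 6)], [(9, 6)], [(6, 8)], [(7, 8)], [(4,
      6)], [(1, 6), (8, 6)]]
   []
   .nil)
  (.lp [2, 2, 2, 2, 2] [] [-1, -1, -1, -1, -1, -1, -1, -1, -1, -1] 8 5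
   [[(1, 2), (8, 2)], [(2, 2)], [(5, 2)], [(0, 2)], [(3, 2)], [(6, 2)], [(9, 2)], [(4, 2)], [(7,
      2)], [(1, 2), (8, 2)]]
   []
   .nil))

/-- classes `00121` -/
def tr5_4 : Tr :=
  .splitT 0
 (.splitT 2
  (.lp [6, 8, 8, 6, 6] [] [-3, -3, -4, -4, -4, -4, -3, -3, -3, -3] 24 5
   [[(1, 6), (4, 7), (7, 6), (8, 6)], [(0, 6), (2, 7), (3, 7), (5, 7)], [(0, 7), (2, 8), (3, 8),
      (5, 8)], [(0, 7), (2, 8), (3, 8), (5, 8)], [(0, 7), (2, 8), (3, 8), (5, 8)], [(1, 7), (4, 8),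
      (7, 7), (8, 7)], [(1, 6), (4, 7), (7, 6), (8, 6)], [(6, 6), (9, 6)], [(6, 6), (9, 6)], [(1,
      6), (4, 7), (7, 6), (8, 6)]]
   [[2, 1, 0, 0, 0], [1, 1, 1, 0, 0]]
   (.cons (.lp [8, 8, 6, 6, 6] [] [-4, -4, -4, -4, -3, -3, -3, -3, -3, -3] 24 5
    [[(1, 8), (4, 7), (7, 7), (8, 7)], [(0, 8), (2, 8), (3, 8), (5, 7)], [(0, 8), (2, 8), (3, 8),
      (5, 7)], [(0, 8), (2, 8), (3, 8), (5, 7)], [(0, 7), (2, 7), (3, 7), (5, 6)], [(1, 7), (4, 6),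
      (7, 6), (8, 6)], [(1, 7), (4, 6), (7, 6), (8, 6)], [(6, 6), (9, 6)], [(6, 6), (9, 6)], [(1,
      7), (4, 6), (7, 6), (8, 6)]]
    [[1, 1, 1, 0, 0], [0, 1, 2, 0, 0]]
    (.cons (.leaf 0 3 [(1, [-1, 0, 1])])
    (.cons (.leaf 0 3 [(2, [-1, -1, 2])])
    .nil)))
   (.cons (.leaf 0 3 [(1, [-1, 1])])
   .nil)))
  (.lp [6, 8, 6, 6, 6] [] [-3, -3, -4, -4, -3, -3, -3, -3, -3, -3] 24 5
   [[(4, 6)], [(0, 6), (2, 7), (3, 7), (5, 6)], [(0, 7), (2, 8), (3, 8), (5, 7)], [(0, 7), (2, 8),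
      (3, 8), (5, 7)], [(0, 6), (2, 7), (3, 7), (5, 6)], [(1, 6)], [(8, 6)], [(6, 6), (9, 6)], [(6,
      6), (9, 6)], [(7, 6)]]
   [[1, 1, 1, 0, 0]]
   (.cons (.leaf 1 2 [(1, [-1, 1])])
   .nil))
  (.lp [6, 8, 6, 6, 6] [] [-3, -3, -4, -4, -3, -3, -3, -3, -3, -3] 24 5
   [[(7, 6)], [(0, 6), (2, 7), (3, 7), (5, 6)], [(0, 7), (2, 8), (3, 8), (5, 7)], [(0, 7), (2, 8),
      (3, 8), (5, 7)], [(0, 6), (2, 7), (3, 7), (5, 6)], [(8, 6)], [(1, 6)], [(6, 6), (9, 6)], [(6,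
      6), (9, 6)], [(4, 6)]]
   []
   .nil))
 (.splitT 2
  (.lp [6, 8, 6, 6, 6] [] [-3, -3, -4, -4, -3, -3, -3, -3, -3, -3] 24 5
   [[(1, 6), (4, 6), (7, 6), (8, 6)], [(5, 6)], [(2, 8)], [(3, 8)], [(0, 6)], [(1, 6), (4, 6), (7,
      6), (8, 6)], [(1, 6), (4, 6), (7, 6), (8, 6)], [(6, 6), (9, 6)], [(6, 6), (9, 6)], [(1, 6),
      (4, 6), (7, 6), (8, 6)]]
   []
   .nil)
  (.lp [12, 8, 0, 6, 6] [] [-6, -6, -4, -4, 0, 0, -3, -3, -3, -3] 24 5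
   [[(4, 6)], [(5, 6)], [(2, 8)], [(3, 8)], [(0, 6)], [(1, 6)], [(8, 6)], [(6, 6), (9, 6)], [(6,
      6), (9, 6)], [(7, 6)]]
   []
   .nil)
  (.lp [6, 8, 6, 6, 6] [] [-3, -3, -4, -4, -3, -3, -3, -3, -3, -3] 24 5
   [[(7, 6)], [(5, 6)], [(2, 8)], [(3, 8)], [(0, 6)], [(8, 6)], [(1, 6)], [(6, 6), (9, 6)], [(6,
      6), (9, 6)], [(4, 6)]]
   []
   .nil))
 (.splitT 2
  (.lp [2, 2, 2, 2, 2] [] [-1, -1, -1, -1, -1, -1, -1, -1, -1, -1] 8 5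
   [[(1, 2), (4, 2), (7, 2), (8, 2)], [(2, 2)], [(5, 2)], [(0, 2)], [(3, 2)], [(1, 2), (4, 2), (7,
      2), (8, 2)], [(1, 2), (4, 2), (7, 2), (8, 2)], [(6, 2), (9, 2)], [(6, 2), (9, 2)], [(1, 2),
      (4, 2), (7, 2), (8, 2)]]
   [[1, 1, 1, 0, 0]]
   (.cons (.leaf 3 0 [(1, [-1, 1])])
   .nil))
  (.lp [2, 2, 2, 2, 2] [] [-1, -1, -1, -1, -1, -1, -1, -1, -1, -1] 8 5
   [[(4, 2)], [(2, 2)], [(5, 2)], [(0, 2)], [(3, 2)], [(1, 2)], [(8, 2)], [(6, 2), (9, 2)], [(6,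
      2), (9, 2)], [(7, 2)]]
   [[1, 1, 1, 0, 0]]
   (.cons (.leaf 3 0 [(1, [-1, 1])])
   .nil))
  (.lp [2, 2, 2, 2, 2] [] [-1, -1, -1, -1, -1, -1, -1, -1, -1, -1] 8 5
   [[(7, 2)], [(2, 2)], [(5, 2)], [(0, 2)], [(3, 2)], [(8, 2)], [(1, 2)], [(6, 2), (9, 2)], [(6,
      2), (9, 2)], [(4, 2)]]
   []
   .nil))

/-- classes `01012` -/
def tr5_5 : Tr :=
  .splitT 0
 (.splitT 1
  (.lp [2, 2, 2, 2, 2] [] [-1, -1, -1, -1, -1, -1, -1, -1, -1, -1] 8 5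
   [[(1, 2), (8, 2)], [(0, 2), (3, 2), (4, 2), (7, 2)], [(0, 2), (3, 2), (4, 2), (7, 2)], [(2, 2),
      (5, 2), (6, 2), (9, 2)], [(2, 2), (5, 2), (6, 2), (9, 2)], [(0, 2), (3, 2), (4, 2), (7, 2)],
      [(0, 2), (3, 2), (4, 2), (7, 2)], [(2, 2), (5, 2), (6, 2), (9, 2)], [(2, 2), (5, 2), (6, 2),
      (9, 2)], [(1, 2), (8, 2)]]
   [[1, 1, 0, 0, 1], [1, 0, 1, 0, 1], [1, 0, 0, 1, 1]]
   (.cons (.leaf 0 2 [(1, [-1, 1])])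
   (.cons (.leaf 2 0 [(1, [-1, 1])])
   (.cons (.leaf 0 1 [(1, [-1, 1])])
   .nil))))
  (.lp [2, 2, 2, 2, 2] [] [-1, -1, -1, -1, -1, -1, -1, -1, -1, -1] 8 5
   [[(1, 2), (8, 2)], [(0, 2), (3, 2), (4, 2), (7, 2)], [(0, 2), (3, 2), (4, 2), (7, 2)], [(9, 2)],
      [(6, 2)], [(0, 2), (3, 2), (4, 2), (7, 2)], [(0, 2), (3, 2), (4, 2), (7, 2)], [(5, 2)], [(2,
      2)], [(1, 2), (8, 2)]]
   [[1, 1, 0, 0, 1]]
   (.cons (.leaf 1 1 [(1, [-1, 1])])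
   .nil))
  (.lp [2, 2, 2, 2, 2] [] [-1, -1, -1, -1, -1, -1, -1, -1, -1, -1] 8 5
   [[(1, 2), (8, 2)], [(0, 2), (3, 2), (4, 2), (7, 2)], [(0, 2), (3, 2), (4, 2), (7, 2)], [(6, 2)],
      [(9, 2)], [(0, 2), (3, 2), (4, 2), (7, 2)], [(0, 2), (3, 2), (4, 2), (7, 2)], [(2, 2)], [(5,
      2)], [(1, 2), (8, 2)]]
   [[1, 0, 1, 0, 1]]
   (.cons (.leaf 2 0 [(1, [-1, 1])])
   .nil)))
 (.splitT 1
  (.lp [2, 2, 2, 2, 2] [] [-1, -1, -1, -1, -1, -1, -1, -1, -1, -1] 8 5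
   [[(1, 2), (8, 2)], [(7, 2)], [(4, 2)], [(2, 2), (5, 2), (6, 2), (9, 2)], [(2, 2), (5, 2), (6,
      2), (9, 2)], [(3, 2)], [(0, 2)], [(2, 2), (5, 2), (6, 2), (9, 2)], [(2, 2), (5, 2), (6, 2),
      (9, 2)], [(1, 2), (8, 2)]]
   [[1, 0, 0, 1, 1]]
   (.cons (.leaf 1 0 [(1, [-1, 1])])
   .nil))
  (.lp [2, 2, 2, 2, 2] [] [-1, -1, -1, -1, -1, -1, -1, -1, -1, -1] 8 5
   [[(1, 2), (8, 2)], [(7, 2)], [(4, 2)], [(9, 2)], [(6, 2)], [(3, 2)], [(0, 2)], [(5, 2)], [(2,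
      2)], [(1, 2), (8, 2)]]
   []
   .nil)
  (.lp [2, 2, 2, 2, 2] [] [-1, -1, -1, -1, -1, -1, -1, -1, -1, -1] 8 5
   [[(1, 2), (8, 2)], [(7, 2)], [(4, 2)], [(6, 2)], [(9, 2)], [(3, 2)], [(0, 2)], [(2, 2)], [(5,
      2)], [(1, 2), (8, 2)]]
   []
   .nil))
 (.splitT 1
  (.lp [2, 2, 2, 2, 2] [] [-1, -1, -1, -1, -1, -1, -1, -1, -1, -1] 8 5
   [[(1, 2), (8, 2)], [(4, 2)], [(7, 2)], [(2, 2), (5, 2), (6, 2), (9, 2)], [(2, 2), (5, 2), (6,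
      2), (9, 2)], [(0, 2)], [(3, 2)], [(2, 2), (5, 2), (6, 2), (9, 2)], [(2, 2), (5, 2), (6, 2),
      (9, 2)], [(1, 2), (8, 2)]]
   [[1, 0, 1, 0, 1]]
   (.cons (.leaf 2 0 [(1, [-1, 1])])
   .nil))
  (.lp [2, 2, 2, 2, 2] [] [-1, -1, -1, -1, -1, -1, -1, -1, -1, -1] 8 5
   [[(1, 2), (8, 2)], [(4, 2)], [(7, 2)], [(9, 2)], [(6, 2)], [(0, 2)], [(3, 2)], [(5, 2)], [(2,
      2)], [(1, 2), (8, 2)]]
   []
   .nil)
  (.lp [2, 4, 2, 0, 2] [] [-1, -1, -2, -2, -1, -1, 0, 0, -1, -1] 8 5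
   [[(1, 2), (8, 2)], [(4, 2)], [(7, 2)], [(6, 2)], [(9, 2)], [(0, 2)], [(3, 2)], [(2, 2)], [(5,
      2)], [(1, 2), (8, 2)]]
   [[1, 0, 1, 0, 1]]
   (.cons (.leaf 2 0 [(1, [-1, 1])])
   .nil)))

/-- the trees for `m = 5` -/
def tr5 (q : Fin 6) : Tr :=
  ([tr5_0, tr5_1, tr5_2, tr5_3, tr5_4, tr5_5] : List Tr).getD q.val Tr.nil

theorem ok5 : ∀ q : Fin 6, chk (canC5 q) sch5 (tr5 q) (fun _ => Ty.U)
    [(List.replicate 5 1, ((5 : ℕ) : ℤ) - 2)] none = true := by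
  decide +kernel

end Pool.Agent.Lib_MP_fa6e45
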