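import Pool.Agent.Lib_MP_fa6e45.ZS

/-!
MP_fa6e45_co, stage 2b: certificate trees for `m = 6` (generated).
-/

namespace Pool.Agent.Lib_MP_fa6e45

/-- classes `012345` -/
def tr6_0 : Tr :=
  .lp [2, 2, 2, 2, 2, 2] [] [-1, -1, -1, -1, -1, -1, -1, -1, -1, -1, -1, -1] 8 5
 [[(1, 2), (10, 2)], [(0, 2), (3, 2)], [(0, 2), (3, 2)], [(2, 2), (5, 2)], [(2, 2), (5, 2)], [(4,
      2), (7, 2)], [(4, 2), (7, 2)], [(6, 2), (9, 2)], [(6, 2), (9, 2)], [(8, 2), (11, 2)], [(8,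
      2), (11, 2)], [(1, 2), (10, 2)]]
 []
 .nil

/-- classes `001234` -/
def tr6_1 : Tr :=
  .splitT 0
 (.lp [8, 8, 8, 6, 6, 6] [] [-4, -4, -4, -4, -4, -4, -3, -3, -3, -3, -3, -3] 24 5
  [[(1, 8), (10, 7)], [(0, 8), (2, 8), (3, 8), (5, 8)], [(0, 8), (2, 8), (3, 8), (5, 8)], [(0, 8),
      (2, 8), (3, 8), (5, 8)], [(0, 8), (2, 8), (3, 8), (5, 8)], [(4, 8), (7, 7)], [(4, 7), (7,
      6)], [(6, 6), (9, 6)], [(6, 6), (9, 6)], [(8, 6), (11, 6)], [(8, 6), (11, 6)], [(1, 7), (10,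
      6)]]
  []
  .nil)
 (.lp [6, 8, 6, 6, 6, 6] [] [-3, -3, -4, -4, -3, -3, -3, -3, -3, -3, -3, -3] 24 5
  [[(1, 6), (10, 6)], [(5, 6)], [(2, 8)], [(3, 8)], [(0, 6)], [(4, 6), (7, 6)], [(4, 6), (7, 6)],
      [(6, 6), (9, 6)], [(6, 6), (9, 6)], [(8, 6), (11, 6)], [(8, 6), (11, 6)], [(1, 6), (10, 6)]]
  []
  .nil)
 (.lp [2, 2, 2, 2, 2, 2] [] [-1, -1, -1, -1, -1, -1, -1, -1, -1, -1, -1, -1] 8 5
  [[(1, 2), (10, 2)], [(2, 2)], [(5, 2)], [(0, 2)], [(3, 2)], [(4, 2), (7, 2)], [(4, 2), (7, 2)],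
      [(6, 2), (9, 2)], [(6, 2), (9, 2)], [(8, 2), (11, 2)], [(8, 2), (11, 2)], [(1, 2), (10, 2)]]
  []
  .nil)

/-- classes `010234` -/
def tr6_2 : Tr :=
  .splitT 0
 (.lp [2, 2, 2, 2, 2, 2] [] [-1, -1, -1, -1, -1, -1, -1, -1, -1, -1, -1, -1] 8 5
  [[(1, 2), (10, 2)], [(0, 2), (3, 2), (4, 2), (7, 2)], [(0, 2), (3, 2), (4, 2), (7, 2)], [(2, 2),
      (5, 2)], [(2, 2), (5, 2)], [(0, 2), (3, 2), (4, 2), (7, 2)], [(0, 2), (3, 2), (4, 2), (7,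
      2)], [(6, 2), (9, 2)], [(6, 2), (9, 2)], [(8, 2), (11, 2)], [(8, 2), (11, 2)], [(1, 2), (10,
      2)]]
  []
  .nil)
 (.lp [2, 2, 2, 2, 2, 2] [] [-1, -1, -1, -1, -1, -1, -1, -1, -1, -1, -1, -1] 8 5
  [[(1, 2), (10, 2)], [(7, 2)], [(4, 2)], [(2, 2), (5, 2)], [(2, 2), (5, 2)], [(3, 2)], [(0, 2)],
      [(6, 2), (9, 2)], [(6, 2), (9, 2)], [(8, 2), (11, 2)], [(8, 2), (11, 2)], [(1, 2), (10, 2)]]
  []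
  .nil)
 (.lp [2, 2, 2, 2, 2, 2] [] [-1, -1, -1, -1, -1, -1, -1, -1, -1, -1, -1, -1] 8 5
  [[(1, 2), (10, 2)], [(4, 2)], [(7, 2)], [(2, 2), (5, 2)], [(2, 2), (5, 2)], [(0, 2)], [(3, 2)],
      [(6, 2), (9, 2)], [(6, 2), (9, 2)], [(8, 2), (11, 2)], [(8, 2), (11, 2)], [(1, 2), (10, 2)]]
  []
  .nil)

/-- classes `012034` -/
def tr6_3 : Tr :=
  .splitT 0
 (.lp [2, 2, 2, 2, 2, 4] [] [-1, -1, -1, -1, -1, -1, -1, -1, -1, -1, -2, -2] 8 5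
  [[(1, 2), (10, 3)], [(0, 2), (3, 2), (6, 2), (9, 2)], [(0, 2), (3, 2), (6, 2), (9, 2)], [(2, 2),
      (5, 2)], [(2, 2), (5, 2)], [(4, 2), (7, 2)], [(4, 2), (7, 2)], [(0, 2), (3, 2), (6, 2), (9,
      2)], [(0, 2), (3, 2), (6, 2), (9, 2)], [(8, 2), (11, 3)], [(8, 3), (11, 4)], [(1, 3), (10,
      4)]]
  [[0, 1, 1, 1, 0, 0]]
  (.cons (.leaf 0 0 [(1, [1, 0])])
  .nil))
 (.lp [2, 4, 2, 2, 2, 2] [] [-1, -1, -2, -2, -1, -1, -1, -1, -1, -1, -1, -1] 8 5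
  [[(1, 2), (10, 2)], [(9, 2)], [(6, 3)], [(2, 4), (5, 3)], [(2, 3), (5, 2)], [(4, 2), (7, 2)],
      [(4, 2), (7, 2)], [(3, 3)], [(0, 2)], [(8, 2), (11, 2)], [(8, 2), (11, 2)], [(1, 2), (10, 2)]]
  [[1, 0, 0, 0, 1, 1]]
  (.cons (.leaf 0 0 [(1, [-1, 1])])
  .nil))
 (.lp [2, 2, 2, 2, 2, 2] [] [-1, -1, -1, -1, -1, -1, -1, -1, -1, -1, -1, -1] 8 5
  [[(1, 2), (10, 2)], [(6, 2)], [(9, 2)], [(2, 2), (5, 2)], [(2, 2), (5, 2)], [(4, 2), (7, 2)],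
      [(4, 2), (7, 2)], [(0, 2)], [(3, 2)], [(8, 2), (11, 2)], [(8, 2), (11, 2)], [(1, 2), (10, 2)]]
  []
  .nil)

/-- classes `001123` -/
def tr6_4 : Tr :=
  .splitT 0
 (.splitT 2
  (.lp [8, 8, 8, 8, 8, 6] [] [-4, -4, -4, -4, -4, -4, -4, -4, -4, -4, -3, -3] 24 5
   [[(1, 8), (10, 7)], [(0, 8), (2, 8), (3, 8), (5, 8)], [(0, 8), (2, 8), (3, 8), (5, 8)], [(0, 8),
      (2, 8), (3, 8), (5, 8)], [(0, 8), (2, 8), (3, 8), (5, 8)], [(4, 8), (6, 8), (7, 8), (9, 8)],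
      [(4, 8), (6, 8), (7, 8), (9, 8)], [(4, 8), (6, 8), (7, 8), (9, 8)], [(4, 8), (6, 8), (7, 8),
      (9, 8)], [(8, 8), (11, 7)], [(8, 7), (11, 6)], [(1, 7), (10, 6)]]
   []
   .nil)
  (.lp [8, 8, 6, 8, 6, 6] [] [-4, -4, -4, -4, -3, -3, -4, -4, -3, -3, -3, -3] 24 5
   [[(1, 8), (10, 7)], [(0, 8), (2, 8), (3, 8), (5, 7)], [(0, 8), (2, 8), (3, 8), (5, 7)], [(0, 8),
      (2, 8), (3, 8), (5, 7)], [(0, 7), (2, 7), (3, 7), (5, 6)], [(9, 6)], [(6, 8)], [(7, 8)], [(4,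
      6)], [(8, 6), (11, 6)], [(8, 6), (11, 6)], [(1, 7), (10, 6)]]
   []
   .nil)
  (.lp [8, 8, 6, 6, 6, 6] [] [-4, -4, -4, -4, -3, -3, -3, -3, -3, -3, -3, -3] 24 5
   [[(1, 8), (10, 7)], [(0, 8), (2, 8), (3, 8), (5, 7)], [(0, 8), (2, 8), (3, 8), (5, 7)], [(0, 8),
      (2, 8), (3, 8), (5, 7)], [(0, 7), (2, 7), (3, 7), (5, 6)], [(6, 6)], [(9, 6)], [(4, 6)], [(7,
      6)], [(8, 6), (11, 6)], [(8, 6), (11, 6)], [(1, 7), (10, 6)]]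
   []
   .nil))
 (.splitT 2
  (.lp [6, 8, 6, 8, 8, 6] [] [-3, -3, -4, -4, -3, -3, -4, -4, -4, -4, -3, -3] 24 5
   [[(1, 6), (10, 6)], [(5, 6)], [(2, 8)], [(3, 8)], [(0, 6)], [(4, 6), (6, 7), (7, 7), (9, 7)],
      [(4, 7), (6, 8), (7, 8), (9, 8)], [(4, 7), (6, 8), (7, 8), (9, 8)], [(4, 7), (6, 8), (7, 8),
      (9, 8)], [(8, 8), (11, 7)], [(8, 7), (11, 6)], [(1, 6), (10, 6)]]
   []
   .nil)
  (.lp [6, 8, 6, 8, 6, 6] [] [-3, -3, -4, -4, -3, -3, -4, -4, -3, -3, -3, -3] 24 5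
   [[(1, 6), (10, 6)], [(5, 6)], [(2, 8)], [(3, 8)], [(0, 6)], [(9, 6)], [(6, 8)], [(7, 8)], [(4,
      6)], [(8, 6), (11, 6)], [(8, 6), (11, 6)], [(1, 6), (10, 6)]]
   []
   .nil)
  (.lp [6, 8, 6, 6, 6, 6] [] [-3, -3, -4, -4, -3, -3, -3, -3, -3, -3, -3, -3] 24 5
   [[(1, 6), (10, 6)], [(5, 6)], [(2, 8)], [(3, 8)], [(0, 6)], [(6, 6)], [(9, 6)], [(4, 6)], [(7,
      6)], [(8, 6), (11, 6)], [(8, 6), (11, 6)], [(1, 6), (10, 6)]]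
   []
   .nil))
 (.splitT 2
  (.lp [6, 6, 6, 8, 8, 6] [] [-3, -3, -3, -3, -3, -3, -4, -4, -4, -4, -3, -3] 24 5
   [[(1, 6), (10, 6)], [(2, 6)], [(5, 6)], [(0, 6)], [(3, 6)], [(4, 6), (6, 7), (7, 7), (9, 7)],
      [(4, 7), (6, 8), (7, 8), (9, 8)], [(4, 7), (6, 8), (7, 8), (9, 8)], [(4, 7), (6, 8), (7, 8),
      (9, 8)], [(8, 8), (11, 7)], [(8, 7), (11, 6)], [(1, 6), (10, 6)]]
   []
   .nil)
  (.lp [6, 6, 6, 8, 6, 6] [] [-3, -3, -3, -3, -3, -3, -4, -4, -3, -3, -3, -3] 24 5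
   [[(1, 6), (10, 6)], [(2, 6)], [(5, 6)], [(0, 6)], [(3, 6)], [(9, 6)], [(6, 8)], [(7, 8)], [(4,
      6)], [(8, 6), (11, 6)], [(8, 6), (11, 6)], [(1, 6), (10, 6)]]
   []
   .nil)
  (.lp [2, 2, 2, 2, 2, 2] [] [-1, -1, -1, -1, -1, -1, -1, -1, -1, -1, -1, -1] 8 5
   [[(1, 2), (10, 2)], [(2, 2)], [(5, 2)], [(0, 2)], [(3, 2)], [(6, 2)], [(9, 2)], [(4, 2)], [(7,
      2)], [(8, 2), (11, 2)], [(8, 2), (11, 2)], [(1, 2), (10, 2)]]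
   []
   .nil))

/-- classes `001213` -/
def tr6_5 : Tr :=
  .splitT 0
 (.splitT 2
  (.lp [10, 8, 8, 6, 6, 6] [] [-5, -5, -4, -4, -4, -4, -3, -3, -3, -3, -3, -3] 24 5
   [[(1, 10), (10, 8)], [(0, 10), (2, 9), (3, 9), (5, 9)], [(0, 9), (2, 8), (3, 8), (5, 8)], [(0,
      9), (2, 8), (3, 8), (5, 8)], [(0, 9), (2, 8), (3, 8), (5, 8)], [(4, 8), (7, 7), (8, 7), (11,
      7)], [(4, 7), (7, 6), (8, 6), (11, 6)], [(6, 6), (9, 6)], [(6, 6), (9, 6)], [(4, 7), (7, 6),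
      (8, 6), (11, 6)], [(4, 7), (7, 6), (8, 6), (11, 6)], [(1, 8), (10, 6)]]
   []
   .nil)
  (.lp [12, 8, 6, 6, 6, 6] [] [-6, -6, -4, -4, -3, -3, -3, -3, -3, -3, -3, -3] 24 5
   [[(1, 12), (10, 9)], [(0, 12), (2, 10), (3, 10), (5, 9)], [(0, 10), (2, 8), (3, 8), (5, 7)],
      [(0, 10), (2, 8), (3, 8), (5, 7)], [(0, 9), (2, 7), (3, 7), (5, 6)], [(11, 6)], [(8, 6)],
      [(6, 6), (9, 6)], [(6, 6), (9, 6)], [(7, 6)], [(4, 6)], [(1, 9), (10, 6)]]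
   []
   .nil)
  (.lp [8, 8, 6, 6, 6, 6] [] [-4, -4, -4, -4, -3, -3, -3, -3, -3, -3, -3, -3] 24 5
   [[(1, 8), (10, 7)], [(0, 8), (2, 8), (3, 8), (5, 7)], [(0, 8), (2, 8), (3, 8), (5, 7)], [(0, 8),
      (2, 8), (3, 8), (5, 7)], [(0, 7), (2, 7), (3, 7), (5, 6)], [(8, 6)], [(11, 6)], [(6, 6), (9,
      6)], [(6, 6), (9, 6)], [(4, 6)], [(7, 6)], [(1, 7), (10, 6)]]
   []
   .nil))
 (.splitT 2
  (.lp [12, 8, 6, 6, 6, 6] [] [-6, -6, -4, -4, -3, -3, -3, -3, -3, -3, -3, -3] 24 5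
   [[(1, 12), (10, 9)], [(5, 9)], [(2, 8)], [(3, 8)], [(0, 9)], [(4, 6), (7, 6), (8, 6), (11, 6)],
      [(4, 6), (7, 6), (8, 6), (11, 6)], [(6, 6), (9, 6)], [(6, 6), (9, 6)], [(4, 6), (7, 6), (8,
      6), (11, 6)], [(4, 6), (7, 6), (8, 6), (11, 6)], [(1, 9), (10, 6)]]
   []
   .nil)
  (.lp [6, 8, 12, 6, 6, 6] [] [-3, -3, -4, -4, -6, -6, -3, -3, -3, -3, -3, -3] 24 5
   [[(1, 6), (10, 6)], [(5, 9)], [(2, 8)], [(3, 8)], [(0, 9)], [(11, 9)], [(8, 6)], [(6, 6), (9,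
      6)], [(6, 6), (9, 6)], [(7, 6)], [(4, 9)], [(1, 6), (10, 6)]]
   []
   .nil)
  (.lp [6, 8, 6, 6, 6, 6] [] [-3, -3, -4, -4, -3, -3, -3, -3, -3, -3, -3, -3] 24 5
   [[(1, 6), (10, 6)], [(5, 6)], [(2, 8)], [(3, 8)], [(0, 6)], [(8, 6)], [(11, 6)], [(6, 6), (9,
      6)], [(6, 6), (9, 6)], [(4, 6)], [(7, 6)], [(1, 6), (10, 6)]]
   []
   .nil))
 (.splitT 2
  (.lp [2, 2, 2, 2, 2, 2] [] [-1, -1, -1, -1, -1, -1, -1, -1, -1, -1, -1, -1] 8 5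
   [[(1, 2), (10, 2)], [(2, 2)], [(5, 2)], [(0, 2)], [(3, 2)], [(4, 2), (7, 2), (8, 2), (11, 2)],
      [(4, 2), (7, 2), (8, 2), (11, 2)], [(6, 2), (9, 2)], [(6, 2), (9, 2)], [(4, 2), (7, 2), (8,
      2), (11, 2)], [(4, 2), (7, 2), (8, 2), (11, 2)], [(1, 2), (10, 2)]]
   []
   .nil)
  (.lp [2, 2, 2, 2, 2, 2] [] [-1, -1, -1, -1, -1, -1, -1, -1, -1, -1, -1, -1] 8 5
   [[(1, 2), (10, 2)], [(2, 2)], [(5, 2)], [(0, 2)], [(3, 2)], [(11, 2)], [(8, 2)], [(6, 2), (9,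
      2)], [(6, 2), (9, 2)], [(7, 2)], [(4, 2)], [(1, 2), (10, 2)]]
   []
   .nil)
  (.lp [2, 2, 2, 2, 2, 2] [] [-1, -1, -1, -1, -1, -1, -1, -1, -1, -1, -1, -1] 8 5
   [[(1, 2), (10, 2)], [(2, 2)], [(5, 2)], [(0, 2)], [(3, 2)], [(8, 2)], [(11, 2)], [(6, 2), (9,
      2)], [(6, 2), (9, 2)], [(4, 2)], [(7, 2)], [(1, 2), (10, 2)]]
   []
   .nil))

/-- classes `001223` -/
def tr6_6 : Tr :=
  .splitT 0
 (.splitT 3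
  (.lp [8, 8, 6, 8, 8, 8] [] [-4, -4, -4, -4, -3, -3, -4, -4, -4, -4, -4, -4] 24 5
   [[(1, 8), (10, 8)], [(0, 8), (2, 8), (3, 8), (5, 7)], [(0, 8), (2, 8), (3, 8), (5, 7)], [(0, 8),
      (2, 8), (3, 8), (5, 7)], [(0, 7), (2, 7), (3, 7), (5, 6)], [(4, 6), (7, 7)], [(4, 7), (7,
      8)], [(6, 8), (8, 8), (9, 8), (11, 8)], [(6, 8), (8, 8), (9, 8), (11, 8)], [(6, 8), (8, 8),
      (9, 8), (11, 8)], [(6, 8), (8, 8), (9, 8), (11, 8)], [(1, 8), (10, 8)]]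
   [[0, 1, 2, 0, 0, 0]]
   (.cons (.lp [6, 12, 6, 8, 8, 6] [] [-3, -3, -6, -6, -3, -3, -4, -4, -4, -4, -3, -3] 24 5
    [[(1, 6), (10, 6)], [(0, 6), (2, 9), (3, 9), (5, 6)], [(0, 9), (2, 12), (3, 12), (5, 9)], [(0,
      9), (2, 12), (3, 12), (5, 9)], [(0, 6), (2, 9), (3, 9), (5, 6)], [(4, 6), (7, 7)], [(4, 7),
      (7, 8)], [(6, 8), (8, 8), (9, 8), (11, 7)], [(6, 8), (8, 8), (9, 8), (11, 7)], [(6, 8), (8,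
      8), (9, 8), (11, 7)], [(6, 7), (8, 7), (9, 7), (11, 6)], [(1, 6), (10, 6)]]
    [[0, 0, 0, 0, 1, 2]]
    (.cons (.lp [6, 8, 8, 8, 8, 8] [] [-3, -3, -4, -4, -4, -4, -4, -4, -4, -4, -4, -4] 24 5
     [[(1, 6), (10, 7)], [(0, 6), (2, 7), (3, 7), (5, 7)], [(0, 7), (2, 8), (3, 8), (5, 8)], [(0,
      7), (2, 8), (3, 8), (5, 8)], [(0, 7), (2, 8), (3, 8), (5, 8)], [(4, 8), (7, 8)], [(4, 8), (7,
      8)], [(6, 8), (8, 8), (9, 8), (11, 8)], [(6, 8), (8, 8), (9, 8), (11, 8)], [(6, 8), (8, 8),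
      (9, 8), (11, 8)], [(6, 8), (8, 8), (9, 8), (11, 8)], [(1, 7), (10, 8)]]
     [[2, 1, 0, 0, 0, 0]]
     (.cons (.splitU 2
      (.splitU 5
       (.leaf 7 0 [(1, [1, 0, 0, 0]), (2, [-1, 0, 1, 0]), (1, [-1, -1, -1, 2]), (2, [1, 2, 1, -2])])
       (.lp [6, 8, 8, 8, 8, 6] [] [-3, -3, -4, -4, -4, -4, -4, -4, -4, -4, -3, -3] 24 5
        [[(10, 6)], [(0, 6), (2, 7), (3, 7), (5, 7)], [(0, 7), (2, 8), (3, 8), (5, 8)], [(0, 7),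
      (2, 8), (3, 8), (5, 8)], [(0, 7), (2, 8), (3, 8), (5, 8)], [(4, 8), (7, 8)], [(4, 8), (7,
      8)], [(6, 8), (8, 8), (9, 8), (11, 7)], [(6, 8), (8, 8), (9, 8), (11, 7)], [(6, 8), (8, 8),
      (9, 8), (11, 7)], [(6, 7), (8, 7), (9, 7), (11, 6)], [(1, 6)]]
        []
        .nil))
      (.lp [8, 8, 6, 6, 8, 8] [] [-4, -4, -4, -4, -3, -3, -3, -3, -4, -4, -4, -4] 24 5
       [[(1, 8), (10, 8)], [(0, 8), (2, 8), (3, 8), (5, 7)], [(0, 8), (2, 8), (3, 8), (5, 7)], [(0,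
      8), (2, 8), (3, 8), (5, 7)], [(0, 7), (2, 7), (3, 7), (5, 6)], [(7, 6)], [(4, 6)], [(6, 6),
      (8, 7), (9, 7), (11, 7)], [(6, 7), (8, 8), (9, 8), (11, 8)], [(6, 7), (8, 8), (9, 8), (11,
      8)], [(6, 7), (8, 8), (9, 8), (11, 8)], [(1, 8), (10, 8)]]
       []
       .nil))
     .nil))
    .nil))
   .nil))
  (.lp [6, 12, 6, 6, 8, 6] [] [-3, -3, -6, -6, -3, -3, -3, -3, -4, -4, -3, -3] 24 5
   [[(1, 6), (10, 6)], [(0, 6), (2, 9), (3, 9), (5, 6)], [(0, 9), (2, 12), (3, 12), (5, 9)], [(0,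
      9), (2, 12), (3, 12), (5, 9)], [(0, 6), (2, 9), (3, 9), (5, 6)], [(4, 6), (7, 6)], [(4, 6),
      (7, 6)], [(11, 6)], [(8, 8)], [(9, 8)], [(6, 6)], [(1, 6), (10, 6)]]
   []
   .nil)
  (.lp [2, 4, 2, 2, 2, 2] [] [-1, -1, -2, -2, -1, -1, -1, -1, -1, -1, -1, -1] 8 5
   [[(1, 2), (10, 2)], [(0, 2), (2, 3), (3, 3), (5, 2)], [(0, 3), (2, 4), (3, 4), (5, 3)], [(0, 3),
      (2, 4), (3, 4), (5, 3)], [(0, 2), (2, 3), (3, 3), (5, 2)], [(4, 2), (7, 2)], [(4, 2), (7,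
      2)], [(8, 2)], [(11, 2)], [(6, 2)], [(9, 2)], [(1, 2), (10, 2)]]
   []
   .nil))
 (.splitT 3
  (.lp [6, 8, 6, 6, 12, 6] [] [-3, -3, -4, -4, -3, -3, -3, -3, -6, -6, -3, -3] 24 5
   [[(1, 6), (10, 6)], [(5, 6)], [(2, 8)], [(3, 8)], [(0, 6)], [(4, 6), (7, 6)], [(4, 6), (7, 6)],
      [(6, 6), (8, 9), (9, 9), (11, 6)], [(6, 9), (8, 12), (9, 12), (11, 9)], [(6, 9), (8, 12), (9,
      12), (11, 9)], [(6, 6), (8, 9), (9, 9), (11, 6)], [(1, 6), (10, 6)]]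
   []
   .nil)
  (.lp [6, 8, 6, 6, 8, 6] [] [-3, -3, -4, -4, -3, -3, -3, -3, -4, -4, -3, -3] 24 5
   [[(1, 6), (10, 6)], [(5, 6)], [(2, 8)], [(3, 8)], [(0, 6)], [(4, 6), (7, 6)], [(4, 6), (7, 6)],
      [(11, 6)], [(8, 8)], [(9, 8)], [(6, 6)], [(1, 6), (10, 6)]]
   []
   .nil)
  (.lp [6, 8, 6, 6, 6, 6] [] [-3, -3, -4, -4, -3, -3, -3, -3, -3, -3, -3, -3] 24 5
   [[(1, 6), (10, 6)], [(5, 6)], [(2, 8)], [(3, 8)], [(0, 6)], [(4, 6), (7, 6)], [(4, 6), (7, 6)],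
      [(8, 6)], [(11, 6)], [(6, 6)], [(9, 6)], [(1, 6), (10, 6)]]
   []
   .nil))
 (.splitT 3
  (.lp [2, 2, 2, 2, 4, 2] [] [-1, -1, -1, -1, -1, -1, -1, -1, -2, -2, -1, -1] 8 5
   [[(1, 2), (10, 2)], [(2, 2)], [(5, 2)], [(0, 2)], [(3, 2)], [(4, 2), (7, 2)], [(4, 2), (7, 2)],
      [(6, 2), (8, 3), (9, 3), (11, 2)], [(6, 3), (8, 4), (9, 4), (11, 3)], [(6, 3), (8, 4), (9,
      4), (11, 3)], [(6, 2), (8, 3), (9, 3), (11, 2)], [(1, 2), (10, 2)]]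
   []
   .nil)
  (.lp [6, 6, 6, 6, 8, 6] [] [-3, -3, -3, -3, -3, -3, -3, -3, -4, -4, -3, -3] 24 5
   [[(1, 6), (10, 6)], [(2, 6)], [(5, 6)], [(0, 6)], [(3, 6)], [(4, 6), (7, 6)], [(4, 6), (7, 6)],
      [(11, 6)], [(8, 8)], [(9, 8)], [(6, 6)], [(1, 6), (10, 6)]]
   []
   .nil)
  (.lp [2, 2, 2, 2, 2, 2] [] [-1, -1, -1, -1, -1, -1, -1, -1, -1, -1, -1, -1] 8 5
   [[(1, 2), (10, 2)], [(2, 2)], [(5, 2)], [(0, 2)], [(3, 2)], [(4, 2), (7, 2)], [(4, 2), (7, 2)],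
      [(8, 2)], [(11, 2)], [(6, 2)], [(9, 2)], [(1, 2), (10, 2)]]
   []
   .nil))

/-- classes `001231` -/
def tr6_7 : Tr :=
  .splitT 0
 (.splitT 2
  (.lp [2, 4, 2, 2, 2, 2] [] [-1, -1, -2, -2, -1, -1, -1, -1, -1, -1, -1, -1] 8 5
   [[(1, 2), (4, 2), (7, 2), (10, 2)], [(0, 2), (2, 3), (3, 3), (5, 2)], [(0, 3), (2, 4), (3, 4),
      (5, 3)], [(0, 3), (2, 4), (3, 4), (5, 3)], [(0, 2), (2, 3), (3, 3), (5, 2)], [(1, 2), (4, 2),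
      (7, 2), (10, 2)], [(1, 2), (4, 2), (7, 2), (10, 2)], [(6, 2), (9, 2)], [(6, 2), (9, 2)], [(8,
      2), (11, 2)], [(8, 2), (11, 2)], [(1, 2), (4, 2), (7, 2), (10, 2)]]
   [[0, 0, 0, 1, 1, 1]]
   (.cons (.leaf 0 2 [(1, [1, 0])])
   .nil))
  (.lp [10, 8, 6, 6, 6, 6] [] [-5, -5, -4, -4, -3, -3, -3, -3, -3, -3, -3, -3] 24 5
   [[(4, 8)], [(0, 10), (2, 9), (3, 9), (5, 8)], [(0, 9), (2, 8), (3, 8), (5, 7)], [(0, 9), (2, 8),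
      (3, 8), (5, 7)], [(0, 8), (2, 7), (3, 7), (5, 6)], [(1, 8)], [(10, 6)], [(6, 6), (9, 6)],
      [(6, 6), (9, 6)], [(8, 6), (11, 6)], [(8, 6), (11, 6)], [(7, 6)]]
   [[0, 0, 0, 1, 1, 1]]
   (.cons (.leaf 0 2 [(1, [1, 0])])
   .nil))
  (.lp [6, 8, 6, 6, 6, 6] [] [-3, -3, -4, -4, -3, -3, -3, -3, -3, -3, -3, -3] 24 5
   [[(7, 6)], [(0, 6), (2, 7), (3, 7), (5, 6)], [(0, 7), (2, 8), (3, 8), (5, 7)], [(0, 7), (2, 8),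
      (3, 8), (5, 7)], [(0, 6), (2, 7), (3, 7), (5, 6)], [(10, 6)], [(1, 6)], [(6, 6), (9, 6)],
      [(6, 6), (9, 6)], [(8, 6), (11, 6)], [(8, 6), (11, 6)], [(4, 6)]]
   []
   .nil))
 (.splitT 2
  (.lp [6, 8, 6, 6, 12, 6] [] [-3, -3, -4, -4, -3, -3, -3, -3, -6, -6, -3, -3] 24 5
   [[(1, 6), (4, 6), (7, 6), (10, 6)], [(5, 6)], [(2, 8)], [(3, 8)], [(0, 6)], [(1, 6), (4, 6), (7,
      6), (10, 6)], [(1, 6), (4, 6), (7, 6), (10, 6)], [(6, 6), (9, 9)], [(6, 9), (9, 12)], [(8,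
      12), (11, 9)], [(8, 9), (11, 6)], [(1, 6), (4, 6), (7, 6), (10, 6)]]
   []
   .nil)
  (.lp [0, 8, 12, 12, 6, 6] [] [0, 0, -4, -4, -6, -6, -6, -6, -3, -3, -3, -3] 24 5
   [[(4, 6)], [(5, 6)], [(2, 8)], [(3, 8)], [(0, 6)], [(1, 6)], [(10, 9)], [(6, 12), (9, 9)], [(6,
      9), (9, 6)], [(8, 6), (11, 6)], [(8, 6), (11, 6)], [(7, 9)]]
   []
   .nil)
  (.lp [6, 8, 6, 6, 6, 6] [] [-3, -3, -4, -4, -3, -3, -3, -3, -3, -3, -3, -3] 24 5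
   [[(7, 6)], [(5, 6)], [(2, 8)], [(3, 8)], [(0, 6)], [(10, 6)], [(1, 6)], [(6, 6), (9, 6)], [(6,
      6), (9, 6)], [(8, 6), (11, 6)], [(8, 6), (11, 6)], [(4, 6)]]
   []
   .nil))
 (.splitT 2
  (.lp [4, 2, 2, 2, 2, 2] [] [-2, -2, -1, -1, -1, -1, -1, -1, -1, -1, -1, -1] 8 5
   [[(1, 4), (4, 3), (7, 3), (10, 3)], [(2, 3)], [(5, 2)], [(0, 3)], [(3, 2)], [(1, 3), (4, 2), (7,
      2), (10, 2)], [(1, 3), (4, 2), (7, 2), (10, 2)], [(6, 2), (9, 2)], [(6, 2), (9, 2)], [(8, 2),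
      (11, 2)], [(8, 2), (11, 2)], [(1, 3), (4, 2), (7, 2), (10, 2)]]
   [[0, 0, 0, 1, 1, 1]]
   (.cons (.leaf 4 0 [(1, [1, 0])])
   .nil))
  (.lp [4, 0, 4, 2, 2, 2] [] [-2, -2, 0, 0, -2, -2, -1, -1, -1, -1, -1, -1] 8 5
   [[(4, 4)], [(2, 2)], [(5, 2)], [(0, 2)], [(3, 2)], [(1, 4)], [(10, 2)], [(6, 2), (9, 2)], [(6,
      2), (9, 2)], [(8, 2), (11, 2)], [(8, 2), (11, 2)], [(7, 2)]]
   [[0, 0, 0, 1, 1, 1]]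
   (.cons (.leaf 4 0 [(1, [1, 0])])
   .nil))
  (.lp [2, 2, 2, 2, 2, 2] [] [-1, -1, -1, -1, -1, -1, -1, -1, -1, -1, -1, -1] 8 5
   [[(7, 2)], [(2, 2)], [(5, 2)], [(0, 2)], [(3, 2)], [(10, 2)], [(1, 2)], [(6, 2), (9, 2)], [(6,
      2), (9, 2)], [(8, 2), (11, 2)], [(8, 2), (11, 2)], [(4, 2)]]
   []
   .nil))

/-- classes `001232` -/
def tr6_8 : Tr :=
  .splitT 0
 (.splitT 3
  (.lp [8, 8, 8, 8, 6, 6] [] [-4, -4, -4, -4, -4, -4, -4, -4, -3, -3, -3, -3] 24 5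
   [[(1, 8), (6, 8), (9, 7), (10, 7)], [(0, 8), (2, 8), (3, 8), (5, 8)], [(0, 8), (2, 8), (3, 8),
      (5, 8)], [(0, 8), (2, 8), (3, 8), (5, 8)], [(0, 8), (2, 8), (3, 8), (5, 8)], [(4, 8), (7,
      8)], [(4, 8), (7, 8)], [(1, 8), (6, 8), (9, 7), (10, 7)], [(1, 7), (6, 7), (9, 6), (10, 6)],
      [(8, 6), (11, 6)], [(8, 6), (11, 6)], [(1, 7), (6, 7), (9, 6), (10, 6)]]
   []
   .nil)
  (.lp [10, 8, 8, 6, 6, 6] [] [-5, -5, -4, -4, -4, -4, -3, -3, -3, -3, -3, -3] 24 5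
   [[(6, 8)], [(0, 10), (2, 9), (3, 9), (5, 9)], [(0, 9), (2, 8), (3, 8), (5, 8)], [(0, 9), (2, 8),
      (3, 8), (5, 8)], [(0, 9), (2, 8), (3, 8), (5, 8)], [(4, 8), (7, 7)], [(4, 7), (7, 6)], [(1,
      8)], [(10, 6)], [(8, 6), (11, 6)], [(8, 6), (11, 6)], [(9, 6)]]
   []
   .nil)
  (.lp [6, 8, 8, 6, 6, 6] [] [-3, -3, -4, -4, -4, -4, -3, -3, -3, -3, -3, -3] 24 5
   [[(9, 6)], [(0, 6), (2, 7), (3, 7), (5, 7)], [(0, 7), (2, 8), (3, 8), (5, 8)], [(0, 7), (2, 8),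
      (3, 8), (5, 8)], [(0, 7), (2, 8), (3, 8), (5, 8)], [(4, 8), (7, 7)], [(4, 7), (7, 6)], [(10,
      6)], [(1, 6)], [(8, 6), (11, 6)], [(8, 6), (11, 6)], [(6, 6)]]
   []
   .nil))
 (.splitT 3
  (.lp [12, 8, 6, 6, 6, 6] [] [-6, -6, -4, -4, -3, -3, -3, -3, -3, -3, -3, -3] 24 5
   [[(1, 12), (6, 9), (9, 9), (10, 9)], [(5, 9)], [(2, 8)], [(3, 8)], [(0, 9)], [(4, 6), (7, 6)],
      [(4, 6), (7, 6)], [(1, 9), (6, 6), (9, 6), (10, 6)], [(1, 9), (6, 6), (9, 6), (10, 6)], [(8,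
      6), (11, 6)], [(8, 6), (11, 6)], [(1, 9), (6, 6), (9, 6), (10, 6)]]
   []
   .nil)
  (.lp [0, 8, 12, 12, 6, 6] [] [0, 0, -4, -4, -6, -6, -6, -6, -3, -3, -3, -3] 24 5
   [[(6, 6)], [(5, 6)], [(2, 8)], [(3, 8)], [(0, 6)], [(4, 12), (7, 12)], [(4, 12), (7, 12)], [(1,
      6)], [(10, 6)], [(8, 6), (11, 6)], [(8, 6), (11, 6)], [(9, 6)]]
   []
   .nil)
  (.lp [6, 8, 6, 6, 6, 6] [] [-3, -3, -4, -4, -3, -3, -3, -3, -3, -3, -3, -3] 24 5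
   [[(9, 6)], [(5, 6)], [(2, 8)], [(3, 8)], [(0, 6)], [(4, 6), (7, 6)], [(4, 6), (7, 6)], [(10,
      6)], [(1, 6)], [(8, 6), (11, 6)], [(8, 6), (11, 6)], [(6, 6)]]
   []
   .nil))
 (.splitT 3
  (.lp [2, 2, 2, 2, 2, 2] [] [-1, -1, -1, -1, -1, -1, -1, -1, -1, -1, -1, -1] 8 5
   [[(1, 2), (6, 2), (9, 2), (10, 2)], [(2, 2)], [(5, 2)], [(0, 2)], [(3, 2)], [(4, 2), (7, 2)],
      [(4, 2), (7, 2)], [(1, 2), (6, 2), (9, 2), (10, 2)], [(1, 2), (6, 2), (9, 2), (10, 2)], [(8,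
      2), (11, 2)], [(8, 2), (11, 2)], [(1, 2), (6, 2), (9, 2), (10, 2)]]
   []
   .nil)
  (.lp [2, 2, 2, 2, 2, 2] [] [-1, -1, -1, -1, -1, -1, -1, -1, -1, -1, -1, -1] 8 5
   [[(6, 2)], [(2, 2)], [(5, 2)], [(0, 2)], [(3, 2)], [(4, 2), (7, 2)], [(4, 2), (7, 2)], [(1, 2)],
      [(10, 2)], [(8, 2), (11, 2)], [(8, 2), (11, 2)], [(9, 2)]]
   []
   .nil)
  (.lp [2, 2, 2, 2, 2, 2] [] [-1, -1, -1, -1, -1, -1, -1, -1, -1, -1, -1, -1] 8 5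
   [[(9, 2)], [(2, 2)], [(5, 2)], [(0, 2)], [(3, 2)], [(4, 2), (7, 2)], [(4, 2), (7, 2)], [(10,
      2)], [(1, 2)], [(8, 2), (11, 2)], [(8, 2), (11, 2)], [(6, 2)]]
   []
   .nil))

/-- classes `010123` -/
def tr6_9 : Tr :=
  .splitT 0
 (.splitT 1
  (.lp [2, 2, 2, 2, 2, 2] [] [-1, -1, -1, -1, -1, -1, -1, -1, -1, -1, -1, -1] 8 5
   [[(1, 2), (10, 2)], [(0, 2), (3, 2), (4, 2), (7, 2)], [(0, 2), (3, 2), (4, 2), (7, 2)], [(2, 2),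
      (5, 2), (6, 2), (9, 2)], [(2, 2), (5, 2), (6, 2), (9, 2)], [(0, 2), (3, 2), (4, 2), (7, 2)],
      [(0, 2), (3, 2), (4, 2), (7, 2)], [(2, 2), (5, 2), (6, 2), (9, 2)], [(2, 2), (5, 2), (6, 2),
      (9, 2)], [(8, 2), (11, 2)], [(8, 2), (11, 2)], [(1, 2), (10, 2)]]
   []
   .nil)
  (.lp [2, 2, 2, 2, 2, 2] [] [-1, -1, -1, -1, -1, -1, -1, -1, -1, -1, -1, -1] 8 5
   [[(1, 2), (10, 2)], [(0, 2), (3, 2), (4, 2), (7, 2)], [(0, 2), (3, 2), (4, 2), (7, 2)], [(9,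
      2)], [(6, 2)], [(0, 2), (3, 2), (4, 2), (7, 2)], [(0, 2), (3, 2), (4, 2), (7, 2)], [(5, 2)],
      [(2, 2)], [(8, 2), (11, 2)], [(8, 2), (11, 2)], [(1, 2), (10, 2)]]
   []
   .nil)
  (.lp [2, 2, 2, 2, 2, 2] [] [-1, -1, -1, -1, -1, -1, -1, -1, -1, -1, -1, -1] 8 5
   [[(1, 2), (10, 2)], [(0, 2), (3, 2), (4, 2), (7, 2)], [(0, 2), (3, 2), (4, 2), (7, 2)], [(6,
      2)], [(9, 2)], [(0, 2), (3, 2), (4, 2), (7, 2)], [(0, 2), (3, 2), (4, 2), (7, 2)], [(2, 2)],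
      [(5, 2)], [(8, 2), (11, 2)], [(8, 2), (11, 2)], [(1, 2), (10, 2)]]
   []
   .nil))
 (.splitT 1
  (.lp [2, 2, 2, 2, 2, 2] [] [-1, -1, -1, -1, -1, -1, -1, -1, -1, -1, -1, -1] 8 5
   [[(1, 2), (10, 2)], [(7, 2)], [(4, 2)], [(2, 2), (5, 2), (6, 2), (9, 2)], [(2, 2), (5, 2), (6,
      2), (9, 2)], [(3, 2)], [(0, 2)], [(2, 2), (5, 2), (6, 2), (9, 2)], [(2, 2), (5, 2), (6, 2),
      (9, 2)], [(8, 2), (11, 2)], [(8, 2), (11, 2)], [(1, 2), (10, 2)]]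
   []
   .nil)
  (.lp [2, 2, 2, 2, 2, 2] [] [-1, -1, -1, -1, -1, -1, -1, -1, -1, -1, -1, -1] 8 5
   [[(1, 2), (10, 2)], [(7, 2)], [(4, 2)], [(9, 2)], [(6, 2)], [(3, 2)], [(0, 2)], [(5, 2)], [(2,
      2)], [(8, 2), (11, 2)], [(8, 2), (11, 2)], [(1, 2), (10, 2)]]
   []
   .nil)
  (.lp [2, 2, 2, 2, 2, 2] [] [-1, -1, -1, -1, -1, -1, -1, -1, -1, -1, -1, -1] 8 5
   [[(1, 2), (10, 2)], [(7, 2)], [(4, 2)], [(6, 2)], [(9, 2)], [(3, 2)], [(0, 2)], [(2, 2)], [(5,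
      2)], [(8, 2), (11, 2)], [(8, 2), (11, 2)], [(1, 2), (10, 2)]]
   []
   .nil))
 (.splitT 1
  (.lp [2, 2, 2, 2, 2, 2] [] [-1, -1, -1, -1, -1, -1, -1, -1, -1, -1, -1, -1] 8 5
   [[(1, 2), (10, 2)], [(4, 2)], [(7, 2)], [(2, 2), (5, 2), (6, 2), (9, 2)], [(2, 2), (5, 2), (6,
      2), (9, 2)], [(0, 2)], [(3, 2)], [(2, 2), (5, 2), (6, 2), (9, 2)], [(2, 2), (5, 2), (6, 2),
      (9, 2)], [(8, 2), (11, 2)], [(8, 2), (11, 2)], [(1, 2), (10, 2)]]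
   []
   .nil)
  (.lp [2, 2, 2, 2, 2, 2] [] [-1, -1, -1, -1, -1, -1, -1, -1, -1, -1, -1, -1] 8 5
   [[(1, 2), (10, 2)], [(4, 2)], [(7, 2)], [(9, 2)], [(6, 2)], [(0, 2)], [(3, 2)], [(5, 2)], [(2,
      2)], [(8, 2), (11, 2)], [(8, 2), (11, 2)], [(1, 2), (10, 2)]]
   []
   .nil)
  (.lp [2, 0, 2, 4, 2, 2] [] [-1, -1, 0, 0, -1, -1, -2, -2, -1, -1, -1, -1] 8 5
   [[(1, 2), (10, 2)], [(4, 2)], [(7, 2)], [(6, 2)], [(9, 2)], [(0, 2)], [(3, 2)], [(2, 2)], [(5,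
      2)], [(8, 2), (11, 2)], [(8, 2), (11, 2)], [(1, 2), (10, 2)]]
   []
   .nil))

/-- classes `010213` -/
def tr6_10 : Tr :=
  .splitT 0
 (.splitT 1
  (.lp [2, 4, 2, 2, 2, 2] [] [-1, -1, -2, -2, -1, -1, -1, -1, -1, -1, -1, -1] 8 5
   [[(1, 2), (10, 2)], [(0, 2), (3, 3), (4, 2), (7, 2)], [(0, 3), (3, 4), (4, 3), (7, 3)], [(2, 4),
      (5, 3), (8, 3), (11, 3)], [(2, 3), (5, 2), (8, 2), (11, 2)], [(0, 2), (3, 3), (4, 2), (7,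
      2)], [(0, 2), (3, 3), (4, 2), (7, 2)], [(6, 2), (9, 2)], [(6, 2), (9, 2)], [(2, 3), (5, 2),
      (8, 2), (11, 2)], [(2, 3), (5, 2), (8, 2), (11, 2)], [(1, 2), (10, 2)]]
   [[1, 0, 1, 0, 0, 1], [0, 0, 1, 1, 1, 0]]
   (.cons (.leaf 3 0 [(1, [-1, 1])])
   (.cons (.leaf 0 1 [(1, [1, 0])])
   .nil)))
  (.lp [2, 2, 2, 2, 4, 2] [] [-1, -1, -1, -1, -1, -1, -1, -1, -2, -2, -1, -1] 8 5
   [[(1, 2), (10, 2)], [(0, 2), (3, 2), (4, 2), (7, 2)], [(0, 2), (3, 2), (4, 2), (7, 2)], [(11,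
      2)], [(8, 3)], [(0, 2), (3, 2), (4, 2), (7, 2)], [(0, 2), (3, 2), (4, 2), (7, 2)], [(6, 2),
      (9, 3)], [(6, 3), (9, 4)], [(5, 3)], [(2, 2)], [(1, 2), (10, 2)]]
   [[1, 1, 0, 0, 0, 1]]
   (.cons (.leaf 0 1 [(1, [-1, 1])])
   .nil))
  (.lp [4, 2, 2, 2, 2, 2] [] [-2, -2, -1, -1, -1, -1, -1, -1, -1, -1, -1, -1] 8 5
   [[(1, 4), (10, 3)], [(0, 4), (3, 3), (4, 3), (7, 3)], [(0, 3), (3, 2), (4, 2), (7, 2)], [(8,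
      2)], [(11, 2)], [(0, 3), (3, 2), (4, 2), (7, 2)], [(0, 3), (3, 2), (4, 2), (7, 2)], [(6, 2),
      (9, 2)], [(6, 2), (9, 2)], [(2, 2)], [(5, 2)], [(1, 3), (10, 2)]]
   [[0, 1, 0, 1, 1, 0]]
   (.cons (.leaf 3 0 [(1, [1, 0])])
   .nil)))
 (.splitT 1
  (.lp [2, 2, 2, 2, 2, 2] [] [-1, -1, -1, -1, -1, -1, -1, -1, -1, -1, -1, -1] 8 5
   [[(1, 2), (10, 2)], [(7, 2)], [(4, 2)], [(2, 2), (5, 2), (8, 2), (11, 2)], [(2, 2), (5, 2), (8,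
      2), (11, 2)], [(3, 2)], [(0, 2)], [(6, 2), (9, 2)], [(6, 2), (9, 2)], [(2, 2), (5, 2), (8,
      2), (11, 2)], [(2, 2), (5, 2), (8, 2), (11, 2)], [(1, 2), (10, 2)]]
   []
   .nil)
  (.lp [2, 2, 2, 2, 2, 2] [] [-1, -1, -1, -1, -1, -1, -1, -1, -1, -1, -1, -1] 8 5
   [[(1, 2), (10, 2)], [(7, 2)], [(4, 2)], [(11, 2)], [(8, 2)], [(3, 2)], [(0, 2)], [(6, 2), (9,
      2)], [(6, 2), (9, 2)], [(5, 2)], [(2, 2)], [(1, 2), (10, 2)]]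
   []
   .nil)
  (.lp [2, 2, 2, 2, 2, 2] [] [-1, -1, -1, -1, -1, -1, -1, -1, -1, -1, -1, -1] 8 5
   [[(1, 2), (10, 2)], [(7, 2)], [(4, 2)], [(8, 2)], [(11, 2)], [(3, 2)], [(0, 2)], [(6, 2), (9,
      2)], [(6, 2), (9, 2)], [(2, 2)], [(5, 2)], [(1, 2), (10, 2)]]
   []
   .nil))
 (.splitT 1
  (.lp [2, 2, 2, 2, 4, 2] [] [-1, -1, -1, -1, -1, -1, -1, -1, -2, -2, -1, -1] 8 5
   [[(1, 2), (10, 2)], [(4, 2)], [(7, 2)], [(2, 2), (5, 2), (8, 3), (11, 2)], [(2, 2), (5, 2), (8,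
      3), (11, 2)], [(0, 2)], [(3, 2)], [(6, 2), (9, 3)], [(6, 3), (9, 4)], [(2, 3), (5, 3), (8,
      4), (11, 3)], [(2, 2), (5, 2), (8, 3), (11, 2)], [(1, 2), (10, 2)]]
   [[1, 0, 1, 0, 0, 1]]
   (.cons (.leaf 3 0 [(1, [-1, 1])])
   .nil))
  (.lp [2, 2, 2, 2, 2, 2] [] [-1, -1, -1, -1, -1, -1, -1, -1, -1, -1, -1, -1] 8 5
   [[(1, 2), (10, 2)], [(4, 2)], [(7, 2)], [(11, 2)], [(8, 2)], [(0, 2)], [(3, 2)], [(6, 2), (9,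
      2)], [(6, 2), (9, 2)], [(5, 2)], [(2, 2)], [(1, 2), (10, 2)]]
   []
   .nil)
  (.lp [2, 2, 4, 2, 2, 2] [] [-1, -1, -1, -1, -2, -2, -1, -1, -1, -1, -1, -1] 8 5
   [[(1, 2), (10, 2)], [(4, 3)], [(7, 2)], [(8, 2)], [(11, 3)], [(0, 3)], [(3, 2)], [(6, 2), (9,
      2)], [(6, 2), (9, 2)], [(2, 2)], [(5, 3)], [(1, 2), (10, 2)]]
   [[0, 1, 0, 1, 1, 0]]
   (.cons (.leaf 3 0 [(1, [1, 0])])
   .nil)))

/-- classes `010232` -/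
def tr6_11 : Tr :=
  .splitT 0
 (.splitT 3
  (.lp [2, 2, 2, 2, 2, 2] [] [-1, -1, -1, -1, -1, -1, -1, -1, -1, -1, -1, -1] 8 5
   [[(1, 2), (6, 2), (9, 2), (10, 2)], [(0, 2), (3, 2), (4, 2), (7, 2)], [(0, 2), (3, 2), (4, 2),
      (7, 2)], [(2, 2), (5, 2)], [(2, 2), (5, 2)], [(0, 2), (3, 2), (4, 2), (7, 2)], [(0, 2), (3,
      2), (4, 2), (7, 2)], [(1, 2), (6, 2), (9, 2), (10, 2)], [(1, 2), (6, 2), (9, 2), (10, 2)],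
      [(8, 2), (11, 2)], [(8, 2), (11, 2)], [(1, 2), (6, 2), (9, 2), (10, 2)]]
   []
   .nil)
  (.lp [2, 2, 2, 2, 2, 2] [] [-1, -1, -1, -1, -1, -1, -1, -1, -1, -1, -1, -1] 8 5
   [[(6, 2)], [(0, 2), (3, 2), (4, 2), (7, 2)], [(0, 2), (3, 2), (4, 2), (7, 2)], [(2, 2), (5, 2)],
      [(2, 2), (5, 2)], [(0, 2), (3, 2), (4, 2), (7, 2)], [(0, 2), (3, 2), (4, 2), (7, 2)], [(1,
      2)], [(10, 2)], [(8, 2), (11, 2)], [(8, 2), (11, 2)], [(9, 2)]]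
   []
   .nil)
  (.lp [2, 2, 2, 2, 2, 2] [] [-1, -1, -1, -1, -1, -1, -1, -1, -1, -1, -1, -1] 8 5
   [[(9, 2)], [(0, 2), (3, 2), (4, 2), (7, 2)], [(0, 2), (3, 2), (4, 2), (7, 2)], [(2, 2), (5, 2)],
      [(2, 2), (5, 2)], [(0, 2), (3, 2), (4, 2), (7, 2)], [(0, 2), (3, 2), (4, 2), (7, 2)], [(10,
      2)], [(1, 2)], [(8, 2), (11, 2)], [(8, 2), (11, 2)], [(6, 2)]]
   []
   .nil))
 (.splitT 3
  (.lp [2, 2, 2, 2, 2, 2] [] [-1, -1, -1, -1, -1, -1, -1, -1, -1, -1, -1, -1] 8 5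
   [[(1, 2), (6, 2), (9, 2), (10, 2)], [(7, 2)], [(4, 2)], [(2, 2), (5, 2)], [(2, 2), (5, 2)], [(3,
      2)], [(0, 2)], [(1, 2), (6, 2), (9, 2), (10, 2)], [(1, 2), (6, 2), (9, 2), (10, 2)], [(8, 2),
      (11, 2)], [(8, 2), (11, 2)], [(1, 2), (6, 2), (9, 2), (10, 2)]]
   []
   .nil)
  (.lp [0, 2, 2, 4, 2, 2] [] [0, 0, -1, -1, -1, -1, -2, -2, -1, -1, -1, -1] 8 5
   [[(6, 2)], [(7, 2)], [(4, 2)], [(2, 2), (5, 2)], [(2, 2), (5, 2)], [(3, 2)], [(0, 2)], [(1, 2)],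
      [(10, 2)], [(8, 2), (11, 2)], [(8, 2), (11, 2)], [(9, 2)]]
   []
   .nil)
  (.lp [2, 2, 2, 2, 2, 2] [] [-1, -1, -1, -1, -1, -1, -1, -1, -1, -1, -1, -1] 8 5
   [[(9, 2)], [(7, 2)], [(4, 2)], [(2, 2), (5, 2)], [(2, 2), (5, 2)], [(3, 2)], [(0, 2)], [(10,
      2)], [(1, 2)], [(8, 2), (11, 2)], [(8, 2), (11, 2)], [(6, 2)]]
   []
   .nil))
 (.splitT 3
  (.lp [2, 2, 2, 2, 2, 2] [] [-1, -1, -1, -1, -1, -1, -1, -1, -1, -1, -1, -1] 8 5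
   [[(1, 2), (6, 2), (9, 2), (10, 2)], [(4, 2)], [(7, 2)], [(2, 2), (5, 2)], [(2, 2), (5, 2)], [(0,
      2)], [(3, 2)], [(1, 2), (6, 2), (9, 2), (10, 2)], [(1, 2), (6, 2), (9, 2), (10, 2)], [(8, 2),
      (11, 2)], [(8, 2), (11, 2)], [(1, 2), (6, 2), (9, 2), (10, 2)]]
   []
   .nil)
  (.lp [2, 2, 2, 2, 2, 2] [] [-1, -1, -1, -1, -1, -1, -1, -1, -1, -1, -1, -1] 8 5
   [[(6, 2)], [(4, 2)], [(7, 2)], [(2, 2), (5, 2)], [(2, 2), (5, 2)], [(0, 2)], [(3, 2)], [(1, 2)],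
      [(10, 2)], [(8, 2), (11, 2)], [(8, 2), (11, 2)], [(9, 2)]]
   []
   .nil)
  (.lp [2, 2, 2, 2, 2, 2] [] [-1, -1, -1, -1, -1, -1, -1, -1, -1, -1, -1, -1] 8 5
   [[(9, 2)], [(4, 2)], [(7, 2)], [(2, 2), (5, 2)], [(2, 2), (5, 2)], [(0, 2)], [(3, 2)], [(10,
      2)], [(1, 2)], [(8, 2), (11, 2)], [(8, 2), (11, 2)], [(6, 2)]]
   []
   .nil))

/-- classes `012013` -/
def tr6_12 : Tr :=
  .splitT 0
 (.splitT 1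
  (.lp [2, 4, 2, 2, 2, 2] [] [-1, -1, -2, -2, -1, -1, -1, -1, -1, -1, -1, -1] 8 5
   [[(1, 2), (10, 2)], [(0, 2), (3, 3), (6, 2), (9, 2)], [(0, 3), (3, 4), (6, 3), (9, 3)], [(2, 4),
      (5, 3), (8, 3), (11, 3)], [(2, 3), (5, 2), (8, 2), (11, 2)], [(4, 2), (7, 2)], [(4, 2), (7,
      2)], [(0, 2), (3, 3), (6, 2), (9, 2)], [(0, 2), (3, 3), (6, 2), (9, 2)], [(2, 3), (5, 2), (8,
      2), (11, 2)], [(2, 3), (5, 2), (8, 2), (11, 2)], [(1, 2), (10, 2)]]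
   [[1, 0, 0, 0, 1, 1], [0, 0, 1, 1, 1, 0]]
   (.cons (.leaf 0 0 [(1, [-1, 1])])
   (.cons (.leaf 0 1 [(1, [1, 0])])
   .nil)))
  (.lp [2, 2, 2, 2, 4, 2] [] [-1, -1, -1, -1, -1, -1, -1, -1, -2, -2, -1, -1] 8 5
   [[(1, 2), (10, 2)], [(0, 2), (3, 2), (6, 2), (9, 3)], [(0, 2), (3, 2), (6, 2), (9, 3)], [(11,
      2)], [(8, 3)], [(4, 2), (7, 2)], [(4, 2), (7, 2)], [(0, 2), (3, 2), (6, 2), (9, 3)], [(0, 3),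
      (3, 3), (6, 3), (9, 4)], [(5, 3)], [(2, 2)], [(1, 2), (10, 2)]]
   [[1, 1, 0, 0, 0, 1]]
   (.cons (.leaf 0 1 [(1, [-1, 1])])
   .nil))
  (.lp [2, 2, 2, 2, 2, 2] [] [-1, -1, -1, -1, -1, -1, -1, -1, -1, -1, -1, -1] 8 5
   [[(1, 2), (10, 2)], [(0, 2), (3, 2), (6, 2), (9, 2)], [(0, 2), (3, 2), (6, 2), (9, 2)], [(8,
      2)], [(11, 2)], [(4, 2), (7, 2)], [(4, 2), (7, 2)], [(0, 2), (3, 2), (6, 2), (9, 2)], [(0,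
      2), (3, 2), (6, 2), (9, 2)], [(2, 2)], [(5, 2)], [(1, 2), (10, 2)]]
   []
   .nil))
 (.splitT 1
  (.lp [2, 4, 2, 2, 2, 2] [] [-1, -1, -2, -2, -1, -1, -1, -1, -1, -1, -1, -1] 8 5
   [[(1, 2), (10, 2)], [(9, 2)], [(6, 3)], [(2, 4), (5, 3), (8, 3), (11, 3)], [(2, 3), (5, 2), (8,
      2), (11, 2)], [(4, 2), (7, 2)], [(4, 2), (7, 2)], [(3, 3)], [(0, 2)], [(2, 3), (5, 2), (8,
      2), (11, 2)], [(2, 3), (5, 2), (8, 2), (11, 2)], [(1, 2), (10, 2)]]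
   [[1, 0, 0, 0, 1, 1]]
   (.cons (.leaf 0 0 [(1, [-1, 1])])
   .nil))
  (.lp [2, 2, 2, 2, 2, 2] [] [-1, -1, -1, -1, -1, -1, -1, -1, -1, -1, -1, -1] 8 5
   [[(1, 2), (10, 2)], [(9, 2)], [(6, 2)], [(11, 2)], [(8, 2)], [(4, 2), (7, 2)], [(4, 2), (7, 2)],
      [(3, 2)], [(0, 2)], [(5, 2)], [(2, 2)], [(1, 2), (10, 2)]]
   []
   .nil)
  (.lp [2, 2, 2, 2, 2, 2] [] [-1, -1, -1, -1, -1, -1, -1, -1, -1, -1, -1, -1] 8 5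
   [[(1, 2), (10, 2)], [(9, 2)], [(6, 2)], [(8, 2)], [(11, 2)], [(4, 2), (7, 2)], [(4, 2), (7, 2)],
      [(3, 2)], [(0, 2)], [(2, 2)], [(5, 2)], [(1, 2), (10, 2)]]
   []
   .nil))
 (.splitT 1
  (.lp [2, 2, 2, 2, 2, 2] [] [-1, -1, -1, -1, -1, -1, -1, -1, -1, -1, -1, -1] 8 5
   [[(1, 2), (10, 2)], [(6, 2)], [(9, 2)], [(2, 2), (5, 2), (8, 2), (11, 2)], [(2, 2), (5, 2), (8,
      2), (11, 2)], [(4, 2), (7, 2)], [(4, 2), (7, 2)], [(0, 2)], [(3, 2)], [(2, 2), (5, 2), (8,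
      2), (11, 2)], [(2, 2), (5, 2), (8, 2), (11, 2)], [(1, 2), (10, 2)]]
   []
   .nil)
  (.lp [2, 2, 2, 2, 2, 2] [] [-1, -1, -1, -1, -1, -1, -1, -1, -1, -1, -1, -1] 8 5
   [[(1, 2), (10, 2)], [(6, 2)], [(9, 2)], [(11, 2)], [(8, 2)], [(4, 2), (7, 2)], [(4, 2), (7, 2)],
      [(0, 2)], [(3, 2)], [(5, 2)], [(2, 2)], [(1, 2), (10, 2)]]
   []
   .nil)
  (.lp [2, 0, 2, 2, 4, 2] [] [-1, -1, 0, 0, -1, -1, -1, -1, -2, -2, -1, -1] 8 5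
   [[(1, 2), (10, 2)], [(6, 2)], [(9, 2)], [(8, 2)], [(11, 2)], [(4, 2), (7, 2)], [(4, 2), (7, 2)],
      [(0, 2)], [(3, 2)], [(2, 2)], [(5, 2)], [(1, 2), (10, 2)]]
   []
   .nil))

/-- classes `001122` -/
def tr6_13 : Tr :=
  .splitT 0
 (.splitT 2
  (.splitT 4
   (.lp [30, 36, 30, 24, 36, 32] [(2, 3, 12), (8, 11, 4), (10, 9, 4)] [-15, -15, -18, -18, -15,
      -15, -12, -12, -18, -18, -16, -16] 96 5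
    [[(1, 30), (8, 33), (10, 31), (11, 35)], [(0, 30), (2, 33), (3, 33), (5, 30)], [(0, 33), (2,
      36), (3, 36), (5, 33)], [(0, 33), (2, 24), (3, 36), (5, 33)], [(0, 30), (2, 33), (3, 33), (5,
      42)], [(4, 30), (6, 27), (7, 27), (9, 33)], [(4, 27), (6, 24), (7, 24), (9, 30)], [(4, 27),
      (6, 24), (7, 24), (9, 30)], [(4, 33), (6, 30), (7, 30), (9, 36)], [(1, 33), (8, 36), (10,
      30), (11, 34)], [(1, 35), (8, 34), (10, 32), (11, 32)], [(1, 31), (8, 30), (10, 32), (11,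
      32)]]
    [[0, 0, 0, 3, 0, 0]]
    (.cons (.lp [30, 24, 36, 32, 30, 36] [(4, 7, 4), (6, 5, 4), (10, 11, 12)] [-15, -15, -12, -12,
      -18, -18, -16, -16, -15, -15, -18, -18] 96 5
     [[(1, 42), (8, 30), (10, 33), (11, 33)], [(0, 30), (2, 27), (3, 27), (5, 33)], [(0, 27), (2,
      24), (3, 24), (5, 30)], [(0, 27), (2, 24), (3, 24), (5, 30)], [(0, 33), (2, 30), (3, 30), (5,
      36)], [(4, 36), (6, 30), (7, 34), (9, 33)], [(4, 34), (6, 32), (7, 32), (9, 35)], [(4, 30),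
      (6, 32), (7, 32), (9, 31)], [(4, 33), (6, 31), (7, 35), (9, 30)], [(1, 30), (8, 30), (10,
      33), (11, 33)], [(1, 33), (8, 33), (10, 36), (11, 36)], [(1, 33), (8, 33), (10, 24), (11,
      36)]]
     [[0, 3, 0, 0, 0, 0]]
     (.cons (.lp [36, 32, 30, 36, 30, 24] [(0, 3, 4), (2, 1, 4), (6, 7, 12)] [-18, -18, -16, -16,
      -15, -15, -18, -18, -15, -15, -12, -12] 96 5
      [[(1, 36), (8, 33), (10, 30), (11, 30)], [(0, 36), (2, 30), (3, 34), (5, 33)], [(0, 34), (2,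
      32), (3, 32), (5, 35)], [(0, 30), (2, 32), (3, 32), (5, 31)], [(0, 33), (2, 31), (3, 35), (5,
      30)], [(4, 30), (6, 33), (7, 33), (9, 30)], [(4, 33), (6, 36), (7, 36), (9, 33)], [(4, 33),
      (6, 24), (7, 36), (9, 33)], [(4, 30), (6, 33), (7, 33), (9, 42)], [(1, 33), (8, 30), (10,
      27), (11, 27)], [(1, 30), (8, 27), (10, 24), (11, 24)], [(1, 30), (8, 27), (10, 24), (11,
      24)]]
      [[0, 0, 0, 0, 0, 3]]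
      (.cons (.leaf 2 0 [(1, [0, 1, 0, 0]), (1, [0, 0, 1, 0]), (1, [1, 0, 0, 0])])
      .nil))
     .nil))
    .nil))
   (.lp [6, 8, 8, 8, 10, 6] [] [-3, -3, -4, -4, -4, -4, -4, -4, -5, -5, -3, -3] 24 5
    [[(8, 8)], [(0, 6), (2, 7), (3, 7), (5, 7)], [(0, 7), (2, 8), (3, 8), (5, 8)], [(0, 7), (2, 8),
      (3, 8), (5, 8)], [(0, 7), (2, 8), (3, 8), (5, 8)], [(4, 8), (6, 8), (7, 8), (9, 9)], [(4, 8),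
      (6, 8), (7, 8), (9, 9)], [(4, 8), (6, 8), (7, 8), (9, 9)], [(4, 9), (6, 9), (7, 9), (9, 10)],
      [(1, 8)], [(10, 6)], [(11, 6)]]
    [[0, 0, 0, 0, 0, 3]]
    (.cons (.lp [12, 16, 18, 12, 18, 16] [] [-6, -6, -8, -8, -9, -9, -6, -6, -9, -9, -8, -8] 48 5
     [[(8, 15)], [(0, 12), (2, 14), (3, 14), (5, 15)], [(0, 14), (2, 16), (3, 16), (5, 17)], [(0,
      14), (2, 16), (3, 16), (5, 17)], [(0, 15), (2, 17), (3, 17), (5, 18)], [(4, 18), (6, 15), (7,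
      15), (9, 18)], [(4, 15), (6, 12), (7, 12), (9, 15)], [(4, 15), (6, 12), (7, 12), (9, 15)],
      [(4, 18), (6, 15), (7, 15), (9, 18)], [(1, 15)], [(10, 16)], [(11, 16)]]
     [[0, 0, 0, 3, 0, 0]]
     (.cons (.lp [6, 8, 8, 8, 6, 8] [] [-3, -3, -4, -4, -4, -4, -4, -4, -3, -3, -4, -4] 24 5
      [[(8, 6)], [(0, 6), (2, 7), (3, 7), (5, 7)], [(0, 7), (2, 8), (3, 8), (5, 8)], [(0, 7), (2,
      8), (3, 8), (5, 8)], [(0, 7), (2, 8), (3, 8), (5, 8)], [(4, 8), (6, 8), (7, 8), (9, 7)], [(4,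
      8), (6, 8), (7, 8), (9, 7)], [(4, 8), (6, 8), (7, 8), (9, 7)], [(4, 7), (6, 7), (7, 7), (9,
      6)], [(1, 6)], [(10, 8)], [(11, 8)]]
      [[1, 0, 1, 0, 1, 0]]
      (.cons (.leaf 2 0 [(1, [-3, -1, -1, 3]), (1, [0, 1, 0, 0]), (1, [0, 0, 1, 0])])
      .nil))
     .nil))
    .nil))
   (.lp [6, 8, 8, 8, 6, 6] [] [-3, -3, -4, -4, -4, -4, -4, -4, -3, -3, -3, -3] 24 5
    [[(11, 6)], [(0, 6), (2, 7), (3, 7), (5, 7)], [(0, 7), (2, 8), (3, 8), (5, 8)], [(0, 7), (2,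
      8), (3, 8), (5, 8)], [(0, 7), (2, 8), (3, 8), (5, 8)], [(4, 8), (6, 8), (7, 8), (9, 7)], [(4,
      8), (6, 8), (7, 8), (9, 7)], [(4, 8), (6, 8), (7, 8), (9, 7)], [(4, 7), (6, 7), (7, 7), (9,
      6)], [(10, 6)], [(1, 6)], [(8, 6)]]
    []
    .nil))
  (.splitT 4
   (.lp [18, 16, 12, 16, 18, 12] [] [-9, -9, -8, -8, -6, -6, -8, -8, -9, -9, -6, -6] 48 5
    [[(1, 18), (8, 18), (10, 15), (11, 15)], [(0, 18), (2, 17), (3, 17), (5, 15)], [(0, 17), (2,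
      16), (3, 16), (5, 14)], [(0, 17), (2, 16), (3, 16), (5, 14)], [(0, 15), (2, 14), (3, 14), (5,
      12)], [(9, 15)], [(6, 16)], [(7, 16)], [(4, 15)], [(1, 18), (8, 18), (10, 15), (11, 15)],
      [(1, 15), (8, 15), (10, 12), (11, 12)], [(1, 15), (8, 15), (10, 12), (11, 12)]]
    [[0, 0, 0, 0, 0, 3]]
    (.cons (.lp [8, 8, 6, 6, 10, 8] [] [-4, -4, -4, -4, -3, -3, -3, -3, -5, -5, -4, -4] 24 5
     [[(1, 8), (8, 9), (10, 8), (11, 8)], [(0, 8), (2, 8), (3, 8), (5, 7)], [(0, 8), (2, 8), (3,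
      8), (5, 7)], [(0, 8), (2, 8), (3, 8), (5, 7)], [(0, 7), (2, 7), (3, 7), (5, 6)], [(9, 8)],
      [(6, 6)], [(7, 6)], [(4, 8)], [(1, 9), (8, 10), (10, 9), (11, 9)], [(1, 8), (8, 9), (10, 8),
      (11, 8)], [(1, 8), (8, 9), (10, 8), (11, 8)]]
     [[0, 0, 0, 3, 0, 0]]
     (.cons (.lp [8, 8, 6, 8, 6, 8] [] [-4, -4, -4, -4, -3, -3, -4, -4, -3, -3, -4, -4] 24 5
      [[(1, 8), (8, 7), (10, 8), (11, 8)], [(0, 8), (2, 8), (3, 8), (5, 7)], [(0, 8), (2, 8), (3,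
      8), (5, 7)], [(0, 8), (2, 8), (3, 8), (5, 7)], [(0, 7), (2, 7), (3, 7), (5, 6)], [(9, 6)],
      [(6, 8)], [(7, 8)], [(4, 6)], [(1, 7), (8, 6), (10, 7), (11, 7)], [(1, 8), (8, 7), (10, 8),
      (11, 8)], [(1, 8), (8, 7), (10, 8), (11, 8)]]
      [[1, 0, 1, 0, 1, 0]]
      (.cons (.leaf 2 0 [(1, [-3, -1, -1, 3]), (1, [0, 1, 0, 0]), (1, [0, 0, 1, 0])])
      .nil))
     .nil))
    .nil))
   (.lp [12, 8, 6, 6, 6, 8] [] [-6, -6, -4, -4, -3, -3, -3, -3, -3, -3, -4, -4] 24 5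
    [[(8, 9)], [(0, 12), (2, 10), (3, 10), (5, 9)], [(0, 10), (2, 8), (3, 8), (5, 7)], [(0, 10),
      (2, 8), (3, 8), (5, 7)], [(0, 9), (2, 7), (3, 7), (5, 6)], [(9, 6)], [(6, 6)], [(7, 6)], [(4,
      6)], [(1, 9)], [(10, 8)], [(11, 8)]]
    [[0, 0, 0, 3, 0, 0]]
    (.cons (.lp [6, 8, 6, 8, 6, 8] [] [-3, -3, -4, -4, -3, -3, -4, -4, -3, -3, -4, -4] 24 5
     [[(8, 6)], [(0, 6), (2, 7), (3, 7), (5, 6)], [(0, 7), (2, 8), (3, 8), (5, 7)], [(0, 7), (2,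
      8), (3, 8), (5, 7)], [(0, 6), (2, 7), (3, 7), (5, 6)], [(9, 6)], [(6, 8)], [(7, 8)], [(4,
      6)], [(1, 6)], [(10, 8)], [(11, 8)]]
     [[1, 0, 1, 0, 1, 0]]
     (.cons (.lp [12, 8, 6, 8, 6, 6] [] [-6, -6, -4, -4, -3, -3, -4, -4, -3, -3, -3, -3] 24 5
      [[(8, 9)], [(0, 12), (2, 10), (3, 10), (5, 9)], [(0, 10), (2, 8), (3, 8), (5, 7)], [(0, 10),
      (2, 8), (3, 8), (5, 7)], [(0, 9), (2, 7), (3, 7), (5, 6)], [(9, 6)], [(6, 8)], [(7, 8)], [(4,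
      6)], [(1, 9)], [(10, 6)], [(11, 6)]]
      [[0, 0, 0, 0, 0, 3]]
      (.cons (.leaf 2 0 [(1, [-1, -3, -1, 3]), (1, [0, 0, 1, 0]), (1, [1, 0, 0, 0])])
      .nil))
     .nil))
    .nil))
   (.lp [6, 8, 6, 8, 6, 6] [] [-3, -3, -4, -4, -3, -3, -4, -4, -3, -3, -3, -3] 24 5
    [[(11, 6)], [(0, 6), (2, 7), (3, 7), (5, 6)], [(0, 7), (2, 8), (3, 8), (5, 7)], [(0, 7), (2,
      8), (3, 8), (5, 7)], [(0, 6), (2, 7), (3, 7), (5, 6)], [(9, 6)], [(6, 8)], [(7, 8)], [(4,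
      6)], [(10, 6)], [(1, 6)], [(8, 6)]]
    []
    .nil))
  (.splitT 4
   (.lp [8, 8, 6, 6, 6, 8] [] [-4, -4, -4, -4, -3, -3, -3, -3, -3, -3, -4, -4] 24 5
    [[(1, 8), (8, 7), (10, 8), (11, 8)], [(0, 8), (2, 8), (3, 8), (5, 7)], [(0, 8), (2, 8), (3, 8),
      (5, 7)], [(0, 8), (2, 8), (3, 8), (5, 7)], [(0, 7), (2, 7), (3, 7), (5, 6)], [(6, 6)], [(9,
      6)], [(4, 6)], [(7, 6)], [(1, 7), (8, 6), (10, 7), (11, 7)], [(1, 8), (8, 7), (10, 8), (11,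
      8)], [(1, 8), (8, 7), (10, 8), (11, 8)]]
    []
    .nil)
   (.lp [6, 8, 6, 6, 6, 8] [] [-3, -3, -4, -4, -3, -3, -3, -3, -3, -3, -4, -4] 24 5
    [[(8, 6)], [(0, 6), (2, 7), (3, 7), (5, 6)], [(0, 7), (2, 8), (3, 8), (5, 7)], [(0, 7), (2, 8),
      (3, 8), (5, 7)], [(0, 6), (2, 7), (3, 7), (5, 6)], [(6, 6)], [(9, 6)], [(4, 6)], [(7, 6)],
      [(1, 6)], [(10, 8)], [(11, 8)]]
    []
    .nil)
   (.lp [6, 8, 6, 6, 6, 6] [] [-3, -3, -4, -4, -3, -3, -3, -3, -3, -3, -3, -3] 24 5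
    [[(11, 6)], [(0, 6), (2, 7), (3, 7), (5, 6)], [(0, 7), (2, 8), (3, 8), (5, 7)], [(0, 7), (2,
      8), (3, 8), (5, 7)], [(0, 6), (2, 7), (3, 7), (5, 6)], [(6, 6)], [(9, 6)], [(4, 6)], [(7,
      6)], [(10, 6)], [(1, 6)], [(8, 6)]]
    []
    .nil)))
 (.splitT 2
  (.splitT 4
   (.lp [6, 6, 6, 8, 12, 8] [] [-3, -3, -3, -3, -3, -3, -4, -4, -6, -6, -4, -4] 24 5
    [[(1, 6), (8, 9), (10, 7), (11, 7)], [(5, 6)], [(2, 6)], [(3, 6)], [(0, 6)], [(4, 6), (6, 7),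
      (7, 7), (9, 9)], [(4, 7), (6, 8), (7, 8), (9, 10)], [(4, 7), (6, 8), (7, 8), (9, 10)], [(4,
      9), (6, 10), (7, 10), (9, 12)], [(1, 9), (8, 12), (10, 10), (11, 10)], [(1, 7), (8, 10), (10,
      8), (11, 8)], [(1, 7), (8, 10), (10, 8), (11, 8)]]
    [[0, 3, 0, 0, 0, 0]]
    (.cons (.lp [6, 8, 6, 8, 12, 6] [] [-3, -3, -4, -4, -3, -3, -4, -4, -6, -6, -3, -3] 24 5
     [[(1, 6), (8, 9), (10, 6), (11, 6)], [(5, 6)], [(2, 8)], [(3, 8)], [(0, 6)], [(4, 6), (6, 7),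
      (7, 7), (9, 9)], [(4, 7), (6, 8), (7, 8), (9, 10)], [(4, 7), (6, 8), (7, 8), (9, 10)], [(4,
      9), (6, 10), (7, 10), (9, 12)], [(1, 9), (8, 12), (10, 9), (11, 9)], [(1, 6), (8, 9), (10,
      6), (11, 6)], [(1, 6), (8, 9), (10, 6), (11, 6)]]
     [[0, 0, 0, 0, 0, 3]]
     (.cons (.lp [6, 8, 6, 6, 12, 8] [] [-3, -3, -4, -4, -3, -3, -3, -3, -6, -6, -4, -4] 24 5
      [[(1, 6), (8, 9), (10, 7), (11, 7)], [(5, 6)], [(2, 8)], [(3, 8)], [(0, 6)], [(4, 6), (6, 6),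
      (7, 6), (9, 9)], [(4, 6), (6, 6), (7, 6), (9, 9)], [(4, 6), (6, 6), (7, 6), (9, 9)], [(4, 9),
      (6, 9), (7, 9), (9, 12)], [(1, 9), (8, 12), (10, 10), (11, 10)], [(1, 7), (8, 10), (10, 8),
      (11, 8)], [(1, 7), (8, 10), (10, 8), (11, 8)]]
      [[0, 0, 0, 3, 0, 0]]
      (.cons (.leaf 2 0 [(1, [0, 0, 1, 0]), (1, [1, 0, 0, 0]), (1, [0, 1, 0, 0])])
      .nil))
     .nil))
    .nil))
   (.lp [6, 8, 6, 8, 6, 8] [] [-3, -3, -4, -4, -3, -3, -4, -4, -3, -3, -4, -4] 24 5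
    [[(8, 6)], [(5, 6)], [(2, 8)], [(3, 8)], [(0, 6)], [(4, 6), (6, 7), (7, 7), (9, 6)], [(4, 7),
      (6, 8), (7, 8), (9, 7)], [(4, 7), (6, 8), (7, 8), (9, 7)], [(4, 6), (6, 7), (7, 7), (9, 6)],
      [(1, 6)], [(10, 8)], [(11, 8)]]
    [[1, 0, 1, 0, 1, 0]]
    (.cons (.lp [12, 8, 6, 8, 6, 6] [] [-6, -6, -4, -4, -3, -3, -4, -4, -3, -3, -3, -3] 24 5
     [[(8, 9)], [(5, 9)], [(2, 8)], [(3, 8)], [(0, 9)], [(4, 6), (6, 7), (7, 7), (9, 6)], [(4, 7),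
      (6, 8), (7, 8), (9, 7)], [(4, 7), (6, 8), (7, 8), (9, 7)], [(4, 6), (6, 7), (7, 7), (9, 6)],
      [(1, 9)], [(10, 6)], [(11, 6)]]
     [[0, 0, 0, 0, 0, 3]]
     (.cons (.lp [12, 8, 6, 6, 6, 8] [] [-6, -6, -4, -4, -3, -3, -3, -3, -3, -3, -4, -4] 24 5
      [[(8, 9)], [(5, 9)], [(2, 8)], [(3, 8)], [(0, 9)], [(4, 6), (6, 6), (7, 6), (9, 6)], [(4, 6),
      (6, 6), (7, 6), (9, 6)], [(4, 6), (6, 6), (7, 6), (9, 6)], [(4, 6), (6, 6), (7, 6), (9, 6)],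
      [(1, 9)], [(10, 8)], [(11, 8)]]
      [[0, 0, 0, 3, 0, 0]]
      (.cons (.leaf 2 0 [(1, [-1, -1, -3, 3]), (1, [1, 0, 0, 0]), (1, [0, 1, 0, 0])])
      .nil))
     .nil))
    .nil))
   (.lp [6, 8, 6, 8, 6, 6] [] [-3, -3, -4, -4, -3, -3, -4, -4, -3, -3, -3, -3] 24 5
    [[(11, 6)], [(5, 6)], [(2, 8)], [(3, 8)], [(0, 6)], [(4, 6), (6, 7), (7, 7), (9, 6)], [(4, 7),
      (6, 8), (7, 8), (9, 7)], [(4, 7), (6, 8), (7, 8), (9, 7)], [(4, 6), (6, 7), (7, 7), (9, 6)],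
      [(10, 6)], [(1, 6)], [(8, 6)]]
    []
    .nil))
  (.splitT 4
   (.lp [12, 8, 0, 6, 12, 8] [] [-6, -6, -4, -4, 0, 0, -3, -3, -6, -6, -4, -4] 24 5
    [[(1, 12), (8, 12), (10, 10), (11, 10)], [(5, 6)], [(2, 8)], [(3, 8)], [(0, 6)], [(9, 6)], [(6,
      6)], [(7, 6)], [(4, 6)], [(1, 12), (8, 12), (10, 10), (11, 10)], [(1, 10), (8, 10), (10, 8),
      (11, 8)], [(1, 10), (8, 10), (10, 8), (11, 8)]]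
    [[0, 0, 0, 3, 0, 0]]
    (.cons (.lp [6, 8, 6, 8, 6, 8] [] [-3, -3, -4, -4, -3, -3, -4, -4, -3, -3, -4, -4] 24 5
     [[(1, 6), (8, 6), (10, 7), (11, 7)], [(5, 6)], [(2, 8)], [(3, 8)], [(0, 6)], [(9, 6)], [(6,
      8)], [(7, 8)], [(4, 6)], [(1, 6), (8, 6), (10, 7), (11, 7)], [(1, 7), (8, 7), (10, 8), (11,
      8)], [(1, 7), (8, 7), (10, 8), (11, 8)]]
     [[1, 0, 1, 0, 1, 0]]
     (.cons (.lp [12, 8, 0, 8, 12, 6] [] [-6, -6, -4, -4, 0, 0, -4, -4, -6, -6, -3, -3] 24 5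
      [[(1, 12), (8, 12), (10, 9), (11, 9)], [(5, 6)], [(2, 8)], [(3, 8)], [(0, 6)], [(9, 6)], [(6,
      8)], [(7, 8)], [(4, 6)], [(1, 12), (8, 12), (10, 9), (11, 9)], [(1, 9), (8, 9), (10, 6), (11,
      6)], [(1, 9), (8, 9), (10, 6), (11, 6)]]
      [[0, 0, 0, 0, 0, 3]]
      (.cons (.leaf 2 0 [(1, [-1, -3, -1, 3]), (1, [0, 0, 1, 0]), (1, [1, 0, 0, 0])])
      .nil))
     .nil))
    .nil))
   (.lp [6, 8, 6, 8, 6, 8] [] [-3, -3, -4, -4, -3, -3, -4, -4, -3, -3, -4, -4] 24 5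
    [[(8, 6)], [(5, 6)], [(2, 8)], [(3, 8)], [(0, 6)], [(9, 6)], [(6, 8)], [(7, 8)], [(4, 6)], [(1,
      6)], [(10, 8)], [(11, 8)]]
    [[1, 0, 1, 0, 1, 0]]
    (.cons (.lp [12, 6, 0, 8, 12, 8] [] [-6, -6, -3, -3, 0, 0, -4, -4, -6, -6, -4, -4] 24 5
     [[(8, 12)], [(5, 6)], [(2, 6)], [(3, 6)], [(0, 6)], [(9, 6)], [(6, 8)], [(7, 8)], [(4, 6)],
      [(1, 12)], [(10, 8)], [(11, 8)]]
     [[0, 3, 0, 0, 0, 0]]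
     (.cons (.lp [12, 8, 0, 6, 12, 8] [] [-6, -6, -4, -4, 0, 0, -3, -3, -6, -6, -4, -4] 24 5
      [[(8, 12)], [(5, 6)], [(2, 8)], [(3, 8)], [(0, 6)], [(9, 6)], [(6, 6)], [(7, 6)], [(4, 6)],
      [(1, 12)], [(10, 8)], [(11, 8)]]
      [[0, 0, 0, 3, 0, 0]]
      (.cons (.leaf 2 0 [(1, [0, 1, 0, 0]), (1, [1, 0, 0, 0]), (1, [-1, -1, -3, 3])])
      .nil))
     .nil))
    .nil))
   (.lp [6, 4, 0, 4, 6, 0] [] [-3, -3, -2, -2, 0, 0, -2, -2, -3, -3, 0, 0] 12 5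
    [[(11, 3)], [(5, 3)], [(2, 4)], [(3, 4)], [(0, 3)], [(9, 3)], [(6, 4)], [(7, 4)], [(4, 3)],
      [(10, 3)], [(1, 3)], [(8, 3)]]
    []
    .nil))
  (.splitT 4
   (.lp [6, 8, 6, 6, 6, 8] [] [-3, -3, -4, -4, -3, -3, -3, -3, -3, -3, -4, -4] 24 5
    [[(1, 6), (8, 6), (10, 7), (11, 7)], [(5, 6)], [(2, 8)], [(3, 8)], [(0, 6)], [(6, 6)], [(9,
      6)], [(4, 6)], [(7, 6)], [(1, 6), (8, 6), (10, 7), (11, 7)], [(1, 7), (8, 7), (10, 8), (11,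
      8)], [(1, 7), (8, 7), (10, 8), (11, 8)]]
    []
    .nil)
   (.lp [6, 4, 0, 6, 0, 4] [] [-3, -3, -2, -2, 0, 0, -3, -3, 0, 0, -2, -2] 12 5
    [[(8, 3)], [(5, 3)], [(2, 4)], [(3, 4)], [(0, 3)], [(6, 3)], [(9, 3)], [(4, 3)], [(7, 3)], [(1,
      3)], [(10, 4)], [(11, 4)]]
    []
    .nil)
   (.lp [6, 8, 6, 6, 6, 6] [] [-3, -3, -4, -4, -3, -3, -3, -3, -3, -3, -3, -3] 24 5
    [[(11, 6)], [(5, 6)], [(2, 8)], [(3, 8)], [(0, 6)], [(6, 6)], [(9, 6)], [(4, 6)], [(7, 6)],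
      [(10, 6)], [(1, 6)], [(8, 6)]]
    []
    .nil)))
 (.splitT 2
  (.splitT 4
   (.lp [6, 6, 6, 8, 8, 8] [] [-3, -3, -3, -3, -3, -3, -4, -4, -4, -4, -4, -4] 24 5
    [[(1, 6), (8, 7), (10, 7), (11, 7)], [(2, 6)], [(5, 6)], [(0, 6)], [(3, 6)], [(4, 6), (6, 7),
      (7, 7), (9, 7)], [(4, 7), (6, 8), (7, 8), (9, 8)], [(4, 7), (6, 8), (7, 8), (9, 8)], [(4, 7),
      (6, 8), (7, 8), (9, 8)], [(1, 7), (8, 8), (10, 8), (11, 8)], [(1, 7), (8, 8), (10, 8), (11,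
      8)], [(1, 7), (8, 8), (10, 8), (11, 8)]]
    []
    .nil)
   (.lp [6, 6, 6, 8, 6, 8] [] [-3, -3, -3, -3, -3, -3, -4, -4, -3, -3, -4, -4] 24 5
    [[(8, 6)], [(2, 6)], [(5, 6)], [(0, 6)], [(3, 6)], [(4, 6), (6, 7), (7, 7), (9, 6)], [(4, 7),
      (6, 8), (7, 8), (9, 7)], [(4, 7), (6, 8), (7, 8), (9, 7)], [(4, 6), (6, 7), (7, 7), (9, 6)],
      [(1, 6)], [(10, 8)], [(11, 8)]]
    []
    .nil)
   (.lp [6, 6, 6, 8, 6, 6] [] [-3, -3, -3, -3, -3, -3, -4, -4, -3, -3, -3, -3] 24 5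
    [[(11, 6)], [(2, 6)], [(5, 6)], [(0, 6)], [(3, 6)], [(4, 6), (6, 7), (7, 7), (9, 6)], [(4, 7),
      (6, 8), (7, 8), (9, 7)], [(4, 7), (6, 8), (7, 8), (9, 7)], [(4, 6), (6, 7), (7, 7), (9, 6)],
      [(10, 6)], [(1, 6)], [(8, 6)]]
    []
    .nil))
  (.splitT 4
   (.lp [6, 6, 6, 8, 6, 8] [] [-3, -3, -3, -3, -3, -3, -4, -4, -3, -3, -4, -4] 24 5
    [[(1, 6), (8, 6), (10, 7), (11, 7)], [(2, 6)], [(5, 6)], [(0, 6)], [(3, 6)], [(9, 6)], [(6,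
      8)], [(7, 8)], [(4, 6)], [(1, 6), (8, 6), (10, 7), (11, 7)], [(1, 7), (8, 7), (10, 8), (11,
      8)], [(1, 7), (8, 7), (10, 8), (11, 8)]]
    []
    .nil)
   (.lp [0, 6, 0, 4, 6, 4] [] [0, 0, -3, -3, 0, 0, -2, -2, -3, -3, -2, -2] 12 5
    [[(8, 3)], [(2, 3)], [(5, 3)], [(0, 3)], [(3, 3)], [(9, 3)], [(6, 4)], [(7, 4)], [(4, 3)], [(1,
      3)], [(10, 4)], [(11, 4)]]
    []
    .nil)
   (.lp [6, 6, 6, 8, 6, 6] [] [-3, -3, -3, -3, -3, -3, -4, -4, -3, -3, -3, -3] 24 5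
    [[(11, 6)], [(2, 6)], [(5, 6)], [(0, 6)], [(3, 6)], [(9, 6)], [(6, 8)], [(7, 8)], [(4, 6)],
      [(10, 6)], [(1, 6)], [(8, 6)]]
    []
    .nil))
  (.splitT 4
   (.lp [6, 6, 6, 6, 6, 8] [] [-3, -3, -3, -3, -3, -3, -3, -3, -3, -3, -4, -4] 24 5
    [[(1, 6), (8, 6), (10, 7), (11, 7)], [(2, 6)], [(5, 6)], [(0, 6)], [(3, 6)], [(6, 6)], [(9,
      6)], [(4, 6)], [(7, 6)], [(1, 6), (8, 6), (10, 7), (11, 7)], [(1, 7), (8, 7), (10, 8), (11,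
      8)], [(1, 7), (8, 7), (10, 8), (11, 8)]]
    []
    .nil)
   (.lp [6, 6, 6, 6, 6, 8] [] [-3, -3, -3, -3, -3, -3, -3, -3, -3, -3, -4, -4] 24 5
    [[(8, 6)], [(2, 6)], [(5, 6)], [(0, 6)], [(3, 6)], [(6, 6)], [(9, 6)], [(4, 6)], [(7, 6)], [(1,
      6)], [(10, 8)], [(11, 8)]]
    []
    .nil)
   (.lp [2, 0, 2, 0, 2, 0] [] [-1, -1, 0, 0, -1, -1, 0, 0, -1, -1, 0, 0] 4 5
    [[(11, 1)], [(2, 1)], [(5, 1)], [(0, 1)], [(3, 1)], [(6, 1)], [(9, 1)], [(4, 1)], [(7, 1)],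
      [(10, 1)], [(1, 1)], [(8, 1)]]
    []
    .nil)))

/-- classes `001212` -/
def tr6_14 : Tr :=
  .splitT 0
 (.splitT 2
  (.splitT 3
   (.lp [10, 8, 8, 6, 6, 6] [] [-5, -5, -4, -4, -4, -4, -3, -3, -3, -3, -3, -3] 24 5
    [[(1, 10), (6, 8), (9, 8), (10, 8)], [(0, 10), (2, 9), (3, 9), (5, 9)], [(0, 9), (2, 8), (3,
      8), (5, 8)], [(0, 9), (2, 8), (3, 8), (5, 8)], [(0, 9), (2, 8), (3, 8), (5, 8)], [(4, 8), (7,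
      7), (8, 7), (11, 7)], [(4, 7), (7, 6), (8, 6), (11, 6)], [(1, 8), (6, 6), (9, 6), (10, 6)],
      [(1, 8), (6, 6), (9, 6), (10, 6)], [(4, 7), (7, 6), (8, 6), (11, 6)], [(4, 7), (7, 6), (8,
      6), (11, 6)], [(1, 8), (6, 6), (9, 6), (10, 6)]]
    []
    .nil)
   (.lp [6, 8, 8, 10, 6, 6] [] [-3, -3, -4, -4, -4, -4, -5, -5, -3, -3, -3, -3] 24 5
    [[(6, 8)], [(0, 6), (2, 7), (3, 7), (5, 7)], [(0, 7), (2, 8), (3, 8), (5, 8)], [(0, 7), (2, 8),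
      (3, 8), (5, 8)], [(0, 7), (2, 8), (3, 8), (5, 8)], [(4, 8), (7, 9), (8, 7), (11, 7)], [(4,
      9), (7, 10), (8, 8), (11, 8)], [(1, 8)], [(10, 6)], [(4, 7), (7, 8), (8, 6), (11, 6)], [(4,
      7), (7, 8), (8, 6), (11, 6)], [(9, 6)]]
    []
    .nil)
   (.lp [6, 8, 8, 6, 10, 6] [] [-3, -3, -4, -4, -4, -4, -3, -3, -5, -5, -3, -3] 24 5
    [[(9, 8)], [(0, 6), (2, 7), (3, 7), (5, 7)], [(0, 7), (2, 8), (3, 8), (5, 8)], [(0, 7), (2, 8),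
      (3, 8), (5, 8)], [(0, 7), (2, 8), (3, 8), (5, 8)], [(4, 8), (7, 7), (8, 9), (11, 7)], [(4,
      7), (7, 6), (8, 8), (11, 6)], [(10, 6)], [(1, 8)], [(4, 9), (7, 8), (8, 10), (11, 8)], [(4,
      7), (7, 6), (8, 8), (11, 6)], [(6, 6)]]
    []
    .nil))
  (.splitT 3
   (.lp [8, 8, 6, 6, 6, 10] [] [-4, -4, -4, -4, -3, -3, -3, -3, -3, -3, -5, -5] 24 5
    [[(1, 8), (6, 7), (9, 7), (10, 9)], [(0, 8), (2, 8), (3, 8), (5, 7)], [(0, 8), (2, 8), (3, 8),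
      (5, 7)], [(0, 8), (2, 8), (3, 8), (5, 7)], [(0, 7), (2, 7), (3, 7), (5, 6)], [(11, 8)], [(8,
      6)], [(1, 7), (6, 6), (9, 6), (10, 8)], [(1, 7), (6, 6), (9, 6), (10, 8)], [(7, 6)], [(4,
      8)], [(1, 9), (6, 8), (9, 8), (10, 10)]]
    []
    .nil)
   (.lp [6, 8, 6, 6, 6, 6] [] [-3, -3, -4, -4, -3, -3, -3, -3, -3, -3, -3, -3] 24 5
    [[(6, 6)], [(0, 6), (2, 7), (3, 7), (5, 6)], [(0, 7), (2, 8), (3, 8), (5, 7)], [(0, 7), (2, 8),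
      (3, 8), (5, 7)], [(0, 6), (2, 7), (3, 7), (5, 6)], [(11, 6)], [(8, 6)], [(1, 6)], [(10, 6)],
      [(7, 6)], [(4, 6)], [(9, 6)]]
    []
    .nil)
   (.lp [6, 8, 6, 6, 6, 6] [] [-3, -3, -4, -4, -3, -3, -3, -3, -3, -3, -3, -3] 24 5
    [[(9, 6)], [(0, 6), (2, 7), (3, 7), (5, 6)], [(0, 7), (2, 8), (3, 8), (5, 7)], [(0, 7), (2, 8),
      (3, 8), (5, 7)], [(0, 6), (2, 7), (3, 7), (5, 6)], [(11, 6)], [(8, 6)], [(10, 6)], [(1, 6)],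
      [(7, 6)], [(4, 6)], [(6, 6)]]
    []
    .nil))
  (.splitT 3
   (.lp [8, 8, 6, 6, 10, 6] [] [-4, -4, -4, -4, -3, -3, -3, -3, -5, -5, -3, -3] 24 5
    [[(1, 8), (6, 7), (9, 9), (10, 7)], [(0, 8), (2, 8), (3, 8), (5, 7)], [(0, 8), (2, 8), (3, 8),
      (5, 7)], [(0, 8), (2, 8), (3, 8), (5, 7)], [(0, 7), (2, 7), (3, 7), (5, 6)], [(8, 8)], [(11,
      6)], [(1, 7), (6, 6), (9, 8), (10, 6)], [(1, 9), (6, 8), (9, 10), (10, 8)], [(4, 8)], [(7,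
      6)], [(1, 7), (6, 6), (9, 8), (10, 6)]]
    []
    .nil)
   (.lp [6, 8, 6, 6, 6, 6] [] [-3, -3, -4, -4, -3, -3, -3, -3, -3, -3, -3, -3] 24 5
    [[(6, 6)], [(0, 6), (2, 7), (3, 7), (5, 6)], [(0, 7), (2, 8), (3, 8), (5, 7)], [(0, 7), (2, 8),
      (3, 8), (5, 7)], [(0, 6), (2, 7), (3, 7), (5, 6)], [(8, 6)], [(11, 6)], [(1, 6)], [(10, 6)],
      [(4, 6)], [(7, 6)], [(9, 6)]]
    []
    .nil)
   (.lp [12, 8, 6, 0, 6, 12] [] [-6, -6, -4, -4, -3, -3, 0, 0, -3, -3, -6, -6] 24 5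
    [[(9, 9)], [(0, 12), (2, 10), (3, 10), (5, 9)], [(0, 10), (2, 8), (3, 8), (5, 7)], [(0, 10),
      (2, 8), (3, 8), (5, 7)], [(0, 9), (2, 7), (3, 7), (5, 6)], [(8, 6)], [(11, 6)], [(10, 6)],
      [(1, 9)], [(4, 6)], [(7, 6)], [(6, 6)]]
    []
    .nil)))
 (.splitT 2
  (.splitT 3
   (.lp [6, 8, 12, 6, 6, 6] [] [-3, -3, -4, -4, -6, -6, -3, -3, -3, -3, -3, -3] 24 5
    [[(1, 6), (6, 6), (9, 6), (10, 6)], [(5, 9)], [(2, 8)], [(3, 8)], [(0, 9)], [(4, 12), (7, 9),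
      (8, 9), (11, 9)], [(4, 9), (7, 6), (8, 6), (11, 6)], [(1, 6), (6, 6), (9, 6), (10, 6)], [(1,
      6), (6, 6), (9, 6), (10, 6)], [(4, 9), (7, 6), (8, 6), (11, 6)], [(4, 9), (7, 6), (8, 6),
      (11, 6)], [(1, 6), (6, 6), (9, 6), (10, 6)]]
    []
    .nil)
   (.lp [12, 8, 6, 6, 6, 6] [] [-6, -6, -4, -4, -3, -3, -3, -3, -3, -3, -3, -3] 24 5
    [[(6, 9)], [(5, 9)], [(2, 8)], [(3, 8)], [(0, 9)], [(4, 6), (7, 6), (8, 6), (11, 6)], [(4, 6),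
      (7, 6), (8, 6), (11, 6)], [(1, 9)], [(10, 6)], [(4, 6), (7, 6), (8, 6), (11, 6)], [(4, 6),
      (7, 6), (8, 6), (11, 6)], [(9, 6)]]
    []
    .nil)
   (.lp [12, 8, 6, 6, 6, 6] [] [-6, -6, -4, -4, -3, -3, -3, -3, -3, -3, -3, -3] 24 5
    [[(9, 9)], [(5, 9)], [(2, 8)], [(3, 8)], [(0, 9)], [(4, 6), (7, 6), (8, 6), (11, 6)], [(4, 6),
      (7, 6), (8, 6), (11, 6)], [(10, 6)], [(1, 9)], [(4, 6), (7, 6), (8, 6), (11, 6)], [(4, 6),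
      (7, 6), (8, 6), (11, 6)], [(6, 6)]]
    []
    .nil))
  (.splitT 3
   (.lp [12, 8, 0, 6, 6, 12] [] [-6, -6, -4, -4, 0, 0, -3, -3, -3, -3, -6, -6] 24 5
    [[(1, 12), (6, 9), (9, 9), (10, 12)], [(5, 6)], [(2, 8)], [(3, 8)], [(0, 6)], [(11, 6)], [(8,
      6)], [(1, 9), (6, 6), (9, 6), (10, 9)], [(1, 9), (6, 6), (9, 6), (10, 9)], [(7, 6)], [(4,
      6)], [(1, 12), (6, 9), (9, 9), (10, 12)]]
    []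
    .nil)
   (.lp [6, 8, 6, 6, 6, 6] [] [-3, -3, -4, -4, -3, -3, -3, -3, -3, -3, -3, -3] 24 5
    [[(6, 6)], [(5, 6)], [(2, 8)], [(3, 8)], [(0, 6)], [(11, 6)], [(8, 6)], [(1, 6)], [(10, 6)],
      [(7, 6)], [(4, 6)], [(9, 6)]]
    []
    .nil)
   (.lp [6, 8, 6, 6, 6, 6] [] [-3, -3, -4, -4, -3, -3, -3, -3, -3, -3, -3, -3] 24 5
    [[(9, 6)], [(5, 6)], [(2, 8)], [(3, 8)], [(0, 6)], [(11, 6)], [(8, 6)], [(10, 6)], [(1, 6)],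
      [(7, 6)], [(4, 6)], [(6, 6)]]
    []
    .nil))
  (.splitT 3
   (.lp [12, 8, 0, 6, 12, 6] [] [-6, -6, -4, -4, 0, 0, -3, -3, -6, -6, -3, -3] 24 5
    [[(1, 12), (6, 9), (9, 12), (10, 9)], [(5, 6)], [(2, 8)], [(3, 8)], [(0, 6)], [(8, 6)], [(11,
      6)], [(1, 9), (6, 6), (9, 9), (10, 6)], [(1, 12), (6, 9), (9, 12), (10, 9)], [(4, 6)], [(7,
      6)], [(1, 9), (6, 6), (9, 9), (10, 6)]]
    []
    .nil)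
   (.lp [6, 8, 6, 6, 6, 6] [] [-3, -3, -4, -4, -3, -3, -3, -3, -3, -3, -3, -3] 24 5
    [[(6, 6)], [(5, 6)], [(2, 8)], [(3, 8)], [(0, 6)], [(8, 6)], [(11, 6)], [(1, 6)], [(10, 6)],
      [(4, 6)], [(7, 6)], [(9, 6)]]
    []
    .nil)
   (.lp [6, 4, 0, 6, 6, 0] [] [-3, -3, -2, -2, 0, 0, -3, -3, -3, -3, 0, 0] 12 5
    [[(9, 6)], [(5, 3)], [(2, 4)], [(3, 4)], [(0, 3)], [(8, 3)], [(11, 3)], [(10, 3)], [(1, 6)],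
      [(4, 3)], [(7, 3)], [(6, 3)]]
    []
    .nil)))
 (.splitT 2
  (.splitT 3
   (.lp [2, 2, 2, 2, 2, 2] [] [-1, -1, -1, -1, -1, -1, -1, -1, -1, -1, -1, -1] 8 5
    [[(1, 2), (6, 2), (9, 2), (10, 2)], [(2, 2)], [(5, 2)], [(0, 2)], [(3, 2)], [(4, 2), (7, 2),
      (8, 2), (11, 2)], [(4, 2), (7, 2), (8, 2), (11, 2)], [(1, 2), (6, 2), (9, 2), (10, 2)], [(1,
      2), (6, 2), (9, 2), (10, 2)], [(4, 2), (7, 2), (8, 2), (11, 2)], [(4, 2), (7, 2), (8, 2),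
      (11, 2)], [(1, 2), (6, 2), (9, 2), (10, 2)]]
    []
    .nil)
   (.lp [2, 2, 2, 2, 2, 2] [] [-1, -1, -1, -1, -1, -1, -1, -1, -1, -1, -1, -1] 8 5
    [[(6, 2)], [(2, 2)], [(5, 2)], [(0, 2)], [(3, 2)], [(4, 2), (7, 2), (8, 2), (11, 2)], [(4, 2),
      (7, 2), (8, 2), (11, 2)], [(1, 2)], [(10, 2)], [(4, 2), (7, 2), (8, 2), (11, 2)], [(4, 2),
      (7, 2), (8, 2), (11, 2)], [(9, 2)]]
    []
    .nil)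
   (.lp [2, 2, 2, 2, 2, 2] [] [-1, -1, -1, -1, -1, -1, -1, -1, -1, -1, -1, -1] 8 5
    [[(9, 2)], [(2, 2)], [(5, 2)], [(0, 2)], [(3, 2)], [(4, 2), (7, 2), (8, 2), (11, 2)], [(4, 2),
      (7, 2), (8, 2), (11, 2)], [(10, 2)], [(1, 2)], [(4, 2), (7, 2), (8, 2), (11, 2)], [(4, 2),
      (7, 2), (8, 2), (11, 2)], [(6, 2)]]
    []
    .nil))
  (.splitT 3
   (.lp [2, 2, 2, 2, 2, 2] [] [-1, -1, -1, -1, -1, -1, -1, -1, -1, -1, -1, -1] 8 5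
    [[(1, 2), (6, 2), (9, 2), (10, 2)], [(2, 2)], [(5, 2)], [(0, 2)], [(3, 2)], [(11, 2)], [(8,
      2)], [(1, 2), (6, 2), (9, 2), (10, 2)], [(1, 2), (6, 2), (9, 2), (10, 2)], [(7, 2)], [(4,
      2)], [(1, 2), (6, 2), (9, 2), (10, 2)]]
    []
    .nil)
   (.lp [2, 0, 2, 0, 2, 0] [] [-1, -1, 0, 0, -1, -1, 0, 0, -1, -1, 0, 0] 4 5
    [[(6, 1)], [(2, 1)], [(5, 1)], [(0, 1)], [(3, 1)], [(11, 1)], [(8, 1)], [(1, 1)], [(10, 1)],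
      [(7, 1)], [(4, 1)], [(9, 1)]]
    []
    .nil)
   (.lp [2, 0, 2, 2, 0, 0] [] [-1, -1, 0, 0, -1, -1, -1, -1, 0, 0, 0, 0] 4 5
    [[(9, 1)], [(2, 1)], [(5, 1)], [(0, 1)], [(3, 1)], [(11, 1)], [(8, 1)], [(10, 1)], [(1, 1)],
      [(7, 1)], [(4, 1)], [(6, 1)]]
    []
    .nil))
  (.splitT 3
   (.lp [2, 2, 2, 2, 2, 2] [] [-1, -1, -1, -1, -1, -1, -1, -1, -1, -1, -1, -1] 8 5
    [[(1, 2), (6, 2), (9, 2), (10, 2)], [(2, 2)], [(5, 2)], [(0, 2)], [(3, 2)], [(8, 2)], [(11,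
      2)], [(1, 2), (6, 2), (9, 2), (10, 2)], [(1, 2), (6, 2), (9, 2), (10, 2)], [(4, 2)], [(7,
      2)], [(1, 2), (6, 2), (9, 2), (10, 2)]]
    []
    .nil)
   (.lp [0, 2, 0, 2, 2, 0] [] [0, 0, -1, -1, 0, 0, -1, -1, -1, -1, 0, 0] 4 5
    [[(6, 1)], [(2, 1)], [(5, 1)], [(0, 1)], [(3, 1)], [(8, 1)], [(11, 1)], [(1, 1)], [(10, 1)],
      [(4, 1)], [(7, 1)], [(9, 1)]]
    []
    .nil)
   (.lp [0, 2, 0, 2, 2, 0] [] [0, 0, -1, -1, 0, 0, -1, -1, -1, -1, 0, 0] 4 5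
    [[(9, 1)], [(2, 1)], [(5, 1)], [(0, 1)], [(3, 1)], [(8, 1)], [(11, 1)], [(10, 1)], [(1, 1)],
      [(4, 1)], [(7, 1)], [(6, 1)]]
    []
    .nil)))

/-- classes `001221` -/
def tr6_15 : Tr :=
  .splitT 0
 (.splitT 2
  (.splitT 3
   (.lp [8, 8, 8, 8, 8, 6] [(4, 10, 2), (11, 5, 2)] [-4, -4, -4, -4, -4, -4, -4, -4, -4, -4, -3,
      -3] 24 5
    [[(1, 8), (4, 6), (7, 8), (10, 7)], [(0, 8), (2, 8), (3, 8), (5, 8)], [(0, 8), (2, 8), (3, 8),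
      (5, 8)], [(0, 8), (2, 8), (3, 8), (5, 8)], [(0, 8), (2, 8), (3, 8), (5, 8)], [(1, 6), (4, 8),
      (7, 8), (10, 7)], [(1, 8), (4, 8), (7, 8), (10, 9)], [(6, 8), (8, 8), (9, 8), (11, 7)], [(6,
      8), (8, 8), (9, 8), (11, 7)], [(6, 8), (8, 8), (9, 8), (11, 7)], [(6, 7), (8, 7), (9, 7),
      (11, 6)], [(1, 7), (4, 7), (7, 9), (10, 6)]]
    [[1, 1, 1, 0, 0, 0], [0, 0, 0, 0, 1, 2]]
    (.cons (.leaf 0 2 [(1, [-1, 1])])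
    (.cons (.lp [8, 8, 8, 6, 8, 8] [(4, 10, 2), (11, 5, 2)] [-4, -4, -4, -4, -4, -4, -3, -3, -4,
      -4, -4, -4] 24 5
     [[(1, 8), (4, 6), (7, 7), (10, 8)], [(0, 8), (2, 8), (3, 8), (5, 8)], [(0, 8), (2, 8), (3, 8),
      (5, 8)], [(0, 8), (2, 8), (3, 8), (5, 8)], [(0, 8), (2, 8), (3, 8), (5, 8)], [(1, 6), (4, 8),
      (7, 7), (10, 8)], [(1, 7), (4, 7), (7, 6), (10, 9)], [(6, 6), (8, 7), (9, 7), (11, 7)], [(6,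
      7), (8, 8), (9, 8), (11, 8)], [(6, 7), (8, 8), (9, 8), (11, 8)], [(6, 7), (8, 8), (9, 8),
      (11, 8)], [(1, 8), (4, 8), (7, 9), (10, 8)]]
     [[1, 1, 1, 0, 0, 0], [0, 0, 0, 2, 1, 0]]
     (.cons (.leaf 0 2 [(1, [-1, 0, 1])])
     (.cons (.leaf 0 2 [(2, [1, 1, 0])])
     .nil)))
    .nil)))
   (.lp [6, 12, 6, 6, 8, 6] [] [-3, -3, -6, -6, -3, -3, -3, -3, -4, -4, -3, -3] 24 5
    [[(1, 6), (4, 6), (7, 6), (10, 6)], [(0, 6), (2, 9), (3, 9), (5, 6)], [(0, 9), (2, 12), (3,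
      12), (5, 9)], [(0, 9), (2, 12), (3, 12), (5, 9)], [(0, 6), (2, 9), (3, 9), (5, 6)], [(1, 6),
      (4, 6), (7, 6), (10, 6)], [(1, 6), (4, 6), (7, 6), (10, 6)], [(11, 6)], [(8, 8)], [(9, 8)],
      [(6, 6)], [(1, 6), (4, 6), (7, 6), (10, 6)]]
    []
    .nil)
   (.lp [2, 4, 2, 2, 2, 2] [] [-1, -1, -2, -2, -1, -1, -1, -1, -1, -1, -1, -1] 8 5
    [[(1, 2), (4, 2), (7, 2), (10, 2)], [(0, 2), (2, 3), (3, 3), (5, 2)], [(0, 3), (2, 4), (3, 4),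
      (5, 3)], [(0, 3), (2, 4), (3, 4), (5, 3)], [(0, 2), (2, 3), (3, 3), (5, 2)], [(1, 2), (4, 2),
      (7, 2), (10, 2)], [(1, 2), (4, 2), (7, 2), (10, 2)], [(8, 2)], [(11, 2)], [(6, 2)], [(9, 2)],
      [(1, 2), (4, 2), (7, 2), (10, 2)]]
    [[0, 0, 0, 1, 1, 1]]
    (.cons (.leaf 4 3 [(1, [-1, 1])])
    .nil)))
  (.splitT 3
   (.lp [6, 12, 6, 6, 8, 6] [] [-3, -3, -6, -6, -3, -3, -3, -3, -4, -4, -3, -3] 24 5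
    [[(4, 6)], [(0, 6), (2, 9), (3, 9), (5, 6)], [(0, 9), (2, 12), (3, 12), (5, 9)], [(0, 9), (2,
      12), (3, 12), (5, 9)], [(0, 6), (2, 9), (3, 9), (5, 6)], [(1, 6)], [(10, 6)], [(6, 6), (8,
      7), (9, 7), (11, 6)], [(6, 7), (8, 8), (9, 8), (11, 7)], [(6, 7), (8, 8), (9, 8), (11, 7)],
      [(6, 6), (8, 7), (9, 7), (11, 6)], [(7, 6)]]
    [[0, 0, 0, 1, 1, 1]]
    (.cons (.leaf 0 2 [(1, [1, 0])])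
    .nil))
   (.lp [10, 8, 6, 0, 8, 12] [] [-5, -5, -4, -4, -3, -3, 0, 0, -4, -4, -6, -6] 24 5
    [[(4, 8)], [(0, 10), (2, 9), (3, 9), (5, 8)], [(0, 9), (2, 8), (3, 8), (5, 7)], [(0, 9), (2,
      8), (3, 8), (5, 7)], [(0, 8), (2, 7), (3, 7), (5, 6)], [(1, 8)], [(10, 6)], [(11, 6)], [(8,
      8)], [(9, 8)], [(6, 6)], [(7, 6)]]
    []
    .nil)
   (.lp [10, 8, 6, 6, 6, 6] [] [-5, -5, -4, -4, -3, -3, -3, -3, -3, -3, -3, -3] 24 5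
    [[(4, 8)], [(0, 10), (2, 9), (3, 9), (5, 8)], [(0, 9), (2, 8), (3, 8), (5, 7)], [(0, 9), (2,
      8), (3, 8), (5, 7)], [(0, 8), (2, 7), (3, 7), (5, 6)], [(1, 8)], [(10, 6)], [(8, 6)], [(11,
      6)], [(6, 6)], [(9, 6)], [(7, 6)]]
    [[0, 0, 0, 1, 1, 1]]
    (.cons (.leaf 4 3 [(1, [-1, 1])])
    .nil)))
  (.splitT 3
   (.lp [6, 8, 6, 6, 8, 6] [] [-3, -3, -4, -4, -3, -3, -3, -3, -4, -4, -3, -3] 24 5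
    [[(7, 6)], [(0, 6), (2, 7), (3, 7), (5, 6)], [(0, 7), (2, 8), (3, 8), (5, 7)], [(0, 7), (2, 8),
      (3, 8), (5, 7)], [(0, 6), (2, 7), (3, 7), (5, 6)], [(10, 6)], [(1, 6)], [(6, 6), (8, 7), (9,
      7), (11, 6)], [(6, 7), (8, 8), (9, 8), (11, 7)], [(6, 7), (8, 8), (9, 8), (11, 7)], [(6, 6),
      (8, 7), (9, 7), (11, 6)], [(4, 6)]]
    []
    .nil)
   (.lp [6, 8, 6, 6, 8, 6] [] [-3, -3, -4, -4, -3, -3, -3, -3, -4, -4, -3, -3] 24 5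
    [[(7, 6)], [(0, 6), (2, 7), (3, 7), (5, 6)], [(0, 7), (2, 8), (3, 8), (5, 7)], [(0, 7), (2, 8),
      (3, 8), (5, 7)], [(0, 6), (2, 7), (3, 7), (5, 6)], [(10, 6)], [(1, 6)], [(11, 6)], [(8, 8)],
      [(9, 8)], [(6, 6)], [(4, 6)]]
    []
    .nil)
   (.lp [6, 8, 6, 6, 6, 6] [] [-3, -3, -4, -4, -3, -3, -3, -3, -3, -3, -3, -3] 24 5
    [[(7, 6)], [(0, 6), (2, 7), (3, 7), (5, 6)], [(0, 7), (2, 8), (3, 8), (5, 7)], [(0, 7), (2, 8),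
      (3, 8), (5, 7)], [(0, 6), (2, 7), (3, 7), (5, 6)], [(10, 6)], [(1, 6)], [(8, 6)], [(11, 6)],
      [(6, 6)], [(9, 6)], [(4, 6)]]
    []
    .nil)))
 (.splitT 2
  (.splitT 3
   (.lp [6, 8, 6, 6, 12, 6] [] [-3, -3, -4, -4, -3, -3, -3, -3, -6, -6, -3, -3] 24 5
    [[(1, 6), (4, 6), (7, 6), (10, 6)], [(5, 6)], [(2, 8)], [(3, 8)], [(0, 6)], [(1, 6), (4, 6),
      (7, 6), (10, 6)], [(1, 6), (4, 6), (7, 6), (10, 6)], [(6, 6), (8, 9), (9, 9), (11, 6)], [(6,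
      9), (8, 12), (9, 12), (11, 9)], [(6, 9), (8, 12), (9, 12), (11, 9)], [(6, 6), (8, 9), (9, 9),
      (11, 6)], [(1, 6), (4, 6), (7, 6), (10, 6)]]
    []
    .nil)
   (.lp [6, 8, 6, 6, 8, 6] [] [-3, -3, -4, -4, -3, -3, -3, -3, -4, -4, -3, -3] 24 5
    [[(1, 6), (4, 6), (7, 6), (10, 6)], [(5, 6)], [(2, 8)], [(3, 8)], [(0, 6)], [(1, 6), (4, 6),
      (7, 6), (10, 6)], [(1, 6), (4, 6), (7, 6), (10, 6)], [(11, 6)], [(8, 8)], [(9, 8)], [(6, 6)],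
      [(1, 6), (4, 6), (7, 6), (10, 6)]]
    []
    .nil)
   (.lp [6, 8, 6, 6, 6, 12] [] [-3, -3, -4, -4, -3, -3, -3, -3, -3, -3, -6, -6] 24 5
    [[(1, 6), (4, 6), (7, 6), (10, 9)], [(5, 6)], [(2, 8)], [(3, 8)], [(0, 6)], [(1, 6), (4, 6),
      (7, 6), (10, 9)], [(1, 6), (4, 6), (7, 6), (10, 9)], [(8, 6)], [(11, 9)], [(6, 6)], [(9, 9)],
      [(1, 9), (4, 9), (7, 9), (10, 12)]]
    []
    .nil))
  (.splitT 3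
   (.lp [12, 8, 0, 6, 8, 10] [] [-6, -6, -4, -4, 0, 0, -3, -3, -4, -4, -5, -5] 24 5
    [[(4, 6)], [(5, 6)], [(2, 8)], [(3, 8)], [(0, 6)], [(1, 6)], [(10, 8)], [(6, 6), (8, 7), (9,
      7), (11, 8)], [(6, 7), (8, 8), (9, 8), (11, 9)], [(6, 7), (8, 8), (9, 8), (11, 9)], [(6, 8),
      (8, 9), (9, 9), (11, 10)], [(7, 8)]]
    []
    .nil)
   (.lp [6, 4, 0, 6, 4, 0] [] [-3, -3, -2, -2, 0, 0, -3, -3, -2, -2, 0, 0] 12 5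
    [[(4, 3)], [(5, 3)], [(2, 4)], [(3, 4)], [(0, 3)], [(1, 3)], [(10, 3)], [(11, 3)], [(8, 4)],
      [(9, 4)], [(6, 3)], [(7, 3)]]
    []
    .nil)
   (.lp [6, 4, 0, 6, 6, 0] [] [-3, -3, -2, -2, 0, 0, -3, -3, -3, -3, 0, 0] 12 5
    [[(4, 3)], [(5, 3)], [(2, 4)], [(3, 4)], [(0, 3)], [(1, 3)], [(10, 3)], [(8, 6)], [(11, 3)],
      [(6, 6)], [(9, 3)], [(7, 3)]]
    []
    .nil))
  (.splitT 3
   (.lp [6, 8, 6, 6, 8, 6] [] [-3, -3, -4, -4, -3, -3, -3, -3, -4, -4, -3, -3] 24 5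
    [[(7, 6)], [(5, 6)], [(2, 8)], [(3, 8)], [(0, 6)], [(10, 6)], [(1, 6)], [(6, 6), (8, 7), (9,
      7), (11, 6)], [(6, 7), (8, 8), (9, 8), (11, 7)], [(6, 7), (8, 8), (9, 8), (11, 7)], [(6, 6),
      (8, 7), (9, 7), (11, 6)], [(4, 6)]]
    []
    .nil)
   (.lp [6, 4, 0, 0, 4, 6] [] [-3, -3, -2, -2, 0, 0, 0, 0, -2, -2, -3, -3] 12 5
    [[(7, 3)], [(5, 3)], [(2, 4)], [(3, 4)], [(0, 3)], [(10, 3)], [(1, 3)], [(11, 3)], [(8, 4)],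
      [(9, 4)], [(6, 3)], [(4, 3)]]
    []
    .nil)
   (.lp [6, 8, 6, 6, 6, 6] [] [-3, -3, -4, -4, -3, -3, -3, -3, -3, -3, -3, -3] 24 5
    [[(7, 6)], [(5, 6)], [(2, 8)], [(3, 8)], [(0, 6)], [(10, 6)], [(1, 6)], [(8, 6)], [(11, 6)],
      [(6, 6)], [(9, 6)], [(4, 6)]]
    []
    .nil)))
 (.splitT 2
  (.splitT 3
   (.lp [6, 10, 6, 8, 8, 8] [(4, 10, -2), (11, 5, -2)] [-3, -3, -5, -5, -3, -3, -4, -4, -4, -4, -4,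
      -4] 24 5
    [[(1, 6), (4, 8), (7, 7), (10, 7)], [(2, 8)], [(5, 8)], [(0, 8)], [(3, 8)], [(1, 8), (4, 6),
      (7, 7), (10, 7)], [(1, 7), (4, 7), (7, 8), (10, 6)], [(6, 8), (8, 8), (9, 8), (11, 8)], [(6,
      8), (8, 8), (9, 8), (11, 8)], [(6, 8), (8, 8), (9, 8), (11, 8)], [(6, 8), (8, 8), (9, 8),
      (11, 8)], [(1, 7), (4, 7), (7, 6), (10, 8)]]
    [[0, 0, 0, 1, 1, 1]]
    (.cons (.leaf 4 0 [(1, [1, 0])])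
    .nil))
   (.lp [12, 6, 6, 6, 8, 6] [] [-6, -6, -3, -3, -3, -3, -3, -3, -4, -4, -3, -3] 24 5
    [[(1, 12), (4, 9), (7, 9), (10, 9)], [(2, 9)], [(5, 6)], [(0, 9)], [(3, 6)], [(1, 9), (4, 6),
      (7, 6), (10, 6)], [(1, 9), (4, 6), (7, 6), (10, 6)], [(11, 6)], [(8, 8)], [(9, 8)], [(6, 6)],
      [(1, 9), (4, 6), (7, 6), (10, 6)]]
    []
    .nil)
   (.lp [4, 2, 2, 2, 2, 2] [] [-2, -2, -1, -1, -1, -1, -1, -1, -1, -1, -1, -1] 8 5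
    [[(1, 4), (4, 3), (7, 3), (10, 3)], [(2, 3)], [(5, 2)], [(0, 3)], [(3, 2)], [(1, 3), (4, 2),
      (7, 2), (10, 2)], [(1, 3), (4, 2), (7, 2), (10, 2)], [(8, 2)], [(11, 2)], [(6, 2)], [(9, 2)],
      [(1, 3), (4, 2), (7, 2), (10, 2)]]
    [[0, 0, 0, 1, 1, 1]]
    (.cons (.leaf 6 0 [(1, [1, 0])])
    .nil)))
  (.splitT 3
   (.lp [12, 12, 0, 6, 8, 6] [] [-6, -6, -6, -6, 0, 0, -3, -3, -4, -4, -3, -3] 24 5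
    [[(4, 6)], [(2, 12)], [(5, 6)], [(0, 12)], [(3, 6)], [(1, 6)], [(10, 6)], [(6, 6), (8, 7), (9,
      7), (11, 6)], [(6, 7), (8, 8), (9, 8), (11, 7)], [(6, 7), (8, 8), (9, 8), (11, 7)], [(6, 6),
      (8, 7), (9, 7), (11, 6)], [(7, 6)]]
    [[0, 0, 0, 1, 1, 1]]
    (.cons (.leaf 4 0 [(1, [1, 0])])
    .nil))
   (.lp [6, 6, 0, 6, 4, 0] [] [-3, -3, -3, -3, 0, 0, -3, -3, -2, -2, 0, 0] 12 5
    [[(4, 3)], [(2, 6)], [(5, 3)], [(0, 6)], [(3, 3)], [(1, 3)], [(10, 3)], [(11, 3)], [(8, 4)],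
      [(9, 4)], [(6, 3)], [(7, 3)]]
    []
    .nil)
   (.lp [4, 4, 0, 2, 2, 2] [] [-2, -2, -2, -2, 0, 0, -1, -1, -1, -1, -1, -1] 8 5
    [[(4, 2)], [(2, 4)], [(5, 2)], [(0, 4)], [(3, 2)], [(1, 2)], [(10, 2)], [(8, 2)], [(11, 2)],
      [(6, 2)], [(9, 2)], [(7, 2)]]
    [[0, 0, 0, 1, 1, 1]]
    (.cons (.leaf 6 0 [(1, [1, 0])])
    .nil)))
  (.splitT 3
   (.lp [6, 6, 6, 6, 8, 6] [] [-3, -3, -3, -3, -3, -3, -3, -3, -4, -4, -3, -3] 24 5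
    [[(7, 6)], [(2, 6)], [(5, 6)], [(0, 6)], [(3, 6)], [(10, 6)], [(1, 6)], [(6, 6), (8, 7), (9,
      7), (11, 6)], [(6, 7), (8, 8), (9, 8), (11, 7)], [(6, 7), (8, 8), (9, 8), (11, 7)], [(6, 6),
      (8, 7), (9, 7), (11, 6)], [(4, 6)]]
    []
    .nil)
   (.lp [6, 6, 6, 6, 8, 6] [] [-3, -3, -3, -3, -3, -3, -3, -3, -4, -4, -3, -3] 24 5
    [[(7, 6)], [(2, 6)], [(5, 6)], [(0, 6)], [(3, 6)], [(10, 6)], [(1, 6)], [(11, 6)], [(8, 8)],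
      [(9, 8)], [(6, 6)], [(4, 6)]]
    []
    .nil)
   (.lp [2, 0, 2, 0, 2, 0] [] [-1, -1, 0, 0, -1, -1, 0, 0, -1, -1, 0, 0] 4 5
    [[(7, 1)], [(2, 1)], [(5, 1)], [(0, 1)], [(3, 1)], [(10, 1)], [(1, 1)], [(8, 1)], [(11, 1)],
      [(6, 1)], [(9, 1)], [(4, 1)]]
    []
    .nil)))

/-- classes `010212` -/
def tr6_16 : Tr :=
  .splitT 0
 (.splitT 1
  (.splitT 3
   (.lp [6, 4, 6, 4, 6, 4] [] [-3, -3, -2, -2, -3, -3, -2, -2, -3, -3, -2, -2] 16 5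
    [[(1, 6), (6, 5), (9, 6), (10, 5)], [(0, 6), (3, 5), (4, 6), (7, 5)], [(0, 5), (3, 4), (4, 5),
      (7, 4)], [(2, 4), (5, 5), (8, 5), (11, 4)], [(2, 5), (5, 6), (8, 6), (11, 5)], [(0, 6), (3,
      5), (4, 6), (7, 5)], [(0, 5), (3, 4), (4, 5), (7, 4)], [(1, 5), (6, 4), (9, 5), (10, 4)],
      [(1, 6), (6, 5), (9, 6), (10, 5)], [(2, 5), (5, 6), (8, 6), (11, 5)], [(2, 4), (5, 5), (8,
      5), (11, 4)], [(1, 5), (6, 4), (9, 5), (10, 4)]]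
    [[1, 1, 0, 0, 0, 1], [0, 1, 0, 1, 1, 0], [0, 1, 0, 1, 0, 1], [0, 0, 1, 1, 0, 1]]
    (.cons (.leaf 0 1 [(1, [-1, 1])])
    (.cons (.leaf 3 0 [(1, [1, 0])])
    (.cons (.leaf 5 0 [(1, [1, 0]), (1, [-1, 1])])
    (.cons (.leaf 3 3 [(1, [-1, 1])])
    .nil)))))
   (.lp [2, 2, 2, 2, 2, 2] [] [-1, -1, -1, -1, -1, -1, -1, -1, -1, -1, -1, -1] 8 5
    [[(6, 2)], [(0, 2), (3, 2), (4, 2), (7, 2)], [(0, 2), (3, 2), (4, 2), (7, 2)], [(2, 2), (5, 2),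
      (8, 2), (11, 2)], [(2, 2), (5, 2), (8, 2), (11, 2)], [(0, 2), (3, 2), (4, 2), (7, 2)], [(0,
      2), (3, 2), (4, 2), (7, 2)], [(1, 2)], [(10, 2)], [(2, 2), (5, 2), (8, 2), (11, 2)], [(2, 2),
      (5, 2), (8, 2), (11, 2)], [(9, 2)]]
    []
    .nil)
   (.lp [2, 2, 4, 2, 2, 2] [] [-1, -1, -1, -1, -2, -2, -1, -1, -1, -1, -1, -1] 8 5
    [[(9, 2)], [(0, 2), (3, 2), (4, 3), (7, 2)], [(0, 2), (3, 2), (4, 3), (7, 2)], [(2, 2), (5, 3),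
      (8, 2), (11, 2)], [(2, 3), (5, 4), (8, 3), (11, 3)], [(0, 3), (3, 3), (4, 4), (7, 3)], [(0,
      2), (3, 2), (4, 3), (7, 2)], [(10, 2)], [(1, 2)], [(2, 2), (5, 3), (8, 2), (11, 2)], [(2, 2),
      (5, 3), (8, 2), (11, 2)], [(6, 2)]]
    [[1, 1, 0, 0, 1, 0], [0, 1, 0, 1, 0, 1]]
    (.cons (.leaf 3 3 [(1, [1, 0])])
    (.cons (.leaf 5 0 [(1, [1, 0]), (1, [-1, 1])])
    .nil))))
  (.splitT 3
   (.lp [4, 2, 2, 2, 2, 2] [] [-2, -2, -1, -1, -1, -1, -1, -1, -1, -1, -1, -1] 8 5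
    [[(1, 4), (6, 3), (9, 3), (10, 3)], [(0, 4), (3, 3), (4, 3), (7, 3)], [(0, 3), (3, 2), (4, 2),
      (7, 2)], [(11, 2)], [(8, 2)], [(0, 3), (3, 2), (4, 2), (7, 2)], [(0, 3), (3, 2), (4, 2), (7,
      2)], [(1, 3), (6, 2), (9, 2), (10, 2)], [(1, 3), (6, 2), (9, 2), (10, 2)], [(5, 2)], [(2,
      2)], [(1, 3), (6, 2), (9, 2), (10, 2)]]
    [[0, 1, 0, 1, 0, 1], [0, 0, 1, 1, 1, 0]]
    (.cons (.leaf 5 0 [(1, [1, 0]), (1, [-1, 1])])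
    (.cons (.leaf 0 1 [(1, [1, 0])])
    .nil)))
   (.lp [2, 2, 2, 2, 2, 2] [] [-1, -1, -1, -1, -1, -1, -1, -1, -1, -1, -1, -1] 8 5
    [[(6, 2)], [(0, 2), (3, 2), (4, 2), (7, 2)], [(0, 2), (3, 2), (4, 2), (7, 2)], [(11, 2)], [(8,
      2)], [(0, 2), (3, 2), (4, 2), (7, 2)], [(0, 2), (3, 2), (4, 2), (7, 2)], [(1, 2)], [(10, 2)],
      [(5, 2)], [(2, 2)], [(9, 2)]]
    []
    .nil)
   (.lp [4, 2, 2, 2, 2, 2] [] [-2, -2, -1, -1, -1, -1, -1, -1, -1, -1, -1, -1] 8 5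
    [[(9, 3)], [(0, 4), (3, 3), (4, 3), (7, 3)], [(0, 3), (3, 2), (4, 2), (7, 2)], [(11, 2)], [(8,
      2)], [(0, 3), (3, 2), (4, 2), (7, 2)], [(0, 3), (3, 2), (4, 2), (7, 2)], [(10, 2)], [(1, 3)],
      [(5, 2)], [(2, 2)], [(6, 2)]]
    [[0, 1, 0, 1, 0, 1]]
    (.cons (.leaf 5 0 [(1, [1, 0]), (1, [-1, 1])])
    .nil)))
  (.splitT 3
   (.lp [4, 2, 2, 2, 2, 2] [] [-2, -2, -1, -1, -1, -1, -1, -1, -1, -1, -1, -1] 8 5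
    [[(1, 4), (6, 3), (9, 3), (10, 3)], [(0, 4), (3, 3), (4, 3), (7, 3)], [(0, 3), (3, 2), (4, 2),
      (7, 2)], [(8, 2)], [(11, 2)], [(0, 3), (3, 2), (4, 2), (7, 2)], [(0, 3), (3, 2), (4, 2), (7,
      2)], [(1, 3), (6, 2), (9, 2), (10, 2)], [(1, 3), (6, 2), (9, 2), (10, 2)], [(2, 2)], [(5,
      2)], [(1, 3), (6, 2), (9, 2), (10, 2)]]
    [[0, 1, 0, 1, 1, 0], [0, 0, 1, 1, 0, 1]]
    (.cons (.leaf 3 0 [(1, [1, 0])])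
    (.cons (.leaf 3 3 [(1, [-1, 1])])
    .nil)))
   (.lp [2, 2, 2, 2, 2, 2] [] [-1, -1, -1, -1, -1, -1, -1, -1, -1, -1, -1, -1] 8 5
    [[(6, 2)], [(0, 2), (3, 2), (4, 2), (7, 2)], [(0, 2), (3, 2), (4, 2), (7, 2)], [(8, 2)], [(11,
      2)], [(0, 2), (3, 2), (4, 2), (7, 2)], [(0, 2), (3, 2), (4, 2), (7, 2)], [(1, 2)], [(10, 2)],
      [(2, 2)], [(5, 2)], [(9, 2)]]
    []
    .nil)
   (.lp [4, 4, 2, 2, 0, 2] [] [-2, -2, -2, -2, -1, -1, -1, -1, 0, 0, -1, -1] 8 5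
    [[(9, 2)], [(0, 4), (3, 4), (4, 3), (7, 3)], [(0, 4), (3, 4), (4, 3), (7, 3)], [(8, 2)], [(11,
      2)], [(0, 3), (3, 3), (4, 2), (7, 2)], [(0, 3), (3, 3), (4, 2), (7, 2)], [(10, 2)], [(1, 2)],
      [(2, 2)], [(5, 2)], [(6, 2)]]
    [[0, 0, 1, 1, 0, 1]]
    (.cons (.leaf 3 3 [(1, [-1, 1])])
    .nil))))
 (.splitT 1
  (.splitT 3
   (.lp [2, 2, 2, 2, 2, 2] [] [-1, -1, -1, -1, -1, -1, -1, -1, -1, -1, -1, -1] 8 5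
    [[(1, 2), (6, 2), (9, 2), (10, 2)], [(7, 2)], [(4, 2)], [(2, 2), (5, 2), (8, 2), (11, 2)], [(2,
      2), (5, 2), (8, 2), (11, 2)], [(3, 2)], [(0, 2)], [(1, 2), (6, 2), (9, 2), (10, 2)], [(1, 2),
      (6, 2), (9, 2), (10, 2)], [(2, 2), (5, 2), (8, 2), (11, 2)], [(2, 2), (5, 2), (8, 2), (11,
      2)], [(1, 2), (6, 2), (9, 2), (10, 2)]]
    []
    .nil)
   (.lp [4, 2, 2, 0, 2, 2] [] [-2, -2, -1, -1, -1, -1, 0, 0, -1, -1, -1, -1] 8 5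
    [[(6, 2)], [(7, 2)], [(4, 2)], [(2, 2), (5, 2), (8, 2), (11, 2)], [(2, 2), (5, 2), (8, 2), (11,
      2)], [(3, 2)], [(0, 2)], [(1, 2)], [(10, 2)], [(2, 2), (5, 2), (8, 2), (11, 2)], [(2, 2), (5,
      2), (8, 2), (11, 2)], [(9, 2)]]
    []
    .nil)
   (.lp [2, 2, 2, 2, 2, 2] [] [-1, -1, -1, -1, -1, -1, -1, -1, -1, -1, -1, -1] 8 5
    [[(9, 2)], [(7, 2)], [(4, 2)], [(2, 2), (5, 2), (8, 2), (11, 2)], [(2, 2), (5, 2), (8, 2), (11,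
      2)], [(3, 2)], [(0, 2)], [(10, 2)], [(1, 2)], [(2, 2), (5, 2), (8, 2), (11, 2)], [(2, 2), (5,
      2), (8, 2), (11, 2)], [(6, 2)]]
    []
    .nil))
  (.splitT 3
   (.lp [2, 2, 2, 2, 2, 2] [] [-1, -1, -1, -1, -1, -1, -1, -1, -1, -1, -1, -1] 8 5
    [[(1, 2), (6, 2), (9, 2), (10, 2)], [(7, 2)], [(4, 2)], [(11, 2)], [(8, 2)], [(3, 2)], [(0,
      2)], [(1, 2), (6, 2), (9, 2), (10, 2)], [(1, 2), (6, 2), (9, 2), (10, 2)], [(5, 2)], [(2,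
      2)], [(1, 2), (6, 2), (9, 2), (10, 2)]]
    []
    .nil)
   (.lp [2, 2, 0, 0, 2, 0] [] [-1, -1, -1, -1, 0, 0, 0, 0, -1, -1, 0, 0] 4 5
    [[(6, 1)], [(7, 1)], [(4, 1)], [(11, 1)], [(8, 1)], [(3, 1)], [(0, 1)], [(1, 1)], [(10, 1)],
      [(5, 1)], [(2, 1)], [(9, 1)]]
    []
    .nil)
   (.lp [0, 2, 0, 2, 2, 0] [] [0, 0, -1, -1, 0, 0, -1, -1, -1, -1, 0, 0] 4 5
    [[(9, 1)], [(7, 1)], [(4, 1)], [(11, 1)], [(8, 1)], [(3, 1)], [(0, 1)], [(10, 1)], [(1, 1)],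
      [(5, 1)], [(2, 1)], [(6, 1)]]
    []
    .nil))
  (.splitT 3
   (.lp [2, 2, 2, 2, 2, 2] [] [-1, -1, -1, -1, -1, -1, -1, -1, -1, -1, -1, -1] 8 5
    [[(1, 2), (6, 2), (9, 2), (10, 2)], [(7, 2)], [(4, 2)], [(8, 2)], [(11, 2)], [(3, 2)], [(0,
      2)], [(1, 2), (6, 2), (9, 2), (10, 2)], [(1, 2), (6, 2), (9, 2), (10, 2)], [(2, 2)], [(5,
      2)], [(1, 2), (6, 2), (9, 2), (10, 2)]]
    []
    .nil)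
   (.lp [2, 2, 0, 0, 0, 2] [] [-1, -1, -1, -1, 0, 0, 0, 0, 0, 0, -1, -1] 4 5
    [[(6, 1)], [(7, 1)], [(4, 1)], [(8, 1)], [(11, 1)], [(3, 1)], [(0, 1)], [(1, 1)], [(10, 1)],
      [(2, 1)], [(5, 1)], [(9, 1)]]
    []
    .nil)
   (.lp [2, 2, 0, 0, 0, 2] [] [-1, -1, -1, -1, 0, 0, 0, 0, 0, 0, -1, -1] 4 5
    [[(9, 1)], [(7, 1)], [(4, 1)], [(8, 1)], [(11, 1)], [(3, 1)], [(0, 1)], [(10, 1)], [(1, 1)],
      [(2, 1)], [(5, 1)], [(6, 1)]]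
    []
    .nil)))
 (.splitT 1
  (.splitT 3
   (.lp [2, 4, 2, 2, 2, 2] [] [-1, -1, -2, -2, -1, -1, -1, -1, -1, -1, -1, -1] 8 5
    [[(1, 2), (6, 2), (9, 2), (10, 2)], [(4, 2)], [(7, 3)], [(2, 4), (5, 3), (8, 3), (11, 3)], [(2,
      3), (5, 2), (8, 2), (11, 2)], [(0, 2)], [(3, 3)], [(1, 2), (6, 2), (9, 2), (10, 2)], [(1, 2),
      (6, 2), (9, 2), (10, 2)], [(2, 3), (5, 2), (8, 2), (11, 2)], [(2, 3), (5, 2), (8, 2), (11,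
      2)], [(1, 2), (6, 2), (9, 2), (10, 2)]]
    [[1, 0, 1, 0, 1, 0], [1, 0, 1, 0, 0, 1]]
    (.cons (.leaf 5 0 [(1, [-1, 1]), (1, [1, 0])])
    (.cons (.leaf 3 0 [(1, [-1, 1])])
    .nil)))
   (.lp [2, 2, 2, 2, 2, 2] [] [-1, -1, -1, -1, -1, -1, -1, -1, -1, -1, -1, -1] 8 5
    [[(6, 2)], [(4, 2)], [(7, 2)], [(2, 2), (5, 2), (8, 2), (11, 2)], [(2, 2), (5, 2), (8, 2), (11,
      2)], [(0, 2)], [(3, 2)], [(1, 2)], [(10, 2)], [(2, 2), (5, 2), (8, 2), (11, 2)], [(2, 2), (5,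
      2), (8, 2), (11, 2)], [(9, 2)]]
    []
    .nil)
   (.lp [4, 2, 2, 2, 2, 2] [] [-2, -2, -1, -1, -1, -1, -1, -1, -1, -1, -1, -1] 8 5
    [[(9, 3)], [(4, 3)], [(7, 2)], [(2, 2), (5, 2), (8, 2), (11, 2)], [(2, 2), (5, 2), (8, 2), (11,
      2)], [(0, 3)], [(3, 2)], [(10, 2)], [(1, 3)], [(2, 2), (5, 2), (8, 2), (11, 2)], [(2, 2), (5,
      2), (8, 2), (11, 2)], [(6, 2)]]
    [[0, 1, 0, 1, 0, 1]]
    (.cons (.leaf 5 0 [(1, [1, 0]), (1, [-1, 1])])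
    .nil)))
  (.splitT 3
   (.lp [2, 4, 2, 2, 2, 2] [] [-1, -1, -2, -2, -1, -1, -1, -1, -1, -1, -1, -1] 8 5
    [[(1, 2), (6, 2), (9, 2), (10, 2)], [(4, 2)], [(7, 3)], [(11, 3)], [(8, 2)], [(0, 2)], [(3,
      3)], [(1, 2), (6, 2), (9, 2), (10, 2)], [(1, 2), (6, 2), (9, 2), (10, 2)], [(5, 2)], [(2,
      3)], [(1, 2), (6, 2), (9, 2), (10, 2)]]
    [[1, 0, 1, 0, 1, 0]]
    (.cons (.leaf 5 0 [(1, [-1, 1]), (1, [1, 0])])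
    .nil))
   (.lp [2, 2, 0, 0, 2, 0] [] [-1, -1, -1, -1, 0, 0, 0, 0, -1, -1, 0, 0] 4 5
    [[(6, 1)], [(4, 1)], [(7, 1)], [(11, 1)], [(8, 1)], [(0, 1)], [(3, 1)], [(1, 1)], [(10, 1)],
      [(5, 1)], [(2, 1)], [(9, 1)]]
    []
    .nil)
   (.lp [4, 2, 0, 2, 4, 2] [] [-2, -2, -1, -1, 0, 0, -1, -1, -2, -2, -1, -1] 8 5
    [[(9, 4)], [(4, 2)], [(7, 2)], [(11, 2)], [(8, 2)], [(0, 2)], [(3, 2)], [(10, 2)], [(1, 4)],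
      [(5, 2)], [(2, 2)], [(6, 2)]]
    [[0, 1, 0, 1, 0, 1]]
    (.cons (.leaf 5 0 [(1, [1, 0]), (1, [-1, 1])])
    .nil)))
  (.splitT 3
   (.lp [4, 2, 0, 2, 2, 4] [] [-2, -2, -1, -1, 0, 0, -1, -1, -1, -1, -2, -2] 8 5
    [[(1, 4), (6, 3), (9, 3), (10, 4)], [(4, 2)], [(7, 2)], [(8, 2)], [(11, 2)], [(0, 2)], [(3,
      2)], [(1, 3), (6, 2), (9, 2), (10, 3)], [(1, 3), (6, 2), (9, 2), (10, 3)], [(2, 2)], [(5,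
      2)], [(1, 4), (6, 3), (9, 3), (10, 4)]]
    [[0, 1, 0, 1, 1, 0]]
    (.cons (.leaf 3 0 [(1, [1, 0])])
    .nil))
   (.lp [2, 2, 0, 0, 0, 2] [] [-1, -1, -1, -1, 0, 0, 0, 0, 0, 0, -1, -1] 4 5
    [[(6, 1)], [(4, 1)], [(7, 1)], [(8, 1)], [(11, 1)], [(0, 1)], [(3, 1)], [(1, 1)], [(10, 1)],
      [(2, 1)], [(5, 1)], [(9, 1)]]
    []
    .nil)
   (.lp [2, 2, 0, 0, 0, 2] [] [-1, -1, -1, -1, 0, 0, 0, 0, 0, 0, -1, -1] 4 5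
    [[(9, 1)], [(4, 1)], [(7, 1)], [(8, 1)], [(11, 1)], [(0, 1)], [(3, 1)], [(10, 1)], [(1, 1)],
      [(2, 1)], [(5, 1)], [(6, 1)]]
    []
    .nil)))

/-- classes `012012` -/
def tr6_17 : Tr :=
  .splitT 0
 (.splitT 1
  (.splitT 2
   (.lp [4, 6, 6, 6, 4, 4] [] [-2, -2, -3, -3, -3, -3, -3, -3, -2, -2, -2, -2] 16 5
    [[(1, 4), (4, 5), (7, 5), (10, 4)], [(0, 4), (3, 5), (6, 5), (9, 4)], [(0, 5), (3, 6), (6, 6),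
      (9, 5)], [(2, 6), (5, 6), (8, 5), (11, 5)], [(2, 6), (5, 6), (8, 5), (11, 5)], [(1, 5), (4,
      6), (7, 6), (10, 5)], [(1, 5), (4, 6), (7, 6), (10, 5)], [(0, 5), (3, 6), (6, 6), (9, 5)],
      [(0, 4), (3, 5), (6, 5), (9, 4)], [(2, 5), (5, 5), (8, 4), (11, 4)], [(2, 5), (5, 5), (8, 4),
      (11, 4)], [(1, 4), (4, 5), (7, 5), (10, 4)]]
    [[1, 0, 1, 0, 1, 0], [1, 1, 0, 0, 0, 1], [1, 0, 0, 0, 1, 1], [0, 0, 0, 1, 1, 1]]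
    (.cons (.leaf 1 0 [(1, [-1, 1]), (1, [1, 0])])
    (.cons (.leaf 0 1 [(1, [-1, 1])])
    (.cons (.leaf 0 0 [(1, [-1, 1])])
    (.cons (.leaf 0 2 [(1, [1, 0])])
    .nil)))))
   (.lp [2, 2, 2, 2, 4, 2] [] [-1, -1, -1, -1, -1, -1, -1, -1, -2, -2, -1, -1] 8 5
    [[(4, 2)], [(0, 2), (3, 2), (6, 2), (9, 3)], [(0, 2), (3, 2), (6, 2), (9, 3)], [(2, 2), (5, 2),
      (8, 3), (11, 2)], [(2, 2), (5, 2), (8, 3), (11, 2)], [(1, 2)], [(10, 2)], [(0, 2), (3, 2),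
      (6, 2), (9, 3)], [(0, 3), (3, 3), (6, 3), (9, 4)], [(2, 3), (5, 3), (8, 4), (11, 3)], [(2,
      2), (5, 2), (8, 3), (11, 2)], [(7, 2)]]
    [[1, 1, 1, 0, 0, 0], [0, 1, 0, 1, 0, 1]]
    (.cons (.leaf 0 2 [(1, [-1, 1])])
    (.cons (.leaf 1 0 [(1, [1, 0]), (1, [-1, 1])])
    .nil)))
   (.lp [2, 2, 2, 2, 2, 2] [] [-1, -1, -1, -1, -1, -1, -1, -1, -1, -1, -1, -1] 8 5
    [[(7, 2)], [(0, 2), (3, 2), (6, 2), (9, 2)], [(0, 2), (3, 2), (6, 2), (9, 2)], [(2, 2), (5, 2),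
      (8, 2), (11, 2)], [(2, 2), (5, 2), (8, 2), (11, 2)], [(10, 2)], [(1, 2)], [(0, 2), (3, 2),
      (6, 2), (9, 2)], [(0, 2), (3, 2), (6, 2), (9, 2)], [(2, 2), (5, 2), (8, 2), (11, 2)], [(2,
      2), (5, 2), (8, 2), (11, 2)], [(4, 2)]]
    []
    .nil))
  (.splitT 2
   (.lp [4, 2, 2, 2, 2, 2] [] [-2, -2, -1, -1, -1, -1, -1, -1, -1, -1, -1, -1] 8 5
    [[(1, 4), (4, 3), (7, 3), (10, 3)], [(0, 4), (3, 3), (6, 3), (9, 3)], [(0, 3), (3, 2), (6, 2),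
      (9, 2)], [(11, 2)], [(8, 2)], [(1, 3), (4, 2), (7, 2), (10, 2)], [(1, 3), (4, 2), (7, 2),
      (10, 2)], [(0, 3), (3, 2), (6, 2), (9, 2)], [(0, 3), (3, 2), (6, 2), (9, 2)], [(5, 2)], [(2,
      2)], [(1, 3), (4, 2), (7, 2), (10, 2)]]
    [[0, 1, 0, 1, 0, 1], [0, 0, 1, 1, 1, 0]]
    (.cons (.leaf 1 0 [(1, [1, 0]), (1, [-1, 1])])
    (.cons (.leaf 0 1 [(1, [1, 0])])
    .nil)))
   (.lp [2, 4, 2, 2, 2, 2] [] [-1, -1, -2, -2, -1, -1, -1, -1, -1, -1, -1, -1] 8 5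
    [[(4, 2)], [(0, 2), (3, 3), (6, 2), (9, 2)], [(0, 3), (3, 4), (6, 3), (9, 3)], [(11, 3)], [(8,
      2)], [(1, 2)], [(10, 2)], [(0, 2), (3, 3), (6, 2), (9, 2)], [(0, 2), (3, 3), (6, 2), (9, 2)],
      [(5, 2)], [(2, 3)], [(7, 2)]]
    [[1, 0, 1, 0, 1, 0]]
    (.cons (.leaf 1 0 [(1, [-1, 1]), (1, [1, 0])])
    .nil))
   (.lp [2, 2, 2, 2, 2, 2] [] [-1, -1, -1, -1, -1, -1, -1, -1, -1, -1, -1, -1] 8 5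
    [[(7, 2)], [(0, 2), (3, 2), (6, 2), (9, 2)], [(0, 2), (3, 2), (6, 2), (9, 2)], [(11, 2)], [(8,
      2)], [(10, 2)], [(1, 2)], [(0, 2), (3, 2), (6, 2), (9, 2)], [(0, 2), (3, 2), (6, 2), (9, 2)],
      [(5, 2)], [(2, 2)], [(4, 2)]]
    []
    .nil))
  (.splitT 2
   (.lp [2, 2, 2, 2, 2, 2] [] [-1, -1, -1, -1, -1, -1, -1, -1, -1, -1, -1, -1] 8 5
    [[(1, 2), (4, 2), (7, 2), (10, 2)], [(0, 2), (3, 2), (6, 2), (9, 2)], [(0, 2), (3, 2), (6, 2),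
      (9, 2)], [(8, 2)], [(11, 2)], [(1, 2), (4, 2), (7, 2), (10, 2)], [(1, 2), (4, 2), (7, 2),
      (10, 2)], [(0, 2), (3, 2), (6, 2), (9, 2)], [(0, 2), (3, 2), (6, 2), (9, 2)], [(2, 2)], [(5,
      2)], [(1, 2), (4, 2), (7, 2), (10, 2)]]
    []
    .nil)
   (.lp [2, 2, 2, 2, 2, 2] [] [-1, -1, -1, -1, -1, -1, -1, -1, -1, -1, -1, -1] 8 5
    [[(4, 2)], [(0, 2), (3, 2), (6, 2), (9, 2)], [(0, 2), (3, 2), (6, 2), (9, 2)], [(8, 2)], [(11,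
      2)], [(1, 2)], [(10, 2)], [(0, 2), (3, 2), (6, 2), (9, 2)], [(0, 2), (3, 2), (6, 2), (9, 2)],
      [(2, 2)], [(5, 2)], [(7, 2)]]
    []
    .nil)
   (.lp [2, 2, 0, 2, 2, 4] [] [-1, -1, -1, -1, 0, 0, -1, -1, -1, -1, -2, -2] 8 5
    [[(7, 2)], [(0, 2), (3, 2), (6, 2), (9, 2)], [(0, 2), (3, 2), (6, 2), (9, 2)], [(8, 2)], [(11,
      2)], [(10, 2)], [(1, 2)], [(0, 2), (3, 2), (6, 2), (9, 2)], [(0, 2), (3, 2), (6, 2), (9, 2)],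
      [(2, 2)], [(5, 2)], [(4, 2)]]
    []
    .nil)))
 (.splitT 1
  (.splitT 2
   (.lp [2, 2, 2, 2, 4, 2] [] [-1, -1, -1, -1, -1, -1, -1, -1, -2, -2, -1, -1] 8 5
    [[(1, 2), (4, 2), (7, 2), (10, 2)], [(9, 3)], [(6, 2)], [(2, 2), (5, 2), (8, 3), (11, 2)], [(2,
      2), (5, 2), (8, 3), (11, 2)], [(1, 2), (4, 2), (7, 2), (10, 2)], [(1, 2), (4, 2), (7, 2),
      (10, 2)], [(3, 2)], [(0, 3)], [(2, 3), (5, 3), (8, 4), (11, 3)], [(2, 2), (5, 2), (8, 3),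
      (11, 2)], [(1, 2), (4, 2), (7, 2), (10, 2)]]
    [[0, 1, 1, 1, 0, 0], [0, 1, 0, 1, 0, 1]]
    (.cons (.leaf 0 0 [(1, [1, 0])])
    (.cons (.leaf 1 0 [(1, [1, 0]), (1, [-1, 1])])
    .nil)))
   (.lp [2, 4, 2, 0, 2, 4] [] [-1, -1, -2, -2, -1, -1, 0, 0, -1, -1, -2, -2] 8 5
    [[(4, 2)], [(9, 2)], [(6, 2)], [(2, 4), (5, 3), (8, 3), (11, 4)], [(2, 3), (5, 2), (8, 2), (11,
      3)], [(1, 2)], [(10, 2)], [(3, 2)], [(0, 2)], [(2, 3), (5, 2), (8, 2), (11, 3)], [(2, 4), (5,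
      3), (8, 3), (11, 4)], [(7, 2)]]
    [[1, 0, 1, 0, 1, 0]]
    (.cons (.leaf 1 0 [(1, [-1, 1]), (1, [1, 0])])
    .nil))
   (.lp [2, 2, 2, 2, 2, 2] [] [-1, -1, -1, -1, -1, -1, -1, -1, -1, -1, -1, -1] 8 5
    [[(7, 2)], [(9, 2)], [(6, 2)], [(2, 2), (5, 2), (8, 2), (11, 2)], [(2, 2), (5, 2), (8, 2), (11,
      2)], [(10, 2)], [(1, 2)], [(3, 2)], [(0, 2)], [(2, 2), (5, 2), (8, 2), (11, 2)], [(2, 2), (5,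
      2), (8, 2), (11, 2)], [(4, 2)]]
    []
    .nil))
  (.splitT 2
   (.lp [2, 4, 2, 2, 2, 2] [] [-1, -1, -2, -2, -1, -1, -1, -1, -1, -1, -1, -1] 8 5
    [[(1, 2), (4, 2), (7, 2), (10, 2)], [(9, 2)], [(6, 3)], [(11, 3)], [(8, 2)], [(1, 2), (4, 2),
      (7, 2), (10, 2)], [(1, 2), (4, 2), (7, 2), (10, 2)], [(3, 3)], [(0, 2)], [(5, 2)], [(2, 3)],
      [(1, 2), (4, 2), (7, 2), (10, 2)]]
    [[1, 0, 1, 0, 1, 0]]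
    (.cons (.leaf 1 0 [(1, [-1, 1]), (1, [1, 0])])
    .nil))
   (.lp [2, 0, 2, 4, 2, 4] [] [-1, -1, 0, 0, -1, -1, -2, -2, -1, -1, -2, -2] 8 5
    [[(4, 2)], [(9, 2)], [(6, 2)], [(11, 2)], [(8, 2)], [(1, 2)], [(10, 4)], [(3, 2)], [(0, 2)],
      [(5, 2)], [(2, 2)], [(7, 4)]]
    [[1, 0, 1, 0, 1, 0]]
    (.cons (.leaf 1 0 [(1, [-1, 1]), (1, [1, 0])])
    .nil))
   (.lp [0, 0, 0, 2, 2, 2] [] [0, 0, 0, 0, 0, 0, -1, -1, -1, -1, -1, -1] 4 5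
    [[(7, 1)], [(9, 1)], [(6, 1)], [(11, 1)], [(8, 1)], [(10, 1)], [(1, 1)], [(3, 1)], [(0, 1)],
      [(5, 1)], [(2, 1)], [(4, 1)]]
    []
    .nil))
  (.splitT 2
   (.lp [2, 2, 2, 2, 2, 2] [] [-1, -1, -1, -1, -1, -1, -1, -1, -1, -1, -1, -1] 8 5
    [[(1, 2), (4, 2), (7, 2), (10, 2)], [(9, 2)], [(6, 2)], [(8, 2)], [(11, 2)], [(1, 2), (4, 2),
      (7, 2), (10, 2)], [(1, 2), (4, 2), (7, 2), (10, 2)], [(3, 2)], [(0, 2)], [(2, 2)], [(5, 2)],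
      [(1, 2), (4, 2), (7, 2), (10, 2)]]
    []
    .nil)
   (.lp [2, 2, 0, 0, 0, 2] [] [-1, -1, -1, -1, 0, 0, 0, 0, 0, 0, -1, -1] 4 5
    [[(4, 1)], [(9, 1)], [(6, 1)], [(8, 1)], [(11, 1)], [(1, 1)], [(10, 1)], [(3, 1)], [(0, 1)],
      [(2, 1)], [(5, 1)], [(7, 1)]]
    []
    .nil)
   (.lp [0, 0, 0, 2, 2, 2] [] [0, 0, 0, 0, 0, 0, -1, -1, -1, -1, -1, -1] 4 5
    [[(7, 1)], [(9, 1)], [(6, 1)], [(8, 1)], [(11, 1)], [(10, 1)], [(1, 1)], [(3, 1)], [(0, 1)],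
      [(2, 1)], [(5, 1)], [(4, 1)]]
    []
    .nil)))
 (.splitT 1
  (.splitT 2
   (.lp [2, 2, 2, 2, 2, 2] [] [-1, -1, -1, -1, -1, -1, -1, -1, -1, -1, -1, -1] 8 5
    [[(1, 2), (4, 2), (7, 2), (10, 2)], [(6, 2)], [(9, 2)], [(2, 2), (5, 2), (8, 2), (11, 2)], [(2,
      2), (5, 2), (8, 2), (11, 2)], [(1, 2), (4, 2), (7, 2), (10, 2)], [(1, 2), (4, 2), (7, 2),
      (10, 2)], [(0, 2)], [(3, 2)], [(2, 2), (5, 2), (8, 2), (11, 2)], [(2, 2), (5, 2), (8, 2),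
      (11, 2)], [(1, 2), (4, 2), (7, 2), (10, 2)]]
    []
    .nil)
   (.lp [2, 2, 2, 2, 2, 2] [] [-1, -1, -1, -1, -1, -1, -1, -1, -1, -1, -1, -1] 8 5
    [[(4, 2)], [(6, 2)], [(9, 2)], [(2, 2), (5, 2), (8, 2), (11, 2)], [(2, 2), (5, 2), (8, 2), (11,
      2)], [(1, 2)], [(10, 2)], [(0, 2)], [(3, 2)], [(2, 2), (5, 2), (8, 2), (11, 2)], [(2, 2), (5,
      2), (8, 2), (11, 2)], [(7, 2)]]
    []
    .nil)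
   (.lp [4, 2, 2, 0, 2, 2] [] [-2, -2, -1, -1, -1, -1, 0, 0, -1, -1, -1, -1] 8 5
    [[(7, 2)], [(6, 2)], [(9, 2)], [(2, 2), (5, 2), (8, 2), (11, 2)], [(2, 2), (5, 2), (8, 2), (11,
      2)], [(10, 2)], [(1, 2)], [(0, 2)], [(3, 2)], [(2, 2), (5, 2), (8, 2), (11, 2)], [(2, 2), (5,
      2), (8, 2), (11, 2)], [(4, 2)]]
    []
    .nil))
  (.splitT 2
   (.lp [2, 2, 2, 2, 2, 2] [] [-1, -1, -1, -1, -1, -1, -1, -1, -1, -1, -1, -1] 8 5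
    [[(1, 2), (4, 2), (7, 2), (10, 2)], [(6, 2)], [(9, 2)], [(11, 2)], [(8, 2)], [(1, 2), (4, 2),
      (7, 2), (10, 2)], [(1, 2), (4, 2), (7, 2), (10, 2)], [(0, 2)], [(3, 2)], [(5, 2)], [(2, 2)],
      [(1, 2), (4, 2), (7, 2), (10, 2)]]
    []
    .nil)
   (.lp [2, 0, 0, 0, 2, 2] [] [-1, -1, 0, 0, 0, 0, 0, 0, -1, -1, -1, -1] 4 5
    [[(4, 1)], [(6, 1)], [(9, 1)], [(11, 1)], [(8, 1)], [(1, 1)], [(10, 1)], [(0, 1)], [(3, 1)],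
      [(5, 1)], [(2, 1)], [(7, 1)]]
    []
    .nil)
   (.lp [2, 0, 0, 0, 2, 2] [] [-1, -1, 0, 0, 0, 0, 0, 0, -1, -1, -1, -1] 4 5
    [[(7, 1)], [(6, 1)], [(9, 1)], [(11, 1)], [(8, 1)], [(10, 1)], [(1, 1)], [(0, 1)], [(3, 1)],
      [(5, 1)], [(2, 1)], [(4, 1)]]
    []
    .nil))
  (.splitT 2
   (.lp [2, 4, 2, 2, 0, 2] [] [-1, -1, -2, -2, -1, -1, -1, -1, 0, 0, -1, -1] 8 5
    [[(1, 2), (4, 2), (7, 2), (10, 2)], [(6, 2)], [(9, 2)], [(8, 2)], [(11, 2)], [(1, 2), (4, 2),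
      (7, 2), (10, 2)], [(1, 2), (4, 2), (7, 2), (10, 2)], [(0, 2)], [(3, 2)], [(2, 2)], [(5, 2)],
      [(1, 2), (4, 2), (7, 2), (10, 2)]]
    []
    .nil)
   (.lp [2, 0, 0, 0, 2, 2] [] [-1, -1, 0, 0, 0, 0, 0, 0, -1, -1, -1, -1] 4 5
    [[(4, 1)], [(6, 1)], [(9, 1)], [(8, 1)], [(11, 1)], [(1, 1)], [(10, 1)], [(0, 1)], [(3, 1)],
      [(2, 1)], [(5, 1)], [(7, 1)]]
    []
    .nil)
   (.lp [2, 0, 0, 0, 2, 2] [] [-1, -1, 0, 0, 0, 0, 0, 0, -1, -1, -1, -1] 4 5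
    [[(7, 1)], [(6, 1)], [(9, 1)], [(8, 1)], [(11, 1)], [(10, 1)], [(1, 1)], [(0, 1)], [(3, 1)],
      [(2, 1)], [(5, 1)], [(4, 1)]]
    []
    .nil)))

/-- the trees for `m = 6` -/
def tr6 (q : Fin 18) : Tr :=
  ([tr6_0, tr6_1, tr6_2, tr6_3, tr6_4, tr6_5, tr6_6, tr6_7, tr6_8, tr6_9, tr6_10, tr6_11, tr6_12, tr6_13, tr6_14, tr6_15, tr6_16, tr6_17] : List Tr).getD q.val Tr.nil

theorem ok6 : ∀ q : Fin 18, chk (canC6 q) sch6 (tr6 q) (fun _ => Ty.U)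
    [(List.replicate 6 1, ((6 : ℕ) : ℤ) - 2)] none = true := by
  decide +kernel

end Pool.Agent.Lib_MP_fa6e45
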