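import Pool.Agent.Lib_MP_fa6e45.ZT0

/-!
MP_fa6e45_co, stage 3: certificate trees for the patterns with 10 marked corners (generated).
-/

namespace Pool.Agent.Lib_MP_fa6e45

/-- classes `0 0 1 2 1 2 3 4 3 4`, active pairs `3-4 3-5 7-8 7-9` -/
def trS10_0 : Tr2 :=
  .splitT 0
 (.lp .none [2, 4, 2, 6, 2, 2, 2, 6, 2, 2] [] [-1, -1, -2, -2, -1, -1, -3, -3, -1, -1, -1, -1, -1,
      -1, -3, -3, -1, -1, -1, -1] 8 5
  [[(1, 2), (14, 4), (17, 2), (18, 2)], [(0, 2), (2, 3), (3, 3), (5, 2)], [(0, 3), (2, 4), (3, 4),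
      (5, 3)], [(0, 3), (2, 4), (3, 4), (5, 3)], [(0, 2), (2, 3), (3, 3), (5, 2)], [(4, 2), (7, 4),
      (8, 2), (11, 2)], [(4, 4), (7, 6), (8, 4), (11, 4)], [(6, 6), (9, 4), (10, 4), (13, 4)], [(6,
      4), (9, 2), (10, 2), (13, 2)], [(4, 2), (7, 4), (8, 2), (11, 2)], [(4, 2), (7, 4), (8, 2),
      (11, 2)], [(6, 4), (9, 2), (10, 2), (13, 2)], [(6, 4), (9, 2), (10, 2), (13, 2)], [(12, 2),
      (15, 4), (16, 2), (19, 2)], [(12, 4), (15, 6), (16, 4), (19, 4)], [(1, 4), (14, 6), (17, 4),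
      (18, 4)], [(1, 2), (14, 4), (17, 2), (18, 2)], [(12, 2), (15, 4), (16, 2), (19, 2)], [(12,
      2), (15, 4), (16, 2), (19, 2)], [(1, 2), (14, 4), (17, 2), (18, 2)]]
  []
  .nil)
 (.lp .none [6, 8, 6, 18, 6, 6, 6, 18, 6, 6] [] [-3, -3, -4, -4, -3, -3, -9, -9, -3, -3, -3, -3,
      -3, -3, -9, -9, -3, -3, -3, -3] 24 5
  [[(1, 6), (14, 12), (17, 6), (18, 6)], [(5, 6)], [(2, 8)], [(3, 8)], [(0, 6)], [(4, 6), (7, 12),
      (8, 6), (11, 6)], [(4, 12), (7, 18), (8, 12), (11, 12)], [(6, 18), (9, 12), (10, 12), (13,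
      12)], [(6, 12), (9, 6), (10, 6), (13, 6)], [(4, 6), (7, 12), (8, 6), (11, 6)], [(4, 6), (7,
      12), (8, 6), (11, 6)], [(6, 12), (9, 6), (10, 6), (13, 6)], [(6, 12), (9, 6), (10, 6), (13,
      6)], [(12, 6), (15, 12), (16, 6), (19, 6)], [(12, 12), (15, 18), (16, 12), (19, 12)], [(1,
      12), (14, 18), (17, 12), (18, 12)], [(1, 6), (14, 12), (17, 6), (18, 6)], [(12, 6), (15, 12),
      (16, 6), (19, 6)], [(12, 6), (15, 12), (16, 6), (19, 6)], [(1, 6), (14, 12), (17, 6), (18,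
      6)]]
  []
  .nil)
 (.lp .none [2, 2, 2, 6, 2, 2, 2, 6, 2, 2] [] [-1, -1, -1, -1, -1, -1, -3, -3, -1, -1, -1, -1, -1,
      -1, -3, -3, -1, -1, -1, -1] 8 5
  [[(1, 2), (14, 4), (17, 2), (18, 2)], [(2, 2)], [(5, 2)], [(0, 2)], [(3, 2)], [(4, 2), (7, 4),
      (8, 2), (11, 2)], [(4, 4), (7, 6), (8, 4), (11, 4)], [(6, 6), (9, 4), (10, 4), (13, 4)], [(6,
      4), (9, 2), (10, 2), (13, 2)], [(4, 2), (7, 4), (8, 2), (11, 2)], [(4, 2), (7, 4), (8, 2),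
      (11, 2)], [(6, 4), (9, 2), (10, 2), (13, 2)], [(6, 4), (9, 2), (10, 2), (13, 2)], [(12, 2),
      (15, 4), (16, 2), (19, 2)], [(12, 4), (15, 6), (16, 4), (19, 4)], [(1, 4), (14, 6), (17, 4),
      (18, 4)], [(1, 2), (14, 4), (17, 2), (18, 2)], [(12, 2), (15, 4), (16, 2), (19, 2)], [(12,
      2), (15, 4), (16, 2), (19, 2)], [(1, 2), (14, 4), (17, 2), (18, 2)]]
  []
  .nil)

/-- classes `0 0 1 2 1 2 3 4 3 4`, active pairs `3-4 3-5 7-8 8-9` -/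
def trS10_1 : Tr2 :=
  .splitT 0
 (.lp .none [2, 4, 2, 6, 2, 2, 2, 2, 6, 2] [] [-1, -1, -2, -2, -1, -1, -3, -3, -1, -1, -1, -1, -1,
      -1, -1, -1, -3, -3, -1, -1] 8 5
  [[(1, 2), (14, 2), (17, 4), (18, 2)], [(0, 2), (2, 3), (3, 3), (5, 2)], [(0, 3), (2, 4), (3, 4),
      (5, 3)], [(0, 3), (2, 4), (3, 4), (5, 3)], [(0, 2), (2, 3), (3, 3), (5, 2)], [(4, 2), (7, 4),
      (8, 2), (11, 2)], [(4, 4), (7, 6), (8, 4), (11, 4)], [(6, 6), (9, 4), (10, 4), (13, 4)], [(6,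
      4), (9, 2), (10, 2), (13, 2)], [(4, 2), (7, 4), (8, 2), (11, 2)], [(4, 2), (7, 4), (8, 2),
      (11, 2)], [(6, 4), (9, 2), (10, 2), (13, 2)], [(6, 4), (9, 2), (10, 2), (13, 2)], [(12, 2),
      (15, 2), (16, 4), (19, 2)], [(12, 2), (15, 2), (16, 4), (19, 2)], [(1, 2), (14, 2), (17, 4),
      (18, 2)], [(1, 4), (14, 4), (17, 6), (18, 4)], [(12, 4), (15, 4), (16, 6), (19, 4)], [(12,
      2), (15, 2), (16, 4), (19, 2)], [(1, 2), (14, 2), (17, 4), (18, 2)]]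
  []
  .nil)
 (.lp .none [6, 8, 6, 18, 6, 6, 6, 6, 18, 6] [] [-3, -3, -4, -4, -3, -3, -9, -9, -3, -3, -3, -3,
      -3, -3, -3, -3, -9, -9, -3, -3] 24 5
  [[(1, 6), (14, 6), (17, 12), (18, 6)], [(5, 6)], [(2, 8)], [(3, 8)], [(0, 6)], [(4, 6), (7, 12),
      (8, 6), (11, 6)], [(4, 12), (7, 18), (8, 12), (11, 12)], [(6, 18), (9, 12), (10, 12), (13,
      12)], [(6, 12), (9, 6), (10, 6), (13, 6)], [(4, 6), (7, 12), (8, 6), (11, 6)], [(4, 6), (7,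
      12), (8, 6), (11, 6)], [(6, 12), (9, 6), (10, 6), (13, 6)], [(6, 12), (9, 6), (10, 6), (13,
      6)], [(12, 6), (15, 6), (16, 12), (19, 6)], [(12, 6), (15, 6), (16, 12), (19, 6)], [(1, 6),
      (14, 6), (17, 12), (18, 6)], [(1, 12), (14, 12), (17, 18), (18, 12)], [(12, 12), (15, 12),
      (16, 18), (19, 12)], [(12, 6), (15, 6), (16, 12), (19, 6)], [(1, 6), (14, 6), (17, 12), (18,
      6)]]
  []
  .nil)
 (.lp .none [2, 2, 2, 6, 2, 2, 2, 2, 6, 2] [] [-1, -1, -1, -1, -1, -1, -3, -3, -1, -1, -1, -1, -1,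
      -1, -1, -1, -3, -3, -1, -1] 8 5
  [[(1, 2), (14, 2), (17, 4), (18, 2)], [(2, 2)], [(5, 2)], [(0, 2)], [(3, 2)], [(4, 2), (7, 4),
      (8, 2), (11, 2)], [(4, 4), (7, 6), (8, 4), (11, 4)], [(6, 6), (9, 4), (10, 4), (13, 4)], [(6,
      4), (9, 2), (10, 2), (13, 2)], [(4, 2), (7, 4), (8, 2), (11, 2)], [(4, 2), (7, 4), (8, 2),
      (11, 2)], [(6, 4), (9, 2), (10, 2), (13, 2)], [(6, 4), (9, 2), (10, 2), (13, 2)], [(12, 2),
      (15, 2), (16, 4), (19, 2)], [(12, 2), (15, 2), (16, 4), (19, 2)], [(1, 2), (14, 2), (17, 4),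
      (18, 2)], [(1, 4), (14, 4), (17, 6), (18, 4)], [(12, 4), (15, 4), (16, 6), (19, 4)], [(12,
      2), (15, 2), (16, 4), (19, 2)], [(1, 2), (14, 2), (17, 4), (18, 2)]]
  []
  .nil)

/-- classes `0 0 1 2 1 2 3 4 3 4`, active pairs `3-4 3-5 7-9 8-9` -/
def trS10_2 : Tr2 :=
  .splitT 0
 (.lp .none [2, 4, 2, 6, 2, 2, 2, 2, 2, 6] [] [-1, -1, -2, -2, -1, -1, -3, -3, -1, -1, -1, -1, -1,
      -1, -1, -1, -1, -1, -3, -3] 8 5
  [[(1, 2), (14, 2), (17, 2), (18, 4)], [(0, 2), (2, 3), (3, 3), (5, 2)], [(0, 3), (2, 4), (3, 4),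
      (5, 3)], [(0, 3), (2, 4), (3, 4), (5, 3)], [(0, 2), (2, 3), (3, 3), (5, 2)], [(4, 2), (7, 4),
      (8, 2), (11, 2)], [(4, 4), (7, 6), (8, 4), (11, 4)], [(6, 6), (9, 4), (10, 4), (13, 4)], [(6,
      4), (9, 2), (10, 2), (13, 2)], [(4, 2), (7, 4), (8, 2), (11, 2)], [(4, 2), (7, 4), (8, 2),
      (11, 2)], [(6, 4), (9, 2), (10, 2), (13, 2)], [(6, 4), (9, 2), (10, 2), (13, 2)], [(12, 2),
      (15, 2), (16, 2), (19, 4)], [(12, 2), (15, 2), (16, 2), (19, 4)], [(1, 2), (14, 2), (17, 2),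
      (18, 4)], [(1, 2), (14, 2), (17, 2), (18, 4)], [(12, 2), (15, 2), (16, 2), (19, 4)], [(12,
      4), (15, 4), (16, 4), (19, 6)], [(1, 4), (14, 4), (17, 4), (18, 6)]]
  []
  .nil)
 (.lp .none [6, 8, 6, 18, 6, 6, 6, 6, 6, 18] [] [-3, -3, -4, -4, -3, -3, -9, -9, -3, -3, -3, -3,
      -3, -3, -3, -3, -3, -3, -9, -9] 24 5
  [[(1, 6), (14, 6), (17, 6), (18, 12)], [(5, 6)], [(2, 8)], [(3, 8)], [(0, 6)], [(4, 6), (7, 12),
      (8, 6), (11, 6)], [(4, 12), (7, 18), (8, 12), (11, 12)], [(6, 18), (9, 12), (10, 12), (13,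
      12)], [(6, 12), (9, 6), (10, 6), (13, 6)], [(4, 6), (7, 12), (8, 6), (11, 6)], [(4, 6), (7,
      12), (8, 6), (11, 6)], [(6, 12), (9, 6), (10, 6), (13, 6)], [(6, 12), (9, 6), (10, 6), (13,
      6)], [(12, 6), (15, 6), (16, 6), (19, 12)], [(12, 6), (15, 6), (16, 6), (19, 12)], [(1, 6),
      (14, 6), (17, 6), (18, 12)], [(1, 6), (14, 6), (17, 6), (18, 12)], [(12, 6), (15, 6), (16,
      6), (19, 12)], [(12, 12), (15, 12), (16, 12), (19, 18)], [(1, 12), (14, 12), (17, 12), (18,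
      18)]]
  []
  .nil)
 (.lp .none [2, 2, 2, 6, 2, 2, 2, 2, 2, 6] [] [-1, -1, -1, -1, -1, -1, -3, -3, -1, -1, -1, -1, -1,
      -1, -1, -1, -1, -1, -3, -3] 8 5
  [[(1, 2), (14, 2), (17, 2), (18, 4)], [(2, 2)], [(5, 2)], [(0, 2)], [(3, 2)], [(4, 2), (7, 4),
      (8, 2), (11, 2)], [(4, 4), (7, 6), (8, 4), (11, 4)], [(6, 6), (9, 4), (10, 4), (13, 4)], [(6,
      4), (9, 2), (10, 2), (13, 2)], [(4, 2), (7, 4), (8, 2), (11, 2)], [(4, 2), (7, 4), (8, 2),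
      (11, 2)], [(6, 4), (9, 2), (10, 2), (13, 2)], [(6, 4), (9, 2), (10, 2), (13, 2)], [(12, 2),
      (15, 2), (16, 2), (19, 4)], [(12, 2), (15, 2), (16, 2), (19, 4)], [(1, 2), (14, 2), (17, 2),
      (18, 4)], [(1, 2), (14, 2), (17, 2), (18, 4)], [(12, 2), (15, 2), (16, 2), (19, 4)], [(12,
      4), (15, 4), (16, 4), (19, 6)], [(1, 4), (14, 4), (17, 4), (18, 6)]]
  []
  .nil)

/-- classes `0 0 1 2 1 2 3 4 3 4`, active pairs `3-4 4-5 7-8 7-9` -/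
def trS10_3 : Tr2 :=
  .splitT 0
 (.lp .none [2, 4, 2, 2, 6, 2, 2, 6, 2, 2] [] [-1, -1, -2, -2, -1, -1, -1, -1, -3, -3, -1, -1, -1,
      -1, -3, -3, -1, -1, -1, -1] 8 5
  [[(1, 2), (14, 4), (17, 2), (18, 2)], [(0, 2), (2, 3), (3, 3), (5, 2)], [(0, 3), (2, 4), (3, 4),
      (5, 3)], [(0, 3), (2, 4), (3, 4), (5, 3)], [(0, 2), (2, 3), (3, 3), (5, 2)], [(4, 2), (7, 2),
      (8, 4), (11, 2)], [(4, 2), (7, 2), (8, 4), (11, 2)], [(6, 2), (9, 4), (10, 2), (13, 2)], [(6,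
      4), (9, 6), (10, 4), (13, 4)], [(4, 4), (7, 4), (8, 6), (11, 4)], [(4, 2), (7, 2), (8, 4),
      (11, 2)], [(6, 2), (9, 4), (10, 2), (13, 2)], [(6, 2), (9, 4), (10, 2), (13, 2)], [(12, 2),
      (15, 4), (16, 2), (19, 2)], [(12, 4), (15, 6), (16, 4), (19, 4)], [(1, 4), (14, 6), (17, 4),
      (18, 4)], [(1, 2), (14, 4), (17, 2), (18, 2)], [(12, 2), (15, 4), (16, 2), (19, 2)], [(12,
      2), (15, 4), (16, 2), (19, 2)], [(1, 2), (14, 4), (17, 2), (18, 2)]]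
  []
  .nil)
 (.lp .none [6, 8, 6, 6, 18, 6, 6, 18, 6, 6] [] [-3, -3, -4, -4, -3, -3, -3, -3, -9, -9, -3, -3,
      -3, -3, -9, -9, -3, -3, -3, -3] 24 5
  [[(1, 6), (14, 12), (17, 6), (18, 6)], [(5, 6)], [(2, 8)], [(3, 8)], [(0, 6)], [(4, 6), (7, 6),
      (8, 12), (11, 6)], [(4, 6), (7, 6), (8, 12), (11, 6)], [(6, 6), (9, 12), (10, 6), (13, 6)],
      [(6, 12), (9, 18), (10, 12), (13, 12)], [(4, 12), (7, 12), (8, 18), (11, 12)], [(4, 6), (7,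
      6), (8, 12), (11, 6)], [(6, 6), (9, 12), (10, 6), (13, 6)], [(6, 6), (9, 12), (10, 6), (13,
      6)], [(12, 6), (15, 12), (16, 6), (19, 6)], [(12, 12), (15, 18), (16, 12), (19, 12)], [(1,
      12), (14, 18), (17, 12), (18, 12)], [(1, 6), (14, 12), (17, 6), (18, 6)], [(12, 6), (15, 12),
      (16, 6), (19, 6)], [(12, 6), (15, 12), (16, 6), (19, 6)], [(1, 6), (14, 12), (17, 6), (18,
      6)]]
  []
  .nil)
 (.lp .none [2, 2, 2, 2, 6, 2, 2, 6, 2, 2] [] [-1, -1, -1, -1, -1, -1, -1, -1, -3, -3, -1, -1, -1,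
      -1, -3, -3, -1, -1, -1, -1] 8 5
  [[(1, 2), (14, 4), (17, 2), (18, 2)], [(2, 2)], [(5, 2)], [(0, 2)], [(3, 2)], [(4, 2), (7, 2),
      (8, 4), (11, 2)], [(4, 2), (7, 2), (8, 4), (11, 2)], [(6, 2), (9, 4), (10, 2), (13, 2)], [(6,
      4), (9, 6), (10, 4), (13, 4)], [(4, 4), (7, 4), (8, 6), (11, 4)], [(4, 2), (7, 2), (8, 4),
      (11, 2)], [(6, 2), (9, 4), (10, 2), (13, 2)], [(6, 2), (9, 4), (10, 2), (13, 2)], [(12, 2),
      (15, 4), (16, 2), (19, 2)], [(12, 4), (15, 6), (16, 4), (19, 4)], [(1, 4), (14, 6), (17, 4),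
      (18, 4)], [(1, 2), (14, 4), (17, 2), (18, 2)], [(12, 2), (15, 4), (16, 2), (19, 2)], [(12,
      2), (15, 4), (16, 2), (19, 2)], [(1, 2), (14, 4), (17, 2), (18, 2)]]
  []
  .nil)

/-- classes `0 0 1 2 1 2 3 4 3 4`, active pairs `3-4 4-5 7-8 8-9` -/
def trS10_4 : Tr2 :=
  .splitT 0
 (.lp .none [2, 4, 2, 2, 6, 2, 2, 2, 6, 2] [] [-1, -1, -2, -2, -1, -1, -1, -1, -3, -3, -1, -1, -1,
      -1, -1, -1, -3, -3, -1, -1] 8 5
  [[(1, 2), (14, 2), (17, 4), (18, 2)], [(0, 2), (2, 3), (3, 3), (5, 2)], [(0, 3), (2, 4), (3, 4),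
      (5, 3)], [(0, 3), (2, 4), (3, 4), (5, 3)], [(0, 2), (2, 3), (3, 3), (5, 2)], [(4, 2), (7, 2),
      (8, 4), (11, 2)], [(4, 2), (7, 2), (8, 4), (11, 2)], [(6, 2), (9, 4), (10, 2), (13, 2)], [(6,
      4), (9, 6), (10, 4), (13, 4)], [(4, 4), (7, 4), (8, 6), (11, 4)], [(4, 2), (7, 2), (8, 4),
      (11, 2)], [(6, 2), (9, 4), (10, 2), (13, 2)], [(6, 2), (9, 4), (10, 2), (13, 2)], [(12, 2),
      (15, 2), (16, 4), (19, 2)], [(12, 2), (15, 2), (16, 4), (19, 2)], [(1, 2), (14, 2), (17, 4),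
      (18, 2)], [(1, 4), (14, 4), (17, 6), (18, 4)], [(12, 4), (15, 4), (16, 6), (19, 4)], [(12,
      2), (15, 2), (16, 4), (19, 2)], [(1, 2), (14, 2), (17, 4), (18, 2)]]
  []
  .nil)
 (.lp .none [6, 8, 6, 6, 18, 6, 6, 6, 18, 6] [] [-3, -3, -4, -4, -3, -3, -3, -3, -9, -9, -3, -3,
      -3, -3, -3, -3, -9, -9, -3, -3] 24 5
  [[(1, 6), (14, 6), (17, 12), (18, 6)], [(5, 6)], [(2, 8)], [(3, 8)], [(0, 6)], [(4, 6), (7, 6),
      (8, 12), (11, 6)], [(4, 6), (7, 6), (8, 12), (11, 6)], [(6, 6), (9, 12), (10, 6), (13, 6)],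
      [(6, 12), (9, 18), (10, 12), (13, 12)], [(4, 12), (7, 12), (8, 18), (11, 12)], [(4, 6), (7,
      6), (8, 12), (11, 6)], [(6, 6), (9, 12), (10, 6), (13, 6)], [(6, 6), (9, 12), (10, 6), (13,
      6)], [(12, 6), (15, 6), (16, 12), (19, 6)], [(12, 6), (15, 6), (16, 12), (19, 6)], [(1, 6),
      (14, 6), (17, 12), (18, 6)], [(1, 12), (14, 12), (17, 18), (18, 12)], [(12, 12), (15, 12),
      (16, 18), (19, 12)], [(12, 6), (15, 6), (16, 12), (19, 6)], [(1, 6), (14, 6), (17, 12), (18,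
      6)]]
  []
  .nil)
 (.lp .none [2, 2, 2, 2, 6, 2, 2, 2, 6, 2] [] [-1, -1, -1, -1, -1, -1, -1, -1, -3, -3, -1, -1, -1,
      -1, -1, -1, -3, -3, -1, -1] 8 5
  [[(1, 2), (14, 2), (17, 4), (18, 2)], [(2, 2)], [(5, 2)], [(0, 2)], [(3, 2)], [(4, 2), (7, 2),
      (8, 4), (11, 2)], [(4, 2), (7, 2), (8, 4), (11, 2)], [(6, 2), (9, 4), (10, 2), (13, 2)], [(6,
      4), (9, 6), (10, 4), (13, 4)], [(4, 4), (7, 4), (8, 6), (11, 4)], [(4, 2), (7, 2), (8, 4),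
      (11, 2)], [(6, 2), (9, 4), (10, 2), (13, 2)], [(6, 2), (9, 4), (10, 2), (13, 2)], [(12, 2),
      (15, 2), (16, 4), (19, 2)], [(12, 2), (15, 2), (16, 4), (19, 2)], [(1, 2), (14, 2), (17, 4),
      (18, 2)], [(1, 4), (14, 4), (17, 6), (18, 4)], [(12, 4), (15, 4), (16, 6), (19, 4)], [(12,
      2), (15, 2), (16, 4), (19, 2)], [(1, 2), (14, 2), (17, 4), (18, 2)]]
  []
  .nil)

/-- classes `0 0 1 2 1 2 3 4 3 4`, active pairs `3-4 4-5 7-9 8-9` -/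
def trS10_5 : Tr2 :=
  .splitT 0
 (.lp .none [2, 4, 2, 2, 6, 2, 2, 2, 2, 6] [] [-1, -1, -2, -2, -1, -1, -1, -1, -3, -3, -1, -1, -1,
      -1, -1, -1, -1, -1, -3, -3] 8 5
  [[(1, 2), (14, 2), (17, 2), (18, 4)], [(0, 2), (2, 3), (3, 3), (5, 2)], [(0, 3), (2, 4), (3, 4),
      (5, 3)], [(0, 3), (2, 4), (3, 4), (5, 3)], [(0, 2), (2, 3), (3, 3), (5, 2)], [(4, 2), (7, 2),
      (8, 4), (11, 2)], [(4, 2), (7, 2), (8, 4), (11, 2)], [(6, 2), (9, 4), (10, 2), (13, 2)], [(6,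
      4), (9, 6), (10, 4), (13, 4)], [(4, 4), (7, 4), (8, 6), (11, 4)], [(4, 2), (7, 2), (8, 4),
      (11, 2)], [(6, 2), (9, 4), (10, 2), (13, 2)], [(6, 2), (9, 4), (10, 2), (13, 2)], [(12, 2),
      (15, 2), (16, 2), (19, 4)], [(12, 2), (15, 2), (16, 2), (19, 4)], [(1, 2), (14, 2), (17, 2),
      (18, 4)], [(1, 2), (14, 2), (17, 2), (18, 4)], [(12, 2), (15, 2), (16, 2), (19, 4)], [(12,
      4), (15, 4), (16, 4), (19, 6)], [(1, 4), (14, 4), (17, 4), (18, 6)]]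
  []
  .nil)
 (.lp .none [6, 8, 6, 6, 18, 6, 6, 6, 6, 18] [] [-3, -3, -4, -4, -3, -3, -3, -3, -9, -9, -3, -3,
      -3, -3, -3, -3, -3, -3, -9, -9] 24 5
  [[(1, 6), (14, 6), (17, 6), (18, 12)], [(5, 6)], [(2, 8)], [(3, 8)], [(0, 6)], [(4, 6), (7, 6),
      (8, 12), (11, 6)], [(4, 6), (7, 6), (8, 12), (11, 6)], [(6, 6), (9, 12), (10, 6), (13, 6)],
      [(6, 12), (9, 18), (10, 12), (13, 12)], [(4, 12), (7, 12), (8, 18), (11, 12)], [(4, 6), (7,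
      6), (8, 12), (11, 6)], [(6, 6), (9, 12), (10, 6), (13, 6)], [(6, 6), (9, 12), (10, 6), (13,
      6)], [(12, 6), (15, 6), (16, 6), (19, 12)], [(12, 6), (15, 6), (16, 6), (19, 12)], [(1, 6),
      (14, 6), (17, 6), (18, 12)], [(1, 6), (14, 6), (17, 6), (18, 12)], [(12, 6), (15, 6), (16,
      6), (19, 12)], [(12, 12), (15, 12), (16, 12), (19, 18)], [(1, 12), (14, 12), (17, 12), (18,
      18)]]
  []
  .nil)
 (.lp .none [2, 2, 2, 2, 6, 2, 2, 2, 2, 6] [] [-1, -1, -1, -1, -1, -1, -1, -1, -3, -3, -1, -1, -1,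
      -1, -1, -1, -1, -1, -3, -3] 8 5
  [[(1, 2), (14, 2), (17, 2), (18, 4)], [(2, 2)], [(5, 2)], [(0, 2)], [(3, 2)], [(4, 2), (7, 2),
      (8, 4), (11, 2)], [(4, 2), (7, 2), (8, 4), (11, 2)], [(6, 2), (9, 4), (10, 2), (13, 2)], [(6,
      4), (9, 6), (10, 4), (13, 4)], [(4, 4), (7, 4), (8, 6), (11, 4)], [(4, 2), (7, 2), (8, 4),
      (11, 2)], [(6, 2), (9, 4), (10, 2), (13, 2)], [(6, 2), (9, 4), (10, 2), (13, 2)], [(12, 2),
      (15, 2), (16, 2), (19, 4)], [(12, 2), (15, 2), (16, 2), (19, 4)], [(1, 2), (14, 2), (17, 2),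
      (18, 4)], [(1, 2), (14, 2), (17, 2), (18, 4)], [(12, 2), (15, 2), (16, 2), (19, 4)], [(12,
      4), (15, 4), (16, 4), (19, 6)], [(1, 4), (14, 4), (17, 4), (18, 6)]]
  []
  .nil)

/-- classes `0 0 1 2 1 2 3 4 3 4`, active pairs `3-5 4-5 7-8 7-9` -/
def trS10_6 : Tr2 :=
  .splitT 0
 (.lp .none [2, 4, 2, 2, 2, 6, 2, 6, 2, 2] [] [-1, -1, -2, -2, -1, -1, -1, -1, -1, -1, -3, -3, -1,
      -1, -3, -3, -1, -1, -1, -1] 8 5
  [[(1, 2), (14, 4), (17, 2), (18, 2)], [(0, 2), (2, 3), (3, 3), (5, 2)], [(0, 3), (2, 4), (3, 4),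
      (5, 3)], [(0, 3), (2, 4), (3, 4), (5, 3)], [(0, 2), (2, 3), (3, 3), (5, 2)], [(4, 2), (7, 2),
      (8, 2), (11, 4)], [(4, 2), (7, 2), (8, 2), (11, 4)], [(6, 2), (9, 2), (10, 4), (13, 2)], [(6,
      2), (9, 2), (10, 4), (13, 2)], [(4, 2), (7, 2), (8, 2), (11, 4)], [(4, 4), (7, 4), (8, 4),
      (11, 6)], [(6, 4), (9, 4), (10, 6), (13, 4)], [(6, 2), (9, 2), (10, 4), (13, 2)], [(12, 2),
      (15, 4), (16, 2), (19, 2)], [(12, 4), (15, 6), (16, 4), (19, 4)], [(1, 4), (14, 6), (17, 4),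
      (18, 4)], [(1, 2), (14, 4), (17, 2), (18, 2)], [(12, 2), (15, 4), (16, 2), (19, 2)], [(12,
      2), (15, 4), (16, 2), (19, 2)], [(1, 2), (14, 4), (17, 2), (18, 2)]]
  []
  .nil)
 (.lp .none [6, 8, 6, 6, 6, 18, 6, 18, 6, 6] [] [-3, -3, -4, -4, -3, -3, -3, -3, -3, -3, -9, -9,
      -3, -3, -9, -9, -3, -3, -3, -3] 24 5
  [[(1, 6), (14, 12), (17, 6), (18, 6)], [(5, 6)], [(2, 8)], [(3, 8)], [(0, 6)], [(4, 6), (7, 6),
      (8, 6), (11, 12)], [(4, 6), (7, 6), (8, 6), (11, 12)], [(6, 6), (9, 6), (10, 12), (13, 6)],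
      [(6, 6), (9, 6), (10, 12), (13, 6)], [(4, 6), (7, 6), (8, 6), (11, 12)], [(4, 12), (7, 12),
      (8, 12), (11, 18)], [(6, 12), (9, 12), (10, 18), (13, 12)], [(6, 6), (9, 6), (10, 12), (13,
      6)], [(12, 6), (15, 12), (16, 6), (19, 6)], [(12, 12), (15, 18), (16, 12), (19, 12)], [(1,
      12), (14, 18), (17, 12), (18, 12)], [(1, 6), (14, 12), (17, 6), (18, 6)], [(12, 6), (15, 12),
      (16, 6), (19, 6)], [(12, 6), (15, 12), (16, 6), (19, 6)], [(1, 6), (14, 12), (17, 6), (18,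
      6)]]
  []
  .nil)
 (.lp .none [2, 2, 2, 2, 2, 6, 2, 6, 2, 2] [] [-1, -1, -1, -1, -1, -1, -1, -1, -1, -1, -3, -3, -1,
      -1, -3, -3, -1, -1, -1, -1] 8 5
  [[(1, 2), (14, 4), (17, 2), (18, 2)], [(2, 2)], [(5, 2)], [(0, 2)], [(3, 2)], [(4, 2), (7, 2),
      (8, 2), (11, 4)], [(4, 2), (7, 2), (8, 2), (11, 4)], [(6, 2), (9, 2), (10, 4), (13, 2)], [(6,
      2), (9, 2), (10, 4), (13, 2)], [(4, 2), (7, 2), (8, 2), (11, 4)], [(4, 4), (7, 4), (8, 4),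
      (11, 6)], [(6, 4), (9, 4), (10, 6), (13, 4)], [(6, 2), (9, 2), (10, 4), (13, 2)], [(12, 2),
      (15, 4), (16, 2), (19, 2)], [(12, 4), (15, 6), (16, 4), (19, 4)], [(1, 4), (14, 6), (17, 4),
      (18, 4)], [(1, 2), (14, 4), (17, 2), (18, 2)], [(12, 2), (15, 4), (16, 2), (19, 2)], [(12,
      2), (15, 4), (16, 2), (19, 2)], [(1, 2), (14, 4), (17, 2), (18, 2)]]
  []
  .nil)

/-- classes `0 0 1 2 1 2 3 4 3 4`, active pairs `3-5 4-5 7-8 8-9` -/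
def trS10_7 : Tr2 :=
  .splitT 0
 (.lp .none [2, 4, 2, 2, 2, 6, 2, 2, 6, 2] [] [-1, -1, -2, -2, -1, -1, -1, -1, -1, -1, -3, -3, -1,
      -1, -1, -1, -3, -3, -1, -1] 8 5
  [[(1, 2), (14, 2), (17, 4), (18, 2)], [(0, 2), (2, 3), (3, 3), (5, 2)], [(0, 3), (2, 4), (3, 4),
      (5, 3)], [(0, 3), (2, 4), (3, 4), (5, 3)], [(0, 2), (2, 3), (3, 3), (5, 2)], [(4, 2), (7, 2),
      (8, 2), (11, 4)], [(4, 2), (7, 2), (8, 2), (11, 4)], [(6, 2), (9, 2), (10, 4), (13, 2)], [(6,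
      2), (9, 2), (10, 4), (13, 2)], [(4, 2), (7, 2), (8, 2), (11, 4)], [(4, 4), (7, 4), (8, 4),
      (11, 6)], [(6, 4), (9, 4), (10, 6), (13, 4)], [(6, 2), (9, 2), (10, 4), (13, 2)], [(12, 2),
      (15, 2), (16, 4), (19, 2)], [(12, 2), (15, 2), (16, 4), (19, 2)], [(1, 2), (14, 2), (17, 4),
      (18, 2)], [(1, 4), (14, 4), (17, 6), (18, 4)], [(12, 4), (15, 4), (16, 6), (19, 4)], [(12,
      2), (15, 2), (16, 4), (19, 2)], [(1, 2), (14, 2), (17, 4), (18, 2)]]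
  []
  .nil)
 (.lp .none [6, 8, 6, 6, 6, 18, 6, 6, 18, 6] [] [-3, -3, -4, -4, -3, -3, -3, -3, -3, -3, -9, -9,
      -3, -3, -3, -3, -9, -9, -3, -3] 24 5
  [[(1, 6), (14, 6), (17, 12), (18, 6)], [(5, 6)], [(2, 8)], [(3, 8)], [(0, 6)], [(4, 6), (7, 6),
      (8, 6), (11, 12)], [(4, 6), (7, 6), (8, 6), (11, 12)], [(6, 6), (9, 6), (10, 12), (13, 6)],
      [(6, 6), (9, 6), (10, 12), (13, 6)], [(4, 6), (7, 6), (8, 6), (11, 12)], [(4, 12), (7, 12),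
      (8, 12), (11, 18)], [(6, 12), (9, 12), (10, 18), (13, 12)], [(6, 6), (9, 6), (10, 12), (13,
      6)], [(12, 6), (15, 6), (16, 12), (19, 6)], [(12, 6), (15, 6), (16, 12), (19, 6)], [(1, 6),
      (14, 6), (17, 12), (18, 6)], [(1, 12), (14, 12), (17, 18), (18, 12)], [(12, 12), (15, 12),
      (16, 18), (19, 12)], [(12, 6), (15, 6), (16, 12), (19, 6)], [(1, 6), (14, 6), (17, 12), (18,
      6)]]
  []
  .nil)
 (.lp .none [2, 2, 2, 2, 2, 6, 2, 2, 6, 2] [] [-1, -1, -1, -1, -1, -1, -1, -1, -1, -1, -3, -3, -1,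
      -1, -1, -1, -3, -3, -1, -1] 8 5
  [[(1, 2), (14, 2), (17, 4), (18, 2)], [(2, 2)], [(5, 2)], [(0, 2)], [(3, 2)], [(4, 2), (7, 2),
      (8, 2), (11, 4)], [(4, 2), (7, 2), (8, 2), (11, 4)], [(6, 2), (9, 2), (10, 4), (13, 2)], [(6,
      2), (9, 2), (10, 4), (13, 2)], [(4, 2), (7, 2), (8, 2), (11, 4)], [(4, 4), (7, 4), (8, 4),
      (11, 6)], [(6, 4), (9, 4), (10, 6), (13, 4)], [(6, 2), (9, 2), (10, 4), (13, 2)], [(12, 2),
      (15, 2), (16, 4), (19, 2)], [(12, 2), (15, 2), (16, 4), (19, 2)], [(1, 2), (14, 2), (17, 4),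
      (18, 2)], [(1, 4), (14, 4), (17, 6), (18, 4)], [(12, 4), (15, 4), (16, 6), (19, 4)], [(12,
      2), (15, 2), (16, 4), (19, 2)], [(1, 2), (14, 2), (17, 4), (18, 2)]]
  []
  .nil)

/-- classes `0 0 1 2 1 2 3 4 3 4`, active pairs `3-5 4-5 7-9 8-9` -/
def trS10_8 : Tr2 :=
  .splitT 0
 (.lp .none [2, 4, 2, 2, 2, 6, 2, 2, 2, 6] [] [-1, -1, -2, -2, -1, -1, -1, -1, -1, -1, -3, -3, -1,
      -1, -1, -1, -1, -1, -3, -3] 8 5
  [[(1, 2), (14, 2), (17, 2), (18, 4)], [(0, 2), (2, 3), (3, 3), (5, 2)], [(0, 3), (2, 4), (3, 4),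
      (5, 3)], [(0, 3), (2, 4), (3, 4), (5, 3)], [(0, 2), (2, 3), (3, 3), (5, 2)], [(4, 2), (7, 2),
      (8, 2), (11, 4)], [(4, 2), (7, 2), (8, 2), (11, 4)], [(6, 2), (9, 2), (10, 4), (13, 2)], [(6,
      2), (9, 2), (10, 4), (13, 2)], [(4, 2), (7, 2), (8, 2), (11, 4)], [(4, 4), (7, 4), (8, 4),
      (11, 6)], [(6, 4), (9, 4), (10, 6), (13, 4)], [(6, 2), (9, 2), (10, 4), (13, 2)], [(12, 2),
      (15, 2), (16, 2), (19, 4)], [(12, 2), (15, 2), (16, 2), (19, 4)], [(1, 2), (14, 2), (17, 2),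
      (18, 4)], [(1, 2), (14, 2), (17, 2), (18, 4)], [(12, 2), (15, 2), (16, 2), (19, 4)], [(12,
      4), (15, 4), (16, 4), (19, 6)], [(1, 4), (14, 4), (17, 4), (18, 6)]]
  []
  .nil)
 (.lp .none [6, 8, 6, 6, 6, 18, 6, 6, 6, 18] [] [-3, -3, -4, -4, -3, -3, -3, -3, -3, -3, -9, -9,
      -3, -3, -3, -3, -3, -3, -9, -9] 24 5
  [[(1, 6), (14, 6), (17, 6), (18, 12)], [(5, 6)], [(2, 8)], [(3, 8)], [(0, 6)], [(4, 6), (7, 6),
      (8, 6), (11, 12)], [(4, 6), (7, 6), (8, 6), (11, 12)], [(6, 6), (9, 6), (10, 12), (13, 6)],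
      [(6, 6), (9, 6), (10, 12), (13, 6)], [(4, 6), (7, 6), (8, 6), (11, 12)], [(4, 12), (7, 12),
      (8, 12), (11, 18)], [(6, 12), (9, 12), (10, 18), (13, 12)], [(6, 6), (9, 6), (10, 12), (13,
      6)], [(12, 6), (15, 6), (16, 6), (19, 12)], [(12, 6), (15, 6), (16, 6), (19, 12)], [(1, 6),
      (14, 6), (17, 6), (18, 12)], [(1, 6), (14, 6), (17, 6), (18, 12)], [(12, 6), (15, 6), (16,
      6), (19, 12)], [(12, 12), (15, 12), (16, 12), (19, 18)], [(1, 12), (14, 12), (17, 12), (18,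
      18)]]
  []
  .nil)
 (.lp .none [2, 2, 2, 2, 2, 6, 2, 2, 2, 6] [] [-1, -1, -1, -1, -1, -1, -1, -1, -1, -1, -3, -3, -1,
      -1, -1, -1, -1, -1, -3, -3] 8 5
  [[(1, 2), (14, 2), (17, 2), (18, 4)], [(2, 2)], [(5, 2)], [(0, 2)], [(3, 2)], [(4, 2), (7, 2),
      (8, 2), (11, 4)], [(4, 2), (7, 2), (8, 2), (11, 4)], [(6, 2), (9, 2), (10, 4), (13, 2)], [(6,
      2), (9, 2), (10, 4), (13, 2)], [(4, 2), (7, 2), (8, 2), (11, 4)], [(4, 4), (7, 4), (8, 4),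
      (11, 6)], [(6, 4), (9, 4), (10, 6), (13, 4)], [(6, 2), (9, 2), (10, 4), (13, 2)], [(12, 2),
      (15, 2), (16, 2), (19, 4)], [(12, 2), (15, 2), (16, 2), (19, 4)], [(1, 2), (14, 2), (17, 2),
      (18, 4)], [(1, 2), (14, 2), (17, 2), (18, 4)], [(12, 2), (15, 2), (16, 2), (19, 4)], [(12,
      4), (15, 4), (16, 4), (19, 6)], [(1, 4), (14, 4), (17, 4), (18, 6)]]
  []
  .nil)

/-- classes `0 1 0 1 2 3 2 3 4 5`, active pairs `1-2 1-3 5-6 5-7` -/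
def trS10_9 : Tr2 :=
  .lp .none [2, 6, 2, 2, 2, 6, 2, 2, 2, 2] [] [-1, -1, -3, -3, -1, -1, -1, -1, -1, -1, -3, -3, -1,
      -1, -1, -1, -1, -1, -1, -1] 8 5
 [[(1, 2), (18, 2)], [(0, 2), (3, 4), (4, 2), (7, 2)], [(0, 4), (3, 6), (4, 4), (7, 4)], [(2, 6),
      (5, 4), (6, 4), (9, 4)], [(2, 4), (5, 2), (6, 2), (9, 2)], [(0, 2), (3, 4), (4, 2), (7, 2)],
      [(0, 2), (3, 4), (4, 2), (7, 2)], [(2, 4), (5, 2), (6, 2), (9, 2)], [(2, 4), (5, 2), (6, 2),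
      (9, 2)], [(8, 2), (11, 4), (12, 2), (15, 2)], [(8, 4), (11, 6), (12, 4), (15, 4)], [(10, 6),
      (13, 4), (14, 4), (17, 4)], [(10, 4), (13, 2), (14, 2), (17, 2)], [(8, 2), (11, 4), (12, 2),
      (15, 2)], [(8, 2), (11, 4), (12, 2), (15, 2)], [(10, 4), (13, 2), (14, 2), (17, 2)], [(10,
      4), (13, 2), (14, 2), (17, 2)], [(16, 2), (19, 2)], [(16, 2), (19, 2)], [(1, 2), (18, 2)]]
 []
 .nil

/-- classes `0 1 0 1 2 3 2 3 4 5`, active pairs `1-2 1-3 5-6 6-7` -/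
def trS10_10 : Tr2 :=
  .lp .none [2, 6, 2, 2, 2, 2, 6, 2, 2, 2] [] [-1, -1, -3, -3, -1, -1, -1, -1, -1, -1, -1, -1, -3,
      -3, -1, -1, -1, -1, -1, -1] 8 5
 [[(1, 2), (18, 2)], [(0, 2), (3, 4), (4, 2), (7, 2)], [(0, 4), (3, 6), (4, 4), (7, 4)], [(2, 6),
      (5, 4), (6, 4), (9, 4)], [(2, 4), (5, 2), (6, 2), (9, 2)], [(0, 2), (3, 4), (4, 2), (7, 2)],
      [(0, 2), (3, 4), (4, 2), (7, 2)], [(2, 4), (5, 2), (6, 2), (9, 2)], [(2, 4), (5, 2), (6, 2),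
      (9, 2)], [(8, 2), (11, 2), (12, 4), (15, 2)], [(8, 2), (11, 2), (12, 4), (15, 2)], [(10, 2),
      (13, 4), (14, 2), (17, 2)], [(10, 4), (13, 6), (14, 4), (17, 4)], [(8, 4), (11, 4), (12, 6),
      (15, 4)], [(8, 2), (11, 2), (12, 4), (15, 2)], [(10, 2), (13, 4), (14, 2), (17, 2)], [(10,
      2), (13, 4), (14, 2), (17, 2)], [(16, 2), (19, 2)], [(16, 2), (19, 2)], [(1, 2), (18, 2)]]
 []
 .nil

/-- classes `0 1 0 1 2 3 2 3 4 5`, active pairs `1-2 1-3 5-7 6-7` -/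
def trS10_11 : Tr2 :=
  .lp .none [2, 6, 2, 2, 2, 2, 2, 6, 2, 2] [] [-1, -1, -3, -3, -1, -1, -1, -1, -1, -1, -1, -1, -1,
      -1, -3, -3, -1, -1, -1, -1] 8 5
 [[(1, 2), (18, 2)], [(0, 2), (3, 4), (4, 2), (7, 2)], [(0, 4), (3, 6), (4, 4), (7, 4)], [(2, 6),
      (5, 4), (6, 4), (9, 4)], [(2, 4), (5, 2), (6, 2), (9, 2)], [(0, 2), (3, 4), (4, 2), (7, 2)],
      [(0, 2), (3, 4), (4, 2), (7, 2)], [(2, 4), (5, 2), (6, 2), (9, 2)], [(2, 4), (5, 2), (6, 2),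
      (9, 2)], [(8, 2), (11, 2), (12, 2), (15, 4)], [(8, 2), (11, 2), (12, 2), (15, 4)], [(10, 2),
      (13, 2), (14, 4), (17, 2)], [(10, 2), (13, 2), (14, 4), (17, 2)], [(8, 2), (11, 2), (12, 2),
      (15, 4)], [(8, 4), (11, 4), (12, 4), (15, 6)], [(10, 4), (13, 4), (14, 6), (17, 4)], [(10,
      2), (13, 2), (14, 4), (17, 2)], [(16, 2), (19, 2)], [(16, 2), (19, 2)], [(1, 2), (18, 2)]]
 []
 .nil

/-- classes `0 1 0 1 2 3 2 3 4 5`, active pairs `1-2 2-3 5-6 5-7` -/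
def trS10_12 : Tr2 :=
  .lp .none [2, 2, 6, 2, 2, 6, 2, 2, 2, 2] [] [-1, -1, -1, -1, -3, -3, -1, -1, -1, -1, -3, -3, -1,
      -1, -1, -1, -1, -1, -1, -1] 8 5
 [[(1, 2), (18, 2)], [(0, 2), (3, 2), (4, 4), (7, 2)], [(0, 2), (3, 2), (4, 4), (7, 2)], [(2, 2),
      (5, 4), (6, 2), (9, 2)], [(2, 4), (5, 6), (6, 4), (9, 4)], [(0, 4), (3, 4), (4, 6), (7, 4)],
      [(0, 2), (3, 2), (4, 4), (7, 2)], [(2, 2), (5, 4), (6, 2), (9, 2)], [(2, 2), (5, 4), (6, 2),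
      (9, 2)], [(8, 2), (11, 4), (12, 2), (15, 2)], [(8, 4), (11, 6), (12, 4), (15, 4)], [(10, 6),
      (13, 4), (14, 4), (17, 4)], [(10, 4), (13, 2), (14, 2), (17, 2)], [(8, 2), (11, 4), (12, 2),
      (15, 2)], [(8, 2), (11, 4), (12, 2), (15, 2)], [(10, 4), (13, 2), (14, 2), (17, 2)], [(10,
      4), (13, 2), (14, 2), (17, 2)], [(16, 2), (19, 2)], [(16, 2), (19, 2)], [(1, 2), (18, 2)]]
 []
 .nil

/-- classes `0 1 0 1 2 3 2 3 4 5`, active pairs `1-2 2-3 5-6 6-7` -/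
def trS10_13 : Tr2 :=
  .lp .none [2, 2, 6, 2, 2, 2, 6, 2, 2, 2] [] [-1, -1, -1, -1, -3, -3, -1, -1, -1, -1, -1, -1, -3,
      -3, -1, -1, -1, -1, -1, -1] 8 5
 [[(1, 2), (18, 2)], [(0, 2), (3, 2), (4, 4), (7, 2)], [(0, 2), (3, 2), (4, 4), (7, 2)], [(2, 2),
      (5, 4), (6, 2), (9, 2)], [(2, 4), (5, 6), (6, 4), (9, 4)], [(0, 4), (3, 4), (4, 6), (7, 4)],
      [(0, 2), (3, 2), (4, 4), (7, 2)], [(2, 2), (5, 4), (6, 2), (9, 2)], [(2, 2), (5, 4), (6, 2),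
      (9, 2)], [(8, 2), (11, 2), (12, 4), (15, 2)], [(8, 2), (11, 2), (12, 4), (15, 2)], [(10, 2),
      (13, 4), (14, 2), (17, 2)], [(10, 4), (13, 6), (14, 4), (17, 4)], [(8, 4), (11, 4), (12, 6),
      (15, 4)], [(8, 2), (11, 2), (12, 4), (15, 2)], [(10, 2), (13, 4), (14, 2), (17, 2)], [(10,
      2), (13, 4), (14, 2), (17, 2)], [(16, 2), (19, 2)], [(16, 2), (19, 2)], [(1, 2), (18, 2)]]
 []
 .nil

/-- classes `0 1 0 1 2 3 2 3 4 5`, active pairs `1-2 2-3 5-7 6-7` -/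
def trS10_14 : Tr2 :=
  .lp .none [2, 2, 6, 2, 2, 2, 2, 6, 2, 2] [] [-1, -1, -1, -1, -3, -3, -1, -1, -1, -1, -1, -1, -1,
      -1, -3, -3, -1, -1, -1, -1] 8 5
 [[(1, 2), (18, 2)], [(0, 2), (3, 2), (4, 4), (7, 2)], [(0, 2), (3, 2), (4, 4), (7, 2)], [(2, 2),
      (5, 4), (6, 2), (9, 2)], [(2, 4), (5, 6), (6, 4), (9, 4)], [(0, 4), (3, 4), (4, 6), (7, 4)],
      [(0, 2), (3, 2), (4, 4), (7, 2)], [(2, 2), (5, 4), (6, 2), (9, 2)], [(2, 2), (5, 4), (6, 2),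
      (9, 2)], [(8, 2), (11, 2), (12, 2), (15, 4)], [(8, 2), (11, 2), (12, 2), (15, 4)], [(10, 2),
      (13, 2), (14, 4), (17, 2)], [(10, 2), (13, 2), (14, 4), (17, 2)], [(8, 2), (11, 2), (12, 2),
      (15, 4)], [(8, 4), (11, 4), (12, 4), (15, 6)], [(10, 4), (13, 4), (14, 6), (17, 4)], [(10,
      2), (13, 2), (14, 4), (17, 2)], [(16, 2), (19, 2)], [(16, 2), (19, 2)], [(1, 2), (18, 2)]]
 []
 .nil

/-- classes `0 1 0 1 2 3 2 3 4 5`, active pairs `1-3 2-3 5-6 5-7` -/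
def trS10_15 : Tr2 :=
  .lp .none [2, 2, 2, 6, 2, 6, 2, 2, 2, 2] [] [-1, -1, -1, -1, -1, -1, -3, -3, -1, -1, -3, -3, -1,
      -1, -1, -1, -1, -1, -1, -1] 8 5
 [[(1, 2), (18, 2)], [(0, 2), (3, 2), (4, 2), (7, 4)], [(0, 2), (3, 2), (4, 2), (7, 4)], [(2, 2),
      (5, 2), (6, 4), (9, 2)], [(2, 2), (5, 2), (6, 4), (9, 2)], [(0, 2), (3, 2), (4, 2), (7, 4)],
      [(0, 4), (3, 4), (4, 4), (7, 6)], [(2, 4), (5, 4), (6, 6), (9, 4)], [(2, 2), (5, 2), (6, 4),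
      (9, 2)], [(8, 2), (11, 4), (12, 2), (15, 2)], [(8, 4), (11, 6), (12, 4), (15, 4)], [(10, 6),
      (13, 4), (14, 4), (17, 4)], [(10, 4), (13, 2), (14, 2), (17, 2)], [(8, 2), (11, 4), (12, 2),
      (15, 2)], [(8, 2), (11, 4), (12, 2), (15, 2)], [(10, 4), (13, 2), (14, 2), (17, 2)], [(10,
      4), (13, 2), (14, 2), (17, 2)], [(16, 2), (19, 2)], [(16, 2), (19, 2)], [(1, 2), (18, 2)]]
 []
 .nil

/-- classes `0 1 0 1 2 3 2 3 4 5`, active pairs `1-3 2-3 5-6 6-7` -/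
def trS10_16 : Tr2 :=
  .lp .none [2, 2, 2, 6, 2, 2, 6, 2, 2, 2] [] [-1, -1, -1, -1, -1, -1, -3, -3, -1, -1, -1, -1, -3,
      -3, -1, -1, -1, -1, -1, -1] 8 5
 [[(1, 2), (18, 2)], [(0, 2), (3, 2), (4, 2), (7, 4)], [(0, 2), (3, 2), (4, 2), (7, 4)], [(2, 2),
      (5, 2), (6, 4), (9, 2)], [(2, 2), (5, 2), (6, 4), (9, 2)], [(0, 2), (3, 2), (4, 2), (7, 4)],
      [(0, 4), (3, 4), (4, 4), (7, 6)], [(2, 4), (5, 4), (6, 6), (9, 4)], [(2, 2), (5, 2), (6, 4),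
      (9, 2)], [(8, 2), (11, 2), (12, 4), (15, 2)], [(8, 2), (11, 2), (12, 4), (15, 2)], [(10, 2),
      (13, 4), (14, 2), (17, 2)], [(10, 4), (13, 6), (14, 4), (17, 4)], [(8, 4), (11, 4), (12, 6),
      (15, 4)], [(8, 2), (11, 2), (12, 4), (15, 2)], [(10, 2), (13, 4), (14, 2), (17, 2)], [(10,
      2), (13, 4), (14, 2), (17, 2)], [(16, 2), (19, 2)], [(16, 2), (19, 2)], [(1, 2), (18, 2)]]
 []
 .nil

/-- classes `0 1 0 1 2 3 2 3 4 5`, active pairs `1-3 2-3 5-7 6-7` -/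
def trS10_17 : Tr2 :=
  .lp .none [2, 2, 2, 6, 2, 2, 2, 6, 2, 2] [] [-1, -1, -1, -1, -1, -1, -3, -3, -1, -1, -1, -1, -1,
      -1, -3, -3, -1, -1, -1, -1] 8 5
 [[(1, 2), (18, 2)], [(0, 2), (3, 2), (4, 2), (7, 4)], [(0, 2), (3, 2), (4, 2), (7, 4)], [(2, 2),
      (5, 2), (6, 4), (9, 2)], [(2, 2), (5, 2), (6, 4), (9, 2)], [(0, 2), (3, 2), (4, 2), (7, 4)],
      [(0, 4), (3, 4), (4, 4), (7, 6)], [(2, 4), (5, 4), (6, 6), (9, 4)], [(2, 2), (5, 2), (6, 4),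
      (9, 2)], [(8, 2), (11, 2), (12, 2), (15, 4)], [(8, 2), (11, 2), (12, 2), (15, 4)], [(10, 2),
      (13, 2), (14, 4), (17, 2)], [(10, 2), (13, 2), (14, 4), (17, 2)], [(8, 2), (11, 2), (12, 2),
      (15, 4)], [(8, 4), (11, 4), (12, 4), (15, 6)], [(10, 4), (13, 4), (14, 6), (17, 4)], [(10,
      2), (13, 2), (14, 4), (17, 2)], [(16, 2), (19, 2)], [(16, 2), (19, 2)], [(1, 2), (18, 2)]]
 []
 .nil

/-- classes `0 1 0 1 2 3 4 3 4 2`, active pairs `1-2 1-3 6-7 6-8` -/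
def trS10_18 : Tr2 :=
  .splitT 4
 (.lp (.two 1 2) [36, 70, 34, 26, 26, 26, 70, 26, 26, 44] [] [-18, -18, -35, -35, -17, -17, -13,
      -13, -13, -13, -13, -13, -35, -35, -13, -13, -13, -13, -22, -22] 96 5
  [[(1, 36), (8, 31), (11, 31), (18, 40)], [(0, 36), (3, 53), (4, 35), (7, 31)], [(0, 53), (3, 70),
      (4, 52), (7, 48)], [(2, 70), (5, 52), (6, 48), (9, 48)], [(2, 52), (5, 34), (6, 30), (9,
      30)], [(0, 35), (3, 52), (4, 34), (7, 30)], [(0, 31), (3, 48), (4, 30), (7, 26)], [(2, 48),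
      (5, 30), (6, 26), (9, 26)], [(2, 48), (5, 30), (6, 26), (9, 26)], [(1, 31), (8, 26), (11,
      26), (18, 35)], [(1, 31), (8, 26), (11, 26), (18, 35)], [(10, 26), (13, 48), (14, 26), (17,
      26)], [(10, 48), (13, 70), (14, 48), (17, 48)], [(12, 70), (15, 48), (16, 48), (19, 57)],
      [(12, 48), (15, 26), (16, 26), (19, 35)], [(10, 26), (13, 48), (14, 26), (17, 26)], [(10,
      26), (13, 48), (14, 26), (17, 26)], [(12, 48), (15, 26), (16, 26), (19, 35)], [(12, 57), (15,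
      35), (16, 35), (19, 44)], [(1, 40), (8, 35), (11, 35), (18, 44)]]
  [[1, 0, 0, 1, 1, 0, 0, 0, 0, 0]]
  (.cons (.leafM 0 [4, 5, 8, 9, 0, 3] [(1, [-1, -1, 0, -1, 0, 1])])
  .nil))
 (.lp (.two 1 2) [26, 70, 34, 26, 36, 26, 70, 26, 26, 44] [] [-13, -13, -35, -35, -17, -17, -13,
      -13, -18, -18, -13, -13, -35, -35, -13, -13, -13, -13, -22, -22] 96 5
  [[(8, 31)], [(0, 26), (3, 48), (4, 30), (7, 26)], [(0, 48), (3, 70), (4, 52), (7, 48)], [(2, 70),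
      (5, 52), (6, 48), (9, 53)], [(2, 52), (5, 34), (6, 30), (9, 35)], [(0, 30), (3, 52), (4, 34),
      (7, 30)], [(0, 26), (3, 48), (4, 30), (7, 26)], [(2, 48), (5, 30), (6, 26), (9, 31)], [(2,
      53), (5, 35), (6, 31), (9, 36)], [(1, 31)], [(18, 35)], [(10, 26), (13, 48), (14, 26), (17,
      26)], [(10, 48), (13, 70), (14, 48), (17, 48)], [(12, 70), (15, 48), (16, 48), (19, 57)],
      [(12, 48), (15, 26), (16, 26), (19, 35)], [(10, 26), (13, 48), (14, 26), (17, 26)], [(10,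
      26), (13, 48), (14, 26), (17, 26)], [(12, 48), (15, 26), (16, 26), (19, 35)], [(12, 57), (15,
      35), (16, 35), (19, 44)], [(11, 35)]]
  [[1, 0, 0, 1, 1, 0, 0, 0, 0, 0]]
  (.cons (.leafM 0 [4, 5, 8, 9, 0, 3] [(1, [-1, -1, 0, -1, 0, 1])])
  .nil))
 (.lp .none [2, 6, 2, 2, 2, 2, 6, 2, 2, 2] [] [-1, -1, -3, -3, -1, -1, -1, -1, -1, -1, -1, -1, -3,
      -3, -1, -1, -1, -1, -1, -1] 8 5
  [[(11, 2)], [(0, 2), (3, 4), (4, 2), (7, 2)], [(0, 4), (3, 6), (4, 4), (7, 4)], [(2, 6), (5, 4),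
      (6, 4), (9, 4)], [(2, 4), (5, 2), (6, 2), (9, 2)], [(0, 2), (3, 4), (4, 2), (7, 2)], [(0, 2),
      (3, 4), (4, 2), (7, 2)], [(2, 4), (5, 2), (6, 2), (9, 2)], [(2, 4), (5, 2), (6, 2), (9, 2)],
      [(18, 2)], [(1, 2)], [(10, 2), (13, 4), (14, 2), (17, 2)], [(10, 4), (13, 6), (14, 4), (17,
      4)], [(12, 6), (15, 4), (16, 4), (19, 4)], [(12, 4), (15, 2), (16, 2), (19, 2)], [(10, 2),
      (13, 4), (14, 2), (17, 2)], [(10, 2), (13, 4), (14, 2), (17, 2)], [(12, 4), (15, 2), (16, 2),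
      (19, 2)], [(12, 4), (15, 2), (16, 2), (19, 2)], [(8, 2)]]
  []
  .nil)

/-- classes `0 1 0 1 2 3 4 3 4 2`, active pairs `1-2 1-3 6-7 7-8` -/
def trS10_19 : Tr2 :=
  .splitT 4
 (.lp (.two 1 2) [36, 70, 34, 26, 26, 26, 26, 70, 26, 44] [] [-18, -18, -35, -35, -17, -17, -13,
      -13, -13, -13, -13, -13, -13, -13, -35, -35, -13, -13, -22, -22] 96 5
  [[(1, 36), (8, 31), (11, 31), (18, 40)], [(0, 36), (3, 53), (4, 35), (7, 31)], [(0, 53), (3, 70),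
      (4, 52), (7, 48)], [(2, 70), (5, 52), (6, 48), (9, 48)], [(2, 52), (5, 34), (6, 30), (9,
      30)], [(0, 35), (3, 52), (4, 34), (7, 30)], [(0, 31), (3, 48), (4, 30), (7, 26)], [(2, 48),
      (5, 30), (6, 26), (9, 26)], [(2, 48), (5, 30), (6, 26), (9, 26)], [(1, 31), (8, 26), (11,
      26), (18, 35)], [(1, 31), (8, 26), (11, 26), (18, 35)], [(10, 26), (13, 26), (14, 48), (17,
      26)], [(10, 26), (13, 26), (14, 48), (17, 26)], [(12, 26), (15, 48), (16, 26), (19, 35)],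
      [(12, 48), (15, 70), (16, 48), (19, 57)], [(10, 48), (13, 48), (14, 70), (17, 48)], [(10,
      26), (13, 26), (14, 48), (17, 26)], [(12, 26), (15, 48), (16, 26), (19, 35)], [(12, 35), (15,
      57), (16, 35), (19, 44)], [(1, 40), (8, 35), (11, 35), (18, 44)]]
  [[1, 0, 0, 1, 1, 0, 0, 0, 0, 0]]
  (.cons (.leafM 0 [4, 5, 8, 9, 0, 3] [(1, [-1, -1, 0, -1, 0, 1])])
  .nil))
 (.lp (.two 1 2) [26, 70, 34, 26, 36, 26, 26, 70, 26, 44] [] [-13, -13, -35, -35, -17, -17, -13,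
      -13, -18, -18, -13, -13, -13, -13, -35, -35, -13, -13, -22, -22] 96 5
  [[(8, 31)], [(0, 26), (3, 48), (4, 30), (7, 26)], [(0, 48), (3, 70), (4, 52), (7, 48)], [(2, 70),
      (5, 52), (6, 48), (9, 53)], [(2, 52), (5, 34), (6, 30), (9, 35)], [(0, 30), (3, 52), (4, 34),
      (7, 30)], [(0, 26), (3, 48), (4, 30), (7, 26)], [(2, 48), (5, 30), (6, 26), (9, 31)], [(2,
      53), (5, 35), (6, 31), (9, 36)], [(1, 31)], [(18, 35)], [(10, 26), (13, 26), (14, 48), (17,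
      26)], [(10, 26), (13, 26), (14, 48), (17, 26)], [(12, 26), (15, 48), (16, 26), (19, 35)],
      [(12, 48), (15, 70), (16, 48), (19, 57)], [(10, 48), (13, 48), (14, 70), (17, 48)], [(10,
      26), (13, 26), (14, 48), (17, 26)], [(12, 26), (15, 48), (16, 26), (19, 35)], [(12, 35), (15,
      57), (16, 35), (19, 44)], [(11, 35)]]
  [[1, 0, 0, 1, 1, 0, 0, 0, 0, 0]]
  (.cons (.leafM 0 [4, 5, 8, 9, 0, 3] [(1, [-1, -1, 0, -1, 0, 1])])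
  .nil))
 (.lp .none [2, 6, 2, 2, 2, 2, 2, 6, 2, 2] [] [-1, -1, -3, -3, -1, -1, -1, -1, -1, -1, -1, -1, -1,
      -1, -3, -3, -1, -1, -1, -1] 8 5
  [[(11, 2)], [(0, 2), (3, 4), (4, 2), (7, 2)], [(0, 4), (3, 6), (4, 4), (7, 4)], [(2, 6), (5, 4),
      (6, 4), (9, 4)], [(2, 4), (5, 2), (6, 2), (9, 2)], [(0, 2), (3, 4), (4, 2), (7, 2)], [(0, 2),
      (3, 4), (4, 2), (7, 2)], [(2, 4), (5, 2), (6, 2), (9, 2)], [(2, 4), (5, 2), (6, 2), (9, 2)],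
      [(18, 2)], [(1, 2)], [(10, 2), (13, 2), (14, 4), (17, 2)], [(10, 2), (13, 2), (14, 4), (17,
      2)], [(12, 2), (15, 4), (16, 2), (19, 2)], [(12, 4), (15, 6), (16, 4), (19, 4)], [(10, 4),
      (13, 4), (14, 6), (17, 4)], [(10, 2), (13, 2), (14, 4), (17, 2)], [(12, 2), (15, 4), (16, 2),
      (19, 2)], [(12, 2), (15, 4), (16, 2), (19, 2)], [(8, 2)]]
  []
  .nil)

/-- classes `0 1 0 1 2 3 4 3 4 2`, active pairs `1-2 1-3 6-8 7-8` -/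
def trS10_20 : Tr2 :=
  .splitT 4
 (.lp (.two 1 2) [36, 70, 34, 26, 26, 26, 26, 26, 70, 44] [] [-18, -18, -35, -35, -17, -17, -13,
      -13, -13, -13, -13, -13, -13, -13, -13, -13, -35, -35, -22, -22] 96 5
  [[(1, 36), (8, 31), (11, 31), (18, 40)], [(0, 36), (3, 53), (4, 35), (7, 31)], [(0, 53), (3, 70),
      (4, 52), (7, 48)], [(2, 70), (5, 52), (6, 48), (9, 48)], [(2, 52), (5, 34), (6, 30), (9,
      30)], [(0, 35), (3, 52), (4, 34), (7, 30)], [(0, 31), (3, 48), (4, 30), (7, 26)], [(2, 48),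
      (5, 30), (6, 26), (9, 26)], [(2, 48), (5, 30), (6, 26), (9, 26)], [(1, 31), (8, 26), (11,
      26), (18, 35)], [(1, 31), (8, 26), (11, 26), (18, 35)], [(10, 26), (13, 26), (14, 26), (17,
      48)], [(10, 26), (13, 26), (14, 26), (17, 48)], [(12, 26), (15, 26), (16, 48), (19, 35)],
      [(12, 26), (15, 26), (16, 48), (19, 35)], [(10, 26), (13, 26), (14, 26), (17, 48)], [(10,
      48), (13, 48), (14, 48), (17, 70)], [(12, 48), (15, 48), (16, 70), (19, 57)], [(12, 35), (15,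
      35), (16, 57), (19, 44)], [(1, 40), (8, 35), (11, 35), (18, 44)]]
  [[1, 0, 0, 1, 1, 0, 0, 0, 0, 0]]
  (.cons (.leafM 4 [5, 7, 9, 0, 3, 4] [(1, [1, 0, 0, 0, 0, 0])])
  .nil))
 (.lp (.two 1 2) [26, 70, 34, 26, 36, 26, 26, 26, 70, 44] [] [-13, -13, -35, -35, -17, -17, -13,
      -13, -18, -18, -13, -13, -13, -13, -13, -13, -35, -35, -22, -22] 96 5
  [[(8, 31)], [(0, 26), (3, 48), (4, 30), (7, 26)], [(0, 48), (3, 70), (4, 52), (7, 48)], [(2, 70),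
      (5, 52), (6, 48), (9, 53)], [(2, 52), (5, 34), (6, 30), (9, 35)], [(0, 30), (3, 52), (4, 34),
      (7, 30)], [(0, 26), (3, 48), (4, 30), (7, 26)], [(2, 48), (5, 30), (6, 26), (9, 31)], [(2,
      53), (5, 35), (6, 31), (9, 36)], [(1, 31)], [(18, 35)], [(10, 26), (13, 26), (14, 26), (17,
      48)], [(10, 26), (13, 26), (14, 26), (17, 48)], [(12, 26), (15, 26), (16, 48), (19, 35)],
      [(12, 26), (15, 26), (16, 48), (19, 35)], [(10, 26), (13, 26), (14, 26), (17, 48)], [(10,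
      48), (13, 48), (14, 48), (17, 70)], [(12, 48), (15, 48), (16, 70), (19, 57)], [(12, 35), (15,
      35), (16, 57), (19, 44)], [(11, 35)]]
  [[1, 0, 0, 1, 1, 0, 0, 0, 0, 0]]
  (.cons (.leafM 4 [5, 7, 9, 0, 3, 4] [(1, [1, 0, 0, 0, 0, 0])])
  .nil))
 (.lp .none [2, 6, 2, 2, 2, 2, 2, 2, 6, 2] [] [-1, -1, -3, -3, -1, -1, -1, -1, -1, -1, -1, -1, -1,
      -1, -1, -1, -3, -3, -1, -1] 8 5
  [[(11, 2)], [(0, 2), (3, 4), (4, 2), (7, 2)], [(0, 4), (3, 6), (4, 4), (7, 4)], [(2, 6), (5, 4),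
      (6, 4), (9, 4)], [(2, 4), (5, 2), (6, 2), (9, 2)], [(0, 2), (3, 4), (4, 2), (7, 2)], [(0, 2),
      (3, 4), (4, 2), (7, 2)], [(2, 4), (5, 2), (6, 2), (9, 2)], [(2, 4), (5, 2), (6, 2), (9, 2)],
      [(18, 2)], [(1, 2)], [(10, 2), (13, 2), (14, 2), (17, 4)], [(10, 2), (13, 2), (14, 2), (17,
      4)], [(12, 2), (15, 2), (16, 4), (19, 2)], [(12, 2), (15, 2), (16, 4), (19, 2)], [(10, 2),
      (13, 2), (14, 2), (17, 4)], [(10, 4), (13, 4), (14, 4), (17, 6)], [(12, 4), (15, 4), (16, 6),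
      (19, 4)], [(12, 2), (15, 2), (16, 4), (19, 2)], [(8, 2)]]
  []
  .nil)

/-- classes `0 1 0 1 2 3 4 3 4 2`, active pairs `1-2 2-3 6-7 7-8` -/
def trS10_21 : Tr2 :=
  .splitT 4
 (.lp (.two 1 2) [6, 10, 16, 6, 6, 6, 6, 16, 6, 10] [] [-3, -3, -5, -5, -8, -8, -3, -3, -3, -3, -3,
      -3, -3, -3, -8, -8, -3, -3, -5, -5] 22 5
  [[(1, 6), (8, 6), (11, 6), (18, 8)], [(0, 6), (3, 8), (4, 11), (7, 6)], [(0, 8), (3, 10), (4,
      13), (7, 8)], [(2, 10), (5, 13), (6, 8), (9, 8)], [(2, 13), (5, 16), (6, 11), (9, 11)], [(0,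
      11), (3, 13), (4, 16), (7, 11)], [(0, 6), (3, 8), (4, 11), (7, 6)], [(2, 8), (5, 11), (6, 6),
      (9, 6)], [(2, 8), (5, 11), (6, 6), (9, 6)], [(1, 6), (8, 6), (11, 6), (18, 8)], [(1, 6), (8,
      6), (11, 6), (18, 8)], [(10, 6), (13, 6), (14, 11), (17, 6)], [(10, 6), (13, 6), (14, 11),
      (17, 6)], [(12, 6), (15, 11), (16, 6), (19, 8)], [(12, 11), (15, 16), (16, 11), (19, 13)],
      [(10, 11), (13, 11), (14, 16), (17, 11)], [(10, 6), (13, 6), (14, 11), (17, 6)], [(12, 6),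
      (15, 11), (16, 6), (19, 8)], [(12, 8), (15, 13), (16, 8), (19, 10)], [(1, 8), (8, 8), (11,
      8), (18, 10)]]
  [[1, 0, 0, 1, 1, 0, 0, 0, 0, 0]]
  (.cons (.leafM 0 [4, 5, 8, 9, 0, 3] [(1, [-1, -1, 0, -1, 0, 1])])
  .nil))
 (.lp (.two 1 2) [26, 44, 60, 36, 26, 26, 26, 70, 26, 44] [] [-13, -13, -22, -22, -30, -30, -18,
      -18, -13, -13, -13, -13, -13, -13, -35, -35, -13, -13, -22, -22] 96 5
  [[(8, 26)], [(0, 26), (3, 35), (4, 43), (7, 31)], [(0, 35), (3, 44), (4, 52), (7, 40)], [(2, 44),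
      (5, 52), (6, 40), (9, 35)], [(2, 52), (5, 60), (6, 48), (9, 43)], [(0, 43), (3, 52), (4, 60),
      (7, 48)], [(0, 31), (3, 40), (4, 48), (7, 36)], [(2, 40), (5, 48), (6, 36), (9, 31)], [(2,
      35), (5, 43), (6, 31), (9, 26)], [(1, 26)], [(18, 35)], [(10, 26), (13, 26), (14, 48), (17,
      26)], [(10, 26), (13, 26), (14, 48), (17, 26)], [(12, 26), (15, 48), (16, 26), (19, 35)],
      [(12, 48), (15, 70), (16, 48), (19, 57)], [(10, 48), (13, 48), (14, 70), (17, 48)], [(10,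
      26), (13, 26), (14, 48), (17, 26)], [(12, 26), (15, 48), (16, 26), (19, 35)], [(12, 35), (15,
      57), (16, 35), (19, 44)], [(11, 35)]]
  [[1, 0, 0, 1, 1, 0, 0, 0, 0, 0]]
  (.cons (.leafM 0 [4, 5, 8, 9, 0, 3] [(1, [-1, -1, 0, -1, 0, 1])])
  .nil))
 (.lp .none [2, 2, 6, 2, 2, 2, 2, 6, 2, 2] [] [-1, -1, -1, -1, -3, -3, -1, -1, -1, -1, -1, -1, -1,
      -1, -3, -3, -1, -1, -1, -1] 8 5
  [[(11, 2)], [(0, 2), (3, 2), (4, 4), (7, 2)], [(0, 2), (3, 2), (4, 4), (7, 2)], [(2, 2), (5, 4),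
      (6, 2), (9, 2)], [(2, 4), (5, 6), (6, 4), (9, 4)], [(0, 4), (3, 4), (4, 6), (7, 4)], [(0, 2),
      (3, 2), (4, 4), (7, 2)], [(2, 2), (5, 4), (6, 2), (9, 2)], [(2, 2), (5, 4), (6, 2), (9, 2)],
      [(18, 2)], [(1, 2)], [(10, 2), (13, 2), (14, 4), (17, 2)], [(10, 2), (13, 2), (14, 4), (17,
      2)], [(12, 2), (15, 4), (16, 2), (19, 2)], [(12, 4), (15, 6), (16, 4), (19, 4)], [(10, 4),
      (13, 4), (14, 6), (17, 4)], [(10, 2), (13, 2), (14, 4), (17, 2)], [(12, 2), (15, 4), (16, 2),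
      (19, 2)], [(12, 2), (15, 4), (16, 2), (19, 2)], [(8, 2)]]
  []
  .nil)

/-- classes `0 1 0 1 2 3 4 3 4 2`, active pairs `1-2 2-3 6-8 7-8` -/
def trS10_22 : Tr2 :=
  .splitT 4
 (.lp (.two 1 2) [6, 10, 16, 6, 6, 6, 6, 6, 16, 10] [] [-3, -3, -5, -5, -8, -8, -3, -3, -3, -3, -3,
      -3, -3, -3, -3, -3, -8, -8, -5, -5] 22 5
  [[(1, 6), (8, 6), (11, 6), (18, 8)], [(0, 6), (3, 8), (4, 11), (7, 6)], [(0, 8), (3, 10), (4,
      13), (7, 8)], [(2, 10), (5, 13), (6, 8), (9, 8)], [(2, 13), (5, 16), (6, 11), (9, 11)], [(0,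
      11), (3, 13), (4, 16), (7, 11)], [(0, 6), (3, 8), (4, 11), (7, 6)], [(2, 8), (5, 11), (6, 6),
      (9, 6)], [(2, 8), (5, 11), (6, 6), (9, 6)], [(1, 6), (8, 6), (11, 6), (18, 8)], [(1, 6), (8,
      6), (11, 6), (18, 8)], [(10, 6), (13, 6), (14, 6), (17, 11)], [(10, 6), (13, 6), (14, 6),
      (17, 11)], [(12, 6), (15, 6), (16, 11), (19, 8)], [(12, 6), (15, 6), (16, 11), (19, 8)],
      [(10, 6), (13, 6), (14, 6), (17, 11)], [(10, 11), (13, 11), (14, 11), (17, 16)], [(12, 11),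
      (15, 11), (16, 16), (19, 13)], [(12, 8), (15, 8), (16, 13), (19, 10)], [(1, 8), (8, 8), (11,
      8), (18, 10)]]
  [[1, 0, 0, 1, 1, 0, 0, 0, 0, 0]]
  (.cons (.leafM 4 [5, 7, 9, 0, 3, 4] [(1, [1, 0, 0, 0, 0, 0])])
  .nil))
 (.lp (.two 1 2) [26, 44, 60, 36, 26, 26, 26, 26, 70, 44] [] [-13, -13, -22, -22, -30, -30, -18,
      -18, -13, -13, -13, -13, -13, -13, -13, -13, -35, -35, -22, -22] 96 5
  [[(8, 26)], [(0, 26), (3, 35), (4, 43), (7, 31)], [(0, 35), (3, 44), (4, 52), (7, 40)], [(2, 44),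
      (5, 52), (6, 40), (9, 35)], [(2, 52), (5, 60), (6, 48), (9, 43)], [(0, 43), (3, 52), (4, 60),
      (7, 48)], [(0, 31), (3, 40), (4, 48), (7, 36)], [(2, 40), (5, 48), (6, 36), (9, 31)], [(2,
      35), (5, 43), (6, 31), (9, 26)], [(1, 26)], [(18, 35)], [(10, 26), (13, 26), (14, 26), (17,
      48)], [(10, 26), (13, 26), (14, 26), (17, 48)], [(12, 26), (15, 26), (16, 48), (19, 35)],
      [(12, 26), (15, 26), (16, 48), (19, 35)], [(10, 26), (13, 26), (14, 26), (17, 48)], [(10,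
      48), (13, 48), (14, 48), (17, 70)], [(12, 48), (15, 48), (16, 70), (19, 57)], [(12, 35), (15,
      35), (16, 57), (19, 44)], [(11, 35)]]
  [[1, 0, 0, 1, 1, 0, 0, 0, 0, 0]]
  (.cons (.leafM 4 [5, 7, 9, 0, 3, 4] [(1, [1, 0, 0, 0, 0, 0])])
  .nil))
 (.lp .none [2, 2, 6, 2, 2, 2, 2, 2, 6, 2] [] [-1, -1, -1, -1, -3, -3, -1, -1, -1, -1, -1, -1, -1,
      -1, -1, -1, -3, -3, -1, -1] 8 5
  [[(11, 2)], [(0, 2), (3, 2), (4, 4), (7, 2)], [(0, 2), (3, 2), (4, 4), (7, 2)], [(2, 2), (5, 4),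
      (6, 2), (9, 2)], [(2, 4), (5, 6), (6, 4), (9, 4)], [(0, 4), (3, 4), (4, 6), (7, 4)], [(0, 2),
      (3, 2), (4, 4), (7, 2)], [(2, 2), (5, 4), (6, 2), (9, 2)], [(2, 2), (5, 4), (6, 2), (9, 2)],
      [(18, 2)], [(1, 2)], [(10, 2), (13, 2), (14, 2), (17, 4)], [(10, 2), (13, 2), (14, 2), (17,
      4)], [(12, 2), (15, 2), (16, 4), (19, 2)], [(12, 2), (15, 2), (16, 4), (19, 2)], [(10, 2),
      (13, 2), (14, 2), (17, 4)], [(10, 4), (13, 4), (14, 4), (17, 6)], [(12, 4), (15, 4), (16, 6),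
      (19, 4)], [(12, 2), (15, 2), (16, 4), (19, 2)], [(8, 2)]]
  []
  .nil)

/-- classes `0 1 0 1 2 3 4 3 4 2`, active pairs `1-3 2-3 6-8 7-8` -/
def trS10_23 : Tr2 :=
  .splitT 4
 (.lp (.two 6 8) [26, 44, 44, 52, 26, 26, 34, 26, 70, 36] [] [-13, -13, -22, -22, -22, -22, -26,
      -26, -13, -13, -13, -13, -17, -17, -13, -13, -35, -35, -18, -18] 96 5
  [[(1, 26), (8, 26), (11, 26), (18, 31)], [(0, 26), (3, 35), (4, 35), (7, 39)], [(0, 35), (3, 44),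
      (4, 44), (7, 48)], [(2, 44), (5, 44), (6, 48), (9, 35)], [(2, 44), (5, 44), (6, 48), (9,
      35)], [(0, 35), (3, 44), (4, 44), (7, 48)], [(0, 39), (3, 48), (4, 48), (7, 52)], [(2, 48),
      (5, 48), (6, 52), (9, 39)], [(2, 35), (5, 35), (6, 39), (9, 26)], [(1, 26), (8, 26), (11,
      26), (18, 31)], [(1, 26), (8, 26), (11, 26), (18, 31)], [(10, 26), (13, 30), (14, 26), (17,
      48)], [(10, 30), (13, 34), (14, 30), (17, 52)], [(12, 34), (15, 30), (16, 52), (19, 35)],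
      [(12, 30), (15, 26), (16, 48), (19, 31)], [(10, 26), (13, 30), (14, 26), (17, 48)], [(10,
      48), (13, 52), (14, 48), (17, 70)], [(12, 52), (15, 48), (16, 70), (19, 53)], [(12, 35), (15,
      31), (16, 53), (19, 36)], [(1, 31), (8, 31), (11, 31), (18, 36)]]
  [[0, 0, 0, 0, 0, 1, 0, 1, 0, 1]]
  (.cons (.leafM 6 [0, 2, 4, 5, 7, 9] [(1, [1, 0, 0, 0, 0, 0])])
  .nil))
 (.lp (.two 1 3) [6, 10, 6, 16, 6, 6, 6, 6, 16, 10] [] [-3, -3, -5, -5, -3, -3, -8, -8, -3, -3, -3,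
      -3, -3, -3, -3, -3, -8, -8, -5, -5] 22 5
  [[(8, 6)], [(0, 6), (3, 8), (4, 6), (7, 11)], [(0, 8), (3, 10), (4, 8), (7, 13)], [(2, 10), (5,
      8), (6, 13), (9, 8)], [(2, 8), (5, 6), (6, 11), (9, 6)], [(0, 6), (3, 8), (4, 6), (7, 11)],
      [(0, 11), (3, 13), (4, 11), (7, 16)], [(2, 13), (5, 11), (6, 16), (9, 11)], [(2, 8), (5, 6),
      (6, 11), (9, 6)], [(1, 6)], [(18, 8)], [(10, 6), (13, 6), (14, 6), (17, 11)], [(10, 6), (13,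
      6), (14, 6), (17, 11)], [(12, 6), (15, 6), (16, 11), (19, 8)], [(12, 6), (15, 6), (16, 11),
      (19, 8)], [(10, 6), (13, 6), (14, 6), (17, 11)], [(10, 11), (13, 11), (14, 11), (17, 16)],
      [(12, 11), (15, 11), (16, 16), (19, 13)], [(12, 8), (15, 8), (16, 13), (19, 10)], [(11, 8)]]
  [[1, 0, 1, 0, 1, 0, 0, 0, 0, 0]]
  (.cons (.leafM 6 [0, 2, 4, 5, 7, 9] [(1, [-1, -1, 0, -1, 0, 1])])
  .nil))
 (.lp .none [2, 2, 2, 6, 2, 2, 2, 2, 6, 2] [] [-1, -1, -1, -1, -1, -1, -3, -3, -1, -1, -1, -1, -1,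
      -1, -1, -1, -3, -3, -1, -1] 8 5
  [[(11, 2)], [(0, 2), (3, 2), (4, 2), (7, 4)], [(0, 2), (3, 2), (4, 2), (7, 4)], [(2, 2), (5, 2),
      (6, 4), (9, 2)], [(2, 2), (5, 2), (6, 4), (9, 2)], [(0, 2), (3, 2), (4, 2), (7, 4)], [(0, 4),
      (3, 4), (4, 4), (7, 6)], [(2, 4), (5, 4), (6, 6), (9, 4)], [(2, 2), (5, 2), (6, 4), (9, 2)],
      [(18, 2)], [(1, 2)], [(10, 2), (13, 2), (14, 2), (17, 4)], [(10, 2), (13, 2), (14, 2), (17,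
      4)], [(12, 2), (15, 2), (16, 4), (19, 2)], [(12, 2), (15, 2), (16, 4), (19, 2)], [(10, 2),
      (13, 2), (14, 2), (17, 4)], [(10, 4), (13, 4), (14, 4), (17, 6)], [(12, 4), (15, 4), (16, 6),
      (19, 4)], [(12, 2), (15, 2), (16, 4), (19, 2)], [(8, 2)]]
  []
  .nil)

/-- classes `0 1 0 1 2 3 4 3 4 5`, active pairs `1-2 1-3 6-7 6-8` -/
def trS10_24 : Tr2 :=
  .lp .none [2, 6, 2, 2, 2, 2, 6, 2, 2, 2] [] [-1, -1, -3, -3, -1, -1, -1, -1, -1, -1, -1, -1, -3,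
      -3, -1, -1, -1, -1, -1, -1] 8 5
 [[(1, 2), (18, 2)], [(0, 2), (3, 4), (4, 2), (7, 2)], [(0, 4), (3, 6), (4, 4), (7, 4)], [(2, 6),
      (5, 4), (6, 4), (9, 4)], [(2, 4), (5, 2), (6, 2), (9, 2)], [(0, 2), (3, 4), (4, 2), (7, 2)],
      [(0, 2), (3, 4), (4, 2), (7, 2)], [(2, 4), (5, 2), (6, 2), (9, 2)], [(2, 4), (5, 2), (6, 2),
      (9, 2)], [(8, 2), (11, 2)], [(8, 2), (11, 2)], [(10, 2), (13, 4), (14, 2), (17, 2)], [(10,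
      4), (13, 6), (14, 4), (17, 4)], [(12, 6), (15, 4), (16, 4), (19, 4)], [(12, 4), (15, 2), (16,
      2), (19, 2)], [(10, 2), (13, 4), (14, 2), (17, 2)], [(10, 2), (13, 4), (14, 2), (17, 2)],
      [(12, 4), (15, 2), (16, 2), (19, 2)], [(12, 4), (15, 2), (16, 2), (19, 2)], [(1, 2), (18, 2)]]
 []
 .nil

/-- classes `0 1 0 1 2 3 4 3 4 5`, active pairs `1-2 1-3 6-7 7-8` -/
def trS10_25 : Tr2 :=
  .lp .none [2, 6, 2, 2, 2, 2, 2, 6, 2, 2] [] [-1, -1, -3, -3, -1, -1, -1, -1, -1, -1, -1, -1, -1,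
      -1, -3, -3, -1, -1, -1, -1] 8 5
 [[(1, 2), (18, 2)], [(0, 2), (3, 4), (4, 2), (7, 2)], [(0, 4), (3, 6), (4, 4), (7, 4)], [(2, 6),
      (5, 4), (6, 4), (9, 4)], [(2, 4), (5, 2), (6, 2), (9, 2)], [(0, 2), (3, 4), (4, 2), (7, 2)],
      [(0, 2), (3, 4), (4, 2), (7, 2)], [(2, 4), (5, 2), (6, 2), (9, 2)], [(2, 4), (5, 2), (6, 2),
      (9, 2)], [(8, 2), (11, 2)], [(8, 2), (11, 2)], [(10, 2), (13, 2), (14, 4), (17, 2)], [(10,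
      2), (13, 2), (14, 4), (17, 2)], [(12, 2), (15, 4), (16, 2), (19, 2)], [(12, 4), (15, 6), (16,
      4), (19, 4)], [(10, 4), (13, 4), (14, 6), (17, 4)], [(10, 2), (13, 2), (14, 4), (17, 2)],
      [(12, 2), (15, 4), (16, 2), (19, 2)], [(12, 2), (15, 4), (16, 2), (19, 2)], [(1, 2), (18, 2)]]
 []
 .nil

/-- classes `0 1 0 1 2 3 4 3 4 5`, active pairs `1-2 1-3 6-8 7-8` -/
def trS10_26 : Tr2 :=
  .lp .none [2, 6, 2, 2, 2, 2, 2, 2, 6, 2] [] [-1, -1, -3, -3, -1, -1, -1, -1, -1, -1, -1, -1, -1,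
      -1, -1, -1, -3, -3, -1, -1] 8 5
 [[(1, 2), (18, 2)], [(0, 2), (3, 4), (4, 2), (7, 2)], [(0, 4), (3, 6), (4, 4), (7, 4)], [(2, 6),
      (5, 4), (6, 4), (9, 4)], [(2, 4), (5, 2), (6, 2), (9, 2)], [(0, 2), (3, 4), (4, 2), (7, 2)],
      [(0, 2), (3, 4), (4, 2), (7, 2)], [(2, 4), (5, 2), (6, 2), (9, 2)], [(2, 4), (5, 2), (6, 2),
      (9, 2)], [(8, 2), (11, 2)], [(8, 2), (11, 2)], [(10, 2), (13, 2), (14, 2), (17, 4)], [(10,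
      2), (13, 2), (14, 2), (17, 4)], [(12, 2), (15, 2), (16, 4), (19, 2)], [(12, 2), (15, 2), (16,
      4), (19, 2)], [(10, 2), (13, 2), (14, 2), (17, 4)], [(10, 4), (13, 4), (14, 4), (17, 6)],
      [(12, 4), (15, 4), (16, 6), (19, 4)], [(12, 2), (15, 2), (16, 4), (19, 2)], [(1, 2), (18, 2)]]
 []
 .nil

/-- classes `0 1 0 1 2 3 4 3 4 5`, active pairs `1-2 2-3 6-7 7-8` -/
def trS10_27 : Tr2 :=
  .lp .none [2, 2, 6, 2, 2, 2, 2, 6, 2, 2] [] [-1, -1, -1, -1, -3, -3, -1, -1, -1, -1, -1, -1, -1,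
      -1, -3, -3, -1, -1, -1, -1] 8 5
 [[(1, 2), (18, 2)], [(0, 2), (3, 2), (4, 4), (7, 2)], [(0, 2), (3, 2), (4, 4), (7, 2)], [(2, 2),
      (5, 4), (6, 2), (9, 2)], [(2, 4), (5, 6), (6, 4), (9, 4)], [(0, 4), (3, 4), (4, 6), (7, 4)],
      [(0, 2), (3, 2), (4, 4), (7, 2)], [(2, 2), (5, 4), (6, 2), (9, 2)], [(2, 2), (5, 4), (6, 2),
      (9, 2)], [(8, 2), (11, 2)], [(8, 2), (11, 2)], [(10, 2), (13, 2), (14, 4), (17, 2)], [(10,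
      2), (13, 2), (14, 4), (17, 2)], [(12, 2), (15, 4), (16, 2), (19, 2)], [(12, 4), (15, 6), (16,
      4), (19, 4)], [(10, 4), (13, 4), (14, 6), (17, 4)], [(10, 2), (13, 2), (14, 4), (17, 2)],
      [(12, 2), (15, 4), (16, 2), (19, 2)], [(12, 2), (15, 4), (16, 2), (19, 2)], [(1, 2), (18, 2)]]
 []
 .nil

/-- classes `0 1 0 1 2 3 4 3 4 5`, active pairs `1-2 2-3 6-8 7-8` -/
def trS10_28 : Tr2 :=
  .lp .none [2, 2, 6, 2, 2, 2, 2, 2, 6, 2] [] [-1, -1, -1, -1, -3, -3, -1, -1, -1, -1, -1, -1, -1,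
      -1, -1, -1, -3, -3, -1, -1] 8 5
 [[(1, 2), (18, 2)], [(0, 2), (3, 2), (4, 4), (7, 2)], [(0, 2), (3, 2), (4, 4), (7, 2)], [(2, 2),
      (5, 4), (6, 2), (9, 2)], [(2, 4), (5, 6), (6, 4), (9, 4)], [(0, 4), (3, 4), (4, 6), (7, 4)],
      [(0, 2), (3, 2), (4, 4), (7, 2)], [(2, 2), (5, 4), (6, 2), (9, 2)], [(2, 2), (5, 4), (6, 2),
      (9, 2)], [(8, 2), (11, 2)], [(8, 2), (11, 2)], [(10, 2), (13, 2), (14, 2), (17, 4)], [(10,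
      2), (13, 2), (14, 2), (17, 4)], [(12, 2), (15, 2), (16, 4), (19, 2)], [(12, 2), (15, 2), (16,
      4), (19, 2)], [(10, 2), (13, 2), (14, 2), (17, 4)], [(10, 4), (13, 4), (14, 4), (17, 6)],
      [(12, 4), (15, 4), (16, 6), (19, 4)], [(12, 2), (15, 2), (16, 4), (19, 2)], [(1, 2), (18, 2)]]
 []
 .nil

/-- classes `0 1 0 1 2 3 4 3 4 5`, active pairs `1-3 2-3 6-8 7-8` -/
def trS10_29 : Tr2 :=
  .lp .none [2, 2, 2, 6, 2, 2, 2, 2, 6, 2] [] [-1, -1, -1, -1, -1, -1, -3, -3, -1, -1, -1, -1, -1,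
      -1, -1, -1, -3, -3, -1, -1] 8 5
 [[(1, 2), (18, 2)], [(0, 2), (3, 2), (4, 2), (7, 4)], [(0, 2), (3, 2), (4, 2), (7, 4)], [(2, 2),
      (5, 2), (6, 4), (9, 2)], [(2, 2), (5, 2), (6, 4), (9, 2)], [(0, 2), (3, 2), (4, 2), (7, 4)],
      [(0, 4), (3, 4), (4, 4), (7, 6)], [(2, 4), (5, 4), (6, 6), (9, 4)], [(2, 2), (5, 2), (6, 4),
      (9, 2)], [(8, 2), (11, 2)], [(8, 2), (11, 2)], [(10, 2), (13, 2), (14, 2), (17, 4)], [(10,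
      2), (13, 2), (14, 2), (17, 4)], [(12, 2), (15, 2), (16, 4), (19, 2)], [(12, 2), (15, 2), (16,
      4), (19, 2)], [(10, 2), (13, 2), (14, 2), (17, 4)], [(10, 4), (13, 4), (14, 4), (17, 6)],
      [(12, 4), (15, 4), (16, 6), (19, 4)], [(12, 2), (15, 2), (16, 4), (19, 2)], [(1, 2), (18, 2)]]
 []
 .nil

/-- the trees for `10` marks -/
def trS10 (q : Fin 30) : Tr2 :=
  ([trS10_0, trS10_1, trS10_2, trS10_3, trS10_4, trS10_5, trS10_6, trS10_7, trS10_8, trS10_9,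
      trS10_10, trS10_11, trS10_12, trS10_13, trS10_14, trS10_15, trS10_16, trS10_17,
      trS10_18, trS10_19, trS10_20, trS10_21, trS10_22, trS10_23, trS10_24, trS10_25,
      trS10_26, trS10_27, trS10_28, trS10_29] : List Tr2).getD q.val Tr2.nil

private theorem okS10_0 : ∀ q : Fin 30, q.val / 3 = 0 → chkR (canS10 q) (actS10 q) schN (trS10 q) = true := by
  decide +kernel

private theorem okS10_1 : ∀ q : Fin 30, q.val / 3 = 1 → chkR (canS10 q) (actS10 q) schN (trS10 q) = true := by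
  decide +kernel

private theorem okS10_2 : ∀ q : Fin 30, q.val / 3 = 2 → chkR (canS10 q) (actS10 q) schN (trS10 q) = true := by
  decide +kernel

private theorem okS10_3 : ∀ q : Fin 30, q.val / 3 = 3 → chkR (canS10 q) (actS10 q) schN (trS10 q) = true := by
  decide +kernel

private theorem okS10_4 : ∀ q : Fin 30, q.val / 3 = 4 → chkR (canS10 q) (actS10 q) schN (trS10 q) = true := by
  decide +kernel

private theorem okS10_5 : ∀ q : Fin 30, q.val / 3 = 5 → chkR (canS10 q) (actS10 q) schN (trS10 q) = true := by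
  decide +kernel

private theorem okS10_6 : ∀ q : Fin 30, q.val / 3 = 6 → chkR (canS10 q) (actS10 q) schN (trS10 q) = true := by
  decide +kernel

private theorem okS10_7 : ∀ q : Fin 30, q.val / 3 = 7 → chkR (canS10 q) (actS10 q) schN (trS10 q) = true := by
  decide +kernel

private theorem okS10_8 : ∀ q : Fin 30, q.val / 3 = 8 → chkR (canS10 q) (actS10 q) schN (trS10 q) = true := by
  decide +kernel

private theorem okS10_9 : ∀ q : Fin 30, q.val / 3 = 9 → chkR (canS10 q) (actS10 q) schN (trS10 q) = true := by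
  decide +kernel

theorem okS10 : ∀ q : Fin 30, chkR (canS10 q) (actS10 q) schN (trS10 q) = true := by
  intro q
  have hq : q.val / 3 < 10 := by omega
  have h : q.val / 3 = 0 ∨ q.val / 3 = 1 ∨ q.val / 3 = 2 ∨ q.val / 3 = 3 ∨ q.val / 3 = 4 ∨ q.val / 3 = 5 ∨ q.val / 3 = 6 ∨ q.val / 3 = 7 ∨ q.val / 3 = 8 ∨ q.val / 3 = 9 := by omega
  rcases h with h | h | h | h | h | h | h | h | h | h
  · exact okS10_0 q h
  · exact okS10_1 q h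
  · exact okS10_2 q h
  · exact okS10_3 q h
  · exact okS10_4 q h
  · exact okS10_5 q h
  · exact okS10_6 q h
  · exact okS10_7 q h
  · exact okS10_8 q h
  · exact okS10_9 q h

end Pool.Agent.Lib_MP_fa6e45
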