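import Pool.Agent.Lib_MP_fa6e45.ZT0

/-!
MP_fa6e45_co, stage 3: certificate trees for the patterns with 5 marked corners (generated).
-/

namespace Pool.Agent.Lib_MP_fa6e45

/-- classes `0 0 1 2 1`, active pairs `0-2` -/
def trS5_0 : Tr2 :=
  .lp .none [966, 672, 1344, 1190, 840] [(4, 8, -1050), (9, 5, -1050)] [-483, -483, -336, -336, -672,
      -672, -240, -950, -580, -260] 3360 8
 [[(1, 966), (4, 2205), (7, 1433), (8, 1063)], [(0, 966), (2, 819), (3, 819), (5, 1155)], [(0,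
      819), (2, 672), (3, 672), (5, 1008)], [(0, 819), (2, 672), (3, 672), (5, 1008)], [(0, 1155),
      (2, 1008), (3, 1008), (5, 1344)], [(1, 2205), (4, 1344), (7, 1622), (8, 1252)], [(1, 1433),
      (4, 1622), (7, 1900), (8, 480)], [(6, 480), (9, 500)], [(6, 500), (9, 520)], [(1, 1063), (4,
      1252), (7, 480), (8, 1160)]]
 [[2, 1, 0, 0, 0], [2, 2, 0, 0, 0], [0, 3, 0, 0, 0], [0, 4, 0, 0, 0], [0, 0, 0, 2, 2], [0, 0, 0, 3,
      3], [0, 0, 0, 1, 3]]
 (.cons (.lp .none [560, 336, 592, 423, 595] [(4, 8, -528), (9, 5, -528), (0, 3, -224), (2, 1,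
      -224), (4, 5, 344)] [-280, -280, -168, -168, -296, -296, -120, -303, -465, -130] 1680 8
  [[(1, 560), (4, 1104), (7, 583), (8, 745)], [(0, 560), (2, 672), (3, 448), (5, 576)], [(0, 448),
      (2, 336), (3, 336), (5, 240)], [(0, 672), (2, 336), (3, 336), (5, 464)], [(0, 576), (2, 464),
      (3, 240), (5, 592)], [(1, 1104), (4, 248), (7, 599), (8, 761)], [(1, 583), (4, 599), (7,
      950), (8, 240)], [(6, 240), (9, 250)], [(6, 250), (9, 260)], [(1, 745), (4, 761), (7, 240),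
      (8, 930)]]
  [[0, 3, 0, 0, 0], [0, 4, 0, 0, 0], [0, 3, 2, 0, 0], [0, 2, 2, 0, 0], [0, 1, 2, 0, 0], [0, 0, 0,
      2, 2], [0, 0, 0, 3, 3]]
  (.cons (.leafM 2 [4, 1, 3] [(1, [1, 0, 0, 0]), (1, [-1, 0, -3, 3])])
  (.cons (.leafM 3 [4, 1, 3] [(2, [1, 0, 0, 0]), (2, [-1, 0, -4, 4])])
  (.cons (.contra [-1, 3, 2, 0])
  (.cons (.contra [-1, 2, 2, 0])
  (.cons (.contra [-1, 1, 2, 0])
  (.cons (.contra [1, 2, 2, -2])
  (.cons (.leafM 4 [4, 1, 3] [(1, [-1, 0, -3, 3]), (1, [1, 0, 0, 0])])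
  .nil))))))))
 (.cons (.leaf 0 0 [(2, [1, 0, 0])])
 (.cons (.leafM 2 [4, 1, 3] [(1, [1, 0, 0]), (1, [-1, -3, 3])])
 (.cons (.leafM 3 [4, 1, 3] [(2, [1, 0, 0]), (2, [-1, -4, 4])])
 (.cons (.contra [-1, -2, 2])
 (.cons (.leafM 4 [4, 1, 3] [(1, [-1, -3, 3]), (1, [1, 0, 0])])
 (.cons (.lp .none [14407759284, 4740012012, 14220036036, 5530014014, 10734733086] [(4, 8,
      -4552412592), (9, 5, -4552412592)] [-7203879642, -7203879642, -2370006006, -2370006006,
      -7110018018, -7110018018, -2370006006, -3160008008, -6132640311, -4602092775] 33180084084 8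
  [[(1, 14407759284), (4, 18866310252), (7, 10363887650), (8, 13336519953)], [(0, 14407759284), (2,
      9573885648), (3, 9573885648), (5, 14313897660)], [(0, 9573885648), (2, 4740012012), (3,
      4740012012), (5, 9480024024)], [(0, 9573885648), (2, 4740012012), (3, 4740012012), (5,
      9480024024)], [(0, 14313897660), (2, 9480024024), (3, 9480024024), (5, 14220036036)], [(1,
      18866310252), (4, 14220036036), (7, 10270026026), (8, 13242658329)], [(1, 10363887650), (4,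
      10270026026), (7, 6320016016), (8, 4740235727)], [(6, 4740012012), (9, 6972098781)], [(6,
      6972098781), (9, 9204185550)], [(1, 13336519953), (4, 13242658329), (7, 4740235727), (8,
      12265280622)]]
  [[0, 3, 0, 0, 0], [0, 4, 0, 0, 0], [0, 5, 0, 0, 0], [0, 6, 0, 0, 0], [0, 0, 0, 4, 0], [0, 0, 0,
      3, 1], [0, 0, 0, 2, 2]]
  (.cons (.contra [-1, -2, -6, 6])
  (.cons (.contra [-1, -2, -6, 6])
  (.cons (.contra [-1, -2, -6, 6])
  (.cons (.contra [-1, -2, -6, 6])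
  (.cons (.contra [-1, -2, -6, 6])
  (.cons (.contra [-1, -1, -4, 4])
  (.cons (.contra [-1, 0, -2, 2])
  .nil))))))))
 .nil)))))))

/-- classes `0 1 0 1 2`, active pairs `1-2` -/
def trS5_1 : Tr2 :=
  .leafM 0 [0, 3, 4] []

/-- classes `0 1 0 1 2`, active pairs `1-2 1-3` -/
def trS5_2 : Tr2 :=
  .leafM 0 [0, 3, 4] []

/-- classes `0 1 0 1 2`, active pairs `1-2 2-3` -/
def trS5_3 : Tr2 :=
  .leafM 0 [0, 3, 4] []

/-- classes `0 1 0 1 2`, active pairs `1-3` -/
def trS5_4 : Tr2 :=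
  .leafM 1 [4, 0, 2] []

/-- classes `0 1 0 1 2`, active pairs `1-3 2-3` -/
def trS5_5 : Tr2 :=
  .leafM 1 [4, 0, 2] []

/-- classes `0 1 0 1 2`, active pairs `2-3` -/
def trS5_6 : Tr2 :=
  .leafM 0 [0, 1, 4] []

/-- the trees for `5` marks -/
def trS5 (q : Fin 7) : Tr2 :=
  ([trS5_0, trS5_1, trS5_2, trS5_3, trS5_4, trS5_5, trS5_6] : List Tr2).getD q.val Tr2.nil

theorem okS5 : ∀ q : Fin 7, chkR (canS5 q) (actS5 q) sch5 (trS5 q) = true := by
  decide +kernel

end Pool.Agent.Lib_MP_fa6e45
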