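import Pool.Agent.Lib_MP_fa6e45.ZT0

/-!
MP_fa6e45_co, stage 3: certificate trees for the patterns with 6 marked corners (generated).
-/

namespace Pool.Agent.Lib_MP_fa6e45

/-- classes `0 0 1 2 1 2`, active pairs `3-4` -/
def trS6_0 : Tr2 :=
  .splitT 0
 (.leafM 0 [0, 1, 2, 5] [])
 (.lp .none [36, 80, 84, 120, 102, 48] [(4, 8, 18), (9, 5, 18), (6, 11, 18), (10, 7, 18), (8, 9,
      24)] [-12, -24, -40, -40, -42, -42, -60, -60, -51, -51, -24, -24] 240 6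
  [[(1, 48), (6, 84), (9, 93), (10, 48)], [(5, 54)], [(2, 80)], [(3, 80)], [(0, 54)], [(4, 84), (7,
      102), (8, 93), (11, 48)], [(4, 102), (7, 120), (8, 129), (11, 84)], [(1, 84), (6, 120), (9,
      111), (10, 66)], [(1, 93), (6, 111), (9, 102), (10, 75)], [(4, 93), (7, 129), (8, 78), (11,
      75)], [(4, 48), (7, 84), (8, 75), (11, 72)], [(1, 48), (6, 66), (9, 75), (10, 48)]]
  [[1, 0, 1, 0, 0, 1]]
  (.cons (.contra [-1, -1, 1])
  .nil))
 (.leafM 1 [2, 5, 0, 1] [])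

/-- classes `0 0 1 2 1 2`, active pairs `3-4 3-5` -/
def trS6_1 : Tr2 :=
  .splitT 0
 (.leafM 0 [0, 1, 2, 5] [])
 (.lp .none [48, 80, 48, 174, 60, 60] [(4, 8, 6), (9, 5, 6), (4, 5, -48), (4, 9, 6), (8, 5, 6)]
      [-24, -24, -40, -40, -24, -24, -87, -87, -30, -30, -30, -30] 240 6
  [[(1, 48), (6, 111), (9, 54), (10, 54)], [(5, 48)], [(2, 80)], [(3, 80)], [(0, 48)], [(4, 96),
      (7, 111), (8, 48), (11, 48)], [(4, 111), (7, 126), (8, 123), (11, 123)], [(1, 111), (6, 174),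
      (9, 117), (10, 117)], [(1, 54), (6, 117), (9, 60), (10, 60)], [(4, 48), (7, 123), (8, 60),
      (11, 60)], [(4, 48), (7, 123), (8, 60), (11, 60)], [(1, 54), (6, 117), (9, 60), (10, 60)]]
  [[1, 0, 1, 0, 1, 0], [1, 0, 1, 0, 0, 1]]
  (.cons (.contra [-1, 0, -1, 1])
  (.cons (.contra [-1, -1, 0, 1])
  .nil)))
 (.leafM 1 [2, 5, 0, 1] [])

/-- classes `0 0 1 2 1 2`, active pairs `3-4 4-5` -/
def trS6_2 : Tr2 :=
  .splitT 0
 (.leafM 0 [0, 1, 2, 5] [])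
 (.lp .none [40, 80, 68, 60, 158, 72] [(4, 8, 22), (9, 5, 22), (6, 10, 10), (11, 7, 10), (10, 11,
      24)] [-14, -26, -40, -40, -34, -34, -32, -28, -79, -79, -36, -36] 240 6
  [[(1, 76), (6, 48), (9, 105), (10, 62)], [(5, 48)], [(2, 80)], [(3, 80)], [(0, 48)], [(4, 68),
      (7, 62), (8, 113), (11, 48)], [(4, 62), (7, 56), (8, 129), (11, 64)], [(1, 48), (6, 64), (9,
      111), (10, 68)], [(1, 105), (6, 111), (9, 158), (10, 125)], [(4, 113), (7, 129), (8, 158),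
      (11, 115)], [(4, 48), (7, 64), (8, 115), (11, 72)], [(1, 62), (6, 68), (9, 125), (10, 48)]]
  [[1, 0, 1, 1, 0, 0], [1, 0, 1, 0, 0, 1]]
  (.cons (.contra [-1, 0, -1, 1])
  (.cons (.contra [-1, -1, 0, 1])
  .nil)))
 (.leafM 1 [2, 5, 0, 1] [])

/-- classes `0 0 1 2 1 2`, active pairs `3-5` -/
def trS6_3 : Tr2 :=
  .splitT 0
 (.leafM 1 [0, 1, 2, 4] [])
 (.lp .none [36, 80, 84, 102, 48, 120] [(6, 10, -18), (11, 7, -18), (4, 9, 18), (8, 5, 18), (6, 7,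
      24)] [-12, -24, -40, -40, -42, -42, -51, -51, -24, -24, -60, -60] 240 6
  [[(1, 48), (6, 93), (9, 48), (10, 84)], [(5, 54)], [(2, 80)], [(3, 80)], [(0, 54)], [(4, 84), (7,
      93), (8, 48), (11, 102)], [(4, 93), (7, 102), (8, 75), (11, 129)], [(1, 93), (6, 78), (9,
      75), (10, 111)], [(1, 48), (6, 75), (9, 72), (10, 66)], [(4, 48), (7, 75), (8, 48), (11,
      84)], [(4, 102), (7, 129), (8, 84), (11, 120)], [(1, 84), (6, 111), (9, 66), (10, 120)]]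
  [[1, 0, 1, 0, 1, 0]]
  (.cons (.contra [-1, -1, 1])
  .nil))
 (.leafM 3 [0, 1, 2, 4] [])

/-- classes `0 0 1 2 1 2`, active pairs `3-5 4-5` -/
def trS6_4 : Tr2 :=
  .splitT 0
 (.leafM 1 [0, 1, 2, 4] [])
 (.lp .none [48, 80, 48, 60, 60, 174] [(6, 10, 6), (11, 7, 6), (4, 9, 6), (8, 5, 6), (10, 11, 48)]
      [-24, -24, -40, -40, -24, -24, -30, -30, -30, -30, -87, -87] 240 6
  [[(1, 96), (6, 48), (9, 54), (10, 111)], [(5, 48)], [(2, 80)], [(3, 80)], [(0, 48)], [(4, 48),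
      (7, 54), (8, 48), (11, 111)], [(4, 54), (7, 60), (8, 60), (11, 123)], [(1, 48), (6, 60), (9,
      60), (10, 117)], [(1, 54), (6, 60), (9, 60), (10, 123)], [(4, 48), (7, 60), (8, 60), (11,
      117)], [(4, 111), (7, 123), (8, 117), (11, 174)], [(1, 111), (6, 117), (9, 123), (10, 126)]]
  [[1, 0, 1, 1, 0, 0], [1, 0, 1, 0, 1, 0]]
  (.cons (.contra [-1, 0, -1, 1])
  (.cons (.contra [-1, -1, 0, 1])
  .nil)))
 (.leafM 3 [0, 1, 2, 4] [])

/-- classes `0 0 1 2 1 2`, active pairs `4-5` -/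
def trS6_5 : Tr2 :=
  .splitT 0
 (.leafM 0 [0, 1, 2, 3] [])
 (.lp .none [3276, 3640, 2184, 2184, 4680, 5460] [(6, 10, 840), (11, 7, 840), (6, 7, -1092), (6,
      11, 840), (10, 7, 840)] [-1183, -2093, -1820, -1820, -1092, -1092, -1092, -1092, -2340,
      -2340, -2730, -2730] 10920 6
  [[(1, 4186), (6, 2345), (9, 5273), (10, 4823)], [(5, 2275)], [(2, 3640)], [(3, 3640)], [(0,
      2275)], [(4, 2184), (7, 2184), (8, 3432), (11, 3822)], [(4, 2184), (7, 2184), (8, 3432), (11,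
      3822)], [(1, 2345), (6, 3276), (9, 3432), (10, 2982)], [(1, 5273), (6, 3432), (9, 3588), (10,
      5910)], [(4, 3432), (7, 3432), (8, 4680), (11, 5070)], [(4, 3822), (7, 3822), (8, 5070), (11,
      5460)], [(1, 4823), (6, 2982), (9, 5910), (10, 5460)]]
  [[1, 0, 1, 1, 0, 0]]
  (.cons (.contra [-1, -1, 1])
  .nil))
 (.leafM 1 [2, 3, 0, 1] [])

/-- classes `0 0 1 2 2 1`, active pairs `0-2` -/
def trS6_6 : Tr2 :=
  .splitT 3
 (.lp (.two 0 2) [478, 244, 478, 450, 300, 450] [(4, 10, -264), (11, 5, -264)] [-239, -239, -122,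
      -122, -239, -239, -167, -283, -150, -150, -225, -225] 1200 6
  [[(1, 478), (4, 742), (7, 522), (10, 464)], [(0, 478), (2, 361), (3, 361), (5, 478)], [(0, 361),
      (2, 244), (3, 244), (5, 361)], [(0, 361), (2, 244), (3, 244), (5, 361)], [(0, 478), (2, 361),
      (3, 361), (5, 478)], [(1, 742), (4, 478), (7, 522), (10, 464)], [(1, 522), (4, 522), (7,
      566), (10, 244)], [(6, 334), (8, 317), (9, 317), (11, 392)], [(6, 317), (8, 300), (9, 300),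
      (11, 375)], [(6, 317), (8, 300), (9, 300), (11, 375)], [(6, 392), (8, 375), (9, 375), (11,
      450)], [(1, 464), (4, 464), (7, 244), (10, 450)]]
  [[0, 3, 0, 0, 0, 0], [0, 4, 0, 0, 0, 0], [0, 0, 0, 1, 1, 1], [0, 0, 0, 0, 3, 0]]
  (.cons (.lp (.two 0 2) [28400, 28400, 28400, 31950, 21300, 31950] [(4, 10, -29110), (11, 5,
      -29110)] [-14200, -14200, -14200, -14200, -14200, -14200, -8591, -23359, -10650, -10650,
      -22935, -9015] 85200 6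
   [[(1, 28400), (4, 57510), (7, 37559), (10, 37135)], [(0, 28400), (2, 28400), (3, 28400), (5,
      28400)], [(0, 28400), (2, 28400), (3, 28400), (5, 28400)], [(0, 28400), (2, 28400), (3,
      28400), (5, 28400)], [(0, 28400), (2, 28400), (3, 28400), (5, 28400)], [(1, 57510), (4,
      28400), (7, 37559), (10, 37135)], [(1, 37559), (4, 37559), (7, 46718), (10, 17184)], [(6,
      17182), (8, 19241), (9, 19241), (11, 17606)], [(6, 19241), (8, 21300), (9, 21300), (11,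
      19665)], [(6, 19241), (8, 21300), (9, 21300), (11, 19665)], [(6, 17606), (8, 19665), (9,
      19665), (11, 18030)], [(1, 37135), (4, 37135), (7, 17184), (10, 45870)]]
   [[0, 0, 0, 2, 0, 2], [0, 0, 0, 1, 1, 1], [0, 0, 0, 1, 2, 1], [0, 0, 0, 0, 3, 0]]
   (.cons (.leafM 8 [5, 1, 3, 4] [(1, [0, 1, 0, 0]), (2, [-3, -2, -6, 6]), (2, [1, 0, 0, 0])])
   (.cons (.contra [1, 1, 1, -1])
   (.cons (.leafM 10 [3, 4, 5, 1] [(1, [3, 1, 3, -3]), (1, [0, 1, 0, 0]), (1, [-3, -2, -6, 6])])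
   (.cons (.leafM 10 [3, 4, 5, 1] [(1, [1, 0, 0, 0]), (1, [0, 1, 0, 0]), (1, [-1, -1, -3, 3])])
   .nil)))))
  (.cons (.lp (.two 0 2) [7550730, 5033820, 7550730, 6711760, 6711760, 6711760] [(4, 10, -5201614),
      (11, 5, -5201614)] [-3775365, -3775365, -2516910, -2516910, -3775365, -3775365, -2030360,
      -4681400, -3355880, -3355880, -4580840, -2130920] 20135280 6
   [[(1, 7550730), (4, 12752344), (7, 8456765), (10, 8356205)], [(0, 7550730), (2, 6292275), (3,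
      6292275), (5, 7550730)], [(0, 6292275), (2, 5033820), (3, 5033820), (5, 6292275)], [(0,
      6292275), (2, 5033820), (3, 5033820), (5, 6292275)], [(0, 7550730), (2, 6292275), (3,
      6292275), (5, 7550730)], [(1, 12752344), (4, 7550730), (7, 8456765), (10, 8356205)], [(1,
      8456765), (4, 8456765), (7, 9362800), (10, 4060626)], [(6, 4060720), (8, 5386240), (9,
      5386240), (11, 4161280)], [(6, 5386240), (8, 6711760), (9, 6711760), (11, 5486800)], [(6,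
      5386240), (8, 6711760), (9, 6711760), (11, 5486800)], [(6, 4161280), (8, 5486800), (9,
      5486800), (11, 4261840)], [(1, 8356205), (4, 8356205), (7, 4060626), (10, 9161680)]]
   [[0, 3, 0, 0, 0, 0], [0, 0, 0, 2, 0, 2], [0, 0, 0, 1, 1, 1]]
   (.cons (.contra [2, -1, 0, 0])
   (.cons (.leafM 9 [5, 1, 3, 4] [(2, [0, 1, 0, 0]), (2, [-2, -1, -4, 4]), (2, [1, 0, 0, 0])])
   (.cons (.contra [2, 1, 2, -2])
   .nil))))
  (.cons (.contra [-1, -1, 1])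
  (.cons (.lp (.two 0 2) [7550730, 5033820, 7550730, 6711760, 6711760, 6711760] [(4, 10, -5201614),
      (11, 5, -5201614)] [-3775365, -3775365, -2516910, -2516910, -3775365, -3775365, -2030360,
      -4681400, -3355880, -3355880, -4580840, -2130920] 20135280 6
   [[(1, 7550730), (4, 12752344), (7, 8456765), (10, 8356205)], [(0, 7550730), (2, 6292275), (3,
      6292275), (5, 7550730)], [(0, 6292275), (2, 5033820), (3, 5033820), (5, 6292275)], [(0,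
      6292275), (2, 5033820), (3, 5033820), (5, 6292275)], [(0, 7550730), (2, 6292275), (3,
      6292275), (5, 7550730)], [(1, 12752344), (4, 7550730), (7, 8456765), (10, 8356205)], [(1,
      8456765), (4, 8456765), (7, 9362800), (10, 4060626)], [(6, 4060720), (8, 5386240), (9,
      5386240), (11, 4161280)], [(6, 5386240), (8, 6711760), (9, 6711760), (11, 5486800)], [(6,
      5386240), (8, 6711760), (9, 6711760), (11, 5486800)], [(6, 4161280), (8, 5486800), (9,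
      5486800), (11, 4261840)], [(1, 8356205), (4, 8356205), (7, 4060626), (10, 9161680)]]
   [[0, 3, 0, 0, 0, 0], [0, 0, 0, 2, 0, 2], [0, 0, 0, 1, 1, 1]]
   (.cons (.leafM 10 [3, 4, 5, 1] [(1, [0, 1, 0, 0]), (1, [1, 0, 0, 0]), (1, [-1, -1, -3, 3])])
   (.cons (.leafM 11 [3, 4, 5, 1] [(1, [0, 1, 0, 0]), (2, [-3, -2, -6, 6]), (2, [1, 0, 0, 0])])
   (.cons (.contra [-1, 0, -1, 1])
   .nil))))
  .nil)))))
 (.lp .none [40, 40, 80, 24, 30, 24] [] [-20, -20, -20, -20, -40, -40, -12, -12, -15, -15, -12,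
      -12] 120 6
  [[(1, 40), (4, 60), (7, 32), (10, 32)], [(0, 40), (2, 40), (3, 40), (5, 60)], [(0, 40), (2, 40),
      (3, 40), (5, 60)], [(0, 40), (2, 40), (3, 40), (5, 60)], [(0, 60), (2, 60), (3, 60), (5,
      80)], [(1, 60), (4, 80), (7, 52), (10, 52)], [(1, 32), (4, 52), (7, 24), (10, 24)], [(11,
      24)], [(8, 30)], [(9, 30)], [(6, 24)], [(1, 32), (4, 52), (7, 24), (10, 24)]]
  [[0, 0, 0, 2, 0, 2], [0, 0, 0, 0, 3, 0]]
  (.cons (.lp (.imp 0) [110, 60, 130, 56, 60, 64] [] [-55, -55, -30, -30, -65, -65, -28, -28, -30,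
      -30, -32, -32] 240 6
   [[(1, 110), (4, 120), (7, 83), (10, 87)], [(0, 110), (2, 85), (3, 85), (5, 120)], [(0, 85), (2,
      60), (3, 60), (5, 95)], [(0, 85), (2, 60), (3, 60), (5, 95)], [(0, 120), (2, 95), (3, 95),
      (5, 130)], [(1, 120), (4, 130), (7, 93), (10, 97)], [(1, 83), (4, 93), (7, 56), (10, 60)],
      [(11, 60)], [(8, 60)], [(9, 60)], [(6, 60)], [(1, 87), (4, 97), (7, 60), (10, 64)]]
   [[0, 3, 0, 0, 0, 0], [0, 0, 0, 0, 3, 0]]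
   (.cons (.leafM 11 [5, 1, 3, 4] [(1, [1, 0, 0, 0]), (2, [-2, -3, -6, 6]), (2, [0, 1, 0, 0])])
   (.cons (.leafM 11 [3, 4, 5, 1] [(1, [1, 0, 0, 0]), (2, [-2, -3, -6, 6]), (2, [0, 1, 0, 0])])
   .nil)))
  (.cons (.lp .none [90, 60, 150, 48, 80, 48] [] [-45, -45, -30, -30, -75, -75, -24, -24, -40, -40,
      -24, -24] 240 6
   [[(1, 90), (4, 120), (7, 69), (10, 69)], [(0, 90), (2, 75), (3, 75), (5, 120)], [(0, 75), (2,
      60), (3, 60), (5, 105)], [(0, 75), (2, 60), (3, 60), (5, 105)], [(0, 120), (2, 105), (3,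
      105), (5, 150)], [(1, 120), (4, 150), (7, 99), (10, 99)], [(1, 69), (4, 99), (7, 48), (10,
      48)], [(11, 48)], [(8, 80)], [(9, 80)], [(6, 48)], [(1, 69), (4, 99), (7, 48), (10, 48)]]
   [[0, 3, 0, 0, 0, 0], [0, 0, 0, 2, 0, 2]]
   (.cons (.leafM 10 [3, 4, 5, 1] [(1, [0, 1, 0, 0]), (1, [1, 0, 0, 0]), (1, [-1, -1, -3, 3])])
   (.cons (.leafM 11 [3, 4, 5, 1] [(1, [0, 1, 0, 0]), (2, [-3, -2, -6, 6]), (2, [1, 0, 0, 0])])
   .nil)))
  .nil)))
 (.lp .none [10, 10, 20, 6, 6, 6] [] [-5, -5, -5, -5, -10, -10, -3, -3, -3, -3, -3, -3] 30 6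
  [[(1, 10), (4, 15), (7, 8), (10, 8)], [(0, 10), (2, 10), (3, 10), (5, 15)], [(0, 10), (2, 10),
      (3, 10), (5, 15)], [(0, 10), (2, 10), (3, 10), (5, 15)], [(0, 15), (2, 15), (3, 15), (5,
      20)], [(1, 15), (4, 20), (7, 13), (10, 13)], [(1, 8), (4, 13), (7, 6), (10, 6)], [(8, 6)],
      [(11, 6)], [(6, 6)], [(9, 6)], [(1, 8), (4, 13), (7, 6), (10, 6)]]
  [[0, 0, 0, 1, 1, 1]]
  (.cons (.contra [-1, -1, 1])
  .nil))

/-- classes `0 0 1 2 3 1`, active pairs `0-2` -/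
def trS6_7 : Tr2 :=
  .lp (.imp 0) [10, 4, 6, 4, 4, 4] [] [-5, -5, -2, -2, -3, -3, -2, -2, -2, -2, -2, -2] 16 6
 [[(1, 10), (4, 8), (7, 7), (10, 7)], [(0, 10), (2, 7), (3, 7), (5, 8)], [(0, 7), (2, 4), (3, 4),
      (5, 5)], [(0, 7), (2, 4), (3, 4), (5, 5)], [(0, 8), (2, 5), (3, 5), (5, 6)], [(1, 8), (4, 6),
      (7, 5), (10, 5)], [(1, 7), (4, 5), (7, 4), (10, 4)], [(6, 4), (9, 4)], [(6, 4), (9, 4)], [(8,
      4), (11, 4)], [(8, 4), (11, 4)], [(1, 7), (4, 5), (7, 4), (10, 4)]]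
 [[0, 3, 0, 0, 0, 0], [0, 0, 0, 1, 1, 1]]
 (.cons (.lp .none [138, 80, 80, 60, 60, 60] [(4, 10, -22), (11, 5, -22)] [-69, -69, -40, -40, -40,
      -40, -24, -36, -30, -30, -34, -26] 240 6
  [[(1, 138), (4, 131), (7, 105), (10, 103)], [(0, 138), (2, 109), (3, 109), (5, 109)], [(0, 109),
      (2, 80), (3, 80), (5, 80)], [(0, 109), (2, 80), (3, 80), (5, 80)], [(0, 109), (2, 80), (3,
      80), (5, 80)], [(1, 131), (4, 80), (7, 76), (10, 74)], [(1, 105), (4, 76), (7, 72), (10,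
      48)], [(6, 48), (9, 54)], [(6, 54), (9, 60)], [(8, 60), (11, 56)], [(8, 56), (11, 52)], [(1,
      103), (4, 74), (7, 48), (10, 68)]]
  [[0, 0, 0, 1, 1, 1], [0, 0, 0, 2, 0, 2]]
  (.cons (.contra [1, 1, 1, -1])
  (.cons (.splitU 3
   (.splitU 4
    (.leafM 8 [5, 1, 3, 4] [(1, [0, 1, 0, 0]), (2, [-3, -2, -6, 6]), (2, [1, 0, 0, 0])])
    (.lp .none [80, 80, 130, 60, 24, 96] [(4, 10, -30), (11, 5, -30)] [-40, -40, -40, -40, -65,
      -65, -30, -30, 0, -24, -48, -48] 240 6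
     [[(1, 80), (4, 135), (7, 70), (10, 88)], [(0, 80), (2, 80), (3, 80), (5, 105)], [(0, 80), (2,
      80), (3, 80), (5, 105)], [(0, 80), (2, 80), (3, 80), (5, 105)], [(0, 105), (2, 105), (3,
      105), (5, 130)], [(1, 135), (4, 130), (7, 95), (10, 113)], [(1, 70), (4, 95), (7, 60), (10,
      48)], [(6, 60), (9, 54)], [(6, 54), (9, 48)], [(11, 48)], [(8, 48)], [(1, 88), (4, 113), (7,
      48), (10, 96)]]
     [[0, 0, 0, 1, 1, 1]]
     (.cons (.contra [1, 0, 1, 1, -1])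
     .nil)))
   (.lp .none [80, 80, 130, 72, 48, 60] [(4, 10, -30), (11, 5, -30)] [-40, -40, -40, -40, -65, -65,
      -24, -48, -24, -24, -30, -30] 240 6
    [[(1, 80), (4, 135), (7, 88), (10, 70)], [(0, 80), (2, 80), (3, 80), (5, 105)], [(0, 80), (2,
      80), (3, 80), (5, 105)], [(0, 80), (2, 80), (3, 80), (5, 105)], [(0, 105), (2, 105), (3,
      105), (5, 130)], [(1, 135), (4, 130), (7, 113), (10, 95)], [(1, 88), (4, 113), (7, 96), (10,
      48)], [(9, 48)], [(6, 48)], [(8, 48), (11, 54)], [(8, 54), (11, 60)], [(1, 70), (4, 95), (7,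
      48), (10, 60)]]
    [[0, 0, 0, 1, 1, 1]]
    (.cons (.contra [1, 0, 1, 1, -1])
    .nil)))
  .nil)))
 (.cons (.contra [-1, -1, 1])
 .nil))

/-- classes `0 1 0 1 2 3`, active pairs `1-2` -/
def trS6_8 : Tr2 :=
  .leafM 0 [0, 3, 4, 5] []

/-- classes `0 1 0 1 2 3`, active pairs `1-2 1-3` -/
def trS6_9 : Tr2 :=
  .leafM 0 [0, 3, 4, 5] []

/-- classes `0 1 0 1 2 3`, active pairs `1-2 2-3` -/
def trS6_10 : Tr2 :=
  .leafM 0 [0, 3, 4, 5] []

/-- classes `0 1 0 1 2 3`, active pairs `1-3` -/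
def trS6_11 : Tr2 :=
  .leafM 1 [4, 5, 0, 2] []

/-- classes `0 1 0 1 2 3`, active pairs `1-3 2-3` -/
def trS6_12 : Tr2 :=
  .leafM 1 [4, 5, 0, 2] []

/-- classes `0 1 0 1 2 3`, active pairs `2-3` -/
def trS6_13 : Tr2 :=
  .leafM 0 [0, 1, 4, 5] []

/-- classes `0 1 0 2 1 2`, active pairs `0-3` -/
def trS6_14 : Tr2 :=
  .splitT 1
 (.leafM 5 [1, 2, 4, 5] [])
 (.leafM 5 [1, 2, 4, 5] [])
 (.leafM 6 [2, 4, 5, 1] [])

/-- classes `0 1 0 2 1 2`, active pairs `1-2` -/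
def trS6_15 : Tr2 :=
  .splitT 3
 (.leafM 0 [0, 3, 4, 5] [])
 (.lp (.imp 1) [28, 90, 30, 32, 28, 32] [] [-14, -14, -45, -45, -15, -15, -16, -16, -14, -14, -16,
      -16] 120 6
  [[(6, 30)], [(0, 28), (3, 59), (4, 29), (7, 30)], [(0, 59), (3, 90), (4, 60), (7, 61)], [(2, 90),
      (5, 60), (8, 59), (11, 61)], [(2, 60), (5, 30), (8, 29), (11, 31)], [(0, 29), (3, 60), (4,
      30), (7, 31)], [(0, 30), (3, 61), (4, 31), (7, 32)], [(1, 30)], [(10, 30)], [(2, 59), (5,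
      29), (8, 28), (11, 30)], [(2, 61), (5, 31), (8, 30), (11, 32)], [(9, 30)]]
  []
  .nil)
 (.leafM 2 [0, 3, 4, 5] [])

/-- classes `0 1 0 2 1 3`, active pairs `1-2` -/
def trS6_16 : Tr2 :=
  .leafM 0 [0, 3, 4, 5] []

/-- classes `0 1 0 2 3 2`, active pairs `0-3` -/
def trS6_17 : Tr2 :=
  .lp (.imp 0) [8, 6, 6, 16, 6, 6] [] [-4, -4, -3, -3, -3, -3, -8, -8, -3, -3, -3, -3] 24 6
 [[(1, 8), (6, 12), (9, 7), (10, 7)], [(0, 8), (3, 7), (4, 7), (7, 12)], [(0, 7), (3, 6), (4, 6),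
      (7, 11)], [(2, 6), (5, 6)], [(2, 6), (5, 6)], [(0, 7), (3, 6), (4, 6), (7, 11)], [(0, 12),
      (3, 11), (4, 11), (7, 16)], [(1, 12), (6, 16), (9, 11), (10, 11)], [(1, 7), (6, 11), (9, 6),
      (10, 6)], [(8, 6), (11, 6)], [(8, 6), (11, 6)], [(1, 7), (6, 11), (9, 6), (10, 6)]]
 []
 .nil

/-- classes `0 1 2 0 1 2`, active pairs `0-3` -/
def trS6_18 : Tr2 :=
  .splitT 1
 (.leafM 2 [1, 2, 4, 5] [])
 (.leafM 6 [1, 2, 4, 5] [])
 (.lp (.imp 0) [20, 14, 14, 40, 16, 16] [] [-10, -10, -7, -7, -7, -7, -20, -20, -8, -8, -8, -8] 60 6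
  [[(1, 20), (4, 17), (7, 30), (10, 18)], [(0, 20), (3, 17), (6, 30), (9, 18)], [(0, 17), (3, 14),
      (6, 27), (9, 15)], [(8, 15)], [(11, 15)], [(1, 17), (4, 14), (7, 27), (10, 15)], [(1, 30),
      (4, 27), (7, 40), (10, 28)], [(0, 30), (3, 27), (6, 40), (9, 28)], [(0, 18), (3, 15), (6,
      28), (9, 16)], [(2, 15)], [(5, 15)], [(1, 18), (4, 15), (7, 28), (10, 16)]]
  []
  .nil)

/-- classes `0 1 2 0 1 3`, active pairs `1-4` -/
def trS6_19 : Tr2 :=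
  .leafM 2 [2, 3, 5, 0] []

/-- the trees for `6` marks -/
def trS6 (q : Fin 20) : Tr2 :=
  ([trS6_0, trS6_1, trS6_2, trS6_3, trS6_4, trS6_5, trS6_6, trS6_7, trS6_8, trS6_9, trS6_10,
      trS6_11, trS6_12, trS6_13, trS6_14, trS6_15, trS6_16, trS6_17, trS6_18, trS6_19] : List Tr2).getD q.val Tr2.nil

theorem okS6 : ∀ q : Fin 20, chkR (canS6 q) (actS6 q) sch6 (trS6 q) = true := by
  decide +kernel

end Pool.Agent.Lib_MP_fa6e45
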