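import Pool.Agent.Lib_MP_fa6e45.ZT0

/-!
MP_fa6e45_co, stage 3: certificate trees for the patterns with 7 marked corners (generated).
-/

namespace Pool.Agent.Lib_MP_fa6e45

/-- classes `0 0 1 2 1 2 3`, active pairs `3-4` -/
def trS7_0 : Tr2 :=
  .splitT 0
 (.lp .none [8, 8, 8, 16, 6, 6, 6] [(4, 8, 2), (9, 5, 2)] [-4, -4, -4, -4, -5, -3, -8, -8, -3, -3,
      -3, -3, -3, -3] 24 5
  [[(1, 8), (12, 7)], [(0, 8), (2, 8), (3, 8), (5, 7)], [(0, 8), (2, 8), (3, 8), (5, 7)], [(0, 8),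
      (2, 8), (3, 8), (5, 7)], [(0, 7), (2, 7), (3, 7), (5, 6)], [(4, 10), (7, 13), (8, 8), (11,
      6)], [(4, 13), (7, 16), (8, 13), (11, 11)], [(6, 16), (9, 11), (10, 11), (13, 11)], [(6, 11),
      (9, 6), (10, 6), (13, 6)], [(4, 8), (7, 13), (8, 6), (11, 6)], [(4, 6), (7, 11), (8, 6), (11,
      6)], [(6, 11), (9, 6), (10, 6), (13, 6)], [(6, 11), (9, 6), (10, 6), (13, 6)], [(1, 7), (12,
      6)]]
  []
  .nil)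
 (.lp .none [6, 8, 6, 18, 6, 6, 6] [] [-3, -3, -4, -4, -3, -3, -9, -9, -3, -3, -3, -3, -3, -3] 24 5
  [[(1, 6), (12, 6)], [(5, 6)], [(2, 8)], [(3, 8)], [(0, 6)], [(4, 6), (7, 12), (8, 6), (11, 6)],
      [(4, 12), (7, 18), (8, 12), (11, 12)], [(6, 18), (9, 12), (10, 12), (13, 12)], [(6, 12), (9,
      6), (10, 6), (13, 6)], [(4, 6), (7, 12), (8, 6), (11, 6)], [(4, 6), (7, 12), (8, 6), (11,
      6)], [(6, 12), (9, 6), (10, 6), (13, 6)], [(6, 12), (9, 6), (10, 6), (13, 6)], [(1, 6), (12,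
      6)]]
  []
  .nil)
 (.lp .none [2, 2, 2, 6, 2, 2, 2] [] [-1, -1, -1, -1, -1, -1, -3, -3, -1, -1, -1, -1, -1, -1] 8 5
  [[(1, 2), (12, 2)], [(2, 2)], [(5, 2)], [(0, 2)], [(3, 2)], [(4, 2), (7, 4), (8, 2), (11, 2)],
      [(4, 4), (7, 6), (8, 4), (11, 4)], [(6, 6), (9, 4), (10, 4), (13, 4)], [(6, 4), (9, 2), (10,
      2), (13, 2)], [(4, 2), (7, 4), (8, 2), (11, 2)], [(4, 2), (7, 4), (8, 2), (11, 2)], [(6, 4),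
      (9, 2), (10, 2), (13, 2)], [(6, 4), (9, 2), (10, 2), (13, 2)], [(1, 2), (12, 2)]]
  []
  .nil)

/-- classes `0 0 1 2 1 2 3`, active pairs `3-4 3-5` -/
def trS7_1 : Tr2 :=
  .splitT 0
 (.lp .none [8, 8, 6, 18, 6, 6, 6] [(4, 5, -4)] [-4, -4, -4, -4, -3, -3, -9, -9, -3, -3, -3, -3,
      -3, -3] 24 5
  [[(1, 8), (12, 7)], [(0, 8), (2, 8), (3, 8), (5, 7)], [(0, 8), (2, 8), (3, 8), (5, 7)], [(0, 8),
      (2, 8), (3, 8), (5, 7)], [(0, 7), (2, 7), (3, 7), (5, 6)], [(4, 10), (7, 12), (8, 6), (11,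
      6)], [(4, 12), (7, 14), (8, 12), (11, 12)], [(6, 18), (9, 12), (10, 12), (13, 12)], [(6, 12),
      (9, 6), (10, 6), (13, 6)], [(4, 6), (7, 12), (8, 6), (11, 6)], [(4, 6), (7, 12), (8, 6), (11,
      6)], [(6, 12), (9, 6), (10, 6), (13, 6)], [(6, 12), (9, 6), (10, 6), (13, 6)], [(1, 7), (12,
      6)]]
  []
  .nil)
 (.lp .none [6, 8, 6, 18, 6, 6, 6] [] [-3, -3, -4, -4, -3, -3, -9, -9, -3, -3, -3, -3, -3, -3] 24 5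
  [[(1, 6), (12, 6)], [(5, 6)], [(2, 8)], [(3, 8)], [(0, 6)], [(4, 6), (7, 12), (8, 6), (11, 6)],
      [(4, 12), (7, 18), (8, 12), (11, 12)], [(6, 18), (9, 12), (10, 12), (13, 12)], [(6, 12), (9,
      6), (10, 6), (13, 6)], [(4, 6), (7, 12), (8, 6), (11, 6)], [(4, 6), (7, 12), (8, 6), (11,
      6)], [(6, 12), (9, 6), (10, 6), (13, 6)], [(6, 12), (9, 6), (10, 6), (13, 6)], [(1, 6), (12,
      6)]]
  []
  .nil)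
 (.lp .none [2, 2, 2, 6, 2, 2, 2] [] [-1, -1, -1, -1, -1, -1, -3, -3, -1, -1, -1, -1, -1, -1] 8 5
  [[(1, 2), (12, 2)], [(2, 2)], [(5, 2)], [(0, 2)], [(3, 2)], [(4, 2), (7, 4), (8, 2), (11, 2)],
      [(4, 4), (7, 6), (8, 4), (11, 4)], [(6, 6), (9, 4), (10, 4), (13, 4)], [(6, 4), (9, 2), (10,
      2), (13, 2)], [(4, 2), (7, 4), (8, 2), (11, 2)], [(4, 2), (7, 4), (8, 2), (11, 2)], [(6, 4),
      (9, 2), (10, 2), (13, 2)], [(6, 4), (9, 2), (10, 2), (13, 2)], [(1, 2), (12, 2)]]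
  []
  .nil)

/-- classes `0 0 1 2 1 2 3`, active pairs `3-4 4-5` -/
def trS7_2 : Tr2 :=
  .splitT 0
 (.lp .none [6, 8, 8, 6, 18, 6, 6] [] [-3, -3, -4, -4, -4, -4, -3, -3, -9, -9, -3, -3, -3, -3] 24 5
  [[(1, 6), (12, 6)], [(0, 6), (2, 7), (3, 7), (5, 7)], [(0, 7), (2, 8), (3, 8), (5, 8)], [(0, 7),
      (2, 8), (3, 8), (5, 8)], [(0, 7), (2, 8), (3, 8), (5, 8)], [(4, 8), (7, 7), (8, 13), (11,
      7)], [(4, 7), (7, 6), (8, 12), (11, 6)], [(6, 6), (9, 12), (10, 6), (13, 6)], [(6, 12), (9,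
      18), (10, 12), (13, 12)], [(4, 13), (7, 12), (8, 18), (11, 12)], [(4, 7), (7, 6), (8, 12),
      (11, 6)], [(6, 6), (9, 12), (10, 6), (13, 6)], [(6, 6), (9, 12), (10, 6), (13, 6)], [(1, 6),
      (12, 6)]]
  [[2, 1, 0, 0, 0, 0, 0]]
  (.cons (.lp .none [8, 8, 6, 6, 18, 6, 6] [] [-4, -4, -4, -4, -3, -3, -3, -3, -9, -9, -3, -3, -3,
      -3] 24 5
   [[(1, 8), (12, 7)], [(0, 8), (2, 8), (3, 8), (5, 7)], [(0, 8), (2, 8), (3, 8), (5, 7)], [(0, 8),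
      (2, 8), (3, 8), (5, 7)], [(0, 7), (2, 7), (3, 7), (5, 6)], [(4, 6), (7, 6), (8, 12), (11,
      6)], [(4, 6), (7, 6), (8, 12), (11, 6)], [(6, 6), (9, 12), (10, 6), (13, 6)], [(6, 12), (9,
      18), (10, 12), (13, 12)], [(4, 12), (7, 12), (8, 18), (11, 12)], [(4, 6), (7, 6), (8, 12),
      (11, 6)], [(6, 6), (9, 12), (10, 6), (13, 6)], [(6, 6), (9, 12), (10, 6), (13, 6)], [(1, 7),
      (12, 6)]]
   [[0, 1, 2, 0, 0, 0, 0]]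
   (.cons (.splitU 6
    (.leafM 0 [3, 6, 0, 1, 2] [(2, [-1, -1, 0, -2, 2])])
    (.lp .none [6, 8, 8, 6, 18, 6, 6] [] [-3, -3, -4, -4, -4, -4, -3, -3, -9, -9, -3, -3, -3, -3]
      24 5
     [[(12, 6)], [(0, 6), (2, 7), (3, 7), (5, 7)], [(0, 7), (2, 8), (3, 8), (5, 8)], [(0, 7), (2,
      8), (3, 8), (5, 8)], [(0, 7), (2, 8), (3, 8), (5, 8)], [(4, 8), (7, 7), (8, 13), (11, 7)],
      [(4, 7), (7, 6), (8, 12), (11, 6)], [(6, 6), (9, 12), (10, 6), (13, 6)], [(6, 12), (9, 18),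
      (10, 12), (13, 12)], [(4, 13), (7, 12), (8, 18), (11, 12)], [(4, 7), (7, 6), (8, 12), (11,
      6)], [(6, 6), (9, 12), (10, 6), (13, 6)], [(6, 6), (9, 12), (10, 6), (13, 6)], [(1, 6)]]
     []
     .nil))
   .nil))
  .nil))
 (.lp .none [6, 8, 6, 6, 18, 6, 6] [] [-3, -3, -4, -4, -3, -3, -3, -3, -9, -9, -3, -3, -3, -3] 24 5
  [[(1, 6), (12, 6)], [(5, 6)], [(2, 8)], [(3, 8)], [(0, 6)], [(4, 6), (7, 6), (8, 12), (11, 6)],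
      [(4, 6), (7, 6), (8, 12), (11, 6)], [(6, 6), (9, 12), (10, 6), (13, 6)], [(6, 12), (9, 18),
      (10, 12), (13, 12)], [(4, 12), (7, 12), (8, 18), (11, 12)], [(4, 6), (7, 6), (8, 12), (11,
      6)], [(6, 6), (9, 12), (10, 6), (13, 6)], [(6, 6), (9, 12), (10, 6), (13, 6)], [(1, 6), (12,
      6)]]
  []
  .nil)
 (.lp .none [2, 2, 2, 2, 6, 2, 2] [] [-1, -1, -1, -1, -1, -1, -1, -1, -3, -3, -1, -1, -1, -1] 8 5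
  [[(1, 2), (12, 2)], [(2, 2)], [(5, 2)], [(0, 2)], [(3, 2)], [(4, 2), (7, 2), (8, 4), (11, 2)],
      [(4, 2), (7, 2), (8, 4), (11, 2)], [(6, 2), (9, 4), (10, 2), (13, 2)], [(6, 4), (9, 6), (10,
      4), (13, 4)], [(4, 4), (7, 4), (8, 6), (11, 4)], [(4, 2), (7, 2), (8, 4), (11, 2)], [(6, 2),
      (9, 4), (10, 2), (13, 2)], [(6, 2), (9, 4), (10, 2), (13, 2)], [(1, 2), (12, 2)]]
  []
  .nil)

/-- classes `0 0 1 2 1 2 3`, active pairs `3-5` -/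
def trS7_3 : Tr2 :=
  .splitT 0
 (.lp .none [8, 8, 8, 16, 6, 6, 6] [(4, 9, 2), (8, 5, 2)] [-4, -4, -4, -4, -5, -3, -8, -8, -3, -3,
      -3, -3, -3, -3] 24 5
  [[(1, 8), (12, 7)], [(0, 8), (2, 8), (3, 8), (5, 7)], [(0, 8), (2, 8), (3, 8), (5, 7)], [(0, 8),
      (2, 8), (3, 8), (5, 7)], [(0, 7), (2, 7), (3, 7), (5, 6)], [(4, 10), (7, 13), (8, 6), (11,
      8)], [(4, 13), (7, 16), (8, 11), (11, 13)], [(6, 16), (9, 11), (10, 11), (13, 11)], [(6, 11),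
      (9, 6), (10, 6), (13, 6)], [(4, 6), (7, 11), (8, 6), (11, 6)], [(4, 8), (7, 13), (8, 6), (11,
      6)], [(6, 11), (9, 6), (10, 6), (13, 6)], [(6, 11), (9, 6), (10, 6), (13, 6)], [(1, 7), (12,
      6)]]
  []
  .nil)
 (.lp .none [6, 8, 6, 6, 6, 18, 6] [] [-3, -3, -4, -4, -3, -3, -3, -3, -3, -3, -9, -9, -3, -3] 24 5
  [[(1, 6), (12, 6)], [(5, 6)], [(2, 8)], [(3, 8)], [(0, 6)], [(4, 6), (7, 6), (8, 6), (11, 12)],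
      [(4, 6), (7, 6), (8, 6), (11, 12)], [(6, 6), (9, 6), (10, 12), (13, 6)], [(6, 6), (9, 6),
      (10, 12), (13, 6)], [(4, 6), (7, 6), (8, 6), (11, 12)], [(4, 12), (7, 12), (8, 12), (11,
      18)], [(6, 12), (9, 12), (10, 18), (13, 12)], [(6, 6), (9, 6), (10, 12), (13, 6)], [(1, 6),
      (12, 6)]]
  []
  .nil)
 (.lp .none [2, 2, 2, 2, 2, 6, 2] [] [-1, -1, -1, -1, -1, -1, -1, -1, -1, -1, -3, -3, -1, -1] 8 5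
  [[(1, 2), (12, 2)], [(2, 2)], [(5, 2)], [(0, 2)], [(3, 2)], [(4, 2), (7, 2), (8, 2), (11, 4)],
      [(4, 2), (7, 2), (8, 2), (11, 4)], [(6, 2), (9, 2), (10, 4), (13, 2)], [(6, 2), (9, 2), (10,
      4), (13, 2)], [(4, 2), (7, 2), (8, 2), (11, 4)], [(4, 4), (7, 4), (8, 4), (11, 6)], [(6, 4),
      (9, 4), (10, 6), (13, 4)], [(6, 2), (9, 2), (10, 4), (13, 2)], [(1, 2), (12, 2)]]
  []
  .nil)

/-- classes `0 0 1 2 1 2 3`, active pairs `3-5 4-5` -/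
def trS7_4 : Tr2 :=
  .splitT 0
 (.lp .none [6, 8, 8, 6, 6, 18, 6] [] [-3, -3, -4, -4, -4, -4, -3, -3, -3, -3, -9, -9, -3, -3] 24 5
  [[(1, 6), (12, 6)], [(0, 6), (2, 7), (3, 7), (5, 7)], [(0, 7), (2, 8), (3, 8), (5, 8)], [(0, 7),
      (2, 8), (3, 8), (5, 8)], [(0, 7), (2, 8), (3, 8), (5, 8)], [(4, 8), (7, 7), (8, 7), (11,
      13)], [(4, 7), (7, 6), (8, 6), (11, 12)], [(6, 6), (9, 6), (10, 12), (13, 6)], [(6, 6), (9,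
      6), (10, 12), (13, 6)], [(4, 7), (7, 6), (8, 6), (11, 12)], [(4, 13), (7, 12), (8, 12), (11,
      18)], [(6, 12), (9, 12), (10, 18), (13, 12)], [(6, 6), (9, 6), (10, 12), (13, 6)], [(1, 6),
      (12, 6)]]
  [[2, 1, 0, 0, 0, 0, 0]]
  (.cons (.lp .none [8, 8, 6, 6, 6, 18, 6] [] [-4, -4, -4, -4, -3, -3, -3, -3, -3, -3, -9, -9, -3,
      -3] 24 5
   [[(1, 8), (12, 7)], [(0, 8), (2, 8), (3, 8), (5, 7)], [(0, 8), (2, 8), (3, 8), (5, 7)], [(0, 8),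
      (2, 8), (3, 8), (5, 7)], [(0, 7), (2, 7), (3, 7), (5, 6)], [(4, 6), (7, 6), (8, 6), (11,
      12)], [(4, 6), (7, 6), (8, 6), (11, 12)], [(6, 6), (9, 6), (10, 12), (13, 6)], [(6, 6), (9,
      6), (10, 12), (13, 6)], [(4, 6), (7, 6), (8, 6), (11, 12)], [(4, 12), (7, 12), (8, 12), (11,
      18)], [(6, 12), (9, 12), (10, 18), (13, 12)], [(6, 6), (9, 6), (10, 12), (13, 6)], [(1, 7),
      (12, 6)]]
   [[0, 1, 2, 0, 0, 0, 0]]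
   (.cons (.splitU 6
    (.leafM 0 [3, 6, 0, 1, 2] [(2, [-1, -1, 0, -2, 2])])
    (.lp .none [6, 8, 8, 6, 6, 18, 6] [] [-3, -3, -4, -4, -4, -4, -3, -3, -3, -3, -9, -9, -3, -3]
      24 5
     [[(12, 6)], [(0, 6), (2, 7), (3, 7), (5, 7)], [(0, 7), (2, 8), (3, 8), (5, 8)], [(0, 7), (2,
      8), (3, 8), (5, 8)], [(0, 7), (2, 8), (3, 8), (5, 8)], [(4, 8), (7, 7), (8, 7), (11, 13)],
      [(4, 7), (7, 6), (8, 6), (11, 12)], [(6, 6), (9, 6), (10, 12), (13, 6)], [(6, 6), (9, 6),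
      (10, 12), (13, 6)], [(4, 7), (7, 6), (8, 6), (11, 12)], [(4, 13), (7, 12), (8, 12), (11,
      18)], [(6, 12), (9, 12), (10, 18), (13, 12)], [(6, 6), (9, 6), (10, 12), (13, 6)], [(1, 6)]]
     []
     .nil))
   .nil))
  .nil))
 (.lp .none [6, 8, 6, 6, 6, 18, 6] [] [-3, -3, -4, -4, -3, -3, -3, -3, -3, -3, -9, -9, -3, -3] 24 5
  [[(1, 6), (12, 6)], [(5, 6)], [(2, 8)], [(3, 8)], [(0, 6)], [(4, 6), (7, 6), (8, 6), (11, 12)],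
      [(4, 6), (7, 6), (8, 6), (11, 12)], [(6, 6), (9, 6), (10, 12), (13, 6)], [(6, 6), (9, 6),
      (10, 12), (13, 6)], [(4, 6), (7, 6), (8, 6), (11, 12)], [(4, 12), (7, 12), (8, 12), (11,
      18)], [(6, 12), (9, 12), (10, 18), (13, 12)], [(6, 6), (9, 6), (10, 12), (13, 6)], [(1, 6),
      (12, 6)]]
  []
  .nil)
 (.lp .none [2, 2, 2, 2, 2, 6, 2] [] [-1, -1, -1, -1, -1, -1, -1, -1, -1, -1, -3, -3, -1, -1] 8 5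
  [[(1, 2), (12, 2)], [(2, 2)], [(5, 2)], [(0, 2)], [(3, 2)], [(4, 2), (7, 2), (8, 2), (11, 4)],
      [(4, 2), (7, 2), (8, 2), (11, 4)], [(6, 2), (9, 2), (10, 4), (13, 2)], [(6, 2), (9, 2), (10,
      4), (13, 2)], [(4, 2), (7, 2), (8, 2), (11, 4)], [(4, 4), (7, 4), (8, 4), (11, 6)], [(6, 4),
      (9, 4), (10, 6), (13, 4)], [(6, 2), (9, 2), (10, 4), (13, 2)], [(1, 2), (12, 2)]]
  []
  .nil)

/-- classes `0 0 1 2 1 2 3`, active pairs `4-5` -/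
def trS7_5 : Tr2 :=
  .splitT 0
 (.lp .none [6, 8, 8, 6, 18, 6, 6] [] [-3, -3, -4, -4, -4, -4, -3, -3, -9, -9, -3, -3, -3, -3] 24 5
  [[(1, 6), (12, 6)], [(0, 6), (2, 7), (3, 7), (5, 7)], [(0, 7), (2, 8), (3, 8), (5, 8)], [(0, 7),
      (2, 8), (3, 8), (5, 8)], [(0, 7), (2, 8), (3, 8), (5, 8)], [(4, 8), (7, 7), (8, 13), (11,
      7)], [(4, 7), (7, 6), (8, 12), (11, 6)], [(6, 6), (9, 12), (10, 6), (13, 6)], [(6, 12), (9,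
      18), (10, 12), (13, 12)], [(4, 13), (7, 12), (8, 18), (11, 12)], [(4, 7), (7, 6), (8, 12),
      (11, 6)], [(6, 6), (9, 12), (10, 6), (13, 6)], [(6, 6), (9, 12), (10, 6), (13, 6)], [(1, 6),
      (12, 6)]]
  [[2, 1, 0, 0, 0, 0, 0]]
  (.cons (.lp .none [8, 8, 6, 6, 18, 6, 6] [] [-4, -4, -4, -4, -3, -3, -3, -3, -9, -9, -3, -3, -3,
      -3] 24 5
   [[(1, 8), (12, 7)], [(0, 8), (2, 8), (3, 8), (5, 7)], [(0, 8), (2, 8), (3, 8), (5, 7)], [(0, 8),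
      (2, 8), (3, 8), (5, 7)], [(0, 7), (2, 7), (3, 7), (5, 6)], [(4, 6), (7, 6), (8, 12), (11,
      6)], [(4, 6), (7, 6), (8, 12), (11, 6)], [(6, 6), (9, 12), (10, 6), (13, 6)], [(6, 12), (9,
      18), (10, 12), (13, 12)], [(4, 12), (7, 12), (8, 18), (11, 12)], [(4, 6), (7, 6), (8, 12),
      (11, 6)], [(6, 6), (9, 12), (10, 6), (13, 6)], [(6, 6), (9, 12), (10, 6), (13, 6)], [(1, 7),
      (12, 6)]]
   [[0, 1, 2, 0, 0, 0, 0]]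
   (.cons (.splitU 6
    (.leafM 0 [3, 6, 0, 1, 2] [(2, [-1, -1, -2, 2])])
    (.lp .none [6, 8, 8, 6, 6, 18, 6] [] [-3, -3, -4, -4, -4, -4, -3, -3, -3, -3, -9, -9, -3, -3]
      24 5
     [[(12, 6)], [(0, 6), (2, 7), (3, 7), (5, 7)], [(0, 7), (2, 8), (3, 8), (5, 8)], [(0, 7), (2,
      8), (3, 8), (5, 8)], [(0, 7), (2, 8), (3, 8), (5, 8)], [(4, 8), (7, 7), (8, 7), (11, 13)],
      [(4, 7), (7, 6), (8, 6), (11, 12)], [(6, 6), (9, 6), (10, 12), (13, 6)], [(6, 6), (9, 6),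
      (10, 12), (13, 6)], [(4, 7), (7, 6), (8, 6), (11, 12)], [(4, 13), (7, 12), (8, 12), (11,
      18)], [(6, 12), (9, 12), (10, 18), (13, 12)], [(6, 6), (9, 6), (10, 12), (13, 6)], [(1, 6)]]
     []
     .nil))
   .nil))
  .nil))
 (.lp .none [6, 8, 6, 6, 6, 18, 6] [] [-3, -3, -4, -4, -3, -3, -3, -3, -3, -3, -9, -9, -3, -3] 24 5
  [[(1, 6), (12, 6)], [(5, 6)], [(2, 8)], [(3, 8)], [(0, 6)], [(4, 6), (7, 6), (8, 6), (11, 12)],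
      [(4, 6), (7, 6), (8, 6), (11, 12)], [(6, 6), (9, 6), (10, 12), (13, 6)], [(6, 6), (9, 6),
      (10, 12), (13, 6)], [(4, 6), (7, 6), (8, 6), (11, 12)], [(4, 12), (7, 12), (8, 12), (11,
      18)], [(6, 12), (9, 12), (10, 18), (13, 12)], [(6, 6), (9, 6), (10, 12), (13, 6)], [(1, 6),
      (12, 6)]]
  []
  .nil)
 (.lp .none [2, 2, 2, 2, 2, 6, 2] [] [-1, -1, -1, -1, -1, -1, -1, -1, -1, -1, -3, -3, -1, -1] 8 5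
  [[(1, 2), (12, 2)], [(2, 2)], [(5, 2)], [(0, 2)], [(3, 2)], [(4, 2), (7, 2), (8, 2), (11, 4)],
      [(4, 2), (7, 2), (8, 2), (11, 4)], [(6, 2), (9, 2), (10, 4), (13, 2)], [(6, 2), (9, 2), (10,
      4), (13, 2)], [(4, 2), (7, 2), (8, 2), (11, 4)], [(4, 4), (7, 4), (8, 4), (11, 6)], [(6, 4),
      (9, 4), (10, 6), (13, 4)], [(6, 2), (9, 2), (10, 4), (13, 2)], [(1, 2), (12, 2)]]
  []
  .nil)

/-- classes `0 0 1 2 1 3 2`, active pairs `3-4` -/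
def trS7_6 : Tr2 :=
  .splitT 0
 (.lp .none [8, 8, 6, 12, 12, 6, 6] [(4, 5, -4)] [-4, -4, -4, -4, -3, -3, -6, -6, -6, -6, -3, -3,
      -3, -3] 24 5
  [[(1, 8), (6, 10), (9, 10), (12, 7)], [(0, 8), (2, 8), (3, 8), (5, 7)], [(0, 8), (2, 8), (3, 8),
      (5, 7)], [(0, 8), (2, 8), (3, 8), (5, 7)], [(0, 7), (2, 7), (3, 7), (5, 6)], [(4, 10), (7,
      9), (8, 9), (11, 6)], [(4, 9), (7, 8), (8, 12), (11, 9)], [(1, 10), (6, 12), (9, 12), (12,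
      9)], [(1, 10), (6, 12), (9, 12), (12, 9)], [(4, 9), (7, 12), (8, 12), (11, 9)], [(4, 6), (7,
      9), (8, 9), (11, 6)], [(10, 6), (13, 6)], [(10, 6), (13, 6)], [(1, 7), (6, 9), (9, 9), (12,
      6)]]
  []
  .nil)
 (.lp .none [6, 8, 6, 12, 12, 6, 6] [] [-3, -3, -4, -4, -3, -3, -6, -6, -6, -6, -3, -3, -3, -3] 24 5
  [[(1, 6), (6, 9), (9, 9), (12, 6)], [(5, 6)], [(2, 8)], [(3, 8)], [(0, 6)], [(4, 6), (7, 9), (8,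
      9), (11, 6)], [(4, 9), (7, 12), (8, 12), (11, 9)], [(1, 9), (6, 12), (9, 12), (12, 9)], [(1,
      9), (6, 12), (9, 12), (12, 9)], [(4, 9), (7, 12), (8, 12), (11, 9)], [(4, 6), (7, 9), (8, 9),
      (11, 6)], [(10, 6), (13, 6)], [(10, 6), (13, 6)], [(1, 6), (6, 9), (9, 9), (12, 6)]]
  []
  .nil)
 (.lp .none [2, 2, 2, 4, 4, 2, 2] [] [-1, -1, -1, -1, -1, -1, -2, -2, -2, -2, -1, -1, -1, -1] 8 5
  [[(1, 2), (6, 3), (9, 3), (12, 2)], [(2, 2)], [(5, 2)], [(0, 2)], [(3, 2)], [(4, 2), (7, 3), (8,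
      3), (11, 2)], [(4, 3), (7, 4), (8, 4), (11, 3)], [(1, 3), (6, 4), (9, 4), (12, 3)], [(1, 3),
      (6, 4), (9, 4), (12, 3)], [(4, 3), (7, 4), (8, 4), (11, 3)], [(4, 2), (7, 3), (8, 3), (11,
      2)], [(10, 2), (13, 2)], [(10, 2), (13, 2)], [(1, 2), (6, 3), (9, 3), (12, 2)]]
  []
  .nil)

/-- classes `0 0 1 2 2 1 3`, active pairs `3-5` -/
def trS7_7 : Tr2 :=
  .splitT 0
 (.lp .none [38, 40, 42, 68, 40, 40, 30] [(4, 10, 12), (11, 5, 12), (0, 3, -4), (2, 1, -4)] [-19,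
      -19, -20, -20, -27, -15, -34, -34, -20, -20, -20, -20, -15, -15] 120 5
  [[(1, 38), (12, 34)], [(0, 38), (2, 43), (3, 39), (5, 34)], [(0, 39), (2, 40), (3, 40), (5, 31)],
      [(0, 43), (2, 40), (3, 40), (5, 35)], [(0, 34), (2, 35), (3, 31), (5, 30)], [(4, 54), (7,
      61), (10, 47), (13, 30)], [(4, 61), (7, 68), (10, 66), (13, 49)], [(6, 68), (8, 54), (9, 54),
      (11, 54)], [(6, 54), (8, 40), (9, 40), (11, 40)], [(6, 54), (8, 40), (9, 40), (11, 40)], [(6,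
      54), (8, 40), (9, 40), (11, 40)], [(4, 47), (7, 66), (10, 40), (13, 35)], [(4, 30), (7, 49),
      (10, 35), (13, 30)], [(1, 34), (12, 30)]]
  [[1, 0, 1, 0, 0, 0, 1]]
  (.cons (.lp (.imp 3) [6, 4, 6, 10, 4, 6, 4] [] [-3, -3, -2, -2, -3, -3, -5, -5, -2, -2, -3, -3,
      -2, -2] 16 6
   [[(1, 6), (12, 5)], [(0, 6), (2, 5), (3, 5), (5, 6)], [(0, 5), (2, 4), (3, 4), (5, 5)], [(0, 5),
      (2, 4), (3, 4), (5, 5)], [(0, 6), (2, 5), (3, 5), (5, 6)], [(4, 6), (7, 8), (10, 6), (13,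
      5)], [(4, 8), (7, 10), (10, 8), (13, 7)], [(6, 10), (8, 7), (9, 7), (11, 8)], [(6, 7), (8,
      4), (9, 4), (11, 5)], [(6, 7), (8, 4), (9, 4), (11, 5)], [(6, 8), (8, 5), (9, 5), (11, 6)],
      [(4, 6), (7, 8), (10, 6), (13, 5)], [(4, 5), (7, 7), (10, 5), (13, 4)], [(1, 5), (12, 4)]]
   [[0, 3, 0, 0, 0, 0, 0], [0, 0, 0, 0, 3, 0, 0]]
   (.cons (.leafM 4 [0, 1, 2, 4, 6] [(1, [1, 0, 0, 0]), (1, [-1, -3, -3, 3])])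
   (.cons (.leafM 6 [0, 1, 2, 4, 6] [(1, [-1, -3, -3, 3]), (1, [1, 0, 0, 0])])
   .nil)))
  .nil))
 (.lp .none [6, 8, 6, 8, 8, 16, 6] [] [-3, -3, -4, -4, -3, -3, -4, -4, -4, -4, -8, -8, -3, -3] 24 5
  [[(1, 6), (12, 6)], [(5, 6)], [(2, 8)], [(3, 8)], [(0, 6)], [(4, 6), (7, 7), (10, 11), (13, 6)],
      [(4, 7), (7, 8), (10, 12), (13, 7)], [(6, 8), (8, 8), (9, 8), (11, 12)], [(6, 8), (8, 8), (9,
      8), (11, 12)], [(6, 8), (8, 8), (9, 8), (11, 12)], [(6, 12), (8, 12), (9, 12), (11, 16)],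
      [(4, 11), (7, 12), (10, 16), (13, 11)], [(4, 6), (7, 7), (10, 11), (13, 6)], [(1, 6), (12,
      6)]]
  [[1, 0, 1, 0, 0, 0, 1]]
  (.cons (.lp (.imp 3) [64, 60, 56, 110, 60, 130, 120] [] [-32, -32, -30, -30, -28, -28, -55, -55,
      -30, -30, -65, -65, -60, -60] 240 6
   [[(1, 64), (12, 92)], [(5, 60)], [(2, 60)], [(3, 60)], [(0, 60)], [(4, 56), (7, 83), (10, 93),
      (13, 88)], [(4, 83), (7, 110), (10, 120), (13, 115)], [(6, 110), (8, 85), (9, 85), (11,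
      120)], [(6, 85), (8, 60), (9, 60), (11, 95)], [(6, 85), (8, 60), (9, 60), (11, 95)], [(6,
      120), (8, 95), (9, 95), (11, 130)], [(4, 93), (7, 120), (10, 130), (13, 125)], [(4, 88), (7,
      115), (10, 125), (13, 120)], [(1, 92), (12, 120)]]
   [[0, 3, 0, 0, 0, 0, 0], [0, 0, 0, 0, 3, 0, 0]]
   (.cons (.leafM 4 [0, 1, 2, 4, 6] [(1, [1, 0, 0, 0]), (1, [-1, -3, -3, 3])])
   (.cons (.leafM 6 [0, 1, 2, 4, 6] [(1, [-1, -3, -3, 3]), (1, [1, 0, 0, 0])])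
   .nil)))
  .nil))
 (.lp .none [6, 6, 6, 8, 8, 16, 6] [] [-3, -3, -3, -3, -3, -3, -4, -4, -4, -4, -8, -8, -3, -3] 24 5
  [[(1, 6), (12, 6)], [(2, 6)], [(5, 6)], [(0, 6)], [(3, 6)], [(4, 6), (7, 7), (10, 11), (13, 6)],
      [(4, 7), (7, 8), (10, 12), (13, 7)], [(6, 8), (8, 8), (9, 8), (11, 12)], [(6, 8), (8, 8), (9,
      8), (11, 12)], [(6, 8), (8, 8), (9, 8), (11, 12)], [(6, 12), (8, 12), (9, 12), (11, 16)],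
      [(4, 11), (7, 12), (10, 16), (13, 11)], [(4, 6), (7, 7), (10, 11), (13, 6)], [(1, 6), (12,
      6)]]
  []
  .nil)

/-- classes `0 0 1 2 2 3 1`, active pairs `0-2` -/
def trS7_8 : Tr2 :=
  .splitT 3
 (.lp .none [68, 40, 40, 42, 40, 38, 30] [(4, 12, -12), (13, 5, -12), (6, 9, 4), (8, 7, 4)] [-34,
      -34, -20, -20, -20, -20, -15, -27, -20, -20, -19, -19, -15, -15] 120 5
  [[(1, 68), (4, 66), (7, 61), (12, 49)], [(0, 68), (2, 54), (3, 54), (5, 54)], [(0, 54), (2, 40),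
      (3, 40), (5, 40)], [(0, 54), (2, 40), (3, 40), (5, 40)], [(0, 54), (2, 40), (3, 40), (5,
      40)], [(1, 66), (4, 40), (7, 47), (12, 35)], [(1, 61), (4, 47), (7, 54), (12, 30)], [(6, 30),
      (8, 31), (9, 35), (11, 34)], [(6, 35), (8, 40), (9, 40), (11, 43)], [(6, 31), (8, 40), (9,
      40), (11, 39)], [(6, 34), (8, 39), (9, 43), (11, 38)], [(10, 38), (13, 34)], [(10, 34), (13,
      30)], [(1, 49), (4, 35), (7, 30), (12, 30)]]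
  [[0, 0, 0, 1, 0, 1, 1]]
  (.cons (.lp (.imp 0) [10, 4, 6, 6, 4, 6, 4] [] [-5, -5, -2, -2, -3, -3, -3, -3, -2, -2, -3, -3,
      -2, -2] 16 6
   [[(1, 10), (4, 8), (7, 8), (12, 7)], [(0, 10), (2, 7), (3, 7), (5, 8)], [(0, 7), (2, 4), (3, 4),
      (5, 5)], [(0, 7), (2, 4), (3, 4), (5, 5)], [(0, 8), (2, 5), (3, 5), (5, 6)], [(1, 8), (4, 6),
      (7, 6), (12, 5)], [(1, 8), (4, 6), (7, 6), (12, 5)], [(6, 6), (8, 5), (9, 5), (11, 6)], [(6,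
      5), (8, 4), (9, 4), (11, 5)], [(6, 5), (8, 4), (9, 4), (11, 5)], [(6, 6), (8, 5), (9, 5),
      (11, 6)], [(10, 6), (13, 5)], [(10, 5), (13, 4)], [(1, 7), (4, 5), (7, 5), (12, 4)]]
   [[0, 3, 0, 0, 0, 0, 0], [0, 0, 0, 0, 3, 0, 0]]
   (.cons (.leafM 4 [6, 1, 3, 4, 5] [(1, [1, 0, 0, 0]), (1, [-1, -3, -3, 3])])
   (.cons (.leafM 6 [6, 1, 3, 4, 5] [(1, [-1, -3, -3, 3]), (1, [1, 0, 0, 0])])
   .nil)))
  .nil))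
 (.lp .none [16, 8, 8, 6, 8, 6, 6] [] [-8, -8, -4, -4, -4, -4, -3, -3, -4, -4, -3, -3, -3, -3] 24 5
  [[(1, 16), (4, 12), (7, 11), (12, 11)], [(0, 16), (2, 12), (3, 12), (5, 12)], [(0, 12), (2, 8),
      (3, 8), (5, 8)], [(0, 12), (2, 8), (3, 8), (5, 8)], [(0, 12), (2, 8), (3, 8), (5, 8)], [(1,
      12), (4, 8), (7, 7), (12, 7)], [(1, 11), (4, 7), (7, 6), (12, 6)], [(11, 6)], [(8, 8)], [(9,
      8)], [(6, 6)], [(10, 6), (13, 6)], [(10, 6), (13, 6)], [(1, 11), (4, 7), (7, 6), (12, 6)]]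
  [[0, 0, 0, 1, 0, 1, 1]]
  (.cons (.lp (.imp 0) [150, 60, 90, 56, 60, 64, 120] [] [-75, -75, -30, -30, -45, -45, -28, -28,
      -30, -30, -32, -32, -60, -60] 240 6
   [[(1, 150), (4, 120), (7, 103), (12, 135)], [(0, 150), (2, 105), (3, 105), (5, 120)], [(0, 105),
      (2, 60), (3, 60), (5, 75)], [(0, 105), (2, 60), (3, 60), (5, 75)], [(0, 120), (2, 75), (3,
      75), (5, 90)], [(1, 120), (4, 90), (7, 73), (12, 105)], [(1, 103), (4, 73), (7, 56), (12,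
      88)], [(11, 60)], [(8, 60)], [(9, 60)], [(6, 60)], [(10, 64), (13, 92)], [(10, 92), (13,
      120)], [(1, 135), (4, 105), (7, 88), (12, 120)]]
   [[0, 3, 0, 0, 0, 0, 0], [0, 0, 0, 0, 3, 0, 0]]
   (.cons (.leafM 4 [6, 1, 3, 4, 5] [(1, [1, 0, 0, 0]), (1, [-1, -3, -3, 3])])
   (.cons (.leafM 6 [6, 1, 3, 4, 5] [(1, [-1, -3, -3, 3]), (1, [1, 0, 0, 0])])
   .nil)))
  .nil))
 (.lp .none [16, 8, 8, 6, 6, 6, 6] [] [-8, -8, -4, -4, -4, -4, -3, -3, -3, -3, -3, -3, -3, -3] 24 5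
  [[(1, 16), (4, 12), (7, 11), (12, 11)], [(0, 16), (2, 12), (3, 12), (5, 12)], [(0, 12), (2, 8),
      (3, 8), (5, 8)], [(0, 12), (2, 8), (3, 8), (5, 8)], [(0, 12), (2, 8), (3, 8), (5, 8)], [(1,
      12), (4, 8), (7, 7), (12, 7)], [(1, 11), (4, 7), (7, 6), (12, 6)], [(8, 6)], [(11, 6)], [(6,
      6)], [(9, 6)], [(10, 6), (13, 6)], [(10, 6), (13, 6)], [(1, 11), (4, 7), (7, 6), (12, 6)]]
  []
  .nil)

/-- classes `0 0 1 2 3 1 2`, active pairs `3-6` -/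
def trS7_9 : Tr2 :=
  .splitT 0
 (.lp .none [14, 16, 16, 24, 12, 12, 22] [(6, 12, 2), (13, 7, 2), (4, 11, 2), (10, 5, 2), (12, 13,
      4)] [-7, -7, -8, -8, -8, -8, -12, -12, -6, -6, -6, -6, -11, -11] 48 5
  [[(1, 18), (6, 17), (9, 13), (12, 18)], [(0, 14), (2, 15), (3, 15), (5, 15)], [(0, 15), (2, 16),
      (3, 16), (5, 16)], [(0, 15), (2, 16), (3, 16), (5, 16)], [(0, 15), (2, 16), (3, 16), (5,
      16)], [(4, 16), (7, 20), (10, 12), (13, 19)], [(4, 20), (7, 24), (10, 18), (13, 25)], [(1,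
      17), (6, 24), (9, 18), (12, 23)], [(1, 13), (6, 18), (9, 12), (12, 19)], [(8, 12), (11, 12)],
      [(8, 12), (11, 12)], [(4, 12), (7, 18), (10, 12), (13, 17)], [(4, 19), (7, 25), (10, 17),
      (13, 22)], [(1, 18), (6, 23), (9, 19), (12, 18)]]
  []
  .nil)
 (.lp .none [6, 8, 6, 12, 6, 6, 12] [] [-3, -3, -4, -4, -3, -3, -6, -6, -3, -3, -3, -3, -6, -6] 24 5
  [[(1, 6), (6, 9), (9, 6), (12, 9)], [(5, 6)], [(2, 8)], [(3, 8)], [(0, 6)], [(4, 6), (7, 9), (10,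
      6), (13, 9)], [(4, 9), (7, 12), (10, 9), (13, 12)], [(1, 9), (6, 12), (9, 9), (12, 12)], [(1,
      6), (6, 9), (9, 6), (12, 9)], [(8, 6), (11, 6)], [(8, 6), (11, 6)], [(4, 6), (7, 9), (10, 6),
      (13, 9)], [(4, 9), (7, 12), (10, 9), (13, 12)], [(1, 9), (6, 12), (9, 9), (12, 12)]]
  []
  .nil)
 (.lp .none [2, 2, 2, 4, 2, 2, 4] [] [-1, -1, -1, -1, -1, -1, -2, -2, -1, -1, -1, -1, -2, -2] 8 5
  [[(1, 2), (6, 3), (9, 2), (12, 3)], [(2, 2)], [(5, 2)], [(0, 2)], [(3, 2)], [(4, 2), (7, 3), (10,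
      2), (13, 3)], [(4, 3), (7, 4), (10, 3), (13, 4)], [(1, 3), (6, 4), (9, 3), (12, 4)], [(1, 2),
      (6, 3), (9, 2), (12, 3)], [(8, 2), (11, 2)], [(8, 2), (11, 2)], [(4, 2), (7, 3), (10, 2),
      (13, 3)], [(4, 3), (7, 4), (10, 3), (13, 4)], [(1, 3), (6, 4), (9, 3), (12, 4)]]
  []
  .nil)

/-- classes `0 0 1 2 3 1 3`, active pairs `5-6` -/
def trS7_10 : Tr2 :=
  .splitT 0
 (.lp .none [6, 8, 8, 6, 6, 12, 12] [(12, 13, 4)] [-3, -3, -4, -4, -4, -4, -3, -3, -3, -3, -6, -6,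
      -6, -6] 24 5
  [[(1, 10), (8, 6), (11, 9), (12, 9)], [(0, 6), (2, 7), (3, 7), (5, 7)], [(0, 7), (2, 8), (3, 8),
      (5, 8)], [(0, 7), (2, 8), (3, 8), (5, 8)], [(0, 7), (2, 8), (3, 8), (5, 8)], [(4, 8), (7, 7),
      (10, 10), (13, 10)], [(4, 7), (7, 6), (10, 9), (13, 9)], [(6, 6), (9, 6)], [(6, 6), (9, 6)],
      [(1, 6), (8, 6), (11, 9), (12, 9)], [(1, 9), (8, 9), (11, 12), (12, 12)], [(4, 10), (7, 9),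
      (10, 12), (13, 12)], [(4, 10), (7, 9), (10, 12), (13, 12)], [(1, 9), (8, 9), (11, 12), (12,
      8)]]
  []
  .nil)
 (.lp .none [6, 8, 6, 6, 6, 12, 12] [] [-3, -3, -4, -4, -3, -3, -3, -3, -3, -3, -6, -6, -6, -6] 24 5
  [[(1, 6), (8, 6), (11, 9), (12, 9)], [(5, 6)], [(2, 8)], [(3, 8)], [(0, 6)], [(4, 6), (7, 6),
      (10, 9), (13, 9)], [(4, 6), (7, 6), (10, 9), (13, 9)], [(6, 6), (9, 6)], [(6, 6), (9, 6)],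
      [(1, 6), (8, 6), (11, 9), (12, 9)], [(1, 9), (8, 9), (11, 12), (12, 12)], [(4, 9), (7, 9),
      (10, 12), (13, 12)], [(4, 9), (7, 9), (10, 12), (13, 12)], [(1, 9), (8, 9), (11, 12), (12,
      12)]]
  []
  .nil)
 (.lp .none [2, 2, 2, 2, 2, 4, 4] [] [-1, -1, -1, -1, -1, -1, -1, -1, -1, -1, -2, -2, -2, -2] 8 5
  [[(1, 2), (8, 2), (11, 3), (12, 3)], [(2, 2)], [(5, 2)], [(0, 2)], [(3, 2)], [(4, 2), (7, 2),
      (10, 3), (13, 3)], [(4, 2), (7, 2), (10, 3), (13, 3)], [(6, 2), (9, 2)], [(6, 2), (9, 2)],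
      [(1, 2), (8, 2), (11, 3), (12, 3)], [(1, 3), (8, 3), (11, 4), (12, 4)], [(4, 3), (7, 3), (10,
      4), (13, 4)], [(4, 3), (7, 3), (10, 4), (13, 4)], [(1, 3), (8, 3), (11, 4), (12, 4)]]
  []
  .nil)

/-- classes `0 0 1 2 3 2 1`, active pairs `0-2` -/
def trS7_11 : Tr2 :=
  .splitT 3
 (.lp .none [16, 8, 8, 6, 6, 6, 6] [] [-8, -8, -4, -4, -4, -4, -3, -3, -3, -3, -3, -3, -3, -3] 24 5
  [[(1, 16), (4, 12), (7, 11), (12, 11)], [(0, 16), (2, 12), (3, 12), (5, 12)], [(0, 12), (2, 8),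
      (3, 8), (5, 8)], [(0, 12), (2, 8), (3, 8), (5, 8)], [(0, 12), (2, 8), (3, 8), (5, 8)], [(1,
      12), (4, 8), (7, 7), (12, 7)], [(1, 11), (4, 7), (7, 6), (12, 6)], [(6, 6), (9, 6), (10, 6),
      (13, 6)], [(6, 6), (9, 6), (10, 6), (13, 6)], [(8, 6), (11, 6)], [(8, 6), (11, 6)], [(6, 6),
      (9, 6), (10, 6), (13, 6)], [(6, 6), (9, 6), (10, 6), (13, 6)], [(1, 11), (4, 7), (7, 6), (12,
      6)]]
  []
  .nil)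
 (.lp .none [16, 8, 8, 6, 6, 6, 6] [] [-8, -8, -4, -4, -4, -4, -3, -3, -3, -3, -3, -3, -3, -3] 24 5
  [[(1, 16), (4, 12), (7, 11), (12, 11)], [(0, 16), (2, 12), (3, 12), (5, 12)], [(0, 12), (2, 8),
      (3, 8), (5, 8)], [(0, 12), (2, 8), (3, 8), (5, 8)], [(0, 12), (2, 8), (3, 8), (5, 8)], [(1,
      12), (4, 8), (7, 7), (12, 7)], [(1, 11), (4, 7), (7, 6), (12, 6)], [(13, 6)], [(10, 6)], [(8,
      6), (11, 6)], [(8, 6), (11, 6)], [(9, 6)], [(6, 6)], [(1, 11), (4, 7), (7, 6), (12, 6)]]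
  []
  .nil)
 (.lp .none [16, 8, 8, 6, 6, 6, 6] [] [-8, -8, -4, -4, -4, -4, -3, -3, -3, -3, -3, -3, -3, -3] 24 5
  [[(1, 16), (4, 12), (7, 11), (12, 11)], [(0, 16), (2, 12), (3, 12), (5, 12)], [(0, 12), (2, 8),
      (3, 8), (5, 8)], [(0, 12), (2, 8), (3, 8), (5, 8)], [(0, 12), (2, 8), (3, 8), (5, 8)], [(1,
      12), (4, 8), (7, 7), (12, 7)], [(1, 11), (4, 7), (7, 6), (12, 6)], [(10, 6)], [(13, 6)], [(8,
      6), (11, 6)], [(8, 6), (11, 6)], [(6, 6)], [(9, 6)], [(1, 11), (4, 7), (7, 6), (12, 6)]]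
  []
  .nil)

/-- classes `0 0 1 2 3 2 1`, active pairs `3-6` -/
def trS7_12 : Tr2 :=
  .splitT 0
 (.lp .none [8, 8, 8, 6, 6, 6, 16] [(4, 12, 2), (13, 5, 2)] [-4, -4, -4, -4, -4, -4, -3, -3, -3,
      -3, -3, -3, -8, -8] 24 5
  [[(1, 8), (4, 6), (7, 7), (12, 12)], [(0, 8), (2, 8), (3, 8), (5, 8)], [(0, 8), (2, 8), (3, 8),
      (5, 8)], [(0, 8), (2, 8), (3, 8), (5, 8)], [(0, 8), (2, 8), (3, 8), (5, 8)], [(1, 6), (4, 8),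
      (7, 7), (12, 12)], [(1, 7), (4, 7), (7, 6), (12, 13)], [(6, 6), (9, 6), (10, 6), (13, 11)],
      [(6, 6), (9, 6), (10, 6), (13, 11)], [(8, 6), (11, 6)], [(8, 6), (11, 6)], [(6, 6), (9, 6),
      (10, 6), (13, 11)], [(6, 11), (9, 11), (10, 11), (13, 16)], [(1, 12), (4, 12), (7, 13), (12,
      16)]]
  [[1, 1, 1, 0, 0, 0, 0]]
  (.cons (.leafM 1 [2, 4, 5, 0, 1] [(1, [-1, -1, 1])])
  .nil))
 (.lp .none [6, 8, 6, 6, 6, 6, 18] [] [-3, -3, -4, -4, -3, -3, -3, -3, -3, -3, -3, -3, -9, -9] 24 5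
  [[(1, 6), (4, 6), (7, 6), (12, 12)], [(5, 6)], [(2, 8)], [(3, 8)], [(0, 6)], [(1, 6), (4, 6), (7,
      6), (12, 12)], [(1, 6), (4, 6), (7, 6), (12, 12)], [(6, 6), (9, 6), (10, 6), (13, 12)], [(6,
      6), (9, 6), (10, 6), (13, 12)], [(8, 6), (11, 6)], [(8, 6), (11, 6)], [(6, 6), (9, 6), (10,
      6), (13, 12)], [(6, 12), (9, 12), (10, 12), (13, 18)], [(1, 12), (4, 12), (7, 12), (12, 18)]]
  []
  .nil)
 (.lp .none [2, 2, 2, 2, 2, 2, 6] [] [-1, -1, -1, -1, -1, -1, -1, -1, -1, -1, -1, -1, -3, -3] 8 5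
  [[(1, 2), (4, 2), (7, 2), (12, 4)], [(2, 2)], [(5, 2)], [(0, 2)], [(3, 2)], [(1, 2), (4, 2), (7,
      2), (12, 4)], [(1, 2), (4, 2), (7, 2), (12, 4)], [(6, 2), (9, 2), (10, 2), (13, 4)], [(6, 2),
      (9, 2), (10, 2), (13, 4)], [(8, 2), (11, 2)], [(8, 2), (11, 2)], [(6, 2), (9, 2), (10, 2),
      (13, 4)], [(6, 4), (9, 4), (10, 4), (13, 6)], [(1, 4), (4, 4), (7, 4), (12, 6)]]
  [[1, 1, 1, 0, 0, 0, 0]]
  (.cons (.leafM 3 [0, 1, 2, 4, 5] [(1, [-1, -1, 1])])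
  .nil))

/-- classes `0 0 1 2 3 2 3`, active pairs `4-5` -/
def trS7_13 : Tr2 :=
  .splitT 0
 (.lp .none [6, 8, 8, 6, 18, 6, 6] [] [-3, -3, -4, -4, -4, -4, -3, -3, -9, -9, -3, -3, -3, -3] 24 5
  [[(1, 6), (8, 12), (11, 6), (12, 6)], [(0, 6), (2, 7), (3, 7), (5, 7)], [(0, 7), (2, 8), (3, 8),
      (5, 8)], [(0, 7), (2, 8), (3, 8), (5, 8)], [(0, 7), (2, 8), (3, 8), (5, 8)], [(4, 8), (7,
      7)], [(4, 7), (7, 6)], [(6, 6), (9, 12), (10, 6), (13, 6)], [(6, 12), (9, 18), (10, 12), (13,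
      12)], [(1, 12), (8, 18), (11, 12), (12, 12)], [(1, 6), (8, 12), (11, 6), (12, 6)], [(6, 6),
      (9, 12), (10, 6), (13, 6)], [(6, 6), (9, 12), (10, 6), (13, 6)], [(1, 6), (8, 12), (11, 6),
      (12, 6)]]
  [[2, 1, 0, 0, 0, 0, 0]]
  (.cons (.lp .none [8, 8, 6, 6, 18, 6, 6] [] [-4, -4, -4, -4, -3, -3, -3, -3, -9, -9, -3, -3, -3,
      -3] 24 5
   [[(1, 8), (8, 13), (11, 7), (12, 7)], [(0, 8), (2, 8), (3, 8), (5, 7)], [(0, 8), (2, 8), (3, 8),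
      (5, 7)], [(0, 8), (2, 8), (3, 8), (5, 7)], [(0, 7), (2, 7), (3, 7), (5, 6)], [(4, 6), (7,
      6)], [(4, 6), (7, 6)], [(6, 6), (9, 12), (10, 6), (13, 6)], [(6, 12), (9, 18), (10, 12), (13,
      12)], [(1, 13), (8, 18), (11, 12), (12, 12)], [(1, 7), (8, 12), (11, 6), (12, 6)], [(6, 6),
      (9, 12), (10, 6), (13, 6)], [(6, 6), (9, 12), (10, 6), (13, 6)], [(1, 7), (8, 12), (11, 6),
      (12, 6)]]
   [[0, 1, 2, 0, 0, 0, 0]]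
   (.cons (.splitU 2
    (.leafM 0 [3, 6, 0, 1, 2] [(2, [-1, -1, -2, 2])])
    (.lp .none [8, 8, 6, 6, 6, 18, 6] [] [-4, -4, -4, -4, -3, -3, -3, -3, -3, -3, -9, -9, -3, -3]
      24 5
     [[(1, 8), (8, 7), (11, 13), (12, 7)], [(0, 8), (2, 8), (3, 8), (5, 7)], [(0, 8), (2, 8), (3,
      8), (5, 7)], [(0, 8), (2, 8), (3, 8), (5, 7)], [(0, 7), (2, 7), (3, 7), (5, 6)], [(7, 6)],
      [(4, 6)], [(6, 6), (9, 6), (10, 12), (13, 6)], [(6, 6), (9, 6), (10, 12), (13, 6)], [(1, 7),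
      (8, 6), (11, 12), (12, 6)], [(1, 13), (8, 12), (11, 18), (12, 12)], [(6, 12), (9, 12), (10,
      18), (13, 12)], [(6, 6), (9, 6), (10, 12), (13, 6)], [(1, 7), (8, 6), (11, 12), (12, 6)]]
     []
     .nil))
   .nil))
  .nil))
 (.lp .none [6, 8, 6, 6, 6, 18, 6] [] [-3, -3, -4, -4, -3, -3, -3, -3, -3, -3, -9, -9, -3, -3] 24 5
  [[(1, 6), (8, 6), (11, 12), (12, 6)], [(5, 6)], [(2, 8)], [(3, 8)], [(0, 6)], [(4, 6), (7, 6)],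
      [(4, 6), (7, 6)], [(6, 6), (9, 6), (10, 12), (13, 6)], [(6, 6), (9, 6), (10, 12), (13, 6)],
      [(1, 6), (8, 6), (11, 12), (12, 6)], [(1, 12), (8, 12), (11, 18), (12, 12)], [(6, 12), (9,
      12), (10, 18), (13, 12)], [(6, 6), (9, 6), (10, 12), (13, 6)], [(1, 6), (8, 6), (11, 12),
      (12, 6)]]
  []
  .nil)
 (.lp .none [2, 2, 2, 2, 2, 6, 2] [] [-1, -1, -1, -1, -1, -1, -1, -1, -1, -1, -3, -3, -1, -1] 8 5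
  [[(1, 2), (8, 2), (11, 4), (12, 2)], [(2, 2)], [(5, 2)], [(0, 2)], [(3, 2)], [(4, 2), (7, 2)],
      [(4, 2), (7, 2)], [(6, 2), (9, 2), (10, 4), (13, 2)], [(6, 2), (9, 2), (10, 4), (13, 2)],
      [(1, 2), (8, 2), (11, 4), (12, 2)], [(1, 4), (8, 4), (11, 6), (12, 4)], [(6, 4), (9, 4), (10,
      6), (13, 4)], [(6, 2), (9, 2), (10, 4), (13, 2)], [(1, 2), (8, 2), (11, 4), (12, 2)]]
  []
  .nil)

/-- classes `0 0 1 2 3 2 3`, active pairs `4-5 4-6` -/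
def trS7_14 : Tr2 :=
  .splitT 0
 (.lp .none [6, 8, 8, 6, 18, 6, 6] [] [-3, -3, -4, -4, -4, -4, -3, -3, -9, -9, -3, -3, -3, -3] 24 5
  [[(1, 6), (8, 12), (11, 6), (12, 6)], [(0, 6), (2, 7), (3, 7), (5, 7)], [(0, 7), (2, 8), (3, 8),
      (5, 8)], [(0, 7), (2, 8), (3, 8), (5, 8)], [(0, 7), (2, 8), (3, 8), (5, 8)], [(4, 8), (7,
      7)], [(4, 7), (7, 6)], [(6, 6), (9, 12), (10, 6), (13, 6)], [(6, 12), (9, 18), (10, 12), (13,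
      12)], [(1, 12), (8, 18), (11, 12), (12, 12)], [(1, 6), (8, 12), (11, 6), (12, 6)], [(6, 6),
      (9, 12), (10, 6), (13, 6)], [(6, 6), (9, 12), (10, 6), (13, 6)], [(1, 6), (8, 12), (11, 6),
      (12, 6)]]
  [[2, 1, 0, 0, 0, 0, 0]]
  (.cons (.lp .none [8, 8, 6, 6, 18, 6, 6] [] [-4, -4, -4, -4, -3, -3, -3, -3, -9, -9, -3, -3, -3,
      -3] 24 5
   [[(1, 8), (8, 13), (11, 7), (12, 7)], [(0, 8), (2, 8), (3, 8), (5, 7)], [(0, 8), (2, 8), (3, 8),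
      (5, 7)], [(0, 8), (2, 8), (3, 8), (5, 7)], [(0, 7), (2, 7), (3, 7), (5, 6)], [(4, 6), (7,
      6)], [(4, 6), (7, 6)], [(6, 6), (9, 12), (10, 6), (13, 6)], [(6, 12), (9, 18), (10, 12), (13,
      12)], [(1, 13), (8, 18), (11, 12), (12, 12)], [(1, 7), (8, 12), (11, 6), (12, 6)], [(6, 6),
      (9, 12), (10, 6), (13, 6)], [(6, 6), (9, 12), (10, 6), (13, 6)], [(1, 7), (8, 12), (11, 6),
      (12, 6)]]
   [[0, 1, 2, 0, 0, 0, 0]]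
   (.cons (.splitU 2
    (.leafM 0 [3, 6, 0, 1, 2] [(2, [-1, -1, -2, 0, 2])])
    (.lp .none [8, 8, 6, 6, 18, 6, 6] [] [-4, -4, -4, -4, -3, -3, -3, -3, -9, -9, -3, -3, -3, -3]
      24 5
     [[(1, 8), (8, 13), (11, 7), (12, 7)], [(0, 8), (2, 8), (3, 8), (5, 7)], [(0, 8), (2, 8), (3,
      8), (5, 7)], [(0, 8), (2, 8), (3, 8), (5, 7)], [(0, 7), (2, 7), (3, 7), (5, 6)], [(7, 6)],
      [(4, 6)], [(6, 6), (9, 12), (10, 6), (13, 6)], [(6, 12), (9, 18), (10, 12), (13, 12)], [(1,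
      13), (8, 18), (11, 12), (12, 12)], [(1, 7), (8, 12), (11, 6), (12, 6)], [(6, 6), (9, 12),
      (10, 6), (13, 6)], [(6, 6), (9, 12), (10, 6), (13, 6)], [(1, 7), (8, 12), (11, 6), (12, 6)]]
     []
     .nil))
   .nil))
  .nil))
 (.lp .none [6, 8, 6, 6, 18, 6, 6] [] [-3, -3, -4, -4, -3, -3, -3, -3, -9, -9, -3, -3, -3, -3] 24 5
  [[(1, 6), (8, 12), (11, 6), (12, 6)], [(5, 6)], [(2, 8)], [(3, 8)], [(0, 6)], [(4, 6), (7, 6)],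
      [(4, 6), (7, 6)], [(6, 6), (9, 12), (10, 6), (13, 6)], [(6, 12), (9, 18), (10, 12), (13,
      12)], [(1, 12), (8, 18), (11, 12), (12, 12)], [(1, 6), (8, 12), (11, 6), (12, 6)], [(6, 6),
      (9, 12), (10, 6), (13, 6)], [(6, 6), (9, 12), (10, 6), (13, 6)], [(1, 6), (8, 12), (11, 6),
      (12, 6)]]
  []
  .nil)
 (.lp .none [2, 2, 2, 2, 6, 2, 2] [] [-1, -1, -1, -1, -1, -1, -1, -1, -3, -3, -1, -1, -1, -1] 8 5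
  [[(1, 2), (8, 4), (11, 2), (12, 2)], [(2, 2)], [(5, 2)], [(0, 2)], [(3, 2)], [(4, 2), (7, 2)],
      [(4, 2), (7, 2)], [(6, 2), (9, 4), (10, 2), (13, 2)], [(6, 4), (9, 6), (10, 4), (13, 4)],
      [(1, 4), (8, 6), (11, 4), (12, 4)], [(1, 2), (8, 4), (11, 2), (12, 2)], [(6, 2), (9, 4), (10,
      2), (13, 2)], [(6, 2), (9, 4), (10, 2), (13, 2)], [(1, 2), (8, 4), (11, 2), (12, 2)]]
  []
  .nil)

/-- classes `0 0 1 2 3 2 3`, active pairs `4-5 5-6` -/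
def trS7_15 : Tr2 :=
  .splitT 0
 (.lp .none [6, 8, 8, 6, 6, 18, 6] [] [-3, -3, -4, -4, -4, -4, -3, -3, -3, -3, -9, -9, -3, -3] 24 5
  [[(1, 6), (8, 6), (11, 12), (12, 6)], [(0, 6), (2, 7), (3, 7), (5, 7)], [(0, 7), (2, 8), (3, 8),
      (5, 8)], [(0, 7), (2, 8), (3, 8), (5, 8)], [(0, 7), (2, 8), (3, 8), (5, 8)], [(4, 8), (7,
      7)], [(4, 7), (7, 6)], [(6, 6), (9, 6), (10, 12), (13, 6)], [(6, 6), (9, 6), (10, 12), (13,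
      6)], [(1, 6), (8, 6), (11, 12), (12, 6)], [(1, 12), (8, 12), (11, 18), (12, 12)], [(6, 12),
      (9, 12), (10, 18), (13, 12)], [(6, 6), (9, 6), (10, 12), (13, 6)], [(1, 6), (8, 6), (11, 12),
      (12, 6)]]
  [[2, 1, 0, 0, 0, 0, 0]]
  (.cons (.lp .none [8, 8, 6, 6, 6, 18, 6] [] [-4, -4, -4, -4, -3, -3, -3, -3, -3, -3, -9, -9, -3,
      -3] 24 5
   [[(1, 8), (8, 7), (11, 13), (12, 7)], [(0, 8), (2, 8), (3, 8), (5, 7)], [(0, 8), (2, 8), (3, 8),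
      (5, 7)], [(0, 8), (2, 8), (3, 8), (5, 7)], [(0, 7), (2, 7), (3, 7), (5, 6)], [(4, 6), (7,
      6)], [(4, 6), (7, 6)], [(6, 6), (9, 6), (10, 12), (13, 6)], [(6, 6), (9, 6), (10, 12), (13,
      6)], [(1, 7), (8, 6), (11, 12), (12, 6)], [(1, 13), (8, 12), (11, 18), (12, 12)], [(6, 12),
      (9, 12), (10, 18), (13, 12)], [(6, 6), (9, 6), (10, 12), (13, 6)], [(1, 7), (8, 6), (11, 12),
      (12, 6)]]
   [[0, 1, 2, 0, 0, 0, 0]]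
   (.cons (.splitU 2
    (.leafM 0 [3, 6, 0, 1, 2] [(2, [-1, -1, -2, 0, 2])])
    (.lp .none [8, 8, 6, 6, 6, 18, 6] [] [-4, -4, -4, -4, -3, -3, -3, -3, -3, -3, -9, -9, -3, -3]
      24 5
     [[(1, 8), (8, 7), (11, 13), (12, 7)], [(0, 8), (2, 8), (3, 8), (5, 7)], [(0, 8), (2, 8), (3,
      8), (5, 7)], [(0, 8), (2, 8), (3, 8), (5, 7)], [(0, 7), (2, 7), (3, 7), (5, 6)], [(7, 6)],
      [(4, 6)], [(6, 6), (9, 6), (10, 12), (13, 6)], [(6, 6), (9, 6), (10, 12), (13, 6)], [(1, 7),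
      (8, 6), (11, 12), (12, 6)], [(1, 13), (8, 12), (11, 18), (12, 12)], [(6, 12), (9, 12), (10,
      18), (13, 12)], [(6, 6), (9, 6), (10, 12), (13, 6)], [(1, 7), (8, 6), (11, 12), (12, 6)]]
     []
     .nil))
   .nil))
  .nil))
 (.lp .none [6, 8, 6, 6, 6, 18, 6] [] [-3, -3, -4, -4, -3, -3, -3, -3, -3, -3, -9, -9, -3, -3] 24 5
  [[(1, 6), (8, 6), (11, 12), (12, 6)], [(5, 6)], [(2, 8)], [(3, 8)], [(0, 6)], [(4, 6), (7, 6)],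
      [(4, 6), (7, 6)], [(6, 6), (9, 6), (10, 12), (13, 6)], [(6, 6), (9, 6), (10, 12), (13, 6)],
      [(1, 6), (8, 6), (11, 12), (12, 6)], [(1, 12), (8, 12), (11, 18), (12, 12)], [(6, 12), (9,
      12), (10, 18), (13, 12)], [(6, 6), (9, 6), (10, 12), (13, 6)], [(1, 6), (8, 6), (11, 12),
      (12, 6)]]
  []
  .nil)
 (.lp .none [2, 2, 2, 2, 2, 6, 2] [] [-1, -1, -1, -1, -1, -1, -1, -1, -1, -1, -3, -3, -1, -1] 8 5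
  [[(1, 2), (8, 2), (11, 4), (12, 2)], [(2, 2)], [(5, 2)], [(0, 2)], [(3, 2)], [(4, 2), (7, 2)],
      [(4, 2), (7, 2)], [(6, 2), (9, 2), (10, 4), (13, 2)], [(6, 2), (9, 2), (10, 4), (13, 2)],
      [(1, 2), (8, 2), (11, 4), (12, 2)], [(1, 4), (8, 4), (11, 6), (12, 4)], [(6, 4), (9, 4), (10,
      6), (13, 4)], [(6, 2), (9, 2), (10, 4), (13, 2)], [(1, 2), (8, 2), (11, 4), (12, 2)]]
  []
  .nil)

/-- classes `0 0 1 2 3 2 3`, active pairs `4-6` -/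
def trS7_16 : Tr2 :=
  .splitT 0
 (.lp .none [8, 8, 8, 6, 6, 6, 16] [(8, 13, -2), (12, 9, -2)] [-3, -5, -4, -4, -4, -4, -3, -3, -3,
      -3, -3, -3, -8, -8] 24 5
  [[(1, 10), (8, 8), (11, 6), (12, 13)], [(0, 6), (2, 7), (3, 7), (5, 7)], [(0, 7), (2, 8), (3, 8),
      (5, 8)], [(0, 7), (2, 8), (3, 8), (5, 8)], [(0, 7), (2, 8), (3, 8), (5, 8)], [(4, 8), (7,
      7)], [(4, 7), (7, 6)], [(6, 6), (9, 6), (10, 6), (13, 11)], [(6, 6), (9, 6), (10, 6), (13,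
      11)], [(1, 8), (8, 6), (11, 6), (12, 13)], [(1, 6), (8, 6), (11, 6), (12, 11)], [(6, 6), (9,
      6), (10, 6), (13, 11)], [(6, 11), (9, 11), (10, 11), (13, 16)], [(1, 13), (8, 13), (11, 11),
      (12, 16)]]
  []
  .nil)
 (.lp .none [6, 8, 6, 6, 6, 6, 18] [] [-3, -3, -4, -4, -3, -3, -3, -3, -3, -3, -3, -3, -9, -9] 24 5
  [[(1, 6), (8, 6), (11, 6), (12, 12)], [(5, 6)], [(2, 8)], [(3, 8)], [(0, 6)], [(4, 6), (7, 6)],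
      [(4, 6), (7, 6)], [(6, 6), (9, 6), (10, 6), (13, 12)], [(6, 6), (9, 6), (10, 6), (13, 12)],
      [(1, 6), (8, 6), (11, 6), (12, 12)], [(1, 6), (8, 6), (11, 6), (12, 12)], [(6, 6), (9, 6),
      (10, 6), (13, 12)], [(6, 12), (9, 12), (10, 12), (13, 18)], [(1, 12), (8, 12), (11, 12), (12,
      18)]]
  []
  .nil)
 (.lp .none [2, 2, 2, 2, 2, 2, 6] [] [-1, -1, -1, -1, -1, -1, -1, -1, -1, -1, -1, -1, -3, -3] 8 5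
  [[(1, 2), (8, 2), (11, 2), (12, 4)], [(2, 2)], [(5, 2)], [(0, 2)], [(3, 2)], [(4, 2), (7, 2)],
      [(4, 2), (7, 2)], [(6, 2), (9, 2), (10, 2), (13, 4)], [(6, 2), (9, 2), (10, 2), (13, 4)],
      [(1, 2), (8, 2), (11, 2), (12, 4)], [(1, 2), (8, 2), (11, 2), (12, 4)], [(6, 2), (9, 2), (10,
      2), (13, 4)], [(6, 4), (9, 4), (10, 4), (13, 6)], [(1, 4), (8, 4), (11, 4), (12, 6)]]
  []
  .nil)

/-- classes `0 0 1 2 3 2 3`, active pairs `4-6 5-6` -/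
def trS7_17 : Tr2 :=
  .splitT 0
 (.lp .none [6, 8, 8, 6, 6, 6, 18] [(12, 13, 4)] [-3, -3, -4, -4, -4, -4, -3, -3, -3, -3, -3, -3,
      -9, -9] 24 5
  [[(1, 10), (8, 6), (11, 6), (12, 12)], [(0, 6), (2, 7), (3, 7), (5, 7)], [(0, 7), (2, 8), (3, 8),
      (5, 8)], [(0, 7), (2, 8), (3, 8), (5, 8)], [(0, 7), (2, 8), (3, 8), (5, 8)], [(4, 8), (7,
      7)], [(4, 7), (7, 6)], [(6, 6), (9, 6), (10, 6), (13, 12)], [(6, 6), (9, 6), (10, 6), (13,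
      12)], [(1, 6), (8, 6), (11, 6), (12, 12)], [(1, 6), (8, 6), (11, 6), (12, 12)], [(6, 6), (9,
      6), (10, 6), (13, 12)], [(6, 12), (9, 12), (10, 12), (13, 18)], [(1, 12), (8, 12), (11, 12),
      (12, 14)]]
  []
  .nil)
 (.lp .none [6, 8, 6, 6, 6, 6, 18] [] [-3, -3, -4, -4, -3, -3, -3, -3, -3, -3, -3, -3, -9, -9] 24 5
  [[(1, 6), (8, 6), (11, 6), (12, 12)], [(5, 6)], [(2, 8)], [(3, 8)], [(0, 6)], [(4, 6), (7, 6)],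
      [(4, 6), (7, 6)], [(6, 6), (9, 6), (10, 6), (13, 12)], [(6, 6), (9, 6), (10, 6), (13, 12)],
      [(1, 6), (8, 6), (11, 6), (12, 12)], [(1, 6), (8, 6), (11, 6), (12, 12)], [(6, 6), (9, 6),
      (10, 6), (13, 12)], [(6, 12), (9, 12), (10, 12), (13, 18)], [(1, 12), (8, 12), (11, 12), (12,
      18)]]
  []
  .nil)
 (.lp .none [2, 2, 2, 2, 2, 2, 6] [] [-1, -1, -1, -1, -1, -1, -1, -1, -1, -1, -1, -1, -3, -3] 8 5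
  [[(1, 2), (8, 2), (11, 2), (12, 4)], [(2, 2)], [(5, 2)], [(0, 2)], [(3, 2)], [(4, 2), (7, 2)],
      [(4, 2), (7, 2)], [(6, 2), (9, 2), (10, 2), (13, 4)], [(6, 2), (9, 2), (10, 2), (13, 4)],
      [(1, 2), (8, 2), (11, 2), (12, 4)], [(1, 2), (8, 2), (11, 2), (12, 4)], [(6, 2), (9, 2), (10,
      2), (13, 4)], [(6, 4), (9, 4), (10, 4), (13, 6)], [(1, 4), (8, 4), (11, 4), (12, 6)]]
  []
  .nil)

/-- classes `0 0 1 2 3 2 3`, active pairs `5-6` -/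
def trS7_18 : Tr2 :=
  .splitT 0
 (.lp .none [8, 8, 8, 6, 6, 6, 16] [(8, 12, 2), (13, 9, 2)] [-3, -5, -4, -4, -4, -4, -3, -3, -3,
      -3, -3, -3, -8, -8] 24 5
  [[(1, 10), (8, 6), (11, 8), (12, 13)], [(0, 6), (2, 7), (3, 7), (5, 7)], [(0, 7), (2, 8), (3, 8),
      (5, 8)], [(0, 7), (2, 8), (3, 8), (5, 8)], [(0, 7), (2, 8), (3, 8), (5, 8)], [(4, 8), (7,
      7)], [(4, 7), (7, 6)], [(6, 6), (9, 6), (10, 6), (13, 11)], [(6, 6), (9, 6), (10, 6), (13,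
      11)], [(1, 6), (8, 6), (11, 6), (12, 11)], [(1, 8), (8, 6), (11, 6), (12, 13)], [(6, 6), (9,
      6), (10, 6), (13, 11)], [(6, 11), (9, 11), (10, 11), (13, 16)], [(1, 13), (8, 11), (11, 13),
      (12, 16)]]
  []
  .nil)
 (.lp .none [6, 8, 6, 6, 6, 6, 18] [] [-3, -3, -4, -4, -3, -3, -3, -3, -3, -3, -3, -3, -9, -9] 24 5
  [[(1, 6), (8, 6), (11, 6), (12, 12)], [(5, 6)], [(2, 8)], [(3, 8)], [(0, 6)], [(4, 6), (7, 6)],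
      [(4, 6), (7, 6)], [(6, 6), (9, 6), (10, 6), (13, 12)], [(6, 6), (9, 6), (10, 6), (13, 12)],
      [(1, 6), (8, 6), (11, 6), (12, 12)], [(1, 6), (8, 6), (11, 6), (12, 12)], [(6, 6), (9, 6),
      (10, 6), (13, 12)], [(6, 12), (9, 12), (10, 12), (13, 18)], [(1, 12), (8, 12), (11, 12), (12,
      18)]]
  []
  .nil)
 (.lp .none [2, 2, 2, 2, 2, 2, 6] [] [-1, -1, -1, -1, -1, -1, -1, -1, -1, -1, -1, -1, -3, -3] 8 5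
  [[(1, 2), (8, 2), (11, 2), (12, 4)], [(2, 2)], [(5, 2)], [(0, 2)], [(3, 2)], [(4, 2), (7, 2)],
      [(4, 2), (7, 2)], [(6, 2), (9, 2), (10, 2), (13, 4)], [(6, 2), (9, 2), (10, 2), (13, 4)],
      [(1, 2), (8, 2), (11, 2), (12, 4)], [(1, 2), (8, 2), (11, 2), (12, 4)], [(6, 2), (9, 2), (10,
      2), (13, 4)], [(6, 4), (9, 4), (10, 4), (13, 6)], [(1, 4), (8, 4), (11, 4), (12, 6)]]
  []
  .nil)

/-- classes `0 0 1 2 3 4 1`, active pairs `0-2` -/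
def trS7_19 : Tr2 :=
  .lp .none [16, 8, 8, 6, 6, 6, 6] [] [-8, -8, -4, -4, -4, -4, -3, -3, -3, -3, -3, -3, -3, -3] 24 5
 [[(1, 16), (4, 12), (7, 11), (12, 11)], [(0, 16), (2, 12), (3, 12), (5, 12)], [(0, 12), (2, 8),
      (3, 8), (5, 8)], [(0, 12), (2, 8), (3, 8), (5, 8)], [(0, 12), (2, 8), (3, 8), (5, 8)], [(1,
      12), (4, 8), (7, 7), (12, 7)], [(1, 11), (4, 7), (7, 6), (12, 6)], [(6, 6), (9, 6)], [(6, 6),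
      (9, 6)], [(8, 6), (11, 6)], [(8, 6), (11, 6)], [(10, 6), (13, 6)], [(10, 6), (13, 6)], [(1,
      11), (4, 7), (7, 6), (12, 6)]]
 []
 .nil

/-- classes `0 1 0 1 2 3 2`, active pairs `1-2` -/
def trS7_20 : Tr2 :=
  .splitT 4
 (.lp .none [2, 4, 4, 2, 2, 2, 2] [] [-1, -1, -2, -2, -2, -2, -1, -1, -1, -1, -1, -1, -1, -1] 8 5
  [[(1, 2), (8, 2), (11, 2), (12, 2)], [(0, 2), (3, 3), (4, 3), (7, 2)], [(0, 3), (3, 4), (4, 4),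
      (7, 3)], [(2, 4), (5, 4), (6, 3), (9, 3)], [(2, 4), (5, 4), (6, 3), (9, 3)], [(0, 3), (3, 4),
      (4, 4), (7, 3)], [(0, 2), (3, 3), (4, 3), (7, 2)], [(2, 3), (5, 3), (6, 2), (9, 2)], [(2, 3),
      (5, 3), (6, 2), (9, 2)], [(1, 2), (8, 2), (11, 2), (12, 2)], [(1, 2), (8, 2), (11, 2), (12,
      2)], [(10, 2), (13, 2)], [(10, 2), (13, 2)], [(1, 2), (8, 2), (11, 2), (12, 2)]]
  [[1, 0, 0, 1, 1, 0, 0]]
  (.cons (.leafM 0 [5, 6, 0, 3, 4] [(1, [-1, -1, 1])])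
  .nil))
 (.lp .none [2, 4, 4, 2, 2, 2, 2] [] [-1, -1, -2, -2, -2, -2, -1, -1, -1, -1, -1, -1, -1, -1] 8 5
  [[(8, 2)], [(0, 2), (3, 3), (4, 3), (7, 2)], [(0, 3), (3, 4), (4, 4), (7, 3)], [(2, 4), (5, 4),
      (6, 3), (9, 3)], [(2, 4), (5, 4), (6, 3), (9, 3)], [(0, 3), (3, 4), (4, 4), (7, 3)], [(0, 2),
      (3, 3), (4, 3), (7, 2)], [(2, 3), (5, 3), (6, 2), (9, 2)], [(2, 3), (5, 3), (6, 2), (9, 2)],
      [(1, 2)], [(12, 2)], [(10, 2), (13, 2)], [(10, 2), (13, 2)], [(11, 2)]]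
  [[1, 0, 0, 1, 1, 0, 0]]
  (.cons (.leafM 1 [4, 5, 6, 0, 3] [(1, [-1, -1, 1])])
  .nil))
 (.lp .none [2, 6, 2, 2, 2, 2, 2] [] [-1, -1, -3, -3, -1, -1, -1, -1, -1, -1, -1, -1, -1, -1] 8 5
  [[(11, 2)], [(0, 2), (3, 4), (4, 2), (7, 2)], [(0, 4), (3, 6), (4, 4), (7, 4)], [(2, 6), (5, 4),
      (6, 4), (9, 4)], [(2, 4), (5, 2), (6, 2), (9, 2)], [(0, 2), (3, 4), (4, 2), (7, 2)], [(0, 2),
      (3, 4), (4, 2), (7, 2)], [(2, 4), (5, 2), (6, 2), (9, 2)], [(2, 4), (5, 2), (6, 2), (9, 2)],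
      [(12, 2)], [(1, 2)], [(10, 2), (13, 2)], [(10, 2), (13, 2)], [(8, 2)]]
  []
  .nil)

/-- classes `0 1 0 1 2 3 2`, active pairs `1-2 1-3` -/
def trS7_21 : Tr2 :=
  .splitT 4
 (.lp .none [2, 6, 2, 2, 2, 2, 2] [] [-1, -1, -3, -3, -1, -1, -1, -1, -1, -1, -1, -1, -1, -1] 8 5
  [[(1, 2), (8, 2), (11, 2), (12, 2)], [(0, 2), (3, 4), (4, 2), (7, 2)], [(0, 4), (3, 6), (4, 4),
      (7, 4)], [(2, 6), (5, 4), (6, 4), (9, 4)], [(2, 4), (5, 2), (6, 2), (9, 2)], [(0, 2), (3, 4),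
      (4, 2), (7, 2)], [(0, 2), (3, 4), (4, 2), (7, 2)], [(2, 4), (5, 2), (6, 2), (9, 2)], [(2, 4),
      (5, 2), (6, 2), (9, 2)], [(1, 2), (8, 2), (11, 2), (12, 2)], [(1, 2), (8, 2), (11, 2), (12,
      2)], [(10, 2), (13, 2)], [(10, 2), (13, 2)], [(1, 2), (8, 2), (11, 2), (12, 2)]]
  [[1, 0, 1, 0, 1, 0, 0], [1, 0, 0, 1, 1, 0, 0]]
  (.cons (.leafM 0 [5, 6, 0, 3, 4] [(1, [-1, 0, -1, 1])])
  (.cons (.leafM 0 [5, 6, 0, 3, 4] [(1, [-1, -1, 0, 1])])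
  .nil)))
 (.lp .none [2, 6, 2, 2, 2, 2, 2] [] [-1, -1, -3, -3, -1, -1, -1, -1, -1, -1, -1, -1, -1, -1] 8 5
  [[(8, 2)], [(0, 2), (3, 4), (4, 2), (7, 2)], [(0, 4), (3, 6), (4, 4), (7, 4)], [(2, 6), (5, 4),
      (6, 4), (9, 4)], [(2, 4), (5, 2), (6, 2), (9, 2)], [(0, 2), (3, 4), (4, 2), (7, 2)], [(0, 2),
      (3, 4), (4, 2), (7, 2)], [(2, 4), (5, 2), (6, 2), (9, 2)], [(2, 4), (5, 2), (6, 2), (9, 2)],
      [(1, 2)], [(12, 2)], [(10, 2), (13, 2)], [(10, 2), (13, 2)], [(11, 2)]]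
  [[1, 0, 1, 0, 1, 0, 0], [1, 0, 0, 1, 1, 0, 0]]
  (.cons (.leafM 1 [4, 5, 6, 0, 3] [(1, [-1, 0, -1, 1])])
  (.cons (.leafM 1 [4, 5, 6, 0, 3] [(1, [-1, -1, 0, 1])])
  .nil)))
 (.lp .none [2, 6, 2, 2, 2, 2, 2] [] [-1, -1, -3, -3, -1, -1, -1, -1, -1, -1, -1, -1, -1, -1] 8 5
  [[(11, 2)], [(0, 2), (3, 4), (4, 2), (7, 2)], [(0, 4), (3, 6), (4, 4), (7, 4)], [(2, 6), (5, 4),
      (6, 4), (9, 4)], [(2, 4), (5, 2), (6, 2), (9, 2)], [(0, 2), (3, 4), (4, 2), (7, 2)], [(0, 2),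
      (3, 4), (4, 2), (7, 2)], [(2, 4), (5, 2), (6, 2), (9, 2)], [(2, 4), (5, 2), (6, 2), (9, 2)],
      [(12, 2)], [(1, 2)], [(10, 2), (13, 2)], [(10, 2), (13, 2)], [(8, 2)]]
  []
  .nil)

/-- classes `0 1 0 1 2 3 2`, active pairs `1-2 2-3` -/
def trS7_22 : Tr2 :=
  .splitT 4
 (.lp .none [2, 2, 6, 2, 2, 2, 2] [] [-1, -1, -1, -1, -3, -3, -1, -1, -1, -1, -1, -1, -1, -1] 8 5
  [[(1, 2), (8, 2), (11, 2), (12, 2)], [(0, 2), (3, 2), (4, 4), (7, 2)], [(0, 2), (3, 2), (4, 4),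
      (7, 2)], [(2, 2), (5, 4), (6, 2), (9, 2)], [(2, 4), (5, 6), (6, 4), (9, 4)], [(0, 4), (3, 4),
      (4, 6), (7, 4)], [(0, 2), (3, 2), (4, 4), (7, 2)], [(2, 2), (5, 4), (6, 2), (9, 2)], [(2, 2),
      (5, 4), (6, 2), (9, 2)], [(1, 2), (8, 2), (11, 2), (12, 2)], [(1, 2), (8, 2), (11, 2), (12,
      2)], [(10, 2), (13, 2)], [(10, 2), (13, 2)], [(1, 2), (8, 2), (11, 2), (12, 2)]]
  [[1, 1, 0, 0, 1, 0, 0], [1, 0, 0, 1, 1, 0, 0]]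
  (.cons (.leafM 0 [5, 6, 0, 3, 4] [(1, [-1, 0, -1, 1])])
  (.cons (.leafM 0 [5, 6, 0, 3, 4] [(1, [-1, -1, 0, 1])])
  .nil)))
 (.lp .none [2, 2, 6, 2, 2, 2, 2] [] [-1, -1, -1, -1, -3, -3, -1, -1, -1, -1, -1, -1, -1, -1] 8 5
  [[(8, 2)], [(0, 2), (3, 2), (4, 4), (7, 2)], [(0, 2), (3, 2), (4, 4), (7, 2)], [(2, 2), (5, 4),
      (6, 2), (9, 2)], [(2, 4), (5, 6), (6, 4), (9, 4)], [(0, 4), (3, 4), (4, 6), (7, 4)], [(0, 2),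
      (3, 2), (4, 4), (7, 2)], [(2, 2), (5, 4), (6, 2), (9, 2)], [(2, 2), (5, 4), (6, 2), (9, 2)],
      [(1, 2)], [(12, 2)], [(10, 2), (13, 2)], [(10, 2), (13, 2)], [(11, 2)]]
  [[1, 1, 0, 0, 1, 0, 0], [1, 0, 0, 1, 1, 0, 0]]
  (.cons (.leafM 1 [4, 5, 6, 0, 3] [(1, [-1, 0, -1, 1])])
  (.cons (.leafM 1 [4, 5, 6, 0, 3] [(1, [-1, -1, 0, 1])])
  .nil)))
 (.lp .none [2, 2, 6, 2, 2, 2, 2] [] [-1, -1, -1, -1, -3, -3, -1, -1, -1, -1, -1, -1, -1, -1] 8 5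
  [[(11, 2)], [(0, 2), (3, 2), (4, 4), (7, 2)], [(0, 2), (3, 2), (4, 4), (7, 2)], [(2, 2), (5, 4),
      (6, 2), (9, 2)], [(2, 4), (5, 6), (6, 4), (9, 4)], [(0, 4), (3, 4), (4, 6), (7, 4)], [(0, 2),
      (3, 2), (4, 4), (7, 2)], [(2, 2), (5, 4), (6, 2), (9, 2)], [(2, 2), (5, 4), (6, 2), (9, 2)],
      [(12, 2)], [(1, 2)], [(10, 2), (13, 2)], [(10, 2), (13, 2)], [(8, 2)]]
  []
  .nil)

/-- classes `0 1 0 1 2 3 2`, active pairs `1-3` -/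
def trS7_23 : Tr2 :=
  .splitT 4
 (.lp .none [2, 4, 2, 4, 2, 2, 2] [] [-1, -1, -2, -2, -1, -1, -2, -2, -1, -1, -1, -1, -1, -1] 8 5
  [[(1, 2), (8, 2), (11, 2), (12, 2)], [(0, 2), (3, 3), (4, 2), (7, 3)], [(0, 3), (3, 4), (4, 3),
      (7, 4)], [(2, 4), (5, 3), (6, 4), (9, 3)], [(2, 3), (5, 2), (6, 3), (9, 2)], [(0, 2), (3, 3),
      (4, 2), (7, 3)], [(0, 3), (3, 4), (4, 3), (7, 4)], [(2, 4), (5, 3), (6, 4), (9, 3)], [(2, 3),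
      (5, 2), (6, 3), (9, 2)], [(1, 2), (8, 2), (11, 2), (12, 2)], [(1, 2), (8, 2), (11, 2), (12,
      2)], [(10, 2), (13, 2)], [(10, 2), (13, 2)], [(1, 2), (8, 2), (11, 2), (12, 2)]]
  [[1, 0, 1, 0, 1, 0, 0]]
  (.cons (.leafM 3 [0, 2, 4, 5, 6] [(1, [-1, -1, 1])])
  .nil))
 (.lp .none [2, 4, 2, 4, 2, 2, 2] [] [-1, -1, -2, -2, -1, -1, -2, -2, -1, -1, -1, -1, -1, -1] 8 5
  [[(8, 2)], [(0, 2), (3, 3), (4, 2), (7, 3)], [(0, 3), (3, 4), (4, 3), (7, 4)], [(2, 4), (5, 3),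
      (6, 4), (9, 3)], [(2, 3), (5, 2), (6, 3), (9, 2)], [(0, 2), (3, 3), (4, 2), (7, 3)], [(0, 3),
      (3, 4), (4, 3), (7, 4)], [(2, 4), (5, 3), (6, 4), (9, 3)], [(2, 3), (5, 2), (6, 3), (9, 2)],
      [(1, 2)], [(12, 2)], [(10, 2), (13, 2)], [(10, 2), (13, 2)], [(11, 2)]]
  [[1, 0, 1, 0, 1, 0, 0]]
  (.cons (.leafM 3 [0, 2, 4, 5, 6] [(1, [-1, -1, 1])])
  .nil))
 (.lp .none [2, 6, 2, 2, 2, 2, 2] [] [-1, -1, -3, -3, -1, -1, -1, -1, -1, -1, -1, -1, -1, -1] 8 5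
  [[(11, 2)], [(0, 2), (3, 4), (4, 2), (7, 2)], [(0, 4), (3, 6), (4, 4), (7, 4)], [(2, 6), (5, 4),
      (6, 4), (9, 4)], [(2, 4), (5, 2), (6, 2), (9, 2)], [(0, 2), (3, 4), (4, 2), (7, 2)], [(0, 2),
      (3, 4), (4, 2), (7, 2)], [(2, 4), (5, 2), (6, 2), (9, 2)], [(2, 4), (5, 2), (6, 2), (9, 2)],
      [(12, 2)], [(1, 2)], [(10, 2), (13, 2)], [(10, 2), (13, 2)], [(8, 2)]]
  []
  .nil)

/-- classes `0 1 0 1 2 3 2`, active pairs `1-3 2-3` -/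
def trS7_24 : Tr2 :=
  .splitT 4
 (.lp .none [2, 2, 2, 6, 2, 2, 2] [] [-1, -1, -1, -1, -1, -1, -3, -3, -1, -1, -1, -1, -1, -1] 8 5
  [[(1, 2), (8, 2), (11, 2), (12, 2)], [(0, 2), (3, 2), (4, 2), (7, 4)], [(0, 2), (3, 2), (4, 2),
      (7, 4)], [(2, 2), (5, 2), (6, 4), (9, 2)], [(2, 2), (5, 2), (6, 4), (9, 2)], [(0, 2), (3, 2),
      (4, 2), (7, 4)], [(0, 4), (3, 4), (4, 4), (7, 6)], [(2, 4), (5, 4), (6, 6), (9, 4)], [(2, 2),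
      (5, 2), (6, 4), (9, 2)], [(1, 2), (8, 2), (11, 2), (12, 2)], [(1, 2), (8, 2), (11, 2), (12,
      2)], [(10, 2), (13, 2)], [(10, 2), (13, 2)], [(1, 2), (8, 2), (11, 2), (12, 2)]]
  [[1, 1, 0, 0, 1, 0, 0], [1, 0, 1, 0, 1, 0, 0]]
  (.cons (.leafM 3 [0, 2, 4, 5, 6] [(1, [-1, 0, -1, 1])])
  (.cons (.leafM 3 [0, 2, 4, 5, 6] [(1, [-1, -1, 0, 1])])
  .nil)))
 (.lp .none [2, 2, 2, 6, 2, 2, 2] [] [-1, -1, -1, -1, -1, -1, -3, -3, -1, -1, -1, -1, -1, -1] 8 5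
  [[(8, 2)], [(0, 2), (3, 2), (4, 2), (7, 4)], [(0, 2), (3, 2), (4, 2), (7, 4)], [(2, 2), (5, 2),
      (6, 4), (9, 2)], [(2, 2), (5, 2), (6, 4), (9, 2)], [(0, 2), (3, 2), (4, 2), (7, 4)], [(0, 4),
      (3, 4), (4, 4), (7, 6)], [(2, 4), (5, 4), (6, 6), (9, 4)], [(2, 2), (5, 2), (6, 4), (9, 2)],
      [(1, 2)], [(12, 2)], [(10, 2), (13, 2)], [(10, 2), (13, 2)], [(11, 2)]]
  [[1, 1, 0, 0, 1, 0, 0], [1, 0, 1, 0, 1, 0, 0]]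
  (.cons (.leafM 3 [0, 2, 4, 5, 6] [(1, [-1, 0, -1, 1])])
  (.cons (.leafM 3 [0, 2, 4, 5, 6] [(1, [-1, -1, 0, 1])])
  .nil)))
 (.lp .none [2, 2, 2, 6, 2, 2, 2] [] [-1, -1, -1, -1, -1, -1, -3, -3, -1, -1, -1, -1, -1, -1] 8 5
  [[(11, 2)], [(0, 2), (3, 2), (4, 2), (7, 4)], [(0, 2), (3, 2), (4, 2), (7, 4)], [(2, 2), (5, 2),
      (6, 4), (9, 2)], [(2, 2), (5, 2), (6, 4), (9, 2)], [(0, 2), (3, 2), (4, 2), (7, 4)], [(0, 4),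
      (3, 4), (4, 4), (7, 6)], [(2, 4), (5, 4), (6, 6), (9, 4)], [(2, 2), (5, 2), (6, 4), (9, 2)],
      [(12, 2)], [(1, 2)], [(10, 2), (13, 2)], [(10, 2), (13, 2)], [(8, 2)]]
  []
  .nil)

/-- classes `0 1 0 1 2 3 2`, active pairs `2-3` -/
def trS7_25 : Tr2 :=
  .splitT 4
 (.lp .none [2, 2, 4, 4, 2, 2, 2] [] [-1, -1, -1, -1, -2, -2, -2, -2, -1, -1, -1, -1, -1, -1] 8 5
  [[(1, 2), (8, 2), (11, 2), (12, 2)], [(0, 2), (3, 2), (4, 3), (7, 3)], [(0, 2), (3, 2), (4, 3),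
      (7, 3)], [(2, 2), (5, 3), (6, 3), (9, 2)], [(2, 3), (5, 4), (6, 4), (9, 3)], [(0, 3), (3, 3),
      (4, 4), (7, 4)], [(0, 3), (3, 3), (4, 4), (7, 4)], [(2, 3), (5, 4), (6, 4), (9, 3)], [(2, 2),
      (5, 3), (6, 3), (9, 2)], [(1, 2), (8, 2), (11, 2), (12, 2)], [(1, 2), (8, 2), (11, 2), (12,
      2)], [(10, 2), (13, 2)], [(10, 2), (13, 2)], [(1, 2), (8, 2), (11, 2), (12, 2)]]
  [[1, 1, 0, 0, 1, 0, 0]]
  (.cons (.leafM 0 [5, 6, 0, 1, 4] [(1, [-1, -1, 1])])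
  .nil))
 (.lp .none [2, 2, 4, 4, 2, 2, 2] [] [-1, -1, -1, -1, -2, -2, -2, -2, -1, -1, -1, -1, -1, -1] 8 5
  [[(8, 2)], [(0, 2), (3, 2), (4, 3), (7, 3)], [(0, 2), (3, 2), (4, 3), (7, 3)], [(2, 2), (5, 3),
      (6, 3), (9, 2)], [(2, 3), (5, 4), (6, 4), (9, 3)], [(0, 3), (3, 3), (4, 4), (7, 4)], [(0, 3),
      (3, 3), (4, 4), (7, 4)], [(2, 3), (5, 4), (6, 4), (9, 3)], [(2, 2), (5, 3), (6, 3), (9, 2)],
      [(1, 2)], [(12, 2)], [(10, 2), (13, 2)], [(10, 2), (13, 2)], [(11, 2)]]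
  [[1, 1, 0, 0, 1, 0, 0]]
  (.cons (.leafM 1 [4, 5, 6, 0, 1] [(1, [-1, -1, 1])])
  .nil))
 (.lp .none [2, 2, 2, 6, 2, 2, 2] [] [-1, -1, -1, -1, -1, -1, -3, -3, -1, -1, -1, -1, -1, -1] 8 5
  [[(11, 2)], [(0, 2), (3, 2), (4, 2), (7, 4)], [(0, 2), (3, 2), (4, 2), (7, 4)], [(2, 2), (5, 2),
      (6, 4), (9, 2)], [(2, 2), (5, 2), (6, 4), (9, 2)], [(0, 2), (3, 2), (4, 2), (7, 4)], [(0, 4),
      (3, 4), (4, 4), (7, 6)], [(2, 4), (5, 4), (6, 6), (9, 4)], [(2, 2), (5, 2), (6, 4), (9, 2)],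
      [(12, 2)], [(1, 2)], [(10, 2), (13, 2)], [(10, 2), (13, 2)], [(8, 2)]]
  []
  .nil)

/-- classes `0 1 0 1 2 3 4`, active pairs `1-2` -/
def trS7_26 : Tr2 :=
  .lp .none [2, 6, 2, 2, 2, 2, 2] [] [-1, -1, -3, -3, -1, -1, -1, -1, -1, -1, -1, -1, -1, -1] 8 5
 [[(1, 2), (12, 2)], [(0, 2), (3, 4), (4, 2), (7, 2)], [(0, 4), (3, 6), (4, 4), (7, 4)], [(2, 6),
      (5, 4), (6, 4), (9, 4)], [(2, 4), (5, 2), (6, 2), (9, 2)], [(0, 2), (3, 4), (4, 2), (7, 2)],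
      [(0, 2), (3, 4), (4, 2), (7, 2)], [(2, 4), (5, 2), (6, 2), (9, 2)], [(2, 4), (5, 2), (6, 2),
      (9, 2)], [(8, 2), (11, 2)], [(8, 2), (11, 2)], [(10, 2), (13, 2)], [(10, 2), (13, 2)], [(1,
      2), (12, 2)]]
 []
 .nil

/-- classes `0 1 0 1 2 3 4`, active pairs `1-2 1-3` -/
def trS7_27 : Tr2 :=
  .lp .none [2, 6, 2, 2, 2, 2, 2] [] [-1, -1, -3, -3, -1, -1, -1, -1, -1, -1, -1, -1, -1, -1] 8 5
 [[(1, 2), (12, 2)], [(0, 2), (3, 4), (4, 2), (7, 2)], [(0, 4), (3, 6), (4, 4), (7, 4)], [(2, 6),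
      (5, 4), (6, 4), (9, 4)], [(2, 4), (5, 2), (6, 2), (9, 2)], [(0, 2), (3, 4), (4, 2), (7, 2)],
      [(0, 2), (3, 4), (4, 2), (7, 2)], [(2, 4), (5, 2), (6, 2), (9, 2)], [(2, 4), (5, 2), (6, 2),
      (9, 2)], [(8, 2), (11, 2)], [(8, 2), (11, 2)], [(10, 2), (13, 2)], [(10, 2), (13, 2)], [(1,
      2), (12, 2)]]
 []
 .nil

/-- classes `0 1 0 1 2 3 4`, active pairs `1-2 2-3` -/
def trS7_28 : Tr2 :=
  .lp .none [2, 2, 6, 2, 2, 2, 2] [] [-1, -1, -1, -1, -3, -3, -1, -1, -1, -1, -1, -1, -1, -1] 8 5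
 [[(1, 2), (12, 2)], [(0, 2), (3, 2), (4, 4), (7, 2)], [(0, 2), (3, 2), (4, 4), (7, 2)], [(2, 2),
      (5, 4), (6, 2), (9, 2)], [(2, 4), (5, 6), (6, 4), (9, 4)], [(0, 4), (3, 4), (4, 6), (7, 4)],
      [(0, 2), (3, 2), (4, 4), (7, 2)], [(2, 2), (5, 4), (6, 2), (9, 2)], [(2, 2), (5, 4), (6, 2),
      (9, 2)], [(8, 2), (11, 2)], [(8, 2), (11, 2)], [(10, 2), (13, 2)], [(10, 2), (13, 2)], [(1,
      2), (12, 2)]]
 []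
 .nil

/-- classes `0 1 0 1 2 3 4`, active pairs `1-3` -/
def trS7_29 : Tr2 :=
  .lp .none [2, 6, 2, 2, 2, 2, 2] [] [-1, -1, -3, -3, -1, -1, -1, -1, -1, -1, -1, -1, -1, -1] 8 5
 [[(1, 2), (12, 2)], [(0, 2), (3, 4), (4, 2), (7, 2)], [(0, 4), (3, 6), (4, 4), (7, 4)], [(2, 6),
      (5, 4), (6, 4), (9, 4)], [(2, 4), (5, 2), (6, 2), (9, 2)], [(0, 2), (3, 4), (4, 2), (7, 2)],
      [(0, 2), (3, 4), (4, 2), (7, 2)], [(2, 4), (5, 2), (6, 2), (9, 2)], [(2, 4), (5, 2), (6, 2),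
      (9, 2)], [(8, 2), (11, 2)], [(8, 2), (11, 2)], [(10, 2), (13, 2)], [(10, 2), (13, 2)], [(1,
      2), (12, 2)]]
 []
 .nil

/-- classes `0 1 0 1 2 3 4`, active pairs `1-3 2-3` -/
def trS7_30 : Tr2 :=
  .lp .none [2, 2, 2, 6, 2, 2, 2] [] [-1, -1, -1, -1, -1, -1, -3, -3, -1, -1, -1, -1, -1, -1] 8 5
 [[(1, 2), (12, 2)], [(0, 2), (3, 2), (4, 2), (7, 4)], [(0, 2), (3, 2), (4, 2), (7, 4)], [(2, 2),
      (5, 2), (6, 4), (9, 2)], [(2, 2), (5, 2), (6, 4), (9, 2)], [(0, 2), (3, 2), (4, 2), (7, 4)],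
      [(0, 4), (3, 4), (4, 4), (7, 6)], [(2, 4), (5, 4), (6, 6), (9, 4)], [(2, 2), (5, 2), (6, 4),
      (9, 2)], [(8, 2), (11, 2)], [(8, 2), (11, 2)], [(10, 2), (13, 2)], [(10, 2), (13, 2)], [(1,
      2), (12, 2)]]
 []
 .nil

/-- classes `0 1 0 1 2 3 4`, active pairs `2-3` -/
def trS7_31 : Tr2 :=
  .lp .none [2, 2, 2, 6, 2, 2, 2] [] [-1, -1, -1, -1, -1, -1, -3, -3, -1, -1, -1, -1, -1, -1] 8 5
 [[(1, 2), (12, 2)], [(0, 2), (3, 2), (4, 2), (7, 4)], [(0, 2), (3, 2), (4, 2), (7, 4)], [(2, 2),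
      (5, 2), (6, 4), (9, 2)], [(2, 2), (5, 2), (6, 4), (9, 2)], [(0, 2), (3, 2), (4, 2), (7, 4)],
      [(0, 4), (3, 4), (4, 4), (7, 6)], [(2, 4), (5, 4), (6, 6), (9, 4)], [(2, 2), (5, 2), (6, 4),
      (9, 2)], [(8, 2), (11, 2)], [(8, 2), (11, 2)], [(10, 2), (13, 2)], [(10, 2), (13, 2)], [(1,
      2), (12, 2)]]
 []
 .nil

/-- classes `0 1 0 2 1 2 3`, active pairs `1-2` -/
def trS7_32 : Tr2 :=
  .splitT 3
 (.lp .none [2, 4, 4, 2, 2, 2, 2] [] [-1, -1, -2, -2, -2, -2, -1, -1, -1, -1, -1, -1, -1, -1] 8 5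
  [[(1, 2), (12, 2)], [(0, 2), (3, 3), (4, 3), (7, 2)], [(0, 3), (3, 4), (4, 4), (7, 3)], [(2, 4),
      (5, 4), (8, 3), (11, 3)], [(2, 4), (5, 4), (8, 3), (11, 3)], [(0, 3), (3, 4), (4, 4), (7,
      3)], [(0, 2), (3, 3), (4, 3), (7, 2)], [(6, 2), (9, 2), (10, 2), (13, 2)], [(6, 2), (9, 2),
      (10, 2), (13, 2)], [(2, 3), (5, 3), (8, 2), (11, 2)], [(2, 3), (5, 3), (8, 2), (11, 2)], [(6,
      2), (9, 2), (10, 2), (13, 2)], [(6, 2), (9, 2), (10, 2), (13, 2)], [(1, 2), (12, 2)]]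
  [[1, 0, 0, 1, 0, 0, 1]]
  (.cons (.leafM 0 [4, 5, 6, 0, 3] [(1, [-1, -1, 1])])
  .nil))
 (.lp .none [2, 6, 2, 2, 2, 2, 2] [] [-1, -1, -3, -3, -1, -1, -1, -1, -1, -1, -1, -1, -1, -1] 8 5
  [[(1, 2), (12, 2)], [(0, 2), (3, 4), (4, 2), (7, 2)], [(0, 4), (3, 6), (4, 4), (7, 4)], [(2, 6),
      (5, 4), (8, 4), (11, 4)], [(2, 4), (5, 2), (8, 2), (11, 2)], [(0, 2), (3, 4), (4, 2), (7,
      2)], [(0, 2), (3, 4), (4, 2), (7, 2)], [(13, 2)], [(10, 2)], [(2, 4), (5, 2), (8, 2), (11,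
      2)], [(2, 4), (5, 2), (8, 2), (11, 2)], [(9, 2)], [(6, 2)], [(1, 2), (12, 2)]]
  [[1, 0, 0, 1, 0, 0, 1]]
  (.cons (.leafM 1 [3, 4, 5, 6, 0] [(1, [-1, -1, 1])])
  .nil))
 (.lp .none [2, 4, 4, 2, 2, 2, 2] [] [-1, -1, -2, -2, -2, -2, -1, -1, -1, -1, -1, -1, -1, -1] 8 5
  [[(1, 2), (12, 2)], [(0, 2), (3, 3), (4, 3), (7, 2)], [(0, 3), (3, 4), (4, 4), (7, 3)], [(2, 4),
      (5, 4), (8, 3), (11, 3)], [(2, 4), (5, 4), (8, 3), (11, 3)], [(0, 3), (3, 4), (4, 4), (7,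
      3)], [(0, 2), (3, 3), (4, 3), (7, 2)], [(10, 2)], [(13, 2)], [(2, 3), (5, 3), (8, 2), (11,
      2)], [(2, 3), (5, 3), (8, 2), (11, 2)], [(6, 2)], [(9, 2)], [(1, 2), (12, 2)]]
  []
  .nil)

/-- classes `0 1 0 2 1 2 3`, active pairs `4-5` -/
def trS7_33 : Tr2 :=
  .splitT 0
 (.lp .none [2, 2, 2, 2, 4, 4, 2] [] [-1, -1, -1, -1, -1, -1, -1, -1, -2, -2, -2, -2, -1, -1] 8 5
  [[(1, 2), (12, 2)], [(0, 2), (3, 2), (4, 2), (7, 2)], [(0, 2), (3, 2), (4, 2), (7, 2)], [(2, 2),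
      (5, 2), (8, 3), (11, 3)], [(2, 2), (5, 2), (8, 3), (11, 3)], [(0, 2), (3, 2), (4, 2), (7,
      2)], [(0, 2), (3, 2), (4, 2), (7, 2)], [(6, 2), (9, 3), (10, 3), (13, 2)], [(6, 3), (9, 4),
      (10, 4), (13, 3)], [(2, 3), (5, 3), (8, 4), (11, 4)], [(2, 3), (5, 3), (8, 4), (11, 4)], [(6,
      3), (9, 4), (10, 4), (13, 3)], [(6, 2), (9, 3), (10, 3), (13, 2)], [(1, 2), (12, 2)]]
  [[1, 0, 0, 1, 0, 0, 1]]
  (.cons (.leafM 0 [1, 2, 3, 6, 0] [(1, [-1, -1, 1])])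
  .nil))
 (.lp .none [2, 2, 2, 2, 2, 6, 2] [] [-1, -1, -1, -1, -1, -1, -1, -1, -1, -1, -3, -3, -1, -1] 8 5
  [[(1, 2), (12, 2)], [(7, 2)], [(4, 2)], [(2, 2), (5, 2), (8, 2), (11, 4)], [(2, 2), (5, 2), (8,
      2), (11, 4)], [(3, 2)], [(0, 2)], [(6, 2), (9, 2), (10, 4), (13, 2)], [(6, 2), (9, 2), (10,
      4), (13, 2)], [(2, 2), (5, 2), (8, 2), (11, 4)], [(2, 4), (5, 4), (8, 4), (11, 6)], [(6, 4),
      (9, 4), (10, 6), (13, 4)], [(6, 2), (9, 2), (10, 4), (13, 2)], [(1, 2), (12, 2)]]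
  [[1, 0, 0, 1, 0, 0, 1]]
  (.cons (.leafM 1 [0, 1, 2, 3, 6] [(1, [-1, -1, 1])])
  .nil))
 (.lp .none [2, 2, 2, 2, 4, 4, 2] [] [-1, -1, -1, -1, -1, -1, -1, -1, -2, -2, -2, -2, -1, -1] 8 5
  [[(1, 2), (12, 2)], [(4, 2)], [(7, 2)], [(2, 2), (5, 2), (8, 3), (11, 3)], [(2, 2), (5, 2), (8,
      3), (11, 3)], [(0, 2)], [(3, 2)], [(6, 2), (9, 3), (10, 3), (13, 2)], [(6, 3), (9, 4), (10,
      4), (13, 3)], [(2, 3), (5, 3), (8, 4), (11, 4)], [(2, 3), (5, 3), (8, 4), (11, 4)], [(6, 3),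
      (9, 4), (10, 4), (13, 3)], [(6, 2), (9, 3), (10, 3), (13, 2)], [(1, 2), (12, 2)]]
  []
  .nil)

/-- classes `0 1 0 2 1 3 2`, active pairs `0-3` -/
def trS7_34 : Tr2 :=
  .splitT 1
 (.lp .none [4, 2, 2, 4, 2, 2, 2] [] [-2, -2, -1, -1, -1, -1, -2, -2, -1, -1, -1, -1, -1, -1] 8 5
  [[(1, 4), (6, 4), (9, 3), (12, 3)], [(0, 4), (3, 3), (4, 3), (7, 4)], [(0, 3), (3, 2), (4, 2),
      (7, 3)], [(2, 2), (5, 2), (8, 2), (11, 2)], [(2, 2), (5, 2), (8, 2), (11, 2)], [(0, 3), (3,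
      2), (4, 2), (7, 3)], [(0, 4), (3, 3), (4, 3), (7, 4)], [(1, 4), (6, 4), (9, 3), (12, 3)],
      [(1, 3), (6, 3), (9, 2), (12, 2)], [(2, 2), (5, 2), (8, 2), (11, 2)], [(2, 2), (5, 2), (8,
      2), (11, 2)], [(10, 2), (13, 2)], [(10, 2), (13, 2)], [(1, 3), (6, 3), (9, 2), (12, 2)]]
  [[0, 0, 0, 0, 1, 1, 1]]
  (.cons (.leafM 1 [6, 1, 2, 4, 5] [(1, [-1, -1, 1])])
  .nil))
 (.lp .none [4, 2, 2, 4, 2, 2, 2] [] [-2, -2, -1, -1, -1, -1, -2, -2, -1, -1, -1, -1, -1, -1] 8 5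
  [[(1, 4), (6, 4), (9, 3), (12, 3)], [(0, 4), (3, 3), (4, 3), (7, 4)], [(0, 3), (3, 2), (4, 2),
      (7, 3)], [(11, 2)], [(8, 2)], [(0, 3), (3, 2), (4, 2), (7, 3)], [(0, 4), (3, 3), (4, 3), (7,
      4)], [(1, 4), (6, 4), (9, 3), (12, 3)], [(1, 3), (6, 3), (9, 2), (12, 2)], [(5, 2)], [(2,
      2)], [(10, 2), (13, 2)], [(10, 2), (13, 2)], [(1, 3), (6, 3), (9, 2), (12, 2)]]
  []
  .nil)
 (.lp .none [4, 2, 2, 4, 2, 2, 2] [] [-2, -2, -1, -1, -1, -1, -2, -2, -1, -1, -1, -1, -1, -1] 8 5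
  [[(1, 4), (6, 4), (9, 3), (12, 3)], [(0, 4), (3, 3), (4, 3), (7, 4)], [(0, 3), (3, 2), (4, 2),
      (7, 3)], [(8, 2)], [(11, 2)], [(0, 3), (3, 2), (4, 2), (7, 3)], [(0, 4), (3, 3), (4, 3), (7,
      4)], [(1, 4), (6, 4), (9, 3), (12, 3)], [(1, 3), (6, 3), (9, 2), (12, 2)], [(2, 2)], [(5,
      2)], [(10, 2), (13, 2)], [(10, 2), (13, 2)], [(1, 3), (6, 3), (9, 2), (12, 2)]]
  []
  .nil)

/-- classes `0 1 0 2 1 3 2`, active pairs `1-2` -/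
def trS7_35 : Tr2 :=
  .splitT 3
 (.lp .none [2, 4, 4, 2, 2, 2, 2] [] [-1, -1, -2, -2, -2, -2, -1, -1, -1, -1, -1, -1, -1, -1] 8 5
  [[(1, 2), (6, 2), (9, 2), (12, 2)], [(0, 2), (3, 3), (4, 3), (7, 2)], [(0, 3), (3, 4), (4, 4),
      (7, 3)], [(2, 4), (5, 4), (8, 3), (11, 3)], [(2, 4), (5, 4), (8, 3), (11, 3)], [(0, 3), (3,
      4), (4, 4), (7, 3)], [(0, 2), (3, 3), (4, 3), (7, 2)], [(1, 2), (6, 2), (9, 2), (12, 2)],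
      [(1, 2), (6, 2), (9, 2), (12, 2)], [(2, 3), (5, 3), (8, 2), (11, 2)], [(2, 3), (5, 3), (8,
      2), (11, 2)], [(10, 2), (13, 2)], [(10, 2), (13, 2)], [(1, 2), (6, 2), (9, 2), (12, 2)]]
  [[0, 0, 0, 0, 1, 1, 1]]
  (.cons (.leafM 0 [0, 3, 4, 5, 6] [(1, [-1, -1, 1])])
  .nil))
 (.lp .none [2, 6, 2, 2, 2, 2, 2] [] [-1, -1, -3, -3, -1, -1, -1, -1, -1, -1, -1, -1, -1, -1] 8 5
  [[(6, 2)], [(0, 2), (3, 4), (4, 2), (7, 2)], [(0, 4), (3, 6), (4, 4), (7, 4)], [(2, 6), (5, 4),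
      (8, 4), (11, 4)], [(2, 4), (5, 2), (8, 2), (11, 2)], [(0, 2), (3, 4), (4, 2), (7, 2)], [(0,
      2), (3, 4), (4, 2), (7, 2)], [(1, 2)], [(12, 2)], [(2, 4), (5, 2), (8, 2), (11, 2)], [(2, 4),
      (5, 2), (8, 2), (11, 2)], [(10, 2), (13, 2)], [(10, 2), (13, 2)], [(9, 2)]]
  [[0, 0, 0, 0, 1, 1, 1]]
  (.cons (.leafM 1 [6, 0, 3, 4, 5] [(1, [-1, -1, 1])])
  .nil))
 (.lp .none [2, 4, 4, 2, 2, 2, 2] [] [-1, -1, -2, -2, -2, -2, -1, -1, -1, -1, -1, -1, -1, -1] 8 5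
  [[(9, 2)], [(0, 2), (3, 3), (4, 3), (7, 2)], [(0, 3), (3, 4), (4, 4), (7, 3)], [(2, 4), (5, 4),
      (8, 3), (11, 3)], [(2, 4), (5, 4), (8, 3), (11, 3)], [(0, 3), (3, 4), (4, 4), (7, 3)], [(0,
      2), (3, 3), (4, 3), (7, 2)], [(12, 2)], [(1, 2)], [(2, 3), (5, 3), (8, 2), (11, 2)], [(2, 3),
      (5, 3), (8, 2), (11, 2)], [(10, 2), (13, 2)], [(10, 2), (13, 2)], [(6, 2)]]
  []
  .nil)

/-- classes `0 1 0 2 1 3 4`, active pairs `1-2` -/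
def trS7_36 : Tr2 :=
  .lp .none [2, 4, 4, 2, 2, 2, 2] [] [-1, -1, -2, -2, -2, -2, -1, -1, -1, -1, -1, -1, -1, -1] 8 5
 [[(1, 2), (12, 2)], [(0, 2), (3, 3), (4, 3), (7, 2)], [(0, 3), (3, 4), (4, 4), (7, 3)], [(2, 4),
      (5, 4), (8, 3), (11, 3)], [(2, 4), (5, 4), (8, 3), (11, 3)], [(0, 3), (3, 4), (4, 4), (7,
      3)], [(0, 2), (3, 3), (4, 3), (7, 2)], [(6, 2), (9, 2)], [(6, 2), (9, 2)], [(2, 3), (5, 3),
      (8, 2), (11, 2)], [(2, 3), (5, 3), (8, 2), (11, 2)], [(10, 2), (13, 2)], [(10, 2), (13, 2)],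
      [(1, 2), (12, 2)]]
 []
 .nil

/-- classes `0 1 0 2 3 1 2`, active pairs `0-3` -/
def trS7_37 : Tr2 :=
  .splitT 1
 (.lp .none [4, 2, 2, 4, 2, 2, 2] [] [-2, -2, -1, -1, -1, -1, -2, -2, -1, -1, -1, -1, -1, -1] 8 5
  [[(1, 4), (6, 4), (9, 3), (12, 3)], [(0, 4), (3, 3), (4, 3), (7, 4)], [(0, 3), (3, 2), (4, 2),
      (7, 3)], [(2, 2), (5, 2), (10, 2), (13, 2)], [(2, 2), (5, 2), (10, 2), (13, 2)], [(0, 3), (3,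
      2), (4, 2), (7, 3)], [(0, 4), (3, 3), (4, 3), (7, 4)], [(1, 4), (6, 4), (9, 3), (12, 3)],
      [(1, 3), (6, 3), (9, 2), (12, 2)], [(8, 2), (11, 2)], [(8, 2), (11, 2)], [(2, 2), (5, 2),
      (10, 2), (13, 2)], [(2, 2), (5, 2), (10, 2), (13, 2)], [(1, 3), (6, 3), (9, 2), (12, 2)]]
  [[0, 0, 0, 0, 1, 1, 1]]
  (.cons (.leafM 1 [6, 1, 2, 4, 5] [(1, [-1, -1, 1])])
  .nil))
 (.lp .none [4, 2, 2, 4, 2, 2, 2] [] [-2, -2, -1, -1, -1, -1, -2, -2, -1, -1, -1, -1, -1, -1] 8 5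
  [[(1, 4), (6, 4), (9, 3), (12, 3)], [(0, 4), (3, 3), (4, 3), (7, 4)], [(0, 3), (3, 2), (4, 2),
      (7, 3)], [(13, 2)], [(10, 2)], [(0, 3), (3, 2), (4, 2), (7, 3)], [(0, 4), (3, 3), (4, 3), (7,
      4)], [(1, 4), (6, 4), (9, 3), (12, 3)], [(1, 3), (6, 3), (9, 2), (12, 2)], [(8, 2), (11, 2)],
      [(8, 2), (11, 2)], [(5, 2)], [(2, 2)], [(1, 3), (6, 3), (9, 2), (12, 2)]]
  []
  .nil)
 (.lp .none [4, 2, 2, 4, 2, 2, 2] [] [-2, -2, -1, -1, -1, -1, -2, -2, -1, -1, -1, -1, -1, -1] 8 5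
  [[(1, 4), (6, 4), (9, 3), (12, 3)], [(0, 4), (3, 3), (4, 3), (7, 4)], [(0, 3), (3, 2), (4, 2),
      (7, 3)], [(10, 2)], [(13, 2)], [(0, 3), (3, 2), (4, 2), (7, 3)], [(0, 4), (3, 3), (4, 3), (7,
      4)], [(1, 4), (6, 4), (9, 3), (12, 3)], [(1, 3), (6, 3), (9, 2), (12, 2)], [(8, 2), (11, 2)],
      [(8, 2), (11, 2)], [(2, 2)], [(5, 2)], [(1, 3), (6, 3), (9, 2), (12, 2)]]
  []
  .nil)

/-- classes `0 1 0 2 3 1 2`, active pairs `1-2` -/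
def trS7_38 : Tr2 :=
  .splitT 3
 (.lp .none [2, 4, 4, 2, 2, 2, 2] [] [-1, -1, -2, -2, -2, -2, -1, -1, -1, -1, -1, -1, -1, -1] 8 5
  [[(1, 2), (6, 2), (9, 2), (12, 2)], [(0, 2), (3, 3), (4, 3), (7, 2)], [(0, 3), (3, 4), (4, 4),
      (7, 3)], [(2, 4), (5, 4), (10, 3), (13, 3)], [(2, 4), (5, 4), (10, 3), (13, 3)], [(0, 3), (3,
      4), (4, 4), (7, 3)], [(0, 2), (3, 3), (4, 3), (7, 2)], [(1, 2), (6, 2), (9, 2), (12, 2)],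
      [(1, 2), (6, 2), (9, 2), (12, 2)], [(8, 2), (11, 2)], [(8, 2), (11, 2)], [(2, 3), (5, 3),
      (10, 2), (13, 2)], [(2, 3), (5, 3), (10, 2), (13, 2)], [(1, 2), (6, 2), (9, 2), (12, 2)]]
  [[0, 0, 0, 0, 1, 1, 1]]
  (.cons (.leafM 0 [0, 3, 4, 5, 6] [(1, [-1, -1, 1])])
  .nil))
 (.lp .none [2, 6, 2, 2, 2, 2, 2] [] [-1, -1, -3, -3, -1, -1, -1, -1, -1, -1, -1, -1, -1, -1] 8 5
  [[(6, 2)], [(0, 2), (3, 4), (4, 2), (7, 2)], [(0, 4), (3, 6), (4, 4), (7, 4)], [(2, 6), (5, 4),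
      (10, 4), (13, 4)], [(2, 4), (5, 2), (10, 2), (13, 2)], [(0, 2), (3, 4), (4, 2), (7, 2)], [(0,
      2), (3, 4), (4, 2), (7, 2)], [(1, 2)], [(12, 2)], [(8, 2), (11, 2)], [(8, 2), (11, 2)], [(2,
      4), (5, 2), (10, 2), (13, 2)], [(2, 4), (5, 2), (10, 2), (13, 2)], [(9, 2)]]
  [[0, 0, 0, 0, 1, 1, 1]]
  (.cons (.leafM 1 [6, 0, 3, 4, 5] [(1, [-1, -1, 1])])
  .nil))
 (.lp .none [2, 4, 4, 2, 2, 2, 2] [] [-1, -1, -2, -2, -2, -2, -1, -1, -1, -1, -1, -1, -1, -1] 8 5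
  [[(9, 2)], [(0, 2), (3, 3), (4, 3), (7, 2)], [(0, 3), (3, 4), (4, 4), (7, 3)], [(2, 4), (5, 4),
      (10, 3), (13, 3)], [(2, 4), (5, 4), (10, 3), (13, 3)], [(0, 3), (3, 4), (4, 4), (7, 3)], [(0,
      2), (3, 3), (4, 3), (7, 2)], [(12, 2)], [(1, 2)], [(8, 2), (11, 2)], [(8, 2), (11, 2)], [(2,
      3), (5, 3), (10, 2), (13, 2)], [(2, 3), (5, 3), (10, 2), (13, 2)], [(6, 2)]]
  []
  .nil)

/-- classes `0 1 0 2 3 1 4`, active pairs `1-2` -/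
def trS7_39 : Tr2 :=
  .lp .none [2, 4, 4, 2, 2, 2, 2] [] [-1, -1, -2, -2, -2, -2, -1, -1, -1, -1, -1, -1, -1, -1] 8 5
 [[(1, 2), (12, 2)], [(0, 2), (3, 3), (4, 3), (7, 2)], [(0, 3), (3, 4), (4, 4), (7, 3)], [(2, 4),
      (5, 4), (10, 3), (13, 3)], [(2, 4), (5, 4), (10, 3), (13, 3)], [(0, 3), (3, 4), (4, 4), (7,
      3)], [(0, 2), (3, 3), (4, 3), (7, 2)], [(6, 2), (9, 2)], [(6, 2), (9, 2)], [(8, 2), (11, 2)],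
      [(8, 2), (11, 2)], [(2, 3), (5, 3), (10, 2), (13, 2)], [(2, 3), (5, 3), (10, 2), (13, 2)],
      [(1, 2), (12, 2)]]
 []
 .nil

/-- classes `0 1 0 2 3 4 2`, active pairs `0-3` -/
def trS7_40 : Tr2 :=
  .lp .none [6, 2, 2, 2, 2, 2, 2] [] [-3, -3, -1, -1, -1, -1, -1, -1, -1, -1, -1, -1, -1, -1] 8 5
 [[(1, 6), (6, 4), (9, 4), (12, 4)], [(0, 6), (3, 4), (4, 4), (7, 4)], [(0, 4), (3, 2), (4, 2), (7,
      2)], [(2, 2), (5, 2)], [(2, 2), (5, 2)], [(0, 4), (3, 2), (4, 2), (7, 2)], [(0, 4), (3, 2),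
      (4, 2), (7, 2)], [(1, 4), (6, 2), (9, 2), (12, 2)], [(1, 4), (6, 2), (9, 2), (12, 2)], [(8,
      2), (11, 2)], [(8, 2), (11, 2)], [(10, 2), (13, 2)], [(10, 2), (13, 2)], [(1, 4), (6, 2), (9,
      2), (12, 2)]]
 [[0, 0, 0, 0, 1, 1, 1]]
 (.cons (.leafM 1 [6, 1, 2, 4, 5] [(1, [-1, -1, 1])])
 .nil)

/-- classes `0 1 2 0 1 2 3`, active pairs `1-4` -/
def trS7_41 : Tr2 :=
  .splitT 2
 (.lp .none [2, 4, 2, 2, 4, 2, 2] [] [-1, -1, -2, -2, -1, -1, -1, -1, -2, -2, -1, -1, -1, -1] 8 5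
  [[(1, 2), (12, 2)], [(0, 2), (3, 3), (6, 2), (9, 3)], [(0, 3), (3, 4), (6, 3), (9, 4)], [(2, 4),
      (5, 3), (8, 4), (11, 3)], [(2, 3), (5, 2), (8, 3), (11, 2)], [(4, 2), (7, 2), (10, 2), (13,
      2)], [(4, 2), (7, 2), (10, 2), (13, 2)], [(0, 2), (3, 3), (6, 2), (9, 3)], [(0, 3), (3, 4),
      (6, 3), (9, 4)], [(2, 4), (5, 3), (8, 4), (11, 3)], [(2, 3), (5, 2), (8, 3), (11, 2)], [(4,
      2), (7, 2), (10, 2), (13, 2)], [(4, 2), (7, 2), (10, 2), (13, 2)], [(1, 2), (12, 2)]]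
  [[1, 0, 0, 1, 0, 0, 1]]
  (.cons (.leafM 2 [0, 2, 3, 5, 6] [(1, [-1, -1, 1])])
  .nil))
 (.lp .none [2, 4, 2, 2, 4, 2, 2] [] [-1, -1, -2, -2, -1, -1, -1, -1, -2, -2, -1, -1, -1, -1] 8 5
  [[(1, 2), (12, 2)], [(0, 2), (3, 3), (6, 2), (9, 3)], [(0, 3), (3, 4), (6, 3), (9, 4)], [(2, 4),
      (5, 3), (8, 4), (11, 3)], [(2, 3), (5, 2), (8, 3), (11, 2)], [(13, 2)], [(10, 2)], [(0, 2),
      (3, 3), (6, 2), (9, 3)], [(0, 3), (3, 4), (6, 3), (9, 4)], [(2, 4), (5, 3), (8, 4), (11, 3)],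
      [(2, 3), (5, 2), (8, 3), (11, 2)], [(7, 2)], [(4, 2)], [(1, 2), (12, 2)]]
  []
  .nil)
 (.lp .none [2, 6, 2, 2, 2, 2, 2] [] [-1, -1, -3, -3, -1, -1, -1, -1, -1, -1, -1, -1, -1, -1] 8 5
  [[(1, 2), (12, 2)], [(0, 2), (3, 4), (6, 2), (9, 2)], [(0, 4), (3, 6), (6, 4), (9, 4)], [(2, 6),
      (5, 4), (8, 4), (11, 4)], [(2, 4), (5, 2), (8, 2), (11, 2)], [(10, 2)], [(13, 2)], [(0, 2),
      (3, 4), (6, 2), (9, 2)], [(0, 2), (3, 4), (6, 2), (9, 2)], [(2, 4), (5, 2), (8, 2), (11, 2)],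
      [(2, 4), (5, 2), (8, 2), (11, 2)], [(4, 2)], [(7, 2)], [(1, 2), (12, 2)]]
  [[1, 0, 0, 1, 0, 0, 1]]
  (.cons (.leafM 2 [0, 2, 3, 5, 6] [(1, [-1, -1, 1])])
  .nil))

/-- classes `0 1 2 0 1 2 3`, active pairs `2-5` -/
def trS7_42 : Tr2 :=
  .splitT 0
 (.lp .none [2, 2, 4, 2, 2, 4, 2] [] [-1, -1, -1, -1, -2, -2, -1, -1, -1, -1, -2, -2, -1, -1] 8 5
  [[(1, 2), (12, 2)], [(0, 2), (3, 2), (6, 2), (9, 2)], [(0, 2), (3, 2), (6, 2), (9, 2)], [(2, 2),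
      (5, 3), (8, 2), (11, 3)], [(2, 3), (5, 4), (8, 3), (11, 4)], [(4, 4), (7, 3), (10, 4), (13,
      3)], [(4, 3), (7, 2), (10, 3), (13, 2)], [(0, 2), (3, 2), (6, 2), (9, 2)], [(0, 2), (3, 2),
      (6, 2), (9, 2)], [(2, 2), (5, 3), (8, 2), (11, 3)], [(2, 3), (5, 4), (8, 3), (11, 4)], [(4,
      4), (7, 3), (10, 4), (13, 3)], [(4, 3), (7, 2), (10, 3), (13, 2)], [(1, 2), (12, 2)]]
  [[1, 0, 0, 1, 0, 0, 1]]
  (.cons (.leafM 2 [0, 1, 3, 4, 6] [(1, [-1, -1, 1])])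
  .nil))
 (.lp .none [2, 2, 4, 2, 2, 4, 2] [] [-1, -1, -1, -1, -2, -2, -1, -1, -1, -1, -2, -2, -1, -1] 8 5
  [[(1, 2), (12, 2)], [(9, 2)], [(6, 2)], [(2, 2), (5, 3), (8, 2), (11, 3)], [(2, 3), (5, 4), (8,
      3), (11, 4)], [(4, 4), (7, 3), (10, 4), (13, 3)], [(4, 3), (7, 2), (10, 3), (13, 2)], [(3,
      2)], [(0, 2)], [(2, 2), (5, 3), (8, 2), (11, 3)], [(2, 3), (5, 4), (8, 3), (11, 4)], [(4, 4),
      (7, 3), (10, 4), (13, 3)], [(4, 3), (7, 2), (10, 3), (13, 2)], [(1, 2), (12, 2)]]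
  []
  .nil)
 (.lp .none [2, 2, 2, 2, 2, 6, 2] [] [-1, -1, -1, -1, -1, -1, -1, -1, -1, -1, -3, -3, -1, -1] 8 5
  [[(1, 2), (12, 2)], [(6, 2)], [(9, 2)], [(2, 2), (5, 2), (8, 2), (11, 4)], [(2, 2), (5, 2), (8,
      2), (11, 4)], [(4, 2), (7, 2), (10, 4), (13, 2)], [(4, 2), (7, 2), (10, 4), (13, 2)], [(0,
      2)], [(3, 2)], [(2, 2), (5, 2), (8, 2), (11, 4)], [(2, 4), (5, 4), (8, 4), (11, 6)], [(4, 4),
      (7, 4), (10, 6), (13, 4)], [(4, 2), (7, 2), (10, 4), (13, 2)], [(1, 2), (12, 2)]]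
  [[1, 0, 0, 1, 0, 0, 1]]
  (.cons (.leafM 2 [0, 1, 3, 4, 6] [(1, [-1, -1, 1])])
  .nil))

/-- classes `0 1 2 0 1 3 4`, active pairs `1-4` -/
def trS7_43 : Tr2 :=
  .lp .none [2, 4, 2, 2, 4, 2, 2] [] [-1, -1, -2, -2, -1, -1, -1, -1, -2, -2, -1, -1, -1, -1] 8 5
 [[(1, 2), (12, 2)], [(0, 2), (3, 3), (6, 2), (9, 3)], [(0, 3), (3, 4), (6, 3), (9, 4)], [(2, 4),
      (5, 3), (8, 4), (11, 3)], [(2, 3), (5, 2), (8, 3), (11, 2)], [(4, 2), (7, 2)], [(4, 2), (7,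
      2)], [(0, 2), (3, 3), (6, 2), (9, 3)], [(0, 3), (3, 4), (6, 3), (9, 4)], [(2, 4), (5, 3), (8,
      4), (11, 3)], [(2, 3), (5, 2), (8, 3), (11, 2)], [(10, 2), (13, 2)], [(10, 2), (13, 2)], [(1,
      2), (12, 2)]]
 []
 .nil

/-- the trees for `7` marks -/
def trS7 (q : Fin 44) : Tr2 :=
  ([trS7_0, trS7_1, trS7_2, trS7_3, trS7_4, trS7_5, trS7_6, trS7_7, trS7_8, trS7_9, trS7_10,
      trS7_11, trS7_12, trS7_13, trS7_14, trS7_15, trS7_16, trS7_17, trS7_18, trS7_19,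
      trS7_20, trS7_21, trS7_22, trS7_23, trS7_24, trS7_25, trS7_26, trS7_27, trS7_28,
      trS7_29, trS7_30, trS7_31, trS7_32, trS7_33, trS7_34, trS7_35, trS7_36, trS7_37,
      trS7_38, trS7_39, trS7_40, trS7_41, trS7_42, trS7_43] : List Tr2).getD q.val Tr2.nil

private theorem okS7_0 : ∀ q : Fin 44, q.val / 8 = 0 → chkR (canS7 q) (actS7 q) schN (trS7 q) = true := by
  decide +kernel

private theorem okS7_1 : ∀ q : Fin 44, q.val / 8 = 1 → chkR (canS7 q) (actS7 q) schN (trS7 q) = true := by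
  decide +kernel

private theorem okS7_2 : ∀ q : Fin 44, q.val / 8 = 2 → chkR (canS7 q) (actS7 q) schN (trS7 q) = true := by
  decide +kernel

private theorem okS7_3 : ∀ q : Fin 44, q.val / 8 = 3 → chkR (canS7 q) (actS7 q) schN (trS7 q) = true := by
  decide +kernel

private theorem okS7_4 : ∀ q : Fin 44, q.val / 8 = 4 → chkR (canS7 q) (actS7 q) schN (trS7 q) = true := by
  decide +kernel

private theorem okS7_5 : ∀ q : Fin 44, q.val / 8 = 5 → chkR (canS7 q) (actS7 q) schN (trS7 q) = true := by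
  decide +kernel

theorem okS7 : ∀ q : Fin 44, chkR (canS7 q) (actS7 q) schN (trS7 q) = true := by
  intro q
  have hq : q.val / 8 < 6 := by omega
  have h : q.val / 8 = 0 ∨ q.val / 8 = 1 ∨ q.val / 8 = 2 ∨ q.val / 8 = 3 ∨ q.val / 8 = 4 ∨ q.val / 8 = 5 := by omega
  rcases h with h | h | h | h | h | h
  · exact okS7_0 q h
  · exact okS7_1 q h
  · exact okS7_2 q h
  · exact okS7_3 q h
  · exact okS7_4 q h
  · exact okS7_5 q h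

end Pool.Agent.Lib_MP_fa6e45
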