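import Pool.Agent.Lib_MP_fa6e45.ZT0

/-!
MP_fa6e45_co, stage 3: certificate trees for the patterns with 8 marked corners (generated).
-/

namespace Pool.Agent.Lib_MP_fa6e45

/-- classes `0 0 1 1 2 3 2 3`, active pairs `5-6 5-7` -/
def trS8_0 : Tr2 :=
  .splitT 0
 (.splitT 2
  (.lp .none [8, 8, 8, 8, 6, 18, 6, 6] [(8, 9, -4)] [-4, -4, -4, -4, -4, -4, -4, -4, -3, -3, -9,
      -9, -3, -3, -3, -3] 24 5
   [[(1, 8), (10, 13), (13, 7), (14, 7)], [(0, 8), (2, 8), (3, 8), (5, 8)], [(0, 8), (2, 8), (3,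
      8), (5, 8)], [(0, 8), (2, 8), (3, 8), (5, 8)], [(0, 8), (2, 8), (3, 8), (5, 8)], [(4, 8), (6,
      8), (7, 8), (9, 7)], [(4, 8), (6, 8), (7, 8), (9, 7)], [(4, 8), (6, 8), (7, 8), (9, 7)], [(4,
      7), (6, 7), (7, 7), (9, 6)], [(8, 10), (11, 12), (12, 6), (15, 6)], [(8, 12), (11, 14), (12,
      12), (15, 12)], [(1, 13), (10, 18), (13, 12), (14, 12)], [(1, 7), (10, 12), (13, 6), (14,
      6)], [(8, 6), (11, 12), (12, 6), (15, 6)], [(8, 6), (11, 12), (12, 6), (15, 6)], [(1, 7),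
      (10, 12), (13, 6), (14, 6)]]
   []
   .nil)
  (.lp .none [8, 8, 6, 8, 6, 18, 6, 6] [] [-4, -4, -4, -4, -3, -3, -4, -4, -3, -3, -9, -9, -3, -3,
      -3, -3] 24 5
   [[(1, 8), (10, 13), (13, 7), (14, 7)], [(0, 8), (2, 8), (3, 8), (5, 7)], [(0, 8), (2, 8), (3,
      8), (5, 7)], [(0, 8), (2, 8), (3, 8), (5, 7)], [(0, 7), (2, 7), (3, 7), (5, 6)], [(9, 6)],
      [(6, 8)], [(7, 8)], [(4, 6)], [(8, 6), (11, 12), (12, 6), (15, 6)], [(8, 12), (11, 18), (12,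
      12), (15, 12)], [(1, 13), (10, 18), (13, 12), (14, 12)], [(1, 7), (10, 12), (13, 6), (14,
      6)], [(8, 6), (11, 12), (12, 6), (15, 6)], [(8, 6), (11, 12), (12, 6), (15, 6)], [(1, 7),
      (10, 12), (13, 6), (14, 6)]]
   []
   .nil)
  (.lp .none [8, 8, 6, 6, 6, 18, 6, 6] [] [-4, -4, -4, -4, -3, -3, -3, -3, -3, -3, -9, -9, -3, -3,
      -3, -3] 24 5
   [[(1, 8), (10, 13), (13, 7), (14, 7)], [(0, 8), (2, 8), (3, 8), (5, 7)], [(0, 8), (2, 8), (3,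
      8), (5, 7)], [(0, 8), (2, 8), (3, 8), (5, 7)], [(0, 7), (2, 7), (3, 7), (5, 6)], [(6, 6)],
      [(9, 6)], [(4, 6)], [(7, 6)], [(8, 6), (11, 12), (12, 6), (15, 6)], [(8, 12), (11, 18), (12,
      12), (15, 12)], [(1, 13), (10, 18), (13, 12), (14, 12)], [(1, 7), (10, 12), (13, 6), (14,
      6)], [(8, 6), (11, 12), (12, 6), (15, 6)], [(8, 6), (11, 12), (12, 6), (15, 6)], [(1, 7),
      (10, 12), (13, 6), (14, 6)]]
   []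
   .nil))
 (.splitT 2
  (.lp .none [6, 8, 6, 8, 8, 18, 6, 6] [] [-3, -3, -4, -4, -3, -3, -4, -4, -4, -4, -9, -9, -3, -3,
      -3, -3] 24 5
   [[(1, 6), (10, 12), (13, 6), (14, 6)], [(5, 6)], [(2, 8)], [(3, 8)], [(0, 6)], [(4, 6), (6, 7),
      (7, 7), (9, 7)], [(4, 7), (6, 8), (7, 8), (9, 8)], [(4, 7), (6, 8), (7, 8), (9, 8)], [(4, 7),
      (6, 8), (7, 8), (9, 8)], [(8, 8), (11, 13), (12, 7), (15, 7)], [(8, 13), (11, 18), (12, 12),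
      (15, 12)], [(1, 12), (10, 18), (13, 12), (14, 12)], [(1, 6), (10, 12), (13, 6), (14, 6)],
      [(8, 7), (11, 12), (12, 6), (15, 6)], [(8, 7), (11, 12), (12, 6), (15, 6)], [(1, 6), (10,
      12), (13, 6), (14, 6)]]
   []
   .nil)
  (.lp .none [6, 8, 6, 8, 6, 18, 6, 6] [] [-3, -3, -4, -4, -3, -3, -4, -4, -3, -3, -9, -9, -3, -3,
      -3, -3] 24 5
   [[(1, 6), (10, 12), (13, 6), (14, 6)], [(5, 6)], [(2, 8)], [(3, 8)], [(0, 6)], [(9, 6)], [(6,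
      8)], [(7, 8)], [(4, 6)], [(8, 6), (11, 12), (12, 6), (15, 6)], [(8, 12), (11, 18), (12, 12),
      (15, 12)], [(1, 12), (10, 18), (13, 12), (14, 12)], [(1, 6), (10, 12), (13, 6), (14, 6)],
      [(8, 6), (11, 12), (12, 6), (15, 6)], [(8, 6), (11, 12), (12, 6), (15, 6)], [(1, 6), (10,
      12), (13, 6), (14, 6)]]
   []
   .nil)
  (.lp .none [6, 8, 6, 6, 6, 18, 6, 6] [] [-3, -3, -4, -4, -3, -3, -3, -3, -3, -3, -9, -9, -3, -3,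
      -3, -3] 24 5
   [[(1, 6), (10, 12), (13, 6), (14, 6)], [(5, 6)], [(2, 8)], [(3, 8)], [(0, 6)], [(6, 6)], [(9,
      6)], [(4, 6)], [(7, 6)], [(8, 6), (11, 12), (12, 6), (15, 6)], [(8, 12), (11, 18), (12, 12),
      (15, 12)], [(1, 12), (10, 18), (13, 12), (14, 12)], [(1, 6), (10, 12), (13, 6), (14, 6)],
      [(8, 6), (11, 12), (12, 6), (15, 6)], [(8, 6), (11, 12), (12, 6), (15, 6)], [(1, 6), (10,
      12), (13, 6), (14, 6)]]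
   []
   .nil))
 (.splitT 2
  (.lp .none [6, 6, 6, 8, 8, 18, 6, 6] [] [-3, -3, -3, -3, -3, -3, -4, -4, -4, -4, -9, -9, -3, -3,
      -3, -3] 24 5
   [[(1, 6), (10, 12), (13, 6), (14, 6)], [(2, 6)], [(5, 6)], [(0, 6)], [(3, 6)], [(4, 6), (6, 7),
      (7, 7), (9, 7)], [(4, 7), (6, 8), (7, 8), (9, 8)], [(4, 7), (6, 8), (7, 8), (9, 8)], [(4, 7),
      (6, 8), (7, 8), (9, 8)], [(8, 8), (11, 13), (12, 7), (15, 7)], [(8, 13), (11, 18), (12, 12),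
      (15, 12)], [(1, 12), (10, 18), (13, 12), (14, 12)], [(1, 6), (10, 12), (13, 6), (14, 6)],
      [(8, 7), (11, 12), (12, 6), (15, 6)], [(8, 7), (11, 12), (12, 6), (15, 6)], [(1, 6), (10,
      12), (13, 6), (14, 6)]]
   []
   .nil)
  (.lp .none [6, 6, 6, 8, 6, 18, 6, 6] [] [-3, -3, -3, -3, -3, -3, -4, -4, -3, -3, -9, -9, -3, -3,
      -3, -3] 24 5
   [[(1, 6), (10, 12), (13, 6), (14, 6)], [(2, 6)], [(5, 6)], [(0, 6)], [(3, 6)], [(9, 6)], [(6,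
      8)], [(7, 8)], [(4, 6)], [(8, 6), (11, 12), (12, 6), (15, 6)], [(8, 12), (11, 18), (12, 12),
      (15, 12)], [(1, 12), (10, 18), (13, 12), (14, 12)], [(1, 6), (10, 12), (13, 6), (14, 6)],
      [(8, 6), (11, 12), (12, 6), (15, 6)], [(8, 6), (11, 12), (12, 6), (15, 6)], [(1, 6), (10,
      12), (13, 6), (14, 6)]]
   []
   .nil)
  (.lp .none [2, 2, 2, 2, 2, 6, 2, 2] [] [-1, -1, -1, -1, -1, -1, -1, -1, -1, -1, -3, -3, -1, -1,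
      -1, -1] 8 5
   [[(1, 2), (10, 4), (13, 2), (14, 2)], [(2, 2)], [(5, 2)], [(0, 2)], [(3, 2)], [(6, 2)], [(9,
      2)], [(4, 2)], [(7, 2)], [(8, 2), (11, 4), (12, 2), (15, 2)], [(8, 4), (11, 6), (12, 4), (15,
      4)], [(1, 4), (10, 6), (13, 4), (14, 4)], [(1, 2), (10, 4), (13, 2), (14, 2)], [(8, 2), (11,
      4), (12, 2), (15, 2)], [(8, 2), (11, 4), (12, 2), (15, 2)], [(1, 2), (10, 4), (13, 2), (14,
      2)]]
   []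
   .nil))

/-- classes `0 0 1 1 2 3 2 3`, active pairs `5-6 6-7` -/
def trS8_1 : Tr2 :=
  .splitT 0
 (.splitT 2
  (.lp .none [8, 8, 8, 8, 8, 6, 16, 6] [(8, 12, 2), (13, 9, 2), (10, 14, 2), (15, 11, 2)] [-3, -5,
      -4, -4, -4, -4, -4, -4, -5, -3, -3, -3, -8, -8, -3, -3] 24 5
   [[(1, 10), (10, 6), (13, 13), (14, 8)], [(0, 6), (2, 7), (3, 7), (5, 7)], [(0, 7), (2, 8), (3,
      8), (5, 8)], [(0, 7), (2, 8), (3, 8), (5, 8)], [(0, 7), (2, 8), (3, 8), (5, 8)], [(4, 8), (6,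
      8), (7, 8), (9, 7)], [(4, 8), (6, 8), (7, 8), (9, 7)], [(4, 8), (6, 8), (7, 8), (9, 7)], [(4,
      7), (6, 7), (7, 7), (9, 6)], [(8, 10), (11, 8), (12, 13), (15, 6)], [(8, 8), (11, 6), (12,
      13), (15, 6)], [(1, 6), (10, 6), (13, 11), (14, 6)], [(1, 13), (10, 11), (13, 16), (14, 13)],
      [(8, 13), (11, 13), (12, 16), (15, 11)], [(8, 6), (11, 6), (12, 11), (15, 6)], [(1, 8), (10,
      6), (13, 13), (14, 6)]]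
   []
   .nil)
  (.lp .none [8, 8, 6, 8, 6, 6, 18, 6] [] [-4, -4, -4, -4, -3, -3, -4, -4, -3, -3, -3, -3, -9, -9,
      -3, -3] 24 5
   [[(1, 8), (10, 7), (13, 13), (14, 7)], [(0, 8), (2, 8), (3, 8), (5, 7)], [(0, 8), (2, 8), (3,
      8), (5, 7)], [(0, 8), (2, 8), (3, 8), (5, 7)], [(0, 7), (2, 7), (3, 7), (5, 6)], [(9, 6)],
      [(6, 8)], [(7, 8)], [(4, 6)], [(8, 6), (11, 6), (12, 12), (15, 6)], [(8, 6), (11, 6), (12,
      12), (15, 6)], [(1, 7), (10, 6), (13, 12), (14, 6)], [(1, 13), (10, 12), (13, 18), (14, 12)],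
      [(8, 12), (11, 12), (12, 18), (15, 12)], [(8, 6), (11, 6), (12, 12), (15, 6)], [(1, 7), (10,
      6), (13, 12), (14, 6)]]
   []
   .nil)
  (.lp .none [8, 8, 6, 6, 6, 6, 18, 6] [] [-4, -4, -4, -4, -3, -3, -3, -3, -3, -3, -3, -3, -9, -9,
      -3, -3] 24 5
   [[(1, 8), (10, 7), (13, 13), (14, 7)], [(0, 8), (2, 8), (3, 8), (5, 7)], [(0, 8), (2, 8), (3,
      8), (5, 7)], [(0, 8), (2, 8), (3, 8), (5, 7)], [(0, 7), (2, 7), (3, 7), (5, 6)], [(6, 6)],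
      [(9, 6)], [(4, 6)], [(7, 6)], [(8, 6), (11, 6), (12, 12), (15, 6)], [(8, 6), (11, 6), (12,
      12), (15, 6)], [(1, 7), (10, 6), (13, 12), (14, 6)], [(1, 13), (10, 12), (13, 18), (14, 12)],
      [(8, 12), (11, 12), (12, 18), (15, 12)], [(8, 6), (11, 6), (12, 12), (15, 6)], [(1, 7), (10,
      6), (13, 12), (14, 6)]]
   []
   .nil))
 (.splitT 2
  (.lp .none [6, 8, 6, 8, 8, 6, 18, 6] [] [-3, -3, -4, -4, -3, -3, -4, -4, -4, -4, -3, -3, -9, -9,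
      -3, -3] 24 5
   [[(1, 6), (10, 6), (13, 12), (14, 6)], [(5, 6)], [(2, 8)], [(3, 8)], [(0, 6)], [(4, 6), (6, 7),
      (7, 7), (9, 7)], [(4, 7), (6, 8), (7, 8), (9, 8)], [(4, 7), (6, 8), (7, 8), (9, 8)], [(4, 7),
      (6, 8), (7, 8), (9, 8)], [(8, 8), (11, 7), (12, 13), (15, 7)], [(8, 7), (11, 6), (12, 12),
      (15, 6)], [(1, 6), (10, 6), (13, 12), (14, 6)], [(1, 12), (10, 12), (13, 18), (14, 12)], [(8,
      13), (11, 12), (12, 18), (15, 12)], [(8, 7), (11, 6), (12, 12), (15, 6)], [(1, 6), (10, 6),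
      (13, 12), (14, 6)]]
   []
   .nil)
  (.lp .none [6, 8, 6, 8, 6, 6, 18, 6] [] [-3, -3, -4, -4, -3, -3, -4, -4, -3, -3, -3, -3, -9, -9,
      -3, -3] 24 5
   [[(1, 6), (10, 6), (13, 12), (14, 6)], [(5, 6)], [(2, 8)], [(3, 8)], [(0, 6)], [(9, 6)], [(6,
      8)], [(7, 8)], [(4, 6)], [(8, 6), (11, 6), (12, 12), (15, 6)], [(8, 6), (11, 6), (12, 12),
      (15, 6)], [(1, 6), (10, 6), (13, 12), (14, 6)], [(1, 12), (10, 12), (13, 18), (14, 12)], [(8,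
      12), (11, 12), (12, 18), (15, 12)], [(8, 6), (11, 6), (12, 12), (15, 6)], [(1, 6), (10, 6),
      (13, 12), (14, 6)]]
   []
   .nil)
  (.lp .none [6, 8, 6, 6, 6, 6, 18, 6] [] [-3, -3, -4, -4, -3, -3, -3, -3, -3, -3, -3, -3, -9, -9,
      -3, -3] 24 5
   [[(1, 6), (10, 6), (13, 12), (14, 6)], [(5, 6)], [(2, 8)], [(3, 8)], [(0, 6)], [(6, 6)], [(9,
      6)], [(4, 6)], [(7, 6)], [(8, 6), (11, 6), (12, 12), (15, 6)], [(8, 6), (11, 6), (12, 12),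
      (15, 6)], [(1, 6), (10, 6), (13, 12), (14, 6)], [(1, 12), (10, 12), (13, 18), (14, 12)], [(8,
      12), (11, 12), (12, 18), (15, 12)], [(8, 6), (11, 6), (12, 12), (15, 6)], [(1, 6), (10, 6),
      (13, 12), (14, 6)]]
   []
   .nil))
 (.splitT 2
  (.lp .none [6, 6, 6, 8, 8, 6, 18, 6] [] [-3, -3, -3, -3, -3, -3, -4, -4, -4, -4, -3, -3, -9, -9,
      -3, -3] 24 5
   [[(1, 6), (10, 6), (13, 12), (14, 6)], [(2, 6)], [(5, 6)], [(0, 6)], [(3, 6)], [(4, 6), (6, 7),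
      (7, 7), (9, 7)], [(4, 7), (6, 8), (7, 8), (9, 8)], [(4, 7), (6, 8), (7, 8), (9, 8)], [(4, 7),
      (6, 8), (7, 8), (9, 8)], [(8, 8), (11, 7), (12, 13), (15, 7)], [(8, 7), (11, 6), (12, 12),
      (15, 6)], [(1, 6), (10, 6), (13, 12), (14, 6)], [(1, 12), (10, 12), (13, 18), (14, 12)], [(8,
      13), (11, 12), (12, 18), (15, 12)], [(8, 7), (11, 6), (12, 12), (15, 6)], [(1, 6), (10, 6),
      (13, 12), (14, 6)]]
   []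
   .nil)
  (.lp .none [6, 6, 6, 8, 6, 6, 18, 6] [] [-3, -3, -3, -3, -3, -3, -4, -4, -3, -3, -3, -3, -9, -9,
      -3, -3] 24 5
   [[(1, 6), (10, 6), (13, 12), (14, 6)], [(2, 6)], [(5, 6)], [(0, 6)], [(3, 6)], [(9, 6)], [(6,
      8)], [(7, 8)], [(4, 6)], [(8, 6), (11, 6), (12, 12), (15, 6)], [(8, 6), (11, 6), (12, 12),
      (15, 6)], [(1, 6), (10, 6), (13, 12), (14, 6)], [(1, 12), (10, 12), (13, 18), (14, 12)], [(8,
      12), (11, 12), (12, 18), (15, 12)], [(8, 6), (11, 6), (12, 12), (15, 6)], [(1, 6), (10, 6),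
      (13, 12), (14, 6)]]
   []
   .nil)
  (.lp .none [2, 2, 2, 2, 2, 2, 6, 2] [] [-1, -1, -1, -1, -1, -1, -1, -1, -1, -1, -1, -1, -3, -3,
      -1, -1] 8 5
   [[(1, 2), (10, 2), (13, 4), (14, 2)], [(2, 2)], [(5, 2)], [(0, 2)], [(3, 2)], [(6, 2)], [(9,
      2)], [(4, 2)], [(7, 2)], [(8, 2), (11, 2), (12, 4), (15, 2)], [(8, 2), (11, 2), (12, 4), (15,
      2)], [(1, 2), (10, 2), (13, 4), (14, 2)], [(1, 4), (10, 4), (13, 6), (14, 4)], [(8, 4), (11,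
      4), (12, 6), (15, 4)], [(8, 2), (11, 2), (12, 4), (15, 2)], [(1, 2), (10, 2), (13, 4), (14,
      2)]]
   []
   .nil))

/-- classes `0 0 1 1 2 3 2 3`, active pairs `5-7 6-7` -/
def trS8_2 : Tr2 :=
  .splitT 0
 (.splitT 2
  (.lp .none [6, 8, 8, 8, 8, 6, 6, 18] [(14, 15, 4)] [-3, -3, -4, -4, -4, -4, -4, -4, -4, -4, -3,
      -3, -3, -3, -9, -9] 24 5
   [[(1, 10), (10, 6), (13, 6), (14, 12)], [(0, 6), (2, 7), (3, 7), (5, 7)], [(0, 7), (2, 8), (3,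
      8), (5, 8)], [(0, 7), (2, 8), (3, 8), (5, 8)], [(0, 7), (2, 8), (3, 8), (5, 8)], [(4, 8), (6,
      8), (7, 8), (9, 8)], [(4, 8), (6, 8), (7, 8), (9, 8)], [(4, 8), (6, 8), (7, 8), (9, 8)], [(4,
      8), (6, 8), (7, 8), (9, 8)], [(8, 8), (11, 7), (12, 7), (15, 13)], [(8, 7), (11, 6), (12, 6),
      (15, 12)], [(1, 6), (10, 6), (13, 6), (14, 12)], [(1, 6), (10, 6), (13, 6), (14, 12)], [(8,
      7), (11, 6), (12, 6), (15, 12)], [(8, 13), (11, 12), (12, 12), (15, 18)], [(1, 12), (10, 12),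
      (13, 12), (14, 14)]]
   []
   .nil)
  (.lp .none [8, 8, 6, 8, 6, 6, 6, 18] [] [-4, -4, -4, -4, -3, -3, -4, -4, -3, -3, -3, -3, -3, -3,
      -9, -9] 24 5
   [[(1, 8), (10, 7), (13, 7), (14, 13)], [(0, 8), (2, 8), (3, 8), (5, 7)], [(0, 8), (2, 8), (3,
      8), (5, 7)], [(0, 8), (2, 8), (3, 8), (5, 7)], [(0, 7), (2, 7), (3, 7), (5, 6)], [(9, 6)],
      [(6, 8)], [(7, 8)], [(4, 6)], [(8, 6), (11, 6), (12, 6), (15, 12)], [(8, 6), (11, 6), (12,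
      6), (15, 12)], [(1, 7), (10, 6), (13, 6), (14, 12)], [(1, 7), (10, 6), (13, 6), (14, 12)],
      [(8, 6), (11, 6), (12, 6), (15, 12)], [(8, 12), (11, 12), (12, 12), (15, 18)], [(1, 13), (10,
      12), (13, 12), (14, 18)]]
   []
   .nil)
  (.lp .none [8, 8, 6, 6, 6, 6, 6, 18] [] [-4, -4, -4, -4, -3, -3, -3, -3, -3, -3, -3, -3, -3, -3,
      -9, -9] 24 5
   [[(1, 8), (10, 7), (13, 7), (14, 13)], [(0, 8), (2, 8), (3, 8), (5, 7)], [(0, 8), (2, 8), (3,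
      8), (5, 7)], [(0, 8), (2, 8), (3, 8), (5, 7)], [(0, 7), (2, 7), (3, 7), (5, 6)], [(6, 6)],
      [(9, 6)], [(4, 6)], [(7, 6)], [(8, 6), (11, 6), (12, 6), (15, 12)], [(8, 6), (11, 6), (12,
      6), (15, 12)], [(1, 7), (10, 6), (13, 6), (14, 12)], [(1, 7), (10, 6), (13, 6), (14, 12)],
      [(8, 6), (11, 6), (12, 6), (15, 12)], [(8, 12), (11, 12), (12, 12), (15, 18)], [(1, 13), (10,
      12), (13, 12), (14, 18)]]
   []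
   .nil))
 (.splitT 2
  (.lp .none [6, 8, 6, 8, 8, 6, 6, 18] [] [-3, -3, -4, -4, -3, -3, -4, -4, -4, -4, -3, -3, -3, -3,
      -9, -9] 24 5
   [[(1, 6), (10, 6), (13, 6), (14, 12)], [(5, 6)], [(2, 8)], [(3, 8)], [(0, 6)], [(4, 6), (6, 7),
      (7, 7), (9, 7)], [(4, 7), (6, 8), (7, 8), (9, 8)], [(4, 7), (6, 8), (7, 8), (9, 8)], [(4, 7),
      (6, 8), (7, 8), (9, 8)], [(8, 8), (11, 7), (12, 7), (15, 13)], [(8, 7), (11, 6), (12, 6),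
      (15, 12)], [(1, 6), (10, 6), (13, 6), (14, 12)], [(1, 6), (10, 6), (13, 6), (14, 12)], [(8,
      7), (11, 6), (12, 6), (15, 12)], [(8, 13), (11, 12), (12, 12), (15, 18)], [(1, 12), (10, 12),
      (13, 12), (14, 18)]]
   []
   .nil)
  (.lp .none [6, 8, 6, 8, 6, 6, 6, 18] [] [-3, -3, -4, -4, -3, -3, -4, -4, -3, -3, -3, -3, -3, -3,
      -9, -9] 24 5
   [[(1, 6), (10, 6), (13, 6), (14, 12)], [(5, 6)], [(2, 8)], [(3, 8)], [(0, 6)], [(9, 6)], [(6,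
      8)], [(7, 8)], [(4, 6)], [(8, 6), (11, 6), (12, 6), (15, 12)], [(8, 6), (11, 6), (12, 6),
      (15, 12)], [(1, 6), (10, 6), (13, 6), (14, 12)], [(1, 6), (10, 6), (13, 6), (14, 12)], [(8,
      6), (11, 6), (12, 6), (15, 12)], [(8, 12), (11, 12), (12, 12), (15, 18)], [(1, 12), (10, 12),
      (13, 12), (14, 18)]]
   []
   .nil)
  (.lp .none [6, 8, 6, 6, 6, 6, 6, 18] [] [-3, -3, -4, -4, -3, -3, -3, -3, -3, -3, -3, -3, -3, -3,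
      -9, -9] 24 5
   [[(1, 6), (10, 6), (13, 6), (14, 12)], [(5, 6)], [(2, 8)], [(3, 8)], [(0, 6)], [(6, 6)], [(9,
      6)], [(4, 6)], [(7, 6)], [(8, 6), (11, 6), (12, 6), (15, 12)], [(8, 6), (11, 6), (12, 6),
      (15, 12)], [(1, 6), (10, 6), (13, 6), (14, 12)], [(1, 6), (10, 6), (13, 6), (14, 12)], [(8,
      6), (11, 6), (12, 6), (15, 12)], [(8, 12), (11, 12), (12, 12), (15, 18)], [(1, 12), (10, 12),
      (13, 12), (14, 18)]]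
   []
   .nil))
 (.splitT 2
  (.lp .none [6, 6, 6, 8, 8, 6, 6, 18] [] [-3, -3, -3, -3, -3, -3, -4, -4, -4, -4, -3, -3, -3, -3,
      -9, -9] 24 5
   [[(1, 6), (10, 6), (13, 6), (14, 12)], [(2, 6)], [(5, 6)], [(0, 6)], [(3, 6)], [(4, 6), (6, 7),
      (7, 7), (9, 7)], [(4, 7), (6, 8), (7, 8), (9, 8)], [(4, 7), (6, 8), (7, 8), (9, 8)], [(4, 7),
      (6, 8), (7, 8), (9, 8)], [(8, 8), (11, 7), (12, 7), (15, 13)], [(8, 7), (11, 6), (12, 6),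
      (15, 12)], [(1, 6), (10, 6), (13, 6), (14, 12)], [(1, 6), (10, 6), (13, 6), (14, 12)], [(8,
      7), (11, 6), (12, 6), (15, 12)], [(8, 13), (11, 12), (12, 12), (15, 18)], [(1, 12), (10, 12),
      (13, 12), (14, 18)]]
   []
   .nil)
  (.lp .none [6, 6, 6, 8, 6, 6, 6, 18] [] [-3, -3, -3, -3, -3, -3, -4, -4, -3, -3, -3, -3, -3, -3,
      -9, -9] 24 5
   [[(1, 6), (10, 6), (13, 6), (14, 12)], [(2, 6)], [(5, 6)], [(0, 6)], [(3, 6)], [(9, 6)], [(6,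
      8)], [(7, 8)], [(4, 6)], [(8, 6), (11, 6), (12, 6), (15, 12)], [(8, 6), (11, 6), (12, 6),
      (15, 12)], [(1, 6), (10, 6), (13, 6), (14, 12)], [(1, 6), (10, 6), (13, 6), (14, 12)], [(8,
      6), (11, 6), (12, 6), (15, 12)], [(8, 12), (11, 12), (12, 12), (15, 18)], [(1, 12), (10, 12),
      (13, 12), (14, 18)]]
   []
   .nil)
  (.lp .none [2, 2, 2, 2, 2, 2, 2, 6] [] [-1, -1, -1, -1, -1, -1, -1, -1, -1, -1, -1, -1, -1, -1,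
      -3, -3] 8 5
   [[(1, 2), (10, 2), (13, 2), (14, 4)], [(2, 2)], [(5, 2)], [(0, 2)], [(3, 2)], [(6, 2)], [(9,
      2)], [(4, 2)], [(7, 2)], [(8, 2), (11, 2), (12, 2), (15, 4)], [(8, 2), (11, 2), (12, 2), (15,
      4)], [(1, 2), (10, 2), (13, 2), (14, 4)], [(1, 2), (10, 2), (13, 2), (14, 4)], [(8, 2), (11,
      2), (12, 2), (15, 4)], [(8, 4), (11, 4), (12, 4), (15, 6)], [(1, 4), (10, 4), (13, 4), (14,
      6)]]
   []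
   .nil))

/-- classes `0 0 1 2 1 2 3 4`, active pairs `3-4 3-5` -/
def trS8_3 : Tr2 :=
  .splitT 0
 (.lp .none [2, 4, 2, 6, 2, 2, 2, 2] [] [-1, -1, -2, -2, -1, -1, -3, -3, -1, -1, -1, -1, -1, -1,
      -1, -1] 8 5
  [[(1, 2), (14, 2)], [(0, 2), (2, 3), (3, 3), (5, 2)], [(0, 3), (2, 4), (3, 4), (5, 3)], [(0, 3),
      (2, 4), (3, 4), (5, 3)], [(0, 2), (2, 3), (3, 3), (5, 2)], [(4, 2), (7, 4), (8, 2), (11, 2)],
      [(4, 4), (7, 6), (8, 4), (11, 4)], [(6, 6), (9, 4), (10, 4), (13, 4)], [(6, 4), (9, 2), (10,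
      2), (13, 2)], [(4, 2), (7, 4), (8, 2), (11, 2)], [(4, 2), (7, 4), (8, 2), (11, 2)], [(6, 4),
      (9, 2), (10, 2), (13, 2)], [(6, 4), (9, 2), (10, 2), (13, 2)], [(12, 2), (15, 2)], [(12, 2),
      (15, 2)], [(1, 2), (14, 2)]]
  []
  .nil)
 (.lp .none [6, 8, 6, 18, 6, 6, 6, 6] [] [-3, -3, -4, -4, -3, -3, -9, -9, -3, -3, -3, -3, -3, -3,
      -3, -3] 24 5
  [[(1, 6), (14, 6)], [(5, 6)], [(2, 8)], [(3, 8)], [(0, 6)], [(4, 6), (7, 12), (8, 6), (11, 6)],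
      [(4, 12), (7, 18), (8, 12), (11, 12)], [(6, 18), (9, 12), (10, 12), (13, 12)], [(6, 12), (9,
      6), (10, 6), (13, 6)], [(4, 6), (7, 12), (8, 6), (11, 6)], [(4, 6), (7, 12), (8, 6), (11,
      6)], [(6, 12), (9, 6), (10, 6), (13, 6)], [(6, 12), (9, 6), (10, 6), (13, 6)], [(12, 6), (15,
      6)], [(12, 6), (15, 6)], [(1, 6), (14, 6)]]
  []
  .nil)
 (.lp .none [2, 2, 2, 6, 2, 2, 2, 2] [] [-1, -1, -1, -1, -1, -1, -3, -3, -1, -1, -1, -1, -1, -1,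
      -1, -1] 8 5
  [[(1, 2), (14, 2)], [(2, 2)], [(5, 2)], [(0, 2)], [(3, 2)], [(4, 2), (7, 4), (8, 2), (11, 2)],
      [(4, 4), (7, 6), (8, 4), (11, 4)], [(6, 6), (9, 4), (10, 4), (13, 4)], [(6, 4), (9, 2), (10,
      2), (13, 2)], [(4, 2), (7, 4), (8, 2), (11, 2)], [(4, 2), (7, 4), (8, 2), (11, 2)], [(6, 4),
      (9, 2), (10, 2), (13, 2)], [(6, 4), (9, 2), (10, 2), (13, 2)], [(12, 2), (15, 2)], [(12, 2),
      (15, 2)], [(1, 2), (14, 2)]]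
  []
  .nil)

/-- classes `0 0 1 2 1 2 3 4`, active pairs `3-4 4-5` -/
def trS8_4 : Tr2 :=
  .splitT 0
 (.lp .none [2, 4, 2, 2, 6, 2, 2, 2] [] [-1, -1, -2, -2, -1, -1, -1, -1, -3, -3, -1, -1, -1, -1,
      -1, -1] 8 5
  [[(1, 2), (14, 2)], [(0, 2), (2, 3), (3, 3), (5, 2)], [(0, 3), (2, 4), (3, 4), (5, 3)], [(0, 3),
      (2, 4), (3, 4), (5, 3)], [(0, 2), (2, 3), (3, 3), (5, 2)], [(4, 2), (7, 2), (8, 4), (11, 2)],
      [(4, 2), (7, 2), (8, 4), (11, 2)], [(6, 2), (9, 4), (10, 2), (13, 2)], [(6, 4), (9, 6), (10,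
      4), (13, 4)], [(4, 4), (7, 4), (8, 6), (11, 4)], [(4, 2), (7, 2), (8, 4), (11, 2)], [(6, 2),
      (9, 4), (10, 2), (13, 2)], [(6, 2), (9, 4), (10, 2), (13, 2)], [(12, 2), (15, 2)], [(12, 2),
      (15, 2)], [(1, 2), (14, 2)]]
  []
  .nil)
 (.lp .none [6, 8, 6, 6, 18, 6, 6, 6] [] [-3, -3, -4, -4, -3, -3, -3, -3, -9, -9, -3, -3, -3, -3,
      -3, -3] 24 5
  [[(1, 6), (14, 6)], [(5, 6)], [(2, 8)], [(3, 8)], [(0, 6)], [(4, 6), (7, 6), (8, 12), (11, 6)],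
      [(4, 6), (7, 6), (8, 12), (11, 6)], [(6, 6), (9, 12), (10, 6), (13, 6)], [(6, 12), (9, 18),
      (10, 12), (13, 12)], [(4, 12), (7, 12), (8, 18), (11, 12)], [(4, 6), (7, 6), (8, 12), (11,
      6)], [(6, 6), (9, 12), (10, 6), (13, 6)], [(6, 6), (9, 12), (10, 6), (13, 6)], [(12, 6), (15,
      6)], [(12, 6), (15, 6)], [(1, 6), (14, 6)]]
  []
  .nil)
 (.lp .none [2, 2, 2, 2, 6, 2, 2, 2] [] [-1, -1, -1, -1, -1, -1, -1, -1, -3, -3, -1, -1, -1, -1,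
      -1, -1] 8 5
  [[(1, 2), (14, 2)], [(2, 2)], [(5, 2)], [(0, 2)], [(3, 2)], [(4, 2), (7, 2), (8, 4), (11, 2)],
      [(4, 2), (7, 2), (8, 4), (11, 2)], [(6, 2), (9, 4), (10, 2), (13, 2)], [(6, 4), (9, 6), (10,
      4), (13, 4)], [(4, 4), (7, 4), (8, 6), (11, 4)], [(4, 2), (7, 2), (8, 4), (11, 2)], [(6, 2),
      (9, 4), (10, 2), (13, 2)], [(6, 2), (9, 4), (10, 2), (13, 2)], [(12, 2), (15, 2)], [(12, 2),
      (15, 2)], [(1, 2), (14, 2)]]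
  []
  .nil)

/-- classes `0 0 1 2 1 2 3 4`, active pairs `3-5 4-5` -/
def trS8_5 : Tr2 :=
  .splitT 0
 (.lp .none [2, 4, 2, 2, 2, 6, 2, 2] [] [-1, -1, -2, -2, -1, -1, -1, -1, -1, -1, -3, -3, -1, -1,
      -1, -1] 8 5
  [[(1, 2), (14, 2)], [(0, 2), (2, 3), (3, 3), (5, 2)], [(0, 3), (2, 4), (3, 4), (5, 3)], [(0, 3),
      (2, 4), (3, 4), (5, 3)], [(0, 2), (2, 3), (3, 3), (5, 2)], [(4, 2), (7, 2), (8, 2), (11, 4)],
      [(4, 2), (7, 2), (8, 2), (11, 4)], [(6, 2), (9, 2), (10, 4), (13, 2)], [(6, 2), (9, 2), (10,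
      4), (13, 2)], [(4, 2), (7, 2), (8, 2), (11, 4)], [(4, 4), (7, 4), (8, 4), (11, 6)], [(6, 4),
      (9, 4), (10, 6), (13, 4)], [(6, 2), (9, 2), (10, 4), (13, 2)], [(12, 2), (15, 2)], [(12, 2),
      (15, 2)], [(1, 2), (14, 2)]]
  []
  .nil)
 (.lp .none [6, 8, 6, 6, 6, 18, 6, 6] [] [-3, -3, -4, -4, -3, -3, -3, -3, -3, -3, -9, -9, -3, -3,
      -3, -3] 24 5
  [[(1, 6), (14, 6)], [(5, 6)], [(2, 8)], [(3, 8)], [(0, 6)], [(4, 6), (7, 6), (8, 6), (11, 12)],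
      [(4, 6), (7, 6), (8, 6), (11, 12)], [(6, 6), (9, 6), (10, 12), (13, 6)], [(6, 6), (9, 6),
      (10, 12), (13, 6)], [(4, 6), (7, 6), (8, 6), (11, 12)], [(4, 12), (7, 12), (8, 12), (11,
      18)], [(6, 12), (9, 12), (10, 18), (13, 12)], [(6, 6), (9, 6), (10, 12), (13, 6)], [(12, 6),
      (15, 6)], [(12, 6), (15, 6)], [(1, 6), (14, 6)]]
  []
  .nil)
 (.lp .none [2, 2, 2, 2, 2, 6, 2, 2] [] [-1, -1, -1, -1, -1, -1, -1, -1, -1, -1, -3, -3, -1, -1,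
      -1, -1] 8 5
  [[(1, 2), (14, 2)], [(2, 2)], [(5, 2)], [(0, 2)], [(3, 2)], [(4, 2), (7, 2), (8, 2), (11, 4)],
      [(4, 2), (7, 2), (8, 2), (11, 4)], [(6, 2), (9, 2), (10, 4), (13, 2)], [(6, 2), (9, 2), (10,
      4), (13, 2)], [(4, 2), (7, 2), (8, 2), (11, 4)], [(4, 4), (7, 4), (8, 4), (11, 6)], [(6, 4),
      (9, 4), (10, 6), (13, 4)], [(6, 2), (9, 2), (10, 4), (13, 2)], [(12, 2), (15, 2)], [(12, 2),
      (15, 2)], [(1, 2), (14, 2)]]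
  []
  .nil)

/-- classes `0 0 1 2 3 2 3 1`, active pairs `0-2 4-5` -/
def trS8_6 : Tr2 :=
  .lp .none [910, 560, 560, 672, 800, 720, 336, 420] [(4, 14, -210), (15, 5, -210), (6, 10, 168),
      (11, 7, 168), (8, 13, 84), (12, 9, 84), (10, 11, 168)] [-455, -455, -280, -280, -280, -280,
      -336, -336, -400, -400, -360, -360, -168, -168, -210, -210] 1680 6
 [[(1, 910), (4, 945), (7, 791), (14, 665)], [(0, 910), (2, 735), (3, 735), (5, 735)], [(0, 735),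
      (2, 560), (3, 560), (5, 560)], [(0, 735), (2, 560), (3, 560), (5, 560)], [(0, 735), (2, 560),
      (3, 560), (5, 560)], [(1, 945), (4, 560), (7, 616), (14, 490)], [(1, 791), (4, 616), (7,
      672), (14, 336)], [(6, 672), (9, 736), (10, 696), (13, 336)], [(6, 736), (9, 800), (10, 928),
      (13, 568)], [(8, 800), (11, 760), (12, 484), (15, 610)], [(8, 760), (11, 720), (12, 528),
      (15, 654)], [(6, 696), (9, 928), (10, 552), (13, 528)], [(6, 336), (9, 568), (10, 528), (13,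
      504)], [(8, 484), (11, 528), (12, 336), (15, 378)], [(8, 610), (11, 654), (12, 378), (15,
      420)], [(1, 665), (4, 490), (7, 336), (14, 420)]]
 [[0, 0, 0, 1, 0, 0, 1, 1]]
 (.cons (.contra [-1, -1, -1, 1])
 .nil)

/-- classes `0 0 1 2 3 2 3 1`, active pairs `0-2 4-5 4-6` -/
def trS8_7 : Tr2 :=
  .lp .none [130, 80, 80, 84, 156, 60, 60, 60] [(4, 14, -30), (15, 5, -30), (6, 10, 24), (11, 7, 24),
      (6, 7, -12), (6, 11, 24), (10, 7, 24)] [-65, -65, -40, -40, -40, -40, -42, -42, -78, -78,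
      -30, -30, -30, -30, -36, -24] 240 6
 [[(1, 130), (4, 135), (7, 107), (14, 101)], [(0, 130), (2, 105), (3, 105), (5, 105)], [(0, 105),
      (2, 80), (3, 80), (5, 80)], [(0, 105), (2, 80), (3, 80), (5, 80)], [(0, 105), (2, 80), (3,
      80), (5, 80)], [(1, 135), (4, 80), (7, 82), (14, 76)], [(1, 107), (4, 82), (7, 84), (14,
      48)], [(6, 96), (9, 120), (10, 48), (13, 48)], [(6, 120), (9, 144), (10, 132), (13, 132)],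
      [(8, 156), (11, 108), (12, 108), (15, 102)], [(8, 108), (11, 60), (12, 60), (15, 54)], [(6,
      48), (9, 132), (10, 60), (13, 60)], [(6, 48), (9, 132), (10, 60), (13, 60)], [(8, 108), (11,
      60), (12, 60), (15, 54)], [(8, 102), (11, 54), (12, 54), (15, 48)], [(1, 101), (4, 76), (7,
      48), (14, 72)]]
 [[0, 0, 0, 1, 0, 1, 0, 1], [0, 0, 0, 1, 0, 0, 1, 1]]
 (.cons (.contra [-1, -1, 0, -1, 1])
 (.cons (.contra [-1, -1, -1, 0, 1])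
 .nil))

/-- classes `0 0 1 2 3 2 3 1`, active pairs `0-2 4-5 5-6` -/
def trS8_8 : Tr2 :=
  .lp .none [116, 80, 80, 82, 60, 158, 60, 82] [(4, 14, -44), (15, 5, -44), (6, 10, 22), (11, 7, 22),
      (8, 12, 22), (13, 9, 22)] [-58, -58, -40, -40, -40, -40, -34, -48, -32, -28, -79, -79, -24,
      -36, -44, -38] 240 6
 [[(1, 116), (4, 142), (7, 106), (14, 102)], [(0, 116), (2, 98), (3, 98), (5, 98)], [(0, 98), (2,
      80), (3, 80), (5, 80)], [(0, 98), (2, 80), (3, 80), (5, 80)], [(0, 98), (2, 80), (3, 80), (5,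
      80)], [(1, 142), (4, 80), (7, 88), (14, 84)], [(1, 106), (4, 88), (7, 96), (14, 48)], [(6,
      68), (9, 62), (10, 113), (13, 48)], [(6, 62), (9, 56), (10, 129), (13, 64)], [(8, 64), (11,
      111), (12, 56), (15, 48)], [(8, 111), (11, 158), (12, 125), (15, 117)], [(6, 113), (9, 129),
      (10, 158), (13, 115)], [(6, 48), (9, 64), (10, 115), (13, 72)], [(8, 56), (11, 125), (12,
      48), (15, 62)], [(8, 48), (11, 117), (12, 62), (15, 76)], [(1, 102), (4, 84), (7, 48), (14,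
      88)]]
 [[0, 0, 0, 1, 1, 0, 0, 1], [0, 0, 0, 1, 0, 0, 1, 1]]
 (.cons (.contra [-1, -1, 0, -1, 1])
 (.cons (.contra [-1, -1, -1, 0, 1])
 .nil))

/-- classes `0 0 1 2 3 2 3 1`, active pairs `0-2 4-6` -/
def trS8_9 : Tr2 :=
  .lp .none [130, 80, 80, 72, 114, 36, 114, 84] [(4, 14, -30), (15, 5, -30), (6, 11, 6), (10, 7, 6),
      (8, 9, 36), (8, 13, -6), (12, 9, -6), (10, 11, -12)] [-65, -65, -40, -40, -40, -40, -36, -36,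
      -57, -57, -18, -18, -57, -57, -42, -42] 240 6
 [[(1, 130), (4, 135), (7, 101), (14, 107)], [(0, 130), (2, 105), (3, 105), (5, 105)], [(0, 105),
      (2, 80), (3, 80), (5, 80)], [(0, 105), (2, 80), (3, 80), (5, 80)], [(0, 105), (2, 80), (3,
      80), (5, 80)], [(1, 135), (4, 80), (7, 76), (14, 82)], [(1, 101), (4, 76), (7, 72), (14,
      48)], [(6, 72), (9, 93), (10, 48), (13, 93)], [(6, 93), (9, 114), (10, 75), (13, 120)], [(8,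
      78), (11, 75), (12, 120), (15, 99)], [(8, 75), (11, 72), (12, 75), (15, 54)], [(6, 48), (9,
      75), (10, 48), (13, 75)], [(6, 93), (9, 120), (10, 75), (13, 102)], [(8, 120), (11, 75), (12,
      114), (15, 99)], [(8, 99), (11, 54), (12, 99), (15, 84)], [(1, 107), (4, 82), (7, 48), (14,
      84)]]
 [[0, 0, 0, 1, 0, 1, 0, 1]]
 (.cons (.contra [-1, -1, -1, 1])
 .nil)

/-- classes `0 0 1 2 3 2 3 1`, active pairs `0-2 4-6 5-6` -/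
def trS8_10 : Tr2 :=
  .lp .none [130, 80, 80, 60, 60, 60, 156, 84] [(4, 14, -30), (15, 5, -30), (8, 12, 24), (13, 9, 24),
      (8, 13, -24), (12, 9, -24), (12, 13, 12)] [-65, -65, -40, -40, -40, -40, -24, -36, -30, -30,
      -30, -30, -78, -78, -42, -42] 240 6
 [[(1, 130), (4, 135), (7, 101), (14, 107)], [(0, 130), (2, 105), (3, 105), (5, 105)], [(0, 105),
      (2, 80), (3, 80), (5, 80)], [(0, 105), (2, 80), (3, 80), (5, 80)], [(0, 105), (2, 80), (3,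
      80), (5, 80)], [(1, 135), (4, 80), (7, 76), (14, 82)], [(1, 101), (4, 76), (7, 72), (14,
      48)], [(6, 48), (9, 54), (10, 54), (13, 102)], [(6, 54), (9, 60), (10, 60), (13, 108)], [(8,
      60), (11, 60), (12, 132), (15, 48)], [(8, 60), (11, 60), (12, 132), (15, 48)], [(6, 54), (9,
      60), (10, 60), (13, 108)], [(6, 102), (9, 108), (10, 108), (13, 156)], [(8, 132), (11, 132),
      (12, 144), (15, 120)], [(8, 48), (11, 48), (12, 120), (15, 96)], [(1, 107), (4, 82), (7, 48),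
      (14, 84)]]
 [[0, 0, 0, 1, 1, 0, 0, 1], [0, 0, 0, 1, 0, 1, 0, 1]]
 (.cons (.contra [-1, -1, 0, -1, 1])
 (.cons (.contra [-1, -1, -1, 0, 1])
 .nil))

/-- classes `0 0 1 2 3 2 3 1`, active pairs `0-2 5-6` -/
def trS8_11 : Tr2 :=
  .lp .none [130, 80, 80, 66, 42, 108, 114, 90] [(4, 14, -30), (15, 5, -30), (8, 12, 18), (13, 9,
      18), (6, 7, 12), (8, 9, -24), (8, 13, 6), (12, 9, 6)] [-65, -65, -40, -40, -40, -40, -33,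
      -33, -21, -21, -54, -54, -57, -57, -45, -45] 240 6
 [[(1, 130), (4, 135), (7, 98), (14, 110)], [(0, 130), (2, 105), (3, 105), (5, 105)], [(0, 105),
      (2, 80), (3, 80), (5, 80)], [(0, 105), (2, 80), (3, 80), (5, 80)], [(0, 105), (2, 80), (3,
      80), (5, 80)], [(1, 135), (4, 80), (7, 73), (14, 85)], [(1, 98), (4, 73), (7, 66), (14, 48)],
      [(6, 54), (9, 54), (10, 87), (13, 90)], [(6, 54), (9, 54), (10, 75), (13, 78)], [(8, 66),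
      (11, 75), (12, 72), (15, 48)], [(8, 75), (11, 84), (12, 129), (15, 105)], [(6, 87), (9, 75),
      (10, 108), (13, 111)], [(6, 90), (9, 78), (10, 111), (13, 114)], [(8, 72), (11, 129), (12,
      114), (15, 102)], [(8, 48), (11, 105), (12, 102), (15, 90)], [(1, 110), (4, 85), (7, 48),
      (14, 90)]]
 [[0, 0, 0, 1, 1, 0, 0, 1]]
 (.cons (.contra [-1, -1, -1, 1])
 .nil)

/-- classes `0 0 1 2 3 2 3 1`, active pairs `4-5 4-6` -/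
def trS8_12 : Tr2 :=
  .splitT 0
 (.splitT 2
  (.lp (.two 4 5) [26, 44, 26, 26, 60, 44, 36, 26] [] [-13, -13, -22, -22, -13, -13, -13, -13, -30,
      -30, -22, -22, -18, -18, -13, -13] 96 5
   [[(1, 26), (4, 26), (7, 26), (14, 26)], [(0, 26), (2, 35), (3, 35), (5, 26)], [(0, 35), (2, 44),
      (3, 44), (5, 35)], [(0, 35), (2, 44), (3, 44), (5, 35)], [(0, 26), (2, 35), (3, 35), (5,
      26)], [(1, 26), (4, 26), (7, 26), (14, 26)], [(1, 26), (4, 26), (7, 26), (14, 26)], [(6, 26),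
      (9, 43), (10, 35), (13, 31)], [(6, 43), (9, 60), (10, 52), (13, 48)], [(8, 60), (11, 52),
      (12, 48), (15, 43)], [(8, 52), (11, 44), (12, 40), (15, 35)], [(6, 35), (9, 52), (10, 44),
      (13, 40)], [(6, 31), (9, 48), (10, 40), (13, 36)], [(8, 48), (11, 40), (12, 36), (15, 31)],
      [(8, 43), (11, 35), (12, 31), (15, 26)], [(1, 26), (4, 26), (7, 26), (14, 26)]]
   [[0, 0, 0, 1, 0, 0, 1, 1]]
   (.cons (.leafM 0 [2, 3, 6, 7, 0, 1] [(1, [1, 0, 0, 0])])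
   .nil))
  (.lp .none [6, 8, 6, 6, 12, 12, 12, 6] [] [-3, -3, -4, -4, -3, -3, -3, -3, -6, -6, -6, -6, -6,
      -6, -3, -3] 24 5
   [[(4, 6)], [(0, 6), (2, 7), (3, 7), (5, 6)], [(0, 7), (2, 8), (3, 8), (5, 7)], [(0, 7), (2, 8),
      (3, 8), (5, 7)], [(0, 6), (2, 7), (3, 7), (5, 6)], [(1, 6)], [(14, 6)], [(6, 6), (9, 9), (10,
      9), (13, 9)], [(6, 9), (9, 12), (10, 12), (13, 12)], [(8, 12), (11, 12), (12, 12), (15, 9)],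
      [(8, 12), (11, 12), (12, 12), (15, 9)], [(6, 9), (9, 12), (10, 12), (13, 12)], [(6, 9), (9,
      12), (10, 12), (13, 12)], [(8, 12), (11, 12), (12, 12), (15, 9)], [(8, 9), (11, 9), (12, 9),
      (15, 6)], [(7, 6)]]
   [[1, 1, 1, 0, 0, 0, 0, 0]]
   (.cons (.leafM 0 [2, 3, 6, 7, 0, 1] [(1, [-1, -1, 0, 1])])
   .nil))
  (.lp .none [6, 8, 6, 6, 18, 6, 6, 6] [] [-3, -3, -4, -4, -3, -3, -3, -3, -9, -9, -3, -3, -3, -3,
      -3, -3] 24 5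
   [[(7, 6)], [(0, 6), (2, 7), (3, 7), (5, 6)], [(0, 7), (2, 8), (3, 8), (5, 7)], [(0, 7), (2, 8),
      (3, 8), (5, 7)], [(0, 6), (2, 7), (3, 7), (5, 6)], [(14, 6)], [(1, 6)], [(6, 6), (9, 12),
      (10, 6), (13, 6)], [(6, 12), (9, 18), (10, 12), (13, 12)], [(8, 18), (11, 12), (12, 12), (15,
      12)], [(8, 12), (11, 6), (12, 6), (15, 6)], [(6, 6), (9, 12), (10, 6), (13, 6)], [(6, 6), (9,
      12), (10, 6), (13, 6)], [(8, 12), (11, 6), (12, 6), (15, 6)], [(8, 12), (11, 6), (12, 6),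
      (15, 6)], [(4, 6)]]
   []
   .nil))
 (.splitT 2
  (.lp .none [6, 8, 6, 6, 12, 12, 12, 6] [] [-3, -3, -4, -4, -3, -3, -3, -3, -6, -6, -6, -6, -6,
      -6, -3, -3] 24 5
   [[(1, 6), (4, 6), (7, 6), (14, 6)], [(5, 6)], [(2, 8)], [(3, 8)], [(0, 6)], [(1, 6), (4, 6), (7,
      6), (14, 6)], [(1, 6), (4, 6), (7, 6), (14, 6)], [(6, 6), (9, 9), (10, 9), (13, 9)], [(6, 9),
      (9, 12), (10, 12), (13, 12)], [(8, 12), (11, 12), (12, 12), (15, 9)], [(8, 12), (11, 12),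
      (12, 12), (15, 9)], [(6, 9), (9, 12), (10, 12), (13, 12)], [(6, 9), (9, 12), (10, 12), (13,
      12)], [(8, 12), (11, 12), (12, 12), (15, 9)], [(8, 9), (11, 9), (12, 9), (15, 6)], [(1, 6),
      (4, 6), (7, 6), (14, 6)]]
   []
   .nil)
  (.lp .none [12, 8, 0, 6, 12, 12, 12, 6] [] [-6, -6, -4, -4, 0, 0, -3, -3, -6, -6, -6, -6, -6, -6,
      -3, -3] 24 5
   [[(4, 6)], [(5, 6)], [(2, 8)], [(3, 8)], [(0, 6)], [(1, 6)], [(14, 6)], [(6, 6), (9, 9), (10,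
      9), (13, 9)], [(6, 9), (9, 12), (10, 12), (13, 12)], [(8, 12), (11, 12), (12, 12), (15, 9)],
      [(8, 12), (11, 12), (12, 12), (15, 9)], [(6, 9), (9, 12), (10, 12), (13, 12)], [(6, 9), (9,
      12), (10, 12), (13, 12)], [(8, 12), (11, 12), (12, 12), (15, 9)], [(8, 9), (11, 9), (12, 9),
      (15, 6)], [(7, 6)]]
   []
   .nil)
  (.lp .none [6, 8, 6, 6, 18, 6, 6, 6] [] [-3, -3, -4, -4, -3, -3, -3, -3, -9, -9, -3, -3, -3, -3,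
      -3, -3] 24 5
   [[(7, 6)], [(5, 6)], [(2, 8)], [(3, 8)], [(0, 6)], [(14, 6)], [(1, 6)], [(6, 6), (9, 12), (10,
      6), (13, 6)], [(6, 12), (9, 18), (10, 12), (13, 12)], [(8, 18), (11, 12), (12, 12), (15,
      12)], [(8, 12), (11, 6), (12, 6), (15, 6)], [(6, 6), (9, 12), (10, 6), (13, 6)], [(6, 6), (9,
      12), (10, 6), (13, 6)], [(8, 12), (11, 6), (12, 6), (15, 6)], [(8, 12), (11, 6), (12, 6),
      (15, 6)], [(4, 6)]]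
   []
   .nil))
 (.splitT 2
  (.lp .none [2, 2, 2, 2, 4, 4, 4, 2] [] [-1, -1, -1, -1, -1, -1, -1, -1, -2, -2, -2, -2, -2, -2,
      -1, -1] 8 5
   [[(1, 2), (4, 2), (7, 2), (14, 2)], [(2, 2)], [(5, 2)], [(0, 2)], [(3, 2)], [(1, 2), (4, 2), (7,
      2), (14, 2)], [(1, 2), (4, 2), (7, 2), (14, 2)], [(6, 2), (9, 3), (10, 3), (13, 3)], [(6, 3),
      (9, 4), (10, 4), (13, 4)], [(8, 4), (11, 4), (12, 4), (15, 3)], [(8, 4), (11, 4), (12, 4),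
      (15, 3)], [(6, 3), (9, 4), (10, 4), (13, 4)], [(6, 3), (9, 4), (10, 4), (13, 4)], [(8, 4),
      (11, 4), (12, 4), (15, 3)], [(8, 3), (11, 3), (12, 3), (15, 2)], [(1, 2), (4, 2), (7, 2),
      (14, 2)]]
   [[1, 1, 1, 0, 0, 0, 0, 0]]
   (.cons (.leafM 4 [0, 1, 2, 3, 6, 7] [(1, [-1, -1, 0, 1])])
   .nil))
  (.lp (.two 4 5) [44, 44, 8, 26, 60, 44, 36, 26] [] [-22, -22, -22, -22, -4, -4, -13, -13, -30,
      -30, -22, -22, -18, -18, -13, -13] 96 5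
   [[(4, 26)], [(2, 44)], [(5, 26)], [(0, 44)], [(3, 26)], [(1, 26)], [(14, 26)], [(6, 26), (9,
      43), (10, 35), (13, 31)], [(6, 43), (9, 60), (10, 52), (13, 48)], [(8, 60), (11, 52), (12,
      48), (15, 43)], [(8, 52), (11, 44), (12, 40), (15, 35)], [(6, 35), (9, 52), (10, 44), (13,
      40)], [(6, 31), (9, 48), (10, 40), (13, 36)], [(8, 48), (11, 40), (12, 36), (15, 31)], [(8,
      43), (11, 35), (12, 31), (15, 26)], [(7, 26)]]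
   [[0, 0, 0, 1, 0, 0, 1, 1]]
   (.cons (.leafM 4 [0, 1, 2, 3, 6, 7] [(1, [1, 0, 0, 0])])
   .nil))
  (.lp .none [2, 2, 2, 2, 6, 2, 2, 2] [] [-1, -1, -1, -1, -1, -1, -1, -1, -3, -3, -1, -1, -1, -1,
      -1, -1] 8 5
   [[(7, 2)], [(2, 2)], [(5, 2)], [(0, 2)], [(3, 2)], [(14, 2)], [(1, 2)], [(6, 2), (9, 4), (10,
      2), (13, 2)], [(6, 4), (9, 6), (10, 4), (13, 4)], [(8, 6), (11, 4), (12, 4), (15, 4)], [(8,
      4), (11, 2), (12, 2), (15, 2)], [(6, 2), (9, 4), (10, 2), (13, 2)], [(6, 2), (9, 4), (10, 2),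
      (13, 2)], [(8, 4), (11, 2), (12, 2), (15, 2)], [(8, 4), (11, 2), (12, 2), (15, 2)], [(4, 2)]]
   []
   .nil))

/-- classes `0 0 1 2 3 2 3 1`, active pairs `4-5 5-6` -/
def trS8_13 : Tr2 :=
  .splitT 0
 (.splitT 2
  (.lp .none [8, 8, 8, 6, 10, 14, 10, 6] [(4, 14, 2), (15, 5, 2)] [-4, -4, -4, -4, -4, -4, -3, -3,
      -5, -5, -7, -7, -5, -5, -3, -3] 24 5
   [[(1, 8), (4, 6), (7, 7), (14, 7)], [(0, 8), (2, 8), (3, 8), (5, 8)], [(0, 8), (2, 8), (3, 8),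
      (5, 8)], [(0, 8), (2, 8), (3, 8), (5, 8)], [(0, 8), (2, 8), (3, 8), (5, 8)], [(1, 6), (4, 8),
      (7, 7), (14, 7)], [(1, 7), (4, 7), (7, 6), (14, 8)], [(6, 6), (9, 8), (10, 10), (13, 8)],
      [(6, 8), (9, 10), (10, 12), (13, 10)], [(8, 10), (11, 12), (12, 10), (15, 8)], [(8, 12), (11,
      14), (12, 12), (15, 10)], [(6, 10), (9, 12), (10, 14), (13, 12)], [(6, 8), (9, 10), (10, 12),
      (13, 10)], [(8, 10), (11, 12), (12, 10), (15, 8)], [(8, 8), (11, 10), (12, 8), (15, 6)], [(1,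
      7), (4, 7), (7, 8), (14, 6)]]
   [[1, 1, 1, 0, 0, 0, 0, 0]]
   (.cons (.leafM 0 [2, 3, 6, 7, 0, 1] [(1, [-1, -1, 0, 1])])
   .nil))
  (.lp (.two 4 5) [38, 32, 26, 26, 44, 70, 26, 26] [] [-19, -19, -16, -16, -13, -13, -13, -13, -22,
      -22, -35, -35, -13, -13, -13, -13] 96 5
   [[(4, 32)], [(0, 38), (2, 35), (3, 35), (5, 32)], [(0, 35), (2, 32), (3, 32), (5, 29)], [(0,
      35), (2, 32), (3, 32), (5, 29)], [(0, 32), (2, 29), (3, 29), (5, 26)], [(1, 32)], [(14, 26)],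
      [(6, 26), (9, 35), (10, 48), (13, 26)], [(6, 35), (9, 44), (10, 57), (13, 35)], [(8, 44),
      (11, 57), (12, 35), (15, 35)], [(8, 57), (11, 70), (12, 48), (15, 48)], [(6, 48), (9, 57),
      (10, 70), (13, 48)], [(6, 26), (9, 35), (10, 48), (13, 26)], [(8, 35), (11, 48), (12, 26),
      (15, 26)], [(8, 35), (11, 48), (12, 26), (15, 26)], [(7, 26)]]
   [[0, 0, 0, 1, 0, 0, 1, 1]]
   (.cons (.leafM 0 [2, 3, 6, 7, 0, 1] [(1, [1, 0, 0, 0])])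
   .nil))
  (.lp .none [6, 8, 6, 6, 6, 18, 6, 6] [] [-3, -3, -4, -4, -3, -3, -3, -3, -3, -3, -9, -9, -3, -3,
      -3, -3] 24 5
   [[(7, 6)], [(0, 6), (2, 7), (3, 7), (5, 6)], [(0, 7), (2, 8), (3, 8), (5, 7)], [(0, 7), (2, 8),
      (3, 8), (5, 7)], [(0, 6), (2, 7), (3, 7), (5, 6)], [(14, 6)], [(1, 6)], [(6, 6), (9, 6), (10,
      12), (13, 6)], [(6, 6), (9, 6), (10, 12), (13, 6)], [(8, 6), (11, 12), (12, 6), (15, 6)],
      [(8, 12), (11, 18), (12, 12), (15, 12)], [(6, 12), (9, 12), (10, 18), (13, 12)], [(6, 6), (9,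
      6), (10, 12), (13, 6)], [(8, 6), (11, 12), (12, 6), (15, 6)], [(8, 6), (11, 12), (12, 6),
      (15, 6)], [(4, 6)]]
   []
   .nil))
 (.splitT 2
  (.lp .none [6, 8, 6, 12, 6, 18, 6, 6] [] [-3, -3, -4, -4, -3, -3, -6, -6, -3, -3, -9, -9, -3, -3,
      -3, -3] 24 5
   [[(1, 6), (4, 6), (7, 9), (14, 6)], [(5, 6)], [(2, 8)], [(3, 8)], [(0, 6)], [(1, 6), (4, 6), (7,
      9), (14, 6)], [(1, 9), (4, 9), (7, 12), (14, 9)], [(6, 12), (9, 9), (10, 15), (13, 9)], [(6,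
      9), (9, 6), (10, 12), (13, 6)], [(8, 6), (11, 12), (12, 6), (15, 6)], [(8, 12), (11, 18),
      (12, 12), (15, 12)], [(6, 15), (9, 12), (10, 18), (13, 12)], [(6, 9), (9, 6), (10, 12), (13,
      6)], [(8, 6), (11, 12), (12, 6), (15, 6)], [(8, 6), (11, 12), (12, 6), (15, 6)], [(1, 6), (4,
      6), (7, 9), (14, 6)]]
   []
   .nil)
  (.lp .none [12, 8, 0, 12, 6, 18, 6, 6] [] [-6, -6, -4, -4, 0, 0, -6, -6, -3, -3, -9, -9, -3, -3,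
      -3, -3] 24 5
   [[(4, 6)], [(5, 6)], [(2, 8)], [(3, 8)], [(0, 6)], [(1, 6)], [(14, 9)], [(6, 12), (9, 9), (10,
      15), (13, 9)], [(6, 9), (9, 6), (10, 12), (13, 6)], [(8, 6), (11, 12), (12, 6), (15, 6)],
      [(8, 12), (11, 18), (12, 12), (15, 12)], [(6, 15), (9, 12), (10, 18), (13, 12)], [(6, 9), (9,
      6), (10, 12), (13, 6)], [(8, 6), (11, 12), (12, 6), (15, 6)], [(8, 6), (11, 12), (12, 6),
      (15, 6)], [(7, 9)]]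
   []
   .nil)
  (.lp .none [6, 8, 6, 6, 6, 18, 6, 6] [] [-3, -3, -4, -4, -3, -3, -3, -3, -3, -3, -9, -9, -3, -3,
      -3, -3] 24 5
   [[(7, 6)], [(5, 6)], [(2, 8)], [(3, 8)], [(0, 6)], [(14, 6)], [(1, 6)], [(6, 6), (9, 6), (10,
      12), (13, 6)], [(6, 6), (9, 6), (10, 12), (13, 6)], [(8, 6), (11, 12), (12, 6), (15, 6)],
      [(8, 12), (11, 18), (12, 12), (15, 12)], [(6, 12), (9, 12), (10, 18), (13, 12)], [(6, 6), (9,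
      6), (10, 12), (13, 6)], [(8, 6), (11, 12), (12, 6), (15, 6)], [(8, 6), (11, 12), (12, 6),
      (15, 6)], [(4, 6)]]
   []
   .nil))
 (.splitT 2
  (.lp .none [2, 2, 2, 4, 2, 6, 2, 2] [] [-1, -1, -1, -1, -1, -1, -2, -2, -1, -1, -3, -3, -1, -1,
      -1, -1] 8 5
   [[(1, 2), (4, 2), (7, 3), (14, 2)], [(2, 2)], [(5, 2)], [(0, 2)], [(3, 2)], [(1, 2), (4, 2), (7,
      3), (14, 2)], [(1, 3), (4, 3), (7, 4), (14, 3)], [(6, 4), (9, 3), (10, 5), (13, 3)], [(6, 3),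
      (9, 2), (10, 4), (13, 2)], [(8, 2), (11, 4), (12, 2), (15, 2)], [(8, 4), (11, 6), (12, 4),
      (15, 4)], [(6, 5), (9, 4), (10, 6), (13, 4)], [(6, 3), (9, 2), (10, 4), (13, 2)], [(8, 2),
      (11, 4), (12, 2), (15, 2)], [(8, 2), (11, 4), (12, 2), (15, 2)], [(1, 2), (4, 2), (7, 3),
      (14, 2)]]
   [[1, 1, 1, 0, 0, 0, 0, 0]]
   (.cons (.leafM 4 [0, 1, 2, 3, 6, 7] [(1, [-1, -1, 0, 1])])
   .nil))
  (.lp (.two 4 5) [44, 44, 8, 36, 34, 70, 26, 26] [] [-22, -22, -22, -22, -4, -4, -18, -18, -17,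
      -17, -35, -35, -13, -13, -13, -13] 96 5
   [[(4, 26)], [(2, 44)], [(5, 26)], [(0, 44)], [(3, 26)], [(1, 26)], [(14, 31)], [(6, 36), (9,
      35), (10, 53), (13, 31)], [(6, 35), (9, 34), (10, 52), (13, 30)], [(8, 34), (11, 52), (12,
      30), (15, 30)], [(8, 52), (11, 70), (12, 48), (15, 48)], [(6, 53), (9, 52), (10, 70), (13,
      48)], [(6, 31), (9, 30), (10, 48), (13, 26)], [(8, 30), (11, 48), (12, 26), (15, 26)], [(8,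
      30), (11, 48), (12, 26), (15, 26)], [(7, 31)]]
   [[0, 0, 0, 1, 0, 0, 1, 1]]
   (.cons (.leafM 4 [0, 1, 2, 3, 6, 7] [(1, [1, 0, 0, 0])])
   .nil))
  (.lp .none [2, 2, 2, 2, 2, 6, 2, 2] [] [-1, -1, -1, -1, -1, -1, -1, -1, -1, -1, -3, -3, -1, -1,
      -1, -1] 8 5
   [[(7, 2)], [(2, 2)], [(5, 2)], [(0, 2)], [(3, 2)], [(14, 2)], [(1, 2)], [(6, 2), (9, 2), (10,
      4), (13, 2)], [(6, 2), (9, 2), (10, 4), (13, 2)], [(8, 2), (11, 4), (12, 2), (15, 2)], [(8,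
      4), (11, 6), (12, 4), (15, 4)], [(6, 4), (9, 4), (10, 6), (13, 4)], [(6, 2), (9, 2), (10, 4),
      (13, 2)], [(8, 2), (11, 4), (12, 2), (15, 2)], [(8, 2), (11, 4), (12, 2), (15, 2)], [(4, 2)]]
   []
   .nil))

/-- classes `0 0 1 2 3 2 3 1`, active pairs `4-6 5-6` -/
def trS8_14 : Tr2 :=
  .splitT 0
 (.splitT 2
  (.lp .none [8, 8, 8, 10, 6, 6, 18, 6] [(4, 14, 2), (15, 5, 2)] [-4, -4, -4, -4, -4, -4, -5, -5,
      -3, -3, -3, -3, -9, -9, -3, -3] 24 5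
   [[(1, 8), (4, 6), (7, 9), (14, 7)], [(0, 8), (2, 8), (3, 8), (5, 8)], [(0, 8), (2, 8), (3, 8),
      (5, 8)], [(0, 8), (2, 8), (3, 8), (5, 8)], [(0, 8), (2, 8), (3, 8), (5, 8)], [(1, 6), (4, 8),
      (7, 9), (14, 7)], [(1, 9), (4, 9), (7, 10), (14, 10)], [(6, 10), (9, 8), (10, 8), (13, 14)],
      [(6, 8), (9, 6), (10, 6), (13, 12)], [(8, 6), (11, 6), (12, 12), (15, 6)], [(8, 6), (11, 6),
      (12, 12), (15, 6)], [(6, 8), (9, 6), (10, 6), (13, 12)], [(6, 14), (9, 12), (10, 12), (13,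
      18)], [(8, 12), (11, 12), (12, 18), (15, 12)], [(8, 6), (11, 6), (12, 12), (15, 6)], [(1, 7),
      (4, 7), (7, 10), (14, 6)]]
   [[1, 1, 1, 0, 0, 0, 0, 0]]
   (.cons (.leafM 4 [3, 5, 7, 0, 1, 2] [(1, [1, 0, 0, 0])])
   .nil))
  (.lp .none [6, 8, 6, 6, 12, 12, 12, 6] [] [-3, -3, -4, -4, -3, -3, -3, -3, -6, -6, -6, -6, -6,
      -6, -3, -3] 24 5
   [[(4, 6)], [(0, 6), (2, 7), (3, 7), (5, 6)], [(0, 7), (2, 8), (3, 8), (5, 7)], [(0, 7), (2, 8),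
      (3, 8), (5, 7)], [(0, 6), (2, 7), (3, 7), (5, 6)], [(1, 6)], [(14, 6)], [(6, 6), (9, 9), (10,
      9), (13, 9)], [(6, 9), (9, 12), (10, 12), (13, 12)], [(8, 12), (11, 12), (12, 12), (15, 9)],
      [(8, 12), (11, 12), (12, 12), (15, 9)], [(6, 9), (9, 12), (10, 12), (13, 12)], [(6, 9), (9,
      12), (10, 12), (13, 12)], [(8, 12), (11, 12), (12, 12), (15, 9)], [(8, 9), (11, 9), (12, 9),
      (15, 6)], [(7, 6)]]
   [[1, 1, 1, 0, 0, 0, 0, 0]]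
   (.cons (.leafM 4 [3, 5, 7, 0, 1, 2] [(1, [1, 0, 0, 0])])
   .nil))
  (.lp .none [6, 8, 6, 6, 6, 6, 18, 6] [] [-3, -3, -4, -4, -3, -3, -3, -3, -3, -3, -3, -3, -9, -9,
      -3, -3] 24 5
   [[(7, 6)], [(0, 6), (2, 7), (3, 7), (5, 6)], [(0, 7), (2, 8), (3, 8), (5, 7)], [(0, 7), (2, 8),
      (3, 8), (5, 7)], [(0, 6), (2, 7), (3, 7), (5, 6)], [(14, 6)], [(1, 6)], [(6, 6), (9, 6), (10,
      6), (13, 12)], [(6, 6), (9, 6), (10, 6), (13, 12)], [(8, 6), (11, 6), (12, 12), (15, 6)],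
      [(8, 6), (11, 6), (12, 12), (15, 6)], [(6, 6), (9, 6), (10, 6), (13, 12)], [(6, 12), (9, 12),
      (10, 12), (13, 18)], [(8, 12), (11, 12), (12, 18), (15, 12)], [(8, 6), (11, 6), (12, 12),
      (15, 6)], [(4, 6)]]
   []
   .nil))
 (.splitT 2
  (.lp .none [6, 8, 6, 6, 12, 12, 12, 6] [] [-3, -3, -4, -4, -3, -3, -3, -3, -6, -6, -6, -6, -6,
      -6, -3, -3] 24 5
   [[(1, 6), (4, 6), (7, 6), (14, 6)], [(5, 6)], [(2, 8)], [(3, 8)], [(0, 6)], [(1, 6), (4, 6), (7,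
      6), (14, 6)], [(1, 6), (4, 6), (7, 6), (14, 6)], [(6, 6), (9, 9), (10, 9), (13, 9)], [(6, 9),
      (9, 12), (10, 12), (13, 12)], [(8, 12), (11, 12), (12, 12), (15, 9)], [(8, 12), (11, 12),
      (12, 12), (15, 9)], [(6, 9), (9, 12), (10, 12), (13, 12)], [(6, 9), (9, 12), (10, 12), (13,
      12)], [(8, 12), (11, 12), (12, 12), (15, 9)], [(8, 9), (11, 9), (12, 9), (15, 6)], [(1, 6),
      (4, 6), (7, 6), (14, 6)]]
   []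
   .nil)
  (.lp .none [12, 8, 0, 6, 12, 12, 12, 6] [] [-6, -6, -4, -4, 0, 0, -3, -3, -6, -6, -6, -6, -6, -6,
      -3, -3] 24 5
   [[(4, 6)], [(5, 6)], [(2, 8)], [(3, 8)], [(0, 6)], [(1, 6)], [(14, 6)], [(6, 6), (9, 9), (10,
      9), (13, 9)], [(6, 9), (9, 12), (10, 12), (13, 12)], [(8, 12), (11, 12), (12, 12), (15, 9)],
      [(8, 12), (11, 12), (12, 12), (15, 9)], [(6, 9), (9, 12), (10, 12), (13, 12)], [(6, 9), (9,
      12), (10, 12), (13, 12)], [(8, 12), (11, 12), (12, 12), (15, 9)], [(8, 9), (11, 9), (12, 9),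
      (15, 6)], [(7, 6)]]
   []
   .nil)
  (.lp .none [6, 8, 6, 6, 6, 6, 18, 6] [] [-3, -3, -4, -4, -3, -3, -3, -3, -3, -3, -3, -3, -9, -9,
      -3, -3] 24 5
   [[(7, 6)], [(5, 6)], [(2, 8)], [(3, 8)], [(0, 6)], [(14, 6)], [(1, 6)], [(6, 6), (9, 6), (10,
      6), (13, 12)], [(6, 6), (9, 6), (10, 6), (13, 12)], [(8, 6), (11, 6), (12, 12), (15, 6)],
      [(8, 6), (11, 6), (12, 12), (15, 6)], [(6, 6), (9, 6), (10, 6), (13, 12)], [(6, 12), (9, 12),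
      (10, 12), (13, 18)], [(8, 12), (11, 12), (12, 18), (15, 12)], [(8, 6), (11, 6), (12, 12),
      (15, 6)], [(4, 6)]]
   []
   .nil))
 (.splitT 2
  (.lp .none [2, 2, 2, 2, 4, 4, 4, 2] [] [-1, -1, -1, -1, -1, -1, -1, -1, -2, -2, -2, -2, -2, -2,
      -1, -1] 8 5
   [[(1, 2), (4, 2), (7, 2), (14, 2)], [(2, 2)], [(5, 2)], [(0, 2)], [(3, 2)], [(1, 2), (4, 2), (7,
      2), (14, 2)], [(1, 2), (4, 2), (7, 2), (14, 2)], [(6, 2), (9, 3), (10, 3), (13, 3)], [(6, 3),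
      (9, 4), (10, 4), (13, 4)], [(8, 4), (11, 4), (12, 4), (15, 3)], [(8, 4), (11, 4), (12, 4),
      (15, 3)], [(6, 3), (9, 4), (10, 4), (13, 4)], [(6, 3), (9, 4), (10, 4), (13, 4)], [(8, 4),
      (11, 4), (12, 4), (15, 3)], [(8, 3), (11, 3), (12, 3), (15, 2)], [(1, 2), (4, 2), (7, 2),
      (14, 2)]]
   [[1, 1, 1, 0, 0, 0, 0, 0]]
   (.cons (.leafM 6 [0, 1, 2, 3, 5, 7] [(1, [-1, -1, 0, 1])])
   .nil))
  (.lp (.two 4 6) [44, 44, 8, 26, 44, 36, 60, 26] [] [-22, -22, -22, -22, -4, -4, -13, -13, -22,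
      -22, -18, -18, -30, -30, -13, -13] 96 5
   [[(4, 26)], [(2, 44)], [(5, 26)], [(0, 44)], [(3, 26)], [(1, 26)], [(14, 26)], [(6, 26), (9,
      35), (10, 31), (13, 43)], [(6, 35), (9, 44), (10, 40), (13, 52)], [(8, 44), (11, 40), (12,
      52), (15, 35)], [(8, 40), (11, 36), (12, 48), (15, 31)], [(6, 31), (9, 40), (10, 36), (13,
      48)], [(6, 43), (9, 52), (10, 48), (13, 60)], [(8, 52), (11, 48), (12, 60), (15, 43)], [(8,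
      35), (11, 31), (12, 43), (15, 26)], [(7, 26)]]
   [[0, 0, 0, 1, 0, 1, 0, 1]]
   (.cons (.leafM 6 [0, 1, 2, 3, 5, 7] [(1, [1, 0, 0, 0])])
   .nil))
  (.lp .none [2, 2, 2, 2, 2, 2, 6, 2] [] [-1, -1, -1, -1, -1, -1, -1, -1, -1, -1, -1, -1, -3, -3,
      -1, -1] 8 5
   [[(7, 2)], [(2, 2)], [(5, 2)], [(0, 2)], [(3, 2)], [(14, 2)], [(1, 2)], [(6, 2), (9, 2), (10,
      2), (13, 4)], [(6, 2), (9, 2), (10, 2), (13, 4)], [(8, 2), (11, 2), (12, 4), (15, 2)], [(8,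
      2), (11, 2), (12, 4), (15, 2)], [(6, 2), (9, 2), (10, 2), (13, 4)], [(6, 4), (9, 4), (10, 4),
      (13, 6)], [(8, 4), (11, 4), (12, 6), (15, 4)], [(8, 2), (11, 2), (12, 4), (15, 2)], [(4, 2)]]
   []
   .nil))

/-- classes `0 0 1 2 3 2 3 4`, active pairs `4-5 4-6` -/
def trS8_15 : Tr2 :=
  .splitT 0
 (.lp .none [2, 4, 2, 2, 6, 2, 2, 2] [] [-1, -1, -2, -2, -1, -1, -1, -1, -3, -3, -1, -1, -1, -1,
      -1, -1] 8 5
  [[(1, 2), (14, 2)], [(0, 2), (2, 3), (3, 3), (5, 2)], [(0, 3), (2, 4), (3, 4), (5, 3)], [(0, 3),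
      (2, 4), (3, 4), (5, 3)], [(0, 2), (2, 3), (3, 3), (5, 2)], [(4, 2), (7, 2)], [(4, 2), (7,
      2)], [(6, 2), (9, 4), (10, 2), (13, 2)], [(6, 4), (9, 6), (10, 4), (13, 4)], [(8, 6), (11,
      4), (12, 4), (15, 4)], [(8, 4), (11, 2), (12, 2), (15, 2)], [(6, 2), (9, 4), (10, 2), (13,
      2)], [(6, 2), (9, 4), (10, 2), (13, 2)], [(8, 4), (11, 2), (12, 2), (15, 2)], [(8, 4), (11,
      2), (12, 2), (15, 2)], [(1, 2), (14, 2)]]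
  []
  .nil)
 (.lp .none [6, 8, 6, 6, 18, 6, 6, 6] [] [-3, -3, -4, -4, -3, -3, -3, -3, -9, -9, -3, -3, -3, -3,
      -3, -3] 24 5
  [[(1, 6), (14, 6)], [(5, 6)], [(2, 8)], [(3, 8)], [(0, 6)], [(4, 6), (7, 6)], [(4, 6), (7, 6)],
      [(6, 6), (9, 12), (10, 6), (13, 6)], [(6, 12), (9, 18), (10, 12), (13, 12)], [(8, 18), (11,
      12), (12, 12), (15, 12)], [(8, 12), (11, 6), (12, 6), (15, 6)], [(6, 6), (9, 12), (10, 6),
      (13, 6)], [(6, 6), (9, 12), (10, 6), (13, 6)], [(8, 12), (11, 6), (12, 6), (15, 6)], [(8,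
      12), (11, 6), (12, 6), (15, 6)], [(1, 6), (14, 6)]]
  []
  .nil)
 (.lp .none [2, 2, 2, 2, 6, 2, 2, 2] [] [-1, -1, -1, -1, -1, -1, -1, -1, -3, -3, -1, -1, -1, -1,
      -1, -1] 8 5
  [[(1, 2), (14, 2)], [(2, 2)], [(5, 2)], [(0, 2)], [(3, 2)], [(4, 2), (7, 2)], [(4, 2), (7, 2)],
      [(6, 2), (9, 4), (10, 2), (13, 2)], [(6, 4), (9, 6), (10, 4), (13, 4)], [(8, 6), (11, 4),
      (12, 4), (15, 4)], [(8, 4), (11, 2), (12, 2), (15, 2)], [(6, 2), (9, 4), (10, 2), (13, 2)],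
      [(6, 2), (9, 4), (10, 2), (13, 2)], [(8, 4), (11, 2), (12, 2), (15, 2)], [(8, 4), (11, 2),
      (12, 2), (15, 2)], [(1, 2), (14, 2)]]
  []
  .nil)

/-- classes `0 0 1 2 3 2 3 4`, active pairs `4-5 5-6` -/
def trS8_16 : Tr2 :=
  .splitT 0
 (.lp .none [2, 4, 2, 2, 2, 6, 2, 2] [] [-1, -1, -2, -2, -1, -1, -1, -1, -1, -1, -3, -3, -1, -1,
      -1, -1] 8 5
  [[(1, 2), (14, 2)], [(0, 2), (2, 3), (3, 3), (5, 2)], [(0, 3), (2, 4), (3, 4), (5, 3)], [(0, 3),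
      (2, 4), (3, 4), (5, 3)], [(0, 2), (2, 3), (3, 3), (5, 2)], [(4, 2), (7, 2)], [(4, 2), (7,
      2)], [(6, 2), (9, 2), (10, 4), (13, 2)], [(6, 2), (9, 2), (10, 4), (13, 2)], [(8, 2), (11,
      4), (12, 2), (15, 2)], [(8, 4), (11, 6), (12, 4), (15, 4)], [(6, 4), (9, 4), (10, 6), (13,
      4)], [(6, 2), (9, 2), (10, 4), (13, 2)], [(8, 2), (11, 4), (12, 2), (15, 2)], [(8, 2), (11,
      4), (12, 2), (15, 2)], [(1, 2), (14, 2)]]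
  []
  .nil)
 (.lp .none [6, 8, 6, 6, 6, 18, 6, 6] [] [-3, -3, -4, -4, -3, -3, -3, -3, -3, -3, -9, -9, -3, -3,
      -3, -3] 24 5
  [[(1, 6), (14, 6)], [(5, 6)], [(2, 8)], [(3, 8)], [(0, 6)], [(4, 6), (7, 6)], [(4, 6), (7, 6)],
      [(6, 6), (9, 6), (10, 12), (13, 6)], [(6, 6), (9, 6), (10, 12), (13, 6)], [(8, 6), (11, 12),
      (12, 6), (15, 6)], [(8, 12), (11, 18), (12, 12), (15, 12)], [(6, 12), (9, 12), (10, 18), (13,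
      12)], [(6, 6), (9, 6), (10, 12), (13, 6)], [(8, 6), (11, 12), (12, 6), (15, 6)], [(8, 6),
      (11, 12), (12, 6), (15, 6)], [(1, 6), (14, 6)]]
  []
  .nil)
 (.lp .none [2, 2, 2, 2, 2, 6, 2, 2] [] [-1, -1, -1, -1, -1, -1, -1, -1, -1, -1, -3, -3, -1, -1,
      -1, -1] 8 5
  [[(1, 2), (14, 2)], [(2, 2)], [(5, 2)], [(0, 2)], [(3, 2)], [(4, 2), (7, 2)], [(4, 2), (7, 2)],
      [(6, 2), (9, 2), (10, 4), (13, 2)], [(6, 2), (9, 2), (10, 4), (13, 2)], [(8, 2), (11, 4),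
      (12, 2), (15, 2)], [(8, 4), (11, 6), (12, 4), (15, 4)], [(6, 4), (9, 4), (10, 6), (13, 4)],
      [(6, 2), (9, 2), (10, 4), (13, 2)], [(8, 2), (11, 4), (12, 2), (15, 2)], [(8, 2), (11, 4),
      (12, 2), (15, 2)], [(1, 2), (14, 2)]]
  []
  .nil)

/-- classes `0 0 1 2 3 2 3 4`, active pairs `4-6 5-6` -/
def trS8_17 : Tr2 :=
  .splitT 0
 (.lp .none [2, 4, 2, 2, 2, 2, 6, 2] [] [-1, -1, -2, -2, -1, -1, -1, -1, -1, -1, -1, -1, -3, -3,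
      -1, -1] 8 5
  [[(1, 2), (14, 2)], [(0, 2), (2, 3), (3, 3), (5, 2)], [(0, 3), (2, 4), (3, 4), (5, 3)], [(0, 3),
      (2, 4), (3, 4), (5, 3)], [(0, 2), (2, 3), (3, 3), (5, 2)], [(4, 2), (7, 2)], [(4, 2), (7,
      2)], [(6, 2), (9, 2), (10, 2), (13, 4)], [(6, 2), (9, 2), (10, 2), (13, 4)], [(8, 2), (11,
      2), (12, 4), (15, 2)], [(8, 2), (11, 2), (12, 4), (15, 2)], [(6, 2), (9, 2), (10, 2), (13,
      4)], [(6, 4), (9, 4), (10, 4), (13, 6)], [(8, 4), (11, 4), (12, 6), (15, 4)], [(8, 2), (11,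
      2), (12, 4), (15, 2)], [(1, 2), (14, 2)]]
  []
  .nil)
 (.lp .none [6, 8, 6, 6, 6, 6, 18, 6] [] [-3, -3, -4, -4, -3, -3, -3, -3, -3, -3, -3, -3, -9, -9,
      -3, -3] 24 5
  [[(1, 6), (14, 6)], [(5, 6)], [(2, 8)], [(3, 8)], [(0, 6)], [(4, 6), (7, 6)], [(4, 6), (7, 6)],
      [(6, 6), (9, 6), (10, 6), (13, 12)], [(6, 6), (9, 6), (10, 6), (13, 12)], [(8, 6), (11, 6),
      (12, 12), (15, 6)], [(8, 6), (11, 6), (12, 12), (15, 6)], [(6, 6), (9, 6), (10, 6), (13,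
      12)], [(6, 12), (9, 12), (10, 12), (13, 18)], [(8, 12), (11, 12), (12, 18), (15, 12)], [(8,
      6), (11, 6), (12, 12), (15, 6)], [(1, 6), (14, 6)]]
  []
  .nil)
 (.lp .none [2, 2, 2, 2, 2, 2, 6, 2] [] [-1, -1, -1, -1, -1, -1, -1, -1, -1, -1, -1, -1, -3, -3,
      -1, -1] 8 5
  [[(1, 2), (14, 2)], [(2, 2)], [(5, 2)], [(0, 2)], [(3, 2)], [(4, 2), (7, 2)], [(4, 2), (7, 2)],
      [(6, 2), (9, 2), (10, 2), (13, 4)], [(6, 2), (9, 2), (10, 2), (13, 4)], [(8, 2), (11, 2),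
      (12, 4), (15, 2)], [(8, 2), (11, 2), (12, 4), (15, 2)], [(6, 2), (9, 2), (10, 2), (13, 4)],
      [(6, 4), (9, 4), (10, 4), (13, 6)], [(8, 4), (11, 4), (12, 6), (15, 4)], [(8, 2), (11, 2),
      (12, 4), (15, 2)], [(1, 2), (14, 2)]]
  []
  .nil)

/-- classes `0 0 1 2 3 3 2 1`, active pairs `0-2 4-6` -/
def trS8_18 : Tr2 :=
  .lp (.imp 0) [10, 4, 6, 4, 6, 4, 10, 4] [] [-5, -5, -2, -2, -3, -3, -2, -2, -3, -3, -2, -2, -5, -5,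
      -2, -2] 16 6
 [[(1, 10), (4, 8), (7, 7), (14, 7)], [(0, 10), (2, 7), (3, 7), (5, 8)], [(0, 7), (2, 4), (3, 4),
      (5, 5)], [(0, 7), (2, 4), (3, 4), (5, 5)], [(0, 8), (2, 5), (3, 5), (5, 6)], [(1, 8), (4, 6),
      (7, 5), (14, 5)], [(1, 7), (4, 5), (7, 4), (14, 4)], [(6, 4), (9, 5), (12, 7), (15, 4)], [(6,
      5), (9, 6), (12, 8), (15, 5)], [(8, 6), (10, 5), (11, 5), (13, 8)], [(8, 5), (10, 4), (11,
      4), (13, 7)], [(8, 5), (10, 4), (11, 4), (13, 7)], [(8, 8), (10, 7), (11, 7), (13, 10)], [(6,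
      7), (9, 8), (12, 10), (15, 7)], [(6, 4), (9, 5), (12, 7), (15, 4)], [(1, 7), (4, 5), (7, 4),
      (14, 4)]]
 [[0, 3, 0, 0, 0, 0, 0, 0], [0, 0, 0, 0, 0, 3, 0, 0]]
 (.cons (.lp .none [278, 160, 160, 142, 180, 120, 254, 142] [(4, 14, -42), (15, 5, -42), (6, 12,
      46), (13, 7, 46)] [-139, -139, -80, -80, -80, -80, -71, -71, -90, -90, -60, -60, -127, -127,
      -71, -71] 480 6
  [[(1, 278), (4, 261), (7, 210), (14, 210)], [(0, 278), (2, 219), (3, 219), (5, 219)], [(0, 219),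
      (2, 160), (3, 160), (5, 160)], [(0, 219), (2, 160), (3, 160), (5, 160)], [(0, 219), (2, 160),
      (3, 160), (5, 160)], [(1, 261), (4, 160), (7, 151), (14, 151)], [(1, 210), (4, 151), (7,
      142), (14, 100)], [(6, 142), (9, 161), (12, 198), (15, 96)], [(6, 161), (9, 180), (12, 263),
      (15, 161)], [(8, 180), (10, 150), (11, 150), (13, 217)], [(8, 150), (10, 120), (11, 120),
      (13, 187)], [(8, 150), (10, 120), (11, 120), (13, 187)], [(8, 217), (10, 187), (11, 187),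
      (13, 254)], [(6, 198), (9, 263), (12, 254), (15, 198)], [(6, 96), (9, 161), (12, 198), (15,
      142)], [(1, 210), (4, 151), (7, 100), (14, 142)]]
  [[0, 0, 0, 2, 0, 0, 0, 2], [0, 0, 0, 0, 0, 3, 0, 0]]
  (.cons (.leafM 11 [7, 1, 3, 5] [(1, [0, 1, 0, 0, 0]), (2, [-3, -2, -6, -6, 6]), (2, [1, 0, 0, 0,
      0])])
  (.cons (.leafM 10 [3, 5, 7, 1] [(1, [1, 0, 0, 0, 0]), (1, [0, 1, 0, 0, 0]), (1, [-1, -1, -3, -3,
      3])])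
  .nil)))
 (.cons (.lp .none [258, 120, 180, 142, 160, 160, 274, 142] [(4, 14, -42), (15, 5, -42), (6, 12,
      46), (13, 7, 46)] [-129, -129, -60, -60, -90, -90, -71, -71, -80, -80, -80, -80, -137, -137,
      -71, -71] 480 6
  [[(1, 258), (4, 261), (7, 200), (14, 200)], [(0, 258), (2, 189), (3, 189), (5, 219)], [(0, 189),
      (2, 120), (3, 120), (5, 150)], [(0, 189), (2, 120), (3, 120), (5, 150)], [(0, 219), (2, 150),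
      (3, 150), (5, 180)], [(1, 261), (4, 180), (7, 161), (14, 161)], [(1, 200), (4, 161), (7,
      142), (14, 100)], [(6, 142), (9, 151), (12, 208), (15, 96)], [(6, 151), (9, 160), (12, 263),
      (15, 151)], [(8, 160), (10, 160), (11, 160), (13, 217)], [(8, 160), (10, 160), (11, 160),
      (13, 217)], [(8, 160), (10, 160), (11, 160), (13, 217)], [(8, 217), (10, 217), (11, 217),
      (13, 274)], [(6, 208), (9, 263), (12, 274), (15, 208)], [(6, 96), (9, 151), (12, 208), (15,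
      142)], [(1, 200), (4, 161), (7, 100), (14, 142)]]
  [[0, 3, 0, 0, 0, 0, 0, 0], [0, 0, 0, 2, 0, 0, 0, 2]]
  (.cons (.leafM 10 [3, 5, 7, 1] [(1, [0, 1, 0, 0, 0]), (1, [1, 0, 0, 0, 0]), (1, [-1, -1, -3, -3,
      3])])
  (.cons (.leafM 11 [3, 5, 7, 1] [(1, [0, 1, 0, 0, 0]), (2, [-3, -2, -6, -6, 6]), (2, [1, 0, 0, 0,
      0])])
  .nil)))
 .nil))

/-- classes `0 0 1 2 3 4 3 4`, active pairs `5-6 5-7` -/
def trS8_19 : Tr2 :=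
  .splitT 0
 (.lp .none [2, 4, 2, 2, 2, 6, 2, 2] [] [-1, -1, -2, -2, -1, -1, -1, -1, -1, -1, -3, -3, -1, -1,
      -1, -1] 8 5
  [[(1, 2), (10, 4), (13, 2), (14, 2)], [(0, 2), (2, 3), (3, 3), (5, 2)], [(0, 3), (2, 4), (3, 4),
      (5, 3)], [(0, 3), (2, 4), (3, 4), (5, 3)], [(0, 2), (2, 3), (3, 3), (5, 2)], [(4, 2), (7,
      2)], [(4, 2), (7, 2)], [(6, 2), (9, 2)], [(6, 2), (9, 2)], [(8, 2), (11, 4), (12, 2), (15,
      2)], [(8, 4), (11, 6), (12, 4), (15, 4)], [(1, 4), (10, 6), (13, 4), (14, 4)], [(1, 2), (10,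
      4), (13, 2), (14, 2)], [(8, 2), (11, 4), (12, 2), (15, 2)], [(8, 2), (11, 4), (12, 2), (15,
      2)], [(1, 2), (10, 4), (13, 2), (14, 2)]]
  []
  .nil)
 (.lp .none [6, 8, 6, 6, 6, 18, 6, 6] [] [-3, -3, -4, -4, -3, -3, -3, -3, -3, -3, -9, -9, -3, -3,
      -3, -3] 24 5
  [[(1, 6), (10, 12), (13, 6), (14, 6)], [(5, 6)], [(2, 8)], [(3, 8)], [(0, 6)], [(4, 6), (7, 6)],
      [(4, 6), (7, 6)], [(6, 6), (9, 6)], [(6, 6), (9, 6)], [(8, 6), (11, 12), (12, 6), (15, 6)],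
      [(8, 12), (11, 18), (12, 12), (15, 12)], [(1, 12), (10, 18), (13, 12), (14, 12)], [(1, 6),
      (10, 12), (13, 6), (14, 6)], [(8, 6), (11, 12), (12, 6), (15, 6)], [(8, 6), (11, 12), (12,
      6), (15, 6)], [(1, 6), (10, 12), (13, 6), (14, 6)]]
  []
  .nil)
 (.lp .none [2, 2, 2, 2, 2, 6, 2, 2] [] [-1, -1, -1, -1, -1, -1, -1, -1, -1, -1, -3, -3, -1, -1,
      -1, -1] 8 5
  [[(1, 2), (10, 4), (13, 2), (14, 2)], [(2, 2)], [(5, 2)], [(0, 2)], [(3, 2)], [(4, 2), (7, 2)],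
      [(4, 2), (7, 2)], [(6, 2), (9, 2)], [(6, 2), (9, 2)], [(8, 2), (11, 4), (12, 2), (15, 2)],
      [(8, 4), (11, 6), (12, 4), (15, 4)], [(1, 4), (10, 6), (13, 4), (14, 4)], [(1, 2), (10, 4),
      (13, 2), (14, 2)], [(8, 2), (11, 4), (12, 2), (15, 2)], [(8, 2), (11, 4), (12, 2), (15, 2)],
      [(1, 2), (10, 4), (13, 2), (14, 2)]]
  []
  .nil)

/-- classes `0 0 1 2 3 4 3 4`, active pairs `5-6 6-7` -/
def trS8_20 : Tr2 :=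
  .splitT 0
 (.lp .none [2, 4, 2, 2, 2, 2, 6, 2] [] [-1, -1, -2, -2, -1, -1, -1, -1, -1, -1, -1, -1, -3, -3,
      -1, -1] 8 5
  [[(1, 2), (10, 2), (13, 4), (14, 2)], [(0, 2), (2, 3), (3, 3), (5, 2)], [(0, 3), (2, 4), (3, 4),
      (5, 3)], [(0, 3), (2, 4), (3, 4), (5, 3)], [(0, 2), (2, 3), (3, 3), (5, 2)], [(4, 2), (7,
      2)], [(4, 2), (7, 2)], [(6, 2), (9, 2)], [(6, 2), (9, 2)], [(8, 2), (11, 2), (12, 4), (15,
      2)], [(8, 2), (11, 2), (12, 4), (15, 2)], [(1, 2), (10, 2), (13, 4), (14, 2)], [(1, 4), (10,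
      4), (13, 6), (14, 4)], [(8, 4), (11, 4), (12, 6), (15, 4)], [(8, 2), (11, 2), (12, 4), (15,
      2)], [(1, 2), (10, 2), (13, 4), (14, 2)]]
  []
  .nil)
 (.lp .none [6, 8, 6, 6, 6, 6, 18, 6] [] [-3, -3, -4, -4, -3, -3, -3, -3, -3, -3, -3, -3, -9, -9,
      -3, -3] 24 5
  [[(1, 6), (10, 6), (13, 12), (14, 6)], [(5, 6)], [(2, 8)], [(3, 8)], [(0, 6)], [(4, 6), (7, 6)],
      [(4, 6), (7, 6)], [(6, 6), (9, 6)], [(6, 6), (9, 6)], [(8, 6), (11, 6), (12, 12), (15, 6)],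
      [(8, 6), (11, 6), (12, 12), (15, 6)], [(1, 6), (10, 6), (13, 12), (14, 6)], [(1, 12), (10,
      12), (13, 18), (14, 12)], [(8, 12), (11, 12), (12, 18), (15, 12)], [(8, 6), (11, 6), (12,
      12), (15, 6)], [(1, 6), (10, 6), (13, 12), (14, 6)]]
  []
  .nil)
 (.lp .none [2, 2, 2, 2, 2, 2, 6, 2] [] [-1, -1, -1, -1, -1, -1, -1, -1, -1, -1, -1, -1, -3, -3,
      -1, -1] 8 5
  [[(1, 2), (10, 2), (13, 4), (14, 2)], [(2, 2)], [(5, 2)], [(0, 2)], [(3, 2)], [(4, 2), (7, 2)],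
      [(4, 2), (7, 2)], [(6, 2), (9, 2)], [(6, 2), (9, 2)], [(8, 2), (11, 2), (12, 4), (15, 2)],
      [(8, 2), (11, 2), (12, 4), (15, 2)], [(1, 2), (10, 2), (13, 4), (14, 2)], [(1, 4), (10, 4),
      (13, 6), (14, 4)], [(8, 4), (11, 4), (12, 6), (15, 4)], [(8, 2), (11, 2), (12, 4), (15, 2)],
      [(1, 2), (10, 2), (13, 4), (14, 2)]]
  []
  .nil)

/-- classes `0 0 1 2 3 4 3 4`, active pairs `5-7 6-7` -/
def trS8_21 : Tr2 :=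
  .splitT 0
 (.lp .none [2, 4, 2, 2, 2, 2, 2, 6] [] [-1, -1, -2, -2, -1, -1, -1, -1, -1, -1, -1, -1, -1, -1,
      -3, -3] 8 5
  [[(1, 2), (10, 2), (13, 2), (14, 4)], [(0, 2), (2, 3), (3, 3), (5, 2)], [(0, 3), (2, 4), (3, 4),
      (5, 3)], [(0, 3), (2, 4), (3, 4), (5, 3)], [(0, 2), (2, 3), (3, 3), (5, 2)], [(4, 2), (7,
      2)], [(4, 2), (7, 2)], [(6, 2), (9, 2)], [(6, 2), (9, 2)], [(8, 2), (11, 2), (12, 2), (15,
      4)], [(8, 2), (11, 2), (12, 2), (15, 4)], [(1, 2), (10, 2), (13, 2), (14, 4)], [(1, 2), (10,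
      2), (13, 2), (14, 4)], [(8, 2), (11, 2), (12, 2), (15, 4)], [(8, 4), (11, 4), (12, 4), (15,
      6)], [(1, 4), (10, 4), (13, 4), (14, 6)]]
  []
  .nil)
 (.lp .none [6, 8, 6, 6, 6, 6, 6, 18] [] [-3, -3, -4, -4, -3, -3, -3, -3, -3, -3, -3, -3, -3, -3,
      -9, -9] 24 5
  [[(1, 6), (10, 6), (13, 6), (14, 12)], [(5, 6)], [(2, 8)], [(3, 8)], [(0, 6)], [(4, 6), (7, 6)],
      [(4, 6), (7, 6)], [(6, 6), (9, 6)], [(6, 6), (9, 6)], [(8, 6), (11, 6), (12, 6), (15, 12)],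
      [(8, 6), (11, 6), (12, 6), (15, 12)], [(1, 6), (10, 6), (13, 6), (14, 12)], [(1, 6), (10, 6),
      (13, 6), (14, 12)], [(8, 6), (11, 6), (12, 6), (15, 12)], [(8, 12), (11, 12), (12, 12), (15,
      18)], [(1, 12), (10, 12), (13, 12), (14, 18)]]
  []
  .nil)
 (.lp .none [2, 2, 2, 2, 2, 2, 2, 6] [] [-1, -1, -1, -1, -1, -1, -1, -1, -1, -1, -1, -1, -1, -1,
      -3, -3] 8 5
  [[(1, 2), (10, 2), (13, 2), (14, 4)], [(2, 2)], [(5, 2)], [(0, 2)], [(3, 2)], [(4, 2), (7, 2)],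
      [(4, 2), (7, 2)], [(6, 2), (9, 2)], [(6, 2), (9, 2)], [(8, 2), (11, 2), (12, 2), (15, 4)],
      [(8, 2), (11, 2), (12, 2), (15, 4)], [(1, 2), (10, 2), (13, 2), (14, 4)], [(1, 2), (10, 2),
      (13, 2), (14, 4)], [(8, 2), (11, 2), (12, 2), (15, 4)], [(8, 4), (11, 4), (12, 4), (15, 6)],
      [(1, 4), (10, 4), (13, 4), (14, 6)]]
  []
  .nil)

/-- classes `0 1 0 1 2 3 2 3`, active pairs `1-2 1-3` -/
def trS8_22 : Tr2 :=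
  .splitT 4
 (.splitT 5
  (.lp .none [2, 6, 2, 2, 2, 2, 2, 2] [] [-1, -1, -3, -3, -1, -1, -1, -1, -1, -1, -1, -1, -1, -1,
      -1, -1] 8 5
   [[(1, 2), (10, 2), (13, 2), (14, 2)], [(0, 2), (3, 4), (4, 2), (7, 2)], [(0, 4), (3, 6), (4, 4),
      (7, 4)], [(2, 6), (5, 4), (6, 4), (9, 4)], [(2, 4), (5, 2), (6, 2), (9, 2)], [(0, 2), (3, 4),
      (4, 2), (7, 2)], [(0, 2), (3, 4), (4, 2), (7, 2)], [(2, 4), (5, 2), (6, 2), (9, 2)], [(2, 4),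
      (5, 2), (6, 2), (9, 2)], [(8, 2), (11, 2), (12, 2), (15, 2)], [(8, 2), (11, 2), (12, 2), (15,
      2)], [(1, 2), (10, 2), (13, 2), (14, 2)], [(1, 2), (10, 2), (13, 2), (14, 2)], [(8, 2), (11,
      2), (12, 2), (15, 2)], [(8, 2), (11, 2), (12, 2), (15, 2)], [(1, 2), (10, 2), (13, 2), (14,
      2)]]
   []
   .nil)
  (.lp .none [2, 6, 2, 2, 2, 2, 2, 2] [] [-1, -1, -3, -3, -1, -1, -1, -1, -1, -1, -1, -1, -1, -1,
      -1, -1] 8 5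
   [[(10, 2)], [(0, 2), (3, 4), (4, 2), (7, 2)], [(0, 4), (3, 6), (4, 4), (7, 4)], [(2, 6), (5, 4),
      (6, 4), (9, 4)], [(2, 4), (5, 2), (6, 2), (9, 2)], [(0, 2), (3, 4), (4, 2), (7, 2)], [(0, 2),
      (3, 4), (4, 2), (7, 2)], [(2, 4), (5, 2), (6, 2), (9, 2)], [(2, 4), (5, 2), (6, 2), (9, 2)],
      [(8, 2), (11, 2), (12, 2), (15, 2)], [(8, 2), (11, 2), (12, 2), (15, 2)], [(1, 2)], [(14,
      2)], [(8, 2), (11, 2), (12, 2), (15, 2)], [(8, 2), (11, 2), (12, 2), (15, 2)], [(13, 2)]]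
   []
   .nil)
  (.lp .none [2, 6, 2, 2, 2, 2, 2, 2] [] [-1, -1, -3, -3, -1, -1, -1, -1, -1, -1, -1, -1, -1, -1,
      -1, -1] 8 5
   [[(13, 2)], [(0, 2), (3, 4), (4, 2), (7, 2)], [(0, 4), (3, 6), (4, 4), (7, 4)], [(2, 6), (5, 4),
      (6, 4), (9, 4)], [(2, 4), (5, 2), (6, 2), (9, 2)], [(0, 2), (3, 4), (4, 2), (7, 2)], [(0, 2),
      (3, 4), (4, 2), (7, 2)], [(2, 4), (5, 2), (6, 2), (9, 2)], [(2, 4), (5, 2), (6, 2), (9, 2)],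
      [(8, 2), (11, 2), (12, 2), (15, 2)], [(8, 2), (11, 2), (12, 2), (15, 2)], [(14, 2)], [(1,
      2)], [(8, 2), (11, 2), (12, 2), (15, 2)], [(8, 2), (11, 2), (12, 2), (15, 2)], [(10, 2)]]
   []
   .nil))
 (.splitT 5
  (.lp .none [2, 6, 2, 2, 2, 2, 2, 2] [] [-1, -1, -3, -3, -1, -1, -1, -1, -1, -1, -1, -1, -1, -1,
      -1, -1] 8 5
   [[(1, 2), (10, 2), (13, 2), (14, 2)], [(0, 2), (3, 4), (4, 2), (7, 2)], [(0, 4), (3, 6), (4, 4),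
      (7, 4)], [(2, 6), (5, 4), (6, 4), (9, 4)], [(2, 4), (5, 2), (6, 2), (9, 2)], [(0, 2), (3, 4),
      (4, 2), (7, 2)], [(0, 2), (3, 4), (4, 2), (7, 2)], [(2, 4), (5, 2), (6, 2), (9, 2)], [(2, 4),
      (5, 2), (6, 2), (9, 2)], [(15, 2)], [(12, 2)], [(1, 2), (10, 2), (13, 2), (14, 2)], [(1, 2),
      (10, 2), (13, 2), (14, 2)], [(11, 2)], [(8, 2)], [(1, 2), (10, 2), (13, 2), (14, 2)]]
   []
   .nil)
  (.lp .none [2, 6, 2, 2, 2, 2, 2, 2] [] [-1, -1, -3, -3, -1, -1, -1, -1, -1, -1, -1, -1, -1, -1,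
      -1, -1] 8 5
   [[(10, 2)], [(0, 2), (3, 4), (4, 2), (7, 2)], [(0, 4), (3, 6), (4, 4), (7, 4)], [(2, 6), (5, 4),
      (6, 4), (9, 4)], [(2, 4), (5, 2), (6, 2), (9, 2)], [(0, 2), (3, 4), (4, 2), (7, 2)], [(0, 2),
      (3, 4), (4, 2), (7, 2)], [(2, 4), (5, 2), (6, 2), (9, 2)], [(2, 4), (5, 2), (6, 2), (9, 2)],
      [(15, 2)], [(12, 2)], [(1, 2)], [(14, 2)], [(11, 2)], [(8, 2)], [(13, 2)]]
   []
   .nil)
  (.lp .none [2, 6, 2, 2, 2, 2, 2, 2] [] [-1, -1, -3, -3, -1, -1, -1, -1, -1, -1, -1, -1, -1, -1,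
      -1, -1] 8 5
   [[(13, 2)], [(0, 2), (3, 4), (4, 2), (7, 2)], [(0, 4), (3, 6), (4, 4), (7, 4)], [(2, 6), (5, 4),
      (6, 4), (9, 4)], [(2, 4), (5, 2), (6, 2), (9, 2)], [(0, 2), (3, 4), (4, 2), (7, 2)], [(0, 2),
      (3, 4), (4, 2), (7, 2)], [(2, 4), (5, 2), (6, 2), (9, 2)], [(2, 4), (5, 2), (6, 2), (9, 2)],
      [(15, 2)], [(12, 2)], [(14, 2)], [(1, 2)], [(11, 2)], [(8, 2)], [(10, 2)]]
   []
   .nil))
 (.splitT 5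
  (.lp .none [2, 6, 2, 2, 2, 2, 2, 2] [] [-1, -1, -3, -3, -1, -1, -1, -1, -1, -1, -1, -1, -1, -1,
      -1, -1] 8 5
   [[(1, 2), (10, 2), (13, 2), (14, 2)], [(0, 2), (3, 4), (4, 2), (7, 2)], [(0, 4), (3, 6), (4, 4),
      (7, 4)], [(2, 6), (5, 4), (6, 4), (9, 4)], [(2, 4), (5, 2), (6, 2), (9, 2)], [(0, 2), (3, 4),
      (4, 2), (7, 2)], [(0, 2), (3, 4), (4, 2), (7, 2)], [(2, 4), (5, 2), (6, 2), (9, 2)], [(2, 4),
      (5, 2), (6, 2), (9, 2)], [(12, 2)], [(15, 2)], [(1, 2), (10, 2), (13, 2), (14, 2)], [(1, 2),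
      (10, 2), (13, 2), (14, 2)], [(8, 2)], [(11, 2)], [(1, 2), (10, 2), (13, 2), (14, 2)]]
   []
   .nil)
  (.lp .none [2, 6, 2, 2, 2, 2, 2, 2] [] [-1, -1, -3, -3, -1, -1, -1, -1, -1, -1, -1, -1, -1, -1,
      -1, -1] 8 5
   [[(10, 2)], [(0, 2), (3, 4), (4, 2), (7, 2)], [(0, 4), (3, 6), (4, 4), (7, 4)], [(2, 6), (5, 4),
      (6, 4), (9, 4)], [(2, 4), (5, 2), (6, 2), (9, 2)], [(0, 2), (3, 4), (4, 2), (7, 2)], [(0, 2),
      (3, 4), (4, 2), (7, 2)], [(2, 4), (5, 2), (6, 2), (9, 2)], [(2, 4), (5, 2), (6, 2), (9, 2)],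
      [(12, 2)], [(15, 2)], [(1, 2)], [(14, 2)], [(8, 2)], [(11, 2)], [(13, 2)]]
   []
   .nil)
  (.lp .none [2, 6, 2, 2, 2, 4, 2, 0] [] [-1, -1, -3, -3, -1, -1, -1, -1, -1, -1, -2, -2, -1, -1,
      0, 0] 8 5
   [[(13, 2)], [(0, 2), (3, 4), (4, 2), (7, 2)], [(0, 4), (3, 6), (4, 4), (7, 4)], [(2, 6), (5, 4),
      (6, 4), (9, 4)], [(2, 4), (5, 2), (6, 2), (9, 2)], [(0, 2), (3, 4), (4, 2), (7, 2)], [(0, 2),
      (3, 4), (4, 2), (7, 2)], [(2, 4), (5, 2), (6, 2), (9, 2)], [(2, 4), (5, 2), (6, 2), (9, 2)],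
      [(12, 2)], [(15, 2)], [(14, 2)], [(1, 2)], [(8, 2)], [(11, 2)], [(10, 2)]]
   []
   .nil))

/-- classes `0 1 0 1 2 3 2 3`, active pairs `1-2 1-3 5-6` -/
def trS8_23 : Tr2 :=
  .leafM 0 [0, 3, 4, 7] []

/-- classes `0 1 0 1 2 3 2 3`, active pairs `1-2 1-3 5-6 5-7` -/
def trS8_24 : Tr2 :=
  .leafM 0 [0, 3, 4, 7] []

/-- classes `0 1 0 1 2 3 2 3`, active pairs `1-2 1-3 5-6 6-7` -/
def trS8_25 : Tr2 :=
  .leafM 0 [0, 3, 4, 7] []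

/-- classes `0 1 0 1 2 3 2 3`, active pairs `1-2 1-3 5-7` -/
def trS8_26 : Tr2 :=
  .leafM 1 [0, 3, 4, 6] []

/-- classes `0 1 0 1 2 3 2 3`, active pairs `1-2 1-3 5-7 6-7` -/
def trS8_27 : Tr2 :=
  .leafM 1 [0, 3, 4, 6] []

/-- classes `0 1 0 1 2 3 2 3`, active pairs `1-2 1-3 6-7` -/
def trS8_28 : Tr2 :=
  .leafM 0 [0, 3, 4, 5] []

/-- classes `0 1 0 1 2 3 2 3`, active pairs `1-2 2-3` -/
def trS8_29 : Tr2 :=
  .splitT 4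
 (.splitT 5
  (.lp .none [2, 2, 6, 2, 2, 2, 2, 2] [] [-1, -1, -1, -1, -3, -3, -1, -1, -1, -1, -1, -1, -1, -1,
      -1, -1] 8 5
   [[(1, 2), (10, 2), (13, 2), (14, 2)], [(0, 2), (3, 2), (4, 4), (7, 2)], [(0, 2), (3, 2), (4, 4),
      (7, 2)], [(2, 2), (5, 4), (6, 2), (9, 2)], [(2, 4), (5, 6), (6, 4), (9, 4)], [(0, 4), (3, 4),
      (4, 6), (7, 4)], [(0, 2), (3, 2), (4, 4), (7, 2)], [(2, 2), (5, 4), (6, 2), (9, 2)], [(2, 2),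
      (5, 4), (6, 2), (9, 2)], [(8, 2), (11, 2), (12, 2), (15, 2)], [(8, 2), (11, 2), (12, 2), (15,
      2)], [(1, 2), (10, 2), (13, 2), (14, 2)], [(1, 2), (10, 2), (13, 2), (14, 2)], [(8, 2), (11,
      2), (12, 2), (15, 2)], [(8, 2), (11, 2), (12, 2), (15, 2)], [(1, 2), (10, 2), (13, 2), (14,
      2)]]
   []
   .nil)
  (.lp .none [2, 2, 6, 2, 2, 2, 2, 2] [] [-1, -1, -1, -1, -3, -3, -1, -1, -1, -1, -1, -1, -1, -1,
      -1, -1] 8 5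
   [[(10, 2)], [(0, 2), (3, 2), (4, 4), (7, 2)], [(0, 2), (3, 2), (4, 4), (7, 2)], [(2, 2), (5, 4),
      (6, 2), (9, 2)], [(2, 4), (5, 6), (6, 4), (9, 4)], [(0, 4), (3, 4), (4, 6), (7, 4)], [(0, 2),
      (3, 2), (4, 4), (7, 2)], [(2, 2), (5, 4), (6, 2), (9, 2)], [(2, 2), (5, 4), (6, 2), (9, 2)],
      [(8, 2), (11, 2), (12, 2), (15, 2)], [(8, 2), (11, 2), (12, 2), (15, 2)], [(1, 2)], [(14,
      2)], [(8, 2), (11, 2), (12, 2), (15, 2)], [(8, 2), (11, 2), (12, 2), (15, 2)], [(13, 2)]]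
   []
   .nil)
  (.lp .none [2, 2, 6, 2, 2, 2, 2, 2] [] [-1, -1, -1, -1, -3, -3, -1, -1, -1, -1, -1, -1, -1, -1,
      -1, -1] 8 5
   [[(13, 2)], [(0, 2), (3, 2), (4, 4), (7, 2)], [(0, 2), (3, 2), (4, 4), (7, 2)], [(2, 2), (5, 4),
      (6, 2), (9, 2)], [(2, 4), (5, 6), (6, 4), (9, 4)], [(0, 4), (3, 4), (4, 6), (7, 4)], [(0, 2),
      (3, 2), (4, 4), (7, 2)], [(2, 2), (5, 4), (6, 2), (9, 2)], [(2, 2), (5, 4), (6, 2), (9, 2)],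
      [(8, 2), (11, 2), (12, 2), (15, 2)], [(8, 2), (11, 2), (12, 2), (15, 2)], [(14, 2)], [(1,
      2)], [(8, 2), (11, 2), (12, 2), (15, 2)], [(8, 2), (11, 2), (12, 2), (15, 2)], [(10, 2)]]
   []
   .nil))
 (.splitT 5
  (.lp .none [2, 2, 6, 2, 2, 2, 2, 2] [] [-1, -1, -1, -1, -3, -3, -1, -1, -1, -1, -1, -1, -1, -1,
      -1, -1] 8 5
   [[(1, 2), (10, 2), (13, 2), (14, 2)], [(0, 2), (3, 2), (4, 4), (7, 2)], [(0, 2), (3, 2), (4, 4),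
      (7, 2)], [(2, 2), (5, 4), (6, 2), (9, 2)], [(2, 4), (5, 6), (6, 4), (9, 4)], [(0, 4), (3, 4),
      (4, 6), (7, 4)], [(0, 2), (3, 2), (4, 4), (7, 2)], [(2, 2), (5, 4), (6, 2), (9, 2)], [(2, 2),
      (5, 4), (6, 2), (9, 2)], [(15, 2)], [(12, 2)], [(1, 2), (10, 2), (13, 2), (14, 2)], [(1, 2),
      (10, 2), (13, 2), (14, 2)], [(11, 2)], [(8, 2)], [(1, 2), (10, 2), (13, 2), (14, 2)]]
   []
   .nil)
  (.lp .none [2, 2, 6, 2, 2, 2, 2, 2] [] [-1, -1, -1, -1, -3, -3, -1, -1, -1, -1, -1, -1, -1, -1,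
      -1, -1] 8 5
   [[(10, 2)], [(0, 2), (3, 2), (4, 4), (7, 2)], [(0, 2), (3, 2), (4, 4), (7, 2)], [(2, 2), (5, 4),
      (6, 2), (9, 2)], [(2, 4), (5, 6), (6, 4), (9, 4)], [(0, 4), (3, 4), (4, 6), (7, 4)], [(0, 2),
      (3, 2), (4, 4), (7, 2)], [(2, 2), (5, 4), (6, 2), (9, 2)], [(2, 2), (5, 4), (6, 2), (9, 2)],
      [(15, 2)], [(12, 2)], [(1, 2)], [(14, 2)], [(11, 2)], [(8, 2)], [(13, 2)]]
   []
   .nil)
  (.lp .none [2, 2, 6, 2, 2, 2, 2, 2] [] [-1, -1, -1, -1, -3, -3, -1, -1, -1, -1, -1, -1, -1, -1,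
      -1, -1] 8 5
   [[(13, 2)], [(0, 2), (3, 2), (4, 4), (7, 2)], [(0, 2), (3, 2), (4, 4), (7, 2)], [(2, 2), (5, 4),
      (6, 2), (9, 2)], [(2, 4), (5, 6), (6, 4), (9, 4)], [(0, 4), (3, 4), (4, 6), (7, 4)], [(0, 2),
      (3, 2), (4, 4), (7, 2)], [(2, 2), (5, 4), (6, 2), (9, 2)], [(2, 2), (5, 4), (6, 2), (9, 2)],
      [(15, 2)], [(12, 2)], [(14, 2)], [(1, 2)], [(11, 2)], [(8, 2)], [(10, 2)]]
   []
   .nil))
 (.splitT 5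
  (.lp .none [2, 2, 6, 2, 2, 2, 2, 2] [] [-1, -1, -1, -1, -3, -3, -1, -1, -1, -1, -1, -1, -1, -1,
      -1, -1] 8 5
   [[(1, 2), (10, 2), (13, 2), (14, 2)], [(0, 2), (3, 2), (4, 4), (7, 2)], [(0, 2), (3, 2), (4, 4),
      (7, 2)], [(2, 2), (5, 4), (6, 2), (9, 2)], [(2, 4), (5, 6), (6, 4), (9, 4)], [(0, 4), (3, 4),
      (4, 6), (7, 4)], [(0, 2), (3, 2), (4, 4), (7, 2)], [(2, 2), (5, 4), (6, 2), (9, 2)], [(2, 2),
      (5, 4), (6, 2), (9, 2)], [(12, 2)], [(15, 2)], [(1, 2), (10, 2), (13, 2), (14, 2)], [(1, 2),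
      (10, 2), (13, 2), (14, 2)], [(8, 2)], [(11, 2)], [(1, 2), (10, 2), (13, 2), (14, 2)]]
   []
   .nil)
  (.lp .none [2, 2, 6, 2, 2, 2, 2, 2] [] [-1, -1, -1, -1, -3, -3, -1, -1, -1, -1, -1, -1, -1, -1,
      -1, -1] 8 5
   [[(10, 2)], [(0, 2), (3, 2), (4, 4), (7, 2)], [(0, 2), (3, 2), (4, 4), (7, 2)], [(2, 2), (5, 4),
      (6, 2), (9, 2)], [(2, 4), (5, 6), (6, 4), (9, 4)], [(0, 4), (3, 4), (4, 6), (7, 4)], [(0, 2),
      (3, 2), (4, 4), (7, 2)], [(2, 2), (5, 4), (6, 2), (9, 2)], [(2, 2), (5, 4), (6, 2), (9, 2)],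
      [(12, 2)], [(15, 2)], [(1, 2)], [(14, 2)], [(8, 2)], [(11, 2)], [(13, 2)]]
   []
   .nil)
  (.lp .none [2, 2, 6, 2, 2, 4, 2, 0] [] [-1, -1, -1, -1, -3, -3, -1, -1, -1, -1, -2, -2, -1, -1,
      0, 0] 8 5
   [[(13, 2)], [(0, 2), (3, 2), (4, 4), (7, 2)], [(0, 2), (3, 2), (4, 4), (7, 2)], [(2, 2), (5, 4),
      (6, 2), (9, 2)], [(2, 4), (5, 6), (6, 4), (9, 4)], [(0, 4), (3, 4), (4, 6), (7, 4)], [(0, 2),
      (3, 2), (4, 4), (7, 2)], [(2, 2), (5, 4), (6, 2), (9, 2)], [(2, 2), (5, 4), (6, 2), (9, 2)],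
      [(12, 2)], [(15, 2)], [(14, 2)], [(1, 2)], [(8, 2)], [(11, 2)], [(10, 2)]]
   []
   .nil))

/-- classes `0 1 0 1 2 3 2 3`, active pairs `1-2 2-3 5-6` -/
def trS8_30 : Tr2 :=
  .leafM 0 [0, 3, 4, 7] []

/-- classes `0 1 0 1 2 3 2 3`, active pairs `1-2 2-3 5-6 6-7` -/
def trS8_31 : Tr2 :=
  .leafM 0 [0, 3, 4, 7] []

/-- classes `0 1 0 1 2 3 2 3`, active pairs `1-2 2-3 5-7` -/
def trS8_32 : Tr2 :=
  .leafM 1 [0, 3, 4, 6] []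

/-- classes `0 1 0 1 2 3 2 3`, active pairs `1-2 2-3 5-7 6-7` -/
def trS8_33 : Tr2 :=
  .leafM 1 [0, 3, 4, 6] []

/-- classes `0 1 0 1 2 3 2 3`, active pairs `1-2 2-3 6-7` -/
def trS8_34 : Tr2 :=
  .leafM 0 [0, 3, 4, 5] []

/-- classes `0 1 0 1 2 3 2 3`, active pairs `1-2 5-6` -/
def trS8_35 : Tr2 :=
  .leafM 0 [0, 3, 4, 7] []

/-- classes `0 1 0 1 2 3 2 3`, active pairs `1-2 5-7` -/
def trS8_36 : Tr2 :=
  .leafM 1 [0, 3, 4, 6] []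

/-- classes `0 1 0 1 2 3 2 3`, active pairs `1-2 5-7 6-7` -/
def trS8_37 : Tr2 :=
  .leafM 1 [0, 3, 4, 6] []

/-- classes `0 1 0 1 2 3 2 3`, active pairs `1-2 6-7` -/
def trS8_38 : Tr2 :=
  .leafM 0 [0, 3, 4, 5] []

/-- classes `0 1 0 1 2 3 2 3`, active pairs `1-3 2-3` -/
def trS8_39 : Tr2 :=
  .splitT 4
 (.splitT 5
  (.lp .none [2, 2, 2, 6, 2, 2, 2, 2] [] [-1, -1, -1, -1, -1, -1, -3, -3, -1, -1, -1, -1, -1, -1,
      -1, -1] 8 5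
   [[(1, 2), (10, 2), (13, 2), (14, 2)], [(0, 2), (3, 2), (4, 2), (7, 4)], [(0, 2), (3, 2), (4, 2),
      (7, 4)], [(2, 2), (5, 2), (6, 4), (9, 2)], [(2, 2), (5, 2), (6, 4), (9, 2)], [(0, 2), (3, 2),
      (4, 2), (7, 4)], [(0, 4), (3, 4), (4, 4), (7, 6)], [(2, 4), (5, 4), (6, 6), (9, 4)], [(2, 2),
      (5, 2), (6, 4), (9, 2)], [(8, 2), (11, 2), (12, 2), (15, 2)], [(8, 2), (11, 2), (12, 2), (15,
      2)], [(1, 2), (10, 2), (13, 2), (14, 2)], [(1, 2), (10, 2), (13, 2), (14, 2)], [(8, 2), (11,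
      2), (12, 2), (15, 2)], [(8, 2), (11, 2), (12, 2), (15, 2)], [(1, 2), (10, 2), (13, 2), (14,
      2)]]
   []
   .nil)
  (.lp .none [2, 2, 2, 6, 2, 2, 2, 2] [] [-1, -1, -1, -1, -1, -1, -3, -3, -1, -1, -1, -1, -1, -1,
      -1, -1] 8 5
   [[(10, 2)], [(0, 2), (3, 2), (4, 2), (7, 4)], [(0, 2), (3, 2), (4, 2), (7, 4)], [(2, 2), (5, 2),
      (6, 4), (9, 2)], [(2, 2), (5, 2), (6, 4), (9, 2)], [(0, 2), (3, 2), (4, 2), (7, 4)], [(0, 4),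
      (3, 4), (4, 4), (7, 6)], [(2, 4), (5, 4), (6, 6), (9, 4)], [(2, 2), (5, 2), (6, 4), (9, 2)],
      [(8, 2), (11, 2), (12, 2), (15, 2)], [(8, 2), (11, 2), (12, 2), (15, 2)], [(1, 2)], [(14,
      2)], [(8, 2), (11, 2), (12, 2), (15, 2)], [(8, 2), (11, 2), (12, 2), (15, 2)], [(13, 2)]]
   []
   .nil)
  (.lp .none [2, 2, 2, 6, 2, 2, 2, 2] [] [-1, -1, -1, -1, -1, -1, -3, -3, -1, -1, -1, -1, -1, -1,
      -1, -1] 8 5
   [[(13, 2)], [(0, 2), (3, 2), (4, 2), (7, 4)], [(0, 2), (3, 2), (4, 2), (7, 4)], [(2, 2), (5, 2),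
      (6, 4), (9, 2)], [(2, 2), (5, 2), (6, 4), (9, 2)], [(0, 2), (3, 2), (4, 2), (7, 4)], [(0, 4),
      (3, 4), (4, 4), (7, 6)], [(2, 4), (5, 4), (6, 6), (9, 4)], [(2, 2), (5, 2), (6, 4), (9, 2)],
      [(8, 2), (11, 2), (12, 2), (15, 2)], [(8, 2), (11, 2), (12, 2), (15, 2)], [(14, 2)], [(1,
      2)], [(8, 2), (11, 2), (12, 2), (15, 2)], [(8, 2), (11, 2), (12, 2), (15, 2)], [(10, 2)]]
   []
   .nil))
 (.splitT 5
  (.lp .none [2, 2, 2, 6, 2, 2, 2, 2] [] [-1, -1, -1, -1, -1, -1, -3, -3, -1, -1, -1, -1, -1, -1,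
      -1, -1] 8 5
   [[(1, 2), (10, 2), (13, 2), (14, 2)], [(0, 2), (3, 2), (4, 2), (7, 4)], [(0, 2), (3, 2), (4, 2),
      (7, 4)], [(2, 2), (5, 2), (6, 4), (9, 2)], [(2, 2), (5, 2), (6, 4), (9, 2)], [(0, 2), (3, 2),
      (4, 2), (7, 4)], [(0, 4), (3, 4), (4, 4), (7, 6)], [(2, 4), (5, 4), (6, 6), (9, 4)], [(2, 2),
      (5, 2), (6, 4), (9, 2)], [(15, 2)], [(12, 2)], [(1, 2), (10, 2), (13, 2), (14, 2)], [(1, 2),
      (10, 2), (13, 2), (14, 2)], [(11, 2)], [(8, 2)], [(1, 2), (10, 2), (13, 2), (14, 2)]]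
   []
   .nil)
  (.lp .none [2, 2, 2, 6, 2, 2, 2, 2] [] [-1, -1, -1, -1, -1, -1, -3, -3, -1, -1, -1, -1, -1, -1,
      -1, -1] 8 5
   [[(10, 2)], [(0, 2), (3, 2), (4, 2), (7, 4)], [(0, 2), (3, 2), (4, 2), (7, 4)], [(2, 2), (5, 2),
      (6, 4), (9, 2)], [(2, 2), (5, 2), (6, 4), (9, 2)], [(0, 2), (3, 2), (4, 2), (7, 4)], [(0, 4),
      (3, 4), (4, 4), (7, 6)], [(2, 4), (5, 4), (6, 6), (9, 4)], [(2, 2), (5, 2), (6, 4), (9, 2)],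
      [(15, 2)], [(12, 2)], [(1, 2)], [(14, 2)], [(11, 2)], [(8, 2)], [(13, 2)]]
   []
   .nil)
  (.lp .none [2, 2, 2, 6, 2, 2, 2, 2] [] [-1, -1, -1, -1, -1, -1, -3, -3, -1, -1, -1, -1, -1, -1,
      -1, -1] 8 5
   [[(13, 2)], [(0, 2), (3, 2), (4, 2), (7, 4)], [(0, 2), (3, 2), (4, 2), (7, 4)], [(2, 2), (5, 2),
      (6, 4), (9, 2)], [(2, 2), (5, 2), (6, 4), (9, 2)], [(0, 2), (3, 2), (4, 2), (7, 4)], [(0, 4),
      (3, 4), (4, 4), (7, 6)], [(2, 4), (5, 4), (6, 6), (9, 4)], [(2, 2), (5, 2), (6, 4), (9, 2)],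
      [(15, 2)], [(12, 2)], [(14, 2)], [(1, 2)], [(11, 2)], [(8, 2)], [(10, 2)]]
   []
   .nil))
 (.splitT 5
  (.lp .none [2, 2, 2, 6, 2, 2, 2, 2] [] [-1, -1, -1, -1, -1, -1, -3, -3, -1, -1, -1, -1, -1, -1,
      -1, -1] 8 5
   [[(1, 2), (10, 2), (13, 2), (14, 2)], [(0, 2), (3, 2), (4, 2), (7, 4)], [(0, 2), (3, 2), (4, 2),
      (7, 4)], [(2, 2), (5, 2), (6, 4), (9, 2)], [(2, 2), (5, 2), (6, 4), (9, 2)], [(0, 2), (3, 2),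
      (4, 2), (7, 4)], [(0, 4), (3, 4), (4, 4), (7, 6)], [(2, 4), (5, 4), (6, 6), (9, 4)], [(2, 2),
      (5, 2), (6, 4), (9, 2)], [(12, 2)], [(15, 2)], [(1, 2), (10, 2), (13, 2), (14, 2)], [(1, 2),
      (10, 2), (13, 2), (14, 2)], [(8, 2)], [(11, 2)], [(1, 2), (10, 2), (13, 2), (14, 2)]]
   []
   .nil)
  (.lp .none [2, 2, 2, 6, 2, 2, 2, 2] [] [-1, -1, -1, -1, -1, -1, -3, -3, -1, -1, -1, -1, -1, -1,
      -1, -1] 8 5
   [[(10, 2)], [(0, 2), (3, 2), (4, 2), (7, 4)], [(0, 2), (3, 2), (4, 2), (7, 4)], [(2, 2), (5, 2),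
      (6, 4), (9, 2)], [(2, 2), (5, 2), (6, 4), (9, 2)], [(0, 2), (3, 2), (4, 2), (7, 4)], [(0, 4),
      (3, 4), (4, 4), (7, 6)], [(2, 4), (5, 4), (6, 6), (9, 4)], [(2, 2), (5, 2), (6, 4), (9, 2)],
      [(12, 2)], [(15, 2)], [(1, 2)], [(14, 2)], [(8, 2)], [(11, 2)], [(13, 2)]]
   []
   .nil)
  (.lp .none [2, 2, 2, 6, 2, 4, 2, 0] [] [-1, -1, -1, -1, -1, -1, -3, -3, -1, -1, -2, -2, -1, -1,
      0, 0] 8 5
   [[(13, 2)], [(0, 2), (3, 2), (4, 2), (7, 4)], [(0, 2), (3, 2), (4, 2), (7, 4)], [(2, 2), (5, 2),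
      (6, 4), (9, 2)], [(2, 2), (5, 2), (6, 4), (9, 2)], [(0, 2), (3, 2), (4, 2), (7, 4)], [(0, 4),
      (3, 4), (4, 4), (7, 6)], [(2, 4), (5, 4), (6, 6), (9, 4)], [(2, 2), (5, 2), (6, 4), (9, 2)],
      [(12, 2)], [(15, 2)], [(14, 2)], [(1, 2)], [(8, 2)], [(11, 2)], [(10, 2)]]
   []
   .nil))

/-- classes `0 1 0 1 2 3 2 3`, active pairs `1-3 2-3 5-7` -/
def trS8_40 : Tr2 :=
  .leafM 3 [0, 2, 4, 6] []

/-- classes `0 1 0 1 2 3 2 3`, active pairs `1-3 2-3 5-7 6-7` -/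
def trS8_41 : Tr2 :=
  .leafM 3 [0, 2, 4, 6] []

/-- classes `0 1 0 1 2 3 2 3`, active pairs `1-3 2-3 6-7` -/
def trS8_42 : Tr2 :=
  .leafM 1 [4, 5, 0, 2] []

/-- classes `0 1 0 1 2 3 2 3`, active pairs `1-3 5-7` -/
def trS8_43 : Tr2 :=
  .leafM 3 [0, 2, 4, 6] []

/-- classes `0 1 0 1 2 3 2 3`, active pairs `1-3 6-7` -/
def trS8_44 : Tr2 :=
  .leafM 1 [4, 5, 0, 2] []

/-- classes `0 1 0 1 2 3 2 3`, active pairs `2-3 6-7` -/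
def trS8_45 : Tr2 :=
  .leafM 0 [0, 1, 4, 5] []

/-- classes `0 1 0 1 2 3 2 4`, active pairs `1-2 1-3` -/
def trS8_46 : Tr2 :=
  .splitT 4
 (.lp .none [2, 6, 2, 2, 2, 2, 2, 2] [] [-1, -1, -3, -3, -1, -1, -1, -1, -1, -1, -1, -1, -1, -1,
      -1, -1] 8 5
  [[(1, 2), (14, 2)], [(0, 2), (3, 4), (4, 2), (7, 2)], [(0, 4), (3, 6), (4, 4), (7, 4)], [(2, 6),
      (5, 4), (6, 4), (9, 4)], [(2, 4), (5, 2), (6, 2), (9, 2)], [(0, 2), (3, 4), (4, 2), (7, 2)],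
      [(0, 2), (3, 4), (4, 2), (7, 2)], [(2, 4), (5, 2), (6, 2), (9, 2)], [(2, 4), (5, 2), (6, 2),
      (9, 2)], [(8, 2), (11, 2), (12, 2), (15, 2)], [(8, 2), (11, 2), (12, 2), (15, 2)], [(10, 2),
      (13, 2)], [(10, 2), (13, 2)], [(8, 2), (11, 2), (12, 2), (15, 2)], [(8, 2), (11, 2), (12, 2),
      (15, 2)], [(1, 2), (14, 2)]]
  []
  .nil)
 (.lp .none [2, 6, 2, 2, 2, 2, 2, 2] [] [-1, -1, -3, -3, -1, -1, -1, -1, -1, -1, -1, -1, -1, -1,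
      -1, -1] 8 5
  [[(1, 2), (14, 2)], [(0, 2), (3, 4), (4, 2), (7, 2)], [(0, 4), (3, 6), (4, 4), (7, 4)], [(2, 6),
      (5, 4), (6, 4), (9, 4)], [(2, 4), (5, 2), (6, 2), (9, 2)], [(0, 2), (3, 4), (4, 2), (7, 2)],
      [(0, 2), (3, 4), (4, 2), (7, 2)], [(2, 4), (5, 2), (6, 2), (9, 2)], [(2, 4), (5, 2), (6, 2),
      (9, 2)], [(15, 2)], [(12, 2)], [(10, 2), (13, 2)], [(10, 2), (13, 2)], [(11, 2)], [(8, 2)],
      [(1, 2), (14, 2)]]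
  []
  .nil)
 (.lp .none [2, 6, 2, 2, 2, 2, 2, 2] [] [-1, -1, -3, -3, -1, -1, -1, -1, -1, -1, -1, -1, -1, -1,
      -1, -1] 8 5
  [[(1, 2), (14, 2)], [(0, 2), (3, 4), (4, 2), (7, 2)], [(0, 4), (3, 6), (4, 4), (7, 4)], [(2, 6),
      (5, 4), (6, 4), (9, 4)], [(2, 4), (5, 2), (6, 2), (9, 2)], [(0, 2), (3, 4), (4, 2), (7, 2)],
      [(0, 2), (3, 4), (4, 2), (7, 2)], [(2, 4), (5, 2), (6, 2), (9, 2)], [(2, 4), (5, 2), (6, 2),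
      (9, 2)], [(12, 2)], [(15, 2)], [(10, 2), (13, 2)], [(10, 2), (13, 2)], [(8, 2)], [(11, 2)],
      [(1, 2), (14, 2)]]
  []
  .nil)

/-- classes `0 1 0 1 2 3 2 4`, active pairs `1-2 2-3` -/
def trS8_47 : Tr2 :=
  .splitT 4
 (.lp .none [2, 2, 6, 2, 2, 2, 2, 2] [] [-1, -1, -1, -1, -3, -3, -1, -1, -1, -1, -1, -1, -1, -1,
      -1, -1] 8 5
  [[(1, 2), (14, 2)], [(0, 2), (3, 2), (4, 4), (7, 2)], [(0, 2), (3, 2), (4, 4), (7, 2)], [(2, 2),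
      (5, 4), (6, 2), (9, 2)], [(2, 4), (5, 6), (6, 4), (9, 4)], [(0, 4), (3, 4), (4, 6), (7, 4)],
      [(0, 2), (3, 2), (4, 4), (7, 2)], [(2, 2), (5, 4), (6, 2), (9, 2)], [(2, 2), (5, 4), (6, 2),
      (9, 2)], [(8, 2), (11, 2), (12, 2), (15, 2)], [(8, 2), (11, 2), (12, 2), (15, 2)], [(10, 2),
      (13, 2)], [(10, 2), (13, 2)], [(8, 2), (11, 2), (12, 2), (15, 2)], [(8, 2), (11, 2), (12, 2),
      (15, 2)], [(1, 2), (14, 2)]]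
  []
  .nil)
 (.lp .none [2, 2, 6, 2, 2, 2, 2, 2] [] [-1, -1, -1, -1, -3, -3, -1, -1, -1, -1, -1, -1, -1, -1,
      -1, -1] 8 5
  [[(1, 2), (14, 2)], [(0, 2), (3, 2), (4, 4), (7, 2)], [(0, 2), (3, 2), (4, 4), (7, 2)], [(2, 2),
      (5, 4), (6, 2), (9, 2)], [(2, 4), (5, 6), (6, 4), (9, 4)], [(0, 4), (3, 4), (4, 6), (7, 4)],
      [(0, 2), (3, 2), (4, 4), (7, 2)], [(2, 2), (5, 4), (6, 2), (9, 2)], [(2, 2), (5, 4), (6, 2),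
      (9, 2)], [(15, 2)], [(12, 2)], [(10, 2), (13, 2)], [(10, 2), (13, 2)], [(11, 2)], [(8, 2)],
      [(1, 2), (14, 2)]]
  []
  .nil)
 (.lp .none [2, 2, 6, 2, 2, 2, 2, 2] [] [-1, -1, -1, -1, -3, -3, -1, -1, -1, -1, -1, -1, -1, -1,
      -1, -1] 8 5
  [[(1, 2), (14, 2)], [(0, 2), (3, 2), (4, 4), (7, 2)], [(0, 2), (3, 2), (4, 4), (7, 2)], [(2, 2),
      (5, 4), (6, 2), (9, 2)], [(2, 4), (5, 6), (6, 4), (9, 4)], [(0, 4), (3, 4), (4, 6), (7, 4)],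
      [(0, 2), (3, 2), (4, 4), (7, 2)], [(2, 2), (5, 4), (6, 2), (9, 2)], [(2, 2), (5, 4), (6, 2),
      (9, 2)], [(12, 2)], [(15, 2)], [(10, 2), (13, 2)], [(10, 2), (13, 2)], [(8, 2)], [(11, 2)],
      [(1, 2), (14, 2)]]
  []
  .nil)

/-- classes `0 1 0 1 2 3 2 4`, active pairs `1-3 2-3` -/
def trS8_48 : Tr2 :=
  .splitT 4
 (.lp .none [2, 2, 2, 6, 2, 2, 2, 2] [] [-1, -1, -1, -1, -1, -1, -3, -3, -1, -1, -1, -1, -1, -1,
      -1, -1] 8 5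
  [[(1, 2), (14, 2)], [(0, 2), (3, 2), (4, 2), (7, 4)], [(0, 2), (3, 2), (4, 2), (7, 4)], [(2, 2),
      (5, 2), (6, 4), (9, 2)], [(2, 2), (5, 2), (6, 4), (9, 2)], [(0, 2), (3, 2), (4, 2), (7, 4)],
      [(0, 4), (3, 4), (4, 4), (7, 6)], [(2, 4), (5, 4), (6, 6), (9, 4)], [(2, 2), (5, 2), (6, 4),
      (9, 2)], [(8, 2), (11, 2), (12, 2), (15, 2)], [(8, 2), (11, 2), (12, 2), (15, 2)], [(10, 2),
      (13, 2)], [(10, 2), (13, 2)], [(8, 2), (11, 2), (12, 2), (15, 2)], [(8, 2), (11, 2), (12, 2),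
      (15, 2)], [(1, 2), (14, 2)]]
  []
  .nil)
 (.lp .none [2, 2, 2, 6, 2, 2, 2, 2] [] [-1, -1, -1, -1, -1, -1, -3, -3, -1, -1, -1, -1, -1, -1,
      -1, -1] 8 5
  [[(1, 2), (14, 2)], [(0, 2), (3, 2), (4, 2), (7, 4)], [(0, 2), (3, 2), (4, 2), (7, 4)], [(2, 2),
      (5, 2), (6, 4), (9, 2)], [(2, 2), (5, 2), (6, 4), (9, 2)], [(0, 2), (3, 2), (4, 2), (7, 4)],
      [(0, 4), (3, 4), (4, 4), (7, 6)], [(2, 4), (5, 4), (6, 6), (9, 4)], [(2, 2), (5, 2), (6, 4),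
      (9, 2)], [(15, 2)], [(12, 2)], [(10, 2), (13, 2)], [(10, 2), (13, 2)], [(11, 2)], [(8, 2)],
      [(1, 2), (14, 2)]]
  []
  .nil)
 (.lp .none [2, 2, 2, 6, 2, 2, 2, 2] [] [-1, -1, -1, -1, -1, -1, -3, -3, -1, -1, -1, -1, -1, -1,
      -1, -1] 8 5
  [[(1, 2), (14, 2)], [(0, 2), (3, 2), (4, 2), (7, 4)], [(0, 2), (3, 2), (4, 2), (7, 4)], [(2, 2),
      (5, 2), (6, 4), (9, 2)], [(2, 2), (5, 2), (6, 4), (9, 2)], [(0, 2), (3, 2), (4, 2), (7, 4)],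
      [(0, 4), (3, 4), (4, 4), (7, 6)], [(2, 4), (5, 4), (6, 6), (9, 4)], [(2, 2), (5, 2), (6, 4),
      (9, 2)], [(12, 2)], [(15, 2)], [(10, 2), (13, 2)], [(10, 2), (13, 2)], [(8, 2)], [(11, 2)],
      [(1, 2), (14, 2)]]
  []
  .nil)

/-- classes `0 1 0 1 2 3 4 2`, active pairs `1-2 1-3` -/
def trS8_49 : Tr2 :=
  .splitT 4
 (.lp .none [4, 6, 2, 2, 2, 2, 2, 2] [] [-2, -2, -3, -3, -1, -1, -1, -1, -1, -1, -1, -1, -1, -1,
      -1, -1] 8 5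
  [[(1, 4), (8, 3), (11, 3), (14, 3)], [(0, 4), (3, 5), (4, 3), (7, 3)], [(0, 5), (3, 6), (4, 4),
      (7, 4)], [(2, 6), (5, 4), (6, 4), (9, 4)], [(2, 4), (5, 2), (6, 2), (9, 2)], [(0, 3), (3, 4),
      (4, 2), (7, 2)], [(0, 3), (3, 4), (4, 2), (7, 2)], [(2, 4), (5, 2), (6, 2), (9, 2)], [(2, 4),
      (5, 2), (6, 2), (9, 2)], [(1, 3), (8, 2), (11, 2), (14, 2)], [(1, 3), (8, 2), (11, 2), (14,
      2)], [(10, 2), (13, 2)], [(10, 2), (13, 2)], [(12, 2), (15, 2)], [(12, 2), (15, 2)], [(1, 3),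
      (8, 2), (11, 2), (14, 2)]]
  [[0, 0, 0, 0, 0, 1, 1, 1]]
  (.cons (.leafM 0 [4, 5, 6, 7, 0, 3] [(1, [1, 0, 0, 0])])
  .nil))
 (.lp .none [4, 6, 2, 2, 2, 2, 2, 2] [] [-2, -2, -3, -3, -1, -1, -1, -1, -1, -1, -1, -1, -1, -1,
      -1, -1] 8 5
  [[(8, 3)], [(0, 4), (3, 5), (4, 3), (7, 3)], [(0, 5), (3, 6), (4, 4), (7, 4)], [(2, 6), (5, 4),
      (6, 4), (9, 4)], [(2, 4), (5, 2), (6, 2), (9, 2)], [(0, 3), (3, 4), (4, 2), (7, 2)], [(0, 3),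
      (3, 4), (4, 2), (7, 2)], [(2, 4), (5, 2), (6, 2), (9, 2)], [(2, 4), (5, 2), (6, 2), (9, 2)],
      [(1, 3)], [(14, 2)], [(10, 2), (13, 2)], [(10, 2), (13, 2)], [(12, 2), (15, 2)], [(12, 2),
      (15, 2)], [(11, 2)]]
  [[0, 0, 0, 0, 0, 1, 1, 1]]
  (.cons (.leafM 0 [4, 5, 6, 7, 0, 3] [(1, [1, 0, 0, 0])])
  .nil))
 (.lp .none [2, 6, 2, 2, 2, 2, 2, 2] [] [-1, -1, -3, -3, -1, -1, -1, -1, -1, -1, -1, -1, -1, -1,
      -1, -1] 8 5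
  [[(11, 2)], [(0, 2), (3, 4), (4, 2), (7, 2)], [(0, 4), (3, 6), (4, 4), (7, 4)], [(2, 6), (5, 4),
      (6, 4), (9, 4)], [(2, 4), (5, 2), (6, 2), (9, 2)], [(0, 2), (3, 4), (4, 2), (7, 2)], [(0, 2),
      (3, 4), (4, 2), (7, 2)], [(2, 4), (5, 2), (6, 2), (9, 2)], [(2, 4), (5, 2), (6, 2), (9, 2)],
      [(14, 2)], [(1, 2)], [(10, 2), (13, 2)], [(10, 2), (13, 2)], [(12, 2), (15, 2)], [(12, 2),
      (15, 2)], [(8, 2)]]
  []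
  .nil)

/-- classes `0 1 0 1 2 3 4 2`, active pairs `1-2 2-3` -/
def trS8_50 : Tr2 :=
  .splitT 4
 (.lp .none [2, 4, 4, 4, 2, 2, 2, 2] [] [-1, -1, -2, -2, -2, -2, -2, -2, -1, -1, -1, -1, -1, -1,
      -1, -1] 8 5
  [[(1, 2), (8, 2), (11, 2), (14, 2)], [(0, 2), (3, 3), (4, 3), (7, 3)], [(0, 3), (3, 4), (4, 4),
      (7, 4)], [(2, 4), (5, 4), (6, 4), (9, 3)], [(2, 4), (5, 4), (6, 4), (9, 3)], [(0, 3), (3, 4),
      (4, 4), (7, 4)], [(0, 3), (3, 4), (4, 4), (7, 4)], [(2, 4), (5, 4), (6, 4), (9, 3)], [(2, 3),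
      (5, 3), (6, 3), (9, 2)], [(1, 2), (8, 2), (11, 2), (14, 2)], [(1, 2), (8, 2), (11, 2), (14,
      2)], [(10, 2), (13, 2)], [(10, 2), (13, 2)], [(12, 2), (15, 2)], [(12, 2), (15, 2)], [(1, 2),
      (8, 2), (11, 2), (14, 2)]]
  [[0, 0, 0, 0, 0, 1, 1, 1]]
  (.cons (.leafM 0 [4, 5, 6, 7, 0, 3] [(1, [1, 0, 0, 0])])
  .nil))
 (.lp .none [2, 4, 4, 4, 2, 2, 2, 2] [] [-1, -1, -2, -2, -2, -2, -2, -2, -1, -1, -1, -1, -1, -1,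
      -1, -1] 8 5
  [[(8, 2)], [(0, 2), (3, 3), (4, 3), (7, 3)], [(0, 3), (3, 4), (4, 4), (7, 4)], [(2, 4), (5, 4),
      (6, 4), (9, 3)], [(2, 4), (5, 4), (6, 4), (9, 3)], [(0, 3), (3, 4), (4, 4), (7, 4)], [(0, 3),
      (3, 4), (4, 4), (7, 4)], [(2, 4), (5, 4), (6, 4), (9, 3)], [(2, 3), (5, 3), (6, 3), (9, 2)],
      [(1, 2)], [(14, 2)], [(10, 2), (13, 2)], [(10, 2), (13, 2)], [(12, 2), (15, 2)], [(12, 2),
      (15, 2)], [(11, 2)]]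
  [[0, 0, 0, 0, 0, 1, 1, 1]]
  (.cons (.leafM 0 [4, 5, 6, 7, 0, 3] [(1, [1, 0, 0, 0])])
  .nil))
 (.lp .none [2, 2, 6, 2, 2, 2, 2, 2] [] [-1, -1, -1, -1, -3, -3, -1, -1, -1, -1, -1, -1, -1, -1,
      -1, -1] 8 5
  [[(11, 2)], [(0, 2), (3, 2), (4, 4), (7, 2)], [(0, 2), (3, 2), (4, 4), (7, 2)], [(2, 2), (5, 4),
      (6, 2), (9, 2)], [(2, 4), (5, 6), (6, 4), (9, 4)], [(0, 4), (3, 4), (4, 6), (7, 4)], [(0, 2),
      (3, 2), (4, 4), (7, 2)], [(2, 2), (5, 4), (6, 2), (9, 2)], [(2, 2), (5, 4), (6, 2), (9, 2)],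
      [(14, 2)], [(1, 2)], [(10, 2), (13, 2)], [(10, 2), (13, 2)], [(12, 2), (15, 2)], [(12, 2),
      (15, 2)], [(8, 2)]]
  []
  .nil)

/-- classes `0 1 0 1 2 3 4 2`, active pairs `1-3 2-3` -/
def trS8_51 : Tr2 :=
  .splitT 4
 (.lp .none [4, 2, 2, 6, 2, 2, 2, 2] [] [-2, -2, -1, -1, -1, -1, -3, -3, -1, -1, -1, -1, -1, -1,
      -1, -1] 8 5
  [[(1, 4), (8, 3), (11, 3), (14, 3)], [(0, 4), (3, 3), (4, 3), (7, 5)], [(0, 3), (3, 2), (4, 2),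
      (7, 4)], [(2, 2), (5, 2), (6, 4), (9, 2)], [(2, 2), (5, 2), (6, 4), (9, 2)], [(0, 3), (3, 2),
      (4, 2), (7, 4)], [(0, 5), (3, 4), (4, 4), (7, 6)], [(2, 4), (5, 4), (6, 6), (9, 4)], [(2, 2),
      (5, 2), (6, 4), (9, 2)], [(1, 3), (8, 2), (11, 2), (14, 2)], [(1, 3), (8, 2), (11, 2), (14,
      2)], [(10, 2), (13, 2)], [(10, 2), (13, 2)], [(12, 2), (15, 2)], [(12, 2), (15, 2)], [(1, 3),
      (8, 2), (11, 2), (14, 2)]]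
  [[0, 0, 0, 0, 0, 1, 1, 1]]
  (.cons (.leafM 4 [0, 2, 4, 5, 6, 7] [(1, [1, 0, 0, 0])])
  .nil))
 (.lp .none [4, 2, 2, 6, 2, 2, 2, 2] [] [-2, -2, -1, -1, -1, -1, -3, -3, -1, -1, -1, -1, -1, -1,
      -1, -1] 8 5
  [[(8, 3)], [(0, 4), (3, 3), (4, 3), (7, 5)], [(0, 3), (3, 2), (4, 2), (7, 4)], [(2, 2), (5, 2),
      (6, 4), (9, 2)], [(2, 2), (5, 2), (6, 4), (9, 2)], [(0, 3), (3, 2), (4, 2), (7, 4)], [(0, 5),
      (3, 4), (4, 4), (7, 6)], [(2, 4), (5, 4), (6, 6), (9, 4)], [(2, 2), (5, 2), (6, 4), (9, 2)],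
      [(1, 3)], [(14, 2)], [(10, 2), (13, 2)], [(10, 2), (13, 2)], [(12, 2), (15, 2)], [(12, 2),
      (15, 2)], [(11, 2)]]
  [[0, 0, 0, 0, 0, 1, 1, 1]]
  (.cons (.leafM 4 [0, 2, 4, 5, 6, 7] [(1, [1, 0, 0, 0])])
  .nil))
 (.lp .none [2, 2, 2, 6, 2, 2, 2, 2] [] [-1, -1, -1, -1, -1, -1, -3, -3, -1, -1, -1, -1, -1, -1,
      -1, -1] 8 5
  [[(11, 2)], [(0, 2), (3, 2), (4, 2), (7, 4)], [(0, 2), (3, 2), (4, 2), (7, 4)], [(2, 2), (5, 2),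
      (6, 4), (9, 2)], [(2, 2), (5, 2), (6, 4), (9, 2)], [(0, 2), (3, 2), (4, 2), (7, 4)], [(0, 4),
      (3, 4), (4, 4), (7, 6)], [(2, 4), (5, 4), (6, 6), (9, 4)], [(2, 2), (5, 2), (6, 4), (9, 2)],
      [(14, 2)], [(1, 2)], [(10, 2), (13, 2)], [(10, 2), (13, 2)], [(12, 2), (15, 2)], [(12, 2),
      (15, 2)], [(8, 2)]]
  []
  .nil)

/-- classes `0 1 0 1 2 3 4 3`, active pairs `1-2 1-3` -/
def trS8_52 : Tr2 :=
  .splitT 5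
 (.lp .none [2, 6, 2, 2, 2, 2, 2, 2] [] [-1, -1, -3, -3, -1, -1, -1, -1, -1, -1, -1, -1, -1, -1,
      -1, -1] 8 5
  [[(1, 2), (10, 2), (13, 2), (14, 2)], [(0, 2), (3, 4), (4, 2), (7, 2)], [(0, 4), (3, 6), (4, 4),
      (7, 4)], [(2, 6), (5, 4), (6, 4), (9, 4)], [(2, 4), (5, 2), (6, 2), (9, 2)], [(0, 2), (3, 4),
      (4, 2), (7, 2)], [(0, 2), (3, 4), (4, 2), (7, 2)], [(2, 4), (5, 2), (6, 2), (9, 2)], [(2, 4),
      (5, 2), (6, 2), (9, 2)], [(8, 2), (11, 2)], [(8, 2), (11, 2)], [(1, 2), (10, 2), (13, 2),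
      (14, 2)], [(1, 2), (10, 2), (13, 2), (14, 2)], [(12, 2), (15, 2)], [(12, 2), (15, 2)], [(1,
      2), (10, 2), (13, 2), (14, 2)]]
  []
  .nil)
 (.lp .none [2, 6, 2, 2, 2, 2, 2, 2] [] [-1, -1, -3, -3, -1, -1, -1, -1, -1, -1, -1, -1, -1, -1,
      -1, -1] 8 5
  [[(10, 2)], [(0, 2), (3, 4), (4, 2), (7, 2)], [(0, 4), (3, 6), (4, 4), (7, 4)], [(2, 6), (5, 4),
      (6, 4), (9, 4)], [(2, 4), (5, 2), (6, 2), (9, 2)], [(0, 2), (3, 4), (4, 2), (7, 2)], [(0, 2),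
      (3, 4), (4, 2), (7, 2)], [(2, 4), (5, 2), (6, 2), (9, 2)], [(2, 4), (5, 2), (6, 2), (9, 2)],
      [(8, 2), (11, 2)], [(8, 2), (11, 2)], [(1, 2)], [(14, 2)], [(12, 2), (15, 2)], [(12, 2), (15,
      2)], [(13, 2)]]
  []
  .nil)
 (.lp .none [2, 6, 2, 2, 2, 2, 2, 2] [] [-1, -1, -3, -3, -1, -1, -1, -1, -1, -1, -1, -1, -1, -1,
      -1, -1] 8 5
  [[(13, 2)], [(0, 2), (3, 4), (4, 2), (7, 2)], [(0, 4), (3, 6), (4, 4), (7, 4)], [(2, 6), (5, 4),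
      (6, 4), (9, 4)], [(2, 4), (5, 2), (6, 2), (9, 2)], [(0, 2), (3, 4), (4, 2), (7, 2)], [(0, 2),
      (3, 4), (4, 2), (7, 2)], [(2, 4), (5, 2), (6, 2), (9, 2)], [(2, 4), (5, 2), (6, 2), (9, 2)],
      [(8, 2), (11, 2)], [(8, 2), (11, 2)], [(14, 2)], [(1, 2)], [(12, 2), (15, 2)], [(12, 2), (15,
      2)], [(10, 2)]]
  []
  .nil)

/-- classes `0 1 0 1 2 3 4 3`, active pairs `1-2 2-3` -/
def trS8_53 : Tr2 :=
  .splitT 5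
 (.lp .none [2, 2, 6, 2, 2, 2, 2, 2] [] [-1, -1, -1, -1, -3, -3, -1, -1, -1, -1, -1, -1, -1, -1,
      -1, -1] 8 5
  [[(1, 2), (10, 2), (13, 2), (14, 2)], [(0, 2), (3, 2), (4, 4), (7, 2)], [(0, 2), (3, 2), (4, 4),
      (7, 2)], [(2, 2), (5, 4), (6, 2), (9, 2)], [(2, 4), (5, 6), (6, 4), (9, 4)], [(0, 4), (3, 4),
      (4, 6), (7, 4)], [(0, 2), (3, 2), (4, 4), (7, 2)], [(2, 2), (5, 4), (6, 2), (9, 2)], [(2, 2),
      (5, 4), (6, 2), (9, 2)], [(8, 2), (11, 2)], [(8, 2), (11, 2)], [(1, 2), (10, 2), (13, 2),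
      (14, 2)], [(1, 2), (10, 2), (13, 2), (14, 2)], [(12, 2), (15, 2)], [(12, 2), (15, 2)], [(1,
      2), (10, 2), (13, 2), (14, 2)]]
  []
  .nil)
 (.lp .none [2, 2, 6, 2, 2, 2, 2, 2] [] [-1, -1, -1, -1, -3, -3, -1, -1, -1, -1, -1, -1, -1, -1,
      -1, -1] 8 5
  [[(10, 2)], [(0, 2), (3, 2), (4, 4), (7, 2)], [(0, 2), (3, 2), (4, 4), (7, 2)], [(2, 2), (5, 4),
      (6, 2), (9, 2)], [(2, 4), (5, 6), (6, 4), (9, 4)], [(0, 4), (3, 4), (4, 6), (7, 4)], [(0, 2),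
      (3, 2), (4, 4), (7, 2)], [(2, 2), (5, 4), (6, 2), (9, 2)], [(2, 2), (5, 4), (6, 2), (9, 2)],
      [(8, 2), (11, 2)], [(8, 2), (11, 2)], [(1, 2)], [(14, 2)], [(12, 2), (15, 2)], [(12, 2), (15,
      2)], [(13, 2)]]
  []
  .nil)
 (.lp .none [2, 2, 6, 2, 2, 2, 2, 2] [] [-1, -1, -1, -1, -3, -3, -1, -1, -1, -1, -1, -1, -1, -1,
      -1, -1] 8 5
  [[(13, 2)], [(0, 2), (3, 2), (4, 4), (7, 2)], [(0, 2), (3, 2), (4, 4), (7, 2)], [(2, 2), (5, 4),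
      (6, 2), (9, 2)], [(2, 4), (5, 6), (6, 4), (9, 4)], [(0, 4), (3, 4), (4, 6), (7, 4)], [(0, 2),
      (3, 2), (4, 4), (7, 2)], [(2, 2), (5, 4), (6, 2), (9, 2)], [(2, 2), (5, 4), (6, 2), (9, 2)],
      [(8, 2), (11, 2)], [(8, 2), (11, 2)], [(14, 2)], [(1, 2)], [(12, 2), (15, 2)], [(12, 2), (15,
      2)], [(10, 2)]]
  []
  .nil)

/-- classes `0 1 0 1 2 3 4 3`, active pairs `1-3 2-3` -/
def trS8_54 : Tr2 :=
  .splitT 5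
 (.lp .none [2, 2, 2, 6, 2, 2, 2, 2] [] [-1, -1, -1, -1, -1, -1, -3, -3, -1, -1, -1, -1, -1, -1,
      -1, -1] 8 5
  [[(1, 2), (10, 2), (13, 2), (14, 2)], [(0, 2), (3, 2), (4, 2), (7, 4)], [(0, 2), (3, 2), (4, 2),
      (7, 4)], [(2, 2), (5, 2), (6, 4), (9, 2)], [(2, 2), (5, 2), (6, 4), (9, 2)], [(0, 2), (3, 2),
      (4, 2), (7, 4)], [(0, 4), (3, 4), (4, 4), (7, 6)], [(2, 4), (5, 4), (6, 6), (9, 4)], [(2, 2),
      (5, 2), (6, 4), (9, 2)], [(8, 2), (11, 2)], [(8, 2), (11, 2)], [(1, 2), (10, 2), (13, 2),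
      (14, 2)], [(1, 2), (10, 2), (13, 2), (14, 2)], [(12, 2), (15, 2)], [(12, 2), (15, 2)], [(1,
      2), (10, 2), (13, 2), (14, 2)]]
  []
  .nil)
 (.lp .none [2, 2, 2, 6, 2, 2, 2, 2] [] [-1, -1, -1, -1, -1, -1, -3, -3, -1, -1, -1, -1, -1, -1,
      -1, -1] 8 5
  [[(10, 2)], [(0, 2), (3, 2), (4, 2), (7, 4)], [(0, 2), (3, 2), (4, 2), (7, 4)], [(2, 2), (5, 2),
      (6, 4), (9, 2)], [(2, 2), (5, 2), (6, 4), (9, 2)], [(0, 2), (3, 2), (4, 2), (7, 4)], [(0, 4),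
      (3, 4), (4, 4), (7, 6)], [(2, 4), (5, 4), (6, 6), (9, 4)], [(2, 2), (5, 2), (6, 4), (9, 2)],
      [(8, 2), (11, 2)], [(8, 2), (11, 2)], [(1, 2)], [(14, 2)], [(12, 2), (15, 2)], [(12, 2), (15,
      2)], [(13, 2)]]
  []
  .nil)
 (.lp .none [2, 2, 2, 6, 2, 2, 2, 2] [] [-1, -1, -1, -1, -1, -1, -3, -3, -1, -1, -1, -1, -1, -1,
      -1, -1] 8 5
  [[(13, 2)], [(0, 2), (3, 2), (4, 2), (7, 4)], [(0, 2), (3, 2), (4, 2), (7, 4)], [(2, 2), (5, 2),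
      (6, 4), (9, 2)], [(2, 2), (5, 2), (6, 4), (9, 2)], [(0, 2), (3, 2), (4, 2), (7, 4)], [(0, 4),
      (3, 4), (4, 4), (7, 6)], [(2, 4), (5, 4), (6, 6), (9, 4)], [(2, 2), (5, 2), (6, 4), (9, 2)],
      [(8, 2), (11, 2)], [(8, 2), (11, 2)], [(14, 2)], [(1, 2)], [(12, 2), (15, 2)], [(12, 2), (15,
      2)], [(10, 2)]]
  []
  .nil)

/-- classes `0 1 0 1 2 3 4 5`, active pairs `1-2 1-3` -/
def trS8_55 : Tr2 :=
  .lp .none [2, 6, 2, 2, 2, 2, 2, 2] [] [-1, -1, -3, -3, -1, -1, -1, -1, -1, -1, -1, -1, -1, -1, -1,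
      -1] 8 5
 [[(1, 2), (14, 2)], [(0, 2), (3, 4), (4, 2), (7, 2)], [(0, 4), (3, 6), (4, 4), (7, 4)], [(2, 6),
      (5, 4), (6, 4), (9, 4)], [(2, 4), (5, 2), (6, 2), (9, 2)], [(0, 2), (3, 4), (4, 2), (7, 2)],
      [(0, 2), (3, 4), (4, 2), (7, 2)], [(2, 4), (5, 2), (6, 2), (9, 2)], [(2, 4), (5, 2), (6, 2),
      (9, 2)], [(8, 2), (11, 2)], [(8, 2), (11, 2)], [(10, 2), (13, 2)], [(10, 2), (13, 2)], [(12,
      2), (15, 2)], [(12, 2), (15, 2)], [(1, 2), (14, 2)]]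
 []
 .nil

/-- classes `0 1 0 1 2 3 4 5`, active pairs `1-2 2-3` -/
def trS8_56 : Tr2 :=
  .lp .none [2, 2, 6, 2, 2, 2, 2, 2] [] [-1, -1, -1, -1, -3, -3, -1, -1, -1, -1, -1, -1, -1, -1, -1,
      -1] 8 5
 [[(1, 2), (14, 2)], [(0, 2), (3, 2), (4, 4), (7, 2)], [(0, 2), (3, 2), (4, 4), (7, 2)], [(2, 2),
      (5, 4), (6, 2), (9, 2)], [(2, 4), (5, 6), (6, 4), (9, 4)], [(0, 4), (3, 4), (4, 6), (7, 4)],
      [(0, 2), (3, 2), (4, 4), (7, 2)], [(2, 2), (5, 4), (6, 2), (9, 2)], [(2, 2), (5, 4), (6, 2),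
      (9, 2)], [(8, 2), (11, 2)], [(8, 2), (11, 2)], [(10, 2), (13, 2)], [(10, 2), (13, 2)], [(12,
      2), (15, 2)], [(12, 2), (15, 2)], [(1, 2), (14, 2)]]
 []
 .nil

/-- classes `0 1 0 1 2 3 4 5`, active pairs `1-3 2-3` -/
def trS8_57 : Tr2 :=
  .lp .none [2, 2, 2, 6, 2, 2, 2, 2] [] [-1, -1, -1, -1, -1, -1, -3, -3, -1, -1, -1, -1, -1, -1, -1,
      -1] 8 5
 [[(1, 2), (14, 2)], [(0, 2), (3, 2), (4, 2), (7, 4)], [(0, 2), (3, 2), (4, 2), (7, 4)], [(2, 2),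
      (5, 2), (6, 4), (9, 2)], [(2, 2), (5, 2), (6, 4), (9, 2)], [(0, 2), (3, 2), (4, 2), (7, 4)],
      [(0, 4), (3, 4), (4, 4), (7, 6)], [(2, 4), (5, 4), (6, 6), (9, 4)], [(2, 2), (5, 2), (6, 4),
      (9, 2)], [(8, 2), (11, 2)], [(8, 2), (11, 2)], [(10, 2), (13, 2)], [(10, 2), (13, 2)], [(12,
      2), (15, 2)], [(12, 2), (15, 2)], [(1, 2), (14, 2)]]
 []
 .nil

/-- classes `0 1 0 2 1 3 2 3`, active pairs `1-2 6-7` -/
def trS8_58 : Tr2 :=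
  .leafM 0 [0, 3, 4, 5] []

/-- classes `0 1 0 2 3 1 2 3`, active pairs `1-2 4-7` -/
def trS8_59 : Tr2 :=
  .leafM 2 [0, 3, 5, 6] []

/-- classes `0 1 0 2 3 1 3 2`, active pairs `0-3 5-6` -/
def trS8_60 : Tr2 :=
  .lp (.imp 0) [6, 2, 2, 2, 2, 2, 6, 2] [] [-3, -3, -1, -1, -1, -1, -1, -1, -1, -1, -1, -1, -3, -3,
      -1, -1] 8 6
 [[(1, 6), (6, 4), (9, 4), (14, 4)], [(0, 6), (3, 4), (4, 4), (7, 4)], [(0, 4), (3, 2), (4, 2), (7,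
      2)], [(2, 2), (5, 2), (10, 2), (13, 4)], [(2, 2), (5, 2), (10, 2), (13, 4)], [(0, 4), (3, 2),
      (4, 2), (7, 2)], [(0, 4), (3, 2), (4, 2), (7, 2)], [(1, 4), (6, 2), (9, 2), (14, 2)], [(1,
      4), (6, 2), (9, 2), (14, 2)], [(8, 2), (11, 2), (12, 4), (15, 2)], [(8, 2), (11, 2), (12, 4),
      (15, 2)], [(2, 2), (5, 2), (10, 2), (13, 4)], [(2, 4), (5, 4), (10, 4), (13, 6)], [(8, 4),
      (11, 4), (12, 6), (15, 4)], [(8, 2), (11, 2), (12, 4), (15, 2)], [(1, 4), (6, 2), (9, 2),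
      (14, 2)]]
 []
 .nil

/-- classes `0 1 2 0 3 1 2 3`, active pairs `0-4 2-6` -/
def trS8_61 : Tr2 :=
  .leafM 6 [3, 5, 7, 1] []

/-- classes `0 1 2 0 3 2 1 3`, active pairs `0-4 2-6` -/
def trS8_62 : Tr2 :=
  .leafM 5 [1, 3, 5, 7] []

/-- classes `0 1 2 3 0 1 2 3`, active pairs `0-4 2-6` -/
def trS8_63 : Tr2 :=
  .lp (.imp 0) [6, 2, 2, 2, 2, 2, 6, 2] [] [-3, -3, -1, -1, -1, -1, -1, -1, -1, -1, -1, -1, -3, -3,
      -1, -1] 8 6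
 [[(1, 6), (6, 4), (9, 4), (14, 4)], [(0, 6), (3, 4), (8, 4), (11, 4)], [(0, 4), (3, 2), (8, 2),
      (11, 2)], [(2, 2), (5, 2), (10, 2), (13, 4)], [(2, 2), (5, 2), (10, 2), (13, 4)], [(4, 2),
      (7, 2), (12, 4), (15, 2)], [(4, 2), (7, 2), (12, 4), (15, 2)], [(1, 4), (6, 2), (9, 2), (14,
      2)], [(1, 4), (6, 2), (9, 2), (14, 2)], [(0, 4), (3, 2), (8, 2), (11, 2)], [(0, 4), (3, 2),
      (8, 2), (11, 2)], [(2, 2), (5, 2), (10, 2), (13, 4)], [(2, 4), (5, 4), (10, 4), (13, 6)],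
      [(4, 4), (7, 4), (12, 6), (15, 4)], [(4, 2), (7, 2), (12, 4), (15, 2)], [(1, 4), (6, 2), (9,
      2), (14, 2)]]
 []
 .nil

/-- the trees for `8` marks -/
def trS8 (q : Fin 64) : Tr2 :=
  ([trS8_0, trS8_1, trS8_2, trS8_3, trS8_4, trS8_5, trS8_6, trS8_7, trS8_8, trS8_9, trS8_10,
      trS8_11, trS8_12, trS8_13, trS8_14, trS8_15, trS8_16, trS8_17, trS8_18, trS8_19,
      trS8_20, trS8_21, trS8_22, trS8_23, trS8_24, trS8_25, trS8_26, trS8_27, trS8_28,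
      trS8_29, trS8_30, trS8_31, trS8_32, trS8_33, trS8_34, trS8_35, trS8_36, trS8_37,
      trS8_38, trS8_39, trS8_40, trS8_41, trS8_42, trS8_43, trS8_44, trS8_45, trS8_46,
      trS8_47, trS8_48, trS8_49, trS8_50, trS8_51, trS8_52, trS8_53, trS8_54, trS8_55,
      trS8_56, trS8_57, trS8_58, trS8_59, trS8_60, trS8_61, trS8_62, trS8_63] : List Tr2).getD q.val Tr2.nil

private theorem okS8_0 : ∀ q : Fin 64, q.val / 6 = 0 → chkR (canS8 q) (actS8 q) schN (trS8 q) = true := by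
  decide +kernel

private theorem okS8_1 : ∀ q : Fin 64, q.val / 6 = 1 → chkR (canS8 q) (actS8 q) schN (trS8 q) = true := by
  decide +kernel

private theorem okS8_2 : ∀ q : Fin 64, q.val / 6 = 2 → chkR (canS8 q) (actS8 q) schN (trS8 q) = true := by
  decide +kernel

private theorem okS8_3 : ∀ q : Fin 64, q.val / 6 = 3 → chkR (canS8 q) (actS8 q) schN (trS8 q) = true := by
  decide +kernel

private theorem okS8_4 : ∀ q : Fin 64, q.val / 6 = 4 → chkR (canS8 q) (actS8 q) schN (trS8 q) = true := by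
  decide +kernel

private theorem okS8_5 : ∀ q : Fin 64, q.val / 6 = 5 → chkR (canS8 q) (actS8 q) schN (trS8 q) = true := by
  decide +kernel

private theorem okS8_6 : ∀ q : Fin 64, q.val / 6 = 6 → chkR (canS8 q) (actS8 q) schN (trS8 q) = true := by
  decide +kernel

private theorem okS8_7 : ∀ q : Fin 64, q.val / 6 = 7 → chkR (canS8 q) (actS8 q) schN (trS8 q) = true := by
  decide +kernel

private theorem okS8_8 : ∀ q : Fin 64, q.val / 6 = 8 → chkR (canS8 q) (actS8 q) schN (trS8 q) = true := by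
  decide +kernel

private theorem okS8_9 : ∀ q : Fin 64, q.val / 6 = 9 → chkR (canS8 q) (actS8 q) schN (trS8 q) = true := by
  decide +kernel

private theorem okS8_10 : ∀ q : Fin 64, q.val / 6 = 10 → chkR (canS8 q) (actS8 q) schN (trS8 q) = true := by
  decide +kernel

theorem okS8 : ∀ q : Fin 64, chkR (canS8 q) (actS8 q) schN (trS8 q) = true := by
  intro q
  have hq : q.val / 6 < 11 := by omega
  have h : q.val / 6 = 0 ∨ q.val / 6 = 1 ∨ q.val / 6 = 2 ∨ q.val / 6 = 3 ∨ q.val / 6 = 4 ∨ q.val / 6 = 5 ∨ q.val / 6 = 6 ∨ q.val / 6 = 7 ∨ q.val / 6 = 8 ∨ q.val / 6 = 9 ∨ q.val / 6 = 10 := by omega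
  rcases h with h | h | h | h | h | h | h | h | h | h | h
  · exact okS8_0 q h
  · exact okS8_1 q h
  · exact okS8_2 q h
  · exact okS8_3 q h
  · exact okS8_4 q h
  · exact okS8_5 q h
  · exact okS8_6 q h
  · exact okS8_7 q h
  · exact okS8_8 q h
  · exact okS8_9 q h
  · exact okS8_10 q h

end Pool.Agent.Lib_MP_fa6e45
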