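import Pool.Agent.Lib_MP_fa6e45.ZT0

/-!
MP_fa6e45_co, stage 3: certificate trees for the patterns with 9 marked corners (generated).
-/

namespace Pool.Agent.Lib_MP_fa6e45

/-- classes `0 0 1 2 3 2 3 4 1`, active pairs `0-2 4-5` -/
def trS9_0 : Tr2 :=
  .lp .none [16, 8, 8, 6, 6, 18, 6, 6, 6] [] [-8, -8, -4, -4, -4, -4, -3, -3, -3, -3, -9, -9, -3, -3,
      -3, -3, -3, -3] 24 5
 [[(1, 16), (4, 12), (7, 11), (16, 11)], [(0, 16), (2, 12), (3, 12), (5, 12)], [(0, 12), (2, 8),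
      (3, 8), (5, 8)], [(0, 12), (2, 8), (3, 8), (5, 8)], [(0, 12), (2, 8), (3, 8), (5, 8)], [(1,
      12), (4, 8), (7, 7), (16, 7)], [(1, 11), (4, 7), (7, 6), (16, 6)], [(6, 6), (9, 6), (10, 12),
      (13, 6)], [(6, 6), (9, 6), (10, 12), (13, 6)], [(8, 6), (11, 12), (12, 6), (15, 6)], [(8,
      12), (11, 18), (12, 12), (15, 12)], [(6, 12), (9, 12), (10, 18), (13, 12)], [(6, 6), (9, 6),
      (10, 12), (13, 6)], [(8, 6), (11, 12), (12, 6), (15, 6)], [(8, 6), (11, 12), (12, 6), (15,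
      6)], [(14, 6), (17, 6)], [(14, 6), (17, 6)], [(1, 11), (4, 7), (7, 6), (16, 6)]]
 []
 .nil

/-- classes `0 0 1 2 3 2 3 4 1`, active pairs `0-2 4-5 4-6` -/
def trS9_1 : Tr2 :=
  .lp .none [16, 8, 8, 6, 18, 6, 6, 6, 6] [] [-8, -8, -4, -4, -4, -4, -3, -3, -9, -9, -3, -3, -3, -3,
      -3, -3, -3, -3] 24 5
 [[(1, 16), (4, 12), (7, 11), (16, 11)], [(0, 16), (2, 12), (3, 12), (5, 12)], [(0, 12), (2, 8),
      (3, 8), (5, 8)], [(0, 12), (2, 8), (3, 8), (5, 8)], [(0, 12), (2, 8), (3, 8), (5, 8)], [(1,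
      12), (4, 8), (7, 7), (16, 7)], [(1, 11), (4, 7), (7, 6), (16, 6)], [(6, 6), (9, 12), (10, 6),
      (13, 6)], [(6, 12), (9, 18), (10, 12), (13, 12)], [(8, 18), (11, 12), (12, 12), (15, 12)],
      [(8, 12), (11, 6), (12, 6), (15, 6)], [(6, 6), (9, 12), (10, 6), (13, 6)], [(6, 6), (9, 12),
      (10, 6), (13, 6)], [(8, 12), (11, 6), (12, 6), (15, 6)], [(8, 12), (11, 6), (12, 6), (15,
      6)], [(14, 6), (17, 6)], [(14, 6), (17, 6)], [(1, 11), (4, 7), (7, 6), (16, 6)]]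
 []
 .nil

/-- classes `0 0 1 2 3 2 3 4 1`, active pairs `0-2 4-5 5-6` -/
def trS9_2 : Tr2 :=
  .lp .none [16, 8, 8, 6, 6, 18, 6, 6, 6] [] [-8, -8, -4, -4, -4, -4, -3, -3, -3, -3, -9, -9, -3, -3,
      -3, -3, -3, -3] 24 5
 [[(1, 16), (4, 12), (7, 11), (16, 11)], [(0, 16), (2, 12), (3, 12), (5, 12)], [(0, 12), (2, 8),
      (3, 8), (5, 8)], [(0, 12), (2, 8), (3, 8), (5, 8)], [(0, 12), (2, 8), (3, 8), (5, 8)], [(1,
      12), (4, 8), (7, 7), (16, 7)], [(1, 11), (4, 7), (7, 6), (16, 6)], [(6, 6), (9, 6), (10, 12),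
      (13, 6)], [(6, 6), (9, 6), (10, 12), (13, 6)], [(8, 6), (11, 12), (12, 6), (15, 6)], [(8,
      12), (11, 18), (12, 12), (15, 12)], [(6, 12), (9, 12), (10, 18), (13, 12)], [(6, 6), (9, 6),
      (10, 12), (13, 6)], [(8, 6), (11, 12), (12, 6), (15, 6)], [(8, 6), (11, 12), (12, 6), (15,
      6)], [(14, 6), (17, 6)], [(14, 6), (17, 6)], [(1, 11), (4, 7), (7, 6), (16, 6)]]
 []
 .nil

/-- classes `0 0 1 2 3 2 3 4 1`, active pairs `0-2 4-6` -/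
def trS9_3 : Tr2 :=
  .lp .none [16, 8, 8, 6, 6, 6, 18, 6, 6] [] [-8, -8, -4, -4, -4, -4, -3, -3, -3, -3, -3, -3, -9, -9,
      -3, -3, -3, -3] 24 5
 [[(1, 16), (4, 12), (7, 11), (16, 11)], [(0, 16), (2, 12), (3, 12), (5, 12)], [(0, 12), (2, 8),
      (3, 8), (5, 8)], [(0, 12), (2, 8), (3, 8), (5, 8)], [(0, 12), (2, 8), (3, 8), (5, 8)], [(1,
      12), (4, 8), (7, 7), (16, 7)], [(1, 11), (4, 7), (7, 6), (16, 6)], [(6, 6), (9, 6), (10, 6),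
      (13, 12)], [(6, 6), (9, 6), (10, 6), (13, 12)], [(8, 6), (11, 6), (12, 12), (15, 6)], [(8,
      6), (11, 6), (12, 12), (15, 6)], [(6, 6), (9, 6), (10, 6), (13, 12)], [(6, 12), (9, 12), (10,
      12), (13, 18)], [(8, 12), (11, 12), (12, 18), (15, 12)], [(8, 6), (11, 6), (12, 12), (15,
      6)], [(14, 6), (17, 6)], [(14, 6), (17, 6)], [(1, 11), (4, 7), (7, 6), (16, 6)]]
 []
 .nil

/-- classes `0 0 1 2 3 2 3 4 1`, active pairs `0-2 4-6 5-6` -/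
def trS9_4 : Tr2 :=
  .lp .none [16, 8, 8, 6, 6, 6, 18, 6, 6] [] [-8, -8, -4, -4, -4, -4, -3, -3, -3, -3, -3, -3, -9, -9,
      -3, -3, -3, -3] 24 5
 [[(1, 16), (4, 12), (7, 11), (16, 11)], [(0, 16), (2, 12), (3, 12), (5, 12)], [(0, 12), (2, 8),
      (3, 8), (5, 8)], [(0, 12), (2, 8), (3, 8), (5, 8)], [(0, 12), (2, 8), (3, 8), (5, 8)], [(1,
      12), (4, 8), (7, 7), (16, 7)], [(1, 11), (4, 7), (7, 6), (16, 6)], [(6, 6), (9, 6), (10, 6),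
      (13, 12)], [(6, 6), (9, 6), (10, 6), (13, 12)], [(8, 6), (11, 6), (12, 12), (15, 6)], [(8,
      6), (11, 6), (12, 12), (15, 6)], [(6, 6), (9, 6), (10, 6), (13, 12)], [(6, 12), (9, 12), (10,
      12), (13, 18)], [(8, 12), (11, 12), (12, 18), (15, 12)], [(8, 6), (11, 6), (12, 12), (15,
      6)], [(14, 6), (17, 6)], [(14, 6), (17, 6)], [(1, 11), (4, 7), (7, 6), (16, 6)]]
 []
 .nil

/-- classes `0 0 1 2 3 2 3 4 1`, active pairs `0-2 5-6` -/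
def trS9_5 : Tr2 :=
  .lp .none [16, 8, 8, 6, 6, 6, 18, 6, 6] [] [-8, -8, -4, -4, -4, -4, -3, -3, -3, -3, -3, -3, -9, -9,
      -3, -3, -3, -3] 24 5
 [[(1, 16), (4, 12), (7, 11), (16, 11)], [(0, 16), (2, 12), (3, 12), (5, 12)], [(0, 12), (2, 8),
      (3, 8), (5, 8)], [(0, 12), (2, 8), (3, 8), (5, 8)], [(0, 12), (2, 8), (3, 8), (5, 8)], [(1,
      12), (4, 8), (7, 7), (16, 7)], [(1, 11), (4, 7), (7, 6), (16, 6)], [(6, 6), (9, 6), (10, 6),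
      (13, 12)], [(6, 6), (9, 6), (10, 6), (13, 12)], [(8, 6), (11, 6), (12, 12), (15, 6)], [(8,
      6), (11, 6), (12, 12), (15, 6)], [(6, 6), (9, 6), (10, 6), (13, 12)], [(6, 12), (9, 12), (10,
      12), (13, 18)], [(8, 12), (11, 12), (12, 18), (15, 12)], [(8, 6), (11, 6), (12, 12), (15,
      6)], [(14, 6), (17, 6)], [(14, 6), (17, 6)], [(1, 11), (4, 7), (7, 6), (16, 6)]]
 []
 .nil

/-- classes `0 0 1 2 3 2 4 3 1`, active pairs `0-2 4-5` -/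
def trS9_6 : Tr2 :=
  .lp .none [16, 8, 8, 6, 12, 12, 6, 6, 6] [] [-8, -8, -4, -4, -4, -4, -3, -3, -6, -6, -6, -6, -3,
      -3, -3, -3, -3, -3] 24 5
 [[(1, 16), (4, 12), (7, 11), (16, 11)], [(0, 16), (2, 12), (3, 12), (5, 12)], [(0, 12), (2, 8),
      (3, 8), (5, 8)], [(0, 12), (2, 8), (3, 8), (5, 8)], [(0, 12), (2, 8), (3, 8), (5, 8)], [(1,
      12), (4, 8), (7, 7), (16, 7)], [(1, 11), (4, 7), (7, 6), (16, 6)], [(6, 6), (9, 9), (10, 9),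
      (13, 6)], [(6, 9), (9, 12), (10, 12), (13, 9)], [(8, 12), (11, 12), (14, 9), (17, 9)], [(8,
      12), (11, 12), (14, 9), (17, 9)], [(6, 9), (9, 12), (10, 12), (13, 9)], [(6, 6), (9, 9), (10,
      9), (13, 6)], [(12, 6), (15, 6)], [(12, 6), (15, 6)], [(8, 9), (11, 9), (14, 6), (17, 6)],
      [(8, 9), (11, 9), (14, 6), (17, 6)], [(1, 11), (4, 7), (7, 6), (16, 6)]]
 []
 .nil

/-- classes `0 0 1 2 3 3 2 4 1`, active pairs `0-2 4-6` -/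
def trS9_7 : Tr2 :=
  .lp .none [16, 8, 8, 6, 8, 8, 16, 6, 6] [] [-8, -8, -4, -4, -4, -4, -3, -3, -4, -4, -4, -4, -8, -8,
      -3, -3, -3, -3] 24 5
 [[(1, 16), (4, 12), (7, 11), (16, 11)], [(0, 16), (2, 12), (3, 12), (5, 12)], [(0, 12), (2, 8),
      (3, 8), (5, 8)], [(0, 12), (2, 8), (3, 8), (5, 8)], [(0, 12), (2, 8), (3, 8), (5, 8)], [(1,
      12), (4, 8), (7, 7), (16, 7)], [(1, 11), (4, 7), (7, 6), (16, 6)], [(6, 6), (9, 7), (12, 11),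
      (15, 6)], [(6, 7), (9, 8), (12, 12), (15, 7)], [(8, 8), (10, 8), (11, 8), (13, 12)], [(8, 8),
      (10, 8), (11, 8), (13, 12)], [(8, 8), (10, 8), (11, 8), (13, 12)], [(8, 12), (10, 12), (11,
      12), (13, 16)], [(6, 11), (9, 12), (12, 16), (15, 11)], [(6, 6), (9, 7), (12, 11), (15, 6)],
      [(14, 6), (17, 6)], [(14, 6), (17, 6)], [(1, 11), (4, 7), (7, 6), (16, 6)]]
 [[0, 0, 0, 1, 0, 0, 0, 1, 1]]
 (.cons (.lp (.imp 0) [10, 4, 6, 8, 6, 4, 10, 4, 4] [] [-5, -5, -2, -2, -3, -3, -4, -4, -3, -3, -2,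
      -2, -5, -5, -2, -2, -2, -2] 16 6
  [[(1, 10), (4, 8), (7, 9), (16, 7)], [(0, 10), (2, 7), (3, 7), (5, 8)], [(0, 7), (2, 4), (3, 4),
      (5, 5)], [(0, 7), (2, 4), (3, 4), (5, 5)], [(0, 8), (2, 5), (3, 5), (5, 6)], [(1, 8), (4, 6),
      (7, 7), (16, 5)], [(1, 9), (4, 7), (7, 8), (16, 6)], [(6, 8), (9, 7), (12, 9), (15, 6)], [(6,
      7), (9, 6), (12, 8), (15, 5)], [(8, 6), (10, 5), (11, 5), (13, 8)], [(8, 5), (10, 4), (11,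
      4), (13, 7)], [(8, 5), (10, 4), (11, 4), (13, 7)], [(8, 8), (10, 7), (11, 7), (13, 10)], [(6,
      9), (9, 8), (12, 10), (15, 7)], [(6, 6), (9, 5), (12, 7), (15, 4)], [(14, 4), (17, 4)], [(14,
      4), (17, 4)], [(1, 7), (4, 5), (7, 6), (16, 4)]]
  [[0, 3, 0, 0, 0, 0, 0, 0, 0], [0, 0, 0, 0, 0, 3, 0, 0, 0]]
  (.cons (.leafM 4 [8, 1, 3, 5, 7] [(1, [1, 0, 0, 0, 0]), (1, [-1, -3, -3, -3, 3])])
  (.cons (.leafM 6 [8, 1, 3, 5, 7] [(1, [-1, -3, -3, -3, 3]), (1, [1, 0, 0, 0, 0])])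
  .nil)))
 .nil)

/-- classes `0 0 1 2 3 4 2 3 1`, active pairs `0-2 4-7` -/
def trS9_8 : Tr2 :=
  .lp .none [16, 8, 8, 6, 12, 6, 6, 12, 6] [] [-8, -8, -4, -4, -4, -4, -3, -3, -6, -6, -3, -3, -3,
      -3, -6, -6, -3, -3] 24 5
 [[(1, 16), (4, 12), (7, 11), (16, 11)], [(0, 16), (2, 12), (3, 12), (5, 12)], [(0, 12), (2, 8),
      (3, 8), (5, 8)], [(0, 12), (2, 8), (3, 8), (5, 8)], [(0, 12), (2, 8), (3, 8), (5, 8)], [(1,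
      12), (4, 8), (7, 7), (16, 7)], [(1, 11), (4, 7), (7, 6), (16, 6)], [(6, 6), (9, 9), (12, 6),
      (15, 9)], [(6, 9), (9, 12), (12, 9), (15, 12)], [(8, 12), (11, 9), (14, 12), (17, 9)], [(8,
      9), (11, 6), (14, 9), (17, 6)], [(10, 6), (13, 6)], [(10, 6), (13, 6)], [(6, 6), (9, 9), (12,
      6), (15, 9)], [(6, 9), (9, 12), (12, 9), (15, 12)], [(8, 12), (11, 9), (14, 12), (17, 9)],
      [(8, 9), (11, 6), (14, 9), (17, 6)], [(1, 11), (4, 7), (7, 6), (16, 6)]]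
 []
 .nil

/-- classes `0 0 1 2 3 4 2 4 1`, active pairs `0-2 6-7` -/
def trS9_9 : Tr2 :=
  .lp .none [16, 8, 8, 6, 6, 6, 12, 12, 6] [] [-8, -8, -4, -4, -4, -4, -3, -3, -3, -3, -3, -3, -6,
      -6, -6, -6, -3, -3] 24 5
 [[(1, 16), (4, 12), (7, 11), (16, 11)], [(0, 16), (2, 12), (3, 12), (5, 12)], [(0, 12), (2, 8),
      (3, 8), (5, 8)], [(0, 12), (2, 8), (3, 8), (5, 8)], [(0, 12), (2, 8), (3, 8), (5, 8)], [(1,
      12), (4, 8), (7, 7), (16, 7)], [(1, 11), (4, 7), (7, 6), (16, 6)], [(6, 6), (9, 6), (12, 9),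
      (15, 9)], [(6, 6), (9, 6), (12, 9), (15, 9)], [(8, 6), (11, 6)], [(8, 6), (11, 6)], [(10, 6),
      (13, 9), (14, 9), (17, 6)], [(10, 9), (13, 12), (14, 12), (17, 9)], [(6, 9), (9, 9), (12,
      12), (15, 12)], [(6, 9), (9, 9), (12, 12), (15, 12)], [(10, 9), (13, 12), (14, 12), (17, 9)],
      [(10, 6), (13, 9), (14, 9), (17, 6)], [(1, 11), (4, 7), (7, 6), (16, 6)]]
 []
 .nil

/-- classes `0 0 1 2 3 4 3 2 1`, active pairs `0-2 4-7` -/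
def trS9_10 : Tr2 :=
  .lp .none [16, 8, 8, 6, 6, 6, 6, 18, 6] [] [-8, -8, -4, -4, -4, -4, -3, -3, -3, -3, -3, -3, -3, -3,
      -9, -9, -3, -3] 24 5
 [[(1, 16), (4, 12), (7, 11), (16, 11)], [(0, 16), (2, 12), (3, 12), (5, 12)], [(0, 12), (2, 8),
      (3, 8), (5, 8)], [(0, 12), (2, 8), (3, 8), (5, 8)], [(0, 12), (2, 8), (3, 8), (5, 8)], [(1,
      12), (4, 8), (7, 7), (16, 7)], [(1, 11), (4, 7), (7, 6), (16, 6)], [(6, 6), (9, 6), (14, 12),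
      (17, 6)], [(6, 6), (9, 6), (14, 12), (17, 6)], [(8, 6), (11, 6), (12, 6), (15, 12)], [(8, 6),
      (11, 6), (12, 6), (15, 12)], [(10, 6), (13, 6)], [(10, 6), (13, 6)], [(8, 6), (11, 6), (12,
      6), (15, 12)], [(8, 12), (11, 12), (12, 12), (15, 18)], [(6, 12), (9, 12), (14, 18), (17,
      12)], [(6, 6), (9, 6), (14, 12), (17, 6)], [(1, 11), (4, 7), (7, 6), (16, 6)]]
 []
 .nil

/-- classes `0 0 1 2 3 4 3 4 1`, active pairs `0-2 5-6` -/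
def trS9_11 : Tr2 :=
  .lp .none [16, 8, 8, 6, 6, 6, 18, 6, 6] [] [-8, -8, -4, -4, -4, -4, -3, -3, -3, -3, -3, -3, -9, -9,
      -3, -3, -3, -3] 24 5
 [[(1, 16), (4, 12), (7, 11), (16, 11)], [(0, 16), (2, 12), (3, 12), (5, 12)], [(0, 12), (2, 8),
      (3, 8), (5, 8)], [(0, 12), (2, 8), (3, 8), (5, 8)], [(0, 12), (2, 8), (3, 8), (5, 8)], [(1,
      12), (4, 8), (7, 7), (16, 7)], [(1, 11), (4, 7), (7, 6), (16, 6)], [(6, 6), (9, 6)], [(6, 6),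
      (9, 6)], [(8, 6), (11, 6), (12, 12), (15, 6)], [(8, 6), (11, 6), (12, 12), (15, 6)], [(10,
      6), (13, 12), (14, 6), (17, 6)], [(10, 12), (13, 18), (14, 12), (17, 12)], [(8, 12), (11,
      12), (12, 18), (15, 12)], [(8, 6), (11, 6), (12, 12), (15, 6)], [(10, 6), (13, 12), (14, 6),
      (17, 6)], [(10, 6), (13, 12), (14, 6), (17, 6)], [(1, 11), (4, 7), (7, 6), (16, 6)]]
 []
 .nil

/-- classes `0 0 1 2 3 4 3 4 1`, active pairs `0-2 5-6 5-7` -/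
def trS9_12 : Tr2 :=
  .lp .none [16, 8, 8, 6, 6, 18, 6, 6, 6] [] [-8, -8, -4, -4, -4, -4, -3, -3, -3, -3, -9, -9, -3, -3,
      -3, -3, -3, -3] 24 5
 [[(1, 16), (4, 12), (7, 11), (16, 11)], [(0, 16), (2, 12), (3, 12), (5, 12)], [(0, 12), (2, 8),
      (3, 8), (5, 8)], [(0, 12), (2, 8), (3, 8), (5, 8)], [(0, 12), (2, 8), (3, 8), (5, 8)], [(1,
      12), (4, 8), (7, 7), (16, 7)], [(1, 11), (4, 7), (7, 6), (16, 6)], [(6, 6), (9, 6)], [(6, 6),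
      (9, 6)], [(8, 6), (11, 12), (12, 6), (15, 6)], [(8, 12), (11, 18), (12, 12), (15, 12)], [(10,
      18), (13, 12), (14, 12), (17, 12)], [(10, 12), (13, 6), (14, 6), (17, 6)], [(8, 6), (11, 12),
      (12, 6), (15, 6)], [(8, 6), (11, 12), (12, 6), (15, 6)], [(10, 12), (13, 6), (14, 6), (17,
      6)], [(10, 12), (13, 6), (14, 6), (17, 6)], [(1, 11), (4, 7), (7, 6), (16, 6)]]
 []
 .nil

/-- classes `0 0 1 2 3 4 3 4 1`, active pairs `0-2 5-6 6-7` -/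
def trS9_13 : Tr2 :=
  .lp .none [16, 8, 8, 6, 6, 6, 18, 6, 6] [] [-8, -8, -4, -4, -4, -4, -3, -3, -3, -3, -3, -3, -9, -9,
      -3, -3, -3, -3] 24 5
 [[(1, 16), (4, 12), (7, 11), (16, 11)], [(0, 16), (2, 12), (3, 12), (5, 12)], [(0, 12), (2, 8),
      (3, 8), (5, 8)], [(0, 12), (2, 8), (3, 8), (5, 8)], [(0, 12), (2, 8), (3, 8), (5, 8)], [(1,
      12), (4, 8), (7, 7), (16, 7)], [(1, 11), (4, 7), (7, 6), (16, 6)], [(6, 6), (9, 6)], [(6, 6),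
      (9, 6)], [(8, 6), (11, 6), (12, 12), (15, 6)], [(8, 6), (11, 6), (12, 12), (15, 6)], [(10,
      6), (13, 12), (14, 6), (17, 6)], [(10, 12), (13, 18), (14, 12), (17, 12)], [(8, 12), (11,
      12), (12, 18), (15, 12)], [(8, 6), (11, 6), (12, 12), (15, 6)], [(10, 6), (13, 12), (14, 6),
      (17, 6)], [(10, 6), (13, 12), (14, 6), (17, 6)], [(1, 11), (4, 7), (7, 6), (16, 6)]]
 []
 .nil

/-- classes `0 0 1 2 3 4 3 4 1`, active pairs `0-2 5-7` -/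
def trS9_14 : Tr2 :=
  .lp .none [16, 8, 8, 6, 6, 18, 6, 6, 6] [] [-8, -8, -4, -4, -4, -4, -3, -3, -3, -3, -9, -9, -3, -3,
      -3, -3, -3, -3] 24 5
 [[(1, 16), (4, 12), (7, 11), (16, 11)], [(0, 16), (2, 12), (3, 12), (5, 12)], [(0, 12), (2, 8),
      (3, 8), (5, 8)], [(0, 12), (2, 8), (3, 8), (5, 8)], [(0, 12), (2, 8), (3, 8), (5, 8)], [(1,
      12), (4, 8), (7, 7), (16, 7)], [(1, 11), (4, 7), (7, 6), (16, 6)], [(6, 6), (9, 6)], [(6, 6),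
      (9, 6)], [(8, 6), (11, 12), (12, 6), (15, 6)], [(8, 12), (11, 18), (12, 12), (15, 12)], [(10,
      18), (13, 12), (14, 12), (17, 12)], [(10, 12), (13, 6), (14, 6), (17, 6)], [(8, 6), (11, 12),
      (12, 6), (15, 6)], [(8, 6), (11, 12), (12, 6), (15, 6)], [(10, 12), (13, 6), (14, 6), (17,
      6)], [(10, 12), (13, 6), (14, 6), (17, 6)], [(1, 11), (4, 7), (7, 6), (16, 6)]]
 []
 .nil

/-- classes `0 0 1 2 3 4 3 4 1`, active pairs `0-2 5-7 6-7` -/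
def trS9_15 : Tr2 :=
  .lp .none [16, 8, 8, 6, 6, 6, 6, 18, 6] [] [-8, -8, -4, -4, -4, -4, -3, -3, -3, -3, -3, -3, -3, -3,
      -9, -9, -3, -3] 24 5
 [[(1, 16), (4, 12), (7, 11), (16, 11)], [(0, 16), (2, 12), (3, 12), (5, 12)], [(0, 12), (2, 8),
      (3, 8), (5, 8)], [(0, 12), (2, 8), (3, 8), (5, 8)], [(0, 12), (2, 8), (3, 8), (5, 8)], [(1,
      12), (4, 8), (7, 7), (16, 7)], [(1, 11), (4, 7), (7, 6), (16, 6)], [(6, 6), (9, 6)], [(6, 6),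
      (9, 6)], [(8, 6), (11, 6), (12, 6), (15, 12)], [(8, 6), (11, 6), (12, 6), (15, 12)], [(10,
      6), (13, 6), (14, 12), (17, 6)], [(10, 6), (13, 6), (14, 12), (17, 6)], [(8, 6), (11, 6),
      (12, 6), (15, 12)], [(8, 12), (11, 12), (12, 12), (15, 18)], [(10, 12), (13, 12), (14, 18),
      (17, 12)], [(10, 6), (13, 6), (14, 12), (17, 6)], [(1, 11), (4, 7), (7, 6), (16, 6)]]
 []
 .nil

/-- classes `0 0 1 2 3 4 3 4 1`, active pairs `0-2 6-7` -/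
def trS9_16 : Tr2 :=
  .lp .none [16, 8, 8, 6, 6, 6, 18, 6, 6] [] [-8, -8, -4, -4, -4, -4, -3, -3, -3, -3, -3, -3, -9, -9,
      -3, -3, -3, -3] 24 5
 [[(1, 16), (4, 12), (7, 11), (16, 11)], [(0, 16), (2, 12), (3, 12), (5, 12)], [(0, 12), (2, 8),
      (3, 8), (5, 8)], [(0, 12), (2, 8), (3, 8), (5, 8)], [(0, 12), (2, 8), (3, 8), (5, 8)], [(1,
      12), (4, 8), (7, 7), (16, 7)], [(1, 11), (4, 7), (7, 6), (16, 6)], [(6, 6), (9, 6)], [(6, 6),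
      (9, 6)], [(8, 6), (11, 6), (12, 12), (15, 6)], [(8, 6), (11, 6), (12, 12), (15, 6)], [(10,
      6), (13, 12), (14, 6), (17, 6)], [(10, 12), (13, 18), (14, 12), (17, 12)], [(8, 12), (11,
      12), (12, 18), (15, 12)], [(8, 6), (11, 6), (12, 12), (15, 6)], [(10, 6), (13, 12), (14, 6),
      (17, 6)], [(10, 6), (13, 12), (14, 6), (17, 6)], [(1, 11), (4, 7), (7, 6), (16, 6)]]
 []
 .nil

/-- classes `0 1 0 1 2 3 2 3 4`, active pairs `1-2 1-3 5-6` -/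
def trS9_17 : Tr2 :=
  .lp .none [2, 6, 2, 2, 2, 2, 6, 2, 2] [] [-1, -1, -3, -3, -1, -1, -1, -1, -1, -1, -1, -1, -3, -3,
      -1, -1, -1, -1] 8 5
 [[(1, 2), (16, 2)], [(0, 2), (3, 4), (4, 2), (7, 2)], [(0, 4), (3, 6), (4, 4), (7, 4)], [(2, 6),
      (5, 4), (6, 4), (9, 4)], [(2, 4), (5, 2), (6, 2), (9, 2)], [(0, 2), (3, 4), (4, 2), (7, 2)],
      [(0, 2), (3, 4), (4, 2), (7, 2)], [(2, 4), (5, 2), (6, 2), (9, 2)], [(2, 4), (5, 2), (6, 2),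
      (9, 2)], [(8, 2), (11, 2), (12, 4), (15, 2)], [(8, 2), (11, 2), (12, 4), (15, 2)], [(10, 2),
      (13, 4), (14, 2), (17, 2)], [(10, 4), (13, 6), (14, 4), (17, 4)], [(8, 4), (11, 4), (12, 6),
      (15, 4)], [(8, 2), (11, 2), (12, 4), (15, 2)], [(10, 2), (13, 4), (14, 2), (17, 2)], [(10,
      2), (13, 4), (14, 2), (17, 2)], [(1, 2), (16, 2)]]
 []
 .nil

/-- classes `0 1 0 1 2 3 2 3 4`, active pairs `1-2 1-3 5-6 5-7` -/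
def trS9_18 : Tr2 :=
  .lp .none [2, 6, 2, 2, 2, 6, 2, 2, 2] [] [-1, -1, -3, -3, -1, -1, -1, -1, -1, -1, -3, -3, -1, -1,
      -1, -1, -1, -1] 8 5
 [[(1, 2), (16, 2)], [(0, 2), (3, 4), (4, 2), (7, 2)], [(0, 4), (3, 6), (4, 4), (7, 4)], [(2, 6),
      (5, 4), (6, 4), (9, 4)], [(2, 4), (5, 2), (6, 2), (9, 2)], [(0, 2), (3, 4), (4, 2), (7, 2)],
      [(0, 2), (3, 4), (4, 2), (7, 2)], [(2, 4), (5, 2), (6, 2), (9, 2)], [(2, 4), (5, 2), (6, 2),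
      (9, 2)], [(8, 2), (11, 4), (12, 2), (15, 2)], [(8, 4), (11, 6), (12, 4), (15, 4)], [(10, 6),
      (13, 4), (14, 4), (17, 4)], [(10, 4), (13, 2), (14, 2), (17, 2)], [(8, 2), (11, 4), (12, 2),
      (15, 2)], [(8, 2), (11, 4), (12, 2), (15, 2)], [(10, 4), (13, 2), (14, 2), (17, 2)], [(10,
      4), (13, 2), (14, 2), (17, 2)], [(1, 2), (16, 2)]]
 []
 .nil

/-- classes `0 1 0 1 2 3 2 3 4`, active pairs `1-2 1-3 5-6 6-7` -/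
def trS9_19 : Tr2 :=
  .lp .none [2, 6, 2, 2, 2, 2, 6, 2, 2] [] [-1, -1, -3, -3, -1, -1, -1, -1, -1, -1, -1, -1, -3, -3,
      -1, -1, -1, -1] 8 5
 [[(1, 2), (16, 2)], [(0, 2), (3, 4), (4, 2), (7, 2)], [(0, 4), (3, 6), (4, 4), (7, 4)], [(2, 6),
      (5, 4), (6, 4), (9, 4)], [(2, 4), (5, 2), (6, 2), (9, 2)], [(0, 2), (3, 4), (4, 2), (7, 2)],
      [(0, 2), (3, 4), (4, 2), (7, 2)], [(2, 4), (5, 2), (6, 2), (9, 2)], [(2, 4), (5, 2), (6, 2),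
      (9, 2)], [(8, 2), (11, 2), (12, 4), (15, 2)], [(8, 2), (11, 2), (12, 4), (15, 2)], [(10, 2),
      (13, 4), (14, 2), (17, 2)], [(10, 4), (13, 6), (14, 4), (17, 4)], [(8, 4), (11, 4), (12, 6),
      (15, 4)], [(8, 2), (11, 2), (12, 4), (15, 2)], [(10, 2), (13, 4), (14, 2), (17, 2)], [(10,
      2), (13, 4), (14, 2), (17, 2)], [(1, 2), (16, 2)]]
 []
 .nil

/-- classes `0 1 0 1 2 3 2 3 4`, active pairs `1-2 1-3 5-7` -/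
def trS9_20 : Tr2 :=
  .lp .none [2, 6, 2, 2, 2, 6, 2, 2, 2] [] [-1, -1, -3, -3, -1, -1, -1, -1, -1, -1, -3, -3, -1, -1,
      -1, -1, -1, -1] 8 5
 [[(1, 2), (16, 2)], [(0, 2), (3, 4), (4, 2), (7, 2)], [(0, 4), (3, 6), (4, 4), (7, 4)], [(2, 6),
      (5, 4), (6, 4), (9, 4)], [(2, 4), (5, 2), (6, 2), (9, 2)], [(0, 2), (3, 4), (4, 2), (7, 2)],
      [(0, 2), (3, 4), (4, 2), (7, 2)], [(2, 4), (5, 2), (6, 2), (9, 2)], [(2, 4), (5, 2), (6, 2),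
      (9, 2)], [(8, 2), (11, 4), (12, 2), (15, 2)], [(8, 4), (11, 6), (12, 4), (15, 4)], [(10, 6),
      (13, 4), (14, 4), (17, 4)], [(10, 4), (13, 2), (14, 2), (17, 2)], [(8, 2), (11, 4), (12, 2),
      (15, 2)], [(8, 2), (11, 4), (12, 2), (15, 2)], [(10, 4), (13, 2), (14, 2), (17, 2)], [(10,
      4), (13, 2), (14, 2), (17, 2)], [(1, 2), (16, 2)]]
 []
 .nil

/-- classes `0 1 0 1 2 3 2 3 4`, active pairs `1-2 1-3 5-7 6-7` -/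
def trS9_21 : Tr2 :=
  .lp .none [2, 6, 2, 2, 2, 2, 2, 6, 2] [] [-1, -1, -3, -3, -1, -1, -1, -1, -1, -1, -1, -1, -1, -1,
      -3, -3, -1, -1] 8 5
 [[(1, 2), (16, 2)], [(0, 2), (3, 4), (4, 2), (7, 2)], [(0, 4), (3, 6), (4, 4), (7, 4)], [(2, 6),
      (5, 4), (6, 4), (9, 4)], [(2, 4), (5, 2), (6, 2), (9, 2)], [(0, 2), (3, 4), (4, 2), (7, 2)],
      [(0, 2), (3, 4), (4, 2), (7, 2)], [(2, 4), (5, 2), (6, 2), (9, 2)], [(2, 4), (5, 2), (6, 2),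
      (9, 2)], [(8, 2), (11, 2), (12, 2), (15, 4)], [(8, 2), (11, 2), (12, 2), (15, 4)], [(10, 2),
      (13, 2), (14, 4), (17, 2)], [(10, 2), (13, 2), (14, 4), (17, 2)], [(8, 2), (11, 2), (12, 2),
      (15, 4)], [(8, 4), (11, 4), (12, 4), (15, 6)], [(10, 4), (13, 4), (14, 6), (17, 4)], [(10,
      2), (13, 2), (14, 4), (17, 2)], [(1, 2), (16, 2)]]
 []
 .nil

/-- classes `0 1 0 1 2 3 2 3 4`, active pairs `1-2 1-3 6-7` -/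
def trS9_22 : Tr2 :=
  .lp .none [2, 6, 2, 2, 2, 2, 6, 2, 2] [] [-1, -1, -3, -3, -1, -1, -1, -1, -1, -1, -1, -1, -3, -3,
      -1, -1, -1, -1] 8 5
 [[(1, 2), (16, 2)], [(0, 2), (3, 4), (4, 2), (7, 2)], [(0, 4), (3, 6), (4, 4), (7, 4)], [(2, 6),
      (5, 4), (6, 4), (9, 4)], [(2, 4), (5, 2), (6, 2), (9, 2)], [(0, 2), (3, 4), (4, 2), (7, 2)],
      [(0, 2), (3, 4), (4, 2), (7, 2)], [(2, 4), (5, 2), (6, 2), (9, 2)], [(2, 4), (5, 2), (6, 2),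
      (9, 2)], [(8, 2), (11, 2), (12, 4), (15, 2)], [(8, 2), (11, 2), (12, 4), (15, 2)], [(10, 2),
      (13, 4), (14, 2), (17, 2)], [(10, 4), (13, 6), (14, 4), (17, 4)], [(8, 4), (11, 4), (12, 6),
      (15, 4)], [(8, 2), (11, 2), (12, 4), (15, 2)], [(10, 2), (13, 4), (14, 2), (17, 2)], [(10,
      2), (13, 4), (14, 2), (17, 2)], [(1, 2), (16, 2)]]
 []
 .nil

/-- classes `0 1 0 1 2 3 2 3 4`, active pairs `1-2 2-3 5-6` -/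
def trS9_23 : Tr2 :=
  .lp .none [2, 2, 6, 2, 2, 2, 6, 2, 2] [] [-1, -1, -1, -1, -3, -3, -1, -1, -1, -1, -1, -1, -3, -3,
      -1, -1, -1, -1] 8 5
 [[(1, 2), (16, 2)], [(0, 2), (3, 2), (4, 4), (7, 2)], [(0, 2), (3, 2), (4, 4), (7, 2)], [(2, 2),
      (5, 4), (6, 2), (9, 2)], [(2, 4), (5, 6), (6, 4), (9, 4)], [(0, 4), (3, 4), (4, 6), (7, 4)],
      [(0, 2), (3, 2), (4, 4), (7, 2)], [(2, 2), (5, 4), (6, 2), (9, 2)], [(2, 2), (5, 4), (6, 2),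
      (9, 2)], [(8, 2), (11, 2), (12, 4), (15, 2)], [(8, 2), (11, 2), (12, 4), (15, 2)], [(10, 2),
      (13, 4), (14, 2), (17, 2)], [(10, 4), (13, 6), (14, 4), (17, 4)], [(8, 4), (11, 4), (12, 6),
      (15, 4)], [(8, 2), (11, 2), (12, 4), (15, 2)], [(10, 2), (13, 4), (14, 2), (17, 2)], [(10,
      2), (13, 4), (14, 2), (17, 2)], [(1, 2), (16, 2)]]
 []
 .nil

/-- classes `0 1 0 1 2 3 2 3 4`, active pairs `1-2 2-3 5-6 5-7` -/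
def trS9_24 : Tr2 :=
  .lp .none [2, 2, 6, 2, 2, 6, 2, 2, 2] [] [-1, -1, -1, -1, -3, -3, -1, -1, -1, -1, -3, -3, -1, -1,
      -1, -1, -1, -1] 8 5
 [[(1, 2), (16, 2)], [(0, 2), (3, 2), (4, 4), (7, 2)], [(0, 2), (3, 2), (4, 4), (7, 2)], [(2, 2),
      (5, 4), (6, 2), (9, 2)], [(2, 4), (5, 6), (6, 4), (9, 4)], [(0, 4), (3, 4), (4, 6), (7, 4)],
      [(0, 2), (3, 2), (4, 4), (7, 2)], [(2, 2), (5, 4), (6, 2), (9, 2)], [(2, 2), (5, 4), (6, 2),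
      (9, 2)], [(8, 2), (11, 4), (12, 2), (15, 2)], [(8, 4), (11, 6), (12, 4), (15, 4)], [(10, 6),
      (13, 4), (14, 4), (17, 4)], [(10, 4), (13, 2), (14, 2), (17, 2)], [(8, 2), (11, 4), (12, 2),
      (15, 2)], [(8, 2), (11, 4), (12, 2), (15, 2)], [(10, 4), (13, 2), (14, 2), (17, 2)], [(10,
      4), (13, 2), (14, 2), (17, 2)], [(1, 2), (16, 2)]]
 []
 .nil

/-- classes `0 1 0 1 2 3 2 3 4`, active pairs `1-2 2-3 5-6 6-7` -/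
def trS9_25 : Tr2 :=
  .lp .none [2, 2, 6, 2, 2, 2, 6, 2, 2] [] [-1, -1, -1, -1, -3, -3, -1, -1, -1, -1, -1, -1, -3, -3,
      -1, -1, -1, -1] 8 5
 [[(1, 2), (16, 2)], [(0, 2), (3, 2), (4, 4), (7, 2)], [(0, 2), (3, 2), (4, 4), (7, 2)], [(2, 2),
      (5, 4), (6, 2), (9, 2)], [(2, 4), (5, 6), (6, 4), (9, 4)], [(0, 4), (3, 4), (4, 6), (7, 4)],
      [(0, 2), (3, 2), (4, 4), (7, 2)], [(2, 2), (5, 4), (6, 2), (9, 2)], [(2, 2), (5, 4), (6, 2),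
      (9, 2)], [(8, 2), (11, 2), (12, 4), (15, 2)], [(8, 2), (11, 2), (12, 4), (15, 2)], [(10, 2),
      (13, 4), (14, 2), (17, 2)], [(10, 4), (13, 6), (14, 4), (17, 4)], [(8, 4), (11, 4), (12, 6),
      (15, 4)], [(8, 2), (11, 2), (12, 4), (15, 2)], [(10, 2), (13, 4), (14, 2), (17, 2)], [(10,
      2), (13, 4), (14, 2), (17, 2)], [(1, 2), (16, 2)]]
 []
 .nil

/-- classes `0 1 0 1 2 3 2 3 4`, active pairs `1-2 2-3 5-7` -/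
def trS9_26 : Tr2 :=
  .lp .none [2, 2, 6, 2, 2, 6, 2, 2, 2] [] [-1, -1, -1, -1, -3, -3, -1, -1, -1, -1, -3, -3, -1, -1,
      -1, -1, -1, -1] 8 5
 [[(1, 2), (16, 2)], [(0, 2), (3, 2), (4, 4), (7, 2)], [(0, 2), (3, 2), (4, 4), (7, 2)], [(2, 2),
      (5, 4), (6, 2), (9, 2)], [(2, 4), (5, 6), (6, 4), (9, 4)], [(0, 4), (3, 4), (4, 6), (7, 4)],
      [(0, 2), (3, 2), (4, 4), (7, 2)], [(2, 2), (5, 4), (6, 2), (9, 2)], [(2, 2), (5, 4), (6, 2),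
      (9, 2)], [(8, 2), (11, 4), (12, 2), (15, 2)], [(8, 4), (11, 6), (12, 4), (15, 4)], [(10, 6),
      (13, 4), (14, 4), (17, 4)], [(10, 4), (13, 2), (14, 2), (17, 2)], [(8, 2), (11, 4), (12, 2),
      (15, 2)], [(8, 2), (11, 4), (12, 2), (15, 2)], [(10, 4), (13, 2), (14, 2), (17, 2)], [(10,
      4), (13, 2), (14, 2), (17, 2)], [(1, 2), (16, 2)]]
 []
 .nil

/-- classes `0 1 0 1 2 3 2 3 4`, active pairs `1-2 2-3 5-7 6-7` -/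
def trS9_27 : Tr2 :=
  .lp .none [2, 2, 6, 2, 2, 2, 2, 6, 2] [] [-1, -1, -1, -1, -3, -3, -1, -1, -1, -1, -1, -1, -1, -1,
      -3, -3, -1, -1] 8 5
 [[(1, 2), (16, 2)], [(0, 2), (3, 2), (4, 4), (7, 2)], [(0, 2), (3, 2), (4, 4), (7, 2)], [(2, 2),
      (5, 4), (6, 2), (9, 2)], [(2, 4), (5, 6), (6, 4), (9, 4)], [(0, 4), (3, 4), (4, 6), (7, 4)],
      [(0, 2), (3, 2), (4, 4), (7, 2)], [(2, 2), (5, 4), (6, 2), (9, 2)], [(2, 2), (5, 4), (6, 2),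
      (9, 2)], [(8, 2), (11, 2), (12, 2), (15, 4)], [(8, 2), (11, 2), (12, 2), (15, 4)], [(10, 2),
      (13, 2), (14, 4), (17, 2)], [(10, 2), (13, 2), (14, 4), (17, 2)], [(8, 2), (11, 2), (12, 2),
      (15, 4)], [(8, 4), (11, 4), (12, 4), (15, 6)], [(10, 4), (13, 4), (14, 6), (17, 4)], [(10,
      2), (13, 2), (14, 4), (17, 2)], [(1, 2), (16, 2)]]
 []
 .nil

/-- classes `0 1 0 1 2 3 2 3 4`, active pairs `1-2 2-3 6-7` -/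
def trS9_28 : Tr2 :=
  .lp .none [2, 2, 6, 2, 2, 2, 6, 2, 2] [] [-1, -1, -1, -1, -3, -3, -1, -1, -1, -1, -1, -1, -3, -3,
      -1, -1, -1, -1] 8 5
 [[(1, 2), (16, 2)], [(0, 2), (3, 2), (4, 4), (7, 2)], [(0, 2), (3, 2), (4, 4), (7, 2)], [(2, 2),
      (5, 4), (6, 2), (9, 2)], [(2, 4), (5, 6), (6, 4), (9, 4)], [(0, 4), (3, 4), (4, 6), (7, 4)],
      [(0, 2), (3, 2), (4, 4), (7, 2)], [(2, 2), (5, 4), (6, 2), (9, 2)], [(2, 2), (5, 4), (6, 2),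
      (9, 2)], [(8, 2), (11, 2), (12, 4), (15, 2)], [(8, 2), (11, 2), (12, 4), (15, 2)], [(10, 2),
      (13, 4), (14, 2), (17, 2)], [(10, 4), (13, 6), (14, 4), (17, 4)], [(8, 4), (11, 4), (12, 6),
      (15, 4)], [(8, 2), (11, 2), (12, 4), (15, 2)], [(10, 2), (13, 4), (14, 2), (17, 2)], [(10,
      2), (13, 4), (14, 2), (17, 2)], [(1, 2), (16, 2)]]
 []
 .nil

/-- classes `0 1 0 1 2 3 2 3 4`, active pairs `1-2 5-6` -/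
def trS9_29 : Tr2 :=
  .lp .none [2, 6, 2, 2, 2, 2, 6, 2, 2] [] [-1, -1, -3, -3, -1, -1, -1, -1, -1, -1, -1, -1, -3, -3,
      -1, -1, -1, -1] 8 5
 [[(1, 2), (16, 2)], [(0, 2), (3, 4), (4, 2), (7, 2)], [(0, 4), (3, 6), (4, 4), (7, 4)], [(2, 6),
      (5, 4), (6, 4), (9, 4)], [(2, 4), (5, 2), (6, 2), (9, 2)], [(0, 2), (3, 4), (4, 2), (7, 2)],
      [(0, 2), (3, 4), (4, 2), (7, 2)], [(2, 4), (5, 2), (6, 2), (9, 2)], [(2, 4), (5, 2), (6, 2),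
      (9, 2)], [(8, 2), (11, 2), (12, 4), (15, 2)], [(8, 2), (11, 2), (12, 4), (15, 2)], [(10, 2),
      (13, 4), (14, 2), (17, 2)], [(10, 4), (13, 6), (14, 4), (17, 4)], [(8, 4), (11, 4), (12, 6),
      (15, 4)], [(8, 2), (11, 2), (12, 4), (15, 2)], [(10, 2), (13, 4), (14, 2), (17, 2)], [(10,
      2), (13, 4), (14, 2), (17, 2)], [(1, 2), (16, 2)]]
 []
 .nil

/-- classes `0 1 0 1 2 3 2 3 4`, active pairs `1-2 5-6 5-7` -/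
def trS9_30 : Tr2 :=
  .lp .none [2, 6, 2, 2, 2, 6, 2, 2, 2] [] [-1, -1, -3, -3, -1, -1, -1, -1, -1, -1, -3, -3, -1, -1,
      -1, -1, -1, -1] 8 5
 [[(1, 2), (16, 2)], [(0, 2), (3, 4), (4, 2), (7, 2)], [(0, 4), (3, 6), (4, 4), (7, 4)], [(2, 6),
      (5, 4), (6, 4), (9, 4)], [(2, 4), (5, 2), (6, 2), (9, 2)], [(0, 2), (3, 4), (4, 2), (7, 2)],
      [(0, 2), (3, 4), (4, 2), (7, 2)], [(2, 4), (5, 2), (6, 2), (9, 2)], [(2, 4), (5, 2), (6, 2),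
      (9, 2)], [(8, 2), (11, 4), (12, 2), (15, 2)], [(8, 4), (11, 6), (12, 4), (15, 4)], [(10, 6),
      (13, 4), (14, 4), (17, 4)], [(10, 4), (13, 2), (14, 2), (17, 2)], [(8, 2), (11, 4), (12, 2),
      (15, 2)], [(8, 2), (11, 4), (12, 2), (15, 2)], [(10, 4), (13, 2), (14, 2), (17, 2)], [(10,
      4), (13, 2), (14, 2), (17, 2)], [(1, 2), (16, 2)]]
 []
 .nil

/-- classes `0 1 0 1 2 3 2 3 4`, active pairs `1-2 5-6 6-7` -/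
def trS9_31 : Tr2 :=
  .lp .none [2, 6, 2, 2, 2, 2, 6, 2, 2] [] [-1, -1, -3, -3, -1, -1, -1, -1, -1, -1, -1, -1, -3, -3,
      -1, -1, -1, -1] 8 5
 [[(1, 2), (16, 2)], [(0, 2), (3, 4), (4, 2), (7, 2)], [(0, 4), (3, 6), (4, 4), (7, 4)], [(2, 6),
      (5, 4), (6, 4), (9, 4)], [(2, 4), (5, 2), (6, 2), (9, 2)], [(0, 2), (3, 4), (4, 2), (7, 2)],
      [(0, 2), (3, 4), (4, 2), (7, 2)], [(2, 4), (5, 2), (6, 2), (9, 2)], [(2, 4), (5, 2), (6, 2),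
      (9, 2)], [(8, 2), (11, 2), (12, 4), (15, 2)], [(8, 2), (11, 2), (12, 4), (15, 2)], [(10, 2),
      (13, 4), (14, 2), (17, 2)], [(10, 4), (13, 6), (14, 4), (17, 4)], [(8, 4), (11, 4), (12, 6),
      (15, 4)], [(8, 2), (11, 2), (12, 4), (15, 2)], [(10, 2), (13, 4), (14, 2), (17, 2)], [(10,
      2), (13, 4), (14, 2), (17, 2)], [(1, 2), (16, 2)]]
 []
 .nil

/-- classes `0 1 0 1 2 3 2 3 4`, active pairs `1-2 5-7` -/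
def trS9_32 : Tr2 :=
  .lp .none [2, 6, 2, 2, 2, 6, 2, 2, 2] [] [-1, -1, -3, -3, -1, -1, -1, -1, -1, -1, -3, -3, -1, -1,
      -1, -1, -1, -1] 8 5
 [[(1, 2), (16, 2)], [(0, 2), (3, 4), (4, 2), (7, 2)], [(0, 4), (3, 6), (4, 4), (7, 4)], [(2, 6),
      (5, 4), (6, 4), (9, 4)], [(2, 4), (5, 2), (6, 2), (9, 2)], [(0, 2), (3, 4), (4, 2), (7, 2)],
      [(0, 2), (3, 4), (4, 2), (7, 2)], [(2, 4), (5, 2), (6, 2), (9, 2)], [(2, 4), (5, 2), (6, 2),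
      (9, 2)], [(8, 2), (11, 4), (12, 2), (15, 2)], [(8, 4), (11, 6), (12, 4), (15, 4)], [(10, 6),
      (13, 4), (14, 4), (17, 4)], [(10, 4), (13, 2), (14, 2), (17, 2)], [(8, 2), (11, 4), (12, 2),
      (15, 2)], [(8, 2), (11, 4), (12, 2), (15, 2)], [(10, 4), (13, 2), (14, 2), (17, 2)], [(10,
      4), (13, 2), (14, 2), (17, 2)], [(1, 2), (16, 2)]]
 []
 .nil

/-- classes `0 1 0 1 2 3 2 3 4`, active pairs `1-2 5-7 6-7` -/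
def trS9_33 : Tr2 :=
  .lp .none [2, 6, 2, 2, 2, 2, 2, 6, 2] [] [-1, -1, -3, -3, -1, -1, -1, -1, -1, -1, -1, -1, -1, -1,
      -3, -3, -1, -1] 8 5
 [[(1, 2), (16, 2)], [(0, 2), (3, 4), (4, 2), (7, 2)], [(0, 4), (3, 6), (4, 4), (7, 4)], [(2, 6),
      (5, 4), (6, 4), (9, 4)], [(2, 4), (5, 2), (6, 2), (9, 2)], [(0, 2), (3, 4), (4, 2), (7, 2)],
      [(0, 2), (3, 4), (4, 2), (7, 2)], [(2, 4), (5, 2), (6, 2), (9, 2)], [(2, 4), (5, 2), (6, 2),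
      (9, 2)], [(8, 2), (11, 2), (12, 2), (15, 4)], [(8, 2), (11, 2), (12, 2), (15, 4)], [(10, 2),
      (13, 2), (14, 4), (17, 2)], [(10, 2), (13, 2), (14, 4), (17, 2)], [(8, 2), (11, 2), (12, 2),
      (15, 4)], [(8, 4), (11, 4), (12, 4), (15, 6)], [(10, 4), (13, 4), (14, 6), (17, 4)], [(10,
      2), (13, 2), (14, 4), (17, 2)], [(1, 2), (16, 2)]]
 []
 .nil

/-- classes `0 1 0 1 2 3 2 3 4`, active pairs `1-2 6-7` -/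
def trS9_34 : Tr2 :=
  .lp .none [2, 6, 2, 2, 2, 2, 6, 2, 2] [] [-1, -1, -3, -3, -1, -1, -1, -1, -1, -1, -1, -1, -3, -3,
      -1, -1, -1, -1] 8 5
 [[(1, 2), (16, 2)], [(0, 2), (3, 4), (4, 2), (7, 2)], [(0, 4), (3, 6), (4, 4), (7, 4)], [(2, 6),
      (5, 4), (6, 4), (9, 4)], [(2, 4), (5, 2), (6, 2), (9, 2)], [(0, 2), (3, 4), (4, 2), (7, 2)],
      [(0, 2), (3, 4), (4, 2), (7, 2)], [(2, 4), (5, 2), (6, 2), (9, 2)], [(2, 4), (5, 2), (6, 2),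
      (9, 2)], [(8, 2), (11, 2), (12, 4), (15, 2)], [(8, 2), (11, 2), (12, 4), (15, 2)], [(10, 2),
      (13, 4), (14, 2), (17, 2)], [(10, 4), (13, 6), (14, 4), (17, 4)], [(8, 4), (11, 4), (12, 6),
      (15, 4)], [(8, 2), (11, 2), (12, 4), (15, 2)], [(10, 2), (13, 4), (14, 2), (17, 2)], [(10,
      2), (13, 4), (14, 2), (17, 2)], [(1, 2), (16, 2)]]
 []
 .nil

/-- classes `0 1 0 1 2 3 2 3 4`, active pairs `1-3 2-3 5-6` -/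
def trS9_35 : Tr2 :=
  .lp .none [2, 2, 2, 6, 2, 2, 6, 2, 2] [] [-1, -1, -1, -1, -1, -1, -3, -3, -1, -1, -1, -1, -3, -3,
      -1, -1, -1, -1] 8 5
 [[(1, 2), (16, 2)], [(0, 2), (3, 2), (4, 2), (7, 4)], [(0, 2), (3, 2), (4, 2), (7, 4)], [(2, 2),
      (5, 2), (6, 4), (9, 2)], [(2, 2), (5, 2), (6, 4), (9, 2)], [(0, 2), (3, 2), (4, 2), (7, 4)],
      [(0, 4), (3, 4), (4, 4), (7, 6)], [(2, 4), (5, 4), (6, 6), (9, 4)], [(2, 2), (5, 2), (6, 4),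
      (9, 2)], [(8, 2), (11, 2), (12, 4), (15, 2)], [(8, 2), (11, 2), (12, 4), (15, 2)], [(10, 2),
      (13, 4), (14, 2), (17, 2)], [(10, 4), (13, 6), (14, 4), (17, 4)], [(8, 4), (11, 4), (12, 6),
      (15, 4)], [(8, 2), (11, 2), (12, 4), (15, 2)], [(10, 2), (13, 4), (14, 2), (17, 2)], [(10,
      2), (13, 4), (14, 2), (17, 2)], [(1, 2), (16, 2)]]
 []
 .nil

/-- classes `0 1 0 1 2 3 2 3 4`, active pairs `1-3 2-3 5-6 5-7` -/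
def trS9_36 : Tr2 :=
  .lp .none [2, 2, 2, 6, 2, 6, 2, 2, 2] [] [-1, -1, -1, -1, -1, -1, -3, -3, -1, -1, -3, -3, -1, -1,
      -1, -1, -1, -1] 8 5
 [[(1, 2), (16, 2)], [(0, 2), (3, 2), (4, 2), (7, 4)], [(0, 2), (3, 2), (4, 2), (7, 4)], [(2, 2),
      (5, 2), (6, 4), (9, 2)], [(2, 2), (5, 2), (6, 4), (9, 2)], [(0, 2), (3, 2), (4, 2), (7, 4)],
      [(0, 4), (3, 4), (4, 4), (7, 6)], [(2, 4), (5, 4), (6, 6), (9, 4)], [(2, 2), (5, 2), (6, 4),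
      (9, 2)], [(8, 2), (11, 4), (12, 2), (15, 2)], [(8, 4), (11, 6), (12, 4), (15, 4)], [(10, 6),
      (13, 4), (14, 4), (17, 4)], [(10, 4), (13, 2), (14, 2), (17, 2)], [(8, 2), (11, 4), (12, 2),
      (15, 2)], [(8, 2), (11, 4), (12, 2), (15, 2)], [(10, 4), (13, 2), (14, 2), (17, 2)], [(10,
      4), (13, 2), (14, 2), (17, 2)], [(1, 2), (16, 2)]]
 []
 .nil

/-- classes `0 1 0 1 2 3 2 3 4`, active pairs `1-3 2-3 5-6 6-7` -/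
def trS9_37 : Tr2 :=
  .lp .none [2, 2, 2, 6, 2, 2, 6, 2, 2] [] [-1, -1, -1, -1, -1, -1, -3, -3, -1, -1, -1, -1, -3, -3,
      -1, -1, -1, -1] 8 5
 [[(1, 2), (16, 2)], [(0, 2), (3, 2), (4, 2), (7, 4)], [(0, 2), (3, 2), (4, 2), (7, 4)], [(2, 2),
      (5, 2), (6, 4), (9, 2)], [(2, 2), (5, 2), (6, 4), (9, 2)], [(0, 2), (3, 2), (4, 2), (7, 4)],
      [(0, 4), (3, 4), (4, 4), (7, 6)], [(2, 4), (5, 4), (6, 6), (9, 4)], [(2, 2), (5, 2), (6, 4),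
      (9, 2)], [(8, 2), (11, 2), (12, 4), (15, 2)], [(8, 2), (11, 2), (12, 4), (15, 2)], [(10, 2),
      (13, 4), (14, 2), (17, 2)], [(10, 4), (13, 6), (14, 4), (17, 4)], [(8, 4), (11, 4), (12, 6),
      (15, 4)], [(8, 2), (11, 2), (12, 4), (15, 2)], [(10, 2), (13, 4), (14, 2), (17, 2)], [(10,
      2), (13, 4), (14, 2), (17, 2)], [(1, 2), (16, 2)]]
 []
 .nil

/-- classes `0 1 0 1 2 3 2 3 4`, active pairs `1-3 2-3 5-7` -/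
def trS9_38 : Tr2 :=
  .lp .none [2, 2, 2, 6, 2, 6, 2, 2, 2] [] [-1, -1, -1, -1, -1, -1, -3, -3, -1, -1, -3, -3, -1, -1,
      -1, -1, -1, -1] 8 5
 [[(1, 2), (16, 2)], [(0, 2), (3, 2), (4, 2), (7, 4)], [(0, 2), (3, 2), (4, 2), (7, 4)], [(2, 2),
      (5, 2), (6, 4), (9, 2)], [(2, 2), (5, 2), (6, 4), (9, 2)], [(0, 2), (3, 2), (4, 2), (7, 4)],
      [(0, 4), (3, 4), (4, 4), (7, 6)], [(2, 4), (5, 4), (6, 6), (9, 4)], [(2, 2), (5, 2), (6, 4),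
      (9, 2)], [(8, 2), (11, 4), (12, 2), (15, 2)], [(8, 4), (11, 6), (12, 4), (15, 4)], [(10, 6),
      (13, 4), (14, 4), (17, 4)], [(10, 4), (13, 2), (14, 2), (17, 2)], [(8, 2), (11, 4), (12, 2),
      (15, 2)], [(8, 2), (11, 4), (12, 2), (15, 2)], [(10, 4), (13, 2), (14, 2), (17, 2)], [(10,
      4), (13, 2), (14, 2), (17, 2)], [(1, 2), (16, 2)]]
 []
 .nil

/-- classes `0 1 0 1 2 3 2 3 4`, active pairs `1-3 2-3 5-7 6-7` -/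
def trS9_39 : Tr2 :=
  .lp .none [2, 2, 2, 6, 2, 2, 2, 6, 2] [] [-1, -1, -1, -1, -1, -1, -3, -3, -1, -1, -1, -1, -1, -1,
      -3, -3, -1, -1] 8 5
 [[(1, 2), (16, 2)], [(0, 2), (3, 2), (4, 2), (7, 4)], [(0, 2), (3, 2), (4, 2), (7, 4)], [(2, 2),
      (5, 2), (6, 4), (9, 2)], [(2, 2), (5, 2), (6, 4), (9, 2)], [(0, 2), (3, 2), (4, 2), (7, 4)],
      [(0, 4), (3, 4), (4, 4), (7, 6)], [(2, 4), (5, 4), (6, 6), (9, 4)], [(2, 2), (5, 2), (6, 4),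
      (9, 2)], [(8, 2), (11, 2), (12, 2), (15, 4)], [(8, 2), (11, 2), (12, 2), (15, 4)], [(10, 2),
      (13, 2), (14, 4), (17, 2)], [(10, 2), (13, 2), (14, 4), (17, 2)], [(8, 2), (11, 2), (12, 2),
      (15, 4)], [(8, 4), (11, 4), (12, 4), (15, 6)], [(10, 4), (13, 4), (14, 6), (17, 4)], [(10,
      2), (13, 2), (14, 4), (17, 2)], [(1, 2), (16, 2)]]
 []
 .nil

/-- classes `0 1 0 1 2 3 2 3 4`, active pairs `1-3 2-3 6-7` -/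
def trS9_40 : Tr2 :=
  .lp .none [2, 2, 2, 6, 2, 2, 6, 2, 2] [] [-1, -1, -1, -1, -1, -1, -3, -3, -1, -1, -1, -1, -3, -3,
      -1, -1, -1, -1] 8 5
 [[(1, 2), (16, 2)], [(0, 2), (3, 2), (4, 2), (7, 4)], [(0, 2), (3, 2), (4, 2), (7, 4)], [(2, 2),
      (5, 2), (6, 4), (9, 2)], [(2, 2), (5, 2), (6, 4), (9, 2)], [(0, 2), (3, 2), (4, 2), (7, 4)],
      [(0, 4), (3, 4), (4, 4), (7, 6)], [(2, 4), (5, 4), (6, 6), (9, 4)], [(2, 2), (5, 2), (6, 4),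
      (9, 2)], [(8, 2), (11, 2), (12, 4), (15, 2)], [(8, 2), (11, 2), (12, 4), (15, 2)], [(10, 2),
      (13, 4), (14, 2), (17, 2)], [(10, 4), (13, 6), (14, 4), (17, 4)], [(8, 4), (11, 4), (12, 6),
      (15, 4)], [(8, 2), (11, 2), (12, 4), (15, 2)], [(10, 2), (13, 4), (14, 2), (17, 2)], [(10,
      2), (13, 4), (14, 2), (17, 2)], [(1, 2), (16, 2)]]
 []
 .nil

/-- classes `0 1 0 1 2 3 2 3 4`, active pairs `1-3 5-6` -/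
def trS9_41 : Tr2 :=
  .lp .none [2, 2, 2, 6, 2, 2, 6, 2, 2] [] [-1, -1, -1, -1, -1, -1, -3, -3, -1, -1, -1, -1, -3, -3,
      -1, -1, -1, -1] 8 5
 [[(1, 2), (16, 2)], [(0, 2), (3, 2), (4, 2), (7, 4)], [(0, 2), (3, 2), (4, 2), (7, 4)], [(2, 2),
      (5, 2), (6, 4), (9, 2)], [(2, 2), (5, 2), (6, 4), (9, 2)], [(0, 2), (3, 2), (4, 2), (7, 4)],
      [(0, 4), (3, 4), (4, 4), (7, 6)], [(2, 4), (5, 4), (6, 6), (9, 4)], [(2, 2), (5, 2), (6, 4),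
      (9, 2)], [(8, 2), (11, 2), (12, 4), (15, 2)], [(8, 2), (11, 2), (12, 4), (15, 2)], [(10, 2),
      (13, 4), (14, 2), (17, 2)], [(10, 4), (13, 6), (14, 4), (17, 4)], [(8, 4), (11, 4), (12, 6),
      (15, 4)], [(8, 2), (11, 2), (12, 4), (15, 2)], [(10, 2), (13, 4), (14, 2), (17, 2)], [(10,
      2), (13, 4), (14, 2), (17, 2)], [(1, 2), (16, 2)]]
 []
 .nil

/-- classes `0 1 0 1 2 3 2 3 4`, active pairs `1-3 5-6 5-7` -/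
def trS9_42 : Tr2 :=
  .lp .none [2, 2, 2, 6, 2, 6, 2, 2, 2] [] [-1, -1, -1, -1, -1, -1, -3, -3, -1, -1, -3, -3, -1, -1,
      -1, -1, -1, -1] 8 5
 [[(1, 2), (16, 2)], [(0, 2), (3, 2), (4, 2), (7, 4)], [(0, 2), (3, 2), (4, 2), (7, 4)], [(2, 2),
      (5, 2), (6, 4), (9, 2)], [(2, 2), (5, 2), (6, 4), (9, 2)], [(0, 2), (3, 2), (4, 2), (7, 4)],
      [(0, 4), (3, 4), (4, 4), (7, 6)], [(2, 4), (5, 4), (6, 6), (9, 4)], [(2, 2), (5, 2), (6, 4),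
      (9, 2)], [(8, 2), (11, 4), (12, 2), (15, 2)], [(8, 4), (11, 6), (12, 4), (15, 4)], [(10, 6),
      (13, 4), (14, 4), (17, 4)], [(10, 4), (13, 2), (14, 2), (17, 2)], [(8, 2), (11, 4), (12, 2),
      (15, 2)], [(8, 2), (11, 4), (12, 2), (15, 2)], [(10, 4), (13, 2), (14, 2), (17, 2)], [(10,
      4), (13, 2), (14, 2), (17, 2)], [(1, 2), (16, 2)]]
 []
 .nil

/-- classes `0 1 0 1 2 3 2 3 4`, active pairs `1-3 5-6 6-7` -/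
def trS9_43 : Tr2 :=
  .lp .none [2, 2, 2, 6, 2, 2, 6, 2, 2] [] [-1, -1, -1, -1, -1, -1, -3, -3, -1, -1, -1, -1, -3, -3,
      -1, -1, -1, -1] 8 5
 [[(1, 2), (16, 2)], [(0, 2), (3, 2), (4, 2), (7, 4)], [(0, 2), (3, 2), (4, 2), (7, 4)], [(2, 2),
      (5, 2), (6, 4), (9, 2)], [(2, 2), (5, 2), (6, 4), (9, 2)], [(0, 2), (3, 2), (4, 2), (7, 4)],
      [(0, 4), (3, 4), (4, 4), (7, 6)], [(2, 4), (5, 4), (6, 6), (9, 4)], [(2, 2), (5, 2), (6, 4),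
      (9, 2)], [(8, 2), (11, 2), (12, 4), (15, 2)], [(8, 2), (11, 2), (12, 4), (15, 2)], [(10, 2),
      (13, 4), (14, 2), (17, 2)], [(10, 4), (13, 6), (14, 4), (17, 4)], [(8, 4), (11, 4), (12, 6),
      (15, 4)], [(8, 2), (11, 2), (12, 4), (15, 2)], [(10, 2), (13, 4), (14, 2), (17, 2)], [(10,
      2), (13, 4), (14, 2), (17, 2)], [(1, 2), (16, 2)]]
 []
 .nil

/-- classes `0 1 0 1 2 3 2 3 4`, active pairs `1-3 5-7` -/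
def trS9_44 : Tr2 :=
  .lp .none [2, 2, 2, 6, 2, 6, 2, 2, 2] [] [-1, -1, -1, -1, -1, -1, -3, -3, -1, -1, -3, -3, -1, -1,
      -1, -1, -1, -1] 8 5
 [[(1, 2), (16, 2)], [(0, 2), (3, 2), (4, 2), (7, 4)], [(0, 2), (3, 2), (4, 2), (7, 4)], [(2, 2),
      (5, 2), (6, 4), (9, 2)], [(2, 2), (5, 2), (6, 4), (9, 2)], [(0, 2), (3, 2), (4, 2), (7, 4)],
      [(0, 4), (3, 4), (4, 4), (7, 6)], [(2, 4), (5, 4), (6, 6), (9, 4)], [(2, 2), (5, 2), (6, 4),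
      (9, 2)], [(8, 2), (11, 4), (12, 2), (15, 2)], [(8, 4), (11, 6), (12, 4), (15, 4)], [(10, 6),
      (13, 4), (14, 4), (17, 4)], [(10, 4), (13, 2), (14, 2), (17, 2)], [(8, 2), (11, 4), (12, 2),
      (15, 2)], [(8, 2), (11, 4), (12, 2), (15, 2)], [(10, 4), (13, 2), (14, 2), (17, 2)], [(10,
      4), (13, 2), (14, 2), (17, 2)], [(1, 2), (16, 2)]]
 []
 .nil

/-- classes `0 1 0 1 2 3 2 3 4`, active pairs `1-3 5-7 6-7` -/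
def trS9_45 : Tr2 :=
  .lp .none [2, 2, 2, 6, 2, 2, 2, 6, 2] [] [-1, -1, -1, -1, -1, -1, -3, -3, -1, -1, -1, -1, -1, -1,
      -3, -3, -1, -1] 8 5
 [[(1, 2), (16, 2)], [(0, 2), (3, 2), (4, 2), (7, 4)], [(0, 2), (3, 2), (4, 2), (7, 4)], [(2, 2),
      (5, 2), (6, 4), (9, 2)], [(2, 2), (5, 2), (6, 4), (9, 2)], [(0, 2), (3, 2), (4, 2), (7, 4)],
      [(0, 4), (3, 4), (4, 4), (7, 6)], [(2, 4), (5, 4), (6, 6), (9, 4)], [(2, 2), (5, 2), (6, 4),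
      (9, 2)], [(8, 2), (11, 2), (12, 2), (15, 4)], [(8, 2), (11, 2), (12, 2), (15, 4)], [(10, 2),
      (13, 2), (14, 4), (17, 2)], [(10, 2), (13, 2), (14, 4), (17, 2)], [(8, 2), (11, 2), (12, 2),
      (15, 4)], [(8, 4), (11, 4), (12, 4), (15, 6)], [(10, 4), (13, 4), (14, 6), (17, 4)], [(10,
      2), (13, 2), (14, 4), (17, 2)], [(1, 2), (16, 2)]]
 []
 .nil

/-- classes `0 1 0 1 2 3 2 3 4`, active pairs `1-3 6-7` -/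
def trS9_46 : Tr2 :=
  .lp .none [2, 2, 2, 6, 2, 2, 6, 2, 2] [] [-1, -1, -1, -1, -1, -1, -3, -3, -1, -1, -1, -1, -3, -3,
      -1, -1, -1, -1] 8 5
 [[(1, 2), (16, 2)], [(0, 2), (3, 2), (4, 2), (7, 4)], [(0, 2), (3, 2), (4, 2), (7, 4)], [(2, 2),
      (5, 2), (6, 4), (9, 2)], [(2, 2), (5, 2), (6, 4), (9, 2)], [(0, 2), (3, 2), (4, 2), (7, 4)],
      [(0, 4), (3, 4), (4, 4), (7, 6)], [(2, 4), (5, 4), (6, 6), (9, 4)], [(2, 2), (5, 2), (6, 4),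
      (9, 2)], [(8, 2), (11, 2), (12, 4), (15, 2)], [(8, 2), (11, 2), (12, 4), (15, 2)], [(10, 2),
      (13, 4), (14, 2), (17, 2)], [(10, 4), (13, 6), (14, 4), (17, 4)], [(8, 4), (11, 4), (12, 6),
      (15, 4)], [(8, 2), (11, 2), (12, 4), (15, 2)], [(10, 2), (13, 4), (14, 2), (17, 2)], [(10,
      2), (13, 4), (14, 2), (17, 2)], [(1, 2), (16, 2)]]
 []
 .nil

/-- classes `0 1 0 1 2 3 2 3 4`, active pairs `2-3 5-6` -/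
def trS9_47 : Tr2 :=
  .lp .none [2, 2, 2, 6, 2, 2, 6, 2, 2] [] [-1, -1, -1, -1, -1, -1, -3, -3, -1, -1, -1, -1, -3, -3,
      -1, -1, -1, -1] 8 5
 [[(1, 2), (16, 2)], [(0, 2), (3, 2), (4, 2), (7, 4)], [(0, 2), (3, 2), (4, 2), (7, 4)], [(2, 2),
      (5, 2), (6, 4), (9, 2)], [(2, 2), (5, 2), (6, 4), (9, 2)], [(0, 2), (3, 2), (4, 2), (7, 4)],
      [(0, 4), (3, 4), (4, 4), (7, 6)], [(2, 4), (5, 4), (6, 6), (9, 4)], [(2, 2), (5, 2), (6, 4),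
      (9, 2)], [(8, 2), (11, 2), (12, 4), (15, 2)], [(8, 2), (11, 2), (12, 4), (15, 2)], [(10, 2),
      (13, 4), (14, 2), (17, 2)], [(10, 4), (13, 6), (14, 4), (17, 4)], [(8, 4), (11, 4), (12, 6),
      (15, 4)], [(8, 2), (11, 2), (12, 4), (15, 2)], [(10, 2), (13, 4), (14, 2), (17, 2)], [(10,
      2), (13, 4), (14, 2), (17, 2)], [(1, 2), (16, 2)]]
 []
 .nil

/-- classes `0 1 0 1 2 3 2 3 4`, active pairs `2-3 5-6 5-7` -/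
def trS9_48 : Tr2 :=
  .lp .none [2, 2, 2, 6, 2, 6, 2, 2, 2] [] [-1, -1, -1, -1, -1, -1, -3, -3, -1, -1, -3, -3, -1, -1,
      -1, -1, -1, -1] 8 5
 [[(1, 2), (16, 2)], [(0, 2), (3, 2), (4, 2), (7, 4)], [(0, 2), (3, 2), (4, 2), (7, 4)], [(2, 2),
      (5, 2), (6, 4), (9, 2)], [(2, 2), (5, 2), (6, 4), (9, 2)], [(0, 2), (3, 2), (4, 2), (7, 4)],
      [(0, 4), (3, 4), (4, 4), (7, 6)], [(2, 4), (5, 4), (6, 6), (9, 4)], [(2, 2), (5, 2), (6, 4),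
      (9, 2)], [(8, 2), (11, 4), (12, 2), (15, 2)], [(8, 4), (11, 6), (12, 4), (15, 4)], [(10, 6),
      (13, 4), (14, 4), (17, 4)], [(10, 4), (13, 2), (14, 2), (17, 2)], [(8, 2), (11, 4), (12, 2),
      (15, 2)], [(8, 2), (11, 4), (12, 2), (15, 2)], [(10, 4), (13, 2), (14, 2), (17, 2)], [(10,
      4), (13, 2), (14, 2), (17, 2)], [(1, 2), (16, 2)]]
 []
 .nil

/-- classes `0 1 0 1 2 3 2 3 4`, active pairs `2-3 5-6 6-7` -/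
def trS9_49 : Tr2 :=
  .lp .none [2, 2, 2, 6, 2, 2, 6, 2, 2] [] [-1, -1, -1, -1, -1, -1, -3, -3, -1, -1, -1, -1, -3, -3,
      -1, -1, -1, -1] 8 5
 [[(1, 2), (16, 2)], [(0, 2), (3, 2), (4, 2), (7, 4)], [(0, 2), (3, 2), (4, 2), (7, 4)], [(2, 2),
      (5, 2), (6, 4), (9, 2)], [(2, 2), (5, 2), (6, 4), (9, 2)], [(0, 2), (3, 2), (4, 2), (7, 4)],
      [(0, 4), (3, 4), (4, 4), (7, 6)], [(2, 4), (5, 4), (6, 6), (9, 4)], [(2, 2), (5, 2), (6, 4),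
      (9, 2)], [(8, 2), (11, 2), (12, 4), (15, 2)], [(8, 2), (11, 2), (12, 4), (15, 2)], [(10, 2),
      (13, 4), (14, 2), (17, 2)], [(10, 4), (13, 6), (14, 4), (17, 4)], [(8, 4), (11, 4), (12, 6),
      (15, 4)], [(8, 2), (11, 2), (12, 4), (15, 2)], [(10, 2), (13, 4), (14, 2), (17, 2)], [(10,
      2), (13, 4), (14, 2), (17, 2)], [(1, 2), (16, 2)]]
 []
 .nil

/-- classes `0 1 0 1 2 3 2 3 4`, active pairs `2-3 5-7` -/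
def trS9_50 : Tr2 :=
  .lp .none [2, 2, 2, 6, 2, 6, 2, 2, 2] [] [-1, -1, -1, -1, -1, -1, -3, -3, -1, -1, -3, -3, -1, -1,
      -1, -1, -1, -1] 8 5
 [[(1, 2), (16, 2)], [(0, 2), (3, 2), (4, 2), (7, 4)], [(0, 2), (3, 2), (4, 2), (7, 4)], [(2, 2),
      (5, 2), (6, 4), (9, 2)], [(2, 2), (5, 2), (6, 4), (9, 2)], [(0, 2), (3, 2), (4, 2), (7, 4)],
      [(0, 4), (3, 4), (4, 4), (7, 6)], [(2, 4), (5, 4), (6, 6), (9, 4)], [(2, 2), (5, 2), (6, 4),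
      (9, 2)], [(8, 2), (11, 4), (12, 2), (15, 2)], [(8, 4), (11, 6), (12, 4), (15, 4)], [(10, 6),
      (13, 4), (14, 4), (17, 4)], [(10, 4), (13, 2), (14, 2), (17, 2)], [(8, 2), (11, 4), (12, 2),
      (15, 2)], [(8, 2), (11, 4), (12, 2), (15, 2)], [(10, 4), (13, 2), (14, 2), (17, 2)], [(10,
      4), (13, 2), (14, 2), (17, 2)], [(1, 2), (16, 2)]]
 []
 .nil

/-- classes `0 1 0 1 2 3 2 3 4`, active pairs `2-3 5-7 6-7` -/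
def trS9_51 : Tr2 :=
  .lp .none [2, 2, 2, 6, 2, 2, 2, 6, 2] [] [-1, -1, -1, -1, -1, -1, -3, -3, -1, -1, -1, -1, -1, -1,
      -3, -3, -1, -1] 8 5
 [[(1, 2), (16, 2)], [(0, 2), (3, 2), (4, 2), (7, 4)], [(0, 2), (3, 2), (4, 2), (7, 4)], [(2, 2),
      (5, 2), (6, 4), (9, 2)], [(2, 2), (5, 2), (6, 4), (9, 2)], [(0, 2), (3, 2), (4, 2), (7, 4)],
      [(0, 4), (3, 4), (4, 4), (7, 6)], [(2, 4), (5, 4), (6, 6), (9, 4)], [(2, 2), (5, 2), (6, 4),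
      (9, 2)], [(8, 2), (11, 2), (12, 2), (15, 4)], [(8, 2), (11, 2), (12, 2), (15, 4)], [(10, 2),
      (13, 2), (14, 4), (17, 2)], [(10, 2), (13, 2), (14, 4), (17, 2)], [(8, 2), (11, 2), (12, 2),
      (15, 4)], [(8, 4), (11, 4), (12, 4), (15, 6)], [(10, 4), (13, 4), (14, 6), (17, 4)], [(10,
      2), (13, 2), (14, 4), (17, 2)], [(1, 2), (16, 2)]]
 []
 .nil

/-- classes `0 1 0 1 2 3 2 3 4`, active pairs `2-3 6-7` -/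
def trS9_52 : Tr2 :=
  .lp .none [2, 2, 2, 6, 2, 2, 6, 2, 2] [] [-1, -1, -1, -1, -1, -1, -3, -3, -1, -1, -1, -1, -3, -3,
      -1, -1, -1, -1] 8 5
 [[(1, 2), (16, 2)], [(0, 2), (3, 2), (4, 2), (7, 4)], [(0, 2), (3, 2), (4, 2), (7, 4)], [(2, 2),
      (5, 2), (6, 4), (9, 2)], [(2, 2), (5, 2), (6, 4), (9, 2)], [(0, 2), (3, 2), (4, 2), (7, 4)],
      [(0, 4), (3, 4), (4, 4), (7, 6)], [(2, 4), (5, 4), (6, 6), (9, 4)], [(2, 2), (5, 2), (6, 4),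
      (9, 2)], [(8, 2), (11, 2), (12, 4), (15, 2)], [(8, 2), (11, 2), (12, 4), (15, 2)], [(10, 2),
      (13, 4), (14, 2), (17, 2)], [(10, 4), (13, 6), (14, 4), (17, 4)], [(8, 4), (11, 4), (12, 6),
      (15, 4)], [(8, 2), (11, 2), (12, 4), (15, 2)], [(10, 2), (13, 4), (14, 2), (17, 2)], [(10,
      2), (13, 4), (14, 2), (17, 2)], [(1, 2), (16, 2)]]
 []
 .nil

/-- classes `0 1 0 1 2 3 2 4 3`, active pairs `1-2 1-3 5-6` -/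
def trS9_53 : Tr2 :=
  .lp .none [2, 6, 2, 2, 2, 4, 4, 2, 2] [] [-1, -1, -3, -3, -1, -1, -1, -1, -1, -1, -2, -2, -2, -2,
      -1, -1, -1, -1] 8 5
 [[(1, 2), (10, 3), (13, 3), (16, 2)], [(0, 2), (3, 4), (4, 2), (7, 2)], [(0, 4), (3, 6), (4, 4),
      (7, 4)], [(2, 6), (5, 4), (6, 4), (9, 4)], [(2, 4), (5, 2), (6, 2), (9, 2)], [(0, 2), (3, 4),
      (4, 2), (7, 2)], [(0, 2), (3, 4), (4, 2), (7, 2)], [(2, 4), (5, 2), (6, 2), (9, 2)], [(2, 4),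
      (5, 2), (6, 2), (9, 2)], [(8, 2), (11, 3), (12, 3), (15, 2)], [(8, 3), (11, 4), (12, 4), (15,
      3)], [(1, 3), (10, 4), (13, 4), (16, 3)], [(1, 3), (10, 4), (13, 4), (16, 3)], [(8, 3), (11,
      4), (12, 4), (15, 3)], [(8, 2), (11, 3), (12, 3), (15, 2)], [(14, 2), (17, 2)], [(14, 2),
      (17, 2)], [(1, 2), (10, 3), (13, 3), (16, 2)]]
 []
 .nil

/-- classes `0 1 0 1 2 3 2 4 3`, active pairs `1-2 2-3 5-6` -/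
def trS9_54 : Tr2 :=
  .lp .none [2, 2, 6, 2, 2, 4, 4, 2, 2] [] [-1, -1, -1, -1, -3, -3, -1, -1, -1, -1, -2, -2, -2, -2,
      -1, -1, -1, -1] 8 5
 [[(1, 2), (10, 3), (13, 3), (16, 2)], [(0, 2), (3, 2), (4, 4), (7, 2)], [(0, 2), (3, 2), (4, 4),
      (7, 2)], [(2, 2), (5, 4), (6, 2), (9, 2)], [(2, 4), (5, 6), (6, 4), (9, 4)], [(0, 4), (3, 4),
      (4, 6), (7, 4)], [(0, 2), (3, 2), (4, 4), (7, 2)], [(2, 2), (5, 4), (6, 2), (9, 2)], [(2, 2),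
      (5, 4), (6, 2), (9, 2)], [(8, 2), (11, 3), (12, 3), (15, 2)], [(8, 3), (11, 4), (12, 4), (15,
      3)], [(1, 3), (10, 4), (13, 4), (16, 3)], [(1, 3), (10, 4), (13, 4), (16, 3)], [(8, 3), (11,
      4), (12, 4), (15, 3)], [(8, 2), (11, 3), (12, 3), (15, 2)], [(14, 2), (17, 2)], [(14, 2),
      (17, 2)], [(1, 2), (10, 3), (13, 3), (16, 2)]]
 []
 .nil

/-- classes `0 1 0 1 2 3 2 4 3`, active pairs `1-2 5-6` -/
def trS9_55 : Tr2 :=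
  .lp .none [2, 6, 2, 2, 2, 4, 4, 2, 2] [] [-1, -1, -3, -3, -1, -1, -1, -1, -1, -1, -2, -2, -2, -2,
      -1, -1, -1, -1] 8 5
 [[(1, 2), (10, 3), (13, 3), (16, 2)], [(0, 2), (3, 4), (4, 2), (7, 2)], [(0, 4), (3, 6), (4, 4),
      (7, 4)], [(2, 6), (5, 4), (6, 4), (9, 4)], [(2, 4), (5, 2), (6, 2), (9, 2)], [(0, 2), (3, 4),
      (4, 2), (7, 2)], [(0, 2), (3, 4), (4, 2), (7, 2)], [(2, 4), (5, 2), (6, 2), (9, 2)], [(2, 4),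
      (5, 2), (6, 2), (9, 2)], [(8, 2), (11, 3), (12, 3), (15, 2)], [(8, 3), (11, 4), (12, 4), (15,
      3)], [(1, 3), (10, 4), (13, 4), (16, 3)], [(1, 3), (10, 4), (13, 4), (16, 3)], [(8, 3), (11,
      4), (12, 4), (15, 3)], [(8, 2), (11, 3), (12, 3), (15, 2)], [(14, 2), (17, 2)], [(14, 2),
      (17, 2)], [(1, 2), (10, 3), (13, 3), (16, 2)]]
 []
 .nil

/-- classes `0 1 0 1 2 3 2 4 3`, active pairs `1-3 2-3 5-6` -/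
def trS9_56 : Tr2 :=
  .lp .none [2, 2, 2, 6, 2, 4, 4, 2, 2] [] [-1, -1, -1, -1, -1, -1, -3, -3, -1, -1, -2, -2, -2, -2,
      -1, -1, -1, -1] 8 5
 [[(1, 2), (10, 3), (13, 3), (16, 2)], [(0, 2), (3, 2), (4, 2), (7, 4)], [(0, 2), (3, 2), (4, 2),
      (7, 4)], [(2, 2), (5, 2), (6, 4), (9, 2)], [(2, 2), (5, 2), (6, 4), (9, 2)], [(0, 2), (3, 2),
      (4, 2), (7, 4)], [(0, 4), (3, 4), (4, 4), (7, 6)], [(2, 4), (5, 4), (6, 6), (9, 4)], [(2, 2),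
      (5, 2), (6, 4), (9, 2)], [(8, 2), (11, 3), (12, 3), (15, 2)], [(8, 3), (11, 4), (12, 4), (15,
      3)], [(1, 3), (10, 4), (13, 4), (16, 3)], [(1, 3), (10, 4), (13, 4), (16, 3)], [(8, 3), (11,
      4), (12, 4), (15, 3)], [(8, 2), (11, 3), (12, 3), (15, 2)], [(14, 2), (17, 2)], [(14, 2),
      (17, 2)], [(1, 2), (10, 3), (13, 3), (16, 2)]]
 []
 .nil

/-- classes `0 1 0 1 2 3 2 4 3`, active pairs `1-3 5-6` -/
def trS9_57 : Tr2 :=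
  .lp .none [2, 2, 2, 6, 2, 4, 4, 2, 2] [] [-1, -1, -1, -1, -1, -1, -3, -3, -1, -1, -2, -2, -2, -2,
      -1, -1, -1, -1] 8 5
 [[(1, 2), (10, 3), (13, 3), (16, 2)], [(0, 2), (3, 2), (4, 2), (7, 4)], [(0, 2), (3, 2), (4, 2),
      (7, 4)], [(2, 2), (5, 2), (6, 4), (9, 2)], [(2, 2), (5, 2), (6, 4), (9, 2)], [(0, 2), (3, 2),
      (4, 2), (7, 4)], [(0, 4), (3, 4), (4, 4), (7, 6)], [(2, 4), (5, 4), (6, 6), (9, 4)], [(2, 2),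
      (5, 2), (6, 4), (9, 2)], [(8, 2), (11, 3), (12, 3), (15, 2)], [(8, 3), (11, 4), (12, 4), (15,
      3)], [(1, 3), (10, 4), (13, 4), (16, 3)], [(1, 3), (10, 4), (13, 4), (16, 3)], [(8, 3), (11,
      4), (12, 4), (15, 3)], [(8, 2), (11, 3), (12, 3), (15, 2)], [(14, 2), (17, 2)], [(14, 2),
      (17, 2)], [(1, 2), (10, 3), (13, 3), (16, 2)]]
 []
 .nil

/-- classes `0 1 0 1 2 3 2 4 3`, active pairs `2-3 5-6` -/
def trS9_58 : Tr2 :=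
  .lp .none [2, 2, 2, 6, 2, 4, 4, 2, 2] [] [-1, -1, -1, -1, -1, -1, -3, -3, -1, -1, -2, -2, -2, -2,
      -1, -1, -1, -1] 8 5
 [[(1, 2), (10, 3), (13, 3), (16, 2)], [(0, 2), (3, 2), (4, 2), (7, 4)], [(0, 2), (3, 2), (4, 2),
      (7, 4)], [(2, 2), (5, 2), (6, 4), (9, 2)], [(2, 2), (5, 2), (6, 4), (9, 2)], [(0, 2), (3, 2),
      (4, 2), (7, 4)], [(0, 4), (3, 4), (4, 4), (7, 6)], [(2, 4), (5, 4), (6, 6), (9, 4)], [(2, 2),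
      (5, 2), (6, 4), (9, 2)], [(8, 2), (11, 3), (12, 3), (15, 2)], [(8, 3), (11, 4), (12, 4), (15,
      3)], [(1, 3), (10, 4), (13, 4), (16, 3)], [(1, 3), (10, 4), (13, 4), (16, 3)], [(8, 3), (11,
      4), (12, 4), (15, 3)], [(8, 2), (11, 3), (12, 3), (15, 2)], [(14, 2), (17, 2)], [(14, 2),
      (17, 2)], [(1, 2), (10, 3), (13, 3), (16, 2)]]
 []
 .nil

/-- classes `0 1 0 1 2 3 4 2 3`, active pairs `1-2 1-3 5-8` -/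
def trS9_59 : Tr2 :=
  .lp .none [2, 6, 2, 2, 2, 4, 2, 2, 4] [] [-1, -1, -3, -3, -1, -1, -1, -1, -1, -1, -2, -2, -1, -1,
      -1, -1, -2, -2] 8 5
 [[(1, 2), (10, 3), (13, 2), (16, 3)], [(0, 2), (3, 4), (4, 2), (7, 2)], [(0, 4), (3, 6), (4, 4),
      (7, 4)], [(2, 6), (5, 4), (6, 4), (9, 4)], [(2, 4), (5, 2), (6, 2), (9, 2)], [(0, 2), (3, 4),
      (4, 2), (7, 2)], [(0, 2), (3, 4), (4, 2), (7, 2)], [(2, 4), (5, 2), (6, 2), (9, 2)], [(2, 4),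
      (5, 2), (6, 2), (9, 2)], [(8, 2), (11, 3), (14, 2), (17, 3)], [(8, 3), (11, 4), (14, 3), (17,
      4)], [(1, 3), (10, 4), (13, 3), (16, 4)], [(1, 2), (10, 3), (13, 2), (16, 3)], [(12, 2), (15,
      2)], [(12, 2), (15, 2)], [(8, 2), (11, 3), (14, 2), (17, 3)], [(8, 3), (11, 4), (14, 3), (17,
      4)], [(1, 3), (10, 4), (13, 3), (16, 4)]]
 []
 .nil

/-- classes `0 1 0 1 2 3 4 2 3`, active pairs `1-2 2-3 5-8` -/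
def trS9_60 : Tr2 :=
  .lp .none [2, 2, 6, 2, 2, 4, 2, 2, 4] [] [-1, -1, -1, -1, -3, -3, -1, -1, -1, -1, -2, -2, -1, -1,
      -1, -1, -2, -2] 8 5
 [[(1, 2), (10, 3), (13, 2), (16, 3)], [(0, 2), (3, 2), (4, 4), (7, 2)], [(0, 2), (3, 2), (4, 4),
      (7, 2)], [(2, 2), (5, 4), (6, 2), (9, 2)], [(2, 4), (5, 6), (6, 4), (9, 4)], [(0, 4), (3, 4),
      (4, 6), (7, 4)], [(0, 2), (3, 2), (4, 4), (7, 2)], [(2, 2), (5, 4), (6, 2), (9, 2)], [(2, 2),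
      (5, 4), (6, 2), (9, 2)], [(8, 2), (11, 3), (14, 2), (17, 3)], [(8, 3), (11, 4), (14, 3), (17,
      4)], [(1, 3), (10, 4), (13, 3), (16, 4)], [(1, 2), (10, 3), (13, 2), (16, 3)], [(12, 2), (15,
      2)], [(12, 2), (15, 2)], [(8, 2), (11, 3), (14, 2), (17, 3)], [(8, 3), (11, 4), (14, 3), (17,
      4)], [(1, 3), (10, 4), (13, 3), (16, 4)]]
 []
 .nil

/-- classes `0 1 0 1 2 3 4 2 3`, active pairs `1-2 5-8` -/
def trS9_61 : Tr2 :=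
  .lp .none [2, 6, 2, 2, 2, 4, 2, 2, 4] [] [-1, -1, -3, -3, -1, -1, -1, -1, -1, -1, -2, -2, -1, -1,
      -1, -1, -2, -2] 8 5
 [[(1, 2), (10, 3), (13, 2), (16, 3)], [(0, 2), (3, 4), (4, 2), (7, 2)], [(0, 4), (3, 6), (4, 4),
      (7, 4)], [(2, 6), (5, 4), (6, 4), (9, 4)], [(2, 4), (5, 2), (6, 2), (9, 2)], [(0, 2), (3, 4),
      (4, 2), (7, 2)], [(0, 2), (3, 4), (4, 2), (7, 2)], [(2, 4), (5, 2), (6, 2), (9, 2)], [(2, 4),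
      (5, 2), (6, 2), (9, 2)], [(8, 2), (11, 3), (14, 2), (17, 3)], [(8, 3), (11, 4), (14, 3), (17,
      4)], [(1, 3), (10, 4), (13, 3), (16, 4)], [(1, 2), (10, 3), (13, 2), (16, 3)], [(12, 2), (15,
      2)], [(12, 2), (15, 2)], [(8, 2), (11, 3), (14, 2), (17, 3)], [(8, 3), (11, 4), (14, 3), (17,
      4)], [(1, 3), (10, 4), (13, 3), (16, 4)]]
 []
 .nil

/-- classes `0 1 0 1 2 3 4 2 3`, active pairs `1-3 2-3 5-8` -/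
def trS9_62 : Tr2 :=
  .lp .none [2, 2, 2, 6, 2, 4, 2, 2, 4] [] [-1, -1, -1, -1, -1, -1, -3, -3, -1, -1, -2, -2, -1, -1,
      -1, -1, -2, -2] 8 5
 [[(1, 2), (10, 3), (13, 2), (16, 3)], [(0, 2), (3, 2), (4, 2), (7, 4)], [(0, 2), (3, 2), (4, 2),
      (7, 4)], [(2, 2), (5, 2), (6, 4), (9, 2)], [(2, 2), (5, 2), (6, 4), (9, 2)], [(0, 2), (3, 2),
      (4, 2), (7, 4)], [(0, 4), (3, 4), (4, 4), (7, 6)], [(2, 4), (5, 4), (6, 6), (9, 4)], [(2, 2),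
      (5, 2), (6, 4), (9, 2)], [(8, 2), (11, 3), (14, 2), (17, 3)], [(8, 3), (11, 4), (14, 3), (17,
      4)], [(1, 3), (10, 4), (13, 3), (16, 4)], [(1, 2), (10, 3), (13, 2), (16, 3)], [(12, 2), (15,
      2)], [(12, 2), (15, 2)], [(8, 2), (11, 3), (14, 2), (17, 3)], [(8, 3), (11, 4), (14, 3), (17,
      4)], [(1, 3), (10, 4), (13, 3), (16, 4)]]
 []
 .nil

/-- classes `0 1 0 1 2 3 4 2 3`, active pairs `1-3 5-8` -/
def trS9_63 : Tr2 :=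
  .lp .none [2, 2, 2, 6, 2, 4, 2, 2, 4] [] [-1, -1, -1, -1, -1, -1, -3, -3, -1, -1, -2, -2, -1, -1,
      -1, -1, -2, -2] 8 5
 [[(1, 2), (10, 3), (13, 2), (16, 3)], [(0, 2), (3, 2), (4, 2), (7, 4)], [(0, 2), (3, 2), (4, 2),
      (7, 4)], [(2, 2), (5, 2), (6, 4), (9, 2)], [(2, 2), (5, 2), (6, 4), (9, 2)], [(0, 2), (3, 2),
      (4, 2), (7, 4)], [(0, 4), (3, 4), (4, 4), (7, 6)], [(2, 4), (5, 4), (6, 6), (9, 4)], [(2, 2),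
      (5, 2), (6, 4), (9, 2)], [(8, 2), (11, 3), (14, 2), (17, 3)], [(8, 3), (11, 4), (14, 3), (17,
      4)], [(1, 3), (10, 4), (13, 3), (16, 4)], [(1, 2), (10, 3), (13, 2), (16, 3)], [(12, 2), (15,
      2)], [(12, 2), (15, 2)], [(8, 2), (11, 3), (14, 2), (17, 3)], [(8, 3), (11, 4), (14, 3), (17,
      4)], [(1, 3), (10, 4), (13, 3), (16, 4)]]
 []
 .nil

/-- classes `0 1 0 1 2 3 4 2 3`, active pairs `2-3 5-8` -/
def trS9_64 : Tr2 :=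
  .lp .none [2, 2, 2, 6, 2, 4, 2, 2, 4] [] [-1, -1, -1, -1, -1, -1, -3, -3, -1, -1, -2, -2, -1, -1,
      -1, -1, -2, -2] 8 5
 [[(1, 2), (10, 3), (13, 2), (16, 3)], [(0, 2), (3, 2), (4, 2), (7, 4)], [(0, 2), (3, 2), (4, 2),
      (7, 4)], [(2, 2), (5, 2), (6, 4), (9, 2)], [(2, 2), (5, 2), (6, 4), (9, 2)], [(0, 2), (3, 2),
      (4, 2), (7, 4)], [(0, 4), (3, 4), (4, 4), (7, 6)], [(2, 4), (5, 4), (6, 6), (9, 4)], [(2, 2),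
      (5, 2), (6, 4), (9, 2)], [(8, 2), (11, 3), (14, 2), (17, 3)], [(8, 3), (11, 4), (14, 3), (17,
      4)], [(1, 3), (10, 4), (13, 3), (16, 4)], [(1, 2), (10, 3), (13, 2), (16, 3)], [(12, 2), (15,
      2)], [(12, 2), (15, 2)], [(8, 2), (11, 3), (14, 2), (17, 3)], [(8, 3), (11, 4), (14, 3), (17,
      4)], [(1, 3), (10, 4), (13, 3), (16, 4)]]
 []
 .nil

/-- classes `0 1 0 1 2 3 4 2 4`, active pairs `1-2 1-3 7-8` -/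
def trS9_65 : Tr2 :=
  .lp .none [2, 6, 2, 2, 2, 2, 2, 4, 4] [] [-1, -1, -3, -3, -1, -1, -1, -1, -1, -1, -1, -1, -1, -1,
      -2, -2, -2, -2] 8 5
 [[(1, 2), (12, 2), (15, 3), (16, 3)], [(0, 2), (3, 4), (4, 2), (7, 2)], [(0, 4), (3, 6), (4, 4),
      (7, 4)], [(2, 6), (5, 4), (6, 4), (9, 4)], [(2, 4), (5, 2), (6, 2), (9, 2)], [(0, 2), (3, 4),
      (4, 2), (7, 2)], [(0, 2), (3, 4), (4, 2), (7, 2)], [(2, 4), (5, 2), (6, 2), (9, 2)], [(2, 4),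
      (5, 2), (6, 2), (9, 2)], [(8, 2), (11, 2), (14, 3), (17, 3)], [(8, 2), (11, 2), (14, 3), (17,
      3)], [(10, 2), (13, 2)], [(10, 2), (13, 2)], [(1, 2), (12, 2), (15, 3), (16, 3)], [(1, 3),
      (12, 3), (15, 4), (16, 4)], [(8, 3), (11, 3), (14, 4), (17, 4)], [(8, 3), (11, 3), (14, 4),
      (17, 4)], [(1, 3), (12, 3), (15, 4), (16, 4)]]
 []
 .nil

/-- classes `0 1 0 1 2 3 4 2 4`, active pairs `1-2 2-3 7-8` -/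
def trS9_66 : Tr2 :=
  .lp .none [2, 2, 6, 2, 2, 2, 2, 4, 4] [] [-1, -1, -1, -1, -3, -3, -1, -1, -1, -1, -1, -1, -1, -1,
      -2, -2, -2, -2] 8 5
 [[(1, 2), (12, 2), (15, 3), (16, 3)], [(0, 2), (3, 2), (4, 4), (7, 2)], [(0, 2), (3, 2), (4, 4),
      (7, 2)], [(2, 2), (5, 4), (6, 2), (9, 2)], [(2, 4), (5, 6), (6, 4), (9, 4)], [(0, 4), (3, 4),
      (4, 6), (7, 4)], [(0, 2), (3, 2), (4, 4), (7, 2)], [(2, 2), (5, 4), (6, 2), (9, 2)], [(2, 2),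
      (5, 4), (6, 2), (9, 2)], [(8, 2), (11, 2), (14, 3), (17, 3)], [(8, 2), (11, 2), (14, 3), (17,
      3)], [(10, 2), (13, 2)], [(10, 2), (13, 2)], [(1, 2), (12, 2), (15, 3), (16, 3)], [(1, 3),
      (12, 3), (15, 4), (16, 4)], [(8, 3), (11, 3), (14, 4), (17, 4)], [(8, 3), (11, 3), (14, 4),
      (17, 4)], [(1, 3), (12, 3), (15, 4), (16, 4)]]
 []
 .nil

/-- classes `0 1 0 1 2 3 4 2 4`, active pairs `1-2 7-8` -/
def trS9_67 : Tr2 :=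
  .lp .none [2, 6, 2, 2, 2, 2, 2, 4, 4] [] [-1, -1, -3, -3, -1, -1, -1, -1, -1, -1, -1, -1, -1, -1,
      -2, -2, -2, -2] 8 5
 [[(1, 2), (12, 2), (15, 3), (16, 3)], [(0, 2), (3, 4), (4, 2), (7, 2)], [(0, 4), (3, 6), (4, 4),
      (7, 4)], [(2, 6), (5, 4), (6, 4), (9, 4)], [(2, 4), (5, 2), (6, 2), (9, 2)], [(0, 2), (3, 4),
      (4, 2), (7, 2)], [(0, 2), (3, 4), (4, 2), (7, 2)], [(2, 4), (5, 2), (6, 2), (9, 2)], [(2, 4),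
      (5, 2), (6, 2), (9, 2)], [(8, 2), (11, 2), (14, 3), (17, 3)], [(8, 2), (11, 2), (14, 3), (17,
      3)], [(10, 2), (13, 2)], [(10, 2), (13, 2)], [(1, 2), (12, 2), (15, 3), (16, 3)], [(1, 3),
      (12, 3), (15, 4), (16, 4)], [(8, 3), (11, 3), (14, 4), (17, 4)], [(8, 3), (11, 3), (14, 4),
      (17, 4)], [(1, 3), (12, 3), (15, 4), (16, 4)]]
 []
 .nil

/-- classes `0 1 0 1 2 3 4 2 4`, active pairs `1-3 2-3 7-8` -/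
def trS9_68 : Tr2 :=
  .lp .none [2, 2, 2, 6, 2, 2, 2, 4, 4] [] [-1, -1, -1, -1, -1, -1, -3, -3, -1, -1, -1, -1, -1, -1,
      -2, -2, -2, -2] 8 5
 [[(1, 2), (12, 2), (15, 3), (16, 3)], [(0, 2), (3, 2), (4, 2), (7, 4)], [(0, 2), (3, 2), (4, 2),
      (7, 4)], [(2, 2), (5, 2), (6, 4), (9, 2)], [(2, 2), (5, 2), (6, 4), (9, 2)], [(0, 2), (3, 2),
      (4, 2), (7, 4)], [(0, 4), (3, 4), (4, 4), (7, 6)], [(2, 4), (5, 4), (6, 6), (9, 4)], [(2, 2),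
      (5, 2), (6, 4), (9, 2)], [(8, 2), (11, 2), (14, 3), (17, 3)], [(8, 2), (11, 2), (14, 3), (17,
      3)], [(10, 2), (13, 2)], [(10, 2), (13, 2)], [(1, 2), (12, 2), (15, 3), (16, 3)], [(1, 3),
      (12, 3), (15, 4), (16, 4)], [(8, 3), (11, 3), (14, 4), (17, 4)], [(8, 3), (11, 3), (14, 4),
      (17, 4)], [(1, 3), (12, 3), (15, 4), (16, 4)]]
 []
 .nil

/-- classes `0 1 0 1 2 3 4 2 4`, active pairs `1-3 7-8` -/
def trS9_69 : Tr2 :=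
  .lp .none [2, 2, 2, 6, 2, 2, 2, 4, 4] [] [-1, -1, -1, -1, -1, -1, -3, -3, -1, -1, -1, -1, -1, -1,
      -2, -2, -2, -2] 8 5
 [[(1, 2), (12, 2), (15, 3), (16, 3)], [(0, 2), (3, 2), (4, 2), (7, 4)], [(0, 2), (3, 2), (4, 2),
      (7, 4)], [(2, 2), (5, 2), (6, 4), (9, 2)], [(2, 2), (5, 2), (6, 4), (9, 2)], [(0, 2), (3, 2),
      (4, 2), (7, 4)], [(0, 4), (3, 4), (4, 4), (7, 6)], [(2, 4), (5, 4), (6, 6), (9, 4)], [(2, 2),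
      (5, 2), (6, 4), (9, 2)], [(8, 2), (11, 2), (14, 3), (17, 3)], [(8, 2), (11, 2), (14, 3), (17,
      3)], [(10, 2), (13, 2)], [(10, 2), (13, 2)], [(1, 2), (12, 2), (15, 3), (16, 3)], [(1, 3),
      (12, 3), (15, 4), (16, 4)], [(8, 3), (11, 3), (14, 4), (17, 4)], [(8, 3), (11, 3), (14, 4),
      (17, 4)], [(1, 3), (12, 3), (15, 4), (16, 4)]]
 []
 .nil

/-- classes `0 1 0 1 2 3 4 2 4`, active pairs `2-3 7-8` -/
def trS9_70 : Tr2 :=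
  .lp .none [2, 2, 2, 6, 2, 2, 2, 4, 4] [] [-1, -1, -1, -1, -1, -1, -3, -3, -1, -1, -1, -1, -1, -1,
      -2, -2, -2, -2] 8 5
 [[(1, 2), (12, 2), (15, 3), (16, 3)], [(0, 2), (3, 2), (4, 2), (7, 4)], [(0, 2), (3, 2), (4, 2),
      (7, 4)], [(2, 2), (5, 2), (6, 4), (9, 2)], [(2, 2), (5, 2), (6, 4), (9, 2)], [(0, 2), (3, 2),
      (4, 2), (7, 4)], [(0, 4), (3, 4), (4, 4), (7, 6)], [(2, 4), (5, 4), (6, 6), (9, 4)], [(2, 2),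
      (5, 2), (6, 4), (9, 2)], [(8, 2), (11, 2), (14, 3), (17, 3)], [(8, 2), (11, 2), (14, 3), (17,
      3)], [(10, 2), (13, 2)], [(10, 2), (13, 2)], [(1, 2), (12, 2), (15, 3), (16, 3)], [(1, 3),
      (12, 3), (15, 4), (16, 4)], [(8, 3), (11, 3), (14, 4), (17, 4)], [(8, 3), (11, 3), (14, 4),
      (17, 4)], [(1, 3), (12, 3), (15, 4), (16, 4)]]
 []
 .nil

/-- classes `0 1 0 1 2 3 4 3 2`, active pairs `1-2 1-3 5-8` -/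
def trS9_71 : Tr2 :=
  .lp .none [2, 6, 2, 2, 2, 6, 2, 2, 2] [] [-1, -1, -3, -3, -1, -1, -1, -1, -1, -1, -3, -3, -1, -1,
      -1, -1, -1, -1] 8 5
 [[(1, 2), (8, 2), (11, 4), (16, 2)], [(0, 2), (3, 4), (4, 2), (7, 2)], [(0, 4), (3, 6), (4, 4),
      (7, 4)], [(2, 6), (5, 4), (6, 4), (9, 4)], [(2, 4), (5, 2), (6, 2), (9, 2)], [(0, 2), (3, 4),
      (4, 2), (7, 2)], [(0, 2), (3, 4), (4, 2), (7, 2)], [(2, 4), (5, 2), (6, 2), (9, 2)], [(2, 4),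
      (5, 2), (6, 2), (9, 2)], [(1, 2), (8, 2), (11, 4), (16, 2)], [(1, 4), (8, 4), (11, 6), (16,
      4)], [(10, 6), (13, 4), (14, 4), (17, 4)], [(10, 4), (13, 2), (14, 2), (17, 2)], [(12, 2),
      (15, 2)], [(12, 2), (15, 2)], [(10, 4), (13, 2), (14, 2), (17, 2)], [(10, 4), (13, 2), (14,
      2), (17, 2)], [(1, 2), (8, 2), (11, 4), (16, 2)]]
 [[1, 0, 1, 0, 1, 0, 0, 0, 0], [1, 0, 0, 1, 1, 0, 0, 0, 0]]
 (.cons (.leafM 1 [4, 6, 7, 0, 3] [(1, [-1, 0, -1, -1, 1])])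
 (.cons (.leafM 1 [4, 6, 7, 0, 3] [(1, [-1, -1, 0, -1, 1])])
 .nil))

/-- classes `0 1 0 1 2 3 4 3 2`, active pairs `1-2 2-3 5-8` -/
def trS9_72 : Tr2 :=
  .lp .none [2, 2, 6, 2, 2, 6, 2, 2, 2] [] [-1, -1, -1, -1, -3, -3, -1, -1, -1, -1, -3, -3, -1, -1,
      -1, -1, -1, -1] 8 5
 [[(1, 2), (8, 2), (11, 4), (16, 2)], [(0, 2), (3, 2), (4, 4), (7, 2)], [(0, 2), (3, 2), (4, 4),
      (7, 2)], [(2, 2), (5, 4), (6, 2), (9, 2)], [(2, 4), (5, 6), (6, 4), (9, 4)], [(0, 4), (3, 4),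
      (4, 6), (7, 4)], [(0, 2), (3, 2), (4, 4), (7, 2)], [(2, 2), (5, 4), (6, 2), (9, 2)], [(2, 2),
      (5, 4), (6, 2), (9, 2)], [(1, 2), (8, 2), (11, 4), (16, 2)], [(1, 4), (8, 4), (11, 6), (16,
      4)], [(10, 6), (13, 4), (14, 4), (17, 4)], [(10, 4), (13, 2), (14, 2), (17, 2)], [(12, 2),
      (15, 2)], [(12, 2), (15, 2)], [(10, 4), (13, 2), (14, 2), (17, 2)], [(10, 4), (13, 2), (14,
      2), (17, 2)], [(1, 2), (8, 2), (11, 4), (16, 2)]]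
 [[1, 1, 0, 0, 1, 0, 0, 0, 0], [1, 0, 0, 1, 1, 0, 0, 0, 0]]
 (.cons (.leafM 1 [4, 6, 7, 0, 3] [(1, [-1, 0, -1, -1, 1])])
 (.cons (.leafM 1 [4, 6, 7, 0, 3] [(1, [-1, -1, 0, -1, 1])])
 .nil))

/-- classes `0 1 0 1 2 3 4 3 2`, active pairs `1-2 5-8` -/
def trS9_73 : Tr2 :=
  .lp .none [2, 4, 4, 2, 2, 6, 2, 2, 2] [] [-1, -1, -2, -2, -2, -2, -1, -1, -1, -1, -3, -3, -1, -1,
      -1, -1, -1, -1] 8 5
 [[(1, 2), (8, 2), (11, 4), (16, 2)], [(0, 2), (3, 3), (4, 3), (7, 2)], [(0, 3), (3, 4), (4, 4),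
      (7, 3)], [(2, 4), (5, 4), (6, 3), (9, 3)], [(2, 4), (5, 4), (6, 3), (9, 3)], [(0, 3), (3, 4),
      (4, 4), (7, 3)], [(0, 2), (3, 3), (4, 3), (7, 2)], [(2, 3), (5, 3), (6, 2), (9, 2)], [(2, 3),
      (5, 3), (6, 2), (9, 2)], [(1, 2), (8, 2), (11, 4), (16, 2)], [(1, 4), (8, 4), (11, 6), (16,
      4)], [(10, 6), (13, 4), (14, 4), (17, 4)], [(10, 4), (13, 2), (14, 2), (17, 2)], [(12, 2),
      (15, 2)], [(12, 2), (15, 2)], [(10, 4), (13, 2), (14, 2), (17, 2)], [(10, 4), (13, 2), (14,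
      2), (17, 2)], [(1, 2), (8, 2), (11, 4), (16, 2)]]
 [[1, 0, 0, 1, 1, 0, 0, 0, 0]]
 (.cons (.leafM 1 [4, 6, 7, 0, 3] [(1, [-1, -1, -1, 1])])
 .nil)

/-- classes `0 1 0 1 2 3 4 3 2`, active pairs `1-3 2-3 5-8` -/
def trS9_74 : Tr2 :=
  .lp .none [2, 2, 2, 6, 2, 6, 2, 2, 2] [] [-1, -1, -1, -1, -1, -1, -3, -3, -1, -1, -3, -3, -1, -1,
      -1, -1, -1, -1] 8 5
 [[(1, 2), (8, 2), (11, 4), (16, 2)], [(0, 2), (3, 2), (4, 2), (7, 4)], [(0, 2), (3, 2), (4, 2),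
      (7, 4)], [(2, 2), (5, 2), (6, 4), (9, 2)], [(2, 2), (5, 2), (6, 4), (9, 2)], [(0, 2), (3, 2),
      (4, 2), (7, 4)], [(0, 4), (3, 4), (4, 4), (7, 6)], [(2, 4), (5, 4), (6, 6), (9, 4)], [(2, 2),
      (5, 2), (6, 4), (9, 2)], [(1, 2), (8, 2), (11, 4), (16, 2)], [(1, 4), (8, 4), (11, 6), (16,
      4)], [(10, 6), (13, 4), (14, 4), (17, 4)], [(10, 4), (13, 2), (14, 2), (17, 2)], [(12, 2),
      (15, 2)], [(12, 2), (15, 2)], [(10, 4), (13, 2), (14, 2), (17, 2)], [(10, 4), (13, 2), (14,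
      2), (17, 2)], [(1, 2), (8, 2), (11, 4), (16, 2)]]
 [[1, 1, 0, 0, 1, 0, 0, 0, 0], [1, 0, 1, 0, 1, 0, 0, 0, 0]]
 (.cons (.leafM 3 [0, 2, 4, 6, 7] [(1, [-1, 0, -1, -1, 1])])
 (.cons (.leafM 3 [0, 2, 4, 6, 7] [(1, [-1, -1, 0, -1, 1])])
 .nil))

/-- classes `0 1 0 1 2 3 4 3 2`, active pairs `1-3 5-8` -/
def trS9_75 : Tr2 :=
  .lp .none [2, 4, 2, 4, 2, 6, 2, 2, 2] [] [-1, -1, -2, -2, -1, -1, -2, -2, -1, -1, -3, -3, -1, -1,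
      -1, -1, -1, -1] 8 5
 [[(1, 2), (8, 2), (11, 4), (16, 2)], [(0, 2), (3, 3), (4, 2), (7, 3)], [(0, 3), (3, 4), (4, 3),
      (7, 4)], [(2, 4), (5, 3), (6, 4), (9, 3)], [(2, 3), (5, 2), (6, 3), (9, 2)], [(0, 2), (3, 3),
      (4, 2), (7, 3)], [(0, 3), (3, 4), (4, 3), (7, 4)], [(2, 4), (5, 3), (6, 4), (9, 3)], [(2, 3),
      (5, 2), (6, 3), (9, 2)], [(1, 2), (8, 2), (11, 4), (16, 2)], [(1, 4), (8, 4), (11, 6), (16,
      4)], [(10, 6), (13, 4), (14, 4), (17, 4)], [(10, 4), (13, 2), (14, 2), (17, 2)], [(12, 2),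
      (15, 2)], [(12, 2), (15, 2)], [(10, 4), (13, 2), (14, 2), (17, 2)], [(10, 4), (13, 2), (14,
      2), (17, 2)], [(1, 2), (8, 2), (11, 4), (16, 2)]]
 [[1, 0, 1, 0, 1, 0, 0, 0, 0]]
 (.cons (.leafM 3 [0, 2, 4, 6, 7] [(1, [-1, -1, -1, 1])])
 .nil)

/-- classes `0 1 0 1 2 3 4 3 2`, active pairs `2-3 5-8` -/
def trS9_76 : Tr2 :=
  .lp .none [2, 2, 4, 4, 2, 6, 2, 2, 2] [] [-1, -1, -1, -1, -2, -2, -2, -2, -1, -1, -3, -3, -1, -1,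
      -1, -1, -1, -1] 8 5
 [[(1, 2), (8, 2), (11, 4), (16, 2)], [(0, 2), (3, 2), (4, 3), (7, 3)], [(0, 2), (3, 2), (4, 3),
      (7, 3)], [(2, 2), (5, 3), (6, 3), (9, 2)], [(2, 3), (5, 4), (6, 4), (9, 3)], [(0, 3), (3, 3),
      (4, 4), (7, 4)], [(0, 3), (3, 3), (4, 4), (7, 4)], [(2, 3), (5, 4), (6, 4), (9, 3)], [(2, 2),
      (5, 3), (6, 3), (9, 2)], [(1, 2), (8, 2), (11, 4), (16, 2)], [(1, 4), (8, 4), (11, 6), (16,
      4)], [(10, 6), (13, 4), (14, 4), (17, 4)], [(10, 4), (13, 2), (14, 2), (17, 2)], [(12, 2),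
      (15, 2)], [(12, 2), (15, 2)], [(10, 4), (13, 2), (14, 2), (17, 2)], [(10, 4), (13, 2), (14,
      2), (17, 2)], [(1, 2), (8, 2), (11, 4), (16, 2)]]
 [[1, 1, 0, 0, 1, 0, 0, 0, 0]]
 (.cons (.leafM 1 [4, 6, 7, 0, 1] [(1, [-1, -1, -1, 1])])
 .nil)

/-- classes `0 1 0 2 1 3 2 3 4`, active pairs `1-2 6-7` -/
def trS9_77 : Tr2 :=
  .lp .none [2, 4, 4, 2, 2, 2, 4, 4, 2] [] [-1, -1, -2, -2, -2, -2, -1, -1, -1, -1, -1, -1, -2, -2,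
      -2, -2, -1, -1] 8 5
 [[(1, 2), (16, 2)], [(0, 2), (3, 3), (4, 3), (7, 2)], [(0, 3), (3, 4), (4, 4), (7, 3)], [(2, 4),
      (5, 4), (8, 3), (11, 3)], [(2, 4), (5, 4), (8, 3), (11, 3)], [(0, 3), (3, 4), (4, 4), (7,
      3)], [(0, 2), (3, 3), (4, 3), (7, 2)], [(6, 2), (9, 2), (12, 3), (15, 3)], [(6, 2), (9, 2),
      (12, 3), (15, 3)], [(2, 3), (5, 3), (8, 2), (11, 2)], [(2, 3), (5, 3), (8, 2), (11, 2)],
      [(10, 2), (13, 3), (14, 3), (17, 2)], [(10, 3), (13, 4), (14, 4), (17, 3)], [(6, 3), (9, 3),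
      (12, 4), (15, 4)], [(6, 3), (9, 3), (12, 4), (15, 4)], [(10, 3), (13, 4), (14, 4), (17, 3)],
      [(10, 2), (13, 3), (14, 3), (17, 2)], [(1, 2), (16, 2)]]
 []
 .nil

/-- classes `0 1 0 2 1 3 4 2 4`, active pairs `1-2 7-8` -/
def trS9_78 : Tr2 :=
  .lp .none [2, 4, 4, 2, 2, 2, 2, 4, 4] [] [-1, -1, -2, -2, -2, -2, -1, -1, -1, -1, -1, -1, -1, -1,
      -2, -2, -2, -2] 8 5
 [[(1, 2), (12, 2), (15, 3), (16, 3)], [(0, 2), (3, 3), (4, 3), (7, 2)], [(0, 3), (3, 4), (4, 4),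
      (7, 3)], [(2, 4), (5, 4), (8, 3), (11, 3)], [(2, 4), (5, 4), (8, 3), (11, 3)], [(0, 3), (3,
      4), (4, 4), (7, 3)], [(0, 2), (3, 3), (4, 3), (7, 2)], [(6, 2), (9, 2), (14, 3), (17, 3)],
      [(6, 2), (9, 2), (14, 3), (17, 3)], [(2, 3), (5, 3), (8, 2), (11, 2)], [(2, 3), (5, 3), (8,
      2), (11, 2)], [(10, 2), (13, 2)], [(10, 2), (13, 2)], [(1, 2), (12, 2), (15, 3), (16, 3)],
      [(1, 3), (12, 3), (15, 4), (16, 4)], [(6, 3), (9, 3), (14, 4), (17, 4)], [(6, 3), (9, 3),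
      (14, 4), (17, 4)], [(1, 3), (12, 3), (15, 4), (16, 4)]]
 []
 .nil

/-- classes `0 1 0 2 3 1 2 3 4`, active pairs `1-2 4-7` -/
def trS9_79 : Tr2 :=
  .lp .none [2, 4, 4, 2, 4, 2, 2, 4, 2] [] [-1, -1, -2, -2, -2, -2, -1, -1, -2, -2, -1, -1, -1, -1,
      -2, -2, -1, -1] 8 5
 [[(1, 2), (16, 2)], [(0, 2), (3, 3), (4, 3), (7, 2)], [(0, 3), (3, 4), (4, 4), (7, 3)], [(2, 4),
      (5, 4), (10, 3), (13, 3)], [(2, 4), (5, 4), (10, 3), (13, 3)], [(0, 3), (3, 4), (4, 4), (7,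
      3)], [(0, 2), (3, 3), (4, 3), (7, 2)], [(6, 2), (9, 3), (12, 2), (15, 3)], [(6, 3), (9, 4),
      (12, 3), (15, 4)], [(8, 4), (11, 3), (14, 4), (17, 3)], [(8, 3), (11, 2), (14, 3), (17, 2)],
      [(2, 3), (5, 3), (10, 2), (13, 2)], [(2, 3), (5, 3), (10, 2), (13, 2)], [(6, 2), (9, 3), (12,
      2), (15, 3)], [(6, 3), (9, 4), (12, 3), (15, 4)], [(8, 4), (11, 3), (14, 4), (17, 3)], [(8,
      3), (11, 2), (14, 3), (17, 2)], [(1, 2), (16, 2)]]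
 []
 .nil

/-- classes `0 1 0 2 3 1 3 2 4`, active pairs `1-2 4-7` -/
def trS9_80 : Tr2 :=
  .lp .none [2, 6, 2, 2, 2, 2, 2, 6, 2] [] [-1, -1, -3, -3, -1, -1, -1, -1, -1, -1, -1, -1, -1, -1,
      -3, -3, -1, -1] 8 5
 [[(1, 2), (16, 2)], [(0, 2), (3, 4), (4, 2), (7, 2)], [(0, 4), (3, 6), (4, 4), (7, 4)], [(2, 6),
      (5, 4), (10, 4), (13, 4)], [(2, 4), (5, 2), (10, 2), (13, 2)], [(0, 2), (3, 4), (4, 2), (7,
      2)], [(0, 2), (3, 4), (4, 2), (7, 2)], [(6, 2), (9, 2), (14, 4), (17, 2)], [(6, 2), (9, 2),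
      (14, 4), (17, 2)], [(8, 2), (11, 2), (12, 2), (15, 4)], [(8, 2), (11, 2), (12, 2), (15, 4)],
      [(2, 4), (5, 2), (10, 2), (13, 2)], [(2, 4), (5, 2), (10, 2), (13, 2)], [(8, 2), (11, 2),
      (12, 2), (15, 4)], [(8, 4), (11, 4), (12, 4), (15, 6)], [(6, 4), (9, 4), (14, 6), (17, 4)],
      [(6, 2), (9, 2), (14, 4), (17, 2)], [(1, 2), (16, 2)]]
 [[1, 0, 0, 1, 0, 0, 0, 0, 1]]
 (.cons (.leafM 1 [3, 5, 6, 8, 0] [(1, [-1, -1, -1, 1])])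
 .nil)

/-- classes `0 1 0 2 3 1 3 4 2`, active pairs `0-3 5-6` -/
def trS9_81 : Tr2 :=
  .lp .none [2, 2, 2, 6, 2, 2, 6, 2, 2] [] [-1, -1, -1, -1, -1, -1, -3, -3, -1, -1, -1, -1, -3, -3,
      -1, -1, -1, -1] 8 5
 [[(1, 2), (6, 4), (9, 2), (16, 2)], [(0, 2), (3, 2), (4, 2), (7, 4)], [(0, 2), (3, 2), (4, 2), (7,
      4)], [(2, 2), (5, 2), (10, 2), (13, 4)], [(2, 2), (5, 2), (10, 2), (13, 4)], [(0, 2), (3, 2),
      (4, 2), (7, 4)], [(0, 4), (3, 4), (4, 4), (7, 6)], [(1, 4), (6, 6), (9, 4), (16, 4)], [(1,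
      2), (6, 4), (9, 2), (16, 2)], [(8, 2), (11, 2), (12, 4), (15, 2)], [(8, 2), (11, 2), (12, 4),
      (15, 2)], [(2, 2), (5, 2), (10, 2), (13, 4)], [(2, 4), (5, 4), (10, 4), (13, 6)], [(8, 4),
      (11, 4), (12, 6), (15, 4)], [(8, 2), (11, 2), (12, 4), (15, 2)], [(14, 2), (17, 2)], [(14,
      2), (17, 2)], [(1, 2), (6, 4), (9, 2), (16, 2)]]
 [[0, 0, 0, 0, 1, 0, 0, 1, 1]]
 (.cons (.leafM 1 [8, 1, 2, 4, 7] [(1, [-1, -1, -1, 1])])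
 .nil)

/-- classes `0 1 0 2 3 1 4 2 3`, active pairs `1-2 4-8` -/
def trS9_82 : Tr2 :=
  .lp .none [2, 4, 4, 2, 4, 2, 2, 2, 4] [] [-1, -1, -2, -2, -2, -2, -1, -1, -2, -2, -1, -1, -1, -1,
      -1, -1, -2, -2] 8 5
 [[(1, 2), (8, 3), (11, 2), (16, 3)], [(0, 2), (3, 3), (4, 3), (7, 2)], [(0, 3), (3, 4), (4, 4),
      (7, 3)], [(2, 4), (5, 4), (10, 3), (13, 3)], [(2, 4), (5, 4), (10, 3), (13, 3)], [(0, 3), (3,
      4), (4, 4), (7, 3)], [(0, 2), (3, 3), (4, 3), (7, 2)], [(6, 2), (9, 3), (14, 2), (17, 3)],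
      [(6, 3), (9, 4), (14, 3), (17, 4)], [(1, 3), (8, 4), (11, 3), (16, 4)], [(1, 2), (8, 3), (11,
      2), (16, 3)], [(2, 3), (5, 3), (10, 2), (13, 2)], [(2, 3), (5, 3), (10, 2), (13, 2)], [(12,
      2), (15, 2)], [(12, 2), (15, 2)], [(6, 2), (9, 3), (14, 2), (17, 3)], [(6, 3), (9, 4), (14,
      3), (17, 4)], [(1, 3), (8, 4), (11, 3), (16, 4)]]
 []
 .nil

/-- classes `0 1 0 2 3 1 4 2 4`, active pairs `1-2 7-8` -/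
def trS9_83 : Tr2 :=
  .lp .none [2, 4, 4, 2, 2, 2, 2, 4, 4] [] [-1, -1, -2, -2, -2, -2, -1, -1, -1, -1, -1, -1, -1, -1,
      -2, -2, -2, -2] 8 5
 [[(1, 2), (12, 2), (15, 3), (16, 3)], [(0, 2), (3, 3), (4, 3), (7, 2)], [(0, 3), (3, 4), (4, 4),
      (7, 3)], [(2, 4), (5, 4), (10, 3), (13, 3)], [(2, 4), (5, 4), (10, 3), (13, 3)], [(0, 3), (3,
      4), (4, 4), (7, 3)], [(0, 2), (3, 3), (4, 3), (7, 2)], [(6, 2), (9, 2), (14, 3), (17, 3)],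
      [(6, 2), (9, 2), (14, 3), (17, 3)], [(8, 2), (11, 2)], [(8, 2), (11, 2)], [(2, 3), (5, 3),
      (10, 2), (13, 2)], [(2, 3), (5, 3), (10, 2), (13, 2)], [(1, 2), (12, 2), (15, 3), (16, 3)],
      [(1, 3), (12, 3), (15, 4), (16, 4)], [(6, 3), (9, 3), (14, 4), (17, 4)], [(6, 3), (9, 3),
      (14, 4), (17, 4)], [(1, 3), (12, 3), (15, 4), (16, 4)]]
 []
 .nil

/-- classes `0 1 0 2 3 1 4 3 2`, active pairs `1-2 4-8` -/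
def trS9_84 : Tr2 :=
  .lp .none [2, 6, 2, 2, 6, 2, 2, 2, 2] [] [-1, -1, -3, -3, -1, -1, -1, -1, -3, -3, -1, -1, -1, -1,
      -1, -1, -1, -1] 8 5
 [[(1, 2), (6, 2), (9, 4), (16, 2)], [(0, 2), (3, 4), (4, 2), (7, 2)], [(0, 4), (3, 6), (4, 4), (7,
      4)], [(2, 6), (5, 4), (10, 4), (13, 4)], [(2, 4), (5, 2), (10, 2), (13, 2)], [(0, 2), (3, 4),
      (4, 2), (7, 2)], [(0, 2), (3, 4), (4, 2), (7, 2)], [(1, 2), (6, 2), (9, 4), (16, 2)], [(1,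
      4), (6, 4), (9, 6), (16, 4)], [(8, 6), (11, 4), (14, 4), (17, 4)], [(8, 4), (11, 2), (14, 2),
      (17, 2)], [(2, 4), (5, 2), (10, 2), (13, 2)], [(2, 4), (5, 2), (10, 2), (13, 2)], [(12, 2),
      (15, 2)], [(12, 2), (15, 2)], [(8, 4), (11, 2), (14, 2), (17, 2)], [(8, 4), (11, 2), (14, 2),
      (17, 2)], [(1, 2), (6, 2), (9, 4), (16, 2)]]
 [[0, 0, 0, 0, 0, 1, 1, 1, 0]]
 (.cons (.leafM 1 [7, 0, 3, 5, 6] [(1, [-1, -1, -1, 1])])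
 .nil)

/-- classes `0 1 0 2 3 1 4 3 4`, active pairs `1-2 7-8` -/
def trS9_85 : Tr2 :=
  .lp .none [2, 4, 4, 2, 2, 2, 2, 4, 4] [] [-1, -1, -2, -2, -2, -2, -1, -1, -1, -1, -1, -1, -1, -1,
      -2, -2, -2, -2] 8 5
 [[(1, 2), (12, 2), (15, 3), (16, 3)], [(0, 2), (3, 3), (4, 3), (7, 2)], [(0, 3), (3, 4), (4, 4),
      (7, 3)], [(2, 4), (5, 4), (10, 3), (13, 3)], [(2, 4), (5, 4), (10, 3), (13, 3)], [(0, 3), (3,
      4), (4, 4), (7, 3)], [(0, 2), (3, 3), (4, 3), (7, 2)], [(6, 2), (9, 2)], [(6, 2), (9, 2)],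
      [(8, 2), (11, 2), (14, 3), (17, 3)], [(8, 2), (11, 2), (14, 3), (17, 3)], [(2, 3), (5, 3),
      (10, 2), (13, 2)], [(2, 3), (5, 3), (10, 2), (13, 2)], [(1, 2), (12, 2), (15, 3), (16, 3)],
      [(1, 3), (12, 3), (15, 4), (16, 4)], [(8, 3), (11, 3), (14, 4), (17, 4)], [(8, 3), (11, 3),
      (14, 4), (17, 4)], [(1, 3), (12, 3), (15, 4), (16, 4)]]
 []
 .nil

/-- classes `0 1 0 2 3 4 1 2 3`, active pairs `1-2 4-8` -/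
def trS9_86 : Tr2 :=
  .lp .none [2, 4, 4, 2, 4, 2, 2, 2, 4] [] [-1, -1, -2, -2, -2, -2, -1, -1, -2, -2, -1, -1, -1, -1,
      -1, -1, -2, -2] 8 5
 [[(1, 2), (8, 3), (11, 2), (16, 3)], [(0, 2), (3, 3), (4, 3), (7, 2)], [(0, 3), (3, 4), (4, 4),
      (7, 3)], [(2, 4), (5, 4), (12, 3), (15, 3)], [(2, 4), (5, 4), (12, 3), (15, 3)], [(0, 3), (3,
      4), (4, 4), (7, 3)], [(0, 2), (3, 3), (4, 3), (7, 2)], [(6, 2), (9, 3), (14, 2), (17, 3)],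
      [(6, 3), (9, 4), (14, 3), (17, 4)], [(1, 3), (8, 4), (11, 3), (16, 4)], [(1, 2), (8, 3), (11,
      2), (16, 3)], [(10, 2), (13, 2)], [(10, 2), (13, 2)], [(2, 3), (5, 3), (12, 2), (15, 2)],
      [(2, 3), (5, 3), (12, 2), (15, 2)], [(6, 2), (9, 3), (14, 2), (17, 3)], [(6, 3), (9, 4), (14,
      3), (17, 4)], [(1, 3), (8, 4), (11, 3), (16, 4)]]
 []
 .nil

/-- classes `0 1 0 2 3 4 1 3 2`, active pairs `1-2 4-8` -/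
def trS9_87 : Tr2 :=
  .lp .none [2, 6, 2, 2, 6, 2, 2, 2, 2] [] [-1, -1, -3, -3, -1, -1, -1, -1, -3, -3, -1, -1, -1, -1,
      -1, -1, -1, -1] 8 5
 [[(1, 2), (6, 2), (9, 4), (16, 2)], [(0, 2), (3, 4), (4, 2), (7, 2)], [(0, 4), (3, 6), (4, 4), (7,
      4)], [(2, 6), (5, 4), (12, 4), (15, 4)], [(2, 4), (5, 2), (12, 2), (15, 2)], [(0, 2), (3, 4),
      (4, 2), (7, 2)], [(0, 2), (3, 4), (4, 2), (7, 2)], [(1, 2), (6, 2), (9, 4), (16, 2)], [(1,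
      4), (6, 4), (9, 6), (16, 4)], [(8, 6), (11, 4), (14, 4), (17, 4)], [(8, 4), (11, 2), (14, 2),
      (17, 2)], [(10, 2), (13, 2)], [(10, 2), (13, 2)], [(2, 4), (5, 2), (12, 2), (15, 2)], [(2,
      4), (5, 2), (12, 2), (15, 2)], [(8, 4), (11, 2), (14, 2), (17, 2)], [(8, 4), (11, 2), (14,
      2), (17, 2)], [(1, 2), (6, 2), (9, 4), (16, 2)]]
 [[0, 0, 0, 0, 0, 1, 1, 1, 0]]
 (.cons (.leafM 1 [7, 0, 3, 5, 6] [(1, [-1, -1, -1, 1])])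
 .nil)

/-- classes `0 1 0 2 3 4 1 3 4`, active pairs `1-2 5-8` -/
def trS9_88 : Tr2 :=
  .lp .none [2, 4, 4, 2, 2, 4, 2, 2, 4] [] [-1, -1, -2, -2, -2, -2, -1, -1, -1, -1, -2, -2, -1, -1,
      -1, -1, -2, -2] 8 5
 [[(1, 2), (10, 3), (13, 2), (16, 3)], [(0, 2), (3, 3), (4, 3), (7, 2)], [(0, 3), (3, 4), (4, 4),
      (7, 3)], [(2, 4), (5, 4), (12, 3), (15, 3)], [(2, 4), (5, 4), (12, 3), (15, 3)], [(0, 3), (3,
      4), (4, 4), (7, 3)], [(0, 2), (3, 3), (4, 3), (7, 2)], [(6, 2), (9, 2)], [(6, 2), (9, 2)],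
      [(8, 2), (11, 3), (14, 2), (17, 3)], [(8, 3), (11, 4), (14, 3), (17, 4)], [(1, 3), (10, 4),
      (13, 3), (16, 4)], [(1, 2), (10, 3), (13, 2), (16, 3)], [(2, 3), (5, 3), (12, 2), (15, 2)],
      [(2, 3), (5, 3), (12, 2), (15, 2)], [(8, 2), (11, 3), (14, 2), (17, 3)], [(8, 3), (11, 4),
      (14, 3), (17, 4)], [(1, 3), (10, 4), (13, 3), (16, 4)]]
 []
 .nil

/-- classes `0 1 2 0 3 1 2 4 3`, active pairs `0-4 2-6` -/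
def trS9_89 : Tr2 :=
  .lp .none [4, 2, 4, 2, 4, 2, 4, 2, 2] [] [-2, -2, -1, -1, -2, -2, -1, -1, -2, -2, -1, -1, -2, -2,
      -1, -1, -1, -1] 8 5
 [[(1, 4), (8, 4), (11, 3), (16, 3)], [(0, 4), (3, 3), (6, 3), (9, 4)], [(0, 3), (3, 2), (6, 2),
      (9, 3)], [(2, 2), (5, 3), (10, 2), (13, 3)], [(2, 3), (5, 4), (10, 3), (13, 4)], [(4, 4), (7,
      3), (12, 4), (15, 3)], [(4, 3), (7, 2), (12, 3), (15, 2)], [(0, 3), (3, 2), (6, 2), (9, 3)],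
      [(0, 4), (3, 3), (6, 3), (9, 4)], [(1, 4), (8, 4), (11, 3), (16, 3)], [(1, 3), (8, 3), (11,
      2), (16, 2)], [(2, 2), (5, 3), (10, 2), (13, 3)], [(2, 3), (5, 4), (10, 3), (13, 4)], [(4,
      4), (7, 3), (12, 4), (15, 3)], [(4, 3), (7, 2), (12, 3), (15, 2)], [(14, 2), (17, 2)], [(14,
      2), (17, 2)], [(1, 3), (8, 3), (11, 2), (16, 2)]]
 []
 .nil

/-- classes `0 1 2 0 3 2 1 4 3`, active pairs `0-4 2-6` -/
def trS9_90 : Tr2 :=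
  .lp .none [4, 2, 4, 2, 4, 2, 4, 2, 2] [] [-2, -2, -1, -1, -2, -2, -1, -1, -2, -2, -1, -1, -2, -2,
      -1, -1, -1, -1] 8 5
 [[(1, 4), (8, 4), (11, 3), (16, 3)], [(0, 4), (3, 3), (6, 3), (9, 4)], [(0, 3), (3, 2), (6, 2),
      (9, 3)], [(2, 2), (5, 3), (12, 3), (15, 2)], [(2, 3), (5, 4), (12, 4), (15, 3)], [(4, 4), (7,
      3), (10, 3), (13, 4)], [(4, 3), (7, 2), (10, 2), (13, 3)], [(0, 3), (3, 2), (6, 2), (9, 3)],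
      [(0, 4), (3, 3), (6, 3), (9, 4)], [(1, 4), (8, 4), (11, 3), (16, 3)], [(1, 3), (8, 3), (11,
      2), (16, 2)], [(4, 3), (7, 2), (10, 2), (13, 3)], [(4, 4), (7, 3), (10, 3), (13, 4)], [(2,
      3), (5, 4), (12, 4), (15, 3)], [(2, 2), (5, 3), (12, 3), (15, 2)], [(14, 2), (17, 2)], [(14,
      2), (17, 2)], [(1, 3), (8, 3), (11, 2), (16, 2)]]
 []
 .nil

/-- classes `0 1 2 0 3 4 1 2 3`, active pairs `0-4 2-7` -/
def trS9_91 : Tr2 :=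
  .lp .none [4, 2, 4, 2, 4, 2, 2, 4, 2] [] [-2, -2, -1, -1, -2, -2, -1, -1, -2, -2, -1, -1, -1, -1,
      -2, -2, -1, -1] 8 5
 [[(1, 4), (8, 4), (11, 3), (16, 3)], [(0, 4), (3, 3), (6, 3), (9, 4)], [(0, 3), (3, 2), (6, 2),
      (9, 3)], [(2, 2), (5, 3), (12, 2), (15, 3)], [(2, 3), (5, 4), (12, 3), (15, 4)], [(4, 4), (7,
      3), (14, 4), (17, 3)], [(4, 3), (7, 2), (14, 3), (17, 2)], [(0, 3), (3, 2), (6, 2), (9, 3)],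
      [(0, 4), (3, 3), (6, 3), (9, 4)], [(1, 4), (8, 4), (11, 3), (16, 3)], [(1, 3), (8, 3), (11,
      2), (16, 2)], [(10, 2), (13, 2)], [(10, 2), (13, 2)], [(2, 2), (5, 3), (12, 2), (15, 3)],
      [(2, 3), (5, 4), (12, 3), (15, 4)], [(4, 4), (7, 3), (14, 4), (17, 3)], [(4, 3), (7, 2), (14,
      3), (17, 2)], [(1, 3), (8, 3), (11, 2), (16, 2)]]
 []
 .nil

/-- classes `0 1 2 3 0 1 2 3 4`, active pairs `1-5 3-7` -/
def trS9_92 : Tr2 :=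
  .lp .none [2, 6, 2, 6, 2, 2, 2, 2, 2] [] [-1, -1, -3, -3, -1, -1, -3, -3, -1, -1, -1, -1, -1, -1,
      -1, -1, -1, -1] 8 5
 [[(1, 2), (16, 2)], [(0, 2), (3, 4), (8, 2), (11, 2)], [(0, 4), (3, 6), (8, 4), (11, 4)], [(2, 6),
      (5, 4), (10, 4), (13, 4)], [(2, 4), (5, 2), (10, 2), (13, 2)], [(4, 2), (7, 4), (12, 2), (15,
      2)], [(4, 4), (7, 6), (12, 4), (15, 4)], [(6, 6), (9, 4), (14, 4), (17, 4)], [(6, 4), (9, 2),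
      (14, 2), (17, 2)], [(0, 2), (3, 4), (8, 2), (11, 2)], [(0, 2), (3, 4), (8, 2), (11, 2)], [(2,
      4), (5, 2), (10, 2), (13, 2)], [(2, 4), (5, 2), (10, 2), (13, 2)], [(4, 2), (7, 4), (12, 2),
      (15, 2)], [(4, 2), (7, 4), (12, 2), (15, 2)], [(6, 4), (9, 2), (14, 2), (17, 2)], [(6, 4),
      (9, 2), (14, 2), (17, 2)], [(1, 2), (16, 2)]]
 [[1, 0, 0, 0, 1, 0, 0, 0, 1]]
 (.cons (.leafM 2 [0, 2, 4, 6, 8] [(1, [-1, -1, -1, 1])])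
 .nil)

/-- the trees for `9` marks -/
def trS9 (q : Fin 93) : Tr2 :=
  ([trS9_0, trS9_1, trS9_2, trS9_3, trS9_4, trS9_5, trS9_6, trS9_7, trS9_8, trS9_9, trS9_10,
      trS9_11, trS9_12, trS9_13, trS9_14, trS9_15, trS9_16, trS9_17, trS9_18, trS9_19,
      trS9_20, trS9_21, trS9_22, trS9_23, trS9_24, trS9_25, trS9_26, trS9_27, trS9_28,
      trS9_29, trS9_30, trS9_31, trS9_32, trS9_33, trS9_34, trS9_35, trS9_36, trS9_37,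
      trS9_38, trS9_39, trS9_40, trS9_41, trS9_42, trS9_43, trS9_44, trS9_45, trS9_46,
      trS9_47, trS9_48, trS9_49, trS9_50, trS9_51, trS9_52, trS9_53, trS9_54, trS9_55,
      trS9_56, trS9_57, trS9_58, trS9_59, trS9_60, trS9_61, trS9_62, trS9_63, trS9_64,
      trS9_65, trS9_66, trS9_67, trS9_68, trS9_69, trS9_70, trS9_71, trS9_72, trS9_73,
      trS9_74, trS9_75, trS9_76, trS9_77, trS9_78, trS9_79, trS9_80, trS9_81, trS9_82,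
      trS9_83, trS9_84, trS9_85, trS9_86, trS9_87, trS9_88, trS9_89, trS9_90, trS9_91,
      trS9_92] : List Tr2).getD q.val Tr2.nil

private theorem okS9_0 : ∀ q : Fin 93, q.val / 6 = 0 → chkR (canS9 q) (actS9 q) schN (trS9 q) = true := by
  decide +kernel

private theorem okS9_1 : ∀ q : Fin 93, q.val / 6 = 1 → chkR (canS9 q) (actS9 q) schN (trS9 q) = true := by
  decide +kernel

private theorem okS9_2 : ∀ q : Fin 93, q.val / 6 = 2 → chkR (canS9 q) (actS9 q) schN (trS9 q) = true := by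
  decide +kernel

private theorem okS9_3 : ∀ q : Fin 93, q.val / 6 = 3 → chkR (canS9 q) (actS9 q) schN (trS9 q) = true := by
  decide +kernel

private theorem okS9_4 : ∀ q : Fin 93, q.val / 6 = 4 → chkR (canS9 q) (actS9 q) schN (trS9 q) = true := by
  decide +kernel

private theorem okS9_5 : ∀ q : Fin 93, q.val / 6 = 5 → chkR (canS9 q) (actS9 q) schN (trS9 q) = true := by
  decide +kernel

private theorem okS9_6 : ∀ q : Fin 93, q.val / 6 = 6 → chkR (canS9 q) (actS9 q) schN (trS9 q) = true := by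
  decide +kernel

private theorem okS9_7 : ∀ q : Fin 93, q.val / 6 = 7 → chkR (canS9 q) (actS9 q) schN (trS9 q) = true := by
  decide +kernel

private theorem okS9_8 : ∀ q : Fin 93, q.val / 6 = 8 → chkR (canS9 q) (actS9 q) schN (trS9 q) = true := by
  decide +kernel

private theorem okS9_9 : ∀ q : Fin 93, q.val / 6 = 9 → chkR (canS9 q) (actS9 q) schN (trS9 q) = true := by
  decide +kernel

private theorem okS9_10 : ∀ q : Fin 93, q.val / 6 = 10 → chkR (canS9 q) (actS9 q) schN (trS9 q) = true := by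
  decide +kernel

private theorem okS9_11 : ∀ q : Fin 93, q.val / 6 = 11 → chkR (canS9 q) (actS9 q) schN (trS9 q) = true := by
  decide +kernel

private theorem okS9_12 : ∀ q : Fin 93, q.val / 6 = 12 → chkR (canS9 q) (actS9 q) schN (trS9 q) = true := by
  decide +kernel

private theorem okS9_13 : ∀ q : Fin 93, q.val / 6 = 13 → chkR (canS9 q) (actS9 q) schN (trS9 q) = true := by
  decide +kernel

private theorem okS9_14 : ∀ q : Fin 93, q.val / 6 = 14 → chkR (canS9 q) (actS9 q) schN (trS9 q) = true := by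
  decide +kernel

private theorem okS9_15 : ∀ q : Fin 93, q.val / 6 = 15 → chkR (canS9 q) (actS9 q) schN (trS9 q) = true := by
  decide +kernel

theorem okS9 : ∀ q : Fin 93, chkR (canS9 q) (actS9 q) schN (trS9 q) = true := by
  intro q
  have hq : q.val / 6 < 16 := by omega
  have h : q.val / 6 = 0 ∨ q.val / 6 = 1 ∨ q.val / 6 = 2 ∨ q.val / 6 = 3 ∨ q.val / 6 = 4 ∨ q.val / 6 = 5 ∨ q.val / 6 = 6 ∨ q.val / 6 = 7 ∨ q.val / 6 = 8 ∨ q.val / 6 = 9 ∨ q.val / 6 = 10 ∨ q.val / 6 = 11 ∨ q.val / 6 = 12 ∨ q.val / 6 = 13 ∨ q.val / 6 = 14 ∨ q.val / 6 = 15 := by omega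
  rcases h with h | h | h | h | h | h | h | h | h | h | h | h | h | h | h | h
  · exact okS9_0 q h
  · exact okS9_1 q h
  · exact okS9_2 q h
  · exact okS9_3 q h
  · exact okS9_4 q h
  · exact okS9_5 q h
  · exact okS9_6 q h
  · exact okS9_7 q h
  · exact okS9_8 q h
  · exact okS9_9 q h
  · exact okS9_10 q h
  · exact okS9_11 q h
  · exact okS9_12 q h
  · exact okS9_13 q h
  · exact okS9_14 q h
  · exact okS9_15 q h

end Pool.Agent.Lib_MP_fa6e45
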