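import Pool.Agent.Lib_MP_fa6e45.ZS

/-!
MP_fa6e45_co, stage 2b: up to rotation the classes are one of the canonical patterns (captain; compare V9a).
-/

open Set

namespace Pool.Agent.Lib_MP_fa6e45

private def ZW_A {n : ℕ} [NeZero n] (c : ZMod n → ℕ) : Prop := ∀ i, c ((c i : ℕ) : ZMod n) = c i

private def ZW_B {n : ℕ} [NeZero n] (c : ZMod n → ℕ) : Prop :=
  ∀ i j k : ZMod n, i ≠ j → j ≠ k → i ≠ k → ¬ (c i = c j ∧ c j = c k)

private def ZW_D {n : ℕ} [NeZero n] {M : ℕ} (canon : Fin M → ZMod n → ℕ) (c : ZMod n → ℕ) : Prop :=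
  ∃ k : ZMod n, ∃ m : Fin M, ∀ i j, c (i + k) = c (j + k) ↔ canon m i = canon m j

/-- the class function `c` (least index of the class) is fine -/
private def ZW_P {n : ℕ} [NeZero n] {M : ℕ} (canon : Fin M → ZMod n → ℕ) (c : ZMod n → ℕ) : Prop :=
  ZW_A c → ZW_B c → ZW_D canon c

private instance (c : ZMod 3 → ℕ) : Decidable (ZW_A c) := by unfold ZW_A; infer_instance
private instance (c : ZMod 3 → ℕ) : Decidable (ZW_B c) := by unfold ZW_B; infer_instance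
private instance {M : ℕ} (canon : Fin M → ZMod 3 → ℕ) (c : ZMod 3 → ℕ) : Decidable (ZW_D canon c) := by
  unfold ZW_D; infer_instance
private instance {M : ℕ} (canon : Fin M → ZMod 3 → ℕ) (c : ZMod 3 → ℕ) : Decidable (ZW_P canon c) := by
  unfold ZW_P; infer_instance
private instance (c : ZMod 4 → ℕ) : Decidable (ZW_A c) := by unfold ZW_A; infer_instance
private instance (c : ZMod 4 → ℕ) : Decidable (ZW_B c) := by unfold ZW_B; infer_instance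
private instance {M : ℕ} (canon : Fin M → ZMod 4 → ℕ) (c : ZMod 4 → ℕ) : Decidable (ZW_D canon c) := by
  unfold ZW_D; infer_instance
private instance {M : ℕ} (canon : Fin M → ZMod 4 → ℕ) (c : ZMod 4 → ℕ) : Decidable (ZW_P canon c) := by
  unfold ZW_P; infer_instance
private instance (c : ZMod 5 → ℕ) : Decidable (ZW_A c) := by unfold ZW_A; infer_instance
private instance (c : ZMod 5 → ℕ) : Decidable (ZW_B c) := by unfold ZW_B; infer_instance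
private instance {M : ℕ} (canon : Fin M → ZMod 5 → ℕ) (c : ZMod 5 → ℕ) : Decidable (ZW_D canon c) := by
  unfold ZW_D; infer_instance
private instance {M : ℕ} (canon : Fin M → ZMod 5 → ℕ) (c : ZMod 5 → ℕ) : Decidable (ZW_P canon c) := by
  unfold ZW_P; infer_instance
private instance (c : ZMod 6 → ℕ) : Decidable (ZW_A c) := by unfold ZW_A; infer_instance
private instance (c : ZMod 6 → ℕ) : Decidable (ZW_B c) := by unfold ZW_B; infer_instance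
private instance {M : ℕ} (canon : Fin M → ZMod 6 → ℕ) (c : ZMod 6 → ℕ) : Decidable (ZW_D canon c) := by
  unfold ZW_D; infer_instance
private instance {M : ℕ} (canon : Fin M → ZMod 6 → ℕ) (c : ZMod 6 → ℕ) : Decidable (ZW_P canon c) := by
  unfold ZW_P; infer_instance

private theorem ZW_check3 : ∀ (c0 : Fin 1) (c1 : Fin 2) (c2 : Fin 3),
    ZW_P (n := 3) canC3 ![c0, c1, c2] := by
  decide +kernel

private theorem ZW_check4 : ∀ (c0 : Fin 1) (c1 : Fin 2) (c2 : Fin 3) (c3 : Fin 4),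
    ZW_P (n := 4) canC4 ![c0, c1, c2, c3] := by
  decide +kernel

private theorem ZW_check5 : ∀ (c0 : Fin 1) (c1 : Fin 2) (c2 : Fin 3) (c3 : Fin 4) (c4 : Fin 5),
    ZW_P (n := 5) canC5 ![c0, c1, c2, c3, c4] := by
  decide +kernel

private theorem ZW_check6 : ∀ (c0 : Fin 1) (c1 : Fin 2) (c2 : Fin 3) (c3 : Fin 4) (c4 : Fin 5)
    (c5 : Fin 6), ZW_P (n := 6) canC6 ![c0, c1, c2, c3, c4, c5] := by
  decide +kernel

private theorem ZW_exists {n : ℕ} [NeZero n] (R : ZMod n → ZMod n → Prop)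
    (hr : ∀ i, R i i) (hs : ∀ i j, R i j → R j i) (ht : ∀ i j k, R i j → R j k → R i k) :
    ∃ c : ZMod n → ℕ, (∀ i j, R i j ↔ c i = c j) ∧ (∀ i, c i ≤ i.val) ∧
      ∀ i, c ((c i : ℕ) : ZMod n) = c i := by
  classical
  have hex : ∀ i : ZMod n, ∃ k : ℕ, R i (k : ZMod n) := fun i =>
    ⟨i.val, by rw [ZMod.natCast_zmod_val]; exact hr i⟩
  have hspec : ∀ i, R i ((Nat.find (hex i) : ℕ) : ZMod n) := fun i => Nat.find_spec (hex i)
  have hle : ∀ i j, R i j → Nat.find (hex i) ≤ Nat.find (hex j) := fun i j h =>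
    Nat.find_min' (hex i) (ht _ _ _ h (hspec j))
  have heq : ∀ i j, R i j → Nat.find (hex i) = Nat.find (hex j) := fun i j h =>
    le_antisymm (hle i j h) (hle j i (hs _ _ h))
  refine ⟨fun i => Nat.find (hex i), fun i j => ⟨heq i j, fun h => ?_⟩, fun i => ?_, fun i => ?_⟩
  · have h' : Nat.find (hex i) = Nat.find (hex j) := h
    have h2 := hspec i
    rw [h'] at h2
    exact ht _ _ _ h2 (hs _ _ (hspec j))
  · exact Nat.find_min' (hex i) (by rw [ZMod.natCast_zmod_val]; exact hr i)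
  · exact (heq _ _ (hspec i)).symm

private theorem ZW_concl {n : ℕ} [NeZero n] {M : ℕ} (canon : Fin M → ZMod n → ℕ)
    (R : ZMod n → ZMod n → Prop)
    (h : ∀ i j k : ZMod n, i ≠ j → j ≠ k → i ≠ k → ¬ (R i j ∧ R j k)) (c : ZMod n → ℕ)
    (hc : ∀ i j, R i j ↔ c i = c j) (hcc : ∀ i, c ((c i : ℕ) : ZMod n) = c i)
    (hP : ZW_P canon c) : ∃ k : ZMod n, ∃ m : Fin M, ∀ i j, R (i + k) (j + k) ↔ canon m i = canon m j := by
  obtain ⟨k, m, h1⟩ := hP hcc (fun i j k h1 h2 h3 h4 => h i j k h1 h2 h3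
    ⟨(hc i j).2 h4.1, (hc j k).2 h4.2⟩)
  exact ⟨k, m, fun i j => (hc (i + k) (j + k)).trans (h1 i j)⟩

theorem wlogC3 (R : ZMod 3 → ZMod 3 → Prop)
    (hr : ∀ i, R i i) (hs : ∀ i j, R i j → R j i) (ht : ∀ i j k, R i j → R j k → R i k)
    (h : ∀ i j k : ZMod 3, i ≠ j → j ≠ k → i ≠ k → ¬ (R i j ∧ R j k)) :
    ∃ k : ZMod 3, ∃ m : Fin 2, ∀ i j, R (i + k) (j + k) ↔ canC3 m i = canC3 m j := by
  obtain ⟨c, hc, hle, hcc⟩ := ZW_exists R hr hs ht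
  refine ZW_concl canC3 R h c hc hcc ?_
  have h0 : c 0 < 1 := Nat.lt_succ_of_le (hle 0)
  have h1 : c 1 < 2 := Nat.lt_succ_of_le (hle 1)
  have h2 : c 2 < 3 := Nat.lt_succ_of_le (hle 2)
  have e : c = ![c 0, c 1, c 2] := by
    funext i
    fin_cases i <;> rfl
  rw [e]
  exact ZW_check3 ⟨c 0, h0⟩ ⟨c 1, h1⟩ ⟨c 2, h2⟩

theorem wlogC4 (R : ZMod 4 → ZMod 4 → Prop)
    (hr : ∀ i, R i i) (hs : ∀ i j, R i j → R j i) (ht : ∀ i j k, R i j → R j k → R i k)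
    (h : ∀ i j k : ZMod 4, i ≠ j → j ≠ k → i ≠ k → ¬ (R i j ∧ R j k)) :
    ∃ k : ZMod 4, ∃ m : Fin 5, ∀ i j, R (i + k) (j + k) ↔ canC4 m i = canC4 m j := by
  obtain ⟨c, hc, hle, hcc⟩ := ZW_exists R hr hs ht
  refine ZW_concl canC4 R h c hc hcc ?_
  have h0 : c 0 < 1 := Nat.lt_succ_of_le (hle 0)
  have h1 : c 1 < 2 := Nat.lt_succ_of_le (hle 1)
  have h2 : c 2 < 3 := Nat.lt_succ_of_le (hle 2)
  have h3 : c 3 < 4 := Nat.lt_succ_of_le (hle 3)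
  have e : c = ![c 0, c 1, c 2, c 3] := by
    funext i
    fin_cases i <;> rfl
  rw [e]
  exact ZW_check4 ⟨c 0, h0⟩ ⟨c 1, h1⟩ ⟨c 2, h2⟩ ⟨c 3, h3⟩

theorem wlogC5 (R : ZMod 5 → ZMod 5 → Prop)
    (hr : ∀ i, R i i) (hs : ∀ i j, R i j → R j i) (ht : ∀ i j k, R i j → R j k → R i k)
    (h : ∀ i j k : ZMod 5, i ≠ j → j ≠ k → i ≠ k → ¬ (R i j ∧ R j k)) :
    ∃ k : ZMod 5, ∃ m : Fin 6, ∀ i j, R (i + k) (j + k) ↔ canC5 m i = canC5 m j := by
  obtain ⟨c, hc, hle, hcc⟩ := ZW_exists R hr hs ht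
  refine ZW_concl canC5 R h c hc hcc ?_
  have h0 : c 0 < 1 := Nat.lt_succ_of_le (hle 0)
  have h1 : c 1 < 2 := Nat.lt_succ_of_le (hle 1)
  have h2 : c 2 < 3 := Nat.lt_succ_of_le (hle 2)
  have h3 : c 3 < 4 := Nat.lt_succ_of_le (hle 3)
  have h4 : c 4 < 5 := Nat.lt_succ_of_le (hle 4)
  have e : c = ![c 0, c 1, c 2, c 3, c 4] := by
    funext i
    fin_cases i <;> rfl
  rw [e]
  exact ZW_check5 ⟨c 0, h0⟩ ⟨c 1, h1⟩ ⟨c 2, h2⟩ ⟨c 3, h3⟩ ⟨c 4, h4⟩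

theorem wlogC6 (R : ZMod 6 → ZMod 6 → Prop)
    (hr : ∀ i, R i i) (hs : ∀ i j, R i j → R j i) (ht : ∀ i j k, R i j → R j k → R i k)
    (h : ∀ i j k : ZMod 6, i ≠ j → j ≠ k → i ≠ k → ¬ (R i j ∧ R j k)) :
    ∃ k : ZMod 6, ∃ m : Fin 18, ∀ i j, R (i + k) (j + k) ↔ canC6 m i = canC6 m j := by
  obtain ⟨c, hc, hle, hcc⟩ := ZW_exists R hr hs ht
  refine ZW_concl canC6 R h c hc hcc ?_
  have h0 : c 0 < 1 := Nat.lt_succ_of_le (hle 0)
  have h1 : c 1 < 2 := Nat.lt_succ_of_le (hle 1)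
  have h2 : c 2 < 3 := Nat.lt_succ_of_le (hle 2)
  have h3 : c 3 < 4 := Nat.lt_succ_of_le (hle 3)
  have h4 : c 4 < 5 := Nat.lt_succ_of_le (hle 4)
  have h5 : c 5 < 6 := Nat.lt_succ_of_le (hle 5)
  have e : c = ![c 0, c 1, c 2, c 3, c 4, c 5] := by
    funext i
    fin_cases i <;> rfl
  rw [e]
  exact ZW_check6 ⟨c 0, h0⟩ ⟨c 1, h1⟩ ⟨c 2, h2⟩ ⟨c 3, h3⟩ ⟨c 4, h4⟩ ⟨c 5, h5⟩

end Pool.Agent.Lib_MP_fa6e45
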