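import Pool.Agent.Lib_MP_fa6e45.ZA
import Pool.Agent.Lib_MP_fa6e45.ZW
import Pool.Agent.Lib_MP_fa6e45.ZC3
import Pool.Agent.Lib_MP_fa6e45.ZC4
import Pool.Agent.Lib_MP_fa6e45.ZC5
import Pool.Agent.Lib_MP_fa6e45.ZC6
import Pool.Agent.Lib_MP_fa6e45.Z4
import Pool.Agent.Lib_MP_fa6e45.ZT5
import Pool.Agent.Lib_MP_fa6e45.ZT6
import Pool.Agent.Lib_MP_fa6e45.ZT7
import Pool.Agent.Lib_MP_fa6e45.ZT8
import Pool.Agent.Lib_MP_fa6e45.ZT9
import Pool.Agent.Lib_MP_fa6e45.ZT10
import Pool.Agent.Lib_MP_fa6e45.ZT12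
import Pool.Agent.Lib_MP_fa6e45.EN5
import Pool.Agent.Lib_MP_fa6e45.EN6
import Pool.Agent.Lib_MP_fa6e45.EN7
import Pool.Agent.Lib_MP_fa6e45.EN8
import Pool.Agent.Lib_MP_fa6e45.EN9
import Pool.Agent.Lib_MP_fa6e45.EN10
import Pool.Agent.Lib_MP_fa6e45.EN12
import Pool.Agent.Lib_MP_fa6e45.E1
import Pool.Agent.Lib_MP_fa6e45.E2
import Pool.Agent.Lib_MP_fa6e45.E3
import Pool.Agent.Lib_MP_fa6e45.E5
import Pool.Agent.Lib_MP_fa6e45.G4
import Pool.Agent.Lib_MP_fa6e45.G7
import Pool.Agent.Lib_MP_fa6e45.F10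
import Pool.Agent.Lib_MP_fa6e45.F1
import Pool.Agent.Lib_MP_fa6e45.F6
import Pool.Agent.Lib_MP_fa6e45.L3a
import Pool.Agent.Lib_MP_fa6e45.R1
import Pool.Agent.Lib_MP_fa6e45.V9

/-!
The main theorem of stage 3 (assembly, captain): a polygon without three equal sides which admits an edge-to-edge
tiling admits a periodic tiling.
-/

open Set MeasureTheory Complex
open scoped Topology

namespace Pool.Agent.Lib_MP_fa6e45

open Pool.Agent.Lib_PL (cr InSector Poly)

variable {n : ℕ} {P : Polygon n} {ι : Type}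

/-- there is a class function -/
private theorem GF_cls {m : ℕ} [NeZero m] {R act : ZMod m → ZMod m → Prop} (H : SAx R act) :
    ∃ c : ZMod m → ℕ, ∀ i j, R i j ↔ c i = c j := by
  classical
  have hex : ∀ i : ZMod m, ∃ k : ℕ, R i (k : ZMod m) := fun i =>
    ⟨i.val, by rw [ZMod.natCast_zmod_val]; exact H.refl i⟩
  have hspec : ∀ i, R i ((Nat.find (hex i) : ℕ) : ZMod m) := fun i => Nat.find_spec (hex i)
  have hle : ∀ i j, R i j → Nat.find (hex i) ≤ Nat.find (hex j) := fun i j h =>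
    Nat.find_min' (hex i) (H.trans _ _ _ h (hspec j))
  have heq : ∀ i j, R i j → Nat.find (hex i) = Nat.find (hex j) := fun i j h =>
    le_antisymm (hle i j h) (hle j i (H.symm _ _ h))
  refine ⟨fun i => Nat.find (hex i), fun i j => ⟨heq i j, fun h => ?_⟩⟩
  have h' : Nat.find (hex i) = Nat.find (hex j) := h
  have h2 := hspec i
  rw [h'] at h2
  exact H.trans _ _ _ h2 (H.symm _ _ (hspec j))

/-- the data of the reduction to arcs between the marked corners -/
structure MData {n : ℕ} [NeZero n] (P : Polygon n) {ι : Type} (K : CombA n P.ang P.len ι)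
    (μ : Mean K) {m : ℕ} [NeZero m] (S : Arcs P m) : Prop where
  five : 5 ≤ n
  len : P.NoThreeEqual
  marks : Marks μ S
  inj : Function.Injective S.κ
  three : 3 ≤ m
  sum : ∑ j, P.ang (S.κ j) = ((m : ℝ) - 2) * Real.pi

section
variable [NeZero n] {K : CombA n P.ang P.len ι} {μ : Mean K} {m : ℕ} [NeZero m] {S : Arcs P m}

private theorem GF_shift (D : MData P K μ S) (p : ZMod m) : MData P K μ (S.shift p) where
  five := D.five
  len := D.len
  marks := D.marks.shift p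
  inj := fun i j h => add_right_cancel (D.inj h)
  three := D.three
  sum := (Equiv.sum_comp (Equiv.addRight p) fun j => P.ang (S.κ j)).trans D.sum

/-- no active pairs -/
private theorem GF_none (D : MData P K μ S) (h0 : ∀ i j, ¬ μ.Act (S.κ i) (S.κ j))
    {M : ℕ} {can : Fin M → ZMod m → ℕ} {tab : ℕ → Sch} {tr : Fin M → Tr}
    (hw : ∀ R : ZMod m → ZMod m → Prop, (∀ i, R i i) → (∀ i j, R i j → R j i) →
      (∀ i j k, R i j → R j k → R i k) →
      (∀ i j k : ZMod m, i ≠ j → j ≠ k → i ≠ k → ¬ (R i j ∧ R j k)) →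
      ∃ k : ZMod m, ∃ q : Fin M, ∀ i j, R (i + k) (j + k) ↔ can q i = can q j)
    (ok : ∀ q, chk (can q) tab (tr q) (fun _ => Ty.U)
      [(List.replicate m 1, (m : ℤ) - 2)] none = true)
    (happ : ∀ (S : Arcs P m) (b : ZMod m → ℝ), S.ChordAng b → Applies tab b S.Rel →
      HasPeriodic P) : HasPeriodic P := by
  have H := sax_of μ D.five D.len S D.marks D.inj D.three
  obtain ⟨k, q, hq⟩ := hw _ H.refl H.symm H.trans H.two
  have D' := GF_shift D k
  have hcls : ∀ i j, (i = j ∨ ∃ b, (S.shift k).Rel i j b) ↔ can q i = can q j := by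
    intro i j
    rw [← hq i j]
    exact or_congr (add_left_inj k).symm Iff.rfl
  obtain ⟨b, hb, M⟩ := mdlf_of μ D'.five D'.len (S.shift k) D'.marks D'.inj D'.three D'.sum
    (can q) hcls
  exact happ (S.shift k) b hb (check (M.mdl fun i j => h0 (i + k) (j + k)) tab (tr q) (ok q))

/-- with active pairs -/
private theorem GF_act (hc : P.CCW) (D : MData P K μ S) {M : ℕ} {can : Fin M → ZMod m → ℕ}
    {al : Fin M → List (ℕ × ℕ)} {tab : ℕ → Sch} {tr : Fin M → Tr2}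
    (ok : ∀ q, chkR (can q) (al q) tab (tr q) = true)
    (happ : ∀ (S : Arcs P m) (b : ZMod m → ℝ), S.ChordAng b → Applies tab b S.Rel →
      HasPeriodic P) (k : ZMod m) (q : Fin M)
    (hR : ∀ i j : ZMod m, (i + k = j + k ∨ ∃ b, S.Rel (i + k) (j + k) b) ↔ can q i = can q j)
    (hact : ∀ i j : ZMod m, μ.Act (S.κ (i + k)) (S.κ (j + k)) ↔
      actB (al q) i.val j.val = true) : HasPeriodic P := by
  have D' := GF_shift D k
  have hcls : ∀ i j, (i = j ∨ ∃ b, (S.shift k).Rel i j b) ↔ can q i = can q j := by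
    intro i j
    rw [← hR i j]
    exact or_congr (add_left_inj k).symm Iff.rfl
  obtain ⟨b, hb, M⟩ := mdlf_of μ D'.five D'.len (S.shift k) D'.marks D'.inj D'.three D'.sum
    (can q) hcls
  rcases check2 M hact tab (tr q) (ok q) with h1 | h1
  · exact happ (S.shift k) b hb h1
  · exact appM hc D'.len (S.shift k) h1

private theorem GF_schN (S : Arcs P m) (b : ZMod m → ℝ) (_ : S.ChordAng b)
    (h : Applies schN b S.Rel) : HasPeriodic P := by
  obtain ⟨k, p, -, he⟩ := h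
  exact (holds_nil (he _ (List.mem_singleton.2 rfl))).elim

private theorem GF_cnt (D : MData P K μ S) : Cnt (fun i j => μ.Act (S.κ i) (S.κ j)) ∧
    ∀ i j, μ.Act (S.κ i) (S.κ j) → 5 ≤ m := by
  have H := sax_of μ D.five D.len S D.marks D.inj D.three
  obtain ⟨c, hc⟩ := GF_cls H
  obtain ⟨b, -, M⟩ := mdlf_of μ D.five D.len S D.marks D.inj D.three D.sum c hc
  exact ⟨cnt_of M H D.three, fun i j h => five_le M H D.three h⟩

/-- without active pairs there are at most six marks -/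
private theorem GF_six (D : MData P K μ S) (h0 : ∀ i j, ¬ μ.Act (S.κ i) (S.κ j)) : m ≤ 6 := by
  obtain ⟨h1, -⟩ := GF_cnt D
  have h2 := h1.total
  have h3 := h1.le_six
  have h4 : {i | Dbl (fun i j => μ.Act (S.κ i) (S.κ j)) i} = (∅ : Set (ZMod m)) := by
    ext i
    simp only [mem_setOf_eq, mem_empty_iff_false, iff_false]
    rintro ⟨j, k, -, h5, -⟩
    exact h0 i j h5
  have h5 : {i | Fre (fun i j => μ.Act (S.κ i) (S.κ j)) i} = (∅ : Set (ZMod m)) := by
    ext i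
    simp only [mem_setOf_eq, mem_empty_iff_false, iff_false]
    rintro ⟨j, h5, -⟩
    exact h0 i j h5
  rw [h4, h5, Set.ncard_empty] at h2
  rw [h4, Set.ncard_empty] at h3
  omega

end

private theorem GF_5 [NeZero n] (hc : P.CCW) {K : CombA n P.ang P.len ι} {μ : Mean K}
    {S : Arcs P 5} (D : MData P K μ S) (hex : ∃ i j, μ.Act (S.κ i) (S.κ j)) : HasPeriodic P := by
  have H := sax_of μ D.five D.len S D.marks D.inj D.three
  obtain ⟨k, q, hq, h1, h2⟩ := enum_sound (by norm_num) (by norm_num) H (GF_cnt D).1 hex enumS5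
  exact GF_act hc D (can := canS5) (al := actS5) okS5 (app5 hc) k ⟨q, hq⟩ h1 h2

private theorem GF_6 [NeZero n] (hc : P.CCW) {K : CombA n P.ang P.len ι} {μ : Mean K}
    {S : Arcs P 6} (D : MData P K μ S) (hex : ∃ i j, μ.Act (S.κ i) (S.κ j)) : HasPeriodic P := by
  have H := sax_of μ D.five D.len S D.marks D.inj D.three
  obtain ⟨k, q, hq, h1, h2⟩ := enum_sound (by norm_num) (by norm_num) H (GF_cnt D).1 hex enumS6
  exact GF_act hc D (can := canS6) (al := actS6) okS6 (app6 hc) k ⟨q, hq⟩ h1 h2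

private theorem GF_7 [NeZero n] (hc : P.CCW) {K : CombA n P.ang P.len ι} {μ : Mean K}
    {S : Arcs P 7} (D : MData P K μ S) (hex : ∃ i j, μ.Act (S.κ i) (S.κ j)) : HasPeriodic P := by
  have H := sax_of μ D.five D.len S D.marks D.inj D.three
  obtain ⟨k, q, hq, h1, h2⟩ := enum_sound (by norm_num) (by norm_num) H (GF_cnt D).1 hex enumS7
  exact GF_act hc D (can := canS7) (al := actS7) okS7 (GF_schN) k ⟨q, hq⟩ h1 h2

private theorem GF_8 [NeZero n] (hc : P.CCW) {K : CombA n P.ang P.len ι} {μ : Mean K}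
    {S : Arcs P 8} (D : MData P K μ S) (hex : ∃ i j, μ.Act (S.κ i) (S.κ j)) : HasPeriodic P := by
  have H := sax_of μ D.five D.len S D.marks D.inj D.three
  obtain ⟨k, q, hq, h1, h2⟩ := enum_sound (by norm_num) (by norm_num) H (GF_cnt D).1 hex enumS8
  exact GF_act hc D (can := canS8) (al := actS8) okS8 (GF_schN) k ⟨q, hq⟩ h1 h2

private theorem GF_9 [NeZero n] (hc : P.CCW) {K : CombA n P.ang P.len ι} {μ : Mean K}
    {S : Arcs P 9} (D : MData P K μ S) (hex : ∃ i j, μ.Act (S.κ i) (S.κ j)) : HasPeriodic P := by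
  have H := sax_of μ D.five D.len S D.marks D.inj D.three
  obtain ⟨k, q, hq, h1, h2⟩ := enum_sound (by norm_num) (by norm_num) H (GF_cnt D).1 hex enumS9
  exact GF_act hc D (can := canS9) (al := actS9) okS9 (GF_schN) k ⟨q, hq⟩ h1 h2

private theorem GF_10 [NeZero n] (hc : P.CCW) {K : CombA n P.ang P.len ι} {μ : Mean K}
    {S : Arcs P 10} (D : MData P K μ S) (hex : ∃ i j, μ.Act (S.κ i) (S.κ j)) : HasPeriodic P := by
  have H := sax_of μ D.five D.len S D.marks D.inj D.three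
  obtain ⟨⟨c, j, k, hjk, hj, hk⟩, -⟩ :=
    (le_twelve H (GF_cnt D).1 (by norm_num)).2.2 (by norm_num)
  obtain ⟨p, hp1, hp2, hp3⟩ := block H (by norm_num) hj hk hjk
  have D' := GF_shift D p
  have H' := sax_of μ D'.five D'.len (S.shift p) D'.marks D'.inj D'.three
  have hex' : ∃ i j, μ.Act ((S.shift p).κ i) ((S.shift p).κ j) := by
    obtain ⟨i, j, h⟩ := hex
    refine ⟨i - p, j - p, ?_⟩
    change μ.Act (S.κ (i - p + p)) (S.κ (j - p + p))
    rw [sub_add_cancel, sub_add_cancel]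
    exact h
  have e1 : ∀ x y : ZMod 10, (x + p = y + p ∨ ∃ b, S.Rel (x + p) (y + p) b) →
      (x = y ∨ ∃ b, (S.shift p).Rel x y b) := fun x y h =>
    h.imp (fun h => add_right_cancel h) id
  have r1 := e1 0 2 (by rw [zero_add, add_comm 2 p]; exact hp1)
  have r2 := e1 1 3 (by rw [add_comm 1 p, add_comm 3 p]; exact hp2)
  have r3 : ¬ ((0 : ZMod 10) = 1 ∨ ∃ b, (S.shift p).Rel 0 1 b) := by
    have h1 : ∃ y, μ.Act (S.κ (p + 1)) (S.κ y) := by
      rcases (hp3 (p + 1)).2 (Or.inl rfl) with h2 | h2 | h2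
      · exact ⟨j, h2 ▸ hj⟩
      · exact ⟨c, h2 ▸ H.asymm _ _ hj⟩
      · exact ⟨c, h2 ▸ H.asymm _ _ hk⟩
    obtain ⟨y, hy⟩ := h1
    have h2 := H.side _ _ hy
    rintro (h3 | ⟨b, h3⟩)
    · exact absurd h3 (by decide)
    · refine h2 (Or.inr ⟨b, ?_⟩)
      have h4 : S.Rel (0 + p) (1 + p) b := h3
      rw [zero_add, add_comm 1 p] at h4
      rw [add_sub_cancel_right]
      exact h4
  obtain ⟨k, q, hq, h1, h2⟩ := enum_sound4 (by norm_num) (by norm_num) H' (GF_cnt D').1 hex' r1 r2 r3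
    enumS10
  exact GF_act hc D' (can := canS10) (al := actS10) okS10 GF_schN k ⟨q, hq⟩ h1 h2

private theorem GF_12 [NeZero n] (hc : P.CCW) {K : CombA n P.ang P.len ι} {μ : Mean K}
    {S : Arcs P 12} (D : MData P K μ S) (hex : ∃ i j, μ.Act (S.κ i) (S.κ j)) : HasPeriodic P := by
  have H := sax_of μ D.five D.len S D.marks D.inj D.three
  obtain ⟨⟨c, j, k, hjk, hj, hk⟩, -⟩ :=
    (le_twelve H (GF_cnt D).1 (by norm_num)).2.2 (by norm_num)
  obtain ⟨p, hp1, hp2, hp3⟩ := block H (by norm_num) hj hk hjk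
  have D' := GF_shift D p
  have H' := sax_of μ D'.five D'.len (S.shift p) D'.marks D'.inj D'.three
  have hex' : ∃ i j, μ.Act ((S.shift p).κ i) ((S.shift p).κ j) := by
    obtain ⟨i, j, h⟩ := hex
    refine ⟨i - p, j - p, ?_⟩
    change μ.Act (S.κ (i - p + p)) (S.κ (j - p + p))
    rw [sub_add_cancel, sub_add_cancel]
    exact h
  have e1 : ∀ x y : ZMod 12, (x + p = y + p ∨ ∃ b, S.Rel (x + p) (y + p) b) →
      (x = y ∨ ∃ b, (S.shift p).Rel x y b) := fun x y h =>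
    h.imp (fun h => add_right_cancel h) id
  have r1 := e1 0 2 (by rw [zero_add, add_comm 2 p]; exact hp1)
  have r2 := e1 1 3 (by rw [add_comm 1 p, add_comm 3 p]; exact hp2)
  have r3 : ¬ ((0 : ZMod 12) = 1 ∨ ∃ b, (S.shift p).Rel 0 1 b) := by
    have h1 : ∃ y, μ.Act (S.κ (p + 1)) (S.κ y) := by
      rcases (hp3 (p + 1)).2 (Or.inl rfl) with h2 | h2 | h2
      · exact ⟨j, h2 ▸ hj⟩
      · exact ⟨c, h2 ▸ H.asymm _ _ hj⟩
      · exact ⟨c, h2 ▸ H.asymm _ _ hk⟩
    obtain ⟨y, hy⟩ := h1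
    have h2 := H.side _ _ hy
    rintro (h3 | ⟨b, h3⟩)
    · exact absurd h3 (by decide)
    · refine h2 (Or.inr ⟨b, ?_⟩)
      have h4 : S.Rel (0 + p) (1 + p) b := h3
      rw [zero_add, add_comm 1 p] at h4
      rw [add_sub_cancel_right]
      exact h4
  obtain ⟨k, q, hq, h1, h2⟩ := enum_sound4 (by norm_num) (by norm_num) H' (GF_cnt D').1 hex' r1 r2 r3
    enumS12
  exact GF_act hc D' (can := canS12) (al := actS12) okS12 GF_schN k ⟨q, hq⟩ h1 h2

/-- polygons with at least five corners -/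
theorem five_periodic [NeZero n] (hc : P.CCW) (hn : 5 ≤ n) (hl : P.NoThreeEqual)
    (K : CombA n P.ang P.len ι) : HasPeriodic P := by
  obtain ⟨μ⟩ := K.exists_mean
  obtain ⟨m, hm, S, hm3, hκ, hS, hsum⟩ := μ.marks_exist
  have D : MData P K μ S := ⟨hn, hl, hS, hκ, hm3, hsum⟩
  by_cases hex : ∃ i j, μ.Act (S.κ i) (S.κ j)
  · obtain ⟨h1, h2⟩ := GF_cnt D
    obtain ⟨i, j, hij⟩ := hex
    have h5 := h2 i j hij
    have H := sax_of μ D.five D.len S D.marks D.inj D.three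
    obtain ⟨h3, h4, -⟩ := le_twelve H h1 h5
    have hex : ∃ i j, μ.Act (S.κ i) (S.κ j) := ⟨i, j, hij⟩
    clear h1 h2 H hij i j hsum hκ hS hm3
    have h6 : m = 5 ∨ m = 6 ∨ m = 7 ∨ m = 8 ∨ m = 9 ∨ m = 10 ∨ m = 12 := by omega
    rcases h6 with rfl | rfl | rfl | rfl | rfl | rfl | rfl
    · exact GF_5 hc D hex
    · exact GF_6 hc D hex
    · exact GF_7 hc D hex
    · exact GF_8 hc D hex
    · exact GF_9 hc D hex
    · exact GF_10 hc D hex
    · exact GF_12 hc D hex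
  · have h0 : ∀ i j, ¬ μ.Act (S.κ i) (S.κ j) := fun i j h => hex ⟨i, j, h⟩
    have h6 := GF_six D h0
    clear hex hsum hκ hS
    have h7 : m = 3 ∨ m = 4 ∨ m = 5 ∨ m = 6 := by omega
    rcases h7 with rfl | rfl | rfl | rfl
    · exact GF_none D h0 wlogC3 ok3 (app3 hc)
    · exact GF_none D h0 wlogC4 ok4 (app4 hc)
    · exact GF_none D h0 wlogC5 ok5 (app5 hc)
    · exact GF_none D h0 wlogC6 ok6 (app6 hc)

theorem main5_ccw (P : Polygon n) (hc : P.CCW) {𝒮 : Set (Set ℂ)} (h : P.IsTiling 𝒮)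
    (he : P.EdgeToEdge 𝒮) (hl : P.NoThreeEqual) :
    ∃ 𝒯 : Set (Set ℂ), P.IsTiling 𝒯 ∧ Periodic 𝒯 := by
  have h3 := P.three_le
  haveI : NeZero n := ⟨by omega⟩
  by_cases h5 : 5 ≤ n
  · obtain ⟨T⟩ := exists_til P h he
    obtain ⟨K, -⟩ := T.combA hc
    exact five_periodic hc h5 hl K
  · have h7 : n = 3 ∨ n = 4 := by omega
    rcases h7 with h1 | h1
    · subst h1
      exact tri P hc
    · subst h1
      exact quad P hc

/-- a polygon without three equal sides which admits an edge-to-edge tiling admits a periodic tiling -/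
theorem main5_thm (P : Polygon n) {𝒮 : Set (Set ℂ)} (h : P.IsTiling 𝒮)
    (he : P.EdgeToEdge 𝒮) (hl : P.NoThreeEqual) :
    ∃ 𝒯 : Set (Set ℂ), P.IsTiling 𝒯 ∧ Periodic 𝒯 := by
  rcases P.ccw_or with hc | hc
  · exact main5_ccw P hc h he hl
  have hT : ∀ 𝒯 : Set (Set ℂ), P.rev.IsTiling 𝒯 ↔ P.IsTiling 𝒯 := by
    intro 𝒯
    constructor
    · rintro ⟨h1, h2, h3⟩
      exact ⟨fun t ht => by simpa only [P.rev_region] using h1 t ht, h2, h3⟩
    · rintro ⟨h1, h2, h3⟩
      exact ⟨fun t ht => by simpa only [P.rev_region] using h1 t ht, h2, h3⟩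
  have hE : P.rev.EdgeToEdge 𝒮 := by
    intro g k hg hk i j
    rw [P.rev_region] at hg hk
    have h1 := he g k hg hk (-i) (-j - 1)
    rw [openSegment_symm] at h1
    have e1 : -j - 1 + 1 = -j := by ring
    have e2 : -(j + 1) = -j - 1 := by ring
    rw [e1] at h1
    change g (P.vertex (-i)) ∉ openSegment ℝ (k (P.vertex (-j))) (k (P.vertex (-(j + 1))))
    rw [e2]
    exact h1
  obtain ⟨𝒯, h1, h2⟩ := main5_ccw P.rev hc ((hT 𝒮).2 h) hE (P.rev_noThree hl)
  exact ⟨𝒯, (hT 𝒯).1 h1, h2⟩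

end Pool.Agent.Lib_MP_fa6e45
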