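import Pool.Agent.Lib_MP_fa6e45.HC0
import Pool.Agent.Lib_MP_fa6e45.F8c

/-!
PIECE H1 (about 300 lines): `Sit` from a tiling. Adapt F8a, F8b, F8c (and F7) to single sides: instead of `Arcs`, `Marks`,
`Rigid`, `TGood` take all corners (`S.κ = id`, `w = 1`); every step around a vertex glues sides of equal length
(`K.len`), `K.flip` replaces `arc_walk2`. Only `b = a`, so no `σ`, `ε`. The condition on the codes is not needed in
`StarS`. A star of two corners occurs (almost everywhere) only for active pairs (`Mean.ae_act`, see `F8c_good`).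
`LPS1` from `μ.avg1`, `LPS2` from `μ.avg2`, `sum` from `Mean.act_ang`.
-/

open Set MeasureTheory Complex
open scoped Topology

namespace Pool.Agent.Lib_MP_fa6e45

open Pool.Agent.Lib_PL (cr InSector Poly)

variable {n : ℕ} [NeZero n] {P : Polygon n} {ι : Type}

/-! ### Crossings and tiles -/

/-- a corner of the tiling as a corner of the polygon with its flag -/
private def H1_fl (K : CombA n P.ang P.len ι) (c : ι × ZMod n) : ZMod n × Bool := (c.2, K.rf c.1)

/-- value of `A` at the crossing from `c` to the next corner -/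
private def H1_cross (K : CombA n P.ang P.len ι) (A : ZMod n × Bool → ZMod n × Bool → ℝ)
    (c : ι × ZMod n) : ℝ :=
  A (exW (H1_fl K c)) (enW (H1_fl K (K.nx c)))

omit [NeZero n] in
private theorem H1_enS_bwd (rf : ι → Bool) (c : ι × ZMod n) : enS rf (bwd rf c) = exS rf c := by
  unfold enS bwd exS
  cases h : rf c.1 <;> simp

omit [NeZero n] in
private theorem H1_exS_fwd (rf : ι → Bool) (c : ι × ZMod n) : exS rf (fwd rf c) = enS rf c := by
  unfold enS fwd exS
  cases h : rf c.1 <;> simp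

private theorem H1_exW (K : CombA n P.ang P.len ι) (c : ι × ZMod n) :
    exW (H1_fl K c) = (exS K.rf c, K.rf c.1) := rfl

private theorem H1_enW (K : CombA n P.ang P.len ι) (c : ι × ZMod n) :
    enW (H1_fl K c) = (enS K.rf c, K.rf c.1) := rfl

private theorem H1_cross_bwd (K : CombA n P.ang P.len ι)
    (A : ZMod n × Bool → ZMod n × Bool → ℝ) (hA : ∀ x y, A y x = -A x y) (c : ι × ZMod n) :
    H1_cross K A (K.nx.symm (bwd K.rf c)) = -H1_cross K A c := by
  have h1 : K.nx.symm (bwd K.rf c) = fwd K.rf (K.nx c) := by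
    rw [← K.flip c]
    simp
  unfold H1_cross
  rw [Equiv.apply_symm_apply, h1, H1_exW, H1_enW, H1_exW, H1_enW, H1_enS_bwd, H1_exS_fwd, ← hA]
  rfl

private theorem H1_sum_bwd (K : CombA n P.ang P.len ι) (g : ι × ZMod n → ℝ) (t : ι) :
    ∑ i, g (bwd K.rf (t, i)) = ∑ i, g (t, i) := by
  unfold bwd
  cases h : K.rf t
  · simp only [h]
    exact Equiv.sum_comp (Equiv.subRight (1 : ZMod n)) (fun i => g (t, i))
  · simp only [h]
    exact Equiv.sum_comp (Equiv.addRight (1 : ZMod n)) (fun i => g (t, i))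

private theorem H1_tile (K : CombA n P.ang P.len ι) (A : ZMod n × Bool → ZMod n × Bool → ℝ)
    (hA : ∀ x y, A y x = -A x y) (t : ι) :
    ∑ i, H1_cross K A (K.nx.symm (t, i)) = -∑ i, H1_cross K A (t, i) := by
  rw [← H1_sum_bwd K (fun c => H1_cross K A (K.nx.symm c)) t, ← Finset.sum_neg_distrib]
  exact Finset.sum_congr rfl fun i _ => H1_cross_bwd K A hA (t, i)

/-! ### Stars -/

private theorem H1_period (K : CombA n P.ang P.len ι) (c : ι × ZMod n) :
    K.nx^[K.toComb.deg c] c = c := Function.iterate_minimalPeriod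

private theorem H1_star_shift (K : CombA n P.ang P.len ι) (g : ι × ZMod n → ℝ)
    (c : ι × ZMod n) :
    ∑ k ∈ Finset.range (K.toComb.deg c), g (K.nx^[k + 1] c) =
      ∑ k ∈ Finset.range (K.toComb.deg c), g (K.nx^[k] c) := by
  obtain ⟨d, hd⟩ : ∃ d, K.toComb.deg c = d + 1 :=
    Nat.exists_eq_succ_of_ne_zero (K.deg_pos c).ne'
  have h := H1_period K c
  rw [hd] at h
  rw [hd, Finset.sum_range_succ, Finset.sum_range_succ' (fun k => g (K.nx^[k] c))]
  congr 1
  rw [h]
  rfl

private theorem H1_star_symm (K : CombA n P.ang P.len ι) (g : ι × ZMod n → ℝ)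
    (c : ι × ZMod n) :
    ∑ k ∈ Finset.range (K.toComb.deg c), g (K.nx.symm (K.nx^[k] c)) =
      ∑ k ∈ Finset.range (K.toComb.deg c), g (K.nx^[k] c) := by
  rw [← H1_star_shift K (fun c => g (K.nx.symm c)) c]
  refine Finset.sum_congr rfl fun k _ => ?_
  rw [Function.iterate_succ_apply', Equiv.symm_apply_apply]

private theorem H1_abs_le {T : Type} [Fintype T] (f : T → ℝ) (x : T) : |f x| ≤ ∑ y, |f y| :=
  Finset.single_le_sum (f := fun y => |f y|) (fun y _ => abs_nonneg (f y)) (Finset.mem_univ x)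

private theorem H1_cross_le (K : CombA n P.ang P.len ι) (A : ZMod n × Bool → ZMod n × Bool → ℝ)
    (c : ι × ZMod n) :
    |H1_cross K A c| ≤ ∑ p : (ZMod n × Bool) × (ZMod n × Bool), |A p.1 p.2| :=
  H1_abs_le (fun p : (ZMod n × Bool) × (ZMod n × Bool) => A p.1 p.2)
    (exW (H1_fl K c), enW (H1_fl K (K.nx c)))

/-- the test function -/
private noncomputable def H1_g (K : CombA n P.ang P.len ι) (v : ZMod n → ℝ)
    (A : ZMod n × Bool → ZMod n × Bool → ℝ) (L : ℝ) (c : ι × ZMod n) : ℝ :=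
  L * P.ang c.2 / (2 * Real.pi) - v c.2 -
    (H1_cross K A c + H1_cross K A (K.nx.symm c)) / 2

private theorem H1_g_bd (K : CombA n P.ang P.len ι) (v : ZMod n → ℝ)
    (A : ZMod n × Bool → ZMod n × Bool → ℝ) (L : ℝ) : Bd (H1_g K v A L) := by
  refine ⟨|L| + ∑ i, |v i| + ∑ p : (ZMod n × Bool) × (ZMod n × Bool), |A p.1 p.2|, fun c => ?_⟩
  have hpi := Real.pi_pos
  have h1 : |L * P.ang c.2 / (2 * Real.pi)| ≤ |L| := by
    rw [mul_div_assoc, abs_mul]
    have h2 : |P.ang c.2 / (2 * Real.pi)| ≤ 1 := by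
      rw [abs_of_pos (div_pos (K.a_pos _) (by positivity)), div_le_one (by positivity)]
      exact (K.a_lt _).le
    calc |L| * |P.ang c.2 / (2 * Real.pi)| ≤ |L| * 1 :=
          mul_le_mul_of_nonneg_left h2 (abs_nonneg L)
      _ = |L| := mul_one _
  have h2 : |v c.2| ≤ ∑ i, |v i| := H1_abs_le v c.2
  have h3 := H1_cross_le K A c
  have h4 := H1_cross_le K A (K.nx.symm c)
  unfold H1_g
  rw [abs_le] at *
  constructor <;> linarith [h1.1, h1.2, h2.1, h2.2, h3.1, h3.2, h4.1, h4.2]

private theorem H1_g_tile (K : CombA n P.ang P.len ι) (v : ZMod n → ℝ)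
    (A : ZMod n × Bool → ZMod n × Bool → ℝ) (hA : ∀ x y, A y x = -A x y) (L : ℝ) (t : ι) :
    ∑ i, H1_g K v A L (t, i) = ((n : ℝ) - 2) * L / 2 - ∑ i, v i := by
  have hpi := Real.pi_pos
  have h3 := H1_tile K A hA t
  have h5 := K.a_sum
  unfold H1_g
  simp only
  rw [Finset.sum_sub_distrib, Finset.sum_sub_distrib, ← Finset.sum_div, ← Finset.sum_div,
    ← Finset.mul_sum, Finset.sum_add_distrib, h3, h5]
  field_simp
  ring

private theorem H1_g_star (K : CombA n P.ang P.len ι) (v : ZMod n → ℝ)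
    (A : ZMod n × Bool → ZMod n × Bool → ℝ) (L : ℝ) (c : ι × ZMod n) :
    ∑ k ∈ Finset.range (K.toComb.deg c), H1_g K v A L (K.nx^[k] c) =
      L - ∑ k ∈ Finset.range (K.toComb.deg c), (v (H1_fl K (K.nx^[k] c)).1 +
        A (exW (H1_fl K (K.nx^[k] c))) (enW (H1_fl K (K.nx^[k + 1] c)))) := by
  have hpi := Real.pi_pos
  have h2 : ∑ k ∈ Finset.range (K.toComb.deg c), P.ang (K.nx^[k] c).2 = 2 * Real.pi := K.sum c
  have h3 := H1_star_symm K (H1_cross K A) c
  have h4 : ∑ k ∈ Finset.range (K.toComb.deg c), (v (H1_fl K (K.nx^[k] c)).1 +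
        A (exW (H1_fl K (K.nx^[k] c))) (enW (H1_fl K (K.nx^[k + 1] c)))) =
      ∑ k ∈ Finset.range (K.toComb.deg c), v (K.nx^[k] c).2 +
        ∑ k ∈ Finset.range (K.toComb.deg c), H1_cross K A (K.nx^[k] c) := by
    rw [← Finset.sum_add_distrib]
    refine Finset.sum_congr rfl fun k _ => ?_
    unfold H1_cross
    rw [Function.iterate_succ_apply']
    rfl
  rw [h4]
  unfold H1_g
  rw [Finset.sum_sub_distrib, Finset.sum_sub_distrib, ← Finset.sum_div, ← Finset.sum_div,
    ← Finset.mul_sum, Finset.sum_add_distrib, h2, h3]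
  have h5 : L * (2 * Real.pi) / (2 * Real.pi) = L := by field_simp
  rw [h5]
  ring

/-! ### Lists along a sequence -/

private def H1list {α : Type} (x : ℕ → α) : ℕ → ℕ → List α
  | _, 0 => []
  | i, d + 1 => x (i + 1) :: H1list x (i + 1) d

private theorem H1list_length {α : Type} (x : ℕ → α) (d i : ℕ) : (H1list x i d).length = d := by
  induction d generalizing i with
  | zero => rfl
  | succ d ih => simp [H1list, ih]

private theorem H1list_pth {α : Type} {R : α → α → Prop} (x : ℕ → α)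
    (h : ∀ k, R (x k) (x (k + 1))) (d i : ℕ) : Pth R (x i) (H1list x i d) (x (i + d + 1)) := by
  induction d generalizing i with
  | zero => exact h i
  | succ d ih =>
    refine ⟨h i, ?_⟩
    have := ih (i + 1)
    rwa [show i + 1 + d + 1 = i + (d + 1) + 1 by ring] at this

private theorem H1list_cost {α M : Type} [AddCommMonoid M] (f : α → α → M) (x : ℕ → α) (d i : ℕ) :
    pcost f (x i) (H1list x i d) (x (i + d + 1)) =
      ∑ k ∈ Finset.range (d + 1), f (x (i + k)) (x (i + k + 1)) := by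
  induction d generalizing i with
  | zero => simp [H1list, pcost]
  | succ d ih =>
    have := ih (i + 1)
    rw [show i + 1 + d + 1 = i + (d + 1) + 1 by ring] at this
    change f (x i) (x (i + 1)) + pcost f (x (i + 1)) (H1list x (i + 1) d) (x (i + (d + 1) + 1)) = _
    rw [this, Finset.sum_range_succ' (fun k => f (x (i + k)) (x (i + k + 1))) (d + 1),
      add_comm (f (x i) (x (i + 1)))]
    congr 1
    exact Finset.sum_congr rfl fun k _ => by
      rw [show i + 1 + k = i + (k + 1) by ring]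

private theorem H1list_sum {α : Type} (g : α → ℝ) (x : ℕ → α) (d i : ℕ) :
    ((H1list x i d).map g).sum = ∑ k ∈ Finset.range d, g (x (i + 1 + k)) := by
  induction d generalizing i with
  | zero => simp [H1list]
  | succ d ih =>
    rw [Finset.sum_range_succ', H1list, List.map_cons, List.sum_cons, ih, add_comm]
    congr 1
    exact Finset.sum_congr rfl fun k _ => by
      rw [show i + 1 + 1 + k = i + 1 + (k + 1) by ring]

/-! ### The star of a good corner -/

private theorem H1_good {K : CombA n P.ang P.len ι} (μ : Mean K) : μ.AE fun c => ∀ k : ℕ,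
    K.toComb.deg (K.nx^[k] c) = 2 → μ.Act (K.nx^[k] c).2 (K.nx^[k + 1] c).2 := by
  have h1 := (μ.ae_act).star
  refine h1.mono fun c hc k h => ?_
  rw [Function.iterate_succ_apply']
  exact hc k h

private theorem H1_step {K : CombA n P.ang P.len ι} (cls : ZMod n → ℕ)
    (hcls : ∀ j k, cls j = cls k ↔ P.len j = P.len k) (c : ι × ZMod n) :
    StepG (GC cls) (H1_fl K c) (H1_fl K (K.nx c)) := by
  change cls (exS K.rf c) = cls (enS K.rf (K.nx c))
  exact (hcls _ _).2 (K.len c).symm

private theorem H1_star {K : CombA n P.ang P.len ι} (μ : Mean K) (cls : ZMod n → ℕ)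
    (hcls : ∀ j k, cls j = cls k ↔ P.len j = P.len k) (act : List (ℕ × ℕ))
    (hact : ∀ i j : ZMod n, actB act i.val j.val = true ↔ μ.Act i j) (c : ι × ZMod n)
    (hc : ∀ k : ℕ, K.toComb.deg (K.nx^[k] c) = 2 → μ.Act (K.nx^[k] c).2 (K.nx^[k + 1] c).2) :
    ∃ y : List (ZMod n × Bool),
      StarS (fun i j => actB act i.val j.val = true) (fun j => P.ang j / Real.pi) cls
        (H1_fl K c) y ∧
      (∀ (v : ZMod n → ℤ) (A : ZMod n × Bool → ZMod n × Bool → ℤ),
        ((pcost (stepCost v A) (H1_fl K c) y (H1_fl K c) : ℤ) : ℝ) =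
          ∑ k ∈ Finset.range (K.toComb.deg c),
          ((v (H1_fl K (K.nx^[k] c)).1 : ℝ) +
            (A (exW (H1_fl K (K.nx^[k] c))) (enW (H1_fl K (K.nx^[k + 1] c))) : ℝ))) ∧
      (K.toComb.deg c = 2 → y = [H1_fl K (K.nx c)]) := by
  have hpi := Real.pi_pos
  obtain ⟨d, hd⟩ : ∃ d, K.toComb.deg c = d + 1 :=
    Nat.exists_eq_succ_of_ne_zero (K.deg_pos c).ne'
  have hper := H1_period K c
  have h2 : 2 ≤ K.toComb.deg c := K.toComb.two_le c
  have hd1 : 1 ≤ d := by omega
  have hsum : ∑ k ∈ Finset.range (K.toComb.deg c), P.ang (K.nx^[k] c).2 = 2 * Real.pi := K.sum c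
  rw [hd] at hper hsum
  set x : ℕ → ZMod n × Bool := fun k => H1_fl K (K.nx^[k] c) with hx
  have hx0 : x 0 = H1_fl K c := rfl
  have hx1 : x 1 = H1_fl K (K.nx c) := rfl
  have hstep : ∀ k, StepG (GC cls) (x k) (x (k + 1)) := by
    intro k
    simp only [hx]
    rw [Function.iterate_succ_apply']
    exact H1_step cls hcls _
  have hxe : x (0 + d + 1) = H1_fl K c := by
    simp only [hx, zero_add]
    rw [hper]
  refine ⟨H1list x 0 d, ⟨?_, ?_, ?_⟩, ?_, ?_⟩
  · have := H1list_pth x hstep d 0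
    rwa [hxe, hx0] at this
  · have h3 : P.ang (H1_fl K c).1 / Real.pi +
        ((H1list x 0 d).map fun y => P.ang y.1 / Real.pi).sum =
        ∑ k ∈ Finset.range (d + 1), P.ang (x k).1 / Real.pi := by
      rw [H1list_sum (fun y : ZMod n × Bool => P.ang y.1 / Real.pi), Finset.sum_range_succ',
        add_comm, hx0]
      congr 1
      exact Finset.sum_congr rfl fun k _ => by rw [show 0 + 1 + k = k + 1 by ring]
    rw [h3, ← Finset.sum_div]
    have h4 : ∑ k ∈ Finset.range (d + 1), P.ang (x k).1 = 2 * Real.pi := hsum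
    rw [h4]
    field_simp
  · rcases Nat.lt_or_ge 1 d with h | h
    · left
      rw [H1list_length]
      omega
    · right
      have h1 : d = 1 := by omega
      refine ⟨x 1, ?_, ?_⟩
      · rw [h1]
        rfl
      · refine (hact _ _).2 ?_
        exact hc 0 (by
          change K.toComb.deg c = 2
          rw [hd, h1])
  · intro v A
    have h1 := H1list_cost (stepCost v A) x d 0
    rw [hxe, hx0] at h1
    rw [h1, hd]
    push_cast
    refine Finset.sum_congr rfl fun k _ => ?_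
    rw [zero_add]
    unfold stepCost
    push_cast
    rfl
  · intro h
    have h1 : d = 1 := by omega
    rw [h1]
    rfl

theorem sit_of {K : CombA n P.ang P.len ι} (μ : Mean K) (hc : P.CCW) (cls : ZMod n → ℕ)
    (hcls : ∀ j k, cls j = cls k ↔ P.len j = P.len k) (act : List (ℕ × ℕ))
    (hact : ∀ i j : ZMod n, actB act i.val j.val = true ↔ μ.Act i j) : Sit cls act P := by
  have hpi := Real.pi_pos
  refine ⟨hc, hcls, ?_, ?_, ?_⟩
  · intro v A hA L hv
    have hv' : 2 * ∑ i, (v i : ℝ) < ((n : ℝ) - 2) * L := by exact_mod_cast hv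
    have hδ : 0 < ((n : ℝ) - 2) * L / 2 - ∑ j, (v j : ℝ) := by linarith
    have hA' : ∀ x y, ((A y x : ℤ) : ℝ) = -((A x y : ℤ) : ℝ) := fun x y => by
      rw [hA x y]
      push_cast
      ring
    obtain ⟨c, hc, hpos⟩ := μ.avg1
      (H1_g K (fun i => (v i : ℝ)) (fun x y => (A x y : ℝ)) (L : ℝ)) (H1_g_bd K _ _ _)
      (H1_good μ) hδ (μ.ae_of_forall fun c => (H1_g_tile K _ _ hA' _ c.1).ge)
    rw [H1_g_star] at hpos
    obtain ⟨y, h1, h2, -⟩ := H1_star μ cls hcls act hact c hc
    refine ⟨H1_fl K c, y, h1, ?_⟩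
    have h3 : ((pcost (stepCost v A) (H1_fl K c) y (H1_fl K c) : ℤ) : ℝ) < (L : ℝ) := by
      rw [h2 v A]
      linarith
    exact_mod_cast h3
  · intro i j hij v A hA L hv
    have h : μ.Act i j := (hact i j).1 hij
    have hv' : 2 * ∑ i, (v i : ℝ) ≤ ((n : ℝ) - 2) * L := by exact_mod_cast hv
    have hδ : 0 ≤ ((n : ℝ) - 2) * L / 2 - ∑ j, (v j : ℝ) := by linarith
    have hA' : ∀ x y, ((A y x : ℤ) : ℝ) = -((A x y : ℤ) : ℝ) := fun x y => by
      rw [hA x y]
      push_cast
      ring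
    obtain ⟨c, hc, hpos⟩ := μ.avg2
      (H1_g K (fun i => (v i : ℝ)) (fun x y => (A x y : ℝ)) (L : ℝ)) (H1_g_bd K _ _ _)
      (H1_good μ) h one_pos
      (μ.ae_of_forall fun c => hδ.trans (H1_g_tile K _ _ hA' _ c.1).ge)
    rw [H1_g_star] at hpos
    obtain ⟨y, h1, h2, h3⟩ := H1_star μ cls hcls act hact c hc
    refine ⟨H1_fl K c, y, h1, ?_⟩
    rcases hpos with hpos | ⟨⟨h5, h6, h6'⟩, hpos⟩
    · left
      have h7 : ((pcost (stepCost v A) (H1_fl K c) y (H1_fl K c) : ℤ) : ℝ) < (L : ℝ) := by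
        rw [h2 v A]
        linarith
      exact_mod_cast h7
    · right
      have h7 : ((pcost (stepCost v A) (H1_fl K c) y (H1_fl K c) : ℤ) : ℝ) < ((L + 1 : ℤ) : ℝ) := by
        rw [h2 v A]
        push_cast
        linarith
      have h8 : pcost (stepCost v A) (H1_fl K c) y (H1_fl K c) < L + 1 := by exact_mod_cast h7
      exact ⟨⟨H1_fl K (K.nx c), h3 h6, Or.inl ⟨h5, h6'⟩⟩, by omega⟩
  · intro i j hij
    have h : μ.Act i j := (hact i j).1 hij
    rw [← add_div, Mean.act_ang h]
    field_simp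

end Pool.Agent.Lib_MP_fa6e45
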