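import Pool.Agent.Lib_MP_fa6e45.HC0
import Pool.Agent.Lib_MP_fa6e45.G1

/-!
MP_fa6e45_co, stage 4: soundness of a linear programming node of the checker (compare G2).
-/

open scoped Topology

namespace Pool.Agent.Lib_MP_fa6e45

section paths

variable {α : Type} {R : α → α → Prop}

theorem Pth_append (c y d : α) (l1 l2 : List α) :
    Pth R c (l1 ++ y :: l2) d ↔ Pth R c l1 y ∧ Pth R y l2 d := by
  induction l1 generalizing c with
  | nil => exact Iff.rfl
  | cons x l1 ih =>
    change R c x ∧ Pth R x (l1 ++ y :: l2) d ↔ (R c x ∧ Pth R x l1 y) ∧ Pth R y l2 d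
    rw [ih, and_assoc]

theorem pcost_append (f : α → α → ℤ) (c y d : α) (l1 l2 : List α) :
    pcost f c (l1 ++ y :: l2) d = pcost f c l1 y + pcost f y l2 d := by
  induction l1 generalizing c with
  | nil => rfl
  | cons x l1 ih =>
    change f c x + pcost f x (l1 ++ y :: l2) d = f c x + pcost f x l1 y + pcost f y l2 d
    rw [ih, add_assoc]

/-- a closed path can be started at a corner with minimal code -/
theorem rot_min {m : ℕ} {R : ZMod m × Bool → ZMod m × Bool → Prop}
    (f : ZMod m × Bool → ZMod m × Bool → ℤ) (c : ZMod m × Bool) (l : List (ZMod m × Bool))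
    (h : Pth R c l c) : ∃ (c' : ZMod m × Bool) (l' : List (ZMod m × Bool)),
      (∀ x ∈ l', code c' ≤ code x) ∧ Pth R c' l' c' ∧ l'.length = l.length ∧
      pcost f c' l' c' = pcost f c l c ∧
      (∀ g : ZMod m × Bool → ℝ, g c' + (l'.map g).sum = g c + (l.map g).sum) ∧
      ∀ d, l = [d] → (c' = c ∧ l' = [d]) ∨ (c' = d ∧ l' = [c]) := by
  classical
  obtain ⟨y, hy, hmin⟩ := (c :: l).toFinset.exists_min_image code ⟨c, by simp⟩
  have hmin' : ∀ x ∈ c :: l, code y ≤ code x := fun x hx => hmin x (List.mem_toFinset.2 hx)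
  rw [List.mem_toFinset, List.mem_cons] at hy
  rcases hy with rfl | hy
  · exact ⟨y, l, fun x hx => hmin' x (List.mem_cons_of_mem _ hx), h, rfl, rfl, fun _ => rfl,
      fun d hd => Or.inl ⟨rfl, hd⟩⟩
  · obtain ⟨l1, l2, rfl⟩ := List.append_of_mem hy
    refine ⟨y, l2 ++ c :: l1, ?_, ?_, ?_, ?_, ?_, ?_⟩
    · intro x hx
      apply hmin' x
      rw [List.mem_append, List.mem_cons] at hx
      rw [List.mem_cons, List.mem_append, List.mem_cons]
      tauto
    · rw [Pth_append] at h ⊢
      exact ⟨h.2, h.1⟩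
    · simp only [List.length_append, List.length_cons]
      omega
    · rw [pcost_append, pcost_append, add_comm]
    · intro g
      simp only [List.map_append, List.map_cons, List.sum_append, List.sum_cons]
      ring
    · intro d hd
      right
      cases l1 with
      | nil =>
        simp only [List.nil_append, List.cons.injEq] at hd
        rw [hd.1, hd.2]
        exact ⟨rfl, rfl⟩
      | cons x l1 => simp at hd

end paths

variable {m : ℕ} [NeZero m] {cls : ZMod m → ℕ} {act : List (ℕ × ℕ)} {P : Polygon m}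

private theorem H7_sum_zmod (f : ℕ → ℤ) :
    ∑ i : ZMod m, f i.val = ((List.range m).map f).sum := by
  have h1 : ∀ n : ℕ, ∑ i ∈ Finset.range n, f i = ((List.range n).map f).sum := by
    intro n
    induction n with
    | zero => simp
    | succ n ih =>
      rw [Finset.sum_range_succ, ih, List.range_succ, List.map_append, List.sum_append]
      simp
  rw [← h1]
  obtain ⟨k, rfl⟩ := Nat.exists_eq_succ_of_ne_zero (NeZero.ne m)
  exact Fin.sum_univ_eq_sum_range f (k + 1)

private theorem H7_mem_allC (c : ZMod m × Bool) : c ∈ allC m := by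
  unfold allC
  rw [List.mem_flatMap]
  refine ⟨c.1, ?_, ?_⟩
  · refine List.mem_flatMap.2 ⟨c.1.val, List.mem_range.2 (ZMod.val_lt c.1), ?_⟩
    rw [ZMod.natCast_zmod_val]
    exact List.mem_singleton.2 rfl
  · obtain ⟨x, _ | _⟩ := c
    · simp
    · simp

private theorem H7_code_lt (c : ZMod m × Bool) : code c < 2 * m := by
  unfold code
  have h1 := ZMod.val_lt c.1
  have h2 : c.2.toNat ≤ 1 := Bool.toNat_le c.2
  omega

omit [NeZero m] in
private theorem H7_code_div (c : ZMod m × Bool) : code c / 2 = c.1.val := by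
  unfold code
  have h2 : c.2.toNat ≤ 1 := Bool.toNat_le c.2
  omega

omit [NeZero m] in
private theorem H7_aF (A : List (ℕ × ℕ × ℤ)) (x y : ZMod m × Bool) : aF A y x = -aF A x y := by
  unfold aF
  ring

omit [NeZero m] in
private theorem H7_telescope (v : List ℤ) (A : List (ℕ × ℕ × ℤ)) (φ : List ℤ)
    (l : List (ZMod m × Bool)) (c d : ZMod m × Bool) :
    pcost (cost v A φ) c l d =
      pcost (stepCost (vF v) (aF A)) c l d + φ.getD (code c) 0 - φ.getD (code d) 0 := by
  induction l generalizing c with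
  | nil => rfl
  | cons x l ih =>
    change cost v A φ c x + pcost (cost v A φ) x l d =
      stepCost (vF v) (aF A) c x + pcost (stepCost (vF v) (aF A)) x l d + φ.getD (code c) 0 -
        φ.getD (code d) 0
    rw [ih x, cost]
    ring

private theorem H7_count (p : List (ZMod m × Bool)) (f : ZMod m → ℝ) :
    ∑ i : ZMod m, (((p.map code).countP fun x => x / 2 == i.val : ℕ) : ℝ) * f i =
      (p.map fun x => f x.1).sum := by
  induction p with
  | nil => simp
  | cons x p ih =>
    rw [List.map_cons, List.map_cons, List.sum_cons, ← ih]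
    have h1 : ∀ i : ZMod m, (((code x :: p.map code).countP fun x => x / 2 == i.val : ℕ) : ℝ) * f i =
        (if i = x.1 then f i else 0) +
          (((p.map code).countP fun x => x / 2 == i.val : ℕ) : ℝ) * f i := by
      intro i
      rw [List.countP_cons, H7_code_div]
      by_cases h : i = x.1
      · rw [if_pos h, if_pos (by rw [h]; exact beq_self_eq_true _)]
        push_cast
        ring
      · rw [if_neg h, if_neg]
        · simp
        · rw [beq_iff_eq]
          intro h2
          exact h (ZMod.val_injective m h2).symm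
    rw [Finset.sum_congr rfl fun i _ => h1 i, Finset.sum_add_distrib]
    rw [Finset.sum_ite_eq' Finset.univ x.1 f, if_pos (Finset.mem_univ _)]

private theorem H7_holds (p : List (ZMod m × Bool)) (f : ZMod m → ℝ)
    (h : (p.map fun x => f x.1).sum = 2) :
    Eqn.Holds ((cntv m (p.map code)).map fun x => (x : ℤ), 2) f := by
  unfold Eqn.Holds
  have h1 : ∀ i : ZMod m,
      (((((cntv m (p.map code)).map fun x => (x : ℤ)).getD i.val 0 : ℤ) : ℝ) * f i) =
        (((p.map code).countP fun x => x / 2 == i.val : ℕ) : ℝ) * f i := by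
    intro i
    congr 1
    have h2 : i.val < m := ZMod.val_lt i
    have h3 : ((cntv m (p.map code)).map fun x => (x : ℤ)).getD i.val 0 =
        (((p.map code).countP fun x => x / 2 == i.val : ℕ) : ℤ) := by
      have h5 : ((cntv m (p.map code)).map fun x => (x : ℤ)) =
          List.map (fun x : ℕ => (x : ℤ)) (cntv m (p.map code)) := by
        rw [List.map_eq_flatMap (f := fun x : ℕ => (x : ℤ))]
        exact List.map_id _
      rw [h5]
      unfold cntv
      rw [List.getD_eq_getElem?_getD, List.map_map, List.getElem?_map,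
        List.getElem?_range h2]
      rfl
    rw [h3]
    push_cast
    rfl
  rw [Finset.sum_congr rfl fun i _ => h1 i, H7_count, h]
  push_cast
  rfl

private theorem H7_code_nat {i : ℕ} (hi : i < m) {x : ZMod m × Bool} (h : x.1 = (i : ZMod m)) :
    (code x / 2 == i) = true := by
  rw [H7_code_div, h, ZMod.val_natCast_of_lt hi]
  exact beq_self_eq_true _

private theorem H7_step {v : List ℤ} {A : List (ℕ × ℕ × ℤ)} {φ : List ℤ} {L : ℕ}
    {tab : List (List (ℕ × ℕ))}
    (hs : ∀ c d : ZMod m × Bool, stepB cls (fun _ => Ty.S) v A φ L tab c d = true)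
    {c d : ZMod m × Bool}
    (hG : StepG (GC cls) c d) : 0 ≤ cost v A φ c d ∧ (cost v A φ c d < L →
      ∃ t : ℕ, (code d, t) ∈ tab.getD (code c) [] ∧ (t : ℤ) ≤ cost v A φ c d) := by
  have h1 := hs c d
  have h2 : okB cls (fun _ => Ty.S) (exW c).1 (enW d).1 (c.2 == d.2) = true := by
    have h3 : cls (exW c).1 = cls (enW d).1 := hG
    unfold okB
    rw [h3, beq_self_eq_true, Bool.true_and]
  unfold stepB at h1
  rw [h2, Bool.not_true, Bool.false_or, Bool.and_eq_true, Bool.or_eq_true, decide_eq_true_iff,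
    decide_eq_true_iff, List.any_eq_true] at h1
  refine ⟨h1.1, fun h3 => ?_⟩
  rcases h1.2 with h4 | ⟨x, hx, h4⟩
  · exact absurd h3 (not_lt.2 h4)
  · rw [Bool.and_eq_true, decide_eq_true_iff, beq_iff_eq] at h4
    refine ⟨x.2, ?_, h4.2⟩
    rw [← h4.1]
    exact hx

private theorem H7_nonneg {v : List ℤ} {A : List (ℕ × ℕ × ℤ)} {φ : List ℤ} {L : ℕ}
    {tab : List (List (ℕ × ℕ))}
    (hs : ∀ c d : ZMod m × Bool, stepB cls (fun _ => Ty.S) v A φ L tab c d = true)
    (l : List (ZMod m × Bool)) (c d : ZMod m × Bool) (hP : Pth (StepG (GC cls)) c l d) :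
    0 ≤ pcost (cost v A φ) c l d := by
  induction l generalizing c with
  | nil => exact (H7_step hs hP).1
  | cons x l ih =>
    have h1 := (H7_step hs hP.1).1
    have h2 := ih x hP.2
    change 0 ≤ cost v A φ c x + pcost (cost v A φ) x l d
    linarith

private theorem H7_tpath {v : List ℤ} {A : List (ℕ × ℕ × ℤ)} {φ : List ℤ} {L : ℕ}
    {tab : List (List (ℕ × ℕ))}
    (hs : ∀ c d : ZMod m × Bool, stepB cls (fun _ => Ty.S) v A φ L tab c d = true)
    (l : List (ZMod m × Bool)) (c d : ZMod m × Bool) (hP : Pth (StepG (GC cls)) c l d)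
    (hL : pcost (cost v A φ) c l d < L) :
    ∃ t : ℕ, TPath tab (code c) (l.map code) (code d) t ∧ (t : ℤ) ≤ pcost (cost v A φ) c l d := by
  induction l generalizing c with
  | nil =>
    obtain ⟨t, h1, h2⟩ := (H7_step hs hP).2 hL
    exact ⟨t, h1, h2⟩
  | cons x l ih =>
    have h1 := H7_step hs hP.1
    have h2 := H7_nonneg hs l x d hP.2
    have h3 : cost v A φ c x + pcost (cost v A φ) x l d < L := hL
    obtain ⟨t1, h4, h5⟩ := h1.2 (by linarith)
    obtain ⟨t2, h6, h7⟩ := ih x hP.2 (by linarith [h1.1])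
    refine ⟨t1 + t2, ⟨t1, t2, h4, h6, rfl⟩, ?_⟩
    change ((t1 + t2 : ℕ) : ℤ) ≤ cost v A φ c x + pcost (cost v A φ) x l d
    push_cast
    linarith

/-- the star is of the kind `t0` -/
private def H7_InT (m : ℕ) (t0 : T0) (c : ZMod m × Bool) (l : List (ZMod m × Bool)) : Prop :=
  match t0 with
    | T0.none => False
    | T0.imp _ => False
    | T0.two i j => i < m ∧ j < m ∧ TTwo (i : ZMod m) (j : ZMod m) c l

private theorem H7_inT {t0 : T0} {c : ZMod m × Bool} {l : List (ZMod m × Bool)}
    (h : H7_InT m t0 c l) : inT0 t0 ((l.reverse ++ [c]).map code) = true := by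
  cases t0 with
  | none => exact absurd h id
  | imp i => exact absurd h id
  | two i j =>
    obtain ⟨hi, hj, d, rfl, h2⟩ := h
    unfold inT0
    have h3 : (([d] : List (ZMod m × Bool)).reverse ++ [c]).map code = [code d, code c] := rfl
    rw [h3]
    rcases h2 with ⟨h4, h5⟩ | ⟨h4, h5⟩
    · have e1 := H7_code_nat hi h4
      have e2 := H7_code_nat hj h5
      simp only [List.any_cons, e1, e2, List.length_cons, List.length_nil, Bool.or_true,
        Bool.true_or, Bool.and_true]
      decide
    · have e1 := H7_code_nat hj h4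
      have e2 := H7_code_nat hi h5
      simp only [List.any_cons, e1, e2, List.length_cons, List.length_nil, Bool.or_true,
        Bool.true_or, Bool.and_true]
      decide

private theorem H7_star (M : Sit cls act P) {t0 : T0} (ht0 : ∀ i, t0 ≠ T0.imp i) {v : List ℤ}
    {A : List (ℕ × ℕ × ℤ)} {L : ℕ} (hb : budB m t0 v L = true) (hok : okT0 m act t0 = true) :
    ∃ (c : ZMod m × Bool) (l : List (ZMod m × Bool)),
      StarS (fun i j => actB act i.val j.val = true) (fun j => P.ang j / Real.pi) cls c l ∧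
      (pcost (stepCost (vF v) (aF A)) c l c < L ∨
        (H7_InT m t0 c l ∧ pcost (stepCost (vF v) (aF A)) c l c ≤ L)) := by
  have h5 : ∑ i : ZMod m, vF v i = ((List.range m).map fun i => v.getD i 0).sum :=
    H7_sum_zmod fun i => v.getD i 0
  cases t0 with
  | none =>
    unfold budB at hb
    rw [decide_eq_true_iff, ← h5] at hb
    obtain ⟨c, l, h1, h2⟩ := M.lp1 (vF v) (aF A) (H7_aF A) (L : ℤ) hb
    exact ⟨c, l, h1, Or.inl h2⟩
  | imp i => exact absurd rfl (ht0 i)
  | two i j =>
    unfold budB at hb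
    rw [decide_eq_true_iff, ← h5] at hb
    unfold okT0 at hok
    simp only [Bool.and_eq_true, decide_eq_true_iff] at hok
    obtain ⟨⟨hi, hj⟩, h1⟩ := hok
    have vi : ((i : ℕ) : ZMod m).val = i := ZMod.val_natCast_of_lt hi
    have vj : ((j : ℕ) : ZMod m).val = j := ZMod.val_natCast_of_lt hj
    obtain ⟨c, l, h8, h9⟩ := M.lp2 (i : ZMod m) (j : ZMod m) (by rw [vi, vj]; exact h1)
      (vF v) (aF A) (H7_aF A) (L : ℤ) hb
    refine ⟨c, l, h8, ?_⟩
    rcases h9 with h9 | ⟨h9, h10⟩
    · exact Or.inl h9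
    · exact Or.inr ⟨⟨hi, hj, h9⟩, h10⟩

omit [NeZero m] in
private theorem H7_ll {t0 : T0} {L : ℕ} {P : ℤ} {c : ZMod m × Bool} {l : List (ZMod m × Bool)}
    (h : P < L ∨ (H7_InT m t0 c l ∧ P ≤ L)) : P < (llOf t0 L : ℕ) := by
  cases t0 with
  | none =>
    rcases h with h | ⟨h, _⟩
    · exact h
    · exact absurd h id
  | imp i =>
    rcases h with h | ⟨h, _⟩
    · change P < ((L + 1 : ℕ) : ℤ)
      push_cast
      linarith
    · exact absurd h id
  | two i j =>
    change P < ((L + 1 : ℕ) : ℤ)
    push_cast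
    rcases h with h | ⟨_, h⟩ <;> linarith

omit [NeZero m] in
private theorem H7_symm {i j : ℕ} (h : actB act i j = true) : actB act j i = true := by
  unfold actB at h ⊢
  rw [Bool.or_eq_true] at h ⊢
  exact h.symm

theorem lpS_sound (M : Sit cls act P) {t0 : T0} (ht0 : ∀ i, t0 ≠ T0.imp i) {v : List ℤ}
    {A : List (ℕ × ℕ × ℤ)} {φ : List ℤ} {L fuel : ℕ} {tab : List (List (ℕ × ℕ))}
    {cvs : List (List ℕ)}
    (h : lpB2 cls (fun _ => Ty.S) act t0 v A φ L fuel tab cvs = true) :
    ∃ cv ∈ cvs, Eqn.Holds (cv.map fun x => (x : ℤ), 2) fun j => P.ang j / Real.pi := by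
  unfold lpB2 at h
  rw [Bool.and_eq_true, Bool.and_eq_true, Bool.and_eq_true, List.all_eq_true,
    List.all_eq_true] at h
  obtain ⟨⟨⟨h0, h1⟩, h2⟩, h3⟩ := h
  have hs : ∀ c d : ZMod m × Bool,
      stepB cls (fun _ => Ty.S) v A φ (llOf t0 L) tab c d = true := fun c d =>
    List.all_eq_true.1 (h2 c (H7_mem_allC c)) d (H7_mem_allC d)
  obtain ⟨c0, l0, ⟨hP0, ha0, hlen0⟩, hcost0⟩ := H7_star (A := A) M ht0 h0 h1
  obtain ⟨c, l, hcode, hP, hll, hpc, hg, hd⟩ :=
    rot_min (stepCost (vF v) (aF A)) c0 l0 hP0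
  have ha : P.ang c.1 / Real.pi + (l.map fun x => P.ang x.1 / Real.pi).sum = 2 := by
    rw [← ha0]
    exact hg fun x => P.ang x.1 / Real.pi
  have hlen : 2 ≤ l.length ∨ ∃ d, l = [d] ∧ actB act c.1.val d.1.val = true := by
    rcases hlen0 with h | ⟨d, h, h'⟩
    · left
      rw [hll]
      exact h
    · right
      rcases hd d h with ⟨e1, e2⟩ | ⟨e1, e2⟩
      · exact ⟨d, e2, by rw [e1]; exact h'⟩
      · exact ⟨c0, e2, by rw [e1]; exact H7_symm h'⟩
  have hcost : pcost (stepCost (vF v) (aF A)) c l c < L ∨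
      (H7_InT m t0 c l ∧ pcost (stepCost (vF v) (aF A)) c l c ≤ L) := by
    rw [hpc]
    rcases hcost0 with h | ⟨h, h'⟩
    · exact Or.inl h
    · refine Or.inr ⟨?_, h'⟩
      cases t0 with
      | none => exact h
      | imp i => exact h
      | two i j =>
        obtain ⟨hi, hj, d, e, e'⟩ := h
        refine ⟨hi, hj, ?_⟩
        rcases hd d e with ⟨e1, e2⟩ | ⟨e1, e2⟩
        · exact ⟨d, e2, by rw [e1]; exact e'⟩
        · refine ⟨c0, e2, ?_⟩
          rw [e1]
          rcases e' with ⟨e3, e4⟩ | ⟨e3, e4⟩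
          · exact Or.inr ⟨e4, e3⟩
          · exact Or.inl ⟨e4, e3⟩
  have h5 : pcost (cost v A φ) c l c = pcost (stepCost (vF v) (aF A)) c l c := by
    rw [H7_telescope]
    ring
  have h5' : pcost (cost v A φ) c l c < (llOf t0 L : ℕ) := by
    rw [h5]
    exact H7_ll hcost
  obtain ⟨t, h6, h7⟩ := H7_tpath hs l c c hP h5'
  have h8 := h3 (code c) (List.mem_range.2 (H7_code_lt c))
  have h9 := dfs2_sound fuel (code c) 0 [code c] h8 (l.map code) t h6
    (fun x hx => by
      obtain ⟨y, hy, rfl⟩ := List.mem_map.1 hx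
      exact hcode y hy)
    (by
      have : (t : ℤ) < (llOf t0 L : ℕ) := lt_of_le_of_lt h7 h5'
      omega)
  have h10 : (l.map code).reverse ++ [code c] = (l.reverse ++ [c]).map code := by
    rw [List.map_append, List.map_reverse]
    rfl
  rw [h10, Nat.zero_add] at h9
  have hsum : ((l.reverse ++ [c]).map fun x => P.ang x.1 / Real.pi).sum = 2 := by
    rw [List.map_append, List.sum_append, List.map_reverse, List.sum_reverse, ← ha]
    simp [add_comm]
  have hlen2 : ((l.reverse ++ [c]).map code).length = l.length + 1 := by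
    rw [List.length_map, List.length_append, List.length_reverse, List.length_singleton]
  unfold accB at h9
  rw [Bool.or_eq_true, Bool.or_eq_true, Bool.or_eq_true, Bool.and_eq_true, Bool.and_eq_true,
    decide_eq_true_iff, decide_eq_true_iff, beq_iff_eq, hlen2] at h9
  rcases h9 with ((h9 | ⟨h9, h11⟩) | h9) | ⟨h9, h11⟩
  · exfalso
    rcases hlen with hlen | ⟨d, rfl, _⟩
    · omega
    · rw [List.length_singleton] at h9
      omega
  · exfalso
    rcases hlen with hlen | ⟨d, rfl, h12⟩
    · omega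
    · have h13 : (([d] : List (ZMod m × Bool)).reverse ++ [c]).map code = [code d, code c] := rfl
      rw [h13] at h11
      have h14 : ([code d, code c] : List ℕ).getD 0 0 / 2 = d.1.val := H7_code_div d
      have h15 : ([code d, code c] : List ℕ).getD 1 0 / 2 = c.1.val := H7_code_div c
      rw [h14, h15, H7_symm h12] at h11
      exact absurd h11 (by decide)
  · exact ⟨_, List.contains_iff_mem.1 h9, H7_holds _ _ hsum⟩
  · exfalso
    rcases hcost with hcost | ⟨hcost, _⟩
    · rw [h5] at h7
      have : (t : ℤ) < L := lt_of_le_of_lt h7 hcost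
      omega
    · rw [H7_inT hcost] at h11
      exact absurd h11 (by decide)

end Pool.Agent.Lib_MP_fa6e45
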