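import Pool.Agent.Lib_MP_fa6e45.A2c
import Pool.Agent.Lib_MP_fa6e45.A3b
import Pool.Agent.Lib_MP_fa6e45.L1

/-!
MP_fa6e45_co, stage 4 (all polygons with at most six corners): unit directions of the sides, the closing relation,
a criterion for periodic tilings from a gluing table.
-/

open Set MeasureTheory Complex
open scoped Topology

namespace Pool.Agent.Lib_MP_fa6e45

open Pool.Agent.Lib_PL (cr InSector Poly)

namespace Polygon

variable {n : ℕ} (P : Polygon n)

/-- unit direction of side `j` -/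
noncomputable def dr (j : ZMod n) : ℂ := (P.vertex (j + 1) - P.vertex j) / (P.len j : ℂ)

theorem len_ne (j : ZMod n) : (P.len j : ℂ) ≠ 0 := by
  exact_mod_cast (P.len_pos j).ne'

theorem dr_len (j : ZMod n) : P.vertex (j + 1) - P.vertex j = (P.len j : ℂ) * P.dr j := by
  unfold dr
  rw [mul_div_cancel₀ _ (P.len_ne j)]

theorem dr_norm (j : ZMod n) : ‖P.dr j‖ = 1 := by
  have h := P.len_pos j
  unfold dr
  rw [norm_div, Complex.norm_real, Real.norm_of_nonneg h.le]
  have h2 : ‖P.vertex (j + 1) - P.vertex j‖ = P.len j := by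
    unfold len
    rw [dist_comm, dist_eq_norm]
  rw [h2, div_self h.ne']

theorem dr_ne (j : ZMod n) : P.dr j ≠ 0 := by
  intro h
  have h1 := P.dr_norm j
  rw [h, norm_zero] at h1
  exact zero_ne_one h1

theorem dr_mul_conj (j : ZMod n) : P.dr j * (starRingEnd ℂ) (P.dr j) = 1 := by
  rw [Complex.mul_conj, Complex.normSq_eq_norm_sq, P.dr_norm]
  simp

theorem dr_conj (j : ZMod n) : (starRingEnd ℂ) (P.dr j) = (P.dr j)⁻¹ := by
  exact eq_inv_of_mul_eq_one_right (P.dr_mul_conj j)

/-- the interior angle turns `dr j` to `- dr (j - 1)` -/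
theorem dr_turn (j : ZMod n) :
    exp ((P.ang j : ℂ) * Complex.I) * P.dr j = -P.dr (j - 1) := by
  have h := P.side_turn j
  have h1 := P.dr_len j
  have h2 := P.dr_len (j - 1)
  rw [sub_add_cancel] at h2
  rw [h1, h2] at h
  have l1 := P.len_ne j
  have l2 := P.len_ne (j - 1)
  have hE : exp ((((Real.pi - P.ang j : ℝ)) : ℂ) * Complex.I) =
      -(exp ((P.ang j : ℂ) * Complex.I))⁻¹ := by
    rw [← Complex.exp_neg]
    push_cast
    rw [sub_mul, sub_eq_add_neg, Complex.exp_add, Complex.exp_pi_mul_I]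
    ring
  rw [hE] at h
  push_cast at h
  have hx := Complex.exp_ne_zero ((P.ang j : ℂ) * Complex.I)
  have h3 : P.dr j = -P.dr (j - 1) * (exp ((P.ang j : ℂ) * Complex.I))⁻¹ := by
    have h4 : (P.len j : ℂ) * P.dr j =
        (P.len j : ℂ) * (-P.dr (j - 1) * (exp ((P.ang j : ℂ) * Complex.I))⁻¹) := by
      rw [h]
      field_simp
    exact mul_left_cancel₀ l1 h4
  rw [h3]
  field_simp

theorem exp_ang (j : ZMod n) :
    exp ((P.ang j : ℂ) * Complex.I) = -P.dr (j - 1) / P.dr j := by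
  rw [eq_div_iff (P.dr_ne j)]
  exact P.dr_turn j

/-- `dr j` from `dr (j - 1)` -/
theorem dr_step (j : ZMod n) :
    P.dr j = P.dr (j - 1) * exp (((Real.pi - P.ang j : ℝ) : ℂ) * Complex.I) := by
  have h := P.dr_turn j
  have hE : exp ((((Real.pi - P.ang j : ℝ)) : ℂ) * Complex.I) =
      -(exp ((P.ang j : ℂ) * Complex.I))⁻¹ := by
    rw [← Complex.exp_neg]
    push_cast
    rw [sub_mul, sub_eq_add_neg, Complex.exp_add, Complex.exp_pi_mul_I]
    ring
  have hx := Complex.exp_ne_zero ((P.ang j : ℂ) * Complex.I)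
  rw [hE]
  have h2 : P.dr (j - 1) = -(exp ((P.ang j : ℂ) * Complex.I) * P.dr j) := by
    rw [h, neg_neg]
  rw [h2]
  field_simp

/-- the closing relation -/
theorem dr_sum [NeZero n] : ∑ j : ZMod n, (P.len j : ℂ) * P.dr j = 0 := by
  have h : ∀ j : ZMod n, (P.len j : ℂ) * P.dr j = P.vertex (j + 1) - P.vertex j := fun j =>
    (P.dr_len j).symm
  simp only [h]
  rw [Finset.sum_sub_distrib]
  have h2 : ∑ j : ZMod n, P.vertex (j + 1) = ∑ j : ZMod n, P.vertex j :=
    Equiv.sum_comp (Equiv.addRight (1 : ZMod n)) P.vertex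
  rw [h2, sub_self]

/-- directions from side `p` on -/
theorem dr_iter (p : ZMod n) (t : ℕ) : P.dr (p + (t : ZMod n)) = P.dr p *
    exp (((∑ s ∈ Finset.range t, (Real.pi - P.ang (p + ((s + 1 : ℕ) : ZMod n))) : ℝ) : ℂ) * Complex.I) := by
  induction t with
  | zero => simp
  | succ t ih =>
    have h := P.dr_step (p + ((t + 1 : ℕ) : ZMod n))
    have h1 : p + ((t + 1 : ℕ) : ZMod n) - 1 = p + (t : ZMod n) := by
      push_cast
      ring
    rw [h1, ih] at h
    rw [h, Finset.sum_range_succ, mul_assoc, ← Complex.exp_add]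
    congr 2
    push_cast
    ring

/-- the closing relation for a pentagon, seen from side `p` -/
theorem close5 (P : Polygon 5) (p : ZMod 5) :
    P.len p + P.len (p + 1) * Real.cos (Real.pi - P.ang (p + 1)) +
      P.len (p + 2) * Real.cos (2 * Real.pi - P.ang (p + 1) - P.ang (p + 2)) +
      P.len (p + 3) * Real.cos (3 * Real.pi - P.ang (p + 1) - P.ang (p + 2) - P.ang (p + 3)) +
      P.len (p + 4) * Real.cos (4 * Real.pi - P.ang (p + 1) - P.ang (p + 2) - P.ang (p + 3) -
        P.ang (p + 4)) = 0 ∧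
    P.len (p + 1) * Real.sin (Real.pi - P.ang (p + 1)) +
      P.len (p + 2) * Real.sin (2 * Real.pi - P.ang (p + 1) - P.ang (p + 2)) +
      P.len (p + 3) * Real.sin (3 * Real.pi - P.ang (p + 1) - P.ang (p + 2) - P.ang (p + 3)) +
      P.len (p + 4) * Real.sin (4 * Real.pi - P.ang (p + 1) - P.ang (p + 2) - P.ang (p + 3) -
        P.ang (p + 4)) = 0 := by
  have h := P.dr_sum
  have h0 : ∑ j : ZMod 5, (P.len j : ℂ) * P.dr j =
      ∑ j : ZMod 5, (P.len (p + j) : ℂ) * P.dr (p + j) :=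
    (Equiv.sum_comp (Equiv.addLeft p) (fun j => (P.len j : ℂ) * P.dr j)).symm
  rw [h0] at h
  have h1 : ∑ j : ZMod 5, (P.len (p + j) : ℂ) * P.dr (p + j) =
      ∑ t ∈ Finset.range 5, (P.len (p + (t : ZMod 5)) : ℂ) * P.dr (p + (t : ZMod 5)) := by
    rw [Finset.sum_range]
    refine Finset.sum_congr rfl fun j _ => ?_
    have : ((j.val : ℕ) : ZMod 5) = j := ZMod.natCast_zmod_val (n := 5) j
    change _ = (P.len (p + ((ZMod.val j : ℕ) : ZMod 5)) : ℂ) * _
    rw [ZMod.natCast_zmod_val (n := 5) j]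
    change _ = _ * P.dr (p + ((ZMod.val j : ℕ) : ZMod 5))
    rw [ZMod.natCast_zmod_val (n := 5) j]
  rw [h1] at h
  simp only [P.dr_iter p] at h
  have h2 : ∀ t : ℕ, (P.len (p + (t : ZMod 5)) : ℂ) * (P.dr p * exp (((∑ s ∈ Finset.range t,
      (Real.pi - P.ang (p + ((s + 1 : ℕ) : ZMod 5))) : ℝ) : ℂ) * Complex.I)) =
      P.dr p * ((P.len (p + (t : ZMod 5)) : ℂ) * exp (((∑ s ∈ Finset.range t,
      (Real.pi - P.ang (p + ((s + 1 : ℕ) : ZMod 5))) : ℝ) : ℂ) * Complex.I)) := fun t => by ring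
  simp only [h2] at h
  rw [← Finset.mul_sum, mul_eq_zero, or_iff_right (P.dr_ne p)] at h
  have hre := congrArg Complex.re h
  have him := congrArg Complex.im h
  simp only [Finset.sum_range_succ, Finset.sum_range_zero, Complex.add_re, Complex.add_im,
    Complex.re_ofReal_mul, Complex.im_ofReal_mul, Complex.exp_ofReal_mul_I_re,
    Complex.exp_ofReal_mul_I_im, Complex.zero_re, Complex.zero_im] at hre him
  norm_num at hre him
  constructor
  · rw [Real.cos_pi_sub, ← hre]
    ring_nf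
  · rw [Real.sin_pi_sub, ← him]
    ring_nf

/-- the closing relation for a hexagon, seen from side `p` -/
theorem close6 (P : Polygon 6) (p : ZMod 6) :
    P.len p + P.len (p + 1) * Real.cos (Real.pi - P.ang (p + 1)) +
      P.len (p + 2) * Real.cos (2 * Real.pi - P.ang (p + 1) - P.ang (p + 2)) +
      P.len (p + 3) * Real.cos (3 * Real.pi - P.ang (p + 1) - P.ang (p + 2) - P.ang (p + 3)) +
      P.len (p + 4) * Real.cos (4 * Real.pi - P.ang (p + 1) - P.ang (p + 2) - P.ang (p + 3) -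
        P.ang (p + 4)) +
      P.len (p + 5) * Real.cos (5 * Real.pi - P.ang (p + 1) - P.ang (p + 2) - P.ang (p + 3) -
        P.ang (p + 4) - P.ang (p + 5)) = 0 ∧
    P.len (p + 1) * Real.sin (Real.pi - P.ang (p + 1)) +
      P.len (p + 2) * Real.sin (2 * Real.pi - P.ang (p + 1) - P.ang (p + 2)) +
      P.len (p + 3) * Real.sin (3 * Real.pi - P.ang (p + 1) - P.ang (p + 2) - P.ang (p + 3)) +
      P.len (p + 4) * Real.sin (4 * Real.pi - P.ang (p + 1) - P.ang (p + 2) - P.ang (p + 3) -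
        P.ang (p + 4)) +
      P.len (p + 5) * Real.sin (5 * Real.pi - P.ang (p + 1) - P.ang (p + 2) - P.ang (p + 3) -
        P.ang (p + 4) - P.ang (p + 5)) = 0 := by
  have h := P.dr_sum
  have h0 : ∑ j : ZMod 6, (P.len j : ℂ) * P.dr j =
      ∑ j : ZMod 6, (P.len (p + j) : ℂ) * P.dr (p + j) :=
    (Equiv.sum_comp (Equiv.addLeft p) (fun j => (P.len j : ℂ) * P.dr j)).symm
  rw [h0] at h
  have h1 : ∑ j : ZMod 6, (P.len (p + j) : ℂ) * P.dr (p + j) =
      ∑ t ∈ Finset.range 6, (P.len (p + (t : ZMod 6)) : ℂ) * P.dr (p + (t : ZMod 6)) := by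
    rw [Finset.sum_range]
    refine Finset.sum_congr rfl fun j _ => ?_
    change _ = (P.len (p + ((ZMod.val j : ℕ) : ZMod 6)) : ℂ) * _
    rw [ZMod.natCast_zmod_val (n := 6) j]
    change _ = _ * P.dr (p + ((ZMod.val j : ℕ) : ZMod 6))
    rw [ZMod.natCast_zmod_val (n := 6) j]
  rw [h1] at h
  simp only [P.dr_iter p] at h
  have h2 : ∀ t : ℕ, (P.len (p + (t : ZMod 6)) : ℂ) * (P.dr p * exp (((∑ s ∈ Finset.range t,
      (Real.pi - P.ang (p + ((s + 1 : ℕ) : ZMod 6))) : ℝ) : ℂ) * Complex.I)) =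
      P.dr p * ((P.len (p + (t : ZMod 6)) : ℂ) * exp (((∑ s ∈ Finset.range t,
      (Real.pi - P.ang (p + ((s + 1 : ℕ) : ZMod 6))) : ℝ) : ℂ) * Complex.I)) := fun t => by ring
  simp only [h2] at h
  rw [← Finset.mul_sum, mul_eq_zero, or_iff_right (P.dr_ne p)] at h
  have hre := congrArg Complex.re h
  have him := congrArg Complex.im h
  simp only [Finset.sum_range_succ, Finset.sum_range_zero, Complex.add_re, Complex.add_im,
    Complex.re_ofReal_mul, Complex.im_ofReal_mul, Complex.exp_ofReal_mul_I_re,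
    Complex.exp_ofReal_mul_I_im, Complex.zero_re, Complex.zero_im] at hre him
  norm_num at hre him
  constructor
  · rw [Real.cos_pi_sub, ← hre]
    ring_nf
  · rw [Real.sin_pi_sub, ← him]
    ring_nf

end Polygon

/-! ### the criterion with a gluing table -/

section kcrit

variable {n k : ℕ} (P : Polygon n) (g : Fin k → Mo)

/-- start of side `x.2` of the tile `g x.1 P` (the tile is on the left) -/
noncomputable def tsrc (x : Fin k × ZMod n) : ℂ :=
  (g x.1).app (if (g x.1).rf then P.vertex (x.2 + 1) else P.vertex x.2)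

/-- end of side `x.2` of the tile `g x.1 P` -/
noncomputable def ttgt (x : Fin k × ZMod n) : ℂ :=
  (g x.1).app (if (g x.1).rf then P.vertex x.2 else P.vertex (x.2 + 1))

end kcrit

end Pool.Agent.Lib_MP_fa6e45
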