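import Pool.Agent.Lib_MP_fa6e45.HA

/-!
MP_fa6e45_co, stage 4: a criterion for periodic tilings from a table `tb` of gluings: the entry `(x, y, c)` says that
side `y.2` of the tile `y.1`, translated by the lattice vector `c`, is side `x.2` of the tile `x.1` reversed.
-/

open Set MeasureTheory Complex
open scoped Topology

namespace Pool.Agent.Lib_MP_fa6e45

open Pool.Agent.Lib_PL (cr InSector Poly)

variable {n k : ℕ} [NeZero n]

/-- the sides as a chain, indexed by `ZMod n` -/
private noncomputable def HB_chain (P : Polygon n) (hc : P.CCW) : Chain P (ZMod n) where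
  p := fun i => P.vertex i
  q := fun i => P.vertex (i + 1)
  sub := by
    intro i
    rw [P.bdry_eq]
    exact Set.subset_iUnion (fun i : ZMod n => segment ℝ (P.vertex i) (P.vertex (i + 1))) _
  sum_in := (P.sum_th hc).1
  sum_out := (P.sum_th hc).2

private theorem HB_tile (P : Polygon n) (hc : P.CCW) (g : Fin k → Mo) (j : Fin k) :
    ∑ i : ZMod n, cr (tsrc P g (j, i)) (ttgt P g (j, i)) = 2 * (volume P.region).toReal := by
  have hA := P.area_eq hc
  have h1 : ∀ i : ZMod n, cr (tsrc P g (j, i)) (ttgt P g (j, i)) =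
      cr (P.vertex i) (P.vertex (i + 1)) +
        (if (g j).rf then -1 else 1) * (cr ((g j).b) ((g j).lin (P.vertex (i + 1))) -
          cr ((g j).b) ((g j).lin (P.vertex i))) := by
    intro i
    have h2 := (g j).cr_lin (P.vertex i) (P.vertex (i + 1))
    unfold tsrc ttgt Mo.app
    cases h : (g j).rf
    · simp only [h, Bool.false_eq_true, if_false] at h2 ⊢
      rw [← h2]
      unfold cr
      simp only [add_re, add_im]
      ring
    · simp only [h, if_true] at h2 ⊢
      have h3 : cr (P.vertex i) (P.vertex (i + 1)) =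
          -cr ((g j).lin (P.vertex i)) ((g j).lin (P.vertex (i + 1))) := by
        rw [h2, neg_neg]
      rw [h3]
      unfold cr
      simp only [add_re, add_im]
      ring
  simp only [h1]
  rw [Finset.sum_add_distrib, ← Finset.mul_sum, Finset.sum_sub_distrib]
  have h2 : ∑ i : ZMod n, cr ((g j).b) ((g j).lin (P.vertex (i + 1))) =
      ∑ i : ZMod n, cr ((g j).b) ((g j).lin (P.vertex i)) :=
    Equiv.sum_comp (Equiv.addRight (1 : ZMod n)) fun i => cr ((g j).b) ((g j).lin (P.vertex i))
  rw [h2, sub_self, mul_zero, add_zero, hA]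
  ring

private theorem HB_area (P : Polygon n) (hc : P.CCW) (g : Fin k → Mo) :
    ∑ x : Fin k × ZMod n, cr (tsrc P g x) (ttgt P g x) = 2 * (k * (volume P.region).toReal) := by
  rw [Fintype.sum_prod_type]
  simp only [HB_tile P hc g]
  rw [Finset.sum_const, Finset.card_univ, Fintype.card_fin, nsmul_eq_mul]
  ring

omit [NeZero n] in
private theorem HB_cr_sum (u : ℂ) (l : List ((Fin k × ZMod n) × (Fin k × ZMod n) × ℤ × ℤ))
    (f : (Fin k × ZMod n) × (Fin k × ZMod n) × ℤ × ℤ → ℤ)
    (e : (Fin k × ZMod n) × (Fin k × ZMod n) × ℤ × ℤ → ℂ) :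
    (l.map fun t => (f t : ℝ) * cr u (e t)).sum = cr u (l.map fun t => (f t : ℂ) * e t).sum := by
  induction l with
  | nil => simp [cr]
  | cons t l ih =>
    simp only [List.map_cons, List.sum_cons, ih]
    unfold cr
    simp only [add_re, add_im, mul_re, mul_im, intCast_re, intCast_im]
    ring

theorem kcrit (P : Polygon n) (hc : P.CCW) (hk : 0 < k) (g : Fin k → Mo) (u w : ℂ)
    (tb : List ((Fin k × ZMod n) × (Fin k × ZMod n) × ℤ × ℤ))
    (hnd : ((tb.map fun e => e.1) ++ tb.map fun e => e.2.1).Nodup)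
    (hlen : 2 * tb.length = k * n)
    (hm : ∀ e ∈ tb, tsrc P g e.2.1 + lv u w e.2.2 = ttgt P g e.1 ∧
      ttgt P g e.2.1 + lv u w e.2.2 = tsrc P g e.1)
    (h1 : (tb.map fun e => (e.2.2.1 : ℂ) * (ttgt P g e.1 - tsrc P g e.1)).sum = w)
    (h2 : (tb.map fun e => (e.2.2.2 : ℂ) * (ttgt P g e.1 - tsrc P g e.1)).sum = -u) :
    HasPeriodic P := by
  classical
  set L : List (Fin k × ZMod n) := (tb.map fun e => e.1) ++ tb.map fun e => e.2.1 with hL
  have hLl : L.length = Fintype.card (Fin k × ZMod n) := by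
    rw [hL, List.length_append, List.length_map, List.length_map, Fintype.card_prod,
      Fintype.card_fin, ZMod.card]
    omega
  have hall : ∀ x, x ∈ L := by
    have h3 : L.toFinset = Finset.univ := by
      rw [← Finset.card_eq_iff_eq_univ, List.toFinset_card_of_nodup hnd, hLl]
    intro x
    rw [← List.mem_toFinset, h3]
    exact Finset.mem_univ x
  obtain ⟨n1, n2, n3⟩ := List.nodup_append.1 hnd
  have hinj1 : ∀ e ∈ tb, ∀ e' ∈ tb, e.1 = e'.1 → e = e' := fun e he e' he' h =>
    List.inj_on_of_nodup_map n1 he he' h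
  have hinj2 : ∀ e ∈ tb, ∀ e' ∈ tb, e.2.1 = e'.2.1 → e = e' := fun e he e' he' h =>
    List.inj_on_of_nodup_map n2 he he' h
  have hdis : ∀ e ∈ tb, ∀ e' ∈ tb, e.1 ≠ e'.2.1 := fun e he e' he' =>
    n3 _ (List.mem_map.2 ⟨e, he, rfl⟩) _ (List.mem_map.2 ⟨e', he', rfl⟩)
  have hex : ∀ x : Fin k × ZMod n, ∃ e, e ∈ tb ∧ (e.1 = x ∨ e.2.1 = x) := by
    intro x
    have h3 := hall x
    rw [hL, List.mem_append, List.mem_map, List.mem_map] at h3
    rcases h3 with ⟨e, he, h⟩ | ⟨e, he, h⟩
    · exact ⟨e, he, Or.inl h⟩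
    · exact ⟨e, he, Or.inr h⟩
  choose E hE hE' using hex
  let τ : Fin k × ZMod n → Fin k × ZMod n := fun x => if (E x).1 = x then (E x).2.1 else (E x).1
  let c : Fin k × ZMod n → ℤ × ℤ := fun x => if (E x).1 = x then (E x).2.2 else -(E x).2.2
  have hτ1 : ∀ e ∈ tb, E e.1 = e ∧ τ e.1 = e.2.1 ∧ c e.1 = e.2.2 := by
    intro e he
    have h3 : (E e.1).1 = e.1 := by
      rcases hE' e.1 with h | h
      · exact h
      · exact absurd h.symm (hdis e he _ (hE _))
    have h4 : E e.1 = e := hinj1 _ (hE _) _ he h3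
    refine ⟨h4, ?_, ?_⟩
    · change (if (E e.1).1 = e.1 then (E e.1).2.1 else (E e.1).1) = _
      rw [if_pos h3, h4]
    · change (if (E e.1).1 = e.1 then (E e.1).2.2 else -(E e.1).2.2) = _
      rw [if_pos h3, h4]
  have hτ2 : ∀ e ∈ tb, E e.2.1 = e ∧ τ e.2.1 = e.1 ∧ c e.2.1 = -e.2.2 := by
    intro e he
    have h3 : (E e.2.1).1 ≠ e.2.1 := hdis _ (hE _) e he
    have h5 : (E e.2.1).2.1 = e.2.1 := by
      rcases hE' e.2.1 with h | h
      · exact absurd h h3
      · exact h
    have h4 : E e.2.1 = e := hinj2 _ (hE _) _ he h5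
    refine ⟨h4, ?_, ?_⟩
    · change (if (E e.2.1).1 = e.2.1 then (E e.2.1).2.1 else (E e.2.1).1) = _
      rw [if_neg h3, h4]
    · change (if (E e.2.1).1 = e.2.1 then (E e.2.1).2.2 else -(E e.2.1).2.2) = _
      rw [if_neg h3, h4]
  -- the area
  have hsum : ∀ f : Fin k × ZMod n → ℝ, ∑ x, f x = (tb.map fun e => f e.1 + f e.2.1).sum := by
    intro f
    have h3 : L.toFinset = Finset.univ := by
      rw [← Finset.card_eq_iff_eq_univ, List.toFinset_card_of_nodup hnd, hLl]
    rw [← h3, List.sum_toFinset _ hnd, hL, List.map_append, List.sum_append, List.map_map,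
      List.map_map]
    clear * -
    induction tb with
    | nil => simp
    | cons e tb ih =>
      simp only [List.map_cons, List.sum_cons, Function.comp_apply] at ih ⊢
      rw [← ih]
      ring
  have hA := HB_area P hc g
  rw [hsum] at hA
  have hA2 : (tb.map fun e => cr (tsrc P g e.1) (ttgt P g e.1) +
      cr (tsrc P g e.2.1) (ttgt P g e.2.1)).sum =
      (tb.map fun e => (e.2.2.1 : ℝ) * cr u (ttgt P g e.1 - tsrc P g e.1)).sum +
      (tb.map fun e => (e.2.2.2 : ℝ) * cr w (ttgt P g e.1 - tsrc P g e.1)).sum := by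
    rw [← List.sum_map_add]
    congr 1
    refine List.map_congr_left fun e he => ?_
    obtain ⟨h3, h4⟩ := hm e he
    have h5 : tsrc P g e.2.1 = ttgt P g e.1 - lv u w e.2.2 := by rw [← h3]; ring
    have h6 : ttgt P g e.2.1 = tsrc P g e.1 - lv u w e.2.2 := by rw [← h4]; ring
    rw [h5, h6]
    unfold cr lv
    simp only [sub_re, sub_im, add_re, add_im, mul_re, mul_im, intCast_re, intCast_im]
    ring
  rw [hA2, HB_cr_sum u tb (fun e => e.2.2.1), HB_cr_sum w tb (fun e => e.2.2.2), h1, h2] at hA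
  have hA3 : (k : ℝ) * (volume P.region).toReal = cr u w := by
    have : cr u w + cr w (-u) = 2 * cr u w := by
      unfold cr
      simp only [neg_re, neg_im]
      ring
    linarith
  have hvol : 0 < (volume P.region).toReal := by
    apply ENNReal.toReal_pos
    · intro h
      have h1 : volume P.inner = 0 := by
        apply measure_mono_null _ h
        rw [P.region_union]
        exact subset_union_right
      exact (P.inner_open.measure_pos volume P.inner_nonempty).ne' h1
    · exact (P.region_bounded.measure_lt_top).ne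
  have hpos : 0 < cr u w := by
    rw [← hA3]
    have : (0 : ℝ) < k := by exact_mod_cast hk
    positivity
  let D : LData P (ZMod n) k :=
    { K := HB_chain P hc
      g := g
      u := u
      w := w
      ne := hpos.ne'
      τ := τ
      ττ := by
        intro x
        rcases hE' x with h | h
        · rw [← h, (hτ1 _ (hE x)).2.1, (hτ2 _ (hE x)).2.1]
        · rw [← h, (hτ2 _ (hE x)).2.1, (hτ1 _ (hE x)).2.1]
      c := c
      cτ := by
        intro x
        rcases hE' x with h | h
        · rw [← h, (hτ1 _ (hE x)).2.1, (hτ2 _ (hE x)).2.2, (hτ1 _ (hE x)).2.2]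
        · rw [← h, (hτ2 _ (hE x)).2.1, (hτ1 _ (hE x)).2.2, (hτ2 _ (hE x)).2.2, neg_neg] }
  have hsrc : ∀ x, D.src x = tsrc P g x := fun x => rfl
  have htgt : ∀ x, D.tgt x = ttgt P g x := fun x => rfl
  refine D.criterion ?_ ?_
  · intro x
    rw [hsrc, hsrc, htgt, htgt]
    change tsrc P g (τ x) + lv u w (c x) = ttgt P g x ∧ ttgt P g (τ x) + lv u w (c x) = tsrc P g x
    rcases hE' x with h | h
    · have h3 := hm _ (hE x)
      rw [← h, (hτ1 _ (hE x)).2.1, (hτ1 _ (hE x)).2.2]
      exact h3
    · have h3 := hm _ (hE x)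
      rw [← h, (hτ2 _ (hE x)).2.1, (hτ2 _ (hE x)).2.2, lv]
      rw [lv] at h3
      simp only [Prod.fst_neg, Prod.snd_neg, Int.cast_neg]
      constructor
      · rw [← h3.2]
        ring
      · rw [← h3.1]
        ring
  · change (k : ℝ) * (volume P.region).toReal = |cr u w|
    rw [abs_of_pos hpos]
    exact hA3

end Pool.Agent.Lib_MP_fa6e45
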