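import Pool.Agent.Lib_MP_fa6e45.HS
import Pool.Agent.Lib_MP_fa6e45.G5b

/-!
MP_fa6e45_co, stage 4 (all polygons with at most six corners): definitions for the checker of certificates. Sides of
equal length may be glued in both ways. `Sit cls act P`: what is known about a polygon with an edge-to-edge tiling.
-/

open Set MeasureTheory Complex
open scoped Topology

namespace Pool.Agent.Lib_MP_fa6e45

/-! ### stars and the linear programming principles -/

/-- the gluing relation given by classes -/
def GC {m : ℕ} (cls : ZMod m → ℕ) (j k : ZMod m) (_ : Bool) : Prop := cls j = cls k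

/-- `c, l` is a star (cyclic sequence of corners); two-tile stars only for `two` -/
def StarS {m : ℕ} (two : ZMod m → ZMod m → Prop) (a : ZMod m → ℝ) (cls : ZMod m → ℕ)
    (c : ZMod m × Bool) (l : List (ZMod m × Bool)) : Prop :=
  Pth (StepG (GC cls)) c l c ∧ a c.1 + (l.map fun x => a x.1).sum = 2 ∧
    (2 ≤ l.length ∨ ∃ d, l = [d] ∧ two c.1 d.1)

/-- first linear programming principle -/
def LPS1 {m : ℕ} [NeZero m] (two : ZMod m → ZMod m → Prop) (a : ZMod m → ℝ)
    (cls : ZMod m → ℕ) : Prop :=
  ∀ (v : ZMod m → ℤ) (A : ZMod m × Bool → ZMod m × Bool → ℤ), (∀ x y, A y x = -A x y) →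
    ∀ L : ℤ, 2 * ∑ i, v i < ((m : ℤ) - 2) * L →
      ∃ (c : ZMod m × Bool) (l : List (ZMod m × Bool)), StarS two a cls c l ∧
        pcost (stepCost v A) c l c < L

/-- second linear programming principle -/
def LPS2 {m : ℕ} [NeZero m] (two : ZMod m → ZMod m → Prop) (a : ZMod m → ℝ)
    (cls : ZMod m → ℕ) (i j : ZMod m) : Prop :=
  ∀ (v : ZMod m → ℤ) (A : ZMod m × Bool → ZMod m × Bool → ℤ), (∀ x y, A y x = -A x y) →
    ∀ L : ℤ, 2 * ∑ i, v i ≤ ((m : ℤ) - 2) * L →
      ∃ (c : ZMod m × Bool) (l : List (ZMod m × Bool)), StarS two a cls c l ∧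
        (pcost (stepCost v A) c l c < L ∨ (TTwo i j c l ∧ pcost (stepCost v A) c l c ≤ L))

/-- what is known about a polygon with an edge-to-edge tiling: `cls` are the classes of equal sides, `act` are the
pairs of corners which meet in stars of two tiles with positive weight -/
structure Sit {n : ℕ} [NeZero n] (cls : ZMod n → ℕ) (act : List (ℕ × ℕ)) (P : Polygon n) : Prop where
  ccw : P.CCW
  len : ∀ j k, cls j = cls k ↔ P.len j = P.len k
  lp1 : LPS1 (fun i j => actB act i.val j.val = true) (fun j => P.ang j / Real.pi) cls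
  lp2 : ∀ i j : ZMod n, actB act i.val j.val = true →
    LPS2 (fun i j => actB act i.val j.val = true) (fun j => P.ang j / Real.pi) cls i j
  sum : ∀ i j : ZMod n, actB act i.val j.val = true → P.ang i / Real.pi + P.ang j / Real.pi = 2

/-! ### symmetries -/

/-- corner `i` becomes corner `sgC r s i` -/
def sgC {n : ℕ} (r : Bool) (s i : ZMod n) : ZMod n := if r then s - i else i + s

/-- side `j` becomes side `sgS r s j` -/
def sgS {n : ℕ} (r : Bool) (s j : ZMod n) : ZMod n := if r then s - 1 - j else j + s

/-- the inverse of `sgS r s` -/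
def siS {n : ℕ} (r : Bool) (s j : ZMod n) : ZMod n := if r then s - 1 - j else j - s

/-- `(cls', act')` is `(cls, act)` with the names of the corners changed by `sgC r s` -/
def relB {n : ℕ} (cls : ZMod n → ℕ) (act : List (ℕ × ℕ)) (cls' : ZMod n → ℕ)
    (act' : List (ℕ × ℕ)) (r : Bool) (s : ZMod n) : Bool :=
  ((List.range n).all fun j => (List.range n).all fun k =>
    (cls (j : ZMod n) == cls (k : ZMod n)) ==
      (cls' (sgS r s (j : ZMod n)) == cls' (sgS r s (k : ZMod n)))) &&
  (List.range n).all fun i => (List.range n).all fun j =>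
    actB act i j == actB act' (sgC r s (i : ZMod n)).val (sgC r s (j : ZMod n)).val

/-! ### special theorems -/

/-- a special theorem: equal sides, different sides, equations for the angles (in units of `π`) -/
structure SpT where
  glue : List (ℕ × ℕ)
  ne : List (ℕ × ℕ)
  eqs : List Eqn

/-- the polygons described by `T` have periodic tilings -/
def SpT.OK (T : SpT) (n : ℕ) [NeZero n] : Prop :=
  ∀ P : Polygon n, P.CCW → (∀ g ∈ T.glue, P.len (g.1 : ZMod n) = P.len (g.2 : ZMod n)) →
    (∀ g ∈ T.ne, P.len (g.1 : ZMod n) ≠ P.len (g.2 : ZMod n)) →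
    (∀ E ∈ T.eqs, Eqn.Holds E fun j => P.ang j / Real.pi) → HasPeriodic P

/-! ### numerical check that a polygon with one free parameter is not closed -/

/-- approximations of `2 ^ 30 exp (i π j / 2 ^ 14)` -/
def gT0 : List (ℤ × ℤ) :=
  [(1073741824, 0), (1073741804, 205887), (1073741745, 411775),
    (1073741646, 617662), (1073741508, 823550), (1073741331, 1029437),
    (1073741113, 1235324), (1073740857, 1441211), (1073740561, 1647099),
    (1073740225, 1852986), (1073739850, 2058873), (1073739436, 2264760),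
    (1073738982, 2470647), (1073738488, 2676534), (1073737955, 2882420),
    (1073737383, 3088307), (1073736771, 3294193), (1073736119, 3500080),
    (1073735429, 3705966), (1073734698, 3911852), (1073733928, 4117738),
    (1073733119, 4323624), (1073732270, 4529510), (1073731382, 4735395),
    (1073730454, 4941281), (1073729487, 5147166), (1073728480, 5353051),
    (1073727434, 5558935), (1073726348, 5764820), (1073725223, 5970704),
    (1073724059, 6176588), (1073722855, 6382472)]

/-- approximations of `2 ^ 30 exp (32 i π j / 2 ^ 14)` -/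
def gT1 : List (ℤ × ℤ) :=
  [(1073741824, 0), (1073721611, 6588356), (1073660973, 13176464),
    (1073559913, 19764076), (1073418433, 26350943), (1073236540, 32936819),
    (1073014240, 39521455), (1072751542, 46104602), (1072448455, 52686014),
    (1072104991, 59265442), (1071721163, 65842639), (1071296985, 72417357),
    (1070832474, 78989349), (1070327646, 85558366), (1069782521, 92124163),
    (1069197120, 98686491), (1068571464, 105245103), (1067905576, 111799753),
    (1067199483, 118350194), (1066453210, 124896179), (1065666786, 131437462),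
    (1064840240, 137973796), (1063973603, 144504935), (1063066909, 151030634),
    (1062120190, 157550647), (1061133483, 164064728), (1060106826, 170572633),
    (1059040255, 177074115), (1057933813, 183568930), (1056787540, 190056834),
    (1055601479, 196537583), (1054375676, 203010932)]

/-- approximations of `2 ^ 30 exp (1024 i π j / 2 ^ 14)` -/
def gT2 : List (ℤ × ℤ) :=
  [(1073741824, 0), (1053110176, 209476638), (992008094, 410903207),
    (892783698, 596538995), (759250125, 759250125), (596538995, 892783698),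
    (410903207, 992008094), (209476638, 1053110176), (0, 1073741824),
    (-209476638, 1053110176), (-410903207, 992008094), (-596538995, 892783698),
    (-759250125, 759250125), (-892783698, 596538995), (-992008094, 410903207),
    (-1053110176, 209476638), (-1073741824, 0), (-1053110176, -209476638),
    (-992008094, -410903207), (-892783698, -596538995), (-759250125, -759250125),
    (-596538995, -892783698), (-410903207, -992008094), (-209476638, -1053110176),
    (0, -1073741824), (209476638, -1053110176), (410903207, -992008094),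
    (596538995, -892783698), (759250125, -759250125), (892783698, -596538995),
    (992008094, -410903207), (1053110176, -209476638)]

/-- product of numbers scaled by `2 ^ 30` -/
def gmul (a b : ℤ × ℤ) : ℤ × ℤ :=
  ((a.1 * b.1 - a.2 * b.2) / 1073741824, (a.1 * b.2 + a.2 * b.1) / 1073741824)

/-- approximation of `2 ^ 30 exp (i π j / 2 ^ 14)` -/
def gexp (j : ℤ) : ℤ × ℤ :=
  let r := (j % 32768).toNat
  gmul (gT2.getD (r / 1024) (0, 0)) (gmul (gT1.getD (r / 32 % 32) (0, 0)) (gT0.getD (r % 32) (0, 0)))

/-- the numbers `(α, β)` with `D * (direction of side j) = π (α + β t)` (side `0` has direction `0`); `lin` lists the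
numbers `(c, q)` with `D * a j = c + q t` -/
def gdirs (D : ℤ) (lin : List (ℤ × ℤ)) : List (ℤ × ℤ) :=
  (lin.tail.foldl (fun (x : (ℤ × ℤ) × List (ℤ × ℤ)) (c : ℤ × ℤ) =>
    ((x.1.1 + D - c.1, x.1.2 - c.2), x.2 ++ [(x.1.1 + D - c.1, x.1.2 - c.2)]))
    (((0, 0) : ℤ × ℤ), [((0, 0) : ℤ × ℤ)])).2

/-- the direction `(α, β)` at the parameter `t = s / 2 ^ 20`: approximate unit vector and error for
`|t - s / 2 ^ 20| ≤ hh / 2 ^ 20` -/
def gdir (D : ℤ) (s hh : ℤ) (d : ℤ × ℤ) : (ℤ × ℤ) × ℤ :=
  (gexp ((d.1 * 1048576 + d.2 * s) * 16384 / (D * 1048576)),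
    22 * 1073741824 * (|d.2| * hh * 16384 + D * 1048576) / (7 * D * 1048576 * 16384) + 1001)

/-- sum of the sides of the class `c`: approximation, error -/
def gsum (cl : List ℕ) (vs : List ((ℤ × ℤ) × ℤ)) (c : ℕ) : (ℤ × ℤ) × ℤ :=
  (cl.zip vs).foldl (fun x y => if y.1 = c then
    ((x.1.1 + y.2.1.1, x.1.2 + y.2.1.2), x.2 + y.2.2) else x) ((0, 0), 0)

/-- the polygon cannot be closed for `t` between `s1 / 2 ^ 20` and `s2 / 2 ^ 20` -/
def gtest (cl : List ℕ) (D : ℤ) (lin ds : List (ℤ × ℤ)) (s1 s2 : ℤ) : Bool :=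
  (lin.any fun c => (decide (c.1 * 1048576 + c.2 * s1 ≤ 0) && decide (c.1 * 1048576 + c.2 * s2 ≤ 0)) ||
    (decide (2 * D * 1048576 ≤ c.1 * 1048576 + c.2 * s1) &&
      decide (2 * D * 1048576 ≤ c.1 * 1048576 + c.2 * s2))) ||
  (let vs := ds.map (gdir D ((s1 + s2) / 2) ((s2 - s1) / 2 + 1))
   let x := gsum cl vs 0
   let y := gsum cl vs 1
   if cl.contains 1 then
     let e := ((cl.count 1 : ℕ) : ℤ) * 1073741824 * x.2 +
       (((cl.count 0 : ℕ) : ℤ) * 1073741824 + x.2) * y.2
     decide (e < |x.1.2 * y.1.1 - x.1.1 * y.1.2|) || decide (e < x.1.1 * y.1.1 + x.1.2 * y.1.2)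
   else decide (x.2 * x.2 < x.1.1 * x.1.1 + x.1.2 * x.1.2))

/-- bisection -/
def gbis (cl : List ℕ) (D : ℤ) (lin ds : List (ℤ × ℤ)) : ℕ → ℤ → ℤ → Bool
  | 0, _, _ => false
  | fuel + 1, s1, s2 => gtest cl D lin ds s1 s2 ||
      (gbis cl D lin ds fuel s1 ((s1 + s2) / 2) && gbis cl D lin ds fuel ((s1 + s2) / 2) s2)

/-- `cs` derives the equations `D * a j = c j + q j * a f` from `eqs` -/
def gder (m : ℕ) (eqs : List Eqn) (D : ℤ) (f : ℕ) (lin : List (ℤ × ℤ))
    (cs : List (ℤ × List ℤ)) : Bool :=
  (List.range m).all fun j =>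
    (cs.getD j (0, [])).1 != 0 &&
    ((List.range m).all fun i => lcCo (cs.getD j (0, [])).2 eqs i ==
      (cs.getD j (0, [])).1 * ((if i = j then D else 0) - if i = f then (lin.getD j (0, 0)).2 else 0)) &&
    lcRhs (cs.getD j (0, [])).2 eqs == (cs.getD j (0, [])).1 * (lin.getD j (0, 0)).1

/-- the numerical check: a polygon with the equations `eqs` does not exist -/
def geoB {m : ℕ} (cls : ZMod m → ℕ) (eqs : List Eqn) (D : ℤ) (f : ℕ) (lin : List (ℤ × ℤ))
    (cs : List (ℤ × List ℤ)) (fuel : ℕ) : Bool :=
  decide (0 < D) && decide (f < m) && lin.length == m &&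
    ((List.range m).all fun j => decide (cls (j : ZMod m) < 2)) && gder m eqs D f lin cs &&
    gbis ((List.range m).map fun j => cls (j : ZMod m)) D lin (gdirs D lin) fuel 0 2097152

/-! ### certificates -/

/-- child of a linear programming node: contradiction, or a reference to an earlier node, up to a symmetry -/
inductive HCh
  | contra (ls : List ℤ)
  | ref (idx : ℕ) (r : Bool) (s : ℕ) (cs : List (ℤ × List ℤ))

/-- nodes of a certificate -/
inductive HN
  | leafM (k : ℕ) (nu : List ℕ) (cs : List (ℤ × List ℤ)) (inn : List (ℕ × ℕ × ℤ × List ℤ))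
  | spec (id : ℕ) (r : Bool) (s : ℕ) (cs : List (ℤ × List ℤ))
  | geo (D : ℤ) (f : ℕ) (lin : List (ℤ × ℤ)) (cs : List (ℤ × List ℤ)) (fuel : ℕ)
  | lp (t0 : T0) (v : List ℤ) (A : List (ℕ × ℕ × ℤ)) (φ : List ℤ) (L fuel : ℕ)
      (tab : List (List (ℕ × ℕ))) (cvs : List (List ℕ)) (ch : List HCh)

/-- `cs` derives the equations of the list, with corner `i` renamed to corner `σ i`, from `eqs` -/
def derG (m : ℕ) (eqs : List Eqn) (σ : ℕ → ℕ) : List Eqn → List (ℤ × List ℤ) → Bool
  | [], [] => true
  | E :: Es, c :: cs =>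
      c.1 != 0 && ((List.range m).all fun i => lcCo c.2 eqs i == c.1 * E.1.getD (σ i) 0) &&
        lcRhs c.2 eqs == c.1 * E.2 && derG m eqs σ Es cs
  | _, _ => false

/-- the equation `a x + a y = 2` is derived -/
def innB (m : ℕ) (eqs : List Eqn) (e : ℕ × ℕ × ℤ × List ℤ) : Bool :=
  e.2.2.1 != 0 && ((List.range m).all fun i =>
    lcCo e.2.2.2 eqs i == e.2.2.1 * (pairE m e.1 e.2.1).getD i 0) &&
    lcRhs e.2.2.2 eqs == e.2.2.1 * 2

/-- check of `GlueM` for single sides -/
def glueHB {m : ℕ} (cls : ZMod m → ℕ) (inn : List (ℕ × ℕ × ℤ × List ℤ)) (nu : List ℕ)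
    (g : ℕ × ℕ × Bool) : Bool :=
  nuU m nu g.2.1 == nuU m nu g.1 &&
    ((List.range (nuU m nu g.1)).all fun t => cls (nuA m nu g.1 t) ==
      cls (nuA m nu g.2.1 (if g.2.2 then nuU m nu g.1 - 1 - t else t))) &&
    (List.range (nuU m nu g.1)).all fun t => t == 0 || inn.any fun e =>
      e.1 == (nu.getD g.1 0 + t) % m &&
        e.2.1 == (nu.getD g.2.1 0 + (if g.2.2 then nuU m nu g.1 - t else t)) % m

/-- check of the children of a linear programming node -/
def chB {m : ℕ} (cls : ZMod m → ℕ) (act : List (ℕ × ℕ)) (D : List (List Eqn)) (i : ℕ)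
    (eqs : List Eqn) : List (List ℕ) → List HCh → Bool
  | [], [] => true
  | cv :: cvs, c :: cs =>
      (match c with
        | HCh.contra ls => contraB m ((cv.map fun x => (x : ℤ), 2) :: eqs) ls
        | HCh.ref idx r s ds => decide (idx < i) && relB cls act cls act r (s : ZMod m) &&
            derG m ((cv.map fun x => (x : ℤ), 2) :: eqs)
              (fun x => (sgC r (s : ZMod m) (x : ZMod m)).val) (D.getD idx []) ds) &&
      chB cls act D i eqs cvs cs
  | _, _ => false

/-- check of node `i` -/
def chkN {m : ℕ} (cls : ZMod m → ℕ) (act : List (ℕ × ℕ)) (sp : List SpT) (D : List (List Eqn))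
    (i : ℕ) (N : HN) : Bool :=
  match N with
    | HN.leafM k nu cs inn => nuOK m nu && (inn.all (innB m (D.getD i [] ++ eqs0 m act))) &&
        ((schM nu.length k).glue.all fun g => glueHB cls inn nu g) &&
        derMB m (D.getD i [] ++ eqs0 m act) nu (schM nu.length k).eqs cs
    | HN.spec id r s cs =>
        match sp[id]? with
          | none => false
          | some T => (T.glue.all fun g => cls (siS r (s : ZMod m) (g.1 : ZMod m)) ==
              cls (siS r (s : ZMod m) (g.2 : ZMod m))) &&
            (T.ne.all fun g => cls (siS r (s : ZMod m) (g.1 : ZMod m)) !=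
              cls (siS r (s : ZMod m) (g.2 : ZMod m))) &&
            derG m (D.getD i [] ++ eqs0 m act) (fun x => (sgC r (s : ZMod m) (x : ZMod m)).val)
              T.eqs cs
    | HN.geo d f lin cs fuel => geoB cls (D.getD i [] ++ eqs0 m act) d f lin cs fuel
    | HN.lp t0 v A φ L fuel tab cvs ch =>
        lpB2 cls (fun _ => Ty.S) act t0 v A φ L fuel tab cvs &&
          (match t0 with
            | T0.imp _ => false
            | _ => true) &&
          chB cls act D i (D.getD i [] ++ eqs0 m act) cvs ch

/-- all nodes with numbers from `lo` to `hi - 1` are correct -/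
def chkR4 {m : ℕ} (cls : ZMod m → ℕ) (act : List (ℕ × ℕ)) (sp : List SpT) (D : List (List Eqn))
    (Ns : List HN) (lo hi : ℕ) : Bool :=
  (List.range (hi - lo)).all fun j => chkN cls act sp D (lo + j) (Ns.getD (lo + j) (HN.spec 0 true 0 []))

end Pool.Agent.Lib_MP_fa6e45
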