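import Pool.Agent.Lib_MP_fa6e45.HK

/-!
MP_fa6e45_co, stage 4: certificates (captain, generated by a program).
-/

namespace Pool.Agent.Lib_MP_fa6e45

/-- nodes 0 to 11 -/
noncomputable def hN5_17_0 : List HM :=
  [.base (.leafM k0 [k1,k2,k3,k4,k0] [(z1,[z0,z1,z1])] []),
    .base (.leafM k0 [k1,k2,k3,k4,k0] [(z2,[z0,z1,z1])] []),
    .base (.leafM k0 [k3,k4,k0,k1,k2] [(z3,[y1,y1,y1,z3])] []),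
    .base (.leafM k0 [k4,k0,k1,k2,k3] [(z1,[z1])] []),
    .base (.spec k0 true k4 [(z1,[y1,y1,y1,z1]),(z1,[z0,z2,z1])]),
    .base (.spec k1 true k4 [(z3,[y1,y1,y1,z3]),(z3,[z2,z0,z1])]),
    .lp k0 [k82,k56,k68,k92,k60] [k5,k5,k20,k16,k16,k8,k0,k0,k20,k12] k0 [[k0,k32,k0,k0,k0,k0,k0,k28,k0,k0],[k0,k0,
    k20,k8,k0,k12,k0,k0,k0,k0],[k8,k0,k0,k0,k0,k0,k12,k0,k0,k0],[k20,k0,k0,k0,k0,k0,k0,k0,k0,k0],[k12,k0,k0,k0,k0,k0,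
    k0,k0,k0,k0],[k0,k0,k0,k0,k0,k0,k12,k0,k0,k0],[k0,k28,k0,k0,k0,k0,k0,k0,k0,k0],[k0,k0,k0,k12,k12,k0,k0,k0,k0,k0],
    [k0,k0,k0,k0,k0,k0,k0,k0,k0,k0],[k0,k0,k0,k0,k0,k0,k0,k0,k0,k0]] (nat_lit 240) k6
    [[(k8,k67),(k1,k82)],[(k0,k50),(k6,k59),(k3,k71),(k4,k71),(k9,k75),(k2,k87),(k5,k87),(k7,k99)],[(k2,k48),(k4,k48),
    (k5,k48),(k0,k71),(k6,k76),(k7,k76),(k3,k92),(k9,k92)],[(k3,k48),(k9,k48),(k2,k52),(k4,k56),(k5,k64),(k6,k72),(k7,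
    k72),(k0,k87)],[(k3,k48),(k2,k64),(k4,k68),(k9,k72),(k5,k76),(k7,k84),(k0,k87),(k6,k96)],[(k3,k48),(k2,k56),(k4,
    k60),(k9,k64),(k5,k68),(k0,k71),(k7,k76),(k6,k88)],[(k9,k68),(k2,k72),(k3,k76),(k4,k76),(k5,k84),(k6,k92),(k7,
    k92),(k0,k99)],[(k0,k59),(k2,k72),(k3,k76),(k9,k80),(k4,k88),(k6,k92),(k7,k92),(k5,k96)],[(k2,k48),(k4,k64),(k7,
    k68),(k9,k68),(k5,k72),(k0,k75),(k6,k80),(k3,k92)],[(k8,k52),(k1,k67)]]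
    [[k1,k1,k0,k0,k1],[k1,k2,k0,k0,k1],[k1,k1,k1,k0,k1],[k1,k0,k1,k0,k1],[k1,k0,k0,k1,k1],[k0,k3,k0,k0,k0],[k0,k4,k0,
    k0,k0],[k0,k3,k1,k0,k0],[k0,k2,k1,k0,k0],[k0,k2,k2,k0,k0],[k0,k2,k0,k1,k0],[k0,k1,k2,k0,k0],[k0,k1,k1,k1,k0],[k0,
    k1,k1,k0,k2],[k0,k1,k0,k0,k2],[k0,k0,k3,k0,k0],[k0,k0,k1,k0,k2],[k0,k0,k0,k1,k2]]
    [.ref k0 k0 [(z3,[z3,y2,y1]),(z3,[y3,y1,z1]),(z3,[z0,z1,y1,z3])],.contra [y3,z1,z2],.contra [y1,z0,z0,z1],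
    .ref k0 k0 [(z3,[z3,y1,z1,y3]),(z3,[y3,y2,y1,z3]),(z3,[z0,z1,y1,z3])],.ref k1 k1 [(z1,[z1,z1]),(z3,[y3,z1,z2]),
    (z3,[y3,y1,y2,z6])],.ref k2 k1 [(z2,[y1,z2,z1]),(z1,[z1]),(z1,[z1,y1,y2,z3])],.ref k1 k1 [(z6,[y3,z8,z4]),(z2,
    [z1]),(z6,[z3,y4,y8,z12])],.ref k1 k1 [(z6,[y3,z7,z2,z3]),(z6,[z3,z1,z2,y3]),(z2,[z1,y1,y2,z3])],.ref k2 k1 [(z6,
    [y3,z5,z1,z3]),(z3,[z3,z1,z2,y3]),(z3,[z3,y2,y4,z6])],.ref k1 k1 [(z2,[y1,z2,z0,z2]),(z6,[z3,z2,z4,y6]),(z6,[z3,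
    y2,y4,z6])],.ref k3 k0 [(z3,[y3,z1,z2]),(z3,[z3,y4,y2]),(z3,[z0,z1,y1,z3])],.ref k2 k1 [(z6,[y3,z4,y1,z6]),(z3,
    [z3,z2,z4,y6]),(z3,[z3,y1,y2,z3])],.ref k3 k0 [(z1,[y1,z0,z0,z1]),(z1,[z1,y1,z0,y1]),(z3,[z0,z1,y1,z3])],
    .ref k4 k0 [(z2,[z1,y1,z0,y1]),(z2,[y1,y1,z0,z1]),(z3,[z0,z1,y1,z3])],.ref k0 k0 [(z6,[z3,y2,y1]),(z6,[y3,y4,z1]),
    (z3,[z0,z1,y1,z3])],.ref k2 k1 [(z2,[y1,z1,y1,z3]),(z1,[z1,z1,z2,y3]),(z1,[z1])],.ref k0 k0 [(z6,[z3,y1,z1,y3]),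
    (z6,[y3,y5,y1,z3]),(z3,[z0,z1,y1,z3])],.ref k5 k1 [(z1,[z1,z1]),(z1,[y2,z0,z1]),(z1,[y2,y1,y1,z3])]],
    .base (.leafM k0 [k1,k2,k3,k4,k0] [(z2,[z0,z1,z1])] []),
    .base (.leafM k0 [k0,k1,k2,k3,k4] [(z3,[z1,z1])] []),
    .lp k0 [k60,k60,k90,k60,k86] [k19,k19,k19,k19,k4,k4,k19,k19,k12,k0] k0 [[k0,k0,k0,k0,k0,k0,k0,k0,k0,k0],[k0,k0,k0,
    k0,k0,k0,k0,k0,k0,k0],[k0,k0,k0,k0,k0,k0,k0,k0,k0,k0],[k0,k0,k0,k0,k0,k0,k0,k8,k0,k0],[k0,k0,k0,k0,k0,k0,k22,k8,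
    k0,k0],[k0,k0,k0,k0,k0,k0,k0,k0,k0,k0],[k0,k0,k8,k0,k0,k8,k0,k0,k0,k0],[k0,k0,k0,k0,k0,k22,k38,k0,k0,k0],[k0,k0,
    k0,k0,k0,k0,k0,k0,k0,k0],[k0,k0,k0,k0,k0,k0,k0,k0,k0,k0]] (nat_lit 240) k5
    [[(k1,k60),(k8,k67)],[(k0,k60),(k2,k60),(k3,k60),(k6,k60),(k7,k60),(k4,k75),(k5,k75),(k9,k79)],[(k0,k60),(k2,k60),
    (k3,k60),(k6,k60),(k7,k60),(k4,k75),(k5,k75),(k9,k79)],[(k0,k60),(k2,k60),(k3,k60),(k6,k60),(k7,k60),(k4,k75),(k5,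
    k75),(k9,k87)],[(k6,k67),(k0,k75),(k2,k75),(k3,k75),(k7,k75),(k4,k90),(k5,k90),(k9,k94)],[(k6,k67),(k9,k72),(k0,
    k75),(k2,k75),(k3,k75),(k7,k75),(k4,k90),(k5,k90)],[(k0,k60),(k2,k60),(k3,k60),(k7,k60),(k4,k75),(k5,k75),(k6,
    k82),(k9,k87)],[(k0,k60),(k2,k60),(k3,k60),(k4,k67),(k5,k67),(k9,k79),(k7,k82),(k6,k98)],[(k9,k60),(k4,k72),(k0,
    k79),(k3,k79),(k6,k79),(k2,k87),(k7,k87),(k5,k94)],[(k1,k67),(k8,k74)]]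
    [[k2,k1,k0,k0,k0],[k2,k0,k1,k0,k0],[k2,k0,k0,k1,k0],[k1,k1,k0,k0,k1],[k1,k0,k1,k0,k1],[k1,k0,k0,k1,k1],[k0,k3,k0,
    k0,k0],[k0,k2,k1,k0,k0],[k0,k2,k0,k1,k0],[k0,k1,k1,k1,k0],[k0,k1,k0,k2,k0],[k0,k0,k2,k1,k0],[k0,k0,k1,k2,k0]]
    [.ref k7 k1 [(z2,[z5,y2,y5]),(z2,[y1,z2,z5]),(z2,[y1,z2,z1,z4]),(z2,[y1,y2,y3,y4,z4])],.ref k7 k1 [(z2,[z5,y2,z0,
    y5]),(z2,[y1,z2,z4,z1]),(z2,[y1,z2,z0,z5]),(z2,[y1,y2,y4,y3,z4])],.ref k7 k1 [(z2,[z5,z3,z5,z5,y5]),(z2,[y1,z1,z3,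
    y1,z1]),(z2,[y1,z1,y1,z3,z1]),(z2,[y1,y3,y5,y5,z5])],.ref k7 k1 [(z1,[z5,y1,y5]),(z1,[y1,z1,z3]),(z1,[y1,z1,z1,
    z2]),(z1,[y1,y1,y1,y2,z2])],.ref k7 k1 [(z1,[z5,y1,z0,y5]),(z1,[y1,z1,z2,z1]),(z1,[y1,z1,z0,z3]),(z1,[y1,y1,y2,y1,
    z2])],.ref k7 k1 [(z1,[z5,z4,z5,z5,y5]),(z1,[y1,z0,z1,y1,z1]),(z1,[y1,z0,y1,z1,z1]),(z1,[y1,y2,y3,y3,z3])],
    .ref k8 k1 [(z2,[y5,z6,z15]),(z1,[z1]),(z1,[z1,z0,y3,z3]),(z1,[z1,y3,y6,y3,z3])],.ref k8 k1 [(z2,[y5,z6,z10,z5]),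
    (z1,[z1,z0,z1,y1]),(z1,[z1,z0,y2,z2]),(z1,[z1,y3,y5,y4,z3])],.ref k8 k1 [(z2,[y5,z1,z5,y5,z5]),(z1,[z1,z1,z2,z1,
    y1]),(z1,[z1,z1,y1,z4,y1]),(z1,[z1,y2,y4,y2,z2])],.ref k8 k1 [(z2,[y5,z1,z0,z0,z5]),(z1,[z1,z1,z3,z0,y1]),(z1,[z1,
    z1,z0,z3,y1]),(z1,[z1,y2,y3,y3,z2])],.ref k8 k1 [(z2,[y5,y4,y5,y10,z10]),(z1,[z1,z2,z4,z2,y2]),(z1,[z1,z2,z1,z5,
    y2]),(z1,[z1,y1,y2,y1,z1])],.ref k8 k1 [(z2,[y5,z1,y5,z5,z5]),(z1,[z1,z1,z4,y1,y1]),(z1,[z1,z1,z1,z2,y1]),(z1,[z1,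
    y2,y2,y4,z2])],.ref k8 k1 [(z2,[y5,y4,y10,y5,z10]),(z1,[z1,z2,z5,z1,y2]),(z1,[z1,z2,z2,z4,y2]),(z1,[z1,y1,y1,y2,
    z1])]],
    .base (.leafM k2 [k0,k1,k2,k3,k4] [(z4,[y1,z0,y1,z4])] []),
    .base (.leafM k0 [k1,k2,k3,k4,k0] [(z1,[z0,z1,z1])] [])]

theorem hB5_17_0 : blkB [0, 0, 0, 0, 1] [] sp5 hS5_17 (pcls (n := 5) [0, 0, 0, 0, 1]) hD5_17 162 0 hN5_17_0 = true := by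
  decide +kernel

/-- nodes 12 to 23 -/
noncomputable def hN5_17_1 : List HM :=
  [.base (.leafM k0 [k4,k0,k1,k2,k3] [(z1,[z1])] []),
    .base (.leafM k0 [k0,k1,k2,k3,k4] [(z1,[z1,z1])] []),
    .base (.spec k1 false k0 [(z3,[z2,z1]),(z1,[z0,z0,z1])]),
    .lp k0 [k68,k94,k38,k94,k64] [k13,k13,k0,k0,k28,k28,k0,k0,k15,k15] k0 [[k0,k0,k0,k0,k0,k0,k0,k2,k0,k0],[k0,k0,k12,
    k0,k0,k12,k0,k0,k0,k0],[k0,k0,k0,k42,k42,k0,k0,k0,k0,k0],[k12,k0,k0,k0,k0,k0,k0,k16,k0,k0],[k12,k0,k0,k0,k0,k0,k0,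
    k18,k0,k0],[k0,k0,k0,k42,k42,k0,k0,k0,k0,k0],[k0,k2,k16,k0,k0,k18,k0,k0,k0,k0],[k0,k0,k0,k0,k0,k0,k0,k0,k0,k0],
    [k0,k0,k0,k0,k0,k0,k0,k0,k0,k0],[k0,k0,k0,k0,k0,k0,k0,k0,k0,k0]] (nat_lit 240) k6
    [[(k8,k66),(k1,k68)],[(k4,k53),(k5,k53),(k9,k66),(k0,k68),(k6,k79),(k3,k81),(k2,k93),(k7,k93)],[(k4,k54),(k5,k54),
    (k0,k81),(k9,k81),(k2,k94),(k3,k94),(k6,k94),(k7,k94)],[(k2,k52),(k7,k52),(k4,k66),(k5,k66),(k0,k93),(k3,k94),(k6,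
    k94),(k9,k95)],[(k6,k50),(k9,k51),(k0,k53),(k3,k54),(k2,k66),(k7,k66),(k4,k80),(k5,k80)],[(k6,k48),(k9,k51),(k0,
    k53),(k3,k54),(k2,k66),(k7,k66),(k4,k80),(k5,k80)],[(k2,k52),(k7,k52),(k4,k66),(k5,k66),(k0,k93),(k3,k94),(k6,
    k94),(k9,k97)],[(k4,k48),(k5,k50),(k0,k79),(k9,k79),(k2,k94),(k3,k94),(k6,k94),(k7,k94)],[(k4,k51),(k5,k51),(k9,
    k64),(k0,k66),(k6,k79),(k3,k81),(k2,k95),(k7,k97)],[(k8,k64),(k1,k66)]]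
    [[k2,k0,k1,k0,k0],[k1,k0,k1,k0,k1],[k1,k0,k0,k1,k1],[k0,k2,k1,k0,k0],[k0,k1,k2,k0,k0],[k0,k1,k2,k1,k0],[k0,k1,k1,
    k1,k0],[k0,k0,k2,k1,k0],[k0,k0,k2,k2,k0],[k0,k0,k1,k2,k0],[k0,k0,k1,k0,k2]]
    [.ref k9 k0 [(z1,[y1,y2,y1,z1]),(z1,[z0,z1]),(z1,[z1])],.ref k10 k1 [(z1,[z1,z2,z1,y1]),(z1,[y1,z0,z1,z1]),(z1,
    [z3,y2,y1,z1])],.ref k11 k1 [(z1,[y1,z1]),(z1,[z2,y1,z1]),(z1,[y3,z1,y1,z1])],.ref k12 k1 [(z1,[y1,z0,z1,z1]),(z1,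
    [z2,z1,y1,y2]),(z1,[y3,y2,z2,z4])],.ref k13 k0 [(z2,[y1,y3,y1,z2]),(z1,[z0,z1]),(z2,[z1,y1,y1])],.ref k11 k1 [(z2,
    [z1,z2,z1,y2]),(z1,[y1,y1,z0,z2]),(z2,[z3,z2,z1,y4])],.ref k12 k1 [(z1,[y1,z0,z0,z1]),(z1,[z2,z1,z1,y2]),(z1,[y3,
    y2,y1,z4])],.ref k13 k0 [(z2,[y1,y3,y2,z2]),(z1,[z0,z1]),(z2,[z1,y1])],.ref k11 k1 [(z2,[z1,z2,z2,y2]),(z1,[y1,y1,
    y1,z2]),(z2,[z3,z2,z4,y4])],.ref k12 k1 [(z1,[y1,z0,y1,z1]),(z1,[z2,z1,z3,y2]),(z1,[y3,y2,y4,z4])],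
    .ref k14 k1 [(z1,[z1,z2,z1,y1]),(z1,[y2,y1,z1,z2]),(z1,[z1])]],
    .base (.leafM k0 [k2,k3,k4,k0,k1] [(z1,[y1,y1,z1])] []),
    .base (.leafM k2 [k0,k1,k2,k3,k4] [(z1,[z0,z1])] []),
    .base (.leafM k0 [k1,k2,k3,k4,k0] [(z1,[y1,z0,z1])] []),
    .base (.leafM k0 [k3,k4,k0,k1,k2] [(z1,[y1,y1,z1])] []),
    .base (.leafM k0 [k4,k0,k1,k2,k3] [(z1,[z1])] []),
    .base (.leafM k0 [k1,k2,k3,k4,k0] [(z3,[z0,z1,z1])] []),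
    .base (.leafM k2 [k0,k1,k2,k3,k4] [(z3,[y1,z0,y1,z3])] []),
    .base (.leafM k0 [k1,k2,k3,k4,k0] [(z3,[z0,z1,z1])] [])]

theorem hB5_17_1 : blkB [0, 0, 0, 0, 1] [] sp5 hS5_17 (pcls (n := 5) [0, 0, 0, 0, 1]) hD5_17 162 1 hN5_17_1 = true := by
  decide +kernel

/-- nodes 24 to 35 -/
noncomputable def hN5_17_2 : List HM :=
  [.base (.leafM k0 [k4,k0,k1,k2,k3] [(z1,[z1])] []),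
    .base (.spec k0 true k4 [(z3,[y1,y1,y1,z3]),(z3,[z0,z2,z1])]),
    .base (.spec k1 false k0 [(z3,[z2,z1]),(z3,[y2,y2,y1,z6])]),
    .base (.spec k16 false k0 [(z3,[z2,z1]),(z3,[y1,y1,y1,z3])]),
    .lp k0 [(nat_lit 270),(nat_lit 280),(nat_lit 300),(nat_lit 340),(nat_lit 210)] [k39,k39,k68,k0,k32,k16,k4,k4,k69,
    k69] k0 [[k0,k60,k80,k0,k0,k80,k0,k0,k0,k0],[k0,k0,k140,k0,k0,k80,k0,k0,k0,k0],[k0,k0,k0,k20,k20,k40,k0,k0,k0,k0],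
    [k140,k80,k0,k0,k0,k0,k20,k0,k0,k0],[k80,k80,k0,k40,k0,k0,k20,k0,k0,k0],[k0,k0,k0,k20,k20,k0,k0,k0,k0,k0],[k0,k0,
    k0,k0,k0,k0,k0,k60,k0,k0],[k0,k0,k20,k0,k0,k20,k0,k0,k0,k0],[k0,k0,k0,k0,k0,k0,k0,k0,k0,k0],[k0,k0,k0,k0,k0,k0,k0,
    k0,k0,k0]] (nat_lit 960) k6
    [[(k8,(nat_lit 240)),(k1,(nat_lit 270))],[(k4,k197),(k0,(nat_lit 210)),(k5,(nat_lit 213)),(k9,(nat_lit 240)),(k6,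
    (nat_lit 305)),(k3,(nat_lit 309)),(k2,(nat_lit 381)),(k7,(nat_lit 385))],[(k5,k192),(k4,(nat_lit 236)),(k9,
    (nat_lit 279)),(k0,(nat_lit 309)),(k6,(nat_lit 344)),(k2,(nat_lit 360)),(k3,(nat_lit 408)),(k7,(nat_lit 424))],
    [(k2,k192),(k4,(nat_lit 208)),(k9,(nat_lit 211)),(k7,(nat_lit 256)),(k5,(nat_lit 264)),(k6,(nat_lit 296)),(k3,
    (nat_lit 360)),(k0,(nat_lit 381))],[(k3,k192),(k0,(nat_lit 213)),(k9,(nat_lit 243)),(k2,(nat_lit 264)),(k4,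
    (nat_lit 320)),(k6,(nat_lit 328)),(k5,(nat_lit 336)),(k7,(nat_lit 368))],[(k0,k197),(k2,(nat_lit 208)),(k9,
    (nat_lit 227)),(k3,(nat_lit 236)),(k4,(nat_lit 304)),(k6,(nat_lit 312)),(k7,(nat_lit 312)),(k5,(nat_lit 320))],
    [(k2,(nat_lit 256)),(k9,(nat_lit 275)),(k4,(nat_lit 312)),(k7,(nat_lit 320)),(k6,(nat_lit 360)),(k5,
    (nat_lit 368)),(k0,(nat_lit 385)),(k3,(nat_lit 424))],[(k9,(nat_lit 275)),(k6,(nat_lit 280)),(k2,(nat_lit 296)),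
    (k0,(nat_lit 305)),(k4,(nat_lit 312)),(k5,(nat_lit 328)),(k3,(nat_lit 344)),(k7,(nat_lit 360))],[(k2,
    (nat_lit 211)),(k4,(nat_lit 227)),(k0,(nat_lit 240)),(k5,(nat_lit 243)),(k9,(nat_lit 270)),(k6,(nat_lit 275)),(k7,
    (nat_lit 275)),(k3,(nat_lit 279))],[(k8,(nat_lit 210)),(k1,(nat_lit 240))]]
    [[k2,k0,k1,k0,k0],[k1,k1,k0,k0,k1],[k1,k1,k1,k0,k1],[k1,k0,k1,k0,k1],[k1,k0,k0,k1,k1],[k0,k2,k1,k0,k0],[k0,k2,k2,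
    k0,k0],[k0,k1,k2,k0,k0],[k0,k1,k1,k1,k0],[k0,k1,k1,k0,k2],[k0,k1,k0,k0,k2],[k0,k0,k1,k0,k2],[k0,k0,k0,k1,k2]]
    [.ref k2 k1 [(z2,[z3,z1,z1,y3]),(z1,[y3,z1,z0,z3]),(z1,[z0,y1,y1,z3])],.ref k21 k0 [(z3,[z3,y2,y1]),(z1,[y3,z1,
    z1]),(z1,[z0,y1,y1,z3])],.contra [y1,z0,z0,z1],.ref k22 k0 [(z1,[z3,z1,z1,y3]),(z3,[y3,y2,y1,z3]),(z1,[z0,y1,y1,
    z3])],.ref k23 k1 [(z1,[z3,z1]),(z1,[y3,z1,z1]),(z1,[z0,y1,y1,z3])],.ref k2 k1 [(z4,[y3,z3,z1,z3]),(z2,[z3,z1,z1,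
    y3]),(z1,[z0,y1,y1,z3])],.ref k23 k1 [(z2,[y3,z2,z0,z6]),(z2,[z3,z2,z2,y6]),(z1,[z0,y1,y1,z3])],.ref k2 k1 [(z2,
    [y3,z0,y1,z6]),(z1,[z3,z2,z2,y6]),(z1,[z0,y1,y1,z3])],.ref k24 k0 [(z1,[y1,z0,z0,z1]),(z1,[z3,y1,z0,y3]),(z1,[z0,
    y1,y1,z3])],.ref k25 k0 [(z2,[z3,y1,z0,y3]),(z2,[y3,y1,z0,z3]),(z1,[z0,y1,y1,z3])],.ref k21 k0 [(z6,[z3,y2,y1]),
    (z2,[y3,z0,z1]),(z1,[z0,y1,y1,z3])],.ref k26 k1 [(z2,[z3,z3,z1,y3]),(z1,[y3,y1,z0,z3]),(z1,[z0,y1,y1,z3])],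
    .ref k27 k1 [(z1,[z3,z1]),(z1,[y6,z0,z1]),(z1,[z0,y1,y1,z3])]],
    .base (.leafM k2 [k0,k1,k2,k3,k4] [(z1,[z0,z1])] []),
    .base (.spec k1 false k0 [(z1,[z2,z1]),(z1,[z0,z0,z1])]),
    .base (.leafM k0 [k2,k3,k4,k0,k1] [(z1,[y1,y1,z0,z1])] []),
    .base (.leafM k0 [k2,k3,k4,k0,k1] [(z5,[z0,z0,z1,z1])] []),
    .lp k0 [(nat_lit 302),(nat_lit 288),(nat_lit 300),(nat_lit 340),(nat_lit 202)] [k19,k19,k26,k26,k20,k20,k0,k0,k69,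
    k69] k0 [[k0,k52,k64,k0,k0,k64,k0,k0,k0,k0],[k0,k0,k68,k0,k0,k16,k0,k0,k0,k0],[k0,k0,k0,k20,k20,k32,k0,k0,k0,k0],
    [k68,k64,k0,k0,k0,k0,k12,k0,k0,k0],[k16,k64,k0,k32,k0,k0,k12,k0,k0,k0],[k0,k0,k0,k20,k20,k0,k0,k0,k0,k0],[k0,k0,
    k0,k0,k0,k0,k0,k52,k0,k0],[k0,k0,k12,k0,k0,k12,k0,k0,k0,k0],[k0,k0,k0,k0,k0,k0,k0,k0,k0,k0],[k0,k0,k0,k0,k0,k0,k0,
    k0,k0,k0]] (nat_lit 960) k6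
    [[(k8,(nat_lit 252)),(k1,(nat_lit 302))],[(k4,(nat_lit 237)),(k5,(nat_lit 237)),(k0,(nat_lit 250)),(k9,
    (nat_lit 252)),(k3,(nat_lit 295)),(k6,(nat_lit 321)),(k7,(nat_lit 337)),(k2,(nat_lit 363))],[(k5,(nat_lit 226)),
    (k9,(nat_lit 245)),(k4,(nat_lit 278)),(k0,(nat_lit 295)),(k6,(nat_lit 314)),(k3,(nat_lit 340)),(k2,(nat_lit 352)),
    (k7,(nat_lit 378))],[(k9,(nat_lit 245)),(k4,(nat_lit 262)),(k2,(nat_lit 268)),(k5,(nat_lit 294)),(k7,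
    (nat_lit 294)),(k6,(nat_lit 326)),(k3,(nat_lit 352)),(k0,(nat_lit 363))],[(k3,(nat_lit 226)),(k0,(nat_lit 237)),
    (k9,(nat_lit 239)),(k2,(nat_lit 294)),(k4,(nat_lit 320)),(k5,(nat_lit 320)),(k6,(nat_lit 320)),(k7,
    (nat_lit 352))],[(k0,(nat_lit 237)),(k9,(nat_lit 239)),(k2,(nat_lit 262)),(k3,(nat_lit 278)),(k4,(nat_lit 320)),
    (k5,(nat_lit 320)),(k6,(nat_lit 320)),(k7,(nat_lit 320))],[(k9,(nat_lit 271)),(k2,(nat_lit 294)),(k4,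
    (nat_lit 320)),(k7,(nat_lit 320)),(k0,(nat_lit 337)),(k5,(nat_lit 352)),(k6,(nat_lit 352)),(k3,(nat_lit 378))],
    [(k9,(nat_lit 271)),(k6,(nat_lit 288)),(k3,(nat_lit 314)),(k4,(nat_lit 320)),(k5,(nat_lit 320)),(k0,
    (nat_lit 321)),(k2,(nat_lit 326)),(k7,(nat_lit 352))],[(k4,(nat_lit 239)),(k5,(nat_lit 239)),(k2,(nat_lit 245)),
    (k3,(nat_lit 245)),(k0,(nat_lit 252)),(k9,(nat_lit 254)),(k6,(nat_lit 271)),(k7,(nat_lit 271))],[(k8,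
    (nat_lit 202)),(k1,(nat_lit 252))]]
    [[k2,k0,k1,k0,k0],[k1,k1,k0,k0,k1],[k1,k0,k1,k0,k1],[k1,k0,k0,k1,k1],[k0,k2,k1,k0,k0],[k0,k1,k2,k0,k0],[k0,k1,k1,
    k1,k0],[k0,k1,k1,k0,k2],[k0,k1,k0,k0,k2],[k0,k0,k1,k0,k2],[k0,k0,k0,k1,k2],[k0,k0,k0,k0,k4]]
    [.ref k8 k0 [(z1,[z1,y2,z0,y1]),(z1,[z2,y7,y3,y5,z3]),(z1,[y1,z2,z0,z4]),(z1,[y4,z8,z3,z4])],.contra [z1,y1,y1,
    z1],.contra [z1,z0,z0,y1],.ref k32 k0 [(z1,[z1,z0,z1,z1,y1]),(z1,[z2,y5,y3,y3,z3]),(z1,[y1,z0,y1,z4,z1]),(z1,[y4,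
    z0,z1,y4,z4])],.ref k8 k0 [(z3,[y1,z0,z2,z1]),(z3,[y2,y9,y5,y7,z9]),(z3,[z1,z0,y2,z8]),(z3,[z4,z0,z1,y4])],
    .ref k8 k0 [(z2,[y1,z0,z1,z2]),(z1,[y1,y3,y2,y1,z3]),(z2,[z1,z0,y1,z4]),(z1,[z2,z0,z1,y4])],.ref k8 k0 [(z1,[y1,
    y1,z0,z0,z1]),(z1,[y2,y5,y3,y3,z5]),(z1,[z1,z1,z0,z3,y1]),(z1,[z4,z4,z3,z0,y4])],.ref k8 k0 [(z1,[y1,z0,z1,z1]),
    (z1,[y2,y3,y1,y1,z3]),(z1,[z1,z0,y1,z2]),(z1,[z4,z0,y1,y4])],.contra [z1,z0,y1,z2],.contra [z1,z0,z0,y1],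
    .contra [z1,z3,z1,z1,y1],.contra [z1,z2]],
    .lp k0 [(nat_lit 802),(nat_lit 1274),(nat_lit 1260),(nat_lit 1432),(nat_lit 960)] [(nat_lit 315),(nat_lit 315),
    k79,k79,k86,k86,k0,k0,(nat_lit 236),(nat_lit 236)] k0 [[k0,k0,k18,k46,k0,k0,k0,k0,k0,k0],[k0,k0,k0,k0,k0,k50,k0,
    (nat_lit 474),k0,k0],[k0,k46,k0,k0,k96,k0,(nat_lit 204),k0,k0,k0],[k0,k18,k0,k0,k96,k0,k176,k0,k0,k0],[k50,k0,k0,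
    k0,k0,k0,(nat_lit 300),(nat_lit 488),k0,k0],[k0,k0,k96,k96,k0,k0,k0,k0,k0,k0],[(nat_lit 474),k0,k0,k0,k0,
    (nat_lit 488),k0,k0,k0,k0],[k0,k0,k176,(nat_lit 204),k0,(nat_lit 300),k0,k0,k0,k0],[k0,k0,k0,k0,k0,k0,k0,k0,k0,
    k0],[k0,k0,k0,k0,k0,k0,k0,k0,k0,k0]] (nat_lit 3840) k6
    [[(k1,(nat_lit 802)),(k8,(nat_lit 881))],[(k0,(nat_lit 802)),(k2,(nat_lit 992)),(k5,(nat_lit 1013)),(k4,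
    (nat_lit 1031)),(k3,(nat_lit 1038)),(k6,(nat_lit 1117)),(k7,(nat_lit 1167)),(k9,(nat_lit 1355))],[(k6,
    (nat_lit 879)),(k0,(nat_lit 1038)),(k9,(nat_lit 1117)),(k4,(nat_lit 1217)),(k3,(nat_lit 1274)),(k2,
    (nat_lit 1292)),(k5,(nat_lit 1313)),(k7,(nat_lit 1353))],[(k9,(nat_lit 913)),(k0,(nat_lit 992)),(k7,
    (nat_lit 1257)),(k5,(nat_lit 1267)),(k2,(nat_lit 1274)),(k3,(nat_lit 1292)),(k4,(nat_lit 1363)),(k6,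
    (nat_lit 1529))],[(k9,(nat_lit 934)),(k0,(nat_lit 1013)),(k7,(nat_lit 1250)),(k5,(nat_lit 1260)),(k2,
    (nat_lit 1267)),(k3,(nat_lit 1313)),(k4,(nat_lit 1356)),(k6,(nat_lit 1550))],[(k9,(nat_lit 810)),(k6,
    (nat_lit 858)),(k0,(nat_lit 1031)),(k3,(nat_lit 1217)),(k4,(nat_lit 1260)),(k7,(nat_lit 1346)),(k5,
    (nat_lit 1356)),(k2,(nat_lit 1363))],[(k0,(nat_lit 1167)),(k5,(nat_lit 1250)),(k2,(nat_lit 1257)),(k4,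
    (nat_lit 1346)),(k3,(nat_lit 1353)),(k7,(nat_lit 1432)),(k9,(nat_lit 1684)),(k6,(nat_lit 1732))],[(k4,
    (nat_lit 858)),(k3,(nat_lit 879)),(k0,(nat_lit 1117)),(k9,(nat_lit 1196)),(k6,(nat_lit 1432)),(k2,(nat_lit 1529)),
    (k5,(nat_lit 1550)),(k7,(nat_lit 1732))],[(k4,(nat_lit 810)),(k2,(nat_lit 913)),(k5,(nat_lit 934)),(k9,
    (nat_lit 960)),(k3,(nat_lit 1117)),(k6,(nat_lit 1196)),(k0,(nat_lit 1355)),(k7,(nat_lit 1684))],[(k1,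
    (nat_lit 881)),(k8,(nat_lit 960))]]
    [[k4,k0,k0,k0,k0],[k2,k1,k0,k0,k0],[k2,k0,k1,k0,k0],[k2,k0,k0,k1,k0],[k1,k1,k0,k0,k1],[k1,k0,k1,k0,k1],[k1,k0,k0,
    k1,k1],[k2,k0,k0,k0,k2],[k0,k2,k1,k0,k0],[k0,k2,k0,k1,k0],[k0,k1,k1,k1,k0],[k0,k1,k0,k0,k2],[k0,k0,k2,k1,k0],[k0,
    k0,k1,k0,k2]]
    [.ref k29 k0 [(z2,[z1,y4,y2]),(z2,[y1,z2,z0,z2]),(z1,[z0,z0,z1])],.contra [z1,y2,y1],.ref k30 k0 [(z1,[y1,y1]),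
    (z1,[z2,z1,y1,z1]),(z1,[z1])],.contra [z1,y1,z1,y1],.ref k31 k1 [(z1,[y1,z2,z1]),(z1,[z2,y2,y1]),(z1,[y1,z1,z1])],
    .ref k29 k0 [(z1,[z1,y1,y1]),(z1,[y1,z0,z0,z1]),(z1,[z0,z0,z1])],.contra [z1,z0,z1,y1],.ref k3 k1 [(z2,[z1]),(z1,
    [y1,z2,z1]),(z2,[z1,y2])],.ref k25 k1 [(z1,[y1,z3,z2]),(z1,[z2,z0,y1]),(z1,[y1,z0,z2])],.ref k33 k0 [(z2,[z1,y3,
    y1,y1]),(z1,[y1,z2,z0,z2]),(z2,[y1,z1,z1,z1])],.ref k3 k1 [(z1,[y1,z0,z0,z1]),(z1,[z2,z2,z1,y2]),(z1,[y1,y1,z0,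
    z1])],.ref k13 k1 [(z2,[y1,z2,z1]),(z1,[z1]),(z2,[y1,z0,z1])],.ref k13 k1 [(z2,[z1,z3,z1,y1]),(z1,[y1,y1,z0,z1]),
    (z2,[z1,z1,z1,y1])],.ref k3 k1 [(z1,[z1,z1]),(z1,[y2,z0,z1]),(z1,[z1])]],
    .base (.spec k0 false k0 [(z1,[z2,z1]),(z1,[y1,y1,z1])])]

theorem hB5_17_2 : blkB [0, 0, 0, 0, 1] [] sp5 hS5_17 (pcls (n := 5) [0, 0, 0, 0, 1]) hD5_17 162 2 hN5_17_2 = true := by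
  decide +kernel

/-- nodes 36 to 47 -/
noncomputable def hN5_17_3 : List HM :=
  [.base (.spec k1 false k0 [(z1,[z2,z1]),(z1,[y1,y1,z1])]),
    .base (.spec k16 false k0 [(z1,[z2,z1]),(z1,[y1,y1,z1])]),
    .lp k0 [k60,k98,k60,k80,k60] [k22,k22,k6,k0,k22,k22,k11,k13,k22,k22] k0 [[k0,k0,k0,k0,k6,k0,k0,k11,k0,k0],[k0,k0,
    k22,k0,k0,k0,k0,k0,k0,k0],[k0,k0,k0,k0,k0,k0,k0,k0,k0,k0],[k22,k0,k0,k0,k6,k0,k0,k11,k0,k0],[k0,k0,k0,k0,k0,k0,k0,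
    k0,k0,k0],[k0,k6,k6,k0,k0,k0,k0,k0,k0,k0],[k0,k11,k11,k0,k0,k0,k0,k0,k0,k0],[k0,k0,k0,k0,k0,k0,k0,k0,k0,k0],[k0,
    k0,k0,k0,k0,k0,k0,k0,k0,k0],[k0,k0,k0,k0,k0,k0,k0,k0,k0,k0]] (nat_lit 240) k5
    [[(k1,k60),(k8,k60)],[(k0,k60),(k4,k60),(k5,k60),(k6,k60),(k9,k60),(k7,k63),(k3,k82),(k2,k98)],[(k5,k60),(k0,k82),
    (k4,k88),(k7,k91),(k6,k93),(k9,k93),(k2,k98),(k3,k104)],[(k5,k76),(k4,k82),(k7,k85),(k6,k87),(k9,k87),(k2,k92),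
    (k0,k98),(k3,k98)],[(k0,k60),(k3,k60),(k4,k60),(k5,k60),(k6,k60),(k9,k60),(k7,k63),(k2,k76)],[(k0,k60),(k4,k60),
    (k5,k60),(k9,k60),(k7,k69),(k6,k71),(k2,k82),(k3,k88)],[(k0,k63),(k5,k63),(k4,k69),(k9,k69),(k7,k78),(k6,k80),(k2,
    k85),(k3,k91)],[(k0,k60),(k5,k60),(k4,k71),(k9,k71),(k7,k80),(k6,k82),(k2,k87),(k3,k93)],[(k0,k60),(k4,k60),(k5,
    k60),(k9,k60),(k7,k69),(k6,k71),(k2,k87),(k3,k93)],[(k1,k60),(k8,k60)]]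
    [[k2,k0,k1,k0,k0],[k2,k0,k0,k1,k0],[k1,k1,k0,k0,k1],[k1,k0,k1,k0,k1],[k1,k0,k0,k1,k1],[k0,k1,k2,k0,k0],[k0,k1,k1,
    k1,k0],[k0,k0,k3,k0,k0],[k0,k0,k2,k1,k0],[k0,k0,k1,k2,k0],[k0,k0,k1,k0,k2],[k0,k0,k0,k1,k2]]
    [.ref k6 k1 [(z1,[z1,z1]),(z1,[y2,z1,z3])],.ref k15 k1 [(z1,[z1]),(z1,[y1,z1,z1])],.ref k16 k1 [(z1,[y1,z1,z1]),
    (z1,[z2,y1,y1])],.ref k17 k1 [(z1,[z1,z1]),(z1,[y1,z0,z1])],.ref k18 k1 [(z1,[z1]),(z1,[y2,z1,z1])],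
    .ref k19 k1 [(z2,[y1,z1,z1]),(z1,[z1])],.ref k20 k1 [(z1,[y1,z0,z1]),(z1,[z2,z1,y1])],.ref k28 k1 [(z1,[z1,z3]),
    (z1,[y2,y3,z3])],.ref k34 k0 [(z1,[y1,y1]),(z1,[z1])],.ref k35 k1 [(z1,[z1,z1]),(z1,[y2,y1,z1])],.ref k36 k1 [(z1,
    [z1,z1]),(z1,[y2,y1,z1])],.ref k37 k1 [(z1,[z1,z1]),(z1,[y2,y1,z1])]],
    .base (.leafM k0 [k2,k3,k4,k0,k1] [(z4,[y1,y1,z0,z4])] []),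
    .base (.leafM k0 [k0,k1,k2,k3,k4] [(z1,[z1,z1])] []),
    .base (.leafM k0 [k4,k0,k1,k2,k3] [(z1,[z1])] []),
    .base (.spec k6 false k0 [(z3,[z1,y3,y1,z3]),(z1,[z0,z1])]),
    .lp k0 [k41,k31,k38,k38,k30] [k0,k7,k9,k8,k3,k7,k9,k1,k9,k9] k0 [[k0,k18,k9,k0,k0,k0,k0,k0,k0,k0],[k0,k0,k0,k0,k9,
    k0,k0,k0,k0,k0],[k0,k0,k0,k0,k6,k6,k0,k0,k0,k0],[k0,k9,k0,k0,k0,k0,k0,k0,k0,k0],[k0,k0,k0,k6,k0,k0,k6,k0,k0,k0],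
    [k9,k0,k0,k6,k0,k0,k6,k0,k0,k0],[k0,k0,k0,k0,k0,k0,k0,k0,k0,k0],[k0,k0,k0,k0,k6,k6,k0,k0,k0,k0],[k0,k0,k0,k0,k0,
    k0,k0,k0,k0,k0],[k0,k0,k0,k0,k0,k0,k0,k0,k0,k0]] k120 k5
    [[(k8,k32),(k1,k34)],[(k0,k30),(k5,k32),(k2,k39),(k6,k39),(k9,k39),(k3,k40),(k7,k47),(k4,k54)],[(k7,k30),(k6,k31),
    (k9,k31),(k5,k33),(k4,k37),(k0,k40),(k2,k40),(k3,k50)],[(k2,k30),(k4,k30),(k6,k30),(k9,k30),(k5,k32),(k7,k32),(k0,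
    k39),(k3,k40)],[(k0,k32),(k2,k32),(k6,k32),(k9,k32),(k3,k33),(k5,k34),(k4,k44),(k7,k46)],[(k2,k30),(k9,k30),(k3,
    k37),(k4,k42),(k6,k42),(k5,k44),(k7,k44),(k0,k54)],[(k3,k30),(k2,k32),(k9,k32),(k4,k44),(k6,k44),(k5,k46),(k7,
    k46),(k0,k47)],[(k2,k30),(k6,k30),(k9,k30),(k3,k31),(k5,k32),(k0,k39),(k4,k42),(k7,k44)],[(k2,k30),(k4,k30),(k6,
    k30),(k9,k30),(k3,k31),(k5,k32),(k7,k32),(k0,k39)],[(k8,k30),(k1,k32)]]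
    [[k2,k1,k0,k0,k0],[k1,k1,k0,k0,k1],[k1,k0,k1,k0,k1],[k1,k0,k0,k1,k1],[k0,k2,k1,k0,k0],[k0,k2,k0,k1,k0],[k0,k1,k2,
    k0,k0],[k0,k1,k1,k1,k0],[k0,k1,k0,k2,k0],[k0,k1,k0,k0,k2],[k0,k0,k1,k0,k2],[k0,k0,k0,k1,k2]]
    [.ref k9 k0 [(z2,[y2,y3,z1]),(z1,[z0,z1]),(z2,[z0,z1,y1,z2])],.ref k39 k1 [(z2,[z2,z3,y1]),(z2,[z6,y3,z1]),(z2,
    [y2,y1,y1,z4])],.ref k0 k1 [(z2,[y2,z1,y1,z2]),(z1,[y3,z0,y1,z3]),(z2,[z4,y1,z1,y2])],.ref k0 k1 [(z1,[y1,z1]),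
    (z2,[y6,z3,z1]),(z2,[z4,y3,y1,z2])],.ref k40 k0 [(z4,[y2,y5,z1,z2]),(z1,[z0,z1]),(z2,[z0,z1,y1,z2])],
    .ref k40 k0 [(z2,[y1,y2,z1]),(z1,[z0,z1]),(z2,[z0,z1,y1,z2])],.ref k41 k0 [(z2,[y2,y1,y1,z4]),(z1,[z0,z1]),(z2,
    [z0,z1,y1,z2])],.ref k41 k0 [(z1,[y1,z0,z0,z1]),(z1,[z0,z1]),(z2,[z0,z1,y1,z2])],.ref k41 k0 [(z2,[y2,z1,z1]),(z1,
    [z0,z1]),(z2,[z0,z1,y1,z2])],.ref k42 k1 [(z2,[z2,z3,y1]),(z1,[z1]),(z2,[y4,y3,y1,z6])],.ref k0 k1 [(z4,[y2,z1,y1,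
    z2]),(z4,[y6,y3,y1,z6]),(z1,[z1])],.ref k0 k1 [(z2,[y1,z1]),(z2,[y3,z0,z1]),(z2,[z2,y1,y1,z2])]],
    .base (.leafM k0 [k2,k3,k4,k0,k1] [(z2,[y1,y1,z2])] []),
    .base (.leafM k2 [k0,k1,k2,k3,k4] [(z1,[z0,z1])] []),
    .base (.leafM k0 [k1,k2,k3,k4,k0] [(z1,[y1,z0,z1])] []),
    .base (.geo z3 k4 [(y5,z9),(z6,y6),(z6,y6),(z2,z0),(z0,z3)] [(z1,[z1]),(z1,[z0,z3]),(z1,[z0,z0,z3]),(z1,[y1,y3,y3,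
    z3]),(z1,[])] k9)]

theorem hB5_17_3 : blkB [0, 0, 0, 0, 1] [] sp5 hS5_17 (pcls (n := 5) [0, 0, 0, 0, 1]) hD5_17 162 3 hN5_17_3 = true := by
  decide +kernel

/-- nodes 48 to 59 -/
noncomputable def hN5_17_4 : List HM :=
  [.base (.leafM k0 [k1,k2,k3,k4,k0] [(z1,[z0,z1,z1])] []),
    .base (.leafM k2 [k0,k1,k2,k3,k4] [(z1,[y1,z0,y1,z1])] []),
    .base (.leafM k0 [k1,k2,k3,k4,k0] [(z3,[z0,z1,z1])] []),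
    .base (.spec k5 false k0 [(z3,[y2,y1,y6,z6]),(z1,[z0,z0,z1])]),
    .base (.leafM k0 [k4,k0,k1,k2,k3] [(z1,[z1])] []),
    .base (.geo z9 k4 [(z7,y3),(z6,z0),(z4,z6),(z10,y12),(z0,z9)] [(z1,[z1]),(z1,[z0,z3]),(z1,[z0,z0,z1]),(z1,[y1,y3,
    y1,z9]),(z1,[])] k5),
    .base (.spec k1 false k0 [(z3,[z2,z1]),(z1,[z0,z0,z1])]),
    .lp k0 [(nat_lit 1232),(nat_lit 1600),(nat_lit 1476),(nat_lit 1662),(nat_lit 1210)] [(nat_lit 346),(nat_lit 400),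
    (nat_lit 378),k0,(nat_lit 251),(nat_lit 251),k158,k158,(nat_lit 384),(nat_lit 384)] k0 [[k0,k0,k0,k0,k0,k0,k0,
    (nat_lit 514),k0,k0],[k0,k0,(nat_lit 448),k0,(nat_lit 860),k0,k0,k0,k0,k0],[k0,k0,k0,k0,(nat_lit 412),k0,k0,k0,k0,
    k0],[(nat_lit 448),k0,k0,k0,k0,k0,k0,(nat_lit 266),k0,k0],[k0,k0,k0,k0,k0,k40,(nat_lit 266),k0,k0,k0],
    [(nat_lit 860),k0,k0,(nat_lit 412),k0,k0,(nat_lit 226),k0,k0,k0],[k0,(nat_lit 514),(nat_lit 266),k0,k0,k0,k0,k0,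
    k0,k0],[k0,k0,k0,k0,(nat_lit 226),(nat_lit 266),k0,k0,k0,k0],[k0,k0,k0,k0,k0,k0,k0,k0,k0,k0],[k0,k0,k0,k0,k0,k0,
    k0,k0,k0,k0]] (nat_lit 4800) k6
    [[(k1,(nat_lit 1178)),(k8,(nat_lit 1194))],[(k6,(nat_lit 960)),(k9,(nat_lit 1248)),(k0,(nat_lit 1286)),(k5,
    (nat_lit 1381)),(k7,(nat_lit 1474)),(k3,(nat_lit 1632)),(k2,(nat_lit 1702)),(k4,(nat_lit 2241))],[(k7,
    (nat_lit 960)),(k5,(nat_lit 1279)),(k2,(nat_lit 1600)),(k0,(nat_lit 1632)),(k4,(nat_lit 1727)),(k6,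
    (nat_lit 1820)),(k3,(nat_lit 1978)),(k9,(nat_lit 2108))],[(k7,(nat_lit 1030)),(k2,(nat_lit 1222)),(k4,
    (nat_lit 1349)),(k5,(nat_lit 1349)),(k6,(nat_lit 1442)),(k9,(nat_lit 1482)),(k3,(nat_lit 1600)),(k0,
    (nat_lit 1702))],[(k3,(nat_lit 1279)),(k6,(nat_lit 1303)),(k9,(nat_lit 1343)),(k2,(nat_lit 1349)),(k0,
    (nat_lit 1381)),(k5,(nat_lit 1476)),(k7,(nat_lit 1569)),(k4,(nat_lit 1888))],[(k9,(nat_lit 1077)),(k2,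
    (nat_lit 1349)),(k4,(nat_lit 1436)),(k7,(nat_lit 1569)),(k3,(nat_lit 1727)),(k6,(nat_lit 1795)),(k5,
    (nat_lit 1888)),(k0,(nat_lit 2241))],[(k3,(nat_lit 960)),(k2,(nat_lit 1030)),(k9,(nat_lit 1210)),(k0,
    (nat_lit 1474)),(k4,(nat_lit 1569)),(k5,(nat_lit 1569)),(k7,(nat_lit 1702)),(k6,(nat_lit 1928))],[(k0,
    (nat_lit 960)),(k5,(nat_lit 1303)),(k9,(nat_lit 1436)),(k2,(nat_lit 1442)),(k6,(nat_lit 1662)),(k4,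
    (nat_lit 1795)),(k3,(nat_lit 1820)),(k7,(nat_lit 1928))],[(k4,(nat_lit 1077)),(k7,(nat_lit 1210)),(k9,
    (nat_lit 1210)),(k0,(nat_lit 1248)),(k5,(nat_lit 1343)),(k6,(nat_lit 1436)),(k2,(nat_lit 1482)),(k3,
    (nat_lit 2108))],[(k1,(nat_lit 1194)),(k8,(nat_lit 1210))]]
    [[k2,k1,k0,k0,k0],[k2,k0,k0,k1,k0],[k1,k1,k0,k0,k1],[k1,k1,k0,k1,k1],[k1,k0,k1,k0,k1],[k1,k0,k0,k1,k1],[k0,k2,k1,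
    k0,k0],[k0,k2,k0,k1,k0],[k0,k1,k2,k0,k0],[k0,k1,k1,k1,k0],[k0,k1,k0,k2,k0],[k0,k0,k2,k1,k0],[k0,k0,k1,k0,k2],[k0,
    k0,k0,k1,k2]]
    [.ref k2 k1 [(z2,[z3,z0,y1]),(z1,[z0,z0,z1]),(z1,[y3,z1,z0,z3])],.ref k47 k0 [(z1,[y3,y1]),(z1,[z1]),(z3,[z0,z1,
    y1,z3])],.ref k48 k0 [(z1,[z3,z0,y1]),(z3,[y3,y1,z1]),(z3,[z0,z1,y1,z3])],.contra [y1,z0,z0,z1],.ref k49 k0 [(z3,
    [z3,y1,z1,y3]),(z1,[y3,z0,y1,z3]),(z3,[z0,z1,y1,z3])],.ref k50 k1 [(z1,[z3,z1]),(z1,[z0,z0,z1]),(z1,[y3,z0,y1,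
    z3])],.ref k2 k1 [(z2,[y3,z1,z1,z3]),(z1,[z0,z0,z1]),(z1,[z3,z0,y2])],.ref k51 k0 [(z1,[y3,y1,z2]),(z1,[z3,z0,
    y2]),(z3,[z0,z1,y1,z3])],.ref k2 k1 [(z4,[y3,z2,y1,z6]),(z1,[z0,z0,z1]),(z2,[z3,z0,y1])],.ref k52 k0 [(z1,[y1,z0,
    z0,z1]),(z1,[z3,y1,z0,y3]),(z3,[z0,z1,y1,z3])],.ref k51 k0 [(z2,[y3,y2,z1]),(z2,[z3,z0,y1]),(z3,[z0,z1,y1,z3])],
    .ref k53 k1 [(z1,[y3,z1,y2,z6]),(z1,[z0,z0,z1]),(z1,[z6,z1,z1,y3])],.ref k49 k0 [(z6,[z3,y1,z1,y3]),(z2,[y3,y1,y1,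
    z3]),(z3,[z0,z1,y1,z3])],.ref k54 k0 [(z1,[z3,z1]),(z1,[y3,y2]),(z3,[z0,z1,y1,z3])]],
    .base (.leafM k0 [k3,k4,k0,k1,k2] [(z2,[y1,y1,z2])] []),
    .base (.spec k5 false k0 [(z1,[z0,z1]),(z1,[y1,y1,z1])]),
    .base (.leafM k0 [k4,k0,k1,k2,k3] [(z1,[z1])] []),
    .base (.leafM k0 [k2,k3,k4,k0,k1] [(z2,[y1,y1,z0,z2])] [])]

theorem hB5_17_4 : blkB [0, 0, 0, 0, 1] [] sp5 hS5_17 (pcls (n := 5) [0, 0, 0, 0, 1]) hD5_17 162 4 hN5_17_4 = true := by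
  decide +kernel

/-- nodes 60 to 71 -/
noncomputable def hN5_17_5 : List HM :=
  [.base (.spec k1 true k4 [(z1,[y1,y1,y1,z1]),(z1,[z2,z0,z1])]),
    .base (.leafM k0 [k1,k2,k3,k4,k0] [(z1,[z0,z1,z1])] []),
    .base (.leafM k0 [k3,k4,k0,k1,k2] [(z7,[y1,y1,y1,z0,z7])] []),
    .base (.leafM k0 [k2,k3,k4,k0,k1] [(z5,[z0,z0,z1,z1])] []),
    .base (.geo z13 k0 [(z6,z0),(z10,z0),(z8,z0),(z6,z0),(z9,z0)] [(z1,[z1]),(z1,[z0,z1]),(z1,[z0,z0,z1]),(z1,[z0,z0,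
    z0,z1]),(z1,[y1,y1,y1,y1,z13])] k1),
    .base (.geo z16 k0 [(z7,z0),(z12,z0),(z10,z0),(z8,z0),(z11,z0)] [(z1,[z1]),(z1,[z0,z4]),(z1,[z0,z0,z2]),(z1,[z0,
    z0,z0,z8]),(z1,[y1,y4,y2,y8,z16])] k1),
    .lp k0 [k60,k106,k68,k50,k74] [k23,k23,k0,k0,k19,k19,k28,k28,k16,k16] k0 [[k0,k0,k0,k0,k0,k0,k0,k0,k0,k0],[k0,k0,
    k2,k0,k0,k2,k2,k0,k0,k0],[k0,k0,k0,k0,k0,k0,k0,k22,k0,k0],[k2,k0,k0,k0,k0,k0,k0,k0,k0,k0],[k2,k0,k0,k0,k0,k0,k0,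
    k0,k0,k0],[k0,k0,k0,k0,k0,k0,k0,k2,k0,k0],[k0,k0,k0,k22,k2,k0,k0,k0,k0,k0],[k2,k0,k0,k0,k0,k0,k0,k0,k0,k0],[k0,k0,
    k0,k0,k0,k0,k0,k0,k0,k0],[k0,k0,k0,k0,k0,k0,k0,k0,k0,k0]] (nat_lit 240) k6
    [[(k1,k60),(k8,k67)],[(k6,k57),(k7,k57),(k0,k60),(k4,k64),(k5,k64),(k9,k67),(k3,k83),(k2,k85)],[(k6,k78),(k7,k78),
    (k0,k83),(k4,k85),(k5,k85),(k9,k88),(k2,k106),(k3,k106)],[(k6,k56),(k7,k78),(k0,k85),(k4,k87),(k5,k87),(k9,k90),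
    (k2,k106),(k3,k106)],[(k6,k59),(k7,k59),(k0,k64),(k4,k68),(k5,k68),(k3,k85),(k2,k87),(k9,k93)],[(k6,k59),(k7,k59),
    (k0,k64),(k4,k68),(k5,k68),(k9,k73),(k3,k85),(k2,k87)],[(k6,k48),(k7,k50),(k0,k57),(k4,k59),(k5,k59),(k9,k62),(k2,
    k78),(k3,k78)],[(k7,k48),(k6,k50),(k2,k56),(k0,k57),(k4,k59),(k5,k59),(k9,k62),(k3,k78)],[(k6,k62),(k7,k62),(k0,
    k67),(k4,k73),(k9,k74),(k3,k88),(k2,k90),(k5,k93)],[(k1,k67),(k8,k74)]]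
    [[k2,k1,k0,k0,k0],[k2,k0,k1,k0,k0],[k2,k0,k0,k1,k0],[k2,k0,k0,k2,k0],[k1,k0,k1,k0,k1],[k1,k0,k0,k1,k1],[k1,k0,k0,
    k2,k1],[k0,k1,k1,k1,k0],[k0,k1,k0,k2,k0],[k0,k1,k0,k3,k0],[k0,k0,k3,k0,k0],[k0,k0,k2,k1,k0],[k0,k0,k2,k2,k0],[k0,
    k0,k1,k2,k0],[k0,k0,k1,k3,k0],[k0,k0,k0,k3,k0],[k0,k0,k0,k4,k0],[k0,k0,k0,k1,k2]]
    [.ref k62 k1 [(z2,[z5,z4,y5]),(z1,[z2,y4,z5]),(z1,[y1,z2,z1,z7]),(z1,[y4,z1,y3,y7,z7])],.contra [z1,y2,z2,y1],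
    .contra [z1,y1,z1,z1,y1],.ref k8 k1 [(z2,[y5,z6,y10,y10,z10]),(z1,[y2,z0,y1,y4,z4]),(z1,[z1,z0,z2,z5,y2]),(z1,[z4,
    y3,z5,z5,y5])],.contra [z1,y1,z1,y1],.contra [z1,z0,z1,z2,y1],.ref k63 k1 [(z1,[y1,z1,y2,y2,z2]),(z1,[y2,y2,z1,y4,
    z4]),(z1,[z1,z1,z2,z7,y2]),(z1,[z4,y1,z3,z3,y3])],.ref k8 k1 [(z2,[y5,z1,z0,z0,z5]),(z1,[y2,y2,z3,z0,z2]),(z1,[z1,
    z1,z0,z3,y1]),(z1,[z4,z1,y3,y3,y1])],.ref k8 k1 [(z4,[y5,z2,y5,y10,z10]),(z1,[y1,y2,z2,y2,z2]),(z2,[z1,z2,z1,z8,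
    y2]),(z1,[z2,z1,y1,z1,y1])],.ref k63 k1 [(z2,[y1,z1,y2,y3,z3]),(z1,[y1,y3,z3,y3,z3]),(z2,[z1,z3,z2,z13,y3]),(z1,
    [z2,z1,y1,z1,y1])],.ref k8 k1 [(z2,[y5,z6,z0,z15]),(z1,[y2,z0,z3,z6]),(z1,[z1]),(z1,[z4,y3,y3,y15,z3])],
    .ref k8 k1 [(z4,[y5,z7,y5,z5,z5]),(z1,[y1,y1,z2,z1,z1]),(z2,[z1,z1,z1,z5,y1]),(z1,[z2,y1,y1,y5,z1])],
    .ref k63 k1 [(z2,[y1,z2,y2,z0,z2]),(z1,[y1,y2,z3,z0,z2]),(z2,[z1,z2,z2,z10,y2]),(z1,[z2,y1,y1,y5,z1])],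
    .ref k8 k1 [(z6,[y5,z8,y10,y5,z10]),(z3,[y2,y4,z5,y2,z4]),(z3,[z1,z2,z2,z10,y2]),(z3,[z4,y1,y1,y5,z1])],
    .ref k64 k1 [(z2,[y5,z11,y15,y10,z15]),(z1,[y2,y6,z7,y4,z6]),(z1,[z1,z3,z3,z15,y3]),(z1,[z4,y1,y1,y5,z1])],
    .ref k8 k1 [(z8,[y5,z9,y15,y15,z15]),(z2,[y1,y3,z3,y3,z3]),(z4,[z1,z3,z3,z15,y3]),(z1,[z1])],.ref k65 k1 [(z2,[y5,
    z12,y20,y20,z20]),(z2,[y1,y4,z4,y4,z4]),(z2,[z1,z4,z4,z20,y4]),(z2,[z1])],.ref k8 k1 [(z2,[y5,z1,y5,y5,z5]),(z1,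
    [y2,y2,z1,y2,z2]),(z1,[z1,z1,z1,z4,y1]),(z1,[z4,z1,z1,z1,y1])]],
    .base (.leafM k0 [k2,k3,k4,k0,k1] [(z3,[z0,z0,z1,z1])] []),
    .base (.geo z9 k0 [(z4,z0),(z7,z0),(z6,z0),(z4,z0),(z6,z0)] [(z1,[z1]),(z1,[z0,z1]),(z1,[z0,z0,z3]),(z1,[z0,z0,z0,
    z1]),(z1,[y1,y1,y3,y1,z9])] k1),
    .base (.spec k1 false k0 [(z9,[z2,z1]),(z9,[y2,y2,y3,y2,z18])]),
    .lp k0 [k138,k164,k160,k160,k96] [k13,k13,k0,k0,k2,k2,k2,k2,k34,k34] k0 [[k0,k0,k0,k32,k32,k0,k0,k0,k0,k0],[k0,k0,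
    k0,k40,k4,k0,k0,k0,k0,k0],[k40,k32,k0,k0,k0,k0,k0,k0,k0,k0],[k0,k0,k0,k0,k0,k0,k0,k0,k0,k0],[k0,k0,k0,k0,k0,k0,k0,
    k0,k0,k0],[k4,k32,k0,k0,k0,k0,k0,k0,k0,k0],[k0,k0,k0,k0,k0,k0,k0,k0,k0,k0],[k0,k0,k0,k0,k0,k0,k0,k0,k0,k0],[k0,k0,
    k0,k0,k0,k0,k0,k0,k0,k0],[k0,k0,k0,k0,k0,k0,k0,k0,k0,k0]] (nat_lit 480) k6
    [[(k8,k117),(k1,k138)],[(k7,k117),(k9,k117),(k2,k119),(k0,k138),(k6,k149),(k3,k151),(k4,k153),(k5,k189)],[(k2,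
    k124),(k9,k130),(k0,k151),(k7,k158),(k6,k162),(k3,k164),(k4,k194),(k5,k194)],[(k0,k119),(k3,k124),(k9,k130),(k4,
    k162),(k5,k162),(k6,k162),(k7,k162),(k2,k164)],[(k9,k128),(k4,k160),(k5,k160),(k6,k160),(k7,k160),(k2,k162),(k0,
    k189),(k3,k194)],[(k9,k128),(k0,k153),(k4,k160),(k5,k160),(k6,k160),(k7,k160),(k2,k162),(k3,k194)],[(k0,k117),(k9,
    k128),(k3,k158),(k4,k160),(k5,k160),(k6,k160),(k7,k160),(k2,k162)],[(k9,k128),(k0,k149),(k4,k160),(k5,k160),(k6,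
    k160),(k7,k160),(k2,k162),(k3,k162)],[(k9,k96),(k0,k117),(k4,k128),(k5,k128),(k6,k128),(k7,k128),(k2,k130),(k3,
    k130)],[(k8,k96),(k1,k117)]]
    [[k2,k1,k0,k0,k0],[k2,k0,k0,k1,k0],[k2,k0,k0,k0,k2],[k1,k1,k0,k0,k1],[k1,k0,k1,k0,k1],[k1,k0,k0,k1,k1],[k1,k0,k0,
    k0,k3],[k0,k3,k0,k0,k0],[k0,k2,k0,k1,k0],[k0,k1,k0,k0,k2],[k0,k0,k1,k0,k2],[k0,k0,k0,k1,k2],[k0,k0,k0,k0,k4]]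
    [.ref k8 k0 [(z2,[y3,z2,z1]),(z2,[y3,z0,y1,y2,z6]),(z1,[z0,z0,z0,z1]),(z1,[z3,y2])],.ref k8 k0 [(z1,[z3,y1,z1,z1,
    y3]),(z1,[z3,y2]),(z1,[z0,z0,z0,z1]),(z1,[y6,z2,y1,y2,z6])],.ref k8 k0 [(z2,[z3,y2]),(z2,[z3,y4,y2,y2,z6]),(z1,
    [z0,z0,z0,z1]),(z1,[y3,z2,z1])],.contra [y3,z1,z1],.contra [z3,y2,y1,y2,z3],.ref k67 k0 [(z3,[z3,z0,z1,z1,y3]),
    (z1,[z3,y2,y1,y1,z3]),(z1,[z0,z0,z0,z1]),(z1,[y3,z0,z0,y1,z3])],.ref k68 k0 [(z1,[z3,y1]),(z1,[z3,y4,y3,y3,z9]),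
    (z1,[z0,z0,z0,z1]),(z1,[y6,z2,z3])],.ref k8 k0 [(z2,[y1,z0,z1]),(z2,[y1,y2,y1,y2,z6]),(z1,[z0,z0,z0,z1]),(z1,
    [z1])],.ref k8 k0 [(z3,[y3,y1,z1,y1,z3]),(z3,[y3,y4,y2,y4,z12]),(z1,[z0,z0,z0,z1]),(z3,[z6,z2,z1,z2,y6])],
    .contra [z3,z2,y1],.contra [z3,y2,y2,y3,z6],.ref k69 k0 [(z1,[z3,z1,z1,z1,y3]),(z1,[z3,y2,y2,y2,z6]),(z1,[z0,z0,
    z0,z1]),(z1,[y6,y2,z1,y2,z6])],.ref k67 k0 [(z2,[z1]),(z2,[z3,y4,y4,y4,z12]),(z1,[z0,z0,z0,z1]),(z2,[y3,z0,z2])]],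
    .base (.leafM k0 [k2,k3,k4,k0,k1] [(z2,[z0,z0,z1,z1])] [])]

theorem hB5_17_5 : blkB [0, 0, 0, 0, 1] [] sp5 hS5_17 (pcls (n := 5) [0, 0, 0, 0, 1]) hD5_17 162 5 hN5_17_5 = true := by
  decide +kernel

/-- nodes 72 to 83 -/
noncomputable def hN5_17_6 : List HM :=
  [.base (.spec k5 false k0 [(z3,[z0,z1,z0,z2]),(z6,[y1,y4,y3,y4,z12])]),
    .base (.spec k1 false k0 [(z6,[z1,z1]),(z6,[y1,y2,y3,y4,z12])]),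
    .lp k0 [k138,k164,k160,k160,k96] [k13,k13,k0,k0,k2,k2,k2,k2,k34,k34] k0 [[k0,k0,k0,k32,k32,k0,k0,k0,k0,k0],[k0,k0,
    k0,k40,k4,k0,k0,k0,k0,k0],[k40,k32,k0,k0,k0,k0,k0,k0,k0,k0],[k0,k0,k0,k0,k0,k0,k0,k0,k0,k0],[k0,k0,k0,k0,k0,k0,k0,
    k0,k0,k0],[k4,k32,k0,k0,k0,k0,k0,k0,k0,k0],[k0,k0,k0,k0,k0,k0,k0,k0,k0,k0],[k0,k0,k0,k0,k0,k0,k0,k0,k0,k0],[k0,k0,
    k0,k0,k0,k0,k0,k0,k0,k0],[k0,k0,k0,k0,k0,k0,k0,k0,k0,k0]] (nat_lit 480) k6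
    [[(k8,k117),(k1,k138)],[(k7,k117),(k9,k117),(k2,k119),(k0,k138),(k6,k149),(k3,k151),(k4,k153),(k5,k189)],[(k2,
    k124),(k9,k130),(k0,k151),(k7,k158),(k6,k162),(k3,k164),(k4,k194),(k5,k194)],[(k0,k119),(k3,k124),(k9,k130),(k4,
    k162),(k5,k162),(k6,k162),(k7,k162),(k2,k164)],[(k9,k128),(k4,k160),(k5,k160),(k6,k160),(k7,k160),(k2,k162),(k0,
    k189),(k3,k194)],[(k9,k128),(k0,k153),(k4,k160),(k5,k160),(k6,k160),(k7,k160),(k2,k162),(k3,k194)],[(k0,k117),(k9,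
    k128),(k3,k158),(k4,k160),(k5,k160),(k6,k160),(k7,k160),(k2,k162)],[(k9,k128),(k0,k149),(k4,k160),(k5,k160),(k6,
    k160),(k7,k160),(k2,k162),(k3,k162)],[(k9,k96),(k0,k117),(k4,k128),(k5,k128),(k6,k128),(k7,k128),(k2,k130),(k3,
    k130)],[(k8,k96),(k1,k117)]]
    [[k2,k1,k0,k0,k0],[k2,k0,k0,k1,k0],[k2,k0,k0,k0,k2],[k1,k1,k0,k0,k1],[k1,k0,k1,k0,k1],[k1,k0,k0,k1,k1],[k1,k0,k0,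
    k0,k3],[k0,k3,k0,k0,k0],[k0,k2,k0,k1,k0],[k0,k1,k0,k0,k2],[k0,k0,k1,k0,k2],[k0,k0,k0,k1,k2],[k0,k0,k0,k0,k4]]
    [.ref k71 k0 [(z2,[y2,z1,z1]),(z1,[y2,z0,y1,y2,z4]),(z1,[z0,z0,z0,z1]),(z1,[z2,y1])],.contra [y4,z1,y1,y2,z4],
    .contra [y2,z1,z1],.contra [z4,y1,y1],.contra [z2,y1,y1,y2,z2],.ref k71 k0 [(z2,[z2,z0,z1,z1,y2]),(z1,[z2,y1,y1,
    y1,z2]),(z1,[z0,z0,z0,z1]),(z1,[y2,z0,z0,y1,z2])],.ref k72 k0 [(z1,[z4,y1]),(z2,[z2,y2,y3,y3,z6]),(z1,[z0,z0,z0,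
    z1]),(z2,[y4,z1,z3])],.ref k72 k0 [(z1,[y2,z0,z3]),(z4,[y2,y3,y3,y6,z12]),(z1,[z0,z0,z0,z1]),(z1,[z1])],
    .ref k72 k0 [(z1,[y4,y1,z2,y2,z4]),(z1,[y1,y1,y1,y2,z4]),(z1,[z0,z0,z0,z1]),(z2,[z4,z1,z1,z2,y4])],.contra [z2,z1,
    y1],.contra [z2,y1,y2,y3,z4],.ref k73 k0 [(z1,[z4,z1,z2,z2,y4]),(z1,[z2,y1,y2,y2,z4]),(z1,[z0,z0,z0,z1]),(z2,[y4,
    y1,z1,y2,z4])],.ref k71 k0 [(z2,[z1]),(z1,[z1,y1,y2,y2,z4]),(z1,[z0,z0,z0,z1]),(z1,[y1,z0,z1])]],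
    .lp k0 [k192,(nat_lit 350),(nat_lit 228),(nat_lit 398),(nat_lit 264)] [k103,k103,k24,k24,k67,k103,k0,k0,k67,
    k67] k0 [[k0,k0,k0,k0,k32,k18,k0,k0,k0,k0],[k0,k0,k0,k0,k0,k0,k0,k120,k0,k0],[k0,k0,k0,k0,k0,k0,k2,k138,k0,k0],
    [k0,k0,k0,k0,k32,k0,k0,k0,k0,k0],[k0,k18,k0,k0,k0,k72,k0,k0,k0,k0],[k0,k32,k32,k0,k0,k0,k34,k66,k0,k0],[k120,k0,
    k0,k138,k66,k0,k0,k0,k0,k0],[k0,k0,k0,k2,k34,k0,k0,k0,k0,k0],[k0,k0,k0,k0,k0,k0,k0,k0,k0,k0],[k0,k0,k0,k0,k0,k0,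
    k0,k0,k0,k0]] (nat_lit 960) k6
    [[(k1,k192),(k8,(nat_lit 228))],[(k0,k192),(k5,k192),(k4,(nat_lit 210)),(k7,(nat_lit 263)),(k2,(nat_lit 271)),(k3,
    (nat_lit 271)),(k6,(nat_lit 295)),(k9,(nat_lit 348))],[(k6,(nat_lit 254)),(k0,(nat_lit 271)),(k5,(nat_lit 271)),
    (k9,(nat_lit 307)),(k4,(nat_lit 339)),(k2,(nat_lit 350)),(k3,(nat_lit 350)),(k7,(nat_lit 392))],[(k6,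
    (nat_lit 236)),(k0,(nat_lit 271)),(k5,(nat_lit 271)),(k9,(nat_lit 305)),(k4,(nat_lit 339)),(k2,(nat_lit 350)),(k3,
    (nat_lit 350)),(k7,(nat_lit 374))],[(k0,k192),(k5,k192),(k4,(nat_lit 228)),(k7,(nat_lit 263)),(k2,(nat_lit 271)),
    (k3,(nat_lit 271)),(k6,(nat_lit 297)),(k9,(nat_lit 366))],[(k4,k192),(k0,(nat_lit 210)),(k5,(nat_lit 228)),(k9,
    (nat_lit 330)),(k7,(nat_lit 331)),(k2,(nat_lit 339)),(k3,(nat_lit 339)),(k6,(nat_lit 365))],[(k0,(nat_lit 263)),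
    (k5,(nat_lit 263)),(k9,(nat_lit 297)),(k4,(nat_lit 331)),(k6,(nat_lit 332)),(k2,(nat_lit 374)),(k3,(nat_lit 392)),
    (k7,(nat_lit 470))],[(k2,(nat_lit 236)),(k3,(nat_lit 254)),(k0,(nat_lit 295)),(k5,(nat_lit 297)),(k9,
    (nat_lit 331)),(k7,(nat_lit 332)),(k4,(nat_lit 365)),(k6,(nat_lit 398))],[(k9,(nat_lit 264)),(k7,(nat_lit 297)),
    (k2,(nat_lit 305)),(k3,(nat_lit 307)),(k4,(nat_lit 330)),(k6,(nat_lit 331)),(k0,(nat_lit 348)),(k5,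
    (nat_lit 366))],[(k1,(nat_lit 228)),(k8,(nat_lit 264))]]
    [[k4,k0,k0,k0,k0],[k2,k1,k0,k0,k0],[k2,k1,k1,k0,k0],[k2,k0,k1,k0,k0],[k2,k0,k2,k0,k0],[k2,k0,k0,k1,k0],[k1,k1,k0,
    k0,k1],[k1,k0,k1,k0,k1],[k1,k0,k0,k1,k1],[k2,k0,k0,k0,k2],[k0,k1,k2,k0,k0],[k0,k1,k1,k1,k0],[k0,k1,k0,k0,k2],[k0,
    k0,k3,k0,k0],[k0,k0,k4,k0,k0],[k0,k0,k2,k1,k0],[k0,k0,k0,k1,k2]]
    [.ref k59 k1 [(z2,[z1]),(z2,[z1,y2,z2]),(z2,[z0,y1,y1,z2])],.ref k60 k0 [(z2,[y2,y1,z1]),(z1,[y2,z0,z1]),(z2,[z4,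
    z1,y3,z2])],.ref k51 k1 [(z1,[z1,z1,z0,y1]),(z2,[z2,y1,z3,y2]),(z2,[z0,y1,y1,z2])],.contra [z2,y1,z3,y2],
    .ref k4 k1 [(z2,[z1,z1,z1,y2]),(z2,[z1,z0,z2,y2]),(z2,[z0,y1,y1,z2])],.contra [z1,y1],.ref k59 k1 [(z2,[z2,z1,
    y1]),(z2,[z2,y1,z1]),(z2,[z0,y1,y1,z2])],.contra [z1,z0,z1,y1],.ref k61 k1 [(z1,[y1,z1]),(z2,[y2,z1,z1]),(z2,[z0,
    y1,y1,z2])],.ref k41 k1 [(z2,[z1]),(z2,[z1,y1,z1]),(z2,[z0,y1,y1,z2])],.ref k66 k1 [(z2,[z2,z3,z1,y4]),(z1,[z1,z1,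
    z1,y2]),(z2,[z0,y1,y1,z2])],.ref k41 k1 [(z1,[y1,z0,z0,z1]),(z2,[y2,y1,z1,z2]),(z2,[z0,y1,y1,z2])],
    .ref k41 k1 [(z2,[z2,z1,y1]),(z1,[z1]),(z2,[z0,y1,y1,z2])],.ref k70 k0 [(z4,[y2,y3,y3,z6]),(z2,[y2,z3,y3,z6]),(z1,
    [z1])],.ref k74 k0 [(z2,[y1,y2,y2,z4]),(z2,[y1,z2,y2,z4]),(z2,[z1])],.ref k41 k1 [(z2,[y1,z0,y1,z2]),(z2,[y1,y1,
    z0,z2]),(z2,[z0,y1,y1,z2])],.ref k4 k1 [(z2,[y1,z1]),(z2,[y1,z0,z1]),(z2,[z0,y1,y1,z2])]],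
    .base (.leafM k0 [k0,k1,k2,k3,k4] [(z3,[z1,z1])] []),
    .lp k0 [k41,k31,k38,k38,k30] [k0,k7,k9,k8,k3,k7,k9,k1,k9,k9] k0 [[k0,k18,k9,k0,k0,k0,k0,k0,k0,k0],[k0,k0,k0,k0,k9,
    k0,k0,k0,k0,k0],[k0,k0,k0,k0,k6,k6,k0,k0,k0,k0],[k0,k9,k0,k0,k0,k0,k0,k0,k0,k0],[k0,k0,k0,k6,k0,k0,k6,k0,k0,k0],
    [k9,k0,k0,k6,k0,k0,k6,k0,k0,k0],[k0,k0,k0,k0,k0,k0,k0,k0,k0,k0],[k0,k0,k0,k0,k6,k6,k0,k0,k0,k0],[k0,k0,k0,k0,k0,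
    k0,k0,k0,k0,k0],[k0,k0,k0,k0,k0,k0,k0,k0,k0,k0]] k120 k5
    [[(k8,k32),(k1,k34)],[(k0,k30),(k5,k32),(k2,k39),(k6,k39),(k9,k39),(k3,k40),(k7,k47),(k4,k54)],[(k7,k30),(k6,k31),
    (k9,k31),(k5,k33),(k4,k37),(k0,k40),(k2,k40),(k3,k50)],[(k2,k30),(k4,k30),(k6,k30),(k9,k30),(k5,k32),(k7,k32),(k0,
    k39),(k3,k40)],[(k0,k32),(k2,k32),(k6,k32),(k9,k32),(k3,k33),(k5,k34),(k4,k44),(k7,k46)],[(k2,k30),(k9,k30),(k3,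
    k37),(k4,k42),(k6,k42),(k5,k44),(k7,k44),(k0,k54)],[(k3,k30),(k2,k32),(k9,k32),(k4,k44),(k6,k44),(k5,k46),(k7,
    k46),(k0,k47)],[(k2,k30),(k6,k30),(k9,k30),(k3,k31),(k5,k32),(k0,k39),(k4,k42),(k7,k44)],[(k2,k30),(k4,k30),(k6,
    k30),(k9,k30),(k3,k31),(k5,k32),(k7,k32),(k0,k39)],[(k8,k30),(k1,k32)]]
    [[k2,k1,k0,k0,k0],[k1,k1,k0,k0,k1],[k1,k0,k1,k0,k1],[k1,k0,k0,k1,k1],[k0,k2,k1,k0,k0],[k0,k2,k0,k1,k0],[k0,k1,k2,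
    k0,k0],[k0,k1,k1,k1,k0],[k0,k1,k0,k2,k0],[k0,k1,k0,k0,k2],[k0,k0,k1,k0,k2],[k0,k0,k0,k1,k2]]
    [.ref k8 k0 [(z1,[y3,z2,z3]),(z1,[z0,y1,y3,y1,z3]),(z1,[z0,z0,z0,z1]),(z1,[z3,y2])],.contra [z1,z0,y1],
    .ref k76 k1 [(z1,[z0,z1]),(z1,[y3,z1,z3,z1]),(z1,[z0,z0,z0,z1]),(z1,[z0,y1,y3,y1,z3])],.ref k76 k1 [(z1,[z0,z1]),
    (z1,[y3,z0,z0,y1,z3]),(z1,[z0,z0,z0,z1]),(z1,[z0,y1,y3,y1,z3])],.ref k8 k0 [(z2,[y3,z0,z6,z1]),(z1,[z0,y1,y3,y1,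
    z3]),(z1,[z0,z0,z0,z1]),(z2,[z3,z0,z0,y1])],.ref k8 k0 [(z2,[y3,y1,z3,y1,z3]),(z1,[z0,y1,y3,y1,z3]),(z1,[z0,z0,z0,
    z1]),(z2,[z3,z1,z3,z1,y3])],.ref k8 k0 [(z1,[y3,z0,z3,z2]),(z1,[z0,y1,y3,y1,z3]),(z1,[z0,z0,z0,z1]),(z1,[z3,z0,z0,
    y2])],.ref k8 k0 [(z1,[y3,y1,z0,z0,z3]),(z1,[z0,y1,y3,y1,z3]),(z1,[z0,z0,z0,z1]),(z1,[z3,z1,z3,z0,y3])],
    .ref k8 k0 [(z1,[y3,y2,y3,y2,z6]),(z1,[z0,y1,y3,y1,z3]),(z1,[z0,z0,z0,z1]),(z1,[z3,z2,z6,z2,y6])],.contra [z1,z0,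
    y1],.ref k76 k1 [(z1,[z0,z1]),(z2,[y3,z0,z6,z1]),(z1,[z0,z0,z0,z1]),(z1,[z0,y1,y3,y1,z3])],.ref k76 k1 [(z1,[z0,
    z1]),(z2,[y3,y1,z3,y1,z3]),(z1,[z0,z0,z0,z1]),(z1,[z0,y1,y3,y1,z3])]],
    .base (.leafM k2 [k0,k1,k2,k3,k4] [(z1,[y1,z0,y1,z1])] []),
    .base (.leafM k0 [k1,k2,k3,k4,k0] [(z5,[z0,z1,z1])] []),
    .base (.leafM k0 [k3,k4,k0,k1,k2] [(z4,[y1,y1,y2,z4])] []),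
    .base (.spec k2 false k0 [(z1,[z1,y1,y1,z1]),(z1,[z0,z1,z2])]),
    .base (.leafM k0 [k0,k1,k2,k3,k4] [(z2,[z1,z1])] []),
    .lp k0 [k31,k40,k43,k35,k30] [k9,k10,k10,k0,k2,k5,k10,k5,k10,k10] k0 [[k0,k0,k0,k1,k1,k0,k0,k0,k0,k0],[k0,k0,k0,
    k0,k15,k0,k0,k0,k0,k0],[k0,k1,k0,k0,k0,k7,k0,k0,k0,k0],[k0,k0,k0,k0,k0,k0,k0,k0,k0,k0],[k0,k0,k0,k7,k0,k7,k8,k0,
    k0,k0],[k15,k1,k0,k0,k0,k0,k0,k0,k0,k0],[k0,k0,k0,k0,k0,k0,k0,k0,k0,k0],[k0,k0,k0,k0,k0,k8,k0,k0,k0,k0],[k0,k0,k0,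
    k0,k0,k0,k0,k0,k0,k0],[k0,k0,k0,k0,k0,k0,k0,k0,k0,k0]] k120 k5
    [[(k1,k30),(k8,k30)],[(k2,k30),(k6,k31),(k9,k31),(k0,k32),(k7,k35),(k5,k36),(k3,k41),(k4,k54)],[(k7,k30),(k2,k40),
    (k6,k40),(k9,k40),(k0,k41),(k5,k46),(k4,k49),(k3,k50)],[(k0,k30),(k2,k30),(k6,k30),(k9,k30),(k4,k31),(k5,k35),(k7,
    k35),(k3,k40)],[(k2,k35),(k6,k35),(k9,k35),(k0,k36),(k5,k40),(k4,k43),(k3,k46),(k7,k47)],[(k9,k30),(k2,k31),(k6,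
    k38),(k4,k39),(k5,k43),(k7,k43),(k3,k49),(k0,k54)],[(k3,k30),(k0,k35),(k2,k35),(k9,k35),(k4,k43),(k6,k43),(k5,
    k47),(k7,k47)],[(k2,k30),(k6,k30),(k9,k30),(k0,k31),(k5,k35),(k4,k38),(k3,k40),(k7,k43)],[(k2,k30),(k4,k30),(k6,
    k30),(k9,k30),(k0,k31),(k5,k35),(k7,k35),(k3,k40)],[(k1,k30),(k8,k30)]]
    [[k2,k1,k0,k0,k0],[k2,k0,k0,k1,k0],[k1,k1,k0,k0,k1],[k1,k0,k1,k0,k1],[k1,k0,k0,k1,k1],[k0,k2,k1,k0,k0],[k0,k2,k0,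
    k1,k0],[k0,k1,k1,k1,k0],[k0,k1,k0,k2,k0],[k0,k1,k0,k0,k2],[k0,k0,k1,k0,k2],[k0,k0,k0,k1,k2]]
    [.ref k3 k0 [(z4,[y4,z3,z1]),(z1,[z0,y1]),(z4,[z0,z1,y1,z4])],.ref k77 k1 [(z2,[z1,z1]),(z4,[y2,z1,z1]),(z4,[y4,
    y1,y3,z12])],.contra [z2,y1,y1,z2],.ref k78 k0 [(z4,[z4,y1,z1,y4]),(z1,[z0,y1]),(z4,[z0,z1,y1,z4])],
    .ref k79 k1 [(z1,[z1,z1]),(z4,[y12,z3,z5]),(z4,[y8,y3,y5,z20])],.ref k80 k1 [(z8,[y4,z7,z1,z4]),(z8,[z12,z3,z5,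
    y12]),(z8,[z4,y3,y5,z12])],.ref k3 k0 [(z4,[y2,z1,z1]),(z1,[z0,y1]),(z4,[z0,z1,y1,z4])],.ref k3 k0 [(z1,[y1,z0,z0,
    z1]),(z1,[z0,y1]),(z4,[z0,z1,y1,z4])],.ref k66 k0 [(z4,[y4,y5,z1]),(z1,[z0,y1]),(z4,[z0,z1,y1,z4])],
    .ref k81 k0 [(z4,[z4,y3,y1]),(z1,[z0,y1]),(z4,[z0,z1,y1,z4])],.ref k78 k0 [(z8,[z4,y1,z1,y4]),(z1,[z0,y1]),(z4,
    [z0,z1,y1,z4])],.ref k82 k1 [(z2,[z1,z1]),(z2,[y3,z0,z1]),(z4,[y2,y1,y1,z4])]]]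

theorem hB5_17_6 : blkB [0, 0, 0, 0, 1] [] sp5 hS5_17 (pcls (n := 5) [0, 0, 0, 0, 1]) hD5_17 162 6 hN5_17_6 = true := by
  decide +kernel

/-- nodes 84 to 95 -/
noncomputable def hN5_17_7 : List HM :=
  [.base (.leafM k0 [k3,k4,k0,k1,k2] [(z1,[y1,y1,y1,z1])] []),
    .base (.leafM k0 [k1,k2,k3,k4,k0] [(z1,[z0,z1,z1])] []),
    .base (.leafM k0 [k0,k1,k2,k3,k4] [(z1,[z1,z1])] []),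
    .base (.spec k5 true k4 [(z1,[y1,z1,y1,z1]),(z1,[z2,z0,z1])]),
    .base (.spec k1 false k0 [(z1,[z1,z1]),(z1,[z0,z0,z1])]),
    .lp k0 [k31,k40,k43,k35,k30] [k9,k10,k10,k0,k2,k5,k10,k5,k10,k10] k0 [[k0,k0,k0,k1,k1,k0,k0,k0,k0,k0],[k0,k0,k0,
    k0,k15,k0,k0,k0,k0,k0],[k0,k1,k0,k0,k0,k7,k0,k0,k0,k0],[k0,k0,k0,k0,k0,k0,k0,k0,k0,k0],[k0,k0,k0,k7,k0,k7,k8,k0,
    k0,k0],[k15,k1,k0,k0,k0,k0,k0,k0,k0,k0],[k0,k0,k0,k0,k0,k0,k0,k0,k0,k0],[k0,k0,k0,k0,k0,k8,k0,k0,k0,k0],[k0,k0,k0,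
    k0,k0,k0,k0,k0,k0,k0],[k0,k0,k0,k0,k0,k0,k0,k0,k0,k0]] k120 k5
    [[(k1,k30),(k8,k30)],[(k2,k30),(k6,k31),(k9,k31),(k0,k32),(k7,k35),(k5,k36),(k3,k41),(k4,k54)],[(k7,k30),(k2,k40),
    (k6,k40),(k9,k40),(k0,k41),(k5,k46),(k4,k49),(k3,k50)],[(k0,k30),(k2,k30),(k6,k30),(k9,k30),(k4,k31),(k5,k35),(k7,
    k35),(k3,k40)],[(k2,k35),(k6,k35),(k9,k35),(k0,k36),(k5,k40),(k4,k43),(k3,k46),(k7,k47)],[(k9,k30),(k2,k31),(k6,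
    k38),(k4,k39),(k5,k43),(k7,k43),(k3,k49),(k0,k54)],[(k3,k30),(k0,k35),(k2,k35),(k9,k35),(k4,k43),(k6,k43),(k5,
    k47),(k7,k47)],[(k2,k30),(k6,k30),(k9,k30),(k0,k31),(k5,k35),(k4,k38),(k3,k40),(k7,k43)],[(k2,k30),(k4,k30),(k6,
    k30),(k9,k30),(k0,k31),(k5,k35),(k7,k35),(k3,k40)],[(k1,k30),(k8,k30)]]
    [[k2,k1,k0,k0,k0],[k2,k0,k0,k1,k0],[k1,k1,k0,k0,k1],[k1,k0,k1,k0,k1],[k1,k0,k0,k1,k1],[k0,k2,k1,k0,k0],[k0,k2,k0,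
    k1,k0],[k0,k1,k1,k1,k0],[k0,k1,k0,k2,k0],[k0,k1,k0,k0,k2],[k0,k0,k1,k0,k2],[k0,k0,k0,k1,k2]]
    [.ref k4 k0 [(z1,[y1,z0,z1]),(z1,[z0,y1]),(z1,[z0,z1,y1,z1])],.ref k77 k1 [(z1,[z1,z1]),(z1,[z0,z0,z1]),(z1,[y2,
    z1,y3,z3])],.contra [z1,z0,y1],.ref k84 k0 [(z1,[z1,y1,z1,y1]),(z1,[z0,y1]),(z1,[z0,z1,y1,z1])],.ref k85 k1 [(z1,
    [z1,z1]),(z1,[z0,z0,z1]),(z1,[y1,z0,y1,z1])],.ref k86 k0 [(z2,[y1,z1,z1,z1]),(z1,[z0,y1]),(z1,[z0,z1,y1,z1])],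
    .ref k87 k1 [(z1,[z1,z1,y2]),(z1,[z0,z0,z1]),(z1,[y2,y1,z3,z1])],.ref k86 k0 [(z1,[y1,z0,z0,z1]),(z1,[z0,y1]),(z1,
    [z0,z1,y1,z1])],.ref k4 k0 [(z1,[y1,y2,z1]),(z1,[z0,y1]),(z1,[z0,z1,y1,z1])],.contra [z1,z0,y1],.ref k84 k0 [(z2,
    [z1,y1,z1,y1]),(z1,[z0,y1]),(z1,[z0,z1,y1,z1])],.ref k88 k0 [(z1,[z1,z1]),(z1,[z0,y1]),(z1,[z0,z1,y1,z1])]],
    .lp k0 [(nat_lit 403),(nat_lit 420),(nat_lit 510),(nat_lit 455),(nat_lit 360)] [k48,k91,k91,k31,k16,k16,k0,k87,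
    k91,k91] k0 [[k0,k0,k0,k0,k0,k0,k0,k134,k0,k0],[k0,k0,k0,k60,k64,k0,k0,k0,k0,k0],[k60,k0,k0,k0,k0,k0,k0,k0,k0,k0],
    [k0,k0,k0,k0,k0,k0,k0,k166,k0,k0],[k0,k0,k0,k0,k0,k0,k75,k0,k0,k0],[k64,k0,k0,k0,k0,k0,k0,k0,k0,k0],[k0,k134,k166,
    k0,k0,k0,k0,k0,k0,k0],[k0,k0,k0,k0,k0,k75,k0,k0,k0,k0],[k0,k0,k0,k0,k0,k0,k0,k0,k0,k0],[k0,k0,k0,k0,k0,k0,k0,k0,
    k0,k0]] (nat_lit 1440) k5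
    [[(k1,(nat_lit 360)),(k8,(nat_lit 360))],[(k6,(nat_lit 360)),(k2,(nat_lit 403)),(k9,(nat_lit 403)),(k7,
    (nat_lit 407)),(k0,(nat_lit 446)),(k3,(nat_lit 463)),(k5,(nat_lit 538)),(k4,(nat_lit 542))],[(k2,(nat_lit 360)),
    (k7,(nat_lit 360)),(k0,(nat_lit 463)),(k3,(nat_lit 480)),(k4,(nat_lit 495)),(k5,(nat_lit 495)),(k6,(nat_lit 511)),
    (k9,(nat_lit 554))],[(k2,(nat_lit 360)),(k3,(nat_lit 360)),(k7,(nat_lit 364)),(k0,(nat_lit 403)),(k4,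
    (nat_lit 435)),(k5,(nat_lit 435)),(k6,(nat_lit 451)),(k9,(nat_lit 526))],[(k6,(nat_lit 360)),(k2,(nat_lit 435)),
    (k9,(nat_lit 435)),(k7,(nat_lit 439)),(k3,(nat_lit 495)),(k4,(nat_lit 510)),(k5,(nat_lit 510)),(k0,
    (nat_lit 538))],[(k9,(nat_lit 360)),(k2,(nat_lit 435)),(k7,(nat_lit 439)),(k3,(nat_lit 495)),(k4,(nat_lit 510)),
    (k5,(nat_lit 510)),(k6,(nat_lit 526)),(k0,(nat_lit 542))],[(k3,(nat_lit 360)),(k2,(nat_lit 364)),(k9,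
    (nat_lit 364)),(k7,(nat_lit 368)),(k0,(nat_lit 407)),(k4,(nat_lit 439)),(k5,(nat_lit 439)),(k6,(nat_lit 530))],
    [(k0,(nat_lit 360)),(k5,(nat_lit 360)),(k2,(nat_lit 451)),(k9,(nat_lit 451)),(k3,(nat_lit 511)),(k4,
    (nat_lit 526)),(k7,(nat_lit 530)),(k6,(nat_lit 542))],[(k4,(nat_lit 360)),(k9,(nat_lit 360)),(k7,(nat_lit 364)),
    (k0,(nat_lit 403)),(k5,(nat_lit 435)),(k6,(nat_lit 451)),(k2,(nat_lit 526)),(k3,(nat_lit 554))],[(k1,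
    (nat_lit 360)),(k8,(nat_lit 360))]]
    [[k2,k1,k0,k0,k0],[k2,k0,k0,k1,k0],[k1,k1,k0,k0,k1],[k1,k0,k1,k0,k1],[k1,k0,k0,k1,k1],[k0,k3,k0,k0,k0],[k0,k2,k1,
    k0,k0],[k0,k2,k0,k1,k0],[k0,k1,k1,k1,k0],[k0,k1,k0,k2,k0],[k0,k0,k2,k1,k0],[k0,k0,k1,k2,k0],[k0,k0,k1,k0,k2],[k0,
    k0,k0,k1,k2]]
    [.ref k6 k1 [(z1,[z1,z1,y1]),(z1,[z1,y2,z2])],.ref k43 k1 [(z1,[z1]),(z1,[z1,y2,z2])],.ref k44 k1 [(z1,[z1,z1,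
    y1]),(z1,[z1,y1,z1])],.ref k45 k1 [(z1,[y1,z1]),(z1,[y1,z0,z1])],.ref k46 k1 [(z1,[z1]),(z1,[z1,y1,z1])],
    .ref k55 k1 [(z1,[z1,z3,y3]),(z1,[z1])],.ref k56 k1 [(z1,[z0,z1]),(z1,[z1])],.ref k57 k0 [(z1,[y1,y1,z1]),(z1,
    [z1])],.ref k58 k0 [(z1,[y1,z0,z1]),(z1,[z1,y1])],.ref k75 k0 [(z1,[y1,y2,z2]),(z1,[z1])],.ref k83 k1 [(z1,[y1,
    z2]),(z1,[y1,y2,z4])],.ref k89 k1 [(z2,[y1,z1]),(z2,[y1,y1,z2])],.ref k45 k1 [(z2,[y1,z1]),(z2,[y1,y1,z2])],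
    .ref k36 k0 [(z1,[z1,z1,y1]),(z1,[y1,y2,z2])]],
    .base (.leafM k0 [k2,k3,k4,k0,k1] [(z2,[y1,y1,z2])] []),
    .base (.leafM k2 [k0,k1,k2,k3,k4] [(z1,[z0,z1])] []),
    .base (.spec k2 true k4 [(z1,[z0,z1]),(z1,[y1,y2,z2])]),
    .base (.leafM k0 [k4,k0,k1,k2,k3] [(z1,[z1])] []),
    .base (.spec k6 false k0 [(z1,[z1]),(z1,[z0,z1])])]

theorem hB5_17_7 : blkB [0, 0, 0, 0, 1] [] sp5 hS5_17 (pcls (n := 5) [0, 0, 0, 0, 1]) hD5_17 162 7 hN5_17_7 = true := by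
  decide +kernel

/-- nodes 96 to 107 -/
noncomputable def hN5_17_8 : List HM :=
  [.base (.leafM k0 [k1,k2,k3,k4,k0] [(z3,[z0,z1,z1])] []),
    .base (.spec k1 true k4 [(z9,[y6,y2,y6,y1,z18]),(z3,[z2,z0,z1])]),
    .base (.leafM k2 [k0,k1,k2,k3,k4] [(z2,[z0,z1,z0,z1])] []),
    .lp k0 [(nat_lit 150952680),(nat_lit 188970392),(nat_lit 232578944),(nat_lit 221738400),
    (nat_lit 176330232)] [(nat_lit 58096827),(nat_lit 45395307),(nat_lit 32737211),(nat_lit 32737211),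
    (nat_lit 10932935),(nat_lit 10932935),k0,(nat_lit 32706414),(nat_lit 45408051),(nat_lit 32706531)] k0 [[k0,k0,k0,
    k0,k0,(nat_lit 21804276),k0,(nat_lit 32706414),k0,k0],[(nat_lit 25403040),k0,k0,k0,k0,k0,k0,k0,k0,k0],[k0,k0,k0,
    k0,k0,k0,k0,k0,k0,k0],[k0,k0,k0,k0,k0,k0,(nat_lit 21804276),(nat_lit 79949012),k0,k0],[k0,(nat_lit 21804276),k0,
    k0,k0,k0,(nat_lit 21804276),(nat_lit 79949012),k0,k0],[k0,k0,k0,k0,k0,k0,k0,k0,k0,k0],[k0,(nat_lit 32706414),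
    (nat_lit 79949012),k0,k0,(nat_lit 79949012),k0,k0,k0,k0],[k0,k0,(nat_lit 21804276),k0,k0,(nat_lit 21804276),k0,k0,
    k0,k0],[k0,k0,k0,k0,k0,k0,k0,k0,k0,k0],[k0,k0,k0,k0,k0,k0,k0,k0,k0,k0]] (nat_lit 654128280) k5
    [[(k8,(nat_lit 163641456)),(k1,(nat_lit 163654200))],[(k2,(nat_lit 163610776)),(k3,(nat_lit 163610776)),(k4,
    (nat_lit 163610776)),(k9,(nat_lit 163641456)),(k6,(nat_lit 163641573)),(k7,(nat_lit 163641573)),(k0,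
    (nat_lit 163654200)),(k5,(nat_lit 185415052))],[(k3,(nat_lit 163567352)),(k0,(nat_lit 163610776)),(k2,
    (nat_lit 188970392)),(k4,(nat_lit 210774668)),(k5,(nat_lit 210774668)),(k7,(nat_lit 210805465)),(k9,
    (nat_lit 221707486)),(k6,(nat_lit 221707603))],[(k0,(nat_lit 163610776)),(k2,(nat_lit 188970392)),(k3,
    (nat_lit 188970392)),(k7,(nat_lit 189001189)),(k4,(nat_lit 210774668)),(k5,(nat_lit 210774668)),(k6,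
    (nat_lit 243511879)),(k9,(nat_lit 268950084))],[(k6,(nat_lit 163562867)),(k0,(nat_lit 185415052)),(k9,
    (nat_lit 189001072)),(k2,(nat_lit 210774668)),(k3,(nat_lit 210774668)),(k7,(nat_lit 210805465)),(k4,
    (nat_lit 232578944)),(k5,(nat_lit 232578944))],[(k6,(nat_lit 163562867)),(k0,(nat_lit 163610776)),(k9,
    (nat_lit 189001072)),(k2,(nat_lit 210774668)),(k3,(nat_lit 210774668)),(k7,(nat_lit 210805465)),(k4,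
    (nat_lit 232578944)),(k5,(nat_lit 232578944))],[(k0,(nat_lit 163641573)),(k2,(nat_lit 189001189)),(k7,
    (nat_lit 189031986)),(k3,(nat_lit 210805465)),(k4,(nat_lit 210805465)),(k5,(nat_lit 210805465)),(k6,
    (nat_lit 243542676)),(k9,(nat_lit 268980881))],[(k4,(nat_lit 163562867)),(k5,(nat_lit 163562867)),(k0,
    (nat_lit 163641573)),(k3,(nat_lit 221707603)),(k9,(nat_lit 221738283)),(k2,(nat_lit 243511879)),(k7,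
    (nat_lit 243542676)),(k6,(nat_lit 254444814))],[(k0,(nat_lit 163641456)),(k4,(nat_lit 189001072)),(k5,
    (nat_lit 189001072)),(k9,(nat_lit 189031752)),(k3,(nat_lit 221707486)),(k6,(nat_lit 221738283)),(k2,
    (nat_lit 268950084)),(k7,(nat_lit 268980881))],[(k8,(nat_lit 163628712)),(k1,(nat_lit 163641456))]]
    [[k2,k1,k0,k0,k0],[k2,k0,k1,k0,k0],[k2,k0,k0,k1,k0],[k1,k1,k0,k0,k1],[k1,k0,k1,k0,k1],[k1,k0,k0,k1,k1],[k0,k3,k0,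
    k0,k0],[k0,k2,k1,k0,k0],[k0,k2,k0,k1,k0],[k0,k1,k1,k1,k0],[k0,k0,k2,k1,k0],[k0,k0,k1,k2,k0],[k0,k0,k1,k0,k2]]
    [.ref k96 k1 [(z2,[z9,y2,y9]),(z2,[y3,z2,z9]),(z1,[z0,z0,z0,z1]),(z2,[y3,z0,y3,y2,z6])],.ref k97 k1 [(z2,[z3,z0,
    z0,y1]),(z1,[y3,z2,z9,z1]),(z1,[z0,z0,z0,z1]),(z1,[y3,y1,y9,y2,z9])],.ref k96 k1 [(z2,[z9,z1,z9,z3,y9]),(z2,[y3,
    z1,z3,y1,z3]),(z1,[z0,z0,z0,z1]),(z2,[y3,y1,y9,y3,z9])],.ref k96 k1 [(z1,[z9,y1,y9]),(z1,[y3,z1,z6]),(z1,[z0,z0,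
    z0,z1]),(z1,[y3,z0,z0,y1,z3])],.ref k98 k1 [(z1,[z9,z1,z0,y3]),(z3,[y3,z1,z6,z1]),(z1,[z0,z0,z0,z1]),(z3,[y3,y1,
    y6,y1,z6])],.ref k96 k1 [(z1,[z9,z2,z9,z3,y9]),(z1,[y3,z0,z0,y1,z3]),(z1,[z0,z0,z0,z1]),(z1,[y3,y1,y6,y2,z6])],
    .ref k8 k1 [(z2,[y3,z2,z9]),(z1,[z1]),(z1,[z0,z0,z0,z1]),(z1,[z1,y1,y6,y1,z3])],.ref k8 k1 [(z4,[y9,z4,z18,z3]),
    (z2,[z3,z0,z0,y1]),(z1,[z0,z0,z0,z1]),(z2,[z3,y2,y12,y3,z6])],.ref k8 k1 [(z2,[y3,z1,z3,y1,z3]),(z3,[z3,z1,z6,z1,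
    y3]),(z1,[z0,z0,z0,z1]),(z3,[z3,y2,y12,y2,z6])],.ref k8 k1 [(z4,[y9,z1,z0,z0,z9]),(z2,[z3,z1,z6,z0,y3]),(z1,[z0,
    z0,z0,z1]),(z2,[z3,y1,y6,y2,z3])],.ref k8 k1 [(z2,[y9,y1,y9,z3,z9]),(z1,[z3,z1,z6,y1,y3]),(z1,[z0,z0,z0,z1]),(z1,
    [z3,z0,z0,y2])],.ref k8 k1 [(z4,[y9,y2,y18,y3,z18]),(z2,[z3,z2,z12,z1,y6]),(z1,[z0,z0,z0,z1]),(z2,[z3,z0,z0,y1])],
    .ref k8 k1 [(z2,[z9,z2,z0,y3]),(z1,[y3,z0,z3,z1]),(z1,[z0,z0,z0,z1]),(z1,[y3,y1,y3,z0,z3])]],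
    .base (.leafM k0 [k2,k3,k4,k0,k1] [(z6,[y1,y1,z0,z6])] []),
    .base (.leafM k2 [k0,k1,k2,k3,k4] [(z3,[y1,z0,y1,z3])] []),
    .base (.spec k2 true k4 [(z1,[z0,z1]),(z3,[y1,y3,z1,z3])]),
    .base (.leafM k0 [k4,k0,k1,k2,k3] [(z1,[z1])] []),
    .base (.spec k6 false k0 [(z3,[z1,y3,y1,z3]),(z1,[z0,z1])]),
    .base (.leafM k0 [k0,k1,k2,k3,k4] [(z3,[z1,z1])] []),
    .base (.spec k5 false k0 [(z9,[z0,z1,z0,z2]),(z9,[y2,y2,y3,y2,z18])]),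
    .lp k0 [k36,k40,k40,k30,k32] [k4,k10,k8,k2,k10,k0,k10,k10,k9,k9] k0 [[k0,k0,k0,k0,k0,k0,k0,k6,k0,k0],[k0,k0,k0,k0,
    k8,k0,k0,k0,k0,k0],[k0,k0,k0,k0,k0,k0,k0,k0,k0,k0],[k0,k0,k0,k0,k0,k0,k0,k10,k0,k0],[k0,k0,k0,k0,k0,k0,k0,k0,k0,
    k0],[k8,k0,k0,k0,k0,k0,k0,k0,k0,k0],[k0,k6,k10,k0,k0,k0,k0,k0,k0,k0],[k0,k0,k0,k0,k0,k0,k0,k0,k0,k0],[k0,k0,k0,k0,
    k0,k0,k0,k0,k0,k0],[k0,k0,k0,k0,k0,k0,k0,k0,k0,k0]] k120 k5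
    [[(k1,k30),(k8,k31)],[(k6,k30),(k7,k36),(k9,k37),(k2,k38),(k0,k42),(k3,k44),(k4,k44),(k5,k46)],[(k7,k30),(k4,k38),
    (k6,k38),(k2,k40),(k0,k44),(k9,k45),(k3,k46),(k5,k48)],[(k4,k32),(k6,k32),(k7,k32),(k2,k34),(k0,k38),(k3,k40),(k5,
    k42),(k9,k43)],[(k6,k30),(k4,k40),(k7,k40),(k9,k41),(k2,k42),(k0,k46),(k3,k48),(k5,k50)],[(k4,k30),(k6,k30),(k7,
    k30),(k9,k31),(k2,k32),(k3,k38),(k5,k40),(k0,k44)],[(k3,k30),(k4,k30),(k6,k30),(k7,k30),(k9,k31),(k2,k32),(k0,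
    k36),(k5,k40)],[(k0,k30),(k4,k30),(k5,k30),(k6,k30),(k7,k30),(k9,k31),(k2,k32),(k3,k38)],[(k4,k31),(k6,k31),(k7,
    k31),(k9,k32),(k0,k37),(k5,k41),(k2,k43),(k3,k45)],[(k1,k31),(k8,k32)]]
    [[k2,k1,k0,k0,k0],[k2,k0,k0,k1,k0],[k1,k1,k0,k0,k1],[k1,k0,k1,k0,k1],[k1,k0,k0,k1,k1],[k0,k2,k0,k1,k0],[k0,k1,k1,
    k1,k0],[k0,k1,k0,k2,k0],[k0,k0,k2,k1,k0],[k0,k0,k1,k2,k0],[k0,k0,k1,k0,k2],[k0,k0,k0,k3,k0],[k0,k0,k0,k1,k2]]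
    [.ref k76 k0 [(z2,[y3,z2,z3]),(z2,[y3,z0,y3,y2,z6]),(z1,[z0,z0,z0,z1]),(z1,[z3,y2])],.contra [z3,y1,z3,z1,y3],
    .ref k76 k0 [(z1,[y3,z1,z3]),(z1,[y3,z0,z0,y1,z3]),(z1,[z0,z0,z0,z1]),(z1,[z6,y2,y3])],.ref k76 k0 [(z1,[z3,y1,z0,
    y1]),(z1,[z3,y2,y3,y2,z3]),(z1,[z0,z0,z0,z1]),(z1,[y6,z2,z3,z2])],.ref k105 k1 [(z1,[z0,z1]),(z1,[y3,z0,z0,y1,
    z3]),(z1,[z0,z0,z0,z1]),(z3,[z3,y2,y3,y1,z3])],.ref k106 k0 [(z1,[y3,y1,z3,y1,z3]),(z1,[y3,y4,y6,y4,z12]),(z1,[z0,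
    z0,z0,z1]),(z1,[z6,z2,z3,z2,y6])],.contra [y3,y2,y3,y1,z6],.contra [z3,z4,z3,z2,y6],.contra [z3,z1,z3,y1,y3],
    .contra [z3,z2,z6,z1,y6],.ref k76 k0 [(z2,[z3,z0,z0,y1]),(z2,[z3,y2,y6,y3,z6]),(z1,[z0,z0,z0,z1]),(z1,[y3,z0,z3,
    z1])],.contra [z1,z1,z3,z1,y3],.ref k97 k1 [(z1,[z0,z1]),(z1,[y6,y2,z3,y2,z6]),(z1,[z0,z0,z0,z1]),(z1,[z3,y2,y6,
    y2,z6])]]]

theorem hB5_17_8 : blkB [0, 0, 0, 0, 1] [] sp5 hS5_17 (pcls (n := 5) [0, 0, 0, 0, 1]) hD5_17 162 8 hN5_17_8 = true := by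
  decide +kernel

/-- nodes 108 to 119 -/
noncomputable def hN5_17_9 : List HM :=
  [.lp k0 [k150,k195,k192,(nat_lit 210),k143] [k38,k38,k31,k0,k17,k17,k8,k8,k38,k45] k0 [[k0,k0,k15,k0,k0,k7,k0,k0,k0,
    k0],[k0,k0,k0,k0,k0,k59,k31,k7,k0,k0],[k0,k0,k0,k0,k8,k2,k0,k0,k0,k0],[k0,k15,k0,k0,k0,k0,k8,k0,k0,k0],[k59,k7,k0,
    k2,k0,k0,k0,k0,k0,k0],[k0,k0,k0,k8,k16,k0,k6,k0,k0,k0],[k7,k0,k0,k0,k0,k0,k0,k14,k0,k0],[k31,k0,k8,k0,k6,k0,k0,k0,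
    k0,k0],[k0,k0,k0,k0,k0,k0,k0,k0,k0,k0],[k0,k0,k0,k0,k0,k0,k0,k0,k0,k0]] (nat_lit 600) k5
    [[(k1,k150),(k8,k150)],[(k0,k150),(k9,k150),(k5,k156),(k2,k157),(k4,k164),(k3,k188),(k6,(nat_lit 211)),(k7,
    (nat_lit 239))],[(k4,k150),(k9,k150),(k0,k188),(k5,(nat_lit 209)),(k2,(nat_lit 210)),(k6,(nat_lit 211)),(k7,
    (nat_lit 225)),(k3,(nat_lit 226))],[(k9,k150),(k0,k157),(k2,k164),(k4,k176),(k5,k178),(k7,k179),(k6,k195),(k3,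
    (nat_lit 210))],[(k0,k156),(k9,k156),(k2,k178),(k5,k192),(k4,(nat_lit 200)),(k6,(nat_lit 201)),(k7,(nat_lit 203)),
    (k3,(nat_lit 209))],[(k3,k150),(k0,k164),(k9,k164),(k2,k176),(k5,(nat_lit 200)),(k7,(nat_lit 201)),(k6,
    (nat_lit 207)),(k4,(nat_lit 208))],[(k9,k167),(k2,k179),(k7,k194),(k4,(nat_lit 201)),(k5,(nat_lit 203)),(k6,
    (nat_lit 210)),(k3,(nat_lit 225)),(k0,(nat_lit 239))],[(k9,k173),(k2,k195),(k6,k196),(k5,(nat_lit 201)),(k4,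
    (nat_lit 207)),(k7,(nat_lit 210)),(k0,(nat_lit 211)),(k3,(nat_lit 211))],[(k0,k150),(k2,k150),(k3,k150),(k9,k150),
    (k5,k156),(k4,k164),(k7,k167),(k6,k173)],[(k1,k150),(k8,k150)]]
    [[k2,k1,k0,k0,k0],[k2,k0,k1,k0,k0],[k1,k1,k0,k0,k1],[k1,k0,k1,k0,k1],[k1,k0,k0,k1,k1],[k0,k2,k1,k0,k0],[k0,k1,k2,
    k0,k0],[k0,k1,k1,k1,k0],[k0,k1,k0,k0,k2],[k0,k0,k1,k0,k2],[k0,k0,k0,k1,k2]]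
    [.ref k99 k0 [(z2,[y6,y3,z1]),(z1,[z0,z1]),(z2,[z0,y3,y1,z6])],.ref k77 k1 [(z4,[z6,z3,z1,y6]),(z4,[z2,y1,z1,y2]),
    (z2,[z0,y3,y1,z6])],.ref k100 k1 [(z2,[z6,z3,y1]),(z2,[z6,y3,z1]),(z2,[z0,y3,y1,z6])],.ref k101 k1 [(z2,[z6,z3,z1,
    y6]),(z1,[z3,z0,z1,y3]),(z2,[z0,y3,y1,z6])],.ref k21 k1 [(z1,[y1,z1]),(z2,[y6,z3,z1]),(z2,[z0,y3,y1,z6])],
    .ref k102 k0 [(z4,[y6,y9,z1,z6]),(z1,[z0,z1]),(z2,[z0,y3,y1,z6])],.ref k102 k0 [(z2,[y6,y9,y1,z12]),(z1,[z0,z1]),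
    (z2,[z0,y3,y1,z6])],.ref k103 k1 [(z1,[y1,z0,z0,z1]),(z2,[y6,y3,z1,z6]),(z2,[z0,y3,y1,z6])],.ref k104 k1 [(z2,[z6,
    z3,y1]),(z1,[z1]),(z2,[z0,y3,y1,z6])],.ref k107 k0 [(z4,[z6,z3,z1,y6]),(z1,[z0,z1]),(z2,[z0,y3,y1,z6])],
    .ref k21 k1 [(z2,[y1,z1]),(z2,[y3,z0,z1]),(z2,[z0,y3,y1,z6])]],
    .base (.leafM k2 [k0,k1,k2,k3,k4] [(z2,[y1,z0,y1,z2])] []),
    .base (.leafM k0 [k0,k1,k2,k3,k4] [(z1,[z1,z1])] []),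
    .base (.leafM k0 [k4,k0,k1,k2,k3] [(z1,[z1])] []),
    .base (.spec k5 false k0 [(z7,[z0,z1,z0,z2]),(z7,[y2,y2,y1,y2,z14])]),
    .base (.leafM k0 [k0,k1,k2,k3,k4] [(z5,[z1,z1])] []),
    .lp k0 [k36,k40,k40,k30,k32] [k4,k10,k8,k2,k10,k0,k10,k10,k9,k9] k0 [[k0,k0,k0,k0,k0,k0,k0,k6,k0,k0],[k0,k0,k0,k0,
    k8,k0,k0,k0,k0,k0],[k0,k0,k0,k0,k0,k0,k0,k0,k0,k0],[k0,k0,k0,k0,k0,k0,k0,k10,k0,k0],[k0,k0,k0,k0,k0,k0,k0,k0,k0,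
    k0],[k8,k0,k0,k0,k0,k0,k0,k0,k0,k0],[k0,k6,k10,k0,k0,k0,k0,k0,k0,k0],[k0,k0,k0,k0,k0,k0,k0,k0,k0,k0],[k0,k0,k0,k0,
    k0,k0,k0,k0,k0,k0],[k0,k0,k0,k0,k0,k0,k0,k0,k0,k0]] k120 k5
    [[(k1,k30),(k8,k31)],[(k6,k30),(k7,k36),(k9,k37),(k2,k38),(k0,k42),(k3,k44),(k4,k44),(k5,k46)],[(k7,k30),(k4,k38),
    (k6,k38),(k2,k40),(k0,k44),(k9,k45),(k3,k46),(k5,k48)],[(k4,k32),(k6,k32),(k7,k32),(k2,k34),(k0,k38),(k3,k40),(k5,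
    k42),(k9,k43)],[(k6,k30),(k4,k40),(k7,k40),(k9,k41),(k2,k42),(k0,k46),(k3,k48),(k5,k50)],[(k4,k30),(k6,k30),(k7,
    k30),(k9,k31),(k2,k32),(k3,k38),(k5,k40),(k0,k44)],[(k3,k30),(k4,k30),(k6,k30),(k7,k30),(k9,k31),(k2,k32),(k0,
    k36),(k5,k40)],[(k0,k30),(k4,k30),(k5,k30),(k6,k30),(k7,k30),(k9,k31),(k2,k32),(k3,k38)],[(k4,k31),(k6,k31),(k7,
    k31),(k9,k32),(k0,k37),(k5,k41),(k2,k43),(k3,k45)],[(k1,k31),(k8,k32)]]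
    [[k2,k1,k0,k0,k0],[k2,k0,k0,k1,k0],[k1,k1,k0,k0,k1],[k1,k0,k1,k0,k1],[k1,k0,k0,k1,k1],[k0,k2,k0,k1,k0],[k0,k1,k1,
    k1,k0],[k0,k1,k0,k2,k0],[k0,k0,k2,k1,k0],[k0,k0,k1,k2,k0],[k0,k0,k1,k0,k2],[k0,k0,k0,k3,k0],[k0,k0,k0,k1,k2]]
    [.ref k76 k0 [(z1,[y1,z1,z1]),(z2,[y1,y2,y5,y6,z6]),(z1,[y1,z1,z1,z3]),(z1,[z2,y2,z1])],.contra [z1,z0,z1,z1,y1],
    .ref k76 k0 [(z1,[y2,z1,z2]),(z1,[y1,y1,y2,y3,z3]),(z1,[y2,z1,z2,z3]),(z1,[z4,y2,y1])],.ref k76 k0 [(z1,[z2,y1,z0,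
    y2]),(z1,[z1,y2,y3,y4,z3]),(z1,[z2,y1,z0,z1]),(z1,[y4,z2,z3,z4])],.contra [z1,z0,z1,z2,y1],.ref k112 k0 [(z1,[y2,
    y1,z2,y2,z2]),(z1,[y1,y4,y6,y8,z8]),(z1,[y2,y1,z2,z5,z2]),(z1,[z4,z2,z3,z4,y4])],.contra [z1,z1,z0,z0,y1],
    .contra [z1,z2,z1,z2,y2],.ref k113 k1 [(z1,[y1,z2,y1,z1,z1]),(z1,[y4,y2,z1,z4,z4]),(z1,[z2,z1,z2,z3,y2]),(z1,[z1,
    y2,y4,y6,z4])],.contra [z1,z1,z2,z3,y2],.ref k76 k0 [(z1,[z1,z0,z0,y1]),(z2,[z1,y3,y6,y7,z6]),(z1,[z1,z0,z0,z2]),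
    (z1,[y2,z0,z3,z2])],.contra [y2,y2,y5,y6,z6],.ref k113 k1 [(z1,[y1,z2,y1,y1,z1]),(z1,[y4,y2,z1,y4,z4]),(z1,[z2,z1,
    z2,z7,y2]),(z1,[z1,y2,y4,y4,z4])]],
    .lp k0 [(nat_lit 2360),(nat_lit 3424),(nat_lit 3118),(nat_lit 3364),(nat_lit 2094)] [(nat_lit 532),(nat_lit 532),
    k0,k0,k153,k153,k30,k30,(nat_lit 665),(nat_lit 665)] k0 [[k0,k0,(nat_lit 432),(nat_lit 432),k0,(nat_lit 306),k0,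
    k0,k0,k0],[k0,k0,k0,k0,k0,(nat_lit 798),(nat_lit 718),(nat_lit 426),k0,k0],[k0,(nat_lit 432),k0,k0,(nat_lit 246),
    (nat_lit 366),k0,k0,k0,k0],[k0,(nat_lit 432),k0,k0,k0,k0,k0,k0,k0,k0],[(nat_lit 798),(nat_lit 306),k0,
    (nat_lit 366),k0,k0,k120,k0,k0,k0],[k0,k0,k0,(nat_lit 246),k0,k0,k0,k0,k0,k0],[(nat_lit 426),k0,k0,k0,k0,k0,k0,
    (nat_lit 612),k0,k0],[(nat_lit 718),k0,k0,k0,k0,k120,k0,k0,k0,k0],[k0,k0,k0,k0,k0,k0,k0,k0,k0,k0],[k0,k0,k0,k0,k0,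
    k0,k0,k0,k0,k0]] (nat_lit 9600) k6
    [[(k8,(nat_lit 2227)),(k1,(nat_lit 2360))],[(k5,(nat_lit 2307)),(k0,(nat_lit 2360)),(k4,(nat_lit 2433)),(k2,
    (nat_lit 2460)),(k9,(nat_lit 2653)),(k3,(nat_lit 2892)),(k6,(nat_lit 3580)),(k7,(nat_lit 3660))],[(k9,
    (nat_lit 2041)),(k4,(nat_lit 2473)),(k0,(nat_lit 2892)),(k6,(nat_lit 2968)),(k3,(nat_lit 3424)),(k7,
    (nat_lit 3700)),(k5,(nat_lit 3703)),(k2,(nat_lit 3856))],[(k0,(nat_lit 2460)),(k9,(nat_lit 2759)),(k4,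
    (nat_lit 2905)),(k7,(nat_lit 3148)),(k5,(nat_lit 3271)),(k6,(nat_lit 3394)),(k2,(nat_lit 3424)),(k3,
    (nat_lit 3856))],[(k0,(nat_lit 2307)),(k9,(nat_lit 2606)),(k5,(nat_lit 3118)),(k6,(nat_lit 3241)),(k2,
    (nat_lit 3271)),(k4,(nat_lit 3364)),(k7,(nat_lit 3607)),(k3,(nat_lit 3703))],[(k0,(nat_lit 2433)),(k3,
    (nat_lit 2473)),(k9,(nat_lit 2486)),(k2,(nat_lit 2905)),(k4,(nat_lit 3118)),(k6,(nat_lit 3241)),(k7,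
    (nat_lit 3241)),(k5,(nat_lit 3364))],[(k9,(nat_lit 2729)),(k2,(nat_lit 3148)),(k4,(nat_lit 3241)),(k7,
    (nat_lit 3364)),(k6,(nat_lit 3484)),(k5,(nat_lit 3607)),(k0,(nat_lit 3660)),(k3,(nat_lit 3700))],[(k9,
    (nat_lit 2729)),(k6,(nat_lit 2752)),(k3,(nat_lit 2968)),(k4,(nat_lit 3241)),(k5,(nat_lit 3241)),(k2,
    (nat_lit 3394)),(k7,(nat_lit 3484)),(k0,(nat_lit 3580))],[(k3,(nat_lit 2041)),(k4,(nat_lit 2486)),(k5,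
    (nat_lit 2606)),(k0,(nat_lit 2653)),(k9,(nat_lit 2706)),(k6,(nat_lit 2729)),(k7,(nat_lit 2729)),(k2,
    (nat_lit 2759))],[(k8,(nat_lit 2094)),(k1,(nat_lit 2227))]]
    [[k4,k0,k0,k0,k0],[k2,k1,k0,k0,k0],[k2,k0,k1,k0,k0],[k1,k1,k0,k0,k1],[k1,k1,k1,k0,k1],[k1,k0,k1,k0,k1],[k1,k0,k0,
    k1,k1],[k2,k0,k0,k0,k2],[k0,k1,k2,k0,k0],[k0,k1,k1,k1,k0],[k0,k1,k0,k0,k2],[k0,k0,k1,k0,k2],[k0,k0,k0,k1,k2]]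
    [.contra [y1,z2],.ref k13 k0 [(z1,[y1,z0,z1]),(z1,[z0,z1]),(z1,[z0,y1,y1,z1])],.ref k77 k1 [(z1,[z1,z1,z1,y1]),
    (z1,[z0,z0,z1]),(z1,[z1,y2,y2,z2])],.contra [z1,z0,y1],.contra [y1,z0,z0,z1],.ref k109 k1 [(z1,[z1,z1,z1,y1]),(z1,
    [z0,z0,z1]),(z1,[z1,y1,y1,z1])],.ref k110 k1 [(z1,[y1,z1]),(z1,[z0,z0,z1]),(z1,[y1,z0,y1,z1])],.ref k111 k1 [(z2,
    [z1]),(z1,[z0,z0,z1]),(z2,[z1,y2,y2,z2])],.ref k13 k0 [(z1,[y1,y2,y1,z2]),(z1,[z0,z1]),(z1,[z0,y1,y1,z1])],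
    .ref k111 k1 [(z1,[y1,z0,z0,z1]),(z1,[z0,z0,z1]),(z1,[y1,y1,y1,z2])],.contra [z1,z0,y1],.ref k114 k0 [(z1,[z1,z1,
    z1,y1]),(z1,[z0,z1]),(z1,[z0,y1,y1,z1])],.ref k110 k1 [(z2,[y1,z1]),(z1,[z0,z0,z1]),(z2,[y1,y1,y2,z2])]],
    .base (.leafM k2 [k0,k1,k2,k3,k4] [(z5,[y1,z0,y1,z5])] []),
    .base (.leafM k0 [k2,k3,k4,k0,k1] [(z1,[y1,y1,z0,z1])] []),
    .base (.spec k2 true k4 [(z1,[z0,z1]),(z1,[y1,y1,z1,z1])]),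
    .base (.spec k6 false k0 [(z1,[z1,y1,y1,z1]),(z1,[z0,z1])])]

theorem hB5_17_9 : blkB [0, 0, 0, 0, 1] [] sp5 hS5_17 (pcls (n := 5) [0, 0, 0, 0, 1]) hD5_17 162 9 hN5_17_9 = true := by
  decide +kernel

/-- nodes 120 to 131 -/
noncomputable def hN5_17_10 : List HM :=
  [.base (.leafM k0 [k0,k1,k2,k3,k4] [(z2,[z1,z1])] []),
    .lp k0 [k150,k195,k192,(nat_lit 210),k143] [k38,k38,k31,k0,k17,k17,k8,k8,k38,k45] k0 [[k0,k0,k15,k0,k0,k7,k0,k0,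
    k0,k0],[k0,k0,k0,k0,k0,k59,k31,k7,k0,k0],[k0,k0,k0,k0,k8,k2,k0,k0,k0,k0],[k0,k15,k0,k0,k0,k0,k8,k0,k0,k0],[k59,k7,
    k0,k2,k0,k0,k0,k0,k0,k0],[k0,k0,k0,k8,k16,k0,k6,k0,k0,k0],[k7,k0,k0,k0,k0,k0,k0,k14,k0,k0],[k31,k0,k8,k0,k6,k0,k0,
    k0,k0,k0],[k0,k0,k0,k0,k0,k0,k0,k0,k0,k0],[k0,k0,k0,k0,k0,k0,k0,k0,k0,k0]] (nat_lit 600) k5
    [[(k1,k150),(k8,k150)],[(k0,k150),(k9,k150),(k5,k156),(k2,k157),(k4,k164),(k3,k188),(k6,(nat_lit 211)),(k7,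
    (nat_lit 239))],[(k4,k150),(k9,k150),(k0,k188),(k5,(nat_lit 209)),(k2,(nat_lit 210)),(k6,(nat_lit 211)),(k7,
    (nat_lit 225)),(k3,(nat_lit 226))],[(k9,k150),(k0,k157),(k2,k164),(k4,k176),(k5,k178),(k7,k179),(k6,k195),(k3,
    (nat_lit 210))],[(k0,k156),(k9,k156),(k2,k178),(k5,k192),(k4,(nat_lit 200)),(k6,(nat_lit 201)),(k7,(nat_lit 203)),
    (k3,(nat_lit 209))],[(k3,k150),(k0,k164),(k9,k164),(k2,k176),(k5,(nat_lit 200)),(k7,(nat_lit 201)),(k6,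
    (nat_lit 207)),(k4,(nat_lit 208))],[(k9,k167),(k2,k179),(k7,k194),(k4,(nat_lit 201)),(k5,(nat_lit 203)),(k6,
    (nat_lit 210)),(k3,(nat_lit 225)),(k0,(nat_lit 239))],[(k9,k173),(k2,k195),(k6,k196),(k5,(nat_lit 201)),(k4,
    (nat_lit 207)),(k7,(nat_lit 210)),(k0,(nat_lit 211)),(k3,(nat_lit 211))],[(k0,k150),(k2,k150),(k3,k150),(k9,k150),
    (k5,k156),(k4,k164),(k7,k167),(k6,k173)],[(k1,k150),(k8,k150)]]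
    [[k2,k1,k0,k0,k0],[k2,k0,k1,k0,k0],[k1,k1,k0,k0,k1],[k1,k0,k1,k0,k1],[k1,k0,k0,k1,k1],[k0,k2,k1,k0,k0],[k0,k1,k2,
    k0,k0],[k0,k1,k1,k1,k0],[k0,k1,k0,k0,k2],[k0,k0,k1,k0,k2],[k0,k0,k0,k1,k2]]
    [.ref k12 k1 [(z2,[y2,z3,z1]),(z1,[z3,y3,y1]),(z2,[y8,z7,z3,z2])],.ref k77 k1 [(z4,[z2,z5,z1,y2]),(z4,[y2,z1,z1,
    z2]),(z2,[z4,y5,y1,z2])],.contra [z2,y1,y1],.ref k116 k1 [(z2,[z2,z5,z1,y2]),(z1,[y3,z0,z1,z3]),(z2,[z8,y5,y1,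
    z2])],.ref k117 k0 [(z1,[z1,y1]),(z1,[z0,z1]),(z2,[z0,y5,y1,z2])],.ref k12 k1 [(z4,[y2,z1,z1,z2]),(z4,[z6,z3,y1,
    y6]),(z2,[y4,y3,z1,z6])],.ref k118 k0 [(z2,[y2,y7,y1,z4]),(z1,[z0,z1]),(z2,[z0,y5,y1,z2])],.ref k12 k1 [(z1,[y1,
    z0,z0,z1]),(z2,[z6,z3,z1,y6]),(z2,[y8,y5,y1,z10])],.ref k119 k0 [(z2,[z2,y3,y1]),(z1,[z0,z1]),(z2,[z0,y5,y1,z2])],
    .ref k120 k1 [(z4,[z2,z5,z1,y2]),(z4,[y6,y3,z1,z6]),(z1,[z1])],.ref k117 k0 [(z2,[z1,y1]),(z1,[z0,z1]),(z2,[z0,y5,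
    y1,z2])]],
    .base (.leafM k0 [k2,k3,k4,k0,k1] [(z2,[y1,y1,z0,z2])] []),
    .base (.spec k5 true k4 [(z1,[y1,z1,y1,z1]),(z1,[z2,z0,z1])]),
    .lp k0 [(nat_lit 200),(nat_lit 240),(nat_lit 240),(nat_lit 208),k186] [k20,k20,k0,k0,k0,k0,k16,k16,k27,
    k27] k0 [[k0,k0,k0,k0,k0,k0,k0,k48,k0,k0],[k0,k0,k0,k0,k80,k0,k0,k4,k0,k0],[k0,k0,k0,k0,k0,k0,k0,k0,k0,k0],[k0,k0,
    k0,k0,k0,k0,k0,k60,k0,k0],[k0,k0,k0,k0,k0,k0,k54,k14,k0,k0],[k80,k0,k0,k0,k0,k0,k0,k0,k0,k0],[k4,k48,k60,k0,k0,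
    k14,k0,k0,k0,k0],[k0,k0,k0,k0,k0,k54,k42,k0,k0,k0],[k0,k0,k0,k0,k0,k0,k0,k0,k0,k0],[k0,k0,k0,k0,k0,k0,k0,k0,k0,
    k0]] (nat_lit 720) k6
    [[(k8,k193),(k1,(nat_lit 200))],[(k6,k156),(k9,k197),(k0,(nat_lit 200)),(k7,(nat_lit 204)),(k2,(nat_lit 220)),(k3,
    (nat_lit 220)),(k5,(nat_lit 220)),(k4,(nat_lit 300))],[(k7,k144),(k0,(nat_lit 220)),(k6,(nat_lit 220)),(k2,
    (nat_lit 240)),(k3,(nat_lit 240)),(k4,(nat_lit 240)),(k5,(nat_lit 240)),(k9,(nat_lit 261))],[(k0,(nat_lit 220)),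
    (k6,(nat_lit 224)),(k7,(nat_lit 224)),(k2,(nat_lit 240)),(k3,(nat_lit 240)),(k4,(nat_lit 240)),(k5,(nat_lit 240)),
    (k9,(nat_lit 273))],[(k6,k164),(k9,(nat_lit 213)),(k0,(nat_lit 220)),(k7,(nat_lit 224)),(k2,(nat_lit 240)),(k3,
    (nat_lit 240)),(k4,(nat_lit 240)),(k5,(nat_lit 240))],[(k9,k159),(k6,(nat_lit 210)),(k7,(nat_lit 224)),(k2,
    (nat_lit 240)),(k3,(nat_lit 240)),(k4,(nat_lit 240)),(k5,(nat_lit 240)),(k0,(nat_lit 300))],[(k3,k144),(k0,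
    (nat_lit 204)),(k7,(nat_lit 208)),(k9,(nat_lit 211)),(k2,(nat_lit 224)),(k4,(nat_lit 224)),(k5,(nat_lit 224)),(k6,
    (nat_lit 262))],[(k0,k156),(k5,k164),(k9,k197),(k4,(nat_lit 210)),(k3,(nat_lit 220)),(k2,(nat_lit 224)),(k6,
    (nat_lit 250)),(k7,(nat_lit 262))],[(k9,k144),(k4,k159),(k0,k197),(k6,k197),(k7,(nat_lit 211)),(k5,(nat_lit 213)),
    (k3,(nat_lit 261)),(k2,(nat_lit 273))],[(k8,k186),(k1,k193)]]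
    [[k2,k1,k0,k0,k0],[k2,k0,k0,k1,k0],[k1,k1,k0,k0,k1],[k1,k0,k1,k0,k1],[k1,k0,k0,k1,k1],[k0,k2,k0,k1,k0],[k0,k1,k1,
    k1,k0],[k0,k1,k0,k2,k0],[k0,k0,k2,k1,k0],[k0,k0,k1,k2,k0],[k0,k0,k1,k0,k2],[k0,k0,k0,k1,k2],[k0,k0,k0,k0,k4]]
    [.ref k0 k0 [(z2,[y1,z0,z1]),(z2,[y1,y2,z1]),(z1,[z0,z1,y1,z1])],.ref k42 k1 [(z1,[z1,z1]),(z1,[z0,z0,z1]),(z1,
    [y2,z1,y3,z3])],.ref k0 k0 [(z1,[y1,z0,z1]),(z1,[y1,y1,z1]),(z1,[z0,z1,y1,z1])],.ref k0 k0 [(z1,[z1,y1,z1,y1]),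
    (z1,[z1,y2,z1,y1]),(z1,[z0,z1,y1,z1])],.ref k122 k0 [(z1,[z1,z1]),(z1,[z1,y1]),(z1,[z0,z1,y1,z1])],
    .ref k123 k1 [(z1,[z1,z1,y2]),(z1,[z0,z0,z1]),(z1,[y2,y1,z3,z1])],.contra [y1,y1,z0,z1],.contra [z1,z2,y1],
    .ref k81 k0 [(z1,[z1,y1,z2,y2]),(z1,[z1,y2,z2,y2]),(z1,[z0,z1,y1,z1])],.contra [z1,z1,z1,y1],.ref k0 k0 [(z2,[z1,
    y1,z1,y1]),(z2,[z1,y3,z1,y1]),(z1,[z0,z1,y1,z1])],.ref k14 k0 [(z1,[z1,z1]),(z1,[z1,y2]),(z1,[z0,z1,y1,z1])],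
    .contra [y1,z0,z2]],
    .lp k0 [k66,k90,k60,k80,k60] [k25,k25,k26,k0,k28,k28,k18,k18,k28,k28] k0 [[k0,k0,k0,k0,k0,k0,k0,k0,k0,k0],[k0,k0,
    k0,k0,k0,k0,k28,k0,k0,k0],[k0,k0,k0,k0,k0,k0,k0,k0,k0,k0],[k0,k0,k0,k0,k0,k0,k0,k0,k0,k0],[k0,k0,k0,k0,k0,k0,k0,
    k0,k0,k0],[k0,k0,k0,k0,k0,k0,k0,k0,k0,k0],[k0,k0,k0,k0,k0,k0,k0,k0,k0,k0],[k28,k0,k0,k0,k0,k0,k0,k0,k0,k0],[k0,k0,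
    k0,k0,k0,k0,k0,k0,k0,k0],[k0,k0,k0,k0,k0,k0,k0,k0,k0,k0]] (nat_lit 240) k5
    [[(k8,k63),(k1,k66)],[(k4,k63),(k5,k63),(k9,k63),(k2,k65),(k0,k66),(k7,k73),(k3,k91),(k6,k101)],[(k9,k60),(k4,
    k88),(k5,k88),(k2,k90),(k0,k91),(k6,k98),(k7,k98),(k3,k116)],[(k4,k62),(k5,k62),(k9,k62),(k2,k64),(k0,k65),(k6,
    k72),(k7,k72),(k3,k90)],[(k4,k60),(k5,k60),(k9,k60),(k2,k62),(k0,k63),(k6,k70),(k7,k70),(k3,k88)],[(k4,k60),(k5,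
    k60),(k9,k60),(k2,k62),(k0,k63),(k6,k70),(k7,k70),(k3,k88)],[(k4,k70),(k5,k70),(k9,k70),(k2,k72),(k0,k73),(k6,
    k80),(k7,k80),(k3,k98)],[(k4,k70),(k5,k70),(k9,k70),(k2,k72),(k6,k80),(k7,k80),(k3,k98),(k0,k101)],[(k3,k60),(k4,
    k60),(k5,k60),(k9,k60),(k2,k62),(k0,k63),(k6,k70),(k7,k70)],[(k8,k60),(k1,k63)]]
    [[k2,k1,k0,k0,k0],[k2,k0,k1,k0,k0],[k1,k1,k0,k0,k1],[k1,k0,k1,k0,k1],[k1,k0,k0,k1,k1],[k0,k1,k2,k0,k0],[k0,k1,k1,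
    k1,k0],[k0,k1,k0,k0,k2],[k0,k0,k3,k0,k0],[k0,k0,k2,k1,k0],[k0,k0,k1,k2,k0],[k0,k0,k1,k0,k2],[k0,k0,k0,k1,k2]]
    [.ref k15 k1 [(z1,[z0,z1]),(z1,[z1,y1])],.ref k43 k1 [(z1,[z0,z1]),(z1,[y2,z1,z2])],.ref k91 k1 [(z1,[z0,z1]),(z1,
    [z2,y1])],.ref k92 k1 [(z1,[z0,z1]),(z1,[y1,z0,z1])],.ref k16 k0 [(z1,[z1,y1]),(z1,[z0,z1])],.ref k93 k0 [(z1,[y1,
    y2,z2]),(z1,[z0,z1])],.ref k94 k0 [(z1,[y1,z0,z1]),(z1,[z0,z1])],.ref k95 k1 [(z1,[z0,z1]),(z1,[z1])],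
    .ref k108 k1 [(z1,[z0,z1]),(z1,[y2,y3,z6])],.ref k115 k1 [(z1,[z0,z1]),(z2,[y1,y1,z2])],.ref k121 k1 [(z1,[z0,
    z1]),(z1,[y2,y1,z2])],.ref k124 k0 [(z1,[z1,z1,y1]),(z1,[z0,z1])],.ref k16 k0 [(z2,[z1,y1]),(z1,[z0,z1])]],
    .base (.leafM k0 [k1,k2,k3,k4,k0] [(z1,[y1,z1])] []),
    .base (.leafM k2 [k0,k1,k2,k3,k4] [(z1,[y1,z1])] []),
    .base (.leafM k0 [k4,k0,k1,k2,k3] [(z1,[z1])] []),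
    .base (.leafM k0 [k2,k3,k4,k0,k1] [(z5,[y1,y1,z0,z5])] []),
    .base (.spec k5 false k0 [(z1,[y2,y1,y2,z2]),(z1,[z0,z0,z1])]),
    .base (.leafM k2 [k0,k1,k2,k3,k4] [(z2,[z0,z1,z0,z1])] [])]

theorem hB5_17_10 : blkB [0, 0, 0, 0, 1] [] sp5 hS5_17 (pcls (n := 5) [0, 0, 0, 0, 1]) hD5_17 162 10 hN5_17_10 = true := by
  decide +kernel

/-- nodes 132 to 143 -/
noncomputable def hN5_17_11 : List HM :=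
  [.lp k0 [k62,k80,k82,k74,k60] [k19,k19,k20,k0,k2,k16,k20,k6,k20,k20] k0 [[k0,k0,k0,k0,k0,k0,k0,k0,k0,k0],[k0,k0,k0,
    k0,k34,k0,k0,k0,k0,k0],[k0,k0,k0,k0,k2,k2,k0,k0,k0,k0],[k0,k0,k0,k0,k0,k0,k0,k0,k0,k0],[k0,k0,k0,k2,k0,k0,k18,k0,
    k0,k0],[k34,k0,k0,k2,k0,k0,k2,k0,k0,k0],[k0,k0,k0,k0,k0,k0,k0,k0,k0,k0],[k0,k0,k0,k0,k2,k18,k0,k0,k0,k0],[k0,k0,
    k0,k0,k0,k0,k0,k0,k0,k0],[k0,k0,k0,k0,k0,k0,k0,k0,k0,k0]] (nat_lit 240) k5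
    [[(k8,k61),(k1,k62)],[(k2,k61),(k6,k61),(k9,k61),(k0,k62),(k5,k65),(k7,k75),(k3,k81),(k4,k113)],[(k7,k60),(k2,
    k80),(k6,k80),(k9,k80),(k0,k81),(k5,k84),(k4,k98),(k3,k100)],[(k2,k60),(k6,k60),(k9,k60),(k0,k61),(k5,k64),(k7,
    k72),(k4,k76),(k3,k80)],[(k2,k64),(k6,k64),(k9,k64),(k0,k65),(k5,k68),(k7,k80),(k3,k84),(k4,k84)],[(k9,k60),(k2,
    k76),(k6,k80),(k5,k84),(k7,k92),(k4,k96),(k3,k98),(k0,k113)],[(k3,k60),(k2,k72),(k9,k72),(k0,k75),(k5,k80),(k7,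
    k88),(k4,k92),(k6,k92)],[(k2,k60),(k6,k60),(k9,k60),(k0,k61),(k5,k64),(k3,k80),(k4,k80),(k7,k92)],[(k2,k60),(k4,
    k60),(k6,k60),(k9,k60),(k0,k61),(k5,k64),(k7,k72),(k3,k80)],[(k8,k60),(k1,k61)]]
    [[k2,k1,k0,k0,k0],[k2,k0,k0,k1,k0],[k1,k1,k0,k0,k1],[k1,k0,k1,k0,k1],[k1,k0,k0,k1,k1],[k0,k2,k0,k1,k0],[k0,k1,k1,
    k1,k0],[k0,k1,k0,k2,k0],[k0,k1,k0,k0,k2],[k0,k0,k1,k2,k0],[k0,k0,k1,k0,k2],[k0,k0,k0,k1,k2]]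
    [.ref k8 k0 [(z2,[y7,z2,z1]),(z7,[z14,y7,y5,y3,z21]),(z7,[y7,z2,z1,z3]),(z7,[z14,y4,z1])],.ref k8 k0 [(z2,[y7,z1,
    y1,y1,z7]),(z7,[z14,y5,y1,y1,z7]),(z7,[y7,z1,y1,z2,z7]),(z7,[z14,y2,z5,z2,y14])],.contra [z7,y1,y1,z1],
    .ref k131 k1 [(z7,[y7,z9,z0,z1]),(z7,[y7,z1,z2,z1]),(z7,[z7,y1,z0,z3]),(z7,[y7,y1,y2,y1,z14])],.contra [z7,z0,z1,
    z2,y7],.ref k8 k0 [(z4,[y7,y1,z1,y1,z7]),(z7,[z7,y2,y4,y2,z14]),(z14,[y7,y1,z1,z5,z7]),(z7,[z7,z1,z2,z1,y7])],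
    .ref k8 k0 [(z2,[y7,y1,z0,z0,z7]),(z7,[z14,y1,y3,y3,z7]),(z7,[y7,y1,z0,z3,z7]),(z7,[z14,z2,z3,z0,y14])],
    .ref k8 k0 [(z4,[y7,y2,y1,y2,z14]),(z7,[z7,y1,y2,y1,z7]),(z14,[y7,y2,y1,z4,z14]),(z7,[z7,z2,z4,z2,y14])],
    .ref k113 k1 [(z14,[y7,z10,z1]),(z1,[y2,z0,z1]),(z7,[z7,z0,y1,z5]),(z7,[y14,y5,y3,y5,z35])],.ref k8 k0 [(z2,[y7,
    y2,y2,y1,z14]),(z7,[z14,z1,z1,y1,y7]),(z7,[y7,y2,y2,z2,z14]),(z7,[z14,z4,z7,z2,y28])],.ref k131 k1 [(z14,[y7,z16,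
    z0,z1]),(z14,[y7,z0,z4,z1]),(z2,[z1,z0,z0,z1]),(z14,[y7,y4,y4,y3,z28])],.ref k113 k1 [(z14,[y7,z9,y1,y1,z7]),(z7,
    [y14,y2,z3,y2,z14]),(z7,[z7,z1,z1,z6,y7]),(z1,[y2,y1,y1,y1,z7])]],
    .base (.leafM k0 [k0,k1,k2,k3,k4] [(z5,[z1,z1])] []),
    .base (.spec k1 true k4 [(z7,[y2,y2,y2,y1,z14]),(z7,[z2,z0,z1])]),
    .lp k0 [k31,k40,k43,k35,k30] [k9,k10,k10,k0,k2,k5,k10,k5,k10,k10] k0 [[k0,k0,k0,k1,k1,k0,k0,k0,k0,k0],[k0,k0,k0,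
    k0,k15,k0,k0,k0,k0,k0],[k0,k1,k0,k0,k0,k7,k0,k0,k0,k0],[k0,k0,k0,k0,k0,k0,k0,k0,k0,k0],[k0,k0,k0,k7,k0,k7,k8,k0,
    k0,k0],[k15,k1,k0,k0,k0,k0,k0,k0,k0,k0],[k0,k0,k0,k0,k0,k0,k0,k0,k0,k0],[k0,k0,k0,k0,k0,k8,k0,k0,k0,k0],[k0,k0,k0,
    k0,k0,k0,k0,k0,k0,k0],[k0,k0,k0,k0,k0,k0,k0,k0,k0,k0]] k120 k5
    [[(k1,k30),(k8,k30)],[(k2,k30),(k6,k31),(k9,k31),(k0,k32),(k7,k35),(k5,k36),(k3,k41),(k4,k54)],[(k7,k30),(k2,k40),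
    (k6,k40),(k9,k40),(k0,k41),(k5,k46),(k4,k49),(k3,k50)],[(k0,k30),(k2,k30),(k6,k30),(k9,k30),(k4,k31),(k5,k35),(k7,
    k35),(k3,k40)],[(k2,k35),(k6,k35),(k9,k35),(k0,k36),(k5,k40),(k4,k43),(k3,k46),(k7,k47)],[(k9,k30),(k2,k31),(k6,
    k38),(k4,k39),(k5,k43),(k7,k43),(k3,k49),(k0,k54)],[(k3,k30),(k0,k35),(k2,k35),(k9,k35),(k4,k43),(k6,k43),(k5,
    k47),(k7,k47)],[(k2,k30),(k6,k30),(k9,k30),(k0,k31),(k5,k35),(k4,k38),(k3,k40),(k7,k43)],[(k2,k30),(k4,k30),(k6,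
    k30),(k9,k30),(k0,k31),(k5,k35),(k7,k35),(k3,k40)],[(k1,k30),(k8,k30)]]
    [[k2,k1,k0,k0,k0],[k2,k0,k0,k1,k0],[k1,k1,k0,k0,k1],[k1,k0,k1,k0,k1],[k1,k0,k0,k1,k1],[k0,k2,k1,k0,k0],[k0,k2,k0,
    k1,k0],[k0,k1,k1,k1,k0],[k0,k1,k0,k2,k0],[k0,k1,k0,k0,k2],[k0,k0,k1,k0,k2],[k0,k0,k0,k1,k2]]
    [.ref k8 k0 [(z1,[y2,z1,z2]),(z2,[z1,y2,y7,y3,z6]),(z2,[y2,z1,z2,z3]),(z1,[z2,y1,z1])],.ref k8 k0 [(z1,[y4,z1,y4,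
    y2,z4]),(z1,[z1,y1,y2,y1,z2]),(z2,[y4,z1,y4,z1,z4]),(z1,[z4,y1,z7,z2,y4])],.contra [z1,z0,y1],.ref k133 k1 [(z2,
    [y2,z3,z0,z1]),(z1,[y4,z1,z5,z2]),(z2,[z4,y1,z0,z3]),(z1,[y1,y1,y5,y2,z5])],.contra [z1,z0,z1,z1,y1],
    .ref k8 k0 [(z1,[y2,z0,z4,z1]),(z4,[z2,y3,y16,y7,z12]),(z1,[y1,z0,z2,z2]),(z1,[z2,z0,y1,y1])],.ref k8 k0 [(z3,[y4,
    y1,z4,y2,z4]),(z3,[z1,y2,y10,y4,z8]),(z6,[y4,y1,z4,z7,z4]),(z3,[z4,z1,z5,z2,y4])],.ref k8 k0 [(z1,[y4,y1,z0,z0,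
    z4]),(z2,[z2,y1,y6,y3,z4]),(z2,[y4,y1,z0,z3,z4]),(z1,[z4,z1,z3,z0,y4])],.ref k8 k0 [(z1,[y2,y1,y2,y2,z4]),(z2,[z1,
    y1,y5,y2,z4]),(z2,[y2,y1,y2,z1,z4]),(z1,[z2,z1,z5,z2,y4])],.contra [z1,z0,y1,z1],.ref k133 k1 [(z4,[y2,z5,z0,z1]),
    (z1,[y2,z0,z5,z1]),(z1,[z1,z0,z0,z2]),(z4,[y2,y5,y20,y9,z20])],.ref k134 k1 [(z2,[y2,z3,y2,y1,z2]),(z1,[y4,y1,z3,
    y2,z4]),(z2,[z4,z1,z4,z9,y4]),(z1,[y1,y2,y8,y4,z8])]],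
    .lp k0 [(nat_lit 403),(nat_lit 420),(nat_lit 510),(nat_lit 455),(nat_lit 360)] [k48,k91,k91,k31,k16,k16,k0,k87,
    k91,k91] k0 [[k0,k0,k0,k0,k0,k0,k0,k134,k0,k0],[k0,k0,k0,k60,k64,k0,k0,k0,k0,k0],[k60,k0,k0,k0,k0,k0,k0,k0,k0,k0],
    [k0,k0,k0,k0,k0,k0,k0,k166,k0,k0],[k0,k0,k0,k0,k0,k0,k75,k0,k0,k0],[k64,k0,k0,k0,k0,k0,k0,k0,k0,k0],[k0,k134,k166,
    k0,k0,k0,k0,k0,k0,k0],[k0,k0,k0,k0,k0,k75,k0,k0,k0,k0],[k0,k0,k0,k0,k0,k0,k0,k0,k0,k0],[k0,k0,k0,k0,k0,k0,k0,k0,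
    k0,k0]] (nat_lit 1440) k5
    [[(k1,(nat_lit 360)),(k8,(nat_lit 360))],[(k6,(nat_lit 360)),(k2,(nat_lit 403)),(k9,(nat_lit 403)),(k7,
    (nat_lit 407)),(k0,(nat_lit 446)),(k3,(nat_lit 463)),(k5,(nat_lit 538)),(k4,(nat_lit 542))],[(k2,(nat_lit 360)),
    (k7,(nat_lit 360)),(k0,(nat_lit 463)),(k3,(nat_lit 480)),(k4,(nat_lit 495)),(k5,(nat_lit 495)),(k6,(nat_lit 511)),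
    (k9,(nat_lit 554))],[(k2,(nat_lit 360)),(k3,(nat_lit 360)),(k7,(nat_lit 364)),(k0,(nat_lit 403)),(k4,
    (nat_lit 435)),(k5,(nat_lit 435)),(k6,(nat_lit 451)),(k9,(nat_lit 526))],[(k6,(nat_lit 360)),(k2,(nat_lit 435)),
    (k9,(nat_lit 435)),(k7,(nat_lit 439)),(k3,(nat_lit 495)),(k4,(nat_lit 510)),(k5,(nat_lit 510)),(k0,
    (nat_lit 538))],[(k9,(nat_lit 360)),(k2,(nat_lit 435)),(k7,(nat_lit 439)),(k3,(nat_lit 495)),(k4,(nat_lit 510)),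
    (k5,(nat_lit 510)),(k6,(nat_lit 526)),(k0,(nat_lit 542))],[(k3,(nat_lit 360)),(k2,(nat_lit 364)),(k9,
    (nat_lit 364)),(k7,(nat_lit 368)),(k0,(nat_lit 407)),(k4,(nat_lit 439)),(k5,(nat_lit 439)),(k6,(nat_lit 530))],
    [(k0,(nat_lit 360)),(k5,(nat_lit 360)),(k2,(nat_lit 451)),(k9,(nat_lit 451)),(k3,(nat_lit 511)),(k4,
    (nat_lit 526)),(k7,(nat_lit 530)),(k6,(nat_lit 542))],[(k4,(nat_lit 360)),(k9,(nat_lit 360)),(k7,(nat_lit 364)),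
    (k0,(nat_lit 403)),(k5,(nat_lit 435)),(k6,(nat_lit 451)),(k2,(nat_lit 526)),(k3,(nat_lit 554))],[(k1,
    (nat_lit 360)),(k8,(nat_lit 360))]]
    [[k2,k1,k0,k0,k0],[k2,k0,k0,k1,k0],[k1,k1,k0,k0,k1],[k1,k0,k1,k0,k1],[k1,k0,k0,k1,k1],[k0,k3,k0,k0,k0],[k0,k2,k1,
    k0,k0],[k0,k2,k0,k1,k0],[k0,k1,k1,k1,k0],[k0,k1,k0,k2,k0],[k0,k0,k2,k1,k0],[k0,k0,k1,k2,k0],[k0,k0,k1,k0,k2],[k0,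
    k0,k0,k1,k2]]
    [.ref k2 k1 [(z6,[z3,z4,y1]),(z3,[z6,y4,z1]),(z3,[y3,y1,y2,z9])],.ref k41 k0 [(z1,[y1,z1]),(z1,[z1]),(z3,[z0,z1,
    y1,z3])],.ref k129 k1 [(z3,[z3,z4,y1]),(z3,[z12,y4,z1]),(z1,[y2,y1,y1,z5])],.ref k78 k1 [(z3,[y3,z1,y1,z3]),(z1,
    [y4,z0,y1,z4]),(z3,[z6,y1,z1,y3])],.contra [z3,y2,y1,z3],.ref k2 k1 [(z4,[z1,z4,y1]),(z1,[z1]),(z2,[y1,y2,y1,
    z6])],.ref k2 k1 [(z6,[z3,z7,y1,y3]),(z3,[z6,z2,z1,y6]),(z3,[y3,y4,y2,z12])],.ref k130 k0 [(z3,[y3,y5,z2]),(z3,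
    [z3,z8,y2]),(z3,[z0,z1,y1,z3])],.ref k41 k0 [(z1,[y1,z0,z0,z1]),(z1,[z1,z1,z0,y1]),(z3,[z0,z1,y1,z3])],
    .ref k41 k0 [(z6,[y3,z2,z1]),(z6,[z3,z4,y1]),(z3,[z0,z1,y1,z3])],.ref k132 k1 [(z3,[y3,z5,y2,z6]),(z3,[y12,y8,y1,
    z24]),(z1,[z2,y1,y1,z3])],.ref k135 k1 [(z6,[y3,z7,y1,z3]),(z6,[y3,y1,z1,z3]),(z2,[z1,y1,y1,z3])],
    .ref k78 k1 [(z6,[y3,z1,y1,z3]),(z3,[y6,y2,y1,z6]),(z1,[z1])],.ref k30 k0 [(z1,[z1,y1]),(z1,[y1,z2]),(z3,[z0,z1,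
    y1,z3])]],
    .base (.leafM k0 [k1,k2,k3,k4,k0] [(z1,[y1,z0,z1])] []),
    .base (.leafM k2 [k0,k1,k2,k3,k4] [(z1,[z0,z1])] []),
    .base (.leafM k0 [k4,k0,k1,k2,k3] [(z1,[z1])] []),
    .base (.leafM k2 [k0,k1,k2,k3,k4] [(z4,[y1,z0,y1,z4])] []),
    .base (.leafM k0 [k4,k0,k1,k2,k3] [(z1,[z1])] []),
    .lp k0 [k30,k38,k40,k40,k31] [k10,k10,k2,k10,k5,k5,k0,k10,k10,k9] k0 [[k0,k0,k5,k3,k0,k0,k0,k0,k0,k0],[k0,k0,k0,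
    k0,k0,k0,k0,k0,k0,k0],[k0,k3,k0,k0,k3,k0,k4,k18,k0,k0],[k0,k5,k1,k0,k4,k0,k0,k0,k0,k0],[k0,k0,k0,k0,k0,k0,k0,k0,
    k0,k0],[k0,k0,k4,k3,k0,k0,k1,k0,k0,k0],[k0,k0,k0,k18,k0,k0,k0,k0,k0,k0],[k0,k0,k0,k4,k1,k0,k0,k0,k0,k0],[k0,k0,k0,
    k0,k0,k0,k0,k0,k0,k0],[k0,k0,k0,k0,k0,k0,k0,k0,k0,k0]] k120 k5
    [[(k1,k30),(k8,k30)],[(k0,k30),(k3,k30),(k5,k30),(k7,k30),(k9,k31),(k2,k35),(k4,k35),(k6,k40)],[(k0,k30),(k3,k30),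
    (k7,k30),(k9,k31),(k4,k35),(k5,k38),(k6,k40),(k2,k43)],[(k6,k30),(k0,k35),(k7,k35),(k9,k35),(k3,k43),(k5,k43),(k2,
    k47),(k4,k47)],[(k0,k30),(k7,k31),(k3,k38),(k5,k39),(k2,k43),(k4,k43),(k6,k49),(k9,k54)],[(k0,k35),(k3,k35),(k7,
    k35),(k9,k36),(k4,k40),(k5,k43),(k6,k46),(k2,k47)],[(k0,k30),(k3,k30),(k7,k30),(k9,k30),(k5,k31),(k2,k35),(k4,
    k35),(k6,k40)],[(k2,k30),(k0,k40),(k3,k40),(k7,k40),(k9,k41),(k4,k46),(k5,k49),(k6,k50)],[(k7,k30),(k0,k31),(k3,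
    k31),(k9,k32),(k2,k35),(k4,k36),(k6,k41),(k5,k54)],[(k1,k30),(k8,k30)]]
    [[k2,k1,k0,k0,k0],[k2,k0,k1,k0,k0],[k2,k0,k0,k1,k0],[k1,k1,k0,k0,k1],[k1,k0,k1,k0,k1],[k1,k0,k0,k1,k1],[k0,k2,k0,
    k1,k0],[k0,k1,k1,k1,k0],[k0,k1,k0,k2,k0],[k0,k1,k0,k0,k2],[k0,k0,k1,k2,k0],[k0,k0,k0,k1,k2]]
    [.ref k13 k0 [(z2,[y3,z1,z3]),(z1,[z1,z0,y1]),(z2,[y1,y1,y1,z2])],.ref k132 k1 [(z1,[z3,z2,z3,y3]),(z1,[y2,z1,z5,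
    z2]),(z1,[z1,y4,y6,z6])],.ref k13 k0 [(z2,[y3,z1]),(z1,[z1]),(z2,[y1,y1,y2,z2])],.contra [z1,y1,y2,z1],
    .ref k140 k1 [(z1,[z3,z2,z3,y3]),(z1,[y1,z0,z1,z1]),(z1,[z1,y2,y3,z3])],.contra [z1,y1,y1,z1],.ref k141 k1 [(z2,
    [y1,z1,z2]),(z1,[z1,z0,z1]),(z2,[y1,y3,y4,z6])],.ref k141 k1 [(z1,[y1,z0,z0,z1]),(z1,[z2,z1,z3,y2]),(z1,[y1,y2,y3,
    z4])],.ref k141 k1 [(z2,[y1,z1,z1]),(z1,[z1,z0,z2]),(z2,[y1,y3,y5,z6])],.ref k13 k1 [(z2,[y3,z1,z3]),(z1,[z1]),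
    (z2,[y1,y1,y1,z2])],.ref k141 k1 [(z1,[y1,z0,y1,z1]),(z1,[z2,z1,z5,y2]),(z1,[y1,y2,y4,z4])],.ref k13 k1 [(z2,[y3,
    z1]),(z1,[z1,z0,z1]),(z2,[y1,y1,y2,z2])]],
    .base (.geo z1 k4 [(y3,z5),(z6,y8),(y2,z4),(z2,y2),(z0,z1)] [(z1,[z1]),(z1,[z0,z1]),(z1,[z0,z0,z1]),(z1,[y1,y1,y1,
    z1]),(z1,[])] k9)]

theorem hB5_17_11 : blkB [0, 0, 0, 0, 1] [] sp5 hS5_17 (pcls (n := 5) [0, 0, 0, 0, 1]) hD5_17 162 11 hN5_17_11 = true := by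
  decide +kernel

/-- nodes 144 to 155 -/
noncomputable def hN5_17_12 : List HM :=
  [.base (.geo z7 k0 [(z2,z0),(z6,z0),(z4,z0),(z5,z0),(z4,z0)] [(z1,[z1]),(z1,[z0,z1]),(z1,[z0,z0,z1]),(z1,[z0,z0,z0,
    z1]),(z1,[y1,y1,y1,y1,z7])] k1),
    .base (.leafM k2 [k0,k1,k2,k3,k4] [(z5,[z0,z1,z0,z1])] []),
    .lp k0 [(nat_lit 570),(nat_lit 822),(nat_lit 796),(nat_lit 928),(nat_lit 464)] [k179,k179,k53,k53,k66,k66,k0,k0,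
    (nat_lit 224),(nat_lit 240)] k0 [[k0,k0,k146,k26,k0,k54,k0,k0,k0,k0],[k0,k0,k0,k0,k0,k186,k146,k146,k0,k0],[k0,
    k26,k0,k0,k40,k40,k80,k0,k0,k0],[k0,k146,k120,k0,k0,k0,k0,k0,k0,k0],[k186,k54,k0,k40,k0,k0,k0,k0,k0,k0],[k0,k0,k0,
    k40,k92,k0,k0,k0,k0,k0],[k146,k0,k0,k0,k0,k0,k0,(nat_lit 292),k0,k0],[k146,k0,k0,k80,k0,k0,k0,k0,k0,k0],[k0,k0,k0,
    k0,k0,k0,k0,k0,k0,k0],[k0,k0,k0,k0,k0,k0,k0,k0,k0,k0]] (nat_lit 2400) k6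
    [[(k8,(nat_lit 525)),(k1,(nat_lit 570))],[(k5,(nat_lit 537)),(k0,(nat_lit 570)),(k4,(nat_lit 629)),(k9,
    (nat_lit 655)),(k2,(nat_lit 670)),(k3,(nat_lit 696)),(k6,(nat_lit 895)),(k7,(nat_lit 935))],[(k9,(nat_lit 489)),
    (k4,(nat_lit 623)),(k0,(nat_lit 696)),(k6,(nat_lit 729)),(k3,(nat_lit 822)),(k5,(nat_lit 835)),(k7,(nat_lit 929)),
    (k2,(nat_lit 968))],[(k9,(nat_lit 555)),(k0,(nat_lit 670)),(k4,(nat_lit 769)),(k5,(nat_lit 809)),(k7,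
    (nat_lit 835)),(k6,(nat_lit 875)),(k2,(nat_lit 942)),(k3,(nat_lit 968))],[(k0,(nat_lit 537)),(k9,(nat_lit 622)),
    (k5,(nat_lit 676)),(k2,(nat_lit 809)),(k3,(nat_lit 835)),(k4,(nat_lit 836)),(k7,(nat_lit 902)),(k6,
    (nat_lit 942))],[(k9,(nat_lit 622)),(k3,(nat_lit 623)),(k0,(nat_lit 629)),(k2,(nat_lit 769)),(k5,(nat_lit 836)),
    (k6,(nat_lit 862)),(k7,(nat_lit 862)),(k4,(nat_lit 888))],[(k9,(nat_lit 688)),(k2,(nat_lit 835)),(k7,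
    (nat_lit 836)),(k4,(nat_lit 862)),(k5,(nat_lit 902)),(k6,(nat_lit 928)),(k3,(nat_lit 929)),(k0,(nat_lit 935))],
    [(k6,(nat_lit 636)),(k9,(nat_lit 688)),(k3,(nat_lit 729)),(k4,(nat_lit 862)),(k2,(nat_lit 875)),(k0,
    (nat_lit 895)),(k7,(nat_lit 928)),(k5,(nat_lit 942))],[(k3,(nat_lit 489)),(k2,(nat_lit 555)),(k4,(nat_lit 622)),
    (k5,(nat_lit 622)),(k0,(nat_lit 655)),(k6,(nat_lit 688)),(k7,(nat_lit 688)),(k9,(nat_lit 740))],[(k8,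
    (nat_lit 480)),(k1,(nat_lit 525))]]
    [[k4,k0,k0,k0,k0],[k3,k0,k0,k0,k1],[k2,k1,k0,k0,k0],[k2,k0,k1,k0,k0],[k2,k0,k0,k0,k2],[k1,k1,k0,k0,k1],[k1,k1,k1,
    k0,k1],[k1,k0,k1,k0,k1],[k1,k0,k0,k1,k1],[k0,k1,k2,k0,k0],[k0,k1,k1,k0,k2],[k0,k1,k0,k0,k2],[k0,k0,k1,k0,k2],[k0,
    k0,k0,k1,k2]]
    [.contra [y1,z2,y2,y2,z2],.ref k144 k0 [(z1,[z1,y3]),(z1,[y4,z5,y7,y7,z7]),(z1,[z2,y6,z0,z7]),(z1,[y1,z3,z7])],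
    .ref k8 k0 [(z1,[z1,y2,y1]),(z1,[y4,z5,z1,y3,z3]),(z1,[z2,y4,y2,z3]),(z1,[y1,z2,z4])],.ref k8 k0 [(z2,[z1,y2,z0,
    y1]),(z1,[y2,z1,y3,y1,z3]),(z1,[z1,y2,z0,z2]),(z2,[y1,z2,z6,z1])],.ref k8 k0 [(z2,[z1,y2]),(z1,[y2,z1,y3,y3,z3]),
    (z1,[z1,y2,z0,z3]),(z2,[y1,z2,z6])],.contra [z1,z0,y1],.contra [y1,z0,z0,z0,z1],.ref k145 k0 [(z1,[z1,y1,z0,y1]),
    (z1,[y4,y1,y5,y1,z5]),(z1,[z2,y2,z0,z3]),(z1,[y1,z1,z5,z1])],.contra [z1,z0,z2,z1,y1],.ref k8 k0 [(z1,[z1,z0,y1,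
    y2]),(z1,[y4,y3,z1,z5,z3]),(z1,[z2,z0,y2,y1]),(z1,[y1,z0,z4,z2])],.ref k8 k0 [(z1,[z1,z0,y1,y1]),(z1,[y4,y3,z1,z1,
    z3]),(z1,[z2,z0,y2,z1]),(z1,[y1,z0,z4,z1])],.contra [z1,z0,y1],.contra [z1,z2,z0,y1],.contra [z1,z1,z3,z1,y1]],
    .base (.leafM k2 [k0,k1,k2,k3,k4] [(z5,[y1,z0,y1,z5])] []),
    .base (.leafM k0 [k3,k4,k0,k1,k2] [(z1,[y1,y1,y1,z1])] []),
    .lp k0 [k30,k38,k40,k40,k31] [k10,k10,k2,k10,k5,k5,k0,k10,k10,k9] k0 [[k0,k0,k5,k3,k0,k0,k0,k0,k0,k0],[k0,k0,k0,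
    k0,k0,k0,k0,k0,k0,k0],[k0,k3,k0,k0,k3,k0,k4,k18,k0,k0],[k0,k5,k1,k0,k4,k0,k0,k0,k0,k0],[k0,k0,k0,k0,k0,k0,k0,k0,
    k0,k0],[k0,k0,k4,k3,k0,k0,k1,k0,k0,k0],[k0,k0,k0,k18,k0,k0,k0,k0,k0,k0],[k0,k0,k0,k4,k1,k0,k0,k0,k0,k0],[k0,k0,k0,
    k0,k0,k0,k0,k0,k0,k0],[k0,k0,k0,k0,k0,k0,k0,k0,k0,k0]] k120 k5
    [[(k1,k30),(k8,k30)],[(k0,k30),(k3,k30),(k5,k30),(k7,k30),(k9,k31),(k2,k35),(k4,k35),(k6,k40)],[(k0,k30),(k3,k30),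
    (k7,k30),(k9,k31),(k4,k35),(k5,k38),(k6,k40),(k2,k43)],[(k6,k30),(k0,k35),(k7,k35),(k9,k35),(k3,k43),(k5,k43),(k2,
    k47),(k4,k47)],[(k0,k30),(k7,k31),(k3,k38),(k5,k39),(k2,k43),(k4,k43),(k6,k49),(k9,k54)],[(k0,k35),(k3,k35),(k7,
    k35),(k9,k36),(k4,k40),(k5,k43),(k6,k46),(k2,k47)],[(k0,k30),(k3,k30),(k7,k30),(k9,k30),(k5,k31),(k2,k35),(k4,
    k35),(k6,k40)],[(k2,k30),(k0,k40),(k3,k40),(k7,k40),(k9,k41),(k4,k46),(k5,k49),(k6,k50)],[(k7,k30),(k0,k31),(k3,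
    k31),(k9,k32),(k2,k35),(k4,k36),(k6,k41),(k5,k54)],[(k1,k30),(k8,k30)]]
    [[k2,k1,k0,k0,k0],[k2,k0,k1,k0,k0],[k2,k0,k0,k1,k0],[k1,k1,k0,k0,k1],[k1,k0,k1,k0,k1],[k1,k0,k0,k1,k1],[k0,k2,k0,
    k1,k0],[k0,k1,k1,k1,k0],[k0,k1,k0,k2,k0],[k0,k1,k0,k0,k2],[k0,k0,k1,k2,k0],[k0,k0,k0,k1,k2]]
    [.ref k143 k0 [(z4,[y12,z1,z3]),(z1,[z4,z0,y1]),(z4,[y8,y1,z1,z4])],.ref k80 k1 [(z8,[z12,z5,z3,y12]),(z8,[y4,z1,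
    z7,z4]),(z8,[z4,y5,y3,z12])],.ref k146 k1 [(z2,[z3,y1]),(z4,[y2,z1,z1]),(z4,[z4,y3,y1,z4])],.contra [z2,y1,y1,z2],
    .ref k147 k0 [(z4,[z12,z5,z3,y12]),(z1,[y4,z0,y1,z4]),(z4,[z8,y5,y3,z12])],.contra [z4,y1,z1],.ref k141 k1 [(z4,
    [y2,z1,z1]),(z2,[z1,z0,z1]),(z4,[y4,y3,y1,z12])],.ref k141 k1 [(z1,[y1,z0,z0,z1]),(z4,[z4,z1,z3,y4]),(z4,[y8,y5,
    y3,z20])],.ref k141 k1 [(z12,[y4,z3,z1]),(z3,[z1,z0,z2]),(z12,[y8,y9,y7,z36])],.ref k118 k1 [(z4,[y12,z1,z3]),(z1,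
    [z1]),(z4,[y8,y1,z1,z4])],.ref k141 k1 [(z8,[y4,z1,y1,z4]),(z8,[z4,z1,z7,y4]),(z1,[y1,y1,y1,z4])],
    .ref k148 k0 [(z2,[z3,y1]),(z1,[y2,z1]),(z4,[z4,y3,y1,z4])]],
    .lp k0 [k143,(nat_lit 210),k192,k195,k150] [k45,k38,k8,k8,k17,k17,k0,k31,k38,k38] k0 [[k0,k0,k0,k6,k0,k8,k0,k31,
    k0,k0],[k14,k0,k0,k0,k0,k0,k0,k7,k0,k0],[k0,k6,k0,k16,k8,k0,k0,k0,k0,k0],[k0,k0,k0,k0,k2,k0,k7,k59,k0,k0],[k0,k8,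
    k0,k0,k0,k0,k15,k0,k0,k0],[k0,k0,k2,k8,k0,k0,k0,k0,k0,k0],[k7,k31,k59,k0,k0,k0,k0,k0,k0,k0],[k0,k0,k7,k0,k0,k15,
    k0,k0,k0,k0],[k0,k0,k0,k0,k0,k0,k0,k0,k0,k0],[k0,k0,k0,k0,k0,k0,k0,k0,k0,k0]] (nat_lit 600) k5
    [[(k1,k150),(k8,k150)],[(k0,k150),(k6,k150),(k7,k150),(k9,k150),(k4,k156),(k5,k164),(k2,k167),(k3,k173)],[(k0,
    k173),(k7,k195),(k3,k196),(k4,(nat_lit 201)),(k5,(nat_lit 207)),(k2,(nat_lit 210)),(k6,(nat_lit 211)),(k9,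
    (nat_lit 211))],[(k0,k167),(k7,k179),(k2,k194),(k5,(nat_lit 201)),(k4,(nat_lit 203)),(k3,(nat_lit 210)),(k6,
    (nat_lit 225)),(k9,(nat_lit 239))],[(k6,k150),(k0,k164),(k9,k164),(k7,k176),(k4,(nat_lit 200)),(k2,(nat_lit 201)),
    (k3,(nat_lit 207)),(k5,(nat_lit 208))],[(k0,k156),(k9,k156),(k7,k178),(k4,k192),(k5,(nat_lit 200)),(k3,
    (nat_lit 201)),(k2,(nat_lit 203)),(k6,(nat_lit 209))],[(k0,k150),(k9,k157),(k7,k164),(k5,k176),(k4,k178),(k2,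
    k179),(k3,k195),(k6,(nat_lit 210))],[(k0,k150),(k5,k150),(k9,k188),(k4,(nat_lit 209)),(k7,(nat_lit 210)),(k3,
    (nat_lit 211)),(k2,(nat_lit 225)),(k6,(nat_lit 226))],[(k0,k150),(k9,k150),(k4,k156),(k7,k157),(k5,k164),(k6,
    k188),(k3,(nat_lit 211)),(k2,(nat_lit 239))],[(k1,k150),(k8,k150)]]
    [[k2,k1,k0,k0,k0],[k2,k0,k1,k0,k0],[k2,k0,k0,k1,k0],[k1,k1,k0,k0,k1],[k1,k0,k1,k0,k1],[k1,k0,k0,k1,k1],[k0,k1,k1,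
    k1,k0],[k0,k0,k2,k1,k0],[k0,k0,k1,k2,k0],[k0,k0,k1,k0,k2],[k0,k0,k0,k1,k2]]
    [.ref k19 k1 [(z2,[z1,z1,y1]),(z1,[z0,y1,z1])],.ref k136 k1 [(z1,[z1,z1]),(z1,[y2,z1,z3])],.ref k93 k0 [(z1,[y2,
    z1,z1]),(z1,[z1])],.ref k137 k0 [(z1,[z1]),(z1,[y2,z1,z1])],.ref k138 k0 [(z1,[z2,z1,y1]),(z1,[y1,z0,z1])],
    .contra [z1,y1],.ref k139 k0 [(z1,[y1,z0,z1]),(z1,[z2,z1,y1])],.ref k142 k1 [(z1,[z1,z2]),(z1,[y1,y1,z1])],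
    .ref k149 k0 [(z1,[y2,z1,z3]),(z1,[z2,z1,y1])],.ref k83 k0 [(z1,[z2,z1,y1]),(z1,[y2,z1,z3])],.ref k34 k1 [(z1,[y1,
    z1]),(z1,[z0,y1,z1])]],
    .base (.leafM k2 [k0,k1,k2,k3,k4] [(z5,[y1,z0,y1,z5])] []),
    .base (.spec k0 false k0 [(z1,[z2,z1]),(z1,[y2,y2,y1,z2])]),
    .lp k0 [(nat_lit 240),(nat_lit 368),(nat_lit 292),(nat_lit 302),(nat_lit 234)] [k64,k64,k0,k0,k38,k38,k33,k33,k67,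
    k67] k0 [[k0,k0,k42,k0,k44,k0,k0,k0,k0,k0],[k0,k0,k112,k0,k0,k0,k0,k6,k0,k0],[k0,k0,k0,k0,k0,k0,k96,k0,k0,k0],
    [k112,k42,k0,k0,k2,k0,k0,k0,k0,k0],[k0,k0,k0,k0,k0,k20,k46,k0,k0,k0],[k0,k44,k2,k0,k0,k0,k76,k0,k0,k0],[k6,k0,k0,
    k0,k0,k0,k0,k12,k0,k0],[k0,k0,k0,k96,k76,k46,k0,k0,k0,k0],[k0,k0,k0,k0,k0,k0,k0,k0,k0,k0],[k0,k0,k0,k0,k0,k0,k0,
    k0,k0,k0]] (nat_lit 960) k6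
    [[(k8,(nat_lit 237)),(k1,(nat_lit 240))],[(k5,(nat_lit 224)),(k7,(nat_lit 227)),(k0,(nat_lit 240)),(k9,
    (nat_lit 243)),(k4,(nat_lit 266)),(k6,(nat_lit 271)),(k3,(nat_lit 304)),(k2,(nat_lit 416))],[(k5,(nat_lit 218)),
    (k9,(nat_lit 301)),(k0,(nat_lit 304)),(k6,(nat_lit 329)),(k7,(nat_lit 335)),(k3,(nat_lit 368)),(k4,(nat_lit 374)),
    (k2,(nat_lit 410))],[(k9,(nat_lit 205)),(k5,(nat_lit 330)),(k4,(nat_lit 332)),(k6,(nat_lit 335)),(k7,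
    (nat_lit 335)),(k2,(nat_lit 368)),(k3,(nat_lit 410)),(k0,(nat_lit 416))],[(k3,(nat_lit 218)),(k0,(nat_lit 224)),
    (k9,(nat_lit 263)),(k4,(nat_lit 292)),(k5,(nat_lit 292)),(k7,(nat_lit 295)),(k2,(nat_lit 330)),(k6,
    (nat_lit 393))],[(k9,(nat_lit 217)),(k0,(nat_lit 266)),(k4,(nat_lit 272)),(k5,(nat_lit 292)),(k7,(nat_lit 297)),
    (k2,(nat_lit 332)),(k6,(nat_lit 373)),(k3,(nat_lit 374))],[(k9,k192),(k0,(nat_lit 227)),(k5,(nat_lit 295)),(k4,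
    (nat_lit 297)),(k7,(nat_lit 322)),(k2,(nat_lit 335)),(k3,(nat_lit 335)),(k6,(nat_lit 348))],[(k9,(nat_lit 268)),
    (k0,(nat_lit 271)),(k6,(nat_lit 290)),(k3,(nat_lit 329)),(k2,(nat_lit 335)),(k7,(nat_lit 348)),(k4,(nat_lit 373)),
    (k5,(nat_lit 393))],[(k7,k192),(k2,(nat_lit 205)),(k4,(nat_lit 217)),(k0,(nat_lit 243)),(k9,(nat_lit 246)),(k5,
    (nat_lit 263)),(k6,(nat_lit 268)),(k3,(nat_lit 301))],[(k8,(nat_lit 234)),(k1,(nat_lit 237))]]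
    [[k2,k0,k1,k0,k0],[k2,k0,k0,k1,k0],[k1,k1,k0,k0,k1],[k1,k1,k1,k0,k1],[k1,k0,k1,k0,k1],[k1,k0,k0,k1,k1],[k1,k0,k0,
    k2,k1],[k0,k1,k2,k0,k0],[k0,k1,k1,k1,k0],[k0,k1,k1,k0,k2],[k0,k1,k0,k0,k2],[k0,k0,k3,k0,k0],[k0,k0,k1,k2,k0],[k0,
    k0,k1,k0,k2],[k0,k0,k0,k1,k2],[k0,k0,k0,k2,k2]]
    [.ref k2 k1 [(z6,[z3,z5,z1,y3]),(z3,[y3,z1,z2,z3]),(z3,[z6,y5,y1,z3])],.ref k12 k1 [(z1,[y1,z1]),(z3,[z6,y4,z1]),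
    (z3,[y12,z7,y1,z3])],.ref k117 k1 [(z3,[y3,z2,z1]),(z3,[z6,y2,y1]),(z1,[y4,z1,z1,z1])],.contra [y1,z0,z0,z1],
    .ref k151 k1 [(z3,[z3,z5,z1,y3]),(z1,[y2,z0,z1,z2]),(z3,[z12,y5,y1,z3])],.contra [z3,y1,z1],.ref k151 k1 [(z1,[y1,
    z2]),(z3,[z6,y2,z5]),(z3,[y12,y1,y5,z15])],.ref k2 k1 [(z6,[z3,z8,z1,y6]),(z3,[y3,y2,z2,z6]),(z3,[z6,z1,y1,y3])],
    .ref k12 k1 [(z1,[y1,z0,z0,z1]),(z3,[z6,z2,z1,y6]),(z3,[y12,y5,y1,z15])],.ref k12 k1 [(z2,[z1,z1,z0,y1]),(z3,[y3,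
    y1,z1,z3]),(z3,[z6,z1,y1,y3])],.ref k117 k1 [(z6,[y3,z2,z1]),(z1,[z1]),(z3,[y6,y1,z1,z3])],.ref k2 k1 [(z4,[z1,z5,
    z1,y3]),(z2,[y1,y1,z1,z3]),(z1,[z1])],.ref k12 k1 [(z6,[y3,z1,y1,z3]),(z3,[z3,z1,z2,y3]),(z1,[y2,y1,y1,z3])],
    .ref k88 k1 [(z6,[z3,z5,z1,y3]),(z6,[y3,y1,z1,z3]),(z1,[z1])],.ref k152 k0 [(z1,[z1,y1]),(z1,[y1,z2]),(z3,[z0,y5,
    y1,z3])],.ref k2 k1 [(z2,[y1,z2]),(z1,[z1,z0,z1]),(z1,[y2,y1,y1,z3])]],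
    .base (.leafM k2 [k0,k1,k2,k3,k4] [(z1,[y1,z0,y1,z1])] []),
    .base (.leafM k0 [k1,k2,k3,k4,k0] [(z1,[z0,z1,z1])] [])]

theorem hB5_17_12 : blkB [0, 0, 0, 0, 1] [] sp5 hS5_17 (pcls (n := 5) [0, 0, 0, 0, 1]) hD5_17 162 12 hN5_17_12 = true := by
  decide +kernel

/-- nodes 156 to 161 -/
noncomputable def hN5_17_13 : List HM :=
  [.lp k0 [(nat_lit 1156034),(nat_lit 2312068),(nat_lit 1875984),(nat_lit 2024088),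
    (nat_lit 1493382)] [(nat_lit 592417),(nat_lit 563617),k0,k0,(nat_lit 218042),(nat_lit 218042),(nat_lit 143990),
    (nat_lit 143990),(nat_lit 409343),(nat_lit 409343)] k0 [[k0,k0,k0,k0,(nat_lit 148104),(nat_lit 49368),k0,
    (nat_lit 287980),k0,k0],[(nat_lit 674696),k0,k0,k0,k0,k0,k0,(nat_lit 287980),k0,k0],[k0,k0,k0,(nat_lit 337348),
    (nat_lit 98736),k0,k0,k0,k0,k0],[k0,k0,k0,k0,k0,k0,(nat_lit 49368),(nat_lit 337348),k0,k0],[k0,(nat_lit 49368),k0,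
    k0,k0,(nat_lit 139876),(nat_lit 337348),k0,k0,k0],[k0,(nat_lit 148104),k0,(nat_lit 98736),k0,k0,(nat_lit 197472),
    k0,k0,k0],[(nat_lit 287980),(nat_lit 287980),(nat_lit 337348),k0,k0,k0,k0,k0,k0,k0],[k0,k0,(nat_lit 49368),k0,
    (nat_lit 197472),(nat_lit 337348),k0,k0,k0,k0],[k0,k0,k0,k0,k0,k0,k0,k0,k0,k0],[k0,k0,k0,k0,k0,k0,k0,k0,k0,
    k0]] (nat_lit 5924160) k6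
    [[(k1,(nat_lit 1184834)),(k8,(nat_lit 1339108))],[(k6,(nat_lit 1287681)),(k7,(nat_lit 1427557)),(k4,
    (nat_lit 1452241)),(k5,(nat_lit 1501609)),(k9,(nat_lit 1598288)),(k2,(nat_lit 1719651)),(k3,(nat_lit 1719651)),
    (k0,(nat_lit 1801930))],[(k3,(nat_lit 1637372)),(k0,(nat_lit 1719651)),(k6,(nat_lit 1880098)),(k5,
    (nat_lit 2094026)),(k9,(nat_lit 2190705)),(k7,(nat_lit 2217446)),(k4,(nat_lit 2242130)),(k2,(nat_lit 2312068))],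
    [(k0,(nat_lit 1719651)),(k2,(nat_lit 1974720)),(k7,(nat_lit 2069342)),(k4,(nat_lit 2094026)),(k5,
    (nat_lit 2094026)),(k6,(nat_lit 2217446)),(k9,(nat_lit 2240073)),(k3,(nat_lit 2312068))],[(k0,(nat_lit 1501609)),
    (k6,(nat_lit 1612688)),(k9,(nat_lit 1635315)),(k7,(nat_lit 1950036)),(k4,(nat_lit 1974720)),(k2,
    (nat_lit 2094026)),(k3,(nat_lit 2094026)),(k5,(nat_lit 2213332))],[(k9,(nat_lit 1347335)),(k0,(nat_lit 1452241)),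
    (k4,(nat_lit 1736108)),(k7,(nat_lit 1950036)),(k5,(nat_lit 1974720)),(k2,(nat_lit 2094026)),(k6,
    (nat_lit 2147508)),(k3,(nat_lit 2242130))],[(k0,(nat_lit 1427557)),(k9,(nat_lit 1561263)),(k4,(nat_lit 1950036)),
    (k5,(nat_lit 1950036)),(k2,(nat_lit 2069342)),(k7,(nat_lit 2163964)),(k3,(nat_lit 2217446)),(k6,
    (nat_lit 2361436))],[(k0,(nat_lit 1287681)),(k5,(nat_lit 1612688)),(k9,(nat_lit 1758735)),(k3,(nat_lit 1880098)),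
    (k6,(nat_lit 2024088)),(k4,(nat_lit 2147508)),(k2,(nat_lit 2217446)),(k7,(nat_lit 2361436))],[(k4,
    (nat_lit 1347335)),(k9,(nat_lit 1493382)),(k7,(nat_lit 1561263)),(k0,(nat_lit 1598288)),(k5,(nat_lit 1635315)),
    (k6,(nat_lit 1758735)),(k3,(nat_lit 2190705)),(k2,(nat_lit 2240073))],[(k1,(nat_lit 1339108)),(k8,
    (nat_lit 1493382))]]
    [[k2,k1,k0,k0,k0],[k2,k0,k1,k0,k0],[k2,k0,k1,k1,k0],[k2,k0,k0,k1,k0],[k2,k0,k0,k0,k2],[k1,k1,k0,k0,k1],[k1,k0,k1,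
    k0,k1],[k1,k0,k1,k1,k1],[k1,k0,k0,k1,k1],[k0,k2,k1,k0,k0],[k0,k0,k2,k1,k0],[k0,k0,k1,k0,k2],[k0,k0,k0,k1,k2]]
    [.contra [z1,y2,y1],.contra [z1,y1,z1,y1],.ref k12 k0 [(z1,[z1,z0,z1,y1]),(z1,[y1,y1,y1,z1]),(z1,[z2,z1,z1,y1])],
    .ref k119 k0 [(z1,[y1,y1]),(z1,[z1]),(z1,[y2,y1,y1,z1])],.ref k12 k0 [(z2,[z1]),(z2,[y1,y2]),(z1,[z1,z1,y1,z1])],
    .contra [z1,y1,y1],.ref k154 k1 [(z1,[y1,z1,y1,z1]),(z1,[z0,z0,z1]),(z1,[z2,y1,z1,y1])],.contra [y1,z0,z0,z1],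
    .ref k155 k1 [(z1,[z1,z1]),(z1,[z0,z0,z1]),(z1,[y1,z0,y1,z1])],.ref k12 k0 [(z2,[y1,z1,z1,z1]),(z2,[z1,y3,y1,y1]),
    (z1,[y1,z2,z0,z2])],.ref k102 k1 [(z1,[y1,z1,y2,z2]),(z1,[z0,z0,z1]),(z1,[z2,z1,z1,y1])],.ref k40 k1 [(z2,[y1,z1,
    y1,z1]),(z1,[z0,z0,z1]),(z1,[z1])],.ref k12 k0 [(z1,[z1,z1]),(z1,[y1,y2]),(z1,[z2,z3,y1,z1])]],
    .base (.leafM k0 [k2,k3,k4,k0,k1] [(z2,[y1,y1,z2])] []),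
    .base (.leafM k2 [k0,k1,k2,k3,k4] [(z1,[z0,z1])] []),
    .base (.leafM k0 [k4,k0,k1,k2,k3] [(z1,[z1])] []),
    .lp k0 [k143,(nat_lit 210),k192,k195,k150] [k45,k38,k8,k8,k17,k17,k0,k31,k38,k38] k0 [[k0,k0,k0,k6,k0,k8,k0,k31,
    k0,k0],[k14,k0,k0,k0,k0,k0,k0,k7,k0,k0],[k0,k6,k0,k16,k8,k0,k0,k0,k0,k0],[k0,k0,k0,k0,k2,k0,k7,k59,k0,k0],[k0,k8,
    k0,k0,k0,k0,k15,k0,k0,k0],[k0,k0,k2,k8,k0,k0,k0,k0,k0,k0],[k7,k31,k59,k0,k0,k0,k0,k0,k0,k0],[k0,k0,k7,k0,k0,k15,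
    k0,k0,k0,k0],[k0,k0,k0,k0,k0,k0,k0,k0,k0,k0],[k0,k0,k0,k0,k0,k0,k0,k0,k0,k0]] (nat_lit 600) k5
    [[(k1,k150),(k8,k150)],[(k0,k150),(k6,k150),(k7,k150),(k9,k150),(k4,k156),(k5,k164),(k2,k167),(k3,k173)],[(k0,
    k173),(k7,k195),(k3,k196),(k4,(nat_lit 201)),(k5,(nat_lit 207)),(k2,(nat_lit 210)),(k6,(nat_lit 211)),(k9,
    (nat_lit 211))],[(k0,k167),(k7,k179),(k2,k194),(k5,(nat_lit 201)),(k4,(nat_lit 203)),(k3,(nat_lit 210)),(k6,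
    (nat_lit 225)),(k9,(nat_lit 239))],[(k6,k150),(k0,k164),(k9,k164),(k7,k176),(k4,(nat_lit 200)),(k2,(nat_lit 201)),
    (k3,(nat_lit 207)),(k5,(nat_lit 208))],[(k0,k156),(k9,k156),(k7,k178),(k4,k192),(k5,(nat_lit 200)),(k3,
    (nat_lit 201)),(k2,(nat_lit 203)),(k6,(nat_lit 209))],[(k0,k150),(k9,k157),(k7,k164),(k5,k176),(k4,k178),(k2,
    k179),(k3,k195),(k6,(nat_lit 210))],[(k0,k150),(k5,k150),(k9,k188),(k4,(nat_lit 209)),(k7,(nat_lit 210)),(k3,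
    (nat_lit 211)),(k2,(nat_lit 225)),(k6,(nat_lit 226))],[(k0,k150),(k9,k150),(k4,k156),(k7,k157),(k5,k164),(k6,
    k188),(k3,(nat_lit 211)),(k2,(nat_lit 239))],[(k1,k150),(k8,k150)]]
    [[k2,k1,k0,k0,k0],[k2,k0,k1,k0,k0],[k2,k0,k0,k1,k0],[k1,k1,k0,k0,k1],[k1,k0,k1,k0,k1],[k1,k0,k0,k1,k1],[k0,k1,k1,
    k1,k0],[k0,k0,k2,k1,k0],[k0,k0,k1,k2,k0],[k0,k0,k1,k0,k2],[k0,k0,k0,k1,k2]]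
    [.ref k153 k1 [(z1,[z1,z1,y1]),(z1,[z1,y2,z2])],.ref k56 k1 [(z1,[z1]),(z1,[z0,y1,z2])],.ref k156 k0 [(z1,[y1,z1,
    y1]),(z1,[z1])],.ref k157 k1 [(z1,[z1,z1,y1]),(z1,[z1,y1,z1])],.ref k158 k0 [(z1,[z1,z1,y2]),(z1,[y1,z0,z1])],
    .contra [z1,y1,z1],.ref k159 k1 [(z1,[y1,z0,z1]),(z1,[y1,y1,z2])],.ref k149 k1 [(z1,[y1,z2]),(z1,[y1,y2,z4])],
    .ref k159 k1 [(z2,[y1,z1]),(z2,[y1,y1,z2])],.ref k89 k0 [(z2,[z1,z1,y2]),(z2,[y1,z1])],.ref k35 k0 [(z1,[z1,y1,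
    z1]),(z1,[y1,z2,y2])]],
    .lp k0 [k143,(nat_lit 210),k192,k195,k150] [k45,k38,k8,k8,k17,k17,k0,k31,k38,k38] k0 [[k0,k0,k0,k6,k0,k8,k0,k31,
    k0,k0],[k14,k0,k0,k0,k0,k0,k0,k7,k0,k0],[k0,k6,k0,k16,k8,k0,k0,k0,k0,k0],[k0,k0,k0,k0,k2,k0,k7,k59,k0,k0],[k0,k8,
    k0,k0,k0,k0,k15,k0,k0,k0],[k0,k0,k2,k8,k0,k0,k0,k0,k0,k0],[k7,k31,k59,k0,k0,k0,k0,k0,k0,k0],[k0,k0,k7,k0,k0,k15,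
    k0,k0,k0,k0],[k0,k0,k0,k0,k0,k0,k0,k0,k0,k0],[k0,k0,k0,k0,k0,k0,k0,k0,k0,k0]] (nat_lit 600) k5
    [[(k1,k150),(k8,k150)],[(k0,k150),(k6,k150),(k7,k150),(k9,k150),(k4,k156),(k5,k164),(k2,k167),(k3,k173)],[(k0,
    k173),(k7,k195),(k3,k196),(k4,(nat_lit 201)),(k5,(nat_lit 207)),(k2,(nat_lit 210)),(k6,(nat_lit 211)),(k9,
    (nat_lit 211))],[(k0,k167),(k7,k179),(k2,k194),(k5,(nat_lit 201)),(k4,(nat_lit 203)),(k3,(nat_lit 210)),(k6,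
    (nat_lit 225)),(k9,(nat_lit 239))],[(k6,k150),(k0,k164),(k9,k164),(k7,k176),(k4,(nat_lit 200)),(k2,(nat_lit 201)),
    (k3,(nat_lit 207)),(k5,(nat_lit 208))],[(k0,k156),(k9,k156),(k7,k178),(k4,k192),(k5,(nat_lit 200)),(k3,
    (nat_lit 201)),(k2,(nat_lit 203)),(k6,(nat_lit 209))],[(k0,k150),(k9,k157),(k7,k164),(k5,k176),(k4,k178),(k2,
    k179),(k3,k195),(k6,(nat_lit 210))],[(k0,k150),(k5,k150),(k9,k188),(k4,(nat_lit 209)),(k7,(nat_lit 210)),(k3,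
    (nat_lit 211)),(k2,(nat_lit 225)),(k6,(nat_lit 226))],[(k0,k150),(k9,k150),(k4,k156),(k7,k157),(k5,k164),(k6,
    k188),(k3,(nat_lit 211)),(k2,(nat_lit 239))],[(k1,k150),(k8,k150)]]
    [[k2,k1,k0,k0,k0],[k2,k0,k1,k0,k0],[k2,k0,k0,k1,k0],[k1,k1,k0,k0,k1],[k1,k0,k1,k0,k1],[k1,k0,k0,k1,k1],[k0,k1,k1,
    k1,k0],[k0,k0,k2,k1,k0],[k0,k0,k1,k2,k0],[k0,k0,k1,k0,k2],[k0,k0,k0,k1,k2]]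
    [.ref k38 k1 [(z1,[z1,y1])],.ref k90 k1 [(z1,[z1])],.ref k125 k1 [(z1,[z1])],.ref k126 k0 [(z1,[z1])],
    .ref k127 k1 [(z1,[z1])],.ref k126 k1 [(z1,[z1])],.ref k128 k1 [(z1,[y1,z1])],.ref k150 k0 [(z1,[y1,z1])],
    .ref k160 k0 [(z1,[y1,z2])],.ref k90 k0 [(z1,[z1])],.ref k38 k0 [(z1,[z1,y1])]]]

theorem hB5_17_13 : blkB [0, 0, 0, 0, 1] [] sp5 hS5_17 (pcls (n := 5) [0, 0, 0, 0, 1]) hD5_17 162 13 hN5_17_13 = true := by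
  decide +kernel

end Pool.Agent.Lib_MP_fa6e45
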