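import Pool.Agent.Lib_MP_fa6e45.HK

/-!
MP_fa6e45_co, stage 4: certificates (captain, generated by a program).
-/

namespace Pool.Agent.Lib_MP_fa6e45

/-- nodes 0 to 11 -/
noncomputable def hN5_23_0 : List HM :=
  [.base (.leafM k0 [k1,k2,k3,k4,k0] [(z2,[z0,z1,z1])] []),
    .base (.leafM k0 [k3,k4,k0,k1,k2] [(z3,[y1,y1,y1,z0,z3])] []),
    .base (.leafM k4 [k3,k4,k0,k1,k2] [(z2,[y1,y2,y2,y1,z6]),(z1,[z0,z1])] []),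
    .lp k0 [(nat_lit 1170),(nat_lit 780),(nat_lit 780),(nat_lit 1200),(nat_lit 624)] [k15,k15,(nat_lit 210),
    (nat_lit 210),(nat_lit 210),(nat_lit 210),k0,k0,(nat_lit 288),(nat_lit 288)] k0 [[k0,k0,k0,k0,k0,k0,k0,k0,k0,k0],
    [k0,k0,k0,k0,k0,k0,k0,k0,k0,k0],[k0,k0,k0,k0,k0,k0,k0,k0,k0,k0],[k0,k0,k0,k0,k0,k0,k0,k0,k0,k0],[k0,k0,k0,k0,k0,
    k0,k0,k0,k0,k0],[k0,k0,k0,k0,k0,k0,k0,k0,k0,k0],[k0,k0,k0,k0,k0,k0,k0,k0,k0,k0],[k0,k0,k0,k0,k0,k0,k0,k0,k130,k0],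
    [k0,k0,k0,k0,k0,k0,k0,k0,k0,k0],[k0,k0,k0,k0,k0,k0,k130,k0,k0,k0]] (nat_lit 3120) k6
    [[(k9,(nat_lit 767)),(k8,(nat_lit 897)),(k1,(nat_lit 1170)),(k6,(nat_lit 1185))],[(k2,(nat_lit 975)),(k3,
    (nat_lit 975)),(k4,(nat_lit 975)),(k5,(nat_lit 975)),(k0,(nat_lit 1170)),(k7,(nat_lit 1185))],[(k2,(nat_lit 780)),
    (k3,(nat_lit 780)),(k4,(nat_lit 780)),(k5,(nat_lit 780)),(k0,(nat_lit 975)),(k7,(nat_lit 990))],[(k2,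
    (nat_lit 780)),(k3,(nat_lit 780)),(k4,(nat_lit 780)),(k5,(nat_lit 780)),(k0,(nat_lit 975)),(k7,(nat_lit 990))],
    [(k2,(nat_lit 780)),(k3,(nat_lit 780)),(k4,(nat_lit 780)),(k5,(nat_lit 780)),(k0,(nat_lit 975)),(k7,
    (nat_lit 990))],[(k2,(nat_lit 780)),(k3,(nat_lit 780)),(k4,(nat_lit 780)),(k5,(nat_lit 780)),(k0,(nat_lit 975)),
    (k7,(nat_lit 990))],[(k2,(nat_lit 990)),(k3,(nat_lit 990)),(k4,(nat_lit 990)),(k5,(nat_lit 990)),(k0,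
    (nat_lit 1185)),(k7,(nat_lit 1200))],[(k9,(nat_lit 912)),(k8,(nat_lit 1042)),(k1,(nat_lit 1185)),(k6,
    (nat_lit 1200))],[(k8,(nat_lit 624)),(k9,(nat_lit 624)),(k1,(nat_lit 767)),(k6,(nat_lit 912))],[(k8,
    (nat_lit 624)),(k9,(nat_lit 624)),(k1,(nat_lit 897)),(k6,(nat_lit 1042))]]
    [[k2,k0,k0,k0,k1],[k1,k0,k0,k1,k1],[k0,k3,k0,k0,k0],[k0,k2,k1,k0,k0],[k0,k1,k2,k0,k0],[k0,k0,k3,k0,k0],[k0,k0,k0,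
    k0,k3],[k0,k0,k0,k0,k4]]
    [.ref k0 k0 [(z1,[z1,z1]),(z1,[y1,z1,z2]),(z1,[y1,z1,z0,z2]),(z1,[z1,y3,y4,y4,z4])],.ref k0 k0 [(z1,[z1,z2,z1,z1,
    y1]),(z1,[y1,z0,z1,y1,z1]),(z1,[y1,z0,y1,z1,z1]),(z1,[z1,y2,y3,y3,z3])],.ref k1 k0 [(z2,[y1,z3,z3]),(z1,[z1]),(z1,
    [z1,z0,y3,z3]),(z2,[y1,y3,y3,y6,z6])],.ref k1 k0 [(z2,[y1,z3,z2,z1]),(z1,[z1,z0,z1,y1]),(z1,[z1,z0,y2,z2]),(z2,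
    [y1,y3,y4,y5,z6])],.ref k1 k0 [(z2,[y1,z3,z1,z2]),(z1,[z1,z0,z2,y2]),(z1,[z1,z0,y1,z1]),(z2,[y1,y3,y5,y4,z6])],
    .ref k1 k0 [(z2,[y1,z3,z0,z3]),(z1,[z1,z0,z3,y3]),(z1,[z1]),(z2,[y1,y3,y6,y3,z6])],.ref k2 k0 [(z1,[z1,z3]),(z1,
    [y1,z0,z3]),(z1,[y1,z0,z0,z3]),(z1,[z1,y3,y6,y6,z6])],.ref k0 k0 [(z2,[z1,z4]),(z2,[y1,z0,z4]),(z2,[y1,z0,z0,z4]),
    (z2,[z1,y4,y8,y8,z8])]],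
    .base (.leafM k5 [k3,k4,k0,k1,k2] [(z2,[y1,y2,y1,z4]),(z1,[z0,z1])] []),
    .base (.leafM k0 [k1,k2,k3,k4,k0] [(z1,[z0,z1,z1])] []),
    .base (.leafM k0 [k4,k0,k1,k2,k3] [(z3,[z0,y1,y1,z3])] []),
    .base (.spec k3 true k3 [(z1,[z0,z0,z1]),(z1,[z0,z1])]),
    .base (.leafM k0 [k3,k4,k0,k1,k2] [(z2,[y1,y2,y1,z2])] []),
    .base (.leafM k4 [k3,k4,k0,k1,k2] [(z2,[y1,y2,y1,z6]),(z1,[z0,z1])] []),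
    .lp k0 [(nat_lit 964),(nat_lit 720),(nat_lit 952),(nat_lit 1102),(nat_lit 576)] [k69,k69,k191,k191,k75,k75,k0,k0,
    (nat_lit 263),(nat_lit 263)] k0 [[k0,k0,k0,k0,k0,k0,k0,k0,k0,k0],[k0,k0,(nat_lit 232),k0,k0,k0,k0,k0,k0,k0],[k0,
    k0,k0,k0,k24,k0,k0,k0,k0,k0],[(nat_lit 232),k0,k0,k0,k0,k0,k0,k0,k0,k0],[k0,k0,k0,k0,k0,k0,k0,k0,k0,k0],[k0,k0,k0,
    k24,k0,k0,k0,k0,k0,k0],[k0,k0,k0,k0,k0,k0,k0,k0,k0,k0],[k0,k0,k0,k0,k0,k0,k0,k0,k100,k0],[k0,k0,k0,k0,k0,k0,k0,k0,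
    k0,k0],[k0,k0,k0,k0,k0,k0,k100,k0,k0,k0]] (nat_lit 2880) k6
    [[(k9,(nat_lit 670)),(k8,(nat_lit 770)),(k1,(nat_lit 964)),(k6,(nat_lit 1033))],[(k3,(nat_lit 842)),(k4,
    (nat_lit 958)),(k5,(nat_lit 958)),(k0,(nat_lit 964)),(k7,(nat_lit 1033)),(k2,(nat_lit 1074))],[(k5,(nat_lit 604)),
    (k2,(nat_lit 720)),(k3,(nat_lit 720)),(k4,(nat_lit 836)),(k0,(nat_lit 842)),(k7,(nat_lit 911))],[(k2,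
    (nat_lit 720)),(k3,(nat_lit 720)),(k4,(nat_lit 836)),(k5,(nat_lit 836)),(k7,(nat_lit 887)),(k0,(nat_lit 1074))],
    [(k3,(nat_lit 604)),(k2,(nat_lit 836)),(k5,(nat_lit 952)),(k0,(nat_lit 958)),(k4,(nat_lit 976)),(k7,
    (nat_lit 1027))],[(k2,(nat_lit 836)),(k3,(nat_lit 836)),(k4,(nat_lit 952)),(k0,(nat_lit 958)),(k5,(nat_lit 976)),
    (k7,(nat_lit 1027))],[(k2,(nat_lit 887)),(k3,(nat_lit 911)),(k4,(nat_lit 1027)),(k5,(nat_lit 1027)),(k0,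
    (nat_lit 1033)),(k7,(nat_lit 1102))],[(k9,(nat_lit 839)),(k8,(nat_lit 939)),(k1,(nat_lit 1033)),(k6,
    (nat_lit 1102))],[(k8,(nat_lit 576)),(k9,(nat_lit 576)),(k1,(nat_lit 670)),(k6,(nat_lit 839))],[(k8,
    (nat_lit 576)),(k9,(nat_lit 576)),(k1,(nat_lit 770)),(k6,(nat_lit 939))]]
    [[k1,k1,k0,k1,k0],[k2,k0,k0,k0,k1],[k1,k0,k0,k1,k1],[k0,k3,k0,k0,k0],[k0,k2,k1,k0,k0],[k0,k1,k2,k0,k0],[k0,k0,k0,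
    k0,k3],[k0,k0,k0,k0,k4]]
    [.ref k3 k0 [(z1,[z0,z1]),(z1,[z0,z0,z1]),(z1,[y1,z0,z0,z1])],.ref k4 k0 [(z1,[z1,z1]),(z1,[y1,z1,z2]),(z1,[y1,y1,
    y4,z4])],.ref k5 k0 [(z1,[z0,z1]),(z1,[z0,z0,z1]),(z1,[y1,z0,y1,z1])],.ref k6 k0 [(z2,[y1,z3,z3]),(z1,[z1]),(z2,
    [z1,y3,y9,z6])],.ref k7 k0 [(z1,[z0,z1]),(z1,[z0,z0,z1]),(z1,[z1,z0,y2])],.ref k8 k0 [(z1,[z0,z1]),(z1,[z0,z0,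
    z1]),(z1,[z1,z0,y1])],.ref k9 k0 [(z1,[z1,z3]),(z1,[y1,z0,z3]),(z1,[y1,y3,y6,z6])],.ref k4 k0 [(z2,[z1,z4]),(z2,
    [y1,z0,z4]),(z2,[y1,y4,y8,z8])]],
    .base (.leafM k0 [k0,k1,k2,k3,k4] [(z1,[z1,z1])] [])]

theorem hB5_23_0 : blkB [0, 0, 0, 1, 1] [] sp5 hS5_23 (pcls (n := 5) [0, 0, 0, 1, 1]) hD5_23 141 0 hN5_23_0 = true := by
  decide +kernel

/-- nodes 12 to 23 -/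
noncomputable def hN5_23_1 : List HM :=
  [.base (.leafM k0 [k1,k2,k3,k4,k0] [(z2,[z0,z1,z1])] []),
    .base (.leafM k4 [k1,k2,k3,k4,k0] [(z1,[z0,z0,z1]),(z1,[y1,y1,y1,z3])] []),
    .base (.leafM k4 [k3,k4,k0,k1,k2] [(z1,[y1,y1,y1,z3]),(z1,[z0,z1])] []),
    .lp k0 [k48,k28,k32,k46,k24] [k0,k0,k10,k10,k8,k8,k1,k1,k12,k12] k0 [[k0,k0,k0,k0,k4,k0,k0,k0,k0,k0],[k0,k0,k0,k0,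
    k0,k0,k0,k0,k0,k0],[k0,k0,k0,k0,k0,k0,k0,k0,k0,k0],[k0,k0,k0,k0,k4,k0,k0,k0,k0,k0],[k0,k0,k0,k0,k0,k4,k0,k0,k0,
    k0],[k0,k4,k4,k0,k0,k0,k0,k0,k0,k0],[k0,k0,k0,k0,k0,k0,k0,k0,k0,k0],[k0,k0,k0,k0,k0,k0,k0,k0,k0,k0],[k0,k0,k0,k0,
    k0,k0,k0,k0,k0,k0],[k0,k0,k0,k0,k0,k0,k0,k0,k0,k0]] k120 k6
    [[(k8,k36),(k9,k36),(k6,k47),(k1,k48)],[(k2,k38),(k3,k38),(k4,k40),(k5,k40),(k7,k43),(k0,k48)],[(k2,k28),(k3,k28),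
    (k5,k30),(k4,k34),(k7,k37),(k0,k38)],[(k2,k28),(k3,k28),(k5,k30),(k4,k34),(k7,k37),(k0,k38)],[(k2,k30),(k3,k30),
    (k4,k32),(k5,k32),(k7,k35),(k0,k40)],[(k4,k28),(k5,k32),(k2,k34),(k3,k34),(k7,k39),(k0,k40)],[(k5,k35),(k2,k37),
    (k3,k37),(k4,k39),(k0,k43),(k7,k50)],[(k8,k35),(k9,k35),(k6,k46),(k1,k47)],[(k8,k24),(k9,k24),(k6,k35),(k1,k36)],
    [(k8,k24),(k9,k24),(k6,k35),(k1,k36)]]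
    [[k1,k0,k0,k1,k1],[k0,k3,k0,k0,k0],[k0,k4,k0,k0,k0],[k0,k2,k1,k0,k0],[k0,k2,k2,k0,k0],[k0,k1,k2,k0,k0],[k0,k0,k3,
    k0,k0],[k0,k0,k0,k0,k3],[k0,k0,k0,k0,k4]]
    [.ref k12 k0 [(z1,[z1,z1]),(z1,[y1,z1,z2]),(z1,[y1,y1,y2,z2])],.ref k13 k0 [(z1,[y1,z3,z3]),(z1,[z1]),(z1,[z1,y3,
    y6,z3])],.ref k12 k0 [(z2,[y1,z4,z4]),(z2,[z1]),(z2,[z1,y4,y8,z4])],.ref k13 k0 [(z1,[y1,z2,z1,z1]),(z1,[z1,z1,z2,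
    y1]),(z1,[z1,y2,y4,z2])],.ref k12 k0 [(z2,[y1,z2,z0,z2]),(z2,[z1,z2,z4,y2]),(z2,[z1,y2,y4,z2])],.ref k13 k0 [(z1,
    [y1,z1,y1,z2]),(z1,[z1,z2,z4,y2]),(z1,[z1,y1,y2,z1])],.ref k13 k0 [(z1,[y1,z0,y3,z3]),(z1,[z1,z3,z6,y3]),(z1,
    [z1])],.ref k14 k0 [(z1,[z1,z3]),(z1,[y1,z0,z3]),(z1,[y1,y3,y3,z3])],.ref k12 k0 [(z2,[z1,z4]),(z2,[y1,z0,z4]),
    (z2,[y1,y4,y4,z4])]],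
    .base (.leafM k4 [k1,k2,k3,k4,k0] [(z1,[z0,z0,z1]),(z2,[y3,y2,y2,y1,z6])] []),
    .lp k0 [(nat_lit 1170),(nat_lit 780),(nat_lit 780),(nat_lit 1200),(nat_lit 624)] [k15,k15,(nat_lit 210),
    (nat_lit 210),(nat_lit 210),(nat_lit 210),k0,k0,(nat_lit 288),(nat_lit 288)] k0 [[k0,k0,k0,k0,k0,k0,k0,k0,k0,k0],
    [k0,k0,k0,k0,k0,k0,k0,k0,k0,k0],[k0,k0,k0,k0,k0,k0,k0,k0,k0,k0],[k0,k0,k0,k0,k0,k0,k0,k0,k0,k0],[k0,k0,k0,k0,k0,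
    k0,k0,k0,k0,k0],[k0,k0,k0,k0,k0,k0,k0,k0,k0,k0],[k0,k0,k0,k0,k0,k0,k0,k0,k0,k0],[k0,k0,k0,k0,k0,k0,k0,k0,k130,k0],
    [k0,k0,k0,k0,k0,k0,k0,k0,k0,k0],[k0,k0,k0,k0,k0,k0,k130,k0,k0,k0]] (nat_lit 3120) k6
    [[(k9,(nat_lit 767)),(k8,(nat_lit 897)),(k1,(nat_lit 1170)),(k6,(nat_lit 1185))],[(k2,(nat_lit 975)),(k3,
    (nat_lit 975)),(k4,(nat_lit 975)),(k5,(nat_lit 975)),(k0,(nat_lit 1170)),(k7,(nat_lit 1185))],[(k2,(nat_lit 780)),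
    (k3,(nat_lit 780)),(k4,(nat_lit 780)),(k5,(nat_lit 780)),(k0,(nat_lit 975)),(k7,(nat_lit 990))],[(k2,
    (nat_lit 780)),(k3,(nat_lit 780)),(k4,(nat_lit 780)),(k5,(nat_lit 780)),(k0,(nat_lit 975)),(k7,(nat_lit 990))],
    [(k2,(nat_lit 780)),(k3,(nat_lit 780)),(k4,(nat_lit 780)),(k5,(nat_lit 780)),(k0,(nat_lit 975)),(k7,
    (nat_lit 990))],[(k2,(nat_lit 780)),(k3,(nat_lit 780)),(k4,(nat_lit 780)),(k5,(nat_lit 780)),(k0,(nat_lit 975)),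
    (k7,(nat_lit 990))],[(k2,(nat_lit 990)),(k3,(nat_lit 990)),(k4,(nat_lit 990)),(k5,(nat_lit 990)),(k0,
    (nat_lit 1185)),(k7,(nat_lit 1200))],[(k9,(nat_lit 912)),(k8,(nat_lit 1042)),(k1,(nat_lit 1185)),(k6,
    (nat_lit 1200))],[(k8,(nat_lit 624)),(k9,(nat_lit 624)),(k1,(nat_lit 767)),(k6,(nat_lit 912))],[(k8,
    (nat_lit 624)),(k9,(nat_lit 624)),(k1,(nat_lit 897)),(k6,(nat_lit 1042))]]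
    [[k2,k0,k0,k0,k1],[k1,k0,k0,k1,k1],[k0,k3,k0,k0,k0],[k0,k2,k1,k0,k0],[k0,k1,k2,k0,k0],[k0,k0,k3,k0,k0],[k0,k0,k0,
    k0,k3],[k0,k0,k0,k0,k4]]
    [.ref k0 k0 [(z2,[z3,z1]),(z2,[y1,z1,z4]),(z2,[y1,z1,z0,z4]),(z2,[y1,y3,y8,y8,z8])],.ref k0 k0 [(z1,[z3,z2,z3,z3,
    y3]),(z1,[y1,z0,z1,y1,z1]),(z1,[y1,z0,y1,z1,z1]),(z1,[y1,y2,y5,y5,z5])],.ref k16 k0 [(z1,[y1,z1,z3]),(z1,[z1]),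
    (z1,[z1,z0,y3,z3]),(z1,[z1,y3,y9,y6,z6])],.ref k16 k0 [(z1,[y1,z1,z2,z1]),(z1,[z1,z0,z1,y1]),(z1,[z1,z0,y2,z2]),
    (z1,[z1,y3,y8,y7,z6])],.ref k16 k0 [(z1,[y1,z1,z1,z2]),(z1,[z1,z0,z2,y2]),(z1,[z1,z0,y1,z1]),(z1,[z1,y3,y7,y8,
    z6])],.ref k16 k0 [(z1,[y1,z1,z0,z3]),(z1,[z1,z0,z3,y3]),(z1,[z1]),(z1,[z1,y3,y6,y9,z6])],.contra [z1,z1],
    .ref k0 k0 [(z2,[z3,z4]),(z2,[y1,z0,z4]),(z2,[y1,z0,z0,z4]),(z2,[y1,y4,y8,y8,z8])]],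
    .base (.leafM k0 [k1,k2,k3,k4,k0] [(z1,[z0,z1,z1])] []),
    .base (.leafM k6 [k3,k4,k0,k1,k2] [(z2,[y1,y2,y1,z6]),(z1,[z0,z1])] []),
    .base (.spec k3 true k3 [(z1,[z0,z0,z1]),(z1,[z0,z1])]),
    .base (.leafM k0 [k0,k1,k2,k3,k4] [(z3,[z1,z1])] []),
    .lp k0 [(nat_lit 676),(nat_lit 434),(nat_lit 702),(nat_lit 676),(nat_lit 384)] [k13,k13,k151,k117,k0,k0,k13,k13,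
    k159,k159] k0 [[k0,k0,k0,k82,k82,k134,k0,k0,k0,k0],[k84,k0,k0,k0,k0,k0,k0,k0,k0,k0],[k0,k82,k0,k0,k0,k0,k0,k0,k0,
    k0],[k0,k0,k0,k0,k0,k0,k0,k0,k0,k0],[k0,k134,k0,k0,k0,k0,k0,k0,k0,k0],[k0,k82,k0,k0,k0,k0,k0,k0,k0,k0],[k0,k0,k0,
    k0,k0,k0,k0,k0,k0,k100],[k0,k0,k0,k0,k0,k0,k0,k0,k0,k0],[k0,k0,k0,k0,k0,k0,k0,k100,k0,k0],[k0,k0,k0,k0,k0,k0,k0,
    k0,k0,k0]] (nat_lit 1920) k6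
    [[(k8,(nat_lit 530)),(k9,(nat_lit 630)),(k1,(nat_lit 676)),(k6,(nat_lit 676))],[(k2,(nat_lit 456)),(k4,
    (nat_lit 555)),(k3,(nat_lit 572)),(k7,(nat_lit 594)),(k5,(nat_lit 689)),(k0,(nat_lit 760))],[(k3,(nat_lit 384)),
    (k2,(nat_lit 434)),(k0,(nat_lit 572)),(k4,(nat_lit 667)),(k5,(nat_lit 667)),(k7,(nat_lit 706))],[(k2,
    (nat_lit 400)),(k3,(nat_lit 434)),(k0,(nat_lit 456)),(k7,(nat_lit 538)),(k4,(nat_lit 551)),(k5,(nat_lit 551))],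
    [(k2,(nat_lit 551)),(k3,(nat_lit 667)),(k0,(nat_lit 689)),(k7,(nat_lit 689)),(k4,(nat_lit 702)),(k5,
    (nat_lit 702))],[(k2,(nat_lit 551)),(k0,(nat_lit 555)),(k3,(nat_lit 667)),(k7,(nat_lit 689)),(k4,(nat_lit 702)),
    (k5,(nat_lit 702))],[(k2,(nat_lit 538)),(k0,(nat_lit 594)),(k7,(nat_lit 676)),(k4,(nat_lit 689)),(k5,
    (nat_lit 689)),(k3,(nat_lit 706))],[(k8,(nat_lit 430)),(k9,(nat_lit 530)),(k1,(nat_lit 676)),(k6,(nat_lit 676))],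
    [(k8,(nat_lit 384)),(k9,(nat_lit 384)),(k6,(nat_lit 530)),(k1,(nat_lit 630))],[(k8,(nat_lit 384)),(k9,
    (nat_lit 384)),(k6,(nat_lit 430)),(k1,(nat_lit 530))]]
    [[k2,k1,k0,k0,k0],[k1,k1,k0,k1,k0],[k1,k0,k0,k1,k1],[k0,k3,k0,k0,k0],[k0,k4,k0,k0,k0],[k0,k2,k1,k0,k0],[k0,k0,k0,
    k2,k1],[k0,k0,k0,k0,k3],[k0,k0,k0,k0,k4]]
    [.ref k4 k0 [(z1,[z1,z1,y1]),(z1,[z1,y1,z1]),(z1,[y1,y1,y3,z4])],.ref k17 k1 [(z1,[z2,y1,y2]),(z1,[y1,z0,z0,z1]),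
    (z1,[z0,z0,z1])],.ref k18 k1 [(z1,[z2,y1]),(z1,[y1,z0,y1,z1]),(z1,[z0,z0,z1])],.ref k19 k0 [(z1,[z1,z3,y3]),(z1,
    [z1]),(z1,[y1,y3,y3,z6])],.ref k4 k0 [(z2,[z1,z4,y4]),(z2,[z1]),(z2,[y1,y4,y4,z8])],.ref k20 k0 [(z1,[z0,z1]),(z1,
    [z0,z0,z1]),(z1,[z1,z0,y2])],.ref k18 k1 [(z1,[z1]),(z2,[y1,y1,y2,z2]),(z1,[z0,z0,z1])],.ref k21 k0 [(z2,[y1,z3]),
    (z1,[y1,z0,z3]),(z2,[z1,y3,y6,z6])],.ref k4 k0 [(z2,[y1,z4]),(z2,[y1,z0,z4]),(z2,[z1,y4,y8,z8])]],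
    .base (.leafM k4 [k3,k4,k0,k1,k2] [(z2,[y3,y2,y2,y1,z6]),(z1,[z0,z1])] [])]

theorem hB5_23_1 : blkB [0, 0, 0, 1, 1] [] sp5 hS5_23 (pcls (n := 5) [0, 0, 0, 1, 1]) hD5_23 141 1 hN5_23_1 = true := by
  decide +kernel

/-- nodes 24 to 35 -/
noncomputable def hN5_23_2 : List HM :=
  [.lp k0 [(nat_lit 1200),(nat_lit 780),(nat_lit 780),(nat_lit 1170),(nat_lit 624)] [k0,k0,(nat_lit 210),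
    (nat_lit 210),(nat_lit 210),(nat_lit 210),k15,k15,(nat_lit 288),(nat_lit 288)] k0 [[k0,k0,k0,k0,k0,k0,k0,k0,k0,
    k0],[k0,k0,k0,k0,k0,k0,k0,k0,k0,k0],[k0,k0,k0,k0,k0,k0,k0,k0,k0,k0],[k0,k0,k0,k0,k0,k0,k0,k0,k0,k0],[k0,k0,k0,k0,
    k0,k0,k0,k0,k0,k0],[k0,k0,k0,k0,k0,k0,k0,k0,k0,k0],[k0,k0,k0,k0,k0,k0,k0,k0,k0,k130],[k0,k0,k0,k0,k0,k0,k0,k0,k0,
    k0],[k0,k0,k0,k0,k0,k0,k0,k130,k0,k0],[k0,k0,k0,k0,k0,k0,k0,k0,k0,k0]] (nat_lit 3120) k6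
    [[(k8,(nat_lit 912)),(k9,(nat_lit 1042)),(k6,(nat_lit 1185)),(k1,(nat_lit 1200))],[(k2,(nat_lit 990)),(k3,
    (nat_lit 990)),(k4,(nat_lit 990)),(k5,(nat_lit 990)),(k7,(nat_lit 1185)),(k0,(nat_lit 1200))],[(k2,(nat_lit 780)),
    (k3,(nat_lit 780)),(k4,(nat_lit 780)),(k5,(nat_lit 780)),(k7,(nat_lit 975)),(k0,(nat_lit 990))],[(k2,
    (nat_lit 780)),(k3,(nat_lit 780)),(k4,(nat_lit 780)),(k5,(nat_lit 780)),(k7,(nat_lit 975)),(k0,(nat_lit 990))],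
    [(k2,(nat_lit 780)),(k3,(nat_lit 780)),(k4,(nat_lit 780)),(k5,(nat_lit 780)),(k7,(nat_lit 975)),(k0,
    (nat_lit 990))],[(k2,(nat_lit 780)),(k3,(nat_lit 780)),(k4,(nat_lit 780)),(k5,(nat_lit 780)),(k7,(nat_lit 975)),
    (k0,(nat_lit 990))],[(k2,(nat_lit 975)),(k3,(nat_lit 975)),(k4,(nat_lit 975)),(k5,(nat_lit 975)),(k7,
    (nat_lit 1170)),(k0,(nat_lit 1185))],[(k8,(nat_lit 767)),(k9,(nat_lit 897)),(k6,(nat_lit 1170)),(k1,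
    (nat_lit 1185))],[(k8,(nat_lit 624)),(k9,(nat_lit 624)),(k6,(nat_lit 897)),(k1,(nat_lit 1042))],[(k8,
    (nat_lit 624)),(k9,(nat_lit 624)),(k6,(nat_lit 767)),(k1,(nat_lit 912))]]
    [[k1,k0,k0,k1,k1],[k0,k3,k0,k0,k0],[k0,k2,k1,k0,k0],[k0,k1,k2,k0,k0],[k0,k0,k3,k0,k0],[k0,k0,k0,k2,k1],[k0,k0,k0,
    k0,k3],[k0,k0,k0,k0,k4]]
    [.contra [z1,z1,z1,z1,y1],.ref k16 k1 [(z1,[z0,y1,y2,y2,z2]),(z1,[z1,z0,y3,z3]),(z1,[z1]),(z1,[y2,z3,z6])],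
    .ref k16 k1 [(z1,[z0,y1,y2,y2,z2]),(z1,[z1,z0,y2,z2]),(z1,[z1,z0,z1,y1]),(z1,[y2,z3,z4,z2])],.ref k16 k1 [(z1,[z0,
    y1,y2,y2,z2]),(z1,[z1,z0,y1,z1]),(z1,[z1,z0,z2,y2]),(z1,[y2,z3,z2,z4])],.ref k16 k1 [(z1,[z0,y1,y2,y2,z2]),(z1,
    [z1]),(z1,[z1,z0,z3,y3]),(z1,[y2,z3,z0,z6])],.contra [z1,z1,z2,z2,y2],.ref k23 k1 [(z1,[z0,y1,y2,y2,z2]),(z1,[y1,
    z0,z0,z3]),(z1,[y1,z0,z3]),(z1,[z2,z3])],.contra [z1,z2]],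
    .base (.leafM k0 [k1,k2,k3,k4,k0] [(z1,[z0,z1,z1])] []),
    .base (.leafM k6 [k3,k4,k0,k1,k2] [(z2,[y3,y2,y3,z6]),(z1,[z0,z1])] []),
    .base (.leafM k0 [k0,k1,k2,k3,k4] [(z2,[z1,z1])] []),
    .base (.spec k3 true k3 [(z1,[z0,z0,z1]),(z1,[z0,z1])]),
    .base (.spec k16 false k2 [(z1,[y1,y2,y1,z2]),(z1,[z0,z1,z1])]),
    .base (.leafM k4 [k3,k4,k0,k1,k2] [(z2,[y3,y2,y3,z6]),(z1,[z0,z1])] []),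
    .lp k0 [k20,k16,k24,k28,k18] [k4,k4,k6,k6,k2,k2,k0,k0,k5,k5] k0 [[k0,k0,k0,k0,k0,k0,k0,k0,k0,k0],[k0,k0,k0,k0,k0,
    k0,k0,k0,k0,k0],[k0,k0,k0,k0,k0,k0,k0,k0,k0,k0],[k0,k0,k0,k0,k0,k0,k0,k0,k0,k0],[k0,k0,k0,k0,k0,k0,k0,k0,k0,k0],
    [k0,k0,k0,k0,k0,k0,k0,k0,k0,k0],[k0,k0,k0,k0,k0,k0,k0,k0,k0,k0],[k0,k0,k0,k0,k0,k0,k0,k0,k0,k0],[k0,k0,k0,k0,k0,
    k0,k0,k0,k0,k0],[k0,k0,k0,k0,k0,k0,k0,k0,k0,k0]] k72 k6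
    [[(k8,k19),(k9,k19),(k1,k20),(k6,k24)],[(k2,k18),(k3,k18),(k0,k20),(k4,k22),(k5,k22),(k7,k24)],[(k2,k16),(k3,k16),
    (k0,k18),(k4,k20),(k5,k20),(k7,k22)],[(k2,k16),(k3,k16),(k0,k18),(k4,k20),(k5,k20),(k7,k22)],[(k2,k20),(k3,k20),
    (k0,k22),(k4,k24),(k5,k24),(k7,k26)],[(k2,k20),(k3,k20),(k0,k22),(k4,k24),(k5,k24),(k7,k26)],[(k2,k22),(k3,k22),
    (k0,k24),(k4,k26),(k5,k26),(k7,k28)],[(k8,k23),(k9,k23),(k1,k24),(k6,k28)],[(k8,k18),(k9,k18),(k1,k19),(k6,k23)],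
    [(k8,k18),(k9,k18),(k1,k19),(k6,k23)]]
    [[k2,k1,k0,k0,k0],[k2,k0,k1,k0,k0],[k1,k1,k0,k1,k0],[k2,k0,k0,k0,k1],[k1,k0,k0,k1,k1],[k0,k3,k0,k0,k0],[k0,k4,k0,
    k0,k0],[k0,k2,k1,k0,k0],[k0,k1,k2,k0,k0],[k0,k0,k0,k0,k3]]
    [.contra [z1,y1],.contra [z1,y1],.ref k24 k1 [(z1,[z2,y1,y2]),(z1,[y1,z0,z0,z1]),(z1,[z0,z0,z1])],.contra [z1,y1],
    .ref k25 k0 [(z1,[z0,z1]),(z1,[z0,z0,z1]),(z1,[y1,z0,y1,z1])],.ref k26 k0 [(z1,[z0,z1]),(z1,[z1]),(z1,[z0,y1,y2,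
    z2])],.ref k27 k0 [(z1,[z0,z1]),(z2,[z1]),(z1,[z0,y1,y2,z2])],.ref k28 k0 [(z1,[z0,z1]),(z1,[z0,z0,z1]),(z1,[z1,
    z0,y2])],.ref k29 k0 [(z1,[z0,z1]),(z1,[z0,z0,z1]),(z1,[z1,z0,y1])],.ref k30 k0 [(z1,[z0,z1]),(z1,[y1,z0,z3]),(z1,
    [z0,y1,y2,z2])]],
    .base (.leafM k0 [k1,k2,k3,k4,k0] [(z1,[y1,z0,z1])] []),
    .base (.leafM k6 [k3,k4,k0,k1,k2] [(z1,[y3,y1,z3]),(z1,[z0,z1])] []),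
    .base (.spec k3 false k0 [(z1,[z0,z1]),(z1,[y1,y1,z1])]),
    .base (.leafM k4 [k3,k4,k0,k1,k2] [(z1,[y3,y1,z3]),(z1,[z0,z1])] [])]

theorem hB5_23_2 : blkB [0, 0, 0, 1, 1] [] sp5 hS5_23 (pcls (n := 5) [0, 0, 0, 1, 1]) hD5_23 141 2 hN5_23_2 = true := by
  decide +kernel

/-- nodes 36 to 47 -/
noncomputable def hN5_23_3 : List HM :=
  [.base (.leafM k5 [k3,k4,k0,k1,k2] [(z1,[y2,y1,z2]),(z1,[z0,z1])] []),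
    .lp k0 [(nat_lit 1680),(nat_lit 1380),(nat_lit 1886),(nat_lit 2208),(nat_lit 1104)] [(nat_lit 264),(nat_lit 264),
    (nat_lit 414),(nat_lit 414),k161,k161,k0,k0,(nat_lit 552),(nat_lit 552)] k0 [[k0,k0,k0,(nat_lit 368),
    (nat_lit 368),k0,k0,k0,k0,k0],[k0,k0,k0,k0,(nat_lit 276),k0,k0,k0,k0,k0],[k0,(nat_lit 368),k0,k0,k0,k0,k0,k0,k0,
    k0],[k0,k0,k0,k0,k0,k0,k0,k0,k0,k0],[k0,k0,k0,k0,k0,k0,k0,k0,k0,k0],[(nat_lit 276),(nat_lit 368),k0,k0,k0,k0,k0,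
    k0,k0,k0],[k0,k0,k0,k0,k0,k0,k0,k0,k0,k0],[k0,k0,k0,k0,k0,k0,k0,k0,k0,k0],[k0,k0,k0,k0,k0,k0,k0,k0,k0,k0],[k0,k0,
    k0,k0,k0,k0,k0,k0,k0,k0]] (nat_lit 5520) k6
    [[(k8,(nat_lit 1392)),(k9,(nat_lit 1392)),(k1,(nat_lit 1680)),(k6,(nat_lit 1944))],[(k2,(nat_lit 1162)),(k3,
    (nat_lit 1530)),(k7,(nat_lit 1576)),(k0,(nat_lit 1680)),(k5,(nat_lit 1783)),(k4,(nat_lit 2059))],[(k2,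
    (nat_lit 1380)),(k3,(nat_lit 1380)),(k7,(nat_lit 1518)),(k0,(nat_lit 1530)),(k4,(nat_lit 2001)),(k5,
    (nat_lit 2001))],[(k0,(nat_lit 1162)),(k2,(nat_lit 1380)),(k3,(nat_lit 1380)),(k4,(nat_lit 1633)),(k5,
    (nat_lit 1633)),(k7,(nat_lit 1794))],[(k2,(nat_lit 1633)),(k0,(nat_lit 1783)),(k4,(nat_lit 1886)),(k5,
    (nat_lit 1886)),(k3,(nat_lit 2001)),(k7,(nat_lit 2047))],[(k2,(nat_lit 1633)),(k4,(nat_lit 1886)),(k5,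
    (nat_lit 1886)),(k3,(nat_lit 2001)),(k7,(nat_lit 2047)),(k0,(nat_lit 2059))],[(k3,(nat_lit 1518)),(k0,
    (nat_lit 1576)),(k2,(nat_lit 1794)),(k4,(nat_lit 2047)),(k5,(nat_lit 2047)),(k7,(nat_lit 2208))],[(k8,
    (nat_lit 1656)),(k9,(nat_lit 1656)),(k1,(nat_lit 1944)),(k6,(nat_lit 2208))],[(k8,(nat_lit 1104)),(k9,
    (nat_lit 1104)),(k1,(nat_lit 1392)),(k6,(nat_lit 1656))],[(k8,(nat_lit 1104)),(k9,(nat_lit 1104)),(k1,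
    (nat_lit 1392)),(k6,(nat_lit 1656))]]
    [[k2,k1,k0,k0,k0],[k2,k2,k0,k0,k0],[k1,k1,k0,k1,k0],[k2,k0,k0,k0,k1],[k2,k1,k0,k0,k1],[k1,k0,k0,k1,k1],[k0,k3,k0,
    k0,k0],[k0,k2,k1,k0,k0],[k0,k0,k0,k0,k3],[k0,k0,k0,k0,k4]]
    [.ref k10 k0 [(z1,[z1,z1,y1]),(z1,[z0,y1,z1])],.ref k11 k0 [(z2,[z1,z2,y2]),(z1,[z0,y1,z1])],.ref k15 k0 [(z1,[z1,
    z1,y1]),(z1,[z0,y1,z1])],.ref k22 k0 [(z1,[z1]),(z1,[z0,y1,z1])],.ref k31 k0 [(z1,[z1,z1,y1]),(z1,[z0,y1,z1])],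
    .ref k32 k1 [(z1,[z1]),(z1,[y1,z1])],.ref k33 k0 [(z1,[z0,z1]),(z1,[z1])],.ref k34 k1 [(z1,[y1,y1,z2]),(z1,[z1,z2,
    y2])],.ref k35 k0 [(z1,[z0,z1]),(z1,[y1,y3,z3])],.ref k36 k0 [(z1,[z0,z1]),(z2,[y1,y4,z4])]],
    .base (.spec k16 false k2 [(z1,[y1,y2,y2,z2]),(z1,[z0,z1,z2])]),
    .base (.leafM k0 [k2,k3,k4,k0,k1] [(z1,[y1,y1,z0,z1])] []),
    .base (.leafM k0 [k0,k1,k2,k3,k4] [(z3,[z1,z1])] []),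
    .lp k0 [k66,k88,k66,k60,k78] [k14,k8,k0,k0,k14,k8,k14,k14,k5,k5] k0 [[k0,k0,k4,k0,k0,k0,k0,k0,k0,k0],[k0,k0,k20,
    k0,k0,k0,k0,k0,k0,k0],[k0,k0,k0,k28,k14,k0,k0,k0,k0,k0],[k20,k4,k0,k0,k0,k0,k0,k0,k0,k0],[k0,k0,k0,k0,k0,k0,k0,k0,
    k0,k0],[k0,k0,k0,k14,k0,k0,k0,k0,k0,k0],[k0,k0,k0,k0,k0,k0,k0,k0,k6,k0],[k0,k0,k0,k0,k0,k0,k0,k0,k0,k0],[k0,k0,k0,
    k0,k0,k0,k0,k0,k0,k0],[k0,k0,k0,k0,k0,k0,k0,k6,k0,k0]] (nat_lit 240) k5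
    [[(k6,k60),(k1,k72),(k8,k75),(k9,k75)],[(k0,k60),(k4,k60),(k7,k60),(k5,k62),(k3,k74),(k2,k94)],[(k5,k60),(k0,k74),
    (k4,k74),(k7,k74),(k3,k88),(k2,k92)],[(k2,k60),(k7,k60),(k4,k74),(k5,k80),(k3,k92),(k0,k94)],[(k3,k60),(k0,k62),
    (k7,k66),(k2,k80),(k4,k80),(k5,k100)],[(k0,k60),(k4,k60),(k7,k60),(k2,k74),(k3,k74),(k5,k80)],[(k0,k60),(k2,k60),
    (k4,k60),(k7,k60),(k5,k66),(k3,k74)],[(k1,k60),(k6,k60),(k8,k69),(k9,k69)],[(k6,k69),(k1,k75),(k9,k78),(k8,k84)],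
    [(k6,k69),(k1,k75),(k8,k78),(k9,k84)]]
    [[k2,k0,k1,k0,k0],[k1,k1,k0,k1,k0],[k1,k0,k1,k1,k0],[k2,k0,k0,k0,k1],[k1,k0,k0,k1,k1],[k0,k2,k1,k0,k0],[k0,k1,k2,
    k0,k0],[k0,k1,k0,k2,k0],[k0,k0,k1,k2,k0],[k0,k0,k0,k2,k1]]
    [.ref k40 k1 [(z2,[y3,z0,y2,y1,z6]),(z1,[z0,z0,z0,z1]),(z1,[y3,z1,z1,z1]),(z2,[z3,z0,z0,y1])],.contra [z3,z0,z1,
    z1,y3],.contra [z3,z0,z1,z1,y3],.ref k40 k1 [(z4,[y3,y1,y4,y4,z12]),(z1,[z0,z0,z0,z1]),(z2,[y3,z1,z2]),(z4,[z3,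
    z1])],.contra [z3,z0,z1,z1,y3],.ref k40 k1 [(z4,[z3,y2,y6,y5,z12]),(z1,[z0,z0,z0,z1]),(z2,[z3,z0,z0,y1]),(z4,[y3,
    z2,z2,z1])],.ref k40 k1 [(z2,[z3,y1,y3,y4,z6]),(z1,[z0,z0,z0,z1]),(z1,[z3,z0,z0,y2]),(z2,[y3,z1,z1,z2])],
    .contra [z3,z1,z3,z2,y6],.contra [y3,y1,y2,y1,z6],.contra [z3,z1,z2,z4,y6]],
    .lp k0 [k40,k40,k30,k30,k38] [k6,k4,k10,k0,k10,k10,k10,k10,k6,k6] k0 [[k0,k0,k0,k0,k0,k0,k0,k0,k0,k0],[k0,k0,k0,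
    k0,k10,k0,k0,k0,k0,k0],[k0,k0,k0,k0,k0,k0,k0,k0,k0,k0],[k0,k0,k0,k0,k0,k0,k0,k0,k0,k0],[k0,k0,k0,k0,k0,k0,k0,k0,
    k0,k0],[k10,k0,k0,k0,k0,k0,k0,k0,k0,k0],[k0,k0,k0,k0,k0,k0,k0,k0,k6,k2],[k0,k0,k0,k0,k0,k0,k0,k0,k0,k0],[k0,k0,k0,
    k0,k0,k0,k0,k2,k0,k0],[k0,k0,k0,k0,k0,k0,k0,k6,k0,k0]] k120 k5
    [[(k6,k30),(k8,k40),(k1,k42),(k9,k42)],[(k2,k34),(k5,k34),(k7,k34),(k0,k38),(k3,k44),(k4,k44)],[(k7,k30),(k2,k40),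
    (k4,k40),(k5,k40),(k0,k44),(k3,k50)],[(k2,k30),(k4,k30),(k5,k30),(k7,k30),(k0,k34),(k3,k40)],[(k2,k30),(k4,k30),
    (k5,k30),(k7,k30),(k0,k34),(k3,k40)],[(k2,k30),(k4,k30),(k5,k30),(k7,k30),(k3,k40),(k0,k44)],[(k2,k30),(k3,k30),
    (k4,k30),(k5,k30),(k7,k30),(k0,k34)],[(k1,k30),(k6,k30),(k8,k32),(k9,k34)],[(k6,k34),(k9,k38),(k1,k42),(k8,k44)],
    [(k6,k32),(k8,k38),(k1,k40),(k9,k44)]]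
    [[k1,k1,k0,k1,k0],[k1,k0,k1,k1,k0],[k1,k0,k0,k1,k1],[k0,k2,k1,k0,k0],[k0,k1,k2,k0,k0],[k0,k1,k0,k2,k0],[k0,k0,k3,
    k0,k0],[k0,k0,k1,k2,k0],[k0,k0,k0,k2,k1]]
    [.contra [z1,y1],.contra [z1,y1],.contra [z1,y1],.ref k38 k1 [(z1,[z1,z1,y1,y1]),(z1,[y1,y2,z0,z2]),(z1,[z1,z1,z0,
    y1])],.ref k39 k0 [(z2,[z1,z4,z1,y2]),(z1,[y1,y2,z0,z2]),(z1,[z1,z1,z0,y1])],.contra [z1,z0,z1],.ref k41 k0 [(z1,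
    [z1,z9,z3,y3]),(z1,[y1,y3,z0,z3]),(z1,[z1])],.contra [y1,y1,y1,z1],.contra [y1,y1,y1,z1]],
    .base (.leafM k0 [k0,k1,k2,k3,k4] [(z3,[z1,z1])] []),
    .lp k0 [k84,k120,k84,k126,k84] [k21,k21,k3,k3,k21,k21,k0,k0,k21,k21] k0 [[k0,k0,k0,k0,k14,k0,k0,k0,k0,k0],[k0,k0,
    k0,k0,k0,k0,k0,k0,k0,k0],[k0,k0,k0,k0,k0,k0,k0,k0,k0,k0],[k0,k0,k0,k0,k14,k0,k0,k0,k0,k0],[k0,k0,k0,k0,k0,k0,k0,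
    k0,k0,k0],[k0,k14,k14,k0,k0,k0,k0,k0,k0,k0],[k0,k0,k0,k0,k0,k0,k0,k0,k0,k0],[k0,k0,k0,k0,k0,k0,k0,k0,k0,k0],[k0,
    k0,k0,k0,k0,k0,k0,k0,k0,k0],[k0,k0,k0,k0,k0,k0,k0,k0,k0,k0]] (nat_lit 336) k5
    [[(k1,k84),(k8,k84),(k9,k84),(k6,k105)],[(k0,k84),(k4,k84),(k5,k84),(k7,k91),(k2,k102),(k3,k102)],[(k0,k102),(k5,
    k102),(k4,k116),(k2,k120),(k3,k120),(k7,k123)],[(k0,k102),(k5,k102),(k4,k116),(k2,k120),(k3,k120),(k7,k123)],[(k0,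
    k84),(k4,k84),(k5,k84),(k7,k91),(k2,k102),(k3,k102)],[(k0,k84),(k4,k84),(k5,k84),(k7,k105),(k2,k116),(k3,k116)],
    [(k0,k91),(k5,k91),(k4,k105),(k2,k123),(k3,k123),(k7,k126)],[(k1,k105),(k8,k105),(k9,k105),(k6,k126)],[(k1,k84),
    (k8,k84),(k9,k84),(k6,k105)],[(k1,k84),(k8,k84),(k9,k84),(k6,k105)]]
    [[k2,k1,k0,k0,k0],[k2,k0,k1,k0,k0],[k1,k1,k0,k1,k0],[k1,k0,k1,k1,k0],[k2,k0,k0,k0,k1],[k1,k0,k0,k1,k1],[k0,k1,k2,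
    k0,k0],[k0,k0,k3,k0,k0],[k0,k0,k1,k2,k0],[k0,k0,k0,k0,k3]]
    [.contra [z1,y1,z1],.contra [z1,y2,y2,y3,z2],.contra [z1,z0,z1,z1,y1],.contra [z1,z0,z1,z1,y1],.contra [z1,y1,z2],
    .contra [z1,z0,z2,z1,y1],.ref k40 k0 [(z2,[y1,z3,z1,z2]),(z1,[y1,z0,z4,z2]),(z1,[z2,z0,y2,y1]),(z2,[z1,y3,y7,y8,
    z6])],.ref k40 k0 [(z4,[y1,z6,z0,z3]),(z2,[y1,z0,z6,z3]),(z1,[z1]),(z4,[z1,y6,y12,y15,z12])],.ref k40 k0 [(z2,[y1,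
    z2,y2,y1,z2]),(z1,[y1,y1,z1,y1,z2]),(z1,[z2,z2,z4,z5,y4]),(z2,[z1,y2,y4,y5,z4])],.ref k40 k0 [(z2,[z1,z3]),(z1,
    [z1,z0,z3]),(z1,[y2,z0,z0,z3]),(z2,[y1,y3,y6,y6,z6])]],
    .base (.leafM k0 [k3,k4,k0,k1,k2] [(z1,[y1,y1,y1,z1])] []),
    .lp k0 [k30,k30,k40,k40,k38] [k10,k10,k10,k10,k0,k10,k3,k7,k6,k6] k0 [[k0,k0,k0,k0,k0,k10,k0,k0,k0,k0],[k0,k0,k0,
    k0,k0,k0,k0,k0,k0,k0],[k0,k0,k0,k0,k0,k0,k0,k0,k0,k0],[k0,k0,k0,k0,k0,k0,k0,k0,k0,k0],[k0,k10,k0,k0,k0,k0,k0,k0,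
    k0,k0],[k0,k0,k0,k0,k0,k0,k0,k0,k0,k0],[k0,k0,k0,k0,k0,k0,k0,k0,k6,k0],[k0,k0,k0,k0,k0,k0,k0,k0,k2,k0],[k0,k0,k0,
    k0,k0,k0,k0,k0,k0,k0],[k0,k0,k0,k0,k0,k0,k2,k6,k0,k0]] k120 k5
    [[(k1,k30),(k6,k31),(k9,k32),(k8,k34)],[(k0,k30),(k2,k30),(k3,k30),(k4,k30),(k5,k30),(k7,k33)],[(k0,k30),(k2,k30),
    (k3,k30),(k5,k30),(k4,k40),(k7,k43)],[(k0,k30),(k2,k30),(k3,k30),(k5,k30),(k7,k33),(k4,k40)],[(k0,k30),(k2,k30),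
    (k3,k30),(k5,k30),(k7,k33),(k4,k40)],[(k0,k30),(k2,k40),(k3,k40),(k5,k40),(k7,k43),(k4,k50)],[(k0,k33),(k2,k33),
    (k5,k33),(k7,k36),(k3,k43),(k4,k43)],[(k1,k31),(k9,k41),(k8,k43),(k6,k44)],[(k1,k32),(k9,k38),(k6,k41),(k8,k44)],
    [(k1,k34),(k8,k38),(k6,k43),(k9,k44)]]
    [[k2,k1,k0,k0,k0],[k2,k0,k1,k0,k0],[k1,k1,k0,k1,k0],[k1,k0,k1,k1,k0],[k2,k0,k0,k0,k1],[k1,k0,k0,k1,k1],[k0,k3,k0,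
    k0,k0],[k0,k2,k1,k0,k0],[k0,k1,k2,k0,k0]]
    [.contra [z1,y2,z1],.contra [y1,z1,y1,z1],.contra [z1,y1],.contra [z1,y1],.contra [y1,z1,y1,z1],.contra [z1,y1],
    .ref k43 k0 [(z2,[z1,z6,y3]),(z1,[z1]),(z1,[y1,y3,z0,z3])],.ref k44 k0 [(z1,[z1,z3,y1,y1]),(z1,[z1,z1,z0,y1]),(z1,
    [y1,y2,z0,z2])],.ref k45 k1 [(z2,[z1,z2,z1,y2]),(z1,[z1,z1,z0,y1]),(z1,[y1,y2,z0,z2])]],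
    .base (.leafM k0 [k4,k0,k1,k2,k3] [(z3,[z0,y1,y1,z3])] [])]

theorem hB5_23_3 : blkB [0, 0, 0, 1, 1] [] sp5 hS5_23 (pcls (n := 5) [0, 0, 0, 1, 1]) hD5_23 141 3 hN5_23_3 = true := by
  decide +kernel

/-- nodes 48 to 59 -/
noncomputable def hN5_23_4 : List HM :=
  [.lp k0 [k26,k40,k40,k42,k30] [k8,k8,k1,k1,k1,k1,k0,k0,k6,k6] k0 [[k0,k0,k0,k2,k0,k0,k0,k0,k0,k0],[k0,k0,k0,k0,k2,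
    k0,k0,k0,k0,k0],[k0,k2,k0,k0,k2,k0,k0,k0,k0,k0],[k0,k0,k0,k0,k0,k0,k0,k0,k0,k0],[k0,k0,k0,k0,k0,k2,k0,k0,k0,k0],
    [k2,k0,k0,k2,k0,k0,k0,k0,k0,k0],[k0,k0,k0,k0,k0,k0,k0,k0,k0,k0],[k0,k0,k0,k0,k0,k0,k0,k0,k4,k0],[k0,k0,k0,k0,k0,
    k0,k0,k0,k0,k0],[k0,k0,k0,k0,k0,k0,k4,k0,k0,k0]] k120 k6
    [[(k9,k24),(k1,k26),(k8,k28),(k6,k34)],[(k0,k26),(k2,k31),(k3,k33),(k5,k33),(k7,k34),(k4,k35)],[(k0,k33),(k7,k39),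
    (k2,k40),(k3,k40),(k4,k40),(k5,k42)],[(k0,k31),(k7,k39),(k2,k40),(k3,k40),(k4,k40),(k5,k40)],[(k0,k33),(k2,k40),
    (k5,k40),(k7,k41),(k3,k42),(k4,k42)],[(k0,k35),(k4,k38),(k2,k40),(k3,k40),(k7,k41),(k5,k42)],[(k0,k34),(k2,k39),
    (k3,k39),(k4,k41),(k5,k41),(k7,k44)],[(k1,k34),(k9,k36),(k8,k40),(k6,k42)],[(k1,k24),(k8,k30),(k9,k30),(k6,k36)],
    [(k1,k28),(k8,k30),(k9,k30),(k6,k40)]]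
    [[k4,k0,k0,k0,k0],[k2,k1,k0,k0,k0],[k2,k0,k1,k0,k0],[k1,k1,k0,k1,k0],[k1,k0,k1,k1,k0],[k2,k0,k0,k0,k1],[k2,k1,k0,
    k0,k1],[k1,k0,k0,k1,k1],[k2,k0,k0,k0,k2],[k0,k0,k0,k0,k3]]
    [.contra [z1,y2],.contra [y1,z1,z1],.contra [y1,z1,z1],.contra [z1,z0,z1,y1],.contra [z1,z0,z1,y1],.contra [z1,
    y1],.ref k38 k0 [(z1,[z0,z1]),(z1,[z1,y1]),(z1,[y1,z1,z1])],.contra [z1,z0,z1,y1],.ref k47 k0 [(z2,[z1,z2]),(z1,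
    [y1,z1,z3]),(z2,[y1,y2,y6,z6])],.ref k47 k0 [(z2,[z1,z3]),(z1,[y1,z0,z3]),(z2,[y1,y3,y6,z6])]],
    .lp k0 [k60,k78,k78,k60,k80] [k10,k10,k1,k1,k1,k1,k10,k10,k0,k0] k0 [[k0,k0,k6,k6,k0,k0,k0,k0,k0,k0],[k0,k0,k0,k0,
    k0,k0,k0,k0,k0,k0],[k0,k6,k0,k0,k6,k0,k0,k0,k0,k0],[k0,k6,k0,k0,k6,k0,k0,k0,k0,k0],[k0,k0,k0,k0,k0,k0,k0,k0,k0,
    k0],[k0,k0,k6,k6,k0,k0,k0,k0,k0,k0],[k0,k0,k0,k0,k0,k0,k0,k0,k0,k0],[k0,k0,k0,k0,k0,k0,k0,k0,k0,k0],[k0,k0,k0,k0,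
    k0,k0,k0,k0,k0,k0],[k0,k0,k0,k0,k0,k0,k0,k0,k0,k0]] (nat_lit 240) k5
    [[(k1,k60),(k6,k60),(k8,k70),(k9,k70)],[(k0,k60),(k7,k60),(k2,k63),(k5,k63),(k3,k69),(k4,k69)],[(k0,k69),(k7,k69),
    (k3,k78),(k4,k78),(k2,k84),(k5,k84)],[(k0,k63),(k7,k63),(k2,k78),(k5,k78),(k3,k84),(k4,k84)],[(k0,k63),(k7,k63),
    (k2,k78),(k5,k78),(k3,k84),(k4,k84)],[(k0,k69),(k7,k69),(k3,k78),(k4,k78),(k2,k84),(k5,k84)],[(k0,k60),(k7,k60),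
    (k2,k63),(k5,k63),(k3,k69),(k4,k69)],[(k1,k60),(k6,k60),(k8,k70),(k9,k70)],[(k1,k70),(k6,k70),(k8,k80),(k9,k80)],
    [(k1,k70),(k6,k70),(k8,k80),(k9,k80)]]
    [[k2,k1,k0,k0,k0],[k2,k0,k1,k0,k0],[k1,k1,k0,k1,k0],[k1,k0,k1,k1,k0],[k2,k0,k0,k0,k1],[k1,k0,k0,k1,k1],[k0,k1,k0,
    k2,k0],[k0,k0,k1,k2,k0],[k0,k0,k0,k2,k1]]
    [.ref k40 k1 [(z2,[y3,z6,z1]),(z1,[z0,z0,z0,z1]),(z1,[z0,z0,z1]),(z2,[z3,z0,y1])],.ref k40 k1 [(z2,[y3,z6,z0,z1]),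
    (z1,[z0,z0,z0,z1]),(z1,[z0,z0,z1]),(z2,[z3,z0,z0,y1])],.contra [z1,y1],.contra [z3,y3,z1,y1],.ref k40 k1 [(z2,[y3,
    z3,y1,y1,z3]),(z1,[z0,z0,z0,z1]),(z1,[z0,z0,z1]),(z2,[z3,z3,z1,z1,y3])],.contra [z3,z0,z2,z1,y3],.ref k40 k0 [(z2,
    [y3,z6,z1]),(z1,[z0,z0,z1]),(z1,[z0,z0,z0,z1]),(z2,[z3,z0,y1])],.ref k40 k0 [(z2,[y3,z6,z0,z1]),(z1,[z0,z0,z1]),
    (z1,[z0,z0,z0,z1]),(z2,[z3,z0,z0,y1])],.ref k40 k0 [(z2,[y3,z3,y1,y1,z3]),(z1,[z0,z0,z1]),(z1,[z0,z0,z0,z1]),(z2,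
    [z3,z3,z1,z1,y3])]],
    .lp k0 [k114,k152,k152,k144,k114] [k19,k19,k0,k0,k0,k0,k4,k4,k19,k19] k0 [[k0,k0,k0,k0,k0,k19,k0,k0,k0,k0],[k0,k0,
    k0,k0,k0,k0,k0,k0,k0,k0],[k0,k0,k0,k0,k0,k0,k0,k0,k0,k0],[k0,k0,k0,k0,k0,k0,k0,k0,k0,k0],[k0,k19,k0,k0,k0,k0,k0,
    k0,k0,k0],[k0,k0,k0,k0,k0,k0,k0,k0,k0,k0],[k0,k0,k0,k0,k0,k0,k0,k0,k0,k0],[k0,k0,k0,k0,k0,k0,k0,k0,k0,k0],[k0,k0,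
    k0,k0,k0,k0,k0,k0,k0,k0],[k0,k0,k0,k0,k0,k0,k0,k0,k0,k0]] (nat_lit 456) k5
    [[(k1,k114),(k8,k114),(k9,k114),(k6,k129)],[(k0,k114),(k4,k114),(k7,k129),(k2,k133),(k3,k133),(k5,k133)],[(k0,
    k133),(k2,k152),(k3,k152),(k4,k152),(k5,k152),(k7,k167)],[(k0,k133),(k7,k148),(k2,k152),(k3,k152),(k4,k152),(k5,
    k152)],[(k0,k133),(k7,k148),(k2,k152),(k3,k152),(k4,k152),(k5,k152)],[(k0,k114),(k7,k148),(k2,k152),(k3,k152),(k4,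
    k152),(k5,k152)],[(k0,k129),(k7,k144),(k2,k148),(k4,k148),(k5,k148),(k3,k167)],[(k1,k129),(k8,k129),(k9,k129),(k6,
    k144)],[(k1,k114),(k8,k114),(k9,k114),(k6,k129)],[(k1,k114),(k8,k114),(k9,k114),(k6,k129)]]
    [[k2,k1,k0,k0,k0],[k2,k0,k1,k0,k0],[k1,k1,k0,k1,k0],[k1,k0,k1,k1,k0],[k2,k0,k0,k0,k1],[k1,k0,k0,k1,k1],[k0,k0,k1,
    k2,k0],[k0,k0,k0,k2,k1],[k0,k0,k0,k0,k3]]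
    [.ref k38 k1 [(z1,[y1,z2,z1]),(z1,[z0,y1,y1,z1]),(z1,[z0,z0,z1])],.ref k45 k0 [(z2,[z1,z1,z1,y1]),(z1,[z0,z0,z1]),
    (z1,[z0,y1,y1,z1])],.contra [z1,y1],.contra [z1,y1],.ref k38 k1 [(z1,[y1,z2]),(z1,[z0,y1,y1,z1]),(z1,[z0,z0,z1])],
    .contra [z1,y1,z1],.ref k39 k1 [(z2,[z1,z1,z1,y1]),(z1,[z0,y1,y1,z1]),(z1,[z0,z0,z1])],.ref k44 k0 [(z1,[y1,z2]),
    (z1,[z0,z0,z1]),(z1,[z0,y1,y1,z1])],.ref k49 k0 [(z1,[z0,z1]),(z1,[z1,z0,z3]),(z1,[y2,y3,y3,z3])]],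
    .lp k0 [k166,(nat_lit 244),(nat_lit 240),(nat_lit 238),k180] [k46,k32,k0,k0,k2,k2,k3,k3,k32,k32] k0 [[k0,k0,k16,
    k0,k0,k0,k0,k0,k0,k0],[k28,k0,k0,k0,k0,k0,k0,k0,k0,k0],[k0,k0,k0,k0,k0,k4,k0,k0,k0,k0],[k0,k16,k0,k0,k0,k0,k0,k0,
    k0,k0],[k0,k0,k0,k4,k0,k0,k0,k0,k0,k0],[k0,k0,k0,k0,k0,k0,k0,k0,k0,k0],[k0,k0,k0,k0,k0,k0,k0,k0,k0,k0],[k0,k0,k0,
    k0,k0,k0,k0,k0,k0,k0],[k0,k0,k0,k0,k0,k0,k0,k0,k0,k0],[k0,k0,k0,k0,k0,k0,k0,k0,k0,k0]] (nat_lit 720) k5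
    [[(k1,k180),(k8,k180),(k9,k180),(k6,(nat_lit 209))],[(k0,k180),(k5,k180),(k7,k195),(k4,k196),(k2,k198),(k3,k198)],
    [(k0,k198),(k3,(nat_lit 216)),(k7,(nat_lit 241)),(k4,(nat_lit 242)),(k5,(nat_lit 242)),(k2,(nat_lit 260))],[(k0,
    k198),(k4,(nat_lit 238)),(k7,(nat_lit 241)),(k5,(nat_lit 242)),(k2,(nat_lit 244)),(k3,(nat_lit 260))],[(k0,k180),
    (k4,(nat_lit 240)),(k5,(nat_lit 240)),(k2,(nat_lit 242)),(k3,(nat_lit 242)),(k7,(nat_lit 243))],[(k0,k196),(k2,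
    (nat_lit 238)),(k7,(nat_lit 239)),(k4,(nat_lit 240)),(k5,(nat_lit 240)),(k3,(nat_lit 242))],[(k0,k195),(k7,
    (nat_lit 238)),(k4,(nat_lit 239)),(k2,(nat_lit 241)),(k3,(nat_lit 241)),(k5,(nat_lit 243))],[(k1,(nat_lit 209)),
    (k8,(nat_lit 209)),(k9,(nat_lit 209)),(k6,(nat_lit 238))],[(k1,k180),(k8,k180),(k9,k180),(k6,(nat_lit 209))],[(k1,
    k180),(k8,k180),(k9,k180),(k6,(nat_lit 209))]]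
    [[k2,k1,k0,k0,k0],[k2,k0,k1,k0,k0],[k1,k1,k0,k1,k0],[k1,k0,k1,k1,k0],[k2,k0,k0,k0,k1],[k1,k0,k0,k1,k1],[k0,k2,k1,
    k0,k0],[k0,k0,k0,k2,k1],[k0,k0,k0,k0,k3]]
    [.contra [y3,z2,z1],.contra [z3,y1,z0,y1],.contra [z3,z0,z1,z1,y3],.contra [z6,z1,z2,z0,y6],.contra [y3,z2,z1],
    .contra [z3,z0,z1,z1,y3],.ref k40 k0 [(z1,[z0,z1]),(z2,[z3,z0,z0,y1]),(z1,[z0,z0,z0,z1]),(z1,[z0,y1,y1,y1,z3])],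
    .ref k40 k0 [(z1,[z0,z1]),(z1,[y3,y2,y1,y2,z6]),(z1,[z0,z0,z0,z1]),(z1,[z0,y1,y1,y1,z3])],.ref k40 k0 [(z1,[z0,
    z1]),(z1,[y1,z0,z1]),(z1,[z0,z0,z0,z1]),(z1,[z0,y1,y1,y1,z3])]],
    .lp k0 [k40,k40,k30,k30,k38] [k6,k4,k10,k0,k10,k10,k10,k10,k6,k6] k0 [[k0,k0,k0,k0,k0,k0,k0,k0,k0,k0],[k0,k0,k0,
    k0,k10,k0,k0,k0,k0,k0],[k0,k0,k0,k0,k0,k0,k0,k0,k0,k0],[k0,k0,k0,k0,k0,k0,k0,k0,k0,k0],[k0,k0,k0,k0,k0,k0,k0,k0,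
    k0,k0],[k10,k0,k0,k0,k0,k0,k0,k0,k0,k0],[k0,k0,k0,k0,k0,k0,k0,k0,k6,k2],[k0,k0,k0,k0,k0,k0,k0,k0,k0,k0],[k0,k0,k0,
    k0,k0,k0,k0,k2,k0,k0],[k0,k0,k0,k0,k0,k0,k0,k6,k0,k0]] k120 k5
    [[(k6,k30),(k8,k40),(k1,k42),(k9,k42)],[(k2,k34),(k5,k34),(k7,k34),(k0,k38),(k3,k44),(k4,k44)],[(k7,k30),(k2,k40),
    (k4,k40),(k5,k40),(k0,k44),(k3,k50)],[(k2,k30),(k4,k30),(k5,k30),(k7,k30),(k0,k34),(k3,k40)],[(k2,k30),(k4,k30),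
    (k5,k30),(k7,k30),(k0,k34),(k3,k40)],[(k2,k30),(k4,k30),(k5,k30),(k7,k30),(k3,k40),(k0,k44)],[(k2,k30),(k3,k30),
    (k4,k30),(k5,k30),(k7,k30),(k0,k34)],[(k1,k30),(k6,k30),(k8,k32),(k9,k34)],[(k6,k34),(k9,k38),(k1,k42),(k8,k44)],
    [(k6,k32),(k8,k38),(k1,k40),(k9,k44)]]
    [[k1,k1,k0,k1,k0],[k1,k0,k1,k1,k0],[k1,k0,k0,k1,k1],[k0,k2,k1,k0,k0],[k0,k1,k2,k0,k0],[k0,k1,k0,k2,k0],[k0,k0,k3,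
    k0,k0],[k0,k0,k1,k2,k0],[k0,k0,k0,k2,k1]]
    [.contra [z3,z0,z1,z1,y3],.contra [z3,z0,z1,z1,y3],.contra [z3,z0,z1,z1,y3],.ref k40 k1 [(z2,[z3,y1,y4,y3,z6]),
    (z1,[z3,z0,y2]),(z1,[z0,z0,z1]),(z2,[y3,z1,z2,z1])],.ref k40 k1 [(z4,[z3,y2,y5,y6,z12]),(z2,[z3,z0,y1]),(z1,[z0,
    z0,z1]),(z4,[y3,z2,z1,z2])],.contra [y3,y1,y1,y2,z6],.ref k40 k1 [(z2,[z1,y1,y2,y3,z6]),(z1,[z1]),(z1,[z0,z0,z1]),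
    (z2,[y1,z1,z0,z1])],.contra [z3,z1,z2,z3,y6],.contra [z3,z1,z4,z2,y6]],
    .lp k0 [k30,k30,k40,k40,k38] [k10,k10,k10,k10,k0,k10,k3,k7,k6,k6] k0 [[k0,k0,k0,k0,k0,k10,k0,k0,k0,k0],[k0,k0,k0,
    k0,k0,k0,k0,k0,k0,k0],[k0,k0,k0,k0,k0,k0,k0,k0,k0,k0],[k0,k0,k0,k0,k0,k0,k0,k0,k0,k0],[k0,k10,k0,k0,k0,k0,k0,k0,
    k0,k0],[k0,k0,k0,k0,k0,k0,k0,k0,k0,k0],[k0,k0,k0,k0,k0,k0,k0,k0,k6,k0],[k0,k0,k0,k0,k0,k0,k0,k0,k2,k0],[k0,k0,k0,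
    k0,k0,k0,k0,k0,k0,k0],[k0,k0,k0,k0,k0,k0,k2,k6,k0,k0]] k120 k5
    [[(k1,k30),(k6,k31),(k9,k32),(k8,k34)],[(k0,k30),(k2,k30),(k3,k30),(k4,k30),(k5,k30),(k7,k33)],[(k0,k30),(k2,k30),
    (k3,k30),(k5,k30),(k4,k40),(k7,k43)],[(k0,k30),(k2,k30),(k3,k30),(k5,k30),(k7,k33),(k4,k40)],[(k0,k30),(k2,k30),
    (k3,k30),(k5,k30),(k7,k33),(k4,k40)],[(k0,k30),(k2,k40),(k3,k40),(k5,k40),(k7,k43),(k4,k50)],[(k0,k33),(k2,k33),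
    (k5,k33),(k7,k36),(k3,k43),(k4,k43)],[(k1,k31),(k9,k41),(k8,k43),(k6,k44)],[(k1,k32),(k9,k38),(k6,k41),(k8,k44)],
    [(k1,k34),(k8,k38),(k6,k43),(k9,k44)]]
    [[k2,k1,k0,k0,k0],[k2,k0,k1,k0,k0],[k1,k1,k0,k1,k0],[k1,k0,k1,k1,k0],[k2,k0,k0,k0,k1],[k1,k0,k0,k1,k1],[k0,k3,k0,
    k0,k0],[k0,k2,k1,k0,k0],[k0,k1,k2,k0,k0]]
    [.contra [z3,y3,y1,z2],.contra [y3,z3,z1,z1],.contra [z3,z0,z1,z1,y3],.contra [z3,z0,z1,z1,y3],.contra [z1,y1],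
    .contra [z3,z0,z1,z1,y3],.ref k40 k0 [(z2,[y1,z3,z1]),(z1,[z1]),(z1,[z0,z0,z0,z1]),(z2,[z1,y3,y3,y2,z6])],
    .ref k40 k0 [(z4,[y3,z6,z2,z1]),(z2,[z3,z0,z0,y1]),(z1,[z0,z0,z0,z1]),(z4,[z3,y6,y6,y5,z12])],.ref k40 k0 [(z2,
    [y3,z3,z1,z2]),(z1,[z3,z0,z0,y2]),(z1,[z0,z0,z0,z1]),(z2,[z3,y3,y3,y4,z6])]],
    .lp k0 [k30,k40,k30,k40,k38] [k10,k10,k0,k10,k10,k10,k4,k6,k6,k6] k0 [[k0,k0,k0,k0,k0,k0,k0,k0,k0,k0],[k0,k0,k0,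
    k0,k0,k0,k0,k0,k0,k0],[k0,k0,k0,k0,k0,k10,k0,k0,k0,k0],[k0,k0,k0,k0,k0,k0,k0,k0,k0,k0],[k0,k0,k0,k10,k0,k0,k0,k0,
    k0,k0],[k0,k0,k0,k0,k0,k0,k0,k0,k0,k0],[k0,k0,k0,k0,k0,k0,k0,k0,k6,k0],[k0,k0,k0,k0,k0,k0,k0,k0,k2,k0],[k0,k0,k0,
    k0,k0,k0,k0,k0,k0,k0],[k0,k0,k0,k0,k0,k0,k2,k6,k0,k0]] k120 k5
    [[(k1,k30),(k6,k30),(k9,k32),(k8,k34)],[(k0,k30),(k3,k30),(k4,k30),(k5,k30),(k7,k34),(k2,k40)],[(k0,k30),(k3,k30),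
    (k4,k30),(k5,k30),(k7,k34),(k2,k40)],[(k4,k30),(k0,k40),(k3,k40),(k5,k40),(k7,k44),(k2,k50)],[(k0,k30),(k3,k30),
    (k4,k30),(k5,k30),(k2,k40),(k7,k44)],[(k0,k30),(k2,k30),(k3,k30),(k4,k30),(k5,k30),(k7,k34)],[(k0,k34),(k3,k34),
    (k4,k34),(k7,k38),(k2,k44),(k5,k44)],[(k1,k30),(k9,k40),(k6,k42),(k8,k42)],[(k1,k32),(k9,k38),(k6,k40),(k8,k44)],
    [(k1,k34),(k8,k38),(k6,k42),(k9,k44)]]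
    [[k2,k1,k0,k0,k0],[k2,k0,k1,k0,k0],[k1,k1,k0,k1,k0],[k1,k0,k1,k1,k0],[k2,k0,k0,k0,k1],[k1,k0,k0,k1,k1],[k0,k2,k1,
    k0,k0],[k0,k1,k2,k0,k0],[k0,k0,k3,k0,k0]]
    [.contra [y3,z3,z1,z1],.contra [z3,y3,z2,y1],.contra [z3,z0,z1,z1,y3],.contra [z3,z0,z1,z1,y3],.contra [z1,y1],
    .contra [z3,z0,z1,z1,y3],.ref k40 k0 [(z2,[y3,z3,z2,z1]),(z1,[z0,z0,z1]),(z1,[z3,z0,y2]),(z2,[z3,y3,y4,y3,z6])],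
    .ref k40 k0 [(z4,[y3,z6,z1,z2]),(z1,[z0,z0,z1]),(z2,[z3,z0,y1]),(z4,[z3,y6,y5,y6,z12])],.ref k40 k0 [(z2,[y1,z3,
    z0,z1]),(z1,[z0,z0,z1]),(z1,[z1]),(z2,[z1,y3,y2,y3,z6])]],
    .lp k0 [k60,k78,k78,k60,k80] [k10,k10,k1,k1,k1,k1,k10,k10,k0,k0] k0 [[k0,k0,k6,k6,k0,k0,k0,k0,k0,k0],[k0,k0,k0,k0,
    k0,k0,k0,k0,k0,k0],[k0,k6,k0,k0,k6,k0,k0,k0,k0,k0],[k0,k6,k0,k0,k6,k0,k0,k0,k0,k0],[k0,k0,k0,k0,k0,k0,k0,k0,k0,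
    k0],[k0,k0,k6,k6,k0,k0,k0,k0,k0,k0],[k0,k0,k0,k0,k0,k0,k0,k0,k0,k0],[k0,k0,k0,k0,k0,k0,k0,k0,k0,k0],[k0,k0,k0,k0,
    k0,k0,k0,k0,k0,k0],[k0,k0,k0,k0,k0,k0,k0,k0,k0,k0]] (nat_lit 240) k5
    [[(k1,k60),(k6,k60),(k8,k70),(k9,k70)],[(k0,k60),(k7,k60),(k2,k63),(k5,k63),(k3,k69),(k4,k69)],[(k0,k69),(k7,k69),
    (k3,k78),(k4,k78),(k2,k84),(k5,k84)],[(k0,k63),(k7,k63),(k2,k78),(k5,k78),(k3,k84),(k4,k84)],[(k0,k63),(k7,k63),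
    (k2,k78),(k5,k78),(k3,k84),(k4,k84)],[(k0,k69),(k7,k69),(k3,k78),(k4,k78),(k2,k84),(k5,k84)],[(k0,k60),(k7,k60),
    (k2,k63),(k5,k63),(k3,k69),(k4,k69)],[(k1,k60),(k6,k60),(k8,k70),(k9,k70)],[(k1,k70),(k6,k70),(k8,k80),(k9,k80)],
    [(k1,k70),(k6,k70),(k8,k80),(k9,k80)]]
    [[k2,k1,k0,k0,k0],[k2,k0,k1,k0,k0],[k1,k1,k0,k1,k0],[k1,k0,k1,k1,k0],[k2,k0,k0,k0,k1],[k1,k0,k0,k1,k1],[k0,k1,k0,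
    k2,k0],[k0,k0,k1,k2,k0],[k0,k0,k0,k2,k1]]
    [.ref k51 k1 [(z2,[y3,z6,z1]),(z1,[z0,y3,y1,z3]),(z1,[z0,z0,z1])],.ref k52 k0 [(z1,[z3,z3,z1,y3]),(z1,[z0,z0,z1]),
    (z1,[z0,y3,y1,z3])],.contra [z1,y1],.contra [z1,y1],.ref k53 k1 [(z1,[y1,z2]),(z1,[z0,y3,y1,z3]),(z1,[z0,z0,z1])],
    .contra [z1,y1],.ref k43 k0 [(z2,[y3,z6,z1]),(z1,[z0,z0,z1]),(z1,[z0,y3,y1,z3])],.ref k41 k1 [(z1,[z3,z3,z1,y3]),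
    (z1,[z0,y3,y1,z3]),(z1,[z0,z0,z1])],.ref k54 k0 [(z1,[y1,z2]),(z1,[z0,z0,z1]),(z1,[z0,y3,y1,z3])]],
    .lp k0 [k30,k40,k30,k40,k38] [k10,k10,k0,k10,k10,k10,k4,k6,k6,k6] k0 [[k0,k0,k0,k0,k0,k0,k0,k0,k0,k0],[k0,k0,k0,
    k0,k0,k0,k0,k0,k0,k0],[k0,k0,k0,k0,k0,k10,k0,k0,k0,k0],[k0,k0,k0,k0,k0,k0,k0,k0,k0,k0],[k0,k0,k0,k10,k0,k0,k0,k0,
    k0,k0],[k0,k0,k0,k0,k0,k0,k0,k0,k0,k0],[k0,k0,k0,k0,k0,k0,k0,k0,k6,k0],[k0,k0,k0,k0,k0,k0,k0,k0,k2,k0],[k0,k0,k0,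
    k0,k0,k0,k0,k0,k0,k0],[k0,k0,k0,k0,k0,k0,k2,k6,k0,k0]] k120 k5
    [[(k1,k30),(k6,k30),(k9,k32),(k8,k34)],[(k0,k30),(k3,k30),(k4,k30),(k5,k30),(k7,k34),(k2,k40)],[(k0,k30),(k3,k30),
    (k4,k30),(k5,k30),(k7,k34),(k2,k40)],[(k4,k30),(k0,k40),(k3,k40),(k5,k40),(k7,k44),(k2,k50)],[(k0,k30),(k3,k30),
    (k4,k30),(k5,k30),(k2,k40),(k7,k44)],[(k0,k30),(k2,k30),(k3,k30),(k4,k30),(k5,k30),(k7,k34)],[(k0,k34),(k3,k34),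
    (k4,k34),(k7,k38),(k2,k44),(k5,k44)],[(k1,k30),(k9,k40),(k6,k42),(k8,k42)],[(k1,k32),(k9,k38),(k6,k40),(k8,k44)],
    [(k1,k34),(k8,k38),(k6,k42),(k9,k44)]]
    [[k2,k1,k0,k0,k0],[k2,k0,k1,k0,k0],[k1,k1,k0,k1,k0],[k1,k0,k1,k1,k0],[k2,k0,k0,k0,k1],[k1,k0,k0,k1,k1],[k0,k2,k1,
    k0,k0],[k0,k1,k2,k0,k0],[k0,k0,k3,k0,k0]]
    [.ref k42 k0 [(z1,[z0,z1]),(z1,[z1,y2])],.ref k46 k1 [(z1,[z0,z1]),(z1,[z1])],.contra [z1,y1],.contra [z1,y1],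
    .ref k48 k1 [(z1,[y1,z2]),(z1,[z0,y1,z1])],.contra [z1,y1],.ref k50 k0 [(z1,[z0,z1]),(z1,[z1,z1,y1])],
    .ref k50 k1 [(z1,[z0,z1]),(z1,[z1,z1,y1])],.ref k55 k1 [(z1,[z0,z1]),(z1,[z1])]],
    .base (.leafM k0 [k2,k3,k4,k0,k1] [(z1,[z0,z0,z1])] []),
    .base (.leafM k0 [k3,k4,k0,k1,k2] [(z2,[y1,y2,y1,z2])] []),
    .base (.leafM k0 [k4,k0,k1,k2,k3] [(z5,[z0,y1,y1,y1,z5])] [])]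

theorem hB5_23_4 : blkB [0, 0, 0, 1, 1] [] sp5 hS5_23 (pcls (n := 5) [0, 0, 0, 1, 1]) hD5_23 141 4 hN5_23_4 = true := by
  decide +kernel

/-- nodes 60 to 71 -/
noncomputable def hN5_23_5 : List HM :=
  [.lp k0 [k112,k106,k98,k131,k90] [k29,k29,k32,k32,k36,k36,k39,k0,k40,k40] k0 [[k0,k28,k14,k0,k0,k0,k0,k0,k0,k0],[k0,
    k0,k30,k0,k52,k27,k0,k0,k0,k0],[k0,k0,k0,k0,k66,k0,k0,k0,k0,k0],[k30,k14,k0,k0,k0,k0,k0,k0,k0,k0],[k27,k0,k0,k0,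
    k0,k0,k0,k0,k0,k0],[k52,k0,k0,k66,k0,k0,k0,k0,k0,k0],[k0,k0,k0,k0,k0,k0,k0,k0,k0,k0],[k0,k0,k0,k0,k0,k0,k0,k0,k8,
    k0],[k0,k0,k0,k0,k0,k0,k0,k0,k0,k0],[k0,k0,k0,k0,k0,k0,k8,k0,k0,k0]] (nat_lit 360) k6
    [[(k9,k93),(k8,k101),(k6,k102),(k1,k112)],[(k0,k84),(k5,k91),(k3,k109),(k2,k139),(k4,k157),(k7,k168)],[(k5,k72),
    (k4,k75),(k7,k86),(k0,k109),(k2,k120),(k3,k134)],[(k7,k72),(k4,k102),(k5,k102),(k2,k106),(k3,k120),(k0,k139)],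
    [(k3,k72),(k0,k91),(k5,k98),(k2,k102),(k7,k134),(k4,k164)],[(k3,k75),(k4,k98),(k2,k102),(k7,k134),(k0,k157),(k5,
    k164)],[(k2,k72),(k3,k86),(k4,k134),(k5,k134),(k0,k168),(k7,k170)],[(k9,k91),(k6,k92),(k8,k99),(k1,k102)],[(k8,
    k90),(k9,k90),(k6,k91),(k1,k93)],[(k8,k90),(k9,k90),(k6,k99),(k1,k101)]]
    [[k1,k1,k0,k1,k0],[k1,k1,k1,k1,k0],[k1,k0,k1,k1,k0],[k2,k0,k0,k0,k1],[k0,k2,k1,k0,k0],[k0,k2,k2,k0,k0],[k0,k1,k2,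
    k0,k0],[k0,k1,k0,k2,k0],[k0,k1,k0,k2,k1],[k0,k0,k0,k0,k3]]
    [.ref k0 k0 [(z1,[y3,z2,z0,y3,z3]),(z1,[z3,z0,z2,z3,y3]),(z1,[y1,z0,z0,z1,z1]),(z1,[z1,y2,y4,y3,z3])],.contra [y1,
    z0,z0,z1,z1],.ref k0 k0 [(z1,[z3,z2,z3,z0,y3]),(z1,[y3,z0,y1,z0,z3]),(z1,[z1,z0,z1,z2,y1]),(z1,[y1,y2,y5,y4,z5])],
    .ref k0 k0 [(z2,[z3,z1]),(z2,[y3,z3,z4]),(z2,[z1,y1,z0,z4]),(z2,[y1,y3,y8,y8,z8])],.ref k59 k0 [(z2,[y3,z5,z6,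
    z3]),(z1,[z3,z0,y1,y3]),(z1,[y1,z0,z2,z6]),(z2,[z1,y5,y12,y11,z10])],.ref k0 k0 [(z2,[y3,z4,z6,z6]),(z2,[z3,z0,y2,
    y6]),(z2,[y1,z0,z2,z6]),(z2,[z1,y4,y10,y10,z8])],.contra [z1,y1,y3,y4,z2],.ref k0 k0 [(z2,[y3,z1,y3,y6,z6]),(z2,
    [z3,z3,z7,z6,y6]),(z2,[y1,y1,y1,z2,z2]),(z2,[z1,y3,y7,y6,z6])],.contra [y1,z0,y1,y2,z2],.contra [z1,z1]],
    .lp k0 [k40,k30,k40,k30,k38] [k6,k4,k10,k10,k10,k0,k10,k10,k6,k6] k0 [[k0,k0,k0,k0,k0,k0,k0,k0,k0,k0],[k0,k0,k10,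
    k0,k0,k0,k0,k0,k0,k0],[k0,k0,k0,k0,k0,k0,k0,k0,k0,k0],[k10,k0,k0,k0,k0,k0,k0,k0,k0,k0],[k0,k0,k0,k0,k0,k0,k0,k0,
    k0,k0],[k0,k0,k0,k0,k0,k0,k0,k0,k0,k0],[k0,k0,k0,k0,k0,k0,k0,k0,k6,k2],[k0,k0,k0,k0,k0,k0,k0,k0,k0,k0],[k0,k0,k0,
    k0,k0,k0,k0,k2,k0,k0],[k0,k0,k0,k0,k0,k0,k0,k6,k0,k0]] k120 k5
    [[(k6,k30),(k8,k40),(k1,k42),(k9,k42)],[(k3,k34),(k4,k34),(k7,k34),(k0,k38),(k2,k44),(k5,k44)],[(k2,k30),(k3,k30),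
    (k4,k30),(k5,k30),(k7,k30),(k0,k34)],[(k2,k30),(k3,k30),(k4,k30),(k7,k30),(k5,k40),(k0,k44)],[(k3,k30),(k2,k40),
    (k4,k40),(k7,k40),(k0,k44),(k5,k50)],[(k2,k30),(k3,k30),(k4,k30),(k7,k30),(k0,k34),(k5,k40)],[(k2,k30),(k3,k30),
    (k4,k30),(k7,k30),(k0,k34),(k5,k40)],[(k1,k30),(k6,k30),(k8,k32),(k9,k34)],[(k6,k34),(k9,k38),(k1,k42),(k8,k44)],
    [(k6,k32),(k8,k38),(k1,k40),(k9,k44)]]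
    [[k1,k1,k0,k1,k0],[k1,k0,k1,k1,k0],[k1,k0,k0,k1,k1],[k0,k3,k0,k0,k0],[k0,k2,k1,k0,k0],[k0,k1,k2,k0,k0],[k0,k1,k0,
    k2,k0],[k0,k0,k1,k2,k0],[k0,k0,k0,k2,k1]]
    [.ref k18 k0 [(z1,[z0,z1]),(z1,[z0,z0,z1]),(z1,[y1,z0,z0,z1])],.ref k4 k0 [(z1,[z1,z2,z1,y1]),(z1,[y1,z0,z1,z1]),
    (z1,[z3,y2,y1,z1])],.ref k18 k0 [(z1,[z0,z1]),(z1,[z0,z0,z1]),(z1,[y1,z0,y1,z1])],.ref k57 k0 [(z2,[y1,z3,z3]),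
    (z1,[z1]),(z2,[y1,y1,z1,z2])],.ref k38 k1 [(z1,[y2,y1,z2,z2]),(z1,[z1,z0,y2]),(z1,[z0,z0,z1])],.ref k58 k0 [(z1,
    [z0,z1]),(z1,[z0,z0,z1]),(z1,[z1,z0,y1])],.ref k18 k0 [(z1,[z0,z1]),(z1,[z0,z0,z1]),(z2,[y1,y1,y1,z2])],
    .ref k60 k1 [(z1,[z2,z1,z2,y2]),(z1,[y1,y1,y2,z2]),(z1,[z0,z0,z1])],.ref k18 k0 [(z1,[z0,z1]),(z1,[z0,z0,z1]),(z2,
    [y1,y1,y2,z2])]],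
    .base (.leafM k5 [k1,k2,k3,k4,k0] [(z1,[z0,z0,z1]),(z2,[y1,y1,y2,z4])] []),
    .base (.leafM k0 [k2,k3,k4,k0,k1] [(z2,[y1,y1,z0,z2])] []),
    .base (.leafM k0 [k0,k1,k2,k3,k4] [(z5,[z1,z1])] []),
    .base (.geo z9 k0 [(z6,z0),(z4,z0),(z6,z0),(z7,z0),(z4,z0)] [(z1,[z3]),(z1,[z0,z1]),(z1,[z0,z0,z3]),(z1,[z0,z0,z0,
    z1]),(z1,[y3,y1,y3,y1,z9])] k1),
    .lp k0 [k42,k40,k26,k40,k30] [k0,k0,k1,k1,k8,k8,k1,k1,k6,k6] k0 [[k0,k0,k0,k2,k2,k0,k0,k0,k0,k0],[k0,k0,k0,k10,k0,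
    k0,k0,k0,k0,k0],[k10,k2,k0,k0,k0,k0,k0,k0,k0,k0],[k0,k0,k0,k0,k0,k0,k0,k0,k0,k0],[k0,k0,k0,k0,k0,k0,k0,k0,k0,k0],
    [k0,k2,k0,k0,k0,k0,k0,k0,k0,k0],[k0,k0,k0,k0,k0,k0,k0,k0,k0,k0],[k0,k0,k0,k0,k0,k0,k0,k0,k10,k0],[k0,k0,k0,k0,k0,
    k0,k0,k0,k0,k0],[k0,k0,k0,k0,k0,k0,k10,k0,k0,k0]] k120 k6
    [[(k9,k26),(k8,k36),(k6,k41),(k1,k42)],[(k4,k34),(k2,k39),(k7,k39),(k3,k41),(k0,k42),(k5,k44)],[(k2,k30),(k4,k35),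
    (k5,k35),(k3,k40),(k7,k40),(k0,k41)],[(k3,k30),(k4,k33),(k5,k33),(k0,k39),(k2,k40),(k7,k40)],[(k4,k26),(k5,k26),
    (k2,k33),(k7,k33),(k3,k35),(k0,k44)],[(k4,k26),(k5,k26),(k2,k33),(k7,k33),(k0,k34),(k3,k35)],[(k4,k33),(k5,k33),
    (k0,k39),(k2,k40),(k3,k40),(k7,k40)],[(k9,k35),(k6,k40),(k1,k41),(k8,k45)],[(k1,k26),(k8,k30),(k9,k30),(k6,k35)],
    [(k8,k30),(k9,k30),(k1,k36),(k6,k45)]]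
    [[k1,k0,k1,k1,k0],[k2,k0,k0,k0,k1],[k1,k0,k0,k1,k1],[k0,k3,k0,k0,k0],[k0,k2,k1,k0,k0],[k0,k1,k2,k0,k0],[k0,k0,k3,
    k0,k0],[k0,k0,k4,k0,k0],[k0,k0,k1,k2,k0],[k0,k0,k0,k0,k3]]
    [.ref k0 k0 [(z1,[y3,z2,y3,z0,z3]),(z1,[y1,z0,z1,z0,z1]),(z1,[z3,z0,z3,z2,y3]),(z1,[z1,y2,y3,y4,z3])],
    .ref k0 k0 [(z2,[z3,z1]),(z2,[z1,y1,z4]),(z2,[y3,z3,z0,z4]),(z2,[y1,y3,y8,y8,z8])],.ref k0 k0 [(z1,[z3,z2,z3,z3,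
    y3]),(z1,[z1,z0,z3,z1,y1]),(z1,[y3,z0,y3,y1,z3]),(z1,[y1,y2,y5,y5,z5])],.contra [z1,z1,y3],.contra [z1,y1,y4,y3,
    z2],.ref k64 k0 [(z2,[y3,z5,z3,z6]),(z1,[y1,z0,z6,z2]),(z1,[z3,z0,y3,y1]),(z2,[z1,y5,y11,y12,z10])],
    .ref k65 k0 [(z2,[y1,z3,z0,z3]),(z1,[y1,z0,z9,z3]),(z1,[z1]),(z2,[z1,y9,y18,y21,z18])],.ref k0 k0 [(z2,[y1,z4,z0,
    z4]),(z6,[y1,z0,z12,z4]),(z2,[z1]),(z6,[z1,y12,y24,y28,z24])],.ref k0 k0 [(z2,[y3,z1,y6,y3,z6]),(z2,[y1,y1,z2,y1,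
    z2]),(z2,[z3,z3,z6,z7,y6]),(z2,[z1,y3,y6,y7,z6])],.contra [z1,z1]],
    .base (.leafM k0 [k0,k1,k2,k3,k4] [(z3,[z1,z1])] []),
    .lp k0 [k40,k30,k40,k30,k38] [k6,k4,k10,k10,k10,k0,k10,k10,k6,k6] k0 [[k0,k0,k0,k0,k0,k0,k0,k0,k0,k0],[k0,k0,k10,
    k0,k0,k0,k0,k0,k0,k0],[k0,k0,k0,k0,k0,k0,k0,k0,k0,k0],[k10,k0,k0,k0,k0,k0,k0,k0,k0,k0],[k0,k0,k0,k0,k0,k0,k0,k0,
    k0,k0],[k0,k0,k0,k0,k0,k0,k0,k0,k0,k0],[k0,k0,k0,k0,k0,k0,k0,k0,k6,k2],[k0,k0,k0,k0,k0,k0,k0,k0,k0,k0],[k0,k0,k0,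
    k0,k0,k0,k0,k2,k0,k0],[k0,k0,k0,k0,k0,k0,k0,k6,k0,k0]] k120 k5
    [[(k6,k30),(k8,k40),(k1,k42),(k9,k42)],[(k3,k34),(k4,k34),(k7,k34),(k0,k38),(k2,k44),(k5,k44)],[(k2,k30),(k3,k30),
    (k4,k30),(k5,k30),(k7,k30),(k0,k34)],[(k2,k30),(k3,k30),(k4,k30),(k7,k30),(k5,k40),(k0,k44)],[(k3,k30),(k2,k40),
    (k4,k40),(k7,k40),(k0,k44),(k5,k50)],[(k2,k30),(k3,k30),(k4,k30),(k7,k30),(k0,k34),(k5,k40)],[(k2,k30),(k3,k30),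
    (k4,k30),(k7,k30),(k0,k34),(k5,k40)],[(k1,k30),(k6,k30),(k8,k32),(k9,k34)],[(k6,k34),(k9,k38),(k1,k42),(k8,k44)],
    [(k6,k32),(k8,k38),(k1,k40),(k9,k44)]]
    [[k1,k1,k0,k1,k0],[k1,k0,k1,k1,k0],[k1,k0,k0,k1,k1],[k0,k3,k0,k0,k0],[k0,k2,k1,k0,k0],[k0,k1,k2,k0,k0],[k0,k1,k0,
    k2,k0],[k0,k0,k1,k2,k0],[k0,k0,k0,k2,k1]]
    [.contra [z1,z0,y1],.ref k67 k0 [(z1,[z0,z1]),(z1,[y3,z1,z3,z1]),(z1,[z0,z0,z0,z1]),(z1,[z3,y1,z0,y1])],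
    .ref k67 k0 [(z1,[z0,z1]),(z1,[y3,z0,z0,y1,z3]),(z1,[z0,z0,z0,z1]),(z1,[z3,z0,z3,z1,y3])],.ref k40 k1 [(z1,[y1,z0,
    z3]),(z1,[z0,z0,z0,z1]),(z1,[z1]),(z1,[z0,z1])],.ref k40 k1 [(z2,[y3,z0,z6,z1]),(z1,[z0,z0,z0,z1]),(z2,[z3,z0,z0,
    y1]),(z1,[z0,z1])],.ref k40 k1 [(z1,[y3,z0,z3,z2]),(z1,[z0,z0,z0,z1]),(z1,[z3,z0,z0,y2]),(z1,[z0,z1])],
    .contra [z1,z0,y1],.ref k67 k0 [(z1,[z0,z1]),(z2,[y3,z0,z6,z1]),(z1,[z0,z0,z0,z1]),(z2,[z3,z0,z0,y1])],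
    .ref k67 k0 [(z1,[z0,z1]),(z2,[y3,y1,z3,y1,z3]),(z1,[z0,z0,z0,z1]),(z2,[z3,z1,z3,z1,y3])]],
    .lp k0 [k40,k40,k30,k30,k38] [k6,k4,k10,k0,k10,k10,k10,k10,k6,k6] k0 [[k0,k0,k0,k0,k0,k0,k0,k0,k0,k0],[k0,k0,k0,
    k0,k10,k0,k0,k0,k0,k0],[k0,k0,k0,k0,k0,k0,k0,k0,k0,k0],[k0,k0,k0,k0,k0,k0,k0,k0,k0,k0],[k0,k0,k0,k0,k0,k0,k0,k0,
    k0,k0],[k10,k0,k0,k0,k0,k0,k0,k0,k0,k0],[k0,k0,k0,k0,k0,k0,k0,k0,k6,k2],[k0,k0,k0,k0,k0,k0,k0,k0,k0,k0],[k0,k0,k0,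
    k0,k0,k0,k0,k2,k0,k0],[k0,k0,k0,k0,k0,k0,k0,k6,k0,k0]] k120 k5
    [[(k6,k30),(k8,k40),(k1,k42),(k9,k42)],[(k2,k34),(k5,k34),(k7,k34),(k0,k38),(k3,k44),(k4,k44)],[(k7,k30),(k2,k40),
    (k4,k40),(k5,k40),(k0,k44),(k3,k50)],[(k2,k30),(k4,k30),(k5,k30),(k7,k30),(k0,k34),(k3,k40)],[(k2,k30),(k4,k30),
    (k5,k30),(k7,k30),(k0,k34),(k3,k40)],[(k2,k30),(k4,k30),(k5,k30),(k7,k30),(k3,k40),(k0,k44)],[(k2,k30),(k3,k30),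
    (k4,k30),(k5,k30),(k7,k30),(k0,k34)],[(k1,k30),(k6,k30),(k8,k32),(k9,k34)],[(k6,k34),(k9,k38),(k1,k42),(k8,k44)],
    [(k6,k32),(k8,k38),(k1,k40),(k9,k44)]]
    [[k1,k1,k0,k1,k0],[k1,k0,k1,k1,k0],[k1,k0,k0,k1,k1],[k0,k2,k1,k0,k0],[k0,k1,k2,k0,k0],[k0,k1,k0,k2,k0],[k0,k0,k3,
    k0,k0],[k0,k0,k1,k2,k0],[k0,k0,k0,k2,k1]]
    [.ref k62 k0 [(z2,[z2,z3,y1]),(z2,[z6,y3,z1]),(z2,[y2,y1,y1,z4])],.ref k18 k1 [(z1,[z2,z0,z1,y2]),(z2,[z0,y1,y1,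
    z2]),(z1,[y1,z0,z0,z1])],.ref k18 k1 [(z1,[z2,y1]),(z2,[z0,y1,y1,z2]),(z2,[y2,z1,z1])],.ref k63 k0 [(z1,[z0,z1]),
    (z2,[z2,z1,z1,y2]),(z2,[z0,y1,y1,z2])],.ref k44 k1 [(z1,[y2,y2,y1,z4]),(z2,[z0,y1,y1,z2]),(z1,[z1,z1,z1,y2])],
    .ref k66 k1 [(z1,[z2,z0,y1]),(z2,[z0,y1,y1,z2]),(z1,[y1,z0,z1])],.ref k68 k0 [(z4,[y2,z3,y3,z6]),(z4,[y2,y3,y1,
    z6]),(z1,[z1])],.ref k18 k1 [(z2,[z2,z1,z1,y2]),(z2,[z0,y1,y1,z2]),(z4,[y2,y1,z1,z2])],.ref k18 k1 [(z1,[z1]),(z2,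
    [z0,y1,y1,z2]),(z2,[y1,z0,z1])]],
    .base (.spec k3 false k0 [(z1,[z0,z1]),(z1,[z0,z0,z1])]),
    .base (.leafM k4 [k1,k2,k3,k4,k0] [(z1,[z0,z0,z1]),(z2,[y1,y1,y2,z6])] [])]

theorem hB5_23_5 : blkB [0, 0, 0, 1, 1] [] sp5 hS5_23 (pcls (n := 5) [0, 0, 0, 1, 1]) hD5_23 141 5 hN5_23_5 = true := by
  decide +kernel

end Pool.Agent.Lib_MP_fa6e45
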