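import Pool.Agent.Lib_MP_fa6e45.HK

/-!
MP_fa6e45_co, stage 4: certificates (captain, generated by a program).
-/

namespace Pool.Agent.Lib_MP_fa6e45

/-- nodes 72 to 83 -/
noncomputable def hN5_23_6 : List HM :=
  [.base (.leafM k0 [k4,k0,k1,k2,k3] [(z6,[z0,y2,y3,y1,z6])] []),
    .base (.spec k3 true k3 [(z4,[z1,z2,z6,z1,y8]),(z8,[y1,z0,y4,y1,z8])]),
    .base (.leafM k6 [k1,k2,k3,k4,k0] [(z1,[z0,z0,z1]),(z2,[y2,y3,y2,y1,z6])] []),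
    .lp k0 [k44,k28,k40,k36,k30] [k4,k0,k10,k10,k4,k4,k6,k6,k9,k9] k0 [[k0,k0,k0,k0,k0,k0,k0,k0,k0,k0],[k0,k0,k4,k0,
    k0,k0,k0,k0,k0,k0],[k0,k0,k0,k0,k4,k0,k0,k0,k0,k0],[k4,k0,k0,k0,k0,k0,k0,k0,k0,k0],[k0,k0,k0,k0,k0,k4,k0,k0,k0,
    k0],[k0,k0,k0,k4,k0,k0,k0,k0,k0,k0],[k0,k0,k0,k0,k0,k0,k0,k0,k0,k0],[k0,k0,k0,k0,k0,k0,k0,k0,k14,k0],[k0,k0,k0,k0,
    k0,k0,k0,k0,k0,k0],[k0,k0,k0,k0,k0,k0,k14,k0,k0,k0]] k120 k6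
    [[(k9,k25),(k8,k39),(k6,k42),(k1,k48)],[(k3,k34),(k2,k38),(k7,k38),(k0,k40),(k4,k40),(k5,k40)],[(k2,k28),(k3,k28),
    (k5,k30),(k7,k32),(k0,k34),(k4,k34)],[(k2,k28),(k3,k28),(k7,k28),(k4,k34),(k5,k34),(k0,k38)],[(k3,k30),(k2,k34),
    (k7,k38),(k0,k40),(k5,k40),(k4,k44)],[(k2,k34),(k3,k34),(k4,k36),(k7,k38),(k0,k40),(k5,k44)],[(k2,k28),(k3,k32),
    (k0,k38),(k4,k38),(k5,k38),(k7,k40)],[(k9,k33),(k6,k36),(k1,k42),(k8,k47)],[(k1,k25),(k8,k30),(k9,k30),(k6,k33)],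
    [(k8,k30),(k9,k30),(k1,k39),(k6,k47)]]
    [[k1,k1,k0,k1,k0],[k2,k0,k0,k0,k1],[k1,k0,k0,k1,k1],[k0,k3,k0,k0,k0],[k0,k4,k0,k0,k0],[k0,k2,k1,k0,k0],[k0,k1,k2,
    k0,k0],[k0,k1,k0,k2,k0],[k0,k0,k1,k2,k0],[k0,k0,k0,k0,k3]]
    [.ref k0 k0 [(z1,[y2,z2,z0,y1,z2]),(z1,[z2,z0,z2,z1,y2]),(z1,[z0,z0,z0,z1]),(z1,[z2,y2,y4,y1,z2])],
    .ref k0 k0 [(z1,[z1,z1]),(z1,[y1,z1,z2]),(z1,[z0,z0,z0,z1]),(z1,[y1,y1,y4,y2,z4])],.ref k0 k0 [(z1,[z2,z2,z2,z1,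
    y2]),(z1,[y2,z0,z0,y1,z2]),(z1,[z0,z0,z0,z1]),(z1,[y2,y2,y6,y3,z6])],.ref k72 k0 [(z2,[y1,z3,z3]),(z1,[z1]),(z1,
    [z0,z0,z0,z1]),(z1,[z1,y3,y9,y3,z6])],.ref k0 k0 [(z2,[y1,z4,z4]),(z2,[z1]),(z1,[z0,z0,z0,z1]),(z2,[z1,y4,y12,y4,
    z8])],.ref k73 k0 [(z1,[y2,z4,z4,z1]),(z1,[z2,z0,z0,y1]),(z1,[z0,z0,z0,z1]),(z1,[z2,y4,y12,y5,z8])],.contra [z1,
    z0,z0,y1],.ref k0 k0 [(z1,[y1,z1,y1,y1,z2]),(z1,[z1,z1,z3,z1,y2]),(z1,[z0,z0,z0,z1]),(z1,[z1,y1,y3,y1,z2])],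
    .ref k0 k0 [(z1,[y2,z0,y4,y1,z4]),(z1,[z2,z2,z6,z1,y4]),(z1,[z0,z0,z0,z1]),(z1,[z2,z0,z0,y1])],.ref k74 k1 [(z2,
    [y1,y3,y6,y3,z6]),(z1,[z0,z0,z0,z1]),(z1,[y1,z0,z3]),(z1,[z1,z3])]],
    .base (.leafM k0 [k3,k4,k0,k1,k2] [(z2,[y1,y1,y2,z2])] []),
    .base (.leafM k6 [k1,k2,k3,k4,k0] [(z1,[z0,z0,z1]),(z1,[y1,y1,y1,z3])] []),
    .lp k0 [k20,k24,k12,k18,k15] [k2,k2,k0,k0,k6,k6,k3,k3,k4,k5] k0 [[k0,k0,k0,k0,k0,k0,k0,k0,k0,k0],[k0,k0,k0,k0,k0,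
    k0,k0,k0,k0,k0],[k0,k0,k0,k0,k0,k0,k0,k0,k0,k0],[k0,k0,k0,k0,k0,k0,k0,k0,k0,k0],[k0,k0,k0,k0,k0,k0,k0,k0,k0,k0],
    [k0,k0,k0,k0,k0,k0,k0,k0,k0,k0],[k0,k0,k0,k0,k0,k0,k0,k0,k0,k5],[k0,k0,k0,k0,k0,k0,k0,k0,k0,k0],[k0,k0,k0,k0,k0,
    k0,k0,k5,k0,k0],[k0,k0,k0,k0,k0,k0,k0,k0,k0,k0]] k60 k6
    [[(k8,k18),(k6,k19),(k1,k20),(k9,k22)],[(k4,k16),(k5,k16),(k7,k19),(k0,k20),(k2,k22),(k3,k22)],[(k4,k18),(k5,k18),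
    (k7,k21),(k0,k22),(k2,k24),(k3,k24)],[(k4,k18),(k5,k18),(k7,k21),(k0,k22),(k2,k24),(k3,k24)],[(k4,k12),(k5,k12),
    (k7,k15),(k0,k16),(k2,k18),(k3,k18)],[(k4,k12),(k5,k12),(k7,k15),(k0,k16),(k2,k18),(k3,k18)],[(k4,k15),(k5,k15),
    (k7,k18),(k0,k19),(k2,k21),(k3,k21)],[(k8,k12),(k9,k16),(k6,k18),(k1,k19)],[(k9,k14),(k8,k15),(k6,k16),(k1,k22)],
    [(k6,k12),(k9,k15),(k8,k16),(k1,k18)]]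
    [[k2,k0,k1,k0,k0],[k1,k0,k1,k1,k0],[k1,k0,k0,k1,k1],[k0,k1,k2,k0,k0],[k0,k0,k3,k0,k0],[k0,k0,k4,k0,k0],[k0,k0,k1,
    k2,k0],[k0,k0,k1,k2,k1],[k0,k0,k0,k2,k1],[k0,k0,k0,k2,k2],[k0,k0,k0,k0,k3]]
    [.ref k62 k0 [(z2,[z2,z3,z1,y2]),(z2,[y2,z1,z3,z2]),(z2,[z2,y3,y1,z2])],.ref k17 k1 [(z1,[z2,z0,z1,y2]),(z2,[z0,
    y1,y1,z2]),(z1,[y1,z0,z0,z1])],.ref k18 k0 [(z1,[z0,z1]),(z2,[y2,z1,z1]),(z2,[z0,y1,y1,z2])],.ref k70 k0 [(z1,[z0,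
    z1]),(z1,[z1,z1,z1,y2]),(z2,[z0,y1,y1,z2])],.ref k71 k0 [(z2,[z2,z9,z3,y6]),(z2,[y2,y3,z3,z6]),(z1,[z1])],
    .ref k62 k0 [(z2,[z1,z6,z2,y4]),(z2,[y1,y2,z2,z4]),(z2,[z1])],.ref k75 k1 [(z2,[z2,z1,z1,y2]),(z2,[z0,y1,y1,z2]),
    (z2,[y2,y1,z1,z2])],.ref k29 k1 [(z2,[z2,z1,z1,y2]),(z2,[z0,y1,y1,z2]),(z2,[y2,y1,z1,z2])],.ref k18 k0 [(z1,[z0,
    z1]),(z2,[y1,z0,z1]),(z2,[z0,y1,y1,z2])],.ref k76 k0 [(z1,[z0,z1]),(z1,[y1,z0,z1]),(z2,[z0,y1,y1,z2])],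
    .ref k77 k0 [(z2,[y1,z3]),(z2,[z1,z0,z3]),(z2,[y2,y3,y3,z6])]],
    .base (.leafM k0 [k1,k2,k3,k4,k0] [(z1,[z0,z1])] []),
    .base (.spec k16 false k2 [(z1,[y1,y2,z2]),(z1,[z0,z1])]),
    .base (.leafM k0 [k4,k0,k1,k2,k3] [(z4,[z0,y1,y2,y1,z4])] []),
    .base (.leafM k0 [k2,k3,k4,k0,k1] [(z3,[z0,z0,z1,z1])] []),
    .lp k0 [k112,k136,k80,k116,k90] [k12,k12,k0,k0,k24,k32,k10,k10,k23,k23] k0 [[k0,k0,k0,k0,k8,k0,k0,k0,k0,k0],[k0,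
    k0,k0,k0,k0,k0,k0,k0,k0,k0],[k0,k0,k0,k0,k0,k0,k0,k0,k0,k0],[k0,k0,k0,k0,k8,k0,k0,k0,k0,k0],[k0,k0,k0,k0,k0,k16,
    k0,k0,k0,k0],[k0,k8,k8,k0,k0,k0,k0,k0,k0,k0],[k0,k0,k0,k0,k0,k0,k0,k0,k0,k0],[k0,k0,k0,k0,k0,k0,k0,k0,k22,k0],[k0,
    k0,k0,k0,k0,k0,k0,k0,k0,k0],[k0,k0,k0,k0,k0,k0,k22,k0,k0,k0]] (nat_lit 360) k6
    [[(k9,k79),(k8,k101),(k1,k112),(k6,k114)],[(k5,k92),(k4,k100),(k7,k106),(k0,k112),(k2,k124),(k3,k124)],[(k5,k104),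
    (k4,k120),(k0,k124),(k7,k126),(k2,k136),(k3,k136)],[(k5,k104),(k4,k120),(k0,k124),(k7,k126),(k2,k136),(k3,k136)],
    [(k5,k72),(k4,k80),(k7,k86),(k0,k92),(k2,k104),(k3,k104)],[(k4,k72),(k5,k80),(k0,k100),(k7,k102),(k2,k120),(k3,
    k120)],[(k5,k86),(k4,k102),(k0,k106),(k2,k126),(k3,k126),(k7,k132)],[(k9,k103),(k1,k114),(k6,k116),(k8,k125)],
    [(k1,k79),(k8,k90),(k9,k90),(k6,k103)],[(k8,k90),(k9,k90),(k1,k101),(k6,k125)]]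
    [[k2,k0,k1,k0,k0],[k1,k0,k1,k1,k0],[k2,k0,k0,k0,k1],[k1,k0,k0,k1,k1],[k0,k1,k2,k0,k0],[k0,k0,k3,k0,k0],[k0,k0,k4,
    k0,k0],[k0,k0,k1,k2,k0],[k0,k0,k0,k0,k3]]
    [.contra [z1,y1],.ref k16 k0 [(z1,[z0,z1]),(z1,[y1,z0,z1,z0,z1]),(z1,[z2,z0,z1,z3,y2]),(z1,[z2,y3,y2,y6,z4])],
    .contra [z1,y1,z1],.contra [z1,z0,z1,z1,y1],.ref k16 k0 [(z1,[z0,z1]),(z1,[y1,z0,z2,z2]),(z1,[z2,z0,y1,y1]),(z1,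
    [z2,y3,y4,y10,z6])],.ref k16 k0 [(z1,[z0,z1]),(z2,[y1,z0,z3,z3]),(z1,[z1]),(z1,[z1,y3,y3,y9,z6])],
    .ref k81 k0 [(z1,[z0,z1]),(z2,[y1,z0,z4,z4]),(z2,[z1]),(z2,[z1,y4,y4,y12,z8])],.ref k81 k0 [(z1,[z0,z1]),(z1,[y1,
    y1,z1,y1,z2]),(z1,[z1,z1,z1,z3,y2]),(z1,[z1,y1,y1,y3,z2])],.ref k82 k0 [(z1,[z0,z1]),(z1,[z1,z0,z3]),(z1,[y1,z0,
    z0,z3]),(z2,[y1,y3,y3,y6,z6])]]]

theorem hB5_23_6 : blkB [0, 0, 0, 1, 1] [] sp5 hS5_23 (pcls (n := 5) [0, 0, 0, 1, 1]) hD5_23 141 6 hN5_23_6 = true := by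
  decide +kernel

/-- nodes 84 to 95 -/
noncomputable def hN5_23_7 : List HM :=
  [.base (.spec k16 false k2 [(z3,[y1,y2,y2,z6]),(z3,[z0,z1,z2])]),
    .base (.geo z12 k0 [(z7,z0),(z10,z0),(z4,z0),(z9,z0),(z6,z0)] [(z1,[z1]),(z1,[z0,z2]),(z1,[z0,z0,z4]),(z1,[z0,z0,
    z0,z3]),(z1,[y1,y2,y4,y3,z12])] k1),
    .lp k0 [k133,(nat_lit 236),k128,k182,(nat_lit 216)] [k83,k74,k54,k0,k75,k87,k46,k62,k36,k38] k0 [[k0,k0,k0,k0,k4,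
    k0,k0,k0,k0,k0],[k0,k0,k0,k0,k108,k0,k0,k0,k0,k0],[k0,k0,k0,k4,k0,k0,k0,k0,k0,k0],[k0,k0,k0,k0,k0,k0,k0,k0,k0,k0],
    [k0,k0,k0,k0,k0,k20,k0,k0,k0,k0],[k108,k4,k0,k0,k0,k0,k0,k0,k0,k0],[k0,k0,k0,k0,k0,k0,k0,k0,k50,k0],[k0,k0,k0,k0,
    k0,k0,k0,k0,k0,k0],[k0,k0,k0,k0,k0,k0,k0,k0,k0,k98],[k0,k0,k0,k0,k0,k0,k0,k50,k0,k0]] (nat_lit 600) k6
    [[(k6,k120),(k9,k178),(k8,k180),(k1,(nat_lit 240))],[(k5,k120),(k0,k124),(k7,k141),(k2,k153),(k3,(nat_lit 207)),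
    (k4,(nat_lit 240))],[(k7,k120),(k5,(nat_lit 203)),(k0,(nat_lit 207)),(k4,(nat_lit 219)),(k2,(nat_lit 236)),(k3,
    (nat_lit 290))],[(k5,k149),(k0,k153),(k4,k161),(k7,k174),(k2,k178),(k3,(nat_lit 236))],[(k0,k120),(k5,k120),(k4,
    k128),(k7,k141),(k2,k149),(k3,(nat_lit 203))],[(k4,k120),(k5,k128),(k7,k153),(k2,k161),(k3,(nat_lit 219)),(k0,
    (nat_lit 240))],[(k3,k120),(k0,k141),(k5,k141),(k4,k153),(k2,k174),(k7,k186)],[(k1,k120),(k6,k198),(k9,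
    (nat_lit 206)),(k8,(nat_lit 208))],[(k1,k178),(k6,(nat_lit 206)),(k9,(nat_lit 214)),(k8,(nat_lit 266))],[(k8,
    k120),(k1,k180),(k6,(nat_lit 208)),(k9,(nat_lit 266))]]
    [[k2,k0,k0,k2,k0],[k1,k1,k0,k1,k0],[k1,k1,k1,k1,k0],[k1,k0,k1,k1,k0],[k1,k0,k2,k1,k0],[k2,k0,k0,k0,k1],[k1,k0,k0,
    k1,k1],[k0,k1,k2,k0,k0],[k0,k1,k0,k2,k0],[k0,k0,k3,k0,k0],[k0,k0,k4,k0,k0],[k0,k0,k1,k2,k0]]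
    [.contra [y3,z0,z2,y2,z6],.contra [y3,z0,z1,y1,z3],.contra [y1,z0,z1,z0,z1],.ref k73 k0 [(z3,[z3,z4,z1,z0,y3]),
    (z1,[y1,z0,z1,z0,z1]),(z3,[z3,z0,z1,z2,y3]),(z3,[z9,y4,y5,y8,z15])],.ref k85 k0 [(z3,[z3,z6,z1,y1,y3]),(z3,[y3,z0,
    z5,z1,z3]),(z3,[z3,z0,z1,z2,y3]),(z3,[z3,y2,y3,y5,z9])],.contra [z3,y1,z2],.contra [z3,z0,z2,z1,y3],.contra [z3,
    y1,y3,y4,z6],.contra [y3,y1,z1,y2,z6],.contra [z3,y2,y4,y7,z12],.ref k73 k0 [(z6,[z3,z8,z0,y4]),(z6,[y3,z0,z8,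
    z4]),(z2,[z1]),(z6,[z9,y8,y16,y28,z48])],.ref k59 k0 [(z6,[z3,z6,z2,z1,y6]),(z3,[y3,y1,z3,y1,z6]),(z3,[z6,z2,z4,
    z7,y12]),(z6,[z9,y2,y4,y7,z12])]],
    .lp k0 [k150,(nat_lit 204),k191,k150,(nat_lit 200)] [k50,k50,k23,k23,k47,k12,k50,k50,k0,k50] k0 [[k0,k0,k38,k14,
    k0,k0,k0,k0,k0,k0],[k50,k0,k0,k0,k0,k0,k0,k0,k0,k0],[k0,k14,k0,k0,k27,k0,k0,k0,k0,k0],[k0,k38,k0,k0,k14,k0,k0,k0,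
    k0,k0],[k0,k0,k0,k0,k0,k0,k0,k0,k0,k0],[k0,k0,k14,k27,k0,k0,k0,k0,k0,k0],[k0,k0,k0,k0,k0,k0,k0,k0,k0,k50],[k0,k0,
    k0,k0,k0,k0,k0,k0,k0,k0],[k0,k0,k0,k0,k0,k0,k0,k50,k0,k0],[k0,k0,k0,k0,k0,k0,k0,k0,k0,k0]] (nat_lit 600) k5
    [[(k1,k150),(k6,k150),(k8,(nat_lit 200)),(k9,(nat_lit 200))],[(k5,k150),(k7,k150),(k4,k153),(k2,k163),(k3,k177),
    (k0,(nat_lit 200))],[(k3,k154),(k0,k177),(k7,k177),(k4,k180),(k5,(nat_lit 229)),(k2,(nat_lit 242))],[(k7,k150),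
    (k0,k163),(k4,k194),(k2,(nat_lit 204)),(k5,(nat_lit 215)),(k3,(nat_lit 242))],[(k0,k150),(k7,k174),(k2,
    (nat_lit 215)),(k4,(nat_lit 218)),(k5,(nat_lit 226)),(k3,(nat_lit 229))],[(k0,k153),(k7,k153),(k4,k156),(k3,k180),
    (k2,k194),(k5,(nat_lit 218))],[(k0,k150),(k2,k150),(k7,k150),(k4,k153),(k5,k174),(k3,k177)],[(k1,k150),(k6,k150),
    (k8,k150),(k9,k150)],[(k6,k150),(k9,k150),(k1,(nat_lit 200)),(k8,(nat_lit 200))],[(k6,k150),(k1,(nat_lit 200)),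
    (k9,(nat_lit 200)),(k8,(nat_lit 250))]]
    [[k2,k1,k0,k0,k0],[k2,k0,k1,k0,k0],[k1,k1,k0,k1,k0],[k1,k0,k1,k1,k0],[k1,k0,k0,k1,k1],[k0,k2,k1,k0,k0],[k0,k1,k0,
    k2,k0],[k0,k0,k1,k2,k0],[k0,k0,k0,k2,k1]]
    [.ref k58 k0 [(z1,[z0,z1]),(z1,[z1,y1]),(z1,[y1,z0,y1,z2])],.ref k44 k1 [(z1,[z2,y1,z2,y2]),(z1,[z1,y1]),(z1,[y2,
    z1,y1,z2])],.ref k70 k0 [(z1,[z0,z1]),(z1,[z2,y1,y1]),(z1,[y1,z0,z0,z1])],.ref k83 k1 [(z1,[z1,z0,z1,y1]),(z1,[z1,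
    y1,y1,z1]),(z1,[y1,z0,z0,z1])],.contra [z1,y1,y1,z1],.ref k84 k1 [(z1,[y2,y1,z2,z2]),(z1,[y1,y2,y2,z4]),(z1,[z2,
    z1,z1,y2])],.contra [z1,z1,y1],.ref k86 k1 [(z1,[z2,z1,z2,y2]),(z1,[z1,y1,y2,z2]),(z1,[y2,y1,z1,z2])],.contra [z1,
    y1,y2,z2]],
    .base (.leafM k0 [k1,k2,k3,k4,k0] [(z3,[z0,z1,z1])] []),
    .base (.leafM k5 [k1,k2,k3,k4,k0] [(z1,[z0,z0,z1]),(z6,[y1,y4,y6,y3,z12])] []),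
    .base (.geo z9 k0 [(z6,z0),(z6,z0),(z4,z0),(z7,z0),(z4,z0)] [(z1,[z3]),(z1,[z0,z3]),(z1,[z0,z0,z1]),(z1,[z0,z0,z0,
    z1]),(z1,[y3,y3,y1,y1,z9])] k1),
    .lp k0 [k90,k60,k80,k66,k60] [k0,k30,k30,k30,k12,k28,k27,k27,k30,k30] k0 [[k0,k0,k0,k0,k0,k48,k0,k0,k0,k0],[k0,k0,
    k0,k0,k0,k0,k0,k0,k0,k0],[k0,k0,k0,k0,k0,k0,k0,k0,k0,k0],[k0,k0,k0,k0,k0,k0,k0,k0,k0,k0],[k0,k48,k0,k0,k0,k0,k0,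
    k0,k0,k0],[k0,k0,k0,k0,k0,k0,k0,k0,k0,k0],[k0,k0,k0,k0,k0,k0,k0,k0,k0,k0],[k0,k0,k0,k0,k0,k0,k0,k0,k0,k0],[k0,k0,
    k0,k0,k0,k0,k0,k0,k0,k0],[k0,k0,k0,k0,k0,k0,k0,k0,k0,k0]] (nat_lit 240) k5
    [[(k1,k60),(k8,k60),(k9,k60),(k6,k63)],[(k4,k60),(k2,k90),(k3,k90),(k5,k92),(k7,k93),(k0,k120)],[(k2,k60),(k3,
    k60),(k5,k62),(k4,k78),(k0,k90),(k7,k111)],[(k2,k60),(k3,k60),(k5,k62),(k7,k63),(k4,k78),(k0,k90)],[(k2,k62),(k3,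
    k62),(k5,k64),(k7,k65),(k4,k80),(k0,k92)],[(k0,k60),(k2,k78),(k3,k78),(k5,k80),(k7,k81),(k4,k96)],[(k2,k63),(k5,
    k65),(k7,k66),(k4,k81),(k0,k93),(k3,k111)],[(k1,k63),(k8,k63),(k9,k63),(k6,k66)],[(k1,k60),(k8,k60),(k9,k60),(k6,
    k63)],[(k1,k60),(k8,k60),(k9,k60),(k6,k63)]]
    [[k2,k0,k1,k0,k0],[k1,k1,k0,k1,k0],[k1,k0,k1,k1,k0],[k1,k0,k0,k1,k1],[k0,k3,k0,k0,k0],[k0,k2,k1,k0,k0],[k0,k1,k2,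
    k0,k0],[k0,k0,k1,k2,k0],[k0,k0,k0,k2,k1],[k0,k0,k0,k0,k3]]
    [.ref k40 k1 [(z2,[z9,y12,y6,y5,z6]),(z1,[z0,z0,z0,z1]),(z1,[y3,z3,z3,z1]),(z2,[z3,z0,z0,y1])],.ref k88 k0 [(z1,
    [z3,z3,z0,z1,y3]),(z1,[y3,z0,z3,y1,z3]),(z1,[z0,z0,z0,z1]),(z1,[z9,y3,y6,z1,y3])],.ref k89 k1 [(z1,[z9,y6,y3,y4,
    z3]),(z1,[z0,z0,z0,z1]),(z1,[y1,z0,z1,z0,z1]),(z1,[z1,z2,z1,z0,y1])],.ref k88 k0 [(z1,[z3,z3,z3,z1,y3]),(z1,[y3,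
    z0,z0,y1,z3]),(z1,[z0,z0,z0,z1]),(z1,[z9,y3,z3,z1,y3])],.ref k40 k1 [(z2,[y3,y3,z3,y2,z6]),(z1,[z0,z0,z0,z1]),(z1,
    [z1]),(z2,[y1,z3,z3])],.ref k40 k1 [(z4,[y9,y6,z6,y1,z12]),(z1,[z0,z0,z0,z1]),(z2,[z3,z0,z0,y1]),(z4,[y3,z6,z6,
    z1])],.ref k40 k1 [(z2,[y9,y3,z3,z4,z6]),(z1,[z0,z0,z0,z1]),(z1,[z3,z0,z0,y2]),(z2,[y3,z3,z3,z2])],
    .ref k90 k1 [(z2,[z3,z0,z0,y1]),(z1,[z0,z0,z0,z1]),(z1,[y3,y3,z3,y1,z6]),(z2,[z3,z12,z6,z1,y6])],.ref k88 k0 [(z2,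
    [z3,z9,z6,z2,y6]),(z2,[y3,y3,z0,y2,z6]),(z1,[z0,z0,z0,z1]),(z2,[z9,z3,z6,z2,y6])],.ref k40 k1 [(z2,[y3,y3,y6,y2,
    z6]),(z1,[z0,z0,z0,z1]),(z1,[z1,z0,z3]),(z2,[y1,z3])]],
    .lp k0 [k112,k136,k80,k116,k90] [k12,k12,k0,k0,k24,k32,k10,k10,k23,k23] k0 [[k0,k0,k0,k0,k8,k0,k0,k0,k0,k0],[k0,
    k0,k0,k0,k0,k0,k0,k0,k0,k0],[k0,k0,k0,k0,k0,k0,k0,k0,k0,k0],[k0,k0,k0,k0,k8,k0,k0,k0,k0,k0],[k0,k0,k0,k0,k0,k16,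
    k0,k0,k0,k0],[k0,k8,k8,k0,k0,k0,k0,k0,k0,k0],[k0,k0,k0,k0,k0,k0,k0,k0,k0,k0],[k0,k0,k0,k0,k0,k0,k0,k0,k22,k0],[k0,
    k0,k0,k0,k0,k0,k0,k0,k0,k0],[k0,k0,k0,k0,k0,k0,k22,k0,k0,k0]] (nat_lit 360) k6
    [[(k9,k79),(k8,k101),(k1,k112),(k6,k114)],[(k5,k92),(k4,k100),(k7,k106),(k0,k112),(k2,k124),(k3,k124)],[(k5,k104),
    (k4,k120),(k0,k124),(k7,k126),(k2,k136),(k3,k136)],[(k5,k104),(k4,k120),(k0,k124),(k7,k126),(k2,k136),(k3,k136)],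
    [(k5,k72),(k4,k80),(k7,k86),(k0,k92),(k2,k104),(k3,k104)],[(k4,k72),(k5,k80),(k0,k100),(k7,k102),(k2,k120),(k3,
    k120)],[(k5,k86),(k4,k102),(k0,k106),(k2,k126),(k3,k126),(k7,k132)],[(k9,k103),(k1,k114),(k6,k116),(k8,k125)],
    [(k1,k79),(k8,k90),(k9,k90),(k6,k103)],[(k8,k90),(k9,k90),(k1,k101),(k6,k125)]]
    [[k2,k0,k1,k0,k0],[k1,k0,k1,k1,k0],[k2,k0,k0,k0,k1],[k1,k0,k0,k1,k1],[k0,k1,k2,k0,k0],[k0,k0,k3,k0,k0],[k0,k0,k4,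
    k0,k0],[k0,k0,k1,k2,k0],[k0,k0,k0,k0,k3]]
    [.contra [z3,y1,z1,y3],.ref k16 k0 [(z3,[y3,z1,y1,z0,z3]),(z1,[z0,z0,z1]),(z1,[z3,z0,z1,z3,y3]),(z1,[z3,y1,y1,y6,
    z3])],.ref k67 k1 [(z4,[y3,y1,y4,y12,z12]),(z2,[y3,z1,z0,z6]),(z1,[z0,z0,z1]),(z4,[z3,z1])],.ref k67 k1 [(z2,[y3,
    y1,y3,y9,z9]),(z1,[y3,z0,y1,z0,z3]),(z1,[z0,z0,z1]),(z2,[z3,z1,z1,z3,y3])],.ref k16 k0 [(z6,[y3,z2,z1,z6]),(z1,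
    [z0,z0,z1]),(z2,[z3,z0,y1]),(z2,[z3,y2,y5,y18,z12])],.ref k16 k0 [(z3,[y1,z1,z0,z3]),(z1,[z0,z0,z1]),(z1,[z1]),
    (z1,[z1,y1,y2,y9,z6])],.ref k89 k0 [(z2,[y3,z4,z0,z12]),(z1,[z0,z0,z1]),(z2,[z1]),(z6,[z3,y4,y8,y36,z24])],
    .ref k89 k0 [(z1,[y3,z1,y2,y3,z6]),(z1,[z0,z0,z1]),(z3,[z3,z1,z2,z9,y6]),(z3,[z3,y1,y2,y9,z6])],.ref k67 k1 [(z2,
    [y1,y1,y2,y6,z6]),(z1,[y1,z0,z0,z3]),(z1,[z0,z0,z1]),(z2,[z1,z1])]],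
    .base (.leafM k0 [k1,k2,k3,k4,k0] [(z3,[z0,z1,z1])] []),
    .lp k0 [k66,k60,k80,k63,k90] [k12,k18,k18,k18,k0,k16,k15,k18,k3,k3] k0 [[k0,k0,k0,k0,k0,k24,k0,k0,k0,k0],[k0,k0,
    k0,k0,k0,k0,k0,k0,k0,k0],[k0,k0,k0,k0,k0,k4,k0,k0,k0,k0],[k0,k0,k0,k0,k0,k0,k0,k0,k0,k0],[k0,k24,k0,k4,k0,k0,k0,
    k0,k0,k0],[k0,k0,k0,k0,k0,k0,k0,k0,k0,k0],[k0,k0,k0,k0,k0,k0,k0,k0,k0,k18],[k0,k0,k0,k0,k0,k0,k30,k0,k0,k0],[k0,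
    k0,k0,k0,k0,k0,k0,k18,k0,k0],[k0,k0,k0,k0,k0,k0,k0,k0,k0,k0]] (nat_lit 240) k5
    [[(k1,k60),(k6,k63),(k8,k75),(k9,k93)],[(k4,k60),(k2,k66),(k3,k66),(k7,k66),(k5,k68),(k0,k72)],[(k2,k60),(k3,k60),
    (k5,k62),(k0,k66),(k4,k78),(k7,k84)],[(k2,k60),(k3,k60),(k7,k60),(k5,k62),(k0,k66),(k4,k74)],[(k2,k62),(k3,k62),
    (k5,k64),(k7,k66),(k0,k68),(k4,k80)],[(k0,k60),(k2,k74),(k3,k78),(k7,k78),(k5,k80),(k4,k96)],[(k2,k60),(k7,k60),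
    (k0,k66),(k5,k66),(k4,k78),(k3,k84)],[(k8,k60),(k1,k63),(k9,k78),(k6,k96)],[(k9,k60),(k6,k78),(k8,k90),(k1,k93)],
    [(k6,k60),(k1,k75),(k8,k90),(k9,k90)]]
    [[k2,k1,k0,k0,k0],[k2,k0,k1,k0,k0],[k1,k1,k0,k1,k0],[k1,k0,k1,k1,k0],[k1,k0,k0,k1,k1],[k0,k3,k0,k0,k0],[k0,k2,k1,
    k0,k0],[k0,k1,k2,k0,k0],[k0,k0,k0,k2,k1]]
    [.ref k91 k0 [(z1,[z0,z1]),(z1,[z1,y1]),(z2,[z0,y3,y1,z6])],.ref k68 k0 [(z4,[z6,z3,z1,y6]),(z4,[z2,y1,z1,y2]),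
    (z2,[z0,y3,y1,z6])],.ref k71 k0 [(z2,[z6,z3,y1]),(z2,[z6,y3,z1]),(z2,[z0,y3,y1,z6])],.ref k92 k1 [(z1,[z6,z0,z1,
    y6]),(z2,[z0,y3,y1,z6]),(z1,[y1,z0,z0,z1])],.ref k93 k0 [(z1,[z0,z1]),(z2,[y6,z3,z1]),(z2,[z0,y3,y1,z6])],
    .ref k84 k1 [(z1,[y2,z0,z1]),(z2,[z0,y3,y1,z6]),(z1,[z1])],.ref k84 k1 [(z2,[y6,y3,z1,z6]),(z2,[z0,y3,y1,z6]),(z4,
    [z6,z3,z1,y6])],.ref k84 k1 [(z1,[y6,y6,y1,z12]),(z2,[z0,y3,y1,z6]),(z1,[z3,z3,z1,y6])],.ref k93 k0 [(z1,[z0,z1]),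
    (z2,[y3,z0,z1]),(z2,[z0,y3,y1,z6])]],
    .lp k0 [k194,(nat_lit 236),k180,k197,(nat_lit 270)] [k44,k54,k0,k56,k56,k56,k39,k56,k11,k11] k0 [[k0,k0,k12,k0,k0,
    k0,k0,k0,k0,k0],[k0,k0,k0,k0,k0,k0,k0,k0,k0,k0],[k0,k0,k0,k0,k0,k56,k0,k0,k0,k0],[k0,k12,k0,k0,k0,k0,k0,k0,k0,k0],
    [k0,k0,k0,k56,k0,k0,k0,k0,k0,k0],[k0,k0,k0,k0,k0,k0,k0,k0,k0,k0],[k0,k0,k0,k0,k0,k0,k0,k0,k0,k62],[k0,k0,k0,k0,k0,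
    k0,k90,k0,k0,k0],[k0,k0,k0,k0,k0,k0,k0,k62,k0,k0],[k0,k0,k0,k0,k0,k0,k0,k0,k0,k0]] (nat_lit 720) k5
    [[(k1,k184),(k6,k199),(k8,(nat_lit 227)),(k9,(nat_lit 289))],[(k5,k180),(k3,k192),(k4,k192),(k7,k192),(k0,
    (nat_lit 204)),(k2,(nat_lit 248))],[(k3,k180),(k4,k180),(k5,k180),(k7,k180),(k0,k192),(k2,(nat_lit 248))],[(k4,
    k180),(k5,(nat_lit 236)),(k7,(nat_lit 236)),(k0,(nat_lit 248)),(k3,(nat_lit 248)),(k2,(nat_lit 292))],[(k0,k180),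
    (k3,k180),(k4,k180),(k5,k180),(k2,(nat_lit 236)),(k7,(nat_lit 236))],[(k2,k180),(k3,k180),(k4,k180),(k5,k180),(k7,
    k180),(k0,k192)],[(k3,k180),(k4,k180),(k7,k180),(k0,k192),(k2,(nat_lit 236)),(k5,(nat_lit 236))],[(k8,k180),(k1,
    k199),(k9,(nat_lit 242)),(k6,(nat_lit 304))],[(k9,k180),(k6,(nat_lit 242)),(k8,(nat_lit 270)),(k1,(nat_lit 289))],
    [(k6,k180),(k1,(nat_lit 227)),(k8,(nat_lit 270)),(k9,(nat_lit 270))]]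
    [[k2,k1,k0,k0,k0],[k2,k0,k1,k0,k0],[k1,k1,k0,k1,k0],[k1,k0,k1,k1,k0],[k1,k0,k0,k1,k1],[k0,k2,k1,k0,k0],[k0,k1,k2,
    k0,k0],[k0,k0,k3,k0,k0],[k0,k0,k0,k2,k1]]
    [.ref k61 k0 [(z1,[z0,z1]),(z1,[z1,y1])],.ref k69 k0 [(z1,[z0,z1]),(z1,[y2,z1,z2])],.ref k78 k0 [(z1,[z0,z1]),(z1,
    [z2,y1])],.ref k22 k0 [(z1,[z0,z1]),(z1,[y1,z0,z1])],.ref k79 k0 [(z1,[z0,z1]),(z1,[y1,z0,z1])],.ref k80 k1 [(z1,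
    [y2,y1,z2]),(z1,[z1])],.ref k87 k0 [(z1,[z0,z1]),(z1,[y1,y1,z2])],.ref k94 k0 [(z1,[z0,z1]),(z1,[y2,y3,z6])],
    .ref k79 k0 [(z1,[z0,z1]),(z2,[y1,y1,z2])]]]

theorem hB5_23_7 : blkB [0, 0, 0, 1, 1] [] sp5 hS5_23 (pcls (n := 5) [0, 0, 0, 1, 1]) hD5_23 141 7 hN5_23_7 = true := by
  decide +kernel

/-- nodes 96 to 107 -/
noncomputable def hN5_23_8 : List HM :=
  [.base (.leafM k0 [k4,k0,k1,k2,k3] [(z1,[z1])] []),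
    .base (.leafM k0 [k3,k4,k0,k1,k2] [(z1,[y1,y1,z1])] []),
    .base (.leafM k0 [k3,k4,k0,k1,k2] [(z3,[y1,y1,y1,z3])] []),
    .base (.spec k3 false k0 [(z1,[z0,z1]),(z1,[z0,z0,z1])]),
    .base (.leafM k5 [k3,k4,k0,k1,k2] [(z4,[y1,y4,y2,y1,z8]),(z1,[z0,z1])] []),
    .base (.leafM k4 [k3,k4,k0,k1,k2] [(z4,[y1,y4,y2,y1,z12]),(z1,[z0,z1])] []),
    .lp k0 [k112,k136,k80,k116,k90] [k12,k12,k0,k0,k24,k32,k10,k10,k23,k23] k0 [[k0,k0,k0,k0,k8,k0,k0,k0,k0,k0],[k0,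
    k0,k0,k0,k0,k0,k0,k0,k0,k0],[k0,k0,k0,k0,k0,k0,k0,k0,k0,k0],[k0,k0,k0,k0,k8,k0,k0,k0,k0,k0],[k0,k0,k0,k0,k0,k16,
    k0,k0,k0,k0],[k0,k8,k8,k0,k0,k0,k0,k0,k0,k0],[k0,k0,k0,k0,k0,k0,k0,k0,k0,k0],[k0,k0,k0,k0,k0,k0,k0,k0,k22,k0],[k0,
    k0,k0,k0,k0,k0,k0,k0,k0,k0],[k0,k0,k0,k0,k0,k0,k22,k0,k0,k0]] (nat_lit 360) k6
    [[(k9,k79),(k8,k101),(k1,k112),(k6,k114)],[(k5,k92),(k4,k100),(k7,k106),(k0,k112),(k2,k124),(k3,k124)],[(k5,k104),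
    (k4,k120),(k0,k124),(k7,k126),(k2,k136),(k3,k136)],[(k5,k104),(k4,k120),(k0,k124),(k7,k126),(k2,k136),(k3,k136)],
    [(k5,k72),(k4,k80),(k7,k86),(k0,k92),(k2,k104),(k3,k104)],[(k4,k72),(k5,k80),(k0,k100),(k7,k102),(k2,k120),(k3,
    k120)],[(k5,k86),(k4,k102),(k0,k106),(k2,k126),(k3,k126),(k7,k132)],[(k9,k103),(k1,k114),(k6,k116),(k8,k125)],
    [(k1,k79),(k8,k90),(k9,k90),(k6,k103)],[(k8,k90),(k9,k90),(k1,k101),(k6,k125)]]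
    [[k2,k0,k1,k0,k0],[k1,k0,k1,k1,k0],[k2,k0,k0,k0,k1],[k1,k0,k0,k1,k1],[k0,k1,k2,k0,k0],[k0,k0,k3,k0,k0],[k0,k0,k4,
    k0,k0],[k0,k0,k1,k2,k0],[k0,k0,k0,k0,k3]]
    [.ref k1 k0 [(z2,[z1,z1,z0,y1]),(z2,[y2,z1,z3,z2]),(z1,[z2,y1,z0,z1]),(z2,[z1,y2,y3,y7,z6])],.ref k1 k0 [(z4,[z2,
    z3,z1,z0,y2]),(z1,[y1,z0,z1,z0,z1]),(z1,[z2,z0,z1,z3,y2]),(z4,[z2,y3,y5,y12,z10])],.contra [z2,y1,z1],.contra [z1,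
    z0,z1,z1,y1],.ref k1 k0 [(z4,[z2,z3,y1,y4]),(z1,[y1,z0,z2,z2]),(z1,[z2,z0,y1,y1]),(z4,[z2,y3,y7,y16,z12])],
    .ref k1 k0 [(z4,[z1,z3,z0,y3]),(z2,[y1,z0,z3,z3]),(z1,[z1]),(z4,[z1,y3,y6,y15,z12])],.ref k100 k1 [(z2,[z1,y4,y8,
    y20,z16]),(z2,[z1]),(z2,[y1,z0,z4,z4]),(z2,[z1,z4,z0,y4])],.ref k1 k0 [(z2,[z1,z2,z1,z1,y2]),(z2,[y2,y1,z1,y2,
    z4]),(z1,[z2,z1,z2,z5,y4]),(z2,[z1,y1,y2,y5,z4])],.ref k101 k1 [(z1,[y1,y3,y6,y12,z12]),(z1,[y1,z0,z0,z3]),(z1,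
    [z1,z0,z3]),(z1,[y1,z3])]],
    .base (.leafM k0 [k3,k4,k0,k1,k2] [(z1,[y1,y1,y1,z1])] []),
    .base (.spec k16 false k2 [(z3,[y1,y2,y2,z6]),(z3,[z0,z1,z2])]),
    .base (.geo z24 k0 [(z11,z0),(z18,z0),(z12,z0),(z15,z0),(z16,z0)] [(z1,[z1]),(z1,[z0,z6]),(z1,[z0,z0,z12]),(z1,
    [z0,z0,z0,z3]),(z1,[y1,y6,y12,y3,z24])] k1),
    .base (.spec k16 false k2 [(z9,[y1,y1,y1,z3,z9]),(z9,[z0,z1,z2])]),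
    .base (.geo z18 k0 [(z9,z0),(z14,z0),(z8,z0),(z11,z0),(z12,z0)] [(z1,[z9]),(z1,[z0,z2]),(z1,[z0,z0,z2]),(z1,[z0,
    z0,z0,z1]),(z1,[y9,y2,y2,y1,z18])] k1)]

theorem hB5_23_8 : blkB [0, 0, 0, 1, 1] [] sp5 hS5_23 (pcls (n := 5) [0, 0, 0, 1, 1]) hD5_23 141 8 hN5_23_8 = true := by
  decide +kernel

/-- nodes 108 to 119 -/
noncomputable def hN5_23_9 : List HM :=
  [.lp k0 [k155,(nat_lit 240),(nat_lit 254),k144,(nat_lit 284)] [k74,k63,k26,k26,k19,k19,k74,k74,k8,k0] k0 [[k0,k0,k0,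
    k35,k0,k0,k0,k0,k0,k0],[k0,k0,k0,k0,k24,k0,k0,k0,k0,k0],[k0,k35,k0,k0,k21,k0,k0,k0,k0,k0],[k0,k0,k0,k0,k0,k0,k0,
    k0,k0,k0],[k0,k0,k0,k0,k0,k63,k0,k0,k0,k0],[k24,k0,k0,k21,k0,k0,k0,k0,k0,k0],[k0,k0,k0,k0,k0,k0,k0,k0,k0,k0],[k0,
    k0,k0,k0,k0,k0,k0,k0,k85,k0],[k0,k0,k0,k0,k0,k0,k0,k0,k0,k132],[k0,k0,k0,k0,k0,k0,k85,k0,k0,k0]] (nat_lit 720) k6
    [[(k9,k144),(k6,k155),(k8,(nat_lit 221)),(k1,(nat_lit 298))],[(k0,k144),(k7,k144),(k2,k157),(k3,k192),(k5,k199),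
    (k4,(nat_lit 223))],[(k7,k168),(k0,k192),(k2,(nat_lit 240)),(k3,(nat_lit 240)),(k4,(nat_lit 247)),(k5,
    (nat_lit 282))],[(k0,k157),(k7,k171),(k2,(nat_lit 240)),(k3,(nat_lit 240)),(k4,(nat_lit 247)),(k5,(nat_lit 247))],
    [(k0,k199),(k7,k199),(k2,(nat_lit 247)),(k5,(nat_lit 254)),(k4,(nat_lit 275)),(k3,(nat_lit 282))],[(k4,k191),(k7,
    k199),(k0,(nat_lit 223)),(k2,(nat_lit 247)),(k3,(nat_lit 247)),(k5,(nat_lit 275))],[(k0,k144),(k3,k168),(k2,k171),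
    (k4,k199),(k5,k199),(k7,(nat_lit 207))],[(k6,k144),(k1,k155),(k9,(nat_lit 218)),(k8,(nat_lit 295))],[(k1,k144),
    (k6,(nat_lit 218)),(k8,(nat_lit 284)),(k9,(nat_lit 292))],[(k8,k144),(k1,(nat_lit 221)),(k9,(nat_lit 284)),(k6,
    (nat_lit 295))]]
    [[k2,k1,k0,k0,k0],[k2,k0,k0,k2,k0],[k1,k1,k0,k1,k0],[k1,k0,k1,k1,k0],[k1,k0,k0,k3,k0],[k2,k0,k0,k0,k1],[k2,k1,k0,
    k0,k1],[k1,k0,k0,k1,k1],[k2,k0,k0,k0,k2],[k1,k0,k0,k1,k2],[k0,k1,k0,k2,k0],[k0,k0,k1,k2,k0],[k0,k0,k0,k4,k0]]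
    [.ref k40 k1 [(z6,[y9,z2,z1]),(z9,[y9,z2,z1,z3]),(z9,[z18,y4,z1]),(z18,[z9,z4,y1])],.ref k40 k1 [(z4,[z9,y2]),(z6,
    [z9,y2,z0,z2]),(z3,[y9,z2,z1]),(z4,[y3,z2])],.contra [y36,z4,z4,z1],.ref k101 k0 [(z3,[y9,z5,z0,z1]),(z3,[y9,z1,
    z1,z1]),(z3,[z9,y1,z0,z1]),(z1,[z9,y1,z0,y1])],.ref k105 k1 [(z1,[z9,y1]),(z9,[z9,y1,z0,z4]),(z9,[y9,z1,z2]),(z1,
    [y1,z1])],.ref k40 k1 [(z2,[y9,z1,y1,y1,z9]),(z3,[y9,z1,y1,z0,z9]),(z3,[z18,y2,z3,z2,y18]),(z6,[z9,z1,z1,z1,y9])],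
    .ref k106 k0 [(z6,[z9,z5,z0,z1,y9]),(z3,[z18,y2,z3,z2,y18]),(z3,[y9,z1,z0,z2,z9]),(z6,[y9,z1,z0,y1,z9])],
    .contra [z9,z0,z1,z2,y9],.contra [z27,z2,z7,z6,y54],.contra [z36,z4,z8,z9,y72],.contra [y27,z2,z4],
    .ref k101 k0 [(z6,[y9,z8,z0,z1]),(z6,[y9,z0,z2,z1]),(z2,[z3,z0,z0,z1]),(z2,[z9,z0,z0,y1])],.ref k107 k1 [(z2,
    [z1]),(z2,[z3,z0,z0,z2]),(z1,[y3,z0,z1]),(z2,[y3,z4])]],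
    .lp k0 [(nat_lit 10608696),(nat_lit 13118280),(nat_lit 15304660),(nat_lit 9838710),
    (nat_lit 9838710)] [(nat_lit 3552722),(nat_lit 3552722),(nat_lit 3502670),(nat_lit 1093190),k0,(nat_lit 2409480),
    (nat_lit 3937715),(nat_lit 3937715),(nat_lit 3937715),(nat_lit 3937715)] k0 [[k0,k0,k0,k0,k0,k0,k0,k0,k0,k0],[k0,
    k0,k0,k0,(nat_lit 2840040),k0,k0,k0,k0,k0],[k0,k0,k0,k0,k0,(nat_lit 4372760),k0,k0,k0,k0],[k0,k0,k0,k0,k0,k0,k0,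
    k0,k0,k0],[k0,k0,k0,(nat_lit 4372760),k0,k0,k0,k0,k0,k0],[(nat_lit 2840040),k0,k0,k0,k0,k0,k0,k0,k0,k0],[k0,k0,k0,
    k0,k0,k0,k0,k0,k0,k0],[k0,k0,k0,k0,k0,k0,k0,k0,k0,k0],[k0,k0,k0,k0,k0,k0,k0,k0,k0,k0],[k0,k0,k0,k0,k0,k0,k0,k0,k0,
    k0]] (nat_lit 39354840) k5
    [[(k6,(nat_lit 10223703)),(k8,(nat_lit 10223703)),(k9,(nat_lit 10223703)),(k1,(nat_lit 10608696))],[(k7,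
    (nat_lit 10223703)),(k0,(nat_lit 10608696)),(k2,(nat_lit 10658748)),(k5,(nat_lit 11751938)),(k3,
    (nat_lit 13068228)),(k4,(nat_lit 17001458))],[(k7,(nat_lit 9843195)),(k0,(nat_lit 13068228)),(k2,
    (nat_lit 13118280)),(k5,(nat_lit 14211470)),(k3,(nat_lit 15527760)),(k4,(nat_lit 16620950))],[(k4,
    (nat_lit 9838710)),(k7,(nat_lit 10273755)),(k0,(nat_lit 10658748)),(k2,(nat_lit 10708800)),(k5,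
    (nat_lit 11801990)),(k3,(nat_lit 13118280))],[(k0,(nat_lit 11751938)),(k2,(nat_lit 11801990)),(k5,
    (nat_lit 12895180)),(k3,(nat_lit 14211470)),(k4,(nat_lit 15304660)),(k7,(nat_lit 15739705))],[(k2,
    (nat_lit 9838710)),(k7,(nat_lit 13776425)),(k5,(nat_lit 15304660)),(k3,(nat_lit 16620950)),(k0,
    (nat_lit 17001458)),(k4,(nat_lit 17714140))],[(k7,(nat_lit 9838710)),(k3,(nat_lit 9843195)),(k0,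
    (nat_lit 10223703)),(k2,(nat_lit 10273755)),(k4,(nat_lit 13776425)),(k5,(nat_lit 15739705))],[(k6,
    (nat_lit 9838710)),(k8,(nat_lit 9838710)),(k9,(nat_lit 9838710)),(k1,(nat_lit 10223703))],[(k6,(nat_lit 9838710)),
    (k8,(nat_lit 9838710)),(k9,(nat_lit 9838710)),(k1,(nat_lit 10223703))],[(k6,(nat_lit 9838710)),(k8,
    (nat_lit 9838710)),(k9,(nat_lit 9838710)),(k1,(nat_lit 10223703))]]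
    [[k2,k1,k0,k0,k0],[k1,k1,k0,k1,k0],[k1,k0,k1,k1,k0],[k2,k0,k0,k0,k1],[k1,k0,k0,k1,k1],[k0,k2,k1,k0,k0],[k0,k1,k0,
    k2,k0],[k0,k0,k0,k2,k1],[k0,k0,k0,k0,k3]]
    [.ref k98 k0 [(z6,[z3,z4,y1]),(z3,[z6,y4,z1]),(z3,[y3,y1,y2,z9])],.ref k99 k0 [(z3,[z3,z1,y1]),(z3,[z6,y2,y1]),
    (z1,[y1,z0,z0,z1])],.ref k102 k1 [(z1,[z3,z0,z1,y3]),(z3,[z3,y2,y1,z3]),(z1,[y1,z0,z0,z1])],.ref k44 k1 [(z1,[y3,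
    z2]),(z3,[y3,z1,y1,z3]),(z3,[z6,y4,z1])],.contra [z3,y2,y1,z3],.ref k98 k0 [(z6,[z3,z7,y1,y3]),(z3,[z6,z2,z1,y6]),
    (z3,[y3,y4,y2,z12])],.ref k103 k1 [(z2,[z3,z0,y1]),(z3,[z3,y1,y2,z3]),(z1,[y2,z0,z1])],.ref k104 k0 [(z1,[y1,z2]),
    (z1,[y2,z0,z1]),(z1,[z1,y1,y1,z3])],.ref k108 k0 [(z1,[y1,z3]),(z1,[y4,z0,z3]),(z1,[z2,y3,y3,z9])]],
    .base (.leafM k0 [k3,k4,k0,k1,k2] [(z2,[y1,y1,y2,z2])] []),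
    .base (.leafM k5 [k3,k4,k0,k1,k2] [(z2,[y1,y2,y1,z4]),(z1,[z0,z1])] []),
    .base (.leafM k4 [k3,k4,k0,k1,k2] [(z2,[y1,y2,y1,z6]),(z1,[z0,z1])] []),
    .lp k0 [k112,k136,k80,k116,k90] [k12,k12,k0,k0,k24,k32,k10,k10,k23,k23] k0 [[k0,k0,k0,k0,k8,k0,k0,k0,k0,k0],[k0,
    k0,k0,k0,k0,k0,k0,k0,k0,k0],[k0,k0,k0,k0,k0,k0,k0,k0,k0,k0],[k0,k0,k0,k0,k8,k0,k0,k0,k0,k0],[k0,k0,k0,k0,k0,k16,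
    k0,k0,k0,k0],[k0,k8,k8,k0,k0,k0,k0,k0,k0,k0],[k0,k0,k0,k0,k0,k0,k0,k0,k0,k0],[k0,k0,k0,k0,k0,k0,k0,k0,k22,k0],[k0,
    k0,k0,k0,k0,k0,k0,k0,k0,k0],[k0,k0,k0,k0,k0,k0,k22,k0,k0,k0]] (nat_lit 360) k6
    [[(k9,k79),(k8,k101),(k1,k112),(k6,k114)],[(k5,k92),(k4,k100),(k7,k106),(k0,k112),(k2,k124),(k3,k124)],[(k5,k104),
    (k4,k120),(k0,k124),(k7,k126),(k2,k136),(k3,k136)],[(k5,k104),(k4,k120),(k0,k124),(k7,k126),(k2,k136),(k3,k136)],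
    [(k5,k72),(k4,k80),(k7,k86),(k0,k92),(k2,k104),(k3,k104)],[(k4,k72),(k5,k80),(k0,k100),(k7,k102),(k2,k120),(k3,
    k120)],[(k5,k86),(k4,k102),(k0,k106),(k2,k126),(k3,k126),(k7,k132)],[(k9,k103),(k1,k114),(k6,k116),(k8,k125)],
    [(k1,k79),(k8,k90),(k9,k90),(k6,k103)],[(k8,k90),(k9,k90),(k1,k101),(k6,k125)]]
    [[k2,k0,k1,k0,k0],[k1,k0,k1,k1,k0],[k2,k0,k0,k0,k1],[k1,k0,k0,k1,k1],[k0,k1,k2,k0,k0],[k0,k0,k3,k0,k0],[k0,k0,k4,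
    k0,k0],[k0,k0,k1,k2,k0],[k0,k0,k0,k0,k3]]
    [.ref k110 k0 [(z2,[z2,z1,z1,y2]),(z1,[z0,z0,z1]),(z2,[z0,y1,y1,z2])],.ref k13 k0 [(z2,[z2,z3,z1,y2]),(z1,[y1,z0,
    z1,z1]),(z2,[z4,y3,y1,z2])],.ref k29 k1 [(z1,[y1,z1]),(z2,[z0,y1,y1,z2]),(z1,[z0,z0,z1])],.contra [z2,y1,z1],
    .ref k13 k0 [(z2,[z2,z5,z1,y4]),(z1,[y1,y1,z1,z2]),(z2,[z4,z1,y1,y2])],.ref k13 k0 [(z4,[z2,z9,z3,y6]),(z4,[y2,y3,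
    z3,z6]),(z1,[z1])],.ref k111 k1 [(z2,[z1,z6,z2,y4]),(z2,[z1]),(z2,[y1,y2,z2,z4])],.ref k8 k1 [(z2,[z2,z1,z1,y2]),
    (z2,[z0,y1,y1,z2]),(z1,[z0,z0,z1])],.ref k112 k1 [(z1,[y1,z3]),(z2,[y2,y3,y3,z6]),(z1,[z1,z0,z3])]],
    .base (.leafM k0 [k4,k0,k1,k2,k3] [(z1,[z1])] []),
    .base (.leafM k0 [k3,k4,k0,k1,k2] [(z1,[y1,y1,y1,z1])] []),
    .base (.geo z9 k3 [(z7,y3),(z4,z6),(z10,y12),(z0,z9),(z6,z0)] [(z1,[z1]),(z1,[z0,z1]),(z1,[z0,z0,z1]),(z1,[]),(z1,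
    [y1,y1,y1,z9])] k5),
    .lp k0 [(nat_lit 9838710),(nat_lit 15304660),(nat_lit 13118280),(nat_lit 10608696),
    (nat_lit 9838710)] [(nat_lit 3937715),(nat_lit 3937715),(nat_lit 2409480),k0,(nat_lit 1093190),(nat_lit 3502670),
    (nat_lit 3552722),(nat_lit 3552722),(nat_lit 3937715),(nat_lit 3937715)] k0 [[k0,k0,k0,k0,k0,(nat_lit 2840040),k0,
    k0,k0,k0],[k0,k0,(nat_lit 4372760),k0,k0,k0,k0,k0,k0,k0],[k0,k0,k0,k0,k0,k0,k0,k0,k0,k0],[(nat_lit 4372760),k0,k0,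
    k0,k0,k0,k0,k0,k0,k0],[k0,(nat_lit 2840040),k0,k0,k0,k0,k0,k0,k0,k0],[k0,k0,k0,k0,k0,k0,k0,k0,k0,k0],[k0,k0,k0,k0,
    k0,k0,k0,k0,k0,k0],[k0,k0,k0,k0,k0,k0,k0,k0,k0,k0],[k0,k0,k0,k0,k0,k0,k0,k0,k0,k0],[k0,k0,k0,k0,k0,k0,k0,k0,k0,
    k0]] (nat_lit 39354840) k5
    [[(k1,(nat_lit 9838710)),(k8,(nat_lit 9838710)),(k9,(nat_lit 9838710)),(k6,(nat_lit 10223703))],[(k0,
    (nat_lit 9838710)),(k4,(nat_lit 9843195)),(k7,(nat_lit 10223703)),(k5,(nat_lit 10273755)),(k3,(nat_lit 13776425)),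
    (k2,(nat_lit 15739705))],[(k5,(nat_lit 9838710)),(k0,(nat_lit 13776425)),(k2,(nat_lit 15304660)),(k4,
    (nat_lit 16620950)),(k7,(nat_lit 17001458)),(k3,(nat_lit 17714140))],[(k7,(nat_lit 11751938)),(k5,
    (nat_lit 11801990)),(k2,(nat_lit 12895180)),(k4,(nat_lit 14211470)),(k3,(nat_lit 15304660)),(k0,
    (nat_lit 15739705))],[(k3,(nat_lit 9838710)),(k0,(nat_lit 10273755)),(k7,(nat_lit 10658748)),(k5,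
    (nat_lit 10708800)),(k2,(nat_lit 11801990)),(k4,(nat_lit 13118280))],[(k0,(nat_lit 9843195)),(k7,
    (nat_lit 13068228)),(k5,(nat_lit 13118280)),(k2,(nat_lit 14211470)),(k4,(nat_lit 15527760)),(k3,
    (nat_lit 16620950))],[(k0,(nat_lit 10223703)),(k7,(nat_lit 10608696)),(k5,(nat_lit 10658748)),(k2,
    (nat_lit 11751938)),(k4,(nat_lit 13068228)),(k3,(nat_lit 17001458))],[(k1,(nat_lit 10223703)),(k8,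
    (nat_lit 10223703)),(k9,(nat_lit 10223703)),(k6,(nat_lit 10608696))],[(k1,(nat_lit 9838710)),(k8,
    (nat_lit 9838710)),(k9,(nat_lit 9838710)),(k6,(nat_lit 10223703))],[(k1,(nat_lit 9838710)),(k8,(nat_lit 9838710)),
    (k9,(nat_lit 9838710)),(k6,(nat_lit 10223703))]]
    [[k2,k0,k1,k0,k0],[k1,k1,k0,k1,k0],[k1,k0,k1,k1,k0],[k2,k0,k0,k0,k1],[k1,k0,k0,k1,k1],[k0,k1,k2,k0,k0],[k0,k0,k1,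
    k2,k0],[k0,k0,k0,k2,k1],[k0,k0,k0,k0,k3]]
    [.ref k98 k0 [(z6,[z3,z5,z1,y3]),(z3,[y3,z1,z2,z3]),(z3,[z6,y5,y1,z3])],.ref k102 k0 [(z3,[y3,z5,z1]),(z3,[z3,y1,
    z1]),(z1,[y1,z0,z0,z1])],.ref k7 k0 [(z3,[z3,z2,z1,y3]),(z1,[y1,z0,z0,z1]),(z3,[z6,y1,z1,y3])],.ref k38 k1 [(z1,
    [y3,z2]),(z3,[z6,y5,y1,z3]),(z3,[y3,z2,z1])],.contra [z3,y1,z1],.ref k98 k0 [(z6,[z3,z8,z1,y6]),(z3,[y3,y2,z2,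
    z6]),(z3,[z6,z1,y1,y3])],.ref k115 k1 [(z2,[z3,z1,z1,y3]),(z1,[y2,y1,y1,z3]),(z3,[z3,z1,z2,y3])],.ref k86 k0 [(z1,
    [y1,z2]),(z1,[z1,z0,z1]),(z1,[y2,y1,y1,z3])],.ref k116 k0 [(z1,[y1,z3]),(z1,[z2,z0,z3]),(z1,[y4,y3,y3,z9])]],
    .lp k0 [k60,k78,k78,k60,k80] [k10,k10,k1,k1,k1,k1,k10,k10,k0,k0] k0 [[k0,k0,k6,k6,k0,k0,k0,k0,k0,k0],[k0,k0,k0,k0,
    k0,k0,k0,k0,k0,k0],[k0,k6,k0,k0,k6,k0,k0,k0,k0,k0],[k0,k6,k0,k0,k6,k0,k0,k0,k0,k0],[k0,k0,k0,k0,k0,k0,k0,k0,k0,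
    k0],[k0,k0,k6,k6,k0,k0,k0,k0,k0,k0],[k0,k0,k0,k0,k0,k0,k0,k0,k0,k0],[k0,k0,k0,k0,k0,k0,k0,k0,k0,k0],[k0,k0,k0,k0,
    k0,k0,k0,k0,k0,k0],[k0,k0,k0,k0,k0,k0,k0,k0,k0,k0]] (nat_lit 240) k5
    [[(k1,k60),(k6,k60),(k8,k70),(k9,k70)],[(k0,k60),(k7,k60),(k2,k63),(k5,k63),(k3,k69),(k4,k69)],[(k0,k69),(k7,k69),
    (k3,k78),(k4,k78),(k2,k84),(k5,k84)],[(k0,k63),(k7,k63),(k2,k78),(k5,k78),(k3,k84),(k4,k84)],[(k0,k63),(k7,k63),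
    (k2,k78),(k5,k78),(k3,k84),(k4,k84)],[(k0,k69),(k7,k69),(k3,k78),(k4,k78),(k2,k84),(k5,k84)],[(k0,k60),(k7,k60),
    (k2,k63),(k5,k63),(k3,k69),(k4,k69)],[(k1,k60),(k6,k60),(k8,k70),(k9,k70)],[(k1,k70),(k6,k70),(k8,k80),(k9,k80)],
    [(k1,k70),(k6,k70),(k8,k80),(k9,k80)]]
    [[k2,k1,k0,k0,k0],[k2,k0,k1,k0,k0],[k1,k1,k0,k1,k0],[k1,k0,k1,k1,k0],[k2,k0,k0,k0,k1],[k1,k0,k0,k1,k1],[k0,k1,k0,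
    k2,k0],[k0,k0,k1,k2,k0],[k0,k0,k0,k2,k1]]
    [.ref k97 k0 [(z2,[z1,z1,y1]),(z1,[z0,y1,z1])],.ref k109 k0 [(z1,[z1,z1]),(z1,[y2,z1,z3])],.ref k34 k0 [(z1,[y1,
    z1,z1]),(z1,[z2,y1,y1])],.ref k113 k1 [(z1,[z1,z1]),(z1,[z1,y1])],.ref k87 k0 [(z1,[z1]),(z1,[y1,z1,z1])],
    .contra [z1,y1],.ref k114 k0 [(z2,[y1,z1,z1]),(z1,[z1])],.ref k117 k1 [(z1,[z1,z1]),(z1,[z1,y2])],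
    .ref k80 k0 [(z1,[y1,z2]),(z1,[z0,y1,z1])]],
    .base (.leafM k0 [k1,k2,k3,k4,k0] [(z1,[y1,z1])] [])]

theorem hB5_23_9 : blkB [0, 0, 0, 1, 1] [] sp5 hS5_23 (pcls (n := 5) [0, 0, 0, 1, 1]) hD5_23 141 9 hN5_23_9 = true := by
  decide +kernel

/-- nodes 120 to 131 -/
noncomputable def hN5_23_10 : List HM :=
  [.base (.leafM k0 [k1,k2,k3,k4,k0] [(z1,[z0,z1,z1])] []),
    .base (.leafM k0 [k4,k0,k1,k2,k3] [(z3,[z0,y1,y1,z3])] []),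
    .base (.leafM k6 [k1,k2,k3,k4,k0] [(z1,[z0,z0,z1]),(z2,[y1,y1,y2,z6])] []),
    .lp k0 [(nat_lit 141414),(nat_lit 145040),(nat_lit 108780),(nat_lit 168720),(nat_lit 87024)] [(nat_lit 13653),
    (nat_lit 13653),(nat_lit 11840),(nat_lit 11840),(nat_lit 29970),(nat_lit 29970),k0,k0,(nat_lit 40848),
    (nat_lit 40848)] k0 [[k0,k0,k0,k0,k0,k0,k0,k0,k0,k0],[k0,k0,(nat_lit 23520),k0,(nat_lit 43512),k0,k0,k0,k0,k0],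
    [k0,k0,k0,k0,k0,k0,k0,k0,k0,k0],[(nat_lit 23520),k0,k0,k0,k0,k0,k0,k0,k0,k0],[k0,k0,k0,k0,k0,k0,k0,k0,k0,k0],
    [(nat_lit 43512),k0,k0,k0,k0,k0,k0,k0,k0,k0],[k0,k0,k0,k0,k0,k0,k0,k0,k0,k0],[k0,k0,k0,k0,k0,k0,k0,k0,
    (nat_lit 10878),k0],[k0,k0,k0,k0,k0,k0,k0,k0,k0,k0],[k0,k0,k0,k0,k0,k0,(nat_lit 10878),k0,k0,
    k0]] (nat_lit 435120) k6
    [[(k9,(nat_lit 103341)),(k8,(nat_lit 114219)),(k1,(nat_lit 141414)),(k6,(nat_lit 155067))],[(k5,(nat_lit 125097)),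
    (k0,(nat_lit 141414)),(k3,(nat_lit 143227)),(k7,(nat_lit 155067)),(k2,(nat_lit 166747)),(k4,(nat_lit 168609))],
    [(k5,(nat_lit 103390)),(k7,(nat_lit 113368)),(k4,(nat_lit 126910)),(k0,(nat_lit 143227)),(k2,(nat_lit 145040)),
    (k3,(nat_lit 145040))],[(k4,(nat_lit 126910)),(k5,(nat_lit 126910)),(k2,(nat_lit 145040)),(k3,(nat_lit 145040)),
    (k7,(nat_lit 156880)),(k0,(nat_lit 166747))],[(k3,(nat_lit 103390)),(k4,(nat_lit 108780)),(k5,(nat_lit 108780)),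
    (k0,(nat_lit 125097)),(k2,(nat_lit 126910)),(k7,(nat_lit 138750))],[(k4,(nat_lit 108780)),(k5,(nat_lit 108780)),
    (k2,(nat_lit 126910)),(k3,(nat_lit 126910)),(k7,(nat_lit 138750)),(k0,(nat_lit 168609))],[(k3,(nat_lit 113368)),
    (k4,(nat_lit 138750)),(k5,(nat_lit 138750)),(k0,(nat_lit 155067)),(k2,(nat_lit 156880)),(k7,(nat_lit 168720))],
    [(k9,(nat_lit 127872)),(k8,(nat_lit 138750)),(k1,(nat_lit 155067)),(k6,(nat_lit 168720))],[(k8,(nat_lit 87024)),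
    (k9,(nat_lit 87024)),(k1,(nat_lit 103341)),(k6,(nat_lit 127872))],[(k8,(nat_lit 87024)),(k9,(nat_lit 87024)),(k1,
    (nat_lit 114219)),(k6,(nat_lit 138750))]]
    [[k1,k0,k1,k1,k0],[k2,k0,k0,k0,k1],[k1,k0,k0,k1,k1],[k0,k2,k1,k0,k0],[k0,k1,k2,k0,k0],[k0,k0,k3,k0,k0],[k0,k0,k0,
    k0,k3],[k0,k0,k0,k0,k4]]
    [.ref k3 k0 [(z1,[z0,z1]),(z1,[y1,z0,z0,z1]),(z2,[z0,y1,y1,z2])],.ref k62 k0 [(z1,[z1,z1]),(z1,[y1,z1,z2]),(z1,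
    [y1,z0,y1,z2])],.ref k120 k0 [(z1,[z0,z1]),(z2,[y2,z1,z1]),(z2,[z0,y1,y1,z2])],.ref k110 k0 [(z1,[z0,z1]),(z2,[z2,
    z1,z1,y2]),(z2,[z0,y1,y1,z2])],.ref k99 k0 [(z1,[z0,z1]),(z1,[z1,z1,z1,y2]),(z2,[z0,y1,y1,z2])],.ref k121 k0 [(z4,
    [y2,z3,y3,z6]),(z4,[z2,z3,z9,y6]),(z1,[z1])],.ref k122 k0 [(z1,[z1,z3]),(z1,[y1,z0,z3]),(z2,[y2,y3,y3,z6])],
    .ref k62 k0 [(z2,[z1,z4]),(z2,[y1,z0,z4]),(z2,[y1,y2,y2,z4])]],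
    .base (.leafM k0 [k0,k1,k2,k3,k4] [(z1,[z1,z1])] []),
    .base (.leafM k6 [k3,k4,k0,k1,k2] [(z1,[y3,y1,y3,z3]),(z1,[z0,z1])] []),
    .base (.leafM k0 [k3,k4,k0,k1,k2] [(z1,[y1,y1,y1,z1])] []),
    .base (.leafM k4 [k3,k4,k0,k1,k2] [(z1,[y3,y1,y3,z3]),(z1,[z0,z1])] []),
    .base (.leafM k5 [k3,k4,k0,k1,k2] [(z1,[y2,y1,y2,z2]),(z1,[z0,z1])] []),
    .lp k0 [(nat_lit 1680),(nat_lit 1380),(nat_lit 1886),(nat_lit 2208),(nat_lit 1104)] [(nat_lit 264),(nat_lit 264),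
    (nat_lit 414),(nat_lit 414),k161,k161,k0,k0,(nat_lit 552),(nat_lit 552)] k0 [[k0,k0,k0,(nat_lit 368),
    (nat_lit 368),k0,k0,k0,k0,k0],[k0,k0,k0,k0,(nat_lit 276),k0,k0,k0,k0,k0],[k0,(nat_lit 368),k0,k0,k0,k0,k0,k0,k0,
    k0],[k0,k0,k0,k0,k0,k0,k0,k0,k0,k0],[k0,k0,k0,k0,k0,k0,k0,k0,k0,k0],[(nat_lit 276),(nat_lit 368),k0,k0,k0,k0,k0,
    k0,k0,k0],[k0,k0,k0,k0,k0,k0,k0,k0,k0,k0],[k0,k0,k0,k0,k0,k0,k0,k0,k0,k0],[k0,k0,k0,k0,k0,k0,k0,k0,k0,k0],[k0,k0,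
    k0,k0,k0,k0,k0,k0,k0,k0]] (nat_lit 5520) k6
    [[(k8,(nat_lit 1392)),(k9,(nat_lit 1392)),(k1,(nat_lit 1680)),(k6,(nat_lit 1944))],[(k2,(nat_lit 1162)),(k3,
    (nat_lit 1530)),(k7,(nat_lit 1576)),(k0,(nat_lit 1680)),(k5,(nat_lit 1783)),(k4,(nat_lit 2059))],[(k2,
    (nat_lit 1380)),(k3,(nat_lit 1380)),(k7,(nat_lit 1518)),(k0,(nat_lit 1530)),(k4,(nat_lit 2001)),(k5,
    (nat_lit 2001))],[(k0,(nat_lit 1162)),(k2,(nat_lit 1380)),(k3,(nat_lit 1380)),(k4,(nat_lit 1633)),(k5,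
    (nat_lit 1633)),(k7,(nat_lit 1794))],[(k2,(nat_lit 1633)),(k0,(nat_lit 1783)),(k4,(nat_lit 1886)),(k5,
    (nat_lit 1886)),(k3,(nat_lit 2001)),(k7,(nat_lit 2047))],[(k2,(nat_lit 1633)),(k4,(nat_lit 1886)),(k5,
    (nat_lit 1886)),(k3,(nat_lit 2001)),(k7,(nat_lit 2047)),(k0,(nat_lit 2059))],[(k3,(nat_lit 1518)),(k0,
    (nat_lit 1576)),(k2,(nat_lit 1794)),(k4,(nat_lit 2047)),(k5,(nat_lit 2047)),(k7,(nat_lit 2208))],[(k8,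
    (nat_lit 1656)),(k9,(nat_lit 1656)),(k1,(nat_lit 1944)),(k6,(nat_lit 2208))],[(k8,(nat_lit 1104)),(k9,
    (nat_lit 1104)),(k1,(nat_lit 1392)),(k6,(nat_lit 1656))],[(k8,(nat_lit 1104)),(k9,(nat_lit 1104)),(k1,
    (nat_lit 1392)),(k6,(nat_lit 1656))]]
    [[k2,k1,k0,k0,k0],[k2,k2,k0,k0,k0],[k1,k1,k0,k1,k0],[k2,k0,k0,k0,k1],[k2,k1,k0,k0,k1],[k1,k0,k0,k1,k1],[k0,k3,k0,
    k0,k0],[k0,k2,k1,k0,k0],[k0,k0,k0,k0,k3],[k0,k0,k0,k0,k4]]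
    [.ref k3 k0 [(z1,[z1,z0,y1]),(z1,[z0,z0,z1]),(z1,[y1,z1,z0,z1])],.ref k124 k0 [(z2,[z1,z0,y2]),(z1,[z0,z0,z1]),
    (z1,[y1,z1,z1,z1])],.ref k3 k0 [(z1,[z1,z1,y1]),(z1,[z0,z0,z1]),(z1,[y1,z0,z0,z1])],.ref k18 k1 [(z1,[z1,y2]),(z1,
    [y1,z1,y1,z1]),(z1,[z0,z0,z1])],.contra [y1,z1,z0,z1],.ref k18 k1 [(z1,[z1,y1]),(z1,[y1,z0,y1,z1]),(z1,[z0,z0,
    z1])],.ref k125 k0 [(z1,[z0,z1]),(z1,[z1]),(z1,[z0,y1,y1,z1])],.ref k126 k1 [(z2,[y1,y1,z1,z1]),(z1,[z1,z0,y2]),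
    (z1,[z0,z0,z1])],.ref k127 k0 [(z1,[z0,z1]),(z1,[y1,z0,z3]),(z1,[z0,y1,y1,z1])],.ref k128 k0 [(z1,[z0,z1]),(z2,
    [y1,z0,z4]),(z1,[z0,y1,y1,z1])]],
    .base (.leafM k0 [k4,k0,k1,k2,k3] [(z1,[z1])] []),
    .base (.leafM k0 [k1,k2,k3,k4,k0] [(z1,[y1,z0,z1])] [])]

theorem hB5_23_10 : blkB [0, 0, 0, 1, 1] [] sp5 hS5_23 (pcls (n := 5) [0, 0, 0, 1, 1]) hD5_23 141 10 hN5_23_10 = true := by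
  decide +kernel

/-- nodes 132 to 140 -/
noncomputable def hN5_23_11 : List HM :=
  [.base (.leafM k0 [k1,k2,k3,k4,k0] [(z1,[z0,z1,z1])] []),
    .base (.leafM k0 [k0,k1,k2,k3,k4] [(z3,[z1,z1])] []),
    .base (.geo z12 k0 [(z8,z0),(z6,z0),(z8,z0),(z9,z0),(z5,z0)] [(z1,[z4]),(z1,[z0,z6]),(z1,[z0,z0,z4]),(z1,[z0,z0,
    z0,z3]),(z1,[y4,y6,y4,y3,z12])] k1),
    .lp k0 [(nat_lit 676),(nat_lit 702),(nat_lit 434),(nat_lit 676),(nat_lit 384)] [k13,k13,k0,k0,k117,k151,k13,k13,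
    k159,k159] k0 [[k0,k0,k0,k0,k82,k0,k0,k0,k0,k0],[k0,k0,k0,k0,k134,k0,k0,k0,k0,k0],[k0,k0,k0,k0,k0,k0,k0,k0,k0,k0],
    [k0,k0,k0,k0,k82,k0,k0,k0,k0,k0],[k0,k0,k0,k0,k0,k84,k0,k0,k0,k0],[k134,k82,k82,k0,k0,k0,k0,k0,k0,k0],[k0,k0,k0,
    k0,k0,k0,k0,k0,k0,k0],[k0,k0,k0,k0,k0,k0,k0,k0,k100,k0],[k0,k0,k0,k0,k0,k0,k0,k0,k0,k0],[k0,k0,k0,k0,k0,k0,k100,
    k0,k0,k0]] (nat_lit 1920) k6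
    [[(k9,(nat_lit 430)),(k8,(nat_lit 530)),(k1,(nat_lit 676)),(k6,(nat_lit 676))],[(k5,(nat_lit 538)),(k7,
    (nat_lit 594)),(k0,(nat_lit 676)),(k2,(nat_lit 689)),(k3,(nat_lit 689)),(k4,(nat_lit 706))],[(k5,(nat_lit 551)),
    (k7,(nat_lit 555)),(k4,(nat_lit 667)),(k0,(nat_lit 689)),(k2,(nat_lit 702)),(k3,(nat_lit 702))],[(k5,
    (nat_lit 551)),(k4,(nat_lit 667)),(k0,(nat_lit 689)),(k7,(nat_lit 689)),(k2,(nat_lit 702)),(k3,(nat_lit 702))],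
    [(k5,(nat_lit 400)),(k4,(nat_lit 434)),(k7,(nat_lit 456)),(k0,(nat_lit 538)),(k2,(nat_lit 551)),(k3,
    (nat_lit 551))],[(k4,(nat_lit 384)),(k5,(nat_lit 434)),(k7,(nat_lit 572)),(k2,(nat_lit 667)),(k3,(nat_lit 667)),
    (k0,(nat_lit 706))],[(k5,(nat_lit 456)),(k3,(nat_lit 555)),(k4,(nat_lit 572)),(k0,(nat_lit 594)),(k2,
    (nat_lit 689)),(k7,(nat_lit 760))],[(k9,(nat_lit 530)),(k8,(nat_lit 630)),(k1,(nat_lit 676)),(k6,(nat_lit 676))],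
    [(k8,(nat_lit 384)),(k9,(nat_lit 384)),(k1,(nat_lit 430)),(k6,(nat_lit 530))],[(k8,(nat_lit 384)),(k9,
    (nat_lit 384)),(k1,(nat_lit 530)),(k6,(nat_lit 630))]]
    [[k1,k0,k1,k1,k0],[k2,k0,k0,k0,k1],[k1,k0,k0,k1,k1],[k0,k1,k2,k0,k0],[k0,k0,k3,k0,k0],[k0,k0,k4,k0,k0],[k0,k0,k1,
    k2,k0],[k0,k0,k0,k0,k3],[k0,k0,k0,k0,k4]]
    [.ref k1 k0 [(z1,[y3,z1,y1,z0,z3]),(z1,[z0,z0,z1]),(z1,[z6,z0,z2,z1,y6]),(z1,[z0,y1,y1,y1,z3])],.ref k65 k1 [(z1,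
    [z0,y1,y1,y1,z3]),(z1,[y6,z4,z0,z3]),(z1,[z0,z0,z1]),(z1,[z3,z1])],.ref k133 k1 [(z1,[z0,y1,y1,y1,z3]),(z1,[y3,z0,
    y1,z0,z3]),(z1,[z0,z0,z1]),(z1,[z3,z2,z1,z1,y3])],.ref k1 k0 [(z4,[y3,z4,z1,z2]),(z1,[z0,z0,z1]),(z2,[z3,z0,y1]),
    (z1,[z0,y1,y1,y1,z3])],.ref k1 k0 [(z2,[y1,z2,z0,z1]),(z1,[z0,z0,z1]),(z1,[z1]),(z1,[z0,y1,y1,y1,z3])],
    .ref k134 k1 [(z1,[z0,y1,y1,y1,z3]),(z2,[z1]),(z1,[z0,z0,z1]),(z6,[y3,z8,z0,z4])],.ref k1 k0 [(z2,[y3,z0,y2,y1,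
    z6]),(z1,[z0,z0,z1]),(z1,[z3,z2,z2,z2,y6]),(z1,[z0,y1,y1,y1,z3])],.contra [z1,z1],.ref k133 k1 [(z1,[z0,y1,y1,y1,
    z3]),(z2,[y3,z0,z0,z2]),(z1,[z0,z0,z1]),(z2,[z3,z4])]],
    .base (.geo z12 k0 [(z9,z0),(z2,z0),(z6,z0),(z11,z0),(z8,z0)] [(z1,[z3]),(z1,[z0,z2]),(z1,[z0,z0,z6]),(z1,[z0,z0,
    z0,z1]),(z1,[y3,y2,y6,y1,z12])] k1),
    .lp k0 [k79,k80,k48,k89,k62] [k39,k8,k23,k23,k39,k39,k0,k37,k31,k33] k0 [[k0,k0,k0,k0,k0,k0,k0,k0,k0,k0],[k0,k0,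
    k0,k0,k18,k10,k0,k0,k0,k0],[k0,k0,k0,k0,k0,k14,k0,k0,k0,k0],[k0,k0,k0,k0,k0,k0,k0,k0,k0,k0],[k10,k0,k0,k14,k0,k0,
    k0,k0,k0,k0],[k18,k0,k0,k0,k0,k0,k0,k0,k0,k0],[k0,k0,k0,k0,k0,k0,k0,k0,k70,k0],[k0,k0,k0,k0,k0,k0,k0,k0,k0,k0],
    [k0,k0,k0,k0,k0,k0,k0,k0,k0,k16],[k0,k0,k0,k0,k0,k0,k0,k70,k0,k0]] (nat_lit 240) k6
    [[(k6,k48),(k9,k85),(k8,k87),(k1,k126)],[(k0,k48),(k5,k48),(k7,k60),(k2,k64),(k3,k64),(k4,k66)],[(k7,k48),(k4,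
    k54),(k0,k64),(k5,k64),(k2,k80),(k3,k80)],[(k4,k50),(k0,k64),(k5,k64),(k7,k66),(k2,k80),(k3,k80)],[(k0,k48),(k4,
    k48),(k5,k48),(k2,k64),(k3,k64),(k7,k64)],[(k4,k48),(k5,k48),(k2,k50),(k7,k50),(k3,k54),(k0,k66)],[(k3,k48),(k4,
    k50),(k7,k52),(k0,k60),(k5,k64),(k2,k66)],[(k1,k48),(k9,k93),(k8,k95),(k6,k126)],[(k9,k60),(k1,k85),(k6,k93),(k8,
    k132)],[(k8,k48),(k1,k87),(k6,k95),(k9,k132)]]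
    [[k2,k0,k0,k2,k0],[k1,k1,k0,k1,k0],[k1,k1,k1,k1,k0],[k1,k0,k1,k1,k0],[k1,k0,k2,k1,k0],[k2,k0,k0,k0,k1],[k0,k2,k1,
    k0,k0],[k0,k2,k2,k0,k0],[k0,k1,k2,k0,k0],[k0,k1,k3,k0,k0],[k0,k0,k3,k0,k0],[k0,k0,k4,k0,k0],[k0,k0,k0,k0,k4]]
    [.contra [y3,y2,y12,y4,z12],.ref k2 k0 [(z1,[z3,z1,y3]),(z1,[z3,y1]),(z1,[y3,z1,z3,z1]),(z1,[y3,z1,z3])],
    .contra [y1,z0,z0,z0,z1],.ref k2 k0 [(z1,[y3,z3,z0,z1]),(z1,[y3,z1,z3,z1]),(z1,[z3,y1]),(z1,[z3,y1,z0,y1])],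
    .ref k136 k1 [(z3,[z3,y1,z0,y2]),(z1,[z3,y1]),(z3,[y3,z1,z6,z2]),(z1,[y3,z5,z0,z2])],.contra [y3,z1,y3,y1,z3],
    .contra [y9,z2,z18,z7],.contra [z3,y2,y12,y4,z6],.contra [y6,z2,z9,z4],.contra [z1,z0,y1,y1],.contra [z1,z0,z0,
    y1],.ref k136 k0 [(z6,[y3,z8,z0,z4]),(z2,[y3,z0,z12,z4]),(z2,[z1]),(z2,[z3,z0,z0,y4])],.contra [y1,y2,y6,y2,z6]],
    .lp k0 [(nat_lit 141414),(nat_lit 145040),(nat_lit 108780),(nat_lit 168720),(nat_lit 87024)] [(nat_lit 13653),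
    (nat_lit 13653),(nat_lit 11840),(nat_lit 11840),(nat_lit 29970),(nat_lit 29970),k0,k0,(nat_lit 40848),
    (nat_lit 40848)] k0 [[k0,k0,k0,k0,k0,k0,k0,k0,k0,k0],[k0,k0,(nat_lit 23520),k0,(nat_lit 43512),k0,k0,k0,k0,k0],
    [k0,k0,k0,k0,k0,k0,k0,k0,k0,k0],[(nat_lit 23520),k0,k0,k0,k0,k0,k0,k0,k0,k0],[k0,k0,k0,k0,k0,k0,k0,k0,k0,k0],
    [(nat_lit 43512),k0,k0,k0,k0,k0,k0,k0,k0,k0],[k0,k0,k0,k0,k0,k0,k0,k0,k0,k0],[k0,k0,k0,k0,k0,k0,k0,k0,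
    (nat_lit 10878),k0],[k0,k0,k0,k0,k0,k0,k0,k0,k0,k0],[k0,k0,k0,k0,k0,k0,(nat_lit 10878),k0,k0,
    k0]] (nat_lit 435120) k6
    [[(k9,(nat_lit 103341)),(k8,(nat_lit 114219)),(k1,(nat_lit 141414)),(k6,(nat_lit 155067))],[(k5,(nat_lit 125097)),
    (k0,(nat_lit 141414)),(k3,(nat_lit 143227)),(k7,(nat_lit 155067)),(k2,(nat_lit 166747)),(k4,(nat_lit 168609))],
    [(k5,(nat_lit 103390)),(k7,(nat_lit 113368)),(k4,(nat_lit 126910)),(k0,(nat_lit 143227)),(k2,(nat_lit 145040)),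
    (k3,(nat_lit 145040))],[(k4,(nat_lit 126910)),(k5,(nat_lit 126910)),(k2,(nat_lit 145040)),(k3,(nat_lit 145040)),
    (k7,(nat_lit 156880)),(k0,(nat_lit 166747))],[(k3,(nat_lit 103390)),(k4,(nat_lit 108780)),(k5,(nat_lit 108780)),
    (k0,(nat_lit 125097)),(k2,(nat_lit 126910)),(k7,(nat_lit 138750))],[(k4,(nat_lit 108780)),(k5,(nat_lit 108780)),
    (k2,(nat_lit 126910)),(k3,(nat_lit 126910)),(k7,(nat_lit 138750)),(k0,(nat_lit 168609))],[(k3,(nat_lit 113368)),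
    (k4,(nat_lit 138750)),(k5,(nat_lit 138750)),(k0,(nat_lit 155067)),(k2,(nat_lit 156880)),(k7,(nat_lit 168720))],
    [(k9,(nat_lit 127872)),(k8,(nat_lit 138750)),(k1,(nat_lit 155067)),(k6,(nat_lit 168720))],[(k8,(nat_lit 87024)),
    (k9,(nat_lit 87024)),(k1,(nat_lit 103341)),(k6,(nat_lit 127872))],[(k8,(nat_lit 87024)),(k9,(nat_lit 87024)),(k1,
    (nat_lit 114219)),(k6,(nat_lit 138750))]]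
    [[k1,k0,k1,k1,k0],[k2,k0,k0,k0,k1],[k1,k0,k0,k1,k1],[k0,k2,k1,k0,k0],[k0,k1,k2,k0,k0],[k0,k0,k3,k0,k0],[k0,k0,k0,
    k0,k3],[k0,k0,k0,k0,k4]]
    [.ref k3 k0 [(z1,[y1,z2,y1,z1]),(z1,[y1,z0,z0,z1]),(z1,[z1,y1])],.ref k66 k1 [(z1,[y1,z2]),(z1,[y1,z1,y1,z1]),(z1,
    [z1,y2,z1])],.ref k132 k0 [(z1,[z1,z1]),(z1,[z0,z0,z1]),(z1,[y1,z0,y1,z1])],.ref k103 k0 [(z2,[z1,z3,y1,y1]),(z1,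
    [z1,z1,z0,y1]),(z1,[y1,y2,z0,z2])],.ref k103 k1 [(z2,[z1,z2,z1,y2]),(z1,[z1,z1,z0,y1]),(z1,[y1,y2,z0,z2])],
    .ref k135 k1 [(z2,[z1,z3,z3,y3]),(z1,[z1]),(z1,[y1,y3,z0,z3])],.ref k137 k0 [(z1,[z1,z3]),(z1,[z0,z0,z1]),(z1,[y2,
    y3,y3,z3])],.ref k132 k0 [(z2,[z1,z4]),(z1,[z0,z0,z1]),(z2,[y1,y2,y2,z2])]],
    .lp k0 [k102,k158,k144,k130,k182] [k42,k42,k14,k14,k0,k42,k28,k28,k2,k2] k0 [[k0,k4,k2,k0,k0,k0,k0,k0,k0,k0],[k0,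
    k0,k32,k0,k48,k66,k0,k0,k0,k0],[k0,k0,k0,k0,k48,k76,k0,k0,k0,k0],[k32,k2,k0,k0,k0,k0,k0,k0,k0,k0],[k66,k0,k0,k76,
    k0,k0,k0,k0,k0,k0],[k48,k0,k0,k48,k0,k0,k0,k0,k0,k0],[k0,k0,k0,k0,k0,k0,k0,k0,k20,k0],[k0,k0,k0,k0,k0,k0,k0,k0,
    k38,k0],[k0,k0,k0,k0,k0,k0,k0,k0,k0,k86],[k0,k0,k0,k0,k0,k0,k38,k20,k0,k0]] (nat_lit 480) k6
    [[(k6,k96),(k9,k104),(k8,k142),(k1,k188)],[(k0,k98),(k5,k100),(k3,k130),(k2,k162),(k7,k182),(k4,k192)],[(k7,k96),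
    (k5,k98),(k4,k106),(k0,k130),(k2,k160),(k3,k162)],[(k4,k96),(k7,k96),(k5,k130),(k2,k158),(k3,k160),(k0,k162)],
    [(k3,k98),(k0,k100),(k5,k102),(k2,k130),(k4,k192),(k7,k192)],[(k2,k96),(k3,k106),(k7,k158),(k4,k186),(k0,k192),
    (k5,k192)],[(k2,k96),(k3,k96),(k7,k130),(k4,k158),(k0,k182),(k5,k192)],[(k1,k96),(k6,k130),(k9,k156),(k8,k194)],
    [(k1,k104),(k6,k156),(k9,k182),(k8,(nat_lit 202))],[(k8,k96),(k1,k142),(k6,k194),(k9,(nat_lit 202))]]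
    [[k1,k1,k0,k1,k0],[k1,k1,k1,k1,k0],[k1,k0,k1,k1,k0],[k2,k0,k0,k2,k0],[k2,k0,k0,k0,k1],[k2,k0,k0,k0,k2],[k0,k2,k1,
    k0,k0],[k0,k2,k2,k0,k0],[k0,k1,k2,k0,k0],[k0,k1,k0,k2,k0]]
    [.ref k123 k0 [(z1,[z1,z1,y1]),(z1,[z1,y1,z1])],.contra [y1,z0,z1],.ref k129 k0 [(z1,[y1,z1]),(z1,[y1,z0,z1])],
    .ref k46 k1 [(z2,[z1]),(z1,[z0,z1])],.ref k69 k0 [(z1,[z1]),(z1,[z1,y2,z2])],.ref k130 k0 [(z2,[z1]),(z2,[z1,y2,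
    z2])],.ref k114 k1 [(z2,[y1,y1,z2]),(z1,[z0,z1])],.ref k131 k1 [(z2,[y1,z0,z2]),(z1,[z0,z1])],.ref k109 k0 [(z1,
    [y1,z1,z1]),(z1,[y1,y2,z4])],.ref k138 k0 [(z1,[z1,z1,y1]),(z1,[z1])]],
    .lp k0 [k102,k158,k144,k130,k182] [k42,k42,k14,k14,k0,k42,k28,k28,k2,k2] k0 [[k0,k4,k2,k0,k0,k0,k0,k0,k0,k0],[k0,
    k0,k32,k0,k48,k66,k0,k0,k0,k0],[k0,k0,k0,k0,k48,k76,k0,k0,k0,k0],[k32,k2,k0,k0,k0,k0,k0,k0,k0,k0],[k66,k0,k0,k76,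
    k0,k0,k0,k0,k0,k0],[k48,k0,k0,k48,k0,k0,k0,k0,k0,k0],[k0,k0,k0,k0,k0,k0,k0,k0,k20,k0],[k0,k0,k0,k0,k0,k0,k0,k0,
    k38,k0],[k0,k0,k0,k0,k0,k0,k0,k0,k0,k86],[k0,k0,k0,k0,k0,k0,k38,k20,k0,k0]] (nat_lit 480) k6
    [[(k6,k96),(k9,k104),(k8,k142),(k1,k188)],[(k0,k98),(k5,k100),(k3,k130),(k2,k162),(k7,k182),(k4,k192)],[(k7,k96),
    (k5,k98),(k4,k106),(k0,k130),(k2,k160),(k3,k162)],[(k4,k96),(k7,k96),(k5,k130),(k2,k158),(k3,k160),(k0,k162)],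
    [(k3,k98),(k0,k100),(k5,k102),(k2,k130),(k4,k192),(k7,k192)],[(k2,k96),(k3,k106),(k7,k158),(k4,k186),(k0,k192),
    (k5,k192)],[(k2,k96),(k3,k96),(k7,k130),(k4,k158),(k0,k182),(k5,k192)],[(k1,k96),(k6,k130),(k9,k156),(k8,k194)],
    [(k1,k104),(k6,k156),(k9,k182),(k8,(nat_lit 202))],[(k8,k96),(k1,k142),(k6,k194),(k9,(nat_lit 202))]]
    [[k1,k1,k0,k1,k0],[k1,k1,k1,k1,k0],[k1,k0,k1,k1,k0],[k2,k0,k0,k2,k0],[k2,k0,k0,k0,k1],[k2,k0,k0,k0,k2],[k0,k2,k1,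
    k0,k0],[k0,k2,k2,k0,k0],[k0,k1,k2,k0,k0],[k0,k1,k0,k2,k0]]
    [.ref k37 k1 [(z1,[z1])],.contra [y1,z1],.ref k37 k0 [(z1,[z1])],.ref k56 k0 [(z2,[z1])],.ref k95 k0 [(z1,[z1])],
    .ref k96 k0 [(z2,[z1])],.ref k118 k1 [(z1,[y1,z1])],.ref k119 k0 [(z2,[y1,z2])],.ref k118 k0 [(z1,[y1,z1])],
    .ref k139 k1 [(z1,[z1])]]]

theorem hB5_23_11 : blkB [0, 0, 0, 1, 1] [] sp5 hS5_23 (pcls (n := 5) [0, 0, 0, 1, 1]) hD5_23 141 11 hN5_23_11 = true := by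
  decide +kernel

end Pool.Agent.Lib_MP_fa6e45
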