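import Pool.Agent.Lib_MP_fa6e45.HK

/-!
MP_fa6e45_co, stage 4: certificates (captain, generated by a program).
-/

namespace Pool.Agent.Lib_MP_fa6e45

/-- nodes 0 to 11 -/
noncomputable def hN5_39_0 : List HM :=
  [.base (.leafM k0 [k3,k4,k0,k1,k2] [(z3,[y1,y1,y1,z3])] []),
    .base (.leafM k0 [k0,k1,k2,k3,k4] [(z3,[z1,z1])] []),
    .base (.leafM k2 [k2,k3,k4,k0,k1] [(z3,[z0,y1,y1,z3])] []),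
    .base (.leafM k2 [k1,k2,k3,k4,k0] [(z1,[z0,z0,z1])] []),
    .base (.spec k16 false k2 [(z3,[y1,y3,z1,z3]),(z1,[z0,z1])]),
    .base (.spec k1 true k3 [(z3,[y2,y6,y1,z6]),(z1,[z0,z1])]),
    .base (.spec k0 false k4 [(z3,[z0,z2,z1]),(z3,[y1,y1,y1,z3])]),
    .lp k0 [k48,k36,k30,k34,k30] [k0,k0,k8,k4,k9,k9,k7,k7,k9,k9] k0 [[k0,k6,k6,k0,k0,k0,k0,k0,k0,k0],[k0,k0,k0,k0,k0,
    k4,k4,k0,k0,k0],[k0,k0,k0,k0,k0,k0,k0,k0,k0,k0],[k0,k6,k0,k0,k0,k0,k0,k0,k0,k0],[k4,k0,k0,k0,k0,k0,k0,k0,k0,k0],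
    [k0,k0,k0,k0,k0,k0,k0,k0,k0,k0],[k0,k0,k0,k0,k0,k0,k0,k0,k0,k0],[k4,k0,k0,k0,k0,k0,k0,k0,k0,k0],[k0,k0,k0,k0,k0,
    k0,k0,k0,k0,k0],[k0,k0,k0,k0,k0,k0,k0,k0,k0,k0]] k120 k5
    [[(k4,k39),(k5,k39),(k8,k39),(k9,k39),(k2,k40),(k6,k41),(k7,k41),(k3,k44),(k0,k48),(k1,k48)],[(k5,k33),(k4,k39),
    (k8,k39),(k9,k39),(k2,k40),(k0,k42),(k3,k44),(k6,k45),(k7,k45),(k1,k48)],[(k4,k31),(k9,k31),(k5,k35),(k8,k35),(k6,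
    k37),(k7,k37),(k2,k42),(k0,k44),(k1,k44),(k3,k46)],[(k4,k31),(k5,k31),(k8,k31),(k9,k31),(k2,k32),(k6,k33),(k7,
    k33),(k0,k40),(k1,k40),(k3,k42)],[(k4,k30),(k5,k30),(k8,k30),(k9,k30),(k2,k31),(k6,k32),(k7,k32),(k0,k33),(k3,
    k35),(k1,k39)],[(k4,k30),(k5,k30),(k8,k30),(k9,k30),(k2,k31),(k3,k31),(k6,k32),(k7,k32),(k0,k39),(k1,k39)],[(k4,
    k32),(k5,k32),(k8,k32),(k9,k32),(k2,k33),(k6,k34),(k7,k34),(k3,k37),(k1,k41),(k0,k45)],[(k4,k32),(k5,k32),(k8,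
    k32),(k9,k32),(k2,k33),(k6,k34),(k7,k34),(k3,k37),(k1,k41),(k0,k45)],[(k4,k30),(k5,k30),(k8,k30),(k9,k30),(k2,
    k31),(k3,k31),(k6,k32),(k7,k32),(k0,k39),(k1,k39)],[(k4,k30),(k5,k30),(k8,k30),(k9,k30),(k2,k31),(k6,k32),(k7,
    k32),(k3,k35),(k0,k39),(k1,k39)]]
    [[k1,k1,k1,k0,k0],[k1,k1,k0,k0,k1],[k1,k0,k2,k0,k0],[k1,k0,k1,k1,k0],[k1,k0,k1,k0,k1],[k1,k1,k0,k1,k0],[k1,k0,k0,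
    k1,k1],[k1,k0,k0,k0,k2],[k0,k2,k1,k0,k0],[k0,k2,k0,k1,k0],[k0,k2,k0,k0,k1],[k0,k1,k2,k0,k0],[k0,k1,k1,k1,k0],[k0,
    k1,k1,k0,k1],[k0,k1,k0,k2,k0],[k0,k1,k0,k1,k1],[k0,k1,k0,k0,k2],[k0,k0,k3,k0,k0],[k0,k0,k2,k1,k0],[k0,k0,k2,k0,
    k1],[k0,k0,k1,k2,k0],[k0,k0,k1,k1,k1],[k0,k0,k1,k0,k2],[k0,k0,k0,k3,k0],[k0,k0,k0,k2,k1],[k0,k0,k0,k1,k2],[k0,k0,
    k0,k0,k3]]
    [.ref k0 k0 [(z1,[z0,z1]),(z1,[z0,z0,z1]),(z1,[z3,y1,y1])],.ref k0 k1 [(z1,[z3,y1,y1]),(z1,[z0,z1]),(z1,[z0,z0,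
    z1])],.ref k0 k0 [(z1,[z0,z1]),(z1,[z0,z0,z1]),(z2,[z3,y1])],.ref k1 k1 [(z1,[y3,z0,y1,z3]),(z1,[z0,z1]),(z1,[z0,
    z0,z1])],.ref k2 k2 [(z1,[y3,z0,y1,z3]),(z1,[z3,y1]),(z1,[z0,z1])],.ref k3 k0 [(z1,[z0,z1]),(z1,[z0,z0,z1]),(z1,
    [y1,z0,z0,z1])],.ref k1 k3 [(z1,[y3,z0,y1,z3]),(z1,[z0,z0,z1]),(z1,[z0,z1])],.ref k0 k1 [(z2,[z3,y1]),(z1,[z0,
    z1]),(z1,[z0,z0,z1])],.ref k0 k0 [(z1,[z0,z1]),(z1,[z0,z0,z1]),(z1,[z3,z0,y2])],.ref k3 k0 [(z1,[z0,z1]),(z1,[z0,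
    z0,z1]),(z3,[y3,y1,z1,z3])],.ref k0 k1 [(z1,[z3,z0,y2]),(z1,[z0,z1]),(z1,[z0,z0,z1])],.ref k0 k0 [(z1,[z0,z1]),
    (z1,[z0,z0,z1]),(z2,[z3,z0,y1])],.ref k1 k1 [(z1,[y3,y1,z0,z3]),(z1,[z0,z1]),(z1,[z0,z0,z1])],.ref k2 k2 [(z1,[y3,
    y1,z0,z3]),(z1,[z3,z0,y1]),(z1,[z0,z1])],.ref k3 k0 [(z1,[z0,z1]),(z1,[z0,z0,z1]),(z6,[y3,y2,y1,z6])],
    .ref k1 k3 [(z1,[y3,y1,z0,z3]),(z1,[z0,z0,z1]),(z1,[z0,z1])],.ref k0 k1 [(z2,[z3,z0,y1]),(z1,[z0,z1]),(z1,[z0,z0,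
    z1])],.ref k0 k0 [(z1,[z0,z1]),(z1,[z0,z0,z1]),(z1,[z1])],.ref k4 k4 [(z1,[y3,y1,y1,z3]),(z1,[z1]),(z1,[z0,z0,
    z1])],.ref k5 k2 [(z1,[y3,y1,y1,z3]),(z1,[z1]),(z1,[z0,z1])],.ref k6 k1 [(z1,[y3,y1,y1,z3]),(z1,[z0,z1]),(z1,[z0,
    z0,z1])],.contra [z3,z2,z1,y3],.ref k5 k5 [(z1,[y3,y1,y1,z3]),(z1,[z1]),(z1,[z0,z0,z1])],.ref k3 k0 [(z1,[z0,z1]),
    (z1,[z0,z0,z1]),(z3,[y1,y1,y1,z3])],.ref k6 k3 [(z1,[y3,y1,y1,z3]),(z1,[z0,z0,z1]),(z1,[z0,z1])],.ref k4 k6 [(z1,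
    [y3,y1,y1,z3]),(z1,[z1]),(z1,[z0,z1])],.ref k0 k1 [(z1,[z1]),(z1,[z0,z1]),(z1,[z0,z0,z1])]],
    .base (.leafM k0 [k0,k1,k2,k3,k4] [(z3,[z1,z1])] []),
    .base (.leafM k0 [k0,k1,k2,k3,k4] [(z3,[z1,z1])] []),
    .base (.spec k5 false k0 [(z1,[z0,z1]),(z3,[y2,y6,y1,z6])]),
    .base (.spec k5 false k0 [(z3,[y2,y1,y6,z6]),(z1,[z0,z0,z1])])]

theorem hB5_39_0 : blkB [0, 0, 0, 0, 0] [] sp5 hS5_39 (pcls (n := 5) [0, 0, 0, 0, 0]) hD5_39 186 0 hN5_39_0 = true := by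
  decide +kernel

/-- nodes 12 to 23 -/
noncomputable def hN5_39_1 : List HM :=
  [.base (.spec k1 true k3 [(z1,[z0,z0,z1]),(z3,[y2,y1,y6,z6])]),
    .lp k0 [k40,k30,k40,k30,k38] [k6,k4,k10,k10,k0,k10,k10,k10,k4,k8] k0 [[k0,k0,k0,k0,k0,k0,k0,k0,k0,k0],[k0,k0,k0,
    k0,k0,k10,k0,k0,k4,k6],[k0,k0,k0,k0,k0,k0,k0,k0,k0,k0],[k0,k0,k0,k0,k0,k0,k0,k0,k0,k0],[k10,k0,k0,k0,k0,k0,k0,k0,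
    k0,k16],[k0,k0,k0,k0,k0,k0,k0,k0,k0,k0],[k0,k0,k0,k0,k0,k0,k0,k0,k6,k4],[k0,k0,k0,k0,k0,k0,k0,k0,k0,k0],[k6,k0,k0,
    k0,k0,k16,k0,k4,k0,k0],[k4,k0,k0,k0,k0,k0,k0,k6,k0,k0]] k120 k5
    [[(k6,k30),(k3,k32),(k2,k36),(k5,k36),(k1,k42),(k8,k42),(k9,k42),(k0,k46),(k4,k46),(k7,k52)],[(k2,k34),(k3,k34),
    (k5,k34),(k6,k34),(k9,k36),(k0,k38),(k4,k44),(k7,k44),(k8,k44),(k1,k46)],[(k2,k30),(k3,k30),(k4,k30),(k5,k30),(k6,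
    k30),(k7,k30),(k8,k30),(k1,k32),(k9,k32),(k0,k34)],[(k2,k30),(k3,k30),(k5,k30),(k6,k30),(k7,k30),(k9,k32),(k0,
    k34),(k1,k36),(k8,k36),(k4,k40)],[(k2,k30),(k3,k30),(k5,k30),(k6,k30),(k7,k30),(k9,k32),(k0,k34),(k1,k36),(k8,
    k36),(k4,k40)],[(k3,k30),(k8,k30),(k2,k40),(k5,k40),(k6,k40),(k7,k40),(k9,k42),(k0,k44),(k1,k46),(k4,k50)],[(k2,
    k30),(k3,k30),(k5,k30),(k6,k30),(k7,k30),(k9,k32),(k8,k36),(k4,k40),(k0,k44),(k1,k52)],[(k1,k30),(k2,k30),(k3,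
    k30),(k5,k30),(k6,k30),(k7,k30),(k8,k32),(k9,k32),(k0,k34),(k4,k40)],[(k2,k32),(k3,k32),(k5,k32),(k6,k32),(k7,
    k32),(k9,k34),(k0,k36),(k1,k42),(k4,k42),(k8,k44)],[(k3,k30),(k4,k30),(k6,k32),(k2,k36),(k5,k36),(k7,k36),(k1,
    k42),(k8,k42),(k0,k44),(k9,k44)]]
    [[k2,k1,k0,k0,k0],[k1,k2,k0,k0,k0],[k1,k1,k1,k0,k0],[k1,k1,k0,k1,k0],[k1,k1,k0,k0,k1],[k1,k0,k1,k1,k0],[k1,k0,k1,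
    k0,k1],[k1,k0,k0,k2,k0],[k1,k0,k0,k1,k1],[k0,k3,k0,k0,k0],[k0,k2,k1,k0,k0],[k0,k2,k0,k1,k0],[k0,k2,k0,k0,k1],[k0,
    k1,k2,k0,k0],[k0,k1,k1,k1,k0],[k0,k1,k1,k0,k1],[k0,k1,k0,k2,k0],[k0,k1,k0,k1,k1],[k0,k1,k0,k0,k2],[k0,k0,k2,k1,
    k0],[k0,k0,k2,k0,k1],[k0,k0,k1,k2,k0],[k0,k0,k1,k1,k1],[k0,k0,k1,k0,k2],[k0,k0,k0,k3,k0],[k0,k0,k0,k2,k1],[k0,k0,
    k0,k1,k2]]
    [.ref k0 k0 [(z1,[z0,z1]),(z1,[z3,y2]),(z1,[z0,y1,y1,z3])],.ref k0 k0 [(z1,[z0,z1]),(z2,[z3,y1]),(z1,[z0,y1,y1,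
    z3])],.ref k0 k0 [(z1,[z0,z1]),(z1,[z3,z0,z1,y3]),(z1,[z0,y1,y1,z3])],.ref k8 k1 [(z1,[y3,z1,z1]),(z1,[z0,z1]),
    (z1,[z3,y1])],.ref k8 k5 [(z1,[y3,z1,z1]),(z1,[z0,y1,y1,z3]),(z1,[z3,y1])],.ref k3 k6 [(z1,[z0,y1,y1,z3]),(z1,[z3,
    z0,z1,y3]),(z1,[y1,z0,z0,z1])],.ref k3 k1 [(z1,[z3,z0,z1,y3]),(z1,[z0,z1]),(z1,[y1,z0,z0,z1])],.ref k3 k6 [(z1,
    [z0,y1,y1,z3]),(z2,[z3,y1]),(z6,[y3,z1,z2])],.ref k9 k7 [(z1,[y3,z1,z1]),(z1,[z0,y1,y1,z3]),(z1,[z3,y1])],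
    .ref k0 k0 [(z1,[z0,z1]),(z1,[z1]),(z1,[z0,y1,y1,z3])],.ref k0 k0 [(z1,[z0,z1]),(z2,[z3,z1,z1,y3]),(z1,[z0,y1,y1,
    z3])],.ref k10 k4 [(z1,[y3,z0,z1]),(z1,[z1]),(z1,[z0,y1,y1,z3])],.ref k10 k2 [(z1,[y3,z0,z1]),(z1,[z1]),(z1,[z0,
    z1])],.ref k0 k0 [(z1,[z0,z1]),(z1,[z3,z2,z2,y6]),(z1,[z0,y1,y1,z3])],.ref k8 k1 [(z1,[y3,y1,z0,z3]),(z1,[z0,z1]),
    (z1,[z3,z1,z1,y3])],.ref k8 k5 [(z1,[y3,y1,z0,z3]),(z1,[z0,y1,y1,z3]),(z1,[z3,z1,z1,y3])],.ref k11 k1 [(z1,[y3,z0,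
    z1]),(z1,[z0,z1]),(z1,[z1])],.contra [z3,z1,y1],.ref k11 k5 [(z1,[y3,z0,z1]),(z1,[z0,y1,y1,z3]),(z1,[z1])],
    .ref k3 k6 [(z1,[z0,y1,y1,z3]),(z1,[z3,z2,z2,y6]),(z3,[y3,y2,y1,z6])],.ref k3 k1 [(z1,[z3,z2,z2,y6]),(z1,[z0,z1]),
    (z3,[y3,y2,y1,z6])],.ref k3 k6 [(z1,[z0,y1,y1,z3]),(z2,[z3,z1,z1,y3]),(z6,[y3,y1,z1,z3])],.ref k9 k7 [(z1,[y3,y1,
    z0,z3]),(z1,[z0,y1,y1,z3]),(z1,[z3,z1,z1,y3])],.ref k3 k1 [(z2,[z3,z1,z1,y3]),(z1,[z0,z1]),(z6,[y3,y1,z1,z3])],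
    .ref k3 k6 [(z1,[z0,y1,y1,z3]),(z1,[z1]),(z3,[y1,z0,z1])],.ref k12 k8 [(z1,[y3,z0,z1]),(z1,[z0,z1]),(z1,[z1])],
    .ref k12 k7 [(z1,[y3,z0,z1]),(z1,[z0,y1,y1,z3]),(z1,[z1])]],
    .base (.leafM k0 [k1,k2,k3,k4,k0] [(z1,[z0,z1])] []),
    .base (.leafM k2 [k0,k1,k2,k3,k4] [(z1,[z0,z1])] []),
    .base (.leafM k0 [k2,k3,k4,k0,k1] [(z3,[y1,y1,z3])] []),
    .base (.leafM k2 [k3,k4,k0,k1,k2] [(z1,[z0,z1])] []),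
    .base (.geo z6 k4 [(z4,z0),(z6,y3),(z0,z6),(z8,y9),(z0,z6)] [(z1,[z2]),(z1,[z0,z3]),(z1,[z0,z0,z6]),(z1,[y2,y3,y6,
    z6]),(z1,[])] k5),
    .base (.leafM k0 [k3,k4,k0,k1,k2] [(z1,[y1,y1,z0,z1])] []),
    .base (.leafM k2 [k3,k4,k0,k1,k2] [(z1,[y1,z0,y1,z1])] []),
    .base (.leafM k2 [k4,k0,k1,k2,k3] [(z3,[z1,z0,z1])] []),
    .base (.leafM k2 [k4,k0,k1,k2,k3] [(z1,[z1,z0,z1])] []),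
    .base (.geo z6 k4 [(z4,z0),(z6,y3),(y4,z9),(z12,y12),(z0,z6)] [(z1,[z2]),(z1,[z0,z3]),(z1,[z0,z0,z1]),(z1,[y2,y3,
    y1,z6]),(z1,[])] k4)]

theorem hB5_39_1 : blkB [0, 0, 0, 0, 0] [] sp5 hS5_39 (pcls (n := 5) [0, 0, 0, 0, 0]) hD5_39 186 1 hN5_39_1 = true := by
  decide +kernel

/-- nodes 24 to 35 -/
noncomputable def hN5_39_2 : List HM :=
  [.base (.leafM k0 [k2,k3,k4,k0,k1] [(z3,[y1,y1,z0,z3])] []),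
    .base (.geo z9 k4 [(z6,z0),(z7,y3),(z4,z6),(z10,y12),(z0,z9)] [(z1,[z3]),(z1,[z0,z1]),(z1,[z0,z0,z1]),(z1,[y3,y1,
    y1,z9]),(z1,[])] k4),
    .base (.geo z3 k3 [(y6,z12),(z7,y9),(z6,y6),(z0,z3),(z2,z0)] [(z1,[z3]),(z1,[z0,z1]),(z1,[z0,z0,z3]),(z1,[]),(z1,
    [y3,y1,y3,z3])] k7),
    .base (.leafM k0 [k0,k1,k2,k3,k4] [(z3,[z1,z1])] []),
    .base (.leafM k2 [k3,k4,k0,k1,k2] [(z1,[z0,z1])] []),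
    .base (.leafM k2 [k0,k1,k2,k3,k4] [(z1,[z0,z1])] []),
    .base (.spec k0 false k4 [(z3,[z0,z2,z1]),(z3,[y1,y1,y1,z3])]),
    .lp k0 [(nat_lit 2333352),(nat_lit 1715700),(nat_lit 2394000),(nat_lit 1715700),
    (nat_lit 2083350)] [(nat_lit 30324),(nat_lit 30324),(nat_lit 339150),(nat_lit 339150),k0,k0,(nat_lit 339150),
    (nat_lit 339150),(nat_lit 155325),(nat_lit 155325)] k0 [[k0,k0,k0,k0,k0,k0,k0,k0,k0,k0],[k0,k0,(nat_lit 481600),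
    k0,k0,k0,k0,k0,k0,k0],[k0,k0,k0,k0,k0,k0,(nat_lit 367650),k0,k0,k0],[(nat_lit 481600),k0,k0,k0,k0,k0,k0,k0,k0,
    (nat_lit 481600)],[k0,k0,k0,k0,k0,k0,k0,k0,k0,k0],[k0,k0,k0,k0,k0,k0,(nat_lit 367650),k0,k0,k0],[k0,k0,k0,k0,k0,
    k0,k0,k0,(nat_lit 612750),k0],[k0,k0,k0,(nat_lit 367650),(nat_lit 367650),k0,k0,k0,k0,k0],[k0,k0,(nat_lit 481600),
    k0,k0,k0,k0,k0,k0,k0],[k0,k0,k0,k0,k0,k0,k0,(nat_lit 612750),k0,k0]] (nat_lit 6862800) k6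
    [[(k6,(nat_lit 1411776)),(k3,(nat_lit 2024526)),(k7,(nat_lit 2024526)),(k8,(nat_lit 2208351)),(k9,
    (nat_lit 2208351)),(k0,(nat_lit 2333352)),(k1,(nat_lit 2333352)),(k4,(nat_lit 2363676)),(k5,(nat_lit 2363676)),
    (k2,(nat_lit 2506126))],[(k3,(nat_lit 2024526)),(k6,(nat_lit 2024526)),(k7,(nat_lit 2024526)),(k8,
    (nat_lit 2208351)),(k9,(nat_lit 2208351)),(k0,(nat_lit 2333352)),(k1,(nat_lit 2333352)),(k4,(nat_lit 2363676)),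
    (k5,(nat_lit 2363676)),(k2,(nat_lit 2506126))],[(k5,(nat_lit 1573250)),(k2,(nat_lit 1715700)),(k3,
    (nat_lit 1715700)),(k6,(nat_lit 1715700)),(k7,(nat_lit 1715700)),(k8,(nat_lit 1899525)),(k9,(nat_lit 1899525)),
    (k0,(nat_lit 2024526)),(k1,(nat_lit 2024526)),(k4,(nat_lit 2054850))],[(k9,(nat_lit 1531875)),(k2,
    (nat_lit 1715700)),(k3,(nat_lit 1715700)),(k6,(nat_lit 1715700)),(k7,(nat_lit 1715700)),(k8,(nat_lit 1899525)),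
    (k4,(nat_lit 2054850)),(k5,(nat_lit 2054850)),(k0,(nat_lit 2506126)),(k1,(nat_lit 2506126))],[(k3,
    (nat_lit 1573250)),(k8,(nat_lit 1757075)),(k2,(nat_lit 2054850)),(k7,(nat_lit 2054850)),(k9,(nat_lit 2238675)),
    (k0,(nat_lit 2363676)),(k1,(nat_lit 2363676)),(k4,(nat_lit 2394000)),(k5,(nat_lit 2394000)),(k6,
    (nat_lit 2422500))],[(k2,(nat_lit 2054850)),(k3,(nat_lit 2054850)),(k7,(nat_lit 2054850)),(k8,(nat_lit 2238675)),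
    (k9,(nat_lit 2238675)),(k0,(nat_lit 2363676)),(k1,(nat_lit 2363676)),(k4,(nat_lit 2394000)),(k5,
    (nat_lit 2394000)),(k6,(nat_lit 2422500))],[(k9,(nat_lit 1531875)),(k2,(nat_lit 1715700)),(k3,(nat_lit 1715700)),
    (k6,(nat_lit 1715700)),(k7,(nat_lit 1715700)),(k8,(nat_lit 1899525)),(k0,(nat_lit 2024526)),(k1,
    (nat_lit 2024526)),(k4,(nat_lit 2054850)),(k5,(nat_lit 2054850))],[(k1,(nat_lit 1411776)),(k2,(nat_lit 1715700)),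
    (k3,(nat_lit 1715700)),(k6,(nat_lit 1715700)),(k7,(nat_lit 1715700)),(k8,(nat_lit 1899525)),(k9,
    (nat_lit 1899525)),(k0,(nat_lit 2024526)),(k4,(nat_lit 2422500)),(k5,(nat_lit 2422500))],[(k2,(nat_lit 1531875)),
    (k7,(nat_lit 1531875)),(k3,(nat_lit 1899525)),(k6,(nat_lit 1899525)),(k9,(nat_lit 2083350)),(k0,
    (nat_lit 2208351)),(k1,(nat_lit 2208351)),(k4,(nat_lit 2238675)),(k5,(nat_lit 2238675)),(k8,(nat_lit 2696100))],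
    [(k5,(nat_lit 1757075)),(k2,(nat_lit 1899525)),(k3,(nat_lit 1899525)),(k6,(nat_lit 1899525)),(k7,
    (nat_lit 1899525)),(k8,(nat_lit 2083350)),(k0,(nat_lit 2208351)),(k1,(nat_lit 2208351)),(k4,(nat_lit 2238675)),
    (k9,(nat_lit 2696100))]]
    [[k2,k0,k0,k1,k0],[k2,k0,k0,k0,k1],[k1,k2,k0,k0,k0],[k1,k1,k1,k0,k0],[k1,k1,k0,k1,k0],[k1,k1,k0,k0,k1],[k1,k0,k1,
    k1,k0],[k1,k0,k1,k0,k1],[k1,k0,k0,k2,k0],[k1,k0,k0,k1,k1],[k1,k0,k0,k0,k2],[k0,k3,k0,k0,k0],[k0,k2,k1,k0,k0],[k0,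
    k2,k0,k1,k0],[k0,k2,k0,k0,k1],[k0,k1,k2,k0,k0],[k0,k1,k1,k1,k0],[k0,k1,k1,k0,k1],[k0,k1,k0,k2,k0],[k0,k1,k0,k1,
    k1],[k0,k1,k0,k0,k2],[k0,k0,k2,k0,k1],[k0,k0,k1,k2,k0],[k0,k0,k1,k1,k1],[k0,k0,k1,k0,k2],[k0,k0,k0,k3,k0],[k0,k0,
    k0,k2,k1],[k0,k0,k0,k1,k2]]
    [.ref k18 k1 [(z1,[z0,y1,y1,z3]),(z1,[z1]),(z3,[y3,z2,z1])],.ref k0 k1 [(z1,[z0,y1,y1,z3]),(z2,[z3,z1,z1,y3]),(z1,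
    [y3,z1,z0,z3])],.ref k0 k1 [(z1,[z0,y1,y1,z3]),(z3,[y3,z4,z2]),(z3,[z6,y2,y1])],.ref k19 k0 [(z3,[y3,z2,z1]),(z3,
    [z6,y2,y1]),(z1,[y3,z1,z1])],.ref k20 k5 [(z3,[z3,y2,y1]),(z1,[y3,z1,z1]),(z3,[z0,z2,z1])],.ref k0 k1 [(z1,[z0,y1,
    y1,z3]),(z1,[y3,z1,z0,z3]),(z1,[z6,z0,z1,y6])],.ref k21 k8 [(z1,[y3,z1,z1]),(z1,[z3,z1]),(z1,[z0,y1,y1,z3])],
    .ref k22 k5 [(z3,[y3,y2,y1,z3]),(z1,[z3,z1,z1,y3]),(z3,[z0,z2,z1])],.ref k23 k4 [(z1,[z0,y1,y1,z3]),(z1,[z1]),(z1,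
    [y3,y2])],.ref k24 k4 [(z1,[z0,y1,y1,z3]),(z1,[z3,z1,z1,y3]),(z3,[y3,y2,y1,z3])],.ref k0 k1 [(z1,[z0,y1,y1,z3]),
    (z1,[z3,z2,z2,y6]),(z1,[y6,y2,y3,z12])],.ref k0 k1 [(z1,[z0,y1,y1,z3]),(z2,[y1,z2,z1]),(z1,[z1])],
    .ref k25 k1 [(z1,[z0,y1,y1,z3]),(z1,[y3,z3,z2]),(z1,[z6,z0,y1])],.ref k26 k5 [(z3,[z3,y4,y2]),(z1,[y3,z3,z2]),(z3,
    [z0,z2,z1])],.ref k0 k1 [(z1,[z0,y1,y1,z3]),(z4,[y3,z3,z1,z3]),(z2,[z3,z1,z1,y3])],.ref k19 k0 [(z6,[y3,z2,z1]),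
    (z1,[z1]),(z2,[y3,z0,z1])],.ref k27 k9 [(z1,[y3,z1,z1]),(z1,[z0,y1,y1,z3]),(z1,[y3,z0,z1])],.ref k28 k4 [(z1,[z0,
    y1,y1,z3]),(z1,[y1,z0,z0,z1]),(z1,[z3,y1,z0,y3])],.ref k20 k5 [(z6,[z3,y2,y1]),(z2,[y3,z0,z1]),(z3,[z0,z2,z1])],
    .ref k29 k5 [(z1,[z3,y1,z0,y3]),(z1,[y1,z0,z0,z1]),(z3,[z0,z2,z1])],.ref k0 k1 [(z1,[z0,y1,y1,z3]),(z2,[y3,z0,y1,
    z6]),(z1,[z3,z2,z2,y6])],.ref k12 k5 [(z2,[y3,y3,y1,z3]),(z2,[z3,z1,z1,y3]),(z3,[z0,z2,z1])],.ref k30 k1 [(z1,[z0,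
    y1,y1,z3]),(z1,[z3,z1]),(z1,[y6,z0,z1])],.contra [z3,z2,z1,y3],.ref k12 k5 [(z1,[y3,y3,y2,z6]),(z1,[z3,z2,z2,y6]),
    (z3,[z0,z2,z1])],.ref k4 k3 [(z1,[y1,y1]),(z3,[z0,z2,z1]),(z1,[z0,y1,y1,z3])],.ref k4 k3 [(z2,[y3,y3,y1,z3]),(z3,
    [z0,z2,z1]),(z1,[z0,y1,y1,z3])],.ref k4 k3 [(z1,[y3,y3,y2,z6]),(z3,[z0,z2,z1]),(z1,[z0,y1,y1,z3])]],
    .base (.leafM k0 [k0,k1,k2,k3,k4] [(z1,[z1,z1])] []),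
    .base (.leafM k0 [k0,k1,k2,k3,k4] [(z1,[z1,z1])] []),
    .base (.leafM k2 [k1,k2,k3,k4,k0] [(z1,[z0,z0,z1])] []),
    .base (.leafM k0 [k2,k3,k4,k0,k1] [(z1,[z0,z0,z1])] [])]

theorem hB5_39_2 : blkB [0, 0, 0, 0, 0] [] sp5 hS5_39 (pcls (n := 5) [0, 0, 0, 0, 0]) hD5_39 186 2 hN5_39_2 = true := by
  decide +kernel

/-- nodes 36 to 47 -/
noncomputable def hN5_39_3 : List HM :=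
  [.base (.leafM k2 [k4,k0,k1,k2,k3] [(z3,[z1,z0,z1])] []),
    .base (.leafM k0 [k1,k2,k3,k4,k0] [(z3,[z0,z1,z1])] []),
    .base (.geo z3 k4 [(y6,z12),(z7,y9),(z6,y6),(z2,z0),(z0,z3)] [(z1,[z3]),(z1,[z0,z1]),(z1,[z0,z0,z3]),(z1,[y3,y1,
    y3,z3]),(z1,[])] k8),
    .base (.spec k5 false k1 [(z3,[z1,z0,z2]),(z1,[z0,z1])]),
    .base (.geo z3 k4 [(y6,z12),(z6,y6),(z7,y9),(z2,z0),(z0,z3)] [(z1,[z3]),(z1,[z0,z3]),(z1,[z0,z0,z1]),(z1,[y3,y3,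
    y1,z3]),(z1,[])] k13),
    .base (.leafM k0 [k0,k1,k2,k3,k4] [(z3,[z1,z1])] []),
    .base (.spec k7 false k1 [(z1,[z0,z1]),(z3,[z1,z0,z2])]),
    .base (.geo z3 k3 [(y6,z12),(z6,y6),(z7,y9),(z0,z3),(z2,z0)] [(z1,[z3]),(z1,[z0,z3]),(z1,[z0,z0,z1]),(z1,[]),(z1,
    [y3,y3,y1,z3])] k13),
    .lp k0 [(nat_lit 8900850),(nat_lit 16258886),(nat_lit 9375562),(nat_lit 9672600),
    (nat_lit 8900850)] [(nat_lit 3679018),(nat_lit 3679018),k0,k0,(nat_lit 3441662),(nat_lit 3441662),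
    (nat_lit 3500743),(nat_lit 3085543),(nat_lit 3679018),(nat_lit 3679018)] k0 [[k0,k0,k0,(nat_lit 593390),
    (nat_lit 593390),k0,k0,k0,k0,k0],[(nat_lit 5221832),k0,k0,k0,k0,k0,k0,k0,k0,(nat_lit 3679018)],[k0,
    (nat_lit 593390),k0,k0,k0,k0,k0,k0,k0,k0],[k0,k0,k0,k0,k0,k0,k0,k0,k0,k0],[k0,k0,k0,k0,k0,k0,k0,k0,k0,k0],[k0,
    (nat_lit 593390),k0,k0,k0,k0,k0,k0,k0,k0],[k0,k0,k0,k0,k0,k0,k0,k0,k0,k0],[k0,k0,k0,k0,k0,k0,k0,k0,k0,k0],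
    [(nat_lit 3679018),k0,k0,k0,k0,k0,k0,k0,k0,k0],[k0,k0,k0,k0,k0,k0,k0,k0,k0,k0]] (nat_lit 35603400) k5
    [[(k1,(nat_lit 8900850)),(k8,(nat_lit 8900850)),(k9,(nat_lit 8900850)),(k6,(nat_lit 9079125)),(k4,
    (nat_lit 9138206)),(k5,(nat_lit 9138206)),(k7,(nat_lit 9494325)),(k0,(nat_lit 12579868)),(k2,(nat_lit 12579868)),
    (k3,(nat_lit 12579868))],[(k8,(nat_lit 8900850)),(k9,(nat_lit 8900850)),(k7,(nat_lit 8900935)),(k6,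
    (nat_lit 9079125)),(k4,(nat_lit 9138206)),(k5,(nat_lit 9138206)),(k2,(nat_lit 11986478)),(k1,(nat_lit 12579868)),
    (k3,(nat_lit 12579868)),(k0,(nat_lit 14122682))],[(k8,(nat_lit 8900850)),(k3,(nat_lit 11037054)),(k0,
    (nat_lit 12579868)),(k1,(nat_lit 12579868)),(k9,(nat_lit 12579868)),(k6,(nat_lit 12758143)),(k7,
    (nat_lit 13173343)),(k4,(nat_lit 13410614)),(k5,(nat_lit 13410614)),(k2,(nat_lit 16258886))],[(k0,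
    (nat_lit 11986478)),(k1,(nat_lit 12579868)),(k8,(nat_lit 12579868)),(k9,(nat_lit 12579868)),(k6,
    (nat_lit 12758143)),(k4,(nat_lit 12817224)),(k5,(nat_lit 12817224)),(k7,(nat_lit 13173343)),(k2,
    (nat_lit 16258886)),(k3,(nat_lit 16258886))],[(k0,(nat_lit 9138206)),(k1,(nat_lit 9138206)),(k8,
    (nat_lit 9138206)),(k9,(nat_lit 9138206)),(k6,(nat_lit 9316481)),(k4,(nat_lit 9375562)),(k5,(nat_lit 9375562)),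
    (k7,(nat_lit 9731681)),(k2,(nat_lit 12817224)),(k3,(nat_lit 13410614))],[(k0,(nat_lit 9138206)),(k1,
    (nat_lit 9138206)),(k8,(nat_lit 9138206)),(k9,(nat_lit 9138206)),(k6,(nat_lit 9316481)),(k4,(nat_lit 9375562)),
    (k5,(nat_lit 9375562)),(k7,(nat_lit 9731681)),(k2,(nat_lit 12817224)),(k3,(nat_lit 13410614))],[(k0,
    (nat_lit 8900935)),(k1,(nat_lit 9494325)),(k8,(nat_lit 9494325)),(k9,(nat_lit 9494325)),(k6,(nat_lit 9672600)),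
    (k4,(nat_lit 9731681)),(k5,(nat_lit 9731681)),(k7,(nat_lit 10087800)),(k2,(nat_lit 13173343)),(k3,
    (nat_lit 13173343))],[(k0,(nat_lit 9079125)),(k1,(nat_lit 9079125)),(k8,(nat_lit 9079125)),(k9,(nat_lit 9079125)),
    (k6,(nat_lit 9257400)),(k4,(nat_lit 9316481)),(k5,(nat_lit 9316481)),(k7,(nat_lit 9672600)),(k2,
    (nat_lit 12758143)),(k3,(nat_lit 12758143))],[(k0,(nat_lit 8900850)),(k1,(nat_lit 8900850)),(k8,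
    (nat_lit 8900850)),(k9,(nat_lit 8900850)),(k6,(nat_lit 9079125)),(k4,(nat_lit 9138206)),(k5,(nat_lit 9138206)),
    (k7,(nat_lit 9494325)),(k2,(nat_lit 12579868)),(k3,(nat_lit 12579868))],[(k0,(nat_lit 8900850)),(k1,
    (nat_lit 8900850)),(k3,(nat_lit 8900850)),(k8,(nat_lit 8900850)),(k9,(nat_lit 8900850)),(k6,(nat_lit 9079125)),
    (k4,(nat_lit 9138206)),(k5,(nat_lit 9138206)),(k7,(nat_lit 9494325)),(k2,(nat_lit 12579868))]]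
    [[k2,k0,k1,k0,k0],[k2,k0,k0,k1,k0],[k2,k0,k0,k0,k1],[k2,k1,k0,k0,k0],[k1,k1,k1,k0,k0],[k1,k1,k0,k1,k0],[k1,k1,k0,
    k0,k1],[k1,k0,k2,k0,k0],[k1,k0,k1,k1,k0],[k1,k0,k1,k0,k1],[k1,k0,k0,k2,k0],[k1,k0,k0,k1,k1],[k1,k0,k0,k0,k2],[k0,
    k1,k1,k0,k1],[k0,k1,k1,k1,k0],[k0,k1,k0,k1,k1],[k0,k1,k0,k0,k2],[k0,k0,k3,k0,k0],[k0,k0,k2,k1,k0],[k0,k0,k2,k0,
    k1],[k0,k0,k1,k2,k0],[k0,k0,k1,k1,k1],[k0,k0,k1,k0,k2],[k0,k0,k0,k3,k0],[k0,k0,k0,k2,k1],[k0,k0,k0,k1,k2],[k0,k0,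
    k0,k0,k3]]
    [.ref k10 k4 [(z1,[y3,z1,y3,z3]),(z1,[z0,z0,z1]),(z1,[z3,y2])],.ref k3 k0 [(z1,[z0,z1]),(z2,[y3,z2,z3]),(z2,[y1,
    z0,y1,z2])],.ref k5 k6 [(z1,[y3,z1,y3,z3]),(z1,[z0,z0,z1]),(z1,[z3,y2])],.ref k3 k0 [(z1,[z0,z1]),(z1,[z3,y2]),
    (z1,[z1,y1,y1,z1])],.ref k32 k4 [(z1,[y1,z0,y1,z1]),(z1,[z0,z0,z1]),(z1,[z3,y1])],.ref k3 k0 [(z1,[z0,z1]),(z1,
    [y3,z1,z3]),(z1,[y1,z0,z0,z1])],.ref k33 k6 [(z1,[y1,z0,y1,z1]),(z1,[z0,z0,z1]),(z1,[z3,y1])],.ref k10 k4 [(z2,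
    [y3,y1,y6,z6]),(z1,[z0,z0,z1]),(z2,[z3,y1])],.ref k34 k6 [(z1,[z3,y1,y3]),(z1,[z0,z0,z1]),(z1,[y1,z0,z0,z1])],
    .contra [z1,z0,z1,y1],.ref k3 k0 [(z1,[z0,z1]),(z4,[y3,z1,z6]),(z4,[y1,y1,y2,z4])],.ref k35 k4 [(z1,[z3,y1,y3]),
    (z1,[z0,z0,z1]),(z1,[y1,z0,z0,z1])],.ref k5 k6 [(z2,[y3,y1,y6,z6]),(z1,[z0,z0,z1]),(z2,[z3,y1])],.ref k36 k2 [(z1,
    [y3,y1,z0,z3]),(z1,[z3,y1,y3,z3]),(z1,[z0,z1])],.ref k37 k8 [(z1,[y1,z0,z1]),(z1,[z0,z1]),(z1,[y3,y1,z0,z3])],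
    .ref k20 k7 [(z1,[y1,z0,z1]),(z1,[y3,y1,z0,z3]),(z1,[z2,z0,y1])],.ref k38 k5 [(z1,[y2,z0,z1]),(z1,[z3,y1,y3,z3]),
    (z1,[z1])],.ref k10 k4 [(z1,[y1,y1,y3,z3]),(z1,[z0,z0,z1]),(z1,[z1])],.ref k37 k8 [(z2,[y1,z0,z1]),(z1,[z0,z1]),
    (z2,[y3,y2,y3,z6])],.ref k39 k4 [(z1,[y3,y2,y6,z6]),(z1,[z0,z0,z1]),(z1,[z3,z1,z3,y3])],.ref k40 k6 [(z1,[z1,z0,
    y2]),(z1,[z0,z0,z1]),(z1,[y3,y1,z3,z3])],.ref k41 k8 [(z1,[y3,y1,z0,z3]),(z1,[z0,z1]),(z1,[y3,y2,y3,z6])],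
    .ref k42 k6 [(z1,[y3,y2,y6,z6]),(z1,[z0,z0,z1]),(z1,[z3,z1,z3,y3])],.ref k3 k0 [(z1,[z0,z1]),(z2,[y1,z0,z3]),(z6,
    [y1,y2,y3,z6])],.ref k43 k4 [(z1,[z1,z0,y2]),(z1,[z0,z0,z1]),(z1,[y3,y1,z3,z3])],.ref k20 k7 [(z2,[y1,z0,z1]),(z2,
    [y3,y2,y3,z6]),(z1,[z1])],.ref k5 k6 [(z1,[y1,y1,y3,z3]),(z1,[z0,z0,z1]),(z1,[z1])]],
    .base (.leafM k2 [k4,k0,k1,k2,k3] [(z1,[z1,z0,z1])] []),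
    .base (.leafM k0 [k3,k4,k0,k1,k2] [(z6,[y2,y3,y1,z6])] []),
    .base (.leafM k2 [k3,k4,k0,k1,k2] [(z1,[y1,z0,y1,z1])] [])]

theorem hB5_39_3 : blkB [0, 0, 0, 0, 0] [] sp5 hS5_39 (pcls (n := 5) [0, 0, 0, 0, 0]) hD5_39 186 3 hN5_39_3 = true := by
  decide +kernel

/-- nodes 48 to 59 -/
noncomputable def hN5_39_4 : List HM :=
  [.base (.leafM k2 [k0,k1,k2,k3,k4] [(z1,[y1,z0,y1,z1])] []),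
    .base (.leafM k0 [k0,k1,k2,k3,k4] [(z3,[z1,z1])] []),
    .base (.leafM k0 [k1,k2,k3,k4,k0] [(z2,[z0,z1,z1])] []),
    .base (.leafM k2 [k3,k4,k0,k1,k2] [(z1,[z0,z1])] []),
    .base (.leafM k0 [k0,k1,k2,k3,k4] [(z3,[z1,z1])] []),
    .base (.spec k2 false k3 [(z3,[z1,z0,z2]),(z3,[y1,y1,y1,z3])]),
    .base (.spec k1 false k3 [(z6,[y2,y3,z1,z6]),(z1,[z0,z1])]),
    .lp k0 [(nat_lit 16258886),(nat_lit 8900850),(nat_lit 8900850),(nat_lit 9672600),(nat_lit 9375562)] [k0,k0,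
    (nat_lit 3679018),(nat_lit 3679018),(nat_lit 3679018),(nat_lit 3679018),(nat_lit 3085543),(nat_lit 3500743),
    (nat_lit 3441662),(nat_lit 3441662)] k0 [[k0,(nat_lit 5221832),(nat_lit 3679018),k0,k0,k0,k0,k0,k0,k0],[k0,k0,k0,
    k0,k0,k0,k0,(nat_lit 593390),(nat_lit 593390),k0],[k0,k0,k0,k0,k0,k0,k0,k0,k0,k0],[k0,(nat_lit 3679018),k0,k0,k0,
    k0,k0,k0,k0,k0],[k0,k0,k0,k0,k0,k0,k0,k0,k0,k0],[k0,k0,k0,k0,k0,k0,k0,k0,k0,k0],[(nat_lit 593390),k0,k0,k0,k0,k0,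
    k0,k0,k0,k0],[k0,k0,k0,k0,k0,k0,k0,k0,k0,k0],[k0,k0,k0,k0,k0,k0,k0,k0,k0,k0],[(nat_lit 593390),k0,k0,k0,k0,k0,k0,
    k0,k0,k0]] (nat_lit 35603400) k5
    [[(k3,(nat_lit 11986478)),(k2,(nat_lit 12579868)),(k4,(nat_lit 12579868)),(k5,(nat_lit 12579868)),(k7,
    (nat_lit 12758143)),(k8,(nat_lit 12817224)),(k9,(nat_lit 12817224)),(k6,(nat_lit 13173343)),(k0,
    (nat_lit 16258886)),(k1,(nat_lit 16258886))],[(k5,(nat_lit 8900850)),(k0,(nat_lit 11037054)),(k2,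
    (nat_lit 12579868)),(k3,(nat_lit 12579868)),(k4,(nat_lit 12579868)),(k7,(nat_lit 12758143)),(k6,
    (nat_lit 13173343)),(k8,(nat_lit 13410614)),(k9,(nat_lit 13410614)),(k1,(nat_lit 16258886))],[(k4,
    (nat_lit 8900850)),(k5,(nat_lit 8900850)),(k6,(nat_lit 8900935)),(k7,(nat_lit 9079125)),(k8,(nat_lit 9138206)),
    (k9,(nat_lit 9138206)),(k1,(nat_lit 11986478)),(k0,(nat_lit 12579868)),(k2,(nat_lit 12579868)),(k3,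
    (nat_lit 14122682))],[(k2,(nat_lit 8900850)),(k4,(nat_lit 8900850)),(k5,(nat_lit 8900850)),(k7,(nat_lit 9079125)),
    (k8,(nat_lit 9138206)),(k9,(nat_lit 9138206)),(k6,(nat_lit 9494325)),(k0,(nat_lit 12579868)),(k1,
    (nat_lit 12579868)),(k3,(nat_lit 12579868))],[(k0,(nat_lit 8900850)),(k2,(nat_lit 8900850)),(k3,
    (nat_lit 8900850)),(k4,(nat_lit 8900850)),(k5,(nat_lit 8900850)),(k7,(nat_lit 9079125)),(k8,(nat_lit 9138206)),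
    (k9,(nat_lit 9138206)),(k6,(nat_lit 9494325)),(k1,(nat_lit 12579868))],[(k2,(nat_lit 8900850)),(k3,
    (nat_lit 8900850)),(k4,(nat_lit 8900850)),(k5,(nat_lit 8900850)),(k7,(nat_lit 9079125)),(k8,(nat_lit 9138206)),
    (k9,(nat_lit 9138206)),(k6,(nat_lit 9494325)),(k0,(nat_lit 12579868)),(k1,(nat_lit 12579868))],[(k2,
    (nat_lit 9079125)),(k3,(nat_lit 9079125)),(k4,(nat_lit 9079125)),(k5,(nat_lit 9079125)),(k7,(nat_lit 9257400)),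
    (k8,(nat_lit 9316481)),(k9,(nat_lit 9316481)),(k6,(nat_lit 9672600)),(k0,(nat_lit 12758143)),(k1,
    (nat_lit 12758143))],[(k3,(nat_lit 8900935)),(k2,(nat_lit 9494325)),(k4,(nat_lit 9494325)),(k5,(nat_lit 9494325)),
    (k7,(nat_lit 9672600)),(k8,(nat_lit 9731681)),(k9,(nat_lit 9731681)),(k6,(nat_lit 10087800)),(k0,
    (nat_lit 13173343)),(k1,(nat_lit 13173343))],[(k2,(nat_lit 9138206)),(k3,(nat_lit 9138206)),(k4,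
    (nat_lit 9138206)),(k5,(nat_lit 9138206)),(k7,(nat_lit 9316481)),(k8,(nat_lit 9375562)),(k9,(nat_lit 9375562)),
    (k6,(nat_lit 9731681)),(k1,(nat_lit 12817224)),(k0,(nat_lit 13410614))],[(k2,(nat_lit 9138206)),(k3,
    (nat_lit 9138206)),(k4,(nat_lit 9138206)),(k5,(nat_lit 9138206)),(k7,(nat_lit 9316481)),(k8,(nat_lit 9375562)),
    (k9,(nat_lit 9375562)),(k6,(nat_lit 9731681)),(k1,(nat_lit 12817224)),(k0,(nat_lit 13410614))]]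
    [[k1,k1,k1,k0,k0],[k1,k1,k0,k1,k0],[k1,k1,k0,k0,k1],[k1,k2,k0,k0,k0],[k1,k0,k2,k0,k0],[k1,k0,k1,k1,k0],[k1,k0,k1,
    k0,k1],[k1,k0,k0,k1,k1],[k0,k2,k1,k0,k0],[k0,k2,k0,k1,k0],[k0,k2,k0,k0,k1],[k0,k1,k2,k0,k0],[k0,k1,k1,k1,k0],[k0,
    k1,k1,k0,k1],[k0,k1,k0,k2,k0],[k0,k1,k0,k1,k1],[k0,k1,k0,k0,k2],[k0,k0,k3,k0,k0],[k0,k0,k2,k1,k0],[k0,k0,k2,k0,
    k1],[k0,k0,k1,k2,k0],[k0,k0,k1,k1,k1],[k0,k0,k1,k0,k2],[k0,k0,k0,k3,k0],[k0,k0,k0,k2,k1],[k0,k0,k0,k1,k2],[k0,k0,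
    k0,k0,k3]]
    [.ref k0 k0 [(z1,[y3,z1,z0,z3]),(z1,[z0,z0,z1]),(z1,[z6,y1,y1,y3])],.ref k45 k4 [(z3,[y3,y1,z1]),(z1,[z3,z0,y1]),
    (z3,[z0,z1,y1,z3])],.ref k46 k8 [(z1,[z0,z0,z1]),(z3,[z0,z1,y1,z3]),(z1,[z6,y1,y1,y3])],.ref k0 k0 [(z1,[z3,z0,
    y2]),(z1,[z0,z0,z1]),(z1,[y6,z1,z3,z3])],.ref k0 k0 [(z3,[y3,z2,y2,z6]),(z1,[z0,z0,z1]),(z3,[z6,y1,z1,y3])],
    .ref k47 k0 [(z3,[y3,z1,y1,z3]),(z1,[z0,z0,z1]),(z3,[z6,y1,z1,y3])],.ref k48 k4 [(z3,[z3,y1,z1,y3]),(z1,[y3,z0,y1,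
    z3]),(z3,[z0,z1,y1,z3])],.ref k49 k3 [(z1,[y3,z0,y1,z3]),(z1,[z0,z0,z1]),(z1,[z3,z1])],.ref k0 k0 [(z2,[y3,z1,z1,
    z3]),(z1,[z0,z0,z1]),(z1,[z3,z0,y2])],.ref k11 k4 [(z1,[y3,y1,z2]),(z1,[z3,z0,y2]),(z3,[z0,z1,y1,z3])],
    .ref k10 k5 [(z1,[y3,y1,z2]),(z3,[z0,z1,y1,z3]),(z1,[z0,z0,z1])],.ref k0 k0 [(z4,[y3,z2,y1,z6]),(z1,[z0,z0,z1]),
    (z2,[z3,z0,y1])],.ref k50 k8 [(z1,[z0,z0,z1]),(z3,[z0,z1,y1,z3]),(z3,[y6,y1,z1,z3])],.ref k51 k4 [(z1,[z3,y1,z0,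
    y3]),(z1,[y1,z0,z0,z1]),(z3,[z0,z1,y1,z3])],.ref k11 k4 [(z2,[y3,y2,z1]),(z2,[z3,z0,y1]),(z3,[z0,z1,y1,z3])],
    .contra [z3,z1,y1],.ref k10 k5 [(z2,[y3,y2,z1]),(z3,[z0,z1,y1,z3]),(z1,[z0,z0,z1])],.ref k0 k0 [(z2,[y1,z1,y1,
    z3]),(z1,[z0,z0,z1]),(z1,[z1])],.ref k23 k8 [(z1,[z0,z0,z1]),(z3,[z0,z1,y1,z3]),(z1,[y6,y1,y1,z3])],
    .ref k38 k4 [(z3,[z3,y2,z2,y6]),(z1,[y3,z1,y2,z6]),(z3,[z0,z1,y1,z3])],.ref k47 k0 [(z6,[y3,z1,y1,z3]),(z1,[z0,z0,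
    z1]),(z1,[z1])],.ref k52 k0 [(z1,[y3,z0,y1,z3]),(z1,[z0,z0,z1]),(z1,[z6,z1,z1,y3])],.ref k48 k4 [(z6,[z3,y1,z1,
    y3]),(z2,[y3,y1,y1,z3]),(z3,[z0,z1,y1,z3])],.ref k11 k4 [(z1,[y1,y1]),(z1,[z1]),(z3,[z0,z1,y1,z3])],
    .ref k53 k3 [(z1,[y6,y1,y1,z3]),(z1,[z0,z0,z1]),(z1,[z3,z1])],.ref k54 k8 [(z1,[z0,z0,z1]),(z3,[z0,z1,y1,z3]),(z1,
    [z6,z1,z1,y3])],.ref k10 k5 [(z1,[y1,y1]),(z3,[z0,z1,y1,z3]),(z1,[z0,z0,z1])]],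
    .base (.leafM k0 [k1,k2,k3,k4,k0] [(z3,[z0,z1,z1])] []),
    .base (.leafM k2 [k4,k0,k1,k2,k3] [(z3,[z1,z0,z1])] []),
    .base (.leafM k2 [k3,k4,k0,k1,k2] [(z1,[z0,z1])] []),
    .base (.leafM k0 [k0,k1,k2,k3,k4] [(z3,[z1,z1])] [])]

theorem hB5_39_4 : blkB [0, 0, 0, 0, 0] [] sp5 hS5_39 (pcls (n := 5) [0, 0, 0, 0, 0]) hD5_39 186 4 hN5_39_4 = true := by
  decide +kernel

/-- nodes 60 to 71 -/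
noncomputable def hN5_39_5 : List HM :=
  [.base (.geo z12 k4 [(z8,z0),(z12,y6),(z6,z3),(z10,y9),(z0,z12)] [(z1,[z4]),(z1,[z0,z6]),(z1,[z0,z0,z3]),(z1,[y4,y6,
    y3,z12]),(z1,[])] k4),
    .base (.geo z6 k3 [(y4,z9),(z12,y12),(z6,y3),(z0,z6),(z4,z0)] [(z1,[z1]),(z1,[z0,z6]),(z1,[z0,z0,z3]),(z1,[]),(z1,
    [y1,y6,y3,z6])] k6),
    .base (.leafM k0 [k2,k3,k4,k0,k1] [(z3,[y1,y1,z0,z3])] []),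
    .base (.leafM k2 [k0,k1,k2,k3,k4] [(z1,[z0,z1])] []),
    .base (.leafM k2 [k4,k0,k1,k2,k3] [(z3,[z1,z0,z1])] []),
    .base (.geo z3 k3 [(y4,z6),(z5,y3),(z6,y6),(z0,z3),(z2,z0)] [(z1,[z1]),(z1,[z0,z1]),(z1,[z0,z0,z3]),(z1,[]),(z1,
    [y1,y1,y3,z3])] k7),
    .base (.spec k16 false k2 [(z3,[y2,y2,y1,z6]),(z3,[z0,z1,z1])]),
    .lp k0 [k49,k30,k40,k30,k30] [k3,k0,k11,k11,k6,k6,k11,k11,k11,k11] k0 [[k0,k0,k0,k0,k0,k0,k0,k0,k0,k0],[k0,k0,k3,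
    k0,k0,k3,k0,k0,k11,k0],[k0,k0,k0,k0,k0,k0,k0,k0,k0,k0],[k3,k0,k0,k0,k0,k0,k0,k0,k0,k3],[k3,k0,k0,k0,k0,k0,k0,k0,
    k0,k3],[k0,k0,k0,k0,k0,k0,k0,k0,k0,k0],[k0,k0,k0,k0,k0,k0,k0,k0,k11,k0],[k0,k0,k0,k0,k0,k0,k0,k0,k0,k0],[k0,k0,k3,
    k0,k0,k3,k0,k0,k0,k0],[k11,k0,k0,k0,k0,k0,k0,k11,k11,k0]] k120 k5
    [[(k3,k30),(k6,k30),(k1,k41),(k8,k41),(k9,k41),(k2,k44),(k7,k44),(k4,k46),(k5,k46),(k0,k49)],[(k3,k38),(k6,k38),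
    (k9,k38),(k2,k41),(k7,k41),(k4,k43),(k5,k43),(k0,k46),(k1,k49),(k8,k49)],[(k1,k30),(k2,k30),(k3,k30),(k6,k30),(k7,
    k30),(k8,k30),(k9,k30),(k4,k32),(k5,k32),(k0,k38)],[(k2,k30),(k3,k30),(k6,k30),(k7,k30),(k8,k30),(k9,k30),(k4,
    k35),(k5,k35),(k0,k41),(k1,k44)],[(k3,k32),(k8,k32),(k2,k35),(k6,k35),(k7,k35),(k9,k35),(k4,k40),(k5,k40),(k0,
    k43),(k1,k46)],[(k3,k32),(k8,k32),(k2,k35),(k6,k35),(k7,k35),(k9,k35),(k4,k40),(k5,k40),(k0,k43),(k1,k46)],[(k2,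
    k30),(k3,k30),(k6,k30),(k7,k30),(k8,k30),(k9,k30),(k4,k35),(k5,k35),(k0,k41),(k1,k44)],[(k1,k30),(k2,k30),(k3,
    k30),(k6,k30),(k7,k30),(k8,k30),(k9,k30),(k4,k35),(k5,k35),(k0,k38)],[(k2,k30),(k3,k30),(k6,k30),(k7,k30),(k9,
    k30),(k4,k35),(k5,k35),(k0,k38),(k1,k41),(k8,k41)],[(k2,k30),(k3,k30),(k6,k30),(k7,k30),(k4,k32),(k5,k32),(k1,
    k41),(k8,k41),(k9,k41),(k0,k49)]]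
    [[k1,k2,k0,k0,k0],[k1,k1,k1,k0,k0],[k1,k1,k0,k1,k0],[k1,k1,k0,k0,k1],[k1,k0,k1,k1,k0],[k1,k0,k1,k0,k1],[k1,k0,k0,
    k2,k0],[k1,k0,k0,k1,k1],[k0,k3,k0,k0,k0],[k0,k2,k1,k0,k0],[k0,k2,k0,k1,k0],[k0,k2,k0,k0,k1],[k0,k1,k2,k0,k0],[k0,
    k1,k1,k1,k0],[k0,k1,k1,k0,k1],[k0,k1,k0,k2,k0],[k0,k1,k0,k1,k1],[k0,k1,k0,k0,k2],[k0,k0,k2,k1,k0],[k0,k0,k2,k0,
    k1],[k0,k0,k1,k2,k0],[k0,k0,k1,k1,k1],[k0,k0,k1,k0,k2],[k0,k0,k0,k3,k0],[k0,k0,k0,k2,k1],[k0,k0,k0,k1,k2],[k0,k0,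
    k0,k0,k3]]
    [.ref k0 k0 [(z3,[y3,z4,z2]),(z3,[z6,y2,y1]),(z1,[z0,y1,y1,z3])],.ref k0 k0 [(z1,[y3,z1,z0,z3]),(z1,[z6,z0,z1,
    y6]),(z1,[z0,y1,y1,z3])],.ref k47 k5 [(z3,[z3,y2,y1]),(z1,[z0,y1,y1,z3]),(z3,[z0,z2,z1])],.ref k56 k4 [(z3,[z3,y2,
    y1]),(z1,[y3,z1,z1]),(z1,[z0,y1,y1,z3])],.ref k57 k8 [(z1,[y6,z0,y1,z6]),(z1,[z3,z1,z1,y3]),(z1,[z3,z0,z1,y3])],
    .ref k58 k6 [(z1,[z0,y1,y1,z3]),(z1,[y1,z0,z0,z1]),(z1,[z6,z0,z1,y6])],.ref k43 k8 [(z3,[y6,z2,z1]),(z1,[z1]),(z1,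
    [z3,y1])],.ref k59 k7 [(z1,[y3,z1,z1]),(z1,[z0,y1,y1,z3]),(z1,[z3,y1])],.ref k0 k0 [(z2,[y1,z2,z1]),(z1,[z1]),(z1,
    [z0,y1,y1,z3])],.ref k0 k0 [(z4,[y3,z3,z1,z3]),(z2,[z3,z1,z1,y3]),(z1,[z0,y1,y1,z3])],.ref k60 k3 [(z1,[z0,y1,y1,
    z3]),(z1,[z1]),(z3,[y3,z4,z2])],.ref k61 k2 [(z1,[y6,z0,z1]),(z1,[z1]),(z3,[z0,z2,z1])],.ref k0 k0 [(z2,[y3,z0,y1,
    z6]),(z1,[z3,z2,z2,y6]),(z1,[z0,y1,y1,z3])],.ref k62 k6 [(z1,[z0,y1,y1,z3]),(z1,[z3,z1,z1,y3]),(z3,[y6,y2,y1,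
    z6])],.ref k63 k8 [(z3,[z6,z2,z1,y6]),(z1,[y1,z0,z0,z1]),(z1,[y3,y1,z0,z3])],.ref k47 k5 [(z6,[z3,y2,y1]),(z1,[z0,
    y1,y1,z3]),(z3,[z0,z2,z1])],.ref k64 k0 [(z1,[y3,z1,z1]),(z1,[z6,z0,y1]),(z1,[z0,y1,y1,z3])],.ref k56 k4 [(z6,[z3,
    y2,y1]),(z2,[y3,z0,z1]),(z1,[z0,y1,y1,z3])],.ref k6 k4 [(z1,[y3,y3,y2,z6]),(z1,[z3,z2,z2,y6]),(z1,[z0,y1,y1,z3])],
    .ref k12 k5 [(z1,[y3,y3,y2,z6]),(z1,[z0,y1,y1,z3]),(z3,[z0,z2,z1])],.ref k6 k4 [(z2,[y3,y3,y1,z3]),(z2,[z3,z1,z1,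
    y3]),(z1,[z0,y1,y1,z3])],.contra [z3,z2,z1,y3],.ref k12 k5 [(z2,[y3,y3,y1,z3]),(z1,[z0,y1,y1,z3]),(z3,[z0,z2,
    z1])],.ref k6 k4 [(z1,[y1,y1]),(z1,[z1]),(z1,[z0,y1,y1,z3])],.ref k65 k8 [(z1,[y6,z0,z1]),(z1,[z3,z1]),(z1,[z1])],
    .ref k66 k6 [(z1,[z0,y1,y1,z3]),(z1,[y3,z0,z1]),(z1,[z6,z0,y1])],.ref k12 k5 [(z1,[y1,y1]),(z1,[z0,y1,y1,z3]),(z3,
    [z0,z2,z1])]],
    .base (.leafM k0 [k0,k1,k2,k3,k4] [(z3,[z1,z1])] []),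
    .base (.leafM k2 [k4,k0,k1,k2,k3] [(z1,[z0,y1,z1])] []),
    .base (.leafM k0 [k0,k1,k2,k3,k4] [(z3,[z1,z1])] []),
    .base (.leafM k0 [k3,k4,k0,k1,k2] [(z3,[y1,y1,y3,z3])] [])]

theorem hB5_39_5 : blkB [0, 0, 0, 0, 0] [] sp5 hS5_39 (pcls (n := 5) [0, 0, 0, 0, 0]) hD5_39 186 5 hN5_39_5 = true := by
  decide +kernel

/-- nodes 72 to 83 -/
noncomputable def hN5_39_6 : List HM :=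
  [.base (.leafM k2 [k4,k0,k1,k2,k3] [(z1,[z1,z0,z1])] []),
    .base (.leafM k0 [k2,k3,k4,k0,k1] [(z1,[z0,z0,z1])] []),
    .base (.leafM k0 [k0,k1,k2,k3,k4] [(z3,[z1,z1])] []),
    .base (.spec k6 false k1 [(z1,[z0,z0,z1]),(z3,[y1,y2,y6,z6])]),
    .base (.leafM k2 [k4,k0,k1,k2,k3] [(z3,[z1,z0,z1])] []),
    .base (.geo z3 k4 [(y6,z12),(z2,z0),(z6,y6),(z7,y9),(z0,z3)] [(z1,[z3]),(z1,[z0,z1]),(z1,[z0,z0,z3]),(z1,[y3,y1,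
    y3,z3]),(z1,[])] k7),
    .base (.geo z3 k4 [(y5,z9),(z2,z0),(z6,y6),(z6,y6),(z0,z3)] [(z1,[z1]),(z1,[z0,z1]),(z1,[z0,z0,z3]),(z1,[y1,y1,y3,
    z3]),(z1,[])] k9),
    .base (.geo z3 k4 [(y6,z12),(z2,z0),(z7,y9),(z6,y6),(z0,z3)] [(z1,[z3]),(z1,[z0,z1]),(z1,[z0,z0,z1]),(z1,[y3,y1,
    y1,z3]),(z1,[])] k8),
    .base (.geo z6 k3 [(y4,z9),(z6,y3),(z12,y12),(z0,z6),(z4,z0)] [(z1,[z1]),(z1,[z0,z3]),(z1,[z0,z0,z6]),(z1,[]),(z1,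
    [y1,y3,y6,z6])] k6),
    .lp k0 [(nat_lit 57519840),(nat_lit 59015976),(nat_lit 61581888),(nat_lit 44903460),
    (nat_lit 44903460)] [(nat_lit 10477474),k0,(nat_lit 4490669),(nat_lit 4490669),(nat_lit 3207713),
    (nat_lit 3207713),(nat_lit 11546927),(nat_lit 11546927),(nat_lit 11546927),(nat_lit 11546927)] k0 [[k0,k0,
    (nat_lit 2565912),k0,k0,k0,k0,k0,k0,k0],[k0,k0,k0,k0,(nat_lit 5560800),k0,k0,k0,k0,(nat_lit 7056258)],[k0,k0,k0,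
    k0,(nat_lit 1496782),k0,k0,k0,(nat_lit 11546604),(nat_lit 2993564)],[k0,(nat_lit 2565912),k0,k0,k0,k0,k0,k0,k0,
    k0],[k0,k0,k0,k0,k0,k0,k0,k0,k0,k0],[(nat_lit 5560800),k0,k0,(nat_lit 1496782),k0,k0,k0,k0,(nat_lit 11546604),k0],
    [k0,k0,k0,k0,k0,k0,k0,k0,k0,k0],[k0,k0,k0,k0,k0,k0,k0,k0,k0,k0],[(nat_lit 7056258),k0,k0,(nat_lit 2993564),k0,k0,
    k0,k0,k0,k0],[k0,k0,k0,(nat_lit 11546604),(nat_lit 11546604),k0,k0,k0,k0,k0]] (nat_lit 179613840) k5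
    [[(k7,(nat_lit 44903783)),(k2,(nat_lit 51960041)),(k6,(nat_lit 56450387)),(k8,(nat_lit 56450387)),(k9,
    (nat_lit 56450387)),(k3,(nat_lit 63506645)),(k0,(nat_lit 64576098)),(k4,(nat_lit 64789601)),(k5,
    (nat_lit 67783165)),(k1,(nat_lit 67997314))],[(k6,(nat_lit 45972913)),(k7,(nat_lit 45972913)),(k8,
    (nat_lit 45972913)),(k9,(nat_lit 45972913)),(k0,(nat_lit 47042366)),(k5,(nat_lit 51746215)),(k2,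
    (nat_lit 53029171)),(k3,(nat_lit 53029171)),(k4,(nat_lit 59872927)),(k1,(nat_lit 64576098))],[(k8,
    (nat_lit 44903460)),(k7,(nat_lit 46398918)),(k6,(nat_lit 51959718)),(k9,(nat_lit 51959718)),(k0,
    (nat_lit 53029171)),(k3,(nat_lit 59015976)),(k4,(nat_lit 60298932)),(k5,(nat_lit 60298932)),(k2,
    (nat_lit 61581888)),(k1,(nat_lit 63506645))],[(k8,(nat_lit 48966154)),(k7,(nat_lit 50462936)),(k6,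
    (nat_lit 51959718)),(k9,(nat_lit 51959718)),(k1,(nat_lit 51960041)),(k0,(nat_lit 53029171)),(k2,
    (nat_lit 59015976)),(k4,(nat_lit 60298932)),(k5,(nat_lit 60298932)),(k3,(nat_lit 61581888))],[(k0,
    (nat_lit 51746215)),(k6,(nat_lit 53242674)),(k7,(nat_lit 53242674)),(k9,(nat_lit 53242674)),(k2,
    (nat_lit 60298932)),(k3,(nat_lit 60298932)),(k5,(nat_lit 61581888)),(k4,(nat_lit 63078670)),(k8,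
    (nat_lit 64789278)),(k1,(nat_lit 67783165))],[(k6,(nat_lit 53242674)),(k7,(nat_lit 53242674)),(k9,
    (nat_lit 53242674)),(k0,(nat_lit 59872927)),(k2,(nat_lit 60298932)),(k3,(nat_lit 60298932)),(k4,
    (nat_lit 61581888)),(k5,(nat_lit 63078670)),(k8,(nat_lit 64789278)),(k1,(nat_lit 64789601))],[(k6,
    (nat_lit 44903460)),(k7,(nat_lit 44903460)),(k8,(nat_lit 44903460)),(k9,(nat_lit 44903460)),(k1,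
    (nat_lit 44903783)),(k0,(nat_lit 45972913)),(k3,(nat_lit 46398918)),(k2,(nat_lit 50462936)),(k4,
    (nat_lit 53242674)),(k5,(nat_lit 53242674))],[(k6,(nat_lit 44903460)),(k7,(nat_lit 44903460)),(k8,
    (nat_lit 44903460)),(k9,(nat_lit 44903460)),(k0,(nat_lit 45972913)),(k2,(nat_lit 51959718)),(k3,
    (nat_lit 51959718)),(k4,(nat_lit 53242674)),(k5,(nat_lit 53242674)),(k1,(nat_lit 56450387))],[(k6,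
    (nat_lit 44903460)),(k7,(nat_lit 44903460)),(k8,(nat_lit 44903460)),(k9,(nat_lit 44903460)),(k0,
    (nat_lit 45972913)),(k2,(nat_lit 51959718)),(k3,(nat_lit 51959718)),(k4,(nat_lit 53242674)),(k5,
    (nat_lit 53242674)),(k1,(nat_lit 56450387))],[(k3,(nat_lit 44903460)),(k6,(nat_lit 44903460)),(k7,
    (nat_lit 44903460)),(k8,(nat_lit 44903460)),(k9,(nat_lit 44903460)),(k0,(nat_lit 45972913)),(k2,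
    (nat_lit 48966154)),(k1,(nat_lit 56450387)),(k4,(nat_lit 64789278)),(k5,(nat_lit 64789278))]]
    [[k2,k1,k0,k0,k0],[k2,k0,k0,k1,k0],[k2,k0,k0,k0,k1],[k1,k2,k0,k0,k0],[k1,k1,k1,k0,k0],[k1,k1,k0,k1,k0],[k1,k1,k0,
    k0,k1],[k1,k0,k1,k1,k0],[k1,k0,k1,k0,k1],[k1,k0,k0,k2,k0],[k1,k0,k0,k1,k1],[k1,k0,k0,k0,k2],[k0,k2,k0,k1,k0],[k0,
    k2,k0,k0,k1],[k0,k1,k1,k1,k0],[k0,k1,k1,k0,k1],[k0,k1,k0,k2,k0],[k0,k1,k0,k1,k1],[k0,k1,k0,k0,k2],[k0,k0,k2,k1,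
    k0],[k0,k0,k1,k2,k0],[k0,k0,k1,k1,k1],[k0,k0,k1,k0,k2],[k0,k0,k0,k3,k0],[k0,k0,k0,k2,k1],[k0,k0,k0,k1,k2],[k0,k0,
    k0,k0,k3]]
    [.ref k5 k2 [(z1,[y3,z3,z1,y3]),(z3,[z0,y2,y1,z6]),(z1,[z0,z1])],.ref k11 k8 [(z1,[y3,z3,z1,y3]),(z1,[z0,z1]),(z3,
    [z0,y2,y1,z6])],.ref k3 k1 [(z1,[z3,y2]),(z1,[z0,z1]),(z6,[y3,z2,z1])],.ref k5 k2 [(z2,[y3,z3,z2,y6]),(z3,[z0,y2,
    y1,z6]),(z1,[z0,z1])],.ref k70 k4 [(z1,[y6,z0,y1,z6]),(z1,[z3,z0,z1,y3]),(z1,[z3,y1])],.contra [z3,y2,y1,z3],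
    .ref k71 k8 [(z1,[z3,z1,z1,y6]),(z1,[z0,z1]),(z3,[z0,y2,y1,z6])],.ref k72 k8 [(z3,[y3,z2,z1,y3]),(z1,[z0,z1]),(z3,
    [z0,y2,y1,z6])],.ref k3 k1 [(z1,[z6,z0,z1,y6]),(z1,[z0,z1]),(z1,[y1,z0,z0,z1])],.ref k11 k8 [(z2,[y3,z3,z2,y6]),
    (z1,[z0,z1]),(z3,[z0,y2,y1,z6])],.ref k73 k4 [(z3,[z6,y2,y1]),(z1,[y3,z1,z1]),(z1,[y1,z0,z0,z1])],.ref k3 k1 [(z2,
    [z3,y1]),(z1,[z0,z1]),(z12,[y3,z1,z2])],.ref k39 k4 [(z1,[y6,z0,z1]),(z1,[z1]),(z1,[z3,y1,y1,z3])],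
    .ref k48 k6 [(z6,[y3,y2,y1,z6]),(z2,[y3,z0,z1]),(z1,[z1])],.ref k74 k1 [(z1,[y3,y1,z0,z3]),(z1,[z0,z1]),(z1,[z3,
    z1,z1,y3])],.ref k48 k6 [(z3,[y3,y2,y1,z6]),(z1,[y3,y1,z0,z3]),(z3,[z6,z2,z1,y6])],.ref k75 k1 [(z1,[y6,z0,z1]),
    (z1,[z0,z1]),(z1,[z1])],.ref k76 k3 [(z1,[y3,y1,z0,z3]),(z1,[y3,z0,z1]),(z1,[z0,z1])],.ref k77 k8 [(z3,[z3,z4,z2,
    y12]),(z1,[z0,z1]),(z3,[z0,y2,y1,z6])],.ref k78 k8 [(z1,[y3,z1,z1,y3]),(z1,[z0,z1]),(z3,[z0,y2,y1,z6])],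
    .ref k79 k1 [(z3,[y6,y2,y1,z6]),(z1,[z0,z1]),(z1,[z3,z1,z1,y3])],.ref k56 k3 [(z3,[y3,y2,y1,z6]),(z1,[y3,y1,z0,
    z3]),(z1,[z0,z1])],.ref k3 k1 [(z3,[z6,z2,z1,y6]),(z1,[z0,z1]),(z9,[y3,y1,z1,z3])],.ref k11 k8 [(z1,[y1,z1,z1,
    y3]),(z1,[z0,z1]),(z3,[z0,y2,y1,z6])],.ref k56 k3 [(z6,[y3,y2,y1,z6]),(z2,[y3,z0,z1]),(z1,[z0,z1])],
    .ref k80 k7 [(z1,[y6,z0,z1]),(z3,[z0,y2,y1,z6]),(z1,[z1])],.ref k3 k1 [(z1,[z1]),(z1,[z0,z1]),(z6,[y1,z0,z1])]],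
    .base (.geo z9 k4 [(z6,z0),(z8,y6),(z5,z3),(z8,y6),(z0,z9)] [(z1,[z3]),(z1,[z0,z1]),(z1,[z0,z0,z1]),(z1,[y3,y1,y1,
    z9]),(z1,[])] k8),
    .base (.leafM k2 [k2,k3,k4,k0,k1] [(z3,[z0,y1,y1,z3])] [])]

theorem hB5_39_6 : blkB [0, 0, 0, 0, 0] [] sp5 hS5_39 (pcls (n := 5) [0, 0, 0, 0, 0]) hD5_39 186 6 hN5_39_6 = true := by
  decide +kernel

/-- nodes 84 to 95 -/
noncomputable def hN5_39_7 : List HM :=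
  [.base (.leafM k2 [k2,k3,k4,k0,k1] [(z6,[z0,y1,y1,z6])] []),
    .base (.leafM k0 [k3,k4,k0,k1,k2] [(z6,[y2,y1,y3,z6])] []),
    .base (.leafM k0 [k1,k2,k3,k4,k0] [(z6,[z0,z1,z1])] []),
    .base (.leafM k2 [k2,k3,k4,k0,k1] [(z3,[z0,y1,y1,z3])] []),
    .base (.leafM k2 [k1,k2,k3,k4,k0] [(z1,[z0,z0,z1])] []),
    .lp k0 [k142,k176,k128,k152,k120] [k17,k17,k0,k0,k24,k24,k12,k12,k28,k28] k0 [[k0,k0,k22,k0,k20,k0,k0,k50,k0,k8],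
    [k12,k0,k20,k0,k0,k0,k0,k0,k0,k42],[k0,k0,k0,k0,k0,k0,k0,k0,k0,k8],[k20,k22,k0,k0,k12,k0,k0,k28,k0,k0],[k0,k0,k0,
    k0,k0,k16,k8,k0,k0,k0],[k0,k20,k12,k0,k0,k0,k0,k0,k0,k0],[k0,k50,k28,k0,k0,k0,k0,k0,k0,k0],[k0,k0,k0,k0,k0,k8,k0,
    k0,k0,k0],[k42,k8,k0,k8,k0,k0,k0,k0,k0,k0],[k0,k0,k0,k0,k0,k0,k0,k0,k0,k0]] (nat_lit 480) k6
    [[(k8,k131),(k9,k131),(k4,k135),(k1,k142),(k5,k143),(k6,k147),(k7,k147),(k2,k159),(k3,k167),(k0,k184)],[(k6,k97),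
    (k5,k113),(k8,k123),(k7,k127),(k9,k131),(k4,k135),(k0,k154),(k3,k159),(k2,k179),(k1,k184)],[(k8,k106),(k5,k132),
    (k0,k159),(k3,k164),(k6,k164),(k7,k164),(k1,k167),(k4,k172),(k2,k198),(k9,k198)],[(k8,k140),(k5,k152),(k1,k159),
    (k4,k164),(k6,k164),(k7,k164),(k2,k176),(k9,k176),(k0,k179),(k3,k198)],[(k6,k112),(k0,k113),(k8,k124),(k9,k124),
    (k4,k128),(k5,k128),(k7,k128),(k3,k132),(k1,k143),(k2,k152)],[(k4,k112),(k9,k116),(k8,k124),(k5,k128),(k0,k135),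
    (k1,k135),(k6,k140),(k7,k140),(k2,k164),(k3,k172)],[(k0,k127),(k5,k128),(k8,k136),(k9,k136),(k4,k140),(k1,k147),
    (k6,k160),(k2,k164),(k3,k164),(k7,k168)],[(k0,k97),(k5,k112),(k8,k136),(k9,k136),(k4,k140),(k1,k147),(k6,k152),
    (k7,k160),(k2,k164),(k3,k164)],[(k4,k116),(k8,k120),(k9,k120),(k5,k124),(k0,k131),(k1,k131),(k6,k136),(k7,k136),
    (k2,k176),(k3,k198)],[(k3,k106),(k8,k120),(k9,k120),(k0,k123),(k4,k124),(k5,k124),(k1,k131),(k6,k136),(k7,k136),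
    (k2,k140)]]
    [[k2,k0,k1,k0,k0],[k2,k0,k0,k1,k0],[k2,k0,k0,k0,k1],[k1,k1,k1,k0,k0],[k1,k1,k0,k1,k0],[k1,k1,k0,k0,k1],[k1,k0,k2,
    k0,k0],[k1,k0,k1,k1,k0],[k1,k0,k1,k0,k1],[k1,k0,k0,k2,k0],[k1,k0,k0,k1,k1],[k1,k0,k1,k1,k1],[k1,k0,k0,k0,k2],[k0,
    k1,k2,k0,k0],[k0,k1,k1,k1,k0],[k0,k1,k1,k0,k1],[k0,k1,k0,k1,k1],[k0,k1,k0,k0,k2],[k0,k0,k3,k0,k0],[k0,k0,k2,k1,
    k0],[k0,k0,k2,k0,k1],[k0,k0,k1,k2,k0],[k0,k0,k1,k1,k1],[k0,k0,k1,k0,k2],[k0,k0,k0,k2,k1],[k0,k0,k0,k1,k2],[k0,k0,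
    k0,k0,k3]]
    [.ref k78 k4 [(z1,[y3,y1]),(z1,[z0,y1,y1,z3]),(z1,[z1])],.ref k3 k0 [(z2,[z3,z1,z1,y3]),(z1,[y3,z1,z0,z3]),(z6,
    [z3,y1,z1,y3])],.ref k82 k2 [(z1,[z0,y1,y1,z3]),(z1,[z3,y2]),(z1,[z3,z1])],.ref k19 k3 [(z3,[z3,y2,y1]),(z3,[z0,
    z2,z1]),(z1,[y3,z1,z1])],.ref k3 k0 [(z1,[y3,z1,z0,z3]),(z1,[z6,z0,z1,y6]),(z1,[y1,z0,z0,z1])],.ref k37 k4 [(z3,
    [z3,y2,y1]),(z1,[z0,y1,y1,z3]),(z1,[y3,z1,z1])],.ref k40 k8 [(z3,[y6,z2,z1]),(z1,[z1]),(z1,[z3,y1])],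
    .ref k83 k4 [(z3,[y3,y2,y1,z3]),(z1,[z0,y1,y1,z3]),(z1,[z3,z1,z1,y3])],.ref k84 k8 [(z1,[y3,z1,z1]),(z1,[z3,z1]),
    (z1,[z3,y1])],.ref k3 k0 [(z1,[z3,z2,z2,y6]),(z1,[y6,y2,y3,z12]),(z3,[z3,z1,z2,y6])],.ref k85 k2 [(z1,[z0,y1,y1,
    z3]),(z1,[z3,z0,z1,y3]),(z3,[z3,z2,z1,y3])],.contra [y1,z0,z0,z1],.ref k25 k2 [(z1,[z0,y1,y1,z3]),(z1,[z3,y1]),
    (z1,[z3,z2])],.ref k19 k3 [(z6,[z3,y2,y1]),(z3,[z0,z2,z1]),(z2,[y3,z0,z1])],.ref k86 k2 [(z1,[z0,y1,y1,z3]),(z1,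
    [y3,y1,z0,z3]),(z1,[y3,z1,z0,z3])],.ref k87 k0 [(z1,[y3,z1,z1]),(z1,[z6,z0,y1]),(z1,[y3,z0,z1])],.ref k88 k4 [(z1,
    [z3,y1,z0,y3]),(z1,[z0,y1,y1,z3]),(z1,[y1,z0,z0,z1])],.ref k37 k4 [(z6,[z3,y2,y1]),(z1,[z0,y1,y1,z3]),(z2,[y3,z0,
    z1])],.ref k6 k4 [(z1,[y1,y1]),(z1,[z0,y1,y1,z3]),(z1,[z1])],.ref k6 k4 [(z2,[y3,y3,y1,z3]),(z1,[z0,y1,y1,z3]),
    (z2,[z3,z1,z1,y3])],.ref k53 k4 [(z1,[y3,y2]),(z1,[z0,y1,y1,z3]),(z1,[z3,z1])],.ref k6 k4 [(z1,[y3,y3,y2,z6]),(z1,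
    [z0,y1,y1,z3]),(z1,[z3,z2,z2,y6])],.contra [z3,z2,z1,y3],.ref k54 k2 [(z1,[z0,y1,y1,z3]),(z1,[z1]),(z1,[z3,z2])],
    .ref k4 k3 [(z1,[y3,y3,y2,z6]),(z3,[z0,z2,z1]),(z1,[z3,z2,z2,y6])],.ref k4 k3 [(z2,[y3,y3,y1,z3]),(z3,[z0,z2,z1]),
    (z2,[z3,z1,z1,y3])],.ref k4 k3 [(z1,[y1,y1]),(z3,[z0,z2,z1]),(z1,[z1])]],
    .lp k0 [(nat_lit 230),k180,k180,(nat_lit 238),(nat_lit 240)] [k5,k5,k30,k30,k30,k30,k1,k1,k0,k0] k0 [[k0,k0,k0,k0,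
    k0,k0,k0,k0,k0,k0],[k0,k0,k0,k0,k0,k0,k22,k14,k14,k30],[k0,k0,k0,k0,k0,k0,k0,k0,k0,k0],[k0,k0,k0,k0,k0,k0,k0,k0,
    k0,k0],[k0,k0,k0,k0,k0,k0,k14,k2,k2,k22],[k0,k0,k0,k0,k0,k0,k0,k0,k0,k0],[k14,k0,k0,k0,k0,k2,k0,k0,k0,k0],[k22,k0,
    k0,k0,k0,k14,k0,k0,k4,k0],[k30,k0,k0,k0,k0,k22,k0,k0,k0,k0],[k14,k0,k0,k0,k0,k2,k4,k0,k0,k0]] (nat_lit 720) k5
    [[(k3,k191),(k4,(nat_lit 203)),(k2,(nat_lit 205)),(k5,(nat_lit 205)),(k1,(nat_lit 230)),(k9,(nat_lit 231)),(k6,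
    (nat_lit 234)),(k8,(nat_lit 235)),(k7,(nat_lit 256)),(k0,(nat_lit 260))],[(k2,(nat_lit 205)),(k3,(nat_lit 205)),
    (k4,(nat_lit 205)),(k5,(nat_lit 205)),(k0,(nat_lit 230)),(k7,(nat_lit 234)),(k8,(nat_lit 249)),(k9,(nat_lit 249)),
    (k6,(nat_lit 256)),(k1,(nat_lit 260))],[(k2,k180),(k3,k180),(k4,k180),(k5,k180),(k8,k180),(k9,k188),(k1,k191),(k6,
    k195),(k0,(nat_lit 205)),(k7,(nat_lit 209))],[(k2,k180),(k3,k180),(k4,k180),(k5,k180),(k0,(nat_lit 205)),(k1,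
    (nat_lit 205)),(k6,(nat_lit 209)),(k7,(nat_lit 209)),(k8,(nat_lit 210)),(k9,(nat_lit 210))],[(k2,k180),(k3,k180),
    (k4,k180),(k5,k180),(k0,(nat_lit 205)),(k1,(nat_lit 205)),(k6,(nat_lit 209)),(k7,(nat_lit 209)),(k8,
    (nat_lit 210)),(k9,(nat_lit 210))],[(k2,k180),(k3,k180),(k4,k180),(k5,k180),(k8,k188),(k9,k196),(k1,
    (nat_lit 203)),(k0,(nat_lit 205)),(k6,(nat_lit 207)),(k7,(nat_lit 209))],[(k2,(nat_lit 209)),(k3,(nat_lit 209)),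
    (k4,(nat_lit 209)),(k5,(nat_lit 209)),(k0,(nat_lit 234)),(k7,(nat_lit 238)),(k8,(nat_lit 241)),(k9,(nat_lit 241)),
    (k6,(nat_lit 252)),(k1,(nat_lit 256))],[(k3,k195),(k4,(nat_lit 207)),(k2,(nat_lit 209)),(k5,(nat_lit 209)),(k1,
    (nat_lit 234)),(k6,(nat_lit 238)),(k9,(nat_lit 239)),(k8,(nat_lit 243)),(k7,(nat_lit 252)),(k0,(nat_lit 256))],
    [(k3,k188),(k4,k196),(k2,(nat_lit 210)),(k5,(nat_lit 210)),(k1,(nat_lit 231)),(k6,(nat_lit 239)),(k8,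
    (nat_lit 240)),(k9,(nat_lit 240)),(k7,(nat_lit 241)),(k0,(nat_lit 249))],[(k3,k180),(k4,k188),(k2,(nat_lit 210)),
    (k5,(nat_lit 210)),(k1,(nat_lit 235)),(k8,(nat_lit 240)),(k9,(nat_lit 240)),(k7,(nat_lit 241)),(k6,(nat_lit 243)),
    (k0,(nat_lit 249))]]
    [[k2,k1,k0,k0,k0],[k2,k0,k1,k0,k0],[k1,k2,k0,k0,k0],[k1,k1,k1,k0,k0],[k1,k1,k0,k1,k0],[k1,k1,k0,k0,k1],[k1,k0,k2,
    k0,k0],[k1,k0,k1,k1,k0],[k1,k0,k1,k0,k1],[k2,k0,k0,k0,k1],[k1,k0,k0,k1,k1],[k0,k3,k0,k0,k0],[k0,k2,k1,k0,k0],[k0,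
    k2,k0,k1,k0],[k0,k2,k0,k0,k1],[k0,k1,k2,k0,k0],[k0,k1,k1,k1,k0],[k0,k1,k1,k0,k1],[k0,k1,k0,k2,k0],[k0,k1,k0,k1,
    k1],[k0,k1,k0,k0,k2],[k0,k0,k3,k0,k0],[k0,k0,k2,k1,k0],[k0,k0,k2,k0,k1],[k0,k0,k1,k2,k0],[k0,k0,k1,k1,k1],[k0,k0,
    k1,k0,k2]]
    [.ref k7 k0 [(z1,[z0,z1]),(z1,[z3,y2])],.ref k13 k0 [(z1,[z0,z1]),(z1,[y3,z1,z3])],.ref k7 k0 [(z1,[z0,z1]),(z2,
    [z3,y1])],.ref k14 k9 [(z1,[z0,z1]),(z1,[y1,z0,z1])],.ref k15 k9 [(z1,[z0,z1]),(z1,[y1,z0,z1])],.ref k16 k0 [(z1,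
    [z0,z1]),(z1,[z3,y1])],.ref k13 k0 [(z1,[z0,z1]),(z2,[y3,y1,z6])],.ref k17 k0 [(z1,[z0,z1]),(z1,[y1,z0,z1])],
    .ref k15 k0 [(z1,[z0,z1]),(z1,[y1,z0,z1])],.ref k7 k1 [(z1,[z3,y2]),(z1,[z0,z1])],.ref k14 k0 [(z1,[z0,z1]),(z1,
    [y1,z0,z1])],.ref k7 k0 [(z1,[z0,z1]),(z1,[z1])],.ref k31 k7 [(z1,[z3,z1,y3]),(z1,[y3,y2,z6])],.ref k44 k0 [(z1,
    [z0,z1]),(z1,[z1])],.ref k55 k8 [(z1,[z3,z1,y3]),(z1,[z0,z1])],.ref k67 k3 [(z1,[z3,z1,y3]),(z1,[y3,y2,z6])],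
    .ref k68 k1 [(z1,[y3,y1,z3]),(z1,[z0,z1])],.ref k69 k2 [(z1,[y3,y1,z3]),(z1,[z1])],.ref k81 k9 [(z1,[z0,z1]),(z1,
    [y3,y2,z6])],.ref k69 k3 [(z1,[y3,y1,z3]),(z1,[z1])],.ref k55 k1 [(z1,[z3,z1,y3]),(z1,[z0,z1])],.ref k13 k0 [(z1,
    [z0,z1]),(z1,[y1,y1,z3])],.ref k89 k6 [(z1,[z3,z1,y3]),(z1,[y3,y2,z6])],.ref k81 k0 [(z1,[z0,z1]),(z1,[y3,y2,
    z6])],.ref k89 k5 [(z1,[z3,z1,y3]),(z1,[y3,y2,z6])],.ref k68 k8 [(z1,[y3,y1,z3]),(z1,[z0,z1])],.ref k44 k9 [(z1,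
    [z0,z1]),(z1,[z1])]],
    .base (.leafM k0 [k3,k4,k0,k1,k2] [(z1,[y1,y1,z1])] []),
    .base (.leafM k2 [k3,k4,k0,k1,k2] [(z1,[z0,z1])] []),
    .base (.leafM k0 [k2,k3,k4,k0,k1] [(z1,[y1,y1,z1])] []),
    .base (.spec k0 false k4 [(z1,[z0,z2,z1]),(z1,[y1,y1,y1,z1])]),
    .base (.leafM k2 [k1,k2,k3,k4,k0] [(z1,[z0,z0,z1])] [])]

theorem hB5_39_7 : blkB [0, 0, 0, 0, 0] [] sp5 hS5_39 (pcls (n := 5) [0, 0, 0, 0, 0]) hD5_39 186 7 hN5_39_7 = true := by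
  decide +kernel

end Pool.Agent.Lib_MP_fa6e45
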