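import Pool.Agent.Lib_MP_fa6e45.HK

/-!
MP_fa6e45_co, stage 4: certificates (captain, generated by a program).
-/

namespace Pool.Agent.Lib_MP_fa6e45

/-- nodes 96 to 107 -/
noncomputable def hN5_39_8 : List HM :=
  [.base (.leafM k2 [k4,k0,k1,k2,k3] [(z1,[z1,z0,z1])] []),
    .base (.spec k1 true k3 [(z1,[y2,y2,y1,z2]),(z1,[z0,z1])]),
    .base (.leafM k0 [k1,k2,k3,k4,k0] [(z1,[z0,z1,z1])] []),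
    .base (.spec k6 false k0 [(z1,[z1,y1,y1,z1]),(z1,[z0,z1])]),
    .base (.leafM k0 [k0,k1,k2,k3,k4] [(z5,[z1,z1])] []),
    .base (.spec k2 true k4 [(z1,[z0,z1]),(z1,[y1,y1,z1,z1])]),
    .base (.leafM k0 [k3,k4,k0,k1,k2] [(z1,[y1,y1,y1,z1])] []),
    .base (.leafM k2 [k0,k1,k2,k3,k4] [(z1,[y1,z0,y1,z1])] []),
    .base (.leafM k2 [k2,k3,k4,k0,k1] [(z1,[z0,y1,y1,z1])] []),
    .base (.spec k1 true k3 [(z1,[y2,y2,y1,z2]),(z1,[z0,z1])]),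
    .base (.spec k5 false k0 [(z1,[y2,y1,y2,z2]),(z1,[z0,z0,z1])]),
    .lp k0 [(nat_lit 8900850),(nat_lit 9672600),(nat_lit 9375562),(nat_lit 16258886),
    (nat_lit 8900850)] [(nat_lit 3679018),(nat_lit 3679018),(nat_lit 3085543),(nat_lit 3500743),(nat_lit 3441662),
    (nat_lit 3441662),k0,k0,(nat_lit 3679018),(nat_lit 3679018)] k0 [[k0,k0,k0,k0,k0,k0,k0,k0,k0,k0],[k0,k0,k0,k0,k0,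
    k0,k0,k0,k0,k0],[k0,k0,k0,k0,k0,k0,(nat_lit 593390),k0,k0,k0],[k0,k0,k0,k0,k0,k0,k0,k0,k0,k0],[k0,k0,k0,k0,k0,k0,
    k0,k0,k0,k0],[k0,k0,k0,k0,k0,k0,(nat_lit 593390),k0,k0,k0],[k0,k0,k0,k0,k0,k0,k0,(nat_lit 5221832),
    (nat_lit 3679018),k0],[k0,k0,k0,(nat_lit 593390),(nat_lit 593390),k0,k0,k0,k0,k0],[k0,k0,k0,k0,k0,k0,k0,k0,k0,k0],
    [k0,k0,k0,k0,k0,k0,k0,(nat_lit 3679018),k0,k0]] (nat_lit 35603400) k5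
    [[(k0,(nat_lit 8900850)),(k1,(nat_lit 8900850)),(k6,(nat_lit 8900850)),(k8,(nat_lit 8900850)),(k9,
    (nat_lit 8900850)),(k3,(nat_lit 9079125)),(k4,(nat_lit 9138206)),(k5,(nat_lit 9138206)),(k2,(nat_lit 9494325)),
    (k7,(nat_lit 12579868))],[(k0,(nat_lit 8900850)),(k1,(nat_lit 8900850)),(k8,(nat_lit 8900850)),(k9,
    (nat_lit 8900850)),(k3,(nat_lit 9079125)),(k4,(nat_lit 9138206)),(k5,(nat_lit 9138206)),(k2,(nat_lit 9494325)),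
    (k6,(nat_lit 12579868)),(k7,(nat_lit 12579868))],[(k0,(nat_lit 9079125)),(k1,(nat_lit 9079125)),(k8,
    (nat_lit 9079125)),(k9,(nat_lit 9079125)),(k3,(nat_lit 9257400)),(k4,(nat_lit 9316481)),(k5,(nat_lit 9316481)),
    (k2,(nat_lit 9672600)),(k6,(nat_lit 12758143)),(k7,(nat_lit 12758143))],[(k9,(nat_lit 8900935)),(k0,
    (nat_lit 9494325)),(k1,(nat_lit 9494325)),(k8,(nat_lit 9494325)),(k3,(nat_lit 9672600)),(k4,(nat_lit 9731681)),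
    (k5,(nat_lit 9731681)),(k2,(nat_lit 10087800)),(k6,(nat_lit 13173343)),(k7,(nat_lit 13173343))],[(k0,
    (nat_lit 9138206)),(k1,(nat_lit 9138206)),(k8,(nat_lit 9138206)),(k9,(nat_lit 9138206)),(k3,(nat_lit 9316481)),
    (k4,(nat_lit 9375562)),(k5,(nat_lit 9375562)),(k2,(nat_lit 9731681)),(k7,(nat_lit 12817224)),(k6,
    (nat_lit 13410614))],[(k0,(nat_lit 9138206)),(k1,(nat_lit 9138206)),(k8,(nat_lit 9138206)),(k9,(nat_lit 9138206)),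
    (k3,(nat_lit 9316481)),(k4,(nat_lit 9375562)),(k5,(nat_lit 9375562)),(k2,(nat_lit 9731681)),(k7,
    (nat_lit 12817224)),(k6,(nat_lit 13410614))],[(k9,(nat_lit 11986478)),(k0,(nat_lit 12579868)),(k1,
    (nat_lit 12579868)),(k8,(nat_lit 12579868)),(k3,(nat_lit 12758143)),(k4,(nat_lit 12817224)),(k5,
    (nat_lit 12817224)),(k2,(nat_lit 13173343)),(k6,(nat_lit 16258886)),(k7,(nat_lit 16258886))],[(k1,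
    (nat_lit 8900850)),(k6,(nat_lit 11037054)),(k0,(nat_lit 12579868)),(k8,(nat_lit 12579868)),(k9,
    (nat_lit 12579868)),(k3,(nat_lit 12758143)),(k2,(nat_lit 13173343)),(k4,(nat_lit 13410614)),(k5,
    (nat_lit 13410614)),(k7,(nat_lit 16258886))],[(k0,(nat_lit 8900850)),(k1,(nat_lit 8900850)),(k2,
    (nat_lit 8900935)),(k3,(nat_lit 9079125)),(k4,(nat_lit 9138206)),(k5,(nat_lit 9138206)),(k7,(nat_lit 11986478)),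
    (k6,(nat_lit 12579868)),(k8,(nat_lit 12579868)),(k9,(nat_lit 14122682))],[(k0,(nat_lit 8900850)),(k1,
    (nat_lit 8900850)),(k8,(nat_lit 8900850)),(k3,(nat_lit 9079125)),(k4,(nat_lit 9138206)),(k5,(nat_lit 9138206)),
    (k2,(nat_lit 9494325)),(k6,(nat_lit 12579868)),(k7,(nat_lit 12579868)),(k9,(nat_lit 12579868))]]
    [[k3,k0,k0,k0,k0],[k2,k1,k0,k0,k0],[k2,k0,k1,k0,k0],[k2,k0,k0,k1,k0],[k2,k0,k0,k0,k1],[k1,k2,k0,k0,k0],[k1,k1,k1,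
    k0,k0],[k1,k1,k0,k1,k0],[k1,k1,k0,k0,k1],[k1,k0,k2,k0,k0],[k1,k0,k1,k1,k0],[k1,k0,k1,k0,k1],[k1,k0,k0,k1,k1],[k1,
    k0,k0,k0,k2],[k0,k3,k0,k0,k0],[k0,k2,k1,k0,k0],[k0,k2,k0,k0,k1],[k0,k1,k2,k0,k0],[k0,k1,k1,k1,k0],[k0,k1,k1,k0,
    k1],[k0,k1,k0,k1,k1],[k0,k1,k0,k0,k2],[k0,k0,k3,k0,k0],[k0,k0,k2,k0,k1],[k0,k0,k1,k1,k1],[k0,k0,k1,k0,k2],[k0,k0,
    k0,k1,k2]]
    [.ref k40 k6 [(z2,[z0,y1,y5,z2]),(z1,[z0,z0,z1]),(z2,[y2,z3,z9])],.ref k94 k4 [(z2,[y6,z1,z3]),(z1,[y2,z0,z1]),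
    (z2,[z8,y1,y5,z2])],.ref k95 k6 [(z2,[z0,y1,y5,z2]),(z1,[z0,z0,z1]),(z4,[y2,z1,z1,z2])],.ref k96 k6 [(z2,[z0,y1,
    y5,z2]),(z1,[z0,z0,z1]),(z2,[y1,z1,z4])],.ref k97 k6 [(z2,[z0,y1,y5,z2]),(z1,[z0,z0,z1]),(z1,[y1,z1,z3])],
    .ref k95 k6 [(z2,[z0,y1,y5,z2]),(z1,[z0,z0,z1]),(z2,[y2,z1,z3])],.ref k98 k6 [(z2,[z0,y1,y5,z2]),(z1,[z0,z0,z1]),
    (z1,[y1,z0,y1,z1])],.ref k96 k6 [(z2,[z0,y1,y5,z2]),(z1,[z0,z0,z1]),(z2,[y2,z1,z5])],.contra [z2,y1,y1],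
    .ref k99 k6 [(z2,[z0,y1,y5,z2]),(z1,[z0,z0,z1]),(z2,[y2,y1,y7,z4])],.ref k95 k6 [(z2,[z0,y1,y5,z2]),(z1,[z0,z0,
    z1]),(z1,[y1,z0,z0,z1])],.contra [z1,z0,z1,y1],.ref k100 k3 [(z2,[y8,y1,y5,z10]),(z2,[y2,z1,z5]),(z1,[z3,z1])],
    .ref k101 k6 [(z2,[z0,y1,y5,z2]),(z1,[z0,z0,z1]),(z2,[z2,y1,y3])],.ref k0 k7 [(z1,[z1]),(z2,[z8,y3,y15,z6]),(z1,
    [y2,z0,z3])],.ref k0 k7 [(z4,[z2,z1,z5,y2]),(z2,[z4,y1,y5,z2]),(z2,[y2,y1,z1,z2])],.ref k102 k6 [(z2,[z0,y1,y5,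
    z2]),(z1,[z0,z0,z1]),(z1,[z1])],.ref k0 k7 [(z3,[z1,z1,z5,y2]),(z6,[z8,y1,y5,z2]),(z3,[y2,y2,y1,z4])],
    .ref k0 k7 [(z2,[z2,z1,z3,y2]),(z2,[z8,z1,y3,y2]),(z1,[y2,y1,z0,z2])],.ref k103 k6 [(z2,[z0,y1,y5,z2]),(z1,[z0,z0,
    z1]),(z2,[z2,z1,z5,y2])],.ref k104 k6 [(z2,[z0,y1,y5,z2]),(z1,[z0,z0,z1]),(z1,[z1,z0,y1])],.ref k105 k0 [(z2,[y6,
    z1,z3]),(z1,[z1]),(z2,[z8,y1,y5,z2])],.ref k0 k7 [(z8,[z2,z3,z15,y6]),(z1,[z1]),(z4,[y2,y3,y3,z6])],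
    .ref k106 k9 [(z2,[y2,y1,y7,z4]),(z1,[z1,z1,z5,y2]),(z1,[z0,z0,z1])],.ref k102 k6 [(z2,[z0,y1,y5,z2]),(z1,[z0,z0,
    z1]),(z2,[z2,z1,z3,y2])],.ref k102 k6 [(z2,[z0,y1,y5,z2]),(z1,[z0,z0,z1]),(z4,[z2,z1,z5,y2])],.ref k104 k6 [(z2,
    [z0,y1,y5,z2]),(z1,[z0,z0,z1]),(z2,[z1,z0,y1])]]]

theorem hB5_39_8 : blkB [0, 0, 0, 0, 0] [] sp5 hS5_39 (pcls (n := 5) [0, 0, 0, 0, 0]) hD5_39 186 8 hN5_39_8 = true := by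
  decide +kernel

/-- nodes 108 to 119 -/
noncomputable def hN5_39_9 : List HM :=
  [.base (.leafM k2 [k4,k0,k1,k2,k3] [(z1,[z0,y1,z1])] []),
    .base (.leafM k2 [k4,k0,k1,k2,k3] [(z1,[z0,y1,z1])] []),
    .base (.leafM k0 [k3,k4,k0,k1,k2] [(z2,[y1,y1,z2])] []),
    .base (.leafM k0 [k2,k3,k4,k0,k1] [(z1,[y1,y1,z0,z1])] []),
    .base (.leafM k2 [k3,k4,k0,k1,k2] [(z1,[z0,z1])] []),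
    .base (.leafM k2 [k4,k0,k1,k2,k3] [(z5,[z1,z0,z1])] []),
    .base (.leafM k0 [k3,k4,k0,k1,k2] [(z1,[y1,y1,y1,z1])] []),
    .base (.geo z1 k4 [(y3,z5),(z6,y8),(y2,z4),(z2,y2),(z0,z1)] [(z1,[z1]),(z1,[z0,z1]),(z1,[z0,z0,z1]),(z1,[y1,y1,y1,
    z1]),(z1,[])] k8),
    .base (.leafM k2 [k3,k4,k0,k1,k2] [(z1,[z0,z1])] []),
    .base (.spec k2 true k4 [(z1,[z0,z1]),(z1,[y1,y1,z1,z1])]),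
    .base (.leafM k2 [k2,k3,k4,k0,k1] [(z1,[z0,y1,y1,z1])] []),
    .base (.spec k0 false k0 [(z1,[z2,z1]),(z1,[y2,y2,y1,z2])])]

theorem hB5_39_9 : blkB [0, 0, 0, 0, 0] [] sp5 hS5_39 (pcls (n := 5) [0, 0, 0, 0, 0]) hD5_39 186 9 hN5_39_9 = true := by
  decide +kernel

/-- nodes 120 to 131 -/
noncomputable def hN5_39_10 : List HM :=
  [.base (.geo z3 k4 [(y2,z4),(z4,y2),(z1,z1),(z6,y6),(z0,z3)] [(z1,[z1]),(z1,[z0,z1]),(z1,[z0,z0,z1]),(z1,[y1,y1,y1,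
    z3]),(z1,[])] k7),
    .base (.spec k2 true k4 [(z1,[z0,z1]),(z4,[y1,y4,z1,z4])]),
    .lp k0 [k49,k30,k30,k40,k30] [k0,k3,k11,k11,k11,k11,k6,k6,k11,k11] k0 [[k0,k11,k11,k0,k0,k0,k0,k0,k0,k11],[k0,k0,
    k0,k0,k3,k0,k0,k3,k0,k0],[k0,k0,k0,k0,k0,k0,k0,k0,k0,k0],[k0,k11,k0,k0,k0,k0,k0,k0,k0,k0],[k0,k0,k0,k0,k0,k0,k0,
    k0,k0,k0],[k3,k0,k0,k0,k0,k0,k0,k0,k0,k3],[k3,k0,k0,k0,k0,k0,k0,k0,k0,k3],[k0,k0,k0,k0,k0,k0,k0,k0,k0,k0],[k0,k11,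
    k0,k0,k3,k0,k0,k3,k0,k0],[k0,k0,k0,k0,k0,k0,k0,k0,k0,k0]] k120 k5
    [[(k2,k38),(k5,k38),(k8,k38),(k4,k41),(k9,k41),(k6,k43),(k7,k43),(k1,k46),(k0,k49),(k3,k49)],[(k5,k30),(k8,k30),
    (k0,k41),(k2,k41),(k3,k41),(k4,k44),(k9,k44),(k6,k46),(k7,k46),(k1,k49)],[(k4,k30),(k5,k30),(k8,k30),(k9,k30),(k6,
    k32),(k7,k32),(k0,k41),(k2,k41),(k3,k41),(k1,k49)],[(k2,k30),(k4,k30),(k5,k30),(k8,k30),(k9,k30),(k6,k35),(k7,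
    k35),(k1,k38),(k0,k41),(k3,k41)],[(k0,k30),(k2,k30),(k3,k30),(k4,k30),(k5,k30),(k8,k30),(k9,k30),(k6,k35),(k7,
    k35),(k1,k38)],[(k2,k30),(k3,k30),(k4,k30),(k5,k30),(k8,k30),(k9,k30),(k6,k35),(k7,k35),(k1,k41),(k0,k44)],[(k3,
    k32),(k8,k32),(k2,k35),(k4,k35),(k5,k35),(k9,k35),(k6,k40),(k7,k40),(k1,k43),(k0,k46)],[(k3,k32),(k8,k32),(k2,
    k35),(k4,k35),(k5,k35),(k9,k35),(k6,k40),(k7,k40),(k1,k43),(k0,k46)],[(k2,k30),(k3,k30),(k4,k30),(k5,k30),(k8,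
    k30),(k9,k30),(k6,k35),(k7,k35),(k1,k41),(k0,k44)],[(k0,k30),(k2,k30),(k3,k30),(k4,k30),(k5,k30),(k8,k30),(k9,
    k30),(k6,k32),(k7,k32),(k1,k38)]]
    [[k1,k1,k1,k0,k0],[k1,k1,k0,k1,k0],[k1,k1,k0,k0,k1],[k1,k0,k2,k0,k0],[k1,k0,k1,k0,k1],[k1,k0,k1,k1,k0],[k1,k0,k0,
    k1,k1],[k1,k0,k0,k0,k2],[k0,k3,k0,k0,k0],[k0,k2,k1,k0,k0],[k0,k2,k0,k1,k0],[k0,k2,k0,k0,k1],[k0,k1,k2,k0,k0],[k0,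
    k1,k1,k1,k0],[k0,k1,k1,k0,k1],[k0,k1,k0,k2,k0],[k0,k1,k0,k1,k1],[k0,k1,k0,k0,k2],[k0,k0,k3,k0,k0],[k0,k0,k2,k1,
    k0],[k0,k0,k2,k0,k1],[k0,k0,k1,k2,k0],[k0,k0,k1,k1,k1],[k0,k0,k1,k0,k2],[k0,k0,k0,k2,k1],[k0,k0,k0,k1,k2],[k0,k0,
    k0,k0,k3]]
    [.ref k111 k8 [(z2,[y2,z1,z1]),(z2,[z4,y1,y1]),(z1,[y4,z2,z1])],.ref k104 k1 [(z1,[y4,z2,z1]),(z2,[z4,y1,y1]),(z2,
    [y2,z1,z1])],.ref k0 k1 [(z1,[z4,y2,y1]),(z2,[y4,z5,z1]),(z2,[z2,y1,z1])],.ref k111 k8 [(z4,[y2,z1,z1]),(z1,[z1]),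
    (z1,[y2,z1])],.ref k112 k3 [(z2,[z6,y1,z1,y4]),(z1,[y1,z0,z0,z1]),(z2,[z4,z1,z1,y4])],.ref k113 k1 [(z1,[y4,z0,y1,
    z4]),(z2,[z4,z5,z1,y4]),(z1,[y1,z0,z1,z1])],.ref k114 k2 [(z2,[z6,y1,z1,y4]),(z1,[y4,z0,y1,z4]),(z2,[z4,z1,z1,
    y4])],.ref k0 k1 [(z1,[z2,y1]),(z1,[y1,z2]),(z4,[z2,y1,z3])],.ref k0 k1 [(z1,[z4,z0,y3]),(z2,[y4,z3,z3]),(z1,
    [z1])],.ref k112 k3 [(z1,[z3,z1,y1,y2]),(z2,[y2,y1,z1,z2]),(z2,[z4,z3,y1,y4])],.ref k114 k2 [(z1,[z3,z1,y1,y2]),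
    (z1,[y4,y2,z1,z4]),(z2,[z4,z3,y1,y4])],.ref k0 k1 [(z1,[z2,z0,y1]),(z2,[y2,z3,z1]),(z2,[z1,z0,z1])],
    .ref k115 k2 [(z2,[y6,y1,z1,z2]),(z1,[z4,z0,y1]),(z2,[y4,z1,z1])],.contra [z1,z1,z0,y1],.ref k116 k1 [(z1,[z2,z1,
    z0,y2]),(z1,[y1,z0,z0,z1]),(z2,[z2,z1,z1,y2])],.ref k117 k3 [(z2,[y6,y1,z1,z2]),(z1,[z1]),(z2,[y4,z1,z1])],
    .ref k118 k6 [(z2,[y2,y1,y1,z2]),(z1,[z1,z0,z1]),(z1,[z0,z0,y1])],.ref k0 k1 [(z3,[z4,z0,y1]),(z6,[y4,z9,z1]),(z3,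
    [z1,z0,z2])],.ref k25 k3 [(z1,[z1]),(z2,[y2,y3,z3,z6]),(z2,[z4,z15,z3,y12])],.ref k119 k6 [(z2,[z2,z1,y1,y2]),(z1,
    [y1,y1,z1,z2]),(z1,[z0,z0,y1])],.ref k112 k3 [(z2,[z3,z2,z1,y4]),(z2,[y1,y1,z0,z2]),(z2,[z2,z3,z1,y4])],
    .ref k120 k1 [(z1,[y4,y2,y1,z4]),(z2,[z4,z5,z1,y4]),(z2,[y2,y1,z1,z2])],.contra [z2,z1,z1,y2],.ref k121 k5 [(z1,
    [y4,y2,y1,z4]),(z1,[z1]),(z1,[z0,z0,z1])],.ref k114 k2 [(z2,[z3,z2,z1,y4]),(z1,[y2,y2,y1,z4]),(z2,[z2,z3,z1,y4])],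
    .ref k115 k6 [(z2,[y2,y1,y3,z2]),(z1,[z1,z0,z2]),(z1,[z0,z0,y1])],.ref k0 k1 [(z1,[z1]),(z2,[y1,z3]),(z4,[z1,z0,
    z3])]],
    .base (.geo z4 k4 [(y2,z5),(z4,y2),(z2,z1),(z8,y8),(z0,z4)] [(z1,[z1]),(z1,[z0,z2]),(z1,[z0,z0,z1]),(z1,[y1,y2,y1,
    z4]),(z1,[])] k10),
    .base (.leafM k0 [k1,k2,k3,k4,k0] [(z2,[z0,z1,z1])] []),
    .base (.leafM k2 [k1,k2,k3,k4,k0] [(z1,[z0,z0,z1])] []),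
    .base (.leafM k0 [k3,k4,k0,k1,k2] [(z2,[y2,y1,y1,z2])] []),
    .base (.spec k2 true k4 [(z1,[z0,z1]),(z3,[y1,y3,z1,z3])]),
    .base (.leafM k0 [k0,k1,k2,k3,k4] [(z1,[z1,z1])] []),
    .base (.leafM k2 [k4,k0,k1,k2,k3] [(z5,[z1,z0,z1])] []),
    .base (.spec k1 false k2 [(z1,[y2,y2,y1,z2]),(z1,[z1,z0,z1])]),
    .base (.leafM k0 [k0,k1,k2,k3,k4] [(z1,[z1,z1])] [])]

theorem hB5_39_10 : blkB [0, 0, 0, 0, 0] [] sp5 hS5_39 (pcls (n := 5) [0, 0, 0, 0, 0]) hD5_39 186 10 hN5_39_10 = true := by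
  decide +kernel

/-- nodes 132 to 143 -/
noncomputable def hN5_39_11 : List HM :=
  [.lp k0 [(nat_lit 8900850),(nat_lit 8900850),(nat_lit 16258886),(nat_lit 9375562),
    (nat_lit 9672600)] [(nat_lit 3679018),(nat_lit 3679018),(nat_lit 3679018),(nat_lit 3679018),k0,k0,
    (nat_lit 3441662),(nat_lit 3441662),(nat_lit 3500743),(nat_lit 3085543)] k0 [[k0,k0,(nat_lit 3679018),k0,k0,k0,k0,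
    k0,k0,k0],[k0,k0,k0,k0,k0,k0,k0,k0,k0,k0],[k0,k0,k0,k0,k0,(nat_lit 593390),(nat_lit 593390),k0,k0,k0],[k0,
    (nat_lit 3679018),(nat_lit 5221832),k0,k0,k0,k0,k0,k0,k0],[k0,k0,k0,(nat_lit 593390),k0,k0,k0,k0,k0,k0],[k0,k0,k0,
    k0,k0,k0,k0,k0,k0,k0],[k0,k0,k0,k0,k0,k0,k0,k0,k0,k0],[k0,k0,k0,(nat_lit 593390),k0,k0,k0,k0,k0,k0],[k0,k0,k0,k0,
    k0,k0,k0,k0,k0,k0],[k0,k0,k0,k0,k0,k0,k0,k0,k0,k0]] (nat_lit 35603400) k5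
    [[(k0,(nat_lit 8900850)),(k1,(nat_lit 8900850)),(k2,(nat_lit 8900850)),(k3,(nat_lit 8900850)),(k8,
    (nat_lit 9079125)),(k6,(nat_lit 9138206)),(k7,(nat_lit 9138206)),(k9,(nat_lit 9494325)),(k4,(nat_lit 12579868)),
    (k5,(nat_lit 12579868))],[(k0,(nat_lit 8900850)),(k1,(nat_lit 8900850)),(k2,(nat_lit 8900850)),(k3,
    (nat_lit 8900850)),(k5,(nat_lit 8900850)),(k8,(nat_lit 9079125)),(k6,(nat_lit 9138206)),(k7,(nat_lit 9138206)),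
    (k9,(nat_lit 9494325)),(k4,(nat_lit 12579868))],[(k0,(nat_lit 8900850)),(k1,(nat_lit 8900850)),(k3,
    (nat_lit 8900850)),(k8,(nat_lit 9079125)),(k6,(nat_lit 9138206)),(k7,(nat_lit 9138206)),(k9,(nat_lit 9494325)),
    (k2,(nat_lit 12579868)),(k4,(nat_lit 12579868)),(k5,(nat_lit 12579868))],[(k0,(nat_lit 8900850)),(k1,
    (nat_lit 8900850)),(k9,(nat_lit 8900935)),(k8,(nat_lit 9079125)),(k6,(nat_lit 9138206)),(k7,(nat_lit 9138206)),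
    (k4,(nat_lit 11986478)),(k3,(nat_lit 12579868)),(k5,(nat_lit 12579868)),(k2,(nat_lit 14122682))],[(k0,
    (nat_lit 8900850)),(k5,(nat_lit 11037054)),(k1,(nat_lit 12579868)),(k2,(nat_lit 12579868)),(k3,
    (nat_lit 12579868)),(k8,(nat_lit 12758143)),(k9,(nat_lit 13173343)),(k6,(nat_lit 13410614)),(k7,
    (nat_lit 13410614)),(k4,(nat_lit 16258886))],[(k2,(nat_lit 11986478)),(k0,(nat_lit 12579868)),(k1,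
    (nat_lit 12579868)),(k3,(nat_lit 12579868)),(k8,(nat_lit 12758143)),(k6,(nat_lit 12817224)),(k7,
    (nat_lit 12817224)),(k9,(nat_lit 13173343)),(k4,(nat_lit 16258886)),(k5,(nat_lit 16258886))],[(k0,
    (nat_lit 9138206)),(k1,(nat_lit 9138206)),(k2,(nat_lit 9138206)),(k3,(nat_lit 9138206)),(k8,(nat_lit 9316481)),
    (k6,(nat_lit 9375562)),(k7,(nat_lit 9375562)),(k9,(nat_lit 9731681)),(k4,(nat_lit 12817224)),(k5,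
    (nat_lit 13410614))],[(k0,(nat_lit 9138206)),(k1,(nat_lit 9138206)),(k2,(nat_lit 9138206)),(k3,(nat_lit 9138206)),
    (k8,(nat_lit 9316481)),(k6,(nat_lit 9375562)),(k7,(nat_lit 9375562)),(k9,(nat_lit 9731681)),(k4,
    (nat_lit 12817224)),(k5,(nat_lit 13410614))],[(k2,(nat_lit 8900935)),(k0,(nat_lit 9494325)),(k1,
    (nat_lit 9494325)),(k3,(nat_lit 9494325)),(k8,(nat_lit 9672600)),(k6,(nat_lit 9731681)),(k7,(nat_lit 9731681)),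
    (k9,(nat_lit 10087800)),(k4,(nat_lit 13173343)),(k5,(nat_lit 13173343))],[(k0,(nat_lit 9079125)),(k1,
    (nat_lit 9079125)),(k2,(nat_lit 9079125)),(k3,(nat_lit 9079125)),(k8,(nat_lit 9257400)),(k6,(nat_lit 9316481)),
    (k7,(nat_lit 9316481)),(k9,(nat_lit 9672600)),(k4,(nat_lit 12758143)),(k5,(nat_lit 12758143))]]
    [[k3,k0,k0,k0,k0],[k2,k1,k0,k0,k0],[k2,k0,k1,k0,k0],[k2,k0,k0,k1,k0],[k2,k0,k0,k0,k1],[k1,k2,k0,k0,k0],[k1,k1,k1,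
    k0,k0],[k1,k1,k0,k1,k0],[k1,k1,k0,k0,k1],[k1,k0,k1,k1,k0],[k1,k0,k1,k0,k1],[k1,k0,k0,k2,k0],[k1,k0,k0,k1,k1],[k1,
    k0,k0,k0,k2],[k0,k2,k0,k1,k0],[k0,k2,k0,k0,k1],[k0,k2,k1,k0,k0],[k0,k1,k1,k1,k0],[k0,k1,k1,k0,k1],[k0,k1,k0,k2,
    k0],[k0,k1,k0,k1,k1],[k0,k1,k0,k0,k2],[k0,k0,k1,k1,k1],[k0,k0,k0,k3,k0],[k0,k0,k0,k2,k1],[k0,k0,k0,k1,k2],[k0,k0,
    k0,k0,k3]]
    [.ref k3 k6 [(z2,[y1,y3,y6,z6]),(z4,[z1,y3]),(z4,[y1,z3,z4])],.ref k94 k1 [(z1,[y1,z2,z1]),(z1,[z0,z1]),(z1,[z1,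
    y2])],.ref k3 k6 [(z1,[y1,y2,y4,z4]),(z2,[z1,y1,z1,y1]),(z2,[y1,z1,z1,z1])],.ref k3 k6 [(z3,[y2,y5,y9,z9]),(z3,
    [z1,y2]),(z3,[y1,z2,z3])],.ref k123 k7 [(z1,[y4,z3,z4]),(z1,[z0,y1,y2,z2]),(z1,[z0,y1])],.ref k124 k6 [(z2,[y1,y1,
    y2,z2]),(z2,[z1,y1]),(z2,[y3,z3,z4])],.ref k124 k6 [(z1,[y1,y1,y2,z2]),(z1,[z1,z0,z1,y1]),(z1,[y3,z0,y1,z3])],
    .ref k125 k8 [(z1,[z2,z3,z5,y5]),(z1,[z0,y1,y2,z2]),(z1,[y1,z0,z0,z1])],.contra [z1,y1,y1],.ref k3 k6 [(z1,[y2,y3,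
    y5,z5]),(z1,[z1,z0,z1,y1]),(z1,[y1,z0,z0,z1])],.ref k112 k6 [(z1,[z2,y1,y1,y1]),(z1,[y1,z0,z0,z1]),(z1,[z3,z0,z1,
    y3])],.ref k3 k6 [(z1,[y1,y2,y3,z3]),(z2,[z1,y1]),(z2,[y1,z1,z2])],.ref k126 k9 [(z1,[z2,y1,y2]),(z1,[y3,z3,z5]),
    (z1,[z1,y1,y1])],.ref k112 k6 [(z1,[z1,y2,y3,z1]),(z2,[y1,z1,z2]),(z2,[z3,y3,y4])],.ref k99 k6 [(z1,[y2,y1,y1,
    z1]),(z1,[z1]),(z1,[y3,z0,z1])],.ref k127 k9 [(z1,[y4,z3,z4]),(z1,[z1]),(z1,[y1,z0,z1])],.ref k128 k9 [(z1,[y2,y1,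
    y2,z2]),(z2,[z3,z3,z5,y3]),(z2,[y1,y1,y1,z1])],.ref k128 k9 [(z1,[y4,y3,y4,z4]),(z1,[z3,z3,z4,y3]),(z1,[y1,y1,y1,
    z1])],.ref k129 k9 [(z1,[y4,z1,z0,z4]),(z1,[z3,z3,z5,y3]),(z1,[y1,y1,z0,z1])],.ref k124 k6 [(z1,[y1,y1,y1,z1]),
    (z1,[z1]),(z1,[y3,z0,z2])],.contra [z1,y1,y2,z1],.ref k130 k8 [(z1,[y1,z3,z5,y3]),(z1,[z0,y1,y2,z2]),(z1,[z2,y3,
    y5,z3])],.ref k131 k0 [(z1,[y4,y3,y4,z4]),(z1,[z3,z3,z4,y3]),(z1,[z2,z1,z1,y1])],.ref k3 k6 [(z1,[y2,y3,y3,z3]),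
    (z1,[z1]),(z1,[y1,z0,z1])],.ref k112 k6 [(z1,[z2,y1,y3,z1]),(z1,[y1,z0,z1]),(z1,[z3,z0,y2])],.ref k121 k8 [(z1,
    [y2,z5,z9,y5]),(z1,[z0,y1,y2,z2]),(z1,[z2,z1,z1,y1])],.ref k26 k0 [(z1,[z0,z1]),(z1,[y1,z0,z3]),(z1,[z0,y1,y1,
    z1])]],
    .base (.spec k7 false k4 [(z1,[y1,z1,y1,z1]),(z1,[z0,z0,z1])]),
    .base (.spec k0 false k4 [(z1,[z0,z2,z1]),(z1,[y1,y1,y1,z1])]),
    .base (.spec k16 false k0 [(z1,[z2,z1]),(z1,[y1,y1,y1,z1])]),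
    .base (.leafM k0 [k2,k3,k4,k0,k1] [(z1,[y1,y1,z0,z1])] []),
    .base (.leafM k2 [k2,k3,k4,k0,k1] [(z1,[z0,y1,y1,z1])] []),
    .base (.leafM k0 [k0,k1,k2,k3,k4] [(z5,[z1,z1])] []),
    .base (.spec k1 true k2 [(z1,[z0,z1,z2]),(z1,[y1,y2,y2,z2])]),
    .base (.spec k1 true k4 [(z1,[y1,y1,y1,z1]),(z1,[z2,z0,z1])]),
    .base (.leafM k2 [k0,k1,k2,k3,k4] [(z1,[y1,z0,y1,z1])] []),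
    .base (.leafM k2 [k3,k4,k0,k1,k2] [(z1,[z0,z1])] []),
    .lp k0 [k152,k120,k142,k176,k128] [k12,k12,k28,k28,k17,k17,k0,k0,k24,k24] k0 [[k0,k0,k0,k0,k0,k50,k28,k0,k0,k0],
    [k0,k0,k0,k0,k0,k0,k0,k0,k0,k8],[k0,k0,k0,k0,k42,k8,k0,k8,k0,k0],[k0,k0,k0,k0,k0,k0,k0,k0,k0,k0],[k0,k50,k0,k8,k0,
    k0,k22,k0,k20,k0],[k0,k0,k0,k42,k12,k0,k20,k0,k0,k0],[k0,k0,k0,k8,k0,k0,k0,k0,k0,k0],[k0,k28,k0,k0,k20,k22,k0,k0,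
    k12,k0],[k8,k0,k0,k0,k0,k0,k0,k0,k0,k16],[k0,k0,k0,k0,k0,k20,k12,k0,k0,k0]] (nat_lit 480) k6
    [[(k4,k127),(k9,k128),(k2,k136),(k3,k136),(k8,k140),(k5,k147),(k0,k160),(k6,k164),(k7,k164),(k1,k168)],[(k4,k97),
    (k9,k112),(k2,k136),(k3,k136),(k8,k140),(k5,k147),(k0,k152),(k1,k160),(k6,k164),(k7,k164)],[(k8,k116),(k2,k120),
    (k3,k120),(k9,k124),(k4,k131),(k5,k131),(k0,k136),(k1,k136),(k6,k176),(k7,k198)],[(k7,k106),(k2,k120),(k3,k120),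
    (k4,k123),(k8,k124),(k9,k124),(k5,k131),(k0,k136),(k1,k136),(k6,k140)],[(k2,k131),(k3,k131),(k8,k135),(k5,k142),
    (k9,k143),(k0,k147),(k1,k147),(k6,k159),(k7,k167),(k4,k184)],[(k0,k97),(k9,k113),(k2,k123),(k1,k127),(k3,k131),
    (k8,k135),(k4,k154),(k7,k159),(k6,k179),(k5,k184)],[(k2,k106),(k9,k132),(k4,k159),(k0,k164),(k1,k164),(k7,k164),
    (k5,k167),(k8,k172),(k3,k198),(k6,k198)],[(k2,k140),(k9,k152),(k5,k159),(k0,k164),(k1,k164),(k8,k164),(k3,k176),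
    (k6,k176),(k4,k179),(k7,k198)],[(k0,k112),(k4,k113),(k2,k124),(k3,k124),(k1,k128),(k8,k128),(k9,k128),(k7,k132),
    (k5,k143),(k6,k152)],[(k8,k112),(k3,k116),(k2,k124),(k9,k128),(k4,k135),(k5,k135),(k0,k140),(k1,k140),(k6,k164),
    (k7,k172)]]
    [[k2,k1,k0,k0,k0],[k2,k0,k1,k0,k0],[k2,k0,k0,k0,k1],[k1,k2,k0,k0,k0],[k1,k1,k1,k0,k0],[k1,k1,k0,k1,k0],[k1,k1,k0,
    k0,k1],[k1,k0,k2,k0,k0],[k1,k0,k1,k1,k0],[k1,k0,k1,k0,k1],[k1,k0,k0,k1,k1],[k1,k0,k0,k0,k2],[k1,k1,k1,k0,k1],[k0,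
    k3,k0,k0,k0],[k0,k2,k1,k0,k0],[k0,k2,k0,k1,k0],[k0,k2,k0,k0,k1],[k0,k1,k2,k0,k0],[k0,k1,k1,k1,k0],[k0,k1,k1,k0,
    k1],[k0,k1,k0,k1,k1],[k0,k1,k0,k0,k2],[k0,k0,k2,k0,k1],[k0,k0,k1,k1,k1],[k0,k0,k1,k0,k2],[k0,k0,k0,k1,k2],[k0,k0,
    k0,k0,k3]]
    [.ref k95 k8 [(z1,[z0,z2,z5,y4]),(z2,[z1,y2,y5,z4]),(z2,[y1,z0,y1,z2])],.ref k133 k4 [(z1,[y3,y1,y3,z3]),(z1,[y2,
    y1,y2,z2]),(z1,[z1])],.ref k134 k8 [(z1,[z0,z2,z5,y4]),(z1,[z1,z1,z3,y3]),(z1,[y1,y2,y6,z6])],.ref k135 k8 [(z1,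
    [z0,z2,z5,y4]),(z1,[z1,y4,y10,z8]),(z1,[y1,z3,z7,y5])],.ref k136 k8 [(z1,[z0,z2,z5,y4]),(z1,[z1,y2,y5,z4]),(z1,
    [y1,z1,z2,y1])],.ref k95 k8 [(z1,[z0,z2,z5,y4]),(z1,[z1,y1,y3,z2]),(z1,[y1,z0,z0,z1])],.contra [z1,y1,y2,z1],
    .ref k95 k8 [(z1,[z0,z2,z5,y4]),(z1,[z1]),(z1,[y1,y1,y3,z3])],.ref k137 k7 [(z1,[y4,y2,y3,z4]),(z1,[y1,y1,y2,z2]),
    (z1,[z2,z1,z2,y2])],.contra [z1,z0,z1,y1],.ref k138 k7 [(z1,[y4,z2,z5]),(z1,[y1,y2,y5,z5]),(z1,[z2,y1])],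
    .ref k139 k8 [(z1,[z0,z2,z5,y4]),(z1,[y1,y2,y6,z6]),(z1,[z1,z1,z3,y3])],.contra [y1,z0,z0,z1],.ref k0 k7 [(z1,
    [z1]),(z4,[z1,y6,y15,z12]),(z2,[y1,z0,z3])],.ref k0 k7 [(z3,[z4,z2,z5,y4]),(z3,[z1,y4,y10,z8]),(z3,[y2,y1,z2,
    z2])],.ref k0 k7 [(z1,[z2,z0,y1]),(z2,[z1,y3,y8,z6]),(z1,[y1,z0,z2])],.ref k140 k8 [(z1,[z0,z2,z5,y4]),(z1,[y1,z3,
    z7,y5]),(z1,[z1,y4,y10,z8])],.ref k0 k7 [(z1,[z2,z2,z5,y4]),(z2,[z1,y2,y5,z4]),(z1,[y1,y1,y1,z2])],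
    .ref k0 k7 [(z1,[z4,z2,z3,y4]),(z1,[z1,y1,y3,z2]),(z1,[y2,y1,z0,z2])],.ref k141 k8 [(z1,[z0,z2,z5,y4]),(z1,[y1,z1,
    z2,y1]),(z1,[z1,y2,y5,z4])],.ref k142 k8 [(z1,[z0,z2,z5,y4]),(z1,[y1,z0,z0,z1]),(z1,[z1,y1,y3,z2])],
    .ref k142 k8 [(z1,[z0,z2,z5,y4]),(z2,[y1,z0,y1,z2]),(z2,[z1,y2,y5,z4])],.ref k142 k8 [(z1,[z0,z2,z5,y4]),(z1,[y1,
    y1,y3,z3]),(z1,[z1])],.ref k128 k8 [(z1,[z0,z2,z5,y4]),(z1,[y1,y2,y5,z5]),(z1,[z1,z1,z2,y2])],.ref k106 k0 [(z1,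
    [y3,y1,y3,z3]),(z1,[z4,z2,z5,y4]),(z1,[z1])],.ref k128 k8 [(z1,[z0,z2,z5,y4]),(z2,[y1,y3,y8,z8]),(z2,[z1,z1,z2,
    y2])],.ref k61 k0 [(z1,[y2,z3]),(z1,[z0,z0,z1]),(z1,[z0,y1,y2,z2])]]]

theorem hB5_39_11 : blkB [0, 0, 0, 0, 0] [] sp5 hS5_39 (pcls (n := 5) [0, 0, 0, 0, 0]) hD5_39 186 11 hN5_39_11 = true := by
  decide +kernel

/-- nodes 144 to 155 -/
noncomputable def hN5_39_12 : List HM :=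
  [.base (.leafM k0 [k0,k1,k2,k3,k4] [(z2,[z1,z1])] []),
    .base (.leafM k2 [k0,k1,k2,k3,k4] [(z1,[z0,z1])] []),
    .base (.leafM k2 [k0,k1,k2,k3,k4] [(z1,[z0,z1])] []),
    .base (.leafM k0 [k2,k3,k4,k0,k1] [(z1,[y1,y1,z0,z1])] []),
    .base (.spec k2 false k1 [(z1,[z0,z0,z1]),(z1,[z1,z2])]),
    .base (.leafM k2 [k3,k4,k0,k1,k2] [(z1,[z0,z1])] []),
    .base (.leafM k2 [k4,k0,k1,k2,k3] [(z1,[z1,z0,z1])] []),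
    .base (.spec k0 false k0 [(z1,[z1,z1]),(z1,[y1,y2,y1,z2])]),
    .base (.leafM k0 [k0,k1,k2,k3,k4] [(z1,[z1,z1])] []),
    .lp k0 [k38,k30,k41,k30,k40] [k2,k10,k10,k10,k0,k9,k10,k10,k4,k6] k0 [[k0,k0,k0,k8,k8,k0,k0,k0,k0,k0],[k0,k0,k0,
    k0,k0,k0,k0,k0,k0,k6],[k0,k8,k0,k0,k0,k0,k0,k0,k0,k0],[k0,k0,k0,k0,k0,k0,k0,k0,k0,k0],[k0,k0,k0,k0,k0,k0,k0,k10,
    k10,k0],[k0,k8,k0,k0,k0,k0,k0,k0,k0,k0],[k0,k0,k0,k0,k0,k10,k0,k0,k0,k0],[k0,k0,k0,k0,k0,k0,k0,k0,k0,k0],[k6,k0,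
    k0,k0,k0,k0,k0,k0,k0,k0],[k0,k0,k0,k0,k0,k10,k0,k0,k0,k0]] k120 k5
    [[(k1,k30),(k2,k30),(k3,k30),(k4,k30),(k6,k30),(k7,k30),(k5,k31),(k9,k34),(k8,k36),(k0,k44)],[(k2,k30),(k7,k30),
    (k3,k38),(k6,k38),(k5,k39),(k9,k42),(k1,k44),(k8,k44),(k0,k46),(k4,k48)],[(k1,k30),(k2,k30),(k3,k30),(k6,k30),(k7,
    k30),(k8,k30),(k9,k34),(k0,k38),(k5,k39),(k4,k48)],[(k0,k30),(k1,k30),(k2,k30),(k3,k30),(k6,k30),(k7,k30),(k5,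
    k31),(k9,k34),(k8,k36),(k4,k40)],[(k1,k31),(k2,k31),(k6,k31),(k7,k31),(k5,k32),(k9,k35),(k8,k37),(k0,k39),(k3,
    k39),(k4,k41)],[(k1,k30),(k6,k30),(k2,k40),(k7,k40),(k5,k41),(k9,k44),(k8,k46),(k0,k48),(k3,k48),(k4,k50)],[(k0,
    k30),(k1,k30),(k2,k30),(k3,k30),(k6,k30),(k7,k30),(k5,k31),(k4,k40),(k9,k44),(k8,k46)],[(k1,k30),(k2,k30),(k3,
    k30),(k4,k30),(k6,k30),(k7,k30),(k5,k31),(k9,k34),(k8,k36),(k0,k38)],[(k1,k34),(k2,k34),(k3,k34),(k6,k34),(k5,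
    k35),(k9,k38),(k8,k40),(k0,k42),(k4,k44),(k7,k44)],[(k3,k30),(k1,k36),(k2,k36),(k6,k36),(k5,k37),(k9,k40),(k8,
    k42),(k0,k44),(k4,k46),(k7,k46)]]
    [[k2,k1,k0,k0,k0],[k2,k0,k1,k0,k0],[k2,k0,k0,k1,k0],[k2,k0,k0,k0,k1],[k1,k2,k0,k0,k0],[k1,k1,k1,k0,k0],[k1,k1,k0,
    k1,k0],[k1,k1,k0,k0,k1],[k1,k0,k2,k0,k0],[k1,k0,k1,k1,k0],[k1,k0,k1,k0,k1],[k1,k0,k0,k2,k0],[k1,k0,k0,k1,k1],[k1,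
    k0,k0,k0,k2],[k0,k3,k0,k0,k0],[k0,k2,k1,k0,k0],[k0,k2,k0,k1,k0],[k0,k2,k0,k0,k1],[k0,k1,k1,k1,k0],[k0,k1,k1,k0,
    k1],[k0,k1,k0,k2,k0],[k0,k1,k0,k1,k1],[k0,k1,k0,k0,k2],[k0,k0,k2,k1,k0],[k0,k0,k1,k2,k0],[k0,k0,k1,k1,k1],[k0,k0,
    k0,k3,k0],[k0,k0,k0,k2,k1]]
    [.contra [z1,y2,y1],.ref k97 k7 [(z1,[y2,z0,z1]),(z1,[z1]),(z1,[z2,z1,y1,z1])],.contra [z1,y1,z1,y1],
    .ref k120 k2 [(z1,[y2,z1,y3,z3]),(z1,[z1,y2]),(z1,[z1,z1])],.ref k120 k0 [(z1,[y1,z4,z2]),(z1,[z2,y2,y1]),(z1,[y1,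
    z1,z2])],.contra [z1,y1,y1],.contra [y1,z1,z0,z1],.ref k147 k0 [(z1,[y1,z2,z1]),(z1,[z2,y2,y1]),(z1,[y1,z1,z1])],
    .ref k148 k2 [(z1,[y2,z1,y1,z1]),(z1,[z1,y1]),(z1,[z1])],.ref k149 k0 [(z1,[z1,z2,z1,y1]),(z1,[y1,z0,z0,z1]),(z1,
    [z1,z0,z1,y1])],.ref k150 k7 [(z1,[y1,z1,z1]),(z1,[z1,y1]),(z1,[z0,y1,y1,z1])],.ref k139 k0 [(z1,[z1,z2,z2,y2]),
    (z1,[y2,y2,y3,z4]),(z1,[z1,z1,z2,y2])],.contra [z1,z0,z1,y1],.ref k151 k3 [(z1,[z2,z1,z3,y3]),(z1,[y2,y1,y2,z3]),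
    (z1,[z1,z1,z1,y1])],.ref k6 k0 [(z2,[y1,z6,z3]),(z1,[z1]),(z2,[y1,z0,z3])],.ref k6 k0 [(z1,[y1,z3,z2]),(z1,[z2,z0,
    y1]),(z1,[y1,z0,z2])],.ref k95 k2 [(z1,[z1,z0,y2]),(z2,[y1,y1,z1,z1]),(z2,[y1,z1,z1,z1])],.ref k123 k0 [(z1,[y1,
    z4,z2]),(z1,[z1]),(z1,[y1,z0,z2])],.ref k124 k2 [(z1,[z1,z0,y1]),(z1,[y1,y1,z0,z1]),(z1,[y1,z1,z0,z1])],
    .ref k152 k0 [(z1,[y1,z1,z1]),(z1,[z2,z0,y1]),(z1,[y1,z0,z1])],.ref k124 k2 [(z2,[z1,z0,y1]),(z2,[y1,y2,y1,z2]),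
    (z2,[y1,z2,y1,z2])],.ref k95 k2 [(z1,[z2,z1,y1,y1]),(z1,[y1,y1,z0,z1]),(z1,[y1,z0,z0,z1])],.ref k152 k0 [(z2,[y1,
    z2,z1]),(z1,[z1]),(z2,[y1,z0,z1])],.ref k152 k0 [(z2,[z1,z3,z1,y1]),(z1,[y1,y1,z0,z1]),(z2,[z1,z1,z1,y1])],
    .ref k115 k0 [(z1,[z1,z3,z2,y2]),(z1,[y2,y4,y3,z4]),(z1,[z1,z2,z2,y2])],.ref k152 k0 [(z1,[z1,z2,z1,y1]),(z1,[y2,
    y2,y1,z2]),(z1,[z1,z1,z1,y1])],.ref k4 k0 [(z2,[y1,z3,y3,z3]),(z1,[z0,z0,z1]),(z1,[z1])],.ref k4 k0 [(z1,[y1,z1,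
    y2,z2]),(z1,[z0,z0,z1]),(z1,[z2,z1,z1,y1])]],
    .base (.spec k2 true k2 [(z1,[y1,y2,z2]),(z1,[z1,z1])]),
    .base (.spec k0 false k3 [(z1,[y1,y1,z2]),(z1,[z1])])]

theorem hB5_39_12 : blkB [0, 0, 0, 0, 0] [] sp5 hS5_39 (pcls (n := 5) [0, 0, 0, 0, 0]) hD5_39 186 12 hN5_39_12 = true := by
  decide +kernel

/-- nodes 156 to 167 -/
noncomputable def hN5_39_13 : List HM :=
  [.base (.spec k1 true k3 [(z1,[y1,y1,z1]),(z1,[z0,z1])]),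
    .base (.spec k16 false k2 [(z1,[y1,y2,z2]),(z1,[z0,z1])]),
    .lp k0 [(nat_lit 16258886),(nat_lit 8900850),(nat_lit 8900850),(nat_lit 9672600),(nat_lit 9375562)] [k0,k0,
    (nat_lit 3679018),(nat_lit 3679018),(nat_lit 3679018),(nat_lit 3679018),(nat_lit 3085543),(nat_lit 3500743),
    (nat_lit 3441662),(nat_lit 3441662)] k0 [[k0,(nat_lit 5221832),(nat_lit 3679018),k0,k0,k0,k0,k0,k0,k0],[k0,k0,k0,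
    k0,k0,k0,k0,(nat_lit 593390),(nat_lit 593390),k0],[k0,k0,k0,k0,k0,k0,k0,k0,k0,k0],[k0,(nat_lit 3679018),k0,k0,k0,
    k0,k0,k0,k0,k0],[k0,k0,k0,k0,k0,k0,k0,k0,k0,k0],[k0,k0,k0,k0,k0,k0,k0,k0,k0,k0],[(nat_lit 593390),k0,k0,k0,k0,k0,
    k0,k0,k0,k0],[k0,k0,k0,k0,k0,k0,k0,k0,k0,k0],[k0,k0,k0,k0,k0,k0,k0,k0,k0,k0],[(nat_lit 593390),k0,k0,k0,k0,k0,k0,
    k0,k0,k0]] (nat_lit 35603400) k5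
    [[(k3,(nat_lit 11986478)),(k2,(nat_lit 12579868)),(k4,(nat_lit 12579868)),(k5,(nat_lit 12579868)),(k7,
    (nat_lit 12758143)),(k8,(nat_lit 12817224)),(k9,(nat_lit 12817224)),(k6,(nat_lit 13173343)),(k0,
    (nat_lit 16258886)),(k1,(nat_lit 16258886))],[(k5,(nat_lit 8900850)),(k0,(nat_lit 11037054)),(k2,
    (nat_lit 12579868)),(k3,(nat_lit 12579868)),(k4,(nat_lit 12579868)),(k7,(nat_lit 12758143)),(k6,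
    (nat_lit 13173343)),(k8,(nat_lit 13410614)),(k9,(nat_lit 13410614)),(k1,(nat_lit 16258886))],[(k4,
    (nat_lit 8900850)),(k5,(nat_lit 8900850)),(k6,(nat_lit 8900935)),(k7,(nat_lit 9079125)),(k8,(nat_lit 9138206)),
    (k9,(nat_lit 9138206)),(k1,(nat_lit 11986478)),(k0,(nat_lit 12579868)),(k2,(nat_lit 12579868)),(k3,
    (nat_lit 14122682))],[(k2,(nat_lit 8900850)),(k4,(nat_lit 8900850)),(k5,(nat_lit 8900850)),(k7,(nat_lit 9079125)),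
    (k8,(nat_lit 9138206)),(k9,(nat_lit 9138206)),(k6,(nat_lit 9494325)),(k0,(nat_lit 12579868)),(k1,
    (nat_lit 12579868)),(k3,(nat_lit 12579868))],[(k0,(nat_lit 8900850)),(k2,(nat_lit 8900850)),(k3,
    (nat_lit 8900850)),(k4,(nat_lit 8900850)),(k5,(nat_lit 8900850)),(k7,(nat_lit 9079125)),(k8,(nat_lit 9138206)),
    (k9,(nat_lit 9138206)),(k6,(nat_lit 9494325)),(k1,(nat_lit 12579868))],[(k2,(nat_lit 8900850)),(k3,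
    (nat_lit 8900850)),(k4,(nat_lit 8900850)),(k5,(nat_lit 8900850)),(k7,(nat_lit 9079125)),(k8,(nat_lit 9138206)),
    (k9,(nat_lit 9138206)),(k6,(nat_lit 9494325)),(k0,(nat_lit 12579868)),(k1,(nat_lit 12579868))],[(k2,
    (nat_lit 9079125)),(k3,(nat_lit 9079125)),(k4,(nat_lit 9079125)),(k5,(nat_lit 9079125)),(k7,(nat_lit 9257400)),
    (k8,(nat_lit 9316481)),(k9,(nat_lit 9316481)),(k6,(nat_lit 9672600)),(k0,(nat_lit 12758143)),(k1,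
    (nat_lit 12758143))],[(k3,(nat_lit 8900935)),(k2,(nat_lit 9494325)),(k4,(nat_lit 9494325)),(k5,(nat_lit 9494325)),
    (k7,(nat_lit 9672600)),(k8,(nat_lit 9731681)),(k9,(nat_lit 9731681)),(k6,(nat_lit 10087800)),(k0,
    (nat_lit 13173343)),(k1,(nat_lit 13173343))],[(k2,(nat_lit 9138206)),(k3,(nat_lit 9138206)),(k4,
    (nat_lit 9138206)),(k5,(nat_lit 9138206)),(k7,(nat_lit 9316481)),(k8,(nat_lit 9375562)),(k9,(nat_lit 9375562)),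
    (k6,(nat_lit 9731681)),(k1,(nat_lit 12817224)),(k0,(nat_lit 13410614))],[(k2,(nat_lit 9138206)),(k3,
    (nat_lit 9138206)),(k4,(nat_lit 9138206)),(k5,(nat_lit 9138206)),(k7,(nat_lit 9316481)),(k8,(nat_lit 9375562)),
    (k9,(nat_lit 9375562)),(k6,(nat_lit 9731681)),(k1,(nat_lit 12817224)),(k0,(nat_lit 13410614))]]
    [[k1,k1,k1,k0,k0],[k1,k1,k0,k1,k0],[k1,k1,k0,k0,k1],[k1,k2,k0,k0,k0],[k1,k0,k2,k0,k0],[k1,k0,k1,k1,k0],[k1,k0,k1,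
    k0,k1],[k1,k0,k0,k1,k1],[k0,k2,k1,k0,k0],[k0,k2,k0,k1,k0],[k0,k2,k0,k0,k1],[k0,k1,k2,k0,k0],[k0,k1,k1,k1,k0],[k0,
    k1,k1,k0,k1],[k0,k1,k0,k2,k0],[k0,k1,k0,k1,k1],[k0,k1,k0,k0,k2],[k0,k0,k3,k0,k0],[k0,k0,k2,k1,k0],[k0,k0,k2,k0,
    k1],[k0,k0,k1,k2,k0],[k0,k0,k1,k1,k1],[k0,k0,k1,k0,k2],[k0,k0,k0,k3,k0],[k0,k0,k0,k2,k1],[k0,k0,k0,k1,k2],[k0,k0,
    k0,k0,k3]]
    [.ref k91 k0 [(z1,[y1,z1,z1]),(z1,[z2,y1,y1])],.ref k92 k5 [(z1,[z1,y1,y1]),(z1,[y1,z0,z1])],.ref k93 k0 [(z1,[y1,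
    z1,z1]),(z1,[z2,y1,y1])],.ref k7 k0 [(z1,[y1,z2,z2]),(z1,[z2,y1,y1])],.ref k107 k5 [(z1,[y1,y2]),(z1,[z1])],
    .ref k108 k8 [(z1,[y2,z1,z1]),(z1,[z1])],.ref k109 k5 [(z1,[y1,y1]),(z1,[z1])],.ref k110 k9 [(z1,[z0,z1,z1]),(z1,
    [z2,y1,y1])],.ref k122 k8 [(z1,[z1]),(z1,[y1,z2,z2])],.ref k132 k5 [(z1,[z1,y2,y2]),(z1,[y1,z1,z2])],
    .ref k143 k2 [(z1,[y2,y1,z1]),(z1,[z1])],.ref k91 k0 [(z2,[y1,z1,z1]),(z1,[z1])],.ref k144 k9 [(z1,[z0,z1,z1]),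
    (z1,[y2,y1,z1])],.ref k145 k8 [(z1,[z2,z1,y1]),(z1,[y1,z0,z1])],.ref k92 k5 [(z2,[z1,y1,y1]),(z2,[y1,y1,z1])],
    .ref k146 k5 [(z1,[z1,y1,y1]),(z1,[y1,z0,z1])],.ref k93 k0 [(z2,[y1,z1,z1]),(z1,[z1])],.ref k67 k0 [(z1,[z1,z3]),
    (z1,[y2,y3,z3])],.ref k153 k4 [(z1,[y1,y1]),(z1,[z1])],.ref k154 k0 [(z1,[z1,z2]),(z1,[y1,y1,z1])],
    .ref k155 k2 [(z1,[z1]),(z1,[y1,y1,z1])],.contra [z1,z1],.ref k156 k5 [(z1,[y1,y1]),(z1,[z1])],.ref k89 k0 [(z1,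
    [z1,z3]),(z1,[y2,y3,z3])],.ref k153 k3 [(z1,[y1,y1]),(z1,[z0,z1,z1])],.ref k157 k6 [(z1,[y2,y1,z1]),(z1,[z1])],
    .ref k31 k0 [(z1,[z1,z3]),(z1,[y2,y3,z3])]],
    .base (.leafM k0 [k0,k1,k2,k3,k4] [(z1,[z1,z1])] []),
    .base (.leafM k2 [k0,k1,k2,k3,k4] [(z1,[z0,z1])] []),
    .base (.leafM k0 [k0,k1,k2,k3,k4] [(z1,[z1,z1])] []),
    .base (.leafM k0 [k0,k1,k2,k3,k4] [(z5,[z1,z1])] []),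
    .base (.spec k5 false k4 [(z1,[z0,z0,z1]),(z1,[z1,y1,y1,z1])]),
    .base (.leafM k0 [k2,k3,k4,k0,k1] [(z1,[y1,y1,z0,z1])] []),
    .base (.leafM k0 [k1,k2,k3,k4,k0] [(z1,[z0,z1,z1])] []),
    .base (.spec k6 false k3 [(z1,[z1,z0,z2]),(z1,[y1,z1,y1,z1])]),
    .base (.spec k5 false k0 [(z1,[y2,y1,y2,z2]),(z1,[z0,z0,z1])])]

theorem hB5_39_13 : blkB [0, 0, 0, 0, 0] [] sp5 hS5_39 (pcls (n := 5) [0, 0, 0, 0, 0]) hD5_39 186 13 hN5_39_13 = true := by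
  decide +kernel

/-- nodes 168 to 179 -/
noncomputable def hN5_39_14 : List HM :=
  [.lp k0 [(nat_lit 2902),(nat_lit 2632),(nat_lit 4530),(nat_lit 2852),(nat_lit 2902)] [(nat_lit 814),(nat_lit 814),
    (nat_lit 949),(nat_lit 949),k0,k0,(nat_lit 509),(nat_lit 1169),(nat_lit 814),(nat_lit 814)] k0 [[k0,(nat_lit 342),
    (nat_lit 888),k0,k0,k0,k0,(nat_lit 342),k0,k0],[k0,k0,k0,k0,k32,k50,k0,k0,k0,k0],[k0,k0,k0,k0,k0,k0,k0,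
    (nat_lit 960),(nat_lit 436),(nat_lit 414)],[k0,(nat_lit 888),(nat_lit 1434),k0,(nat_lit 424),k0,k0,k0,k0,k0],[k50,
    k0,k0,k0,k0,(nat_lit 928),(nat_lit 734),k0,k0,k0],[k32,k0,(nat_lit 424),k0,k0,k0,k82,k0,k132,k0],[k0,
    (nat_lit 342),k0,(nat_lit 960),k0,k0,k0,k0,(nat_lit 524),k0],[k0,k0,k0,k0,k82,(nat_lit 734),(nat_lit 342),k0,k0,
    k0],[k0,k0,k0,(nat_lit 414),k0,k0,k0,k0,k0,k0],[k0,k0,k0,(nat_lit 436),k132,k0,k0,(nat_lit 524),k0,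
    k0]] (nat_lit 10560) k6
    [[(k2,(nat_lit 2331)),(k7,(nat_lit 2415)),(k6,(nat_lit 2683)),(k3,(nat_lit 2767)),(k0,(nat_lit 2902)),(k1,
    (nat_lit 2902)),(k8,(nat_lit 2902)),(k9,(nat_lit 2902)),(k4,(nat_lit 3716)),(k5,(nat_lit 4130))],[(k0,
    (nat_lit 2560)),(k7,(nat_lit 2597)),(k2,(nat_lit 2767)),(k3,(nat_lit 2767)),(k5,(nat_lit 2828)),(k6,
    (nat_lit 2865)),(k1,(nat_lit 2902)),(k8,(nat_lit 2902)),(k9,(nat_lit 2902)),(k4,(nat_lit 3748))],[(k7,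
    (nat_lit 2380)),(k0,(nat_lit 2767)),(k1,(nat_lit 2767)),(k8,(nat_lit 2767)),(k3,(nat_lit 2974)),(k6,
    (nat_lit 3072)),(k9,(nat_lit 3109)),(k2,(nat_lit 3520)),(k4,(nat_lit 3531)),(k5,(nat_lit 3581))],[(k6,
    (nat_lit 2112)),(k1,(nat_lit 2331)),(k8,(nat_lit 2353)),(k7,(nat_lit 2412)),(k0,(nat_lit 2767)),(k9,
    (nat_lit 2767)),(k3,(nat_lit 3520)),(k5,(nat_lit 3581)),(k4,(nat_lit 4005)),(k2,(nat_lit 4066))],[(k0,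
    (nat_lit 2828)),(k7,(nat_lit 2937)),(k5,(nat_lit 3096)),(k2,(nat_lit 3581)),(k3,(nat_lit 3581)),(k6,
    (nat_lit 4021)),(k1,(nat_lit 4130)),(k8,(nat_lit 4152)),(k4,(nat_lit 4530)),(k9,(nat_lit 4676))],[(k9,
    (nat_lit 2982)),(k7,(nat_lit 3361)),(k3,(nat_lit 3531)),(k4,(nat_lit 3602)),(k1,(nat_lit 3716)),(k0,
    (nat_lit 3748)),(k8,(nat_lit 3848)),(k2,(nat_lit 4005)),(k6,(nat_lit 4103)),(k5,(nat_lit 4530))],[(k3,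
    (nat_lit 2380)),(k2,(nat_lit 2412)),(k1,(nat_lit 2415)),(k9,(nat_lit 2465)),(k8,(nat_lit 2547)),(k0,
    (nat_lit 2597)),(k5,(nat_lit 2937)),(k7,(nat_lit 3120)),(k4,(nat_lit 3361)),(k6,(nat_lit 3586))],[(k2,
    (nat_lit 2112)),(k1,(nat_lit 2683)),(k0,(nat_lit 2865)),(k3,(nat_lit 3072)),(k8,(nat_lit 3207)),(k9,
    (nat_lit 3207)),(k7,(nat_lit 3586)),(k6,(nat_lit 3854)),(k5,(nat_lit 4021)),(k4,(nat_lit 4103))],[(k7,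
    (nat_lit 2465)),(k9,(nat_lit 2560)),(k2,(nat_lit 2767)),(k0,(nat_lit 2902)),(k1,(nat_lit 2902)),(k4,
    (nat_lit 2982)),(k3,(nat_lit 3109)),(k6,(nat_lit 3207)),(k8,(nat_lit 3426)),(k5,(nat_lit 4676))],[(k2,
    (nat_lit 2353)),(k7,(nat_lit 2547)),(k3,(nat_lit 2767)),(k0,(nat_lit 2902)),(k1,(nat_lit 2902)),(k8,
    (nat_lit 2902)),(k6,(nat_lit 3207)),(k9,(nat_lit 3426)),(k4,(nat_lit 3848)),(k5,(nat_lit 4152))]]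
    [[k3,k0,k0,k0,k0],[k2,k1,k0,k0,k0],[k2,k1,k0,k1,k0],[k2,k0,k1,k0,k0],[k2,k0,k0,k1,k0],[k2,k0,k0,k0,k1],[k2,k2,k0,
    k0,k0],[k1,k2,k0,k0,k0],[k1,k2,k0,k1,k0],[k1,k1,k1,k0,k0],[k1,k1,k0,k1,k0],[k1,k1,k0,k0,k1],[k1,k1,k0,k1,k1],[k1,
    k0,k1,k1,k0],[k1,k0,k1,k0,k1],[k1,k1,k0,k2,k0],[k1,k0,k0,k2,k0],[k1,k0,k0,k1,k1],[k1,k0,k0,k0,k2],[k0,k2,k0,k1,
    k0],[k0,k2,k0,k0,k1],[k0,k2,k0,k2,k0],[k0,k2,k0,k1,k1],[k0,k2,k0,k0,k2],[k0,k1,k1,k1,k0],[k0,k1,k1,k0,k1],[k0,k1,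
    k0,k2,k0],[k0,k1,k0,k1,k1],[k0,k1,k0,k2,k1],[k0,k1,k0,k1,k2],[k0,k1,k0,k0,k2],[k0,k0,k2,k0,k1],[k0,k0,k1,k1,k1],
    [k0,k0,k1,k2,k0],[k0,k0,k0,k2,k1],[k0,k0,k0,k1,k2],[k0,k0,k0,k0,k3]]
    [.ref k3 k1 [(z4,[z1,y3]),(z1,[z1]),(z4,[y1,z3,z4])],.ref k105 k5 [(z1,[y1,z2,z1]),(z1,[z0,y1,y1,z1]),(z1,[z1,
    y2])],.ref k162 k9 [(z1,[z4,y3,y4]),(z1,[z1,y2,y1]),(z1,[y3,z6,z8])],.ref k3 k1 [(z2,[z1,y1,z1,y1]),(z1,[z2,z1,z2,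
    y2]),(z2,[y1,z1,z1,z1])],.ref k163 k0 [(z1,[z0,z1]),(z1,[y1,z2,z1]),(z1,[z0,y1,y1,z1])],.ref k3 k1 [(z3,[z1,y2]),
    (z3,[z4,z1]),(z3,[y1,z2,z3])],.ref k131 k0 [(z1,[z0,z1]),(z2,[z1,y2]),(z1,[z0,y1,y1,z1])],.ref k102 k0 [(z1,[z0,
    z1]),(z2,[z1,y1]),(z1,[z0,y1,y1,z1])],.ref k142 k0 [(z1,[z0,z1]),(z1,[z1,y1,y1]),(z1,[z0,y1,y1,z1])],
    .ref k102 k0 [(z1,[z0,z1]),(z1,[z1,z0,z1,y1]),(z1,[z0,y1,y1,z1])],.contra [z1,y1,y1],.ref k164 k0 [(z1,[z0,z1]),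
    (z1,[z1,y1]),(z1,[z0,y1,y1,z1])],.contra [y1,z0,z0,z1],.ref k142 k0 [(z1,[z0,z1]),(z1,[y1,z0,z0,z1]),(z1,[z0,y1,
    y1,z1])],.ref k3 k1 [(z1,[z1,z0,z1,y1]),(z1,[z4,z3,z4,y4]),(z1,[y1,z0,z0,z1])],.ref k102 k0 [(z1,[z0,z1]),(z1,[y1,
    z1,z2]),(z1,[z0,y1,y1,z1])],.ref k142 k0 [(z1,[z0,z1]),(z2,[y1,z1,z2]),(z1,[z0,y1,y1,z1])],.ref k165 k0 [(z1,[z0,
    z1]),(z1,[y1,z1,z1]),(z1,[z0,y1,y1,z1])],.ref k3 k1 [(z2,[z1,y1]),(z1,[z2,z1]),(z2,[y1,z1,z2])],.ref k166 k0 [(z1,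
    [z0,z1]),(z1,[z1,z0,y1]),(z1,[z0,y1,y1,z1])],.ref k163 k6 [(z1,[y2,y1,y1,z1]),(z1,[y3,z0,z1]),(z1,[z1])],
    .ref k3 k1 [(z2,[y1,z0,z2]),(z1,[y2,z3,z4]),(z2,[z1])],.ref k165 k0 [(z1,[z0,z1]),(z1,[z1,z0,y1]),(z1,[z0,y1,y1,
    z1])],.ref k142 k0 [(z1,[z0,z1]),(z2,[z1]),(z1,[z0,y1,y1,z1])],.ref k162 k9 [(z1,[y4,z1,z0,z4]),(z1,[y1,y1,z0,
    z1]),(z1,[z3,z3,z5,y3])],.ref k137 k0 [(z1,[z0,z1]),(z1,[z1,z1,z1,y1]),(z1,[z0,y1,y1,z1])],.ref k167 k0 [(z1,[z0,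
    z1]),(z1,[y1,z0,z2]),(z1,[z0,y1,y1,z1])],.contra [z1,y1,y2,z1],.ref k164 k0 [(z1,[z0,z1]),(z1,[y1,z0,z2]),(z1,[z0,
    y1,y1,z1])],.contra [y1,z0,z1],.ref k102 k0 [(z1,[z0,z1]),(z1,[z1]),(z1,[z0,y1,y1,z1])],.ref k3 k1 [(z1,[y1,y2,y2,
    z2]),(z1,[y4,y5,y8,z8]),(z1,[z1,z2,z3,y2])],.ref k131 k0 [(z1,[z0,z1]),(z1,[y1,y1,z0,z1]),(z1,[z0,y1,y1,z1])],
    .ref k131 k0 [(z1,[z0,z1]),(z2,[y1,y1,z1,z1]),(z1,[z0,y1,y1,z1])],.ref k140 k3 [(z1,[y2,y1,y1,z1]),(z1,[y3,z0,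
    z1]),(z1,[z4,z1])],.ref k142 k0 [(z1,[z0,z1]),(z1,[y1,z0,z1]),(z1,[z0,y1,y1,z1])],.ref k3 k1 [(z1,[z1]),(z1,[z4,
    z3]),(z1,[y1,z0,z1])]],
    .base (.leafM k2 [k4,k0,k1,k2,k3] [(z1,[z0,y1,z1])] []),
    .base (.spec k5 false k1 [(z1,[y1,y2,z2]),(z1,[z0,z1])]),
    .base (.leafM k0 [k2,k3,k4,k0,k1] [(z1,[y1,y1,z1])] []),
    .base (.leafM k2 [k1,k2,k3,k4,k0] [(z1,[y1,y1,z1])] []),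
    .base (.spec k6 false k4 [(z1,[z0,z1]),(z2,[z1,y1,z2])]),
    .base (.spec k7 false k4 [(z1,[z0,z1]),(z2,[y1,y1,z2])]),
    .base (.leafM k2 [k2,k3,k4,k0,k1] [(z5,[z0,y1,y1,z5])] []),
    .base (.leafM k2 [k1,k2,k3,k4,k0] [(z1,[z0,z0,z1])] []),
    .base (.leafM k0 [k0,k1,k2,k3,k4] [(z1,[z1,z1])] []),
    .base (.spec k1 false k4 [(z1,[z0,z2,z1]),(z1,[z1,y1,y1,z1])]),
    .base (.spec k2 false k3 [(z1,[z1,z0,z1]),(z2,[y2,y1,y1,z2])])]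

theorem hB5_39_14 : blkB [0, 0, 0, 0, 0] [] sp5 hS5_39 (pcls (n := 5) [0, 0, 0, 0, 0]) hD5_39 186 14 hN5_39_14 = true := by
  decide +kernel

/-- nodes 180 to 185 -/
noncomputable def hN5_39_15 : List HM :=
  [.lp k0 [k60,k90,k80,k68,k60] [k15,k15,k0,k0,k5,k5,k11,k11,k15,k15] k0 [[k0,k0,k0,k0,k0,k14,k0,k0,k0,k0],[k0,k0,k0,
    k0,k0,k0,k0,k0,k0,k0],[k0,k0,k0,k0,k0,k0,k0,k0,k0,k0],[k0,k0,k0,k0,k0,k0,k14,k0,k0,k0],[k0,k14,k0,k0,k0,k0,k14,k0,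
    k8,k0],[k0,k0,k0,k0,k0,k0,k0,k0,k0,k0],[k0,k0,k0,k0,k0,k0,k0,k0,k8,k0],[k0,k0,k14,k0,k0,k14,k0,k0,k0,k0],[k0,k0,
    k0,k0,k0,k0,k0,k0,k0,k0],[k0,k0,k0,k0,k0,k8,k0,k8,k0,k0]] (nat_lit 240) k6
    [[(k6,k56),(k0,k60),(k1,k60),(k8,k60),(k9,k60),(k4,k62),(k7,k64),(k5,k70),(k2,k75),(k3,k75)],[(k4,k56),(k0,k60),
    (k1,k60),(k8,k60),(k9,k60),(k6,k64),(k7,k64),(k5,k70),(k2,k75),(k3,k75)],[(k0,k75),(k1,k75),(k8,k75),(k9,k75),(k6,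
    k79),(k4,k85),(k5,k85),(k2,k90),(k3,k90),(k7,k93)],[(k0,k75),(k1,k75),(k8,k75),(k9,k75),(k7,k79),(k4,k85),(k5,
    k85),(k2,k90),(k3,k90),(k6,k93)],[(k9,k56),(k0,k70),(k1,k70),(k8,k70),(k6,k74),(k7,k74),(k4,k80),(k5,k80),(k2,
    k85),(k3,k85)],[(k0,k56),(k9,k56),(k1,k62),(k8,k70),(k6,k74),(k7,k74),(k4,k80),(k5,k80),(k2,k85),(k3,k85)],[(k0,
    k64),(k1,k64),(k9,k64),(k7,k68),(k8,k72),(k4,k74),(k5,k74),(k2,k79),(k6,k82),(k3,k93)],[(k1,k56),(k0,k64),(k8,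
    k64),(k9,k64),(k6,k68),(k4,k74),(k5,k74),(k3,k79),(k7,k82),(k2,k93)],[(k4,k56),(k5,k56),(k0,k60),(k1,k60),(k9,
    k60),(k6,k64),(k7,k64),(k8,k68),(k2,k75),(k3,k75)],[(k0,k60),(k1,k60),(k8,k60),(k6,k64),(k9,k68),(k4,k70),(k5,
    k70),(k7,k72),(k2,k75),(k3,k75)]]
    [[k3,k0,k0,k0,k0],[k2,k1,k0,k0,k0],[k2,k0,k1,k0,k0],[k2,k0,k1,k0,k1],[k2,k0,k0,k1,k0],[k2,k0,k0,k0,k1],[k1,k1,k1,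
    k0,k0],[k1,k1,k0,k1,k0],[k1,k1,k0,k0,k1],[k1,k0,k2,k0,k0],[k1,k0,k1,k1,k0],[k1,k0,k1,k0,k1],[k1,k0,k1,k0,k2],[k1,
    k0,k0,k2,k0],[k1,k0,k0,k1,k1],[k1,k0,k0,k0,k2],[k0,k1,k1,k1,k0],[k0,k1,k1,k0,k1],[k0,k1,k0,k1,k1],[k0,k1,k0,k0,
    k2],[k0,k0,k2,k1,k0],[k0,k0,k2,k0,k1],[k0,k0,k1,k2,k0],[k0,k0,k1,k1,k1],[k0,k0,k1,k0,k2],[k0,k0,k0,k3,k0],[k0,k0,
    k0,k2,k1],[k0,k0,k0,k1,k2],[k0,k0,k0,k0,k3]]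
    [.ref k3 k0 [(z1,[z1]),(z2,[y1,z3,z6]),(z4,[y1,y1,y4,z4])],.ref k3 k0 [(z1,[z2,y1,y2]),(z1,[y1,z2,z4]),(z2,[y1,z0,
    y1,z2])],.ref k133 k1 [(z1,[y1,z1,y1,z1]),(z1,[z0,z1]),(z1,[z0,z0,z1])],.ref k175 k0 [(z1,[z4,z1,z4,y4]),(z1,[y2,
    z2,z3,z2]),(z1,[y3,y2,y8,z8])],.ref k3 k0 [(z3,[z4,z1]),(z3,[y2,z4,z9]),(z3,[y1,y1,y3,z3])],.ref k117 k3 [(z1,[y1,
    z1,y1,z1]),(z1,[z0,z0,z1]),(z1,[z0,z1])],.ref k124 k6 [(z1,[z1,y1,y2]),(z1,[z0,z0,z1]),(z1,[y2,z0,y1,z2])],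
    .ref k3 k0 [(z1,[z4,y1,y4]),(z1,[y2,z2,z5]),(z1,[y1,z0,z0,z1])],.ref k114 k8 [(z1,[z2,z0,z1,y2]),(z1,[y4,z1,z0,
    z4]),(z1,[z3,y1,y1,y2])],.ref k124 k6 [(z2,[z1,y1,y2]),(z1,[z0,z0,z1]),(z1,[y1,y1,y3,z2])],.ref k176 k6 [(z1,[z2,
    y2,y5]),(z1,[z0,z0,z1]),(z1,[y1,z0,z0,z1])],.contra [z1,z0,z1,y1],.ref k124 k6 [(z1,[y1,y1,y3,z2]),(z1,[z0,z0,
    z1]),(z1,[z2,z0,z1,y2])],.ref k3 k0 [(z1,[z2,z1]),(z1,[y1,z1,z3]),(z2,[y1,y1,y2,z2])],.ref k177 k3 [(z1,[y1,z0,y1,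
    z1]),(z1,[z0,z0,z1]),(z1,[z0,z1])],.ref k114 k8 [(z1,[z1,z1,z3,y2]),(z1,[y2,y1,y4,z4]),(z2,[z3,z1,z4,y4])],
    .ref k111 k3 [(z1,[z1,z0,y1]),(z1,[z0,z0,z1]),(z1,[z0,z1])],.ref k175 k0 [(z1,[y4,z1,z0,z4]),(z1,[z2,z2,z5,y2]),
    (z1,[z3,y2,y5,z2])],.ref k96 k0 [(z1,[y4,z1,z4]),(z1,[z2,z0,y1]),(z1,[z3,y1,y4,z1])],.ref k96 k0 [(z1,[y2,z1,z2]),
    (z1,[z1]),(z2,[z3,y2,y5,z2])],.ref k135 k8 [(z1,[y2,z0,z1]),(z1,[z4,z1]),(z1,[y3,y1,y1,z1])],.ref k178 k3 [(z1,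
    [z1,z1,z1,y1]),(z1,[z0,z0,z1]),(z1,[z0,z1])],.ref k124 k6 [(z1,[z1,z0,y1]),(z1,[z0,z0,z1]),(z1,[y2,y2,y3,z2])],
    .contra [z1,z1,z2,y1],.ref k179 k6 [(z1,[y1,y2,y5,z2]),(z1,[z0,z0,z1]),(z1,[z2,z2,z5,y2])],.ref k3 k0 [(z1,[z4,
    z3]),(z1,[y2,z0,z3]),(z1,[y1,y1,y1,z1])],.ref k114 k8 [(z1,[z2,z2,z3,y2]),(z1,[y4,y3,y4,z4]),(z1,[z3,z2,z2,y2])],
    .ref k123 k6 [(z1,[y2,y4,y9,z4]),(z1,[z0,z0,z1]),(z1,[z2,z0,y1])],.ref k43 k0 [(z1,[z0,z1]),(z1,[z0,z0,z1]),(z1,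
    [y1,y3,y3,z3])]],
    .base (.leafM k0 [k2,k3,k4,k0,k1] [(z1,[y1,y1,z1])] []),
    .lp k0 [k184,k134,k120,k152,k128] [k0,k0,k25,k25,k32,k32,k16,k16,k28,k28] k0 [[k0,k28,k50,k0,k0,k0,k0,k0,k0,k28],
    [k0,k0,k0,k0,k42,k0,k0,k12,k0,k14],[k0,k0,k0,k0,k0,k0,k0,k0,k0,k0],[k0,k50,k0,k0,k0,k0,k0,k0,k8,k0],[k0,k0,k0,k0,
    k0,k0,k8,k0,k0,k0],[k42,k0,k0,k0,k0,k0,k0,k0,k0,k28],[k12,k0,k0,k0,k0,k0,k0,k0,k0,k12],[k0,k0,k0,k0,k0,k8,k16,k0,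
    k0,k0],[k14,k28,k0,k0,k28,k0,k0,k12,k0,k0],[k0,k0,k8,k0,k0,k0,k0,k0,k0,k0]] (nat_lit 480) k6
    [[(k5,k144),(k8,k156),(k2,k159),(k6,k168),(k7,k168),(k9,k168),(k4,k180),(k1,k184),(k3,k187),(k0,k198)],[(k5,k102),
    (k8,k128),(k0,k156),(k2,k159),(k3,k159),(k6,k168),(k7,k168),(k9,k168),(k4,k194),(k1,k198)],[(k7,k101),(k8,k117),
    (k4,k127),(k5,k127),(k6,k131),(k9,k131),(k0,k159),(k3,k162),(k2,k184),(k1,k187)],[(k4,k127),(k5,k127),(k9,k131),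
    (k2,k134),(k8,k139),(k6,k143),(k7,k143),(k0,k159),(k1,k159),(k3,k184)],[(k0,k102),(k4,k120),(k5,k120),(k8,k124),
    (k9,k124),(k2,k127),(k3,k127),(k6,k136),(k7,k136),(k1,k144)],[(k9,k116),(k4,k120),(k5,k120),(k8,k124),(k2,k127),
    (k3,k127),(k6,k136),(k7,k136),(k1,k180),(k0,k194)],[(k3,k101),(k8,k112),(k4,k136),(k5,k136),(k9,k140),(k2,k143),
    (k7,k152),(k6,k160),(k0,k168),(k1,k168)],[(k8,k128),(k3,k131),(k4,k136),(k5,k136),(k9,k140),(k2,k143),(k7,k160),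
    (k0,k168),(k1,k168),(k6,k168)],[(k9,k112),(k4,k116),(k5,k124),(k8,k128),(k2,k131),(k3,k131),(k6,k140),(k7,k140),
    (k0,k168),(k1,k168)],[(k7,k112),(k3,k117),(k4,k124),(k5,k124),(k0,k128),(k6,k128),(k8,k128),(k9,k128),(k2,k139),
    (k1,k156)]]
    [[k1,k1,k1,k0,k0],[k1,k1,k0,k1,k0],[k1,k1,k0,k0,k1],[k1,k0,k2,k0,k0],[k1,k0,k1,k0,k1],[k1,k0,k1,k1,k0],[k1,k0,k0,
    k1,k1],[k1,k0,k0,k0,k2],[k0,k2,k1,k0,k0],[k0,k2,k0,k1,k0],[k0,k2,k0,k0,k1],[k0,k1,k2,k0,k0],[k0,k1,k1,k1,k0],[k0,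
    k1,k1,k0,k1],[k0,k1,k0,k2,k0],[k0,k1,k0,k1,k1],[k0,k1,k1,k1,k1],[k0,k1,k0,k0,k2],[k0,k0,k3,k0,k0],[k0,k0,k2,k1,
    k0],[k0,k0,k2,k0,k1],[k0,k0,k1,k2,k0],[k0,k0,k1,k1,k1],[k0,k0,k1,k0,k2],[k0,k0,k0,k2,k1],[k0,k0,k0,k1,k2],[k0,k0,
    k0,k0,k3]]
    [.ref k159 k2 [(z1,[y2,z1]),(z1,[z1,y1,z1])],.ref k160 k7 [(z1,[z1,y1]),(z1,[y1,z0,z1])],.ref k161 k6 [(z1,[y1,y1,
    z1]),(z1,[z0,z1])],.ref k168 k2 [(z1,[y2,z1]),(z1,[z1,y1,z1])],.ref k169 k7 [(z1,[y1,y1,z1]),(z1,[z1])],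
    .ref k92 k9 [(z1,[y1,z1]),(z1,[y1,z0,z1])],.ref k93 k4 [(z1,[z1,y1]),(z1,[z0,z1])],.ref k143 k6 [(z1,[y1,y2,z2]),
    (z1,[z0,z1])],.ref k156 k4 [(z1,[y1,y1,z1]),(z1,[z0,z1])],.ref k160 k7 [(z2,[z1,y1]),(z2,[y1,y1,z2])],
    .ref k170 k2 [(z1,[y2,y1,z2]),(z1,[z1])],.ref k154 k3 [(z1,[z2,z1,y2]),(z1,[y1,y1,z2])],.ref k171 k6 [(z1,[z1,
    y1]),(z1,[z0,z1])],.contra [z1,z1,y1],.ref k168 k7 [(z1,[z1,y2]),(z1,[y1,z1,z1])],.ref k172 k2 [(z1,[z2,z1,y2]),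
    (z1,[y1,y1,z2])],.contra [y1,z0,z1],.ref k173 k1 [(z1,[z2,z1,y2]),(z1,[z0,z1])],.ref k81 k3 [(z1,[z1]),(z1,[y2,y3,
    z6])],.ref k92 k9 [(z2,[y1,z1]),(z2,[y1,y1,z2])],.ref k174 k7 [(z1,[y1,y2,z2]),(z1,[z1])],.ref k180 k6 [(z1,[z1,
    y2]),(z1,[z0,z1])],.ref k181 k2 [(z1,[z2,z1,y2]),(z1,[y1,y1,z2])],.ref k170 k6 [(z1,[y1,y2,z2]),(z1,[z0,z1])],
    .ref k107 k8 [(z1,[y2,y1,z2]),(z1,[z0,z1])],.ref k93 k4 [(z2,[z1,y1]),(z1,[z0,z1])],.ref k55 k9 [(z1,[z1,z3,y3]),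
    (z1,[z1])]],
    .base (.leafM k0 [k4,k0,k1,k2,k3] [(z1,[z1])] []),
    .base (.leafM k2 [k2,k3,k4,k0,k1] [(z1,[z1])] []),
    .lp k0 [k120,k142,k176,k128,k152] [k28,k28,k17,k17,k0,k0,k24,k24,k12,k12] k0 [[k0,k0,k42,k8,k0,k8,k0,k0,k0,k0],
    [k0,k0,k0,k0,k0,k0,k0,k0,k0,k0],[k0,k8,k0,k0,k22,k0,k20,k0,k0,k50],[k0,k42,k12,k0,k20,k0,k0,k0,k0,k0],[k0,k8,k0,
    k0,k0,k0,k0,k0,k0,k0],[k0,k0,k20,k22,k0,k0,k12,k0,k0,k28],[k0,k0,k0,k0,k0,k0,k0,k16,k8,k0],[k0,k0,k0,k20,k12,k0,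
    k0,k0,k0,k0],[k0,k0,k0,k50,k28,k0,k0,k0,k0,k0],[k0,k0,k0,k0,k0,k0,k0,k8,k0,k0]] (nat_lit 480) k6
    [[(k6,k116),(k0,k120),(k1,k120),(k7,k124),(k2,k131),(k3,k131),(k8,k136),(k9,k136),(k4,k176),(k5,k198)],[(k5,k106),
    (k0,k120),(k1,k120),(k2,k123),(k6,k124),(k7,k124),(k3,k131),(k8,k136),(k9,k136),(k4,k140)],[(k0,k131),(k1,k131),
    (k6,k135),(k3,k142),(k7,k143),(k8,k147),(k9,k147),(k4,k159),(k5,k167),(k2,k184)],[(k8,k97),(k7,k113),(k0,k123),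
    (k9,k127),(k1,k131),(k6,k135),(k2,k154),(k5,k159),(k4,k179),(k3,k184)],[(k0,k106),(k7,k132),(k2,k159),(k5,k164),
    (k8,k164),(k9,k164),(k3,k167),(k6,k172),(k1,k198),(k4,k198)],[(k0,k140),(k7,k152),(k3,k159),(k6,k164),(k8,k164),
    (k9,k164),(k1,k176),(k4,k176),(k2,k179),(k5,k198)],[(k8,k112),(k2,k113),(k0,k124),(k1,k124),(k6,k128),(k7,k128),
    (k9,k128),(k5,k132),(k3,k143),(k4,k152)],[(k6,k112),(k1,k116),(k0,k124),(k7,k128),(k2,k135),(k3,k135),(k8,k140),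
    (k9,k140),(k4,k164),(k5,k172)],[(k2,k127),(k7,k128),(k0,k136),(k1,k136),(k6,k140),(k3,k147),(k8,k160),(k4,k164),
    (k5,k164),(k9,k168)],[(k2,k97),(k7,k112),(k0,k136),(k1,k136),(k6,k140),(k3,k147),(k8,k152),(k9,k160),(k4,k164),
    (k5,k164)]]
    [[k3,k0,k0,k0,k0],[k2,k1,k0,k0,k0],[k2,k0,k1,k0,k0],[k2,k0,k0,k1,k0],[k2,k0,k0,k0,k1],[k1,k2,k0,k0,k0],[k1,k1,k1,
    k0,k0],[k1,k1,k0,k1,k0],[k1,k1,k0,k0,k1],[k1,k0,k1,k1,k0],[k1,k0,k1,k0,k1],[k1,k0,k0,k2,k0],[k1,k0,k0,k1,k1],[k1,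
    k1,k0,k1,k1],[k1,k0,k0,k0,k2],[k0,k2,k0,k1,k0],[k0,k2,k0,k0,k1],[k0,k1,k1,k1,k0],[k0,k1,k1,k0,k1],[k0,k1,k0,k2,
    k0],[k0,k1,k0,k1,k1],[k0,k1,k0,k0,k2],[k0,k0,k1,k2,k0],[k0,k0,k1,k1,k1],[k0,k0,k0,k3,k0],[k0,k0,k0,k2,k1],[k0,k0,
    k0,k1,k2]]
    [.ref k90 k0 [(z1,[z1])],.ref k158 k0 [(z1,[z1,y1])],.ref k182 k9 [(z1,[z1])],.ref k182 k0 [(z1,[z1])],
    .ref k158 k9 [(z1,[z1,y1])],.ref k158 k8 [(z1,[z1,y1])],.ref k183 k1 [(z1,[y1,z1])],.ref k184 k1 [(z1,[y1,z1])],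
    .ref k183 k2 [(z1,[y1,z1])],.ref k184 k7 [(z1,[y1,z1])],.ref k184 k2 [(z1,[y1,z1])],.ref k182 k5 [(z1,[z1])],
    .ref k183 k6 [(z1,[y1,z1])],.contra [y1,z1],.ref k158 k1 [(z1,[z1,y1])],.ref k182 k8 [(z1,[z1])],
    .ref k182 k7 [(z1,[z1])],.ref k183 k0 [(z1,[y1,z1])],.ref k184 k0 [(z1,[y1,z1])],.ref k182 k2 [(z1,[z1])],
    .ref k184 k6 [(z1,[y1,z1])],.ref k182 k4 [(z1,[z1])],.ref k158 k5 [(z1,[z1,y1])],.ref k183 k7 [(z1,[y1,z1])],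
    .ref k90 k2 [(z1,[z1])],.ref k158 k2 [(z1,[z1,y1])],.ref k158 k4 [(z1,[z1,y1])]]]

theorem hB5_39_15 : blkB [0, 0, 0, 0, 0] [] sp5 hS5_39 (pcls (n := 5) [0, 0, 0, 0, 0]) hD5_39 186 15 hN5_39_15 = true := by
  decide +kernel

end Pool.Agent.Lib_MP_fa6e45
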