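import Pool.Agent.Lib_MP_fa6e45.HK

/-!
MP_fa6e45_co, stage 4: certificates (captain, generated by a program).
-/

namespace Pool.Agent.Lib_MP_fa6e45

/-- nodes 0 to 11 -/
noncomputable def hN6_90_0 : List HM :=
  [.base (.leafM k0 [k0,k1,k2,k3,k4,k5] [(z1,[y1,z1])] []),
    .base (.leafM k3 [k2,k3,k4,k5,k0,k1] [(z1,[z1])] []),
    .base (.leafM k3 [k0,k1,k2,k3,k4,k5] [(z1,[y1,z0,y1,z1])] []),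
    .base (.leafM k3 [k2,k3,k4,k5,k0,k1] [(z1,[z0,y1,y1,z1])] []),
    .base (.leafM k0 [k0,k1,k2,k3,k4,k5] [(z1,[y1,z0,z0,z1])] []),
    .base (.leafM k0 [k0,k1,k2,k3,k4,k5] [(z3,[z0,z1,z1,z1])] []),
    .lp k0 [k76,k78,k80,k80,k82,k80] [k3,k3,k2,k2,k1,k1,k1,k1,k0,k0,k1,k1] k0 [[k0,k4,k8,k14,k0,k0,k0,k0,k12,k0,k0,
    k0],[k0,k0,k0,k0,k16,k4,k4,k6,k0,k0,k0,k0],[k0,k14,k0,k6,k6,k0,k0,k0,k0,k0,k0,k0],[k0,k8,k0,k0,k0,k0,k0,k0,k2,k2,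
    k0,k0],[k4,k0,k0,k0,k0,k0,k0,k0,k0,k0,k0,k0],[k16,k0,k0,k6,k0,k0,k0,k0,k0,k2,k0,k0],[k6,k0,k0,k0,k0,k0,k0,k0,k0,
    k2,k0,k0],[k4,k0,k0,k0,k0,k0,k0,k0,k0,k0,k0,k0],[k0,k0,k2,k0,k2,k0,k0,k2,k0,k0,k0,k0],[k0,k12,k2,k0,k0,k0,k0,k0,
    k2,k0,k0,k0],[k0,k0,k0,k0,k0,k0,k0,k0,k0,k0,k0,k0],[k0,k0,k0,k0,k0,k0,k0,k0,k0,k0,k0,k0]] (nat_lit 240) k5
    [[(k1,k76),(k10,k78)],[(k2,k63),(k11,k66),(k5,k70),(k0,k72),(k3,k77),(k8,k79),(k6,k82),(k7,k82),(k9,k85),(k4,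
    k94)],[(k7,k63),(k6,k73),(k4,k75),(k9,k76),(k0,k77),(k11,k79),(k3,k82),(k2,k86),(k8,k92),(k5,k93)],[(k0,k63),(k2,
    k72),(k7,k73),(k4,k79),(k5,k79),(k6,k79),(k9,k80),(k11,k81),(k8,k82),(k3,k86)],[(k0,k70),(k11,k78),(k2,k79),(k8,
    k79),(k6,k80),(k7,k80),(k9,k81),(k4,k86),(k5,k86),(k3,k93)],[(k3,k75),(k2,k79),(k4,k80),(k6,k80),(k7,k80),(k8,
    k81),(k9,k81),(k11,k82),(k5,k86),(k0,k94)],[(k3,k63),(k2,k73),(k8,k79),(k4,k80),(k5,k80),(k6,k80),(k7,k80),(k11,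
    k80),(k9,k81),(k0,k82)],[(k3,k73),(k2,k79),(k8,k79),(k4,k80),(k5,k80),(k6,k80),(k7,k80),(k11,k80),(k9,k81),(k0,
    k82)],[(k3,k76),(k2,k80),(k4,k81),(k5,k81),(k6,k81),(k7,k81),(k8,k82),(k9,k82),(k11,k83),(k0,k85)],[(k0,k79),(k5,
    k79),(k6,k79),(k7,k79),(k4,k81),(k11,k81),(k2,k82),(k9,k82),(k8,k84),(k3,k92)],[(k0,k66),(k5,k78),(k11,k78),(k3,
    k79),(k6,k80),(k7,k80),(k2,k81),(k8,k81),(k4,k82),(k9,k83)],[(k1,k78),(k10,k80)]]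
    [[k2,k1,k0,k0,k0,k0],[k1,k1,k0,k0,k0,k1],[k1,k0,k1,k0,k0,k1],[k0,k2,k0,k1,k0,k0],[k0,k1,k1,k1,k0,k0],[k0,k1,k1,k0,
    k1,k0],[k0,k1,k0,k2,k0,k0],[k0,k1,k0,k1,k1,k0]]
    [.ref k5 k0 [(z1,[z3,y1,y3]),(z1,[y3,z2,z6]),(z2,[z3,y2,y3,z6]),(z1,[z0,z0,z0,z0,z1]),(z1,[y3,z1,z0,y3,y1,z3])],
    .ref k5 k0 [(z1,[z6,y1,y6]),(z1,[y6,z2,z9]),(z1,[z3,y1,y3,z3]),(z1,[z0,z0,z0,z0,z1]),(z1,[y6,z1,z3,y3,y1,z3])],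
    .ref k5 k0 [(z2,[z3,z1,z0,y3]),(z2,[y3,z1,z6,z3]),(z4,[z3,y1,z0,z9]),(z1,[z0,z0,z0,z0,z1]),(z2,[y3,y1,y6,y3,y2,
    z6])],.ref k5 k0 [(z2,[y3,z2,z6,z0,z1]),(z2,[z3,z0,z0,z0,y1]),(z4,[y3,z0,z6,z12,z1]),(z1,[z0,z0,z0,z0,z1]),(z2,
    [z3,y2,y12,y6,y3,z6])],.ref k5 k0 [(z1,[y6,z1,z6,z6,z2]),(z1,[z6,z0,y3,y6,y2]),(z1,[y3,z0,z3,z6,z1]),(z1,[z0,z0,
    z0,z0,z1]),(z1,[z6,y1,y9,y9,y3,z3])],.ref k5 k0 [(z3,[y6,z1,z0,z0,y2,z6]),(z3,[z6,z2,z9,z0,z2,y6]),(z3,[y3,y1,z0,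
    z9,y1,z3]),(z1,[z0,z0,z0,z0,z1]),(z3,[z6,y1,y9,y9,y1,z3])],.ref k5 k0 [(z1,[y3,z1,z3,z0,z2]),(z1,[z3,z0,z0,z0,
    y2]),(z2,[y3,z0,z3,z6,z2]),(z1,[z0,z0,z0,z0,z1]),(z1,[z3,y1,y6,y3,y3,z3])],.ref k5 k0 [(z2,[y3,z1,z0,y3,z0,z3]),
    (z2,[z3,z1,z6,z3,z0,y3]),(z4,[y3,y1,z0,z9,z0,z3]),(z1,[z0,z0,z0,z0,z1]),(z2,[z3,y1,y6,y3,y2,z3])]],
    .base (.leafM k0 [k0,k1,k2,k3,k4,k5] [(z3,[z0,z1,z3,z1])] []),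
    .base (.leafM k3 [k0,k1,k2,k3,k4,k5] [(z3,[y1,z0,y1,z0,z3])] []),
    .base (.leafM k0 [k0,k1,k2,k3,k4,k5] [(z3,[z0,z1,z1,z1])] []),
    .base (.leafM k3 [k2,k3,k4,k5,k0,k1] [(z2,[z1,z0,z0,z1])] []),
    .lp k0 [(nat_lit 310),(nat_lit 292),(nat_lit 322),(nat_lit 332),(nat_lit 328),(nat_lit 332)] [k11,k11,k20,k20,k5,
    k5,k0,k0,k2,k2,k0,k0] k0 [[k0,k0,k0,k0,k0,k0,k10,k26,k54,k10,k0,k0],[k0,k0,k48,k16,k2,k34,k0,k0,k0,k0,k0,k0],[k16,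
    k0,k0,k0,k6,k0,k0,k0,k6,k0,k0,k0],[k48,k0,k0,k0,k0,k0,k6,k10,k38,k0,k0,k0],[k34,k0,k0,k0,k0,k0,k0,k0,k0,k12,k0,
    k0],[k2,k0,k0,k6,k0,k0,k0,k0,k0,k12,k0,k0],[k0,k26,k10,k0,k0,k0,k0,k0,k0,k0,k0,k0],[k0,k10,k6,k0,k0,k0,k12,k0,k0,
    k0,k0,k0],[k0,k10,k0,k0,k12,k12,k0,k0,k0,k0,k0,k0],[k0,k54,k38,k6,k0,k0,k0,k0,k0,k0,k0,k0],[k0,k0,k0,k0,k0,k0,k0,
    k0,k0,k0,k0,k0],[k0,k0,k0,k0,k0,k0,k0,k0,k0,k0,k0,k0]] (nat_lit 960) k5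
    [[(k1,(nat_lit 310)),(k10,(nat_lit 321))],[(k11,(nat_lit 267)),(k6,(nat_lit 295)),(k3,(nat_lit 301)),(k8,
    (nat_lit 309)),(k9,(nat_lit 309)),(k0,(nat_lit 310)),(k4,(nat_lit 318)),(k5,(nat_lit 332)),(k2,(nat_lit 349)),(k7,
    (nat_lit 355))],[(k5,(nat_lit 259)),(k4,(nat_lit 273)),(k2,(nat_lit 276)),(k3,(nat_lit 292)),(k0,(nat_lit 301)),
    (k7,(nat_lit 310)),(k6,(nat_lit 322)),(k11,(nat_lit 322)),(k9,(nat_lit 336)),(k8,(nat_lit 364))],[(k3,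
    (nat_lit 276)),(k2,(nat_lit 292)),(k7,(nat_lit 306)),(k11,(nat_lit 306)),(k4,(nat_lit 307)),(k5,(nat_lit 307)),
    (k6,(nat_lit 318)),(k9,(nat_lit 320)),(k8,(nat_lit 348)),(k0,(nat_lit 349))],[(k3,(nat_lit 259)),(k11,
    (nat_lit 289)),(k2,(nat_lit 307)),(k6,(nat_lit 317)),(k9,(nat_lit 319)),(k5,(nat_lit 322)),(k7,(nat_lit 327)),(k4,
    (nat_lit 328)),(k8,(nat_lit 331)),(k0,(nat_lit 332))],[(k3,(nat_lit 273)),(k2,(nat_lit 307)),(k8,(nat_lit 313)),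
    (k0,(nat_lit 318)),(k4,(nat_lit 322)),(k9,(nat_lit 325)),(k6,(nat_lit 327)),(k7,(nat_lit 327)),(k5,(nat_lit 328)),
    (k11,(nat_lit 339))],[(k2,(nat_lit 306)),(k3,(nat_lit 310)),(k8,(nat_lit 318)),(k4,(nat_lit 327)),(k5,
    (nat_lit 327)),(k9,(nat_lit 330)),(k6,(nat_lit 332)),(k7,(nat_lit 332)),(k11,(nat_lit 344)),(k0,(nat_lit 355))],
    [(k0,(nat_lit 295)),(k5,(nat_lit 317)),(k2,(nat_lit 318)),(k3,(nat_lit 322)),(k4,(nat_lit 327)),(k8,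
    (nat_lit 330)),(k9,(nat_lit 330)),(k7,(nat_lit 332)),(k11,(nat_lit 332)),(k6,(nat_lit 344))],[(k0,(nat_lit 309)),
    (k9,(nat_lit 316)),(k5,(nat_lit 319)),(k2,(nat_lit 320)),(k4,(nat_lit 325)),(k8,(nat_lit 328)),(k6,(nat_lit 330)),
    (k7,(nat_lit 330)),(k11,(nat_lit 330)),(k3,(nat_lit 336))],[(k0,(nat_lit 309)),(k4,(nat_lit 313)),(k7,
    (nat_lit 318)),(k8,(nat_lit 328)),(k9,(nat_lit 328)),(k6,(nat_lit 330)),(k11,(nat_lit 330)),(k5,(nat_lit 331)),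
    (k2,(nat_lit 348)),(k3,(nat_lit 364))],[(k0,(nat_lit 267)),(k5,(nat_lit 289)),(k2,(nat_lit 306)),(k3,
    (nat_lit 322)),(k8,(nat_lit 330)),(k9,(nat_lit 330)),(k6,(nat_lit 332)),(k11,(nat_lit 332)),(k4,(nat_lit 339)),
    (k7,(nat_lit 344))],[(k1,(nat_lit 321)),(k10,(nat_lit 332))]]
    [[k2,k0,k0,k0,k1,k0],[k1,k1,k0,k0,k0,k1],[k1,k0,k1,k0,k0,k1],[k0,k3,k0,k0,k0,k0],[k0,k2,k1,k0,k0,k0],[k0,k2,k0,k1,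
    k0,k0],[k0,k1,k2,k0,k0,k0],[k0,k1,k1,k1,k0,k0],[k0,k1,k1,k0,k1,k0]]
    [.ref k5 k0 [(z2,[z3,z0,z0,z0,y1]),(z1,[y3,z6,z3,z0,z1]),(z1,[z0,z0,z0,z1]),(z2,[z3,y6,z0,z0,y1]),(z1,[z0,z0,z0,
    z0,z1])],.ref k5 k0 [(z1,[y3,z3,z0,y1,y1,z3]),(z1,[z6,z0,z3,z2,z2,y6]),(z1,[z0,z0,z0,z1]),(z1,[y3,z0,z0,y1,y1,
    z3]),(z1,[z0,z0,z0,z0,z1])],.ref k5 k0 [(z1,[z3,z3,z3,z0,z1,y3]),(z1,[y6,z0,y3,z0,y2,z6]),(z1,[z0,z0,z0,z1]),(z1,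
    [z3,z0,z3,z0,z1,y3]),(z1,[z0,z0,z0,z0,z1])],.ref k5 k0 [(z2,[y1,z6,z3]),(z1,[z1]),(z1,[z0,z0,z0,z1]),(z2,[y1,z0,
    z3]),(z1,[z0,z0,z0,z0,z1])],.ref k5 k0 [(z4,[y3,z12,z6,z1]),(z2,[z3,z0,z0,y1]),(z1,[z0,z0,z0,z1]),(z4,[y3,z0,z6,
    z1]),(z1,[z0,z0,z0,z0,z1])],.ref k5 k0 [(z1,[y1,z3,z2]),(z1,[z2,z0,y1]),(z1,[z0,z0,z0,z1]),(z1,[y1,z0,z2]),(z1,
    [z0,z0,z0,z0,z1])],.ref k5 k0 [(z2,[y3,z6,z3,z2]),(z1,[z3,z0,z0,y2]),(z1,[z0,z0,z0,z1]),(z2,[y3,z0,z3,z2]),(z1,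
    [z0,z0,z0,z0,z1])],.ref k5 k0 [(z1,[y3,z3,z3,z1]),(z1,[z6,z0,y3,y2]),(z1,[z0,z0,z0,z1]),(z1,[y3,z0,z3,z1]),(z1,
    [z0,z0,z0,z0,z1])],.ref k5 k0 [(z2,[y3,z6,z3,z1,z1]),(z1,[z3,z0,z0,y1,y1]),(z1,[z0,z0,z0,z1]),(z2,[y3,z0,z3,z1,
    z1]),(z1,[z0,z0,z0,z0,z1])]]]

theorem hB6_90_0 : blkB [0, 0, 0, 0, 0, 1] [] sp6 hS6_90 (pcls (n := 6) [0, 0, 0, 0, 0, 1]) hD6_90 143 0 hN6_90_0 = true := by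
  decide +kernel

/-- nodes 12 to 23 -/
noncomputable def hN6_90_1 : List HM :=
  [.lp k0 [k40,k40,k40,k40,k44,k34] [k2,k2,k2,k2,k2,k2,k2,k2,k0,k0,k5,k5] k0 [[k0,k0,k0,k0,k0,k0,k0,k0,k0,k12,k0,k0],
    [k0,k0,k0,k0,k0,k0,k2,k0,k0,k0,k0,k0],[k0,k0,k0,k0,k0,k0,k0,k0,k0,k0,k0,k0],[k0,k0,k0,k0,k0,k0,k0,k0,k2,k0,k0,k0],
    [k0,k0,k0,k0,k0,k0,k0,k0,k0,k4,k0,k0],[k0,k0,k0,k0,k0,k0,k0,k0,k0,k0,k0,k0],[k0,k0,k0,k0,k0,k0,k0,k0,k0,k0,k0,k0],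
    [k2,k0,k0,k0,k0,k0,k0,k0,k0,k8,k0,k0],[k0,k12,k0,k0,k0,k4,k8,k0,k0,k0,k0,k0],[k0,k0,k2,k0,k0,k0,k0,k0,k0,k0,k0,
    k0],[k0,k0,k0,k0,k0,k0,k0,k0,k0,k0,k0,k0],[k0,k0,k0,k0,k0,k0,k0,k0,k0,k0,k0,k0]] k120 k5
    [[(k10,k37),(k1,k40)],[(k8,k30),(k11,k37),(k0,k40),(k2,k40),(k3,k40),(k4,k40),(k5,k40),(k7,k40),(k6,k42),(k9,
    k42)],[(k0,k40),(k2,k40),(k3,k40),(k4,k40),(k5,k40),(k6,k40),(k7,k40),(k9,k40),(k8,k42),(k11,k49)],[(k11,k37),(k0,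
    k40),(k2,k40),(k3,k40),(k4,k40),(k5,k40),(k6,k40),(k7,k40),(k9,k42),(k8,k44)],[(k11,k35),(k0,k40),(k2,k40),(k3,
    k40),(k4,k40),(k5,k40),(k6,k40),(k7,k40),(k8,k42),(k9,k42)],[(k11,k37),(k8,k38),(k0,k40),(k2,k40),(k3,k40),(k4,
    k40),(k5,k40),(k6,k40),(k7,k40),(k9,k42)],[(k0,k40),(k2,k40),(k3,k40),(k4,k40),(k5,k40),(k6,k40),(k7,k40),(k11,
    k41),(k8,k42),(k9,k42)],[(k2,k40),(k3,k40),(k4,k40),(k5,k40),(k6,k40),(k7,k40),(k0,k42),(k8,k42),(k9,k42),(k11,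
    k45)],[(k8,k36),(k11,k39),(k3,k40),(k0,k42),(k2,k42),(k4,k42),(k5,k42),(k6,k42),(k7,k42),(k9,k44)],[(k0,k30),(k9,
    k36),(k4,k38),(k11,k39),(k3,k42),(k5,k42),(k6,k42),(k7,k42),(k2,k44),(k8,k44)],[(k11,k34),(k5,k35),(k0,k37),(k2,
    k37),(k4,k37),(k8,k39),(k9,k39),(k7,k41),(k6,k45),(k3,k49)],[(k10,k34),(k1,k37)]]
    [[k2,k0,k0,k0,k1,k0],[k1,k1,k0,k0,k0,k1],[k1,k0,k1,k0,k0,k1],[k1,k0,k0,k0,k1,k1],[k0,k1,k1,k0,k1,k0],[k0,k0,k1,k0,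
    k2,k0],[k0,k0,k1,k0,k0,k2],[k0,k0,k0,k0,k3,k0],[k0,k0,k0,k0,k1,k2]]
    [.ref k6 k1 [(z1,[y3,y3,y3,y1,z3]),(z1,[z1]),(z1,[z0,y1]),(z1,[z0,z0,z0,z1])],.ref k7 k1 [(z1,[z1,y2,y1]),(z1,[y3,
    z3,z0,y1,z3]),(z1,[z0,y1]),(z1,[z0,z0,z0,z1])],.ref k8 k0 [(z1,[z3,z0,z0,y1]),(z1,[y6,z6,z3,z2]),(z1,[z0,z0,z0,
    z1]),(z1,[z3,y3,z0,y1])],.ref k9 k0 [(z1,[z3,z3,z3,z1,y3]),(z1,[y6,z0,y3,y2,z6]),(z1,[z0,z0,z0,z1]),(z1,[z3,z0,z3,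
    z1,y3])],.ref k10 k0 [(z1,[y1,z1,z0,z0,z1]),(z1,[z1,z1,z1,z0,y1]),(z1,[z0,z0,z0,z1]),(z1,[y1,y1,z0,z0,z1])],
    .ref k11 k0 [(z1,[z0,z1]),(z1,[z0,z0,z1]),(z1,[z0,z0,z0,z1]),(z2,[z3,z0,z0,y1])],.ref k11 k0 [(z1,[z0,z1]),(z1,
    [z0,z0,z1]),(z1,[z0,z0,z0,z1]),(z2,[y3,y6,y6,y1,z6])],.ref k11 k0 [(z1,[z0,z1]),(z1,[z0,z0,z1]),(z1,[z0,z0,z0,
    z1]),(z1,[z1])],.ref k11 k0 [(z1,[z0,z1]),(z1,[z0,z0,z1]),(z1,[z0,z0,z0,z1]),(z1,[y3,y6,y6,y2,z6])]],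
    .base (.leafM k0 [k0,k1,k2,k3,k4,k5] [(z1,[z0,z1,z1,z1])] []),
    .base (.leafM k3 [k2,k3,k4,k5,k0,k1] [(z2,[z1,z0,z0,z1])] []),
    .lp k0 [(nat_lit 310),(nat_lit 292),(nat_lit 322),(nat_lit 332),(nat_lit 328),(nat_lit 332)] [k11,k11,k20,k20,k5,
    k5,k0,k0,k2,k2,k0,k0] k0 [[k0,k0,k0,k0,k0,k0,k10,k26,k54,k10,k0,k0],[k0,k0,k48,k16,k2,k34,k0,k0,k0,k0,k0,k0],[k16,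
    k0,k0,k0,k6,k0,k0,k0,k6,k0,k0,k0],[k48,k0,k0,k0,k0,k0,k6,k10,k38,k0,k0,k0],[k34,k0,k0,k0,k0,k0,k0,k0,k0,k12,k0,
    k0],[k2,k0,k0,k6,k0,k0,k0,k0,k0,k12,k0,k0],[k0,k26,k10,k0,k0,k0,k0,k0,k0,k0,k0,k0],[k0,k10,k6,k0,k0,k0,k12,k0,k0,
    k0,k0,k0],[k0,k10,k0,k0,k12,k12,k0,k0,k0,k0,k0,k0],[k0,k54,k38,k6,k0,k0,k0,k0,k0,k0,k0,k0],[k0,k0,k0,k0,k0,k0,k0,
    k0,k0,k0,k0,k0],[k0,k0,k0,k0,k0,k0,k0,k0,k0,k0,k0,k0]] (nat_lit 960) k5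
    [[(k1,(nat_lit 310)),(k10,(nat_lit 321))],[(k11,(nat_lit 267)),(k6,(nat_lit 295)),(k3,(nat_lit 301)),(k8,
    (nat_lit 309)),(k9,(nat_lit 309)),(k0,(nat_lit 310)),(k4,(nat_lit 318)),(k5,(nat_lit 332)),(k2,(nat_lit 349)),(k7,
    (nat_lit 355))],[(k5,(nat_lit 259)),(k4,(nat_lit 273)),(k2,(nat_lit 276)),(k3,(nat_lit 292)),(k0,(nat_lit 301)),
    (k7,(nat_lit 310)),(k6,(nat_lit 322)),(k11,(nat_lit 322)),(k9,(nat_lit 336)),(k8,(nat_lit 364))],[(k3,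
    (nat_lit 276)),(k2,(nat_lit 292)),(k7,(nat_lit 306)),(k11,(nat_lit 306)),(k4,(nat_lit 307)),(k5,(nat_lit 307)),
    (k6,(nat_lit 318)),(k9,(nat_lit 320)),(k8,(nat_lit 348)),(k0,(nat_lit 349))],[(k3,(nat_lit 259)),(k11,
    (nat_lit 289)),(k2,(nat_lit 307)),(k6,(nat_lit 317)),(k9,(nat_lit 319)),(k5,(nat_lit 322)),(k7,(nat_lit 327)),(k4,
    (nat_lit 328)),(k8,(nat_lit 331)),(k0,(nat_lit 332))],[(k3,(nat_lit 273)),(k2,(nat_lit 307)),(k8,(nat_lit 313)),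
    (k0,(nat_lit 318)),(k4,(nat_lit 322)),(k9,(nat_lit 325)),(k6,(nat_lit 327)),(k7,(nat_lit 327)),(k5,(nat_lit 328)),
    (k11,(nat_lit 339))],[(k2,(nat_lit 306)),(k3,(nat_lit 310)),(k8,(nat_lit 318)),(k4,(nat_lit 327)),(k5,
    (nat_lit 327)),(k9,(nat_lit 330)),(k6,(nat_lit 332)),(k7,(nat_lit 332)),(k11,(nat_lit 344)),(k0,(nat_lit 355))],
    [(k0,(nat_lit 295)),(k5,(nat_lit 317)),(k2,(nat_lit 318)),(k3,(nat_lit 322)),(k4,(nat_lit 327)),(k8,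
    (nat_lit 330)),(k9,(nat_lit 330)),(k7,(nat_lit 332)),(k11,(nat_lit 332)),(k6,(nat_lit 344))],[(k0,(nat_lit 309)),
    (k9,(nat_lit 316)),(k5,(nat_lit 319)),(k2,(nat_lit 320)),(k4,(nat_lit 325)),(k8,(nat_lit 328)),(k6,(nat_lit 330)),
    (k7,(nat_lit 330)),(k11,(nat_lit 330)),(k3,(nat_lit 336))],[(k0,(nat_lit 309)),(k4,(nat_lit 313)),(k7,
    (nat_lit 318)),(k8,(nat_lit 328)),(k9,(nat_lit 328)),(k6,(nat_lit 330)),(k11,(nat_lit 330)),(k5,(nat_lit 331)),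
    (k2,(nat_lit 348)),(k3,(nat_lit 364))],[(k0,(nat_lit 267)),(k5,(nat_lit 289)),(k2,(nat_lit 306)),(k3,
    (nat_lit 322)),(k8,(nat_lit 330)),(k9,(nat_lit 330)),(k6,(nat_lit 332)),(k11,(nat_lit 332)),(k4,(nat_lit 339)),
    (k7,(nat_lit 344))],[(k1,(nat_lit 321)),(k10,(nat_lit 332))]]
    [[k2,k0,k0,k0,k1,k0],[k1,k1,k0,k0,k0,k1],[k1,k0,k1,k0,k0,k1],[k0,k3,k0,k0,k0,k0],[k0,k2,k1,k0,k0,k0],[k0,k2,k0,k1,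
    k0,k0],[k0,k1,k2,k0,k0,k0],[k0,k1,k1,k1,k0,k0],[k0,k1,k1,k0,k1,k0]]
    [.ref k5 k0 [(z1,[z2,z1,z2,z2,z2,y2]),(z1,[y4,z4,y1,y4,y4,z4]),(z2,[z1,y1,z1,z7,z1,y1]),(z1,[z2,y2,z2,z2,z5,y2]),
    (z1,[y1,y2,y4,y4,y4,z4])],.ref k5 k0 [(z1,[y4,z7,z4]),(z1,[z8,y8,y5]),(z1,[y1,z1,z1,z3]),(z1,[y4,z4,z4,z0,z3]),
    (z1,[z2,y5,y5,y3,y3,z3])],.ref k5 k0 [(z1,[z2,z1,z0,y2]),(z1,[y4,z4,z3,z4]),(z2,[z1,y1,z0,z5]),(z1,[z2,y2,z0,y2,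
    z3]),(z1,[y1,y2,y3,y2,y3,z3])],.ref k5 k0 [(z2,[y1,z6,z3]),(z1,[z1]),(z8,[y1,z0,z3,z24]),(z2,[y1,z0,z3,z0,z6]),
    (z4,[z1,y12,y15,y12,y12,z12])],.ref k5 k0 [(z5,[y4,z15,z8,z4]),(z5,[z8,z0,y1,y8]),(z5,[y1,z0,z2,z16]),(z5,[y4,z0,
    z8,z4,z15]),(z5,[z2,y15,y19,y17,y15,z15])],.ref k5 k0 [(z1,[y1,z3,z2,z0,z1]),(z1,[z2,z0,y1,z0,y2]),(z4,[y1,z0,z2,
    z12,z1]),(z1,[y1,z0,z2,z0,z4]),(z2,[z1,y6,y8,y6,y7,z6])],.ref k5 k0 [(z1,[y2,z3,z2,z4]),(z1,[z4,z0,y1,y8]),(z2,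
    [y1,z0,z1,z8]),(z1,[y2,z0,z2,z4,z3]),(z1,[z1,y3,y4,y5,y3,z3])],.ref k5 k0 [(z1,[y4,z3,z4,z4,z4]),(z1,[z8,z0,y5,y8,
    y8]),(z1,[y1,z0,z1,z4,z1]),(z1,[y4,z0,z4,z4,z7]),(z1,[z2,y3,y5,y5,y5,z3])],.ref k5 k0 [(z3,[y4,z5,z0,z0,y4,z4]),
    (z3,[z8,z8,z9,z0,z8,y8]),(z3,[y1,y1,z0,z9,y1,z1]),(z3,[y4,y4,z0,z0,z5,z4]),(z3,[z2,y7,y9,y9,y7,z7])]],
    .lp k0 [(nat_lit 1064),(nat_lit 1470),(nat_lit 1470),(nat_lit 1330),(nat_lit 1470),(nat_lit 1140)] [(nat_lit 203),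
    (nat_lit 203),k0,k0,k0,k0,k70,k70,k0,k0,k165,k165] k0 [[k0,k0,k0,k0,k0,k0,k0,k0,k0,(nat_lit 266),k0,k0],[k0,k0,
    (nat_lit 399),(nat_lit 399),k0,k0,k0,k0,k0,k0,k0,k0],[(nat_lit 399),k0,k0,k0,k0,k0,k0,k0,k0,k0,k0,k0],
    [(nat_lit 399),k0,k0,k0,k0,k0,k0,k0,k0,k0,k0,k0],[k0,k0,k0,k0,k0,k0,k0,k0,k0,k0,k0,k0],[k0,k0,k0,k0,k0,k0,k0,k0,
    k0,(nat_lit 266),k0,k0],[k0,k0,k0,k0,k0,k0,k0,k0,k0,(nat_lit 266),k0,k0],[k0,k0,k0,k0,k0,k0,k0,k0,k0,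
    (nat_lit 399),k0,k0],[k0,(nat_lit 266),k0,k0,(nat_lit 266),k0,(nat_lit 399),(nat_lit 266),k0,k0,k0,k0],[k0,k0,k0,
    k0,k0,k0,k0,k0,k0,k0,k0,k0],[k0,k0,k0,k0,k0,k0,k0,k0,k0,k0,k0,k0],[k0,k0,k0,k0,k0,k0,k0,k0,k0,k0,k0,
    k0]] (nat_lit 3990) k5
    [[(k1,(nat_lit 1064)),(k10,(nat_lit 1102))],[(k8,(nat_lit 1001)),(k0,(nat_lit 1064)),(k11,(nat_lit 1102)),(k6,
    (nat_lit 1197)),(k7,(nat_lit 1197)),(k3,(nat_lit 1267)),(k4,(nat_lit 1267)),(k9,(nat_lit 1267)),(k2,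
    (nat_lit 1666)),(k5,(nat_lit 1666))],[(k2,(nat_lit 1071)),(k5,(nat_lit 1071)),(k0,(nat_lit 1267)),(k6,
    (nat_lit 1400)),(k7,(nat_lit 1400)),(k3,(nat_lit 1470)),(k4,(nat_lit 1470)),(k8,(nat_lit 1470)),(k9,
    (nat_lit 1470)),(k11,(nat_lit 1571))],[(k3,(nat_lit 1071)),(k11,(nat_lit 1305)),(k6,(nat_lit 1400)),(k7,
    (nat_lit 1400)),(k2,(nat_lit 1470)),(k4,(nat_lit 1470)),(k5,(nat_lit 1470)),(k8,(nat_lit 1470)),(k9,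
    (nat_lit 1470)),(k0,(nat_lit 1666))],[(k3,(nat_lit 1071)),(k11,(nat_lit 1305)),(k6,(nat_lit 1400)),(k7,
    (nat_lit 1400)),(k2,(nat_lit 1470)),(k4,(nat_lit 1470)),(k5,(nat_lit 1470)),(k8,(nat_lit 1470)),(k9,
    (nat_lit 1470)),(k0,(nat_lit 1666))],[(k0,(nat_lit 1267)),(k6,(nat_lit 1400)),(k7,(nat_lit 1400)),(k2,
    (nat_lit 1470)),(k3,(nat_lit 1470)),(k4,(nat_lit 1470)),(k5,(nat_lit 1470)),(k8,(nat_lit 1470)),(k9,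
    (nat_lit 1470)),(k11,(nat_lit 1571))],[(k8,(nat_lit 1134)),(k0,(nat_lit 1197)),(k11,(nat_lit 1235)),(k6,
    (nat_lit 1330)),(k7,(nat_lit 1330)),(k2,(nat_lit 1400)),(k3,(nat_lit 1400)),(k4,(nat_lit 1400)),(k5,
    (nat_lit 1400)),(k9,(nat_lit 1400))],[(k8,(nat_lit 1134)),(k0,(nat_lit 1197)),(k6,(nat_lit 1330)),(k7,
    (nat_lit 1330)),(k2,(nat_lit 1400)),(k3,(nat_lit 1400)),(k4,(nat_lit 1400)),(k5,(nat_lit 1400)),(k9,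
    (nat_lit 1400)),(k11,(nat_lit 1634))],[(k8,(nat_lit 1071)),(k0,(nat_lit 1267)),(k6,(nat_lit 1400)),(k7,
    (nat_lit 1400)),(k2,(nat_lit 1470)),(k3,(nat_lit 1470)),(k4,(nat_lit 1470)),(k5,(nat_lit 1470)),(k9,
    (nat_lit 1470)),(k11,(nat_lit 1571))],[(k0,(nat_lit 1001)),(k9,(nat_lit 1071)),(k6,(nat_lit 1134)),(k7,
    (nat_lit 1134)),(k11,(nat_lit 1305)),(k2,(nat_lit 1470)),(k3,(nat_lit 1470)),(k4,(nat_lit 1470)),(k5,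
    (nat_lit 1470)),(k8,(nat_lit 1470))],[(k0,(nat_lit 1102)),(k11,(nat_lit 1140)),(k7,(nat_lit 1235)),(k2,
    (nat_lit 1305)),(k5,(nat_lit 1305)),(k8,(nat_lit 1305)),(k3,(nat_lit 1571)),(k4,(nat_lit 1571)),(k9,
    (nat_lit 1571)),(k6,(nat_lit 1634))],[(k1,(nat_lit 1102)),(k10,(nat_lit 1140))]]
    [[k2,k0,k0,k1,k0,k0],[k2,k0,k0,k0,k1,k0],[k1,k1,k0,k0,k0,k1],[k1,k0,k1,k0,k0,k1],[k1,k0,k0,k1,k0,k1],[k1,k0,k0,k0,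
    k1,k1],[k0,k3,k0,k0,k0,k0],[k0,k2,k1,k0,k0,k0],[k0,k2,k0,k1,k0,k0],[k0,k1,k1,k1,k0,k0],[k0,k0,k0,k2,k1,k0],[k0,k0,
    k0,k1,k2,k0],[k0,k0,k0,k0,k3,k0]]
    [.ref k11 k1 [(z1,[z0,z0,z0,y1]),(z1,[z0,y1,y1,z1,z1]),(z1,[z1,y2]),(z1,[y2,z4,z3])],.ref k13 k0 [(z2,[z1,z1,z1,
    z1,y1]),(z1,[y1,z1,z0,y1,z1]),(z1,[z0,z0,z0,z1]),(z2,[z1,y1,z1,z1,y1])],.ref k13 k0 [(z1,[y1,z2,z1]),(z1,[z2,y2,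
    y1]),(z1,[z0,z0,z0,z1]),(z1,[y1,z1,z1])],.ref k14 k1 [(z1,[z1,z0,z0,y1]),(z1,[y1,y1,y1,z0,z1]),(z1,[z0,y1]),(z1,
    [z1,z0,z0,z1])],.ref k14 k0 [(z1,[z1,z1]),(z1,[y1,z1,z1]),(z1,[z0,z0,z0,z1]),(z1,[z1,y1])],.ref k13 k0 [(z1,[z1,
    z1,z1,z1,y1]),(z1,[y2,z0,y1,y2,z2]),(z1,[z0,z0,z0,z1]),(z1,[z1,z0,z1,z1,y1])],.ref k11 k1 [(z1,[z0,z0,z0,y1]),(z1,
    [z0,y1,y1,z1,z1]),(z2,[y1,z0,z3]),(z1,[z1])],.ref k15 k1 [(z1,[z1,y4,y2,y1]),(z1,[y2,z7,z3,z1,z1]),(z1,[z0,y1]),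
    (z1,[z1,y4,y2])],.ref k11 k1 [(z1,[z0,z0,z0,y1]),(z1,[z0,y1,y1,z1,z1]),(z1,[y1,z0,z2]),(z1,[z2,z0,y1])],
    .ref k13 k0 [(z1,[y1,z1,z1,z1]),(z1,[z2,z0,y1,y2]),(z1,[z0,z0,z0,z1]),(z1,[y1,z0,z1,z1])],.ref k13 k0 [(z2,[z1,z3,
    z1,z1,y1]),(z1,[y1,y1,z0,y1,z1]),(z1,[z0,z0,z0,z1]),(z2,[z1,z1,z1,z1,y1])],.ref k15 k0 [(z1,[z1,z3,z2,z2,y2]),(z1,
    [y2,y4,y3,y4,z4]),(z1,[z0,z0,z0,z1]),(z1,[z1,z2,z2,z2,y2])],.ref k11 k0 [(z1,[z0,z1]),(z1,[z0,z0,z1]),(z2,[y1,y3,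
    y3,z3,z3]),(z1,[z1])]],
    .base (.leafM k0 [k1,k2,k3,k4,k5,k0] [(z1,[y1,y1,z0,z1])] []),
    .base (.leafM k3 [k2,k3,k4,k5,k0,k1] [(z2,[z1,z0,z0,z1])] []),
    .base (.leafM k0 [k0,k1,k2,k3,k4,k5] [(z1,[z0,z1,z1,z1])] []),
    .base (.leafM k0 [k1,k2,k3,k4,k5,k0] [(z2,[y1,y1,z0,z0,z2])] []),
    .lp k0 [k134,k184,k160,k166,k154,k154] [k25,k25,k0,k0,k12,k12,k9,k9,k15,k15,k15,k15] k0 [[k0,k0,k16,k0,k0,k8,k2,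
    k0,k0,k0,k0,k0],[k0,k0,k28,k0,k0,k20,k26,k0,k0,k0,k0,k0],[k0,k0,k0,k0,k4,k0,k0,k18,k12,k32,k0,k0],[k28,k16,k0,k0,
    k0,k0,k0,k0,k0,k0,k0,k0],[k20,k8,k0,k0,k0,k0,k0,k6,k20,k0,k0,k0],[k0,k0,k0,k4,k4,k0,k0,k6,k0,k0,k0,k0],[k0,k0,k0,
    k18,k6,k6,k0,k0,k0,k0,k0,k0],[k26,k2,k0,k0,k0,k0,k0,k0,k6,k6,k0,k0],[k0,k0,k0,k32,k0,k0,k6,k0,k0,k0,k0,k0],[k0,k0,
    k0,k12,k0,k20,k6,k0,k0,k0,k0,k0],[k0,k0,k0,k0,k0,k0,k0,k0,k0,k0,k0,k0],[k0,k0,k0,k0,k0,k0,k0,k0,k0,k0,k0,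
    k0]] (nat_lit 480) k5
    [[(k1,k134),(k10,k144)],[(k5,k131),(k0,k134),(k4,k139),(k9,k142),(k8,k144),(k11,k144),(k3,k159),(k7,k170),(k6,
    k176),(k2,k187)],[(k9,k143),(k5,k144),(k4,k152),(k0,k159),(k8,k169),(k11,k169),(k6,k177),(k7,k183),(k3,k184),(k2,
    (nat_lit 200))],[(k8,k137),(k6,k157),(k11,k157),(k9,k169),(k7,k171),(k4,k172),(k5,k172),(k2,k184),(k0,k187),(k3,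
    (nat_lit 200))],[(k0,k131),(k3,k144),(k5,k160),(k6,k163),(k7,k163),(k4,k164),(k8,k169),(k2,k172),(k9,k175),(k11,
    k189)],[(k11,k137),(k0,k139),(k3,k152),(k6,k157),(k8,k157),(k7,k163),(k9,k163),(k4,k164),(k5,k164),(k2,k172)],
    [(k6,k160),(k11,k160),(k7,k162),(k4,k163),(k5,k163),(k9,k166),(k0,k170),(k2,k171),(k8,k180),(k3,k183)],[(k2,k157),
    (k4,k157),(k7,k160),(k9,k160),(k5,k163),(k6,k166),(k8,k166),(k11,k166),(k0,k176),(k3,k177)],[(k0,k142),(k3,k143),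
    (k8,k148),(k11,k148),(k9,k154),(k6,k160),(k4,k163),(k7,k166),(k2,k169),(k5,k175)],[(k2,k137),(k0,k144),(k9,k148),
    (k8,k154),(k11,k154),(k4,k157),(k6,k166),(k3,k169),(k5,k169),(k7,k180)],[(k4,k137),(k0,k144),(k9,k148),(k8,k154),
    (k11,k154),(k2,k157),(k7,k160),(k6,k166),(k3,k169),(k5,k189)],[(k1,k144),(k10,k154)]]
    [[k2,k0,k1,k0,k0,k0],[k2,k0,k0,k0,k1,k0],[k1,k1,k0,k0,k0,k1],[k1,k0,k1,k0,k0,k1],[k1,k0,k0,k0,k1,k1],[k0,k1,k1,k1,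
    k0,k0],[k0,k1,k1,k0,k1,k0],[k0,k1,k0,k0,k2,k0],[k0,k0,k0,k0,k3,k0],[k0,k0,k0,k0,k1,k2]]
    [.ref k5 k0 [(z1,[z0,z1]),(z1,[z0,z0,z1]),(z1,[z3,y2]),(z1,[z0,z0,z0,z0,z1]),(z2,[y3,z0,y2,y3,y2,z6])],
    .ref k5 k0 [(z1,[z0,z1]),(z1,[z0,z0,z1]),(z1,[y6,z2,y2,y3,y2,z6]),(z1,[z0,z0,z0,z0,z1]),(z1,[z3,y2])],
    .ref k5 k0 [(z1,[z0,z1]),(z1,[z0,z0,z1]),(z1,[y6,z2,z2,z3]),(z1,[z0,z0,z0,z0,z1]),(z1,[z3,y2,y2,y3,y1,z3])],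
    .ref k5 k0 [(z1,[z0,z1]),(z1,[z0,z0,z1]),(z1,[z6,y2,z0,y3]),(z1,[z0,z0,z0,z0,z1]),(z1,[y3,z0,y1,z0,y1,z3])],
    .ref k5 k0 [(z1,[z0,z1]),(z1,[z0,z0,z1]),(z1,[y3,z0,y1,z0,y1,z3]),(z1,[z0,z0,z0,z0,z1]),(z2,[z3,y2,y1,y3,y1,z3])],
    .ref k5 k0 [(z1,[z0,z1]),(z1,[z0,z0,z1]),(z1,[z3,z0,y1,z0,y1]),(z1,[z0,z0,z0,z0,z1]),(z2,[y3,y2,y1,y3,y1,z6])],
    .ref k5 k0 [(z1,[z0,z1]),(z1,[z0,z0,z1]),(z1,[z6,z2,z0,z3,z2,y6]),(z1,[z0,z0,z0,z0,z1]),(z1,[y3,y2,y1,y3,y2,z6])],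
    .ref k5 k0 [(z1,[z0,z1]),(z1,[z0,z0,z1]),(z1,[y3,y2,y1,y3,y2,z6]),(z1,[z0,z0,z0,z0,z1]),(z2,[z3,z0,y1])],
    .ref k5 k0 [(z1,[z0,z1]),(z1,[z0,z0,z1]),(z1,[y2,y2,y2,y3,y2,z6]),(z1,[z0,z0,z0,z0,z1]),(z1,[z1])],
    .ref k5 k0 [(z1,[z0,z1]),(z1,[z0,z0,z1]),(z3,[y6,y2,y2,z3,y2,z6]),(z1,[z0,z0,z0,z0,z1]),(z3,[z3,y2,y2,y6,y2,
    z6])]],
    .lp k0 [k142,k160,k178,k170,k168,k138] [k7,k29,k9,k9,k0,k0,k4,k4,k3,k7,k20,k20] k0 [[k0,k0,k0,k0,k0,k0,k8,k8,k0,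
    k48,k0,k0],[k0,k0,k36,k0,k18,k34,k0,k0,k0,k0,k0,k0],[k0,k0,k0,k0,k2,k2,k0,k0,k4,k0,k0,k0],[k36,k0,k0,k0,k0,k0,k0,
    k0,k0,k0,k0,k0],[k34,k0,k0,k2,k0,k0,k0,k2,k0,k38,k0,k0],[k18,k0,k0,k2,k0,k0,k0,k0,k0,k26,k0,k0],[k0,k8,k0,k0,k0,
    k2,k0,k0,k4,k0,k0,k0],[k0,k8,k0,k0,k0,k0,k0,k0,k0,k0,k0,k0],[k0,k48,k0,k0,k26,k38,k0,k0,k0,k0,k0,k0],[k0,k0,k0,k4,
    k0,k0,k0,k4,k0,k0,k0,k0],[k0,k0,k0,k0,k0,k0,k0,k0,k0,k0,k0,k0],[k0,k0,k0,k0,k0,k0,k0,k0,k0,k0,k0,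
    k0]] (nat_lit 480) k5
    [[(k1,k120),(k10,k129)],[(k8,k120),(k11,k151),(k9,k156),(k6,k159),(k3,k162),(k0,k164),(k5,k171),(k4,k189),(k2,
    k198),(k7,(nat_lit 201))],[(k5,k133),(k4,k135),(k7,k147),(k2,k160),(k3,k160),(k0,k162),(k8,k166),(k9,k170),(k6,
    k173),(k11,k197)],[(k11,k145),(k2,k160),(k3,k160),(k9,k162),(k7,k163),(k6,k165),(k8,k166),(k4,k167),(k5,k169),(k0,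
    k198)],[(k3,k133),(k11,k158),(k2,k169),(k0,k171),(k9,k171),(k6,k174),(k7,k176),(k5,k178),(k8,k179),(k4,k180)],
    [(k3,k135),(k8,k137),(k2,k167),(k9,k171),(k6,k172),(k7,k174),(k4,k178),(k5,k180),(k11,k184),(k0,k189)],[(k8,k145),
    (k3,k147),(k2,k163),(k9,k169),(k6,k170),(k7,k170),(k4,k174),(k5,k176),(k11,k192),(k0,(nat_lit 201))],[(k11,k150),
    (k0,k159),(k2,k165),(k9,k167),(k6,k170),(k7,k170),(k8,k171),(k4,k172),(k3,k173),(k5,k174)],[(k11,k151),(k0,k156),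
    (k2,k162),(k9,k164),(k6,k167),(k7,k169),(k3,k170),(k4,k171),(k5,k171),(k8,k172)],[(k0,k120),(k4,k137),(k7,k145),
    (k11,k155),(k2,k166),(k3,k166),(k6,k171),(k8,k172),(k9,k172),(k5,k179)],[(k11,k138),(k2,k145),(k6,k150),(k0,k151),
    (k9,k151),(k8,k155),(k5,k158),(k4,k184),(k7,k192),(k3,k197)],[(k1,k129),(k10,k138)]]
    [[k2,k0,k0,k0,k1,k0],[k1,k1,k0,k0,k0,k1],[k1,k0,k1,k0,k0,k1],[k1,k0,k0,k0,k1,k1],[k0,k2,k1,k0,k0,k0],[k0,k2,k0,k1,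
    k0,k0],[k0,k1,k1,k1,k0,k0],[k0,k1,k1,k0,k1,k0],[k0,k0,k0,k0,k1,k2]]
    [.ref k18 k0 [(z1,[z1,z1,z1,z1,y1]),(z1,[y1,z1,z0,y1,z1]),(z1,[z0,z0,z0,z1]),(z1,[z1,y1,z1,z1,y1])],
    .ref k19 k1 [(z1,[z1,y2,y1]),(z1,[z1,y3,y2,y1,z1]),(z1,[z0,y1]),(z1,[y2,z4,z2,z1])],.ref k19 k1 [(z1,[y1,z0,z0,
    z1]),(z1,[y1,y1,y1,z0,z1]),(z1,[z0,y1]),(z1,[z2,z0,z0,y1])],.ref k20 k1 [(z1,[z1,z1,z1,z1,y1]),(z1,[z1,y1,y1,y1,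
    z1]),(z1,[z0,y1]),(z1,[y1,y1,y1,z0,z1])],.ref k18 k0 [(z2,[y1,z4,z2,z1]),(z2,[z1,z0,z0,y1]),(z1,[z0,z0,z0,z1]),
    (z2,[y1,z0,z2,z1])],.ref k21 k0 [(z1,[y1,z3,z2]),(z1,[z2,z0,y1]),(z1,[z0,z0,z0,z1]),(z1,[y1,z0,z2])],
    .ref k20 k1 [(z1,[y1,z1,z1,z1]),(z1,[y1,y1,y1,y1,z2]),(z1,[z0,y1]),(z1,[z1,y1,y1])],.ref k18 k0 [(z1,[y1,z1,z0,z0,
    z1]),(z1,[z1,z1,z1,z0,y1]),(z1,[z0,z0,z0,z1]),(z1,[y1,y1,z0,z0,z1])],.ref k11 k0 [(z1,[z0,z1]),(z1,[z0,z0,z1]),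
    (z1,[y2,y2,y2,z1,z2]),(z1,[z1,y2,y2,y2,z2])]],
    .lp k0 [(nat_lit 454),(nat_lit 508),(nat_lit 460),(nat_lit 502),(nat_lit 490),(nat_lit 454)] [k27,k27,k0,k0,k24,
    k24,k3,k3,k9,k9,k27,k27] k0 [[k0,k24,k0,k0,k0,k0,k0,k6,k24,k0,k0,k0],[k0,k0,k24,k0,k72,k36,k0,k42,k0,k0,k0,k0],
    [k0,k0,k0,k0,k0,k0,k18,k0,k0,k72,k0,k0],[k24,k0,k36,k0,k0,k0,k0,k0,k0,k24,k0,k0],[k36,k0,k0,k0,k0,k0,k42,k0,k0,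
    k84,k0,k0],[k72,k0,k0,k0,k0,k0,k54,k0,k0,k0,k0,k0],[k42,k6,k0,k0,k0,k0,k0,k0,k54,k42,k0,k0],[k0,k0,k0,k18,k54,k42,
    k0,k0,k0,k0,k0,k0],[k0,k0,k24,k72,k0,k84,k0,k42,k0,k0,k0,k0],[k0,k24,k0,k0,k0,k0,k0,k54,k12,k0,k0,k0],[k0,k0,k0,
    k0,k0,k0,k0,k0,k0,k0,k0,k0],[k0,k0,k0,k0,k0,k0,k0,k0,k0,k0,k0,k0]] (nat_lit 1440) k5
    [[(k1,(nat_lit 454)),(k10,(nat_lit 454))],[(k0,(nat_lit 430)),(k11,(nat_lit 430)),(k5,(nat_lit 457)),(k6,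
    (nat_lit 472)),(k8,(nat_lit 472)),(k3,(nat_lit 481)),(k2,(nat_lit 505)),(k7,(nat_lit 514)),(k9,(nat_lit 514)),(k4,
    (nat_lit 529))],[(k7,(nat_lit 433)),(k4,(nat_lit 448)),(k5,(nat_lit 460)),(k6,(nat_lit 463)),(k0,(nat_lit 481)),
    (k11,(nat_lit 481)),(k9,(nat_lit 505)),(k2,(nat_lit 508)),(k8,(nat_lit 523)),(k3,(nat_lit 532))],[(k8,
    (nat_lit 427)),(k9,(nat_lit 481)),(k4,(nat_lit 484)),(k5,(nat_lit 484)),(k0,(nat_lit 505)),(k6,(nat_lit 505)),(k7,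
    (nat_lit 505)),(k11,(nat_lit 505)),(k3,(nat_lit 508)),(k2,(nat_lit 544))],[(k5,(nat_lit 424)),(k8,(nat_lit 451)),
    (k0,(nat_lit 457)),(k3,(nat_lit 460)),(k4,(nat_lit 460)),(k9,(nat_lit 475)),(k7,(nat_lit 481)),(k2,(nat_lit 484)),
    (k6,(nat_lit 499)),(k11,(nat_lit 529))],[(k8,(nat_lit 391)),(k9,(nat_lit 433)),(k3,(nat_lit 448)),(k11,
    (nat_lit 457)),(k4,(nat_lit 460)),(k5,(nat_lit 460)),(k7,(nat_lit 481)),(k2,(nat_lit 484)),(k0,(nat_lit 529)),(k6,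
    (nat_lit 535))],[(k3,(nat_lit 433)),(k9,(nat_lit 442)),(k4,(nat_lit 481)),(k5,(nat_lit 481)),(k8,(nat_lit 496)),
    (k7,(nat_lit 502)),(k2,(nat_lit 505)),(k0,(nat_lit 514)),(k6,(nat_lit 544)),(k11,(nat_lit 562))],[(k11,
    (nat_lit 424)),(k8,(nat_lit 454)),(k3,(nat_lit 463)),(k0,(nat_lit 472)),(k9,(nat_lit 496)),(k5,(nat_lit 499)),(k6,
    (nat_lit 502)),(k2,(nat_lit 505)),(k4,(nat_lit 535)),(k7,(nat_lit 544))],[(k4,(nat_lit 433)),(k7,(nat_lit 442)),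
    (k5,(nat_lit 475)),(k2,(nat_lit 481)),(k9,(nat_lit 490)),(k6,(nat_lit 496)),(k3,(nat_lit 505)),(k0,(nat_lit 514)),
    (k11,(nat_lit 514)),(k8,(nat_lit 544))],[(k4,(nat_lit 391)),(k2,(nat_lit 427)),(k5,(nat_lit 451)),(k6,
    (nat_lit 454)),(k0,(nat_lit 472)),(k11,(nat_lit 472)),(k7,(nat_lit 496)),(k8,(nat_lit 502)),(k3,(nat_lit 523)),
    (k9,(nat_lit 544))],[(k6,(nat_lit 424)),(k0,(nat_lit 430)),(k11,(nat_lit 442)),(k4,(nat_lit 457)),(k8,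
    (nat_lit 472)),(k3,(nat_lit 481)),(k2,(nat_lit 505)),(k9,(nat_lit 514)),(k5,(nat_lit 529)),(k7,(nat_lit 562))],
    [(k1,(nat_lit 454)),(k10,(nat_lit 454))]]
    [[k1,k0,k1,k0,k0,k1],[k1,k0,k0,k1,k0,k1],[k0,k1,k2,k0,k0,k0],[k0,k1,k1,k1,k0,k0],[k0,k1,k1,k0,k1,k0],[k0,k1,k0,k1,
    k1,k0],[k0,k0,k3,k0,k0,k0],[k0,k0,k2,k0,k1,k0],[k0,k0,k1,k1,k1,k0],[k0,k0,k1,k0,k2,k0]]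
    [.ref k2 k0 [(z1,[z1,z1,z1,y1]),(z1,[y2,z0,y1,z2]),(z1,[z0,y1,y1,z1])],.ref k3 k0 [(z1,[z1,z1]),(z1,[y1,z1,z1]),
    (z1,[z0,y1,y1,z1])],.ref k4 k0 [(z2,[y1,z0,y1,z2]),(z1,[z1,z2,z2,y2]),(z1,[z0,y1,y1,z1])],.ref k4 k0 [(z1,[y1,z0,
    z0,z1]),(z1,[z2,z2,z1,y2]),(z1,[z0,y1,y1,z1])],.ref k3 k0 [(z1,[y1,z1,z0,z1]),(z1,[z1,z1,z1,y1]),(z1,[z0,y1,y1,
    z1])],.ref k2 k0 [(z1,[y1,z1,z1]),(z1,[z2,z0,y1]),(z1,[z0,y1,y1,z1])],.ref k12 k0 [(z1,[z0,z1]),(z1,[z0,z0,z1]),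
    (z1,[z1])],.ref k16 k0 [(z1,[z0,z1]),(z1,[z0,z0,z1]),(z1,[z1,z1,z1,y1])],.ref k17 k0 [(z1,[z1,z2,z1,y1]),(z1,[y2,
    y2,y1,z2]),(z1,[z0,y1,y1,z1])],.ref k22 k0 [(z1,[z0,z1]),(z1,[z0,z0,z1]),(z1,[y1,y2,y2,z2])]]]

theorem hB6_90_1 : blkB [0, 0, 0, 0, 0, 1] [] sp6 hS6_90 (pcls (n := 6) [0, 0, 0, 0, 0, 1]) hD6_90 143 1 hN6_90_1 = true := by
  decide +kernel

/-- nodes 24 to 35 -/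
noncomputable def hN6_90_2 : List HM :=
  [.base (.leafM k0 [k1,k2,k3,k4,k5,k0] [(z2,[y1,y1,z0,z2])] []),
    .base (.leafM k3 [k0,k1,k2,k3,k4,k5] [(z2,[y1,z0,y1,z2])] []),
    .base (.leafM k3 [k0,k1,k2,k3,k4,k5] [(z2,[y1,z0,y1,z2])] []),
    .base (.leafM k0 [k1,k2,k3,k4,k5,k0] [(z1,[y1,y1,z0,z1])] []),
    .base (.spec k1 false k0 [(z1,[z1]),(z1,[z0,z0,z1]),(z1,[y1,y1,y1,z2]),(z1,[z0,z1])]),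
    .base (.spec k1 false k0 [(z3,[z1,y3,y1,y3,z3]),(z3,[y1,y3,z1,y3,z3]),(z1,[z0,z1,z0,z2]),(z1,[z0,z1])]),
    .base (.leafM k0 [k1,k2,k3,k4,k5,k0] [(z5,[y1,y1,z0,z0,z5])] []),
    .base (.leafM k0 [k1,k2,k3,k4,k5,k0] [(z1,[y1,y1,z0,z0,z1])] []),
    .lp k0 [k96,k122,k124,k132,k130,k110] [k18,k18,k5,k5,k4,k4,k0,k0,k1,k1,k11,k11] k0 [[k0,k0,k20,k14,k0,k8,k0,k0,k0,
    k0,k0,k0],[k0,k0,k0,k0,k0,k22,k14,k24,k26,k0,k0,k0],[k0,k14,k0,k0,k12,k0,k0,k0,k0,k8,k0,k0],[k0,k20,k0,k0,k12,k0,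
    k0,k8,k0,k0,k0,k0],[k22,k8,k0,k0,k0,k0,k10,k8,k0,k8,k0,k0],[k0,k0,k12,k12,k0,k0,k0,k0,k0,k8,k0,k0],[k24,k0,k8,k0,
    k0,k8,k0,k0,k0,k0,k0,k0],[k14,k0,k0,k0,k0,k10,k0,k0,k2,k0,k0,k0],[k0,k0,k0,k8,k8,k8,k0,k0,k0,k0,k0,k0],[k26,k0,k0,
    k0,k0,k0,k2,k0,k0,k0,k0,k0],[k0,k0,k0,k0,k0,k0,k0,k0,k0,k0,k0,k0],[k0,k0,k0,k0,k0,k0,k0,k0,k0,k0,k0,
    k0]] (nat_lit 360) k5
    [[(k1,k96),(k10,k103)],[(k5,k90),(k2,k95),(k0,k96),(k4,k102),(k11,k103),(k3,k109),(k6,k128),(k7,k136),(k9,k137),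
    (k8,k139)],[(k11,k90),(k4,k101),(k6,k103),(k0,k109),(k9,k112),(k3,k122),(k8,k126),(k7,k135),(k5,k137),(k2,k142)],
    [(k0,k95),(k7,k115),(k11,k116),(k8,k118),(k2,k122),(k5,k123),(k6,k127),(k9,k134),(k4,k135),(k3,k142)],[(k0,k90),
    (k7,k116),(k6,k120),(k2,k123),(k5,k124),(k11,k125),(k8,k127),(k9,k127),(k4,k136),(k3,k137)],[(k3,k101),(k0,k102),
    (k9,k117),(k8,k119),(k6,k120),(k4,k124),(k11,k125),(k7,k128),(k2,k135),(k5,k136)],[(k2,k115),(k5,k116),(k8,k123),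
    (k4,k128),(k11,k129),(k7,k132),(k3,k135),(k0,k136),(k9,k139),(k6,k142)],[(k3,k103),(k4,k120),(k5,k120),(k11,k121),
    (k2,k127),(k0,k128),(k9,k131),(k6,k132),(k8,k133),(k7,k142)],[(k3,k112),(k4,k117),(k11,k118),(k5,k127),(k8,k130),
    (k9,k130),(k6,k131),(k2,k134),(k0,k137),(k7,k139)],[(k2,k118),(k4,k119),(k11,k120),(k7,k123),(k3,k126),(k5,k127),
    (k8,k130),(k9,k130),(k6,k133),(k0,k139)],[(k3,k90),(k0,k103),(k11,k110),(k2,k116),(k9,k118),(k8,k120),(k6,k121),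
    (k4,k125),(k5,k125),(k7,k129)],[(k1,k103),(k10,k110)]]
    [[k2,k1,k0,k0,k0,k0],[k2,k0,k1,k0,k0,k0],[k1,k1,k0,k0,k0,k1],[k1,k0,k1,k0,k0,k1],[k0,k1,k1,k1,k0,k0],[k0,k1,k1,k0,
    k1,k0],[k0,k1,k0,k0,k0,k2],[k0,k0,k0,k0,k1,k2]]
    [.ref k18 k0 [(z2,[y1,z3,z1]),(z2,[z3,y3,y1]),(z1,[y1,z1,z1,z1]),(z2,[y3,z1,y1,y4,z4])],.ref k29 k0 [(z2,[z1,z2,
    z0,y1]),(z1,[y1,z1,z1,z1]),(z1,[z2,y2,z0,z1]),(z2,[z1,y2,y2,y3,z2])],.ref k30 k0 [(z1,[y1,z3,z1]),(z1,[z6,y3,y1]),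
    (z1,[y4,z2,z4,z5]),(z1,[y3,y1,y2,y5,z5])],.ref k30 k0 [(z1,[z1,z2,z0,y1]),(z1,[y6,z3,z5,z6]),(z1,[z4,y2,z0,z1]),
    (z1,[z3,y4,y5,y8,z5])],.ref k31 k1 [(z1,[y1,y1,z0,z0,z1]),(z1,[z0,z1]),(z1,[y1,y3,y1,y1,z2]),(z1,[z0,y2,z0,z1])],
    .ref k18 k0 [(z2,[y1,z2,z1,z1]),(z2,[z3,z0,y1,y3]),(z1,[y1,z0,z1,z2]),(z2,[y3,y2,y1,y1,z4])],.ref k29 k0 [(z2,[y1,
    z3,z1]),(z1,[z1]),(z1,[y2,z0,z2,z3]),(z2,[y1,y1,y1,y2,z2])],.ref k31 k1 [(z2,[z1,y1]),(z1,[z0,z1]),(z2,[z1,y5,y2,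
    y2,z2]),(z1,[z0,y2,z0,z1])]],
    .lp k0 [k38,k44,k40,k44,k40,k33] [k3,k3,k0,k0,k2,k2,k0,k0,k2,k2,k6,k5] k0 [[k0,k0,k0,k0,k4,k0,k0,k0,k0,k6,k0,k0],
    [k0,k0,k0,k0,k4,k0,k4,k10,k0,k0,k0,k0],[k0,k0,k0,k0,k2,k6,k4,k0,k0,k0,k0,k0],[k0,k0,k2,k0,k0,k0,k0,k0,k0,k4,k0,
    k0],[k0,k0,k0,k6,k0,k0,k0,k2,k6,k10,k0,k0],[k4,k4,k0,k2,k0,k0,k0,k0,k0,k0,k0,k0],[k10,k0,k0,k0,k0,k2,k0,k0,k0,k0,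
    k0,k0],[k4,k0,k0,k4,k0,k0,k0,k0,k0,k0,k0,k0],[k0,k6,k4,k0,k0,k10,k0,k0,k0,k0,k0,k0],[k0,k0,k0,k0,k0,k6,k0,k0,k4,
    k0,k0,k0],[k0,k0,k0,k0,k0,k0,k0,k0,k0,k0,k0,k0],[k0,k0,k0,k0,k0,k0,k0,k0,k0,k0,k0,k0]] k120 k5
    [[(k10,k35),(k1,k38)],[(k8,k33),(k11,k36),(k7,k37),(k0,k38),(k5,k39),(k2,k41),(k3,k41),(k4,k43),(k6,k45),(k9,
    k49)],[(k6,k34),(k9,k38),(k7,k40),(k0,k41),(k5,k42),(k8,k42),(k2,k44),(k3,k44),(k11,k45),(k4,k46)],[(k4,k36),(k9,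
    k38),(k0,k41),(k5,k42),(k7,k42),(k8,k42),(k11,k43),(k3,k44),(k6,k44),(k2,k46)],[(k8,k36),(k11,k37),(k5,k38),(k0,
    k39),(k9,k40),(k2,k42),(k3,k42),(k4,k42),(k6,k46),(k7,k48)],[(k8,k30),(k11,k31),(k2,k36),(k4,k40),(k6,k40),(k9,
    k40),(k5,k42),(k7,k42),(k0,k43),(k3,k46)],[(k0,k37),(k3,k40),(k2,k42),(k4,k42),(k6,k44),(k7,k44),(k9,k44),(k5,
    k48),(k8,k48),(k11,k49)],[(k3,k34),(k11,k39),(k4,k40),(k8,k42),(k9,k42),(k2,k44),(k6,k44),(k7,k44),(k0,k45),(k5,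
    k46)],[(k11,k37),(k2,k38),(k3,k38),(k4,k40),(k5,k40),(k8,k40),(k9,k40),(k6,k42),(k7,k44),(k0,k49)],[(k4,k30),(k0,
    k33),(k5,k36),(k11,k37),(k9,k40),(k2,k42),(k3,k42),(k6,k42),(k8,k44),(k7,k48)],[(k11,k30),(k4,k31),(k0,k36),(k5,
    k37),(k8,k37),(k9,k37),(k6,k39),(k2,k43),(k3,k45),(k7,k49)],[(k10,k32),(k1,k35)]]
    [[k1,k1,k0,k0,k0,k1],[k1,k0,k1,k0,k0,k1],[k1,k0,k0,k1,k0,k1],[k1,k0,k0,k0,k1,k1],[k0,k1,k1,k0,k1,k0],[k0,k1,k1,k1,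
    k0,k0],[k0,k0,k2,k0,k1,k0],[k0,k0,k1,k0,k2,k0],[k0,k0,k1,k0,k0,k2],[k0,k0,k0,k0,k1,k2]]
    [.ref k24 k0 [(z1,[z0,z1]),(z1,[z2,y1]),(z1,[y2,y1,y2,z4])],.ref k25 k0 [(z1,[z0,z1]),(z1,[y2,z0,y1,z2]),(z1,[z2,
    y1])],.ref k26 k1 [(z1,[z2,z0,y1]),(z1,[z0,z1]),(z1,[z0,z0,z1])],.ref k27 k1 [(z1,[z1,y1]),(z1,[z0,z1]),(z1,[z0,
    z0,z1])],.ref k26 k1 [(z1,[y2,z0,y1,z2]),(z1,[z0,z1]),(z1,[z0,z0,z1])],.ref k27 k1 [(z1,[y1,y1,z0,z1]),(z1,[z0,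
    z1]),(z1,[z0,z0,z1])],.ref k28 k0 [(z1,[z0,z1]),(z1,[y1,y1,y1,z2]),(z1,[z1])],.ref k32 k0 [(z1,[z0,z1]),(z1,[y2,
    y1,y1,z2]),(z1,[z1])],.ref k26 k1 [(z1,[z2,z2,z1,y2]),(z1,[z0,z1]),(z1,[z0,z0,z1])],.ref k27 k1 [(z2,[z1,y1]),(z1,
    [z0,z1]),(z1,[z0,z0,z1])]],
    .base (.leafM k0 [k1,k2,k3,k4,k5,k0] [(z1,[y1,y1,z1])] []),
    .base (.leafM k3 [k2,k3,k4,k5,k0,k1] [(z1,[z1])] [])]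

theorem hB6_90_2 : blkB [0, 0, 0, 0, 0, 1] [] sp6 hS6_90 (pcls (n := 6) [0, 0, 0, 0, 0, 1]) hD6_90 143 2 hN6_90_2 = true := by
  decide +kernel

/-- nodes 36 to 47 -/
noncomputable def hN6_90_3 : List HM :=
  [.base (.leafM k3 [k0,k1,k2,k3,k4,k5] [(z1,[z0,z1])] []),
    .base (.leafM k0 [k0,k1,k2,k3,k4,k5] [(z1,[y1,z0,z1])] []),
    .base (.leafM k0 [k1,k2,k3,k4,k5,k0] [(z1,[y1,y1,z0,z1])] []),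
    .base (.leafM k0 [k1,k2,k3,k4,k5,k0] [(z4,[y1,y1,z0,z4])] []),
    .base (.leafM k3 [k0,k1,k2,k3,k4,k5] [(z2,[y1,z0,y1,z2])] []),
    .base (.spec k2 false k0 [(z1,[z1]),(z3,[z3,z2,z3,z1,y3]),(z1,[z0,z0,z1]),(z3,[y6,y2,y6,y1,z6])]),
    .base (.leafM k0 [k0,k1,k2,k3,k4,k5] [(z3,[z0,z1,z1,z1])] []),
    .lp k0 [(nat_lit 2970),(nat_lit 3584),(nat_lit 3472),(nat_lit 3472),(nat_lit 3584),(nat_lit 2912)] [(nat_lit 307),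
    (nat_lit 307),k0,k0,k56,k56,k56,k56,k0,k0,(nat_lit 336),(nat_lit 336)] k0 [[k0,k0,k112,k0,k0,k0,k0,k0,k0,
    (nat_lit 672),k0,k0],[k0,k0,(nat_lit 560),k0,k0,k0,(nat_lit 672),k0,k0,k0,k0,k0],[k0,k0,k0,k0,(nat_lit 224),k112,
    k0,(nat_lit 224),k0,k0,k0,k0],[(nat_lit 560),k112,k0,k0,k0,k0,k0,k0,(nat_lit 224),k0,k0,k0],[k0,k0,k0,k112,k0,k0,
    k0,k112,(nat_lit 336),(nat_lit 560),k0,k0],[k0,k0,k0,(nat_lit 224),k112,k0,k0,k112,k0,k0,k0,k0],[k0,k0,k0,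
    (nat_lit 224),k112,k112,k0,k0,k0,k0,k0,k0],[(nat_lit 672),k0,k0,k0,k0,k0,k0,k0,(nat_lit 336),(nat_lit 224),k0,k0],
    [k0,(nat_lit 672),k0,k0,k0,(nat_lit 560),(nat_lit 224),k0,k0,k0,k0,k0],[k0,k0,(nat_lit 224),k0,k0,(nat_lit 336),
    (nat_lit 336),k0,k0,k0,k0,k0],[k0,k0,k0,k0,k0,k0,k0,k0,k0,k0,k0,k0],[k0,k0,k0,k0,k0,k0,k0,k0,k0,k0,k0,
    k0]] (nat_lit 10080) k5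
    [[(k10,(nat_lit 2941)),(k1,(nat_lit 2970))],[(k8,(nat_lit 2605)),(k11,(nat_lit 2941)),(k0,(nat_lit 2970)),(k5,
    (nat_lit 3109)),(k4,(nat_lit 3221)),(k7,(nat_lit 3221)),(k3,(nat_lit 3277)),(k9,(nat_lit 3277)),(k2,
    (nat_lit 3837)),(k6,(nat_lit 3893))],[(k9,(nat_lit 2912)),(k5,(nat_lit 2968)),(k0,(nat_lit 3277)),(k4,
    (nat_lit 3528)),(k6,(nat_lit 3528)),(k7,(nat_lit 3528)),(k3,(nat_lit 3584)),(k8,(nat_lit 3584)),(k2,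
    (nat_lit 3696)),(k11,(nat_lit 3920))],[(k11,(nat_lit 3248)),(k6,(nat_lit 3304)),(k7,(nat_lit 3304)),(k4,
    (nat_lit 3416)),(k5,(nat_lit 3528)),(k2,(nat_lit 3584)),(k9,(nat_lit 3584)),(k3,(nat_lit 3696)),(k8,
    (nat_lit 3808)),(k0,(nat_lit 3837))],[(k3,(nat_lit 2968)),(k11,(nat_lit 2968)),(k0,(nat_lit 3109)),(k5,
    (nat_lit 3472)),(k6,(nat_lit 3472)),(k2,(nat_lit 3528)),(k8,(nat_lit 3528)),(k7,(nat_lit 3584)),(k4,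
    (nat_lit 3696)),(k9,(nat_lit 3752))],[(k11,(nat_lit 2856)),(k8,(nat_lit 2968)),(k0,(nat_lit 3221)),(k6,
    (nat_lit 3360)),(k2,(nat_lit 3416)),(k7,(nat_lit 3472)),(k3,(nat_lit 3528)),(k4,(nat_lit 3584)),(k9,
    (nat_lit 3640)),(k5,(nat_lit 3696))],[(k0,(nat_lit 3221)),(k2,(nat_lit 3304)),(k6,(nat_lit 3360)),(k7,
    (nat_lit 3360)),(k4,(nat_lit 3472)),(k3,(nat_lit 3528)),(k5,(nat_lit 3584)),(k9,(nat_lit 3640)),(k11,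
    (nat_lit 3752)),(k8,(nat_lit 3864))],[(k2,(nat_lit 3304)),(k4,(nat_lit 3360)),(k7,(nat_lit 3360)),(k11,
    (nat_lit 3416)),(k5,(nat_lit 3472)),(k6,(nat_lit 3472)),(k3,(nat_lit 3528)),(k9,(nat_lit 3528)),(k8,
    (nat_lit 3864)),(k0,(nat_lit 3893))],[(k3,(nat_lit 2912)),(k11,(nat_lit 2912)),(k0,(nat_lit 3277)),(k8,
    (nat_lit 3360)),(k6,(nat_lit 3528)),(k2,(nat_lit 3584)),(k9,(nat_lit 3584)),(k4,(nat_lit 3640)),(k7,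
    (nat_lit 3640)),(k5,(nat_lit 3752))],[(k0,(nat_lit 2605)),(k4,(nat_lit 2968)),(k11,(nat_lit 3248)),(k9,
    (nat_lit 3360)),(k5,(nat_lit 3528)),(k3,(nat_lit 3584)),(k8,(nat_lit 3584)),(k2,(nat_lit 3808)),(k6,
    (nat_lit 3864)),(k7,(nat_lit 3864))],[(k4,(nat_lit 2856)),(k9,(nat_lit 2912)),(k11,(nat_lit 2912)),(k0,
    (nat_lit 2941)),(k5,(nat_lit 2968)),(k2,(nat_lit 3248)),(k8,(nat_lit 3248)),(k6,(nat_lit 3416)),(k7,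
    (nat_lit 3752)),(k3,(nat_lit 3920))],[(k10,(nat_lit 2912)),(k1,(nat_lit 2941))]]
    [[k2,k0,k1,k0,k0,k0],[k2,k0,k0,k0,k1,k0],[k1,k1,k0,k0,k0,k1],[k1,k0,k1,k0,k0,k1],[k1,k0,k0,k1,k0,k1],[k1,k0,k0,k0,
    k1,k1],[k0,k1,k1,k1,k0,k0],[k0,k1,k1,k0,k1,k0],[k0,k0,k1,k0,k0,k2],[k0,k0,k0,k0,k1,k2]]
    [.ref k5 k0 [(z2,[z3,z0,z0,y1]),(z3,[y9,z2,z1,z3]),(z1,[z0,z0,z0,z1]),(z3,[z18,y4,z0,y6,z1]),(z3,[z0,y1,y1,y3,y1,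
    z9])],.ref k5 k0 [(z6,[z9,z1,z1,z3,z1,y9]),(z3,[y9,z1,z0,y3,y1,z9]),(z1,[z0,z0,z0,z1]),(z3,[z18,y2,z2,z6,z3,y18]),
    (z3,[z0,y1,y1,y3,y1,z9])],.ref k5 k0 [(z12,[y9,z5,z1]),(z6,[z9,y1,z1]),(z1,[z0,z0,z0,z1]),(z3,[y9,z1,z1,z0,z1]),
    (z3,[z0,y1,y1,y3,y1,z9])],.ref k5 k0 [(z2,[y3,z1,z0,z1]),(z3,[z9,y1,z1,y3]),(z1,[z0,z0,z0,z1]),(z3,[y18,z2,z0,z6,
    z1]),(z3,[z0,y1,y1,y3,y1,z9])],.ref k5 k0 [(z6,[z9,z1,z0,z0,y1]),(z3,[y9,z1,z1,z0,z1]),(z1,[z0,z0,z0,z1]),(z3,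
    [z18,y2,z0,z0,y1]),(z3,[z0,y1,y1,y3,y1,z9])],.ref k5 k0 [(z6,[y9,z2,y1,y3,y1,z9]),(z3,[z9,z0,z2,z3,z1,y9]),(z1,
    [z0,z0,z0,z1]),(z3,[y18,z0,y2,y6,y1,z18]),(z3,[z0,y1,y1,y3,y1,z9])],.ref k5 k0 [(z6,[z9,z2,y1,y3,y1]),(z3,[y9,z0,
    z2,z3,z1]),(z1,[z0,z0,z0,z1]),(z3,[z18,z0,y2,y6,y1]),(z3,[z0,y1,y1,y3,y1,z9])],.ref k5 k0 [(z6,[y9,z1,z0,z0,y1,
    z9]),(z3,[z9,z1,z1,z0,z1,y9]),(z1,[z0,z0,z0,z1]),(z3,[y18,y2,z0,z0,y1,z18]),(z3,[z0,y1,y1,y3,y1,z9])],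
    .ref k5 k0 [(z6,[y3,z2,z0,z1]),(z3,[z3,z0,z1,y1]),(z1,[z0,z0,z0,z1]),(z3,[y6,z0,z0,z2,z1]),(z3,[z0,y1,y1,y3,y1,
    z9])],.ref k5 k0 [(z18,[y9,z5,y1,y3,y1,z9]),(z9,[z9,z1,z4,z3,z1,y9]),(z1,[z0,z0,z0,z1]),(z9,[y18,y2,y2,y6,z1,
    z18]),(z3,[z0,y1,y1,y3,y1,z9])]],
    .lp k0 [k96,k122,k124,k132,k130,k110] [k18,k18,k5,k5,k4,k4,k0,k0,k1,k1,k11,k11] k0 [[k0,k0,k20,k14,k0,k8,k0,k0,k0,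
    k0,k0,k0],[k0,k0,k0,k0,k0,k22,k14,k24,k26,k0,k0,k0],[k0,k14,k0,k0,k12,k0,k0,k0,k0,k8,k0,k0],[k0,k20,k0,k0,k12,k0,
    k0,k8,k0,k0,k0,k0],[k22,k8,k0,k0,k0,k0,k10,k8,k0,k8,k0,k0],[k0,k0,k12,k12,k0,k0,k0,k0,k0,k8,k0,k0],[k24,k0,k8,k0,
    k0,k8,k0,k0,k0,k0,k0,k0],[k14,k0,k0,k0,k0,k10,k0,k0,k2,k0,k0,k0],[k0,k0,k0,k8,k8,k8,k0,k0,k0,k0,k0,k0],[k26,k0,k0,
    k0,k0,k0,k2,k0,k0,k0,k0,k0],[k0,k0,k0,k0,k0,k0,k0,k0,k0,k0,k0,k0],[k0,k0,k0,k0,k0,k0,k0,k0,k0,k0,k0,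
    k0]] (nat_lit 360) k5
    [[(k1,k96),(k10,k103)],[(k5,k90),(k2,k95),(k0,k96),(k4,k102),(k11,k103),(k3,k109),(k6,k128),(k7,k136),(k9,k137),
    (k8,k139)],[(k11,k90),(k4,k101),(k6,k103),(k0,k109),(k9,k112),(k3,k122),(k8,k126),(k7,k135),(k5,k137),(k2,k142)],
    [(k0,k95),(k7,k115),(k11,k116),(k8,k118),(k2,k122),(k5,k123),(k6,k127),(k9,k134),(k4,k135),(k3,k142)],[(k0,k90),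
    (k7,k116),(k6,k120),(k2,k123),(k5,k124),(k11,k125),(k8,k127),(k9,k127),(k4,k136),(k3,k137)],[(k3,k101),(k0,k102),
    (k9,k117),(k8,k119),(k6,k120),(k4,k124),(k11,k125),(k7,k128),(k2,k135),(k5,k136)],[(k2,k115),(k5,k116),(k8,k123),
    (k4,k128),(k11,k129),(k7,k132),(k3,k135),(k0,k136),(k9,k139),(k6,k142)],[(k3,k103),(k4,k120),(k5,k120),(k11,k121),
    (k2,k127),(k0,k128),(k9,k131),(k6,k132),(k8,k133),(k7,k142)],[(k3,k112),(k4,k117),(k11,k118),(k5,k127),(k8,k130),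
    (k9,k130),(k6,k131),(k2,k134),(k0,k137),(k7,k139)],[(k2,k118),(k4,k119),(k11,k120),(k7,k123),(k3,k126),(k5,k127),
    (k8,k130),(k9,k130),(k6,k133),(k0,k139)],[(k3,k90),(k0,k103),(k11,k110),(k2,k116),(k9,k118),(k8,k120),(k6,k121),
    (k4,k125),(k5,k125),(k7,k129)],[(k1,k103),(k10,k110)]]
    [[k2,k1,k0,k0,k0,k0],[k2,k0,k1,k0,k0,k0],[k1,k1,k0,k0,k0,k1],[k1,k0,k1,k0,k0,k1],[k0,k1,k1,k1,k0,k0],[k0,k1,k1,k0,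
    k1,k0],[k0,k1,k0,k0,k0,k2],[k0,k0,k0,k0,k1,k2]]
    [.ref k21 k0 [(z2,[z3,z0,y1]),(z1,[z0,z0,z1]),(z3,[y3,z2,z1,z3]),(z1,[z0,y1,y1,y3,z3])],.ref k41 k0 [(z2,[z1,z0,
    z0,y1]),(z1,[z0,z0,z1]),(z1,[z0,z0,z0,z1]),(z1,[z0,y1,y1,y3,z3])],.ref k42 k0 [(z1,[z3,z0,y1]),(z1,[z0,z0,z1]),
    (z1,[y6,z2,z2,z3]),(z1,[z0,y1,y1,y3,z3])],.ref k42 k0 [(z1,[y3,z2,z0,z3]),(z1,[z0,z0,z1]),(z1,[z6,y2,z0,y3]),(z1,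
    [z0,y1,y1,y3,z3])],.ref k42 k0 [(z2,[y3,z1,z0,z0,z3]),(z1,[z0,z0,z1]),(z1,[z3,z1,z0,z3,y3]),(z1,[z0,y1,y1,y3,
    z3])],.ref k42 k0 [(z1,[y3,z1,z1,z3]),(z1,[z0,z0,z1]),(z1,[z6,z0,y2,y3]),(z1,[z0,y1,y1,y3,z3])],.ref k41 k0 [(z6,
    [y3,z2,z1]),(z1,[z0,z0,z1]),(z1,[z0,z0,z0,z1]),(z1,[z0,y1,y1,y3,z3])],.ref k43 k1 [(z1,[z3,z1]),(z1,[z3,y2]),(z1,
    [z0,y1,y1,y3,z3]),(z1,[y6,z4,z0,z9])]],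
    .lp k0 [k74,k80,k86,k84,k80,k74] [k6,k6,k3,k3,k0,k0,k1,k1,k3,k3,k6,k6] k0 [[k0,k0,k0,k0,k0,k0,k0,k0,k0,k14,k0,k0],
    [k0,k0,k12,k0,k6,k8,k0,k0,k0,k0,k0,k0],[k0,k0,k0,k0,k2,k2,k0,k2,k2,k0,k0,k0],[k12,k0,k0,k0,k0,k0,k0,k0,k0,k0,k0,
    k0],[k8,k0,k0,k2,k0,k0,k0,k0,k0,k8,k0,k0],[k6,k0,k0,k2,k0,k0,k0,k0,k0,k6,k0,k0],[k0,k0,k0,k2,k0,k0,k0,k0,k0,k12,
    k0,k0],[k0,k0,k0,k0,k0,k0,k0,k0,k0,k0,k0,k0],[k0,k14,k0,k0,k6,k8,k0,k12,k0,k0,k0,k0],[k0,k0,k0,k2,k0,k0,k0,k0,k0,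
    k0,k0,k0],[k0,k0,k0,k0,k0,k0,k0,k0,k0,k0,k0,k0],[k0,k0,k0,k0,k0,k0,k0,k0,k0,k0,k0,k0]] (nat_lit 240) k5
    [[(k1,k74),(k10,k74)],[(k8,k63),(k0,k74),(k11,k74),(k3,k77),(k9,k77),(k6,k79),(k5,k80),(k4,k86),(k7,k87),(k2,
    k89)],[(k5,k71),(k4,k75),(k7,k76),(k0,k77),(k2,k80),(k3,k80),(k8,k80),(k9,k80),(k6,k82),(k11,k91)],[(k11,k75),(k2,
    k80),(k3,k80),(k6,k80),(k7,k80),(k8,k80),(k9,k80),(k4,k81),(k5,k83),(k0,k89)],[(k3,k71),(k0,k80),(k11,k80),(k2,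
    k83),(k6,k85),(k8,k85),(k9,k85),(k5,k86),(k7,k87),(k4,k88)],[(k3,k75),(k8,k75),(k2,k81),(k9,k83),(k6,k85),(k7,
    k85),(k0,k86),(k4,k86),(k11,k86),(k5,k88)],[(k3,k76),(k8,k76),(k2,k80),(k9,k82),(k6,k84),(k7,k84),(k4,k85),(k0,
    k87),(k5,k87),(k11,k87)],[(k8,k70),(k0,k79),(k11,k79),(k2,k80),(k3,k82),(k9,k82),(k6,k84),(k7,k84),(k4,k85),(k5,
    k85)],[(k0,k77),(k2,k80),(k3,k80),(k8,k80),(k9,k80),(k6,k82),(k7,k82),(k4,k83),(k5,k85),(k11,k89)],[(k0,k63),(k6,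
    k70),(k4,k75),(k7,k76),(k11,k77),(k2,k80),(k3,k80),(k8,k80),(k9,k80),(k5,k85)],[(k0,k74),(k11,k74),(k2,k75),(k8,
    k77),(k6,k79),(k5,k80),(k4,k86),(k7,k87),(k9,k89),(k3,k91)],[(k1,k74),(k10,k74)]]
    [[k2,k0,k0,k0,k1,k0],[k1,k1,k0,k0,k0,k1],[k1,k0,k0,k0,k1,k1],[k0,k2,k1,k0,k0,k0],[k0,k2,k0,k1,k0,k0],[k0,k1,k1,k1,
    k0,k0],[k0,k1,k1,k0,k1,k0],[k0,k1,k0,k1,k1,k0],[k0,k0,k0,k2,k1,k0],[k0,k0,k0,k1,k2,k0]]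
    [.ref k32 k0 [(z1,[z1]),(z1,[y1,z2,z1]),(z1,[z0,y1,y1,z1])],.ref k38 k0 [(z1,[y1,z2,z1]),(z1,[z2,y2,y1]),(z1,[z0,
    y1,y1,z1])],.ref k39 k1 [(z1,[z2,z2,z1]),(z1,[z2,y2,y1]),(z1,[z0,z0,z1])],.ref k40 k1 [(z1,[y1,z1,z0,z1]),(z2,[y1,
    y1,y1,z1]),(z1,[z0,z0,z1])],.ref k44 k0 [(z1,[y1,z3,z2]),(z1,[z2,z0,y1]),(z1,[z0,y1,y1,z1])],.ref k39 k1 [(z1,[y2,
    z2,z1,z2]),(z1,[y2,y2,y1,z2]),(z1,[z0,z0,z1])],.ref k40 k1 [(z1,[y2,z0,y1,z2]),(z1,[y1,y1,y1,z1]),(z1,[z0,z0,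
    z1])],.ref k38 k0 [(z1,[y1,z1,z1]),(z1,[z2,z0,y1]),(z1,[z0,y1,y1,z1])],.ref k40 k1 [(z1,[z2,z2,y1]),(z1,[z1,z0,
    y1]),(z1,[z0,z0,z1])],.ref k39 k1 [(z1,[z2,z4,z1]),(z1,[z2,z0,y1]),(z1,[z0,z0,z1])]],
    .lp k0 [k60,k92,k82,k94,k76,k74] [k20,k20,k8,k0,k9,k9,k5,k1,k12,k12,k13,k13] k0 [[k0,k0,k0,k0,k0,k0,k0,k0,k0,k0,
    k0,k0],[k0,k0,k0,k0,k38,k26,k0,k0,k0,k0,k0,k0],[k0,k0,k0,k0,k2,k0,k0,k0,k0,k20,k0,k0],[k0,k0,k0,k0,k0,k0,k0,k0,k0,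
    k0,k0,k0],[k26,k0,k0,k0,k0,k0,k0,k6,k10,k2,k0,k0],[k38,k0,k0,k2,k0,k0,k0,k2,k0,k0,k0,k0],[k0,k0,k0,k0,k2,k6,k0,k0,
    k4,k16,k0,k0],[k0,k0,k0,k0,k0,k0,k0,k0,k0,k0,k0,k0],[k0,k0,k0,k20,k0,k2,k0,k16,k0,k0,k0,k0],[k0,k0,k0,k0,k0,k10,
    k0,k4,k8,k0,k0,k0],[k0,k0,k0,k0,k0,k0,k0,k0,k0,k0,k0,k0],[k0,k0,k0,k0,k0,k0,k0,k0,k0,k0,k0,k0]] (nat_lit 240) k5
    [[(k1,k60),(k10,k67)],[(k0,k60),(k11,k67),(k8,k68),(k9,k68),(k5,k71),(k2,k72),(k6,k75),(k3,k80),(k7,k105),(k4,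
    k109)],[(k7,k61),(k4,k65),(k0,k80),(k11,k87),(k8,k88),(k9,k88),(k5,k91),(k2,k92),(k6,k95),(k3,k100)],[(k8,k60),
    (k0,k72),(k11,k79),(k9,k80),(k4,k83),(k5,k83),(k2,k84),(k6,k87),(k7,k89),(k3,k92)],[(k0,k71),(k8,k79),(k9,k79),
    (k5,k82),(k2,k83),(k4,k84),(k6,k86),(k7,k90),(k3,k91),(k11,k98)],[(k3,k65),(k11,k68),(k8,k77),(k6,k80),(k9,k81),
    (k4,k82),(k2,k83),(k5,k84),(k7,k90),(k0,k109)],[(k3,k61),(k11,k88),(k2,k89),(k4,k90),(k5,k90),(k6,k92),(k9,k93),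
    (k8,k97),(k7,k98),(k0,k105)],[(k8,k67),(k0,k75),(k11,k78),(k4,k80),(k9,k83),(k5,k86),(k2,k87),(k6,k90),(k7,k92),
    (k3,k95)],[(k0,k68),(k9,k76),(k5,k79),(k2,k80),(k8,k80),(k4,k81),(k6,k83),(k3,k88),(k11,k91),(k7,k93)],[(k2,k60),
    (k6,k67),(k0,k68),(k11,k75),(k4,k77),(k5,k79),(k9,k80),(k8,k84),(k3,k88),(k7,k97)],[(k11,k66),(k0,k67),(k4,k68),
    (k8,k75),(k6,k78),(k2,k79),(k3,k87),(k7,k88),(k9,k91),(k5,k98)],[(k1,k67),(k10,k74)]]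
    [[k2,k1,k0,k0,k0,k0],[k2,k0,k0,k0,k1,k0],[k1,k1,k0,k0,k0,k1],[k1,k0,k1,k0,k0,k1],[k1,k0,k0,k1,k0,k1],[k1,k0,k0,k0,
    k1,k1],[k0,k1,k2,k0,k0,k0],[k0,k1,k1,k0,k1,k0],[k0,k1,k1,k1,k0,k0],[k0,k1,k0,k1,k1,k0],[k0,k1,k0,k0,k2,k0],[k0,k0,
    k1,k1,k1,k0],[k0,k0,k1,k0,k2,k0]]
    [.ref k23 k0 [(z2,[z1,z1,y1]),(z1,[z0,y1,z1])],.ref k33 k0 [(z1,[z1]),(z1,[z0,y1,z1])],.ref k34 k0 [(z1,[z1,z1,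
    y1]),(z1,[z0,y1,z1])],.ref k35 k1 [(z1,[z1]),(z1,[y2,z1,z1])],.ref k36 k1 [(z1,[z2,z1,y1]),(z1,[y1,z0,z1])],
    .ref k37 k0 [(z1,[z1]),(z1,[z0,y1,z1])],.ref k37 k0 [(z2,[y1,z1,z1]),(z1,[z0,y1,z1])],.ref k36 k1 [(z1,[y2,z1,
    z1]),(z1,[z1])],.ref k37 k0 [(z1,[y1,z0,z1]),(z1,[z0,y1,z1])],.ref k35 k1 [(z1,[y1,z0,z1]),(z1,[z2,z1,y1])],
    .ref k35 k1 [(z2,[y1,z1,z1]),(z1,[z1])],.ref k34 k0 [(z1,[y1,z1]),(z1,[z0,y1,z1])],.ref k45 k0 [(z1,[y1,z1]),(z1,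
    [z0,y1,z1])]],
    .base (.leafM k0 [k0,k1,k2,k3,k4,k5] [(z1,[y1,z0,z0,z1])] [])]

theorem hB6_90_3 : blkB [0, 0, 0, 0, 0, 1] [] sp6 hS6_90 (pcls (n := 6) [0, 0, 0, 0, 0, 1]) hD6_90 143 3 hN6_90_3 = true := by
  decide +kernel

/-- nodes 48 to 59 -/
noncomputable def hN6_90_4 : List HM :=
  [.base (.leafM k3 [k0,k1,k2,k3,k4,k5] [(z2,[y1,z0,y1,z2])] []),
    .base (.leafM k0 [k1,k2,k3,k4,k5,k0] [(z1,[y1,y1,z0,z1])] []),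
    .base (.leafM k3 [k2,k3,k4,k5,k0,k1] [(z5,[z0,y1,y1,z5])] []),
    .base (.leafM k3 [k0,k1,k2,k3,k4,k5] [(z3,[y1,z0,y1,z0,z3])] []),
    .base (.leafM k3 [k2,k3,k4,k5,k0,k1] [(z5,[z1,z0,z0,z1])] []),
    .base (.leafM k0 [k1,k2,k3,k4,k5,k0] [(z1,[y1,y1,z0,z0,z1])] []),
    .lp k0 [k40,k40,k40,k40,k44,k34] [k2,k2,k2,k2,k2,k2,k2,k2,k0,k0,k5,k5] k0 [[k0,k0,k0,k0,k0,k0,k0,k0,k0,k12,k0,k0],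
    [k0,k0,k0,k0,k0,k0,k2,k0,k0,k0,k0,k0],[k0,k0,k0,k0,k0,k0,k0,k0,k0,k0,k0,k0],[k0,k0,k0,k0,k0,k0,k0,k0,k2,k0,k0,k0],
    [k0,k0,k0,k0,k0,k0,k0,k0,k0,k4,k0,k0],[k0,k0,k0,k0,k0,k0,k0,k0,k0,k0,k0,k0],[k0,k0,k0,k0,k0,k0,k0,k0,k0,k0,k0,k0],
    [k2,k0,k0,k0,k0,k0,k0,k0,k0,k8,k0,k0],[k0,k12,k0,k0,k0,k4,k8,k0,k0,k0,k0,k0],[k0,k0,k2,k0,k0,k0,k0,k0,k0,k0,k0,
    k0],[k0,k0,k0,k0,k0,k0,k0,k0,k0,k0,k0,k0],[k0,k0,k0,k0,k0,k0,k0,k0,k0,k0,k0,k0]] k120 k5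
    [[(k10,k37),(k1,k40)],[(k8,k30),(k11,k37),(k0,k40),(k2,k40),(k3,k40),(k4,k40),(k5,k40),(k7,k40),(k6,k42),(k9,
    k42)],[(k0,k40),(k2,k40),(k3,k40),(k4,k40),(k5,k40),(k6,k40),(k7,k40),(k9,k40),(k8,k42),(k11,k49)],[(k11,k37),(k0,
    k40),(k2,k40),(k3,k40),(k4,k40),(k5,k40),(k6,k40),(k7,k40),(k9,k42),(k8,k44)],[(k11,k35),(k0,k40),(k2,k40),(k3,
    k40),(k4,k40),(k5,k40),(k6,k40),(k7,k40),(k8,k42),(k9,k42)],[(k11,k37),(k8,k38),(k0,k40),(k2,k40),(k3,k40),(k4,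
    k40),(k5,k40),(k6,k40),(k7,k40),(k9,k42)],[(k0,k40),(k2,k40),(k3,k40),(k4,k40),(k5,k40),(k6,k40),(k7,k40),(k11,
    k41),(k8,k42),(k9,k42)],[(k2,k40),(k3,k40),(k4,k40),(k5,k40),(k6,k40),(k7,k40),(k0,k42),(k8,k42),(k9,k42),(k11,
    k45)],[(k8,k36),(k11,k39),(k3,k40),(k0,k42),(k2,k42),(k4,k42),(k5,k42),(k6,k42),(k7,k42),(k9,k44)],[(k0,k30),(k9,
    k36),(k4,k38),(k11,k39),(k3,k42),(k5,k42),(k6,k42),(k7,k42),(k2,k44),(k8,k44)],[(k11,k34),(k5,k35),(k0,k37),(k2,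
    k37),(k4,k37),(k8,k39),(k9,k39),(k7,k41),(k6,k45),(k3,k49)],[(k10,k34),(k1,k37)]]
    [[k2,k0,k0,k0,k1,k0],[k1,k1,k0,k0,k0,k1],[k1,k0,k1,k0,k0,k1],[k1,k0,k0,k0,k1,k1],[k0,k1,k1,k0,k1,k0],[k0,k0,k1,k0,
    k2,k0],[k0,k0,k1,k0,k0,k2],[k0,k0,k0,k0,k3,k0],[k0,k0,k0,k0,k1,k2]]
    [.ref k5 k0 [(z4,[y2,z7,y2,y1,y2,z2]),(z2,[z2,y1,z8,z1,z2,y2]),(z4,[y14,z7,y14,y1,y14,z14]),(z1,[y2,z1,y2,y1,z1,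
    z2]),(z2,[z8,y7,z2,z1,z2,y2])],.ref k5 k0 [(z1,[y1,z2,z1]),(z1,[z2,y1,z1]),(z2,[y14,z7,z14,z3]),(z1,[y4,z2,z4,z0,
    z3]),(z2,[z16,y11,y22,y3,y6,z6])],.ref k5 k0 [(z4,[z2,z5,z0,y1]),(z2,[y2,z1,z6,z1]),(z4,[z14,y7,z0,y1]),(z1,[z2,
    y1,z0,y1,z3]),(z2,[y8,z1,y6,z1,y6,z6])],.ref k5 k0 [(z6,[y2,z9,y2,y1,y2,z2]),(z3,[z2,z0,z11,z1,z2,y2]),(z3,[y7,z0,
    y7,z1,y7,z7]),(z3,[y4,z0,y4,y2,z5,z4]),(z6,[z16,y9,y2,y1,y2,z2])],.ref k5 k0 [(z1,[y1,z1,z0,z0,y1,z1]),(z1,[z2,z1,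
    z3,z0,z2,y2]),(z2,[y14,y7,z0,z3,y14,z14]),(z1,[y4,y2,z0,z0,y1,z4]),(z2,[z16,z5,y6,y3,z10,y10])],.ref k5 k0 [(z6,
    [y2,z7,y4,y1,y4,z4]),(z3,[z2,z2,z13,z1,z4,y4]),(z3,[y7,y7,y14,z1,y14,z14]),(z3,[y4,y4,y8,y2,z1,z8]),(z6,[z16,z7,
    z14,y1,z14,y14])],.ref k5 k0 [(z2,[z2,z3,z0,y1]),(z1,[y2,z0,z3,z1]),(z1,[z7,z0,z0,y2]),(z1,[z4,z0,z0,y2,z3]),(z2,
    [y16,y3,y6,z5,y6,z6])],.ref k5 k0 [(z16,[y2,z21,y6,y3,y6,z6]),(z8,[z2,z3,z30,z3,z6,y6]),(z16,[y14,y21,y42,z3,y42,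
    z42]),(z4,[y2,y3,y6,y3,z6,z6]),(z1,[z1])],.ref k5 k0 [(z8,[y2,z11,y2,y1,y2,z2]),(z4,[z2,z1,z14,z1,z2,y2]),(z8,
    [y14,y7,y14,z5,y14,z14]),(z2,[y2,y1,y2,y1,z4,z2]),(z2,[z4,y1,y2,y1,y2,z2])]],
    .base (.spec k11 false k0 [(z1,[z2,z1]),(z1,[y1,z0,z1]),(z1,[y1,y1,y1,z1,z1]),(z1,[z0,z0,z0,y1])]),
    .lp k0 [k34,k46,k44,k42,k38,k34] [k6,k6,k0,k0,k1,k1,k2,k2,k4,k4,k6,k6] k0 [[k0,k0,k0,k0,k0,k0,k0,k0,k2,k6,k0,k0],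
    [k0,k0,k6,k6,k2,k10,k0,k0,k0,k0,k0,k0],[k6,k0,k0,k0,k0,k0,k2,k2,k0,k4,k0,k0],[k6,k0,k0,k0,k0,k0,k0,k0,k0,k0,k0,
    k0],[k10,k0,k0,k0,k0,k0,k2,k2,k0,k0,k0,k0],[k2,k0,k0,k0,k0,k0,k0,k0,k0,k4,k0,k0],[k0,k0,k0,k2,k0,k2,k0,k0,k6,k0,
    k0,k0],[k0,k0,k0,k2,k0,k2,k0,k0,k6,k0,k0,k0],[k0,k6,k0,k4,k4,k0,k0,k0,k0,k0,k0,k0],[k0,k2,k0,k0,k0,k0,k6,k6,k0,k0,
    k0,k0],[k0,k0,k0,k0,k0,k0,k0,k0,k0,k0,k0,k0],[k0,k0,k0,k0,k0,k0,k0,k0,k0,k0,k0,k0]] k120 k5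
    [[(k1,k34),(k10,k34)],[(k8,k30),(k11,k32),(k0,k34),(k9,k36),(k6,k38),(k3,k40),(k4,k41),(k5,k45),(k2,k46),(k7,
    k48)],[(k4,k35),(k5,k39),(k0,k40),(k2,k40),(k7,k42),(k9,k42),(k6,k44),(k8,k44),(k3,k46),(k11,k46)],[(k8,k38),(k3,
    k40),(k9,k40),(k11,k40),(k6,k42),(k7,k44),(k4,k45),(k5,k45),(k0,k46),(k2,k46)],[(k3,k39),(k8,k41),(k7,k43),(k9,
    k43),(k11,k43),(k4,k44),(k5,k44),(k0,k45),(k2,k45),(k6,k45)],[(k3,k35),(k9,k39),(k0,k41),(k6,k41),(k8,k41),(k7,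
    k43),(k11,k43),(k4,k44),(k5,k44),(k2,k45)],[(k8,k36),(k11,k38),(k3,k42),(k7,k42),(k9,k42),(k4,k43),(k5,k43),(k2,
    k44),(k6,k44),(k0,k48)],[(k11,k32),(k0,k38),(k9,k40),(k4,k41),(k2,k42),(k6,k42),(k3,k44),(k7,k44),(k5,k45),(k8,
    k46)],[(k11,k30),(k0,k36),(k9,k38),(k4,k39),(k2,k40),(k6,k40),(k3,k42),(k7,k42),(k5,k43),(k8,k44)],[(k0,k30),(k7,
    k36),(k11,k36),(k2,k38),(k8,k38),(k4,k41),(k5,k41),(k3,k44),(k9,k44),(k6,k46)],[(k9,k30),(k0,k32),(k6,k32),(k11,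
    k34),(k8,k36),(k7,k38),(k2,k40),(k4,k43),(k5,k43),(k3,k46)],[(k1,k34),(k10,k34)]]
    [[k2,k0,k0,k0,k1,k0],[k1,k1,k0,k0,k0,k1],[k1,k0,k1,k0,k0,k1],[k1,k0,k0,k1,k0,k1],[k1,k0,k0,k0,k1,k1],[k0,k1,k1,k0,
    k1,k0],[k0,k0,k0,k1,k0,k2],[k0,k0,k0,k0,k1,k2]]
    [.ref k51 k0 [(z2,[y1,z1]),(z4,[z4,y1,z3]),(z8,[y20,z5,z0,z3]),(z8,[y16,z1,y6,y3,z24])],.ref k31 k0 [(z4,[y4,z1,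
    z1]),(z4,[z8,y1,y1]),(z8,[y40,z5,z10,z1]),(z8,[y32,z3,z6,y1,z8])],.ref k51 k0 [(z16,[z8,z5,z0,y1]),(z8,[y8,z1,z6,
    z1]),(z16,[z40,y5,z0,z1]),(z8,[z16,y5,y6,y5,z24])],.ref k52 k0 [(z8,[z8,z5,z2,z1,y8]),(z4,[y8,z0,z3,y1,z8]),(z4,
    [z4,z0,z1,z1,y4]),(z8,[z32,y5,y2,y1,z8])],.ref k53 k1 [(z1,[z1,y1]),(z1,[z0,z1]),(z8,[z0,y5,y2,y1,z8]),(z8,[y8,z3,
    z0,z1])],.ref k52 k0 [(z8,[y8,z5,z2,z1]),(z4,[z8,z0,z3,y1]),(z4,[y4,z0,z1,z1]),(z8,[y32,y5,y2,y1,z40])],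
    .ref k54 k0 [(z16,[z8,z5,z2,z1,y8]),(z16,[y8,y1,z2,y1,z8]),(z16,[z40,z5,z10,z9,y40]),(z1,[z1])],.ref k55 k1 [(z2,
    [z1,y1]),(z1,[z0,z1]),(z8,[z0,y5,y2,y1,z8]),(z8,[y4,y1,z0,z1])]],
    .lp k0 [k36,k42,k42,k40,k42,k36] [k3,k3,k0,k0,k0,k0,k1,k1,k0,k0,k4,k2] k0 [[k0,k0,k2,k0,k0,k0,k0,k0,k2,k6,k0,k0],
    [k0,k0,k6,k0,k0,k0,k8,k0,k0,k0,k0,k0],[k0,k0,k0,k0,k2,k2,k6,k2,k0,k0,k0,k0],[k6,k2,k0,k0,k0,k0,k0,k0,k4,k0,k0,k0],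
    [k0,k0,k0,k2,k0,k0,k0,k0,k0,k6,k0,k0],[k0,k0,k0,k2,k0,k0,k4,k0,k0,k10,k0,k0],[k0,k0,k0,k2,k0,k0,k0,k0,k0,k6,k0,
    k0],[k8,k0,k0,k6,k4,k0,k0,k0,k0,k2,k0,k0],[k0,k6,k0,k0,k10,k6,k2,k6,k0,k0,k0,k0],[k0,k2,k4,k0,k0,k0,k0,k0,k8,k0,
    k0,k0],[k0,k0,k0,k0,k0,k0,k0,k0,k0,k0,k0,k0],[k0,k0,k0,k0,k0,k0,k0,k0,k0,k0,k0,k0]] k120 k5
    [[(k10,k35),(k1,k36)],[(k8,k33),(k11,k35),(k0,k36),(k5,k37),(k7,k38),(k3,k39),(k4,k39),(k9,k39),(k2,k45),(k6,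
    k46)],[(k9,k34),(k5,k36),(k0,k39),(k6,k41),(k7,k41),(k3,k42),(k4,k42),(k2,k44),(k8,k44),(k11,k46)],[(k9,k36),(k6,
    k39),(k7,k39),(k4,k40),(k11,k40),(k2,k42),(k5,k42),(k3,k44),(k0,k45),(k8,k46)],[(k3,k36),(k11,k36),(k0,k37),(k2,
    k42),(k5,k42),(k8,k42),(k7,k43),(k4,k44),(k9,k44),(k6,k47)],[(k8,k36),(k0,k39),(k2,k40),(k7,k41),(k3,k42),(k4,
    k42),(k9,k42),(k5,k44),(k6,k45),(k11,k50)],[(k8,k31),(k9,k37),(k0,k38),(k2,k39),(k6,k40),(k7,k40),(k3,k41),(k4,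
    k41),(k5,k43),(k11,k45)],[(k8,k35),(k2,k39),(k6,k40),(k7,k40),(k3,k41),(k9,k41),(k11,k41),(k4,k45),(k0,k46),(k5,
    k47)],[(k3,k34),(k2,k36),(k7,k37),(k0,k39),(k8,k40),(k6,k41),(k4,k42),(k9,k42),(k5,k44),(k11,k46)],[(k7,k31),(k0,
    k33),(k6,k35),(k4,k36),(k9,k40),(k11,k40),(k5,k42),(k3,k44),(k2,k46),(k8,k50)],[(k11,k30),(k0,k35),(k5,k36),(k2,
    k40),(k8,k40),(k6,k41),(k7,k45),(k3,k46),(k9,k46),(k4,k50)],[(k10,k34),(k1,k35)]]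
    [[k2,k0,k1,k0,k0,k0],[k2,k0,k0,k0,k1,k0],[k1,k1,k0,k0,k0,k1],[k1,k0,k1,k0,k0,k1],[k1,k0,k0,k1,k0,k1],[k1,k0,k0,k0,
    k1,k1],[k0,k1,k1,k1,k0,k0],[k0,k1,k1,k0,k1,k0],[k0,k1,k0,k1,k1,k0],[k0,k0,k0,k2,k1,k0],[k0,k0,k0,k1,k2,k0]]
    [.ref k47 k0 [(z2,[y2,z1,y1,z2]),(z2,[z4,y1,z3,y4]),(z1,[z3,y1,z1,y2])],.ref k48 k0 [(z1,[z1]),(z2,[y2,z1,z1]),
    (z1,[y3,z1,y1,z2])],.ref k49 k0 [(z2,[y2,z1,z1]),(z2,[z4,y1,y1]),(z1,[z3,y1,y2,z1])],.ref k48 k0 [(z2,[y2,z1,y1,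
    z2]),(z1,[z1,z0,z1,y1]),(z2,[z6,y1,z1,y2])],.ref k50 k0 [(z1,[z1,z1]),(z2,[y4,z1,z5]),(z2,[y6,y1,y5,z10])],
    .ref k47 k0 [(z1,[z1]),(z2,[y4,z1,z1]),(z2,[y6,z1,y1,z2])],.ref k47 k0 [(z1,[y1,z0,z0,z1]),(z2,[z4,z1,z1,y4]),(z2,
    [z6,z1,y1,y4])],.ref k50 k0 [(z1,[y1,z1,z0,z1]),(z2,[z4,z1,z5,y4]),(z2,[z6,y1,y5,z4])],.ref k48 k0 [(z2,[z2,z1,
    y1]),(z1,[y1,z0,z1]),(z2,[y6,y1,z1,z4])],.ref k56 k0 [(z1,[z1,z2]),(z1,[y1,z0,z2]),(z1,[y3,y2,y4,z8])],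
    .ref k48 k0 [(z2,[z1,z1]),(z2,[y1,z0,z1]),(z2,[y3,y1,y2,z4])]],
    .base (.leafM k3 [k0,k1,k2,k3,k4,k5] [(z1,[y1,z0,y1,z1])] []),
    .base (.leafM k0 [k1,k2,k3,k4,k5,k0] [(z1,[y1,y1,z0,z1])] [])]

theorem hB6_90_4 : blkB [0, 0, 0, 0, 0, 1] [] sp6 hS6_90 (pcls (n := 6) [0, 0, 0, 0, 0, 1]) hD6_90 143 4 hN6_90_4 = true := by
  decide +kernel

/-- nodes 60 to 71 -/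
noncomputable def hN6_90_5 : List HM :=
  [.lp k0 [k66,k84,k84,k92,k80,k70] [k10,k16,k4,k4,k4,k4,k0,k0,k6,k6,k11,k11] k0 [[k0,k0,k0,k0,k0,k0,k0,k0,k0,k16,k0,
    k0],[k0,k0,k0,k0,k24,k12,k4,k0,k0,k0,k0,k0],[k0,k0,k0,k0,k0,k0,k0,k4,k0,k0,k0,k0],[k0,k0,k0,k0,k4,k0,k0,k0,k8,k0,
    k0,k0],[k12,k0,k0,k0,k0,k0,k0,k0,k0,k8,k0,k0],[k24,k0,k4,k0,k0,k0,k4,k0,k0,k0,k0,k0],[k0,k0,k0,k4,k0,k0,k0,k4,k0,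
    k0,k0,k0],[k4,k0,k0,k0,k4,k0,k0,k0,k8,k0,k0,k0],[k0,k16,k0,k0,k0,k8,k0,k0,k0,k0,k0,k0],[k0,k0,k8,k0,k0,k0,k8,k0,
    k0,k0,k0,k0],[k0,k0,k0,k0,k0,k0,k0,k0,k0,k0,k0,k0],[k0,k0,k0,k0,k0,k0,k0,k0,k0,k0,k0,k0]] (nat_lit 240) k5
    [[(k1,k60),(k10,k65)],[(k8,k60),(k11,k71),(k0,k72),(k9,k76),(k2,k78),(k3,k78),(k5,k78),(k6,k86),(k7,k94),(k4,
    k102)],[(k7,k64),(k4,k72),(k0,k78),(k9,k78),(k8,k82),(k2,k84),(k3,k84),(k5,k84),(k6,k88),(k11,k93)],[(k11,k77),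
    (k0,k78),(k9,k82),(k2,k84),(k3,k84),(k5,k84),(k6,k84),(k4,k88),(k7,k88),(k8,k90)],[(k11,k69),(k0,k78),(k8,k82),
    (k2,k84),(k3,k84),(k4,k84),(k5,k84),(k7,k84),(k9,k86),(k6,k88)],[(k3,k72),(k8,k74),(k11,k77),(k9,k82),(k4,k84),
    (k5,k84),(k2,k88),(k7,k88),(k6,k92),(k0,k102)],[(k3,k64),(k9,k82),(k5,k84),(k8,k86),(k2,k88),(k4,k88),(k11,k89),
    (k6,k92),(k7,k92),(k0,k94)],[(k11,k81),(k2,k84),(k0,k86),(k9,k86),(k3,k88),(k5,k88),(k6,k88),(k4,k92),(k7,k92),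
    (k8,k94)],[(k11,k67),(k0,k76),(k3,k78),(k8,k80),(k2,k82),(k4,k82),(k7,k82),(k9,k84),(k5,k86),(k6,k86)],[(k0,k60),
    (k4,k74),(k11,k75),(k8,k80),(k9,k80),(k3,k82),(k5,k82),(k7,k86),(k2,k90),(k6,k94)],[(k9,k67),(k5,k69),(k11,k70),
    (k0,k71),(k8,k75),(k2,k77),(k4,k77),(k6,k81),(k7,k89),(k3,k93)],[(k1,k65),(k10,k70)]]
    [[k2,k1,k0,k0,k0,k0],[k2,k0,k0,k0,k1,k0],[k1,k1,k0,k0,k0,k1],[k1,k0,k1,k0,k0,k1],[k1,k0,k0,k0,k1,k1],[k0,k2,k0,k1,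
    k0,k0],[k0,k1,k1,k0,k1,k0],[k0,k0,k1,k0,k0,k2],[k0,k0,k0,k0,k1,k2]]
    [.ref k5 k0 [(z4,[z9,y2,y9]),(z2,[y3,z2,z9]),(z1,[z0,z0,z0,z1]),(z2,[y3,z2,z3,z0,z6]),(z1,[z0,y1,y3,y1,y3,z3])],
    .ref k5 k0 [(z2,[z3,z1,z3,z1,z3,y3]),(z3,[y3,z1,z6,y1,y3,z3]),(z1,[z0,z0,z0,z1]),(z3,[y3,z1,y3,y1,z6,z3]),(z1,[z0,
    y1,y3,y1,y3,z3])],.ref k5 k0 [(z2,[z9,y1,y9]),(z1,[y3,z1,z6]),(z1,[z0,z0,z0,z1]),(z1,[y3,z1,z3,z0,z3]),(z1,[z0,y1,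
    y3,y1,y3,z3])],.ref k5 k0 [(z4,[z9,z1,z0,y3]),(z2,[y3,z1,z6,z1]),(z1,[z0,z0,z0,z1]),(z2,[y3,z1,z0,z1,z6]),(z1,[z0,
    y1,y3,y1,y3,z3])],.ref k5 k0 [(z4,[z9,z4,z9,z3,z9,y9]),(z2,[y3,z0,z3,y1,y3,z3]),(z1,[z0,z0,z0,z1]),(z2,[y3,z0,y3,
    y1,z3,z3]),(z1,[z0,y1,y3,y1,y3,z3])],.ref k5 k0 [(z2,[y3,z2,z6,z0,z3]),(z1,[z1,z0,z1,z0,y1]),(z1,[z0,z0,z0,z1]),
    (z1,[z1,z0,y2,z0,z2]),(z1,[z0,y1,y3,y1,y3,z3])],.ref k5 k0 [(z2,[y9,y1,z0,z0,y9,z9]),(z1,[z3,z1,z3,z0,z3,y3]),(z1,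
    [z0,z0,z0,z1]),(z1,[z3,z1,z0,z0,z6,y3]),(z1,[z0,y1,y3,y1,y3,z3])],.ref k5 k0 [(z2,[z9,z2,z0,y3]),(z1,[y3,z0,z3,
    z1]),(z1,[z0,z0,z0,z1]),(z1,[y3,z0,z0,z1,z3]),(z1,[z0,y1,y3,y1,y3,z3])],.ref k5 k0 [(z2,[z9,z5,z9,z3,z9,y9]),(z1,
    [y3,y1,z0,y1,y3,z3]),(z1,[z0,z0,z0,z1]),(z1,[y3,y1,y3,y1,z0,z3]),(z1,[z0,y1,y3,y1,y3,z3])]],
    .base (.leafM k0 [k1,k2,k3,k4,k5,k0] [(z3,[y1,y1,z0,z0,z3])] []),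
    .base (.leafM k0 [k0,k1,k2,k3,k4,k5] [(z3,[z0,z1,z1,z1])] []),
    .lp k0 [k96,k122,k124,k132,k130,k110] [k18,k18,k5,k5,k4,k4,k0,k0,k1,k1,k11,k11] k0 [[k0,k0,k20,k14,k0,k8,k0,k0,k0,
    k0,k0,k0],[k0,k0,k0,k0,k0,k22,k14,k24,k26,k0,k0,k0],[k0,k14,k0,k0,k12,k0,k0,k0,k0,k8,k0,k0],[k0,k20,k0,k0,k12,k0,
    k0,k8,k0,k0,k0,k0],[k22,k8,k0,k0,k0,k0,k10,k8,k0,k8,k0,k0],[k0,k0,k12,k12,k0,k0,k0,k0,k0,k8,k0,k0],[k24,k0,k8,k0,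
    k0,k8,k0,k0,k0,k0,k0,k0],[k14,k0,k0,k0,k0,k10,k0,k0,k2,k0,k0,k0],[k0,k0,k0,k8,k8,k8,k0,k0,k0,k0,k0,k0],[k26,k0,k0,
    k0,k0,k0,k2,k0,k0,k0,k0,k0],[k0,k0,k0,k0,k0,k0,k0,k0,k0,k0,k0,k0],[k0,k0,k0,k0,k0,k0,k0,k0,k0,k0,k0,
    k0]] (nat_lit 360) k5
    [[(k1,k96),(k10,k103)],[(k5,k90),(k2,k95),(k0,k96),(k4,k102),(k11,k103),(k3,k109),(k6,k128),(k7,k136),(k9,k137),
    (k8,k139)],[(k11,k90),(k4,k101),(k6,k103),(k0,k109),(k9,k112),(k3,k122),(k8,k126),(k7,k135),(k5,k137),(k2,k142)],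
    [(k0,k95),(k7,k115),(k11,k116),(k8,k118),(k2,k122),(k5,k123),(k6,k127),(k9,k134),(k4,k135),(k3,k142)],[(k0,k90),
    (k7,k116),(k6,k120),(k2,k123),(k5,k124),(k11,k125),(k8,k127),(k9,k127),(k4,k136),(k3,k137)],[(k3,k101),(k0,k102),
    (k9,k117),(k8,k119),(k6,k120),(k4,k124),(k11,k125),(k7,k128),(k2,k135),(k5,k136)],[(k2,k115),(k5,k116),(k8,k123),
    (k4,k128),(k11,k129),(k7,k132),(k3,k135),(k0,k136),(k9,k139),(k6,k142)],[(k3,k103),(k4,k120),(k5,k120),(k11,k121),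
    (k2,k127),(k0,k128),(k9,k131),(k6,k132),(k8,k133),(k7,k142)],[(k3,k112),(k4,k117),(k11,k118),(k5,k127),(k8,k130),
    (k9,k130),(k6,k131),(k2,k134),(k0,k137),(k7,k139)],[(k2,k118),(k4,k119),(k11,k120),(k7,k123),(k3,k126),(k5,k127),
    (k8,k130),(k9,k130),(k6,k133),(k0,k139)],[(k3,k90),(k0,k103),(k11,k110),(k2,k116),(k9,k118),(k8,k120),(k6,k121),
    (k4,k125),(k5,k125),(k7,k129)],[(k1,k103),(k10,k110)]]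
    [[k2,k1,k0,k0,k0,k0],[k2,k0,k1,k0,k0,k0],[k1,k1,k0,k0,k0,k1],[k1,k0,k1,k0,k0,k1],[k0,k1,k1,k1,k0,k0],[k0,k1,k1,k0,
    k1,k0],[k0,k1,k0,k0,k0,k2],[k0,k0,k0,k0,k1,k2]]
    [.ref k51 k0 [(z2,[z3,z0,y1]),(z1,[z0,z0,z1]),(z2,[z3,y3,y1,z1]),(z2,[z0,y3,y2,y1,z6])],.ref k60 k1 [(z2,[y6,y3,
    z0,z1]),(z1,[z0,z1]),(z2,[z0,y3,y2,y1,z6]),(z1,[z1])],.ref k61 k0 [(z1,[z3,z0,y1]),(z1,[z0,z0,z1]),(z6,[z6,y3,y2,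
    z1]),(z2,[z0,y3,y2,y1,z6])],.ref k51 k0 [(z4,[z6,z3,z0,y1]),(z1,[z0,z0,z1]),(z4,[z6,y3,z0,z1]),(z2,[z0,y3,y2,y1,
    z6])],.ref k62 k0 [(z1,[z1,z1,z0,z0,y1]),(z1,[z0,z0,z1]),(z2,[z6,z3,z0,z1,y6]),(z2,[z0,y3,y2,y1,z6])],
    .ref k61 k0 [(z2,[y6,z3,z2,z1]),(z1,[z0,z0,z1]),(z3,[y3,z0,z1,z1]),(z2,[z0,y3,y2,y1,z6])],.ref k29 k1 [(z2,[z3,z0,
    y1]),(z1,[z0,z1]),(z2,[z0,y3,y2,y1,z6]),(z6,[y3,y3,z1,z1])],.ref k62 k0 [(z2,[y1,z1]),(z1,[z0,z0,z1]),(z2,[y3,z0,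
    z0,z1]),(z2,[z0,y3,y2,y1,z6])]],
    .base (.leafM k0 [k1,k2,k3,k4,k5,k0] [(z2,[y1,y1,z0,z2])] []),
    .base (.leafM k0 [k0,k1,k2,k3,k4,k5] [(z1,[z0,z1,z1,z1])] []),
    .lp k0 [k142,k164,k160,k164,k168,k158] [k13,k13,k2,k2,k4,k4,k2,k2,k0,k0,k5,k5] k0 [[k0,k0,k16,k12,k0,k8,k0,k0,k4,
    k0,k0,k0],[k0,k0,k0,k0,k0,k16,k16,k16,k12,k0,k0,k0],[k0,k12,k0,k4,k12,k0,k0,k0,k0,k4,k0,k0],[k0,k16,k0,k0,k8,k0,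
    k0,k0,k0,k12,k0,k0],[k16,k8,k0,k0,k0,k0,k4,k4,k0,k0,k0,k0],[k0,k0,k8,k12,k4,k0,k0,k0,k0,k0,k0,k0],[k16,k0,k0,k0,
    k0,k4,k0,k0,k0,k0,k0,k0],[k16,k0,k0,k0,k0,k4,k0,k0,k12,k0,k0,k0],[k0,k0,k12,k4,k0,k0,k0,k0,k0,k0,k0,k0],[k12,k4,
    k0,k0,k0,k0,k12,k0,k0,k0,k0,k0],[k0,k0,k0,k0,k0,k0,k0,k0,k0,k0,k0,k0],[k0,k0,k0,k0,k0,k0,k0,k0,k0,k0,k0,
    k0]] (nat_lit 480) k5
    [[(k1,k142),(k10,k150)],[(k5,k135),(k2,k141),(k0,k142),(k4,k143),(k11,k146),(k3,k153),(k8,k167),(k6,k169),(k7,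
    k169),(k9,k171)],[(k4,k146),(k6,k148),(k11,k149),(k9,k150),(k0,k153),(k3,k164),(k8,k170),(k7,k172),(k5,k174),(k2,
    k180)],[(k0,k141),(k7,k152),(k2,k160),(k5,k162),(k8,k162),(k6,k164),(k9,k166),(k4,k170),(k11,k173),(k3,k180)],
    [(k0,k135),(k8,k152),(k7,k154),(k2,k162),(k6,k162),(k11,k163),(k5,k164),(k9,k164),(k4,k172),(k3,k174)],[(k0,k143),
    (k3,k146),(k6,k158),(k11,k159),(k9,k160),(k7,k162),(k4,k164),(k8,k164),(k2,k170),(k5,k172)],[(k2,k152),(k5,k154),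
    (k7,k160),(k11,k161),(k4,k162),(k8,k166),(k6,k168),(k0,k169),(k9,k170),(k3,k172)],[(k3,k148),(k4,k158),(k11,k161),
    (k5,k162),(k2,k164),(k6,k164),(k9,k166),(k7,k168),(k0,k169),(k8,k178)],[(k3,k150),(k11,k151),(k4,k160),(k5,k164),
    (k2,k166),(k6,k166),(k8,k168),(k9,k168),(k7,k170),(k0,k171)],[(k5,k152),(k2,k162),(k11,k163),(k4,k164),(k7,k166),
    (k0,k167),(k8,k168),(k9,k168),(k3,k170),(k6,k178)],[(k0,k146),(k3,k149),(k9,k151),(k11,k158),(k4,k159),(k6,k161),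
    (k7,k161),(k5,k163),(k8,k163),(k2,k173)],[(k1,k150),(k10,k158)]]
    [[k2,k1,k0,k0,k0,k0],[k2,k0,k1,k0,k0,k0],[k1,k1,k0,k0,k0,k1],[k1,k0,k1,k0,k0,k1],[k1,k0,k0,k0,k1,k1],[k0,k1,k1,k1,
    k0,k0],[k0,k1,k1,k0,k1,k0],[k0,k1,k0,k2,k0,k0],[k0,k0,k0,k0,k1,k2]]
    [.ref k5 k0 [(z4,[z3,z2,y3]),(z2,[z3,y2,z3]),(z1,[z3,y2,y3,z1]),(z1,[y3,z2,z3,z0,z3]),(z2,[y3,z0,y3,y2,y6,z6])],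
    .ref k5 k0 [(z6,[z3,z4,z0,y1]),(z3,[z3,y2,z9,y1]),(z3,[z6,y4,z0,z1]),(z3,[y6,z4,z0,z2,z9]),(z3,[y3,y1,y9,y2,y9,
    z9])],.ref k5 k0 [(z2,[z3,z1,y3]),(z1,[z3,y1]),(z1,[z6,y2,y6,z1]),(z1,[y6,z2,z6,z0,z3]),(z1,[y3,z0,z0,y1,y3,z3])],
    .ref k5 k0 [(z4,[z3,z3,z0,y1]),(z2,[z3,y1,z6,y1]),(z1,[z3,y1]),(z1,[y3,z1,z0,z1,z3]),(z2,[y3,y1,y6,y1,y6,z6])],
    .ref k5 k0 [(z2,[y3,z2,y3,y1,y3,z3]),(z1,[y3,z0,z0,y1,y3,z3]),(z1,[y6,z0,y6,y1,y6,z6]),(z1,[z6,z0,z6,z2,z9,y6]),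
    (z1,[z3,y1])],.ref k5 k0 [(z2,[z3,z2,y3,y1,y3]),(z1,[z3,z0,z0,y1,y3]),(z1,[z6,z0,y6,y1,y6]),(z1,[y6,z0,z6,z2,z9]),
    (z1,[y3,y1,z0,z0,z0,z3])],.ref k5 k0 [(z4,[z3,z5,z0,z0,z3,y3]),(z2,[z3,z1,z6,z0,z3,y3]),(z1,[z3,z1,z0,z1,z3,y3]),
    (z1,[y3,y1,z0,z0,z0,z3]),(z2,[y3,y3,y6,y2,y9,z9])],.ref k5 k0 [(z2,[y1,z2,z1,z0,z2]),(z1,[y1,z0,z4,z0,z2]),(z1,
    [y2,z0,z2,z1,z4]),(z1,[z2,z0,y2,z0,y1]),(z1,[z1,y1,y4,y1,y5,z3])],.ref k5 k0 [(z4,[y3,z3,y3,y1,y3,z3]),(z2,[y3,y1,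
    z3,y1,y3,z3]),(z1,[y3,y1,y3,z0,y3,z3]),(z1,[z3,z1,z3,z1,z6,y3]),(z2,[z3,y1,y3,y1,y3,z3])]],
    .base (.leafM k3 [k0,k1,k2,k3,k4,k5] [(z5,[y1,z0,y1,z0,z5])] []),
    .lp k0 [k142,k164,k160,k164,k168,k158] [k13,k13,k2,k2,k4,k4,k2,k2,k0,k0,k5,k5] k0 [[k0,k0,k16,k12,k0,k8,k0,k0,k4,
    k0,k0,k0],[k0,k0,k0,k0,k0,k16,k16,k16,k12,k0,k0,k0],[k0,k12,k0,k4,k12,k0,k0,k0,k0,k4,k0,k0],[k0,k16,k0,k0,k8,k0,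
    k0,k0,k0,k12,k0,k0],[k16,k8,k0,k0,k0,k0,k4,k4,k0,k0,k0,k0],[k0,k0,k8,k12,k4,k0,k0,k0,k0,k0,k0,k0],[k16,k0,k0,k0,
    k0,k4,k0,k0,k0,k0,k0,k0],[k16,k0,k0,k0,k0,k4,k0,k0,k12,k0,k0,k0],[k0,k0,k12,k4,k0,k0,k0,k0,k0,k0,k0,k0],[k12,k4,
    k0,k0,k0,k0,k12,k0,k0,k0,k0,k0],[k0,k0,k0,k0,k0,k0,k0,k0,k0,k0,k0,k0],[k0,k0,k0,k0,k0,k0,k0,k0,k0,k0,k0,
    k0]] (nat_lit 480) k5
    [[(k1,k142),(k10,k150)],[(k5,k135),(k2,k141),(k0,k142),(k4,k143),(k11,k146),(k3,k153),(k8,k167),(k6,k169),(k7,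
    k169),(k9,k171)],[(k4,k146),(k6,k148),(k11,k149),(k9,k150),(k0,k153),(k3,k164),(k8,k170),(k7,k172),(k5,k174),(k2,
    k180)],[(k0,k141),(k7,k152),(k2,k160),(k5,k162),(k8,k162),(k6,k164),(k9,k166),(k4,k170),(k11,k173),(k3,k180)],
    [(k0,k135),(k8,k152),(k7,k154),(k2,k162),(k6,k162),(k11,k163),(k5,k164),(k9,k164),(k4,k172),(k3,k174)],[(k0,k143),
    (k3,k146),(k6,k158),(k11,k159),(k9,k160),(k7,k162),(k4,k164),(k8,k164),(k2,k170),(k5,k172)],[(k2,k152),(k5,k154),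
    (k7,k160),(k11,k161),(k4,k162),(k8,k166),(k6,k168),(k0,k169),(k9,k170),(k3,k172)],[(k3,k148),(k4,k158),(k11,k161),
    (k5,k162),(k2,k164),(k6,k164),(k9,k166),(k7,k168),(k0,k169),(k8,k178)],[(k3,k150),(k11,k151),(k4,k160),(k5,k164),
    (k2,k166),(k6,k166),(k8,k168),(k9,k168),(k7,k170),(k0,k171)],[(k5,k152),(k2,k162),(k11,k163),(k4,k164),(k7,k166),
    (k0,k167),(k8,k168),(k9,k168),(k3,k170),(k6,k178)],[(k0,k146),(k3,k149),(k9,k151),(k11,k158),(k4,k159),(k6,k161),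
    (k7,k161),(k5,k163),(k8,k163),(k2,k173)],[(k1,k150),(k10,k158)]]
    [[k2,k1,k0,k0,k0,k0],[k2,k0,k1,k0,k0,k0],[k1,k1,k0,k0,k0,k1],[k1,k0,k1,k0,k0,k1],[k1,k0,k0,k0,k1,k1],[k0,k1,k1,k1,
    k0,k0],[k0,k1,k1,k0,k1,k0],[k0,k1,k0,k2,k0,k0],[k0,k0,k0,k0,k1,k2]]
    [.ref k5 k0 [(z7,[z14,y1,y2]),(z7,[y7,z2,z4]),(z7,[z56,y16,y8,z3]),(z7,[z14,y4,y2,z0,z3]),(z7,[y28,z5,z1,y3,y3,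
    z21])],.ref k5 k0 [(z14,[z7,z4,z0,y1]),(z28,[y7,z2,z12,z1]),(z7,[z14,y4,z0,z1]),(z14,[z7,y2,z0,y1,z6]),(z7,[y7,y1,
    y3,y2,y3,z21])],.ref k5 k0 [(z7,[y7,z4,z1]),(z14,[z7,y1,z5]),(z7,[y28,z4,z4,z3]),(z7,[y7,z1,z1,z0,z3]),(z7,[z14,
    y5,y5,y3,y3,z21])],.ref k5 k0 [(z7,[z14,z1,z0,y2]),(z7,[y7,z1,z3,z1]),(z7,[z56,y8,z0,y5]),(z7,[z14,y2,z0,y2,z3]),
    (z7,[y28,z1,y3,z1,y3,z21])],.ref k5 k0 [(z21,[y14,z9,y2,y2,y2,z14]),(z21,[z7,z0,z10,z1,z1,y7]),(z21,[y56,z0,y8,z1,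
    y8,z56]),(z21,[y14,z0,y2,y2,z7,z14]),(z21,[z28,y9,y5,y5,y5,z35])],.ref k5 k0 [(z21,[z14,z9,y2,y2,y2]),(z21,[y7,z0,
    z10,z1,z1]),(z21,[z56,z0,y8,z1,y8]),(z21,[z14,z0,y2,y2,z7]),(z21,[y28,y9,y5,y5,y5,z63])],.ref k5 k0 [(z7,[z14,z5,
    z0,z0,z2,y14]),(z7,[y7,y1,z3,z0,y1,z7]),(z7,[z56,z8,z0,z3,z8,y56]),(z7,[z14,z2,z0,z0,z5,y14]),(z7,[y28,y7,y3,y3,
    y7,z49])],.ref k5 k0 [(z7,[z14,z3,y2,z0,y4]),(z7,[y7,z0,z4,z0,z2]),(z7,[z56,z0,y8,z3,y16]),(z7,[z14,z0,y2,z0,y1]),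
    (z7,[y28,y3,z1,y3,z5,z21])],.ref k5 k0 [(z21,[y7,z8,y1,y1,y1,z7]),(z42,[z7,z1,z19,z1,z1,y7]),(z21,[y28,y4,y4,z5,
    y4,z28]),(z21,[y7,y1,y1,y1,z8,z7]),(z3,[z2,y1,y1,y1,y1,z7])]],
    .base (.leafM k0 [k1,k2,k3,k4,k5,k0] [(z2,[y1,y1,z0,z0,z2])] []),
    .lp k0 [(nat_lit 390),(nat_lit 504),(nat_lit 468),(nat_lit 504),(nat_lit 492),(nat_lit 498)] [k57,k57,k0,k0,k22,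
    k14,k0,k0,k6,k6,k3,k3] k0 [[k0,k0,k72,k84,k0,k0,k0,k0,k0,k0,k0,k0],[k0,k0,k0,k0,k0,k108,k48,k60,k60,k0,k0,k0],[k0,
    k84,k0,k12,k12,k0,k0,k0,k0,k0,k0,k0],[k0,k72,k0,k0,k0,k0,k0,k0,k0,k0,k0,k0],[k108,k0,k0,k0,k0,k0,k0,k0,k0,k0,k0,
    k0],[k0,k0,k0,k12,k12,k0,k0,k0,k0,k0,k0,k0],[k60,k0,k0,k0,k0,k0,k0,k0,k0,k0,k0,k0],[k48,k0,k0,k0,k0,k0,k0,k0,k0,
    k0,k0,k0],[k0,k0,k0,k0,k0,k0,k0,k0,k0,k0,k0,k0],[k60,k0,k0,k0,k0,k0,k0,k0,k0,k0,k0,k0],[k0,k0,k0,k0,k0,k0,k0,k0,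
    k0,k0,k0,k0],[k0,k0,k0,k0,k0,k0,k0,k0,k0,k0,k0,k0]] (nat_lit 1440) k5
    [[(k1,(nat_lit 390)),(k10,(nat_lit 444))],[(k5,(nat_lit 361)),(k2,(nat_lit 363)),(k0,(nat_lit 390)),(k4,
    (nat_lit 425)),(k11,(nat_lit 444)),(k3,(nat_lit 447)),(k6,(nat_lit 495)),(k8,(nat_lit 501)),(k9,(nat_lit 501)),
    (k7,(nat_lit 555))],[(k4,(nat_lit 374)),(k11,(nat_lit 441)),(k6,(nat_lit 444)),(k0,(nat_lit 447)),(k9,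
    (nat_lit 450)),(k8,(nat_lit 498)),(k3,(nat_lit 504)),(k7,(nat_lit 504)),(k5,(nat_lit 574)),(k2,(nat_lit 576))],
    [(k0,(nat_lit 363)),(k4,(nat_lit 482)),(k5,(nat_lit 490)),(k2,(nat_lit 492)),(k7,(nat_lit 492)),(k8,
    (nat_lit 498)),(k9,(nat_lit 498)),(k11,(nat_lit 501)),(k6,(nat_lit 504)),(k3,(nat_lit 576))],[(k0,(nat_lit 361)),
    (k4,(nat_lit 480)),(k8,(nat_lit 484)),(k9,(nat_lit 484)),(k11,(nat_lit 487)),(k5,(nat_lit 488)),(k2,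
    (nat_lit 490)),(k6,(nat_lit 490)),(k7,(nat_lit 490)),(k3,(nat_lit 574))],[(k3,(nat_lit 374)),(k0,(nat_lit 425)),
    (k4,(nat_lit 472)),(k8,(nat_lit 476)),(k9,(nat_lit 476)),(k11,(nat_lit 479)),(k5,(nat_lit 480)),(k2,
    (nat_lit 482)),(k6,(nat_lit 482)),(k7,(nat_lit 482))],[(k4,(nat_lit 482)),(k5,(nat_lit 490)),(k2,(nat_lit 492)),
    (k7,(nat_lit 492)),(k8,(nat_lit 498)),(k9,(nat_lit 498)),(k11,(nat_lit 501)),(k3,(nat_lit 504)),(k6,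
    (nat_lit 504)),(k0,(nat_lit 555))],[(k3,(nat_lit 444)),(k4,(nat_lit 482)),(k5,(nat_lit 490)),(k0,(nat_lit 495)),
    (k8,(nat_lit 498)),(k9,(nat_lit 498)),(k11,(nat_lit 501)),(k2,(nat_lit 504)),(k6,(nat_lit 504)),(k7,
    (nat_lit 504))],[(k3,(nat_lit 450)),(k4,(nat_lit 476)),(k5,(nat_lit 484)),(k8,(nat_lit 492)),(k9,(nat_lit 492)),
    (k11,(nat_lit 495)),(k2,(nat_lit 498)),(k6,(nat_lit 498)),(k7,(nat_lit 498)),(k0,(nat_lit 501))],[(k4,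
    (nat_lit 476)),(k5,(nat_lit 484)),(k8,(nat_lit 492)),(k9,(nat_lit 492)),(k11,(nat_lit 495)),(k2,(nat_lit 498)),
    (k3,(nat_lit 498)),(k6,(nat_lit 498)),(k7,(nat_lit 498)),(k0,(nat_lit 501))],[(k3,(nat_lit 441)),(k0,
    (nat_lit 444)),(k4,(nat_lit 479)),(k5,(nat_lit 487)),(k8,(nat_lit 495)),(k9,(nat_lit 495)),(k11,(nat_lit 498)),
    (k2,(nat_lit 501)),(k6,(nat_lit 501)),(k7,(nat_lit 501))],[(k1,(nat_lit 444)),(k10,(nat_lit 498))]]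
    [[k2,k1,k0,k0,k0,k0],[k2,k0,k1,k0,k0,k0],[k2,k0,k0,k0,k1,k0],[k1,k1,k0,k0,k0,k1],[k1,k0,k1,k0,k0,k1],[k0,k1,k2,k0,
    k0,k0],[k0,k1,k1,k1,k0,k0],[k0,k1,k1,k0,k1,k0]]
    [.ref k65 k1 [(z2,[y1,z0,z1]),(z2,[y3,y2,z3]),(z1,[y2,y1,z1,y1,z1]),(z1,[z3,z2,y3,z1])],.ref k41 k0 [(z2,[z1,z0,
    z0,y1]),(z1,[z1,y2,z3,y1]),(z1,[z0,z0,z0,z1]),(z1,[y2,z1,y3,y1,z3])],.ref k66 k0 [(z1,[z1,z1]),(z1,[z0,z0,z1]),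
    (z1,[y2,z4,z0,z3]),(z1,[z0,y1,y1,y1,z1])],.ref k65 k1 [(z1,[y1,z0,z1]),(z1,[y3,y1,z3]),(z1,[y4,y1,z3,y1,z1]),(z1,
    [z6,z2,y6,z1])],.ref k67 k1 [(z1,[y1,z2,z0,z1]),(z1,[y3,z1,z0,z3]),(z1,[y4,z3,y5,y1,z5]),(z1,[z6,y2,z0,y1])],
    .ref k68 k1 [(z2,[y1,z4,z1,z2]),(z2,[y3,y2,z3,z6]),(z1,[y2,z1,y5,y3,z7]),(z1,[z3,z2,y3,z1])],.ref k69 k1 [(z2,[y1,
    z1,z0,z0,z1]),(z2,[y3,y1,z0,z0,z3]),(z1,[y1,z0,y1,y1,z2]),(z2,[z3,z1,z0,z2,y3])],.ref k67 k1 [(z1,[y1,z1,z1,z1]),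
    (z1,[y3,y2,z3,z3]),(z1,[y4,y1,y1,y1,z5]),(z1,[z6,z4,y6,y1])]],
    .lp k0 [k154,k168,k184,k164,k160,k126] [k19,k19,k12,k12,k0,k8,k14,k14,k8,k24,k33,k33] k0 [[k0,k0,k4,k0,k0,k8,k0,
    k0,k4,k4,k0,k0],[k0,k0,k28,k0,k0,k0,k8,k16,k0,k0,k0,k0],[k0,k0,k0,k12,k8,k0,k0,k8,k0,k0,k0,k0],[k28,k4,k0,k0,k0,
    k0,k0,k0,k4,k56,k0,k0],[k0,k8,k0,k0,k0,k0,k0,k0,k4,k64,k0,k0],[k0,k0,k0,k8,k0,k0,k0,k4,k0,k0,k0,k0],[k16,k0,k0,k8,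
    k4,k0,k0,k0,k0,k0,k0,k0],[k8,k0,k0,k0,k0,k0,k0,k0,k4,k0,k0,k0],[k0,k4,k56,k0,k0,k64,k0,k0,k0,k0,k0,k0],[k0,k4,k4,
    k0,k0,k4,k4,k0,k0,k0,k0,k0],[k0,k0,k0,k0,k0,k0,k0,k0,k0,k0,k0,k0],[k0,k0,k0,k0,k0,k0,k0,k0,k0,k0,k0,
    k0]] (nat_lit 480) k5
    [[(k10,k140),(k1,k154)],[(k11,k136),(k0,k154),(k7,k159),(k3,k161),(k5,k161),(k8,k161),(k4,k165),(k9,k165),(k6,
    k167),(k2,k189)],[(k5,k144),(k9,k148),(k6,k150),(k11,k151),(k0,k161),(k3,k168),(k2,k172),(k7,k174),(k8,k176),(k4,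
    k180)],[(k2,k156),(k9,k156),(k6,k158),(k7,k158),(k3,k172),(k5,k172),(k8,k176),(k4,k180),(k0,k189),(k11,
    (nat_lit 203))],[(k8,k120),(k3,k144),(k11,k147),(k0,k161),(k9,k168),(k6,k170),(k7,k170),(k2,k172),(k5,k188),(k4,
    k192)],[(k8,k120),(k11,k155),(k0,k165),(k9,k172),(k6,k178),(k7,k178),(k2,k180),(k3,k180),(k4,k192),(k5,k192)],
    [(k9,k154),(k2,k158),(k0,k159),(k6,k160),(k7,k164),(k5,k170),(k3,k174),(k8,k174),(k4,k178),(k11,(nat_lit 209))],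
    [(k11,k145),(k3,k150),(k9,k154),(k2,k158),(k7,k160),(k6,k164),(k0,k167),(k5,k170),(k8,k174),(k4,k178)],[(k11,
    k131),(k9,k144),(k3,k148),(k6,k154),(k7,k154),(k2,k156),(k8,k160),(k0,k165),(k5,k168),(k4,k172)],[(k4,k120),(k5,
    k120),(k11,k151),(k9,k160),(k0,k161),(k6,k174),(k7,k174),(k2,k176),(k3,k176),(k8,k176)],[(k11,k126),(k9,k131),(k0,
    k136),(k6,k145),(k5,k147),(k3,k151),(k8,k151),(k4,k155),(k2,(nat_lit 203)),(k7,(nat_lit 209))],[(k10,k126),(k1,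
    k140)]]
    [[k1,k0,k1,k0,k0,k1],[k1,k0,k0,k1,k0,k1],[k1,k0,k0,k0,k1,k1],[k0,k1,k1,k0,k1,k0],[k0,k1,k0,k2,k0,k0],[k0,k0,k1,k1,
    k1,k0],[k0,k0,k1,k0,k2,k0],[k0,k0,k1,k0,k0,k2],[k0,k0,k0,k0,k1,k2]]
    [.ref k48 k0 [(z1,[z0,z1]),(z1,[z1,z0,z1,y1]),(z1,[z2,y1])],.ref k58 k1 [(z1,[z1,z0,y1]),(z1,[z0,z1]),(z1,[z0,z0,
    z1])],.ref k59 k1 [(z1,[z1,y1]),(z1,[z0,z1]),(z1,[z0,z0,z1])],.ref k58 k1 [(z1,[y1,z0,y1,z1]),(z1,[z0,z1]),(z1,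
    [z0,z0,z1])],.ref k63 k0 [(z1,[z0,z1]),(z1,[y1,z0,z2]),(z1,[y2,y3,y2,z6])],.ref k64 k0 [(z1,[z0,z1]),(z1,[y2,y1,
    z0,z2]),(z1,[y1,y1,y1,z2])],.ref k70 k1 [(z1,[y1,z1,y1,z1]),(z1,[z0,z1]),(z1,[z0,z0,z1])],.ref k64 k0 [(z1,[z0,
    z1]),(z1,[z2,z1,z2,y2]),(z1,[z1])],.ref k59 k1 [(z2,[z1,y1]),(z1,[z0,z1]),(z1,[z0,z0,z1])]]]

theorem hB6_90_5 : blkB [0, 0, 0, 0, 0, 1] [] sp6 hS6_90 (pcls (n := 6) [0, 0, 0, 0, 0, 1]) hD6_90 143 5 hN6_90_5 = true := by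
  decide +kernel

/-- nodes 72 to 83 -/
noncomputable def hN6_90_6 : List HM :=
  [.base (.leafM k0 [k1,k2,k3,k4,k5,k0] [(z2,[y1,y1,z2])] []),
    .base (.leafM k0 [k0,k1,k2,k3,k4,k5] [(z1,[y1,z0,z1])] []),
    .base (.leafM k3 [k0,k1,k2,k3,k4,k5] [(z1,[z0,z1])] []),
    .base (.leafM k3 [k2,k3,k4,k5,k0,k1] [(z1,[z1])] []),
    .base (.leafM k0 [k0,k1,k2,k3,k4,k5] [(z1,[z0,z1,z1,z1])] []),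
    .lp k0 [k150,k168,k160,k166,k166,k142] [k9,k9,k0,k0,k4,k4,k1,k1,k1,k1,k13,k13] k0 [[k0,k0,k0,k0,k0,k4,k2,k0,k0,
    k28,k0,k0],[k0,k0,k12,k0,k0,k4,k10,k0,k0,k0,k0,k0],[k0,k0,k0,k0,k4,k0,k0,k18,k0,k0,k0,k0],[k12,k0,k0,k0,k0,k0,k0,
    k0,k8,k0,k0,k0],[k4,k4,k0,k0,k0,k0,k0,k0,k8,k12,k0,k0],[k0,k0,k0,k4,k4,k0,k0,k6,k0,k0,k0,k0],[k0,k0,k0,k18,k6,k0,
    k0,k0,k0,k0,k0,k0],[k10,k2,k0,k0,k0,k0,k0,k0,k0,k18,k0,k0],[k0,k28,k0,k0,k0,k12,k18,k0,k0,k0,k0,k0],[k0,k0,k8,k0,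
    k0,k8,k0,k0,k0,k0,k0,k0],[k0,k0,k0,k0,k0,k0,k0,k0,k0,k0,k0,k0],[k0,k0,k0,k0,k0,k0,k0,k0,k0,k0,k0,
    k0]] (nat_lit 480) k5
    [[(k10,k146),(k1,k150)],[(k8,k130),(k11,k146),(k0,k150),(k4,k151),(k5,k155),(k9,k156),(k3,k159),(k7,k162),(k6,
    k168),(k2,k171)],[(k5,k152),(k9,k157),(k0,k159),(k4,k160),(k8,k167),(k2,k168),(k3,k168),(k6,k169),(k7,k171),(k11,
    k183)],[(k6,k149),(k11,k155),(k7,k163),(k4,k164),(k5,k164),(k9,k167),(k2,k168),(k3,k168),(k0,k171),(k8,k175)],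
    [(k11,k143),(k3,k152),(k0,k155),(k5,k160),(k6,k163),(k7,k163),(k8,k163),(k2,k164),(k4,k164),(k9,k181)],[(k11,
    k143),(k0,k151),(k8,k151),(k3,k160),(k6,k163),(k7,k163),(k2,k164),(k4,k164),(k5,k164),(k9,k169)],[(k6,k160),(k0,
    k162),(k7,k162),(k2,k163),(k4,k163),(k5,k163),(k9,k166),(k11,k166),(k3,k171),(k8,k174)],[(k2,k149),(k7,k160),(k4,
    k163),(k5,k163),(k6,k166),(k8,k166),(k9,k166),(k0,k168),(k3,k169),(k11,k172)],[(k8,k148),(k11,k154),(k0,k156),(k3,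
    k157),(k6,k166),(k7,k166),(k9,k166),(k2,k167),(k4,k169),(k5,k181)],[(k0,k130),(k9,k148),(k4,k151),(k11,k154),(k5,
    k163),(k6,k166),(k8,k166),(k3,k167),(k7,k174),(k2,k175)],[(k11,k142),(k4,k143),(k5,k143),(k0,k146),(k8,k154),(k9,
    k154),(k2,k155),(k7,k166),(k6,k172),(k3,k183)],[(k10,k142),(k1,k146)]]
    [[k2,k0,k1,k0,k0,k0],[k2,k0,k0,k0,k1,k0],[k1,k1,k0,k0,k0,k1],[k1,k0,k1,k0,k0,k1],[k1,k0,k0,k0,k1,k1],[k0,k1,k1,k1,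
    k0,k0],[k0,k1,k1,k0,k1,k0],[k0,k0,k1,k0,k0,k2],[k0,k0,k0,k0,k3,k0],[k0,k0,k0,k0,k1,k2]]
    [.ref k5 k0 [(z7,[z7,z1,z0,y1]),(z7,[y14,z4,z3,z2]),(z7,[z7,y2,z0,z2]),(z7,[z28,y8,z0,y4,z3]),(z14,[y7,y4,y6,y5,
    y6,z42])],.ref k5 k0 [(z7,[z14,z1,z2,z2,z2,y14]),(z7,[y28,z4,y1,y4,y4,z28]),(z7,[z14,y2,z2,z5,z2,y14]),(z7,[z56,
    y8,z8,z8,z11,y56]),(z7,[y7,y2,y4,y4,y4,z28])],.ref k5 k0 [(z21,[y14,z11,z2]),(z21,[z28,y4,z5]),(z21,[y14,z2,z2,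
    z9]),(z21,[y56,z8,z8,z0,z9]),(z21,[z7,y10,y10,y9,y9,z63])],.ref k5 k0 [(z7,[y14,z5,z0,z2]),(z7,[z28,y4,z3,y4]),
    (z7,[y14,z2,z0,z5]),(z7,[y56,z8,z0,z8,z3]),(z7,[z7,y4,y3,y4,y3,z21])],.ref k5 k0 [(z7,[y7,z3,y1,y1,y1,z7]),(z7,
    [z14,z0,z5,z2,z2,y14]),(z7,[y7,z0,y1,z2,y1,z7]),(z7,[y28,z0,y4,y4,y1,z28]),(z14,[z7,y6,y5,y5,y5,z35])],
    .ref k5 k0 [(z7,[z7,z3,y1,y1,y1]),(z7,[y14,z0,z5,z2,z2]),(z7,[z7,z0,y1,z2,y1]),(z7,[z28,z0,y4,y4,y1]),(z14,[y7,y6,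
    y5,y5,y5,z42])],.ref k5 k0 [(z7,[y14,z1,z0,z0,y2,z14]),(z7,[z28,z4,z3,z0,z4,y28]),(z7,[y14,y2,z0,z3,y2,z14]),(z7,
    [y56,y8,z0,z0,y5,z56]),(z7,[z7,y2,y3,y3,y2,z14])],.ref k5 k0 [(z14,[y7,z6,z0,z1]),(z7,[z7,z0,z3,y1]),(z2,[y1,z0,
    z0,z1]),(z7,[y14,z0,z0,z2,z3]),(z28,[z7,y12,y12,y13,y12,z84])],.ref k5 k0 [(z7,[y14,y3,y6,y6,y6,z42]),(z7,[z28,
    z12,z15,z12,z12,y84]),(z7,[y14,y6,y6,y3,y6,z42]),(z7,[y56,y24,y24,y24,y21,(Int.ofNat (nat_lit 168))]),(z1,[z1])],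
    .ref k5 k0 [(z35,[y14,z13,y2,y2,y2,z14]),(z35,[z28,z4,z19,z4,z4,y28]),(z35,[y14,y2,y2,z13,y2,z14]),(z35,[y56,y8,
    y8,y8,z7,z56]),(z5,[z1,y2,y2,y2,y2,z14])]],
    .lp k0 [k142,k172,k152,k160,k176,k154] [k17,k17,k2,k2,k12,k12,k8,k8,k0,k0,k11,k11] k0 [[k0,k0,k24,k0,k16,k4,k0,k0,
    k0,k0,k0,k0],[k0,k0,k24,k0,k0,k0,k0,k20,k0,k0,k0,k0],[k0,k0,k0,k8,k16,k16,k0,k0,k0,k0,k0,k0],[k24,k24,k0,k0,k0,k0,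
    k0,k0,k12,k0,k0,k0],[k0,k4,k0,k16,k0,k0,k8,k0,k0,k0,k0,k0],[k0,k16,k0,k16,k0,k0,k8,k0,k4,k0,k0,k0],[k20,k0,k0,k0,
    k0,k0,k0,k0,k0,k8,k0,k0],[k0,k0,k0,k0,k8,k8,k0,k0,k0,k16,k0,k0],[k0,k0,k0,k0,k0,k0,k16,k8,k0,k0,k0,k0],[k0,k0,k12,
    k0,k4,k0,k0,k0,k0,k0,k0,k0],[k0,k0,k0,k0,k0,k0,k0,k0,k0,k0,k0,k0],[k0,k0,k0,k0,k0,k0,k0,k0,k0,k0,k0,
    k0]] (nat_lit 480) k5
    [[(k1,k142),(k10,k148)],[(k5,k123),(k7,k135),(k0,k142),(k4,k143),(k11,k148),(k6,k151),(k3,k157),(k8,k159),(k9,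
    k179),(k2,k181)],[(k5,k138),(k6,k146),(k0,k157),(k11,k163),(k7,k170),(k3,k172),(k8,k174),(k9,k174),(k4,k178),(k2,
    k196)],[(k4,k146),(k7,k150),(k5,k162),(k11,k163),(k2,k164),(k6,k166),(k9,k174),(k0,k181),(k8,k186),(k3,k196)],
    [(k0,k123),(k3,k138),(k11,k141),(k6,k156),(k5,k160),(k2,k162),(k8,k164),(k9,k164),(k4,k168),(k7,k172)],[(k0,k143),
    (k2,k146),(k4,k152),(k11,k153),(k7,k156),(k9,k156),(k6,k164),(k5,k168),(k8,k168),(k3,k178)],[(k0,k135),(k2,k150),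
    (k11,k153),(k4,k156),(k7,k160),(k9,k160),(k6,k168),(k8,k168),(k3,k170),(k5,k172)],[(k3,k146),(k0,k151),(k5,k156),
    (k6,k160),(k8,k160),(k4,k164),(k2,k166),(k7,k168),(k9,k168),(k11,k173)],[(k4,k156),(k7,k160),(k8,k160),(k5,k164),
    (k6,k168),(k11,k173),(k2,k174),(k3,k174),(k9,k176),(k0,k179)],[(k0,k159),(k6,k160),(k9,k160),(k5,k164),(k11,k165),
    (k4,k168),(k7,k168),(k3,k174),(k8,k176),(k2,k186)],[(k5,k141),(k0,k148),(k4,k153),(k7,k153),(k11,k154),(k2,k163),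
    (k3,k163),(k8,k165),(k6,k173),(k9,k173)],[(k1,k148),(k10,k154)]]
    [[k2,k0,k1,k0,k0,k0],[k2,k0,k0,k1,k0,k0],[k1,k1,k0,k0,k0,k1],[k1,k0,k1,k0,k0,k1],[k1,k0,k0,k1,k0,k1],[k0,k1,k2,k0,
    k0,k0],[k0,k1,k1,k1,k0,k0],[k0,k1,k0,k2,k0,k0],[k0,k0,k1,k0,k0,k2]]
    [.ref k76 k0 [(z2,[y1,z2,z0,z1]),(z6,[z3,y2,z2,y3]),(z2,[z3,y2,z0,y1]),(z3,[y3,z1,y1,z0,z3])],.ref k21 k0 [(z6,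
    [z3,z5,z1,z3,y3]),(z3,[y3,z1,z2,y3,z3]),(z3,[y3,z1,y1,z0,z3]),(z3,[z6,y5,y1,y3,z3])],.ref k65 k1 [(z3,[z3,y2,y1]),
    (z3,[z3,y5,y1]),(z3,[z0,y5,y1,y3,z3]),(z3,[y6,z10,z2,z3])],.ref k67 k0 [(z1,[y1,z2,z0,z1]),(z3,[z6,y2,z5,y6]),(z1,
    [z6,y2,z0,y1]),(z3,[y12,y1,y5,y3,z15])],.ref k67 k0 [(z3,[z3,z5,z1,z3,y3]),(z1,[y2,z0,z1,y2,z2]),(z1,[y6,z0,y2,y1,
    z6]),(z3,[z12,y5,y1,y3,z3])],.ref k77 k0 [(z6,[y3,z14,z1,z6]),(z1,[z1,z0,z2,y2]),(z1,[z3,z0,y1,z1]),(z3,[y6,y7,y5,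
    y9,z21])],.ref k76 k0 [(z2,[y1,z1,z0,z0,z1]),(z6,[z3,z1,z2,z0,y3]),(z2,[z3,z1,z0,z2,y3]),(z3,[y3,y2,y1,y3,z6])],
    .ref k21 k0 [(z6,[z3,z8,z1,z6,y6]),(z3,[y3,y2,z2,y6,z6]),(z3,[y3,y2,y1,y3,z6]),(z3,[z6,z1,y1,z3,y3])],
    .ref k21 k0 [(z2,[y1,z2,z0,z1]),(z1,[z1,z0,z1,y1]),(z1,[z1]),(z1,[y2,y1,y1,y1,z3])]],
    .base (.spec k2 false k0 [(z1,[z1]),(z1,[z0,z1]),(z1,[z0,z0,z1]),(z1,[y1,y1,y1,z1])]),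
    .base (.leafM k0 [k1,k2,k3,k4,k5,k0] [(z2,[y1,y1,z0,z2])] []),
    .base (.leafM k3 [k0,k1,k2,k3,k4,k5] [(z1,[y1,z0,y1,z1])] []),
    .lp k0 [k90,k124,k122,k134,k134,k110] [k22,k22,k5,k5,k6,k6,k0,k0,k0,k0,k12,k12] k0 [[k0,k0,k10,k4,k0,k4,k0,k0,k10,
    k0,k0,k0],[k0,k0,k0,k0,k0,k14,k32,k26,k2,k0,k0,k0],[k0,k4,k0,k0,k6,k0,k0,k0,k0,k0,k0,k0],[k0,k10,k0,k0,k6,k0,k0,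
    k0,k12,k18,k0,k0],[k14,k4,k0,k0,k0,k0,k0,k0,k0,k0,k0,k0],[k0,k0,k6,k6,k0,k0,k0,k0,k0,k30,k0,k0],[k26,k0,k0,k0,k0,
    k0,k0,k12,k0,k24,k0,k0],[k32,k0,k0,k0,k0,k0,k0,k0,k0,k12,k0,k0],[k0,k0,k18,k0,k30,k0,k12,k24,k0,k0,k0,k0],[k2,k10,
    k12,k0,k0,k0,k0,k0,k0,k0,k0,k0],[k0,k0,k0,k0,k0,k0,k0,k0,k0,k0,k0,k0],[k0,k0,k0,k0,k0,k0,k0,k0,k0,k0,k0,
    k0]] (nat_lit 360) k5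
    [[(k1,k90),(k10,k100)],[(k0,k90),(k11,k90),(k5,k96),(k4,k102),(k2,k103),(k3,k107),(k8,k114),(k7,k126),(k9,k138),
    (k6,k144)],[(k9,k97),(k6,k103),(k0,k107),(k4,k109),(k11,k115),(k3,k124),(k5,k127),(k7,k133),(k2,k134),(k8,k139)],
    [(k0,k103),(k5,k123),(k7,k123),(k2,k124),(k4,k129),(k6,k129),(k9,k129),(k3,k134),(k11,k135),(k8,k141)],[(k0,k96),
    (k11,k104),(k8,k110),(k5,k122),(k7,k122),(k2,k123),(k3,k127),(k4,k128),(k6,k128),(k9,k128)],[(k0,k102),(k3,k109),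
    (k4,k122),(k5,k128),(k6,k128),(k7,k128),(k8,k128),(k9,k128),(k2,k129),(k11,k146)],[(k8,k104),(k5,k122),(k11,k122),
    (k2,k123),(k0,k126),(k4,k128),(k3,k133),(k6,k134),(k7,k134),(k9,k134)],[(k3,k103),(k8,k110),(k6,k122),(k4,k128),
    (k5,k128),(k2,k129),(k7,k134),(k9,k134),(k11,k134),(k0,k144)],[(k3,k97),(k8,k122),(k4,k128),(k5,k128),(k2,k129),
    (k6,k134),(k7,k134),(k0,k138),(k9,k146),(k11,k146)],[(k7,k104),(k5,k110),(k6,k110),(k0,k114),(k9,k122),(k11,k122),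
    (k4,k128),(k8,k134),(k3,k139),(k2,k141)],[(k0,k90),(k5,k104),(k11,k110),(k3,k115),(k7,k122),(k8,k122),(k6,k134),
    (k2,k135),(k4,k146),(k9,k146)],[(k1,k100),(k10,k110)]]
    [[k2,k1,k0,k0,k0,k0],[k2,k0,k1,k0,k0,k0],[k2,k0,k0,k0,k1,k0],[k1,k1,k0,k0,k0,k1],[k1,k0,k1,k0,k0,k1],[k0,k1,k1,k0,
    k1,k0],[k0,k1,k1,k1,k0,k0],[k0,k1,k0,k1,k1,k0]]
    [.ref k78 k0 [(z2,[z2,z1,y1]),(z1,[z1,y1,z1]),(z2,[z0,y1,y1,z2])],.ref k79 k0 [(z4,[z2,z1,z1,y2]),(z4,[z2,y1,z3,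
    y2]),(z2,[z0,y1,y1,z2])],.ref k70 k1 [(z2,[z2,z1,y1]),(z1,[z1]),(z1,[z0,z0,z1])],.ref k80 k0 [(z2,[z2,z1,y1]),(z2,
    [z2,y1,z1]),(z2,[z0,y1,y1,z2])],.ref k81 k0 [(z2,[z2,z1,z1,y2]),(z1,[z1,z0,z1,y1]),(z2,[z0,y1,y1,z2])],
    .ref k81 k0 [(z1,[z1,z1,z0,y1]),(z2,[z2,z1,z1,y2]),(z2,[z0,y1,y1,z2])],.ref k80 k1 [(z2,[y2,z1,y1,z2]),(z2,[y2,y1,
    z1,z2]),(z1,[z0,z0,z1])],.ref k81 k0 [(z2,[y2,z1,z1]),(z1,[y1,z0,z1]),(z2,[z0,y1,y1,z2])]],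
    .lp k0 [k66,k84,k86,k92,k76,k72] [k13,k13,k4,k4,k3,k3,k0,k0,k8,k8,k10,k10] k0 [[k0,k0,k0,k0,k0,k0,k2,k0,k0,k11,k0,
    k0],[k0,k0,k0,k0,k22,k14,k2,k0,k0,k0,k0,k0],[k0,k0,k0,k0,k2,k0,k0,k0,k0,k0,k0,k0],[k0,k0,k0,k0,k0,k0,k2,k0,k2,k1,
    k0,k0],[k14,k0,k0,k0,k0,k0,k0,k0,k0,k8,k0,k0],[k22,k0,k0,k2,k0,k0,k0,k0,k0,k16,k0,k0],[k0,k0,k0,k0,k0,k0,k0,k2,k4,
    k20,k0,k0],[k2,k2,k2,k0,k0,k0,k0,k0,k0,k0,k0,k0],[k0,k11,k1,k0,k16,k8,k0,k20,k0,k0,k0,k0],[k0,k0,k2,k0,k0,k0,k0,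
    k4,k6,k0,k0,k0],[k0,k0,k0,k0,k0,k0,k0,k0,k0,k0,k0,k0],[k0,k0,k0,k0,k0,k0,k0,k0,k0,k0,k0,k0]] (nat_lit 240) k5
    [[(k1,k66),(k10,k69)],[(k8,k60),(k0,k66),(k9,k69),(k11,k69),(k2,k75),(k3,k75),(k5,k76),(k6,k81),(k7,k93),(k4,
    k98)],[(k7,k66),(k4,k71),(k0,k75),(k9,k78),(k8,k80),(k2,k84),(k3,k84),(k5,k85),(k11,k89),(k6,k90)],[(k0,k75),(k11,
    k79),(k9,k80),(k8,k82),(k2,k84),(k3,k84),(k4,k85),(k5,k85),(k7,k86),(k6,k90)],[(k0,k76),(k11,k77),(k9,k79),(k8,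
    k80),(k2,k85),(k3,k85),(k5,k86),(k4,k88),(k6,k89),(k7,k89)],[(k3,k71),(k8,k73),(k9,k81),(k2,k85),(k4,k86),(k5,
    k88),(k6,k89),(k7,k89),(k11,k95),(k0,k98)],[(k3,k66),(k8,k68),(k9,k84),(k2,k86),(k4,k89),(k5,k89),(k11,k90),(k6,
    k92),(k7,k92),(k0,k93)],[(k8,k64),(k11,k78),(k0,k81),(k9,k84),(k4,k89),(k5,k89),(k2,k90),(k3,k90),(k6,k90),(k7,
    k92)],[(k0,k69),(k3,k78),(k9,k78),(k5,k79),(k2,k80),(k8,k80),(k4,k81),(k6,k84),(k7,k84),(k11,k94)],[(k0,k60),(k6,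
    k64),(k7,k68),(k4,k73),(k11,k74),(k3,k80),(k5,k80),(k9,k80),(k2,k82),(k8,k82)],[(k11,k66),(k0,k69),(k8,k74),(k5,
    k77),(k6,k78),(k2,k79),(k3,k89),(k7,k90),(k9,k94),(k4,k95)],[(k1,k69),(k10,k72)]]
    [[k2,k1,k0,k0,k0,k0],[k2,k0,k0,k0,k1,k0],[k1,k1,k0,k0,k0,k1],[k1,k0,k0,k0,k1,k1],[k0,k1,k1,k0,k1,k0],[k0,k1,k0,k1,
    k1,k0],[k0,k0,k1,k1,k1,k0],[k0,k0,k1,k0,k2,k0],[k0,k0,k0,k1,k2,k0]]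
    [.ref k57 k0 [(z1,[z2,z1,y2]),(z1,[z0,y1,z2])],.ref k71 k0 [(z1,[z1]),(z1,[z0,y1,z2])],.ref k72 k0 [(z1,[z2,z1,
    y2]),(z1,[z0,y1,z2])],.ref k73 k0 [(z1,[z1]),(z1,[z0,y1,z2])],.ref k74 k1 [(z1,[y1,z1,y1]),(z1,[z1])],
    .ref k75 k1 [(z1,[y1,z0,z1]),(z1,[z1,z1,y2])],.ref k72 k0 [(z1,[y2,z1]),(z1,[z0,y1,z2])],.ref k82 k0 [(z1,[y2,
    z1]),(z1,[z0,y1,z2])],.ref k75 k1 [(z2,[y1,z1]),(z2,[z1,z1,y2])]]]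

theorem hB6_90_6 : blkB [0, 0, 0, 0, 0, 1] [] sp6 hS6_90 (pcls (n := 6) [0, 0, 0, 0, 0, 1]) hD6_90 143 6 hN6_90_6 = true := by
  decide +kernel

end Pool.Agent.Lib_MP_fa6e45
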