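import Pool.Agent.Lib_MP_fa6e45.HK

/-!
MP_fa6e45_co, stage 4: certificates (captain, generated by a program).
-/

namespace Pool.Agent.Lib_MP_fa6e45

/-- nodes 84 to 95 -/
noncomputable def hN6_90_7 : List HM :=
  [.base (.leafM k0 [k0,k1,k2,k3,k4,k5] [(z1,[y1,z0,z1])] []),
    .base (.leafM k3 [k0,k1,k2,k3,k4,k5] [(z1,[z0,z1])] []),
    .base (.leafM k3 [k2,k3,k4,k5,k0,k1] [(z1,[z1])] []),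
    .base (.leafM k0 [k0,k1,k2,k3,k4,k5] [(z1,[y1,z0,z1])] []),
    .base (.leafM k3 [k0,k1,k2,k3,k4,k5] [(z3,[y1,z0,y1,z0,z3])] []),
    .lp k0 [k72,k80,k88,k88,k80,k70] [k8,k8,k4,k4,k0,k0,k0,k0,k4,k4,k9,k9] k0 [[k0,k0,k0,k0,k0,k0,k4,k0,k0,k16,k0,k0],
    [k0,k0,k0,k0,k8,k8,k0,k0,k0,k0,k0,k0],[k0,k0,k0,k0,k4,k0,k0,k0,k0,k0,k0,k0],[k0,k0,k0,k0,k0,k0,k4,k0,k0,k4,k0,k0],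
    [k8,k0,k0,k0,k0,k0,k0,k0,k0,k16,k0,k0],[k8,k0,k0,k4,k0,k0,k0,k0,k0,k12,k0,k0],[k0,k0,k0,k0,k0,k0,k0,k4,k4,k0,k0,
    k0],[k0,k4,k4,k0,k0,k0,k0,k0,k0,k0,k0,k0],[k0,k16,k4,k0,k12,k16,k0,k0,k0,k0,k0,k0],[k0,k0,k0,k0,k0,k0,k0,k4,k0,k0,
    k0,k0],[k0,k0,k0,k0,k0,k0,k0,k0,k0,k0,k0,k0],[k0,k0,k0,k0,k0,k0,k0,k0,k0,k0,k0,k0]] (nat_lit 240) k5
    [[(k10,k71),(k1,k72)],[(k8,k60),(k11,k71),(k0,k72),(k9,k72),(k2,k76),(k3,k76),(k5,k80),(k6,k80),(k4,k88),(k7,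
    k88)],[(k0,k76),(k4,k76),(k7,k76),(k2,k80),(k3,k80),(k8,k80),(k9,k80),(k5,k84),(k6,k88),(k11,k91)],[(k0,k76),(k11,
    k79),(k2,k80),(k3,k80),(k7,k80),(k8,k80),(k9,k80),(k4,k84),(k5,k84),(k6,k88)],[(k11,k79),(k0,k80),(k8,k80),(k9,
    k80),(k2,k84),(k3,k84),(k5,k88),(k6,k88),(k7,k88),(k4,k92)],[(k8,k68),(k3,k76),(k2,k84),(k9,k84),(k0,k88),(k4,
    k88),(k6,k88),(k7,k88),(k11,k91),(k5,k92)],[(k8,k72),(k3,k76),(k2,k80),(k9,k84),(k0,k88),(k4,k88),(k5,k88),(k6,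
    k88),(k7,k88),(k11,k95)],[(k11,k75),(k0,k80),(k6,k84),(k8,k84),(k9,k84),(k2,k88),(k3,k88),(k4,k88),(k5,k88),(k7,
    k88)],[(k0,k72),(k11,k75),(k2,k80),(k3,k80),(k5,k80),(k4,k84),(k6,k84),(k7,k84),(k8,k84),(k9,k84)],[(k0,k60),(k4,
    k68),(k7,k72),(k11,k75),(k2,k80),(k3,k80),(k5,k80),(k8,k80),(k6,k84),(k9,k84)],[(k11,k70),(k0,k71),(k6,k75),(k8,
    k75),(k9,k75),(k2,k79),(k5,k79),(k3,k91),(k4,k91),(k7,k95)],[(k10,k70),(k1,k71)]]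
    [[k2,k1,k0,k0,k0,k0],[k2,k0,k0,k0,k1,k0],[k1,k1,k0,k0,k0,k1],[k1,k0,k1,k0,k0,k1],[k1,k0,k0,k1,k0,k1],[k1,k0,k0,k0,
    k1,k1],[k0,k1,k1,k0,k1,k0],[k0,k0,k1,k0,k2,k0],[k0,k0,k0,k0,k1,k2]]
    [.ref k5 k0 [(z8,[z15,y2,y15]),(z4,[y3,z2,z15]),(z2,[z3,y2,y3,z6]),(z1,[z0,z0,z0,z0,z1]),(z1,[y3,z1,z0,y3,y1,
    z3])],.ref k5 k0 [(z2,[z15,y3,z15,z15,z5,y15]),(z1,[y3,z1,z0,y3,y1,z3]),(z1,[z6,y2,z6,z9,z2,y6]),(z1,[z0,z0,z0,z0,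
    z1]),(z1,[y12,z3,y15,y15,y5,z15])],.ref k5 k0 [(z4,[z15,y1,y15]),(z2,[y3,z1,z9]),(z1,[z3,y1,y3,z3]),(z1,[z0,z0,z0,
    z0,z1]),(z1,[y6,z1,z3,y3,y1,z3])],.ref k5 k0 [(z2,[z3,z1,z0,y3]),(z5,[y3,z1,z15,z3]),(z5,[z6,y2,z0,z9]),(z1,[z0,
    z0,z0,z0,z1]),(z5,[y12,y1,y15,y3,y5,z15])],.ref k5 k0 [(z6,[z15,z1,z0,z0,y5]),(z3,[y3,z1,z9,z0,z1]),(z3,[z6,y2,z0,
    z9,y2]),(z1,[z0,z0,z0,z0,z1]),(z3,[y12,z1,y9,y9,z1,z9])],.ref k5 k0 [(z2,[y15,z2,y15,y15,y5,z15]),(z1,[z3,z0,z6,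
    z3,z1,y3]),(z1,[y6,z0,y6,y3,y2,z6]),(z1,[z0,z0,z0,z0,z1]),(z1,[z12,y1,z9,z9,z3,y9])],.ref k5 k0 [(z6,[y15,z1,z0,
    z0,y5,z15]),(z3,[z3,z1,z9,z0,z1,y3]),(z3,[y6,y2,z0,z9,y2,z6]),(z1,[z0,z0,z0,z0,z1]),(z3,[z12,z1,y9,y9,z1,y3])],
    .ref k5 k0 [(z12,[y15,z2,y30,y15,y10,z30]),(z6,[z3,z2,z24,z3,z2,y6]),(z3,[y3,y2,y6,z6,y2,z6]),(z1,[z0,z0,z0,z0,
    z1]),(z3,[z6,z1,z3,y3,z1,y3])],.ref k5 k0 [(z6,[y15,z1,y15,y15,y5,z15]),(z3,[z3,z1,z12,z3,z1,y3]),(z3,[y6,y2,y6,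
    z3,y2,z6]),(z1,[z0,z0,z0,z0,z1]),(z3,[z12,z1,z3,z3,z1,y3])]],
    .base (.leafM k0 [k0,k1,k2,k3,k4,k5] [(z3,[z0,z3,z1,z1])] []),
    .base (.leafM k3 [k2,k3,k4,k5,k0,k1] [(z3,[z1,z0,z0,z1])] []),
    .lp k0 [(nat_lit 310),(nat_lit 292),(nat_lit 322),(nat_lit 332),(nat_lit 328),(nat_lit 332)] [k11,k11,k20,k20,k5,
    k5,k0,k0,k2,k2,k0,k0] k0 [[k0,k0,k0,k0,k0,k0,k10,k26,k54,k10,k0,k0],[k0,k0,k48,k16,k2,k34,k0,k0,k0,k0,k0,k0],[k16,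
    k0,k0,k0,k6,k0,k0,k0,k6,k0,k0,k0],[k48,k0,k0,k0,k0,k0,k6,k10,k38,k0,k0,k0],[k34,k0,k0,k0,k0,k0,k0,k0,k0,k12,k0,
    k0],[k2,k0,k0,k6,k0,k0,k0,k0,k0,k12,k0,k0],[k0,k26,k10,k0,k0,k0,k0,k0,k0,k0,k0,k0],[k0,k10,k6,k0,k0,k0,k12,k0,k0,
    k0,k0,k0],[k0,k10,k0,k0,k12,k12,k0,k0,k0,k0,k0,k0],[k0,k54,k38,k6,k0,k0,k0,k0,k0,k0,k0,k0],[k0,k0,k0,k0,k0,k0,k0,
    k0,k0,k0,k0,k0],[k0,k0,k0,k0,k0,k0,k0,k0,k0,k0,k0,k0]] (nat_lit 960) k5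
    [[(k1,(nat_lit 310)),(k10,(nat_lit 321))],[(k11,(nat_lit 267)),(k6,(nat_lit 295)),(k3,(nat_lit 301)),(k8,
    (nat_lit 309)),(k9,(nat_lit 309)),(k0,(nat_lit 310)),(k4,(nat_lit 318)),(k5,(nat_lit 332)),(k2,(nat_lit 349)),(k7,
    (nat_lit 355))],[(k5,(nat_lit 259)),(k4,(nat_lit 273)),(k2,(nat_lit 276)),(k3,(nat_lit 292)),(k0,(nat_lit 301)),
    (k7,(nat_lit 310)),(k6,(nat_lit 322)),(k11,(nat_lit 322)),(k9,(nat_lit 336)),(k8,(nat_lit 364))],[(k3,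
    (nat_lit 276)),(k2,(nat_lit 292)),(k7,(nat_lit 306)),(k11,(nat_lit 306)),(k4,(nat_lit 307)),(k5,(nat_lit 307)),
    (k6,(nat_lit 318)),(k9,(nat_lit 320)),(k8,(nat_lit 348)),(k0,(nat_lit 349))],[(k3,(nat_lit 259)),(k11,
    (nat_lit 289)),(k2,(nat_lit 307)),(k6,(nat_lit 317)),(k9,(nat_lit 319)),(k5,(nat_lit 322)),(k7,(nat_lit 327)),(k4,
    (nat_lit 328)),(k8,(nat_lit 331)),(k0,(nat_lit 332))],[(k3,(nat_lit 273)),(k2,(nat_lit 307)),(k8,(nat_lit 313)),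
    (k0,(nat_lit 318)),(k4,(nat_lit 322)),(k9,(nat_lit 325)),(k6,(nat_lit 327)),(k7,(nat_lit 327)),(k5,(nat_lit 328)),
    (k11,(nat_lit 339))],[(k2,(nat_lit 306)),(k3,(nat_lit 310)),(k8,(nat_lit 318)),(k4,(nat_lit 327)),(k5,
    (nat_lit 327)),(k9,(nat_lit 330)),(k6,(nat_lit 332)),(k7,(nat_lit 332)),(k11,(nat_lit 344)),(k0,(nat_lit 355))],
    [(k0,(nat_lit 295)),(k5,(nat_lit 317)),(k2,(nat_lit 318)),(k3,(nat_lit 322)),(k4,(nat_lit 327)),(k8,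
    (nat_lit 330)),(k9,(nat_lit 330)),(k7,(nat_lit 332)),(k11,(nat_lit 332)),(k6,(nat_lit 344))],[(k0,(nat_lit 309)),
    (k9,(nat_lit 316)),(k5,(nat_lit 319)),(k2,(nat_lit 320)),(k4,(nat_lit 325)),(k8,(nat_lit 328)),(k6,(nat_lit 330)),
    (k7,(nat_lit 330)),(k11,(nat_lit 330)),(k3,(nat_lit 336))],[(k0,(nat_lit 309)),(k4,(nat_lit 313)),(k7,
    (nat_lit 318)),(k8,(nat_lit 328)),(k9,(nat_lit 328)),(k6,(nat_lit 330)),(k11,(nat_lit 330)),(k5,(nat_lit 331)),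
    (k2,(nat_lit 348)),(k3,(nat_lit 364))],[(k0,(nat_lit 267)),(k5,(nat_lit 289)),(k2,(nat_lit 306)),(k3,
    (nat_lit 322)),(k8,(nat_lit 330)),(k9,(nat_lit 330)),(k6,(nat_lit 332)),(k11,(nat_lit 332)),(k4,(nat_lit 339)),
    (k7,(nat_lit 344))],[(k1,(nat_lit 321)),(k10,(nat_lit 332))]]
    [[k2,k0,k0,k0,k1,k0],[k1,k1,k0,k0,k0,k1],[k1,k0,k1,k0,k0,k1],[k0,k3,k0,k0,k0,k0],[k0,k2,k1,k0,k0,k0],[k0,k2,k0,k1,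
    k0,k0],[k0,k1,k2,k0,k0,k0],[k0,k1,k1,k1,k0,k0],[k0,k1,k1,k0,k1,k0]]
    [.ref k29 k1 [(z2,[z3,y1]),(z1,[z1]),(z2,[z0,y1,y6,y3,z6]),(z2,[y1,z0,z0,z1])],.ref k62 k1 [(z1,[y1,z0,z1]),(z1,
    [y6,z1,z6]),(z2,[z0,y1,y6,y3,z6]),(z2,[z6,y1,y6,z3])],.ref k88 k0 [(z4,[z6,z1,z0,y3]),(z1,[z0,z0,z1]),(z4,[z6,y1,
    z0,z3]),(z2,[z0,y1,y6,y3,z6])],.ref k29 k1 [(z2,[y1,z0,z3]),(z3,[y1,z1,z3]),(z2,[z0,y1,y6,y3,z6]),(z6,[z1,y1,y3,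
    z3])],.ref k89 k0 [(z2,[z6,z1,y12,y3]),(z1,[z0,z0,z1]),(z1,[z1,z0,y2]),(z2,[z0,y1,y6,y3,z6])],.ref k29 k1 [(z8,
    [y6,y1,z6,y3,z6]),(z4,[y2,z1,z2,y1,z2]),(z2,[z0,y1,y6,y3,z6]),(z8,[z2,y1,y2,z5,y2])],.ref k6 k0 [(z2,[z3,z1,y3,
    y3]),(z1,[z0,z0,z1]),(z2,[z1,z0,y1]),(z2,[z0,y1,y6,y3,z6])],.ref k90 k0 [(z1,[z3,z1,z0,z0,y3]),(z1,[z0,z0,z1]),
    (z2,[z6,z1,z0,z3,y6]),(z2,[z0,y1,y6,y3,z6])],.ref k91 k0 [(z2,[y6,z1,z6,z3]),(z1,[z0,z0,z1]),(z1,[y1,z0,z1,z1]),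
    (z2,[z0,y1,y6,y3,z6])]],
    .base (.leafM k0 [k0,k1,k2,k3,k4,k5] [(z1,[y1,z0,z0,z1])] []),
    .base (.leafM k3 [k2,k3,k4,k5,k0,k1] [(z2,[z0,y1,y1,z2])] []),
    .base (.leafM k0 [k0,k1,k2,k3,k4,k5] [(z1,[y1,z0,z0,z1])] [])]

theorem hB6_90_7 : blkB [0, 0, 0, 0, 0, 1] [] sp6 hS6_90 (pcls (n := 6) [0, 0, 0, 0, 0, 1]) hD6_90 143 7 hN6_90_7 = true := by
  decide +kernel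

/-- nodes 96 to 107 -/
noncomputable def hN6_90_8 : List HM :=
  [.base (.leafM k3 [k0,k1,k2,k3,k4,k5] [(z2,[y1,z0,y1,z2])] []),
    .lp k0 [(nat_lit 310),(nat_lit 292),(nat_lit 322),(nat_lit 332),(nat_lit 328),(nat_lit 332)] [k11,k11,k20,k20,k5,
    k5,k0,k0,k2,k2,k0,k0] k0 [[k0,k0,k0,k0,k0,k0,k10,k26,k54,k10,k0,k0],[k0,k0,k48,k16,k2,k34,k0,k0,k0,k0,k0,k0],[k16,
    k0,k0,k0,k6,k0,k0,k0,k6,k0,k0,k0],[k48,k0,k0,k0,k0,k0,k6,k10,k38,k0,k0,k0],[k34,k0,k0,k0,k0,k0,k0,k0,k0,k12,k0,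
    k0],[k2,k0,k0,k6,k0,k0,k0,k0,k0,k12,k0,k0],[k0,k26,k10,k0,k0,k0,k0,k0,k0,k0,k0,k0],[k0,k10,k6,k0,k0,k0,k12,k0,k0,
    k0,k0,k0],[k0,k10,k0,k0,k12,k12,k0,k0,k0,k0,k0,k0],[k0,k54,k38,k6,k0,k0,k0,k0,k0,k0,k0,k0],[k0,k0,k0,k0,k0,k0,k0,
    k0,k0,k0,k0,k0],[k0,k0,k0,k0,k0,k0,k0,k0,k0,k0,k0,k0]] (nat_lit 960) k5
    [[(k1,(nat_lit 310)),(k10,(nat_lit 321))],[(k11,(nat_lit 267)),(k6,(nat_lit 295)),(k3,(nat_lit 301)),(k8,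
    (nat_lit 309)),(k9,(nat_lit 309)),(k0,(nat_lit 310)),(k4,(nat_lit 318)),(k5,(nat_lit 332)),(k2,(nat_lit 349)),(k7,
    (nat_lit 355))],[(k5,(nat_lit 259)),(k4,(nat_lit 273)),(k2,(nat_lit 276)),(k3,(nat_lit 292)),(k0,(nat_lit 301)),
    (k7,(nat_lit 310)),(k6,(nat_lit 322)),(k11,(nat_lit 322)),(k9,(nat_lit 336)),(k8,(nat_lit 364))],[(k3,
    (nat_lit 276)),(k2,(nat_lit 292)),(k7,(nat_lit 306)),(k11,(nat_lit 306)),(k4,(nat_lit 307)),(k5,(nat_lit 307)),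
    (k6,(nat_lit 318)),(k9,(nat_lit 320)),(k8,(nat_lit 348)),(k0,(nat_lit 349))],[(k3,(nat_lit 259)),(k11,
    (nat_lit 289)),(k2,(nat_lit 307)),(k6,(nat_lit 317)),(k9,(nat_lit 319)),(k5,(nat_lit 322)),(k7,(nat_lit 327)),(k4,
    (nat_lit 328)),(k8,(nat_lit 331)),(k0,(nat_lit 332))],[(k3,(nat_lit 273)),(k2,(nat_lit 307)),(k8,(nat_lit 313)),
    (k0,(nat_lit 318)),(k4,(nat_lit 322)),(k9,(nat_lit 325)),(k6,(nat_lit 327)),(k7,(nat_lit 327)),(k5,(nat_lit 328)),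
    (k11,(nat_lit 339))],[(k2,(nat_lit 306)),(k3,(nat_lit 310)),(k8,(nat_lit 318)),(k4,(nat_lit 327)),(k5,
    (nat_lit 327)),(k9,(nat_lit 330)),(k6,(nat_lit 332)),(k7,(nat_lit 332)),(k11,(nat_lit 344)),(k0,(nat_lit 355))],
    [(k0,(nat_lit 295)),(k5,(nat_lit 317)),(k2,(nat_lit 318)),(k3,(nat_lit 322)),(k4,(nat_lit 327)),(k8,
    (nat_lit 330)),(k9,(nat_lit 330)),(k7,(nat_lit 332)),(k11,(nat_lit 332)),(k6,(nat_lit 344))],[(k0,(nat_lit 309)),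
    (k9,(nat_lit 316)),(k5,(nat_lit 319)),(k2,(nat_lit 320)),(k4,(nat_lit 325)),(k8,(nat_lit 328)),(k6,(nat_lit 330)),
    (k7,(nat_lit 330)),(k11,(nat_lit 330)),(k3,(nat_lit 336))],[(k0,(nat_lit 309)),(k4,(nat_lit 313)),(k7,
    (nat_lit 318)),(k8,(nat_lit 328)),(k9,(nat_lit 328)),(k6,(nat_lit 330)),(k11,(nat_lit 330)),(k5,(nat_lit 331)),
    (k2,(nat_lit 348)),(k3,(nat_lit 364))],[(k0,(nat_lit 267)),(k5,(nat_lit 289)),(k2,(nat_lit 306)),(k3,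
    (nat_lit 322)),(k8,(nat_lit 330)),(k9,(nat_lit 330)),(k6,(nat_lit 332)),(k11,(nat_lit 332)),(k4,(nat_lit 339)),
    (k7,(nat_lit 344))],[(k1,(nat_lit 321)),(k10,(nat_lit 332))]]
    [[k2,k0,k0,k0,k1,k0],[k1,k1,k0,k0,k0,k1],[k1,k0,k1,k0,k0,k1],[k0,k3,k0,k0,k0,k0],[k0,k2,k1,k0,k0,k0],[k0,k2,k0,k1,
    k0,k0],[k0,k1,k2,k0,k0,k0],[k0,k1,k1,k1,k0,k0],[k0,k1,k1,k0,k1,k0]]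
    [.ref k92 k1 [(z1,[y6,z2,z3]),(z1,[z1]),(z1,[z0,z0,z1])],.ref k93 k1 [(z1,[z1]),(z1,[y6,z2,z3]),(z1,[z0,z0,z1])],
    .ref k94 k1 [(z1,[z3,z1,z3,y3]),(z1,[y2,z0,y1,z2]),(z1,[z0,z0,z1])],.ref k95 k0 [(z6,[y1,z2,z3]),(z1,[z1]),(z1,
    [z0,y1,y3,z3])],.ref k95 k0 [(z4,[y1,z1,z1,z1]),(z2,[z3,z1,z3,y3]),(z1,[z0,y1,y3,z3])],.ref k95 k0 [(z3,[y1,z1,
    z2]),(z1,[z2,z0,y1]),(z1,[z0,y1,y3,z3])],.ref k95 k0 [(z2,[y1,z0,y1,z2]),(z1,[z3,z2,z6,y6]),(z1,[z0,y1,y3,z3])],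
    .ref k95 k0 [(z1,[y1,z0,z0,z1]),(z1,[z6,z2,z3,y6]),(z1,[z0,y1,y3,z3])],.ref k96 k1 [(z1,[y2,z0,y1,z2]),(z1,[z3,z1,
    z3,y3]),(z1,[z0,z0,z1])]],
    .base (.leafM k3 [k2,k3,k4,k5,k0,k1] [(z1,[z1])] []),
    .base (.leafM k0 [k1,k2,k3,k4,k5,k0] [(z3,[y1,y1,z0,z3])] []),
    .lp k0 [k72,k82,k88,k84,k78,k72] [k10,k10,k10,k0,k2,k2,k4,k4,k7,k7,k10,k10] k0 [[k0,k0,k0,k0,k0,k0,k2,k18,k0,k0,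
    k0,k0],[k0,k0,k14,k2,k6,k30,k0,k0,k0,k0,k0,k0],[k2,k0,k0,k4,k4,k0,k0,k0,k0,k0,k0,k0],[k14,k0,k0,k0,k0,k0,k0,k20,
    k2,k14,k0,k0],[k30,k0,k0,k0,k0,k0,k4,k0,k0,k14,k0,k0],[k6,k0,k0,k4,k0,k0,k4,k0,k0,k10,k0,k0],[k0,k18,k20,k0,k0,k0,
    k0,k0,k2,k18,k0,k0],[k0,k2,k0,k0,k4,k4,k0,k0,k0,k0,k0,k0],[k0,k0,k14,k0,k10,k14,k0,k18,k0,k0,k0,k0],[k0,k0,k2,k0,
    k0,k0,k0,k2,k4,k0,k0,k0],[k0,k0,k0,k0,k0,k0,k0,k0,k0,k0,k0,k0],[k0,k0,k0,k0,k0,k0,k0,k0,k0,k0,k0,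
    k0]] (nat_lit 240) k5
    [[(k1,k72),(k10,k72)],[(k6,k60),(k0,k72),(k11,k72),(k9,k73),(k8,k75),(k3,k82),(k5,k82),(k2,k86),(k4,k86),(k7,
    k108)],[(k4,k60),(k5,k76),(k2,k80),(k0,k82),(k7,k82),(k11,k82),(k8,k85),(k6,k90),(k3,k92),(k9,k103)],[(k2,k68),
    (k7,k74),(k8,k77),(k6,k78),(k3,k80),(k4,k80),(k5,k80),(k0,k86),(k11,k86),(k9,k95)],[(k6,k66),(k8,k69),(k3,k76),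
    (k11,k78),(k2,k80),(k0,k82),(k9,k83),(k7,k86),(k4,k92),(k5,k92)],[(k3,k60),(k8,k69),(k9,k79),(k2,k80),(k0,k86),
    (k7,k86),(k4,k88),(k6,k90),(k11,k90),(k5,k92)],[(k8,k71),(k2,k74),(k9,k77),(k3,k82),(k7,k84),(k4,k86),(k5,k86),
    (k6,k88),(k11,k92),(k0,k108)],[(k0,k60),(k8,k63),(k5,k66),(k11,k76),(k2,k78),(k9,k81),(k6,k84),(k7,k88),(k3,k90),
    (k4,k90)],[(k0,k73),(k7,k77),(k9,k78),(k4,k79),(k8,k80),(k6,k81),(k5,k83),(k11,k93),(k2,k95),(k3,k103)],[(k6,k63),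
    (k4,k69),(k5,k69),(k7,k71),(k0,k75),(k11,k75),(k2,k77),(k9,k80),(k8,k82),(k3,k85)],[(k11,k68),(k0,k72),(k8,k75),
    (k6,k76),(k5,k78),(k3,k82),(k2,k86),(k4,k90),(k7,k92),(k9,k93)],[(k1,k72),(k10,k72)]]
    [[k2,k0,k0,k0,k1,k0],[k1,k0,k1,k0,k0,k1],[k1,k0,k0,k1,k0,k1],[k1,k0,k0,k0,k1,k1],[k0,k2,k1,k0,k0,k0],[k0,k1,k2,k0,
    k0,k0],[k0,k1,k1,k1,k0,k0],[k0,k1,k1,k0,k1,k0],[k0,k0,k1,k1,k1,k0],[k0,k0,k1,k0,k2,k0],[k0,k0,k0,k2,k1,k0],[k0,k0,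
    k0,k1,k2,k0]]
    [.ref k63 k0 [(z1,[z1]),(z1,[z0,z0,z1]),(z1,[y3,z2])],.ref k98 k1 [(z1,[z1]),(z1,[y3,z1]),(z1,[z0,y1,y1,z3])],
    .ref k99 k0 [(z1,[z3,z1,z1,y3]),(z1,[z0,z0,z1]),(z1,[y3,z0,y1,z3])],.ref k95 k0 [(z1,[z1]),(z1,[z0,z0,z1]),(z1,
    [y3,z1])],.ref k95 k0 [(z3,[y3,z1,z2]),(z1,[z0,z0,z1]),(z1,[z3,z0,y2])],.ref k95 k0 [(z6,[y3,z2,z1]),(z1,[z0,z0,
    z1]),(z2,[z3,z0,y1])],.ref k95 k0 [(z1,[y1,z0,z0,z1]),(z1,[z0,z0,z1]),(z1,[z3,z1,z0,y3])],.ref k99 k0 [(z1,[y3,z1,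
    z1]),(z1,[z0,z0,z1]),(z1,[z3,z0,y1])],.ref k99 k0 [(z1,[y3,z0,y1,z3]),(z1,[z0,z0,z1]),(z1,[z3,z1,z1,y3])],
    .ref k44 k0 [(z1,[y3,z1]),(z1,[z0,z0,z1]),(z1,[z1])],.ref k98 k1 [(z3,[y3,y1,y2,z6]),(z1,[z3,z2,z2,y6]),(z1,[z0,
    y1,y1,z3])],.ref k98 k1 [(z6,[y3,z1,y1,z3]),(z2,[z3,z1,z1,y3]),(z1,[z0,y1,y1,z3])]],
    .base (.leafM k3 [k0,k1,k2,k3,k4,k5] [(z3,[y1,z0,y1,z3])] []),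
    .lp k0 [(nat_lit 460),(nat_lit 448),(nat_lit 478),(nat_lit 484),(nat_lit 526),(nat_lit 472)] [k33,k33,k39,k39,k24,
    k24,k21,k21,k0,k0,k27,k27] k0 [[k0,k0,k0,k0,k0,k0,k6,k18,k24,k0,k0,k0],[k0,k0,k72,k12,k30,k54,k0,k0,k0,k0,k0,k0],
    [k12,k0,k0,k0,k6,k6,k0,k6,k0,k0,k0,k0],[k72,k0,k0,k0,k0,k0,k0,k6,k12,k48,k0,k0],[k54,k0,k0,k6,k0,k0,k0,k0,k0,k42,
    k0,k0],[k30,k0,k0,k6,k0,k0,k0,k0,k0,k30,k0,k0],[k0,k18,k6,k6,k0,k0,k0,k0,k0,k0,k0,k0],[k0,k6,k0,k0,k0,k0,k0,k0,k6,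
    k0,k0,k0],[k0,k0,k48,k0,k30,k42,k0,k0,k0,k0,k0,k0],[k0,k24,k12,k0,k0,k0,k6,k0,k0,k0,k0,k0],[k0,k0,k0,k0,k0,k0,k0,
    k0,k0,k0,k0,k0],[k0,k0,k0,k0,k0,k0,k0,k0,k0,k0,k0,k0]] (nat_lit 1440) k5
    [[(k1,(nat_lit 460)),(k10,(nat_lit 466))],[(k11,(nat_lit 442)),(k3,(nat_lit 454)),(k6,(nat_lit 454)),(k0,
    (nat_lit 460)),(k5,(nat_lit 481)),(k9,(nat_lit 487)),(k8,(nat_lit 493)),(k4,(nat_lit 499)),(k2,(nat_lit 526)),(k7,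
    (nat_lit 526))],[(k5,(nat_lit 391)),(k4,(nat_lit 409)),(k2,(nat_lit 436)),(k7,(nat_lit 436)),(k3,(nat_lit 448)),
    (k0,(nat_lit 454)),(k11,(nat_lit 460)),(k6,(nat_lit 472)),(k9,(nat_lit 505)),(k8,(nat_lit 511))],[(k3,
    (nat_lit 436)),(k2,(nat_lit 448)),(k4,(nat_lit 457)),(k6,(nat_lit 460)),(k7,(nat_lit 460)),(k5,(nat_lit 463)),(k9,
    (nat_lit 493)),(k8,(nat_lit 499)),(k11,(nat_lit 508)),(k0,(nat_lit 526))],[(k3,(nat_lit 391)),(k8,(nat_lit 454)),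
    (k2,(nat_lit 463)),(k11,(nat_lit 463)),(k6,(nat_lit 475)),(k5,(nat_lit 478)),(k0,(nat_lit 481)),(k4,
    (nat_lit 484)),(k7,(nat_lit 487)),(k9,(nat_lit 508))],[(k3,(nat_lit 409)),(k2,(nat_lit 457)),(k8,(nat_lit 460)),
    (k4,(nat_lit 478)),(k6,(nat_lit 481)),(k7,(nat_lit 481)),(k5,(nat_lit 484)),(k0,(nat_lit 499)),(k9,(nat_lit 502)),
    (k11,(nat_lit 505))],[(k3,(nat_lit 436)),(k2,(nat_lit 460)),(k8,(nat_lit 475)),(k4,(nat_lit 481)),(k6,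
    (nat_lit 484)),(k7,(nat_lit 484)),(k5,(nat_lit 487)),(k9,(nat_lit 505)),(k11,(nat_lit 520)),(k0,(nat_lit 526))],
    [(k0,(nat_lit 454)),(k2,(nat_lit 460)),(k3,(nat_lit 472)),(k5,(nat_lit 475)),(k11,(nat_lit 478)),(k4,
    (nat_lit 481)),(k6,(nat_lit 484)),(k7,(nat_lit 484)),(k9,(nat_lit 505)),(k8,(nat_lit 511))],[(k0,(nat_lit 487)),
    (k2,(nat_lit 493)),(k11,(nat_lit 493)),(k4,(nat_lit 502)),(k3,(nat_lit 505)),(k6,(nat_lit 505)),(k7,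
    (nat_lit 505)),(k5,(nat_lit 508)),(k8,(nat_lit 526)),(k9,(nat_lit 526))],[(k5,(nat_lit 454)),(k4,(nat_lit 460)),
    (k7,(nat_lit 475)),(k0,(nat_lit 493)),(k2,(nat_lit 499)),(k11,(nat_lit 499)),(k3,(nat_lit 511)),(k6,
    (nat_lit 511)),(k8,(nat_lit 526)),(k9,(nat_lit 526))],[(k0,(nat_lit 442)),(k3,(nat_lit 460)),(k5,(nat_lit 463)),
    (k11,(nat_lit 472)),(k6,(nat_lit 478)),(k9,(nat_lit 493)),(k8,(nat_lit 499)),(k4,(nat_lit 505)),(k2,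
    (nat_lit 508)),(k7,(nat_lit 520))],[(k1,(nat_lit 466)),(k10,(nat_lit 472))]]
    [[k1,k1,k0,k0,k0,k1],[k1,k0,k1,k0,k0,k1],[k0,k3,k0,k0,k0,k0],[k0,k2,k1,k0,k0,k0],[k0,k2,k0,k1,k0,k0],[k0,k1,k2,k0,
    k0,k0],[k0,k1,k1,k1,k0,k0],[k0,k1,k1,k0,k1,k0],[k0,k1,k0,k2,k0,k0]]
    [.ref k95 k1 [(z1,[z1]),(z1,[y3,z1]),(z1,[z0,y1,y1,z3])],.ref k101 k0 [(z1,[z3,z0,y1]),(z1,[y3,z1,z1]),(z1,[z0,z0,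
    z1])],.ref k95 k0 [(z3,[y1,z1]),(z1,[z1]),(z1,[z0,z0,z1])],.ref k95 k0 [(z6,[y3,z2,z1]),(z2,[z3,z0,y1]),(z1,[z0,
    z0,z1])],.ref k95 k0 [(z6,[y3,z1,y1,z3]),(z2,[z3,z1,z1,y3]),(z1,[z0,z0,z1])],.ref k95 k0 [(z3,[y3,z1,z2]),(z1,[z3,
    z0,y2]),(z1,[z0,z0,z1])],.ref k95 k0 [(z1,[y1,z0,z0,z1]),(z1,[z3,z1,z0,y3]),(z1,[z0,z0,z1])],.ref k101 k0 [(z1,
    [y3,z1,z1]),(z1,[z3,z0,y1]),(z1,[z0,z0,z1])],.ref k95 k0 [(z3,[y3,y1,y2,z6]),(z1,[z3,z2,z2,y6]),(z1,[z0,z0,z1])]],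
    .lp k0 [(nat_lit 310),(nat_lit 292),(nat_lit 322),(nat_lit 332),(nat_lit 328),(nat_lit 332)] [k11,k11,k20,k20,k5,
    k5,k0,k0,k2,k2,k0,k0] k0 [[k0,k0,k0,k0,k0,k0,k10,k26,k54,k10,k0,k0],[k0,k0,k48,k16,k2,k34,k0,k0,k0,k0,k0,k0],[k16,
    k0,k0,k0,k6,k0,k0,k0,k6,k0,k0,k0],[k48,k0,k0,k0,k0,k0,k6,k10,k38,k0,k0,k0],[k34,k0,k0,k0,k0,k0,k0,k0,k0,k12,k0,
    k0],[k2,k0,k0,k6,k0,k0,k0,k0,k0,k12,k0,k0],[k0,k26,k10,k0,k0,k0,k0,k0,k0,k0,k0,k0],[k0,k10,k6,k0,k0,k0,k12,k0,k0,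
    k0,k0,k0],[k0,k10,k0,k0,k12,k12,k0,k0,k0,k0,k0,k0],[k0,k54,k38,k6,k0,k0,k0,k0,k0,k0,k0,k0],[k0,k0,k0,k0,k0,k0,k0,
    k0,k0,k0,k0,k0],[k0,k0,k0,k0,k0,k0,k0,k0,k0,k0,k0,k0]] (nat_lit 960) k5
    [[(k1,(nat_lit 310)),(k10,(nat_lit 321))],[(k11,(nat_lit 267)),(k6,(nat_lit 295)),(k3,(nat_lit 301)),(k8,
    (nat_lit 309)),(k9,(nat_lit 309)),(k0,(nat_lit 310)),(k4,(nat_lit 318)),(k5,(nat_lit 332)),(k2,(nat_lit 349)),(k7,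
    (nat_lit 355))],[(k5,(nat_lit 259)),(k4,(nat_lit 273)),(k2,(nat_lit 276)),(k3,(nat_lit 292)),(k0,(nat_lit 301)),
    (k7,(nat_lit 310)),(k6,(nat_lit 322)),(k11,(nat_lit 322)),(k9,(nat_lit 336)),(k8,(nat_lit 364))],[(k3,
    (nat_lit 276)),(k2,(nat_lit 292)),(k7,(nat_lit 306)),(k11,(nat_lit 306)),(k4,(nat_lit 307)),(k5,(nat_lit 307)),
    (k6,(nat_lit 318)),(k9,(nat_lit 320)),(k8,(nat_lit 348)),(k0,(nat_lit 349))],[(k3,(nat_lit 259)),(k11,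
    (nat_lit 289)),(k2,(nat_lit 307)),(k6,(nat_lit 317)),(k9,(nat_lit 319)),(k5,(nat_lit 322)),(k7,(nat_lit 327)),(k4,
    (nat_lit 328)),(k8,(nat_lit 331)),(k0,(nat_lit 332))],[(k3,(nat_lit 273)),(k2,(nat_lit 307)),(k8,(nat_lit 313)),
    (k0,(nat_lit 318)),(k4,(nat_lit 322)),(k9,(nat_lit 325)),(k6,(nat_lit 327)),(k7,(nat_lit 327)),(k5,(nat_lit 328)),
    (k11,(nat_lit 339))],[(k2,(nat_lit 306)),(k3,(nat_lit 310)),(k8,(nat_lit 318)),(k4,(nat_lit 327)),(k5,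
    (nat_lit 327)),(k9,(nat_lit 330)),(k6,(nat_lit 332)),(k7,(nat_lit 332)),(k11,(nat_lit 344)),(k0,(nat_lit 355))],
    [(k0,(nat_lit 295)),(k5,(nat_lit 317)),(k2,(nat_lit 318)),(k3,(nat_lit 322)),(k4,(nat_lit 327)),(k8,
    (nat_lit 330)),(k9,(nat_lit 330)),(k7,(nat_lit 332)),(k11,(nat_lit 332)),(k6,(nat_lit 344))],[(k0,(nat_lit 309)),
    (k9,(nat_lit 316)),(k5,(nat_lit 319)),(k2,(nat_lit 320)),(k4,(nat_lit 325)),(k8,(nat_lit 328)),(k6,(nat_lit 330)),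
    (k7,(nat_lit 330)),(k11,(nat_lit 330)),(k3,(nat_lit 336))],[(k0,(nat_lit 309)),(k4,(nat_lit 313)),(k7,
    (nat_lit 318)),(k8,(nat_lit 328)),(k9,(nat_lit 328)),(k6,(nat_lit 330)),(k11,(nat_lit 330)),(k5,(nat_lit 331)),
    (k2,(nat_lit 348)),(k3,(nat_lit 364))],[(k0,(nat_lit 267)),(k5,(nat_lit 289)),(k2,(nat_lit 306)),(k3,
    (nat_lit 322)),(k8,(nat_lit 330)),(k9,(nat_lit 330)),(k6,(nat_lit 332)),(k11,(nat_lit 332)),(k4,(nat_lit 339)),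
    (k7,(nat_lit 344))],[(k1,(nat_lit 321)),(k10,(nat_lit 332))]]
    [[k2,k0,k0,k0,k1,k0],[k1,k1,k0,k0,k0,k1],[k1,k0,k1,k0,k0,k1],[k0,k3,k0,k0,k0,k0],[k0,k2,k1,k0,k0,k0],[k0,k2,k0,k1,
    k0,k0],[k0,k1,k2,k0,k0,k0],[k0,k1,k1,k1,k0,k0],[k0,k1,k1,k0,k1,k0]]
    [.ref k5 k0 [(z1,[z3,z0,z3,z1,z3,y3]),(z1,[y3,z1,z0,y1,y3,z3]),(z1,[z0,z0,z0,z1]),(z2,[z3,y1,z3,z1,z9,y3]),(z1,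
    [y3,z0,y6,y2,y6,z6])],.ref k5 k0 [(z1,[z6,y1,y6]),(z1,[y6,z2,z9]),(z1,[z0,z0,z0,z1]),(z1,[z3,y1,y3,z0,z3]),(z1,
    [y6,z1,z3,y1,y3,z3])],.ref k5 k0 [(z3,[z6,z1,z0,y2]),(z3,[y6,z2,z9,z2]),(z1,[z0,z0,z0,z1]),(z3,[z3,y1,z0,y1,z9]),
    (z3,[y6,y1,y9,y1,y9,z9])],.ref k5 k0 [(z1,[y1,z1,z3]),(z1,[z1]),(z1,[z0,z0,z0,z1]),(z2,[y1,z0,z3,z0,z6]),(z1,[z1,
    y1,y6,y1,y3,z3])],.ref k5 k0 [(z2,[y3,z2,z6,z1]),(z2,[z3,z0,z0,y1]),(z1,[z0,z0,z0,z1]),(z4,[y3,z0,z6,z1,z12]),(z2,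
    [z3,y2,y12,y3,y6,z6])],.ref k5 k0 [(z1,[y2,z1,z4,z0,z2]),(z1,[z2,z0,y1,z0,y2]),(z1,[z0,z0,z0,z1]),(z1,[y1,z0,z2,
    z0,z4]),(z1,[z2,y1,y7,y1,y5,z3])],.ref k5 k0 [(z1,[y3,z1,z3,z2]),(z1,[z3,z0,z0,y2]),(z1,[z0,z0,z0,z1]),(z2,[y3,z0,
    z3,z2,z6]),(z1,[z3,y1,y6,y3,y3,z3])],.ref k5 k0 [(z1,[y6,z1,z6,z2,z6]),(z1,[z6,z0,y3,y2,y6]),(z1,[z0,z0,z0,z1]),
    (z1,[y3,z0,z3,z1,z6]),(z1,[z6,y1,y9,y3,y9,z3])],.ref k5 k0 [(z2,[y3,z1,z0,z0,y3,z3]),(z2,[z3,z1,z6,z0,z3,y3]),(z1,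
    [z0,z0,z0,z1]),(z4,[y3,y1,z0,z0,z9,z3]),(z2,[z3,y1,y6,y2,y3,z3])]],
    .base (.leafM k0 [k0,k1,k2,k3,k4,k5] [(z3,[z0,z1,z1,z3])] []),
    .base (.leafM k3 [k0,k1,k2,k3,k4,k5] [(z2,[y1,z0,y1,z0,z2])] []),
    .base (.leafM k3 [k2,k3,k4,k5,k0,k1] [(z3,[z1,z0,z0,z1])] []),
    .lp k0 [k154,k160,k170,k174,k172,k122] [k8,k42,k22,k22,k17,k17,k15,k15,k0,k32,k41,k41] k0 [[k0,k0,k0,k0,k2,k0,k0,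
    k0,k8,k76,k0,k0],[k0,k0,k12,k0,k2,k0,k0,k0,k0,k0,k0,k0],[k0,k0,k0,k0,k0,k0,k0,k28,k0,k0,k0,k0],[k12,k0,k0,k0,k2,
    k0,k0,k0,k8,k0,k0,k0],[k0,k0,k0,k0,k0,k0,k2,k0,k2,k30,k0,k0],[k2,k2,k2,k0,k0,k0,k0,k0,k0,k0,k0,k0],[k0,k0,k0,k28,
    k0,k0,k0,k0,k0,k0,k0,k0],[k0,k0,k0,k0,k0,k2,k0,k0,k0,k32,k0,k0],[k0,k76,k0,k0,k0,k30,k32,k0,k0,k0,k0,k0],[k0,k8,
    k8,k0,k0,k2,k0,k0,k0,k0,k0,k0],[k0,k0,k0,k0,k0,k0,k0,k0,k0,k0,k0,k0],[k0,k0,k0,k0,k0,k0,k0,k0,k0,k0,k0,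
    k0]] (nat_lit 480) k5
    [[(k1,k120),(k10,k121)],[(k8,k120),(k11,k147),(k9,k164),(k3,k174),(k5,k179),(k7,k179),(k4,k181),(k6,k181),(k2,
    k186),(k0,k188)],[(k9,k150),(k5,k153),(k2,k160),(k3,k160),(k7,k165),(k4,k167),(k6,k167),(k0,k174),(k8,k190),(k11,
    (nat_lit 217))],[(k6,k139),(k11,k141),(k9,k150),(k2,k160),(k3,k160),(k5,k165),(k4,k167),(k7,k167),(k0,k186),(k8,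
    k190)],[(k11,k138),(k3,k153),(k2,k165),(k4,k170),(k5,k170),(k7,k170),(k6,k172),(k0,k179),(k9,k183),(k8,k187)],
    [(k11,k144),(k9,k153),(k8,k157),(k2,k167),(k3,k167),(k4,k170),(k5,k170),(k6,k172),(k7,k172),(k0,k181)],[(k9,k157),
    (k3,k165),(k2,k167),(k5,k170),(k4,k172),(k7,k174),(k6,k176),(k11,k178),(k0,k179),(k8,k191)],[(k2,k139),(k9,k157),
    (k3,k167),(k4,k172),(k5,k172),(k6,k174),(k7,k176),(k11,k180),(k0,k181),(k8,k189)],[(k11,k131),(k8,k140),(k9,k140),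
    (k2,k150),(k3,k150),(k4,k153),(k6,k157),(k7,k157),(k0,k164),(k5,k183)],[(k0,k120),(k9,k140),(k4,k157),(k11,k163),
    (k5,k187),(k6,k189),(k2,k190),(k3,k190),(k7,k191),(k8,(nat_lit 204))],[(k11,k122),(k9,k131),(k5,k138),(k2,k141),
    (k4,k144),(k0,k147),(k8,k163),(k7,k178),(k6,k180),(k3,(nat_lit 217))],[(k1,k121),(k10,k122)]]
    [[k2,k0,k0,k0,k1,k0],[k1,k1,k0,k0,k0,k1],[k1,k0,k1,k0,k0,k1],[k1,k0,k0,k0,k1,k1],[k0,k2,k0,k1,k0,k0],[k0,k1,k1,k1,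
    k0,k0],[k0,k1,k1,k0,k1,k0],[k0,k0,k1,k0,k0,k2],[k0,k0,k0,k0,k3,k0],[k0,k0,k0,k0,k1,k2]]
    [.ref k5 k0 [(z3,[z6,z1,z2,z2,z2,y6]),(z3,[y12,z4,y1,y4,y4,z12]),(z3,[z6,y2,z2,z5,z2,y6]),(z1,[z0,z0,z0,z0,z1]),
    (z3,[y3,y2,y4,y4,y4,z12])],.ref k5 k0 [(z1,[y6,z3,z2]),(z1,[z12,y4,y3]),(z1,[y6,z2,z2,z1]),(z1,[z0,z0,z0,z0,z1]),
    (z1,[z3,y2,y2,y1,y1,z3])],.ref k5 k0 [(z5,[z6,z3,z0,y2]),(z5,[y12,z4,z5,z4]),(z5,[z6,y2,z0,z3]),(z1,[z0,z0,z0,z0,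
    z1]),(z5,[y3,y4,y5,y4,y5,z15])],.ref k5 k0 [(z1,[z3,z1,z1,z1,z1,y3]),(z1,[y6,z0,y1,y2,y2,z6]),(z1,[z3,z0,z1,z2,z1,
    y3]),(z1,[z0,z0,z0,z0,z1]),(z2,[y3,y2,y3,y3,y3,z9])],.ref k5 k0 [(z4,[y3,z4,z2,z0,z1]),(z2,[z3,z0,z0,z0,y1]),(z4,
    [y3,z0,z2,z4,z1]),(z1,[z0,z0,z0,z0,z1]),(z8,[z3,y8,y10,y8,y9,z24])],.ref k5 k0 [(z1,[y3,z1,z1,z1,z1]),(z1,[z6,z0,
    y1,y2,y2]),(z1,[y3,z0,z1,z2,z1]),(z1,[z0,z0,z0,z0,z1]),(z2,[z3,y2,y3,y3,y3,z6])],.ref k5 k0 [(z3,[y6,z1,z0,z0,y2,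
    z6]),(z3,[z12,z4,z3,z0,z4,y12]),(z3,[y6,y2,z0,z3,y2,z6]),(z1,[z0,z0,z0,z0,z1]),(z3,[z3,y2,y3,y3,y2,z6])],
    .ref k5 k0 [(z2,[z3,z2,z0,y1]),(z1,[y3,z0,z1,z1]),(z2,[z3,z0,z0,z1]),(z1,[z0,z0,z0,z0,z1]),(z4,[y3,y4,y4,y3,y4,
    z12])],.ref k5 k0 [(z1,[y2,y1,y2,y2,y2,z6]),(z1,[z4,z4,z5,z4,z4,y12]),(z1,[y2,y2,y2,y1,y2,z6]),(z1,[z0,z0,z0,z0,
    z1]),(z1,[z1])],.ref k5 k0 [(z1,[z6,z3,z2,z2,z2,y6]),(z1,[y12,y4,y3,y4,y4,z12]),(z1,[z6,z2,z2,z3,z2,y6]),(z1,[z0,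
    z0,z0,z0,z1]),(z1,[y3,y2,y2,y2,y2,z6])]]]

theorem hB6_90_8 : blkB [0, 0, 0, 0, 0, 1] [] sp6 hS6_90 (pcls (n := 6) [0, 0, 0, 0, 0, 1]) hD6_90 143 8 hN6_90_8 = true := by
  decide +kernel

/-- nodes 108 to 119 -/
noncomputable def hN6_90_9 : List HM :=
  [.lp k0 [(nat_lit 310),(nat_lit 292),(nat_lit 322),(nat_lit 332),(nat_lit 328),(nat_lit 332)] [k11,k11,k20,k20,k5,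
    k5,k0,k0,k2,k2,k0,k0] k0 [[k0,k0,k0,k0,k0,k0,k10,k26,k54,k10,k0,k0],[k0,k0,k48,k16,k2,k34,k0,k0,k0,k0,k0,k0],[k16,
    k0,k0,k0,k6,k0,k0,k0,k6,k0,k0,k0],[k48,k0,k0,k0,k0,k0,k6,k10,k38,k0,k0,k0],[k34,k0,k0,k0,k0,k0,k0,k0,k0,k12,k0,
    k0],[k2,k0,k0,k6,k0,k0,k0,k0,k0,k12,k0,k0],[k0,k26,k10,k0,k0,k0,k0,k0,k0,k0,k0,k0],[k0,k10,k6,k0,k0,k0,k12,k0,k0,
    k0,k0,k0],[k0,k10,k0,k0,k12,k12,k0,k0,k0,k0,k0,k0],[k0,k54,k38,k6,k0,k0,k0,k0,k0,k0,k0,k0],[k0,k0,k0,k0,k0,k0,k0,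
    k0,k0,k0,k0,k0],[k0,k0,k0,k0,k0,k0,k0,k0,k0,k0,k0,k0]] (nat_lit 960) k5
    [[(k1,(nat_lit 310)),(k10,(nat_lit 321))],[(k11,(nat_lit 267)),(k6,(nat_lit 295)),(k3,(nat_lit 301)),(k8,
    (nat_lit 309)),(k9,(nat_lit 309)),(k0,(nat_lit 310)),(k4,(nat_lit 318)),(k5,(nat_lit 332)),(k2,(nat_lit 349)),(k7,
    (nat_lit 355))],[(k5,(nat_lit 259)),(k4,(nat_lit 273)),(k2,(nat_lit 276)),(k3,(nat_lit 292)),(k0,(nat_lit 301)),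
    (k7,(nat_lit 310)),(k6,(nat_lit 322)),(k11,(nat_lit 322)),(k9,(nat_lit 336)),(k8,(nat_lit 364))],[(k3,
    (nat_lit 276)),(k2,(nat_lit 292)),(k7,(nat_lit 306)),(k11,(nat_lit 306)),(k4,(nat_lit 307)),(k5,(nat_lit 307)),
    (k6,(nat_lit 318)),(k9,(nat_lit 320)),(k8,(nat_lit 348)),(k0,(nat_lit 349))],[(k3,(nat_lit 259)),(k11,
    (nat_lit 289)),(k2,(nat_lit 307)),(k6,(nat_lit 317)),(k9,(nat_lit 319)),(k5,(nat_lit 322)),(k7,(nat_lit 327)),(k4,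
    (nat_lit 328)),(k8,(nat_lit 331)),(k0,(nat_lit 332))],[(k3,(nat_lit 273)),(k2,(nat_lit 307)),(k8,(nat_lit 313)),
    (k0,(nat_lit 318)),(k4,(nat_lit 322)),(k9,(nat_lit 325)),(k6,(nat_lit 327)),(k7,(nat_lit 327)),(k5,(nat_lit 328)),
    (k11,(nat_lit 339))],[(k2,(nat_lit 306)),(k3,(nat_lit 310)),(k8,(nat_lit 318)),(k4,(nat_lit 327)),(k5,
    (nat_lit 327)),(k9,(nat_lit 330)),(k6,(nat_lit 332)),(k7,(nat_lit 332)),(k11,(nat_lit 344)),(k0,(nat_lit 355))],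
    [(k0,(nat_lit 295)),(k5,(nat_lit 317)),(k2,(nat_lit 318)),(k3,(nat_lit 322)),(k4,(nat_lit 327)),(k8,
    (nat_lit 330)),(k9,(nat_lit 330)),(k7,(nat_lit 332)),(k11,(nat_lit 332)),(k6,(nat_lit 344))],[(k0,(nat_lit 309)),
    (k9,(nat_lit 316)),(k5,(nat_lit 319)),(k2,(nat_lit 320)),(k4,(nat_lit 325)),(k8,(nat_lit 328)),(k6,(nat_lit 330)),
    (k7,(nat_lit 330)),(k11,(nat_lit 330)),(k3,(nat_lit 336))],[(k0,(nat_lit 309)),(k4,(nat_lit 313)),(k7,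
    (nat_lit 318)),(k8,(nat_lit 328)),(k9,(nat_lit 328)),(k6,(nat_lit 330)),(k11,(nat_lit 330)),(k5,(nat_lit 331)),
    (k2,(nat_lit 348)),(k3,(nat_lit 364))],[(k0,(nat_lit 267)),(k5,(nat_lit 289)),(k2,(nat_lit 306)),(k3,
    (nat_lit 322)),(k8,(nat_lit 330)),(k9,(nat_lit 330)),(k6,(nat_lit 332)),(k11,(nat_lit 332)),(k4,(nat_lit 339)),
    (k7,(nat_lit 344))],[(k1,(nat_lit 321)),(k10,(nat_lit 332))]]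
    [[k2,k0,k0,k0,k1,k0],[k1,k1,k0,k0,k0,k1],[k1,k0,k1,k0,k0,k1],[k0,k3,k0,k0,k0,k0],[k0,k2,k1,k0,k0,k0],[k0,k2,k0,k1,
    k0,k0],[k0,k1,k2,k0,k0,k0],[k0,k1,k1,k1,k0,k0],[k0,k1,k1,k0,k1,k0]]
    [.ref k5 k0 [(z12,[z6,z15,z1,z2,z6,y6]),(z12,[y6,z3,z5,y2,y6,z6]),(z1,[z0,z0,z0,z1]),(z6,[y6,z3,y1,y2,z12,z6]),
    (z6,[z12,y15,y1,y2,y6,z6])],.ref k5 k0 [(z4,[y6,z9,z1]),(z4,[z6,y3,z1]),(z1,[z0,z0,z0,z1]),(z2,[z6,y3,y1,z0,z6]),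
    (z2,[y12,z3,z1,y2,y6,z6])],.ref k5 k0 [(z1,[y3,z3,z0,z1]),(z2,[z6,y3,z1,y2]),(z1,[z0,z0,z0,z1]),(z1,[z6,y3,z0,y2,
    z3]),(z2,[y24,z9,y1,z6,y6,z6])],.ref k5 k0 [(z2,[y2,z3,z1]),(z1,[z1]),(z1,[z0,z0,z0,z1]),(z1,[z2,z0,y1,z0,z3]),
    (z2,[y8,y3,z3,y2,y6,z6])],.ref k5 k0 [(z2,[y3,z3,z1,z1]),(z2,[z3,z0,z0,y1]),(z1,[z0,z0,z0,z1]),(z1,[z3,z0,y1,y1,
    z3]),(z2,[y12,y3,z3,z2,y6,z6])],.ref k5 k0 [(z4,[y3,z6,z1,z0,z3]),(z4,[z3,z0,z1,z0,y3]),(z1,[z0,z0,z0,z1]),(z2,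
    [z3,z0,y1,z0,z3]),(z2,[y6,y3,z1,y2,z0,z6])],.ref k5 k0 [(z2,[y6,z3,z1,z4]),(z1,[z3,z0,z0,y2]),(z1,[z0,z0,z0,z1]),
    (z1,[z6,z0,y1,y4,z3]),(z2,[y24,y3,z3,z14,y6,z6])],.ref k5 k0 [(z6,[y6,z9,z1,z2,z6]),(z3,[z3,z0,z1,y1,y3]),(z1,[z0,
    z0,z0,z1]),(z3,[z6,z0,y1,y2,z3]),(z6,[y24,y9,z1,z2,z6,z18])],.ref k5 k0 [(z1,[z1,z2,z0,z0,z1,y1]),(z2,[y2,y1,z1,
    z0,y2,z2]),(z1,[z0,z0,z0,z1]),(z1,[y2,y1,z0,z0,z1,z2]),(z2,[z8,z1,y1,y2,z2,y2])]],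
    .base (.spec k11 false k0 [(z1,[z2,z1]),(z1,[y1]),(z3,[z0,z0,z2,z1]),(z3,[y3,y3,y2,y1,z3])]),
    .lp k0 [k40,k40,k40,k40,k44,k34] [k2,k2,k2,k2,k2,k2,k2,k2,k0,k0,k5,k5] k0 [[k0,k0,k0,k0,k0,k0,k0,k0,k0,k12,k0,k0],
    [k0,k0,k0,k0,k0,k0,k2,k0,k0,k0,k0,k0],[k0,k0,k0,k0,k0,k0,k0,k0,k0,k0,k0,k0],[k0,k0,k0,k0,k0,k0,k0,k0,k2,k0,k0,k0],
    [k0,k0,k0,k0,k0,k0,k0,k0,k0,k4,k0,k0],[k0,k0,k0,k0,k0,k0,k0,k0,k0,k0,k0,k0],[k0,k0,k0,k0,k0,k0,k0,k0,k0,k0,k0,k0],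
    [k2,k0,k0,k0,k0,k0,k0,k0,k0,k8,k0,k0],[k0,k12,k0,k0,k0,k4,k8,k0,k0,k0,k0,k0],[k0,k0,k2,k0,k0,k0,k0,k0,k0,k0,k0,
    k0],[k0,k0,k0,k0,k0,k0,k0,k0,k0,k0,k0,k0],[k0,k0,k0,k0,k0,k0,k0,k0,k0,k0,k0,k0]] k120 k5
    [[(k10,k37),(k1,k40)],[(k8,k30),(k11,k37),(k0,k40),(k2,k40),(k3,k40),(k4,k40),(k5,k40),(k7,k40),(k6,k42),(k9,
    k42)],[(k0,k40),(k2,k40),(k3,k40),(k4,k40),(k5,k40),(k6,k40),(k7,k40),(k9,k40),(k8,k42),(k11,k49)],[(k11,k37),(k0,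
    k40),(k2,k40),(k3,k40),(k4,k40),(k5,k40),(k6,k40),(k7,k40),(k9,k42),(k8,k44)],[(k11,k35),(k0,k40),(k2,k40),(k3,
    k40),(k4,k40),(k5,k40),(k6,k40),(k7,k40),(k8,k42),(k9,k42)],[(k11,k37),(k8,k38),(k0,k40),(k2,k40),(k3,k40),(k4,
    k40),(k5,k40),(k6,k40),(k7,k40),(k9,k42)],[(k0,k40),(k2,k40),(k3,k40),(k4,k40),(k5,k40),(k6,k40),(k7,k40),(k11,
    k41),(k8,k42),(k9,k42)],[(k2,k40),(k3,k40),(k4,k40),(k5,k40),(k6,k40),(k7,k40),(k0,k42),(k8,k42),(k9,k42),(k11,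
    k45)],[(k8,k36),(k11,k39),(k3,k40),(k0,k42),(k2,k42),(k4,k42),(k5,k42),(k6,k42),(k7,k42),(k9,k44)],[(k0,k30),(k9,
    k36),(k4,k38),(k11,k39),(k3,k42),(k5,k42),(k6,k42),(k7,k42),(k2,k44),(k8,k44)],[(k11,k34),(k5,k35),(k0,k37),(k2,
    k37),(k4,k37),(k8,k39),(k9,k39),(k7,k41),(k6,k45),(k3,k49)],[(k10,k34),(k1,k37)]]
    [[k2,k0,k0,k0,k1,k0],[k1,k1,k0,k0,k0,k1],[k1,k0,k1,k0,k0,k1],[k1,k0,k0,k0,k1,k1],[k0,k1,k1,k0,k1,k0],[k0,k0,k1,k0,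
    k2,k0],[k0,k0,k1,k0,k0,k2],[k0,k0,k0,k0,k3,k0],[k0,k0,k0,k0,k1,k2]]
    [.ref k103 k1 [(z1,[y3,y3,y3,y1,z3]),(z1,[z1]),(z1,[z0,z0,z0,z1]),(z1,[z0,y1])],.ref k104 k1 [(z1,[z1,y2,y1]),(z1,
    [y3,z3,z0,y1,z3]),(z1,[z0,z0,z0,z1]),(z1,[z0,y1])],.ref k105 k0 [(z1,[z1,z1]),(z1,[y1,z1,z1]),(z1,[z1,y1]),(z1,
    [z0,z0,z0,z1])],.ref k9 k0 [(z1,[z3,z3,z3,z1,y3]),(z1,[y6,z0,y3,y2,z6]),(z1,[z3,z0,z3,z1,y3]),(z1,[z0,z0,z0,z1])],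
    .ref k106 k0 [(z1,[y3,z0,z0,y1,z3]),(z1,[z6,z6,z3,z2,y6]),(z1,[y3,y3,z0,y1,z3]),(z1,[z0,z0,z0,z1])],
    .ref k107 k0 [(z1,[z3,z9,z6,z2,y6]),(z1,[y6,y12,y9,y4,z12]),(z1,[z3,z6,z6,z2,y6]),(z1,[z0,z0,z0,z1])],
    .ref k108 k1 [(z1,[z1,z1]),(z1,[y3,y9,y6,y2,z6]),(z1,[z0,z0,z0,z1]),(z1,[z0,y1])],.ref k109 k0 [(z1,[z0,z1]),(z1,
    [z0,z0,z1]),(z1,[z0,z0,z0,z1]),(z1,[z1])],.ref k109 k0 [(z1,[z0,z1]),(z1,[z0,z0,z1]),(z1,[z0,z0,z0,z1]),(z1,[y3,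
    y6,y6,y2,z6])]],
    .base (.leafM k0 [k0,k1,k2,k3,k4,k5] [(z1,[y1,z0,z0,z1])] []),
    .base (.leafM k3 [k2,k3,k4,k5,k0,k1] [(z3,[z0,y1,y1,z3])] []),
    .base (.leafM k3 [k0,k1,k2,k3,k4,k5] [(z3,[y1,z0,y1,z3])] []),
    .lp k0 [k76,k78,k80,k80,k82,k80] [k3,k3,k2,k2,k1,k1,k1,k1,k0,k0,k1,k1] k0 [[k0,k4,k8,k14,k0,k0,k0,k0,k12,k0,k0,
    k0],[k0,k0,k0,k0,k16,k4,k4,k6,k0,k0,k0,k0],[k0,k14,k0,k6,k6,k0,k0,k0,k0,k0,k0,k0],[k0,k8,k0,k0,k0,k0,k0,k0,k2,k2,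
    k0,k0],[k4,k0,k0,k0,k0,k0,k0,k0,k0,k0,k0,k0],[k16,k0,k0,k6,k0,k0,k0,k0,k0,k2,k0,k0],[k6,k0,k0,k0,k0,k0,k0,k0,k0,
    k2,k0,k0],[k4,k0,k0,k0,k0,k0,k0,k0,k0,k0,k0,k0],[k0,k0,k2,k0,k2,k0,k0,k2,k0,k0,k0,k0],[k0,k12,k2,k0,k0,k0,k0,k0,
    k2,k0,k0,k0],[k0,k0,k0,k0,k0,k0,k0,k0,k0,k0,k0,k0],[k0,k0,k0,k0,k0,k0,k0,k0,k0,k0,k0,k0]] (nat_lit 240) k5
    [[(k1,k76),(k10,k78)],[(k2,k63),(k11,k66),(k5,k70),(k0,k72),(k3,k77),(k8,k79),(k6,k82),(k7,k82),(k9,k85),(k4,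
    k94)],[(k7,k63),(k6,k73),(k4,k75),(k9,k76),(k0,k77),(k11,k79),(k3,k82),(k2,k86),(k8,k92),(k5,k93)],[(k0,k63),(k2,
    k72),(k7,k73),(k4,k79),(k5,k79),(k6,k79),(k9,k80),(k11,k81),(k8,k82),(k3,k86)],[(k0,k70),(k11,k78),(k2,k79),(k8,
    k79),(k6,k80),(k7,k80),(k9,k81),(k4,k86),(k5,k86),(k3,k93)],[(k3,k75),(k2,k79),(k4,k80),(k6,k80),(k7,k80),(k8,
    k81),(k9,k81),(k11,k82),(k5,k86),(k0,k94)],[(k3,k63),(k2,k73),(k8,k79),(k4,k80),(k5,k80),(k6,k80),(k7,k80),(k11,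
    k80),(k9,k81),(k0,k82)],[(k3,k73),(k2,k79),(k8,k79),(k4,k80),(k5,k80),(k6,k80),(k7,k80),(k11,k80),(k9,k81),(k0,
    k82)],[(k3,k76),(k2,k80),(k4,k81),(k5,k81),(k6,k81),(k7,k81),(k8,k82),(k9,k82),(k11,k83),(k0,k85)],[(k0,k79),(k5,
    k79),(k6,k79),(k7,k79),(k4,k81),(k11,k81),(k2,k82),(k9,k82),(k8,k84),(k3,k92)],[(k0,k66),(k5,k78),(k11,k78),(k3,
    k79),(k6,k80),(k7,k80),(k2,k81),(k8,k81),(k4,k82),(k9,k83)],[(k1,k78),(k10,k80)]]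
    [[k2,k1,k0,k0,k0,k0],[k1,k1,k0,k0,k0,k1],[k1,k0,k1,k0,k0,k1],[k0,k2,k0,k1,k0,k0],[k0,k1,k1,k1,k0,k0],[k0,k1,k1,k0,
    k1,k0],[k0,k1,k0,k2,k0,k0],[k0,k1,k0,k1,k1,k0]]
    [.ref k110 k0 [(z2,[z1,z0,y1]),(z1,[z0,z0,z1]),(z1,[z0,y1,y3,z3])],.ref k111 k1 [(z1,[z1]),(z1,[y6,z2,z3]),(z1,
    [z0,y1,y3,z3])],.ref k112 k1 [(z1,[z2,z0,y1]),(z1,[y3,z1,z3]),(z1,[z0,y1,y3,z3])],.ref k95 k0 [(z4,[y1,z1,z1,z1]),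
    (z2,[z3,z1,z3,y3]),(z4,[y3,y1,z3,z3])],.ref k95 k0 [(z1,[y1,z0,z0,z1]),(z1,[z6,z2,z3,y6]),(z1,[y3,y1,z0,z3])],
    .ref k113 k1 [(z1,[y3,z1,z3]),(z1,[z2,z0,y1]),(z1,[z0,y1,y3,z3])],.ref k95 k0 [(z2,[y1,z0,y1,z2]),(z1,[z3,z2,z6,
    y6]),(z2,[y3,y2,y3,z6])],.ref k112 k1 [(z1,[y2,z0,y1,z2]),(z1,[z3,z1,z3,y3]),(z1,[z0,y1,y3,z3])]],
    .lp k0 [k118,k118,k142,k94,k142,k100] [k19,k21,k20,k20,k2,k14,k32,k32,k0,k16,k29,k29] k0 [[k0,k30,k18,k0,k0,k0,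
    k30,k0,k0,k0,k0,k0],[k0,k0,k6,k0,k0,k12,k18,k0,k12,k0,k0,k0],[k0,k0,k0,k0,k12,k30,k30,k0,k0,k18,k0,k0],[k6,k18,k0,
    k0,k0,k0,k12,k0,k0,k54,k0,k0],[k12,k0,k0,k30,k0,k0,k0,k0,k0,k66,k0,k0],[k0,k0,k0,k12,k0,k0,k0,k0,k0,k0,k0,k0],[k0,
    k0,k0,k0,k0,k0,k0,k0,k0,k18,k0,k0],[k18,k30,k12,k30,k0,k0,k0,k0,k0,k0,k0,k0],[k0,k0,k54,k18,k0,k66,k0,k18,k0,k0,
    k0,k0],[k12,k0,k0,k0,k0,k0,k0,k0,k6,k0,k0,k0],[k0,k0,k0,k0,k0,k0,k0,k0,k0,k0,k0,k0],[k0,k0,k0,k0,k0,k0,k0,k0,k0,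
    k0,k0,k0]] (nat_lit 360) k5
    [[(k10,k108),(k1,k116)],[(k0,k90),(k9,k93),(k5,k107),(k11,k110),(k3,k119),(k7,k119),(k2,k125),(k6,k125),(k4,k137),
    (k8,k151)],[(k11,k97),(k9,k104),(k7,k106),(k5,k118),(k0,k119),(k4,k124),(k2,k136),(k6,k136),(k8,k138),(k3,k148)],
    [(k9,k92),(k7,k94),(k4,k106),(k2,k118),(k6,k118),(k8,k120),(k5,k124),(k0,k125),(k3,k136),(k11,k163)],[(k8,k90),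
    (k0,k107),(k9,k116),(k3,k118),(k2,k124),(k5,k130),(k11,k133),(k6,k142),(k7,k142),(k4,k154)],[(k8,k90),(k2,k106),
    (k3,k124),(k6,k124),(k7,k124),(k11,k127),(k0,k137),(k9,k140),(k4,k154),(k5,k154)],[(k2,k94),(k6,k94),(k7,k94),(k3,
    k106),(k9,k110),(k0,k119),(k4,k124),(k8,k126),(k5,k142),(k11,k163)],[(k6,k94),(k7,k94),(k11,k97),(k8,k108),(k9,
    k110),(k2,k118),(k4,k124),(k0,k125),(k3,k136),(k5,k142)],[(k2,k92),(k0,k93),(k3,k104),(k6,k110),(k7,k110),(k5,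
    k116),(k9,k126),(k11,k131),(k4,k140),(k8,k142)],[(k4,k90),(k5,k90),(k6,k108),(k2,k120),(k7,k126),(k11,k129),(k3,
    k138),(k9,k142),(k0,k151),(k8,k164)],[(k11,k94),(k3,k97),(k6,k97),(k0,k110),(k4,k127),(k8,k129),(k9,k131),(k5,
    k133),(k2,k163),(k7,k163)],[(k10,k100),(k1,k108)]]
    [[k1,k1,k0,k0,k0,k1],[k1,k0,k1,k0,k0,k1],[k1,k0,k0,k1,k0,k1],[k1,k0,k0,k0,k1,k1],[k0,k1,k1,k0,k1,k0],[k0,k1,k1,k1,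
    k0,k0],[k0,k1,k0,k2,k0,k0],[k0,k1,k0,k1,k1,k0],[k0,k0,k1,k1,k1,k0],[k0,k0,k1,k0,k2,k0],[k0,k0,k0,k3,k0,k0],[k0,k0,
    k0,k2,k1,k0]]
    [.ref k84 k1 [(z1,[z1]),(z1,[y3,z1])],.ref k85 k0 [(z1,[z3,z1,y3]),(z1,[y1,z0,z1])],.ref k86 k0 [(z1,[z1]),(z1,
    [y3,z1])],.ref k87 k0 [(z1,[z1]),(z1,[y3,z1])],.ref k86 k0 [(z1,[y1,z0,z1]),(z1,[z3,z1,y3])],.ref k87 k0 [(z1,[y1,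
    z0,z1]),(z1,[z3,z1,y3])],.ref k97 k0 [(z1,[y3,z1]),(z1,[z1])],.ref k85 k0 [(z1,[y3,z1]),(z1,[z1])],
    .ref k84 k1 [(z1,[y1,z0,z1]),(z1,[z3,z1,y3])],.ref k100 k1 [(z2,[y3,z1,z3]),(z2,[z3,z1,y3])],.ref k102 k0 [(z1,
    [y1,z1]),(z1,[z0,y1,z3])],.ref k114 k1 [(z1,[y3,z1]),(z1,[z1])]],
    .base (.leafM k0 [k1,k2,k3,k4,k5,k0] [(z1,[y1,y1,z0,z1])] []),
    .base (.leafM k3 [k0,k1,k2,k3,k4,k5] [(z2,[y1,z0,y1,z2])] []),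
    .base (.leafM k3 [k2,k3,k4,k5,k0,k1] [(z1,[z0,y1,y1,z1])] []),
    .lp k0 [(nat_lit 390),(nat_lit 504),(nat_lit 468),(nat_lit 504),(nat_lit 492),(nat_lit 498)] [k57,k57,k0,k0,k22,
    k14,k0,k0,k6,k6,k3,k3] k0 [[k0,k0,k72,k84,k0,k0,k0,k0,k0,k0,k0,k0],[k0,k0,k0,k0,k0,k108,k48,k60,k60,k0,k0,k0],[k0,
    k84,k0,k12,k12,k0,k0,k0,k0,k0,k0,k0],[k0,k72,k0,k0,k0,k0,k0,k0,k0,k0,k0,k0],[k108,k0,k0,k0,k0,k0,k0,k0,k0,k0,k0,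
    k0],[k0,k0,k0,k12,k12,k0,k0,k0,k0,k0,k0,k0],[k60,k0,k0,k0,k0,k0,k0,k0,k0,k0,k0,k0],[k48,k0,k0,k0,k0,k0,k0,k0,k0,
    k0,k0,k0],[k0,k0,k0,k0,k0,k0,k0,k0,k0,k0,k0,k0],[k60,k0,k0,k0,k0,k0,k0,k0,k0,k0,k0,k0],[k0,k0,k0,k0,k0,k0,k0,k0,
    k0,k0,k0,k0],[k0,k0,k0,k0,k0,k0,k0,k0,k0,k0,k0,k0]] (nat_lit 1440) k5
    [[(k1,(nat_lit 390)),(k10,(nat_lit 444))],[(k5,(nat_lit 361)),(k2,(nat_lit 363)),(k0,(nat_lit 390)),(k4,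
    (nat_lit 425)),(k11,(nat_lit 444)),(k3,(nat_lit 447)),(k6,(nat_lit 495)),(k8,(nat_lit 501)),(k9,(nat_lit 501)),
    (k7,(nat_lit 555))],[(k4,(nat_lit 374)),(k11,(nat_lit 441)),(k6,(nat_lit 444)),(k0,(nat_lit 447)),(k9,
    (nat_lit 450)),(k8,(nat_lit 498)),(k3,(nat_lit 504)),(k7,(nat_lit 504)),(k5,(nat_lit 574)),(k2,(nat_lit 576))],
    [(k0,(nat_lit 363)),(k4,(nat_lit 482)),(k5,(nat_lit 490)),(k2,(nat_lit 492)),(k7,(nat_lit 492)),(k8,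
    (nat_lit 498)),(k9,(nat_lit 498)),(k11,(nat_lit 501)),(k6,(nat_lit 504)),(k3,(nat_lit 576))],[(k0,(nat_lit 361)),
    (k4,(nat_lit 480)),(k8,(nat_lit 484)),(k9,(nat_lit 484)),(k11,(nat_lit 487)),(k5,(nat_lit 488)),(k2,
    (nat_lit 490)),(k6,(nat_lit 490)),(k7,(nat_lit 490)),(k3,(nat_lit 574))],[(k3,(nat_lit 374)),(k0,(nat_lit 425)),
    (k4,(nat_lit 472)),(k8,(nat_lit 476)),(k9,(nat_lit 476)),(k11,(nat_lit 479)),(k5,(nat_lit 480)),(k2,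
    (nat_lit 482)),(k6,(nat_lit 482)),(k7,(nat_lit 482))],[(k4,(nat_lit 482)),(k5,(nat_lit 490)),(k2,(nat_lit 492)),
    (k7,(nat_lit 492)),(k8,(nat_lit 498)),(k9,(nat_lit 498)),(k11,(nat_lit 501)),(k3,(nat_lit 504)),(k6,
    (nat_lit 504)),(k0,(nat_lit 555))],[(k3,(nat_lit 444)),(k4,(nat_lit 482)),(k5,(nat_lit 490)),(k0,(nat_lit 495)),
    (k8,(nat_lit 498)),(k9,(nat_lit 498)),(k11,(nat_lit 501)),(k2,(nat_lit 504)),(k6,(nat_lit 504)),(k7,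
    (nat_lit 504))],[(k3,(nat_lit 450)),(k4,(nat_lit 476)),(k5,(nat_lit 484)),(k8,(nat_lit 492)),(k9,(nat_lit 492)),
    (k11,(nat_lit 495)),(k2,(nat_lit 498)),(k6,(nat_lit 498)),(k7,(nat_lit 498)),(k0,(nat_lit 501))],[(k4,
    (nat_lit 476)),(k5,(nat_lit 484)),(k8,(nat_lit 492)),(k9,(nat_lit 492)),(k11,(nat_lit 495)),(k2,(nat_lit 498)),
    (k3,(nat_lit 498)),(k6,(nat_lit 498)),(k7,(nat_lit 498)),(k0,(nat_lit 501))],[(k3,(nat_lit 441)),(k0,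
    (nat_lit 444)),(k4,(nat_lit 479)),(k5,(nat_lit 487)),(k8,(nat_lit 495)),(k9,(nat_lit 495)),(k11,(nat_lit 498)),
    (k2,(nat_lit 501)),(k6,(nat_lit 501)),(k7,(nat_lit 501))],[(k1,(nat_lit 444)),(k10,(nat_lit 498))]]
    [[k2,k1,k0,k0,k0,k0],[k2,k0,k1,k0,k0,k0],[k2,k0,k0,k0,k1,k0],[k1,k1,k0,k0,k0,k1],[k1,k0,k1,k0,k0,k1],[k0,k1,k2,k0,
    k0,k0],[k0,k1,k1,k1,k0,k0],[k0,k1,k1,k0,k1,k0]]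
    [.ref k5 k0 [(z6,[z10,y1,y5]),(z3,[y1,z1,z5]),(z3,[y4,z4,z2,z9]),(z3,[z2,y2,y1,z0,z9]),(z6,[y8,y1,y5,y18,y18,
    z18])],.ref k5 k0 [(z2,[z5,y2,z0,y5]),(z2,[y1,z1,z3,z1]),(z1,[y2,z2,z0,z5]),(z1,[z1,y1,z0,y1,z3]),(z2,[y4,z1,y3,
    y2,y6,z6])],.ref k5 k0 [(z4,[z10,z1,z5,z10,z10,y10]),(z4,[y2,z1,z5,y2,y2,z2]),(z1,[y2,z1,y1,z1,y2,z2]),(z2,[z2,y1,
    z1,z2,z8,y2]),(z2,[y4,y1,y5,y10,y10,z10])],.ref k5 k0 [(z4,[z10,z1,y5]),(z4,[y2,z1,z7]),(z1,[y2,z1,z1,z3]),(z2,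
    [z2,y1,y1,z0,z6]),(z2,[y4,y1,y1,y6,y6,z6])],.ref k5 k0 [(z1,[z5,y1,z0,y5]),(z2,[y2,z1,z3,z2]),(z1,[y4,z2,z0,z7]),
    (z1,[z2,y1,z0,y2,z3]),(z2,[y8,z1,y3,z2,y6,z6])],.ref k5 k0 [(z6,[y10,z9,z5,z20]),(z3,[z1,z0,z4,y2]),(z3,[z4,z0,y2,
    z1]),(z3,[y2,z0,z1,z4,z9]),(z6,[z8,y9,y13,y34,y18,z18])],.ref k5 k0 [(z2,[y10,z3,z5,z10,z10]),(z1,[z1,z0,z1,y1,
    y1]),(z1,[z4,z0,y2,y1,y4]),(z1,[y2,z0,z1,z2,z5]),(z2,[z8,y3,y7,y14,y14,z6])],.ref k5 k0 [(z3,[y5,z2,z0,z0,y5,z5]),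
    (z6,[z2,z1,z9,z0,z2,y2]),(z3,[z4,z2,z0,z9,z4,y4]),(z3,[y2,y1,z0,z0,z7,z2]),(z6,[z8,y5,y9,y18,y10,z10])]]]

theorem hB6_90_9 : blkB [0, 0, 0, 0, 0, 1] [] sp6 hS6_90 (pcls (n := 6) [0, 0, 0, 0, 0, 1]) hD6_90 143 9 hN6_90_9 = true := by
  decide +kernel

/-- nodes 120 to 131 -/
noncomputable def hN6_90_10 : List HM :=
  [.base (.leafM k0 [k0,k1,k2,k3,k4,k5] [(z2,[z0,z1,z1,z2])] []),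
    .base (.leafM k3 [k0,k1,k2,k3,k4,k5] [(z2,[y1,z0,y1,z0,z2])] []),
    .base (.leafM k3 [k2,k3,k4,k5,k0,k1] [(z3,[z1,z0,z0,z1])] []),
    .lp k0 [(nat_lit 590),(nat_lit 692),(nat_lit 654),(nat_lit 570),(nat_lit 716),(nat_lit 614)] [k63,k63,k12,k12,k31,
    k31,k73,k73,k0,k0,k51,k51] k0 [[k0,k0,k0,k0,k26,k0,k0,k12,k12,k0,k0,k0],[k0,k0,k48,k0,k86,k0,k0,k24,k0,k0,k0,k0],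
    [k0,k0,k0,k96,k70,k70,k0,k0,k0,k0,k0,k0],[k48,k0,k0,k0,k0,k0,k0,k28,k28,k0,k0,k0],[k0,k0,k0,k70,k0,k0,k90,k54,k98,
    k46,k0,k0],[k86,k26,k0,k70,k0,k0,k0,k0,k0,k0,k0,k0],[k24,k12,k28,k0,k0,k54,k0,k0,k0,k0,k0,k0],[k0,k0,k0,k0,k0,k90,
    k120,k0,k0,k76,k0,k0],[k0,k0,k0,k0,k0,k46,k76,k0,k0,k0,k0,k0],[k0,k12,k28,k0,k0,k98,k0,k0,k0,k0,k0,k0],[k0,k0,k0,
    k0,k0,k0,k0,k0,k0,k0,k0,k0],[k0,k0,k0,k0,k0,k0,k0,k0,k0,k0,k0,k0]] (nat_lit 1920) k5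
    [[(k1,(nat_lit 590)),(k10,(nat_lit 602))],[(k7,(nat_lit 554)),(k6,(nat_lit 568)),(k0,(nat_lit 590)),(k11,
    (nat_lit 590)),(k5,(nat_lit 622)),(k3,(nat_lit 641)),(k8,(nat_lit 653)),(k9,(nat_lit 677)),(k2,(nat_lit 689)),(k4,
    (nat_lit 708))],[(k7,(nat_lit 545)),(k6,(nat_lit 607)),(k5,(nat_lit 625)),(k0,(nat_lit 641)),(k11,(nat_lit 653)),
    (k2,(nat_lit 692)),(k3,(nat_lit 692)),(k4,(nat_lit 699)),(k8,(nat_lit 716)),(k9,(nat_lit 716))],[(k7,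
    (nat_lit 561)),(k2,(nat_lit 596)),(k4,(nat_lit 603)),(k6,(nat_lit 631)),(k11,(nat_lit 653)),(k5,(nat_lit 673)),
    (k0,(nat_lit 689)),(k3,(nat_lit 692)),(k8,(nat_lit 732)),(k9,(nat_lit 732))],[(k6,(nat_lit 584)),(k11,
    (nat_lit 606)),(k0,(nat_lit 622)),(k3,(nat_lit 625)),(k2,(nat_lit 673)),(k7,(nat_lit 682)),(k8,(nat_lit 685)),(k9,
    (nat_lit 685)),(k4,(nat_lit 724)),(k5,(nat_lit 750))],[(k11,(nat_lit 536)),(k6,(nat_lit 558)),(k9,(nat_lit 595)),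
    (k2,(nat_lit 603)),(k7,(nat_lit 612)),(k8,(nat_lit 639)),(k4,(nat_lit 654)),(k3,(nat_lit 699)),(k0,(nat_lit 708)),
    (k5,(nat_lit 724))],[(k3,(nat_lit 545)),(k0,(nat_lit 554)),(k2,(nat_lit 561)),(k7,(nat_lit 570)),(k4,
    (nat_lit 612)),(k11,(nat_lit 638)),(k6,(nat_lit 660)),(k5,(nat_lit 682)),(k9,(nat_lit 697)),(k8,(nat_lit 741))],
    [(k4,(nat_lit 558)),(k0,(nat_lit 568)),(k5,(nat_lit 584)),(k3,(nat_lit 607)),(k2,(nat_lit 631)),(k8,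
    (nat_lit 643)),(k9,(nat_lit 643)),(k7,(nat_lit 660)),(k11,(nat_lit 668)),(k6,(nat_lit 690))],[(k4,(nat_lit 595)),
    (k9,(nat_lit 596)),(k8,(nat_lit 640)),(k6,(nat_lit 643)),(k11,(nat_lit 665)),(k0,(nat_lit 677)),(k5,
    (nat_lit 685)),(k7,(nat_lit 697)),(k3,(nat_lit 716)),(k2,(nat_lit 732))],[(k4,(nat_lit 639)),(k9,(nat_lit 640)),
    (k6,(nat_lit 643)),(k0,(nat_lit 653)),(k11,(nat_lit 665)),(k5,(nat_lit 685)),(k3,(nat_lit 716)),(k8,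
    (nat_lit 716)),(k2,(nat_lit 732)),(k7,(nat_lit 741))],[(k4,(nat_lit 536)),(k0,(nat_lit 590)),(k5,(nat_lit 606)),
    (k11,(nat_lit 614)),(k7,(nat_lit 638)),(k2,(nat_lit 653)),(k3,(nat_lit 653)),(k8,(nat_lit 665)),(k9,
    (nat_lit 665)),(k6,(nat_lit 668))],[(k1,(nat_lit 602)),(k10,(nat_lit 614))]]
    [[k2,k0,k0,k1,k0,k0],[k1,k1,k0,k0,k0,k1],[k1,k0,k1,k0,k0,k1],[k1,k0,k0,k1,k0,k1],[k0,k2,k0,k1,k0,k0],[k0,k1,k1,k1,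
    k0,k0],[k0,k1,k0,k2,k0,k0],[k0,k0,k1,k2,k0,k0],[k0,k0,k1,k0,k0,k2],[k0,k0,k0,k2,k1,k0]]
    [.ref k119 k1 [(z1,[y2,y3,y2,y2,z2]),(z1,[z0,z1]),(z1,[z1]),(z1,[z0,y1,z0,z1])],.ref k120 k1 [(z1,[z1,y2,y1]),(z1,
    [z0,z1]),(z1,[y2,z1,z0,y2,z2]),(z1,[z0,y1,z0,z1])],.ref k121 k0 [(z1,[z1,z1,z0,y1]),(z1,[y1,z1,z1,z1]),(z1,[z1,y1,
    z0,z1]),(z1,[z1,y5,y4,y5,z4])],.ref k122 k0 [(z1,[z2,z3,z2,z2,y2]),(z1,[y4,z0,y1,y4,z4]),(z1,[z2,z0,z2,z5,y2]),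
    (z1,[z1,y3,y2,y2,z2])],.ref k77 k0 [(z1,[y2,z5,z2,y2,z2]),(z1,[z4,z4,z3,z4,y4]),(z1,[y2,y2,z2,z5,z2]),(z1,[y1,y8,
    y6,y8,z8])],.ref k20 k1 [(z1,[y2,y1,z0,z0,z2]),(z1,[z0,z1]),(z1,[z1,y1,y1,y1]),(z1,[z0,y1,z0,z1])],
    .ref k20 k1 [(z1,[y1,y1,y1,y2,z2]),(z1,[z0,z1]),(z2,[z1,y2,y1]),(z1,[z0,y1,z0,z1])],.ref k120 k1 [(z2,[y1,y4,y2,
    y1,z2]),(z1,[z0,z1]),(z1,[z1,z1,z0,y1]),(z1,[z0,y1,z0,z1])],.ref k20 k1 [(z1,[z1,z1,z0,y1]),(z1,[z0,z1]),(z2,[y1,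
    y4,y2,y1,z2]),(z1,[z0,y1,z0,z1])],.ref k55 k0 [(z1,[z2,z5,z4,z4,y4]),(z1,[y4,y8,y7,y8,z8]),(z1,[z2,z4,z4,z5,y4]),
    (z1,[z1,z1,z1,z1,y1])]],
    .base (.spec k11 false k0 [(z1,[z2,z1]),(z1,[y1]),(z1,[y1,y1,z1,z1]),(z1,[z0,z0,y1])]),
    .lp k0 [k76,k82,k82,k80,k80,k78] [k3,k3,k0,k0,k0,k0,k1,k1,k1,k1,k2,k2] k0 [[k0,k4,k10,k0,k0,k0,k12,k0,k4,k0,k0,
    k0],[k0,k0,k6,k0,k16,k0,k8,k0,k20,k0,k0,k0],[k0,k0,k0,k0,k2,k2,k2,k0,k0,k6,k0,k0],[k6,k10,k0,k0,k0,k0,k2,k0,k0,k0,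
    k0,k0],[k0,k0,k0,k2,k0,k0,k0,k4,k4,k4,k0,k0],[k16,k0,k0,k2,k0,k0,k0,k0,k0,k0,k0,k0],[k0,k0,k0,k0,k0,k4,k0,k0,k0,
    k4,k0,k0],[k8,k12,k2,k2,k0,k0,k0,k0,k0,k0,k0,k0],[k0,k0,k0,k6,k0,k4,k0,k4,k0,k0,k0,k0],[k20,k4,k0,k0,k0,k4,k0,k0,
    k0,k0,k0,k0],[k0,k0,k0,k0,k0,k0,k0,k0,k0,k0,k0,k0],[k0,k0,k0,k0,k0,k0,k0,k0,k0,k0,k0,k0]] (nat_lit 240) k5
    [[(k1,k76),(k10,k77)],[(k9,k66),(k5,k69),(k0,k72),(k11,k73),(k7,k78),(k3,k79),(k2,k85),(k6,k86),(k4,k95),(k8,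
    k98)],[(k11,k60),(k7,k65),(k9,k73),(k5,k76),(k0,k79),(k4,k82),(k8,k85),(k3,k86),(k2,k92),(k6,k93)],[(k8,k75),(k7,
    k79),(k9,k79),(k4,k80),(k11,k80),(k2,k82),(k5,k82),(k6,k83),(k0,k85),(k3,k92)],[(k0,k69),(k3,k76),(k9,k79),(k8,
    k81),(k2,k82),(k5,k82),(k6,k83),(k7,k83),(k4,k84),(k11,k86)],[(k11,k76),(k6,k77),(k8,k77),(k2,k80),(k7,k81),(k9,
    k81),(k3,k82),(k4,k82),(k5,k84),(k0,k95)],[(k3,k65),(k0,k78),(k2,k79),(k6,k80),(k7,k80),(k4,k81),(k5,k83),(k11,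
    k83),(k8,k84),(k9,k84)],[(k8,k76),(k4,k77),(k11,k79),(k6,k80),(k7,k80),(k9,k80),(k2,k83),(k5,k83),(k0,k86),(k3,
    k93)],[(k0,k66),(k3,k73),(k2,k79),(k5,k79),(k6,k80),(k8,k80),(k9,k80),(k4,k81),(k11,k83),(k7,k84)],[(k2,k75),(k6,
    k76),(k4,k77),(k11,k79),(k8,k80),(k9,k80),(k5,k81),(k7,k84),(k3,k85),(k0,k98)],[(k3,k60),(k0,k73),(k4,k76),(k11,
    k78),(k6,k79),(k8,k79),(k2,k80),(k7,k83),(k9,k83),(k5,k86)],[(k1,k77),(k10,k78)]]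
    [[k1,k1,k0,k0,k0,k1],[k1,k0,k1,k0,k0,k1],[k1,k0,k0,k1,k0,k1],[k1,k0,k0,k0,k1,k1],[k0,k1,k1,k0,k1,k0],[k0,k1,k1,k1,
    k0,k0],[k0,k1,k0,k2,k0,k0],[k0,k1,k0,k1,k1,k0],[k0,k1,k0,k0,k2,k0],[k0,k1,k0,k0,k0,k2],[k0,k0,k1,k0,k2,k0],[k0,k0,
    k1,k1,k1,k0],[k0,k0,k0,k2,k1,k0]]
    [.ref k116 k0 [(z1,[y1,z2,z1]),(z1,[z2,y2,y1]),(z1,[y1,z1,z1])],.ref k117 k0 [(z1,[z1,z1]),(z1,[y1,z1,z1]),(z1,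
    [z1,y1])],.ref k118 k0 [(z1,[z1,z1,z1,y1]),(z1,[y2,z0,y1,z2]),(z1,[z1,z0,z1,y1])],.ref k4 k0 [(z1,[z1]),(z1,[y2,
    z2,z1]),(z1,[z1,y1])],.ref k118 k0 [(z1,[y1,z1,z1]),(z1,[z2,z0,y1]),(z1,[y1,z0,z1])],.ref k4 k0 [(z1,[y1,z0,z0,
    z1]),(z1,[z2,z2,z1,y2]),(z1,[y1,y1,z0,z1])],.ref k4 k0 [(z2,[y1,z0,y1,z2]),(z1,[z1,z2,z2,y2]),(z2,[y1,y2,y1,z2])],
    .ref k117 k0 [(z1,[y1,z1,z0,z1]),(z1,[z1,z1,z1,y1]),(z1,[y1,y1,z0,z1])],.ref k118 k0 [(z2,[y1,z2,z1]),(z1,[z1]),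
    (z2,[y1,z0,z1])],.ref k116 k0 [(z2,[y1,z2,z1]),(z1,[z1]),(z2,[y1,z0,z1])],.ref k123 k0 [(z1,[z1,z1]),(z1,[y2,z0,
    z1]),(z1,[z1])],.ref k116 k0 [(z1,[z1,z2,z1,y1]),(z1,[y2,y2,y1,z2]),(z1,[z1,z1,z1,y1])],.ref k124 k0 [(z1,[z0,
    z1]),(z1,[z0,z0,z1]),(z1,[z1,z1,z1,y1])]],
    .base (.leafM k0 [k0,k1,k2,k3,k4,k5] [(z1,[y1,z0,z1])] []),
    .base (.leafM k3 [k2,k3,k4,k5,k0,k1] [(z1,[z0,y1,z1])] []),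
    .base (.leafM k3 [k2,k3,k4,k5,k0,k1] [(z1,[z1])] []),
    .base (.leafM k0 [k0,k1,k2,k3,k4,k5] [(z1,[y1,z0,z0,z1])] []),
    .base (.leafM k3 [k0,k1,k2,k3,k4,k5] [(z1,[y1,z0,y1,z1])] []),
    .base (.spec k2 false k0 [(z1,[z2,z1,z1,z1,y1]),(z1,[z0,z1]),(z1,[y2,y2,y1,y2,z2]),(z1,[z0,z0,z0,z1])])]

theorem hB6_90_10 : blkB [0, 0, 0, 0, 0, 1] [] sp6 hS6_90 (pcls (n := 6) [0, 0, 0, 0, 0, 1]) hD6_90 143 10 hN6_90_10 = true := by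
  decide +kernel

/-- nodes 132 to 142 -/
noncomputable def hN6_90_11 : List HM :=
  [.lp k0 [k150,k168,k160,k166,k166,k142] [k9,k9,k0,k0,k4,k4,k1,k1,k1,k1,k13,k13] k0 [[k0,k0,k0,k0,k0,k4,k2,k0,k0,k28,
    k0,k0],[k0,k0,k12,k0,k0,k4,k10,k0,k0,k0,k0,k0],[k0,k0,k0,k0,k4,k0,k0,k18,k0,k0,k0,k0],[k12,k0,k0,k0,k0,k0,k0,k0,
    k8,k0,k0,k0],[k4,k4,k0,k0,k0,k0,k0,k0,k8,k12,k0,k0],[k0,k0,k0,k4,k4,k0,k0,k6,k0,k0,k0,k0],[k0,k0,k0,k18,k6,k0,k0,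
    k0,k0,k0,k0,k0],[k10,k2,k0,k0,k0,k0,k0,k0,k0,k18,k0,k0],[k0,k28,k0,k0,k0,k12,k18,k0,k0,k0,k0,k0],[k0,k0,k8,k0,k0,
    k8,k0,k0,k0,k0,k0,k0],[k0,k0,k0,k0,k0,k0,k0,k0,k0,k0,k0,k0],[k0,k0,k0,k0,k0,k0,k0,k0,k0,k0,k0,
    k0]] (nat_lit 480) k5
    [[(k10,k146),(k1,k150)],[(k8,k130),(k11,k146),(k0,k150),(k4,k151),(k5,k155),(k9,k156),(k3,k159),(k7,k162),(k6,
    k168),(k2,k171)],[(k5,k152),(k9,k157),(k0,k159),(k4,k160),(k8,k167),(k2,k168),(k3,k168),(k6,k169),(k7,k171),(k11,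
    k183)],[(k6,k149),(k11,k155),(k7,k163),(k4,k164),(k5,k164),(k9,k167),(k2,k168),(k3,k168),(k0,k171),(k8,k175)],
    [(k11,k143),(k3,k152),(k0,k155),(k5,k160),(k6,k163),(k7,k163),(k8,k163),(k2,k164),(k4,k164),(k9,k181)],[(k11,
    k143),(k0,k151),(k8,k151),(k3,k160),(k6,k163),(k7,k163),(k2,k164),(k4,k164),(k5,k164),(k9,k169)],[(k6,k160),(k0,
    k162),(k7,k162),(k2,k163),(k4,k163),(k5,k163),(k9,k166),(k11,k166),(k3,k171),(k8,k174)],[(k2,k149),(k7,k160),(k4,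
    k163),(k5,k163),(k6,k166),(k8,k166),(k9,k166),(k0,k168),(k3,k169),(k11,k172)],[(k8,k148),(k11,k154),(k0,k156),(k3,
    k157),(k6,k166),(k7,k166),(k9,k166),(k2,k167),(k4,k169),(k5,k181)],[(k0,k130),(k9,k148),(k4,k151),(k11,k154),(k5,
    k163),(k6,k166),(k8,k166),(k3,k167),(k7,k174),(k2,k175)],[(k11,k142),(k4,k143),(k5,k143),(k0,k146),(k8,k154),(k9,
    k154),(k2,k155),(k7,k166),(k6,k172),(k3,k183)],[(k10,k142),(k1,k146)]]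
    [[k2,k0,k1,k0,k0,k0],[k2,k0,k0,k0,k1,k0],[k1,k1,k0,k0,k0,k1],[k1,k0,k1,k0,k0,k1],[k1,k0,k0,k0,k1,k1],[k0,k1,k1,k1,
    k0,k0],[k0,k1,k1,k0,k1,k0],[k0,k0,k1,k0,k0,k2],[k0,k0,k0,k0,k3,k0],[k0,k0,k0,k0,k1,k2]]
    [.ref k5 k0 [(z66,[z11,z16,z0,y1]),(z33,[y11,z2,z9,z1]),(z33,[z88,y16,z0,z1]),(z33,[z22,y4,z0,y2,z9]),(z33,[y44,
    y1,y9,y5,y9,z99])],.ref k5 k0 [(z22,[y11,z7,y1,y1,y1,z11]),(z11,[z11,y1,z4,z1,z1,y11]),(z11,[y88,z8,y8,y5,y8,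
    z88]),(z11,[y22,z2,y2,y2,z1,z22]),(z11,[z44,y7,z1,z1,z1,y11])],.ref k5 k0 [(z44,[y11,z13,z1]),(z22,[z11,y1,z5]),
    (z11,[y44,z4,z4,z3]),(z11,[y11,z1,z1,z0,z3]),(z11,[z22,y5,y5,y3,y3,z33])],.ref k5 k0 [(z22,[z11,z5,z0,y1]),(z11,
    [y11,z1,z3,z1]),(z11,[z88,y8,z0,y5]),(z11,[z22,y2,z0,y2,z3]),(z11,[y44,z1,y3,z1,y3,z33])],.ref k5 k0 [(z66,[y11,
    z18,y1,y1,y1,z11]),(z33,[z11,z0,z10,z1,z1,y11]),(z33,[y88,z0,y8,z1,y8,z88]),(z33,[y22,z0,y2,y2,z7,z22]),(z33,[z44,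
    y9,y5,y5,y5,z55])],.ref k5 k0 [(z66,[z11,z18,y1,y1,y1]),(z33,[y11,z0,z10,z1,z1]),(z33,[z88,z0,y8,z1,y8]),(z33,
    [z22,z0,y2,y2,z7]),(z33,[y44,y9,y5,y5,y5,z99])],.ref k5 k0 [(z22,[z11,z7,z0,z0,z1,y11]),(z11,[y11,y1,z3,z0,y1,
    z11]),(z11,[z88,z8,z0,z3,z8,y88]),(z11,[z22,z2,z0,z0,z5,y22]),(z11,[y44,y7,y3,y3,y7,z77])],.ref k5 k0 [(z22,[y11,
    z6,z0,z1]),(z11,[z11,z0,z3,y1]),(z1,[y8,z0,z0,z1]),(z11,[y22,z0,z0,z2,z3]),(z11,[z44,y3,y3,y7,y3,z33])],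
    .ref k5 k0 [(z88,[y11,z21,y3,y3,y3,z33]),(z44,[z11,z3,z15,z3,z3,y33]),(z11,[y22,y6,y6,y3,y6,z66]),(z22,[y11,y3,y3,
    y3,z3,z33]),(z1,[z1])],.ref k5 k0 [((Int.ofNat (nat_lit 110)),[y11,z29,y1,y1,y1,z11]),(z55,[z11,z1,z16,z1,z1,
    y11]),(z55,[y88,y8,y8,z7,y8,z88]),(z55,[y22,y2,y2,y2,z13,z22]),(z5,[z4,y1,y1,y1,y1,z11])]],
    .lp k0 [k96,k122,k124,k132,k130,k110] [k18,k18,k5,k5,k4,k4,k0,k0,k1,k1,k11,k11] k0 [[k0,k0,k20,k14,k0,k8,k0,k0,k0,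
    k0,k0,k0],[k0,k0,k0,k0,k0,k22,k14,k24,k26,k0,k0,k0],[k0,k14,k0,k0,k12,k0,k0,k0,k0,k8,k0,k0],[k0,k20,k0,k0,k12,k0,
    k0,k8,k0,k0,k0,k0],[k22,k8,k0,k0,k0,k0,k10,k8,k0,k8,k0,k0],[k0,k0,k12,k12,k0,k0,k0,k0,k0,k8,k0,k0],[k24,k0,k8,k0,
    k0,k8,k0,k0,k0,k0,k0,k0],[k14,k0,k0,k0,k0,k10,k0,k0,k2,k0,k0,k0],[k0,k0,k0,k8,k8,k8,k0,k0,k0,k0,k0,k0],[k26,k0,k0,
    k0,k0,k0,k2,k0,k0,k0,k0,k0],[k0,k0,k0,k0,k0,k0,k0,k0,k0,k0,k0,k0],[k0,k0,k0,k0,k0,k0,k0,k0,k0,k0,k0,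
    k0]] (nat_lit 360) k5
    [[(k1,k96),(k10,k103)],[(k5,k90),(k2,k95),(k0,k96),(k4,k102),(k11,k103),(k3,k109),(k6,k128),(k7,k136),(k9,k137),
    (k8,k139)],[(k11,k90),(k4,k101),(k6,k103),(k0,k109),(k9,k112),(k3,k122),(k8,k126),(k7,k135),(k5,k137),(k2,k142)],
    [(k0,k95),(k7,k115),(k11,k116),(k8,k118),(k2,k122),(k5,k123),(k6,k127),(k9,k134),(k4,k135),(k3,k142)],[(k0,k90),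
    (k7,k116),(k6,k120),(k2,k123),(k5,k124),(k11,k125),(k8,k127),(k9,k127),(k4,k136),(k3,k137)],[(k3,k101),(k0,k102),
    (k9,k117),(k8,k119),(k6,k120),(k4,k124),(k11,k125),(k7,k128),(k2,k135),(k5,k136)],[(k2,k115),(k5,k116),(k8,k123),
    (k4,k128),(k11,k129),(k7,k132),(k3,k135),(k0,k136),(k9,k139),(k6,k142)],[(k3,k103),(k4,k120),(k5,k120),(k11,k121),
    (k2,k127),(k0,k128),(k9,k131),(k6,k132),(k8,k133),(k7,k142)],[(k3,k112),(k4,k117),(k11,k118),(k5,k127),(k8,k130),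
    (k9,k130),(k6,k131),(k2,k134),(k0,k137),(k7,k139)],[(k2,k118),(k4,k119),(k11,k120),(k7,k123),(k3,k126),(k5,k127),
    (k8,k130),(k9,k130),(k6,k133),(k0,k139)],[(k3,k90),(k0,k103),(k11,k110),(k2,k116),(k9,k118),(k8,k120),(k6,k121),
    (k4,k125),(k5,k125),(k7,k129)],[(k1,k103),(k10,k110)]]
    [[k2,k1,k0,k0,k0,k0],[k2,k0,k1,k0,k0,k0],[k1,k1,k0,k0,k0,k1],[k1,k0,k1,k0,k0,k1],[k0,k1,k1,k1,k0,k0],[k0,k1,k1,k0,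
    k1,k0],[k0,k1,k0,k0,k0,k2],[k0,k0,k0,k0,k1,k2]]
    [.ref k77 k0 [(z2,[z5,z4,y5]),(z1,[z2,y4,z5]),(z1,[y1,z2,z1,z7]),(z1,[y4,z1,y3,y7,z7])],.ref k131 k1 [(z2,[y5,z2,
    z0,z5]),(z2,[y1,z0,z0,z1]),(z1,[z4,y1,y1,y5,z1]),(z1,[z1])],.ref k42 k0 [(z3,[z5,z4,y5]),(z3,[z4,y4,z5]),(z3,[y2,
    z2,z2,z9]),(z3,[y8,y1,y1,y9,z9])],.ref k42 k0 [(z1,[z5,y2,z0,y5]),(z1,[z4,y4,z3,y4]),(z1,[y2,z2,z0,z5]),(z1,[y8,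
    z5,y3,z5,z3])],.ref k42 k0 [(z2,[y5,z1,z0,z0,z5]),(z1,[y2,y2,z3,z0,z2]),(z1,[z1,z1,z0,z3,y1]),(z1,[z4,z1,y3,y3,
    y1])],.ref k42 k0 [(z1,[z5,z3,y5,y5]),(z1,[z4,z0,y1,y4]),(z1,[y2,z0,z2,z5]),(z1,[y8,y3,z5,z5,z3])],
    .ref k68 k1 [(z2,[z5,z4,y5]),(z2,[z1,y2,y1]),(z1,[y4,z1,y3,y7,z7]),(z1,[y1,z2,z1,z7])],.ref k132 k1 [(z1,[z5,z1]),
    (z1,[z1,y2]),(z1,[y8,z5,y11,y11,z11]),(z1,[y2,z4,z0,z11])]],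
    .lp k0 [k76,k78,k80,k80,k82,k80] [k3,k3,k2,k2,k1,k1,k1,k1,k0,k0,k1,k1] k0 [[k0,k4,k8,k14,k0,k0,k0,k0,k12,k0,k0,
    k0],[k0,k0,k0,k0,k16,k4,k4,k6,k0,k0,k0,k0],[k0,k14,k0,k6,k6,k0,k0,k0,k0,k0,k0,k0],[k0,k8,k0,k0,k0,k0,k0,k0,k2,k2,
    k0,k0],[k4,k0,k0,k0,k0,k0,k0,k0,k0,k0,k0,k0],[k16,k0,k0,k6,k0,k0,k0,k0,k0,k2,k0,k0],[k6,k0,k0,k0,k0,k0,k0,k0,k0,
    k2,k0,k0],[k4,k0,k0,k0,k0,k0,k0,k0,k0,k0,k0,k0],[k0,k0,k2,k0,k2,k0,k0,k2,k0,k0,k0,k0],[k0,k12,k2,k0,k0,k0,k0,k0,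
    k2,k0,k0,k0],[k0,k0,k0,k0,k0,k0,k0,k0,k0,k0,k0,k0],[k0,k0,k0,k0,k0,k0,k0,k0,k0,k0,k0,k0]] (nat_lit 240) k5
    [[(k1,k76),(k10,k78)],[(k2,k63),(k11,k66),(k5,k70),(k0,k72),(k3,k77),(k8,k79),(k6,k82),(k7,k82),(k9,k85),(k4,
    k94)],[(k7,k63),(k6,k73),(k4,k75),(k9,k76),(k0,k77),(k11,k79),(k3,k82),(k2,k86),(k8,k92),(k5,k93)],[(k0,k63),(k2,
    k72),(k7,k73),(k4,k79),(k5,k79),(k6,k79),(k9,k80),(k11,k81),(k8,k82),(k3,k86)],[(k0,k70),(k11,k78),(k2,k79),(k8,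
    k79),(k6,k80),(k7,k80),(k9,k81),(k4,k86),(k5,k86),(k3,k93)],[(k3,k75),(k2,k79),(k4,k80),(k6,k80),(k7,k80),(k8,
    k81),(k9,k81),(k11,k82),(k5,k86),(k0,k94)],[(k3,k63),(k2,k73),(k8,k79),(k4,k80),(k5,k80),(k6,k80),(k7,k80),(k11,
    k80),(k9,k81),(k0,k82)],[(k3,k73),(k2,k79),(k8,k79),(k4,k80),(k5,k80),(k6,k80),(k7,k80),(k11,k80),(k9,k81),(k0,
    k82)],[(k3,k76),(k2,k80),(k4,k81),(k5,k81),(k6,k81),(k7,k81),(k8,k82),(k9,k82),(k11,k83),(k0,k85)],[(k0,k79),(k5,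
    k79),(k6,k79),(k7,k79),(k4,k81),(k11,k81),(k2,k82),(k9,k82),(k8,k84),(k3,k92)],[(k0,k66),(k5,k78),(k11,k78),(k3,
    k79),(k6,k80),(k7,k80),(k2,k81),(k8,k81),(k4,k82),(k9,k83)],[(k1,k78),(k10,k80)]]
    [[k2,k1,k0,k0,k0,k0],[k1,k1,k0,k0,k0,k1],[k1,k0,k1,k0,k0,k1],[k0,k2,k0,k1,k0,k0],[k0,k1,k1,k1,k0,k0],[k0,k1,k1,k0,
    k1,k0],[k0,k1,k0,k2,k0,k0],[k0,k1,k0,k1,k1,k0]]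
    [.ref k123 k0 [(z2,[z1,z0,y1]),(z1,[z0,z0,z1]),(z1,[z0,y1,y1,z1])],.ref k129 k1 [(z1,[z1]),(z1,[z0,z0,y1]),(z1,
    [y4,z4,z3])],.ref k130 k0 [(z1,[z1,z1,z1,y1]),(z1,[z0,z0,z1]),(z1,[z0,y1,y1,z1])],.ref k133 k0 [(z1,[y1,z1,z2]),
    (z1,[z0,z0,z1]),(z1,[z0,y1,y1,z1])],.ref k39 k1 [(z1,[y4,z0,z1,z4]),(z1,[z0,z0,y1]),(z1,[z2,z2,z1,y2])],
    .ref k98 k0 [(z1,[y1,z0,z0,z1]),(z1,[z4,z4,z3,y4]),(z1,[y2,y5,y3,z5])],.ref k39 k1 [(z1,[y2,z4,z3]),(z1,[z0,z0,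
    y1]),(z1,[z1])],.ref k130 k0 [(z1,[y1,z1,z1]),(z1,[z0,z0,z1]),(z1,[z0,y1,y1,z1])]],
    .base (.leafM k0 [k0,k1,k2,k3,k4,k5] [(z1,[y1,z0,z0,z1])] []),
    .base (.leafM k3 [k2,k3,k4,k5,k0,k1] [(z1,[z0,y1,y1,z1])] []),
    .lp k0 [k72,k80,k88,k88,k80,k70] [k8,k8,k4,k4,k0,k0,k0,k0,k4,k4,k9,k9] k0 [[k0,k0,k0,k0,k0,k0,k4,k0,k0,k16,k0,k0],
    [k0,k0,k0,k0,k8,k8,k0,k0,k0,k0,k0,k0],[k0,k0,k0,k0,k4,k0,k0,k0,k0,k0,k0,k0],[k0,k0,k0,k0,k0,k0,k4,k0,k0,k4,k0,k0],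
    [k8,k0,k0,k0,k0,k0,k0,k0,k0,k16,k0,k0],[k8,k0,k0,k4,k0,k0,k0,k0,k0,k12,k0,k0],[k0,k0,k0,k0,k0,k0,k0,k4,k4,k0,k0,
    k0],[k0,k4,k4,k0,k0,k0,k0,k0,k0,k0,k0,k0],[k0,k16,k4,k0,k12,k16,k0,k0,k0,k0,k0,k0],[k0,k0,k0,k0,k0,k0,k0,k4,k0,k0,
    k0,k0],[k0,k0,k0,k0,k0,k0,k0,k0,k0,k0,k0,k0],[k0,k0,k0,k0,k0,k0,k0,k0,k0,k0,k0,k0]] (nat_lit 240) k5
    [[(k10,k71),(k1,k72)],[(k8,k60),(k11,k71),(k0,k72),(k9,k72),(k2,k76),(k3,k76),(k5,k80),(k6,k80),(k4,k88),(k7,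
    k88)],[(k0,k76),(k4,k76),(k7,k76),(k2,k80),(k3,k80),(k8,k80),(k9,k80),(k5,k84),(k6,k88),(k11,k91)],[(k0,k76),(k11,
    k79),(k2,k80),(k3,k80),(k7,k80),(k8,k80),(k9,k80),(k4,k84),(k5,k84),(k6,k88)],[(k11,k79),(k0,k80),(k8,k80),(k9,
    k80),(k2,k84),(k3,k84),(k5,k88),(k6,k88),(k7,k88),(k4,k92)],[(k8,k68),(k3,k76),(k2,k84),(k9,k84),(k0,k88),(k4,
    k88),(k6,k88),(k7,k88),(k11,k91),(k5,k92)],[(k8,k72),(k3,k76),(k2,k80),(k9,k84),(k0,k88),(k4,k88),(k5,k88),(k6,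
    k88),(k7,k88),(k11,k95)],[(k11,k75),(k0,k80),(k6,k84),(k8,k84),(k9,k84),(k2,k88),(k3,k88),(k4,k88),(k5,k88),(k7,
    k88)],[(k0,k72),(k11,k75),(k2,k80),(k3,k80),(k5,k80),(k4,k84),(k6,k84),(k7,k84),(k8,k84),(k9,k84)],[(k0,k60),(k4,
    k68),(k7,k72),(k11,k75),(k2,k80),(k3,k80),(k5,k80),(k8,k80),(k6,k84),(k9,k84)],[(k11,k70),(k0,k71),(k6,k75),(k8,
    k75),(k9,k75),(k2,k79),(k5,k79),(k3,k91),(k4,k91),(k7,k95)],[(k10,k70),(k1,k71)]]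
    [[k2,k1,k0,k0,k0,k0],[k2,k0,k0,k0,k1,k0],[k1,k1,k0,k0,k0,k1],[k1,k0,k1,k0,k0,k1],[k1,k0,k0,k1,k0,k1],[k1,k0,k0,k0,
    k1,k1],[k0,k1,k1,k0,k1,k0],[k0,k0,k1,k0,k2,k0],[k0,k0,k0,k0,k1,k2]]
    [.ref k5 k0 [(z22,[z11,z4,y1]),(z11,[z22,y4,z1]),(z11,[y11,z2,z1,z3]),(z11,[y44,z8,z4,z0,z3]),(z11,[z88,y19,y11,
    y3,y3,z33])],.ref k5 k0 [(z66,[z11,z17,z1,z1,z1,y11]),(z33,[z22,y2,z11,z2,z2,y22]),(z33,[y11,z1,y1,z8,y1,z11]),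
    (z33,[y44,z4,y4,y4,z5,z44]),(z33,[z88,y17,y1,y1,y1,z11])],.ref k5 k0 [(z22,[y11,z7,z1]),(z11,[y22,z2,z5]),(z11,
    [z11,y1,y1,z3]),(z11,[z44,y4,y4,z0,z3]),(z11,[y88,z5,z5,y3,y3,z33])],.ref k5 k0 [(z44,[y11,z13,z0,z1]),(z11,[y11,
    z1,z3,z1]),(z22,[z11,y1,z0,z5]),(z11,[z22,y2,z0,y2,z3]),(z11,[y44,z1,y3,z1,y3,z33])],.ref k5 k0 [(z66,[y11,z19,z0,
    z0,z1]),(z33,[y22,z2,z9,z0,z2]),(z33,[z11,y1,z0,z9,y1]),(z33,[z44,y4,z0,z0,z5]),(z33,[y88,y1,y9,y9,y1,z99])],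
    .ref k5 k0 [(z22,[z11,z6,z1,z1,z1,y11]),(z11,[z22,z0,z5,z2,z2,y22]),(z11,[y11,z0,y1,z2,y1,z11]),(z11,[y44,z0,y4,
    y4,y1,z44]),(z11,[z88,y3,z5,z5,z5,y55])],.ref k5 k0 [(z66,[z11,z19,z0,z0,z1,y11]),(z33,[z22,z2,z9,z0,z2,y22]),
    (z33,[y11,y1,z0,z9,y1,z11]),(z33,[y44,y4,z0,z0,z5,z44]),(z33,[z88,y1,y9,y9,y1,z11])],
    .ref k5 k0 [((Int.ofNat (nat_lit 110)),[z11,z32,z2,z1,z2,y22]),(z55,[z22,z4,z19,z2,z4,y44]),(z55,[y11,y2,y2,z14,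
    y2,z22]),(z55,[y44,y8,y8,y4,z7,z88]),(z55,[z88,z1,z1,y7,z1,y11])],.ref k5 k0 [(z22,[y11,z5,y1,y1,y1,z11]),(z11,
    [y22,y2,z1,y2,y2,z22]),(z11,[z11,z1,z1,z4,z1,y11]),(z11,[z44,z4,z4,z4,z7,y44]),(z1,[y8,y1,y1,y1,y1,z11])]],
    .lp k0 [k80,k84,k80,k80,k88,k66] [k4,k4,k2,k2,k4,k4,k4,k4,k0,k0,k11,k11] k0 [[k0,k0,k0,k0,k0,k0,k0,k0,k0,k16,k0,
    k0],[k0,k0,k0,k0,k0,k0,k6,k8,k0,k0,k0,k0],[k0,k0,k0,k0,k0,k0,k0,k0,k0,k0,k0,k0],[k0,k0,k0,k0,k0,k0,k0,k0,k6,k8,k0,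
    k0],[k0,k0,k0,k0,k0,k0,k0,k0,k4,k8,k0,k0],[k0,k0,k0,k0,k0,k0,k0,k0,k0,k0,k0,k0],[k8,k0,k0,k0,k0,k0,k0,k0,k0,k0,k0,
    k0],[k6,k0,k0,k0,k0,k0,k0,k0,k4,k20,k0,k0],[k0,k16,k8,k0,k0,k8,k20,k0,k0,k0,k0,k0],[k0,k0,k6,k0,k0,k4,k4,k0,k0,k0,
    k0,k0],[k0,k0,k0,k0,k0,k0,k0,k0,k0,k0,k0,k0],[k0,k0,k0,k0,k0,k0,k0,k0,k0,k0,k0,k0]] (nat_lit 240) k5
    [[(k10,k73),(k1,k80)],[(k8,k68),(k11,k73),(k0,k80),(k4,k80),(k5,k80),(k7,k80),(k2,k82),(k3,k82),(k6,k86),(k9,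
    k92)],[(k6,k74),(k9,k80),(k0,k82),(k4,k82),(k5,k82),(k7,k82),(k2,k84),(k3,k84),(k8,k86),(k11,k91)],[(k0,k82),(k4,
    k82),(k5,k82),(k6,k82),(k7,k82),(k11,k83),(k2,k84),(k3,k84),(k9,k86),(k8,k92)],[(k11,k67),(k8,k76),(k0,k80),(k4,
    k80),(k5,k80),(k6,k80),(k7,k80),(k2,k82),(k3,k82),(k9,k84)],[(k11,k69),(k8,k76),(k0,k80),(k4,k80),(k5,k80),(k6,
    k80),(k7,k80),(k2,k82),(k3,k82),(k9,k84)],[(k0,k80),(k4,k80),(k5,k80),(k6,k80),(k7,k80),(k11,k81),(k2,k82),(k3,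
    k82),(k9,k84),(k8,k88)],[(k3,k74),(k4,k80),(k5,k80),(k6,k80),(k7,k80),(k2,k82),(k9,k84),(k0,k86),(k8,k88),(k11,
    k93)],[(k8,k68),(k11,k73),(k3,k80),(k4,k84),(k5,k84),(k6,k84),(k7,k84),(k2,k86),(k9,k88),(k0,k92)],[(k0,k68),(k9,
    k68),(k4,k76),(k5,k76),(k11,k77),(k3,k86),(k6,k88),(k7,k88),(k8,k88),(k2,k92)],[(k11,k66),(k5,k67),(k4,k69),(k0,
    k73),(k9,k73),(k8,k77),(k7,k81),(k2,k83),(k3,k91),(k6,k93)],[(k10,k66),(k1,k73)]]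
    [[k1,k1,k0,k0,k0,k1],[k1,k0,k1,k0,k0,k1],[k1,k0,k0,k0,k1,k1],[k0,k1,k1,k1,k0,k0],[k0,k1,k0,k2,k0,k0],[k0,k1,k1,k0,
    k1,k0],[k0,k0,k1,k0,k2,k0],[k0,k0,k1,k0,k0,k2],[k0,k0,k0,k0,k3,k0],[k0,k0,k0,k0,k1,k2]]
    [.ref k5 k0 [(z1,[z4,y1,y4]),(z1,[y2,z2,z5]),(z1,[z1,y1,y1,z3]),(z1,[z4,y4,y4,z0,z3]),(z1,[y8,z5,z5,y3,y3,z3])],
    .ref k5 k0 [(z1,[z2,z1,z0,y2]),(z1,[y1,z1,z3,z1]),(z2,[z1,y1,z0,z5]),(z1,[z2,y2,z0,y2,z3]),(z1,[y4,z1,y3,z1,y3,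
    z3])],.ref k5 k0 [(z1,[y4,z3,y4,y4,y4,z4]),(z1,[z2,z0,z5,z2,z2,y2]),(z1,[y1,z0,y1,z2,y1,z1]),(z1,[y4,z0,y4,y4,y1,
    z4]),(z1,[z8,y3,z5,z5,z5,y5])],.ref k5 k0 [(z1,[z4,z3,y4,y4,y4]),(z1,[y2,z0,z5,z2,z2]),(z1,[z1,z0,y1,z2,y1]),(z1,
    [z4,z0,y4,y4,y1]),(z1,[y8,y3,z5,z5,z5,z3])],.ref k5 k0 [(z1,[z2,z3,y2,z0,y4]),(z1,[y1,z0,z4,z0,z2]),(z2,[z1,z0,y1,
    z6,y2]),(z1,[z2,z0,y2,z0,y1]),(z1,[y4,y3,z1,y3,z5,z3])],.ref k5 k0 [(z3,[y4,z5,z0,z0,y4,z4]),(z3,[z2,z2,z9,z0,z2,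
    y2]),(z3,[y1,y1,z0,z9,y1,z1]),(z3,[y4,y4,z0,z0,z5,z4]),(z3,[z8,y1,y9,y9,y1,z1])],.ref k5 k0 [(z5,[y4,z7,y8,y4,y8,
    z8]),(z5,[z2,z4,z19,z2,z4,y4]),(z5,[y1,y2,y2,z14,y2,z2]),(z5,[y4,y8,y8,y4,z7,z8]),(z5,[z8,z1,z1,y7,z1,y1])],
    .ref k5 k0 [(z1,[z4,z3,z0,y4]),(z1,[y2,z0,z3,z2]),(z1,[z1,z0,z0,z2]),(z1,[z4,z0,z0,y4,z3]),(z1,[y8,y3,y3,z5,y3,
    z3])],.ref k5 k0 [(z2,[y1,z3,y3,y3,y3,z3]),(z4,[z1,z3,z15,z3,z3,y3]),(z8,[y1,y3,y3,z21,y3,z3]),(z2,[y1,y3,y3,y3,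
    z3,z3]),(z1,[z1])],.ref k5 k0 [(z1,[y2,z1,y2,y2,y2,z2]),(z1,[z1,z1,z4,z1,z1,y1]),(z2,[y1,y1,y1,z5,y1,z1]),(z1,[y2,
    y2,y2,y2,z1,z2]),(z1,[z4,z1,z1,z1,z1,y1])]],
    .lp k0 [k96,k122,k124,k132,k130,k110] [k18,k18,k5,k5,k4,k4,k0,k0,k1,k1,k11,k11] k0 [[k0,k0,k20,k14,k0,k8,k0,k0,k0,
    k0,k0,k0],[k0,k0,k0,k0,k0,k22,k14,k24,k26,k0,k0,k0],[k0,k14,k0,k0,k12,k0,k0,k0,k0,k8,k0,k0],[k0,k20,k0,k0,k12,k0,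
    k0,k8,k0,k0,k0,k0],[k22,k8,k0,k0,k0,k0,k10,k8,k0,k8,k0,k0],[k0,k0,k12,k12,k0,k0,k0,k0,k0,k8,k0,k0],[k24,k0,k8,k0,
    k0,k8,k0,k0,k0,k0,k0,k0],[k14,k0,k0,k0,k0,k10,k0,k0,k2,k0,k0,k0],[k0,k0,k0,k8,k8,k8,k0,k0,k0,k0,k0,k0],[k26,k0,k0,
    k0,k0,k0,k2,k0,k0,k0,k0,k0],[k0,k0,k0,k0,k0,k0,k0,k0,k0,k0,k0,k0],[k0,k0,k0,k0,k0,k0,k0,k0,k0,k0,k0,
    k0]] (nat_lit 360) k5
    [[(k1,k96),(k10,k103)],[(k5,k90),(k2,k95),(k0,k96),(k4,k102),(k11,k103),(k3,k109),(k6,k128),(k7,k136),(k9,k137),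
    (k8,k139)],[(k11,k90),(k4,k101),(k6,k103),(k0,k109),(k9,k112),(k3,k122),(k8,k126),(k7,k135),(k5,k137),(k2,k142)],
    [(k0,k95),(k7,k115),(k11,k116),(k8,k118),(k2,k122),(k5,k123),(k6,k127),(k9,k134),(k4,k135),(k3,k142)],[(k0,k90),
    (k7,k116),(k6,k120),(k2,k123),(k5,k124),(k11,k125),(k8,k127),(k9,k127),(k4,k136),(k3,k137)],[(k3,k101),(k0,k102),
    (k9,k117),(k8,k119),(k6,k120),(k4,k124),(k11,k125),(k7,k128),(k2,k135),(k5,k136)],[(k2,k115),(k5,k116),(k8,k123),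
    (k4,k128),(k11,k129),(k7,k132),(k3,k135),(k0,k136),(k9,k139),(k6,k142)],[(k3,k103),(k4,k120),(k5,k120),(k11,k121),
    (k2,k127),(k0,k128),(k9,k131),(k6,k132),(k8,k133),(k7,k142)],[(k3,k112),(k4,k117),(k11,k118),(k5,k127),(k8,k130),
    (k9,k130),(k6,k131),(k2,k134),(k0,k137),(k7,k139)],[(k2,k118),(k4,k119),(k11,k120),(k7,k123),(k3,k126),(k5,k127),
    (k8,k130),(k9,k130),(k6,k133),(k0,k139)],[(k3,k90),(k0,k103),(k11,k110),(k2,k116),(k9,k118),(k8,k120),(k6,k121),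
    (k4,k125),(k5,k125),(k7,k129)],[(k1,k103),(k10,k110)]]
    [[k2,k1,k0,k0,k0,k0],[k2,k0,k1,k0,k0,k0],[k1,k1,k0,k0,k0,k1],[k1,k0,k1,k0,k0,k1],[k0,k1,k1,k1,k0,k0],[k0,k1,k1,k0,
    k1,k0],[k0,k1,k0,k0,k0,k2],[k0,k0,k0,k0,k1,k2]]
    [.ref k55 k1 [(z8,[y20,z1,z5]),(z1,[z4,z0,y1]),(z8,[y16,y1,z2,y1,z8]),(z8,[y4,z0,z1,z1])],.ref k137 k0 [(z8,[z40,
    z1,z0,y5]),(z4,[y8,z2,z11,z1]),(z4,[z4,y1,z0,z5]),(z8,[z32,y19,y22,y15,z88])],.ref k42 k0 [(z4,[z20,y1,y5]),(z4,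
    [y8,z1,z5]),(z8,[z8,y1,y2,z3]),(z8,[z32,y7,y14,y3,z24])],.ref k42 k0 [(z16,[z40,z1,z0,y5]),(z8,[y8,z1,z6,z1]),
    (z16,[z8,y1,z0,z5]),(z8,[z16,y5,y6,y5,z24])],.ref k42 k0 [(z1,[z5,z1,z0,z0,y5]),(z4,[y8,y1,z3,z0,z8]),(z8,[z8,z1,
    z0,z3,y8]),(z8,[z32,z1,y6,y3,y8])],.ref k42 k0 [(z24,[y40,z9,z10,z5]),(z12,[z8,z0,z7,y1]),(z12,[y4,z0,z1,z5]),
    (z24,[y32,y9,y10,y5,z72])],.ref k138 k0 [(z8,[y20,z1,z5]),(z1,[z1]),(z8,[y4,z0,z1,z1]),(z8,[y16,y1,z2,y1,z8])],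
    .ref k55 k1 [(z2,[z5,y1]),(z1,[y4,z1]),(z8,[z16,y5,y2,y1,z8]),(z8,[z4,y1,z0,z1])]],
    .lp k0 [k74,k84,k80,k84,k80,k76] [k5,k5,k0,k0,k2,k2,k0,k0,k2,k2,k4,k4] k0 [[k0,k4,k0,k0,k0,k0,k0,k0,k0,k0,k0,k0],
    [k0,k0,k0,k0,k12,k8,k0,k0,k12,k0,k0,k0],[k0,k0,k0,k0,k4,k0,k4,k0,k0,k8,k0,k0],[k0,k0,k0,k0,k4,k0,k4,k0,k0,k16,k0,
    k0],[k8,k0,k0,k0,k0,k0,k4,k0,k0,k12,k0,k0],[k12,k0,k4,k4,k0,k0,k4,k0,k0,k0,k0,k0],[k0,k0,k0,k0,k0,k0,k0,k4,k8,k8,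
    k0,k0],[k0,k0,k4,k4,k4,k4,k0,k0,k0,k0,k0,k0],[k0,k0,k16,k8,k0,k12,k0,k8,k0,k0,k0,k0],[k12,k0,k0,k0,k0,k0,k0,k8,k0,
    k0,k0,k0],[k0,k0,k0,k0,k0,k0,k0,k0,k0,k0,k0,k0],[k0,k0,k0,k0,k0,k0,k0,k0,k0,k0,k0,k0]] (nat_lit 240) k5
    [[(k1,k74),(k10,k75)],[(k0,k70),(k11,k75),(k5,k77),(k9,k77),(k2,k79),(k3,k79),(k6,k79),(k7,k87),(k4,k89),(k8,
    k89)],[(k11,k68),(k7,k72),(k4,k74),(k0,k79),(k5,k82),(k8,k82),(k9,k82),(k2,k84),(k6,k84),(k3,k88)],[(k8,k74),(k9,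
    k78),(k0,k79),(k7,k80),(k5,k82),(k2,k84),(k3,k84),(k4,k86),(k6,k88),(k11,k96)],[(k8,k64),(k9,k76),(k0,k77),(k7,
    k78),(k5,k80),(k2,k82),(k3,k82),(k4,k84),(k6,k86),(k11,k86)],[(k8,k68),(k3,k74),(k9,k76),(k11,k78),(k4,k80),(k7,
    k82),(k5,k84),(k2,k86),(k6,k86),(k0,k89)],[(k3,k72),(k5,k78),(k9,k78),(k2,k80),(k4,k82),(k8,k82),(k7,k84),(k0,
    k87),(k6,k88),(k11,k92)],[(k11,k72),(k8,k74),(k0,k79),(k6,k80),(k9,k82),(k3,k84),(k4,k86),(k5,k86),(k2,k88),(k7,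
    k88)],[(k4,k76),(k5,k76),(k0,k77),(k2,k78),(k7,k78),(k3,k82),(k6,k82),(k9,k84),(k11,k86),(k8,k88)],[(k5,k64),(k4,
    k68),(k2,k74),(k6,k74),(k11,k78),(k8,k80),(k3,k82),(k7,k82),(k9,k88),(k0,k89)],[(k3,k68),(k6,k72),(k0,k75),(k11,
    k76),(k4,k78),(k8,k78),(k5,k86),(k9,k86),(k7,k92),(k2,k96)],[(k1,k75),(k10,k76)]]
    [[k2,k1,k0,k0,k0,k0],[k1,k1,k0,k0,k0,k1],[k1,k0,k1,k0,k0,k1],[k1,k0,k0,k1,k0,k1],[k1,k0,k0,k0,k1,k1],[k0,k1,k1,k0,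
    k1,k0],[k0,k1,k0,k1,k1,k0],[k0,k1,k0,k2,k0,k0],[k0,k0,k2,k0,k1,k0],[k0,k0,k1,k1,k1,k0],[k0,k0,k1,k0,k2,k0]]
    [.ref k124 k0 [(z2,[z1,z0,y1]),(z1,[z0,z0,z1]),(z2,[z1,y2,y3,z2])],.ref k135 k0 [(z1,[y1,z1,z1]),(z1,[z2,y1,y1]),
    (z1,[y2,z1,z2])],.ref k136 k1 [(z1,[z2,z0,y1]),(z1,[y2,z1,z2]),(z1,[z1,y1,y2,z1])],.ref k136 k0 [(z1,[z2,z1,z2,
    y2]),(z1,[y2,z0,y1,z2]),(z1,[z1,z0,z1,y1])],.ref k135 k0 [(z1,[z1]),(z1,[y2,z1,z1]),(z1,[z2,y1])],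
    .ref k136 k0 [(z1,[y2,z1,z2]),(z1,[z2,z0,y1]),(z1,[y1,z0,z1])],.ref k136 k1 [(z1,[y2,z0,y1,z2]),(z1,[z2,z1,z2,
    y2]),(z1,[y1,y1,y2,z2])],.ref k135 k0 [(z2,[y1,z0,y1,z2]),(z1,[z1,z1,z2,y2]),(z1,[y1,y1,y1,z2])],
    .ref k135 k0 [(z2,[z1,z1]),(z1,[y1,z0,z1]),(z1,[z1])],.ref k135 k0 [(z1,[z1,z1,z1,y1]),(z1,[y2,y1,y1,z2]),(z1,[z2,
    z1,z2,y2])],.ref k139 k1 [(z1,[y2,z4,z5]),(z1,[z2,z0,y1]),(z1,[y2,y4,y7,z8])]],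
    .lp k0 [k138,k176,k176,k156,k160,k152] [k15,k23,k0,k0,k0,k0,k10,k10,k8,k8,k12,k12] k0 [[k0,k24,k0,k0,k0,k0,k0,k0,
    k0,k0,k0,k0],[k0,k0,k0,k0,k28,k48,k0,k0,k44,k0,k0,k0],[k0,k0,k0,k0,k24,k0,k24,k0,k0,k32,k0,k0],[k0,k0,k0,k0,k0,k0,
    k0,k0,k0,k44,k0,k0],[k48,k0,k0,k0,k0,k0,k12,k20,k32,k20,k0,k0],[k28,k0,k0,k24,k12,k0,k0,k0,k0,k0,k0,k0],[k0,k0,k0,
    k0,k0,k20,k0,k0,k0,k16,k0,k0],[k0,k0,k0,k24,k0,k12,k12,k0,k0,k0,k0,k0],[k0,k0,k44,k32,k0,k20,k0,k16,k0,k0,k0,k0],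
    [k44,k0,k0,k0,k0,k32,k0,k0,k12,k0,k0,k0],[k0,k0,k0,k0,k0,k0,k0,k0,k0,k0,k0,k0],[k0,k0,k0,k0,k0,k0,k0,k0,k0,k0,k0,
    k0]] (nat_lit 480) k5
    [[(k1,k130),(k10,k141)],[(k0,k122),(k11,k149),(k6,k151),(k9,k153),(k2,k161),(k3,k161),(k5,k161),(k4,k189),(k8,
    k197),(k7,k199)],[(k11,k120),(k4,k128),(k7,k138),(k0,k161),(k6,k166),(k8,k168),(k9,k168),(k2,k176),(k5,k176),(k3,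
    (nat_lit 200))],[(k8,k136),(k7,k142),(k9,k144),(k0,k161),(k6,k166),(k2,k176),(k3,k176),(k4,k176),(k5,k176),(k11,
    (nat_lit 208))],[(k8,k124),(k0,k161),(k7,k166),(k9,k168),(k2,k176),(k3,k176),(k5,k176),(k6,k190),(k11,k196),(k4,
    (nat_lit 200))],[(k3,k128),(k11,k132),(k6,k146),(k8,k148),(k9,k156),(k7,k166),(k2,k176),(k4,k188),(k0,k189),(k5,
    (nat_lit 200))],[(k3,k138),(k2,k142),(k7,k144),(k4,k166),(k5,k166),(k6,k168),(k11,k174),(k9,k178),(k8,k190),(k0,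
    k199)],[(k8,k142),(k4,k146),(k0,k151),(k11,k154),(k9,k158),(k2,k166),(k3,k166),(k6,k168),(k7,k168),(k5,k190)],
    [(k2,k144),(k9,k148),(k0,k153),(k4,k156),(k6,k158),(k8,k160),(k3,k168),(k5,k168),(k11,k172),(k7,k178)],[(k5,k124),
    (k2,k136),(k6,k142),(k4,k148),(k11,k156),(k9,k160),(k3,k168),(k8,k172),(k7,k190),(k0,k197)],[(k3,k120),(k4,k132),
    (k11,k140),(k0,k149),(k6,k154),(k8,k156),(k9,k172),(k7,k174),(k5,k196),(k2,(nat_lit 208))],[(k1,k141),(k10,k152)]]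
    [[k2,k1,k0,k0,k0,k0],[k1,k1,k0,k0,k0,k1],[k1,k0,k1,k0,k0,k1],[k1,k0,k0,k1,k0,k1],[k1,k0,k0,k0,k1,k1],[k0,k1,k1,k1,
    k0,k0],[k0,k1,k1,k0,k1,k0],[k0,k1,k0,k2,k0,k0],[k0,k1,k0,k1,k1,k0],[k0,k1,k0,k0,k2,k0],[k0,k0,k1,k1,k1,k0],[k0,k0,
    k1,k0,k2,k0],[k0,k0,k0,k2,k1,k0]]
    [.ref k125 k0 [(z2,[z1,z1,y1]),(z1,[z0,y1,z1])],.ref k126 k1 [(z1,[z1]),(z1,[y2,z1,z1])],.ref k127 k1 [(z1,[z2,z1,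
    y1]),(z1,[y1,z0,z1])],.ref k128 k0 [(z1,[z1]),(z1,[y2,z1,z1])],.ref k37 k0 [(z1,[z1]),(z1,[y2,z1,z1])],
    .ref k37 k0 [(z1,[y1,z0,z1]),(z1,[z2,z1,y1])],.ref k128 k0 [(z1,[y1,z0,z1]),(z1,[z2,z1,y1])],.ref k37 k0 [(z2,[y1,
    z1,z1]),(z1,[z1])],.ref k127 k1 [(z1,[y2,z1,z1]),(z1,[z1])],.ref k128 k0 [(z2,[y1,z1,z1]),(z1,[z1])],
    .ref k126 k1 [(z1,[y1,z0,z1]),(z1,[z2,z1,y1])],.ref k134 k0 [(z1,[z1,z1]),(z1,[y2,y1,z1])],.ref k140 k0 [(z1,[y1,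
    z2]),(z1,[z0,y1,z1])]],
    .lp k0 [k118,k118,k142,k94,k142,k100] [k19,k21,k20,k20,k2,k14,k32,k32,k0,k16,k29,k29] k0 [[k0,k30,k18,k0,k0,k0,
    k30,k0,k0,k0,k0,k0],[k0,k0,k6,k0,k0,k12,k18,k0,k12,k0,k0,k0],[k0,k0,k0,k0,k12,k30,k30,k0,k0,k18,k0,k0],[k6,k18,k0,
    k0,k0,k0,k12,k0,k0,k54,k0,k0],[k12,k0,k0,k30,k0,k0,k0,k0,k0,k66,k0,k0],[k0,k0,k0,k12,k0,k0,k0,k0,k0,k0,k0,k0],[k0,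
    k0,k0,k0,k0,k0,k0,k0,k0,k18,k0,k0],[k18,k30,k12,k30,k0,k0,k0,k0,k0,k0,k0,k0],[k0,k0,k54,k18,k0,k66,k0,k18,k0,k0,
    k0,k0],[k12,k0,k0,k0,k0,k0,k0,k0,k6,k0,k0,k0],[k0,k0,k0,k0,k0,k0,k0,k0,k0,k0,k0,k0],[k0,k0,k0,k0,k0,k0,k0,k0,k0,
    k0,k0,k0]] (nat_lit 360) k5
    [[(k10,k108),(k1,k116)],[(k0,k90),(k9,k93),(k5,k107),(k11,k110),(k3,k119),(k7,k119),(k2,k125),(k6,k125),(k4,k137),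
    (k8,k151)],[(k11,k97),(k9,k104),(k7,k106),(k5,k118),(k0,k119),(k4,k124),(k2,k136),(k6,k136),(k8,k138),(k3,k148)],
    [(k9,k92),(k7,k94),(k4,k106),(k2,k118),(k6,k118),(k8,k120),(k5,k124),(k0,k125),(k3,k136),(k11,k163)],[(k8,k90),
    (k0,k107),(k9,k116),(k3,k118),(k2,k124),(k5,k130),(k11,k133),(k6,k142),(k7,k142),(k4,k154)],[(k8,k90),(k2,k106),
    (k3,k124),(k6,k124),(k7,k124),(k11,k127),(k0,k137),(k9,k140),(k4,k154),(k5,k154)],[(k2,k94),(k6,k94),(k7,k94),(k3,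
    k106),(k9,k110),(k0,k119),(k4,k124),(k8,k126),(k5,k142),(k11,k163)],[(k6,k94),(k7,k94),(k11,k97),(k8,k108),(k9,
    k110),(k2,k118),(k4,k124),(k0,k125),(k3,k136),(k5,k142)],[(k2,k92),(k0,k93),(k3,k104),(k6,k110),(k7,k110),(k5,
    k116),(k9,k126),(k11,k131),(k4,k140),(k8,k142)],[(k4,k90),(k5,k90),(k6,k108),(k2,k120),(k7,k126),(k11,k129),(k3,
    k138),(k9,k142),(k0,k151),(k8,k164)],[(k11,k94),(k3,k97),(k6,k97),(k0,k110),(k4,k127),(k8,k129),(k9,k131),(k5,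
    k133),(k2,k163),(k7,k163)],[(k10,k100),(k1,k108)]]
    [[k1,k1,k0,k0,k0,k1],[k1,k0,k1,k0,k0,k1],[k1,k0,k0,k1,k0,k1],[k1,k0,k0,k0,k1,k1],[k0,k1,k1,k0,k1,k0],[k0,k1,k1,k1,
    k0,k0],[k0,k1,k0,k2,k0,k0],[k0,k1,k0,k1,k1,k0],[k0,k0,k1,k1,k1,k0],[k0,k0,k1,k0,k2,k0],[k0,k0,k0,k3,k0,k0],[k0,k0,
    k0,k2,k1,k0]]
    [.ref k0 k1 [(z1,[z1])],.ref k1 k1 [(z1,[z1])],.ref k1 k0 [(z1,[z1])],.ref k0 k0 [(z1,[z1])],.ref k1 k0 [(z1,[y1,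
    z1])],.ref k0 k0 [(z1,[y1,z1])],.ref k46 k0 [(z1,[y1,z1])],.ref k1 k1 [(z1,[y1,z1])],.ref k0 k1 [(z1,[y1,z1])],
    .ref k83 k1 [(z1,[y1,z2])],.ref k115 k1 [(z1,[y1,z3])],.ref k141 k1 [(z1,[y1,z1])]]]

theorem hB6_90_11 : blkB [0, 0, 0, 0, 0, 1] [] sp6 hS6_90 (pcls (n := 6) [0, 0, 0, 0, 0, 1]) hD6_90 143 11 hN6_90_11 = true := by
  decide +kernel

end Pool.Agent.Lib_MP_fa6e45
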