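import Pool.Agent.Lib_MP_fa6e45.HK

/-!
MP_fa6e45_co, stage 4: certificates (captain, generated by a program).
-/

namespace Pool.Agent.Lib_MP_fa6e45

/-- nodes 0 to 11 -/
noncomputable def hN6_104_0 : List HM :=
  [.base (.leafM k0 [k0,k1,k2,k3,k4,k5] [(z1,[y1,z0,z1])] []),
    .base (.leafM k0 [k0,k1,k2,k3,k4,k5] [(z1,[z0,z1,z1])] []),
    .base (.leafM k0 [k0,k1,k2,k3,k4,k5] [(z1,[z0,z1,z1,z1])] []),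
    .base (.leafM k0 [k0,k1,k2,k3,k4,k5] [(z3,[z0,z1,z1,z1])] []),
    .lp k0 [k16,k16,k16,k16,k18,k12] [k1,k1,k1,k1,k1,k1,k1,k1,k0,k0,k3,k3] k0 [[k0,k0,k0,k0,k0,k0,k0,k0,k0,k0,k0,k0],
    [k0,k0,k0,k0,k0,k0,k0,k0,k0,k0,k0,k0],[k0,k0,k0,k0,k0,k0,k0,k0,k0,k0,k0,k0],[k0,k0,k0,k0,k0,k0,k0,k0,k0,k0,k0,k0],
    [k0,k0,k0,k0,k0,k0,k0,k0,k0,k0,k0,k0],[k0,k0,k0,k0,k0,k0,k0,k0,k0,k0,k0,k0],[k0,k0,k0,k0,k0,k0,k0,k0,k0,k0,k0,k0],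
    [k0,k0,k0,k0,k0,k0,k0,k0,k0,k0,k0,k0],[k0,k0,k0,k0,k0,k0,k0,k0,k0,k0,k0,k0],[k0,k0,k0,k0,k0,k0,k0,k0,k0,k0,k0,k0],
    [k0,k0,k0,k0,k0,k0,k0,k0,k0,k0,k0,k0],[k0,k0,k0,k0,k0,k0,k0,k0,k0,k0,k0,k0]] k48 k5
    [[(k10,k14),(k11,k14),(k1,k16),(k8,k17)],[(k0,k16),(k2,k16),(k3,k16),(k4,k16),(k5,k16),(k6,k16),(k7,k16),(k9,
    k17)],[(k0,k16),(k2,k16),(k3,k16),(k4,k16),(k5,k16),(k6,k16),(k7,k16),(k9,k17)],[(k0,k16),(k2,k16),(k3,k16),(k4,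
    k16),(k5,k16),(k6,k16),(k7,k16),(k9,k17)],[(k0,k16),(k2,k16),(k3,k16),(k4,k16),(k5,k16),(k6,k16),(k7,k16),(k9,
    k17)],[(k0,k16),(k2,k16),(k3,k16),(k4,k16),(k5,k16),(k6,k16),(k7,k16),(k9,k17)],[(k0,k16),(k2,k16),(k3,k16),(k4,
    k16),(k5,k16),(k6,k16),(k7,k16),(k9,k17)],[(k0,k16),(k2,k16),(k3,k16),(k4,k16),(k5,k16),(k6,k16),(k7,k16),(k9,
    k17)],[(k0,k17),(k2,k17),(k3,k17),(k4,k17),(k5,k17),(k6,k17),(k7,k17),(k9,k18)],[(k10,k15),(k11,k15),(k1,k17),(k8,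
    k18)],[(k10,k12),(k11,k12),(k1,k14),(k8,k15)],[(k10,k12),(k11,k12),(k1,k14),(k8,k15)]]
    [[k2,k0,k0,k0,k0,k1],[k1,k0,k0,k0,k1,k1],[k0,k0,k0,k0,k0,k3]]
    [.ref k3 k0 [(z2,[z1,z1]),(z2,[y2,z1,z3]),(z2,[y2,z1,z0,z3]),(z4,[z2,y1,z0,z0,z3]),(z4,[y4,y1,y6,y6,y3,z12])],
    .ref k3 k0 [(z4,[z4,z3,z2,z2,z1,y4]),(z2,[y4,z0,z1,y2,y1,z4]),(z2,[y4,z0,y2,z1,y1,z4]),(z2,[z2,z0,z1,z1,z2,y2]),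
    (z4,[y8,y3,y10,y10,y5,z20])],.ref k3 k0 [(z4,[z1,z3]),(z2,[y1,z0,z3]),(z2,[y1,z0,z0,z3]),(z4,[z1,z0,z0,z0,z3]),
    (z4,[y2,y3,y6,y6,y3,z12])]],
    .lp k0 [(nat_lit 1301520),(nat_lit 1635480),(nat_lit 1468038),(nat_lit 1468038),(nat_lit 1580964),
    (nat_lit 1505680)] [(nat_lit 166980),(nat_lit 166980),k0,k0,(nat_lit 83721),(nat_lit 83721),(nat_lit 83721),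
    (nat_lit 83721),(nat_lit 27258),(nat_lit 27258),(nat_lit 64900),(nat_lit 64900)] k0 [[k0,k0,k0,k0,(nat_lit 75284),
    (nat_lit 75284),k0,k0,k0,k0,k0,k0],[k0,k0,k0,k0,k0,k0,k0,k0,k0,k0,k0,k0],[k0,k0,k0,k0,(nat_lit 112926),
    (nat_lit 112926),k0,k0,k0,k0,k0,k0],[k0,k0,k0,k0,k0,k0,k0,k0,k0,k0,k0,k0],[k0,(nat_lit 75284),k0,(nat_lit 112926),
    k0,k0,(nat_lit 112926),k0,k0,k0,k0,k0],[k0,(nat_lit 75284),k0,(nat_lit 112926),k0,k0,(nat_lit 112926),k0,k0,k0,k0,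
    k0],[k0,k0,k0,k0,k0,k0,k0,k0,k0,k0,k0,k0],[k0,k0,k0,k0,(nat_lit 112926),(nat_lit 112926),k0,k0,k0,k0,k0,k0],[k0,
    k0,k0,k0,k0,k0,k0,k0,k0,k0,k0,(nat_lit 410640)],[k0,k0,k0,k0,k0,k0,k0,k0,k0,k0,k0,k0],[k0,k0,k0,k0,k0,k0,k0,k0,k0,
    (nat_lit 410640),k0,k0],[k0,k0,k0,k0,k0,k0,k0,k0,k0,k0,k0,k0]] (nat_lit 4517040) k5
    [[(k1,(nat_lit 1301520)),(k10,(nat_lit 1403600)),(k8,(nat_lit 1441242)),(k11,(nat_lit 1814240))],[(k0,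
    (nat_lit 1301520)),(k4,(nat_lit 1309495)),(k7,(nat_lit 1309495)),(k5,(nat_lit 1384779)),(k6,(nat_lit 1384779)),
    (k9,(nat_lit 1441242)),(k2,(nat_lit 1468500)),(k3,(nat_lit 1468500))],[(k0,(nat_lit 1468500)),(k5,
    (nat_lit 1551759)),(k6,(nat_lit 1551759)),(k9,(nat_lit 1608222)),(k4,(nat_lit 1627043)),(k7,(nat_lit 1627043)),
    (k2,(nat_lit 1635480)),(k3,(nat_lit 1635480))],[(k4,(nat_lit 1438833)),(k7,(nat_lit 1438833)),(k0,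
    (nat_lit 1468500)),(k5,(nat_lit 1551759)),(k6,(nat_lit 1551759)),(k9,(nat_lit 1608222)),(k2,(nat_lit 1635480)),
    (k3,(nat_lit 1635480))],[(k0,(nat_lit 1384779)),(k5,(nat_lit 1468038)),(k6,(nat_lit 1468038)),(k9,
    (nat_lit 1524501)),(k2,(nat_lit 1551759)),(k3,(nat_lit 1551759)),(k4,(nat_lit 1580964)),(k7,(nat_lit 1580964))],
    [(k0,(nat_lit 1309495)),(k9,(nat_lit 1411575)),(k2,(nat_lit 1438833)),(k4,(nat_lit 1468038)),(k7,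
    (nat_lit 1468038)),(k5,(nat_lit 1580964)),(k6,(nat_lit 1580964)),(k3,(nat_lit 1627043))],[(k0,(nat_lit 1309495)),
    (k9,(nat_lit 1411575)),(k2,(nat_lit 1438833)),(k4,(nat_lit 1468038)),(k7,(nat_lit 1468038)),(k5,
    (nat_lit 1580964)),(k6,(nat_lit 1580964)),(k3,(nat_lit 1627043))],[(k0,(nat_lit 1384779)),(k5,(nat_lit 1468038)),
    (k6,(nat_lit 1468038)),(k9,(nat_lit 1524501)),(k2,(nat_lit 1551759)),(k3,(nat_lit 1551759)),(k4,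
    (nat_lit 1580964)),(k7,(nat_lit 1580964))],[(k4,(nat_lit 1411575)),(k7,(nat_lit 1411575)),(k0,(nat_lit 1441242)),
    (k5,(nat_lit 1524501)),(k6,(nat_lit 1524501)),(k9,(nat_lit 1580964)),(k2,(nat_lit 1608222)),(k3,
    (nat_lit 1608222))],[(k10,(nat_lit 1132682)),(k1,(nat_lit 1441242)),(k11,(nat_lit 1543322)),(k8,
    (nat_lit 1580964))],[(k10,(nat_lit 1505680)),(k11,(nat_lit 1505680)),(k8,(nat_lit 1543322)),(k1,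
    (nat_lit 1814240))],[(k8,(nat_lit 1132682)),(k1,(nat_lit 1403600)),(k10,(nat_lit 1505680)),(k11,
    (nat_lit 1505680))]]
    [[k2,k1,k0,k0,k0,k0],[k2,k0,k1,k0,k0,k0],[k2,k0,k0,k1,k0,k0],[k1,k0,k1,k0,k1,k0],[k1,k0,k0,k1,k1,k0],[k1,k0,k0,k0,
    k1,k1],[k0,k0,k0,k0,k2,k1]]
    [.ref k3 k0 [(z1,[z0,z1]),(z1,[z3,y2]),(z1,[z6,y4,y2,z3]),(z1,[y6,z4,z2,z0,z1]),(z1,[y3,z2,z1])],.ref k3 k0 [(z1,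
    [z0,z1]),(z2,[z3,y2,z2,y3]),(z1,[z3,y2]),(z1,[y3,z2,z0,z3,z1]),(z2,[y3,z2,z0,z3])],.ref k3 k0 [(z1,[z0,z1]),(z2,
    [y3,z2,z2,z0,z1]),(z1,[y3,z2,z0,z3,z1]),(z1,[z3,y2]),(z2,[z3,y2,z0,z0,y1])],.ref k3 k0 [(z1,[z0,z1]),(z1,[z3,y1,
    z1,y3]),(z1,[z6,y2,z0,y3]),(z1,[y6,z2,z0,z6,z1]),(z1,[y3,z1,z0,z3])],.ref k3 k0 [(z1,[z0,z1]),(z3,[y3,z1,z3,z0,
    z1]),(z3,[y6,z2,z0,z9,z2]),(z3,[z6,y2,z0,z0,z1]),(z3,[z3,y1,z0,z0,y1])],.ref k3 k0 [(z1,[z0,z1]),(z1,[y3,z0,z0,y3,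
    y1,z3]),(z1,[y6,z0,y2,y3,y2,z6]),(z1,[z6,z0,z2,z6,z3,y6]),(z1,[z3,z0,z1,z3,z1,y3])],.ref k3 k0 [(z1,[z0,z1]),(z2,
    [y3,y1,z1,y3,y1,z3]),(z1,[y3,y1,y1,z0,y1,z3]),(z1,[z3,z1,z1,z3,z2,y3]),(z2,[z3,z1,z1,z3,z1,y3])]],
    .lp k0 [k120,k112,k112,k112,k126,k84] [k3,k3,k7,k7,k7,k7,k7,k7,k0,k0,k21,k21] k0 [[k0,k0,k14,k0,k0,k0,k0,k0,k0,k0,
    k0,k0],[k14,k0,k0,k0,k0,k0,k0,k0,k0,k0,k0,k0],[k0,k0,k0,k0,k0,k0,k0,k0,k0,k0,k0,k0],[k0,k14,k0,k0,k0,k0,k14,k0,k0,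
    k0,k0,k0],[k0,k0,k0,k0,k0,k0,k0,k0,k0,k0,k0,k0],[k0,k0,k0,k0,k0,k0,k0,k0,k0,k0,k0,k0],[k0,k0,k0,k0,k0,k0,k0,k0,k0,
    k0,k0,k0],[k0,k0,k14,k0,k0,k0,k0,k0,k0,k0,k0,k0],[k0,k0,k0,k0,k0,k0,k0,k0,k0,k0,k0,k0],[k0,k0,k0,k0,k0,k0,k0,k0,
    k0,k0,k0,k0],[k0,k0,k0,k0,k0,k0,k0,k0,k0,k0,k0,k0],[k0,k0,k0,k0,k0,k0,k0,k0,k0,k0,k0,k0]] (nat_lit 336) k5
    [[(k10,k102),(k11,k102),(k1,k120),(k8,k123)],[(k5,k102),(k2,k116),(k3,k116),(k4,k116),(k6,k116),(k7,k116),(k9,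
    k123),(k0,k134)],[(k3,k98),(k4,k112),(k5,k112),(k6,k112),(k7,k112),(k0,k116),(k9,k119),(k2,k126)],[(k2,k112),(k4,
    k112),(k5,k112),(k7,k112),(k0,k116),(k9,k119),(k3,k126),(k6,k126)],[(k0,k102),(k9,k105),(k2,k112),(k3,k112),(k4,
    k112),(k5,k112),(k6,k112),(k7,k112)],[(k2,k112),(k3,k112),(k4,k112),(k5,k112),(k6,k112),(k7,k112),(k0,k116),(k9,
    k119)],[(k2,k112),(k3,k112),(k4,k112),(k5,k112),(k6,k112),(k7,k112),(k0,k116),(k9,k119)],[(k3,k112),(k4,k112),(k5,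
    k112),(k6,k112),(k7,k112),(k0,k116),(k9,k119),(k2,k126)],[(k5,k105),(k2,k119),(k3,k119),(k4,k119),(k6,k119),(k7,
    k119),(k0,k123),(k9,k126)],[(k10,k105),(k11,k105),(k1,k123),(k8,k126)],[(k10,k84),(k11,k84),(k1,k102),(k8,k105)],
    [(k10,k84),(k11,k84),(k1,k102),(k8,k105)]]
    [[k1,k0,k0,k0,k1,k1],[k0,k2,k1,k0,k0,k0],[k0,k0,k0,k0,k0,k3]]
    [.ref k2 k0 [(z1,[z0,z1]),(z2,[y2,z1,z1]),(z1,[y2,z1,z0,z1]),(z2,[z4,y3,y1,y2,z2])],.ref k4 k1 [(z1,[y1,z0,z1,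
    z1]),(z1,[y1,y1,z0,y1,z2]),(z1,[z1,z0,y1,z1]),(z1,[z1,z0,z1,y1])],.ref k5 k0 [(z2,[y1,z3]),(z2,[z1,z0,z3]),(z1,
    [z0,z0,z0,z1]),(z2,[y2,y3,y3,y6,z6])]],
    .lp k0 [k16,k16,k16,k16,k18,k12] [k1,k1,k1,k1,k1,k1,k1,k1,k0,k0,k3,k3] k0 [[k0,k0,k0,k0,k0,k0,k0,k0,k0,k0,k0,k0],
    [k0,k0,k0,k0,k0,k0,k0,k0,k0,k0,k0,k0],[k0,k0,k0,k0,k0,k0,k0,k0,k0,k0,k0,k0],[k0,k0,k0,k0,k0,k0,k0,k0,k0,k0,k0,k0],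
    [k0,k0,k0,k0,k0,k0,k0,k0,k0,k0,k0,k0],[k0,k0,k0,k0,k0,k0,k0,k0,k0,k0,k0,k0],[k0,k0,k0,k0,k0,k0,k0,k0,k0,k0,k0,k0],
    [k0,k0,k0,k0,k0,k0,k0,k0,k0,k0,k0,k0],[k0,k0,k0,k0,k0,k0,k0,k0,k0,k0,k0,k0],[k0,k0,k0,k0,k0,k0,k0,k0,k0,k0,k0,k0],
    [k0,k0,k0,k0,k0,k0,k0,k0,k0,k0,k0,k0],[k0,k0,k0,k0,k0,k0,k0,k0,k0,k0,k0,k0]] k48 k5
    [[(k10,k14),(k11,k14),(k1,k16),(k8,k17)],[(k0,k16),(k2,k16),(k3,k16),(k4,k16),(k5,k16),(k6,k16),(k7,k16),(k9,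
    k17)],[(k0,k16),(k2,k16),(k3,k16),(k4,k16),(k5,k16),(k6,k16),(k7,k16),(k9,k17)],[(k0,k16),(k2,k16),(k3,k16),(k4,
    k16),(k5,k16),(k6,k16),(k7,k16),(k9,k17)],[(k0,k16),(k2,k16),(k3,k16),(k4,k16),(k5,k16),(k6,k16),(k7,k16),(k9,
    k17)],[(k0,k16),(k2,k16),(k3,k16),(k4,k16),(k5,k16),(k6,k16),(k7,k16),(k9,k17)],[(k0,k16),(k2,k16),(k3,k16),(k4,
    k16),(k5,k16),(k6,k16),(k7,k16),(k9,k17)],[(k0,k16),(k2,k16),(k3,k16),(k4,k16),(k5,k16),(k6,k16),(k7,k16),(k9,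
    k17)],[(k0,k17),(k2,k17),(k3,k17),(k4,k17),(k5,k17),(k6,k17),(k7,k17),(k9,k18)],[(k10,k15),(k11,k15),(k1,k17),(k8,
    k18)],[(k10,k12),(k11,k12),(k1,k14),(k8,k15)],[(k10,k12),(k11,k12),(k1,k14),(k8,k15)]]
    [[k2,k0,k0,k0,k0,k1],[k1,k0,k0,k0,k1,k1],[k0,k0,k0,k0,k0,k3]]
    [.ref k3 k0 [(z1,[z0,z1]),(z2,[y3,z2,z3]),(z1,[z0,z0,z0,z1]),(z1,[z0,z0,z0,z0,z1]),(z2,[y3,z0,y3,y2,y2,z6])],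
    .ref k3 k0 [(z1,[z0,z1]),(z1,[y3,z0,z0,y1,y1,z3]),(z1,[z0,z0,z0,z1]),(z1,[z0,z0,z0,z0,z1]),(z1,[y3,y1,y3,y2,y2,
    z6])],.ref k3 k0 [(z1,[z0,z1]),(z2,[y1,z0,z3]),(z1,[z0,z0,z0,z1]),(z1,[z0,z0,z0,z0,z1]),(z2,[y1,y2,y3,y2,y2,
    z6])]],
    .lp k0 [(nat_lit 348),(nat_lit 390),(nat_lit 390),(nat_lit 444),(nat_lit 408),(nat_lit 400)] [k48,k48,k27,k27,k27,
    k27,k0,k0,k18,k18,k22,k22] k0 [[k0,k0,k30,k30,k0,k0,k0,k0,k0,k0,k0,k0],[k0,k0,k0,k0,k0,k0,k0,k0,k0,k0,k0,k0],[k0,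
    k30,k0,k0,k30,k0,k6,k0,k0,k0,k0,k0],[k0,k30,k0,k0,k30,k0,k6,k0,k0,k0,k0,k0],[k0,k0,k0,k0,k0,k0,k0,k0,k0,k0,k0,k0],
    [k0,k0,k30,k30,k0,k0,k0,k0,k0,k0,k0,k0],[k0,k0,k0,k0,k0,k0,k0,k0,k0,k0,k0,k0],[k0,k0,k6,k6,k0,k0,k0,k0,k0,k0,k0,
    k0],[k0,k0,k0,k0,k0,k0,k0,k0,k0,k0,k0,k104],[k0,k0,k0,k0,k0,k0,k0,k0,k0,k0,k0,k0],[k0,k0,k0,k0,k0,k0,k0,k0,k0,
    k104,k0,k0],[k0,k0,k0,k0,k0,k0,k0,k0,k0,k0,k0,k0]] (nat_lit 1200) k5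
    [[(k1,(nat_lit 348)),(k10,(nat_lit 374)),(k8,(nat_lit 378)),(k11,(nat_lit 478))],[(k2,(nat_lit 339)),(k5,
    (nat_lit 339)),(k0,(nat_lit 348)),(k3,(nat_lit 369)),(k4,(nat_lit 369)),(k9,(nat_lit 378)),(k6,(nat_lit 396)),(k7,
    (nat_lit 396))],[(k0,(nat_lit 369)),(k3,(nat_lit 390)),(k4,(nat_lit 390)),(k9,(nat_lit 399)),(k6,(nat_lit 417)),
    (k7,(nat_lit 417)),(k2,(nat_lit 420)),(k5,(nat_lit 420))],[(k0,(nat_lit 339)),(k7,(nat_lit 387)),(k2,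
    (nat_lit 390)),(k5,(nat_lit 390)),(k9,(nat_lit 393)),(k3,(nat_lit 420)),(k4,(nat_lit 420)),(k6,(nat_lit 423))],
    [(k0,(nat_lit 339)),(k7,(nat_lit 387)),(k2,(nat_lit 390)),(k5,(nat_lit 390)),(k9,(nat_lit 393)),(k3,
    (nat_lit 420)),(k4,(nat_lit 420)),(k6,(nat_lit 423))],[(k0,(nat_lit 369)),(k3,(nat_lit 390)),(k4,(nat_lit 390)),
    (k9,(nat_lit 399)),(k6,(nat_lit 417)),(k7,(nat_lit 417)),(k2,(nat_lit 420)),(k5,(nat_lit 420))],[(k2,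
    (nat_lit 387)),(k5,(nat_lit 387)),(k0,(nat_lit 396)),(k3,(nat_lit 417)),(k4,(nat_lit 417)),(k9,(nat_lit 426)),(k6,
    (nat_lit 444)),(k7,(nat_lit 444))],[(k0,(nat_lit 396)),(k3,(nat_lit 417)),(k4,(nat_lit 417)),(k2,(nat_lit 423)),
    (k5,(nat_lit 423)),(k9,(nat_lit 426)),(k6,(nat_lit 444)),(k7,(nat_lit 444))],[(k0,(nat_lit 378)),(k2,
    (nat_lit 393)),(k5,(nat_lit 393)),(k3,(nat_lit 399)),(k4,(nat_lit 399)),(k9,(nat_lit 408)),(k6,(nat_lit 426)),(k7,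
    (nat_lit 426))],[(k10,(nat_lit 300)),(k1,(nat_lit 378)),(k11,(nat_lit 404)),(k8,(nat_lit 408))],[(k10,
    (nat_lit 400)),(k11,(nat_lit 400)),(k8,(nat_lit 404)),(k1,(nat_lit 478))],[(k8,(nat_lit 300)),(k1,(nat_lit 374)),
    (k10,(nat_lit 400)),(k11,(nat_lit 400))]]
    [[k2,k1,k0,k0,k0,k0],[k2,k0,k1,k0,k0,k0],[k2,k0,k0,k1,k0,k0],[k1,k1,k0,k0,k1,k0],[k1,k0,k1,k0,k1,k0],[k1,k0,k0,k0,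
    k1,k1],[k0,k0,k0,k0,k2,k1]]
    [.ref k3 k0 [(z1,[z0,z1]),(z1,[z3,y2]),(z1,[z3,y2,y3,z3]),(z2,[y9,z6,z9,z0,z2]),(z2,[y3,z2,z3])],.ref k3 k0 [(z1,
    [z0,z1]),(z1,[z3,y2,z3,y3]),(z1,[z3,y2]),(z2,[y9,z6,z0,z9,z2]),(z2,[y3,z2,z0,z3])],.ref k3 k0 [(z1,[z0,z1]),(z3,
    [y6,z4,z9,z0,z2]),(z3,[y6,z4,z0,z9,z2]),(z1,[z3,y2]),(z3,[z3,y2,z0,z0,y1])],.ref k3 k0 [(z1,[z0,z1]),(z1,[z6,y2,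
    y3]),(z1,[z6,y2,y6,z3]),(z1,[y9,z3,z9,z0,z1]),(z1,[y3,z1,z3])],.ref k3 k0 [(z1,[z0,z1]),(z1,[z6,y2,z3,y6]),(z1,
    [z6,y2,z0,y3]),(z1,[y9,z3,z0,z9,z1]),(z1,[y3,z1,z0,z3])],.ref k3 k0 [(z1,[z0,z1]),(z1,[y6,z0,y3,y6,y2,z6]),(z1,
    [y6,z0,y6,y3,y2,z6]),(z1,[z9,z0,z9,z9,z4,y9]),(z1,[z3,z0,z3,z3,z1,y3])],.ref k3 k0 [(z1,[z0,z1]),(z1,[y3,y1,z0,y3,
    y1,z3]),(z1,[y3,y1,y3,z0,y1,z3]),(z2,[z9,z3,z9,z9,z5,y9]),(z2,[z3,z1,z3,z3,z1,y3])]],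
    .lp k0 [k120,k112,k112,k112,k126,k84] [k3,k3,k7,k7,k7,k7,k7,k7,k0,k0,k21,k21] k0 [[k0,k0,k14,k0,k0,k0,k0,k0,k0,k0,
    k0,k0],[k14,k0,k0,k0,k0,k0,k0,k0,k0,k0,k0,k0],[k0,k0,k0,k0,k0,k0,k0,k0,k0,k0,k0,k0],[k0,k14,k0,k0,k0,k0,k14,k0,k0,
    k0,k0,k0],[k0,k0,k0,k0,k0,k0,k0,k0,k0,k0,k0,k0],[k0,k0,k0,k0,k0,k0,k0,k0,k0,k0,k0,k0],[k0,k0,k0,k0,k0,k0,k0,k0,k0,
    k0,k0,k0],[k0,k0,k14,k0,k0,k0,k0,k0,k0,k0,k0,k0],[k0,k0,k0,k0,k0,k0,k0,k0,k0,k0,k0,k0],[k0,k0,k0,k0,k0,k0,k0,k0,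
    k0,k0,k0,k0],[k0,k0,k0,k0,k0,k0,k0,k0,k0,k0,k0,k0],[k0,k0,k0,k0,k0,k0,k0,k0,k0,k0,k0,k0]] (nat_lit 336) k5
    [[(k10,k102),(k11,k102),(k1,k120),(k8,k123)],[(k5,k102),(k2,k116),(k3,k116),(k4,k116),(k6,k116),(k7,k116),(k9,
    k123),(k0,k134)],[(k3,k98),(k4,k112),(k5,k112),(k6,k112),(k7,k112),(k0,k116),(k9,k119),(k2,k126)],[(k2,k112),(k4,
    k112),(k5,k112),(k7,k112),(k0,k116),(k9,k119),(k3,k126),(k6,k126)],[(k0,k102),(k9,k105),(k2,k112),(k3,k112),(k4,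
    k112),(k5,k112),(k6,k112),(k7,k112)],[(k2,k112),(k3,k112),(k4,k112),(k5,k112),(k6,k112),(k7,k112),(k0,k116),(k9,
    k119)],[(k2,k112),(k3,k112),(k4,k112),(k5,k112),(k6,k112),(k7,k112),(k0,k116),(k9,k119)],[(k3,k112),(k4,k112),(k5,
    k112),(k6,k112),(k7,k112),(k0,k116),(k9,k119),(k2,k126)],[(k5,k105),(k2,k119),(k3,k119),(k4,k119),(k6,k119),(k7,
    k119),(k0,k123),(k9,k126)],[(k10,k105),(k11,k105),(k1,k123),(k8,k126)],[(k10,k84),(k11,k84),(k1,k102),(k8,k105)],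
    [(k10,k84),(k11,k84),(k1,k102),(k8,k105)]]
    [[k1,k0,k0,k0,k1,k1],[k0,k2,k1,k0,k0,k0],[k0,k0,k0,k0,k0,k3]]
    [.ref k2 k0 [(z1,[z0,z1]),(z1,[y2,z1,z1]),(z1,[y2,z1,z0,z1]),(z1,[z3,y2,y1,y1,z1])],.ref k7 k1 [(z2,[y1,z0,z2,
    z1]),(z1,[y1,y1,z0,y1,z2]),(z1,[z1,z0,y2,z2]),(z1,[z1,z0,z1,y1])],.ref k8 k0 [(z2,[y1,z3]),(z1,[z0,z0,z1]),(z1,
    [z0,z0,z0,z1]),(z2,[y1,y3,y6,y6,z6])]],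
    .lp k0 [k16,k16,k16,k16,k18,k12] [k1,k1,k1,k1,k1,k1,k1,k1,k0,k0,k3,k3] k0 [[k0,k0,k0,k0,k0,k0,k0,k0,k0,k0,k0,k0],
    [k0,k0,k0,k0,k0,k0,k0,k0,k0,k0,k0,k0],[k0,k0,k0,k0,k0,k0,k0,k0,k0,k0,k0,k0],[k0,k0,k0,k0,k0,k0,k0,k0,k0,k0,k0,k0],
    [k0,k0,k0,k0,k0,k0,k0,k0,k0,k0,k0,k0],[k0,k0,k0,k0,k0,k0,k0,k0,k0,k0,k0,k0],[k0,k0,k0,k0,k0,k0,k0,k0,k0,k0,k0,k0],
    [k0,k0,k0,k0,k0,k0,k0,k0,k0,k0,k0,k0],[k0,k0,k0,k0,k0,k0,k0,k0,k0,k0,k0,k0],[k0,k0,k0,k0,k0,k0,k0,k0,k0,k0,k0,k0],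
    [k0,k0,k0,k0,k0,k0,k0,k0,k0,k0,k0,k0],[k0,k0,k0,k0,k0,k0,k0,k0,k0,k0,k0,k0]] k48 k5
    [[(k10,k14),(k11,k14),(k1,k16),(k8,k17)],[(k0,k16),(k2,k16),(k3,k16),(k4,k16),(k5,k16),(k6,k16),(k7,k16),(k9,
    k17)],[(k0,k16),(k2,k16),(k3,k16),(k4,k16),(k5,k16),(k6,k16),(k7,k16),(k9,k17)],[(k0,k16),(k2,k16),(k3,k16),(k4,
    k16),(k5,k16),(k6,k16),(k7,k16),(k9,k17)],[(k0,k16),(k2,k16),(k3,k16),(k4,k16),(k5,k16),(k6,k16),(k7,k16),(k9,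
    k17)],[(k0,k16),(k2,k16),(k3,k16),(k4,k16),(k5,k16),(k6,k16),(k7,k16),(k9,k17)],[(k0,k16),(k2,k16),(k3,k16),(k4,
    k16),(k5,k16),(k6,k16),(k7,k16),(k9,k17)],[(k0,k16),(k2,k16),(k3,k16),(k4,k16),(k5,k16),(k6,k16),(k7,k16),(k9,
    k17)],[(k0,k17),(k2,k17),(k3,k17),(k4,k17),(k5,k17),(k6,k17),(k7,k17),(k9,k18)],[(k10,k15),(k11,k15),(k1,k17),(k8,
    k18)],[(k10,k12),(k11,k12),(k1,k14),(k8,k15)],[(k10,k12),(k11,k12),(k1,k14),(k8,k15)]]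
    [[k2,k0,k0,k0,k0,k1],[k1,k0,k0,k0,k1,k1],[k0,k0,k0,k0,k0,k3]]
    [.ref k3 k0 [(z2,[y1,z1]),(z2,[y4,z1,z3]),(z4,[z4,y1,z0,z3]),(z8,[y4,z1,z0,z0,z3]),(z8,[y16,z1,y12,y6,y3,z24])],
    .ref k3 k0 [(z8,[y8,z3,y4,y2,y1,z8]),(z2,[y8,z0,y1,y2,y1,z8]),(z4,[z8,z0,z4,z5,z1,y8]),(z4,[y4,z0,y2,y1,z1,z4]),
    (z8,[y32,y3,y28,y14,y7,z56])],.ref k3 k0 [(z8,[y1,z3]),(z2,[y1,z0,z3]),(z4,[z1,z0,z0,z3]),(z8,[y1,z0,z0,z0,z3]),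
    (z8,[y4,y3,y12,y6,y3,z24])]],
    .lp k0 [(nat_lit 348),(nat_lit 390),(nat_lit 390),(nat_lit 444),(nat_lit 408),(nat_lit 400)] [k48,k48,k27,k27,k27,
    k27,k0,k0,k18,k18,k22,k22] k0 [[k0,k0,k30,k30,k0,k0,k0,k0,k0,k0,k0,k0],[k0,k0,k0,k0,k0,k0,k0,k0,k0,k0,k0,k0],[k0,
    k30,k0,k0,k30,k0,k6,k0,k0,k0,k0,k0],[k0,k30,k0,k0,k30,k0,k6,k0,k0,k0,k0,k0],[k0,k0,k0,k0,k0,k0,k0,k0,k0,k0,k0,k0],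
    [k0,k0,k30,k30,k0,k0,k0,k0,k0,k0,k0,k0],[k0,k0,k0,k0,k0,k0,k0,k0,k0,k0,k0,k0],[k0,k0,k6,k6,k0,k0,k0,k0,k0,k0,k0,
    k0],[k0,k0,k0,k0,k0,k0,k0,k0,k0,k0,k0,k104],[k0,k0,k0,k0,k0,k0,k0,k0,k0,k0,k0,k0],[k0,k0,k0,k0,k0,k0,k0,k0,k0,
    k104,k0,k0],[k0,k0,k0,k0,k0,k0,k0,k0,k0,k0,k0,k0]] (nat_lit 1200) k5
    [[(k1,(nat_lit 348)),(k10,(nat_lit 374)),(k8,(nat_lit 378)),(k11,(nat_lit 478))],[(k2,(nat_lit 339)),(k5,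
    (nat_lit 339)),(k0,(nat_lit 348)),(k3,(nat_lit 369)),(k4,(nat_lit 369)),(k9,(nat_lit 378)),(k6,(nat_lit 396)),(k7,
    (nat_lit 396))],[(k0,(nat_lit 369)),(k3,(nat_lit 390)),(k4,(nat_lit 390)),(k9,(nat_lit 399)),(k6,(nat_lit 417)),
    (k7,(nat_lit 417)),(k2,(nat_lit 420)),(k5,(nat_lit 420))],[(k0,(nat_lit 339)),(k7,(nat_lit 387)),(k2,
    (nat_lit 390)),(k5,(nat_lit 390)),(k9,(nat_lit 393)),(k3,(nat_lit 420)),(k4,(nat_lit 420)),(k6,(nat_lit 423))],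
    [(k0,(nat_lit 339)),(k7,(nat_lit 387)),(k2,(nat_lit 390)),(k5,(nat_lit 390)),(k9,(nat_lit 393)),(k3,
    (nat_lit 420)),(k4,(nat_lit 420)),(k6,(nat_lit 423))],[(k0,(nat_lit 369)),(k3,(nat_lit 390)),(k4,(nat_lit 390)),
    (k9,(nat_lit 399)),(k6,(nat_lit 417)),(k7,(nat_lit 417)),(k2,(nat_lit 420)),(k5,(nat_lit 420))],[(k2,
    (nat_lit 387)),(k5,(nat_lit 387)),(k0,(nat_lit 396)),(k3,(nat_lit 417)),(k4,(nat_lit 417)),(k9,(nat_lit 426)),(k6,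
    (nat_lit 444)),(k7,(nat_lit 444))],[(k0,(nat_lit 396)),(k3,(nat_lit 417)),(k4,(nat_lit 417)),(k2,(nat_lit 423)),
    (k5,(nat_lit 423)),(k9,(nat_lit 426)),(k6,(nat_lit 444)),(k7,(nat_lit 444))],[(k0,(nat_lit 378)),(k2,
    (nat_lit 393)),(k5,(nat_lit 393)),(k3,(nat_lit 399)),(k4,(nat_lit 399)),(k9,(nat_lit 408)),(k6,(nat_lit 426)),(k7,
    (nat_lit 426))],[(k10,(nat_lit 300)),(k1,(nat_lit 378)),(k11,(nat_lit 404)),(k8,(nat_lit 408))],[(k10,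
    (nat_lit 400)),(k11,(nat_lit 400)),(k8,(nat_lit 404)),(k1,(nat_lit 478))],[(k8,(nat_lit 300)),(k1,(nat_lit 374)),
    (k10,(nat_lit 400)),(k11,(nat_lit 400))]]
    [[k2,k1,k0,k0,k0,k0],[k2,k0,k1,k0,k0,k0],[k2,k0,k0,k1,k0,k0],[k1,k1,k0,k0,k1,k0],[k1,k0,k1,k0,k1,k0],[k1,k0,k0,k0,
    k1,k1],[k0,k0,k0,k0,k2,k1]]
    [.ref k3 k0 [(z1,[z0,z1]),(z1,[z3,y2]),(z3,[z6,y4,y2,z9]),(z3,[y12,z8,z4,z0,z9]),(z3,[y3,z2,z1])],.ref k3 k0 [(z1,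
    [z0,z1]),(z2,[z9,y6,z2,y9]),(z1,[z3,y2]),(z1,[y6,z4,z0,z6,z3]),(z2,[y3,z2,z0,z3])],.ref k3 k0 [(z1,[z0,z1]),(z4,
    [y9,z6,z4,z0,z9]),(z2,[y3,z2,z0,z6,z3]),(z1,[z3,y2]),(z4,[z3,y2,z0,z0,y3])],.ref k3 k0 [(z1,[z0,z1]),(z2,[z9,y3,
    y1]),(z1,[z3,y1,y1,z3]),(z1,[y6,z2,z2,z0,z3]),(z2,[y3,z1,z1])],.ref k3 k0 [(z1,[z0,z1]),(z1,[z9,y3,z1,y9]),(z1,
    [z6,y2,z0,y3]),(z1,[y12,z4,z0,z12,z3]),(z1,[y3,z1,z0,z3])],.ref k3 k0 [(z1,[z0,z1]),(z1,[y9,z0,y2,y9,y9,z9]),(z1,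
    [y6,z0,y2,y3,y6,z6]),(z1,[z12,z0,z4,z12,z15,y12]),(z1,[z3,z0,z1,z3,z3,y3])],.ref k3 k0 [(z1,[z0,z1]),(z2,[y9,y3,
    y1,y9,y9,z9]),(z1,[y3,y1,y1,z0,y3,z3]),(z1,[z6,z2,z2,z6,z9,y6]),(z2,[z3,z1,z1,z3,z3,y3])]]]

theorem hB6_104_0 : blkB [0, 0, 0, 0, 1, 1] [] sp6 hS6_104 (pcls (n := 6) [0, 0, 0, 0, 1, 1]) hD6_104 181 0 hN6_104_0 = true := by
  decide +kernel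

/-- nodes 12 to 23 -/
noncomputable def hN6_104_1 : List HM :=
  [.lp k0 [k120,k112,k112,k112,k126,k84] [k3,k3,k7,k7,k7,k7,k7,k7,k0,k0,k21,k21] k0 [[k0,k0,k14,k0,k0,k0,k0,k0,k0,k0,
    k0,k0],[k14,k0,k0,k0,k0,k0,k0,k0,k0,k0,k0,k0],[k0,k0,k0,k0,k0,k0,k0,k0,k0,k0,k0,k0],[k0,k14,k0,k0,k0,k0,k14,k0,k0,
    k0,k0,k0],[k0,k0,k0,k0,k0,k0,k0,k0,k0,k0,k0,k0],[k0,k0,k0,k0,k0,k0,k0,k0,k0,k0,k0,k0],[k0,k0,k0,k0,k0,k0,k0,k0,k0,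
    k0,k0,k0],[k0,k0,k14,k0,k0,k0,k0,k0,k0,k0,k0,k0],[k0,k0,k0,k0,k0,k0,k0,k0,k0,k0,k0,k0],[k0,k0,k0,k0,k0,k0,k0,k0,
    k0,k0,k0,k0],[k0,k0,k0,k0,k0,k0,k0,k0,k0,k0,k0,k0],[k0,k0,k0,k0,k0,k0,k0,k0,k0,k0,k0,k0]] (nat_lit 336) k5
    [[(k10,k102),(k11,k102),(k1,k120),(k8,k123)],[(k5,k102),(k2,k116),(k3,k116),(k4,k116),(k6,k116),(k7,k116),(k9,
    k123),(k0,k134)],[(k3,k98),(k4,k112),(k5,k112),(k6,k112),(k7,k112),(k0,k116),(k9,k119),(k2,k126)],[(k2,k112),(k4,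
    k112),(k5,k112),(k7,k112),(k0,k116),(k9,k119),(k3,k126),(k6,k126)],[(k0,k102),(k9,k105),(k2,k112),(k3,k112),(k4,
    k112),(k5,k112),(k6,k112),(k7,k112)],[(k2,k112),(k3,k112),(k4,k112),(k5,k112),(k6,k112),(k7,k112),(k0,k116),(k9,
    k119)],[(k2,k112),(k3,k112),(k4,k112),(k5,k112),(k6,k112),(k7,k112),(k0,k116),(k9,k119)],[(k3,k112),(k4,k112),(k5,
    k112),(k6,k112),(k7,k112),(k0,k116),(k9,k119),(k2,k126)],[(k5,k105),(k2,k119),(k3,k119),(k4,k119),(k6,k119),(k7,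
    k119),(k0,k123),(k9,k126)],[(k10,k105),(k11,k105),(k1,k123),(k8,k126)],[(k10,k84),(k11,k84),(k1,k102),(k8,k105)],
    [(k10,k84),(k11,k84),(k1,k102),(k8,k105)]]
    [[k1,k0,k0,k0,k1,k1],[k0,k2,k1,k0,k0,k0],[k0,k0,k0,k0,k0,k3]]
    [.ref k2 k0 [(z1,[z0,z1]),(z2,[y6,z3,z1]),(z1,[y2,z1,z0,z1]),(z2,[z8,y5,y1,y2,z2])],.ref k10 k1 [(z1,[y1,z0,z1,
    z1]),(z1,[y1,y1,z0,y1,z2]),(z1,[z1,z0,y1,z3]),(z1,[z3,z0,z1,y3])],.ref k11 k0 [(z2,[y1,z3]),(z2,[y1,z0,z3]),(z1,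
    [z0,z0,z0,z1]),(z2,[z0,y1,y1,y2,z2])]],
    .lp k0 [k146,k176,k158,k170,k146,k160] [k15,k15,k0,k0,k9,k9,k3,k3,k15,k15,k8,k8] k0 [[k0,k0,k0,k0,k0,k0,k0,k0,k0,
    k0,k0,k0],[k0,k0,k12,k0,k0,k18,k0,k0,k0,k0,k0,k0],[k0,k0,k0,k0,k6,k0,k0,k36,k0,k0,k0,k0],[k12,k0,k0,k0,k6,k0,k0,
    k0,k0,k0,k0,k0],[k18,k0,k0,k0,k0,k0,k6,k18,k0,k0,k0,k0],[k0,k0,k6,k6,k0,k0,k0,k0,k0,k0,k0,k0],[k0,k0,k0,k36,k0,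
    k18,k0,k0,k0,k0,k0,k0],[k0,k0,k0,k0,k0,k6,k0,k0,k0,k0,k0,k0],[k0,k0,k0,k0,k0,k0,k0,k0,k0,k0,k0,k28],[k0,k0,k0,k0,
    k0,k0,k0,k0,k0,k0,k0,k0],[k0,k0,k0,k0,k0,k0,k0,k0,k0,k28,k0,k0],[k0,k0,k0,k0,k0,k0,k0,k0,k0,k0,k0,
    k0]] (nat_lit 480) k5
    [[(k1,k146),(k8,k146),(k10,k153),(k11,k181)],[(k0,k146),(k9,k146),(k4,k152),(k5,k152),(k6,k158),(k3,k161),(k2,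
    k173),(k7,k176)],[(k4,k149),(k5,k155),(k0,k161),(k9,k161),(k6,k173),(k7,k173),(k2,k176),(k3,k176)],[(k6,k137),(k9,
    k161),(k5,k167),(k7,k167),(k0,k173),(k4,k173),(k2,k176),(k3,k176)],[(k0,k152),(k3,k155),(k5,k158),(k7,k158),(k4,
    k164),(k6,k164),(k2,k167),(k9,k188)],[(k6,k146),(k9,k146),(k3,k149),(k0,k152),(k4,k158),(k5,k164),(k7,k164),(k2,
    k173)],[(k5,k158),(k4,k164),(k2,k167),(k7,k170),(k3,k173),(k0,k176),(k6,k176),(k9,k176)],[(k2,k137),(k4,k146),(k0,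
    k158),(k9,k158),(k5,k164),(k6,k170),(k3,k173),(k7,k176)],[(k0,k146),(k4,k146),(k9,k146),(k6,k158),(k2,k161),(k3,
    k161),(k7,k176),(k5,k188)],[(k10,k125),(k1,k146),(k8,k146),(k11,k153)],[(k8,k153),(k10,k160),(k11,k160),(k1,
    k181)],[(k8,k125),(k1,k153),(k10,k160),(k11,k160)]]
    [[k2,k0,k1,k0,k0,k0],[k1,k1,k0,k0,k1,k0],[k1,k0,k1,k0,k1,k0],[k1,k0,k0,k0,k1,k1],[k0,k1,k1,k1,k0,k0],[k0,k1,k0,k0,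
    k2,k0],[k0,k0,k2,k1,k0,k0],[k0,k0,k0,k0,k2,k1]]
    [.ref k1 k0 [(z1,[z0,z1]),(z4,[y2,z1,z1,z2]),(z1,[z1,y1])],.ref k6 k0 [(z1,[z0,z1]),(z1,[z2,y1]),(z2,[z0,y1,y1,
    z2])],.ref k1 k0 [(z1,[z0,z1]),(z1,[y1,z0,z0,z1]),(z2,[z4,y1,z1,y2])],.ref k1 k0 [(z1,[z0,z1]),(z2,[z2,y1,z1]),
    (z2,[y4,z1,y1,z2])],.ref k1 k0 [(z1,[z0,z1]),(z2,[y2,y1,z1,z2]),(z2,[z4,z1,y1,y2])],.ref k9 k0 [(z1,[z0,z1]),(z1,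
    [z1]),(z2,[z0,y1,y1,z2])],.ref k12 k0 [(z1,[z0,z1]),(z1,[y2,y2,y1,z4]),(z2,[z0,y1,y1,z2])],.ref k1 k0 [(z1,[z0,
    z1]),(z2,[z1,z0,z1]),(z2,[y2,y1,y1,z2])]],
    .lp k0 [k38,k32,k44,k44,k40,k40] [k3,k3,k7,k5,k0,k0,k0,k0,k2,k2,k2,k2] k0 [[k0,k0,k0,k0,k0,k0,k0,k0,k0,k0,k0,k0],
    [k4,k0,k0,k0,k0,k0,k0,k0,k0,k0,k0,k0],[k0,k0,k0,k0,k0,k0,k0,k0,k0,k0,k0,k0],[k0,k0,k0,k0,k0,k0,k0,k0,k0,k0,k0,k0],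
    [k0,k0,k0,k0,k0,k0,k0,k0,k0,k0,k0,k0],[k0,k0,k0,k0,k0,k0,k0,k0,k0,k0,k0,k0],[k0,k0,k0,k0,k0,k0,k0,k0,k0,k0,k0,k0],
    [k0,k0,k0,k0,k0,k0,k0,k0,k0,k0,k0,k0],[k0,k0,k0,k0,k0,k0,k0,k0,k0,k0,k0,k0],[k0,k0,k0,k0,k0,k0,k0,k0,k0,k0,k0,k0],
    [k0,k0,k0,k0,k0,k0,k0,k0,k0,k0,k0,k0],[k0,k0,k0,k0,k0,k0,k0,k0,k0,k0,k0,k0]] k120 k5
    [[(k1,k38),(k8,k39),(k10,k39),(k11,k39)],[(k2,k34),(k3,k36),(k9,k39),(k4,k41),(k5,k41),(k6,k41),(k7,k41),(k0,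
    k42)],[(k3,k30),(k2,k32),(k0,k36),(k9,k37),(k4,k39),(k5,k39),(k6,k39),(k7,k39)],[(k2,k30),(k3,k32),(k0,k34),(k9,
    k35),(k4,k37),(k5,k37),(k6,k37),(k7,k37)],[(k2,k37),(k3,k39),(k0,k41),(k9,k42),(k4,k44),(k5,k44),(k6,k44),(k7,
    k44)],[(k2,k37),(k3,k39),(k0,k41),(k9,k42),(k4,k44),(k5,k44),(k6,k44),(k7,k44)],[(k2,k37),(k3,k39),(k0,k41),(k9,
    k42),(k4,k44),(k5,k44),(k6,k44),(k7,k44)],[(k2,k37),(k3,k39),(k0,k41),(k9,k42),(k4,k44),(k5,k44),(k6,k44),(k7,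
    k44)],[(k2,k35),(k3,k37),(k0,k39),(k9,k40),(k4,k42),(k5,k42),(k6,k42),(k7,k42)],[(k1,k39),(k8,k40),(k10,k40),(k11,
    k40)],[(k1,k39),(k8,k40),(k10,k40),(k11,k40)],[(k1,k39),(k8,k40),(k10,k40),(k11,k40)]]
    [[k2,k1,k0,k0,k0,k0],[k1,k1,k0,k0,k1,k0],[k1,k0,k0,k0,k1,k1],[k0,k3,k0,k0,k0,k0],[k0,k2,k1,k0,k0,k0],[k0,k2,k0,k1,
    k0,k0],[k0,k1,k0,k0,k2,k0]]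
    [.ref k3 k0 [(z4,[z3,z6,y1]),(z2,[z3,y6,z1]),(z2,[y3,z6,z1,z6]),(z2,[y3,z6,z1,z0,z6]),(z4,[z3,y6,y1])],
    .ref k3 k0 [(z4,[z3,z9,y1]),(z2,[z3,y3,z1]),(z2,[y3,z3,z1,z6]),(z2,[y3,z3,z1,z0,z6]),(z4,[z3,y3,y1])],
    .ref k3 k0 [(z2,[z3,z6,z1,z3,z3,y3]),(z1,[z3,z0,z2,z3,z3,y3]),(z1,[y3,z0,y1,z0,y3,z3]),(z1,[y3,z0,y1,y3,z0,z3]),
    (z2,[z3,z0,z1,z3,z3,y3])],.ref k3 k0 [(z2,[z1,z6,y1]),(z1,[z1]),(z1,[y1,z0,z1,z3]),(z1,[y1,z0,z1,z0,z3]),(z2,[z1,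
    z0,y1])],.ref k3 k0 [(z2,[z3,z6,y2,y3]),(z1,[z3,z0,y1,y3]),(z1,[y3,z0,z2,z6]),(z1,[y3,z0,z2,z3,z3]),(z2,[z3,z0,y2,
    y3])],.ref k3 k0 [(z2,[z3,z6,y2,z0,y3]),(z1,[z3,z0,y1,z0,y3]),(z1,[y3,z0,z2,z3,z3]),(z1,[y3,z0,z2,z0,z6]),(z2,[z3,
    z0,y2,z0,y3])],.ref k3 k0 [(z4,[z3,z12,y1]),(z2,[z3,z0,z1]),(z2,[y3,z0,z1,z6]),(z2,[y3,z0,z1,z0,z6]),(z4,[z3,z0,
    y1])]],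
    .lp k0 [(nat_lit 235200),(nat_lit 269040),(nat_lit 225498),(nat_lit 242844),(nat_lit 173460),
    (nat_lit 231280)] [(nat_lit 16920),(nat_lit 16920),k0,k0,(nat_lit 21771),(nat_lit 21771),(nat_lit 13098),
    (nat_lit 13098),(nat_lit 47790),(nat_lit 47790),(nat_lit 18880),(nat_lit 18880)] k0 [[k0,k0,k0,k0,k0,k0,k0,
    (nat_lit 17346),k0,k0,k0,k0],[k0,k0,k0,k0,k0,k0,k0,k0,k0,k0,k0,k0],[k0,k0,k0,k0,(nat_lit 17346),(nat_lit 17346),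
    k0,k0,k0,k0,k0,k0],[k0,k0,k0,k0,k0,k0,k0,(nat_lit 17346),k0,k0,k0,k0],[k0,k0,k0,(nat_lit 17346),k0,k0,k0,k0,k0,k0,
    k0,k0],[k0,k0,k0,(nat_lit 17346),k0,k0,k0,k0,k0,k0,k0,k0],[k0,(nat_lit 17346),(nat_lit 17346),k0,k0,k0,k0,k0,k0,
    k0,k0,k0],[k0,k0,k0,k0,k0,k0,k0,k0,k0,k0,k0,k0],[k0,k0,k0,k0,k0,k0,k0,k0,k0,k0,k0,k0],[k0,k0,k0,k0,k0,k0,k0,k0,k0,
    k0,k0,k0],[k0,k0,k0,k0,k0,k0,k0,k0,k0,k0,k0,k0],[k0,k0,k0,k0,k0,k0,k0,k0,k0,k0,k0,k0]] (nat_lit 693840) k5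
    [[(k8,(nat_lit 204330)),(k10,(nat_lit 233240)),(k11,(nat_lit 233240)),(k1,(nat_lit 235200))],[(k9,
    (nat_lit 204330)),(k6,(nat_lit 221676)),(k4,(nat_lit 230349)),(k5,(nat_lit 230349)),(k0,(nat_lit 235200)),(k7,
    (nat_lit 239022)),(k2,(nat_lit 252120)),(k3,(nat_lit 252120))],[(k9,(nat_lit 238596)),(k4,(nat_lit 247269)),(k5,
    (nat_lit 247269)),(k0,(nat_lit 252120)),(k6,(nat_lit 255942)),(k7,(nat_lit 255942)),(k2,(nat_lit 269040)),(k3,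
    (nat_lit 269040))],[(k4,(nat_lit 229923)),(k7,(nat_lit 238596)),(k9,(nat_lit 238596)),(k5,(nat_lit 247269)),(k0,
    (nat_lit 252120)),(k6,(nat_lit 255942)),(k2,(nat_lit 269040)),(k3,(nat_lit 269040))],[(k9,(nat_lit 199479)),(k6,
    (nat_lit 216825)),(k5,(nat_lit 225498)),(k0,(nat_lit 230349)),(k4,(nat_lit 242844)),(k2,(nat_lit 247269)),(k3,
    (nat_lit 247269)),(k7,(nat_lit 251517))],[(k9,(nat_lit 199479)),(k4,(nat_lit 225498)),(k2,(nat_lit 229923)),(k0,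
    (nat_lit 230349)),(k6,(nat_lit 234171)),(k7,(nat_lit 234171)),(k5,(nat_lit 242844)),(k3,(nat_lit 247269))],[(k9,
    (nat_lit 208152)),(k4,(nat_lit 234171)),(k2,(nat_lit 238596)),(k0,(nat_lit 239022)),(k6,(nat_lit 242844)),(k7,
    (nat_lit 242844)),(k5,(nat_lit 251517)),(k3,(nat_lit 255942))],[(k9,(nat_lit 208152)),(k5,(nat_lit 216825)),(k0,
    (nat_lit 221676)),(k4,(nat_lit 234171)),(k6,(nat_lit 242844)),(k7,(nat_lit 242844)),(k2,(nat_lit 255942)),(k3,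
    (nat_lit 255942))],[(k9,(nat_lit 173460)),(k4,(nat_lit 199479)),(k5,(nat_lit 199479)),(k0,(nat_lit 204330)),(k6,
    (nat_lit 208152)),(k7,(nat_lit 208152)),(k2,(nat_lit 238596)),(k3,(nat_lit 238596))],[(k8,(nat_lit 173460)),(k10,
    (nat_lit 202370)),(k11,(nat_lit 202370)),(k1,(nat_lit 204330))],[(k8,(nat_lit 202370)),(k10,(nat_lit 231280)),
    (k11,(nat_lit 231280)),(k1,(nat_lit 233240))],[(k8,(nat_lit 202370)),(k10,(nat_lit 231280)),(k11,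
    (nat_lit 231280)),(k1,(nat_lit 233240))]]
    [[k1,k0,k1,k0,k1,k0],[k1,k0,k0,k1,k1,k0],[k1,k0,k0,k0,k1,k1],[k0,k1,k0,k0,k2,k0],[k0,k0,k1,k0,k2,k0],[k0,k0,k0,k1,
    k2,k0],[k0,k0,k0,k0,k2,k1]]
    [.ref k3 k0 [(z1,[z0,z1]),(z1,[y3,z1,z1,z1]),(z1,[z0,z0,z0,z1]),(z1,[z0,z0,z0,z0,z1]),(z1,[z3,y1,z0,y1])],
    .ref k3 k0 [(z1,[z0,z1]),(z1,[y3,z1,z1,z0,z1]),(z1,[z0,z0,z0,z1]),(z1,[z0,z0,z0,z0,z1]),(z1,[z3,y1,z0,z0,y1])],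
    .ref k3 k0 [(z1,[z0,z1]),(z1,[y3,z0,z0,y1,y1,z3]),(z1,[z0,z0,z0,z1]),(z1,[z0,z0,z0,z0,z1]),(z1,[z3,z0,z1,z1,z1,
    y3])],.ref k3 k0 [(z1,[z0,z1]),(z1,[y3,z0,z2]),(z1,[z0,z0,z0,z1]),(z1,[z0,z0,z0,z0,z1]),(z1,[z3,z0,y1])],
    .ref k3 k0 [(z1,[z0,z1]),(z2,[y3,z0,z2,z1]),(z1,[z0,z0,z0,z1]),(z1,[z0,z0,z0,z0,z1]),(z2,[z3,z0,z0,y1])],
    .ref k3 k0 [(z1,[z0,z1]),(z2,[y3,z0,z2,z0,z1]),(z1,[z0,z0,z0,z1]),(z1,[z0,z0,z0,z0,z1]),(z2,[z3,z0,z0,z0,y1])],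
    .ref k3 k0 [(z1,[z0,z1]),(z2,[y3,y1,z1,y1,y1,z3]),(z1,[z0,z0,z0,z1]),(z1,[z0,z0,z0,z0,z1]),(z2,[z3,z1,z1,z1,z1,
    y3])]],
    .lp k0 [k160,k186,k128,k176,k146,k160] [k13,k13,k0,k0,k29,k29,k5,k5,k20,k20,k13,k13] k0 [[k0,k0,k0,k2,k2,k0,k0,k2,
    k0,k0,k0,k0],[k0,k0,k0,k22,k10,k0,k0,k0,k0,k0,k0,k0],[k22,k2,k0,k0,k0,k0,k0,k0,k0,k0,k0,k0],[k0,k0,k0,k0,k0,k0,k0,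
    k0,k0,k0,k0,k0],[k0,k0,k0,k0,k0,k0,k0,k0,k0,k0,k0,k0],[k10,k2,k0,k0,k0,k0,k0,k0,k0,k0,k0,k0],[k0,k2,k0,k0,k0,k0,
    k0,k0,k0,k0,k0,k0],[k0,k0,k0,k0,k0,k0,k0,k0,k0,k0,k0,k0],[k0,k0,k0,k0,k0,k0,k0,k0,k0,k0,k0,k0],[k0,k0,k0,k0,k0,k0,
    k0,k0,k0,k0,k0,k0],[k0,k0,k0,k0,k0,k0,k0,k0,k0,k0,k0,k0],[k0,k0,k0,k0,k0,k0,k0,k0,k0,k0,k0,k0]] (nat_lit 480) k5
    [[(k8,k153),(k1,k160),(k10,k160),(k11,k160)],[(k9,k153),(k4,k154),(k0,k160),(k5,k166),(k6,k166),(k7,k166),(k2,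
    k171),(k3,k173)],[(k4,k159),(k5,k159),(k2,k164),(k9,k168),(k7,k171),(k0,k173),(k6,k181),(k3,k186)],[(k4,k157),(k5,
    k157),(k3,k164),(k9,k166),(k0,k171),(k6,k181),(k7,k181),(k2,k186)],[(k4,k128),(k5,k128),(k9,k137),(k6,k152),(k7,
    k152),(k2,k157),(k3,k159),(k0,k166)],[(k4,k128),(k5,k128),(k9,k137),(k6,k152),(k7,k152),(k0,k154),(k2,k157),(k3,
    k159)],[(k4,k152),(k5,k152),(k9,k161),(k0,k166),(k3,k171),(k6,k176),(k7,k176),(k2,k181)],[(k4,k152),(k5,k152),(k9,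
    k161),(k0,k166),(k6,k176),(k7,k176),(k2,k181),(k3,k181)],[(k4,k137),(k5,k137),(k9,k146),(k0,k153),(k6,k161),(k7,
    k161),(k2,k166),(k3,k168)],[(k8,k146),(k1,k153),(k10,k153),(k11,k153)],[(k8,k153),(k1,k160),(k10,k160),(k11,
    k160)],[(k8,k153),(k1,k160),(k10,k160),(k11,k160)]]
    [[k1,k0,k1,k0,k1,k0],[k1,k0,k0,k0,k1,k1],[k0,k1,k2,k0,k0,k0],[k0,k0,k3,k0,k0,k0],[k0,k0,k2,k1,k0,k0],[k0,k0,k1,k0,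
    k2,k0],[k0,k0,k0,k1,k2,k0],[k0,k0,k0,k0,k2,k1]]
    [.ref k3 k0 [(z12,[y9,z5,z0,z1]),(z6,[y9,z1,z2,z1]),(z6,[z9,y1,z0,z1]),(z6,[y9,z1,z0,z1,z2]),(z4,[z9,y1,z0,y1])],
    .ref k3 k0 [(z6,[y9,z2,y1,y1,y1,z9]),(z3,[y9,z0,z0,y1,y1,z9]),(z3,[z9,z0,z1,z2,z1,y9]),(z3,[y9,z0,y1,y1,z0,z9]),
    (z2,[z9,z0,z1,z1,z1,y9])],.ref k3 k0 [(z6,[y9,z2,z1,z2]),(z3,[y9,z0,z2,z2]),(z3,[z9,z0,y1,y1]),(z3,[y9,z0,z1,z2,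
    z1]),(z2,[z9,z0,y1,y2])],.ref k3 k0 [(z6,[y3,z2,z0,z1]),(z3,[y3,z0,z1,z1]),(z1,[z1]),(z3,[y3,z0,z0,z1,z1]),(z2,
    [z3,z0,z0,y1])],.ref k3 k0 [(z6,[y9,z2,z0,z2,z1]),(z3,[y9,z0,z1,z2,z1]),(z3,[z9,z0,z0,y1,y1]),(z3,[y9,z0,z0,z2,
    z2]),(z2,[z9,z0,z0,y2,y1])],.ref k3 k0 [(z24,[y9,z8,z0,z1]),(z12,[y9,z0,z4,z1]),(z4,[z3,z0,z0,z1]),(z12,[y9,z0,z0,
    z1,z4]),(z8,[z9,z0,z0,y1])],.ref k3 k0 [(z12,[y9,z4,z0,z0,z1]),(z6,[y9,z0,z2,z0,z1]),(z6,[z9,z0,z0,z2,y1]),(z2,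
    [y3,z0,z0,z0,z1]),(z4,[z9,z0,z0,z0,y1])],.ref k3 k0 [(z18,[y9,z5,y1,y1,y1,z9]),(z9,[y9,y1,z2,y1,y1,z9]),(z9,[z9,
    z1,z1,z4,z1,y9]),(z9,[y9,y1,y1,y1,z2,z9]),(z6,[z9,z1,z1,z1,z1,y9])]],
    .base (.leafM k0 [k0,k1,k2,k3,k4,k5] [(z3,[z0,z1,z3,z1])] []),
    .lp k0 [k78,k84,k84,k78,k72,k80] [k3,k3,k0,k0,k0,k0,k3,k3,k6,k6,k2,k2] k0 [[k0,k0,k0,k0,k0,k0,k0,k6,k0,k0,k0,k0],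
    [k0,k0,k0,k0,k0,k0,k0,k0,k0,k0,k0,k0],[k0,k0,k0,k0,k0,k0,k0,k0,k0,k0,k0,k0],[k0,k0,k0,k0,k0,k0,k0,k6,k0,k0,k0,k0],
    [k0,k0,k0,k0,k0,k0,k6,k0,k0,k0,k0,k0],[k0,k0,k0,k0,k0,k0,k6,k0,k0,k0,k0,k0],[k0,k6,k6,k0,k0,k0,k0,k0,k0,k0,k0,k0],
    [k0,k0,k0,k0,k6,k6,k0,k0,k0,k0,k0,k0],[k0,k0,k0,k0,k0,k0,k0,k0,k0,k0,k0,k0],[k0,k0,k0,k0,k0,k0,k0,k0,k0,k0,k16,
    k0],[k0,k0,k0,k0,k0,k0,k0,k0,k0,k0,k0,k0],[k0,k0,k0,k0,k0,k0,k0,k0,k16,k0,k0,k0]] (nat_lit 240) k5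
    [[(k11,k63),(k8,k75),(k1,k78),(k10,k79)],[(k6,k72),(k9,k75),(k0,k78),(k7,k78),(k2,k81),(k3,k81),(k4,k81),(k5,
    k81)],[(k0,k81),(k6,k81),(k7,k81),(k2,k84),(k3,k84),(k4,k84),(k5,k84),(k9,k84)],[(k0,k81),(k6,k81),(k7,k81),(k2,
    k84),(k3,k84),(k4,k84),(k5,k84),(k9,k84)],[(k6,k75),(k9,k78),(k0,k81),(k7,k81),(k2,k84),(k3,k84),(k4,k84),(k5,
    k84)],[(k9,k72),(k0,k81),(k7,k81),(k2,k84),(k3,k84),(k4,k84),(k5,k84),(k6,k87)],[(k9,k69),(k0,k78),(k7,k78),(k2,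
    k81),(k3,k81),(k4,k81),(k5,k81),(k6,k84)],[(k0,k72),(k5,k75),(k9,k75),(k6,k78),(k2,k81),(k3,k81),(k7,k84),(k4,
    k87)],[(k7,k69),(k4,k72),(k9,k72),(k0,k75),(k6,k75),(k5,k78),(k2,k84),(k3,k84)],[(k8,k72),(k1,k75),(k11,k76),(k10,
    k92)],[(k1,k63),(k8,k76),(k10,k80),(k11,k80)],[(k1,k79),(k10,k80),(k11,k80),(k8,k92)]]
    [[k2,k0,k0,k1,k0,k0],[k1,k0,k1,k0,k1,k0],[k1,k0,k0,k1,k1,k0],[k2,k0,k0,k0,k0,k1],[k1,k0,k0,k0,k1,k1],[k0,k0,k1,k0,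
    k2,k0],[k0,k0,k0,k1,k2,k0]]
    [.ref k3 k0 [(z4,[z3,z1]),(z4,[y3,z1,z6]),(z2,[y3,z1,z0,z2]),(z2,[z3,y1]),(z1,[z0,z0,z0,z0,z1])],.ref k3 k0 [(z1,
    [y3,z1,z0,z1,z1]),(z2,[z6,y1,z3,y2,y2]),(z1,[z6,y1,z0,y1,y2]),(z1,[y6,z1,z0,z2,z2]),(z1,[z0,z0,z0,z0,z1])],
    .ref k3 k0 [(z3,[z3,z1,z0,z0,y1]),(z6,[y6,z1,z9,z0,z2]),(z3,[y6,z1,z0,z3,z2]),(z3,[z6,y1,z0,z0,y2]),(z1,[z0,z0,z0,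
    z0,z1])],.ref k3 k0 [(z4,[z6,z1,z3,z2,z2,y6]),(z4,[y6,z1,z3,y2,y2,z6]),(z2,[y6,z1,y3,z0,y2,z6]),(z2,[z6,y1,z3,z2,
    z2,y6]),(z1,[z0,z0,z0,z0,z1])],.ref k3 k0 [(z2,[z6,z1,z3,z2,z0,y6]),(z1,[y3,z0,z0,y1,z0,z3]),(z1,[y6,z0,y3,y1,z0,
    z6]),(z1,[z6,z0,z3,z2,z0,y6]),(z1,[z0,z0,z0,z0,z1])],.ref k3 k0 [(z2,[y3,z1,z0,z1,z2]),(z2,[z3,z0,z3,y1,y2]),(z1,
    [z3,z0,z0,z0,y2]),(z1,[y3,z0,z0,z1,z2]),(z1,[z0,z0,z0,z0,z1])],.ref k3 k0 [(z2,[z3,z1,z0,z0,y2]),(z2,[y3,z0,z3,z0,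
    z2]),(z1,[y3,z0,z0,z1,z2]),(z1,[z3,z0,z0,z0,y2]),(z1,[z0,z0,z0,z0,z1])]],
    .lp k0 [k74,k80,k92,k68,k86,k76] [k8,k10,k6,k6,k0,k0,k12,k12,k3,k3,k8,k8] k0 [[k0,k0,k0,k0,k12,k0,k0,k12,k0,k0,k0,
    k0],[k0,k0,k0,k0,k0,k0,k0,k0,k0,k0,k0,k0],[k0,k0,k0,k0,k0,k0,k0,k0,k0,k0,k0,k0],[k0,k0,k0,k0,k12,k0,k0,k12,k0,k0,
    k0,k0],[k0,k0,k0,k0,k0,k24,k24,k0,k0,k0,k0,k0],[k0,k12,k12,k0,k0,k0,k0,k0,k0,k0,k0,k0],[k0,k12,k12,k0,k0,k0,k0,k0,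
    k0,k0,k0,k0],[k0,k0,k0,k0,k0,k24,k24,k0,k0,k0,k0,k0],[k0,k0,k0,k0,k0,k0,k0,k0,k0,k0,k12,k16],[k0,k0,k0,k0,k0,k0,
    k0,k0,k0,k0,k0,k0],[k0,k0,k0,k0,k0,k0,k0,k0,k0,k16,k0,k0],[k0,k0,k0,k0,k0,k0,k0,k0,k0,k12,k0,k0]] (nat_lit 240) k5
    [[(k8,k67),(k1,k72),(k10,k74),(k11,k90)],[(k6,k60),(k7,k60),(k0,k76),(k2,k78),(k3,k78),(k9,k81),(k4,k84),(k5,
    k84)],[(k6,k74),(k7,k74),(k0,k78),(k2,k80),(k3,k80),(k5,k86),(k9,k95),(k4,k98)],[(k6,k74),(k7,k74),(k0,k78),(k2,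
    k80),(k3,k80),(k5,k86),(k9,k95),(k4,k98)],[(k6,k68),(k7,k68),(k0,k84),(k2,k86),(k3,k86),(k9,k89),(k4,k92),(k5,
    k92)],[(k9,k65),(k4,k68),(k6,k80),(k7,k80),(k0,k84),(k5,k92),(k2,k98),(k3,k98)],[(k0,k60),(k5,k68),(k2,k74),(k3,
    k74),(k9,k77),(k4,k80),(k6,k92),(k7,k92)],[(k0,k60),(k5,k68),(k2,k74),(k3,k74),(k9,k77),(k4,k80),(k6,k92),(k7,
    k92)],[(k9,k62),(k4,k65),(k6,k77),(k7,k77),(k0,k81),(k5,k89),(k2,k95),(k3,k95)],[(k10,k65),(k1,k67),(k11,k81),(k8,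
    k86)],[(k11,k76),(k8,k81),(k10,k88),(k1,k90)],[(k8,k65),(k1,k74),(k10,k76),(k11,k88)]]
    [[k2,k1,k0,k0,k0,k0],[k2,k0,k0,k1,k0,k0],[k1,k0,k1,k0,k1,k0],[k1,k0,k0,k1,k1,k0],[k1,k0,k0,k0,k1,k1],[k0,k2,k0,k1,
    k0,k0],[k0,k0,k2,k1,k0,k0],[k0,k0,k0,k0,k2,k1]]
    [.ref k14 k1 [(z6,[y6,z1,z1]),(z1,[z0,y1]),(z3,[z0,z1,z0,z1]),(z1,[z1])],.ref k15 k0 [(z4,[z3,z1]),(z4,[y3,z1,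
    z2]),(z2,[y3,z1,z0,z2]),(z2,[z3,y1])],.ref k14 k1 [(z3,[z3,y1,z0,y1]),(z1,[z0,y1]),(z3,[z0,z1,z0,z1]),(z6,[y6,z3,
    z1,z2])],.ref k16 k0 [(z1,[z3,z1]),(z2,[y6,z1,z3]),(z1,[y6,z1,z0,z3]),(z1,[z6,y1])],.ref k17 k1 [(z2,[z6,z1,z1,z2,
    y6]),(z1,[z0,y1]),(z3,[z0,z1,z0,z1]),(z1,[y3,z0,z0,y1,z3])],.ref k18 k0 [(z1,[z0,z1]),(z1,[z1]),(z1,[z0,z0,z0,
    z1]),(z2,[y3,z0,z1])],.ref k15 k0 [(z2,[y3,z1,z0,z2]),(z2,[z3,z0,z1,y2]),(z1,[z3,z0,z0,y1]),(z1,[y3,z0,z0,z2])],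
    .ref k18 k0 [(z1,[z0,z1]),(z6,[y6,y1,z1,y2,z6]),(z1,[z0,z0,z0,z1]),(z4,[z6,z1,z1,z2,y6])]],
    .base (.leafM k0 [k0,k1,k2,k3,k4,k5] [(z3,[z0,z1,z1])] []),
    .base (.leafM k2 [k0,k1,k2,k3,k4,k5] [(z1,[z0,z1]),(z1,[z0,z0,z0,z1]),(z1,[y3,y1,y3,y1,z3])] []),
    .lp k0 [k146,k152,k176,k164,k158,k160] [k15,k15,k12,k12,k0,k0,k6,k6,k9,k9,k8,k8] k0 [[k0,k0,k0,k0,k12,k0,k0,k24,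
    k0,k0,k0,k0],[k0,k0,k0,k12,k0,k0,k0,k0,k0,k0,k0,k0],[k12,k0,k0,k0,k0,k0,k0,k0,k0,k0,k0,k0],[k0,k0,k0,k0,k12,k0,k0,
    k24,k0,k0,k0,k0],[k0,k0,k0,k0,k0,k0,k0,k0,k0,k0,k0,k0],[k0,k12,k12,k0,k0,k0,k0,k0,k0,k0,k0,k0],[k0,k24,k24,k0,k0,
    k0,k0,k0,k0,k0,k0,k0],[k0,k0,k0,k0,k0,k0,k0,k0,k0,k0,k0,k0],[k0,k0,k0,k0,k0,k0,k0,k0,k0,k0,k0,k28],[k0,k0,k0,k0,
    k0,k0,k0,k0,k0,k0,k0,k0],[k0,k0,k0,k0,k0,k0,k0,k0,k0,k28,k0,k0],[k0,k0,k0,k0,k0,k0,k0,k0,k0,k0,k0,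
    k0]] (nat_lit 480) k5
    [[(k1,k146),(k8,k152),(k10,k153),(k11,k181)],[(k6,k131),(k7,k143),(k0,k146),(k2,k149),(k3,k149),(k9,k152),(k4,
    k161),(k5,k173)],[(k2,k140),(k0,k149),(k3,k152),(k6,k158),(k7,k158),(k5,k164),(k4,k176),(k9,k179)],[(k3,k140),(k0,
    k149),(k2,k152),(k6,k158),(k7,k158),(k5,k164),(k4,k176),(k9,k179)],[(k6,k146),(k7,k158),(k2,k164),(k3,k164),(k9,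
    k167),(k0,k173),(k4,k176),(k5,k176)],[(k0,k161),(k9,k167),(k6,k170),(k7,k170),(k2,k176),(k3,k176),(k4,k176),(k5,
    k176)],[(k0,k143),(k2,k158),(k3,k158),(k5,k158),(k9,k161),(k6,k164),(k7,k164),(k4,k170)],[(k0,k131),(k5,k146),(k2,
    k158),(k3,k158),(k9,k161),(k6,k164),(k7,k164),(k4,k170)],[(k0,k152),(k9,k158),(k6,k161),(k7,k161),(k4,k167),(k5,
    k167),(k2,k179),(k3,k179)],[(k10,k131),(k1,k152),(k8,k158),(k11,k159)],[(k8,k159),(k10,k160),(k11,k160),(k1,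
    k181)],[(k8,k131),(k1,k153),(k10,k160),(k11,k160)]]
    [[k2,k1,k0,k0,k0,k0],[k2,k0,k0,k1,k0,k0],[k1,k0,k0,k1,k1,k0],[k1,k0,k0,k0,k1,k1],[k0,k3,k0,k0,k0,k0],[k0,k2,k0,k1,
    k0,k0],[k0,k0,k0,k0,k2,k1]]
    [.ref k3 k0 [(z1,[z1,z1,y1]),(z1,[z1,y2,z2]),(z1,[y2,z4,z2,z3]),(z1,[y1,z2,z1,z0,z1]),(z1,[z1,y2,y1])],
    .ref k3 k0 [(z1,[z3,y3,z0,z0,y1]),(z1,[z3,y6,z3,z0,y1]),(z1,[y6,z12,z0,z3,z2]),(z1,[y3,z6,z0,z0,z2]),(z1,[z3,y6,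
    z0,z0,y1])],.ref k3 k0 [(z1,[z3,z0,z0,z0,y1]),(z1,[z3,y3,z3,z0,y1]),(z1,[y6,z6,z0,z3,z2]),(z1,[y3,z3,z0,z0,z2]),
    (z1,[z3,y3,z0,z0,y1])],.ref k3 k0 [(z2,[z3,z6,z3,z3,z1,y3]),(z2,[z3,z0,z9,z3,z1,y3]),(z1,[y3,z0,y3,z0,y1,z3]),(z2,
    [y3,z0,y3,y3,z1,z3]),(z2,[z3,z0,z3,z3,z1,y3])],.ref k3 k0 [(z1,[z1,z3,y3]),(z1,[z1]),(z1,[y2,z0,z6,z3]),(z1,[y1,
    z0,z3,z0,z1]),(z1,[z1,z0,y3])],.ref k3 k0 [(z1,[z3,z3,y6,z0,y1]),(z1,[z3,z0,y3,z0,y1]),(z1,[y6,z0,z12,z3,z2]),(z1,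
    [y3,z0,z6,z0,z2]),(z1,[z3,z0,y6,z0,y1])],.ref k3 k0 [(z2,[z3,z9,z3,z3,z1,y3]),(z2,[z3,z3,z9,z3,z1,y3]),(z1,[y3,y3,
    y3,z0,y1,z3]),(z2,[y3,y3,y3,y3,z1,z3]),(z2,[z3,z3,z3,z3,z1,y3])]],
    .lp k0 [k76,k76,k82,k82,k82,k80] [k3,k3,k3,k3,k0,k0,k0,k0,k0,k0,k1,k1] k0 [[k0,k0,k0,k0,k0,k0,k0,k0,k0,k0,k0,k0],
    [k4,k0,k0,k6,k0,k0,k0,k0,k0,k0,k0,k0],[k6,k0,k0,k0,k0,k0,k0,k0,k0,k0,k0,k0],[k0,k0,k0,k0,k0,k0,k0,k0,k0,k0,k0,k0],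
    [k0,k0,k0,k0,k0,k0,k0,k0,k0,k0,k0,k0],[k0,k0,k0,k0,k0,k0,k0,k0,k0,k0,k0,k0],[k0,k0,k0,k0,k0,k0,k0,k0,k0,k0,k0,k0],
    [k0,k0,k0,k0,k0,k0,k0,k0,k0,k0,k0,k0],[k0,k0,k0,k0,k0,k0,k0,k0,k0,k0,k0,k4],[k0,k0,k0,k0,k0,k0,k0,k0,k0,k0,k0,k0],
    [k0,k0,k0,k0,k0,k0,k0,k0,k0,k4,k0,k0],[k0,k0,k0,k0,k0,k0,k0,k0,k0,k0,k0,k0]] (nat_lit 240) k5
    [[(k1,k76),(k10,k78),(k8,k79),(k11,k82)],[(k2,k76),(k3,k76),(k4,k79),(k6,k79),(k7,k79),(k9,k79),(k0,k80),(k5,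
    k85)],[(k2,k70),(k3,k72),(k0,k76),(k4,k79),(k5,k79),(k6,k79),(k7,k79),(k9,k79)],[(k3,k70),(k0,k76),(k2,k76),(k4,
    k79),(k5,k79),(k6,k79),(k7,k79),(k9,k79)],[(k2,k79),(k3,k79),(k4,k82),(k5,k82),(k6,k82),(k7,k82),(k9,k82),(k0,
    k85)],[(k0,k79),(k2,k79),(k3,k79),(k4,k82),(k5,k82),(k6,k82),(k7,k82),(k9,k82)],[(k0,k79),(k2,k79),(k3,k79),(k4,
    k82),(k5,k82),(k6,k82),(k7,k82),(k9,k82)],[(k0,k79),(k2,k79),(k3,k79),(k4,k82),(k5,k82),(k6,k82),(k7,k82),(k9,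
    k82)],[(k0,k79),(k2,k79),(k3,k79),(k4,k82),(k5,k82),(k6,k82),(k7,k82),(k9,k82)],[(k10,k77),(k1,k79),(k11,k81),(k8,
    k82)],[(k10,k80),(k11,k80),(k8,k81),(k1,k82)],[(k8,k77),(k1,k78),(k10,k80),(k11,k80)]]
    [[k2,k1,k0,k0,k0,k0],[k2,k0,k0,k1,k0,k0],[k1,k1,k0,k0,k1,k0],[k1,k0,k0,k0,k1,k1],[k0,k3,k0,k0,k0,k0],[k0,k2,k1,k0,
    k0,k0],[k0,k2,k0,k1,k0,k0]]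
    [.ref k14 k1 [(z1,[z0,y1]),(z1,[y3,z0,z1]),(z1,[z0,z2,z0,z1]),(z1,[z1])],.ref k14 k0 [(z1,[z0,z1]),(z1,[y3,z6,
    z1]),(z1,[z0,z0,z0,z1]),(z1,[z1,y2])],.ref k14 k1 [(z1,[z0,y1]),(z1,[y3,y3,z1]),(z1,[z0,z2,z0,z1]),(z1,[z1,z1])],
    .ref k20 k0 [(z2,[z3,z6,z1,z3,y3]),(z1,[z0,z0,z1]),(z1,[y3,z0,y1,z0,z3]),(z2,[z3,z0,z1,z3,y3])],.ref k21 k0 [(z1,
    [z0,z1]),(z1,[z1]),(z1,[z0,z0,z0,z1]),(z1,[y1,z0,z1])],.ref k22 k0 [(z1,[z0,z1]),(z2,[z1,z0,z0,y1]),(z1,[z0,z0,z0,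
    z1]),(z2,[y3,z0,z2,z3])],.ref k21 k0 [(z1,[z0,z1]),(z1,[z3,z0,y1]),(z1,[z0,z0,z0,z1]),(z1,[y3,z0,z2])]]]

theorem hB6_104_1 : blkB [0, 0, 0, 0, 1, 1] [] sp6 hS6_104 (pcls (n := 6) [0, 0, 0, 0, 1, 1]) hD6_104 181 1 hN6_104_1 = true := by
  decide +kernel

/-- nodes 24 to 35 -/
noncomputable def hN6_104_2 : List HM :=
  [.base (.leafM k0 [k0,k1,k2,k3,k4,k5] [(z1,[z0,z1,z1])] []),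
    .base (.leafM k0 [k0,k1,k2,k3,k4,k5] [(z3,[z0,z1,z3,z1])] []),
    .lp k0 [k16,k16,k16,k16,k14,k16] [k2,k0,k1,k1,k1,k1,k1,k1,k2,k2,k1,k1] k0 [[k0,k0,k0,k0,k0,k0,k0,k0,k0,k0,k0,k0],
    [k0,k0,k0,k0,k0,k0,k0,k0,k0,k0,k0,k0],[k0,k0,k0,k0,k0,k0,k0,k0,k0,k0,k0,k0],[k0,k0,k0,k0,k0,k0,k0,k0,k0,k0,k0,k0],
    [k0,k0,k0,k0,k0,k0,k0,k0,k0,k0,k0,k0],[k0,k0,k0,k0,k0,k0,k0,k0,k0,k0,k0,k0],[k0,k0,k0,k0,k0,k0,k0,k0,k0,k0,k0,k0],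
    [k0,k0,k0,k0,k0,k0,k0,k0,k0,k0,k0,k0],[k0,k0,k0,k0,k0,k0,k0,k0,k0,k0,k4,k0],[k0,k0,k0,k0,k0,k0,k0,k0,k4,k0,k0,k0],
    [k0,k0,k0,k0,k0,k0,k0,k0,k0,k0,k0,k0],[k0,k0,k0,k0,k0,k0,k0,k0,k0,k4,k0,k0]] k48 k5
    [[(k8,k12),(k10,k17),(k11,k17),(k1,k18)],[(k0,k14),(k9,k14),(k2,k15),(k3,k15),(k4,k15),(k5,k15),(k6,k15),(k7,
    k15)],[(k0,k15),(k9,k15),(k2,k16),(k3,k16),(k4,k16),(k5,k16),(k6,k16),(k7,k16)],[(k0,k15),(k9,k15),(k2,k16),(k3,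
    k16),(k4,k16),(k5,k16),(k6,k16),(k7,k16)],[(k0,k15),(k9,k15),(k2,k16),(k3,k16),(k4,k16),(k5,k16),(k6,k16),(k7,
    k16)],[(k0,k15),(k9,k15),(k2,k16),(k3,k16),(k4,k16),(k5,k16),(k6,k16),(k7,k16)],[(k0,k15),(k9,k15),(k2,k16),(k3,
    k16),(k4,k16),(k5,k16),(k6,k16),(k7,k16)],[(k0,k15),(k9,k15),(k2,k16),(k3,k16),(k4,k16),(k5,k16),(k6,k16),(k7,
    k16)],[(k0,k14),(k9,k14),(k2,k15),(k3,k15),(k4,k15),(k5,k15),(k6,k15),(k7,k15)],[(k1,k12),(k10,k15),(k11,k15),(k8,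
    k18)],[(k11,k12),(k8,k15),(k1,k17),(k10,k20)],[(k8,k15),(k10,k16),(k1,k17),(k11,k20)]]
    [[k1,k1,k0,k0,k1,k0],[k1,k0,k1,k0,k1,k0],[k1,k0,k0,k1,k1,k0],[k1,k0,k0,k0,k1,k1],[k0,k0,k0,k0,k2,k1]]
    [.ref k3 k0 [(z1,[z1,z1,y1]),(z1,[z4,y2,y1]),(z1,[y2,z1,z2,z3]),(z2,[y2,z1,z2,z0,z1]),(z1,[y2,z1,z2])],
    .ref k3 k0 [(z1,[y1,z2,z0,z1]),(z1,[y4,z2,z3,z4]),(z1,[z2,y1,z0,z1]),(z2,[z2,y1,z0,y2,z1]),(z1,[z2,y1,z0,y2])],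
    .ref k3 k0 [(z4,[y6,z9,z0,z0,z1]),(z1,[y6,z3,z3,z0,z1]),(z2,[z6,y3,z0,z6,y1]),(z4,[z6,y3,z0,z0,z1]),(z2,[z6,y3,z0,
    z0,y1])],.ref k3 k0 [(z2,[y6,z3,y6,y6,y1,z6]),(z1,[y12,z0,y9,y12,y2,z12]),(z1,[z6,z0,z6,z9,z1,y6]),(z1,[z3,z0,z3,
    z3,z1,y3]),(z1,[z6,z0,z6,z6,z1,y6])],.ref k3 k0 [(z8,[y6,z9,y6,y6,y1,z6]),(z2,[y6,y3,z0,y6,y1,z6]),(z4,[z6,z3,z6,
    z18,z1,y6]),(z8,[z6,z3,z6,z6,z5,y6]),(z4,[z6,z3,z6,z6,z1,y6])]],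
    .lp k0 [k16,k16,k16,k16,k14,k16] [k2,k0,k1,k1,k1,k1,k1,k1,k2,k2,k1,k1] k0 [[k0,k0,k0,k0,k0,k0,k0,k0,k0,k0,k0,k0],
    [k0,k0,k0,k0,k0,k0,k0,k0,k0,k0,k0,k0],[k0,k0,k0,k0,k0,k0,k0,k0,k0,k0,k0,k0],[k0,k0,k0,k0,k0,k0,k0,k0,k0,k0,k0,k0],
    [k0,k0,k0,k0,k0,k0,k0,k0,k0,k0,k0,k0],[k0,k0,k0,k0,k0,k0,k0,k0,k0,k0,k0,k0],[k0,k0,k0,k0,k0,k0,k0,k0,k0,k0,k0,k0],
    [k0,k0,k0,k0,k0,k0,k0,k0,k0,k0,k0,k0],[k0,k0,k0,k0,k0,k0,k0,k0,k0,k0,k4,k0],[k0,k0,k0,k0,k0,k0,k0,k0,k4,k0,k0,k0],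
    [k0,k0,k0,k0,k0,k0,k0,k0,k0,k0,k0,k0],[k0,k0,k0,k0,k0,k0,k0,k0,k0,k4,k0,k0]] k48 k5
    [[(k8,k12),(k10,k17),(k11,k17),(k1,k18)],[(k0,k14),(k9,k14),(k2,k15),(k3,k15),(k4,k15),(k5,k15),(k6,k15),(k7,
    k15)],[(k0,k15),(k9,k15),(k2,k16),(k3,k16),(k4,k16),(k5,k16),(k6,k16),(k7,k16)],[(k0,k15),(k9,k15),(k2,k16),(k3,
    k16),(k4,k16),(k5,k16),(k6,k16),(k7,k16)],[(k0,k15),(k9,k15),(k2,k16),(k3,k16),(k4,k16),(k5,k16),(k6,k16),(k7,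
    k16)],[(k0,k15),(k9,k15),(k2,k16),(k3,k16),(k4,k16),(k5,k16),(k6,k16),(k7,k16)],[(k0,k15),(k9,k15),(k2,k16),(k3,
    k16),(k4,k16),(k5,k16),(k6,k16),(k7,k16)],[(k0,k15),(k9,k15),(k2,k16),(k3,k16),(k4,k16),(k5,k16),(k6,k16),(k7,
    k16)],[(k0,k14),(k9,k14),(k2,k15),(k3,k15),(k4,k15),(k5,k15),(k6,k15),(k7,k15)],[(k1,k12),(k10,k15),(k11,k15),(k8,
    k18)],[(k11,k12),(k8,k15),(k1,k17),(k10,k20)],[(k8,k15),(k10,k16),(k1,k17),(k11,k20)]]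
    [[k1,k1,k0,k0,k1,k0],[k1,k0,k1,k0,k1,k0],[k1,k0,k0,k1,k1,k0],[k1,k0,k0,k0,k1,k1],[k0,k0,k0,k0,k2,k1]]
    [.ref k3 k0 [(z1,[z0,z1]),(z1,[z6,y2,y3]),(z1,[z0,z0,z0,z1]),(z1,[y3,z1,z3,z0,z3]),(z1,[y3,z1,z3])],
    .ref k3 k0 [(z1,[z0,z1]),(z1,[y6,z2,z3,z2]),(z1,[z0,z0,z0,z1]),(z1,[z3,y1,z0,y1,z3]),(z1,[z3,y1,z0,y1])],
    .ref k3 k0 [(z1,[z0,z1]),(z1,[y3,z1,z3,z0,z3]),(z1,[z0,z0,z0,z1]),(z2,[z3,y1,z0,z0,z3]),(z2,[z3,y1,z0,z0,y3])],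
    .ref k3 k0 [(z1,[z0,z1]),(z1,[y6,z0,y3,y2,y6,z6]),(z1,[z0,z0,z0,z1]),(z1,[z3,z0,z3,z1,z6,y3]),(z1,[z3,z0,z3,z1,z3,
    y3])],.ref k3 k0 [(z1,[z0,z1]),(z1,[y3,y1,z0,y1,y3,z3]),(z1,[z0,z0,z0,z1]),(z2,[z3,z1,z3,z1,z9,y3]),(z2,[z3,z1,z3,
    z1,z3,y3])]],
    .lp k0 [k74,k78,k84,k84,k76,k80] [k5,k5,k3,k3,k0,k0,k0,k0,k4,k4,k2,k2] k0 [[k0,k0,k6,k6,k0,k0,k0,k0,k0,k0,k0,k0],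
    [k0,k0,k0,k0,k0,k6,k2,k0,k0,k0,k0,k0],[k0,k6,k0,k0,k0,k0,k0,k0,k0,k0,k0,k0],[k0,k6,k0,k0,k0,k0,k0,k0,k0,k0,k0,k0],
    [k6,k0,k0,k0,k0,k0,k0,k4,k0,k0,k0,k0],[k0,k0,k0,k0,k0,k0,k0,k4,k0,k0,k0,k0],[k0,k0,k0,k0,k4,k4,k0,k0,k0,k0,k0,k0],
    [k2,k0,k0,k0,k0,k0,k0,k0,k0,k0,k0,k0],[k0,k0,k0,k0,k0,k0,k0,k0,k0,k0,k0,k12],[k0,k0,k0,k0,k0,k0,k0,k0,k0,k0,k0,
    k0],[k0,k0,k0,k0,k0,k0,k0,k0,k0,k12,k0,k0],[k0,k0,k0,k0,k0,k0,k0,k0,k0,k0,k0,k0]] (nat_lit 240) k5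
    [[(k1,k74),(k8,k75),(k10,k77),(k11,k89)],[(k2,k70),(k5,k73),(k0,k74),(k9,k75),(k3,k76),(k4,k79),(k6,k81),(k7,
    k85)],[(k4,k75),(k9,k75),(k0,k76),(k3,k78),(k6,k81),(k7,k81),(k2,k84),(k5,k87)],[(k0,k70),(k9,k77),(k2,k78),(k4,
    k81),(k5,k81),(k6,k81),(k7,k81),(k3,k84)],[(k0,k73),(k9,k80),(k2,k81),(k4,k84),(k5,k84),(k6,k84),(k7,k84),(k3,
    k87)],[(k3,k75),(k0,k79),(k6,k80),(k2,k81),(k4,k84),(k5,k84),(k7,k84),(k9,k84)],[(k6,k80),(k2,k81),(k3,k81),(k4,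
    k84),(k5,k84),(k7,k84),(k9,k84),(k0,k85)],[(k4,k80),(k7,k80),(k9,k80),(k0,k81),(k2,k81),(k3,k81),(k5,k84),(k6,
    k84)],[(k0,k75),(k3,k75),(k9,k76),(k2,k77),(k5,k80),(k6,k80),(k4,k84),(k7,k84)],[(k10,k66),(k1,k75),(k8,k76),(k11,
    k78)],[(k8,k78),(k10,k80),(k11,k80),(k1,k89)],[(k8,k66),(k1,k77),(k10,k80),(k11,k80)]]
    [[k2,k1,k0,k0,k0,k0],[k2,k0,k1,k0,k0,k0],[k1,k1,k0,k0,k1,k0],[k1,k0,k1,k0,k1,k0],[k1,k0,k0,k0,k1,k1],[k0,k1,k0,k0,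
    k2,k0],[k0,k0,k0,k0,k2,k1]]
    [.ref k3 k0 [(z10,[z9,z4,y9]),(z5,[z6,y4,z9]),(z5,[y3,z2,z3,z15]),(z5,[y9,z6,z9,z0,z5]),(z10,[z3,y2,y3])],
    .ref k3 k0 [(z4,[z9,y2,z0,y9]),(z1,[z3,y2,z3,y3]),(z2,[y3,z2,z0,z9]),(z2,[y9,z6,z0,z9,z2]),(z4,[z3,y2,z0,y3])],
    .ref k3 k0 [(z8,[z9,z5,y9]),(z2,[z3,y1,z3]),(z4,[y3,z1,z3,z12]),(z4,[y9,z3,z9,z0,z4]),(z8,[z3,y1,y3])],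
    .ref k3 k0 [(z2,[z9,y1,z0,y9]),(z1,[z6,y2,z3,y6]),(z1,[y3,z1,z0,z6]),(z1,[y9,z3,z0,z9,z1]),(z2,[z3,y1,z0,y3])],
    .ref k3 k0 [(z4,[z9,z4,z9,z9,z3,y9]),(z1,[z3,z0,z6,z3,z1,y3]),(z2,[y3,z0,y3,z3,y1,z3]),(z2,[y9,z0,y9,y9,y1,z9]),
    (z4,[z3,z0,z3,z3,z1,y3])],.ref k3 k0 [(z2,[z3,z2,y3]),(z1,[z2,z0,z1]),(z1,[y1,z0,z1,z3]),(z1,[y3,z0,z3,z0,z1]),
    (z2,[z1,z0,y1])],.ref k3 k0 [(z2,[z9,z5,z9,z9,z3,y9]),(z1,[z6,z2,z9,z6,z2,y6]),(z1,[y3,y1,y3,z0,y1,z3]),(z1,[y9,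
    y3,y9,y9,y2,z9]),(z2,[z3,z1,z3,z3,z1,y3])]],
    .lp k0 [k16,k16,k16,k16,k14,k16] [k2,k0,k1,k1,k1,k1,k1,k1,k2,k2,k1,k1] k0 [[k0,k0,k0,k0,k0,k0,k0,k0,k0,k0,k0,k0],
    [k0,k0,k0,k0,k0,k0,k0,k0,k0,k0,k0,k0],[k0,k0,k0,k0,k0,k0,k0,k0,k0,k0,k0,k0],[k0,k0,k0,k0,k0,k0,k0,k0,k0,k0,k0,k0],
    [k0,k0,k0,k0,k0,k0,k0,k0,k0,k0,k0,k0],[k0,k0,k0,k0,k0,k0,k0,k0,k0,k0,k0,k0],[k0,k0,k0,k0,k0,k0,k0,k0,k0,k0,k0,k0],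
    [k0,k0,k0,k0,k0,k0,k0,k0,k0,k0,k0,k0],[k0,k0,k0,k0,k0,k0,k0,k0,k0,k0,k4,k0],[k0,k0,k0,k0,k0,k0,k0,k0,k4,k0,k0,k0],
    [k0,k0,k0,k0,k0,k0,k0,k0,k0,k0,k0,k0],[k0,k0,k0,k0,k0,k0,k0,k0,k0,k4,k0,k0]] k48 k5
    [[(k8,k12),(k10,k17),(k11,k17),(k1,k18)],[(k0,k14),(k9,k14),(k2,k15),(k3,k15),(k4,k15),(k5,k15),(k6,k15),(k7,
    k15)],[(k0,k15),(k9,k15),(k2,k16),(k3,k16),(k4,k16),(k5,k16),(k6,k16),(k7,k16)],[(k0,k15),(k9,k15),(k2,k16),(k3,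
    k16),(k4,k16),(k5,k16),(k6,k16),(k7,k16)],[(k0,k15),(k9,k15),(k2,k16),(k3,k16),(k4,k16),(k5,k16),(k6,k16),(k7,
    k16)],[(k0,k15),(k9,k15),(k2,k16),(k3,k16),(k4,k16),(k5,k16),(k6,k16),(k7,k16)],[(k0,k15),(k9,k15),(k2,k16),(k3,
    k16),(k4,k16),(k5,k16),(k6,k16),(k7,k16)],[(k0,k15),(k9,k15),(k2,k16),(k3,k16),(k4,k16),(k5,k16),(k6,k16),(k7,
    k16)],[(k0,k14),(k9,k14),(k2,k15),(k3,k15),(k4,k15),(k5,k15),(k6,k15),(k7,k15)],[(k1,k12),(k10,k15),(k11,k15),(k8,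
    k18)],[(k11,k12),(k8,k15),(k1,k17),(k10,k20)],[(k8,k15),(k10,k16),(k1,k17),(k11,k20)]]
    [[k1,k1,k0,k0,k1,k0],[k1,k0,k1,k0,k1,k0],[k1,k0,k0,k1,k1,k0],[k1,k0,k0,k0,k1,k1],[k0,k0,k0,k0,k2,k1]]
    [.ref k3 k0 [(z12,[y9,z5,z1]),(z6,[z9,y1,z1]),(z2,[y9,z1,z1,z6]),(z6,[z9,y1,y1,z0,z2]),(z4,[z9,y1,y1])],
    .ref k3 k0 [(z4,[z3,z1,z0,y3]),(z6,[y9,z1,z2,z9]),(z2,[z9,y1,z0,y3]),(z6,[y9,z1,z0,z9,z2]),(z4,[y9,z1,z0,z9])],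
    .ref k3 k0 [(z12,[y9,z5,z0,z0,z1]),(z6,[z9,y1,z2,z0,y1]),(z2,[y9,z1,z0,z6,z1]),(z6,[z9,y1,z0,z0,z1]),(z4,[z9,y1,
    z0,z0,y1])],.ref k3 k0 [(z6,[y9,z2,y1,y9,y1,z9]),(z3,[z9,z0,z2,z9,z1,y9]),(z1,[y9,z0,y1,y6,y1,z9]),(z3,[z9,z0,z1,
    z9,z2,y9]),(z2,[z9,z0,z1,z9,z1,y9])],.ref k3 k0 [(z18,[y9,z5,y1,y9,y1,z9]),(z9,[z9,z1,z4,z9,z1,y9]),(z3,[y9,y1,y1,
    z0,y1,z9]),(z9,[z9,z1,z1,z9,z4,y9]),(z6,[z9,z1,z1,z9,z1,y9])]],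
    .lp k0 [k7,k8,k8,k8,k8,k8] [k1,k0,k0,k0,k0,k0,k0,k0,k0,k0,k0,k0] k0 [[k0,k0,k0,k0,k0,k0,k0,k0,k0,k0,k0,k0],[k0,k0,
    k0,k0,k0,k0,k0,k0,k0,k0,k0,k0],[k0,k0,k0,k0,k0,k0,k0,k0,k0,k0,k0,k0],[k0,k0,k0,k0,k0,k0,k0,k0,k0,k0,k0,k0],[k0,k0,
    k0,k0,k0,k0,k0,k0,k0,k0,k0,k0],[k0,k0,k0,k0,k0,k0,k0,k0,k0,k0,k0,k0],[k0,k0,k0,k0,k0,k0,k0,k0,k0,k0,k0,k0],[k0,k0,
    k0,k0,k0,k0,k0,k0,k0,k0,k0,k0],[k0,k0,k0,k0,k0,k0,k0,k0,k0,k0,k2,k0],[k0,k0,k0,k0,k0,k0,k0,k0,k0,k0,k0,k0],[k0,k0,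
    k0,k0,k0,k0,k0,k0,k0,k0,k0,k2],[k0,k0,k0,k0,k0,k0,k0,k0,k0,k2,k0,k0]] k24 k5
    [[(k8,k6),(k10,k8),(k11,k8),(k1,k10)],[(k0,k6),(k2,k7),(k3,k7),(k4,k7),(k5,k7),(k6,k7),(k7,k7),(k9,k7)],[(k0,k7),
    (k2,k8),(k3,k8),(k4,k8),(k5,k8),(k6,k8),(k7,k8),(k9,k8)],[(k0,k7),(k2,k8),(k3,k8),(k4,k8),(k5,k8),(k6,k8),(k7,k8),
    (k9,k8)],[(k0,k7),(k2,k8),(k3,k8),(k4,k8),(k5,k8),(k6,k8),(k7,k8),(k9,k8)],[(k0,k7),(k2,k8),(k3,k8),(k4,k8),(k5,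
    k8),(k6,k8),(k7,k8),(k9,k8)],[(k0,k7),(k2,k8),(k3,k8),(k4,k8),(k5,k8),(k6,k8),(k7,k8),(k9,k8)],[(k0,k7),(k2,k8),
    (k3,k8),(k4,k8),(k5,k8),(k6,k8),(k7,k8),(k9,k8)],[(k0,k7),(k2,k8),(k3,k8),(k4,k8),(k5,k8),(k6,k8),(k7,k8),(k9,
    k8)],[(k1,k6),(k8,k8),(k10,k8),(k11,k8)],[(k1,k8),(k8,k8),(k11,k8),(k10,k10)],[(k10,k6),(k1,k8),(k8,k8),(k11,
    k10)]]
    [[k1,k1,k0,k0,k1,k0],[k1,k0,k1,k0,k1,k0],[k1,k0,k0,k1,k1,k0],[k2,k0,k0,k0,k0,k1],[k1,k0,k0,k0,k1,k1]]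
    [.ref k3 k0 [(z1,[z3,z0,y1,z0,y1]),(z1,[z0,z0,z1]),(z1,[y6,z6,z2,z3,z2]),(z1,[z3,y3,y1,z0,y1]),(z1,[z0,z0,z0,z0,
    z1])],.ref k3 k0 [(z1,[y3,z6,z0,z3,z1]),(z1,[z0,z0,z1]),(z1,[z6,y6,z0,y3,y2]),(z1,[y3,z3,z0,z3,z1]),(z1,[z0,z0,z0,
    z0,z1])],.ref k3 k0 [(z2,[z3,z3,z0,z0,y1]),(z1,[z0,z0,z1]),(z1,[y3,z3,z0,z3,z1]),(z2,[z3,y3,z0,z0,y1]),(z1,[z0,z0,
    z0,z0,z1])],.ref k3 k0 [(z2,[z3,z3,z1,z3,z1,y3]),(z1,[z0,z0,z1]),(z1,[y3,z3,y1,z0,y1,z3]),(z2,[z3,y3,z1,z3,z1,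
    y3]),(z1,[z0,z0,z0,z0,z1])],.ref k3 k0 [(z1,[z3,z3,z1,z3,z0,y3]),(z1,[z0,z0,z1]),(z1,[y6,z0,y2,y3,z0,z6]),(z1,[z3,
    z0,z1,z3,z0,y3]),(z1,[z0,z0,z0,z0,z1])]],
    .lp k0 [k160,k186,k128,k176,k146,k160] [k13,k13,k0,k0,k29,k29,k5,k5,k20,k20,k13,k13] k0 [[k0,k0,k0,k2,k2,k0,k0,k2,
    k0,k0,k0,k0],[k0,k0,k0,k22,k10,k0,k0,k0,k0,k0,k0,k0],[k22,k2,k0,k0,k0,k0,k0,k0,k0,k0,k0,k0],[k0,k0,k0,k0,k0,k0,k0,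
    k0,k0,k0,k0,k0],[k0,k0,k0,k0,k0,k0,k0,k0,k0,k0,k0,k0],[k10,k2,k0,k0,k0,k0,k0,k0,k0,k0,k0,k0],[k0,k2,k0,k0,k0,k0,
    k0,k0,k0,k0,k0,k0],[k0,k0,k0,k0,k0,k0,k0,k0,k0,k0,k0,k0],[k0,k0,k0,k0,k0,k0,k0,k0,k0,k0,k0,k0],[k0,k0,k0,k0,k0,k0,
    k0,k0,k0,k0,k0,k0],[k0,k0,k0,k0,k0,k0,k0,k0,k0,k0,k0,k0],[k0,k0,k0,k0,k0,k0,k0,k0,k0,k0,k0,k0]] (nat_lit 480) k5
    [[(k8,k153),(k1,k160),(k10,k160),(k11,k160)],[(k9,k153),(k4,k154),(k0,k160),(k5,k166),(k6,k166),(k7,k166),(k2,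
    k171),(k3,k173)],[(k4,k159),(k5,k159),(k2,k164),(k9,k168),(k7,k171),(k0,k173),(k6,k181),(k3,k186)],[(k4,k157),(k5,
    k157),(k3,k164),(k9,k166),(k0,k171),(k6,k181),(k7,k181),(k2,k186)],[(k4,k128),(k5,k128),(k9,k137),(k6,k152),(k7,
    k152),(k2,k157),(k3,k159),(k0,k166)],[(k4,k128),(k5,k128),(k9,k137),(k6,k152),(k7,k152),(k0,k154),(k2,k157),(k3,
    k159)],[(k4,k152),(k5,k152),(k9,k161),(k0,k166),(k3,k171),(k6,k176),(k7,k176),(k2,k181)],[(k4,k152),(k5,k152),(k9,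
    k161),(k0,k166),(k6,k176),(k7,k176),(k2,k181),(k3,k181)],[(k4,k137),(k5,k137),(k9,k146),(k0,k153),(k6,k161),(k7,
    k161),(k2,k166),(k3,k168)],[(k8,k146),(k1,k153),(k10,k153),(k11,k153)],[(k8,k153),(k1,k160),(k10,k160),(k11,
    k160)],[(k8,k153),(k1,k160),(k10,k160),(k11,k160)]]
    [[k1,k0,k1,k0,k1,k0],[k1,k0,k0,k0,k1,k1],[k0,k1,k2,k0,k0,k0],[k0,k0,k3,k0,k0,k0],[k0,k0,k2,k1,k0,k0],[k0,k0,k1,k0,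
    k2,k0],[k0,k0,k0,k1,k2,k0],[k0,k0,k0,k0,k2,k1]]
    [.ref k14 k1 [(z3,[z3,y2,z0,y1]),(z1,[z3,y3,z0,y1]),(z3,[z0,z2,z0,z1]),(z3,[y6,z4,z3,z2])],.ref k25 k1 [(z1,[z3,
    z1,z3,z1,y3]),(z1,[z3,z0,z3,z1,y3]),(z3,[z0,z2,z0,z1]),(z1,[y6,y2,y3,y2,z6])],.ref k26 k0 [(z6,[y3,z4,z3,z2]),(z1,
    [z0,z0,z1]),(z2,[z1,z0,y1]),(z2,[y3,z0,z3,z2])],.ref k27 k0 [(z2,[y1,z2,z0,z1]),(z1,[z0,z0,z1]),(z1,[z1]),(z6,[y1,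
    z0,z0,z1])],.ref k28 k1 [(z1,[z3,y3,z0,y2]),(z3,[z3,y4,z0,y2]),(z3,[z0,z2,z0,z1]),(z1,[y6,z6,z3,z4])],
    .ref k14 k1 [(z6,[z3,y2,z0,y1]),(z2,[z3,y4,z0,y1]),(z3,[z0,z2,z0,z1]),(z3,[y3,z2,z3,z1])],.ref k29 k1 [(z1,[z3,
    z1]),(z1,[z3,y2]),(z3,[z0,z2,z0,z1]),(z1,[y6,y2,z9])],.ref k30 k0 [(z6,[y3,z1,y3,y1,z3]),(z1,[y3,y1,z0,y1,z3]),
    (z3,[z3,z1,z3,z2,y3]),(z2,[z3,z1,z3,z1,y3])]],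
    .lp k0 [k146,k152,k176,k164,k158,k160] [k15,k15,k12,k12,k0,k0,k6,k6,k9,k9,k8,k8] k0 [[k0,k0,k0,k0,k12,k0,k0,k24,
    k0,k0,k0,k0],[k0,k0,k0,k12,k0,k0,k0,k0,k0,k0,k0,k0],[k12,k0,k0,k0,k0,k0,k0,k0,k0,k0,k0,k0],[k0,k0,k0,k0,k12,k0,k0,
    k24,k0,k0,k0,k0],[k0,k0,k0,k0,k0,k0,k0,k0,k0,k0,k0,k0],[k0,k12,k12,k0,k0,k0,k0,k0,k0,k0,k0,k0],[k0,k24,k24,k0,k0,
    k0,k0,k0,k0,k0,k0,k0],[k0,k0,k0,k0,k0,k0,k0,k0,k0,k0,k0,k0],[k0,k0,k0,k0,k0,k0,k0,k0,k0,k0,k0,k28],[k0,k0,k0,k0,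
    k0,k0,k0,k0,k0,k0,k0,k0],[k0,k0,k0,k0,k0,k0,k0,k0,k0,k28,k0,k0],[k0,k0,k0,k0,k0,k0,k0,k0,k0,k0,k0,
    k0]] (nat_lit 480) k5
    [[(k1,k146),(k8,k152),(k10,k153),(k11,k181)],[(k6,k131),(k7,k143),(k0,k146),(k2,k149),(k3,k149),(k9,k152),(k4,
    k161),(k5,k173)],[(k2,k140),(k0,k149),(k3,k152),(k6,k158),(k7,k158),(k5,k164),(k4,k176),(k9,k179)],[(k3,k140),(k0,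
    k149),(k2,k152),(k6,k158),(k7,k158),(k5,k164),(k4,k176),(k9,k179)],[(k6,k146),(k7,k158),(k2,k164),(k3,k164),(k9,
    k167),(k0,k173),(k4,k176),(k5,k176)],[(k0,k161),(k9,k167),(k6,k170),(k7,k170),(k2,k176),(k3,k176),(k4,k176),(k5,
    k176)],[(k0,k143),(k2,k158),(k3,k158),(k5,k158),(k9,k161),(k6,k164),(k7,k164),(k4,k170)],[(k0,k131),(k5,k146),(k2,
    k158),(k3,k158),(k9,k161),(k6,k164),(k7,k164),(k4,k170)],[(k0,k152),(k9,k158),(k6,k161),(k7,k161),(k4,k167),(k5,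
    k167),(k2,k179),(k3,k179)],[(k10,k131),(k1,k152),(k8,k158),(k11,k159)],[(k8,k159),(k10,k160),(k11,k160),(k1,
    k181)],[(k8,k131),(k1,k153),(k10,k160),(k11,k160)]]
    [[k2,k1,k0,k0,k0,k0],[k2,k0,k0,k1,k0,k0],[k1,k0,k0,k1,k1,k0],[k1,k0,k0,k0,k1,k1],[k0,k3,k0,k0,k0,k0],[k0,k2,k0,k1,
    k0,k0],[k0,k0,k0,k0,k2,k1]]
    [.ref k3 k0 [(z2,[z1,z4,y1]),(z1,[z2,y4,z1]),(z1,[y1,z2,z1,z3]),(z1,[y2,z4,z2,z0,z1]),(z2,[z1,y2,y1])],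
    .ref k3 k0 [(z2,[y3,z12,z0,z0,z1]),(z1,[y6,z12,z3,z0,z2]),(z1,[z3,y6,z0,z3,y1]),(z1,[z6,y12,z0,z0,y1]),(z2,[y3,z6,
    z0,z0,z1])],.ref k3 k0 [(z2,[y3,z9,z0,z0,z1]),(z1,[y6,z6,z3,z0,z2]),(z1,[z3,y3,z0,z3,y1]),(z1,[z6,y6,z0,z0,y1]),
    (z2,[y3,z3,z0,z0,z1])],.ref k3 k0 [(z2,[z3,z6,z3,z3,z1,y3]),(z1,[z6,z0,z9,z6,z2,y6]),(z1,[y3,z0,y3,z0,y1,z3]),(z1,
    [y6,z0,y6,y6,y1,z6]),(z2,[z3,z0,z3,z3,z1,y3])],.ref k3 k0 [(z4,[z1,z12,y3]),(z1,[z1]),(z2,[y1,z0,z3,z6]),(z1,[y1,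
    z0,z3,z0,z1]),(z4,[z1,z0,y3])],.ref k3 k0 [(z4,[z3,z12,y6,z0,y1]),(z1,[z3,z0,y3,z0,y1]),(z2,[y3,z0,z6,z6,z1]),(z1,
    [y3,z0,z6,z0,z2]),(z4,[z3,z0,y6,z0,y1])],.ref k3 k0 [(z2,[z3,z9,z3,z3,z1,y3]),(z1,[z6,z6,z9,z6,z2,y6]),(z1,[y3,y3,
    y3,z0,y1,z3]),(z1,[y6,y6,y6,y6,y1,z6]),(z2,[z3,z3,z3,z3,z1,y3])]],
    .base (.leafM k0 [k0,k1,k2,k3,k4,k5] [(z1,[z0,z1,z1,z1])] []),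
    .lp k0 [k16,k16,k16,k16,k14,k16] [k2,k0,k1,k1,k1,k1,k1,k1,k2,k2,k1,k1] k0 [[k0,k0,k0,k0,k0,k0,k0,k0,k0,k0,k0,k0],
    [k0,k0,k0,k0,k0,k0,k0,k0,k0,k0,k0,k0],[k0,k0,k0,k0,k0,k0,k0,k0,k0,k0,k0,k0],[k0,k0,k0,k0,k0,k0,k0,k0,k0,k0,k0,k0],
    [k0,k0,k0,k0,k0,k0,k0,k0,k0,k0,k0,k0],[k0,k0,k0,k0,k0,k0,k0,k0,k0,k0,k0,k0],[k0,k0,k0,k0,k0,k0,k0,k0,k0,k0,k0,k0],
    [k0,k0,k0,k0,k0,k0,k0,k0,k0,k0,k0,k0],[k0,k0,k0,k0,k0,k0,k0,k0,k0,k0,k4,k0],[k0,k0,k0,k0,k0,k0,k0,k0,k4,k0,k0,k0],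
    [k0,k0,k0,k0,k0,k0,k0,k0,k0,k0,k0,k0],[k0,k0,k0,k0,k0,k0,k0,k0,k0,k4,k0,k0]] k48 k5
    [[(k8,k12),(k10,k17),(k11,k17),(k1,k18)],[(k0,k14),(k9,k14),(k2,k15),(k3,k15),(k4,k15),(k5,k15),(k6,k15),(k7,
    k15)],[(k0,k15),(k9,k15),(k2,k16),(k3,k16),(k4,k16),(k5,k16),(k6,k16),(k7,k16)],[(k0,k15),(k9,k15),(k2,k16),(k3,
    k16),(k4,k16),(k5,k16),(k6,k16),(k7,k16)],[(k0,k15),(k9,k15),(k2,k16),(k3,k16),(k4,k16),(k5,k16),(k6,k16),(k7,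
    k16)],[(k0,k15),(k9,k15),(k2,k16),(k3,k16),(k4,k16),(k5,k16),(k6,k16),(k7,k16)],[(k0,k15),(k9,k15),(k2,k16),(k3,
    k16),(k4,k16),(k5,k16),(k6,k16),(k7,k16)],[(k0,k15),(k9,k15),(k2,k16),(k3,k16),(k4,k16),(k5,k16),(k6,k16),(k7,
    k16)],[(k0,k14),(k9,k14),(k2,k15),(k3,k15),(k4,k15),(k5,k15),(k6,k15),(k7,k15)],[(k1,k12),(k10,k15),(k11,k15),(k8,
    k18)],[(k11,k12),(k8,k15),(k1,k17),(k10,k20)],[(k8,k15),(k10,k16),(k1,k17),(k11,k20)]]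
    [[k1,k1,k0,k0,k1,k0],[k1,k0,k1,k0,k1,k0],[k1,k0,k0,k1,k1,k0],[k1,k0,k0,k0,k1,k1],[k0,k0,k0,k0,k2,k1]]
    [.ref k3 k0 [(z4,[y6,z9,z1]),(z4,[z6,y3,z1]),(z2,[z6,y3,y1,z6]),(z1,[y6,z3,z1,z0,z3]),(z2,[z6,y3,y1])],
    .ref k3 k0 [(z1,[y1,z2,z0,z1]),(z2,[z2,y1,z1,y2]),(z1,[z2,y1,z0,z1]),(z1,[y4,z2,z0,z4,z3]),(z1,[z2,y1,z0,y2])],
    .ref k3 k0 [(z1,[z1,z1,z0,z0,y1]),(z2,[y2,z1,z1,z0,z2]),(z1,[y2,z1,z0,z3,z2]),(z1,[z4,y2,z0,z0,y1]),(z1,[y2,z1,z0,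
    z0,z2])],.ref k3 k0 [(z2,[y6,z3,y1,y6,y6,z6]),(z1,[z3,z0,z1,z3,z3,y3]),(z1,[z6,z0,z1,z9,z6,y6]),(z1,[y12,z0,y2,
    y12,y9,z12]),(z1,[z6,z0,z1,z6,z6,y6])],.ref k3 k0 [(z8,[y6,z9,y1,y6,y6,z6]),(z8,[z6,z3,z5,z6,z6,y6]),(z4,[z6,z3,
    z1,z18,z6,y6]),(z2,[y6,y3,y1,y6,z0,z6]),(z4,[z6,z3,z1,z6,z6,y6])]],
    .lp k0 [k84,k78,k78,k90,k66,k80] [k3,k3,k6,k6,k6,k6,k0,k0,k12,k12,k5,k5] k0 [[k0,k0,k6,k6,k0,k0,k0,k0,k0,k0,k0,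
    k0],[k0,k0,k0,k0,k0,k0,k0,k0,k0,k0,k0,k0],[k0,k6,k0,k0,k6,k0,k0,k0,k0,k0,k0,k0],[k0,k6,k0,k0,k6,k0,k0,k0,k0,k0,k0,
    k0],[k0,k0,k0,k0,k0,k0,k0,k0,k0,k0,k0,k0],[k0,k0,k6,k6,k0,k0,k0,k0,k0,k0,k0,k0],[k0,k0,k0,k0,k0,k0,k0,k12,k0,k0,
    k0,k0],[k0,k0,k0,k0,k0,k0,k0,k0,k0,k0,k0,k0],[k0,k0,k0,k0,k0,k0,k0,k0,k0,k0,k0,k0],[k0,k0,k0,k0,k0,k0,k0,k0,k0,k0,
    k16,k0],[k0,k0,k0,k0,k0,k0,k0,k0,k0,k0,k0,k0],[k0,k0,k0,k0,k0,k0,k0,k0,k16,k0,k0,k0]] (nat_lit 240) k5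
    [[(k11,k66),(k8,k75),(k10,k82),(k1,k84)],[(k2,k75),(k5,k75),(k9,k75),(k3,k81),(k4,k81),(k0,k84),(k6,k87),(k7,
    k87)],[(k9,k72),(k3,k78),(k4,k78),(k0,k81),(k2,k84),(k5,k84),(k6,k84),(k7,k84)],[(k9,k72),(k0,k75),(k2,k78),(k5,
    k78),(k7,k78),(k3,k84),(k4,k84),(k6,k84)],[(k9,k72),(k0,k75),(k2,k78),(k5,k78),(k7,k78),(k3,k84),(k4,k84),(k6,
    k84)],[(k9,k72),(k3,k78),(k4,k78),(k0,k81),(k2,k84),(k5,k84),(k6,k84),(k7,k84)],[(k2,k78),(k5,k78),(k9,k78),(k3,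
    k84),(k4,k84),(k0,k87),(k6,k90),(k7,k90)],[(k6,k78),(k9,k78),(k2,k84),(k3,k84),(k4,k84),(k5,k84),(k0,k87),(k7,
    k90)],[(k2,k72),(k3,k72),(k4,k72),(k5,k72),(k0,k75),(k6,k78),(k7,k78),(k9,k78)],[(k8,k66),(k11,k73),(k1,k75),(k10,
    k89)],[(k1,k66),(k8,k73),(k10,k80),(k11,k80)],[(k10,k80),(k11,k80),(k1,k82),(k8,k89)]]
    [[k1,k1,k0,k0,k1,k0],[k1,k0,k1,k0,k1,k0],[k2,k0,k0,k0,k0,k1],[k1,k0,k0,k0,k1,k1],[k0,k1,k0,k0,k2,k0],[k0,k0,k1,k0,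
    k2,k0],[k0,k0,k0,k1,k2,k0]]
    [.ref k3 k0 [(z8,[y12,z9,z1,z0,z4]),(z8,[z36,y9,y1,z0,y12]),(z4,[z12,y3,y1,z6,y4]),(z2,[y12,z3,z1,z0,z4]),(z1,[z0,
    z0,z0,z0,z1])],.ref k3 k0 [(z2,[y6,z3,z0,z3,z2]),(z4,[z36,y9,z1,y18,y12]),(z2,[z12,y3,z0,y3,y4]),(z1,[y12,z3,z0,
    z6,z4]),(z1,[z0,z0,z0,z0,z1])],.ref k3 k0 [(z8,[z12,z3,z1,z6,z4,y12]),(z8,[y36,z9,y1,y18,y12,z36]),(z4,[y12,z3,y1,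
    z0,y4,z12]),(z2,[z12,y3,z1,z6,z4,y12]),(z1,[z0,z0,z0,z0,z1])],.ref k3 k0 [(z4,[z12,z3,z1,z6,z0,y12]),(z2,[y18,z0,
    y1,y9,z0,z18]),(z2,[y12,z0,y1,y3,z0,z12]),(z1,[z12,z0,z1,z6,z0,y12]),(z1,[z0,z0,z0,z0,z1])],.ref k3 k0 [(z12,[y12,
    z9,z1,z0,z8]),(z1,[z3,z0,z0,z0,y2]),(z6,[z12,z0,y1,z9,y8]),(z3,[y12,z0,z1,z0,z8]),(z1,[z0,z0,z0,z0,z1])],
    .ref k3 k0 [(z4,[y6,z3,z0,z3,z4]),(z4,[z18,z0,z1,y9,y12]),(z1,[z3,z0,z0,z0,y2]),(z1,[y6,z0,z0,z3,z4]),(z1,[z0,z0,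
    z0,z0,z1])],.ref k3 k0 [(z4,[z3,z3,z0,z0,y2]),(z4,[y9,z0,z1,z0,z6]),(z2,[y3,z0,z0,z3,z2]),(z1,[z3,z0,z0,z0,y2]),
    (z1,[z0,z0,z0,z0,z1])]]]

theorem hB6_104_2 : blkB [0, 0, 0, 0, 1, 1] [] sp6 hS6_104 (pcls (n := 6) [0, 0, 0, 0, 1, 1]) hD6_104 181 2 hN6_104_2 = true := by
  decide +kernel

/-- nodes 36 to 47 -/
noncomputable def hN6_104_3 : List HM :=
  [.lp k0 [k90,k78,k78,k90,k60,k80] [k0,k0,k6,k6,k6,k6,k0,k0,k15,k15,k5,k5] k0 [[k0,k0,k6,k6,k0,k0,k0,k0,k0,k0,k0,k0],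
    [k0,k0,k0,k0,k0,k0,k0,k0,k0,k0,k0,k0],[k0,k6,k0,k0,k6,k0,k0,k0,k0,k0,k0,k0],[k0,k6,k0,k0,k6,k0,k0,k0,k0,k0,k0,k0],
    [k0,k0,k0,k0,k0,k0,k0,k0,k0,k0,k0,k0],[k0,k0,k6,k6,k0,k0,k0,k0,k0,k0,k0,k0],[k0,k0,k0,k0,k0,k0,k0,k0,k0,k0,k0,k0],
    [k0,k0,k0,k0,k0,k0,k0,k0,k0,k0,k0,k0],[k0,k0,k0,k0,k0,k0,k0,k0,k0,k0,k0,k0],[k0,k0,k0,k0,k0,k0,k0,k0,k0,k0,k0,k0],
    [k0,k0,k0,k0,k0,k0,k0,k0,k0,k0,k0,k0],[k0,k0,k0,k0,k0,k0,k0,k0,k0,k0,k0,k0]] (nat_lit 240) k5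
    [[(k8,k75),(k10,k85),(k11,k85),(k1,k90)],[(k9,k75),(k2,k78),(k5,k78),(k3,k84),(k4,k84),(k0,k90),(k6,k90),(k7,
    k90)],[(k9,k69),(k3,k78),(k4,k78),(k0,k84),(k2,k84),(k5,k84),(k6,k84),(k7,k84)],[(k9,k69),(k0,k78),(k2,k78),(k5,
    k78),(k7,k78),(k3,k84),(k4,k84),(k6,k84)],[(k9,k69),(k0,k78),(k2,k78),(k5,k78),(k7,k78),(k3,k84),(k4,k84),(k6,
    k84)],[(k9,k69),(k3,k78),(k4,k78),(k0,k84),(k2,k84),(k5,k84),(k6,k84),(k7,k84)],[(k9,k75),(k2,k78),(k5,k78),(k3,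
    k84),(k4,k84),(k0,k90),(k6,k90),(k7,k90)],[(k9,k75),(k2,k84),(k3,k84),(k4,k84),(k5,k84),(k0,k90),(k6,k90),(k7,
    k90)],[(k9,k60),(k2,k69),(k3,k69),(k4,k69),(k5,k69),(k0,k75),(k6,k75),(k7,k75)],[(k8,k60),(k10,k70),(k11,k70),(k1,
    k75)],[(k8,k70),(k10,k80),(k11,k80),(k1,k85)],[(k8,k70),(k10,k80),(k11,k80),(k1,k85)]]
    [[k1,k1,k0,k0,k1,k0],[k1,k0,k1,k0,k1,k0],[k1,k0,k0,k0,k1,k1],[k0,k1,k0,k0,k2,k0],[k0,k0,k1,k0,k2,k0],[k0,k0,k0,k1,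
    k2,k0],[k0,k0,k0,k0,k2,k1]]
    [.ref k15 k0 [(z8,[y12,z9,z1]),(z8,[z36,y9,y1]),(z4,[z12,y3,y1,z6]),(z2,[y12,z3,z1])],.ref k32 k1 [(z2,[z2,y1,z0,
    y1]),(z1,[z0,y1]),(z2,[z0,z1,z0,z1]),(z4,[y12,z15,z1,z6])],.ref k33 k1 [(z4,[z12,z3,z1,z6,y12]),(z1,[z0,y1]),(z2,
    [z0,z1,z0,z1]),(z2,[y2,z1,z0,y1,z2])],.ref k28 k1 [(z4,[z12,y9,y1]),(z1,[z0,y1]),(z2,[z0,z1,z0,z1]),(z2,[y6,z9,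
    z1])],.ref k32 k1 [(z4,[z2,y1,z0,y1]),(z1,[z0,y1]),(z2,[z0,z1,z0,z1]),(z4,[y6,z12,z1,z3])],.ref k34 k0 [(z2,[z1,
    z1]),(z2,[y9,z0,z1]),(z2,[y1,z0,z0,z1]),(z1,[z1])],.ref k35 k0 [(z1,[z0,z1]),(z2,[y12,y3,z1,y6,z12]),(z1,[z0,z0,
    z0,z1]),(z8,[z12,z3,z1,z6,y12])]],
    .lp k0 [k16,k16,k16,k16,k14,k16] [k2,k0,k1,k1,k1,k1,k1,k1,k2,k2,k1,k1] k0 [[k0,k0,k0,k0,k0,k0,k0,k0,k0,k0,k0,k0],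
    [k0,k0,k0,k0,k0,k0,k0,k0,k0,k0,k0,k0],[k0,k0,k0,k0,k0,k0,k0,k0,k0,k0,k0,k0],[k0,k0,k0,k0,k0,k0,k0,k0,k0,k0,k0,k0],
    [k0,k0,k0,k0,k0,k0,k0,k0,k0,k0,k0,k0],[k0,k0,k0,k0,k0,k0,k0,k0,k0,k0,k0,k0],[k0,k0,k0,k0,k0,k0,k0,k0,k0,k0,k0,k0],
    [k0,k0,k0,k0,k0,k0,k0,k0,k0,k0,k0,k0],[k0,k0,k0,k0,k0,k0,k0,k0,k0,k0,k4,k0],[k0,k0,k0,k0,k0,k0,k0,k0,k4,k0,k0,k0],
    [k0,k0,k0,k0,k0,k0,k0,k0,k0,k0,k0,k0],[k0,k0,k0,k0,k0,k0,k0,k0,k0,k4,k0,k0]] k48 k5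
    [[(k8,k12),(k10,k17),(k11,k17),(k1,k18)],[(k0,k14),(k9,k14),(k2,k15),(k3,k15),(k4,k15),(k5,k15),(k6,k15),(k7,
    k15)],[(k0,k15),(k9,k15),(k2,k16),(k3,k16),(k4,k16),(k5,k16),(k6,k16),(k7,k16)],[(k0,k15),(k9,k15),(k2,k16),(k3,
    k16),(k4,k16),(k5,k16),(k6,k16),(k7,k16)],[(k0,k15),(k9,k15),(k2,k16),(k3,k16),(k4,k16),(k5,k16),(k6,k16),(k7,
    k16)],[(k0,k15),(k9,k15),(k2,k16),(k3,k16),(k4,k16),(k5,k16),(k6,k16),(k7,k16)],[(k0,k15),(k9,k15),(k2,k16),(k3,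
    k16),(k4,k16),(k5,k16),(k6,k16),(k7,k16)],[(k0,k15),(k9,k15),(k2,k16),(k3,k16),(k4,k16),(k5,k16),(k6,k16),(k7,
    k16)],[(k0,k14),(k9,k14),(k2,k15),(k3,k15),(k4,k15),(k5,k15),(k6,k15),(k7,k15)],[(k1,k12),(k10,k15),(k11,k15),(k8,
    k18)],[(k11,k12),(k8,k15),(k1,k17),(k10,k20)],[(k8,k15),(k10,k16),(k1,k17),(k11,k20)]]
    [[k1,k1,k0,k0,k1,k0],[k1,k0,k1,k0,k1,k0],[k1,k0,k0,k1,k1,k0],[k1,k0,k0,k0,k1,k1],[k0,k0,k0,k0,k2,k1]]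
    [.ref k3 k0 [(z1,[z0,z1]),(z1,[z0,z0,z1]),(z1,[y6,z2,z2,z3]),(z1,[z3,y1,y1,z0,z3]),(z1,[z3,y1,y1])],
    .ref k3 k0 [(z1,[z0,z1]),(z1,[z0,z0,z1]),(z1,[z6,y2,z0,y3]),(z1,[y3,z1,z0,z3,z3]),(z1,[y3,z1,z0,z3])],
    .ref k3 k0 [(z1,[z0,z1]),(z1,[z0,z0,z1]),(z1,[y3,z1,z0,z3,z3]),(z2,[z3,y1,z0,z0,z3]),(z2,[z3,y1,z0,z0,y3])],
    .ref k3 k0 [(z1,[z0,z1]),(z1,[z0,z0,z1]),(z1,[y6,z0,y2,y3,y6,z6]),(z1,[z3,z0,z1,z3,z6,y3]),(z1,[z3,z0,z1,z3,z3,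
    y3])],.ref k3 k0 [(z1,[z0,z1]),(z1,[z0,z0,z1]),(z1,[y3,y1,y1,z0,y3,z3]),(z2,[z3,z1,z1,z3,z9,y3]),(z2,[z3,z1,z1,z3,
    z3,y3])]],
    .lp k0 [k76,k76,k82,k82,k82,k80] [k3,k3,k3,k3,k0,k0,k0,k0,k0,k0,k1,k1] k0 [[k0,k0,k0,k0,k0,k0,k0,k0,k0,k0,k0,k0],
    [k4,k0,k0,k6,k0,k0,k0,k0,k0,k0,k0,k0],[k6,k0,k0,k0,k0,k0,k0,k0,k0,k0,k0,k0],[k0,k0,k0,k0,k0,k0,k0,k0,k0,k0,k0,k0],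
    [k0,k0,k0,k0,k0,k0,k0,k0,k0,k0,k0,k0],[k0,k0,k0,k0,k0,k0,k0,k0,k0,k0,k0,k0],[k0,k0,k0,k0,k0,k0,k0,k0,k0,k0,k0,k0],
    [k0,k0,k0,k0,k0,k0,k0,k0,k0,k0,k0,k0],[k0,k0,k0,k0,k0,k0,k0,k0,k0,k0,k0,k4],[k0,k0,k0,k0,k0,k0,k0,k0,k0,k0,k0,k0],
    [k0,k0,k0,k0,k0,k0,k0,k0,k0,k4,k0,k0],[k0,k0,k0,k0,k0,k0,k0,k0,k0,k0,k0,k0]] (nat_lit 240) k5
    [[(k1,k76),(k10,k78),(k8,k79),(k11,k82)],[(k2,k76),(k3,k76),(k4,k79),(k6,k79),(k7,k79),(k9,k79),(k0,k80),(k5,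
    k85)],[(k2,k70),(k3,k72),(k0,k76),(k4,k79),(k5,k79),(k6,k79),(k7,k79),(k9,k79)],[(k3,k70),(k0,k76),(k2,k76),(k4,
    k79),(k5,k79),(k6,k79),(k7,k79),(k9,k79)],[(k2,k79),(k3,k79),(k4,k82),(k5,k82),(k6,k82),(k7,k82),(k9,k82),(k0,
    k85)],[(k0,k79),(k2,k79),(k3,k79),(k4,k82),(k5,k82),(k6,k82),(k7,k82),(k9,k82)],[(k0,k79),(k2,k79),(k3,k79),(k4,
    k82),(k5,k82),(k6,k82),(k7,k82),(k9,k82)],[(k0,k79),(k2,k79),(k3,k79),(k4,k82),(k5,k82),(k6,k82),(k7,k82),(k9,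
    k82)],[(k0,k79),(k2,k79),(k3,k79),(k4,k82),(k5,k82),(k6,k82),(k7,k82),(k9,k82)],[(k10,k77),(k1,k79),(k11,k81),(k8,
    k82)],[(k10,k80),(k11,k80),(k8,k81),(k1,k82)],[(k8,k77),(k1,k78),(k10,k80),(k11,k80)]]
    [[k2,k1,k0,k0,k0,k0],[k2,k0,k0,k1,k0,k0],[k1,k1,k0,k0,k1,k0],[k1,k0,k0,k0,k1,k1],[k0,k3,k0,k0,k0,k0],[k0,k2,k1,k0,
    k0,k0],[k0,k2,k0,k1,k0,k0]]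
    [.ref k37 k0 [(z1,[z0,z1]),(z1,[z3,y2]),(z1,[z0,z0,z0,z1]),(z3,[y3,z2,z1])],.ref k30 k1 [(z3,[z3,y2,y1]),(z1,[z3,
    y2]),(z3,[y6,z4,z2,z3]),(z1,[z0,z1])],.ref k5 k0 [(z1,[z0,z1]),(z1,[z3,y1]),(z1,[z0,z0,z0,z1]),(z1,[y3,z1,z1])],
    .ref k20 k0 [(z1,[z0,z1]),(z1,[z3,z0,z2,z3,y3]),(z1,[y6,z0,y2,y3,z6]),(z1,[z3,z0,z1,z3,y3])],.ref k37 k0 [(z1,[z0,
    z1]),(z1,[z1]),(z1,[z0,z0,z0,z1]),(z3,[y1,z0,z1])],.ref k30 k1 [(z2,[y1,z0,z0,z1]),(z2,[y3,z0,z2,z3]),(z1,[z1]),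
    (z1,[z0,z1])],.ref k5 k0 [(z1,[z0,z1]),(z1,[z3,z0,y1]),(z1,[z0,z0,z0,z1]),(z1,[y3,z0,z2])]],
    .lp k0 [k84,k82,k78,k92,k60,k80] [k4,k4,k5,k5,k4,k10,k0,k0,k16,k16,k6,k6] k0 [[k0,k0,k6,k2,k0,k0,k0,k0,k0,k0,k0,
    k0],[k0,k0,k0,k0,k0,k4,k0,k16,k0,k0,k0,k0],[k0,k2,k0,k0,k6,k0,k6,k0,k0,k0,k0,k0],[k0,k6,k0,k0,k6,k0,k0,k0,k0,k0,
    k0,k0],[k4,k0,k0,k0,k0,k0,k12,k28,k0,k0,k0,k0],[k0,k0,k6,k6,k0,k0,k0,k0,k0,k0,k0,k0],[k16,k0,k0,k0,k0,k28,k0,k0,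
    k0,k0,k0,k0],[k0,k0,k0,k6,k0,k12,k0,k0,k0,k0,k0,k0],[k0,k0,k0,k0,k0,k0,k0,k0,k0,k0,k0,k0],[k0,k0,k0,k0,k0,k0,k0,
    k0,k0,k0,k0,k0],[k0,k0,k0,k0,k0,k0,k0,k0,k0,k0,k0,k0],[k0,k0,k0,k0,k0,k0,k0,k0,k0,k0,k0,k0]] (nat_lit 240) k5
    [[(k8,k72),(k10,k82),(k11,k82),(k1,k84)],[(k5,k72),(k2,k81),(k3,k83),(k0,k84),(k4,k84),(k6,k88),(k9,k88),(k7,
    k92)],[(k6,k71),(k9,k71),(k4,k79),(k5,k79),(k3,k82),(k0,k83),(k7,k87),(k2,k88)],[(k9,k65),(k5,k77),(k0,k81),(k7,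
    k81),(k2,k82),(k6,k87),(k3,k88),(k4,k89)],[(k9,k66),(k0,k72),(k5,k72),(k7,k76),(k2,k77),(k3,k79),(k4,k84),(k6,
    k88)],[(k6,k60),(k9,k60),(k3,k79),(k0,k84),(k4,k84),(k5,k84),(k7,k88),(k2,k89)],[(k5,k76),(k2,k81),(k3,k87),(k4,
    k88),(k0,k92),(k7,k92),(k6,k104),(k9,k104)],[(k4,k60),(k3,k71),(k9,k76),(k2,k87),(k0,k88),(k5,k88),(k6,k92),(k7,
    k104)],[(k4,k60),(k9,k60),(k2,k65),(k5,k66),(k3,k71),(k6,k76),(k0,k88),(k7,k104)],[(k8,k60),(k10,k70),(k11,k70),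
    (k1,k72)],[(k8,k70),(k10,k80),(k11,k80),(k1,k82)],[(k8,k70),(k10,k80),(k11,k80),(k1,k82)]]
    [[k1,k1,k0,k0,k1,k0],[k1,k0,k1,k0,k1,k0],[k0,k1,k1,k1,k0,k0],[k0,k1,k0,k0,k2,k0],[k0,k0,k2,k1,k0,k0],[k0,k0,k1,k0,
    k2,k0],[k0,k0,k0,k0,k2,k1]]
    [.ref k19 k0 [(z2,[z6,z3,y1]),(z2,[z6,y3,z1]),(z2,[y6,z3,z1])],.ref k23 k0 [(z1,[y1,z1]),(z2,[y6,z3,z1]),(z1,[z2,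
    y1])],.ref k24 k1 [(z2,[y6,z3,z1]),(z1,[z1,y1]),(z1,[z0,z1])],.ref k31 k0 [(z2,[z6,z3,y1]),(z1,[z1]),(z1,[y6,z0,
    z1])],.ref k36 k0 [(z1,[y1,z2]),(z1,[y3,z0,z2]),(z1,[z1])],.ref k23 k0 [(z2,[y1,z1]),(z2,[y3,z0,z1]),(z1,[z1])],
    .ref k38 k1 [(z4,[z6,z3,z1,y6]),(z4,[y6,y9,z1,z6]),(z1,[z0,z1])]],
    .lp k0 [k18,k16,k16,k16,k16,k12] [k0,k0,k1,k1,k1,k1,k1,k1,k1,k1,k3,k3] k0 [[k0,k0,k0,k0,k0,k0,k0,k0,k0,k0,k0,k0],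
    [k0,k0,k0,k0,k0,k0,k0,k0,k0,k0,k0,k0],[k0,k0,k0,k0,k0,k0,k0,k0,k0,k0,k0,k0],[k0,k0,k0,k0,k0,k0,k0,k0,k0,k0,k0,k0],
    [k0,k0,k0,k0,k0,k0,k0,k0,k0,k0,k0,k0],[k0,k0,k0,k0,k0,k0,k0,k0,k0,k0,k0,k0],[k0,k0,k0,k0,k0,k0,k0,k0,k0,k0,k0,k0],
    [k0,k0,k0,k0,k0,k0,k0,k0,k0,k0,k0,k0],[k0,k0,k0,k0,k0,k0,k0,k0,k0,k0,k0,k0],[k0,k0,k0,k0,k0,k0,k0,k0,k0,k0,k0,k0],
    [k0,k0,k0,k0,k0,k0,k0,k0,k0,k0,k0,k0],[k0,k0,k0,k0,k0,k0,k0,k0,k0,k0,k0,k0]] k48 k5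
    [[(k10,k15),(k11,k15),(k8,k17),(k1,k18)],[(k2,k17),(k3,k17),(k4,k17),(k5,k17),(k6,k17),(k7,k17),(k9,k17),(k0,
    k18)],[(k2,k16),(k3,k16),(k4,k16),(k5,k16),(k6,k16),(k7,k16),(k9,k16),(k0,k17)],[(k2,k16),(k3,k16),(k4,k16),(k5,
    k16),(k6,k16),(k7,k16),(k9,k16),(k0,k17)],[(k2,k16),(k3,k16),(k4,k16),(k5,k16),(k6,k16),(k7,k16),(k9,k16),(k0,
    k17)],[(k2,k16),(k3,k16),(k4,k16),(k5,k16),(k6,k16),(k7,k16),(k9,k16),(k0,k17)],[(k2,k16),(k3,k16),(k4,k16),(k5,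
    k16),(k6,k16),(k7,k16),(k9,k16),(k0,k17)],[(k2,k16),(k3,k16),(k4,k16),(k5,k16),(k6,k16),(k7,k16),(k9,k16),(k0,
    k17)],[(k2,k16),(k3,k16),(k4,k16),(k5,k16),(k6,k16),(k7,k16),(k9,k16),(k0,k17)],[(k10,k14),(k11,k14),(k8,k16),(k1,
    k17)],[(k10,k12),(k11,k12),(k8,k14),(k1,k15)],[(k10,k12),(k11,k12),(k8,k14),(k1,k15)]]
    [[k1,k0,k0,k0,k1,k1],[k0,k0,k0,k0,k2,k1],[k0,k0,k0,k0,k0,k3]]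
    [.ref k0 k1 [(z1,[z1]),(z1,[y1,y1,z1])],.ref k13 k1 [(z1,[z1]),(z1,[y1,y2,z2])],.ref k39 k0 [(z1,[z0,z1]),(z1,[y2,
    y3,z6])]],
    .base (.leafM k0 [k0,k1,k2,k3,k4,k5] [(z1,[y1,z0,z0,z1])] []),
    .lp k0 [k90,k78,k78,k90,k60,k80] [k0,k0,k6,k6,k6,k6,k0,k0,k15,k15,k5,k5] k0 [[k0,k0,k6,k6,k0,k0,k0,k0,k0,k0,k0,
    k0],[k0,k0,k0,k0,k0,k0,k0,k0,k0,k0,k0,k0],[k0,k6,k0,k0,k6,k0,k0,k0,k0,k0,k0,k0],[k0,k6,k0,k0,k6,k0,k0,k0,k0,k0,k0,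
    k0],[k0,k0,k0,k0,k0,k0,k0,k0,k0,k0,k0,k0],[k0,k0,k6,k6,k0,k0,k0,k0,k0,k0,k0,k0],[k0,k0,k0,k0,k0,k0,k0,k0,k0,k0,k0,
    k0],[k0,k0,k0,k0,k0,k0,k0,k0,k0,k0,k0,k0],[k0,k0,k0,k0,k0,k0,k0,k0,k0,k0,k0,k0],[k0,k0,k0,k0,k0,k0,k0,k0,k0,k0,k0,
    k0],[k0,k0,k0,k0,k0,k0,k0,k0,k0,k0,k0,k0],[k0,k0,k0,k0,k0,k0,k0,k0,k0,k0,k0,k0]] (nat_lit 240) k5
    [[(k8,k75),(k10,k85),(k11,k85),(k1,k90)],[(k9,k75),(k2,k78),(k5,k78),(k3,k84),(k4,k84),(k0,k90),(k6,k90),(k7,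
    k90)],[(k9,k69),(k3,k78),(k4,k78),(k0,k84),(k2,k84),(k5,k84),(k6,k84),(k7,k84)],[(k9,k69),(k0,k78),(k2,k78),(k5,
    k78),(k7,k78),(k3,k84),(k4,k84),(k6,k84)],[(k9,k69),(k0,k78),(k2,k78),(k5,k78),(k7,k78),(k3,k84),(k4,k84),(k6,
    k84)],[(k9,k69),(k3,k78),(k4,k78),(k0,k84),(k2,k84),(k5,k84),(k6,k84),(k7,k84)],[(k9,k75),(k2,k78),(k5,k78),(k3,
    k84),(k4,k84),(k0,k90),(k6,k90),(k7,k90)],[(k9,k75),(k2,k84),(k3,k84),(k4,k84),(k5,k84),(k0,k90),(k6,k90),(k7,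
    k90)],[(k9,k60),(k2,k69),(k3,k69),(k4,k69),(k5,k69),(k0,k75),(k6,k75),(k7,k75)],[(k8,k60),(k10,k70),(k11,k70),(k1,
    k75)],[(k8,k70),(k10,k80),(k11,k80),(k1,k85)],[(k8,k70),(k10,k80),(k11,k80),(k1,k85)]]
    [[k1,k1,k0,k0,k1,k0],[k1,k0,k1,k0,k1,k0],[k1,k0,k0,k0,k1,k1],[k0,k1,k0,k0,k2,k0],[k0,k0,k1,k0,k2,k0],[k0,k0,k0,k1,
    k2,k0],[k0,k0,k0,k0,k2,k1]]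
    [.ref k3 k0 [(z1,[z0,z1]),(z1,[z0,z0,z1]),(z1,[z0,z0,z0,z1]),(z1,[y3,z1,z1,z0,z1]),(z1,[z3,y1,y1])],
    .ref k3 k0 [(z1,[z0,z1]),(z1,[z0,z0,z1]),(z1,[z0,z0,z0,z1]),(z1,[y3,z1,z0,z1,z1]),(z1,[z3,y1,z0,y1])],
    .ref k3 k0 [(z1,[z0,z1]),(z1,[z0,z0,z1]),(z1,[z0,z0,z0,z1]),(z1,[y3,z0,y1,y1,z0,z3]),(z1,[z3,z0,z1,z1,z1,y3])],
    .ref k3 k0 [(z1,[z0,z1]),(z1,[z0,z0,z1]),(z1,[z0,z0,z0,z1]),(z2,[y3,z0,z1,z0,z2]),(z2,[z3,z0,y1])],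
    .ref k3 k0 [(z1,[z0,z1]),(z1,[z0,z0,z1]),(z1,[z0,z0,z0,z1]),(z2,[y3,z0,z0,z1,z2]),(z2,[z3,z0,z0,y1])],
    .ref k3 k0 [(z1,[z0,z1]),(z1,[z0,z0,z1]),(z1,[z0,z0,z0,z1]),(z1,[y3,z0,z0,z0,z2]),(z1,[z3,z0,z0,z0,y1])],
    .ref k3 k0 [(z1,[z0,z1]),(z1,[z0,z0,z1]),(z1,[z0,z0,z0,z1]),(z2,[y3,y1,y1,y1,z1,z3]),(z2,[z3,z1,z1,z1,z1,y3])]],
    .lp k0 [k90,k78,k78,k90,k60,k80] [k0,k0,k6,k6,k6,k6,k0,k0,k15,k15,k5,k5] k0 [[k0,k0,k6,k6,k0,k0,k0,k0,k0,k0,k0,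
    k0],[k0,k0,k0,k0,k0,k0,k0,k0,k0,k0,k0,k0],[k0,k6,k0,k0,k6,k0,k0,k0,k0,k0,k0,k0],[k0,k6,k0,k0,k6,k0,k0,k0,k0,k0,k0,
    k0],[k0,k0,k0,k0,k0,k0,k0,k0,k0,k0,k0,k0],[k0,k0,k6,k6,k0,k0,k0,k0,k0,k0,k0,k0],[k0,k0,k0,k0,k0,k0,k0,k0,k0,k0,k0,
    k0],[k0,k0,k0,k0,k0,k0,k0,k0,k0,k0,k0,k0],[k0,k0,k0,k0,k0,k0,k0,k0,k0,k0,k0,k0],[k0,k0,k0,k0,k0,k0,k0,k0,k0,k0,k0,
    k0],[k0,k0,k0,k0,k0,k0,k0,k0,k0,k0,k0,k0],[k0,k0,k0,k0,k0,k0,k0,k0,k0,k0,k0,k0]] (nat_lit 240) k5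
    [[(k8,k75),(k10,k85),(k11,k85),(k1,k90)],[(k9,k75),(k2,k78),(k5,k78),(k3,k84),(k4,k84),(k0,k90),(k6,k90),(k7,
    k90)],[(k9,k69),(k3,k78),(k4,k78),(k0,k84),(k2,k84),(k5,k84),(k6,k84),(k7,k84)],[(k9,k69),(k0,k78),(k2,k78),(k5,
    k78),(k7,k78),(k3,k84),(k4,k84),(k6,k84)],[(k9,k69),(k0,k78),(k2,k78),(k5,k78),(k7,k78),(k3,k84),(k4,k84),(k6,
    k84)],[(k9,k69),(k3,k78),(k4,k78),(k0,k84),(k2,k84),(k5,k84),(k6,k84),(k7,k84)],[(k9,k75),(k2,k78),(k5,k78),(k3,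
    k84),(k4,k84),(k0,k90),(k6,k90),(k7,k90)],[(k9,k75),(k2,k84),(k3,k84),(k4,k84),(k5,k84),(k0,k90),(k6,k90),(k7,
    k90)],[(k9,k60),(k2,k69),(k3,k69),(k4,k69),(k5,k69),(k0,k75),(k6,k75),(k7,k75)],[(k8,k60),(k10,k70),(k11,k70),(k1,
    k75)],[(k8,k70),(k10,k80),(k11,k80),(k1,k85)],[(k8,k70),(k10,k80),(k11,k80),(k1,k85)]]
    [[k1,k1,k0,k0,k1,k0],[k1,k0,k1,k0,k1,k0],[k1,k0,k0,k0,k1,k1],[k0,k1,k0,k0,k2,k0],[k0,k0,k1,k0,k2,k0],[k0,k0,k0,k1,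
    k2,k0],[k0,k0,k0,k0,k2,k1]]
    [.ref k3 k0 [(z10,[y15,z9,z1]),(z5,[y15,z3,z2]),(z5,[z15,y3,y1,z3]),(z5,[y30,z6,z2,z0,z3]),(z2,[z15,y3,y1])],
    .ref k3 k0 [(z10,[y5,z7,z0,z1]),(z5,[y5,z1,z1,z1]),(z5,[z5,y1,z0,z2]),(z5,[y10,z2,z0,z2,z3]),(z2,[z5,y1,z0,y1])],
    .ref k3 k0 [(z20,[y15,z12,y1,y3,y3,z15]),(z10,[y15,z0,z1,y3,y3,z15]),(z10,[z15,z0,z1,z9,z3,y15]),(z5,[y15,z0,y1,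
    y3,z0,z15]),(z4,[z15,z0,z1,z3,z3,y15])],.ref k3 k0 [(z40,[y15,z24,z1]),(z4,[y3,z0,z1]),(z20,[z15,z0,y1,z12]),(z10,
    [y15,z0,z1,z0,z6]),(z8,[z15,z0,y1])],.ref k3 k0 [(z20,[y5,z12,z0,z1]),(z10,[y5,z0,z2,z1]),(z2,[z1,z0,z0,z1]),(z5,
    [y5,z0,z0,z1,z3]),(z4,[z5,z0,z0,y1])],.ref k3 k0 [(z10,[y5,z6,z0,z0,z1]),(z5,[y5,z0,z1,z0,z1]),(z5,[z5,z0,z0,z3,
    y1]),(z1,[y2,z0,z0,z0,z1]),(z2,[z5,z0,z0,z0,y1])],.ref k3 k0 [(z50,[y15,z27,y1,y3,y3,z15]),(z25,[y15,y3,z4,y3,y3,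
    z15]),(z25,[z15,z3,z1,z18,z3,y15]),(z25,[y30,y6,y2,y6,z9,z30]),(z10,[z15,z3,z1,z3,z3,y15])]],
    .lp k0 [k160,k186,k128,k176,k146,k160] [k13,k13,k0,k0,k29,k29,k5,k5,k20,k20,k13,k13] k0 [[k0,k0,k0,k2,k2,k0,k0,k2,
    k0,k0,k0,k0],[k0,k0,k0,k22,k10,k0,k0,k0,k0,k0,k0,k0],[k22,k2,k0,k0,k0,k0,k0,k0,k0,k0,k0,k0],[k0,k0,k0,k0,k0,k0,k0,
    k0,k0,k0,k0,k0],[k0,k0,k0,k0,k0,k0,k0,k0,k0,k0,k0,k0],[k10,k2,k0,k0,k0,k0,k0,k0,k0,k0,k0,k0],[k0,k2,k0,k0,k0,k0,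
    k0,k0,k0,k0,k0,k0],[k0,k0,k0,k0,k0,k0,k0,k0,k0,k0,k0,k0],[k0,k0,k0,k0,k0,k0,k0,k0,k0,k0,k0,k0],[k0,k0,k0,k0,k0,k0,
    k0,k0,k0,k0,k0,k0],[k0,k0,k0,k0,k0,k0,k0,k0,k0,k0,k0,k0],[k0,k0,k0,k0,k0,k0,k0,k0,k0,k0,k0,k0]] (nat_lit 480) k5
    [[(k8,k153),(k1,k160),(k10,k160),(k11,k160)],[(k9,k153),(k4,k154),(k0,k160),(k5,k166),(k6,k166),(k7,k166),(k2,
    k171),(k3,k173)],[(k4,k159),(k5,k159),(k2,k164),(k9,k168),(k7,k171),(k0,k173),(k6,k181),(k3,k186)],[(k4,k157),(k5,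
    k157),(k3,k164),(k9,k166),(k0,k171),(k6,k181),(k7,k181),(k2,k186)],[(k4,k128),(k5,k128),(k9,k137),(k6,k152),(k7,
    k152),(k2,k157),(k3,k159),(k0,k166)],[(k4,k128),(k5,k128),(k9,k137),(k6,k152),(k7,k152),(k0,k154),(k2,k157),(k3,
    k159)],[(k4,k152),(k5,k152),(k9,k161),(k0,k166),(k3,k171),(k6,k176),(k7,k176),(k2,k181)],[(k4,k152),(k5,k152),(k9,
    k161),(k0,k166),(k6,k176),(k7,k176),(k2,k181),(k3,k181)],[(k4,k137),(k5,k137),(k9,k146),(k0,k153),(k6,k161),(k7,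
    k161),(k2,k166),(k3,k168)],[(k8,k146),(k1,k153),(k10,k153),(k11,k153)],[(k8,k153),(k1,k160),(k10,k160),(k11,
    k160)],[(k8,k153),(k1,k160),(k10,k160),(k11,k160)]]
    [[k1,k0,k1,k0,k1,k0],[k1,k0,k0,k0,k1,k1],[k0,k1,k2,k0,k0,k0],[k0,k0,k3,k0,k0,k0],[k0,k0,k2,k1,k0,k0],[k0,k0,k1,k0,
    k2,k0],[k0,k0,k0,k1,k2,k0],[k0,k0,k0,k0,k2,k1]]
    [.ref k14 k0 [(z1,[y1,z2,z0,z1]),(z1,[y6,z6,z1,z6]),(z1,[z2,y2,z0,y1]),(z1,[z1,y1,z0,y1])],.ref k25 k1 [(z1,[z3,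
    z3,z1,z3,y3]),(z1,[y3,z0,y1,y3,z3]),(z1,[z0,z2,z0,z1]),(z1,[z0,y6,z1])],.ref k42 k0 [(z2,[y3,z6,z1,z6]),(z1,[y3,
    z0,z2,z6]),(z1,[z3,z0,y1,y3]),(z2,[z3,z0,y1,y6])],.ref k42 k0 [(z2,[y1,z6,z0,z3]),(z1,[y1,z0,z1,z3]),(z1,[z1]),
    (z2,[z1,z0,z0,y3])],.ref k43 k0 [(z1,[y1,z5,z0,z2]),(z1,[y6,z0,z5,z12]),(z1,[z2,z0,z0,z1]),(z1,[z1,z0,z0,y2])],
    .ref k14 k0 [(z2,[y1,z2,z0,z1]),(z1,[y3,z0,z1,z3]),(z1,[z1]),(z2,[z1,z0,z0,y1])],.ref k14 k0 [(z1,[y1,z1]),(z1,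
    [y6,z0,z1]),(z1,[z2,z0,z0,z1]),(z1,[z1])],.ref k5 k1 [(z2,[z3,z3,z1,z3,y3]),(z2,[y3,z3,y1,y3,z3]),(z1,[z0,z2,z0,
    z1]),(z1,[z0,y6,z1])]],
    .lp k0 [k18,k16,k16,k16,k16,k12] [k0,k0,k1,k1,k1,k1,k1,k1,k1,k1,k3,k3] k0 [[k0,k0,k0,k0,k0,k0,k0,k0,k0,k0,k0,k0],
    [k0,k0,k0,k0,k0,k0,k0,k0,k0,k0,k0,k0],[k0,k0,k0,k0,k0,k0,k0,k0,k0,k0,k0,k0],[k0,k0,k0,k0,k0,k0,k0,k0,k0,k0,k0,k0],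
    [k0,k0,k0,k0,k0,k0,k0,k0,k0,k0,k0,k0],[k0,k0,k0,k0,k0,k0,k0,k0,k0,k0,k0,k0],[k0,k0,k0,k0,k0,k0,k0,k0,k0,k0,k0,k0],
    [k0,k0,k0,k0,k0,k0,k0,k0,k0,k0,k0,k0],[k0,k0,k0,k0,k0,k0,k0,k0,k0,k0,k0,k0],[k0,k0,k0,k0,k0,k0,k0,k0,k0,k0,k0,k0],
    [k0,k0,k0,k0,k0,k0,k0,k0,k0,k0,k0,k0],[k0,k0,k0,k0,k0,k0,k0,k0,k0,k0,k0,k0]] k48 k5
    [[(k10,k15),(k11,k15),(k8,k17),(k1,k18)],[(k2,k17),(k3,k17),(k4,k17),(k5,k17),(k6,k17),(k7,k17),(k9,k17),(k0,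
    k18)],[(k2,k16),(k3,k16),(k4,k16),(k5,k16),(k6,k16),(k7,k16),(k9,k16),(k0,k17)],[(k2,k16),(k3,k16),(k4,k16),(k5,
    k16),(k6,k16),(k7,k16),(k9,k16),(k0,k17)],[(k2,k16),(k3,k16),(k4,k16),(k5,k16),(k6,k16),(k7,k16),(k9,k16),(k0,
    k17)],[(k2,k16),(k3,k16),(k4,k16),(k5,k16),(k6,k16),(k7,k16),(k9,k16),(k0,k17)],[(k2,k16),(k3,k16),(k4,k16),(k5,
    k16),(k6,k16),(k7,k16),(k9,k16),(k0,k17)],[(k2,k16),(k3,k16),(k4,k16),(k5,k16),(k6,k16),(k7,k16),(k9,k16),(k0,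
    k17)],[(k2,k16),(k3,k16),(k4,k16),(k5,k16),(k6,k16),(k7,k16),(k9,k16),(k0,k17)],[(k10,k14),(k11,k14),(k8,k16),(k1,
    k17)],[(k10,k12),(k11,k12),(k8,k14),(k1,k15)],[(k10,k12),(k11,k12),(k8,k14),(k1,k15)]]
    [[k1,k0,k0,k0,k1,k1],[k0,k0,k0,k0,k2,k1],[k0,k0,k0,k0,k0,k3]]
    [.ref k41 k1 [(z1,[z1]),(z1,[y1,z1]),(z1,[z0,z1,y1,z1])],.ref k6 k1 [(z1,[z1]),(z1,[y1,z2]),(z1,[z0,z1,y1,z1])],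
    .ref k44 k0 [(z1,[z0,z1]),(z1,[y1,z0,z3]),(z1,[z0,y1,y1,z1])]],
    .base (.leafM k0 [k0,k1,k2,k3,k4,k5] [(z3,[z0,z1,z1,z1])] []),
    .lp k0 [k16,k16,k16,k16,k18,k12] [k1,k1,k1,k1,k1,k1,k1,k1,k0,k0,k3,k3] k0 [[k0,k0,k0,k0,k0,k0,k0,k0,k0,k0,k0,k0],
    [k0,k0,k0,k0,k0,k0,k0,k0,k0,k0,k0,k0],[k0,k0,k0,k0,k0,k0,k0,k0,k0,k0,k0,k0],[k0,k0,k0,k0,k0,k0,k0,k0,k0,k0,k0,k0],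
    [k0,k0,k0,k0,k0,k0,k0,k0,k0,k0,k0,k0],[k0,k0,k0,k0,k0,k0,k0,k0,k0,k0,k0,k0],[k0,k0,k0,k0,k0,k0,k0,k0,k0,k0,k0,k0],
    [k0,k0,k0,k0,k0,k0,k0,k0,k0,k0,k0,k0],[k0,k0,k0,k0,k0,k0,k0,k0,k0,k0,k0,k0],[k0,k0,k0,k0,k0,k0,k0,k0,k0,k0,k0,k0],
    [k0,k0,k0,k0,k0,k0,k0,k0,k0,k0,k0,k0],[k0,k0,k0,k0,k0,k0,k0,k0,k0,k0,k0,k0]] k48 k5
    [[(k10,k14),(k11,k14),(k1,k16),(k8,k17)],[(k0,k16),(k2,k16),(k3,k16),(k4,k16),(k5,k16),(k6,k16),(k7,k16),(k9,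
    k17)],[(k0,k16),(k2,k16),(k3,k16),(k4,k16),(k5,k16),(k6,k16),(k7,k16),(k9,k17)],[(k0,k16),(k2,k16),(k3,k16),(k4,
    k16),(k5,k16),(k6,k16),(k7,k16),(k9,k17)],[(k0,k16),(k2,k16),(k3,k16),(k4,k16),(k5,k16),(k6,k16),(k7,k16),(k9,
    k17)],[(k0,k16),(k2,k16),(k3,k16),(k4,k16),(k5,k16),(k6,k16),(k7,k16),(k9,k17)],[(k0,k16),(k2,k16),(k3,k16),(k4,
    k16),(k5,k16),(k6,k16),(k7,k16),(k9,k17)],[(k0,k16),(k2,k16),(k3,k16),(k4,k16),(k5,k16),(k6,k16),(k7,k16),(k9,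
    k17)],[(k0,k17),(k2,k17),(k3,k17),(k4,k17),(k5,k17),(k6,k17),(k7,k17),(k9,k18)],[(k10,k15),(k11,k15),(k1,k17),(k8,
    k18)],[(k10,k12),(k11,k12),(k1,k14),(k8,k15)],[(k10,k12),(k11,k12),(k1,k14),(k8,k15)]]
    [[k2,k0,k0,k0,k0,k1],[k1,k0,k0,k0,k1,k1],[k0,k0,k0,k0,k0,k3]]
    [.ref k3 k0 [(z1,[z1,z1]),(z2,[y1,z2,z3]),(z2,[y1,z2,z0,z3]),(z2,[y1,z2,z0,z0,z3]),(z2,[y1,y4,y3,y3,y3,z6])],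
    .ref k3 k0 [(z1,[z2,z3,z1,z1,z1,y2]),(z2,[y2,z0,z2,y1,y1,z2]),(z2,[y2,z0,y1,z2,y1,z2]),(z2,[y2,z0,y1,y1,z2,z2]),
    (z1,[y1,y3,y2,y2,y2,z4])],.ref k3 k0 [(z1,[z1,z3]),(z2,[y1,z0,z3]),(z2,[y1,z0,z0,z3]),(z2,[y1,z0,z0,z0,z3]),(z2,
    [y1,y6,y3,y3,y3,z6])]]]

theorem hB6_104_3 : blkB [0, 0, 0, 0, 1, 1] [] sp6 hS6_104 (pcls (n := 6) [0, 0, 0, 0, 1, 1]) hD6_104 181 3 hN6_104_3 = true := by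
  decide +kernel

/-- nodes 48 to 59 -/
noncomputable def hN6_104_4 : List HM :=
  [.lp k0 [k18,k16,k16,k16,k16,k12] [k0,k0,k1,k1,k1,k1,k1,k1,k1,k1,k3,k3] k0 [[k0,k0,k0,k0,k0,k0,k0,k0,k0,k0,k0,k0],
    [k0,k0,k0,k0,k0,k0,k0,k0,k0,k0,k0,k0],[k0,k0,k0,k0,k0,k0,k0,k0,k0,k0,k0,k0],[k0,k0,k0,k0,k0,k0,k0,k0,k0,k0,k0,k0],
    [k0,k0,k0,k0,k0,k0,k0,k0,k0,k0,k0,k0],[k0,k0,k0,k0,k0,k0,k0,k0,k0,k0,k0,k0],[k0,k0,k0,k0,k0,k0,k0,k0,k0,k0,k0,k0],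
    [k0,k0,k0,k0,k0,k0,k0,k0,k0,k0,k0,k0],[k0,k0,k0,k0,k0,k0,k0,k0,k0,k0,k0,k0],[k0,k0,k0,k0,k0,k0,k0,k0,k0,k0,k0,k0],
    [k0,k0,k0,k0,k0,k0,k0,k0,k0,k0,k0,k0],[k0,k0,k0,k0,k0,k0,k0,k0,k0,k0,k0,k0]] k48 k5
    [[(k10,k15),(k11,k15),(k8,k17),(k1,k18)],[(k2,k17),(k3,k17),(k4,k17),(k5,k17),(k6,k17),(k7,k17),(k9,k17),(k0,
    k18)],[(k2,k16),(k3,k16),(k4,k16),(k5,k16),(k6,k16),(k7,k16),(k9,k16),(k0,k17)],[(k2,k16),(k3,k16),(k4,k16),(k5,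
    k16),(k6,k16),(k7,k16),(k9,k16),(k0,k17)],[(k2,k16),(k3,k16),(k4,k16),(k5,k16),(k6,k16),(k7,k16),(k9,k16),(k0,
    k17)],[(k2,k16),(k3,k16),(k4,k16),(k5,k16),(k6,k16),(k7,k16),(k9,k16),(k0,k17)],[(k2,k16),(k3,k16),(k4,k16),(k5,
    k16),(k6,k16),(k7,k16),(k9,k16),(k0,k17)],[(k2,k16),(k3,k16),(k4,k16),(k5,k16),(k6,k16),(k7,k16),(k9,k16),(k0,
    k17)],[(k2,k16),(k3,k16),(k4,k16),(k5,k16),(k6,k16),(k7,k16),(k9,k16),(k0,k17)],[(k10,k14),(k11,k14),(k8,k16),(k1,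
    k17)],[(k10,k12),(k11,k12),(k8,k14),(k1,k15)],[(k10,k12),(k11,k12),(k8,k14),(k1,k15)]]
    [[k1,k0,k0,k0,k1,k1],[k0,k0,k0,k0,k2,k1],[k0,k0,k0,k0,k0,k3]]
    [.ref k46 k0 [(z1,[z1,z1]),(z2,[y2,z1,z3]),(z2,[y2,z1,z0,z3]),(z2,[y2,y2,y3,y3,z6])],.ref k47 k0 [(z2,[y1,z1]),
    (z1,[z0,z0,z1]),(z1,[z0,z0,z0,z1]),(z1,[z0,y1,y1,y1,z2])],.ref k46 k0 [(z2,[z1,z3]),(z2,[y1,z0,z3]),(z2,[y1,z0,z0,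
    z3]),(z2,[y1,y3,y3,y3,z6])]],
    .base (.leafM k0 [k0,k1,k2,k3,k4,k5] [(z1,[y1,z0,z0,z1])] []),
    .base (.leafM k0 [k0,k1,k2,k3,k4,k5] [(z1,[z0,z1,z1,z1])] []),
    .lp k0 [k32,k36,k24,k36,k30,k32] [k2,k2,k0,k0,k6,k6,k0,k0,k3,k3,k2,k2] k0 [[k0,k0,k0,k0,k0,k0,k0,k0,k0,k0,k0,k0],
    [k0,k0,k0,k0,k0,k0,k0,k0,k0,k0,k0,k0],[k0,k0,k0,k0,k0,k0,k0,k0,k0,k0,k0,k0],[k0,k0,k0,k0,k0,k0,k0,k0,k0,k0,k0,k0],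
    [k0,k0,k0,k0,k0,k0,k0,k0,k0,k0,k0,k0],[k0,k0,k0,k0,k0,k0,k0,k0,k0,k0,k0,k0],[k0,k0,k0,k0,k0,k0,k0,k0,k0,k0,k0,k0],
    [k0,k0,k0,k0,k0,k0,k0,k0,k0,k0,k0,k0],[k0,k0,k0,k0,k0,k0,k0,k0,k0,k0,k0,k0],[k0,k0,k0,k0,k0,k0,k0,k0,k0,k0,k0,k0],
    [k0,k0,k0,k0,k0,k0,k0,k0,k0,k0,k0,k0],[k0,k0,k0,k0,k0,k0,k0,k0,k0,k0,k0,k0]] k96 k5
    [[(k8,k31),(k1,k32),(k10,k32),(k11,k32)],[(k4,k28),(k5,k28),(k9,k31),(k0,k32),(k2,k34),(k3,k34),(k6,k34),(k7,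
    k34)],[(k4,k30),(k5,k30),(k9,k33),(k0,k34),(k2,k36),(k3,k36),(k6,k36),(k7,k36)],[(k4,k30),(k5,k30),(k9,k33),(k0,
    k34),(k2,k36),(k3,k36),(k6,k36),(k7,k36)],[(k4,k24),(k5,k24),(k9,k27),(k0,k28),(k2,k30),(k3,k30),(k6,k30),(k7,
    k30)],[(k4,k24),(k5,k24),(k9,k27),(k0,k28),(k2,k30),(k3,k30),(k6,k30),(k7,k30)],[(k4,k30),(k5,k30),(k9,k33),(k0,
    k34),(k2,k36),(k3,k36),(k6,k36),(k7,k36)],[(k4,k30),(k5,k30),(k9,k33),(k0,k34),(k2,k36),(k3,k36),(k6,k36),(k7,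
    k36)],[(k4,k27),(k5,k27),(k9,k30),(k0,k31),(k2,k33),(k3,k33),(k6,k33),(k7,k33)],[(k8,k30),(k1,k31),(k10,k31),(k11,
    k31)],[(k8,k31),(k1,k32),(k10,k32),(k11,k32)],[(k8,k31),(k1,k32),(k10,k32),(k11,k32)]]
    [[k2,k0,k1,k0,k0,k0],[k1,k0,k1,k0,k1,k0],[k1,k0,k0,k0,k1,k1],[k0,k1,k2,k0,k0,k0],[k0,k0,k3,k0,k0,k0],[k0,k0,k2,k1,
    k0,k0],[k0,k0,k1,k0,k2,k0],[k0,k0,k0,k0,k2,k1]]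
    [.ref k3 k0 [(z1,[z0,z1]),(z1,[y3,z2,z1,z3]),(z1,[z3,y2]),(z1,[y3,z2,z0,z3,z1]),(z1,[z3,y2,z0,y3])],
    .ref k3 k0 [(z1,[z0,z1]),(z2,[y3,z1,z2,z3]),(z2,[z3,y1,z0,z3]),(z2,[y3,z1,z0,z3,z2]),(z2,[z3,y1,z0,y3])],
    .ref k3 k0 [(z1,[z0,z1]),(z1,[y3,z0,z0,y3,y1,z3]),(z1,[z3,z0,z1,z6,z1,y3]),(z1,[y3,z0,y1,y3,z0,z3]),(z1,[z3,z0,z1,
    z3,z1,y3])],.ref k3 k0 [(z1,[z0,z1]),(z1,[y3,z0,z2,z6]),(z1,[z3,z0,y1,y3]),(z1,[y3,z0,z1,z6,z1]),(z1,[z3,z0,y1,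
    y6])],.ref k3 k0 [(z1,[z0,z1]),(z1,[y1,z0,z1,z3]),(z1,[z1]),(z1,[y1,z0,z0,z3,z1]),(z1,[z1,z0,z0,y3])],
    .ref k3 k0 [(z1,[z0,z1]),(z1,[y3,z0,z1,z6,z1]),(z1,[z3,z0,z0,y3,y1]),(z1,[y3,z0,z0,z6,z2]),(z1,[z3,z0,z0,y6,y1])],
    .ref k3 k0 [(z1,[z0,z1]),(z1,[y1,z0,z1,z1]),(z1,[z1,z0,z0,z2]),(z1,[y1,z0,z0,z1,z1]),(z1,[z1,z0,z0,y1])],
    .ref k3 k0 [(z1,[z0,z1]),(z2,[y3,y1,z1,y3,y1,z3]),(z2,[z3,z1,z1,z9,z1,y3]),(z2,[y3,y1,y1,y3,z1,z3]),(z2,[z3,z1,z1,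
    z3,z1,y3])]],
    .lp k0 [k18,k16,k16,k16,k16,k12] [k0,k0,k1,k1,k1,k1,k1,k1,k1,k1,k3,k3] k0 [[k0,k0,k0,k0,k0,k0,k0,k0,k0,k0,k0,k0],
    [k0,k0,k0,k0,k0,k0,k0,k0,k0,k0,k0,k0],[k0,k0,k0,k0,k0,k0,k0,k0,k0,k0,k0,k0],[k0,k0,k0,k0,k0,k0,k0,k0,k0,k0,k0,k0],
    [k0,k0,k0,k0,k0,k0,k0,k0,k0,k0,k0,k0],[k0,k0,k0,k0,k0,k0,k0,k0,k0,k0,k0,k0],[k0,k0,k0,k0,k0,k0,k0,k0,k0,k0,k0,k0],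
    [k0,k0,k0,k0,k0,k0,k0,k0,k0,k0,k0,k0],[k0,k0,k0,k0,k0,k0,k0,k0,k0,k0,k0,k0],[k0,k0,k0,k0,k0,k0,k0,k0,k0,k0,k0,k0],
    [k0,k0,k0,k0,k0,k0,k0,k0,k0,k0,k0,k0],[k0,k0,k0,k0,k0,k0,k0,k0,k0,k0,k0,k0]] k48 k5
    [[(k10,k15),(k11,k15),(k8,k17),(k1,k18)],[(k2,k17),(k3,k17),(k4,k17),(k5,k17),(k6,k17),(k7,k17),(k9,k17),(k0,
    k18)],[(k2,k16),(k3,k16),(k4,k16),(k5,k16),(k6,k16),(k7,k16),(k9,k16),(k0,k17)],[(k2,k16),(k3,k16),(k4,k16),(k5,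
    k16),(k6,k16),(k7,k16),(k9,k16),(k0,k17)],[(k2,k16),(k3,k16),(k4,k16),(k5,k16),(k6,k16),(k7,k16),(k9,k16),(k0,
    k17)],[(k2,k16),(k3,k16),(k4,k16),(k5,k16),(k6,k16),(k7,k16),(k9,k16),(k0,k17)],[(k2,k16),(k3,k16),(k4,k16),(k5,
    k16),(k6,k16),(k7,k16),(k9,k16),(k0,k17)],[(k2,k16),(k3,k16),(k4,k16),(k5,k16),(k6,k16),(k7,k16),(k9,k16),(k0,
    k17)],[(k2,k16),(k3,k16),(k4,k16),(k5,k16),(k6,k16),(k7,k16),(k9,k16),(k0,k17)],[(k10,k14),(k11,k14),(k8,k16),(k1,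
    k17)],[(k10,k12),(k11,k12),(k8,k14),(k1,k15)],[(k10,k12),(k11,k12),(k8,k14),(k1,k15)]]
    [[k1,k0,k0,k0,k1,k1],[k0,k0,k0,k0,k2,k1],[k0,k0,k0,k0,k0,k3]]
    [.ref k50 k0 [(z1,[z0,z1]),(z2,[y2,z1,z1]),(z2,[z2,y1,z0,z1]),(z2,[y2,z0,y1,y1,z2])],.ref k50 k0 [(z1,[z0,z1]),
    (z2,[y1,z0,z1]),(z2,[z1,z0,z0,z1]),(z2,[y1,y1,y1,y1,z2])],.ref k51 k0 [(z2,[y1,z3]),(z2,[z1,z0,z3]),(z2,[y1,z0,z0,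
    z1]),(z2,[z1,y3,y3,y3,z6])]],
    .lp k0 [k148,k160,k184,k160,k146,k154] [k18,k18,k12,k12,k0,k0,k12,k12,k19,k19,k15,k15] k0 [[k0,k0,k0,k0,k0,k0,k0,
    k0,k0,k0,k0,k0],[k0,k0,k48,k0,k0,k48,k0,k0,k0,k0,k0,k0],[k0,k0,k0,k0,k0,k0,k0,k0,k0,k0,k0,k0],[k48,k0,k0,k0,k0,k0,
    k0,k48,k0,k0,k0,k0],[k48,k0,k0,k0,k0,k0,k0,k48,k0,k0,k0,k0],[k0,k0,k0,k0,k0,k0,k0,k0,k0,k0,k0,k0],[k0,k0,k48,k0,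
    k0,k48,k0,k0,k0,k0,k0,k0],[k0,k0,k0,k0,k0,k0,k0,k0,k0,k0,k0,k0],[k0,k0,k0,k0,k0,k0,k0,k0,k0,k0,k22,k30],[k0,k0,k0,
    k0,k0,k0,k0,k0,k4,k0,k0,k0],[k0,k0,k0,k0,k0,k0,k0,k0,k0,k30,k0,k0],[k0,k0,k0,k0,k0,k0,k0,k0,k0,k22,k0,
    k0]] (nat_lit 480) k5
    [[(k8,k125),(k1,k148),(k10,k151),(k11,k181)],[(k9,k147),(k0,k148),(k3,k154),(k6,k154),(k4,k166),(k5,k166),(k2,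
    (nat_lit 202)),(k7,(nat_lit 202))],[(k4,k124),(k5,k124),(k9,k153),(k0,k154),(k2,k160),(k3,k160),(k6,k160),(k7,
    k160)],[(k2,k160),(k3,k160),(k6,k160),(k7,k160),(k4,k172),(k5,k172),(k9,(nat_lit 201)),(k0,(nat_lit 202))],[(k3,
    k124),(k6,k124),(k9,k165),(k0,k166),(k2,k172),(k7,k172),(k4,k184),(k5,k184)],[(k3,k124),(k6,k124),(k9,k165),(k0,
    k166),(k2,k172),(k7,k172),(k4,k184),(k5,k184)],[(k2,k160),(k3,k160),(k6,k160),(k7,k160),(k4,k172),(k5,k172),(k9,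
    (nat_lit 201)),(k0,(nat_lit 202))],[(k4,k124),(k5,k124),(k9,k153),(k0,k154),(k2,k160),(k3,k160),(k6,k160),(k7,
    k160)],[(k9,k146),(k0,k147),(k3,k153),(k6,k153),(k4,k165),(k5,k165),(k2,(nat_lit 201)),(k7,(nat_lit 201))],[(k10,
    k120),(k1,k125),(k8,k150),(k11,k150)],[(k8,k150),(k11,k150),(k10,k176),(k1,k181)],[(k8,k120),(k1,k151),(k10,k154),
    (k11,k176)]]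
    [[k1,k0,k1,k0,k1,k0],[k1,k0,k0,k0,k1,k1],[k0,k2,k1,k0,k0,k0],[k0,k1,k1,k1,k0,k0],[k0,k0,k1,k2,k0,k0],[k0,k0,k0,k0,
    k2,k1]]
    [.ref k48 k0 [(z1,[z1,z2,z1,y1]),(z1,[y1,z0,z1,z1]),(z1,[z1,y2,y1,z1])],.ref k49 k0 [(z1,[z1]),(z1,[y1,z1,z1]),
    (z1,[z1,y2,y1,z1])],.ref k49 k0 [(z1,[y1,z0,z1,z1]),(z1,[z1,z1,z0,y1]),(z1,[y1,y2,z0,z2])],.ref k49 k0 [(z1,[y1,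
    z0,z0,z1]),(z1,[z1,z1,z1,y1]),(z1,[y1,y2,y1,z2])],.ref k49 k0 [(z1,[y1,z0,y1,z1]),(z1,[z1,z1,z2,y1]),(z1,[y1,y2,
    y2,z2])],.ref k52 k1 [(z1,[z1]),(z1,[y1,z2]),(z1,[z1,y4,y2,z2])]],
    .base (.leafM k0 [k0,k1,k2,k3,k4,k5] [(z1,[y1,z0,z0,z1])] []),
    .lp k0 [k16,k16,k16,k16,k18,k12] [k1,k1,k1,k1,k1,k1,k1,k1,k0,k0,k3,k3] k0 [[k0,k0,k0,k0,k0,k0,k0,k0,k0,k0,k0,k0],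
    [k0,k0,k0,k0,k0,k0,k0,k0,k0,k0,k0,k0],[k0,k0,k0,k0,k0,k0,k0,k0,k0,k0,k0,k0],[k0,k0,k0,k0,k0,k0,k0,k0,k0,k0,k0,k0],
    [k0,k0,k0,k0,k0,k0,k0,k0,k0,k0,k0,k0],[k0,k0,k0,k0,k0,k0,k0,k0,k0,k0,k0,k0],[k0,k0,k0,k0,k0,k0,k0,k0,k0,k0,k0,k0],
    [k0,k0,k0,k0,k0,k0,k0,k0,k0,k0,k0,k0],[k0,k0,k0,k0,k0,k0,k0,k0,k0,k0,k0,k0],[k0,k0,k0,k0,k0,k0,k0,k0,k0,k0,k0,k0],
    [k0,k0,k0,k0,k0,k0,k0,k0,k0,k0,k0,k0],[k0,k0,k0,k0,k0,k0,k0,k0,k0,k0,k0,k0]] k48 k5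
    [[(k10,k14),(k11,k14),(k1,k16),(k8,k17)],[(k0,k16),(k2,k16),(k3,k16),(k4,k16),(k5,k16),(k6,k16),(k7,k16),(k9,
    k17)],[(k0,k16),(k2,k16),(k3,k16),(k4,k16),(k5,k16),(k6,k16),(k7,k16),(k9,k17)],[(k0,k16),(k2,k16),(k3,k16),(k4,
    k16),(k5,k16),(k6,k16),(k7,k16),(k9,k17)],[(k0,k16),(k2,k16),(k3,k16),(k4,k16),(k5,k16),(k6,k16),(k7,k16),(k9,
    k17)],[(k0,k16),(k2,k16),(k3,k16),(k4,k16),(k5,k16),(k6,k16),(k7,k16),(k9,k17)],[(k0,k16),(k2,k16),(k3,k16),(k4,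
    k16),(k5,k16),(k6,k16),(k7,k16),(k9,k17)],[(k0,k16),(k2,k16),(k3,k16),(k4,k16),(k5,k16),(k6,k16),(k7,k16),(k9,
    k17)],[(k0,k17),(k2,k17),(k3,k17),(k4,k17),(k5,k17),(k6,k17),(k7,k17),(k9,k18)],[(k10,k15),(k11,k15),(k1,k17),(k8,
    k18)],[(k10,k12),(k11,k12),(k1,k14),(k8,k15)],[(k10,k12),(k11,k12),(k1,k14),(k8,k15)]]
    [[k2,k0,k0,k0,k0,k1],[k1,k0,k0,k0,k1,k1],[k0,k0,k0,k0,k0,k3]]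
    [.ref k3 k0 [(z4,[z3,z1]),(z1,[z0,z0,z1]),(z1,[z0,z0,z0,z1]),(z2,[y3,z1,z0,z0,z2]),(z4,[y3,y1,y4,y4,y4,z12])],
    .ref k3 k0 [(z2,[z3,z1,z1,z1,z1,y3]),(z1,[z0,z0,z1]),(z1,[z0,z0,z0,z1]),(z1,[y3,z0,y1,y1,z0,z3]),(z2,[y3,y1,y3,y3,
    y3,z9])],.ref k3 k0 [(z2,[z1,z1]),(z1,[z0,z0,z1]),(z1,[z0,z0,z0,z1]),(z1,[y1,z0,z0,z0,z1]),(z2,[y1,y1,y2,y2,y2,
    z6])]],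
    .lp k0 [k78,k84,k84,k78,k72,k80] [k3,k3,k0,k0,k0,k0,k3,k3,k6,k6,k2,k2] k0 [[k0,k0,k0,k0,k0,k0,k6,k6,k0,k0,k0,k0],
    [k0,k0,k0,k12,k0,k0,k0,k0,k0,k0,k0,k0],[k12,k0,k0,k0,k0,k0,k0,k6,k0,k0,k0,k0],[k0,k0,k0,k0,k0,k0,k0,k6,k0,k0,k0,
    k0],[k0,k0,k0,k0,k0,k0,k6,k0,k0,k0,k0,k0],[k0,k0,k0,k0,k0,k0,k6,k0,k0,k0,k0,k0],[k0,k6,k6,k6,k0,k0,k0,k0,k0,k0,k0,
    k0],[k0,k6,k0,k0,k6,k6,k0,k0,k0,k0,k0,k0],[k0,k0,k0,k0,k0,k0,k0,k0,k0,k0,k0,k0],[k0,k0,k0,k0,k0,k0,k0,k0,k0,k0,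
    k16,k0],[k0,k0,k0,k0,k0,k0,k0,k0,k0,k0,k0,k0],[k0,k0,k0,k0,k0,k0,k0,k0,k16,k0,k0,k0]] (nat_lit 240) k5
    [[(k11,k63),(k8,k75),(k1,k78),(k10,k79)],[(k9,k69),(k6,k72),(k0,k78),(k7,k78),(k2,k81),(k3,k81),(k4,k81),(k5,
    k93)],[(k2,k72),(k0,k81),(k7,k81),(k3,k84),(k4,k84),(k5,k84),(k9,k84),(k6,k87)],[(k3,k72),(k6,k75),(k0,k81),(k7,
    k81),(k2,k84),(k4,k84),(k5,k84),(k9,k84)],[(k6,k75),(k7,k81),(k2,k84),(k3,k84),(k4,k84),(k5,k84),(k9,k84),(k0,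
    k93)],[(k9,k72),(k0,k81),(k7,k81),(k2,k84),(k3,k84),(k4,k84),(k5,k84),(k6,k87)],[(k9,k69),(k0,k78),(k7,k78),(k2,
    k81),(k3,k81),(k4,k81),(k5,k81),(k6,k84)],[(k0,k72),(k2,k75),(k5,k75),(k9,k75),(k6,k78),(k7,k84),(k3,k87),(k4,
    k87)],[(k0,k69),(k7,k69),(k4,k72),(k9,k72),(k6,k75),(k2,k84),(k3,k84),(k5,k84)],[(k8,k72),(k1,k75),(k11,k76),(k10,
    k92)],[(k1,k63),(k8,k76),(k10,k80),(k11,k80)],[(k1,k79),(k10,k80),(k11,k80),(k8,k92)]]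
    [[k2,k0,k0,k1,k0,k0],[k1,k0,k0,k1,k1,k0],[k2,k0,k0,k0,k0,k1],[k1,k0,k0,k0,k1,k1],[k0,k3,k0,k0,k0,k0],[k0,k2,k0,k1,
    k0,k0],[k0,k0,k1,k0,k2,k0],[k0,k0,k0,k1,k2,k0]]
    [.ref k3 k0 [(z1,[z1,z1]),(z1,[y1,z2,z1]),(z1,[y1,z2,z0,z1]),(z1,[z1,y2]),(z1,[z0,z0,z0,z0,z1])],.ref k3 k0 [(z2,
    [z3,z3,z0,z0,y1]),(z2,[y3,z3,z2,z0,z1]),(z2,[y3,z3,z0,z2,z1]),(z2,[z3,y3,z0,z0,y1]),(z1,[z0,z0,z0,z0,z1])],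
    .ref k3 k0 [(z2,[z3,z3,z1,z1,z1,y3]),(z2,[y3,z3,z1,y1,y1,z3]),(z2,[y3,z3,y1,z1,y1,z3]),(z2,[z3,y3,z1,z1,z1,y3]),
    (z1,[z0,z0,z0,z0,z1])],.ref k3 k0 [(z1,[z3,z3,z1,z1,z0,y3]),(z1,[y3,z0,z0,y1,z0,z3]),(z1,[y3,z0,y1,z0,z0,z3]),(z1,
    [z3,z0,z1,z1,z0,y3]),(z1,[z0,z0,z0,z0,z1])],.ref k3 k0 [(z1,[y1,z3,z1]),(z1,[z1]),(z1,[z1,z0,y1,z1]),(z1,[y1,z0,
    z1]),(z1,[z0,z0,z0,z0,z1])],.ref k3 k0 [(z1,[y3,z3,z2]),(z1,[z3,z0,y1]),(z1,[z3,z0,y2,z1]),(z1,[y3,z0,z2]),(z1,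
    [z0,z0,z0,z0,z1])],.ref k3 k0 [(z1,[y3,z3,z0,z1,z2]),(z1,[z3,z0,z1,y1,y2]),(z1,[z3,z0,z0,z0,y2]),(z1,[y3,z0,z0,z1,
    z2]),(z1,[z0,z0,z0,z0,z1])],.ref k3 k0 [(z1,[z3,z3,z0,z0,y2]),(z1,[y3,z0,z1,z0,z2]),(z1,[y3,z0,z0,z1,z2]),(z1,[z3,
    z0,z0,z0,y2]),(z1,[z0,z0,z0,z0,z1])]],
    .lp k0 [k120,k112,k112,k112,k126,k84] [k3,k3,k7,k7,k7,k7,k7,k7,k0,k0,k21,k21] k0 [[k0,k0,k14,k0,k0,k0,k0,k0,k0,k0,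
    k0,k0],[k14,k0,k0,k0,k0,k0,k0,k0,k0,k0,k0,k0],[k0,k0,k0,k0,k0,k0,k0,k0,k0,k0,k0,k0],[k0,k14,k0,k0,k0,k0,k14,k0,k0,
    k0,k0,k0],[k0,k0,k0,k0,k0,k0,k0,k0,k0,k0,k0,k0],[k0,k0,k0,k0,k0,k0,k0,k0,k0,k0,k0,k0],[k0,k0,k0,k0,k0,k0,k0,k0,k0,
    k0,k0,k0],[k0,k0,k14,k0,k0,k0,k0,k0,k0,k0,k0,k0],[k0,k0,k0,k0,k0,k0,k0,k0,k0,k0,k0,k0],[k0,k0,k0,k0,k0,k0,k0,k0,
    k0,k0,k0,k0],[k0,k0,k0,k0,k0,k0,k0,k0,k0,k0,k0,k0],[k0,k0,k0,k0,k0,k0,k0,k0,k0,k0,k0,k0]] (nat_lit 336) k5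
    [[(k10,k102),(k11,k102),(k1,k120),(k8,k123)],[(k5,k102),(k2,k116),(k3,k116),(k4,k116),(k6,k116),(k7,k116),(k9,
    k123),(k0,k134)],[(k3,k98),(k4,k112),(k5,k112),(k6,k112),(k7,k112),(k0,k116),(k9,k119),(k2,k126)],[(k2,k112),(k4,
    k112),(k5,k112),(k7,k112),(k0,k116),(k9,k119),(k3,k126),(k6,k126)],[(k0,k102),(k9,k105),(k2,k112),(k3,k112),(k4,
    k112),(k5,k112),(k6,k112),(k7,k112)],[(k2,k112),(k3,k112),(k4,k112),(k5,k112),(k6,k112),(k7,k112),(k0,k116),(k9,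
    k119)],[(k2,k112),(k3,k112),(k4,k112),(k5,k112),(k6,k112),(k7,k112),(k0,k116),(k9,k119)],[(k3,k112),(k4,k112),(k5,
    k112),(k6,k112),(k7,k112),(k0,k116),(k9,k119),(k2,k126)],[(k5,k105),(k2,k119),(k3,k119),(k4,k119),(k6,k119),(k7,
    k119),(k0,k123),(k9,k126)],[(k10,k105),(k11,k105),(k1,k123),(k8,k126)],[(k10,k84),(k11,k84),(k1,k102),(k8,k105)],
    [(k10,k84),(k11,k84),(k1,k102),(k8,k105)]]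
    [[k1,k0,k0,k0,k1,k1],[k0,k2,k1,k0,k0,k0],[k0,k0,k0,k0,k0,k3]]
    [.ref k2 k0 [(z1,[z2,z1,z2,z2,y2]),(z1,[y1,z0,z0,y1,z1]),(z1,[y1,z0,y1,z0,z1]),(z1,[z1,z0,z1,z1,y1])],
    .ref k55 k0 [(z1,[y2,z3,z4,z2]),(z1,[z1,z0,z1,y1]),(z1,[z1,z0,y2,z2]),(z1,[y1,z0,z2,z1])],.ref k56 k0 [(z2,[z1,
    z1]),(z1,[y1,z0,z3]),(z1,[y1,z0,z0,z3]),(z2,[y1,y3,y6,y6,z6])]],
    .lp k0 [k42,k42,k42,k42,k30,k40] [k0,k0,k0,k0,k0,k0,k0,k0,k6,k6,k1,k1] k0 [[k0,k0,k0,k0,k0,k0,k0,k6,k0,k0,k0,k0],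
    [k0,k0,k0,k6,k0,k0,k0,k0,k0,k0,k0,k0],[k6,k0,k0,k0,k0,k0,k0,k6,k0,k0,k0,k0],[k0,k0,k0,k0,k0,k0,k0,k6,k0,k0,k0,k0],
    [k0,k0,k0,k0,k0,k0,k0,k0,k0,k0,k0,k0],[k0,k0,k0,k0,k0,k0,k0,k0,k0,k0,k0,k0],[k0,k6,k6,k6,k0,k0,k0,k0,k0,k0,k0,k0],
    [k0,k0,k0,k0,k0,k0,k0,k0,k0,k0,k0,k0],[k0,k0,k0,k0,k0,k0,k0,k0,k0,k0,k0,k0],[k0,k0,k0,k0,k0,k0,k0,k0,k0,k0,k0,k0],
    [k0,k0,k0,k0,k0,k0,k0,k0,k0,k0,k0,k0],[k0,k0,k0,k0,k0,k0,k0,k0,k0,k0,k0,k0]] k120 k5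
    [[(k8,k36),(k10,k41),(k11,k41),(k1,k42)],[(k6,k36),(k9,k36),(k0,k42),(k2,k42),(k3,k42),(k4,k42),(k7,k42),(k5,
    k48)],[(k2,k36),(k0,k42),(k3,k42),(k4,k42),(k5,k42),(k6,k42),(k7,k42),(k9,k42)],[(k3,k36),(k6,k36),(k0,k42),(k2,
    k42),(k4,k42),(k5,k42),(k7,k42),(k9,k42)],[(k6,k36),(k2,k42),(k3,k42),(k4,k42),(k5,k42),(k7,k42),(k9,k42),(k0,
    k48)],[(k9,k36),(k0,k42),(k2,k42),(k3,k42),(k4,k42),(k5,k42),(k6,k42),(k7,k42)],[(k9,k36),(k0,k42),(k2,k42),(k3,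
    k42),(k4,k42),(k5,k42),(k6,k42),(k7,k42)],[(k0,k36),(k2,k36),(k5,k36),(k9,k36),(k3,k42),(k4,k42),(k6,k42),(k7,
    k42)],[(k9,k30),(k0,k36),(k4,k36),(k6,k36),(k7,k36),(k2,k42),(k3,k42),(k5,k42)],[(k8,k30),(k10,k35),(k11,k35),(k1,
    k36)],[(k8,k35),(k10,k40),(k11,k40),(k1,k41)],[(k8,k35),(k10,k40),(k11,k40),(k1,k41)]]
    [[k1,k0,k0,k1,k1,k0],[k1,k0,k0,k0,k1,k1],[k0,k3,k0,k0,k0,k0],[k0,k2,k0,k1,k0,k0],[k0,k1,k0,k0,k2,k0],[k0,k0,k1,k0,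
    k2,k0],[k0,k0,k0,k1,k2,k0],[k0,k0,k0,k0,k2,k1]]
    [.ref k3 k0 [(z12,[y9,z5,z0,z0,z1]),(z6,[y9,z1,z2,z0,z1]),(z6,[y9,z1,z0,z2,z1]),(z6,[z9,y1,z0,z0,z1]),(z4,[z9,y1,
    z0,z0,y1])],.ref k3 k0 [(z6,[y9,z2,y1,y1,y1,z9]),(z3,[y9,z0,z0,y1,y1,z9]),(z3,[y9,z0,y1,z0,y1,z9]),(z3,[z9,z0,z1,
    z1,z2,y9]),(z2,[z9,z0,z1,z1,z1,y9])],.ref k3 k0 [(z6,[z3,z2,y1]),(z1,[z1]),(z3,[z3,z0,y1,z1]),(z3,[y3,z0,z1,z0,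
    z1]),(z2,[y3,z0,z1])],.ref k3 k0 [(z6,[z9,z2,y2,z0,y1]),(z3,[z9,z0,y1,z0,y1]),(z3,[z9,z0,y2,z1,y1]),(z3,[y9,z0,z2,
    z0,z2]),(z2,[y9,z0,z2,z0,z1])],.ref k3 k0 [(z12,[y9,z4,z1]),(z2,[y3,z0,z1]),(z6,[y9,z0,z1,z2]),(z6,[z9,z0,y1,z0,
    z2]),(z4,[z9,z0,y1])],.ref k3 k0 [(z12,[y9,z4,z0,z1]),(z6,[y9,z0,z2,z1]),(z2,[y3,z0,z0,z1]),(z6,[z9,z0,z0,y1,z2]),
    (z4,[z9,z0,z0,y1])],.ref k3 k0 [(z24,[y9,z8,z0,z0,z1]),(z12,[y9,z0,z4,z0,z1]),(z12,[y9,z0,z0,z4,z1]),(z4,[z3,z0,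
    z0,z0,z1]),(z8,[z9,z0,z0,z0,y1])],.ref k3 k0 [(z18,[y9,z5,y1,y1,y1,z9]),(z9,[y9,y1,z2,y1,y1,z9]),(z9,[y9,y1,y1,z2,
    y1,z9]),(z9,[z9,z1,z1,z1,z4,y9]),(z6,[z9,z1,z1,z1,z1,y9])]],
    .lp k0 [k42,k36,k42,k42,k36,k40] [k0,k0,k3,k3,k0,k0,k0,k0,k3,k3,k1,k1] k0 [[k0,k0,k0,k0,k0,k0,k0,k0,k0,k0,k0,k0],
    [k5,k0,k0,k0,k0,k0,k0,k0,k0,k0,k0,k0],[k0,k0,k0,k0,k0,k0,k0,k0,k0,k0,k0,k0],[k0,k0,k0,k0,k0,k0,k0,k0,k0,k0,k0,k0],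
    [k0,k0,k0,k0,k0,k0,k0,k0,k0,k0,k0,k0],[k0,k0,k0,k0,k0,k0,k0,k0,k0,k0,k0,k0],[k0,k0,k0,k0,k0,k0,k0,k0,k0,k0,k0,k0],
    [k0,k0,k0,k0,k0,k0,k0,k0,k0,k0,k0,k0],[k0,k0,k0,k0,k0,k0,k0,k0,k0,k0,k0,k0],[k0,k0,k0,k0,k0,k0,k0,k0,k0,k0,k8,k0],
    [k0,k0,k0,k0,k0,k0,k0,k0,k0,k0,k0,k0],[k0,k0,k0,k0,k0,k0,k0,k0,k8,k0,k0,k0]] k120 k5
    [[(k11,k33),(k8,k39),(k10,k41),(k1,k42)],[(k2,k39),(k3,k39),(k9,k39),(k4,k42),(k5,k42),(k6,k42),(k7,k42),(k0,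
    k47)],[(k3,k31),(k2,k36),(k9,k36),(k0,k39),(k4,k39),(k5,k39),(k6,k39),(k7,k39)],[(k2,k36),(k3,k36),(k9,k36),(k0,
    k39),(k4,k39),(k5,k39),(k6,k39),(k7,k39)],[(k2,k39),(k3,k39),(k9,k39),(k0,k42),(k4,k42),(k5,k42),(k6,k42),(k7,
    k42)],[(k2,k39),(k3,k39),(k9,k39),(k0,k42),(k4,k42),(k5,k42),(k6,k42),(k7,k42)],[(k2,k39),(k3,k39),(k9,k39),(k0,
    k42),(k4,k42),(k5,k42),(k6,k42),(k7,k42)],[(k2,k39),(k3,k39),(k9,k39),(k0,k42),(k4,k42),(k5,k42),(k6,k42),(k7,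
    k42)],[(k2,k36),(k3,k36),(k9,k36),(k0,k39),(k4,k39),(k5,k39),(k6,k39),(k7,k39)],[(k8,k36),(k11,k38),(k1,k39),(k10,
    k46)],[(k1,k33),(k8,k38),(k10,k40),(k11,k40)],[(k10,k40),(k11,k40),(k1,k41),(k8,k46)]]
    [[k1,k1,k0,k0,k1,k0],[k1,k0,k0,k0,k1,k1],[k0,k3,k0,k0,k0,k0],[k0,k2,k1,k0,k0,k0],[k0,k2,k0,k1,k0,k0],[k0,k1,k0,k0,
    k2,k0],[k0,k0,k1,k0,k2,k0],[k0,k0,k0,k1,k2,k0]]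
    [.ref k3 k0 [(z12,[y9,z5,z1]),(z6,[z9,y1,z1]),(z6,[y9,z1,z1,z2]),(z6,[y9,z1,z1,z0,z2]),(z4,[z9,y1,y1])],
    .ref k3 k0 [(z6,[y9,z2,y1,y1,y1,z9]),(z3,[z9,z0,z2,z1,z1,y9]),(z3,[y9,z0,y1,z0,y1,z9]),(z3,[y9,z0,y1,y1,z0,z9]),
    (z2,[z9,z0,z1,z1,z1,y9])],.ref k3 k0 [(z6,[y3,z2,z1]),(z1,[z1]),(z3,[y3,z0,z1,z1]),(z3,[y3,z0,z1,z0,z1]),(z2,[z3,
    z0,y1])],.ref k3 k0 [(z6,[y9,z2,z2,z1]),(z3,[z9,z0,y1,y1]),(z3,[y9,z0,z2,z2]),(z3,[y9,z0,z2,z1,z1]),(z2,[z9,z0,y2,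
    y1])],.ref k3 k0 [(z6,[y9,z2,z2,z0,z1]),(z3,[z9,z0,y1,z0,y1]),(z3,[y9,z0,z2,z1,z1]),(z3,[y9,z0,z2,z0,z2]),(z2,[z9,
    z0,y2,z0,y1])],.ref k3 k0 [(z24,[y9,z8,z1]),(z4,[z3,z0,z1]),(z12,[y9,z0,z1,z4]),(z12,[y9,z0,z1,z0,z4]),(z8,[z9,z0,
    y1])],.ref k3 k0 [(z12,[y9,z4,z0,z1]),(z6,[z9,z0,z2,y1]),(z2,[y3,z0,z0,z1]),(z6,[y9,z0,z0,z1,z2]),(z4,[z9,z0,z0,
    y1])],.ref k3 k0 [(z12,[y9,z4,z0,z0,z1]),(z6,[z9,z0,z2,z0,y1]),(z6,[y9,z0,z0,z2,z1]),(z2,[y3,z0,z0,z0,z1]),(z4,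
    [z9,z0,z0,z0,y1])]]]

theorem hB6_104_4 : blkB [0, 0, 0, 0, 1, 1] [] sp6 hS6_104 (pcls (n := 6) [0, 0, 0, 0, 1, 1]) hD6_104 181 4 hN6_104_4 = true := by
  decide +kernel

end Pool.Agent.Lib_MP_fa6e45
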