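import Pool.Agent.Lib_MP_fa6e45.HK

/-!
MP_fa6e45_co, stage 4: certificates (captain, generated by a program).
-/

namespace Pool.Agent.Lib_MP_fa6e45

/-- nodes 60 to 71 -/
noncomputable def hN6_104_5 : List HM :=
  [.lp k0 [k40,k42,k42,k42,k32,k40] [k1,k1,k0,k0,k0,k0,k0,k0,k5,k5,k1,k1] k0 [[k0,k0,k0,k0,k0,k0,k0,k8,k0,k0,k0,k0],
    [k0,k0,k0,k6,k0,k0,k0,k0,k0,k0,k0,k0],[k6,k0,k0,k0,k0,k0,k0,k6,k0,k0,k0,k0],[k0,k0,k0,k0,k0,k0,k0,k6,k0,k0,k0,k0],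
    [k0,k0,k0,k0,k0,k0,k0,k0,k0,k0,k0,k0],[k0,k0,k0,k0,k0,k0,k0,k0,k0,k0,k0,k0],[k0,k8,k6,k6,k0,k0,k0,k0,k0,k0,k0,k0],
    [k0,k0,k0,k0,k0,k0,k0,k0,k0,k0,k0,k0],[k0,k0,k0,k0,k0,k0,k0,k0,k0,k0,k0,k0],[k0,k0,k0,k0,k0,k0,k0,k0,k0,k0,k0,k0],
    [k0,k0,k0,k0,k0,k0,k0,k0,k0,k0,k0,k0],[k0,k0,k0,k0,k0,k0,k0,k0,k0,k0,k0,k0]] k120 k5
    [[(k8,k36),(k1,k40),(k10,k40),(k11,k40)],[(k6,k33),(k9,k36),(k0,k40),(k2,k41),(k3,k41),(k4,k41),(k7,k41),(k5,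
    k47)],[(k2,k36),(k0,k41),(k3,k42),(k4,k42),(k5,k42),(k6,k42),(k7,k42),(k9,k45)],[(k3,k36),(k6,k36),(k0,k41),(k2,
    k42),(k4,k42),(k5,k42),(k7,k42),(k9,k43)],[(k6,k36),(k2,k42),(k3,k42),(k4,k42),(k5,k42),(k7,k42),(k9,k43),(k0,
    k47)],[(k9,k37),(k0,k41),(k2,k42),(k3,k42),(k4,k42),(k5,k42),(k6,k42),(k7,k42)],[(k9,k37),(k0,k41),(k2,k42),(k3,
    k42),(k4,k42),(k5,k42),(k6,k42),(k7,k42)],[(k0,k33),(k2,k36),(k5,k36),(k9,k37),(k3,k42),(k4,k42),(k6,k42),(k7,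
    k42)],[(k9,k32),(k0,k36),(k4,k37),(k6,k37),(k7,k37),(k2,k43),(k5,k43),(k3,k45)],[(k8,k32),(k1,k36),(k10,k36),(k11,
    k36)],[(k8,k36),(k1,k40),(k10,k40),(k11,k40)],[(k8,k36),(k1,k40),(k10,k40),(k11,k40)]]
    [[k2,k0,k0,k1,k0,k0],[k1,k0,k0,k1,k1,k0],[k1,k0,k0,k0,k1,k1],[k0,k3,k0,k0,k0,k0],[k0,k2,k0,k1,k0,k0],[k0,k0,k1,k0,
    k2,k0],[k0,k0,k0,k1,k2,k0],[k0,k0,k0,k0,k2,k1]]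
    [.ref k58 k0 [(z1,[z3,z1]),(z1,[y3,z2,z3]),(z1,[y3,z2,z0,z3]),(z1,[z3,y2])],.ref k46 k0 [(z2,[z3,z1]),(z2,[y3,z1,
    z2]),(z2,[y3,z1,z0,z2]),(z2,[z3,y1])],.ref k46 k0 [(z1,[z3,z1,z1,z1,y3]),(z1,[y3,z0,z0,y1,z3]),(z1,[y3,z0,y1,z0,
    z3]),(z1,[z3,z0,z1,z1,y3])],.ref k46 k0 [(z1,[y1,z1,z1]),(z1,[z1]),(z1,[z1,z0,y1,z1]),(z1,[y1,z0,z1])],
    .ref k46 k0 [(z1,[y3,z1,z2]),(z1,[z3,z0,y1]),(z1,[z3,z0,y2,z1]),(z1,[y3,z0,z2])],.ref k14 k1 [(z3,[z3,y1,z0,y1]),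
    (z1,[z3,y2,z0,y1]),(z3,[y3,z2,z0,z2]),(z3,[y3,z2,z1,z1])],.ref k59 k1 [(z1,[z3,z1]),(z1,[z3,y2]),(z1,[y3,z2,z0,
    z3]),(z1,[y3,z2,z3])],.ref k56 k0 [(z6,[y3,z1,y1,y1,z3]),(z1,[z0,z0,z1]),(z1,[z0,z0,z0,z1]),(z2,[z3,z1,z1,z1,
    y3])]],
    .lp k0 [k18,k16,k16,k16,k16,k12] [k0,k0,k1,k1,k1,k1,k1,k1,k1,k1,k3,k3] k0 [[k0,k0,k0,k0,k0,k0,k0,k0,k0,k0,k0,k0],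
    [k0,k0,k0,k0,k0,k0,k0,k0,k0,k0,k0,k0],[k0,k0,k0,k0,k0,k0,k0,k0,k0,k0,k0,k0],[k0,k0,k0,k0,k0,k0,k0,k0,k0,k0,k0,k0],
    [k0,k0,k0,k0,k0,k0,k0,k0,k0,k0,k0,k0],[k0,k0,k0,k0,k0,k0,k0,k0,k0,k0,k0,k0],[k0,k0,k0,k0,k0,k0,k0,k0,k0,k0,k0,k0],
    [k0,k0,k0,k0,k0,k0,k0,k0,k0,k0,k0,k0],[k0,k0,k0,k0,k0,k0,k0,k0,k0,k0,k0,k0],[k0,k0,k0,k0,k0,k0,k0,k0,k0,k0,k0,k0],
    [k0,k0,k0,k0,k0,k0,k0,k0,k0,k0,k0,k0],[k0,k0,k0,k0,k0,k0,k0,k0,k0,k0,k0,k0]] k48 k5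
    [[(k10,k15),(k11,k15),(k8,k17),(k1,k18)],[(k2,k17),(k3,k17),(k4,k17),(k5,k17),(k6,k17),(k7,k17),(k9,k17),(k0,
    k18)],[(k2,k16),(k3,k16),(k4,k16),(k5,k16),(k6,k16),(k7,k16),(k9,k16),(k0,k17)],[(k2,k16),(k3,k16),(k4,k16),(k5,
    k16),(k6,k16),(k7,k16),(k9,k16),(k0,k17)],[(k2,k16),(k3,k16),(k4,k16),(k5,k16),(k6,k16),(k7,k16),(k9,k16),(k0,
    k17)],[(k2,k16),(k3,k16),(k4,k16),(k5,k16),(k6,k16),(k7,k16),(k9,k16),(k0,k17)],[(k2,k16),(k3,k16),(k4,k16),(k5,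
    k16),(k6,k16),(k7,k16),(k9,k16),(k0,k17)],[(k2,k16),(k3,k16),(k4,k16),(k5,k16),(k6,k16),(k7,k16),(k9,k16),(k0,
    k17)],[(k2,k16),(k3,k16),(k4,k16),(k5,k16),(k6,k16),(k7,k16),(k9,k16),(k0,k17)],[(k10,k14),(k11,k14),(k8,k16),(k1,
    k17)],[(k10,k12),(k11,k12),(k8,k14),(k1,k15)],[(k10,k12),(k11,k12),(k8,k14),(k1,k15)]]
    [[k1,k0,k0,k0,k1,k1],[k0,k0,k0,k0,k2,k1],[k0,k0,k0,k0,k0,k3]]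
    [.ref k54 k0 [(z1,[z1]),(z1,[y1,z1,z1]),(z1,[y1,z0,y1,z1])],.ref k57 k0 [(z1,[y1,z2]),(z1,[z0,z0,z1]),(z1,[z0,y1,
    y1,z1])],.ref k60 k0 [(z1,[z1,z3]),(z1,[y1,z0,z3]),(z1,[y1,y3,y3,z3])]],
    .base (.leafM k0 [k0,k1,k2,k3,k4,k5] [(z1,[y1,z0,z1])] []),
    .base (.leafM k0 [k0,k1,k2,k3,k4,k5] [(z1,[y1,z0,z0,z1])] []),
    .lp k0 [(nat_lit 348),(nat_lit 390),(nat_lit 390),(nat_lit 444),(nat_lit 408),(nat_lit 400)] [k48,k48,k27,k27,k27,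
    k27,k0,k0,k18,k18,k22,k22] k0 [[k0,k0,k30,k30,k0,k0,k0,k0,k0,k0,k0,k0],[k0,k0,k0,k0,k0,k0,k0,k0,k0,k0,k0,k0],[k0,
    k30,k0,k0,k30,k0,k6,k0,k0,k0,k0,k0],[k0,k30,k0,k0,k30,k0,k6,k0,k0,k0,k0,k0],[k0,k0,k0,k0,k0,k0,k0,k0,k0,k0,k0,k0],
    [k0,k0,k30,k30,k0,k0,k0,k0,k0,k0,k0,k0],[k0,k0,k0,k0,k0,k0,k0,k0,k0,k0,k0,k0],[k0,k0,k6,k6,k0,k0,k0,k0,k0,k0,k0,
    k0],[k0,k0,k0,k0,k0,k0,k0,k0,k0,k0,k0,k104],[k0,k0,k0,k0,k0,k0,k0,k0,k0,k0,k0,k0],[k0,k0,k0,k0,k0,k0,k0,k0,k0,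
    k104,k0,k0],[k0,k0,k0,k0,k0,k0,k0,k0,k0,k0,k0,k0]] (nat_lit 1200) k5
    [[(k1,(nat_lit 348)),(k10,(nat_lit 374)),(k8,(nat_lit 378)),(k11,(nat_lit 478))],[(k2,(nat_lit 339)),(k5,
    (nat_lit 339)),(k0,(nat_lit 348)),(k3,(nat_lit 369)),(k4,(nat_lit 369)),(k9,(nat_lit 378)),(k6,(nat_lit 396)),(k7,
    (nat_lit 396))],[(k0,(nat_lit 369)),(k3,(nat_lit 390)),(k4,(nat_lit 390)),(k9,(nat_lit 399)),(k6,(nat_lit 417)),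
    (k7,(nat_lit 417)),(k2,(nat_lit 420)),(k5,(nat_lit 420))],[(k0,(nat_lit 339)),(k7,(nat_lit 387)),(k2,
    (nat_lit 390)),(k5,(nat_lit 390)),(k9,(nat_lit 393)),(k3,(nat_lit 420)),(k4,(nat_lit 420)),(k6,(nat_lit 423))],
    [(k0,(nat_lit 339)),(k7,(nat_lit 387)),(k2,(nat_lit 390)),(k5,(nat_lit 390)),(k9,(nat_lit 393)),(k3,
    (nat_lit 420)),(k4,(nat_lit 420)),(k6,(nat_lit 423))],[(k0,(nat_lit 369)),(k3,(nat_lit 390)),(k4,(nat_lit 390)),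
    (k9,(nat_lit 399)),(k6,(nat_lit 417)),(k7,(nat_lit 417)),(k2,(nat_lit 420)),(k5,(nat_lit 420))],[(k2,
    (nat_lit 387)),(k5,(nat_lit 387)),(k0,(nat_lit 396)),(k3,(nat_lit 417)),(k4,(nat_lit 417)),(k9,(nat_lit 426)),(k6,
    (nat_lit 444)),(k7,(nat_lit 444))],[(k0,(nat_lit 396)),(k3,(nat_lit 417)),(k4,(nat_lit 417)),(k2,(nat_lit 423)),
    (k5,(nat_lit 423)),(k9,(nat_lit 426)),(k6,(nat_lit 444)),(k7,(nat_lit 444))],[(k0,(nat_lit 378)),(k2,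
    (nat_lit 393)),(k5,(nat_lit 393)),(k3,(nat_lit 399)),(k4,(nat_lit 399)),(k9,(nat_lit 408)),(k6,(nat_lit 426)),(k7,
    (nat_lit 426))],[(k10,(nat_lit 300)),(k1,(nat_lit 378)),(k11,(nat_lit 404)),(k8,(nat_lit 408))],[(k10,
    (nat_lit 400)),(k11,(nat_lit 400)),(k8,(nat_lit 404)),(k1,(nat_lit 478))],[(k8,(nat_lit 300)),(k1,(nat_lit 374)),
    (k10,(nat_lit 400)),(k11,(nat_lit 400))]]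
    [[k2,k1,k0,k0,k0,k0],[k2,k0,k1,k0,k0,k0],[k2,k0,k0,k1,k0,k0],[k1,k1,k0,k0,k1,k0],[k1,k0,k1,k0,k1,k0],[k1,k0,k0,k0,
    k1,k1],[k0,k0,k0,k0,k2,k1]]
    [.ref k3 k0 [(z1,[z0,z1]),(z1,[z3,y2]),(z1,[y3,z2,z3,z1]),(z2,[z3,y2,y3,z0,z2]),(z2,[y3,z2,z3])],.ref k3 k0 [(z1,
    [z0,z1]),(z1,[y3,z2,z3,z1]),(z1,[z3,y2]),(z2,[y3,z2,z0,z1,z2]),(z2,[z3,y2,z0,y1])],.ref k3 k0 [(z1,[z0,z1]),(z1,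
    [z6,y4,z3,z0,y2]),(z1,[y6,z4,z0,z1,z2]),(z1,[z3,y2]),(z1,[y3,z2,z0,z0,z1])],.ref k3 k0 [(z1,[z0,z1]),(z1,[z6,y2,
    y3]),(z1,[y6,z2,z6,z1]),(z1,[z3,y1,y3,z0,z1]),(z1,[y3,z1,z3])],.ref k3 k0 [(z1,[z0,z1]),(z3,[y6,z2,z9,z2]),(z3,
    [z6,y2,z0,z1]),(z3,[y3,z1,z0,z1,z3]),(z3,[z3,y1,z0,y1])],.ref k3 k0 [(z1,[z0,z1]),(z1,[y6,z0,y3,y2,y2,z6]),(z1,
    [z6,z0,z6,z3,z2,y6]),(z1,[y3,z0,y3,y1,z0,z3]),(z1,[z3,z0,z3,z1,z1,y3])],.ref k3 k0 [(z1,[z0,z1]),(z1,[y3,y1,z0,y1,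
    y1,z3]),(z1,[z3,z1,z3,z2,z1,y3]),(z2,[y3,y1,y3,y1,z1,z3]),(z2,[z3,z1,z3,z1,z1,y3])]],
    .lp k0 [k18,k16,k16,k16,k16,k12] [k0,k0,k1,k1,k1,k1,k1,k1,k1,k1,k3,k3] k0 [[k0,k0,k0,k0,k0,k0,k0,k0,k0,k0,k0,k0],
    [k0,k0,k0,k0,k0,k0,k0,k0,k0,k0,k0,k0],[k0,k0,k0,k0,k0,k0,k0,k0,k0,k0,k0,k0],[k0,k0,k0,k0,k0,k0,k0,k0,k0,k0,k0,k0],
    [k0,k0,k0,k0,k0,k0,k0,k0,k0,k0,k0,k0],[k0,k0,k0,k0,k0,k0,k0,k0,k0,k0,k0,k0],[k0,k0,k0,k0,k0,k0,k0,k0,k0,k0,k0,k0],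
    [k0,k0,k0,k0,k0,k0,k0,k0,k0,k0,k0,k0],[k0,k0,k0,k0,k0,k0,k0,k0,k0,k0,k0,k0],[k0,k0,k0,k0,k0,k0,k0,k0,k0,k0,k0,k0],
    [k0,k0,k0,k0,k0,k0,k0,k0,k0,k0,k0,k0],[k0,k0,k0,k0,k0,k0,k0,k0,k0,k0,k0,k0]] k48 k5
    [[(k10,k15),(k11,k15),(k8,k17),(k1,k18)],[(k2,k17),(k3,k17),(k4,k17),(k5,k17),(k6,k17),(k7,k17),(k9,k17),(k0,
    k18)],[(k2,k16),(k3,k16),(k4,k16),(k5,k16),(k6,k16),(k7,k16),(k9,k16),(k0,k17)],[(k2,k16),(k3,k16),(k4,k16),(k5,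
    k16),(k6,k16),(k7,k16),(k9,k16),(k0,k17)],[(k2,k16),(k3,k16),(k4,k16),(k5,k16),(k6,k16),(k7,k16),(k9,k16),(k0,
    k17)],[(k2,k16),(k3,k16),(k4,k16),(k5,k16),(k6,k16),(k7,k16),(k9,k16),(k0,k17)],[(k2,k16),(k3,k16),(k4,k16),(k5,
    k16),(k6,k16),(k7,k16),(k9,k16),(k0,k17)],[(k2,k16),(k3,k16),(k4,k16),(k5,k16),(k6,k16),(k7,k16),(k9,k16),(k0,
    k17)],[(k2,k16),(k3,k16),(k4,k16),(k5,k16),(k6,k16),(k7,k16),(k9,k16),(k0,k17)],[(k10,k14),(k11,k14),(k8,k16),(k1,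
    k17)],[(k10,k12),(k11,k12),(k8,k14),(k1,k15)],[(k10,k12),(k11,k12),(k8,k14),(k1,k15)]]
    [[k1,k0,k0,k0,k1,k1],[k0,k0,k0,k0,k2,k1],[k0,k0,k0,k0,k0,k3]]
    [.ref k50 k0 [(z1,[z0,z1]),(z1,[y2,z1,z1]),(z1,[z2,y1,z0,z1]),(z1,[y1,z0,y1,y1,z1])],.ref k50 k0 [(z1,[z0,z1]),
    (z1,[y1,z0,z1]),(z1,[z1,z0,z0,z1]),(z2,[y1,y1,y2,y2,z2])],.ref k64 k0 [(z2,[y1,z3]),(z1,[z0,z0,z1]),(z1,[y1,z0,z0,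
    z3]),(z2,[z1,y3,y6,y6,z6])]],
    .lp k0 [k32,k36,k24,k36,k30,k32] [k2,k2,k0,k0,k6,k6,k0,k0,k3,k3,k2,k2] k0 [[k0,k0,k0,k0,k0,k0,k0,k0,k0,k0,k0,k0],
    [k0,k0,k0,k0,k0,k0,k0,k0,k0,k0,k0,k0],[k0,k0,k0,k0,k0,k0,k0,k0,k0,k0,k0,k0],[k0,k0,k0,k0,k0,k0,k0,k0,k0,k0,k0,k0],
    [k0,k0,k0,k0,k0,k0,k0,k0,k0,k0,k0,k0],[k0,k0,k0,k0,k0,k0,k0,k0,k0,k0,k0,k0],[k0,k0,k0,k0,k0,k0,k0,k0,k0,k0,k0,k0],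
    [k0,k0,k0,k0,k0,k0,k0,k0,k0,k0,k0,k0],[k0,k0,k0,k0,k0,k0,k0,k0,k0,k0,k0,k0],[k0,k0,k0,k0,k0,k0,k0,k0,k0,k0,k0,k0],
    [k0,k0,k0,k0,k0,k0,k0,k0,k0,k0,k0,k0],[k0,k0,k0,k0,k0,k0,k0,k0,k0,k0,k0,k0]] k96 k5
    [[(k8,k31),(k1,k32),(k10,k32),(k11,k32)],[(k4,k28),(k5,k28),(k9,k31),(k0,k32),(k2,k34),(k3,k34),(k6,k34),(k7,
    k34)],[(k4,k30),(k5,k30),(k9,k33),(k0,k34),(k2,k36),(k3,k36),(k6,k36),(k7,k36)],[(k4,k30),(k5,k30),(k9,k33),(k0,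
    k34),(k2,k36),(k3,k36),(k6,k36),(k7,k36)],[(k4,k24),(k5,k24),(k9,k27),(k0,k28),(k2,k30),(k3,k30),(k6,k30),(k7,
    k30)],[(k4,k24),(k5,k24),(k9,k27),(k0,k28),(k2,k30),(k3,k30),(k6,k30),(k7,k30)],[(k4,k30),(k5,k30),(k9,k33),(k0,
    k34),(k2,k36),(k3,k36),(k6,k36),(k7,k36)],[(k4,k30),(k5,k30),(k9,k33),(k0,k34),(k2,k36),(k3,k36),(k6,k36),(k7,
    k36)],[(k4,k27),(k5,k27),(k9,k30),(k0,k31),(k2,k33),(k3,k33),(k6,k33),(k7,k33)],[(k8,k30),(k1,k31),(k10,k31),(k11,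
    k31)],[(k8,k31),(k1,k32),(k10,k32),(k11,k32)],[(k8,k31),(k1,k32),(k10,k32),(k11,k32)]]
    [[k2,k0,k1,k0,k0,k0],[k1,k0,k1,k0,k1,k0],[k1,k0,k0,k0,k1,k1],[k0,k1,k2,k0,k0,k0],[k0,k0,k3,k0,k0,k0],[k0,k0,k2,k1,
    k0,k0],[k0,k0,k1,k0,k2,k0],[k0,k0,k0,k0,k2,k1]]
    [.ref k3 k0 [(z4,[z3,z6,z0,y1]),(z2,[y3,z6,z6,z1]),(z2,[z3,y6,z0,z1]),(z2,[y3,z6,z0,z1,z6]),(z4,[z3,y6,z0,y1])],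
    .ref k3 k0 [(z4,[z3,z9,z0,y1]),(z2,[y3,z3,z6,z1]),(z2,[z3,y3,z0,z1]),(z2,[y3,z3,z0,z1,z6]),(z4,[z3,y3,z0,y1])],
    .ref k3 k0 [(z2,[z3,z6,z3,z1,z3,y3]),(z1,[y3,z0,z0,y1,y3,z3]),(z1,[z3,z0,z3,z2,z3,y3]),(z1,[y3,z0,y3,y1,z0,z3]),
    (z2,[z3,z0,z3,z1,z3,y3])],.ref k3 k0 [(z2,[z3,z6,y3,y2]),(z1,[y3,z0,z6,z2]),(z1,[z3,z0,y3,y1]),(z1,[y3,z0,z3,z2,
    z3]),(z2,[z3,z0,y3,y2])],.ref k3 k0 [(z2,[z1,z6,z0,y1]),(z1,[y1,z0,z3,z1]),(z1,[z1]),(z1,[y1,z0,z0,z1,z3]),(z2,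
    [z1,z0,z0,y1])],.ref k3 k0 [(z2,[z3,z6,z0,y2,y3]),(z1,[y3,z0,z3,z2,z3]),(z1,[z3,z0,z0,y1,y3]),(z1,[y3,z0,z0,z2,
    z6]),(z2,[z3,z0,z0,y2,y3])],.ref k3 k0 [(z4,[z3,z12,z0,y1]),(z2,[y3,z0,z6,z1]),(z2,[z3,z0,z0,z1]),(z2,[y3,z0,z0,
    z1,z6]),(z4,[z3,z0,z0,y1])],.ref k3 k0 [(z2,[z3,z9,z3,z1,z3,y3]),(z1,[y3,y3,z0,y1,y3,z3]),(z1,[z3,z3,z3,z2,z3,
    y3]),(z1,[y3,y3,y3,y1,z0,z3]),(z2,[z3,z3,z3,z1,z3,y3])]],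
    .lp k0 [(nat_lit 348),(nat_lit 390),(nat_lit 390),(nat_lit 444),(nat_lit 408),(nat_lit 400)] [k48,k48,k27,k27,k27,
    k27,k0,k0,k18,k18,k22,k22] k0 [[k0,k0,k30,k30,k0,k0,k0,k0,k0,k0,k0,k0],[k0,k0,k0,k0,k0,k0,k0,k0,k0,k0,k0,k0],[k0,
    k30,k0,k0,k30,k0,k6,k0,k0,k0,k0,k0],[k0,k30,k0,k0,k30,k0,k6,k0,k0,k0,k0,k0],[k0,k0,k0,k0,k0,k0,k0,k0,k0,k0,k0,k0],
    [k0,k0,k30,k30,k0,k0,k0,k0,k0,k0,k0,k0],[k0,k0,k0,k0,k0,k0,k0,k0,k0,k0,k0,k0],[k0,k0,k6,k6,k0,k0,k0,k0,k0,k0,k0,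
    k0],[k0,k0,k0,k0,k0,k0,k0,k0,k0,k0,k0,k104],[k0,k0,k0,k0,k0,k0,k0,k0,k0,k0,k0,k0],[k0,k0,k0,k0,k0,k0,k0,k0,k0,
    k104,k0,k0],[k0,k0,k0,k0,k0,k0,k0,k0,k0,k0,k0,k0]] (nat_lit 1200) k5
    [[(k1,(nat_lit 348)),(k10,(nat_lit 374)),(k8,(nat_lit 378)),(k11,(nat_lit 478))],[(k2,(nat_lit 339)),(k5,
    (nat_lit 339)),(k0,(nat_lit 348)),(k3,(nat_lit 369)),(k4,(nat_lit 369)),(k9,(nat_lit 378)),(k6,(nat_lit 396)),(k7,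
    (nat_lit 396))],[(k0,(nat_lit 369)),(k3,(nat_lit 390)),(k4,(nat_lit 390)),(k9,(nat_lit 399)),(k6,(nat_lit 417)),
    (k7,(nat_lit 417)),(k2,(nat_lit 420)),(k5,(nat_lit 420))],[(k0,(nat_lit 339)),(k7,(nat_lit 387)),(k2,
    (nat_lit 390)),(k5,(nat_lit 390)),(k9,(nat_lit 393)),(k3,(nat_lit 420)),(k4,(nat_lit 420)),(k6,(nat_lit 423))],
    [(k0,(nat_lit 339)),(k7,(nat_lit 387)),(k2,(nat_lit 390)),(k5,(nat_lit 390)),(k9,(nat_lit 393)),(k3,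
    (nat_lit 420)),(k4,(nat_lit 420)),(k6,(nat_lit 423))],[(k0,(nat_lit 369)),(k3,(nat_lit 390)),(k4,(nat_lit 390)),
    (k9,(nat_lit 399)),(k6,(nat_lit 417)),(k7,(nat_lit 417)),(k2,(nat_lit 420)),(k5,(nat_lit 420))],[(k2,
    (nat_lit 387)),(k5,(nat_lit 387)),(k0,(nat_lit 396)),(k3,(nat_lit 417)),(k4,(nat_lit 417)),(k9,(nat_lit 426)),(k6,
    (nat_lit 444)),(k7,(nat_lit 444))],[(k0,(nat_lit 396)),(k3,(nat_lit 417)),(k4,(nat_lit 417)),(k2,(nat_lit 423)),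
    (k5,(nat_lit 423)),(k9,(nat_lit 426)),(k6,(nat_lit 444)),(k7,(nat_lit 444))],[(k0,(nat_lit 378)),(k2,
    (nat_lit 393)),(k5,(nat_lit 393)),(k3,(nat_lit 399)),(k4,(nat_lit 399)),(k9,(nat_lit 408)),(k6,(nat_lit 426)),(k7,
    (nat_lit 426))],[(k10,(nat_lit 300)),(k1,(nat_lit 378)),(k11,(nat_lit 404)),(k8,(nat_lit 408))],[(k10,
    (nat_lit 400)),(k11,(nat_lit 400)),(k8,(nat_lit 404)),(k1,(nat_lit 478))],[(k8,(nat_lit 300)),(k1,(nat_lit 374)),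
    (k10,(nat_lit 400)),(k11,(nat_lit 400))]]
    [[k2,k1,k0,k0,k0,k0],[k2,k0,k1,k0,k0,k0],[k2,k0,k0,k1,k0,k0],[k1,k1,k0,k0,k1,k0],[k1,k0,k1,k0,k1,k0],[k1,k0,k0,k0,
    k1,k1],[k0,k0,k0,k0,k2,k1]]
    [.ref k3 k0 [(z4,[z9,y2,y9]),(z2,[y3,z2,z9]),(z2,[z3,y2,y3,z2]),(z1,[y3,z2,z3,z0,z1]),(z4,[z3,y2,y3])],
    .ref k3 k0 [(z8,[z9,z2,z0,y3]),(z4,[y3,z2,z12,z1]),(z4,[z3,y2,z0,z3]),(z2,[y3,z2,z0,z1,z2]),(z8,[z3,y2,z0,y1])],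
    .ref k3 k0 [(z2,[z9,y4,z0,z0,y3]),(z1,[y3,z2,z3,z0,z1]),(z1,[z3,y2,z0,z1,y1]),(z1,[y6,z4,z0,z0,z3]),(z2,[z3,y2,z0,
    z0,y1])],.ref k3 k0 [(z2,[z9,y1,y9]),(z1,[y3,z1,z6]),(z1,[z3,y1,y3,z1]),(z1,[y6,z2,z6,z0,z1]),(z2,[z3,y1,y3])],
    .ref k3 k0 [(z2,[z3,z1,z0,y1]),(z3,[y3,z1,z9,z1]),(z3,[z3,y1,z0,z2]),(z3,[y6,z2,z0,z2,z3]),(z6,[z3,y1,z0,y1])],
    .ref k3 k0 [(z4,[z9,z4,z9,z3,z3,y9]),(z2,[y3,z0,z3,y1,y1,z3]),(z2,[z3,z0,z3,z3,z1,y3]),(z1,[y3,z0,y3,y1,z0,z3]),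
    (z4,[z3,z0,z3,z1,z1,y3])],.ref k3 k0 [(z2,[z9,z5,z9,z3,z3,y9]),(z1,[y3,y1,z0,y1,y1,z3]),(z1,[z3,z1,z3,z2,z1,y3]),
    (z1,[y6,y2,y6,y2,y1,z6]),(z2,[z3,z1,z3,z1,z1,y3])]],
    .lp k0 [k146,k176,k128,k188,k158,k160] [k21,k21,k6,k6,k30,k30,k0,k0,k15,k15,k14,k14] k0 [[k0,k0,k0,k0,k0,k0,k0,k0,
    k0,k0,k0,k0],[k0,k0,k0,k0,k0,k0,k0,k0,k0,k0,k0,k0],[k0,k0,k0,k0,k0,k0,k0,k12,k0,k0,k0,k0],[k0,k0,k0,k0,k0,k0,k0,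
    k0,k0,k0,k0,k0],[k0,k0,k0,k0,k0,k0,k0,k0,k0,k0,k0,k0],[k0,k0,k0,k0,k0,k0,k0,k24,k0,k0,k0,k0],[k0,k0,k0,k12,k24,k0,
    k0,k0,k0,k0,k0,k0],[k0,k0,k0,k0,k0,k0,k0,k0,k0,k0,k0,k0],[k0,k0,k0,k0,k0,k0,k0,k0,k0,k0,k0,k28],[k0,k0,k0,k0,k0,
    k0,k0,k0,k0,k0,k0,k0],[k0,k0,k0,k0,k0,k0,k0,k0,k0,k28,k0,k0],[k0,k0,k0,k0,k0,k0,k0,k0,k0,k0,k0,
    k0]] (nat_lit 480) k5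
    [[(k1,k146),(k8,k152),(k10,k153),(k11,k181)],[(k4,k137),(k5,k137),(k0,k146),(k9,k152),(k2,k161),(k3,k161),(k6,
    k167),(k7,k167)],[(k4,k152),(k5,k152),(k0,k161),(k9,k167),(k2,k176),(k3,k176),(k6,k182),(k7,k182)],[(k4,k152),(k5,
    k152),(k0,k161),(k9,k167),(k6,k170),(k2,k176),(k3,k176),(k7,k182)],[(k4,k128),(k5,k128),(k0,k137),(k2,k152),(k3,
    k152),(k9,k155),(k6,k158),(k7,k158)],[(k4,k128),(k5,k128),(k0,k137),(k2,k152),(k3,k152),(k6,k158),(k7,k158),(k9,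
    k167)],[(k4,k158),(k5,k158),(k6,k164),(k0,k167),(k9,k173),(k2,k182),(k3,k182),(k7,k188)],[(k4,k158),(k5,k158),(k7,
    k164),(k0,k167),(k2,k170),(k9,k173),(k3,k182),(k6,k188)],[(k0,k152),(k5,k155),(k9,k158),(k2,k167),(k3,k167),(k4,
    k167),(k6,k173),(k7,k173)],[(k10,k131),(k1,k152),(k8,k158),(k11,k159)],[(k8,k159),(k10,k160),(k11,k160),(k1,
    k181)],[(k8,k131),(k1,k153),(k10,k160),(k11,k160)]]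
    [[k2,k1,k0,k0,k0,k0],[k2,k0,k1,k0,k0,k0],[k1,k0,k1,k0,k1,k0],[k1,k0,k0,k0,k1,k1],[k0,k1,k2,k0,k0,k0],[k0,k0,k3,k0,
    k0,k0],[k0,k0,k2,k1,k0,k0],[k0,k0,k0,k0,k2,k1]]
    [.ref k66 k0 [(z2,[z2,y1,y1]),(z1,[y1,z1,z1]),(z1,[z6,y6,y3,z1]),(z1,[y2,z2,z1])],.ref k15 k0 [(z4,[z3,z3,z0,y1]),
    (z4,[y3,z3,z6,z1]),(z2,[z3,y3,z0,z1]),(z2,[y3,z3,z0,z1])],.ref k58 k0 [(z1,[z3,z3,z0,y1]),(z2,[y6,z3,z9,z2]),(z1,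
    [z6,y3,z0,z1]),(z1,[y6,z3,z0,z2])],.ref k25 k0 [(z2,[z6,z3,z3,z2,y6]),(z1,[y3,z0,z0,y1,z3]),(z1,[z2,z0,z1,z1,y2]),
    (z1,[y6,z0,y3,y2,z6])],.ref k67 k1 [(z2,[y6,y9,z3,z4]),(z1,[z0,z1]),(z1,[z0,y3,z0,z1]),(z1,[z3,z6,z0,y2])],
    .ref k15 k0 [(z2,[z1,z3,z0,y1]),(z2,[y1,z0,z3,z1]),(z1,[z1]),(z1,[y1,z0,z0,z1])],.ref k15 k0 [(z2,[z3,z3,z0,y2]),
    (z2,[y3,z0,z3,z2]),(z1,[z3,z0,z0,y1]),(z1,[y3,z0,z0,z2])],.ref k64 k1 [(z4,[z6,z3,z3,z2,y6]),(z1,[z0,z1]),(z1,[z0,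
    y3,z0,z1]),(z4,[y6,z3,z3,y2,z6])]],
    .lp k0 [k18,k16,k16,k16,k16,k12] [k0,k0,k1,k1,k1,k1,k1,k1,k1,k1,k3,k3] k0 [[k0,k0,k0,k0,k0,k0,k0,k0,k0,k0,k0,k0],
    [k0,k0,k0,k0,k0,k0,k0,k0,k0,k0,k0,k0],[k0,k0,k0,k0,k0,k0,k0,k0,k0,k0,k0,k0],[k0,k0,k0,k0,k0,k0,k0,k0,k0,k0,k0,k0],
    [k0,k0,k0,k0,k0,k0,k0,k0,k0,k0,k0,k0],[k0,k0,k0,k0,k0,k0,k0,k0,k0,k0,k0,k0],[k0,k0,k0,k0,k0,k0,k0,k0,k0,k0,k0,k0],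
    [k0,k0,k0,k0,k0,k0,k0,k0,k0,k0,k0,k0],[k0,k0,k0,k0,k0,k0,k0,k0,k0,k0,k0,k0],[k0,k0,k0,k0,k0,k0,k0,k0,k0,k0,k0,k0],
    [k0,k0,k0,k0,k0,k0,k0,k0,k0,k0,k0,k0],[k0,k0,k0,k0,k0,k0,k0,k0,k0,k0,k0,k0]] k48 k5
    [[(k10,k15),(k11,k15),(k8,k17),(k1,k18)],[(k2,k17),(k3,k17),(k4,k17),(k5,k17),(k6,k17),(k7,k17),(k9,k17),(k0,
    k18)],[(k2,k16),(k3,k16),(k4,k16),(k5,k16),(k6,k16),(k7,k16),(k9,k16),(k0,k17)],[(k2,k16),(k3,k16),(k4,k16),(k5,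
    k16),(k6,k16),(k7,k16),(k9,k16),(k0,k17)],[(k2,k16),(k3,k16),(k4,k16),(k5,k16),(k6,k16),(k7,k16),(k9,k16),(k0,
    k17)],[(k2,k16),(k3,k16),(k4,k16),(k5,k16),(k6,k16),(k7,k16),(k9,k16),(k0,k17)],[(k2,k16),(k3,k16),(k4,k16),(k5,
    k16),(k6,k16),(k7,k16),(k9,k16),(k0,k17)],[(k2,k16),(k3,k16),(k4,k16),(k5,k16),(k6,k16),(k7,k16),(k9,k16),(k0,
    k17)],[(k2,k16),(k3,k16),(k4,k16),(k5,k16),(k6,k16),(k7,k16),(k9,k16),(k0,k17)],[(k10,k14),(k11,k14),(k8,k16),(k1,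
    k17)],[(k10,k12),(k11,k12),(k8,k14),(k1,k15)],[(k10,k12),(k11,k12),(k8,k14),(k1,k15)]]
    [[k1,k0,k0,k0,k1,k1],[k0,k0,k0,k0,k2,k1],[k0,k0,k0,k0,k0,k3]]
    [.ref k63 k0 [(z1,[z1]),(z2,[y2,z1,z1]),(z2,[z4,y3,y1,z2])],.ref k65 k1 [(z1,[z1]),(z1,[z0,z1]),(z2,[z0,y3,y1,
    z2])],.ref k68 k0 [(z1,[z0,z1]),(z1,[z0,z0,z1]),(z2,[y2,y3,y3,z6])]],
    .base (.leafM k0 [k0,k1,k2,k3,k4,k5] [(z2,[z0,z1,z1,z2])] []),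
    .lp k0 [k16,k16,k16,k16,k18,k12] [k1,k1,k1,k1,k1,k1,k1,k1,k0,k0,k3,k3] k0 [[k0,k0,k0,k0,k0,k0,k0,k0,k0,k0,k0,k0],
    [k0,k0,k0,k0,k0,k0,k0,k0,k0,k0,k0,k0],[k0,k0,k0,k0,k0,k0,k0,k0,k0,k0,k0,k0],[k0,k0,k0,k0,k0,k0,k0,k0,k0,k0,k0,k0],
    [k0,k0,k0,k0,k0,k0,k0,k0,k0,k0,k0,k0],[k0,k0,k0,k0,k0,k0,k0,k0,k0,k0,k0,k0],[k0,k0,k0,k0,k0,k0,k0,k0,k0,k0,k0,k0],
    [k0,k0,k0,k0,k0,k0,k0,k0,k0,k0,k0,k0],[k0,k0,k0,k0,k0,k0,k0,k0,k0,k0,k0,k0],[k0,k0,k0,k0,k0,k0,k0,k0,k0,k0,k0,k0],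
    [k0,k0,k0,k0,k0,k0,k0,k0,k0,k0,k0,k0],[k0,k0,k0,k0,k0,k0,k0,k0,k0,k0,k0,k0]] k48 k5
    [[(k10,k14),(k11,k14),(k1,k16),(k8,k17)],[(k0,k16),(k2,k16),(k3,k16),(k4,k16),(k5,k16),(k6,k16),(k7,k16),(k9,
    k17)],[(k0,k16),(k2,k16),(k3,k16),(k4,k16),(k5,k16),(k6,k16),(k7,k16),(k9,k17)],[(k0,k16),(k2,k16),(k3,k16),(k4,
    k16),(k5,k16),(k6,k16),(k7,k16),(k9,k17)],[(k0,k16),(k2,k16),(k3,k16),(k4,k16),(k5,k16),(k6,k16),(k7,k16),(k9,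
    k17)],[(k0,k16),(k2,k16),(k3,k16),(k4,k16),(k5,k16),(k6,k16),(k7,k16),(k9,k17)],[(k0,k16),(k2,k16),(k3,k16),(k4,
    k16),(k5,k16),(k6,k16),(k7,k16),(k9,k17)],[(k0,k16),(k2,k16),(k3,k16),(k4,k16),(k5,k16),(k6,k16),(k7,k16),(k9,
    k17)],[(k0,k17),(k2,k17),(k3,k17),(k4,k17),(k5,k17),(k6,k17),(k7,k17),(k9,k18)],[(k10,k15),(k11,k15),(k1,k17),(k8,
    k18)],[(k10,k12),(k11,k12),(k1,k14),(k8,k15)],[(k10,k12),(k11,k12),(k1,k14),(k8,k15)]]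
    [[k2,k0,k0,k0,k0,k1],[k1,k0,k0,k0,k1,k1],[k0,k0,k0,k0,k0,k3]]
    [.ref k3 k0 [(z4,[z1,z1]),(z5,[y10,z2,z3]),(z10,[y5,z1,z0,z6]),(z5,[z5,y1,z0,z0,z3]),(z20,[y25,y1,y12,y12,y12,
    z60])],.ref k3 k0 [(z10,[z5,z3,z1,z1,z1,y5]),(z5,[y20,z0,y1,y4,y4,z20]),(z5,[y5,z0,y1,z2,y1,z5]),(z5,[z10,z0,z2,
    z2,z5,y10]),(z10,[y25,y3,y11,y11,y11,z55])],.ref k3 k0 [(z10,[z1,z3]),(z5,[y4,z0,z3]),(z5,[y1,z0,z0,z3]),(z5,[z2,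
    z0,z0,z0,z3]),(z10,[y5,y3,y6,y6,y6,z30])]]]

theorem hB6_104_5 : blkB [0, 0, 0, 0, 1, 1] [] sp6 hS6_104 (pcls (n := 6) [0, 0, 0, 0, 1, 1]) hD6_104 181 5 hN6_104_5 = true := by
  decide +kernel

/-- nodes 72 to 83 -/
noncomputable def hN6_104_6 : List HM :=
  [.lp k0 [k18,k16,k16,k16,k16,k12] [k0,k0,k1,k1,k1,k1,k1,k1,k1,k1,k3,k3] k0 [[k0,k0,k0,k0,k0,k0,k0,k0,k0,k0,k0,k0],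
    [k0,k0,k0,k0,k0,k0,k0,k0,k0,k0,k0,k0],[k0,k0,k0,k0,k0,k0,k0,k0,k0,k0,k0,k0],[k0,k0,k0,k0,k0,k0,k0,k0,k0,k0,k0,k0],
    [k0,k0,k0,k0,k0,k0,k0,k0,k0,k0,k0,k0],[k0,k0,k0,k0,k0,k0,k0,k0,k0,k0,k0,k0],[k0,k0,k0,k0,k0,k0,k0,k0,k0,k0,k0,k0],
    [k0,k0,k0,k0,k0,k0,k0,k0,k0,k0,k0,k0],[k0,k0,k0,k0,k0,k0,k0,k0,k0,k0,k0,k0],[k0,k0,k0,k0,k0,k0,k0,k0,k0,k0,k0,k0],
    [k0,k0,k0,k0,k0,k0,k0,k0,k0,k0,k0,k0],[k0,k0,k0,k0,k0,k0,k0,k0,k0,k0,k0,k0]] k48 k5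
    [[(k10,k15),(k11,k15),(k8,k17),(k1,k18)],[(k2,k17),(k3,k17),(k4,k17),(k5,k17),(k6,k17),(k7,k17),(k9,k17),(k0,
    k18)],[(k2,k16),(k3,k16),(k4,k16),(k5,k16),(k6,k16),(k7,k16),(k9,k16),(k0,k17)],[(k2,k16),(k3,k16),(k4,k16),(k5,
    k16),(k6,k16),(k7,k16),(k9,k16),(k0,k17)],[(k2,k16),(k3,k16),(k4,k16),(k5,k16),(k6,k16),(k7,k16),(k9,k16),(k0,
    k17)],[(k2,k16),(k3,k16),(k4,k16),(k5,k16),(k6,k16),(k7,k16),(k9,k16),(k0,k17)],[(k2,k16),(k3,k16),(k4,k16),(k5,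
    k16),(k6,k16),(k7,k16),(k9,k16),(k0,k17)],[(k2,k16),(k3,k16),(k4,k16),(k5,k16),(k6,k16),(k7,k16),(k9,k16),(k0,
    k17)],[(k2,k16),(k3,k16),(k4,k16),(k5,k16),(k6,k16),(k7,k16),(k9,k16),(k0,k17)],[(k10,k14),(k11,k14),(k8,k16),(k1,
    k17)],[(k10,k12),(k11,k12),(k8,k14),(k1,k15)],[(k10,k12),(k11,k12),(k8,k14),(k1,k15)]]
    [[k1,k0,k0,k0,k1,k1],[k0,k0,k0,k0,k2,k1],[k0,k0,k0,k0,k0,k3]]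
    [.ref k70 k0 [(z1,[y1,z1]),(z5,[y5,z1,z2]),(z5,[z5,y1,z0,z2]),(z5,[y5,z0,y1,y1,z5])],.ref k71 k0 [(z1,[y1,z2]),
    (z1,[y1,z0,z1]),(z1,[z1,z0,z0,z1]),(z1,[y2,y1,y1,y1,z5])],.ref k43 k0 [(z1,[z0,z1]),(z1,[y5,z0,z3]),(z1,[z0,z0,z0,
    z1]),(z1,[z0,y1,y1,y1,z5])]],
    .lp k0 [k16,k16,k16,k16,k18,k12] [k1,k1,k1,k1,k1,k1,k1,k1,k0,k0,k3,k3] k0 [[k0,k0,k0,k0,k0,k0,k0,k0,k0,k0,k0,k0],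
    [k0,k0,k0,k0,k0,k0,k0,k0,k0,k0,k0,k0],[k0,k0,k0,k0,k0,k0,k0,k0,k0,k0,k0,k0],[k0,k0,k0,k0,k0,k0,k0,k0,k0,k0,k0,k0],
    [k0,k0,k0,k0,k0,k0,k0,k0,k0,k0,k0,k0],[k0,k0,k0,k0,k0,k0,k0,k0,k0,k0,k0,k0],[k0,k0,k0,k0,k0,k0,k0,k0,k0,k0,k0,k0],
    [k0,k0,k0,k0,k0,k0,k0,k0,k0,k0,k0,k0],[k0,k0,k0,k0,k0,k0,k0,k0,k0,k0,k0,k0],[k0,k0,k0,k0,k0,k0,k0,k0,k0,k0,k0,k0],
    [k0,k0,k0,k0,k0,k0,k0,k0,k0,k0,k0,k0],[k0,k0,k0,k0,k0,k0,k0,k0,k0,k0,k0,k0]] k48 k5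
    [[(k10,k14),(k11,k14),(k1,k16),(k8,k17)],[(k0,k16),(k2,k16),(k3,k16),(k4,k16),(k5,k16),(k6,k16),(k7,k16),(k9,
    k17)],[(k0,k16),(k2,k16),(k3,k16),(k4,k16),(k5,k16),(k6,k16),(k7,k16),(k9,k17)],[(k0,k16),(k2,k16),(k3,k16),(k4,
    k16),(k5,k16),(k6,k16),(k7,k16),(k9,k17)],[(k0,k16),(k2,k16),(k3,k16),(k4,k16),(k5,k16),(k6,k16),(k7,k16),(k9,
    k17)],[(k0,k16),(k2,k16),(k3,k16),(k4,k16),(k5,k16),(k6,k16),(k7,k16),(k9,k17)],[(k0,k16),(k2,k16),(k3,k16),(k4,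
    k16),(k5,k16),(k6,k16),(k7,k16),(k9,k17)],[(k0,k16),(k2,k16),(k3,k16),(k4,k16),(k5,k16),(k6,k16),(k7,k16),(k9,
    k17)],[(k0,k17),(k2,k17),(k3,k17),(k4,k17),(k5,k17),(k6,k17),(k7,k17),(k9,k18)],[(k10,k15),(k11,k15),(k1,k17),(k8,
    k18)],[(k10,k12),(k11,k12),(k1,k14),(k8,k15)],[(k10,k12),(k11,k12),(k1,k14),(k8,k15)]]
    [[k2,k0,k0,k0,k0,k1],[k1,k0,k0,k0,k1,k1],[k0,k0,k0,k0,k0,k3]]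
    [.ref k3 k0 [(z4,[z5,z1]),(z1,[y1,z1,z3]),(z2,[z1,y1,z0,z6]),(z1,[y1,z1,z0,z0,z3]),(z4,[y1,y5,y12,y12,y12,z12])],
    .ref k3 k0 [(z2,[z5,z3,z5,z5,z5,y5]),(z1,[y2,z0,z1,y2,y2,z2]),(z1,[z1,z0,z1,z4,z1,y1]),(z1,[y2,z0,y2,y2,z1,z2]),
    (z2,[y1,y3,y7,y7,y7,z7])],.ref k3 k0 [(z2,[z5,z3]),(z1,[y2,z0,z3]),(z1,[z1,z0,z0,z3]),(z1,[y2,z0,z0,z0,z3]),(z2,
    [y1,y3,y6,y6,y6,z6])]],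
    .lp k0 [k18,k16,k16,k16,k16,k12] [k0,k0,k1,k1,k1,k1,k1,k1,k1,k1,k3,k3] k0 [[k0,k0,k0,k0,k0,k0,k0,k0,k0,k0,k0,k0],
    [k0,k0,k0,k0,k0,k0,k0,k0,k0,k0,k0,k0],[k0,k0,k0,k0,k0,k0,k0,k0,k0,k0,k0,k0],[k0,k0,k0,k0,k0,k0,k0,k0,k0,k0,k0,k0],
    [k0,k0,k0,k0,k0,k0,k0,k0,k0,k0,k0,k0],[k0,k0,k0,k0,k0,k0,k0,k0,k0,k0,k0,k0],[k0,k0,k0,k0,k0,k0,k0,k0,k0,k0,k0,k0],
    [k0,k0,k0,k0,k0,k0,k0,k0,k0,k0,k0,k0],[k0,k0,k0,k0,k0,k0,k0,k0,k0,k0,k0,k0],[k0,k0,k0,k0,k0,k0,k0,k0,k0,k0,k0,k0],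
    [k0,k0,k0,k0,k0,k0,k0,k0,k0,k0,k0,k0],[k0,k0,k0,k0,k0,k0,k0,k0,k0,k0,k0,k0]] k48 k5
    [[(k10,k15),(k11,k15),(k8,k17),(k1,k18)],[(k2,k17),(k3,k17),(k4,k17),(k5,k17),(k6,k17),(k7,k17),(k9,k17),(k0,
    k18)],[(k2,k16),(k3,k16),(k4,k16),(k5,k16),(k6,k16),(k7,k16),(k9,k16),(k0,k17)],[(k2,k16),(k3,k16),(k4,k16),(k5,
    k16),(k6,k16),(k7,k16),(k9,k16),(k0,k17)],[(k2,k16),(k3,k16),(k4,k16),(k5,k16),(k6,k16),(k7,k16),(k9,k16),(k0,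
    k17)],[(k2,k16),(k3,k16),(k4,k16),(k5,k16),(k6,k16),(k7,k16),(k9,k16),(k0,k17)],[(k2,k16),(k3,k16),(k4,k16),(k5,
    k16),(k6,k16),(k7,k16),(k9,k16),(k0,k17)],[(k2,k16),(k3,k16),(k4,k16),(k5,k16),(k6,k16),(k7,k16),(k9,k16),(k0,
    k17)],[(k2,k16),(k3,k16),(k4,k16),(k5,k16),(k6,k16),(k7,k16),(k9,k16),(k0,k17)],[(k10,k14),(k11,k14),(k8,k16),(k1,
    k17)],[(k10,k12),(k11,k12),(k8,k14),(k1,k15)],[(k10,k12),(k11,k12),(k8,k14),(k1,k15)]]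
    [[k1,k0,k0,k0,k1,k1],[k0,k0,k0,k0,k2,k1],[k0,k0,k0,k0,k0,k3]]
    [.ref k46 k0 [(z1,[z2,z1]),(z1,[y2,z2,z3]),(z1,[z1,y1,z0,z3]),(z1,[y2,y1,y3,y3,z3])],.ref k73 k0 [(z1,[y1,z2]),
    (z1,[z0,z0,z1]),(z1,[z0,z0,z0,z1]),(z1,[z0,y1,y1,y1,z1])],.ref k46 k0 [(z1,[z2,z3]),(z1,[y2,z0,z3]),(z1,[z1,z0,z0,
    z3]),(z1,[y2,y3,y3,y3,z3])]],
    .lp k0 [k18,k16,k16,k16,k16,k12] [k0,k0,k1,k1,k1,k1,k1,k1,k1,k1,k3,k3] k0 [[k0,k0,k0,k0,k0,k0,k0,k0,k0,k0,k0,k0],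
    [k0,k0,k0,k0,k0,k0,k0,k0,k0,k0,k0,k0],[k0,k0,k0,k0,k0,k0,k0,k0,k0,k0,k0,k0],[k0,k0,k0,k0,k0,k0,k0,k0,k0,k0,k0,k0],
    [k0,k0,k0,k0,k0,k0,k0,k0,k0,k0,k0,k0],[k0,k0,k0,k0,k0,k0,k0,k0,k0,k0,k0,k0],[k0,k0,k0,k0,k0,k0,k0,k0,k0,k0,k0,k0],
    [k0,k0,k0,k0,k0,k0,k0,k0,k0,k0,k0,k0],[k0,k0,k0,k0,k0,k0,k0,k0,k0,k0,k0,k0],[k0,k0,k0,k0,k0,k0,k0,k0,k0,k0,k0,k0],
    [k0,k0,k0,k0,k0,k0,k0,k0,k0,k0,k0,k0],[k0,k0,k0,k0,k0,k0,k0,k0,k0,k0,k0,k0]] k48 k5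
    [[(k10,k15),(k11,k15),(k8,k17),(k1,k18)],[(k2,k17),(k3,k17),(k4,k17),(k5,k17),(k6,k17),(k7,k17),(k9,k17),(k0,
    k18)],[(k2,k16),(k3,k16),(k4,k16),(k5,k16),(k6,k16),(k7,k16),(k9,k16),(k0,k17)],[(k2,k16),(k3,k16),(k4,k16),(k5,
    k16),(k6,k16),(k7,k16),(k9,k16),(k0,k17)],[(k2,k16),(k3,k16),(k4,k16),(k5,k16),(k6,k16),(k7,k16),(k9,k16),(k0,
    k17)],[(k2,k16),(k3,k16),(k4,k16),(k5,k16),(k6,k16),(k7,k16),(k9,k16),(k0,k17)],[(k2,k16),(k3,k16),(k4,k16),(k5,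
    k16),(k6,k16),(k7,k16),(k9,k16),(k0,k17)],[(k2,k16),(k3,k16),(k4,k16),(k5,k16),(k6,k16),(k7,k16),(k9,k16),(k0,
    k17)],[(k2,k16),(k3,k16),(k4,k16),(k5,k16),(k6,k16),(k7,k16),(k9,k16),(k0,k17)],[(k10,k14),(k11,k14),(k8,k16),(k1,
    k17)],[(k10,k12),(k11,k12),(k8,k14),(k1,k15)],[(k10,k12),(k11,k12),(k8,k14),(k1,k15)]]
    [[k1,k0,k0,k0,k1,k1],[k0,k0,k0,k0,k2,k1],[k0,k0,k0,k0,k0,k3]]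
    [.ref k46 k0 [(z1,[z0,z1]),(z1,[z0,z0,z1]),(z1,[z0,z0,z0,z1]),(z1,[y3,z0,y1,y1,z3])],.ref k55 k0 [(z1,[y3,z2]),
    (z1,[z0,z0,z1]),(z1,[z0,z0,z0,z1]),(z1,[z0,y1,y1,y1,z3])],.ref k46 k0 [(z1,[z0,z1]),(z1,[z0,z0,z1]),(z1,[z0,z0,z0,
    z1]),(z1,[y1,y1,y1,y1,z3])]],
    .base (.leafM k0 [k0,k1,k2,k3,k4,k5] [(z1,[y1,z0,z0,z1])] []),
    .base (.leafM k0 [k0,k1,k2,k3,k4,k5] [(z2,[z0,z2,z1,z1])] []),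
    .lp k0 [k18,k16,k16,k16,k16,k12] [k0,k0,k1,k1,k1,k1,k1,k1,k1,k1,k3,k3] k0 [[k0,k0,k0,k0,k0,k0,k0,k0,k0,k0,k0,k0],
    [k0,k0,k0,k0,k0,k0,k0,k0,k0,k0,k0,k0],[k0,k0,k0,k0,k0,k0,k0,k0,k0,k0,k0,k0],[k0,k0,k0,k0,k0,k0,k0,k0,k0,k0,k0,k0],
    [k0,k0,k0,k0,k0,k0,k0,k0,k0,k0,k0,k0],[k0,k0,k0,k0,k0,k0,k0,k0,k0,k0,k0,k0],[k0,k0,k0,k0,k0,k0,k0,k0,k0,k0,k0,k0],
    [k0,k0,k0,k0,k0,k0,k0,k0,k0,k0,k0,k0],[k0,k0,k0,k0,k0,k0,k0,k0,k0,k0,k0,k0],[k0,k0,k0,k0,k0,k0,k0,k0,k0,k0,k0,k0],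
    [k0,k0,k0,k0,k0,k0,k0,k0,k0,k0,k0,k0],[k0,k0,k0,k0,k0,k0,k0,k0,k0,k0,k0,k0]] k48 k5
    [[(k10,k15),(k11,k15),(k8,k17),(k1,k18)],[(k2,k17),(k3,k17),(k4,k17),(k5,k17),(k6,k17),(k7,k17),(k9,k17),(k0,
    k18)],[(k2,k16),(k3,k16),(k4,k16),(k5,k16),(k6,k16),(k7,k16),(k9,k16),(k0,k17)],[(k2,k16),(k3,k16),(k4,k16),(k5,
    k16),(k6,k16),(k7,k16),(k9,k16),(k0,k17)],[(k2,k16),(k3,k16),(k4,k16),(k5,k16),(k6,k16),(k7,k16),(k9,k16),(k0,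
    k17)],[(k2,k16),(k3,k16),(k4,k16),(k5,k16),(k6,k16),(k7,k16),(k9,k16),(k0,k17)],[(k2,k16),(k3,k16),(k4,k16),(k5,
    k16),(k6,k16),(k7,k16),(k9,k16),(k0,k17)],[(k2,k16),(k3,k16),(k4,k16),(k5,k16),(k6,k16),(k7,k16),(k9,k16),(k0,
    k17)],[(k2,k16),(k3,k16),(k4,k16),(k5,k16),(k6,k16),(k7,k16),(k9,k16),(k0,k17)],[(k10,k14),(k11,k14),(k8,k16),(k1,
    k17)],[(k10,k12),(k11,k12),(k8,k14),(k1,k15)],[(k10,k12),(k11,k12),(k8,k14),(k1,k15)]]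
    [[k1,k0,k0,k0,k1,k1],[k0,k0,k0,k0,k2,k1],[k0,k0,k0,k0,k0,k3]]
    [.ref k3 k0 [(z2,[z1,z3,z1,z1,z1,y1]),(z1,[y4,z0,y1,y4,y4,z4]),(z1,[z2,z0,z2,z5,z2,y2]),(z1,[y1,z0,y1,y1,z2,z1]),
    (z2,[z7,y3,z1,z1,z1,y1])],.ref k3 k0 [(z4,[z1,z7,z2,z2,z2,y2]),(z1,[y2,y2,y1,y4,y4,z4]),(z1,[z1,z1,z2,z5,z2,y2]),
    (z2,[y1,y1,y2,y2,z4,z2]),(z4,[z7,z1,z2,z2,z2,y2])],.ref k3 k0 [(z2,[y1,z3]),(z1,[z4,z0,z3]),(z1,[y2,z0,z0,z3]),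
    (z1,[z1,z0,z0,z0,z3]),(z2,[y7,y3,y6,y6,y6,z6])]],
    .lp k0 [k18,k16,k16,k16,k16,k12] [k0,k0,k1,k1,k1,k1,k1,k1,k1,k1,k3,k3] k0 [[k0,k0,k0,k0,k0,k0,k0,k0,k0,k0,k0,k0],
    [k0,k0,k0,k0,k0,k0,k0,k0,k0,k0,k0,k0],[k0,k0,k0,k0,k0,k0,k0,k0,k0,k0,k0,k0],[k0,k0,k0,k0,k0,k0,k0,k0,k0,k0,k0,k0],
    [k0,k0,k0,k0,k0,k0,k0,k0,k0,k0,k0,k0],[k0,k0,k0,k0,k0,k0,k0,k0,k0,k0,k0,k0],[k0,k0,k0,k0,k0,k0,k0,k0,k0,k0,k0,k0],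
    [k0,k0,k0,k0,k0,k0,k0,k0,k0,k0,k0,k0],[k0,k0,k0,k0,k0,k0,k0,k0,k0,k0,k0,k0],[k0,k0,k0,k0,k0,k0,k0,k0,k0,k0,k0,k0],
    [k0,k0,k0,k0,k0,k0,k0,k0,k0,k0,k0,k0],[k0,k0,k0,k0,k0,k0,k0,k0,k0,k0,k0,k0]] k48 k5
    [[(k10,k15),(k11,k15),(k8,k17),(k1,k18)],[(k2,k17),(k3,k17),(k4,k17),(k5,k17),(k6,k17),(k7,k17),(k9,k17),(k0,
    k18)],[(k2,k16),(k3,k16),(k4,k16),(k5,k16),(k6,k16),(k7,k16),(k9,k16),(k0,k17)],[(k2,k16),(k3,k16),(k4,k16),(k5,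
    k16),(k6,k16),(k7,k16),(k9,k16),(k0,k17)],[(k2,k16),(k3,k16),(k4,k16),(k5,k16),(k6,k16),(k7,k16),(k9,k16),(k0,
    k17)],[(k2,k16),(k3,k16),(k4,k16),(k5,k16),(k6,k16),(k7,k16),(k9,k16),(k0,k17)],[(k2,k16),(k3,k16),(k4,k16),(k5,
    k16),(k6,k16),(k7,k16),(k9,k16),(k0,k17)],[(k2,k16),(k3,k16),(k4,k16),(k5,k16),(k6,k16),(k7,k16),(k9,k16),(k0,
    k17)],[(k2,k16),(k3,k16),(k4,k16),(k5,k16),(k6,k16),(k7,k16),(k9,k16),(k0,k17)],[(k10,k14),(k11,k14),(k8,k16),(k1,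
    k17)],[(k10,k12),(k11,k12),(k8,k14),(k1,k15)],[(k10,k12),(k11,k12),(k8,k14),(k1,k15)]]
    [[k1,k0,k0,k0,k1,k1],[k0,k0,k0,k0,k2,k1],[k0,k0,k0,k0,k0,k3]]
    [.ref k77 k1 [(z1,[z1,y1]),(z1,[y1,z0,y1,y1,z1]),(z1,[z1,y1,z0,z2]),(z1,[y1,z1,z2])],.ref k78 k1 [(z1,[z1]),(z1,
    [y2,y1,y1,y1,z1]),(z1,[z1,z0,z0,z1]),(z1,[y1,z0,z1])],.ref k67 k0 [(z1,[y2,z3]),(z1,[z0,z0,z1]),(z1,[y1,z0,z0,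
    z3]),(z1,[z2,y3,y3,y3,z3])]],
    .base (.leafM k0 [k0,k1,k2,k3,k4,k5] [(z2,[z0,z2,z1,z1])] []),
    .lp k0 [k18,k16,k16,k16,k16,k12] [k0,k0,k1,k1,k1,k1,k1,k1,k1,k1,k3,k3] k0 [[k0,k0,k0,k0,k0,k0,k0,k0,k0,k0,k0,k0],
    [k0,k0,k0,k0,k0,k0,k0,k0,k0,k0,k0,k0],[k0,k0,k0,k0,k0,k0,k0,k0,k0,k0,k0,k0],[k0,k0,k0,k0,k0,k0,k0,k0,k0,k0,k0,k0],
    [k0,k0,k0,k0,k0,k0,k0,k0,k0,k0,k0,k0],[k0,k0,k0,k0,k0,k0,k0,k0,k0,k0,k0,k0],[k0,k0,k0,k0,k0,k0,k0,k0,k0,k0,k0,k0],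
    [k0,k0,k0,k0,k0,k0,k0,k0,k0,k0,k0,k0],[k0,k0,k0,k0,k0,k0,k0,k0,k0,k0,k0,k0],[k0,k0,k0,k0,k0,k0,k0,k0,k0,k0,k0,k0],
    [k0,k0,k0,k0,k0,k0,k0,k0,k0,k0,k0,k0],[k0,k0,k0,k0,k0,k0,k0,k0,k0,k0,k0,k0]] k48 k5
    [[(k10,k15),(k11,k15),(k8,k17),(k1,k18)],[(k2,k17),(k3,k17),(k4,k17),(k5,k17),(k6,k17),(k7,k17),(k9,k17),(k0,
    k18)],[(k2,k16),(k3,k16),(k4,k16),(k5,k16),(k6,k16),(k7,k16),(k9,k16),(k0,k17)],[(k2,k16),(k3,k16),(k4,k16),(k5,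
    k16),(k6,k16),(k7,k16),(k9,k16),(k0,k17)],[(k2,k16),(k3,k16),(k4,k16),(k5,k16),(k6,k16),(k7,k16),(k9,k16),(k0,
    k17)],[(k2,k16),(k3,k16),(k4,k16),(k5,k16),(k6,k16),(k7,k16),(k9,k16),(k0,k17)],[(k2,k16),(k3,k16),(k4,k16),(k5,
    k16),(k6,k16),(k7,k16),(k9,k16),(k0,k17)],[(k2,k16),(k3,k16),(k4,k16),(k5,k16),(k6,k16),(k7,k16),(k9,k16),(k0,
    k17)],[(k2,k16),(k3,k16),(k4,k16),(k5,k16),(k6,k16),(k7,k16),(k9,k16),(k0,k17)],[(k10,k14),(k11,k14),(k8,k16),(k1,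
    k17)],[(k10,k12),(k11,k12),(k8,k14),(k1,k15)],[(k10,k12),(k11,k12),(k8,k14),(k1,k15)]]
    [[k1,k0,k0,k0,k1,k1],[k0,k0,k0,k0,k2,k1],[k0,k0,k0,k0,k0,k3]]
    [.ref k3 k0 [(z1,[z2,z3,z2,z2,z2,y2]),(z1,[y4,z0,y1,y4,y4,z4]),(z1,[z2,z0,z2,z5,z2,y2]),(z1,[y1,z0,y1,y1,z2,z1]),
    (z1,[z2,y3,y1,y1,y1,z1])],.ref k3 k0 [(z1,[z2,z7,z4,z4,z4,y4]),(z1,[y4,y8,y5,y8,y8,z8]),(z1,[z2,z4,z4,z7,z4,y4]),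
    (z1,[y1,y2,y2,y2,z1,z2]),(z1,[z2,z1,z1,z1,z1,y1])],.ref k3 k0 [(z1,[y2,z3]),(z1,[z4,z0,z3]),(z1,[y2,z0,z0,z3]),
    (z1,[z1,z0,z0,z0,z3]),(z1,[y2,y3,y3,y3,y3,z3])]],
    .lp k0 [k74,k78,k84,k84,k76,k80] [k5,k5,k3,k3,k0,k0,k0,k0,k4,k4,k2,k2] k0 [[k0,k0,k6,k6,k0,k0,k0,k0,k0,k0,k0,k0],
    [k0,k0,k0,k0,k0,k6,k2,k0,k0,k0,k0,k0],[k0,k6,k0,k0,k0,k0,k0,k0,k0,k0,k0,k0],[k0,k6,k0,k0,k0,k0,k0,k0,k0,k0,k0,k0],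
    [k6,k0,k0,k0,k0,k0,k0,k4,k0,k0,k0,k0],[k0,k0,k0,k0,k0,k0,k0,k4,k0,k0,k0,k0],[k0,k0,k0,k0,k4,k4,k0,k0,k0,k0,k0,k0],
    [k2,k0,k0,k0,k0,k0,k0,k0,k0,k0,k0,k0],[k0,k0,k0,k0,k0,k0,k0,k0,k0,k0,k0,k12],[k0,k0,k0,k0,k0,k0,k0,k0,k0,k0,k0,
    k0],[k0,k0,k0,k0,k0,k0,k0,k0,k0,k12,k0,k0],[k0,k0,k0,k0,k0,k0,k0,k0,k0,k0,k0,k0]] (nat_lit 240) k5
    [[(k1,k74),(k8,k75),(k10,k77),(k11,k89)],[(k2,k70),(k5,k73),(k0,k74),(k9,k75),(k3,k76),(k4,k79),(k6,k81),(k7,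
    k85)],[(k4,k75),(k9,k75),(k0,k76),(k3,k78),(k6,k81),(k7,k81),(k2,k84),(k5,k87)],[(k0,k70),(k9,k77),(k2,k78),(k4,
    k81),(k5,k81),(k6,k81),(k7,k81),(k3,k84)],[(k0,k73),(k9,k80),(k2,k81),(k4,k84),(k5,k84),(k6,k84),(k7,k84),(k3,
    k87)],[(k3,k75),(k0,k79),(k6,k80),(k2,k81),(k4,k84),(k5,k84),(k7,k84),(k9,k84)],[(k6,k80),(k2,k81),(k3,k81),(k4,
    k84),(k5,k84),(k7,k84),(k9,k84),(k0,k85)],[(k4,k80),(k7,k80),(k9,k80),(k0,k81),(k2,k81),(k3,k81),(k5,k84),(k6,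
    k84)],[(k0,k75),(k3,k75),(k9,k76),(k2,k77),(k5,k80),(k6,k80),(k4,k84),(k7,k84)],[(k10,k66),(k1,k75),(k8,k76),(k11,
    k78)],[(k8,k78),(k10,k80),(k11,k80),(k1,k89)],[(k8,k66),(k1,k77),(k10,k80),(k11,k80)]]
    [[k2,k1,k0,k0,k0,k0],[k2,k0,k1,k0,k0,k0],[k1,k1,k0,k0,k1,k0],[k1,k0,k1,k0,k1,k0],[k1,k0,k0,k0,k1,k1],[k0,k1,k0,k0,
    k2,k0],[k0,k0,k0,k0,k2,k1]]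
    [.ref k3 k0 [(z1,[z3,y3,y1]),(z1,[y3,z6,z2]),(z1,[z3,y6,y1,z3]),(z1,[y6,z12,z2,z0,z3]),(z1,[z3,y6,y1])],
    .ref k3 k0 [(z1,[z1,z1,z0,y1]),(z1,[y1,z2,z1,z1]),(z1,[z1,y2,z0,z2]),(z1,[y2,z4,z0,z2,z3]),(z1,[z1,y2,z0,y1])],
    .ref k3 k0 [(z1,[z3,z0,y1]),(z1,[y3,z3,z2]),(z1,[z3,y3,y1,z3]),(z1,[y6,z6,z2,z0,z3]),(z1,[z3,y3,y1])],
    .ref k3 k0 [(z1,[z1,z2,z0,y1]),(z1,[y1,z1,z1,z1]),(z1,[z1,y1,z0,z2]),(z1,[y2,z2,z0,z2,z3]),(z1,[z1,y1,z0,y1])],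
    .ref k3 k0 [(z2,[z3,z6,z1,z3,z3,y3]),(z2,[y3,z0,z1,y3,y3,z3]),(z2,[z3,z0,z1,z9,z3,y3]),(z1,[y3,z0,y1,y3,z0,z3]),
    (z2,[z3,z0,z1,z3,z3,y3])],.ref k3 k0 [(z1,[z3,z3,y1]),(z1,[y3,z0,z2]),(z1,[z3,z0,y1,z3]),(z1,[y6,z0,z2,z0,z3]),
    (z1,[z3,z0,y1])],.ref k3 k0 [(z2,[z3,z9,z1,z3,z3,y3]),(z2,[y3,y3,z1,y3,y3,z3]),(z2,[z3,z3,z1,z9,z3,y3]),(z1,[y3,
    y3,y1,y3,z0,z3]),(z2,[z3,z3,z1,z3,z3,y3])]],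
    .lp k0 [k120,k112,k112,k112,k126,k84] [k3,k3,k7,k7,k7,k7,k7,k7,k0,k0,k21,k21] k0 [[k0,k0,k14,k0,k0,k0,k0,k0,k0,k0,
    k0,k0],[k14,k0,k0,k0,k0,k0,k0,k0,k0,k0,k0,k0],[k0,k0,k0,k0,k0,k0,k0,k0,k0,k0,k0,k0],[k0,k14,k0,k0,k0,k0,k14,k0,k0,
    k0,k0,k0],[k0,k0,k0,k0,k0,k0,k0,k0,k0,k0,k0,k0],[k0,k0,k0,k0,k0,k0,k0,k0,k0,k0,k0,k0],[k0,k0,k0,k0,k0,k0,k0,k0,k0,
    k0,k0,k0],[k0,k0,k14,k0,k0,k0,k0,k0,k0,k0,k0,k0],[k0,k0,k0,k0,k0,k0,k0,k0,k0,k0,k0,k0],[k0,k0,k0,k0,k0,k0,k0,k0,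
    k0,k0,k0,k0],[k0,k0,k0,k0,k0,k0,k0,k0,k0,k0,k0,k0],[k0,k0,k0,k0,k0,k0,k0,k0,k0,k0,k0,k0]] (nat_lit 336) k5
    [[(k10,k102),(k11,k102),(k1,k120),(k8,k123)],[(k5,k102),(k2,k116),(k3,k116),(k4,k116),(k6,k116),(k7,k116),(k9,
    k123),(k0,k134)],[(k3,k98),(k4,k112),(k5,k112),(k6,k112),(k7,k112),(k0,k116),(k9,k119),(k2,k126)],[(k2,k112),(k4,
    k112),(k5,k112),(k7,k112),(k0,k116),(k9,k119),(k3,k126),(k6,k126)],[(k0,k102),(k9,k105),(k2,k112),(k3,k112),(k4,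
    k112),(k5,k112),(k6,k112),(k7,k112)],[(k2,k112),(k3,k112),(k4,k112),(k5,k112),(k6,k112),(k7,k112),(k0,k116),(k9,
    k119)],[(k2,k112),(k3,k112),(k4,k112),(k5,k112),(k6,k112),(k7,k112),(k0,k116),(k9,k119)],[(k3,k112),(k4,k112),(k5,
    k112),(k6,k112),(k7,k112),(k0,k116),(k9,k119),(k2,k126)],[(k5,k105),(k2,k119),(k3,k119),(k4,k119),(k6,k119),(k7,
    k119),(k0,k123),(k9,k126)],[(k10,k105),(k11,k105),(k1,k123),(k8,k126)],[(k10,k84),(k11,k84),(k1,k102),(k8,k105)],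
    [(k10,k84),(k11,k84),(k1,k102),(k8,k105)]]
    [[k1,k0,k0,k0,k1,k1],[k0,k2,k1,k0,k0,k0],[k0,k0,k0,k0,k0,k3]]
    [.ref k80 k1 [(z1,[z1,y1]),(z1,[y1,z0,y1,y1,z1]),(z1,[z1,y1,z0,z2]),(z1,[y1,z1,z2])],.ref k81 k1 [(z1,[y1,z0,z2,
    z1]),(z1,[z2,y1,y5,y3,z1]),(z1,[y1,z0,z2,z2]),(z1,[z1,z0,y1,y1])],.ref k82 k0 [(z1,[z0,z1]),(z1,[y1,z0,z3]),(z1,
    [z0,z0,z0,z1]),(z1,[z0,y1,y1,y1,z1])]]]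

theorem hB6_104_6 : blkB [0, 0, 0, 0, 1, 1] [] sp6 hS6_104 (pcls (n := 6) [0, 0, 0, 0, 1, 1]) hD6_104 181 6 hN6_104_6 = true := by
  decide +kernel

/-- nodes 84 to 95 -/
noncomputable def hN6_104_7 : List HM :=
  [.lp k0 [k16,k16,k16,k16,k18,k12] [k1,k1,k1,k1,k1,k1,k1,k1,k0,k0,k3,k3] k0 [[k0,k0,k0,k0,k0,k0,k0,k0,k0,k0,k0,k0],
    [k0,k0,k0,k0,k0,k0,k0,k0,k0,k0,k0,k0],[k0,k0,k0,k0,k0,k0,k0,k0,k0,k0,k0,k0],[k0,k0,k0,k0,k0,k0,k0,k0,k0,k0,k0,k0],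
    [k0,k0,k0,k0,k0,k0,k0,k0,k0,k0,k0,k0],[k0,k0,k0,k0,k0,k0,k0,k0,k0,k0,k0,k0],[k0,k0,k0,k0,k0,k0,k0,k0,k0,k0,k0,k0],
    [k0,k0,k0,k0,k0,k0,k0,k0,k0,k0,k0,k0],[k0,k0,k0,k0,k0,k0,k0,k0,k0,k0,k0,k0],[k0,k0,k0,k0,k0,k0,k0,k0,k0,k0,k0,k0],
    [k0,k0,k0,k0,k0,k0,k0,k0,k0,k0,k0,k0],[k0,k0,k0,k0,k0,k0,k0,k0,k0,k0,k0,k0]] k48 k5
    [[(k10,k14),(k11,k14),(k1,k16),(k8,k17)],[(k0,k16),(k2,k16),(k3,k16),(k4,k16),(k5,k16),(k6,k16),(k7,k16),(k9,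
    k17)],[(k0,k16),(k2,k16),(k3,k16),(k4,k16),(k5,k16),(k6,k16),(k7,k16),(k9,k17)],[(k0,k16),(k2,k16),(k3,k16),(k4,
    k16),(k5,k16),(k6,k16),(k7,k16),(k9,k17)],[(k0,k16),(k2,k16),(k3,k16),(k4,k16),(k5,k16),(k6,k16),(k7,k16),(k9,
    k17)],[(k0,k16),(k2,k16),(k3,k16),(k4,k16),(k5,k16),(k6,k16),(k7,k16),(k9,k17)],[(k0,k16),(k2,k16),(k3,k16),(k4,
    k16),(k5,k16),(k6,k16),(k7,k16),(k9,k17)],[(k0,k16),(k2,k16),(k3,k16),(k4,k16),(k5,k16),(k6,k16),(k7,k16),(k9,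
    k17)],[(k0,k17),(k2,k17),(k3,k17),(k4,k17),(k5,k17),(k6,k17),(k7,k17),(k9,k18)],[(k10,k15),(k11,k15),(k1,k17),(k8,
    k18)],[(k10,k12),(k11,k12),(k1,k14),(k8,k15)],[(k10,k12),(k11,k12),(k1,k14),(k8,k15)]]
    [[k2,k0,k0,k0,k0,k1],[k1,k0,k0,k0,k1,k1],[k0,k0,k0,k0,k0,k3]]
    [.ref k3 k0 [(z4,[z3,z1]),(z2,[y3,z1,z2]),(z1,[z0,z0,z0,z1]),(z1,[z0,z0,z0,z0,z1]),(z4,[y3,y1,y4,y4,y4,z12])],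
    .ref k3 k0 [(z2,[z3,z1,z1,z1,z1,y3]),(z1,[y3,z0,z0,y1,y1,z3]),(z1,[z0,z0,z0,z1]),(z1,[z0,z0,z0,z0,z1]),(z2,[y3,y1,
    y3,y3,y3,z9])],.ref k3 k0 [(z2,[z1,z1]),(z1,[y1,z0,z1]),(z1,[z0,z0,z0,z1]),(z1,[z0,z0,z0,z0,z1]),(z2,[y1,y1,y2,y2,
    y2,z6])]],
    .lp k0 [k16,k16,k18,k16,k12,k16] [k1,k1,k1,k1,k0,k0,k1,k1,k3,k3,k1,k1] k0 [[k0,k0,k0,k0,k2,k2,k0,k4,k0,k0,k0,k0],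
    [k0,k0,k0,k0,k0,k0,k0,k0,k0,k0,k0,k0],[k0,k0,k0,k0,k0,k0,k0,k0,k0,k0,k0,k0],[k0,k0,k0,k0,k0,k0,k0,k4,k0,k0,k0,k0],
    [k0,k2,k0,k0,k0,k0,k2,k0,k0,k0,k0,k0],[k0,k2,k0,k0,k0,k0,k2,k0,k0,k0,k0,k0],[k0,k4,k4,k0,k0,k0,k0,k0,k0,k0,k0,k0],
    [k0,k0,k0,k0,k2,k2,k0,k0,k0,k0,k0,k0],[k0,k0,k0,k0,k0,k0,k0,k0,k0,k0,k0,k0],[k0,k0,k0,k0,k0,k0,k0,k0,k0,k0,k0,k0],
    [k0,k0,k0,k0,k0,k0,k0,k0,k0,k0,k0,k0],[k0,k0,k0,k0,k0,k0,k0,k0,k0,k0,k0,k0]] k48 k5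
    [[(k8,k14),(k1,k16),(k10,k16),(k11,k16)],[(k6,k12),(k7,k14),(k9,k14),(k4,k15),(k0,k16),(k2,k16),(k3,k16),(k5,
    k17)],[(k0,k16),(k2,k16),(k3,k16),(k6,k16),(k5,k17),(k7,k18),(k9,k18),(k4,k19)],[(k0,k16),(k2,k16),(k3,k16),(k6,
    k16),(k7,k16),(k4,k17),(k5,k17),(k9,k18)],[(k6,k13),(k9,k15),(k0,k17),(k2,k17),(k3,k17),(k7,k17),(k4,k18),(k5,
    k18)],[(k9,k13),(k0,k15),(k2,k17),(k7,k17),(k4,k18),(k5,k18),(k3,k19),(k6,k19)],[(k9,k12),(k0,k14),(k2,k16),(k7,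
    k16),(k4,k17),(k5,k17),(k3,k18),(k6,k18)],[(k0,k12),(k5,k13),(k9,k14),(k2,k16),(k3,k16),(k6,k16),(k7,k18),(k4,
    k19)],[(k7,k12),(k9,k12),(k4,k13),(k0,k14),(k6,k14),(k5,k15),(k2,k18),(k3,k18)],[(k8,k12),(k1,k14),(k10,k14),(k11,
    k14)],[(k8,k14),(k1,k16),(k10,k16),(k11,k16)],[(k8,k14),(k1,k16),(k10,k16),(k11,k16)]]
    [[k2,k0,k0,k1,k0,k0],[k1,k0,k1,k0,k1,k0],[k1,k0,k0,k1,k1,k0],[k1,k0,k0,k0,k1,k1],[k0,k0,k1,k0,k2,k0],[k0,k0,k0,k1,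
    k2,k0],[k0,k0,k0,k0,k2,k1]]
    [.ref k3 k0 [(z1,[z0,z1]),(z1,[z6,y4,z1,z0,y3]),(z2,[y6,z4,z0,z1,z3]),(z1,[z3,y2]),(z1,[y6,z4,z0,z0,z3])],
    .ref k3 k0 [(z1,[z0,z1]),(z3,[y6,z2,z3,z1]),(z3,[z3,y1,z0,z1]),(z6,[y6,z2,z0,z1,z9]),(z3,[z6,y2,z0,y1])],
    .ref k3 k0 [(z1,[z0,z1]),(z1,[y6,z2,z1,z0,z3]),(z2,[z6,y2,z0,z1,y3]),(z1,[y3,z1,z0,z0,z3]),(z1,[z6,y2,z0,z0,y3])],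
    .ref k3 k0 [(z1,[z0,z1]),(z2,[y6,z0,z0,y1,y3,z6]),(z4,[z6,z0,z2,z3,z3,y6]),(z4,[y6,z0,y2,y1,z3,z6]),(z2,[z6,z0,z2,
    z1,z3,y6])],.ref k3 k0 [(z1,[z0,z1]),(z5,[y6,z0,z5,z1]),(z5,[z3,z0,z0,z2]),(z10,[y6,z0,z0,z1,z15]),(z5,[z6,z0,z0,
    y1])],.ref k3 k0 [(z1,[z0,z1]),(z1,[y2,z0,z1,z0,z1]),(z2,[z2,z0,z0,z1,y1]),(z1,[y1,z0,z0,z0,z2]),(z1,[z2,z0,z0,z0,
    y1])],.ref k3 k0 [(z1,[z0,z1]),(z4,[y6,y2,z2,y1,y3,z6]),(z8,[z6,z2,z2,z5,z3,y6]),(z8,[y6,y2,y2,y1,z9,z6]),(z4,[z6,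
    z2,z2,z1,z3,y6])]],
    .lp k0 [k120,k112,k112,k112,k126,k84] [k3,k3,k7,k7,k7,k7,k7,k7,k0,k0,k21,k21] k0 [[k0,k0,k14,k0,k0,k0,k0,k0,k0,k0,
    k0,k0],[k14,k0,k0,k0,k0,k0,k0,k0,k0,k0,k0,k0],[k0,k0,k0,k0,k0,k0,k0,k0,k0,k0,k0,k0],[k0,k14,k0,k0,k0,k0,k14,k0,k0,
    k0,k0,k0],[k0,k0,k0,k0,k0,k0,k0,k0,k0,k0,k0,k0],[k0,k0,k0,k0,k0,k0,k0,k0,k0,k0,k0,k0],[k0,k0,k0,k0,k0,k0,k0,k0,k0,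
    k0,k0,k0],[k0,k0,k14,k0,k0,k0,k0,k0,k0,k0,k0,k0],[k0,k0,k0,k0,k0,k0,k0,k0,k0,k0,k0,k0],[k0,k0,k0,k0,k0,k0,k0,k0,
    k0,k0,k0,k0],[k0,k0,k0,k0,k0,k0,k0,k0,k0,k0,k0,k0],[k0,k0,k0,k0,k0,k0,k0,k0,k0,k0,k0,k0]] (nat_lit 336) k5
    [[(k10,k102),(k11,k102),(k1,k120),(k8,k123)],[(k5,k102),(k2,k116),(k3,k116),(k4,k116),(k6,k116),(k7,k116),(k9,
    k123),(k0,k134)],[(k3,k98),(k4,k112),(k5,k112),(k6,k112),(k7,k112),(k0,k116),(k9,k119),(k2,k126)],[(k2,k112),(k4,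
    k112),(k5,k112),(k7,k112),(k0,k116),(k9,k119),(k3,k126),(k6,k126)],[(k0,k102),(k9,k105),(k2,k112),(k3,k112),(k4,
    k112),(k5,k112),(k6,k112),(k7,k112)],[(k2,k112),(k3,k112),(k4,k112),(k5,k112),(k6,k112),(k7,k112),(k0,k116),(k9,
    k119)],[(k2,k112),(k3,k112),(k4,k112),(k5,k112),(k6,k112),(k7,k112),(k0,k116),(k9,k119)],[(k3,k112),(k4,k112),(k5,
    k112),(k6,k112),(k7,k112),(k0,k116),(k9,k119),(k2,k126)],[(k5,k105),(k2,k119),(k3,k119),(k4,k119),(k6,k119),(k7,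
    k119),(k0,k123),(k9,k126)],[(k10,k105),(k11,k105),(k1,k123),(k8,k126)],[(k10,k84),(k11,k84),(k1,k102),(k8,k105)],
    [(k10,k84),(k11,k84),(k1,k102),(k8,k105)]]
    [[k1,k0,k0,k0,k1,k1],[k0,k2,k1,k0,k0,k0],[k0,k0,k0,k0,k0,k3]]
    [.ref k80 k0 [(z1,[z0,z1]),(z2,[y2,z1,z1]),(z2,[z2,y1,z0,z1]),(z2,[y2,y1,y2,y1,z4])],.ref k84 k1 [(z1,[y4,z0,z4,
    z1]),(z2,[z2,y3,y5,y2,z6]),(z1,[y1,z0,z1,z1]),(z2,[z4,z0,y1,y1])],.ref k85 k0 [(z2,[y1,z3]),(z2,[z1,z0,z3]),(z2,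
    [y1,z0,z0,z3]),(z2,[y1,y2,y2,y1,z4])]],
    .lp k0 [k74,k88,k80,k84,k70,k80] [k7,k7,k0,k0,k4,k4,k2,k2,k9,k9,k4,k4] k0 [[k0,k0,k0,k0,k0,k4,k0,k0,k0,k0,k0,k0],
    [k0,k0,k4,k0,k0,k12,k12,k0,k0,k0,k0,k0],[k0,k0,k0,k0,k4,k0,k0,k16,k0,k0,k0,k0],[k4,k0,k0,k0,k4,k0,k0,k0,k0,k0,k0,
    k0],[k12,k4,k0,k0,k0,k0,k0,k0,k0,k0,k0,k0],[k0,k0,k4,k4,k0,k0,k0,k4,k0,k0,k0,k0],[k0,k0,k0,k16,k4,k0,k0,k0,k0,k0,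
    k0,k0],[k12,k0,k0,k0,k0,k0,k0,k0,k0,k0,k0,k0],[k0,k0,k0,k0,k0,k0,k0,k0,k0,k0,k0,k12],[k0,k0,k0,k0,k0,k0,k0,k0,k0,
    k0,k0,k0],[k0,k0,k0,k0,k0,k0,k0,k0,k0,k12,k0,k0],[k0,k0,k0,k0,k0,k0,k0,k0,k0,k0,k0,k0]] (nat_lit 240) k5
    [[(k8,k72),(k1,k74),(k10,k77),(k11,k89)],[(k9,k72),(k4,k73),(k0,k74),(k5,k77),(k3,k81),(k2,k85),(k6,k91),(k7,
    k91)],[(k9,k67),(k4,k72),(k5,k80),(k0,k81),(k6,k86),(k2,k88),(k3,k88),(k7,k90)],[(k6,k70),(k9,k79),(k7,k82),(k5,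
    k84),(k0,k85),(k2,k88),(k3,k88),(k4,k88)],[(k0,k77),(k7,k78),(k3,k80),(k5,k80),(k6,k82),(k2,k84),(k4,k84),(k9,
    k91)],[(k3,k72),(k0,k73),(k9,k79),(k4,k80),(k6,k82),(k7,k82),(k5,k84),(k2,k88)],[(k9,k77),(k5,k78),(k6,k80),(k2,
    k82),(k4,k82),(k7,k84),(k3,k90),(k0,k91)],[(k2,k70),(k9,k77),(k7,k80),(k4,k82),(k5,k82),(k6,k84),(k3,k86),(k0,
    k91)],[(k3,k67),(k9,k70),(k0,k72),(k6,k77),(k7,k77),(k2,k79),(k4,k79),(k5,k91)],[(k10,k63),(k8,k70),(k1,k72),(k11,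
    k75)],[(k8,k75),(k10,k80),(k11,k80),(k1,k89)],[(k8,k63),(k1,k77),(k10,k80),(k11,k80)]]
    [[k2,k0,k1,k0,k0,k0],[k1,k1,k0,k0,k1,k0],[k1,k0,k1,k0,k1,k0],[k1,k0,k0,k0,k1,k1],[k0,k1,k1,k1,k0,k0],[k0,k1,k0,k0,
    k2,k0],[k0,k0,k0,k1,k2,k0],[k0,k0,k0,k0,k2,k1]]
    [.ref k72 k0 [(z1,[z2,z3,z1,y2]),(z1,[y1,z1,z2,z1]),(z1,[z1,y6,y2,z4])],.ref k74 k0 [(z1,[z2,y1,y1]),(z1,[y1,z1,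
    z1]),(z1,[z1,y2,y1,z1])],.ref k75 k1 [(z1,[z2,z3,z1,y2]),(z1,[y2,z0,y1,z2]),(z1,[z1,y3,y1,z2])],.ref k76 k1 [(z1,
    [z1]),(z1,[y1,z1]),(z1,[z1,y3,y1,z2])],.ref k76 k1 [(z1,[y1,z0,z0,z1]),(z1,[z1,z1,z0,y1]),(z1,[y1,y3,y1,z3])],
    .ref k79 k0 [(z1,[y2,z1,z1]),(z1,[z1]),(z1,[y1,y1,z0,z1])],.ref k83 k0 [(z1,[y1,z1]),(z2,[z1,z0,z1]),(z2,[y1,y2,
    y1,z2])],.ref k86 k1 [(z1,[z1]),(z1,[y1,z2]),(z1,[z1,y6,y2,z4])]],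
    .base (.leafM k0 [k0,k1,k2,k3,k4,k5] [(z1,[z0,z1,z1])] []),
    .lp k0 [k40,k42,k42,k42,k32,k40] [k1,k1,k0,k0,k0,k0,k0,k0,k5,k5,k1,k1] k0 [[k0,k0,k0,k0,k0,k0,k0,k8,k0,k0,k0,k0],
    [k0,k0,k0,k6,k0,k0,k0,k0,k0,k0,k0,k0],[k6,k0,k0,k0,k0,k0,k0,k6,k0,k0,k0,k0],[k0,k0,k0,k0,k0,k0,k0,k6,k0,k0,k0,k0],
    [k0,k0,k0,k0,k0,k0,k0,k0,k0,k0,k0,k0],[k0,k0,k0,k0,k0,k0,k0,k0,k0,k0,k0,k0],[k0,k8,k6,k6,k0,k0,k0,k0,k0,k0,k0,k0],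
    [k0,k0,k0,k0,k0,k0,k0,k0,k0,k0,k0,k0],[k0,k0,k0,k0,k0,k0,k0,k0,k0,k0,k0,k0],[k0,k0,k0,k0,k0,k0,k0,k0,k0,k0,k0,k0],
    [k0,k0,k0,k0,k0,k0,k0,k0,k0,k0,k0,k0],[k0,k0,k0,k0,k0,k0,k0,k0,k0,k0,k0,k0]] k120 k5
    [[(k8,k36),(k1,k40),(k10,k40),(k11,k40)],[(k6,k33),(k9,k36),(k0,k40),(k2,k41),(k3,k41),(k4,k41),(k7,k41),(k5,
    k47)],[(k2,k36),(k0,k41),(k3,k42),(k4,k42),(k5,k42),(k6,k42),(k7,k42),(k9,k45)],[(k3,k36),(k6,k36),(k0,k41),(k2,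
    k42),(k4,k42),(k5,k42),(k7,k42),(k9,k43)],[(k6,k36),(k2,k42),(k3,k42),(k4,k42),(k5,k42),(k7,k42),(k9,k43),(k0,
    k47)],[(k9,k37),(k0,k41),(k2,k42),(k3,k42),(k4,k42),(k5,k42),(k6,k42),(k7,k42)],[(k9,k37),(k0,k41),(k2,k42),(k3,
    k42),(k4,k42),(k5,k42),(k6,k42),(k7,k42)],[(k0,k33),(k2,k36),(k5,k36),(k9,k37),(k3,k42),(k4,k42),(k6,k42),(k7,
    k42)],[(k9,k32),(k0,k36),(k4,k37),(k6,k37),(k7,k37),(k2,k43),(k5,k43),(k3,k45)],[(k8,k32),(k1,k36),(k10,k36),(k11,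
    k36)],[(k8,k36),(k1,k40),(k10,k40),(k11,k40)],[(k8,k36),(k1,k40),(k10,k40),(k11,k40)]]
    [[k2,k0,k0,k1,k0,k0],[k1,k0,k0,k1,k1,k0],[k1,k0,k0,k0,k1,k1],[k0,k3,k0,k0,k0,k0],[k0,k2,k0,k1,k0,k0],[k0,k0,k1,k0,
    k2,k0],[k0,k0,k0,k1,k2,k0],[k0,k0,k0,k0,k2,k1]]
    [.ref k3 k0 [(z1,[z0,z1]),(z1,[y3,z2,z1,z0,z3]),(z1,[y3,z2,z0,z1,z3]),(z1,[z3,y2]),(z1,[z3,y2,z0,z0,y3])],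
    .ref k3 k0 [(z1,[z0,z1]),(z2,[y3,z1,z2,z0,z3]),(z2,[y3,z1,z0,z2,z3]),(z2,[z3,y1,z0,z0,z3]),(z2,[z3,y1,z0,z0,y3])],
    .ref k3 k0 [(z1,[z0,z1]),(z1,[y3,z0,z0,y1,y3,z3]),(z1,[y3,z0,y1,z0,y3,z3]),(z1,[z3,z0,z1,z1,z6,y3]),(z1,[z3,z0,z1,
    z1,z3,y3])],.ref k3 k0 [(z1,[z0,z1]),(z1,[z1]),(z1,[z1,z0,y1,z1]),(z1,[y1,z0,z1,z0,z3]),(z1,[y1,z0,z1])],
    .ref k3 k0 [(z1,[z0,z1]),(z1,[z3,z0,y1,z0,y3]),(z1,[z3,z0,y2,z1,y3]),(z1,[y3,z0,z2,z0,z6]),(z1,[y3,z0,z2,z0,z3])],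
    .ref k3 k0 [(z1,[z0,z1]),(z1,[y3,z0,z1,z1]),(z1,[y3,z0,z0,z2]),(z1,[z3,z0,z0,y1,z3]),(z1,[z3,z0,z0,y1])],
    .ref k3 k0 [(z1,[z0,z1]),(z1,[y1,z0,z1,z0,z1]),(z1,[y1,z0,z0,z1,z1]),(z1,[z1,z0,z0,z0,z2]),(z1,[z1,z0,z0,z0,y1])],
    .ref k3 k0 [(z1,[z0,z1]),(z2,[y3,y1,z1,y1,y3,z3]),(z2,[y3,y1,y1,z1,y3,z3]),(z2,[z3,z1,z1,z1,z9,y3]),(z2,[z3,z1,z1,
    z1,z3,y3])]],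
    .base (.leafM k0 [k0,k1,k2,k3,k4,k5] [(z3,[z0,z1,z1])] []),
    .lp k0 [(nat_lit 1301520),(nat_lit 1635480),(nat_lit 1468038),(nat_lit 1468038),(nat_lit 1580964),
    (nat_lit 1505680)] [(nat_lit 166980),(nat_lit 166980),k0,k0,(nat_lit 83721),(nat_lit 83721),(nat_lit 83721),
    (nat_lit 83721),(nat_lit 27258),(nat_lit 27258),(nat_lit 64900),(nat_lit 64900)] k0 [[k0,k0,k0,k0,(nat_lit 75284),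
    (nat_lit 75284),k0,k0,k0,k0,k0,k0],[k0,k0,k0,k0,k0,k0,k0,k0,k0,k0,k0,k0],[k0,k0,k0,k0,(nat_lit 112926),
    (nat_lit 112926),k0,k0,k0,k0,k0,k0],[k0,k0,k0,k0,k0,k0,k0,k0,k0,k0,k0,k0],[k0,(nat_lit 75284),k0,(nat_lit 112926),
    k0,k0,(nat_lit 112926),k0,k0,k0,k0,k0],[k0,(nat_lit 75284),k0,(nat_lit 112926),k0,k0,(nat_lit 112926),k0,k0,k0,k0,
    k0],[k0,k0,k0,k0,k0,k0,k0,k0,k0,k0,k0,k0],[k0,k0,k0,k0,(nat_lit 112926),(nat_lit 112926),k0,k0,k0,k0,k0,k0],[k0,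
    k0,k0,k0,k0,k0,k0,k0,k0,k0,k0,(nat_lit 410640)],[k0,k0,k0,k0,k0,k0,k0,k0,k0,k0,k0,k0],[k0,k0,k0,k0,k0,k0,k0,k0,k0,
    (nat_lit 410640),k0,k0],[k0,k0,k0,k0,k0,k0,k0,k0,k0,k0,k0,k0]] (nat_lit 4517040) k5
    [[(k1,(nat_lit 1301520)),(k10,(nat_lit 1403600)),(k8,(nat_lit 1441242)),(k11,(nat_lit 1814240))],[(k0,
    (nat_lit 1301520)),(k4,(nat_lit 1309495)),(k7,(nat_lit 1309495)),(k5,(nat_lit 1384779)),(k6,(nat_lit 1384779)),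
    (k9,(nat_lit 1441242)),(k2,(nat_lit 1468500)),(k3,(nat_lit 1468500))],[(k0,(nat_lit 1468500)),(k5,
    (nat_lit 1551759)),(k6,(nat_lit 1551759)),(k9,(nat_lit 1608222)),(k4,(nat_lit 1627043)),(k7,(nat_lit 1627043)),
    (k2,(nat_lit 1635480)),(k3,(nat_lit 1635480))],[(k4,(nat_lit 1438833)),(k7,(nat_lit 1438833)),(k0,
    (nat_lit 1468500)),(k5,(nat_lit 1551759)),(k6,(nat_lit 1551759)),(k9,(nat_lit 1608222)),(k2,(nat_lit 1635480)),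
    (k3,(nat_lit 1635480))],[(k0,(nat_lit 1384779)),(k5,(nat_lit 1468038)),(k6,(nat_lit 1468038)),(k9,
    (nat_lit 1524501)),(k2,(nat_lit 1551759)),(k3,(nat_lit 1551759)),(k4,(nat_lit 1580964)),(k7,(nat_lit 1580964))],
    [(k0,(nat_lit 1309495)),(k9,(nat_lit 1411575)),(k2,(nat_lit 1438833)),(k4,(nat_lit 1468038)),(k7,
    (nat_lit 1468038)),(k5,(nat_lit 1580964)),(k6,(nat_lit 1580964)),(k3,(nat_lit 1627043))],[(k0,(nat_lit 1309495)),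
    (k9,(nat_lit 1411575)),(k2,(nat_lit 1438833)),(k4,(nat_lit 1468038)),(k7,(nat_lit 1468038)),(k5,
    (nat_lit 1580964)),(k6,(nat_lit 1580964)),(k3,(nat_lit 1627043))],[(k0,(nat_lit 1384779)),(k5,(nat_lit 1468038)),
    (k6,(nat_lit 1468038)),(k9,(nat_lit 1524501)),(k2,(nat_lit 1551759)),(k3,(nat_lit 1551759)),(k4,
    (nat_lit 1580964)),(k7,(nat_lit 1580964))],[(k4,(nat_lit 1411575)),(k7,(nat_lit 1411575)),(k0,(nat_lit 1441242)),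
    (k5,(nat_lit 1524501)),(k6,(nat_lit 1524501)),(k9,(nat_lit 1580964)),(k2,(nat_lit 1608222)),(k3,
    (nat_lit 1608222))],[(k10,(nat_lit 1132682)),(k1,(nat_lit 1441242)),(k11,(nat_lit 1543322)),(k8,
    (nat_lit 1580964))],[(k10,(nat_lit 1505680)),(k11,(nat_lit 1505680)),(k8,(nat_lit 1543322)),(k1,
    (nat_lit 1814240))],[(k8,(nat_lit 1132682)),(k1,(nat_lit 1403600)),(k10,(nat_lit 1505680)),(k11,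
    (nat_lit 1505680))]]
    [[k2,k1,k0,k0,k0,k0],[k2,k0,k1,k0,k0,k0],[k2,k0,k0,k1,k0,k0],[k1,k0,k1,k0,k1,k0],[k1,k0,k0,k1,k1,k0],[k1,k0,k0,k0,
    k1,k1],[k0,k0,k0,k0,k2,k1]]
    [.ref k3 k0 [(z1,[z0,z1]),(z1,[z3,y2]),(z1,[y6,z4,z2,z1]),(z1,[z6,y4,y2,z0,z3]),(z1,[y3,z2,z1])],.ref k3 k0 [(z1,
    [z0,z1]),(z2,[y3,z2,z2,z1]),(z1,[z3,y2]),(z1,[y3,z2,z0,z1,z3]),(z2,[z3,y2,z0,y1])],.ref k3 k0 [(z1,[z0,z1]),(z2,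
    [z3,y2,z2,z0,y3]),(z1,[y3,z2,z0,z1,z3]),(z1,[z3,y2]),(z2,[y3,z2,z0,z0,z3])],.ref k3 k0 [(z1,[z0,z1]),(z3,[y3,z1,
    z3,z1]),(z3,[z6,y2,z0,z1]),(z3,[y6,z2,z0,z2,z9]),(z3,[z3,y1,z0,y1])],.ref k3 k0 [(z1,[z0,z1]),(z1,[z3,y1,z1,z0,
    y3]),(z1,[y6,z2,z0,z1,z6]),(z1,[z6,y2,z0,z0,y3]),(z1,[y3,z1,z0,z0,z3])],.ref k3 k0 [(z1,[z0,z1]),(z1,[y3,z0,z0,y1,
    y3,z3]),(z1,[z6,z0,z2,z3,z6,y6]),(z1,[y6,z0,y2,y2,y3,z6]),(z1,[z3,z0,z1,z1,z3,y3])],.ref k3 k0 [(z1,[z0,z1]),(z2,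
    [y3,y1,z1,y1,y3,z3]),(z1,[z3,z1,z1,z2,z3,y3]),(z1,[y3,y1,y1,y1,z0,z3]),(z2,[z3,z1,z1,z1,z3,y3])]],
    .lp k0 [k78,k88,k78,k78,k74,k80] [k5,k5,k0,k0,k5,k5,k5,k5,k7,k7,k4,k4] k0 [[k0,k0,k0,k0,k2,k2,k0,k4,k0,k0,k0,k0],
    [k16,k0,k0,k8,k0,k0,k0,k0,k0,k0,k0,k0],[k8,k0,k0,k0,k6,k6,k0,k0,k0,k0,k0,k0],[k0,k0,k0,k0,k0,k0,k8,k0,k0,k0,k0,
    k0],[k0,k2,k0,k6,k0,k0,k6,k0,k0,k0,k0,k0],[k0,k2,k0,k6,k0,k0,k6,k0,k0,k0,k0,k0],[k0,k4,k0,k0,k0,k0,k0,k0,k0,k0,k0,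
    k0],[k0,k0,k8,k0,k6,k6,k0,k0,k0,k0,k0,k0],[k0,k0,k0,k0,k0,k0,k0,k0,k0,k0,k0,k0],[k0,k0,k0,k0,k0,k0,k0,k0,k0,k0,
    k12,k0],[k0,k0,k0,k0,k0,k0,k0,k0,k0,k0,k0,k0],[k0,k0,k0,k0,k0,k0,k0,k0,k12,k0,k0,k0]] (nat_lit 240) k5
    [[(k11,k67),(k8,k76),(k1,k78),(k10,k79)],[(k6,k74),(k4,k76),(k7,k76),(k9,k76),(k2,k83),(k3,k83),(k5,k86),(k0,
    k94)],[(k3,k72),(k2,k80),(k0,k83),(k5,k83),(k6,k83),(k4,k85),(k7,k85),(k9,k85)],[(k4,k77),(k7,k77),(k3,k80),(k9,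
    k81),(k0,k83),(k5,k83),(k2,k88),(k6,k91)],[(k9,k68),(k5,k78),(k6,k78),(k2,k83),(k3,k83),(k4,k84),(k7,k84),(k0,
    k86)],[(k9,k70),(k0,k76),(k2,k77),(k4,k78),(k7,k78),(k5,k84),(k6,k84),(k3,k85)],[(k9,k70),(k0,k76),(k2,k77),(k4,
    k78),(k7,k78),(k5,k84),(k6,k84),(k3,k85)],[(k0,k74),(k9,k76),(k5,k78),(k6,k78),(k3,k83),(k4,k84),(k7,k84),(k2,
    k91)],[(k5,k68),(k4,k70),(k7,k70),(k9,k74),(k0,k76),(k6,k76),(k2,k81),(k3,k85)],[(k8,k74),(k1,k76),(k11,k77),(k10,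
    k89)],[(k1,k67),(k8,k77),(k10,k80),(k11,k80)],[(k1,k79),(k10,k80),(k11,k80),(k8,k89)]]
    [[k2,k0,k0,k1,k0,k0],[k1,k0,k1,k0,k1,k0],[k1,k0,k0,k1,k1,k0],[k1,k0,k0,k0,k1,k1],[k0,k2,k1,k0,k0,k0],[k0,k0,k1,k0,
    k2,k0],[k0,k0,k0,k1,k2,k0]]
    [.ref k15 k0 [(z1,[z0,z1]),(z1,[z0,z0,z1]),(z1,[y3,z2,z0,z1]),(z1,[z3,y2])],.ref k89 k0 [(z1,[z0,z1]),(z1,[z0,z0,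
    z1]),(z1,[z3,y1]),(z3,[y3,z1,z0,z1])],.ref k51 k0 [(z1,[z0,z1]),(z1,[z0,z0,z1]),(z3,[y3,z1,z0,z1]),(z1,[z3,y1])],
    .ref k90 k0 [(z1,[z0,z1]),(z1,[y3,z0,z0,y1,z3]),(z1,[z0,z0,z0,z1]),(z1,[z3,z0,z1,z1,y3])],.ref k91 k0 [(z1,[z0,
    z1]),(z1,[z0,z0,z1]),(z1,[z3,z0,y2]),(z3,[y3,z0,z2,z1])],.ref k5 k0 [(z1,[z0,z1]),(z1,[z0,z0,z1]),(z1,[z1]),(z1,
    [y3,z0,z0,z1])],.ref k91 k0 [(z1,[z0,z1]),(z1,[z0,z0,z1]),(z1,[y3,z0,z0,z1]),(z1,[z1])]],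
    .lp k0 [k18,k16,k16,k16,k16,k12] [k0,k0,k1,k1,k1,k1,k1,k1,k1,k1,k3,k3] k0 [[k0,k0,k0,k0,k0,k0,k0,k0,k0,k0,k0,k0],
    [k0,k0,k0,k0,k0,k0,k0,k0,k0,k0,k0,k0],[k0,k0,k0,k0,k0,k0,k0,k0,k0,k0,k0,k0],[k0,k0,k0,k0,k0,k0,k0,k0,k0,k0,k0,k0],
    [k0,k0,k0,k0,k0,k0,k0,k0,k0,k0,k0,k0],[k0,k0,k0,k0,k0,k0,k0,k0,k0,k0,k0,k0],[k0,k0,k0,k0,k0,k0,k0,k0,k0,k0,k0,k0],
    [k0,k0,k0,k0,k0,k0,k0,k0,k0,k0,k0,k0],[k0,k0,k0,k0,k0,k0,k0,k0,k0,k0,k0,k0],[k0,k0,k0,k0,k0,k0,k0,k0,k0,k0,k0,k0],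
    [k0,k0,k0,k0,k0,k0,k0,k0,k0,k0,k0,k0],[k0,k0,k0,k0,k0,k0,k0,k0,k0,k0,k0,k0]] k48 k5
    [[(k10,k15),(k11,k15),(k8,k17),(k1,k18)],[(k2,k17),(k3,k17),(k4,k17),(k5,k17),(k6,k17),(k7,k17),(k9,k17),(k0,
    k18)],[(k2,k16),(k3,k16),(k4,k16),(k5,k16),(k6,k16),(k7,k16),(k9,k16),(k0,k17)],[(k2,k16),(k3,k16),(k4,k16),(k5,
    k16),(k6,k16),(k7,k16),(k9,k16),(k0,k17)],[(k2,k16),(k3,k16),(k4,k16),(k5,k16),(k6,k16),(k7,k16),(k9,k16),(k0,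
    k17)],[(k2,k16),(k3,k16),(k4,k16),(k5,k16),(k6,k16),(k7,k16),(k9,k16),(k0,k17)],[(k2,k16),(k3,k16),(k4,k16),(k5,
    k16),(k6,k16),(k7,k16),(k9,k16),(k0,k17)],[(k2,k16),(k3,k16),(k4,k16),(k5,k16),(k6,k16),(k7,k16),(k9,k16),(k0,
    k17)],[(k2,k16),(k3,k16),(k4,k16),(k5,k16),(k6,k16),(k7,k16),(k9,k16),(k0,k17)],[(k10,k14),(k11,k14),(k8,k16),(k1,
    k17)],[(k10,k12),(k11,k12),(k8,k14),(k1,k15)],[(k10,k12),(k11,k12),(k8,k14),(k1,k15)]]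
    [[k1,k0,k0,k0,k1,k1],[k0,k0,k0,k0,k2,k1],[k0,k0,k0,k0,k0,k3]]
    [.ref k88 k0 [(z1,[z0,z1]),(z2,[y2,z1,z1]),(z2,[z0,y1,y1,z2])],.ref k88 k0 [(z1,[z0,z1]),(z2,[y1,z0,z1]),(z2,[z0,
    y1,y1,z2])],.ref k92 k0 [(z2,[y1,z3]),(z2,[z1,z0,z3]),(z2,[y2,y3,y3,z6])]],
    .lp k0 [k146,k176,k158,k170,k146,k160] [k15,k15,k0,k0,k9,k9,k3,k3,k15,k15,k8,k8] k0 [[k0,k0,k0,k0,k0,k0,k0,k0,k0,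
    k0,k0,k0],[k0,k0,k12,k0,k0,k18,k0,k0,k0,k0,k0,k0],[k0,k0,k0,k0,k6,k0,k0,k36,k0,k0,k0,k0],[k12,k0,k0,k0,k6,k0,k0,
    k0,k0,k0,k0,k0],[k18,k0,k0,k0,k0,k0,k6,k18,k0,k0,k0,k0],[k0,k0,k6,k6,k0,k0,k0,k0,k0,k0,k0,k0],[k0,k0,k0,k36,k0,
    k18,k0,k0,k0,k0,k0,k0],[k0,k0,k0,k0,k0,k6,k0,k0,k0,k0,k0,k0],[k0,k0,k0,k0,k0,k0,k0,k0,k0,k0,k0,k28],[k0,k0,k0,k0,
    k0,k0,k0,k0,k0,k0,k0,k0],[k0,k0,k0,k0,k0,k0,k0,k0,k0,k28,k0,k0],[k0,k0,k0,k0,k0,k0,k0,k0,k0,k0,k0,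
    k0]] (nat_lit 480) k5
    [[(k1,k146),(k8,k146),(k10,k153),(k11,k181)],[(k0,k146),(k9,k146),(k4,k152),(k5,k152),(k6,k158),(k3,k161),(k2,
    k173),(k7,k176)],[(k4,k149),(k5,k155),(k0,k161),(k9,k161),(k6,k173),(k7,k173),(k2,k176),(k3,k176)],[(k6,k137),(k9,
    k161),(k5,k167),(k7,k167),(k0,k173),(k4,k173),(k2,k176),(k3,k176)],[(k0,k152),(k3,k155),(k5,k158),(k7,k158),(k4,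
    k164),(k6,k164),(k2,k167),(k9,k188)],[(k6,k146),(k9,k146),(k3,k149),(k0,k152),(k4,k158),(k5,k164),(k7,k164),(k2,
    k173)],[(k5,k158),(k4,k164),(k2,k167),(k7,k170),(k3,k173),(k0,k176),(k6,k176),(k9,k176)],[(k2,k137),(k4,k146),(k0,
    k158),(k9,k158),(k5,k164),(k6,k170),(k3,k173),(k7,k176)],[(k0,k146),(k4,k146),(k9,k146),(k6,k158),(k2,k161),(k3,
    k161),(k7,k176),(k5,k188)],[(k10,k125),(k1,k146),(k8,k146),(k11,k153)],[(k8,k153),(k10,k160),(k11,k160),(k1,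
    k181)],[(k8,k125),(k1,k153),(k10,k160),(k11,k160)]]
    [[k2,k0,k1,k0,k0,k0],[k1,k1,k0,k0,k1,k0],[k1,k0,k1,k0,k1,k0],[k1,k0,k0,k0,k1,k1],[k0,k1,k1,k1,k0,k0],[k0,k1,k0,k0,
    k2,k0],[k0,k0,k2,k1,k0,k0],[k0,k0,k0,k0,k2,k1]]
    [.ref k45 k0 [(z1,[z0,z1]),(z1,[y1,z1,z1])],.ref k53 k0 [(z1,[z0,z1]),(z1,[z1,y1])],.ref k61 k1 [(z1,[z1,z1,y1]),
    (z1,[y1,z0,z1])],.ref k62 k1 [(z1,[z1]),(z1,[y1,z1])],.ref k62 k1 [(z1,[y1,z0,z1]),(z1,[z1,z1,y1])],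
    .ref k69 k1 [(z1,[z1]),(z1,[y1,z2])],.ref k87 k0 [(z1,[z0,z1]),(z1,[y1,y2,z2])],.ref k93 k1 [(z1,[z1]),(z1,[y1,
    z2])]],
    .base (.leafM k0 [k0,k1,k2,k3,k4,k5] [(z1,[y1,z0,z1])] [])]

theorem hB6_104_7 : blkB [0, 0, 0, 0, 1, 1] [] sp6 hS6_104 (pcls (n := 6) [0, 0, 0, 0, 1, 1]) hD6_104 181 7 hN6_104_7 = true := by
  decide +kernel

/-- nodes 96 to 107 -/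
noncomputable def hN6_104_8 : List HM :=
  [.base (.leafM k2 [k0,k1,k2,k3,k4,k5] [(z1,[z0,z1]),(z1,[z0,z0,z0,z1]),(z1,[y1,y1,y1,y1,z3])] []),
    .lp k0 [k78,k84,k84,k78,k72,k80] [k3,k3,k0,k0,k0,k0,k3,k3,k6,k6,k2,k2] k0 [[k0,k0,k0,k0,k0,k0,k6,k6,k0,k0,k0,k0],
    [k0,k0,k0,k12,k0,k0,k0,k0,k0,k0,k0,k0],[k12,k0,k0,k0,k0,k0,k0,k6,k0,k0,k0,k0],[k0,k0,k0,k0,k0,k0,k0,k6,k0,k0,k0,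
    k0],[k0,k0,k0,k0,k0,k0,k6,k0,k0,k0,k0,k0],[k0,k0,k0,k0,k0,k0,k6,k0,k0,k0,k0,k0],[k0,k6,k6,k6,k0,k0,k0,k0,k0,k0,k0,
    k0],[k0,k6,k0,k0,k6,k6,k0,k0,k0,k0,k0,k0],[k0,k0,k0,k0,k0,k0,k0,k0,k0,k0,k0,k0],[k0,k0,k0,k0,k0,k0,k0,k0,k0,k0,
    k16,k0],[k0,k0,k0,k0,k0,k0,k0,k0,k0,k0,k0,k0],[k0,k0,k0,k0,k0,k0,k0,k0,k16,k0,k0,k0]] (nat_lit 240) k5
    [[(k11,k63),(k8,k75),(k1,k78),(k10,k79)],[(k9,k69),(k6,k72),(k0,k78),(k7,k78),(k2,k81),(k3,k81),(k4,k81),(k5,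
    k93)],[(k2,k72),(k0,k81),(k7,k81),(k3,k84),(k4,k84),(k5,k84),(k9,k84),(k6,k87)],[(k3,k72),(k6,k75),(k0,k81),(k7,
    k81),(k2,k84),(k4,k84),(k5,k84),(k9,k84)],[(k6,k75),(k7,k81),(k2,k84),(k3,k84),(k4,k84),(k5,k84),(k9,k84),(k0,
    k93)],[(k9,k72),(k0,k81),(k7,k81),(k2,k84),(k3,k84),(k4,k84),(k5,k84),(k6,k87)],[(k9,k69),(k0,k78),(k7,k78),(k2,
    k81),(k3,k81),(k4,k81),(k5,k81),(k6,k84)],[(k0,k72),(k2,k75),(k5,k75),(k9,k75),(k6,k78),(k7,k84),(k3,k87),(k4,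
    k87)],[(k0,k69),(k7,k69),(k4,k72),(k9,k72),(k6,k75),(k2,k84),(k3,k84),(k5,k84)],[(k8,k72),(k1,k75),(k11,k76),(k10,
    k92)],[(k1,k63),(k8,k76),(k10,k80),(k11,k80)],[(k1,k79),(k10,k80),(k11,k80),(k8,k92)]]
    [[k2,k0,k0,k1,k0,k0],[k1,k0,k0,k1,k1,k0],[k2,k0,k0,k0,k0,k1],[k1,k0,k0,k0,k1,k1],[k0,k3,k0,k0,k0,k0],[k0,k2,k0,k1,
    k0,k0],[k0,k0,k1,k0,k2,k0],[k0,k0,k0,k1,k2,k0]]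
    [.ref k3 k0 [(z5,[z6,z1]),(z5,[y3,z2,z5]),(z5,[y6,z4,z0,z15]),(z5,[z3,y2]),(z1,[z0,z0,z0,z0,z1])],.ref k3 k0 [(z3,
    [z6,z1,z0,z0,y2]),(z3,[y3,z1,z3,z0,z1]),(z3,[y6,z2,z0,z9,z2]),(z3,[z3,y1,z0,z0,y1]),(z1,[z0,z0,z0,z0,z1])],
    .ref k3 k0 [(z2,[z3,z1,z1,z3,z1,y3]),(z4,[y3,z1,z3,y3,y1,z3]),(z2,[y3,z1,y1,z3,y1,z3]),(z4,[z3,y1,z1,z3,z1,y3]),
    (z1,[z0,z0,z0,z0,z1])],.ref k3 k0 [(z1,[z3,z1,z1,z3,z0,y3]),(z2,[y3,z0,z1,y3,z0,z3]),(z1,[y3,z0,y1,z0,z0,z3]),(z2,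
    [z3,z0,z1,z3,z0,y3]),(z1,[z0,z0,z0,z0,z1])],.ref k3 k0 [(z1,[y2,z1,z2]),(z1,[z1]),(z1,[z2,z0,y2,z3]),(z1,[y1,z0,
    z1]),(z1,[z0,z0,z0,z0,z1])],.ref k3 k0 [(z1,[y6,z1,z4]),(z1,[z3,z0,y1]),(z1,[z6,z0,y4,z3]),(z1,[y3,z0,z2]),(z1,
    [z0,z0,z0,z0,z1])],.ref k3 k0 [(z1,[y3,z1,z0,z3,z2]),(z2,[z3,z0,z2,y3,y2]),(z1,[z3,z0,z0,z0,y2]),(z2,[y3,z0,z0,z3,
    z2]),(z1,[z0,z0,z0,z0,z1])],.ref k3 k0 [(z1,[z6,z1,z0,z0,y4]),(z1,[y3,z0,z1,z0,z2]),(z1,[y6,z0,z0,z3,z4]),(z1,[z3,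
    z0,z0,z0,y2]),(z1,[z0,z0,z0,z0,z1])]],
    .lp k0 [k40,k42,k42,k42,k32,k40] [k1,k1,k0,k0,k0,k0,k0,k0,k5,k5,k1,k1] k0 [[k0,k0,k0,k0,k0,k0,k0,k8,k0,k0,k0,k0],
    [k0,k0,k0,k6,k0,k0,k0,k0,k0,k0,k0,k0],[k6,k0,k0,k0,k0,k0,k0,k6,k0,k0,k0,k0],[k0,k0,k0,k0,k0,k0,k0,k6,k0,k0,k0,k0],
    [k0,k0,k0,k0,k0,k0,k0,k0,k0,k0,k0,k0],[k0,k0,k0,k0,k0,k0,k0,k0,k0,k0,k0,k0],[k0,k8,k6,k6,k0,k0,k0,k0,k0,k0,k0,k0],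
    [k0,k0,k0,k0,k0,k0,k0,k0,k0,k0,k0,k0],[k0,k0,k0,k0,k0,k0,k0,k0,k0,k0,k0,k0],[k0,k0,k0,k0,k0,k0,k0,k0,k0,k0,k0,k0],
    [k0,k0,k0,k0,k0,k0,k0,k0,k0,k0,k0,k0],[k0,k0,k0,k0,k0,k0,k0,k0,k0,k0,k0,k0]] k120 k5
    [[(k8,k36),(k1,k40),(k10,k40),(k11,k40)],[(k6,k33),(k9,k36),(k0,k40),(k2,k41),(k3,k41),(k4,k41),(k7,k41),(k5,
    k47)],[(k2,k36),(k0,k41),(k3,k42),(k4,k42),(k5,k42),(k6,k42),(k7,k42),(k9,k45)],[(k3,k36),(k6,k36),(k0,k41),(k2,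
    k42),(k4,k42),(k5,k42),(k7,k42),(k9,k43)],[(k6,k36),(k2,k42),(k3,k42),(k4,k42),(k5,k42),(k7,k42),(k9,k43),(k0,
    k47)],[(k9,k37),(k0,k41),(k2,k42),(k3,k42),(k4,k42),(k5,k42),(k6,k42),(k7,k42)],[(k9,k37),(k0,k41),(k2,k42),(k3,
    k42),(k4,k42),(k5,k42),(k6,k42),(k7,k42)],[(k0,k33),(k2,k36),(k5,k36),(k9,k37),(k3,k42),(k4,k42),(k6,k42),(k7,
    k42)],[(k9,k32),(k0,k36),(k4,k37),(k6,k37),(k7,k37),(k2,k43),(k5,k43),(k3,k45)],[(k8,k32),(k1,k36),(k10,k36),(k11,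
    k36)],[(k8,k36),(k1,k40),(k10,k40),(k11,k40)],[(k8,k36),(k1,k40),(k10,k40),(k11,k40)]]
    [[k2,k0,k0,k1,k0,k0],[k1,k0,k0,k1,k1,k0],[k1,k0,k0,k0,k1,k1],[k0,k3,k0,k0,k0,k0],[k0,k2,k0,k1,k0,k0],[k0,k0,k1,k0,
    k2,k0],[k0,k0,k0,k1,k2,k0],[k0,k0,k0,k0,k2,k1]]
    [.ref k3 k0 [(z1,[z0,z1]),(z1,[y3,z2,z3,z0,z1]),(z2,[y3,z2,z0,z2,z1]),(z1,[z3,y2]),(z2,[z3,y2,z0,z0,y1])],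
    .ref k3 k0 [(z1,[z0,z1]),(z3,[y6,z2,z9,z0,z2]),(z3,[y3,z1,z0,z3,z1]),(z3,[z6,y2,z0,z0,z1]),(z3,[z3,y1,z0,z0,y1])],
    .ref k3 k0 [(z1,[z0,z1]),(z1,[y6,z0,y3,y2,y2,z6]),(z1,[y3,z0,y3,z0,y1,z3]),(z1,[z6,z0,z6,z2,z3,y6]),(z1,[z3,z0,z3,
    z1,z1,y3])],.ref k3 k0 [(z1,[z0,z1]),(z1,[z1]),(z2,[z1,z0,y3,z2]),(z1,[y1,z0,z3,z0,z1]),(z2,[y1,z0,z3])],
    .ref k3 k0 [(z1,[z0,z1]),(z1,[z3,z0,y3,z0,y1]),(z2,[z3,z0,y6,z2,y1]),(z1,[y3,z0,z6,z0,z2]),(z2,[y3,z0,z6,z0,z1])],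
    .ref k3 k0 [(z1,[z0,z1]),(z1,[y6,z0,z3,z2]),(z1,[y3,z0,z0,z2]),(z1,[z6,z0,z0,y2,z1]),(z1,[z3,z0,z0,y1])],
    .ref k3 k0 [(z1,[z0,z1]),(z2,[y3,z0,z6,z0,z1]),(z4,[y3,z0,z0,z4,z1]),(z2,[z3,z0,z0,z0,z1]),(z4,[z3,z0,z0,z0,y1])],
    .ref k3 k0 [(z1,[z0,z1]),(z1,[y3,y1,z0,y1,y1,z3]),(z2,[y3,y1,y3,z1,y1,z3]),(z1,[z3,z1,z3,z1,z2,y3]),(z2,[z3,z1,z3,
    z1,z1,y3])]],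
    .lp k0 [k78,k84,k84,k78,k72,k80] [k3,k3,k0,k0,k0,k0,k3,k3,k6,k6,k2,k2] k0 [[k0,k0,k0,k0,k0,k0,k6,k6,k0,k0,k0,k0],
    [k0,k0,k0,k12,k0,k0,k0,k0,k0,k0,k0,k0],[k12,k0,k0,k0,k0,k0,k0,k6,k0,k0,k0,k0],[k0,k0,k0,k0,k0,k0,k0,k6,k0,k0,k0,
    k0],[k0,k0,k0,k0,k0,k0,k6,k0,k0,k0,k0,k0],[k0,k0,k0,k0,k0,k0,k6,k0,k0,k0,k0,k0],[k0,k6,k6,k6,k0,k0,k0,k0,k0,k0,k0,
    k0],[k0,k6,k0,k0,k6,k6,k0,k0,k0,k0,k0,k0],[k0,k0,k0,k0,k0,k0,k0,k0,k0,k0,k0,k0],[k0,k0,k0,k0,k0,k0,k0,k0,k0,k0,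
    k16,k0],[k0,k0,k0,k0,k0,k0,k0,k0,k0,k0,k0,k0],[k0,k0,k0,k0,k0,k0,k0,k0,k16,k0,k0,k0]] (nat_lit 240) k5
    [[(k11,k63),(k8,k75),(k1,k78),(k10,k79)],[(k9,k69),(k6,k72),(k0,k78),(k7,k78),(k2,k81),(k3,k81),(k4,k81),(k5,
    k93)],[(k2,k72),(k0,k81),(k7,k81),(k3,k84),(k4,k84),(k5,k84),(k9,k84),(k6,k87)],[(k3,k72),(k6,k75),(k0,k81),(k7,
    k81),(k2,k84),(k4,k84),(k5,k84),(k9,k84)],[(k6,k75),(k7,k81),(k2,k84),(k3,k84),(k4,k84),(k5,k84),(k9,k84),(k0,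
    k93)],[(k9,k72),(k0,k81),(k7,k81),(k2,k84),(k3,k84),(k4,k84),(k5,k84),(k6,k87)],[(k9,k69),(k0,k78),(k7,k78),(k2,
    k81),(k3,k81),(k4,k81),(k5,k81),(k6,k84)],[(k0,k72),(k2,k75),(k5,k75),(k9,k75),(k6,k78),(k7,k84),(k3,k87),(k4,
    k87)],[(k0,k69),(k7,k69),(k4,k72),(k9,k72),(k6,k75),(k2,k84),(k3,k84),(k5,k84)],[(k8,k72),(k1,k75),(k11,k76),(k10,
    k92)],[(k1,k63),(k8,k76),(k10,k80),(k11,k80)],[(k1,k79),(k10,k80),(k11,k80),(k8,k92)]]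
    [[k2,k0,k0,k1,k0,k0],[k1,k0,k0,k1,k1,k0],[k2,k0,k0,k0,k0,k1],[k1,k0,k0,k0,k1,k1],[k0,k3,k0,k0,k0,k0],[k0,k2,k0,k1,
    k0,k0],[k0,k0,k1,k0,k2,k0],[k0,k0,k0,k1,k2,k0]]
    [.ref k3 k0 [(z4,[z3,z1]),(z2,[y3,z1,z2]),(z4,[y3,z1,z0,z6]),(z2,[z3,y1]),(z1,[z0,z0,z0,z0,z1])],.ref k3 k0 [(z3,
    [z3,z1,z0,z0,y1]),(z3,[y6,z1,z3,z0,z2]),(z6,[y6,z1,z0,z9,z2]),(z3,[z6,y1,z0,z0,y2]),(z1,[z0,z0,z0,z0,z1])],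
    .ref k3 k0 [(z4,[z6,z1,z2,z3,z2,y6]),(z2,[y6,z1,z0,y3,y2,z6]),(z4,[y6,z1,y2,z3,y2,z6]),(z2,[z6,y1,z2,z3,z2,y6]),
    (z1,[z0,z0,z0,z0,z1])],.ref k3 k0 [(z2,[z6,z1,z2,z3,z0,y6]),(z1,[y6,z0,y1,y3,z0,z6]),(z1,[y3,z0,y1,z0,z0,z3]),(z1,
    [z6,z0,z2,z3,z0,y6]),(z1,[z0,z0,z0,z0,z1])],.ref k3 k0 [(z2,[y1,z1,z1]),(z1,[z1]),(z2,[z1,z0,y1,z3]),(z1,[y1,z0,
    z1]),(z1,[z0,z0,z0,z0,z1])],.ref k3 k0 [(z2,[y3,z1,z2]),(z1,[z3,z0,y1]),(z2,[z3,z0,y2,z3]),(z1,[y3,z0,z2]),(z1,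
    [z0,z0,z0,z0,z1])],.ref k3 k0 [(z2,[y6,z1,z0,z3,z4]),(z1,[z6,z0,z1,y3,y4]),(z1,[z3,z0,z0,z0,y2]),(z1,[y6,z0,z0,z3,
    z4]),(z1,[z0,z0,z0,z0,z1])],.ref k3 k0 [(z2,[z3,z1,z0,z0,y2]),(z1,[y3,z0,z1,z0,z2]),(z2,[y3,z0,z0,z3,z2]),(z1,[z3,
    z0,z0,z0,y2]),(z1,[z0,z0,z0,z0,z1])]],
    .lp k0 [k42,k36,k42,k42,k36,k40] [k0,k0,k3,k3,k0,k0,k0,k0,k3,k3,k1,k1] k0 [[k0,k0,k0,k0,k0,k0,k0,k0,k0,k0,k0,k0],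
    [k5,k0,k0,k0,k0,k0,k0,k0,k0,k0,k0,k0],[k0,k0,k0,k0,k0,k0,k0,k0,k0,k0,k0,k0],[k0,k0,k0,k0,k0,k0,k0,k0,k0,k0,k0,k0],
    [k0,k0,k0,k0,k0,k0,k0,k0,k0,k0,k0,k0],[k0,k0,k0,k0,k0,k0,k0,k0,k0,k0,k0,k0],[k0,k0,k0,k0,k0,k0,k0,k0,k0,k0,k0,k0],
    [k0,k0,k0,k0,k0,k0,k0,k0,k0,k0,k0,k0],[k0,k0,k0,k0,k0,k0,k0,k0,k0,k0,k0,k0],[k0,k0,k0,k0,k0,k0,k0,k0,k0,k0,k8,k0],
    [k0,k0,k0,k0,k0,k0,k0,k0,k0,k0,k0,k0],[k0,k0,k0,k0,k0,k0,k0,k0,k8,k0,k0,k0]] k120 k5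
    [[(k11,k33),(k8,k39),(k10,k41),(k1,k42)],[(k2,k39),(k3,k39),(k9,k39),(k4,k42),(k5,k42),(k6,k42),(k7,k42),(k0,
    k47)],[(k3,k31),(k2,k36),(k9,k36),(k0,k39),(k4,k39),(k5,k39),(k6,k39),(k7,k39)],[(k2,k36),(k3,k36),(k9,k36),(k0,
    k39),(k4,k39),(k5,k39),(k6,k39),(k7,k39)],[(k2,k39),(k3,k39),(k9,k39),(k0,k42),(k4,k42),(k5,k42),(k6,k42),(k7,
    k42)],[(k2,k39),(k3,k39),(k9,k39),(k0,k42),(k4,k42),(k5,k42),(k6,k42),(k7,k42)],[(k2,k39),(k3,k39),(k9,k39),(k0,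
    k42),(k4,k42),(k5,k42),(k6,k42),(k7,k42)],[(k2,k39),(k3,k39),(k9,k39),(k0,k42),(k4,k42),(k5,k42),(k6,k42),(k7,
    k42)],[(k2,k36),(k3,k36),(k9,k36),(k0,k39),(k4,k39),(k5,k39),(k6,k39),(k7,k39)],[(k8,k36),(k11,k38),(k1,k39),(k10,
    k46)],[(k1,k33),(k8,k38),(k10,k40),(k11,k40)],[(k10,k40),(k11,k40),(k1,k41),(k8,k46)]]
    [[k1,k1,k0,k0,k1,k0],[k1,k0,k0,k0,k1,k1],[k0,k3,k0,k0,k0,k0],[k0,k2,k1,k0,k0,k0],[k0,k2,k0,k1,k0,k0],[k0,k1,k0,k0,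
    k2,k0],[k0,k0,k1,k0,k2,k0],[k0,k0,k0,k1,k2,k0]]
    [.ref k89 k0 [(z1,[z0,z1]),(z1,[z3,y1]),(z1,[z0,z0,z0,z1]),(z3,[y3,z1,z1])],.ref k20 k0 [(z1,[z0,z1]),(z1,[z0,z0,
    z1]),(z1,[y3,z0,y1,z0,z3]),(z1,[z3,z0,z1,z1,y3])],.ref k96 k0 [(z1,[z0,z1]),(z1,[z1]),(z1,[z0,z0,z0,z1]),(z1,[y1,
    z0,z1])],.ref k97 k1 [(z1,[y3,z0,z0,z1]),(z1,[z0,z0,z1]),(z1,[z1]),(z1,[z0,z1])],.ref k96 k0 [(z1,[z0,z1]),(z1,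
    [z3,z0,y1]),(z1,[z0,z0,z0,z1]),(z1,[y3,z0,z2])],.ref k98 k0 [(z1,[z0,z1]),(z1,[z1]),(z1,[z0,z0,z0,z1]),(z1,[y3,z0,
    z1])],.ref k20 k0 [(z1,[z0,z1]),(z1,[z0,z0,z1]),(z1,[y3,z0,z0,z2]),(z1,[z3,z0,z0,y1])],.ref k99 k1 [(z1,[z3,z0,
    y1]),(z1,[z0,z0,z1]),(z3,[y3,z0,z1,z2]),(z1,[z0,z1])]],
    .lp k0 [k18,k16,k16,k16,k16,k12] [k0,k0,k1,k1,k1,k1,k1,k1,k1,k1,k3,k3] k0 [[k0,k0,k0,k0,k0,k0,k0,k0,k0,k0,k0,k0],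
    [k0,k0,k0,k0,k0,k0,k0,k0,k0,k0,k0,k0],[k0,k0,k0,k0,k0,k0,k0,k0,k0,k0,k0,k0],[k0,k0,k0,k0,k0,k0,k0,k0,k0,k0,k0,k0],
    [k0,k0,k0,k0,k0,k0,k0,k0,k0,k0,k0,k0],[k0,k0,k0,k0,k0,k0,k0,k0,k0,k0,k0,k0],[k0,k0,k0,k0,k0,k0,k0,k0,k0,k0,k0,k0],
    [k0,k0,k0,k0,k0,k0,k0,k0,k0,k0,k0,k0],[k0,k0,k0,k0,k0,k0,k0,k0,k0,k0,k0,k0],[k0,k0,k0,k0,k0,k0,k0,k0,k0,k0,k0,k0],
    [k0,k0,k0,k0,k0,k0,k0,k0,k0,k0,k0,k0],[k0,k0,k0,k0,k0,k0,k0,k0,k0,k0,k0,k0]] k48 k5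
    [[(k10,k15),(k11,k15),(k8,k17),(k1,k18)],[(k2,k17),(k3,k17),(k4,k17),(k5,k17),(k6,k17),(k7,k17),(k9,k17),(k0,
    k18)],[(k2,k16),(k3,k16),(k4,k16),(k5,k16),(k6,k16),(k7,k16),(k9,k16),(k0,k17)],[(k2,k16),(k3,k16),(k4,k16),(k5,
    k16),(k6,k16),(k7,k16),(k9,k16),(k0,k17)],[(k2,k16),(k3,k16),(k4,k16),(k5,k16),(k6,k16),(k7,k16),(k9,k16),(k0,
    k17)],[(k2,k16),(k3,k16),(k4,k16),(k5,k16),(k6,k16),(k7,k16),(k9,k16),(k0,k17)],[(k2,k16),(k3,k16),(k4,k16),(k5,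
    k16),(k6,k16),(k7,k16),(k9,k16),(k0,k17)],[(k2,k16),(k3,k16),(k4,k16),(k5,k16),(k6,k16),(k7,k16),(k9,k16),(k0,
    k17)],[(k2,k16),(k3,k16),(k4,k16),(k5,k16),(k6,k16),(k7,k16),(k9,k16),(k0,k17)],[(k10,k14),(k11,k14),(k8,k16),(k1,
    k17)],[(k10,k12),(k11,k12),(k8,k14),(k1,k15)],[(k10,k12),(k11,k12),(k8,k14),(k1,k15)]]
    [[k1,k0,k0,k0,k1,k1],[k0,k0,k0,k0,k2,k1],[k0,k0,k0,k0,k0,k3]]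
    [.ref k1 k0 [(z1,[z0,z1]),(z1,[z0,z0,z1]),(z1,[y1,z0,y1,z1])],.ref k1 k0 [(z1,[z0,z1]),(z1,[z0,z0,z1]),(z2,[y1,y1,
    y2,z2])],.ref k100 k0 [(z2,[y1,z3]),(z1,[y1,z0,z3]),(z2,[z1,y3,y6,z6])]],
    .base (.leafM k0 [k0,k1,k2,k3,k4,k5] [(z3,[z0,z1,z1])] []),
    .base (.leafM k2 [k0,k1,k2,k3,k4,k5] [(z1,[z0,z1]),(z1,[z0,z0,z1]),(z1,[y3,y1,y1,z3])] []),
    .base (.leafM k0 [k0,k1,k2,k3,k4,k5] [(z3,[z0,z3,z1,z1])] []),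
    .lp k0 [k42,k42,k42,k42,k30,k40] [k0,k0,k0,k0,k0,k0,k0,k0,k6,k6,k1,k1] k0 [[k0,k0,k0,k0,k0,k0,k0,k6,k0,k0,k0,k0],
    [k0,k0,k0,k6,k0,k0,k0,k0,k0,k0,k0,k0],[k6,k0,k0,k0,k0,k0,k0,k6,k0,k0,k0,k0],[k0,k0,k0,k0,k0,k0,k0,k6,k0,k0,k0,k0],
    [k0,k0,k0,k0,k0,k0,k0,k0,k0,k0,k0,k0],[k0,k0,k0,k0,k0,k0,k0,k0,k0,k0,k0,k0],[k0,k6,k6,k6,k0,k0,k0,k0,k0,k0,k0,k0],
    [k0,k0,k0,k0,k0,k0,k0,k0,k0,k0,k0,k0],[k0,k0,k0,k0,k0,k0,k0,k0,k0,k0,k0,k0],[k0,k0,k0,k0,k0,k0,k0,k0,k0,k0,k0,k0],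
    [k0,k0,k0,k0,k0,k0,k0,k0,k0,k0,k0,k0],[k0,k0,k0,k0,k0,k0,k0,k0,k0,k0,k0,k0]] k120 k5
    [[(k8,k36),(k10,k41),(k11,k41),(k1,k42)],[(k6,k36),(k9,k36),(k0,k42),(k2,k42),(k3,k42),(k4,k42),(k7,k42),(k5,
    k48)],[(k2,k36),(k0,k42),(k3,k42),(k4,k42),(k5,k42),(k6,k42),(k7,k42),(k9,k42)],[(k3,k36),(k6,k36),(k0,k42),(k2,
    k42),(k4,k42),(k5,k42),(k7,k42),(k9,k42)],[(k6,k36),(k2,k42),(k3,k42),(k4,k42),(k5,k42),(k7,k42),(k9,k42),(k0,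
    k48)],[(k9,k36),(k0,k42),(k2,k42),(k3,k42),(k4,k42),(k5,k42),(k6,k42),(k7,k42)],[(k9,k36),(k0,k42),(k2,k42),(k3,
    k42),(k4,k42),(k5,k42),(k6,k42),(k7,k42)],[(k0,k36),(k2,k36),(k5,k36),(k9,k36),(k3,k42),(k4,k42),(k6,k42),(k7,
    k42)],[(k9,k30),(k0,k36),(k4,k36),(k6,k36),(k7,k36),(k2,k42),(k3,k42),(k5,k42)],[(k8,k30),(k10,k35),(k11,k35),(k1,
    k36)],[(k8,k35),(k10,k40),(k11,k40),(k1,k41)],[(k8,k35),(k10,k40),(k11,k40),(k1,k41)]]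
    [[k1,k0,k0,k1,k1,k0],[k1,k0,k0,k0,k1,k1],[k0,k3,k0,k0,k0,k0],[k0,k2,k0,k1,k0,k0],[k0,k1,k0,k0,k2,k0],[k0,k0,k1,k0,
    k2,k0],[k0,k0,k0,k1,k2,k0],[k0,k0,k0,k0,k2,k1]]
    [.ref k14 k0 [(z1,[y1,z1]),(z1,[y6,z3,z1]),(z2,[z2,y1,z0,z1]),(z1,[z2,y1])],.ref k104 k0 [(z2,[z6,z3,z2,z3,y6]),
    (z1,[z2,z0,z1,z1,y2]),(z1,[y3,z0,y1,z0,z3]),(z1,[y6,z0,y2,y3,z6])],.ref k96 k0 [(z2,[z1,z3,y1]),(z1,[z1]),(z2,[y1,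
    z0,z1,z3]),(z1,[y1,z0,z1])],.ref k96 k0 [(z2,[z3,z3,y2]),(z1,[z3,z0,y1]),(z2,[y3,z0,z2,z3]),(z1,[y3,z0,z2])],
    .ref k104 k0 [(z2,[z3,z3,y1]),(z1,[z1]),(z2,[y3,z0,z1,z3]),(z1,[y3,z0,z1])],.ref k14 k0 [(z2,[y2,z1,z0,z1]),(z1,
    [y6,z0,z1,z3]),(z1,[z1]),(z1,[z2,z0,z0,y1])],.ref k14 k0 [(z2,[y1,z1]),(z1,[y3,z0,z1]),(z2,[z1,z0,z0,z1]),(z1,
    [z1])],.ref k98 k1 [(z4,[z6,z3,z2,z3,y6]),(z1,[z0,z1]),(z4,[y6,z3,y2,z3,z6]),(z1,[z0,y3,z1])]],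
    .base (.leafM k0 [k0,k1,k2,k3,k4,k5] [(z3,[z0,z1,z1,z3])] []),
    .lp k0 [k42,k42,k42,k42,k30,k40] [k0,k0,k0,k0,k0,k0,k0,k0,k6,k6,k1,k1] k0 [[k0,k0,k0,k0,k0,k0,k0,k6,k0,k0,k0,k0],
    [k0,k0,k0,k6,k0,k0,k0,k0,k0,k0,k0,k0],[k6,k0,k0,k0,k0,k0,k0,k6,k0,k0,k0,k0],[k0,k0,k0,k0,k0,k0,k0,k6,k0,k0,k0,k0],
    [k0,k0,k0,k0,k0,k0,k0,k0,k0,k0,k0,k0],[k0,k0,k0,k0,k0,k0,k0,k0,k0,k0,k0,k0],[k0,k6,k6,k6,k0,k0,k0,k0,k0,k0,k0,k0],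
    [k0,k0,k0,k0,k0,k0,k0,k0,k0,k0,k0,k0],[k0,k0,k0,k0,k0,k0,k0,k0,k0,k0,k0,k0],[k0,k0,k0,k0,k0,k0,k0,k0,k0,k0,k0,k0],
    [k0,k0,k0,k0,k0,k0,k0,k0,k0,k0,k0,k0],[k0,k0,k0,k0,k0,k0,k0,k0,k0,k0,k0,k0]] k120 k5
    [[(k8,k36),(k10,k41),(k11,k41),(k1,k42)],[(k6,k36),(k9,k36),(k0,k42),(k2,k42),(k3,k42),(k4,k42),(k7,k42),(k5,
    k48)],[(k2,k36),(k0,k42),(k3,k42),(k4,k42),(k5,k42),(k6,k42),(k7,k42),(k9,k42)],[(k3,k36),(k6,k36),(k0,k42),(k2,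
    k42),(k4,k42),(k5,k42),(k7,k42),(k9,k42)],[(k6,k36),(k2,k42),(k3,k42),(k4,k42),(k5,k42),(k7,k42),(k9,k42),(k0,
    k48)],[(k9,k36),(k0,k42),(k2,k42),(k3,k42),(k4,k42),(k5,k42),(k6,k42),(k7,k42)],[(k9,k36),(k0,k42),(k2,k42),(k3,
    k42),(k4,k42),(k5,k42),(k6,k42),(k7,k42)],[(k0,k36),(k2,k36),(k5,k36),(k9,k36),(k3,k42),(k4,k42),(k6,k42),(k7,
    k42)],[(k9,k30),(k0,k36),(k4,k36),(k6,k36),(k7,k36),(k2,k42),(k3,k42),(k5,k42)],[(k8,k30),(k10,k35),(k11,k35),(k1,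
    k36)],[(k8,k35),(k10,k40),(k11,k40),(k1,k41)],[(k8,k35),(k10,k40),(k11,k40),(k1,k41)]]
    [[k1,k0,k0,k1,k1,k0],[k1,k0,k0,k0,k1,k1],[k0,k3,k0,k0,k0,k0],[k0,k2,k0,k1,k0,k0],[k0,k1,k0,k0,k2,k0],[k0,k0,k1,k0,
    k2,k0],[k0,k0,k0,k1,k2,k0],[k0,k0,k0,k0,k2,k1]]
    [.ref k59 k0 [(z1,[z3,z1]),(z1,[y6,z1,z3]),(z2,[y6,z1,z0,z3]),(z1,[z6,y1])],.ref k106 k0 [(z2,[z6,z1,z2,z1,y6]),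
    (z1,[y6,z0,y1,y1,z6]),(z1,[y3,z0,y1,z0,z3]),(z3,[z6,z0,z2,z1,y6])],.ref k96 k0 [(z2,[y1,z1,z1]),(z1,[z1]),(z2,[z1,
    z0,y1,z1]),(z1,[y1,z0,z1])],.ref k96 k0 [(z2,[y3,z1,z2]),(z1,[z3,z0,y1]),(z2,[z3,z0,y2,z1]),(z1,[y3,z0,z2])],
    .ref k14 k1 [(z6,[z3,y1,y1]),(z1,[z0,y1]),(z6,[y3,z2,z1,z1]),(z3,[z0,z1,z1])],.ref k14 k1 [(z6,[z6,y1,z0,y1]),(z1,
    [z0,y1]),(z3,[y3,z1,z0,z1]),(z3,[z0,z1,z1])],.ref k106 k0 [(z2,[z3,z1]),(z1,[y3,z0,z1]),(z2,[y3,z0,z0,z1]),(z1,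
    [z1])],.ref k99 k0 [(z1,[z0,z1]),(z1,[z0,z0,z1]),(z6,[y6,y1,y2,z1,z6]),(z4,[z6,z1,z2,z1,y6])]]]

theorem hB6_104_8 : blkB [0, 0, 0, 0, 1, 1] [] sp6 hS6_104 (pcls (n := 6) [0, 0, 0, 0, 1, 1]) hD6_104 181 8 hN6_104_8 = true := by
  decide +kernel

/-- nodes 108 to 119 -/
noncomputable def hN6_104_9 : List HM :=
  [.lp k0 [k164,k158,k164,k176,k134,k160] [k6,k6,k9,k9,k6,k6,k0,k0,k21,k21,k8,k8] k0 [[k0,k0,k6,k6,k0,k0,k0,k0,k0,k0,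
    k0,k0],[k0,k0,k0,k0,k6,k6,k6,k0,k0,k0,k0,k0],[k0,k6,k0,k0,k0,k0,k0,k12,k0,k0,k0,k0],[k0,k6,k0,k0,k0,k0,k0,k0,k0,
    k0,k0,k0],[k6,k0,k0,k0,k0,k0,k0,k0,k0,k0,k0,k0],[k6,k0,k0,k0,k0,k0,k0,k36,k0,k0,k0,k0],[k0,k0,k0,k12,k36,k0,k0,k0,
    k0,k0,k0,k0],[k6,k0,k0,k0,k0,k0,k0,k0,k0,k0,k0,k0],[k0,k0,k0,k0,k0,k0,k0,k0,k0,k0,k0,k0],[k0,k0,k0,k0,k0,k0,k0,k0,
    k0,k0,k0,k0],[k0,k0,k0,k0,k0,k0,k0,k0,k0,k0,k0,k0],[k0,k0,k0,k0,k0,k0,k0,k0,k0,k0,k0,k0]] (nat_lit 480) k5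
    [[(k8,k149),(k10,k162),(k11,k162),(k1,k164)],[(k9,k149),(k2,k155),(k5,k158),(k3,k161),(k0,k164),(k4,k170),(k6,
    k176),(k7,k176)],[(k9,k140),(k4,k155),(k3,k158),(k0,k161),(k7,k161),(k2,k164),(k5,k167),(k6,k167)],[(k9,k146),(k0,
    k155),(k6,k155),(k2,k158),(k4,k161),(k5,k161),(k3,k164),(k7,k167)],[(k0,k158),(k2,k161),(k9,k161),(k4,k164),(k5,
    k164),(k3,k167),(k6,k170),(k7,k170)],[(k3,k155),(k2,k161),(k4,k164),(k5,k164),(k0,k170),(k6,k170),(k7,k170),(k9,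
    k185)],[(k6,k140),(k9,k155),(k3,k161),(k2,k167),(k4,k170),(k5,k170),(k0,k176),(k7,k176)],[(k7,k140),(k2,k155),(k9,
    k155),(k3,k167),(k4,k170),(k5,k170),(k0,k176),(k6,k176)],[(k9,k134),(k3,k140),(k2,k146),(k0,k149),(k6,k155),(k7,
    k155),(k5,k161),(k4,k185)],[(k8,k134),(k10,k147),(k11,k147),(k1,k149)],[(k8,k147),(k10,k160),(k11,k160),(k1,
    k162)],[(k8,k147),(k10,k160),(k11,k160),(k1,k162)]]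
    [[k1,k1,k0,k0,k1,k0],[k1,k0,k0,k0,k1,k1],[k0,k1,k0,k2,k0,k0],[k0,k1,k0,k0,k2,k0],[k0,k0,k0,k3,k0,k0],[k0,k0,k0,k1,
    k2,k0],[k0,k0,k0,k0,k2,k1]]
    [.ref k60 k0 [(z1,[z3,z0,y1]),(z1,[z0,z0,z1]),(z1,[y3,z3,z1])],.ref k102 k0 [(z1,[z3,z3,z1,y3]),(z1,[z0,z0,z1]),
    (z1,[y3,z0,y1,z3])],.ref k103 k0 [(z1,[z0,z1]),(z1,[y3,z0,z2]),(z1,[z3,z0,y1])],.ref k105 k1 [(z1,[z1]),(z1,[z0,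
    z0,z1]),(z1,[y1,z2])],.ref k103 k0 [(z1,[z0,z1]),(z1,[y1,z0,z1]),(z1,[z1])],.ref k107 k1 [(z1,[z3,z0,y1]),(z1,[z0,
    z0,z1]),(z1,[y3,z6,z1])],.ref k100 k1 [(z2,[z3,z3,z1,y3]),(z1,[z0,z0,z1]),(z2,[y3,z3,y1,z3])]],
    .lp k0 [k18,k16,k16,k16,k16,k12] [k0,k0,k1,k1,k1,k1,k1,k1,k1,k1,k3,k3] k0 [[k0,k0,k0,k0,k0,k0,k0,k0,k0,k0,k0,k0],
    [k0,k0,k0,k0,k0,k0,k0,k0,k0,k0,k0,k0],[k0,k0,k0,k0,k0,k0,k0,k0,k0,k0,k0,k0],[k0,k0,k0,k0,k0,k0,k0,k0,k0,k0,k0,k0],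
    [k0,k0,k0,k0,k0,k0,k0,k0,k0,k0,k0,k0],[k0,k0,k0,k0,k0,k0,k0,k0,k0,k0,k0,k0],[k0,k0,k0,k0,k0,k0,k0,k0,k0,k0,k0,k0],
    [k0,k0,k0,k0,k0,k0,k0,k0,k0,k0,k0,k0],[k0,k0,k0,k0,k0,k0,k0,k0,k0,k0,k0,k0],[k0,k0,k0,k0,k0,k0,k0,k0,k0,k0,k0,k0],
    [k0,k0,k0,k0,k0,k0,k0,k0,k0,k0,k0,k0],[k0,k0,k0,k0,k0,k0,k0,k0,k0,k0,k0,k0]] k48 k5
    [[(k10,k15),(k11,k15),(k8,k17),(k1,k18)],[(k2,k17),(k3,k17),(k4,k17),(k5,k17),(k6,k17),(k7,k17),(k9,k17),(k0,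
    k18)],[(k2,k16),(k3,k16),(k4,k16),(k5,k16),(k6,k16),(k7,k16),(k9,k16),(k0,k17)],[(k2,k16),(k3,k16),(k4,k16),(k5,
    k16),(k6,k16),(k7,k16),(k9,k16),(k0,k17)],[(k2,k16),(k3,k16),(k4,k16),(k5,k16),(k6,k16),(k7,k16),(k9,k16),(k0,
    k17)],[(k2,k16),(k3,k16),(k4,k16),(k5,k16),(k6,k16),(k7,k16),(k9,k16),(k0,k17)],[(k2,k16),(k3,k16),(k4,k16),(k5,
    k16),(k6,k16),(k7,k16),(k9,k16),(k0,k17)],[(k2,k16),(k3,k16),(k4,k16),(k5,k16),(k6,k16),(k7,k16),(k9,k16),(k0,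
    k17)],[(k2,k16),(k3,k16),(k4,k16),(k5,k16),(k6,k16),(k7,k16),(k9,k16),(k0,k17)],[(k10,k14),(k11,k14),(k8,k16),(k1,
    k17)],[(k10,k12),(k11,k12),(k8,k14),(k1,k15)],[(k10,k12),(k11,k12),(k8,k14),(k1,k15)]]
    [[k1,k0,k0,k0,k1,k1],[k0,k0,k0,k0,k2,k1],[k0,k0,k0,k0,k0,k3]]
    [.ref k95 k0 [(z1,[z1]),(z1,[z0,y1,z1])],.ref k101 k1 [(z1,[z1]),(z1,[z0,y1,z1])],.ref k108 k0 [(z1,[z0,z1]),(z1,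
    [y1,y3,z3])]],
    .base (.leafM k0 [k0,k1,k2,k3,k4,k5] [(z1,[y1,z1])] []),
    .lp k0 [k16,k16,k16,k16,k18,k12] [k1,k1,k1,k1,k1,k1,k1,k1,k0,k0,k3,k3] k0 [[k0,k0,k0,k0,k0,k0,k0,k0,k0,k0,k0,k0],
    [k0,k0,k0,k0,k0,k0,k0,k0,k0,k0,k0,k0],[k0,k0,k0,k0,k0,k0,k0,k0,k0,k0,k0,k0],[k0,k0,k0,k0,k0,k0,k0,k0,k0,k0,k0,k0],
    [k0,k0,k0,k0,k0,k0,k0,k0,k0,k0,k0,k0],[k0,k0,k0,k0,k0,k0,k0,k0,k0,k0,k0,k0],[k0,k0,k0,k0,k0,k0,k0,k0,k0,k0,k0,k0],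
    [k0,k0,k0,k0,k0,k0,k0,k0,k0,k0,k0,k0],[k0,k0,k0,k0,k0,k0,k0,k0,k0,k0,k0,k0],[k0,k0,k0,k0,k0,k0,k0,k0,k0,k0,k0,k0],
    [k0,k0,k0,k0,k0,k0,k0,k0,k0,k0,k0,k0],[k0,k0,k0,k0,k0,k0,k0,k0,k0,k0,k0,k0]] k48 k5
    [[(k10,k14),(k11,k14),(k1,k16),(k8,k17)],[(k0,k16),(k2,k16),(k3,k16),(k4,k16),(k5,k16),(k6,k16),(k7,k16),(k9,
    k17)],[(k0,k16),(k2,k16),(k3,k16),(k4,k16),(k5,k16),(k6,k16),(k7,k16),(k9,k17)],[(k0,k16),(k2,k16),(k3,k16),(k4,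
    k16),(k5,k16),(k6,k16),(k7,k16),(k9,k17)],[(k0,k16),(k2,k16),(k3,k16),(k4,k16),(k5,k16),(k6,k16),(k7,k16),(k9,
    k17)],[(k0,k16),(k2,k16),(k3,k16),(k4,k16),(k5,k16),(k6,k16),(k7,k16),(k9,k17)],[(k0,k16),(k2,k16),(k3,k16),(k4,
    k16),(k5,k16),(k6,k16),(k7,k16),(k9,k17)],[(k0,k16),(k2,k16),(k3,k16),(k4,k16),(k5,k16),(k6,k16),(k7,k16),(k9,
    k17)],[(k0,k17),(k2,k17),(k3,k17),(k4,k17),(k5,k17),(k6,k17),(k7,k17),(k9,k18)],[(k10,k15),(k11,k15),(k1,k17),(k8,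
    k18)],[(k10,k12),(k11,k12),(k1,k14),(k8,k15)],[(k10,k12),(k11,k12),(k1,k14),(k8,k15)]]
    [[k2,k0,k0,k0,k0,k1],[k1,k0,k0,k0,k1,k1],[k0,k0,k0,k0,k0,k3]]
    [.ref k3 k0 [(z2,[z1,z1]),(z4,[z2,y1,z3]),(z2,[y2,z1,z0,z3]),(z2,[y2,z1,z0,z0,z3]),(z4,[y4,y1,y3,y6,y6,z12])],
    .ref k3 k0 [(z4,[z4,z3,z1,z2,z2,y4]),(z2,[z2,z0,z2,z1,z1,y2]),(z2,[y4,z0,y1,z1,y2,z4]),(z2,[y4,z0,y1,y2,z1,z4]),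
    (z4,[y8,y3,y5,y10,y10,z20])],.ref k3 k0 [(z4,[z1,z3]),(z4,[z1,z0,z3]),(z2,[y1,z0,z0,z3]),(z2,[y1,z0,z0,z0,z3]),
    (z4,[y2,y3,y3,y6,y6,z12])]],
    .lp k0 [k18,k16,k16,k16,k16,k12] [k0,k0,k1,k1,k1,k1,k1,k1,k1,k1,k3,k3] k0 [[k0,k0,k0,k0,k0,k0,k0,k0,k0,k0,k0,k0],
    [k0,k0,k0,k0,k0,k0,k0,k0,k0,k0,k0,k0],[k0,k0,k0,k0,k0,k0,k0,k0,k0,k0,k0,k0],[k0,k0,k0,k0,k0,k0,k0,k0,k0,k0,k0,k0],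
    [k0,k0,k0,k0,k0,k0,k0,k0,k0,k0,k0,k0],[k0,k0,k0,k0,k0,k0,k0,k0,k0,k0,k0,k0],[k0,k0,k0,k0,k0,k0,k0,k0,k0,k0,k0,k0],
    [k0,k0,k0,k0,k0,k0,k0,k0,k0,k0,k0,k0],[k0,k0,k0,k0,k0,k0,k0,k0,k0,k0,k0,k0],[k0,k0,k0,k0,k0,k0,k0,k0,k0,k0,k0,k0],
    [k0,k0,k0,k0,k0,k0,k0,k0,k0,k0,k0,k0],[k0,k0,k0,k0,k0,k0,k0,k0,k0,k0,k0,k0]] k48 k5
    [[(k10,k15),(k11,k15),(k8,k17),(k1,k18)],[(k2,k17),(k3,k17),(k4,k17),(k5,k17),(k6,k17),(k7,k17),(k9,k17),(k0,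
    k18)],[(k2,k16),(k3,k16),(k4,k16),(k5,k16),(k6,k16),(k7,k16),(k9,k16),(k0,k17)],[(k2,k16),(k3,k16),(k4,k16),(k5,
    k16),(k6,k16),(k7,k16),(k9,k16),(k0,k17)],[(k2,k16),(k3,k16),(k4,k16),(k5,k16),(k6,k16),(k7,k16),(k9,k16),(k0,
    k17)],[(k2,k16),(k3,k16),(k4,k16),(k5,k16),(k6,k16),(k7,k16),(k9,k16),(k0,k17)],[(k2,k16),(k3,k16),(k4,k16),(k5,
    k16),(k6,k16),(k7,k16),(k9,k16),(k0,k17)],[(k2,k16),(k3,k16),(k4,k16),(k5,k16),(k6,k16),(k7,k16),(k9,k16),(k0,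
    k17)],[(k2,k16),(k3,k16),(k4,k16),(k5,k16),(k6,k16),(k7,k16),(k9,k16),(k0,k17)],[(k10,k14),(k11,k14),(k8,k16),(k1,
    k17)],[(k10,k12),(k11,k12),(k8,k14),(k1,k15)],[(k10,k12),(k11,k12),(k8,k14),(k1,k15)]]
    [[k1,k0,k0,k0,k1,k1],[k0,k0,k0,k0,k2,k1],[k0,k0,k0,k0,k0,k3]]
    [.ref k77 k0 [(z1,[z0,z1]),(z4,[y4,z1,z1]),(z1,[z0,z0,z0,z1]),(z2,[z0,y1,y1,y2,z4])],.ref k111 k0 [(z1,[z0,z1]),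
    (z1,[y2,z0,z1]),(z1,[z0,z0,z0,z1]),(z2,[z0,y1,y1,y2,z4])],.ref k15 k0 [(z4,[z1,z3]),(z4,[y1,z0,z3]),(z2,[y1,z0,z0,
    z3]),(z4,[y2,y3,y3,y6,z12])]],
    .lp k0 [k18,k16,k16,k16,k16,k12] [k0,k0,k1,k1,k1,k1,k1,k1,k1,k1,k3,k3] k0 [[k0,k0,k0,k0,k0,k0,k0,k0,k0,k0,k0,k0],
    [k0,k0,k0,k0,k0,k0,k0,k0,k0,k0,k0,k0],[k0,k0,k0,k0,k0,k0,k0,k0,k0,k0,k0,k0],[k0,k0,k0,k0,k0,k0,k0,k0,k0,k0,k0,k0],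
    [k0,k0,k0,k0,k0,k0,k0,k0,k0,k0,k0,k0],[k0,k0,k0,k0,k0,k0,k0,k0,k0,k0,k0,k0],[k0,k0,k0,k0,k0,k0,k0,k0,k0,k0,k0,k0],
    [k0,k0,k0,k0,k0,k0,k0,k0,k0,k0,k0,k0],[k0,k0,k0,k0,k0,k0,k0,k0,k0,k0,k0,k0],[k0,k0,k0,k0,k0,k0,k0,k0,k0,k0,k0,k0],
    [k0,k0,k0,k0,k0,k0,k0,k0,k0,k0,k0,k0],[k0,k0,k0,k0,k0,k0,k0,k0,k0,k0,k0,k0]] k48 k5
    [[(k10,k15),(k11,k15),(k8,k17),(k1,k18)],[(k2,k17),(k3,k17),(k4,k17),(k5,k17),(k6,k17),(k7,k17),(k9,k17),(k0,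
    k18)],[(k2,k16),(k3,k16),(k4,k16),(k5,k16),(k6,k16),(k7,k16),(k9,k16),(k0,k17)],[(k2,k16),(k3,k16),(k4,k16),(k5,
    k16),(k6,k16),(k7,k16),(k9,k16),(k0,k17)],[(k2,k16),(k3,k16),(k4,k16),(k5,k16),(k6,k16),(k7,k16),(k9,k16),(k0,
    k17)],[(k2,k16),(k3,k16),(k4,k16),(k5,k16),(k6,k16),(k7,k16),(k9,k16),(k0,k17)],[(k2,k16),(k3,k16),(k4,k16),(k5,
    k16),(k6,k16),(k7,k16),(k9,k16),(k0,k17)],[(k2,k16),(k3,k16),(k4,k16),(k5,k16),(k6,k16),(k7,k16),(k9,k16),(k0,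
    k17)],[(k2,k16),(k3,k16),(k4,k16),(k5,k16),(k6,k16),(k7,k16),(k9,k16),(k0,k17)],[(k10,k14),(k11,k14),(k8,k16),(k1,
    k17)],[(k10,k12),(k11,k12),(k8,k14),(k1,k15)],[(k10,k12),(k11,k12),(k8,k14),(k1,k15)]]
    [[k1,k0,k0,k0,k1,k1],[k0,k0,k0,k0,k2,k1],[k0,k0,k0,k0,k0,k3]]
    [.ref k3 k0 [(z1,[z1,z3,z1,z1,z1,y1]),(z1,[z1,z0,z4,z1,z1,y1]),(z1,[y2,z0,y2,z1,y2,z2]),(z1,[y2,z0,y2,y2,z1,z2]),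
    (z1,[z1,y3,y2,y2,y2,z2])],.ref k3 k0 [(z1,[z1,z5,z2,z2,z2,y2]),(z1,[z1,z2,z5,z2,z2,y2]),(z1,[y2,y4,y4,y1,y4,z4]),
    (z1,[y2,y4,y4,y4,y1,z4]),(z1,[z1,y1,y1,y1,y1,z1])],.ref k3 k0 [(z1,[z1,z3]),(z1,[z1,z0,z3]),(z1,[y2,z0,z0,z3]),
    (z1,[y2,z0,z0,z0,z3]),(z1,[z1,y3,y3,y3,y3,z3])]],
    .lp k0 [k120,k112,k112,k112,k126,k84] [k3,k3,k7,k7,k7,k7,k7,k7,k0,k0,k21,k21] k0 [[k0,k0,k14,k0,k0,k0,k0,k0,k0,k0,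
    k0,k0],[k14,k0,k0,k0,k0,k0,k0,k0,k0,k0,k0,k0],[k0,k0,k0,k0,k0,k0,k0,k0,k0,k0,k0,k0],[k0,k14,k0,k0,k0,k0,k14,k0,k0,
    k0,k0,k0],[k0,k0,k0,k0,k0,k0,k0,k0,k0,k0,k0,k0],[k0,k0,k0,k0,k0,k0,k0,k0,k0,k0,k0,k0],[k0,k0,k0,k0,k0,k0,k0,k0,k0,
    k0,k0,k0],[k0,k0,k14,k0,k0,k0,k0,k0,k0,k0,k0,k0],[k0,k0,k0,k0,k0,k0,k0,k0,k0,k0,k0,k0],[k0,k0,k0,k0,k0,k0,k0,k0,
    k0,k0,k0,k0],[k0,k0,k0,k0,k0,k0,k0,k0,k0,k0,k0,k0],[k0,k0,k0,k0,k0,k0,k0,k0,k0,k0,k0,k0]] (nat_lit 336) k5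
    [[(k10,k102),(k11,k102),(k1,k120),(k8,k123)],[(k5,k102),(k2,k116),(k3,k116),(k4,k116),(k6,k116),(k7,k116),(k9,
    k123),(k0,k134)],[(k3,k98),(k4,k112),(k5,k112),(k6,k112),(k7,k112),(k0,k116),(k9,k119),(k2,k126)],[(k2,k112),(k4,
    k112),(k5,k112),(k7,k112),(k0,k116),(k9,k119),(k3,k126),(k6,k126)],[(k0,k102),(k9,k105),(k2,k112),(k3,k112),(k4,
    k112),(k5,k112),(k6,k112),(k7,k112)],[(k2,k112),(k3,k112),(k4,k112),(k5,k112),(k6,k112),(k7,k112),(k0,k116),(k9,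
    k119)],[(k2,k112),(k3,k112),(k4,k112),(k5,k112),(k6,k112),(k7,k112),(k0,k116),(k9,k119)],[(k3,k112),(k4,k112),(k5,
    k112),(k6,k112),(k7,k112),(k0,k116),(k9,k119),(k2,k126)],[(k5,k105),(k2,k119),(k3,k119),(k4,k119),(k6,k119),(k7,
    k119),(k0,k123),(k9,k126)],[(k10,k105),(k11,k105),(k1,k123),(k8,k126)],[(k10,k84),(k11,k84),(k1,k102),(k8,k105)],
    [(k10,k84),(k11,k84),(k1,k102),(k8,k105)]]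
    [[k1,k0,k0,k0,k1,k1],[k0,k2,k1,k0,k0,k0],[k0,k0,k0,k0,k0,k3]]
    [.ref k2 k1 [(z1,[z1,y1]),(z1,[y1,z0,y1,y1,z1]),(z1,[y1,z1,z0,z1]),(z1,[z1,y1,z1])],.ref k113 k0 [(z2,[z1,z2,y2,
    y1]),(z1,[z1,z0,y1,y1]),(z1,[y1,z0,z2,z2]),(z1,[y1,y1,z1,z0,z1])],.ref k14 k0 [(z1,[z0,z1]),(z1,[y1,z0,z3]),(z1,
    [z0,z0,z0,z1]),(z1,[z0,y1,y1,y1,z1])]],
    .base (.leafM k0 [k0,k1,k2,k3,k4,k5] [(z1,[y1,z0,z0,z1])] []),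
    .base (.leafM k0 [k0,k1,k2,k3,k4,k5] [(z3,[z0,z1,z1,z1])] []),
    .lp k0 [k18,k16,k16,k16,k16,k12] [k0,k0,k1,k1,k1,k1,k1,k1,k1,k1,k3,k3] k0 [[k0,k0,k0,k0,k0,k0,k0,k0,k0,k0,k0,k0],
    [k0,k0,k0,k0,k0,k0,k0,k0,k0,k0,k0,k0],[k0,k0,k0,k0,k0,k0,k0,k0,k0,k0,k0,k0],[k0,k0,k0,k0,k0,k0,k0,k0,k0,k0,k0,k0],
    [k0,k0,k0,k0,k0,k0,k0,k0,k0,k0,k0,k0],[k0,k0,k0,k0,k0,k0,k0,k0,k0,k0,k0,k0],[k0,k0,k0,k0,k0,k0,k0,k0,k0,k0,k0,k0],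
    [k0,k0,k0,k0,k0,k0,k0,k0,k0,k0,k0,k0],[k0,k0,k0,k0,k0,k0,k0,k0,k0,k0,k0,k0],[k0,k0,k0,k0,k0,k0,k0,k0,k0,k0,k0,k0],
    [k0,k0,k0,k0,k0,k0,k0,k0,k0,k0,k0,k0],[k0,k0,k0,k0,k0,k0,k0,k0,k0,k0,k0,k0]] k48 k5
    [[(k10,k15),(k11,k15),(k8,k17),(k1,k18)],[(k2,k17),(k3,k17),(k4,k17),(k5,k17),(k6,k17),(k7,k17),(k9,k17),(k0,
    k18)],[(k2,k16),(k3,k16),(k4,k16),(k5,k16),(k6,k16),(k7,k16),(k9,k16),(k0,k17)],[(k2,k16),(k3,k16),(k4,k16),(k5,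
    k16),(k6,k16),(k7,k16),(k9,k16),(k0,k17)],[(k2,k16),(k3,k16),(k4,k16),(k5,k16),(k6,k16),(k7,k16),(k9,k16),(k0,
    k17)],[(k2,k16),(k3,k16),(k4,k16),(k5,k16),(k6,k16),(k7,k16),(k9,k16),(k0,k17)],[(k2,k16),(k3,k16),(k4,k16),(k5,
    k16),(k6,k16),(k7,k16),(k9,k16),(k0,k17)],[(k2,k16),(k3,k16),(k4,k16),(k5,k16),(k6,k16),(k7,k16),(k9,k16),(k0,
    k17)],[(k2,k16),(k3,k16),(k4,k16),(k5,k16),(k6,k16),(k7,k16),(k9,k16),(k0,k17)],[(k10,k14),(k11,k14),(k8,k16),(k1,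
    k17)],[(k10,k12),(k11,k12),(k8,k14),(k1,k15)],[(k10,k12),(k11,k12),(k8,k14),(k1,k15)]]
    [[k1,k0,k0,k0,k1,k1],[k0,k0,k0,k0,k2,k1],[k0,k0,k0,k0,k0,k3]]
    [.ref k116 k0 [(z1,[z0,z1]),(z1,[y3,z1,z3]),(z1,[z0,z0,z0,z1]),(z1,[z0,y1,y3,y1,z3])],.ref k7 k0 [(z1,[z0,z1]),
    (z1,[y1,z0,z2]),(z1,[z0,z0,z0,z1]),(z1,[z0,y1,y3,y1,z3])],.ref k15 k0 [(z1,[z0,z1]),(z1,[y1,z0,z3]),(z1,[z0,z0,z0,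
    z1]),(z1,[z0,y1,y3,y1,z3])]],
    .lp k0 [k68,k92,k74,k86,k70,k86] [k12,k12,k0,k0,k9,k9,k4,k2,k11,k11,k3,k3] k0 [[k0,k0,k0,k0,k0,k0,k0,k0,k0,k0,k0,
    k0],[k0,k0,k12,k0,k30,k18,k12,k0,k0,k0,k0,k0],[k0,k0,k0,k0,k30,k6,k0,k0,k0,k0,k0,k0],[k12,k0,k12,k0,k0,k0,k0,k0,
    k0,k0,k0,k0],[k18,k0,k0,k6,k0,k0,k0,k6,k0,k0,k0,k0],[k30,k0,k0,k30,k0,k0,k0,k6,k0,k0,k0,k0],[k0,k0,k0,k0,k6,k6,k0,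
    k0,k0,k0,k0,k0],[k12,k0,k0,k0,k0,k0,k0,k0,k0,k0,k0,k0],[k0,k0,k0,k0,k0,k0,k0,k0,k0,k0,k2,k18],[k0,k0,k0,k0,k0,k0,
    k0,k0,k20,k0,k0,k0],[k0,k0,k0,k0,k0,k0,k0,k0,k0,k18,k0,k0],[k0,k0,k0,k0,k0,k0,k0,k0,k0,k2,k0,k0]] (nat_lit 240) k5
    [[(k8,k67),(k1,k68),(k10,k77),(k11,k95)],[(k0,k68),(k9,k69),(k5,k71),(k3,k80),(k6,k88),(k2,k92),(k7,k96),(k4,
    k101)],[(k7,k60),(k4,k65),(k9,k69),(k5,k71),(k0,k80),(k6,k88),(k2,k92),(k3,k92)],[(k7,k60),(k4,k77),(k9,k81),(k5,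
    k83),(k6,k88),(k0,k92),(k3,k92),(k2,k104)],[(k5,k62),(k0,k71),(k3,k71),(k9,k72),(k6,k79),(k2,k83),(k7,k87),(k4,
    k104)],[(k3,k65),(k6,k73),(k4,k74),(k2,k77),(k9,k78),(k7,k81),(k0,k101),(k5,k104)],[(k2,k60),(k3,k60),(k6,k80),
    (k4,k81),(k9,k85),(k5,k87),(k7,k88),(k0,k96)],[(k4,k73),(k9,k77),(k5,k79),(k7,k80),(k6,k84),(k0,k88),(k2,k88),(k3,
    k88)],[(k0,k69),(k3,k69),(k9,k70),(k5,k72),(k6,k77),(k4,k78),(k2,k81),(k7,k85)],[(k10,k60),(k1,k67),(k11,k78),(k8,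
    k90)],[(k11,k66),(k8,k78),(k10,k88),(k1,k95)],[(k8,k60),(k1,k77),(k10,k86),(k11,k88)]]
    [[k1,k1,k0,k0,k1,k0],[k1,k0,k1,k0,k1,k0],[k1,k0,k0,k0,k1,k1],[k0,k1,k2,k0,k0,k0],[k0,k1,k1,k1,k0,k0],[k0,k1,k0,k2,
    k0,k0],[k0,k0,k2,k1,k0,k0],[k0,k0,k0,k0,k2,k1]]
    [.ref k112 k0 [(z2,[z2,z3,y1]),(z2,[z6,y3,z1]),(z2,[y2,y1,y1,z4])],.ref k114 k0 [(z2,[y2,z1,y1,z2]),(z1,[y3,z0,y1,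
    z3]),(z2,[z4,y1,z1,y2])],.ref k115 k1 [(z1,[z1]),(z1,[z0,z1]),(z2,[z0,z1,y1,z2])],.ref k115 k1 [(z2,[y2,y1,y1,
    z4]),(z1,[z0,z1]),(z2,[z0,z1,y1,z2])],.ref k115 k1 [(z1,[y1,z0,z0,z1]),(z1,[z0,z1]),(z2,[z0,z1,y1,z2])],
    .ref k115 k1 [(z2,[y2,z1,z1]),(z1,[z0,z1]),(z2,[z0,z1,y1,z2])],.ref k117 k0 [(z2,[y1,z2,y1,z2]),(z2,[y1,y1,z0,
    z2]),(z2,[z2,y1,y1,z2])],.ref k9 k1 [(z1,[z1]),(z1,[z0,z1]),(z2,[z0,z1,y1,z2])]],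
    .base (.leafM k0 [k0,k1,k2,k3,k4,k5] [(z1,[y1,z0,z0,z1])] [])]

theorem hB6_104_9 : blkB [0, 0, 0, 0, 1, 1] [] sp6 hS6_104 (pcls (n := 6) [0, 0, 0, 0, 1, 1]) hD6_104 181 9 hN6_104_9 = true := by
  decide +kernel

/-- nodes 120 to 131 -/
noncomputable def hN6_104_10 : List HM :=
  [.lp k0 [k16,k16,k16,k16,k18,k12] [k1,k1,k1,k1,k1,k1,k1,k1,k0,k0,k3,k3] k0 [[k0,k0,k0,k0,k0,k0,k0,k0,k0,k0,k0,k0],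
    [k0,k0,k0,k0,k0,k0,k0,k0,k0,k0,k0,k0],[k0,k0,k0,k0,k0,k0,k0,k0,k0,k0,k0,k0],[k0,k0,k0,k0,k0,k0,k0,k0,k0,k0,k0,k0],
    [k0,k0,k0,k0,k0,k0,k0,k0,k0,k0,k0,k0],[k0,k0,k0,k0,k0,k0,k0,k0,k0,k0,k0,k0],[k0,k0,k0,k0,k0,k0,k0,k0,k0,k0,k0,k0],
    [k0,k0,k0,k0,k0,k0,k0,k0,k0,k0,k0,k0],[k0,k0,k0,k0,k0,k0,k0,k0,k0,k0,k0,k0],[k0,k0,k0,k0,k0,k0,k0,k0,k0,k0,k0,k0],
    [k0,k0,k0,k0,k0,k0,k0,k0,k0,k0,k0,k0],[k0,k0,k0,k0,k0,k0,k0,k0,k0,k0,k0,k0]] k48 k5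
    [[(k10,k14),(k11,k14),(k1,k16),(k8,k17)],[(k0,k16),(k2,k16),(k3,k16),(k4,k16),(k5,k16),(k6,k16),(k7,k16),(k9,
    k17)],[(k0,k16),(k2,k16),(k3,k16),(k4,k16),(k5,k16),(k6,k16),(k7,k16),(k9,k17)],[(k0,k16),(k2,k16),(k3,k16),(k4,
    k16),(k5,k16),(k6,k16),(k7,k16),(k9,k17)],[(k0,k16),(k2,k16),(k3,k16),(k4,k16),(k5,k16),(k6,k16),(k7,k16),(k9,
    k17)],[(k0,k16),(k2,k16),(k3,k16),(k4,k16),(k5,k16),(k6,k16),(k7,k16),(k9,k17)],[(k0,k16),(k2,k16),(k3,k16),(k4,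
    k16),(k5,k16),(k6,k16),(k7,k16),(k9,k17)],[(k0,k16),(k2,k16),(k3,k16),(k4,k16),(k5,k16),(k6,k16),(k7,k16),(k9,
    k17)],[(k0,k17),(k2,k17),(k3,k17),(k4,k17),(k5,k17),(k6,k17),(k7,k17),(k9,k18)],[(k10,k15),(k11,k15),(k1,k17),(k8,
    k18)],[(k10,k12),(k11,k12),(k1,k14),(k8,k15)],[(k10,k12),(k11,k12),(k1,k14),(k8,k15)]]
    [[k2,k0,k0,k0,k0,k1],[k1,k0,k0,k0,k1,k1],[k0,k0,k0,k0,k0,k3]]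
    [.ref k3 k0 [(z4,[z1,z1]),(z5,[y10,z2,z3]),(z5,[z5,y1,z0,z3]),(z10,[y5,z1,z0,z0,z6]),(z20,[y25,y1,y12,y12,y12,
    z60])],.ref k3 k0 [(z10,[z5,z3,z1,z1,z1,y5]),(z5,[y20,z0,y1,y4,y4,z20]),(z5,[z10,z0,z2,z5,z2,y10]),(z5,[y5,z0,y1,
    y1,z2,z5]),(z10,[y25,y3,y11,y11,y11,z55])],.ref k3 k0 [(z10,[z1,z3]),(z5,[y4,z0,z3]),(z5,[z2,z0,z0,z3]),(z5,[y1,
    z0,z0,z0,z3]),(z10,[y5,y3,y6,y6,y6,z30])]],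
    .lp k0 [k120,k112,k112,k112,k126,k84] [k3,k3,k7,k7,k7,k7,k7,k7,k0,k0,k21,k21] k0 [[k0,k0,k14,k0,k0,k0,k0,k0,k0,k0,
    k0,k0],[k14,k0,k0,k0,k0,k0,k0,k0,k0,k0,k0,k0],[k0,k0,k0,k0,k0,k0,k0,k0,k0,k0,k0,k0],[k0,k14,k0,k0,k0,k0,k14,k0,k0,
    k0,k0,k0],[k0,k0,k0,k0,k0,k0,k0,k0,k0,k0,k0,k0],[k0,k0,k0,k0,k0,k0,k0,k0,k0,k0,k0,k0],[k0,k0,k0,k0,k0,k0,k0,k0,k0,
    k0,k0,k0],[k0,k0,k14,k0,k0,k0,k0,k0,k0,k0,k0,k0],[k0,k0,k0,k0,k0,k0,k0,k0,k0,k0,k0,k0],[k0,k0,k0,k0,k0,k0,k0,k0,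
    k0,k0,k0,k0],[k0,k0,k0,k0,k0,k0,k0,k0,k0,k0,k0,k0],[k0,k0,k0,k0,k0,k0,k0,k0,k0,k0,k0,k0]] (nat_lit 336) k5
    [[(k10,k102),(k11,k102),(k1,k120),(k8,k123)],[(k5,k102),(k2,k116),(k3,k116),(k4,k116),(k6,k116),(k7,k116),(k9,
    k123),(k0,k134)],[(k3,k98),(k4,k112),(k5,k112),(k6,k112),(k7,k112),(k0,k116),(k9,k119),(k2,k126)],[(k2,k112),(k4,
    k112),(k5,k112),(k7,k112),(k0,k116),(k9,k119),(k3,k126),(k6,k126)],[(k0,k102),(k9,k105),(k2,k112),(k3,k112),(k4,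
    k112),(k5,k112),(k6,k112),(k7,k112)],[(k2,k112),(k3,k112),(k4,k112),(k5,k112),(k6,k112),(k7,k112),(k0,k116),(k9,
    k119)],[(k2,k112),(k3,k112),(k4,k112),(k5,k112),(k6,k112),(k7,k112),(k0,k116),(k9,k119)],[(k3,k112),(k4,k112),(k5,
    k112),(k6,k112),(k7,k112),(k0,k116),(k9,k119),(k2,k126)],[(k5,k105),(k2,k119),(k3,k119),(k4,k119),(k6,k119),(k7,
    k119),(k0,k123),(k9,k126)],[(k10,k105),(k11,k105),(k1,k123),(k8,k126)],[(k10,k84),(k11,k84),(k1,k102),(k8,k105)],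
    [(k10,k84),(k11,k84),(k1,k102),(k8,k105)]]
    [[k1,k0,k0,k0,k1,k1],[k0,k2,k1,k0,k0,k0],[k0,k0,k0,k0,k0,k3]]
    [.ref k2 k0 [(z1,[z0,z1]),(z1,[y2,z1,z1]),(z2,[y2,z1,z0,z1]),(z2,[z4,y3,y2,y1,z2])],.ref k120 k1 [(z1,[y2,z0,z4,
    z1]),(z2,[y4,y5,y2,y3,z10]),(z1,[z1,z0,y2,z2]),(z1,[z2,z0,z1,y1])],.ref k98 k0 [(z2,[y1,z3]),(z1,[z0,z0,z1]),(z2,
    [z1,z0,z0,z3]),(z2,[y2,y3,y6,y3,z6])]],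
    .lp k0 [k18,k16,k16,k16,k16,k12] [k0,k0,k1,k1,k1,k1,k1,k1,k1,k1,k3,k3] k0 [[k0,k0,k0,k0,k0,k0,k0,k0,k0,k0,k0,k0],
    [k0,k0,k0,k0,k0,k0,k0,k0,k0,k0,k0,k0],[k0,k0,k0,k0,k0,k0,k0,k0,k0,k0,k0,k0],[k0,k0,k0,k0,k0,k0,k0,k0,k0,k0,k0,k0],
    [k0,k0,k0,k0,k0,k0,k0,k0,k0,k0,k0,k0],[k0,k0,k0,k0,k0,k0,k0,k0,k0,k0,k0,k0],[k0,k0,k0,k0,k0,k0,k0,k0,k0,k0,k0,k0],
    [k0,k0,k0,k0,k0,k0,k0,k0,k0,k0,k0,k0],[k0,k0,k0,k0,k0,k0,k0,k0,k0,k0,k0,k0],[k0,k0,k0,k0,k0,k0,k0,k0,k0,k0,k0,k0],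
    [k0,k0,k0,k0,k0,k0,k0,k0,k0,k0,k0,k0],[k0,k0,k0,k0,k0,k0,k0,k0,k0,k0,k0,k0]] k48 k5
    [[(k10,k15),(k11,k15),(k8,k17),(k1,k18)],[(k2,k17),(k3,k17),(k4,k17),(k5,k17),(k6,k17),(k7,k17),(k9,k17),(k0,
    k18)],[(k2,k16),(k3,k16),(k4,k16),(k5,k16),(k6,k16),(k7,k16),(k9,k16),(k0,k17)],[(k2,k16),(k3,k16),(k4,k16),(k5,
    k16),(k6,k16),(k7,k16),(k9,k16),(k0,k17)],[(k2,k16),(k3,k16),(k4,k16),(k5,k16),(k6,k16),(k7,k16),(k9,k16),(k0,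
    k17)],[(k2,k16),(k3,k16),(k4,k16),(k5,k16),(k6,k16),(k7,k16),(k9,k16),(k0,k17)],[(k2,k16),(k3,k16),(k4,k16),(k5,
    k16),(k6,k16),(k7,k16),(k9,k16),(k0,k17)],[(k2,k16),(k3,k16),(k4,k16),(k5,k16),(k6,k16),(k7,k16),(k9,k16),(k0,
    k17)],[(k2,k16),(k3,k16),(k4,k16),(k5,k16),(k6,k16),(k7,k16),(k9,k16),(k0,k17)],[(k10,k14),(k11,k14),(k8,k16),(k1,
    k17)],[(k10,k12),(k11,k12),(k8,k14),(k1,k15)],[(k10,k12),(k11,k12),(k8,k14),(k1,k15)]]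
    [[k1,k0,k0,k0,k1,k1],[k0,k0,k0,k0,k2,k1],[k0,k0,k0,k0,k0,k3]]
    [.ref k119 k1 [(z1,[z1]),(z1,[z0,z1]),(z1,[y1,z0,y1,z1])],.ref k121 k1 [(z1,[z1]),(z1,[z0,z1]),(z1,[y1,z0,y2,
    z2])],.ref k105 k0 [(z1,[z0,z1]),(z1,[y1,z0,z3]),(z1,[z0,y1,y2,z2])]],
    .base (.leafM k0 [k0,k1,k2,k3,k4,k5] [(z1,[y1,z0,z1])] []),
    .base (.leafM k0 [k0,k1,k2,k3,k4,k5] [(z1,[y1,z0,z0,z1])] []),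
    .lp k0 [k16,k16,k16,k16,k14,k16] [k2,k0,k1,k1,k1,k1,k1,k1,k2,k2,k1,k1] k0 [[k0,k0,k0,k0,k0,k0,k0,k0,k0,k0,k0,k0],
    [k0,k0,k0,k0,k0,k0,k0,k0,k0,k0,k0,k0],[k0,k0,k0,k0,k0,k0,k0,k0,k0,k0,k0,k0],[k0,k0,k0,k0,k0,k0,k0,k0,k0,k0,k0,k0],
    [k0,k0,k0,k0,k0,k0,k0,k0,k0,k0,k0,k0],[k0,k0,k0,k0,k0,k0,k0,k0,k0,k0,k0,k0],[k0,k0,k0,k0,k0,k0,k0,k0,k0,k0,k0,k0],
    [k0,k0,k0,k0,k0,k0,k0,k0,k0,k0,k0,k0],[k0,k0,k0,k0,k0,k0,k0,k0,k0,k0,k4,k0],[k0,k0,k0,k0,k0,k0,k0,k0,k4,k0,k0,k0],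
    [k0,k0,k0,k0,k0,k0,k0,k0,k0,k0,k0,k0],[k0,k0,k0,k0,k0,k0,k0,k0,k0,k4,k0,k0]] k48 k5
    [[(k8,k12),(k10,k17),(k11,k17),(k1,k18)],[(k0,k14),(k9,k14),(k2,k15),(k3,k15),(k4,k15),(k5,k15),(k6,k15),(k7,
    k15)],[(k0,k15),(k9,k15),(k2,k16),(k3,k16),(k4,k16),(k5,k16),(k6,k16),(k7,k16)],[(k0,k15),(k9,k15),(k2,k16),(k3,
    k16),(k4,k16),(k5,k16),(k6,k16),(k7,k16)],[(k0,k15),(k9,k15),(k2,k16),(k3,k16),(k4,k16),(k5,k16),(k6,k16),(k7,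
    k16)],[(k0,k15),(k9,k15),(k2,k16),(k3,k16),(k4,k16),(k5,k16),(k6,k16),(k7,k16)],[(k0,k15),(k9,k15),(k2,k16),(k3,
    k16),(k4,k16),(k5,k16),(k6,k16),(k7,k16)],[(k0,k15),(k9,k15),(k2,k16),(k3,k16),(k4,k16),(k5,k16),(k6,k16),(k7,
    k16)],[(k0,k14),(k9,k14),(k2,k15),(k3,k15),(k4,k15),(k5,k15),(k6,k15),(k7,k15)],[(k1,k12),(k10,k15),(k11,k15),(k8,
    k18)],[(k11,k12),(k8,k15),(k1,k17),(k10,k20)],[(k8,k15),(k10,k16),(k1,k17),(k11,k20)]]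
    [[k1,k1,k0,k0,k1,k0],[k1,k0,k1,k0,k1,k0],[k1,k0,k0,k1,k1,k0],[k1,k0,k0,k0,k1,k1],[k0,k0,k0,k0,k2,k1]]
    [.ref k3 k0 [(z1,[z0,z1]),(z1,[z6,y2,y3]),(z1,[y3,z1,z3,z3]),(z1,[z0,z0,z0,z0,z1]),(z1,[y3,z1,z3])],
    .ref k3 k0 [(z1,[z0,z1]),(z1,[y3,z1,z3,z3]),(z2,[z3,y1,z0,z3]),(z1,[z0,z0,z0,z0,z1]),(z2,[z3,y1,z0,y3])],
    .ref k3 k0 [(z1,[z0,z1]),(z1,[y6,z2,z3,z0,z2]),(z1,[z3,y1,z0,z3,y1]),(z1,[z0,z0,z0,z0,z1]),(z1,[z3,y1,z0,z0,y1])],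
    .ref k3 k0 [(z1,[z0,z1]),(z1,[y6,z0,y3,y6,y2,z6]),(z1,[z3,z0,z3,z6,z1,y3]),(z1,[z0,z0,z0,z0,z1]),(z1,[z3,z0,z3,z3,
    z1,y3])],.ref k3 k0 [(z1,[z0,z1]),(z1,[y3,y1,z0,y3,y1,z3]),(z2,[z3,z1,z3,z9,z1,y3]),(z1,[z0,z0,z0,z0,z1]),(z2,[z3,
    z1,z3,z3,z1,y3])]],
    .lp k0 [k18,k16,k16,k16,k16,k12] [k0,k0,k1,k1,k1,k1,k1,k1,k1,k1,k3,k3] k0 [[k0,k0,k0,k0,k0,k0,k0,k0,k0,k0,k0,k0],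
    [k0,k0,k0,k0,k0,k0,k0,k0,k0,k0,k0,k0],[k0,k0,k0,k0,k0,k0,k0,k0,k0,k0,k0,k0],[k0,k0,k0,k0,k0,k0,k0,k0,k0,k0,k0,k0],
    [k0,k0,k0,k0,k0,k0,k0,k0,k0,k0,k0,k0],[k0,k0,k0,k0,k0,k0,k0,k0,k0,k0,k0,k0],[k0,k0,k0,k0,k0,k0,k0,k0,k0,k0,k0,k0],
    [k0,k0,k0,k0,k0,k0,k0,k0,k0,k0,k0,k0],[k0,k0,k0,k0,k0,k0,k0,k0,k0,k0,k0,k0],[k0,k0,k0,k0,k0,k0,k0,k0,k0,k0,k0,k0],
    [k0,k0,k0,k0,k0,k0,k0,k0,k0,k0,k0,k0],[k0,k0,k0,k0,k0,k0,k0,k0,k0,k0,k0,k0]] k48 k5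
    [[(k10,k15),(k11,k15),(k8,k17),(k1,k18)],[(k2,k17),(k3,k17),(k4,k17),(k5,k17),(k6,k17),(k7,k17),(k9,k17),(k0,
    k18)],[(k2,k16),(k3,k16),(k4,k16),(k5,k16),(k6,k16),(k7,k16),(k9,k16),(k0,k17)],[(k2,k16),(k3,k16),(k4,k16),(k5,
    k16),(k6,k16),(k7,k16),(k9,k16),(k0,k17)],[(k2,k16),(k3,k16),(k4,k16),(k5,k16),(k6,k16),(k7,k16),(k9,k16),(k0,
    k17)],[(k2,k16),(k3,k16),(k4,k16),(k5,k16),(k6,k16),(k7,k16),(k9,k16),(k0,k17)],[(k2,k16),(k3,k16),(k4,k16),(k5,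
    k16),(k6,k16),(k7,k16),(k9,k16),(k0,k17)],[(k2,k16),(k3,k16),(k4,k16),(k5,k16),(k6,k16),(k7,k16),(k9,k16),(k0,
    k17)],[(k2,k16),(k3,k16),(k4,k16),(k5,k16),(k6,k16),(k7,k16),(k9,k16),(k0,k17)],[(k10,k14),(k11,k14),(k8,k16),(k1,
    k17)],[(k10,k12),(k11,k12),(k8,k14),(k1,k15)],[(k10,k12),(k11,k12),(k8,k14),(k1,k15)]]
    [[k1,k0,k0,k0,k1,k1],[k0,k0,k0,k0,k2,k1],[k0,k0,k0,k0,k0,k3]]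
    [.ref k50 k0 [(z1,[z0,z1]),(z1,[y2,z1,z1]),(z2,[z2,y1,z0,z1]),(z2,[z0,y1,y2,y1,z2])],.ref k50 k0 [(z1,[z0,z1]),
    (z1,[y1,z0,z1]),(z2,[z1,z0,z0,z1]),(z2,[z0,y1,y2,y1,z2])],.ref k125 k0 [(z2,[y1,z3]),(z1,[z0,z0,z1]),(z2,[y1,z0,
    z0,z1]),(z2,[z2,y3,y6,y3,z6])]],
    .lp k0 [k16,k16,k16,k16,k14,k16] [k2,k0,k1,k1,k1,k1,k1,k1,k2,k2,k1,k1] k0 [[k0,k0,k0,k0,k0,k0,k0,k0,k0,k0,k0,k0],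
    [k0,k0,k0,k0,k0,k0,k0,k0,k0,k0,k0,k0],[k0,k0,k0,k0,k0,k0,k0,k0,k0,k0,k0,k0],[k0,k0,k0,k0,k0,k0,k0,k0,k0,k0,k0,k0],
    [k0,k0,k0,k0,k0,k0,k0,k0,k0,k0,k0,k0],[k0,k0,k0,k0,k0,k0,k0,k0,k0,k0,k0,k0],[k0,k0,k0,k0,k0,k0,k0,k0,k0,k0,k0,k0],
    [k0,k0,k0,k0,k0,k0,k0,k0,k0,k0,k0,k0],[k0,k0,k0,k0,k0,k0,k0,k0,k0,k0,k4,k0],[k0,k0,k0,k0,k0,k0,k0,k0,k4,k0,k0,k0],
    [k0,k0,k0,k0,k0,k0,k0,k0,k0,k0,k0,k0],[k0,k0,k0,k0,k0,k0,k0,k0,k0,k4,k0,k0]] k48 k5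
    [[(k8,k12),(k10,k17),(k11,k17),(k1,k18)],[(k0,k14),(k9,k14),(k2,k15),(k3,k15),(k4,k15),(k5,k15),(k6,k15),(k7,
    k15)],[(k0,k15),(k9,k15),(k2,k16),(k3,k16),(k4,k16),(k5,k16),(k6,k16),(k7,k16)],[(k0,k15),(k9,k15),(k2,k16),(k3,
    k16),(k4,k16),(k5,k16),(k6,k16),(k7,k16)],[(k0,k15),(k9,k15),(k2,k16),(k3,k16),(k4,k16),(k5,k16),(k6,k16),(k7,
    k16)],[(k0,k15),(k9,k15),(k2,k16),(k3,k16),(k4,k16),(k5,k16),(k6,k16),(k7,k16)],[(k0,k15),(k9,k15),(k2,k16),(k3,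
    k16),(k4,k16),(k5,k16),(k6,k16),(k7,k16)],[(k0,k15),(k9,k15),(k2,k16),(k3,k16),(k4,k16),(k5,k16),(k6,k16),(k7,
    k16)],[(k0,k14),(k9,k14),(k2,k15),(k3,k15),(k4,k15),(k5,k15),(k6,k15),(k7,k15)],[(k1,k12),(k10,k15),(k11,k15),(k8,
    k18)],[(k11,k12),(k8,k15),(k1,k17),(k10,k20)],[(k8,k15),(k10,k16),(k1,k17),(k11,k20)]]
    [[k1,k1,k0,k0,k1,k0],[k1,k0,k1,k0,k1,k0],[k1,k0,k0,k1,k1,k0],[k1,k0,k0,k0,k1,k1],[k0,k0,k0,k0,k2,k1]]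
    [.ref k66 k0 [(z1,[z1,z0,y1]),(z1,[z0,z0,z1]),(z2,[z6,y3,y6,z1]),(z1,[y2,z1,z2])],.ref k104 k0 [(z4,[z6,z3,z0,
    y1]),(z1,[z0,z0,z1]),(z4,[z6,y3,z0,z1]),(z2,[y6,z3,z0,z1])],.ref k66 k0 [(z1,[y1,z1]),(z1,[z0,z0,z1]),(z2,[y6,z3,
    z0,z1]),(z1,[z2,y1])],.ref k104 k0 [(z2,[z6,z3,z6,z1,y6]),(z1,[z0,z0,z1]),(z1,[z3,z0,z3,z1,y3]),(z1,[y6,z0,y6,y1,
    z6])],.ref k125 k1 [(z4,[z6,z3,z6,z1,y6]),(z1,[z0,z1]),(z4,[z2,y1,z2,z1,y2]),(z2,[y6,y3,z0,y1,z6])]],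
    .lp k0 [k18,k16,k16,k16,k16,k12] [k0,k0,k1,k1,k1,k1,k1,k1,k1,k1,k3,k3] k0 [[k0,k0,k0,k0,k0,k0,k0,k0,k0,k0,k0,k0],
    [k0,k0,k0,k0,k0,k0,k0,k0,k0,k0,k0,k0],[k0,k0,k0,k0,k0,k0,k0,k0,k0,k0,k0,k0],[k0,k0,k0,k0,k0,k0,k0,k0,k0,k0,k0,k0],
    [k0,k0,k0,k0,k0,k0,k0,k0,k0,k0,k0,k0],[k0,k0,k0,k0,k0,k0,k0,k0,k0,k0,k0,k0],[k0,k0,k0,k0,k0,k0,k0,k0,k0,k0,k0,k0],
    [k0,k0,k0,k0,k0,k0,k0,k0,k0,k0,k0,k0],[k0,k0,k0,k0,k0,k0,k0,k0,k0,k0,k0,k0],[k0,k0,k0,k0,k0,k0,k0,k0,k0,k0,k0,k0],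
    [k0,k0,k0,k0,k0,k0,k0,k0,k0,k0,k0,k0],[k0,k0,k0,k0,k0,k0,k0,k0,k0,k0,k0,k0]] k48 k5
    [[(k10,k15),(k11,k15),(k8,k17),(k1,k18)],[(k2,k17),(k3,k17),(k4,k17),(k5,k17),(k6,k17),(k7,k17),(k9,k17),(k0,
    k18)],[(k2,k16),(k3,k16),(k4,k16),(k5,k16),(k6,k16),(k7,k16),(k9,k16),(k0,k17)],[(k2,k16),(k3,k16),(k4,k16),(k5,
    k16),(k6,k16),(k7,k16),(k9,k16),(k0,k17)],[(k2,k16),(k3,k16),(k4,k16),(k5,k16),(k6,k16),(k7,k16),(k9,k16),(k0,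
    k17)],[(k2,k16),(k3,k16),(k4,k16),(k5,k16),(k6,k16),(k7,k16),(k9,k16),(k0,k17)],[(k2,k16),(k3,k16),(k4,k16),(k5,
    k16),(k6,k16),(k7,k16),(k9,k16),(k0,k17)],[(k2,k16),(k3,k16),(k4,k16),(k5,k16),(k6,k16),(k7,k16),(k9,k16),(k0,
    k17)],[(k2,k16),(k3,k16),(k4,k16),(k5,k16),(k6,k16),(k7,k16),(k9,k16),(k0,k17)],[(k10,k14),(k11,k14),(k8,k16),(k1,
    k17)],[(k10,k12),(k11,k12),(k8,k14),(k1,k15)],[(k10,k12),(k11,k12),(k8,k14),(k1,k15)]]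
    [[k1,k0,k0,k0,k1,k1],[k0,k0,k0,k0,k2,k1],[k0,k0,k0,k0,k0,k3]]
    [.ref k124 k0 [(z1,[z1]),(z1,[z0,z0,z1]),(z1,[z1,y1,y1,z1])],.ref k126 k1 [(z1,[z1]),(z1,[z0,z1]),(z1,[z1,y2,y2,
    z2])],.ref k127 k0 [(z1,[z0,z1]),(z1,[z0,z0,z1]),(z1,[y2,y3,y6,z6])]],
    .base (.leafM k0 [k0,k1,k2,k3,k4,k5] [(z1,[z0,z1,z1,z1])] []),
    .lp k0 [k16,k16,k16,k16,k18,k12] [k1,k1,k1,k1,k1,k1,k1,k1,k0,k0,k3,k3] k0 [[k0,k0,k0,k0,k0,k0,k0,k0,k0,k0,k0,k0],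
    [k0,k0,k0,k0,k0,k0,k0,k0,k0,k0,k0,k0],[k0,k0,k0,k0,k0,k0,k0,k0,k0,k0,k0,k0],[k0,k0,k0,k0,k0,k0,k0,k0,k0,k0,k0,k0],
    [k0,k0,k0,k0,k0,k0,k0,k0,k0,k0,k0,k0],[k0,k0,k0,k0,k0,k0,k0,k0,k0,k0,k0,k0],[k0,k0,k0,k0,k0,k0,k0,k0,k0,k0,k0,k0],
    [k0,k0,k0,k0,k0,k0,k0,k0,k0,k0,k0,k0],[k0,k0,k0,k0,k0,k0,k0,k0,k0,k0,k0,k0],[k0,k0,k0,k0,k0,k0,k0,k0,k0,k0,k0,k0],
    [k0,k0,k0,k0,k0,k0,k0,k0,k0,k0,k0,k0],[k0,k0,k0,k0,k0,k0,k0,k0,k0,k0,k0,k0]] k48 k5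
    [[(k10,k14),(k11,k14),(k1,k16),(k8,k17)],[(k0,k16),(k2,k16),(k3,k16),(k4,k16),(k5,k16),(k6,k16),(k7,k16),(k9,
    k17)],[(k0,k16),(k2,k16),(k3,k16),(k4,k16),(k5,k16),(k6,k16),(k7,k16),(k9,k17)],[(k0,k16),(k2,k16),(k3,k16),(k4,
    k16),(k5,k16),(k6,k16),(k7,k16),(k9,k17)],[(k0,k16),(k2,k16),(k3,k16),(k4,k16),(k5,k16),(k6,k16),(k7,k16),(k9,
    k17)],[(k0,k16),(k2,k16),(k3,k16),(k4,k16),(k5,k16),(k6,k16),(k7,k16),(k9,k17)],[(k0,k16),(k2,k16),(k3,k16),(k4,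
    k16),(k5,k16),(k6,k16),(k7,k16),(k9,k17)],[(k0,k16),(k2,k16),(k3,k16),(k4,k16),(k5,k16),(k6,k16),(k7,k16),(k9,
    k17)],[(k0,k17),(k2,k17),(k3,k17),(k4,k17),(k5,k17),(k6,k17),(k7,k17),(k9,k18)],[(k10,k15),(k11,k15),(k1,k17),(k8,
    k18)],[(k10,k12),(k11,k12),(k1,k14),(k8,k15)],[(k10,k12),(k11,k12),(k1,k14),(k8,k15)]]
    [[k2,k0,k0,k0,k0,k1],[k1,k0,k0,k0,k1,k1],[k0,k0,k0,k0,k0,k3]]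
    [.ref k3 k0 [(z1,[z1,z1]),(z2,[y1,z2,z3]),(z1,[z1,y2,z0,z3]),(z1,[y2,z4,z0,z0,z3]),(z2,[y1,y4,y3,y6,y6,z6])],
    .ref k3 k0 [(z1,[z2,z3,z1,z2,z2,y2]),(z1,[y1,z0,z1,y1,y1,z1]),(z1,[z2,z0,z1,z5,z2,y2]),(z1,[y4,z0,y2,y4,y1,z4]),
    (z1,[y1,y3,y2,y4,y4,z4])],.ref k3 k0 [(z1,[z1,z3]),(z2,[y1,z0,z3]),(z1,[z1,z0,z0,z3]),(z1,[y2,z0,z0,z0,z3]),(z2,
    [y1,y6,y3,y6,y6,z6])]],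
    .lp k0 [k18,k16,k16,k16,k16,k12] [k0,k0,k1,k1,k1,k1,k1,k1,k1,k1,k3,k3] k0 [[k0,k0,k0,k0,k0,k0,k0,k0,k0,k0,k0,k0],
    [k0,k0,k0,k0,k0,k0,k0,k0,k0,k0,k0,k0],[k0,k0,k0,k0,k0,k0,k0,k0,k0,k0,k0,k0],[k0,k0,k0,k0,k0,k0,k0,k0,k0,k0,k0,k0],
    [k0,k0,k0,k0,k0,k0,k0,k0,k0,k0,k0,k0],[k0,k0,k0,k0,k0,k0,k0,k0,k0,k0,k0,k0],[k0,k0,k0,k0,k0,k0,k0,k0,k0,k0,k0,k0],
    [k0,k0,k0,k0,k0,k0,k0,k0,k0,k0,k0,k0],[k0,k0,k0,k0,k0,k0,k0,k0,k0,k0,k0,k0],[k0,k0,k0,k0,k0,k0,k0,k0,k0,k0,k0,k0],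
    [k0,k0,k0,k0,k0,k0,k0,k0,k0,k0,k0,k0],[k0,k0,k0,k0,k0,k0,k0,k0,k0,k0,k0,k0]] k48 k5
    [[(k10,k15),(k11,k15),(k8,k17),(k1,k18)],[(k2,k17),(k3,k17),(k4,k17),(k5,k17),(k6,k17),(k7,k17),(k9,k17),(k0,
    k18)],[(k2,k16),(k3,k16),(k4,k16),(k5,k16),(k6,k16),(k7,k16),(k9,k16),(k0,k17)],[(k2,k16),(k3,k16),(k4,k16),(k5,
    k16),(k6,k16),(k7,k16),(k9,k16),(k0,k17)],[(k2,k16),(k3,k16),(k4,k16),(k5,k16),(k6,k16),(k7,k16),(k9,k16),(k0,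
    k17)],[(k2,k16),(k3,k16),(k4,k16),(k5,k16),(k6,k16),(k7,k16),(k9,k16),(k0,k17)],[(k2,k16),(k3,k16),(k4,k16),(k5,
    k16),(k6,k16),(k7,k16),(k9,k16),(k0,k17)],[(k2,k16),(k3,k16),(k4,k16),(k5,k16),(k6,k16),(k7,k16),(k9,k16),(k0,
    k17)],[(k2,k16),(k3,k16),(k4,k16),(k5,k16),(k6,k16),(k7,k16),(k9,k16),(k0,k17)],[(k10,k14),(k11,k14),(k8,k16),(k1,
    k17)],[(k10,k12),(k11,k12),(k8,k14),(k1,k15)],[(k10,k12),(k11,k12),(k8,k14),(k1,k15)]]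
    [[k1,k0,k0,k0,k1,k1],[k0,k0,k0,k0,k2,k1],[k0,k0,k0,k0,k0,k3]]
    [.ref k129 k0 [(z1,[z0,z1]),(z1,[y1,z1,z1]),(z1,[z0,z0,z0,z1]),(z1,[z0,y1,y1,y1,z1])],.ref k130 k0 [(z1,[z0,z1]),
    (z1,[y1,z0,z2]),(z1,[z0,z0,z0,z1]),(z1,[z0,y1,y1,y1,z1])],.ref k15 k0 [(z1,[z1,z3]),(z1,[y1,z0,z3]),(z1,[z1,z0,z0,
    z3]),(z1,[y2,y3,y3,y3,z3])]]]

theorem hB6_104_10 : blkB [0, 0, 0, 0, 1, 1] [] sp6 hS6_104 (pcls (n := 6) [0, 0, 0, 0, 1, 1]) hD6_104 181 10 hN6_104_10 = true := by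
  decide +kernel

end Pool.Agent.Lib_MP_fa6e45
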