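import Pool.Agent.Lib_MP_fa6e45.HK

/-!
MP_fa6e45_co, stage 4: certificates (captain, generated by a program).
-/

namespace Pool.Agent.Lib_MP_fa6e45

/-- nodes 132 to 143 -/
noncomputable def hN6_104_11 : List HM :=
  [.lp k0 [k16,k16,k16,k16,k18,k12] [k1,k1,k1,k1,k1,k1,k1,k1,k0,k0,k3,k3] k0 [[k0,k0,k0,k0,k0,k0,k0,k0,k0,k0,k0,k0],
    [k0,k0,k0,k0,k0,k0,k0,k0,k0,k0,k0,k0],[k0,k0,k0,k0,k0,k0,k0,k0,k0,k0,k0,k0],[k0,k0,k0,k0,k0,k0,k0,k0,k0,k0,k0,k0],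
    [k0,k0,k0,k0,k0,k0,k0,k0,k0,k0,k0,k0],[k0,k0,k0,k0,k0,k0,k0,k0,k0,k0,k0,k0],[k0,k0,k0,k0,k0,k0,k0,k0,k0,k0,k0,k0],
    [k0,k0,k0,k0,k0,k0,k0,k0,k0,k0,k0,k0],[k0,k0,k0,k0,k0,k0,k0,k0,k0,k0,k0,k0],[k0,k0,k0,k0,k0,k0,k0,k0,k0,k0,k0,k0],
    [k0,k0,k0,k0,k0,k0,k0,k0,k0,k0,k0,k0],[k0,k0,k0,k0,k0,k0,k0,k0,k0,k0,k0,k0]] k48 k5
    [[(k10,k14),(k11,k14),(k1,k16),(k8,k17)],[(k0,k16),(k2,k16),(k3,k16),(k4,k16),(k5,k16),(k6,k16),(k7,k16),(k9,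
    k17)],[(k0,k16),(k2,k16),(k3,k16),(k4,k16),(k5,k16),(k6,k16),(k7,k16),(k9,k17)],[(k0,k16),(k2,k16),(k3,k16),(k4,
    k16),(k5,k16),(k6,k16),(k7,k16),(k9,k17)],[(k0,k16),(k2,k16),(k3,k16),(k4,k16),(k5,k16),(k6,k16),(k7,k16),(k9,
    k17)],[(k0,k16),(k2,k16),(k3,k16),(k4,k16),(k5,k16),(k6,k16),(k7,k16),(k9,k17)],[(k0,k16),(k2,k16),(k3,k16),(k4,
    k16),(k5,k16),(k6,k16),(k7,k16),(k9,k17)],[(k0,k16),(k2,k16),(k3,k16),(k4,k16),(k5,k16),(k6,k16),(k7,k16),(k9,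
    k17)],[(k0,k17),(k2,k17),(k3,k17),(k4,k17),(k5,k17),(k6,k17),(k7,k17),(k9,k18)],[(k10,k15),(k11,k15),(k1,k17),(k8,
    k18)],[(k10,k12),(k11,k12),(k1,k14),(k8,k15)],[(k10,k12),(k11,k12),(k1,k14),(k8,k15)]]
    [[k2,k0,k0,k0,k0,k1],[k1,k0,k0,k0,k1,k1],[k0,k0,k0,k0,k0,k3]]
    [.ref k3 k0 [(z2,[z1,z1]),(z2,[y2,z1,z3]),(z4,[z2,y1,z0,z3]),(z2,[y2,z1,z0,z0,z3]),(z4,[y4,y1,y6,y3,y6,z12])],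
    .ref k3 k0 [(z4,[z4,z3,z2,z1,z2,y4]),(z2,[y4,z0,z1,y1,y2,z4]),(z2,[z2,z0,z1,z2,z1,y2]),(z2,[y4,z0,y2,y1,z1,z4]),
    (z4,[y8,y3,y10,y5,y10,z20])],.ref k3 k0 [(z4,[z1,z3]),(z2,[y1,z0,z3]),(z4,[z1,z0,z0,z3]),(z2,[y1,z0,z0,z0,z3]),
    (z4,[y2,y3,y6,y3,y6,z12])]],
    .lp k0 [k42,k42,k42,k42,k30,k40] [k0,k0,k0,k0,k0,k0,k0,k0,k6,k6,k1,k1] k0 [[k0,k0,k0,k0,k0,k0,k0,k6,k0,k0,k0,k0],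
    [k0,k0,k0,k6,k0,k0,k0,k0,k0,k0,k0,k0],[k6,k0,k0,k0,k0,k0,k0,k6,k0,k0,k0,k0],[k0,k0,k0,k0,k0,k0,k0,k6,k0,k0,k0,k0],
    [k0,k0,k0,k0,k0,k0,k0,k0,k0,k0,k0,k0],[k0,k0,k0,k0,k0,k0,k0,k0,k0,k0,k0,k0],[k0,k6,k6,k6,k0,k0,k0,k0,k0,k0,k0,k0],
    [k0,k0,k0,k0,k0,k0,k0,k0,k0,k0,k0,k0],[k0,k0,k0,k0,k0,k0,k0,k0,k0,k0,k0,k0],[k0,k0,k0,k0,k0,k0,k0,k0,k0,k0,k0,k0],
    [k0,k0,k0,k0,k0,k0,k0,k0,k0,k0,k0,k0],[k0,k0,k0,k0,k0,k0,k0,k0,k0,k0,k0,k0]] k120 k5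
    [[(k8,k36),(k10,k41),(k11,k41),(k1,k42)],[(k6,k36),(k9,k36),(k0,k42),(k2,k42),(k3,k42),(k4,k42),(k7,k42),(k5,
    k48)],[(k2,k36),(k0,k42),(k3,k42),(k4,k42),(k5,k42),(k6,k42),(k7,k42),(k9,k42)],[(k3,k36),(k6,k36),(k0,k42),(k2,
    k42),(k4,k42),(k5,k42),(k7,k42),(k9,k42)],[(k6,k36),(k2,k42),(k3,k42),(k4,k42),(k5,k42),(k7,k42),(k9,k42),(k0,
    k48)],[(k9,k36),(k0,k42),(k2,k42),(k3,k42),(k4,k42),(k5,k42),(k6,k42),(k7,k42)],[(k9,k36),(k0,k42),(k2,k42),(k3,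
    k42),(k4,k42),(k5,k42),(k6,k42),(k7,k42)],[(k0,k36),(k2,k36),(k5,k36),(k9,k36),(k3,k42),(k4,k42),(k6,k42),(k7,
    k42)],[(k9,k30),(k0,k36),(k4,k36),(k6,k36),(k7,k36),(k2,k42),(k3,k42),(k5,k42)],[(k8,k30),(k10,k35),(k11,k35),(k1,
    k36)],[(k8,k35),(k10,k40),(k11,k40),(k1,k41)],[(k8,k35),(k10,k40),(k11,k40),(k1,k41)]]
    [[k1,k0,k0,k1,k1,k0],[k1,k0,k0,k0,k1,k1],[k0,k3,k0,k0,k0,k0],[k0,k2,k0,k1,k0,k0],[k0,k1,k0,k0,k2,k0],[k0,k0,k1,k0,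
    k2,k0],[k0,k0,k0,k1,k2,k0],[k0,k0,k0,k0,k2,k1]]
    [.ref k3 k0 [(z1,[y1,z2,z0,z0,z1]),(z1,[y2,z1,z1,z0,z2]),(z2,[y2,z1,z0,z3,z2]),(z1,[z2,y1,z0,z0,z1]),(z1,[z2,y1,
    z0,z0,y2])],.ref k3 k0 [(z2,[y6,z3,y2,y3,y6,z6]),(z1,[y6,z0,y1,y3,y6,z6]),(z1,[y3,z0,y1,z0,y3,z3]),(z1,[z6,z0,z2,
    z3,z9,y6]),(z1,[z6,z0,z2,z3,z6,y6])],.ref k3 k0 [(z2,[z1,z3,y1]),(z1,[z1]),(z2,[z1,z0,y1,z3]),(z1,[y1,z0,z1,z0,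
    z3]),(z1,[y1,z0,z1])],.ref k3 k0 [(z2,[z3,z3,y2,z0,y3]),(z1,[z3,z0,y1,z0,y3]),(z2,[z3,z0,y2,z3,y3]),(z1,[y3,z0,z2,
    z0,z6]),(z1,[y3,z0,z2,z0,z3])],.ref k3 k0 [(z2,[y3,z3,z1]),(z1,[y3,z0,z2]),(z2,[y3,z0,z1,z3]),(z1,[z3,z0,y1,z0,
    z3]),(z1,[z3,z0,y1])],.ref k3 k0 [(z2,[y2,z3,z0,z1]),(z1,[y2,z0,z1,z1]),(z1,[y1,z0,z0,z2]),(z1,[z2,z0,z0,y1,z3]),
    (z1,[z2,z0,z0,y1])],.ref k3 k0 [(z2,[y1,z3,z0,z0,z1]),(z1,[y1,z0,z1,z0,z1]),(z2,[y1,z0,z0,z3,z1]),(z1,[z1,z0,z0,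
    z0,z2]),(z1,[z1,z0,z0,z0,y1])],.ref k3 k0 [(z8,[y6,z9,y2,y3,y6,z6]),(z4,[y6,y3,z2,y3,y6,z6]),(z8,[y6,y3,y2,z9,y6,
    z6]),(z4,[z6,z3,z2,z3,z18,y6]),(z4,[z6,z3,z2,z3,z6,y6])]],
    .lp k0 [k18,k16,k16,k16,k16,k12] [k0,k0,k1,k1,k1,k1,k1,k1,k1,k1,k3,k3] k0 [[k0,k0,k0,k0,k0,k0,k0,k0,k0,k0,k0,k0],
    [k0,k0,k0,k0,k0,k0,k0,k0,k0,k0,k0,k0],[k0,k0,k0,k0,k0,k0,k0,k0,k0,k0,k0,k0],[k0,k0,k0,k0,k0,k0,k0,k0,k0,k0,k0,k0],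
    [k0,k0,k0,k0,k0,k0,k0,k0,k0,k0,k0,k0],[k0,k0,k0,k0,k0,k0,k0,k0,k0,k0,k0,k0],[k0,k0,k0,k0,k0,k0,k0,k0,k0,k0,k0,k0],
    [k0,k0,k0,k0,k0,k0,k0,k0,k0,k0,k0,k0],[k0,k0,k0,k0,k0,k0,k0,k0,k0,k0,k0,k0],[k0,k0,k0,k0,k0,k0,k0,k0,k0,k0,k0,k0],
    [k0,k0,k0,k0,k0,k0,k0,k0,k0,k0,k0,k0],[k0,k0,k0,k0,k0,k0,k0,k0,k0,k0,k0,k0]] k48 k5
    [[(k10,k15),(k11,k15),(k8,k17),(k1,k18)],[(k2,k17),(k3,k17),(k4,k17),(k5,k17),(k6,k17),(k7,k17),(k9,k17),(k0,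
    k18)],[(k2,k16),(k3,k16),(k4,k16),(k5,k16),(k6,k16),(k7,k16),(k9,k16),(k0,k17)],[(k2,k16),(k3,k16),(k4,k16),(k5,
    k16),(k6,k16),(k7,k16),(k9,k16),(k0,k17)],[(k2,k16),(k3,k16),(k4,k16),(k5,k16),(k6,k16),(k7,k16),(k9,k16),(k0,
    k17)],[(k2,k16),(k3,k16),(k4,k16),(k5,k16),(k6,k16),(k7,k16),(k9,k16),(k0,k17)],[(k2,k16),(k3,k16),(k4,k16),(k5,
    k16),(k6,k16),(k7,k16),(k9,k16),(k0,k17)],[(k2,k16),(k3,k16),(k4,k16),(k5,k16),(k6,k16),(k7,k16),(k9,k16),(k0,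
    k17)],[(k2,k16),(k3,k16),(k4,k16),(k5,k16),(k6,k16),(k7,k16),(k9,k16),(k0,k17)],[(k10,k14),(k11,k14),(k8,k16),(k1,
    k17)],[(k10,k12),(k11,k12),(k8,k14),(k1,k15)],[(k10,k12),(k11,k12),(k8,k14),(k1,k15)]]
    [[k1,k0,k0,k0,k1,k1],[k0,k0,k0,k0,k2,k1],[k0,k0,k0,k0,k0,k3]]
    [.ref k129 k0 [(z1,[y1,z1]),(z1,[y2,z1,z1]),(z2,[y2,z1,z0,z1]),(z2,[z4,y3,y2,y1,z2])],.ref k132 k0 [(z1,[y1,z2]),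
    (z1,[y1,z0,z2]),(z1,[y1,z0,z0,z2]),(z1,[z1,y1,y2,y1,z2])],.ref k133 k0 [(z1,[z0,z1]),(z1,[y1,z0,z3]),(z1,[z0,z0,
    z0,z1]),(z2,[z0,y1,y2,y1,z2])]],
    .base (.leafM k0 [k0,k1,k2,k3,k4,k5] [(z1,[y1,z0,z0,z1])] []),
    .base (.leafM k0 [k0,k1,k2,k3,k4,k5] [(z1,[z0,z1,z1,z1])] []),
    .lp k0 [k16,k16,k16,k16,k18,k12] [k1,k1,k1,k1,k1,k1,k1,k1,k0,k0,k3,k3] k0 [[k0,k0,k0,k0,k0,k0,k0,k0,k0,k0,k0,k0],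
    [k0,k0,k0,k0,k0,k0,k0,k0,k0,k0,k0,k0],[k0,k0,k0,k0,k0,k0,k0,k0,k0,k0,k0,k0],[k0,k0,k0,k0,k0,k0,k0,k0,k0,k0,k0,k0],
    [k0,k0,k0,k0,k0,k0,k0,k0,k0,k0,k0,k0],[k0,k0,k0,k0,k0,k0,k0,k0,k0,k0,k0,k0],[k0,k0,k0,k0,k0,k0,k0,k0,k0,k0,k0,k0],
    [k0,k0,k0,k0,k0,k0,k0,k0,k0,k0,k0,k0],[k0,k0,k0,k0,k0,k0,k0,k0,k0,k0,k0,k0],[k0,k0,k0,k0,k0,k0,k0,k0,k0,k0,k0,k0],
    [k0,k0,k0,k0,k0,k0,k0,k0,k0,k0,k0,k0],[k0,k0,k0,k0,k0,k0,k0,k0,k0,k0,k0,k0]] k48 k5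
    [[(k10,k14),(k11,k14),(k1,k16),(k8,k17)],[(k0,k16),(k2,k16),(k3,k16),(k4,k16),(k5,k16),(k6,k16),(k7,k16),(k9,
    k17)],[(k0,k16),(k2,k16),(k3,k16),(k4,k16),(k5,k16),(k6,k16),(k7,k16),(k9,k17)],[(k0,k16),(k2,k16),(k3,k16),(k4,
    k16),(k5,k16),(k6,k16),(k7,k16),(k9,k17)],[(k0,k16),(k2,k16),(k3,k16),(k4,k16),(k5,k16),(k6,k16),(k7,k16),(k9,
    k17)],[(k0,k16),(k2,k16),(k3,k16),(k4,k16),(k5,k16),(k6,k16),(k7,k16),(k9,k17)],[(k0,k16),(k2,k16),(k3,k16),(k4,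
    k16),(k5,k16),(k6,k16),(k7,k16),(k9,k17)],[(k0,k16),(k2,k16),(k3,k16),(k4,k16),(k5,k16),(k6,k16),(k7,k16),(k9,
    k17)],[(k0,k17),(k2,k17),(k3,k17),(k4,k17),(k5,k17),(k6,k17),(k7,k17),(k9,k18)],[(k10,k15),(k11,k15),(k1,k17),(k8,
    k18)],[(k10,k12),(k11,k12),(k1,k14),(k8,k15)],[(k10,k12),(k11,k12),(k1,k14),(k8,k15)]]
    [[k2,k0,k0,k0,k0,k1],[k1,k0,k0,k0,k1,k1],[k0,k0,k0,k0,k0,k3]]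
    [.ref k3 k0 [(z1,[z1,z1]),(z1,[z1,y2,z3]),(z2,[y1,z2,z0,z3]),(z1,[y2,z4,z0,z0,z3]),(z2,[y1,y4,y6,y3,y6,z6])],
    .ref k3 k0 [(z1,[z2,z3,z2,z1,z2,y2]),(z1,[z2,z0,z5,z1,z2,y2]),(z1,[y1,z0,y1,z1,y1,z1]),(z1,[y4,z0,y4,y2,y1,z4]),
    (z1,[y1,y3,y4,y2,y4,z4])],.ref k3 k0 [(z1,[z1,z3]),(z1,[z1,z0,z3]),(z2,[y1,z0,z0,z3]),(z1,[y2,z0,z0,z0,z3]),(z2,
    [y1,y6,y6,y3,y6,z6])]],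
    .lp k0 [k18,k16,k16,k16,k16,k12] [k0,k0,k1,k1,k1,k1,k1,k1,k1,k1,k3,k3] k0 [[k0,k0,k0,k0,k0,k0,k0,k0,k0,k0,k0,k0],
    [k0,k0,k0,k0,k0,k0,k0,k0,k0,k0,k0,k0],[k0,k0,k0,k0,k0,k0,k0,k0,k0,k0,k0,k0],[k0,k0,k0,k0,k0,k0,k0,k0,k0,k0,k0,k0],
    [k0,k0,k0,k0,k0,k0,k0,k0,k0,k0,k0,k0],[k0,k0,k0,k0,k0,k0,k0,k0,k0,k0,k0,k0],[k0,k0,k0,k0,k0,k0,k0,k0,k0,k0,k0,k0],
    [k0,k0,k0,k0,k0,k0,k0,k0,k0,k0,k0,k0],[k0,k0,k0,k0,k0,k0,k0,k0,k0,k0,k0,k0],[k0,k0,k0,k0,k0,k0,k0,k0,k0,k0,k0,k0],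
    [k0,k0,k0,k0,k0,k0,k0,k0,k0,k0,k0,k0],[k0,k0,k0,k0,k0,k0,k0,k0,k0,k0,k0,k0]] k48 k5
    [[(k10,k15),(k11,k15),(k8,k17),(k1,k18)],[(k2,k17),(k3,k17),(k4,k17),(k5,k17),(k6,k17),(k7,k17),(k9,k17),(k0,
    k18)],[(k2,k16),(k3,k16),(k4,k16),(k5,k16),(k6,k16),(k7,k16),(k9,k16),(k0,k17)],[(k2,k16),(k3,k16),(k4,k16),(k5,
    k16),(k6,k16),(k7,k16),(k9,k16),(k0,k17)],[(k2,k16),(k3,k16),(k4,k16),(k5,k16),(k6,k16),(k7,k16),(k9,k16),(k0,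
    k17)],[(k2,k16),(k3,k16),(k4,k16),(k5,k16),(k6,k16),(k7,k16),(k9,k16),(k0,k17)],[(k2,k16),(k3,k16),(k4,k16),(k5,
    k16),(k6,k16),(k7,k16),(k9,k16),(k0,k17)],[(k2,k16),(k3,k16),(k4,k16),(k5,k16),(k6,k16),(k7,k16),(k9,k16),(k0,
    k17)],[(k2,k16),(k3,k16),(k4,k16),(k5,k16),(k6,k16),(k7,k16),(k9,k16),(k0,k17)],[(k10,k14),(k11,k14),(k8,k16),(k1,
    k17)],[(k10,k12),(k11,k12),(k8,k14),(k1,k15)],[(k10,k12),(k11,k12),(k8,k14),(k1,k15)]]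
    [[k1,k0,k0,k0,k1,k1],[k0,k0,k0,k0,k2,k1],[k0,k0,k0,k0,k0,k3]]
    [.ref k136 k0 [(z1,[z0,z1]),(z1,[y2,z2,z1]),(z1,[z1,y1,z0,z1]),(z1,[z0,y1,y1,y1,z1])],.ref k137 k0 [(z1,[z0,z1]),
    (z1,[y1,z0,z1]),(z1,[z1,z0,z0,z2]),(z1,[z0,y1,y1,y1,z1])],.ref k125 k0 [(z1,[z1,z3]),(z1,[z0,z0,z1]),(z1,[z0,z0,
    z0,z1]),(z1,[y2,y3,y3,y3,z3])]],
    .lp k0 [k120,k112,k112,k112,k126,k84] [k3,k3,k7,k7,k7,k7,k7,k7,k0,k0,k21,k21] k0 [[k0,k0,k14,k0,k0,k0,k0,k0,k0,k0,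
    k0,k0],[k14,k0,k0,k0,k0,k0,k0,k0,k0,k0,k0,k0],[k0,k0,k0,k0,k0,k0,k0,k0,k0,k0,k0,k0],[k0,k14,k0,k0,k0,k0,k14,k0,k0,
    k0,k0,k0],[k0,k0,k0,k0,k0,k0,k0,k0,k0,k0,k0,k0],[k0,k0,k0,k0,k0,k0,k0,k0,k0,k0,k0,k0],[k0,k0,k0,k0,k0,k0,k0,k0,k0,
    k0,k0,k0],[k0,k0,k14,k0,k0,k0,k0,k0,k0,k0,k0,k0],[k0,k0,k0,k0,k0,k0,k0,k0,k0,k0,k0,k0],[k0,k0,k0,k0,k0,k0,k0,k0,
    k0,k0,k0,k0],[k0,k0,k0,k0,k0,k0,k0,k0,k0,k0,k0,k0],[k0,k0,k0,k0,k0,k0,k0,k0,k0,k0,k0,k0]] (nat_lit 336) k5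
    [[(k10,k102),(k11,k102),(k1,k120),(k8,k123)],[(k5,k102),(k2,k116),(k3,k116),(k4,k116),(k6,k116),(k7,k116),(k9,
    k123),(k0,k134)],[(k3,k98),(k4,k112),(k5,k112),(k6,k112),(k7,k112),(k0,k116),(k9,k119),(k2,k126)],[(k2,k112),(k4,
    k112),(k5,k112),(k7,k112),(k0,k116),(k9,k119),(k3,k126),(k6,k126)],[(k0,k102),(k9,k105),(k2,k112),(k3,k112),(k4,
    k112),(k5,k112),(k6,k112),(k7,k112)],[(k2,k112),(k3,k112),(k4,k112),(k5,k112),(k6,k112),(k7,k112),(k0,k116),(k9,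
    k119)],[(k2,k112),(k3,k112),(k4,k112),(k5,k112),(k6,k112),(k7,k112),(k0,k116),(k9,k119)],[(k3,k112),(k4,k112),(k5,
    k112),(k6,k112),(k7,k112),(k0,k116),(k9,k119),(k2,k126)],[(k5,k105),(k2,k119),(k3,k119),(k4,k119),(k6,k119),(k7,
    k119),(k0,k123),(k9,k126)],[(k10,k105),(k11,k105),(k1,k123),(k8,k126)],[(k10,k84),(k11,k84),(k1,k102),(k8,k105)],
    [(k10,k84),(k11,k84),(k1,k102),(k8,k105)]]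
    [[k1,k0,k0,k0,k1,k1],[k0,k2,k1,k0,k0,k0],[k0,k0,k0,k0,k0,k3]]
    [.ref k80 k0 [(z1,[z0,z1]),(z1,[y2,z1,z1]),(z1,[z2,y1,z0,z2]),(z1,[z0,y1,y2,y2,z2])],.ref k7 k1 [(z1,[y1,z0,z2,
    z1]),(z1,[z0,y1,y2,y2,z2]),(z1,[y1,z0,z2,z4]),(z1,[z2,z0,y1,y2])],.ref k125 k0 [(z2,[y1,z3]),(z1,[z0,z0,z1]),(z1,
    [z0,z0,z0,z1]),(z2,[y1,y3,y6,y6,z6])]],
    .lp k0 [k74,k88,k80,k84,k70,k80] [k7,k7,k0,k0,k4,k4,k2,k2,k9,k9,k4,k4] k0 [[k0,k0,k0,k0,k0,k4,k0,k0,k0,k0,k0,k0],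
    [k0,k0,k4,k0,k0,k12,k12,k0,k0,k0,k0,k0],[k0,k0,k0,k0,k4,k0,k0,k16,k0,k0,k0,k0],[k4,k0,k0,k0,k4,k0,k0,k0,k0,k0,k0,
    k0],[k12,k4,k0,k0,k0,k0,k0,k0,k0,k0,k0,k0],[k0,k0,k4,k4,k0,k0,k0,k4,k0,k0,k0,k0],[k0,k0,k0,k16,k4,k0,k0,k0,k0,k0,
    k0,k0],[k12,k0,k0,k0,k0,k0,k0,k0,k0,k0,k0,k0],[k0,k0,k0,k0,k0,k0,k0,k0,k0,k0,k0,k12],[k0,k0,k0,k0,k0,k0,k0,k0,k0,
    k0,k0,k0],[k0,k0,k0,k0,k0,k0,k0,k0,k0,k12,k0,k0],[k0,k0,k0,k0,k0,k0,k0,k0,k0,k0,k0,k0]] (nat_lit 240) k5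
    [[(k8,k72),(k1,k74),(k10,k77),(k11,k89)],[(k9,k72),(k4,k73),(k0,k74),(k5,k77),(k3,k81),(k2,k85),(k6,k91),(k7,
    k91)],[(k9,k67),(k4,k72),(k5,k80),(k0,k81),(k6,k86),(k2,k88),(k3,k88),(k7,k90)],[(k6,k70),(k9,k79),(k7,k82),(k5,
    k84),(k0,k85),(k2,k88),(k3,k88),(k4,k88)],[(k0,k77),(k7,k78),(k3,k80),(k5,k80),(k6,k82),(k2,k84),(k4,k84),(k9,
    k91)],[(k3,k72),(k0,k73),(k9,k79),(k4,k80),(k6,k82),(k7,k82),(k5,k84),(k2,k88)],[(k9,k77),(k5,k78),(k6,k80),(k2,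
    k82),(k4,k82),(k7,k84),(k3,k90),(k0,k91)],[(k2,k70),(k9,k77),(k7,k80),(k4,k82),(k5,k82),(k6,k84),(k3,k86),(k0,
    k91)],[(k3,k67),(k9,k70),(k0,k72),(k6,k77),(k7,k77),(k2,k79),(k4,k79),(k5,k91)],[(k10,k63),(k8,k70),(k1,k72),(k11,
    k75)],[(k8,k75),(k10,k80),(k11,k80),(k1,k89)],[(k8,k63),(k1,k77),(k10,k80),(k11,k80)]]
    [[k2,k0,k1,k0,k0,k0],[k1,k1,k0,k0,k1,k0],[k1,k0,k1,k0,k1,k0],[k1,k0,k0,k0,k1,k1],[k0,k1,k1,k1,k0,k0],[k0,k1,k0,k0,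
    k2,k0],[k0,k0,k0,k1,k2,k0],[k0,k0,k0,k0,k2,k1]]
    [.ref k117 k0 [(z1,[z1,z1,z1,y1]),(z1,[z0,z0,z1]),(z1,[z1,y2,y2,z2])],.ref k131 k0 [(z1,[z1,z0,y1]),(z1,[z0,z0,
    z1]),(z1,[z1,y1,y2,z1])],.ref k134 k0 [(z1,[z1,z1,z1,y1]),(z1,[z0,z0,z1]),(z1,[z1,y1,y1,z1])],.ref k135 k0 [(z1,
    [z1]),(z1,[z0,z0,z1]),(z1,[z1,y1,y1,z1])],.ref k135 k0 [(z1,[y1,z0,z0,z1]),(z1,[z0,z0,z1]),(z1,[y1,y1,y1,z2])],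
    .ref k138 k1 [(z1,[z1,z0,y1]),(z1,[z0,z1]),(z1,[z0,y1,y1,z1])],.ref k83 k0 [(z2,[y1,z1]),(z1,[z0,z0,z1]),(z2,[y1,
    y1,y2,z2])],.ref k139 k1 [(z1,[z1]),(z1,[z0,z1]),(z1,[z0,y1,y1,z1])]],
    .lp k0 [k16,k16,k16,k16,k18,k12] [k1,k1,k1,k1,k1,k1,k1,k1,k0,k0,k3,k3] k0 [[k0,k0,k0,k0,k0,k0,k0,k0,k0,k0,k0,k0],
    [k0,k0,k0,k0,k0,k0,k0,k0,k0,k0,k0,k0],[k0,k0,k0,k0,k0,k0,k0,k0,k0,k0,k0,k0],[k0,k0,k0,k0,k0,k0,k0,k0,k0,k0,k0,k0],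
    [k0,k0,k0,k0,k0,k0,k0,k0,k0,k0,k0,k0],[k0,k0,k0,k0,k0,k0,k0,k0,k0,k0,k0,k0],[k0,k0,k0,k0,k0,k0,k0,k0,k0,k0,k0,k0],
    [k0,k0,k0,k0,k0,k0,k0,k0,k0,k0,k0,k0],[k0,k0,k0,k0,k0,k0,k0,k0,k0,k0,k0,k0],[k0,k0,k0,k0,k0,k0,k0,k0,k0,k0,k0,k0],
    [k0,k0,k0,k0,k0,k0,k0,k0,k0,k0,k0,k0],[k0,k0,k0,k0,k0,k0,k0,k0,k0,k0,k0,k0]] k48 k5
    [[(k10,k14),(k11,k14),(k1,k16),(k8,k17)],[(k0,k16),(k2,k16),(k3,k16),(k4,k16),(k5,k16),(k6,k16),(k7,k16),(k9,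
    k17)],[(k0,k16),(k2,k16),(k3,k16),(k4,k16),(k5,k16),(k6,k16),(k7,k16),(k9,k17)],[(k0,k16),(k2,k16),(k3,k16),(k4,
    k16),(k5,k16),(k6,k16),(k7,k16),(k9,k17)],[(k0,k16),(k2,k16),(k3,k16),(k4,k16),(k5,k16),(k6,k16),(k7,k16),(k9,
    k17)],[(k0,k16),(k2,k16),(k3,k16),(k4,k16),(k5,k16),(k6,k16),(k7,k16),(k9,k17)],[(k0,k16),(k2,k16),(k3,k16),(k4,
    k16),(k5,k16),(k6,k16),(k7,k16),(k9,k17)],[(k0,k16),(k2,k16),(k3,k16),(k4,k16),(k5,k16),(k6,k16),(k7,k16),(k9,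
    k17)],[(k0,k17),(k2,k17),(k3,k17),(k4,k17),(k5,k17),(k6,k17),(k7,k17),(k9,k18)],[(k10,k15),(k11,k15),(k1,k17),(k8,
    k18)],[(k10,k12),(k11,k12),(k1,k14),(k8,k15)],[(k10,k12),(k11,k12),(k1,k14),(k8,k15)]]
    [[k2,k0,k0,k0,k0,k1],[k1,k0,k0,k0,k1,k1],[k0,k0,k0,k0,k0,k3]]
    [.ref k3 k0 [(z2,[z1,z1]),(z4,[y10,z5,z3]),(z1,[z2,y1,z0,z3]),(z2,[y2,z1,z0,z0,z3]),(z4,[y4,y1,y3,y12,y6,z12])],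
    .ref k3 k0 [(z4,[z4,z3,z1,z4,z2,y4]),(z2,[y10,z0,y1,y10,y5,z10]),(z1,[z4,z0,z1,z7,z2,y4]),(z2,[y4,z0,y1,y4,z1,
    z4]),(z4,[y8,y3,y5,y20,y10,z20])],.ref k3 k0 [(z4,[z1,z3]),(z4,[y5,z0,z3]),(z1,[z1,z0,z0,z3]),(z2,[y1,z0,z0,z0,
    z3]),(z4,[y2,y3,y3,y12,y6,z12])]],
    .lp k0 [k120,k112,k112,k112,k126,k84] [k3,k3,k7,k7,k7,k7,k7,k7,k0,k0,k21,k21] k0 [[k0,k0,k14,k0,k0,k0,k0,k0,k0,k0,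
    k0,k0],[k14,k0,k0,k0,k0,k0,k0,k0,k0,k0,k0,k0],[k0,k0,k0,k0,k0,k0,k0,k0,k0,k0,k0,k0],[k0,k14,k0,k0,k0,k0,k14,k0,k0,
    k0,k0,k0],[k0,k0,k0,k0,k0,k0,k0,k0,k0,k0,k0,k0],[k0,k0,k0,k0,k0,k0,k0,k0,k0,k0,k0,k0],[k0,k0,k0,k0,k0,k0,k0,k0,k0,
    k0,k0,k0],[k0,k0,k14,k0,k0,k0,k0,k0,k0,k0,k0,k0],[k0,k0,k0,k0,k0,k0,k0,k0,k0,k0,k0,k0],[k0,k0,k0,k0,k0,k0,k0,k0,
    k0,k0,k0,k0],[k0,k0,k0,k0,k0,k0,k0,k0,k0,k0,k0,k0],[k0,k0,k0,k0,k0,k0,k0,k0,k0,k0,k0,k0]] (nat_lit 336) k5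
    [[(k10,k102),(k11,k102),(k1,k120),(k8,k123)],[(k5,k102),(k2,k116),(k3,k116),(k4,k116),(k6,k116),(k7,k116),(k9,
    k123),(k0,k134)],[(k3,k98),(k4,k112),(k5,k112),(k6,k112),(k7,k112),(k0,k116),(k9,k119),(k2,k126)],[(k2,k112),(k4,
    k112),(k5,k112),(k7,k112),(k0,k116),(k9,k119),(k3,k126),(k6,k126)],[(k0,k102),(k9,k105),(k2,k112),(k3,k112),(k4,
    k112),(k5,k112),(k6,k112),(k7,k112)],[(k2,k112),(k3,k112),(k4,k112),(k5,k112),(k6,k112),(k7,k112),(k0,k116),(k9,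
    k119)],[(k2,k112),(k3,k112),(k4,k112),(k5,k112),(k6,k112),(k7,k112),(k0,k116),(k9,k119)],[(k3,k112),(k4,k112),(k5,
    k112),(k6,k112),(k7,k112),(k0,k116),(k9,k119),(k2,k126)],[(k5,k105),(k2,k119),(k3,k119),(k4,k119),(k6,k119),(k7,
    k119),(k0,k123),(k9,k126)],[(k10,k105),(k11,k105),(k1,k123),(k8,k126)],[(k10,k84),(k11,k84),(k1,k102),(k8,k105)],
    [(k10,k84),(k11,k84),(k1,k102),(k8,k105)]]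
    [[k1,k0,k0,k0,k1,k1],[k0,k2,k1,k0,k0,k0],[k0,k0,k0,k0,k0,k3]]
    [.ref k2 k0 [(z1,[z0,z1]),(z1,[y2,z1,z1]),(z1,[z0,z0,z0,z1]),(z1,[z1,y1,y1,y1,z1])],.ref k141 k1 [(z1,[y1,z0,z2,
    z1]),(z1,[y1,y2,y2,y3,z4]),(z1,[z0,z0,z0,z1]),(z1,[z1,z0,z0,y1])],.ref k27 k0 [(z2,[y1,z3]),(z1,[z0,z0,z1]),(z1,
    [z1,z0,z0,z3]),(z2,[y1,y1,y2,y2,z2])]],
    .lp k0 [(nat_lit 208),(nat_lit 232),(nat_lit 250),(nat_lit 262),(nat_lit 232),(nat_lit 244)] [k27,k27,k15,k15,k6,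
    k6,k0,k0,k15,k15,k7,k11] k0 [[k0,k0,k36,k24,k0,k30,k0,k0,k0,k0,k0,k0],[k0,k0,k0,k0,k0,k18,k24,k36,k0,k0,k0,k0],
    [k0,k24,k0,k0,k6,k0,k0,k0,k0,k0,k0,k0],[k0,k36,k0,k0,k6,k0,k0,k36,k0,k0,k0,k0],[k18,k30,k0,k0,k0,k0,k6,k0,k0,k0,
    k0,k0],[k0,k0,k6,k6,k0,k0,k0,k0,k0,k0,k0,k0],[k36,k0,k36,k0,k0,k0,k0,k0,k0,k0,k0,k0],[k24,k0,k0,k0,k0,k6,k0,k0,k0,
    k0,k0,k0],[k0,k0,k0,k0,k0,k0,k0,k0,k0,k0,k0,k60],[k0,k0,k0,k0,k0,k0,k0,k0,k12,k0,k0,k0],[k0,k0,k0,k0,k0,k0,k0,k0,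
    k0,k60,k0,k0],[k0,k0,k0,k0,k0,k0,k0,k0,k0,k0,k0,k0]] (nat_lit 720) k5
    [[(k1,(nat_lit 208)),(k8,(nat_lit 220)),(k10,(nat_lit 228)),(k11,(nat_lit 284))],[(k5,k193),(k2,k196),(k4,k199),
    (k0,(nat_lit 208)),(k3,(nat_lit 220)),(k7,(nat_lit 253)),(k9,(nat_lit 256)),(k6,(nat_lit 259))],[(k9,
    (nat_lit 208)),(k6,(nat_lit 211)),(k0,(nat_lit 220)),(k4,(nat_lit 223)),(k3,(nat_lit 232)),(k5,(nat_lit 265)),(k2,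
    (nat_lit 268)),(k7,(nat_lit 277))],[(k0,k196),(k2,(nat_lit 232)),(k5,(nat_lit 241)),(k7,(nat_lit 241)),(k4,
    (nat_lit 247)),(k6,(nat_lit 247)),(k3,(nat_lit 268)),(k9,(nat_lit 268))],[(k0,k193),(k6,(nat_lit 220)),(k2,
    (nat_lit 241)),(k9,(nat_lit 241)),(k5,(nat_lit 250)),(k7,(nat_lit 250)),(k4,(nat_lit 256)),(k3,(nat_lit 265))],
    [(k0,k199),(k3,(nat_lit 223)),(k9,(nat_lit 235)),(k2,(nat_lit 247)),(k4,(nat_lit 250)),(k5,(nat_lit 256)),(k6,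
    (nat_lit 256)),(k7,(nat_lit 256))],[(k2,(nat_lit 241)),(k9,(nat_lit 247)),(k5,(nat_lit 250)),(k0,(nat_lit 253)),
    (k4,(nat_lit 256)),(k7,(nat_lit 262)),(k6,(nat_lit 268)),(k3,(nat_lit 277))],[(k3,(nat_lit 211)),(k5,
    (nat_lit 220)),(k2,(nat_lit 247)),(k9,(nat_lit 247)),(k4,(nat_lit 256)),(k0,(nat_lit 259)),(k6,(nat_lit 262)),(k7,
    (nat_lit 268))],[(k3,(nat_lit 208)),(k9,(nat_lit 232)),(k4,(nat_lit 235)),(k5,(nat_lit 241)),(k6,(nat_lit 247)),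
    (k7,(nat_lit 247)),(k0,(nat_lit 256)),(k2,(nat_lit 268))],[(k10,k180),(k1,(nat_lit 220)),(k11,(nat_lit 236)),(k8,
    (nat_lit 244))],[(k11,(nat_lit 228)),(k8,(nat_lit 236)),(k10,(nat_lit 244)),(k1,(nat_lit 284))],[(k8,k180),(k1,
    (nat_lit 228)),(k11,(nat_lit 244)),(k10,(nat_lit 248))]]
    [[k2,k1,k0,k0,k0,k0],[k2,k0,k1,k0,k0,k0],[k1,k1,k0,k0,k1,k0],[k1,k0,k1,k0,k1,k0],[k0,k1,k1,k1,k0,k0],[k0,k0,k0,k0,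
    k2,k1]]
    [.ref k88 k0 [(z1,[z0,z1]),(z1,[z1,y1]),(z2,[y1,z0,y1,z2])],.ref k142 k0 [(z1,[z0,z1]),(z1,[z0,z0,z1]),(z1,[z1,
    y1])],.ref k88 k0 [(z1,[z0,z1]),(z1,[z2,y1,y1]),(z1,[y1,z0,z0,z1])],.ref k121 k0 [(z1,[z0,z1]),(z1,[z0,z0,z1]),
    (z1,[z2,y1])],.ref k88 k0 [(z1,[z0,z1]),(z1,[z2,z1,z1,y2]),(z1,[y1,y1,y1,z2])],.ref k88 k0 [(z1,[z0,z1]),(z1,[y1,
    z0,z1]),(z2,[z1,y1,y2,z2])]]]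

theorem hB6_104_11 : blkB [0, 0, 0, 0, 1, 1] [] sp6 hS6_104 (pcls (n := 6) [0, 0, 0, 0, 1, 1]) hD6_104 181 11 hN6_104_11 = true := by
  decide +kernel

/-- nodes 144 to 155 -/
noncomputable def hN6_104_12 : List HM :=
  [.lp k0 [k146,k176,k158,k170,k146,k160] [k15,k15,k0,k0,k9,k9,k3,k3,k15,k15,k8,k8] k0 [[k0,k0,k0,k0,k0,k0,k0,k0,k0,
    k0,k0,k0],[k0,k0,k12,k0,k0,k18,k0,k0,k0,k0,k0,k0],[k0,k0,k0,k0,k6,k0,k0,k36,k0,k0,k0,k0],[k12,k0,k0,k0,k6,k0,k0,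
    k0,k0,k0,k0,k0],[k18,k0,k0,k0,k0,k0,k6,k18,k0,k0,k0,k0],[k0,k0,k6,k6,k0,k0,k0,k0,k0,k0,k0,k0],[k0,k0,k0,k36,k0,
    k18,k0,k0,k0,k0,k0,k0],[k0,k0,k0,k0,k0,k6,k0,k0,k0,k0,k0,k0],[k0,k0,k0,k0,k0,k0,k0,k0,k0,k0,k0,k28],[k0,k0,k0,k0,
    k0,k0,k0,k0,k0,k0,k0,k0],[k0,k0,k0,k0,k0,k0,k0,k0,k0,k28,k0,k0],[k0,k0,k0,k0,k0,k0,k0,k0,k0,k0,k0,
    k0]] (nat_lit 480) k5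
    [[(k1,k146),(k8,k146),(k10,k153),(k11,k181)],[(k0,k146),(k9,k146),(k4,k152),(k5,k152),(k6,k158),(k3,k161),(k2,
    k173),(k7,k176)],[(k4,k149),(k5,k155),(k0,k161),(k9,k161),(k6,k173),(k7,k173),(k2,k176),(k3,k176)],[(k6,k137),(k9,
    k161),(k5,k167),(k7,k167),(k0,k173),(k4,k173),(k2,k176),(k3,k176)],[(k0,k152),(k3,k155),(k5,k158),(k7,k158),(k4,
    k164),(k6,k164),(k2,k167),(k9,k188)],[(k6,k146),(k9,k146),(k3,k149),(k0,k152),(k4,k158),(k5,k164),(k7,k164),(k2,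
    k173)],[(k5,k158),(k4,k164),(k2,k167),(k7,k170),(k3,k173),(k0,k176),(k6,k176),(k9,k176)],[(k2,k137),(k4,k146),(k0,
    k158),(k9,k158),(k5,k164),(k6,k170),(k3,k173),(k7,k176)],[(k0,k146),(k4,k146),(k9,k146),(k6,k158),(k2,k161),(k3,
    k161),(k7,k176),(k5,k188)],[(k10,k125),(k1,k146),(k8,k146),(k11,k153)],[(k8,k153),(k10,k160),(k11,k160),(k1,
    k181)],[(k8,k125),(k1,k153),(k10,k160),(k11,k160)]]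
    [[k2,k0,k1,k0,k0,k0],[k1,k1,k0,k0,k1,k0],[k1,k0,k1,k0,k1,k0],[k1,k0,k0,k0,k1,k1],[k0,k1,k1,k1,k0,k0],[k0,k1,k0,k0,
    k2,k0],[k0,k0,k2,k1,k0,k0],[k0,k0,k0,k0,k2,k1]]
    [.ref k118 k0 [(z1,[z0,z1]),(z1,[y2,z1,z2])],.ref k69 k0 [(z1,[z0,z1]),(z1,[z2,y1])],.ref k122 k0 [(z1,[z0,z1]),
    (z1,[y1,z0,z1])],.ref k123 k1 [(z1,[z1]),(z1,[z0,z1])],.ref k123 k1 [(z1,[y1,z0,z1]),(z1,[z0,z1])],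
    .ref k128 k0 [(z1,[z0,z1]),(z1,[z1])],.ref k140 k0 [(z1,[z0,z1]),(z2,[y1,y1,z2])],.ref k143 k1 [(z1,[z1]),(z1,[z0,
    z1])]],
    .lp k0 [k16,k16,k16,k16,k18,k12] [k1,k1,k1,k1,k1,k1,k1,k1,k0,k0,k3,k3] k0 [[k0,k0,k0,k0,k0,k0,k0,k0,k0,k0,k0,k0],
    [k0,k0,k0,k0,k0,k0,k0,k0,k0,k0,k0,k0],[k0,k0,k0,k0,k0,k0,k0,k0,k0,k0,k0,k0],[k0,k0,k0,k0,k0,k0,k0,k0,k0,k0,k0,k0],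
    [k0,k0,k0,k0,k0,k0,k0,k0,k0,k0,k0,k0],[k0,k0,k0,k0,k0,k0,k0,k0,k0,k0,k0,k0],[k0,k0,k0,k0,k0,k0,k0,k0,k0,k0,k0,k0],
    [k0,k0,k0,k0,k0,k0,k0,k0,k0,k0,k0,k0],[k0,k0,k0,k0,k0,k0,k0,k0,k0,k0,k0,k0],[k0,k0,k0,k0,k0,k0,k0,k0,k0,k0,k0,k0],
    [k0,k0,k0,k0,k0,k0,k0,k0,k0,k0,k0,k0],[k0,k0,k0,k0,k0,k0,k0,k0,k0,k0,k0,k0]] k48 k5
    [[(k10,k14),(k11,k14),(k1,k16),(k8,k17)],[(k0,k16),(k2,k16),(k3,k16),(k4,k16),(k5,k16),(k6,k16),(k7,k16),(k9,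
    k17)],[(k0,k16),(k2,k16),(k3,k16),(k4,k16),(k5,k16),(k6,k16),(k7,k16),(k9,k17)],[(k0,k16),(k2,k16),(k3,k16),(k4,
    k16),(k5,k16),(k6,k16),(k7,k16),(k9,k17)],[(k0,k16),(k2,k16),(k3,k16),(k4,k16),(k5,k16),(k6,k16),(k7,k16),(k9,
    k17)],[(k0,k16),(k2,k16),(k3,k16),(k4,k16),(k5,k16),(k6,k16),(k7,k16),(k9,k17)],[(k0,k16),(k2,k16),(k3,k16),(k4,
    k16),(k5,k16),(k6,k16),(k7,k16),(k9,k17)],[(k0,k16),(k2,k16),(k3,k16),(k4,k16),(k5,k16),(k6,k16),(k7,k16),(k9,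
    k17)],[(k0,k17),(k2,k17),(k3,k17),(k4,k17),(k5,k17),(k6,k17),(k7,k17),(k9,k18)],[(k10,k15),(k11,k15),(k1,k17),(k8,
    k18)],[(k10,k12),(k11,k12),(k1,k14),(k8,k15)],[(k10,k12),(k11,k12),(k1,k14),(k8,k15)]]
    [[k2,k0,k0,k0,k0,k1],[k1,k0,k0,k0,k1,k1],[k0,k0,k0,k0,k0,k3]]
    [.ref k3 k0 [(z4,[z1,z1]),(z5,[z5,y1,z3]),(z10,[y5,z1,z0,z6]),(z5,[y10,z2,z0,z0,z3]),(z20,[y25,y1,y12,y12,y12,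
    z60])],.ref k3 k0 [(z10,[z5,z3,z1,z1,z1,y5]),(z5,[z10,z0,z5,z2,z2,y10]),(z5,[y5,z0,y1,z2,y1,z5]),(z5,[y20,z0,y4,
    y4,y1,z20]),(z10,[y25,y3,y11,y11,y11,z55])],.ref k3 k0 [(z10,[z1,z3]),(z5,[z2,z0,z3]),(z5,[y1,z0,z0,z3]),(z5,[y4,
    z0,z0,z0,z3]),(z10,[y5,y3,y6,y6,y6,z30])]],
    .lp k0 [k16,k16,k18,k16,k12,k16] [k1,k1,k1,k1,k0,k0,k1,k1,k3,k3,k1,k1] k0 [[k0,k0,k0,k0,k2,k2,k0,k4,k0,k0,k0,k0],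
    [k0,k0,k0,k0,k0,k0,k0,k0,k0,k0,k0,k0],[k0,k0,k0,k0,k0,k0,k0,k0,k0,k0,k0,k0],[k0,k0,k0,k0,k0,k0,k0,k4,k0,k0,k0,k0],
    [k0,k2,k0,k0,k0,k0,k2,k0,k0,k0,k0,k0],[k0,k2,k0,k0,k0,k0,k2,k0,k0,k0,k0,k0],[k0,k4,k4,k0,k0,k0,k0,k0,k0,k0,k0,k0],
    [k0,k0,k0,k0,k2,k2,k0,k0,k0,k0,k0,k0],[k0,k0,k0,k0,k0,k0,k0,k0,k0,k0,k0,k0],[k0,k0,k0,k0,k0,k0,k0,k0,k0,k0,k0,k0],
    [k0,k0,k0,k0,k0,k0,k0,k0,k0,k0,k0,k0],[k0,k0,k0,k0,k0,k0,k0,k0,k0,k0,k0,k0]] k48 k5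
    [[(k8,k14),(k1,k16),(k10,k16),(k11,k16)],[(k6,k12),(k7,k14),(k9,k14),(k4,k15),(k0,k16),(k2,k16),(k3,k16),(k5,
    k17)],[(k0,k16),(k2,k16),(k3,k16),(k6,k16),(k5,k17),(k7,k18),(k9,k18),(k4,k19)],[(k0,k16),(k2,k16),(k3,k16),(k6,
    k16),(k7,k16),(k4,k17),(k5,k17),(k9,k18)],[(k6,k13),(k9,k15),(k0,k17),(k2,k17),(k3,k17),(k7,k17),(k4,k18),(k5,
    k18)],[(k9,k13),(k0,k15),(k2,k17),(k7,k17),(k4,k18),(k5,k18),(k3,k19),(k6,k19)],[(k9,k12),(k0,k14),(k2,k16),(k7,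
    k16),(k4,k17),(k5,k17),(k3,k18),(k6,k18)],[(k0,k12),(k5,k13),(k9,k14),(k2,k16),(k3,k16),(k6,k16),(k7,k18),(k4,
    k19)],[(k7,k12),(k9,k12),(k4,k13),(k0,k14),(k6,k14),(k5,k15),(k2,k18),(k3,k18)],[(k8,k12),(k1,k14),(k10,k14),(k11,
    k14)],[(k8,k14),(k1,k16),(k10,k16),(k11,k16)],[(k8,k14),(k1,k16),(k10,k16),(k11,k16)]]
    [[k2,k0,k0,k1,k0,k0],[k1,k0,k1,k0,k1,k0],[k1,k0,k0,k1,k1,k0],[k1,k0,k0,k0,k1,k1],[k0,k0,k1,k0,k2,k0],[k0,k0,k0,k1,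
    k2,k0],[k0,k0,k0,k0,k2,k1]]
    [.ref k3 k0 [(z20,[z15,z6,z0,z0,y1]),(z5,[z15,y6,z3,z0,y1]),(z10,[y15,z6,z0,z6,z1]),(z10,[z15,y6,z0,z0,z1]),(z4,
    [y15,z6,z0,z0,z1])],.ref k3 k0 [(z10,[y5,z7,z0,z1]),(z5,[y10,z2,z3,z2]),(z5,[z5,y1,z0,z2]),(z5,[y5,z1,z0,z1,z1]),
    (z2,[z5,y1,z0,y1])],.ref k3 k0 [(z10,[y15,z9,z0,z0,z1]),(z5,[y30,z6,z3,z0,z2]),(z5,[z15,y3,z0,z3,y1]),(z5,[y15,z3,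
    z0,z0,z2]),(z2,[z15,y3,z0,z0,y1])],.ref k3 k0 [(z20,[y15,z12,y3,y3,y1,z15]),(z5,[y15,z0,z0,y3,y1,z15]),(z10,[z15,
    z0,z3,z9,z1,y15]),(z10,[y15,z0,y3,y3,z1,z15]),(z4,[z15,z0,z3,z3,z1,y15])],.ref k3 k0 [(z20,[y5,z12,z0,z1]),(z5,
    [y5,z0,z3,z1]),(z2,[z1,z0,z0,z1]),(z10,[y5,z0,z0,z1,z2]),(z4,[z5,z0,z0,y1])],.ref k3 k0 [(z40,[y15,z24,z0,z0,z1]),
    (z10,[y15,z0,z6,z0,z1]),(z20,[z15,z0,z0,z12,y1]),(z4,[y3,z0,z0,z0,z1]),(z8,[z15,z0,z0,z0,y1])],.ref k3 k0 [(z50,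
    [y15,z27,y3,y3,y1,z15]),(z25,[y30,y6,z9,y6,y2,z30]),(z25,[z15,z3,z3,z18,z1,y15]),(z25,[y15,y3,y3,y3,z4,z15]),(z10,
    [z15,z3,z3,z3,z1,y15])]],
    .lp k0 [k18,k16,k16,k16,k16,k12] [k0,k0,k1,k1,k1,k1,k1,k1,k1,k1,k3,k3] k0 [[k0,k0,k0,k0,k0,k0,k0,k0,k0,k0,k0,k0],
    [k0,k0,k0,k0,k0,k0,k0,k0,k0,k0,k0,k0],[k0,k0,k0,k0,k0,k0,k0,k0,k0,k0,k0,k0],[k0,k0,k0,k0,k0,k0,k0,k0,k0,k0,k0,k0],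
    [k0,k0,k0,k0,k0,k0,k0,k0,k0,k0,k0,k0],[k0,k0,k0,k0,k0,k0,k0,k0,k0,k0,k0,k0],[k0,k0,k0,k0,k0,k0,k0,k0,k0,k0,k0,k0],
    [k0,k0,k0,k0,k0,k0,k0,k0,k0,k0,k0,k0],[k0,k0,k0,k0,k0,k0,k0,k0,k0,k0,k0,k0],[k0,k0,k0,k0,k0,k0,k0,k0,k0,k0,k0,k0],
    [k0,k0,k0,k0,k0,k0,k0,k0,k0,k0,k0,k0],[k0,k0,k0,k0,k0,k0,k0,k0,k0,k0,k0,k0]] k48 k5
    [[(k10,k15),(k11,k15),(k8,k17),(k1,k18)],[(k2,k17),(k3,k17),(k4,k17),(k5,k17),(k6,k17),(k7,k17),(k9,k17),(k0,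
    k18)],[(k2,k16),(k3,k16),(k4,k16),(k5,k16),(k6,k16),(k7,k16),(k9,k16),(k0,k17)],[(k2,k16),(k3,k16),(k4,k16),(k5,
    k16),(k6,k16),(k7,k16),(k9,k16),(k0,k17)],[(k2,k16),(k3,k16),(k4,k16),(k5,k16),(k6,k16),(k7,k16),(k9,k16),(k0,
    k17)],[(k2,k16),(k3,k16),(k4,k16),(k5,k16),(k6,k16),(k7,k16),(k9,k16),(k0,k17)],[(k2,k16),(k3,k16),(k4,k16),(k5,
    k16),(k6,k16),(k7,k16),(k9,k16),(k0,k17)],[(k2,k16),(k3,k16),(k4,k16),(k5,k16),(k6,k16),(k7,k16),(k9,k16),(k0,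
    k17)],[(k2,k16),(k3,k16),(k4,k16),(k5,k16),(k6,k16),(k7,k16),(k9,k16),(k0,k17)],[(k10,k14),(k11,k14),(k8,k16),(k1,
    k17)],[(k10,k12),(k11,k12),(k8,k14),(k1,k15)],[(k10,k12),(k11,k12),(k8,k14),(k1,k15)]]
    [[k1,k0,k0,k0,k1,k1],[k0,k0,k0,k0,k2,k1],[k0,k0,k0,k0,k0,k3]]
    [.ref k77 k0 [(z1,[y1,z1]),(z5,[y5,z1,z1]),(z5,[z5,y1,z0,z2]),(z5,[y5,y1,y2,y2,z10])],.ref k145 k0 [(z1,[y1,z2]),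
    (z1,[y2,z0,z1]),(z1,[z1,z0,z0,z1]),(z1,[y1,y1,y1,y1,z5])],.ref k146 k0 [(z1,[z0,z1]),(z1,[z0,z0,z1]),(z1,[z0,z0,
    z0,z1]),(z1,[y5,y3,y3,y3,z15])]],
    .lp k0 [k18,k16,k16,k16,k16,k12] [k0,k0,k1,k1,k1,k1,k1,k1,k1,k1,k3,k3] k0 [[k0,k0,k0,k0,k0,k0,k0,k0,k0,k0,k0,k0],
    [k0,k0,k0,k0,k0,k0,k0,k0,k0,k0,k0,k0],[k0,k0,k0,k0,k0,k0,k0,k0,k0,k0,k0,k0],[k0,k0,k0,k0,k0,k0,k0,k0,k0,k0,k0,k0],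
    [k0,k0,k0,k0,k0,k0,k0,k0,k0,k0,k0,k0],[k0,k0,k0,k0,k0,k0,k0,k0,k0,k0,k0,k0],[k0,k0,k0,k0,k0,k0,k0,k0,k0,k0,k0,k0],
    [k0,k0,k0,k0,k0,k0,k0,k0,k0,k0,k0,k0],[k0,k0,k0,k0,k0,k0,k0,k0,k0,k0,k0,k0],[k0,k0,k0,k0,k0,k0,k0,k0,k0,k0,k0,k0],
    [k0,k0,k0,k0,k0,k0,k0,k0,k0,k0,k0,k0],[k0,k0,k0,k0,k0,k0,k0,k0,k0,k0,k0,k0]] k48 k5
    [[(k10,k15),(k11,k15),(k8,k17),(k1,k18)],[(k2,k17),(k3,k17),(k4,k17),(k5,k17),(k6,k17),(k7,k17),(k9,k17),(k0,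
    k18)],[(k2,k16),(k3,k16),(k4,k16),(k5,k16),(k6,k16),(k7,k16),(k9,k16),(k0,k17)],[(k2,k16),(k3,k16),(k4,k16),(k5,
    k16),(k6,k16),(k7,k16),(k9,k16),(k0,k17)],[(k2,k16),(k3,k16),(k4,k16),(k5,k16),(k6,k16),(k7,k16),(k9,k16),(k0,
    k17)],[(k2,k16),(k3,k16),(k4,k16),(k5,k16),(k6,k16),(k7,k16),(k9,k16),(k0,k17)],[(k2,k16),(k3,k16),(k4,k16),(k5,
    k16),(k6,k16),(k7,k16),(k9,k16),(k0,k17)],[(k2,k16),(k3,k16),(k4,k16),(k5,k16),(k6,k16),(k7,k16),(k9,k16),(k0,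
    k17)],[(k2,k16),(k3,k16),(k4,k16),(k5,k16),(k6,k16),(k7,k16),(k9,k16),(k0,k17)],[(k10,k14),(k11,k14),(k8,k16),(k1,
    k17)],[(k10,k12),(k11,k12),(k8,k14),(k1,k15)],[(k10,k12),(k11,k12),(k8,k14),(k1,k15)]]
    [[k1,k0,k0,k0,k1,k1],[k0,k0,k0,k0,k2,k1],[k0,k0,k0,k0,k0,k3]]
    [.ref k3 k0 [(z1,[z0,z1]),(z1,[z0,z0,z1]),(z1,[z0,z0,z0,z1]),(z1,[y3,z0,y1,y1,z0,z3]),(z1,[z0,y1,y1,y1,y1,z3])],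
    .ref k3 k0 [(z1,[z0,z1]),(z1,[z0,z0,z1]),(z1,[z0,z0,z0,z1]),(z1,[y3,y2,y2,y2,y1,z6]),(z1,[z0,y1,y1,y1,y1,z3])],
    .ref k3 k0 [(z1,[z0,z1]),(z1,[z0,z0,z1]),(z1,[z0,z0,z0,z1]),(z1,[y1,z0,z0,z0,z1]),(z1,[z0,y1,y1,y1,y1,z3])]],
    .lp k0 [k120,k112,k112,k112,k126,k84] [k3,k3,k7,k7,k7,k7,k7,k7,k0,k0,k21,k21] k0 [[k0,k0,k14,k0,k0,k0,k0,k0,k0,k0,
    k0,k0],[k14,k0,k0,k0,k0,k0,k0,k0,k0,k0,k0,k0],[k0,k0,k0,k0,k0,k0,k0,k0,k0,k0,k0,k0],[k0,k14,k0,k0,k0,k0,k14,k0,k0,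
    k0,k0,k0],[k0,k0,k0,k0,k0,k0,k0,k0,k0,k0,k0,k0],[k0,k0,k0,k0,k0,k0,k0,k0,k0,k0,k0,k0],[k0,k0,k0,k0,k0,k0,k0,k0,k0,
    k0,k0,k0],[k0,k0,k14,k0,k0,k0,k0,k0,k0,k0,k0,k0],[k0,k0,k0,k0,k0,k0,k0,k0,k0,k0,k0,k0],[k0,k0,k0,k0,k0,k0,k0,k0,
    k0,k0,k0,k0],[k0,k0,k0,k0,k0,k0,k0,k0,k0,k0,k0,k0],[k0,k0,k0,k0,k0,k0,k0,k0,k0,k0,k0,k0]] (nat_lit 336) k5
    [[(k10,k102),(k11,k102),(k1,k120),(k8,k123)],[(k5,k102),(k2,k116),(k3,k116),(k4,k116),(k6,k116),(k7,k116),(k9,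
    k123),(k0,k134)],[(k3,k98),(k4,k112),(k5,k112),(k6,k112),(k7,k112),(k0,k116),(k9,k119),(k2,k126)],[(k2,k112),(k4,
    k112),(k5,k112),(k7,k112),(k0,k116),(k9,k119),(k3,k126),(k6,k126)],[(k0,k102),(k9,k105),(k2,k112),(k3,k112),(k4,
    k112),(k5,k112),(k6,k112),(k7,k112)],[(k2,k112),(k3,k112),(k4,k112),(k5,k112),(k6,k112),(k7,k112),(k0,k116),(k9,
    k119)],[(k2,k112),(k3,k112),(k4,k112),(k5,k112),(k6,k112),(k7,k112),(k0,k116),(k9,k119)],[(k3,k112),(k4,k112),(k5,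
    k112),(k6,k112),(k7,k112),(k0,k116),(k9,k119),(k2,k126)],[(k5,k105),(k2,k119),(k3,k119),(k4,k119),(k6,k119),(k7,
    k119),(k0,k123),(k9,k126)],[(k10,k105),(k11,k105),(k1,k123),(k8,k126)],[(k10,k84),(k11,k84),(k1,k102),(k8,k105)],
    [(k10,k84),(k11,k84),(k1,k102),(k8,k105)]]
    [[k1,k0,k0,k0,k1,k1],[k0,k2,k1,k0,k0,k0],[k0,k0,k0,k0,k0,k3]]
    [.ref k2 k1 [(z1,[z1,y1]),(z1,[y2,z1,y1,y1,z1]),(z1,[y1,z1,z0,z1]),(z1,[z2,y2,z1])],.ref k148 k0 [(z2,[z1,z6,y2,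
    y1]),(z1,[z2,z0,y1,y2]),(z1,[y1,z0,z2,z4]),(z1,[y2,y3,z1,y1,z3])],.ref k32 k0 [(z1,[z0,z1]),(z1,[z0,z0,z1]),(z1,
    [z0,z0,z0,z1]),(z1,[y1,y3,y3,y3,z3])]],
    .lp k0 [k16,k16,k16,k16,k18,k12] [k1,k1,k1,k1,k1,k1,k1,k1,k0,k0,k3,k3] k0 [[k0,k0,k0,k0,k0,k0,k0,k0,k0,k0,k0,k0],
    [k0,k0,k0,k0,k0,k0,k0,k0,k0,k0,k0,k0],[k0,k0,k0,k0,k0,k0,k0,k0,k0,k0,k0,k0],[k0,k0,k0,k0,k0,k0,k0,k0,k0,k0,k0,k0],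
    [k0,k0,k0,k0,k0,k0,k0,k0,k0,k0,k0,k0],[k0,k0,k0,k0,k0,k0,k0,k0,k0,k0,k0,k0],[k0,k0,k0,k0,k0,k0,k0,k0,k0,k0,k0,k0],
    [k0,k0,k0,k0,k0,k0,k0,k0,k0,k0,k0,k0],[k0,k0,k0,k0,k0,k0,k0,k0,k0,k0,k0,k0],[k0,k0,k0,k0,k0,k0,k0,k0,k0,k0,k0,k0],
    [k0,k0,k0,k0,k0,k0,k0,k0,k0,k0,k0,k0],[k0,k0,k0,k0,k0,k0,k0,k0,k0,k0,k0,k0]] k48 k5
    [[(k10,k14),(k11,k14),(k1,k16),(k8,k17)],[(k0,k16),(k2,k16),(k3,k16),(k4,k16),(k5,k16),(k6,k16),(k7,k16),(k9,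
    k17)],[(k0,k16),(k2,k16),(k3,k16),(k4,k16),(k5,k16),(k6,k16),(k7,k16),(k9,k17)],[(k0,k16),(k2,k16),(k3,k16),(k4,
    k16),(k5,k16),(k6,k16),(k7,k16),(k9,k17)],[(k0,k16),(k2,k16),(k3,k16),(k4,k16),(k5,k16),(k6,k16),(k7,k16),(k9,
    k17)],[(k0,k16),(k2,k16),(k3,k16),(k4,k16),(k5,k16),(k6,k16),(k7,k16),(k9,k17)],[(k0,k16),(k2,k16),(k3,k16),(k4,
    k16),(k5,k16),(k6,k16),(k7,k16),(k9,k17)],[(k0,k16),(k2,k16),(k3,k16),(k4,k16),(k5,k16),(k6,k16),(k7,k16),(k9,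
    k17)],[(k0,k17),(k2,k17),(k3,k17),(k4,k17),(k5,k17),(k6,k17),(k7,k17),(k9,k18)],[(k10,k15),(k11,k15),(k1,k17),(k8,
    k18)],[(k10,k12),(k11,k12),(k1,k14),(k8,k15)],[(k10,k12),(k11,k12),(k1,k14),(k8,k15)]]
    [[k2,k0,k0,k0,k0,k1],[k1,k0,k0,k0,k1,k1],[k0,k0,k0,k0,k0,k3]]
    [.ref k3 k0 [(z2,[z1,z1]),(z1,[z2,y1,z3]),(z2,[y2,z1,z0,z3]),(z4,[y10,z5,z0,z0,z3]),(z4,[y4,y1,y12,y6,y3,z12])],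
    .ref k3 k0 [(z4,[z4,z3,z4,z2,z1,y4]),(z1,[z4,z0,z7,z2,z1,y4]),(z2,[y4,z0,y4,z1,y1,z4]),(z2,[y10,z0,y10,y5,y1,
    z10]),(z4,[y8,y3,y20,y10,y5,z20])],.ref k3 k0 [(z4,[z1,z3]),(z1,[z1,z0,z3]),(z2,[y1,z0,z0,z3]),(z4,[y5,z0,z0,z0,
    z3]),(z4,[y2,y3,y12,y6,y3,z12])]],
    .lp k0 [k18,k16,k16,k16,k16,k12] [k0,k0,k1,k1,k1,k1,k1,k1,k1,k1,k3,k3] k0 [[k0,k0,k0,k0,k0,k0,k0,k0,k0,k0,k0,k0],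
    [k0,k0,k0,k0,k0,k0,k0,k0,k0,k0,k0,k0],[k0,k0,k0,k0,k0,k0,k0,k0,k0,k0,k0,k0],[k0,k0,k0,k0,k0,k0,k0,k0,k0,k0,k0,k0],
    [k0,k0,k0,k0,k0,k0,k0,k0,k0,k0,k0,k0],[k0,k0,k0,k0,k0,k0,k0,k0,k0,k0,k0,k0],[k0,k0,k0,k0,k0,k0,k0,k0,k0,k0,k0,k0],
    [k0,k0,k0,k0,k0,k0,k0,k0,k0,k0,k0,k0],[k0,k0,k0,k0,k0,k0,k0,k0,k0,k0,k0,k0],[k0,k0,k0,k0,k0,k0,k0,k0,k0,k0,k0,k0],
    [k0,k0,k0,k0,k0,k0,k0,k0,k0,k0,k0,k0],[k0,k0,k0,k0,k0,k0,k0,k0,k0,k0,k0,k0]] k48 k5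
    [[(k10,k15),(k11,k15),(k8,k17),(k1,k18)],[(k2,k17),(k3,k17),(k4,k17),(k5,k17),(k6,k17),(k7,k17),(k9,k17),(k0,
    k18)],[(k2,k16),(k3,k16),(k4,k16),(k5,k16),(k6,k16),(k7,k16),(k9,k16),(k0,k17)],[(k2,k16),(k3,k16),(k4,k16),(k5,
    k16),(k6,k16),(k7,k16),(k9,k16),(k0,k17)],[(k2,k16),(k3,k16),(k4,k16),(k5,k16),(k6,k16),(k7,k16),(k9,k16),(k0,
    k17)],[(k2,k16),(k3,k16),(k4,k16),(k5,k16),(k6,k16),(k7,k16),(k9,k16),(k0,k17)],[(k2,k16),(k3,k16),(k4,k16),(k5,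
    k16),(k6,k16),(k7,k16),(k9,k16),(k0,k17)],[(k2,k16),(k3,k16),(k4,k16),(k5,k16),(k6,k16),(k7,k16),(k9,k16),(k0,
    k17)],[(k2,k16),(k3,k16),(k4,k16),(k5,k16),(k6,k16),(k7,k16),(k9,k16),(k0,k17)],[(k10,k14),(k11,k14),(k8,k16),(k1,
    k17)],[(k10,k12),(k11,k12),(k8,k14),(k1,k15)],[(k10,k12),(k11,k12),(k8,k14),(k1,k15)]]
    [[k1,k0,k0,k0,k1,k1],[k0,k0,k0,k0,k2,k1],[k0,k0,k0,k0,k0,k3]]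
    [.ref k136 k0 [(z1,[y1,z1]),(z1,[y4,z2,z1]),(z1,[z2,y1,z0,z1]),(z1,[z1,y1,y1,y1,z1])],.ref k150 k0 [(z1,[y1,z2]),
    (z1,[y1,z0,z1]),(z1,[z1,z0,z0,z2]),(z1,[z1,y2,y4,y4,z4])],.ref k26 k0 [(z1,[z0,z1]),(z1,[z0,z0,z1]),(z1,[z0,z0,z0,
    z1]),(z1,[y2,y3,y6,y6,z6])]],
    .lp k0 [k18,k16,k16,k16,k16,k12] [k0,k0,k1,k1,k1,k1,k1,k1,k1,k1,k3,k3] k0 [[k0,k0,k0,k0,k0,k0,k0,k0,k0,k0,k0,k0],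
    [k0,k0,k0,k0,k0,k0,k0,k0,k0,k0,k0,k0],[k0,k0,k0,k0,k0,k0,k0,k0,k0,k0,k0,k0],[k0,k0,k0,k0,k0,k0,k0,k0,k0,k0,k0,k0],
    [k0,k0,k0,k0,k0,k0,k0,k0,k0,k0,k0,k0],[k0,k0,k0,k0,k0,k0,k0,k0,k0,k0,k0,k0],[k0,k0,k0,k0,k0,k0,k0,k0,k0,k0,k0,k0],
    [k0,k0,k0,k0,k0,k0,k0,k0,k0,k0,k0,k0],[k0,k0,k0,k0,k0,k0,k0,k0,k0,k0,k0,k0],[k0,k0,k0,k0,k0,k0,k0,k0,k0,k0,k0,k0],
    [k0,k0,k0,k0,k0,k0,k0,k0,k0,k0,k0,k0],[k0,k0,k0,k0,k0,k0,k0,k0,k0,k0,k0,k0]] k48 k5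
    [[(k10,k15),(k11,k15),(k8,k17),(k1,k18)],[(k2,k17),(k3,k17),(k4,k17),(k5,k17),(k6,k17),(k7,k17),(k9,k17),(k0,
    k18)],[(k2,k16),(k3,k16),(k4,k16),(k5,k16),(k6,k16),(k7,k16),(k9,k16),(k0,k17)],[(k2,k16),(k3,k16),(k4,k16),(k5,
    k16),(k6,k16),(k7,k16),(k9,k16),(k0,k17)],[(k2,k16),(k3,k16),(k4,k16),(k5,k16),(k6,k16),(k7,k16),(k9,k16),(k0,
    k17)],[(k2,k16),(k3,k16),(k4,k16),(k5,k16),(k6,k16),(k7,k16),(k9,k16),(k0,k17)],[(k2,k16),(k3,k16),(k4,k16),(k5,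
    k16),(k6,k16),(k7,k16),(k9,k16),(k0,k17)],[(k2,k16),(k3,k16),(k4,k16),(k5,k16),(k6,k16),(k7,k16),(k9,k16),(k0,
    k17)],[(k2,k16),(k3,k16),(k4,k16),(k5,k16),(k6,k16),(k7,k16),(k9,k16),(k0,k17)],[(k10,k14),(k11,k14),(k8,k16),(k1,
    k17)],[(k10,k12),(k11,k12),(k8,k14),(k1,k15)],[(k10,k12),(k11,k12),(k8,k14),(k1,k15)]]
    [[k1,k0,k0,k0,k1,k1],[k0,k0,k0,k0,k2,k1],[k0,k0,k0,k0,k0,k3]]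
    [.ref k3 k0 [(z14,[z7,z6,z1,z1,z1,y7]),(z7,[y7,z0,z2,y1,y1,z7]),(z7,[z14,z0,z2,z5,z2,y14]),(z7,[y28,z0,y4,y4,y1,
    z28]),(z7,[y7,y3,y4,y4,y4,z28])],.ref k3 k0 [(z7,[z7,z5,z2,z2,z2,y14]),(z7,[y14,y4,y1,y4,y4,z28]),(z7,[z28,z8,z8,
    z11,z8,y56]),(z7,[y56,y16,y16,y16,y13,(Int.ofNat (nat_lit 112))]),(z1,[y2,y1,y1,y1,y1,z7])],.ref k3 k0 [(z7,[z1,
    z3]),(z7,[y2,z0,z3]),(z7,[z4,z0,z0,z3]),(z7,[y8,z0,z0,z0,z3]),(z7,[y2,y3,y3,y3,y3,z21])]],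
    .lp k0 [k16,k16,k16,k16,k14,k16] [k2,k0,k1,k1,k1,k1,k1,k1,k2,k2,k1,k1] k0 [[k0,k0,k0,k0,k0,k0,k0,k0,k0,k0,k0,k0],
    [k0,k0,k0,k0,k0,k0,k0,k0,k0,k0,k0,k0],[k0,k0,k0,k0,k0,k0,k0,k0,k0,k0,k0,k0],[k0,k0,k0,k0,k0,k0,k0,k0,k0,k0,k0,k0],
    [k0,k0,k0,k0,k0,k0,k0,k0,k0,k0,k0,k0],[k0,k0,k0,k0,k0,k0,k0,k0,k0,k0,k0,k0],[k0,k0,k0,k0,k0,k0,k0,k0,k0,k0,k0,k0],
    [k0,k0,k0,k0,k0,k0,k0,k0,k0,k0,k0,k0],[k0,k0,k0,k0,k0,k0,k0,k0,k0,k0,k4,k0],[k0,k0,k0,k0,k0,k0,k0,k0,k4,k0,k0,k0],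
    [k0,k0,k0,k0,k0,k0,k0,k0,k0,k0,k0,k0],[k0,k0,k0,k0,k0,k0,k0,k0,k0,k4,k0,k0]] k48 k5
    [[(k8,k12),(k10,k17),(k11,k17),(k1,k18)],[(k0,k14),(k9,k14),(k2,k15),(k3,k15),(k4,k15),(k5,k15),(k6,k15),(k7,
    k15)],[(k0,k15),(k9,k15),(k2,k16),(k3,k16),(k4,k16),(k5,k16),(k6,k16),(k7,k16)],[(k0,k15),(k9,k15),(k2,k16),(k3,
    k16),(k4,k16),(k5,k16),(k6,k16),(k7,k16)],[(k0,k15),(k9,k15),(k2,k16),(k3,k16),(k4,k16),(k5,k16),(k6,k16),(k7,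
    k16)],[(k0,k15),(k9,k15),(k2,k16),(k3,k16),(k4,k16),(k5,k16),(k6,k16),(k7,k16)],[(k0,k15),(k9,k15),(k2,k16),(k3,
    k16),(k4,k16),(k5,k16),(k6,k16),(k7,k16)],[(k0,k15),(k9,k15),(k2,k16),(k3,k16),(k4,k16),(k5,k16),(k6,k16),(k7,
    k16)],[(k0,k14),(k9,k14),(k2,k15),(k3,k15),(k4,k15),(k5,k15),(k6,k15),(k7,k15)],[(k1,k12),(k10,k15),(k11,k15),(k8,
    k18)],[(k11,k12),(k8,k15),(k1,k17),(k10,k20)],[(k8,k15),(k10,k16),(k1,k17),(k11,k20)]]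
    [[k1,k1,k0,k0,k1,k0],[k1,k0,k1,k0,k1,k0],[k1,k0,k0,k1,k1,k0],[k1,k0,k0,k0,k1,k1],[k0,k0,k0,k0,k2,k1]]
    [.ref k3 k0 [(z2,[y9,z5,z3]),(z1,[z9,y3,y2]),(z1,[z3,y1,y1,z3]),(z1,[y6,z2,z2,z0,z3]),(z2,[y3,z1,z1])],
    .ref k3 k0 [(z2,[z9,y1,z0,y9]),(z1,[y9,z3,z1,z9]),(z1,[y3,z1,z0,z6]),(z1,[z6,y2,z0,y6,z3]),(z2,[z3,y1,z0,y3])],
    .ref k3 k0 [(z8,[z9,z5,z0,z0,y9]),(z4,[y9,z3,z4,z0,z9]),(z4,[y3,z1,z0,z12,z3]),(z2,[z3,y1,z0,z0,z3]),(z8,[z3,y1,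
    z0,z0,y3])],.ref k3 k0 [(z4,[z9,z4,z3,z9,z9,y9]),(z2,[y9,z0,y1,y9,y9,z9]),(z2,[y3,z0,y1,z3,y3,z3]),(z1,[z3,z0,z1,
    z3,z6,y3]),(z4,[z3,z0,z1,z3,z3,y3])],.ref k3 k0 [(z2,[z9,z5,z3,z9,z9,y9]),(z1,[y9,y3,y2,y9,y9,z9]),(z1,[y3,y1,y1,
    z0,y3,z3]),(z1,[z6,z2,z2,z6,z9,y6]),(z2,[z3,z1,z1,z3,z3,y3])]],
    .lp k0 [k120,k112,k112,k112,k126,k84] [k3,k3,k7,k7,k7,k7,k7,k7,k0,k0,k21,k21] k0 [[k0,k0,k14,k0,k0,k0,k0,k0,k0,k0,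
    k0,k0],[k14,k0,k0,k0,k0,k0,k0,k0,k0,k0,k0,k0],[k0,k0,k0,k0,k0,k0,k0,k0,k0,k0,k0,k0],[k0,k14,k0,k0,k0,k0,k14,k0,k0,
    k0,k0,k0],[k0,k0,k0,k0,k0,k0,k0,k0,k0,k0,k0,k0],[k0,k0,k0,k0,k0,k0,k0,k0,k0,k0,k0,k0],[k0,k0,k0,k0,k0,k0,k0,k0,k0,
    k0,k0,k0],[k0,k0,k14,k0,k0,k0,k0,k0,k0,k0,k0,k0],[k0,k0,k0,k0,k0,k0,k0,k0,k0,k0,k0,k0],[k0,k0,k0,k0,k0,k0,k0,k0,
    k0,k0,k0,k0],[k0,k0,k0,k0,k0,k0,k0,k0,k0,k0,k0,k0],[k0,k0,k0,k0,k0,k0,k0,k0,k0,k0,k0,k0]] (nat_lit 336) k5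
    [[(k10,k102),(k11,k102),(k1,k120),(k8,k123)],[(k5,k102),(k2,k116),(k3,k116),(k4,k116),(k6,k116),(k7,k116),(k9,
    k123),(k0,k134)],[(k3,k98),(k4,k112),(k5,k112),(k6,k112),(k7,k112),(k0,k116),(k9,k119),(k2,k126)],[(k2,k112),(k4,
    k112),(k5,k112),(k7,k112),(k0,k116),(k9,k119),(k3,k126),(k6,k126)],[(k0,k102),(k9,k105),(k2,k112),(k3,k112),(k4,
    k112),(k5,k112),(k6,k112),(k7,k112)],[(k2,k112),(k3,k112),(k4,k112),(k5,k112),(k6,k112),(k7,k112),(k0,k116),(k9,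
    k119)],[(k2,k112),(k3,k112),(k4,k112),(k5,k112),(k6,k112),(k7,k112),(k0,k116),(k9,k119)],[(k3,k112),(k4,k112),(k5,
    k112),(k6,k112),(k7,k112),(k0,k116),(k9,k119),(k2,k126)],[(k5,k105),(k2,k119),(k3,k119),(k4,k119),(k6,k119),(k7,
    k119),(k0,k123),(k9,k126)],[(k10,k105),(k11,k105),(k1,k123),(k8,k126)],[(k10,k84),(k11,k84),(k1,k102),(k8,k105)],
    [(k10,k84),(k11,k84),(k1,k102),(k8,k105)]]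
    [[k1,k0,k0,k0,k1,k1],[k0,k2,k1,k0,k0,k0],[k0,k0,k0,k0,k0,k3]]
    [.ref k2 k0 [(z2,[z3,z1]),(z2,[y3,z3,z2]),(z2,[y1,z1,z0,z2]),(z1,[z1,y2,y1,y1,z1])],.ref k152 k0 [(z2,[y3,z14,z6,
    z3]),(z1,[z3,z0,z1,y3]),(z1,[z1,z0,y2,z6]),(z1,[y2,y7,y3,y5,z7])],.ref k153 k0 [(z1,[z1,z3]),(z1,[y2,z0,z3]),(z1,
    [z0,z0,z0,z1]),(z1,[z0,y1,y1,y1,z1])]],
    .lp k0 [k160,k170,k166,k160,k144,k156] [k5,k5,k0,k0,k2,k2,k5,k5,k13,k13,k7,k7] k0 [[k0,k12,k6,k2,k0,k0,k0,k0,k0,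
    k0,k0,k0],[k0,k0,k0,k0,k0,k28,k28,k20,k0,k0,k0,k0],[k0,k2,k0,k0,k6,k0,k0,k26,k0,k0,k0,k0],[k0,k6,k0,k0,k6,k0,k0,
    k0,k0,k0,k0,k0],[k28,k0,k0,k0,k0,k0,k0,k0,k0,k0,k0,k0],[k0,k0,k6,k6,k0,k0,k0,k0,k0,k0,k0,k0],[k20,k0,k0,k26,k0,k0,
    k0,k0,k0,k0,k0,k0],[k28,k0,k0,k0,k0,k0,k0,k0,k0,k0,k0,k0],[k0,k0,k0,k0,k0,k0,k0,k0,k0,k0,k12,k16],[k0,k0,k0,k0,k0,
    k0,k0,k0,k0,k0,k0,k0],[k0,k0,k0,k0,k0,k0,k0,k0,k0,k16,k0,k0],[k0,k0,k0,k0,k0,k0,k0,k0,k0,k12,k0,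
    k0]] (nat_lit 480) k5
    [[(k8,k140),(k10,k158),(k1,k160),(k11,k174)],[(k0,k148),(k5,k157),(k2,k163),(k4,k163),(k3,k165),(k9,k172),(k6,
    k188),(k7,k188)],[(k9,k129),(k4,k140),(k6,k145),(k0,k165),(k7,k165),(k5,k170),(k2,k176),(k3,k182)],[(k6,k139),(k9,
    k157),(k7,k159),(k0,k163),(k5,k168),(k2,k170),(k4,k174),(k3,k176)],[(k0,k157),(k7,k157),(k6,k163),(k5,k166),(k2,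
    k168),(k3,k170),(k4,k172),(k9,k181)],[(k3,k140),(k9,k155),(k0,k163),(k6,k163),(k7,k163),(k4,k166),(k5,k172),(k2,
    k174)],[(k9,k152),(k5,k157),(k2,k159),(k6,k160),(k7,k160),(k4,k163),(k3,k165),(k0,k188)],[(k2,k139),(k3,k145),(k9,
    k152),(k6,k160),(k7,k160),(k4,k163),(k5,k163),(k0,k188)],[(k3,k129),(k9,k144),(k6,k152),(k7,k152),(k4,k155),(k2,
    k157),(k0,k172),(k5,k181)],[(k10,k134),(k1,k140),(k8,k144),(k11,k150)],[(k8,k150),(k11,k156),(k10,k168),(k1,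
    k174)],[(k8,k134),(k10,k156),(k1,k158),(k11,k168)]]
    [[k1,k1,k0,k0,k1,k0],[k1,k0,k1,k0,k1,k0],[k0,k1,k1,k1,k0,k0],[k0,k1,k0,k2,k0,k0],[k0,k1,k0,k0,k2,k0],[k0,k0,k0,k1,
    k2,k0],[k0,k0,k0,k0,k2,k1]]
    [.ref k147 k0 [(z3,[z3,z4,y1]),(z3,[z12,y4,z1]),(z1,[y2,y1,y1,z5])],.ref k149 k0 [(z3,[y3,z1,y1,z3]),(z1,[y4,z0,
    y1,z4]),(z3,[z6,y1,z1,y3])],.ref k115 k1 [(z1,[y1,z0,z0,z1]),(z1,[z1,z1,z0,y1]),(z3,[z0,z1,y1,z3])],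
    .ref k115 k1 [(z6,[y3,z2,z1]),(z6,[z3,z4,y1]),(z3,[z0,z1,y1,z3])],.ref k151 k0 [(z6,[z3,z4,y1]),(z1,[z1]),(z6,[y3,
    y2,y1,z6])],.ref k154 k1 [(z1,[z1,y1]),(z1,[y1,z2]),(z3,[z0,z1,y1,z3])],.ref k12 k1 [(z1,[z1]),(z1,[y1,z2]),(z3,
    [z0,z1,y1,z3])]]]

theorem hB6_104_12 : blkB [0, 0, 0, 0, 1, 1] [] sp6 hS6_104 (pcls (n := 6) [0, 0, 0, 0, 1, 1]) hD6_104 181 12 hN6_104_12 = true := by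
  decide +kernel

/-- nodes 156 to 167 -/
noncomputable def hN6_104_13 : List HM :=
  [.lp k0 [k16,k16,k16,k16,k18,k12] [k1,k1,k1,k1,k1,k1,k1,k1,k0,k0,k3,k3] k0 [[k0,k0,k0,k0,k0,k0,k0,k0,k0,k0,k0,k0],
    [k0,k0,k0,k0,k0,k0,k0,k0,k0,k0,k0,k0],[k0,k0,k0,k0,k0,k0,k0,k0,k0,k0,k0,k0],[k0,k0,k0,k0,k0,k0,k0,k0,k0,k0,k0,k0],
    [k0,k0,k0,k0,k0,k0,k0,k0,k0,k0,k0,k0],[k0,k0,k0,k0,k0,k0,k0,k0,k0,k0,k0,k0],[k0,k0,k0,k0,k0,k0,k0,k0,k0,k0,k0,k0],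
    [k0,k0,k0,k0,k0,k0,k0,k0,k0,k0,k0,k0],[k0,k0,k0,k0,k0,k0,k0,k0,k0,k0,k0,k0],[k0,k0,k0,k0,k0,k0,k0,k0,k0,k0,k0,k0],
    [k0,k0,k0,k0,k0,k0,k0,k0,k0,k0,k0,k0],[k0,k0,k0,k0,k0,k0,k0,k0,k0,k0,k0,k0]] k48 k5
    [[(k10,k14),(k11,k14),(k1,k16),(k8,k17)],[(k0,k16),(k2,k16),(k3,k16),(k4,k16),(k5,k16),(k6,k16),(k7,k16),(k9,
    k17)],[(k0,k16),(k2,k16),(k3,k16),(k4,k16),(k5,k16),(k6,k16),(k7,k16),(k9,k17)],[(k0,k16),(k2,k16),(k3,k16),(k4,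
    k16),(k5,k16),(k6,k16),(k7,k16),(k9,k17)],[(k0,k16),(k2,k16),(k3,k16),(k4,k16),(k5,k16),(k6,k16),(k7,k16),(k9,
    k17)],[(k0,k16),(k2,k16),(k3,k16),(k4,k16),(k5,k16),(k6,k16),(k7,k16),(k9,k17)],[(k0,k16),(k2,k16),(k3,k16),(k4,
    k16),(k5,k16),(k6,k16),(k7,k16),(k9,k17)],[(k0,k16),(k2,k16),(k3,k16),(k4,k16),(k5,k16),(k6,k16),(k7,k16),(k9,
    k17)],[(k0,k17),(k2,k17),(k3,k17),(k4,k17),(k5,k17),(k6,k17),(k7,k17),(k9,k18)],[(k10,k15),(k11,k15),(k1,k17),(k8,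
    k18)],[(k10,k12),(k11,k12),(k1,k14),(k8,k15)],[(k10,k12),(k11,k12),(k1,k14),(k8,k15)]]
    [[k2,k0,k0,k0,k0,k1],[k1,k0,k0,k0,k1,k1],[k0,k0,k0,k0,k0,k3]]
    [.ref k3 k0 [(z4,[z1,z1]),(z10,[y5,z1,z6]),(z5,[z5,y1,z0,z3]),(z5,[y10,z2,z0,z0,z3]),(z20,[y25,y1,y12,y12,y12,
    z60])],.ref k3 k0 [(z10,[z5,z3,z1,z1,z1,y5]),(z5,[y5,z0,z2,y1,y1,z5]),(z5,[z10,z0,z2,z5,z2,y10]),(z5,[y20,z0,y4,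
    y4,y1,z20]),(z10,[y25,y3,y11,y11,y11,z55])],.ref k3 k0 [(z10,[z1,z3]),(z5,[y1,z0,z3]),(z5,[z2,z0,z0,z3]),(z5,[y4,
    z0,z0,z0,z3]),(z10,[y5,y3,y6,y6,y6,z30])]],
    .lp k0 [k120,k112,k112,k112,k126,k84] [k3,k3,k7,k7,k7,k7,k7,k7,k0,k0,k21,k21] k0 [[k0,k0,k14,k0,k0,k0,k0,k0,k0,k0,
    k0,k0],[k14,k0,k0,k0,k0,k0,k0,k0,k0,k0,k0,k0],[k0,k0,k0,k0,k0,k0,k0,k0,k0,k0,k0,k0],[k0,k14,k0,k0,k0,k0,k14,k0,k0,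
    k0,k0,k0],[k0,k0,k0,k0,k0,k0,k0,k0,k0,k0,k0,k0],[k0,k0,k0,k0,k0,k0,k0,k0,k0,k0,k0,k0],[k0,k0,k0,k0,k0,k0,k0,k0,k0,
    k0,k0,k0],[k0,k0,k14,k0,k0,k0,k0,k0,k0,k0,k0,k0],[k0,k0,k0,k0,k0,k0,k0,k0,k0,k0,k0,k0],[k0,k0,k0,k0,k0,k0,k0,k0,
    k0,k0,k0,k0],[k0,k0,k0,k0,k0,k0,k0,k0,k0,k0,k0,k0],[k0,k0,k0,k0,k0,k0,k0,k0,k0,k0,k0,k0]] (nat_lit 336) k5
    [[(k10,k102),(k11,k102),(k1,k120),(k8,k123)],[(k5,k102),(k2,k116),(k3,k116),(k4,k116),(k6,k116),(k7,k116),(k9,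
    k123),(k0,k134)],[(k3,k98),(k4,k112),(k5,k112),(k6,k112),(k7,k112),(k0,k116),(k9,k119),(k2,k126)],[(k2,k112),(k4,
    k112),(k5,k112),(k7,k112),(k0,k116),(k9,k119),(k3,k126),(k6,k126)],[(k0,k102),(k9,k105),(k2,k112),(k3,k112),(k4,
    k112),(k5,k112),(k6,k112),(k7,k112)],[(k2,k112),(k3,k112),(k4,k112),(k5,k112),(k6,k112),(k7,k112),(k0,k116),(k9,
    k119)],[(k2,k112),(k3,k112),(k4,k112),(k5,k112),(k6,k112),(k7,k112),(k0,k116),(k9,k119)],[(k3,k112),(k4,k112),(k5,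
    k112),(k6,k112),(k7,k112),(k0,k116),(k9,k119),(k2,k126)],[(k5,k105),(k2,k119),(k3,k119),(k4,k119),(k6,k119),(k7,
    k119),(k0,k123),(k9,k126)],[(k10,k105),(k11,k105),(k1,k123),(k8,k126)],[(k10,k84),(k11,k84),(k1,k102),(k8,k105)],
    [(k10,k84),(k11,k84),(k1,k102),(k8,k105)]]
    [[k1,k0,k0,k0,k1,k1],[k0,k2,k1,k0,k0,k0],[k0,k0,k0,k0,k0,k3]]
    [.ref k2 k0 [(z1,[z2,z1,z2,z1,y2]),(z1,[y2,z0,y1,y1,z2]),(z1,[y1,z0,y1,z0,z1]),(z1,[z2,z0,z2,z1,y2])],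
    .ref k156 k0 [(z1,[y2,z5,z4,z1]),(z1,[z2,z0,z1,y1]),(z1,[z1,z0,y2,z2]),(z1,[y2,z0,z4,z1])],.ref k99 k0 [(z1,[z1,
    z3]),(z1,[y1,z0,z3]),(z1,[z0,z0,z0,z1]),(z2,[y1,y3,y6,y3,z6])]],
    .lp k0 [k40,k42,k42,k42,k32,k40] [k1,k1,k0,k0,k0,k0,k0,k0,k5,k5,k1,k1] k0 [[k0,k0,k0,k0,k0,k0,k0,k8,k0,k0,k0,k0],
    [k0,k0,k0,k6,k0,k0,k0,k0,k0,k0,k0,k0],[k6,k0,k0,k0,k0,k0,k0,k6,k0,k0,k0,k0],[k0,k0,k0,k0,k0,k0,k0,k6,k0,k0,k0,k0],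
    [k0,k0,k0,k0,k0,k0,k0,k0,k0,k0,k0,k0],[k0,k0,k0,k0,k0,k0,k0,k0,k0,k0,k0,k0],[k0,k8,k6,k6,k0,k0,k0,k0,k0,k0,k0,k0],
    [k0,k0,k0,k0,k0,k0,k0,k0,k0,k0,k0,k0],[k0,k0,k0,k0,k0,k0,k0,k0,k0,k0,k0,k0],[k0,k0,k0,k0,k0,k0,k0,k0,k0,k0,k0,k0],
    [k0,k0,k0,k0,k0,k0,k0,k0,k0,k0,k0,k0],[k0,k0,k0,k0,k0,k0,k0,k0,k0,k0,k0,k0]] k120 k5
    [[(k8,k36),(k1,k40),(k10,k40),(k11,k40)],[(k6,k33),(k9,k36),(k0,k40),(k2,k41),(k3,k41),(k4,k41),(k7,k41),(k5,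
    k47)],[(k2,k36),(k0,k41),(k3,k42),(k4,k42),(k5,k42),(k6,k42),(k7,k42),(k9,k45)],[(k3,k36),(k6,k36),(k0,k41),(k2,
    k42),(k4,k42),(k5,k42),(k7,k42),(k9,k43)],[(k6,k36),(k2,k42),(k3,k42),(k4,k42),(k5,k42),(k7,k42),(k9,k43),(k0,
    k47)],[(k9,k37),(k0,k41),(k2,k42),(k3,k42),(k4,k42),(k5,k42),(k6,k42),(k7,k42)],[(k9,k37),(k0,k41),(k2,k42),(k3,
    k42),(k4,k42),(k5,k42),(k6,k42),(k7,k42)],[(k0,k33),(k2,k36),(k5,k36),(k9,k37),(k3,k42),(k4,k42),(k6,k42),(k7,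
    k42)],[(k9,k32),(k0,k36),(k4,k37),(k6,k37),(k7,k37),(k2,k43),(k5,k43),(k3,k45)],[(k8,k32),(k1,k36),(k10,k36),(k11,
    k36)],[(k8,k36),(k1,k40),(k10,k40),(k11,k40)],[(k8,k36),(k1,k40),(k10,k40),(k11,k40)]]
    [[k2,k0,k0,k1,k0,k0],[k1,k0,k0,k1,k1,k0],[k1,k0,k0,k0,k1,k1],[k0,k3,k0,k0,k0,k0],[k0,k2,k0,k1,k0,k0],[k0,k0,k1,k0,
    k2,k0],[k0,k0,k0,k1,k2,k0],[k0,k0,k0,k0,k2,k1]]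
    [.ref k3 k0 [(z4,[z3,z3,z0,z0,y1]),(z2,[y3,z3,z6,z0,z1]),(z4,[z3,y3,z0,z6,y1]),(z2,[z3,y3,z0,z0,z1]),(z2,[y3,z3,
    z0,z0,z1])],.ref k3 k0 [(z1,[z3,z0,z0,z0,y1]),(z1,[y6,z3,z3,z0,z2]),(z2,[z6,y3,z0,z3,y2]),(z1,[z6,y3,z0,z0,y1]),
    (z1,[y6,z3,z0,z0,z2])],.ref k3 k0 [(z2,[y6,z3,y6,y3,y2,z6]),(z1,[z6,z0,z9,z3,z2,y6]),(z1,[y3,z0,y3,z0,y1,z3]),(z1,
    [y6,z0,y6,y3,y1,z6]),(z1,[z6,z0,z6,z3,z2,y6])],.ref k3 k0 [(z2,[y1,z3,z3]),(z1,[z1]),(z2,[y1,z0,z3,z3]),(z1,[y1,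
    z0,z3,z0,z1]),(z1,[z1,z0,y3])],.ref k3 k0 [(z2,[y3,z3,z6,z0,z1]),(z1,[z3,z0,y3,z0,y1]),(z2,[y3,z0,z6,z3,z1]),(z1,
    [y3,z0,z6,z0,z2]),(z1,[z3,z0,y6,z0,y1])],.ref k3 k0 [(z2,[y2,z3,z0,z1]),(z1,[z2,z0,z3,y1]),(z1,[y1,z0,z0,z2]),(z1,
    [y2,z0,z0,z1,z1]),(z1,[z2,z0,z0,y1])],.ref k3 k0 [(z2,[y3,z3,z0,z0,z1]),(z1,[z3,z0,z3,z0,y1]),(z2,[y3,z0,z0,z3,
    z1]),(z1,[y3,z0,z0,z0,z2]),(z1,[z3,z0,z0,z0,y1])],.ref k3 k0 [(z8,[y6,z9,y6,y3,y2,z6]),(z4,[z6,z3,z18,z3,z2,y6]),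
    (z8,[y6,y3,y6,z9,y2,z6]),(z4,[y6,y3,y6,y3,z2,z6]),(z4,[z6,z3,z6,z3,z2,y6])]],
    .lp k0 [k40,k42,k42,k42,k32,k40] [k1,k1,k0,k0,k0,k0,k0,k0,k5,k5,k1,k1] k0 [[k0,k0,k0,k0,k0,k0,k0,k8,k0,k0,k0,k0],
    [k0,k0,k0,k6,k0,k0,k0,k0,k0,k0,k0,k0],[k6,k0,k0,k0,k0,k0,k0,k6,k0,k0,k0,k0],[k0,k0,k0,k0,k0,k0,k0,k6,k0,k0,k0,k0],
    [k0,k0,k0,k0,k0,k0,k0,k0,k0,k0,k0,k0],[k0,k0,k0,k0,k0,k0,k0,k0,k0,k0,k0,k0],[k0,k8,k6,k6,k0,k0,k0,k0,k0,k0,k0,k0],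
    [k0,k0,k0,k0,k0,k0,k0,k0,k0,k0,k0,k0],[k0,k0,k0,k0,k0,k0,k0,k0,k0,k0,k0,k0],[k0,k0,k0,k0,k0,k0,k0,k0,k0,k0,k0,k0],
    [k0,k0,k0,k0,k0,k0,k0,k0,k0,k0,k0,k0],[k0,k0,k0,k0,k0,k0,k0,k0,k0,k0,k0,k0]] k120 k5
    [[(k8,k36),(k1,k40),(k10,k40),(k11,k40)],[(k6,k33),(k9,k36),(k0,k40),(k2,k41),(k3,k41),(k4,k41),(k7,k41),(k5,
    k47)],[(k2,k36),(k0,k41),(k3,k42),(k4,k42),(k5,k42),(k6,k42),(k7,k42),(k9,k45)],[(k3,k36),(k6,k36),(k0,k41),(k2,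
    k42),(k4,k42),(k5,k42),(k7,k42),(k9,k43)],[(k6,k36),(k2,k42),(k3,k42),(k4,k42),(k5,k42),(k7,k42),(k9,k43),(k0,
    k47)],[(k9,k37),(k0,k41),(k2,k42),(k3,k42),(k4,k42),(k5,k42),(k6,k42),(k7,k42)],[(k9,k37),(k0,k41),(k2,k42),(k3,
    k42),(k4,k42),(k5,k42),(k6,k42),(k7,k42)],[(k0,k33),(k2,k36),(k5,k36),(k9,k37),(k3,k42),(k4,k42),(k6,k42),(k7,
    k42)],[(k9,k32),(k0,k36),(k4,k37),(k6,k37),(k7,k37),(k2,k43),(k5,k43),(k3,k45)],[(k8,k32),(k1,k36),(k10,k36),(k11,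
    k36)],[(k8,k36),(k1,k40),(k10,k40),(k11,k40)],[(k8,k36),(k1,k40),(k10,k40),(k11,k40)]]
    [[k2,k0,k0,k1,k0,k0],[k1,k0,k0,k1,k1,k0],[k1,k0,k0,k0,k1,k1],[k0,k3,k0,k0,k0,k0],[k0,k2,k0,k1,k0,k0],[k0,k0,k1,k0,
    k2,k0],[k0,k0,k0,k1,k2,k0],[k0,k0,k0,k0,k2,k1]]
    [.ref k133 k0 [(z2,[z1,z1]),(z2,[y3,z3,z2]),(z2,[y1,z1,z0,z2]),(z2,[z1,y1])],.ref k46 k0 [(z1,[z1,z1]),(z1,[y2,z1,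
    z1]),(z2,[y2,z1,z0,z3]),(z1,[z2,y1])],.ref k46 k0 [(z2,[z6,z3,z2,z3,y6]),(z1,[y6,z0,y1,y3,z6]),(z1,[y3,z0,y1,z0,
    z3]),(z1,[z6,z0,z2,z3,y6])],.ref k46 k0 [(z2,[y1,z3,z1]),(z1,[z1]),(z2,[z1,z0,y1,z3]),(z1,[y1,z0,z1])],
    .ref k46 k0 [(z2,[y3,z3,z2]),(z1,[z3,z0,y1]),(z2,[z3,z0,y2,z3]),(z1,[y3,z0,z2])],.ref k32 k1 [(z2,[z2,y1,z0,y1]),
    (z1,[z2,y2,z0,y1]),(z1,[y1,z1,z0,z1]),(z1,[y6,z6,z1,z3])],.ref k158 k1 [(z2,[z1,z1]),(z2,[z1,y1]),(z2,[y1,z1,z0,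
    z2]),(z2,[y3,z3,z2])],.ref k99 k0 [(z2,[y6,z3,y2,y3,z6]),(z1,[z0,z0,z1]),(z1,[z0,z0,z0,z1]),(z4,[z6,z3,z2,z3,
    y6])]],
    .lp k0 [k18,k16,k16,k16,k16,k12] [k0,k0,k1,k1,k1,k1,k1,k1,k1,k1,k3,k3] k0 [[k0,k0,k0,k0,k0,k0,k0,k0,k0,k0,k0,k0],
    [k0,k0,k0,k0,k0,k0,k0,k0,k0,k0,k0,k0],[k0,k0,k0,k0,k0,k0,k0,k0,k0,k0,k0,k0],[k0,k0,k0,k0,k0,k0,k0,k0,k0,k0,k0,k0],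
    [k0,k0,k0,k0,k0,k0,k0,k0,k0,k0,k0,k0],[k0,k0,k0,k0,k0,k0,k0,k0,k0,k0,k0,k0],[k0,k0,k0,k0,k0,k0,k0,k0,k0,k0,k0,k0],
    [k0,k0,k0,k0,k0,k0,k0,k0,k0,k0,k0,k0],[k0,k0,k0,k0,k0,k0,k0,k0,k0,k0,k0,k0],[k0,k0,k0,k0,k0,k0,k0,k0,k0,k0,k0,k0],
    [k0,k0,k0,k0,k0,k0,k0,k0,k0,k0,k0,k0],[k0,k0,k0,k0,k0,k0,k0,k0,k0,k0,k0,k0]] k48 k5
    [[(k10,k15),(k11,k15),(k8,k17),(k1,k18)],[(k2,k17),(k3,k17),(k4,k17),(k5,k17),(k6,k17),(k7,k17),(k9,k17),(k0,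
    k18)],[(k2,k16),(k3,k16),(k4,k16),(k5,k16),(k6,k16),(k7,k16),(k9,k16),(k0,k17)],[(k2,k16),(k3,k16),(k4,k16),(k5,
    k16),(k6,k16),(k7,k16),(k9,k16),(k0,k17)],[(k2,k16),(k3,k16),(k4,k16),(k5,k16),(k6,k16),(k7,k16),(k9,k16),(k0,
    k17)],[(k2,k16),(k3,k16),(k4,k16),(k5,k16),(k6,k16),(k7,k16),(k9,k16),(k0,k17)],[(k2,k16),(k3,k16),(k4,k16),(k5,
    k16),(k6,k16),(k7,k16),(k9,k16),(k0,k17)],[(k2,k16),(k3,k16),(k4,k16),(k5,k16),(k6,k16),(k7,k16),(k9,k16),(k0,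
    k17)],[(k2,k16),(k3,k16),(k4,k16),(k5,k16),(k6,k16),(k7,k16),(k9,k16),(k0,k17)],[(k10,k14),(k11,k14),(k8,k16),(k1,
    k17)],[(k10,k12),(k11,k12),(k8,k14),(k1,k15)],[(k10,k12),(k11,k12),(k8,k14),(k1,k15)]]
    [[k1,k0,k0,k0,k1,k1],[k0,k0,k0,k0,k2,k1],[k0,k0,k0,k0,k0,k3]]
    [.ref k54 k0 [(z1,[z1]),(z1,[y2,z1,z1]),(z1,[y1,z0,y1,z1])],.ref k157 k0 [(z1,[y1,z1]),(z1,[z0,z0,z1]),(z1,[z0,y1,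
    y2,z2])],.ref k159 k0 [(z1,[z0,z1]),(z1,[y1,z0,z3]),(z1,[z0,y1,y2,z2])]],
    .base (.leafM k0 [k0,k1,k2,k3,k4,k5] [(z1,[y1,z0,z1])] []),
    .base (.leafM k0 [k0,k1,k2,k3,k4,k5] [(z1,[y1,z0,z0,z1])] []),
    .lp k0 [k84,k72,k84,k78,k78,k80] [k0,k0,k6,k6,k0,k0,k3,k3,k3,k3,k2,k2] k0 [[k0,k0,k0,k0,k0,k12,k18,k6,k0,k0,k0,
    k0],[k0,k0,k0,k0,k0,k0,k0,k0,k0,k0,k0,k0],[k0,k0,k0,k0,k0,k0,k0,k6,k0,k0,k0,k0],[k0,k0,k0,k0,k0,k0,k0,k6,k0,k0,k0,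
    k0],[k0,k12,k0,k0,k0,k0,k6,k6,k0,k0,k0,k0],[k0,k0,k0,k0,k0,k0,k0,k0,k0,k0,k0,k0],[k0,k6,k6,k6,k0,k6,k0,k0,k0,k0,
    k0,k0],[k0,k18,k0,k0,k0,k6,k0,k0,k0,k0,k0,k0],[k0,k0,k0,k0,k0,k0,k0,k0,k0,k0,k0,k0],[k0,k0,k0,k0,k0,k0,k0,k0,k0,
    k0,k4,k0],[k0,k0,k0,k0,k0,k0,k0,k0,k0,k0,k0,k0],[k0,k0,k0,k0,k0,k0,k0,k0,k4,k0,k0,k0]] (nat_lit 240) k5
    [[(k11,k78),(k8,k81),(k10,k82),(k1,k84)],[(k9,k63),(k4,k72),(k6,k75),(k2,k78),(k3,k78),(k7,k81),(k0,k84),(k5,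
    k84)],[(k2,k72),(k3,k72),(k0,k78),(k4,k78),(k5,k78),(k9,k81),(k7,k87),(k6,k93)],[(k6,k69),(k2,k72),(k3,k72),(k7,
    k75),(k0,k78),(k4,k78),(k5,k78),(k9,k81)],[(k6,k75),(k2,k78),(k3,k78),(k7,k81),(k0,k84),(k4,k84),(k5,k84),(k9,
    k87)],[(k0,k72),(k6,k75),(k9,k75),(k2,k78),(k3,k78),(k7,k81),(k4,k84),(k5,k84)],[(k2,k75),(k7,k78),(k0,k81),(k4,
    k81),(k5,k81),(k6,k84),(k9,k84),(k3,k87)],[(k2,k69),(k0,k75),(k4,k75),(k5,k75),(k6,k78),(k9,k78),(k7,k84),(k3,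
    k93)],[(k0,k63),(k4,k75),(k6,k78),(k9,k78),(k2,k81),(k3,k81),(k7,k84),(k5,k87)],[(k8,k78),(k11,k79),(k1,k81),(k10,
    k83)],[(k1,k78),(k8,k79),(k10,k80),(k11,k80)],[(k10,k80),(k11,k80),(k1,k82),(k8,k83)]]
    [[k1,k0,k0,k0,k1,k1],[k0,k3,k0,k0,k0,k0],[k0,k2,k1,k0,k0,k0],[k0,k2,k0,k1,k0,k0],[k0,k1,k1,k1,k0,k0],[k0,k0,k1,k2,
    k0,k0]]
    [.ref k162 k0 [(z1,[z1]),(z1,[y2,z1,z3]),(z1,[z1,y2,y3,z3])],.ref k162 k0 [(z2,[y1,z1,z3]),(z1,[z1]),(z2,[y1,y3,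
    y3,z6])],.ref k162 k0 [(z1,[y1,z0,z1,z1]),(z1,[z2,z1,z1,y2]),(z1,[y1,y2,y2,z4])],.ref k162 k0 [(z2,[y1,z1,z2]),
    (z1,[z1,z0,z1]),(z2,[y1,y3,y4,z6])],.ref k162 k0 [(z1,[y1,z0,z0,z1]),(z1,[z2,z1,z3,y2]),(z1,[y1,y2,y3,z4])],
    .ref k162 k0 [(z1,[y1,z0,y1,z1]),(z1,[z2,z1,z5,y2]),(z1,[y1,y2,y4,z4])]],
    .lp k0 [k18,k16,k16,k16,k16,k12] [k0,k0,k1,k1,k1,k1,k1,k1,k1,k1,k3,k3] k0 [[k0,k0,k0,k0,k0,k0,k0,k0,k0,k0,k0,k0],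
    [k0,k0,k0,k0,k0,k0,k0,k0,k0,k0,k0,k0],[k0,k0,k0,k0,k0,k0,k0,k0,k0,k0,k0,k0],[k0,k0,k0,k0,k0,k0,k0,k0,k0,k0,k0,k0],
    [k0,k0,k0,k0,k0,k0,k0,k0,k0,k0,k0,k0],[k0,k0,k0,k0,k0,k0,k0,k0,k0,k0,k0,k0],[k0,k0,k0,k0,k0,k0,k0,k0,k0,k0,k0,k0],
    [k0,k0,k0,k0,k0,k0,k0,k0,k0,k0,k0,k0],[k0,k0,k0,k0,k0,k0,k0,k0,k0,k0,k0,k0],[k0,k0,k0,k0,k0,k0,k0,k0,k0,k0,k0,k0],
    [k0,k0,k0,k0,k0,k0,k0,k0,k0,k0,k0,k0],[k0,k0,k0,k0,k0,k0,k0,k0,k0,k0,k0,k0]] k48 k5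
    [[(k10,k15),(k11,k15),(k8,k17),(k1,k18)],[(k2,k17),(k3,k17),(k4,k17),(k5,k17),(k6,k17),(k7,k17),(k9,k17),(k0,
    k18)],[(k2,k16),(k3,k16),(k4,k16),(k5,k16),(k6,k16),(k7,k16),(k9,k16),(k0,k17)],[(k2,k16),(k3,k16),(k4,k16),(k5,
    k16),(k6,k16),(k7,k16),(k9,k16),(k0,k17)],[(k2,k16),(k3,k16),(k4,k16),(k5,k16),(k6,k16),(k7,k16),(k9,k16),(k0,
    k17)],[(k2,k16),(k3,k16),(k4,k16),(k5,k16),(k6,k16),(k7,k16),(k9,k16),(k0,k17)],[(k2,k16),(k3,k16),(k4,k16),(k5,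
    k16),(k6,k16),(k7,k16),(k9,k16),(k0,k17)],[(k2,k16),(k3,k16),(k4,k16),(k5,k16),(k6,k16),(k7,k16),(k9,k16),(k0,
    k17)],[(k2,k16),(k3,k16),(k4,k16),(k5,k16),(k6,k16),(k7,k16),(k9,k16),(k0,k17)],[(k10,k14),(k11,k14),(k8,k16),(k1,
    k17)],[(k10,k12),(k11,k12),(k8,k14),(k1,k15)],[(k10,k12),(k11,k12),(k8,k14),(k1,k15)]]
    [[k1,k0,k0,k0,k1,k1],[k0,k0,k0,k0,k2,k1],[k0,k0,k0,k0,k0,k3]]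
    [.ref k3 k0 [(z2,[z1,z3,z1,z1,z1,y1]),(z1,[y1,z0,z2,y1,y1,z1]),(z1,[z2,z0,z2,z5,z2,y2]),(z1,[y4,z0,y4,y4,y1,z4]),
    (z2,[z7,y3,z1,z1,z1,y1])],.ref k3 k0 [(z4,[z1,z7,z2,z2,z2,y2]),(z2,[y1,y1,z4,y2,y2,z2]),(z1,[z1,z1,z2,z5,z2,y2]),
    (z1,[y2,y2,y4,y4,y1,z4]),(z4,[z7,z1,z2,z2,z2,y2])],.ref k3 k0 [(z2,[y1,z3]),(z1,[z1,z0,z3]),(z1,[y2,z0,z0,z3]),
    (z1,[z4,z0,z0,z0,z3]),(z2,[y7,y3,y6,y6,y6,z6])]],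
    .lp k0 [k90,k78,k78,k90,k60,k80] [k0,k0,k6,k6,k6,k6,k0,k0,k15,k15,k5,k5] k0 [[k0,k0,k6,k6,k0,k0,k0,k0,k0,k0,k0,
    k0],[k0,k0,k0,k0,k0,k0,k0,k0,k0,k0,k0,k0],[k0,k6,k0,k0,k6,k0,k0,k0,k0,k0,k0,k0],[k0,k6,k0,k0,k6,k0,k0,k0,k0,k0,k0,
    k0],[k0,k0,k0,k0,k0,k0,k0,k0,k0,k0,k0,k0],[k0,k0,k6,k6,k0,k0,k0,k0,k0,k0,k0,k0],[k0,k0,k0,k0,k0,k0,k0,k0,k0,k0,k0,
    k0],[k0,k0,k0,k0,k0,k0,k0,k0,k0,k0,k0,k0],[k0,k0,k0,k0,k0,k0,k0,k0,k0,k0,k0,k0],[k0,k0,k0,k0,k0,k0,k0,k0,k0,k0,k0,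
    k0],[k0,k0,k0,k0,k0,k0,k0,k0,k0,k0,k0,k0],[k0,k0,k0,k0,k0,k0,k0,k0,k0,k0,k0,k0]] (nat_lit 240) k5
    [[(k8,k75),(k10,k85),(k11,k85),(k1,k90)],[(k9,k75),(k2,k78),(k5,k78),(k3,k84),(k4,k84),(k0,k90),(k6,k90),(k7,
    k90)],[(k9,k69),(k3,k78),(k4,k78),(k0,k84),(k2,k84),(k5,k84),(k6,k84),(k7,k84)],[(k9,k69),(k0,k78),(k2,k78),(k5,
    k78),(k7,k78),(k3,k84),(k4,k84),(k6,k84)],[(k9,k69),(k0,k78),(k2,k78),(k5,k78),(k7,k78),(k3,k84),(k4,k84),(k6,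
    k84)],[(k9,k69),(k3,k78),(k4,k78),(k0,k84),(k2,k84),(k5,k84),(k6,k84),(k7,k84)],[(k9,k75),(k2,k78),(k5,k78),(k3,
    k84),(k4,k84),(k0,k90),(k6,k90),(k7,k90)],[(k9,k75),(k2,k84),(k3,k84),(k4,k84),(k5,k84),(k0,k90),(k6,k90),(k7,
    k90)],[(k9,k60),(k2,k69),(k3,k69),(k4,k69),(k5,k69),(k0,k75),(k6,k75),(k7,k75)],[(k8,k60),(k10,k70),(k11,k70),(k1,
    k75)],[(k8,k70),(k10,k80),(k11,k80),(k1,k85)],[(k8,k70),(k10,k80),(k11,k80),(k1,k85)]]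
    [[k1,k1,k0,k0,k1,k0],[k1,k0,k1,k0,k1,k0],[k1,k0,k0,k0,k1,k1],[k0,k1,k0,k0,k2,k0],[k0,k0,k1,k0,k2,k0],[k0,k0,k0,k1,
    k2,k0],[k0,k0,k0,k0,k2,k1]]
    [.ref k3 k0 [(z1,[z0,z1]),(z1,[y3,z1,z3]),(z2,[z6,y2,y3,z1]),(z1,[y6,z2,z3,z0,z1]),(z1,[z6,y2,y3])],
    .ref k3 k0 [(z1,[z0,z1]),(z6,[y6,z2,z9,z1]),(z3,[z3,y1,z0,z1]),(z3,[y6,z2,z0,z1,z3]),(z3,[z6,y2,z0,y1])],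
    .ref k3 k0 [(z1,[z0,z1]),(z4,[y6,z0,z3,y1,y2,z6]),(z4,[z6,z0,z3,z3,z2,y6]),(z2,[y6,z0,y3,y1,z0,z6]),(z2,[z6,z0,z3,
    z1,z2,y6])],.ref k3 k0 [(z1,[z0,z1]),(z1,[y1,z0,z2]),(z2,[z2,z0,y1,z1]),(z1,[y2,z0,z1,z0,z1]),(z1,[z2,z0,y1])],
    .ref k3 k0 [(z1,[z0,z1]),(z10,[y6,z0,z15,z1]),(z5,[z3,z0,z0,z2]),(z5,[y6,z0,z0,z1,z5]),(z5,[z6,z0,z0,y1])],
    .ref k3 k0 [(z1,[z0,z1]),(z2,[y3,z0,z3,z0,z1]),(z2,[z3,z0,z0,z1,y1]),(z1,[y3,z0,z0,z0,z2]),(z1,[z3,z0,z0,z0,y1])],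
    .ref k3 k0 [(z1,[z0,z1]),(z8,[y6,y2,z9,y1,y2,z6]),(z8,[z6,z2,z3,z5,z2,y6]),(z4,[y6,y2,y3,y1,z2,z6]),(z4,[z6,z2,z3,
    z1,z2,y6])]],
    .lp k0 [k120,k112,k112,k112,k126,k84] [k3,k3,k7,k7,k7,k7,k7,k7,k0,k0,k21,k21] k0 [[k0,k0,k14,k0,k0,k0,k0,k0,k0,k0,
    k0,k0],[k14,k0,k0,k0,k0,k0,k0,k0,k0,k0,k0,k0],[k0,k0,k0,k0,k0,k0,k0,k0,k0,k0,k0,k0],[k0,k14,k0,k0,k0,k0,k14,k0,k0,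
    k0,k0,k0],[k0,k0,k0,k0,k0,k0,k0,k0,k0,k0,k0,k0],[k0,k0,k0,k0,k0,k0,k0,k0,k0,k0,k0,k0],[k0,k0,k0,k0,k0,k0,k0,k0,k0,
    k0,k0,k0],[k0,k0,k14,k0,k0,k0,k0,k0,k0,k0,k0,k0],[k0,k0,k0,k0,k0,k0,k0,k0,k0,k0,k0,k0],[k0,k0,k0,k0,k0,k0,k0,k0,
    k0,k0,k0,k0],[k0,k0,k0,k0,k0,k0,k0,k0,k0,k0,k0,k0],[k0,k0,k0,k0,k0,k0,k0,k0,k0,k0,k0,k0]] (nat_lit 336) k5
    [[(k10,k102),(k11,k102),(k1,k120),(k8,k123)],[(k5,k102),(k2,k116),(k3,k116),(k4,k116),(k6,k116),(k7,k116),(k9,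
    k123),(k0,k134)],[(k3,k98),(k4,k112),(k5,k112),(k6,k112),(k7,k112),(k0,k116),(k9,k119),(k2,k126)],[(k2,k112),(k4,
    k112),(k5,k112),(k7,k112),(k0,k116),(k9,k119),(k3,k126),(k6,k126)],[(k0,k102),(k9,k105),(k2,k112),(k3,k112),(k4,
    k112),(k5,k112),(k6,k112),(k7,k112)],[(k2,k112),(k3,k112),(k4,k112),(k5,k112),(k6,k112),(k7,k112),(k0,k116),(k9,
    k119)],[(k2,k112),(k3,k112),(k4,k112),(k5,k112),(k6,k112),(k7,k112),(k0,k116),(k9,k119)],[(k3,k112),(k4,k112),(k5,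
    k112),(k6,k112),(k7,k112),(k0,k116),(k9,k119),(k2,k126)],[(k5,k105),(k2,k119),(k3,k119),(k4,k119),(k6,k119),(k7,
    k119),(k0,k123),(k9,k126)],[(k10,k105),(k11,k105),(k1,k123),(k8,k126)],[(k10,k84),(k11,k84),(k1,k102),(k8,k105)],
    [(k10,k84),(k11,k84),(k1,k102),(k8,k105)]]
    [[k1,k0,k0,k0,k1,k1],[k0,k2,k1,k0,k0,k0],[k0,k0,k0,k0,k0,k3]]
    [.ref k80 k1 [(z1,[z2,y1]),(z4,[y4,z0,y1,y1,z4]),(z2,[z2,y1,z0,z1]),(z2,[y2,z1,z1])],.ref k164 k0 [(z1,[z0,z1]),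
    (z4,[z4,z0,y1,y1]),(z2,[y2,z0,z1,z1]),(z4,[z8,y2,y5,y3,z4])],.ref k165 k0 [(z2,[y1,z3]),(z2,[y1,z0,z1]),(z2,[y1,
    z0,z0,z3]),(z4,[z2,y6,y3,y3,z12])]],
    .base (.leafM k0 [k0,k1,k2,k3,k4,k5] [(z2,[z0,z1,z1])] [])]

theorem hB6_104_13 : blkB [0, 0, 0, 0, 1, 1] [] sp6 hS6_104 (pcls (n := 6) [0, 0, 0, 0, 1, 1]) hD6_104 181 13 hN6_104_13 = true := by
  decide +kernel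

/-- nodes 168 to 179 -/
noncomputable def hN6_104_14 : List HM :=
  [.lp k0 [k18,k16,k16,k16,k16,k12] [k0,k0,k1,k1,k1,k1,k1,k1,k1,k1,k3,k3] k0 [[k0,k0,k0,k0,k0,k0,k0,k0,k0,k0,k0,k0],
    [k0,k0,k0,k0,k0,k0,k0,k0,k0,k0,k0,k0],[k0,k0,k0,k0,k0,k0,k0,k0,k0,k0,k0,k0],[k0,k0,k0,k0,k0,k0,k0,k0,k0,k0,k0,k0],
    [k0,k0,k0,k0,k0,k0,k0,k0,k0,k0,k0,k0],[k0,k0,k0,k0,k0,k0,k0,k0,k0,k0,k0,k0],[k0,k0,k0,k0,k0,k0,k0,k0,k0,k0,k0,k0],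
    [k0,k0,k0,k0,k0,k0,k0,k0,k0,k0,k0,k0],[k0,k0,k0,k0,k0,k0,k0,k0,k0,k0,k0,k0],[k0,k0,k0,k0,k0,k0,k0,k0,k0,k0,k0,k0],
    [k0,k0,k0,k0,k0,k0,k0,k0,k0,k0,k0,k0],[k0,k0,k0,k0,k0,k0,k0,k0,k0,k0,k0,k0]] k48 k5
    [[(k10,k15),(k11,k15),(k8,k17),(k1,k18)],[(k2,k17),(k3,k17),(k4,k17),(k5,k17),(k6,k17),(k7,k17),(k9,k17),(k0,
    k18)],[(k2,k16),(k3,k16),(k4,k16),(k5,k16),(k6,k16),(k7,k16),(k9,k16),(k0,k17)],[(k2,k16),(k3,k16),(k4,k16),(k5,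
    k16),(k6,k16),(k7,k16),(k9,k16),(k0,k17)],[(k2,k16),(k3,k16),(k4,k16),(k5,k16),(k6,k16),(k7,k16),(k9,k16),(k0,
    k17)],[(k2,k16),(k3,k16),(k4,k16),(k5,k16),(k6,k16),(k7,k16),(k9,k16),(k0,k17)],[(k2,k16),(k3,k16),(k4,k16),(k5,
    k16),(k6,k16),(k7,k16),(k9,k16),(k0,k17)],[(k2,k16),(k3,k16),(k4,k16),(k5,k16),(k6,k16),(k7,k16),(k9,k16),(k0,
    k17)],[(k2,k16),(k3,k16),(k4,k16),(k5,k16),(k6,k16),(k7,k16),(k9,k16),(k0,k17)],[(k10,k14),(k11,k14),(k8,k16),(k1,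
    k17)],[(k10,k12),(k11,k12),(k8,k14),(k1,k15)],[(k10,k12),(k11,k12),(k8,k14),(k1,k15)]]
    [[k1,k0,k0,k0,k1,k1],[k0,k0,k0,k0,k2,k1],[k0,k0,k0,k0,k0,k3]]
    [.ref k3 k0 [(z2,[z4,z3,z1,z2,z4,y4]),(z2,[y2,z0,z1,y1,y2,z2]),(z2,[z4,z0,z1,z5,z4,y4]),(z1,[y4,z0,y1,y2,y1,z4]),
    (z2,[z10,y3,z1,z2,z4,y4])],.ref k3 k0 [(z2,[z2,z5,z1,z2,z4,y4]),(z2,[y1,y1,z1,y1,y2,z2]),(z2,[z2,z2,z1,z5,z4,y4]),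
    (z1,[y2,y2,y1,y2,y1,z4]),(z2,[z5,z2,z1,z2,z4,y4])],.ref k3 k0 [(z2,[y1,z3]),(z4,[z1,z0,z3]),(z2,[y1,z0,z0,z3]),
    (z1,[z1,z0,z0,z0,z3]),(z4,[y5,y6,y3,y6,y12,z12])]],
    .lp k0 [k120,k112,k112,k112,k126,k84] [k3,k3,k7,k7,k7,k7,k7,k7,k0,k0,k21,k21] k0 [[k0,k0,k14,k0,k0,k0,k0,k0,k0,k0,
    k0,k0],[k14,k0,k0,k0,k0,k0,k0,k0,k0,k0,k0,k0],[k0,k0,k0,k0,k0,k0,k0,k0,k0,k0,k0,k0],[k0,k14,k0,k0,k0,k0,k14,k0,k0,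
    k0,k0,k0],[k0,k0,k0,k0,k0,k0,k0,k0,k0,k0,k0,k0],[k0,k0,k0,k0,k0,k0,k0,k0,k0,k0,k0,k0],[k0,k0,k0,k0,k0,k0,k0,k0,k0,
    k0,k0,k0],[k0,k0,k14,k0,k0,k0,k0,k0,k0,k0,k0,k0],[k0,k0,k0,k0,k0,k0,k0,k0,k0,k0,k0,k0],[k0,k0,k0,k0,k0,k0,k0,k0,
    k0,k0,k0,k0],[k0,k0,k0,k0,k0,k0,k0,k0,k0,k0,k0,k0],[k0,k0,k0,k0,k0,k0,k0,k0,k0,k0,k0,k0]] (nat_lit 336) k5
    [[(k10,k102),(k11,k102),(k1,k120),(k8,k123)],[(k5,k102),(k2,k116),(k3,k116),(k4,k116),(k6,k116),(k7,k116),(k9,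
    k123),(k0,k134)],[(k3,k98),(k4,k112),(k5,k112),(k6,k112),(k7,k112),(k0,k116),(k9,k119),(k2,k126)],[(k2,k112),(k4,
    k112),(k5,k112),(k7,k112),(k0,k116),(k9,k119),(k3,k126),(k6,k126)],[(k0,k102),(k9,k105),(k2,k112),(k3,k112),(k4,
    k112),(k5,k112),(k6,k112),(k7,k112)],[(k2,k112),(k3,k112),(k4,k112),(k5,k112),(k6,k112),(k7,k112),(k0,k116),(k9,
    k119)],[(k2,k112),(k3,k112),(k4,k112),(k5,k112),(k6,k112),(k7,k112),(k0,k116),(k9,k119)],[(k3,k112),(k4,k112),(k5,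
    k112),(k6,k112),(k7,k112),(k0,k116),(k9,k119),(k2,k126)],[(k5,k105),(k2,k119),(k3,k119),(k4,k119),(k6,k119),(k7,
    k119),(k0,k123),(k9,k126)],[(k10,k105),(k11,k105),(k1,k123),(k8,k126)],[(k10,k84),(k11,k84),(k1,k102),(k8,k105)],
    [(k10,k84),(k11,k84),(k1,k102),(k8,k105)]]
    [[k1,k0,k0,k0,k1,k1],[k0,k2,k1,k0,k0,k0],[k0,k0,k0,k0,k0,k3]]
    [.ref k80 k1 [(z1,[z2,y1]),(z2,[z0,y1,y2,y1,z2]),(z1,[z0,z0,z0,z1]),(z1,[y2,z1,z2])],.ref k168 k0 [(z1,[z0,z1]),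
    (z1,[z2,z0,z0,y1]),(z1,[z0,z0,z0,z1]),(z2,[z0,y1,y2,y1,z2])],.ref k15 k0 [(z2,[y1,z3]),(z1,[y1,z0,z3]),(z2,[y1,z0,
    z0,z3]),(z2,[z2,y3,y6,y3,z6])]],
    .base (.leafM k0 [k0,k1,k2,k3,k4,k5] [(z3,[z0,z1,z1,z1])] []),
    .lp k0 [k90,k78,k78,k90,k60,k80] [k0,k0,k6,k6,k6,k6,k0,k0,k15,k15,k5,k5] k0 [[k0,k0,k6,k6,k0,k0,k0,k0,k0,k0,k0,
    k0],[k0,k0,k0,k0,k0,k0,k0,k0,k0,k0,k0,k0],[k0,k6,k0,k0,k6,k0,k0,k0,k0,k0,k0,k0],[k0,k6,k0,k0,k6,k0,k0,k0,k0,k0,k0,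
    k0],[k0,k0,k0,k0,k0,k0,k0,k0,k0,k0,k0,k0],[k0,k0,k6,k6,k0,k0,k0,k0,k0,k0,k0,k0],[k0,k0,k0,k0,k0,k0,k0,k0,k0,k0,k0,
    k0],[k0,k0,k0,k0,k0,k0,k0,k0,k0,k0,k0,k0],[k0,k0,k0,k0,k0,k0,k0,k0,k0,k0,k0,k0],[k0,k0,k0,k0,k0,k0,k0,k0,k0,k0,k0,
    k0],[k0,k0,k0,k0,k0,k0,k0,k0,k0,k0,k0,k0],[k0,k0,k0,k0,k0,k0,k0,k0,k0,k0,k0,k0]] (nat_lit 240) k5
    [[(k8,k75),(k10,k85),(k11,k85),(k1,k90)],[(k9,k75),(k2,k78),(k5,k78),(k3,k84),(k4,k84),(k0,k90),(k6,k90),(k7,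
    k90)],[(k9,k69),(k3,k78),(k4,k78),(k0,k84),(k2,k84),(k5,k84),(k6,k84),(k7,k84)],[(k9,k69),(k0,k78),(k2,k78),(k5,
    k78),(k7,k78),(k3,k84),(k4,k84),(k6,k84)],[(k9,k69),(k0,k78),(k2,k78),(k5,k78),(k7,k78),(k3,k84),(k4,k84),(k6,
    k84)],[(k9,k69),(k3,k78),(k4,k78),(k0,k84),(k2,k84),(k5,k84),(k6,k84),(k7,k84)],[(k9,k75),(k2,k78),(k5,k78),(k3,
    k84),(k4,k84),(k0,k90),(k6,k90),(k7,k90)],[(k9,k75),(k2,k84),(k3,k84),(k4,k84),(k5,k84),(k0,k90),(k6,k90),(k7,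
    k90)],[(k9,k60),(k2,k69),(k3,k69),(k4,k69),(k5,k69),(k0,k75),(k6,k75),(k7,k75)],[(k8,k60),(k10,k70),(k11,k70),(k1,
    k75)],[(k8,k70),(k10,k80),(k11,k80),(k1,k85)],[(k8,k70),(k10,k80),(k11,k80),(k1,k85)]]
    [[k1,k1,k0,k0,k1,k0],[k1,k0,k1,k0,k1,k0],[k1,k0,k0,k0,k1,k1],[k0,k1,k0,k0,k2,k0],[k0,k0,k1,k0,k2,k0],[k0,k0,k0,k1,
    k2,k0],[k0,k0,k0,k0,k2,k1]]
    [.ref k3 k0 [(z1,[z0,z1]),(z1,[y6,z2,z1]),(z3,[z9,y3,y1,z1]),(z3,[y18,z6,z2,z0,z1]),(z1,[z9,y3,y1])],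
    .ref k3 k0 [(z1,[z0,z1]),(z6,[y9,z3,z2,z1]),(z4,[z3,y1,z0,z1]),(z6,[y9,z3,z0,z1,z2]),(z4,[z9,y3,z0,y1])],
    .ref k3 k0 [(z1,[z0,z1]),(z9,[y18,z0,z1,y2,y2,z18]),(z9,[z9,z0,z1,z4,z1,y9]),(z9,[y18,z0,y2,y2,z1,z18]),(z3,[z9,
    z0,z1,z1,z1,y9])],.ref k3 k0 [(z1,[z0,z1]),(z2,[y3,z0,z1]),(z12,[z9,z0,y1,z4]),(z6,[y9,z0,z1,z0,z2]),(z4,[z9,z0,
    y1])],.ref k3 k0 [(z1,[z0,z1]),(z21,[y18,z0,z7,z2]),(z7,[z3,z0,z0,z2]),(z21,[y18,z0,z0,z2,z7]),(z7,[z9,z0,z0,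
    y1])],.ref k3 k0 [(z1,[z0,z1]),(z6,[y9,z0,z2,z0,z1]),(z12,[z9,z0,z0,z4,y1]),(z2,[y3,z0,z0,z0,z1]),(z4,[z9,z0,z0,
    z0,y1])],.ref k3 k0 [(z1,[z0,z1]),(z9,[y9,y3,z2,y1,y1,z9]),(z18,[z9,z3,z1,z7,z1,y9]),(z9,[y9,y3,y1,y1,z2,z9]),(z6,
    [z9,z3,z1,z1,z1,y9])]],
    .lp k0 [k18,k16,k16,k16,k16,k12] [k0,k0,k1,k1,k1,k1,k1,k1,k1,k1,k3,k3] k0 [[k0,k0,k0,k0,k0,k0,k0,k0,k0,k0,k0,k0],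
    [k0,k0,k0,k0,k0,k0,k0,k0,k0,k0,k0,k0],[k0,k0,k0,k0,k0,k0,k0,k0,k0,k0,k0,k0],[k0,k0,k0,k0,k0,k0,k0,k0,k0,k0,k0,k0],
    [k0,k0,k0,k0,k0,k0,k0,k0,k0,k0,k0,k0],[k0,k0,k0,k0,k0,k0,k0,k0,k0,k0,k0,k0],[k0,k0,k0,k0,k0,k0,k0,k0,k0,k0,k0,k0],
    [k0,k0,k0,k0,k0,k0,k0,k0,k0,k0,k0,k0],[k0,k0,k0,k0,k0,k0,k0,k0,k0,k0,k0,k0],[k0,k0,k0,k0,k0,k0,k0,k0,k0,k0,k0,k0],
    [k0,k0,k0,k0,k0,k0,k0,k0,k0,k0,k0,k0],[k0,k0,k0,k0,k0,k0,k0,k0,k0,k0,k0,k0]] k48 k5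
    [[(k10,k15),(k11,k15),(k8,k17),(k1,k18)],[(k2,k17),(k3,k17),(k4,k17),(k5,k17),(k6,k17),(k7,k17),(k9,k17),(k0,
    k18)],[(k2,k16),(k3,k16),(k4,k16),(k5,k16),(k6,k16),(k7,k16),(k9,k16),(k0,k17)],[(k2,k16),(k3,k16),(k4,k16),(k5,
    k16),(k6,k16),(k7,k16),(k9,k16),(k0,k17)],[(k2,k16),(k3,k16),(k4,k16),(k5,k16),(k6,k16),(k7,k16),(k9,k16),(k0,
    k17)],[(k2,k16),(k3,k16),(k4,k16),(k5,k16),(k6,k16),(k7,k16),(k9,k16),(k0,k17)],[(k2,k16),(k3,k16),(k4,k16),(k5,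
    k16),(k6,k16),(k7,k16),(k9,k16),(k0,k17)],[(k2,k16),(k3,k16),(k4,k16),(k5,k16),(k6,k16),(k7,k16),(k9,k16),(k0,
    k17)],[(k2,k16),(k3,k16),(k4,k16),(k5,k16),(k6,k16),(k7,k16),(k9,k16),(k0,k17)],[(k10,k14),(k11,k14),(k8,k16),(k1,
    k17)],[(k10,k12),(k11,k12),(k8,k14),(k1,k15)],[(k10,k12),(k11,k12),(k8,k14),(k1,k15)]]
    [[k1,k0,k0,k0,k1,k1],[k0,k0,k0,k0,k2,k1],[k0,k0,k0,k0,k0,k3]]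
    [.ref k170 k0 [(z1,[z0,z1]),(z1,[y2,z1,z1]),(z2,[z2,y1,z0,z1]),(z2,[y4,y1,y2,y1,z6])],.ref k170 k0 [(z1,[z0,z1]),
    (z1,[y1,z0,z1]),(z2,[z1,z0,z0,z1]),(z2,[y2,y3,y2,y1,z6])],.ref k171 k0 [(z2,[y1,z3]),(z1,[y1,z0,z3]),(z2,[z1,z0,
    z0,z3]),(z2,[y2,y9,y6,y3,z18])]],
    .lp k0 [k138,k186,k156,k168,k144,k160] [k28,k28,k0,k8,k19,k19,k13,k13,k25,k25,k21,k13] k0 [[k0,k12,k0,k0,k0,k0,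
    k18,k0,k0,k0,k0,k0],[k0,k0,k18,k0,k0,k30,k6,k0,k0,k0,k0,k0],[k0,k0,k0,k0,k12,k0,k12,k60,k0,k0,k0,k0],[k18,k0,k0,
    k0,k12,k0,k0,k0,k0,k0,k0,k0],[k30,k0,k0,k0,k0,k0,k24,k24,k0,k0,k0,k0],[k0,k0,k12,k12,k0,k0,k0,k0,k0,k0,k0,k0],[k0,
    k0,k0,k60,k0,k24,k0,k0,k0,k0,k0,k0],[k6,k18,k0,k12,k0,k24,k0,k0,k0,k0,k0,k0],[k0,k0,k0,k0,k0,k0,k0,k0,k0,k0,k0,
    k0],[k0,k0,k0,k0,k0,k0,k0,k0,k0,k0,k32,k0],[k0,k0,k0,k0,k0,k0,k0,k0,k0,k0,k0,k0],[k0,k0,k0,k0,k0,k0,k0,k0,k32,k0,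
    k0,k0]] (nat_lit 480) k5
    [[(k11,k121),(k1,k138),(k8,k141),(k10,k145)],[(k9,k123),(k0,k126),(k4,k147),(k5,k147),(k3,k158),(k6,k159),(k7,
    k183),(k2,k184)],[(k4,k137),(k5,k149),(k9,k155),(k0,k158),(k7,k173),(k2,k186),(k3,k190),(k6,k191)],[(k6,k121),(k9,
    k157),(k7,k169),(k5,k175),(k0,k184),(k3,k186),(k4,k187),(k2,k194)],[(k0,k147),(k3,k149),(k7,k150),(k5,k156),(k4,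
    k168),(k6,k174),(k2,k175),(k9,(nat_lit 210))],[(k9,k126),(k3,k137),(k6,k138),(k0,k147),(k4,k156),(k7,k162),(k5,
    k168),(k2,k187)],[(k5,k150),(k4,k162),(k7,k168),(k2,k169),(k3,k173),(k9,k180),(k0,k183),(k6,k192)],[(k2,k121),(k4,
    k138),(k9,k156),(k0,k159),(k6,k168),(k5,k174),(k3,k191),(k7,k192)],[(k0,k123),(k4,k126),(k9,k144),(k3,k155),(k6,
    k156),(k2,k157),(k7,k180),(k5,(nat_lit 210))],[(k1,k141),(k8,k144),(k11,k156),(k10,k180)],[(k1,k121),(k8,k156),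
    (k10,k160),(k11,k168)],[(k1,k145),(k10,k152),(k11,k160),(k8,k180)]]
    [[k2,k0,k1,k0,k0,k0],[k1,k1,k0,k0,k1,k0],[k1,k0,k1,k0,k1,k0],[k2,k0,k0,k0,k0,k1],[k1,k0,k0,k0,k1,k1],[k0,k1,k1,k1,
    k0,k0],[k0,k1,k0,k0,k2,k0],[k0,k0,k2,k1,k0,k0]]
    [.ref k12 k1 [(z1,[z0,y1,y2,z2]),(z1,[z2,z1]),(z1,[z1])],.ref k166 k1 [(z1,[z0,y1,y2,z2]),(z1,[y2,z1,z0,z2]),(z1,
    [y2,y1,z0,z2])],.ref k121 k1 [(z1,[z0,y1,y2,z2]),(z1,[z1,z1,z1,y1]),(z1,[z2,z1,z2,y2])],.ref k167 k1 [(z1,[z0,y1,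
    y2,z2]),(z1,[y1,z1,z1]),(z1,[z0,z0,z1])],.ref k167 k1 [(z1,[z0,y1,y2,z2]),(z1,[y2,z0,y1,z2]),(z1,[z0,z0,z1])],
    .ref k167 k1 [(z1,[z0,y1,y2,z2]),(z1,[z2,z0,y1]),(z1,[z0,z0,z1])],.ref k169 k1 [(z1,[z0,y1,y2,z2]),(z2,[y1,z0,y1,
    z2]),(z1,[y1,y1,y1,z2])],.ref k172 k1 [(z1,[z0,y1,y2,z2]),(z1,[z1,z1]),(z1,[z2,y1])]],
    .lp k0 [k146,k176,k158,k170,k146,k160] [k15,k15,k0,k0,k9,k9,k3,k3,k15,k15,k8,k8] k0 [[k0,k0,k0,k0,k0,k0,k0,k0,k0,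
    k0,k0,k0],[k0,k0,k12,k0,k0,k18,k0,k0,k0,k0,k0,k0],[k0,k0,k0,k0,k6,k0,k0,k36,k0,k0,k0,k0],[k12,k0,k0,k0,k6,k0,k0,
    k0,k0,k0,k0,k0],[k18,k0,k0,k0,k0,k0,k6,k18,k0,k0,k0,k0],[k0,k0,k6,k6,k0,k0,k0,k0,k0,k0,k0,k0],[k0,k0,k0,k36,k0,
    k18,k0,k0,k0,k0,k0,k0],[k0,k0,k0,k0,k0,k6,k0,k0,k0,k0,k0,k0],[k0,k0,k0,k0,k0,k0,k0,k0,k0,k0,k0,k28],[k0,k0,k0,k0,
    k0,k0,k0,k0,k0,k0,k0,k0],[k0,k0,k0,k0,k0,k0,k0,k0,k0,k28,k0,k0],[k0,k0,k0,k0,k0,k0,k0,k0,k0,k0,k0,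
    k0]] (nat_lit 480) k5
    [[(k1,k146),(k8,k146),(k10,k153),(k11,k181)],[(k0,k146),(k9,k146),(k4,k152),(k5,k152),(k6,k158),(k3,k161),(k2,
    k173),(k7,k176)],[(k4,k149),(k5,k155),(k0,k161),(k9,k161),(k6,k173),(k7,k173),(k2,k176),(k3,k176)],[(k6,k137),(k9,
    k161),(k5,k167),(k7,k167),(k0,k173),(k4,k173),(k2,k176),(k3,k176)],[(k0,k152),(k3,k155),(k5,k158),(k7,k158),(k4,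
    k164),(k6,k164),(k2,k167),(k9,k188)],[(k6,k146),(k9,k146),(k3,k149),(k0,k152),(k4,k158),(k5,k164),(k7,k164),(k2,
    k173)],[(k5,k158),(k4,k164),(k2,k167),(k7,k170),(k3,k173),(k0,k176),(k6,k176),(k9,k176)],[(k2,k137),(k4,k146),(k0,
    k158),(k9,k158),(k5,k164),(k6,k170),(k3,k173),(k7,k176)],[(k0,k146),(k4,k146),(k9,k146),(k6,k158),(k2,k161),(k3,
    k161),(k7,k176),(k5,k188)],[(k10,k125),(k1,k146),(k8,k146),(k11,k153)],[(k8,k153),(k10,k160),(k11,k160),(k1,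
    k181)],[(k8,k125),(k1,k153),(k10,k160),(k11,k160)]]
    [[k2,k0,k1,k0,k0,k0],[k1,k1,k0,k0,k1,k0],[k1,k0,k1,k0,k1,k0],[k1,k0,k0,k0,k1,k1],[k0,k1,k1,k1,k0,k0],[k0,k1,k0,k0,
    k2,k0],[k0,k0,k2,k1,k0,k0],[k0,k0,k0,k0,k2,k1]]
    [.ref k155 k0 [(z1,[z1,z1]),(z1,[y2,z1,z3])],.ref k87 k1 [(z1,[z1]),(z1,[y2,z1,z1])],.ref k160 k1 [(z1,[z2,z1,
    y1]),(z1,[y1,z0,z1])],.ref k161 k1 [(z1,[z1]),(z1,[y2,z1,z1])],.ref k161 k1 [(z1,[y1,z0,z1]),(z1,[z2,z1,y1])],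
    .ref k140 k1 [(z1,[z1]),(z2,[y1,z1,z1])],.ref k163 k0 [(z1,[z1,z2]),(z1,[y1,y1,z1])],.ref k173 k0 [(z1,[y1,z2]),
    (z1,[z0,y1,z1])]],
    .lp k0 [k16,k16,k16,k16,k18,k12] [k1,k1,k1,k1,k1,k1,k1,k1,k0,k0,k3,k3] k0 [[k0,k0,k0,k0,k0,k0,k0,k0,k0,k0,k0,k0],
    [k0,k0,k0,k0,k0,k0,k0,k0,k0,k0,k0,k0],[k0,k0,k0,k0,k0,k0,k0,k0,k0,k0,k0,k0],[k0,k0,k0,k0,k0,k0,k0,k0,k0,k0,k0,k0],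
    [k0,k0,k0,k0,k0,k0,k0,k0,k0,k0,k0,k0],[k0,k0,k0,k0,k0,k0,k0,k0,k0,k0,k0,k0],[k0,k0,k0,k0,k0,k0,k0,k0,k0,k0,k0,k0],
    [k0,k0,k0,k0,k0,k0,k0,k0,k0,k0,k0,k0],[k0,k0,k0,k0,k0,k0,k0,k0,k0,k0,k0,k0],[k0,k0,k0,k0,k0,k0,k0,k0,k0,k0,k0,k0],
    [k0,k0,k0,k0,k0,k0,k0,k0,k0,k0,k0,k0],[k0,k0,k0,k0,k0,k0,k0,k0,k0,k0,k0,k0]] k48 k5
    [[(k10,k14),(k11,k14),(k1,k16),(k8,k17)],[(k0,k16),(k2,k16),(k3,k16),(k4,k16),(k5,k16),(k6,k16),(k7,k16),(k9,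
    k17)],[(k0,k16),(k2,k16),(k3,k16),(k4,k16),(k5,k16),(k6,k16),(k7,k16),(k9,k17)],[(k0,k16),(k2,k16),(k3,k16),(k4,
    k16),(k5,k16),(k6,k16),(k7,k16),(k9,k17)],[(k0,k16),(k2,k16),(k3,k16),(k4,k16),(k5,k16),(k6,k16),(k7,k16),(k9,
    k17)],[(k0,k16),(k2,k16),(k3,k16),(k4,k16),(k5,k16),(k6,k16),(k7,k16),(k9,k17)],[(k0,k16),(k2,k16),(k3,k16),(k4,
    k16),(k5,k16),(k6,k16),(k7,k16),(k9,k17)],[(k0,k16),(k2,k16),(k3,k16),(k4,k16),(k5,k16),(k6,k16),(k7,k16),(k9,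
    k17)],[(k0,k17),(k2,k17),(k3,k17),(k4,k17),(k5,k17),(k6,k17),(k7,k17),(k9,k18)],[(k10,k15),(k11,k15),(k1,k17),(k8,
    k18)],[(k10,k12),(k11,k12),(k1,k14),(k8,k15)],[(k10,k12),(k11,k12),(k1,k14),(k8,k15)]]
    [[k2,k0,k0,k0,k0,k1],[k1,k0,k0,k0,k1,k1],[k0,k0,k0,k0,k0,k3]]
    [.ref k3 k0 [(z1,[z1,z1]),(z1,[y2,z4,z3]),(z1,[z1,y2,z0,z3]),(z2,[y1,z2,z0,z0,z3]),(z2,[y1,y4,y6,y6,y3,z6])],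
    .ref k3 k0 [(z1,[z2,z3,z2,z2,z1,y2]),(z1,[y4,z0,y1,y4,y2,z4]),(z1,[z2,z0,z2,z5,z1,y2]),(z1,[y1,z0,y1,y1,z1,z1]),
    (z1,[y1,y3,y4,y4,y2,z4])],.ref k3 k0 [(z1,[z1,z3]),(z1,[y2,z0,z3]),(z1,[z1,z0,z0,z3]),(z2,[y1,z0,z0,z0,z3]),(z2,
    [y1,y6,y6,y6,y3,z6])]],
    .lp k0 [k120,k112,k112,k112,k126,k84] [k3,k3,k7,k7,k7,k7,k7,k7,k0,k0,k21,k21] k0 [[k0,k0,k14,k0,k0,k0,k0,k0,k0,k0,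
    k0,k0],[k14,k0,k0,k0,k0,k0,k0,k0,k0,k0,k0,k0],[k0,k0,k0,k0,k0,k0,k0,k0,k0,k0,k0,k0],[k0,k14,k0,k0,k0,k0,k14,k0,k0,
    k0,k0,k0],[k0,k0,k0,k0,k0,k0,k0,k0,k0,k0,k0,k0],[k0,k0,k0,k0,k0,k0,k0,k0,k0,k0,k0,k0],[k0,k0,k0,k0,k0,k0,k0,k0,k0,
    k0,k0,k0],[k0,k0,k14,k0,k0,k0,k0,k0,k0,k0,k0,k0],[k0,k0,k0,k0,k0,k0,k0,k0,k0,k0,k0,k0],[k0,k0,k0,k0,k0,k0,k0,k0,
    k0,k0,k0,k0],[k0,k0,k0,k0,k0,k0,k0,k0,k0,k0,k0,k0],[k0,k0,k0,k0,k0,k0,k0,k0,k0,k0,k0,k0]] (nat_lit 336) k5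
    [[(k10,k102),(k11,k102),(k1,k120),(k8,k123)],[(k5,k102),(k2,k116),(k3,k116),(k4,k116),(k6,k116),(k7,k116),(k9,
    k123),(k0,k134)],[(k3,k98),(k4,k112),(k5,k112),(k6,k112),(k7,k112),(k0,k116),(k9,k119),(k2,k126)],[(k2,k112),(k4,
    k112),(k5,k112),(k7,k112),(k0,k116),(k9,k119),(k3,k126),(k6,k126)],[(k0,k102),(k9,k105),(k2,k112),(k3,k112),(k4,
    k112),(k5,k112),(k6,k112),(k7,k112)],[(k2,k112),(k3,k112),(k4,k112),(k5,k112),(k6,k112),(k7,k112),(k0,k116),(k9,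
    k119)],[(k2,k112),(k3,k112),(k4,k112),(k5,k112),(k6,k112),(k7,k112),(k0,k116),(k9,k119)],[(k3,k112),(k4,k112),(k5,
    k112),(k6,k112),(k7,k112),(k0,k116),(k9,k119),(k2,k126)],[(k5,k105),(k2,k119),(k3,k119),(k4,k119),(k6,k119),(k7,
    k119),(k0,k123),(k9,k126)],[(k10,k105),(k11,k105),(k1,k123),(k8,k126)],[(k10,k84),(k11,k84),(k1,k102),(k8,k105)],
    [(k10,k84),(k11,k84),(k1,k102),(k8,k105)]]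
    [[k1,k0,k0,k0,k1,k1],[k0,k2,k1,k0,k0,k0],[k0,k0,k0,k0,k0,k3]]
    [.ref k2 k0 [(z1,[z0,z1]),(z2,[y2,z1,z1]),(z1,[z0,z0,z0,z1]),(z2,[z0,y1,y1,y2,z2])],.ref k175 k1 [(z2,[y1,z0,z1,
    z1]),(z2,[z0,y1,y1,y2,z2]),(z1,[z0,z0,z0,z1]),(z1,[z1,z0,z0,y1])],.ref k15 k0 [(z2,[y1,z3]),(z2,[z1,z0,z3]),(z1,
    [z1,z0,z0,z3]),(z2,[y4,y3,y3,y6,z6])]],
    .lp k0 [k84,k82,k78,k92,k60,k80] [k4,k4,k5,k5,k4,k10,k0,k0,k16,k16,k6,k6] k0 [[k0,k0,k6,k2,k0,k0,k0,k0,k0,k0,k0,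
    k0],[k0,k0,k0,k0,k0,k4,k0,k16,k0,k0,k0,k0],[k0,k2,k0,k0,k6,k0,k6,k0,k0,k0,k0,k0],[k0,k6,k0,k0,k6,k0,k0,k0,k0,k0,
    k0,k0],[k4,k0,k0,k0,k0,k0,k12,k28,k0,k0,k0,k0],[k0,k0,k6,k6,k0,k0,k0,k0,k0,k0,k0,k0],[k16,k0,k0,k0,k0,k28,k0,k0,
    k0,k0,k0,k0],[k0,k0,k0,k6,k0,k12,k0,k0,k0,k0,k0,k0],[k0,k0,k0,k0,k0,k0,k0,k0,k0,k0,k0,k0],[k0,k0,k0,k0,k0,k0,k0,
    k0,k0,k0,k0,k0],[k0,k0,k0,k0,k0,k0,k0,k0,k0,k0,k0,k0],[k0,k0,k0,k0,k0,k0,k0,k0,k0,k0,k0,k0]] (nat_lit 240) k5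
    [[(k8,k72),(k10,k82),(k11,k82),(k1,k84)],[(k5,k72),(k2,k81),(k3,k83),(k0,k84),(k4,k84),(k6,k88),(k9,k88),(k7,
    k92)],[(k6,k71),(k9,k71),(k4,k79),(k5,k79),(k3,k82),(k0,k83),(k7,k87),(k2,k88)],[(k9,k65),(k5,k77),(k0,k81),(k7,
    k81),(k2,k82),(k6,k87),(k3,k88),(k4,k89)],[(k9,k66),(k0,k72),(k5,k72),(k7,k76),(k2,k77),(k3,k79),(k4,k84),(k6,
    k88)],[(k6,k60),(k9,k60),(k3,k79),(k0,k84),(k4,k84),(k5,k84),(k7,k88),(k2,k89)],[(k5,k76),(k2,k81),(k3,k87),(k4,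
    k88),(k0,k92),(k7,k92),(k6,k104),(k9,k104)],[(k4,k60),(k3,k71),(k9,k76),(k2,k87),(k0,k88),(k5,k88),(k6,k92),(k7,
    k104)],[(k4,k60),(k9,k60),(k2,k65),(k5,k66),(k3,k71),(k6,k76),(k0,k88),(k7,k104)],[(k8,k60),(k10,k70),(k11,k70),
    (k1,k72)],[(k8,k70),(k10,k80),(k11,k80),(k1,k82)],[(k8,k70),(k10,k80),(k11,k80),(k1,k82)]]
    [[k1,k1,k0,k0,k1,k0],[k1,k0,k1,k0,k1,k0],[k0,k1,k1,k1,k0,k0],[k0,k1,k0,k0,k2,k0],[k0,k0,k2,k1,k0,k0],[k0,k0,k1,k0,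
    k2,k0],[k0,k0,k0,k0,k2,k1]]
    [.ref k176 k0 [(z1,[z0,z1]),(z1,[z2,y1]),(z2,[z0,y1,y1,z2])],.ref k1 k0 [(z1,[z0,z1]),(z1,[y1,z0,z0,z1]),(z2,[z0,
    y1,y1,z2])],.ref k1 k0 [(z1,[z0,z1]),(z2,[z2,z1,z1,y2]),(z2,[z0,y1,y1,z2])],.ref k142 k0 [(z1,[z0,z1]),(z1,[z1]),
    (z2,[z0,y1,y1,z2])],.ref k176 k0 [(z1,[z0,z1]),(z1,[y2,y2,y1,z4]),(z2,[z0,y1,y1,z2])],.ref k1 k0 [(z1,[z0,z1]),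
    (z4,[y2,y1,z1,z2]),(z2,[z0,y1,y1,z2])],.ref k1 k0 [(z1,[z0,z1]),(z2,[y1,z0,z1]),(z2,[z0,y1,y1,z2])]],
    .base (.leafM k0 [k0,k1,k2,k3,k4,k5] [(z1,[z0,z1])] []),
    .lp k0 [k146,k176,k158,k170,k146,k160] [k15,k15,k0,k0,k9,k9,k3,k3,k15,k15,k8,k8] k0 [[k0,k0,k0,k0,k0,k0,k0,k0,k0,
    k0,k0,k0],[k0,k0,k12,k0,k0,k18,k0,k0,k0,k0,k0,k0],[k0,k0,k0,k0,k6,k0,k0,k36,k0,k0,k0,k0],[k12,k0,k0,k0,k6,k0,k0,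
    k0,k0,k0,k0,k0],[k18,k0,k0,k0,k0,k0,k6,k18,k0,k0,k0,k0],[k0,k0,k6,k6,k0,k0,k0,k0,k0,k0,k0,k0],[k0,k0,k0,k36,k0,
    k18,k0,k0,k0,k0,k0,k0],[k0,k0,k0,k0,k0,k6,k0,k0,k0,k0,k0,k0],[k0,k0,k0,k0,k0,k0,k0,k0,k0,k0,k0,k28],[k0,k0,k0,k0,
    k0,k0,k0,k0,k0,k0,k0,k0],[k0,k0,k0,k0,k0,k0,k0,k0,k0,k28,k0,k0],[k0,k0,k0,k0,k0,k0,k0,k0,k0,k0,k0,
    k0]] (nat_lit 480) k5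
    [[(k1,k146),(k8,k146),(k10,k153),(k11,k181)],[(k0,k146),(k9,k146),(k4,k152),(k5,k152),(k6,k158),(k3,k161),(k2,
    k173),(k7,k176)],[(k4,k149),(k5,k155),(k0,k161),(k9,k161),(k6,k173),(k7,k173),(k2,k176),(k3,k176)],[(k6,k137),(k9,
    k161),(k5,k167),(k7,k167),(k0,k173),(k4,k173),(k2,k176),(k3,k176)],[(k0,k152),(k3,k155),(k5,k158),(k7,k158),(k4,
    k164),(k6,k164),(k2,k167),(k9,k188)],[(k6,k146),(k9,k146),(k3,k149),(k0,k152),(k4,k158),(k5,k164),(k7,k164),(k2,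
    k173)],[(k5,k158),(k4,k164),(k2,k167),(k7,k170),(k3,k173),(k0,k176),(k6,k176),(k9,k176)],[(k2,k137),(k4,k146),(k0,
    k158),(k9,k158),(k5,k164),(k6,k170),(k3,k173),(k7,k176)],[(k0,k146),(k4,k146),(k9,k146),(k6,k158),(k2,k161),(k3,
    k161),(k7,k176),(k5,k188)],[(k10,k125),(k1,k146),(k8,k146),(k11,k153)],[(k8,k153),(k10,k160),(k11,k160),(k1,
    k181)],[(k8,k125),(k1,k153),(k10,k160),(k11,k160)]]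
    [[k2,k0,k1,k0,k0,k0],[k1,k1,k0,k0,k1,k0],[k1,k0,k1,k0,k1,k0],[k1,k0,k0,k0,k1,k1],[k0,k1,k1,k1,k0,k0],[k0,k1,k0,k0,
    k2,k0],[k0,k0,k2,k1,k0,k0],[k0,k0,k0,k0,k2,k1]]
    [.ref k177 k0 [(z1,[z0,z1]),(z1,[y2,z1,z2])],.ref k93 k0 [(z1,[z0,z1]),(z1,[z2,y1])],.ref k101 k0 [(z1,[z0,z1]),
    (z1,[y1,z0,z1])],.ref k178 k0 [(z1,[z0,z1]),(z1,[y1,z0,z1])],.ref k178 k0 [(z1,[z0,z1]),(z1,[z1])],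
    .ref k143 k0 [(z1,[z0,z1]),(z1,[z1])],.ref k173 k1 [(z1,[y2,y1,z2]),(z1,[z1])],.ref k178 k0 [(z1,[z0,z1]),(z2,[y1,
    y1,z2])]]]

theorem hB6_104_14 : blkB [0, 0, 0, 0, 1, 1] [] sp6 hS6_104 (pcls (n := 6) [0, 0, 0, 0, 1, 1]) hD6_104 181 14 hN6_104_14 = true := by
  decide +kernel

/-- nodes 180 to 180 -/
noncomputable def hN6_104_15 : List HM :=
  [.lp k0 [k146,k176,k158,k170,k146,k160] [k15,k15,k0,k0,k9,k9,k3,k3,k15,k15,k8,k8] k0 [[k0,k0,k0,k0,k0,k0,k0,k0,k0,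
    k0,k0,k0],[k0,k0,k12,k0,k0,k18,k0,k0,k0,k0,k0,k0],[k0,k0,k0,k0,k6,k0,k0,k36,k0,k0,k0,k0],[k12,k0,k0,k0,k6,k0,k0,
    k0,k0,k0,k0,k0],[k18,k0,k0,k0,k0,k0,k6,k18,k0,k0,k0,k0],[k0,k0,k6,k6,k0,k0,k0,k0,k0,k0,k0,k0],[k0,k0,k0,k36,k0,
    k18,k0,k0,k0,k0,k0,k0],[k0,k0,k0,k0,k0,k6,k0,k0,k0,k0,k0,k0],[k0,k0,k0,k0,k0,k0,k0,k0,k0,k0,k0,k28],[k0,k0,k0,k0,
    k0,k0,k0,k0,k0,k0,k0,k0],[k0,k0,k0,k0,k0,k0,k0,k0,k0,k28,k0,k0],[k0,k0,k0,k0,k0,k0,k0,k0,k0,k0,k0,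
    k0]] (nat_lit 480) k5
    [[(k1,k146),(k8,k146),(k10,k153),(k11,k181)],[(k0,k146),(k9,k146),(k4,k152),(k5,k152),(k6,k158),(k3,k161),(k2,
    k173),(k7,k176)],[(k4,k149),(k5,k155),(k0,k161),(k9,k161),(k6,k173),(k7,k173),(k2,k176),(k3,k176)],[(k6,k137),(k9,
    k161),(k5,k167),(k7,k167),(k0,k173),(k4,k173),(k2,k176),(k3,k176)],[(k0,k152),(k3,k155),(k5,k158),(k7,k158),(k4,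
    k164),(k6,k164),(k2,k167),(k9,k188)],[(k6,k146),(k9,k146),(k3,k149),(k0,k152),(k4,k158),(k5,k164),(k7,k164),(k2,
    k173)],[(k5,k158),(k4,k164),(k2,k167),(k7,k170),(k3,k173),(k0,k176),(k6,k176),(k9,k176)],[(k2,k137),(k4,k146),(k0,
    k158),(k9,k158),(k5,k164),(k6,k170),(k3,k173),(k7,k176)],[(k0,k146),(k4,k146),(k9,k146),(k6,k158),(k2,k161),(k3,
    k161),(k7,k176),(k5,k188)],[(k10,k125),(k1,k146),(k8,k146),(k11,k153)],[(k8,k153),(k10,k160),(k11,k160),(k1,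
    k181)],[(k8,k125),(k1,k153),(k10,k160),(k11,k160)]]
    [[k2,k0,k1,k0,k0,k0],[k1,k1,k0,k0,k1,k0],[k1,k0,k1,k0,k1,k0],[k1,k0,k0,k0,k1,k1],[k0,k1,k1,k1,k0,k0],[k0,k1,k0,k0,
    k2,k0],[k0,k0,k2,k1,k0,k0],[k0,k0,k0,k0,k2,k1]]
    [.ref k40 k0 [(z1,[z1])],.ref k94 k1 [(z1,[z1])],.ref k109 k0 [(z1,[z1])],.ref k110 k0 [(z1,[z1])],
    .ref k110 k0 [(z1,[y1,z1])],.ref k144 k1 [(z1,[z1])],.ref k174 k1 [(z1,[y1,z1])],.ref k179 k1 [(z1,[z1])]]]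

theorem hB6_104_15 : blkB [0, 0, 0, 0, 1, 1] [] sp6 hS6_104 (pcls (n := 6) [0, 0, 0, 0, 1, 1]) hD6_104 181 15 hN6_104_15 = true := by
  decide +kernel

end Pool.Agent.Lib_MP_fa6e45
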