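import Pool.Agent.Lib_MP_fa6e45.HK

/-!
MP_fa6e45_co, stage 4: certificates (captain, generated by a program).
-/

namespace Pool.Agent.Lib_MP_fa6e45

/-- nodes 0 to 11 -/
noncomputable def hN6_105_0 : List HM :=
  [.base (.leafM k11 [k1,k2,k3,k5] [(z1,[z0,z0,z1]),(z1,[z0,y1,y1,y1,y3,z3]),(z3,[z0,z1,z0,z1])] [(k4,k0,z1,[z0,z0,z0,
    z0,z1]),(k0,k4,z1,[z0,z0,z0,z0,z1])]),
    .base (.geo z6 k0 [(z4,z0),(z4,z0),(z4,z0),(z1,z0),(z8,z0),(z3,z0)] [(z1,[z2]),(z1,[z0,z2]),(z1,[z0,z0,z2]),(z1,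
    [z0,z0,z0,z1]),(z1,[y2,z0,z0,z0,z6]),(z1,[z0,y2,y2,y1,y6,z6])] k1),
    .lp (nat_lit 65537) [(nat_lit 478),(nat_lit 345),(nat_lit 400),(nat_lit 483),(nat_lit 450),(nat_lit 244)] [k83,
    k83,k191,k108,k122,k122,k0,k161,k97,k97,(nat_lit 200),(nat_lit 200)] k0 [[k0,k0,k183,k73,k55,k0,k0,k0,k0,k0,k0,
    k0],[k0,k0,k0,k0,k27,k0,k0,(nat_lit 292),k0,k0,k0,k0],[k0,k73,k0,k18,k0,k0,k45,k0,k0,k0,k0,k0],[k0,k183,k0,k0,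
    k110,k0,k163,k0,k0,k0,k0,k0],[k0,k0,k0,k0,k0,k18,k181,k0,k0,k0,k0,k0],[k27,k55,k110,k0,k0,k0,k27,k0,k0,k0,k0,k0],
    [(nat_lit 292),k0,k0,k0,k0,k0,k0,k56,k0,k0,k0,k0],[k0,k0,k163,k45,k27,k181,k0,k0,k0,k0,k0,k0],[k0,k0,k0,k0,k0,k0,
    k0,k0,k0,k0,k0,k0],[k0,k0,k0,k0,k0,k0,k0,k0,k0,k0,k0,k0],[k0,k0,k0,k0,k0,k0,k0,k0,k0,k0,k0,k0],[k0,k0,k0,k0,k0,k0,
    k0,k0,k0,k0,k0,k0]] (nat_lit 1200) k6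
    [[(k10,(nat_lit 361)),(k11,(nat_lit 361)),(k8,(nat_lit 464)),(k1,(nat_lit 478))],[(k5,(nat_lit 256)),(k2,
    (nat_lit 297)),(k7,(nat_lit 345)),(k3,(nat_lit 453)),(k4,(nat_lit 466)),(k0,(nat_lit 478)),(k6,(nat_lit 561)),(k9,
    (nat_lit 756))],[(k6,(nat_lit 244)),(k7,(nat_lit 348)),(k3,(nat_lit 428)),(k9,(nat_lit 439)),(k0,(nat_lit 453)),
    (k4,(nat_lit 469)),(k5,(nat_lit 487)),(k2,(nat_lit 528))],[(k2,(nat_lit 244)),(k7,(nat_lit 292)),(k0,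
    (nat_lit 297)),(k9,(nat_lit 311)),(k5,(nat_lit 331)),(k4,(nat_lit 441)),(k3,(nat_lit 528)),(k6,(nat_lit 616))],
    [(k7,(nat_lit 251)),(k0,(nat_lit 256)),(k9,(nat_lit 262)),(k2,(nat_lit 331)),(k4,(nat_lit 400)),(k5,
    (nat_lit 418)),(k3,(nat_lit 487)),(k6,(nat_lit 567))],[(k9,(nat_lit 244)),(k7,(nat_lit 361)),(k4,(nat_lit 382)),
    (k5,(nat_lit 400)),(k2,(nat_lit 441)),(k0,(nat_lit 466)),(k3,(nat_lit 469)),(k6,(nat_lit 549))],[(k5,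
    (nat_lit 251)),(k2,(nat_lit 292)),(k7,(nat_lit 340)),(k0,(nat_lit 345)),(k3,(nat_lit 348)),(k9,(nat_lit 359)),(k4,
    (nat_lit 361)),(k6,(nat_lit 664))],[(k3,(nat_lit 244)),(k9,(nat_lit 547)),(k4,(nat_lit 549)),(k0,(nat_lit 561)),
    (k5,(nat_lit 567)),(k6,(nat_lit 588)),(k2,(nat_lit 616)),(k7,(nat_lit 664))],[(k4,(nat_lit 244)),(k5,
    (nat_lit 262)),(k2,(nat_lit 311)),(k7,(nat_lit 359)),(k3,(nat_lit 439)),(k9,(nat_lit 506)),(k6,(nat_lit 547)),(k0,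
    (nat_lit 756))],[(k10,(nat_lit 347)),(k11,(nat_lit 347)),(k8,(nat_lit 450)),(k1,(nat_lit 464))],[(k10,
    (nat_lit 244)),(k11,(nat_lit 244)),(k8,(nat_lit 347)),(k1,(nat_lit 361))],[(k10,(nat_lit 244)),(k11,
    (nat_lit 244)),(k8,(nat_lit 347)),(k1,(nat_lit 361))]]
    [[k1,k0,k1,k0,k1,k0],[k0,k2,k0,k1,k0,k0],[k0,k2,k0,k2,k0,k0],[k0,k1,k1,k1,k0,k0],[k0,k0,k1,k0,k2,k0],[k0,k0,k0,k0,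
    k0,k3],[k0,k0,k0,k0,k0,k4]]
    [.contra [y3,z2,z0,z1,z3],.contra [y3,z0,z1,y1,y3,z3],.ref k0 k0 [(z1,[z0,z1]),(z1,[z0,z0,z1]),(z1,[z0,z0,z0,z1]),
    (z2,[z3,z0,y2])],.contra [y1,z0,z0,z0,y1,z1],.contra [y3,z2,z0,z1,z6],.contra [y1,z0,y1,y1,y3,z3],.ref k1 k0 [(z1,
    [z0,z1]),(z1,[z0,z0,z1]),(z1,[z0,z0,z0,z1]),(z2,[y3,z0,y4,y4,y12,z12])]],
    .base (.geo z15 k0 [(z10,z0),(z12,z0),(z10,z0),(z6,z0),(z20,z0),(z2,z0)] [(z1,[z5]),(z1,[z0,z3]),(z1,[z0,z0,z5]),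
    (z1,[z0,z0,z0,z3]),(z1,[y5,z0,z0,z0,z15]),(z1,[z0,y3,y5,y3,y15,z15])] k1),
    .lp (nat_lit 65537) [(nat_lit 1161),(nat_lit 943),(nat_lit 800),(nat_lit 657),(nat_lit 755),(nat_lit 484)] [k135,
    k0,(nat_lit 278),k75,(nat_lit 248),(nat_lit 248),(nat_lit 233),(nat_lit 406),(nat_lit 338),(nat_lit 203),
    (nat_lit 406),(nat_lit 406)] k0 [[k0,k0,(nat_lit 361),k143,k143,(nat_lit 361),k0,k0,k0,k0,k0,k0],[k0,k0,k0,k0,k0,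
    k0,k0,(nat_lit 504),k0,k0,k0,k0],[k0,k143,k0,k0,k0,(nat_lit 286),(nat_lit 331),k45,k0,k0,k0,k0],[k0,(nat_lit 361),
    k0,k0,k0,k0,k0,k0,k0,k0,k0,k0],[k0,(nat_lit 361),k0,(nat_lit 286),k0,k0,k0,k0,k0,k0,k0,k0],[k0,k143,k0,k0,k0,k0,
    k143,k45,k0,k0,k0,k0],[(nat_lit 504),k0,k0,k45,k45,k0,k0,k0,k0,k0,k0,k0],[k0,k0,k0,(nat_lit 331),k143,k0,k0,k0,k0,
    k0,k0,k0],[k0,k0,k0,k0,k0,k0,k0,k0,k0,k0,k0,k0],[k0,k0,k0,k0,k0,k0,k0,k0,k0,k0,(nat_lit 406),k0],[k0,k0,k0,k0,k0,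
    k0,k0,k0,k0,k0,k0,k0],[k0,k0,k0,k0,k0,k0,k0,k0,(nat_lit 406),k0,k0,k0]] (nat_lit 2400) k6
    [[(k11,(nat_lit 484)),(k10,(nat_lit 890)),(k8,(nat_lit 958)),(k1,(nat_lit 1296))],[(k4,(nat_lit 552)),(k5,
    (nat_lit 552)),(k7,(nat_lit 612)),(k2,(nat_lit 740)),(k6,(nat_lit 928)),(k0,(nat_lit 1026)),(k3,(nat_lit 1086)),
    (k9,(nat_lit 1462))],[(k6,(nat_lit 484)),(k9,(nat_lit 1018)),(k0,(nat_lit 1086)),(k4,(nat_lit 1116)),(k5,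
    (nat_lit 1116)),(k3,(nat_lit 1146)),(k7,(nat_lit 1176)),(k2,(nat_lit 1304))],[(k4,(nat_lit 484)),(k9,
    (nat_lit 484)),(k7,(nat_lit 612)),(k0,(nat_lit 740)),(k2,(nat_lit 740)),(k6,(nat_lit 740)),(k5,(nat_lit 770)),(k3,
    (nat_lit 1304))],[(k0,(nat_lit 552)),(k2,(nat_lit 770)),(k4,(nat_lit 800)),(k5,(nat_lit 800)),(k9,(nat_lit 890)),
    (k7,(nat_lit 928)),(k3,(nat_lit 1116)),(k6,(nat_lit 1146))],[(k2,(nat_lit 484)),(k0,(nat_lit 552)),(k7,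
    (nat_lit 642)),(k4,(nat_lit 800)),(k5,(nat_lit 800)),(k9,(nat_lit 890)),(k6,(nat_lit 958)),(k3,(nat_lit 1116))],
    [(k7,(nat_lit 484)),(k9,(nat_lit 544)),(k0,(nat_lit 612)),(k2,(nat_lit 612)),(k6,(nat_lit 612)),(k4,
    (nat_lit 642)),(k5,(nat_lit 928)),(k3,(nat_lit 1176))],[(k3,(nat_lit 484)),(k7,(nat_lit 612)),(k2,(nat_lit 740)),
    (k6,(nat_lit 830)),(k9,(nat_lit 860)),(k0,(nat_lit 928)),(k4,(nat_lit 958)),(k5,(nat_lit 1146))],[(k2,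
    (nat_lit 484)),(k7,(nat_lit 544)),(k6,(nat_lit 860)),(k4,(nat_lit 890)),(k5,(nat_lit 890)),(k9,(nat_lit 890)),(k3,
    (nat_lit 1018)),(k0,(nat_lit 1462))],[(k11,(nat_lit 552)),(k8,(nat_lit 620)),(k1,(nat_lit 958)),(k10,
    (nat_lit 958))],[(k1,(nat_lit 484)),(k10,(nat_lit 484)),(k11,(nat_lit 484)),(k8,(nat_lit 552))],[(k10,
    (nat_lit 484)),(k11,(nat_lit 484)),(k1,(nat_lit 890)),(k8,(nat_lit 958))]]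
    [[k0,k2,k0,k2,k0,k0],[k0,k1,k1,k1,k0,k0],[k0,k1,k0,k2,k0,k0],[k0,k1,k0,k3,k0,k0],[k0,k1,k0,k1,k2,k0],[k0,k1,k0,k0,
    k2,k0],[k0,k0,k0,k3,k0,k0],[k0,k0,k0,k1,k2,k0],[k0,k0,k0,k0,k0,k3],[k0,k0,k0,k0,k0,k4]]
    [.contra [y3,z0,z2,y2,y6,z6],.contra [y1,z0,z0,z0,y1,z1],.contra [y3,z0,y1,y2,y6,z6],.ref k3 k0 [(z1,[z0,z1]),(z1,
    [y1,z0,z1,y1,y3,z3]),(z1,[z0,z0,z0,z1]),(z3,[z6,z0,y1,z1,z3,y3])],.contra [z6,z9,y1,z1,y9,y3],.contra [z1,z1,z0,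
    z0,y2],.contra [y1,z0,y1,y1,y3,z3],.contra [z1,z1,z0,z0,y2],.contra [y2,z1,y1,y1,y3,z3],.contra [y3,z1,y2,y2,y6,
    z6]],
    .base (.leafM k11 [k1,k2,k3,k5] [(z1,[z0,z0,z1]),(z1,[z0,y3,y1,y3,z3]),(z1,[z0,z1])] [(k4,k0,z1,[z0,z0,z0,z1]),
    (k0,k4,z1,[z0,z0,z0,z1])]),
    .base (.leafM k10 [k1,k2,k3,k5] [(z1,[z0,z0,z1]),(z1,[z0,y1,y1,y3,z3]),(z1,[z0,z1])] [(k4,k0,z1,[z0,z0,z0,z1]),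
    (k0,k4,z1,[z0,z0,z0,z1])]),
    .lp k0 [k40,k38,k40,k47,k44,k30] [k14,k14,k22,k8,k14,k14,k0,k21,k18,k6,k16,k22] k0 [[k0,k0,k6,k2,k2,k0,k0,k0,k0,
    k0,k0,k0],[k0,k0,k0,k0,k6,k0,k0,k36,k0,k0,k0,k0],[k0,k2,k0,k0,k0,k0,k0,k0,k0,k0,k0,k0],[k0,k6,k0,k0,k4,k0,k24,k0,
    k0,k0,k0,k0],[k0,k0,k0,k0,k0,k0,k24,k0,k0,k0,k0,k0],[k6,k2,k4,k0,k0,k0,k0,k0,k0,k0,k0,k0],[k36,k0,k0,k0,k0,k0,k0,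
    k0,k0,k0,k0,k0],[k0,k0,k24,k0,k0,k24,k0,k0,k0,k0,k0,k0],[k0,k0,k0,k0,k0,k0,k0,k0,k0,k0,k0,k10],[k0,k0,k0,k0,k0,k0,
    k0,k0,k0,k0,k0,k0],[k0,k0,k0,k0,k0,k0,k0,k0,k0,k10,k0,k0],[k0,k0,k0,k0,k0,k0,k0,k0,k0,k0,k0,k0]] k120 k6
    [[(k8,k36),(k10,k38),(k1,k40),(k11,k42)],[(k2,k30),(k7,k31),(k5,k34),(k0,k40),(k3,k46),(k4,k46),(k6,k54),(k9,
    k84)],[(k6,k24),(k7,k33),(k2,k44),(k0,k46),(k4,k48),(k5,k48),(k3,k52),(k9,k54)],[(k2,k24),(k7,k25),(k0,k30),(k5,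
    k32),(k4,k36),(k9,k40),(k3,k44),(k6,k70)],[(k9,k24),(k7,k29),(k2,k32),(k0,k34),(k4,k40),(k5,k40),(k3,k48),(k6,
    k54)],[(k9,k24),(k7,k33),(k2,k36),(k4,k40),(k5,k40),(k0,k46),(k3,k48),(k6,k54)],[(k2,k25),(k7,k26),(k5,k29),(k0,
    k31),(k3,k33),(k4,k33),(k9,k41),(k6,k71)],[(k3,k24),(k0,k54),(k4,k54),(k5,k54),(k9,k62),(k6,k68),(k2,k70),(k7,
    k71)],[(k4,k24),(k5,k24),(k2,k40),(k7,k41),(k3,k54),(k9,k56),(k6,k62),(k0,k84)],[(k10,k24),(k11,k28),(k8,k32),(k1,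
    k36)],[(k11,k24),(k8,k28),(k10,k30),(k1,k42)],[(k8,k24),(k11,k30),(k10,k36),(k1,k38)]]
    [[k2,k1,k0,k0,k0,k0],[k1,k0,k1,k0,k1,k0],[k0,k2,k0,k1,k0,k0],[k0,k2,k0,k2,k0,k0],[k0,k1,k1,k1,k0,k0],[k0,k0,k1,k0,
    k2,k0],[k0,k0,k1,k0,k2,k1],[k0,k0,k0,k0,k2,k1],[k0,k0,k0,k0,k0,k3]]
    [.ref k2 k0 [(z1,[z0,z1]),(z1,[z3,y2]),(z1,[z0,z0,y1,y3,z3])],.contra [y3,z2,y1,z0,z3],.ref k4 k0 [(z1,[z0,z1]),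
    (z1,[z3,z0,y1]),(z1,[z0,z0,y1,y3,z3])],.ref k5 k0 [(z1,[z0,z1]),(z2,[z1]),(z1,[z0,z0,y1,y3,z3])],.contra [y1,z0,
    z0,y1,z1],.contra [y3,z2,y1,z3,z3],.contra [z3,z4,z1,y3,y3],.contra [z1,z1,z0,y2],.ref k6 k0 [(z1,[z0,z1]),(z1,
    [y1,z0,z1]),(z1,[z0,z0,y1,y3,z3])]],
    .base (.geo z3 k4 [(z6,y3),(z2,z0),(z6,y6),(y4,z6),(z0,z3),(z2,z0)] [(z1,[z0,z0,z0,z3]),(z1,[z1]),(z1,[z0,z3]),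
    (z1,[z0,z0,z1]),(z1,[]),(z1,[y1,y3,y1,y3,z3])] k6),
    .base (.geo z3 k4 [(z6,y3),(z4,y3),(z6,y6),(y6,z9),(z0,z3),(z2,z0)] [(z1,[z0,z0,z0,z3]),(z1,[z1]),(z1,[z0,z3]),
    (z1,[z0,z0,z3]),(z1,[]),(z1,[y1,y3,y3,y3,z3])] k7),
    .base (.geo z3 k4 [(z6,y3),(z0,z3),(z6,y6),(y2,z3),(z0,z3),(z2,z0)] [(z1,[z0,z0,z0,z3]),(z1,[z3]),(z1,[z0,z3]),
    (z1,[z0,z0,z1]),(z1,[]),(z1,[y3,y3,y1,y3,z3])] k5),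
    .base (.geo z3 k4 [(z6,y3),(z8,y6),(z6,y6),(y10,z12),(z0,z3),(z2,z0)] [(z1,[z0,z0,z0,z3]),(z1,[z1]),(z1,[z0,z3]),
    (z1,[z0,z0,z1]),(z1,[]),(z1,[y1,y3,y1,y3,z3])] k6)]

theorem hB6_105_0 : blkB [0, 0, 0, 0, 1, 1] [(0, 4)] sp6 hS6_105 (pcls (n := 6) [0, 0, 0, 0, 1, 1]) hD6_105 111 0 hN6_105_0 = true := by
  decide +kernel

/-- nodes 12 to 23 -/
noncomputable def hN6_105_1 : List HM :=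
  [.base (.geo z9 k0 [(z5,z0),(z2,z0),(z8,z0),(z2,z0),(z13,z0),(z6,z0)] [(z1,[z1]),(z1,[z0,z1]),(z1,[z0,z0,z1]),(z1,
    [z0,z0,z0,z1]),(z1,[y1,z0,z0,z0,z9]),(z1,[z0,y1,y1,y1,y9,z9])] k1),
    .lp (nat_lit 65537) [(nat_lit 383),(nat_lit 447),(nat_lit 306),(nat_lit 424),(nat_lit 440),(nat_lit 400)] [k64,
    (nat_lit 205),(nat_lit 205),k0,k173,k173,k23,(nat_lit 205),k106,k106,k126,k126] k0 [[k0,k0,k0,k141,k141,k0,k0,k71,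
    k0,k0,k0,k0],[k0,k0,k0,k0,k0,k0,k0,(nat_lit 387),k0,k0,k0,k0],[k0,k141,k0,k0,k0,k0,k46,k14,k0,k0,k0,k0],[k0,k0,k0,
    k0,k0,k0,k0,k0,k0,k0,k0,k0],[k0,k0,k0,k0,k0,k0,k0,k0,k0,k0,k0,k0],[k0,k141,k0,k0,k0,k0,k46,k0,k0,k0,k0,k0],
    [(nat_lit 387),k71,k0,k14,k0,k0,k0,k0,k0,k0,k0,k0],[k0,k0,k0,k46,k46,k0,k46,k0,k0,k0,k0,k0],[k0,k0,k0,k0,k0,k0,k0,
    k0,k0,k0,k0,k34],[k0,k0,k0,k0,k0,k0,k0,k0,k0,k0,k0,k0],[k0,k0,k0,k0,k0,k0,k0,k0,k0,k34,k0,k0],[k0,k0,k0,k0,k0,k0,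
    k0,k0,k0,k0,k0,k0]] (nat_lit 1200) k6
    [[(k1,(nat_lit 242)),(k10,(nat_lit 321)),(k8,(nat_lit 341)),(k11,(nat_lit 355))],[(k2,(nat_lit 242)),(k7,
    (nat_lit 242)),(k4,(nat_lit 415)),(k5,(nat_lit 415)),(k6,(nat_lit 494)),(k0,(nat_lit 524)),(k3,(nat_lit 588)),(k9,
    (nat_lit 869))],[(k6,(nat_lit 242)),(k2,(nat_lit 447)),(k7,(nat_lit 447)),(k0,(nat_lit 588)),(k9,(nat_lit 617)),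
    (k4,(nat_lit 620)),(k5,(nat_lit 620)),(k3,(nat_lit 652))],[(k0,(nat_lit 242)),(k2,(nat_lit 242)),(k7,
    (nat_lit 242)),(k4,(nat_lit 274)),(k5,(nat_lit 274)),(k9,(nat_lit 295)),(k6,(nat_lit 410)),(k3,(nat_lit 447))],
    [(k2,(nat_lit 274)),(k7,(nat_lit 274)),(k4,(nat_lit 306)),(k5,(nat_lit 306)),(k9,(nat_lit 387)),(k0,
    (nat_lit 415)),(k6,(nat_lit 502)),(k3,(nat_lit 620))],[(k2,(nat_lit 274)),(k7,(nat_lit 274)),(k4,(nat_lit 306)),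
    (k5,(nat_lit 306)),(k9,(nat_lit 373)),(k0,(nat_lit 415)),(k6,(nat_lit 502)),(k3,(nat_lit 620))],[(k0,
    (nat_lit 242)),(k2,(nat_lit 242)),(k7,(nat_lit 242)),(k4,(nat_lit 274)),(k5,(nat_lit 274)),(k9,(nat_lit 295)),(k6,
    (nat_lit 424)),(k3,(nat_lit 447))],[(k3,(nat_lit 242)),(k2,(nat_lit 410)),(k7,(nat_lit 424)),(k0,(nat_lit 494)),
    (k4,(nat_lit 502)),(k5,(nat_lit 502)),(k9,(nat_lit 523)),(k6,(nat_lit 652))],[(k2,(nat_lit 295)),(k7,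
    (nat_lit 295)),(k4,(nat_lit 373)),(k5,(nat_lit 387)),(k9,(nat_lit 394)),(k6,(nat_lit 523)),(k3,(nat_lit 617)),(k0,
    (nat_lit 869))],[(k1,(nat_lit 341)),(k10,(nat_lit 386)),(k11,(nat_lit 420)),(k8,(nat_lit 440))],[(k1,
    (nat_lit 355)),(k10,(nat_lit 400)),(k11,(nat_lit 400)),(k8,(nat_lit 420))],[(k1,(nat_lit 321)),(k8,(nat_lit 386)),
    (k10,(nat_lit 400)),(k11,(nat_lit 400))]]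
    [[k2,k1,k0,k0,k0,k0],[k2,k1,k0,k1,k0,k0],[k2,k0,k1,k0,k0,k0],[k2,k0,k0,k1,k0,k0],[k1,k1,k0,k1,k1,k0],[k1,k0,k1,k0,
    k1,k0],[k1,k0,k0,k1,k1,k0],[k0,k2,k0,k1,k0,k0],[k0,k2,k0,k2,k0,k0],[k0,k1,k1,k1,k0,k0],[k0,k1,k2,k1,k0,k0],[k0,k1,
    k0,k2,k0,k0],[k0,k0,k3,k0,k0,k0],[k0,k0,k2,k1,k0,k0]]
    [.contra [z3,y1,z0,z0,y4],.contra [y1,y3,y4,y1,y2,z4],.contra [z1,z0,y1,z0,z2],.contra [z1,z0,z1,z0,y2],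
    .contra [z9,y4,z0,y3,y7],.contra [z1,z0,y1,z0,z1],.contra [z1,z0,z0,z0,y1],.contra [y1,z2,z1,z1],.contra [y1,z2,
    z1,z1],.contra [z1,y3,y3,y1,y2,z2],.contra [z1,y1,y2],.contra [z1,y5,y4,y2,y4,z4],.contra [z1,z0,y3,z1],
    .ref k12 k1 [(z2,[y3,z0,z6,z1]),(z1,[z3,z0,y6,z2]),(z1,[z3,z0,z3,y1]),(z1,[y6,z9,z12,z2])]],
    .base (.leafM k8 [k3,k5,k1,k2] [(z1,[z0,y3,y1,y3,z3]),(z1,[z0,z0,z1]),(z1,[z0,z1])] [(k4,k0,z1,[z0,z0,z0,z1]),(k0,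
    k4,z1,[z0,z0,z0,z1])]),
    .lp k0 [(nat_lit 58996),(nat_lit 72240),(nat_lit 72240),(nat_lit 144480),(nat_lit 133042),
    (nat_lit 96320)] [(nat_lit 81872),(nat_lit 81872),(nat_lit 82474),(nat_lit 68026),(nat_lit 75250),(nat_lit 75250),
    k0,(nat_lit 78260),(nat_lit 44849),(nat_lit 44849),(nat_lit 45450),(nat_lit 80970)] k0 [[k0,k0,k0,k0,k0,k0,k0,k0,
    k0,k0,k0,k0],[k0,k0,k0,k0,k0,k0,(nat_lit 26488),(nat_lit 96922),k0,k0,k0,k0],[k0,k0,k0,k0,k0,k0,k0,k0,k0,k0,k0,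
    k0],[k0,k0,k0,k0,k0,k0,(nat_lit 24682),k0,k0,k0,k0,k0],[k0,k0,k0,k0,k0,k0,(nat_lit 24682),k0,k0,k0,k0,k0],[k0,k0,
    k0,k0,k0,k0,k0,k0,k0,k0,k0,k0],[(nat_lit 96922),k0,k0,k0,k0,k0,k0,(nat_lit 1204),k0,k0,k0,k0],[(nat_lit 26488),k0,
    (nat_lit 24682),k0,k0,(nat_lit 24682),k0,k0,k0,k0,k0,k0],[k0,k0,k0,k0,k0,k0,k0,k0,k0,k0,k0,(nat_lit 74648)],[k0,
    k0,k0,k0,k0,k0,k0,k0,k0,k0,k0,k0],[k0,k0,k0,k0,k0,k0,k0,k0,k0,(nat_lit 74648),k0,k0],[k0,k0,k0,k0,k0,k0,k0,k0,k0,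
    k0,k0,k0]] (nat_lit 288960) k6
    [[(k1,(nat_lit 58996)),(k10,(nat_lit 95418)),(k8,(nat_lit 96019)),(k11,(nat_lit 134546))],[(k2,(nat_lit 58394)),
    (k0,(nat_lit 58996)),(k7,(nat_lit 62608)),(k4,(nat_lit 65618)),(k5,(nat_lit 65618)),(k3,(nat_lit 72842)),(k6,
    (nat_lit 167356)),(k9,(nat_lit 192941))],[(k6,(nat_lit 57792)),(k2,(nat_lit 72240)),(k0,(nat_lit 72842)),(k7,
    (nat_lit 76454)),(k4,(nat_lit 79464)),(k5,(nat_lit 79464)),(k9,(nat_lit 83377)),(k3,(nat_lit 86688))],[(k2,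
    (nat_lit 57792)),(k0,(nat_lit 58394)),(k7,(nat_lit 62006)),(k4,(nat_lit 65016)),(k5,(nat_lit 65016)),(k3,
    (nat_lit 72240)),(k9,(nat_lit 95417)),(k6,(nat_lit 164948))],[(k2,(nat_lit 65016)),(k0,(nat_lit 65618)),(k7,
    (nat_lit 69230)),(k4,(nat_lit 72240)),(k5,(nat_lit 72240)),(k9,(nat_lit 77959)),(k3,(nat_lit 79464)),(k6,
    (nat_lit 147490))],[(k2,(nat_lit 65016)),(k0,(nat_lit 65618)),(k7,(nat_lit 69230)),(k4,(nat_lit 72240)),(k5,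
    (nat_lit 72240)),(k9,(nat_lit 77959)),(k3,(nat_lit 79464)),(k6,(nat_lit 147490))],[(k2,(nat_lit 62006)),(k0,
    (nat_lit 62608)),(k7,(nat_lit 66220)),(k4,(nat_lit 69230)),(k5,(nat_lit 69230)),(k3,(nat_lit 76454)),(k9,
    (nat_lit 99631)),(k6,(nat_lit 169162))],[(k3,(nat_lit 57792)),(k4,(nat_lit 147490)),(k5,(nat_lit 147490)),(k2,
    (nat_lit 164948)),(k0,(nat_lit 167356)),(k7,(nat_lit 169162)),(k9,(nat_lit 177891)),(k6,(nat_lit 221536))],[(k4,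
    (nat_lit 77959)),(k5,(nat_lit 77959)),(k3,(nat_lit 83377)),(k2,(nat_lit 95417)),(k7,(nat_lit 99631)),(k9,
    (nat_lit 134246)),(k6,(nat_lit 177891)),(k0,(nat_lit 192941))],[(k10,(nat_lit 57793)),(k1,(nat_lit 96019)),(k11,
    (nat_lit 96921)),(k8,(nat_lit 133042))],[(k11,(nat_lit 60800)),(k10,(nat_lit 96320)),(k8,(nat_lit 96921)),(k1,
    (nat_lit 134546))],[(k8,(nat_lit 57793)),(k1,(nat_lit 95418)),(k11,(nat_lit 96320)),(k10,(nat_lit 131840))]]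
    [[k4,k0,k0,k0,k0,k0],[k2,k1,k0,k0,k0,k0],[k2,k2,k0,k0,k0,k0],[k2,k1,k1,k0,k0,k0],[k2,k1,k0,k1,k0,k0],[k2,k0,k1,k0,
    k0,k0],[k2,k0,k2,k0,k0,k0],[k1,k1,k0,k0,k1,k0],[k1,k0,k1,k0,k1,k0],[k0,k3,k0,k0,k0,k0],[k0,k3,k0,k1,k0,k0],[k0,k2,
    k1,k0,k0,k0],[k0,k2,k0,k1,k0,k0],[k0,k2,k1,k1,k0,k0],[k0,k1,k2,k0,k0,k0],[k0,k2,k0,k2,k0,k0],[k0,k1,k1,k1,k0,k0],
    [k0,k1,k2,k1,k0,k0],[k0,k0,k3,k0,k0,k0]]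
    [.contra [z1,z0,z1,y2],.contra [z1,z0,z1,y2],.contra [z1,z0,z1,y2],.contra [z1,z0,z1,y2],.contra [y1,y1,y4,y2,z4],
    .contra [z1,z0,y1,z2],.contra [z1,z0,y2,z4],.contra [z1,z0,z0,y1],.contra [z1,z0,y1,z1],.ref k8 k0 [(z1,[z1]),(z1,
    [z0,z0,z1]),(z1,[y1,z1])],.ref k9 k0 [(z2,[z3,y1]),(z1,[z0,z0,z1]),(z2,[y1,z1])],.ref k10 k0 [(z2,[z1,z0,y1]),(z1,
    [z0,z0,z1]),(z2,[y3,z2,z3])],.ref k11 k0 [(z1,[z3,y1]),(z1,[z0,z0,z1]),(z1,[y3,z2])],.ref k8 k0 [(z1,[z3,y1,y3]),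
    (z1,[z0,z0,z1]),(z1,[y3,z2,z3])],.ref k13 k0 [(z1,[z1,z0,y2]),(z1,[z0,z0,z1]),(z1,[y3,z1,z6])],.ref k14 k1 [(z2,
    [z3,y2]),(z2,[z1]),(z2,[y3,z2,z6])],.contra [z1,y1,y3,y2,z2],.ref k6 k1 [(z2,[y3,z1,z6]),(z1,[y3,z2,z6]),(z1,[z3,
    y1,y3])],.ref k6 k1 [(z2,[y1,z0,z3]),(z1,[y1,z1,z3]),(z1,[z1])]],
    .base (.geo z2 k4 [(z4,y2),(z5,y4),(z4,y4),(y6,z8),(z0,z2),(z1,z0)] [(z1,[z0,z0,z0,z2]),(z1,[z1]),(z1,[z0,z2]),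
    (z1,[z0,z0,z2]),(z1,[]),(z1,[y1,y2,y2,y2,z2])] k7),
    .base (.geo z6 k0 [(z4,z0),(z1,z0),(z4,z0),(z4,z0),(z8,z0),(z3,z0)] [(z1,[z2]),(z1,[z0,z1]),(z1,[z0,z0,z2]),(z1,
    [z0,z0,z0,z2]),(z1,[y2,z0,z0,z0,z6]),(z1,[z0,y1,y2,y2,y6,z6])] k1),
    .lp k0 [(nat_lit 1530),(nat_lit 1326),(nat_lit 1360),(nat_lit 1360),(nat_lit 1530),(nat_lit 1020)] [k155,k155,
    (nat_lit 512),k2,(nat_lit 240),(nat_lit 240),k0,(nat_lit 480),k155,k155,(nat_lit 410),(nat_lit 410)] k0 [[k0,k0,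
    k102,k68,k68,k0,k0,k0,k0,k0,k0,k0],[k0,k0,k0,k0,k0,k0,k0,(nat_lit 1020),k0,k0,k0,k0],[k0,k68,k0,k0,k0,k0,k0,k0,k0,
    k0,k0,k0],[k0,k102,k0,k0,k0,k0,k0,k0,k0,k0,k0,k0],[k0,k0,k0,k0,k0,k0,k0,k0,k0,k0,k0,k0],[k0,k68,k0,k0,k0,k0,k0,k0,
    k0,k0,k0,k0],[(nat_lit 1020),k0,k0,k0,k0,k0,k0,k0,k0,k0,k0,k0],[k0,k0,k0,k0,k0,k0,k0,k0,k0,k0,k0,k0],[k0,k0,k0,k0,
    k0,k0,k0,k0,k0,k0,k0,k0],[k0,k0,k0,k0,k0,k0,k0,k0,k0,k0,k0,k0],[k0,k0,k0,k0,k0,k0,k0,k0,k0,k0,k0,k0],[k0,k0,k0,k0,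
    k0,k0,k0,k0,k0,k0,k0,k0]] (nat_lit 4080) k6
    [[(k10,(nat_lit 1275)),(k11,(nat_lit 1275)),(k1,(nat_lit 1530)),(k8,(nat_lit 1530))],[(k2,(nat_lit 1105)),(k7,
    (nat_lit 1137)),(k5,(nat_lit 1343)),(k4,(nat_lit 1445)),(k0,(nat_lit 1530)),(k3,(nat_lit 1683)),(k6,
    (nat_lit 1685)),(k9,(nat_lit 2550))],[(k6,(nat_lit 818)),(k7,(nat_lit 1358)),(k2,(nat_lit 1428)),(k4,
    (nat_lit 1666)),(k5,(nat_lit 1666)),(k0,(nat_lit 1683)),(k9,(nat_lit 1683)),(k3,(nat_lit 1836))],[(k2,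
    (nat_lit 816)),(k7,(nat_lit 848)),(k4,(nat_lit 1088)),(k5,(nat_lit 1088)),(k0,(nat_lit 1105)),(k9,(nat_lit 1173)),
    (k6,(nat_lit 1328)),(k3,(nat_lit 1428))],[(k2,(nat_lit 1088)),(k7,(nat_lit 1120)),(k0,(nat_lit 1343)),(k4,
    (nat_lit 1360)),(k5,(nat_lit 1360)),(k9,(nat_lit 1445)),(k6,(nat_lit 1600)),(k3,(nat_lit 1666))],[(k2,
    (nat_lit 1088)),(k7,(nat_lit 1120)),(k4,(nat_lit 1360)),(k5,(nat_lit 1360)),(k0,(nat_lit 1445)),(k9,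
    (nat_lit 1445)),(k6,(nat_lit 1600)),(k3,(nat_lit 1666))],[(k2,(nat_lit 848)),(k7,(nat_lit 880)),(k4,
    (nat_lit 1120)),(k5,(nat_lit 1120)),(k0,(nat_lit 1137)),(k9,(nat_lit 1205)),(k3,(nat_lit 1358)),(k6,
    (nat_lit 1360))],[(k3,(nat_lit 818)),(k2,(nat_lit 1328)),(k7,(nat_lit 1360)),(k4,(nat_lit 1600)),(k5,
    (nat_lit 1600)),(k0,(nat_lit 1685)),(k9,(nat_lit 1685)),(k6,(nat_lit 1840))],[(k2,(nat_lit 1173)),(k7,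
    (nat_lit 1205)),(k4,(nat_lit 1445)),(k5,(nat_lit 1445)),(k9,(nat_lit 1530)),(k3,(nat_lit 1683)),(k6,
    (nat_lit 1685)),(k0,(nat_lit 2550))],[(k10,(nat_lit 1275)),(k11,(nat_lit 1275)),(k1,(nat_lit 1530)),(k8,
    (nat_lit 1530))],[(k10,(nat_lit 1020)),(k11,(nat_lit 1020)),(k1,(nat_lit 1275)),(k8,(nat_lit 1275))],[(k10,
    (nat_lit 1020)),(k11,(nat_lit 1020)),(k1,(nat_lit 1275)),(k8,(nat_lit 1275))]]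
    [[k0,k2,k0,k1,k0,k0],[k0,k2,k1,k0,k0,k0],[k0,k2,k0,k2,k0,k0],[k0,k1,k1,k1,k0,k0],[k0,k1,k0,k2,k0,k0],[k0,k0,k0,k0,
    k0,k3]]
    [.contra [z2,y1,z0,y1],.ref k17 k1 [(z2,[z1,y2,y1]),(z1,[y2,z4,z2,z3]),(z1,[y1,z2,z4]),(z1,[z2,y1,y2])],
    .contra [z1,y1,z0,y1],.contra [z1,y2,y2,y1,y1,z1],.contra [z1,y3,y2,y2,y2,z2],.contra [z1,z2,z2,z1,z2,y2]],
    .base (.leafM k9 [k3,k5,k1,k2] [(z1,[z0,y2,y1,y2,z2]),(z1,[z0,z0,z1]),(z1,[z0,z1])] [(k4,k0,z1,[z0,z0,z0,z1]),(k0,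
    k4,z1,[z0,z0,z0,z1])]),
    .lp k0 [k40,k38,k40,k47,k44,k30] [k14,k14,k22,k8,k14,k14,k0,k21,k18,k6,k16,k22] k0 [[k0,k0,k6,k2,k2,k0,k0,k0,k0,
    k0,k0,k0],[k0,k0,k0,k0,k6,k0,k0,k36,k0,k0,k0,k0],[k0,k2,k0,k0,k0,k0,k0,k0,k0,k0,k0,k0],[k0,k6,k0,k0,k4,k0,k24,k0,
    k0,k0,k0,k0],[k0,k0,k0,k0,k0,k0,k24,k0,k0,k0,k0,k0],[k6,k2,k4,k0,k0,k0,k0,k0,k0,k0,k0,k0],[k36,k0,k0,k0,k0,k0,k0,
    k0,k0,k0,k0,k0],[k0,k0,k24,k0,k0,k24,k0,k0,k0,k0,k0,k0],[k0,k0,k0,k0,k0,k0,k0,k0,k0,k0,k0,k10],[k0,k0,k0,k0,k0,k0,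
    k0,k0,k0,k0,k0,k0],[k0,k0,k0,k0,k0,k0,k0,k0,k0,k10,k0,k0],[k0,k0,k0,k0,k0,k0,k0,k0,k0,k0,k0,k0]] k120 k6
    [[(k8,k36),(k10,k38),(k1,k40),(k11,k42)],[(k2,k30),(k7,k31),(k5,k34),(k0,k40),(k3,k46),(k4,k46),(k6,k54),(k9,
    k84)],[(k6,k24),(k7,k33),(k2,k44),(k0,k46),(k4,k48),(k5,k48),(k3,k52),(k9,k54)],[(k2,k24),(k7,k25),(k0,k30),(k5,
    k32),(k4,k36),(k9,k40),(k3,k44),(k6,k70)],[(k9,k24),(k7,k29),(k2,k32),(k0,k34),(k4,k40),(k5,k40),(k3,k48),(k6,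
    k54)],[(k9,k24),(k7,k33),(k2,k36),(k4,k40),(k5,k40),(k0,k46),(k3,k48),(k6,k54)],[(k2,k25),(k7,k26),(k5,k29),(k0,
    k31),(k3,k33),(k4,k33),(k9,k41),(k6,k71)],[(k3,k24),(k0,k54),(k4,k54),(k5,k54),(k9,k62),(k6,k68),(k2,k70),(k7,
    k71)],[(k4,k24),(k5,k24),(k2,k40),(k7,k41),(k3,k54),(k9,k56),(k6,k62),(k0,k84)],[(k10,k24),(k11,k28),(k8,k32),(k1,
    k36)],[(k11,k24),(k8,k28),(k10,k30),(k1,k42)],[(k8,k24),(k11,k30),(k10,k36),(k1,k38)]]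
    [[k2,k1,k0,k0,k0,k0],[k1,k0,k1,k0,k1,k0],[k0,k2,k0,k1,k0,k0],[k0,k2,k0,k2,k0,k0],[k0,k1,k1,k1,k0,k0],[k0,k0,k1,k0,
    k2,k0],[k0,k0,k1,k0,k2,k1],[k0,k0,k0,k0,k2,k1],[k0,k0,k0,k0,k0,k3]]
    [.contra [z2,y1,y1],.contra [y3,z2,z0,z1,z0,z3],.contra [z3,z2,y3,z0,y1],.contra [z3,z1,y3,z0,y2],.contra [z6,z3,
    y3,y2,y2],.contra [y3,z2,z0,z1,z0,z6],.contra [y6,z7,y3,z0,y2,z6,z6],.contra [y6,z3,y3,y2,y2,z6,z6],.contra [z2,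
    z1,z3,z2,z2,z6,y6]],
    .base (.geo z12 k0 [(z8,z0),(z7,z0),(z8,z0),(z3,z0),(z16,z0),(z6,z0)] [(z1,[z4]),(z1,[z0,z1]),(z1,[z0,z0,z4]),(z1,
    [z0,z0,z0,z3]),(z1,[y4,z0,z0,z0,z12]),(z1,[z0,y1,y4,y3,y12,z12])] k1),
    .lp k0 [(nat_lit 6230),(nat_lit 4340),(nat_lit 5600),(nat_lit 6230),(nat_lit 6860),
    (nat_lit 4200)] [(nat_lit 1296),(nat_lit 1296),(nat_lit 2731),(nat_lit 1751),(nat_lit 1611),(nat_lit 1611),k0,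
    (nat_lit 2592),(nat_lit 1821),k141,(nat_lit 2311),(nat_lit 2311)] k0 [[k0,k0,k0,(nat_lit 1260),(nat_lit 1260),k0,
    k0,(nat_lit 630),k0,k0,k0,k0],[(nat_lit 840),k0,k0,k0,k0,k0,k0,(nat_lit 3710),k0,k0,k0,k0],[k0,(nat_lit 1260),k0,
    k0,k0,k0,k0,k0,k0,k0,k0,k0],[k0,k0,k0,k0,k0,k0,(nat_lit 3710),k0,k0,k0,k0,k0],[k0,k0,k0,k0,k0,k0,(nat_lit 3710),
    k0,k0,k0,k0,k0],[k0,(nat_lit 1260),k0,k0,k0,k0,k0,k0,k0,k0,k0,k0],[(nat_lit 3710),(nat_lit 630),k0,k0,k0,k0,k0,k0,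
    k0,k0,k0,k0],[k0,k0,(nat_lit 3710),k0,k0,(nat_lit 3710),k0,k0,k0,k0,k0,k0],[k0,k0,k0,k0,k0,k0,k0,k0,k0,k0,k0,k0],
    [k0,k0,k0,k0,k0,k0,k0,k0,k0,k0,(nat_lit 700),k0],[k0,k0,k0,k0,k0,k0,k0,k0,k0,k0,k0,k0],[k0,k0,k0,k0,k0,k0,k0,k0,
    (nat_lit 700),k0,k0,k0]] (nat_lit 16800) k6
    [[(k11,(nat_lit 4515)),(k10,(nat_lit 5215)),(k8,(nat_lit 5705)),(k1,(nat_lit 6230))],[(k2,(nat_lit 3535)),(k7,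
    (nat_lit 3674)),(k3,(nat_lit 5775)),(k4,(nat_lit 5915)),(k5,(nat_lit 5915)),(k6,(nat_lit 6896)),(k0,
    (nat_lit 7070)),(k9,(nat_lit 11095))],[(k6,(nat_lit 3361)),(k2,(nat_lit 4340)),(k7,(nat_lit 4479)),(k3,
    (nat_lit 4480)),(k0,(nat_lit 5775)),(k4,(nat_lit 6720)),(k5,(nat_lit 6720)),(k9,(nat_lit 7560))],[(k2,
    (nat_lit 3360)),(k7,(nat_lit 3499)),(k0,(nat_lit 3535)),(k3,(nat_lit 4340)),(k4,(nat_lit 4480)),(k5,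
    (nat_lit 4480)),(k9,(nat_lit 5950)),(k6,(nat_lit 9801))],[(k9,(nat_lit 3360)),(k2,(nat_lit 4480)),(k7,
    (nat_lit 4619)),(k4,(nat_lit 5600)),(k5,(nat_lit 5600)),(k0,(nat_lit 5915)),(k3,(nat_lit 6720)),(k6,
    (nat_lit 7211))],[(k9,(nat_lit 3360)),(k2,(nat_lit 4480)),(k7,(nat_lit 4619)),(k4,(nat_lit 5600)),(k5,
    (nat_lit 5600)),(k0,(nat_lit 5915)),(k3,(nat_lit 6720)),(k6,(nat_lit 7211))],[(k2,(nat_lit 3499)),(k7,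
    (nat_lit 3638)),(k0,(nat_lit 3674)),(k3,(nat_lit 4479)),(k4,(nat_lit 4619)),(k5,(nat_lit 4619)),(k9,
    (nat_lit 6089)),(k6,(nat_lit 9940))],[(k3,(nat_lit 3361)),(k0,(nat_lit 6896)),(k4,(nat_lit 7211)),(k5,
    (nat_lit 7211)),(k9,(nat_lit 8681)),(k6,(nat_lit 8822)),(k2,(nat_lit 9801)),(k7,(nat_lit 9940))],[(k4,
    (nat_lit 3360)),(k5,(nat_lit 3360)),(k2,(nat_lit 5950)),(k7,(nat_lit 6089)),(k3,(nat_lit 7560)),(k9,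
    (nat_lit 8540)),(k6,(nat_lit 8681)),(k0,(nat_lit 11095))],[(k11,(nat_lit 4690)),(k8,(nat_lit 5180)),(k10,
    (nat_lit 5390)),(k1,(nat_lit 5705))],[(k10,(nat_lit 4200)),(k11,(nat_lit 4200)),(k1,(nat_lit 4515)),(k8,
    (nat_lit 4690))],[(k10,(nat_lit 4200)),(k11,(nat_lit 4200)),(k1,(nat_lit 5215)),(k8,(nat_lit 5390))]]
    [[k2,k1,k0,k0,k0,k0],[k1,k0,k1,k0,k1,k0],[k0,k3,k0,k0,k0,k0],[k0,k4,k0,k0,k0,k0],[k0,k3,k0,k1,k0,k0],[k0,k2,k1,k0,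
    k0,k0],[k0,k2,k0,k1,k0,k0],[k0,k2,k0,k2,k0,k0],[k0,k1,k1,k1,k0,k0],[k0,k0,k1,k0,k2,k0],[k0,k0,k0,k0,k0,k3]]
    [.ref k1 k0 [(z1,[z0,z1]),(z1,[z3,y2]),(z1,[z0,z0,z0,z1]),(z1,[y6,z4,z1])],.contra [y3,z2,z0,z1,z3],
    .ref k1 k0 [(z1,[z0,z1]),(z1,[z1]),(z1,[z0,z0,z0,z1]),(z1,[y2,z0,z1])],.ref k20 k0 [(z1,[z0,z1]),(z2,[z1]),(z1,
    [z0,z0,z0,z1]),(z4,[y3,z0,z2])],.ref k21 k0 [(z1,[z0,z1]),(z1,[z6,z0,y1]),(z1,[z0,z0,z0,z1]),(z1,[y2,z0,z1])],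
    .ref k1 k0 [(z1,[z0,z1]),(z2,[z3,z0,z0,y1]),(z1,[z0,z0,z0,z1]),(z1,[y3,z0,z1,z1])],.contra [y6,z1,z2],.contra [z3,
    z1,y1],.contra [z6,z3,y1,y2],.contra [y3,z2,z0,z1,z6],.contra [z2,z1,z1,z2,z6,y6]],
    .lp k0 [k58,k85,k62,k123,k90,k60] [k53,k53,k55,k24,k51,k51,k0,k41,k37,k37,k52,k52] k0 [[k0,k8,k0,k8,k8,k0,k0,k0,
    k0,k0,k0,k0],[k0,k0,k0,k0,k2,k0,k9,k92,k0,k0,k0,k0],[k0,k8,k0,k0,k0,k0,k0,k0,k0,k0,k0,k0],[k0,k0,k0,k0,k0,k0,k1,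
    k0,k0,k0,k0,k0],[k0,k0,k0,k0,k0,k0,k1,k0,k0,k0,k0,k0],[k2,k8,k0,k0,k0,k0,k0,k0,k0,k0,k0,k0],[k92,k0,k0,k0,k0,k0,
    k0,k0,k0,k0,k0,k0],[k9,k0,k1,k0,k0,k1,k0,k0,k0,k0,k0,k0],[k0,k0,k0,k0,k0,k0,k0,k0,k0,k0,k0,k0],[k0,k0,k0,k0,k0,k0,
    k0,k0,k0,k0,k0,k0],[k0,k0,k0,k0,k0,k0,k0,k0,k0,k0,k0,k0],[k0,k0,k0,k0,k0,k0,k0,k0,k0,k0,k0,k0]] (nat_lit 240) k6
    [[(k1,k58),(k10,k59),(k11,k59),(k8,k74)],[(k2,k48),(k0,k50),(k5,k60),(k4,k62),(k7,k62),(k3,k87),(k6,k120),(k9,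
    k166)],[(k6,k48),(k2,k85),(k0,k87),(k9,k94),(k4,k97),(k5,k97),(k7,k97),(k3,k124)],[(k0,k48),(k2,k54),(k4,k58),(k5,
    k58),(k7,k68),(k9,k72),(k3,k85),(k6,k110)],[(k2,k58),(k0,k60),(k4,k62),(k5,k62),(k7,k72),(k9,k75),(k3,k97),(k6,
    k113)],[(k2,k58),(k0,k62),(k4,k62),(k5,k62),(k7,k72),(k9,k75),(k3,k97),(k6,k113)],[(k0,k62),(k2,k68),(k4,k72),(k5,
    k72),(k7,k82),(k9,k86),(k3,k97),(k6,k124)],[(k3,k48),(k2,k110),(k4,k113),(k5,k113),(k0,k120),(k7,k124),(k9,k127),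
    (k6,k164)],[(k2,k72),(k4,k75),(k5,k75),(k7,k86),(k9,k90),(k3,k94),(k6,k127),(k0,k166)],[(k1,k74),(k10,k75),(k11,
    k75),(k8,k90)],[(k1,k59),(k10,k60),(k11,k60),(k8,k75)],[(k1,k59),(k10,k60),(k11,k60),(k8,k75)]]
    [[k4,k0,k0,k0,k0,k0],[k2,k1,k0,k0,k0,k0],[k2,k1,k0,k1,k0,k0],[k2,k0,k1,k0,k0,k0],[k1,k1,k0,k0,k1,k0],[k1,k0,k1,k0,
    k1,k0],[k2,k0,k0,k0,k0,k1],[k2,k0,k0,k0,k0,k2],[k0,k2,k0,k1,k0,k0],[k0,k1,k2,k0,k0,k0],[k0,k2,k0,k2,k0,k0],[k0,k1,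
    k1,k1,k0,k0],[k0,k0,k3,k0,k0,k0],[k0,k0,k0,k0,k0,k3]]
    [.contra [z1,z0,z1,y2],.contra [z1,z0,z1,y2],.contra [y1,y1,y3,y1,z3],.contra [z1,z0,y1,z2],.contra [z1,z0,z0,y1],
    .contra [z1,z0,y1,z1],.contra [z4,z2,z7,y2,y4],.contra [z2,z2,z5,z2,y4],.ref k16 k0 [(z1,[z2,y1]),(z1,[z0,z0,z1]),
    (z1,[y1,z1])],.ref k18 k0 [(z1,[z1,z0,y2]),(z1,[z0,z0,z1]),(z1,[y2,z1,z4])],.ref k19 k1 [(z1,[z1,y1]),(z2,[z1]),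
    (z1,[y1,z1,z2])],.contra [z1,y1,y2,y1,z1],.ref k22 k1 [(z2,[y1,z0,z3]),(z1,[y2,z3,z6]),(z1,[z1])],.contra [z1,z1,
    z2,z2,y2]]]

theorem hB6_105_1 : blkB [0, 0, 0, 0, 1, 1] [(0, 4)] sp6 hS6_105 (pcls (n := 6) [0, 0, 0, 0, 1, 1]) hD6_105 111 1 hN6_105_1 = true := by
  decide +kernel

/-- nodes 24 to 35 -/
noncomputable def hN6_105_2 : List HM :=
  [.lp (nat_lit 65537) [(nat_lit 392),(nat_lit 464),(nat_lit 300),(nat_lit 552),(nat_lit 450),(nat_lit 242)] [k132,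
    k132,k146,k46,k178,k178,k0,k104,k61,k145,(nat_lit 207),(nat_lit 207)] k0 [[k0,k0,k88,k136,k136,k88,k0,k0,k0,k0,k0,
    k0],[k28,k0,k0,k0,k0,k0,k0,(nat_lit 368),k0,k0,k0,k0],[k0,k136,k0,k0,k0,k0,k48,k0,k0,k0,k0,k0],[k0,k88,k0,k0,k0,
    k0,k0,k0,k0,k0,k0,k0],[k0,k88,k0,k0,k0,k0,k0,k0,k0,k0,k0,k0],[k0,k136,k0,k0,k0,k0,k48,k0,k0,k0,k0,k0],
    [(nat_lit 368),k0,k0,k0,k0,k0,k0,(nat_lit 204),k0,k0,k0,k0],[k0,k0,k0,k48,k48,k0,k0,k0,k0,k0,k0,k0],[k0,k0,k0,k0,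
    k0,k0,k0,k0,k0,k0,k0,k146],[k0,k0,k0,k0,k0,k0,k0,k0,k0,k0,k0,k0],[k0,k0,k0,k0,k0,k0,k0,k0,k0,k146,k0,k0],[k0,k0,
    k0,k0,k0,k0,k0,k0,k0,k0,k0,k0]] (nat_lit 1200) k6
    [[(k10,(nat_lit 317)),(k1,(nat_lit 392)),(k8,(nat_lit 463)),(k11,(nat_lit 463))],[(k2,(nat_lit 242)),(k4,
    (nat_lit 258)),(k5,(nat_lit 258)),(k7,(nat_lit 284)),(k0,(nat_lit 420)),(k3,(nat_lit 478)),(k6,(nat_lit 524)),(k9,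
    (nat_lit 747))],[(k6,(nat_lit 242)),(k9,(nat_lit 465)),(k0,(nat_lit 478)),(k3,(nat_lit 536)),(k2,(nat_lit 552)),
    (k4,(nat_lit 568)),(k5,(nat_lit 568)),(k7,(nat_lit 594))],[(k0,(nat_lit 242)),(k9,(nat_lit 317)),(k4,
    (nat_lit 332)),(k5,(nat_lit 332)),(k2,(nat_lit 364)),(k7,(nat_lit 406)),(k6,(nat_lit 510)),(k3,(nat_lit 552))],
    [(k0,(nat_lit 258)),(k4,(nat_lit 300)),(k5,(nat_lit 300)),(k2,(nat_lit 332)),(k9,(nat_lit 333)),(k7,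
    (nat_lit 374)),(k6,(nat_lit 526)),(k3,(nat_lit 568))],[(k0,(nat_lit 258)),(k4,(nat_lit 300)),(k5,(nat_lit 300)),
    (k2,(nat_lit 332)),(k9,(nat_lit 333)),(k7,(nat_lit 374)),(k6,(nat_lit 526)),(k3,(nat_lit 568))],[(k0,
    (nat_lit 284)),(k9,(nat_lit 359)),(k4,(nat_lit 374)),(k5,(nat_lit 374)),(k2,(nat_lit 406)),(k7,(nat_lit 448)),(k6,
    (nat_lit 552)),(k3,(nat_lit 594))],[(k3,(nat_lit 242)),(k6,(nat_lit 452)),(k2,(nat_lit 510)),(k9,(nat_lit 511)),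
    (k0,(nat_lit 524)),(k4,(nat_lit 526)),(k5,(nat_lit 526)),(k7,(nat_lit 552))],[(k2,(nat_lit 317)),(k4,
    (nat_lit 333)),(k5,(nat_lit 333)),(k7,(nat_lit 359)),(k3,(nat_lit 465)),(k6,(nat_lit 511)),(k9,(nat_lit 570)),(k0,
    (nat_lit 747))],[(k10,(nat_lit 242)),(k11,(nat_lit 388)),(k1,(nat_lit 463)),(k8,(nat_lit 534))],[(k10,
    (nat_lit 242)),(k11,(nat_lit 242)),(k8,(nat_lit 388)),(k1,(nat_lit 463))],[(k8,(nat_lit 242)),(k10,(nat_lit 242)),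
    (k11,(nat_lit 242)),(k1,(nat_lit 317))]]
    [[k2,k1,k0,k0,k0,k0],[k2,k1,k0,k1,k0,k0],[k2,k0,k1,k0,k0,k0],[k1,k1,k0,k0,k1,k0],[k1,k0,k1,k0,k1,k0],[k0,k1,k1,k1,
    k0,k0],[k0,k0,k3,k0,k0,k0],[k0,k0,k0,k0,k0,k3],[k0,k0,k0,k0,k0,k4]]
    [.contra [z1,y1,y3,z1],.contra [z1,y1,y3,z1],.contra [z1,z1,z3,y1],.contra [z1,z0,y1],.contra [z1,z1,z2,y1],
    .contra [y1,z0,y1,z1],.ref k7 k1 [(z2,[y1,y3,y3,z3]),(z1,[y1,z0,y3,z3])],.ref k15 k0 [(z1,[y1,z3]),(z1,[z0,y1,y1,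
    z1])],.ref k23 k0 [(z2,[y1,z4]),(z1,[z0,y1,y1,z1])]],
    .base (.leafM k11 [k1,k2,k3,k5] [(z1,[z0,z1]),(z1,[y3,y1,y3,z3]),(z1,[z1])] [(k4,k0,z1,[z0,z0,z1]),(k0,k4,z1,[z0,
    z0,z1])]),
    .base (.leafM k11 [k1,k2,k3,k5] [(z1,[z0,z0,z1]),(z1,[z0,y3,y1,y3,z3]),(z1,[z0,z1])] [(k4,k0,z1,[z0,z0,z0,z1]),
    (k0,k4,z1,[z0,z0,z0,z1])]),
    .base (.leafM k10 [k1,k2,k3,k5] [(z1,[z0,z0,z1]),(z1,[z0,y1,y1,y3,z3]),(z1,[z0,z1])] [(k4,k0,z1,[z0,z0,z0,z1]),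
    (k0,k4,z1,[z0,z0,z0,z1])]),
    .base (.geo z12 k0 [(z5,z0),(z8,z0),(z8,z0),(z2,z0),(z19,z0),(z6,z0)] [(z1,[z1]),(z1,[z0,z4]),(z1,[z0,z0,z4]),(z1,
    [z0,z0,z0,z2]),(z1,[y1,z0,z0,z0,z12]),(z1,[z0,y4,y4,y2,y12,z12])] k1),
    .base (.geo z12 k0 [(z5,z0),(z6,z0),(z8,z0),(z4,z0),(z19,z0),(z6,z0)] [(z1,[z1]),(z1,[z0,z6]),(z1,[z0,z0,z4]),(z1,
    [z0,z0,z0,z4]),(z1,[y1,z0,z0,z0,z12]),(z1,[z0,y6,y4,y4,y12,z12])] k1),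
    .base (.geo z12 k0 [(z5,z0),(z7,z0),(z8,z0),(z3,z0),(z19,z0),(z6,z0)] [(z1,[z1]),(z1,[z0,z1]),(z1,[z0,z0,z4]),(z1,
    [z0,z0,z0,z3]),(z1,[y1,z0,z0,z0,z12]),(z1,[z0,y1,y4,y3,y12,z12])] k1),
    .lp k0 [k178,k124,k160,k196,k178,k120] [k55,k55,k96,k68,k64,k64,k0,k92,k70,k40,k84,k84] k0 [[k0,k0,k0,k0,k0,k0,k0,
    k0,k0,k0,k0,k0],[k24,k0,k0,k0,k0,k0,k0,k124,k0,k0,k0,k0],[k0,k0,k0,k0,k0,k0,k0,k0,k0,k0,k0,k0],[k0,k0,k0,k0,k0,k0,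
    k88,k0,k0,k0,k0,k0],[k0,k0,k0,k0,k0,k0,k88,k0,k0,k0,k0,k0],[k0,k0,k0,k0,k0,k0,k0,k0,k0,k0,k0,k0],[k124,k0,k0,k0,
    k0,k0,k0,k0,k0,k0,k0,k0],[k0,k0,k88,k0,k0,k88,k0,k0,k0,k0,k0,k0],[k0,k0,k0,k0,k0,k0,k0,k0,k0,k0,k0,k0],[k0,k0,k0,
    k0,k0,k0,k0,k0,k0,k0,k20,k0],[k0,k0,k0,k0,k0,k0,k0,k0,k0,k0,k0,k0],[k0,k0,k0,k0,k0,k0,k0,k0,k20,k0,k0,
    k0]] (nat_lit 480) k6
    [[(k11,k129),(k10,k149),(k8,k163),(k1,k178)],[(k2,k137),(k7,k141),(k3,k165),(k4,k169),(k5,k169),(k0,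
    (nat_lit 202)),(k6,(nat_lit 233)),(k9,(nat_lit 317))],[(k6,k96),(k2,k124),(k3,k128),(k7,k128),(k4,k156),(k5,k156),
    (k0,k165),(k9,k180)],[(k2,k96),(k7,k100),(k3,k124),(k4,k128),(k5,k128),(k0,k137),(k9,k152),(k6,(nat_lit 280))],
    [(k9,k96),(k2,k128),(k7,k132),(k3,k156),(k4,k160),(k5,k160),(k0,k169),(k6,(nat_lit 224))],[(k9,k96),(k2,k128),(k7,
    k132),(k3,k156),(k4,k160),(k5,k160),(k0,k169),(k6,(nat_lit 224))],[(k2,k100),(k7,k104),(k3,k128),(k4,k132),(k5,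
    k132),(k0,k141),(k9,k156),(k6,(nat_lit 284))],[(k3,k96),(k4,(nat_lit 224)),(k5,(nat_lit 224)),(k0,(nat_lit 233)),
    (k9,(nat_lit 248)),(k2,(nat_lit 280)),(k7,(nat_lit 284)),(k6,(nat_lit 288))],[(k4,k96),(k5,k96),(k2,k152),(k7,
    k156),(k3,k180),(k9,(nat_lit 208)),(k6,(nat_lit 248)),(k0,(nat_lit 317))],[(k11,k134),(k8,k148),(k10,k154),(k1,
    k163)],[(k10,k120),(k11,k120),(k1,k129),(k8,k134)],[(k10,k120),(k11,k120),(k1,k149),(k8,k154)]]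
    [[k1,k0,k1,k0,k1,k0],[k0,k3,k0,k0,k0,k0],[k0,k4,k0,k0,k0,k0],[k0,k3,k0,k1,k0,k0],[k0,k2,k1,k0,k0,k0],[k0,k2,k0,k1,
    k0,k0],[k0,k1,k2,k0,k0,k0],[k0,k2,k0,k2,k0,k0],[k0,k1,k1,k1,k0,k0],[k0,k0,k1,k0,k2,k0],[k0,k0,k0,k0,k0,k3]]
    [.contra [y21,z2,z0,z7,z21],.ref k28 k0 [(z1,[z0,z1]),(z1,[z1]),(z1,[z0,z0,z0,z1]),(z1,[y2,z0,z1])],
    .ref k29 k0 [(z1,[z0,z1]),(z2,[z1]),(z1,[z0,z0,z0,z1]),(z4,[y3,z0,z2])],.ref k30 k0 [(z1,[z0,z1]),(z1,[z6,z0,y1]),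
    (z1,[z0,z0,z0,z1]),(z1,[y2,z0,z1])],.ref k28 k0 [(z1,[z0,z1]),(z2,[z3,z0,z0,y1]),(z1,[z0,z0,z0,z1]),(z1,[y3,z0,z1,
    z1])],.contra [y15,z1,z5],.ref k28 k0 [(z1,[z0,z1]),(z1,[z3,z0,z0,y2]),(z1,[z0,z0,z0,z1]),(z1,[y6,z0,z1,z4])],
    .contra [z21,z1,y7],.contra [z42,z3,y7,y14],.contra [y21,z2,z0,z7,z42],.contra [z14,z1,z7,z14,z42,y42]],
    .lp (nat_lit 65537) [(nat_lit 892),(nat_lit 800),(nat_lit 800),(nat_lit 984),(nat_lit 842),(nat_lit 482)] [k25,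
    (nat_lit 281),(nat_lit 358),k40,k199,k199,k0,(nat_lit 214),k178,k178,(nat_lit 358),(nat_lit 358)] k0 [[k0,k0,
    (nat_lit 492),k0,k0,(nat_lit 492),k0,k0,k0,k0,k0,k0],[k184,k0,k0,k0,k0,k0,k0,(nat_lit 676),k0,k0,k0,k0],[k0,k0,k0,
    k0,k0,k0,k0,k0,k0,k0,k0,k0],[k0,(nat_lit 492),k0,k0,k184,k0,(nat_lit 308),k0,k0,k0,k0,k0],[k0,(nat_lit 492),k0,k0,
    k0,k0,(nat_lit 308),k0,k0,k0,k0,k0],[k0,k0,k184,k0,k0,k0,k0,k0,k0,k0,k0,k0],[(nat_lit 676),k0,k0,k0,k0,k0,k0,k184,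
    k0,k0,k0,k0],[k0,k0,(nat_lit 308),k0,k0,(nat_lit 308),k0,k0,k0,k0,k0,k0],[k0,k0,k0,k0,k0,k0,k0,k0,k0,k0,k0,k0],
    [k0,k0,k0,k0,k0,k0,k0,k0,k0,k0,k50,k0],[k0,k0,k0,k0,k0,k0,k0,k0,k0,k0,k0,k0],[k0,k0,k0,k0,k0,k0,k0,k0,k50,k0,k0,
    k0]] (nat_lit 2400) k6
    [[(k11,(nat_lit 509)),(k10,(nat_lit 559)),(k1,(nat_lit 636)),(k8,(nat_lit 739))],[(k4,(nat_lit 482)),(k5,
    (nat_lit 482)),(k2,(nat_lit 815)),(k7,(nat_lit 959)),(k3,(nat_lit 1133)),(k6,(nat_lit 1173)),(k0,(nat_lit 1332)),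
    (k9,(nat_lit 1671))],[(k6,(nat_lit 482)),(k3,(nat_lit 934)),(k4,(nat_lit 959)),(k5,(nat_lit 959)),(k9,
    (nat_lit 980)),(k0,(nat_lit 1133)),(k2,(nat_lit 1292)),(k7,(nat_lit 1436))],[(k2,(nat_lit 482)),(k7,
    (nat_lit 626)),(k5,(nat_lit 641)),(k9,(nat_lit 662)),(k0,(nat_lit 815)),(k4,(nat_lit 825)),(k6,(nat_lit 1148)),
    (k3,(nat_lit 1292))],[(k0,(nat_lit 482)),(k9,(nat_lit 513)),(k7,(nat_lit 601)),(k2,(nat_lit 641)),(k4,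
    (nat_lit 800)),(k5,(nat_lit 800)),(k3,(nat_lit 959)),(k6,(nat_lit 999))],[(k0,(nat_lit 482)),(k9,(nat_lit 513)),
    (k7,(nat_lit 785)),(k4,(nat_lit 800)),(k5,(nat_lit 800)),(k2,(nat_lit 825)),(k3,(nat_lit 959)),(k6,
    (nat_lit 999))],[(k5,(nat_lit 601)),(k2,(nat_lit 626)),(k7,(nat_lit 770)),(k4,(nat_lit 785)),(k9,(nat_lit 806)),
    (k0,(nat_lit 959)),(k6,(nat_lit 1292)),(k3,(nat_lit 1436))],[(k3,(nat_lit 482)),(k4,(nat_lit 999)),(k5,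
    (nat_lit 999)),(k6,(nat_lit 1014)),(k9,(nat_lit 1020)),(k2,(nat_lit 1148)),(k0,(nat_lit 1173)),(k7,
    (nat_lit 1292))],[(k4,(nat_lit 513)),(k5,(nat_lit 513)),(k2,(nat_lit 662)),(k7,(nat_lit 806)),(k3,(nat_lit 980)),
    (k6,(nat_lit 1020)),(k9,(nat_lit 1026)),(k0,(nat_lit 1671))],[(k11,(nat_lit 662)),(k10,(nat_lit 712)),(k1,
    (nat_lit 739)),(k8,(nat_lit 842))],[(k10,(nat_lit 482)),(k11,(nat_lit 482)),(k1,(nat_lit 509)),(k8,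
    (nat_lit 662))],[(k10,(nat_lit 482)),(k11,(nat_lit 482)),(k1,(nat_lit 559)),(k8,(nat_lit 712))]]
    [[k2,k0,k1,k0,k0,k0],[k1,k0,k1,k0,k1,k0],[k2,k0,k1,k0,k0,k1],[k1,k0,k1,k0,k1,k1],[k0,k2,k0,k2,k0,k0],[k0,k1,k1,k1,
    k0,k0],[k0,k0,k1,k0,k2,k0],[k0,k0,k0,k0,k0,k3],[k0,k0,k0,k0,k0,k4]]
    [.contra [z6,y1,z2,z6,y6],.contra [y1,z0,y1,y2,z3],.contra [z3,z1,z1,z3,y3],.contra [z3,z1,z1,z0,y3],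
    .ref k26 k1 [(z6,[z3,y2,y2,z12]),(z2,[z1]),(z1,[z0,z0,y1,y3,z3])],.contra [y1,z0,z0,y1,z1],.contra [y3,y1,y1,z3,
    z3],.ref k27 k1 [(z2,[y1,y1,z0,z6]),(z1,[y1,z0,z1]),(z1,[z0,z0,y1,y3,z3])],.ref k31 k1 [(z2,[y3,y4,z0,z24]),(z2,
    [y3,z0,z4]),(z1,[z0,z0,y1,y3,z3])]],
    .base (.leafM k10 [k1,k2,k3,k5] [(z1,[z0,z1]),(z1,[y1,y1,y3,z3]),(z1,[z1])] [(k4,k0,z1,[z0,z0,z1]),(k0,k4,z1,[z0,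
    z0,z1])]),
    .base (.geo z12 k0 [(z9,z0),(z6,z0),(z8,z0),(z4,z0),(z15,z0),(z6,z0)] [(z1,[z3]),(z1,[z0,z6]),(z1,[z0,z0,z4]),(z1,
    [z0,z0,z0,z4]),(z1,[y3,z0,z0,z0,z12]),(z1,[z0,y6,y4,y4,y12,z12])] k1),
    .lp k0 [k196,(nat_lit 208),k184,(nat_lit 255),(nat_lit 202),k150] [k92,k92,k114,k58,k98,k98,k0,k125,k116,k62,k115,
    k115] k0 [[k0,k0,k8,k0,k32,k0,k0,k0,k0,k0,k0,k0],[k0,k0,k0,k0,k32,k0,k0,(nat_lit 202),k0,k0,k0,k0],[k0,k0,k0,k32,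
    k16,k0,k0,k0,k0,k0,k0,k0],[k0,k8,k0,k0,k0,k0,k84,k0,k0,k0,k0,k0],[k0,k0,k0,k0,k0,k0,k100,k0,k0,k0,k0,k0],[k32,k32,
    k0,k16,k0,k0,k0,k0,k0,k0,k0,k0],[(nat_lit 202),k0,k0,k0,k0,k0,k0,k0,k0,k0,k0,k0],[k0,k0,k84,k0,k0,k100,k0,k0,k0,
    k0,k0,k0],[k0,k0,k0,k0,k0,k0,k0,k0,k0,k0,k0,k0],[k0,k0,k0,k0,k0,k0,k0,k0,k0,k0,k46,k0],[k0,k0,k0,k0,k0,k0,k0,k0,
    k0,k0,k0,k0],[k0,k0,k0,k0,k0,k0,k0,k0,k46,k0,k0,k0]] (nat_lit 600) k6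
    [[(k11,k127),(k8,k172),(k10,k173),(k1,k196)],[(k7,k131),(k2,k174),(k5,k182),(k0,k196),(k4,(nat_lit 222)),(k3,
    (nat_lit 230)),(k6,(nat_lit 288)),(k9,(nat_lit 428))],[(k6,k120),(k7,k165),(k2,(nat_lit 216)),(k5,(nat_lit 224)),
    (k0,(nat_lit 230)),(k4,(nat_lit 256)),(k9,(nat_lit 260)),(k3,(nat_lit 264))],[(k2,k120),(k7,k125),(k4,k168),(k5,
    k168),(k0,k174),(k9,(nat_lit 204)),(k3,(nat_lit 216)),(k6,(nat_lit 350))],[(k9,k136),(k7,k157),(k2,k168),(k0,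
    k182),(k4,(nat_lit 200)),(k5,(nat_lit 216)),(k3,(nat_lit 224)),(k6,(nat_lit 282))],[(k9,k120),(k7,k157),(k2,k168),
    (k4,k184),(k5,(nat_lit 200)),(k0,(nat_lit 222)),(k3,(nat_lit 256)),(k6,(nat_lit 282))],[(k2,k125),(k7,k130),(k0,
    k131),(k4,k157),(k5,k157),(k3,k165),(k9,k193),(k6,(nat_lit 355))],[(k3,k120),(k4,(nat_lit 282)),(k5,
    (nat_lit 282)),(k0,(nat_lit 288)),(k9,(nat_lit 318)),(k2,(nat_lit 350)),(k7,(nat_lit 355)),(k6,(nat_lit 380))],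
    [(k4,k120),(k5,k136),(k7,k193),(k2,(nat_lit 204)),(k9,(nat_lit 256)),(k3,(nat_lit 260)),(k6,(nat_lit 318)),(k0,
    (nat_lit 428))],[(k8,k148),(k11,k149),(k1,k172),(k10,k195)],[(k1,k127),(k8,k149),(k10,k150),(k11,k150)],[(k10,
    k150),(k11,k150),(k1,k173),(k8,k195)]]
    [[k1,k0,k1,k0,k1,k0],[k2,k0,k0,k0,k0,k1],[k0,k2,k0,k1,k0,k0],[k0,k1,k2,k0,k0,k0],[k0,k2,k0,k2,k0,k0],[k0,k1,k1,k1,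
    k0,k0],[k0,k0,k1,k0,k2,k0],[k0,k0,k0,k0,k0,k3]]
    [.contra [y1,z0,z1,z0,z1],.ref k34 k0 [(z3,[z6,z6,z2,z1,z6,y6]),(z3,[y6,z0,y2,y1,z6,z6]),(z1,[z0,z0,z1]),(z1,[z3,
    z3,z1,z1,y3,y3])],.contra [y7,z14,z0,z2,z4],.ref k1 k0 [(z2,[y3,z3,z2,z0,z6]),(z1,[z3,z0,y2]),(z1,[z0,z0,z1]),(z1,
    [y6,z6,z4,z1])],.contra [z3,y6,z1,y1],.contra [z6,y6,z1,y1],.contra [z3,z4,y1,z0,z2],.contra [z2,z6,z3,z1,z6,y6]]]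

theorem hB6_105_2 : blkB [0, 0, 0, 0, 1, 1] [(0, 4)] sp6 hS6_105 (pcls (n := 6) [0, 0, 0, 0, 1, 1]) hD6_105 111 2 hN6_105_2 = true := by
  decide +kernel

/-- nodes 36 to 47 -/
noncomputable def hN6_105_3 : List HM :=
  [.base (.geo z12 k0 [(z9,z0),(z8,z0),(z8,z0),(z2,z0),(z15,z0),(z6,z0)] [(z1,[z3]),(z1,[z0,z4]),(z1,[z0,z0,z4]),(z1,
    [z0,z0,z0,z2]),(z1,[y3,z0,z0,z0,z12]),(z1,[z0,y4,y4,y2,y12,z12])] k1),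
    .base (.geo z12 k0 [(z9,z0),(z7,z0),(z8,z0),(z3,z0),(z15,z0),(z6,z0)] [(z1,[z3]),(z1,[z0,z1]),(z1,[z0,z0,z4]),(z1,
    [z0,z0,z0,z3]),(z1,[y3,z0,z0,z0,z12]),(z1,[z0,y1,y4,y3,y12,z12])] k1),
    .lp k0 [(nat_lit 6230),(nat_lit 4340),(nat_lit 5600),(nat_lit 6230),(nat_lit 6860),
    (nat_lit 4200)] [(nat_lit 1296),(nat_lit 1296),(nat_lit 2731),(nat_lit 1751),(nat_lit 1611),(nat_lit 1611),k0,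
    (nat_lit 2592),(nat_lit 1821),k141,(nat_lit 2311),(nat_lit 2311)] k0 [[k0,k0,k0,(nat_lit 1260),(nat_lit 1260),k0,
    k0,(nat_lit 630),k0,k0,k0,k0],[(nat_lit 840),k0,k0,k0,k0,k0,k0,(nat_lit 3710),k0,k0,k0,k0],[k0,(nat_lit 1260),k0,
    k0,k0,k0,k0,k0,k0,k0,k0,k0],[k0,k0,k0,k0,k0,k0,(nat_lit 3710),k0,k0,k0,k0,k0],[k0,k0,k0,k0,k0,k0,(nat_lit 3710),
    k0,k0,k0,k0,k0],[k0,(nat_lit 1260),k0,k0,k0,k0,k0,k0,k0,k0,k0,k0],[(nat_lit 3710),(nat_lit 630),k0,k0,k0,k0,k0,k0,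
    k0,k0,k0,k0],[k0,k0,(nat_lit 3710),k0,k0,(nat_lit 3710),k0,k0,k0,k0,k0,k0],[k0,k0,k0,k0,k0,k0,k0,k0,k0,k0,k0,k0],
    [k0,k0,k0,k0,k0,k0,k0,k0,k0,k0,(nat_lit 700),k0],[k0,k0,k0,k0,k0,k0,k0,k0,k0,k0,k0,k0],[k0,k0,k0,k0,k0,k0,k0,k0,
    (nat_lit 700),k0,k0,k0]] (nat_lit 16800) k6
    [[(k11,(nat_lit 4515)),(k10,(nat_lit 5215)),(k8,(nat_lit 5705)),(k1,(nat_lit 6230))],[(k2,(nat_lit 3535)),(k7,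
    (nat_lit 3674)),(k3,(nat_lit 5775)),(k4,(nat_lit 5915)),(k5,(nat_lit 5915)),(k6,(nat_lit 6896)),(k0,
    (nat_lit 7070)),(k9,(nat_lit 11095))],[(k6,(nat_lit 3361)),(k2,(nat_lit 4340)),(k7,(nat_lit 4479)),(k3,
    (nat_lit 4480)),(k0,(nat_lit 5775)),(k4,(nat_lit 6720)),(k5,(nat_lit 6720)),(k9,(nat_lit 7560))],[(k2,
    (nat_lit 3360)),(k7,(nat_lit 3499)),(k0,(nat_lit 3535)),(k3,(nat_lit 4340)),(k4,(nat_lit 4480)),(k5,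
    (nat_lit 4480)),(k9,(nat_lit 5950)),(k6,(nat_lit 9801))],[(k9,(nat_lit 3360)),(k2,(nat_lit 4480)),(k7,
    (nat_lit 4619)),(k4,(nat_lit 5600)),(k5,(nat_lit 5600)),(k0,(nat_lit 5915)),(k3,(nat_lit 6720)),(k6,
    (nat_lit 7211))],[(k9,(nat_lit 3360)),(k2,(nat_lit 4480)),(k7,(nat_lit 4619)),(k4,(nat_lit 5600)),(k5,
    (nat_lit 5600)),(k0,(nat_lit 5915)),(k3,(nat_lit 6720)),(k6,(nat_lit 7211))],[(k2,(nat_lit 3499)),(k7,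
    (nat_lit 3638)),(k0,(nat_lit 3674)),(k3,(nat_lit 4479)),(k4,(nat_lit 4619)),(k5,(nat_lit 4619)),(k9,
    (nat_lit 6089)),(k6,(nat_lit 9940))],[(k3,(nat_lit 3361)),(k0,(nat_lit 6896)),(k4,(nat_lit 7211)),(k5,
    (nat_lit 7211)),(k9,(nat_lit 8681)),(k6,(nat_lit 8822)),(k2,(nat_lit 9801)),(k7,(nat_lit 9940))],[(k4,
    (nat_lit 3360)),(k5,(nat_lit 3360)),(k2,(nat_lit 5950)),(k7,(nat_lit 6089)),(k3,(nat_lit 7560)),(k9,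
    (nat_lit 8540)),(k6,(nat_lit 8681)),(k0,(nat_lit 11095))],[(k11,(nat_lit 4690)),(k8,(nat_lit 5180)),(k10,
    (nat_lit 5390)),(k1,(nat_lit 5705))],[(k10,(nat_lit 4200)),(k11,(nat_lit 4200)),(k1,(nat_lit 4515)),(k8,
    (nat_lit 4690))],[(k10,(nat_lit 4200)),(k11,(nat_lit 4200)),(k1,(nat_lit 5215)),(k8,(nat_lit 5390))]]
    [[k2,k1,k0,k0,k0,k0],[k1,k0,k1,k0,k1,k0],[k0,k3,k0,k0,k0,k0],[k0,k4,k0,k0,k0,k0],[k0,k3,k0,k1,k0,k0],[k0,k2,k1,k0,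
    k0,k0],[k0,k2,k0,k1,k0,k0],[k0,k2,k0,k2,k0,k0],[k0,k1,k1,k1,k0,k0],[k0,k0,k1,k0,k2,k0],[k0,k0,k0,k0,k0,k3]]
    [.ref k34 k0 [(z1,[z0,z1]),(z1,[z2,y1]),(z1,[z0,z0,z0,z1]),(z2,[y6,z3,z1])],.contra [y3,z2,z0,z1,z3],
    .ref k36 k0 [(z1,[z0,z1]),(z1,[z1]),(z1,[z0,z0,z0,z1]),(z1,[y2,z0,z1])],.ref k34 k0 [(z1,[z0,z1]),(z2,[z1]),(z1,
    [z0,z0,z0,z1]),(z4,[y3,z0,z2])],.ref k37 k0 [(z1,[z0,z1]),(z1,[z6,z0,y1]),(z1,[z0,z0,z0,z1]),(z1,[y2,z0,z1])],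
    .ref k36 k0 [(z1,[z0,z1]),(z2,[z3,z0,z0,y1]),(z1,[z0,z0,z0,z1]),(z1,[y3,z0,z1,z1])],.contra [y6,z0,z2,z1],
    .contra [z3,z1,y1],.contra [z6,z3,y1,y2],.contra [y3,z2,z0,z1,z6],.contra [z2,z1,z1,z2,z6,y6]],
    .lp k0 [k40,k38,k40,k47,k44,k30] [k14,k14,k22,k8,k14,k14,k0,k21,k18,k6,k16,k22] k0 [[k0,k0,k6,k2,k2,k0,k0,k0,k0,
    k0,k0,k0],[k0,k0,k0,k0,k6,k0,k0,k36,k0,k0,k0,k0],[k0,k2,k0,k0,k0,k0,k0,k0,k0,k0,k0,k0],[k0,k6,k0,k0,k4,k0,k24,k0,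
    k0,k0,k0,k0],[k0,k0,k0,k0,k0,k0,k24,k0,k0,k0,k0,k0],[k6,k2,k4,k0,k0,k0,k0,k0,k0,k0,k0,k0],[k36,k0,k0,k0,k0,k0,k0,
    k0,k0,k0,k0,k0],[k0,k0,k24,k0,k0,k24,k0,k0,k0,k0,k0,k0],[k0,k0,k0,k0,k0,k0,k0,k0,k0,k0,k0,k10],[k0,k0,k0,k0,k0,k0,
    k0,k0,k0,k0,k0,k0],[k0,k0,k0,k0,k0,k0,k0,k0,k0,k10,k0,k0],[k0,k0,k0,k0,k0,k0,k0,k0,k0,k0,k0,k0]] k120 k6
    [[(k8,k36),(k10,k38),(k1,k40),(k11,k42)],[(k2,k30),(k7,k31),(k5,k34),(k0,k40),(k3,k46),(k4,k46),(k6,k54),(k9,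
    k84)],[(k6,k24),(k7,k33),(k2,k44),(k0,k46),(k4,k48),(k5,k48),(k3,k52),(k9,k54)],[(k2,k24),(k7,k25),(k0,k30),(k5,
    k32),(k4,k36),(k9,k40),(k3,k44),(k6,k70)],[(k9,k24),(k7,k29),(k2,k32),(k0,k34),(k4,k40),(k5,k40),(k3,k48),(k6,
    k54)],[(k9,k24),(k7,k33),(k2,k36),(k4,k40),(k5,k40),(k0,k46),(k3,k48),(k6,k54)],[(k2,k25),(k7,k26),(k5,k29),(k0,
    k31),(k3,k33),(k4,k33),(k9,k41),(k6,k71)],[(k3,k24),(k0,k54),(k4,k54),(k5,k54),(k9,k62),(k6,k68),(k2,k70),(k7,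
    k71)],[(k4,k24),(k5,k24),(k2,k40),(k7,k41),(k3,k54),(k9,k56),(k6,k62),(k0,k84)],[(k10,k24),(k11,k28),(k8,k32),(k1,
    k36)],[(k11,k24),(k8,k28),(k10,k30),(k1,k42)],[(k8,k24),(k11,k30),(k10,k36),(k1,k38)]]
    [[k2,k1,k0,k0,k0,k0],[k1,k0,k1,k0,k1,k0],[k0,k2,k0,k1,k0,k0],[k0,k2,k0,k2,k0,k0],[k0,k1,k1,k1,k0,k0],[k0,k0,k1,k0,
    k2,k0],[k0,k0,k1,k0,k2,k1],[k0,k0,k0,k0,k2,k1],[k0,k0,k0,k0,k0,k3]]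
    [.ref k35 k0 [(z1,[z1,z0,z0,y2]),(z1,[z0,z0,z1]),(z1,[y6,z1,z0,z12])],.contra [y1,z0,z1,z1],.contra [y6,z2,z1],
    .contra [z3,y1,z1],.contra [z6,y1,z1],.ref k22 k1 [(z2,[z3,z0,y1]),(z1,[z0,z1]),(z1,[z0,z0,z1])],.ref k31 k1 [(z1,
    [z6,z1,z0,z6,y6]),(z1,[z0,z1]),(z1,[z0,z0,z1])],.ref k38 k1 [(z3,[z6,z1,z2,z6,y6]),(z1,[z0,z1]),(z1,[z0,z0,z1])],
    .contra [z2,z1,z3,z6,y6]],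
    .lp (nat_lit 65537) [(nat_lit 842),(nat_lit 984),(nat_lit 800),(nat_lit 800),(nat_lit 892),
    (nat_lit 482)] [(nat_lit 297),(nat_lit 297),(nat_lit 452),k0,(nat_lit 318),(nat_lit 318),(nat_lit 278),
    (nat_lit 358),(nat_lit 400),k144,(nat_lit 477),(nat_lit 477)] k0 [[k0,k0,(nat_lit 308),k0,k0,(nat_lit 308),k0,k0,
    k0,k0,k0,k0],[k184,k0,k0,k0,k0,k0,k0,(nat_lit 676),k0,k0,k0,k0],[k0,k0,k0,k0,k0,k184,k0,k0,k0,k0,k0,k0],[k0,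
    (nat_lit 308),k0,k0,k0,k0,(nat_lit 492),k0,k0,k0,k0,k0],[k0,(nat_lit 308),k0,k184,k0,k0,(nat_lit 492),k0,k0,k0,k0,
    k0],[k0,k0,k0,k0,k0,k0,k0,k0,k0,k0,k0,k0],[(nat_lit 676),k0,k0,k0,k0,k0,k0,k184,k0,k0,k0,k0],[k0,k0,(nat_lit 492),
    k0,k0,(nat_lit 492),k0,k0,k0,k0,k0,k0],[k0,k0,k0,k0,k0,k0,k0,k0,k0,k0,k0,k50],[k0,k0,k0,k0,k0,k0,k0,k0,k0,k0,k0,
    k0],[k0,k0,k0,k0,k0,k0,k0,k0,k0,k50,k0,k0],[k0,k0,k0,k0,k0,k0,k0,k0,k0,k0,k0,k0]] (nat_lit 2400) k6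
    [[(k10,(nat_lit 662)),(k11,(nat_lit 712)),(k8,(nat_lit 739)),(k1,(nat_lit 842))],[(k4,(nat_lit 513)),(k5,
    (nat_lit 513)),(k2,(nat_lit 687)),(k7,(nat_lit 781)),(k6,(nat_lit 861)),(k0,(nat_lit 1026)),(k3,(nat_lit 1139)),
    (k9,(nat_lit 1671))],[(k6,(nat_lit 482)),(k4,(nat_lit 1118)),(k5,(nat_lit 1118)),(k0,(nat_lit 1139)),(k3,
    (nat_lit 1252)),(k2,(nat_lit 1292)),(k9,(nat_lit 1292)),(k7,(nat_lit 1386))],[(k4,(nat_lit 482)),(k2,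
    (nat_lit 532)),(k7,(nat_lit 626)),(k5,(nat_lit 666)),(k0,(nat_lit 687)),(k9,(nat_lit 840)),(k6,(nat_lit 1198)),
    (k3,(nat_lit 1292))],[(k9,(nat_lit 482)),(k0,(nat_lit 513)),(k2,(nat_lit 666)),(k4,(nat_lit 800)),(k5,
    (nat_lit 800)),(k6,(nat_lit 840)),(k7,(nat_lit 944)),(k3,(nat_lit 1118))],[(k2,(nat_lit 482)),(k9,(nat_lit 482)),
    (k0,(nat_lit 513)),(k7,(nat_lit 760)),(k4,(nat_lit 800)),(k5,(nat_lit 800)),(k6,(nat_lit 840)),(k3,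
    (nat_lit 1118))],[(k2,(nat_lit 626)),(k7,(nat_lit 720)),(k4,(nat_lit 760)),(k0,(nat_lit 781)),(k9,(nat_lit 934)),
    (k5,(nat_lit 944)),(k6,(nat_lit 1292)),(k3,(nat_lit 1386))],[(k3,(nat_lit 482)),(k6,(nat_lit 696)),(k4,
    (nat_lit 840)),(k5,(nat_lit 840)),(k0,(nat_lit 861)),(k9,(nat_lit 1014)),(k2,(nat_lit 1198)),(k7,(nat_lit 1292))],
    [(k4,(nat_lit 482)),(k5,(nat_lit 482)),(k2,(nat_lit 840)),(k7,(nat_lit 934)),(k6,(nat_lit 1014)),(k3,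
    (nat_lit 1292)),(k9,(nat_lit 1332)),(k0,(nat_lit 1671))],[(k10,(nat_lit 509)),(k11,(nat_lit 559)),(k8,
    (nat_lit 636)),(k1,(nat_lit 739))],[(k10,(nat_lit 482)),(k11,(nat_lit 482)),(k8,(nat_lit 559)),(k1,
    (nat_lit 712))],[(k10,(nat_lit 482)),(k11,(nat_lit 482)),(k8,(nat_lit 509)),(k1,(nat_lit 662))]]
    [[k2,k0,k1,k0,k0,k0],[k1,k0,k1,k0,k1,k0],[k1,k0,k1,k0,k1,k1],[k0,k2,k0,k2,k0,k0],[k0,k1,k1,k1,k0,k0],[k0,k0,k1,k0,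
    k2,k0],[k0,k0,k1,k0,k2,k1],[k0,k0,k0,k0,k0,k3],[k0,k0,k0,k0,k0,k4]]
    [.ref k7 k0 [(z2,[z3,z1,z3,y3]),(z1,[z0,z1])],.contra [y1,y1,y2,z3],.contra [z1,z0,y1],.ref k25 k0 [(z2,[z1]),(z1,
    [z0,y1,y3,z3])],.contra [y1,z0,y1,z1],.ref k7 k1 [(z2,[z3,z1,z3,y3]),(z1,[z0,z1])],.ref k32 k0 [(z1,[y3,y1,z3,
    z3]),(z1,[z0,z1])],.ref k33 k0 [(z1,[y1,z1]),(z1,[z0,y1,y3,z3])],.ref k39 k0 [(z2,[y3,z4]),(z1,[z0,y1,y3,z3])]],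
    .base (.geo z3 k4 [(z6,y3),(y6,z12),(z4,y6),(z6,y6),(z0,z3),(z2,z0)] [(z1,[z0,z0,z0,z3]),(z1,[z3]),(z1,[z0,z1]),
    (z1,[z0,z0,z3]),(z1,[]),(z1,[y3,y1,y3,y3,z3])] k6),
    .base (.geo z9 k0 [(z8,z0),(z2,z0),(z8,z0),(z2,z0),(z10,z0),(z6,z0)] [(z1,[z1]),(z1,[z0,z1]),(z1,[z0,z0,z1]),(z1,
    [z0,z0,z0,z1]),(z1,[y1,z0,z0,z0,z9]),(z1,[z0,y1,y1,y1,y9,z9])] k1),
    .lp (nat_lit 65537) [(nat_lit 1958),(nat_lit 1774),(nat_lit 1252),(nat_lit 1774),(nat_lit 1242),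
    (nat_lit 1600)] [(nat_lit 288),(nat_lit 338),(nat_lit 810),k0,(nat_lit 666),(nat_lit 666),k0,(nat_lit 810),
    (nat_lit 671),(nat_lit 671),(nat_lit 492),(nat_lit 492)] k0 [[k0,k0,k0,(nat_lit 522),(nat_lit 522),k0,k0,
    (nat_lit 542),k0,k0,k0,k0],[k0,k0,k0,k0,k0,k0,k0,(nat_lit 1620),k0,k0,k0,k0],[k0,(nat_lit 522),k0,k0,k0,k0,k0,k0,
    k0,k0,k0,k0],[k0,k0,k0,k0,k0,k0,k0,k0,k0,k0,k0,k0],[k0,k0,k0,k0,k0,k0,k0,k0,k0,k0,k0,k0],[k0,(nat_lit 522),k0,k0,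
    k0,k0,k0,k0,k0,k0,k0,k0],[(nat_lit 1620),(nat_lit 542),k0,k0,k0,k0,k0,k0,k0,k0,k0,k0],[k0,k0,k0,k0,k0,k0,k0,k0,k0,
    k0,k0,k0],[k0,k0,k0,k0,k0,k0,k0,k0,k0,k0,k0,k0],[k0,k0,k0,k0,k0,k0,k0,k0,k0,k0,(nat_lit 716),k0],[k0,k0,k0,k0,k0,
    k0,k0,k0,k0,k0,k0,k0],[k0,k0,k0,k0,k0,k0,k0,k0,(nat_lit 716),k0,k0,k0]] (nat_lit 4800) k6
    [[(k11,(nat_lit 1038)),(k8,(nat_lit 1575)),(k10,(nat_lit 1754)),(k1,(nat_lit 1908))],[(k2,(nat_lit 964)),(k7,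
    (nat_lit 964)),(k4,(nat_lit 1630)),(k5,(nat_lit 1630)),(k6,(nat_lit 1754)),(k0,(nat_lit 2008)),(k3,
    (nat_lit 2296)),(k9,(nat_lit 3245))],[(k6,(nat_lit 964)),(k2,(nat_lit 1774)),(k7,(nat_lit 1774)),(k0,
    (nat_lit 2296)),(k4,(nat_lit 2440)),(k5,(nat_lit 2440)),(k9,(nat_lit 2455)),(k3,(nat_lit 2584))],[(k0,
    (nat_lit 964)),(k2,(nat_lit 964)),(k7,(nat_lit 964)),(k9,(nat_lit 1103)),(k4,(nat_lit 1108)),(k5,(nat_lit 1108)),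
    (k3,(nat_lit 1774)),(k6,(nat_lit 1774))],[(k2,(nat_lit 1108)),(k7,(nat_lit 1108)),(k9,(nat_lit 1247)),(k4,
    (nat_lit 1252)),(k5,(nat_lit 1252)),(k0,(nat_lit 1630)),(k6,(nat_lit 1918)),(k3,(nat_lit 2440))],[(k2,
    (nat_lit 1108)),(k7,(nat_lit 1108)),(k9,(nat_lit 1247)),(k4,(nat_lit 1252)),(k5,(nat_lit 1252)),(k0,
    (nat_lit 1630)),(k6,(nat_lit 1918)),(k3,(nat_lit 2440))],[(k0,(nat_lit 964)),(k2,(nat_lit 964)),(k7,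
    (nat_lit 964)),(k9,(nat_lit 1103)),(k4,(nat_lit 1108)),(k5,(nat_lit 1108)),(k3,(nat_lit 1774)),(k6,
    (nat_lit 1774))],[(k3,(nat_lit 964)),(k0,(nat_lit 1754)),(k2,(nat_lit 1774)),(k7,(nat_lit 1774)),(k9,
    (nat_lit 1913)),(k4,(nat_lit 1918)),(k5,(nat_lit 1918)),(k6,(nat_lit 2584))],[(k2,(nat_lit 1103)),(k7,
    (nat_lit 1103)),(k9,(nat_lit 1242)),(k4,(nat_lit 1247)),(k5,(nat_lit 1247)),(k6,(nat_lit 1913)),(k3,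
    (nat_lit 2455)),(k0,(nat_lit 3245))],[(k8,(nat_lit 1242)),(k11,(nat_lit 1421)),(k1,(nat_lit 1575)),(k10,
    (nat_lit 2137))],[(k1,(nat_lit 1038)),(k8,(nat_lit 1421)),(k10,(nat_lit 1600)),(k11,(nat_lit 1600))],[(k10,
    (nat_lit 1600)),(k11,(nat_lit 1600)),(k1,(nat_lit 1754)),(k8,(nat_lit 2137))]]
    [[k2,k0,k0,k1,k0,k0],[k1,k1,k0,k1,k1,k0],[k1,k0,k1,k0,k1,k0],[k1,k0,k0,k1,k1,k0],[k0,k2,k0,k1,k0,k0],[k0,k2,k0,k2,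
    k0,k0],[k0,k1,k1,k1,k0,k0],[k0,k1,k2,k1,k0,k0],[k0,k1,k0,k2,k0,k0],[k0,k1,k0,k1,k2,k0],[k0,k0,k3,k0,k0,k0],[k0,k0,
    k2,k1,k0,k0],[k0,k0,k1,k0,k2,k0],[k0,k0,k0,k1,k2,k0]]
    [.ref k42 k0 [(z1,[z3,z0,z0,y1,z3]),(z1,[y6,z9,z0,z2,z12]),(z1,[z3,z0,z9,y1,y6]),(z1,[z3,z0,z0,z2,y6])],
    .contra [z3,y1,z0,y1,y2],.contra [z1,z0,y1],.contra [z1,z0,z0,z0,y1],.contra [y1,z2,z0,z1,z1],.contra [y1,z2,z0,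
    z1,z1],.contra [z1,y3,y3,y1,y2,z2],.contra [z1,y1,y2],.contra [z1,y5,y4,y2,y4,z4],.contra [z3,z2,z0,y1,z1],
    .contra [z1,z0,y3,z1],.ref k42 k0 [(z1,[z3,z0,y6,y1,z9]),(z1,[y6,z9,z12,z2]),(z1,[z3,z0,z3,y1]),(z1,[z3,z0,y6,
    z2])],.contra [z1,z1,y1,z0,z1],.contra [z3,z2,z0,y1,z1]],
    .base (.leafM k8 [k3,k5,k1,k2] [(z1,[y3,y1,y3,y3,z3]),(z1,[z0,z1]),(z1,[z1,z0,z1])] [(k4,k0,z1,[z0,z0,z0,z1]),(k0,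
    k4,z1,[z0,z0,z0,z1])]),
    .base (.leafM k10 [k1,k2,k3,k5] [(z1,[z0,z1]),(z1,[y3,y1,y1,y3,z3]),(z1,[z3,z0,z1])] [(k4,k0,z1,[z0,z0,z0,z1]),
    (k0,k4,z1,[z0,z0,z0,z1])]),
    .base (.geo z6 k4 [(z12,y6),(y12,z12),(z3,z0),(z17,y12),(z0,z6),(z4,z0)] [(z1,[z0,z0,z0,z6]),(z1,[z6]),(z1,[z0,
    z3]),(z1,[z0,z0,z1]),(z1,[]),(z1,[y6,y3,y1,y6,z6])] k8),
    .lp (nat_lit 65537) [(nat_lit 1788),(nat_lit 1694),(nat_lit 1224),(nat_lit 1788),(nat_lit 1506),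
    (nat_lit 1600)] [k162,(nat_lit 658),(nat_lit 820),k94,(nat_lit 692),(nat_lit 692),k0,(nat_lit 820),(nat_lit 551),
    (nat_lit 551),(nat_lit 504),(nat_lit 504)] k0 [[k0,k188,k0,(nat_lit 658),(nat_lit 658),k0,k0,k0,k0,k0,k0,k0],[k0,
    k0,k0,k0,k0,k0,k94,(nat_lit 1546),k0,k0,k0,k0],[k0,(nat_lit 658),k0,k0,k0,k0,k0,k0,k0,k0,k0,k0],[k0,k0,k0,k0,k0,
    k0,k0,k0,k0,k0,k0,k0],[k0,k0,k0,k0,k0,k0,k0,k0,k0,k0,k0,k0],[k0,(nat_lit 658),k0,k0,k0,k0,k0,k0,k0,k0,k0,k0],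
    [(nat_lit 1546),k0,k0,k0,k0,k0,k0,k0,k0,k0,k0,k0],[k94,k0,k0,k0,k0,k0,k0,k0,k0,k0,k0,k0],[k0,k0,k0,k0,k0,k0,k0,k0,
    k0,k0,k0,k0],[k0,k0,k0,k0,k0,k0,k0,k0,k0,k0,k188,k0],[k0,k0,k0,k0,k0,k0,k0,k0,k0,k0,k0,k0],[k0,k0,k0,k0,k0,k0,k0,
    k0,k188,k0,k0,k0]] (nat_lit 4800) k6
    [[(k11,(nat_lit 1258)),(k1,(nat_lit 1292)),(k8,(nat_lit 1399)),(k10,(nat_lit 1446))],[(k2,(nat_lit 968)),(k7,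
    (nat_lit 968)),(k4,(nat_lit 1754)),(k5,(nat_lit 1754)),(k0,(nat_lit 2096)),(k3,(nat_lit 2352)),(k6,
    (nat_lit 2540)),(k9,(nat_lit 3441))],[(k6,(nat_lit 968)),(k2,(nat_lit 1694)),(k7,(nat_lit 1694)),(k9,
    (nat_lit 1869)),(k0,(nat_lit 2352)),(k4,(nat_lit 2480)),(k5,(nat_lit 2480)),(k3,(nat_lit 2608))],[(k0,
    (nat_lit 968)),(k2,(nat_lit 968)),(k7,(nat_lit 968)),(k4,(nat_lit 1096)),(k5,(nat_lit 1096)),(k9,(nat_lit 1237)),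
    (k3,(nat_lit 1694)),(k6,(nat_lit 1788))],[(k2,(nat_lit 1096)),(k7,(nat_lit 1096)),(k4,(nat_lit 1224)),(k5,
    (nat_lit 1224)),(k9,(nat_lit 1365)),(k0,(nat_lit 1754)),(k6,(nat_lit 1916)),(k3,(nat_lit 2480))],[(k2,
    (nat_lit 1096)),(k7,(nat_lit 1096)),(k4,(nat_lit 1224)),(k5,(nat_lit 1224)),(k9,(nat_lit 1365)),(k0,
    (nat_lit 1754)),(k6,(nat_lit 1916)),(k3,(nat_lit 2480))],[(k0,(nat_lit 968)),(k2,(nat_lit 968)),(k7,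
    (nat_lit 968)),(k4,(nat_lit 1096)),(k5,(nat_lit 1096)),(k9,(nat_lit 1237)),(k3,(nat_lit 1694)),(k6,
    (nat_lit 1788))],[(k3,(nat_lit 968)),(k2,(nat_lit 1788)),(k7,(nat_lit 1788)),(k4,(nat_lit 1916)),(k5,
    (nat_lit 1916)),(k9,(nat_lit 2057)),(k0,(nat_lit 2540)),(k6,(nat_lit 2608))],[(k2,(nat_lit 1237)),(k7,
    (nat_lit 1237)),(k4,(nat_lit 1365)),(k5,(nat_lit 1365)),(k9,(nat_lit 1506)),(k3,(nat_lit 1869)),(k6,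
    (nat_lit 2057)),(k0,(nat_lit 3441))],[(k1,(nat_lit 1399)),(k8,(nat_lit 1506)),(k11,(nat_lit 1553)),(k10,
    (nat_lit 1741))],[(k1,(nat_lit 1258)),(k8,(nat_lit 1553)),(k10,(nat_lit 1600)),(k11,(nat_lit 1600))],[(k1,
    (nat_lit 1446)),(k10,(nat_lit 1600)),(k11,(nat_lit 1600)),(k8,(nat_lit 1741))]]
    [[k2,k1,k0,k0,k0,k0],[k2,k1,k0,k1,k0,k0],[k1,k1,k0,k1,k1,k0],[k1,k1,k0,k0,k1,k0],[k1,k0,k1,k0,k1,k0],[k1,k0,k0,k1,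
    k1,k0],[k0,k2,k0,k1,k0,k0],[k0,k2,k0,k2,k0,k0],[k0,k1,k1,k1,k0,k0],[k0,k1,k2,k1,k0,k0],[k0,k1,k0,k2,k0,k0],[k0,k1,
    k0,k0,k2,k0],[k0,k0,k3,k0,k0,k0],[k0,k0,k2,k1,k0,k0],[k0,k0,k1,k0,k2,k0]]
    [.contra [z7,y1,z0,z0,y12],.contra [y3,y1,y2,y3,z0,z6],.contra [z7,y1,z0,y7,y5],.contra [y3,z1,z2,z0,z3],
    .contra [z1,z0,z0,z0,y1],.contra [z1,z0,z0,y1,z1],.contra [y3,z2,z1,z9],.contra [y3,z2,z1,z9],.contra [z1,y1,y1,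
    y3,y2,z2],.contra [z3,y1,y2,y3,z6],.contra [z3,y5,y4,y18,y12,z12],.ref k42 k1 [(z2,[z3,y1]),(z1,[y3,z1,z0,z9]),
    (z1,[y3,z1,z3]),(z1,[z6,z1])],.contra [z1,z0,y1,z0,z6],.ref k42 k1 [(z2,[y3,z0,z2,z3]),(z1,[z3,z0,y2,z6]),(z1,[z3,
    z0,z1,y3]),(z1,[y6,z3,z4,z6])],.contra [y3,y2,y1,y6,y6,z6]]]

theorem hB6_105_3 : blkB [0, 0, 0, 0, 1, 1] [(0, 4)] sp6 hS6_105 (pcls (n := 6) [0, 0, 0, 0, 1, 1]) hD6_105 111 3 hN6_105_3 = true := by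
  decide +kernel

/-- nodes 48 to 59 -/
noncomputable def hN6_105_4 : List HM :=
  [.lp (nat_lit 65537) [(nat_lit 6160),(nat_lit 6686),(nat_lit 3706),(nat_lit 7804),(nat_lit 5644),
    (nat_lit 6000)] [(nat_lit 2025),(nat_lit 2025),(nat_lit 3290),(nat_lit 234),(nat_lit 3252),(nat_lit 3252),k0,
    (nat_lit 2406),(nat_lit 3290),(nat_lit 1276),(nat_lit 2105),(nat_lit 2105)] k0 [[k0,k0,k0,(nat_lit 516),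
    (nat_lit 1438),k0,k0,k26,k0,k0,k0,k0],[k0,k0,k0,(nat_lit 516),(nat_lit 1458),k0,k0,(nat_lit 6346),k0,k0,k0,k0],
    [(nat_lit 516),(nat_lit 516),k0,k0,k0,k0,k0,k0,k0,k0,k0,k0],[k0,k0,k0,k0,(nat_lit 922),k0,(nat_lit 2052),k0,k0,k0,
    k0,k0],[k0,k0,k0,k0,k0,k0,(nat_lit 2052),k0,k0,k0,k0,k0],[(nat_lit 1458),(nat_lit 1438),(nat_lit 922),k0,k0,k0,k0,
    k0,k0,k0,k0,k0],[(nat_lit 6346),k26,k0,k0,k0,k0,k0,(nat_lit 392),k0,k0,k0,k0],[k0,k0,(nat_lit 2052),k0,k0,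
    (nat_lit 2052),k0,k0,k0,k0,k0,k0],[k0,k0,k0,k0,k0,k0,k0,k0,k0,k0,k0,k0],[k0,k0,k0,k0,k0,k0,k0,k0,k0,k0,
    (nat_lit 320),k0],[k0,k0,k0,k0,k0,k0,k0,k0,k0,k0,k0,k0],[k0,k0,k0,k0,k0,k0,k0,k0,(nat_lit 320),k0,k0,
    k0]] (nat_lit 18000) k6
    [[(k8,(nat_lit 4895)),(k11,(nat_lit 5760)),(k10,(nat_lit 6080)),(k1,(nat_lit 6160))],[(k7,(nat_lit 4341)),(k2,
    (nat_lit 4379)),(k5,(nat_lit 5449)),(k0,(nat_lit 6160)),(k4,(nat_lit 6391)),(k3,(nat_lit 7951)),(k6,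
    (nat_lit 8159)),(k9,(nat_lit 13255))],[(k6,(nat_lit 3630)),(k7,(nat_lit 6112)),(k2,(nat_lit 6170)),(k5,
    (nat_lit 7240)),(k0,(nat_lit 7951)),(k4,(nat_lit 8162)),(k9,(nat_lit 8726)),(k3,(nat_lit 9742))],[(k2,
    (nat_lit 3630)),(k5,(nat_lit 3668)),(k0,(nat_lit 4379)),(k7,(nat_lit 4514)),(k4,(nat_lit 4590)),(k9,
    (nat_lit 5644)),(k3,(nat_lit 6170)),(k6,(nat_lit 8972))],[(k7,(nat_lit 3630)),(k9,(nat_lit 3630)),(k2,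
    (nat_lit 3668)),(k4,(nat_lit 3706)),(k5,(nat_lit 3706)),(k0,(nat_lit 5449)),(k6,(nat_lit 6958)),(k3,
    (nat_lit 7240))],[(k9,(nat_lit 3630)),(k4,(nat_lit 3706)),(k5,(nat_lit 3706)),(k7,(nat_lit 4552)),(k2,
    (nat_lit 4590)),(k0,(nat_lit 6391)),(k6,(nat_lit 6958)),(k3,(nat_lit 8162))],[(k5,(nat_lit 3630)),(k0,
    (nat_lit 4341)),(k2,(nat_lit 4514)),(k4,(nat_lit 4552)),(k7,(nat_lit 5398)),(k3,(nat_lit 6112)),(k9,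
    (nat_lit 6528)),(k6,(nat_lit 9856))],[(k3,(nat_lit 3630)),(k4,(nat_lit 6958)),(k5,(nat_lit 6958)),(k0,
    (nat_lit 8159)),(k9,(nat_lit 8934)),(k2,(nat_lit 8972)),(k6,(nat_lit 9818)),(k7,(nat_lit 9856))],[(k4,
    (nat_lit 3630)),(k5,(nat_lit 3630)),(k2,(nat_lit 5644)),(k7,(nat_lit 6528)),(k9,(nat_lit 8050)),(k3,
    (nat_lit 8726)),(k6,(nat_lit 8934)),(k0,(nat_lit 13255))],[(k8,(nat_lit 3630)),(k11,(nat_lit 4815)),(k1,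
    (nat_lit 4895)),(k10,(nat_lit 5135))],[(k8,(nat_lit 4815)),(k1,(nat_lit 5760)),(k10,(nat_lit 6000)),(k11,
    (nat_lit 6000))],[(k8,(nat_lit 5135)),(k10,(nat_lit 6000)),(k11,(nat_lit 6000)),(k1,(nat_lit 6080))]]
    [[k1,k0,k1,k0,k1,k0],[k1,k0,k2,k0,k1,k0],[k0,k2,k0,k1,k0,k0],[k0,k1,k2,k0,k0,k0],[k0,k2,k0,k2,k0,k0],[k0,k1,k1,k1,
    k0,k0],[k0,k1,k2,k1,k0,k0],[k0,k0,k3,k0,k0,k0],[k0,k0,k4,k0,k0,k0],[k0,k0,k2,k1,k0,k0],[k0,k0,k2,k0,k2,k0],[k0,k0,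
    k1,k0,k2,k0],[k0,k0,k1,k0,k2,k1]]
    [.contra [z1,z0,z0,y1],.contra [z1,z0,z0,y1],.ref k41 k1 [(z1,[z1,y2,z0,y4]),(z1,[y3,z6,z1,z6]),(z1,[z0,z1,z0,
    z2])],.ref k43 k0 [(z1,[z0,z1]),(z2,[z1,y1]),(z2,[y3,z3,z2])],.ref k44 k0 [(z1,[z0,z1]),(z2,[y3,z6,z2]),(z2,[z1,
    y2])],.contra [z1,y3,y1,y2,z2],.ref k45 k0 [(z1,[z0,z1]),(z1,[z3,y3,y1]),(z1,[y3,z3,z2])],.ref k45 k0 [(z1,[z0,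
    z1]),(z1,[z1]),(z1,[y1,z0,z1])],.ref k46 k0 [(z1,[z0,z1]),(z2,[z1]),(z2,[y3,z0,z4])],.ref k47 k1 [(z1,[y3,z0,z2,
    y12]),(z1,[z3,z0,y1,z6]),(z1,[z0,z1,z0,z2])],.contra [z1,z1],.contra [z1,z1],.contra [z3,z7,z1,z5,y3]],
    .base (.geo z3 k4 [(z6,y3),(z6,y6),(z4,y6),(y6,z12),(z0,z3),(z2,z0)] [(z1,[z0,z0,z0,z3]),(z1,[z3]),(z1,[z0,z1]),
    (z1,[z0,z0,z3]),(z1,[]),(z1,[y3,y1,y3,y3,z3])] k6),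
    .lp k0 [(nat_lit 282),(nat_lit 306),(nat_lit 240),(nat_lit 480),(nat_lit 284),(nat_lit 320)] [(nat_lit 235),
    (nat_lit 235),(nat_lit 280),k166,(nat_lit 256),(nat_lit 256),k0,(nat_lit 272),(nat_lit 252),(nat_lit 216),
    (nat_lit 216),(nat_lit 216)] k0 [[k0,k0,k42,k0,k0,k0,k0,k86,k0,k0,k0,k0],[k0,k0,k2,k0,k0,k2,k0,(nat_lit 394),k0,
    k0,k0,k0],[k0,k0,k0,k0,k0,k0,k0,k0,k0,k0,k0,k0],[k2,k42,k0,k0,k0,k0,k88,k0,k0,k0,k0,k0],[k2,k0,k0,k0,k0,k0,k88,k0,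
    k0,k0,k0,k0],[k0,k0,k0,k0,k0,k0,k0,k0,k0,k0,k0,k0],[(nat_lit 394),k86,k0,k0,k0,k0,k0,k148,k0,k0,k0,k0],[k0,k0,k88,
    k0,k0,k88,k0,k0,k0,k0,k0,k0],[k0,k0,k0,k0,k0,k0,k0,k0,k0,k0,k0,k76],[k0,k0,k0,k0,k0,k0,k0,k0,k0,k0,k0,k0],[k0,k0,
    k0,k0,k0,k0,k0,k0,k0,k76,k0,k0],[k0,k0,k0,k0,k0,k0,k0,k0,k0,k0,k0,k0]] (nat_lit 960) k6
    [[(k8,(nat_lit 265)),(k1,(nat_lit 282)),(k10,(nat_lit 301)),(k11,(nat_lit 377))],[(k5,(nat_lit 219)),(k2,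
    (nat_lit 239)),(k7,(nat_lit 247)),(k4,(nat_lit 261)),(k0,(nat_lit 282)),(k3,(nat_lit 351)),(k6,(nat_lit 431)),(k9,
    (nat_lit 695))],[(k6,k192),(k7,(nat_lit 314)),(k4,(nat_lit 328)),(k5,(nat_lit 328)),(k2,(nat_lit 348)),(k0,
    (nat_lit 351)),(k3,(nat_lit 420)),(k9,(nat_lit 456))],[(k2,k192),(k7,(nat_lit 200)),(k4,(nat_lit 216)),(k5,
    (nat_lit 216)),(k0,(nat_lit 239)),(k9,(nat_lit 256)),(k3,(nat_lit 348)),(k6,(nat_lit 560))],[(k9,k192),(k2,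
    (nat_lit 216)),(k0,(nat_lit 219)),(k7,(nat_lit 224)),(k4,(nat_lit 240)),(k5,(nat_lit 240)),(k3,(nat_lit 328)),(k6,
    (nat_lit 496))],[(k9,k192),(k2,(nat_lit 216)),(k7,(nat_lit 224)),(k4,(nat_lit 240)),(k5,(nat_lit 240)),(k0,
    (nat_lit 261)),(k3,(nat_lit 328)),(k6,(nat_lit 496))],[(k2,(nat_lit 200)),(k7,(nat_lit 208)),(k4,(nat_lit 224)),
    (k5,(nat_lit 224)),(k0,(nat_lit 247)),(k9,(nat_lit 264)),(k3,(nat_lit 314)),(k6,(nat_lit 568))],[(k3,k192),(k0,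
    (nat_lit 431)),(k4,(nat_lit 496)),(k5,(nat_lit 496)),(k9,(nat_lit 536)),(k2,(nat_lit 560)),(k7,(nat_lit 568)),(k6,
    (nat_lit 604))],[(k4,k192),(k5,k192),(k2,(nat_lit 256)),(k7,(nat_lit 264)),(k3,(nat_lit 456)),(k9,(nat_lit 468)),
    (k6,(nat_lit 536)),(k0,(nat_lit 695))],[(k10,(nat_lit 208)),(k8,(nat_lit 248)),(k1,(nat_lit 265)),(k11,
    (nat_lit 284))],[(k8,(nat_lit 284)),(k10,(nat_lit 320)),(k11,(nat_lit 320)),(k1,(nat_lit 377))],[(k8,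
    (nat_lit 208)),(k1,(nat_lit 301)),(k10,(nat_lit 320)),(k11,(nat_lit 320))]]
    [[k2,k1,k0,k0,k0,k0],[k2,k0,k1,k0,k0,k0],[k1,k1,k0,k0,k1,k0],[k1,k0,k1,k0,k1,k0],[k1,k0,k2,k0,k1,k0],[k0,k2,k1,k0,
    k0,k0],[k0,k2,k0,k1,k0,k0],[k0,k2,k1,k1,k0,k0],[k0,k1,k2,k0,k0,k0],[k0,k2,k0,k2,k0,k0],[k0,k1,k1,k1,k0,k0],[k0,k1,
    k2,k1,k0,k0],[k0,k0,k3,k0,k0,k0],[k0,k0,k2,k0,k2,k0],[k0,k0,k1,k0,k2,k0],[k0,k0,k1,k0,k2,k1]]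
    [.ref k42 k0 [(z1,[z3,y1,z0,z0,z3]),(z1,[z3,z2,z0,z0,y6]),(z1,[z3,y1,z9,z0,y6]),(z1,[y6,z2,z0,z9,z12])],
    .contra [z1,z1,y1,z0,y2],.contra [z1,z0,z0,z0,y1],.contra [z1,z0,y1],.contra [z1,z0,y2,z0,z1],.contra [y1,z1,z1,
    z2],.contra [z1,y2,y4,y5,y4,z4],.contra [y1,z1,z1,z2],.ref k42 k0 [(z1,[z3,y1,y6,z0,z9]),(z1,[z3,z2,y6]),(z1,[z3,
    y1,z3]),(z1,[y6,z2,z12,z9])],.contra [y1,z1,z0,z2,z1],.contra [z1,y1,y3,y3,y2,z2],.contra [z1,z0,y2,y1],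
    .contra [z1,z1,y3],.contra [y1,y2,y4,y6,y6,z6],.contra [z1,z0,y1,z1,z1],.contra [z1,z2,z0,z4,z1,y1]],
    .base (.leafM k8 [k3,k5,k1,k2] [(z1,[y3,y1,y3,y3,z3]),(z1,[z0,z1]),(z1,[z1,z0,z1])] [(k4,k0,z1,[z0,z0,z0,z1]),(k0,
    k4,z1,[z0,z0,z0,z1])]),
    .base (.leafM k10 [k1,k2,k3,k5] [(z1,[z0,z1]),(z1,[y3,y1,y1,y3,z3]),(z1,[z3,z0,z1])] [(k4,k0,z1,[z0,z0,z0,z1]),
    (k0,k4,z1,[z0,z0,z0,z1])]),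
    .base (.geo z6 k4 [(z12,y6),(z12,y12),(z3,z0),(y7,z12),(z0,z6),(z4,z0)] [(z1,[z0,z0,z0,z6]),(z1,[z6]),(z1,[z0,
    z3]),(z1,[z0,z0,z1]),(z1,[]),(z1,[y6,y3,y1,y6,z6])] k8),
    .lp k0 [(nat_lit 282),(nat_lit 306),(nat_lit 240),(nat_lit 480),(nat_lit 284),(nat_lit 320)] [(nat_lit 235),
    (nat_lit 235),(nat_lit 280),k166,(nat_lit 256),(nat_lit 256),k0,(nat_lit 272),(nat_lit 252),(nat_lit 216),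
    (nat_lit 216),(nat_lit 216)] k0 [[k0,k0,k42,k0,k0,k0,k0,k86,k0,k0,k0,k0],[k0,k0,k2,k0,k0,k2,k0,(nat_lit 394),k0,
    k0,k0,k0],[k0,k0,k0,k0,k0,k0,k0,k0,k0,k0,k0,k0],[k2,k42,k0,k0,k0,k0,k88,k0,k0,k0,k0,k0],[k2,k0,k0,k0,k0,k0,k88,k0,
    k0,k0,k0,k0],[k0,k0,k0,k0,k0,k0,k0,k0,k0,k0,k0,k0],[(nat_lit 394),k86,k0,k0,k0,k0,k0,k148,k0,k0,k0,k0],[k0,k0,k88,
    k0,k0,k88,k0,k0,k0,k0,k0,k0],[k0,k0,k0,k0,k0,k0,k0,k0,k0,k0,k0,k76],[k0,k0,k0,k0,k0,k0,k0,k0,k0,k0,k0,k0],[k0,k0,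
    k0,k0,k0,k0,k0,k0,k0,k76,k0,k0],[k0,k0,k0,k0,k0,k0,k0,k0,k0,k0,k0,k0]] (nat_lit 960) k6
    [[(k8,(nat_lit 265)),(k1,(nat_lit 282)),(k10,(nat_lit 301)),(k11,(nat_lit 377))],[(k5,(nat_lit 219)),(k2,
    (nat_lit 239)),(k7,(nat_lit 247)),(k4,(nat_lit 261)),(k0,(nat_lit 282)),(k3,(nat_lit 351)),(k6,(nat_lit 431)),(k9,
    (nat_lit 695))],[(k6,k192),(k7,(nat_lit 314)),(k4,(nat_lit 328)),(k5,(nat_lit 328)),(k2,(nat_lit 348)),(k0,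
    (nat_lit 351)),(k3,(nat_lit 420)),(k9,(nat_lit 456))],[(k2,k192),(k7,(nat_lit 200)),(k4,(nat_lit 216)),(k5,
    (nat_lit 216)),(k0,(nat_lit 239)),(k9,(nat_lit 256)),(k3,(nat_lit 348)),(k6,(nat_lit 560))],[(k9,k192),(k2,
    (nat_lit 216)),(k0,(nat_lit 219)),(k7,(nat_lit 224)),(k4,(nat_lit 240)),(k5,(nat_lit 240)),(k3,(nat_lit 328)),(k6,
    (nat_lit 496))],[(k9,k192),(k2,(nat_lit 216)),(k7,(nat_lit 224)),(k4,(nat_lit 240)),(k5,(nat_lit 240)),(k0,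
    (nat_lit 261)),(k3,(nat_lit 328)),(k6,(nat_lit 496))],[(k2,(nat_lit 200)),(k7,(nat_lit 208)),(k4,(nat_lit 224)),
    (k5,(nat_lit 224)),(k0,(nat_lit 247)),(k9,(nat_lit 264)),(k3,(nat_lit 314)),(k6,(nat_lit 568))],[(k3,k192),(k0,
    (nat_lit 431)),(k4,(nat_lit 496)),(k5,(nat_lit 496)),(k9,(nat_lit 536)),(k2,(nat_lit 560)),(k7,(nat_lit 568)),(k6,
    (nat_lit 604))],[(k4,k192),(k5,k192),(k2,(nat_lit 256)),(k7,(nat_lit 264)),(k3,(nat_lit 456)),(k9,(nat_lit 468)),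
    (k6,(nat_lit 536)),(k0,(nat_lit 695))],[(k10,(nat_lit 208)),(k8,(nat_lit 248)),(k1,(nat_lit 265)),(k11,
    (nat_lit 284))],[(k8,(nat_lit 284)),(k10,(nat_lit 320)),(k11,(nat_lit 320)),(k1,(nat_lit 377))],[(k8,
    (nat_lit 208)),(k1,(nat_lit 301)),(k10,(nat_lit 320)),(k11,(nat_lit 320))]]
    [[k2,k1,k0,k0,k0,k0],[k2,k0,k1,k0,k0,k0],[k1,k1,k0,k0,k1,k0],[k1,k0,k1,k0,k1,k0],[k1,k0,k2,k0,k1,k0],[k0,k2,k1,k0,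
    k0,k0],[k0,k2,k0,k1,k0,k0],[k0,k2,k1,k1,k0,k0],[k0,k1,k2,k0,k0,k0],[k0,k2,k0,k2,k0,k0],[k0,k1,k1,k1,k0,k0],[k0,k1,
    k2,k1,k0,k0],[k0,k0,k3,k0,k0,k0],[k0,k0,k2,k0,k2,k0],[k0,k0,k1,k0,k2,k0],[k0,k0,k1,k0,k2,k1]]
    [.contra [z1,y1,z0,z0,z2],.contra [z3,z5,y1,z0,y4],.contra [z1,y1,z0,z0,z1],.contra [z3,z2,y1,z0,y1],.contra [z3,
    z4,y2,z0,z1],.contra [y3,z9,z1,z2],.contra [z3,y18,y4,y5,y12,z12],.contra [y3,z9,z1,z2],.ref k42 k1 [(z2,[y3,z3,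
    z2]),(z1,[y6,z6,z4,z3]),(z1,[z3,y3,z1]),(z1,[z3,z6,y2])],.contra [y3,z11,z0,z2,z2],.contra [z1,y3,y1,y1,y2,z2],
    .contra [z3,y3,y2,y1,z6],.contra [z1,z0,y1,z0,z6],.contra [z3,z1,y2,z0,z4],.contra [y3,y6,y1,y2,y6,z6],
    .contra [y3,y15,y4,y5,y15,z15]],
    .base (.geo z3 k4 [(z6,y3),(z6,y6),(z3,y3),(y5,z9),(z0,z3),(z2,z0)] [(z1,[z0,z0,z0,z3]),(z1,[z3]),(z1,[z0,z3]),
    (z1,[z0,z0,z1]),(z1,[]),(z1,[y3,y3,y1,y3,z3])] k7),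
    .base (.geo z3 k4 [(z6,y3),(z6,y6),(z6,y6),(y8,z12),(z0,z3),(z2,z0)] [(z1,[z0,z0,z0,z3]),(z1,[z3]),(z1,[z0,z3]),
    (z1,[z0,z0,z1]),(z1,[]),(z1,[y3,y3,y1,y3,z3])] k8),
    .lp (nat_lit 65537) [(nat_lit 6160),(nat_lit 6686),(nat_lit 3706),(nat_lit 7804),(nat_lit 5644),
    (nat_lit 6000)] [(nat_lit 2025),(nat_lit 2025),(nat_lit 3290),(nat_lit 234),(nat_lit 3252),(nat_lit 3252),k0,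
    (nat_lit 2406),(nat_lit 3290),(nat_lit 1276),(nat_lit 2105),(nat_lit 2105)] k0 [[k0,k0,k0,(nat_lit 516),
    (nat_lit 1438),k0,k0,k26,k0,k0,k0,k0],[k0,k0,k0,(nat_lit 516),(nat_lit 1458),k0,k0,(nat_lit 6346),k0,k0,k0,k0],
    [(nat_lit 516),(nat_lit 516),k0,k0,k0,k0,k0,k0,k0,k0,k0,k0],[k0,k0,k0,k0,(nat_lit 922),k0,(nat_lit 2052),k0,k0,k0,
    k0,k0],[k0,k0,k0,k0,k0,k0,(nat_lit 2052),k0,k0,k0,k0,k0],[(nat_lit 1458),(nat_lit 1438),(nat_lit 922),k0,k0,k0,k0,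
    k0,k0,k0,k0,k0],[(nat_lit 6346),k26,k0,k0,k0,k0,k0,(nat_lit 392),k0,k0,k0,k0],[k0,k0,(nat_lit 2052),k0,k0,
    (nat_lit 2052),k0,k0,k0,k0,k0,k0],[k0,k0,k0,k0,k0,k0,k0,k0,k0,k0,k0,k0],[k0,k0,k0,k0,k0,k0,k0,k0,k0,k0,
    (nat_lit 320),k0],[k0,k0,k0,k0,k0,k0,k0,k0,k0,k0,k0,k0],[k0,k0,k0,k0,k0,k0,k0,k0,(nat_lit 320),k0,k0,
    k0]] (nat_lit 18000) k6
    [[(k8,(nat_lit 4895)),(k11,(nat_lit 5760)),(k10,(nat_lit 6080)),(k1,(nat_lit 6160))],[(k7,(nat_lit 4341)),(k2,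
    (nat_lit 4379)),(k5,(nat_lit 5449)),(k0,(nat_lit 6160)),(k4,(nat_lit 6391)),(k3,(nat_lit 7951)),(k6,
    (nat_lit 8159)),(k9,(nat_lit 13255))],[(k6,(nat_lit 3630)),(k7,(nat_lit 6112)),(k2,(nat_lit 6170)),(k5,
    (nat_lit 7240)),(k0,(nat_lit 7951)),(k4,(nat_lit 8162)),(k9,(nat_lit 8726)),(k3,(nat_lit 9742))],[(k2,
    (nat_lit 3630)),(k5,(nat_lit 3668)),(k0,(nat_lit 4379)),(k7,(nat_lit 4514)),(k4,(nat_lit 4590)),(k9,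
    (nat_lit 5644)),(k3,(nat_lit 6170)),(k6,(nat_lit 8972))],[(k7,(nat_lit 3630)),(k9,(nat_lit 3630)),(k2,
    (nat_lit 3668)),(k4,(nat_lit 3706)),(k5,(nat_lit 3706)),(k0,(nat_lit 5449)),(k6,(nat_lit 6958)),(k3,
    (nat_lit 7240))],[(k9,(nat_lit 3630)),(k4,(nat_lit 3706)),(k5,(nat_lit 3706)),(k7,(nat_lit 4552)),(k2,
    (nat_lit 4590)),(k0,(nat_lit 6391)),(k6,(nat_lit 6958)),(k3,(nat_lit 8162))],[(k5,(nat_lit 3630)),(k0,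
    (nat_lit 4341)),(k2,(nat_lit 4514)),(k4,(nat_lit 4552)),(k7,(nat_lit 5398)),(k3,(nat_lit 6112)),(k9,
    (nat_lit 6528)),(k6,(nat_lit 9856))],[(k3,(nat_lit 3630)),(k4,(nat_lit 6958)),(k5,(nat_lit 6958)),(k0,
    (nat_lit 8159)),(k9,(nat_lit 8934)),(k2,(nat_lit 8972)),(k6,(nat_lit 9818)),(k7,(nat_lit 9856))],[(k4,
    (nat_lit 3630)),(k5,(nat_lit 3630)),(k2,(nat_lit 5644)),(k7,(nat_lit 6528)),(k9,(nat_lit 8050)),(k3,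
    (nat_lit 8726)),(k6,(nat_lit 8934)),(k0,(nat_lit 13255))],[(k8,(nat_lit 3630)),(k11,(nat_lit 4815)),(k1,
    (nat_lit 4895)),(k10,(nat_lit 5135))],[(k8,(nat_lit 4815)),(k1,(nat_lit 5760)),(k10,(nat_lit 6000)),(k11,
    (nat_lit 6000))],[(k8,(nat_lit 5135)),(k10,(nat_lit 6000)),(k11,(nat_lit 6000)),(k1,(nat_lit 6080))]]
    [[k1,k0,k1,k0,k1,k0],[k1,k0,k2,k0,k1,k0],[k0,k2,k0,k1,k0,k0],[k0,k1,k2,k0,k0,k0],[k0,k2,k0,k2,k0,k0],[k0,k1,k1,k1,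
    k0,k0],[k0,k1,k2,k1,k0,k0],[k0,k0,k3,k0,k0,k0],[k0,k0,k4,k0,k0,k0],[k0,k0,k2,k1,k0,k0],[k0,k0,k2,k0,k2,k0],[k0,k0,
    k1,k0,k2,k0],[k0,k0,k1,k0,k2,k1]]
    [.contra [z1,z0,z0,y1],.contra [z1,z0,z0,y1],.ref k49 k0 [(z1,[z0,z1]),(z1,[y3,z6,z1]),(z1,[z1,y2])],
    .ref k50 k1 [(z2,[y3,z3,z2,z6]),(z2,[z1,y1,z0,z2]),(z1,[z0,z1,z0,y2])],.ref k51 k0 [(z1,[z0,z1]),(z2,[y3,z6,z2]),
    (z2,[z1,y2])],.contra [z1,y3,y1,y2,z2],.ref k52 k0 [(z1,[z0,z1]),(z1,[z3,y3,y1]),(z1,[y3,z3,z2])],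
    .ref k52 k0 [(z1,[z0,z1]),(z1,[z1]),(z1,[y1,z0,z1])],.ref k53 k0 [(z1,[z0,z1]),(z2,[z1]),(z2,[y3,z0,z4])],
    .ref k54 k0 [(z1,[z0,z1]),(z1,[z3,z0,y1]),(z1,[y3,z0,z2])],.ref k55 k0 [(z1,[z0,z1]),(z2,[z1]),(z2,[y3,z0,z2])],
    .ref k56 k0 [(z1,[z0,z1]),(z1,[z1]),(z1,[y3,z0,z1])],.ref k49 k0 [(z1,[z0,z1]),(z1,[z3,z3,z1,z3,y3]),(z1,[y1,y1,
    z0,y1,z1])]],
    .base (.geo z3 k4 [(z6,y3),(y10,z12),(z6,y6),(z8,y6),(z0,z3),(z2,z0)] [(z1,[z0,z0,z0,z3]),(z1,[z1]),(z1,[z0,z3]),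
    (z1,[z0,z0,z1]),(z1,[]),(z1,[y1,y3,y1,y3,z3])] k7),
    .base (.geo z3 k4 [(z6,y3),(y4,z6),(z3,y3),(z5,y3),(z0,z3),(z2,z0)] [(z1,[z0,z0,z0,z3]),(z1,[z1]),(z1,[z0,z3]),
    (z1,[z0,z0,z1]),(z1,[]),(z1,[y1,y3,y1,y3,z3])] k6)]

theorem hB6_105_4 : blkB [0, 0, 0, 0, 1, 1] [(0, 4)] sp6 hS6_105 (pcls (n := 6) [0, 0, 0, 0, 1, 1]) hD6_105 111 4 hN6_105_4 = true := by
  decide +kernel

/-- nodes 60 to 71 -/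
noncomputable def hN6_105_5 : List HM :=
  [.base (.geo z3 k3 [(z2,z0),(z6,y6),(y2,z3),(z0,z3),(z4,z0),(z2,z0)] [(z1,[z1]),(z1,[z0,z3]),(z1,[z0,z0,z1]),(z1,
    []),(z1,[y1,z0,z0,z3]),(z1,[z0,y3,y1,y3,z3])] k5),
    .lp k0 [(nat_lit 360),(nat_lit 532),(nat_lit 244),(nat_lit 444),(nat_lit 410),(nat_lit 400)] [k106,(nat_lit 226),
    k160,k0,(nat_lit 224),(nat_lit 224),k22,(nat_lit 226),k141,k141,k146,k146] k0 [[k0,k0,k122,k4,k4,k122,k0,k0,k0,k0,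
    k0,k0],[k0,k0,k0,k0,k0,k0,k40,(nat_lit 430),k0,k0,k0,k0],[k0,k4,k0,k0,k0,k68,k102,k102,k0,k0,k0,k0],[k0,k122,k0,
    k0,k0,k0,k0,k0,k0,k0,k0,k0],[k0,k122,k0,k68,k0,k0,k0,k0,k0,k0,k0,k0],[k0,k4,k0,k0,k0,k0,k34,k34,k0,k0,k0,k0],
    [(nat_lit 430),k0,k0,k102,k34,k0,k0,k0,k0,k0,k0,k0],[k40,k0,k0,k102,k34,k0,k0,k0,k0,k0,k0,k0],[k0,k0,k0,k0,k0,k0,
    k0,k0,k0,k0,k0,k80],[k0,k0,k0,k0,k0,k0,k0,k0,k0,k0,k0,k0],[k0,k0,k0,k0,k0,k0,k0,k0,k0,k80,k0,k0],[k0,k0,k0,k0,k0,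
    k0,k0,k0,k0,k0,k0,k0]] (nat_lit 1200) k6
    [[(k1,(nat_lit 240)),(k10,(nat_lit 320)),(k8,(nat_lit 325)),(k11,(nat_lit 400))],[(k4,(nat_lit 240)),(k5,
    (nat_lit 240)),(k7,(nat_lit 356)),(k2,(nat_lit 422)),(k0,(nat_lit 480)),(k3,(nat_lit 586)),(k6,(nat_lit 604)),(k9,
    (nat_lit 875))],[(k6,(nat_lit 240)),(k4,(nat_lit 472)),(k5,(nat_lit 472)),(k9,(nat_lit 511)),(k0,(nat_lit 586)),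
    (k7,(nat_lit 588)),(k2,(nat_lit 654)),(k3,(nat_lit 692))],[(k4,(nat_lit 240)),(k9,(nat_lit 289)),(k7,
    (nat_lit 306)),(k5,(nat_lit 308)),(k2,(nat_lit 372)),(k6,(nat_lit 408)),(k0,(nat_lit 422)),(k3,(nat_lit 654))],
    [(k0,(nat_lit 240)),(k4,(nat_lit 244)),(k5,(nat_lit 244)),(k2,(nat_lit 308)),(k7,(nat_lit 310)),(k9,
    (nat_lit 429)),(k3,(nat_lit 472)),(k6,(nat_lit 548))],[(k0,(nat_lit 240)),(k2,(nat_lit 240)),(k7,(nat_lit 242)),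
    (k4,(nat_lit 244)),(k5,(nat_lit 244)),(k9,(nat_lit 361)),(k3,(nat_lit 472)),(k6,(nat_lit 480))],[(k7,
    (nat_lit 240)),(k4,(nat_lit 242)),(k9,(nat_lit 291)),(k2,(nat_lit 306)),(k5,(nat_lit 310)),(k0,(nat_lit 356)),(k6,
    (nat_lit 410)),(k3,(nat_lit 588))],[(k3,(nat_lit 240)),(k2,(nat_lit 408)),(k7,(nat_lit 410)),(k4,(nat_lit 480)),
    (k9,(nat_lit 529)),(k5,(nat_lit 548)),(k0,(nat_lit 604)),(k6,(nat_lit 648))],[(k2,(nat_lit 289)),(k7,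
    (nat_lit 291)),(k4,(nat_lit 361)),(k9,(nat_lit 410)),(k5,(nat_lit 429)),(k3,(nat_lit 511)),(k6,(nat_lit 529)),(k0,
    (nat_lit 875))],[(k1,(nat_lit 325)),(k10,(nat_lit 325)),(k11,(nat_lit 405)),(k8,(nat_lit 410))],[(k1,
    (nat_lit 400)),(k10,(nat_lit 400)),(k11,(nat_lit 400)),(k8,(nat_lit 405))],[(k1,(nat_lit 320)),(k8,(nat_lit 325)),
    (k10,(nat_lit 400)),(k11,(nat_lit 400))]]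
    [[k2,k0,k1,k0,k0,k0],[k2,k0,k2,k0,k0,k0],[k1,k0,k1,k0,k1,k0],[k1,k0,k2,k0,k1,k0],[k0,k1,k2,k0,k0,k0],[k0,k1,k1,k1,
    k0,k0],[k0,k2,k0,k2,k0,k0],[k0,k1,k2,k1,k0,k0],[k0,k1,k0,k2,k0,k0],[k0,k0,k3,k0,k0,k0],[k0,k0,k4,k0,k0,k0],[k0,k0,
    k2,k1,k0,k0],[k0,k0,k0,k0,k2,k1]]
    [.ref k58 k1 [(z1,[y6,z0,z1]),(z1,[z1]),(z2,[z6,z3,y1])],.ref k59 k1 [(z1,[y3,z0,z1]),(z2,[z1]),(z2,[z3,z3,y1])],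
    .contra [z1,z0,z0,y1],.contra [z1,z0,z0,y1],.contra [y2,z1,z1],.contra [z2,y3,y1,y4,z4],.contra [y1,z2],
    .contra [y2,z1,z1],.contra [y2,z1,z1],.contra [y1,z0,z1],.contra [y1,z0,z1],.contra [z1,y2,y1,y4,z4],
    .ref k60 k1 [(z4,[z6,z3,z1,z6,y6]),(z1,[z0,z1]),(z2,[z0,y3,z1])]],
    .base (.geo z9 k0 [(z7,z0),(z2,z0),(z8,z0),(z2,z0),(z11,z0),(z6,z0)] [(z1,[z1]),(z1,[z0,z1]),(z1,[z0,z0,z1]),(z1,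
    [z0,z0,z0,z1]),(z1,[y1,z0,z0,z0,z9]),(z1,[z0,y1,y1,y1,y9,z9])] k1),
    .base (.geo z9 k0 [(z6,z0),(z2,z0),(z8,z0),(z2,z0),(z12,z0),(z6,z0)] [(z1,[z3]),(z1,[z0,z1]),(z1,[z0,z0,z1]),(z1,
    [z0,z0,z0,z1]),(z1,[y3,z0,z0,z0,z9]),(z1,[z0,y1,y1,y1,y9,z9])] k1),
    .lp k0 [k83,k89,k62,k89,k75,k80] [k14,k33,k41,k0,k34,k34,k0,k41,k41,k14,k25,k25] k0 [[k0,k0,k0,k27,k27,k0,k0,k28,
    k0,k0,k0,k0],[k0,k0,k0,k7,k5,k0,k0,k82,k0,k0,k0,k0],[k7,k27,k0,k0,k0,k0,k27,k0,k0,k0,k0,k0],[k0,k0,k0,k0,k0,k0,k0,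
    k0,k0,k0,k0,k0],[k0,k0,k0,k0,k0,k0,k0,k0,k0,k0,k0,k0],[k5,k27,k0,k0,k0,k0,k27,k0,k0,k0,k0,k0],[k82,k28,k0,k0,k0,
    k0,k0,k0,k0,k0,k0,k0],[k0,k0,k0,k27,k27,k0,k0,k0,k0,k0,k0,k0],[k0,k0,k0,k0,k0,k0,k0,k0,k0,k0,k0,k0],[k0,k0,k0,k0,
    k0,k0,k0,k0,k0,k0,k0,k0],[k0,k0,k0,k0,k0,k0,k0,k0,k0,k0,k0,k0],[k0,k0,k0,k0,k0,k0,k0,k0,k0,k0,k0,
    k0]] (nat_lit 240) k6
    [[(k8,k56),(k1,k64),(k10,k72),(k11,k72)],[(k2,k48),(k7,k48),(k4,k87),(k6,k88),(k5,k89),(k0,k102),(k3,k116),(k9,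
    k184)],[(k6,k48),(k2,k82),(k7,k84),(k0,k116),(k4,k123),(k5,k123),(k3,k130),(k9,k144)],[(k0,k48),(k2,k48),(k7,k48),
    (k9,k48),(k4,k55),(k5,k55),(k3,k82),(k6,k89)],[(k2,k55),(k7,k55),(k4,k62),(k5,k62),(k9,k82),(k0,k89),(k3,k123),
    (k6,k123)],[(k2,k55),(k7,k55),(k4,k62),(k5,k62),(k9,k82),(k0,k87),(k3,k123),(k6,k123)],[(k0,k48),(k2,k48),(k7,
    k48),(k9,k48),(k4,k55),(k5,k55),(k3,k84),(k6,k89)],[(k3,k48),(k0,k88),(k2,k89),(k7,k89),(k9,k116),(k4,k123),(k5,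
    k123),(k6,k130)],[(k2,k48),(k7,k48),(k4,k82),(k5,k82),(k9,k102),(k6,k116),(k3,k144),(k0,k184)],[(k8,k48),(k1,k56),
    (k10,k64),(k11,k64)],[(k8,k64),(k1,k72),(k10,k80),(k11,k80)],[(k8,k64),(k1,k72),(k10,k80),(k11,k80)]]
    [[k2,k1,k0,k0,k0,k0],[k2,k1,k0,k1,k0,k0],[k2,k0,k0,k1,k0,k0],[k1,k1,k0,k0,k1,k0],[k1,k1,k0,k1,k1,k0],[k1,k0,k1,k0,
    k1,k0],[k1,k0,k0,k1,k1,k0],[k0,k2,k0,k1,k0,k0],[k0,k2,k0,k2,k0,k0],[k0,k1,k1,k1,k0,k0],[k0,k1,k2,k1,k0,k0],[k0,k1,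
    k0,k2,k0,k0],[k0,k1,k0,k1,k2,k0],[k0,k0,k3,k0,k0,k0],[k0,k0,k1,k0,k2,k0],[k0,k0,k0,k1,k2,k0],[k0,k0,k0,k0,k2,k1]]
    [.ref k42 k0 [(z2,[z9,y1]),(z1,[z0,z1]),(z1,[z0,z0,z1]),(z1,[z0,z0,z0,z1])],.ref k62 k0 [(z2,[z9,y1,z0,y1]),(z1,
    [z0,z1]),(z1,[z0,z0,z1]),(z1,[z0,z0,z0,z1])],.ref k42 k0 [(z2,[z9,z0,z0,y1]),(z1,[z0,z1]),(z1,[z0,z0,z1]),(z1,[z0,
    z0,z0,z1])],.contra [y7,z1,z0,z0,z7],.contra [y63,z11,z0,z7,z63],.contra [y63,z8,z7,z0,z63],.contra [y63,z2,z0,z7,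
    z63],.contra [z63,y2,z0,y7],.contra [z63,y4,z0,y14],.contra [z63,y1,y7,y7],.contra [y63,z9,z14,z7],.contra [z63,
    z5,z0,y14],.ref k62 k1 [(z2,[z9,y1,z0,y1]),(z1,[z0,z0,z0,z1]),(z1,[z0,z0,z1]),(z1,[z0,z1])],.contra [y21,z2,z7],
    .ref k12 k1 [(z2,[z9,z0,y1]),(z1,[z0,z0,z0,z1]),(z1,[z0,z0,z1]),(z1,[z0,z1])],.ref k42 k1 [(z2,[z9,z0,z0,y1]),(z1,
    [z0,z0,z0,z1]),(z1,[z0,z0,z1]),(z1,[z0,z1])],.ref k63 k1 [(z6,[z9,z1,z1,z1,z9,y9]),(z1,[z0,z0,z0,z1]),(z1,[z0,z0,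
    z1]),(z1,[z0,z1])]],
    .base (.geo z9 k0 [(z1,z0),(z2,z0),(z8,z0),(z2,z0),(z17,z0),(z6,z0)] [(z1,[z1]),(z1,[z0,z1]),(z1,[z0,z0,z1]),(z1,
    [z0,z0,z0,z1]),(z1,[y1,z0,z0,z0,z9]),(z1,[z0,y1,y1,y1,y9,z9])] k1),
    .lp k0 [k62,k74,k60,k118,k84,k80] [k56,k66,k68,k42,k62,k62,k0,k66,k50,k50,k50,k54] k0 [[k0,k0,k18,k0,k0,k0,k0,k0,
    k0,k0,k0,k0],[k0,k0,k9,k0,k0,k9,k0,k94,k0,k0,k0,k0],[k0,k0,k0,k0,k0,k0,k2,k0,k0,k0,k0,k0],[k9,k18,k0,k0,k0,k0,k24,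
    k0,k0,k0,k0,k0],[k9,k0,k0,k0,k0,k0,k24,k0,k0,k0,k0,k0],[k0,k0,k0,k0,k0,k0,k2,k0,k0,k0,k0,k0],[k94,k0,k0,k0,k0,k0,
    k0,k28,k0,k0,k0,k0],[k0,k0,k24,k2,k2,k24,k0,k0,k0,k0,k0,k0],[k0,k0,k0,k0,k0,k0,k0,k0,k0,k0,k0,k36],[k0,k0,k0,k0,
    k0,k0,k0,k0,k0,k0,k0,k0],[k0,k0,k0,k0,k0,k0,k0,k0,k0,k36,k0,k0],[k0,k0,k0,k0,k0,k0,k0,k0,k0,k0,k0,
    k0]] (nat_lit 240) k6
    [[(k1,k52),(k8,k68),(k10,k68),(k11,k100)],[(k5,k48),(k4,k66),(k2,k69),(k7,k71),(k0,k72),(k3,k86),(k6,k128),(k9,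
    k172)],[(k6,k48),(k4,k71),(k5,k71),(k7,k76),(k0,k86),(k2,k92),(k9,k92),(k3,k100)],[(k2,k48),(k7,k50),(k4,k54),(k5,
    k54),(k9,k64),(k0,k69),(k3,k92),(k6,k140)],[(k0,k48),(k9,k48),(k2,k54),(k7,k56),(k4,k60),(k5,k60),(k3,k71),(k6,
    k124)],[(k9,k48),(k2,k54),(k7,k56),(k4,k60),(k5,k60),(k0,k66),(k3,k71),(k6,k124)],[(k2,k50),(k7,k52),(k4,k56),(k5,
    k56),(k9,k66),(k0,k71),(k3,k76),(k6,k142)],[(k3,k48),(k4,k124),(k5,k124),(k0,k128),(k9,k134),(k2,k140),(k7,k142),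
    (k6,k156)],[(k4,k48),(k5,k48),(k2,k64),(k7,k66),(k3,k92),(k9,k112),(k6,k134),(k0,k172)],[(k10,k48),(k1,k68),(k11,
    k80),(k8,k84)],[(k11,k76),(k8,k80),(k10,k80),(k1,k100)],[(k8,k48),(k1,k68),(k11,k80),(k10,k84)]]
    [[k2,k1,k0,k0,k0,k0],[k2,k0,k1,k0,k0,k0],[k2,k0,k2,k0,k0,k0],[k1,k1,k0,k0,k1,k0],[k1,k0,k1,k0,k1,k0],[k1,k0,k2,k0,
    k1,k0],[k0,k2,k1,k0,k0,k0],[k0,k2,k0,k1,k0,k0],[k0,k2,k1,k1,k0,k0],[k0,k1,k2,k0,k0,k0],[k0,k2,k0,k2,k0,k0],[k0,k1,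
    k1,k1,k0,k0],[k0,k1,k2,k1,k0,k0],[k0,k0,k3,k0,k0,k0],[k0,k0,k1,k0,k2,k0],[k0,k0,k1,k0,k2,k1]]
    [.contra [z5,z2,z0,z0,y6],.contra [z1,z0,y1,z0,z1],.contra [z1,z0,y2,z0,z2],.contra [z1,z0,z0,z0,y1],.contra [z1,
    z0,y1],.contra [z1,z0,y2,z0,z1],.contra [y1,z1,z1,z2],.contra [z1,y2,y4,y5,y4,z4],.contra [y1,z1,z1,z2],
    .ref k65 k1 [(z1,[y3,z1,z6]),(z1,[y6,z2,z12,z9]),(z1,[z3,y1,z3]),(z1,[z3,z2,y6])],.contra [y5,z6,z0,z10,z2],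
    .contra [z1,y1,y3,y3,y2,z2],.contra [z1,z0,y2,y1],.contra [z1,z1,y3],.contra [y1,z0,z1,z0,z1],.contra [y1,z0,z0,
    y1,y1,z1]],
    .lp k0 [(nat_lit 58996),(nat_lit 72240),(nat_lit 72240),(nat_lit 144480),(nat_lit 133042),
    (nat_lit 96320)] [(nat_lit 81872),(nat_lit 81872),(nat_lit 82474),(nat_lit 68026),(nat_lit 75250),(nat_lit 75250),
    k0,(nat_lit 78260),(nat_lit 44849),(nat_lit 44849),(nat_lit 45450),(nat_lit 80970)] k0 [[k0,k0,k0,k0,k0,k0,k0,k0,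
    k0,k0,k0,k0],[k0,k0,k0,k0,k0,k0,(nat_lit 26488),(nat_lit 96922),k0,k0,k0,k0],[k0,k0,k0,k0,k0,k0,k0,k0,k0,k0,k0,
    k0],[k0,k0,k0,k0,k0,k0,(nat_lit 24682),k0,k0,k0,k0,k0],[k0,k0,k0,k0,k0,k0,(nat_lit 24682),k0,k0,k0,k0,k0],[k0,k0,
    k0,k0,k0,k0,k0,k0,k0,k0,k0,k0],[(nat_lit 96922),k0,k0,k0,k0,k0,k0,(nat_lit 1204),k0,k0,k0,k0],[(nat_lit 26488),k0,
    (nat_lit 24682),k0,k0,(nat_lit 24682),k0,k0,k0,k0,k0,k0],[k0,k0,k0,k0,k0,k0,k0,k0,k0,k0,k0,(nat_lit 74648)],[k0,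
    k0,k0,k0,k0,k0,k0,k0,k0,k0,k0,k0],[k0,k0,k0,k0,k0,k0,k0,k0,k0,(nat_lit 74648),k0,k0],[k0,k0,k0,k0,k0,k0,k0,k0,k0,
    k0,k0,k0]] (nat_lit 288960) k6
    [[(k1,(nat_lit 58996)),(k10,(nat_lit 95418)),(k8,(nat_lit 96019)),(k11,(nat_lit 134546))],[(k2,(nat_lit 58394)),
    (k0,(nat_lit 58996)),(k7,(nat_lit 62608)),(k4,(nat_lit 65618)),(k5,(nat_lit 65618)),(k3,(nat_lit 72842)),(k6,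
    (nat_lit 167356)),(k9,(nat_lit 192941))],[(k6,(nat_lit 57792)),(k2,(nat_lit 72240)),(k0,(nat_lit 72842)),(k7,
    (nat_lit 76454)),(k4,(nat_lit 79464)),(k5,(nat_lit 79464)),(k9,(nat_lit 83377)),(k3,(nat_lit 86688))],[(k2,
    (nat_lit 57792)),(k0,(nat_lit 58394)),(k7,(nat_lit 62006)),(k4,(nat_lit 65016)),(k5,(nat_lit 65016)),(k3,
    (nat_lit 72240)),(k9,(nat_lit 95417)),(k6,(nat_lit 164948))],[(k2,(nat_lit 65016)),(k0,(nat_lit 65618)),(k7,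
    (nat_lit 69230)),(k4,(nat_lit 72240)),(k5,(nat_lit 72240)),(k9,(nat_lit 77959)),(k3,(nat_lit 79464)),(k6,
    (nat_lit 147490))],[(k2,(nat_lit 65016)),(k0,(nat_lit 65618)),(k7,(nat_lit 69230)),(k4,(nat_lit 72240)),(k5,
    (nat_lit 72240)),(k9,(nat_lit 77959)),(k3,(nat_lit 79464)),(k6,(nat_lit 147490))],[(k2,(nat_lit 62006)),(k0,
    (nat_lit 62608)),(k7,(nat_lit 66220)),(k4,(nat_lit 69230)),(k5,(nat_lit 69230)),(k3,(nat_lit 76454)),(k9,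
    (nat_lit 99631)),(k6,(nat_lit 169162))],[(k3,(nat_lit 57792)),(k4,(nat_lit 147490)),(k5,(nat_lit 147490)),(k2,
    (nat_lit 164948)),(k0,(nat_lit 167356)),(k7,(nat_lit 169162)),(k9,(nat_lit 177891)),(k6,(nat_lit 221536))],[(k4,
    (nat_lit 77959)),(k5,(nat_lit 77959)),(k3,(nat_lit 83377)),(k2,(nat_lit 95417)),(k7,(nat_lit 99631)),(k9,
    (nat_lit 134246)),(k6,(nat_lit 177891)),(k0,(nat_lit 192941))],[(k10,(nat_lit 57793)),(k1,(nat_lit 96019)),(k11,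
    (nat_lit 96921)),(k8,(nat_lit 133042))],[(k11,(nat_lit 60800)),(k10,(nat_lit 96320)),(k8,(nat_lit 96921)),(k1,
    (nat_lit 134546))],[(k8,(nat_lit 57793)),(k1,(nat_lit 95418)),(k11,(nat_lit 96320)),(k10,(nat_lit 131840))]]
    [[k4,k0,k0,k0,k0,k0],[k2,k1,k0,k0,k0,k0],[k2,k2,k0,k0,k0,k0],[k2,k1,k1,k0,k0,k0],[k2,k1,k0,k1,k0,k0],[k2,k0,k1,k0,
    k0,k0],[k2,k0,k2,k0,k0,k0],[k1,k1,k0,k0,k1,k0],[k1,k0,k1,k0,k1,k0],[k0,k3,k0,k0,k0,k0],[k0,k3,k0,k1,k0,k0],[k0,k2,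
    k1,k0,k0,k0],[k0,k2,k0,k1,k0,k0],[k0,k2,k1,k1,k0,k0],[k0,k1,k2,k0,k0,k0],[k0,k2,k0,k2,k0,k0],[k0,k1,k1,k1,k0,k0],
    [k0,k1,k2,k1,k0,k0],[k0,k0,k3,k0,k0,k0]]
    [.contra [z4,z1,z0,z0,y6],.contra [z4,z1,z0,z0,y6],.contra [z4,z1,z0,z0,y6],.contra [z2,z1,y2,z0,y2],.contra [y1,
    y1,y4,y3,y2,z4],.contra [z1,z0,y1,z0,z2],.contra [z1,z0,y2,z0,z4],.contra [z1,z0,z0,z0,y1],.contra [z1,z0,y1,z0,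
    z1],.contra [y1,z2,z0,z3],.contra [y3,z3,z0,z5,z2],.contra [y1,z1,z1,z2],.contra [z1,y2,y4,y5,y4,z4],.contra [y1,
    z1,z1,z2],.ref k12 k1 [(z2,[y3,z1,z6]),(z1,[y6,z2,z12,z9]),(z1,[z3,y1,z3]),(z1,[z3,z2,y6])],.contra [y4,z5,z0,z8,
    z2],.contra [z1,y1,y3,y3,y2,z2],.contra [z1,z0,y2,y1],.contra [z1,z1,y3]],
    .base (.geo z9 k0 [(z2,z0),(z2,z0),(z8,z0),(z2,z0),(z16,z0),(z6,z0)] [(z1,[z1]),(z1,[z0,z1]),(z1,[z0,z0,z1]),(z1,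
    [z0,z0,z0,z1]),(z1,[y1,z0,z0,z0,z9]),(z1,[z0,y1,y1,y1,y9,z9])] k1),
    .lp k0 [k60,k80,k60,k120,k78,k80] [k64,k64,k70,k38,k64,k64,k0,k68,k57,k53,k54,k54] k0 [[k0,k0,k0,k0,k0,k0,k0,k4,
    k0,k0,k0,k0],[k0,k0,k4,k0,k0,k18,k0,k102,k0,k0,k0,k0],[k0,k0,k0,k0,k0,k0,k0,k0,k0,k0,k0,k0],[k4,k0,k0,k0,k0,k0,
    k22,k0,k0,k0,k0,k0],[k18,k0,k0,k0,k0,k0,k22,k0,k0,k0,k0,k0],[k0,k0,k0,k0,k0,k0,k0,k0,k0,k0,k0,k0],[k102,k4,k0,k0,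
    k0,k0,k0,k4,k0,k0,k0,k0],[k0,k0,k22,k0,k0,k22,k0,k0,k0,k0,k0,k0],[k0,k0,k0,k0,k0,k0,k0,k0,k0,k0,k0,k0],[k0,k0,k0,
    k0,k0,k0,k0,k0,k0,k0,k0,k0],[k0,k0,k0,k0,k0,k0,k0,k0,k0,k0,k0,k0],[k0,k0,k0,k0,k0,k0,k0,k0,k0,k0,k0,
    k0]] (nat_lit 240) k6
    [[(k1,k60),(k8,k67),(k10,k70),(k11,k70)],[(k2,k58),(k0,k60),(k4,k60),(k5,k60),(k7,k74),(k3,k86),(k6,k120),(k9,
    k173)],[(k6,k48),(k4,k68),(k2,k80),(k5,k82),(k7,k82),(k0,k86),(k9,k101),(k3,k112)],[(k2,k48),(k7,k50),(k4,k54),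
    (k5,k54),(k0,k58),(k9,k65),(k3,k80),(k6,k140)],[(k9,k49),(k2,k54),(k7,k56),(k0,k60),(k4,k60),(k5,k60),(k3,k82),
    (k6,k124)],[(k9,k49),(k2,k54),(k7,k56),(k0,k60),(k4,k60),(k5,k60),(k3,k68),(k6,k124)],[(k2,k50),(k7,k52),(k4,k56),
    (k5,k56),(k9,k67),(k0,k74),(k3,k82),(k6,k142)],[(k3,k48),(k0,k120),(k4,k124),(k5,k124),(k9,k135),(k2,k140),(k7,
    k142),(k6,k184)],[(k4,k49),(k5,k49),(k2,k65),(k7,k67),(k9,k86),(k3,k101),(k6,k135),(k0,k173)],[(k1,k67),(k8,k74),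
    (k10,k77),(k11,k77)],[(k1,k70),(k8,k77),(k10,k80),(k11,k80)],[(k1,k70),(k8,k77),(k10,k80),(k11,k80)]]
    [[k2,k1,k0,k0,k0,k0],[k2,k0,k1,k0,k0,k0],[k1,k1,k0,k0,k1,k0],[k1,k0,k1,k0,k1,k0],[k1,k0,k2,k0,k1,k0],[k2,k0,k0,k0,
    k0,k1],[k0,k2,k1,k0,k0,k0],[k0,k2,k0,k1,k0,k0],[k0,k2,k1,k1,k0,k0],[k0,k1,k2,k0,k0,k0],[k0,k2,k0,k2,k0,k0],[k0,k1,
    k1,k1,k0,k0],[k0,k1,k2,k1,k0,k0],[k0,k0,k3,k0,k0,k0],[k0,k0,k2,k0,k2,k0],[k0,k0,k1,k0,k2,k0]]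
    [.contra [z5,z1,z0,z0,y6],.contra [z15,z7,y5,z0,y12],.contra [z1,z0,z0,z0,y1],.contra [z15,z4,y5,z0,y9],
    .contra [z15,z8,y10,z0,y3],.contra [z15,z7,z5,z5,z3,y15],.contra [y3,z3,z1,z2],.contra [z3,y6,y4,y5,y12,z12],
    .contra [y3,z3,z1,z2],.ref k68 k1 [(z2,[y3,z1,z2]),(z1,[y6,z2,z4,z3]),(z1,[z3,y1,z1]),(z1,[z3,z2,y2])],
    .contra [y15,z19,z0,z10,z6],.contra [z1,y1,y1,y1,y2,z2],.contra [z3,z0,y2,y1],.contra [z1,z1,y1],.contra [z3,z1,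
    y2],.contra [z3,y2,y3,y2,y6,z6]],
    .lp k0 [(nat_lit 282),(nat_lit 306),(nat_lit 240),(nat_lit 480),(nat_lit 284),(nat_lit 320)] [(nat_lit 235),
    (nat_lit 235),(nat_lit 280),k166,(nat_lit 256),(nat_lit 256),k0,(nat_lit 272),(nat_lit 252),(nat_lit 216),
    (nat_lit 216),(nat_lit 216)] k0 [[k0,k0,k42,k0,k0,k0,k0,k86,k0,k0,k0,k0],[k0,k0,k2,k0,k0,k2,k0,(nat_lit 394),k0,
    k0,k0,k0],[k0,k0,k0,k0,k0,k0,k0,k0,k0,k0,k0,k0],[k2,k42,k0,k0,k0,k0,k88,k0,k0,k0,k0,k0],[k2,k0,k0,k0,k0,k0,k88,k0,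
    k0,k0,k0,k0],[k0,k0,k0,k0,k0,k0,k0,k0,k0,k0,k0,k0],[(nat_lit 394),k86,k0,k0,k0,k0,k0,k148,k0,k0,k0,k0],[k0,k0,k88,
    k0,k0,k88,k0,k0,k0,k0,k0,k0],[k0,k0,k0,k0,k0,k0,k0,k0,k0,k0,k0,k76],[k0,k0,k0,k0,k0,k0,k0,k0,k0,k0,k0,k0],[k0,k0,
    k0,k0,k0,k0,k0,k0,k0,k76,k0,k0],[k0,k0,k0,k0,k0,k0,k0,k0,k0,k0,k0,k0]] (nat_lit 960) k6
    [[(k8,(nat_lit 265)),(k1,(nat_lit 282)),(k10,(nat_lit 301)),(k11,(nat_lit 377))],[(k5,(nat_lit 219)),(k2,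
    (nat_lit 239)),(k7,(nat_lit 247)),(k4,(nat_lit 261)),(k0,(nat_lit 282)),(k3,(nat_lit 351)),(k6,(nat_lit 431)),(k9,
    (nat_lit 695))],[(k6,k192),(k7,(nat_lit 314)),(k4,(nat_lit 328)),(k5,(nat_lit 328)),(k2,(nat_lit 348)),(k0,
    (nat_lit 351)),(k3,(nat_lit 420)),(k9,(nat_lit 456))],[(k2,k192),(k7,(nat_lit 200)),(k4,(nat_lit 216)),(k5,
    (nat_lit 216)),(k0,(nat_lit 239)),(k9,(nat_lit 256)),(k3,(nat_lit 348)),(k6,(nat_lit 560))],[(k9,k192),(k2,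
    (nat_lit 216)),(k0,(nat_lit 219)),(k7,(nat_lit 224)),(k4,(nat_lit 240)),(k5,(nat_lit 240)),(k3,(nat_lit 328)),(k6,
    (nat_lit 496))],[(k9,k192),(k2,(nat_lit 216)),(k7,(nat_lit 224)),(k4,(nat_lit 240)),(k5,(nat_lit 240)),(k0,
    (nat_lit 261)),(k3,(nat_lit 328)),(k6,(nat_lit 496))],[(k2,(nat_lit 200)),(k7,(nat_lit 208)),(k4,(nat_lit 224)),
    (k5,(nat_lit 224)),(k0,(nat_lit 247)),(k9,(nat_lit 264)),(k3,(nat_lit 314)),(k6,(nat_lit 568))],[(k3,k192),(k0,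
    (nat_lit 431)),(k4,(nat_lit 496)),(k5,(nat_lit 496)),(k9,(nat_lit 536)),(k2,(nat_lit 560)),(k7,(nat_lit 568)),(k6,
    (nat_lit 604))],[(k4,k192),(k5,k192),(k2,(nat_lit 256)),(k7,(nat_lit 264)),(k3,(nat_lit 456)),(k9,(nat_lit 468)),
    (k6,(nat_lit 536)),(k0,(nat_lit 695))],[(k10,(nat_lit 208)),(k8,(nat_lit 248)),(k1,(nat_lit 265)),(k11,
    (nat_lit 284))],[(k8,(nat_lit 284)),(k10,(nat_lit 320)),(k11,(nat_lit 320)),(k1,(nat_lit 377))],[(k8,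
    (nat_lit 208)),(k1,(nat_lit 301)),(k10,(nat_lit 320)),(k11,(nat_lit 320))]]
    [[k2,k1,k0,k0,k0,k0],[k2,k0,k1,k0,k0,k0],[k1,k1,k0,k0,k1,k0],[k1,k0,k1,k0,k1,k0],[k1,k0,k2,k0,k1,k0],[k0,k2,k1,k0,
    k0,k0],[k0,k2,k0,k1,k0,k0],[k0,k2,k1,k1,k0,k0],[k0,k1,k2,k0,k0,k0],[k0,k2,k0,k2,k0,k0],[k0,k1,k1,k1,k0,k0],[k0,k1,
    k2,k1,k0,k0],[k0,k0,k3,k0,k0,k0],[k0,k0,k2,k0,k2,k0],[k0,k0,k1,k0,k2,k0],[k0,k0,k1,k0,k2,k1]]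
    [.ref k47 k1 [(z1,[y6,z1]),(z2,[z6,y1,z3]),(z1,[z1])],.ref k13 k1 [(z1,[y2,z0,z1]),(z1,[z1]),(z2,[z6,z1,y3])],
    .contra [z1,z0,z0,y1],.contra [z1,z0,z0,y1],.contra [z1,z0,z0,y1],.contra [y2,z1,z1],.contra [z1,y1,y2,y4,z4],
    .contra [y2,z1,z1],.ref k64 k0 [(z1,[z3,z1,y3]),(z2,[z6,y1,z3]),(z1,[y6,z1,z6])],.contra [y2,z1,z1],.contra [z2,
    y1,y3,y4,z4],.contra [z1,z0,y1],.contra [z2,z1,y3],.ref k66 k0 [(z2,[z3,z1,y3]),(z2,[z1]),(z1,[y1,z0,z1])],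
    .ref k67 k0 [(z2,[z6,z1,y3]),(z1,[z1]),(z1,[y2,z0,z1])],.ref k69 k0 [(z1,[z3,z1,z0,z3,y3]),(z2,[z6,z1,z3,z6,y6]),
    (z1,[y6,y1,z0,y6,z6])]],
    .base (.leafM k8 [k3,k5,k1,k2] [(z1,[y3,y1,y3,z3]),(z1,[z0,z1]),(z1,[z1])] [(k4,k0,z1,[z0,z0,z1]),(k0,k4,z1,[z0,
    z0,z1])])]

theorem hB6_105_5 : blkB [0, 0, 0, 0, 1, 1] [(0, 4)] sp6 hS6_105 (pcls (n := 6) [0, 0, 0, 0, 1, 1]) hD6_105 111 5 hN6_105_5 = true := by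
  decide +kernel

end Pool.Agent.Lib_MP_fa6e45
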