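import Pool.Agent.Lib_MP_fa6e45.HK

/-!
MP_fa6e45_co, stage 4: certificates (captain, generated by a program).
-/

namespace Pool.Agent.Lib_MP_fa6e45

/-- nodes 72 to 83 -/
noncomputable def hN6_105_6 : List HM :=
  [.base (.geo z3 k4 [(z6,y3),(z12,y6),(z10,y6),(y18,z12),(z0,z3),(z2,z0)] [(z1,[z0,z0,z0,z3]),(z1,[z3]),(z1,[z0,z1]),
    (z1,[z0,z0,z3]),(z1,[]),(z1,[y3,y1,y3,y3,z3])] k6),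
    .lp (nat_lit 65537) [(nat_lit 1958),(nat_lit 1774),(nat_lit 1252),(nat_lit 1774),(nat_lit 1242),
    (nat_lit 1600)] [(nat_lit 288),(nat_lit 338),(nat_lit 810),k0,(nat_lit 666),(nat_lit 666),k0,(nat_lit 810),
    (nat_lit 671),(nat_lit 671),(nat_lit 492),(nat_lit 492)] k0 [[k0,k0,k0,(nat_lit 522),(nat_lit 522),k0,k0,
    (nat_lit 542),k0,k0,k0,k0],[k0,k0,k0,k0,k0,k0,k0,(nat_lit 1620),k0,k0,k0,k0],[k0,(nat_lit 522),k0,k0,k0,k0,k0,k0,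
    k0,k0,k0,k0],[k0,k0,k0,k0,k0,k0,k0,k0,k0,k0,k0,k0],[k0,k0,k0,k0,k0,k0,k0,k0,k0,k0,k0,k0],[k0,(nat_lit 522),k0,k0,
    k0,k0,k0,k0,k0,k0,k0,k0],[(nat_lit 1620),(nat_lit 542),k0,k0,k0,k0,k0,k0,k0,k0,k0,k0],[k0,k0,k0,k0,k0,k0,k0,k0,k0,
    k0,k0,k0],[k0,k0,k0,k0,k0,k0,k0,k0,k0,k0,k0,k0],[k0,k0,k0,k0,k0,k0,k0,k0,k0,k0,(nat_lit 716),k0],[k0,k0,k0,k0,k0,
    k0,k0,k0,k0,k0,k0,k0],[k0,k0,k0,k0,k0,k0,k0,k0,(nat_lit 716),k0,k0,k0]] (nat_lit 4800) k6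
    [[(k11,(nat_lit 1038)),(k8,(nat_lit 1575)),(k10,(nat_lit 1754)),(k1,(nat_lit 1908))],[(k2,(nat_lit 964)),(k7,
    (nat_lit 964)),(k4,(nat_lit 1630)),(k5,(nat_lit 1630)),(k6,(nat_lit 1754)),(k0,(nat_lit 2008)),(k3,
    (nat_lit 2296)),(k9,(nat_lit 3245))],[(k6,(nat_lit 964)),(k2,(nat_lit 1774)),(k7,(nat_lit 1774)),(k0,
    (nat_lit 2296)),(k4,(nat_lit 2440)),(k5,(nat_lit 2440)),(k9,(nat_lit 2455)),(k3,(nat_lit 2584))],[(k0,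
    (nat_lit 964)),(k2,(nat_lit 964)),(k7,(nat_lit 964)),(k9,(nat_lit 1103)),(k4,(nat_lit 1108)),(k5,(nat_lit 1108)),
    (k3,(nat_lit 1774)),(k6,(nat_lit 1774))],[(k2,(nat_lit 1108)),(k7,(nat_lit 1108)),(k9,(nat_lit 1247)),(k4,
    (nat_lit 1252)),(k5,(nat_lit 1252)),(k0,(nat_lit 1630)),(k6,(nat_lit 1918)),(k3,(nat_lit 2440))],[(k2,
    (nat_lit 1108)),(k7,(nat_lit 1108)),(k9,(nat_lit 1247)),(k4,(nat_lit 1252)),(k5,(nat_lit 1252)),(k0,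
    (nat_lit 1630)),(k6,(nat_lit 1918)),(k3,(nat_lit 2440))],[(k0,(nat_lit 964)),(k2,(nat_lit 964)),(k7,
    (nat_lit 964)),(k9,(nat_lit 1103)),(k4,(nat_lit 1108)),(k5,(nat_lit 1108)),(k3,(nat_lit 1774)),(k6,
    (nat_lit 1774))],[(k3,(nat_lit 964)),(k0,(nat_lit 1754)),(k2,(nat_lit 1774)),(k7,(nat_lit 1774)),(k9,
    (nat_lit 1913)),(k4,(nat_lit 1918)),(k5,(nat_lit 1918)),(k6,(nat_lit 2584))],[(k2,(nat_lit 1103)),(k7,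
    (nat_lit 1103)),(k9,(nat_lit 1242)),(k4,(nat_lit 1247)),(k5,(nat_lit 1247)),(k6,(nat_lit 1913)),(k3,
    (nat_lit 2455)),(k0,(nat_lit 3245))],[(k8,(nat_lit 1242)),(k11,(nat_lit 1421)),(k1,(nat_lit 1575)),(k10,
    (nat_lit 2137))],[(k1,(nat_lit 1038)),(k8,(nat_lit 1421)),(k10,(nat_lit 1600)),(k11,(nat_lit 1600))],[(k10,
    (nat_lit 1600)),(k11,(nat_lit 1600)),(k1,(nat_lit 1754)),(k8,(nat_lit 2137))]]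
    [[k2,k0,k0,k1,k0,k0],[k1,k1,k0,k1,k1,k0],[k1,k0,k1,k0,k1,k0],[k1,k0,k0,k1,k1,k0],[k0,k2,k0,k1,k0,k0],[k0,k2,k0,k2,
    k0,k0],[k0,k1,k1,k1,k0,k0],[k0,k1,k2,k1,k0,k0],[k0,k1,k0,k2,k0,k0],[k0,k1,k0,k1,k2,k0],[k0,k0,k3,k0,k0,k0],[k0,k0,
    k2,k1,k0,k0],[k0,k0,k1,k0,k2,k0],[k0,k0,k0,k1,k2,k0]]
    [.contra [z3,z0,z2,y1,y6],.contra [y3,z1,z0,z1,z9],.contra [z1,z0,z0,z0,y1],.contra [z1,z0,z0,z0,y1],.contra [y3,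
    z2,z1,z3],.contra [y3,z2,z1,z3],.contra [z1,y1,y1,y1,y2,z2],.contra [z3,y1,y2],.contra [z3,y5,y4,y6,y12,z12],
    .contra [y3,z1,z0,z1,z12],.contra [z1,z0,y1,z1],.ref k62 k0 [(z2,[z3,z0,y2,y1,z18]),(z1,[y6,z3,z4,z2]),(z1,[z3,z0,
    z1,y1]),(z1,[z3,z0,y2,z2])],.contra [y3,y4,y3,y4,y12,z12],.contra [y3,y2,y2,y1,y6,z6]],
    .base (.leafM k8 [k3,k5,k1,k2] [(z1,[z0,y3,y1,y3,z3]),(z1,[z0,z0,z1]),(z1,[z0,z1])] [(k4,k0,z1,[z0,z0,z0,z1]),(k0,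
    k4,z1,[z0,z0,z0,z1])]),
    .base (.geo z12 k3 [(z7,z0),(z10,y12),(z6,z0),(z0,z12),(z17,z0),(z8,z0)] [(z1,[z1]),(z1,[z0,z2]),(z1,[z0,z0,z6]),
    (z1,[]),(z1,[y1,z0,z0,z12]),(z1,[z0,y2,y6,y12,z12])] k6),
    .lp k0 [(nat_lit 282),(nat_lit 306),(nat_lit 240),(nat_lit 480),(nat_lit 284),(nat_lit 320)] [(nat_lit 235),
    (nat_lit 235),(nat_lit 280),k166,(nat_lit 256),(nat_lit 256),k0,(nat_lit 272),(nat_lit 252),(nat_lit 216),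
    (nat_lit 216),(nat_lit 216)] k0 [[k0,k0,k42,k0,k0,k0,k0,k86,k0,k0,k0,k0],[k0,k0,k2,k0,k0,k2,k0,(nat_lit 394),k0,
    k0,k0,k0],[k0,k0,k0,k0,k0,k0,k0,k0,k0,k0,k0,k0],[k2,k42,k0,k0,k0,k0,k88,k0,k0,k0,k0,k0],[k2,k0,k0,k0,k0,k0,k88,k0,
    k0,k0,k0,k0],[k0,k0,k0,k0,k0,k0,k0,k0,k0,k0,k0,k0],[(nat_lit 394),k86,k0,k0,k0,k0,k0,k148,k0,k0,k0,k0],[k0,k0,k88,
    k0,k0,k88,k0,k0,k0,k0,k0,k0],[k0,k0,k0,k0,k0,k0,k0,k0,k0,k0,k0,k76],[k0,k0,k0,k0,k0,k0,k0,k0,k0,k0,k0,k0],[k0,k0,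
    k0,k0,k0,k0,k0,k0,k0,k76,k0,k0],[k0,k0,k0,k0,k0,k0,k0,k0,k0,k0,k0,k0]] (nat_lit 960) k6
    [[(k8,(nat_lit 265)),(k1,(nat_lit 282)),(k10,(nat_lit 301)),(k11,(nat_lit 377))],[(k5,(nat_lit 219)),(k2,
    (nat_lit 239)),(k7,(nat_lit 247)),(k4,(nat_lit 261)),(k0,(nat_lit 282)),(k3,(nat_lit 351)),(k6,(nat_lit 431)),(k9,
    (nat_lit 695))],[(k6,k192),(k7,(nat_lit 314)),(k4,(nat_lit 328)),(k5,(nat_lit 328)),(k2,(nat_lit 348)),(k0,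
    (nat_lit 351)),(k3,(nat_lit 420)),(k9,(nat_lit 456))],[(k2,k192),(k7,(nat_lit 200)),(k4,(nat_lit 216)),(k5,
    (nat_lit 216)),(k0,(nat_lit 239)),(k9,(nat_lit 256)),(k3,(nat_lit 348)),(k6,(nat_lit 560))],[(k9,k192),(k2,
    (nat_lit 216)),(k0,(nat_lit 219)),(k7,(nat_lit 224)),(k4,(nat_lit 240)),(k5,(nat_lit 240)),(k3,(nat_lit 328)),(k6,
    (nat_lit 496))],[(k9,k192),(k2,(nat_lit 216)),(k7,(nat_lit 224)),(k4,(nat_lit 240)),(k5,(nat_lit 240)),(k0,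
    (nat_lit 261)),(k3,(nat_lit 328)),(k6,(nat_lit 496))],[(k2,(nat_lit 200)),(k7,(nat_lit 208)),(k4,(nat_lit 224)),
    (k5,(nat_lit 224)),(k0,(nat_lit 247)),(k9,(nat_lit 264)),(k3,(nat_lit 314)),(k6,(nat_lit 568))],[(k3,k192),(k0,
    (nat_lit 431)),(k4,(nat_lit 496)),(k5,(nat_lit 496)),(k9,(nat_lit 536)),(k2,(nat_lit 560)),(k7,(nat_lit 568)),(k6,
    (nat_lit 604))],[(k4,k192),(k5,k192),(k2,(nat_lit 256)),(k7,(nat_lit 264)),(k3,(nat_lit 456)),(k9,(nat_lit 468)),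
    (k6,(nat_lit 536)),(k0,(nat_lit 695))],[(k10,(nat_lit 208)),(k8,(nat_lit 248)),(k1,(nat_lit 265)),(k11,
    (nat_lit 284))],[(k8,(nat_lit 284)),(k10,(nat_lit 320)),(k11,(nat_lit 320)),(k1,(nat_lit 377))],[(k8,
    (nat_lit 208)),(k1,(nat_lit 301)),(k10,(nat_lit 320)),(k11,(nat_lit 320))]]
    [[k2,k1,k0,k0,k0,k0],[k2,k0,k1,k0,k0,k0],[k1,k1,k0,k0,k1,k0],[k1,k0,k1,k0,k1,k0],[k1,k0,k2,k0,k1,k0],[k0,k2,k1,k0,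
    k0,k0],[k0,k2,k0,k1,k0,k0],[k0,k2,k1,k1,k0,k0],[k0,k1,k2,k0,k0,k0],[k0,k2,k0,k2,k0,k0],[k0,k1,k1,k1,k0,k0],[k0,k1,
    k2,k1,k0,k0],[k0,k0,k3,k0,k0,k0],[k0,k0,k2,k0,k2,k0],[k0,k0,k1,k0,k2,k0],[k0,k0,k1,k0,k2,k1]]
    [.contra [z3,y1,z2,z0,y6],.contra [z3,z2,y1,z0,y6],.contra [z1,z0,z0,z0,y1],.contra [z6,z1,y2],.contra [z3,z1,y2,
    z0,z3],.contra [y3,z3,z1,z2],.contra [z3,y6,y4,y5,y12,z12],.contra [z3,y2,y1,y1,z6],.ref k62 k0 [(z2,[z3,y1,y2,z0,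
    z18]),(z1,[z3,z2,y2]),(z1,[z3,y1,z1]),(z1,[y6,z2,z4,z3])],.contra [y6,z7,z0,z4,z6],.contra [z1,y1,y1,y1,y2,z2],
    .contra [z3,z0,y2,y1],.contra [z1,z1,y1],.contra [z15,z0,y10,z1,z42],.contra [y3,y4,y3,y4,y12,z12],.contra [y3,y7,
    y6,y7,y21,z21]],
    .lp (nat_lit 65537) [(nat_lit 6160),(nat_lit 6686),(nat_lit 3706),(nat_lit 7804),(nat_lit 5644),
    (nat_lit 6000)] [(nat_lit 2025),(nat_lit 2025),(nat_lit 3290),(nat_lit 234),(nat_lit 3252),(nat_lit 3252),k0,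
    (nat_lit 2406),(nat_lit 3290),(nat_lit 1276),(nat_lit 2105),(nat_lit 2105)] k0 [[k0,k0,k0,(nat_lit 516),
    (nat_lit 1438),k0,k0,k26,k0,k0,k0,k0],[k0,k0,k0,(nat_lit 516),(nat_lit 1458),k0,k0,(nat_lit 6346),k0,k0,k0,k0],
    [(nat_lit 516),(nat_lit 516),k0,k0,k0,k0,k0,k0,k0,k0,k0,k0],[k0,k0,k0,k0,(nat_lit 922),k0,(nat_lit 2052),k0,k0,k0,
    k0,k0],[k0,k0,k0,k0,k0,k0,(nat_lit 2052),k0,k0,k0,k0,k0],[(nat_lit 1458),(nat_lit 1438),(nat_lit 922),k0,k0,k0,k0,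
    k0,k0,k0,k0,k0],[(nat_lit 6346),k26,k0,k0,k0,k0,k0,(nat_lit 392),k0,k0,k0,k0],[k0,k0,(nat_lit 2052),k0,k0,
    (nat_lit 2052),k0,k0,k0,k0,k0,k0],[k0,k0,k0,k0,k0,k0,k0,k0,k0,k0,k0,k0],[k0,k0,k0,k0,k0,k0,k0,k0,k0,k0,
    (nat_lit 320),k0],[k0,k0,k0,k0,k0,k0,k0,k0,k0,k0,k0,k0],[k0,k0,k0,k0,k0,k0,k0,k0,(nat_lit 320),k0,k0,
    k0]] (nat_lit 18000) k6
    [[(k8,(nat_lit 4895)),(k11,(nat_lit 5760)),(k10,(nat_lit 6080)),(k1,(nat_lit 6160))],[(k7,(nat_lit 4341)),(k2,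
    (nat_lit 4379)),(k5,(nat_lit 5449)),(k0,(nat_lit 6160)),(k4,(nat_lit 6391)),(k3,(nat_lit 7951)),(k6,
    (nat_lit 8159)),(k9,(nat_lit 13255))],[(k6,(nat_lit 3630)),(k7,(nat_lit 6112)),(k2,(nat_lit 6170)),(k5,
    (nat_lit 7240)),(k0,(nat_lit 7951)),(k4,(nat_lit 8162)),(k9,(nat_lit 8726)),(k3,(nat_lit 9742))],[(k2,
    (nat_lit 3630)),(k5,(nat_lit 3668)),(k0,(nat_lit 4379)),(k7,(nat_lit 4514)),(k4,(nat_lit 4590)),(k9,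
    (nat_lit 5644)),(k3,(nat_lit 6170)),(k6,(nat_lit 8972))],[(k7,(nat_lit 3630)),(k9,(nat_lit 3630)),(k2,
    (nat_lit 3668)),(k4,(nat_lit 3706)),(k5,(nat_lit 3706)),(k0,(nat_lit 5449)),(k6,(nat_lit 6958)),(k3,
    (nat_lit 7240))],[(k9,(nat_lit 3630)),(k4,(nat_lit 3706)),(k5,(nat_lit 3706)),(k7,(nat_lit 4552)),(k2,
    (nat_lit 4590)),(k0,(nat_lit 6391)),(k6,(nat_lit 6958)),(k3,(nat_lit 8162))],[(k5,(nat_lit 3630)),(k0,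
    (nat_lit 4341)),(k2,(nat_lit 4514)),(k4,(nat_lit 4552)),(k7,(nat_lit 5398)),(k3,(nat_lit 6112)),(k9,
    (nat_lit 6528)),(k6,(nat_lit 9856))],[(k3,(nat_lit 3630)),(k4,(nat_lit 6958)),(k5,(nat_lit 6958)),(k0,
    (nat_lit 8159)),(k9,(nat_lit 8934)),(k2,(nat_lit 8972)),(k6,(nat_lit 9818)),(k7,(nat_lit 9856))],[(k4,
    (nat_lit 3630)),(k5,(nat_lit 3630)),(k2,(nat_lit 5644)),(k7,(nat_lit 6528)),(k9,(nat_lit 8050)),(k3,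
    (nat_lit 8726)),(k6,(nat_lit 8934)),(k0,(nat_lit 13255))],[(k8,(nat_lit 3630)),(k11,(nat_lit 4815)),(k1,
    (nat_lit 4895)),(k10,(nat_lit 5135))],[(k8,(nat_lit 4815)),(k1,(nat_lit 5760)),(k10,(nat_lit 6000)),(k11,
    (nat_lit 6000))],[(k8,(nat_lit 5135)),(k10,(nat_lit 6000)),(k11,(nat_lit 6000)),(k1,(nat_lit 6080))]]
    [[k1,k0,k1,k0,k1,k0],[k1,k0,k2,k0,k1,k0],[k0,k2,k0,k1,k0,k0],[k0,k1,k2,k0,k0,k0],[k0,k2,k0,k2,k0,k0],[k0,k1,k1,k1,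
    k0,k0],[k0,k1,k2,k1,k0,k0],[k0,k0,k3,k0,k0,k0],[k0,k0,k4,k0,k0,k0],[k0,k0,k2,k1,k0,k0],[k0,k0,k2,k0,k2,k0],[k0,k0,
    k1,k0,k2,k0],[k0,k0,k1,k0,k2,k1]]
    [.contra [z1,z0,z0,y1],.contra [z1,z0,z0,y1],.ref k72 k0 [(z1,[z1,y1]),(z1,[z0,z0,z1]),(z1,[y1,z2])],
    .ref k73 k0 [(z1,[z3,z0,y2]),(z1,[z0,z0,z1]),(z1,[y3,z3,z2])],.ref k74 k0 [(z2,[y1,z2,z0,z4]),(z2,[z1]),(z2,[y3,
    z6,z2])],.contra [z1,y3,y1,y2,z2],.ref k6 k0 [(z2,[z3,y3,y2,z6]),(z1,[y3,z6,z2]),(z1,[z3,y3,y1])],.ref k6 k0 [(z2,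
    [z1,z0,y1,z6]),(z1,[y1,z3,z1]),(z1,[z1])],.ref k75 k0 [(z2,[z3,z0,y4,z24]),(z2,[y3,z12,z4]),(z2,[z1])],
    .ref k76 k0 [(z1,[y3,z3,z2]),(z1,[z0,z0,z1]),(z1,[z3,z0,y2])],.contra [z3,z1,y2,z8],.contra [y1,y4,y1,y4,z4],
    .contra [y1,y7,y2,y7,z7]],
    .base (.geo z12 k3 [(z9,z0),(z10,y12),(z6,z0),(z0,z12),(z15,z0),(z8,z0)] [(z1,[z3]),(z1,[z0,z2]),(z1,[z0,z0,z6]),
    (z1,[]),(z1,[y3,z0,z0,z12]),(z1,[z0,y2,y6,y12,z12])] k6),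
    .base (.geo z6 k3 [(z3,z0),(z5,y6),(z3,z0),(z0,z6),(z9,z0),(z4,z0)] [(z1,[z3]),(z1,[z0,z1]),(z1,[z0,z0,z3]),(z1,
    []),(z1,[y3,z0,z0,z6]),(z1,[z0,y1,y3,y6,z6])] k6),
    .base (.geo z12 k3 [(z5,z0),(z10,y12),(z6,z0),(z0,z12),(z19,z0),(z8,z0)] [(z1,[z1]),(z1,[z0,z2]),(z1,[z0,z0,z6]),
    (z1,[]),(z1,[y1,z0,z0,z12]),(z1,[z0,y2,y6,y12,z12])] k6),
    .lp (nat_lit 65537) [(nat_lit 1378),(nat_lit 1730),(nat_lit 1200),(nat_lit 2094),(nat_lit 1598),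
    (nat_lit 1600)] [(nat_lit 897),(nat_lit 897),(nat_lit 1102),(nat_lit 340),(nat_lit 986),(nat_lit 986),k0,
    (nat_lit 1078),(nat_lit 1102),(nat_lit 472),(nat_lit 658),(nat_lit 914)] k0 [[k0,k0,k90,k90,k50,k0,k0,k0,k0,k0,k0,
    k0],[k0,k0,k0,k0,k0,k0,k0,(nat_lit 1864),k0,k0,k0,k0],[k0,k90,k0,k0,k0,k0,k0,k0,k0,k0,k0,k0],[k0,k90,k0,k0,k140,
    k0,(nat_lit 746),k0,k0,k0,k0,k0],[k0,k0,k0,k0,k0,k0,(nat_lit 746),k0,k0,k0,k0,k0],[k0,k50,k140,k0,k0,k0,k0,k0,k0,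
    k0,k0,k0],[(nat_lit 1864),k0,k0,k0,k0,k0,k0,(nat_lit 448),k0,k0,k0,k0],[k0,k0,(nat_lit 746),k0,k0,(nat_lit 746),
    k0,k0,k0,k0,k0,k0],[k0,k0,k0,k0,k0,k0,k0,k0,k0,k0,k0,(nat_lit 444)],[k0,k0,k0,k0,k0,k0,k0,k0,k0,k0,k0,k0],[k0,k0,
    k0,k0,k0,k0,k0,k0,k0,(nat_lit 444),k0,k0],[k0,k0,k0,k0,k0,k0,k0,k0,k0,k0,k0,k0]] (nat_lit 4800) k6
    [[(k8,(nat_lit 1173)),(k1,(nat_lit 1378)),(k10,(nat_lit 1617)),(k11,(nat_lit 1805))],[(k2,(nat_lit 1083)),(k7,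
    (nat_lit 1147)),(k5,(nat_lit 1199)),(k4,(nat_lit 1289)),(k0,(nat_lit 1378)),(k3,(nat_lit 1935)),(k6,
    (nat_lit 2275)),(k9,(nat_lit 3667))],[(k6,(nat_lit 968)),(k7,(nat_lit 1754)),(k2,(nat_lit 1820)),(k4,
    (nat_lit 1896)),(k0,(nat_lit 1935)),(k5,(nat_lit 1936)),(k9,(nat_lit 2360)),(k3,(nat_lit 2492))],[(k2,
    (nat_lit 968)),(k7,(nat_lit 992)),(k0,(nat_lit 1083)),(k5,(nat_lit 1084)),(k4,(nat_lit 1224)),(k9,(nat_lit 1598)),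
    (k3,(nat_lit 1820)),(k6,(nat_lit 2816))],[(k7,(nat_lit 968)),(k9,(nat_lit 968)),(k2,(nat_lit 1084)),(k0,
    (nat_lit 1199)),(k4,(nat_lit 1200)),(k5,(nat_lit 1200)),(k3,(nat_lit 1936)),(k6,(nat_lit 2186))],[(k9,
    (nat_lit 968)),(k7,(nat_lit 1108)),(k4,(nat_lit 1200)),(k5,(nat_lit 1200)),(k2,(nat_lit 1224)),(k0,
    (nat_lit 1289)),(k3,(nat_lit 1896)),(k6,(nat_lit 2186))],[(k5,(nat_lit 968)),(k2,(nat_lit 992)),(k7,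
    (nat_lit 1016)),(k4,(nat_lit 1108)),(k0,(nat_lit 1147)),(k9,(nat_lit 1622)),(k3,(nat_lit 1754)),(k6,
    (nat_lit 2840))],[(k3,(nat_lit 968)),(k4,(nat_lit 2186)),(k5,(nat_lit 2186)),(k0,(nat_lit 2275)),(k9,
    (nat_lit 2700)),(k6,(nat_lit 2724)),(k2,(nat_lit 2816)),(k7,(nat_lit 2840))],[(k4,(nat_lit 968)),(k5,
    (nat_lit 968)),(k2,(nat_lit 1598)),(k7,(nat_lit 1622)),(k3,(nat_lit 2360)),(k9,(nat_lit 2676)),(k6,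
    (nat_lit 2700)),(k0,(nat_lit 3667))],[(k8,(nat_lit 968)),(k10,(nat_lit 968)),(k11,(nat_lit 1156)),(k1,
    (nat_lit 1173))],[(k8,(nat_lit 1156)),(k11,(nat_lit 1344)),(k10,(nat_lit 1600)),(k1,(nat_lit 1805))],[(k8,
    (nat_lit 968)),(k11,(nat_lit 1600)),(k1,(nat_lit 1617)),(k10,(nat_lit 1856))]]
    [[k2,k1,k0,k0,k0,k0],[k2,k1,k0,k1,k0,k0],[k2,k0,k1,k0,k0,k0],[k1,k1,k0,k0,k1,k0],[k1,k0,k1,k0,k1,k0],[k1,k0,k2,k0,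
    k1,k0],[k0,k2,k0,k1,k0,k0],[k0,k1,k2,k0,k0,k0],[k0,k2,k0,k2,k0,k0],[k0,k1,k1,k1,k0,k0],[k0,k1,k2,k1,k0,k0],[k0,k0,
    k3,k0,k0,k0],[k0,k0,k2,k1,k0,k0],[k0,k0,k2,k0,k2,k0],[k0,k0,k1,k0,k2,k0],[k0,k0,k1,k0,k2,k1]]
    [.ref k46 k0 [(z1,[z1,z0,z0,y2]),(z1,[z0,z0,z1]),(z1,[y6,z1,z0,z12])],.ref k75 k0 [(z1,[z6,y1]),(z1,[z0,z1]),(z1,
    [z0,z0,z1])],.ref k78 k0 [(z1,[z2,z0,y1]),(z1,[z0,z1]),(z1,[z0,z0,z1])],.contra [z1,z0,z0,y1],.contra [y1,z0,z1,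
    z1],.contra [y1,z0,z2,z1],.contra [y3,z1,z1],.contra [z1,z0,y1],.contra [z3,y1,z1],.contra [z6,y1,z1],.contra [z6,
    y1,y5],.contra [z1,z0,y1],.contra [z1,z0,y1],.ref k79 k1 [(z1,[z1,z0,y1]),(z1,[z0,z1]),(z1,[z0,z0,z1])],
    .ref k78 k1 [(z1,[z2,z0,y1]),(z1,[z0,z1]),(z1,[z0,z0,z1])],.ref k80 k1 [(z1,[z6,z1,z0,z6,y6]),(z1,[z0,z1]),(z1,
    [z0,z0,z1])]],
    .base (.geo z3 k4 [(z6,y3),(z5,y3),(z3,y3),(y4,z6),(z0,z3),(z2,z0)] [(z1,[z0,z0,z0,z3]),(z1,[z1]),(z1,[z0,z3]),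
    (z1,[z0,z0,z1]),(z1,[]),(z1,[y1,y3,y1,y3,z3])] k6),
    .base (.geo z3 k4 [(z6,y3),(z0,z6),(z3,y3),(z1,y3),(z0,z3),(z2,z0)] [(z1,[z0,z0,z0,z3]),(z1,[z3]),(z1,[z0,z3]),
    (z1,[z0,z0,z1]),(z1,[]),(z1,[y3,y3,y1,y3,z3])] k9)]

theorem hB6_105_6 : blkB [0, 0, 0, 0, 1, 1] [(0, 4)] sp6 hS6_105 (pcls (n := 6) [0, 0, 0, 0, 1, 1]) hD6_105 111 6 hN6_105_6 = true := by
  decide +kernel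

/-- nodes 84 to 95 -/
noncomputable def hN6_105_7 : List HM :=
  [.base (.leafM k8 [k3,k5,k1,k2] [(z1,[z0,y3,y1,y3,z3]),(z1,[z0,z0,z1]),(z1,[z0,z1])] [(k4,k0,z1,[z0,z0,z0,z1]),(k0,
    k4,z1,[z0,z0,z0,z1])]),
    .lp k0 [k48,k90,k60,k108,k93,k80] [k57,k57,k57,k15,k51,k51,k0,k54,k39,k30,k41,k41] k0 [[k0,k0,k0,k0,k0,k0,k0,k0,
    k0,k0,k0,k0],[k0,k0,k0,k0,k0,k0,k36,k99,k0,k0,k0,k0],[k0,k0,k0,k0,k0,k0,k0,k0,k0,k0,k0,k0],[k0,k0,k0,k0,k0,k0,k33,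
    k0,k0,k0,k0,k0],[k0,k0,k0,k0,k0,k0,k33,k0,k0,k0,k0,k0],[k0,k0,k0,k0,k0,k0,k0,k0,k0,k0,k0,k0],[k99,k0,k0,k0,k0,k0,
    k0,k0,k0,k0,k0,k0],[k36,k0,k33,k0,k0,k33,k0,k0,k0,k0,k0,k0],[k0,k0,k0,k0,k0,k0,k0,k0,k0,k0,k0,k4],[k0,k0,k0,k0,k0,
    k0,k0,k0,k0,k0,k0,k0],[k0,k0,k0,k0,k0,k0,k0,k0,k0,k4,k0,k0],[k0,k0,k0,k0,k0,k0,k0,k0,k0,k0,k0,
    k0]] (nat_lit 240) k6
    [[(k1,k48),(k10,k64),(k8,k66),(k11,k68)],[(k0,k48),(k2,k48),(k7,k51),(k4,k54),(k5,k54),(k3,k90),(k6,k141),(k9,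
    k174)],[(k6,k48),(k9,k81),(k0,k90),(k2,k90),(k7,k93),(k4,k96),(k5,k96),(k3,k132)],[(k0,k48),(k2,k48),(k7,k51),(k4,
    k54),(k5,k54),(k9,k75),(k3,k90),(k6,k138)],[(k9,k48),(k0,k54),(k2,k54),(k7,k57),(k4,k60),(k5,k60),(k3,k96),(k6,
    k111)],[(k9,k48),(k0,k54),(k2,k54),(k7,k57),(k4,k60),(k5,k60),(k3,k96),(k6,k111)],[(k0,k51),(k2,k51),(k7,k54),(k4,
    k57),(k5,k57),(k9,k78),(k3,k93),(k6,k141)],[(k3,k48),(k4,k111),(k5,k111),(k9,k132),(k2,k138),(k0,k141),(k7,k141),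
    (k6,k162)],[(k4,k48),(k5,k48),(k2,k75),(k7,k78),(k3,k81),(k9,k102),(k6,k132),(k0,k174)],[(k1,k66),(k10,k78),(k11,
    k82),(k8,k84)],[(k1,k68),(k10,k80),(k11,k80),(k8,k82)],[(k1,k64),(k8,k78),(k10,k80),(k11,k80)]]
    [[k4,k0,k0,k0,k0,k0],[k2,k1,k0,k0,k0,k0],[k2,k1,k0,k1,k0,k0],[k2,k0,k1,k0,k0,k0],[k2,k0,k2,k0,k0,k0],[k1,k1,k0,k0,
    k1,k0],[k1,k0,k1,k0,k1,k0],[k1,k0,k2,k0,k1,k0],[k2,k0,k0,k0,k0,k1],[k0,k2,k0,k1,k0,k0],[k0,k1,k2,k0,k0,k0],[k0,k2,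
    k0,k2,k0,k0],[k0,k1,k1,k1,k0,k0],[k0,k1,k2,k1,k0,k0],[k0,k0,k3,k0,k0,k0],[k0,k0,k2,k1,k0,k0],[k0,k0,k1,k0,k2,k0]]
    [.contra [z1,z0,z2,y2],.contra [z1,z0,z2,y2],.contra [z7,y2,z0,y6],.contra [z1,z0,y1,z1],.contra [z1,z0,y2,z2],
    .contra [z1,z0,z0,y1],.contra [z1,z0,y1],.contra [z1,z0,y2,z1],.contra [z3,z1,z7,y1,y3],.ref k82 k0 [(z1,[z3,y1]),
    (z1,[z0,z0,z1]),(z1,[y3,z2])],.ref k83 k0 [(z1,[z1,z0,y2]),(z1,[z0,z0,z1]),(z1,[y3,z1,z6])],.ref k84 k1 [(z2,[z3,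
    y2]),(z2,[z1]),(z2,[y3,z2,z6])],.contra [z1,y1,y3,y2,z2],.ref k27 k1 [(z1,[y3,z1,z6]),(z1,[y3,z2,z6]),(z1,[z3,y1,
    y3])],.ref k27 k1 [(z1,[y1,z0,z3]),(z1,[y1,z1,z3]),(z1,[z1])],.ref k66 k0 [(z1,[y3,z1,z6]),(z1,[z0,z0,z1]),(z1,
    [z1,z0,y2])],.contra [y1,z0,z1,z1]],
    .base (.geo z3 k4 [(z6,y3),(y2,z12),(z4,y6),(z2,y6),(z0,z3),(z2,z0)] [(z1,[z0,z0,z0,z3]),(z1,[z1]),(z1,[z0,z1]),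
    (z1,[z0,z0,z1]),(z1,[]),(z1,[y1,y1,y1,y3,z3])] k9),
    .lp k0 [k48,k90,k60,k108,k93,k80] [k57,k57,k57,k15,k51,k51,k0,k54,k39,k30,k41,k41] k0 [[k0,k0,k0,k0,k0,k0,k0,k0,
    k0,k0,k0,k0],[k0,k0,k0,k0,k0,k0,k36,k99,k0,k0,k0,k0],[k0,k0,k0,k0,k0,k0,k0,k0,k0,k0,k0,k0],[k0,k0,k0,k0,k0,k0,k33,
    k0,k0,k0,k0,k0],[k0,k0,k0,k0,k0,k0,k33,k0,k0,k0,k0,k0],[k0,k0,k0,k0,k0,k0,k0,k0,k0,k0,k0,k0],[k99,k0,k0,k0,k0,k0,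
    k0,k0,k0,k0,k0,k0],[k36,k0,k33,k0,k0,k33,k0,k0,k0,k0,k0,k0],[k0,k0,k0,k0,k0,k0,k0,k0,k0,k0,k0,k4],[k0,k0,k0,k0,k0,
    k0,k0,k0,k0,k0,k0,k0],[k0,k0,k0,k0,k0,k0,k0,k0,k0,k4,k0,k0],[k0,k0,k0,k0,k0,k0,k0,k0,k0,k0,k0,
    k0]] (nat_lit 240) k6
    [[(k1,k48),(k10,k64),(k8,k66),(k11,k68)],[(k0,k48),(k2,k48),(k7,k51),(k4,k54),(k5,k54),(k3,k90),(k6,k141),(k9,
    k174)],[(k6,k48),(k9,k81),(k0,k90),(k2,k90),(k7,k93),(k4,k96),(k5,k96),(k3,k132)],[(k0,k48),(k2,k48),(k7,k51),(k4,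
    k54),(k5,k54),(k9,k75),(k3,k90),(k6,k138)],[(k9,k48),(k0,k54),(k2,k54),(k7,k57),(k4,k60),(k5,k60),(k3,k96),(k6,
    k111)],[(k9,k48),(k0,k54),(k2,k54),(k7,k57),(k4,k60),(k5,k60),(k3,k96),(k6,k111)],[(k0,k51),(k2,k51),(k7,k54),(k4,
    k57),(k5,k57),(k9,k78),(k3,k93),(k6,k141)],[(k3,k48),(k4,k111),(k5,k111),(k9,k132),(k2,k138),(k0,k141),(k7,k141),
    (k6,k162)],[(k4,k48),(k5,k48),(k2,k75),(k7,k78),(k3,k81),(k9,k102),(k6,k132),(k0,k174)],[(k1,k66),(k10,k78),(k11,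
    k82),(k8,k84)],[(k1,k68),(k10,k80),(k11,k80),(k8,k82)],[(k1,k64),(k8,k78),(k10,k80),(k11,k80)]]
    [[k4,k0,k0,k0,k0,k0],[k2,k1,k0,k0,k0,k0],[k2,k1,k0,k1,k0,k0],[k2,k0,k1,k0,k0,k0],[k2,k0,k2,k0,k0,k0],[k1,k1,k0,k0,
    k1,k0],[k1,k0,k1,k0,k1,k0],[k1,k0,k2,k0,k1,k0],[k2,k0,k0,k0,k0,k1],[k0,k2,k0,k1,k0,k0],[k0,k1,k2,k0,k0,k0],[k0,k2,
    k0,k2,k0,k0],[k0,k1,k1,k1,k0,k0],[k0,k1,k2,k1,k0,k0],[k0,k0,k3,k0,k0,k0],[k0,k0,k2,k1,k0,k0],[k0,k0,k1,k0,k2,k0]]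
    [.contra [z4,z0,z1,y6],.contra [z4,z0,z1,y6],.contra [y1,y5,y2,y4,z6],.contra [z4,z0,z1,y6],.contra [z4,z0,z1,y6],
    .contra [z1,z0,z0,y1],.contra [z1,z0,z0,y1],.contra [z1,z0,z0,y1],.contra [z2,z2,z1,z0,y2],.ref k49 k0 [(z1,[z1,
    y1]),(z1,[z0,z0,z1]),(z1,[y1,z2])],.ref k86 k0 [(z1,[z3,z0,y2]),(z1,[z0,z0,z1]),(z1,[y3,z3,z2])],.ref k74 k1 [(z2,
    [z1,y2]),(z2,[z1]),(z2,[y3,z6,z2])],.contra [z1,y3,y1,y2,z2],.ref k27 k1 [(z2,[y3,z3,z2]),(z1,[y3,z6,z2]),(z1,[z3,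
    y3,y1])],.ref k27 k1 [(z2,[y1,z0,z1]),(z1,[y1,z3,z1]),(z1,[z1])],.ref k69 k0 [(z1,[y3,z3,z2]),(z1,[z0,z0,z1]),(z1,
    [z3,z0,y2])],.contra [z1,y2,y1,y2,z2]],
    .lp (nat_lit 65537) [(nat_lit 354),(nat_lit 472),(nat_lit 256),(nat_lit 666),(nat_lit 252),
    (nat_lit 400)] [(nat_lit 349),(nat_lit 349),(nat_lit 386),k194,(nat_lit 398),(nat_lit 398),k0,(nat_lit 386),
    (nat_lit 400),(nat_lit 400),(nat_lit 316),(nat_lit 336)] k0 [[k0,k0,k0,k0,k0,k0,k0,(nat_lit 246),k0,k0,k0,k0],[k0,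
    k0,k0,k0,k0,k0,k0,(nat_lit 614),k0,k0,k0,k0],[k0,k0,k0,k0,k0,k0,k22,k0,k0,k0,k0,k0],[k0,k0,k0,k0,k0,k0,k10,k0,k0,
    k0,k0,k0],[k0,k0,k0,k0,k0,k0,k10,k0,k0,k0,k0,k0],[k0,k0,k0,k0,k0,k0,k22,k0,k0,k0,k0,k0],[(nat_lit 614),
    (nat_lit 246),k0,k0,k0,k0,k0,(nat_lit 388),k0,k0,k0,k0],[k0,k0,k10,k22,k22,k10,k0,k0,k0,k0,k0,k0],[k0,k0,k0,k0,k0,
    k0,k0,k0,k0,k0,k0,k92],[k0,k0,k0,k0,k0,k0,k0,k0,k0,k0,k0,k0],[k0,k0,k0,k0,k0,k0,k0,k0,k0,k92,k0,k0],[k0,k0,k0,k0,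
    k0,k0,k0,k0,k0,k0,k0,k0]] (nat_lit 1200) k6
    [[(k8,(nat_lit 303)),(k1,(nat_lit 354)),(k10,(nat_lit 387)),(k11,(nat_lit 459))],[(k4,(nat_lit 305)),(k5,
    (nat_lit 305)),(k2,(nat_lit 317)),(k7,(nat_lit 317)),(k0,(nat_lit 354)),(k6,(nat_lit 457)),(k3,(nat_lit 509)),(k9,
    (nat_lit 917))],[(k6,(nat_lit 244)),(k4,(nat_lit 460)),(k5,(nat_lit 460)),(k2,(nat_lit 472)),(k7,(nat_lit 472)),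
    (k0,(nat_lit 509)),(k3,(nat_lit 664)),(k9,(nat_lit 704))],[(k9,(nat_lit 244)),(k4,(nat_lit 268)),(k5,
    (nat_lit 268)),(k2,(nat_lit 280)),(k7,(nat_lit 280)),(k0,(nat_lit 317)),(k3,(nat_lit 472)),(k6,(nat_lit 676))],
    [(k9,(nat_lit 244)),(k4,(nat_lit 256)),(k5,(nat_lit 256)),(k2,(nat_lit 268)),(k7,(nat_lit 268)),(k0,
    (nat_lit 305)),(k3,(nat_lit 460)),(k6,(nat_lit 676))],[(k9,(nat_lit 244)),(k4,(nat_lit 256)),(k5,(nat_lit 256)),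
    (k2,(nat_lit 268)),(k7,(nat_lit 268)),(k0,(nat_lit 305)),(k3,(nat_lit 460)),(k6,(nat_lit 676))],[(k9,
    (nat_lit 244)),(k4,(nat_lit 268)),(k5,(nat_lit 268)),(k2,(nat_lit 280)),(k7,(nat_lit 280)),(k0,(nat_lit 317)),(k3,
    (nat_lit 472)),(k6,(nat_lit 676))],[(k3,(nat_lit 244)),(k0,(nat_lit 457)),(k9,(nat_lit 652)),(k6,(nat_lit 664)),
    (k2,(nat_lit 676)),(k4,(nat_lit 676)),(k5,(nat_lit 676)),(k7,(nat_lit 676))],[(k2,(nat_lit 244)),(k4,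
    (nat_lit 244)),(k5,(nat_lit 244)),(k7,(nat_lit 244)),(k9,(nat_lit 640)),(k6,(nat_lit 652)),(k3,(nat_lit 704)),(k0,
    (nat_lit 917))],[(k10,(nat_lit 244)),(k8,(nat_lit 252)),(k1,(nat_lit 303)),(k11,(nat_lit 316))],[(k8,
    (nat_lit 316)),(k11,(nat_lit 380)),(k10,(nat_lit 400)),(k1,(nat_lit 459))],[(k8,(nat_lit 244)),(k1,(nat_lit 387)),
    (k11,(nat_lit 400)),(k10,(nat_lit 420))]]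
    [[k2,k1,k0,k0,k0,k0],[k2,k0,k1,k0,k0,k0],[k2,k0,k0,k1,k0,k0],[k1,k1,k0,k0,k1,k0],[k1,k1,k0,k1,k1,k0],[k1,k0,k1,k0,
    k1,k0],[k1,k0,k2,k0,k1,k0],[k1,k0,k0,k1,k1,k0],[k0,k2,k0,k1,k0,k0],[k0,k1,k2,k0,k0,k0],[k0,k2,k0,k2,k0,k0],[k0,k1,
    k1,k1,k0,k0],[k0,k1,k2,k1,k0,k0],[k0,k1,k0,k1,k2,k0],[k0,k0,k3,k0,k0,k0],[k0,k0,k4,k0,k0,k0],[k0,k0,k2,k0,k2,k0],
    [k0,k0,k1,k0,k2,k0],[k0,k0,k1,k0,k2,k1],[k0,k0,k0,k1,k2,k0]]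
    [.ref k48 k0 [(z1,[z1,z0,y2]),(z1,[y3,z1,z6])],.ref k15 k1 [(z1,[y3,z1]),(z1,[z1])],.ref k57 k1 [(z1,[z1]),(z1,
    [y3,z1])],.contra [z1,z0,y1],.contra [z1,z0,y1],.contra [z1,z0,y1],.contra [z1,z0,y1],.contra [z1,z0,y1],
    .ref k61 k0 [(z1,[z1]),(z1,[y3,z2])],.ref k70 k1 [(z1,[y3,z2]),(z1,[z1])],.ref k71 k0 [(z2,[z1]),(z2,[y3,z2])],
    .contra [z1,y1,y2,z2],.ref k33 k0 [(z1,[y3,z2]),(z1,[z3,y1])],.ref k77 k1 [(z1,[z1,z0,y2]),(z1,[y3,z1,z6])],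
    .ref k33 k0 [(z1,[y1,z1]),(z1,[z1])],.ref k81 k0 [(z2,[y3,z4]),(z2,[z1])],.ref k85 k0 [(z2,[y3,z2]),(z2,[z1])],
    .ref k15 k0 [(z1,[y3,z1]),(z1,[z1])],.ref k87 k0 [(z1,[y1,z0,y1,z1]),(z1,[z3,z1,z3,y3])],.ref k48 k1 [(z1,[z1,z0,
    y2]),(z1,[y3,z1,z6])]],
    .base (.geo z2 k4 [(z4,y2),(y4,z8),(z3,y4),(z4,y4),(z0,z2),(z1,z0)] [(z1,[z0,z0,z0,z2]),(z1,[z2]),(z1,[z0,z1]),
    (z1,[z0,z0,z2]),(z1,[]),(z1,[y2,y1,y2,y2,z2])] k7),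
    .base (.geo z4 k0 [(z3,z0),(z2,z0),(z3,z0),(z1,z0),(z5,z0),(z2,z0)] [(z1,[z1]),(z1,[z0,z2]),(z1,[z0,z0,z1]),(z1,
    [z0,z0,z0,z1]),(z1,[y1,z0,z0,z0,z4]),(z1,[z0,y2,y1,y1,y4,z4])] k1),
    .base (.geo z10 k0 [(z7,z0),(z6,z0),(z7,z0),(z2,z0),(z13,z0),(z5,z0)] [(z1,[z1]),(z1,[z0,z2]),(z1,[z0,z0,z1]),(z1,
    [z0,z0,z0,z2]),(z1,[y1,z0,z0,z0,z10]),(z1,[z0,y2,y1,y2,y10,z10])] k1),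
    .lp k0 [k110,k62,k68,k104,k74,k60] [k14,k22,k42,k42,k39,k39,k0,k42,k39,k33,k43,k43] k0 [[k0,k0,k0,k42,k42,k0,k0,
    k36,k0,k0,k0,k0],[k0,k0,k0,k14,k14,k0,k0,k56,k0,k0,k0,k0],[k14,k42,k0,k0,k0,k0,k0,k0,k0,k0,k0,k0],[k0,k0,k0,k0,k0,
    k0,k26,k0,k0,k0,k0,k0],[k0,k0,k0,k0,k0,k0,k26,k0,k0,k0,k0,k0],[k14,k42,k0,k0,k0,k0,k0,k0,k0,k0,k0,k0],[k56,k36,k0,
    k0,k0,k0,k0,k16,k0,k0,k0,k0],[k0,k0,k26,k0,k0,k26,k0,k0,k0,k0,k0,k0],[k0,k0,k0,k0,k0,k0,k0,k0,k0,k0,k0,k0],[k0,k0,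
    k0,k0,k0,k0,k0,k0,k0,k0,k16,k0],[k0,k0,k0,k0,k0,k0,k0,k0,k0,k0,k0,k0],[k0,k0,k0,k0,k0,k0,k0,k0,k16,k0,k0,
    k0]] (nat_lit 240) k6
    [[(k11,k65),(k10,k81),(k8,k85),(k1,k102)],[(k2,k48),(k7,k48),(k3,k90),(k6,k96),(k4,k107),(k5,k107),(k0,k118),(k9,
    k155)],[(k2,k48),(k6,k48),(k7,k48),(k3,k62),(k0,k90),(k4,k107),(k5,k107),(k9,k107)],[(k0,k48),(k3,k48),(k2,k62),
    (k7,k62),(k4,k65),(k5,k65),(k9,k71),(k6,k130)],[(k9,k48),(k2,k65),(k7,k65),(k4,k68),(k5,k68),(k0,k107),(k3,k107),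
    (k6,k107)],[(k9,k48),(k2,k65),(k7,k65),(k4,k68),(k5,k68),(k0,k107),(k3,k107),(k6,k107)],[(k0,k48),(k3,k48),(k2,
    k62),(k7,k62),(k4,k65),(k5,k65),(k9,k71),(k6,k130)],[(k3,k48),(k0,k96),(k4,k107),(k5,k107),(k9,k113),(k2,k130),
    (k6,k130),(k7,k130)],[(k4,k48),(k5,k48),(k2,k71),(k7,k71),(k9,k96),(k3,k107),(k6,k113),(k0,k155)],[(k11,k64),(k8,
    k68),(k10,k80),(k1,k85)],[(k10,k60),(k11,k60),(k8,k64),(k1,k65)],[(k10,k60),(k11,k60),(k8,k80),(k1,k81)]]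
    [[k0,k3,k0,k0,k0,k0],[k0,k4,k0,k0,k0,k0],[k0,k3,k0,k1,k0,k0],[k0,k2,k1,k0,k0,k0],[k0,k2,k0,k1,k0,k0],[k0,k2,k1,k1,
    k0,k0],[k0,k2,k0,k2,k0,k0],[k0,k1,k1,k1,k0,k0],[k0,k0,k3,k0,k0,k0],[k0,k0,k2,k0,k2,k0],[k0,k0,k1,k0,k2,k0],[k0,k0,
    k0,k0,k0,k3]]
    [.ref k1 k0 [(z2,[y1,z3,z0,z0,z6]),(z1,[z1]),(z2,[y1,z3,z6]),(z1,[y1,z3,z0,z3])],.ref k90 k0 [(z2,[y1,z4,z0,z0,
    z8]),(z2,[z1]),(z2,[y1,z4,z8]),(z2,[y1,z4,z0,z4])],.ref k91 k0 [(z1,[y2,z6,z0,z1,z10]),(z1,[z2,y1,z0,y1]),(z1,[y2,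
    z6,z10,z1]),(z1,[y1,z3,z0,z3])],.ref k1 k0 [(z1,[y1,z2,z1,z0,z3]),(z1,[z2,y1,y2]),(z1,[y1,z2,z4]),(z1,[y2,z4,z2,
    z3])],.contra [z2,y1,z0,y1],.ref k90 k0 [(z1,[y2,z4,z2,z1,z4]),(z1,[z2,y2,y2,y1]),(z1,[y2,z4,z6,z1]),(z1,[y2,z4,
    z2,z3])],.contra [z1,y1,z0,y1],.contra [z1,y2,y2,y1,y1,z1],.ref k1 k0 [(z1,[z1,z0,y3,z0,z3]),(z1,[y2,z3,z6]),(z1,
    [z1]),(z1,[z2,z0,y6,z3])],.contra [y1,y4,y2,y2,y4,z4],.contra [z1,z1,y1,z0,z1],.contra [z1,z2,z2,z1,z2,y2]],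
    .base (.leafM k9 [k3,k5,k1,k2] [(z1,[y2,y1,y2,y2,z2]),(z1,[z0,z1]),(z1,[z1,z0,z1])] [(k4,k0,z1,[z0,z0,z0,z1]),(k0,
    k4,z1,[z0,z0,z0,z1])]),
    .lp k0 [k40,k40,k40,k49,k40,k30] [k18,k18,k24,k12,k16,k20,k0,k27,k22,k14,k20,k26] k0 [[k0,k0,k4,k0,k4,k0,k0,k0,k0,
    k0,k0,k0],[k0,k0,k0,k0,k4,k0,k0,k40,k0,k0,k0,k0],[k0,k0,k0,k4,k0,k0,k0,k0,k0,k0,k0,k0],[k0,k4,k0,k0,k0,k0,k18,k0,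
    k0,k0,k0,k0],[k0,k0,k0,k0,k0,k4,k22,k0,k0,k0,k0,k0],[k4,k4,k0,k0,k0,k0,k0,k0,k0,k0,k0,k0],[k40,k0,k0,k0,k0,k0,k0,
    k0,k0,k0,k0,k0],[k0,k0,k18,k0,k0,k22,k0,k0,k0,k0,k0,k0],[k0,k0,k0,k0,k0,k0,k0,k0,k0,k0,k0,k10],[k0,k0,k0,k0,k0,k0,
    k0,k0,k0,k0,k0,k0],[k0,k0,k0,k0,k0,k0,k0,k0,k0,k10,k0,k0],[k0,k0,k0,k0,k0,k0,k0,k0,k0,k0,k0,k0]] k120 k6
    [[(k8,k36),(k10,k38),(k1,k40),(k11,k42)],[(k7,k27),(k2,k34),(k5,k34),(k0,k40),(k3,k46),(k4,k46),(k6,k58),(k9,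
    k84)],[(k6,k24),(k7,k33),(k2,k44),(k5,k44),(k0,k46),(k9,k50),(k3,k52),(k4,k52)],[(k2,k24),(k7,k25),(k5,k32),(k0,
    k34),(k4,k36),(k9,k38),(k3,k44),(k6,k70)],[(k9,k24),(k7,k29),(k2,k32),(k0,k34),(k4,k40),(k5,k40),(k3,k44),(k6,
    k56)],[(k9,k24),(k7,k33),(k2,k36),(k4,k40),(k5,k40),(k0,k46),(k3,k52),(k6,k60)],[(k2,k25),(k7,k26),(k0,k27),(k5,
    k29),(k3,k33),(k4,k33),(k9,k35),(k6,k71)],[(k3,k24),(k5,k56),(k0,k58),(k4,k60),(k9,k62),(k2,k70),(k7,k71),(k6,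
    k76)],[(k4,k24),(k5,k24),(k7,k35),(k2,k38),(k9,k48),(k3,k50),(k6,k62),(k0,k84)],[(k10,k24),(k11,k28),(k8,k32),(k1,
    k36)],[(k11,k24),(k8,k28),(k10,k30),(k1,k42)],[(k8,k24),(k11,k30),(k10,k36),(k1,k38)]]
    [[k1,k0,k1,k0,k1,k0],[k0,k2,k0,k1,k0,k0],[k0,k1,k2,k0,k0,k0],[k0,k2,k0,k2,k0,k0],[k0,k1,k1,k1,k0,k0],[k0,k0,k1,k0,
    k2,k0],[k0,k0,k1,k0,k2,k1],[k0,k0,k0,k0,k2,k1],[k0,k0,k0,k0,k0,k3]]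
    [.contra [z1,z0,z0,y1],.ref k89 k1 [(z1,[z1,y2,z0,y4]),(z1,[y2,z4,z1,z4]),(z1,[z0,z1,z0,z2])],.ref k92 k0 [(z1,
    [z0,z1]),(z2,[z1,y1]),(z1,[y1,z1,z1])],.ref k93 k0 [(z1,[z0,z1]),(z1,[y1,z2,z1]),(z2,[z1,y2])],.contra [z1,y2,y1,
    y1,z1],.contra [z1,z1],.contra [z4,z9,z2,z6,y4],.contra [z4,z9,z2,z6,y4],.contra [z1,z2,z1,z2,y2]],
    .base (.geo z2 k4 [(z4,y2),(y6,z8),(z4,y4),(z5,y4),(z0,z2),(z1,z0)] [(z1,[z0,z0,z0,z2]),(z1,[z2]),(z1,[z0,z2]),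
    (z1,[z0,z0,z1]),(z1,[]),(z1,[y2,y2,y1,y2,z2])] k8)]

theorem hB6_105_7 : blkB [0, 0, 0, 0, 1, 1] [(0, 4)] sp6 hS6_105 (pcls (n := 6) [0, 0, 0, 0, 1, 1]) hD6_105 111 7 hN6_105_7 = true := by
  decide +kernel

/-- nodes 96 to 107 -/
noncomputable def hN6_105_8 : List HM :=
  [.base (.geo z2 k4 [(z4,y2),(z3,y2),(z2,y2),(y2,z4),(z0,z2),(z1,z0)] [(z1,[z0,z0,z0,z2]),(z1,[z1]),(z1,[z0,z2]),(z1,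
    [z0,z0,z2]),(z1,[]),(z1,[y1,y2,y2,y2,z2])] k7),
    .base (.geo z2 k4 [(z4,y2),(z4,y4),(z3,y4),(y4,z8),(z0,z2),(z1,z0)] [(z1,[z0,z0,z0,z2]),(z1,[z2]),(z1,[z0,z1]),
    (z1,[z0,z0,z2]),(z1,[]),(z1,[y2,y1,y2,y2,z2])] k8),
    .base (.geo z2 k4 [(z4,y2),(y4,z4),(z3,y2),(z4,y2),(z0,z2),(z1,z0)] [(z1,[z0,z0,z0,z2]),(z1,[z2]),(z1,[z0,z1]),
    (z1,[z0,z0,z2]),(z1,[]),(z1,[y2,y1,y2,y2,z2])] k7),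
    .base (.geo z4 k3 [(z3,z0),(z8,y8),(y2,z4),(z0,z4),(z5,z0),(z2,z0)] [(z1,[z1]),(z1,[z0,z4]),(z1,[z0,z0,z2]),(z1,
    []),(z1,[y1,z0,z0,z4]),(z1,[z0,y4,y2,y4,z4])] k6),
    .lp k0 [k142,(nat_lit 220),k130,(nat_lit 220),k126,k120] [k101,k101,k124,k0,k107,k107,k36,k88,k109,k109,k112,
    k112] k0 [[k0,k0,k32,k0,k0,k32,k0,k8,k0,k0,k0,k0],[k66,k0,k0,k0,k0,k0,k0,(nat_lit 212),k0,k0,k0,k0],[k0,k0,k0,k0,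
    k0,k0,k0,k0,k0,k0,k0,k0],[k0,k32,k0,k0,k0,k0,k32,k0,k0,k0,k0,k0],[k0,k32,k0,k0,k0,k0,k32,k0,k0,k0,k0,k0],[k0,k0,
    k0,k0,k0,k0,k0,k0,k0,k0,k0,k0],[(nat_lit 212),k8,k0,k0,k0,k0,k0,k8,k0,k0,k0,k0],[k0,k0,k32,k0,k0,k32,k0,k0,k0,k0,
    k0,k0],[k0,k0,k0,k0,k0,k0,k0,k0,k0,k0,k0,k10],[k0,k0,k0,k0,k0,k0,k0,k0,k0,k0,k0,k0],[k0,k0,k0,k0,k0,k0,k0,k0,k0,
    k10,k0,k0],[k0,k0,k0,k0,k0,k0,k0,k0,k0,k0,k0,k0]] (nat_lit 480) k6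
    [[(k10,k131),(k8,k134),(k11,k141),(k1,k142)],[(k4,k104),(k5,k104),(k2,k119),(k7,k155),(k6,k199),(k0,
    (nat_lit 208)),(k3,(nat_lit 243)),(k9,(nat_lit 346))],[(k6,k96),(k4,(nat_lit 237)),(k5,(nat_lit 237)),(k0,
    (nat_lit 243)),(k9,(nat_lit 243)),(k2,(nat_lit 252)),(k3,(nat_lit 278)),(k7,(nat_lit 288))],[(k2,k96),(k9,k111),
    (k4,k113),(k5,k113),(k0,k119),(k7,k132),(k6,(nat_lit 216)),(k3,(nat_lit 252))],[(k9,k96),(k0,k104),(k2,k113),(k4,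
    k130),(k5,k130),(k7,k149),(k6,(nat_lit 201)),(k3,(nat_lit 237))],[(k9,k96),(k0,k104),(k2,k113),(k4,k130),(k5,
    k130),(k7,k149),(k6,(nat_lit 201)),(k3,(nat_lit 237))],[(k2,k132),(k9,k147),(k4,k149),(k5,k149),(k0,k155),(k7,
    k168),(k6,(nat_lit 252)),(k3,(nat_lit 288))],[(k3,k96),(k0,k199),(k9,k199),(k4,(nat_lit 201)),(k5,(nat_lit 201)),
    (k2,(nat_lit 216)),(k7,(nat_lit 252)),(k6,(nat_lit 264))],[(k4,k96),(k5,k96),(k2,k111),(k9,k134),(k7,k147),(k6,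
    k199),(k3,(nat_lit 243)),(k0,(nat_lit 346))],[(k10,k113),(k11,k123),(k8,k126),(k1,k134)],[(k10,k120),(k11,k120),
    (k8,k123),(k1,k141)],[(k8,k113),(k10,k120),(k11,k120),(k1,k131)]]
    [[k2,k0,k1,k0,k0,k0],[k1,k0,k1,k0,k1,k0],[k1,k0,k2,k0,k1,k0],[k1,k0,k1,k0,k1,k1],[k0,k2,k0,k2,k0,k0],[k0,k1,k1,k1,
    k0,k0],[k0,k0,k3,k0,k0,k0],[k0,k0,k2,k0,k2,k0],[k0,k0,k1,k0,k2,k0],[k0,k0,k1,k0,k2,k1],[k0,k0,k0,k1,k2,k0],[k0,k0,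
    k0,k0,k2,k1],[k0,k0,k0,k0,k0,k3]]
    [.ref k95 k1 [(z1,[y2,z0,z1]),(z1,[z1]),(z1,[z2,z1,y1])],.contra [y2,z0,z1,z2],.contra [y1,z0,z1,z1],.contra [z1,
    z1,z0,z0,y1],.contra [y1,z2],.contra [z1,y1,y1,y1,z1],.contra [y1,z0,z2],.ref k96 k0 [(z1,[z1,z1,y1]),(z2,[z1]),
    (z1,[y1,z0,z1])],.ref k16 k0 [(z1,[z2,z1,y1]),(z1,[z1]),(z1,[y2,z0,z1])],.ref k97 k0 [(z1,[z1,z1,z0,z1,y1]),(z1,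
    [z2,z1,z1,z2,y2]),(z1,[y2,y1,z0,y2,z2])],.ref k98 k1 [(z1,[z1,z0,z0,y2]),(z1,[y1,z0,z1,z2]),(z2,[y1,z1,z0,z2])],
    .ref k99 k1 [(z1,[z2,z1,z1,z2,y2]),(z1,[z0,z1]),(z1,[z0,y1,z1])],.contra [z1,z1,z1,z2,y2]],
    .base (.leafM k9 [k3,k5,k1,k2] [(z1,[y2,y1,y2,z2]),(z1,[z0,z1]),(z1,[z1])] [(k4,k0,z1,[z0,z0,z1]),(k0,k4,z1,[z0,
    z0,z1])]),
    .base (.leafM k9 [k3,k5,k1,k2] [(z1,[z0,y2,y1,y2,z2]),(z1,[z0,z0,z1]),(z1,[z0,z1])] [(k4,k0,z1,[z0,z0,z0,z1]),(k0,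
    k4,z1,[z0,z0,z0,z1])]),
    .lp k0 [k142,k160,k160,k196,k178,k120] [k73,k73,k96,k32,k64,k64,k0,k92,k70,k40,k84,k84] k0 [[k0,k0,k0,k0,k0,k0,k0,
    k0,k0,k0,k0,k0],[k0,k0,k0,k0,k36,k0,k0,k160,k0,k0,k0,k0],[k0,k0,k0,k0,k0,k0,k0,k0,k0,k0,k0,k0],[k0,k0,k0,k0,k0,k0,
    k88,k0,k0,k0,k0,k0],[k0,k0,k0,k0,k0,k0,k88,k0,k0,k0,k0,k0],[k36,k0,k0,k0,k0,k0,k0,k0,k0,k0,k0,k0],[k160,k0,k0,k0,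
    k0,k0,k0,k0,k0,k0,k0,k0],[k0,k0,k88,k0,k0,k88,k0,k0,k0,k0,k0,k0],[k0,k0,k0,k0,k0,k0,k0,k0,k0,k0,k0,k0],[k0,k0,k0,
    k0,k0,k0,k0,k0,k0,k0,k20,k0],[k0,k0,k0,k0,k0,k0,k0,k0,k0,k0,k0,k0],[k0,k0,k0,k0,k0,k0,k0,k0,k20,k0,k0,
    k0]] (nat_lit 480) k6
    [[(k11,k111),(k10,k131),(k1,k142),(k8,k145)],[(k2,k119),(k7,k123),(k0,k142),(k5,k151),(k3,k183),(k4,k187),(k6,
    (nat_lit 215)),(k9,(nat_lit 335))],[(k6,k96),(k7,k128),(k2,k160),(k0,k183),(k4,k192),(k5,k192),(k9,(nat_lit 216)),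
    (k3,(nat_lit 224))],[(k2,k96),(k7,k100),(k0,k119),(k4,k128),(k5,k128),(k9,k152),(k3,k160),(k6,(nat_lit 280))],
    [(k9,k96),(k2,k128),(k7,k132),(k0,k151),(k4,k160),(k5,k160),(k3,k192),(k6,(nat_lit 224))],[(k9,k96),(k2,k128),(k7,
    k132),(k4,k160),(k5,k160),(k0,k187),(k3,k192),(k6,(nat_lit 224))],[(k2,k100),(k7,k104),(k0,k123),(k3,k128),(k4,
    k132),(k5,k132),(k9,k156),(k6,(nat_lit 284))],[(k3,k96),(k0,(nat_lit 215)),(k4,(nat_lit 224)),(k5,(nat_lit 224)),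
    (k9,(nat_lit 248)),(k2,(nat_lit 280)),(k7,(nat_lit 284)),(k6,(nat_lit 288))],[(k4,k96),(k5,k96),(k2,k152),(k7,
    k156),(k9,(nat_lit 208)),(k3,(nat_lit 216)),(k6,(nat_lit 248)),(k0,(nat_lit 335))],[(k11,k134),(k1,k145),(k8,
    k148),(k10,k154)],[(k1,k111),(k10,k120),(k11,k120),(k8,k134)],[(k10,k120),(k11,k120),(k1,k131),(k8,k154)]]
    [[k2,k1,k0,k0,k0,k0],[k1,k0,k1,k0,k1,k0],[k2,k0,k0,k0,k0,k1],[k0,k2,k0,k1,k0,k0],[k0,k2,k0,k2,k0,k0],[k0,k1,k1,k1,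
    k0,k0],[k0,k0,k1,k0,k2,k0],[k0,k0,k0,k0,k0,k3]]
    [.contra [z5,z0,z2,y8],.contra [z1,z0,z0,y1],.contra [z5,z5,z4,y1,y5],.ref k97 k0 [(z1,[z1,y1]),(z1,[z0,z0,z1]),
    (z1,[y1,z2])],.ref k102 k1 [(z2,[z1,y2]),(z2,[z1]),(z1,[y1,z2,z1])],.contra [z1,y2,y1,y1,z1],.contra [z1,y1,y1,y1,
    z1],.contra [z1,z2,z1,z2,y2]],
    .base (.leafM k9 [k3,k5,k1,k2] [(z1,[z0,y1,y1,y1,y2,z2]),(z1,[z0,z0,z1]),(z2,[z0,z1,z0,z1])] [(k4,k0,z1,[z0,z0,z0,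
    z0,z1]),(k0,k4,z1,[z0,z0,z0,z0,z1])]),
    .base (.geo z4 k0 [(z3,z0),(z2,z0),(z1,z0),(z3,z0),(z5,z0),(z2,z0)] [(z1,[z1]),(z1,[z0,z2]),(z1,[z0,z0,z1]),(z1,
    [z0,z0,z0,z1]),(z1,[y1,z0,z0,z0,z4]),(z1,[z0,y2,y1,y1,y4,z4])] k1),
    .lp (nat_lit 65537) [(nat_lit 7550730),(nat_lit 6711760),(nat_lit 6711760),(nat_lit 6711760),(nat_lit 7550730),
    (nat_lit 5033820)] [(nat_lit 906035),(nat_lit 906035),(nat_lit 2651040),k0,(nat_lit 1325520),(nat_lit 1325520),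
    (nat_lit 100560),(nat_lit 2550480),(nat_lit 906035),(nat_lit 906035),(nat_lit 2164490),(nat_lit 2164490)] k0 [[k0,
    k0,k0,k0,k0,k0,k0,k0,k0,k0,k0,k0],[k0,k0,k0,k0,k0,k0,k0,(nat_lit 5201614),k0,k0,k0,k0],[k0,k0,k0,k0,k0,k0,k0,k0,
    k0,k0,k0,k0],[k0,k0,k0,k0,k0,k0,k0,k0,k0,k0,k0,k0],[k0,k0,k0,k0,k0,k0,k0,k0,k0,k0,k0,k0],[k0,k0,k0,k0,k0,k0,k0,k0,
    k0,k0,k0,k0],[(nat_lit 5201614),k0,k0,k0,k0,k0,k0,k0,k0,k0,k0,k0],[k0,k0,k0,k0,k0,k0,k0,k0,k0,k0,k0,k0],[k0,k0,k0,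
    k0,k0,k0,k0,k0,k0,k0,k0,k0],[k0,k0,k0,k0,k0,k0,k0,k0,k0,k0,k0,k0],[k0,k0,k0,k0,k0,k0,k0,k0,k0,k0,k0,k0],[k0,k0,k0,
    k0,k0,k0,k0,k0,k0,k0,k0,k0]] (nat_lit 20135280) k6
    [[(k10,(nat_lit 6292275)),(k11,(nat_lit 6292275)),(k1,(nat_lit 7550730)),(k8,(nat_lit 7550730))],[(k2,
    (nat_lit 5805725)),(k7,(nat_lit 5906285)),(k4,(nat_lit 7131245)),(k5,(nat_lit 7131245)),(k0,(nat_lit 7550730)),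
    (k6,(nat_lit 8356205)),(k3,(nat_lit 8456765)),(k9,(nat_lit 12752344))],[(k6,(nat_lit 4060626)),(k2,
    (nat_lit 6711760)),(k7,(nat_lit 6812320)),(k4,(nat_lit 8037280)),(k5,(nat_lit 8037280)),(k0,(nat_lit 8456765)),
    (k9,(nat_lit 8456765)),(k3,(nat_lit 9362800))],[(k2,(nat_lit 4060720)),(k7,(nat_lit 4161280)),(k4,
    (nat_lit 5386240)),(k5,(nat_lit 5386240)),(k0,(nat_lit 5805725)),(k9,(nat_lit 5805725)),(k6,(nat_lit 6611200)),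
    (k3,(nat_lit 6711760))],[(k2,(nat_lit 5386240)),(k7,(nat_lit 5486800)),(k4,(nat_lit 6711760)),(k5,
    (nat_lit 6711760)),(k0,(nat_lit 7131245)),(k9,(nat_lit 7131245)),(k6,(nat_lit 7936720)),(k3,(nat_lit 8037280))],
    [(k2,(nat_lit 5386240)),(k7,(nat_lit 5486800)),(k4,(nat_lit 6711760)),(k5,(nat_lit 6711760)),(k0,
    (nat_lit 7131245)),(k9,(nat_lit 7131245)),(k6,(nat_lit 7936720)),(k3,(nat_lit 8037280))],[(k2,(nat_lit 4161280)),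
    (k7,(nat_lit 4261840)),(k4,(nat_lit 5486800)),(k5,(nat_lit 5486800)),(k0,(nat_lit 5906285)),(k9,
    (nat_lit 5906285)),(k6,(nat_lit 6711760)),(k3,(nat_lit 6812320))],[(k3,(nat_lit 4060626)),(k2,(nat_lit 6611200)),
    (k7,(nat_lit 6711760)),(k4,(nat_lit 7936720)),(k5,(nat_lit 7936720)),(k0,(nat_lit 8356205)),(k9,
    (nat_lit 8356205)),(k6,(nat_lit 9161680))],[(k2,(nat_lit 5805725)),(k7,(nat_lit 5906285)),(k4,(nat_lit 7131245)),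
    (k5,(nat_lit 7131245)),(k9,(nat_lit 7550730)),(k6,(nat_lit 8356205)),(k3,(nat_lit 8456765)),(k0,
    (nat_lit 12752344))],[(k10,(nat_lit 6292275)),(k11,(nat_lit 6292275)),(k1,(nat_lit 7550730)),(k8,
    (nat_lit 7550730))],[(k10,(nat_lit 5033820)),(k11,(nat_lit 5033820)),(k1,(nat_lit 6292275)),(k8,
    (nat_lit 6292275))],[(k10,(nat_lit 5033820)),(k11,(nat_lit 5033820)),(k1,(nat_lit 6292275)),(k8,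
    (nat_lit 6292275))]]
    [[k0,k2,k0,k1,k0,k0],[k0,k2,k0,k2,k0,k0],[k0,k1,k1,k1,k0,k0],[k0,k1,k0,k2,k0,k0],[k0,k0,k0,k0,k0,k3]]
    [.contra [z1,z0,y1],.ref k104 k0 [(z1,[z0,z1]),(z1,[z0,z0,z1]),(z1,[y1,z0,z1,z2]),(z1,[z1,z0,y1])],.contra [z2,z1,
    y1,y2],.ref k105 k0 [(z1,[z0,z1]),(z1,[z0,z0,z1]),(z1,[y2,z0,z1,z4]),(z1,[z2,z0,y1])],.contra [z2,z1,z3,z6,z6,
    y6]],
    .base (.geo z4 k3 [(z3,z0),(z4,y2),(z2,y2),(z0,z4),(z5,z0),(z2,z0)] [(z1,[z1]),(z1,[z0,z2]),(z1,[z0,z0,z2]),(z1,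
    []),(z1,[y1,z0,z0,z4]),(z1,[z0,y2,y2,y4,z4])] k5)]

theorem hB6_105_8 : blkB [0, 0, 0, 0, 1, 1] [(0, 4)] sp6 hS6_105 (pcls (n := 6) [0, 0, 0, 0, 1, 1]) hD6_105 111 8 hN6_105_8 = true := by
  decide +kernel

/-- nodes 108 to 110 -/
noncomputable def hN6_105_9 : List HM :=
  [.lp k0 [k40,k38,k40,k47,k44,k30] [k14,k14,k22,k8,k14,k14,k0,k21,k18,k6,k16,k22] k0 [[k0,k0,k6,k2,k2,k0,k0,k0,k0,k0,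
    k0,k0],[k0,k0,k0,k0,k6,k0,k0,k36,k0,k0,k0,k0],[k0,k2,k0,k0,k0,k0,k0,k0,k0,k0,k0,k0],[k0,k6,k0,k0,k4,k0,k24,k0,k0,
    k0,k0,k0],[k0,k0,k0,k0,k0,k0,k24,k0,k0,k0,k0,k0],[k6,k2,k4,k0,k0,k0,k0,k0,k0,k0,k0,k0],[k36,k0,k0,k0,k0,k0,k0,k0,
    k0,k0,k0,k0],[k0,k0,k24,k0,k0,k24,k0,k0,k0,k0,k0,k0],[k0,k0,k0,k0,k0,k0,k0,k0,k0,k0,k0,k10],[k0,k0,k0,k0,k0,k0,k0,
    k0,k0,k0,k0,k0],[k0,k0,k0,k0,k0,k0,k0,k0,k0,k10,k0,k0],[k0,k0,k0,k0,k0,k0,k0,k0,k0,k0,k0,k0]] k120 k6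
    [[(k8,k36),(k10,k38),(k1,k40),(k11,k42)],[(k2,k30),(k7,k31),(k5,k34),(k0,k40),(k3,k46),(k4,k46),(k6,k54),(k9,
    k84)],[(k6,k24),(k7,k33),(k2,k44),(k0,k46),(k4,k48),(k5,k48),(k3,k52),(k9,k54)],[(k2,k24),(k7,k25),(k0,k30),(k5,
    k32),(k4,k36),(k9,k40),(k3,k44),(k6,k70)],[(k9,k24),(k7,k29),(k2,k32),(k0,k34),(k4,k40),(k5,k40),(k3,k48),(k6,
    k54)],[(k9,k24),(k7,k33),(k2,k36),(k4,k40),(k5,k40),(k0,k46),(k3,k48),(k6,k54)],[(k2,k25),(k7,k26),(k5,k29),(k0,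
    k31),(k3,k33),(k4,k33),(k9,k41),(k6,k71)],[(k3,k24),(k0,k54),(k4,k54),(k5,k54),(k9,k62),(k6,k68),(k2,k70),(k7,
    k71)],[(k4,k24),(k5,k24),(k2,k40),(k7,k41),(k3,k54),(k9,k56),(k6,k62),(k0,k84)],[(k10,k24),(k11,k28),(k8,k32),(k1,
    k36)],[(k11,k24),(k8,k28),(k10,k30),(k1,k42)],[(k8,k24),(k11,k30),(k10,k36),(k1,k38)]]
    [[k2,k1,k0,k0,k0,k0],[k1,k0,k1,k0,k1,k0],[k0,k2,k0,k1,k0,k0],[k0,k2,k0,k2,k0,k0],[k0,k1,k1,k1,k0,k0],[k0,k0,k1,k0,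
    k2,k0],[k0,k0,k1,k0,k2,k1],[k0,k0,k0,k0,k2,k1],[k0,k0,k0,k0,k0,k3]]
    [.ref k106 k0 [(z1,[z0,z1]),(z1,[z2,y1]),(z2,[y2,z1,z1])],.contra [z1,z0,z0,y1],.ref k107 k0 [(z1,[z0,z1]),(z1,
    [z1]),(z1,[y1,z0,z1])],.ref k19 k0 [(z1,[z0,z1]),(z2,[z1]),(z1,[y1,z0,z1])],.contra [z2,z1,y1],.contra [z3,z2,z0,
    y6],.contra [z6,z5,z3,y6,y6],.contra [y2,z1,y1,z2,z2],.contra [z2,z1,z3,z6,y6]],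
    .lp k0 [k40,k38,k40,k47,k44,k30] [k14,k14,k22,k8,k14,k14,k0,k21,k18,k6,k16,k22] k0 [[k0,k0,k6,k2,k2,k0,k0,k0,k0,
    k0,k0,k0],[k0,k0,k0,k0,k6,k0,k0,k36,k0,k0,k0,k0],[k0,k2,k0,k0,k0,k0,k0,k0,k0,k0,k0,k0],[k0,k6,k0,k0,k4,k0,k24,k0,
    k0,k0,k0,k0],[k0,k0,k0,k0,k0,k0,k24,k0,k0,k0,k0,k0],[k6,k2,k4,k0,k0,k0,k0,k0,k0,k0,k0,k0],[k36,k0,k0,k0,k0,k0,k0,
    k0,k0,k0,k0,k0],[k0,k0,k24,k0,k0,k24,k0,k0,k0,k0,k0,k0],[k0,k0,k0,k0,k0,k0,k0,k0,k0,k0,k0,k10],[k0,k0,k0,k0,k0,k0,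
    k0,k0,k0,k0,k0,k0],[k0,k0,k0,k0,k0,k0,k0,k0,k0,k10,k0,k0],[k0,k0,k0,k0,k0,k0,k0,k0,k0,k0,k0,k0]] k120 k6
    [[(k8,k36),(k10,k38),(k1,k40),(k11,k42)],[(k2,k30),(k7,k31),(k5,k34),(k0,k40),(k3,k46),(k4,k46),(k6,k54),(k9,
    k84)],[(k6,k24),(k7,k33),(k2,k44),(k0,k46),(k4,k48),(k5,k48),(k3,k52),(k9,k54)],[(k2,k24),(k7,k25),(k0,k30),(k5,
    k32),(k4,k36),(k9,k40),(k3,k44),(k6,k70)],[(k9,k24),(k7,k29),(k2,k32),(k0,k34),(k4,k40),(k5,k40),(k3,k48),(k6,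
    k54)],[(k9,k24),(k7,k33),(k2,k36),(k4,k40),(k5,k40),(k0,k46),(k3,k48),(k6,k54)],[(k2,k25),(k7,k26),(k5,k29),(k0,
    k31),(k3,k33),(k4,k33),(k9,k41),(k6,k71)],[(k3,k24),(k0,k54),(k4,k54),(k5,k54),(k9,k62),(k6,k68),(k2,k70),(k7,
    k71)],[(k4,k24),(k5,k24),(k2,k40),(k7,k41),(k3,k54),(k9,k56),(k6,k62),(k0,k84)],[(k10,k24),(k11,k28),(k8,k32),(k1,
    k36)],[(k11,k24),(k8,k28),(k10,k30),(k1,k42)],[(k8,k24),(k11,k30),(k10,k36),(k1,k38)]]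
    [[k2,k1,k0,k0,k0,k0],[k1,k0,k1,k0,k1,k0],[k0,k2,k0,k1,k0,k0],[k0,k2,k0,k2,k0,k0],[k0,k1,k1,k1,k0,k0],[k0,k0,k1,k0,
    k2,k0],[k0,k0,k1,k0,k2,k1],[k0,k0,k0,k0,k2,k1],[k0,k0,k0,k0,k0,k3]]
    [.ref k94 k0 [(z1,[z1,z0,y2]),(z1,[y2,z1,z4])],.contra [z1,z0,y1],.ref k100 k0 [(z1,[z1]),(z1,[y1,z1])],
    .ref k101 k0 [(z2,[z1]),(z1,[y1,z1])],.contra [z1,y1,y1,z1],.ref k23 k0 [(z1,[y2,z1]),(z1,[z1])],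
    .ref k103 k0 [(z1,[y1,z0,y1,z1]),(z1,[z2,z1,z2,y2])],.ref k108 k1 [(z1,[z2,z1,z2,y2]),(z1,[z0,z1])],.contra [z1,
    z1,z2,y2]],
    .lp (nat_lit 65537) [(nat_lit 346),(nat_lit 576),(nat_lit 312),(nat_lit 576),(nat_lit 346),
    (nat_lit 244)] [(nat_lit 281),(nat_lit 281),(nat_lit 332),k0,(nat_lit 298),(nat_lit 298),k136,k196,(nat_lit 281),
    (nat_lit 281),(nat_lit 332),(nat_lit 332)] k0 [[k0,k0,k0,k0,k0,k0,k0,k0,k0,k0,k0,k0],[(nat_lit 264),k0,k0,k0,k0,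
    k0,k0,(nat_lit 528),k0,k0,k0,k0],[k0,k0,k0,k0,k0,k0,k0,k0,k0,k0,k0,k0],[k0,k0,k0,k0,k0,k0,k0,k0,k0,k0,k0,k0],[k0,
    k0,k0,k0,k0,k0,k0,k0,k0,k0,k0,k0],[k0,k0,k0,k0,k0,k0,k0,k0,k0,k0,k0,k0],[(nat_lit 528),k0,k0,k0,k0,k0,k0,
    (nat_lit 264),k0,k0,k0,k0],[k0,k0,k0,k0,k0,k0,k0,k0,k0,k0,k0,k0],[k0,k0,k0,k0,k0,k0,k0,k0,k0,k0,k0,k0],[k0,k0,k0,
    k0,k0,k0,k0,k0,k0,k0,k0,k0],[k0,k0,k0,k0,k0,k0,k0,k0,k0,k0,k0,k0],[k0,k0,k0,k0,k0,k0,k0,k0,k0,k0,k0,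
    k0]] (nat_lit 1200) k6
    [[(k10,(nat_lit 295)),(k11,(nat_lit 295)),(k1,(nat_lit 346)),(k8,(nat_lit 346))],[(k2,(nat_lit 295)),(k4,
    (nat_lit 329)),(k5,(nat_lit 329)),(k7,(nat_lit 431)),(k6,(nat_lit 491)),(k0,(nat_lit 610)),(k3,(nat_lit 627)),(k9,
    (nat_lit 874))],[(k6,(nat_lit 244)),(k2,(nat_lit 576)),(k4,(nat_lit 610)),(k5,(nat_lit 610)),(k0,(nat_lit 627)),
    (k9,(nat_lit 627)),(k3,(nat_lit 644)),(k7,(nat_lit 712))],[(k2,(nat_lit 244)),(k4,(nat_lit 278)),(k5,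
    (nat_lit 278)),(k0,(nat_lit 295)),(k9,(nat_lit 295)),(k7,(nat_lit 380)),(k6,(nat_lit 440)),(k3,(nat_lit 576))],
    [(k2,(nat_lit 278)),(k4,(nat_lit 312)),(k5,(nat_lit 312)),(k0,(nat_lit 329)),(k9,(nat_lit 329)),(k7,
    (nat_lit 414)),(k6,(nat_lit 474)),(k3,(nat_lit 610))],[(k2,(nat_lit 278)),(k4,(nat_lit 312)),(k5,(nat_lit 312)),
    (k0,(nat_lit 329)),(k9,(nat_lit 329)),(k7,(nat_lit 414)),(k6,(nat_lit 474)),(k3,(nat_lit 610))],[(k2,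
    (nat_lit 380)),(k4,(nat_lit 414)),(k5,(nat_lit 414)),(k0,(nat_lit 431)),(k9,(nat_lit 431)),(k7,(nat_lit 516)),(k6,
    (nat_lit 576)),(k3,(nat_lit 712))],[(k3,(nat_lit 244)),(k6,(nat_lit 372)),(k2,(nat_lit 440)),(k4,(nat_lit 474)),
    (k5,(nat_lit 474)),(k0,(nat_lit 491)),(k9,(nat_lit 491)),(k7,(nat_lit 576))],[(k2,(nat_lit 295)),(k4,
    (nat_lit 329)),(k5,(nat_lit 329)),(k7,(nat_lit 431)),(k6,(nat_lit 491)),(k9,(nat_lit 610)),(k3,(nat_lit 627)),(k0,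
    (nat_lit 874))],[(k10,(nat_lit 295)),(k11,(nat_lit 295)),(k1,(nat_lit 346)),(k8,(nat_lit 346))],[(k10,
    (nat_lit 244)),(k11,(nat_lit 244)),(k1,(nat_lit 295)),(k8,(nat_lit 295))],[(k10,(nat_lit 244)),(k11,
    (nat_lit 244)),(k1,(nat_lit 295)),(k8,(nat_lit 295))]]
    [[k2,k0,k1,k0,k0,k0],[k1,k0,k1,k0,k1,k0],[k0,k1,k1,k1,k0,k0],[k0,k0,k3,k0,k0,k0],[k0,k0,k1,k0,k2,k0],[k0,k0,k0,k0,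
    k0,k3],[k0,k0,k0,k0,k0,k4]]
    [.ref k24 k1 [(z1,[y1,y1,z1])],.contra [z1,y1],.contra [y1,y1,z1],.ref k40 k0 [(z1,[y1,y3,z3])],.ref k24 k0 [(z1,
    [y1,y1,z1])],.ref k88 k0 [(z1,[y1,y3,z3])],.ref k109 k0 [(z2,[y1,y4,z4])]]]

theorem hB6_105_9 : blkB [0, 0, 0, 0, 1, 1] [(0, 4)] sp6 hS6_105 (pcls (n := 6) [0, 0, 0, 0, 1, 1]) hD6_105 111 9 hN6_105_9 = true := by
  decide +kernel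

end Pool.Agent.Lib_MP_fa6e45
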