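import Pool.Agent.Lib_MP_fa6e45.HK

/-!
MP_fa6e45_co, stage 4: certificates (captain, generated by a program).
-/

namespace Pool.Agent.Lib_MP_fa6e45

/-- nodes 0 to 11 -/
noncomputable def hN6_124_0 : List HM :=
  [.base (.spec k3 false k0 [(z1,[z0,z1]),(z1,[z1,z1,z2,z1,y1])]),
    .base (.spec k3 false k0 [(z3,[z1,z2,z1,z1,z1,y3]),(z3,[z0,z0,z1,z0,y1])]),
    .lp k0 [(nat_lit 4134),(nat_lit 4240),(nat_lit 4240),(nat_lit 4560),(nat_lit 4664),(nat_lit 3392)] [(nat_lit 265),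
    (nat_lit 265),(nat_lit 212),(nat_lit 212),(nat_lit 212),(nat_lit 212),k52,k52,k0,k0,(nat_lit 636),
    (nat_lit 636)] k0 [[k0,k0,k0,k0,k0,k0,k0,k0,k0,k0,k0,k0],[k0,k0,k0,k0,k0,k0,k0,k0,k0,k0,k0,k0],[k0,k0,k0,k0,k0,k0,
    k0,k0,k0,k0,k0,k0],[k0,k0,k0,k0,k0,k0,k0,k0,k0,k0,k0,k0],[k0,k0,k0,k0,k0,k0,k0,k0,k0,k0,k0,k0],[k0,k0,k0,k0,k0,k0,
    k0,k0,k0,k0,k0,k0],[k0,k0,k0,k0,k0,k0,k0,k0,k0,k0,k0,k0],[k0,k0,k0,k0,k0,k0,k0,k0,k0,k0,(nat_lit 212),k0],[k0,k0,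
    k0,k0,k0,k0,k0,k0,k0,k0,k0,k0],[k0,k0,k0,k0,k0,k0,k0,k0,k0,k0,k0,k0],[k0,k0,k0,k0,k0,k0,k0,k0,k0,k0,k0,
    (nat_lit 212)],[k0,k0,k0,k0,k0,k0,(nat_lit 212),k0,k0,k0,k0,k0]] (nat_lit 12720) k5
    [[(k10,(nat_lit 3763)),(k11,(nat_lit 3763)),(k9,(nat_lit 4187)),(k1,(nat_lit 4346)),(k6,(nat_lit 4347)),(k8,
    (nat_lit 4399))],[(k0,(nat_lit 4134)),(k2,(nat_lit 4187)),(k3,(nat_lit 4187)),(k4,(nat_lit 4187)),(k5,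
    (nat_lit 4187)),(k7,(nat_lit 4347))],[(k0,(nat_lit 4187)),(k2,(nat_lit 4240)),(k3,(nat_lit 4240)),(k4,
    (nat_lit 4240)),(k5,(nat_lit 4240)),(k7,(nat_lit 4400))],[(k0,(nat_lit 4187)),(k2,(nat_lit 4240)),(k3,
    (nat_lit 4240)),(k4,(nat_lit 4240)),(k5,(nat_lit 4240)),(k7,(nat_lit 4400))],[(k0,(nat_lit 4187)),(k2,
    (nat_lit 4240)),(k3,(nat_lit 4240)),(k4,(nat_lit 4240)),(k5,(nat_lit 4240)),(k7,(nat_lit 4400))],[(k0,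
    (nat_lit 4187)),(k2,(nat_lit 4240)),(k3,(nat_lit 4240)),(k4,(nat_lit 4240)),(k5,(nat_lit 4240)),(k7,
    (nat_lit 4400))],[(k0,(nat_lit 4347)),(k2,(nat_lit 4400)),(k3,(nat_lit 4400)),(k4,(nat_lit 4400)),(k5,
    (nat_lit 4400)),(k7,(nat_lit 4560))],[(k11,(nat_lit 3976)),(k10,(nat_lit 4188)),(k1,(nat_lit 4347)),(k6,
    (nat_lit 4560)),(k8,(nat_lit 4612)),(k9,(nat_lit 4612))],[(k10,(nat_lit 4028)),(k11,(nat_lit 4028)),(k1,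
    (nat_lit 4187)),(k6,(nat_lit 4612)),(k8,(nat_lit 4664)),(k9,(nat_lit 4664))],[(k10,(nat_lit 4028)),(k11,
    (nat_lit 4028)),(k1,(nat_lit 4399)),(k6,(nat_lit 4612)),(k8,(nat_lit 4664)),(k9,(nat_lit 4664))],[(k10,
    (nat_lit 3392)),(k11,(nat_lit 3392)),(k1,(nat_lit 3763)),(k6,(nat_lit 3976)),(k8,(nat_lit 4028)),(k9,
    (nat_lit 4028))],[(k10,(nat_lit 3180)),(k11,(nat_lit 3392)),(k1,(nat_lit 3763)),(k8,(nat_lit 4028)),(k9,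
    (nat_lit 4028)),(k6,(nat_lit 4188))]]
    [[k2,k0,k0,k0,k0,k1],[k1,k0,k0,k1,k0,k1],[k0,k0,k0,k0,k1,k2],[k0,k0,k0,k0,k0,k3]]
    [.ref k1 k0 [(z2,[z1,z1]),(z2,[y2,z1,z3]),(z2,[y2,z1,z0,z3]),(z4,[z2,y1,z0,z0,z3]),(z4,[y4,y1,y6,y6,y3,z12])],
    .ref k1 k0 [(z8,[z4,z5,z0,z0,y1]),(z4,[y4,z1,z6,z0,z1]),(z4,[y4,z1,z0,z6,z1]),(z8,[z4,y1,z0,z0,z5]),(z2,[y2,y1,y3,
    y3,y1,z6])],.ref k1 k0 [(z8,[z4,z7,z2,z2,z1,y4]),(z4,[y4,y1,z4,y2,y1,z4]),(z4,[y4,y1,y2,z4,y1,z4]),(z8,[z4,z1,z2,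
    z2,z7,y4]),(z1,[y1,y1,y2,y2,y1,z4])],.ref k1 k0 [(z4,[z1,z3]),(z2,[y1,z0,z3]),(z2,[y1,z0,z0,z3]),(z4,[z1,z0,z0,z0,
    z3]),(z4,[y2,y3,y6,y6,y3,z12])]],
    .lp k0 [k84,k78,k78,k84,k72,k80] [k0,k0,k3,k3,k3,k3,k0,k0,k6,k6,k2,k2] k0 [[k0,k0,k6,k6,k0,k0,k0,k0,k0,k0,k0,k0],
    [k0,k0,k0,k0,k0,k0,k0,k0,k0,k0,k0,k0],[k0,k6,k0,k0,k6,k0,k0,k0,k0,k0,k0,k0],[k0,k6,k0,k0,k6,k0,k0,k0,k0,k0,k0,k0],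
    [k0,k0,k0,k0,k0,k0,k0,k0,k0,k0,k0,k0],[k0,k0,k6,k6,k0,k0,k0,k0,k0,k0,k0,k0],[k0,k0,k0,k0,k0,k0,k0,k0,k0,k0,k0,k0],
    [k0,k0,k0,k0,k0,k0,k0,k0,k0,k0,k0,k0],[k0,k0,k0,k0,k0,k0,k0,k0,k0,k0,k0,k0],[k0,k0,k0,k0,k0,k0,k0,k0,k0,k0,k0,k0],
    [k0,k0,k0,k0,k0,k0,k0,k0,k0,k0,k0,k0],[k0,k0,k0,k0,k0,k0,k0,k0,k0,k0,k0,k0]] (nat_lit 240) k5
    [[(k8,k78),(k9,k78),(k10,k82),(k11,k82),(k1,k84),(k6,k84)],[(k2,k75),(k5,k75),(k3,k81),(k4,k81),(k0,k84),(k7,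
    k84)],[(k3,k78),(k4,k78),(k0,k81),(k7,k81),(k2,k84),(k5,k84)],[(k0,k75),(k7,k75),(k2,k78),(k5,k78),(k3,k84),(k4,
    k84)],[(k0,k75),(k7,k75),(k2,k78),(k5,k78),(k3,k84),(k4,k84)],[(k3,k78),(k4,k78),(k0,k81),(k7,k81),(k2,k84),(k5,
    k84)],[(k2,k75),(k5,k75),(k3,k81),(k4,k81),(k0,k84),(k7,k84)],[(k8,k78),(k9,k78),(k10,k82),(k11,k82),(k1,k84),(k6,
    k84)],[(k8,k72),(k9,k72),(k10,k76),(k11,k76),(k1,k78),(k6,k78)],[(k8,k72),(k9,k72),(k10,k76),(k11,k76),(k1,k78),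
    (k6,k78)],[(k8,k76),(k9,k76),(k10,k80),(k11,k80),(k1,k82),(k6,k82)],[(k8,k76),(k9,k76),(k10,k80),(k11,k80),(k1,
    k82),(k6,k82)]]
    [[k0,k0,k0,k0,k3,k0],[k0,k0,k0,k0,k2,k1],[k0,k0,k0,k0,k1,k2]]
    [.ref k1 k0 [(z1,[z0,z1]),(z1,[z0,z0,z1]),(z1,[y1,z0,z0,z1]),(z1,[z0,z0,z0,z0,z1]),(z1,[z1])],.ref k1 k0 [(z1,[z0,
    z1]),(z1,[z0,z0,z1]),(z2,[y3,y1,y1,z1,y1,z3]),(z1,[z0,z0,z0,z0,z1]),(z2,[z3,z1,z1,z1,z1,y3])],.ref k1 k0 [(z1,[z0,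
    z1]),(z1,[z0,z0,z1]),(z1,[y3,y2,y2,y1,y2,z6]),(z1,[z0,z0,z0,z0,z1]),(z1,[z3,z2,z2,z2,z2,y6])]],
    .lp k0 [k90,k78,k78,k90,k80,k60] [k0,k0,k6,k6,k6,k6,k0,k0,k5,k5,k15,k15] k0 [[k0,k0,k6,k6,k0,k0,k0,k0,k0,k0,k0,
    k0],[k0,k0,k0,k0,k0,k0,k0,k0,k0,k0,k0,k0],[k0,k6,k0,k0,k6,k0,k0,k0,k0,k0,k0,k0],[k0,k6,k0,k0,k6,k0,k0,k0,k0,k0,k0,
    k0],[k0,k0,k0,k0,k0,k0,k0,k0,k0,k0,k0,k0],[k0,k0,k6,k6,k0,k0,k0,k0,k0,k0,k0,k0],[k0,k0,k0,k0,k0,k0,k0,k0,k0,k0,k0,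
    k0],[k0,k0,k0,k0,k0,k0,k0,k0,k0,k0,k0,k0],[k0,k0,k0,k0,k0,k0,k0,k0,k0,k0,k0,k0],[k0,k0,k0,k0,k0,k0,k0,k0,k0,k0,k0,
    k0],[k0,k0,k0,k0,k0,k0,k0,k0,k0,k0,k0,k0],[k0,k0,k0,k0,k0,k0,k0,k0,k0,k0,k0,k0]] (nat_lit 240) k5
    [[(k10,k75),(k11,k75),(k8,k85),(k9,k85),(k1,k90),(k6,k90)],[(k2,k78),(k5,k78),(k3,k84),(k4,k84),(k0,k90),(k7,
    k90)],[(k3,k78),(k4,k78),(k0,k84),(k2,k84),(k5,k84),(k7,k84)],[(k0,k78),(k2,k78),(k5,k78),(k7,k78),(k3,k84),(k4,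
    k84)],[(k0,k78),(k2,k78),(k5,k78),(k7,k78),(k3,k84),(k4,k84)],[(k3,k78),(k4,k78),(k0,k84),(k2,k84),(k5,k84),(k7,
    k84)],[(k2,k78),(k5,k78),(k3,k84),(k4,k84),(k0,k90),(k7,k90)],[(k10,k75),(k11,k75),(k8,k85),(k9,k85),(k1,k90),(k6,
    k90)],[(k10,k70),(k11,k70),(k8,k80),(k9,k80),(k1,k85),(k6,k85)],[(k10,k70),(k11,k70),(k8,k80),(k9,k80),(k1,k85),
    (k6,k85)],[(k10,k60),(k11,k60),(k8,k70),(k9,k70),(k1,k75),(k6,k75)],[(k10,k60),(k11,k60),(k8,k70),(k9,k70),(k1,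
    k75),(k6,k75)]]
    [[k0,k0,k0,k0,k2,k1],[k0,k0,k0,k0,k1,k2],[k0,k0,k0,k0,k0,k3]]
    [.ref k0 k1 [(z2,[z1,y1,y2,y4,z2]),(z1,[z1,z0,z0,y1]),(z1,[y1,z0,z0,z2]),(z2,[z1,z1,z0,y2])],.ref k2 k2 [(z1,[y1,
    y2,y4,y4,z4]),(z1,[y1,z0,z0,z2]),(z1,[z1,z0,z2]),(z1,[y1,z2])],.ref k3 k0 [(z2,[y1,z3]),(z1,[z1,z0,z3]),(z1,[y1,
    z0,z0,z3]),(z2,[y1,y3,y6,y6,z6])]],
    .base (.spec k3 false k0 [(z1,[z0,z1]),(z6,[z3,z6,z4,z1,y6])]),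
    .base (.spec k11 false k0 [(z1,[z1,z1]),(z2,[y1,z0,z1]),(z2,[y1,y2,y1,z2,z2]),(z1,[z0,z0,z0,y1])]),
    .lp k0 [k84,k78,k78,k84,k72,k80] [k2,k2,k5,k5,k5,k5,k2,k2,k8,k8,k8,k0] k0 [[k0,k0,k6,k6,k0,k0,k0,k0,k0,k0,k0,k0],
    [k0,k0,k0,k0,k0,k0,k0,k0,k0,k0,k0,k0],[k0,k6,k0,k0,k6,k0,k0,k0,k0,k0,k0,k0],[k0,k6,k0,k0,k6,k0,k0,k0,k0,k0,k0,k0],
    [k0,k0,k0,k0,k0,k0,k0,k0,k0,k0,k0,k0],[k0,k0,k6,k6,k0,k0,k0,k0,k0,k0,k0,k0],[k0,k0,k0,k0,k0,k0,k0,k0,k24,k0,k0,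
    k0],[k0,k0,k0,k0,k0,k0,k0,k0,k16,k0,k16,k0],[k0,k0,k0,k0,k0,k0,k0,k0,k0,k0,k0,k0],[k0,k0,k0,k0,k0,k0,k16,k24,k0,
    k0,k0,k0],[k0,k0,k0,k0,k0,k0,k0,k0,k0,k0,k0,k0],[k0,k0,k0,k0,k0,k0,k16,k0,k0,k0,k0,k0]] (nat_lit 240) k5
    [[(k9,k62),(k8,k78),(k10,k78),(k1,k84),(k6,k84),(k11,k86)],[(k2,k75),(k5,k75),(k3,k81),(k4,k81),(k0,k84),(k7,
    k84)],[(k3,k78),(k4,k78),(k0,k81),(k7,k81),(k2,k84),(k5,k84)],[(k0,k75),(k7,k75),(k2,k78),(k5,k78),(k3,k84),(k4,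
    k84)],[(k0,k75),(k7,k75),(k2,k78),(k5,k78),(k3,k84),(k4,k84)],[(k3,k78),(k4,k78),(k0,k81),(k7,k81),(k2,k84),(k5,
    k84)],[(k2,k75),(k5,k75),(k3,k81),(k4,k81),(k0,k84),(k7,k84)],[(k11,k62),(k9,k78),(k1,k84),(k6,k84),(k8,k94),(k10,
    k94)],[(k1,k62),(k11,k64),(k9,k72),(k10,k72),(k6,k78),(k8,k96)],[(k8,k72),(k10,k72),(k1,k78),(k11,k80),(k6,k94),
    (k9,k96)],[(k6,k62),(k9,k64),(k8,k80),(k10,k80),(k1,k86),(k11,k88)],[(k8,k72),(k9,k72),(k10,k72),(k1,k78),(k11,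
    k80),(k6,k94)]]
    [[k2,k0,k0,k0,k1,k0],[k1,k0,k0,k1,k0,k1],[k0,k0,k0,k0,k2,k1],[k0,k0,k0,k0,k1,k2]]
    [.ref k1 k0 [(z8,[z9,z1]),(z4,[y9,z3,z4]),(z4,[z3,y1,z0,z12]),(z8,[y3,z1,z0,z0,z12]),(z4,[z3,y1])],
    .ref k1 k0 [(z2,[z9,z1,z3,z9,z0,y9]),(z1,[y9,z0,y2,y9,z0,z9]),(z1,[z3,z0,z1,z6,z0,y3]),(z2,[y3,z0,y1,y3,z3,z3]),
    (z1,[z3,z0,z1,z3,z0,y3])],.ref k1 k0 [(z8,[z18,z7,z6,z18,z9,y18]),(z4,[y18,y3,y2,y18,y9,z18]),(z4,[z6,z1,z2,z18,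
    z3,y6]),(z8,[y6,y1,y2,y6,z9,z6]),(z4,[z6,z1,z2,z6,z3,y6])],.ref k1 k0 [(z2,[z9,z4,z6,z18,z9,y18]),(z1,[y9,y3,y5,
    y18,y9,z18]),(z1,[z3,z1,z2,z9,z3,y6]),(z2,[y3,y1,y2,y6,z0,z6]),(z1,[z3,z1,z2,z6,z3,y6])]],
    .lp k0 [(nat_lit 4134),(nat_lit 4240),(nat_lit 4240),(nat_lit 4560),(nat_lit 4664),(nat_lit 3392)] [(nat_lit 265),
    (nat_lit 265),(nat_lit 212),(nat_lit 212),(nat_lit 212),(nat_lit 212),k52,k52,k0,k0,(nat_lit 636),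
    (nat_lit 636)] k0 [[k0,k0,k0,k0,k0,k0,k0,k0,k0,k0,k0,k0],[k0,k0,k0,k0,k0,k0,k0,k0,k0,k0,k0,k0],[k0,k0,k0,k0,k0,k0,
    k0,k0,k0,k0,k0,k0],[k0,k0,k0,k0,k0,k0,k0,k0,k0,k0,k0,k0],[k0,k0,k0,k0,k0,k0,k0,k0,k0,k0,k0,k0],[k0,k0,k0,k0,k0,k0,
    k0,k0,k0,k0,k0,k0],[k0,k0,k0,k0,k0,k0,k0,k0,k0,k0,k0,k0],[k0,k0,k0,k0,k0,k0,k0,k0,k0,k0,(nat_lit 212),k0],[k0,k0,
    k0,k0,k0,k0,k0,k0,k0,k0,k0,k0],[k0,k0,k0,k0,k0,k0,k0,k0,k0,k0,k0,k0],[k0,k0,k0,k0,k0,k0,k0,k0,k0,k0,k0,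
    (nat_lit 212)],[k0,k0,k0,k0,k0,k0,(nat_lit 212),k0,k0,k0,k0,k0]] (nat_lit 12720) k5
    [[(k10,(nat_lit 3763)),(k11,(nat_lit 3763)),(k9,(nat_lit 4187)),(k1,(nat_lit 4346)),(k6,(nat_lit 4347)),(k8,
    (nat_lit 4399))],[(k0,(nat_lit 4134)),(k2,(nat_lit 4187)),(k3,(nat_lit 4187)),(k4,(nat_lit 4187)),(k5,
    (nat_lit 4187)),(k7,(nat_lit 4347))],[(k0,(nat_lit 4187)),(k2,(nat_lit 4240)),(k3,(nat_lit 4240)),(k4,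
    (nat_lit 4240)),(k5,(nat_lit 4240)),(k7,(nat_lit 4400))],[(k0,(nat_lit 4187)),(k2,(nat_lit 4240)),(k3,
    (nat_lit 4240)),(k4,(nat_lit 4240)),(k5,(nat_lit 4240)),(k7,(nat_lit 4400))],[(k0,(nat_lit 4187)),(k2,
    (nat_lit 4240)),(k3,(nat_lit 4240)),(k4,(nat_lit 4240)),(k5,(nat_lit 4240)),(k7,(nat_lit 4400))],[(k0,
    (nat_lit 4187)),(k2,(nat_lit 4240)),(k3,(nat_lit 4240)),(k4,(nat_lit 4240)),(k5,(nat_lit 4240)),(k7,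
    (nat_lit 4400))],[(k0,(nat_lit 4347)),(k2,(nat_lit 4400)),(k3,(nat_lit 4400)),(k4,(nat_lit 4400)),(k5,
    (nat_lit 4400)),(k7,(nat_lit 4560))],[(k11,(nat_lit 3976)),(k10,(nat_lit 4188)),(k1,(nat_lit 4347)),(k6,
    (nat_lit 4560)),(k8,(nat_lit 4612)),(k9,(nat_lit 4612))],[(k10,(nat_lit 4028)),(k11,(nat_lit 4028)),(k1,
    (nat_lit 4187)),(k6,(nat_lit 4612)),(k8,(nat_lit 4664)),(k9,(nat_lit 4664))],[(k10,(nat_lit 4028)),(k11,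
    (nat_lit 4028)),(k1,(nat_lit 4399)),(k6,(nat_lit 4612)),(k8,(nat_lit 4664)),(k9,(nat_lit 4664))],[(k10,
    (nat_lit 3392)),(k11,(nat_lit 3392)),(k1,(nat_lit 3763)),(k6,(nat_lit 3976)),(k8,(nat_lit 4028)),(k9,
    (nat_lit 4028))],[(k10,(nat_lit 3180)),(k11,(nat_lit 3392)),(k1,(nat_lit 3763)),(k8,(nat_lit 4028)),(k9,
    (nat_lit 4028)),(k6,(nat_lit 4188))]]
    [[k2,k0,k0,k0,k0,k1],[k1,k0,k0,k1,k0,k1],[k0,k0,k0,k0,k1,k2],[k0,k0,k0,k0,k0,k3]]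
    [.ref k5 k0 [(z1,[z1]),(z1,[y1,z1,z1]),(z1,[z1,y1,z0,z3]),(z1,[y1,y2,y6,y6,z6])],.ref k6 k1 [(z1,[z0,y1,y2,y1,
    z2]),(z1,[z0,z0,z0,y1]),(z1,[z1,z0,z1,z2,y1]),(z2,[z1,z1,z1,y1,y1])],.ref k6 k1 [(z1,[z0,y1,y2,y1,z2]),(z1,[z0,z0,
    z0,y1]),(z1,[z1,z0,z0,z1]),(z2,[z1,z1,z0,y2])],.ref k7 k0 [(z1,[z2,z3]),(z1,[y2,z0,z3]),(z1,[z0,z0,z0,z1]),(z1,
    [z0,y1,y2,y2,z2])]],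
    .lp k0 [k88,k78,k78,k72,k80,k80] [k0,k0,k5,k5,k5,k5,k8,k8,k4,k4,k4,k4] k0 [[k0,k0,k6,k6,k0,k8,k0,k0,k0,k0,k0,k0],
    [k0,k0,k0,k0,k0,k0,k0,k0,k0,k0,k0,k0],[k0,k6,k0,k0,k6,k0,k0,k0,k0,k0,k0,k0],[k0,k6,k0,k0,k6,k0,k0,k0,k0,k0,k0,k0],
    [k0,k8,k0,k0,k0,k0,k0,k0,k0,k0,k0,k0],[k0,k0,k6,k6,k0,k0,k0,k0,k0,k0,k0,k0],[k0,k0,k0,k0,k0,k0,k0,k0,k16,k16,k0,
    k16],[k0,k0,k0,k0,k0,k0,k16,k0,k0,k0,k0,k16],[k0,k0,k0,k0,k0,k0,k0,k16,k0,k0,k0,k0],[k0,k0,k0,k0,k0,k0,k0,k16,k0,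
    k0,k16,k0],[k0,k0,k0,k0,k0,k0,k16,k16,k0,k0,k0,k0],[k0,k0,k0,k0,k0,k0,k0,k0,k16,k0,k0,k0]] (nat_lit 240) k5
    [[(k11,k68),(k8,k84),(k10,k84),(k1,k88),(k6,k96),(k9,k100)],[(k4,k75),(k2,k77),(k5,k77),(k7,k80),(k3,k83),(k0,
    k88)],[(k3,k78),(k4,k78),(k0,k83),(k7,k83),(k2,k84),(k5,k84)],[(k7,k69),(k0,k77),(k2,k78),(k5,k78),(k3,k84),(k4,
    k84)],[(k7,k69),(k0,k77),(k2,k78),(k5,k78),(k3,k84),(k4,k84)],[(k0,k75),(k7,k75),(k3,k78),(k4,k78),(k2,k84),(k5,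
    k84)],[(k2,k69),(k5,k69),(k7,k72),(k4,k75),(k0,k80),(k3,k83)],[(k8,k60),(k10,k60),(k11,k60),(k9,k76),(k6,k88),(k1,
    k96)],[(k9,k64),(k10,k64),(k6,k76),(k8,k96),(k11,k96),(k1,k100)],[(k6,k60),(k8,k80),(k11,k80),(k1,k84),(k9,k96),
    (k10,k96)],[(k6,k60),(k1,k68),(k8,k80),(k10,k80),(k11,k80),(k9,k96)],[(k6,k60),(k9,k64),(k10,k80),(k11,k80),(k1,
    k84),(k8,k96)]]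
    [[k1,k0,k0,k1,k0,k1],[k0,k0,k1,k2,k0,k0],[k0,k0,k0,k2,k1,k0],[k0,k0,k0,k2,k0,k1],[k0,k0,k0,k0,k1,k2]]
    [.ref k1 k0 [(z1,[z0,z1]),(z1,[z0,z0,z1]),(z1,[z0,z0,z0,z1]),(z1,[z3,z0,z1,z1,z1,y3]),(z1,[y3,z0,y1,y1,z0,z3])],
    .ref k1 k0 [(z1,[z0,z1]),(z1,[z0,z0,z1]),(z1,[z0,z0,z0,z1]),(z2,[z3,z0,z0,y1]),(z2,[y3,z0,z0,z1,z2])],
    .ref k1 k0 [(z1,[z0,z1]),(z1,[z0,z0,z1]),(z1,[z0,z0,z0,z1]),(z1,[z3,z0,z0,z0,y1]),(z1,[y3,z0,z0,z0,z2])],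
    .ref k1 k0 [(z1,[z0,z1]),(z1,[z0,z0,z1]),(z1,[z0,z0,z0,z1]),(z2,[z3,z1,z1,z1,z1,y3]),(z2,[y3,y1,y1,y1,z1,z3])],
    .ref k1 k0 [(z1,[z0,z1]),(z1,[z0,z0,z1]),(z1,[z0,z0,z0,z1]),(z1,[y3,y2,y2,y2,y1,z6]),(z1,[z3,z2,z2,z2,z2,y6])]],
    .base (.spec k3 false k0 [(z1,[z0,z1]),(z2,[z1,z2,z4,z1,y2])]),
    .lp k0 [k84,k78,k84,k78,k80,k72] [k0,k0,k3,k3,k0,k0,k3,k3,k2,k2,k6,k6] k0 [[k0,k0,k6,k6,k0,k0,k0,k0,k0,k0,k0,k0],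
    [k0,k0,k0,k0,k10,k6,k0,k0,k0,k0,k0,k0],[k0,k6,k0,k0,k0,k0,k0,k0,k0,k0,k0,k0],[k0,k6,k0,k0,k0,k0,k0,k0,k0,k0,k0,
    k0],[k6,k0,k0,k0,k0,k12,k0,k0,k0,k0,k0,k0],[k10,k0,k0,k0,k0,k0,k0,k0,k0,k0,k0,k0],[k0,k0,k0,k0,k0,k0,k0,k0,k0,k0,
    k0,k0],[k0,k0,k0,k0,k0,k0,k0,k0,k0,k0,k0,k16],[k0,k0,k0,k0,k0,k0,k0,k0,k0,k0,k8,k0],[k0,k0,k0,k0,k0,k0,k0,k0,k0,
    k0,k0,k0],[k0,k0,k0,k0,k0,k0,k16,k0,k0,k0,k0,k0],[k0,k0,k0,k0,k0,k0,k0,k0,k0,k8,k16,k0]] (nat_lit 240) k5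
    [[(k1,k68),(k8,k74),(k10,k78),(k11,k78),(k9,k82),(k6,k97)],[(k2,k75),(k5,k78),(k3,k81),(k0,k84),(k7,k87),(k4,
    k94)],[(k7,k68),(k4,k75),(k3,k78),(k0,k81),(k2,k84),(k5,k87)],[(k0,k75),(k2,k78),(k7,k78),(k4,k81),(k5,k81),(k3,
    k84)],[(k0,k78),(k2,k81),(k7,k81),(k4,k84),(k5,k84),(k3,k87)],[(k4,k72),(k3,k75),(k2,k81),(k7,k81),(k5,k84),(k0,
    k94)],[(k3,k68),(k2,k78),(k4,k81),(k5,k81),(k0,k87),(k7,k90)],[(k10,k75),(k11,k75),(k6,k78),(k8,k79),(k9,k79),(k1,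
    k97)],[(k10,k60),(k11,k76),(k6,k79),(k8,k80),(k9,k80),(k1,k82)],[(k1,k74),(k10,k76),(k11,k76),(k6,k79),(k8,k80),
    (k9,k80)],[(k11,k72),(k6,k75),(k8,k76),(k9,k76),(k1,k78),(k10,k80)],[(k9,k60),(k6,k75),(k8,k76),(k1,k78),(k11,
    k80),(k10,k88)]]
    [[k2,k1,k0,k0,k0,k0],[k0,k1,k0,k2,k0,k0],[k0,k0,k0,k0,k2,k1],[k0,k0,k0,k0,k1,k2]]
    [.ref k6 k1 [(z1,[z0,y1,y2,y1,z2]),(z1,[z0,z0,z0,y1]),(z1,[y1,z1,z1,z1]),(z2,[z1,z0,y1,y2])],.ref k9 k2 [(z2,[z1,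
    y2,y5,y4,z4]),(z1,[y1,y1,y1,z1,z2]),(z1,[z2,z2,z5,z4,y4]),(z2,[y1,z2,y1,y2,z2])],.ref k10 k1 [(z1,[z0,y1,y2,y1,
    z2]),(z1,[z0,z0,z0,y1]),(z1,[z1,z0,z0,z2]),(z1,[y2,z1,z0,y5])],.ref k6 k1 [(z1,[z0,y1,y2,y1,z2]),(z1,[z0,z0,z0,
    y1]),(z1,[z1,z0,z0,z1]),(z2,[y1,z1,z0,y2])]]]

theorem hB6_124_0 : blkB [0, 0, 0, 1, 1, 1] [] sp6 hS6_124 (pcls (n := 6) [0, 0, 0, 1, 1, 1]) hD6_124 117 0 hN6_124_0 = true := by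
  decide +kernel

/-- nodes 12 to 23 -/
noncomputable def hN6_124_1 : List HM :=
  [.lp k0 [(nat_lit 4134),(nat_lit 4240),(nat_lit 4240),(nat_lit 4560),(nat_lit 4664),(nat_lit 3392)] [(nat_lit 265),
    (nat_lit 265),(nat_lit 212),(nat_lit 212),(nat_lit 212),(nat_lit 212),k52,k52,k0,k0,(nat_lit 636),
    (nat_lit 636)] k0 [[k0,k0,k0,k0,k0,k0,k0,k0,k0,k0,k0,k0],[k0,k0,k0,k0,k0,k0,k0,k0,k0,k0,k0,k0],[k0,k0,k0,k0,k0,k0,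
    k0,k0,k0,k0,k0,k0],[k0,k0,k0,k0,k0,k0,k0,k0,k0,k0,k0,k0],[k0,k0,k0,k0,k0,k0,k0,k0,k0,k0,k0,k0],[k0,k0,k0,k0,k0,k0,
    k0,k0,k0,k0,k0,k0],[k0,k0,k0,k0,k0,k0,k0,k0,k0,k0,k0,k0],[k0,k0,k0,k0,k0,k0,k0,k0,k0,k0,(nat_lit 212),k0],[k0,k0,
    k0,k0,k0,k0,k0,k0,k0,k0,k0,k0],[k0,k0,k0,k0,k0,k0,k0,k0,k0,k0,k0,k0],[k0,k0,k0,k0,k0,k0,k0,k0,k0,k0,k0,
    (nat_lit 212)],[k0,k0,k0,k0,k0,k0,(nat_lit 212),k0,k0,k0,k0,k0]] (nat_lit 12720) k5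
    [[(k10,(nat_lit 3763)),(k11,(nat_lit 3763)),(k9,(nat_lit 4187)),(k1,(nat_lit 4346)),(k6,(nat_lit 4347)),(k8,
    (nat_lit 4399))],[(k0,(nat_lit 4134)),(k2,(nat_lit 4187)),(k3,(nat_lit 4187)),(k4,(nat_lit 4187)),(k5,
    (nat_lit 4187)),(k7,(nat_lit 4347))],[(k0,(nat_lit 4187)),(k2,(nat_lit 4240)),(k3,(nat_lit 4240)),(k4,
    (nat_lit 4240)),(k5,(nat_lit 4240)),(k7,(nat_lit 4400))],[(k0,(nat_lit 4187)),(k2,(nat_lit 4240)),(k3,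
    (nat_lit 4240)),(k4,(nat_lit 4240)),(k5,(nat_lit 4240)),(k7,(nat_lit 4400))],[(k0,(nat_lit 4187)),(k2,
    (nat_lit 4240)),(k3,(nat_lit 4240)),(k4,(nat_lit 4240)),(k5,(nat_lit 4240)),(k7,(nat_lit 4400))],[(k0,
    (nat_lit 4187)),(k2,(nat_lit 4240)),(k3,(nat_lit 4240)),(k4,(nat_lit 4240)),(k5,(nat_lit 4240)),(k7,
    (nat_lit 4400))],[(k0,(nat_lit 4347)),(k2,(nat_lit 4400)),(k3,(nat_lit 4400)),(k4,(nat_lit 4400)),(k5,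
    (nat_lit 4400)),(k7,(nat_lit 4560))],[(k11,(nat_lit 3976)),(k10,(nat_lit 4188)),(k1,(nat_lit 4347)),(k6,
    (nat_lit 4560)),(k8,(nat_lit 4612)),(k9,(nat_lit 4612))],[(k10,(nat_lit 4028)),(k11,(nat_lit 4028)),(k1,
    (nat_lit 4187)),(k6,(nat_lit 4612)),(k8,(nat_lit 4664)),(k9,(nat_lit 4664))],[(k10,(nat_lit 4028)),(k11,
    (nat_lit 4028)),(k1,(nat_lit 4399)),(k6,(nat_lit 4612)),(k8,(nat_lit 4664)),(k9,(nat_lit 4664))],[(k10,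
    (nat_lit 3392)),(k11,(nat_lit 3392)),(k1,(nat_lit 3763)),(k6,(nat_lit 3976)),(k8,(nat_lit 4028)),(k9,
    (nat_lit 4028))],[(k10,(nat_lit 3180)),(k11,(nat_lit 3392)),(k1,(nat_lit 3763)),(k8,(nat_lit 4028)),(k9,
    (nat_lit 4028)),(k6,(nat_lit 4188))]]
    [[k2,k0,k0,k0,k0,k1],[k1,k0,k0,k1,k0,k1],[k0,k0,k0,k0,k1,k2],[k0,k0,k0,k0,k0,k3]]
    [.ref k1 k0 [(z1,[z1,z1]),(z1,[y2,z4,z3]),(z1,[z0,z0,z0,z1]),(z1,[z0,z0,z0,z0,z1]),(z1,[z0,y3,y3,y1,y1,z3])],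
    .ref k1 k0 [(z2,[z3,z3,z0,z0,y1]),(z1,[y3,z3,z3,z0,z1]),(z1,[z0,z0,z0,z1]),(z1,[z0,z0,z0,z0,z1]),(z1,[z0,y3,y3,y1,
    y1,z3])],.ref k1 k0 [(z2,[z3,z9,z3,z1,z1,y3]),(z1,[y3,y3,z0,y1,y1,z3]),(z1,[z0,z0,z0,z1]),(z1,[z0,z0,z0,z0,z1]),
    (z1,[z0,y3,y3,y1,y1,z3])],.ref k1 k0 [(z1,[z1,z3]),(z1,[y2,z0,z3]),(z1,[z0,z0,z0,z1]),(z1,[z0,z0,z0,z0,z1]),(z1,
    [z0,y3,y3,y1,y1,z3])]],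
    .lp k0 [k88,k78,k78,k72,k80,k80] [k0,k0,k5,k5,k5,k5,k8,k8,k4,k4,k4,k4] k0 [[k0,k0,k6,k6,k0,k8,k0,k0,k0,k0,k0,k0],
    [k0,k0,k0,k0,k0,k0,k0,k0,k0,k0,k0,k0],[k0,k6,k0,k0,k6,k0,k0,k0,k0,k0,k0,k0],[k0,k6,k0,k0,k6,k0,k0,k0,k0,k0,k0,k0],
    [k0,k8,k0,k0,k0,k0,k0,k0,k0,k0,k0,k0],[k0,k0,k6,k6,k0,k0,k0,k0,k0,k0,k0,k0],[k0,k0,k0,k0,k0,k0,k0,k0,k16,k16,k0,
    k16],[k0,k0,k0,k0,k0,k0,k16,k0,k0,k0,k0,k16],[k0,k0,k0,k0,k0,k0,k0,k16,k0,k0,k0,k0],[k0,k0,k0,k0,k0,k0,k0,k16,k0,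
    k0,k16,k0],[k0,k0,k0,k0,k0,k0,k16,k16,k0,k0,k0,k0],[k0,k0,k0,k0,k0,k0,k0,k0,k16,k0,k0,k0]] (nat_lit 240) k5
    [[(k11,k68),(k8,k84),(k10,k84),(k1,k88),(k6,k96),(k9,k100)],[(k4,k75),(k2,k77),(k5,k77),(k7,k80),(k3,k83),(k0,
    k88)],[(k3,k78),(k4,k78),(k0,k83),(k7,k83),(k2,k84),(k5,k84)],[(k7,k69),(k0,k77),(k2,k78),(k5,k78),(k3,k84),(k4,
    k84)],[(k7,k69),(k0,k77),(k2,k78),(k5,k78),(k3,k84),(k4,k84)],[(k0,k75),(k7,k75),(k3,k78),(k4,k78),(k2,k84),(k5,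
    k84)],[(k2,k69),(k5,k69),(k7,k72),(k4,k75),(k0,k80),(k3,k83)],[(k8,k60),(k10,k60),(k11,k60),(k9,k76),(k6,k88),(k1,
    k96)],[(k9,k64),(k10,k64),(k6,k76),(k8,k96),(k11,k96),(k1,k100)],[(k6,k60),(k8,k80),(k11,k80),(k1,k84),(k9,k96),
    (k10,k96)],[(k6,k60),(k1,k68),(k8,k80),(k10,k80),(k11,k80),(k9,k96)],[(k6,k60),(k9,k64),(k10,k80),(k11,k80),(k1,
    k84),(k8,k96)]]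
    [[k1,k0,k0,k1,k0,k1],[k0,k0,k1,k2,k0,k0],[k0,k0,k0,k2,k1,k0],[k0,k0,k0,k2,k0,k1],[k0,k0,k0,k0,k1,k2]]
    [.ref k3 k0 [(z1,[z0,z1]),(z1,[z0,z0,z1]),(z1,[y3,z0,y1,z0,z3]),(z1,[z3,z0,z1,z3,y3])],.ref k12 k2 [(z1,[z1,z0,z0,
    y1]),(z1,[y1,z0,z0,z2]),(z1,[z0,z0,z1]),(z1,[z0,z1])],.ref k12 k1 [(z1,[z1,z0,z0,y1]),(z1,[y1,z0,z0,z2]),(z1,[z0,
    y1,y1,y3,z3]),(z1,[z0,z1])],.ref k3 k0 [(z1,[z0,z1]),(z1,[z0,z0,z1]),(z2,[y3,y1,y1,z3,z3]),(z2,[z3,z1,z1,z3,y3])],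
    .ref k9 k3 [(z1,[z0,z1]),(z1,[z0,y1,y1,y3,z3]),(z1,[z3,z2,z2,z6,y6]),(z1,[y3,y2,y2,y3,z6])]],
    .lp k0 [(nat_lit 61214),(nat_lit 57600),(nat_lit 57600),(nat_lit 58322),(nat_lit 62660),
    (nat_lit 48200)] [(nat_lit 723),(nat_lit 723),(nat_lit 2530),(nat_lit 2530),(nat_lit 2530),(nat_lit 2530),
    (nat_lit 2169),(nat_lit 2169),k0,k0,(nat_lit 7230),(nat_lit 7230)] k0 [[k0,k0,(nat_lit 3615),(nat_lit 723),k0,k0,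
    k0,k0,k0,k0,k0,k0],[(nat_lit 2892),k0,k0,k0,k0,k0,k0,k0,k0,k0,k0,k0],[k0,(nat_lit 723),k0,k0,(nat_lit 723),k0,k0,
    k0,k0,k0,k0,k0],[k0,(nat_lit 3615),k0,k0,(nat_lit 3615),k0,k0,k0,k0,k0,k0,k0],[k0,k0,k0,k0,k0,k0,k0,k0,k0,k0,k0,
    k0],[k0,k0,(nat_lit 3615),(nat_lit 723),k0,k0,k0,k0,k0,k0,k0,k0],[k0,k0,k0,k0,k0,k0,k0,k0,k0,k0,k0,k0],[k0,k0,k0,
    k0,k0,k0,k0,k0,k0,k0,(nat_lit 8676),k0],[k0,k0,k0,k0,k0,k0,k0,k0,k0,k0,k0,k0],[k0,k0,k0,k0,k0,k0,k0,k0,k0,k0,k0,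
    k0],[k0,k0,k0,k0,k0,k0,k0,k0,k0,k0,k0,k0],[k0,k0,k0,k0,k0,k0,(nat_lit 8676),k0,k0,k0,k0,k0]] (nat_lit 173520) k5
    [[(k9,(nat_lit 53261)),(k10,(nat_lit 54707)),(k11,(nat_lit 54707)),(k6,(nat_lit 59768)),(k1,(nat_lit 61214)),(k8,
    (nat_lit 61937))],[(k5,(nat_lit 55792)),(k2,(nat_lit 58684)),(k3,(nat_lit 59407)),(k4,(nat_lit 59407)),(k7,
    (nat_lit 59768)),(k0,(nat_lit 64106))],[(k3,(nat_lit 54708)),(k4,(nat_lit 57600)),(k7,(nat_lit 57961)),(k5,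
    (nat_lit 58323)),(k0,(nat_lit 59407)),(k2,(nat_lit 61215))],[(k7,(nat_lit 57238)),(k2,(nat_lit 57600)),(k5,
    (nat_lit 57600)),(k0,(nat_lit 58684)),(k3,(nat_lit 61215)),(k4,(nat_lit 61215))],[(k7,(nat_lit 54346)),(k0,
    (nat_lit 55792)),(k2,(nat_lit 57600)),(k5,(nat_lit 57600)),(k3,(nat_lit 58323)),(k4,(nat_lit 58323))],[(k3,
    (nat_lit 57600)),(k4,(nat_lit 57600)),(k7,(nat_lit 57961)),(k5,(nat_lit 58323)),(k0,(nat_lit 59407)),(k2,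
    (nat_lit 61215))],[(k5,(nat_lit 54346)),(k2,(nat_lit 57238)),(k3,(nat_lit 57961)),(k4,(nat_lit 57961)),(k7,
    (nat_lit 58322)),(k0,(nat_lit 59768))],[(k11,(nat_lit 53261)),(k6,(nat_lit 58322)),(k1,(nat_lit 59768)),(k8,
    (nat_lit 60491)),(k9,(nat_lit 60491)),(k10,(nat_lit 61937))],[(k1,(nat_lit 53261)),(k10,(nat_lit 55430)),(k11,
    (nat_lit 55430)),(k6,(nat_lit 60491)),(k8,(nat_lit 62660)),(k9,(nat_lit 62660))],[(k10,(nat_lit 55430)),(k11,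
    (nat_lit 55430)),(k6,(nat_lit 60491)),(k1,(nat_lit 61937)),(k8,(nat_lit 62660)),(k9,(nat_lit 62660))],[(k10,
    (nat_lit 48200)),(k11,(nat_lit 48200)),(k6,(nat_lit 53261)),(k1,(nat_lit 54707)),(k8,(nat_lit 55430)),(k9,
    (nat_lit 55430))],[(k10,(nat_lit 48200)),(k11,(nat_lit 48200)),(k1,(nat_lit 54707)),(k8,(nat_lit 55430)),(k9,
    (nat_lit 55430)),(k6,(nat_lit 61937))]]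
    [[k1,k0,k0,k1,k0,k1],[k0,k0,k1,k2,k0,k0],[k0,k0,k0,k0,k1,k2],[k0,k0,k0,k0,k0,k3]]
    [.ref k4 k0 [(z1,[z0,z1]),(z1,[z0,z0,z1]),(z1,[y1,z0,y1,z1])],.ref k8 k2 [(z1,[z2,z1,z2,y2]),(z1,[y1,y1,y2,z2]),
    (z1,[z0,z0,z1])],.ref k11 k1 [(z1,[y2,y1,y3,z2]),(z1,[z1,z0,z2]),(z1,[z0,z0,y1])],.ref k13 k0 [(z2,[y1,z3]),(z1,
    [z1,z0,z3]),(z2,[y1,y1,y2,z2])]],
    .lp k0 [k36,k30,k30,k32,k28,k32] [k0,k0,k3,k3,k3,k3,k2,k2,k4,k4,k2,k2] k0 [[k0,k0,k6,k6,k0,k0,k0,k0,k0,k0,k0,k0],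
    [k0,k0,k0,k0,k0,k0,k0,k0,k0,k0,k0,k0],[k0,k6,k0,k0,k6,k0,k0,k0,k0,k0,k0,k0],[k0,k6,k0,k0,k6,k0,k0,k0,k0,k0,k0,k0],
    [k0,k0,k0,k0,k0,k0,k0,k0,k0,k0,k0,k0],[k0,k0,k6,k6,k0,k0,k0,k0,k0,k0,k0,k0],[k0,k0,k0,k0,k0,k0,k0,k8,k4,k0,k0,k0],
    [k0,k0,k0,k0,k0,k0,k0,k0,k4,k0,k4,k4],[k0,k0,k0,k0,k0,k0,k0,k0,k0,k0,k0,k0],[k0,k0,k0,k0,k0,k0,k4,k4,k0,k0,k0,k0],
    [k0,k0,k0,k0,k0,k0,k4,k0,k0,k0,k0,k0],[k0,k0,k0,k0,k0,k0,k4,k0,k0,k0,k0,k0]] k96 k5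
    [[(k9,k28),(k8,k32),(k10,k34),(k11,k34),(k1,k36),(k6,k38)],[(k2,k27),(k5,k27),(k3,k33),(k4,k33),(k7,k34),(k0,
    k36)],[(k3,k30),(k4,k30),(k7,k31),(k0,k33),(k2,k36),(k5,k36)],[(k7,k25),(k0,k27),(k2,k30),(k5,k30),(k3,k36),(k4,
    k36)],[(k7,k25),(k0,k27),(k2,k30),(k5,k30),(k3,k36),(k4,k36)],[(k3,k30),(k4,k30),(k7,k31),(k0,k33),(k2,k36),(k5,
    k36)],[(k2,k25),(k5,k25),(k3,k31),(k4,k31),(k7,k32),(k0,k34)],[(k6,k24),(k11,k28),(k9,k30),(k8,k34),(k10,k36),(k1,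
    k38)],[(k10,k26),(k11,k26),(k1,k28),(k6,k30),(k8,k32),(k9,k36)],[(k8,k28),(k10,k30),(k11,k30),(k1,k32),(k9,k32),
    (k6,k34)],[(k9,k26),(k6,k28),(k8,k30),(k10,k32),(k11,k32),(k1,k34)],[(k9,k26),(k8,k30),(k10,k32),(k11,k32),(k1,
    k34),(k6,k36)]]
    [[k0,k1,k0,k2,k0,k0],[k0,k0,k1,k2,k0,k0],[k0,k0,k0,k0,k2,k1],[k0,k0,k0,k0,k1,k2]]
    [.ref k1 k0 [(z4,[y3,z2,z1,z0,z3]),(z2,[z3,z0,z1,z0,y3]),(z1,[z0,z0,z0,z1]),(z4,[z3,z0,y1,z0,z3]),(z2,[y3,z0,z1,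
    z0,z3])],.ref k1 k0 [(z2,[y3,z1,z0,z1,z3]),(z1,[z3,z0,z1,y1,y3]),(z1,[z0,z0,z0,z1]),(z2,[z3,z0,z0,y1]),(z1,[y3,z0,
    z0,z1,z3])],.ref k1 k0 [(z8,[z6,z5,z2,z2,z3,y6]),(z4,[y6,y1,z2,y2,y3,z6]),(z1,[z0,z0,z0,z1]),(z8,[y6,y1,y2,y2,z9,
    z6]),(z4,[z6,z1,z2,z2,z3,y6])],.ref k1 k0 [(z2,[z3,z2,z2,z2,z3,y6]),(z1,[y3,y1,y1,y2,y3,z6]),(z1,[z0,z0,z0,z1]),
    (z2,[y3,y1,y2,y2,z0,z6]),(z1,[z3,z1,z2,z2,z3,y6])]],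
    .lp k0 [(nat_lit 4134),(nat_lit 4240),(nat_lit 4240),(nat_lit 4560),(nat_lit 4664),(nat_lit 3392)] [(nat_lit 265),
    (nat_lit 265),(nat_lit 212),(nat_lit 212),(nat_lit 212),(nat_lit 212),k52,k52,k0,k0,(nat_lit 636),
    (nat_lit 636)] k0 [[k0,k0,k0,k0,k0,k0,k0,k0,k0,k0,k0,k0],[k0,k0,k0,k0,k0,k0,k0,k0,k0,k0,k0,k0],[k0,k0,k0,k0,k0,k0,
    k0,k0,k0,k0,k0,k0],[k0,k0,k0,k0,k0,k0,k0,k0,k0,k0,k0,k0],[k0,k0,k0,k0,k0,k0,k0,k0,k0,k0,k0,k0],[k0,k0,k0,k0,k0,k0,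
    k0,k0,k0,k0,k0,k0],[k0,k0,k0,k0,k0,k0,k0,k0,k0,k0,k0,k0],[k0,k0,k0,k0,k0,k0,k0,k0,k0,k0,(nat_lit 212),k0],[k0,k0,
    k0,k0,k0,k0,k0,k0,k0,k0,k0,k0],[k0,k0,k0,k0,k0,k0,k0,k0,k0,k0,k0,k0],[k0,k0,k0,k0,k0,k0,k0,k0,k0,k0,k0,
    (nat_lit 212)],[k0,k0,k0,k0,k0,k0,(nat_lit 212),k0,k0,k0,k0,k0]] (nat_lit 12720) k5
    [[(k10,(nat_lit 3763)),(k11,(nat_lit 3763)),(k9,(nat_lit 4187)),(k1,(nat_lit 4346)),(k6,(nat_lit 4347)),(k8,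
    (nat_lit 4399))],[(k0,(nat_lit 4134)),(k2,(nat_lit 4187)),(k3,(nat_lit 4187)),(k4,(nat_lit 4187)),(k5,
    (nat_lit 4187)),(k7,(nat_lit 4347))],[(k0,(nat_lit 4187)),(k2,(nat_lit 4240)),(k3,(nat_lit 4240)),(k4,
    (nat_lit 4240)),(k5,(nat_lit 4240)),(k7,(nat_lit 4400))],[(k0,(nat_lit 4187)),(k2,(nat_lit 4240)),(k3,
    (nat_lit 4240)),(k4,(nat_lit 4240)),(k5,(nat_lit 4240)),(k7,(nat_lit 4400))],[(k0,(nat_lit 4187)),(k2,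
    (nat_lit 4240)),(k3,(nat_lit 4240)),(k4,(nat_lit 4240)),(k5,(nat_lit 4240)),(k7,(nat_lit 4400))],[(k0,
    (nat_lit 4187)),(k2,(nat_lit 4240)),(k3,(nat_lit 4240)),(k4,(nat_lit 4240)),(k5,(nat_lit 4240)),(k7,
    (nat_lit 4400))],[(k0,(nat_lit 4347)),(k2,(nat_lit 4400)),(k3,(nat_lit 4400)),(k4,(nat_lit 4400)),(k5,
    (nat_lit 4400)),(k7,(nat_lit 4560))],[(k11,(nat_lit 3976)),(k10,(nat_lit 4188)),(k1,(nat_lit 4347)),(k6,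
    (nat_lit 4560)),(k8,(nat_lit 4612)),(k9,(nat_lit 4612))],[(k10,(nat_lit 4028)),(k11,(nat_lit 4028)),(k1,
    (nat_lit 4187)),(k6,(nat_lit 4612)),(k8,(nat_lit 4664)),(k9,(nat_lit 4664))],[(k10,(nat_lit 4028)),(k11,
    (nat_lit 4028)),(k1,(nat_lit 4399)),(k6,(nat_lit 4612)),(k8,(nat_lit 4664)),(k9,(nat_lit 4664))],[(k10,
    (nat_lit 3392)),(k11,(nat_lit 3392)),(k1,(nat_lit 3763)),(k6,(nat_lit 3976)),(k8,(nat_lit 4028)),(k9,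
    (nat_lit 4028))],[(k10,(nat_lit 3180)),(k11,(nat_lit 3392)),(k1,(nat_lit 3763)),(k8,(nat_lit 4028)),(k9,
    (nat_lit 4028)),(k6,(nat_lit 4188))]]
    [[k2,k0,k0,k0,k0,k1],[k1,k0,k0,k1,k0,k1],[k0,k0,k0,k0,k1,k2],[k0,k0,k0,k0,k0,k3]]
    [.ref k6 k0 [(z1,[z1]),(z1,[y1,z1,z1]),(z1,[z0,z0,z0,z1]),(z2,[y1,z0,y2,y1,z2])],.ref k15 k0 [(z1,[z2,z3,z2,z1,
    y2]),(z1,[y2,z0,z1,y1,z2]),(z1,[y1,z0,y1,z1,z1]),(z1,[z0,y1,y2,y1,z2])],.ref k6 k0 [(z1,[z1,z1]),(z1,[y1,z0,z1]),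
    (z1,[z0,z0,z0,z1]),(z2,[y1,y1,y2,y1,z2])],.ref k15 k0 [(z1,[z1,z3]),(z1,[y1,z0,z3]),(z2,[y1,z0,z0,z3]),(z1,[z0,y1,
    y2,y1,z2])]],
    .base (.spec k4 false k0 [(z2,[z1,z4,z2,z1,y2]),(z1,[z0,z0,z1])]),
    .lp k0 [(nat_lit 4134),(nat_lit 4240),(nat_lit 4240),(nat_lit 4560),(nat_lit 4664),(nat_lit 3392)] [(nat_lit 265),
    (nat_lit 265),(nat_lit 212),(nat_lit 212),(nat_lit 212),(nat_lit 212),k52,k52,k0,k0,(nat_lit 636),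
    (nat_lit 636)] k0 [[k0,k0,k0,k0,k0,k0,k0,k0,k0,k0,k0,k0],[k0,k0,k0,k0,k0,k0,k0,k0,k0,k0,k0,k0],[k0,k0,k0,k0,k0,k0,
    k0,k0,k0,k0,k0,k0],[k0,k0,k0,k0,k0,k0,k0,k0,k0,k0,k0,k0],[k0,k0,k0,k0,k0,k0,k0,k0,k0,k0,k0,k0],[k0,k0,k0,k0,k0,k0,
    k0,k0,k0,k0,k0,k0],[k0,k0,k0,k0,k0,k0,k0,k0,k0,k0,k0,k0],[k0,k0,k0,k0,k0,k0,k0,k0,k0,k0,(nat_lit 212),k0],[k0,k0,
    k0,k0,k0,k0,k0,k0,k0,k0,k0,k0],[k0,k0,k0,k0,k0,k0,k0,k0,k0,k0,k0,k0],[k0,k0,k0,k0,k0,k0,k0,k0,k0,k0,k0,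
    (nat_lit 212)],[k0,k0,k0,k0,k0,k0,(nat_lit 212),k0,k0,k0,k0,k0]] (nat_lit 12720) k5
    [[(k10,(nat_lit 3763)),(k11,(nat_lit 3763)),(k9,(nat_lit 4187)),(k1,(nat_lit 4346)),(k6,(nat_lit 4347)),(k8,
    (nat_lit 4399))],[(k0,(nat_lit 4134)),(k2,(nat_lit 4187)),(k3,(nat_lit 4187)),(k4,(nat_lit 4187)),(k5,
    (nat_lit 4187)),(k7,(nat_lit 4347))],[(k0,(nat_lit 4187)),(k2,(nat_lit 4240)),(k3,(nat_lit 4240)),(k4,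
    (nat_lit 4240)),(k5,(nat_lit 4240)),(k7,(nat_lit 4400))],[(k0,(nat_lit 4187)),(k2,(nat_lit 4240)),(k3,
    (nat_lit 4240)),(k4,(nat_lit 4240)),(k5,(nat_lit 4240)),(k7,(nat_lit 4400))],[(k0,(nat_lit 4187)),(k2,
    (nat_lit 4240)),(k3,(nat_lit 4240)),(k4,(nat_lit 4240)),(k5,(nat_lit 4240)),(k7,(nat_lit 4400))],[(k0,
    (nat_lit 4187)),(k2,(nat_lit 4240)),(k3,(nat_lit 4240)),(k4,(nat_lit 4240)),(k5,(nat_lit 4240)),(k7,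
    (nat_lit 4400))],[(k0,(nat_lit 4347)),(k2,(nat_lit 4400)),(k3,(nat_lit 4400)),(k4,(nat_lit 4400)),(k5,
    (nat_lit 4400)),(k7,(nat_lit 4560))],[(k11,(nat_lit 3976)),(k10,(nat_lit 4188)),(k1,(nat_lit 4347)),(k6,
    (nat_lit 4560)),(k8,(nat_lit 4612)),(k9,(nat_lit 4612))],[(k10,(nat_lit 4028)),(k11,(nat_lit 4028)),(k1,
    (nat_lit 4187)),(k6,(nat_lit 4612)),(k8,(nat_lit 4664)),(k9,(nat_lit 4664))],[(k10,(nat_lit 4028)),(k11,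
    (nat_lit 4028)),(k1,(nat_lit 4399)),(k6,(nat_lit 4612)),(k8,(nat_lit 4664)),(k9,(nat_lit 4664))],[(k10,
    (nat_lit 3392)),(k11,(nat_lit 3392)),(k1,(nat_lit 3763)),(k6,(nat_lit 3976)),(k8,(nat_lit 4028)),(k9,
    (nat_lit 4028))],[(k10,(nat_lit 3180)),(k11,(nat_lit 3392)),(k1,(nat_lit 3763)),(k8,(nat_lit 4028)),(k9,
    (nat_lit 4028)),(k6,(nat_lit 4188))]]
    [[k2,k0,k0,k0,k0,k1],[k1,k0,k0,k1,k0,k1],[k0,k0,k0,k0,k1,k2],[k0,k0,k0,k0,k0,k3]]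
    [.ref k1 k0 [(z4,[z3,z1]),(z1,[y3,z1,z3]),(z2,[z3,y1,z0,z6]),(z4,[y3,z1,z0,z0,z6]),(z2,[z0,y1,y6,y6,y3,z6])],
    .ref k1 k0 [(z4,[z6,z1,z0,z0,y3]),(z1,[y6,z1,z3,z0,z3]),(z2,[z6,y1,z0,z6,y3]),(z4,[y6,z1,z0,z0,z9]),(z2,[z0,y1,y6,
    y6,y3,z6])],.ref k1 k0 [(z8,[z6,z5,z6,z6,z3,y6]),(z2,[y6,y1,z0,y6,y3,z6]),(z4,[z6,z1,z6,z18,z3,y6]),(z8,[y6,y1,y6,
    y6,z9,z6]),(z2,[z0,y1,y6,y6,y3,z6])],.ref k1 k0 [(z2,[z1,z1]),(z1,[y2,z0,z3]),(z1,[z1,z0,z0,z3]),(z2,[y1,z0,z0,z0,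
    z3]),(z2,[z0,y1,y6,y6,y3,z6])]],
    .lp k0 [k42,k40,k40,k40,k32,k44] [k1,k1,k2,k2,k2,k2,k2,k2,k6,k6,k0,k0] k0 [[k0,k0,k0,k0,k0,k0,k0,k0,k0,k0,k0,k0],
    [k0,k0,k0,k0,k0,k0,k0,k0,k0,k0,k0,k0],[k0,k0,k0,k0,k0,k0,k0,k0,k0,k0,k0,k0],[k0,k0,k0,k0,k0,k0,k0,k0,k0,k0,k0,k0],
    [k0,k0,k0,k0,k0,k0,k0,k0,k0,k0,k0,k0],[k0,k0,k0,k0,k0,k0,k0,k0,k0,k0,k0,k0],[k0,k0,k0,k0,k0,k0,k0,k0,k0,k0,k0,k4],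
    [k0,k0,k0,k0,k0,k0,k0,k0,k0,k0,k0,k0],[k0,k0,k0,k0,k0,k0,k0,k0,k0,k0,k0,k0],[k0,k0,k0,k0,k0,k0,k0,k0,k0,k0,k0,k0],
    [k0,k0,k0,k0,k0,k0,k0,k4,k0,k0,k0,k0],[k0,k0,k0,k0,k0,k0,k0,k0,k0,k0,k0,k0]] k120 k5
    [[(k8,k37),(k6,k41),(k9,k41),(k1,k42),(k10,k43),(k11,k43)],[(k2,k41),(k3,k41),(k4,k41),(k5,k41),(k7,k41),(k0,
    k42)],[(k2,k40),(k3,k40),(k4,k40),(k5,k40),(k7,k40),(k0,k41)],[(k2,k40),(k3,k40),(k4,k40),(k5,k40),(k7,k40),(k0,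
    k41)],[(k2,k40),(k3,k40),(k4,k40),(k5,k40),(k7,k40),(k0,k41)],[(k2,k40),(k3,k40),(k4,k40),(k5,k40),(k7,k40),(k0,
    k41)],[(k2,k40),(k3,k40),(k4,k40),(k5,k40),(k7,k40),(k0,k41)],[(k8,k36),(k9,k36),(k10,k38),(k6,k40),(k1,k41),(k11,
    k42)],[(k8,k32),(k9,k32),(k6,k36),(k10,k38),(k11,k38),(k1,k41)],[(k8,k32),(k9,k32),(k6,k36),(k1,k37),(k10,k38),
    (k11,k38)],[(k8,k38),(k9,k38),(k6,k42),(k1,k43),(k10,k44),(k11,k44)],[(k6,k38),(k8,k38),(k9,k38),(k1,k43),(k10,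
    k44),(k11,k44)]]
    [[k1,k0,k0,k1,k1,k0],[k0,k0,k0,k2,k1,k0],[k0,k0,k0,k0,k3,k0],[k0,k0,k0,k0,k2,k1]]
    [.ref k1 k0 [(z1,[y1,z3,y1,y1,z0,z1]),(z1,[z2,z0,z5,z2,z0,y2]),(z1,[y4,z0,y4,y1,z0,z4]),(z1,[z2,z0,z2,z2,z3,y2]),
    (z1,[z2,y3,y1,y1,y3,z1])],.ref k1 k0 [(z2,[y1,z5,y1,y1,z1,z1]),(z1,[z1,z1,z4,z1,y1,y1]),(z1,[y2,y2,y2,z1,z2,z2]),
    (z1,[z1,z1,z1,z1,z2,y1]),(z1,[z1,y2,y2,y2,y4,z2])],.ref k1 k0 [(z2,[y1,z3,y3,y3,y3,z3]),(z1,[z1,z3,z6,z3,z3,y3]),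
    (z1,[y2,y6,y6,y3,y6,z6]),(z1,[z1,z3,z3,z3,z6,y3]),(z1,[z1])],.ref k1 k0 [(z1,[y1,z1,y2,y2,y2,z2]),(z1,[z2,z4,z7,
    z4,z4,y4]),(z1,[y4,y8,y8,y5,y8,z8]),(z1,[z2,z4,z4,z4,z7,y4]),(z1,[z2,z1,z1,z1,z1,y1])]],
    .lp k0 [k84,k72,k80,k84,k78,k78] [k0,k0,k6,k6,k2,k2,k0,k0,k3,k3,k3,k3] k0 [[k0,k0,k0,k8,k8,k8,k0,k0,k0,k0,k0,k0],
    [k0,k0,k0,k0,k0,k0,k0,k0,k0,k0,k0,k0],[k0,k8,k0,k0,k0,k0,k0,k0,k0,k0,k0,k0],[k0,k0,k0,k0,k0,k0,k0,k0,k0,k0,k0,k0],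
    [k0,k8,k0,k0,k0,k0,k0,k0,k0,k0,k0,k0],[k0,k8,k0,k0,k0,k0,k0,k0,k0,k0,k0,k0],[k0,k0,k0,k0,k0,k0,k0,k0,k6,k6,k0,k0],
    [k0,k0,k0,k0,k0,k0,k0,k0,k0,k0,k0,k0],[k0,k0,k0,k0,k0,k0,k0,k6,k0,k0,k6,k0],[k0,k0,k0,k0,k0,k0,k0,k6,k0,k0,k6,k0],
    [k0,k0,k0,k0,k0,k0,k0,k0,k0,k0,k0,k0],[k0,k0,k0,k0,k0,k0,k0,k0,k6,k6,k0,k0]] (nat_lit 240) k5
    [[(k8,k75),(k11,k75),(k9,k81),(k10,k81),(k1,k84),(k6,k84)],[(k2,k70),(k4,k74),(k7,k76),(k3,k78),(k5,k82),(k0,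
    k84)],[(k2,k72),(k3,k72),(k0,k78),(k4,k84),(k5,k84),(k7,k86)],[(k0,k70),(k2,k72),(k3,k72),(k4,k76),(k5,k76),(k7,
    k78)],[(k2,k76),(k4,k80),(k5,k80),(k0,k82),(k7,k82),(k3,k84)],[(k0,k74),(k2,k76),(k4,k80),(k5,k80),(k7,k82),(k3,
    k84)],[(k0,k76),(k2,k78),(k4,k82),(k5,k82),(k7,k84),(k3,k86)],[(k8,k75),(k11,k75),(k9,k81),(k10,k81),(k1,k84),(k6,
    k84)],[(k9,k78),(k10,k78),(k1,k81),(k6,k81),(k8,k84),(k11,k84)],[(k1,k75),(k6,k75),(k8,k78),(k11,k78),(k9,k84),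
    (k10,k84)],[(k1,k75),(k6,k75),(k8,k78),(k11,k78),(k9,k84),(k10,k84)],[(k9,k78),(k10,k78),(k1,k81),(k6,k81),(k8,
    k84),(k11,k84)]]
    [[k2,k1,k0,k0,k0,k0],[k1,k0,k0,k1,k1,k0],[k1,k0,k0,k1,k0,k1],[k0,k3,k0,k0,k0,k0],[k0,k2,k1,k0,k0,k0]]
    [.ref k2 k2 [(z2,[y8,z9,z5,z2,y2]),(z2,[z0,y1,y1,z2,z2]),(z2,[z4,y5,y1,y2,z2]),(z2,[z0,z5,z1,z2,y2])],
    .ref k17 k1 [(z1,[z2,z0,z1,y3,y2]),(z2,[z0,y1,y1,z2,z2]),(z1,[z0,z0,z0,y1]),(z1,[z0,z1,z0,z1])],.ref k2 k2 [(z2,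
    [z8,y3,z1,z2,y2]),(z2,[z0,y1,y1,z2,z2]),(z2,[y4,z1,z1,y2,z2]),(z2,[z0,z5,z1,z2,y2])],.ref k18 k1 [(z1,[y2,z0,z3,
    y3]),(z2,[z0,y1,y1,z2,z2]),(z1,[z0,z0,z0,y1]),(z1,[z0,z1,z0,z1])],.ref k19 k3 [(z2,[y1,z1,z0,z1]),(z1,[z1,z0,z0,
    y1]),(z2,[y4,y1,y1,z2,z2]),(z2,[z1,z0,z1,y1])]],
    .lp k0 [(nat_lit 4134),(nat_lit 4240),(nat_lit 4240),(nat_lit 4560),(nat_lit 4664),(nat_lit 3392)] [(nat_lit 265),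
    (nat_lit 265),(nat_lit 212),(nat_lit 212),(nat_lit 212),(nat_lit 212),k52,k52,k0,k0,(nat_lit 636),
    (nat_lit 636)] k0 [[k0,k0,k0,k0,k0,k0,k0,k0,k0,k0,k0,k0],[k0,k0,k0,k0,k0,k0,k0,k0,k0,k0,k0,k0],[k0,k0,k0,k0,k0,k0,
    k0,k0,k0,k0,k0,k0],[k0,k0,k0,k0,k0,k0,k0,k0,k0,k0,k0,k0],[k0,k0,k0,k0,k0,k0,k0,k0,k0,k0,k0,k0],[k0,k0,k0,k0,k0,k0,
    k0,k0,k0,k0,k0,k0],[k0,k0,k0,k0,k0,k0,k0,k0,k0,k0,k0,k0],[k0,k0,k0,k0,k0,k0,k0,k0,k0,k0,(nat_lit 212),k0],[k0,k0,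
    k0,k0,k0,k0,k0,k0,k0,k0,k0,k0],[k0,k0,k0,k0,k0,k0,k0,k0,k0,k0,k0,k0],[k0,k0,k0,k0,k0,k0,k0,k0,k0,k0,k0,
    (nat_lit 212)],[k0,k0,k0,k0,k0,k0,(nat_lit 212),k0,k0,k0,k0,k0]] (nat_lit 12720) k5
    [[(k10,(nat_lit 3763)),(k11,(nat_lit 3763)),(k9,(nat_lit 4187)),(k1,(nat_lit 4346)),(k6,(nat_lit 4347)),(k8,
    (nat_lit 4399))],[(k0,(nat_lit 4134)),(k2,(nat_lit 4187)),(k3,(nat_lit 4187)),(k4,(nat_lit 4187)),(k5,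
    (nat_lit 4187)),(k7,(nat_lit 4347))],[(k0,(nat_lit 4187)),(k2,(nat_lit 4240)),(k3,(nat_lit 4240)),(k4,
    (nat_lit 4240)),(k5,(nat_lit 4240)),(k7,(nat_lit 4400))],[(k0,(nat_lit 4187)),(k2,(nat_lit 4240)),(k3,
    (nat_lit 4240)),(k4,(nat_lit 4240)),(k5,(nat_lit 4240)),(k7,(nat_lit 4400))],[(k0,(nat_lit 4187)),(k2,
    (nat_lit 4240)),(k3,(nat_lit 4240)),(k4,(nat_lit 4240)),(k5,(nat_lit 4240)),(k7,(nat_lit 4400))],[(k0,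
    (nat_lit 4187)),(k2,(nat_lit 4240)),(k3,(nat_lit 4240)),(k4,(nat_lit 4240)),(k5,(nat_lit 4240)),(k7,
    (nat_lit 4400))],[(k0,(nat_lit 4347)),(k2,(nat_lit 4400)),(k3,(nat_lit 4400)),(k4,(nat_lit 4400)),(k5,
    (nat_lit 4400)),(k7,(nat_lit 4560))],[(k11,(nat_lit 3976)),(k10,(nat_lit 4188)),(k1,(nat_lit 4347)),(k6,
    (nat_lit 4560)),(k8,(nat_lit 4612)),(k9,(nat_lit 4612))],[(k10,(nat_lit 4028)),(k11,(nat_lit 4028)),(k1,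
    (nat_lit 4187)),(k6,(nat_lit 4612)),(k8,(nat_lit 4664)),(k9,(nat_lit 4664))],[(k10,(nat_lit 4028)),(k11,
    (nat_lit 4028)),(k1,(nat_lit 4399)),(k6,(nat_lit 4612)),(k8,(nat_lit 4664)),(k9,(nat_lit 4664))],[(k10,
    (nat_lit 3392)),(k11,(nat_lit 3392)),(k1,(nat_lit 3763)),(k6,(nat_lit 3976)),(k8,(nat_lit 4028)),(k9,
    (nat_lit 4028))],[(k10,(nat_lit 3180)),(k11,(nat_lit 3392)),(k1,(nat_lit 3763)),(k8,(nat_lit 4028)),(k9,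
    (nat_lit 4028)),(k6,(nat_lit 4188))]]
    [[k2,k0,k0,k0,k0,k1],[k1,k0,k0,k1,k0,k1],[k0,k0,k0,k0,k1,k2],[k0,k0,k0,k0,k0,k3]]
    [.ref k1 k0 [(z4,[z3,z1]),(z2,[y3,z1,z2]),(z1,[z0,z0,z0,z1]),(z1,[z0,z0,z0,z0,z1]),(z4,[y3,y1,y4,y4,y4,z12])],
    .ref k1 k0 [(z3,[z3,z1,z0,z0,y1]),(z3,[y6,z1,z3,z0,z2]),(z1,[z0,z0,z0,z1]),(z1,[z0,z0,z0,z0,z1]),(z3,[y3,y1,y3,y3,
    y2,z9])],.ref k1 k0 [(z3,[z3,z2,z1,z1,z1,y3]),(z3,[y6,y1,z1,y2,y2,z6]),(z1,[z0,z0,z0,z1]),(z1,[z0,z0,z0,z0,z1]),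
    (z3,[y3,y2,y4,y4,y4,z12])],.ref k1 k0 [(z2,[z1,z1]),(z1,[y1,z0,z1]),(z1,[z0,z0,z0,z1]),(z1,[z0,z0,z0,z0,z1]),(z2,
    [y1,y1,y2,y2,y2,z6])]],
    .lp k0 [k40,k32,k44,k42,k40,k40] [k2,k2,k6,k6,k0,k0,k1,k1,k2,k2,k2,k2] k0 [[k0,k0,k0,k0,k0,k4,k0,k0,k0,k0,k0,k0],
    [k0,k0,k0,k0,k0,k0,k0,k0,k0,k0,k0,k0],[k0,k0,k0,k0,k0,k0,k0,k0,k0,k0,k0,k0],[k0,k0,k0,k0,k0,k0,k0,k0,k0,k0,k0,k0],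
    [k0,k4,k0,k0,k0,k0,k0,k0,k0,k0,k0,k0],[k0,k0,k0,k0,k0,k0,k0,k0,k0,k0,k0,k0],[k0,k0,k0,k0,k0,k0,k0,k0,k0,k0,k0,k0],
    [k0,k0,k0,k0,k0,k0,k0,k0,k0,k0,k0,k0],[k0,k0,k0,k0,k0,k0,k0,k0,k0,k0,k0,k0],[k0,k0,k0,k0,k0,k0,k0,k0,k0,k0,k0,k0],
    [k0,k0,k0,k0,k0,k0,k0,k0,k0,k0,k0,k0],[k0,k0,k0,k0,k0,k0,k0,k0,k0,k0,k0,k0]] k120 k5
    [[(k1,k40),(k8,k40),(k9,k40),(k10,k40),(k11,k40),(k6,k41)],[(k2,k36),(k3,k36),(k4,k38),(k0,k40),(k7,k41),(k5,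
    k42)],[(k2,k32),(k3,k32),(k0,k36),(k4,k38),(k5,k38),(k7,k41)],[(k2,k32),(k3,k32),(k0,k36),(k7,k37),(k4,k38),(k5,
    k38)],[(k2,k38),(k3,k38),(k0,k42),(k7,k43),(k4,k44),(k5,k44)],[(k0,k38),(k2,k38),(k3,k38),(k7,k43),(k4,k44),(k5,
    k44)],[(k2,k37),(k0,k41),(k3,k41),(k7,k42),(k4,k43),(k5,k43)],[(k1,k41),(k8,k41),(k9,k41),(k10,k41),(k11,k41),(k6,
    k42)],[(k1,k40),(k8,k40),(k9,k40),(k10,k40),(k11,k40),(k6,k41)],[(k1,k40),(k8,k40),(k9,k40),(k10,k40),(k11,k40),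
    (k6,k41)],[(k1,k40),(k8,k40),(k9,k40),(k10,k40),(k11,k40),(k6,k41)],[(k1,k40),(k8,k40),(k9,k40),(k10,k40),(k11,
    k40),(k6,k41)]]
    [[k2,k1,k0,k0,k0,k0],[k1,k1,k0,k1,k0,k0],[k0,k3,k0,k0,k0,k0],[k0,k2,k1,k0,k0,k0]]
    [.ref k1 k0 [(z3,[z6,y1,y2]),(z3,[y3,z2,z4]),(z1,[z0,z0,z0,z1]),(z1,[z0,z0,z0,z0,z1]),(z3,[y6,z1,y1,y3,y3,z9])],
    .ref k1 k0 [(z1,[z6,y1,y2,z0,y2]),(z1,[y3,z1,z2,z0,z1]),(z1,[z0,z0,z0,z1]),(z1,[z0,z0,z0,z0,z1]),(z1,[y6,z1,z1,y1,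
    z1,z3])],.ref k1 k0 [(z1,[y2,z1,z2]),(z1,[z1]),(z1,[z0,z0,z0,z1]),(z1,[z0,z0,z0,z0,z1]),(z1,[z2,y1,y3,y1,y1,z3])],
    .ref k1 k0 [(z1,[y3,z1,z2,z1]),(z2,[z3,z0,z0,y1]),(z1,[z0,z0,z0,z1]),(z1,[z0,z0,z0,z0,z1]),(z1,[z3,y1,y3,y2,y1,
    z3])]],
    .lp k0 [k36,k30,k30,k32,k28,k32] [k0,k0,k3,k3,k3,k3,k2,k2,k4,k4,k2,k2] k0 [[k0,k0,k6,k6,k0,k0,k0,k0,k0,k0,k0,k0],
    [k0,k0,k0,k0,k0,k0,k0,k0,k0,k0,k0,k0],[k0,k6,k0,k0,k6,k0,k0,k0,k0,k0,k0,k0],[k0,k6,k0,k0,k6,k0,k0,k0,k0,k0,k0,k0],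
    [k0,k0,k0,k0,k0,k0,k0,k0,k0,k0,k0,k0],[k0,k0,k6,k6,k0,k0,k0,k0,k0,k0,k0,k0],[k0,k0,k0,k0,k0,k0,k0,k8,k4,k0,k0,k0],
    [k0,k0,k0,k0,k0,k0,k0,k0,k4,k0,k4,k4],[k0,k0,k0,k0,k0,k0,k0,k0,k0,k0,k0,k0],[k0,k0,k0,k0,k0,k0,k4,k4,k0,k0,k0,k0],
    [k0,k0,k0,k0,k0,k0,k4,k0,k0,k0,k0,k0],[k0,k0,k0,k0,k0,k0,k4,k0,k0,k0,k0,k0]] k96 k5
    [[(k9,k28),(k8,k32),(k10,k34),(k11,k34),(k1,k36),(k6,k38)],[(k2,k27),(k5,k27),(k3,k33),(k4,k33),(k7,k34),(k0,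
    k36)],[(k3,k30),(k4,k30),(k7,k31),(k0,k33),(k2,k36),(k5,k36)],[(k7,k25),(k0,k27),(k2,k30),(k5,k30),(k3,k36),(k4,
    k36)],[(k7,k25),(k0,k27),(k2,k30),(k5,k30),(k3,k36),(k4,k36)],[(k3,k30),(k4,k30),(k7,k31),(k0,k33),(k2,k36),(k5,
    k36)],[(k2,k25),(k5,k25),(k3,k31),(k4,k31),(k7,k32),(k0,k34)],[(k6,k24),(k11,k28),(k9,k30),(k8,k34),(k10,k36),(k1,
    k38)],[(k10,k26),(k11,k26),(k1,k28),(k6,k30),(k8,k32),(k9,k36)],[(k8,k28),(k10,k30),(k11,k30),(k1,k32),(k9,k32),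
    (k6,k34)],[(k9,k26),(k6,k28),(k8,k30),(k10,k32),(k11,k32),(k1,k34)],[(k9,k26),(k8,k30),(k10,k32),(k11,k32),(k1,
    k34),(k6,k36)]]
    [[k0,k1,k0,k2,k0,k0],[k0,k0,k1,k2,k0,k0],[k0,k0,k0,k0,k2,k1],[k0,k0,k0,k0,k1,k2]]
    [.ref k3 k0 [(z1,[z0,z1]),(z1,[z0,z0,z1]),(z1,[z0,z0,z0,z1]),(z2,[z3,z0,y1])],.ref k21 k2 [(z1,[z3,z0,z0,y1]),(z1,
    [z0,z0,z0,z1]),(z1,[z0,z0,z1]),(z1,[z0,z1])],.ref k22 k2 [(z1,[y3,y1,y1,y1,z3]),(z1,[z0,z0,z0,z1]),(z1,[z0,z0,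
    z1]),(z1,[z0,z1])],.ref k21 k2 [(z1,[y3,y2,y2,y2,z6]),(z1,[z0,z0,z0,z1]),(z1,[z0,z0,z1]),(z1,[z0,z1])]]]

theorem hB6_124_1 : blkB [0, 0, 0, 1, 1, 1] [] sp6 hS6_124 (pcls (n := 6) [0, 0, 0, 1, 1, 1]) hD6_124 117 1 hN6_124_1 = true := by
  decide +kernel

/-- nodes 24 to 35 -/
noncomputable def hN6_124_2 : List HM :=
  [.lp k0 [(nat_lit 61214),(nat_lit 57600),(nat_lit 57600),(nat_lit 58322),(nat_lit 62660),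
    (nat_lit 48200)] [(nat_lit 723),(nat_lit 723),(nat_lit 2530),(nat_lit 2530),(nat_lit 2530),(nat_lit 2530),
    (nat_lit 2169),(nat_lit 2169),k0,k0,(nat_lit 7230),(nat_lit 7230)] k0 [[k0,k0,(nat_lit 3615),(nat_lit 723),k0,k0,
    k0,k0,k0,k0,k0,k0],[(nat_lit 2892),k0,k0,k0,k0,k0,k0,k0,k0,k0,k0,k0],[k0,(nat_lit 723),k0,k0,(nat_lit 723),k0,k0,
    k0,k0,k0,k0,k0],[k0,(nat_lit 3615),k0,k0,(nat_lit 3615),k0,k0,k0,k0,k0,k0,k0],[k0,k0,k0,k0,k0,k0,k0,k0,k0,k0,k0,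
    k0],[k0,k0,(nat_lit 3615),(nat_lit 723),k0,k0,k0,k0,k0,k0,k0,k0],[k0,k0,k0,k0,k0,k0,k0,k0,k0,k0,k0,k0],[k0,k0,k0,
    k0,k0,k0,k0,k0,k0,k0,(nat_lit 8676),k0],[k0,k0,k0,k0,k0,k0,k0,k0,k0,k0,k0,k0],[k0,k0,k0,k0,k0,k0,k0,k0,k0,k0,k0,
    k0],[k0,k0,k0,k0,k0,k0,k0,k0,k0,k0,k0,k0],[k0,k0,k0,k0,k0,k0,(nat_lit 8676),k0,k0,k0,k0,k0]] (nat_lit 173520) k5
    [[(k9,(nat_lit 53261)),(k10,(nat_lit 54707)),(k11,(nat_lit 54707)),(k6,(nat_lit 59768)),(k1,(nat_lit 61214)),(k8,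
    (nat_lit 61937))],[(k5,(nat_lit 55792)),(k2,(nat_lit 58684)),(k3,(nat_lit 59407)),(k4,(nat_lit 59407)),(k7,
    (nat_lit 59768)),(k0,(nat_lit 64106))],[(k3,(nat_lit 54708)),(k4,(nat_lit 57600)),(k7,(nat_lit 57961)),(k5,
    (nat_lit 58323)),(k0,(nat_lit 59407)),(k2,(nat_lit 61215))],[(k7,(nat_lit 57238)),(k2,(nat_lit 57600)),(k5,
    (nat_lit 57600)),(k0,(nat_lit 58684)),(k3,(nat_lit 61215)),(k4,(nat_lit 61215))],[(k7,(nat_lit 54346)),(k0,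
    (nat_lit 55792)),(k2,(nat_lit 57600)),(k5,(nat_lit 57600)),(k3,(nat_lit 58323)),(k4,(nat_lit 58323))],[(k3,
    (nat_lit 57600)),(k4,(nat_lit 57600)),(k7,(nat_lit 57961)),(k5,(nat_lit 58323)),(k0,(nat_lit 59407)),(k2,
    (nat_lit 61215))],[(k5,(nat_lit 54346)),(k2,(nat_lit 57238)),(k3,(nat_lit 57961)),(k4,(nat_lit 57961)),(k7,
    (nat_lit 58322)),(k0,(nat_lit 59768))],[(k11,(nat_lit 53261)),(k6,(nat_lit 58322)),(k1,(nat_lit 59768)),(k8,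
    (nat_lit 60491)),(k9,(nat_lit 60491)),(k10,(nat_lit 61937))],[(k1,(nat_lit 53261)),(k10,(nat_lit 55430)),(k11,
    (nat_lit 55430)),(k6,(nat_lit 60491)),(k8,(nat_lit 62660)),(k9,(nat_lit 62660))],[(k10,(nat_lit 55430)),(k11,
    (nat_lit 55430)),(k6,(nat_lit 60491)),(k1,(nat_lit 61937)),(k8,(nat_lit 62660)),(k9,(nat_lit 62660))],[(k10,
    (nat_lit 48200)),(k11,(nat_lit 48200)),(k6,(nat_lit 53261)),(k1,(nat_lit 54707)),(k8,(nat_lit 55430)),(k9,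
    (nat_lit 55430))],[(k10,(nat_lit 48200)),(k11,(nat_lit 48200)),(k1,(nat_lit 54707)),(k8,(nat_lit 55430)),(k9,
    (nat_lit 55430)),(k6,(nat_lit 61937))]]
    [[k1,k0,k0,k1,k0,k1],[k0,k0,k1,k2,k0,k0],[k0,k0,k0,k0,k1,k2],[k0,k0,k0,k0,k0,k3]]
    [.ref k4 k0 [(z1,[z0,z1]),(z2,[y2,z1,z1]),(z2,[z0,y1,y1,z2])],.ref k16 k2 [(z2,[z2,z1,z1,y2]),(z2,[z0,y1,y1,z2]),
    (z2,[y2,y1,z1,z2])],.ref k20 k0 [(z1,[z0,z1]),(z1,[z0,z0,z1]),(z2,[y2,y1,y1,z2])],.ref k23 k3 [(z2,[y1,z3]),(z1,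
    [z1]),(z2,[y2,y3,y3,z6])]],
    .base (.spec k4 false k0 [(z1,[z1,z2,z1,z1,y1]),(z1,[z0,z0,z1])]),
    .lp k0 [k74,k80,k80,k80,k78,k84] [k5,k5,k2,k2,k2,k2,k2,k2,k3,k3,k0,k0] k0 [[k0,k0,k0,k0,k0,k0,k0,k0,k0,k0,k0,k0],
    [k16,k0,k0,k0,k0,k0,k0,k0,k0,k0,k0,k0],[k0,k0,k0,k0,k0,k0,k0,k0,k0,k0,k0,k0],[k0,k0,k0,k0,k0,k0,k0,k0,k0,k0,k0,
    k0],[k0,k0,k0,k0,k0,k0,k0,k0,k0,k0,k0,k0],[k0,k0,k0,k0,k0,k0,k0,k0,k0,k0,k0,k0],[k0,k0,k0,k0,k0,k0,k0,k0,k6,k6,k0,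
    k0],[k0,k0,k0,k0,k0,k0,k0,k0,k0,k0,k2,k6],[k0,k0,k0,k0,k0,k0,k0,k6,k0,k0,k0,k0],[k0,k0,k0,k0,k0,k0,k0,k6,k0,k0,k0,
    k0],[k0,k0,k0,k0,k0,k0,k6,k0,k0,k0,k0,k12],[k0,k0,k0,k0,k0,k0,k2,k0,k0,k0,k0,k0]] (nat_lit 240) k5
    [[(k9,k74),(k8,k76),(k10,k79),(k11,k79),(k6,k83),(k1,k86)],[(k2,k77),(k3,k77),(k4,k77),(k5,k77),(k7,k77),(k0,
    k90)],[(k3,k64),(k0,k77),(k2,k80),(k4,k80),(k5,k80),(k7,k80)],[(k0,k77),(k2,k80),(k3,k80),(k4,k80),(k5,k80),(k7,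
    k80)],[(k0,k77),(k2,k80),(k3,k80),(k4,k80),(k5,k80),(k7,k80)],[(k0,k77),(k2,k80),(k3,k80),(k4,k80),(k5,k80),(k7,
    k80)],[(k0,k77),(k2,k80),(k3,k80),(k4,k80),(k5,k80),(k7,k80)],[(k8,k73),(k11,k76),(k9,k79),(k6,k80),(k1,k83),(k10,
    k84)],[(k1,k74),(k10,k75),(k9,k78),(k6,k79),(k8,k84),(k11,k87)],[(k6,k73),(k1,k76),(k8,k78),(k10,k81),(k11,k81),
    (k9,k84)],[(k6,k76),(k1,k79),(k8,k81),(k10,k84),(k11,k84),(k9,k87)],[(k10,k72),(k9,k75),(k1,k79),(k8,k81),(k6,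
    k84),(k11,k84)]]
    [[k1,k0,k0,k1,k1,k0],[k1,k0,k0,k1,k0,k1],[k0,k3,k0,k0,k0,k0],[k0,k2,k1,k0,k0,k0],[k0,k0,k0,k2,k1,k0]]
    [.ref k1 k0 [(z1,[y2,z3,y2,y1,z0,z2]),(z1,[z4,z0,z7,z2,z0,y4]),(z1,[y5,z0,y5,y1,z0,z5]),(z2,[z2,z0,z2,z1,z3,y2]),
    (z2,[z8,y6,z2,z1,y3,y2])],.ref k1 k0 [(z1,[z2,z1,z0,z0,y1]),(z1,[y4,z4,z3,z0,z2]),(z2,[z10,y10,z0,z3,y5]),(z1,[y1,
    z1,z0,z0,z2]),(z2,[y8,z2,y6,y3,z1,z6])],.ref k1 k0 [(z2,[y1,z6,z3]),(z1,[z1]),(z4,[y5,z0,z15,z6]),(z4,[z1,z0,y3,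
    z0,z6]),(z2,[z2,y6,y12,y3,y3,z6])],.ref k1 k0 [(z1,[y2,z3,z4,z1]),(z1,[z4,z0,y5,y2]),(z1,[y5,z0,z10,z4]),(z2,[z2,
    z0,y4,y1,z3]),(z2,[z8,y6,y22,y7,y3,z6])],.ref k1 k0 [(z2,[y2,z4,y2,y1,z1,z2]),(z1,[z2,z2,z5,z1,y1,y2]),(z4,[y10,
    y10,y10,z1,z5,z10]),(z4,[z2,z2,z2,z1,z5,y2]),(z2,[z4,y2,y2,y1,y5,z2])]],
    .lp k0 [k32,k32,k32,k30,k32,k30] [k0,k0,k0,k0,k0,k0,k1,k1,k0,k0,k1,k1] k0 [[k0,k0,k0,k0,k0,k0,k0,k0,k0,k0,k0,k0],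
    [k0,k0,k0,k0,k0,k0,k0,k0,k0,k0,k0,k0],[k0,k0,k0,k0,k0,k0,k0,k0,k0,k0,k0,k0],[k0,k0,k0,k0,k0,k0,k0,k0,k0,k0,k0,k0],
    [k0,k0,k0,k0,k0,k0,k0,k0,k0,k0,k0,k0],[k0,k0,k0,k0,k0,k0,k0,k0,k0,k0,k0,k0],[k0,k0,k0,k0,k0,k0,k0,k0,k4,k4,k0,k6],
    [k0,k0,k0,k0,k0,k0,k4,k0,k0,k0,k0,k2],[k0,k0,k0,k0,k0,k0,k0,k4,k0,k0,k6,k0],[k0,k0,k0,k0,k0,k0,k0,k4,k0,k0,k6,k0],
    [k0,k0,k0,k0,k0,k0,k2,k6,k0,k0,k0,k0],[k0,k0,k0,k0,k0,k0,k0,k0,k6,k6,k0,k0]] k96 k5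
    [[(k11,k25),(k8,k26),(k10,k31),(k1,k32),(k6,k33),(k9,k38)],[(k7,k31),(k0,k32),(k2,k32),(k3,k32),(k4,k32),(k5,
    k32)],[(k7,k31),(k0,k32),(k2,k32),(k3,k32),(k4,k32),(k5,k32)],[(k7,k31),(k0,k32),(k2,k32),(k3,k32),(k4,k32),(k5,
    k32)],[(k7,k31),(k0,k32),(k2,k32),(k3,k32),(k4,k32),(k5,k32)],[(k7,k31),(k0,k32),(k2,k32),(k3,k32),(k4,k32),(k5,
    k32)],[(k7,k30),(k0,k31),(k2,k31),(k3,k31),(k4,k31),(k5,k31)],[(k10,k24),(k11,k26),(k8,k27),(k9,k31),(k1,k33),(k6,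
    k34)],[(k9,k28),(k10,k29),(k6,k31),(k11,k35),(k8,k36),(k1,k38)],[(k1,k26),(k6,k27),(k11,k31),(k8,k32),(k9,k36),
    (k10,k37)],[(k1,k25),(k6,k26),(k11,k30),(k8,k31),(k9,k35),(k10,k36)],[(k6,k24),(k9,k29),(k10,k30),(k1,k31),(k11,
    k36),(k8,k37)]]
    [[k1,k0,k0,k1,k1,k0],[k2,k0,k0,k0,k0,k1],[k1,k0,k0,k1,k0,k1],[k0,k0,k0,k2,k1,k0],[k0,k0,k0,k2,k0,k1]]
    [.ref k25 k0 [(z1,[z0,z1]),(z1,[z0,z0,z1]),(z1,[y1,z0,y1,z0,z1]),(z1,[z1,z0,z1,z1,y1])],.ref k9 k3 [(z1,[z1,z1]),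
    (z1,[z1,y2]),(z1,[y2,z1,y3,y3,z3]),(z1,[z2,y4,z0,z3])],.ref k19 k0 [(z1,[z0,z1]),(z1,[z0,z0,z1]),(z1,[y1,z1,z0,
    z1]),(z1,[z1,y1])],.ref k25 k0 [(z1,[z0,z1]),(z1,[z0,z0,z1]),(z2,[y1,y1,y1,z1,z1]),(z2,[z1,z1,z1,z1,y1])],
    .ref k26 k0 [(z1,[z0,z1]),(z1,[z0,z0,z1]),(z1,[y1,z0,z0,z2]),(z1,[z1])]],
    .lp k0 [k82,k80,k84,k68,k78,k84] [k1,k1,k2,k2,k0,k0,k8,k8,k3,k3,k0,k0] k0 [[k0,k0,k0,k16,k0,k0,k0,k0,k0,k0,k0,k0],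
    [k0,k0,k0,k0,k12,k20,k0,k0,k0,k0,k0,k0],[k0,k16,k0,k0,k12,k0,k0,k0,k0,k0,k0,k0],[k0,k0,k0,k0,k12,k0,k0,k0,k0,k0,
    k0,k0],[k20,k0,k0,k0,k0,k24,k0,k0,k0,k0,k0,k0],[k12,k0,k12,k12,k0,k0,k0,k0,k0,k0,k0,k0],[k0,k0,k0,k0,k0,k0,k0,k0,
    k6,k6,k0,k0],[k0,k0,k0,k0,k0,k0,k0,k0,k0,k0,k2,k6],[k0,k0,k0,k0,k0,k0,k0,k6,k0,k0,k0,k0],[k0,k0,k0,k0,k0,k0,k0,k6,
    k0,k0,k0,k0],[k0,k0,k0,k0,k0,k0,k6,k0,k0,k0,k0,k12],[k0,k0,k0,k0,k0,k0,k2,k0,k0,k0,k0,k0]] (nat_lit 240) k5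
    [[(k9,k78),(k8,k80),(k6,k81),(k10,k83),(k11,k83),(k1,k94)],[(k2,k65),(k3,k81),(k0,k82),(k5,k83),(k4,k95),(k7,
    k95)],[(k4,k62),(k7,k62),(k2,k80),(k3,k80),(k0,k81),(k5,k98)],[(k7,k62),(k0,k65),(k2,k80),(k3,k80),(k5,k82),(k4,
    k94)],[(k7,k64),(k2,k82),(k0,k83),(k5,k84),(k4,k96),(k3,k98)],[(k4,k60),(k3,k62),(k7,k76),(k2,k94),(k0,k95),(k5,
    k96)],[(k2,k62),(k3,k62),(k5,k64),(k4,k76),(k7,k92),(k0,k95)],[(k8,k67),(k6,k68),(k11,k70),(k9,k73),(k10,k78),(k1,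
    k81)],[(k6,k73),(k10,k75),(k1,k78),(k9,k78),(k8,k84),(k11,k87)],[(k6,k67),(k8,k78),(k1,k80),(k10,k81),(k11,k81),
    (k9,k84)],[(k6,k70),(k8,k81),(k1,k83),(k10,k84),(k11,k84),(k9,k87)],[(k10,k72),(k9,k75),(k6,k78),(k8,k81),(k1,
    k83),(k11,k84)]]
    [[k1,k1,k0,k1,k0,k0],[k0,k2,k1,k0,k0,k0],[k0,k1,k0,k2,k0,k0],[k0,k0,k1,k2,k0,k0],[k0,k0,k0,k2,k1,k0]]
    [.ref k1 k0 [(z1,[z0,z1]),(z1,[z0,z0,z1]),(z2,[y3,z1,z1,z2,z1]),(z1,[z3,y1,y1]),(z1,[y3,z0,z0,y1,z0,z3])],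
    .ref k1 k0 [(z1,[z0,z1]),(z1,[z0,z0,z1]),(z1,[z3,z0,y2]),(z1,[y6,z0,z4,z2,z1]),(z1,[z6,y1,y5,y3,y1,z3])],
    .ref k1 k0 [(z1,[z0,z1]),(z1,[z0,z0,z1]),(z4,[y3,z0,z1,z4,z2]),(z2,[z3,z0,y1]),(z2,[y3,y2,y1,y2,z0,z6])],
    .ref k1 k0 [(z1,[z0,z1]),(z1,[z0,z0,z1]),(z3,[y3,z0,z0,z4,z2]),(z3,[z6,z0,z0,y2,y1]),(z3,[y6,y3,y3,y1,z1,z9])],
    .ref k1 k0 [(z1,[z0,z1]),(z1,[z0,z0,z1]),(z2,[y3,y1,y1,z1,z1,z3]),(z1,[z3,z1,z1,z1,z0,y3]),(z1,[y3,y2,y2,y2,z0,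
    z6])]],
    .lp k0 [(nat_lit 61214),(nat_lit 57600),(nat_lit 57600),(nat_lit 58322),(nat_lit 62660),
    (nat_lit 48200)] [(nat_lit 723),(nat_lit 723),(nat_lit 2530),(nat_lit 2530),(nat_lit 2530),(nat_lit 2530),
    (nat_lit 2169),(nat_lit 2169),k0,k0,(nat_lit 7230),(nat_lit 7230)] k0 [[k0,k0,(nat_lit 3615),(nat_lit 723),k0,k0,
    k0,k0,k0,k0,k0,k0],[(nat_lit 2892),k0,k0,k0,k0,k0,k0,k0,k0,k0,k0,k0],[k0,(nat_lit 723),k0,k0,(nat_lit 723),k0,k0,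
    k0,k0,k0,k0,k0],[k0,(nat_lit 3615),k0,k0,(nat_lit 3615),k0,k0,k0,k0,k0,k0,k0],[k0,k0,k0,k0,k0,k0,k0,k0,k0,k0,k0,
    k0],[k0,k0,(nat_lit 3615),(nat_lit 723),k0,k0,k0,k0,k0,k0,k0,k0],[k0,k0,k0,k0,k0,k0,k0,k0,k0,k0,k0,k0],[k0,k0,k0,
    k0,k0,k0,k0,k0,k0,k0,(nat_lit 8676),k0],[k0,k0,k0,k0,k0,k0,k0,k0,k0,k0,k0,k0],[k0,k0,k0,k0,k0,k0,k0,k0,k0,k0,k0,
    k0],[k0,k0,k0,k0,k0,k0,k0,k0,k0,k0,k0,k0],[k0,k0,k0,k0,k0,k0,(nat_lit 8676),k0,k0,k0,k0,k0]] (nat_lit 173520) k5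
    [[(k9,(nat_lit 53261)),(k10,(nat_lit 54707)),(k11,(nat_lit 54707)),(k6,(nat_lit 59768)),(k1,(nat_lit 61214)),(k8,
    (nat_lit 61937))],[(k5,(nat_lit 55792)),(k2,(nat_lit 58684)),(k3,(nat_lit 59407)),(k4,(nat_lit 59407)),(k7,
    (nat_lit 59768)),(k0,(nat_lit 64106))],[(k3,(nat_lit 54708)),(k4,(nat_lit 57600)),(k7,(nat_lit 57961)),(k5,
    (nat_lit 58323)),(k0,(nat_lit 59407)),(k2,(nat_lit 61215))],[(k7,(nat_lit 57238)),(k2,(nat_lit 57600)),(k5,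
    (nat_lit 57600)),(k0,(nat_lit 58684)),(k3,(nat_lit 61215)),(k4,(nat_lit 61215))],[(k7,(nat_lit 54346)),(k0,
    (nat_lit 55792)),(k2,(nat_lit 57600)),(k5,(nat_lit 57600)),(k3,(nat_lit 58323)),(k4,(nat_lit 58323))],[(k3,
    (nat_lit 57600)),(k4,(nat_lit 57600)),(k7,(nat_lit 57961)),(k5,(nat_lit 58323)),(k0,(nat_lit 59407)),(k2,
    (nat_lit 61215))],[(k5,(nat_lit 54346)),(k2,(nat_lit 57238)),(k3,(nat_lit 57961)),(k4,(nat_lit 57961)),(k7,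
    (nat_lit 58322)),(k0,(nat_lit 59768))],[(k11,(nat_lit 53261)),(k6,(nat_lit 58322)),(k1,(nat_lit 59768)),(k8,
    (nat_lit 60491)),(k9,(nat_lit 60491)),(k10,(nat_lit 61937))],[(k1,(nat_lit 53261)),(k10,(nat_lit 55430)),(k11,
    (nat_lit 55430)),(k6,(nat_lit 60491)),(k8,(nat_lit 62660)),(k9,(nat_lit 62660))],[(k10,(nat_lit 55430)),(k11,
    (nat_lit 55430)),(k6,(nat_lit 60491)),(k1,(nat_lit 61937)),(k8,(nat_lit 62660)),(k9,(nat_lit 62660))],[(k10,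
    (nat_lit 48200)),(k11,(nat_lit 48200)),(k6,(nat_lit 53261)),(k1,(nat_lit 54707)),(k8,(nat_lit 55430)),(k9,
    (nat_lit 55430))],[(k10,(nat_lit 48200)),(k11,(nat_lit 48200)),(k1,(nat_lit 54707)),(k8,(nat_lit 55430)),(k9,
    (nat_lit 55430)),(k6,(nat_lit 61937))]]
    [[k1,k0,k0,k1,k0,k1],[k0,k0,k1,k2,k0,k0],[k0,k0,k0,k0,k1,k2],[k0,k0,k0,k0,k0,k3]]
    [.ref k25 k3 [(z2,[y1,z1,y3,y1,z1]),(z1,[z1,z0,z3,z1,y1]),(z1,[y1,z0,y2,y1,z1]),(z2,[z1,y1,y3,y1,z1])],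
    .ref k25 k3 [(z2,[y1,z0,y4,y1,z2]),(z1,[z1,z1,z4,z1,y2]),(z1,[y1,y1,y3,y1,z2]),(z2,[z1,z0,y2,y1])],
    .ref k10 k0 [(z1,[z0,z1]),(z1,[y1,z0,z1]),(z1,[z2,z0,z0,z1]),(z1,[y4,y1,y2,y2,z2])],.ref k28 k3 [(z2,[y1,z3]),(z1,
    [z1]),(z1,[y1,z0,z3]),(z2,[z1,y3,y18,y6,z6])]],
    .lp k0 [(nat_lit 61214),(nat_lit 57600),(nat_lit 57600),(nat_lit 58322),(nat_lit 62660),
    (nat_lit 48200)] [(nat_lit 723),(nat_lit 723),(nat_lit 2530),(nat_lit 2530),(nat_lit 2530),(nat_lit 2530),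
    (nat_lit 2169),(nat_lit 2169),k0,k0,(nat_lit 7230),(nat_lit 7230)] k0 [[k0,k0,(nat_lit 3615),(nat_lit 723),k0,k0,
    k0,k0,k0,k0,k0,k0],[(nat_lit 2892),k0,k0,k0,k0,k0,k0,k0,k0,k0,k0,k0],[k0,(nat_lit 723),k0,k0,(nat_lit 723),k0,k0,
    k0,k0,k0,k0,k0],[k0,(nat_lit 3615),k0,k0,(nat_lit 3615),k0,k0,k0,k0,k0,k0,k0],[k0,k0,k0,k0,k0,k0,k0,k0,k0,k0,k0,
    k0],[k0,k0,(nat_lit 3615),(nat_lit 723),k0,k0,k0,k0,k0,k0,k0,k0],[k0,k0,k0,k0,k0,k0,k0,k0,k0,k0,k0,k0],[k0,k0,k0,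
    k0,k0,k0,k0,k0,k0,k0,(nat_lit 8676),k0],[k0,k0,k0,k0,k0,k0,k0,k0,k0,k0,k0,k0],[k0,k0,k0,k0,k0,k0,k0,k0,k0,k0,k0,
    k0],[k0,k0,k0,k0,k0,k0,k0,k0,k0,k0,k0,k0],[k0,k0,k0,k0,k0,k0,(nat_lit 8676),k0,k0,k0,k0,k0]] (nat_lit 173520) k5
    [[(k9,(nat_lit 53261)),(k10,(nat_lit 54707)),(k11,(nat_lit 54707)),(k6,(nat_lit 59768)),(k1,(nat_lit 61214)),(k8,
    (nat_lit 61937))],[(k5,(nat_lit 55792)),(k2,(nat_lit 58684)),(k3,(nat_lit 59407)),(k4,(nat_lit 59407)),(k7,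
    (nat_lit 59768)),(k0,(nat_lit 64106))],[(k3,(nat_lit 54708)),(k4,(nat_lit 57600)),(k7,(nat_lit 57961)),(k5,
    (nat_lit 58323)),(k0,(nat_lit 59407)),(k2,(nat_lit 61215))],[(k7,(nat_lit 57238)),(k2,(nat_lit 57600)),(k5,
    (nat_lit 57600)),(k0,(nat_lit 58684)),(k3,(nat_lit 61215)),(k4,(nat_lit 61215))],[(k7,(nat_lit 54346)),(k0,
    (nat_lit 55792)),(k2,(nat_lit 57600)),(k5,(nat_lit 57600)),(k3,(nat_lit 58323)),(k4,(nat_lit 58323))],[(k3,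
    (nat_lit 57600)),(k4,(nat_lit 57600)),(k7,(nat_lit 57961)),(k5,(nat_lit 58323)),(k0,(nat_lit 59407)),(k2,
    (nat_lit 61215))],[(k5,(nat_lit 54346)),(k2,(nat_lit 57238)),(k3,(nat_lit 57961)),(k4,(nat_lit 57961)),(k7,
    (nat_lit 58322)),(k0,(nat_lit 59768))],[(k11,(nat_lit 53261)),(k6,(nat_lit 58322)),(k1,(nat_lit 59768)),(k8,
    (nat_lit 60491)),(k9,(nat_lit 60491)),(k10,(nat_lit 61937))],[(k1,(nat_lit 53261)),(k10,(nat_lit 55430)),(k11,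
    (nat_lit 55430)),(k6,(nat_lit 60491)),(k8,(nat_lit 62660)),(k9,(nat_lit 62660))],[(k10,(nat_lit 55430)),(k11,
    (nat_lit 55430)),(k6,(nat_lit 60491)),(k1,(nat_lit 61937)),(k8,(nat_lit 62660)),(k9,(nat_lit 62660))],[(k10,
    (nat_lit 48200)),(k11,(nat_lit 48200)),(k6,(nat_lit 53261)),(k1,(nat_lit 54707)),(k8,(nat_lit 55430)),(k9,
    (nat_lit 55430))],[(k10,(nat_lit 48200)),(k11,(nat_lit 48200)),(k1,(nat_lit 54707)),(k8,(nat_lit 55430)),(k9,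
    (nat_lit 55430)),(k6,(nat_lit 61937))]]
    [[k1,k0,k0,k1,k0,k1],[k0,k0,k1,k2,k0,k0],[k0,k0,k0,k0,k1,k2],[k0,k0,k0,k0,k0,k3]]
    [.ref k2 k1 [(z1,[z2,y2,y1,y3,z2]),(z1,[y2,z0,y1,y1,z2]),(z1,[z2,z0,z1,z3,y2]),(z1,[y2,z2,y1,y3,z2])],
    .ref k6 k2 [(z1,[z0,y1,y1,y2,z2]),(z1,[z1,z1,z1,z2,y2]),(z1,[y1,y1,z0,y1,z2]),(z2,[z1,z2,z1,z1,y2])],
    .ref k19 k3 [(z2,[y1,z1,y1]),(z1,[z1,z0,z1]),(z1,[y1,z0,y2]),(z2,[z1,y1,z1,y2,z2])],.ref k21 k1 [(z1,[z1,y3,y3,y9,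
    z6]),(z1,[y1,z0,z0,z3]),(z1,[z1]),(z2,[y1,z3])]],
    .base (.spec k11 false k0 [(z1,[z2,z1]),(z1,[y1]),(z1,[y1,y1,z1,z1]),(z1,[z0,z0,y1])]),
    .lp k0 [k26,k32,k32,k32,k30,k36] [k5,k5,k2,k2,k2,k2,k2,k2,k3,k3,k0,k0] k0 [[k0,k0,k0,k0,k0,k0,k0,k0,k0,k0,k0,k0],
    [k0,k0,k0,k0,k0,k0,k0,k0,k0,k0,k0,k0],[k0,k0,k0,k0,k0,k0,k0,k0,k0,k0,k0,k0],[k0,k0,k0,k0,k0,k0,k0,k0,k0,k0,k0,k0],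
    [k0,k0,k0,k0,k0,k0,k0,k0,k0,k0,k0,k0],[k0,k0,k0,k0,k0,k0,k0,k0,k0,k0,k0,k0],[k0,k0,k0,k0,k0,k0,k0,k0,k6,k6,k0,k0],
    [k0,k0,k0,k0,k0,k0,k0,k0,k0,k0,k2,k6],[k0,k0,k0,k0,k0,k0,k0,k6,k0,k0,k0,k0],[k0,k0,k0,k0,k0,k0,k0,k6,k0,k0,k0,k0],
    [k0,k0,k0,k0,k0,k0,k6,k0,k0,k0,k0,k12],[k0,k0,k0,k0,k0,k0,k2,k0,k0,k0,k0,k0]] k96 k5
    [[(k9,k26),(k8,k28),(k10,k31),(k11,k31),(k6,k35),(k1,k38)],[(k0,k26),(k2,k29),(k3,k29),(k4,k29),(k5,k29),(k7,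
    k29)],[(k0,k29),(k2,k32),(k3,k32),(k4,k32),(k5,k32),(k7,k32)],[(k0,k29),(k2,k32),(k3,k32),(k4,k32),(k5,k32),(k7,
    k32)],[(k0,k29),(k2,k32),(k3,k32),(k4,k32),(k5,k32),(k7,k32)],[(k0,k29),(k2,k32),(k3,k32),(k4,k32),(k5,k32),(k7,
    k32)],[(k0,k29),(k2,k32),(k3,k32),(k4,k32),(k5,k32),(k7,k32)],[(k8,k25),(k11,k28),(k9,k31),(k6,k32),(k1,k35),(k10,
    k36)],[(k1,k26),(k10,k27),(k9,k30),(k6,k31),(k8,k36),(k11,k39)],[(k6,k25),(k1,k28),(k8,k30),(k10,k33),(k11,k33),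
    (k9,k36)],[(k6,k28),(k1,k31),(k8,k33),(k10,k36),(k11,k36),(k9,k39)],[(k10,k24),(k9,k27),(k1,k31),(k8,k33),(k6,
    k36),(k11,k36)]]
    [[k2,k0,k0,k0,k1,k0],[k1,k0,k0,k1,k1,k0],[k2,k0,k0,k0,k0,k1],[k1,k0,k0,k1,k0,k1],[k0,k0,k0,k2,k1,k0]]
    [.ref k27 k0 [(z2,[z1,z1,z1,y1]),(z1,[y1,z1,z0,z1]),(z2,[z1,y1,z1,y1])],.ref k29 k3 [(z1,[z0,z2,z1]),(z1,[y1,z0,
    z0,z1]),(z1,[z2,y1,y1,y1])],.ref k11 k1 [(z1,[z2,y4,y1]),(z1,[y2,z3,z1,z1]),(z1,[z1,y2,y1])],.ref k30 k3 [(z1,[z0,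
    z2,z1]),(z1,[z1,y1,y1]),(z1,[y1,z0,z0,z1])],.ref k31 k0 [(z2,[z1,z3,z1,y1]),(z1,[y1,y1,z0,z1]),(z2,[z1,z1,z1,
    y1])]],
    .lp k0 [(nat_lit 61214),(nat_lit 57600),(nat_lit 57600),(nat_lit 58322),(nat_lit 62660),
    (nat_lit 48200)] [(nat_lit 723),(nat_lit 723),(nat_lit 2530),(nat_lit 2530),(nat_lit 2530),(nat_lit 2530),
    (nat_lit 2169),(nat_lit 2169),k0,k0,(nat_lit 7230),(nat_lit 7230)] k0 [[k0,k0,(nat_lit 3615),(nat_lit 723),k0,k0,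
    k0,k0,k0,k0,k0,k0],[(nat_lit 2892),k0,k0,k0,k0,k0,k0,k0,k0,k0,k0,k0],[k0,(nat_lit 723),k0,k0,(nat_lit 723),k0,k0,
    k0,k0,k0,k0,k0],[k0,(nat_lit 3615),k0,k0,(nat_lit 3615),k0,k0,k0,k0,k0,k0,k0],[k0,k0,k0,k0,k0,k0,k0,k0,k0,k0,k0,
    k0],[k0,k0,(nat_lit 3615),(nat_lit 723),k0,k0,k0,k0,k0,k0,k0,k0],[k0,k0,k0,k0,k0,k0,k0,k0,k0,k0,k0,k0],[k0,k0,k0,
    k0,k0,k0,k0,k0,k0,k0,(nat_lit 8676),k0],[k0,k0,k0,k0,k0,k0,k0,k0,k0,k0,k0,k0],[k0,k0,k0,k0,k0,k0,k0,k0,k0,k0,k0,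
    k0],[k0,k0,k0,k0,k0,k0,k0,k0,k0,k0,k0,k0],[k0,k0,k0,k0,k0,k0,(nat_lit 8676),k0,k0,k0,k0,k0]] (nat_lit 173520) k5
    [[(k9,(nat_lit 53261)),(k10,(nat_lit 54707)),(k11,(nat_lit 54707)),(k6,(nat_lit 59768)),(k1,(nat_lit 61214)),(k8,
    (nat_lit 61937))],[(k5,(nat_lit 55792)),(k2,(nat_lit 58684)),(k3,(nat_lit 59407)),(k4,(nat_lit 59407)),(k7,
    (nat_lit 59768)),(k0,(nat_lit 64106))],[(k3,(nat_lit 54708)),(k4,(nat_lit 57600)),(k7,(nat_lit 57961)),(k5,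
    (nat_lit 58323)),(k0,(nat_lit 59407)),(k2,(nat_lit 61215))],[(k7,(nat_lit 57238)),(k2,(nat_lit 57600)),(k5,
    (nat_lit 57600)),(k0,(nat_lit 58684)),(k3,(nat_lit 61215)),(k4,(nat_lit 61215))],[(k7,(nat_lit 54346)),(k0,
    (nat_lit 55792)),(k2,(nat_lit 57600)),(k5,(nat_lit 57600)),(k3,(nat_lit 58323)),(k4,(nat_lit 58323))],[(k3,
    (nat_lit 57600)),(k4,(nat_lit 57600)),(k7,(nat_lit 57961)),(k5,(nat_lit 58323)),(k0,(nat_lit 59407)),(k2,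
    (nat_lit 61215))],[(k5,(nat_lit 54346)),(k2,(nat_lit 57238)),(k3,(nat_lit 57961)),(k4,(nat_lit 57961)),(k7,
    (nat_lit 58322)),(k0,(nat_lit 59768))],[(k11,(nat_lit 53261)),(k6,(nat_lit 58322)),(k1,(nat_lit 59768)),(k8,
    (nat_lit 60491)),(k9,(nat_lit 60491)),(k10,(nat_lit 61937))],[(k1,(nat_lit 53261)),(k10,(nat_lit 55430)),(k11,
    (nat_lit 55430)),(k6,(nat_lit 60491)),(k8,(nat_lit 62660)),(k9,(nat_lit 62660))],[(k10,(nat_lit 55430)),(k11,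
    (nat_lit 55430)),(k6,(nat_lit 60491)),(k1,(nat_lit 61937)),(k8,(nat_lit 62660)),(k9,(nat_lit 62660))],[(k10,
    (nat_lit 48200)),(k11,(nat_lit 48200)),(k6,(nat_lit 53261)),(k1,(nat_lit 54707)),(k8,(nat_lit 55430)),(k9,
    (nat_lit 55430))],[(k10,(nat_lit 48200)),(k11,(nat_lit 48200)),(k1,(nat_lit 54707)),(k8,(nat_lit 55430)),(k9,
    (nat_lit 55430)),(k6,(nat_lit 61937))]]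
    [[k1,k0,k0,k1,k0,k1],[k0,k0,k1,k2,k0,k0],[k0,k0,k0,k0,k1,k2],[k0,k0,k0,k0,k0,k3]]
    [.ref k1 k0 [(z4,[y6,z9,z0,z0,z1]),(z1,[z0,z0,z1]),(z1,[z0,z0,z0,z1]),(z4,[z6,y3,z0,z0,z1]),(z1,[y3,z0,y1,y1,z0,
    z3])],.ref k1 k0 [(z2,[y3,z3,z0,z1,z1]),(z1,[z0,z0,z1]),(z1,[z0,z0,z0,z1]),(z2,[z3,z0,z0,y1]),(z2,[y6,y3,y2,z0,z1,
    z6])],.ref k1 k0 [(z4,[y6,z3,y2,y2,y1,z6]),(z1,[z0,z0,z1]),(z1,[z0,z0,z0,z1]),(z4,[z6,z3,z2,z2,z3,y6]),(z1,[y3,y3,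
    y2,y2,y1,z6])],.ref k1 k0 [(z2,[y1,z3]),(z1,[z0,z0,z1]),(z1,[z0,z0,z0,z1]),(z2,[z1,z0,z0,z0,z1]),(z2,[y2,y3,y2,y2,
    y1,z6])]],
    .lp k0 [k36,k30,k30,k32,k28,k32] [k0,k0,k3,k3,k3,k3,k2,k2,k4,k4,k2,k2] k0 [[k0,k0,k6,k6,k0,k0,k0,k0,k0,k0,k0,k0],
    [k0,k0,k0,k0,k0,k0,k0,k0,k0,k0,k0,k0],[k0,k6,k0,k0,k6,k0,k0,k0,k0,k0,k0,k0],[k0,k6,k0,k0,k6,k0,k0,k0,k0,k0,k0,k0],
    [k0,k0,k0,k0,k0,k0,k0,k0,k0,k0,k0,k0],[k0,k0,k6,k6,k0,k0,k0,k0,k0,k0,k0,k0],[k0,k0,k0,k0,k0,k0,k0,k8,k4,k0,k0,k0],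
    [k0,k0,k0,k0,k0,k0,k0,k0,k4,k0,k4,k4],[k0,k0,k0,k0,k0,k0,k0,k0,k0,k0,k0,k0],[k0,k0,k0,k0,k0,k0,k4,k4,k0,k0,k0,k0],
    [k0,k0,k0,k0,k0,k0,k4,k0,k0,k0,k0,k0],[k0,k0,k0,k0,k0,k0,k4,k0,k0,k0,k0,k0]] k96 k5
    [[(k9,k28),(k8,k32),(k10,k34),(k11,k34),(k1,k36),(k6,k38)],[(k2,k27),(k5,k27),(k3,k33),(k4,k33),(k7,k34),(k0,
    k36)],[(k3,k30),(k4,k30),(k7,k31),(k0,k33),(k2,k36),(k5,k36)],[(k7,k25),(k0,k27),(k2,k30),(k5,k30),(k3,k36),(k4,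
    k36)],[(k7,k25),(k0,k27),(k2,k30),(k5,k30),(k3,k36),(k4,k36)],[(k3,k30),(k4,k30),(k7,k31),(k0,k33),(k2,k36),(k5,
    k36)],[(k2,k25),(k5,k25),(k3,k31),(k4,k31),(k7,k32),(k0,k34)],[(k6,k24),(k11,k28),(k9,k30),(k8,k34),(k10,k36),(k1,
    k38)],[(k10,k26),(k11,k26),(k1,k28),(k6,k30),(k8,k32),(k9,k36)],[(k8,k28),(k10,k30),(k11,k30),(k1,k32),(k9,k32),
    (k6,k34)],[(k9,k26),(k6,k28),(k8,k30),(k10,k32),(k11,k32),(k1,k34)],[(k9,k26),(k8,k30),(k10,k32),(k11,k32),(k1,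
    k34),(k6,k36)]]
    [[k0,k1,k0,k2,k0,k0],[k0,k0,k1,k2,k0,k0],[k0,k0,k0,k0,k2,k1],[k0,k0,k0,k0,k1,k2]]
    [.ref k1 k0 [(z4,[y3,z12,z3,z0,z2]),(z2,[z3,z0,z3,z0,y2]),(z4,[y3,z0,z3,z12,z2]),(z4,[z3,z0,y3,z0,z2]),(z4,[y3,z0,
    z3,z0,z2])],.ref k1 k0 [(z1,[y3,z3,z0,z3,z2]),(z1,[z6,z0,z3,y6,y4]),(z1,[y3,z0,z0,z6,z2]),(z1,[z3,z0,z0,y3,y1]),
    (z1,[y3,z0,z0,z3,z2])],.ref k1 k0 [(z2,[z3,z9,z3,z3,z1,y3]),(z1,[y3,y3,z0,y3,y1,z3]),(z2,[z3,z3,z3,z9,z1,y3]),(z2,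
    [y3,y3,y3,y3,z1,z3]),(z2,[z3,z3,z3,z3,z1,y3])],.ref k1 k0 [(z1,[z3,z9,z6,z6,z2,y6]),(z1,[y6,y12,y9,y12,y4,z12]),
    (z1,[z3,z6,z6,z9,z2,y6]),(z1,[y3,y6,y6,y6,y1,z6]),(z1,[z3,z6,z6,z6,z2,y6])]],
    .lp k0 [(nat_lit 4134),(nat_lit 4240),(nat_lit 4240),(nat_lit 4560),(nat_lit 4664),(nat_lit 3392)] [(nat_lit 265),
    (nat_lit 265),(nat_lit 212),(nat_lit 212),(nat_lit 212),(nat_lit 212),k52,k52,k0,k0,(nat_lit 636),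
    (nat_lit 636)] k0 [[k0,k0,k0,k0,k0,k0,k0,k0,k0,k0,k0,k0],[k0,k0,k0,k0,k0,k0,k0,k0,k0,k0,k0,k0],[k0,k0,k0,k0,k0,k0,
    k0,k0,k0,k0,k0,k0],[k0,k0,k0,k0,k0,k0,k0,k0,k0,k0,k0,k0],[k0,k0,k0,k0,k0,k0,k0,k0,k0,k0,k0,k0],[k0,k0,k0,k0,k0,k0,
    k0,k0,k0,k0,k0,k0],[k0,k0,k0,k0,k0,k0,k0,k0,k0,k0,k0,k0],[k0,k0,k0,k0,k0,k0,k0,k0,k0,k0,(nat_lit 212),k0],[k0,k0,
    k0,k0,k0,k0,k0,k0,k0,k0,k0,k0],[k0,k0,k0,k0,k0,k0,k0,k0,k0,k0,k0,k0],[k0,k0,k0,k0,k0,k0,k0,k0,k0,k0,k0,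
    (nat_lit 212)],[k0,k0,k0,k0,k0,k0,(nat_lit 212),k0,k0,k0,k0,k0]] (nat_lit 12720) k5
    [[(k10,(nat_lit 3763)),(k11,(nat_lit 3763)),(k9,(nat_lit 4187)),(k1,(nat_lit 4346)),(k6,(nat_lit 4347)),(k8,
    (nat_lit 4399))],[(k0,(nat_lit 4134)),(k2,(nat_lit 4187)),(k3,(nat_lit 4187)),(k4,(nat_lit 4187)),(k5,
    (nat_lit 4187)),(k7,(nat_lit 4347))],[(k0,(nat_lit 4187)),(k2,(nat_lit 4240)),(k3,(nat_lit 4240)),(k4,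
    (nat_lit 4240)),(k5,(nat_lit 4240)),(k7,(nat_lit 4400))],[(k0,(nat_lit 4187)),(k2,(nat_lit 4240)),(k3,
    (nat_lit 4240)),(k4,(nat_lit 4240)),(k5,(nat_lit 4240)),(k7,(nat_lit 4400))],[(k0,(nat_lit 4187)),(k2,
    (nat_lit 4240)),(k3,(nat_lit 4240)),(k4,(nat_lit 4240)),(k5,(nat_lit 4240)),(k7,(nat_lit 4400))],[(k0,
    (nat_lit 4187)),(k2,(nat_lit 4240)),(k3,(nat_lit 4240)),(k4,(nat_lit 4240)),(k5,(nat_lit 4240)),(k7,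
    (nat_lit 4400))],[(k0,(nat_lit 4347)),(k2,(nat_lit 4400)),(k3,(nat_lit 4400)),(k4,(nat_lit 4400)),(k5,
    (nat_lit 4400)),(k7,(nat_lit 4560))],[(k11,(nat_lit 3976)),(k10,(nat_lit 4188)),(k1,(nat_lit 4347)),(k6,
    (nat_lit 4560)),(k8,(nat_lit 4612)),(k9,(nat_lit 4612))],[(k10,(nat_lit 4028)),(k11,(nat_lit 4028)),(k1,
    (nat_lit 4187)),(k6,(nat_lit 4612)),(k8,(nat_lit 4664)),(k9,(nat_lit 4664))],[(k10,(nat_lit 4028)),(k11,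
    (nat_lit 4028)),(k1,(nat_lit 4399)),(k6,(nat_lit 4612)),(k8,(nat_lit 4664)),(k9,(nat_lit 4664))],[(k10,
    (nat_lit 3392)),(k11,(nat_lit 3392)),(k1,(nat_lit 3763)),(k6,(nat_lit 3976)),(k8,(nat_lit 4028)),(k9,
    (nat_lit 4028))],[(k10,(nat_lit 3180)),(k11,(nat_lit 3392)),(k1,(nat_lit 3763)),(k8,(nat_lit 4028)),(k9,
    (nat_lit 4028)),(k6,(nat_lit 4188))]]
    [[k2,k0,k0,k0,k0,k1],[k1,k0,k0,k1,k0,k1],[k0,k0,k0,k0,k1,k2],[k0,k0,k0,k0,k0,k3]]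
    [.ref k33 k0 [(z1,[z1]),(z1,[y3,z1,z3]),(z1,[z0,z0,z0,z1]),(z1,[y3,z0,y6,y2,z6])],.ref k15 k0 [(z1,[z0,z1]),(z1,
    [y3,z0,z0,y1,z3]),(z1,[z0,z0,z0,z1]),(z3,[z0,y1,y6,y2,z6])],.ref k34 k1 [(z6,[z3,y1,y12,y2,z6]),(z1,[y1,z0,z2]),
    (z1,[z1,z0,y1]),(z2,[y3,z1,z6])],.ref k15 k0 [(z1,[z0,z1]),(z1,[y1,z0,z3]),(z1,[z0,z0,z0,z1]),(z3,[z0,y1,y6,y2,
    z6])]]]

theorem hB6_124_2 : blkB [0, 0, 0, 1, 1, 1] [] sp6 hS6_124 (pcls (n := 6) [0, 0, 0, 1, 1, 1]) hD6_124 117 2 hN6_124_2 = true := by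
  decide +kernel

/-- nodes 36 to 47 -/
noncomputable def hN6_124_3 : List HM :=
  [.lp k0 [(nat_lit 4134),(nat_lit 4240),(nat_lit 4240),(nat_lit 4560),(nat_lit 4664),(nat_lit 3392)] [(nat_lit 265),
    (nat_lit 265),(nat_lit 212),(nat_lit 212),(nat_lit 212),(nat_lit 212),k52,k52,k0,k0,(nat_lit 636),
    (nat_lit 636)] k0 [[k0,k0,k0,k0,k0,k0,k0,k0,k0,k0,k0,k0],[k0,k0,k0,k0,k0,k0,k0,k0,k0,k0,k0,k0],[k0,k0,k0,k0,k0,k0,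
    k0,k0,k0,k0,k0,k0],[k0,k0,k0,k0,k0,k0,k0,k0,k0,k0,k0,k0],[k0,k0,k0,k0,k0,k0,k0,k0,k0,k0,k0,k0],[k0,k0,k0,k0,k0,k0,
    k0,k0,k0,k0,k0,k0],[k0,k0,k0,k0,k0,k0,k0,k0,k0,k0,k0,k0],[k0,k0,k0,k0,k0,k0,k0,k0,k0,k0,(nat_lit 212),k0],[k0,k0,
    k0,k0,k0,k0,k0,k0,k0,k0,k0,k0],[k0,k0,k0,k0,k0,k0,k0,k0,k0,k0,k0,k0],[k0,k0,k0,k0,k0,k0,k0,k0,k0,k0,k0,
    (nat_lit 212)],[k0,k0,k0,k0,k0,k0,(nat_lit 212),k0,k0,k0,k0,k0]] (nat_lit 12720) k5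
    [[(k10,(nat_lit 3763)),(k11,(nat_lit 3763)),(k9,(nat_lit 4187)),(k1,(nat_lit 4346)),(k6,(nat_lit 4347)),(k8,
    (nat_lit 4399))],[(k0,(nat_lit 4134)),(k2,(nat_lit 4187)),(k3,(nat_lit 4187)),(k4,(nat_lit 4187)),(k5,
    (nat_lit 4187)),(k7,(nat_lit 4347))],[(k0,(nat_lit 4187)),(k2,(nat_lit 4240)),(k3,(nat_lit 4240)),(k4,
    (nat_lit 4240)),(k5,(nat_lit 4240)),(k7,(nat_lit 4400))],[(k0,(nat_lit 4187)),(k2,(nat_lit 4240)),(k3,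
    (nat_lit 4240)),(k4,(nat_lit 4240)),(k5,(nat_lit 4240)),(k7,(nat_lit 4400))],[(k0,(nat_lit 4187)),(k2,
    (nat_lit 4240)),(k3,(nat_lit 4240)),(k4,(nat_lit 4240)),(k5,(nat_lit 4240)),(k7,(nat_lit 4400))],[(k0,
    (nat_lit 4187)),(k2,(nat_lit 4240)),(k3,(nat_lit 4240)),(k4,(nat_lit 4240)),(k5,(nat_lit 4240)),(k7,
    (nat_lit 4400))],[(k0,(nat_lit 4347)),(k2,(nat_lit 4400)),(k3,(nat_lit 4400)),(k4,(nat_lit 4400)),(k5,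
    (nat_lit 4400)),(k7,(nat_lit 4560))],[(k11,(nat_lit 3976)),(k10,(nat_lit 4188)),(k1,(nat_lit 4347)),(k6,
    (nat_lit 4560)),(k8,(nat_lit 4612)),(k9,(nat_lit 4612))],[(k10,(nat_lit 4028)),(k11,(nat_lit 4028)),(k1,
    (nat_lit 4187)),(k6,(nat_lit 4612)),(k8,(nat_lit 4664)),(k9,(nat_lit 4664))],[(k10,(nat_lit 4028)),(k11,
    (nat_lit 4028)),(k1,(nat_lit 4399)),(k6,(nat_lit 4612)),(k8,(nat_lit 4664)),(k9,(nat_lit 4664))],[(k10,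
    (nat_lit 3392)),(k11,(nat_lit 3392)),(k1,(nat_lit 3763)),(k6,(nat_lit 3976)),(k8,(nat_lit 4028)),(k9,
    (nat_lit 4028))],[(k10,(nat_lit 3180)),(k11,(nat_lit 3392)),(k1,(nat_lit 3763)),(k8,(nat_lit 4028)),(k9,
    (nat_lit 4028)),(k6,(nat_lit 4188))]]
    [[k2,k0,k0,k0,k0,k1],[k1,k0,k0,k1,k0,k1],[k0,k0,k0,k0,k1,k2],[k0,k0,k0,k0,k0,k3]]
    [.ref k1 k0 [(z4,[z3,z1]),(z2,[y3,z1,z2]),(z1,[z0,z0,z0,z1]),(z4,[z3,y1,z0,z0,z2]),(z2,[y3,z0,y2,y2,y1,z6])],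
    .ref k1 k0 [(z8,[z6,z3,z0,z0,y1]),(z4,[y6,z1,z4,z0,z1]),(z1,[z0,z0,z0,z1]),(z8,[z6,y1,z0,z0,z3]),(z4,[y6,y1,y4,y4,
    y1,z12])],.ref k1 k0 [(z4,[z6,z3,z2,z2,z1,y6]),(z2,[y6,y1,z0,y2,y1,z6]),(z1,[z0,z0,z0,z1]),(z4,[z6,z1,z2,z2,z3,
    y6]),(z1,[y3,y1,y2,y2,y1,z6])],.ref k1 k0 [(z2,[z1,z1]),(z1,[y1,z0,z1]),(z1,[z0,z0,z0,z1]),(z2,[z1,z0,z0,z0,z1]),
    (z2,[y2,y1,y2,y2,y1,z6])]],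
    .base (.spec k11 false k0 [(z1,[z2,z1]),(z1,[y1]),(z3,[z0,z0,z2,z1]),(z3,[y3,y3,y2,y1,z3])]),
    .lp k0 [k36,k30,k30,k32,k28,k32] [k0,k0,k3,k3,k3,k3,k2,k2,k4,k4,k2,k2] k0 [[k0,k0,k6,k6,k0,k0,k0,k0,k0,k0,k0,k0],
    [k0,k0,k0,k0,k0,k0,k0,k0,k0,k0,k0,k0],[k0,k6,k0,k0,k6,k0,k0,k0,k0,k0,k0,k0],[k0,k6,k0,k0,k6,k0,k0,k0,k0,k0,k0,k0],
    [k0,k0,k0,k0,k0,k0,k0,k0,k0,k0,k0,k0],[k0,k0,k6,k6,k0,k0,k0,k0,k0,k0,k0,k0],[k0,k0,k0,k0,k0,k0,k0,k8,k4,k0,k0,k0],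
    [k0,k0,k0,k0,k0,k0,k0,k0,k4,k0,k4,k4],[k0,k0,k0,k0,k0,k0,k0,k0,k0,k0,k0,k0],[k0,k0,k0,k0,k0,k0,k4,k4,k0,k0,k0,k0],
    [k0,k0,k0,k0,k0,k0,k4,k0,k0,k0,k0,k0],[k0,k0,k0,k0,k0,k0,k4,k0,k0,k0,k0,k0]] k96 k5
    [[(k9,k28),(k8,k32),(k10,k34),(k11,k34),(k1,k36),(k6,k38)],[(k2,k27),(k5,k27),(k3,k33),(k4,k33),(k7,k34),(k0,
    k36)],[(k3,k30),(k4,k30),(k7,k31),(k0,k33),(k2,k36),(k5,k36)],[(k7,k25),(k0,k27),(k2,k30),(k5,k30),(k3,k36),(k4,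
    k36)],[(k7,k25),(k0,k27),(k2,k30),(k5,k30),(k3,k36),(k4,k36)],[(k3,k30),(k4,k30),(k7,k31),(k0,k33),(k2,k36),(k5,
    k36)],[(k2,k25),(k5,k25),(k3,k31),(k4,k31),(k7,k32),(k0,k34)],[(k6,k24),(k11,k28),(k9,k30),(k8,k34),(k10,k36),(k1,
    k38)],[(k10,k26),(k11,k26),(k1,k28),(k6,k30),(k8,k32),(k9,k36)],[(k8,k28),(k10,k30),(k11,k30),(k1,k32),(k9,k32),
    (k6,k34)],[(k9,k26),(k6,k28),(k8,k30),(k10,k32),(k11,k32),(k1,k34)],[(k9,k26),(k8,k30),(k10,k32),(k11,k32),(k1,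
    k34),(k6,k36)]]
    [[k0,k1,k0,k2,k0,k0],[k0,k0,k1,k2,k0,k0],[k0,k0,k0,k0,k2,k1],[k0,k0,k0,k0,k1,k2]]
    [.ref k36 k1 [(z2,[z3,z0,y1,z3]),(z2,[y3,z0,z1,z3]),(z2,[z0,y1,y2,y3,z6]),(z2,[y3,z2,z1,z3])],.ref k7 k0 [(z1,[z6,
    z1,z0,y6]),(z1,[y6,z0,z1,z6]),(z1,[z1,z0,z0,y1]),(z1,[z0,z0,z0,z1])],.ref k37 k0 [(z24,[z6,z5,z2,z3,y6]),(z12,[y6,
    y1,z2,y3,z6]),(z8,[y6,y1,y2,z9,z6]),(z4,[z6,z1,z2,z3,y6])],.ref k37 k0 [(z6,[z3,z2,z2,z3,y6]),(z3,[y3,y1,y1,y3,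
    z6]),(z2,[y3,y1,y2,z0,z6]),(z1,[z3,z1,z2,z3,y6])]],
    .lp k0 [k84,k78,k78,k84,k72,k80] [k2,k2,k5,k5,k5,k5,k2,k2,k8,k8,k8,k0] k0 [[k0,k0,k6,k6,k0,k0,k0,k0,k0,k0,k0,k0],
    [k0,k0,k0,k0,k0,k0,k0,k0,k0,k0,k0,k0],[k0,k6,k0,k0,k6,k0,k0,k0,k0,k0,k0,k0],[k0,k6,k0,k0,k6,k0,k0,k0,k0,k0,k0,k0],
    [k0,k0,k0,k0,k0,k0,k0,k0,k0,k0,k0,k0],[k0,k0,k6,k6,k0,k0,k0,k0,k0,k0,k0,k0],[k0,k0,k0,k0,k0,k0,k0,k0,k24,k0,k0,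
    k0],[k0,k0,k0,k0,k0,k0,k0,k0,k16,k0,k16,k0],[k0,k0,k0,k0,k0,k0,k0,k0,k0,k0,k0,k0],[k0,k0,k0,k0,k0,k0,k16,k24,k0,
    k0,k0,k0],[k0,k0,k0,k0,k0,k0,k0,k0,k0,k0,k0,k0],[k0,k0,k0,k0,k0,k0,k16,k0,k0,k0,k0,k0]] (nat_lit 240) k5
    [[(k9,k62),(k8,k78),(k10,k78),(k1,k84),(k6,k84),(k11,k86)],[(k2,k75),(k5,k75),(k3,k81),(k4,k81),(k0,k84),(k7,
    k84)],[(k3,k78),(k4,k78),(k0,k81),(k7,k81),(k2,k84),(k5,k84)],[(k0,k75),(k7,k75),(k2,k78),(k5,k78),(k3,k84),(k4,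
    k84)],[(k0,k75),(k7,k75),(k2,k78),(k5,k78),(k3,k84),(k4,k84)],[(k3,k78),(k4,k78),(k0,k81),(k7,k81),(k2,k84),(k5,
    k84)],[(k2,k75),(k5,k75),(k3,k81),(k4,k81),(k0,k84),(k7,k84)],[(k11,k62),(k9,k78),(k1,k84),(k6,k84),(k8,k94),(k10,
    k94)],[(k1,k62),(k11,k64),(k9,k72),(k10,k72),(k6,k78),(k8,k96)],[(k8,k72),(k10,k72),(k1,k78),(k11,k80),(k6,k94),
    (k9,k96)],[(k6,k62),(k9,k64),(k8,k80),(k10,k80),(k1,k86),(k11,k88)],[(k8,k72),(k9,k72),(k10,k72),(k1,k78),(k11,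
    k80),(k6,k94)]]
    [[k2,k0,k0,k0,k1,k0],[k1,k0,k0,k1,k0,k1],[k0,k0,k0,k0,k2,k1],[k0,k0,k0,k0,k1,k2]]
    [.ref k1 k0 [(z1,[z1,z1]),(z1,[y2,z4,z3]),(z1,[z0,z0,z0,z1]),(z1,[z0,z0,z0,z0,z1]),(z1,[z1,y2])],.ref k1 k0 [(z1,
    [z3,z3,z3,z1,z0,y3]),(z1,[y6,z0,y3,y2,z0,z6]),(z1,[z0,z0,z0,z1]),(z1,[z0,z0,z0,z0,z1]),(z1,[z3,z0,z3,z1,z0,y3])],
    .ref k1 k0 [(z2,[z3,z9,z3,z1,z1,y3]),(z1,[y3,y3,z0,y1,y1,z3]),(z1,[z0,z0,z0,z1]),(z1,[z0,z0,z0,z0,z1]),(z2,[z3,z3,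
    z3,z1,z1,y3])],.ref k1 k0 [(z1,[z3,z9,z6,z2,z2,y6]),(z1,[y6,y12,y9,y4,y4,z12]),(z1,[z0,z0,z0,z1]),(z1,[z0,z0,z0,
    z0,z1]),(z1,[z3,z6,z6,z2,z2,y6])]],
    .lp k0 [k36,k30,k30,k32,k28,k32] [k0,k0,k3,k3,k3,k3,k2,k2,k4,k4,k2,k2] k0 [[k0,k0,k6,k6,k0,k0,k0,k0,k0,k0,k0,k0],
    [k0,k0,k0,k0,k0,k0,k0,k0,k0,k0,k0,k0],[k0,k6,k0,k0,k6,k0,k0,k0,k0,k0,k0,k0],[k0,k6,k0,k0,k6,k0,k0,k0,k0,k0,k0,k0],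
    [k0,k0,k0,k0,k0,k0,k0,k0,k0,k0,k0,k0],[k0,k0,k6,k6,k0,k0,k0,k0,k0,k0,k0,k0],[k0,k0,k0,k0,k0,k0,k0,k8,k4,k0,k0,k0],
    [k0,k0,k0,k0,k0,k0,k0,k0,k4,k0,k4,k4],[k0,k0,k0,k0,k0,k0,k0,k0,k0,k0,k0,k0],[k0,k0,k0,k0,k0,k0,k4,k4,k0,k0,k0,k0],
    [k0,k0,k0,k0,k0,k0,k4,k0,k0,k0,k0,k0],[k0,k0,k0,k0,k0,k0,k4,k0,k0,k0,k0,k0]] k96 k5
    [[(k9,k28),(k8,k32),(k10,k34),(k11,k34),(k1,k36),(k6,k38)],[(k2,k27),(k5,k27),(k3,k33),(k4,k33),(k7,k34),(k0,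
    k36)],[(k3,k30),(k4,k30),(k7,k31),(k0,k33),(k2,k36),(k5,k36)],[(k7,k25),(k0,k27),(k2,k30),(k5,k30),(k3,k36),(k4,
    k36)],[(k7,k25),(k0,k27),(k2,k30),(k5,k30),(k3,k36),(k4,k36)],[(k3,k30),(k4,k30),(k7,k31),(k0,k33),(k2,k36),(k5,
    k36)],[(k2,k25),(k5,k25),(k3,k31),(k4,k31),(k7,k32),(k0,k34)],[(k6,k24),(k11,k28),(k9,k30),(k8,k34),(k10,k36),(k1,
    k38)],[(k10,k26),(k11,k26),(k1,k28),(k6,k30),(k8,k32),(k9,k36)],[(k8,k28),(k10,k30),(k11,k30),(k1,k32),(k9,k32),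
    (k6,k34)],[(k9,k26),(k6,k28),(k8,k30),(k10,k32),(k11,k32),(k1,k34)],[(k9,k26),(k8,k30),(k10,k32),(k11,k32),(k1,
    k34),(k6,k36)]]
    [[k0,k1,k0,k2,k0,k0],[k0,k0,k1,k2,k0,k0],[k0,k0,k0,k0,k2,k1],[k0,k0,k0,k0,k1,k2]]
    [.ref k3 k0 [(z2,[y3,z2,z1,z2]),(z1,[z3,z0,z0,y2]),(z2,[y3,z0,z1,z2]),(z1,[z0,z0,z0,z1])],.ref k39 k0 [(z3,[z3,z1,
    z0,y2]),(z3,[y6,z0,z1,z4]),(z1,[z3,z0,z0,y2]),(z1,[z0,z0,z0,z1])],.ref k37 k0 [(z6,[z3,z3,z1,z1,y3]),(z3,[y3,y1,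
    z0,y1,z3]),(z1,[z0,z0,z0,z1]),(z2,[z3,z1,z1,z1,y3])],.ref k37 k0 [(z3,[z3,z3,z2,z2,y6]),(z3,[y6,y4,y3,y4,z12]),
    (z1,[z0,z0,z0,z1]),(z1,[z3,z2,z2,z2,y6])]],
    .lp k0 [k26,k32,k32,k32,k30,k36] [k5,k5,k2,k2,k2,k2,k2,k2,k3,k3,k0,k0] k0 [[k0,k0,k0,k0,k0,k0,k0,k0,k0,k0,k0,k0],
    [k0,k0,k0,k0,k0,k0,k0,k0,k0,k0,k0,k0],[k0,k0,k0,k0,k0,k0,k0,k0,k0,k0,k0,k0],[k0,k0,k0,k0,k0,k0,k0,k0,k0,k0,k0,k0],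
    [k0,k0,k0,k0,k0,k0,k0,k0,k0,k0,k0,k0],[k0,k0,k0,k0,k0,k0,k0,k0,k0,k0,k0,k0],[k0,k0,k0,k0,k0,k0,k0,k0,k6,k6,k0,k0],
    [k0,k0,k0,k0,k0,k0,k0,k0,k0,k0,k2,k6],[k0,k0,k0,k0,k0,k0,k0,k6,k0,k0,k0,k0],[k0,k0,k0,k0,k0,k0,k0,k6,k0,k0,k0,k0],
    [k0,k0,k0,k0,k0,k0,k6,k0,k0,k0,k0,k12],[k0,k0,k0,k0,k0,k0,k2,k0,k0,k0,k0,k0]] k96 k5
    [[(k9,k26),(k8,k28),(k10,k31),(k11,k31),(k6,k35),(k1,k38)],[(k0,k26),(k2,k29),(k3,k29),(k4,k29),(k5,k29),(k7,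
    k29)],[(k0,k29),(k2,k32),(k3,k32),(k4,k32),(k5,k32),(k7,k32)],[(k0,k29),(k2,k32),(k3,k32),(k4,k32),(k5,k32),(k7,
    k32)],[(k0,k29),(k2,k32),(k3,k32),(k4,k32),(k5,k32),(k7,k32)],[(k0,k29),(k2,k32),(k3,k32),(k4,k32),(k5,k32),(k7,
    k32)],[(k0,k29),(k2,k32),(k3,k32),(k4,k32),(k5,k32),(k7,k32)],[(k8,k25),(k11,k28),(k9,k31),(k6,k32),(k1,k35),(k10,
    k36)],[(k1,k26),(k10,k27),(k9,k30),(k6,k31),(k8,k36),(k11,k39)],[(k6,k25),(k1,k28),(k8,k30),(k10,k33),(k11,k33),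
    (k9,k36)],[(k6,k28),(k1,k31),(k8,k33),(k10,k36),(k11,k36),(k9,k39)],[(k10,k24),(k9,k27),(k1,k31),(k8,k33),(k6,
    k36),(k11,k36)]]
    [[k2,k0,k0,k0,k1,k0],[k1,k0,k0,k1,k1,k0],[k2,k0,k0,k0,k0,k1],[k1,k0,k0,k1,k0,k1],[k0,k0,k0,k2,k1,k0]]
    [.ref k9 k3 [(z2,[z3,z0,z0,y1]),(z1,[z0,y1,y1,y1,z3]),(z1,[z0,z0,z0,z1]),(z2,[z3,y2,z0,y1])],.ref k33 k1 [(z3,[z3,
    y1,z0,y1]),(z1,[z0,z0,z0,z1]),(z1,[z0,y1,y1,y1,z3]),(z1,[z3,z1,z0,y1])],.ref k9 k3 [(z2,[z3,z1,z1,z1,y3]),(z1,[z0,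
    y1,y1,y1,z3]),(z1,[z0,z0,z0,z1]),(z2,[z3,y1,z1,z1,y3])],.ref k33 k1 [(z3,[z3,z0,z1,z1,y3]),(z1,[z0,z0,z0,z1]),(z1,
    [z0,y1,y1,y1,z3]),(z1,[z3,z2,z1,z1,y3])],.ref k37 k0 [(z6,[z3,z2,z0,y1]),(z3,[y3,z0,z1,z1]),(z2,[z3,z0,z0,y1]),
    (z1,[z0,z0,z0,z1])]],
    .lp k0 [k78,k84,k84,k68,k82,k80] [k3,k3,k0,k0,k0,k0,k8,k8,k1,k1,k2,k2] k0 [[k0,k0,k0,k0,k0,k0,k0,k0,k0,k0,k0,k0],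
    [k0,k0,k0,k0,k0,k12,k0,k0,k0,k0,k0,k0],[k0,k0,k0,k0,k0,k0,k0,k0,k0,k0,k0,k0],[k0,k0,k0,k0,k0,k0,k0,k0,k0,k0,k0,
    k0],[k12,k0,k0,k0,k0,k0,k0,k0,k0,k0,k0,k0],[k0,k0,k0,k0,k0,k0,k0,k0,k0,k0,k0,k0],[k0,k0,k0,k0,k0,k0,k0,k0,k14,k6,
    k0,k6],[k0,k0,k0,k0,k0,k0,k20,k0,k0,k0,k0,k10],[k0,k0,k0,k0,k0,k0,k0,k6,k0,k0,k0,k0],[k0,k0,k0,k0,k0,k0,k0,k14,k0,
    k0,k16,k0],[k0,k0,k0,k0,k0,k0,k10,k6,k0,k0,k0,k0],[k0,k0,k0,k0,k0,k0,k0,k0,k16,k0,k0,k0]] (nat_lit 240) k5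
    [[(k11,k63),(k1,k78),(k10,k79),(k8,k80),(k6,k83),(k9,k86)],[(k0,k78),(k2,k81),(k3,k81),(k4,k81),(k5,k81),(k7,
    k85)],[(k4,k72),(k7,k76),(k0,k81),(k2,k84),(k3,k84),(k5,k84)],[(k7,k76),(k0,k81),(k2,k84),(k3,k84),(k4,k84),(k5,
    k84)],[(k7,k76),(k0,k81),(k2,k84),(k3,k84),(k4,k84),(k5,k84)],[(k3,k72),(k7,k76),(k0,k81),(k2,k84),(k4,k84),(k5,
    k84)],[(k7,k68),(k2,k76),(k3,k76),(k4,k76),(k5,k76),(k0,k85)],[(k11,k60),(k10,k68),(k8,k69),(k9,k75),(k1,k83),(k6,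
    k88)],[(k9,k62),(k10,k71),(k6,k75),(k1,k86),(k11,k87),(k8,k96)],[(k6,k69),(k1,k80),(k11,k81),(k8,k82),(k9,k96),
    (k10,k97)],[(k6,k60),(k1,k63),(k10,k80),(k11,k80),(k8,k81),(k9,k87)],[(k6,k68),(k9,k71),(k1,k79),(k10,k80),(k11,
    k80),(k8,k97)]]
    [[k2,k0,k0,k0,k0,k1],[k1,k0,k0,k1,k0,k1],[k0,k0,k0,k2,k1,k0],[k0,k0,k0,k2,k0,k1],[k0,k0,k0,k0,k1,k2]]
    [.ref k13 k0 [(z2,[z3,z1,z1,y3]),(z1,[y3,z1,z0,z3]),(z6,[z3,y1,z1,y3])],.ref k35 k1 [(z1,[z6,z0,z1,y6]),(z1,[y1,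
    z0,z0,z1]),(z1,[z0,y1,y1,z3])],.ref k38 k0 [(z1,[z3,z2]),(z1,[y3,z0,z1]),(z1,[z1])],.ref k40 k0 [(z2,[z3,z3,z1,
    y3]),(z1,[y3,y1,z0,z3]),(z2,[z3,z1,z1,y3])],.ref k41 k0 [(z1,[z3,z3,z2,y6]),(z1,[y6,y4,y3,z12]),(z1,[z3,z2,z2,
    y6])]],
    .lp k0 [(nat_lit 4134),(nat_lit 4240),(nat_lit 4240),(nat_lit 4560),(nat_lit 4664),(nat_lit 3392)] [(nat_lit 265),
    (nat_lit 265),(nat_lit 212),(nat_lit 212),(nat_lit 212),(nat_lit 212),k52,k52,k0,k0,(nat_lit 636),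
    (nat_lit 636)] k0 [[k0,k0,k0,k0,k0,k0,k0,k0,k0,k0,k0,k0],[k0,k0,k0,k0,k0,k0,k0,k0,k0,k0,k0,k0],[k0,k0,k0,k0,k0,k0,
    k0,k0,k0,k0,k0,k0],[k0,k0,k0,k0,k0,k0,k0,k0,k0,k0,k0,k0],[k0,k0,k0,k0,k0,k0,k0,k0,k0,k0,k0,k0],[k0,k0,k0,k0,k0,k0,
    k0,k0,k0,k0,k0,k0],[k0,k0,k0,k0,k0,k0,k0,k0,k0,k0,k0,k0],[k0,k0,k0,k0,k0,k0,k0,k0,k0,k0,(nat_lit 212),k0],[k0,k0,
    k0,k0,k0,k0,k0,k0,k0,k0,k0,k0],[k0,k0,k0,k0,k0,k0,k0,k0,k0,k0,k0,k0],[k0,k0,k0,k0,k0,k0,k0,k0,k0,k0,k0,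
    (nat_lit 212)],[k0,k0,k0,k0,k0,k0,(nat_lit 212),k0,k0,k0,k0,k0]] (nat_lit 12720) k5
    [[(k10,(nat_lit 3763)),(k11,(nat_lit 3763)),(k9,(nat_lit 4187)),(k1,(nat_lit 4346)),(k6,(nat_lit 4347)),(k8,
    (nat_lit 4399))],[(k0,(nat_lit 4134)),(k2,(nat_lit 4187)),(k3,(nat_lit 4187)),(k4,(nat_lit 4187)),(k5,
    (nat_lit 4187)),(k7,(nat_lit 4347))],[(k0,(nat_lit 4187)),(k2,(nat_lit 4240)),(k3,(nat_lit 4240)),(k4,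
    (nat_lit 4240)),(k5,(nat_lit 4240)),(k7,(nat_lit 4400))],[(k0,(nat_lit 4187)),(k2,(nat_lit 4240)),(k3,
    (nat_lit 4240)),(k4,(nat_lit 4240)),(k5,(nat_lit 4240)),(k7,(nat_lit 4400))],[(k0,(nat_lit 4187)),(k2,
    (nat_lit 4240)),(k3,(nat_lit 4240)),(k4,(nat_lit 4240)),(k5,(nat_lit 4240)),(k7,(nat_lit 4400))],[(k0,
    (nat_lit 4187)),(k2,(nat_lit 4240)),(k3,(nat_lit 4240)),(k4,(nat_lit 4240)),(k5,(nat_lit 4240)),(k7,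
    (nat_lit 4400))],[(k0,(nat_lit 4347)),(k2,(nat_lit 4400)),(k3,(nat_lit 4400)),(k4,(nat_lit 4400)),(k5,
    (nat_lit 4400)),(k7,(nat_lit 4560))],[(k11,(nat_lit 3976)),(k10,(nat_lit 4188)),(k1,(nat_lit 4347)),(k6,
    (nat_lit 4560)),(k8,(nat_lit 4612)),(k9,(nat_lit 4612))],[(k10,(nat_lit 4028)),(k11,(nat_lit 4028)),(k1,
    (nat_lit 4187)),(k6,(nat_lit 4612)),(k8,(nat_lit 4664)),(k9,(nat_lit 4664))],[(k10,(nat_lit 4028)),(k11,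
    (nat_lit 4028)),(k1,(nat_lit 4399)),(k6,(nat_lit 4612)),(k8,(nat_lit 4664)),(k9,(nat_lit 4664))],[(k10,
    (nat_lit 3392)),(k11,(nat_lit 3392)),(k1,(nat_lit 3763)),(k6,(nat_lit 3976)),(k8,(nat_lit 4028)),(k9,
    (nat_lit 4028))],[(k10,(nat_lit 3180)),(k11,(nat_lit 3392)),(k1,(nat_lit 3763)),(k8,(nat_lit 4028)),(k9,
    (nat_lit 4028)),(k6,(nat_lit 4188))]]
    [[k2,k0,k0,k0,k0,k1],[k1,k0,k0,k1,k0,k1],[k0,k0,k0,k0,k1,k2],[k0,k0,k0,k0,k0,k3]]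
    [.ref k14 k0 [(z1,[z1]),(z1,[y1,z1,z1])],.ref k24 k3 [(z1,[z0,z1,z1]),(z1,[z2,y1,y1])],.ref k32 k0 [(z1,[z1,z1]),
    (z1,[y2,y1,z1])],.ref k42 k0 [(z1,[z1,z3]),(z1,[y2,y3,z3])]],
    .lp k0 [(nat_lit 4134),(nat_lit 4240),(nat_lit 4240),(nat_lit 4560),(nat_lit 4664),(nat_lit 3392)] [(nat_lit 265),
    (nat_lit 265),(nat_lit 212),(nat_lit 212),(nat_lit 212),(nat_lit 212),k52,k52,k0,k0,(nat_lit 636),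
    (nat_lit 636)] k0 [[k0,k0,k0,k0,k0,k0,k0,k0,k0,k0,k0,k0],[k0,k0,k0,k0,k0,k0,k0,k0,k0,k0,k0,k0],[k0,k0,k0,k0,k0,k0,
    k0,k0,k0,k0,k0,k0],[k0,k0,k0,k0,k0,k0,k0,k0,k0,k0,k0,k0],[k0,k0,k0,k0,k0,k0,k0,k0,k0,k0,k0,k0],[k0,k0,k0,k0,k0,k0,
    k0,k0,k0,k0,k0,k0],[k0,k0,k0,k0,k0,k0,k0,k0,k0,k0,k0,k0],[k0,k0,k0,k0,k0,k0,k0,k0,k0,k0,(nat_lit 212),k0],[k0,k0,
    k0,k0,k0,k0,k0,k0,k0,k0,k0,k0],[k0,k0,k0,k0,k0,k0,k0,k0,k0,k0,k0,k0],[k0,k0,k0,k0,k0,k0,k0,k0,k0,k0,k0,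
    (nat_lit 212)],[k0,k0,k0,k0,k0,k0,(nat_lit 212),k0,k0,k0,k0,k0]] (nat_lit 12720) k5
    [[(k10,(nat_lit 3763)),(k11,(nat_lit 3763)),(k9,(nat_lit 4187)),(k1,(nat_lit 4346)),(k6,(nat_lit 4347)),(k8,
    (nat_lit 4399))],[(k0,(nat_lit 4134)),(k2,(nat_lit 4187)),(k3,(nat_lit 4187)),(k4,(nat_lit 4187)),(k5,
    (nat_lit 4187)),(k7,(nat_lit 4347))],[(k0,(nat_lit 4187)),(k2,(nat_lit 4240)),(k3,(nat_lit 4240)),(k4,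
    (nat_lit 4240)),(k5,(nat_lit 4240)),(k7,(nat_lit 4400))],[(k0,(nat_lit 4187)),(k2,(nat_lit 4240)),(k3,
    (nat_lit 4240)),(k4,(nat_lit 4240)),(k5,(nat_lit 4240)),(k7,(nat_lit 4400))],[(k0,(nat_lit 4187)),(k2,
    (nat_lit 4240)),(k3,(nat_lit 4240)),(k4,(nat_lit 4240)),(k5,(nat_lit 4240)),(k7,(nat_lit 4400))],[(k0,
    (nat_lit 4187)),(k2,(nat_lit 4240)),(k3,(nat_lit 4240)),(k4,(nat_lit 4240)),(k5,(nat_lit 4240)),(k7,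
    (nat_lit 4400))],[(k0,(nat_lit 4347)),(k2,(nat_lit 4400)),(k3,(nat_lit 4400)),(k4,(nat_lit 4400)),(k5,
    (nat_lit 4400)),(k7,(nat_lit 4560))],[(k11,(nat_lit 3976)),(k10,(nat_lit 4188)),(k1,(nat_lit 4347)),(k6,
    (nat_lit 4560)),(k8,(nat_lit 4612)),(k9,(nat_lit 4612))],[(k10,(nat_lit 4028)),(k11,(nat_lit 4028)),(k1,
    (nat_lit 4187)),(k6,(nat_lit 4612)),(k8,(nat_lit 4664)),(k9,(nat_lit 4664))],[(k10,(nat_lit 4028)),(k11,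
    (nat_lit 4028)),(k1,(nat_lit 4399)),(k6,(nat_lit 4612)),(k8,(nat_lit 4664)),(k9,(nat_lit 4664))],[(k10,
    (nat_lit 3392)),(k11,(nat_lit 3392)),(k1,(nat_lit 3763)),(k6,(nat_lit 3976)),(k8,(nat_lit 4028)),(k9,
    (nat_lit 4028))],[(k10,(nat_lit 3180)),(k11,(nat_lit 3392)),(k1,(nat_lit 3763)),(k8,(nat_lit 4028)),(k9,
    (nat_lit 4028)),(k6,(nat_lit 4188))]]
    [[k2,k0,k0,k0,k0,k1],[k1,k0,k0,k1,k0,k1],[k0,k0,k0,k0,k1,k2],[k0,k0,k0,k0,k0,k3]]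
    [.ref k1 k0 [(z4,[z5,z1]),(z1,[y1,z1,z3]),(z1,[y1,z1,z0,z3]),(z4,[y1,z1,z0,z0,z6]),(z2,[z1,y4,y6,y6,y3,z6])],
    .ref k1 k0 [(z4,[z10,z1,z0,z0,y5]),(z1,[y2,z1,z3,z0,z1]),(z1,[y2,z1,z0,z3,z1]),(z4,[y2,z1,z0,z0,z7]),(z1,[z1,y2,
    y3,y3,y2,z3])],.ref k1 k0 [(z4,[z10,z11,z10,z10,z5,y10]),(z1,[y2,y1,z1,y2,y1,z2]),(z1,[y2,y1,y2,z1,y1,z2]),(z4,
    [y2,y1,y2,y2,z5,z2]),(z1,[z1,y1,y2,y2,y1,z2])],.ref k1 k0 [(z2,[z5,z3]),(z1,[y2,z0,z3]),(z1,[y2,z0,z0,z3]),(z2,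
    [y1,z0,z0,z0,z3]),(z2,[z2,y3,y6,y6,y3,z6])]],
    .lp k0 [k82,k80,k84,k68,k78,k84] [k1,k1,k2,k2,k0,k0,k8,k8,k3,k3,k0,k0] k0 [[k0,k0,k0,k16,k0,k0,k0,k0,k0,k0,k0,k0],
    [k0,k0,k0,k0,k12,k20,k0,k0,k0,k0,k0,k0],[k0,k16,k0,k0,k12,k0,k0,k0,k0,k0,k0,k0],[k0,k0,k0,k0,k12,k0,k0,k0,k0,k0,
    k0,k0],[k20,k0,k0,k0,k0,k24,k0,k0,k0,k0,k0,k0],[k12,k0,k12,k12,k0,k0,k0,k0,k0,k0,k0,k0],[k0,k0,k0,k0,k0,k0,k0,k0,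
    k6,k6,k0,k0],[k0,k0,k0,k0,k0,k0,k0,k0,k0,k0,k2,k6],[k0,k0,k0,k0,k0,k0,k0,k6,k0,k0,k0,k0],[k0,k0,k0,k0,k0,k0,k0,k6,
    k0,k0,k0,k0],[k0,k0,k0,k0,k0,k0,k6,k0,k0,k0,k0,k12],[k0,k0,k0,k0,k0,k0,k2,k0,k0,k0,k0,k0]] (nat_lit 240) k5
    [[(k9,k78),(k8,k80),(k6,k81),(k10,k83),(k11,k83),(k1,k94)],[(k2,k65),(k3,k81),(k0,k82),(k5,k83),(k4,k95),(k7,
    k95)],[(k4,k62),(k7,k62),(k2,k80),(k3,k80),(k0,k81),(k5,k98)],[(k7,k62),(k0,k65),(k2,k80),(k3,k80),(k5,k82),(k4,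
    k94)],[(k7,k64),(k2,k82),(k0,k83),(k5,k84),(k4,k96),(k3,k98)],[(k4,k60),(k3,k62),(k7,k76),(k2,k94),(k0,k95),(k5,
    k96)],[(k2,k62),(k3,k62),(k5,k64),(k4,k76),(k7,k92),(k0,k95)],[(k8,k67),(k6,k68),(k11,k70),(k9,k73),(k10,k78),(k1,
    k81)],[(k6,k73),(k10,k75),(k1,k78),(k9,k78),(k8,k84),(k11,k87)],[(k6,k67),(k8,k78),(k1,k80),(k10,k81),(k11,k81),
    (k9,k84)],[(k6,k70),(k8,k81),(k1,k83),(k10,k84),(k11,k84),(k9,k87)],[(k10,k72),(k9,k75),(k6,k78),(k8,k81),(k1,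
    k83),(k11,k84)]]
    [[k1,k1,k0,k1,k0,k0],[k0,k2,k1,k0,k0,k0],[k0,k1,k0,k2,k0,k0],[k0,k0,k1,k2,k0,k0],[k0,k0,k0,k2,k1,k0]]
    [.ref k1 k0 [(z8,[z4,z5,y2,z0,y1]),(z4,[y4,z1,z8,z0,z1]),(z4,[y4,z1,z2,z6,z1]),(z8,[z28,y7,y14,z0,y1]),(z4,[y16,
    z1,z2,y6,z1,z12])],.ref k1 k0 [(z4,[y2,z3,z2,z1]),(z2,[z2,z0,z1,y1]),(z1,[z1,z0,y1,z1]),(z4,[y14,z0,z14,z7,z3]),
    (z4,[z16,y3,y22,y14,y3,z12])],.ref k1 k0 [(z8,[z2,z6,y1,z0,y1]),(z4,[y2,z0,z7,z0,z1]),(z4,[y2,z0,z1,z6,z1]),(z8,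
    [z14,z0,y7,z0,y1]),(z4,[y8,y3,y2,y6,z1,z12])],.ref k1 k0 [(z8,[z2,z6,z0,y1,y1]),(z4,[y2,z0,z6,z1,z1]),(z4,[y2,z0,
    z0,z7,z1]),(z8,[z14,z0,z0,y7,y1]),(z4,[y8,y3,y6,y2,z1,z12])],.ref k1 k0 [(z8,[z4,z7,z2,z2,y1,y4]),(z4,[y4,y1,z4,
    y2,z1,z4]),(z4,[y4,y1,y2,z4,z1,z4]),(z8,[z28,z7,z14,z14,y1,y28]),(z4,[y16,y7,y14,y14,z1,z28])]],
    .lp k0 [(nat_lit 4134),(nat_lit 4240),(nat_lit 4240),(nat_lit 4560),(nat_lit 4664),(nat_lit 3392)] [(nat_lit 265),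
    (nat_lit 265),(nat_lit 212),(nat_lit 212),(nat_lit 212),(nat_lit 212),k52,k52,k0,k0,(nat_lit 636),
    (nat_lit 636)] k0 [[k0,k0,k0,k0,k0,k0,k0,k0,k0,k0,k0,k0],[k0,k0,k0,k0,k0,k0,k0,k0,k0,k0,k0,k0],[k0,k0,k0,k0,k0,k0,
    k0,k0,k0,k0,k0,k0],[k0,k0,k0,k0,k0,k0,k0,k0,k0,k0,k0,k0],[k0,k0,k0,k0,k0,k0,k0,k0,k0,k0,k0,k0],[k0,k0,k0,k0,k0,k0,
    k0,k0,k0,k0,k0,k0],[k0,k0,k0,k0,k0,k0,k0,k0,k0,k0,k0,k0],[k0,k0,k0,k0,k0,k0,k0,k0,k0,k0,(nat_lit 212),k0],[k0,k0,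
    k0,k0,k0,k0,k0,k0,k0,k0,k0,k0],[k0,k0,k0,k0,k0,k0,k0,k0,k0,k0,k0,k0],[k0,k0,k0,k0,k0,k0,k0,k0,k0,k0,k0,
    (nat_lit 212)],[k0,k0,k0,k0,k0,k0,(nat_lit 212),k0,k0,k0,k0,k0]] (nat_lit 12720) k5
    [[(k10,(nat_lit 3763)),(k11,(nat_lit 3763)),(k9,(nat_lit 4187)),(k1,(nat_lit 4346)),(k6,(nat_lit 4347)),(k8,
    (nat_lit 4399))],[(k0,(nat_lit 4134)),(k2,(nat_lit 4187)),(k3,(nat_lit 4187)),(k4,(nat_lit 4187)),(k5,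
    (nat_lit 4187)),(k7,(nat_lit 4347))],[(k0,(nat_lit 4187)),(k2,(nat_lit 4240)),(k3,(nat_lit 4240)),(k4,
    (nat_lit 4240)),(k5,(nat_lit 4240)),(k7,(nat_lit 4400))],[(k0,(nat_lit 4187)),(k2,(nat_lit 4240)),(k3,
    (nat_lit 4240)),(k4,(nat_lit 4240)),(k5,(nat_lit 4240)),(k7,(nat_lit 4400))],[(k0,(nat_lit 4187)),(k2,
    (nat_lit 4240)),(k3,(nat_lit 4240)),(k4,(nat_lit 4240)),(k5,(nat_lit 4240)),(k7,(nat_lit 4400))],[(k0,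
    (nat_lit 4187)),(k2,(nat_lit 4240)),(k3,(nat_lit 4240)),(k4,(nat_lit 4240)),(k5,(nat_lit 4240)),(k7,
    (nat_lit 4400))],[(k0,(nat_lit 4347)),(k2,(nat_lit 4400)),(k3,(nat_lit 4400)),(k4,(nat_lit 4400)),(k5,
    (nat_lit 4400)),(k7,(nat_lit 4560))],[(k11,(nat_lit 3976)),(k10,(nat_lit 4188)),(k1,(nat_lit 4347)),(k6,
    (nat_lit 4560)),(k8,(nat_lit 4612)),(k9,(nat_lit 4612))],[(k10,(nat_lit 4028)),(k11,(nat_lit 4028)),(k1,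
    (nat_lit 4187)),(k6,(nat_lit 4612)),(k8,(nat_lit 4664)),(k9,(nat_lit 4664))],[(k10,(nat_lit 4028)),(k11,
    (nat_lit 4028)),(k1,(nat_lit 4399)),(k6,(nat_lit 4612)),(k8,(nat_lit 4664)),(k9,(nat_lit 4664))],[(k10,
    (nat_lit 3392)),(k11,(nat_lit 3392)),(k1,(nat_lit 3763)),(k6,(nat_lit 3976)),(k8,(nat_lit 4028)),(k9,
    (nat_lit 4028))],[(k10,(nat_lit 3180)),(k11,(nat_lit 3392)),(k1,(nat_lit 3763)),(k8,(nat_lit 4028)),(k9,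
    (nat_lit 4028)),(k6,(nat_lit 4188))]]
    [[k2,k0,k0,k0,k0,k1],[k1,k0,k0,k1,k0,k1],[k0,k0,k0,k0,k1,k2],[k0,k0,k0,k0,k0,k3]]
    [.ref k9 k0 [(z2,[z1,z1]),(z2,[y2,z1,z3]),(z2,[y2,z1,z0,z3]),(z2,[y1,y1,y3,y3,z6])],.ref k44 k1 [(z2,[z4,y1,z0,
    y5]),(z2,[y2,z0,y1,z1,z2]),(z1,[z0,z0,z0,z1]),(z2,[z0,z1,z0,z1])],.ref k45 k0 [(z1,[z0,z1]),(z1,[z0,z0,z1]),(z1,
    [z0,z0,z0,z1]),(z1,[y4,y1,y2,y2,z4])],.ref k9 k0 [(z4,[z1,z3]),(z2,[y1,z0,z3]),(z2,[y1,z0,z0,z3]),(z4,[y1,y3,y6,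
    y6,z12])]],
    .lp k0 [k172,k154,k154,k156,k160,k160] [k0,k0,k9,k9,k9,k9,k8,k8,k6,k6,k6,k6] k0 [[k0,k0,k18,k26,k0,k0,k0,k0,k0,k0,
    k0,k0],[k0,k0,k0,k0,k0,k0,k0,k0,k0,k0,k0,k0],[k0,k26,k0,k0,k26,k0,k0,k0,k0,k0,k0,k0],[k0,k18,k0,k0,k18,k0,k0,k0,
    k0,k0,k0,k0],[k0,k0,k0,k0,k0,k8,k0,k0,k0,k0,k0,k0],[k0,k0,k18,k26,k0,k0,k0,k0,k0,k0,k0,k0],[k0,k0,k0,k0,k0,k0,k0,
    k16,k0,k0,k0,k0],[k0,k0,k0,k0,k0,k0,k0,k0,k0,k0,k0,k24],[k0,k0,k0,k0,k0,k0,k0,k0,k0,k16,k24,k0],[k0,k0,k0,k0,k0,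
    k0,k0,k0,k0,k0,k8,k0],[k0,k0,k0,k0,k0,k0,k24,k0,k0,k0,k0,k0],[k0,k0,k0,k0,k0,k0,k0,k0,k8,k24,k0,
    k0]] (nat_lit 480) k5
    [[(k8,k142),(k11,k158),(k9,k166),(k10,k166),(k1,k172),(k6,k188)],[(k2,k137),(k5,k145),(k3,k163),(k4,k163),(k7,
    k164),(k0,k172)],[(k3,k154),(k4,k154),(k7,k155),(k0,k163),(k2,k172),(k5,k180)],[(k7,k129),(k0,k137),(k2,k154),(k5,
    k154),(k3,k172),(k4,k172)],[(k7,k137),(k0,k145),(k2,k154),(k5,k154),(k3,k180),(k4,k180)],[(k4,k146),(k3,k154),(k7,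
    k155),(k0,k163),(k2,k172),(k5,k180)],[(k2,k129),(k5,k137),(k3,k155),(k4,k155),(k0,k164),(k7,k164)],[(k6,k140),(k8,
    k158),(k9,k158),(k10,k158),(k11,k158),(k1,k188)],[(k10,k136),(k6,k158),(k8,k160),(k11,k160),(k1,k166),(k9,k176)],
    [(k1,k142),(k8,k144),(k6,k158),(k9,k160),(k11,k160),(k10,k168)],[(k1,k158),(k6,k158),(k8,k160),(k9,k160),(k11,
    k176),(k10,k184)],[(k9,k136),(k6,k158),(k10,k160),(k1,k166),(k8,k168),(k11,k184)]]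
    [[k2,k1,k0,k0,k0,k0],[k1,k0,k0,k1,k1,k0],[k0,k1,k0,k2,k0,k0],[k0,k0,k1,k2,k0,k0],[k0,k0,k0,k0,k2,k1]]
    [.ref k1 k0 [(z1,[z1,z1,y1]),(z1,[z1,y2,z2]),(z1,[z1,y2,y1,z3]),(z1,[y2,z4,z2,z0,z3]),(z1,[y2,z1,y1,y3,y3,z3])],
    .ref k1 k0 [(z1,[y1,z3,y1,y1,z0,z1]),(z1,[y1,z0,z2,y1,z0,z1]),(z1,[y1,z0,y1,z2,z0,z1]),(z1,[z2,z0,z2,z2,z3,y2]),
    (z1,[z2,y3,y1,y1,y3,z1])],.ref k1 k0 [(z1,[y1,z3,z1,z0,z2]),(z1,[y1,z0,z4,z0,z2]),(z1,[y1,z0,z1,z3,z2]),(z1,[z2,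
    z0,y2,z0,y1]),(z1,[z2,y3,y5,y3,y7,z3])],.ref k1 k0 [(z1,[y1,z3,z0,z1,z2]),(z1,[y1,z0,z3,z1,z2]),(z1,[y1,z0,z0,z4,
    z2]),(z1,[z2,z0,z0,y2,y1]),(z1,[z2,y3,y3,y5,y7,z3])],.ref k1 k0 [(z1,[y1,z1,y2,y2,y2,z2]),(z1,[y1,y2,z1,y2,y2,
    z2]),(z1,[y1,y2,y2,z1,y2,z2]),(z1,[z2,z4,z4,z4,z7,y4]),(z1,[z2,z1,z1,z1,z1,y1])]]]

theorem hB6_124_3 : blkB [0, 0, 0, 1, 1, 1] [] sp6 hS6_124 (pcls (n := 6) [0, 0, 0, 1, 1, 1]) hD6_124 117 3 hN6_124_3 = true := by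
  decide +kernel

/-- nodes 48 to 59 -/
noncomputable def hN6_124_4 : List HM :=
  [.lp k0 [(nat_lit 362),(nat_lit 278),(nat_lit 386),(nat_lit 386),(nat_lit 374),(nat_lit 356)] [k12,k12,k54,k54,k0,
    k0,k0,k0,k6,k6,k15,k15] k0 [[k0,k0,k0,k30,k30,k30,k0,k0,k0,k0,k0,k0],[k0,k0,k0,k0,k0,k0,k0,k0,k0,k0,k0,k0],[k0,
    k30,k0,k0,k0,k0,k0,k0,k0,k0,k0,k0],[k0,k0,k0,k0,k0,k0,k0,k0,k0,k0,k0,k0],[k0,k30,k0,k0,k0,k0,k0,k0,k0,k0,k0,k0],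
    [k0,k30,k0,k0,k0,k0,k0,k0,k0,k0,k0,k0],[k0,k0,k0,k0,k0,k0,k0,k0,k30,k30,k0,k18],[k0,k0,k0,k0,k0,k0,k0,k0,k0,k0,k0,
    k54],[k0,k0,k0,k0,k0,k0,k0,k30,k0,k0,k12,k0],[k0,k0,k0,k0,k0,k0,k0,k30,k0,k0,k0,k0],[k0,k0,k0,k0,k0,k0,k54,k18,k0,
    k0,k0,k0],[k0,k0,k0,k0,k0,k0,k0,k0,k0,k12,k0,k0]] (nat_lit 1080) k5
    [[(k8,(nat_lit 356)),(k10,(nat_lit 359)),(k11,(nat_lit 359)),(k1,(nat_lit 362)),(k9,(nat_lit 386)),(k6,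
    (nat_lit 428))],[(k2,(nat_lit 290)),(k3,(nat_lit 320)),(k4,(nat_lit 344)),(k7,(nat_lit 344)),(k0,(nat_lit 362)),
    (k5,(nat_lit 374))],[(k2,(nat_lit 278)),(k3,(nat_lit 278)),(k0,(nat_lit 320)),(k4,(nat_lit 362)),(k5,
    (nat_lit 362)),(k7,(nat_lit 362))],[(k2,(nat_lit 278)),(k3,(nat_lit 278)),(k0,(nat_lit 290)),(k4,(nat_lit 332)),
    (k5,(nat_lit 332)),(k7,(nat_lit 332))],[(k2,(nat_lit 332)),(k3,(nat_lit 362)),(k0,(nat_lit 374)),(k4,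
    (nat_lit 386)),(k5,(nat_lit 386)),(k7,(nat_lit 386))],[(k2,(nat_lit 332)),(k0,(nat_lit 344)),(k3,(nat_lit 362)),
    (k4,(nat_lit 386)),(k5,(nat_lit 386)),(k7,(nat_lit 386))],[(k2,(nat_lit 332)),(k0,(nat_lit 344)),(k3,
    (nat_lit 362)),(k4,(nat_lit 386)),(k5,(nat_lit 386)),(k7,(nat_lit 386))],[(k11,(nat_lit 341)),(k8,(nat_lit 350)),
    (k10,(nat_lit 353)),(k9,(nat_lit 380)),(k6,(nat_lit 386)),(k1,(nat_lit 428))],[(k10,(nat_lit 311)),(k9,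
    (nat_lit 374)),(k6,(nat_lit 380)),(k1,(nat_lit 386)),(k11,(nat_lit 395)),(k8,(nat_lit 404))],[(k6,(nat_lit 350)),
    (k1,(nat_lit 356)),(k10,(nat_lit 365)),(k11,(nat_lit 365)),(k8,(nat_lit 374)),(k9,(nat_lit 404))],[(k6,
    (nat_lit 341)),(k11,(nat_lit 356)),(k1,(nat_lit 359)),(k8,(nat_lit 365)),(k10,(nat_lit 368)),(k9,(nat_lit 395))],
    [(k9,(nat_lit 311)),(k6,(nat_lit 353)),(k10,(nat_lit 356)),(k1,(nat_lit 359)),(k8,(nat_lit 365)),(k11,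
    (nat_lit 368))]]
    [[k2,k1,k0,k0,k0,k0],[k1,k0,k0,k1,k0,k1],[k0,k3,k0,k0,k0,k0],[k0,k2,k1,k0,k0,k0],[k0,k0,k0,k0,k1,k2]]
    [.ref k1 k0 [(z4,[z3,z1,y3]),(z2,[z3,y1,z3]),(z2,[y3,z1,z3,z2]),(z4,[y9,z3,z9,z0,z2]),(z2,[z3,y1,y3])],
    .ref k1 k0 [(z2,[y3,z1,y3,y1,z0,z3]),(z1,[y3,z0,z0,y1,z0,z3]),(z1,[z3,z0,z3,z2,z0,y3]),(z2,[z9,z0,z9,z3,z1,y9]),
    (z1,[y3,z0,y3,y1,z0,z3])],.ref k1 k0 [(z2,[z1,z1,y3]),(z1,[z1]),(z1,[y1,z0,z3,z1]),(z2,[y3,z0,z9,z0,z1]),(z1,[z1,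
    z0,y3])],.ref k1 k0 [(z2,[z3,z1,y6,y1]),(z1,[z3,z0,y3,y1]),(z1,[y3,z0,z6,z2]),(z2,[y9,z0,z18,z3,z1]),(z1,[z3,z0,
    y6,y1])],.ref k1 k0 [(z2,[z3,z2,z6,z2,z1,y6]),(z1,[z3,z1,z9,z2,z1,y6]),(z1,[y3,y1,y6,y1,y1,z6]),(z2,[y9,y3,y18,y6,
    y2,z18]),(z1,[z3,z1,z6,z2,z1,y6])]],
    .lp k0 [(nat_lit 4134),(nat_lit 4240),(nat_lit 4240),(nat_lit 4560),(nat_lit 4664),(nat_lit 3392)] [(nat_lit 265),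
    (nat_lit 265),(nat_lit 212),(nat_lit 212),(nat_lit 212),(nat_lit 212),k52,k52,k0,k0,(nat_lit 636),
    (nat_lit 636)] k0 [[k0,k0,k0,k0,k0,k0,k0,k0,k0,k0,k0,k0],[k0,k0,k0,k0,k0,k0,k0,k0,k0,k0,k0,k0],[k0,k0,k0,k0,k0,k0,
    k0,k0,k0,k0,k0,k0],[k0,k0,k0,k0,k0,k0,k0,k0,k0,k0,k0,k0],[k0,k0,k0,k0,k0,k0,k0,k0,k0,k0,k0,k0],[k0,k0,k0,k0,k0,k0,
    k0,k0,k0,k0,k0,k0],[k0,k0,k0,k0,k0,k0,k0,k0,k0,k0,k0,k0],[k0,k0,k0,k0,k0,k0,k0,k0,k0,k0,(nat_lit 212),k0],[k0,k0,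
    k0,k0,k0,k0,k0,k0,k0,k0,k0,k0],[k0,k0,k0,k0,k0,k0,k0,k0,k0,k0,k0,k0],[k0,k0,k0,k0,k0,k0,k0,k0,k0,k0,k0,
    (nat_lit 212)],[k0,k0,k0,k0,k0,k0,(nat_lit 212),k0,k0,k0,k0,k0]] (nat_lit 12720) k5
    [[(k10,(nat_lit 3763)),(k11,(nat_lit 3763)),(k9,(nat_lit 4187)),(k1,(nat_lit 4346)),(k6,(nat_lit 4347)),(k8,
    (nat_lit 4399))],[(k0,(nat_lit 4134)),(k2,(nat_lit 4187)),(k3,(nat_lit 4187)),(k4,(nat_lit 4187)),(k5,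
    (nat_lit 4187)),(k7,(nat_lit 4347))],[(k0,(nat_lit 4187)),(k2,(nat_lit 4240)),(k3,(nat_lit 4240)),(k4,
    (nat_lit 4240)),(k5,(nat_lit 4240)),(k7,(nat_lit 4400))],[(k0,(nat_lit 4187)),(k2,(nat_lit 4240)),(k3,
    (nat_lit 4240)),(k4,(nat_lit 4240)),(k5,(nat_lit 4240)),(k7,(nat_lit 4400))],[(k0,(nat_lit 4187)),(k2,
    (nat_lit 4240)),(k3,(nat_lit 4240)),(k4,(nat_lit 4240)),(k5,(nat_lit 4240)),(k7,(nat_lit 4400))],[(k0,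
    (nat_lit 4187)),(k2,(nat_lit 4240)),(k3,(nat_lit 4240)),(k4,(nat_lit 4240)),(k5,(nat_lit 4240)),(k7,
    (nat_lit 4400))],[(k0,(nat_lit 4347)),(k2,(nat_lit 4400)),(k3,(nat_lit 4400)),(k4,(nat_lit 4400)),(k5,
    (nat_lit 4400)),(k7,(nat_lit 4560))],[(k11,(nat_lit 3976)),(k10,(nat_lit 4188)),(k1,(nat_lit 4347)),(k6,
    (nat_lit 4560)),(k8,(nat_lit 4612)),(k9,(nat_lit 4612))],[(k10,(nat_lit 4028)),(k11,(nat_lit 4028)),(k1,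
    (nat_lit 4187)),(k6,(nat_lit 4612)),(k8,(nat_lit 4664)),(k9,(nat_lit 4664))],[(k10,(nat_lit 4028)),(k11,
    (nat_lit 4028)),(k1,(nat_lit 4399)),(k6,(nat_lit 4612)),(k8,(nat_lit 4664)),(k9,(nat_lit 4664))],[(k10,
    (nat_lit 3392)),(k11,(nat_lit 3392)),(k1,(nat_lit 3763)),(k6,(nat_lit 3976)),(k8,(nat_lit 4028)),(k9,
    (nat_lit 4028))],[(k10,(nat_lit 3180)),(k11,(nat_lit 3392)),(k1,(nat_lit 3763)),(k8,(nat_lit 4028)),(k9,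
    (nat_lit 4028)),(k6,(nat_lit 4188))]]
    [[k2,k0,k0,k0,k0,k1],[k1,k0,k0,k1,k0,k1],[k0,k0,k0,k0,k1,k2],[k0,k0,k0,k0,k0,k3]]
    [.ref k17 k1 [(z1,[z2,y3,y2,y7,z2]),(z1,[y1,z1,z0,z2]),(z1,[z1,y1,z0,y1]),(z1,[z0,z1,z0,z1])],.ref k47 k3 [(z2,
    [z1,z1,y1,z1,y1]),(z1,[z1,z0,z0,z1,y1]),(z1,[z0,z0,y1]),(z2,[y1,y1,z1,y3,z3])],.ref k17 k1 [(z1,[z2,y1,y2,y7,z2]),
    (z1,[y1,z0,z0,z2]),(z1,[z1,z0,z0,y1]),(z1,[z0,z1,z0,z1])],.ref k48 k0 [(z1,[z1,z3]),(z1,[z0,z0,z1]),(z1,[y1,z0,z0,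
    z3]),(z1,[y1,y3,y6,y6,z6])]],
    .lp k0 [(nat_lit 4134),(nat_lit 4240),(nat_lit 4240),(nat_lit 4560),(nat_lit 4664),(nat_lit 3392)] [(nat_lit 265),
    (nat_lit 265),(nat_lit 212),(nat_lit 212),(nat_lit 212),(nat_lit 212),k52,k52,k0,k0,(nat_lit 636),
    (nat_lit 636)] k0 [[k0,k0,k0,k0,k0,k0,k0,k0,k0,k0,k0,k0],[k0,k0,k0,k0,k0,k0,k0,k0,k0,k0,k0,k0],[k0,k0,k0,k0,k0,k0,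
    k0,k0,k0,k0,k0,k0],[k0,k0,k0,k0,k0,k0,k0,k0,k0,k0,k0,k0],[k0,k0,k0,k0,k0,k0,k0,k0,k0,k0,k0,k0],[k0,k0,k0,k0,k0,k0,
    k0,k0,k0,k0,k0,k0],[k0,k0,k0,k0,k0,k0,k0,k0,k0,k0,k0,k0],[k0,k0,k0,k0,k0,k0,k0,k0,k0,k0,(nat_lit 212),k0],[k0,k0,
    k0,k0,k0,k0,k0,k0,k0,k0,k0,k0],[k0,k0,k0,k0,k0,k0,k0,k0,k0,k0,k0,k0],[k0,k0,k0,k0,k0,k0,k0,k0,k0,k0,k0,
    (nat_lit 212)],[k0,k0,k0,k0,k0,k0,(nat_lit 212),k0,k0,k0,k0,k0]] (nat_lit 12720) k5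
    [[(k10,(nat_lit 3763)),(k11,(nat_lit 3763)),(k9,(nat_lit 4187)),(k1,(nat_lit 4346)),(k6,(nat_lit 4347)),(k8,
    (nat_lit 4399))],[(k0,(nat_lit 4134)),(k2,(nat_lit 4187)),(k3,(nat_lit 4187)),(k4,(nat_lit 4187)),(k5,
    (nat_lit 4187)),(k7,(nat_lit 4347))],[(k0,(nat_lit 4187)),(k2,(nat_lit 4240)),(k3,(nat_lit 4240)),(k4,
    (nat_lit 4240)),(k5,(nat_lit 4240)),(k7,(nat_lit 4400))],[(k0,(nat_lit 4187)),(k2,(nat_lit 4240)),(k3,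
    (nat_lit 4240)),(k4,(nat_lit 4240)),(k5,(nat_lit 4240)),(k7,(nat_lit 4400))],[(k0,(nat_lit 4187)),(k2,
    (nat_lit 4240)),(k3,(nat_lit 4240)),(k4,(nat_lit 4240)),(k5,(nat_lit 4240)),(k7,(nat_lit 4400))],[(k0,
    (nat_lit 4187)),(k2,(nat_lit 4240)),(k3,(nat_lit 4240)),(k4,(nat_lit 4240)),(k5,(nat_lit 4240)),(k7,
    (nat_lit 4400))],[(k0,(nat_lit 4347)),(k2,(nat_lit 4400)),(k3,(nat_lit 4400)),(k4,(nat_lit 4400)),(k5,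
    (nat_lit 4400)),(k7,(nat_lit 4560))],[(k11,(nat_lit 3976)),(k10,(nat_lit 4188)),(k1,(nat_lit 4347)),(k6,
    (nat_lit 4560)),(k8,(nat_lit 4612)),(k9,(nat_lit 4612))],[(k10,(nat_lit 4028)),(k11,(nat_lit 4028)),(k1,
    (nat_lit 4187)),(k6,(nat_lit 4612)),(k8,(nat_lit 4664)),(k9,(nat_lit 4664))],[(k10,(nat_lit 4028)),(k11,
    (nat_lit 4028)),(k1,(nat_lit 4399)),(k6,(nat_lit 4612)),(k8,(nat_lit 4664)),(k9,(nat_lit 4664))],[(k10,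
    (nat_lit 3392)),(k11,(nat_lit 3392)),(k1,(nat_lit 3763)),(k6,(nat_lit 3976)),(k8,(nat_lit 4028)),(k9,
    (nat_lit 4028))],[(k10,(nat_lit 3180)),(k11,(nat_lit 3392)),(k1,(nat_lit 3763)),(k8,(nat_lit 4028)),(k9,
    (nat_lit 4028)),(k6,(nat_lit 4188))]]
    [[k2,k0,k0,k0,k0,k1],[k1,k0,k0,k1,k0,k1],[k0,k0,k0,k0,k1,k2],[k0,k0,k0,k0,k0,k3]]
    [.ref k9 k0 [(z1,[z1,z1]),(z1,[z1,y2,z3]),(z1,[y2,z4,z0,z3]),(z1,[y1,y1,y3,y3,z3])],.ref k47 k3 [(z1,[z0,z1,y1]),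
    (z1,[z0,z0,y1]),(z1,[y1,z0,y2,y1,z1]),(z1,[z1,y1,z2])],.ref k0 k0 [(z1,[z0,z1]),(z1,[z0,z0,z1]),(z1,[z0,z0,z0,
    z1]),(z1,[y1,y1,y1,y1,z1])],.ref k9 k0 [(z1,[z1,z3]),(z1,[z1,z0,z3]),(z1,[y2,z0,z0,z3]),(z1,[y1,y3,y3,y3,z3])]],
    .lp k0 [(nat_lit 4134),(nat_lit 4240),(nat_lit 4240),(nat_lit 4560),(nat_lit 4664),(nat_lit 3392)] [(nat_lit 265),
    (nat_lit 265),(nat_lit 212),(nat_lit 212),(nat_lit 212),(nat_lit 212),k52,k52,k0,k0,(nat_lit 636),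
    (nat_lit 636)] k0 [[k0,k0,k0,k0,k0,k0,k0,k0,k0,k0,k0,k0],[k0,k0,k0,k0,k0,k0,k0,k0,k0,k0,k0,k0],[k0,k0,k0,k0,k0,k0,
    k0,k0,k0,k0,k0,k0],[k0,k0,k0,k0,k0,k0,k0,k0,k0,k0,k0,k0],[k0,k0,k0,k0,k0,k0,k0,k0,k0,k0,k0,k0],[k0,k0,k0,k0,k0,k0,
    k0,k0,k0,k0,k0,k0],[k0,k0,k0,k0,k0,k0,k0,k0,k0,k0,k0,k0],[k0,k0,k0,k0,k0,k0,k0,k0,k0,k0,(nat_lit 212),k0],[k0,k0,
    k0,k0,k0,k0,k0,k0,k0,k0,k0,k0],[k0,k0,k0,k0,k0,k0,k0,k0,k0,k0,k0,k0],[k0,k0,k0,k0,k0,k0,k0,k0,k0,k0,k0,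
    (nat_lit 212)],[k0,k0,k0,k0,k0,k0,(nat_lit 212),k0,k0,k0,k0,k0]] (nat_lit 12720) k5
    [[(k10,(nat_lit 3763)),(k11,(nat_lit 3763)),(k9,(nat_lit 4187)),(k1,(nat_lit 4346)),(k6,(nat_lit 4347)),(k8,
    (nat_lit 4399))],[(k0,(nat_lit 4134)),(k2,(nat_lit 4187)),(k3,(nat_lit 4187)),(k4,(nat_lit 4187)),(k5,
    (nat_lit 4187)),(k7,(nat_lit 4347))],[(k0,(nat_lit 4187)),(k2,(nat_lit 4240)),(k3,(nat_lit 4240)),(k4,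
    (nat_lit 4240)),(k5,(nat_lit 4240)),(k7,(nat_lit 4400))],[(k0,(nat_lit 4187)),(k2,(nat_lit 4240)),(k3,
    (nat_lit 4240)),(k4,(nat_lit 4240)),(k5,(nat_lit 4240)),(k7,(nat_lit 4400))],[(k0,(nat_lit 4187)),(k2,
    (nat_lit 4240)),(k3,(nat_lit 4240)),(k4,(nat_lit 4240)),(k5,(nat_lit 4240)),(k7,(nat_lit 4400))],[(k0,
    (nat_lit 4187)),(k2,(nat_lit 4240)),(k3,(nat_lit 4240)),(k4,(nat_lit 4240)),(k5,(nat_lit 4240)),(k7,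
    (nat_lit 4400))],[(k0,(nat_lit 4347)),(k2,(nat_lit 4400)),(k3,(nat_lit 4400)),(k4,(nat_lit 4400)),(k5,
    (nat_lit 4400)),(k7,(nat_lit 4560))],[(k11,(nat_lit 3976)),(k10,(nat_lit 4188)),(k1,(nat_lit 4347)),(k6,
    (nat_lit 4560)),(k8,(nat_lit 4612)),(k9,(nat_lit 4612))],[(k10,(nat_lit 4028)),(k11,(nat_lit 4028)),(k1,
    (nat_lit 4187)),(k6,(nat_lit 4612)),(k8,(nat_lit 4664)),(k9,(nat_lit 4664))],[(k10,(nat_lit 4028)),(k11,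
    (nat_lit 4028)),(k1,(nat_lit 4399)),(k6,(nat_lit 4612)),(k8,(nat_lit 4664)),(k9,(nat_lit 4664))],[(k10,
    (nat_lit 3392)),(k11,(nat_lit 3392)),(k1,(nat_lit 3763)),(k6,(nat_lit 3976)),(k8,(nat_lit 4028)),(k9,
    (nat_lit 4028))],[(k10,(nat_lit 3180)),(k11,(nat_lit 3392)),(k1,(nat_lit 3763)),(k8,(nat_lit 4028)),(k9,
    (nat_lit 4028)),(k6,(nat_lit 4188))]]
    [[k2,k0,k0,k0,k0,k1],[k1,k0,k0,k1,k0,k1],[k0,k0,k0,k0,k1,k2],[k0,k0,k0,k0,k0,k3]]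
    [.ref k1 k0 [(z8,[z9,z1]),(z4,[y3,z1,z4]),(z4,[y3,z1,z0,z4]),(z8,[y3,z1,z0,z0,z12]),(z2,[z0,y1,y2,y2,y3,z6])],
    .ref k1 k0 [(z8,[z18,z1,z0,z0,y9]),(z4,[y6,z1,z4,z0,z3]),(z4,[y6,z1,z0,z4,z3]),(z8,[y6,z1,z0,z0,z15]),(z2,[z0,y1,
    y2,y2,y3,z6])],.ref k1 k0 [(z8,[z18,z7,z6,z6,z9,y18]),(z4,[y6,y1,z2,y2,y3,z6]),(z4,[y6,y1,y2,z2,y3,z6]),(z8,[y6,
    y1,y2,y2,z9,z6]),(z2,[z0,y1,y2,y2,y3,z6])],.ref k1 k0 [(z2,[z3,z1]),(z1,[y1,z0,z1]),(z1,[y1,z0,z0,z1]),(z2,[y1,z0,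
    z0,z0,z3]),(z2,[z0,y1,y2,y2,y3,z6])]],
    .lp k0 [k78,k80,k84,k66,k84,k84] [k3,k3,k2,k2,k0,k0,k9,k9,k0,k0,k0,k0] k0 [[k0,k0,k0,k16,k0,k0,k0,k0,k0,k0,k0,k0],
    [k0,k0,k0,k0,k4,k12,k0,k0,k0,k0,k0,k0],[k0,k16,k0,k0,k12,k0,k0,k0,k0,k0,k0,k0],[k0,k0,k0,k0,k4,k0,k0,k0,k0,k0,k0,
    k0],[k12,k0,k0,k0,k0,k24,k0,k0,k0,k0,k0,k0],[k4,k0,k4,k12,k0,k0,k0,k0,k0,k0,k0,k0],[k0,k0,k0,k0,k0,k0,k0,k0,k0,k0,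
    k0,k0],[k0,k0,k0,k0,k0,k0,k0,k0,k0,k0,k0,k12],[k0,k0,k0,k0,k0,k0,k0,k0,k0,k0,k0,k0],[k0,k0,k0,k0,k0,k0,k0,k0,k0,
    k0,k0,k0],[k0,k0,k0,k0,k0,k0,k12,k0,k0,k0,k0,k0],[k0,k0,k0,k0,k0,k0,k0,k0,k0,k0,k0,k0]] (nat_lit 240) k5
    [[(k1,k78),(k8,k81),(k9,k81),(k10,k81),(k11,k81),(k6,k84)],[(k2,k63),(k0,k78),(k3,k79),(k5,k81),(k7,k84),(k4,
    k85)],[(k7,k69),(k4,k70),(k0,k79),(k2,k80),(k3,k80),(k5,k98)],[(k7,k61),(k0,k63),(k2,k80),(k3,k80),(k5,k82),(k4,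
    k86)],[(k7,k71),(k0,k81),(k2,k82),(k5,k84),(k4,k96),(k3,k98)],[(k4,k60),(k3,k70),(k7,k75),(k0,k85),(k2,k86),(k5,
    k96)],[(k2,k61),(k3,k69),(k5,k71),(k4,k75),(k0,k84),(k7,k90)],[(k6,k66),(k8,k75),(k9,k75),(k10,k75),(k11,k75),(k1,
    k84)],[(k10,k72),(k6,k75),(k1,k81),(k8,k84),(k9,k84),(k11,k84)],[(k6,k75),(k1,k81),(k8,k84),(k9,k84),(k10,k84),
    (k11,k84)],[(k6,k75),(k1,k81),(k8,k84),(k9,k84),(k10,k84),(k11,k84)],[(k9,k72),(k6,k75),(k1,k81),(k8,k84),(k10,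
    k84),(k11,k84)]]
    [[k2,k1,k0,k0,k0,k0],[k1,k1,k0,k1,k0,k0],[k0,k2,k1,k0,k0,k0],[k0,k1,k0,k2,k0,k0],[k0,k0,k1,k2,k0,k0]]
    [.ref k1 k0 [(z2,[z3,z0,y1]),(z1,[z0,z0,z1]),(z1,[y3,z1,z1,z1]),(z2,[z9,y3,y3,z0,z1]),(z2,[y12,z3,z2,y2,y1,z6])],
    .ref k1 k0 [(z8,[z6,z3,y2,z0,y1]),(z1,[z0,z0,z1]),(z4,[y6,z1,z2,z4,z1]),(z8,[z18,y3,y6,z0,z1]),(z1,[y3,z0,z0,y1,
    z0,z3])],.ref k1 k0 [(z2,[y3,z1,z2,z1]),(z1,[z0,z0,z1]),(z1,[z3,z0,y2]),(z2,[y9,z0,z6,z3,z1]),(z2,[z12,y1,y10,y6,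
    y1,z6])],.ref k1 k0 [(z6,[z3,z3,y1,z0,y1]),(z1,[z0,z0,z1]),(z3,[y3,z0,z1,z3,z1]),(z2,[z3,z0,y1]),(z6,[y12,y3,y2,
    y6,z1,z18])],.ref k1 k0 [(z4,[z3,z2,z0,y1,y1]),(z1,[z0,z0,z1]),(z2,[y3,z0,z0,z3,z1]),(z4,[z9,z0,z0,y3,y1]),(z2,
    [y6,y1,y2,z0,z1,z6])]],
    .lp k0 [(nat_lit 4134),(nat_lit 4240),(nat_lit 4240),(nat_lit 4560),(nat_lit 4664),(nat_lit 3392)] [(nat_lit 265),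
    (nat_lit 265),(nat_lit 212),(nat_lit 212),(nat_lit 212),(nat_lit 212),k52,k52,k0,k0,(nat_lit 636),
    (nat_lit 636)] k0 [[k0,k0,k0,k0,k0,k0,k0,k0,k0,k0,k0,k0],[k0,k0,k0,k0,k0,k0,k0,k0,k0,k0,k0,k0],[k0,k0,k0,k0,k0,k0,
    k0,k0,k0,k0,k0,k0],[k0,k0,k0,k0,k0,k0,k0,k0,k0,k0,k0,k0],[k0,k0,k0,k0,k0,k0,k0,k0,k0,k0,k0,k0],[k0,k0,k0,k0,k0,k0,
    k0,k0,k0,k0,k0,k0],[k0,k0,k0,k0,k0,k0,k0,k0,k0,k0,k0,k0],[k0,k0,k0,k0,k0,k0,k0,k0,k0,k0,(nat_lit 212),k0],[k0,k0,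
    k0,k0,k0,k0,k0,k0,k0,k0,k0,k0],[k0,k0,k0,k0,k0,k0,k0,k0,k0,k0,k0,k0],[k0,k0,k0,k0,k0,k0,k0,k0,k0,k0,k0,
    (nat_lit 212)],[k0,k0,k0,k0,k0,k0,(nat_lit 212),k0,k0,k0,k0,k0]] (nat_lit 12720) k5
    [[(k10,(nat_lit 3763)),(k11,(nat_lit 3763)),(k9,(nat_lit 4187)),(k1,(nat_lit 4346)),(k6,(nat_lit 4347)),(k8,
    (nat_lit 4399))],[(k0,(nat_lit 4134)),(k2,(nat_lit 4187)),(k3,(nat_lit 4187)),(k4,(nat_lit 4187)),(k5,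
    (nat_lit 4187)),(k7,(nat_lit 4347))],[(k0,(nat_lit 4187)),(k2,(nat_lit 4240)),(k3,(nat_lit 4240)),(k4,
    (nat_lit 4240)),(k5,(nat_lit 4240)),(k7,(nat_lit 4400))],[(k0,(nat_lit 4187)),(k2,(nat_lit 4240)),(k3,
    (nat_lit 4240)),(k4,(nat_lit 4240)),(k5,(nat_lit 4240)),(k7,(nat_lit 4400))],[(k0,(nat_lit 4187)),(k2,
    (nat_lit 4240)),(k3,(nat_lit 4240)),(k4,(nat_lit 4240)),(k5,(nat_lit 4240)),(k7,(nat_lit 4400))],[(k0,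
    (nat_lit 4187)),(k2,(nat_lit 4240)),(k3,(nat_lit 4240)),(k4,(nat_lit 4240)),(k5,(nat_lit 4240)),(k7,
    (nat_lit 4400))],[(k0,(nat_lit 4347)),(k2,(nat_lit 4400)),(k3,(nat_lit 4400)),(k4,(nat_lit 4400)),(k5,
    (nat_lit 4400)),(k7,(nat_lit 4560))],[(k11,(nat_lit 3976)),(k10,(nat_lit 4188)),(k1,(nat_lit 4347)),(k6,
    (nat_lit 4560)),(k8,(nat_lit 4612)),(k9,(nat_lit 4612))],[(k10,(nat_lit 4028)),(k11,(nat_lit 4028)),(k1,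
    (nat_lit 4187)),(k6,(nat_lit 4612)),(k8,(nat_lit 4664)),(k9,(nat_lit 4664))],[(k10,(nat_lit 4028)),(k11,
    (nat_lit 4028)),(k1,(nat_lit 4399)),(k6,(nat_lit 4612)),(k8,(nat_lit 4664)),(k9,(nat_lit 4664))],[(k10,
    (nat_lit 3392)),(k11,(nat_lit 3392)),(k1,(nat_lit 3763)),(k6,(nat_lit 3976)),(k8,(nat_lit 4028)),(k9,
    (nat_lit 4028))],[(k10,(nat_lit 3180)),(k11,(nat_lit 3392)),(k1,(nat_lit 3763)),(k8,(nat_lit 4028)),(k9,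
    (nat_lit 4028)),(k6,(nat_lit 4188))]]
    [[k2,k0,k0,k0,k0,k1],[k1,k0,k0,k1,k0,k1],[k0,k0,k0,k0,k1,k2],[k0,k0,k0,k0,k0,k3]]
    [.ref k9 k0 [(z4,[z3,z1]),(z1,[z0,z0,z1]),(z2,[y3,z1,z0,z2]),(z4,[y3,y1,y4,y4,z12])],.ref k51 k1 [(z1,[z6,y1,z0,
    y3]),(z1,[y3,z0,y1,z0,z3]),(z1,[z0,z0,z0,z1]),(z3,[z0,z1,z0,z1])],.ref k52 k0 [(z1,[z0,z1]),(z1,[z0,z0,z1]),(z1,
    [z0,z0,z0,z1]),(z1,[y6,y1,y2,y2,z6])],.ref k9 k0 [(z2,[z1,z1]),(z1,[z0,z0,z1]),(z1,[y1,z0,z0,z1]),(z2,[y1,y1,y2,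
    y2,z6])]],
    .lp k0 [(nat_lit 4134),(nat_lit 4240),(nat_lit 4240),(nat_lit 4560),(nat_lit 4664),(nat_lit 3392)] [(nat_lit 265),
    (nat_lit 265),(nat_lit 212),(nat_lit 212),(nat_lit 212),(nat_lit 212),k52,k52,k0,k0,(nat_lit 636),
    (nat_lit 636)] k0 [[k0,k0,k0,k0,k0,k0,k0,k0,k0,k0,k0,k0],[k0,k0,k0,k0,k0,k0,k0,k0,k0,k0,k0,k0],[k0,k0,k0,k0,k0,k0,
    k0,k0,k0,k0,k0,k0],[k0,k0,k0,k0,k0,k0,k0,k0,k0,k0,k0,k0],[k0,k0,k0,k0,k0,k0,k0,k0,k0,k0,k0,k0],[k0,k0,k0,k0,k0,k0,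
    k0,k0,k0,k0,k0,k0],[k0,k0,k0,k0,k0,k0,k0,k0,k0,k0,k0,k0],[k0,k0,k0,k0,k0,k0,k0,k0,k0,k0,(nat_lit 212),k0],[k0,k0,
    k0,k0,k0,k0,k0,k0,k0,k0,k0,k0],[k0,k0,k0,k0,k0,k0,k0,k0,k0,k0,k0,k0],[k0,k0,k0,k0,k0,k0,k0,k0,k0,k0,k0,
    (nat_lit 212)],[k0,k0,k0,k0,k0,k0,(nat_lit 212),k0,k0,k0,k0,k0]] (nat_lit 12720) k5
    [[(k10,(nat_lit 3763)),(k11,(nat_lit 3763)),(k9,(nat_lit 4187)),(k1,(nat_lit 4346)),(k6,(nat_lit 4347)),(k8,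
    (nat_lit 4399))],[(k0,(nat_lit 4134)),(k2,(nat_lit 4187)),(k3,(nat_lit 4187)),(k4,(nat_lit 4187)),(k5,
    (nat_lit 4187)),(k7,(nat_lit 4347))],[(k0,(nat_lit 4187)),(k2,(nat_lit 4240)),(k3,(nat_lit 4240)),(k4,
    (nat_lit 4240)),(k5,(nat_lit 4240)),(k7,(nat_lit 4400))],[(k0,(nat_lit 4187)),(k2,(nat_lit 4240)),(k3,
    (nat_lit 4240)),(k4,(nat_lit 4240)),(k5,(nat_lit 4240)),(k7,(nat_lit 4400))],[(k0,(nat_lit 4187)),(k2,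
    (nat_lit 4240)),(k3,(nat_lit 4240)),(k4,(nat_lit 4240)),(k5,(nat_lit 4240)),(k7,(nat_lit 4400))],[(k0,
    (nat_lit 4187)),(k2,(nat_lit 4240)),(k3,(nat_lit 4240)),(k4,(nat_lit 4240)),(k5,(nat_lit 4240)),(k7,
    (nat_lit 4400))],[(k0,(nat_lit 4347)),(k2,(nat_lit 4400)),(k3,(nat_lit 4400)),(k4,(nat_lit 4400)),(k5,
    (nat_lit 4400)),(k7,(nat_lit 4560))],[(k11,(nat_lit 3976)),(k10,(nat_lit 4188)),(k1,(nat_lit 4347)),(k6,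
    (nat_lit 4560)),(k8,(nat_lit 4612)),(k9,(nat_lit 4612))],[(k10,(nat_lit 4028)),(k11,(nat_lit 4028)),(k1,
    (nat_lit 4187)),(k6,(nat_lit 4612)),(k8,(nat_lit 4664)),(k9,(nat_lit 4664))],[(k10,(nat_lit 4028)),(k11,
    (nat_lit 4028)),(k1,(nat_lit 4399)),(k6,(nat_lit 4612)),(k8,(nat_lit 4664)),(k9,(nat_lit 4664))],[(k10,
    (nat_lit 3392)),(k11,(nat_lit 3392)),(k1,(nat_lit 3763)),(k6,(nat_lit 3976)),(k8,(nat_lit 4028)),(k9,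
    (nat_lit 4028))],[(k10,(nat_lit 3180)),(k11,(nat_lit 3392)),(k1,(nat_lit 3763)),(k8,(nat_lit 4028)),(k9,
    (nat_lit 4028)),(k6,(nat_lit 4188))]]
    [[k2,k0,k0,k0,k0,k1],[k1,k0,k0,k1,k0,k1],[k0,k0,k0,k0,k1,k2],[k0,k0,k0,k0,k0,k3]]
    [.ref k46 k3 [(z1,[z1,z1,y1]),(z1,[z1,y1,z1]),(z1,[y1,z1,z1])],.ref k49 k3 [(z1,[z1,z1,z0,y1]),(z1,[z1,z0,z1,y1]),
    (z1,[y1,z0,z0,z1])],.ref k50 k3 [(z2,[z1,z1,y2]),(z1,[z1,z0,y1]),(z1,[y1,z0,z2])],.ref k53 k3 [(z1,[z1,z3,y3]),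
    (z1,[z1]),(z1,[y1,z0,z3])]],
    .lp k0 [k84,k78,k84,k78,k80,k72] [k0,k0,k3,k3,k0,k0,k3,k3,k2,k2,k6,k6] k0 [[k0,k0,k6,k6,k0,k0,k0,k0,k0,k0,k0,k0],
    [k0,k0,k0,k0,k10,k6,k0,k0,k0,k0,k0,k0],[k0,k6,k0,k0,k0,k0,k0,k0,k0,k0,k0,k0],[k0,k6,k0,k0,k0,k0,k0,k0,k0,k0,k0,
    k0],[k6,k0,k0,k0,k0,k12,k0,k0,k0,k0,k0,k0],[k10,k0,k0,k0,k0,k0,k0,k0,k0,k0,k0,k0],[k0,k0,k0,k0,k0,k0,k0,k0,k0,k0,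
    k0,k0],[k0,k0,k0,k0,k0,k0,k0,k0,k0,k0,k0,k16],[k0,k0,k0,k0,k0,k0,k0,k0,k0,k0,k8,k0],[k0,k0,k0,k0,k0,k0,k0,k0,k0,
    k0,k0,k0],[k0,k0,k0,k0,k0,k0,k16,k0,k0,k0,k0,k0],[k0,k0,k0,k0,k0,k0,k0,k0,k0,k8,k16,k0]] (nat_lit 240) k5
    [[(k1,k68),(k8,k74),(k10,k78),(k11,k78),(k9,k82),(k6,k97)],[(k2,k75),(k5,k78),(k3,k81),(k0,k84),(k7,k87),(k4,
    k94)],[(k7,k68),(k4,k75),(k3,k78),(k0,k81),(k2,k84),(k5,k87)],[(k0,k75),(k2,k78),(k7,k78),(k4,k81),(k5,k81),(k3,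
    k84)],[(k0,k78),(k2,k81),(k7,k81),(k4,k84),(k5,k84),(k3,k87)],[(k4,k72),(k3,k75),(k2,k81),(k7,k81),(k5,k84),(k0,
    k94)],[(k3,k68),(k2,k78),(k4,k81),(k5,k81),(k0,k87),(k7,k90)],[(k10,k75),(k11,k75),(k6,k78),(k8,k79),(k9,k79),(k1,
    k97)],[(k10,k60),(k11,k76),(k6,k79),(k8,k80),(k9,k80),(k1,k82)],[(k1,k74),(k10,k76),(k11,k76),(k6,k79),(k8,k80),
    (k9,k80)],[(k11,k72),(k6,k75),(k8,k76),(k9,k76),(k1,k78),(k10,k80)],[(k9,k60),(k6,k75),(k8,k76),(k1,k78),(k11,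
    k80),(k10,k88)]]
    [[k2,k1,k0,k0,k0,k0],[k0,k1,k0,k2,k0,k0],[k0,k0,k0,k0,k2,k1],[k0,k0,k0,k0,k1,k2]]
    [.ref k2 k2 [(z1,[z1,y3,y5,y4,z4]),(z1,[y1,z1,z1,z2]),(z1,[z1,y1,z1]),(z1,[z1,z1,y1])],.ref k2 k2 [(z1,[z1,y1,y3,
    y2,z2]),(z1,[y1,y1,y1,z0,z2]),(z1,[z1,z1,z3,z2,y2]),(z1,[z1,z3,z1,z2,y2])],.ref k25 k3 [(z2,[z1,z1,y2]),(z1,[y1,
    z0,z2]),(z1,[z1,z0,y1]),(z2,[z1,y1,y4,y2,z2])],.ref k2 k2 [(z1,[y1,y2,y4,y4,z4]),(z1,[z1,z0,z0,z2]),(z1,[y1,z0,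
    z2]),(z1,[y1,z2])]],
    .lp k0 [(nat_lit 4134),(nat_lit 4240),(nat_lit 4240),(nat_lit 4560),(nat_lit 4664),(nat_lit 3392)] [(nat_lit 265),
    (nat_lit 265),(nat_lit 212),(nat_lit 212),(nat_lit 212),(nat_lit 212),k52,k52,k0,k0,(nat_lit 636),
    (nat_lit 636)] k0 [[k0,k0,k0,k0,k0,k0,k0,k0,k0,k0,k0,k0],[k0,k0,k0,k0,k0,k0,k0,k0,k0,k0,k0,k0],[k0,k0,k0,k0,k0,k0,
    k0,k0,k0,k0,k0,k0],[k0,k0,k0,k0,k0,k0,k0,k0,k0,k0,k0,k0],[k0,k0,k0,k0,k0,k0,k0,k0,k0,k0,k0,k0],[k0,k0,k0,k0,k0,k0,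
    k0,k0,k0,k0,k0,k0],[k0,k0,k0,k0,k0,k0,k0,k0,k0,k0,k0,k0],[k0,k0,k0,k0,k0,k0,k0,k0,k0,k0,(nat_lit 212),k0],[k0,k0,
    k0,k0,k0,k0,k0,k0,k0,k0,k0,k0],[k0,k0,k0,k0,k0,k0,k0,k0,k0,k0,k0,k0],[k0,k0,k0,k0,k0,k0,k0,k0,k0,k0,k0,
    (nat_lit 212)],[k0,k0,k0,k0,k0,k0,(nat_lit 212),k0,k0,k0,k0,k0]] (nat_lit 12720) k5
    [[(k10,(nat_lit 3763)),(k11,(nat_lit 3763)),(k9,(nat_lit 4187)),(k1,(nat_lit 4346)),(k6,(nat_lit 4347)),(k8,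
    (nat_lit 4399))],[(k0,(nat_lit 4134)),(k2,(nat_lit 4187)),(k3,(nat_lit 4187)),(k4,(nat_lit 4187)),(k5,
    (nat_lit 4187)),(k7,(nat_lit 4347))],[(k0,(nat_lit 4187)),(k2,(nat_lit 4240)),(k3,(nat_lit 4240)),(k4,
    (nat_lit 4240)),(k5,(nat_lit 4240)),(k7,(nat_lit 4400))],[(k0,(nat_lit 4187)),(k2,(nat_lit 4240)),(k3,
    (nat_lit 4240)),(k4,(nat_lit 4240)),(k5,(nat_lit 4240)),(k7,(nat_lit 4400))],[(k0,(nat_lit 4187)),(k2,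
    (nat_lit 4240)),(k3,(nat_lit 4240)),(k4,(nat_lit 4240)),(k5,(nat_lit 4240)),(k7,(nat_lit 4400))],[(k0,
    (nat_lit 4187)),(k2,(nat_lit 4240)),(k3,(nat_lit 4240)),(k4,(nat_lit 4240)),(k5,(nat_lit 4240)),(k7,
    (nat_lit 4400))],[(k0,(nat_lit 4347)),(k2,(nat_lit 4400)),(k3,(nat_lit 4400)),(k4,(nat_lit 4400)),(k5,
    (nat_lit 4400)),(k7,(nat_lit 4560))],[(k11,(nat_lit 3976)),(k10,(nat_lit 4188)),(k1,(nat_lit 4347)),(k6,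
    (nat_lit 4560)),(k8,(nat_lit 4612)),(k9,(nat_lit 4612))],[(k10,(nat_lit 4028)),(k11,(nat_lit 4028)),(k1,
    (nat_lit 4187)),(k6,(nat_lit 4612)),(k8,(nat_lit 4664)),(k9,(nat_lit 4664))],[(k10,(nat_lit 4028)),(k11,
    (nat_lit 4028)),(k1,(nat_lit 4399)),(k6,(nat_lit 4612)),(k8,(nat_lit 4664)),(k9,(nat_lit 4664))],[(k10,
    (nat_lit 3392)),(k11,(nat_lit 3392)),(k1,(nat_lit 3763)),(k6,(nat_lit 3976)),(k8,(nat_lit 4028)),(k9,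
    (nat_lit 4028))],[(k10,(nat_lit 3180)),(k11,(nat_lit 3392)),(k1,(nat_lit 3763)),(k8,(nat_lit 4028)),(k9,
    (nat_lit 4028)),(k6,(nat_lit 4188))]]
    [[k2,k0,k0,k0,k0,k1],[k1,k0,k0,k1,k0,k1],[k0,k0,k0,k0,k1,k2],[k0,k0,k0,k0,k0,k3]]
    [.ref k1 k0 [(z1,[z1,z1]),(z1,[y1,z2,z1]),(z1,[y1,z2,z0,z1]),(z1,[z0,z0,z0,z0,z1]),(z1,[z0,y3,y1,y1,y1,z3])],
    .ref k1 k0 [(z2,[z3,z3,z0,z0,y1]),(z2,[y3,z3,z2,z0,z1]),(z2,[y3,z3,z0,z2,z1]),(z1,[z0,z0,z0,z0,z1]),(z1,[z0,y3,y1,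
    y1,y1,z3])],.ref k1 k0 [(z2,[z3,z9,z1,z1,z1,y3]),(z2,[y3,y3,z1,y1,y1,z3]),(z2,[y3,y3,y1,z1,y1,z3]),(z1,[z0,z0,z0,
    z0,z1]),(z1,[z0,y3,y1,y1,y1,z3])],.ref k1 k0 [(z1,[z1,z3]),(z1,[y1,z0,z1]),(z1,[y1,z0,z0,z1]),(z1,[z0,z0,z0,z0,
    z1]),(z1,[z0,y3,y1,y1,y1,z3])]],
    .lp k0 [(nat_lit 4134),(nat_lit 4240),(nat_lit 4240),(nat_lit 4560),(nat_lit 4664),(nat_lit 3392)] [(nat_lit 265),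
    (nat_lit 265),(nat_lit 212),(nat_lit 212),(nat_lit 212),(nat_lit 212),k52,k52,k0,k0,(nat_lit 636),
    (nat_lit 636)] k0 [[k0,k0,k0,k0,k0,k0,k0,k0,k0,k0,k0,k0],[k0,k0,k0,k0,k0,k0,k0,k0,k0,k0,k0,k0],[k0,k0,k0,k0,k0,k0,
    k0,k0,k0,k0,k0,k0],[k0,k0,k0,k0,k0,k0,k0,k0,k0,k0,k0,k0],[k0,k0,k0,k0,k0,k0,k0,k0,k0,k0,k0,k0],[k0,k0,k0,k0,k0,k0,
    k0,k0,k0,k0,k0,k0],[k0,k0,k0,k0,k0,k0,k0,k0,k0,k0,k0,k0],[k0,k0,k0,k0,k0,k0,k0,k0,k0,k0,(nat_lit 212),k0],[k0,k0,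
    k0,k0,k0,k0,k0,k0,k0,k0,k0,k0],[k0,k0,k0,k0,k0,k0,k0,k0,k0,k0,k0,k0],[k0,k0,k0,k0,k0,k0,k0,k0,k0,k0,k0,
    (nat_lit 212)],[k0,k0,k0,k0,k0,k0,(nat_lit 212),k0,k0,k0,k0,k0]] (nat_lit 12720) k5
    [[(k10,(nat_lit 3763)),(k11,(nat_lit 3763)),(k9,(nat_lit 4187)),(k1,(nat_lit 4346)),(k6,(nat_lit 4347)),(k8,
    (nat_lit 4399))],[(k0,(nat_lit 4134)),(k2,(nat_lit 4187)),(k3,(nat_lit 4187)),(k4,(nat_lit 4187)),(k5,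
    (nat_lit 4187)),(k7,(nat_lit 4347))],[(k0,(nat_lit 4187)),(k2,(nat_lit 4240)),(k3,(nat_lit 4240)),(k4,
    (nat_lit 4240)),(k5,(nat_lit 4240)),(k7,(nat_lit 4400))],[(k0,(nat_lit 4187)),(k2,(nat_lit 4240)),(k3,
    (nat_lit 4240)),(k4,(nat_lit 4240)),(k5,(nat_lit 4240)),(k7,(nat_lit 4400))],[(k0,(nat_lit 4187)),(k2,
    (nat_lit 4240)),(k3,(nat_lit 4240)),(k4,(nat_lit 4240)),(k5,(nat_lit 4240)),(k7,(nat_lit 4400))],[(k0,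
    (nat_lit 4187)),(k2,(nat_lit 4240)),(k3,(nat_lit 4240)),(k4,(nat_lit 4240)),(k5,(nat_lit 4240)),(k7,
    (nat_lit 4400))],[(k0,(nat_lit 4347)),(k2,(nat_lit 4400)),(k3,(nat_lit 4400)),(k4,(nat_lit 4400)),(k5,
    (nat_lit 4400)),(k7,(nat_lit 4560))],[(k11,(nat_lit 3976)),(k10,(nat_lit 4188)),(k1,(nat_lit 4347)),(k6,
    (nat_lit 4560)),(k8,(nat_lit 4612)),(k9,(nat_lit 4612))],[(k10,(nat_lit 4028)),(k11,(nat_lit 4028)),(k1,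
    (nat_lit 4187)),(k6,(nat_lit 4612)),(k8,(nat_lit 4664)),(k9,(nat_lit 4664))],[(k10,(nat_lit 4028)),(k11,
    (nat_lit 4028)),(k1,(nat_lit 4399)),(k6,(nat_lit 4612)),(k8,(nat_lit 4664)),(k9,(nat_lit 4664))],[(k10,
    (nat_lit 3392)),(k11,(nat_lit 3392)),(k1,(nat_lit 3763)),(k6,(nat_lit 3976)),(k8,(nat_lit 4028)),(k9,
    (nat_lit 4028))],[(k10,(nat_lit 3180)),(k11,(nat_lit 3392)),(k1,(nat_lit 3763)),(k8,(nat_lit 4028)),(k9,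
    (nat_lit 4028)),(k6,(nat_lit 4188))]]
    [[k2,k0,k0,k0,k0,k1],[k1,k0,k0,k1,k0,k1],[k0,k0,k0,k0,k1,k2],[k0,k0,k0,k0,k0,k3]]
    [.ref k9 k0 [(z1,[z0,z1]),(z1,[z0,z0,z1]),(z1,[y3,z2,z0,z1]),(z1,[z0,y1,y1,y1,z3])],.ref k56 k1 [(z3,[z3,y1,z0,
    y1]),(z1,[y3,z0,y1,z0,z3]),(z1,[z0,z0,z0,z1]),(z1,[z0,z1])],.ref k28 k0 [(z1,[z0,z1]),(z1,[z0,z0,z1]),(z1,[z0,z0,
    z0,z1]),(z1,[y3,y1,y1,y1,z3])],.ref k9 k0 [(z1,[z0,z1]),(z1,[z0,z0,z1]),(z1,[y1,z0,z0,z1]),(z1,[z0,y1,y1,y1,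
    z3])]],
    .lp k0 [(nat_lit 61214),(nat_lit 57600),(nat_lit 57600),(nat_lit 58322),(nat_lit 62660),
    (nat_lit 48200)] [(nat_lit 723),(nat_lit 723),(nat_lit 2530),(nat_lit 2530),(nat_lit 2530),(nat_lit 2530),
    (nat_lit 2169),(nat_lit 2169),k0,k0,(nat_lit 7230),(nat_lit 7230)] k0 [[k0,k0,(nat_lit 3615),(nat_lit 723),k0,k0,
    k0,k0,k0,k0,k0,k0],[(nat_lit 2892),k0,k0,k0,k0,k0,k0,k0,k0,k0,k0,k0],[k0,(nat_lit 723),k0,k0,(nat_lit 723),k0,k0,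
    k0,k0,k0,k0,k0],[k0,(nat_lit 3615),k0,k0,(nat_lit 3615),k0,k0,k0,k0,k0,k0,k0],[k0,k0,k0,k0,k0,k0,k0,k0,k0,k0,k0,
    k0],[k0,k0,(nat_lit 3615),(nat_lit 723),k0,k0,k0,k0,k0,k0,k0,k0],[k0,k0,k0,k0,k0,k0,k0,k0,k0,k0,k0,k0],[k0,k0,k0,
    k0,k0,k0,k0,k0,k0,k0,(nat_lit 8676),k0],[k0,k0,k0,k0,k0,k0,k0,k0,k0,k0,k0,k0],[k0,k0,k0,k0,k0,k0,k0,k0,k0,k0,k0,
    k0],[k0,k0,k0,k0,k0,k0,k0,k0,k0,k0,k0,k0],[k0,k0,k0,k0,k0,k0,(nat_lit 8676),k0,k0,k0,k0,k0]] (nat_lit 173520) k5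
    [[(k9,(nat_lit 53261)),(k10,(nat_lit 54707)),(k11,(nat_lit 54707)),(k6,(nat_lit 59768)),(k1,(nat_lit 61214)),(k8,
    (nat_lit 61937))],[(k5,(nat_lit 55792)),(k2,(nat_lit 58684)),(k3,(nat_lit 59407)),(k4,(nat_lit 59407)),(k7,
    (nat_lit 59768)),(k0,(nat_lit 64106))],[(k3,(nat_lit 54708)),(k4,(nat_lit 57600)),(k7,(nat_lit 57961)),(k5,
    (nat_lit 58323)),(k0,(nat_lit 59407)),(k2,(nat_lit 61215))],[(k7,(nat_lit 57238)),(k2,(nat_lit 57600)),(k5,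
    (nat_lit 57600)),(k0,(nat_lit 58684)),(k3,(nat_lit 61215)),(k4,(nat_lit 61215))],[(k7,(nat_lit 54346)),(k0,
    (nat_lit 55792)),(k2,(nat_lit 57600)),(k5,(nat_lit 57600)),(k3,(nat_lit 58323)),(k4,(nat_lit 58323))],[(k3,
    (nat_lit 57600)),(k4,(nat_lit 57600)),(k7,(nat_lit 57961)),(k5,(nat_lit 58323)),(k0,(nat_lit 59407)),(k2,
    (nat_lit 61215))],[(k5,(nat_lit 54346)),(k2,(nat_lit 57238)),(k3,(nat_lit 57961)),(k4,(nat_lit 57961)),(k7,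
    (nat_lit 58322)),(k0,(nat_lit 59768))],[(k11,(nat_lit 53261)),(k6,(nat_lit 58322)),(k1,(nat_lit 59768)),(k8,
    (nat_lit 60491)),(k9,(nat_lit 60491)),(k10,(nat_lit 61937))],[(k1,(nat_lit 53261)),(k10,(nat_lit 55430)),(k11,
    (nat_lit 55430)),(k6,(nat_lit 60491)),(k8,(nat_lit 62660)),(k9,(nat_lit 62660))],[(k10,(nat_lit 55430)),(k11,
    (nat_lit 55430)),(k6,(nat_lit 60491)),(k1,(nat_lit 61937)),(k8,(nat_lit 62660)),(k9,(nat_lit 62660))],[(k10,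
    (nat_lit 48200)),(k11,(nat_lit 48200)),(k6,(nat_lit 53261)),(k1,(nat_lit 54707)),(k8,(nat_lit 55430)),(k9,
    (nat_lit 55430))],[(k10,(nat_lit 48200)),(k11,(nat_lit 48200)),(k1,(nat_lit 54707)),(k8,(nat_lit 55430)),(k9,
    (nat_lit 55430)),(k6,(nat_lit 61937))]]
    [[k1,k0,k0,k1,k0,k1],[k0,k0,k1,k2,k0,k0],[k0,k0,k0,k0,k1,k2],[k0,k0,k0,k0,k0,k3]]
    [.ref k55 k0 [(z1,[z0,z1]),(z1,[z0,z0,z1]),(z1,[y1,z0,y1,z1])],.ref k55 k0 [(z1,[z0,z1]),(z1,[z0,z0,z1]),(z1,[y1,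
    y1,y2,z2])],.ref k11 k1 [(z1,[z1,y1,y3,z2]),(z1,[y1,z0,z2]),(z1,[z1,z0,y1])],.ref k57 k3 [(z2,[y1,z3]),(z1,[z1]),
    (z1,[y1,z0,z3])]],
    .base (.spec k4 false k0 [(z1,[z1,z2,z1,y1]),(z1,[z0,z0,z1])])]

theorem hB6_124_4 : blkB [0, 0, 0, 1, 1, 1] [] sp6 hS6_124 (pcls (n := 6) [0, 0, 0, 1, 1, 1]) hD6_124 117 4 hN6_124_4 = true := by
  decide +kernel

/-- nodes 60 to 71 -/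
noncomputable def hN6_124_5 : List HM :=
  [.base (.spec k3 false k0 [(z1,[z0,z1]),(z1,[z1,z1,z2,y1])]),
    .lp k0 [k40,k32,k44,k42,k40,k40] [k2,k2,k6,k6,k0,k0,k1,k1,k2,k2,k2,k2] k0 [[k0,k0,k0,k0,k0,k4,k0,k0,k0,k0,k0,k0],
    [k0,k0,k0,k0,k0,k0,k0,k0,k0,k0,k0,k0],[k0,k0,k0,k0,k0,k0,k0,k0,k0,k0,k0,k0],[k0,k0,k0,k0,k0,k0,k0,k0,k0,k0,k0,k0],
    [k0,k4,k0,k0,k0,k0,k0,k0,k0,k0,k0,k0],[k0,k0,k0,k0,k0,k0,k0,k0,k0,k0,k0,k0],[k0,k0,k0,k0,k0,k0,k0,k0,k0,k0,k0,k0],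
    [k0,k0,k0,k0,k0,k0,k0,k0,k0,k0,k0,k0],[k0,k0,k0,k0,k0,k0,k0,k0,k0,k0,k0,k0],[k0,k0,k0,k0,k0,k0,k0,k0,k0,k0,k0,k0],
    [k0,k0,k0,k0,k0,k0,k0,k0,k0,k0,k0,k0],[k0,k0,k0,k0,k0,k0,k0,k0,k0,k0,k0,k0]] k120 k5
    [[(k1,k40),(k8,k40),(k9,k40),(k10,k40),(k11,k40),(k6,k41)],[(k2,k36),(k3,k36),(k4,k38),(k0,k40),(k7,k41),(k5,
    k42)],[(k2,k32),(k3,k32),(k0,k36),(k4,k38),(k5,k38),(k7,k41)],[(k2,k32),(k3,k32),(k0,k36),(k7,k37),(k4,k38),(k5,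
    k38)],[(k2,k38),(k3,k38),(k0,k42),(k7,k43),(k4,k44),(k5,k44)],[(k0,k38),(k2,k38),(k3,k38),(k7,k43),(k4,k44),(k5,
    k44)],[(k2,k37),(k0,k41),(k3,k41),(k7,k42),(k4,k43),(k5,k43)],[(k1,k41),(k8,k41),(k9,k41),(k10,k41),(k11,k41),(k6,
    k42)],[(k1,k40),(k8,k40),(k9,k40),(k10,k40),(k11,k40),(k6,k41)],[(k1,k40),(k8,k40),(k9,k40),(k10,k40),(k11,k40),
    (k6,k41)],[(k1,k40),(k8,k40),(k9,k40),(k10,k40),(k11,k40),(k6,k41)],[(k1,k40),(k8,k40),(k9,k40),(k10,k40),(k11,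
    k40),(k6,k41)]]
    [[k2,k1,k0,k0,k0,k0],[k1,k1,k0,k1,k0,k0],[k0,k3,k0,k0,k0,k0],[k0,k2,k1,k0,k0,k0]]
    [.ref k1 k0 [(z8,[z14,y1,y7]),(z4,[y2,z1,z7]),(z4,[y2,z1,z1,z6]),(z8,[z2,y1,y1,z0,z6]),(z4,[y8,z1,y2,y6,y3,z12])],
    .ref k1 k0 [(z8,[z28,y1,y14,z0,y7]),(z4,[y4,z1,z8,z0,z1]),(z4,[y4,z1,z2,z6,z1]),(z8,[z4,y1,y2,z0,z5]),(z4,[y16,z1,
    z2,y6,z1,z12])],.ref k1 k0 [(z4,[y14,z3,z21]),(z1,[z1]),(z2,[z2,z0,y3,z3]),(z4,[y2,z0,z3,z0,z3]),(z4,[z16,y3,y30,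
    y6,y3,z12])],.ref k1 k0 [(z4,[y14,z3,z14,z7]),(z2,[z2,z0,z1,y1]),(z1,[z1,z0,y1,z1]),(z4,[y2,z0,z2,z1,z3]),(z4,
    [z16,y3,y22,y14,y3,z12])]],
    .base (.spec k3 false k0 [(z1,[z0,z1]),(z2,[z1,z2,z4,z1,y2])]),
    .lp k0 [k40,k32,k44,k42,k40,k40] [k2,k2,k6,k6,k0,k0,k1,k1,k2,k2,k2,k2] k0 [[k0,k0,k0,k0,k0,k4,k0,k0,k0,k0,k0,k0],
    [k0,k0,k0,k0,k0,k0,k0,k0,k0,k0,k0,k0],[k0,k0,k0,k0,k0,k0,k0,k0,k0,k0,k0,k0],[k0,k0,k0,k0,k0,k0,k0,k0,k0,k0,k0,k0],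
    [k0,k4,k0,k0,k0,k0,k0,k0,k0,k0,k0,k0],[k0,k0,k0,k0,k0,k0,k0,k0,k0,k0,k0,k0],[k0,k0,k0,k0,k0,k0,k0,k0,k0,k0,k0,k0],
    [k0,k0,k0,k0,k0,k0,k0,k0,k0,k0,k0,k0],[k0,k0,k0,k0,k0,k0,k0,k0,k0,k0,k0,k0],[k0,k0,k0,k0,k0,k0,k0,k0,k0,k0,k0,k0],
    [k0,k0,k0,k0,k0,k0,k0,k0,k0,k0,k0,k0],[k0,k0,k0,k0,k0,k0,k0,k0,k0,k0,k0,k0]] k120 k5
    [[(k1,k40),(k8,k40),(k9,k40),(k10,k40),(k11,k40),(k6,k41)],[(k2,k36),(k3,k36),(k4,k38),(k0,k40),(k7,k41),(k5,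
    k42)],[(k2,k32),(k3,k32),(k0,k36),(k4,k38),(k5,k38),(k7,k41)],[(k2,k32),(k3,k32),(k0,k36),(k7,k37),(k4,k38),(k5,
    k38)],[(k2,k38),(k3,k38),(k0,k42),(k7,k43),(k4,k44),(k5,k44)],[(k0,k38),(k2,k38),(k3,k38),(k7,k43),(k4,k44),(k5,
    k44)],[(k2,k37),(k0,k41),(k3,k41),(k7,k42),(k4,k43),(k5,k43)],[(k1,k41),(k8,k41),(k9,k41),(k10,k41),(k11,k41),(k6,
    k42)],[(k1,k40),(k8,k40),(k9,k40),(k10,k40),(k11,k40),(k6,k41)],[(k1,k40),(k8,k40),(k9,k40),(k10,k40),(k11,k40),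
    (k6,k41)],[(k1,k40),(k8,k40),(k9,k40),(k10,k40),(k11,k40),(k6,k41)],[(k1,k40),(k8,k40),(k9,k40),(k10,k40),(k11,
    k40),(k6,k41)]]
    [[k2,k1,k0,k0,k0,k0],[k1,k1,k0,k1,k0,k0],[k0,k3,k0,k0,k0,k0],[k0,k2,k1,k0,k0,k0]]
    [.ref k1 k0 [(z4,[z9,y1,y3]),(z2,[y3,z1,z3]),(z1,[z0,z0,z0,z1]),(z4,[z3,y1,y1,z0,z2]),(z2,[y6,z1,z0,y2,y1,z6])],
    .ref k1 k0 [(z4,[z18,y1,y6,z0,y3]),(z2,[y6,z1,z4,z0,z1]),(z1,[z0,z0,z0,z1]),(z4,[z6,y1,y2,z0,z1]),(z2,[y12,z1,z2,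
    y2,z1,z6])],.ref k1 k0 [(z2,[y3,z1,z3]),(z1,[z1]),(z1,[z0,z0,z0,z1]),(z2,[y1,z0,z1,z0,z1]),(z2,[z4,y1,y6,y2,y1,
    z6])],.ref k1 k0 [(z4,[y9,z2,z6,z3]),(z2,[z3,z0,z0,y1]),(z1,[z0,z0,z0,z1]),(z4,[y3,z0,z2,z1,z2]),(z2,[z6,y1,y6,y4,
    y1,z6])]],
    .lp k0 [(nat_lit 4134),(nat_lit 4240),(nat_lit 4240),(nat_lit 4560),(nat_lit 4664),(nat_lit 3392)] [(nat_lit 265),
    (nat_lit 265),(nat_lit 212),(nat_lit 212),(nat_lit 212),(nat_lit 212),k52,k52,k0,k0,(nat_lit 636),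
    (nat_lit 636)] k0 [[k0,k0,k0,k0,k0,k0,k0,k0,k0,k0,k0,k0],[k0,k0,k0,k0,k0,k0,k0,k0,k0,k0,k0,k0],[k0,k0,k0,k0,k0,k0,
    k0,k0,k0,k0,k0,k0],[k0,k0,k0,k0,k0,k0,k0,k0,k0,k0,k0,k0],[k0,k0,k0,k0,k0,k0,k0,k0,k0,k0,k0,k0],[k0,k0,k0,k0,k0,k0,
    k0,k0,k0,k0,k0,k0],[k0,k0,k0,k0,k0,k0,k0,k0,k0,k0,k0,k0],[k0,k0,k0,k0,k0,k0,k0,k0,k0,k0,(nat_lit 212),k0],[k0,k0,
    k0,k0,k0,k0,k0,k0,k0,k0,k0,k0],[k0,k0,k0,k0,k0,k0,k0,k0,k0,k0,k0,k0],[k0,k0,k0,k0,k0,k0,k0,k0,k0,k0,k0,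
    (nat_lit 212)],[k0,k0,k0,k0,k0,k0,(nat_lit 212),k0,k0,k0,k0,k0]] (nat_lit 12720) k5
    [[(k10,(nat_lit 3763)),(k11,(nat_lit 3763)),(k9,(nat_lit 4187)),(k1,(nat_lit 4346)),(k6,(nat_lit 4347)),(k8,
    (nat_lit 4399))],[(k0,(nat_lit 4134)),(k2,(nat_lit 4187)),(k3,(nat_lit 4187)),(k4,(nat_lit 4187)),(k5,
    (nat_lit 4187)),(k7,(nat_lit 4347))],[(k0,(nat_lit 4187)),(k2,(nat_lit 4240)),(k3,(nat_lit 4240)),(k4,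
    (nat_lit 4240)),(k5,(nat_lit 4240)),(k7,(nat_lit 4400))],[(k0,(nat_lit 4187)),(k2,(nat_lit 4240)),(k3,
    (nat_lit 4240)),(k4,(nat_lit 4240)),(k5,(nat_lit 4240)),(k7,(nat_lit 4400))],[(k0,(nat_lit 4187)),(k2,
    (nat_lit 4240)),(k3,(nat_lit 4240)),(k4,(nat_lit 4240)),(k5,(nat_lit 4240)),(k7,(nat_lit 4400))],[(k0,
    (nat_lit 4187)),(k2,(nat_lit 4240)),(k3,(nat_lit 4240)),(k4,(nat_lit 4240)),(k5,(nat_lit 4240)),(k7,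
    (nat_lit 4400))],[(k0,(nat_lit 4347)),(k2,(nat_lit 4400)),(k3,(nat_lit 4400)),(k4,(nat_lit 4400)),(k5,
    (nat_lit 4400)),(k7,(nat_lit 4560))],[(k11,(nat_lit 3976)),(k10,(nat_lit 4188)),(k1,(nat_lit 4347)),(k6,
    (nat_lit 4560)),(k8,(nat_lit 4612)),(k9,(nat_lit 4612))],[(k10,(nat_lit 4028)),(k11,(nat_lit 4028)),(k1,
    (nat_lit 4187)),(k6,(nat_lit 4612)),(k8,(nat_lit 4664)),(k9,(nat_lit 4664))],[(k10,(nat_lit 4028)),(k11,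
    (nat_lit 4028)),(k1,(nat_lit 4399)),(k6,(nat_lit 4612)),(k8,(nat_lit 4664)),(k9,(nat_lit 4664))],[(k10,
    (nat_lit 3392)),(k11,(nat_lit 3392)),(k1,(nat_lit 3763)),(k6,(nat_lit 3976)),(k8,(nat_lit 4028)),(k9,
    (nat_lit 4028))],[(k10,(nat_lit 3180)),(k11,(nat_lit 3392)),(k1,(nat_lit 3763)),(k8,(nat_lit 4028)),(k9,
    (nat_lit 4028)),(k6,(nat_lit 4188))]]
    [[k2,k0,k0,k0,k0,k1],[k1,k0,k0,k1,k0,k1],[k0,k0,k0,k0,k1,k2],[k0,k0,k0,k0,k0,k3]]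
    [.ref k61 k1 [(z1,[y1,y1,y4,y11,z4]),(z1,[y1,z1,z0,z1]),(z1,[z1,y1,z0,z1]),(z1,[z1,z1,z0,y1])],.ref k62 k1 [(z1,
    [y1,y1,y3,y8,z3]),(z1,[y1,z0,y1,y2,z1]),(z1,[z1,z0,z1,z3,y1]),(z1,[z1,z1,z1,z2,y1])],.ref k25 k0 [(z2,[y1,z1]),
    (z1,[z2,z0,z1]),(z1,[y1,z0,z0,z1]),(z2,[y3,y1,y2,y2,z2])],.ref k63 k1 [(z1,[y1,y3,y6,y15,z6]),(z1,[y1,z0,z0,z3]),
    (z1,[z1]),(z1,[z1,z3,z0,y3])]],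
    .lp k0 [(nat_lit 4134),(nat_lit 4240),(nat_lit 4240),(nat_lit 4560),(nat_lit 4664),(nat_lit 3392)] [(nat_lit 265),
    (nat_lit 265),(nat_lit 212),(nat_lit 212),(nat_lit 212),(nat_lit 212),k52,k52,k0,k0,(nat_lit 636),
    (nat_lit 636)] k0 [[k0,k0,k0,k0,k0,k0,k0,k0,k0,k0,k0,k0],[k0,k0,k0,k0,k0,k0,k0,k0,k0,k0,k0,k0],[k0,k0,k0,k0,k0,k0,
    k0,k0,k0,k0,k0,k0],[k0,k0,k0,k0,k0,k0,k0,k0,k0,k0,k0,k0],[k0,k0,k0,k0,k0,k0,k0,k0,k0,k0,k0,k0],[k0,k0,k0,k0,k0,k0,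
    k0,k0,k0,k0,k0,k0],[k0,k0,k0,k0,k0,k0,k0,k0,k0,k0,k0,k0],[k0,k0,k0,k0,k0,k0,k0,k0,k0,k0,(nat_lit 212),k0],[k0,k0,
    k0,k0,k0,k0,k0,k0,k0,k0,k0,k0],[k0,k0,k0,k0,k0,k0,k0,k0,k0,k0,k0,k0],[k0,k0,k0,k0,k0,k0,k0,k0,k0,k0,k0,
    (nat_lit 212)],[k0,k0,k0,k0,k0,k0,(nat_lit 212),k0,k0,k0,k0,k0]] (nat_lit 12720) k5
    [[(k10,(nat_lit 3763)),(k11,(nat_lit 3763)),(k9,(nat_lit 4187)),(k1,(nat_lit 4346)),(k6,(nat_lit 4347)),(k8,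
    (nat_lit 4399))],[(k0,(nat_lit 4134)),(k2,(nat_lit 4187)),(k3,(nat_lit 4187)),(k4,(nat_lit 4187)),(k5,
    (nat_lit 4187)),(k7,(nat_lit 4347))],[(k0,(nat_lit 4187)),(k2,(nat_lit 4240)),(k3,(nat_lit 4240)),(k4,
    (nat_lit 4240)),(k5,(nat_lit 4240)),(k7,(nat_lit 4400))],[(k0,(nat_lit 4187)),(k2,(nat_lit 4240)),(k3,
    (nat_lit 4240)),(k4,(nat_lit 4240)),(k5,(nat_lit 4240)),(k7,(nat_lit 4400))],[(k0,(nat_lit 4187)),(k2,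
    (nat_lit 4240)),(k3,(nat_lit 4240)),(k4,(nat_lit 4240)),(k5,(nat_lit 4240)),(k7,(nat_lit 4400))],[(k0,
    (nat_lit 4187)),(k2,(nat_lit 4240)),(k3,(nat_lit 4240)),(k4,(nat_lit 4240)),(k5,(nat_lit 4240)),(k7,
    (nat_lit 4400))],[(k0,(nat_lit 4347)),(k2,(nat_lit 4400)),(k3,(nat_lit 4400)),(k4,(nat_lit 4400)),(k5,
    (nat_lit 4400)),(k7,(nat_lit 4560))],[(k11,(nat_lit 3976)),(k10,(nat_lit 4188)),(k1,(nat_lit 4347)),(k6,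
    (nat_lit 4560)),(k8,(nat_lit 4612)),(k9,(nat_lit 4612))],[(k10,(nat_lit 4028)),(k11,(nat_lit 4028)),(k1,
    (nat_lit 4187)),(k6,(nat_lit 4612)),(k8,(nat_lit 4664)),(k9,(nat_lit 4664))],[(k10,(nat_lit 4028)),(k11,
    (nat_lit 4028)),(k1,(nat_lit 4399)),(k6,(nat_lit 4612)),(k8,(nat_lit 4664)),(k9,(nat_lit 4664))],[(k10,
    (nat_lit 3392)),(k11,(nat_lit 3392)),(k1,(nat_lit 3763)),(k6,(nat_lit 3976)),(k8,(nat_lit 4028)),(k9,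
    (nat_lit 4028))],[(k10,(nat_lit 3180)),(k11,(nat_lit 3392)),(k1,(nat_lit 3763)),(k8,(nat_lit 4028)),(k9,
    (nat_lit 4028)),(k6,(nat_lit 4188))]]
    [[k2,k0,k0,k0,k0,k1],[k1,k0,k0,k1,k0,k1],[k0,k0,k0,k0,k1,k2],[k0,k0,k0,k0,k0,k3]]
    [.ref k1 k0 [(z2,[y1,z1]),(z4,[z4,y1,z3]),(z2,[y4,z1,z0,z3]),(z8,[z20,y5,z0,z0,z3]),(z8,[y40,z7,y6,y12,y3,z24])],
    .ref k1 k0 [(z32,[y8,z13,z0,z0,z1]),(z16,[z8,y1,z12,z0,y1]),(z8,[y8,z1,z0,z12,z1]),(z32,[z40,y5,z0,z0,z7]),(z16,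
    [y40,y1,y12,y24,y1,z48])],.ref k1 k0 [(z16,[y8,z5,y2,y4,y1,z8]),(z8,[z8,z1,z8,z4,z1,y8]),(z4,[y8,y1,y2,z2,y1,z8]),
    (z16,[z40,z5,z10,z20,z11,y40]),(z1,[y5,y1,y2,y4,y1,z8])],.ref k1 k0 [(z8,[y1,z3]),(z4,[z1,z0,z3]),(z2,[y1,z0,z0,
    z3]),(z8,[z5,z0,z0,z0,z3]),(z8,[y10,y3,y6,y12,y3,z24])]],
    .lp k0 [(nat_lit 61214),(nat_lit 57600),(nat_lit 57600),(nat_lit 58322),(nat_lit 62660),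
    (nat_lit 48200)] [(nat_lit 723),(nat_lit 723),(nat_lit 2530),(nat_lit 2530),(nat_lit 2530),(nat_lit 2530),
    (nat_lit 2169),(nat_lit 2169),k0,k0,(nat_lit 7230),(nat_lit 7230)] k0 [[k0,k0,(nat_lit 3615),(nat_lit 723),k0,k0,
    k0,k0,k0,k0,k0,k0],[(nat_lit 2892),k0,k0,k0,k0,k0,k0,k0,k0,k0,k0,k0],[k0,(nat_lit 723),k0,k0,(nat_lit 723),k0,k0,
    k0,k0,k0,k0,k0],[k0,(nat_lit 3615),k0,k0,(nat_lit 3615),k0,k0,k0,k0,k0,k0,k0],[k0,k0,k0,k0,k0,k0,k0,k0,k0,k0,k0,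
    k0],[k0,k0,(nat_lit 3615),(nat_lit 723),k0,k0,k0,k0,k0,k0,k0,k0],[k0,k0,k0,k0,k0,k0,k0,k0,k0,k0,k0,k0],[k0,k0,k0,
    k0,k0,k0,k0,k0,k0,k0,(nat_lit 8676),k0],[k0,k0,k0,k0,k0,k0,k0,k0,k0,k0,k0,k0],[k0,k0,k0,k0,k0,k0,k0,k0,k0,k0,k0,
    k0],[k0,k0,k0,k0,k0,k0,k0,k0,k0,k0,k0,k0],[k0,k0,k0,k0,k0,k0,(nat_lit 8676),k0,k0,k0,k0,k0]] (nat_lit 173520) k5
    [[(k9,(nat_lit 53261)),(k10,(nat_lit 54707)),(k11,(nat_lit 54707)),(k6,(nat_lit 59768)),(k1,(nat_lit 61214)),(k8,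
    (nat_lit 61937))],[(k5,(nat_lit 55792)),(k2,(nat_lit 58684)),(k3,(nat_lit 59407)),(k4,(nat_lit 59407)),(k7,
    (nat_lit 59768)),(k0,(nat_lit 64106))],[(k3,(nat_lit 54708)),(k4,(nat_lit 57600)),(k7,(nat_lit 57961)),(k5,
    (nat_lit 58323)),(k0,(nat_lit 59407)),(k2,(nat_lit 61215))],[(k7,(nat_lit 57238)),(k2,(nat_lit 57600)),(k5,
    (nat_lit 57600)),(k0,(nat_lit 58684)),(k3,(nat_lit 61215)),(k4,(nat_lit 61215))],[(k7,(nat_lit 54346)),(k0,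
    (nat_lit 55792)),(k2,(nat_lit 57600)),(k5,(nat_lit 57600)),(k3,(nat_lit 58323)),(k4,(nat_lit 58323))],[(k3,
    (nat_lit 57600)),(k4,(nat_lit 57600)),(k7,(nat_lit 57961)),(k5,(nat_lit 58323)),(k0,(nat_lit 59407)),(k2,
    (nat_lit 61215))],[(k5,(nat_lit 54346)),(k2,(nat_lit 57238)),(k3,(nat_lit 57961)),(k4,(nat_lit 57961)),(k7,
    (nat_lit 58322)),(k0,(nat_lit 59768))],[(k11,(nat_lit 53261)),(k6,(nat_lit 58322)),(k1,(nat_lit 59768)),(k8,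
    (nat_lit 60491)),(k9,(nat_lit 60491)),(k10,(nat_lit 61937))],[(k1,(nat_lit 53261)),(k10,(nat_lit 55430)),(k11,
    (nat_lit 55430)),(k6,(nat_lit 60491)),(k8,(nat_lit 62660)),(k9,(nat_lit 62660))],[(k10,(nat_lit 55430)),(k11,
    (nat_lit 55430)),(k6,(nat_lit 60491)),(k1,(nat_lit 61937)),(k8,(nat_lit 62660)),(k9,(nat_lit 62660))],[(k10,
    (nat_lit 48200)),(k11,(nat_lit 48200)),(k6,(nat_lit 53261)),(k1,(nat_lit 54707)),(k8,(nat_lit 55430)),(k9,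
    (nat_lit 55430))],[(k10,(nat_lit 48200)),(k11,(nat_lit 48200)),(k1,(nat_lit 54707)),(k8,(nat_lit 55430)),(k9,
    (nat_lit 55430)),(k6,(nat_lit 61937))]]
    [[k1,k0,k0,k1,k0,k1],[k0,k0,k1,k2,k0,k0],[k0,k0,k0,k0,k1,k2],[k0,k0,k0,k0,k0,k3]]
    [.ref k0 k1 [(z2,[z1,y1,y1,y3,z1]),(z1,[y1,z0,y1,y2,z1]),(z1,[z1,z0,z1,z3,y1]),(z2,[y1,z1,y1,y3,z1])],
    .ref k65 k2 [(z1,[z3,y1,y2,y5,z2]),(z1,[z1,z1,z2,z5,y2]),(z1,[y1,y1,z0,y1,z2]),(z1,[z1,z5,z2,z1,y2])],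
    .ref k17 k1 [(z1,[z1,y1,y2,y7,z2]),(z1,[y1,z0,z0,z2]),(z1,[z1,z0,z0,y1]),(z1,[y1,z1,z0,z1])],.ref k22 k1 [(z2,[z1,
    y3,y6,y18,z6]),(z1,[y1,z0,z0,z3]),(z1,[z1]),(z2,[y1,z3])]],
    .lp k0 [k78,k80,k84,k66,k84,k84] [k3,k3,k2,k2,k0,k0,k9,k9,k0,k0,k0,k0] k0 [[k0,k0,k0,k16,k0,k0,k0,k0,k0,k0,k0,k0],
    [k0,k0,k0,k0,k4,k12,k0,k0,k0,k0,k0,k0],[k0,k16,k0,k0,k12,k0,k0,k0,k0,k0,k0,k0],[k0,k0,k0,k0,k4,k0,k0,k0,k0,k0,k0,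
    k0],[k12,k0,k0,k0,k0,k24,k0,k0,k0,k0,k0,k0],[k4,k0,k4,k12,k0,k0,k0,k0,k0,k0,k0,k0],[k0,k0,k0,k0,k0,k0,k0,k0,k0,k0,
    k0,k0],[k0,k0,k0,k0,k0,k0,k0,k0,k0,k0,k0,k12],[k0,k0,k0,k0,k0,k0,k0,k0,k0,k0,k0,k0],[k0,k0,k0,k0,k0,k0,k0,k0,k0,
    k0,k0,k0],[k0,k0,k0,k0,k0,k0,k12,k0,k0,k0,k0,k0],[k0,k0,k0,k0,k0,k0,k0,k0,k0,k0,k0,k0]] (nat_lit 240) k5
    [[(k1,k78),(k8,k81),(k9,k81),(k10,k81),(k11,k81),(k6,k84)],[(k2,k63),(k0,k78),(k3,k79),(k5,k81),(k7,k84),(k4,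
    k85)],[(k7,k69),(k4,k70),(k0,k79),(k2,k80),(k3,k80),(k5,k98)],[(k7,k61),(k0,k63),(k2,k80),(k3,k80),(k5,k82),(k4,
    k86)],[(k7,k71),(k0,k81),(k2,k82),(k5,k84),(k4,k96),(k3,k98)],[(k4,k60),(k3,k70),(k7,k75),(k0,k85),(k2,k86),(k5,
    k96)],[(k2,k61),(k3,k69),(k5,k71),(k4,k75),(k0,k84),(k7,k90)],[(k6,k66),(k8,k75),(k9,k75),(k10,k75),(k11,k75),(k1,
    k84)],[(k10,k72),(k6,k75),(k1,k81),(k8,k84),(k9,k84),(k11,k84)],[(k6,k75),(k1,k81),(k8,k84),(k9,k84),(k10,k84),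
    (k11,k84)],[(k6,k75),(k1,k81),(k8,k84),(k9,k84),(k10,k84),(k11,k84)],[(k9,k72),(k6,k75),(k1,k81),(k8,k84),(k10,
    k84),(k11,k84)]]
    [[k2,k1,k0,k0,k0,k0],[k1,k1,k0,k1,k0,k0],[k0,k2,k1,k0,k0,k0],[k0,k1,k0,k2,k0,k0],[k0,k0,k1,k2,k0,k0]]
    [.ref k29 k3 [(z1,[z1]),(z1,[z0,z0,z1]),(z1,[z0,y1,y3,z1])],.ref k59 k0 [(z1,[z0,z1]),(z1,[z1,y1]),(z1,[y1,z1,
    z1])],.ref k60 k0 [(z1,[z0,z1]),(z1,[z1,z0,y1]),(z1,[y1,z0,z2])],.ref k64 k1 [(z1,[z1]),(z1,[z0,y1,y3,z1]),(z1,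
    [z0,z0,z1])],.ref k66 k1 [(z1,[z1]),(z1,[z0,y1,y3,z1]),(z1,[z0,z0,z1])]],
    .lp k0 [k36,k30,k30,k32,k28,k32] [k0,k0,k3,k3,k3,k3,k2,k2,k4,k4,k2,k2] k0 [[k0,k0,k6,k6,k0,k0,k0,k0,k0,k0,k0,k0],
    [k0,k0,k0,k0,k0,k0,k0,k0,k0,k0,k0,k0],[k0,k6,k0,k0,k6,k0,k0,k0,k0,k0,k0,k0],[k0,k6,k0,k0,k6,k0,k0,k0,k0,k0,k0,k0],
    [k0,k0,k0,k0,k0,k0,k0,k0,k0,k0,k0,k0],[k0,k0,k6,k6,k0,k0,k0,k0,k0,k0,k0,k0],[k0,k0,k0,k0,k0,k0,k0,k8,k4,k0,k0,k0],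
    [k0,k0,k0,k0,k0,k0,k0,k0,k4,k0,k4,k4],[k0,k0,k0,k0,k0,k0,k0,k0,k0,k0,k0,k0],[k0,k0,k0,k0,k0,k0,k4,k4,k0,k0,k0,k0],
    [k0,k0,k0,k0,k0,k0,k4,k0,k0,k0,k0,k0],[k0,k0,k0,k0,k0,k0,k4,k0,k0,k0,k0,k0]] k96 k5
    [[(k9,k28),(k8,k32),(k10,k34),(k11,k34),(k1,k36),(k6,k38)],[(k2,k27),(k5,k27),(k3,k33),(k4,k33),(k7,k34),(k0,
    k36)],[(k3,k30),(k4,k30),(k7,k31),(k0,k33),(k2,k36),(k5,k36)],[(k7,k25),(k0,k27),(k2,k30),(k5,k30),(k3,k36),(k4,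
    k36)],[(k7,k25),(k0,k27),(k2,k30),(k5,k30),(k3,k36),(k4,k36)],[(k3,k30),(k4,k30),(k7,k31),(k0,k33),(k2,k36),(k5,
    k36)],[(k2,k25),(k5,k25),(k3,k31),(k4,k31),(k7,k32),(k0,k34)],[(k6,k24),(k11,k28),(k9,k30),(k8,k34),(k10,k36),(k1,
    k38)],[(k10,k26),(k11,k26),(k1,k28),(k6,k30),(k8,k32),(k9,k36)],[(k8,k28),(k10,k30),(k11,k30),(k1,k32),(k9,k32),
    (k6,k34)],[(k9,k26),(k6,k28),(k8,k30),(k10,k32),(k11,k32),(k1,k34)],[(k9,k26),(k8,k30),(k10,k32),(k11,k32),(k1,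
    k34),(k6,k36)]]
    [[k0,k1,k0,k2,k0,k0],[k0,k0,k1,k2,k0,k0],[k0,k0,k0,k0,k2,k1],[k0,k0,k0,k0,k1,k2]]
    [.ref k1 k0 [(z2,[y1,z6,z1,z0,z2]),(z1,[z1,z0,z2,z0,y2]),(z2,[y1,z0,z1,z6,z2]),(z1,[z1,z0,y1,z0,z1]),(z2,[y1,y6,
    y5,y6,y4,z6])],.ref k1 k0 [(z1,[y1,z3,z0,z1,z2]),(z1,[z2,z0,z3,y2,y4]),(z1,[y1,z0,z0,z4,z2]),(z1,[z2,z0,z0,y2,
    y1]),(z1,[y1,y3,y3,y2,y1,z3])],.ref k1 k0 [(z1,[z1,z5,z2,z2,z2,y2]),(z1,[y2,y4,y1,y4,y4,z4]),(z1,[z1,z2,z2,z5,z2,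
    y2]),(z1,[y2,y4,y4,y4,y1,z4]),(z1,[z1,y1,y1,y1,y1,z1])],.ref k1 k0 [(z1,[z1,z4,z1,z1,z1,y1]),(z1,[y2,y2,z1,y2,y2,
    z2]),(z1,[z1,z1,z1,z4,z1,y1]),(z1,[y2,y2,y2,y2,z1,z2]),(z1,[z1,y2,y2,y2,y2,z2])]],
    .lp k0 [k78,k84,k84,k68,k82,k80] [k3,k3,k0,k0,k0,k0,k8,k8,k1,k1,k2,k2] k0 [[k0,k0,k0,k0,k0,k0,k0,k0,k0,k0,k0,k0],
    [k0,k0,k0,k0,k0,k12,k0,k0,k0,k0,k0,k0],[k0,k0,k0,k0,k0,k0,k0,k0,k0,k0,k0,k0],[k0,k0,k0,k0,k0,k0,k0,k0,k0,k0,k0,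
    k0],[k12,k0,k0,k0,k0,k0,k0,k0,k0,k0,k0,k0],[k0,k0,k0,k0,k0,k0,k0,k0,k0,k0,k0,k0],[k0,k0,k0,k0,k0,k0,k0,k0,k14,k6,
    k0,k6],[k0,k0,k0,k0,k0,k0,k20,k0,k0,k0,k0,k10],[k0,k0,k0,k0,k0,k0,k0,k6,k0,k0,k0,k0],[k0,k0,k0,k0,k0,k0,k0,k14,k0,
    k0,k16,k0],[k0,k0,k0,k0,k0,k0,k10,k6,k0,k0,k0,k0],[k0,k0,k0,k0,k0,k0,k0,k0,k16,k0,k0,k0]] (nat_lit 240) k5
    [[(k11,k63),(k1,k78),(k10,k79),(k8,k80),(k6,k83),(k9,k86)],[(k0,k78),(k2,k81),(k3,k81),(k4,k81),(k5,k81),(k7,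
    k85)],[(k4,k72),(k7,k76),(k0,k81),(k2,k84),(k3,k84),(k5,k84)],[(k7,k76),(k0,k81),(k2,k84),(k3,k84),(k4,k84),(k5,
    k84)],[(k7,k76),(k0,k81),(k2,k84),(k3,k84),(k4,k84),(k5,k84)],[(k3,k72),(k7,k76),(k0,k81),(k2,k84),(k4,k84),(k5,
    k84)],[(k7,k68),(k2,k76),(k3,k76),(k4,k76),(k5,k76),(k0,k85)],[(k11,k60),(k10,k68),(k8,k69),(k9,k75),(k1,k83),(k6,
    k88)],[(k9,k62),(k10,k71),(k6,k75),(k1,k86),(k11,k87),(k8,k96)],[(k6,k69),(k1,k80),(k11,k81),(k8,k82),(k9,k96),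
    (k10,k97)],[(k6,k60),(k1,k63),(k10,k80),(k11,k80),(k8,k81),(k9,k87)],[(k6,k68),(k9,k71),(k1,k79),(k10,k80),(k11,
    k80),(k8,k97)]]
    [[k2,k0,k0,k0,k0,k1],[k1,k0,k0,k1,k0,k1],[k0,k0,k0,k2,k1,k0],[k0,k0,k0,k2,k0,k1],[k0,k0,k0,k0,k1,k2]]
    [.ref k1 k0 [(z4,[z6,z1,z2,z1,z2,y6]),(z2,[y6,z1,z0,y1,y2,z6]),(z4,[z6,y1,z2,z3,z2,y6]),(z2,[y6,z1,y2,y1,z0,z6]),
    (z2,[z6,y1,z2,z1,z2,y6])],.ref k1 k0 [(z2,[y6,z1,y2,y1,z0,z6]),(z1,[z6,z0,z3,z1,z0,y6]),(z1,[y3,z0,y1,z0,z0,z3]),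
    (z1,[z6,z0,z2,z1,z1,y6]),(z1,[y6,z0,y2,y1,z0,z6])],.ref k1 k0 [(z2,[y3,z1,z0,z0,z2]),(z1,[z3,z0,z1,z0,y2]),(z2,
    [y3,z0,z0,z1,z2]),(z1,[z3,z0,z0,z0,y1]),(z1,[y3,z0,z0,z0,z2])],.ref k1 k0 [(z8,[y6,z3,y2,y1,z2,z6]),(z4,[z6,z1,z6,
    z1,y2,y6]),(z8,[y6,y1,y2,z3,z2,z6]),(z4,[z6,z1,z2,z1,z2,y6]),(z4,[y6,y1,y2,y1,z2,z6])],.ref k1 k0 [(z2,[z3,z2,z2,
    z1,z2,y6]),(z1,[y3,y1,y1,y1,y2,z6]),(z2,[z3,z1,z2,z2,z2,y6]),(z1,[y3,y1,y2,y1,y1,z6]),(z1,[z3,z1,z2,z1,z2,y6])]],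
    .lp k0 [(nat_lit 4134),(nat_lit 4240),(nat_lit 4240),(nat_lit 4560),(nat_lit 4664),(nat_lit 3392)] [(nat_lit 265),
    (nat_lit 265),(nat_lit 212),(nat_lit 212),(nat_lit 212),(nat_lit 212),k52,k52,k0,k0,(nat_lit 636),
    (nat_lit 636)] k0 [[k0,k0,k0,k0,k0,k0,k0,k0,k0,k0,k0,k0],[k0,k0,k0,k0,k0,k0,k0,k0,k0,k0,k0,k0],[k0,k0,k0,k0,k0,k0,
    k0,k0,k0,k0,k0,k0],[k0,k0,k0,k0,k0,k0,k0,k0,k0,k0,k0,k0],[k0,k0,k0,k0,k0,k0,k0,k0,k0,k0,k0,k0],[k0,k0,k0,k0,k0,k0,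
    k0,k0,k0,k0,k0,k0],[k0,k0,k0,k0,k0,k0,k0,k0,k0,k0,k0,k0],[k0,k0,k0,k0,k0,k0,k0,k0,k0,k0,(nat_lit 212),k0],[k0,k0,
    k0,k0,k0,k0,k0,k0,k0,k0,k0,k0],[k0,k0,k0,k0,k0,k0,k0,k0,k0,k0,k0,k0],[k0,k0,k0,k0,k0,k0,k0,k0,k0,k0,k0,
    (nat_lit 212)],[k0,k0,k0,k0,k0,k0,(nat_lit 212),k0,k0,k0,k0,k0]] (nat_lit 12720) k5
    [[(k10,(nat_lit 3763)),(k11,(nat_lit 3763)),(k9,(nat_lit 4187)),(k1,(nat_lit 4346)),(k6,(nat_lit 4347)),(k8,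
    (nat_lit 4399))],[(k0,(nat_lit 4134)),(k2,(nat_lit 4187)),(k3,(nat_lit 4187)),(k4,(nat_lit 4187)),(k5,
    (nat_lit 4187)),(k7,(nat_lit 4347))],[(k0,(nat_lit 4187)),(k2,(nat_lit 4240)),(k3,(nat_lit 4240)),(k4,
    (nat_lit 4240)),(k5,(nat_lit 4240)),(k7,(nat_lit 4400))],[(k0,(nat_lit 4187)),(k2,(nat_lit 4240)),(k3,
    (nat_lit 4240)),(k4,(nat_lit 4240)),(k5,(nat_lit 4240)),(k7,(nat_lit 4400))],[(k0,(nat_lit 4187)),(k2,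
    (nat_lit 4240)),(k3,(nat_lit 4240)),(k4,(nat_lit 4240)),(k5,(nat_lit 4240)),(k7,(nat_lit 4400))],[(k0,
    (nat_lit 4187)),(k2,(nat_lit 4240)),(k3,(nat_lit 4240)),(k4,(nat_lit 4240)),(k5,(nat_lit 4240)),(k7,
    (nat_lit 4400))],[(k0,(nat_lit 4347)),(k2,(nat_lit 4400)),(k3,(nat_lit 4400)),(k4,(nat_lit 4400)),(k5,
    (nat_lit 4400)),(k7,(nat_lit 4560))],[(k11,(nat_lit 3976)),(k10,(nat_lit 4188)),(k1,(nat_lit 4347)),(k6,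
    (nat_lit 4560)),(k8,(nat_lit 4612)),(k9,(nat_lit 4612))],[(k10,(nat_lit 4028)),(k11,(nat_lit 4028)),(k1,
    (nat_lit 4187)),(k6,(nat_lit 4612)),(k8,(nat_lit 4664)),(k9,(nat_lit 4664))],[(k10,(nat_lit 4028)),(k11,
    (nat_lit 4028)),(k1,(nat_lit 4399)),(k6,(nat_lit 4612)),(k8,(nat_lit 4664)),(k9,(nat_lit 4664))],[(k10,
    (nat_lit 3392)),(k11,(nat_lit 3392)),(k1,(nat_lit 3763)),(k6,(nat_lit 3976)),(k8,(nat_lit 4028)),(k9,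
    (nat_lit 4028))],[(k10,(nat_lit 3180)),(k11,(nat_lit 3392)),(k1,(nat_lit 3763)),(k8,(nat_lit 4028)),(k9,
    (nat_lit 4028)),(k6,(nat_lit 4188))]]
    [[k2,k0,k0,k0,k0,k1],[k1,k0,k0,k1,k0,k1],[k0,k0,k0,k0,k1,k2],[k0,k0,k0,k0,k0,k3]]
    [.ref k6 k0 [(z1,[z1]),(z1,[y1,z1,z1]),(z1,[z1,y1,z0,z1]),(z2,[y2,z1,y2,y1,z2])],.ref k68 k0 [(z2,[y2,z1,y2,y1,
    z2]),(z1,[z2,z0,z3,z1,y2]),(z1,[y1,z0,y1,z0,z1]),(z2,[z4,y1,z2,z1,y2])],.ref k6 k0 [(z1,[z1,z1]),(z1,[y1,z0,z1]),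
    (z1,[z1,z0,z0,z1]),(z2,[y2,y1,y2,y1,z2])],.ref k69 k0 [(z1,[z1,z3]),(z1,[y1,z0,z3]),(z1,[z1,z0,z0,z3]),(z2,[y2,y3,
    y6,y3,z6])]],
    .base (.spec k3 false k0 [(z3,[z1,z2,z1,z1,y3]),(z3,[z0,z0,z1,y1])])]

theorem hB6_124_5 : blkB [0, 0, 0, 1, 1, 1] [] sp6 hS6_124 (pcls (n := 6) [0, 0, 0, 1, 1, 1]) hD6_124 117 5 hN6_124_5 = true := by
  decide +kernel

end Pool.Agent.Lib_MP_fa6e45
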