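import Pool.Agent.Lib_MP_fa6e45.HK

/-!
MP_fa6e45_co, stage 4: certificates (captain, generated by a program).
-/

namespace Pool.Agent.Lib_MP_fa6e45

/-- nodes 72 to 83 -/
noncomputable def hN6_124_6 : List HM :=
  [.lp k0 [(nat_lit 4134),(nat_lit 4240),(nat_lit 4240),(nat_lit 4560),(nat_lit 4664),(nat_lit 3392)] [(nat_lit 265),
    (nat_lit 265),(nat_lit 212),(nat_lit 212),(nat_lit 212),(nat_lit 212),k52,k52,k0,k0,(nat_lit 636),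
    (nat_lit 636)] k0 [[k0,k0,k0,k0,k0,k0,k0,k0,k0,k0,k0,k0],[k0,k0,k0,k0,k0,k0,k0,k0,k0,k0,k0,k0],[k0,k0,k0,k0,k0,k0,
    k0,k0,k0,k0,k0,k0],[k0,k0,k0,k0,k0,k0,k0,k0,k0,k0,k0,k0],[k0,k0,k0,k0,k0,k0,k0,k0,k0,k0,k0,k0],[k0,k0,k0,k0,k0,k0,
    k0,k0,k0,k0,k0,k0],[k0,k0,k0,k0,k0,k0,k0,k0,k0,k0,k0,k0],[k0,k0,k0,k0,k0,k0,k0,k0,k0,k0,(nat_lit 212),k0],[k0,k0,
    k0,k0,k0,k0,k0,k0,k0,k0,k0,k0],[k0,k0,k0,k0,k0,k0,k0,k0,k0,k0,k0,k0],[k0,k0,k0,k0,k0,k0,k0,k0,k0,k0,k0,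
    (nat_lit 212)],[k0,k0,k0,k0,k0,k0,(nat_lit 212),k0,k0,k0,k0,k0]] (nat_lit 12720) k5
    [[(k10,(nat_lit 3763)),(k11,(nat_lit 3763)),(k9,(nat_lit 4187)),(k1,(nat_lit 4346)),(k6,(nat_lit 4347)),(k8,
    (nat_lit 4399))],[(k0,(nat_lit 4134)),(k2,(nat_lit 4187)),(k3,(nat_lit 4187)),(k4,(nat_lit 4187)),(k5,
    (nat_lit 4187)),(k7,(nat_lit 4347))],[(k0,(nat_lit 4187)),(k2,(nat_lit 4240)),(k3,(nat_lit 4240)),(k4,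
    (nat_lit 4240)),(k5,(nat_lit 4240)),(k7,(nat_lit 4400))],[(k0,(nat_lit 4187)),(k2,(nat_lit 4240)),(k3,
    (nat_lit 4240)),(k4,(nat_lit 4240)),(k5,(nat_lit 4240)),(k7,(nat_lit 4400))],[(k0,(nat_lit 4187)),(k2,
    (nat_lit 4240)),(k3,(nat_lit 4240)),(k4,(nat_lit 4240)),(k5,(nat_lit 4240)),(k7,(nat_lit 4400))],[(k0,
    (nat_lit 4187)),(k2,(nat_lit 4240)),(k3,(nat_lit 4240)),(k4,(nat_lit 4240)),(k5,(nat_lit 4240)),(k7,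
    (nat_lit 4400))],[(k0,(nat_lit 4347)),(k2,(nat_lit 4400)),(k3,(nat_lit 4400)),(k4,(nat_lit 4400)),(k5,
    (nat_lit 4400)),(k7,(nat_lit 4560))],[(k11,(nat_lit 3976)),(k10,(nat_lit 4188)),(k1,(nat_lit 4347)),(k6,
    (nat_lit 4560)),(k8,(nat_lit 4612)),(k9,(nat_lit 4612))],[(k10,(nat_lit 4028)),(k11,(nat_lit 4028)),(k1,
    (nat_lit 4187)),(k6,(nat_lit 4612)),(k8,(nat_lit 4664)),(k9,(nat_lit 4664))],[(k10,(nat_lit 4028)),(k11,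
    (nat_lit 4028)),(k1,(nat_lit 4399)),(k6,(nat_lit 4612)),(k8,(nat_lit 4664)),(k9,(nat_lit 4664))],[(k10,
    (nat_lit 3392)),(k11,(nat_lit 3392)),(k1,(nat_lit 3763)),(k6,(nat_lit 3976)),(k8,(nat_lit 4028)),(k9,
    (nat_lit 4028))],[(k10,(nat_lit 3180)),(k11,(nat_lit 3392)),(k1,(nat_lit 3763)),(k8,(nat_lit 4028)),(k9,
    (nat_lit 4028)),(k6,(nat_lit 4188))]]
    [[k2,k0,k0,k0,k0,k1],[k1,k0,k0,k1,k0,k1],[k0,k0,k0,k0,k1,k2],[k0,k0,k0,k0,k0,k3]]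
    [.ref k33 k0 [(z1,[z1]),(z1,[z0,z0,z1]),(z1,[z0,z0,z0,z1]),(z1,[y3,z2])],.ref k71 k0 [(z1,[z0,z1]),(z1,[z0,z0,
    z1]),(z1,[z0,z0,z0,z1]),(z1,[y3,z0,y1,y1,z3])],.ref k71 k0 [(z1,[z0,z1]),(z1,[z0,z0,z1]),(z1,[z0,z0,z0,z1]),(z1,
    [y3,y2,y2,y2,z6])],.ref k71 k0 [(z1,[z0,z1]),(z1,[z0,z0,z1]),(z1,[z0,z0,z0,z1]),(z1,[y1,y1,y1,y1,z3])]],
    .lp k0 [(nat_lit 4134),(nat_lit 4240),(nat_lit 4240),(nat_lit 4560),(nat_lit 4664),(nat_lit 3392)] [(nat_lit 265),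
    (nat_lit 265),(nat_lit 212),(nat_lit 212),(nat_lit 212),(nat_lit 212),k52,k52,k0,k0,(nat_lit 636),
    (nat_lit 636)] k0 [[k0,k0,k0,k0,k0,k0,k0,k0,k0,k0,k0,k0],[k0,k0,k0,k0,k0,k0,k0,k0,k0,k0,k0,k0],[k0,k0,k0,k0,k0,k0,
    k0,k0,k0,k0,k0,k0],[k0,k0,k0,k0,k0,k0,k0,k0,k0,k0,k0,k0],[k0,k0,k0,k0,k0,k0,k0,k0,k0,k0,k0,k0],[k0,k0,k0,k0,k0,k0,
    k0,k0,k0,k0,k0,k0],[k0,k0,k0,k0,k0,k0,k0,k0,k0,k0,k0,k0],[k0,k0,k0,k0,k0,k0,k0,k0,k0,k0,(nat_lit 212),k0],[k0,k0,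
    k0,k0,k0,k0,k0,k0,k0,k0,k0,k0],[k0,k0,k0,k0,k0,k0,k0,k0,k0,k0,k0,k0],[k0,k0,k0,k0,k0,k0,k0,k0,k0,k0,k0,
    (nat_lit 212)],[k0,k0,k0,k0,k0,k0,(nat_lit 212),k0,k0,k0,k0,k0]] (nat_lit 12720) k5
    [[(k10,(nat_lit 3763)),(k11,(nat_lit 3763)),(k9,(nat_lit 4187)),(k1,(nat_lit 4346)),(k6,(nat_lit 4347)),(k8,
    (nat_lit 4399))],[(k0,(nat_lit 4134)),(k2,(nat_lit 4187)),(k3,(nat_lit 4187)),(k4,(nat_lit 4187)),(k5,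
    (nat_lit 4187)),(k7,(nat_lit 4347))],[(k0,(nat_lit 4187)),(k2,(nat_lit 4240)),(k3,(nat_lit 4240)),(k4,
    (nat_lit 4240)),(k5,(nat_lit 4240)),(k7,(nat_lit 4400))],[(k0,(nat_lit 4187)),(k2,(nat_lit 4240)),(k3,
    (nat_lit 4240)),(k4,(nat_lit 4240)),(k5,(nat_lit 4240)),(k7,(nat_lit 4400))],[(k0,(nat_lit 4187)),(k2,
    (nat_lit 4240)),(k3,(nat_lit 4240)),(k4,(nat_lit 4240)),(k5,(nat_lit 4240)),(k7,(nat_lit 4400))],[(k0,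
    (nat_lit 4187)),(k2,(nat_lit 4240)),(k3,(nat_lit 4240)),(k4,(nat_lit 4240)),(k5,(nat_lit 4240)),(k7,
    (nat_lit 4400))],[(k0,(nat_lit 4347)),(k2,(nat_lit 4400)),(k3,(nat_lit 4400)),(k4,(nat_lit 4400)),(k5,
    (nat_lit 4400)),(k7,(nat_lit 4560))],[(k11,(nat_lit 3976)),(k10,(nat_lit 4188)),(k1,(nat_lit 4347)),(k6,
    (nat_lit 4560)),(k8,(nat_lit 4612)),(k9,(nat_lit 4612))],[(k10,(nat_lit 4028)),(k11,(nat_lit 4028)),(k1,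
    (nat_lit 4187)),(k6,(nat_lit 4612)),(k8,(nat_lit 4664)),(k9,(nat_lit 4664))],[(k10,(nat_lit 4028)),(k11,
    (nat_lit 4028)),(k1,(nat_lit 4399)),(k6,(nat_lit 4612)),(k8,(nat_lit 4664)),(k9,(nat_lit 4664))],[(k10,
    (nat_lit 3392)),(k11,(nat_lit 3392)),(k1,(nat_lit 3763)),(k6,(nat_lit 3976)),(k8,(nat_lit 4028)),(k9,
    (nat_lit 4028))],[(k10,(nat_lit 3180)),(k11,(nat_lit 3392)),(k1,(nat_lit 3763)),(k8,(nat_lit 4028)),(k9,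
    (nat_lit 4028)),(k6,(nat_lit 4188))]]
    [[k2,k0,k0,k0,k0,k1],[k1,k0,k0,k1,k0,k1],[k0,k0,k0,k0,k1,k2],[k0,k0,k0,k0,k0,k3]]
    [.ref k70 k3 [(z1,[z1,z0,y1]),(z1,[z0,z0,z1]),(z1,[z0,y1,y3,z2])],.ref k72 k1 [(z1,[z1,z1]),(z1,[y1,y1,y3,z3]),
    (z1,[z2,y1])],.ref k72 k1 [(z1,[z1,z2,z1,y1]),(z1,[y1,y2,y4,z4]),(z1,[z2,z1,z2,y2])],.ref k72 k1 [(z2,[z1,z3]),
    (z2,[y1,y3,y6,z6]),(z1,[z1])]],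
    .lp k0 [k36,k30,k30,k32,k28,k32] [k0,k0,k3,k3,k3,k3,k2,k2,k4,k4,k2,k2] k0 [[k0,k0,k6,k6,k0,k0,k0,k0,k0,k0,k0,k0],
    [k0,k0,k0,k0,k0,k0,k0,k0,k0,k0,k0,k0],[k0,k6,k0,k0,k6,k0,k0,k0,k0,k0,k0,k0],[k0,k6,k0,k0,k6,k0,k0,k0,k0,k0,k0,k0],
    [k0,k0,k0,k0,k0,k0,k0,k0,k0,k0,k0,k0],[k0,k0,k6,k6,k0,k0,k0,k0,k0,k0,k0,k0],[k0,k0,k0,k0,k0,k0,k0,k8,k4,k0,k0,k0],
    [k0,k0,k0,k0,k0,k0,k0,k0,k4,k0,k4,k4],[k0,k0,k0,k0,k0,k0,k0,k0,k0,k0,k0,k0],[k0,k0,k0,k0,k0,k0,k4,k4,k0,k0,k0,k0],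
    [k0,k0,k0,k0,k0,k0,k4,k0,k0,k0,k0,k0],[k0,k0,k0,k0,k0,k0,k4,k0,k0,k0,k0,k0]] k96 k5
    [[(k9,k28),(k8,k32),(k10,k34),(k11,k34),(k1,k36),(k6,k38)],[(k2,k27),(k5,k27),(k3,k33),(k4,k33),(k7,k34),(k0,
    k36)],[(k3,k30),(k4,k30),(k7,k31),(k0,k33),(k2,k36),(k5,k36)],[(k7,k25),(k0,k27),(k2,k30),(k5,k30),(k3,k36),(k4,
    k36)],[(k7,k25),(k0,k27),(k2,k30),(k5,k30),(k3,k36),(k4,k36)],[(k3,k30),(k4,k30),(k7,k31),(k0,k33),(k2,k36),(k5,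
    k36)],[(k2,k25),(k5,k25),(k3,k31),(k4,k31),(k7,k32),(k0,k34)],[(k6,k24),(k11,k28),(k9,k30),(k8,k34),(k10,k36),(k1,
    k38)],[(k10,k26),(k11,k26),(k1,k28),(k6,k30),(k8,k32),(k9,k36)],[(k8,k28),(k10,k30),(k11,k30),(k1,k32),(k9,k32),
    (k6,k34)],[(k9,k26),(k6,k28),(k8,k30),(k10,k32),(k11,k32),(k1,k34)],[(k9,k26),(k8,k30),(k10,k32),(k11,k32),(k1,
    k34),(k6,k36)]]
    [[k0,k1,k0,k2,k0,k0],[k0,k0,k1,k2,k0,k0],[k0,k0,k0,k0,k2,k1],[k0,k0,k0,k0,k1,k2]]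
    [.ref k54 k1 [(z1,[z1]),(z1,[z0,y1,z1])],.ref k58 k1 [(z1,[z1]),(z1,[z0,y1,z1])],.ref k67 k2 [(z1,[y1,z1]),(z1,
    [z0,y1,z1])],.ref k73 k2 [(z1,[y1,z2]),(z1,[z0,y1,z1])]],
    .lp k0 [(nat_lit 4134),(nat_lit 4240),(nat_lit 4240),(nat_lit 4560),(nat_lit 4664),(nat_lit 3392)] [(nat_lit 265),
    (nat_lit 265),(nat_lit 212),(nat_lit 212),(nat_lit 212),(nat_lit 212),k52,k52,k0,k0,(nat_lit 636),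
    (nat_lit 636)] k0 [[k0,k0,k0,k0,k0,k0,k0,k0,k0,k0,k0,k0],[k0,k0,k0,k0,k0,k0,k0,k0,k0,k0,k0,k0],[k0,k0,k0,k0,k0,k0,
    k0,k0,k0,k0,k0,k0],[k0,k0,k0,k0,k0,k0,k0,k0,k0,k0,k0,k0],[k0,k0,k0,k0,k0,k0,k0,k0,k0,k0,k0,k0],[k0,k0,k0,k0,k0,k0,
    k0,k0,k0,k0,k0,k0],[k0,k0,k0,k0,k0,k0,k0,k0,k0,k0,k0,k0],[k0,k0,k0,k0,k0,k0,k0,k0,k0,k0,(nat_lit 212),k0],[k0,k0,
    k0,k0,k0,k0,k0,k0,k0,k0,k0,k0],[k0,k0,k0,k0,k0,k0,k0,k0,k0,k0,k0,k0],[k0,k0,k0,k0,k0,k0,k0,k0,k0,k0,k0,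
    (nat_lit 212)],[k0,k0,k0,k0,k0,k0,(nat_lit 212),k0,k0,k0,k0,k0]] (nat_lit 12720) k5
    [[(k10,(nat_lit 3763)),(k11,(nat_lit 3763)),(k9,(nat_lit 4187)),(k1,(nat_lit 4346)),(k6,(nat_lit 4347)),(k8,
    (nat_lit 4399))],[(k0,(nat_lit 4134)),(k2,(nat_lit 4187)),(k3,(nat_lit 4187)),(k4,(nat_lit 4187)),(k5,
    (nat_lit 4187)),(k7,(nat_lit 4347))],[(k0,(nat_lit 4187)),(k2,(nat_lit 4240)),(k3,(nat_lit 4240)),(k4,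
    (nat_lit 4240)),(k5,(nat_lit 4240)),(k7,(nat_lit 4400))],[(k0,(nat_lit 4187)),(k2,(nat_lit 4240)),(k3,
    (nat_lit 4240)),(k4,(nat_lit 4240)),(k5,(nat_lit 4240)),(k7,(nat_lit 4400))],[(k0,(nat_lit 4187)),(k2,
    (nat_lit 4240)),(k3,(nat_lit 4240)),(k4,(nat_lit 4240)),(k5,(nat_lit 4240)),(k7,(nat_lit 4400))],[(k0,
    (nat_lit 4187)),(k2,(nat_lit 4240)),(k3,(nat_lit 4240)),(k4,(nat_lit 4240)),(k5,(nat_lit 4240)),(k7,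
    (nat_lit 4400))],[(k0,(nat_lit 4347)),(k2,(nat_lit 4400)),(k3,(nat_lit 4400)),(k4,(nat_lit 4400)),(k5,
    (nat_lit 4400)),(k7,(nat_lit 4560))],[(k11,(nat_lit 3976)),(k10,(nat_lit 4188)),(k1,(nat_lit 4347)),(k6,
    (nat_lit 4560)),(k8,(nat_lit 4612)),(k9,(nat_lit 4612))],[(k10,(nat_lit 4028)),(k11,(nat_lit 4028)),(k1,
    (nat_lit 4187)),(k6,(nat_lit 4612)),(k8,(nat_lit 4664)),(k9,(nat_lit 4664))],[(k10,(nat_lit 4028)),(k11,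
    (nat_lit 4028)),(k1,(nat_lit 4399)),(k6,(nat_lit 4612)),(k8,(nat_lit 4664)),(k9,(nat_lit 4664))],[(k10,
    (nat_lit 3392)),(k11,(nat_lit 3392)),(k1,(nat_lit 3763)),(k6,(nat_lit 3976)),(k8,(nat_lit 4028)),(k9,
    (nat_lit 4028))],[(k10,(nat_lit 3180)),(k11,(nat_lit 3392)),(k1,(nat_lit 3763)),(k8,(nat_lit 4028)),(k9,
    (nat_lit 4028)),(k6,(nat_lit 4188))]]
    [[k2,k0,k0,k0,k0,k1],[k1,k0,k0,k1,k0,k1],[k0,k0,k0,k0,k1,k2],[k0,k0,k0,k0,k0,k3]]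
    [.ref k1 k0 [(z1,[y1,z1]),(z5,[z10,y4,z3]),(z5,[y20,z8,z0,z3]),(z5,[z10,y4,z0,z0,z3]),(z5,[y20,z5,y3,y3,y3,z15])],
    .ref k1 k0 [(z10,[y5,z7,z0,z0,z1]),(z5,[z5,y1,z3,z0,y1]),(z5,[y10,z2,z0,z3,z2]),(z5,[z5,y1,z0,z0,z2]),(z5,[y10,y1,
    y3,y3,y1,z15])],.ref k1 k0 [(z10,[y5,z5,y1,y1,y1,z5]),(z5,[z5,z1,z4,z1,z1,y5]),(z5,[y10,y2,y2,z1,y2,z10]),(z5,[z5,
    z1,z1,z1,z4,y5]),(z1,[y2,y1,y1,y1,y1,z5])],.ref k1 k0 [(z5,[y1,z3]),(z5,[z2,z0,z3]),(z5,[y4,z0,z0,z3]),(z5,[z2,z0,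
    z0,z0,z3]),(z5,[y4,y3,y3,y3,y3,z15])]],
    .lp k0 [(nat_lit 61214),(nat_lit 57600),(nat_lit 57600),(nat_lit 58322),(nat_lit 62660),
    (nat_lit 48200)] [(nat_lit 723),(nat_lit 723),(nat_lit 2530),(nat_lit 2530),(nat_lit 2530),(nat_lit 2530),
    (nat_lit 2169),(nat_lit 2169),k0,k0,(nat_lit 7230),(nat_lit 7230)] k0 [[k0,k0,(nat_lit 3615),(nat_lit 723),k0,k0,
    k0,k0,k0,k0,k0,k0],[(nat_lit 2892),k0,k0,k0,k0,k0,k0,k0,k0,k0,k0,k0],[k0,(nat_lit 723),k0,k0,(nat_lit 723),k0,k0,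
    k0,k0,k0,k0,k0],[k0,(nat_lit 3615),k0,k0,(nat_lit 3615),k0,k0,k0,k0,k0,k0,k0],[k0,k0,k0,k0,k0,k0,k0,k0,k0,k0,k0,
    k0],[k0,k0,(nat_lit 3615),(nat_lit 723),k0,k0,k0,k0,k0,k0,k0,k0],[k0,k0,k0,k0,k0,k0,k0,k0,k0,k0,k0,k0],[k0,k0,k0,
    k0,k0,k0,k0,k0,k0,k0,(nat_lit 8676),k0],[k0,k0,k0,k0,k0,k0,k0,k0,k0,k0,k0,k0],[k0,k0,k0,k0,k0,k0,k0,k0,k0,k0,k0,
    k0],[k0,k0,k0,k0,k0,k0,k0,k0,k0,k0,k0,k0],[k0,k0,k0,k0,k0,k0,(nat_lit 8676),k0,k0,k0,k0,k0]] (nat_lit 173520) k5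
    [[(k9,(nat_lit 53261)),(k10,(nat_lit 54707)),(k11,(nat_lit 54707)),(k6,(nat_lit 59768)),(k1,(nat_lit 61214)),(k8,
    (nat_lit 61937))],[(k5,(nat_lit 55792)),(k2,(nat_lit 58684)),(k3,(nat_lit 59407)),(k4,(nat_lit 59407)),(k7,
    (nat_lit 59768)),(k0,(nat_lit 64106))],[(k3,(nat_lit 54708)),(k4,(nat_lit 57600)),(k7,(nat_lit 57961)),(k5,
    (nat_lit 58323)),(k0,(nat_lit 59407)),(k2,(nat_lit 61215))],[(k7,(nat_lit 57238)),(k2,(nat_lit 57600)),(k5,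
    (nat_lit 57600)),(k0,(nat_lit 58684)),(k3,(nat_lit 61215)),(k4,(nat_lit 61215))],[(k7,(nat_lit 54346)),(k0,
    (nat_lit 55792)),(k2,(nat_lit 57600)),(k5,(nat_lit 57600)),(k3,(nat_lit 58323)),(k4,(nat_lit 58323))],[(k3,
    (nat_lit 57600)),(k4,(nat_lit 57600)),(k7,(nat_lit 57961)),(k5,(nat_lit 58323)),(k0,(nat_lit 59407)),(k2,
    (nat_lit 61215))],[(k5,(nat_lit 54346)),(k2,(nat_lit 57238)),(k3,(nat_lit 57961)),(k4,(nat_lit 57961)),(k7,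
    (nat_lit 58322)),(k0,(nat_lit 59768))],[(k11,(nat_lit 53261)),(k6,(nat_lit 58322)),(k1,(nat_lit 59768)),(k8,
    (nat_lit 60491)),(k9,(nat_lit 60491)),(k10,(nat_lit 61937))],[(k1,(nat_lit 53261)),(k10,(nat_lit 55430)),(k11,
    (nat_lit 55430)),(k6,(nat_lit 60491)),(k8,(nat_lit 62660)),(k9,(nat_lit 62660))],[(k10,(nat_lit 55430)),(k11,
    (nat_lit 55430)),(k6,(nat_lit 60491)),(k1,(nat_lit 61937)),(k8,(nat_lit 62660)),(k9,(nat_lit 62660))],[(k10,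
    (nat_lit 48200)),(k11,(nat_lit 48200)),(k6,(nat_lit 53261)),(k1,(nat_lit 54707)),(k8,(nat_lit 55430)),(k9,
    (nat_lit 55430))],[(k10,(nat_lit 48200)),(k11,(nat_lit 48200)),(k1,(nat_lit 54707)),(k8,(nat_lit 55430)),(k9,
    (nat_lit 55430)),(k6,(nat_lit 61937))]]
    [[k1,k0,k0,k1,k0,k1],[k0,k0,k1,k2,k0,k0],[k0,k0,k0,k0,k1,k2],[k0,k0,k0,k0,k0,k3]]
    [.ref k0 k1 [(z2,[z2,y1,z0,y1]),(z1,[y1,z0,y1,y1,z1]),(z1,[z0,z0,z0,z1]),(z2,[z0,z1,z0,y1])],.ref k75 k2 [(z2,[z4,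
    y1,y2,y3,z2]),(z1,[z1,z1,z2,z3,y2]),(z1,[y2,y2,z1,y1,z4]),(z2,[z2,z7,z4,z1,y4])],.ref k6 k0 [(z1,[z0,z1]),(z1,[z0,
    z0,z1]),(z1,[z0,z0,z0,z1]),(z2,[y2,y1,y2,y1,z2])],.ref k9 k0 [(z2,[y1,z3]),(z1,[z1,z0,z3]),(z2,[y1,z0,z0,z3]),(z2,
    [y2,y3,y6,y3,z6])]],
    .lp k0 [(nat_lit 4134),(nat_lit 4240),(nat_lit 4240),(nat_lit 4560),(nat_lit 4664),(nat_lit 3392)] [(nat_lit 265),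
    (nat_lit 265),(nat_lit 212),(nat_lit 212),(nat_lit 212),(nat_lit 212),k52,k52,k0,k0,(nat_lit 636),
    (nat_lit 636)] k0 [[k0,k0,k0,k0,k0,k0,k0,k0,k0,k0,k0,k0],[k0,k0,k0,k0,k0,k0,k0,k0,k0,k0,k0,k0],[k0,k0,k0,k0,k0,k0,
    k0,k0,k0,k0,k0,k0],[k0,k0,k0,k0,k0,k0,k0,k0,k0,k0,k0,k0],[k0,k0,k0,k0,k0,k0,k0,k0,k0,k0,k0,k0],[k0,k0,k0,k0,k0,k0,
    k0,k0,k0,k0,k0,k0],[k0,k0,k0,k0,k0,k0,k0,k0,k0,k0,k0,k0],[k0,k0,k0,k0,k0,k0,k0,k0,k0,k0,(nat_lit 212),k0],[k0,k0,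
    k0,k0,k0,k0,k0,k0,k0,k0,k0,k0],[k0,k0,k0,k0,k0,k0,k0,k0,k0,k0,k0,k0],[k0,k0,k0,k0,k0,k0,k0,k0,k0,k0,k0,
    (nat_lit 212)],[k0,k0,k0,k0,k0,k0,(nat_lit 212),k0,k0,k0,k0,k0]] (nat_lit 12720) k5
    [[(k10,(nat_lit 3763)),(k11,(nat_lit 3763)),(k9,(nat_lit 4187)),(k1,(nat_lit 4346)),(k6,(nat_lit 4347)),(k8,
    (nat_lit 4399))],[(k0,(nat_lit 4134)),(k2,(nat_lit 4187)),(k3,(nat_lit 4187)),(k4,(nat_lit 4187)),(k5,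
    (nat_lit 4187)),(k7,(nat_lit 4347))],[(k0,(nat_lit 4187)),(k2,(nat_lit 4240)),(k3,(nat_lit 4240)),(k4,
    (nat_lit 4240)),(k5,(nat_lit 4240)),(k7,(nat_lit 4400))],[(k0,(nat_lit 4187)),(k2,(nat_lit 4240)),(k3,
    (nat_lit 4240)),(k4,(nat_lit 4240)),(k5,(nat_lit 4240)),(k7,(nat_lit 4400))],[(k0,(nat_lit 4187)),(k2,
    (nat_lit 4240)),(k3,(nat_lit 4240)),(k4,(nat_lit 4240)),(k5,(nat_lit 4240)),(k7,(nat_lit 4400))],[(k0,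
    (nat_lit 4187)),(k2,(nat_lit 4240)),(k3,(nat_lit 4240)),(k4,(nat_lit 4240)),(k5,(nat_lit 4240)),(k7,
    (nat_lit 4400))],[(k0,(nat_lit 4347)),(k2,(nat_lit 4400)),(k3,(nat_lit 4400)),(k4,(nat_lit 4400)),(k5,
    (nat_lit 4400)),(k7,(nat_lit 4560))],[(k11,(nat_lit 3976)),(k10,(nat_lit 4188)),(k1,(nat_lit 4347)),(k6,
    (nat_lit 4560)),(k8,(nat_lit 4612)),(k9,(nat_lit 4612))],[(k10,(nat_lit 4028)),(k11,(nat_lit 4028)),(k1,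
    (nat_lit 4187)),(k6,(nat_lit 4612)),(k8,(nat_lit 4664)),(k9,(nat_lit 4664))],[(k10,(nat_lit 4028)),(k11,
    (nat_lit 4028)),(k1,(nat_lit 4399)),(k6,(nat_lit 4612)),(k8,(nat_lit 4664)),(k9,(nat_lit 4664))],[(k10,
    (nat_lit 3392)),(k11,(nat_lit 3392)),(k1,(nat_lit 3763)),(k6,(nat_lit 3976)),(k8,(nat_lit 4028)),(k9,
    (nat_lit 4028))],[(k10,(nat_lit 3180)),(k11,(nat_lit 3392)),(k1,(nat_lit 3763)),(k8,(nat_lit 4028)),(k9,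
    (nat_lit 4028)),(k6,(nat_lit 4188))]]
    [[k2,k0,k0,k0,k0,k1],[k1,k0,k0,k1,k0,k1],[k0,k0,k0,k0,k1,k2],[k0,k0,k0,k0,k0,k3]]
    [.ref k76 k3 [(z1,[z0,z1,z1]),(z1,[z1,y1,y1]),(z1,[y1,z0,y1,z2])],.ref k66 k3 [(z1,[z0,z1,z1]),(z1,[z2,y1,y2]),
    (z1,[y1,z0,z0,z1])],.ref k41 k0 [(z1,[z1,z2,z1,y1]),(z1,[y2,y1,z1,z2]),(z1,[y1,y2,y4,z4])],.ref k41 k0 [(z2,[z1,
    z3]),(z1,[y1,z0,z3]),(z2,[y1,y3,y6,z6])]],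
    .lp k0 [(nat_lit 58322),(nat_lit 57600),(nat_lit 57600),(nat_lit 61214),(nat_lit 48200),
    (nat_lit 62660)] [(nat_lit 2169),(nat_lit 2169),(nat_lit 2530),(nat_lit 2530),(nat_lit 2530),(nat_lit 2530),
    (nat_lit 723),(nat_lit 723),(nat_lit 7230),(nat_lit 7230),k0,k0] k0 [[k0,k0,(nat_lit 723),(nat_lit 3615),k0,k0,k0,
    k0,k0,k0,k0,k0],[k0,k0,k0,k0,k0,k0,k0,k0,k0,k0,k0,k0],[k0,(nat_lit 3615),k0,k0,(nat_lit 3615),k0,k0,k0,k0,k0,k0,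
    k0],[k0,(nat_lit 723),k0,k0,(nat_lit 723),k0,k0,k0,k0,k0,k0,k0],[k0,k0,k0,k0,k0,(nat_lit 2892),k0,k0,k0,k0,k0,k0],
    [k0,k0,(nat_lit 723),(nat_lit 3615),k0,k0,k0,k0,k0,k0,k0,k0],[k0,k0,k0,k0,k0,k0,k0,k0,k0,k0,k0,(nat_lit 8676)],
    [k0,k0,k0,k0,k0,k0,k0,k0,k0,k0,k0,k0],[k0,k0,k0,k0,k0,k0,k0,k0,k0,k0,k0,k0],[k0,k0,k0,k0,k0,k0,k0,k0,k0,k0,k0,k0],
    [k0,k0,k0,k0,k0,k0,k0,(nat_lit 8676),k0,k0,k0,k0],[k0,k0,k0,k0,k0,k0,k0,k0,k0,k0,k0,k0]] (nat_lit 173520) k5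
    [[(k8,(nat_lit 53261)),(k1,(nat_lit 58322)),(k6,(nat_lit 59768)),(k10,(nat_lit 60491)),(k11,(nat_lit 60491)),(k9,
    (nat_lit 61937))],[(k2,(nat_lit 54346)),(k5,(nat_lit 57238)),(k3,(nat_lit 57961)),(k4,(nat_lit 57961)),(k0,
    (nat_lit 58322)),(k7,(nat_lit 59768))],[(k3,(nat_lit 57600)),(k4,(nat_lit 57600)),(k0,(nat_lit 57961)),(k2,
    (nat_lit 58323)),(k7,(nat_lit 59407)),(k5,(nat_lit 61215))],[(k0,(nat_lit 54346)),(k7,(nat_lit 55792)),(k2,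
    (nat_lit 57600)),(k5,(nat_lit 57600)),(k3,(nat_lit 58323)),(k4,(nat_lit 58323))],[(k0,(nat_lit 57238)),(k2,
    (nat_lit 57600)),(k5,(nat_lit 57600)),(k7,(nat_lit 58684)),(k3,(nat_lit 61215)),(k4,(nat_lit 61215))],[(k4,
    (nat_lit 54708)),(k3,(nat_lit 57600)),(k0,(nat_lit 57961)),(k2,(nat_lit 58323)),(k7,(nat_lit 59407)),(k5,
    (nat_lit 61215))],[(k2,(nat_lit 55792)),(k5,(nat_lit 58684)),(k3,(nat_lit 59407)),(k4,(nat_lit 59407)),(k0,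
    (nat_lit 59768)),(k7,(nat_lit 64106))],[(k10,(nat_lit 53261)),(k8,(nat_lit 54707)),(k9,(nat_lit 54707)),(k1,
    (nat_lit 59768)),(k6,(nat_lit 61214)),(k11,(nat_lit 61937))],[(k8,(nat_lit 48200)),(k9,(nat_lit 48200)),(k6,
    (nat_lit 54707)),(k10,(nat_lit 55430)),(k11,(nat_lit 55430)),(k1,(nat_lit 61937))],[(k8,(nat_lit 48200)),(k9,
    (nat_lit 48200)),(k1,(nat_lit 53261)),(k6,(nat_lit 54707)),(k10,(nat_lit 55430)),(k11,(nat_lit 55430))],[(k8,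
    (nat_lit 55430)),(k9,(nat_lit 55430)),(k1,(nat_lit 60491)),(k6,(nat_lit 61937)),(k10,(nat_lit 62660)),(k11,
    (nat_lit 62660))],[(k6,(nat_lit 53261)),(k8,(nat_lit 55430)),(k9,(nat_lit 55430)),(k1,(nat_lit 60491)),(k10,
    (nat_lit 62660)),(k11,(nat_lit 62660))]]
    [[k2,k1,k0,k0,k0,k0],[k1,k0,k0,k1,k1,k0],[k0,k0,k0,k0,k3,k0],[k0,k0,k0,k0,k2,k1]]
    [.ref k1 k0 [(z2,[z1,z4,y1]),(z1,[z2,y4,z1]),(z1,[y1,z2,z1,z3]),(z1,[y1,z2,z1,z0,z3]),(z1,[y1,y1,y2,y3,y3,z3])],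
    .ref k1 k0 [(z1,[y1,z3,y1,y1,z0,z1]),(z1,[y4,z0,y1,y4,z0,z4]),(z1,[z2,z0,z2,z5,z0,y2]),(z1,[z2,z0,z2,z2,z3,y2]),
    (z1,[z2,y3,y1,y1,y3,z1])],.ref k1 k0 [(z2,[y1,z3,y3,y3,y3,z3]),(z1,[y2,y6,y3,y6,y6,z6]),(z1,[z1,z3,z3,z6,z3,y3]),
    (z1,[z1,z3,z3,z3,z6,y3]),(z1,[z1])],.ref k1 k0 [(z1,[y1,z1,y2,y2,y2,z2]),(z1,[y4,y8,y5,y8,y8,z8]),(z1,[z2,z4,z4,
    z7,z4,y4]),(z1,[z2,z4,z4,z4,z7,y4]),(z1,[z2,z1,z1,z1,z1,y1])]],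
    .lp k0 [k146,k160,k160,k178,k154,k154] [k16,k16,k9,k9,k9,k9,k0,k0,k12,k12,k12,k12] k0 [[k0,k0,k0,k0,k0,k0,k0,k0,
    k0,k0,k0,k0],[k0,k0,k0,k0,k16,k0,k0,k0,k0,k0,k0,k0],[k0,k0,k0,k0,k0,k0,k0,k0,k0,k0,k0,k0],[k0,k0,k0,k0,k0,k0,k0,
    k0,k0,k0,k0,k0],[k0,k0,k0,k0,k0,k0,k0,k0,k0,k0,k0,k0],[k16,k0,k0,k0,k0,k0,k0,k0,k0,k0,k0,k0],[k0,k0,k0,k0,k0,k0,
    k0,k0,k30,k30,k0,k0],[k0,k0,k0,k0,k0,k0,k0,k0,k0,k0,k0,k12],[k0,k0,k0,k0,k0,k0,k0,k30,k0,k0,k30,k0],[k0,k0,k0,k0,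
    k0,k0,k0,k30,k0,k0,k30,k0],[k0,k0,k0,k0,k0,k0,k12,k0,k0,k0,k0,k12],[k0,k0,k0,k0,k0,k0,k0,k0,k30,k30,k0,
    k0]] (nat_lit 480) k5
    [[(k8,k120),(k11,k120),(k9,k150),(k10,k150),(k1,k158),(k6,k174)],[(k0,k146),(k2,k153),(k3,k153),(k5,k153),(k7,
    k162),(k4,k169)],[(k0,k153),(k7,k153),(k2,k160),(k3,k160),(k4,k160),(k5,k160)],[(k0,k153),(k2,k160),(k3,k160),(k4,
    k160),(k5,k160),(k7,k169)],[(k0,k153),(k2,k160),(k3,k160),(k4,k160),(k5,k160),(k7,k169)],[(k2,k160),(k3,k160),(k4,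
    k160),(k5,k160),(k0,k169),(k7,k169)],[(k3,k153),(k0,k162),(k2,k169),(k4,k169),(k5,k169),(k7,k178)],[(k8,k136),
    (k11,k136),(k9,k166),(k10,k166),(k1,k174),(k6,k178)],[(k10,k142),(k1,k150),(k9,k154),(k6,k166),(k8,k184),(k11,
    k184)],[(k1,k120),(k6,k136),(k8,k154),(k11,k154),(k9,k184),(k10,k184)],[(k1,k120),(k6,k136),(k8,k154),(k11,k154),
    (k9,k184),(k10,k184)],[(k9,k142),(k10,k142),(k1,k150),(k6,k166),(k8,k184),(k11,k184)]]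
    [[k2,k1,k0,k0,k0,k0],[k2,k0,k0,k0,k1,k0],[k1,k0,k0,k1,k1,k0],[k2,k0,k0,k0,k0,k1],[k1,k0,k0,k1,k0,k1]]
    [.ref k6 k0 [(z1,[z1,z0,y1]),(z1,[z0,z0,z1]),(z1,[z0,z0,z0,z1]),(z2,[y1,z1,z1])],.ref k78 k1 [(z4,[y2,z1,y2,y3,
    z2]),(z2,[z0,y1,y2,y5,z2]),(z1,[z0,z0,z0,z1]),(z4,[z2,z1,z2,z5,y2])],.ref k71 k0 [(z2,[y2,z3,y2,y1,z2]),(z1,[y2,
    z0,z1,y1,z2]),(z1,[z1,z0,z1,z2,y1]),(z2,[z8,y3,z2,z1,y2])],.ref k6 k0 [(z1,[z1]),(z1,[z0,z0,z1]),(z1,[z0,z0,z0,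
    z1]),(z2,[y1,z1])],.ref k71 k0 [(z1,[z1,z1]),(z1,[z2,y1,z3]),(z2,[y2,z1,z0,z3]),(z2,[y8,z1,y6,y3,z6])]],
    .lp k0 [k36,k30,k30,k32,k28,k32] [k0,k0,k3,k3,k3,k3,k2,k2,k4,k4,k2,k2] k0 [[k0,k0,k6,k6,k0,k0,k0,k0,k0,k0,k0,k0],
    [k0,k0,k0,k0,k0,k0,k0,k0,k0,k0,k0,k0],[k0,k6,k0,k0,k6,k0,k0,k0,k0,k0,k0,k0],[k0,k6,k0,k0,k6,k0,k0,k0,k0,k0,k0,k0],
    [k0,k0,k0,k0,k0,k0,k0,k0,k0,k0,k0,k0],[k0,k0,k6,k6,k0,k0,k0,k0,k0,k0,k0,k0],[k0,k0,k0,k0,k0,k0,k0,k8,k4,k0,k0,k0],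
    [k0,k0,k0,k0,k0,k0,k0,k0,k4,k0,k4,k4],[k0,k0,k0,k0,k0,k0,k0,k0,k0,k0,k0,k0],[k0,k0,k0,k0,k0,k0,k4,k4,k0,k0,k0,k0],
    [k0,k0,k0,k0,k0,k0,k4,k0,k0,k0,k0,k0],[k0,k0,k0,k0,k0,k0,k4,k0,k0,k0,k0,k0]] k96 k5
    [[(k9,k28),(k8,k32),(k10,k34),(k11,k34),(k1,k36),(k6,k38)],[(k2,k27),(k5,k27),(k3,k33),(k4,k33),(k7,k34),(k0,
    k36)],[(k3,k30),(k4,k30),(k7,k31),(k0,k33),(k2,k36),(k5,k36)],[(k7,k25),(k0,k27),(k2,k30),(k5,k30),(k3,k36),(k4,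
    k36)],[(k7,k25),(k0,k27),(k2,k30),(k5,k30),(k3,k36),(k4,k36)],[(k3,k30),(k4,k30),(k7,k31),(k0,k33),(k2,k36),(k5,
    k36)],[(k2,k25),(k5,k25),(k3,k31),(k4,k31),(k7,k32),(k0,k34)],[(k6,k24),(k11,k28),(k9,k30),(k8,k34),(k10,k36),(k1,
    k38)],[(k10,k26),(k11,k26),(k1,k28),(k6,k30),(k8,k32),(k9,k36)],[(k8,k28),(k10,k30),(k11,k30),(k1,k32),(k9,k32),
    (k6,k34)],[(k9,k26),(k6,k28),(k8,k30),(k10,k32),(k11,k32),(k1,k34)],[(k9,k26),(k8,k30),(k10,k32),(k11,k32),(k1,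
    k34),(k6,k36)]]
    [[k0,k1,k0,k2,k0,k0],[k0,k0,k1,k2,k0,k0],[k0,k0,k0,k0,k2,k1],[k0,k0,k0,k0,k1,k2]]
    [.ref k50 k2 [(z2,[z1,z0,y1]),(z1,[z0,y1,y1,z1]),(z1,[z0,z0,z1])],.ref k11 k0 [(z1,[y1,z1,y1,z1]),(z1,[z0,z0,z1]),
    (z1,[z0,y1,y1,z1])],.ref k60 k1 [(z1,[y1,z3,z2,y2]),(z1,[z0,z1,z1,y1]),(z1,[z1,y2,y2,z2])],.ref k79 k1 [(z1,[y1,
    z3,z1,y1]),(z1,[z0,z1,z1,y1]),(z1,[z1,y1,y1,z1])]],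
    .lp k0 [k76,k80,k80,k74,k92,k74] [k11,k5,k6,k6,k6,k6,k9,k9,k0,k0,k9,k9] k0 [[k0,k0,k0,k0,k0,k0,k0,k0,k0,k0,k0,k0],
    [k0,k0,k0,k0,k8,k0,k0,k0,k0,k0,k0,k0],[k0,k0,k0,k0,k0,k0,k0,k0,k0,k0,k0,k0],[k0,k0,k0,k0,k0,k0,k0,k0,k0,k0,k0,k0],
    [k0,k0,k0,k0,k0,k0,k0,k0,k0,k0,k0,k0],[k8,k0,k0,k0,k0,k0,k0,k0,k0,k0,k0,k0],[k0,k0,k0,k0,k0,k0,k0,k0,k0,k0,k0,
    k14],[k0,k0,k0,k0,k0,k0,k20,k0,k0,k0,k0,k18],[k0,k0,k0,k0,k0,k0,k0,k0,k0,k0,k18,k0],[k0,k0,k0,k0,k0,k0,k0,k0,k0,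
    k0,k18,k0],[k0,k0,k0,k0,k0,k0,k18,k14,k0,k0,k0,k0],[k0,k0,k0,k0,k0,k0,k0,k0,k18,k18,k0,k0]] (nat_lit 240) k5
    [[(k11,k60),(k8,k69),(k10,k78),(k1,k82),(k6,k96),(k9,k101)],[(k0,k70),(k7,k72),(k2,k75),(k3,k75),(k5,k75),(k4,
    k83)],[(k7,k69),(k0,k75),(k2,k80),(k3,k80),(k4,k80),(k5,k80)],[(k0,k75),(k7,k77),(k2,k80),(k3,k80),(k4,k80),(k5,
    k80)],[(k0,k75),(k7,k77),(k2,k80),(k3,k80),(k4,k80),(k5,k80)],[(k7,k77),(k2,k80),(k3,k80),(k4,k80),(k5,k80),(k0,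
    k83)],[(k3,k69),(k0,k72),(k7,k74),(k2,k77),(k4,k77),(k5,k77)],[(k10,k60),(k11,k74),(k8,k83),(k9,k83),(k6,k94),(k1,
    k96)],[(k10,k65),(k9,k72),(k6,k83),(k11,k83),(k8,k92),(k1,k101)],[(k1,k69),(k6,k83),(k11,k83),(k8,k92),(k9,k92),
    (k10,k101)],[(k1,k60),(k6,k74),(k11,k74),(k8,k83),(k9,k83),(k10,k92)],[(k6,k60),(k9,k65),(k10,k74),(k1,k78),(k11,
    k92),(k8,k101)]]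
    [[k2,k1,k0,k0,k0,k0],[k1,k0,k0,k1,k1,k0],[k2,k0,k0,k0,k0,k1],[k1,k0,k0,k1,k0,k1],[k0,k0,k0,k2,k0,k1]]
    [.ref k1 k0 [(z2,[z3,z0,y1]),(z1,[z0,z0,z1]),(z1,[z0,z0,z0,z1]),(z1,[z0,z0,z0,z0,z1]),(z1,[y3,z3,z0,y1,y1,z3])],
    .ref k1 k0 [(z1,[y3,z3,y1,y1,z0,z3]),(z1,[z0,z0,z1]),(z1,[z0,z0,z0,z1]),(z1,[z0,z0,z0,z0,z1]),(z1,[z6,y3,z1,z1,y1,
    y3])],.ref k1 k0 [(z1,[z1,z1]),(z1,[z0,z0,z1]),(z1,[z0,z0,z0,z1]),(z1,[z0,z0,z0,z0,z1]),(z1,[y2,z1,y1,y1,y1,z3])],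
    .ref k1 k0 [(z2,[z3,z3,z0,z0,y1]),(z1,[z0,z0,z1]),(z1,[z0,z0,z0,z1]),(z1,[z0,z0,z0,z0,z1]),(z1,[y3,z0,y1,y1,z0,
    z3])],.ref k1 k0 [(z1,[z3,z3,z0,z0,y2]),(z1,[z0,z0,z1]),(z1,[z0,z0,z0,z1]),(z1,[z0,z0,z0,z0,z1]),(z1,[y6,y3,y1,y1,
    z3,z3])]],
    .lp k0 [k76,k80,k80,k74,k92,k74] [k11,k5,k6,k6,k6,k6,k9,k9,k0,k0,k9,k9] k0 [[k0,k0,k0,k0,k0,k0,k0,k0,k0,k0,k0,k0],
    [k0,k0,k0,k0,k8,k0,k0,k0,k0,k0,k0,k0],[k0,k0,k0,k0,k0,k0,k0,k0,k0,k0,k0,k0],[k0,k0,k0,k0,k0,k0,k0,k0,k0,k0,k0,k0],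
    [k0,k0,k0,k0,k0,k0,k0,k0,k0,k0,k0,k0],[k8,k0,k0,k0,k0,k0,k0,k0,k0,k0,k0,k0],[k0,k0,k0,k0,k0,k0,k0,k0,k0,k0,k0,
    k14],[k0,k0,k0,k0,k0,k0,k20,k0,k0,k0,k0,k18],[k0,k0,k0,k0,k0,k0,k0,k0,k0,k0,k18,k0],[k0,k0,k0,k0,k0,k0,k0,k0,k0,
    k0,k18,k0],[k0,k0,k0,k0,k0,k0,k18,k14,k0,k0,k0,k0],[k0,k0,k0,k0,k0,k0,k0,k0,k18,k18,k0,k0]] (nat_lit 240) k5
    [[(k11,k60),(k8,k69),(k10,k78),(k1,k82),(k6,k96),(k9,k101)],[(k0,k70),(k7,k72),(k2,k75),(k3,k75),(k5,k75),(k4,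
    k83)],[(k7,k69),(k0,k75),(k2,k80),(k3,k80),(k4,k80),(k5,k80)],[(k0,k75),(k7,k77),(k2,k80),(k3,k80),(k4,k80),(k5,
    k80)],[(k0,k75),(k7,k77),(k2,k80),(k3,k80),(k4,k80),(k5,k80)],[(k7,k77),(k2,k80),(k3,k80),(k4,k80),(k5,k80),(k0,
    k83)],[(k3,k69),(k0,k72),(k7,k74),(k2,k77),(k4,k77),(k5,k77)],[(k10,k60),(k11,k74),(k8,k83),(k9,k83),(k6,k94),(k1,
    k96)],[(k10,k65),(k9,k72),(k6,k83),(k11,k83),(k8,k92),(k1,k101)],[(k1,k69),(k6,k83),(k11,k83),(k8,k92),(k9,k92),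
    (k10,k101)],[(k1,k60),(k6,k74),(k11,k74),(k8,k83),(k9,k83),(k10,k92)],[(k6,k60),(k9,k65),(k10,k74),(k1,k78),(k11,
    k92),(k8,k101)]]
    [[k2,k1,k0,k0,k0,k0],[k1,k0,k0,k1,k1,k0],[k2,k0,k0,k0,k0,k1],[k1,k0,k0,k1,k0,k1],[k0,k0,k0,k2,k0,k1]]
    [.ref k25 k0 [(z1,[z0,z1]),(z1,[z1,y2]),(z2,[y1,z2,z1,z2]),(z2,[y1,z2,z1])],.ref k25 k0 [(z1,[z0,z1]),(z1,[y2,z0,
    y1,y2,z2]),(z1,[z1,z0,z1,z2,y1]),(z1,[z1,z0,z1,z1,y1])],.ref k81 k1 [(z1,[z0,z0,z0,y1]),(z1,[y2,z1,y3,y3,z3]),(z1,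
    [z1,y2]),(z1,[z1,z1])],.ref k78 k0 [(z1,[z0,z1]),(z1,[y2,z2,z1]),(z1,[z1,y1,z0,z1]),(z1,[z1,y1])],
    .ref k78 k1 [(z1,[z0,z0,z0,y1]),(z1,[y2,y1,y1,y5,z1]),(z1,[z1,z0,z0,z2]),(z1,[z1,z1,z0,z2])]],
    .lp k0 [k146,k160,k160,k178,k154,k154] [k16,k16,k9,k9,k9,k9,k0,k0,k12,k12,k12,k12] k0 [[k0,k0,k0,k0,k0,k0,k0,k0,
    k0,k0,k0,k0],[k0,k0,k0,k0,k16,k0,k0,k0,k0,k0,k0,k0],[k0,k0,k0,k0,k0,k0,k0,k0,k0,k0,k0,k0],[k0,k0,k0,k0,k0,k0,k0,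
    k0,k0,k0,k0,k0],[k0,k0,k0,k0,k0,k0,k0,k0,k0,k0,k0,k0],[k16,k0,k0,k0,k0,k0,k0,k0,k0,k0,k0,k0],[k0,k0,k0,k0,k0,k0,
    k0,k0,k30,k30,k0,k0],[k0,k0,k0,k0,k0,k0,k0,k0,k0,k0,k0,k12],[k0,k0,k0,k0,k0,k0,k0,k30,k0,k0,k30,k0],[k0,k0,k0,k0,
    k0,k0,k0,k30,k0,k0,k30,k0],[k0,k0,k0,k0,k0,k0,k12,k0,k0,k0,k0,k12],[k0,k0,k0,k0,k0,k0,k0,k0,k30,k30,k0,
    k0]] (nat_lit 480) k5
    [[(k8,k120),(k11,k120),(k9,k150),(k10,k150),(k1,k158),(k6,k174)],[(k0,k146),(k2,k153),(k3,k153),(k5,k153),(k7,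
    k162),(k4,k169)],[(k0,k153),(k7,k153),(k2,k160),(k3,k160),(k4,k160),(k5,k160)],[(k0,k153),(k2,k160),(k3,k160),(k4,
    k160),(k5,k160),(k7,k169)],[(k0,k153),(k2,k160),(k3,k160),(k4,k160),(k5,k160),(k7,k169)],[(k2,k160),(k3,k160),(k4,
    k160),(k5,k160),(k0,k169),(k7,k169)],[(k3,k153),(k0,k162),(k2,k169),(k4,k169),(k5,k169),(k7,k178)],[(k8,k136),
    (k11,k136),(k9,k166),(k10,k166),(k1,k174),(k6,k178)],[(k10,k142),(k1,k150),(k9,k154),(k6,k166),(k8,k184),(k11,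
    k184)],[(k1,k120),(k6,k136),(k8,k154),(k11,k154),(k9,k184),(k10,k184)],[(k1,k120),(k6,k136),(k8,k154),(k11,k154),
    (k9,k184),(k10,k184)],[(k9,k142),(k10,k142),(k1,k150),(k6,k166),(k8,k184),(k11,k184)]]
    [[k2,k1,k0,k0,k0,k0],[k2,k0,k0,k0,k1,k0],[k1,k0,k0,k1,k1,k0],[k2,k0,k0,k0,k0,k1],[k1,k0,k0,k1,k0,k1]]
    [.ref k1 k0 [(z2,[z1,z1,y1]),(z1,[z2,y1,z1]),(z2,[y2,z1,z2,z3]),(z4,[z2,y1,y2,z0,z3]),(z4,[y16,z5,z4,y6,y3,z12])],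
    .ref k1 k0 [(z8,[y4,z7,y4,y2,y1,z4]),(z2,[y4,z1,z2,y2,y1,z4]),(z4,[z4,y1,z4,z8,z1,y4]),(z8,[y4,z1,y4,y2,z5,z4]),
    (z4,[z16,y7,z4,z2,z1,y4])],.ref k1 k0 [(z4,[y2,z3,y2,y1,z0,z2]),(z1,[y2,z0,z1,y1,z0,z2]),(z1,[z1,z0,z1,z2,z0,y1]),
    (z4,[y2,z0,y2,y1,z3,z2]),(z4,[z16,y3,z4,z2,y3,y4])],.ref k1 k0 [(z2,[z1,z1]),(z1,[z2,y1,z3]),(z2,[y2,z1,z0,z3]),
    (z4,[z2,y1,z0,z0,z3]),(z4,[y16,z5,y12,y6,y3,z12])],.ref k1 k0 [(z8,[z4,z5,z0,z0,y1]),(z2,[z4,y1,z6,z0,y1]),(z4,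
    [y4,z1,z0,z6,z1]),(z8,[z4,y1,z0,z0,z5]),(z4,[y16,z1,y12,y6,z1,z12])]]]

theorem hB6_124_6 : blkB [0, 0, 0, 1, 1, 1] [] sp6 hS6_124 (pcls (n := 6) [0, 0, 0, 1, 1, 1]) hD6_124 117 6 hN6_124_6 = true := by
  decide +kernel

/-- nodes 84 to 95 -/
noncomputable def hN6_124_7 : List HM :=
  [.lp k0 [k74,k80,k80,k76,k74,k92] [k9,k9,k6,k6,k6,k6,k5,k11,k9,k9,k0,k0] k0 [[k0,k0,k0,k0,k0,k8,k0,k0,k0,k0,k0,k0],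
    [k0,k0,k0,k0,k0,k0,k0,k0,k0,k0,k0,k0],[k0,k0,k0,k0,k0,k0,k0,k0,k0,k0,k0,k0],[k0,k0,k0,k0,k0,k0,k0,k0,k0,k0,k0,k0],
    [k0,k8,k0,k0,k0,k0,k0,k0,k0,k0,k0,k0],[k0,k0,k0,k0,k0,k0,k0,k0,k0,k0,k0,k0],[k0,k0,k0,k0,k0,k0,k0,k0,k18,k18,k0,
    k0],[k0,k0,k0,k0,k0,k0,k0,k0,k0,k0,k14,k18],[k0,k0,k0,k0,k0,k0,k0,k18,k0,k0,k0,k0],[k0,k0,k0,k0,k0,k0,k0,k18,k0,
    k0,k0,k0],[k0,k0,k0,k0,k0,k0,k18,k0,k0,k0,k0,k20],[k0,k0,k0,k0,k0,k0,k14,k0,k0,k0,k0,k0]] (nat_lit 240) k5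
    [[(k9,k60),(k8,k74),(k10,k83),(k11,k83),(k1,k94),(k6,k96)],[(k4,k69),(k7,k72),(k0,k74),(k2,k77),(k3,k77),(k5,
    k77)],[(k0,k77),(k2,k80),(k3,k80),(k4,k80),(k5,k80),(k7,k83)],[(k7,k75),(k0,k77),(k2,k80),(k3,k80),(k4,k80),(k5,
    k80)],[(k7,k75),(k0,k77),(k2,k80),(k3,k80),(k4,k80),(k5,k80)],[(k0,k69),(k7,k75),(k2,k80),(k3,k80),(k4,k80),(k5,
    k80)],[(k7,k70),(k0,k72),(k2,k75),(k4,k75),(k5,k75),(k3,k83)],[(k8,k60),(k11,k69),(k9,k78),(k6,k82),(k1,k96),(k10,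
    k101)],[(k1,k60),(k10,k65),(k9,k74),(k6,k78),(k8,k92),(k11,k101)],[(k6,k60),(k1,k74),(k8,k74),(k10,k83),(k11,k83),
    (k9,k92)],[(k6,k69),(k1,k83),(k8,k83),(k10,k92),(k11,k92),(k9,k101)],[(k9,k65),(k10,k72),(k1,k83),(k8,k83),(k11,
    k92),(k6,k101)]]
    [[k2,k0,k0,k0,k1,k0],[k1,k0,k0,k1,k1,k0],[k1,k0,k0,k1,k0,k1],[k0,k0,k1,k2,k0,k0],[k0,k0,k0,k2,k1,k0]]
    [.ref k1 k0 [(z12,[z6,z15,z2,z2,z1,y6]),(z1,[z0,z0,z1]),(z1,[z0,z0,z0,z1]),(z4,[y6,z3,y2,y2,z1,z6]),(z6,[z12,y15,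
    y2,y2,y1,z6])],.ref k1 k0 [(z2,[z3,z3,z1,z1,z0,y3]),(z1,[z0,z0,z1]),(z1,[z0,z0,z0,z1]),(z2,[y9,z0,y3,y3,z1,z9]),
    (z2,[z12,y3,z2,z2,y1,y6])],.ref k1 k0 [(z8,[y6,z15,z0,z0,z1]),(z1,[z0,z0,z1]),(z1,[z0,z0,z0,z1]),(z8,[z18,y9,z0,
    z0,z1]),(z1,[y3,z0,y1,y1,z0,z3])],.ref k1 k0 [(z6,[y3,z9,z0,z1,z1]),(z1,[z0,z0,z1]),(z1,[z0,z0,z0,z1]),(z2,[z3,z0,
    z0,y1]),(z6,[y12,y9,y6,y2,z1,z18])],.ref k1 k0 [(z4,[y6,z3,y2,y2,z1,z6]),(z1,[z0,z0,z1]),(z1,[z0,z0,z0,z1]),(z4,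
    [z18,z9,z6,z6,y1,y18]),(z2,[y12,y9,y6,y6,z1,z18])]],
    .lp k0 [k84,k72,k80,k84,k78,k78] [k0,k0,k6,k6,k2,k2,k0,k0,k3,k3,k3,k3] k0 [[k0,k0,k0,k8,k8,k8,k0,k0,k0,k0,k0,k0],
    [k0,k0,k0,k0,k0,k0,k0,k0,k0,k0,k0,k0],[k0,k8,k0,k0,k0,k0,k0,k0,k0,k0,k0,k0],[k0,k0,k0,k0,k0,k0,k0,k0,k0,k0,k0,k0],
    [k0,k8,k0,k0,k0,k0,k0,k0,k0,k0,k0,k0],[k0,k8,k0,k0,k0,k0,k0,k0,k0,k0,k0,k0],[k0,k0,k0,k0,k0,k0,k0,k0,k6,k6,k0,k0],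
    [k0,k0,k0,k0,k0,k0,k0,k0,k0,k0,k0,k0],[k0,k0,k0,k0,k0,k0,k0,k6,k0,k0,k6,k0],[k0,k0,k0,k0,k0,k0,k0,k6,k0,k0,k6,k0],
    [k0,k0,k0,k0,k0,k0,k0,k0,k0,k0,k0,k0],[k0,k0,k0,k0,k0,k0,k0,k0,k6,k6,k0,k0]] (nat_lit 240) k5
    [[(k8,k75),(k11,k75),(k9,k81),(k10,k81),(k1,k84),(k6,k84)],[(k2,k70),(k4,k74),(k7,k76),(k3,k78),(k5,k82),(k0,
    k84)],[(k2,k72),(k3,k72),(k0,k78),(k4,k84),(k5,k84),(k7,k86)],[(k0,k70),(k2,k72),(k3,k72),(k4,k76),(k5,k76),(k7,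
    k78)],[(k2,k76),(k4,k80),(k5,k80),(k0,k82),(k7,k82),(k3,k84)],[(k0,k74),(k2,k76),(k4,k80),(k5,k80),(k7,k82),(k3,
    k84)],[(k0,k76),(k2,k78),(k4,k82),(k5,k82),(k7,k84),(k3,k86)],[(k8,k75),(k11,k75),(k9,k81),(k10,k81),(k1,k84),(k6,
    k84)],[(k9,k78),(k10,k78),(k1,k81),(k6,k81),(k8,k84),(k11,k84)],[(k1,k75),(k6,k75),(k8,k78),(k11,k78),(k9,k84),
    (k10,k84)],[(k1,k75),(k6,k75),(k8,k78),(k11,k78),(k9,k84),(k10,k84)],[(k9,k78),(k10,k78),(k1,k81),(k6,k81),(k8,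
    k84),(k11,k84)]]
    [[k2,k1,k0,k0,k0,k0],[k1,k0,k0,k1,k1,k0],[k1,k0,k0,k1,k0,k1],[k0,k3,k0,k0,k0,k0],[k0,k2,k1,k0,k0,k0]]
    [.ref k6 k0 [(z1,[z0,z1]),(z1,[z1,y1]),(z1,[y1,z1,z1,z1]),(z2,[y1,z1,z1])],.ref k17 k1 [(z1,[y3,z0,y3,y4,z3]),(z2,
    [z4,y1,z2,z3,y2]),(z1,[y1,z0,y1,y1,z1]),(z1,[z1,z1,z1,z1,y1])],.ref k83 k1 [(z2,[z6,y3,z0,y1]),(z1,[y1,z0,y1,y1,
    z1]),(z2,[z2,y1,z0,z1]),(z2,[y2,z5,z0,y1])],.ref k84 k0 [(z1,[z0,z1]),(z1,[z1]),(z2,[y1,z0,z3,z3]),(z1,[y1,z0,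
    z3])],.ref k84 k0 [(z1,[z0,z1]),(z1,[z2,z0,y1,y1]),(z1,[y1,z0,z2,z2]),(z1,[y2,z0,z4,z1])]],
    .lp k0 [k146,k160,k160,k178,k154,k154] [k16,k16,k9,k9,k9,k9,k0,k0,k12,k12,k12,k12] k0 [[k0,k0,k0,k0,k0,k0,k0,k0,
    k0,k0,k0,k0],[k0,k0,k0,k0,k16,k0,k0,k0,k0,k0,k0,k0],[k0,k0,k0,k0,k0,k0,k0,k0,k0,k0,k0,k0],[k0,k0,k0,k0,k0,k0,k0,
    k0,k0,k0,k0,k0],[k0,k0,k0,k0,k0,k0,k0,k0,k0,k0,k0,k0],[k16,k0,k0,k0,k0,k0,k0,k0,k0,k0,k0,k0],[k0,k0,k0,k0,k0,k0,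
    k0,k0,k30,k30,k0,k0],[k0,k0,k0,k0,k0,k0,k0,k0,k0,k0,k0,k12],[k0,k0,k0,k0,k0,k0,k0,k30,k0,k0,k30,k0],[k0,k0,k0,k0,
    k0,k0,k0,k30,k0,k0,k30,k0],[k0,k0,k0,k0,k0,k0,k12,k0,k0,k0,k0,k12],[k0,k0,k0,k0,k0,k0,k0,k0,k30,k30,k0,
    k0]] (nat_lit 480) k5
    [[(k8,k120),(k11,k120),(k9,k150),(k10,k150),(k1,k158),(k6,k174)],[(k0,k146),(k2,k153),(k3,k153),(k5,k153),(k7,
    k162),(k4,k169)],[(k0,k153),(k7,k153),(k2,k160),(k3,k160),(k4,k160),(k5,k160)],[(k0,k153),(k2,k160),(k3,k160),(k4,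
    k160),(k5,k160),(k7,k169)],[(k0,k153),(k2,k160),(k3,k160),(k4,k160),(k5,k160),(k7,k169)],[(k2,k160),(k3,k160),(k4,
    k160),(k5,k160),(k0,k169),(k7,k169)],[(k3,k153),(k0,k162),(k2,k169),(k4,k169),(k5,k169),(k7,k178)],[(k8,k136),
    (k11,k136),(k9,k166),(k10,k166),(k1,k174),(k6,k178)],[(k10,k142),(k1,k150),(k9,k154),(k6,k166),(k8,k184),(k11,
    k184)],[(k1,k120),(k6,k136),(k8,k154),(k11,k154),(k9,k184),(k10,k184)],[(k1,k120),(k6,k136),(k8,k154),(k11,k154),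
    (k9,k184),(k10,k184)],[(k9,k142),(k10,k142),(k1,k150),(k6,k166),(k8,k184),(k11,k184)]]
    [[k2,k1,k0,k0,k0,k0],[k2,k0,k0,k0,k1,k0],[k1,k0,k0,k1,k1,k0],[k2,k0,k0,k0,k0,k1],[k1,k0,k0,k1,k0,k1]]
    [.ref k31 k0 [(z2,[z1,z0,y1]),(z1,[z0,z0,z1]),(z2,[y1,z2,z1])],.ref k82 k0 [(z2,[z1,z1,z1,y1]),(z1,[y1,z1,z0,z1]),
    (z2,[z1,y1,z1,y1])],.ref k59 k0 [(z1,[z1,z1,z1,y1]),(z1,[y2,z0,y1,z2]),(z1,[z1,z0,z1,y1])],.ref k85 k0 [(z1,[z1]),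
    (z1,[y1,z2,z1]),(z1,[z1,y2])],.ref k79 k1 [(z1,[z1,z1]),(z1,[y1,z0,y1,z1]),(z1,[z1,y1])]],
    .lp k0 [k78,k84,k84,k68,k82,k80] [k3,k3,k0,k0,k0,k0,k8,k8,k1,k1,k2,k2] k0 [[k0,k0,k0,k0,k0,k0,k0,k0,k0,k0,k0,k0],
    [k0,k0,k0,k0,k0,k12,k0,k0,k0,k0,k0,k0],[k0,k0,k0,k0,k0,k0,k0,k0,k0,k0,k0,k0],[k0,k0,k0,k0,k0,k0,k0,k0,k0,k0,k0,
    k0],[k12,k0,k0,k0,k0,k0,k0,k0,k0,k0,k0,k0],[k0,k0,k0,k0,k0,k0,k0,k0,k0,k0,k0,k0],[k0,k0,k0,k0,k0,k0,k0,k0,k14,k6,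
    k0,k6],[k0,k0,k0,k0,k0,k0,k20,k0,k0,k0,k0,k10],[k0,k0,k0,k0,k0,k0,k0,k6,k0,k0,k0,k0],[k0,k0,k0,k0,k0,k0,k0,k14,k0,
    k0,k16,k0],[k0,k0,k0,k0,k0,k0,k10,k6,k0,k0,k0,k0],[k0,k0,k0,k0,k0,k0,k0,k0,k16,k0,k0,k0]] (nat_lit 240) k5
    [[(k11,k63),(k1,k78),(k10,k79),(k8,k80),(k6,k83),(k9,k86)],[(k0,k78),(k2,k81),(k3,k81),(k4,k81),(k5,k81),(k7,
    k85)],[(k4,k72),(k7,k76),(k0,k81),(k2,k84),(k3,k84),(k5,k84)],[(k7,k76),(k0,k81),(k2,k84),(k3,k84),(k4,k84),(k5,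
    k84)],[(k7,k76),(k0,k81),(k2,k84),(k3,k84),(k4,k84),(k5,k84)],[(k3,k72),(k7,k76),(k0,k81),(k2,k84),(k4,k84),(k5,
    k84)],[(k7,k68),(k2,k76),(k3,k76),(k4,k76),(k5,k76),(k0,k85)],[(k11,k60),(k10,k68),(k8,k69),(k9,k75),(k1,k83),(k6,
    k88)],[(k9,k62),(k10,k71),(k6,k75),(k1,k86),(k11,k87),(k8,k96)],[(k6,k69),(k1,k80),(k11,k81),(k8,k82),(k9,k96),
    (k10,k97)],[(k6,k60),(k1,k63),(k10,k80),(k11,k80),(k8,k81),(k9,k87)],[(k6,k68),(k9,k71),(k1,k79),(k10,k80),(k11,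
    k80),(k8,k97)]]
    [[k2,k0,k0,k0,k0,k1],[k1,k0,k0,k1,k0,k1],[k0,k0,k0,k2,k1,k0],[k0,k0,k0,k2,k0,k1],[k0,k0,k0,k0,k1,k2]]
    [.ref k9 k0 [(z2,[z3,z3,z3,z1,y3]),(z1,[y3,z3,z0,y1,z3]),(z2,[z3,y3,z3,z1,y3]),(z1,[z0,z0,z0,z1])],
    .ref k34 k0 [(z1,[z1,z1,z1,z0,y1]),(z1,[y2,z0,y1,z0,z2]),(z1,[z1,z0,z1,z0,y1]),(z1,[z0,z0,z0,z1])],
    .ref k37 k0 [(z1,[z0,z1]),(z1,[z0,z0,z1]),(z1,[z3,z0,z0,y1]),(z1,[y3,z0,z0,z2])],.ref k37 k0 [(z1,[z0,z1]),(z1,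
    [z0,z0,z1]),(z2,[z3,z3,z3,z1,y3]),(z2,[y3,y3,y3,z1,z3])],.ref k37 k0 [(z1,[z0,z1]),(z1,[z0,z0,z1]),(z1,[y3,y6,y6,
    y1,z6]),(z1,[z3,z6,z6,z2,y6])]],
    .lp k0 [k84,k78,k84,k78,k80,k72] [k0,k0,k3,k3,k0,k0,k3,k3,k2,k2,k6,k6] k0 [[k0,k0,k6,k6,k0,k0,k0,k0,k0,k0,k0,k0],
    [k0,k0,k0,k0,k10,k6,k0,k0,k0,k0,k0,k0],[k0,k6,k0,k0,k0,k0,k0,k0,k0,k0,k0,k0],[k0,k6,k0,k0,k0,k0,k0,k0,k0,k0,k0,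
    k0],[k6,k0,k0,k0,k0,k12,k0,k0,k0,k0,k0,k0],[k10,k0,k0,k0,k0,k0,k0,k0,k0,k0,k0,k0],[k0,k0,k0,k0,k0,k0,k0,k0,k0,k0,
    k0,k0],[k0,k0,k0,k0,k0,k0,k0,k0,k0,k0,k0,k16],[k0,k0,k0,k0,k0,k0,k0,k0,k0,k0,k8,k0],[k0,k0,k0,k0,k0,k0,k0,k0,k0,
    k0,k0,k0],[k0,k0,k0,k0,k0,k0,k16,k0,k0,k0,k0,k0],[k0,k0,k0,k0,k0,k0,k0,k0,k0,k8,k16,k0]] (nat_lit 240) k5
    [[(k1,k68),(k8,k74),(k10,k78),(k11,k78),(k9,k82),(k6,k97)],[(k2,k75),(k5,k78),(k3,k81),(k0,k84),(k7,k87),(k4,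
    k94)],[(k7,k68),(k4,k75),(k3,k78),(k0,k81),(k2,k84),(k5,k87)],[(k0,k75),(k2,k78),(k7,k78),(k4,k81),(k5,k81),(k3,
    k84)],[(k0,k78),(k2,k81),(k7,k81),(k4,k84),(k5,k84),(k3,k87)],[(k4,k72),(k3,k75),(k2,k81),(k7,k81),(k5,k84),(k0,
    k94)],[(k3,k68),(k2,k78),(k4,k81),(k5,k81),(k0,k87),(k7,k90)],[(k10,k75),(k11,k75),(k6,k78),(k8,k79),(k9,k79),(k1,
    k97)],[(k10,k60),(k11,k76),(k6,k79),(k8,k80),(k9,k80),(k1,k82)],[(k1,k74),(k10,k76),(k11,k76),(k6,k79),(k8,k80),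
    (k9,k80)],[(k11,k72),(k6,k75),(k8,k76),(k9,k76),(k1,k78),(k10,k80)],[(k9,k60),(k6,k75),(k8,k76),(k1,k78),(k11,
    k80),(k10,k88)]]
    [[k2,k1,k0,k0,k0,k0],[k0,k1,k0,k2,k0,k0],[k0,k0,k0,k0,k2,k1],[k0,k0,k0,k0,k1,k2]]
    [.ref k1 k0 [(z2,[y3,z2,z3]),(z1,[z6,y2,y3]),(z1,[y3,z1,z3,z3]),(z2,[z3,y1,y3,z0,z3]),(z1,[y3,z1,z3])],
    .ref k1 k0 [(z2,[y1,z1,z1,z0,z1]),(z1,[z2,z0,z1,z0,y2]),(z1,[y1,z0,z1,z3,z1]),(z2,[z1,z0,y1,z0,z2]),(z1,[y1,z0,z1,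
    z0,z1])],.ref k1 k0 [(z8,[z6,z5,z6,z6,z3,y6]),(z2,[y6,y1,z0,y6,y3,z6]),(z4,[z6,z1,z6,z18,z3,y6]),(z8,[y6,y1,y6,y6,
    z9,z6]),(z4,[z6,z1,z6,z6,z3,y6])],.ref k1 k0 [(z2,[z3,z2,z6,z6,z3,y6]),(z1,[y6,y2,y9,y12,y6,z12]),(z1,[z3,z1,z6,
    z9,z3,y6]),(z2,[y3,y1,y6,y6,z0,z6]),(z1,[z3,z1,z6,z6,z3,y6])]],
    .lp k0 [k76,k80,k80,k74,k92,k74] [k11,k5,k6,k6,k6,k6,k9,k9,k0,k0,k9,k9] k0 [[k0,k0,k0,k0,k0,k0,k0,k0,k0,k0,k0,k0],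
    [k0,k0,k0,k0,k8,k0,k0,k0,k0,k0,k0,k0],[k0,k0,k0,k0,k0,k0,k0,k0,k0,k0,k0,k0],[k0,k0,k0,k0,k0,k0,k0,k0,k0,k0,k0,k0],
    [k0,k0,k0,k0,k0,k0,k0,k0,k0,k0,k0,k0],[k8,k0,k0,k0,k0,k0,k0,k0,k0,k0,k0,k0],[k0,k0,k0,k0,k0,k0,k0,k0,k0,k0,k0,
    k14],[k0,k0,k0,k0,k0,k0,k20,k0,k0,k0,k0,k18],[k0,k0,k0,k0,k0,k0,k0,k0,k0,k0,k18,k0],[k0,k0,k0,k0,k0,k0,k0,k0,k0,
    k0,k18,k0],[k0,k0,k0,k0,k0,k0,k18,k14,k0,k0,k0,k0],[k0,k0,k0,k0,k0,k0,k0,k0,k18,k18,k0,k0]] (nat_lit 240) k5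
    [[(k11,k60),(k8,k69),(k10,k78),(k1,k82),(k6,k96),(k9,k101)],[(k0,k70),(k7,k72),(k2,k75),(k3,k75),(k5,k75),(k4,
    k83)],[(k7,k69),(k0,k75),(k2,k80),(k3,k80),(k4,k80),(k5,k80)],[(k0,k75),(k7,k77),(k2,k80),(k3,k80),(k4,k80),(k5,
    k80)],[(k0,k75),(k7,k77),(k2,k80),(k3,k80),(k4,k80),(k5,k80)],[(k7,k77),(k2,k80),(k3,k80),(k4,k80),(k5,k80),(k0,
    k83)],[(k3,k69),(k0,k72),(k7,k74),(k2,k77),(k4,k77),(k5,k77)],[(k10,k60),(k11,k74),(k8,k83),(k9,k83),(k6,k94),(k1,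
    k96)],[(k10,k65),(k9,k72),(k6,k83),(k11,k83),(k8,k92),(k1,k101)],[(k1,k69),(k6,k83),(k11,k83),(k8,k92),(k9,k92),
    (k10,k101)],[(k1,k60),(k6,k74),(k11,k74),(k8,k83),(k9,k83),(k10,k92)],[(k6,k60),(k9,k65),(k10,k74),(k1,k78),(k11,
    k92),(k8,k101)]]
    [[k2,k1,k0,k0,k0,k0],[k1,k0,k0,k1,k1,k0],[k2,k0,k0,k0,k0,k1],[k1,k0,k0,k1,k0,k1],[k0,k0,k0,k2,k0,k1]]
    [.ref k1 k0 [(z1,[z1,z1,y1]),(z1,[z1,y2,z2]),(z1,[z0,z0,z0,z1]),(z1,[y1,z2,z1,z0,z1]),(z1,[y2,z1,y1,y1,y1,z3])],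
    .ref k1 k0 [(z2,[y3,z6,y3,y1,z0,z3]),(z2,[y3,z0,z3,y1,z0,z3]),(z1,[z0,z0,z0,z1]),(z2,[z3,z0,z3,z1,z2,y3]),(z1,[z3,
    y3,z0,z0,y1])],.ref k1 k0 [(z1,[z1,z1]),(z1,[z1,y2,z3]),(z1,[z0,z0,z0,z1]),(z1,[y1,z2,z0,z0,z1]),(z1,[y2,z1,y3,y1,
    y1,z3])],.ref k1 k0 [(z1,[z3,z0,z0,z0,y1]),(z1,[z3,y3,z3,z0,y1]),(z1,[z0,z0,z0,z1]),(z1,[y3,z3,z0,z0,z2]),(z1,[y6,
    z3,y3,y1,z1,z3])],.ref k1 k0 [(z1,[y3,z3,z0,z0,z2]),(z1,[y3,z0,z3,z0,z2]),(z1,[z0,z0,z0,z1]),(z1,[z3,z0,z0,z0,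
    y1]),(z1,[z6,y3,y3,y1,y5,z3])]],
    .lp k0 [k146,k160,k160,k178,k154,k154] [k16,k16,k9,k9,k9,k9,k0,k0,k12,k12,k12,k12] k0 [[k0,k0,k0,k0,k0,k0,k0,k0,
    k0,k0,k0,k0],[k0,k0,k0,k0,k16,k0,k0,k0,k0,k0,k0,k0],[k0,k0,k0,k0,k0,k0,k0,k0,k0,k0,k0,k0],[k0,k0,k0,k0,k0,k0,k0,
    k0,k0,k0,k0,k0],[k0,k0,k0,k0,k0,k0,k0,k0,k0,k0,k0,k0],[k16,k0,k0,k0,k0,k0,k0,k0,k0,k0,k0,k0],[k0,k0,k0,k0,k0,k0,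
    k0,k0,k30,k30,k0,k0],[k0,k0,k0,k0,k0,k0,k0,k0,k0,k0,k0,k12],[k0,k0,k0,k0,k0,k0,k0,k30,k0,k0,k30,k0],[k0,k0,k0,k0,
    k0,k0,k0,k30,k0,k0,k30,k0],[k0,k0,k0,k0,k0,k0,k12,k0,k0,k0,k0,k12],[k0,k0,k0,k0,k0,k0,k0,k0,k30,k30,k0,
    k0]] (nat_lit 480) k5
    [[(k8,k120),(k11,k120),(k9,k150),(k10,k150),(k1,k158),(k6,k174)],[(k0,k146),(k2,k153),(k3,k153),(k5,k153),(k7,
    k162),(k4,k169)],[(k0,k153),(k7,k153),(k2,k160),(k3,k160),(k4,k160),(k5,k160)],[(k0,k153),(k2,k160),(k3,k160),(k4,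
    k160),(k5,k160),(k7,k169)],[(k0,k153),(k2,k160),(k3,k160),(k4,k160),(k5,k160),(k7,k169)],[(k2,k160),(k3,k160),(k4,
    k160),(k5,k160),(k0,k169),(k7,k169)],[(k3,k153),(k0,k162),(k2,k169),(k4,k169),(k5,k169),(k7,k178)],[(k8,k136),
    (k11,k136),(k9,k166),(k10,k166),(k1,k174),(k6,k178)],[(k10,k142),(k1,k150),(k9,k154),(k6,k166),(k8,k184),(k11,
    k184)],[(k1,k120),(k6,k136),(k8,k154),(k11,k154),(k9,k184),(k10,k184)],[(k1,k120),(k6,k136),(k8,k154),(k11,k154),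
    (k9,k184),(k10,k184)],[(k9,k142),(k10,k142),(k1,k150),(k6,k166),(k8,k184),(k11,k184)]]
    [[k2,k1,k0,k0,k0,k0],[k2,k0,k0,k0,k1,k0],[k1,k0,k0,k1,k1,k0],[k2,k0,k0,k0,k0,k1],[k1,k0,k0,k1,k0,k1]]
    [.ref k88 k1 [(z1,[y3,z2]),(z3,[z0,y1,z3,y1,z3]),(z1,[z0,z0,y1]),(z1,[z1])],.ref k89 k0 [(z6,[z3,z1,z3,z1,y3]),
    (z1,[z0,z0,z1]),(z1,[z0,z0,z0,z1]),(z2,[y3,z1,y3,y1,z3])],.ref k71 k0 [(z1,[z0,z1]),(z2,[y3,z0,z3,y1,z3]),(z1,[z0,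
    z0,z0,z1]),(z1,[z3,y1])],.ref k88 k1 [(z1,[y3,z2,y3]),(z3,[z0,y1,z3,y1,z3]),(z1,[z0,z0,y1]),(z1,[z1,z0,z1])],
    .ref k71 k0 [(z1,[z0,z1]),(z1,[z3,y1,z3]),(z1,[z0,z0,z0,z1]),(z1,[y6,z1,y3,y1,z3])]],
    .lp k0 [k36,k30,k30,k32,k28,k32] [k0,k0,k3,k3,k3,k3,k2,k2,k4,k4,k2,k2] k0 [[k0,k0,k6,k6,k0,k0,k0,k0,k0,k0,k0,k0],
    [k0,k0,k0,k0,k0,k0,k0,k0,k0,k0,k0,k0],[k0,k6,k0,k0,k6,k0,k0,k0,k0,k0,k0,k0],[k0,k6,k0,k0,k6,k0,k0,k0,k0,k0,k0,k0],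
    [k0,k0,k0,k0,k0,k0,k0,k0,k0,k0,k0,k0],[k0,k0,k6,k6,k0,k0,k0,k0,k0,k0,k0,k0],[k0,k0,k0,k0,k0,k0,k0,k8,k4,k0,k0,k0],
    [k0,k0,k0,k0,k0,k0,k0,k0,k4,k0,k4,k4],[k0,k0,k0,k0,k0,k0,k0,k0,k0,k0,k0,k0],[k0,k0,k0,k0,k0,k0,k4,k4,k0,k0,k0,k0],
    [k0,k0,k0,k0,k0,k0,k4,k0,k0,k0,k0,k0],[k0,k0,k0,k0,k0,k0,k4,k0,k0,k0,k0,k0]] k96 k5
    [[(k9,k28),(k8,k32),(k10,k34),(k11,k34),(k1,k36),(k6,k38)],[(k2,k27),(k5,k27),(k3,k33),(k4,k33),(k7,k34),(k0,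
    k36)],[(k3,k30),(k4,k30),(k7,k31),(k0,k33),(k2,k36),(k5,k36)],[(k7,k25),(k0,k27),(k2,k30),(k5,k30),(k3,k36),(k4,
    k36)],[(k7,k25),(k0,k27),(k2,k30),(k5,k30),(k3,k36),(k4,k36)],[(k3,k30),(k4,k30),(k7,k31),(k0,k33),(k2,k36),(k5,
    k36)],[(k2,k25),(k5,k25),(k3,k31),(k4,k31),(k7,k32),(k0,k34)],[(k6,k24),(k11,k28),(k9,k30),(k8,k34),(k10,k36),(k1,
    k38)],[(k10,k26),(k11,k26),(k1,k28),(k6,k30),(k8,k32),(k9,k36)],[(k8,k28),(k10,k30),(k11,k30),(k1,k32),(k9,k32),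
    (k6,k34)],[(k9,k26),(k6,k28),(k8,k30),(k10,k32),(k11,k32),(k1,k34)],[(k9,k26),(k8,k30),(k10,k32),(k11,k32),(k1,
    k34),(k6,k36)]]
    [[k0,k1,k0,k2,k0,k0],[k0,k0,k1,k2,k0,k0],[k0,k0,k0,k0,k2,k1],[k0,k0,k0,k0,k1,k2]]
    [.ref k9 k2 [(z2,[z3,z0,y1]),(z1,[z0,z0,z0,z1]),(z1,[z0,z0,z1]),(z2,[y3,z6,z1])],.ref k9 k2 [(z2,[z3,z0,z0,y1]),
    (z1,[z0,z0,z0,z1]),(z1,[z0,z0,z1]),(z2,[y3,z6,z0,z1])],.ref k71 k0 [(z1,[y3,y3,y2,y2,z6]),(z1,[z0,z0,z1]),(z1,[z0,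
    z0,z0,z1]),(z1,[z0,y3,y1,y1,z3])],.ref k71 k0 [(z2,[y3,z3,y1,y1,z3]),(z1,[z0,z0,z1]),(z1,[z0,z0,z0,z1]),(z1,[z0,
    y3,y1,y1,z3])]],
    .lp k0 [k146,k160,k160,k178,k154,k154] [k16,k16,k9,k9,k9,k9,k0,k0,k12,k12,k12,k12] k0 [[k0,k0,k0,k0,k0,k0,k0,k0,
    k0,k0,k0,k0],[k0,k0,k0,k0,k16,k0,k0,k0,k0,k0,k0,k0],[k0,k0,k0,k0,k0,k0,k0,k0,k0,k0,k0,k0],[k0,k0,k0,k0,k0,k0,k0,
    k0,k0,k0,k0,k0],[k0,k0,k0,k0,k0,k0,k0,k0,k0,k0,k0,k0],[k16,k0,k0,k0,k0,k0,k0,k0,k0,k0,k0,k0],[k0,k0,k0,k0,k0,k0,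
    k0,k0,k30,k30,k0,k0],[k0,k0,k0,k0,k0,k0,k0,k0,k0,k0,k0,k12],[k0,k0,k0,k0,k0,k0,k0,k30,k0,k0,k30,k0],[k0,k0,k0,k0,
    k0,k0,k0,k30,k0,k0,k30,k0],[k0,k0,k0,k0,k0,k0,k12,k0,k0,k0,k0,k12],[k0,k0,k0,k0,k0,k0,k0,k0,k30,k30,k0,
    k0]] (nat_lit 480) k5
    [[(k8,k120),(k11,k120),(k9,k150),(k10,k150),(k1,k158),(k6,k174)],[(k0,k146),(k2,k153),(k3,k153),(k5,k153),(k7,
    k162),(k4,k169)],[(k0,k153),(k7,k153),(k2,k160),(k3,k160),(k4,k160),(k5,k160)],[(k0,k153),(k2,k160),(k3,k160),(k4,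
    k160),(k5,k160),(k7,k169)],[(k0,k153),(k2,k160),(k3,k160),(k4,k160),(k5,k160),(k7,k169)],[(k2,k160),(k3,k160),(k4,
    k160),(k5,k160),(k0,k169),(k7,k169)],[(k3,k153),(k0,k162),(k2,k169),(k4,k169),(k5,k169),(k7,k178)],[(k8,k136),
    (k11,k136),(k9,k166),(k10,k166),(k1,k174),(k6,k178)],[(k10,k142),(k1,k150),(k9,k154),(k6,k166),(k8,k184),(k11,
    k184)],[(k1,k120),(k6,k136),(k8,k154),(k11,k154),(k9,k184),(k10,k184)],[(k1,k120),(k6,k136),(k8,k154),(k11,k154),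
    (k9,k184),(k10,k184)],[(k9,k142),(k10,k142),(k1,k150),(k6,k166),(k8,k184),(k11,k184)]]
    [[k2,k1,k0,k0,k0,k0],[k2,k0,k0,k0,k1,k0],[k1,k0,k0,k1,k1,k0],[k2,k0,k0,k0,k0,k1],[k1,k0,k0,k1,k0,k1]]
    [.ref k37 k0 [(z2,[z1,z0,y1]),(z1,[z0,z0,z1]),(z2,[y3,z2,z3]),(z1,[z0,z0,z0,z1])],.ref k81 k1 [(z6,[y3,z2,z0,z1]),
    (z1,[z0,z0,z0,z1]),(z1,[z0,y1,y3,y1,z3]),(z2,[z3,z0,z0,y1])],.ref k71 k0 [(z1,[z3,z0,z0,y1]),(z1,[y6,z2,z3,z2]),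
    (z1,[z3,y1,z0,y1]),(z1,[z0,z0,z0,z1])],.ref k81 k1 [(z6,[y3,z1,y3,y1,z3]),(z1,[z0,z0,z0,z1]),(z1,[z0,y1,y3,y1,
    z3]),(z2,[z3,z1,z3,z1,y3])],.ref k71 k0 [(z1,[z3,z1,z3,z1,y3]),(z1,[y6,z0,y3,y2,z6]),(z1,[z3,z0,z3,z1,y3]),(z1,
    [z0,z0,z0,z1])]],
    .lp k0 [(nat_lit 362),(nat_lit 278),(nat_lit 386),(nat_lit 386),(nat_lit 374),(nat_lit 356)] [k12,k12,k54,k54,k0,
    k0,k0,k0,k6,k6,k15,k15] k0 [[k0,k0,k0,k30,k30,k30,k0,k0,k0,k0,k0,k0],[k0,k0,k0,k0,k0,k0,k0,k0,k0,k0,k0,k0],[k0,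
    k30,k0,k0,k0,k0,k0,k0,k0,k0,k0,k0],[k0,k0,k0,k0,k0,k0,k0,k0,k0,k0,k0,k0],[k0,k30,k0,k0,k0,k0,k0,k0,k0,k0,k0,k0],
    [k0,k30,k0,k0,k0,k0,k0,k0,k0,k0,k0,k0],[k0,k0,k0,k0,k0,k0,k0,k0,k30,k30,k0,k18],[k0,k0,k0,k0,k0,k0,k0,k0,k0,k0,k0,
    k54],[k0,k0,k0,k0,k0,k0,k0,k30,k0,k0,k12,k0],[k0,k0,k0,k0,k0,k0,k0,k30,k0,k0,k0,k0],[k0,k0,k0,k0,k0,k0,k54,k18,k0,
    k0,k0,k0],[k0,k0,k0,k0,k0,k0,k0,k0,k0,k12,k0,k0]] (nat_lit 1080) k5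
    [[(k8,(nat_lit 356)),(k10,(nat_lit 359)),(k11,(nat_lit 359)),(k1,(nat_lit 362)),(k9,(nat_lit 386)),(k6,
    (nat_lit 428))],[(k2,(nat_lit 290)),(k3,(nat_lit 320)),(k4,(nat_lit 344)),(k7,(nat_lit 344)),(k0,(nat_lit 362)),
    (k5,(nat_lit 374))],[(k2,(nat_lit 278)),(k3,(nat_lit 278)),(k0,(nat_lit 320)),(k4,(nat_lit 362)),(k5,
    (nat_lit 362)),(k7,(nat_lit 362))],[(k2,(nat_lit 278)),(k3,(nat_lit 278)),(k0,(nat_lit 290)),(k4,(nat_lit 332)),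
    (k5,(nat_lit 332)),(k7,(nat_lit 332))],[(k2,(nat_lit 332)),(k3,(nat_lit 362)),(k0,(nat_lit 374)),(k4,
    (nat_lit 386)),(k5,(nat_lit 386)),(k7,(nat_lit 386))],[(k2,(nat_lit 332)),(k0,(nat_lit 344)),(k3,(nat_lit 362)),
    (k4,(nat_lit 386)),(k5,(nat_lit 386)),(k7,(nat_lit 386))],[(k2,(nat_lit 332)),(k0,(nat_lit 344)),(k3,
    (nat_lit 362)),(k4,(nat_lit 386)),(k5,(nat_lit 386)),(k7,(nat_lit 386))],[(k11,(nat_lit 341)),(k8,(nat_lit 350)),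
    (k10,(nat_lit 353)),(k9,(nat_lit 380)),(k6,(nat_lit 386)),(k1,(nat_lit 428))],[(k10,(nat_lit 311)),(k9,
    (nat_lit 374)),(k6,(nat_lit 380)),(k1,(nat_lit 386)),(k11,(nat_lit 395)),(k8,(nat_lit 404))],[(k6,(nat_lit 350)),
    (k1,(nat_lit 356)),(k10,(nat_lit 365)),(k11,(nat_lit 365)),(k8,(nat_lit 374)),(k9,(nat_lit 404))],[(k6,
    (nat_lit 341)),(k11,(nat_lit 356)),(k1,(nat_lit 359)),(k8,(nat_lit 365)),(k10,(nat_lit 368)),(k9,(nat_lit 395))],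
    [(k9,(nat_lit 311)),(k6,(nat_lit 353)),(k10,(nat_lit 356)),(k1,(nat_lit 359)),(k8,(nat_lit 365)),(k11,
    (nat_lit 368))]]
    [[k2,k1,k0,k0,k0,k0],[k1,k0,k0,k1,k0,k1],[k0,k3,k0,k0,k0,k0],[k0,k2,k1,k0,k0,k0],[k0,k0,k0,k0,k1,k2]]
    [.ref k87 k0 [(z2,[z1,z0,y1]),(z1,[z0,z0,z1]),(z2,[y3,z2,z3])],.ref k90 k1 [(z1,[z3,z1,z3,y3]),(z1,[y1,z0,y1,z1]),
    (z1,[z0,y1,y3,z3])],.ref k91 k2 [(z6,[y1,z2,z3]),(z2,[y1,z0,z3]),(z1,[z1])],.ref k91 k2 [(z3,[y1,z1,z2]),(z1,[y1,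
    z0,z2]),(z1,[z2,z0,y1])],.ref k92 k0 [(z1,[y3,y1,y6,z6]),(z1,[z0,z0,z1]),(z1,[z3,z2,z6,y6])]],
    .lp k0 [(nat_lit 4134),(nat_lit 4240),(nat_lit 4240),(nat_lit 4560),(nat_lit 4664),(nat_lit 3392)] [(nat_lit 265),
    (nat_lit 265),(nat_lit 212),(nat_lit 212),(nat_lit 212),(nat_lit 212),k52,k52,k0,k0,(nat_lit 636),
    (nat_lit 636)] k0 [[k0,k0,k0,k0,k0,k0,k0,k0,k0,k0,k0,k0],[k0,k0,k0,k0,k0,k0,k0,k0,k0,k0,k0,k0],[k0,k0,k0,k0,k0,k0,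
    k0,k0,k0,k0,k0,k0],[k0,k0,k0,k0,k0,k0,k0,k0,k0,k0,k0,k0],[k0,k0,k0,k0,k0,k0,k0,k0,k0,k0,k0,k0],[k0,k0,k0,k0,k0,k0,
    k0,k0,k0,k0,k0,k0],[k0,k0,k0,k0,k0,k0,k0,k0,k0,k0,k0,k0],[k0,k0,k0,k0,k0,k0,k0,k0,k0,k0,(nat_lit 212),k0],[k0,k0,
    k0,k0,k0,k0,k0,k0,k0,k0,k0,k0],[k0,k0,k0,k0,k0,k0,k0,k0,k0,k0,k0,k0],[k0,k0,k0,k0,k0,k0,k0,k0,k0,k0,k0,
    (nat_lit 212)],[k0,k0,k0,k0,k0,k0,(nat_lit 212),k0,k0,k0,k0,k0]] (nat_lit 12720) k5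
    [[(k10,(nat_lit 3763)),(k11,(nat_lit 3763)),(k9,(nat_lit 4187)),(k1,(nat_lit 4346)),(k6,(nat_lit 4347)),(k8,
    (nat_lit 4399))],[(k0,(nat_lit 4134)),(k2,(nat_lit 4187)),(k3,(nat_lit 4187)),(k4,(nat_lit 4187)),(k5,
    (nat_lit 4187)),(k7,(nat_lit 4347))],[(k0,(nat_lit 4187)),(k2,(nat_lit 4240)),(k3,(nat_lit 4240)),(k4,
    (nat_lit 4240)),(k5,(nat_lit 4240)),(k7,(nat_lit 4400))],[(k0,(nat_lit 4187)),(k2,(nat_lit 4240)),(k3,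
    (nat_lit 4240)),(k4,(nat_lit 4240)),(k5,(nat_lit 4240)),(k7,(nat_lit 4400))],[(k0,(nat_lit 4187)),(k2,
    (nat_lit 4240)),(k3,(nat_lit 4240)),(k4,(nat_lit 4240)),(k5,(nat_lit 4240)),(k7,(nat_lit 4400))],[(k0,
    (nat_lit 4187)),(k2,(nat_lit 4240)),(k3,(nat_lit 4240)),(k4,(nat_lit 4240)),(k5,(nat_lit 4240)),(k7,
    (nat_lit 4400))],[(k0,(nat_lit 4347)),(k2,(nat_lit 4400)),(k3,(nat_lit 4400)),(k4,(nat_lit 4400)),(k5,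
    (nat_lit 4400)),(k7,(nat_lit 4560))],[(k11,(nat_lit 3976)),(k10,(nat_lit 4188)),(k1,(nat_lit 4347)),(k6,
    (nat_lit 4560)),(k8,(nat_lit 4612)),(k9,(nat_lit 4612))],[(k10,(nat_lit 4028)),(k11,(nat_lit 4028)),(k1,
    (nat_lit 4187)),(k6,(nat_lit 4612)),(k8,(nat_lit 4664)),(k9,(nat_lit 4664))],[(k10,(nat_lit 4028)),(k11,
    (nat_lit 4028)),(k1,(nat_lit 4399)),(k6,(nat_lit 4612)),(k8,(nat_lit 4664)),(k9,(nat_lit 4664))],[(k10,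
    (nat_lit 3392)),(k11,(nat_lit 3392)),(k1,(nat_lit 3763)),(k6,(nat_lit 3976)),(k8,(nat_lit 4028)),(k9,
    (nat_lit 4028))],[(k10,(nat_lit 3180)),(k11,(nat_lit 3392)),(k1,(nat_lit 3763)),(k8,(nat_lit 4028)),(k9,
    (nat_lit 4028)),(k6,(nat_lit 4188))]]
    [[k2,k0,k0,k0,k0,k1],[k1,k0,k0,k1,k0,k1],[k0,k0,k0,k0,k1,k2],[k0,k0,k0,k0,k0,k3]]
    [.ref k77 k3 [(z1,[z2,y1,y1]),(z1,[y1,z1,z1])],.ref k80 k0 [(z1,[z1]),(z1,[y2,z1,z1])],.ref k86 k0 [(z1,[y1,z1]),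
    (z1,[z0,y1,z1])],.ref k93 k0 [(z1,[y1,z3]),(z1,[z0,y1,z1])]],
    .lp k0 [(nat_lit 362),(nat_lit 278),(nat_lit 386),(nat_lit 386),(nat_lit 374),(nat_lit 356)] [k12,k12,k54,k54,k0,
    k0,k0,k0,k6,k6,k15,k15] k0 [[k0,k0,k0,k30,k30,k30,k0,k0,k0,k0,k0,k0],[k0,k0,k0,k0,k0,k0,k0,k0,k0,k0,k0,k0],[k0,
    k30,k0,k0,k0,k0,k0,k0,k0,k0,k0,k0],[k0,k0,k0,k0,k0,k0,k0,k0,k0,k0,k0,k0],[k0,k30,k0,k0,k0,k0,k0,k0,k0,k0,k0,k0],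
    [k0,k30,k0,k0,k0,k0,k0,k0,k0,k0,k0,k0],[k0,k0,k0,k0,k0,k0,k0,k0,k30,k30,k0,k18],[k0,k0,k0,k0,k0,k0,k0,k0,k0,k0,k0,
    k54],[k0,k0,k0,k0,k0,k0,k0,k30,k0,k0,k12,k0],[k0,k0,k0,k0,k0,k0,k0,k30,k0,k0,k0,k0],[k0,k0,k0,k0,k0,k0,k54,k18,k0,
    k0,k0,k0],[k0,k0,k0,k0,k0,k0,k0,k0,k0,k12,k0,k0]] (nat_lit 1080) k5
    [[(k8,(nat_lit 356)),(k10,(nat_lit 359)),(k11,(nat_lit 359)),(k1,(nat_lit 362)),(k9,(nat_lit 386)),(k6,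
    (nat_lit 428))],[(k2,(nat_lit 290)),(k3,(nat_lit 320)),(k4,(nat_lit 344)),(k7,(nat_lit 344)),(k0,(nat_lit 362)),
    (k5,(nat_lit 374))],[(k2,(nat_lit 278)),(k3,(nat_lit 278)),(k0,(nat_lit 320)),(k4,(nat_lit 362)),(k5,
    (nat_lit 362)),(k7,(nat_lit 362))],[(k2,(nat_lit 278)),(k3,(nat_lit 278)),(k0,(nat_lit 290)),(k4,(nat_lit 332)),
    (k5,(nat_lit 332)),(k7,(nat_lit 332))],[(k2,(nat_lit 332)),(k3,(nat_lit 362)),(k0,(nat_lit 374)),(k4,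
    (nat_lit 386)),(k5,(nat_lit 386)),(k7,(nat_lit 386))],[(k2,(nat_lit 332)),(k0,(nat_lit 344)),(k3,(nat_lit 362)),
    (k4,(nat_lit 386)),(k5,(nat_lit 386)),(k7,(nat_lit 386))],[(k2,(nat_lit 332)),(k0,(nat_lit 344)),(k3,
    (nat_lit 362)),(k4,(nat_lit 386)),(k5,(nat_lit 386)),(k7,(nat_lit 386))],[(k11,(nat_lit 341)),(k8,(nat_lit 350)),
    (k10,(nat_lit 353)),(k9,(nat_lit 380)),(k6,(nat_lit 386)),(k1,(nat_lit 428))],[(k10,(nat_lit 311)),(k9,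
    (nat_lit 374)),(k6,(nat_lit 380)),(k1,(nat_lit 386)),(k11,(nat_lit 395)),(k8,(nat_lit 404))],[(k6,(nat_lit 350)),
    (k1,(nat_lit 356)),(k10,(nat_lit 365)),(k11,(nat_lit 365)),(k8,(nat_lit 374)),(k9,(nat_lit 404))],[(k6,
    (nat_lit 341)),(k11,(nat_lit 356)),(k1,(nat_lit 359)),(k8,(nat_lit 365)),(k10,(nat_lit 368)),(k9,(nat_lit 395))],
    [(k9,(nat_lit 311)),(k6,(nat_lit 353)),(k10,(nat_lit 356)),(k1,(nat_lit 359)),(k8,(nat_lit 365)),(k11,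
    (nat_lit 368))]]
    [[k2,k1,k0,k0,k0,k0],[k1,k0,k0,k1,k0,k1],[k0,k3,k0,k0,k0,k0],[k0,k2,k1,k0,k0,k0],[k0,k0,k0,k0,k1,k2]]
    [.ref k1 k0 [(z1,[z3,y3,y1]),(z1,[y3,z6,z2]),(z1,[y3,z6,z1,z1]),(z1,[z0,z0,z0,z0,z1]),(z1,[z3,y6,y1])],
    .ref k1 k0 [(z1,[z3,z3,z1,z1,z0,y3]),(z1,[y3,z0,z0,y1,z0,z3]),(z1,[y3,z0,y1,z0,z0,z3]),(z1,[z0,z0,z0,z0,z1]),(z1,
    [z3,z0,z1,z1,z0,y3])],.ref k1 k0 [(z1,[y1,z3,z1]),(z1,[z1]),(z1,[z1,z0,y1,z1]),(z1,[z0,z0,z0,z0,z1]),(z1,[y1,z0,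
    z1])],.ref k1 k0 [(z3,[y3,z9,z2,z1]),(z3,[z3,z0,z1,y1]),(z3,[z3,z0,y2,z2]),(z1,[z0,z0,z0,z0,z1]),(z3,[y3,z0,z2,
    z1])],.ref k1 k0 [(z1,[z3,z9,z2,z2,z2,y6]),(z1,[y3,y6,y1,y2,y2,z6]),(z1,[y3,y6,y2,y1,y2,z6]),(z1,[z0,z0,z0,z0,
    z1]),(z1,[z3,z6,z2,z2,z2,y6])]]]

theorem hB6_124_7 : blkB [0, 0, 0, 1, 1, 1] [] sp6 hS6_124 (pcls (n := 6) [0, 0, 0, 1, 1, 1]) hD6_124 117 7 hN6_124_7 = true := by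
  decide +kernel

/-- nodes 96 to 107 -/
noncomputable def hN6_124_8 : List HM :=
  [.lp k0 [(nat_lit 4134),(nat_lit 4240),(nat_lit 4240),(nat_lit 4560),(nat_lit 4664),(nat_lit 3392)] [(nat_lit 265),
    (nat_lit 265),(nat_lit 212),(nat_lit 212),(nat_lit 212),(nat_lit 212),k52,k52,k0,k0,(nat_lit 636),
    (nat_lit 636)] k0 [[k0,k0,k0,k0,k0,k0,k0,k0,k0,k0,k0,k0],[k0,k0,k0,k0,k0,k0,k0,k0,k0,k0,k0,k0],[k0,k0,k0,k0,k0,k0,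
    k0,k0,k0,k0,k0,k0],[k0,k0,k0,k0,k0,k0,k0,k0,k0,k0,k0,k0],[k0,k0,k0,k0,k0,k0,k0,k0,k0,k0,k0,k0],[k0,k0,k0,k0,k0,k0,
    k0,k0,k0,k0,k0,k0],[k0,k0,k0,k0,k0,k0,k0,k0,k0,k0,k0,k0],[k0,k0,k0,k0,k0,k0,k0,k0,k0,k0,(nat_lit 212),k0],[k0,k0,
    k0,k0,k0,k0,k0,k0,k0,k0,k0,k0],[k0,k0,k0,k0,k0,k0,k0,k0,k0,k0,k0,k0],[k0,k0,k0,k0,k0,k0,k0,k0,k0,k0,k0,
    (nat_lit 212)],[k0,k0,k0,k0,k0,k0,(nat_lit 212),k0,k0,k0,k0,k0]] (nat_lit 12720) k5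
    [[(k10,(nat_lit 3763)),(k11,(nat_lit 3763)),(k9,(nat_lit 4187)),(k1,(nat_lit 4346)),(k6,(nat_lit 4347)),(k8,
    (nat_lit 4399))],[(k0,(nat_lit 4134)),(k2,(nat_lit 4187)),(k3,(nat_lit 4187)),(k4,(nat_lit 4187)),(k5,
    (nat_lit 4187)),(k7,(nat_lit 4347))],[(k0,(nat_lit 4187)),(k2,(nat_lit 4240)),(k3,(nat_lit 4240)),(k4,
    (nat_lit 4240)),(k5,(nat_lit 4240)),(k7,(nat_lit 4400))],[(k0,(nat_lit 4187)),(k2,(nat_lit 4240)),(k3,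
    (nat_lit 4240)),(k4,(nat_lit 4240)),(k5,(nat_lit 4240)),(k7,(nat_lit 4400))],[(k0,(nat_lit 4187)),(k2,
    (nat_lit 4240)),(k3,(nat_lit 4240)),(k4,(nat_lit 4240)),(k5,(nat_lit 4240)),(k7,(nat_lit 4400))],[(k0,
    (nat_lit 4187)),(k2,(nat_lit 4240)),(k3,(nat_lit 4240)),(k4,(nat_lit 4240)),(k5,(nat_lit 4240)),(k7,
    (nat_lit 4400))],[(k0,(nat_lit 4347)),(k2,(nat_lit 4400)),(k3,(nat_lit 4400)),(k4,(nat_lit 4400)),(k5,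
    (nat_lit 4400)),(k7,(nat_lit 4560))],[(k11,(nat_lit 3976)),(k10,(nat_lit 4188)),(k1,(nat_lit 4347)),(k6,
    (nat_lit 4560)),(k8,(nat_lit 4612)),(k9,(nat_lit 4612))],[(k10,(nat_lit 4028)),(k11,(nat_lit 4028)),(k1,
    (nat_lit 4187)),(k6,(nat_lit 4612)),(k8,(nat_lit 4664)),(k9,(nat_lit 4664))],[(k10,(nat_lit 4028)),(k11,
    (nat_lit 4028)),(k1,(nat_lit 4399)),(k6,(nat_lit 4612)),(k8,(nat_lit 4664)),(k9,(nat_lit 4664))],[(k10,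
    (nat_lit 3392)),(k11,(nat_lit 3392)),(k1,(nat_lit 3763)),(k6,(nat_lit 3976)),(k8,(nat_lit 4028)),(k9,
    (nat_lit 4028))],[(k10,(nat_lit 3180)),(k11,(nat_lit 3392)),(k1,(nat_lit 3763)),(k8,(nat_lit 4028)),(k9,
    (nat_lit 4028)),(k6,(nat_lit 4188))]]
    [[k2,k0,k0,k0,k0,k1],[k1,k0,k0,k1,k0,k1],[k0,k0,k0,k0,k1,k2],[k0,k0,k0,k0,k0,k3]]
    [.ref k1 k0 [(z1,[z0,z1]),(z1,[y3,z2,z1]),(z1,[z6,y4,z0,z1]),(z1,[y6,z4,z0,z0,z3]),(z1,[z0,y1,y1,y1,y3,z3])],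
    .ref k1 k0 [(z1,[z0,z1]),(z1,[z3,y1,z1,z0,y3]),(z1,[y6,z2,z0,z1,z6]),(z1,[z6,y2,z0,z0,y3]),(z1,[z0,y1,y1,y1,y3,
    z3])],.ref k1 k0 [(z1,[z0,z1]),(z2,[y3,y1,z1,y1,y3,z3]),(z1,[z3,z1,z1,z2,z3,y3]),(z1,[y3,y1,y1,y1,z0,z3]),(z1,[z0,
    y1,y1,y1,y3,z3])],.ref k1 k0 [(z1,[z0,z1]),(z1,[y1,z0,z1]),(z1,[z2,z0,z0,z1]),(z1,[y2,z0,z0,z0,z3]),(z1,[z0,y1,y1,
    y1,y3,z3])]],
    .lp k0 [(nat_lit 4134),(nat_lit 4240),(nat_lit 4240),(nat_lit 4560),(nat_lit 4664),(nat_lit 3392)] [(nat_lit 265),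
    (nat_lit 265),(nat_lit 212),(nat_lit 212),(nat_lit 212),(nat_lit 212),k52,k52,k0,k0,(nat_lit 636),
    (nat_lit 636)] k0 [[k0,k0,k0,k0,k0,k0,k0,k0,k0,k0,k0,k0],[k0,k0,k0,k0,k0,k0,k0,k0,k0,k0,k0,k0],[k0,k0,k0,k0,k0,k0,
    k0,k0,k0,k0,k0,k0],[k0,k0,k0,k0,k0,k0,k0,k0,k0,k0,k0,k0],[k0,k0,k0,k0,k0,k0,k0,k0,k0,k0,k0,k0],[k0,k0,k0,k0,k0,k0,
    k0,k0,k0,k0,k0,k0],[k0,k0,k0,k0,k0,k0,k0,k0,k0,k0,k0,k0],[k0,k0,k0,k0,k0,k0,k0,k0,k0,k0,(nat_lit 212),k0],[k0,k0,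
    k0,k0,k0,k0,k0,k0,k0,k0,k0,k0],[k0,k0,k0,k0,k0,k0,k0,k0,k0,k0,k0,k0],[k0,k0,k0,k0,k0,k0,k0,k0,k0,k0,k0,
    (nat_lit 212)],[k0,k0,k0,k0,k0,k0,(nat_lit 212),k0,k0,k0,k0,k0]] (nat_lit 12720) k5
    [[(k10,(nat_lit 3763)),(k11,(nat_lit 3763)),(k9,(nat_lit 4187)),(k1,(nat_lit 4346)),(k6,(nat_lit 4347)),(k8,
    (nat_lit 4399))],[(k0,(nat_lit 4134)),(k2,(nat_lit 4187)),(k3,(nat_lit 4187)),(k4,(nat_lit 4187)),(k5,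
    (nat_lit 4187)),(k7,(nat_lit 4347))],[(k0,(nat_lit 4187)),(k2,(nat_lit 4240)),(k3,(nat_lit 4240)),(k4,
    (nat_lit 4240)),(k5,(nat_lit 4240)),(k7,(nat_lit 4400))],[(k0,(nat_lit 4187)),(k2,(nat_lit 4240)),(k3,
    (nat_lit 4240)),(k4,(nat_lit 4240)),(k5,(nat_lit 4240)),(k7,(nat_lit 4400))],[(k0,(nat_lit 4187)),(k2,
    (nat_lit 4240)),(k3,(nat_lit 4240)),(k4,(nat_lit 4240)),(k5,(nat_lit 4240)),(k7,(nat_lit 4400))],[(k0,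
    (nat_lit 4187)),(k2,(nat_lit 4240)),(k3,(nat_lit 4240)),(k4,(nat_lit 4240)),(k5,(nat_lit 4240)),(k7,
    (nat_lit 4400))],[(k0,(nat_lit 4347)),(k2,(nat_lit 4400)),(k3,(nat_lit 4400)),(k4,(nat_lit 4400)),(k5,
    (nat_lit 4400)),(k7,(nat_lit 4560))],[(k11,(nat_lit 3976)),(k10,(nat_lit 4188)),(k1,(nat_lit 4347)),(k6,
    (nat_lit 4560)),(k8,(nat_lit 4612)),(k9,(nat_lit 4612))],[(k10,(nat_lit 4028)),(k11,(nat_lit 4028)),(k1,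
    (nat_lit 4187)),(k6,(nat_lit 4612)),(k8,(nat_lit 4664)),(k9,(nat_lit 4664))],[(k10,(nat_lit 4028)),(k11,
    (nat_lit 4028)),(k1,(nat_lit 4399)),(k6,(nat_lit 4612)),(k8,(nat_lit 4664)),(k9,(nat_lit 4664))],[(k10,
    (nat_lit 3392)),(k11,(nat_lit 3392)),(k1,(nat_lit 3763)),(k6,(nat_lit 3976)),(k8,(nat_lit 4028)),(k9,
    (nat_lit 4028))],[(k10,(nat_lit 3180)),(k11,(nat_lit 3392)),(k1,(nat_lit 3763)),(k8,(nat_lit 4028)),(k9,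
    (nat_lit 4028)),(k6,(nat_lit 4188))]]
    [[k2,k0,k0,k0,k0,k1],[k1,k0,k0,k1,k0,k1],[k0,k0,k0,k0,k1,k2],[k0,k0,k0,k0,k0,k3]]
    [.ref k9 k0 [(z1,[z0,z1]),(z1,[y3,z2,z1]),(z1,[z0,z0,z0,z1]),(z1,[z0,y1,y1,y1,z3])],.ref k95 k1 [(z3,[z3,y1,y1]),
    (z1,[y3,z0,z0,y1,z3]),(z1,[z0,z0,z1]),(z1,[z0,z1])],.ref k96 k3 [(z1,[z0,z1]),(z1,[z0,z0,z1]),(z1,[z3,z0,y2]),(z3,
    [y3,y1,z1,y1,z3])],.ref k9 k0 [(z1,[z0,z1]),(z1,[y1,z0,z1]),(z1,[z0,z0,z0,z1]),(z1,[z0,y1,y1,y1,z3])]],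
    .lp k0 [(nat_lit 362),(nat_lit 278),(nat_lit 386),(nat_lit 386),(nat_lit 374),(nat_lit 356)] [k12,k12,k54,k54,k0,
    k0,k0,k0,k6,k6,k15,k15] k0 [[k0,k0,k0,k30,k30,k30,k0,k0,k0,k0,k0,k0],[k0,k0,k0,k0,k0,k0,k0,k0,k0,k0,k0,k0],[k0,
    k30,k0,k0,k0,k0,k0,k0,k0,k0,k0,k0],[k0,k0,k0,k0,k0,k0,k0,k0,k0,k0,k0,k0],[k0,k30,k0,k0,k0,k0,k0,k0,k0,k0,k0,k0],
    [k0,k30,k0,k0,k0,k0,k0,k0,k0,k0,k0,k0],[k0,k0,k0,k0,k0,k0,k0,k0,k30,k30,k0,k18],[k0,k0,k0,k0,k0,k0,k0,k0,k0,k0,k0,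
    k54],[k0,k0,k0,k0,k0,k0,k0,k30,k0,k0,k12,k0],[k0,k0,k0,k0,k0,k0,k0,k30,k0,k0,k0,k0],[k0,k0,k0,k0,k0,k0,k54,k18,k0,
    k0,k0,k0],[k0,k0,k0,k0,k0,k0,k0,k0,k0,k12,k0,k0]] (nat_lit 1080) k5
    [[(k8,(nat_lit 356)),(k10,(nat_lit 359)),(k11,(nat_lit 359)),(k1,(nat_lit 362)),(k9,(nat_lit 386)),(k6,
    (nat_lit 428))],[(k2,(nat_lit 290)),(k3,(nat_lit 320)),(k4,(nat_lit 344)),(k7,(nat_lit 344)),(k0,(nat_lit 362)),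
    (k5,(nat_lit 374))],[(k2,(nat_lit 278)),(k3,(nat_lit 278)),(k0,(nat_lit 320)),(k4,(nat_lit 362)),(k5,
    (nat_lit 362)),(k7,(nat_lit 362))],[(k2,(nat_lit 278)),(k3,(nat_lit 278)),(k0,(nat_lit 290)),(k4,(nat_lit 332)),
    (k5,(nat_lit 332)),(k7,(nat_lit 332))],[(k2,(nat_lit 332)),(k3,(nat_lit 362)),(k0,(nat_lit 374)),(k4,
    (nat_lit 386)),(k5,(nat_lit 386)),(k7,(nat_lit 386))],[(k2,(nat_lit 332)),(k0,(nat_lit 344)),(k3,(nat_lit 362)),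
    (k4,(nat_lit 386)),(k5,(nat_lit 386)),(k7,(nat_lit 386))],[(k2,(nat_lit 332)),(k0,(nat_lit 344)),(k3,
    (nat_lit 362)),(k4,(nat_lit 386)),(k5,(nat_lit 386)),(k7,(nat_lit 386))],[(k11,(nat_lit 341)),(k8,(nat_lit 350)),
    (k10,(nat_lit 353)),(k9,(nat_lit 380)),(k6,(nat_lit 386)),(k1,(nat_lit 428))],[(k10,(nat_lit 311)),(k9,
    (nat_lit 374)),(k6,(nat_lit 380)),(k1,(nat_lit 386)),(k11,(nat_lit 395)),(k8,(nat_lit 404))],[(k6,(nat_lit 350)),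
    (k1,(nat_lit 356)),(k10,(nat_lit 365)),(k11,(nat_lit 365)),(k8,(nat_lit 374)),(k9,(nat_lit 404))],[(k6,
    (nat_lit 341)),(k11,(nat_lit 356)),(k1,(nat_lit 359)),(k8,(nat_lit 365)),(k10,(nat_lit 368)),(k9,(nat_lit 395))],
    [(k9,(nat_lit 311)),(k6,(nat_lit 353)),(k10,(nat_lit 356)),(k1,(nat_lit 359)),(k8,(nat_lit 365)),(k11,
    (nat_lit 368))]]
    [[k2,k1,k0,k0,k0,k0],[k1,k0,k0,k1,k0,k1],[k0,k3,k0,k0,k0,k0],[k0,k2,k1,k0,k0,k0],[k0,k0,k0,k0,k1,k2]]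
    [.ref k1 k0 [(z4,[z9,y1,y3]),(z2,[y3,z1,z3]),(z2,[y3,z1,z1,z2]),(z4,[y3,z1,z1,z0,z6]),(z2,[z3,y1,y1])],
    .ref k1 k0 [(z2,[z9,z1,z3,z3,z0,y9]),(z1,[y3,z0,z0,y1,z0,z3]),(z1,[y3,z0,y1,z0,z0,z3]),(z2,[y3,z0,y1,y1,z3,z3]),
    (z1,[z3,z0,z1,z1,z0,y3])],.ref k1 k0 [(z2,[y3,z1,z3]),(z1,[z1]),(z1,[z1,z0,y1,z1]),(z2,[z1,z0,y1,z0,z3]),(z1,[y1,
    z0,z1])],.ref k1 k0 [(z2,[y3,z1,z2,z1]),(z3,[z3,z0,z1,y1]),(z3,[z3,z0,y2,z2]),(z6,[z3,z0,y2,y1,z9]),(z3,[y3,z0,z2,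
    z1])],.ref k1 k0 [(z2,[z9,z4,z6,z6,z9,y18]),(z1,[y3,y1,y1,y2,y3,z6]),(z1,[y3,y1,y2,y1,y3,z6]),(z2,[y3,y1,y2,y2,z0,
    z6]),(z1,[z3,z1,z2,z2,z3,y6])]],
    .lp k0 [k82,k80,k84,k68,k78,k84] [k1,k1,k2,k2,k0,k0,k8,k8,k3,k3,k0,k0] k0 [[k0,k0,k0,k16,k0,k0,k0,k0,k0,k0,k0,k0],
    [k0,k0,k0,k0,k12,k20,k0,k0,k0,k0,k0,k0],[k0,k16,k0,k0,k12,k0,k0,k0,k0,k0,k0,k0],[k0,k0,k0,k0,k12,k0,k0,k0,k0,k0,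
    k0,k0],[k20,k0,k0,k0,k0,k24,k0,k0,k0,k0,k0,k0],[k12,k0,k12,k12,k0,k0,k0,k0,k0,k0,k0,k0],[k0,k0,k0,k0,k0,k0,k0,k0,
    k6,k6,k0,k0],[k0,k0,k0,k0,k0,k0,k0,k0,k0,k0,k2,k6],[k0,k0,k0,k0,k0,k0,k0,k6,k0,k0,k0,k0],[k0,k0,k0,k0,k0,k0,k0,k6,
    k0,k0,k0,k0],[k0,k0,k0,k0,k0,k0,k6,k0,k0,k0,k0,k12],[k0,k0,k0,k0,k0,k0,k2,k0,k0,k0,k0,k0]] (nat_lit 240) k5
    [[(k9,k78),(k8,k80),(k6,k81),(k10,k83),(k11,k83),(k1,k94)],[(k2,k65),(k3,k81),(k0,k82),(k5,k83),(k4,k95),(k7,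
    k95)],[(k4,k62),(k7,k62),(k2,k80),(k3,k80),(k0,k81),(k5,k98)],[(k7,k62),(k0,k65),(k2,k80),(k3,k80),(k5,k82),(k4,
    k94)],[(k7,k64),(k2,k82),(k0,k83),(k5,k84),(k4,k96),(k3,k98)],[(k4,k60),(k3,k62),(k7,k76),(k2,k94),(k0,k95),(k5,
    k96)],[(k2,k62),(k3,k62),(k5,k64),(k4,k76),(k7,k92),(k0,k95)],[(k8,k67),(k6,k68),(k11,k70),(k9,k73),(k10,k78),(k1,
    k81)],[(k6,k73),(k10,k75),(k1,k78),(k9,k78),(k8,k84),(k11,k87)],[(k6,k67),(k8,k78),(k1,k80),(k10,k81),(k11,k81),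
    (k9,k84)],[(k6,k70),(k8,k81),(k1,k83),(k10,k84),(k11,k84),(k9,k87)],[(k10,k72),(k9,k75),(k6,k78),(k8,k81),(k1,
    k83),(k11,k84)]]
    [[k1,k1,k0,k1,k0,k0],[k0,k2,k1,k0,k0,k0],[k0,k1,k0,k2,k0,k0],[k0,k0,k1,k2,k0,k0],[k0,k0,k0,k2,k1,k0]]
    [.ref k1 k0 [(z4,[z6,z1,y2,z0,y1]),(z2,[y6,z1,z4,z0,z1]),(z1,[z0,z0,z0,z1]),(z4,[z18,y3,y6,z0,y1]),(z2,[y12,z1,z2,
    y2,z1,z6])],.ref k1 k0 [(z4,[y3,z2,z2,z1]),(z2,[z3,z0,z0,y1]),(z1,[z0,z0,z0,z1]),(z4,[y9,z0,z6,z3,z2]),(z2,[z6,y1,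
    y6,y4,y1,z6])],.ref k1 k0 [(z4,[z3,z2,y1,z0,y1]),(z2,[y3,z0,z3,z0,z1]),(z1,[z0,z0,z0,z1]),(z4,[z9,z0,y3,z0,y1]),
    (z2,[y6,y1,z0,y2,z1,z6])],.ref k1 k0 [(z6,[z3,z3,z0,y1,y1]),(z3,[y3,z0,z3,z1,z1]),(z1,[z0,z0,z0,z1]),(z2,[z3,z0,
    z0,y1]),(z6,[y12,y3,y6,y2,z1,z18])],.ref k1 k0 [(z4,[z6,z3,z2,z2,y1,y6]),(z2,[y6,y1,z0,y2,z1,z6]),(z1,[z0,z0,z0,
    z1]),(z4,[z18,z3,z6,z6,y1,y18]),(z2,[y12,y3,y6,y6,z1,z18])]],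
    .lp k0 [(nat_lit 4134),(nat_lit 4240),(nat_lit 4240),(nat_lit 4560),(nat_lit 4664),(nat_lit 3392)] [(nat_lit 265),
    (nat_lit 265),(nat_lit 212),(nat_lit 212),(nat_lit 212),(nat_lit 212),k52,k52,k0,k0,(nat_lit 636),
    (nat_lit 636)] k0 [[k0,k0,k0,k0,k0,k0,k0,k0,k0,k0,k0,k0],[k0,k0,k0,k0,k0,k0,k0,k0,k0,k0,k0,k0],[k0,k0,k0,k0,k0,k0,
    k0,k0,k0,k0,k0,k0],[k0,k0,k0,k0,k0,k0,k0,k0,k0,k0,k0,k0],[k0,k0,k0,k0,k0,k0,k0,k0,k0,k0,k0,k0],[k0,k0,k0,k0,k0,k0,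
    k0,k0,k0,k0,k0,k0],[k0,k0,k0,k0,k0,k0,k0,k0,k0,k0,k0,k0],[k0,k0,k0,k0,k0,k0,k0,k0,k0,k0,(nat_lit 212),k0],[k0,k0,
    k0,k0,k0,k0,k0,k0,k0,k0,k0,k0],[k0,k0,k0,k0,k0,k0,k0,k0,k0,k0,k0,k0],[k0,k0,k0,k0,k0,k0,k0,k0,k0,k0,k0,
    (nat_lit 212)],[k0,k0,k0,k0,k0,k0,(nat_lit 212),k0,k0,k0,k0,k0]] (nat_lit 12720) k5
    [[(k10,(nat_lit 3763)),(k11,(nat_lit 3763)),(k9,(nat_lit 4187)),(k1,(nat_lit 4346)),(k6,(nat_lit 4347)),(k8,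
    (nat_lit 4399))],[(k0,(nat_lit 4134)),(k2,(nat_lit 4187)),(k3,(nat_lit 4187)),(k4,(nat_lit 4187)),(k5,
    (nat_lit 4187)),(k7,(nat_lit 4347))],[(k0,(nat_lit 4187)),(k2,(nat_lit 4240)),(k3,(nat_lit 4240)),(k4,
    (nat_lit 4240)),(k5,(nat_lit 4240)),(k7,(nat_lit 4400))],[(k0,(nat_lit 4187)),(k2,(nat_lit 4240)),(k3,
    (nat_lit 4240)),(k4,(nat_lit 4240)),(k5,(nat_lit 4240)),(k7,(nat_lit 4400))],[(k0,(nat_lit 4187)),(k2,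
    (nat_lit 4240)),(k3,(nat_lit 4240)),(k4,(nat_lit 4240)),(k5,(nat_lit 4240)),(k7,(nat_lit 4400))],[(k0,
    (nat_lit 4187)),(k2,(nat_lit 4240)),(k3,(nat_lit 4240)),(k4,(nat_lit 4240)),(k5,(nat_lit 4240)),(k7,
    (nat_lit 4400))],[(k0,(nat_lit 4347)),(k2,(nat_lit 4400)),(k3,(nat_lit 4400)),(k4,(nat_lit 4400)),(k5,
    (nat_lit 4400)),(k7,(nat_lit 4560))],[(k11,(nat_lit 3976)),(k10,(nat_lit 4188)),(k1,(nat_lit 4347)),(k6,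
    (nat_lit 4560)),(k8,(nat_lit 4612)),(k9,(nat_lit 4612))],[(k10,(nat_lit 4028)),(k11,(nat_lit 4028)),(k1,
    (nat_lit 4187)),(k6,(nat_lit 4612)),(k8,(nat_lit 4664)),(k9,(nat_lit 4664))],[(k10,(nat_lit 4028)),(k11,
    (nat_lit 4028)),(k1,(nat_lit 4399)),(k6,(nat_lit 4612)),(k8,(nat_lit 4664)),(k9,(nat_lit 4664))],[(k10,
    (nat_lit 3392)),(k11,(nat_lit 3392)),(k1,(nat_lit 3763)),(k6,(nat_lit 3976)),(k8,(nat_lit 4028)),(k9,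
    (nat_lit 4028))],[(k10,(nat_lit 3180)),(k11,(nat_lit 3392)),(k1,(nat_lit 3763)),(k8,(nat_lit 4028)),(k9,
    (nat_lit 4028)),(k6,(nat_lit 4188))]]
    [[k2,k0,k0,k0,k0,k1],[k1,k0,k0,k1,k0,k1],[k0,k0,k0,k0,k1,k2],[k0,k0,k0,k0,k0,k3]]
    [.ref k9 k0 [(z4,[z3,z1]),(z2,[y3,z1,z2]),(z1,[z0,z0,z0,z1]),(z4,[y3,y1,y4,y4,z12])],.ref k98 k1 [(z1,[z6,y1,y3]),
    (z1,[y3,z0,z0,y1,z3]),(z1,[z0,z0,z1]),(z3,[z0,z1,z1])],.ref k99 k0 [(z1,[z0,z1]),(z1,[z0,z0,z1]),(z1,[z0,z0,z0,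
    z1]),(z1,[y6,y1,y2,y2,z6])],.ref k9 k0 [(z2,[z1,z1]),(z1,[y1,z0,z1]),(z1,[z0,z0,z0,z1]),(z2,[y1,y1,y2,y2,z6])]],
    .lp k0 [k78,k80,k84,k66,k84,k84] [k3,k3,k2,k2,k0,k0,k9,k9,k0,k0,k0,k0] k0 [[k0,k0,k0,k16,k0,k0,k0,k0,k0,k0,k0,k0],
    [k0,k0,k0,k0,k4,k12,k0,k0,k0,k0,k0,k0],[k0,k16,k0,k0,k12,k0,k0,k0,k0,k0,k0,k0],[k0,k0,k0,k0,k4,k0,k0,k0,k0,k0,k0,
    k0],[k12,k0,k0,k0,k0,k24,k0,k0,k0,k0,k0,k0],[k4,k0,k4,k12,k0,k0,k0,k0,k0,k0,k0,k0],[k0,k0,k0,k0,k0,k0,k0,k0,k0,k0,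
    k0,k0],[k0,k0,k0,k0,k0,k0,k0,k0,k0,k0,k0,k12],[k0,k0,k0,k0,k0,k0,k0,k0,k0,k0,k0,k0],[k0,k0,k0,k0,k0,k0,k0,k0,k0,
    k0,k0,k0],[k0,k0,k0,k0,k0,k0,k12,k0,k0,k0,k0,k0],[k0,k0,k0,k0,k0,k0,k0,k0,k0,k0,k0,k0]] (nat_lit 240) k5
    [[(k1,k78),(k8,k81),(k9,k81),(k10,k81),(k11,k81),(k6,k84)],[(k2,k63),(k0,k78),(k3,k79),(k5,k81),(k7,k84),(k4,
    k85)],[(k7,k69),(k4,k70),(k0,k79),(k2,k80),(k3,k80),(k5,k98)],[(k7,k61),(k0,k63),(k2,k80),(k3,k80),(k5,k82),(k4,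
    k86)],[(k7,k71),(k0,k81),(k2,k82),(k5,k84),(k4,k96),(k3,k98)],[(k4,k60),(k3,k70),(k7,k75),(k0,k85),(k2,k86),(k5,
    k96)],[(k2,k61),(k3,k69),(k5,k71),(k4,k75),(k0,k84),(k7,k90)],[(k6,k66),(k8,k75),(k9,k75),(k10,k75),(k11,k75),(k1,
    k84)],[(k10,k72),(k6,k75),(k1,k81),(k8,k84),(k9,k84),(k11,k84)],[(k6,k75),(k1,k81),(k8,k84),(k9,k84),(k10,k84),
    (k11,k84)],[(k6,k75),(k1,k81),(k8,k84),(k9,k84),(k10,k84),(k11,k84)],[(k9,k72),(k6,k75),(k1,k81),(k8,k84),(k10,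
    k84),(k11,k84)]]
    [[k2,k1,k0,k0,k0,k0],[k1,k1,k0,k1,k0,k0],[k0,k2,k1,k0,k0,k0],[k0,k1,k0,k2,k0,k0],[k0,k0,k1,k2,k0,k0]]
    [.ref k99 k0 [(z1,[z3,z0,y1]),(z1,[z0,z0,z1]),(z1,[z0,z0,z0,z1]),(z1,[y3,z6,z1])],.ref k71 k0 [(z1,[z6,y3,y2]),
    (z1,[y3,z3,z2]),(z1,[z0,z0,z0,z1]),(z1,[y6,z3,z1,y1,z3])],.ref k71 k0 [(z1,[y3,z3,z2,z1]),(z2,[z3,z0,z0,y1]),(z1,
    [z0,z0,z0,z1]),(z1,[z3,y3,y3,y2,z3])],.ref k63 k0 [(z1,[y3,z6,z1]),(z1,[z0,z0,z1]),(z1,[z0,z0,z0,z1]),(z1,[z3,z0,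
    y1])],.ref k22 k0 [(z2,[y3,z6,z0,z1]),(z1,[z0,z0,z1]),(z1,[z0,z0,z0,z1]),(z2,[z3,z0,z0,y1])]],
    .lp k0 [(nat_lit 4134),(nat_lit 4240),(nat_lit 4240),(nat_lit 4560),(nat_lit 4664),(nat_lit 3392)] [(nat_lit 265),
    (nat_lit 265),(nat_lit 212),(nat_lit 212),(nat_lit 212),(nat_lit 212),k52,k52,k0,k0,(nat_lit 636),
    (nat_lit 636)] k0 [[k0,k0,k0,k0,k0,k0,k0,k0,k0,k0,k0,k0],[k0,k0,k0,k0,k0,k0,k0,k0,k0,k0,k0,k0],[k0,k0,k0,k0,k0,k0,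
    k0,k0,k0,k0,k0,k0],[k0,k0,k0,k0,k0,k0,k0,k0,k0,k0,k0,k0],[k0,k0,k0,k0,k0,k0,k0,k0,k0,k0,k0,k0],[k0,k0,k0,k0,k0,k0,
    k0,k0,k0,k0,k0,k0],[k0,k0,k0,k0,k0,k0,k0,k0,k0,k0,k0,k0],[k0,k0,k0,k0,k0,k0,k0,k0,k0,k0,(nat_lit 212),k0],[k0,k0,
    k0,k0,k0,k0,k0,k0,k0,k0,k0,k0],[k0,k0,k0,k0,k0,k0,k0,k0,k0,k0,k0,k0],[k0,k0,k0,k0,k0,k0,k0,k0,k0,k0,k0,
    (nat_lit 212)],[k0,k0,k0,k0,k0,k0,(nat_lit 212),k0,k0,k0,k0,k0]] (nat_lit 12720) k5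
    [[(k10,(nat_lit 3763)),(k11,(nat_lit 3763)),(k9,(nat_lit 4187)),(k1,(nat_lit 4346)),(k6,(nat_lit 4347)),(k8,
    (nat_lit 4399))],[(k0,(nat_lit 4134)),(k2,(nat_lit 4187)),(k3,(nat_lit 4187)),(k4,(nat_lit 4187)),(k5,
    (nat_lit 4187)),(k7,(nat_lit 4347))],[(k0,(nat_lit 4187)),(k2,(nat_lit 4240)),(k3,(nat_lit 4240)),(k4,
    (nat_lit 4240)),(k5,(nat_lit 4240)),(k7,(nat_lit 4400))],[(k0,(nat_lit 4187)),(k2,(nat_lit 4240)),(k3,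
    (nat_lit 4240)),(k4,(nat_lit 4240)),(k5,(nat_lit 4240)),(k7,(nat_lit 4400))],[(k0,(nat_lit 4187)),(k2,
    (nat_lit 4240)),(k3,(nat_lit 4240)),(k4,(nat_lit 4240)),(k5,(nat_lit 4240)),(k7,(nat_lit 4400))],[(k0,
    (nat_lit 4187)),(k2,(nat_lit 4240)),(k3,(nat_lit 4240)),(k4,(nat_lit 4240)),(k5,(nat_lit 4240)),(k7,
    (nat_lit 4400))],[(k0,(nat_lit 4347)),(k2,(nat_lit 4400)),(k3,(nat_lit 4400)),(k4,(nat_lit 4400)),(k5,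
    (nat_lit 4400)),(k7,(nat_lit 4560))],[(k11,(nat_lit 3976)),(k10,(nat_lit 4188)),(k1,(nat_lit 4347)),(k6,
    (nat_lit 4560)),(k8,(nat_lit 4612)),(k9,(nat_lit 4612))],[(k10,(nat_lit 4028)),(k11,(nat_lit 4028)),(k1,
    (nat_lit 4187)),(k6,(nat_lit 4612)),(k8,(nat_lit 4664)),(k9,(nat_lit 4664))],[(k10,(nat_lit 4028)),(k11,
    (nat_lit 4028)),(k1,(nat_lit 4399)),(k6,(nat_lit 4612)),(k8,(nat_lit 4664)),(k9,(nat_lit 4664))],[(k10,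
    (nat_lit 3392)),(k11,(nat_lit 3392)),(k1,(nat_lit 3763)),(k6,(nat_lit 3976)),(k8,(nat_lit 4028)),(k9,
    (nat_lit 4028))],[(k10,(nat_lit 3180)),(k11,(nat_lit 3392)),(k1,(nat_lit 3763)),(k8,(nat_lit 4028)),(k9,
    (nat_lit 4028)),(k6,(nat_lit 4188))]]
    [[k2,k0,k0,k0,k0,k1],[k1,k0,k0,k1,k0,k1],[k0,k0,k0,k0,k1,k2],[k0,k0,k0,k0,k0,k3]]
    [.ref k1 k0 [(z4,[z3,z1]),(z2,[y3,z1,z2]),(z4,[z3,y1,z0,z2]),(z2,[y3,z1,z0,z0,z2]),(z2,[z0,y1,y2,y1,y2,z6])],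
    .ref k1 k0 [(z1,[z3,z0,z0,z0,y1]),(z1,[y6,z1,z1,z0,z2]),(z2,[z6,y1,z0,z1,y2]),(z1,[y6,z1,z0,z0,z3]),(z2,[z0,y1,y2,
    y1,y2,z6])],.ref k1 k0 [(z8,[z6,z5,z2,z1,z2,y6]),(z4,[y6,y1,z2,y1,y2,z6]),(z8,[z6,z1,z2,z5,z2,y6]),(z4,[y6,y1,y2,
    y1,z2,z6]),(z2,[z0,y1,y2,y1,y2,z6])],.ref k1 k0 [(z2,[z1,z1]),(z1,[y1,z0,z1]),(z2,[z1,z0,z0,z1]),(z1,[y1,z0,z0,z0,
    z1]),(z2,[z0,y1,y2,y1,y2,z6])]],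
    .lp k0 [(nat_lit 4134),(nat_lit 4240),(nat_lit 4240),(nat_lit 4560),(nat_lit 4664),(nat_lit 3392)] [(nat_lit 265),
    (nat_lit 265),(nat_lit 212),(nat_lit 212),(nat_lit 212),(nat_lit 212),k52,k52,k0,k0,(nat_lit 636),
    (nat_lit 636)] k0 [[k0,k0,k0,k0,k0,k0,k0,k0,k0,k0,k0,k0],[k0,k0,k0,k0,k0,k0,k0,k0,k0,k0,k0,k0],[k0,k0,k0,k0,k0,k0,
    k0,k0,k0,k0,k0,k0],[k0,k0,k0,k0,k0,k0,k0,k0,k0,k0,k0,k0],[k0,k0,k0,k0,k0,k0,k0,k0,k0,k0,k0,k0],[k0,k0,k0,k0,k0,k0,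
    k0,k0,k0,k0,k0,k0],[k0,k0,k0,k0,k0,k0,k0,k0,k0,k0,k0,k0],[k0,k0,k0,k0,k0,k0,k0,k0,k0,k0,(nat_lit 212),k0],[k0,k0,
    k0,k0,k0,k0,k0,k0,k0,k0,k0,k0],[k0,k0,k0,k0,k0,k0,k0,k0,k0,k0,k0,k0],[k0,k0,k0,k0,k0,k0,k0,k0,k0,k0,k0,
    (nat_lit 212)],[k0,k0,k0,k0,k0,k0,(nat_lit 212),k0,k0,k0,k0,k0]] (nat_lit 12720) k5
    [[(k10,(nat_lit 3763)),(k11,(nat_lit 3763)),(k9,(nat_lit 4187)),(k1,(nat_lit 4346)),(k6,(nat_lit 4347)),(k8,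
    (nat_lit 4399))],[(k0,(nat_lit 4134)),(k2,(nat_lit 4187)),(k3,(nat_lit 4187)),(k4,(nat_lit 4187)),(k5,
    (nat_lit 4187)),(k7,(nat_lit 4347))],[(k0,(nat_lit 4187)),(k2,(nat_lit 4240)),(k3,(nat_lit 4240)),(k4,
    (nat_lit 4240)),(k5,(nat_lit 4240)),(k7,(nat_lit 4400))],[(k0,(nat_lit 4187)),(k2,(nat_lit 4240)),(k3,
    (nat_lit 4240)),(k4,(nat_lit 4240)),(k5,(nat_lit 4240)),(k7,(nat_lit 4400))],[(k0,(nat_lit 4187)),(k2,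
    (nat_lit 4240)),(k3,(nat_lit 4240)),(k4,(nat_lit 4240)),(k5,(nat_lit 4240)),(k7,(nat_lit 4400))],[(k0,
    (nat_lit 4187)),(k2,(nat_lit 4240)),(k3,(nat_lit 4240)),(k4,(nat_lit 4240)),(k5,(nat_lit 4240)),(k7,
    (nat_lit 4400))],[(k0,(nat_lit 4347)),(k2,(nat_lit 4400)),(k3,(nat_lit 4400)),(k4,(nat_lit 4400)),(k5,
    (nat_lit 4400)),(k7,(nat_lit 4560))],[(k11,(nat_lit 3976)),(k10,(nat_lit 4188)),(k1,(nat_lit 4347)),(k6,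
    (nat_lit 4560)),(k8,(nat_lit 4612)),(k9,(nat_lit 4612))],[(k10,(nat_lit 4028)),(k11,(nat_lit 4028)),(k1,
    (nat_lit 4187)),(k6,(nat_lit 4612)),(k8,(nat_lit 4664)),(k9,(nat_lit 4664))],[(k10,(nat_lit 4028)),(k11,
    (nat_lit 4028)),(k1,(nat_lit 4399)),(k6,(nat_lit 4612)),(k8,(nat_lit 4664)),(k9,(nat_lit 4664))],[(k10,
    (nat_lit 3392)),(k11,(nat_lit 3392)),(k1,(nat_lit 3763)),(k6,(nat_lit 3976)),(k8,(nat_lit 4028)),(k9,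
    (nat_lit 4028))],[(k10,(nat_lit 3180)),(k11,(nat_lit 3392)),(k1,(nat_lit 3763)),(k8,(nat_lit 4028)),(k9,
    (nat_lit 4028)),(k6,(nat_lit 4188))]]
    [[k2,k0,k0,k0,k0,k1],[k1,k0,k0,k1,k0,k1],[k0,k0,k0,k0,k1,k2],[k0,k0,k0,k0,k0,k3]]
    [.ref k102 k3 [(z1,[z3,z0,y1]),(z1,[z0,z0,z1]),(z1,[z0,y3,y3,y2,z6]),(z2,[y3,z3,z2])],.ref k71 k0 [(z1,[z1,z1]),
    (z1,[y2,z1,z1]),(z1,[z0,z0,z0,z1]),(z1,[y1,y1,y1,y1,z3])],.ref k71 k0 [(z3,[z3,z6,z1,z1,y3]),(z3,[y6,y3,z1,y2,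
    z6]),(z1,[z0,z0,z0,z1]),(z3,[y3,y6,y4,y4,z12])],.ref k71 k0 [(z2,[z1,z3]),(z1,[y1,z0,z1]),(z1,[z0,z0,z0,z1]),(z2,
    [y1,y3,y2,y2,z6])]],
    .lp k0 [k36,k30,k30,k32,k28,k32] [k0,k0,k3,k3,k3,k3,k2,k2,k4,k4,k2,k2] k0 [[k0,k0,k6,k6,k0,k0,k0,k0,k0,k0,k0,k0],
    [k0,k0,k0,k0,k0,k0,k0,k0,k0,k0,k0,k0],[k0,k6,k0,k0,k6,k0,k0,k0,k0,k0,k0,k0],[k0,k6,k0,k0,k6,k0,k0,k0,k0,k0,k0,k0],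
    [k0,k0,k0,k0,k0,k0,k0,k0,k0,k0,k0,k0],[k0,k0,k6,k6,k0,k0,k0,k0,k0,k0,k0,k0],[k0,k0,k0,k0,k0,k0,k0,k8,k4,k0,k0,k0],
    [k0,k0,k0,k0,k0,k0,k0,k0,k4,k0,k4,k4],[k0,k0,k0,k0,k0,k0,k0,k0,k0,k0,k0,k0],[k0,k0,k0,k0,k0,k0,k4,k4,k0,k0,k0,k0],
    [k0,k0,k0,k0,k0,k0,k4,k0,k0,k0,k0,k0],[k0,k0,k0,k0,k0,k0,k4,k0,k0,k0,k0,k0]] k96 k5
    [[(k9,k28),(k8,k32),(k10,k34),(k11,k34),(k1,k36),(k6,k38)],[(k2,k27),(k5,k27),(k3,k33),(k4,k33),(k7,k34),(k0,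
    k36)],[(k3,k30),(k4,k30),(k7,k31),(k0,k33),(k2,k36),(k5,k36)],[(k7,k25),(k0,k27),(k2,k30),(k5,k30),(k3,k36),(k4,
    k36)],[(k7,k25),(k0,k27),(k2,k30),(k5,k30),(k3,k36),(k4,k36)],[(k3,k30),(k4,k30),(k7,k31),(k0,k33),(k2,k36),(k5,
    k36)],[(k2,k25),(k5,k25),(k3,k31),(k4,k31),(k7,k32),(k0,k34)],[(k6,k24),(k11,k28),(k9,k30),(k8,k34),(k10,k36),(k1,
    k38)],[(k10,k26),(k11,k26),(k1,k28),(k6,k30),(k8,k32),(k9,k36)],[(k8,k28),(k10,k30),(k11,k30),(k1,k32),(k9,k32),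
    (k6,k34)],[(k9,k26),(k6,k28),(k8,k30),(k10,k32),(k11,k32),(k1,k34)],[(k9,k26),(k8,k30),(k10,k32),(k11,k32),(k1,
    k34),(k6,k36)]]
    [[k0,k1,k0,k2,k0,k0],[k0,k0,k1,k2,k0,k0],[k0,k0,k0,k0,k2,k1],[k0,k0,k0,k0,k1,k2]]
    [.ref k97 k2 [(z2,[z3,z0,y1]),(z1,[z0,y3,y1,z3]),(z1,[z0,z0,z1])],.ref k100 k2 [(z1,[z3,z3,z1,y3]),(z1,[z0,y3,y1,
    z3]),(z1,[z0,z0,z1])],.ref k101 k2 [(z1,[y1,z1]),(z1,[z0,y3,y1,z3]),(z1,[z0,z0,z1])],.ref k103 k2 [(z1,[y1,z2]),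
    (z1,[z0,y3,y1,z3]),(z1,[z0,z0,z1])]],
    .lp k0 [k76,k80,k84,k80,k78,k78] [k4,k4,k2,k2,k0,k0,k2,k2,k3,k3,k3,k3] k0 [[k0,k0,k0,k16,k0,k0,k0,k0,k0,k0,k0,k0],
    [k0,k0,k0,k0,k4,k12,k0,k0,k0,k0,k0,k0],[k0,k16,k0,k0,k12,k0,k0,k0,k0,k0,k0,k0],[k0,k0,k0,k0,k4,k0,k0,k0,k0,k0,k0,
    k0],[k12,k0,k0,k0,k0,k24,k0,k0,k0,k0,k0,k0],[k4,k0,k4,k12,k0,k0,k0,k0,k0,k0,k0,k0],[k0,k0,k0,k0,k0,k0,k0,k0,k6,k6,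
    k0,k16],[k0,k0,k0,k0,k0,k0,k0,k0,k0,k0,k0,k0],[k0,k0,k0,k0,k0,k0,k0,k6,k0,k0,k6,k0],[k0,k0,k0,k0,k0,k0,k0,k6,k0,
    k0,k6,k0],[k0,k0,k0,k0,k0,k0,k0,k16,k0,k0,k0,k0],[k0,k0,k0,k0,k0,k0,k0,k0,k6,k6,k0,k0]] (nat_lit 240) k5
    [[(k8,k71),(k11,k71),(k1,k76),(k10,k77),(k6,k78),(k9,k93)],[(k2,k62),(k0,k76),(k3,k78),(k5,k80),(k4,k84),(k7,
    k90)],[(k4,k70),(k7,k76),(k0,k78),(k2,k80),(k3,k80),(k5,k98)],[(k0,k62),(k7,k68),(k2,k80),(k3,k80),(k5,k82),(k4,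
    k86)],[(k7,k78),(k0,k80),(k2,k82),(k5,k84),(k4,k96),(k3,k98)],[(k4,k60),(k3,k70),(k7,k82),(k0,k84),(k2,k86),(k5,
    k96)],[(k2,k68),(k3,k76),(k5,k78),(k4,k82),(k0,k90),(k7,k104)],[(k10,k63),(k8,k73),(k11,k73),(k1,k78),(k9,k79),
    (k6,k80)],[(k9,k78),(k10,k78),(k6,k79),(k8,k84),(k11,k84),(k1,k93)],[(k1,k71),(k6,k73),(k8,k78),(k11,k78),(k9,
    k84),(k10,k84)],[(k1,k71),(k6,k73),(k8,k78),(k11,k78),(k9,k84),(k10,k84)],[(k6,k63),(k1,k77),(k9,k78),(k10,k78),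
    (k8,k84),(k11,k84)]]
    [[k2,k1,k0,k0,k0,k0],[k1,k1,k0,k1,k0,k0],[k2,k0,k0,k0,k0,k1],[k1,k0,k0,k1,k0,k1],[k0,k2,k1,k0,k0,k0],[k0,k1,k0,k2,
    k0,k0]]
    [.ref k1 k0 [(z2,[z3,z0,y1]),(z1,[z0,z0,z1]),(z3,[y3,z1,z1,z3]),(z6,[z3,y1,y1,z0,z3]),(z6,[y12,z1,y2,y6,y3,z18])],
    .ref k1 k0 [(z8,[z18,z1,y6,z0,y3]),(z1,[z0,z0,z1]),(z4,[y6,z1,z2,z4,z1]),(z8,[z6,y1,y2,z0,z3]),(z1,[y3,z0,z0,y1,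
    z0,z3])],.ref k1 k0 [(z8,[z9,z1]),(z1,[z0,z0,z1]),(z4,[y3,z1,z0,z4]),(z8,[z3,y1,z0,z0,z4]),(z2,[y3,z0,y2,y2,y1,
    z6])],.ref k1 k0 [(z4,[z6,z1,z0,z0,y1]),(z1,[z0,z0,z1]),(z6,[y6,z1,z0,z6,z1]),(z12,[z6,y1,z0,z0,z5]),(z6,[y12,y1,
    y6,y6,y1,z18])],.ref k1 k0 [(z2,[y9,z1,z6,z3]),(z1,[z0,z0,z1]),(z1,[z3,z0,y2]),(z2,[y3,z0,z2,z1,z1]),(z2,[z12,y1,
    y10,y6,y1,z6])],.ref k1 k0 [(z2,[z9,z1,y3,z0,y3]),(z1,[z0,z0,z1]),(z1,[y3,z0,z1,z1,z1]),(z2,[z3,z0,y1]),(z2,[y12,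
    y1,z2,y2,z3,z6])]],
    .lp k0 [(nat_lit 4134),(nat_lit 4240),(nat_lit 4240),(nat_lit 4560),(nat_lit 4664),(nat_lit 3392)] [(nat_lit 265),
    (nat_lit 265),(nat_lit 212),(nat_lit 212),(nat_lit 212),(nat_lit 212),k52,k52,k0,k0,(nat_lit 636),
    (nat_lit 636)] k0 [[k0,k0,k0,k0,k0,k0,k0,k0,k0,k0,k0,k0],[k0,k0,k0,k0,k0,k0,k0,k0,k0,k0,k0,k0],[k0,k0,k0,k0,k0,k0,
    k0,k0,k0,k0,k0,k0],[k0,k0,k0,k0,k0,k0,k0,k0,k0,k0,k0,k0],[k0,k0,k0,k0,k0,k0,k0,k0,k0,k0,k0,k0],[k0,k0,k0,k0,k0,k0,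
    k0,k0,k0,k0,k0,k0],[k0,k0,k0,k0,k0,k0,k0,k0,k0,k0,k0,k0],[k0,k0,k0,k0,k0,k0,k0,k0,k0,k0,(nat_lit 212),k0],[k0,k0,
    k0,k0,k0,k0,k0,k0,k0,k0,k0,k0],[k0,k0,k0,k0,k0,k0,k0,k0,k0,k0,k0,k0],[k0,k0,k0,k0,k0,k0,k0,k0,k0,k0,k0,
    (nat_lit 212)],[k0,k0,k0,k0,k0,k0,(nat_lit 212),k0,k0,k0,k0,k0]] (nat_lit 12720) k5
    [[(k10,(nat_lit 3763)),(k11,(nat_lit 3763)),(k9,(nat_lit 4187)),(k1,(nat_lit 4346)),(k6,(nat_lit 4347)),(k8,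
    (nat_lit 4399))],[(k0,(nat_lit 4134)),(k2,(nat_lit 4187)),(k3,(nat_lit 4187)),(k4,(nat_lit 4187)),(k5,
    (nat_lit 4187)),(k7,(nat_lit 4347))],[(k0,(nat_lit 4187)),(k2,(nat_lit 4240)),(k3,(nat_lit 4240)),(k4,
    (nat_lit 4240)),(k5,(nat_lit 4240)),(k7,(nat_lit 4400))],[(k0,(nat_lit 4187)),(k2,(nat_lit 4240)),(k3,
    (nat_lit 4240)),(k4,(nat_lit 4240)),(k5,(nat_lit 4240)),(k7,(nat_lit 4400))],[(k0,(nat_lit 4187)),(k2,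
    (nat_lit 4240)),(k3,(nat_lit 4240)),(k4,(nat_lit 4240)),(k5,(nat_lit 4240)),(k7,(nat_lit 4400))],[(k0,
    (nat_lit 4187)),(k2,(nat_lit 4240)),(k3,(nat_lit 4240)),(k4,(nat_lit 4240)),(k5,(nat_lit 4240)),(k7,
    (nat_lit 4400))],[(k0,(nat_lit 4347)),(k2,(nat_lit 4400)),(k3,(nat_lit 4400)),(k4,(nat_lit 4400)),(k5,
    (nat_lit 4400)),(k7,(nat_lit 4560))],[(k11,(nat_lit 3976)),(k10,(nat_lit 4188)),(k1,(nat_lit 4347)),(k6,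
    (nat_lit 4560)),(k8,(nat_lit 4612)),(k9,(nat_lit 4612))],[(k10,(nat_lit 4028)),(k11,(nat_lit 4028)),(k1,
    (nat_lit 4187)),(k6,(nat_lit 4612)),(k8,(nat_lit 4664)),(k9,(nat_lit 4664))],[(k10,(nat_lit 4028)),(k11,
    (nat_lit 4028)),(k1,(nat_lit 4399)),(k6,(nat_lit 4612)),(k8,(nat_lit 4664)),(k9,(nat_lit 4664))],[(k10,
    (nat_lit 3392)),(k11,(nat_lit 3392)),(k1,(nat_lit 3763)),(k6,(nat_lit 3976)),(k8,(nat_lit 4028)),(k9,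
    (nat_lit 4028))],[(k10,(nat_lit 3180)),(k11,(nat_lit 3392)),(k1,(nat_lit 3763)),(k8,(nat_lit 4028)),(k9,
    (nat_lit 4028)),(k6,(nat_lit 4188))]]
    [[k2,k0,k0,k0,k0,k1],[k1,k0,k0,k1,k0,k1],[k0,k0,k0,k0,k1,k2],[k0,k0,k0,k0,k0,k3]]
    [.ref k1 k0 [(z10,[z9,z1]),(z10,[y18,z3,z5]),(z1,[z0,z0,z0,z1]),(z20,[z6,y1,z0,z0,z15]),(z20,[y12,y3,y10,y20,y15,
    z60])],.ref k1 k0 [(z32,[z36,z5,z0,z0,y9]),(z16,[y36,z3,z8,z0,z9]),(z1,[z0,z0,z0,z1]),(z32,[z12,y1,z0,z0,z21]),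
    (z16,[y12,y3,y8,y16,y9,z48])],.ref k1 k0 [(z8,[z12,z3,z2,z4,z3,y12]),(z4,[y12,y1,z0,y4,y3,z12]),(z1,[z0,z0,z0,
    z1]),(z24,[z12,z1,z2,z4,z21,y12]),(z3,[y3,y1,y2,y4,y3,z12])],.ref k1 k0 [(z4,[z3,z1]),(z2,[y3,z0,z1]),(z1,[z0,z0,
    z0,z1]),(z4,[z1,z0,z0,z0,z3]),(z4,[y2,y1,y2,y4,y3,z12])]],
    .lp k0 [k146,k160,k160,k178,k154,k154] [k16,k16,k9,k9,k9,k9,k0,k0,k12,k12,k12,k12] k0 [[k0,k0,k0,k0,k0,k0,k0,k0,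
    k0,k0,k0,k0],[k0,k0,k0,k0,k16,k0,k0,k0,k0,k0,k0,k0],[k0,k0,k0,k0,k0,k0,k0,k0,k0,k0,k0,k0],[k0,k0,k0,k0,k0,k0,k0,
    k0,k0,k0,k0,k0],[k0,k0,k0,k0,k0,k0,k0,k0,k0,k0,k0,k0],[k16,k0,k0,k0,k0,k0,k0,k0,k0,k0,k0,k0],[k0,k0,k0,k0,k0,k0,
    k0,k0,k30,k30,k0,k0],[k0,k0,k0,k0,k0,k0,k0,k0,k0,k0,k0,k12],[k0,k0,k0,k0,k0,k0,k0,k30,k0,k0,k30,k0],[k0,k0,k0,k0,
    k0,k0,k0,k30,k0,k0,k30,k0],[k0,k0,k0,k0,k0,k0,k12,k0,k0,k0,k0,k12],[k0,k0,k0,k0,k0,k0,k0,k0,k30,k30,k0,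
    k0]] (nat_lit 480) k5
    [[(k8,k120),(k11,k120),(k9,k150),(k10,k150),(k1,k158),(k6,k174)],[(k0,k146),(k2,k153),(k3,k153),(k5,k153),(k7,
    k162),(k4,k169)],[(k0,k153),(k7,k153),(k2,k160),(k3,k160),(k4,k160),(k5,k160)],[(k0,k153),(k2,k160),(k3,k160),(k4,
    k160),(k5,k160),(k7,k169)],[(k0,k153),(k2,k160),(k3,k160),(k4,k160),(k5,k160),(k7,k169)],[(k2,k160),(k3,k160),(k4,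
    k160),(k5,k160),(k0,k169),(k7,k169)],[(k3,k153),(k0,k162),(k2,k169),(k4,k169),(k5,k169),(k7,k178)],[(k8,k136),
    (k11,k136),(k9,k166),(k10,k166),(k1,k174),(k6,k178)],[(k10,k142),(k1,k150),(k9,k154),(k6,k166),(k8,k184),(k11,
    k184)],[(k1,k120),(k6,k136),(k8,k154),(k11,k154),(k9,k184),(k10,k184)],[(k1,k120),(k6,k136),(k8,k154),(k11,k154),
    (k9,k184),(k10,k184)],[(k9,k142),(k10,k142),(k1,k150),(k6,k166),(k8,k184),(k11,k184)]]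
    [[k2,k1,k0,k0,k0,k0],[k2,k0,k0,k0,k1,k0],[k1,k0,k0,k1,k1,k0],[k2,k0,k0,k0,k0,k1],[k1,k0,k0,k1,k0,k1]]
    [.ref k21 k2 [(z1,[z3,y1,z0,z3,y3]),(z1,[y3,z1,z0,z0,z3]),(z1,[z0,z0,z1]),(z2,[z3,z0,y1])],.ref k81 k0 [(z6,[z3,
    z1,z1,z3,y3]),(z1,[z0,z0,z1]),(z1,[y3,z1,y1,z0,z3]),(z2,[z3,y1,z1,z3,y3])],.ref k105 k0 [(z1,[z3,z2,z1,z3,y3]),
    (z1,[z0,z0,z1]),(z1,[y3,z0,y1,z0,z3]),(z1,[z3,z0,z1,z3,y3])],.ref k106 k2 [(z1,[z6,y1,z3,z9,y9]),(z1,[y6,z1,y3,y3,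
    z9]),(z1,[z0,z0,z1]),(z3,[z6,z1,z1,z3,y3])],.ref k21 k2 [(z1,[z3,z0,z1,z3,y3]),(z1,[y3,z0,y1,z0,z3]),(z1,[z0,z0,
    z1]),(z2,[z3,z1])]]]

theorem hB6_124_8 : blkB [0, 0, 0, 1, 1, 1] [] sp6 hS6_124 (pcls (n := 6) [0, 0, 0, 1, 1, 1]) hD6_124 117 8 hN6_124_8 = true := by
  decide +kernel

/-- nodes 108 to 116 -/
noncomputable def hN6_124_9 : List HM :=
  [.lp k0 [(nat_lit 4134),(nat_lit 4240),(nat_lit 4240),(nat_lit 4560),(nat_lit 4664),(nat_lit 3392)] [(nat_lit 265),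
    (nat_lit 265),(nat_lit 212),(nat_lit 212),(nat_lit 212),(nat_lit 212),k52,k52,k0,k0,(nat_lit 636),
    (nat_lit 636)] k0 [[k0,k0,k0,k0,k0,k0,k0,k0,k0,k0,k0,k0],[k0,k0,k0,k0,k0,k0,k0,k0,k0,k0,k0,k0],[k0,k0,k0,k0,k0,k0,
    k0,k0,k0,k0,k0,k0],[k0,k0,k0,k0,k0,k0,k0,k0,k0,k0,k0,k0],[k0,k0,k0,k0,k0,k0,k0,k0,k0,k0,k0,k0],[k0,k0,k0,k0,k0,k0,
    k0,k0,k0,k0,k0,k0],[k0,k0,k0,k0,k0,k0,k0,k0,k0,k0,k0,k0],[k0,k0,k0,k0,k0,k0,k0,k0,k0,k0,(nat_lit 212),k0],[k0,k0,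
    k0,k0,k0,k0,k0,k0,k0,k0,k0,k0],[k0,k0,k0,k0,k0,k0,k0,k0,k0,k0,k0,k0],[k0,k0,k0,k0,k0,k0,k0,k0,k0,k0,k0,
    (nat_lit 212)],[k0,k0,k0,k0,k0,k0,(nat_lit 212),k0,k0,k0,k0,k0]] (nat_lit 12720) k5
    [[(k10,(nat_lit 3763)),(k11,(nat_lit 3763)),(k9,(nat_lit 4187)),(k1,(nat_lit 4346)),(k6,(nat_lit 4347)),(k8,
    (nat_lit 4399))],[(k0,(nat_lit 4134)),(k2,(nat_lit 4187)),(k3,(nat_lit 4187)),(k4,(nat_lit 4187)),(k5,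
    (nat_lit 4187)),(k7,(nat_lit 4347))],[(k0,(nat_lit 4187)),(k2,(nat_lit 4240)),(k3,(nat_lit 4240)),(k4,
    (nat_lit 4240)),(k5,(nat_lit 4240)),(k7,(nat_lit 4400))],[(k0,(nat_lit 4187)),(k2,(nat_lit 4240)),(k3,
    (nat_lit 4240)),(k4,(nat_lit 4240)),(k5,(nat_lit 4240)),(k7,(nat_lit 4400))],[(k0,(nat_lit 4187)),(k2,
    (nat_lit 4240)),(k3,(nat_lit 4240)),(k4,(nat_lit 4240)),(k5,(nat_lit 4240)),(k7,(nat_lit 4400))],[(k0,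
    (nat_lit 4187)),(k2,(nat_lit 4240)),(k3,(nat_lit 4240)),(k4,(nat_lit 4240)),(k5,(nat_lit 4240)),(k7,
    (nat_lit 4400))],[(k0,(nat_lit 4347)),(k2,(nat_lit 4400)),(k3,(nat_lit 4400)),(k4,(nat_lit 4400)),(k5,
    (nat_lit 4400)),(k7,(nat_lit 4560))],[(k11,(nat_lit 3976)),(k10,(nat_lit 4188)),(k1,(nat_lit 4347)),(k6,
    (nat_lit 4560)),(k8,(nat_lit 4612)),(k9,(nat_lit 4612))],[(k10,(nat_lit 4028)),(k11,(nat_lit 4028)),(k1,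
    (nat_lit 4187)),(k6,(nat_lit 4612)),(k8,(nat_lit 4664)),(k9,(nat_lit 4664))],[(k10,(nat_lit 4028)),(k11,
    (nat_lit 4028)),(k1,(nat_lit 4399)),(k6,(nat_lit 4612)),(k8,(nat_lit 4664)),(k9,(nat_lit 4664))],[(k10,
    (nat_lit 3392)),(k11,(nat_lit 3392)),(k1,(nat_lit 3763)),(k6,(nat_lit 3976)),(k8,(nat_lit 4028)),(k9,
    (nat_lit 4028))],[(k10,(nat_lit 3180)),(k11,(nat_lit 3392)),(k1,(nat_lit 3763)),(k8,(nat_lit 4028)),(k9,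
    (nat_lit 4028)),(k6,(nat_lit 4188))]]
    [[k2,k0,k0,k0,k0,k1],[k1,k0,k0,k1,k0,k1],[k0,k0,k0,k0,k1,k2],[k0,k0,k0,k0,k0,k3]]
    [.ref k107 k1 [(z1,[y3,z1]),(z1,[z0,y1,y3,z3]),(z1,[z1])],.ref k91 k0 [(z1,[z1]),(z1,[y6,z2,z3]),(z1,[z3,y1])],
    .ref k92 k0 [(z2,[y3,z1,y3,z3]),(z1,[z0,z0,z1]),(z1,[z0,y1,y3,z3])],.ref k92 k0 [(z1,[y1,z1]),(z1,[z0,z0,z1]),(z1,
    [z0,y1,y3,z3])]],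
    .base (.spec k3 false k0 [(z1,[z0,z1]),(z6,[z1,z6,z4,z3,y6])]),
    .lp k0 [k36,k30,k30,k32,k28,k32] [k0,k0,k3,k3,k3,k3,k2,k2,k4,k4,k2,k2] k0 [[k0,k0,k6,k6,k0,k0,k0,k0,k0,k0,k0,k0],
    [k0,k0,k0,k0,k0,k0,k0,k0,k0,k0,k0,k0],[k0,k6,k0,k0,k6,k0,k0,k0,k0,k0,k0,k0],[k0,k6,k0,k0,k6,k0,k0,k0,k0,k0,k0,k0],
    [k0,k0,k0,k0,k0,k0,k0,k0,k0,k0,k0,k0],[k0,k0,k6,k6,k0,k0,k0,k0,k0,k0,k0,k0],[k0,k0,k0,k0,k0,k0,k0,k8,k4,k0,k0,k0],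
    [k0,k0,k0,k0,k0,k0,k0,k0,k4,k0,k4,k4],[k0,k0,k0,k0,k0,k0,k0,k0,k0,k0,k0,k0],[k0,k0,k0,k0,k0,k0,k4,k4,k0,k0,k0,k0],
    [k0,k0,k0,k0,k0,k0,k4,k0,k0,k0,k0,k0],[k0,k0,k0,k0,k0,k0,k4,k0,k0,k0,k0,k0]] k96 k5
    [[(k9,k28),(k8,k32),(k10,k34),(k11,k34),(k1,k36),(k6,k38)],[(k2,k27),(k5,k27),(k3,k33),(k4,k33),(k7,k34),(k0,
    k36)],[(k3,k30),(k4,k30),(k7,k31),(k0,k33),(k2,k36),(k5,k36)],[(k7,k25),(k0,k27),(k2,k30),(k5,k30),(k3,k36),(k4,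
    k36)],[(k7,k25),(k0,k27),(k2,k30),(k5,k30),(k3,k36),(k4,k36)],[(k3,k30),(k4,k30),(k7,k31),(k0,k33),(k2,k36),(k5,
    k36)],[(k2,k25),(k5,k25),(k3,k31),(k4,k31),(k7,k32),(k0,k34)],[(k6,k24),(k11,k28),(k9,k30),(k8,k34),(k10,k36),(k1,
    k38)],[(k10,k26),(k11,k26),(k1,k28),(k6,k30),(k8,k32),(k9,k36)],[(k8,k28),(k10,k30),(k11,k30),(k1,k32),(k9,k32),
    (k6,k34)],[(k9,k26),(k6,k28),(k8,k30),(k10,k32),(k11,k32),(k1,k34)],[(k9,k26),(k8,k30),(k10,k32),(k11,k32),(k1,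
    k34),(k6,k36)]]
    [[k0,k1,k0,k2,k0,k0],[k0,k0,k1,k2,k0,k0],[k0,k0,k0,k0,k2,k1],[k0,k0,k0,k0,k1,k2]]
    [.ref k1 k0 [(z2,[y3,z1,z1,z0,z3]),(z1,[z0,z0,z1]),(z1,[z3,z0,y1,z1,y3]),(z2,[z3,z0,y1]),(z1,[y3,z0,z1,z0,z3])],
    .ref k1 k0 [(z4,[y3,z2,z0,z1,z3]),(z1,[z0,z0,z1]),(z2,[z3,z0,z0,z1,y3]),(z4,[z3,z0,z0,y1,z3]),(z2,[y3,z0,z0,z1,
    z3])],.ref k1 k0 [(z8,[z6,z5,z2,z2,z3,y6]),(z1,[z0,z0,z1]),(z4,[y6,y1,y2,z2,y3,z6]),(z8,[y6,y1,y2,y2,z9,z6]),(z4,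
    [z6,z1,z2,z2,z3,y6])],.ref k1 k0 [(z2,[z3,z2,z2,z2,z3,y6]),(z1,[z0,z0,z1]),(z1,[y3,y1,y2,y1,y3,z6]),(z2,[y3,y1,y2,
    y2,z0,z6]),(z1,[z3,z1,z2,z2,z3,y6])]],
    .lp k0 [k146,k160,k160,k178,k154,k154] [k16,k16,k9,k9,k9,k9,k0,k0,k12,k12,k12,k12] k0 [[k0,k0,k0,k0,k0,k0,k0,k0,
    k0,k0,k0,k0],[k0,k0,k0,k0,k16,k0,k0,k0,k0,k0,k0,k0],[k0,k0,k0,k0,k0,k0,k0,k0,k0,k0,k0,k0],[k0,k0,k0,k0,k0,k0,k0,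
    k0,k0,k0,k0,k0],[k0,k0,k0,k0,k0,k0,k0,k0,k0,k0,k0,k0],[k16,k0,k0,k0,k0,k0,k0,k0,k0,k0,k0,k0],[k0,k0,k0,k0,k0,k0,
    k0,k0,k30,k30,k0,k0],[k0,k0,k0,k0,k0,k0,k0,k0,k0,k0,k0,k12],[k0,k0,k0,k0,k0,k0,k0,k30,k0,k0,k30,k0],[k0,k0,k0,k0,
    k0,k0,k0,k30,k0,k0,k30,k0],[k0,k0,k0,k0,k0,k0,k12,k0,k0,k0,k0,k12],[k0,k0,k0,k0,k0,k0,k0,k0,k30,k30,k0,
    k0]] (nat_lit 480) k5
    [[(k8,k120),(k11,k120),(k9,k150),(k10,k150),(k1,k158),(k6,k174)],[(k0,k146),(k2,k153),(k3,k153),(k5,k153),(k7,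
    k162),(k4,k169)],[(k0,k153),(k7,k153),(k2,k160),(k3,k160),(k4,k160),(k5,k160)],[(k0,k153),(k2,k160),(k3,k160),(k4,
    k160),(k5,k160),(k7,k169)],[(k0,k153),(k2,k160),(k3,k160),(k4,k160),(k5,k160),(k7,k169)],[(k2,k160),(k3,k160),(k4,
    k160),(k5,k160),(k0,k169),(k7,k169)],[(k3,k153),(k0,k162),(k2,k169),(k4,k169),(k5,k169),(k7,k178)],[(k8,k136),
    (k11,k136),(k9,k166),(k10,k166),(k1,k174),(k6,k178)],[(k10,k142),(k1,k150),(k9,k154),(k6,k166),(k8,k184),(k11,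
    k184)],[(k1,k120),(k6,k136),(k8,k154),(k11,k154),(k9,k184),(k10,k184)],[(k1,k120),(k6,k136),(k8,k154),(k11,k154),
    (k9,k184),(k10,k184)],[(k9,k142),(k10,k142),(k1,k150),(k6,k166),(k8,k184),(k11,k184)]]
    [[k2,k1,k0,k0,k0,k0],[k2,k0,k0,k0,k1,k0],[k1,k0,k0,k1,k1,k0],[k2,k0,k0,k0,k0,k1],[k1,k0,k0,k1,k0,k1]]
    [.ref k1 k0 [(z2,[z3,z0,y1]),(z1,[z0,z0,z1]),(z1,[y3,z6,z1,z3]),(z2,[z3,y6,y1]),(z1,[z0,z0,z0,z0,z1])],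
    .ref k1 k0 [(z2,[z3,z0,z0,z0,y1]),(z1,[z0,z0,z1]),(z1,[y3,z6,z0,z3,z1]),(z2,[z3,y6,z0,z0,y1]),(z1,[z0,z0,z0,z0,
    z1])],.ref k1 k0 [(z2,[z3,z3,z0,z0,y1]),(z1,[z0,z0,z1]),(z1,[y3,z3,z0,z3,z1]),(z2,[z3,y3,z0,z0,y1]),(z1,[z0,z0,z0,
    z0,z1])],.ref k1 k0 [(z2,[z3,z3,z1,z3,z1,y3]),(z1,[z0,z0,z1]),(z1,[y3,z3,y1,z0,y1,z3]),(z2,[z3,y3,z1,z3,z1,y3]),
    (z1,[z0,z0,z0,z0,z1])],.ref k1 k0 [(z2,[z3,z6,z1,z3,z1,y3]),(z1,[z0,z0,z1]),(z1,[y3,z0,y1,z0,y1,z3]),(z2,[z3,z0,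
    z1,z3,z1,y3]),(z1,[z0,z0,z0,z0,z1])]],
    .lp k0 [k148,k160,k184,k160,k154,k150] [k18,k18,k12,k12,k0,k0,k12,k12,k15,k15,k17,k17] k0 [[k0,k0,k0,k0,k0,k0,k0,
    k0,k0,k0,k0,k0],[k0,k0,k0,k0,k0,k48,k0,k0,k0,k0,k0,k0],[k0,k0,k0,k0,k0,k0,k0,k0,k0,k0,k0,k0],[k0,k0,k0,k0,k0,k0,
    k0,k0,k0,k0,k0,k0],[k48,k0,k0,k0,k0,k48,k0,k0,k0,k0,k0,k0],[k0,k0,k0,k0,k0,k0,k0,k0,k0,k0,k0,k0],[k0,k0,k0,k0,k0,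
    k0,k0,k0,k34,k34,k0,k4],[k0,k0,k0,k0,k0,k0,k0,k0,k0,k0,k0,k12],[k0,k0,k0,k0,k0,k0,k0,k34,k0,k0,k30,k0],[k0,k0,k0,
    k0,k0,k0,k0,k34,k0,k0,k22,k0],[k0,k0,k0,k0,k0,k0,k12,k4,k0,k0,k0,k0],[k0,k0,k0,k0,k0,k0,k0,k0,k22,k30,k0,
    k0]] (nat_lit 480) k5
    [[(k8,k121),(k11,k127),(k1,k148),(k10,k149),(k9,k155),(k6,k166)],[(k0,k148),(k2,k154),(k3,k154),(k4,k166),(k5,
    k166),(k7,(nat_lit 202))],[(k4,k124),(k0,k154),(k2,k160),(k3,k160),(k7,k160),(k5,k172)],[(k0,k154),(k2,k160),(k3,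
    k160),(k7,k160),(k4,k172),(k5,k172)],[(k0,k166),(k2,k172),(k3,k172),(k7,k172),(k4,k184),(k5,k184)],[(k3,k124),(k4,
    k136),(k0,k166),(k2,k172),(k7,k172),(k5,k184)],[(k2,k160),(k3,k160),(k4,k172),(k5,k172),(k0,(nat_lit 202)),(k7,
    (nat_lit 208))],[(k11,k121),(k8,k123),(k10,k151),(k9,k157),(k6,k160),(k1,k166)],[(k10,k140),(k9,k154),(k1,k155),
    (k6,k157),(k11,k186),(k8,k188)],[(k1,k121),(k6,k123),(k11,k152),(k8,k154),(k10,k174),(k9,k188)],[(k6,k121),(k1,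
    k127),(k11,k150),(k8,k152),(k10,k180),(k9,k186)],[(k9,k140),(k1,k149),(k10,k150),(k6,k151),(k8,k174),(k11,k180)]]
    [[k2,k1,k0,k0,k0,k0],[k2,k0,k0,k0,k1,k0],[k2,k0,k0,k0,k0,k1],[k1,k0,k0,k1,k0,k1],[k0,k2,k1,k0,k0,k0],[k0,k0,k0,k0,
    k1,k2]]
    [.ref k9 k0 [(z2,[z3,z0,y1]),(z1,[z0,z0,z1]),(z1,[y3,z2,z1,z1]),(z2,[z3,y2,y1])],.ref k109 k1 [(z1,[y6,z4,z0,z3]),
    (z3,[z3,y2,z0,y1]),(z1,[z0,y1,y1,y1,z3]),(z3,[z0,z2,z0,z1])],.ref k9 k0 [(z2,[z3,z1,z1,z1,y3]),(z1,[z0,z0,z1]),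
    (z1,[y3,z1,y1,z0,z3]),(z2,[z3,y1,z1,z1,y3])],.ref k110 k0 [(z1,[z3,z2,z1,z1,y3]),(z1,[z0,z0,z1]),(z1,[y3,z0,y1,z0,
    z3]),(z3,[z3,z0,z1,z1,y3])],.ref k9 k0 [(z2,[y3,z2,z2,z1]),(z1,[z0,z0,z1]),(z1,[z3,z0,y2]),(z2,[y3,z0,z2,z1])],
    .ref k111 k0 [(z3,[z3,z3,z2,z2,y6]),(z1,[z0,z0,z1]),(z3,[y6,y4,y4,y3,z12]),(z1,[z3,z2,z2,z2,y6])]],
    .lp k0 [k36,k30,k30,k32,k28,k32] [k0,k0,k3,k3,k3,k3,k2,k2,k4,k4,k2,k2] k0 [[k0,k0,k6,k6,k0,k0,k0,k0,k0,k0,k0,k0],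
    [k0,k0,k0,k0,k0,k0,k0,k0,k0,k0,k0,k0],[k0,k6,k0,k0,k6,k0,k0,k0,k0,k0,k0,k0],[k0,k6,k0,k0,k6,k0,k0,k0,k0,k0,k0,k0],
    [k0,k0,k0,k0,k0,k0,k0,k0,k0,k0,k0,k0],[k0,k0,k6,k6,k0,k0,k0,k0,k0,k0,k0,k0],[k0,k0,k0,k0,k0,k0,k0,k8,k4,k0,k0,k0],
    [k0,k0,k0,k0,k0,k0,k0,k0,k4,k0,k4,k4],[k0,k0,k0,k0,k0,k0,k0,k0,k0,k0,k0,k0],[k0,k0,k0,k0,k0,k0,k4,k4,k0,k0,k0,k0],
    [k0,k0,k0,k0,k0,k0,k4,k0,k0,k0,k0,k0],[k0,k0,k0,k0,k0,k0,k4,k0,k0,k0,k0,k0]] k96 k5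
    [[(k9,k28),(k8,k32),(k10,k34),(k11,k34),(k1,k36),(k6,k38)],[(k2,k27),(k5,k27),(k3,k33),(k4,k33),(k7,k34),(k0,
    k36)],[(k3,k30),(k4,k30),(k7,k31),(k0,k33),(k2,k36),(k5,k36)],[(k7,k25),(k0,k27),(k2,k30),(k5,k30),(k3,k36),(k4,
    k36)],[(k7,k25),(k0,k27),(k2,k30),(k5,k30),(k3,k36),(k4,k36)],[(k3,k30),(k4,k30),(k7,k31),(k0,k33),(k2,k36),(k5,
    k36)],[(k2,k25),(k5,k25),(k3,k31),(k4,k31),(k7,k32),(k0,k34)],[(k6,k24),(k11,k28),(k9,k30),(k8,k34),(k10,k36),(k1,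
    k38)],[(k10,k26),(k11,k26),(k1,k28),(k6,k30),(k8,k32),(k9,k36)],[(k8,k28),(k10,k30),(k11,k30),(k1,k32),(k9,k32),
    (k6,k34)],[(k9,k26),(k6,k28),(k8,k30),(k10,k32),(k11,k32),(k1,k34)],[(k9,k26),(k8,k30),(k10,k32),(k11,k32),(k1,
    k34),(k6,k36)]]
    [[k0,k1,k0,k2,k0,k0],[k0,k0,k1,k2,k0,k0],[k0,k0,k0,k0,k2,k1],[k0,k0,k0,k0,k1,k2]]
    [.ref k3 k0 [(z2,[y3,z2,z1]),(z1,[z0,z0,z1]),(z1,[z0,z0,z0,z1]),(z2,[z3,z0,y1])],.ref k110 k3 [(z1,[y3,z2]),(z1,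
    [z0,y1,y1,y1,z3]),(z1,[z0,z0,z0,z1]),(z1,[z1])],.ref k71 k0 [(z1,[z0,z1]),(z1,[z0,z0,z1]),(z2,[y3,y1,y1,z1,z3]),
    (z2,[z3,z1,z1,z1,y3])],.ref k71 k0 [(z1,[z0,z1]),(z1,[z0,z0,z1]),(z1,[y3,y2,y2,y1,z6]),(z1,[z3,z2,z2,z2,y6])]],
    .lp k0 [k148,k160,k184,k160,k154,k150] [k18,k18,k12,k12,k0,k0,k12,k12,k15,k15,k17,k17] k0 [[k0,k0,k0,k0,k0,k0,k0,
    k0,k0,k0,k0,k0],[k0,k0,k0,k0,k0,k48,k0,k0,k0,k0,k0,k0],[k0,k0,k0,k0,k0,k0,k0,k0,k0,k0,k0,k0],[k0,k0,k0,k0,k0,k0,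
    k0,k0,k0,k0,k0,k0],[k48,k0,k0,k0,k0,k48,k0,k0,k0,k0,k0,k0],[k0,k0,k0,k0,k0,k0,k0,k0,k0,k0,k0,k0],[k0,k0,k0,k0,k0,
    k0,k0,k0,k34,k34,k0,k4],[k0,k0,k0,k0,k0,k0,k0,k0,k0,k0,k0,k12],[k0,k0,k0,k0,k0,k0,k0,k34,k0,k0,k30,k0],[k0,k0,k0,
    k0,k0,k0,k0,k34,k0,k0,k22,k0],[k0,k0,k0,k0,k0,k0,k12,k4,k0,k0,k0,k0],[k0,k0,k0,k0,k0,k0,k0,k0,k22,k30,k0,
    k0]] (nat_lit 480) k5
    [[(k8,k121),(k11,k127),(k1,k148),(k10,k149),(k9,k155),(k6,k166)],[(k0,k148),(k2,k154),(k3,k154),(k4,k166),(k5,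
    k166),(k7,(nat_lit 202))],[(k4,k124),(k0,k154),(k2,k160),(k3,k160),(k7,k160),(k5,k172)],[(k0,k154),(k2,k160),(k3,
    k160),(k7,k160),(k4,k172),(k5,k172)],[(k0,k166),(k2,k172),(k3,k172),(k7,k172),(k4,k184),(k5,k184)],[(k3,k124),(k4,
    k136),(k0,k166),(k2,k172),(k7,k172),(k5,k184)],[(k2,k160),(k3,k160),(k4,k172),(k5,k172),(k0,(nat_lit 202)),(k7,
    (nat_lit 208))],[(k11,k121),(k8,k123),(k10,k151),(k9,k157),(k6,k160),(k1,k166)],[(k10,k140),(k9,k154),(k1,k155),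
    (k6,k157),(k11,k186),(k8,k188)],[(k1,k121),(k6,k123),(k11,k152),(k8,k154),(k10,k174),(k9,k188)],[(k6,k121),(k1,
    k127),(k11,k150),(k8,k152),(k10,k180),(k9,k186)],[(k9,k140),(k1,k149),(k10,k150),(k6,k151),(k8,k174),(k11,k180)]]
    [[k2,k1,k0,k0,k0,k0],[k2,k0,k0,k0,k1,k0],[k2,k0,k0,k0,k0,k1],[k1,k0,k0,k1,k0,k1],[k0,k2,k1,k0,k0,k0],[k0,k0,k0,k0,
    k1,k2]]
    [.ref k13 k0 [(z2,[z3,z0,y1]),(z1,[z0,z0,z1]),(z6,[y3,z2,z1])],.ref k112 k3 [(z1,[z3,y1]),(z1,[z0,y1,y1,z3]),(z1,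
    [y3,z2])],.ref k13 k0 [(z2,[z3,z1,z1,y3]),(z1,[z0,z0,z1]),(z6,[y3,z1,y1,z3])],.ref k113 k0 [(z1,[z3,z1,z1,y3]),
    (z1,[z0,z0,z1]),(z1,[y3,z0,y1,z3])],.ref k91 k2 [(z3,[y3,z1,z2]),(z1,[z3,z0,y2]),(z1,[z0,z0,z1])],
    .ref k91 k1 [(z3,[y3,y1,y2,z6]),(z1,[z3,z2,z2,y6]),(z1,[z0,y1,y1,z3])]],
    .lp k0 [(nat_lit 4134),(nat_lit 4240),(nat_lit 4240),(nat_lit 4560),(nat_lit 4664),(nat_lit 3392)] [(nat_lit 265),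
    (nat_lit 265),(nat_lit 212),(nat_lit 212),(nat_lit 212),(nat_lit 212),k52,k52,k0,k0,(nat_lit 636),
    (nat_lit 636)] k0 [[k0,k0,k0,k0,k0,k0,k0,k0,k0,k0,k0,k0],[k0,k0,k0,k0,k0,k0,k0,k0,k0,k0,k0,k0],[k0,k0,k0,k0,k0,k0,
    k0,k0,k0,k0,k0,k0],[k0,k0,k0,k0,k0,k0,k0,k0,k0,k0,k0,k0],[k0,k0,k0,k0,k0,k0,k0,k0,k0,k0,k0,k0],[k0,k0,k0,k0,k0,k0,
    k0,k0,k0,k0,k0,k0],[k0,k0,k0,k0,k0,k0,k0,k0,k0,k0,k0,k0],[k0,k0,k0,k0,k0,k0,k0,k0,k0,k0,(nat_lit 212),k0],[k0,k0,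
    k0,k0,k0,k0,k0,k0,k0,k0,k0,k0],[k0,k0,k0,k0,k0,k0,k0,k0,k0,k0,k0,k0],[k0,k0,k0,k0,k0,k0,k0,k0,k0,k0,k0,
    (nat_lit 212)],[k0,k0,k0,k0,k0,k0,(nat_lit 212),k0,k0,k0,k0,k0]] (nat_lit 12720) k5
    [[(k10,(nat_lit 3763)),(k11,(nat_lit 3763)),(k9,(nat_lit 4187)),(k1,(nat_lit 4346)),(k6,(nat_lit 4347)),(k8,
    (nat_lit 4399))],[(k0,(nat_lit 4134)),(k2,(nat_lit 4187)),(k3,(nat_lit 4187)),(k4,(nat_lit 4187)),(k5,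
    (nat_lit 4187)),(k7,(nat_lit 4347))],[(k0,(nat_lit 4187)),(k2,(nat_lit 4240)),(k3,(nat_lit 4240)),(k4,
    (nat_lit 4240)),(k5,(nat_lit 4240)),(k7,(nat_lit 4400))],[(k0,(nat_lit 4187)),(k2,(nat_lit 4240)),(k3,
    (nat_lit 4240)),(k4,(nat_lit 4240)),(k5,(nat_lit 4240)),(k7,(nat_lit 4400))],[(k0,(nat_lit 4187)),(k2,
    (nat_lit 4240)),(k3,(nat_lit 4240)),(k4,(nat_lit 4240)),(k5,(nat_lit 4240)),(k7,(nat_lit 4400))],[(k0,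
    (nat_lit 4187)),(k2,(nat_lit 4240)),(k3,(nat_lit 4240)),(k4,(nat_lit 4240)),(k5,(nat_lit 4240)),(k7,
    (nat_lit 4400))],[(k0,(nat_lit 4347)),(k2,(nat_lit 4400)),(k3,(nat_lit 4400)),(k4,(nat_lit 4400)),(k5,
    (nat_lit 4400)),(k7,(nat_lit 4560))],[(k11,(nat_lit 3976)),(k10,(nat_lit 4188)),(k1,(nat_lit 4347)),(k6,
    (nat_lit 4560)),(k8,(nat_lit 4612)),(k9,(nat_lit 4612))],[(k10,(nat_lit 4028)),(k11,(nat_lit 4028)),(k1,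
    (nat_lit 4187)),(k6,(nat_lit 4612)),(k8,(nat_lit 4664)),(k9,(nat_lit 4664))],[(k10,(nat_lit 4028)),(k11,
    (nat_lit 4028)),(k1,(nat_lit 4399)),(k6,(nat_lit 4612)),(k8,(nat_lit 4664)),(k9,(nat_lit 4664))],[(k10,
    (nat_lit 3392)),(k11,(nat_lit 3392)),(k1,(nat_lit 3763)),(k6,(nat_lit 3976)),(k8,(nat_lit 4028)),(k9,
    (nat_lit 4028))],[(k10,(nat_lit 3180)),(k11,(nat_lit 3392)),(k1,(nat_lit 3763)),(k8,(nat_lit 4028)),(k9,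
    (nat_lit 4028)),(k6,(nat_lit 4188))]]
    [[k2,k0,k0,k0,k0,k1],[k1,k0,k0,k1,k0,k1],[k0,k0,k0,k0,k1,k2],[k0,k0,k0,k0,k0,k3]]
    [.ref k42 k3 [(z1,[z3,y1]),(z1,[y3,z2])],.ref k104 k0 [(z1,[z1]),(z1,[z0,y1,z3])],.ref k108 k1 [(z1,[y3,z1]),(z1,
    [z1])],.ref k114 k0 [(z1,[y1,z1]),(z1,[z0,y1,z3])]],
    .lp k0 [(nat_lit 4134),(nat_lit 4240),(nat_lit 4240),(nat_lit 4560),(nat_lit 4664),(nat_lit 3392)] [(nat_lit 265),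
    (nat_lit 265),(nat_lit 212),(nat_lit 212),(nat_lit 212),(nat_lit 212),k52,k52,k0,k0,(nat_lit 636),
    (nat_lit 636)] k0 [[k0,k0,k0,k0,k0,k0,k0,k0,k0,k0,k0,k0],[k0,k0,k0,k0,k0,k0,k0,k0,k0,k0,k0,k0],[k0,k0,k0,k0,k0,k0,
    k0,k0,k0,k0,k0,k0],[k0,k0,k0,k0,k0,k0,k0,k0,k0,k0,k0,k0],[k0,k0,k0,k0,k0,k0,k0,k0,k0,k0,k0,k0],[k0,k0,k0,k0,k0,k0,
    k0,k0,k0,k0,k0,k0],[k0,k0,k0,k0,k0,k0,k0,k0,k0,k0,k0,k0],[k0,k0,k0,k0,k0,k0,k0,k0,k0,k0,(nat_lit 212),k0],[k0,k0,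
    k0,k0,k0,k0,k0,k0,k0,k0,k0,k0],[k0,k0,k0,k0,k0,k0,k0,k0,k0,k0,k0,k0],[k0,k0,k0,k0,k0,k0,k0,k0,k0,k0,k0,
    (nat_lit 212)],[k0,k0,k0,k0,k0,k0,(nat_lit 212),k0,k0,k0,k0,k0]] (nat_lit 12720) k5
    [[(k10,(nat_lit 3763)),(k11,(nat_lit 3763)),(k9,(nat_lit 4187)),(k1,(nat_lit 4346)),(k6,(nat_lit 4347)),(k8,
    (nat_lit 4399))],[(k0,(nat_lit 4134)),(k2,(nat_lit 4187)),(k3,(nat_lit 4187)),(k4,(nat_lit 4187)),(k5,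
    (nat_lit 4187)),(k7,(nat_lit 4347))],[(k0,(nat_lit 4187)),(k2,(nat_lit 4240)),(k3,(nat_lit 4240)),(k4,
    (nat_lit 4240)),(k5,(nat_lit 4240)),(k7,(nat_lit 4400))],[(k0,(nat_lit 4187)),(k2,(nat_lit 4240)),(k3,
    (nat_lit 4240)),(k4,(nat_lit 4240)),(k5,(nat_lit 4240)),(k7,(nat_lit 4400))],[(k0,(nat_lit 4187)),(k2,
    (nat_lit 4240)),(k3,(nat_lit 4240)),(k4,(nat_lit 4240)),(k5,(nat_lit 4240)),(k7,(nat_lit 4400))],[(k0,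
    (nat_lit 4187)),(k2,(nat_lit 4240)),(k3,(nat_lit 4240)),(k4,(nat_lit 4240)),(k5,(nat_lit 4240)),(k7,
    (nat_lit 4400))],[(k0,(nat_lit 4347)),(k2,(nat_lit 4400)),(k3,(nat_lit 4400)),(k4,(nat_lit 4400)),(k5,
    (nat_lit 4400)),(k7,(nat_lit 4560))],[(k11,(nat_lit 3976)),(k10,(nat_lit 4188)),(k1,(nat_lit 4347)),(k6,
    (nat_lit 4560)),(k8,(nat_lit 4612)),(k9,(nat_lit 4612))],[(k10,(nat_lit 4028)),(k11,(nat_lit 4028)),(k1,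
    (nat_lit 4187)),(k6,(nat_lit 4612)),(k8,(nat_lit 4664)),(k9,(nat_lit 4664))],[(k10,(nat_lit 4028)),(k11,
    (nat_lit 4028)),(k1,(nat_lit 4399)),(k6,(nat_lit 4612)),(k8,(nat_lit 4664)),(k9,(nat_lit 4664))],[(k10,
    (nat_lit 3392)),(k11,(nat_lit 3392)),(k1,(nat_lit 3763)),(k6,(nat_lit 3976)),(k8,(nat_lit 4028)),(k9,
    (nat_lit 4028))],[(k10,(nat_lit 3180)),(k11,(nat_lit 3392)),(k1,(nat_lit 3763)),(k8,(nat_lit 4028)),(k9,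
    (nat_lit 4028)),(k6,(nat_lit 4188))]]
    [[k2,k0,k0,k0,k0,k1],[k1,k0,k0,k1,k0,k1],[k0,k0,k0,k0,k1,k2],[k0,k0,k0,k0,k0,k3]]
    [.ref k43 k3 [(z1,[z1,y1])],.ref k74 k0 [(z1,[z1])],.ref k94 k1 [(z1,[y1,z1])],.ref k115 k3 [(z1,[y1,z3])]]]

theorem hB6_124_9 : blkB [0, 0, 0, 1, 1, 1] [] sp6 hS6_124 (pcls (n := 6) [0, 0, 0, 1, 1, 1]) hD6_124 117 9 hN6_124_9 = true := by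
  decide +kernel

end Pool.Agent.Lib_MP_fa6e45
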