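import Pool.Agent.Lib_MP_fa6e45.HK

/-!
MP_fa6e45_co, stage 4: certificates (captain, generated by a program).
-/

namespace Pool.Agent.Lib_MP_fa6e45

/-- nodes 0 to 11 -/
noncomputable def hN6_125_0 : List HM :=
  [.base (.geo z6 k5 [(z4,z0),(z2,y3),(z4,z0),(z8,z0),(z6,y3),(z0,z6)] [(z1,[z2]),(z1,[z0,z1]),(z1,[z0,z0,z2]),(z1,
    [y2,z0,z0,z6]),(z1,[z0,y1,y2,y6,z6]),(z1,[])] k6),
    .lp k0 [(nat_lit 828),(nat_lit 997),(nat_lit 893),(nat_lit 1238),(nat_lit 1046),(nat_lit 752)] [k146,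
    (nat_lit 318),k185,k110,(nat_lit 214),k185,k12,k42,(nat_lit 246),k0,(nat_lit 294),(nat_lit 246)] k0 [[k0,k0,
    (nat_lit 385),(nat_lit 385),k0,k0,k0,k0,k0,k0,k0,k0],[k0,k0,k0,k0,k0,(nat_lit 392),k0,k0,k0,k0,k0,k0],[k0,
    (nat_lit 385),k0,k0,(nat_lit 489),k0,k0,k0,k0,k0,k0,k0],[k0,(nat_lit 385),k0,k0,(nat_lit 489),k0,k0,k0,k0,k0,k0,
    k0],[(nat_lit 392),k0,k0,k0,k0,(nat_lit 288),k0,k0,k0,k0,k0,k0],[k0,k0,(nat_lit 489),(nat_lit 489),k0,k0,k0,k0,k0,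
    k0,k0,k0],[k0,k0,k0,k0,k0,k0,k0,k0,(nat_lit 458),(nat_lit 458),k0,k178],[k0,k0,k0,k0,k0,k0,k0,k0,k0,k0,k0,
    (nat_lit 422)],[k0,k0,k0,k0,k0,k0,k0,(nat_lit 458),k0,k0,k0,k0],[k0,k0,k0,k0,k0,k0,k0,(nat_lit 458),k0,k0,k36,k0],
    [k0,k0,k0,k0,k0,k0,(nat_lit 422),k178,k0,k0,k0,k0],[k0,k0,k0,k0,k0,k0,k0,k0,k36,k0,k0,k0]] (nat_lit 2880) k6
    [[(k1,(nat_lit 656)),(k10,(nat_lit 680)),(k11,(nat_lit 692)),(k8,(nat_lit 728)),(k9,(nat_lit 1152)),(k6,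
    (nat_lit 1384))],[(k2,(nat_lit 576)),(k5,(nat_lit 576)),(k4,(nat_lit 932)),(k0,(nat_lit 1000)),(k3,
    (nat_lit 1036)),(k7,(nat_lit 1496))],[(k4,(nat_lit 576)),(k0,(nat_lit 1036)),(k3,(nat_lit 1072)),(k7,
    (nat_lit 1140)),(k2,(nat_lit 1382)),(k5,(nat_lit 1382))],[(k0,(nat_lit 576)),(k7,(nat_lit 576)),(k2,
    (nat_lit 922)),(k5,(nat_lit 922)),(k3,(nat_lit 1382)),(k4,(nat_lit 1382))],[(k0,(nat_lit 576)),(k7,(nat_lit 576)),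
    (k2,(nat_lit 922)),(k5,(nat_lit 922)),(k3,(nat_lit 1382)),(k4,(nat_lit 1382))],[(k3,(nat_lit 576)),(k4,
    (nat_lit 576)),(k0,(nat_lit 932)),(k7,(nat_lit 1036)),(k2,(nat_lit 1382)),(k5,(nat_lit 1382))],[(k2,
    (nat_lit 576)),(k5,(nat_lit 576)),(k4,(nat_lit 1036)),(k3,(nat_lit 1140)),(k0,(nat_lit 1496)),(k7,
    (nat_lit 1496))],[(k8,(nat_lit 576)),(k11,(nat_lit 576)),(k10,(nat_lit 808)),(k6,(nat_lit 1268)),(k9,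
    (nat_lit 1280)),(k1,(nat_lit 1384))],[(k10,(nat_lit 576)),(k1,(nat_lit 1152)),(k6,(nat_lit 1280)),(k9,
    (nat_lit 1292)),(k8,(nat_lit 1504)),(k11,(nat_lit 1504))],[(k6,(nat_lit 576)),(k1,(nat_lit 728)),(k10,
    (nat_lit 788)),(k8,(nat_lit 800)),(k11,(nat_lit 800)),(k9,(nat_lit 1504))],[(k6,(nat_lit 576)),(k1,(nat_lit 692)),
    (k10,(nat_lit 752)),(k8,(nat_lit 800)),(k11,(nat_lit 800)),(k9,(nat_lit 1504))],[(k9,(nat_lit 576)),(k1,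
    (nat_lit 680)),(k10,(nat_lit 704)),(k11,(nat_lit 752)),(k8,(nat_lit 788)),(k6,(nat_lit 808))]]
    [[k2,k1,k0,k0,k0,k0],[k2,k1,k1,k0,k0,k0],[k2,k0,k1,k0,k0,k0],[k2,k0,k2,k0,k0,k0],[k2,k0,k0,k0,k0,k1],[k1,k0,k0,k1,
    k0,k1],[k1,k1,k0,k1,k0,k1],[k1,k0,k1,k1,k0,k1],[k0,k0,k0,k0,k2,k2],[k0,k0,k0,k0,k1,k2],[k0,k0,k0,k0,k0,k3]]
    [.contra [z1,y1],.contra [z2,y1,y1,z1,y1],.contra [z1,y1],.contra [z1,y1],.contra [z1,z1],.contra [z1,z1,z0,y1],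
    .contra [z1,z0,z0,y1],.contra [z1,z0,z0,y1],.contra [z1,z0,z2],.contra [y1,z0,y1,y1,z1],.ref k0 k0 [(z2,[y1,y3,z0,
    z6]),(z1,[y2,z0,y3,y3,z3]),(z1,[z1])]],
    .base (.leafM k4 [k2,k4,k5,k1] [(z1,[z0,y1,y1,z1])] [(k3,k0,z1,[z0,z0,z1]),(k0,k3,z1,[z0,z0,z1])]),
    .base (.geo z6 k4 [(z8,z3),(z4,z6),(z4,y12),(z4,y3),(z0,z6),(z4,z0)] [(z1,[z1]),(z1,[z0,z2]),(z1,[z0,z0,z2]),(z1,
    [y1,z0,z0,z6]),(z1,[]),(z1,[z0,y2,y2,y6,z6])] k7),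
    .lp k0 [(nat_lit 828),(nat_lit 997),(nat_lit 893),(nat_lit 1238),(nat_lit 1046),(nat_lit 752)] [k146,
    (nat_lit 318),k185,k110,(nat_lit 214),k185,k12,k42,(nat_lit 246),k0,(nat_lit 294),(nat_lit 246)] k0 [[k0,k0,
    (nat_lit 385),(nat_lit 385),k0,k0,k0,k0,k0,k0,k0,k0],[k0,k0,k0,k0,k0,(nat_lit 392),k0,k0,k0,k0,k0,k0],[k0,
    (nat_lit 385),k0,k0,(nat_lit 489),k0,k0,k0,k0,k0,k0,k0],[k0,(nat_lit 385),k0,k0,(nat_lit 489),k0,k0,k0,k0,k0,k0,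
    k0],[(nat_lit 392),k0,k0,k0,k0,(nat_lit 288),k0,k0,k0,k0,k0,k0],[k0,k0,(nat_lit 489),(nat_lit 489),k0,k0,k0,k0,k0,
    k0,k0,k0],[k0,k0,k0,k0,k0,k0,k0,k0,(nat_lit 458),(nat_lit 458),k0,k178],[k0,k0,k0,k0,k0,k0,k0,k0,k0,k0,k0,
    (nat_lit 422)],[k0,k0,k0,k0,k0,k0,k0,(nat_lit 458),k0,k0,k0,k0],[k0,k0,k0,k0,k0,k0,k0,(nat_lit 458),k0,k0,k36,k0],
    [k0,k0,k0,k0,k0,k0,(nat_lit 422),k178,k0,k0,k0,k0],[k0,k0,k0,k0,k0,k0,k0,k0,k36,k0,k0,k0]] (nat_lit 2880) k6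
    [[(k1,(nat_lit 656)),(k10,(nat_lit 680)),(k11,(nat_lit 692)),(k8,(nat_lit 728)),(k9,(nat_lit 1152)),(k6,
    (nat_lit 1384))],[(k2,(nat_lit 576)),(k5,(nat_lit 576)),(k4,(nat_lit 932)),(k0,(nat_lit 1000)),(k3,
    (nat_lit 1036)),(k7,(nat_lit 1496))],[(k4,(nat_lit 576)),(k0,(nat_lit 1036)),(k3,(nat_lit 1072)),(k7,
    (nat_lit 1140)),(k2,(nat_lit 1382)),(k5,(nat_lit 1382))],[(k0,(nat_lit 576)),(k7,(nat_lit 576)),(k2,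
    (nat_lit 922)),(k5,(nat_lit 922)),(k3,(nat_lit 1382)),(k4,(nat_lit 1382))],[(k0,(nat_lit 576)),(k7,(nat_lit 576)),
    (k2,(nat_lit 922)),(k5,(nat_lit 922)),(k3,(nat_lit 1382)),(k4,(nat_lit 1382))],[(k3,(nat_lit 576)),(k4,
    (nat_lit 576)),(k0,(nat_lit 932)),(k7,(nat_lit 1036)),(k2,(nat_lit 1382)),(k5,(nat_lit 1382))],[(k2,
    (nat_lit 576)),(k5,(nat_lit 576)),(k4,(nat_lit 1036)),(k3,(nat_lit 1140)),(k0,(nat_lit 1496)),(k7,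
    (nat_lit 1496))],[(k8,(nat_lit 576)),(k11,(nat_lit 576)),(k10,(nat_lit 808)),(k6,(nat_lit 1268)),(k9,
    (nat_lit 1280)),(k1,(nat_lit 1384))],[(k10,(nat_lit 576)),(k1,(nat_lit 1152)),(k6,(nat_lit 1280)),(k9,
    (nat_lit 1292)),(k8,(nat_lit 1504)),(k11,(nat_lit 1504))],[(k6,(nat_lit 576)),(k1,(nat_lit 728)),(k10,
    (nat_lit 788)),(k8,(nat_lit 800)),(k11,(nat_lit 800)),(k9,(nat_lit 1504))],[(k6,(nat_lit 576)),(k1,(nat_lit 692)),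
    (k10,(nat_lit 752)),(k8,(nat_lit 800)),(k11,(nat_lit 800)),(k9,(nat_lit 1504))],[(k9,(nat_lit 576)),(k1,
    (nat_lit 680)),(k10,(nat_lit 704)),(k11,(nat_lit 752)),(k8,(nat_lit 788)),(k6,(nat_lit 808))]]
    [[k2,k1,k0,k0,k0,k0],[k2,k1,k1,k0,k0,k0],[k2,k0,k1,k0,k0,k0],[k2,k0,k2,k0,k0,k0],[k2,k0,k0,k0,k0,k1],[k1,k0,k0,k1,
    k0,k1],[k1,k1,k0,k1,k0,k1],[k1,k0,k1,k1,k0,k1],[k0,k0,k0,k0,k2,k2],[k0,k0,k0,k0,k1,k2],[k0,k0,k0,k0,k0,k3]]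
    [.contra [z1,z1,y1],.contra [z3,y1,y1,z2,y2],.contra [z3,y2,z1,z1,y1],.contra [z1,y1,z1],.contra [z1,y1,z1],
    .contra [z1,z0,z0,y1],.contra [z1,z0,z0,y1],.contra [z1,z0,z0,y1],.contra [z1,z0,z2],.contra [y1,z0,y1,y1,z1],
    .ref k3 k1 [(z1,[z1,z3]),(z1,[z1,z0,z3]),(z1,[y2,z0,y3,y3,z3])]],
    .lp k0 [(nat_lit 480),(nat_lit 606),(nat_lit 657),(nat_lit 893),(nat_lit 568),(nat_lit 632)] [(nat_lit 381),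
    (nat_lit 477),(nat_lit 471),(nat_lit 261),(nat_lit 210),(nat_lit 471),(nat_lit 445),k0,(nat_lit 293),
    (nat_lit 477),(nat_lit 413),(nat_lit 293)] k0 [[k0,k0,k102,k0,k0,k11,k0,k0,k0,k0,k0,k0],[k0,k0,k0,k0,k0,
    (nat_lit 483),k0,k0,k0,k0,k0,k0],[k0,k0,k0,k0,(nat_lit 483),k0,k0,k0,k0,k0,k0,k0],[k0,k102,k0,k0,(nat_lit 483),k0,
    k0,k0,k0,k0,k0,k0],[(nat_lit 483),k11,k0,k0,k0,k0,k0,k0,k0,k0,k0,k0],[k0,k0,(nat_lit 483),(nat_lit 483),k0,k0,k0,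
    k0,k0,k0,k0,k0],[k0,k0,k0,k0,k0,k0,k0,k0,(nat_lit 216),(nat_lit 216),k0,k32],[k0,k0,k0,k0,k0,k0,k0,k0,k0,k0,k0,
    k64],[k0,k0,k0,k0,k0,k0,k0,(nat_lit 216),k0,k0,k152,k0],[k0,k0,k0,k0,k0,k0,k0,(nat_lit 216),k0,k0,k152,k0],[k0,k0,
    k0,k0,k0,k0,k64,k32,k0,k0,k0,k0],[k0,k0,k0,k0,k0,k0,k0,k0,k152,k152,k0,k0]] (nat_lit 1920) k6
    [[(k1,(nat_lit 384)),(k8,(nat_lit 416)),(k9,(nat_lit 416)),(k11,(nat_lit 416)),(k10,(nat_lit 448)),(k6,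
    (nat_lit 480))],[(k5,(nat_lit 384)),(k2,(nat_lit 486)),(k0,(nat_lit 576)),(k3,(nat_lit 696)),(k4,(nat_lit 736)),
    (k7,(nat_lit 1440))],[(k4,(nat_lit 384)),(k5,(nat_lit 606)),(k0,(nat_lit 696)),(k2,(nat_lit 708)),(k3,
    (nat_lit 816)),(k7,(nat_lit 1088))],[(k7,(nat_lit 384)),(k2,(nat_lit 396)),(k5,(nat_lit 396)),(k0,(nat_lit 486)),
    (k3,(nat_lit 708)),(k4,(nat_lit 1140))],[(k0,(nat_lit 384)),(k7,(nat_lit 384)),(k2,(nat_lit 396)),(k5,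
    (nat_lit 396)),(k3,(nat_lit 606)),(k4,(nat_lit 1140))],[(k3,(nat_lit 384)),(k0,(nat_lit 736)),(k4,(nat_lit 918)),
    (k7,(nat_lit 1128)),(k2,(nat_lit 1140)),(k5,(nat_lit 1140))],[(k2,(nat_lit 384)),(k5,(nat_lit 384)),(k3,
    (nat_lit 1088)),(k4,(nat_lit 1128)),(k7,(nat_lit 1338)),(k0,(nat_lit 1440))],[(k8,(nat_lit 384)),(k11,
    (nat_lit 384)),(k9,(nat_lit 416)),(k6,(nat_lit 448)),(k10,(nat_lit 448)),(k1,(nat_lit 480))],[(k9,(nat_lit 384)),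
    (k10,(nat_lit 384)),(k1,(nat_lit 416)),(k6,(nat_lit 416)),(k8,(nat_lit 784)),(k11,(nat_lit 784))],[(k6,
    (nat_lit 384)),(k1,(nat_lit 416)),(k8,(nat_lit 752)),(k11,(nat_lit 752)),(k9,(nat_lit 784)),(k10,(nat_lit 784))],
    [(k6,(nat_lit 384)),(k1,(nat_lit 416)),(k8,(nat_lit 752)),(k11,(nat_lit 752)),(k9,(nat_lit 784)),(k10,
    (nat_lit 784))],[(k9,(nat_lit 384)),(k1,(nat_lit 448)),(k6,(nat_lit 448)),(k10,(nat_lit 512)),(k8,(nat_lit 784)),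
    (k11,(nat_lit 784))]]
    [[k2,k1,k0,k0,k0,k0],[k2,k1,k1,k0,k0,k0],[k2,k0,k1,k0,k0,k0],[k1,k1,k0,k1,k0,k0],[k1,k1,k1,k1,k0,k0],[k1,k0,k1,k1,
    k0,k0],[k2,k0,k0,k0,k1,k0],[k1,k1,k0,k1,k1,k0],[k2,k0,k0,k0,k2,k0],[k2,k0,k0,k0,k1,k1],[k2,k0,k0,k0,k0,k1],[k1,k1,
    k0,k1,k0,k1],[k0,k2,k1,k0,k0,k0],[k0,k2,k2,k0,k0,k0],[k0,k1,k1,k2,k0,k0]]
    [.contra [z1,y1],.contra [z1,y1],.contra [z1,y1],.contra [z1,z0,y1],.contra [z1,z0,y1],.contra [z1,z0,y1],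
    .contra [z1,y1],.contra [z1,z0,y1],.contra [z1,y1],.contra [z1,y1],.contra [z1,z1],.contra [z1,z0,y1],
    .ref k1 k1 [(z1,[z0,z1]),(z1,[z1,z0,z1,y1])],.ref k2 k2 [(z2,[z1,y2,z6,y2]),(z2,[z1])],.ref k4 k3 [(z1,[y1,z0,
    z2]),(z1,[y1,y1,z2])]],
    .base (.geo z6 k4 [(z6,z3),(z4,z6),(z4,y12),(z6,y3),(z0,z6),(z4,z0)] [(z1,[z3]),(z1,[z0,z2]),(z1,[z0,z0,z2]),(z1,
    [y3,z0,z0,z6]),(z1,[]),(z1,[z0,y2,y2,y6,z6])] k7),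
    .lp k0 [(nat_lit 828),(nat_lit 997),(nat_lit 893),(nat_lit 1238),(nat_lit 1046),(nat_lit 752)] [k146,
    (nat_lit 318),k185,k110,(nat_lit 214),k185,k12,k42,(nat_lit 246),k0,(nat_lit 294),(nat_lit 246)] k0 [[k0,k0,
    (nat_lit 385),(nat_lit 385),k0,k0,k0,k0,k0,k0,k0,k0],[k0,k0,k0,k0,k0,(nat_lit 392),k0,k0,k0,k0,k0,k0],[k0,
    (nat_lit 385),k0,k0,(nat_lit 489),k0,k0,k0,k0,k0,k0,k0],[k0,(nat_lit 385),k0,k0,(nat_lit 489),k0,k0,k0,k0,k0,k0,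
    k0],[(nat_lit 392),k0,k0,k0,k0,(nat_lit 288),k0,k0,k0,k0,k0,k0],[k0,k0,(nat_lit 489),(nat_lit 489),k0,k0,k0,k0,k0,
    k0,k0,k0],[k0,k0,k0,k0,k0,k0,k0,k0,(nat_lit 458),(nat_lit 458),k0,k178],[k0,k0,k0,k0,k0,k0,k0,k0,k0,k0,k0,
    (nat_lit 422)],[k0,k0,k0,k0,k0,k0,k0,(nat_lit 458),k0,k0,k0,k0],[k0,k0,k0,k0,k0,k0,k0,(nat_lit 458),k0,k0,k36,k0],
    [k0,k0,k0,k0,k0,k0,(nat_lit 422),k178,k0,k0,k0,k0],[k0,k0,k0,k0,k0,k0,k0,k0,k36,k0,k0,k0]] (nat_lit 2880) k6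
    [[(k1,(nat_lit 656)),(k10,(nat_lit 680)),(k11,(nat_lit 692)),(k8,(nat_lit 728)),(k9,(nat_lit 1152)),(k6,
    (nat_lit 1384))],[(k2,(nat_lit 576)),(k5,(nat_lit 576)),(k4,(nat_lit 932)),(k0,(nat_lit 1000)),(k3,
    (nat_lit 1036)),(k7,(nat_lit 1496))],[(k4,(nat_lit 576)),(k0,(nat_lit 1036)),(k3,(nat_lit 1072)),(k7,
    (nat_lit 1140)),(k2,(nat_lit 1382)),(k5,(nat_lit 1382))],[(k0,(nat_lit 576)),(k7,(nat_lit 576)),(k2,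
    (nat_lit 922)),(k5,(nat_lit 922)),(k3,(nat_lit 1382)),(k4,(nat_lit 1382))],[(k0,(nat_lit 576)),(k7,(nat_lit 576)),
    (k2,(nat_lit 922)),(k5,(nat_lit 922)),(k3,(nat_lit 1382)),(k4,(nat_lit 1382))],[(k3,(nat_lit 576)),(k4,
    (nat_lit 576)),(k0,(nat_lit 932)),(k7,(nat_lit 1036)),(k2,(nat_lit 1382)),(k5,(nat_lit 1382))],[(k2,
    (nat_lit 576)),(k5,(nat_lit 576)),(k4,(nat_lit 1036)),(k3,(nat_lit 1140)),(k0,(nat_lit 1496)),(k7,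
    (nat_lit 1496))],[(k8,(nat_lit 576)),(k11,(nat_lit 576)),(k10,(nat_lit 808)),(k6,(nat_lit 1268)),(k9,
    (nat_lit 1280)),(k1,(nat_lit 1384))],[(k10,(nat_lit 576)),(k1,(nat_lit 1152)),(k6,(nat_lit 1280)),(k9,
    (nat_lit 1292)),(k8,(nat_lit 1504)),(k11,(nat_lit 1504))],[(k6,(nat_lit 576)),(k1,(nat_lit 728)),(k10,
    (nat_lit 788)),(k8,(nat_lit 800)),(k11,(nat_lit 800)),(k9,(nat_lit 1504))],[(k6,(nat_lit 576)),(k1,(nat_lit 692)),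
    (k10,(nat_lit 752)),(k8,(nat_lit 800)),(k11,(nat_lit 800)),(k9,(nat_lit 1504))],[(k9,(nat_lit 576)),(k1,
    (nat_lit 680)),(k10,(nat_lit 704)),(k11,(nat_lit 752)),(k8,(nat_lit 788)),(k6,(nat_lit 808))]]
    [[k2,k1,k0,k0,k0,k0],[k2,k1,k1,k0,k0,k0],[k2,k0,k1,k0,k0,k0],[k2,k0,k2,k0,k0,k0],[k2,k0,k0,k0,k0,k1],[k1,k0,k0,k1,
    k0,k1],[k1,k1,k0,k1,k0,k1],[k1,k0,k1,k1,k0,k1],[k0,k0,k0,k0,k2,k2],[k0,k0,k0,k0,k1,k2],[k0,k0,k0,k0,k0,k3]]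
    [.contra [z1,y1],.contra [z2,y1,y1,z1,y1],.contra [z1,y1],.contra [z1,y1],.contra [z1,y1,z1],.contra [z1,z0,z0,
    y1],.contra [z1,z0,z0,y1],.contra [z1,z0,z0,y1],.contra [z1,z0,z2],.contra [y1,z0,y1,y1,z1],.ref k6 k1 [(z1,[z0,
    z1]),(z1,[z1,z0,z3]),(z1,[y2,z0,y3,y3,z3])]],
    .base (.leafM k4 [k2,k4,k5,k1] [(z1,[z0,y1,y1,z1])] [(k3,k0,z1,[z0,z0,z1]),(k0,k3,z1,[z0,z0,z1])]),
    .lp k0 [k194,k146,k146,k154,k160,k152] [k15,k15,k39,k39,k39,k39,k35,k35,k64,k0,k8,k64] k0 [[k0,k0,k54,k54,k0,k0,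
    k0,k0,k0,k0,k0,k0],[k0,k0,k0,k0,k0,k12,k0,k0,k0,k0,k0,k0],[k0,k54,k0,k0,k54,k0,k0,k0,k0,k0,k0,k0],[k0,k54,k0,k0,
    k54,k0,k0,k0,k0,k0,k0,k0],[k12,k0,k0,k0,k0,k12,k0,k0,k0,k0,k0,k0],[k0,k0,k54,k54,k0,k0,k0,k0,k0,k0,k0,k0],[k0,k0,
    k0,k0,k0,k0,k0,k0,k0,k0,k0,k0],[k0,k0,k0,k0,k0,k0,k0,k0,k0,k0,k8,k120],[k0,k0,k0,k0,k0,k0,k0,k0,k0,k0,k24,k0],[k0,
    k0,k0,k0,k0,k0,k0,k0,k0,k0,k0,k0],[k0,k0,k0,k0,k0,k0,k120,k0,k0,k0,k0,k0],[k0,k0,k0,k0,k0,k0,k8,k0,k0,k24,k0,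
    k0]] (nat_lit 480) k6
    [[(k8,k121),(k11,k145),(k1,k194),(k9,(nat_lit 201)),(k10,(nat_lit 201)),(k6,(nat_lit 294))],[(k2,k116),(k5,k116),
    (k3,k170),(k4,k170),(k7,k186),(k0,k194)],[(k4,k134),(k3,k146),(k7,k150),(k0,k170),(k2,(nat_lit 200)),(k5,
    (nat_lit 200))],[(k7,k96),(k0,k116),(k2,k146),(k5,k146),(k3,(nat_lit 200)),(k4,(nat_lit 200))],[(k7,k96),(k0,
    k116),(k2,k146),(k5,k146),(k3,(nat_lit 200)),(k4,(nat_lit 200))],[(k3,k134),(k4,k134),(k7,k150),(k0,k170),(k2,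
    (nat_lit 200)),(k5,(nat_lit 200))],[(k2,k96),(k5,k96),(k3,k150),(k4,k150),(k7,k166),(k0,k186)],[(k8,k125),(k11,
    k125),(k6,k154),(k9,k189),(k10,k189),(k1,(nat_lit 294))],[(k10,k96),(k8,k160),(k11,k160),(k6,k189),(k1,
    (nat_lit 201)),(k9,(nat_lit 224))],[(k8,k96),(k11,k96),(k1,k121),(k6,k125),(k10,k152),(k9,k160)],[(k8,k96),(k11,
    k96),(k6,k125),(k1,k145),(k9,k160),(k10,k176)],[(k9,k96),(k8,k152),(k11,k176),(k6,k189),(k1,(nat_lit 201)),(k10,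
    (nat_lit 208))]]
    [[k0,k1,k0,k2,k0,k0],[k0,k0,k1,k2,k0,k0],[k0,k0,k0,k0,k2,k1],[k0,k0,k0,k0,k2,k2],[k0,k0,k0,k0,k1,k2]]
    [.contra [y3,z2,z1,z0,z6],.contra [y3,z2,z0,z1,z6],.contra [y3,z1,y2,y2,y6,z6],.contra [z3,z2,z2,z2,z6,y6],
    .contra [y3,z1,y2,y2,y6,z6]],
    .base (.geo z6 k4 [(z8,z3),(z4,y12),(z4,z6),(z4,y3),(z0,z6),(z4,z0)] [(z1,[z1]),(z1,[z0,z2]),(z1,[z0,z0,z2]),(z1,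
    [y1,z0,z0,z6]),(z1,[]),(z1,[z0,y2,y2,y6,z6])] k8),
    .lp k0 [(nat_lit 1258),(nat_lit 1170),(nat_lit 1202),(nat_lit 1694),(nat_lit 1372),(nat_lit 968)] [(nat_lit 281),
    (nat_lit 281),(nat_lit 334),(nat_lit 316),(nat_lit 284),(nat_lit 334),k126,k0,(nat_lit 322),k126,(nat_lit 490),
    (nat_lit 362)] k0 [[k0,k0,(nat_lit 330),(nat_lit 266),k0,k0,k0,k0,k0,k0,k0,k0],[k0,k0,k0,k0,k0,(nat_lit 452),k0,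
    k0,k0,k0,k0,k0],[k0,(nat_lit 266),k0,k0,(nat_lit 718),k0,k0,k0,k0,k0,k0,k0],[k0,(nat_lit 330),k0,k0,(nat_lit 718),
    k0,k0,k0,k0,k0,k0,k0],[(nat_lit 452),k0,k0,k0,k0,k0,k0,k0,k0,k0,k0,k0],[k0,k0,(nat_lit 718),(nat_lit 718),k0,k0,
    k0,k0,k0,k0,k0,k0],[k0,k0,k0,k0,k0,k0,k0,k0,(nat_lit 564),(nat_lit 564),k0,k0],[k0,k0,k0,k0,k0,k0,k0,k0,k0,k0,k48,
    (nat_lit 436)],[k0,k0,k0,k0,k0,k0,k0,(nat_lit 564),k0,k0,k0,k0],[k0,k0,k0,k0,k0,k0,k0,(nat_lit 564),k0,k0,k128,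
    k0],[k0,k0,k0,k0,k0,k0,(nat_lit 436),k0,k0,k0,k0,k0],[k0,k0,k0,k0,k0,k0,k48,k0,k128,k0,k0,k0]] (nat_lit 3840) k6
    [[(k10,(nat_lit 1049)),(k11,(nat_lit 1049)),(k8,(nat_lit 1217)),(k1,(nat_lit 1258)),(k9,(nat_lit 1365)),(k6,
    (nat_lit 1849))],[(k5,(nat_lit 875)),(k2,(nat_lit 939)),(k3,(nat_lit 1223)),(k4,(nat_lit 1255)),(k0,
    (nat_lit 1258)),(k7,(nat_lit 1991))],[(k4,(nat_lit 768)),(k3,(nat_lit 1188)),(k0,(nat_lit 1223)),(k5,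
    (nat_lit 1436)),(k2,(nat_lit 1500)),(k7,(nat_lit 1504))],[(k7,(nat_lit 768)),(k0,(nat_lit 939)),(k2,
    (nat_lit 1152)),(k5,(nat_lit 1152)),(k3,(nat_lit 1500)),(k4,(nat_lit 1920))],[(k7,(nat_lit 768)),(k0,
    (nat_lit 875)),(k2,(nat_lit 1152)),(k5,(nat_lit 1152)),(k3,(nat_lit 1436)),(k4,(nat_lit 1920))],[(k3,
    (nat_lit 768)),(k4,(nat_lit 1252)),(k0,(nat_lit 1255)),(k7,(nat_lit 1536)),(k2,(nat_lit 1920)),(k5,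
    (nat_lit 1920))],[(k2,(nat_lit 768)),(k5,(nat_lit 768)),(k3,(nat_lit 1504)),(k4,(nat_lit 1536)),(k7,
    (nat_lit 1820)),(k0,(nat_lit 1991))],[(k11,(nat_lit 768)),(k8,(nat_lit 808)),(k10,(nat_lit 1252)),(k6,
    (nat_lit 1568)),(k9,(nat_lit 1568)),(k1,(nat_lit 1849))],[(k10,(nat_lit 768)),(k1,(nat_lit 1365)),(k6,
    (nat_lit 1568)),(k9,(nat_lit 1568)),(k11,(nat_lit 1896)),(k8,(nat_lit 1936))],[(k6,(nat_lit 808)),(k10,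
    (nat_lit 1136)),(k11,(nat_lit 1136)),(k8,(nat_lit 1176)),(k1,(nat_lit 1217)),(k9,(nat_lit 1936))],[(k6,
    (nat_lit 768)),(k10,(nat_lit 968)),(k1,(nat_lit 1049)),(k11,(nat_lit 1096)),(k8,(nat_lit 1136)),(k9,
    (nat_lit 1896))],[(k9,(nat_lit 768)),(k10,(nat_lit 840)),(k11,(nat_lit 968)),(k1,(nat_lit 1049)),(k8,
    (nat_lit 1136)),(k6,(nat_lit 1252))]]
    [[k2,k1,k0,k0,k0,k0],[k2,k0,k1,k0,k0,k0],[k2,k0,k0,k0,k0,k1],[k1,k0,k0,k1,k0,k1],[k1,k1,k0,k1,k0,k1],[k0,k2,k1,k0,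
    k0,k0],[k0,k0,k0,k0,k2,k2],[k0,k0,k0,k0,k1,k2],[k0,k0,k0,k0,k0,k3]]
    [.contra [z3,y2,y1],.contra [z1,z1,z1,z1,y1],.contra [z1,y1,y1,y1,z1],.contra [z1,z0,z0,y1],.contra [z1,z0,z0,y1],
    .ref k9 k2 [(z2,[z1,y3,y1,z7,y1]),(z1,[y1,z0,y2,y4,z4]),(z1,[z2,z0,z1,z2,y2])],.contra [z1,z0,y2,y2,z2],
    .contra [y1,z0,z1],.ref k10 k1 [(z1,[z1,z3]),(z1,[y2,z0,z3]),(z1,[z1,z0,y3,y3,z3])]]]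

theorem hB6_125_0 : blkB [0, 0, 0, 1, 1, 1] [(0, 3)] sp6 hS6_125 (pcls (n := 6) [0, 0, 0, 1, 1, 1]) hD6_125 107 0 hN6_125_0 = true := by
  decide +kernel

/-- nodes 12 to 23 -/
noncomputable def hN6_125_1 : List HM :=
  [.lp k0 [(nat_lit 480),(nat_lit 606),(nat_lit 657),(nat_lit 893),(nat_lit 568),(nat_lit 632)] [(nat_lit 381),
    (nat_lit 477),(nat_lit 471),(nat_lit 261),(nat_lit 210),(nat_lit 471),(nat_lit 445),k0,(nat_lit 293),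
    (nat_lit 477),(nat_lit 413),(nat_lit 293)] k0 [[k0,k0,k102,k0,k0,k11,k0,k0,k0,k0,k0,k0],[k0,k0,k0,k0,k0,
    (nat_lit 483),k0,k0,k0,k0,k0,k0],[k0,k0,k0,k0,(nat_lit 483),k0,k0,k0,k0,k0,k0,k0],[k0,k102,k0,k0,(nat_lit 483),k0,
    k0,k0,k0,k0,k0,k0],[(nat_lit 483),k11,k0,k0,k0,k0,k0,k0,k0,k0,k0,k0],[k0,k0,(nat_lit 483),(nat_lit 483),k0,k0,k0,
    k0,k0,k0,k0,k0],[k0,k0,k0,k0,k0,k0,k0,k0,(nat_lit 216),(nat_lit 216),k0,k32],[k0,k0,k0,k0,k0,k0,k0,k0,k0,k0,k0,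
    k64],[k0,k0,k0,k0,k0,k0,k0,(nat_lit 216),k0,k0,k152,k0],[k0,k0,k0,k0,k0,k0,k0,(nat_lit 216),k0,k0,k152,k0],[k0,k0,
    k0,k0,k0,k0,k64,k32,k0,k0,k0,k0],[k0,k0,k0,k0,k0,k0,k0,k0,k152,k152,k0,k0]] (nat_lit 1920) k6
    [[(k1,(nat_lit 384)),(k8,(nat_lit 416)),(k9,(nat_lit 416)),(k11,(nat_lit 416)),(k10,(nat_lit 448)),(k6,
    (nat_lit 480))],[(k5,(nat_lit 384)),(k2,(nat_lit 486)),(k0,(nat_lit 576)),(k3,(nat_lit 696)),(k4,(nat_lit 736)),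
    (k7,(nat_lit 1440))],[(k4,(nat_lit 384)),(k5,(nat_lit 606)),(k0,(nat_lit 696)),(k2,(nat_lit 708)),(k3,
    (nat_lit 816)),(k7,(nat_lit 1088))],[(k7,(nat_lit 384)),(k2,(nat_lit 396)),(k5,(nat_lit 396)),(k0,(nat_lit 486)),
    (k3,(nat_lit 708)),(k4,(nat_lit 1140))],[(k0,(nat_lit 384)),(k7,(nat_lit 384)),(k2,(nat_lit 396)),(k5,
    (nat_lit 396)),(k3,(nat_lit 606)),(k4,(nat_lit 1140))],[(k3,(nat_lit 384)),(k0,(nat_lit 736)),(k4,(nat_lit 918)),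
    (k7,(nat_lit 1128)),(k2,(nat_lit 1140)),(k5,(nat_lit 1140))],[(k2,(nat_lit 384)),(k5,(nat_lit 384)),(k3,
    (nat_lit 1088)),(k4,(nat_lit 1128)),(k7,(nat_lit 1338)),(k0,(nat_lit 1440))],[(k8,(nat_lit 384)),(k11,
    (nat_lit 384)),(k9,(nat_lit 416)),(k6,(nat_lit 448)),(k10,(nat_lit 448)),(k1,(nat_lit 480))],[(k9,(nat_lit 384)),
    (k10,(nat_lit 384)),(k1,(nat_lit 416)),(k6,(nat_lit 416)),(k8,(nat_lit 784)),(k11,(nat_lit 784))],[(k6,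
    (nat_lit 384)),(k1,(nat_lit 416)),(k8,(nat_lit 752)),(k11,(nat_lit 752)),(k9,(nat_lit 784)),(k10,(nat_lit 784))],
    [(k6,(nat_lit 384)),(k1,(nat_lit 416)),(k8,(nat_lit 752)),(k11,(nat_lit 752)),(k9,(nat_lit 784)),(k10,
    (nat_lit 784))],[(k9,(nat_lit 384)),(k1,(nat_lit 448)),(k6,(nat_lit 448)),(k10,(nat_lit 512)),(k8,(nat_lit 784)),
    (k11,(nat_lit 784))]]
    [[k2,k1,k0,k0,k0,k0],[k2,k1,k1,k0,k0,k0],[k2,k0,k1,k0,k0,k0],[k1,k1,k0,k1,k0,k0],[k1,k1,k1,k1,k0,k0],[k1,k0,k1,k1,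
    k0,k0],[k2,k0,k0,k0,k1,k0],[k1,k1,k0,k1,k1,k0],[k2,k0,k0,k0,k2,k0],[k2,k0,k0,k0,k1,k1],[k2,k0,k0,k0,k0,k1],[k1,k1,
    k0,k1,k0,k1],[k0,k2,k1,k0,k0,k0],[k0,k2,k2,k0,k0,k0],[k0,k1,k1,k2,k0,k0]]
    [.contra [z1,y1],.contra [z1,y1],.contra [z1,y1],.contra [z1,z0,y1],.contra [z1,z0,y1],.contra [z1,z0,y1],
    .contra [z1,z1],.contra [z1,z0,y1],.contra [z1,z2],.contra [z1,y1],.contra [z1,y1],.contra [z1,z0,y1],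
    .ref k7 k1 [(z1,[z0,z1]),(z1,[z1,z0,z1,y1])],.ref k8 k2 [(z1,[z0,y1,z2]),(z2,[z1])],.ref k11 k3 [(z1,[y1,z0,z2]),
    (z1,[z1,z1,y3,z1])]],
    .base (.geo z9 k0 [(z8,z0),(z2,z0),(z8,z0),(z10,z0),(z2,z0),(z6,z0)] [(z1,[z1]),(z1,[z0,z1]),(z1,[z0,z0,z1]),(z1,
    [y1,z0,z0,z0,z9]),(z1,[z0,z0,z0,z1]),(z1,[z0,y1,y1,y1,y9,z9])] k1),
    .base (.geo z9 k0 [(z7,z0),(z4,z0),(z4,z0),(z11,z0),(z4,z0),(z6,z0)] [(z1,[z1]),(z1,[z0,z1]),(z1,[z0,z0,z1]),(z1,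
    [y1,z0,z0,z0,z9]),(z1,[z0,z0,z0,z1]),(z1,[z0,y1,y1,y1,y9,z9])] k1),
    .base (.leafM k4 [k2,k4,k5,k1] [(z3,[z0,y1,y1,z0,y3,z3])] [(k3,k0,z1,[z0,z0,z0,z0,z1]),(k0,k3,z1,[z0,z0,z0,z0,
    z1])]),
    .lp k0 [(nat_lit 1226),(nat_lit 1202),(nat_lit 1344),(nat_lit 1536),(nat_lit 1388),(nat_lit 968)] [k187,k187,
    (nat_lit 224),k174,k32,(nat_lit 224),k32,k32,(nat_lit 212),k0,(nat_lit 380),(nat_lit 252)] k0 [[k0,k0,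
    (nat_lit 234),(nat_lit 298),k0,k0,k0,k0,k0,k0,k0,k0],[k0,k0,k0,k0,(nat_lit 278),(nat_lit 626),k0,k0,k0,k0,k0,k0],
    [k0,(nat_lit 298),k0,k0,(nat_lit 576),k0,k0,k0,k0,k0,k0,k0],[k0,(nat_lit 234),k0,k0,(nat_lit 576),k0,k0,k0,k0,k0,
    k0,k0],[(nat_lit 626),k0,k0,k0,k0,(nat_lit 348),k0,k0,k0,k0,k0,k0],[(nat_lit 278),k0,(nat_lit 576),(nat_lit 576),
    k0,k0,k0,k0,k0,k0,k0,k0],[k0,k0,k0,k0,k0,k0,k0,k0,(nat_lit 548),(nat_lit 548),k0,k0],[k0,k0,k0,k0,k0,k0,k0,k0,k0,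
    k0,k0,(nat_lit 452)],[k0,k0,k0,k0,k0,k0,k0,(nat_lit 548),k0,k0,k0,k0],[k0,k0,k0,k0,k0,k0,k0,(nat_lit 548),k0,k0,
    k96,k0],[k0,k0,k0,k0,k0,k0,(nat_lit 452),k0,k0,k0,k0,k0],[k0,k0,k0,k0,k0,k0,k0,k0,k96,k0,k0,k0]] (nat_lit 3840) k6
    [[(k10,(nat_lit 1033)),(k11,(nat_lit 1065)),(k8,(nat_lit 1201)),(k1,(nat_lit 1226)),(k9,(nat_lit 1413)),(k6,
    (nat_lit 1833))],[(k2,(nat_lit 891)),(k5,(nat_lit 955)),(k0,(nat_lit 1226)),(k3,(nat_lit 1239)),(k4,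
    (nat_lit 1659)),(k7,(nat_lit 2007))],[(k4,(nat_lit 768)),(k7,(nat_lit 1116)),(k0,(nat_lit 1239)),(k3,
    (nat_lit 1252)),(k2,(nat_lit 1436)),(k5,(nat_lit 1500))],[(k7,(nat_lit 768)),(k0,(nat_lit 891)),(k2,
    (nat_lit 1152)),(k5,(nat_lit 1152)),(k3,(nat_lit 1436)),(k4,(nat_lit 1920))],[(k7,(nat_lit 768)),(k0,
    (nat_lit 955)),(k2,(nat_lit 1152)),(k5,(nat_lit 1152)),(k3,(nat_lit 1500)),(k4,(nat_lit 1920))],[(k3,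
    (nat_lit 768)),(k4,(nat_lit 1188)),(k7,(nat_lit 1536)),(k0,(nat_lit 1659)),(k2,(nat_lit 1920)),(k5,
    (nat_lit 1920))],[(k2,(nat_lit 768)),(k5,(nat_lit 768)),(k3,(nat_lit 1116)),(k4,(nat_lit 1536)),(k7,
    (nat_lit 1884)),(k0,(nat_lit 2007))],[(k11,(nat_lit 768)),(k8,(nat_lit 808)),(k10,(nat_lit 1188)),(k6,
    (nat_lit 1536)),(k9,(nat_lit 1568)),(k1,(nat_lit 1833))],[(k10,(nat_lit 768)),(k1,(nat_lit 1413)),(k6,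
    (nat_lit 1568)),(k9,(nat_lit 1600)),(k11,(nat_lit 1896)),(k8,(nat_lit 1936))],[(k6,(nat_lit 808)),(k10,
    (nat_lit 1104)),(k11,(nat_lit 1136)),(k8,(nat_lit 1176)),(k1,(nat_lit 1201)),(k9,(nat_lit 1936))],[(k6,
    (nat_lit 768)),(k10,(nat_lit 968)),(k1,(nat_lit 1065)),(k11,(nat_lit 1096)),(k8,(nat_lit 1136)),(k9,
    (nat_lit 1896))],[(k9,(nat_lit 768)),(k10,(nat_lit 840)),(k11,(nat_lit 968)),(k1,(nat_lit 1033)),(k8,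
    (nat_lit 1104)),(k6,(nat_lit 1188))]]
    [[k2,k1,k0,k0,k0,k0],[k2,k0,k0,k0,k0,k1],[k1,k0,k0,k1,k0,k1],[k1,k1,k0,k1,k0,k1],[k0,k2,k1,k0,k0,k0],[k0,k1,k0,k2,
    k0,k0],[k0,k0,k0,k0,k2,k2],[k0,k0,k0,k0,k1,k2],[k0,k0,k0,k0,k0,k3]]
    [.contra [z8,y6,y1],.contra [z1,z1],.contra [z1,z1,z0,z0,y1],.contra [z8,z2,y1,z0,y8],.ref k13 k2 [(z2,[z3,y9,y2,
    y3,z18]),(z1,[y3,z0,z2,z12]),(z1,[z6,z0,y1,y6]),(z1,[y3,z0,z2,z3])],.ref k14 k2 [(z2,[z3,y6,y1,z0,z12]),(z1,[y3,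
    y3,z1,z9,z6]),(z1,[z6,z6,z1,z0,y12]),(z1,[y3,y3,z1,z0,z6])],.ref k15 k2 [(z2,[y3,y6,y2,y6,z6,z6]),(z2,[z3,z0,z2,
    z12,z6,y6]),(z1,[y3,z0,y1,y6,y6,z6]),(z2,[z3,z0,z2,z6,z6,y6])],.contra [y1,z0,z0,y1,y1,z1],.contra [y2,z0,z1]],
    .base (.leafM k4 [k2,k4,k5,k1] [(z3,[z0,y1,y1,y3,z3])] [(k3,k0,z1,[z0,z0,z0,z1]),(k0,k3,z1,[z0,z0,z0,z1])]),
    .base (.geo z6 k5 [(z6,z3),(z4,y12),(z4,z6),(z6,y3),(z4,z0),(z0,z6)] [(z1,[z3]),(z1,[z0,z2]),(z1,[z0,z0,z2]),(z1,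
    [y3,z0,z0,z6]),(z1,[z0,y2,y2,y6,z6]),(z1,[])] k8),
    .base (.geo z6 k4 [(z4,z3),(z4,z0),(z4,y6),(z8,y3),(z0,z6),(z4,z0)] [(z1,[z1]),(z1,[z0,z2]),(z1,[z0,z0,z2]),(z1,
    [y1,z0,z0,z6]),(z1,[]),(z1,[z0,y2,y2,y6,z6])] k8),
    .lp k0 [(nat_lit 1226),(nat_lit 1202),(nat_lit 1344),(nat_lit 1536),(nat_lit 1388),(nat_lit 968)] [k187,k187,
    (nat_lit 224),k174,k32,(nat_lit 224),k32,k32,(nat_lit 212),k0,(nat_lit 380),(nat_lit 252)] k0 [[k0,k0,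
    (nat_lit 234),(nat_lit 298),k0,k0,k0,k0,k0,k0,k0,k0],[k0,k0,k0,k0,(nat_lit 278),(nat_lit 626),k0,k0,k0,k0,k0,k0],
    [k0,(nat_lit 298),k0,k0,(nat_lit 576),k0,k0,k0,k0,k0,k0,k0],[k0,(nat_lit 234),k0,k0,(nat_lit 576),k0,k0,k0,k0,k0,
    k0,k0],[(nat_lit 626),k0,k0,k0,k0,(nat_lit 348),k0,k0,k0,k0,k0,k0],[(nat_lit 278),k0,(nat_lit 576),(nat_lit 576),
    k0,k0,k0,k0,k0,k0,k0,k0],[k0,k0,k0,k0,k0,k0,k0,k0,(nat_lit 548),(nat_lit 548),k0,k0],[k0,k0,k0,k0,k0,k0,k0,k0,k0,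
    k0,k0,(nat_lit 452)],[k0,k0,k0,k0,k0,k0,k0,(nat_lit 548),k0,k0,k0,k0],[k0,k0,k0,k0,k0,k0,k0,(nat_lit 548),k0,k0,
    k96,k0],[k0,k0,k0,k0,k0,k0,(nat_lit 452),k0,k0,k0,k0,k0],[k0,k0,k0,k0,k0,k0,k0,k0,k96,k0,k0,k0]] (nat_lit 3840) k6
    [[(k10,(nat_lit 1033)),(k11,(nat_lit 1065)),(k8,(nat_lit 1201)),(k1,(nat_lit 1226)),(k9,(nat_lit 1413)),(k6,
    (nat_lit 1833))],[(k2,(nat_lit 891)),(k5,(nat_lit 955)),(k0,(nat_lit 1226)),(k3,(nat_lit 1239)),(k4,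
    (nat_lit 1659)),(k7,(nat_lit 2007))],[(k4,(nat_lit 768)),(k7,(nat_lit 1116)),(k0,(nat_lit 1239)),(k3,
    (nat_lit 1252)),(k2,(nat_lit 1436)),(k5,(nat_lit 1500))],[(k7,(nat_lit 768)),(k0,(nat_lit 891)),(k2,
    (nat_lit 1152)),(k5,(nat_lit 1152)),(k3,(nat_lit 1436)),(k4,(nat_lit 1920))],[(k7,(nat_lit 768)),(k0,
    (nat_lit 955)),(k2,(nat_lit 1152)),(k5,(nat_lit 1152)),(k3,(nat_lit 1500)),(k4,(nat_lit 1920))],[(k3,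
    (nat_lit 768)),(k4,(nat_lit 1188)),(k7,(nat_lit 1536)),(k0,(nat_lit 1659)),(k2,(nat_lit 1920)),(k5,
    (nat_lit 1920))],[(k2,(nat_lit 768)),(k5,(nat_lit 768)),(k3,(nat_lit 1116)),(k4,(nat_lit 1536)),(k7,
    (nat_lit 1884)),(k0,(nat_lit 2007))],[(k11,(nat_lit 768)),(k8,(nat_lit 808)),(k10,(nat_lit 1188)),(k6,
    (nat_lit 1536)),(k9,(nat_lit 1568)),(k1,(nat_lit 1833))],[(k10,(nat_lit 768)),(k1,(nat_lit 1413)),(k6,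
    (nat_lit 1568)),(k9,(nat_lit 1600)),(k11,(nat_lit 1896)),(k8,(nat_lit 1936))],[(k6,(nat_lit 808)),(k10,
    (nat_lit 1104)),(k11,(nat_lit 1136)),(k8,(nat_lit 1176)),(k1,(nat_lit 1201)),(k9,(nat_lit 1936))],[(k6,
    (nat_lit 768)),(k10,(nat_lit 968)),(k1,(nat_lit 1065)),(k11,(nat_lit 1096)),(k8,(nat_lit 1136)),(k9,
    (nat_lit 1896))],[(k9,(nat_lit 768)),(k10,(nat_lit 840)),(k11,(nat_lit 968)),(k1,(nat_lit 1033)),(k8,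
    (nat_lit 1104)),(k6,(nat_lit 1188))]]
    [[k2,k1,k0,k0,k0,k0],[k2,k0,k0,k0,k0,k1],[k1,k0,k0,k1,k0,k1],[k1,k1,k0,k1,k0,k1],[k0,k2,k1,k0,k0,k0],[k0,k1,k0,k2,
    k0,k0],[k0,k0,k0,k0,k2,k2],[k0,k0,k0,k0,k1,k2],[k0,k0,k0,k0,k0,k3]]
    [.ref k9 k1 [(z2,[z3,z0,y1]),(z1,[z0,z0,z1]),(z1,[y3,z1,z0,y3,z3])],.ref k16 k0 [(z3,[z0,y1,z1,z9,y3]),(z1,[y3,z1,
    y2,y6,z6]),(z3,[z3,y1,z1,z3,y3])],.contra [z1,z0,z0,y1],.contra [z1,z0,z0,y1],.ref k9 k1 [(z2,[y3,z1,z1,y3,z3]),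
    (z1,[z0,z0,z1]),(z1,[z3,z0,y2])],.contra [z3,z1,y1,y9,z3],.ref k17 k1 [(z2,[z3,z2]),(z1,[z0,z0,z1]),(z2,[y3,z0,y2,
    y6,z6])],.ref k18 k0 [(z3,[z0,y1,z1,z9,y3]),(z1,[y3,z0,y2,y6,z6]),(z1,[z3,z0,z1,z3,y3])],.ref k19 k1 [(z1,[z1,
    z1]),(z1,[z0,z0,z1]),(z1,[y1,z0,y1,y3,z3])]],
    .lp (nat_lit 4097) [(nat_lit 1612),(nat_lit 1397),(nat_lit 1397),(nat_lit 2144),(nat_lit 1781),
    (nat_lit 1269)] [k60,(nat_lit 592),(nat_lit 355),(nat_lit 512),(nat_lit 512),(nat_lit 355),k60,k60,(nat_lit 483),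
    k0,(nat_lit 512),(nat_lit 483)] k0 [[k0,k0,(nat_lit 885),(nat_lit 885),k0,k0,k0,k0,k0,k0,k0,k0],[(nat_lit 276),k0,
    k0,k0,k0,(nat_lit 276),k0,k0,k0,k0,k0,k0],[k0,(nat_lit 885),k0,k0,(nat_lit 885),k0,k0,k0,k0,k0,k0,k0],[k0,
    (nat_lit 885),k0,k0,(nat_lit 885),k0,k0,k0,k0,k0,k0,k0],[(nat_lit 276),k0,k0,k0,k0,k0,k0,k0,k0,k0,k0,k0],[k0,k0,
    (nat_lit 885),(nat_lit 885),k0,k0,k0,k0,k0,k0,k0,k0],[k0,k0,k0,k0,k0,k0,k0,k0,(nat_lit 757),(nat_lit 757),k0,k0],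
    [k0,k0,k0,k0,k0,k0,k0,k0,k0,k0,k0,(nat_lit 788)],[k0,k0,k0,k0,k0,k0,k0,(nat_lit 757),k0,k0,k31,k31],[k0,k0,k0,k0,
    k0,k0,k0,(nat_lit 757),k0,k0,k0,k0],[k0,k0,k0,k0,k0,k0,(nat_lit 788),k0,k0,k31,k0,k0],[k0,k0,k0,k0,k0,k0,k0,k0,k0,
    k31,k0,k0]] (nat_lit 4800) k6
    [[(k1,(nat_lit 1080)),(k8,(nat_lit 1158)),(k10,(nat_lit 1160)),(k11,(nat_lit 1220)),(k9,(nat_lit 1672)),(k6,
    (nat_lit 2400))],[(k2,(nat_lit 964)),(k5,(nat_lit 964)),(k3,(nat_lit 1692)),(k4,(nat_lit 1692)),(k0,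
    (nat_lit 2420)),(k7,(nat_lit 2420))],[(k3,(nat_lit 964)),(k4,(nat_lit 964)),(k0,(nat_lit 1692)),(k7,
    (nat_lit 1692)),(k2,(nat_lit 2282)),(k5,(nat_lit 2282))],[(k0,(nat_lit 964)),(k7,(nat_lit 964)),(k2,
    (nat_lit 1554)),(k5,(nat_lit 1554)),(k3,(nat_lit 2282)),(k4,(nat_lit 2282))],[(k0,(nat_lit 964)),(k7,
    (nat_lit 964)),(k2,(nat_lit 1554)),(k5,(nat_lit 1554)),(k3,(nat_lit 2282)),(k4,(nat_lit 2282))],[(k3,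
    (nat_lit 964)),(k4,(nat_lit 1240)),(k0,(nat_lit 1692)),(k7,(nat_lit 1692)),(k2,(nat_lit 2282)),(k5,
    (nat_lit 2282))],[(k2,(nat_lit 964)),(k5,(nat_lit 964)),(k3,(nat_lit 1692)),(k4,(nat_lit 1692)),(k7,
    (nat_lit 2144)),(k0,(nat_lit 2420))],[(k8,(nat_lit 964)),(k11,(nat_lit 964)),(k10,(nat_lit 1692)),(k6,
    (nat_lit 2144)),(k9,(nat_lit 2204)),(k1,(nat_lit 2400))],[(k10,(nat_lit 964)),(k1,(nat_lit 1672)),(k6,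
    (nat_lit 2204)),(k9,(nat_lit 2264)),(k8,(nat_lit 2538)),(k11,(nat_lit 2538))],[(k6,(nat_lit 964)),(k1,
    (nat_lit 1158)),(k10,(nat_lit 1238)),(k8,(nat_lit 1298)),(k11,(nat_lit 1298)),(k9,(nat_lit 2538))],[(k6,
    (nat_lit 964)),(k1,(nat_lit 1220)),(k8,(nat_lit 1298)),(k11,(nat_lit 1298)),(k10,(nat_lit 1300)),(k9,
    (nat_lit 2538))],[(k9,(nat_lit 964)),(k1,(nat_lit 1160)),(k8,(nat_lit 1238)),(k10,(nat_lit 1240)),(k11,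
    (nat_lit 1300)),(k6,(nat_lit 1692))]]
    [[k2,k1,k0,k0,k0,k0],[k2,k2,k0,k0,k0,k0],[k2,k1,k1,k0,k0,k0],[k2,k0,k1,k0,k0,k0],[k2,k0,k2,k0,k0,k0],[k1,k0,k0,k1,
    k0,k1],[k1,k1,k0,k1,k0,k1],[k1,k0,k1,k1,k0,k1],[k0,k0,k0,k0,k2,k2],[k0,k0,k0,k0,k1,k2],[k0,k0,k0,k0,k0,k3]]
    [.contra [z3,y3,y2,y1,y3,z3],.contra [z6,y3,y5,y1,y3,z3],.contra [z2,y1,y1,y1,y1,z1],.contra [z3,y3,y1,y2,y3,z3],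
    .contra [z6,y3,y1,y5,y3,z3],.contra [y1,z1,z0,z0,z1],.contra [z1,z0,z0,z0,y1],.contra [z3,z0,z1,y1,y3],
    .contra [z3,z0,z4,z2,z6,y6],.contra [y2,z1,y1,y1,y3,z3],.contra [y1,z0,y1,y1,y3,z3]],
    .base (.leafM k4 [k2,k4,k5,k1] [(z3,[z0,y1,y1,y3,z3])] [(k3,k0,z1,[z0,z0,z0,z1]),(k0,k3,z1,[z0,z0,z0,z1])]),
    .base (.geo z12 k0 [(z9,z0),(z6,z0),(z9,z0),(z15,z0),(z1,z0),(z8,z0)] [(z1,[z3]),(z1,[z0,z6]),(z1,[z0,z0,z3]),(z1,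
    [y3,z0,z0,z0,z12]),(z1,[z0,z0,z0,z1]),(z1,[z0,y6,y3,y1,y12,z12])] k1)]

theorem hB6_125_1 : blkB [0, 0, 0, 1, 1, 1] [(0, 3)] sp6 hS6_125 (pcls (n := 6) [0, 0, 0, 1, 1, 1]) hD6_125 107 1 hN6_125_1 = true := by
  decide +kernel

/-- nodes 24 to 35 -/
noncomputable def hN6_125_2 : List HM :=
  [.base (.geo z15 k0 [(z12,z0),(z6,z0),(z12,z0),(z18,z0),(z2,z0),(z10,z0)] [(z1,[z3]),(z1,[z0,z3]),(z1,[z0,z0,z3]),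
    (z1,[y3,z0,z0,z0,z15]),(z1,[z0,z0,z0,z1]),(z1,[z0,y3,y3,y1,y15,z15])] k1),
    .lp k0 [(nat_lit 503),(nat_lit 288),(nat_lit 588),(nat_lit 558),(nat_lit 503),(nat_lit 434)] [k148,k37,
    (nat_lit 200),(nat_lit 200),k0,k100,k106,k24,k103,k82,k139,k115] k0 [[k0,k0,k0,k0,k0,(nat_lit 212),k0,k0,k0,k0,k0,
    k0],[k0,k0,k24,k0,k0,(nat_lit 200),k0,k0,k0,k0,k0,k0],[k0,k0,k0,k0,k176,k0,k0,k0,k0,k0,k0,k0],[k24,k0,k0,k0,k176,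
    k0,k0,k0,k0,k0,k0,k0],[(nat_lit 200),(nat_lit 212),k0,k0,k0,k0,k0,k0,k0,k0,k0,k0],[k0,k0,k176,k176,k0,k0,k0,k0,k0,
    k0,k0,k0],[k0,k0,k0,k0,k0,k0,k0,k0,k179,k179,k0,k0],[k0,k0,k0,k0,k0,k0,k0,k0,k0,k0,k69,k179],[k0,k0,k0,k0,k0,k0,
    k0,k179,k0,k0,(nat_lit 260),k0],[k0,k0,k0,k0,k0,k0,k0,k179,k0,k0,k0,k0],[k0,k0,k0,k0,k0,k0,k179,k0,k0,k0,k0,k122],
    [k0,k0,k0,k0,k0,k0,k69,k0,k0,(nat_lit 260),k0,k0]] (nat_lit 1440) k6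
    [[(k8,(nat_lit 288)),(k9,(nat_lit 500)),(k10,(nat_lit 512)),(k11,(nat_lit 536)),(k6,(nat_lit 724)),(k1,
    (nat_lit 736))],[(k4,(nat_lit 328)),(k3,(nat_lit 340)),(k2,(nat_lit 364)),(k0,(nat_lit 392)),(k5,(nat_lit 440)),
    (k7,(nat_lit 716))],[(k2,(nat_lit 288)),(k3,(nat_lit 288)),(k4,(nat_lit 288)),(k0,(nat_lit 340)),(k5,
    (nat_lit 364)),(k7,(nat_lit 676))],[(k2,(nat_lit 288)),(k3,(nat_lit 288)),(k7,(nat_lit 288)),(k0,(nat_lit 364)),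
    (k5,(nat_lit 388)),(k4,(nat_lit 664))],[(k3,(nat_lit 364)),(k2,(nat_lit 388)),(k7,(nat_lit 388)),(k0,
    (nat_lit 440)),(k5,(nat_lit 488)),(k4,(nat_lit 764))],[(k3,(nat_lit 288)),(k0,(nat_lit 328)),(k2,(nat_lit 664)),
    (k7,(nat_lit 664)),(k4,(nat_lit 688)),(k5,(nat_lit 764))],[(k2,(nat_lit 288)),(k5,(nat_lit 388)),(k7,
    (nat_lit 640)),(k4,(nat_lit 664)),(k3,(nat_lit 676)),(k0,(nat_lit 716))],[(k11,(nat_lit 288)),(k8,(nat_lit 300)),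
    (k6,(nat_lit 476)),(k9,(nat_lit 500)),(k10,(nat_lit 512)),(k1,(nat_lit 724))],[(k10,(nat_lit 288)),(k1,
    (nat_lit 500)),(k6,(nat_lit 500)),(k9,(nat_lit 524)),(k11,(nat_lit 670)),(k8,(nat_lit 682))],[(k1,(nat_lit 288)),
    (k6,(nat_lit 300)),(k10,(nat_lit 446)),(k11,(nat_lit 470)),(k8,(nat_lit 482)),(k9,(nat_lit 682))],[(k6,
    (nat_lit 288)),(k11,(nat_lit 458)),(k8,(nat_lit 470)),(k1,(nat_lit 536)),(k9,(nat_lit 670)),(k10,(nat_lit 694))],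
    [(k9,(nat_lit 288)),(k10,(nat_lit 288)),(k8,(nat_lit 446)),(k1,(nat_lit 512)),(k6,(nat_lit 512)),(k11,
    (nat_lit 694))]]
    [[k1,k1,k0,k1,k0,k0],[k2,k0,k0,k0,k1,k0],[k1,k1,k0,k1,k1,k0],[k1,k1,k0,k1,k0,k1],[k0,k3,k0,k0,k0,k0],[k0,k4,k0,k0,
    k0,k0],[k0,k3,k1,k0,k0,k0],[k0,k2,k1,k0,k0,k0],[k0,k2,k0,k2,k0,k0],[k0,k2,k2,k0,k0,k0],[k0,k0,k0,k0,k1,k2]]
    [.contra [y3,z2,z1,z0,z3],.ref k13 k1 [(z1,[z3,z1]),(z1,[y6,z4,z3]),(z1,[z3,y2,z0,z3]),(z1,[z3,y2])],.contra [z9,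
    z1,y1,z0,y9],.contra [z9,z2,z4,z3,z0,y9],.contra [y1,z0,z1],.ref k23 k1 [(z6,[y3,z8,z4]),(z2,[z1]),(z6,[y3,z0,z4,
    z8]),(z2,[y3,z0,z4])],.ref k24 k1 [(z3,[y3,z5,z3,z1]),(z3,[z6,z0,y1,y2]),(z1,[y1,z0,z1,z2]),(z1,[y3,z0,z3,z1])],
    .contra [y3,z0,z2,z1],.contra [y3,z4,z2,z0,z6],.contra [y3,z2,z2,z2],.contra [y9,z1,y4,y6,y18,z18]],
    .base (.geo z9 k0 [(z7,z0),(z4,z0),(z6,z0),(z11,z0),(z2,z0),(z6,z0)] [(z1,[z1]),(z1,[z0,z1]),(z1,[z0,z0,z3]),(z1,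
    [y1,z0,z0,z0,z9]),(z1,[z0,z0,z0,z1]),(z1,[z0,y1,y3,y1,y9,z9])] k1),
    .base (.geo z12 k0 [(z11,z0),(z2,z0),(z8,z0),(z13,z0),(z6,z0),(z8,z0)] [(z1,[z1]),(z1,[z0,z2]),(z1,[z0,z0,z4]),
    (z1,[y1,z0,z0,z0,z12]),(z1,[z0,z0,z0,z6]),(z1,[z0,y2,y4,y6,y12,z12])] k1),
    .base (.geo z9 k0 [(z8,z0),(z2,z0),(z6,z0),(z10,z0),(z4,z0),(z6,z0)] [(z1,[z1]),(z1,[z0,z1]),(z1,[z0,z0,z3]),(z1,
    [y1,z0,z0,z0,z9]),(z1,[z0,z0,z0,z1]),(z1,[z0,y1,y3,y1,y9,z9])] k1),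
    .lp (nat_lit 4097) [(nat_lit 854),(nat_lit 698),(nat_lit 848),(nat_lit 957),(nat_lit 482),(nat_lit 961)] [k176,
    k50,(nat_lit 246),k136,k116,k116,k123,k0,(nat_lit 299),(nat_lit 299),k16,k103] k0 [[k0,k0,(nat_lit 306),k6,k0,
    k140,k0,k0,k0,k0,k0,k0],[k0,k0,k0,k0,k0,(nat_lit 346),k0,k0,k0,k0,k0,k0],[k0,k6,k0,k0,(nat_lit 352),k0,k0,k0,k0,
    k0,k0,k0],[k0,(nat_lit 306),k0,k0,(nat_lit 352),k0,k0,k0,k0,k0,k0,k0],[(nat_lit 346),k140,k0,k0,k0,k0,k0,k0,k0,k0,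
    k0,k0],[k0,k0,(nat_lit 352),(nat_lit 352),k0,k0,k0,k0,k0,k0,k0,k0],[k0,k0,k0,k0,k0,k0,k0,k0,k0,k0,k0,
    (nat_lit 459)],[k0,k0,k0,k0,k0,k0,k0,k0,k4,k0,k0,(nat_lit 253)],[k0,k0,k0,k0,k0,k0,k0,k0,k0,k0,(nat_lit 249),k0],
    [k0,k0,k0,k0,k0,k0,k4,k0,k0,k0,(nat_lit 249),k0],[k0,k0,k0,k0,k0,k0,(nat_lit 253),(nat_lit 459),k0,k0,k0,k0],[k0,
    k0,k0,k0,k0,k0,k0,k0,(nat_lit 249),(nat_lit 249),k0,k0]] (nat_lit 2400) k6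
    [[(k8,(nat_lit 482)),(k11,(nat_lit 678)),(k1,(nat_lit 980)),(k10,(nat_lit 1014)),(k6,(nat_lit 1160)),(k9,
    (nat_lit 1190))],[(k5,(nat_lit 482)),(k4,(nat_lit 648)),(k2,(nat_lit 652)),(k0,(nat_lit 728)),(k3,(nat_lit 768)),
    (k7,(nat_lit 1250))],[(k4,(nat_lit 482)),(k0,(nat_lit 768)),(k3,(nat_lit 808)),(k5,(nat_lit 834)),(k2,
    (nat_lit 1004)),(k7,(nat_lit 1084))],[(k7,(nat_lit 482)),(k2,(nat_lit 588)),(k0,(nat_lit 652)),(k5,(nat_lit 718)),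
    (k3,(nat_lit 1004)),(k4,(nat_lit 1070))],[(k0,(nat_lit 482)),(k7,(nat_lit 612)),(k2,(nat_lit 718)),(k3,
    (nat_lit 834)),(k5,(nat_lit 848)),(k4,(nat_lit 1200))],[(k3,(nat_lit 482)),(k0,(nat_lit 648)),(k4,(nat_lit 848)),
    (k7,(nat_lit 964)),(k2,(nat_lit 1070)),(k5,(nat_lit 1200))],[(k2,(nat_lit 482)),(k5,(nat_lit 612)),(k4,
    (nat_lit 964)),(k7,(nat_lit 1080)),(k3,(nat_lit 1084)),(k0,(nat_lit 1250))],[(k10,(nat_lit 482)),(k9,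
    (nat_lit 658)),(k8,(nat_lit 662)),(k6,(nat_lit 834)),(k11,(nat_lit 854)),(k1,(nat_lit 1160))],[(k8,(nat_lit 482)),
    (k9,(nat_lit 482)),(k10,(nat_lit 512)),(k6,(nat_lit 658)),(k11,(nat_lit 674)),(k1,(nat_lit 1190))],[(k1,
    (nat_lit 482)),(k8,(nat_lit 482)),(k9,(nat_lit 482)),(k6,(nat_lit 662)),(k11,(nat_lit 678)),(k10,(nat_lit 1014))],
    [(k9,(nat_lit 674)),(k1,(nat_lit 678)),(k8,(nat_lit 678)),(k6,(nat_lit 854)),(k11,(nat_lit 874)),(k10,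
    (nat_lit 1210))],[(k6,(nat_lit 482)),(k9,(nat_lit 512)),(k1,(nat_lit 1014)),(k8,(nat_lit 1014)),(k10,
    (nat_lit 1048)),(k11,(nat_lit 1210))]]
    [[k2,k0,k1,k0,k0,k0],[k1,k0,k0,k1,k1,k0],[k1,k1,k0,k1,k1,k0],[k2,k0,k0,k0,k2,k0],[k0,k2,k1,k0,k0,k0],[k0,k0,k0,k0,
    k3,k0],[k0,k0,k0,k0,k4,k0],[k0,k0,k0,k0,k3,k1],[k0,k0,k0,k0,k2,k1],[k0,k0,k0,k0,k2,k2]]
    [.contra [z3,y1,z0,y1],.contra [z1,z0,z0,z0,y1],.contra [y3,z0,z1,z2,z3],.ref k26 k1 [(z2,[z3,z2]),(z1,[y3,z1,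
    z3]),(z1,[z0,z0,z0,z1]),(z1,[z3,y1])],.contra [y3,z0,z2,z1],.contra [z1,z1],.ref k27 k1 [(z2,[z3,z4]),(z2,[y3,z0,
    z4]),(z1,[z0,z0,z0,z1]),(z2,[z1])],.ref k28 k1 [(z2,[z3,z3,z1,z1,z3,y3]),(z1,[y3,z0,z2,y1,y3,z3]),(z1,[z0,z0,z0,
    z1]),(z1,[z3,z0,z1,z1,z3,y3])],.contra [z3,z2,z1,z1,z3,y3],.ref k15 k1 [(z2,[z3,z2,z2,z2,z6,y6]),(z2,[y3,z0,z0,y2,
    y6,z6]),(z1,[z0,z0,z0,z1]),(z2,[z3,z0,z2,z2,z6,y6])]],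
    .lp k0 [(nat_lit 1258),(nat_lit 1170),(nat_lit 1202),(nat_lit 1694),(nat_lit 1372),(nat_lit 968)] [(nat_lit 281),
    (nat_lit 281),(nat_lit 334),(nat_lit 316),(nat_lit 284),(nat_lit 334),k126,k0,(nat_lit 322),k126,(nat_lit 490),
    (nat_lit 362)] k0 [[k0,k0,(nat_lit 330),(nat_lit 266),k0,k0,k0,k0,k0,k0,k0,k0],[k0,k0,k0,k0,k0,(nat_lit 452),k0,
    k0,k0,k0,k0,k0],[k0,(nat_lit 266),k0,k0,(nat_lit 718),k0,k0,k0,k0,k0,k0,k0],[k0,(nat_lit 330),k0,k0,(nat_lit 718),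
    k0,k0,k0,k0,k0,k0,k0],[(nat_lit 452),k0,k0,k0,k0,k0,k0,k0,k0,k0,k0,k0],[k0,k0,(nat_lit 718),(nat_lit 718),k0,k0,
    k0,k0,k0,k0,k0,k0],[k0,k0,k0,k0,k0,k0,k0,k0,(nat_lit 564),(nat_lit 564),k0,k0],[k0,k0,k0,k0,k0,k0,k0,k0,k0,k0,k48,
    (nat_lit 436)],[k0,k0,k0,k0,k0,k0,k0,(nat_lit 564),k0,k0,k0,k0],[k0,k0,k0,k0,k0,k0,k0,(nat_lit 564),k0,k0,k128,
    k0],[k0,k0,k0,k0,k0,k0,(nat_lit 436),k0,k0,k0,k0,k0],[k0,k0,k0,k0,k0,k0,k48,k0,k128,k0,k0,k0]] (nat_lit 3840) k6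
    [[(k10,(nat_lit 1049)),(k11,(nat_lit 1049)),(k8,(nat_lit 1217)),(k1,(nat_lit 1258)),(k9,(nat_lit 1365)),(k6,
    (nat_lit 1849))],[(k5,(nat_lit 875)),(k2,(nat_lit 939)),(k3,(nat_lit 1223)),(k4,(nat_lit 1255)),(k0,
    (nat_lit 1258)),(k7,(nat_lit 1991))],[(k4,(nat_lit 768)),(k3,(nat_lit 1188)),(k0,(nat_lit 1223)),(k5,
    (nat_lit 1436)),(k2,(nat_lit 1500)),(k7,(nat_lit 1504))],[(k7,(nat_lit 768)),(k0,(nat_lit 939)),(k2,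
    (nat_lit 1152)),(k5,(nat_lit 1152)),(k3,(nat_lit 1500)),(k4,(nat_lit 1920))],[(k7,(nat_lit 768)),(k0,
    (nat_lit 875)),(k2,(nat_lit 1152)),(k5,(nat_lit 1152)),(k3,(nat_lit 1436)),(k4,(nat_lit 1920))],[(k3,
    (nat_lit 768)),(k4,(nat_lit 1252)),(k0,(nat_lit 1255)),(k7,(nat_lit 1536)),(k2,(nat_lit 1920)),(k5,
    (nat_lit 1920))],[(k2,(nat_lit 768)),(k5,(nat_lit 768)),(k3,(nat_lit 1504)),(k4,(nat_lit 1536)),(k7,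
    (nat_lit 1820)),(k0,(nat_lit 1991))],[(k11,(nat_lit 768)),(k8,(nat_lit 808)),(k10,(nat_lit 1252)),(k6,
    (nat_lit 1568)),(k9,(nat_lit 1568)),(k1,(nat_lit 1849))],[(k10,(nat_lit 768)),(k1,(nat_lit 1365)),(k6,
    (nat_lit 1568)),(k9,(nat_lit 1568)),(k11,(nat_lit 1896)),(k8,(nat_lit 1936))],[(k6,(nat_lit 808)),(k10,
    (nat_lit 1136)),(k11,(nat_lit 1136)),(k8,(nat_lit 1176)),(k1,(nat_lit 1217)),(k9,(nat_lit 1936))],[(k6,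
    (nat_lit 768)),(k10,(nat_lit 968)),(k1,(nat_lit 1049)),(k11,(nat_lit 1096)),(k8,(nat_lit 1136)),(k9,
    (nat_lit 1896))],[(k9,(nat_lit 768)),(k10,(nat_lit 840)),(k11,(nat_lit 968)),(k1,(nat_lit 1049)),(k8,
    (nat_lit 1136)),(k6,(nat_lit 1252))]]
    [[k2,k1,k0,k0,k0,k0],[k2,k0,k1,k0,k0,k0],[k2,k0,k0,k0,k0,k1],[k1,k0,k0,k1,k0,k1],[k1,k1,k0,k1,k0,k1],[k0,k2,k1,k0,
    k0,k0],[k0,k0,k0,k0,k2,k2],[k0,k0,k0,k0,k1,k2],[k0,k0,k0,k0,k0,k3]]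
    [.contra [z1,y1],.contra [z3,y2,z1,z3,y3],.contra [z1,y1],.contra [z1,z0,z0,y1],.contra [z1,z0,z0,y1],
    .ref k21 k2 [(z1,[z0,y1,z0,z2]),(z1,[z0,z0,y1,y3,z3]),(z2,[z3,z0,z1,z3,y3])],.ref k22 k2 [(z1,[z0,y1,z0,z2]),(z1,
    [z0,z0,y1,y3,z3]),(z2,[y3,z0,z2])],.ref k25 k0 [(z2,[z3,y3,y2,z6]),(z1,[y3,z0,z2]),(z1,[z3,z0,y1])],
    .ref k29 k0 [(z1,[z1,y3,y1,z6]),(z1,[y1,z0,z1]),(z1,[z1])]],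
    .lp (nat_lit 4097) [(nat_lit 2144),(nat_lit 1397),(nat_lit 1554),(nat_lit 1455),(nat_lit 1269),
    (nat_lit 1781)] [k60,k60,(nat_lit 355),(nat_lit 512),(nat_lit 355),(nat_lit 355),(nat_lit 592),(nat_lit 217),
    (nat_lit 483),(nat_lit 512),k0,(nat_lit 483)] k0 [[k0,k0,(nat_lit 885),(nat_lit 885),k0,k0,k0,k0,k0,k0,k0,k0],[k0,
    k0,k0,k0,k0,(nat_lit 433),k0,k0,k0,k0,k0,k0],[k0,(nat_lit 885),k0,k0,(nat_lit 728),k0,k0,k0,k0,k0,k0,k0],[k0,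
    (nat_lit 885),k0,k0,(nat_lit 728),k0,k0,k0,k0,k0,k0,k0],[(nat_lit 433),k0,k0,k0,k0,(nat_lit 590),k0,k0,k0,k0,k0,
    k0],[k0,k0,(nat_lit 728),(nat_lit 728),k0,k0,k0,k0,k0,k0,k0,k0],[k0,k0,k0,k0,k0,k0,k0,k0,k31,k0,k0,k0],[k0,k0,k0,
    k0,k0,k0,k0,k0,k31,k0,k0,(nat_lit 788)],[k0,k0,k0,k0,k0,k0,k0,k0,k0,k0,(nat_lit 757),k0],[k0,k0,k0,k0,k0,k0,k31,
    k31,k0,k0,(nat_lit 757),k0],[k0,k0,k0,k0,k0,k0,(nat_lit 788),k0,k0,k0,k0,k0],[k0,k0,k0,k0,k0,k0,k0,k0,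
    (nat_lit 757),(nat_lit 757),k0,k0]] (nat_lit 4800) k6
    [[(k8,(nat_lit 964)),(k11,(nat_lit 964)),(k9,(nat_lit 1692)),(k1,(nat_lit 2144)),(k10,(nat_lit 2204)),(k6,
    (nat_lit 2400))],[(k2,(nat_lit 964)),(k5,(nat_lit 964)),(k3,(nat_lit 1692)),(k4,(nat_lit 1849)),(k0,
    (nat_lit 2144)),(k7,(nat_lit 2420))],[(k4,(nat_lit 964)),(k3,(nat_lit 1240)),(k7,(nat_lit 1535)),(k0,
    (nat_lit 1692)),(k2,(nat_lit 2282)),(k5,(nat_lit 2282))],[(k0,(nat_lit 964)),(k7,(nat_lit 964)),(k2,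
    (nat_lit 1554)),(k5,(nat_lit 1554)),(k3,(nat_lit 2282)),(k4,(nat_lit 2282))],[(k0,(nat_lit 964)),(k7,
    (nat_lit 964)),(k2,(nat_lit 1554)),(k5,(nat_lit 1554)),(k3,(nat_lit 2282)),(k4,(nat_lit 2282))],[(k3,
    (nat_lit 964)),(k4,(nat_lit 964)),(k7,(nat_lit 1692)),(k0,(nat_lit 1849)),(k2,(nat_lit 2282)),(k5,
    (nat_lit 2282))],[(k2,(nat_lit 964)),(k5,(nat_lit 964)),(k3,(nat_lit 1535)),(k4,(nat_lit 1692)),(k0,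
    (nat_lit 2420)),(k7,(nat_lit 2420))],[(k6,(nat_lit 1080)),(k11,(nat_lit 1158)),(k9,(nat_lit 1160)),(k8,
    (nat_lit 1220)),(k10,(nat_lit 1672)),(k1,(nat_lit 2400))],[(k10,(nat_lit 964)),(k6,(nat_lit 1160)),(k11,
    (nat_lit 1238)),(k9,(nat_lit 1240)),(k8,(nat_lit 1300)),(k1,(nat_lit 1692))],[(k1,(nat_lit 964)),(k6,
    (nat_lit 1220)),(k8,(nat_lit 1298)),(k11,(nat_lit 1298)),(k9,(nat_lit 1300)),(k10,(nat_lit 2538))],[(k1,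
    (nat_lit 964)),(k6,(nat_lit 1158)),(k9,(nat_lit 1238)),(k8,(nat_lit 1298)),(k11,(nat_lit 1298)),(k10,
    (nat_lit 2538))],[(k9,(nat_lit 964)),(k6,(nat_lit 1672)),(k1,(nat_lit 2204)),(k10,(nat_lit 2264)),(k8,
    (nat_lit 2538)),(k11,(nat_lit 2538))]]
    [[k1,k0,k0,k1,k1,k0],[k1,k1,k0,k1,k1,k0],[k1,k0,k1,k1,k1,k0],[k0,k2,k0,k2,k0,k0],[k0,k1,k1,k2,k0,k0],[k0,k1,k0,k2,
    k0,k0],[k0,k0,k1,k2,k0,k0],[k0,k0,k2,k2,k0,k0],[k0,k0,k0,k0,k3,k0],[k0,k0,k0,k0,k2,k1],[k0,k0,k0,k0,k2,k2]]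
    [.contra [z1,z0,z0,z0,y1],.contra [z3,z2,y1,z0,y3],.contra [z3,z2,z0,y1,y3],.contra [y3,z2,z2,z0,z6],.contra [y3,
    z2,z1,z1,z6],.contra [y3,z1,z1,z0,z6],.contra [y3,z1,z0,z1,z6],.contra [y3,z2,z0,z2,z6],.contra [y1,z0,y1,y1,y3,
    z3],.contra [y3,z2,y2,y2,y6,z6],.contra [z3,z1,z2,z2,z6,y6]],
    .lp k0 [(nat_lit 828),(nat_lit 997),(nat_lit 893),(nat_lit 1238),(nat_lit 1046),(nat_lit 752)] [k146,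
    (nat_lit 318),k185,k110,(nat_lit 214),k185,k12,k42,(nat_lit 246),k0,(nat_lit 294),(nat_lit 246)] k0 [[k0,k0,
    (nat_lit 385),(nat_lit 385),k0,k0,k0,k0,k0,k0,k0,k0],[k0,k0,k0,k0,k0,(nat_lit 392),k0,k0,k0,k0,k0,k0],[k0,
    (nat_lit 385),k0,k0,(nat_lit 489),k0,k0,k0,k0,k0,k0,k0],[k0,(nat_lit 385),k0,k0,(nat_lit 489),k0,k0,k0,k0,k0,k0,
    k0],[(nat_lit 392),k0,k0,k0,k0,(nat_lit 288),k0,k0,k0,k0,k0,k0],[k0,k0,(nat_lit 489),(nat_lit 489),k0,k0,k0,k0,k0,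
    k0,k0,k0],[k0,k0,k0,k0,k0,k0,k0,k0,(nat_lit 458),(nat_lit 458),k0,k178],[k0,k0,k0,k0,k0,k0,k0,k0,k0,k0,k0,
    (nat_lit 422)],[k0,k0,k0,k0,k0,k0,k0,(nat_lit 458),k0,k0,k0,k0],[k0,k0,k0,k0,k0,k0,k0,(nat_lit 458),k0,k0,k36,k0],
    [k0,k0,k0,k0,k0,k0,(nat_lit 422),k178,k0,k0,k0,k0],[k0,k0,k0,k0,k0,k0,k0,k0,k36,k0,k0,k0]] (nat_lit 2880) k6
    [[(k1,(nat_lit 656)),(k10,(nat_lit 680)),(k11,(nat_lit 692)),(k8,(nat_lit 728)),(k9,(nat_lit 1152)),(k6,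
    (nat_lit 1384))],[(k2,(nat_lit 576)),(k5,(nat_lit 576)),(k4,(nat_lit 932)),(k0,(nat_lit 1000)),(k3,
    (nat_lit 1036)),(k7,(nat_lit 1496))],[(k4,(nat_lit 576)),(k0,(nat_lit 1036)),(k3,(nat_lit 1072)),(k7,
    (nat_lit 1140)),(k2,(nat_lit 1382)),(k5,(nat_lit 1382))],[(k0,(nat_lit 576)),(k7,(nat_lit 576)),(k2,
    (nat_lit 922)),(k5,(nat_lit 922)),(k3,(nat_lit 1382)),(k4,(nat_lit 1382))],[(k0,(nat_lit 576)),(k7,(nat_lit 576)),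
    (k2,(nat_lit 922)),(k5,(nat_lit 922)),(k3,(nat_lit 1382)),(k4,(nat_lit 1382))],[(k3,(nat_lit 576)),(k4,
    (nat_lit 576)),(k0,(nat_lit 932)),(k7,(nat_lit 1036)),(k2,(nat_lit 1382)),(k5,(nat_lit 1382))],[(k2,
    (nat_lit 576)),(k5,(nat_lit 576)),(k4,(nat_lit 1036)),(k3,(nat_lit 1140)),(k0,(nat_lit 1496)),(k7,
    (nat_lit 1496))],[(k8,(nat_lit 576)),(k11,(nat_lit 576)),(k10,(nat_lit 808)),(k6,(nat_lit 1268)),(k9,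
    (nat_lit 1280)),(k1,(nat_lit 1384))],[(k10,(nat_lit 576)),(k1,(nat_lit 1152)),(k6,(nat_lit 1280)),(k9,
    (nat_lit 1292)),(k8,(nat_lit 1504)),(k11,(nat_lit 1504))],[(k6,(nat_lit 576)),(k1,(nat_lit 728)),(k10,
    (nat_lit 788)),(k8,(nat_lit 800)),(k11,(nat_lit 800)),(k9,(nat_lit 1504))],[(k6,(nat_lit 576)),(k1,(nat_lit 692)),
    (k10,(nat_lit 752)),(k8,(nat_lit 800)),(k11,(nat_lit 800)),(k9,(nat_lit 1504))],[(k9,(nat_lit 576)),(k1,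
    (nat_lit 680)),(k10,(nat_lit 704)),(k11,(nat_lit 752)),(k8,(nat_lit 788)),(k6,(nat_lit 808))]]
    [[k2,k1,k0,k0,k0,k0],[k2,k1,k1,k0,k0,k0],[k2,k0,k1,k0,k0,k0],[k2,k0,k2,k0,k0,k0],[k2,k0,k0,k0,k0,k1],[k1,k0,k0,k1,
    k0,k1],[k1,k1,k0,k1,k0,k1],[k1,k0,k1,k1,k0,k1],[k0,k0,k0,k0,k2,k2],[k0,k0,k0,k0,k1,k2],[k0,k0,k0,k0,k0,k3]]
    [.ref k9 k1 [(z2,[z3,y1]),(z1,[z0,z1]),(z1,[z0,z0,z1])],.ref k31 k1 [(z2,[z3,y1,y1]),(z1,[z0,z1]),(z1,[z0,z0,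
    z1])],.ref k9 k1 [(z2,[z3,z0,y1]),(z1,[z0,z1]),(z1,[z0,z0,z1])],.ref k31 k1 [(z2,[z3,z0,y2]),(z1,[z0,z1]),(z1,[z0,
    z0,z1])],.ref k21 k1 [(z1,[z1]),(z1,[z0,z1]),(z1,[z0,z0,z1])],.contra [z1,z0,z0,y1],.contra [z1,z0,z0,y1],
    .contra [z3,z1,y1,y3],.contra [z3,z4,z2,z6,y6],.contra [y3,y1,y2,y6,z6],.contra [y1,y1,y1,y3,z3]],
    .base (.leafM k4 [k2,k4,k5,k1] [(z3,[y1,y1,y3,z3])] [(k3,k0,z1,[z0,z0,z1]),(k0,k3,z1,[z0,z0,z1])]),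
    .base (.geo z3 k4 [(z5,z3),(z2,z3),(z2,y6),(z1,y3),(z0,z3),(z2,z0)] [(z1,[z1]),(z1,[z0,z1]),(z1,[z0,z0,z1]),(z1,
    [y1,z0,z0,z3]),(z1,[]),(z1,[z0,y1,y1,y3,z3])] k8),
    .base (.geo z6 k5 [(z2,z3),(z4,y12),(z4,z6),(z10,y3),(z4,z0),(z0,z6)] [(z1,[z1]),(z1,[z0,z2]),(z1,[z0,z0,z2]),(z1,
    [y1,z0,z0,z6]),(z1,[z0,y2,y2,y6,z6]),(z1,[])] k8)]

theorem hB6_125_2 : blkB [0, 0, 0, 1, 1, 1] [(0, 3)] sp6 hS6_125 (pcls (n := 6) [0, 0, 0, 1, 1, 1]) hD6_125 107 2 hN6_125_2 = true := by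
  decide +kernel

/-- nodes 36 to 47 -/
noncomputable def hN6_125_3 : List HM :=
  [.base (.geo z3 k5 [(z2,z3),(z2,y6),(z2,z3),(z4,y3),(z2,z0),(z0,z3)] [(z1,[z1]),(z1,[z0,z1]),(z1,[z0,z0,z1]),(z1,
    [y1,z0,z0,z3]),(z1,[z0,y1,y1,y3,z3]),(z1,[])] k8),
    .base (.geo z3 k5 [(z1,z6),(z2,y6),(z2,z3),(z5,y6),(z2,z0),(z0,z3)] [(z1,[z1]),(z1,[z0,z1]),(z1,[z0,z0,z1]),(z1,
    [y1,z0,z0,z3]),(z1,[z0,y1,y1,y3,z3]),(z1,[])] k9),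
    .lp (nat_lit 4097) [(nat_lit 2144),(nat_lit 1397),(nat_lit 1554),(nat_lit 1455),(nat_lit 1269),
    (nat_lit 1781)] [k60,k60,(nat_lit 355),(nat_lit 512),(nat_lit 355),(nat_lit 355),(nat_lit 592),(nat_lit 217),
    (nat_lit 483),(nat_lit 512),k0,(nat_lit 483)] k0 [[k0,k0,(nat_lit 885),(nat_lit 885),k0,k0,k0,k0,k0,k0,k0,k0],[k0,
    k0,k0,k0,k0,(nat_lit 433),k0,k0,k0,k0,k0,k0],[k0,(nat_lit 885),k0,k0,(nat_lit 728),k0,k0,k0,k0,k0,k0,k0],[k0,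
    (nat_lit 885),k0,k0,(nat_lit 728),k0,k0,k0,k0,k0,k0,k0],[(nat_lit 433),k0,k0,k0,k0,(nat_lit 590),k0,k0,k0,k0,k0,
    k0],[k0,k0,(nat_lit 728),(nat_lit 728),k0,k0,k0,k0,k0,k0,k0,k0],[k0,k0,k0,k0,k0,k0,k0,k0,k31,k0,k0,k0],[k0,k0,k0,
    k0,k0,k0,k0,k0,k31,k0,k0,(nat_lit 788)],[k0,k0,k0,k0,k0,k0,k0,k0,k0,k0,(nat_lit 757),k0],[k0,k0,k0,k0,k0,k0,k31,
    k31,k0,k0,(nat_lit 757),k0],[k0,k0,k0,k0,k0,k0,(nat_lit 788),k0,k0,k0,k0,k0],[k0,k0,k0,k0,k0,k0,k0,k0,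
    (nat_lit 757),(nat_lit 757),k0,k0]] (nat_lit 4800) k6
    [[(k8,(nat_lit 964)),(k11,(nat_lit 964)),(k9,(nat_lit 1692)),(k1,(nat_lit 2144)),(k10,(nat_lit 2204)),(k6,
    (nat_lit 2400))],[(k2,(nat_lit 964)),(k5,(nat_lit 964)),(k3,(nat_lit 1692)),(k4,(nat_lit 1849)),(k0,
    (nat_lit 2144)),(k7,(nat_lit 2420))],[(k4,(nat_lit 964)),(k3,(nat_lit 1240)),(k7,(nat_lit 1535)),(k0,
    (nat_lit 1692)),(k2,(nat_lit 2282)),(k5,(nat_lit 2282))],[(k0,(nat_lit 964)),(k7,(nat_lit 964)),(k2,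
    (nat_lit 1554)),(k5,(nat_lit 1554)),(k3,(nat_lit 2282)),(k4,(nat_lit 2282))],[(k0,(nat_lit 964)),(k7,
    (nat_lit 964)),(k2,(nat_lit 1554)),(k5,(nat_lit 1554)),(k3,(nat_lit 2282)),(k4,(nat_lit 2282))],[(k3,
    (nat_lit 964)),(k4,(nat_lit 964)),(k7,(nat_lit 1692)),(k0,(nat_lit 1849)),(k2,(nat_lit 2282)),(k5,
    (nat_lit 2282))],[(k2,(nat_lit 964)),(k5,(nat_lit 964)),(k3,(nat_lit 1535)),(k4,(nat_lit 1692)),(k0,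
    (nat_lit 2420)),(k7,(nat_lit 2420))],[(k6,(nat_lit 1080)),(k11,(nat_lit 1158)),(k9,(nat_lit 1160)),(k8,
    (nat_lit 1220)),(k10,(nat_lit 1672)),(k1,(nat_lit 2400))],[(k10,(nat_lit 964)),(k6,(nat_lit 1160)),(k11,
    (nat_lit 1238)),(k9,(nat_lit 1240)),(k8,(nat_lit 1300)),(k1,(nat_lit 1692))],[(k1,(nat_lit 964)),(k6,
    (nat_lit 1220)),(k8,(nat_lit 1298)),(k11,(nat_lit 1298)),(k9,(nat_lit 1300)),(k10,(nat_lit 2538))],[(k1,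
    (nat_lit 964)),(k6,(nat_lit 1158)),(k9,(nat_lit 1238)),(k8,(nat_lit 1298)),(k11,(nat_lit 1298)),(k10,
    (nat_lit 2538))],[(k9,(nat_lit 964)),(k6,(nat_lit 1672)),(k1,(nat_lit 2204)),(k10,(nat_lit 2264)),(k8,
    (nat_lit 2538)),(k11,(nat_lit 2538))]]
    [[k1,k0,k0,k1,k1,k0],[k1,k1,k0,k1,k1,k0],[k1,k0,k1,k1,k1,k0],[k0,k2,k0,k2,k0,k0],[k0,k1,k1,k2,k0,k0],[k0,k1,k0,k2,
    k0,k0],[k0,k0,k1,k2,k0,k0],[k0,k0,k2,k2,k0,k0],[k0,k0,k0,k0,k3,k0],[k0,k0,k0,k0,k2,k1],[k0,k0,k0,k0,k2,k2]]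
    [.contra [z1,z0,z0,y1],.contra [z1,z0,z0,y1],.contra [z9,z1,y1,y9],.ref k34 k1 [(z2,[y3,z2,z0,z6]),(z1,[z0,z1]),
    (z1,[z0,z0,z1])],.ref k35 k2 [(z1,[z3,y1,y1]),(z1,[z0,z0,z1]),(z1,[z0,z1])],.ref k3 k1 [(z1,[y3,z1,z0,z6]),(z1,
    [z0,z1]),(z1,[z0,z0,z1])],.ref k36 k2 [(z2,[z3,z0,y1]),(z1,[z0,z0,z1]),(z1,[z0,z1])],.ref k37 k2 [(z2,[z3,z0,y2]),
    (z1,[z0,z0,z1]),(z1,[z0,z1])],.contra [y3,z1,z2],.contra [y9,y1,z1,y9,z9],.contra [z3,z4,z2,z6,y6]],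
    .base (.leafM k4 [k2,k4,k5,k1] [(z3,[z0,y1,y1,z0,y3,z3])] [(k3,k0,z1,[z0,z0,z0,z0,z1]),(k0,k3,z1,[z0,z0,z0,z0,
    z1])]),
    .lp k0 [(nat_lit 456),(nat_lit 394),(nat_lit 350),(nat_lit 420),(nat_lit 396),(nat_lit 364)] [k48,k48,k79,k79,
    k106,k96,k66,k66,k156,k0,k32,k156] k0 [[k0,k0,k106,k106,k0,k124,k0,k0,k0,k0,k0,k0],[k0,k0,k0,k0,k0,k44,k0,k0,k0,
    k0,k0,k0],[k0,k106,k0,k0,k150,k0,k0,k0,k0,k0,k0,k0],[k0,k106,k0,k0,k150,k0,k0,k0,k0,k0,k0,k0],[k44,k124,k0,k0,k0,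
    k0,k0,k0,k0,k0,k0,k0],[k0,k0,k150,k150,k0,k0,k0,k0,k0,k0,k0,k0],[k0,k0,k0,k0,k0,k0,k0,k8,k4,k0,k0,k0],[k0,k0,k0,
    k0,k0,k0,k0,k0,k0,k0,k0,(nat_lit 280)],[k0,k0,k0,k0,k0,k0,k0,k0,k0,k0,k108,k0],[k0,k0,k0,k0,k0,k0,k0,k4,k0,k0,k0,
    k0],[k0,k0,k0,k0,k0,k0,(nat_lit 280),k0,k0,k0,k0,k0],[k0,k0,k0,k0,k0,k0,k0,k0,k0,k108,k0,k0]] (nat_lit 1200) k6
    [[(k8,(nat_lit 240)),(k11,(nat_lit 348)),(k1,(nat_lit 456)),(k10,(nat_lit 472)),(k9,(nat_lit 504)),(k6,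
    (nat_lit 718))],[(k4,(nat_lit 274)),(k5,(nat_lit 302)),(k2,(nat_lit 319)),(k3,(nat_lit 425)),(k0,(nat_lit 456)),
    (k7,(nat_lit 482))],[(k4,(nat_lit 323)),(k3,(nat_lit 394)),(k0,(nat_lit 425)),(k5,(nat_lit 483)),(k2,
    (nat_lit 500)),(k7,(nat_lit 531))],[(k7,(nat_lit 257)),(k0,(nat_lit 319)),(k5,(nat_lit 377)),(k2,(nat_lit 394)),
    (k3,(nat_lit 500)),(k4,(nat_lit 517))],[(k7,(nat_lit 240)),(k0,(nat_lit 302)),(k5,(nat_lit 360)),(k2,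
    (nat_lit 377)),(k3,(nat_lit 483)),(k4,(nat_lit 500))],[(k0,(nat_lit 274)),(k3,(nat_lit 323)),(k4,(nat_lit 340)),
    (k7,(nat_lit 380)),(k5,(nat_lit 500)),(k2,(nat_lit 517))],[(k5,(nat_lit 240)),(k2,(nat_lit 257)),(k4,
    (nat_lit 380)),(k7,(nat_lit 420)),(k0,(nat_lit 482)),(k3,(nat_lit 531))],[(k11,(nat_lit 326)),(k8,(nat_lit 330)),
    (k6,(nat_lit 412)),(k10,(nat_lit 454)),(k9,(nat_lit 486)),(k1,(nat_lit 718))],[(k10,(nat_lit 240)),(k11,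
    (nat_lit 396)),(k8,(nat_lit 400)),(k6,(nat_lit 486)),(k1,(nat_lit 504)),(k9,(nat_lit 560))],[(k1,(nat_lit 240)),
    (k8,(nat_lit 240)),(k11,(nat_lit 240)),(k6,(nat_lit 330)),(k10,(nat_lit 364)),(k9,(nat_lit 400))],[(k8,
    (nat_lit 240)),(k11,(nat_lit 240)),(k6,(nat_lit 326)),(k1,(nat_lit 348)),(k9,(nat_lit 396)),(k10,(nat_lit 472))],
    [(k9,(nat_lit 240)),(k8,(nat_lit 364)),(k6,(nat_lit 454)),(k1,(nat_lit 472)),(k11,(nat_lit 472)),(k10,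
    (nat_lit 488))]]
    [[k2,k0,k1,k0,k0,k0],[k0,k0,k1,k2,k0,k0],[k0,k0,k0,k0,k2,k1],[k0,k0,k0,k0,k2,k2],[k0,k0,k0,k0,k1,k2]]
    [.contra [y3,z2,z0,z1],.contra [z1,z1,z0,z0,y2],.contra [y3,z0,y1,z1,y3,z3],.ref k39 k1 [(z1,[z0,z1]),(z1,[z0,z0,
    z1]),(z2,[y3,z0,y2,z0,y6,z6]),(z2,[z3,z0,z2,z2,z6,y6])],.contra [y3,z0,y2,y1,y6,z6]],
    .base (.geo z6 k4 [(z8,z3),(z4,z0),(z4,y6),(z4,y3),(z0,z6),(z4,z0)] [(z1,[z1]),(z1,[z0,z2]),(z1,[z0,z0,z2]),(z1,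
    [y1,z0,z0,z6]),(z1,[]),(z1,[z0,y2,y2,y6,z6])] k7),
    .base (.geo z3 k5 [(z2,z0),(z2,y3),(z2,z0),(z4,z0),(z2,z0),(z0,z3)] [(z1,[z1]),(z1,[z0,z1]),(z1,[z0,z0,z1]),(z1,
    [y1,z0,z0,z3]),(z1,[z0,y1,y1,y3,z3]),(z1,[])] k7),
    .base (.geo z6 k4 [(z6,z3),(z4,z0),(z4,y6),(z6,y3),(z0,z6),(z4,z0)] [(z1,[z3]),(z1,[z0,z2]),(z1,[z0,z0,z2]),(z1,
    [y3,z0,z0,z6]),(z1,[]),(z1,[z0,y2,y2,y6,z6])] k7),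
    .base (.leafM k4 [k2,k4,k5,k1] [(z3,[y1,y1,z0,y3,z3])] [(k3,k0,z1,[z0,z0,z0,z1]),(k0,k3,z1,[z0,z0,z0,z1])]),
    .lp k0 [k132,k144,k176,k176,k179,k151] [k42,k42,k36,k36,k4,k36,k20,k20,k37,k0,k28,k37] k0 [[k0,k24,k24,k0,k0,k0,
    k0,k0,k0,k0,k0,k0],[k0,k0,k0,k0,k64,k80,k0,k0,k0,k0,k0,k0],[k0,k0,k0,k0,k64,k0,k0,k0,k0,k0,k0,k0],[k0,k24,k0,k0,
    k64,k0,k0,k0,k0,k0,k0,k0],[k80,k0,k0,k0,k0,k16,k0,k0,k0,k0,k0,k0],[k64,k0,k64,k64,k0,k0,k0,k0,k0,k0,k0,k0],[k0,k0,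
    k0,k0,k0,k0,k0,k0,k63,k63,k0,k0],[k0,k0,k0,k0,k0,k0,k0,k0,k0,k0,k24,k92],[k0,k0,k0,k0,k0,k0,k0,k63,k0,k0,k27,k29],
    [k0,k0,k0,k0,k0,k0,k0,k63,k0,k0,k0,k0],[k0,k0,k0,k0,k0,k0,k92,k0,k0,k29,k0,k0],[k0,k0,k0,k0,k0,k0,k24,k0,k0,k27,
    k0,k0]] (nat_lit 480) k6
    [[(k8,k110),(k1,k132),(k10,k146),(k9,k150),(k11,k166),(k6,(nat_lit 246))],[(k0,k108),(k5,k114),(k2,k138),(k3,
    k138),(k4,(nat_lit 234)),(k7,(nat_lit 234))],[(k4,k96),(k7,k96),(k0,k138),(k5,k144),(k2,k168),(k3,k168)],[(k7,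
    k96),(k0,k138),(k2,k144),(k5,k144),(k3,k168),(k4,(nat_lit 240))],[(k7,k96),(k0,k114),(k2,k144),(k3,k144),(k5,
    k144),(k4,(nat_lit 240))],[(k3,k96),(k4,k192),(k7,k192),(k0,(nat_lit 234)),(k2,(nat_lit 240)),(k5,(nat_lit 240))],
    [(k2,k96),(k3,k96),(k5,k96),(k4,k192),(k7,k192),(k0,(nat_lit 234))],[(k8,k96),(k11,k96),(k6,k176),(k10,k192),(k9,
    k196),(k1,(nat_lit 246))],[(k10,k96),(k1,k150),(k6,k196),(k9,(nat_lit 216)),(k8,(nat_lit 242)),(k11,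
    (nat_lit 242))],[(k6,k96),(k1,k110),(k10,k122),(k8,k142),(k11,k142),(k9,(nat_lit 242))],[(k6,k96),(k8,k142),(k11,
    k142),(k1,k166),(k10,k178),(k9,(nat_lit 242))],[(k9,k96),(k8,k122),(k1,k146),(k10,k160),(k11,k178),(k6,k192)]]
    [[k2,k1,k0,k0,k0,k0],[k2,k0,k0,k0,k1,k0],[k2,k0,k0,k0,k0,k1],[k1,k0,k0,k1,k0,k1],[k1,k1,k0,k1,k0,k1],[k0,k2,k1,k0,
    k0,k0],[k0,k1,k1,k2,k0,k0],[k0,k1,k0,k2,k0,k0],[k0,k0,k1,k2,k0,k0],[k0,k0,k0,k0,k2,k2],[k0,k0,k0,k0,k1,k2]]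
    [.ref k40 k1 [(z2,[z3,y1]),(z1,[z0,z1]),(z1,[z0,z0,z1])],.ref k19 k3 [(z1,[z3,z0,y1]),(z1,[z0,y1,y1,y3,z3]),(z1,
    [z0,z0,z1])],.ref k40 k1 [(z2,[z3,z1,z1,z3,y3]),(z1,[z0,z1]),(z1,[z0,z0,z1])],.contra [y3,z1,y1,z0,z3],
    .contra [y3,z4,y1,z0,z3],.contra [y3,z2,z1],.ref k41 k3 [(z1,[y3,z1,z0,z6]),(z1,[z0,y1,y1,y3,z3]),(z1,[z0,z0,
    z1])],.ref k42 k0 [(z2,[z3,y1]),(z1,[z0,z0,z1]),(z1,[z0,y1,y1,y3,z3])],.ref k43 k3 [(z1,[y1,z0,z0,z2]),(z1,[z0,y1,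
    y1,y3,z3]),(z1,[z0,z0,z1])],.ref k44 k0 [(z2,[z3,z2,z2,z6,y6]),(z1,[z0,y1,y1,y3,z3]),(z1,[z0,z1])],.contra [y3,y2,
    y1,y6,z6]],
    .lp k0 [(nat_lit 685),(nat_lit 550),(nat_lit 685),(nat_lit 796),(nat_lit 642),(nat_lit 480)] [k0,k181,k154,k162,
    k27,k154,k35,k35,k129,k95,(nat_lit 241),k145] k0 [[k0,k0,(nat_lit 328),k0,k0,k71,k0,k0,k0,k0,k0,k0],[k58,k0,k0,k0,
    k0,(nat_lit 293),k0,k0,k0,k0,k0,k0],[k0,k0,k0,k0,(nat_lit 293),k0,k0,k0,k0,k0,k0,k0],[k0,(nat_lit 328),k0,k0,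
    (nat_lit 293),k0,k0,k0,k0,k0,k0,k0],[(nat_lit 293),k71,k0,k0,k0,k0,k0,k0,k0,k0,k0,k0],[k0,k0,(nat_lit 293),
    (nat_lit 293),k0,k0,k0,k0,k0,k0,k0,k0],[k0,k0,k0,k0,k0,k0,k0,k0,(nat_lit 302),(nat_lit 302),k0,k0],[k0,k0,k0,k0,
    k0,k0,k0,k0,k0,k0,k150,k146],[k0,k0,k0,k0,k0,k0,k0,(nat_lit 302),k0,k0,k0,k0],[k0,k0,k0,k0,k0,k0,k0,(nat_lit 302),
    k0,k0,k156,k0],[k0,k0,k0,k0,k0,k0,k146,k0,k0,k0,k0,k0],[k0,k0,k0,k0,k0,k0,k150,k0,k156,k0,k0,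
    k0]] (nat_lit 1920) k6
    [[(k11,(nat_lit 384)),(k9,(nat_lit 440)),(k10,(nat_lit 444)),(k1,(nat_lit 504)),(k8,(nat_lit 556)),(k6,
    (nat_lit 796))],[(k5,(nat_lit 384)),(k3,(nat_lit 704)),(k2,(nat_lit 712)),(k4,(nat_lit 768)),(k0,(nat_lit 924)),
    (k7,(nat_lit 1124))],[(k4,(nat_lit 384)),(k3,(nat_lit 484)),(k5,(nat_lit 550)),(k0,(nat_lit 704)),(k7,
    (nat_lit 740)),(k2,(nat_lit 878))],[(k7,(nat_lit 384)),(k2,(nat_lit 558)),(k5,(nat_lit 558)),(k0,(nat_lit 712)),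
    (k3,(nat_lit 878)),(k4,(nat_lit 978))],[(k0,(nat_lit 384)),(k7,(nat_lit 384)),(k3,(nat_lit 550)),(k2,
    (nat_lit 558)),(k5,(nat_lit 558)),(k4,(nat_lit 978))],[(k3,(nat_lit 384)),(k0,(nat_lit 768)),(k7,(nat_lit 804)),
    (k4,(nat_lit 812)),(k2,(nat_lit 978)),(k5,(nat_lit 978))],[(k2,(nat_lit 384)),(k5,(nat_lit 384)),(k3,
    (nat_lit 740)),(k7,(nat_lit 796)),(k4,(nat_lit 804)),(k0,(nat_lit 1124))],[(k11,(nat_lit 384)),(k8,(nat_lit 400)),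
    (k9,(nat_lit 736)),(k10,(nat_lit 740)),(k1,(nat_lit 796)),(k6,(nat_lit 796))],[(k10,(nat_lit 384)),(k1,
    (nat_lit 440)),(k9,(nat_lit 676)),(k6,(nat_lit 736)),(k11,(nat_lit 928)),(k8,(nat_lit 944))],[(k6,(nat_lit 400)),
    (k1,(nat_lit 556)),(k11,(nat_lit 592)),(k8,(nat_lit 608)),(k10,(nat_lit 652)),(k9,(nat_lit 944))],[(k1,
    (nat_lit 384)),(k6,(nat_lit 384)),(k10,(nat_lit 480)),(k11,(nat_lit 576)),(k8,(nat_lit 592)),(k9,(nat_lit 928))],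
    [(k9,(nat_lit 384)),(k10,(nat_lit 384)),(k1,(nat_lit 444)),(k11,(nat_lit 480)),(k8,(nat_lit 652)),(k6,
    (nat_lit 740))]]
    [[k2,k0,k1,k0,k0,k0],[k1,k1,k0,k1,k0,k0],[k2,k0,k0,k0,k0,k1],[k1,k1,k0,k1,k0,k1],[k0,k2,k1,k0,k0,k0],[k0,k2,k2,k0,
    k0,k0],[k0,k0,k0,k0,k1,k2],[k0,k0,k0,k0,k0,k3]]
    [.ref k20 k1 [(z1,[z3,z1,z3,y3]),(z1,[z0,z1])],.contra [y1,z1,z1],.ref k30 k2 [(z1,[y1,z0,z2]),(z1,[z0,y1,y3,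
    z3])],.contra [z1,z0,y1],.ref k32 k1 [(z1,[z0,z1]),(z1,[z3,y2])],.ref k33 k2 [(z2,[z3,y2]),(z1,[z0,z1])],
    .ref k38 k3 [(z1,[z3,z1,z3,y3]),(z1,[y3,y2,y6,z6])],.ref k45 k1 [(z1,[z0,z1]),(z1,[y1,y1,y3,z3])]],
    .base (.geo z5 k0 [(z4,z0),(z2,z0),(z2,z0),(z6,z0),(z4,z0),(z2,z0)] [(z1,[z1]),(z1,[z0,z1]),(z1,[z0,z0,z1]),(z1,
    [y1,z0,z0,z0,z5]),(z1,[z0,z0,z0,z1]),(z1,[z0,y1,y1,y1,y5,z5])] k1)]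

theorem hB6_125_3 : blkB [0, 0, 0, 1, 1, 1] [(0, 3)] sp6 hS6_125 (pcls (n := 6) [0, 0, 0, 1, 1, 1]) hD6_125 107 3 hN6_125_3 = true := by
  decide +kernel

/-- nodes 48 to 59 -/
noncomputable def hN6_125_4 : List HM :=
  [.base (.geo z5 k0 [(z4,z0),(z1,z0),(z3,z0),(z6,z0),(z4,z0),(z2,z0)] [(z1,[z1]),(z1,[z0,z1]),(z1,[z0,z0,z1]),(z1,
    [y1,z0,z0,z0,z5]),(z1,[z0,z0,z0,z1]),(z1,[z0,y1,y1,y1,y5,z5])] k1),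
    .lp k0 [(nat_lit 800),(nat_lit 780),(nat_lit 820),(nat_lit 1017),(nat_lit 778),(nat_lit 600)] [k124,k124,k134,
    k134,k0,(nat_lit 228),k11,k20,k135,k135,(nat_lit 284),k164] k0 [[k0,k134,k20,k0,k0,k0,k0,k0,k0,k0,k0,k0],[k0,k0,
    k20,k0,k0,(nat_lit 434),k0,k0,k0,k0,k0,k0],[k0,k0,k0,k94,(nat_lit 414),k0,k0,k0,k0,k0,k0,k0],[k20,k20,k0,k0,
    (nat_lit 320),k0,k0,k0,k0,k0,k0,k0],[(nat_lit 434),k0,k0,k0,k0,k0,k0,k0,k0,k0,k0,k0],[k0,k0,(nat_lit 320),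
    (nat_lit 414),k0,k0,k0,k0,k0,k0,k0,k0],[k0,k0,k0,k0,k0,k0,k0,k0,(nat_lit 393),(nat_lit 393),k0,k0],[k0,k0,k0,k0,
    k0,k0,k0,k0,k0,k0,k159,k149],[k0,k0,k0,k0,k0,k0,k0,(nat_lit 393),k0,k0,k0,k0],[k0,k0,k0,k0,k0,k0,k0,(nat_lit 393),
    k0,k0,(nat_lit 244),k0],[k0,k0,k0,k0,k0,k0,k149,k0,k0,k0,k0,k0],[k0,k0,k0,k0,k0,k0,k159,k0,(nat_lit 244),k0,k0,
    k0]] (nat_lit 2400) k6
    [[(k11,(nat_lit 516)),(k9,(nat_lit 630)),(k10,(nat_lit 640)),(k8,(nat_lit 789)),(k1,(nat_lit 800)),(k6,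
    (nat_lit 1062))],[(k0,(nat_lit 666)),(k5,(nat_lit 676)),(k3,(nat_lit 790)),(k2,(nat_lit 810)),(k4,(nat_lit 924)),
    (k7,(nat_lit 1338))],[(k4,(nat_lit 480)),(k5,(nat_lit 666)),(k0,(nat_lit 790)),(k2,(nat_lit 800)),(k7,
    (nat_lit 894)),(k3,(nat_lit 914))],[(k7,(nat_lit 480)),(k2,(nat_lit 686)),(k5,(nat_lit 686)),(k3,(nat_lit 800)),
    (k0,(nat_lit 810)),(k4,(nat_lit 1234))],[(k7,(nat_lit 480)),(k3,(nat_lit 666)),(k0,(nat_lit 676)),(k2,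
    (nat_lit 686)),(k5,(nat_lit 686)),(k4,(nat_lit 1234))],[(k3,(nat_lit 480)),(k0,(nat_lit 924)),(k7,(nat_lit 1028)),
    (k4,(nat_lit 1048)),(k2,(nat_lit 1234)),(k5,(nat_lit 1234))],[(k2,(nat_lit 480)),(k5,(nat_lit 480)),(k3,
    (nat_lit 894)),(k7,(nat_lit 1008)),(k4,(nat_lit 1028)),(k0,(nat_lit 1338))],[(k11,(nat_lit 480)),(k8,
    (nat_lit 509)),(k9,(nat_lit 902)),(k10,(nat_lit 912)),(k6,(nat_lit 1026)),(k1,(nat_lit 1062))],[(k10,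
    (nat_lit 480)),(k1,(nat_lit 630)),(k9,(nat_lit 778)),(k6,(nat_lit 902)),(k11,(nat_lit 1142)),(k8,(nat_lit 1171))],
    [(k6,(nat_lit 509)),(k11,(nat_lit 749)),(k8,(nat_lit 778)),(k1,(nat_lit 789)),(k10,(nat_lit 873)),(k9,
    (nat_lit 1171))],[(k6,(nat_lit 480)),(k1,(nat_lit 516)),(k10,(nat_lit 600)),(k11,(nat_lit 720)),(k8,
    (nat_lit 749)),(k9,(nat_lit 1142))],[(k9,(nat_lit 480)),(k10,(nat_lit 480)),(k11,(nat_lit 600)),(k1,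
    (nat_lit 640)),(k8,(nat_lit 873)),(k6,(nat_lit 912))]]
    [[k1,k1,k0,k1,k0,k0],[k2,k0,k0,k0,k1,k0],[k2,k0,k0,k0,k0,k1],[k1,k1,k0,k1,k0,k1],[k2,k0,k0,k0,k0,k2],[k0,k2,k1,k0,
    k0,k0],[k0,k2,k2,k0,k0,k0],[k0,k0,k0,k0,k1,k2],[k0,k0,k0,k0,k0,k3]]
    [.contra [y5,z2,z1,z0,z5],.ref k47 k3 [(z1,[z0,z1]),(z1,[y5,z2,y1,y1,y5,z5]),(z1,[z5,y2]),(z1,[z0,z0,z0,z1])],
    .ref k47 k3 [(z1,[z0,z1]),(z1,[z5,y2]),(z1,[y5,z2,y1,y1,y5,z5]),(z1,[z0,z0,z0,z1])],.contra [z1,z0,z0,z0,y1],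
    .ref k48 k3 [(z1,[z0,z1]),(z2,[z5,y2]),(z2,[y5,z2,y2,y2,y10,z10]),(z1,[z0,z0,z0,z1])],.contra [z5,z2,y2,y1],
    .contra [y5,z2,z2,z2],.contra [y5,z0,y1,y2,y10,z10],.ref k24 k1 [(z1,[z0,z1]),(z1,[z0,z0,z1]),(z1,[z0,z0,z0,z1]),
    (z1,[y5,z0,y3,y3,y15,z15])]],
    .base (.leafM k4 [k2,k4,k5,k1] [(z2,[z0,y1,y1,y2,z2])] [(k3,k0,z1,[z0,z0,z0,z1]),(k0,k3,z1,[z0,z0,z0,z1])]),
    .base (.geo z7 k0 [(z5,z0),(z2,z0),(z6,z0),(z9,z0),(z2,z0),(z4,z0)] [(z1,[z1]),(z1,[z0,z1]),(z1,[z0,z0,z1]),(z1,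
    [y1,z0,z0,z0,z7]),(z1,[z0,z0,z0,z1]),(z1,[z0,y1,y1,y1,y7,z7])] k1),
    .lp k0 [(nat_lit 800),(nat_lit 780),(nat_lit 820),(nat_lit 1017),(nat_lit 778),(nat_lit 600)] [k124,k124,k134,
    k134,k0,(nat_lit 228),k11,k20,k135,k135,(nat_lit 284),k164] k0 [[k0,k134,k20,k0,k0,k0,k0,k0,k0,k0,k0,k0],[k0,k0,
    k20,k0,k0,(nat_lit 434),k0,k0,k0,k0,k0,k0],[k0,k0,k0,k94,(nat_lit 414),k0,k0,k0,k0,k0,k0,k0],[k20,k20,k0,k0,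
    (nat_lit 320),k0,k0,k0,k0,k0,k0,k0],[(nat_lit 434),k0,k0,k0,k0,k0,k0,k0,k0,k0,k0,k0],[k0,k0,(nat_lit 320),
    (nat_lit 414),k0,k0,k0,k0,k0,k0,k0,k0],[k0,k0,k0,k0,k0,k0,k0,k0,(nat_lit 393),(nat_lit 393),k0,k0],[k0,k0,k0,k0,
    k0,k0,k0,k0,k0,k0,k159,k149],[k0,k0,k0,k0,k0,k0,k0,(nat_lit 393),k0,k0,k0,k0],[k0,k0,k0,k0,k0,k0,k0,(nat_lit 393),
    k0,k0,(nat_lit 244),k0],[k0,k0,k0,k0,k0,k0,k149,k0,k0,k0,k0,k0],[k0,k0,k0,k0,k0,k0,k159,k0,(nat_lit 244),k0,k0,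
    k0]] (nat_lit 2400) k6
    [[(k11,(nat_lit 516)),(k9,(nat_lit 630)),(k10,(nat_lit 640)),(k8,(nat_lit 789)),(k1,(nat_lit 800)),(k6,
    (nat_lit 1062))],[(k0,(nat_lit 666)),(k5,(nat_lit 676)),(k3,(nat_lit 790)),(k2,(nat_lit 810)),(k4,(nat_lit 924)),
    (k7,(nat_lit 1338))],[(k4,(nat_lit 480)),(k5,(nat_lit 666)),(k0,(nat_lit 790)),(k2,(nat_lit 800)),(k7,
    (nat_lit 894)),(k3,(nat_lit 914))],[(k7,(nat_lit 480)),(k2,(nat_lit 686)),(k5,(nat_lit 686)),(k3,(nat_lit 800)),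
    (k0,(nat_lit 810)),(k4,(nat_lit 1234))],[(k7,(nat_lit 480)),(k3,(nat_lit 666)),(k0,(nat_lit 676)),(k2,
    (nat_lit 686)),(k5,(nat_lit 686)),(k4,(nat_lit 1234))],[(k3,(nat_lit 480)),(k0,(nat_lit 924)),(k7,(nat_lit 1028)),
    (k4,(nat_lit 1048)),(k2,(nat_lit 1234)),(k5,(nat_lit 1234))],[(k2,(nat_lit 480)),(k5,(nat_lit 480)),(k3,
    (nat_lit 894)),(k7,(nat_lit 1008)),(k4,(nat_lit 1028)),(k0,(nat_lit 1338))],[(k11,(nat_lit 480)),(k8,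
    (nat_lit 509)),(k9,(nat_lit 902)),(k10,(nat_lit 912)),(k6,(nat_lit 1026)),(k1,(nat_lit 1062))],[(k10,
    (nat_lit 480)),(k1,(nat_lit 630)),(k9,(nat_lit 778)),(k6,(nat_lit 902)),(k11,(nat_lit 1142)),(k8,(nat_lit 1171))],
    [(k6,(nat_lit 509)),(k11,(nat_lit 749)),(k8,(nat_lit 778)),(k1,(nat_lit 789)),(k10,(nat_lit 873)),(k9,
    (nat_lit 1171))],[(k6,(nat_lit 480)),(k1,(nat_lit 516)),(k10,(nat_lit 600)),(k11,(nat_lit 720)),(k8,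
    (nat_lit 749)),(k9,(nat_lit 1142))],[(k9,(nat_lit 480)),(k10,(nat_lit 480)),(k11,(nat_lit 600)),(k1,
    (nat_lit 640)),(k8,(nat_lit 873)),(k6,(nat_lit 912))]]
    [[k1,k1,k0,k1,k0,k0],[k2,k0,k0,k0,k1,k0],[k2,k0,k0,k0,k0,k1],[k1,k1,k0,k1,k0,k1],[k2,k0,k0,k0,k0,k2],[k0,k2,k1,k0,
    k0,k0],[k0,k2,k2,k0,k0,k0],[k0,k0,k0,k0,k1,k2],[k0,k0,k0,k0,k0,k3]]
    [.contra [y4,z1,z1,z0,z4],.contra [z4,y1,z1,z2,z4,y4],.contra [y4,z1,z0,z1],.contra [z1,z0,z0,z0,y1],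
    .ref k51 k3 [(z2,[y1,z2]),(z1,[z4,y1]),(z4,[y8,z2,y7,y7,y28,z28]),(z4,[y12,z3,z0,z7])],.contra [z4,z1,y2,y1],
    .contra [z1,z0,y1,y1,y2,z2],.contra [y4,z0,y1,z1,y4,z4],.contra [y1,z0,z0,z1]],
    .base (.geo z9 k0 [(z7,z0),(z2,z0),(z6,z0),(z11,z0),(z6,z0),(z4,z0)] [(z1,[z1]),(z1,[z0,z1]),(z1,[z0,z0,z3]),(z1,
    [y1,z0,z0,z0,z9]),(z1,[z0,z0,z0,z3]),(z1,[z0,y1,y3,y3,y9,z9])] k1),
    .base (.geo z15 k0 [(z12,z0),(z2,z0),(z10,z0),(z18,z0),(z12,z0),(z6,z0)] [(z1,[z3]),(z1,[z0,z1]),(z1,[z0,z0,z5]),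
    (z1,[y3,z0,z0,z0,z15]),(z1,[z0,z0,z0,z3]),(z1,[z0,y1,y5,y3,y15,z15])] k1),
    .base (.leafM k4 [k2,k4,k5,k1] [(z3,[z0,y1,y1,z0,y3,z3])] [(k3,k0,z1,[z0,z0,z0,z0,z1]),(k0,k3,z1,[z0,z0,z0,z0,
    z1])]),
    .lp k0 [(nat_lit 685),(nat_lit 480),(nat_lit 642),(nat_lit 796),(nat_lit 685),(nat_lit 550)] [k181,k0,k145,
    (nat_lit 241),k95,k129,k35,k35,k154,k27,k162,k154] k0 [[k0,k0,k0,k156,k0,k150,k0,k0,k0,k0,k0,k0],[k0,k0,k0,k0,k0,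
    k146,k0,k0,k0,k0,k0,k0],[k0,k156,k0,k0,(nat_lit 302),k0,k0,k0,k0,k0,k0,k0],[k0,k0,k0,k0,(nat_lit 302),k0,k0,k0,k0,
    k0,k0,k0],[k146,k150,k0,k0,k0,k0,k0,k0,k0,k0,k0,k0],[k0,k0,(nat_lit 302),(nat_lit 302),k0,k0,k0,k0,k0,k0,k0,k0],
    [k0,k0,k0,k0,k0,k0,k0,k0,(nat_lit 293),(nat_lit 293),k0,k0],[k0,k0,k0,k0,k0,k0,k0,k0,k0,k0,k71,(nat_lit 293)],[k0,
    k0,k0,k0,k0,k0,k0,(nat_lit 293),k0,k0,(nat_lit 328),k0],[k0,k0,k0,k0,k0,k0,k0,(nat_lit 293),k0,k0,k0,k0],[k0,k0,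
    k0,k0,k0,k0,(nat_lit 293),k0,k0,k0,k0,k58],[k0,k0,k0,k0,k0,k0,k71,k0,k0,(nat_lit 328),k0,k0]] (nat_lit 1920) k6
    [[(k8,(nat_lit 384)),(k10,(nat_lit 704)),(k11,(nat_lit 712)),(k9,(nat_lit 768)),(k1,(nat_lit 924)),(k6,
    (nat_lit 1124))],[(k2,(nat_lit 384)),(k4,(nat_lit 440)),(k3,(nat_lit 444)),(k0,(nat_lit 504)),(k5,(nat_lit 556)),
    (k7,(nat_lit 796))],[(k3,(nat_lit 384)),(k4,(nat_lit 384)),(k0,(nat_lit 444)),(k2,(nat_lit 480)),(k5,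
    (nat_lit 652)),(k7,(nat_lit 740))],[(k0,(nat_lit 384)),(k7,(nat_lit 384)),(k3,(nat_lit 480)),(k2,(nat_lit 576)),
    (k5,(nat_lit 592)),(k4,(nat_lit 928))],[(k7,(nat_lit 400)),(k0,(nat_lit 556)),(k2,(nat_lit 592)),(k5,
    (nat_lit 608)),(k3,(nat_lit 652)),(k4,(nat_lit 944))],[(k3,(nat_lit 384)),(k0,(nat_lit 440)),(k4,(nat_lit 676)),
    (k7,(nat_lit 736)),(k2,(nat_lit 928)),(k5,(nat_lit 944))],[(k2,(nat_lit 384)),(k5,(nat_lit 400)),(k4,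
    (nat_lit 736)),(k3,(nat_lit 740)),(k0,(nat_lit 796)),(k7,(nat_lit 796))],[(k8,(nat_lit 384)),(k11,(nat_lit 384)),
    (k10,(nat_lit 740)),(k6,(nat_lit 796)),(k9,(nat_lit 804)),(k1,(nat_lit 1124))],[(k10,(nat_lit 384)),(k1,
    (nat_lit 768)),(k6,(nat_lit 804)),(k9,(nat_lit 812)),(k8,(nat_lit 978)),(k11,(nat_lit 978))],[(k1,(nat_lit 384)),
    (k6,(nat_lit 384)),(k10,(nat_lit 550)),(k8,(nat_lit 558)),(k11,(nat_lit 558)),(k9,(nat_lit 978))],[(k6,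
    (nat_lit 384)),(k8,(nat_lit 558)),(k11,(nat_lit 558)),(k1,(nat_lit 712)),(k10,(nat_lit 878)),(k9,(nat_lit 978))],
    [(k9,(nat_lit 384)),(k10,(nat_lit 484)),(k8,(nat_lit 550)),(k1,(nat_lit 704)),(k6,(nat_lit 740)),(k11,
    (nat_lit 878))]]
    [[k2,k1,k0,k0,k0,k0],[k2,k0,k0,k0,k1,k0],[k1,k0,k0,k1,k0,k1],[k1,k1,k0,k1,k0,k1],[k0,k3,k0,k0,k0,k0],[k0,k2,k1,k0,
    k0,k0],[k0,k0,k0,k0,k2,k2],[k0,k0,k0,k0,k1,k2]]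
    [.contra [y6,z1,z3,z2],.contra [z6,y1,z0,z1],.contra [y2,z0,y3,y1,y4,z6],.contra [z24,z1,z13,z4,z0,y24],
    .ref k53 k0 [(z4,[z2,y3,y3,z0,z36]),(z1,[y2,z0,z3]),(z2,[z0,z0,y3,y1,y6,z6]),(z1,[z1])],.ref k54 k0 [(z12,[z6,y5,
    y6,y1,z60]),(z1,[y6,z0,z6,z1]),(z2,[z0,z0,y3,y1,y6,z6]),(z2,[z6,z0,y1,y1])],.ref k55 k0 [(z6,[y3,y2,y3,y1,z18,
    z6]),(z2,[z3,z0,z3,z1,z6,y6]),(z2,[z0,z0,y3,y1,y6,z6]),(z2,[y3,z0,y1,y1,y6,z6])],.contra [y3,z0,y2,y1,y6,z6]],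
    .lp k0 [(nat_lit 1258),(nat_lit 1170),(nat_lit 1202),(nat_lit 1694),(nat_lit 1372),(nat_lit 968)] [(nat_lit 281),
    (nat_lit 281),(nat_lit 334),(nat_lit 316),(nat_lit 284),(nat_lit 334),k126,k0,(nat_lit 322),k126,(nat_lit 490),
    (nat_lit 362)] k0 [[k0,k0,(nat_lit 330),(nat_lit 266),k0,k0,k0,k0,k0,k0,k0,k0],[k0,k0,k0,k0,k0,(nat_lit 452),k0,
    k0,k0,k0,k0,k0],[k0,(nat_lit 266),k0,k0,(nat_lit 718),k0,k0,k0,k0,k0,k0,k0],[k0,(nat_lit 330),k0,k0,(nat_lit 718),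
    k0,k0,k0,k0,k0,k0,k0],[(nat_lit 452),k0,k0,k0,k0,k0,k0,k0,k0,k0,k0,k0],[k0,k0,(nat_lit 718),(nat_lit 718),k0,k0,
    k0,k0,k0,k0,k0,k0],[k0,k0,k0,k0,k0,k0,k0,k0,(nat_lit 564),(nat_lit 564),k0,k0],[k0,k0,k0,k0,k0,k0,k0,k0,k0,k0,k48,
    (nat_lit 436)],[k0,k0,k0,k0,k0,k0,k0,(nat_lit 564),k0,k0,k0,k0],[k0,k0,k0,k0,k0,k0,k0,(nat_lit 564),k0,k0,k128,
    k0],[k0,k0,k0,k0,k0,k0,(nat_lit 436),k0,k0,k0,k0,k0],[k0,k0,k0,k0,k0,k0,k48,k0,k128,k0,k0,k0]] (nat_lit 3840) k6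
    [[(k10,(nat_lit 1049)),(k11,(nat_lit 1049)),(k8,(nat_lit 1217)),(k1,(nat_lit 1258)),(k9,(nat_lit 1365)),(k6,
    (nat_lit 1849))],[(k5,(nat_lit 875)),(k2,(nat_lit 939)),(k3,(nat_lit 1223)),(k4,(nat_lit 1255)),(k0,
    (nat_lit 1258)),(k7,(nat_lit 1991))],[(k4,(nat_lit 768)),(k3,(nat_lit 1188)),(k0,(nat_lit 1223)),(k5,
    (nat_lit 1436)),(k2,(nat_lit 1500)),(k7,(nat_lit 1504))],[(k7,(nat_lit 768)),(k0,(nat_lit 939)),(k2,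
    (nat_lit 1152)),(k5,(nat_lit 1152)),(k3,(nat_lit 1500)),(k4,(nat_lit 1920))],[(k7,(nat_lit 768)),(k0,
    (nat_lit 875)),(k2,(nat_lit 1152)),(k5,(nat_lit 1152)),(k3,(nat_lit 1436)),(k4,(nat_lit 1920))],[(k3,
    (nat_lit 768)),(k4,(nat_lit 1252)),(k0,(nat_lit 1255)),(k7,(nat_lit 1536)),(k2,(nat_lit 1920)),(k5,
    (nat_lit 1920))],[(k2,(nat_lit 768)),(k5,(nat_lit 768)),(k3,(nat_lit 1504)),(k4,(nat_lit 1536)),(k7,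
    (nat_lit 1820)),(k0,(nat_lit 1991))],[(k11,(nat_lit 768)),(k8,(nat_lit 808)),(k10,(nat_lit 1252)),(k6,
    (nat_lit 1568)),(k9,(nat_lit 1568)),(k1,(nat_lit 1849))],[(k10,(nat_lit 768)),(k1,(nat_lit 1365)),(k6,
    (nat_lit 1568)),(k9,(nat_lit 1568)),(k11,(nat_lit 1896)),(k8,(nat_lit 1936))],[(k6,(nat_lit 808)),(k10,
    (nat_lit 1136)),(k11,(nat_lit 1136)),(k8,(nat_lit 1176)),(k1,(nat_lit 1217)),(k9,(nat_lit 1936))],[(k6,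
    (nat_lit 768)),(k10,(nat_lit 968)),(k1,(nat_lit 1049)),(k11,(nat_lit 1096)),(k8,(nat_lit 1136)),(k9,
    (nat_lit 1896))],[(k9,(nat_lit 768)),(k10,(nat_lit 840)),(k11,(nat_lit 968)),(k1,(nat_lit 1049)),(k8,
    (nat_lit 1136)),(k6,(nat_lit 1252))]]
    [[k2,k1,k0,k0,k0,k0],[k2,k0,k1,k0,k0,k0],[k2,k0,k0,k0,k0,k1],[k1,k0,k0,k1,k0,k1],[k1,k1,k0,k1,k0,k1],[k0,k2,k1,k0,
    k0,k0],[k0,k0,k0,k0,k2,k2],[k0,k0,k0,k0,k1,k2],[k0,k0,k0,k0,k0,k3]]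
    [.contra [y2,z1,y1,y4,z4],.contra [z2,z1,z1,z2,y2],.contra [z2,y1,y1,y2,z2],.contra [z1,z0,z0,y1],.contra [z1,z0,
    z0,y1],.ref k49 k2 [(z4,[z2,y5,y1,z22,y2]),(z1,[y1,z0,y2,y6,z6]),(z1,[z3,z0,z1,z3,y3])],.ref k50 k2 [(z2,[y1,y2,
    z0,z8]),(z2,[z1,z0,y2,y4,z4]),(z2,[y3,z0,z2])],.ref k52 k2 [(z1,[y1,y2,z0,z8]),(z1,[z1,z0,y2,y4,z4]),(z1,[y3,z0,
    z2])],.ref k56 k1 [(z1,[z1,z3]),(z1,[y1,z0,z1]),(z1,[z1,z0,y3,y6,z6])]],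
    .base (.geo z10 k0 [(z9,z0),(z4,z0),(z8,z0),(z11,z0),(z2,z0),(z6,z0)] [(z1,[z1]),(z1,[z0,z2]),(z1,[z0,z0,z2]),(z1,
    [y1,z0,z0,z0,z10]),(z1,[z0,z0,z0,z2]),(z1,[z0,y2,y2,y2,y10,z10])] k1),
    .base (.geo z15 k0 [(z14,z0),(z6,z0),(z12,z0),(z16,z0),(z2,z0),(z10,z0)] [(z1,[z1]),(z1,[z0,z3]),(z1,[z0,z0,z3]),
    (z1,[y1,z0,z0,z0,z15]),(z1,[z0,z0,z0,z1]),(z1,[z0,y3,y3,y1,y15,z15])] k1)]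

theorem hB6_125_4 : blkB [0, 0, 0, 1, 1, 1] [(0, 3)] sp6 hS6_125 (pcls (n := 6) [0, 0, 0, 1, 1, 1]) hD6_125 107 4 hN6_125_4 = true := by
  decide +kernel

end Pool.Agent.Lib_MP_fa6e45
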