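import Pool.Agent.Lib_MP_fa6e45.HK

/-!
MP_fa6e45_co, stage 4: certificates (captain, generated by a program).
-/

namespace Pool.Agent.Lib_MP_fa6e45

/-- nodes 60 to 71 -/
noncomputable def hN6_125_5 : List HM :=
  [.lp k0 [(nat_lit 598),(nat_lit 640),(nat_lit 626),(nat_lit 831),(nat_lit 661),(nat_lit 480)] [k177,k177,k163,k149,
    k163,k163,k0,k121,(nat_lit 215),k76,(nat_lit 257),(nat_lit 215)] k0 [[k0,k0,k0,(nat_lit 222),k0,k0,k0,k0,k0,k0,k0,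
    k0],[k0,k0,k0,k0,k98,(nat_lit 256),k0,k0,k0,k0,k0,k0],[k0,(nat_lit 222),k0,k0,(nat_lit 284),k0,k0,k0,k0,k0,k0,k0],
    [k0,k0,k0,k0,(nat_lit 284),k0,k0,k0,k0,k0,k0,k0],[(nat_lit 256),k0,k0,k0,k0,k194,k0,k0,k0,k0,k0,k0],[k98,k0,
    (nat_lit 284),(nat_lit 284),k0,k0,k0,k0,k0,k0,k0,k0],[k0,k0,k0,k0,k0,k0,k0,k0,(nat_lit 353),(nat_lit 353),k0,k63],
    [k0,k0,k0,k0,k0,k0,k0,k0,k0,k0,k0,(nat_lit 235)],[k0,k0,k0,k0,k0,k0,k0,(nat_lit 353),k0,k0,k0,k0],[k0,k0,k0,k0,k0,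
    k0,k0,(nat_lit 353),k0,k0,k118,k0],[k0,k0,k0,k0,k0,k0,(nat_lit 235),k63,k0,k0,k0,k0],[k0,k0,k0,k0,k0,k0,k0,k0,
    k118,k0,k0,k0]] (nat_lit 1920) k6
    [[(k11,(nat_lit 442)),(k10,(nat_lit 518)),(k8,(nat_lit 560)),(k1,(nat_lit 598)),(k9,(nat_lit 762)),(k6,
    (nat_lit 1010))],[(k2,(nat_lit 390)),(k0,(nat_lit 598)),(k5,(nat_lit 612)),(k3,(nat_lit 626)),(k4,(nat_lit 710)),
    (k7,(nat_lit 910))],[(k4,(nat_lit 384)),(k7,(nat_lit 584)),(k0,(nat_lit 626)),(k2,(nat_lit 640)),(k3,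
    (nat_lit 654)),(k5,(nat_lit 862))],[(k7,(nat_lit 384)),(k0,(nat_lit 390)),(k2,(nat_lit 626)),(k5,(nat_lit 626)),
    (k3,(nat_lit 640)),(k4,(nat_lit 910))],[(k7,(nat_lit 384)),(k0,(nat_lit 612)),(k2,(nat_lit 626)),(k5,
    (nat_lit 626)),(k3,(nat_lit 862)),(k4,(nat_lit 910))],[(k3,(nat_lit 384)),(k4,(nat_lit 432)),(k7,(nat_lit 668)),
    (k0,(nat_lit 710)),(k2,(nat_lit 910)),(k5,(nat_lit 910))],[(k2,(nat_lit 384)),(k5,(nat_lit 384)),(k3,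
    (nat_lit 584)),(k4,(nat_lit 668)),(k7,(nat_lit 904)),(k0,(nat_lit 910))],[(k8,(nat_lit 384)),(k11,(nat_lit 384)),
    (k10,(nat_lit 632)),(k9,(nat_lit 876)),(k6,(nat_lit 952)),(k1,(nat_lit 1010))],[(k10,(nat_lit 384)),(k1,
    (nat_lit 762)),(k9,(nat_lit 800)),(k6,(nat_lit 876)),(k8,(nat_lit 1014)),(k11,(nat_lit 1014))],[(k6,
    (nat_lit 384)),(k8,(nat_lit 522)),(k11,(nat_lit 522)),(k1,(nat_lit 560)),(k10,(nat_lit 598)),(k9,(nat_lit 1014))],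
    [(k6,(nat_lit 384)),(k1,(nat_lit 442)),(k10,(nat_lit 480)),(k8,(nat_lit 522)),(k11,(nat_lit 522)),(k9,
    (nat_lit 1014))],[(k9,(nat_lit 384)),(k10,(nat_lit 438)),(k11,(nat_lit 480)),(k1,(nat_lit 518)),(k8,
    (nat_lit 598)),(k6,(nat_lit 632))]]
    [[k2,k1,k0,k0,k0,k0],[k2,k0,k0,k0,k0,k1],[k1,k0,k0,k1,k0,k1],[k1,k1,k0,k1,k0,k1],[k0,k2,k1,k0,k0,k0],[k0,k0,k0,k0,
    k2,k2],[k0,k0,k0,k0,k1,k2],[k0,k0,k0,k0,k1,k3],[k0,k0,k0,k0,k0,k3]]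
    [.ref k47 k3 [(z2,[z5,z0,y1]),(z1,[z5,y1,y1]),(z1,[y5,z1,z0,y1,y5,z5]),(z1,[z0,z0,z0,z1])],.ref k47 k3 [(z4,[z5,
    z1]),(z2,[z5,y1]),(z2,[y5,z1,y2,y2,y10,z10]),(z1,[z0,z0,z0,z1])],.contra [z1,z0,z0,z0,y1],.contra [z15,z1,y3,z0,
    y15],.contra [z15,z0,y4,y3],.contra [z15,z0,z8,z6,z30,y30],.contra [y5,z0,y1,y2,y10,z10],.ref k58 k1 [(z2,[z5,z2,
    z1,z1,z5,y5]),(z1,[z0,z0,z1]),(z1,[z0,z0,z0,z1]),(z2,[y5,z0,y3,y3,y15,z15])],.ref k59 k1 [(z2,[z5,z3]),(z1,[z0,z0,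
    z1]),(z1,[z0,z0,z0,z1]),(z1,[y5,z0,y3,y3,y15,z15])]],
    .base (.leafM k4 [k2,k4,k5,k1] [(z2,[z0,y1,y1,y2,z2])] [(k3,k0,z1,[z0,z0,z0,z1]),(k0,k3,z1,[z0,z0,z0,z1])]),
    .lp k0 [(nat_lit 1226),(nat_lit 1202),(nat_lit 1344),(nat_lit 1536),(nat_lit 1388),(nat_lit 968)] [k187,k187,
    (nat_lit 224),k174,k32,(nat_lit 224),k32,k32,(nat_lit 212),k0,(nat_lit 380),(nat_lit 252)] k0 [[k0,k0,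
    (nat_lit 234),(nat_lit 298),k0,k0,k0,k0,k0,k0,k0,k0],[k0,k0,k0,k0,(nat_lit 278),(nat_lit 626),k0,k0,k0,k0,k0,k0],
    [k0,(nat_lit 298),k0,k0,(nat_lit 576),k0,k0,k0,k0,k0,k0,k0],[k0,(nat_lit 234),k0,k0,(nat_lit 576),k0,k0,k0,k0,k0,
    k0,k0],[(nat_lit 626),k0,k0,k0,k0,(nat_lit 348),k0,k0,k0,k0,k0,k0],[(nat_lit 278),k0,(nat_lit 576),(nat_lit 576),
    k0,k0,k0,k0,k0,k0,k0,k0],[k0,k0,k0,k0,k0,k0,k0,k0,(nat_lit 548),(nat_lit 548),k0,k0],[k0,k0,k0,k0,k0,k0,k0,k0,k0,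
    k0,k0,(nat_lit 452)],[k0,k0,k0,k0,k0,k0,k0,(nat_lit 548),k0,k0,k0,k0],[k0,k0,k0,k0,k0,k0,k0,(nat_lit 548),k0,k0,
    k96,k0],[k0,k0,k0,k0,k0,k0,(nat_lit 452),k0,k0,k0,k0,k0],[k0,k0,k0,k0,k0,k0,k0,k0,k96,k0,k0,k0]] (nat_lit 3840) k6
    [[(k10,(nat_lit 1033)),(k11,(nat_lit 1065)),(k8,(nat_lit 1201)),(k1,(nat_lit 1226)),(k9,(nat_lit 1413)),(k6,
    (nat_lit 1833))],[(k2,(nat_lit 891)),(k5,(nat_lit 955)),(k0,(nat_lit 1226)),(k3,(nat_lit 1239)),(k4,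
    (nat_lit 1659)),(k7,(nat_lit 2007))],[(k4,(nat_lit 768)),(k7,(nat_lit 1116)),(k0,(nat_lit 1239)),(k3,
    (nat_lit 1252)),(k2,(nat_lit 1436)),(k5,(nat_lit 1500))],[(k7,(nat_lit 768)),(k0,(nat_lit 891)),(k2,
    (nat_lit 1152)),(k5,(nat_lit 1152)),(k3,(nat_lit 1436)),(k4,(nat_lit 1920))],[(k7,(nat_lit 768)),(k0,
    (nat_lit 955)),(k2,(nat_lit 1152)),(k5,(nat_lit 1152)),(k3,(nat_lit 1500)),(k4,(nat_lit 1920))],[(k3,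
    (nat_lit 768)),(k4,(nat_lit 1188)),(k7,(nat_lit 1536)),(k0,(nat_lit 1659)),(k2,(nat_lit 1920)),(k5,
    (nat_lit 1920))],[(k2,(nat_lit 768)),(k5,(nat_lit 768)),(k3,(nat_lit 1116)),(k4,(nat_lit 1536)),(k7,
    (nat_lit 1884)),(k0,(nat_lit 2007))],[(k11,(nat_lit 768)),(k8,(nat_lit 808)),(k10,(nat_lit 1188)),(k6,
    (nat_lit 1536)),(k9,(nat_lit 1568)),(k1,(nat_lit 1833))],[(k10,(nat_lit 768)),(k1,(nat_lit 1413)),(k6,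
    (nat_lit 1568)),(k9,(nat_lit 1600)),(k11,(nat_lit 1896)),(k8,(nat_lit 1936))],[(k6,(nat_lit 808)),(k10,
    (nat_lit 1104)),(k11,(nat_lit 1136)),(k8,(nat_lit 1176)),(k1,(nat_lit 1201)),(k9,(nat_lit 1936))],[(k6,
    (nat_lit 768)),(k10,(nat_lit 968)),(k1,(nat_lit 1065)),(k11,(nat_lit 1096)),(k8,(nat_lit 1136)),(k9,
    (nat_lit 1896))],[(k9,(nat_lit 768)),(k10,(nat_lit 840)),(k11,(nat_lit 968)),(k1,(nat_lit 1033)),(k8,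
    (nat_lit 1104)),(k6,(nat_lit 1188))]]
    [[k2,k1,k0,k0,k0,k0],[k2,k0,k0,k0,k0,k1],[k1,k0,k0,k1,k0,k1],[k1,k1,k0,k1,k0,k1],[k0,k2,k1,k0,k0,k0],[k0,k1,k0,k2,
    k0,k0],[k0,k0,k0,k0,k2,k2],[k0,k0,k0,k0,k1,k2],[k0,k0,k0,k0,k0,k3]]
    [.contra [y1,z2,y1,y2,y2,z2],.contra [y1,z2,y1,y1,y1,z1],.contra [z1,z1,z0,z0,y1],.contra [z1,z1,z0,z0,y1],
    .contra [y1,z0,z0,y1,y2,z2],.contra [z1,z4,y1,z0,y2],.contra [z1,z0,z2,z4,z2,y2],.contra [y1,z1,y1,y1,y1,z1],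
    .contra [y1,z0,y1,y1,y1,z1]],
    .base (.geo z9 k0 [(z6,z0),(z2,z0),(z6,z0),(z12,z0),(z6,z0),(z4,z0)] [(z1,[z3]),(z1,[z0,z1]),(z1,[z0,z0,z3]),(z1,
    [y3,z0,z0,z0,z9]),(z1,[z0,z0,z0,z3]),(z1,[z0,y1,y3,y3,y9,z9])] k1),
    .base (.geo z15 k0 [(z10,z0),(z2,z0),(z10,z0),(z20,z0),(z12,z0),(z6,z0)] [(z1,[z5]),(z1,[z0,z1]),(z1,[z0,z0,z5]),
    (z1,[y5,z0,z0,z0,z15]),(z1,[z0,z0,z0,z3]),(z1,[z0,y1,y5,y3,y15,z15])] k1),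
    .base (.leafM k4 [k2,k4,k5,k1] [(z3,[z0,y1,y1,z0,y3,z3])] [(k3,k0,z1,[z0,z0,z0,z0,z1]),(k0,k3,z1,[z0,z0,z0,z0,
    z1])]),
    .lp (nat_lit 4097) [(nat_lit 484),(nat_lit 338),(nat_lit 418),(nat_lit 404),(nat_lit 310),(nat_lit 446)] [k58,k16,
    k132,k88,k70,k70,k154,k0,k124,k124,k14,k98] k0 [[k0,k0,k186,k106,k0,k0,k0,k0,k0,k0,k0,k0],[k0,k0,k0,k0,k0,k156,k0,
    k0,k0,k0,k0,k0],[k0,k106,k0,k0,k182,k0,k0,k0,k0,k0,k0,k0],[k0,k186,k0,k0,k182,k0,k0,k0,k0,k0,k0,k0],[k156,k0,k0,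
    k0,k0,k80,k0,k0,k0,k0,k0,k0],[k0,k0,k182,k182,k0,k0,k0,k0,k0,k0,k0,k0],[k0,k0,k0,k0,k0,k0,k0,k0,k2,k0,k0,k96],[k0,
    k0,k0,k0,k0,k0,k0,k0,k2,k0,k0,k176],[k0,k0,k0,k0,k0,k0,k0,k0,k0,k0,k174,k0],[k0,k0,k0,k0,k0,k0,k2,k2,k0,k0,k174,
    k0],[k0,k0,k0,k0,k0,k0,k176,k96,k0,k0,k0,k0],[k0,k0,k0,k0,k0,k0,k0,k0,k174,k174,k0,k0]] (nat_lit 1200) k6
    [[(k8,(nat_lit 244)),(k11,(nat_lit 270)),(k9,(nat_lit 514)),(k1,(nat_lit 526)),(k10,(nat_lit 528)),(k6,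
    (nat_lit 564))],[(k5,(nat_lit 244)),(k2,(nat_lit 262)),(k3,(nat_lit 412)),(k4,(nat_lit 430)),(k0,(nat_lit 442)),
    (k7,(nat_lit 656))],[(k4,(nat_lit 244)),(k3,(nat_lit 382)),(k0,(nat_lit 412)),(k7,(nat_lit 470)),(k5,
    (nat_lit 506)),(k2,(nat_lit 524))],[(k7,(nat_lit 244)),(k0,(nat_lit 262)),(k2,(nat_lit 294)),(k5,(nat_lit 356)),
    (k3,(nat_lit 524)),(k4,(nat_lit 538))],[(k0,(nat_lit 244)),(k7,(nat_lit 306)),(k2,(nat_lit 356)),(k5,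
    (nat_lit 418)),(k3,(nat_lit 506)),(k4,(nat_lit 600))],[(k3,(nat_lit 244)),(k4,(nat_lit 338)),(k0,(nat_lit 430)),
    (k7,(nat_lit 488)),(k2,(nat_lit 538)),(k5,(nat_lit 600))],[(k2,(nat_lit 244)),(k5,(nat_lit 306)),(k3,
    (nat_lit 470)),(k4,(nat_lit 488)),(k7,(nat_lit 638)),(k0,(nat_lit 656))],[(k6,(nat_lit 250)),(k9,(nat_lit 280)),
    (k8,(nat_lit 282)),(k10,(nat_lit 294)),(k11,(nat_lit 304)),(k1,(nat_lit 564))],[(k10,(nat_lit 244)),(k6,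
    (nat_lit 280)),(k9,(nat_lit 310)),(k8,(nat_lit 312)),(k11,(nat_lit 334)),(k1,(nat_lit 514))],[(k1,(nat_lit 244)),
    (k6,(nat_lit 282)),(k8,(nat_lit 310)),(k9,(nat_lit 312)),(k11,(nat_lit 336)),(k10,(nat_lit 594))],[(k1,
    (nat_lit 270)),(k6,(nat_lit 304)),(k9,(nat_lit 334)),(k8,(nat_lit 336)),(k11,(nat_lit 362)),(k10,(nat_lit 620))],
    [(k9,(nat_lit 244)),(k6,(nat_lit 294)),(k1,(nat_lit 528)),(k10,(nat_lit 530)),(k8,(nat_lit 594)),(k11,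
    (nat_lit 620))]]
    [[k1,k0,k0,k1,k1,k0],[k1,k1,k0,k1,k1,k0],[k0,k2,k1,k0,k0,k0],[k0,k2,k0,k2,k0,k0],[k0,k1,k1,k2,k0,k0],[k0,k1,k0,k2,
    k0,k0],[k0,k0,k1,k2,k0,k0],[k0,k0,k0,k0,k3,k0],[k0,k0,k0,k0,k2,k1],[k0,k0,k0,k0,k2,k2]]
    [.contra [z1,z0,z0,z0,y1],.contra [z9,z3,y1,z2,y3,y6],.contra [y9,z0,z2,y1,y12,z12],.contra [z1,z1,z0,z0,y2],
    .contra [z3,z4,z0,y1,y6],.contra [z1,z1,z0,z0,y2],.contra [y3,z2,z0,z1,z6],.ref k63 k1 [(z1,[z0,z1]),(z1,[y2,z0,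
    z1,y2,y6,z6]),(z1,[z0,z0,z0,z1]),(z1,[z1])],.ref k64 k1 [(z1,[z0,z1]),(z1,[y6,z0,z1,y4,y12,z12]),(z1,[z0,z0,z0,
    z1]),(z3,[z9,z0,z1,z1,z3,y3])],.ref k65 k1 [(z1,[z0,z1]),(z2,[y3,z0,z0,y2,y6,z6]),(z1,[z0,z0,z0,z1]),(z6,[z9,z0,
    z2,z2,z6,y6])]],
    .lp k0 [(nat_lit 1258),(nat_lit 1170),(nat_lit 1202),(nat_lit 1694),(nat_lit 1372),(nat_lit 968)] [(nat_lit 281),
    (nat_lit 281),(nat_lit 334),(nat_lit 316),(nat_lit 284),(nat_lit 334),k126,k0,(nat_lit 322),k126,(nat_lit 490),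
    (nat_lit 362)] k0 [[k0,k0,(nat_lit 330),(nat_lit 266),k0,k0,k0,k0,k0,k0,k0,k0],[k0,k0,k0,k0,k0,(nat_lit 452),k0,
    k0,k0,k0,k0,k0],[k0,(nat_lit 266),k0,k0,(nat_lit 718),k0,k0,k0,k0,k0,k0,k0],[k0,(nat_lit 330),k0,k0,(nat_lit 718),
    k0,k0,k0,k0,k0,k0,k0],[(nat_lit 452),k0,k0,k0,k0,k0,k0,k0,k0,k0,k0,k0],[k0,k0,(nat_lit 718),(nat_lit 718),k0,k0,
    k0,k0,k0,k0,k0,k0],[k0,k0,k0,k0,k0,k0,k0,k0,(nat_lit 564),(nat_lit 564),k0,k0],[k0,k0,k0,k0,k0,k0,k0,k0,k0,k0,k48,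
    (nat_lit 436)],[k0,k0,k0,k0,k0,k0,k0,(nat_lit 564),k0,k0,k0,k0],[k0,k0,k0,k0,k0,k0,k0,(nat_lit 564),k0,k0,k128,
    k0],[k0,k0,k0,k0,k0,k0,(nat_lit 436),k0,k0,k0,k0,k0],[k0,k0,k0,k0,k0,k0,k48,k0,k128,k0,k0,k0]] (nat_lit 3840) k6
    [[(k10,(nat_lit 1049)),(k11,(nat_lit 1049)),(k8,(nat_lit 1217)),(k1,(nat_lit 1258)),(k9,(nat_lit 1365)),(k6,
    (nat_lit 1849))],[(k5,(nat_lit 875)),(k2,(nat_lit 939)),(k3,(nat_lit 1223)),(k4,(nat_lit 1255)),(k0,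
    (nat_lit 1258)),(k7,(nat_lit 1991))],[(k4,(nat_lit 768)),(k3,(nat_lit 1188)),(k0,(nat_lit 1223)),(k5,
    (nat_lit 1436)),(k2,(nat_lit 1500)),(k7,(nat_lit 1504))],[(k7,(nat_lit 768)),(k0,(nat_lit 939)),(k2,
    (nat_lit 1152)),(k5,(nat_lit 1152)),(k3,(nat_lit 1500)),(k4,(nat_lit 1920))],[(k7,(nat_lit 768)),(k0,
    (nat_lit 875)),(k2,(nat_lit 1152)),(k5,(nat_lit 1152)),(k3,(nat_lit 1436)),(k4,(nat_lit 1920))],[(k3,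
    (nat_lit 768)),(k4,(nat_lit 1252)),(k0,(nat_lit 1255)),(k7,(nat_lit 1536)),(k2,(nat_lit 1920)),(k5,
    (nat_lit 1920))],[(k2,(nat_lit 768)),(k5,(nat_lit 768)),(k3,(nat_lit 1504)),(k4,(nat_lit 1536)),(k7,
    (nat_lit 1820)),(k0,(nat_lit 1991))],[(k11,(nat_lit 768)),(k8,(nat_lit 808)),(k10,(nat_lit 1252)),(k6,
    (nat_lit 1568)),(k9,(nat_lit 1568)),(k1,(nat_lit 1849))],[(k10,(nat_lit 768)),(k1,(nat_lit 1365)),(k6,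
    (nat_lit 1568)),(k9,(nat_lit 1568)),(k11,(nat_lit 1896)),(k8,(nat_lit 1936))],[(k6,(nat_lit 808)),(k10,
    (nat_lit 1136)),(k11,(nat_lit 1136)),(k8,(nat_lit 1176)),(k1,(nat_lit 1217)),(k9,(nat_lit 1936))],[(k6,
    (nat_lit 768)),(k10,(nat_lit 968)),(k1,(nat_lit 1049)),(k11,(nat_lit 1096)),(k8,(nat_lit 1136)),(k9,
    (nat_lit 1896))],[(k9,(nat_lit 768)),(k10,(nat_lit 840)),(k11,(nat_lit 968)),(k1,(nat_lit 1049)),(k8,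
    (nat_lit 1136)),(k6,(nat_lit 1252))]]
    [[k2,k1,k0,k0,k0,k0],[k2,k0,k1,k0,k0,k0],[k2,k0,k0,k0,k0,k1],[k1,k0,k0,k1,k0,k1],[k1,k1,k0,k1,k0,k1],[k0,k2,k1,k0,
    k0,k0],[k0,k0,k0,k0,k2,k2],[k0,k0,k0,k0,k1,k2],[k0,k0,k0,k0,k0,k3]]
    [.contra [z1,y1],.contra [z1,y1],.contra [z1,z1],.contra [z1,z1,z0,y1],.contra [z1,z0,z0,y1],.ref k60 k2 [(z1,[z2,
    y5,y1,z12,y2]),(z1,[y1,z0,y2,y6,z6]),(z1,[z3,z0,z1,z3,y3])],.ref k61 k2 [(z2,[y1,y2,z0,z4]),(z2,[z1,z0,y2,y4,z4]),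
    (z2,[y3,z0,z2])],.ref k62 k0 [(z2,[y1,y1,z1,z4,y2]),(z1,[y1,z0,z2,z4,y4]),(z1,[z1,z0,y1,y2,z2])],.ref k66 k0 [(z2,
    [y1,y3,z0,z6]),(z1,[y1,z0,z3,z6,y6]),(z1,[z1])]],
    .base (.leafM k4 [k2,k4,k5,k1] [(z2,[y1,y1,y2,z2])] [(k3,k0,z1,[z0,z0,z1]),(k0,k3,z1,[z0,z0,z1])]),
    .base (.geo z4 k5 [(z2,z1),(z4,y2),(y4,z6),(z6,y1),(z8,y8),(z0,z4)] [(z1,[z1]),(z1,[z0,z2]),(z1,[z0,z0,z2]),(z1,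
    [y1,z0,z0,z4]),(z1,[z0,y2,y2,y4,z4]),(z1,[])] k8),
    .base (.geo z2 k5 [(z0,z2),(z2,y1),(y2,z3),(z4,y2),(z4,y4),(z0,z2)] [(z1,[z2]),(z1,[z0,z1]),(z1,[z0,z0,z1]),(z1,
    [y2,z0,z0,z2]),(z1,[z0,y1,y1,y2,z2]),(z1,[])] k8),
    .lp (nat_lit 4097) [(nat_lit 484),(nat_lit 338),(nat_lit 418),(nat_lit 404),(nat_lit 310),(nat_lit 446)] [k58,k16,
    k132,k88,k70,k70,k154,k0,k124,k124,k14,k98] k0 [[k0,k0,k186,k106,k0,k0,k0,k0,k0,k0,k0,k0],[k0,k0,k0,k0,k0,k156,k0,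
    k0,k0,k0,k0,k0],[k0,k106,k0,k0,k182,k0,k0,k0,k0,k0,k0,k0],[k0,k186,k0,k0,k182,k0,k0,k0,k0,k0,k0,k0],[k156,k0,k0,
    k0,k0,k80,k0,k0,k0,k0,k0,k0],[k0,k0,k182,k182,k0,k0,k0,k0,k0,k0,k0,k0],[k0,k0,k0,k0,k0,k0,k0,k0,k2,k0,k0,k96],[k0,
    k0,k0,k0,k0,k0,k0,k0,k2,k0,k0,k176],[k0,k0,k0,k0,k0,k0,k0,k0,k0,k0,k174,k0],[k0,k0,k0,k0,k0,k0,k2,k2,k0,k0,k174,
    k0],[k0,k0,k0,k0,k0,k0,k176,k96,k0,k0,k0,k0],[k0,k0,k0,k0,k0,k0,k0,k0,k174,k174,k0,k0]] (nat_lit 1200) k6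
    [[(k8,(nat_lit 244)),(k11,(nat_lit 270)),(k9,(nat_lit 514)),(k1,(nat_lit 526)),(k10,(nat_lit 528)),(k6,
    (nat_lit 564))],[(k5,(nat_lit 244)),(k2,(nat_lit 262)),(k3,(nat_lit 412)),(k4,(nat_lit 430)),(k0,(nat_lit 442)),
    (k7,(nat_lit 656))],[(k4,(nat_lit 244)),(k3,(nat_lit 382)),(k0,(nat_lit 412)),(k7,(nat_lit 470)),(k5,
    (nat_lit 506)),(k2,(nat_lit 524))],[(k7,(nat_lit 244)),(k0,(nat_lit 262)),(k2,(nat_lit 294)),(k5,(nat_lit 356)),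
    (k3,(nat_lit 524)),(k4,(nat_lit 538))],[(k0,(nat_lit 244)),(k7,(nat_lit 306)),(k2,(nat_lit 356)),(k5,
    (nat_lit 418)),(k3,(nat_lit 506)),(k4,(nat_lit 600))],[(k3,(nat_lit 244)),(k4,(nat_lit 338)),(k0,(nat_lit 430)),
    (k7,(nat_lit 488)),(k2,(nat_lit 538)),(k5,(nat_lit 600))],[(k2,(nat_lit 244)),(k5,(nat_lit 306)),(k3,
    (nat_lit 470)),(k4,(nat_lit 488)),(k7,(nat_lit 638)),(k0,(nat_lit 656))],[(k6,(nat_lit 250)),(k9,(nat_lit 280)),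
    (k8,(nat_lit 282)),(k10,(nat_lit 294)),(k11,(nat_lit 304)),(k1,(nat_lit 564))],[(k10,(nat_lit 244)),(k6,
    (nat_lit 280)),(k9,(nat_lit 310)),(k8,(nat_lit 312)),(k11,(nat_lit 334)),(k1,(nat_lit 514))],[(k1,(nat_lit 244)),
    (k6,(nat_lit 282)),(k8,(nat_lit 310)),(k9,(nat_lit 312)),(k11,(nat_lit 336)),(k10,(nat_lit 594))],[(k1,
    (nat_lit 270)),(k6,(nat_lit 304)),(k9,(nat_lit 334)),(k8,(nat_lit 336)),(k11,(nat_lit 362)),(k10,(nat_lit 620))],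
    [(k9,(nat_lit 244)),(k6,(nat_lit 294)),(k1,(nat_lit 528)),(k10,(nat_lit 530)),(k8,(nat_lit 594)),(k11,
    (nat_lit 620))]]
    [[k1,k0,k0,k1,k1,k0],[k1,k1,k0,k1,k1,k0],[k0,k2,k1,k0,k0,k0],[k0,k2,k0,k2,k0,k0],[k0,k1,k1,k2,k0,k0],[k0,k1,k0,k2,
    k0,k0],[k0,k0,k1,k2,k0,k0],[k0,k0,k0,k0,k3,k0],[k0,k0,k0,k0,k2,k1],[k0,k0,k0,k0,k2,k2]]
    [.contra [y2,z0,y1,y1,z0,z2],.contra [z1,z0,z0,z0,y1],.contra [z2,z1,y2,y1],.contra [y1,z1,z1,z0,z2],.contra [z2,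
    z4,z1,y1,y4],.contra [y2,z1,z1,z0,z4],.contra [z2,z4,z1,y1,y4],.contra [y2,z0,y3,z1,y6,z6],.contra [y1,z0,y1,z0,
    y2,z2],.contra [y1,z0,y1,y1,y2,z2]]]

theorem hB6_125_5 : blkB [0, 0, 0, 1, 1, 1] [(0, 3)] sp6 hS6_125 (pcls (n := 6) [0, 0, 0, 1, 1, 1]) hD6_125 107 5 hN6_125_5 = true := by
  decide +kernel

/-- nodes 72 to 83 -/
noncomputable def hN6_125_6 : List HM :=
  [.lp k0 [(nat_lit 456),(nat_lit 394),(nat_lit 350),(nat_lit 420),(nat_lit 396),(nat_lit 364)] [k48,k48,k79,k79,k106,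
    k96,k66,k66,k156,k0,k32,k156] k0 [[k0,k0,k106,k106,k0,k124,k0,k0,k0,k0,k0,k0],[k0,k0,k0,k0,k0,k44,k0,k0,k0,k0,k0,
    k0],[k0,k106,k0,k0,k150,k0,k0,k0,k0,k0,k0,k0],[k0,k106,k0,k0,k150,k0,k0,k0,k0,k0,k0,k0],[k44,k124,k0,k0,k0,k0,k0,
    k0,k0,k0,k0,k0],[k0,k0,k150,k150,k0,k0,k0,k0,k0,k0,k0,k0],[k0,k0,k0,k0,k0,k0,k0,k8,k4,k0,k0,k0],[k0,k0,k0,k0,k0,
    k0,k0,k0,k0,k0,k0,(nat_lit 280)],[k0,k0,k0,k0,k0,k0,k0,k0,k0,k0,k108,k0],[k0,k0,k0,k0,k0,k0,k0,k4,k0,k0,k0,k0],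
    [k0,k0,k0,k0,k0,k0,(nat_lit 280),k0,k0,k0,k0,k0],[k0,k0,k0,k0,k0,k0,k0,k0,k0,k108,k0,k0]] (nat_lit 1200) k6
    [[(k8,(nat_lit 240)),(k11,(nat_lit 348)),(k1,(nat_lit 456)),(k10,(nat_lit 472)),(k9,(nat_lit 504)),(k6,
    (nat_lit 718))],[(k4,(nat_lit 274)),(k5,(nat_lit 302)),(k2,(nat_lit 319)),(k3,(nat_lit 425)),(k0,(nat_lit 456)),
    (k7,(nat_lit 482))],[(k4,(nat_lit 323)),(k3,(nat_lit 394)),(k0,(nat_lit 425)),(k5,(nat_lit 483)),(k2,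
    (nat_lit 500)),(k7,(nat_lit 531))],[(k7,(nat_lit 257)),(k0,(nat_lit 319)),(k5,(nat_lit 377)),(k2,(nat_lit 394)),
    (k3,(nat_lit 500)),(k4,(nat_lit 517))],[(k7,(nat_lit 240)),(k0,(nat_lit 302)),(k5,(nat_lit 360)),(k2,
    (nat_lit 377)),(k3,(nat_lit 483)),(k4,(nat_lit 500))],[(k0,(nat_lit 274)),(k3,(nat_lit 323)),(k4,(nat_lit 340)),
    (k7,(nat_lit 380)),(k5,(nat_lit 500)),(k2,(nat_lit 517))],[(k5,(nat_lit 240)),(k2,(nat_lit 257)),(k4,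
    (nat_lit 380)),(k7,(nat_lit 420)),(k0,(nat_lit 482)),(k3,(nat_lit 531))],[(k11,(nat_lit 326)),(k8,(nat_lit 330)),
    (k6,(nat_lit 412)),(k10,(nat_lit 454)),(k9,(nat_lit 486)),(k1,(nat_lit 718))],[(k10,(nat_lit 240)),(k11,
    (nat_lit 396)),(k8,(nat_lit 400)),(k6,(nat_lit 486)),(k1,(nat_lit 504)),(k9,(nat_lit 560))],[(k1,(nat_lit 240)),
    (k8,(nat_lit 240)),(k11,(nat_lit 240)),(k6,(nat_lit 330)),(k10,(nat_lit 364)),(k9,(nat_lit 400))],[(k8,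
    (nat_lit 240)),(k11,(nat_lit 240)),(k6,(nat_lit 326)),(k1,(nat_lit 348)),(k9,(nat_lit 396)),(k10,(nat_lit 472))],
    [(k9,(nat_lit 240)),(k8,(nat_lit 364)),(k6,(nat_lit 454)),(k1,(nat_lit 472)),(k11,(nat_lit 472)),(k10,
    (nat_lit 488))]]
    [[k2,k0,k1,k0,k0,k0],[k0,k0,k1,k2,k0,k0],[k0,k0,k0,k0,k2,k1],[k0,k0,k0,k0,k2,k2],[k0,k0,k0,k0,k1,k2]]
    [.contra [y1,z2,y2,y1,y2,z2],.contra [z1,z4,z0,y1,y2],.contra [y1,z1,y2,y1,y2,z2],.contra [z1,z0,z4,z2,z2,y2],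
    .contra [y1,z1,y1,y1,y1,z1]],
    .base (.geo z1 k5 [(z1,z1),(z2,y2),(y2,z4),(z1,y1),(z2,y3),(z0,z1)] [(z1,[z1]),(z1,[z0,z1]),(z1,[z0,z0,z1]),(z1,
    [y1,z0,z0,z1]),(z1,[z0,y1,y1,y1,z1]),(z1,[])] k8),
    .base (.geo z2 k5 [(z2,z1),(z2,y1),(y2,z3),(z2,y1),(z4,y4),(z0,z2)] [(z1,[z1]),(z1,[z0,z1]),(z1,[z0,z0,z1]),(z1,
    [y1,z0,z0,z2]),(z1,[z0,y1,y1,y2,z2]),(z1,[])] k7),
    .base (.geo z2 k5 [(z2,z1),(z4,y4),(y4,z8),(z2,y1),(z4,y6),(z0,z2)] [(z1,[z1]),(z1,[z0,z2]),(z1,[z0,z0,z2]),(z1,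
    [y1,z0,z0,z2]),(z1,[z0,y2,y2,y2,z2]),(z1,[])] k8),
    .base (.geo z4 k5 [(z2,z3),(z4,y2),(y4,z6),(z6,y3),(z8,y8),(z0,z4)] [(z1,[z1]),(z1,[z0,z2]),(z1,[z0,z0,z2]),(z1,
    [y1,z0,z0,z4]),(z1,[z0,y2,y2,y4,z4]),(z1,[])] k7),
    .lp k0 [k132,k131,(nat_lit 216),k151,k164,k164] [k93,k85,k94,k85,k0,k94,k85,k74,k73,k73,k73,k73] k0 [[k0,k0,k0,k0,
    k0,k0,k0,k0,k0,k0,k0,k0],[k0,k0,k0,k0,k0,k129,k0,k0,k0,k0,k0,k0],[k0,k0,k0,k0,k46,k0,k0,k0,k0,k0,k0,k0],[k0,k0,k0,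
    k0,k46,k0,k0,k0,k0,k0,k0,k0],[k129,k0,k0,k0,k0,k70,k0,k0,k0,k0,k0,k0],[k0,k0,k46,k46,k0,k0,k0,k0,k0,k0,k0,k0],[k0,
    k0,k0,k0,k0,k0,k0,k0,k56,k56,k0,k0],[k0,k0,k0,k0,k0,k0,k0,k0,k0,k0,k0,k68],[k0,k0,k0,k0,k0,k0,k0,k56,k0,k0,k56,
    k0],[k0,k0,k0,k0,k0,k0,k0,k56,k0,k0,k56,k0],[k0,k0,k0,k0,k0,k0,k68,k0,k0,k0,k0,k0],[k0,k0,k0,k0,k0,k0,k0,k0,k56,
    k56,k0,k0]] (nat_lit 480) k6
    [[(k8,k96),(k11,k96),(k1,k140),(k9,k152),(k10,k152),(k6,(nat_lit 208))],[(k2,k123),(k5,k123),(k0,k124),(k3,k132),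
    (k4,(nat_lit 217)),(k7,(nat_lit 272))],[(k4,k96),(k2,k131),(k5,k131),(k0,k132),(k3,k140),(k7,k151)],[(k7,k96),(k2,
    k122),(k5,k122),(k0,k123),(k3,k131),(k4,(nat_lit 262))],[(k7,k96),(k2,k122),(k5,k122),(k0,k123),(k3,k131),(k4,
    (nat_lit 262))],[(k3,k96),(k0,(nat_lit 217)),(k7,(nat_lit 236)),(k4,(nat_lit 240)),(k2,(nat_lit 262)),(k5,
    (nat_lit 262))],[(k2,k96),(k5,k96),(k3,k151),(k7,(nat_lit 232)),(k4,(nat_lit 236)),(k0,(nat_lit 272))],[(k8,k96),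
    (k11,k96),(k6,k140),(k9,k152),(k10,k152),(k1,(nat_lit 208))],[(k10,k96),(k1,k152),(k6,k152),(k9,k164),(k8,
    (nat_lit 220)),(k11,(nat_lit 220))],[(k1,k96),(k6,k96),(k8,k164),(k11,k164),(k9,(nat_lit 220)),(k10,
    (nat_lit 220))],[(k1,k96),(k6,k96),(k8,k164),(k11,k164),(k9,(nat_lit 220)),(k10,(nat_lit 220))],[(k9,k96),(k1,
    k152),(k6,k152),(k10,k164),(k8,(nat_lit 220)),(k11,(nat_lit 220))]]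
    [[k2,k1,k0,k0,k0,k0],[k1,k1,k0,k1,k0,k0],[k2,k0,k0,k0,k1,k0],[k1,k1,k0,k1,k1,k0],[k2,k0,k0,k0,k1,k1],[k2,k0,k0,k0,
    k0,k1],[k1,k1,k0,k1,k0,k1],[k0,k3,k0,k0,k0,k0],[k0,k2,k1,k0,k0,k0],[k0,k2,k0,k2,k0,k0],[k0,k2,k2,k0,k0,k0],[k0,k1,
    k1,k2,k0,k0],[k0,k1,k0,k2,k0,k0],[k0,k0,k1,k2,k0,k0]]
    [.ref k69 k1 [(z1,[z2,y1]),(z1,[z0,z1]),(z1,[z0,z0,z1])],.contra [z1,z0,z0,y1],.ref k70 k1 [(z4,[z2,z1,z1,z2,y2]),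
    (z1,[z0,z1]),(z1,[z0,z0,z1])],.contra [z1,z0,z0,y1],.ref k71 k1 [(z2,[z2,z1,z1,z2,y2]),(z1,[z0,z1]),(z1,[z0,z0,
    z1])],.ref k72 k3 [(z2,[z1,y1]),(z1,[z0,z1]),(z2,[z0,y5,y1,y2,z2])],.contra [z2,z1,z1,y2],.contra [y2,z3,z1],
    .contra [y2,z3,z1],.ref k73 k3 [(z2,[y1,z0,z0,z2]),(z1,[z0,z1]),(z2,[z0,y5,y1,y2,z2])],.contra [z1,y1,y1],
    .ref k74 k1 [(z2,[y2,z1,z1,z4]),(z1,[z0,z1]),(z1,[z0,z0,z1])],.ref k75 k3 [(z1,[y1,z0,z0,z2]),(z1,[z0,z1]),(z2,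
    [z0,y5,y1,y2,z2])],.ref k76 k1 [(z1,[y2,z0,z1,z4]),(z1,[z0,z1]),(z1,[z0,z0,z1])]],
    .lp k0 [(nat_lit 685),(nat_lit 480),(nat_lit 642),(nat_lit 796),(nat_lit 685),(nat_lit 550)] [k181,k0,k145,
    (nat_lit 241),k95,k129,k35,k35,k154,k27,k162,k154] k0 [[k0,k0,k0,k156,k0,k150,k0,k0,k0,k0,k0,k0],[k0,k0,k0,k0,k0,
    k146,k0,k0,k0,k0,k0,k0],[k0,k156,k0,k0,(nat_lit 302),k0,k0,k0,k0,k0,k0,k0],[k0,k0,k0,k0,(nat_lit 302),k0,k0,k0,k0,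
    k0,k0,k0],[k146,k150,k0,k0,k0,k0,k0,k0,k0,k0,k0,k0],[k0,k0,(nat_lit 302),(nat_lit 302),k0,k0,k0,k0,k0,k0,k0,k0],
    [k0,k0,k0,k0,k0,k0,k0,k0,(nat_lit 293),(nat_lit 293),k0,k0],[k0,k0,k0,k0,k0,k0,k0,k0,k0,k0,k71,(nat_lit 293)],[k0,
    k0,k0,k0,k0,k0,k0,(nat_lit 293),k0,k0,(nat_lit 328),k0],[k0,k0,k0,k0,k0,k0,k0,(nat_lit 293),k0,k0,k0,k0],[k0,k0,
    k0,k0,k0,k0,(nat_lit 293),k0,k0,k0,k0,k58],[k0,k0,k0,k0,k0,k0,k71,k0,k0,(nat_lit 328),k0,k0]] (nat_lit 1920) k6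
    [[(k8,(nat_lit 384)),(k10,(nat_lit 704)),(k11,(nat_lit 712)),(k9,(nat_lit 768)),(k1,(nat_lit 924)),(k6,
    (nat_lit 1124))],[(k2,(nat_lit 384)),(k4,(nat_lit 440)),(k3,(nat_lit 444)),(k0,(nat_lit 504)),(k5,(nat_lit 556)),
    (k7,(nat_lit 796))],[(k3,(nat_lit 384)),(k4,(nat_lit 384)),(k0,(nat_lit 444)),(k2,(nat_lit 480)),(k5,
    (nat_lit 652)),(k7,(nat_lit 740))],[(k0,(nat_lit 384)),(k7,(nat_lit 384)),(k3,(nat_lit 480)),(k2,(nat_lit 576)),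
    (k5,(nat_lit 592)),(k4,(nat_lit 928))],[(k7,(nat_lit 400)),(k0,(nat_lit 556)),(k2,(nat_lit 592)),(k5,
    (nat_lit 608)),(k3,(nat_lit 652)),(k4,(nat_lit 944))],[(k3,(nat_lit 384)),(k0,(nat_lit 440)),(k4,(nat_lit 676)),
    (k7,(nat_lit 736)),(k2,(nat_lit 928)),(k5,(nat_lit 944))],[(k2,(nat_lit 384)),(k5,(nat_lit 400)),(k4,
    (nat_lit 736)),(k3,(nat_lit 740)),(k0,(nat_lit 796)),(k7,(nat_lit 796))],[(k8,(nat_lit 384)),(k11,(nat_lit 384)),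
    (k10,(nat_lit 740)),(k6,(nat_lit 796)),(k9,(nat_lit 804)),(k1,(nat_lit 1124))],[(k10,(nat_lit 384)),(k1,
    (nat_lit 768)),(k6,(nat_lit 804)),(k9,(nat_lit 812)),(k8,(nat_lit 978)),(k11,(nat_lit 978))],[(k1,(nat_lit 384)),
    (k6,(nat_lit 384)),(k10,(nat_lit 550)),(k8,(nat_lit 558)),(k11,(nat_lit 558)),(k9,(nat_lit 978))],[(k6,
    (nat_lit 384)),(k8,(nat_lit 558)),(k11,(nat_lit 558)),(k1,(nat_lit 712)),(k10,(nat_lit 878)),(k9,(nat_lit 978))],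
    [(k9,(nat_lit 384)),(k10,(nat_lit 484)),(k8,(nat_lit 550)),(k1,(nat_lit 704)),(k6,(nat_lit 740)),(k11,
    (nat_lit 878))]]
    [[k2,k1,k0,k0,k0,k0],[k2,k0,k0,k0,k1,k0],[k1,k0,k0,k1,k0,k1],[k1,k1,k0,k1,k0,k1],[k0,k3,k0,k0,k0,k0],[k0,k2,k1,k0,
    k0,k0],[k0,k0,k0,k0,k2,k2],[k0,k0,k0,k0,k1,k2]]
    [.ref k57 k2 [(z1,[y2,z1,z4]),(z1,[z0,y1,y2,z2])],.ref k67 k2 [(z1,[y1,z0,z2]),(z1,[z0,y1,y2,z2])],.contra [z1,z0,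
    y1],.contra [z1,z0,y1],.contra [y1,z1,y1,z1],.contra [y1,z1,y1,z1],.ref k68 k1 [(z2,[z1,z2]),(z2,[y3,y2,y4,z4])],
    .ref k77 k1 [(z1,[z1,z1]),(z1,[y3,y1,y2,z2])]],
    .base (.geo z9 k0 [(z8,z0),(z2,z0),(z6,z0),(z10,z0),(z2,z0),(z8,z0)] [(z1,[z1]),(z1,[z0,z1]),(z1,[z0,z0,z3]),(z1,
    [y1,z0,z0,z0,z9]),(z1,[z0,z0,z0,z1]),(z1,[z0,y1,y3,y1,y9,z9])] k1),
    .lp k0 [(nat_lit 748),(nat_lit 554),(nat_lit 682),(nat_lit 636),(nat_lit 488),(nat_lit 716)] [k52,k0,k123,k123,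
    k17,k101,k149,k15,k156,k156,k0,k84] k0 [[k0,k0,(nat_lit 258),k162,k0,k0,k0,k0,k0,k0,k0,k0],[k0,k0,k0,k0,k0,
    (nat_lit 276),k0,k0,k0,k0,k0,k0],[k0,k162,k0,k0,(nat_lit 278),k0,k0,k0,k0,k0,k0,k0],[k0,(nat_lit 258),k0,k0,
    (nat_lit 278),k0,k0,k0,k0,k0,k0,k0],[(nat_lit 276),k0,k0,k0,k0,k160,k0,k0,k0,k0,k0,k0],[k0,k0,(nat_lit 278),
    (nat_lit 278),k0,k0,k0,k0,k0,k0,k0,k0],[k0,k0,k0,k0,k0,k0,k0,k0,k0,k0,k0,k196],[k0,k0,k0,k0,k0,k0,k0,k0,k0,k0,k0,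
    (nat_lit 260)],[k0,k0,k0,k0,k0,k0,k0,k0,k0,k0,(nat_lit 260),k0],[k0,k0,k0,k0,k0,k0,k0,k0,k0,k0,(nat_lit 260),k0],
    [k0,k0,k0,k0,k0,k0,(nat_lit 260),k196,k0,k0,k0,k0],[k0,k0,k0,k0,k0,k0,k0,k0,(nat_lit 260),(nat_lit 260),k0,
    k0]] (nat_lit 1920) k6
    [[(k8,(nat_lit 384)),(k11,(nat_lit 456)),(k1,(nat_lit 800)),(k10,(nat_lit 800)),(k9,(nat_lit 840)),(k6,
    (nat_lit 911))],[(k5,(nat_lit 389)),(k2,(nat_lit 463)),(k3,(nat_lit 625)),(k0,(nat_lit 696)),(k4,(nat_lit 731)),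
    (k7,(nat_lit 1009))],[(k4,(nat_lit 384)),(k3,(nat_lit 554)),(k0,(nat_lit 625)),(k7,(nat_lit 662)),(k5,
    (nat_lit 738)),(k2,(nat_lit 812))],[(k7,(nat_lit 384)),(k0,(nat_lit 463)),(k2,(nat_lit 554)),(k5,(nat_lit 576)),
    (k3,(nat_lit 812)),(k4,(nat_lit 938))],[(k0,(nat_lit 389)),(k7,(nat_lit 406)),(k2,(nat_lit 576)),(k5,
    (nat_lit 598)),(k3,(nat_lit 738)),(k4,(nat_lit 960))],[(k3,(nat_lit 384)),(k4,(nat_lit 606)),(k0,(nat_lit 731)),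
    (k7,(nat_lit 768)),(k2,(nat_lit 938)),(k5,(nat_lit 960))],[(k2,(nat_lit 384)),(k5,(nat_lit 406)),(k3,
    (nat_lit 662)),(k4,(nat_lit 768)),(k7,(nat_lit 930)),(k0,(nat_lit 1009))],[(k10,(nat_lit 455)),(k8,(nat_lit 495)),
    (k9,(nat_lit 495)),(k6,(nat_lit 502)),(k11,(nat_lit 567)),(k1,(nat_lit 911))],[(k10,(nat_lit 384)),(k8,
    (nat_lit 488)),(k9,(nat_lit 488)),(k6,(nat_lit 495)),(k11,(nat_lit 560)),(k1,(nat_lit 840))],[(k1,(nat_lit 384)),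
    (k8,(nat_lit 488)),(k9,(nat_lit 488)),(k6,(nat_lit 495)),(k11,(nat_lit 560)),(k10,(nat_lit 904))],[(k1,
    (nat_lit 456)),(k8,(nat_lit 560)),(k9,(nat_lit 560)),(k6,(nat_lit 567)),(k11,(nat_lit 632)),(k10,(nat_lit 976))],
    [(k9,(nat_lit 384)),(k6,(nat_lit 455)),(k1,(nat_lit 800)),(k10,(nat_lit 800)),(k8,(nat_lit 904)),(k11,
    (nat_lit 976))]]
    [[k2,k1,k0,k0,k0,k0],[k1,k0,k0,k1,k1,k0],[k1,k1,k0,k1,k1,k0],[k0,k2,k1,k0,k0,k0],[k0,k2,k0,k2,k0,k0],[k0,k1,k1,k2,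
    k0,k0],[k0,k1,k0,k2,k0,k0],[k0,k0,k1,k2,k0,k0],[k0,k0,k0,k0,k3,k0],[k0,k0,k0,k0,k2,k1],[k0,k0,k0,k0,k2,k2]]
    [.ref k79 k1 [(z1,[z3,z3,y1]),(z1,[z3,y6,z2]),(z1,[z0,z0,z0,z1]),(z1,[y6,z12,y1,y3,y9,z9])],.contra [y3,z6,y1,y1,
    z0,z3],.contra [z1,z0,z0,z0,y1],.contra [y3,z0,z2,y1,y6,z6],.contra [y3,y6,z2,z2,z6],.contra [z3,z3,y1,y1,y3],
    .contra [z3,z6,y1,y1,y9,z3],.contra [z1,z2,z0,y1,y4,z2],.contra [y1,z0,z1,y1,y3,z3],.contra [y3,z0,z1,y2,y6,z6],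
    .contra [y3,z6,y2,y2,y6,z6]],
    .lp (nat_lit 4097) [(nat_lit 2144),(nat_lit 1397),(nat_lit 1554),(nat_lit 1455),(nat_lit 1269),
    (nat_lit 1781)] [k60,k60,(nat_lit 355),(nat_lit 512),(nat_lit 355),(nat_lit 355),(nat_lit 592),(nat_lit 217),
    (nat_lit 483),(nat_lit 512),k0,(nat_lit 483)] k0 [[k0,k0,(nat_lit 885),(nat_lit 885),k0,k0,k0,k0,k0,k0,k0,k0],[k0,
    k0,k0,k0,k0,(nat_lit 433),k0,k0,k0,k0,k0,k0],[k0,(nat_lit 885),k0,k0,(nat_lit 728),k0,k0,k0,k0,k0,k0,k0],[k0,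
    (nat_lit 885),k0,k0,(nat_lit 728),k0,k0,k0,k0,k0,k0,k0],[(nat_lit 433),k0,k0,k0,k0,(nat_lit 590),k0,k0,k0,k0,k0,
    k0],[k0,k0,(nat_lit 728),(nat_lit 728),k0,k0,k0,k0,k0,k0,k0,k0],[k0,k0,k0,k0,k0,k0,k0,k0,k31,k0,k0,k0],[k0,k0,k0,
    k0,k0,k0,k0,k0,k31,k0,k0,(nat_lit 788)],[k0,k0,k0,k0,k0,k0,k0,k0,k0,k0,(nat_lit 757),k0],[k0,k0,k0,k0,k0,k0,k31,
    k31,k0,k0,(nat_lit 757),k0],[k0,k0,k0,k0,k0,k0,(nat_lit 788),k0,k0,k0,k0,k0],[k0,k0,k0,k0,k0,k0,k0,k0,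
    (nat_lit 757),(nat_lit 757),k0,k0]] (nat_lit 4800) k6
    [[(k8,(nat_lit 964)),(k11,(nat_lit 964)),(k9,(nat_lit 1692)),(k1,(nat_lit 2144)),(k10,(nat_lit 2204)),(k6,
    (nat_lit 2400))],[(k2,(nat_lit 964)),(k5,(nat_lit 964)),(k3,(nat_lit 1692)),(k4,(nat_lit 1849)),(k0,
    (nat_lit 2144)),(k7,(nat_lit 2420))],[(k4,(nat_lit 964)),(k3,(nat_lit 1240)),(k7,(nat_lit 1535)),(k0,
    (nat_lit 1692)),(k2,(nat_lit 2282)),(k5,(nat_lit 2282))],[(k0,(nat_lit 964)),(k7,(nat_lit 964)),(k2,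
    (nat_lit 1554)),(k5,(nat_lit 1554)),(k3,(nat_lit 2282)),(k4,(nat_lit 2282))],[(k0,(nat_lit 964)),(k7,
    (nat_lit 964)),(k2,(nat_lit 1554)),(k5,(nat_lit 1554)),(k3,(nat_lit 2282)),(k4,(nat_lit 2282))],[(k3,
    (nat_lit 964)),(k4,(nat_lit 964)),(k7,(nat_lit 1692)),(k0,(nat_lit 1849)),(k2,(nat_lit 2282)),(k5,
    (nat_lit 2282))],[(k2,(nat_lit 964)),(k5,(nat_lit 964)),(k3,(nat_lit 1535)),(k4,(nat_lit 1692)),(k0,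
    (nat_lit 2420)),(k7,(nat_lit 2420))],[(k6,(nat_lit 1080)),(k11,(nat_lit 1158)),(k9,(nat_lit 1160)),(k8,
    (nat_lit 1220)),(k10,(nat_lit 1672)),(k1,(nat_lit 2400))],[(k10,(nat_lit 964)),(k6,(nat_lit 1160)),(k11,
    (nat_lit 1238)),(k9,(nat_lit 1240)),(k8,(nat_lit 1300)),(k1,(nat_lit 1692))],[(k1,(nat_lit 964)),(k6,
    (nat_lit 1220)),(k8,(nat_lit 1298)),(k11,(nat_lit 1298)),(k9,(nat_lit 1300)),(k10,(nat_lit 2538))],[(k1,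
    (nat_lit 964)),(k6,(nat_lit 1158)),(k9,(nat_lit 1238)),(k8,(nat_lit 1298)),(k11,(nat_lit 1298)),(k10,
    (nat_lit 2538))],[(k9,(nat_lit 964)),(k6,(nat_lit 1672)),(k1,(nat_lit 2204)),(k10,(nat_lit 2264)),(k8,
    (nat_lit 2538)),(k11,(nat_lit 2538))]]
    [[k1,k0,k0,k1,k1,k0],[k1,k1,k0,k1,k1,k0],[k1,k0,k1,k1,k1,k0],[k0,k2,k0,k2,k0,k0],[k0,k1,k1,k2,k0,k0],[k0,k1,k0,k2,
    k0,k0],[k0,k0,k1,k2,k0,k0],[k0,k0,k2,k2,k0,k0],[k0,k0,k0,k0,k3,k0],[k0,k0,k0,k0,k2,k1],[k0,k0,k0,k0,k2,k2]]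
    [.contra [z1,z0,z0,y1],.contra [z1,z1,y1,y1],.contra [z1,z0,z0,y1],.contra [z1,z4,y3,y3,z1],.contra [z1,z3,y2,y3,
    z1],.contra [z1,z3,y2,y3,z1],.contra [y1,z2,y1,z1,z1],.contra [y1,z4,y2,z0,z2],.ref k80 k3 [(z1,[z0,z1,y1]),(z1,
    [y1,z0,y3]),(z1,[z1])],.contra [y1,z0,y1,y1,z1],.contra [z1,z2]],
    .base (.geo z4 k0 [(z3,z0),(z2,z0),(z1,z0),(z5,z0),(z3,z0),(z2,z0)] [(z1,[z1]),(z1,[z0,z2]),(z1,[z0,z0,z1]),(z1,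
    [y1,z0,z0,z0,z4]),(z1,[z0,z0,z0,z1]),(z1,[z0,y2,y1,y1,y4,z4])] k1),
    .base (.geo z7 k0 [(z6,z0),(z2,z0),(z4,z0),(z8,z0),(z6,z0),(z2,z0)] [(z1,[z1]),(z1,[z0,z1]),(z1,[z0,z0,z1]),(z1,
    [y1,z0,z0,z0,z7]),(z1,[z0,z0,z0,z1]),(z1,[z0,y1,y1,y1,y7,z7])] k1)]

theorem hB6_125_6 : blkB [0, 0, 0, 1, 1, 1] [(0, 3)] sp6 hS6_125 (pcls (n := 6) [0, 0, 0, 1, 1, 1]) hD6_125 107 6 hN6_125_6 = true := by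
  decide +kernel

/-- nodes 84 to 95 -/
noncomputable def hN6_125_7 : List HM :=
  [.base (.geo z9 k0 [(z8,z0),(z2,z0),(z6,z0),(z10,z0),(z8,z0),(z2,z0)] [(z1,[z1]),(z1,[z0,z1]),(z1,[z0,z0,z3]),(z1,
    [y1,z0,z0,z0,z9]),(z1,[z0,z0,z0,z1]),(z1,[z0,y1,y3,y1,y9,z9])] k1),
    .base (.geo z6 k0 [(z5,z0),(z2,z0),(z3,z0),(z7,z0),(z5,z0),(z2,z0)] [(z1,[z1]),(z1,[z0,z2]),(z1,[z0,z0,z3]),(z1,
    [y1,z0,z0,z0,z6]),(z1,[z0,z0,z0,z1]),(z1,[z0,y2,y3,y1,y6,z6])] k1),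
    .lp (nat_lit 4097) [(nat_lit 2304),(nat_lit 1674),(nat_lit 1674),(nat_lit 2652),(nat_lit 2486),
    (nat_lit 1210)] [(nat_lit 547),(nat_lit 547),(nat_lit 646),(nat_lit 1078),(nat_lit 1078),(nat_lit 646),k182,
    (nat_lit 564),(nat_lit 912),k0,(nat_lit 1094),(nat_lit 1094)] k0 [[k0,k0,(nat_lit 978),(nat_lit 978),k0,k0,k0,k0,
    k0,k0,k0,k0],[k0,k0,k0,k0,k0,k0,k0,k0,k0,k0,k0,k0],[k0,(nat_lit 978),k0,k0,(nat_lit 978),k0,k0,k0,k0,k0,k0,k0],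
    [k0,(nat_lit 978),k0,k0,(nat_lit 978),k0,k0,k0,k0,k0,k0,k0],[k0,k0,k0,k0,k0,k0,k0,k0,k0,k0,k0,k0],[k0,k0,
    (nat_lit 978),(nat_lit 978),k0,k0,k0,k0,k0,k0,k0,k0],[k0,k0,k0,k0,k0,k0,k0,k0,(nat_lit 912),(nat_lit 912),k0,k0],
    [k0,k0,k0,k0,k0,k0,k0,k0,k0,k0,(nat_lit 398),(nat_lit 1094)],[k0,k0,k0,k0,k0,k0,k0,(nat_lit 912),k0,k0,k0,k182],
    [k0,k0,k0,k0,k0,k0,k0,(nat_lit 912),k0,k0,k0,k0],[k0,k0,k0,k0,k0,k0,(nat_lit 1094),k0,k0,k182,k0,k0],[k0,k0,k0,k0,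
    k0,k0,(nat_lit 398),k0,k0,k0,k0,k0]] (nat_lit 6000) k6
    [[(k10,(nat_lit 1757)),(k8,(nat_lit 1939)),(k11,(nat_lit 1939)),(k1,(nat_lit 2304)),(k9,(nat_lit 2453)),(k6,
    (nat_lit 3763))],[(k2,(nat_lit 1227)),(k5,(nat_lit 1227)),(k3,(nat_lit 1773)),(k4,(nat_lit 1773)),(k7,
    (nat_lit 2287)),(k0,(nat_lit 2304))],[(k3,(nat_lit 1242)),(k4,(nat_lit 1242)),(k7,(nat_lit 1756)),(k0,
    (nat_lit 1773)),(k2,(nat_lit 2652)),(k5,(nat_lit 2652))],[(k7,(nat_lit 1210)),(k0,(nat_lit 1227)),(k2,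
    (nat_lit 2106)),(k5,(nat_lit 2106)),(k3,(nat_lit 2652)),(k4,(nat_lit 2652))],[(k7,(nat_lit 1210)),(k0,
    (nat_lit 1227)),(k2,(nat_lit 2106)),(k5,(nat_lit 2106)),(k3,(nat_lit 2652)),(k4,(nat_lit 2652))],[(k3,
    (nat_lit 1242)),(k4,(nat_lit 1242)),(k7,(nat_lit 1756)),(k0,(nat_lit 1773)),(k2,(nat_lit 2652)),(k5,
    (nat_lit 2652))],[(k2,(nat_lit 1210)),(k5,(nat_lit 1210)),(k3,(nat_lit 1756)),(k4,(nat_lit 1756)),(k7,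
    (nat_lit 2270)),(k0,(nat_lit 2287))],[(k11,(nat_lit 1210)),(k8,(nat_lit 1392)),(k10,(nat_lit 2520)),(k6,
    (nat_lit 3034)),(k9,(nat_lit 3216)),(k1,(nat_lit 3763))],[(k10,(nat_lit 1210)),(k1,(nat_lit 2453)),(k6,
    (nat_lit 3216)),(k11,(nat_lit 3216)),(k8,(nat_lit 3398)),(k9,(nat_lit 3398))],[(k10,(nat_lit 1210)),(k6,
    (nat_lit 1392)),(k11,(nat_lit 1392)),(k8,(nat_lit 1574)),(k1,(nat_lit 1939)),(k9,(nat_lit 3398))],[(k6,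
    (nat_lit 1210)),(k10,(nat_lit 1210)),(k11,(nat_lit 1210)),(k8,(nat_lit 1392)),(k1,(nat_lit 1939)),(k9,
    (nat_lit 3216))],[(k8,(nat_lit 1210)),(k9,(nat_lit 1210)),(k10,(nat_lit 1210)),(k11,(nat_lit 1210)),(k1,
    (nat_lit 1757)),(k6,(nat_lit 2520))]]
    [[k2,k1,k0,k0,k0,k0],[k2,k0,k1,k0,k0,k0],[k1,k0,k0,k1,k0,k1],[k1,k1,k0,k1,k0,k1],[k1,k0,k1,k1,k0,k1],[k0,k0,k0,k2,
    k0,k2],[k0,k0,k0,k0,k2,k2],[k0,k0,k0,k0,k1,k2],[k0,k0,k0,k0,k1,k3],[k0,k0,k0,k0,k0,k3],[k0,k0,k0,k0,k0,k4]]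
    [.contra [z3,y1,y1],.contra [z3,z2,z0,y1],.contra [z1,z0,z0,z0,y1],.contra [y3,z0,z1,z2,z3],.contra [z3,z0,z1,y1,
    y3],.ref k82 k0 [(z2,[z1,y2,z0,z0,z6]),(z6,[y3,y2,y4,y4,y6,z12]),(z2,[z3,z2,z0,z0,y6]),(z6,[z3,z2,z8,z0,y6])],
    .contra [y3,z2,y2,y2,y6,z6],.contra [y3,z4,y1,y1,y3,z3],.ref k83 k0 [(z3,[z3,y7,z1,z1,z24,y3]),(z1,[y2,z0,y3,y3,
    y9,z9]),(z1,[z3,z0,z1,z1,z3,y3]),(z3,[z3,z0,z8,z1,z3,y3])],.ref k84 k0 [(z1,[z1,y3,z0,z0,z9]),(z1,[y2,z0,y3,y3,y9,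
    z9]),(z1,[z1]),(z1,[z1,z0,z3])],.ref k85 k0 [(z2,[z1,y4,z0,z0,z12]),(z2,[y1,z0,y2,y2,y6,z6]),(z2,[z1]),(z2,[z1,z0,
    z4])]],
    .lp k0 [(nat_lit 685),(nat_lit 550),(nat_lit 685),(nat_lit 796),(nat_lit 642),(nat_lit 480)] [k0,k181,k154,k162,
    k27,k154,k35,k35,k129,k95,(nat_lit 241),k145] k0 [[k0,k0,(nat_lit 328),k0,k0,k71,k0,k0,k0,k0,k0,k0],[k58,k0,k0,k0,
    k0,(nat_lit 293),k0,k0,k0,k0,k0,k0],[k0,k0,k0,k0,(nat_lit 293),k0,k0,k0,k0,k0,k0,k0],[k0,(nat_lit 328),k0,k0,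
    (nat_lit 293),k0,k0,k0,k0,k0,k0,k0],[(nat_lit 293),k71,k0,k0,k0,k0,k0,k0,k0,k0,k0,k0],[k0,k0,(nat_lit 293),
    (nat_lit 293),k0,k0,k0,k0,k0,k0,k0,k0],[k0,k0,k0,k0,k0,k0,k0,k0,(nat_lit 302),(nat_lit 302),k0,k0],[k0,k0,k0,k0,
    k0,k0,k0,k0,k0,k0,k150,k146],[k0,k0,k0,k0,k0,k0,k0,(nat_lit 302),k0,k0,k0,k0],[k0,k0,k0,k0,k0,k0,k0,(nat_lit 302),
    k0,k0,k156,k0],[k0,k0,k0,k0,k0,k0,k146,k0,k0,k0,k0,k0],[k0,k0,k0,k0,k0,k0,k150,k0,k156,k0,k0,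
    k0]] (nat_lit 1920) k6
    [[(k11,(nat_lit 384)),(k9,(nat_lit 440)),(k10,(nat_lit 444)),(k1,(nat_lit 504)),(k8,(nat_lit 556)),(k6,
    (nat_lit 796))],[(k5,(nat_lit 384)),(k3,(nat_lit 704)),(k2,(nat_lit 712)),(k4,(nat_lit 768)),(k0,(nat_lit 924)),
    (k7,(nat_lit 1124))],[(k4,(nat_lit 384)),(k3,(nat_lit 484)),(k5,(nat_lit 550)),(k0,(nat_lit 704)),(k7,
    (nat_lit 740)),(k2,(nat_lit 878))],[(k7,(nat_lit 384)),(k2,(nat_lit 558)),(k5,(nat_lit 558)),(k0,(nat_lit 712)),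
    (k3,(nat_lit 878)),(k4,(nat_lit 978))],[(k0,(nat_lit 384)),(k7,(nat_lit 384)),(k3,(nat_lit 550)),(k2,
    (nat_lit 558)),(k5,(nat_lit 558)),(k4,(nat_lit 978))],[(k3,(nat_lit 384)),(k0,(nat_lit 768)),(k7,(nat_lit 804)),
    (k4,(nat_lit 812)),(k2,(nat_lit 978)),(k5,(nat_lit 978))],[(k2,(nat_lit 384)),(k5,(nat_lit 384)),(k3,
    (nat_lit 740)),(k7,(nat_lit 796)),(k4,(nat_lit 804)),(k0,(nat_lit 1124))],[(k11,(nat_lit 384)),(k8,(nat_lit 400)),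
    (k9,(nat_lit 736)),(k10,(nat_lit 740)),(k1,(nat_lit 796)),(k6,(nat_lit 796))],[(k10,(nat_lit 384)),(k1,
    (nat_lit 440)),(k9,(nat_lit 676)),(k6,(nat_lit 736)),(k11,(nat_lit 928)),(k8,(nat_lit 944))],[(k6,(nat_lit 400)),
    (k1,(nat_lit 556)),(k11,(nat_lit 592)),(k8,(nat_lit 608)),(k10,(nat_lit 652)),(k9,(nat_lit 944))],[(k1,
    (nat_lit 384)),(k6,(nat_lit 384)),(k10,(nat_lit 480)),(k11,(nat_lit 576)),(k8,(nat_lit 592)),(k9,(nat_lit 928))],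
    [(k9,(nat_lit 384)),(k10,(nat_lit 384)),(k1,(nat_lit 444)),(k11,(nat_lit 480)),(k8,(nat_lit 652)),(k6,
    (nat_lit 740))]]
    [[k2,k0,k1,k0,k0,k0],[k1,k1,k0,k1,k0,k0],[k2,k0,k0,k0,k0,k1],[k1,k1,k0,k1,k0,k1],[k0,k2,k1,k0,k0,k0],[k0,k2,k2,k0,
    k0,k0],[k0,k0,k0,k0,k1,k2],[k0,k0,k0,k0,k0,k3]]
    [.ref k9 k1 [(z1,[z1,z1,z1,z1,y1]),(z1,[y2,z4,z1,y2,z2]),(z1,[z1,y2,y2,y2,z2])],.contra [y1,z2,z1,z1],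
    .ref k86 k2 [(z1,[y1,y1,z0,z3]),(z1,[z1,y2,y3,y3,z3]),(z1,[y2,z4,z3])],.contra [z1,z0,z0,y1],.ref k9 k1 [(z1,[y1,
    z3,z1,y1,z1]),(z1,[z2,z0,z1,z2,y2]),(z1,[y1,z0,y2,y4,z4])],.contra [y1,z2,z0,y2,z2],.contra [y1,z0,z1],
    .ref k25 k1 [(z1,[z1,z3]),(z1,[y2,z0,z3]),(z1,[z1,z0,y3,y3,z3])]],
    .lp k0 [(nat_lit 456),(nat_lit 394),(nat_lit 350),(nat_lit 420),(nat_lit 396),(nat_lit 364)] [k48,k48,k79,k79,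
    k106,k96,k66,k66,k156,k0,k32,k156] k0 [[k0,k0,k106,k106,k0,k124,k0,k0,k0,k0,k0,k0],[k0,k0,k0,k0,k0,k44,k0,k0,k0,
    k0,k0,k0],[k0,k106,k0,k0,k150,k0,k0,k0,k0,k0,k0,k0],[k0,k106,k0,k0,k150,k0,k0,k0,k0,k0,k0,k0],[k44,k124,k0,k0,k0,
    k0,k0,k0,k0,k0,k0,k0],[k0,k0,k150,k150,k0,k0,k0,k0,k0,k0,k0,k0],[k0,k0,k0,k0,k0,k0,k0,k8,k4,k0,k0,k0],[k0,k0,k0,
    k0,k0,k0,k0,k0,k0,k0,k0,(nat_lit 280)],[k0,k0,k0,k0,k0,k0,k0,k0,k0,k0,k108,k0],[k0,k0,k0,k0,k0,k0,k0,k4,k0,k0,k0,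
    k0],[k0,k0,k0,k0,k0,k0,(nat_lit 280),k0,k0,k0,k0,k0],[k0,k0,k0,k0,k0,k0,k0,k0,k0,k108,k0,k0]] (nat_lit 1200) k6
    [[(k8,(nat_lit 240)),(k11,(nat_lit 348)),(k1,(nat_lit 456)),(k10,(nat_lit 472)),(k9,(nat_lit 504)),(k6,
    (nat_lit 718))],[(k4,(nat_lit 274)),(k5,(nat_lit 302)),(k2,(nat_lit 319)),(k3,(nat_lit 425)),(k0,(nat_lit 456)),
    (k7,(nat_lit 482))],[(k4,(nat_lit 323)),(k3,(nat_lit 394)),(k0,(nat_lit 425)),(k5,(nat_lit 483)),(k2,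
    (nat_lit 500)),(k7,(nat_lit 531))],[(k7,(nat_lit 257)),(k0,(nat_lit 319)),(k5,(nat_lit 377)),(k2,(nat_lit 394)),
    (k3,(nat_lit 500)),(k4,(nat_lit 517))],[(k7,(nat_lit 240)),(k0,(nat_lit 302)),(k5,(nat_lit 360)),(k2,
    (nat_lit 377)),(k3,(nat_lit 483)),(k4,(nat_lit 500))],[(k0,(nat_lit 274)),(k3,(nat_lit 323)),(k4,(nat_lit 340)),
    (k7,(nat_lit 380)),(k5,(nat_lit 500)),(k2,(nat_lit 517))],[(k5,(nat_lit 240)),(k2,(nat_lit 257)),(k4,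
    (nat_lit 380)),(k7,(nat_lit 420)),(k0,(nat_lit 482)),(k3,(nat_lit 531))],[(k11,(nat_lit 326)),(k8,(nat_lit 330)),
    (k6,(nat_lit 412)),(k10,(nat_lit 454)),(k9,(nat_lit 486)),(k1,(nat_lit 718))],[(k10,(nat_lit 240)),(k11,
    (nat_lit 396)),(k8,(nat_lit 400)),(k6,(nat_lit 486)),(k1,(nat_lit 504)),(k9,(nat_lit 560))],[(k1,(nat_lit 240)),
    (k8,(nat_lit 240)),(k11,(nat_lit 240)),(k6,(nat_lit 330)),(k10,(nat_lit 364)),(k9,(nat_lit 400))],[(k8,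
    (nat_lit 240)),(k11,(nat_lit 240)),(k6,(nat_lit 326)),(k1,(nat_lit 348)),(k9,(nat_lit 396)),(k10,(nat_lit 472))],
    [(k9,(nat_lit 240)),(k8,(nat_lit 364)),(k6,(nat_lit 454)),(k1,(nat_lit 472)),(k11,(nat_lit 472)),(k10,
    (nat_lit 488))]]
    [[k2,k0,k1,k0,k0,k0],[k0,k0,k1,k2,k0,k0],[k0,k0,k0,k0,k2,k1],[k0,k0,k0,k0,k2,k2],[k0,k0,k0,k0,k1,k2]]
    [.ref k81 k1 [(z2,[z1,z1,z1,y1]),(z1,[z0,z1])],.ref k87 k2 [(z2,[z1,z1,z1,y1]),(z1,[z0,y1,y1,z1])],.contra [y1,y1,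
    y1,z1],.contra [z1,z2],.contra [y1,y1,y1,z1]],
    .base (.geo z6 k5 [(z2,z0),(z2,y3),(z4,z0),(z10,z0),(z6,y3),(z0,z6)] [(z1,[z2]),(z1,[z0,z1]),(z1,[z0,z0,z2]),(z1,
    [y2,z0,z0,z6]),(z1,[z0,y1,y2,y6,z6]),(z1,[])] k7),
    .lp k0 [(nat_lit 828),(nat_lit 997),(nat_lit 893),(nat_lit 1238),(nat_lit 1046),(nat_lit 752)] [k146,
    (nat_lit 318),k185,k110,(nat_lit 214),k185,k12,k42,(nat_lit 246),k0,(nat_lit 294),(nat_lit 246)] k0 [[k0,k0,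
    (nat_lit 385),(nat_lit 385),k0,k0,k0,k0,k0,k0,k0,k0],[k0,k0,k0,k0,k0,(nat_lit 392),k0,k0,k0,k0,k0,k0],[k0,
    (nat_lit 385),k0,k0,(nat_lit 489),k0,k0,k0,k0,k0,k0,k0],[k0,(nat_lit 385),k0,k0,(nat_lit 489),k0,k0,k0,k0,k0,k0,
    k0],[(nat_lit 392),k0,k0,k0,k0,(nat_lit 288),k0,k0,k0,k0,k0,k0],[k0,k0,(nat_lit 489),(nat_lit 489),k0,k0,k0,k0,k0,
    k0,k0,k0],[k0,k0,k0,k0,k0,k0,k0,k0,(nat_lit 458),(nat_lit 458),k0,k178],[k0,k0,k0,k0,k0,k0,k0,k0,k0,k0,k0,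
    (nat_lit 422)],[k0,k0,k0,k0,k0,k0,k0,(nat_lit 458),k0,k0,k0,k0],[k0,k0,k0,k0,k0,k0,k0,(nat_lit 458),k0,k0,k36,k0],
    [k0,k0,k0,k0,k0,k0,(nat_lit 422),k178,k0,k0,k0,k0],[k0,k0,k0,k0,k0,k0,k0,k0,k36,k0,k0,k0]] (nat_lit 2880) k6
    [[(k1,(nat_lit 656)),(k10,(nat_lit 680)),(k11,(nat_lit 692)),(k8,(nat_lit 728)),(k9,(nat_lit 1152)),(k6,
    (nat_lit 1384))],[(k2,(nat_lit 576)),(k5,(nat_lit 576)),(k4,(nat_lit 932)),(k0,(nat_lit 1000)),(k3,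
    (nat_lit 1036)),(k7,(nat_lit 1496))],[(k4,(nat_lit 576)),(k0,(nat_lit 1036)),(k3,(nat_lit 1072)),(k7,
    (nat_lit 1140)),(k2,(nat_lit 1382)),(k5,(nat_lit 1382))],[(k0,(nat_lit 576)),(k7,(nat_lit 576)),(k2,
    (nat_lit 922)),(k5,(nat_lit 922)),(k3,(nat_lit 1382)),(k4,(nat_lit 1382))],[(k0,(nat_lit 576)),(k7,(nat_lit 576)),
    (k2,(nat_lit 922)),(k5,(nat_lit 922)),(k3,(nat_lit 1382)),(k4,(nat_lit 1382))],[(k3,(nat_lit 576)),(k4,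
    (nat_lit 576)),(k0,(nat_lit 932)),(k7,(nat_lit 1036)),(k2,(nat_lit 1382)),(k5,(nat_lit 1382))],[(k2,
    (nat_lit 576)),(k5,(nat_lit 576)),(k4,(nat_lit 1036)),(k3,(nat_lit 1140)),(k0,(nat_lit 1496)),(k7,
    (nat_lit 1496))],[(k8,(nat_lit 576)),(k11,(nat_lit 576)),(k10,(nat_lit 808)),(k6,(nat_lit 1268)),(k9,
    (nat_lit 1280)),(k1,(nat_lit 1384))],[(k10,(nat_lit 576)),(k1,(nat_lit 1152)),(k6,(nat_lit 1280)),(k9,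
    (nat_lit 1292)),(k8,(nat_lit 1504)),(k11,(nat_lit 1504))],[(k6,(nat_lit 576)),(k1,(nat_lit 728)),(k10,
    (nat_lit 788)),(k8,(nat_lit 800)),(k11,(nat_lit 800)),(k9,(nat_lit 1504))],[(k6,(nat_lit 576)),(k1,(nat_lit 692)),
    (k10,(nat_lit 752)),(k8,(nat_lit 800)),(k11,(nat_lit 800)),(k9,(nat_lit 1504))],[(k9,(nat_lit 576)),(k1,
    (nat_lit 680)),(k10,(nat_lit 704)),(k11,(nat_lit 752)),(k8,(nat_lit 788)),(k6,(nat_lit 808))]]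
    [[k2,k1,k0,k0,k0,k0],[k2,k1,k1,k0,k0,k0],[k2,k0,k1,k0,k0,k0],[k2,k0,k2,k0,k0,k0],[k2,k0,k0,k0,k0,k1],[k1,k0,k0,k1,
    k0,k1],[k1,k1,k0,k1,k0,k1],[k1,k0,k1,k1,k0,k1],[k0,k0,k0,k0,k2,k2],[k0,k0,k0,k0,k1,k2],[k0,k0,k0,k0,k0,k3]]
    [.contra [z1,y2],.contra [z2,y2,y1,z1,y1],.contra [y1,z2,y1,y1,z1],.contra [z1,y2],.contra [z1,z1],.contra [z1,z1,
    z0,y1],.contra [z1,z0,z0,y1],.contra [z1,z0,z0,y1],.contra [z1,z0,z2],.contra [y2,y2,y1,z1,z1],.ref k89 k0 [(z1,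
    [y1,y3,z0,z3]),(z1,[y2,z0,y3,y3,z3]),(z1,[z1])]],
    .base (.leafM k4 [k2,k4,k5,k1] [(z1,[z0,y1,y1,z1])] [(k3,k0,z1,[z0,z0,z1]),(k0,k3,z1,[z0,z0,z1])]),
    .base (.leafM k4 [k2,k4,k5,k1] [(z2,[z0,y1,y1,y2,z2])] [(k3,k0,z1,[z0,z0,z0,z1]),(k0,k3,z1,[z0,z0,z0,z1])]),
    .base (.geo z6 k4 [(z8,z3),(z2,z3),(z6,y9),(z4,y3),(z0,z6),(z4,z0)] [(z1,[z1]),(z1,[z0,z1]),(z1,[z0,z0,z3]),(z1,
    [y1,z0,z0,z6]),(z1,[]),(z1,[z0,y1,y3,y6,z6])] k7),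
    .lp k0 [(nat_lit 1258),(nat_lit 1170),(nat_lit 1202),(nat_lit 1694),(nat_lit 1372),(nat_lit 968)] [(nat_lit 281),
    (nat_lit 281),(nat_lit 334),(nat_lit 316),(nat_lit 284),(nat_lit 334),k126,k0,(nat_lit 322),k126,(nat_lit 490),
    (nat_lit 362)] k0 [[k0,k0,(nat_lit 330),(nat_lit 266),k0,k0,k0,k0,k0,k0,k0,k0],[k0,k0,k0,k0,k0,(nat_lit 452),k0,
    k0,k0,k0,k0,k0],[k0,(nat_lit 266),k0,k0,(nat_lit 718),k0,k0,k0,k0,k0,k0,k0],[k0,(nat_lit 330),k0,k0,(nat_lit 718),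
    k0,k0,k0,k0,k0,k0,k0],[(nat_lit 452),k0,k0,k0,k0,k0,k0,k0,k0,k0,k0,k0],[k0,k0,(nat_lit 718),(nat_lit 718),k0,k0,
    k0,k0,k0,k0,k0,k0],[k0,k0,k0,k0,k0,k0,k0,k0,(nat_lit 564),(nat_lit 564),k0,k0],[k0,k0,k0,k0,k0,k0,k0,k0,k0,k0,k48,
    (nat_lit 436)],[k0,k0,k0,k0,k0,k0,k0,(nat_lit 564),k0,k0,k0,k0],[k0,k0,k0,k0,k0,k0,k0,(nat_lit 564),k0,k0,k128,
    k0],[k0,k0,k0,k0,k0,k0,(nat_lit 436),k0,k0,k0,k0,k0],[k0,k0,k0,k0,k0,k0,k48,k0,k128,k0,k0,k0]] (nat_lit 3840) k6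
    [[(k10,(nat_lit 1049)),(k11,(nat_lit 1049)),(k8,(nat_lit 1217)),(k1,(nat_lit 1258)),(k9,(nat_lit 1365)),(k6,
    (nat_lit 1849))],[(k5,(nat_lit 875)),(k2,(nat_lit 939)),(k3,(nat_lit 1223)),(k4,(nat_lit 1255)),(k0,
    (nat_lit 1258)),(k7,(nat_lit 1991))],[(k4,(nat_lit 768)),(k3,(nat_lit 1188)),(k0,(nat_lit 1223)),(k5,
    (nat_lit 1436)),(k2,(nat_lit 1500)),(k7,(nat_lit 1504))],[(k7,(nat_lit 768)),(k0,(nat_lit 939)),(k2,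
    (nat_lit 1152)),(k5,(nat_lit 1152)),(k3,(nat_lit 1500)),(k4,(nat_lit 1920))],[(k7,(nat_lit 768)),(k0,
    (nat_lit 875)),(k2,(nat_lit 1152)),(k5,(nat_lit 1152)),(k3,(nat_lit 1436)),(k4,(nat_lit 1920))],[(k3,
    (nat_lit 768)),(k4,(nat_lit 1252)),(k0,(nat_lit 1255)),(k7,(nat_lit 1536)),(k2,(nat_lit 1920)),(k5,
    (nat_lit 1920))],[(k2,(nat_lit 768)),(k5,(nat_lit 768)),(k3,(nat_lit 1504)),(k4,(nat_lit 1536)),(k7,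
    (nat_lit 1820)),(k0,(nat_lit 1991))],[(k11,(nat_lit 768)),(k8,(nat_lit 808)),(k10,(nat_lit 1252)),(k6,
    (nat_lit 1568)),(k9,(nat_lit 1568)),(k1,(nat_lit 1849))],[(k10,(nat_lit 768)),(k1,(nat_lit 1365)),(k6,
    (nat_lit 1568)),(k9,(nat_lit 1568)),(k11,(nat_lit 1896)),(k8,(nat_lit 1936))],[(k6,(nat_lit 808)),(k10,
    (nat_lit 1136)),(k11,(nat_lit 1136)),(k8,(nat_lit 1176)),(k1,(nat_lit 1217)),(k9,(nat_lit 1936))],[(k6,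
    (nat_lit 768)),(k10,(nat_lit 968)),(k1,(nat_lit 1049)),(k11,(nat_lit 1096)),(k8,(nat_lit 1136)),(k9,
    (nat_lit 1896))],[(k9,(nat_lit 768)),(k10,(nat_lit 840)),(k11,(nat_lit 968)),(k1,(nat_lit 1049)),(k8,
    (nat_lit 1136)),(k6,(nat_lit 1252))]]
    [[k2,k1,k0,k0,k0,k0],[k2,k0,k1,k0,k0,k0],[k2,k0,k0,k0,k0,k1],[k1,k0,k0,k1,k0,k1],[k1,k1,k0,k1,k0,k1],[k0,k2,k1,k0,
    k0,k0],[k0,k0,k0,k0,k2,k2],[k0,k0,k0,k0,k1,k2],[k0,k0,k0,k0,k0,k3]]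
    [.contra [z2,z1,y1],.contra [z1,y1,z1],.contra [z1,y1,z1],.contra [z1,z0,z0,y1],.contra [z1,z0,z0,y1],.contra [y2,
    z1,z1,y2,z2],.ref k92 k2 [(z2,[y1,y2,z0,z4]),(z2,[y3,z0,y2,y4,z4]),(z2,[z1,z0,z2])],.ref k73 k3 [(z2,[z0,z1,y1]),
    (z1,[z1,z0,z1]),(z1,[y1,z0,y2])],.ref k93 k1 [(z1,[z1,z3]),(z1,[z1,z0,z3]),(z1,[y1,z0,y1,y2,z2])]],
    .lp k0 [(nat_lit 480),(nat_lit 606),(nat_lit 657),(nat_lit 893),(nat_lit 568),(nat_lit 632)] [(nat_lit 381),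
    (nat_lit 477),(nat_lit 471),(nat_lit 261),(nat_lit 210),(nat_lit 471),(nat_lit 445),k0,(nat_lit 293),
    (nat_lit 477),(nat_lit 413),(nat_lit 293)] k0 [[k0,k0,k102,k0,k0,k11,k0,k0,k0,k0,k0,k0],[k0,k0,k0,k0,k0,
    (nat_lit 483),k0,k0,k0,k0,k0,k0],[k0,k0,k0,k0,(nat_lit 483),k0,k0,k0,k0,k0,k0,k0],[k0,k102,k0,k0,(nat_lit 483),k0,
    k0,k0,k0,k0,k0,k0],[(nat_lit 483),k11,k0,k0,k0,k0,k0,k0,k0,k0,k0,k0],[k0,k0,(nat_lit 483),(nat_lit 483),k0,k0,k0,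
    k0,k0,k0,k0,k0],[k0,k0,k0,k0,k0,k0,k0,k0,(nat_lit 216),(nat_lit 216),k0,k32],[k0,k0,k0,k0,k0,k0,k0,k0,k0,k0,k0,
    k64],[k0,k0,k0,k0,k0,k0,k0,(nat_lit 216),k0,k0,k152,k0],[k0,k0,k0,k0,k0,k0,k0,(nat_lit 216),k0,k0,k152,k0],[k0,k0,
    k0,k0,k0,k0,k64,k32,k0,k0,k0,k0],[k0,k0,k0,k0,k0,k0,k0,k0,k152,k152,k0,k0]] (nat_lit 1920) k6
    [[(k1,(nat_lit 384)),(k8,(nat_lit 416)),(k9,(nat_lit 416)),(k11,(nat_lit 416)),(k10,(nat_lit 448)),(k6,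
    (nat_lit 480))],[(k5,(nat_lit 384)),(k2,(nat_lit 486)),(k0,(nat_lit 576)),(k3,(nat_lit 696)),(k4,(nat_lit 736)),
    (k7,(nat_lit 1440))],[(k4,(nat_lit 384)),(k5,(nat_lit 606)),(k0,(nat_lit 696)),(k2,(nat_lit 708)),(k3,
    (nat_lit 816)),(k7,(nat_lit 1088))],[(k7,(nat_lit 384)),(k2,(nat_lit 396)),(k5,(nat_lit 396)),(k0,(nat_lit 486)),
    (k3,(nat_lit 708)),(k4,(nat_lit 1140))],[(k0,(nat_lit 384)),(k7,(nat_lit 384)),(k2,(nat_lit 396)),(k5,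
    (nat_lit 396)),(k3,(nat_lit 606)),(k4,(nat_lit 1140))],[(k3,(nat_lit 384)),(k0,(nat_lit 736)),(k4,(nat_lit 918)),
    (k7,(nat_lit 1128)),(k2,(nat_lit 1140)),(k5,(nat_lit 1140))],[(k2,(nat_lit 384)),(k5,(nat_lit 384)),(k3,
    (nat_lit 1088)),(k4,(nat_lit 1128)),(k7,(nat_lit 1338)),(k0,(nat_lit 1440))],[(k8,(nat_lit 384)),(k11,
    (nat_lit 384)),(k9,(nat_lit 416)),(k6,(nat_lit 448)),(k10,(nat_lit 448)),(k1,(nat_lit 480))],[(k9,(nat_lit 384)),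
    (k10,(nat_lit 384)),(k1,(nat_lit 416)),(k6,(nat_lit 416)),(k8,(nat_lit 784)),(k11,(nat_lit 784))],[(k6,
    (nat_lit 384)),(k1,(nat_lit 416)),(k8,(nat_lit 752)),(k11,(nat_lit 752)),(k9,(nat_lit 784)),(k10,(nat_lit 784))],
    [(k6,(nat_lit 384)),(k1,(nat_lit 416)),(k8,(nat_lit 752)),(k11,(nat_lit 752)),(k9,(nat_lit 784)),(k10,
    (nat_lit 784))],[(k9,(nat_lit 384)),(k1,(nat_lit 448)),(k6,(nat_lit 448)),(k10,(nat_lit 512)),(k8,(nat_lit 784)),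
    (k11,(nat_lit 784))]]
    [[k2,k1,k0,k0,k0,k0],[k2,k1,k1,k0,k0,k0],[k2,k0,k1,k0,k0,k0],[k1,k1,k0,k1,k0,k0],[k1,k1,k1,k1,k0,k0],[k1,k0,k1,k1,
    k0,k0],[k2,k0,k0,k0,k1,k0],[k1,k1,k0,k1,k1,k0],[k2,k0,k0,k0,k2,k0],[k2,k0,k0,k0,k1,k1],[k2,k0,k0,k0,k0,k1],[k1,k1,
    k0,k1,k0,k1],[k0,k2,k1,k0,k0,k0],[k0,k2,k2,k0,k0,k0],[k0,k1,k1,k2,k0,k0]]
    [.contra [z1,y2],.contra [z1,y2],.contra [z1,y2],.contra [z1,z0,y1],.contra [z1,z0,y1],.contra [z1,z0,y1],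
    .contra [z1,y2],.contra [z1,z0,y1],.contra [z1,y2],.contra [z1,y2],.contra [z1,z1],.contra [z1,z0,y1],
    .ref k90 k1 [(z1,[z0,z1]),(z1,[z1,z0,z1,y1])],.ref k91 k2 [(z2,[z1,y2,z4,y2]),(z2,[z1])],.ref k94 k3 [(z1,[y1,z0,
    z2]),(z1,[y1,y2,z2])]]]

theorem hB6_125_7 : blkB [0, 0, 0, 1, 1, 1] [(0, 3)] sp6 hS6_125 (pcls (n := 6) [0, 0, 0, 1, 1, 1]) hD6_125 107 7 hN6_125_7 = true := by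
  decide +kernel

/-- nodes 96 to 106 -/
noncomputable def hN6_125_8 : List HM :=
  [.base (.leafM k4 [k2,k4,k5,k1] [(z1,[y1,y1,z1])] [(k3,k0,z1,[z0,z1]),(k0,k3,z1,[z0,z1])]),
    .base (.leafM k4 [k2,k4,k5,k1] [(z1,[z0,y1,y1,z1])] [(k3,k0,z1,[z0,z0,z1]),(k0,k3,z1,[z0,z0,z1])]),
    .base (.geo z6 k5 [(z8,z3),(z4,y12),(z4,z6),(z4,y3),(z4,z0),(z0,z6)] [(z1,[z1]),(z1,[z0,z2]),(z1,[z0,z0,z2]),(z1,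
    [y1,z0,z0,z6]),(z1,[z0,y2,y2,y6,z6]),(z1,[])] k9),
    .base (.leafM k4 [k2,k4,k5,k1] [(z3,[z0,y1,y1,y3,z3])] [(k3,k0,z1,[z0,z0,z0,z1]),(k0,k3,z1,[z0,z0,z0,z1])]),
    .base (.leafM k4 [k2,k4,k5,k1] [(z3,[z0,y1,y1,z0,y3,z3])] [(k3,k0,z1,[z0,z0,z0,z0,z1]),(k0,k3,z1,[z0,z0,z0,z0,
    z1])]),
    .lp k0 [k132,k144,k176,k176,k179,k151] [k42,k42,k36,k36,k4,k36,k20,k20,k37,k0,k28,k37] k0 [[k0,k24,k24,k0,k0,k0,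
    k0,k0,k0,k0,k0,k0],[k0,k0,k0,k0,k64,k80,k0,k0,k0,k0,k0,k0],[k0,k0,k0,k0,k64,k0,k0,k0,k0,k0,k0,k0],[k0,k24,k0,k0,
    k64,k0,k0,k0,k0,k0,k0,k0],[k80,k0,k0,k0,k0,k16,k0,k0,k0,k0,k0,k0],[k64,k0,k64,k64,k0,k0,k0,k0,k0,k0,k0,k0],[k0,k0,
    k0,k0,k0,k0,k0,k0,k63,k63,k0,k0],[k0,k0,k0,k0,k0,k0,k0,k0,k0,k0,k24,k92],[k0,k0,k0,k0,k0,k0,k0,k63,k0,k0,k27,k29],
    [k0,k0,k0,k0,k0,k0,k0,k63,k0,k0,k0,k0],[k0,k0,k0,k0,k0,k0,k92,k0,k0,k29,k0,k0],[k0,k0,k0,k0,k0,k0,k24,k0,k0,k27,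
    k0,k0]] (nat_lit 480) k6
    [[(k8,k110),(k1,k132),(k10,k146),(k9,k150),(k11,k166),(k6,(nat_lit 246))],[(k0,k108),(k5,k114),(k2,k138),(k3,
    k138),(k4,(nat_lit 234)),(k7,(nat_lit 234))],[(k4,k96),(k7,k96),(k0,k138),(k5,k144),(k2,k168),(k3,k168)],[(k7,
    k96),(k0,k138),(k2,k144),(k5,k144),(k3,k168),(k4,(nat_lit 240))],[(k7,k96),(k0,k114),(k2,k144),(k3,k144),(k5,
    k144),(k4,(nat_lit 240))],[(k3,k96),(k4,k192),(k7,k192),(k0,(nat_lit 234)),(k2,(nat_lit 240)),(k5,(nat_lit 240))],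
    [(k2,k96),(k3,k96),(k5,k96),(k4,k192),(k7,k192),(k0,(nat_lit 234))],[(k8,k96),(k11,k96),(k6,k176),(k10,k192),(k9,
    k196),(k1,(nat_lit 246))],[(k10,k96),(k1,k150),(k6,k196),(k9,(nat_lit 216)),(k8,(nat_lit 242)),(k11,
    (nat_lit 242))],[(k6,k96),(k1,k110),(k10,k122),(k8,k142),(k11,k142),(k9,(nat_lit 242))],[(k6,k96),(k8,k142),(k11,
    k142),(k1,k166),(k10,k178),(k9,(nat_lit 242))],[(k9,k96),(k8,k122),(k1,k146),(k10,k160),(k11,k178),(k6,k192)]]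
    [[k2,k1,k0,k0,k0,k0],[k2,k0,k0,k0,k1,k0],[k2,k0,k0,k0,k0,k1],[k1,k0,k0,k1,k0,k1],[k1,k1,k0,k1,k0,k1],[k0,k2,k1,k0,
    k0,k0],[k0,k1,k1,k2,k0,k0],[k0,k1,k0,k2,k0,k0],[k0,k0,k1,k2,k0,k0],[k0,k0,k0,k0,k2,k2],[k0,k0,k0,k0,k1,k2]]
    [.contra [y3,z1,z1,z1],.contra [y3,z1,z0,z2],.contra [y3,z1,y1,z0,y3,z3],.contra [y3,z0,z1,y1,z0,z3],.contra [y3,
    z0,z4,y1,z0,z3],.contra [y3,z0,z2,z1],.contra [y3,z1,z1,z1,z6],.contra [z3,z1,z1,z1,y6],.contra [y3,y1,z0,z1,z6],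
    .ref k100 k1 [(z6,[z3,z2,z2,z2,z6,y6]),(z1,[z0,z0,z1]),(z2,[y3,z0,y2,z0,y6,z6]),(z2,[z3,z0,z2,z2,z6,y6])],
    .contra [y3,z0,y2,y1,y6,z6]],
    .lp k0 [(nat_lit 1258),(nat_lit 1170),(nat_lit 1202),(nat_lit 1694),(nat_lit 1372),(nat_lit 968)] [(nat_lit 281),
    (nat_lit 281),(nat_lit 334),(nat_lit 316),(nat_lit 284),(nat_lit 334),k126,k0,(nat_lit 322),k126,(nat_lit 490),
    (nat_lit 362)] k0 [[k0,k0,(nat_lit 330),(nat_lit 266),k0,k0,k0,k0,k0,k0,k0,k0],[k0,k0,k0,k0,k0,(nat_lit 452),k0,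
    k0,k0,k0,k0,k0],[k0,(nat_lit 266),k0,k0,(nat_lit 718),k0,k0,k0,k0,k0,k0,k0],[k0,(nat_lit 330),k0,k0,(nat_lit 718),
    k0,k0,k0,k0,k0,k0,k0],[(nat_lit 452),k0,k0,k0,k0,k0,k0,k0,k0,k0,k0,k0],[k0,k0,(nat_lit 718),(nat_lit 718),k0,k0,
    k0,k0,k0,k0,k0,k0],[k0,k0,k0,k0,k0,k0,k0,k0,(nat_lit 564),(nat_lit 564),k0,k0],[k0,k0,k0,k0,k0,k0,k0,k0,k0,k0,k48,
    (nat_lit 436)],[k0,k0,k0,k0,k0,k0,k0,(nat_lit 564),k0,k0,k0,k0],[k0,k0,k0,k0,k0,k0,k0,(nat_lit 564),k0,k0,k128,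
    k0],[k0,k0,k0,k0,k0,k0,(nat_lit 436),k0,k0,k0,k0,k0],[k0,k0,k0,k0,k0,k0,k48,k0,k128,k0,k0,k0]] (nat_lit 3840) k6
    [[(k10,(nat_lit 1049)),(k11,(nat_lit 1049)),(k8,(nat_lit 1217)),(k1,(nat_lit 1258)),(k9,(nat_lit 1365)),(k6,
    (nat_lit 1849))],[(k5,(nat_lit 875)),(k2,(nat_lit 939)),(k3,(nat_lit 1223)),(k4,(nat_lit 1255)),(k0,
    (nat_lit 1258)),(k7,(nat_lit 1991))],[(k4,(nat_lit 768)),(k3,(nat_lit 1188)),(k0,(nat_lit 1223)),(k5,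
    (nat_lit 1436)),(k2,(nat_lit 1500)),(k7,(nat_lit 1504))],[(k7,(nat_lit 768)),(k0,(nat_lit 939)),(k2,
    (nat_lit 1152)),(k5,(nat_lit 1152)),(k3,(nat_lit 1500)),(k4,(nat_lit 1920))],[(k7,(nat_lit 768)),(k0,
    (nat_lit 875)),(k2,(nat_lit 1152)),(k5,(nat_lit 1152)),(k3,(nat_lit 1436)),(k4,(nat_lit 1920))],[(k3,
    (nat_lit 768)),(k4,(nat_lit 1252)),(k0,(nat_lit 1255)),(k7,(nat_lit 1536)),(k2,(nat_lit 1920)),(k5,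
    (nat_lit 1920))],[(k2,(nat_lit 768)),(k5,(nat_lit 768)),(k3,(nat_lit 1504)),(k4,(nat_lit 1536)),(k7,
    (nat_lit 1820)),(k0,(nat_lit 1991))],[(k11,(nat_lit 768)),(k8,(nat_lit 808)),(k10,(nat_lit 1252)),(k6,
    (nat_lit 1568)),(k9,(nat_lit 1568)),(k1,(nat_lit 1849))],[(k10,(nat_lit 768)),(k1,(nat_lit 1365)),(k6,
    (nat_lit 1568)),(k9,(nat_lit 1568)),(k11,(nat_lit 1896)),(k8,(nat_lit 1936))],[(k6,(nat_lit 808)),(k10,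
    (nat_lit 1136)),(k11,(nat_lit 1136)),(k8,(nat_lit 1176)),(k1,(nat_lit 1217)),(k9,(nat_lit 1936))],[(k6,
    (nat_lit 768)),(k10,(nat_lit 968)),(k1,(nat_lit 1049)),(k11,(nat_lit 1096)),(k8,(nat_lit 1136)),(k9,
    (nat_lit 1896))],[(k9,(nat_lit 768)),(k10,(nat_lit 840)),(k11,(nat_lit 968)),(k1,(nat_lit 1049)),(k8,
    (nat_lit 1136)),(k6,(nat_lit 1252))]]
    [[k2,k1,k0,k0,k0,k0],[k2,k0,k1,k0,k0,k0],[k2,k0,k0,k0,k0,k1],[k1,k0,k0,k1,k0,k1],[k1,k1,k0,k1,k0,k1],[k0,k2,k1,k0,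
    k0,k0],[k0,k0,k0,k0,k2,k2],[k0,k0,k0,k0,k1,k2],[k0,k0,k0,k0,k0,k3]]
    [.contra [y1,z1,z0,y1,z1],.contra [z1,y1,z1,z1,y1],.ref k98 k0 [(z1,[z0,y3,z1,z9,y3]),(z1,[y3,z3,y2,y6,z6]),(z1,
    [z3,y3,z1,z3,y3])],.contra [z1,z0,z0,y1],.contra [z2,z1,y1,y3,z1],.ref k31 k1 [(z2,[y3,z3,z1,y3,z3]),(z1,[z0,z0,
    z1]),(z1,[z3,z0,y2])],.ref k99 k1 [(z2,[z1,z2]),(z1,[z0,z0,z1]),(z2,[y3,z0,y2,y6,z6])],.ref k98 k0 [(z1,[z0,y3,z1,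
    z9,y3]),(z1,[y3,z0,y2,y6,z6]),(z1,[z3,z0,z1,z3,y3])],.ref k101 k1 [(z1,[z1,z3]),(z1,[z0,z0,z1]),(z1,[y1,z0,y1,y3,
    z3])]],
    .base (.geo z6 k5 [(z0,z3),(y4,z6),(z4,z0),(z12,y3),(z12,y12),(z0,z6)] [(z1,[z3]),(z1,[z0,z2]),(z1,[z0,z0,z2]),
    (z1,[y3,z0,z0,z6]),(z1,[z0,y2,y2,y6,z6]),(z1,[])] k8),
    .lp (nat_lit 4097) [(nat_lit 2144),(nat_lit 1397),(nat_lit 1554),(nat_lit 1455),(nat_lit 1269),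
    (nat_lit 1781)] [k60,k60,(nat_lit 355),(nat_lit 512),(nat_lit 355),(nat_lit 355),(nat_lit 592),(nat_lit 217),
    (nat_lit 483),(nat_lit 512),k0,(nat_lit 483)] k0 [[k0,k0,(nat_lit 885),(nat_lit 885),k0,k0,k0,k0,k0,k0,k0,k0],[k0,
    k0,k0,k0,k0,(nat_lit 433),k0,k0,k0,k0,k0,k0],[k0,(nat_lit 885),k0,k0,(nat_lit 728),k0,k0,k0,k0,k0,k0,k0],[k0,
    (nat_lit 885),k0,k0,(nat_lit 728),k0,k0,k0,k0,k0,k0,k0],[(nat_lit 433),k0,k0,k0,k0,(nat_lit 590),k0,k0,k0,k0,k0,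
    k0],[k0,k0,(nat_lit 728),(nat_lit 728),k0,k0,k0,k0,k0,k0,k0,k0],[k0,k0,k0,k0,k0,k0,k0,k0,k31,k0,k0,k0],[k0,k0,k0,
    k0,k0,k0,k0,k0,k31,k0,k0,(nat_lit 788)],[k0,k0,k0,k0,k0,k0,k0,k0,k0,k0,(nat_lit 757),k0],[k0,k0,k0,k0,k0,k0,k31,
    k31,k0,k0,(nat_lit 757),k0],[k0,k0,k0,k0,k0,k0,(nat_lit 788),k0,k0,k0,k0,k0],[k0,k0,k0,k0,k0,k0,k0,k0,
    (nat_lit 757),(nat_lit 757),k0,k0]] (nat_lit 4800) k6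
    [[(k8,(nat_lit 964)),(k11,(nat_lit 964)),(k9,(nat_lit 1692)),(k1,(nat_lit 2144)),(k10,(nat_lit 2204)),(k6,
    (nat_lit 2400))],[(k2,(nat_lit 964)),(k5,(nat_lit 964)),(k3,(nat_lit 1692)),(k4,(nat_lit 1849)),(k0,
    (nat_lit 2144)),(k7,(nat_lit 2420))],[(k4,(nat_lit 964)),(k3,(nat_lit 1240)),(k7,(nat_lit 1535)),(k0,
    (nat_lit 1692)),(k2,(nat_lit 2282)),(k5,(nat_lit 2282))],[(k0,(nat_lit 964)),(k7,(nat_lit 964)),(k2,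
    (nat_lit 1554)),(k5,(nat_lit 1554)),(k3,(nat_lit 2282)),(k4,(nat_lit 2282))],[(k0,(nat_lit 964)),(k7,
    (nat_lit 964)),(k2,(nat_lit 1554)),(k5,(nat_lit 1554)),(k3,(nat_lit 2282)),(k4,(nat_lit 2282))],[(k3,
    (nat_lit 964)),(k4,(nat_lit 964)),(k7,(nat_lit 1692)),(k0,(nat_lit 1849)),(k2,(nat_lit 2282)),(k5,
    (nat_lit 2282))],[(k2,(nat_lit 964)),(k5,(nat_lit 964)),(k3,(nat_lit 1535)),(k4,(nat_lit 1692)),(k0,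
    (nat_lit 2420)),(k7,(nat_lit 2420))],[(k6,(nat_lit 1080)),(k11,(nat_lit 1158)),(k9,(nat_lit 1160)),(k8,
    (nat_lit 1220)),(k10,(nat_lit 1672)),(k1,(nat_lit 2400))],[(k10,(nat_lit 964)),(k6,(nat_lit 1160)),(k11,
    (nat_lit 1238)),(k9,(nat_lit 1240)),(k8,(nat_lit 1300)),(k1,(nat_lit 1692))],[(k1,(nat_lit 964)),(k6,
    (nat_lit 1220)),(k8,(nat_lit 1298)),(k11,(nat_lit 1298)),(k9,(nat_lit 1300)),(k10,(nat_lit 2538))],[(k1,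
    (nat_lit 964)),(k6,(nat_lit 1158)),(k9,(nat_lit 1238)),(k8,(nat_lit 1298)),(k11,(nat_lit 1298)),(k10,
    (nat_lit 2538))],[(k9,(nat_lit 964)),(k6,(nat_lit 1672)),(k1,(nat_lit 2204)),(k10,(nat_lit 2264)),(k8,
    (nat_lit 2538)),(k11,(nat_lit 2538))]]
    [[k1,k0,k0,k1,k1,k0],[k1,k1,k0,k1,k1,k0],[k1,k0,k1,k1,k1,k0],[k0,k2,k0,k2,k0,k0],[k0,k1,k1,k2,k0,k0],[k0,k1,k0,k2,
    k0,k0],[k0,k0,k1,k2,k0,k0],[k0,k0,k2,k2,k0,k0],[k0,k0,k0,k0,k3,k0],[k0,k0,k0,k0,k2,k1],[k0,k0,k0,k0,k2,k2]]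
    [.contra [z1,z0,z0,y1],.contra [z1,z1,y1,y1],.contra [z1,z0,z0,y1],.contra [z1,z4,y3,y3,z1],.contra [y1,z1,z0,z1,
    z1],.contra [z1,z3,y2,y3,z1],.contra [z1,z2,y1,y3,z1],.contra [z1,z2,y1,y3,z1],.ref k103 k3 [(z1,[z0,z1,y1]),(z1,
    [y1,z0,y3]),(z1,[z1])],.contra [y1,z0,y1,y1,z1],.contra [z1,z0,z2]],
    .lp k0 [k132,k131,(nat_lit 216),k151,k164,k164] [k93,k85,k94,k85,k0,k94,k85,k74,k73,k73,k73,k73] k0 [[k0,k0,k0,k0,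
    k0,k0,k0,k0,k0,k0,k0,k0],[k0,k0,k0,k0,k0,k129,k0,k0,k0,k0,k0,k0],[k0,k0,k0,k0,k46,k0,k0,k0,k0,k0,k0,k0],[k0,k0,k0,
    k0,k46,k0,k0,k0,k0,k0,k0,k0],[k129,k0,k0,k0,k0,k70,k0,k0,k0,k0,k0,k0],[k0,k0,k46,k46,k0,k0,k0,k0,k0,k0,k0,k0],[k0,
    k0,k0,k0,k0,k0,k0,k0,k56,k56,k0,k0],[k0,k0,k0,k0,k0,k0,k0,k0,k0,k0,k0,k68],[k0,k0,k0,k0,k0,k0,k0,k56,k0,k0,k56,
    k0],[k0,k0,k0,k0,k0,k0,k0,k56,k0,k0,k56,k0],[k0,k0,k0,k0,k0,k0,k68,k0,k0,k0,k0,k0],[k0,k0,k0,k0,k0,k0,k0,k0,k56,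
    k56,k0,k0]] (nat_lit 480) k6
    [[(k8,k96),(k11,k96),(k1,k140),(k9,k152),(k10,k152),(k6,(nat_lit 208))],[(k2,k123),(k5,k123),(k0,k124),(k3,k132),
    (k4,(nat_lit 217)),(k7,(nat_lit 272))],[(k4,k96),(k2,k131),(k5,k131),(k0,k132),(k3,k140),(k7,k151)],[(k7,k96),(k2,
    k122),(k5,k122),(k0,k123),(k3,k131),(k4,(nat_lit 262))],[(k7,k96),(k2,k122),(k5,k122),(k0,k123),(k3,k131),(k4,
    (nat_lit 262))],[(k3,k96),(k0,(nat_lit 217)),(k7,(nat_lit 236)),(k4,(nat_lit 240)),(k2,(nat_lit 262)),(k5,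
    (nat_lit 262))],[(k2,k96),(k5,k96),(k3,k151),(k7,(nat_lit 232)),(k4,(nat_lit 236)),(k0,(nat_lit 272))],[(k8,k96),
    (k11,k96),(k6,k140),(k9,k152),(k10,k152),(k1,(nat_lit 208))],[(k10,k96),(k1,k152),(k6,k152),(k9,k164),(k8,
    (nat_lit 220)),(k11,(nat_lit 220))],[(k1,k96),(k6,k96),(k8,k164),(k11,k164),(k9,(nat_lit 220)),(k10,
    (nat_lit 220))],[(k1,k96),(k6,k96),(k8,k164),(k11,k164),(k9,(nat_lit 220)),(k10,(nat_lit 220))],[(k9,k96),(k1,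
    k152),(k6,k152),(k10,k164),(k8,(nat_lit 220)),(k11,(nat_lit 220))]]
    [[k2,k1,k0,k0,k0,k0],[k1,k1,k0,k1,k0,k0],[k2,k0,k0,k0,k1,k0],[k1,k1,k0,k1,k1,k0],[k2,k0,k0,k0,k1,k1],[k2,k0,k0,k0,
    k0,k1],[k1,k1,k0,k1,k0,k1],[k0,k3,k0,k0,k0,k0],[k0,k2,k1,k0,k0,k0],[k0,k2,k0,k2,k0,k0],[k0,k2,k2,k0,k0,k0],[k0,k1,
    k1,k2,k0,k0],[k0,k1,k0,k2,k0,k0],[k0,k0,k1,k2,k0,k0]]
    [.contra [y1,z1,y1,z1],.contra [z1,z0,y1],.ref k4 k0 [(z1,[z0,y1,z3,y1]),(z1,[z1,y1,z1,y1])],.contra [z1,z0,y1],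
    .ref k97 k1 [(z2,[z1,z1]),(z2,[y1,z1,y2,z2])],.ref k11 k0 [(z1,[z0,y1,z3,y1]),(z1,[y1,z1,y2,z2])],.contra [z1,z0,
    y1],.ref k102 k1 [(z1,[z0,z1]),(z1,[z1])],.ref k104 k1 [(z1,[z0,z1]),(z1,[z1,z0,z1,y1])],.contra [z1,z1,y3,z1],
    .ref k97 k1 [(z2,[y1,z2,y2,z2]),(z2,[z1])],.contra [y1,z1,z1,z1],.contra [z1,z1,y3,z1],.contra [z1,z1,y3,z1]],
    .lp (nat_lit 4097) [(nat_lit 3364),(nat_lit 2400),(nat_lit 3836),(nat_lit 4082),(nat_lit 2759),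
    (nat_lit 2759)] [(nat_lit 1097),(nat_lit 1097),(nat_lit 1722),(nat_lit 1436),k0,(nat_lit 1722),(nat_lit 1290),
    k186,(nat_lit 1017),(nat_lit 1782),(nat_lit 1782),(nat_lit 1017)] k0 [[k0,k0,k0,k0,k0,(nat_lit 758),k0,k0,k0,k0,
    k0,k0],[k0,k0,(nat_lit 472),k0,k0,(nat_lit 2194),k0,k0,k0,k0,k0,k0],[k0,k0,k0,k0,(nat_lit 1722),k0,k0,k0,k0,k0,k0,
    k0],[(nat_lit 472),k0,k0,k0,(nat_lit 1722),k0,k0,k0,k0,k0,k0,k0],[(nat_lit 2194),(nat_lit 758),k0,k0,k0,k0,k0,k0,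
    k0,k0,k0,k0],[k0,k0,(nat_lit 1722),(nat_lit 1722),k0,k0,k0,k0,k0,k0,k0,k0],[k0,k0,k0,k0,k0,k0,k0,k0,
    (nat_lit 1323),(nat_lit 1323),k0,k0],[k0,k0,k0,k0,k0,k0,k0,k0,k0,k0,k0,k0],[k0,k0,k0,k0,k0,k0,k0,(nat_lit 1323),
    k0,k0,(nat_lit 1323),k0],[k0,k0,k0,k0,k0,k0,k0,(nat_lit 1323),k0,k0,(nat_lit 1323),k0],[k0,k0,k0,k0,k0,k0,k0,k0,
    k0,k0,k0,k0],[k0,k0,k0,k0,k0,k0,k0,k0,(nat_lit 1323),(nat_lit 1323),k0,k0]] (nat_lit 9600) k6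
    [[(k8,(nat_lit 2121)),(k11,(nat_lit 2121)),(k9,(nat_lit 2679)),(k10,(nat_lit 2679)),(k6,(nat_lit 3171)),(k1,
    (nat_lit 3364))],[(k5,(nat_lit 2739)),(k3,(nat_lit 3025)),(k2,(nat_lit 3211)),(k0,(nat_lit 3364)),(k4,
    (nat_lit 3703)),(k7,(nat_lit 6469))],[(k4,(nat_lit 1928)),(k5,(nat_lit 1928)),(k2,(nat_lit 2400)),(k3,
    (nat_lit 2686)),(k0,(nat_lit 3025)),(k7,(nat_lit 4694))],[(k7,(nat_lit 1928)),(k2,(nat_lit 2114)),(k5,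
    (nat_lit 2114)),(k3,(nat_lit 2400)),(k0,(nat_lit 3211)),(k4,(nat_lit 5558))],[(k3,(nat_lit 1928)),(k7,
    (nat_lit 1928)),(k2,(nat_lit 2114)),(k5,(nat_lit 2114)),(k0,(nat_lit 2739)),(k4,(nat_lit 5558))],[(k3,
    (nat_lit 1928)),(k0,(nat_lit 3703)),(k7,(nat_lit 5372)),(k2,(nat_lit 5558)),(k4,(nat_lit 5558)),(k5,
    (nat_lit 5558))],[(k2,(nat_lit 1928)),(k5,(nat_lit 1928)),(k3,(nat_lit 4694)),(k7,(nat_lit 5186)),(k4,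
    (nat_lit 5372)),(k0,(nat_lit 6469))],[(k8,(nat_lit 1928)),(k11,(nat_lit 1928)),(k9,(nat_lit 2486)),(k10,
    (nat_lit 2486)),(k6,(nat_lit 2978)),(k1,(nat_lit 3171))],[(k9,(nat_lit 1994)),(k10,(nat_lit 1994)),(k6,
    (nat_lit 2486)),(k1,(nat_lit 2679)),(k8,(nat_lit 4082)),(k11,(nat_lit 4082))],[(k6,(nat_lit 1928)),(k1,
    (nat_lit 2121)),(k8,(nat_lit 3524)),(k11,(nat_lit 3524)),(k9,(nat_lit 4082)),(k10,(nat_lit 4082))],[(k6,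
    (nat_lit 1928)),(k1,(nat_lit 2121)),(k8,(nat_lit 3524)),(k11,(nat_lit 3524)),(k9,(nat_lit 4082)),(k10,
    (nat_lit 4082))],[(k9,(nat_lit 1994)),(k10,(nat_lit 1994)),(k6,(nat_lit 2486)),(k1,(nat_lit 2679)),(k8,
    (nat_lit 4082)),(k11,(nat_lit 4082))]]
    [[k1,k1,k0,k1,k0,k0],[k1,k0,k1,k1,k0,k0],[k2,k0,k0,k0,k1,k0],[k1,k1,k0,k1,k1,k0],[k2,k0,k0,k0,k0,k1],[k1,k1,k0,k1,
    k0,k1],[k0,k3,k0,k0,k0,k0],[k0,k3,k1,k0,k0,k0],[k0,k2,k1,k0,k0,k0],[k0,k2,k0,k2,k0,k0],[k0,k2,k2,k0,k0,k0],[k0,k1,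
    k1,k2,k0,k0]]
    [.contra [z1,y1],.contra [z1,y1],.ref k5 k2 [(z1,[y1,z2])],.contra [z1,y1],.ref k12 k2 [(z1,[y1,z2])],.contra [z1,
    y1],.ref k46 k1 [(z1,[z1])],.ref k78 k1 [(z1,[z1,z1,y1])],.ref k88 k1 [(z1,[z1,z1,y1])],.ref k95 k3 [(z2,[y1,
    z2])],.ref k96 k1 [(z2,[z1])],.ref k105 k2 [(z1,[z1,z1,y1])]]]

theorem hB6_125_8 : blkB [0, 0, 0, 1, 1, 1] [(0, 3)] sp6 hS6_125 (pcls (n := 6) [0, 0, 0, 1, 1, 1]) hD6_125 107 8 hN6_125_8 = true := by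
  decide +kernel

end Pool.Agent.Lib_MP_fa6e45
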