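import Pool.Agent.Lib_MP_fa6e45.HK

/-!
MP_fa6e45_co, stage 4: certificates (captain, generated by a program).
-/

namespace Pool.Agent.Lib_MP_fa6e45

/-- nodes 0 to 11 -/
noncomputable def hN6_171_0 : List HM :=
  [.base (.leafM k0 [k2,k3,k4,k5,k0,k1] [(z1,[y1,y1,z1])] []),
    .base (.leafM k3 [k5,k0,k1,k2,k3,k4] [(z1,[z0,y1,z1])] []),
    .base (.leafM k3 [k3,k4,k5,k0,k1,k2] [(z1,[z1,z1])] []),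
    .base (.leafM k0 [k1,k2,k3,k4,k5,k0] [(z1,[y1,y1,z1])] []),
    .base (.leafM k3 [k0,k1,k2,k3,k4,k5] [(z1,[z0,z1])] []),
    .base (.leafM k3 [k5,k0,k1,k2,k3,k4] [(z1,[z0,y1,z1])] []),
    .base (.leafM k3 [k1,k2,k3,k4,k5,k0] [(z2,[y1,y1,z2])] []),
    .base (.leafM k1 [k0,k1,k2,k3,k4,k5] [(z1,[z0,z1]),(z1,[z0,y1,z1])] []),
    .base (.leafM k0 [k2,k3,k4,k5,k0,k1] [(z2,[y1,y1,z2])] []),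
    .base (.leafM k0 [k2,k3,k4,k5,k0,k1] [(z3,[y1,y1,y1,z3])] []),
    .base (.leafM k0 [k1,k2,k3,k4,k5,k0] [(z1,[y1,y1,z0,z1])] []),
    .base (.leafM k3 [k5,k0,k1,k2,k3,k4] [(z1,[z0,y1,z0,z1])] [])]

theorem hB6_171_0 : blkB [0, 0, 0, 0, 0, 0] [] sp6 hS6_171 (pcls (n := 6) [0, 0, 0, 0, 0, 0]) hD6_171 560 0 hN6_171_0 = true := by
  decide +kernel

/-- nodes 12 to 23 -/
noncomputable def hN6_171_1 : List HM :=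
  [.base (.leafM k1 [k0,k1,k2,k3,k4,k5] [(z2,[y1,z0,y1,z2]),(z2,[z1,z0,z1])] []),
    .base (.leafM k3 [k2,k3,k4,k5,k0,k1] [(z4,[z0,y1,y1,z4])] []),
    .base (.leafM k3 [k4,k5,k0,k1,k2,k3] [(z1,[z0,z1,z1])] []),
    .base (.leafM k3 [k5,k0,k1,k2,k3,k4] [(z1,[z0,y1,z0,z1])] []),
    .base (.leafM k0 [k2,k3,k4,k5,k0,k1] [(z1,[y1,y1,y1,z1])] []),
    .base (.leafM k3 [k2,k3,k4,k5,k0,k1] [(z1,[z0,y1,y1,z1])] []),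
    .base (.leafM k0 [k0,k1,k2,k3,k4,k5] [(z3,[z0,z1,z1,z1])] []),
    .base (.leafM k0 [k0,k1,k2,k3,k4,k5] [(z2,[z0,z1,z1,z2])] []),
    .base (.leafM k1 [k0,k1,k2,k3,k4,k5] [(z1,[z0,z1,z0,z1]),(z1,[z0,y1,z0,y1,z1])] []),
    .base (.leafM k3 [k3,k4,k5,k0,k1,k2] [(z4,[z0,z0,y1,y1,z4])] []),
    .base (.leafM k3 [k1,k2,k3,k4,k5,k0] [(z1,[y1,y1,z0,y1,z1])] []),
    .base (.leafM k3 [k0,k1,k2,k3,k4,k5] [(z1,[y1,z0,y1,z0,z1])] [])]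

theorem hB6_171_1 : blkB [0, 0, 0, 0, 0, 0] [] sp6 hS6_171 (pcls (n := 6) [0, 0, 0, 0, 0, 0]) hD6_171 560 1 hN6_171_1 = true := by
  decide +kernel

/-- nodes 24 to 35 -/
noncomputable def hN6_171_2 : List HM :=
  [.base (.leafM k3 [k4,k5,k0,k1,k2,k3] [(z1,[z0,z1,z1])] []),
    .base (.leafM k0 [k0,k1,k2,k3,k4,k5] [(z3,[z0,z1,z1,z1])] []),
    .lp k0 [k80,k68,k86,k82,k86,k76] [k3,k3,k9,k9,k0,k0,k2,k2,k0,k0,k5,k5] k0 [[k0,k0,k0,k4,k4,k4,k4,k0,k0,k0,k0,k0],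
    [k2,k0,k0,k0,k0,k0,k0,k0,k0,k0,k8,k6],[k0,k4,k0,k0,k0,k0,k0,k0,k0,k2,k4,k0],[k0,k0,k0,k0,k0,k0,k0,k0,k0,k0,k0,k0],
    [k0,k4,k0,k0,k0,k2,k0,k0,k0,k0,k2,k2],[k0,k4,k0,k0,k0,k0,k0,k0,k0,k2,k0,k0],[k0,k0,k0,k0,k0,k0,k0,k2,k2,k0,k0,k0],
    [k0,k4,k0,k0,k0,k0,k0,k0,k0,k0,k0,k0],[k0,k0,k0,k2,k2,k0,k0,k0,k0,k0,k8,k10],[k0,k0,k0,k0,k0,k0,k0,k2,k0,k0,k0,
    k0],[k6,k0,k0,k0,k0,k2,k0,k0,k0,k10,k0,k2],[k8,k0,k0,k4,k0,k2,k0,k0,k0,k8,k0,k0]] (nat_lit 240) k5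
    [[(k3,k66),(k2,k70),(k8,k75),(k10,k78),(k4,k81),(k6,k81),(k1,k82),(k5,k83),(k7,k83),(k9,k83),(k0,k86),(k11,k88)],
    [(k2,k70),(k3,k74),(k7,k77),(k11,k78),(k4,k79),(k9,k79),(k6,k81),(k0,k82),(k5,k83),(k8,k83),(k1,k86),(k10,k86)],
    [(k1,k66),(k3,k66),(k10,k66),(k2,k68),(k11,k72),(k0,k74),(k8,k77),(k9,k77),(k6,k79),(k7,k79),(k4,k81),(k5,k81)],
    [(k2,k68),(k3,k68),(k0,k70),(k1,k70),(k10,k72),(k11,k72),(k6,k75),(k7,k75),(k8,k75),(k4,k77),(k5,k77),(k9,k77)],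
    [(k2,k77),(k3,k81),(k0,k83),(k1,k83),(k11,k83),(k6,k84),(k7,k84),(k10,k85),(k4,k86),(k5,k86),(k8,k86),(k9,k86)],
    [(k2,k77),(k0,k79),(k10,k79),(k1,k81),(k3,k81),(k11,k83),(k4,k84),(k6,k84),(k7,k84),(k5,k86),(k8,k86),(k9,k86)],
    [(k2,k75),(k0,k77),(k3,k79),(k11,k79),(k10,k81),(k6,k82),(k8,k82),(k1,k83),(k4,k84),(k5,k84),(k7,k84),(k9,k84)],
    [(k2,k75),(k11,k77),(k3,k79),(k10,k79),(k6,k80),(k0,k81),(k1,k81),(k7,k82),(k4,k84),(k5,k84),(k8,k84),(k9,k84)],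
    [(k2,k77),(k3,k77),(k0,k79),(k10,k81),(k11,k81),(k1,k83),(k6,k84),(k7,k84),(k4,k86),(k5,k86),(k8,k88),(k9,k88)],
    [(k10,k71),(k1,k75),(k2,k75),(k3,k77),(k11,k81),(k7,k82),(k0,k83),(k6,k84),(k4,k86),(k5,k86),(k8,k86),(k9,k88)],
    [(k2,k72),(k3,k72),(k11,k76),(k6,k77),(k0,k78),(k7,k79),(k8,k81),(k9,k81),(k4,k83),(k5,k83),(k10,k84),(k1,k88)],
    [(k3,k66),(k8,k71),(k2,k72),(k10,k74),(k1,k78),(k4,k79),(k6,k79),(k7,k81),(k9,k81),(k11,k84),(k5,k85),(k0,k86)]]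
    [[k2,k1,k0,k0,k0,k0],[k1,k2,k0,k0,k0,k0],[k1,k1,k1,k0,k0,k0],[k1,k1,k0,k1,k0,k0],[k1,k1,k0,k0,k1,k0],[k1,k1,k0,k0,
    k0,k1],[k1,k0,k0,k1,k1,k0],[k1,k0,k0,k0,k1,k1],[k1,k0,k0,k1,k0,k1],[k0,k3,k0,k0,k0,k0],[k0,k2,k1,k0,k0,k0],[k0,k2,
    k0,k1,k0,k0],[k0,k2,k0,k0,k1,k0],[k0,k2,k0,k0,k0,k1],[k0,k1,k1,k0,k0,k1],[k0,k1,k0,k2,k0,k0],[k0,k1,k0,k1,k1,k0],
    [k0,k1,k0,k1,k0,k1],[k0,k1,k0,k0,k1,k1],[k0,k1,k0,k0,k0,k2],[k0,k0,k0,k1,k1,k1],[k0,k0,k0,k1,k0,k2],[k0,k0,k0,k0,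
    k1,k2],[k0,k0,k0,k0,k0,k3]]
    [.ref k25 k0 [(z7,[z16,y11,y4]),(z7,[y11,z22,z8]),(z7,[y8,z16,z2,z21]),(z28,[z4,y8,y1,z0,z21]),(z28,[y8,y68,y19,
    y84,y21,z84])],.ref k25 k0 [(z1,[y8,z11,z4]),(z2,[z11,y11,y4]),(z1,[z4,y4,y2,z3]),(z4,[y2,z2,z1,z0,z3]),(z4,[z4,
    y16,y5,y12,y3,z12])],.ref k25 k0 [(z1,[y16,z19,z4,z16]),(z1,[z11,y11,y2,y11]),(z1,[z8,y8,y2,y5]),(z4,[y4,z4,z1,z4,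
    z3]),(z4,[z8,y20,y5,y20,y3,z12])],.ref k25 k0 [(z1,[z8,y5,y2,z0,y2]),(z8,[y44,z44,z17,z0,z11]),(z1,[y4,z4,z1,z3,
    z1]),(z8,[z4,y4,y1,z0,z5]),(z2,[y2,y4,y1,y6,y1,z6])],.ref k25 k0 [(z1,[z16,z3,z0,z16,z4,y16]),(z4,[y44,z0,z3,y44,
    y11,z44]),(z1,[y8,z0,z0,y5,y2,z8]),(z1,[z1,z0,z0,z1,z1,y1]),(z4,[y8,y12,y3,y20,y5,z20])],.ref k25 k0 [(z3,[z16,y7,
    y4]),(z3,[y11,z11,z5]),(z3,[y8,z8,z2,z9]),(z12,[z4,y4,y1,z0,z9]),(z12,[y8,y28,y7,y36,y9,z36])],.ref k25 k0 [(z5,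
    [z16,z15,z4,z16,z0,y16]),(z5,[y11,z0,z1,y11,z0,z11]),(z5,[y8,z0,y2,z7,z0,z8]),(z20,[z4,z0,z1,z4,z15,y4]),(z20,[y8,
    y60,y17,y68,y15,z68])],.ref k25 k0 [(z3,[z8,z9,z2,z8,z2,y8]),(z24,[y44,z0,z7,y44,y11,z44]),(z3,[y4,z0,y1,z5,y1,
    z4]),(z24,[z4,z0,z1,z4,z19,y4]),(z6,[y2,y18,y5,y20,y5,z20])],.ref k25 k0 [(z7,[z16,z5,z0,z0,y4]),(z28,[y44,z44,
    z21,z0,z11]),(z7,[y8,z8,z0,z21,z2]),(z7,[z1,y1,z0,z0,z5]),(z28,[y8,y76,y21,y84,y19,z84])],.ref k25 k0 [(z11,[y16,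
    z33,z12]),(z1,[z1]),(z11,[z8,z0,y6,z33]),(z44,[y4,z0,z3,z0,z33]),(z44,[z8,(Int.negSucc (nat_lit 131)),y39,
    (Int.negSucc (nat_lit 131)),y33,(Int.ofNat (nat_lit 132))])],.ref k25 k0 [(z5,[y8,z15,z4,z8]),(z10,[z11,z0,z2,
    y11]),(z5,[z4,z0,y2,z11]),(z20,[y2,z0,z1,z2,z15]),(z20,[z4,y60,y17,y64,y15,z60])],.ref k25 k0 [(z7,[y16,z21,z8,z0,
    z4]),(z28,[z44,z0,y1,z0,y11]),(z7,[z8,z0,y4,z21,y2]),(z14,[y2,z0,z1,z0,z11]),(z28,[z8,y84,y25,y84,y23,z84])],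
    .ref k25 k0 [(z2,[y4,z2,z1,y4,y1,z4]),(z32,[z44,z44,z13,z44,z11,y44]),(z4,[z4,z4,y1,z16,z1,y4]),(z32,[y4,y4,z1,y4,
    z23,z4]),(z16,[z4,y44,y13,y44,y11,z44])],.ref k25 k0 [(z3,[y8,z9,z4]),(z6,[z11,z0,y1]),(z3,[z4,z0,y2,z9]),(z12,
    [y2,z0,z1,z0,z9]),(z12,[z4,y36,y11,y36,y9,z36])],.ref k25 k0 [(z5,[y16,z15,z4,z16]),(z5,[z11,z0,z1,y11]),(z5,[z8,
    z0,y2,z7]),(z20,[y4,z0,z1,z4,z15]),(z20,[z8,y60,y17,y68,y15,z60])],.ref k25 k0 [(z3,[y16,z9,z4,z0,z8]),(z6,[z22,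
    z0,y1,z0,y11]),(z3,[z8,z0,y2,z9,y4]),(z12,[y4,z0,z1,z0,z11]),(z12,[z8,y36,y11,y36,y13,z36])],.ref k25 k0 [(z1,[y4,
    y1,z0,y4,z0,z4]),(z4,[z11,z11,z3,z11,z0,y11]),(z1,[z2,z2,z0,z5,z0,y2]),(z4,[y1,y1,z0,y1,z3,z1]),(z4,[z2,y10,y3,
    y10,y3,z10])],.ref k25 k0 [(z1,[y8,z3,z2,z0,z2]),(z8,[z44,z0,y5,z0,y11]),(z1,[z4,z0,y1,z3,y1]),(z8,[y4,z0,z1,z0,
    z7]),(z1,[z1,y3,y1,y3,y1,z3])],.ref k25 k0 [(z3,[y16,y7,z0,y16,y4,z16]),(z12,[z44,z44,z9,z44,z11,y44]),(z3,[z8,z8,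
    z0,z17,z2,y8]),(z3,[y1,y1,z0,y1,z2,z1]),(z12,[z8,y28,y9,y28,y7,z28])],.ref k25 k0 [(z1,[y16,z3,z4]),(z1,[z11,z0,
    y2]),(z1,[z8,z0,y2,z3]),(z4,[y4,z0,z1,z0,z3]),(z4,[z8,y12,y5,y12,y3,z12])],.ref k25 k0 [(z1,[z16,z19,z4,z16,z0,
    y16]),(z1,[y11,y11,y2,y11,z0,z11]),(z1,[y8,y8,y2,y5,z0,z8]),(z4,[z4,z4,z1,z4,z3,y4]),(z4,[y8,y20,y5,y20,y3,z20])],
    .ref k25 k0 [(z3,[z16,z9,z0,z0,y4]),(z12,[y44,z0,z9,z0,z11]),(z3,[y8,z0,z0,z9,z2]),(z3,[z1,z0,z0,z0,z2]),(z12,[y8,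
    y36,y9,y36,y7,z36])],.ref k25 k0 [(z1,[z8,z11,z2,z8,z2,y8]),(z8,[y44,y44,y5,y44,y11,z44]),(z1,[y4,y4,y1,y1,y1,
    z4]),(z8,[z4,z4,z1,z4,z7,y4]),(z1,[y1,y4,y1,y4,y1,z4])],.ref k25 k0 [(z1,[z4,z3]),(z4,[y11,z0,z3]),(z1,[y2,z0,z0,
    z3]),(z4,[z1,z0,z0,z0,z3]),(z4,[y2,y12,y3,y12,y3,z12])]],
    .lp k0 [k44,k38,k40,k42,k42,k32] [k0,k0,k3,k3,k2,k2,k1,k1,k1,k1,k6,k6] k0 [[k0,k0,k0,k0,k2,k0,k0,k0,k2,k0,k0,k0],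
    [k4,k0,k0,k0,k0,k0,k0,k0,k0,k0,k0,k4],[k0,k0,k0,k0,k0,k0,k0,k0,k0,k0,k0,k0],[k0,k0,k0,k0,k2,k0,k0,k0,k6,k0,k0,k4],
    [k0,k0,k0,k0,k0,k0,k0,k0,k0,k0,k4,k0],[k0,k2,k2,k0,k2,k0,k0,k0,k0,k0,k0,k0],[k0,k0,k0,k0,k0,k0,k0,k0,k0,k0,k4,k0],
    [k0,k0,k0,k0,k0,k0,k0,k0,k0,k0,k6,k0],[k0,k0,k0,k0,k0,k0,k0,k0,k0,k0,k0,k0],[k0,k2,k6,k0,k0,k0,k0,k0,k0,k0,k4,k0],
    [k4,k0,k4,k0,k0,k0,k0,k0,k0,k0,k0,k2],[k0,k0,k0,k0,k0,k4,k6,k4,k4,k0,k0,k0]] k120 k5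
    [[(k11,k34),(k9,k37),(k4,k38),(k10,k38),(k6,k39),(k3,k41),(k5,k42),(k7,k43),(k8,k43),(k2,k45),(k1,k46),(k0,k48)],
    [(k11,k36),(k10,k38),(k2,k41),(k3,k41),(k7,k41),(k4,k42),(k5,k42),(k6,k43),(k8,k43),(k9,k43),(k0,k48),(k1,k48)],
    [(k10,k31),(k3,k34),(k11,k35),(k2,k38),(k5,k39),(k6,k40),(k7,k40),(k9,k40),(k0,k41),(k1,k41),(k4,k41),(k8,k42)],
    [(k10,k35),(k11,k35),(k2,k38),(k3,k38),(k5,k39),(k6,k40),(k7,k40),(k9,k40),(k0,k41),(k4,k41),(k1,k45),(k8,k46)],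
    [(k11,k30),(k10,k32),(k2,k39),(k3,k39),(k7,k39),(k4,k40),(k5,k40),(k6,k41),(k8,k41),(k9,k41),(k0,k42),(k1,k42)],
    [(k10,k36),(k11,k36),(k1,k38),(k5,k40),(k2,k41),(k3,k41),(k6,k41),(k7,k41),(k8,k41),(k9,k41),(k0,k42),(k4,k42)],
    [(k11,k37),(k5,k39),(k2,k40),(k3,k40),(k7,k40),(k0,k41),(k4,k41),(k10,k41),(k6,k42),(k8,k42),(k9,k42),(k1,k43)],
    [(k11,k37),(k1,k39),(k2,k40),(k3,k40),(k4,k41),(k5,k41),(k6,k42),(k7,k42),(k8,k42),(k9,k42),(k0,k43),(k10,k43)],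
    [(k1,k37),(k11,k37),(k2,k40),(k3,k40),(k4,k41),(k5,k41),(k10,k41),(k6,k42),(k7,k42),(k8,k42),(k9,k42),(k0,k43)],
    [(k11,k37),(k4,k41),(k5,k41),(k10,k41),(k3,k42),(k6,k42),(k7,k42),(k8,k42),(k9,k42),(k0,k43),(k1,k43),(k2,k46)],
    [(k5,k30),(k10,k32),(k11,k32),(k1,k34),(k2,k35),(k3,k35),(k0,k36),(k4,k36),(k6,k37),(k7,k37),(k8,k37),(k9,k37)],
    [(k10,k30),(k3,k31),(k5,k32),(k11,k32),(k2,k35),(k4,k36),(k0,k38),(k1,k38),(k7,k41),(k8,k41),(k9,k41),(k6,k43)]]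
    [[k1,k1,k0,k0,k0,k1],[k1,k1,k1,k0,k0,k0],[k1,k0,k1,k0,k0,k1],[k1,k0,k0,k1,k0,k1],[k1,k0,k0,k0,k1,k1],[k1,k0,k0,k0,
    k0,k2],[k0,k3,k0,k0,k0,k0],[k0,k2,k1,k0,k0,k0],[k0,k2,k0,k1,k0,k0],[k0,k2,k0,k0,k0,k1],[k0,k1,k1,k0,k0,k1],[k0,k1,
    k0,k1,k0,k1],[k0,k1,k0,k0,k1,k1],[k0,k1,k0,k0,k0,k2],[k0,k0,k2,k0,k0,k1],[k0,k0,k1,k1,k0,k1],[k0,k0,k1,k0,k1,k1],
    [k0,k0,k1,k0,k0,k2],[k0,k0,k0,k1,k0,k2],[k0,k0,k0,k0,k1,k2],[k0,k0,k0,k0,k0,k3]]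
    [.ref k18 k1 [(z1,[z1,z0,z0,z1,y1]),(z2,[z2,y1,z1]),(z2,[y4,z5,z1]),(z1,[z4,y2,y1])],.ref k19 k2 [(z1,[z3,y2,y1,
    y2,z1]),(z1,[z0,z0,z0,z1]),(z1,[y2,z1,z1,z1]),(z2,[z4,y1,y1,y2])],.ref k20 k3 [(z2,[y6,z1,y1,y4,z4]),(z1,[z0,z0,
    z0,z1]),(z1,[z2,y1]),(z1,[y1,z1])],.ref k19 k2 [(z2,[z6,y1,z1,z2,y4]),(z1,[z0,z0,z0,z1]),(z1,[y2,z0,z0,y1,z2]),
    (z2,[z4,z1,z1,z2,y4])],.ref k19 k2 [(z4,[y6,z1,y1,y2,z4]),(z1,[z0,z0,z0,z1]),(z2,[z2,y1,z1]),(z1,[y1,z1])],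
    .ref k18 k1 [(z4,[z2,z1,z1,z4,y4]),(z4,[z2,y1,z3]),(z1,[y1,z2]),(z1,[z2,y1])],.ref k18 k1 [(z2,[z2,z1,y1,z2,y2]),
    (z1,[z1]),(z2,[y4,z3,z3]),(z1,[z4,z0,y3])],.ref k20 k3 [(z1,[y3,y1,z1,y2,z2]),(z1,[z0,z0,z0,z1]),(z1,[z2,z0,y1]),
    (z2,[y2,z1,z1])],.ref k19 k2 [(z1,[z3,z1,y1,z1,y2]),(z1,[z0,z0,z0,z1]),(z1,[y2,y1,z1,y1,z2]),(z2,[z4,z3,y1,z2,
    y4])],.ref k18 k1 [(z2,[z1,z1,z0,z2,y2]),(z2,[z1,z0,z1]),(z2,[y2,z3,z1]),(z1,[z2,z0,y1])],.ref k21 k4 [(z1,[y4,z0,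
    z1,z2]),(z2,[z2,y1,y1,y2,z2]),(z1,[z4,z0,y1]),(z1,[z0,z0,z1])],.ref k20 k3 [(z2,[y6,y5,y1,y10,z10]),(z1,[z0,z0,z0,
    z1]),(z1,[z2,z1,z0,z2,y2]),(z1,[y1,z0,z0,y1,z1])],.ref k22 k5 [(z1,[z6,z5,z1,z5,y10]),(z1,[y4,y4,y1,y4,z8]),(z2,
    [z4,z5,z1,z4,y8]),(z1,[y1,y1,z0,y1,z2])],.ref k18 k1 [(z6,[z2,z3,z1,z6,y6]),(z3,[z1,z0,z2]),(z6,[y4,z9,z1]),(z3,
    [z4,z0,y1])],.ref k20 k3 [(z2,[y3,y2,y1,y4,z4]),(z1,[z0,z0,z0,z1]),(z1,[z1]),(z2,[y1,z1])],.ref k23 k3 [(z1,[y3,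
    y2,y1,y4,z4]),(z1,[z0,z0,z0,z1]),(z1,[z4,z2,z1,z4,y4]),(z2,[y4,y1,y1,y4,z4])],.ref k24 k1 [(z1,[z3,z2,z1,z1,y4]),
    (z2,[z2,z1,z1,z0,y2]),(z2,[y4,y1,y1,z0,z4]),(z1,[z4,z2,z1,z0,y4])],.ref k26 k4 [(z1,[y2,z0,z0,z1]),(z1,[z4,y2,y1,
    y4,z4]),(z1,[z1]),(z1,[z0,z0,z1])],.ref k21 k4 [(z1,[y4,y2,y1,y2,z4]),(z1,[z1]),(z1,[z4,z2,z1,z4,y4]),(z1,[z0,z0,
    z1])],.ref k24 k1 [(z2,[z3,z4,z2,z5,y8]),(z2,[z1,z1,z1,z1,y2]),(z2,[y2,y1,y1,y2,z4]),(z1,[z2,z2,z1,z2,y4])],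
    .ref k18 k1 [(z4,[z1,z2,z1,z4,y4]),(z4,[z1,z0,z3]),(z2,[y1,z3]),(z1,[z1])]],
    .base (.leafM k3 [k2,k3,k4,k5,k0,k1] [(z1,[z0,y1,y1,z1])] []),
    .base (.leafM k1 [k0,k1,k2,k3,k4,k5] [(z4,[z0,z1,z0,z1]),(z4,[z0,y1,z0,y1,z4])] []),
    .base (.leafM k3 [k4,k5,k0,k1,k2,k3] [(z1,[z0,z1,z1])] []),
    .base (.leafM k3 [k3,k4,k5,k0,k1,k2] [(z1,[z0,z0,y1,y1,z1])] []),
    .lp k0 [(nat_lit 57885120),(nat_lit 58625450),(nat_lit 61588800),(nat_lit 61217312),(nat_lit 64919972),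
    (nat_lit 50849864)] [(nat_lit 6911531),(nat_lit 123321),(nat_lit 3147261),(nat_lit 3147261),(nat_lit 1665586),
    (nat_lit 1665586),(nat_lit 1851330),(nat_lit 1851330),k0,k0,(nat_lit 7035054),(nat_lit 7035054)] k0 [[k0,
    (nat_lit 370266),(nat_lit 1481064),k0,k0,(nat_lit 370266),k0,k0,k0,k0,k0,(nat_lit 3702660)],[k0,k0,
    (nat_lit 1110798),k0,k0,k0,k0,k0,(nat_lit 740532),k0,k0,(nat_lit 4813458)],[k0,k0,k0,k0,(nat_lit 1110798),k0,k0,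
    k0,k0,(nat_lit 1481064),k0,(nat_lit 3702660)],[(nat_lit 1110798),(nat_lit 1481064),k0,k0,k0,k0,(nat_lit 1110798),
    k0,k0,k0,k0,k0],[k0,(nat_lit 370266),k0,k0,k0,k0,(nat_lit 4813458),k0,k0,(nat_lit 4072926),(nat_lit 2962128),k0],
    [k0,k0,k0,(nat_lit 1110798),(nat_lit 2221596),k0,k0,k0,k0,(nat_lit 2591862),(nat_lit 1110798),k0],[k0,k0,k0,k0,k0,
    k0,k0,(nat_lit 2591862),(nat_lit 3332394),(nat_lit 13329576),k0,k0],[k0,k0,(nat_lit 1110798),k0,k0,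
    (nat_lit 4813458),k0,k0,k0,k0,(nat_lit 9997182),(nat_lit 2221596)],[k0,k0,k0,(nat_lit 1481064),(nat_lit 2591862),
    (nat_lit 4072926),k0,(nat_lit 13329576),k0,k0,(nat_lit 13329576),k0],[(nat_lit 740532),k0,k0,k0,k0,k0,k0,
    (nat_lit 3332394),k0,k0,(nat_lit 13329576),k0],[(nat_lit 4813458),(nat_lit 3702660),k0,(nat_lit 3702660),k0,k0,
    (nat_lit 2221596),k0,k0,k0,k0,(nat_lit 2221596)],[k0,k0,k0,k0,(nat_lit 1110798),(nat_lit 2962128),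
    (nat_lit 9997182),k0,(nat_lit 13329576),(nat_lit 13329576),k0,k0]] (nat_lit 177727680) k5
    [[(k11,(nat_lit 44432021)),(k8,(nat_lit 51467075)),(k9,(nat_lit 54799469)),(k10,(nat_lit 57761597)),(k4,
    (nat_lit 60168937)),(k2,(nat_lit 61649390)),(k7,(nat_lit 61834523)),(k0,(nat_lit 62698578)),(k6,
    (nat_lit 65166917)),(k3,(nat_lit 65352050)),(k5,(nat_lit 66833725)),(k1,(nat_lit 66894926))],[(k10,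
    (nat_lit 47270727)),(k0,(nat_lit 50726644)),(k11,(nat_lit 50973387)),(k3,(nat_lit 54861180)),(k5,
    (nat_lit 54861791)),(k2,(nat_lit 55971978)),(k4,(nat_lit 55972589)),(k6,(nat_lit 56157111)),(k7,
    (nat_lit 56157111)),(k9,(nat_lit 58008441)),(k8,(nat_lit 58748973)),(k1,(nat_lit 62698578))],[(k10,
    (nat_lit 49924199)),(k11,(nat_lit 53997125)),(k0,(nat_lit 54861180)),(k3,(nat_lit 58995716)),(k5,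
    (nat_lit 58996327)),(k6,(nat_lit 59921381)),(k2,(nat_lit 60106514)),(k4,(nat_lit 60107125)),(k7,
    (nat_lit 60291647)),(k8,(nat_lit 61772711)),(k9,(nat_lit 61772711)),(k1,(nat_lit 65352050))],[(k10,
    (nat_lit 51034997)),(k11,(nat_lit 54737657)),(k0,(nat_lit 55971978)),(k2,(nat_lit 58625450)),(k7,
    (nat_lit 58810583)),(k3,(nat_lit 60106514)),(k4,(nat_lit 60107125)),(k5,(nat_lit 60107125)),(k8,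
    (nat_lit 60291647)),(k6,(nat_lit 61032179)),(k1,(nat_lit 61649390)),(k9,(nat_lit 61772711))],[(k0,
    (nat_lit 54861791)),(k10,(nat_lit 56219332)),(k11,(nat_lit 57700396)),(k3,(nat_lit 58996327)),(k2,
    (nat_lit 60107125)),(k6,(nat_lit 61403056)),(k7,(nat_lit 61403056)),(k5,(nat_lit 61588800)),(k9,
    (nat_lit 62143588)),(k4,(nat_lit 62699598)),(k8,(nat_lit 63254386)),(k1,(nat_lit 66833725))],[(k0,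
    (nat_lit 55972589)),(k10,(nat_lit 57330130)),(k9,(nat_lit 58440928)),(k11,(nat_lit 58811194)),(k8,
    (nat_lit 59181460)),(k2,(nat_lit 60107125)),(k3,(nat_lit 60107125)),(k1,(nat_lit 60168937)),(k6,
    (nat_lit 61403056)),(k7,(nat_lit 61403056)),(k5,(nat_lit 62699598)),(k4,(nat_lit 63810396))],[(k0,
    (nat_lit 56157111)),(k2,(nat_lit 58810583)),(k7,(nat_lit 58995716)),(k10,(nat_lit 58995716)),(k11,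
    (nat_lit 60106514)),(k3,(nat_lit 60291647)),(k8,(nat_lit 60476780)),(k4,(nat_lit 61403056)),(k5,
    (nat_lit 61403056)),(k1,(nat_lit 61834523)),(k9,(nat_lit 63068642)),(k6,(nat_lit 66030770))],[(k8,
    (nat_lit 49739066)),(k11,(nat_lit 52701194)),(k0,(nat_lit 56157111)),(k6,(nat_lit 58625450)),(k3,
    (nat_lit 59921381)),(k2,(nat_lit 61032179)),(k4,(nat_lit 61403056)),(k5,(nat_lit 61403056)),(k9,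
    (nat_lit 63068642)),(k1,(nat_lit 65166917)),(k7,(nat_lit 66030770)),(k10,(nat_lit 66030770))],[(k1,
    (nat_lit 54799469)),(k10,(nat_lit 55663322)),(k0,(nat_lit 58008441)),(k4,(nat_lit 58440928)),(k2,
    (nat_lit 61772711)),(k3,(nat_lit 61772711)),(k5,(nat_lit 62143588)),(k6,(nat_lit 63068642)),(k7,
    (nat_lit 63068642)),(k9,(nat_lit 67511834)),(k8,(nat_lit 68252366)),(k11,(nat_lit 71214494))],[(k6,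
    (nat_lit 49739066)),(k1,(nat_lit 51467075)),(k11,(nat_lit 57884918)),(k0,(nat_lit 58748973)),(k4,
    (nat_lit 59181460)),(k2,(nat_lit 60291647)),(k7,(nat_lit 60476780)),(k3,(nat_lit 61772711)),(k5,
    (nat_lit 63254386)),(k8,(nat_lit 64919972)),(k9,(nat_lit 68252366)),(k10,(nat_lit 71214494))],[(k1,
    (nat_lit 44432021)),(k11,(nat_lit 50849864)),(k0,(nat_lit 50973387)),(k6,(nat_lit 52701194)),(k3,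
    (nat_lit 53997125)),(k2,(nat_lit 54737657)),(k5,(nat_lit 57700396)),(k8,(nat_lit 57884918)),(k4,
    (nat_lit 58811194)),(k7,(nat_lit 60106514)),(k10,(nat_lit 64179440)),(k9,(nat_lit 71214494))],[(k0,
    (nat_lit 47270727)),(k10,(nat_lit 48628268)),(k3,(nat_lit 49924199)),(k2,(nat_lit 51034997)),(k9,
    (nat_lit 55663322)),(k5,(nat_lit 56219332)),(k4,(nat_lit 57330130)),(k1,(nat_lit 57761597)),(k7,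
    (nat_lit 58995716)),(k11,(nat_lit 64179440)),(k6,(nat_lit 66030770)),(k8,(nat_lit 71214494))]]
    [[k2,k0,k0,k0,k1,k0],[k2,k0,k0,k0,k0,k1],[k1,k2,k0,k0,k0,k0],[k1,k1,k1,k0,k0,k0],[k1,k1,k0,k0,k0,k1],[k1,k0,k1,k0,
    k0,k1],[k1,k0,k0,k1,k0,k1],[k1,k0,k0,k2,k0,k0],[k1,k0,k0,k1,k1,k0],[k1,k1,k0,k0,k1,k0],[k1,k0,k1,k0,k1,k0],[k1,k0,
    k0,k0,k1,k1],[k1,k0,k0,k0,k0,k2],[k0,k2,k0,k0,k0,k1],[k0,k1,k1,k0,k0,k1],[k0,k1,k0,k1,k0,k1],[k0,k1,k0,k1,k1,k0],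
    [k0,k1,k0,k0,k1,k1],[k0,k1,k0,k0,k0,k2],[k0,k0,k1,k1,k1,k0],[k0,k0,k1,k1,k0,k1],[k0,k0,k1,k0,k1,k1],[k0,k0,k1,k0,
    k0,k2],[k0,k0,k0,k2,k1,k0],[k0,k0,k0,k1,k1,k1],[k0,k0,k0,k1,k0,k2],[k0,k0,k0,k0,k0,k3]]
    [.ref k25 k0 [(z48,[z8,z17,z2,z4,z1,y8]),(z24,[y8,z1,z16,y4,y1,z8]),(z12,[z8,y1,z2,z22,z1,y8]),(z48,[y88,z11,y22,
    y44,z7,z88]),(z24,[z64,y17,y2,y4,y1,z8])],.ref k25 k0 [(z2,[y1,z1]),(z4,[z4,y1,z3]),(z2,[y4,z1,z0,z3]),(z8,[z44,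
    y11,z0,z0,z3]),(z8,[y64,z13,y6,y12,y3,z24])],.ref k25 k0 [(z2,[y2,z1,z1]),(z4,[z8,y1,y1]),(z2,[y8,z1,z4,z3]),(z8,
    [z88,y11,y44,z0,z3]),(z8,[(Int.negSucc (nat_lit 127)),z13,z58,y12,y3,z24])],.ref k25 k0 [(z4,[z4,z1,y1,y2]),(z4,
    [y8,z1,z5,z4]),(z2,[z8,y1,y2,y1]),(z8,[y88,z11,z22,z44,z3]),(z8,[(Int.ofNat (nat_lit 128)),y19,y38,y76,y3,z24])],
    .ref k25 k0 [(z12,[y4,z5,z1]),(z12,[z8,y1,z7]),(z6,[y8,z1,z2,z9]),(z24,[z88,y11,y22,z0,z9]),(z24,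
    [(Int.negSucc (nat_lit 127)),z7,z14,y36,y9,z72])],.ref k25 k0 [(z2,[y2,z1,z0,z1]),(z4,[z8,y1,z3,y4]),(z2,[y8,z1,
    z0,z7]),(z8,[z88,y11,z0,y44,z3]),(z8,[(Int.negSucc (nat_lit 127)),z13,y6,z52,y3,z24])],.ref k25 k0 [(z48,[y8,z19,
    z0,z0,z1]),(z24,[z8,y1,z18,z0,y1]),(z12,[y8,z1,z0,z18,z1]),(z48,[z88,y11,z0,z0,z7]),(z24,[y64,y1,y18,y36,y1,
    z72])],.ref k25 k0 [(z28,[y4,z11,z0,z0,z1]),(z28,[z8,y1,z21,z0,y2]),(z14,[y8,z1,z0,z21,z2]),(z56,[z88,y11,z0,z0,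
    y1]),(z56,[(Int.negSucc (nat_lit 127)),y5,y42,y84,z11,(Int.ofNat (nat_lit 168))])],.ref k25 k0 [(z8,[z4,z3,z1,z2,
    z0,y4]),(z2,[y2,z0,z1,y1,z0,z2]),(z2,[z4,z0,z1,z5,z0,y4]),(z8,[y44,z0,y11,y22,z3,z44]),(z8,[z64,y3,z10,z20,y3,
    y40])],.ref k25 k0 [(z40,[z8,z15,z0,z4,z1,y8]),(z20,[y8,z0,z15,y4,y1,z8]),(z10,[z8,z0,z0,z19,z1,y8]),(z10,[y22,z0,
    z0,y11,z1,z22]),(z40,[(Int.ofNat (nat_lit 128)),y15,y30,z4,z1,y8])],.ref k25 k0 [(z56,[z8,z21,z2,z0,z1,y8]),(z28,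
    [y8,z0,z19,z0,y1,z8]),(z14,[z8,z0,z2,z21,z1,y8]),(z28,[y44,z0,y11,z0,z5,z44]),(z56,[(Int.ofNat (nat_lit 128)),y21,
    y10,y84,y5,z40])],.ref k25 k0 [(z24,[z8,z9,z2,z4,z1,y8]),(z12,[y8,z0,z7,y4,y1,z8]),(z6,[z8,z0,z2,z13,z1,y8]),(z12,
    [y44,z0,y11,y22,y1,z44]),(z24,[(Int.ofNat (nat_lit 128)),y9,z14,z28,z7,y56])],.ref k25 k0 [(z5,[y1,z2]),(z20,[z8,
    y1,z15]),(z10,[y8,z1,z0,z15]),(z40,[z88,y11,z0,z0,z15]),(z40,[(Int.negSucc (nat_lit 127)),z1,y30,y60,y15,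
    (Int.ofNat (nat_lit 120))])],.ref k25 k0 [(z8,[y2,z3,z1]),(z2,[z1,z0,z1]),(z2,[y2,z0,z1,z3]),(z8,[z22,z0,y11,z0,
    z3]),(z8,[y32,y3,z10,y12,y3,z24])],.ref k25 k0 [(z8,[y4,z3,z1,z2]),(z2,[z2,z0,z1,y1]),(z2,[y4,z0,z1,z5]),(z8,[z44,
    z0,y11,y22,z3]),(z8,[y64,y3,z10,z20,y3,z24])],.ref k25 k0 [(z56,[y8,z21,z2,z0,z1]),(z28,[z8,z0,z19,z0,y1]),(z14,
    [y8,z0,z2,z21,z1]),(z28,[z44,z0,y11,z0,z5]),(z56,[(Int.negSucc (nat_lit 127)),y21,y10,y84,y5,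
    (Int.ofNat (nat_lit 168))])],.ref k25 k0 [(z2,[z2,z1,z0,z1,z0,y2]),(z4,[y8,y1,z3,y4,z0,z8]),(z2,[z8,z1,z0,z7,z0,
    y8]),(z8,[y88,y11,z0,y44,z3,z88]),(z8,[(Int.ofNat (nat_lit 128)),z13,y6,z52,y3,(Int.negSucc (nat_lit 103))])],
    .ref k25 k0 [(z16,[z8,z7,z0,z4,z1,y8]),(z8,[y8,y1,z6,y4,y1,z8]),(z4,[z8,z1,z0,z10,z1,y8]),(z16,[y88,y11,z0,y44,y5,
    z88]),(z8,[z64,z5,y6,z20,z5,y40])],.ref k25 k0 [(z24,[y4,z9,z1]),(z3,[z1,z0,z2]),(z6,[y4,z0,z1,z9]),(z24,[z44,z0,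
    y11,z0,z9]),(z24,[y64,y9,y2,y36,y9,z72])],.ref k25 k0 [(z12,[z4,z5,z1,z0,z0,y4]),(z12,[y8,y1,z7,z0,z0,z8]),(z6,
    [z8,z1,z2,z9,z0,y8]),(z24,[y88,y11,y22,z0,z9,z88]),(z24,[(Int.ofNat (nat_lit 128)),z7,z14,y36,y9,y56])],
    .ref k25 k0 [(z40,[y8,z15,z0,z4,z1]),(z20,[z8,z0,z15,y4,y1]),(z10,[y8,z0,z0,z19,z1]),(z10,[z22,z0,z0,y11,z1]),
    (z40,[(Int.negSucc (nat_lit 127)),y15,y30,z4,z1,(Int.ofNat (nat_lit 120))])],.ref k25 k0 [(z32,[z8,z13,z2,z0,z1,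
    y8]),(z16,[y8,y1,z10,z0,y1,z8]),(z8,[z8,z1,z2,z12,z1,y8]),(z32,[y88,y11,y22,z0,z1,z88]),(z8,[z32,z1,z2,y12,z1,
    y8])],.ref k25 k0 [(z8,[y2,z3,z0,z1]),(z4,[z2,z0,z3,y1]),(z1,[y1,z0,z0,z2]),(z8,[z22,z0,z0,y11,z3]),(z8,[y32,y3,
    y6,z4,y3,z24])],.ref k25 k0 [(z16,[y8,z5,y2,y4,z1,z8]),(z8,[z8,z1,z8,z4,y1,y8]),(z4,[y8,y1,y2,z2,z1,z8]),(z16,
    [z88,z11,z22,z44,y5,y88]),(z8,[y64,y11,y22,y44,z5,z88])],.ref k25 k0 [(z4,[y4,z1,y1,y2,z0,z4]),(z4,[z8,z1,z5,z4,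
    z0,y8]),(z2,[y8,y1,y2,y1,z0,z8]),(z8,[z88,z11,z22,z44,z3,y88]),(z8,[(Int.negSucc (nat_lit 127)),y19,y38,y76,y3,
    (Int.ofNat (nat_lit 152))])],.ref k25 k0 [(z72,[y8,z27,z0,z0,z1]),(z36,[z8,z0,z27,z0,y1]),(z18,[y8,z0,z0,z27,z1]),
    (z9,[z11,z0,z0,z0,z2]),(z72,[(Int.negSucc (nat_lit 127)),y27,y54,(Int.negSucc (nat_lit 107)),y11,
    (Int.ofNat (nat_lit 216))])],.ref k25 k0 [(z8,[y1,z3]),(z4,[z1,z0,z3]),(z2,[y1,z0,z0,z3]),(z8,[z11,z0,z0,z0,z3]),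
    (z8,[y16,y3,y6,y12,y3,z24])]],
    .base (.leafM k0 [k0,k1,k2,k3,k4,k5] [(z3,[z0,z1,z1,z1])] []),
    .base (.leafM k0 [k0,k1,k2,k3,k4,k5] [(z4,[z0,z1,z2,z1])] []),
    .lp k0 [(nat_lit 298),(nat_lit 270),(nat_lit 358),(nat_lit 336),(nat_lit 306),(nat_lit 348)] [k30,k30,k47,k41,k0,
    k0,k11,k11,k26,k26,k5,k5] k0 [[k0,k0,k0,k30,k14,k0,k0,k0,k26,k44,k0,k0],[k36,k0,k0,k0,k0,k0,k34,k0,k0,k0,k0,k22],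
    [k0,k30,k0,k0,k0,k0,k0,k0,k42,k0,k12,k0],[k0,k0,k0,k0,k18,k0,k0,k0,k12,k0,k14,k0],[k0,k0,k0,k0,k0,k4,k0,k4,k0,k0,
    k0,k4],[k0,k14,k18,k0,k0,k0,k0,k0,k60,k6,k0,k0],[k0,k0,k0,k0,k0,k4,k0,k0,k44,k22,k0,k0],[k34,k0,k0,k0,k0,k0,k0,k0,
    k0,k0,k0,k20],[k0,k44,k0,k0,k6,k0,k0,k22,k0,k2,k58,k0],[k0,k26,k12,k42,k60,k0,k0,k44,k0,k0,k0,k0],[k22,k0,k0,k0,
    k0,k4,k20,k0,k0,k0,k0,k8],[k0,k0,k14,k12,k0,k0,k0,k0,k0,k58,k0,k0]] (nat_lit 960) k5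
    [[(k8,(nat_lit 244)),(k2,(nat_lit 269)),(k3,(nat_lit 287)),(k9,(nat_lit 302)),(k1,(nat_lit 306)),(k5,
    (nat_lit 314)),(k0,(nat_lit 320)),(k7,(nat_lit 321)),(k10,(nat_lit 323)),(k11,(nat_lit 323)),(k4,(nat_lit 328)),
    (k6,(nat_lit 337))],[(k2,(nat_lit 251)),(k8,(nat_lit 258)),(k3,(nat_lit 287)),(k11,(nat_lit 297)),(k9,
    (nat_lit 302)),(k7,(nat_lit 303)),(k1,(nat_lit 320)),(k10,(nat_lit 323)),(k4,(nat_lit 328)),(k5,(nat_lit 328)),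
    (k0,(nat_lit 334)),(k6,(nat_lit 351))],[(k3,(nat_lit 240)),(k9,(nat_lit 257)),(k2,(nat_lit 270)),(k0,
    (nat_lit 287)),(k1,(nat_lit 287)),(k10,(nat_lit 290)),(k6,(nat_lit 306)),(k7,(nat_lit 306)),(k8,(nat_lit 317)),
    (k4,(nat_lit 331)),(k5,(nat_lit 347)),(k11,(nat_lit 356))],[(k0,(nat_lit 251)),(k2,(nat_lit 264)),(k11,
    (nat_lit 264)),(k1,(nat_lit 269)),(k3,(nat_lit 270)),(k9,(nat_lit 285)),(k8,(nat_lit 297)),(k6,(nat_lit 300)),(k7,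
    (nat_lit 300)),(k5,(nat_lit 311)),(k10,(nat_lit 320)),(k4,(nat_lit 329))],[(k2,(nat_lit 311)),(k1,(nat_lit 314)),
    (k0,(nat_lit 328)),(k7,(nat_lit 329)),(k9,(nat_lit 332)),(k11,(nat_lit 341)),(k3,(nat_lit 347)),(k6,
    (nat_lit 347)),(k4,(nat_lit 358)),(k5,(nat_lit 358)),(k10,(nat_lit 365)),(k8,(nat_lit 374))],[(k0,(nat_lit 328)),
    (k1,(nat_lit 328)),(k2,(nat_lit 329)),(k3,(nat_lit 331)),(k9,(nat_lit 332)),(k6,(nat_lit 343)),(k7,(nat_lit 347)),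
    (k10,(nat_lit 349)),(k4,(nat_lit 354)),(k5,(nat_lit 358)),(k11,(nat_lit 359)),(k8,(nat_lit 392))],[(k11,
    (nat_lit 282)),(k2,(nat_lit 300)),(k0,(nat_lit 303)),(k3,(nat_lit 306)),(k8,(nat_lit 315)),(k1,(nat_lit 321)),(k9,
    (nat_lit 325)),(k5,(nat_lit 329)),(k6,(nat_lit 336)),(k7,(nat_lit 340)),(k10,(nat_lit 342)),(k4,(nat_lit 347))],
    [(k11,(nat_lit 298)),(k8,(nat_lit 299)),(k2,(nat_lit 300)),(k3,(nat_lit 306)),(k9,(nat_lit 321)),(k6,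
    (nat_lit 336)),(k7,(nat_lit 336)),(k1,(nat_lit 337)),(k10,(nat_lit 342)),(k4,(nat_lit 343)),(k5,(nat_lit 347)),
    (k0,(nat_lit 351))],[(k3,(nat_lit 257)),(k2,(nat_lit 285)),(k0,(nat_lit 302)),(k1,(nat_lit 302)),(k9,
    (nat_lit 306)),(k10,(nat_lit 307)),(k6,(nat_lit 321)),(k7,(nat_lit 325)),(k4,(nat_lit 332)),(k5,(nat_lit 332)),
    (k11,(nat_lit 349)),(k8,(nat_lit 350))],[(k1,(nat_lit 244)),(k0,(nat_lit 258)),(k2,(nat_lit 297)),(k6,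
    (nat_lit 299)),(k8,(nat_lit 304)),(k7,(nat_lit 315)),(k3,(nat_lit 317)),(k10,(nat_lit 327)),(k11,(nat_lit 327)),
    (k9,(nat_lit 350)),(k5,(nat_lit 374)),(k4,(nat_lit 392))],[(k2,(nat_lit 264)),(k7,(nat_lit 282)),(k0,
    (nat_lit 297)),(k6,(nat_lit 298)),(k1,(nat_lit 323)),(k8,(nat_lit 327)),(k5,(nat_lit 341)),(k9,(nat_lit 349)),
    (k11,(nat_lit 350)),(k3,(nat_lit 356)),(k4,(nat_lit 359)),(k10,(nat_lit 406))],[(k3,(nat_lit 290)),(k9,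
    (nat_lit 307)),(k2,(nat_lit 320)),(k0,(nat_lit 323)),(k1,(nat_lit 323)),(k8,(nat_lit 327)),(k10,(nat_lit 340)),
    (k6,(nat_lit 342)),(k7,(nat_lit 342)),(k4,(nat_lit 349)),(k5,(nat_lit 365)),(k11,(nat_lit 406))]]
    [[k2,k1,k0,k0,k0,k0],[k2,k0,k0,k0,k1,k0],[k2,k0,k0,k0,k0,k1],[k1,k2,k0,k0,k0,k0],[k1,k1,k1,k0,k0,k0],[k1,k1,k0,k1,
    k0,k0],[k1,k1,k0,k0,k1,k0],[k1,k1,k0,k0,k0,k1],[k1,k0,k1,k0,k1,k0],[k1,k0,k0,k1,k1,k0],[k1,k0,k0,k1,k0,k1],[k1,k0,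
    k0,k0,k2,k0],[k1,k0,k0,k0,k1,k1],[k0,k3,k0,k0,k0,k0],[k0,k2,k1,k0,k0,k0],[k0,k2,k0,k1,k0,k0],[k0,k2,k0,k0,k1,k0],
    [k0,k2,k0,k0,k0,k1],[k0,k1,k0,k2,k0,k0],[k0,k1,k0,k1,k1,k0],[k0,k1,k0,k1,k0,k1],[k0,k1,k0,k0,k2,k0],[k0,k1,k0,k0,
    k1,k1],[k0,k0,k0,k1,k2,k0],[k0,k0,k0,k1,k1,k1],[k0,k0,k0,k1,k0,k2]]
    [.ref k25 k0 [(z6,[z13,y2,y13]),(z3,[y4,z2,z13]),(z3,[y4,z2,z4,z9]),(z12,[z2,y1,y2,z0,z9]),(z12,[y4,y7,y32,y36,y9,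
    z36])],.ref k25 k0 [(z32,[z52,z11,z52,z52,z13,y52]),(z4,[y4,z1,z8,y4,y1,z4]),(z4,[y4,z1,y4,z8,y1,z4]),(z32,[z4,y1,
    z4,z4,z25,y4]),(z16,[y4,y11,y52,y52,y13,z52])],.ref k25 k0 [(z10,[z13,z1]),(z5,[y4,z2,z15]),(z5,[y4,z2,z0,z15]),
    (z20,[z2,y1,z0,z0,z15]),(z20,[y4,y13,y60,y60,y15,z60])],.ref k25 k0 [(z1,[y13,z4,z26]),(z1,[z8,y2,y13]),(z1,[z8,
    y2,y16,z3]),(z4,[y4,z1,z8,z0,z3]),(z4,[z8,y5,y28,y12,y3,z12])],.ref k25 k0 [(z1,[y13,z4,z13,z13]),(z1,[z8,y2,y5,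
    y8]),(z1,[z8,y2,y8,y5]),(z4,[y4,z1,z4,z4,z3]),(z4,[z8,y5,y20,y20,y3,z12])],.ref k25 k0 [(z8,[z52,y7,y52,z0,y13]),
    (z1,[y4,z1,z7,z0,z1]),(z1,[y4,z1,z4,z3,z1]),(z8,[z4,y1,y4,z0,z5]),(z2,[y2,y1,y4,y6,y1,z6])],.ref k25 k0 [(z4,[z52,
    z3,z0,z52,z13,y52]),(z1,[y8,z0,z3,y8,y2,z8]),(z1,[y8,z0,z0,y5,y2,z8]),(z1,[z1,z0,z0,z1,z1,y1]),(z4,[y8,y3,y12,y20,
    y5,z20])],.ref k25 k0 [(z3,[z13,y1,y13]),(z3,[y8,z2,z17]),(z3,[y8,z2,z8,z9]),(z12,[z4,y1,y4,z0,z9]),(z12,[y8,y7,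
    y28,y36,y9,z36])],.ref k25 k0 [(z4,[z52,z3,z52,z0,z13,y52]),(z1,[y8,z0,y5,z0,y2,z8]),(z1,[y8,z0,y8,z3,y2,z8]),(z1,
    [z1,z0,z1,z0,z1,y1]),(z4,[y8,y3,y20,y12,y5,z20])],.ref k25 k0 [(z4,[z13,z3,z13,z13,z0,y13]),(z1,[y2,z0,z1,y2,z0,
    z2]),(z1,[y2,z0,y2,z1,z0,z2]),(z4,[z1,z0,z1,z1,z3,y1]),(z4,[y2,y3,y14,y14,y3,z14])],.ref k25 k0 [(z24,[z52,z5,z0,
    z0,y13]),(z3,[y4,z1,z9,z0,z1]),(z3,[y4,z1,z0,z9,z1]),(z24,[z4,y1,z0,z0,z17]),(z3,[y1,y2,y9,y9,y2,z9])],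
    .ref k25 k0 [(z6,[z26,z11,z52,z52,z13,y52]),(z3,[y8,y2,y7,y16,y4,z16]),(z3,[y8,y2,y16,y7,y4,z16]),(z12,[z4,z1,z8,
    z8,z11,y8]),(z12,[y8,y11,y52,y52,y13,z52])],.ref k25 k0 [(z20,[z52,z15,z52,z52,z13,y52]),(z5,[y8,z0,z7,y8,y2,z8]),
    (z5,[y8,z0,y8,z7,y2,z8]),(z5,[z1,z0,z1,z1,z4,y1]),(z20,[y8,y15,y68,y68,y17,z68])],.ref k25 k0 [(z8,[y13,z6,z39]),
    (z1,[z1]),(z1,[z1,z0,y3,z3]),(z8,[y1,z0,z3,z0,z6]),(z4,[z1,y3,y15,y12,y3,z12])],.ref k25 k0 [(z8,[y13,z6,z26,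
    z13]),(z1,[z1,z0,z1,y1]),(z1,[z1,z0,y2,z2]),(z8,[y1,z0,z2,z1,z6]),(z4,[z1,y3,y14,y13,y3,z12])],.ref k25 k0 [(z20,
    [y52,z15,(Int.ofNat (nat_lit 104)),z0,z13]),(z5,[z8,z0,y1,z0,y2]),(z5,[z8,z0,y16,z15,y2]),(z5,[y1,z0,z2,z0,z4]),
    (z20,[z8,y15,y76,y60,y17,z60])],.ref k25 k0 [(z24,[y52,z5,z52,y52,y13,z52]),(z3,[z4,z1,z5,z4,z1,y4]),(z3,[z4,z1,
    y4,z13,z1,y4]),(z24,[y4,y1,z4,y4,z17,z4]),(z3,[z1,y2,y10,y8,y2,z8])],.ref k25 k0 [(z4,[y13,z3,z26]),(z1,[z2,z0,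
    y1]),(z1,[z2,z0,y4,z3]),(z4,[y1,z0,z2,z0,z3]),(z4,[z2,y3,y16,y12,y3,z12])],.ref k25 k0 [(z4,[y26,z3,z26,z0,z13]),
    (z1,[z4,z0,y1,z0,y2]),(z1,[z4,z0,y4,z3,y2]),(z2,[y1,z0,z1,z0,z2]),(z4,[z4,y3,y16,y12,y5,z12])],.ref k25 k0 [(z3,
    [y13,y1,z0,y13,z0,z13]),(z3,[z8,z2,z9,z8,z0,y8]),(z3,[z8,z2,z0,z17,z0,y8]),(z12,[y4,y1,z0,y4,z9,z4]),(z12,[z8,y7,
    y36,y28,y9,z28])],.ref k25 k0 [(z4,[y52,z3,z52,z0,z13]),(z1,[z8,z0,y5,z0,y2]),(z1,[z8,z0,y8,z3,y2]),(z1,[y1,z0,z1,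
    z0,z1]),(z4,[z8,y3,y20,y12,y5,z12])],.ref k25 k0 [(z8,[y26,y7,y26,y52,y13,z52]),(z1,[z2,z1,z5,z4,z1,y4]),(z1,[z2,
    z1,z2,z7,z1,y4]),(z8,[y2,y1,y2,y4,z5,z4]),(z2,[z1,y1,y5,y4,y1,z4])],.ref k25 k0 [(z8,[y52,y7,z0,y52,y13,z52]),(z1,
    [z4,z1,z3,z4,z1,y4]),(z1,[z4,z1,z0,z7,z1,y4]),(z8,[y4,y1,z0,y4,z5,z4]),(z2,[z2,y1,y6,y4,y1,z4])],.ref k25 k0 [(z4,
    [y52,y23,(Int.negSucc (nat_lit 103)),(Int.negSucc (nat_lit 103)),y13,(Int.ofNat (nat_lit 104))]),(z1,[z8,z4,z19,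
    z16,z2,y16]),(z1,[z8,z4,z16,z19,z2,y16]),(z2,[y2,y1,y4,y4,z1,z4]),(z4,[z8,z1,z4,z4,y1,y4])],.ref k25 k0 [(z1,[z13,
    z4,z13,z13,z0,y13]),(z1,[y8,y2,y5,y8,z0,z8]),(z1,[y8,y2,y8,y5,z0,z8]),(z4,[z4,z1,z4,z4,z3,y4]),(z4,[y8,y5,y20,y20,
    y3,z20])],.ref k25 k0 [(z12,[z52,z9,z0,z0,y13]),(z3,[y8,z0,z9,z0,z2]),(z3,[y8,z0,z0,z9,z2]),(z3,[z1,z0,z0,z0,z2]),
    (z12,[y8,y9,y36,y36,y7,z36])]]]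

theorem hB6_171_2 : blkB [0, 0, 0, 0, 0, 0] [] sp6 hS6_171 (pcls (n := 6) [0, 0, 0, 0, 0, 0]) hD6_171 560 2 hN6_171_2 = true := by
  decide +kernel

/-- nodes 36 to 47 -/
noncomputable def hN6_171_3 : List HM :=
  [.base (.leafM k3 [k5,k0,k1,k2,k3,k4] [(z8,[z1,z0,z4,z1])] []),
    .base (.leafM k3 [k3,k4,k5,k0,k1,k2] [(z1,[z0,z0,y1,y1,z1])] []),
    .lp k0 [(nat_lit 236),(nat_lit 224),(nat_lit 254),(nat_lit 264),(nat_lit 264),k192] [k14,k14,k26,k14,k5,k5,k0,k0,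
    k0,k0,k30,k42] k0 [[k0,k0,k10,k0,k0,k10,k12,k0,k14,k0,k0,k40],[k0,k0,k0,k0,k0,k0,k2,k0,k0,k0,k0,k40],[k0,k0,k0,k4,
    k4,k0,k0,k0,k0,k0,k16,k12],[k0,k10,k0,k0,k0,k0,k12,k8,k0,k0,k0,k0],[k0,k10,k0,k0,k0,k0,k0,k0,k0,k2,k18,k0],[k0,k0,
    k0,k4,k4,k0,k0,k0,k0,k0,k16,k0],[k0,k0,k8,k0,k0,k0,k0,k0,k0,k0,k0,k0],[k2,k12,k12,k0,k0,k0,k0,k0,k0,k0,k10,k0],
    [k0,k0,k0,k0,k0,k2,k0,k0,k0,k0,k0,k0],[k0,k14,k0,k0,k0,k0,k0,k0,k0,k0,k0,k0],[k40,k40,k0,k12,k0,k0,k0,k0,k0,k0,k0,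
    k24],[k0,k0,k0,k16,k16,k18,k10,k0,k0,k0,k0,k0]] (nat_lit 720) k5
    [[(k2,(nat_lit 208)),(k11,(nat_lit 208)),(k10,(nat_lit 220)),(k4,(nat_lit 227)),(k7,(nat_lit 234)),(k9,
    (nat_lit 240)),(k6,(nat_lit 250)),(k8,(nat_lit 250)),(k5,(nat_lit 257)),(k1,(nat_lit 260)),(k0,(nat_lit 276)),(k3,
    (nat_lit 276))],[(k10,k180),(k11,k194),(k2,(nat_lit 224)),(k4,(nat_lit 235)),(k5,(nat_lit 235)),(k0,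
    (nat_lit 236)),(k3,(nat_lit 236)),(k9,(nat_lit 238)),(k7,(nat_lit 250)),(k8,(nat_lit 250)),(k6,(nat_lit 252)),(k1,
    (nat_lit 276))],[(k10,k180),(k11,(nat_lit 208)),(k2,(nat_lit 234)),(k0,(nat_lit 236)),(k3,(nat_lit 236)),(k4,
    (nat_lit 245)),(k5,(nat_lit 245)),(k9,(nat_lit 248)),(k7,(nat_lit 260)),(k6,(nat_lit 262)),(k8,(nat_lit 264)),(k1,
    (nat_lit 276))],[(k10,k196),(k11,k196),(k1,(nat_lit 208)),(k2,(nat_lit 208)),(k0,(nat_lit 224)),(k4,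
    (nat_lit 233)),(k5,(nat_lit 233)),(k3,(nat_lit 234)),(k7,(nat_lit 234)),(k8,(nat_lit 238)),(k9,(nat_lit 246)),(k6,
    (nat_lit 250))],[(k11,(nat_lit 217)),(k2,(nat_lit 233)),(k0,(nat_lit 235)),(k3,(nat_lit 245)),(k10,(nat_lit 245)),
    (k9,(nat_lit 247)),(k6,(nat_lit 251)),(k1,(nat_lit 257)),(k4,(nat_lit 258)),(k5,(nat_lit 258)),(k7,(nat_lit 259)),
    (k8,(nat_lit 259))],[(k11,(nat_lit 217)),(k1,(nat_lit 227)),(k2,(nat_lit 233)),(k0,(nat_lit 235)),(k3,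
    (nat_lit 245)),(k10,(nat_lit 245)),(k8,(nat_lit 257)),(k4,(nat_lit 258)),(k5,(nat_lit 258)),(k6,(nat_lit 259)),
    (k7,(nat_lit 259)),(k9,(nat_lit 259))],[(k11,(nat_lit 224)),(k1,(nat_lit 234)),(k2,(nat_lit 234)),(k0,
    (nat_lit 250)),(k10,(nat_lit 252)),(k4,(nat_lit 259)),(k5,(nat_lit 259)),(k3,(nat_lit 260)),(k7,(nat_lit 260)),
    (k6,(nat_lit 264)),(k8,(nat_lit 264)),(k9,(nat_lit 264))],[(k11,(nat_lit 222)),(k10,(nat_lit 244)),(k1,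
    (nat_lit 250)),(k2,(nat_lit 250)),(k5,(nat_lit 251)),(k0,(nat_lit 252)),(k4,(nat_lit 259)),(k3,(nat_lit 262)),(k6,
    (nat_lit 264)),(k7,(nat_lit 264)),(k8,(nat_lit 264)),(k9,(nat_lit 264))],[(k11,(nat_lit 222)),(k10,(nat_lit 234)),
    (k0,(nat_lit 238)),(k1,(nat_lit 240)),(k2,(nat_lit 246)),(k5,(nat_lit 247)),(k3,(nat_lit 248)),(k4,(nat_lit 259)),
    (k6,(nat_lit 264)),(k7,(nat_lit 264)),(k8,(nat_lit 264)),(k9,(nat_lit 264))],[(k11,(nat_lit 222)),(k10,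
    (nat_lit 234)),(k2,(nat_lit 238)),(k0,(nat_lit 250)),(k1,(nat_lit 250)),(k4,(nat_lit 257)),(k5,(nat_lit 259)),(k3,
    (nat_lit 264)),(k6,(nat_lit 264)),(k7,(nat_lit 264)),(k8,(nat_lit 264)),(k9,(nat_lit 264))],[(k11,k180),(k10,
    k192),(k0,k194),(k2,k196),(k1,(nat_lit 208)),(k3,(nat_lit 208)),(k4,(nat_lit 217)),(k5,(nat_lit 217)),(k6,
    (nat_lit 222)),(k8,(nat_lit 222)),(k9,(nat_lit 222)),(k7,(nat_lit 224))],[(k0,k180),(k3,k180),(k10,k180),(k11,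
    k192),(k2,k196),(k1,(nat_lit 220)),(k8,(nat_lit 234)),(k9,(nat_lit 234)),(k6,(nat_lit 244)),(k4,(nat_lit 245)),
    (k5,(nat_lit 245)),(k7,(nat_lit 252))]]
    [[k2,k0,k0,k0,k0,k1],[k1,k2,k0,k0,k0,k0],[k1,k1,k1,k0,k0,k0],[k1,k1,k0,k0,k1,k0],[k1,k1,k0,k0,k0,k1],[k1,k0,k1,k0,
    k0,k1],[k1,k0,k0,k1,k0,k1],[k1,k0,k0,k0,k1,k1],[k1,k0,k0,k0,k0,k2],[k0,k3,k0,k0,k0,k0],[k0,k2,k1,k0,k0,k0],[k0,k2,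
    k0,k0,k0,k1],[k0,k1,k1,k0,k0,k1],[k0,k1,k0,k1,k0,k1],[k0,k1,k0,k0,k1,k1],[k0,k1,k0,k0,k0,k2],[k0,k0,k1,k0,k1,k1],
    [k0,k0,k1,k0,k0,k2],[k0,k0,k0,k1,k0,k2],[k0,k0,k0,k0,k1,k2],[k0,k0,k0,k0,k0,k3]]
    [.ref k25 k0 [(z3,[y1,z1]),(z33,[z88,y16,z9]),(z33,[y44,z8,z0,z9]),(z33,[z22,y4,z0,z0,z9]),(z33,
    [(Int.negSucc (nat_lit 175)),z23,y9,y9,y9,z99])],.ref k25 k0 [(z55,[y11,z16,z2]),(z55,[z88,y8,y1]),(z55,[y44,z4,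
    z8,z15]),(z55,[z22,y2,y4,z0,z15]),(z55,[(Int.negSucc (nat_lit 175)),z1,z17,y15,y15,(Int.ofNat (nat_lit 165))])],
    .ref k25 k0 [(z11,[y11,z4,z1,z1]),(z11,[z88,y8,y5,y8]),(z11,[y44,z4,z4,z7]),(z11,[z22,y2,y2,y2,z3]),(z11,
    [(Int.negSucc (nat_lit 175)),z13,z13,z13,y3,z33])],.ref k25 k0 [(z33,[z11,z9,z0,z1,z1,y11]),(z33,[y88,z0,z9,y8,y8,
    z88]),(z33,[z44,z0,z0,z13,z4,y44]),(z33,[y22,z0,z0,y2,z7,z22]),(z33,[(Int.ofNat (nat_lit 176)),y9,y9,z7,z7,y77])],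
    .ref k25 k0 [(z66,[y11,z19,z1]),(z33,[z44,y4,z5]),(z33,[y22,z2,z2,z9]),(z33,[z11,y1,y1,z0,z9]),(z33,[y88,y1,y1,y9,
    y9,z99])],.ref k25 k0 [(z22,[y11,z7,z0,z1]),(z11,[z44,y4,z3,y4]),(z11,[y22,z2,z0,z5]),(z11,[z11,y1,z0,y1,z3]),
    (z11,[y88,z5,y3,z5,y3,z33])],.ref k25 k0 [(z44,[y11,z13,z0,z0,z1]),(z11,[z22,y2,z3,z0,y2]),(z11,[y11,z1,z0,z3,
    z1]),(z22,[z11,y1,z0,z0,z5]),(z11,[y44,z1,y3,y3,z1,z33])],.ref k25 k0 [(z22,[z11,z6,z1,z1,z1,y11]),(z11,[y44,z0,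
    y1,y4,y4,z44]),(z11,[z22,z0,z2,z5,z2,y22]),(z11,[y11,z0,y1,y1,z2,z11]),(z11,[z88,y3,z5,z5,z5,y55])],
    .ref k25 k0 [(z7,[y1,z2]),(z77,[z88,y8,z21]),(z77,[y44,z4,z0,z21]),(z77,[z22,y2,z0,z0,z21]),(z77,
    [(Int.negSucc (nat_lit 175)),y5,y21,y21,y21,(Int.ofNat (nat_lit 231))])],.ref k25 k0 [(z88,[y11,z24,z3]),(z1,
    [z1]),(z22,[y11,z0,z3,z6]),(z44,[z11,z0,y3,z0,z12]),(z11,[y22,y3,z3,y3,y3,z33])],.ref k25 k0 [(z44,[y11,z12,z2,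
    z1]),(z11,[z22,z0,y1,y2]),(z11,[y11,z0,z2,z4]),(z22,[z11,z0,y2,y1,z6]),(z11,[y44,y3,z5,z1,y3,z33])],
    .ref k25 k0 [(z99,[y11,z27,z2]),(z9,[z8,z0,z1]),(z99,[y44,z0,z8,z27]),(z99,[z22,z0,y4,z0,z27]),(z99,
    [(Int.negSucc (nat_lit 175)),y27,z5,y27,y27,(Int.ofNat (nat_lit 297))])],.ref k25 k0 [(z55,[y11,z15,z1,z1]),(z55,
    [z88,z0,z7,y8]),(z55,[y44,z0,z4,z19]),(z55,[z22,z0,y2,y2,z15]),(z55,[(Int.negSucc (nat_lit 175)),y15,z1,z1,y15,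
    (Int.ofNat (nat_lit 165))])],.ref k25 k0 [(z77,[y11,z21,z1,z0,z1]),(z77,[z88,z0,z13,z0,y8]),(z77,[y44,z0,z4,z21,
    z4]),(z77,[z22,z0,y2,z0,z19]),(z77,[(Int.negSucc (nat_lit 175)),y21,y5,y21,y5,(Int.ofNat (nat_lit 231))])],
    .ref k25 k0 [(z11,[y11,z2,z0,y1,y1,z11]),(z11,[z88,z8,z3,z8,z8,y88]),(z11,[y44,y4,z0,y1,y4,z44]),(z11,[z22,z2,z0,
    z2,z5,y22]),(z11,[(Int.negSucc (nat_lit 175)),y19,y3,y19,y19,(Int.ofNat (nat_lit 209))])],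
    .ref k25 k0 [((Int.ofNat (nat_lit 110)),[y11,z30,z1]),(z5,[z4,z0,z1]),(z55,[y22,z0,z2,z15]),(z55,[z11,z0,y1,z0,
    z15]),(z55,[y88,y15,y7,y15,y15,(Int.ofNat (nat_lit 165))])],.ref k25 k0 [(z33,[z11,z10,z1,z0,z1,y11]),(z33,[y88,
    y8,z1,z0,y8,z88]),(z33,[z44,z4,z4,z9,z4,y44]),(z33,[y22,y2,y2,z0,z7,z22]),(z33,[(Int.ofNat (nat_lit 176)),z7,z7,
    y9,z7,y77])],.ref k25 k0 [(z66,[y11,z18,z0,z1]),(z33,[z44,z0,z9,y4]),(z3,[y2,z0,z0,z1]),(z33,[z11,z0,z0,y1,z9]),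
    (z33,[y88,y9,y9,y1,y9,z99])],.ref k25 k0 [(z88,[y11,z24,z0,z0,z1]),(z11,[z11,z0,z3,z0,y1]),(z22,[y11,z0,z0,z6,
    z1]),(z4,[z1,z0,z0,z0,z1]),(z11,[y22,y3,y3,y3,y1,z33])],.ref k25 k0 [(z22,[y11,z5,y1,y1,y1,z11]),(z11,[z44,z4,z7,
    z4,z4,y44]),(z11,[y22,y2,y2,z1,y2,z22]),(z11,[z11,z1,z1,z1,z4,y11]),(z1,[y8,y1,y1,y1,y1,z11])],.ref k25 k0 [(z11,
    [y1,z3]),(z11,[z8,z0,z3]),(z11,[y4,z0,z0,z3]),(z11,[z2,z0,z0,z0,z3]),(z11,[y16,y3,y3,y3,y3,z33])]],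
    .lp k0 [(nat_lit 464),(nat_lit 470),(nat_lit 500),(nat_lit 506),(nat_lit 506),(nat_lit 428)] [k21,k21,k18,k18,k3,
    k3,k0,k0,k0,k0,k39,k39] k0 [[k0,k0,k0,k0,k0,k6,k12,k0,k24,k0,k0,k36],[k18,k0,k0,k0,k0,k0,k6,k0,k18,k0,k0,k54],[k0,
    k0,k0,k0,k0,k0,k0,k0,k0,k0,k12,k0],[k0,k0,k0,k0,k18,k0,k12,k12,k0,k0,k0,k0],[k0,k6,k0,k0,k0,k0,k0,k0,k0,k0,k0,k0],
    [k0,k0,k18,k0,k0,k0,k0,k0,k0,k0,k12,k0],[k0,k0,k12,k0,k0,k0,k0,k0,k0,k0,k0,k0],[k6,k12,k12,k0,k0,k0,k0,k0,k0,k0,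
    k0,k0],[k0,k0,k0,k0,k0,k0,k0,k0,k0,k0,k0,k0],[k18,k24,k0,k0,k0,k0,k0,k0,k0,k0,k0,k6],[k54,k36,k0,k0,k0,k0,k0,k0,
    k6,k0,k0,k42],[k0,k0,k0,k12,k12,k0,k0,k0,k0,k0,k0,k0]] (nat_lit 1440) k5
    [[(k10,(nat_lit 446)),(k11,(nat_lit 446)),(k2,(nat_lit 455)),(k7,(nat_lit 473)),(k4,(nat_lit 482)),(k5,
    (nat_lit 482)),(k6,(nat_lit 485)),(k9,(nat_lit 485)),(k8,(nat_lit 491)),(k3,(nat_lit 503)),(k1,(nat_lit 506)),(k0,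
    (nat_lit 518))],[(k10,(nat_lit 410)),(k11,(nat_lit 422)),(k2,(nat_lit 467)),(k3,(nat_lit 467)),(k9,(nat_lit 473)),
    (k4,(nat_lit 476)),(k0,(nat_lit 482)),(k5,(nat_lit 482)),(k7,(nat_lit 485)),(k6,(nat_lit 491)),(k8,(nat_lit 503)),
    (k1,(nat_lit 518))],[(k10,(nat_lit 395)),(k11,(nat_lit 431)),(k3,(nat_lit 452)),(k0,(nat_lit 467)),(k2,
    (nat_lit 470)),(k9,(nat_lit 482)),(k4,(nat_lit 485)),(k5,(nat_lit 485)),(k7,(nat_lit 494)),(k6,(nat_lit 500)),(k1,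
    (nat_lit 503)),(k8,(nat_lit 512))],[(k10,(nat_lit 449)),(k11,(nat_lit 449)),(k1,(nat_lit 455)),(k0,(nat_lit 467)),
    (k2,(nat_lit 470)),(k3,(nat_lit 470)),(k5,(nat_lit 485)),(k7,(nat_lit 488)),(k8,(nat_lit 488)),(k6,(nat_lit 500)),
    (k9,(nat_lit 500)),(k4,(nat_lit 503))],[(k11,(nat_lit 464)),(k10,(nat_lit 476)),(k0,(nat_lit 482)),(k1,
    (nat_lit 482)),(k2,(nat_lit 485)),(k3,(nat_lit 485)),(k7,(nat_lit 485)),(k6,(nat_lit 491)),(k9,(nat_lit 491)),(k4,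
    (nat_lit 500)),(k5,(nat_lit 500)),(k8,(nat_lit 503))],[(k11,(nat_lit 464)),(k0,(nat_lit 476)),(k10,(nat_lit 476)),
    (k1,(nat_lit 482)),(k3,(nat_lit 485)),(k4,(nat_lit 500)),(k5,(nat_lit 500)),(k2,(nat_lit 503)),(k6,(nat_lit 503)),
    (k7,(nat_lit 503)),(k8,(nat_lit 503)),(k9,(nat_lit 503))],[(k10,(nat_lit 467)),(k11,(nat_lit 467)),(k1,
    (nat_lit 473)),(k0,(nat_lit 485)),(k5,(nat_lit 485)),(k2,(nat_lit 488)),(k3,(nat_lit 494)),(k4,(nat_lit 503)),(k6,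
    (nat_lit 506)),(k7,(nat_lit 506)),(k8,(nat_lit 506)),(k9,(nat_lit 506))],[(k10,(nat_lit 467)),(k11,(nat_lit 467)),
    (k1,(nat_lit 485)),(k0,(nat_lit 491)),(k5,(nat_lit 491)),(k2,(nat_lit 500)),(k3,(nat_lit 500)),(k4,(nat_lit 503)),
    (k6,(nat_lit 506)),(k7,(nat_lit 506)),(k8,(nat_lit 506)),(k9,(nat_lit 506))],[(k10,(nat_lit 467)),(k11,
    (nat_lit 467)),(k0,(nat_lit 473)),(k3,(nat_lit 482)),(k1,(nat_lit 485)),(k5,(nat_lit 491)),(k2,(nat_lit 500)),(k4,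
    (nat_lit 503)),(k6,(nat_lit 506)),(k7,(nat_lit 506)),(k8,(nat_lit 506)),(k9,(nat_lit 506))],[(k10,(nat_lit 467)),
    (k11,(nat_lit 467)),(k2,(nat_lit 488)),(k1,(nat_lit 491)),(k0,(nat_lit 503)),(k4,(nat_lit 503)),(k5,
    (nat_lit 503)),(k6,(nat_lit 506)),(k7,(nat_lit 506)),(k8,(nat_lit 506)),(k9,(nat_lit 506)),(k3,(nat_lit 512))],
    [(k0,(nat_lit 422)),(k10,(nat_lit 422)),(k11,(nat_lit 428)),(k3,(nat_lit 431)),(k1,(nat_lit 446)),(k2,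
    (nat_lit 449)),(k4,(nat_lit 464)),(k5,(nat_lit 464)),(k6,(nat_lit 467)),(k7,(nat_lit 467)),(k8,(nat_lit 467)),(k9,
    (nat_lit 467))],[(k10,(nat_lit 386)),(k3,(nat_lit 395)),(k0,(nat_lit 410)),(k11,(nat_lit 422)),(k1,(nat_lit 446)),
    (k2,(nat_lit 449)),(k6,(nat_lit 467)),(k7,(nat_lit 467)),(k8,(nat_lit 467)),(k9,(nat_lit 467)),(k4,(nat_lit 476)),
    (k5,(nat_lit 476))]]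
    [[k2,k0,k0,k0,k0,k1],[k1,k2,k0,k0,k0,k0],[k1,k1,k1,k0,k0,k0],[k1,k1,k0,k0,k0,k1],[k1,k0,k1,k0,k0,k1],[k1,k0,k0,k1,
    k0,k1],[k1,k0,k0,k0,k1,k1],[k1,k0,k0,k0,k0,k2],[k0,k3,k0,k0,k0,k0],[k0,k2,k0,k0,k0,k1],[k0,k1,k1,k0,k0,k1],[k0,k1,
    k0,k1,k0,k1],[k0,k1,k0,k0,k1,k1],[k0,k1,k0,k0,k0,k2],[k0,k0,k1,k1,k0,k1],[k0,k0,k1,k0,k1,k1],[k0,k0,k1,k0,k0,k2],
    [k0,k0,k0,k1,k0,k2],[k0,k0,k0,k0,k1,k2],[k0,k0,k0,k0,k0,k3]]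
    [.ref k25 k0 [(z2,[y1,z1]),(z4,[z4,y1,z3]),(z2,[y4,z1,z0,z3]),(z1,[z4,y1,z0,z0,z3]),(z4,[y26,z5,y3,y6,y12,z12])],
    .ref k25 k0 [(z2,[y2,z1,z1]),(z4,[z8,y1,y1]),(z2,[y8,z1,z4,z3]),(z1,[z8,y1,y4,z0,z3]),(z4,[y52,z5,z23,y6,y12,
    z12])],.ref k25 k0 [(z4,[z4,z1,y1,y2]),(z4,[y8,z1,z5,z4]),(z2,[z8,y1,y2,y1]),(z1,[y8,z1,z2,z4,z3]),(z1,[z13,y2,y4,
    y8,y3,z3])],.ref k25 k0 [(z12,[y4,z5,z1]),(z12,[z8,y1,z7]),(z6,[y8,z1,z2,z9]),(z3,[z8,y1,y2,z0,z9]),(z6,[y26,z1,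
    z2,y9,y18,z18])],.ref k25 k0 [(z2,[y2,z1,z0,z1]),(z4,[z8,y1,z3,y4]),(z2,[y8,z1,z0,z7]),(z1,[z8,y1,z0,y4,z3]),(z4,
    [y52,z5,y3,z20,y12,z12])],.ref k25 k0 [(z5,[y1,z2,z0,z0,z1]),(z20,[z8,y1,z15,z0,y8]),(z10,[y8,z1,z0,z15,z8]),(z5,
    [z8,y1,z0,z0,z7]),(z20,[y52,y1,y15,y30,y8,z60])],.ref k25 k0 [(z8,[z4,z3,z1,z2,z4,y4]),(z2,[y2,z0,z1,y1,y2,z2]),
    (z2,[z4,z0,z1,z5,z4,y4]),(z1,[y4,z0,y1,y2,y1,z4]),(z8,[z52,y3,z7,z14,z28,y28])],.ref k25 k0 [(z5,[y1,z2]),(z20,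
    [z8,y1,z15]),(z10,[y8,z1,z0,z15]),(z5,[z8,y1,z0,z0,z15]),(z20,[y52,y1,y15,y30,y60,z60])],.ref k25 k0 [(z8,[y4,z3,
    z3]),(z1,[z1]),(z2,[y4,z0,z3,z3]),(z1,[z4,z0,y3,z0,z3]),(z8,[y52,y3,z33,y12,y24,z24])],.ref k25 k0 [(z8,[y2,z3,
    z1]),(z2,[z1,z0,z1]),(z2,[y2,z0,z1,z3]),(z1,[z2,z0,y1,z0,z3]),(z8,[y26,y3,z7,y12,y24,z24])],.ref k25 k0 [(z8,[y4,
    z3,z1,z2]),(z2,[z2,z0,z1,y1]),(z2,[y4,z0,z1,z5]),(z1,[z4,z0,y1,y2,z3]),(z8,[y52,y3,z7,z14,y24,z24])],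
    .ref k25 k0 [(z24,[y4,z9,z1,z0,z4]),(z3,[z1,z0,z2,z0,y1]),(z6,[y4,z0,z1,z9,z4]),(z3,[z4,z0,y1,z0,z5]),(z24,[y52,
    y9,y5,y36,y20,z72])],.ref k25 k0 [(z2,[z2,z1,z0,z1,z2,y2]),(z4,[y8,y1,z3,y4,y8,z8]),(z2,[z8,z1,z0,z7,z8,y8]),(z1,
    [y8,y1,z0,y4,y5,z8]),(z4,[z52,z5,y3,z20,z40,y40])],.ref k25 k0 [(z24,[y4,z9,z1]),(z3,[z1,z0,z2]),(z6,[y4,z0,z1,
    z9]),(z3,[z4,z0,y1,z0,z9]),(z24,[y52,y9,y5,y36,y72,z72])],.ref k25 k0 [(z8,[y2,z3,z0,z1,z2]),(z4,[z2,z0,z3,y1,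
    y2]),(z1,[y1,z0,z0,z2,z1]),(z1,[z2,z0,z0,y1,z1]),(z8,[y26,y3,y6,z1,z2,z24])],.ref k25 k0 [(z12,[z4,z5,z1,z0,z4,
    y4]),(z12,[y8,y1,z7,z0,y8,z8]),(z6,[z8,z1,z2,z9,z8,y8]),(z3,[y8,y1,y2,z0,z1,z8]),(z6,[z26,z1,z2,y9,z8,y8])],
    .ref k25 k0 [(z8,[y2,z3,z0,z1]),(z4,[z2,z0,z3,y1]),(z1,[y1,z0,z0,z2]),(z1,[z2,z0,z0,y1,z3]),(z8,[y26,y3,y6,z1,y24,
    z24])],.ref k25 k0 [(z8,[y1,z3,z0,z0,z1]),(z4,[z1,z0,z3,z0,y1]),(z2,[y1,z0,z0,z3,z1]),(z1,[z1,z0,z0,z0,z2]),(z8,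
    [y13,y3,y6,y12,y11,z24])],.ref k25 k0 [(z4,[y4,z1,y1,y2,y4,z4]),(z4,[z8,z1,z5,z4,z8,y8]),(z2,[y8,y1,y2,y1,y8,z8]),
    (z1,[z8,z1,z2,z4,z11,y8]),(z1,[y13,y2,y4,y8,y16,z16])],.ref k25 k0 [(z8,[y1,z3]),(z4,[z1,z0,z3]),(z2,[y1,z0,z0,
    z3]),(z1,[z1,z0,z0,z0,z3]),(z8,[y13,y3,y6,y12,y24,z24])]],
    .lp k0 [(nat_lit 474),(nat_lit 472),(nat_lit 486),(nat_lit 490),(nat_lit 486),(nat_lit 466)] [k8,k8,k9,k9,k2,k2,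
    k0,k0,k2,k2,k12,k12] k0 [[k0,k0,k0,k0,k6,k6,k16,k0,k0,k0,k0,k2],[k78,k0,k0,k0,k0,k0,k4,k0,k0,k0,k0,k92],[k0,k0,k0,
    k0,k0,k0,k0,k0,k0,k2,k6,k4],[k0,k0,k0,k0,k4,k4,k8,k0,k0,k0,k0,k0],[k0,k6,k4,k0,k0,k0,k0,k0,k0,k0,k0,k0],[k0,k6,k4,
    k0,k0,k0,k0,k0,k0,k0,k4,k0],[k0,k0,k0,k0,k0,k0,k0,k2,k2,k2,k0,k0],[k4,k16,k8,k0,k0,k0,k0,k0,k0,k0,k2,k0],[k0,k0,
    k0,k2,k0,k0,k0,k2,k0,k0,k70,k0],[k0,k0,k0,k0,k0,k0,k0,k2,k0,k0,k0,k0],[k92,k2,k0,k4,k0,k0,k0,k0,k0,k0,k0,k28],[k0,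
    k0,k0,k6,k4,k0,k2,k0,k0,k70,k0,k0]] (nat_lit 1440) k5
    [[(k8,(nat_lit 410)),(k2,(nat_lit 467)),(k10,(nat_lit 470)),(k11,(nat_lit 470)),(k3,(nat_lit 475)),(k7,
    (nat_lit 478)),(k9,(nat_lit 478)),(k4,(nat_lit 480)),(k6,(nat_lit 482)),(k5,(nat_lit 484)),(k1,(nat_lit 502)),(k0,
    (nat_lit 566))],[(k9,(nat_lit 464)),(k10,(nat_lit 468)),(k11,(nat_lit 470)),(k2,(nat_lit 473)),(k3,(nat_lit 473)),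
    (k4,(nat_lit 474)),(k7,(nat_lit 476)),(k5,(nat_lit 480)),(k8,(nat_lit 480)),(k6,(nat_lit 486)),(k0,(nat_lit 552)),
    (k1,(nat_lit 566))],[(k10,(nat_lit 377)),(k3,(nat_lit 394)),(k11,(nat_lit 469)),(k2,(nat_lit 472)),(k0,
    (nat_lit 473)),(k1,(nat_lit 475)),(k9,(nat_lit 475)),(k5,(nat_lit 479)),(k8,(nat_lit 479)),(k4,(nat_lit 485)),(k7,
    (nat_lit 487)),(k6,(nat_lit 497))],[(k10,(nat_lit 465)),(k1,(nat_lit 467)),(k11,(nat_lit 469)),(k2,(nat_lit 472)),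
    (k3,(nat_lit 472)),(k0,(nat_lit 473)),(k8,(nat_lit 477)),(k5,(nat_lit 479)),(k9,(nat_lit 479)),(k4,(nat_lit 483)),
    (k7,(nat_lit 485)),(k6,(nat_lit 489))],[(k9,(nat_lit 478)),(k11,(nat_lit 478)),(k2,(nat_lit 479)),(k3,
    (nat_lit 479)),(k0,(nat_lit 480)),(k4,(nat_lit 482)),(k10,(nat_lit 482)),(k1,(nat_lit 484)),(k7,(nat_lit 484)),
    (k5,(nat_lit 486)),(k8,(nat_lit 486)),(k6,(nat_lit 488))],[(k0,(nat_lit 474)),(k11,(nat_lit 476)),(k1,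
    (nat_lit 480)),(k10,(nat_lit 480)),(k5,(nat_lit 482)),(k2,(nat_lit 483)),(k3,(nat_lit 485)),(k4,(nat_lit 486)),
    (k8,(nat_lit 486)),(k9,(nat_lit 486)),(k6,(nat_lit 488)),(k7,(nat_lit 488))],[(k0,(nat_lit 476)),(k1,
    (nat_lit 478)),(k10,(nat_lit 478)),(k11,(nat_lit 478)),(k5,(nat_lit 484)),(k2,(nat_lit 485)),(k3,(nat_lit 487)),
    (k4,(nat_lit 488)),(k8,(nat_lit 488)),(k9,(nat_lit 488)),(k6,(nat_lit 490)),(k7,(nat_lit 490))],[(k11,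
    (nat_lit 476)),(k10,(nat_lit 480)),(k1,(nat_lit 482)),(k0,(nat_lit 486)),(k8,(nat_lit 486)),(k4,(nat_lit 488)),
    (k5,(nat_lit 488)),(k6,(nat_lit 488)),(k9,(nat_lit 488)),(k2,(nat_lit 489)),(k7,(nat_lit 490)),(k3,
    (nat_lit 497))],[(k0,(nat_lit 464)),(k3,(nat_lit 475)),(k10,(nat_lit 476)),(k1,(nat_lit 478)),(k5,(nat_lit 478)),
    (k11,(nat_lit 478)),(k2,(nat_lit 479)),(k4,(nat_lit 486)),(k6,(nat_lit 488)),(k7,(nat_lit 488)),(k8,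
    (nat_lit 488)),(k9,(nat_lit 488))],[(k1,(nat_lit 410)),(k10,(nat_lit 476)),(k11,(nat_lit 476)),(k2,(nat_lit 477)),
    (k3,(nat_lit 479)),(k0,(nat_lit 480)),(k4,(nat_lit 486)),(k5,(nat_lit 486)),(k6,(nat_lit 486)),(k8,(nat_lit 486)),
    (k7,(nat_lit 488)),(k9,(nat_lit 488))],[(k11,(nat_lit 466)),(k2,(nat_lit 469)),(k3,(nat_lit 469)),(k0,
    (nat_lit 470)),(k1,(nat_lit 470)),(k4,(nat_lit 476)),(k6,(nat_lit 476)),(k8,(nat_lit 476)),(k5,(nat_lit 478)),(k7,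
    (nat_lit 478)),(k9,(nat_lit 478)),(k10,(nat_lit 536))],[(k3,(nat_lit 377)),(k10,(nat_lit 438)),(k2,(nat_lit 465)),
    (k0,(nat_lit 468)),(k1,(nat_lit 470)),(k8,(nat_lit 476)),(k9,(nat_lit 476)),(k7,(nat_lit 478)),(k4,(nat_lit 480)),
    (k6,(nat_lit 480)),(k5,(nat_lit 482)),(k11,(nat_lit 536))]]
    [[k1,k2,k0,k0,k0,k0],[k1,k1,k1,k0,k0,k0],[k1,k1,k0,k0,k1,k0],[k1,k1,k0,k0,k0,k1],[k1,k0,k1,k0,k1,k0],[k1,k0,k1,k0,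
    k0,k1],[k1,k0,k0,k1,k1,k0],[k1,k0,k0,k1,k0,k1],[k1,k0,k0,k0,k2,k0],[k1,k0,k0,k0,k1,k1],[k1,k0,k0,k0,k0,k2],[k0,k3,
    k0,k0,k0,k0],[k0,k2,k1,k0,k0,k0],[k0,k2,k0,k0,k1,k0],[k0,k2,k0,k0,k0,k1],[k0,k2,k0,k1,k0,k0],[k0,k1,k1,k0,k0,k1],
    [k0,k1,k0,k1,k0,k1],[k0,k1,k0,k0,k1,k1],[k0,k1,k0,k0,k0,k2],[k0,k0,k1,k0,k1,k1],[k0,k0,k1,k0,k0,k2],[k0,k0,k0,k1,
    k0,k2],[k0,k0,k0,k0,k1,k2]]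
    [.ref k25 k0 [(z11,[y15,z4,z30]),(z11,[z24,y2,y15]),(z44,[y12,z1,z24,z33]),(z22,[z12,y1,y24,z0,z33]),(z11,[y12,z1,
    z24])],.ref k25 k0 [(z8,[y60,z7,z60,z15]),(z1,[z12,y1,y9,y3]),(z8,[y12,z1,z12,z9]),(z4,[z12,y1,y12,y3,z6]),(z2,
    [y12,z1,z12,z3])],.ref k25 k0 [(z1,[z15,y1,y15]),(z1,[y24,z2,z27]),(z4,[z12,y1,y12,z3]),(z2,[y12,z1,z12,z0,z3]),
    (z1,[z12,y1,y12])],.ref k25 k0 [(z4,[y20,z1,z0,y5,y10,z20]),(z1,[z8,z0,z3,z2,z4,y8]),(z2,[y2,z0,z0,z1,y1,z2]),(z2,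
    [z4,z0,z0,z1,z5,y4]),(z1,[y4,z0,z0,y1,y2,z4])],.ref k25 k0 [(z8,[z12,z1,z0,y3]),(z5,[y12,z1,z15,z3]),(z40,[z12,y1,
    z0,z27]),(z20,[y12,z1,z0,z3,z30]),(z10,[z12,y1,z0,y3])],.ref k25 k0 [(z4,[z10,z1,z10,z0,z5,y10]),(z1,[y4,z0,y1,z0,
    y2,z4]),(z4,[z2,z0,z2,z3,z1,y2]),(z1,[y1,z0,y1,z0,z1,z1]),(z1,[z2,z0,z2,z0,z1,y2])],.ref k25 k0 [(z14,[z30,z1,z0,
    z0,y15]),(z7,[y24,z2,z21,z0,z12]),(z28,[z12,y1,z0,z21,y6]),(z14,[y12,z1,z0,z0,z27]),(z7,[z12,y1,z0,z0,y6])],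
    .ref k25 k0 [(z4,[z20,z1,z20,z5,z0,y20]),(z1,[y8,z0,y5,y2,z0,z8]),(z1,[z1,z0,z1,z1,z0,y1]),(z2,[y4,z0,y4,y1,z3,
    z4]),(z1,[z4,z0,z4,z1,z0,y4])],.ref k25 k0 [(z13,[z15,z2]),(z13,[y24,z2,z39]),(z52,[z12,y1,z0,z39]),(z26,[y12,z1,
    z0,z0,z39]),(z13,[z12,y1])],.ref k25 k0 [(z12,[z20,z3,z20,z5,z10,y20]),(z3,[y8,z0,z1,y2,y4,z8]),(z6,[z2,z0,z2,z5,
    z1,y2]),(z6,[y4,z0,y4,y1,z7,z4]),(z3,[z4,z0,z4,z1,z2,y4])],.ref k25 k0 [(z2,[z6,z1,z12,z3,z6,y12]),(z5,[y24,y2,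
    y33,y12,y24,z48]),(z20,[z12,z1,z24,z21,z12,y24]),(z10,[y12,y1,y24,y6,z3,z24]),(z5,[z12,z1,z24,z6,z12,y24])],
    .ref k25 k0 [(z8,[y5,z2,z15]),(z1,[z1]),(z8,[y1,z0,z3,z6]),(z4,[z1,z0,y3,z0,z6]),(z2,[y1,z0,z3])],
    .ref k25 k0 [(z4,[y4,z1,z8,z1]),(z5,[z8,z0,y1,y2]),(z5,[y1,z0,z2,z4]),(z10,[z4,z0,y8,y1,z15]),(z5,[y4,z0,z8,z1])],
    .ref k25 k0 [(z4,[y5,z1,z10]),(z1,[z2,z0,y1]),(z4,[y1,z0,z2,z3]),(z2,[z1,z0,y2,z0,z3]),(z1,[y1,z0,z2])],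
    .ref k25 k0 [(z64,[y60,z11,z60,y15,y30,z60]),(z8,[z12,z1,z12,z3,z6,y12]),(z64,[y12,y1,z12,z45,y6,z12]),(z32,[z12,
    z1,y12,z3,z54,y12]),(z16,[y12,y1,z12,y3,y6,z12])],.ref k25 k0 [(z12,[y10,z3,z20,z0,z5]),(z3,[z4,z0,z1,z0,y2]),
    (z12,[y2,z0,z4,z9,z1]),(z3,[z1,z0,y2,z0,z4]),(z3,[y2,z0,z4,z0,z1])],.ref k25 k0 [(z14,[y30,z1,z0,z0,y15,z30]),(z7,
    [z24,z2,z21,z0,z12,y24]),(z28,[y12,y1,z0,z21,y6,z12]),(z14,[z12,z1,z0,z0,z27,y12]),(z7,[y12,y1,z0,z0,y6,z12])],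
    .ref k25 k0 [(z8,[y12,z1,z0,y3,z0,z12]),(z5,[z12,z1,z15,z3,z0,y12]),(z40,[y12,y1,z0,z27,z0,z12]),(z20,[z12,z1,z0,
    z3,z30,y12]),(z10,[y12,y1,z0,y3,z0,z12])],.ref k25 k0 [(z16,[y60,y1,z0,y15,y30,z60]),(z2,[z12,z1,z6,z3,z6,y12]),
    (z16,[y12,y1,z0,z9,y6,z12]),(z8,[z12,z1,z0,z3,z18,y12]),(z4,[y12,y1,z0,y3,y6,z12])],.ref k25 k0 [(z16,[y30,y1,y30,
    y15,y30,z60]),(z2,[z6,z1,z12,z3,z6,y12]),(z16,[y6,y1,y6,z9,y6,z12]),(z8,[z6,z1,z6,z3,z18,y12]),(z4,[y6,y1,y6,y3,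
    y6,z12])],.ref k25 k0 [(z2,[z6,z1,z6,z0,z3,y6]),(z5,[y24,y2,y9,z0,y12,z24]),(z20,[z12,z1,z12,z15,z6,y12]),(z10,
    [y12,y1,y12,z0,z9,z12]),(z5,[z12,z1,z12,z0,z6,y12])],.ref k25 k0 [(z4,[z60,z11,(Int.ofNat (nat_lit 120)),z15,z60,
    (Int.negSucc (nat_lit 119))]),(z1,[y24,y4,y45,y6,y24,z48]),(z2,[z6,z1,z12,z3,z6,y12]),(z2,[y12,y2,y24,y3,y9,z24]),
    (z1,[z12,z2,z24,z3,z12,y24])],.ref k25 k0 [(z4,[y30,y4,y60,y15,y15,z60]),(z1,[z12,z2,z27,z6,z6,y24]),(z4,[y6,y1,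
    y12,z0,y3,z12]),(z2,[z6,z1,z12,z3,z6,y12]),(z1,[y6,y1,y12,y3,y3,z12])],.ref k25 k0 [(z8,[z30,z7,z60,z15,z30,y60]),
    (z1,[y6,y1,y9,y3,y6,z12]),(z8,[z6,z1,z12,z9,z6,y12]),(z4,[y6,y1,y12,y3,z0,z12]),(z2,[z6,z1,z12,z3,z6,y12])]],
    .lp k0 [k154,k152,k170,k170,k162,k150] [k8,k8,k9,k9,k0,k0,k0,k0,k4,k4,k10,k10] k0 [[k0,k0,k0,k0,k0,k0,k4,k6,k12,
    k0,k0,k10],[k0,k0,k0,k2,k0,k8,k0,k0,k4,k0,k0,k18],[k2,k0,k0,k0,k0,k0,k0,k0,k4,k0,k0,k8],[k0,k0,k0,k0,k0,k0,k4,k4,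
    k10,k0,k0,k10],[k8,k0,k0,k0,k0,k0,k0,k2,k0,k8,k6,k0],[k0,k0,k0,k0,k10,k0,k0,k0,k0,k0,k0,k0],[k0,k6,k4,k0,k0,k2,k0,
    k0,k0,k0,k0,k0],[k0,k4,k4,k0,k0,k0,k0,k0,k0,k2,k0,k4],[k0,k0,k0,k0,k0,k8,k2,k0,k0,k4,k2,k0],[k4,k12,k10,k4,k0,k0,
    k0,k0,k0,k0,k0,k0],[k18,k10,k10,k8,k0,k0,k4,k0,k0,k0,k0,k0],[k0,k0,k0,k0,k0,k6,k0,k0,k0,k2,k0,
    k0]] (nat_lit 480) k5
    [[(k10,k152),(k11,k152),(k1,k154),(k4,k156),(k8,k156),(k9,k158),(k7,k162),(k2,k163),(k3,k163),(k6,k166),(k5,k170),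
    (k0,k172)],[(k11,k140),(k10,k142),(k2,k153),(k3,k153),(k0,k154),(k9,k154),(k6,k156),(k4,k162),(k8,k162),(k5,k164),
    (k7,k170),(k1,k172)],[(k10,k133),(k11,k147),(k2,k150),(k3,k152),(k0,k153),(k4,k153),(k5,k161),(k7,k161),(k1,k163),
    (k9,k163),(k6,k165),(k8,k169)],[(k10,k143),(k11,k147),(k3,k150),(k2,k152),(k0,k153),(k4,k161),(k5,k161),(k7,k161),
    (k9,k161),(k1,k163),(k6,k165),(k8,k167)],[(k10,k150),(k11,k150),(k2,k161),(k3,k161),(k9,k162),(k0,k164),(k6,k166),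
    (k1,k170),(k4,k170),(k5,k170),(k7,k170),(k8,k170)],[(k3,k153),(k1,k156),(k8,k158),(k10,k160),(k11,k160),(k2,k161),
    (k0,k162),(k9,k166),(k6,k168),(k5,k170),(k7,k170),(k4,k180)],[(k7,k160),(k2,k161),(k3,k161),(k1,k162),(k8,k166),
    (k10,k166),(k9,k168),(k11,k168),(k0,k170),(k4,k170),(k5,k170),(k6,k170)],[(k0,k156),(k10,k160),(k11,k162),(k2,
    k165),(k3,k165),(k1,k166),(k5,k166),(k8,k166),(k9,k166),(k4,k168),(k6,k170),(k7,k170)],[(k10,k152),(k0,k154),(k11,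
    k156),(k1,k158),(k8,k160),(k2,k161),(k5,k162),(k9,k162),(k3,k163),(k4,k166),(k6,k166),(k7,k168)],[(k1,k156),(k10,
    k156),(k11,k156),(k4,k158),(k8,k158),(k9,k160),(k0,k162),(k6,k166),(k7,k166),(k2,k167),(k3,k169),(k5,k170)],[(k0,
    k140),(k2,k147),(k3,k147),(k5,k150),(k1,k152),(k10,k152),(k11,k154),(k8,k156),(k9,k156),(k4,k160),(k6,k162),(k7,
    k168)],[(k3,k133),(k0,k142),(k2,k143),(k5,k150),(k10,k150),(k1,k152),(k9,k152),(k11,k152),(k8,k156),(k4,k160),(k6,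
    k160),(k7,k166)]]
    [[k2,k0,k0,k0,k0,k1],[k2,k1,k0,k0,k0,k0],[k2,k0,k0,k0,k1,k0],[k1,k2,k0,k0,k0,k0],[k1,k1,k0,k0,k0,k1],[k1,k1,k1,k0,
    k0,k0],[k1,k0,k1,k0,k0,k1],[k1,k0,k0,k1,k0,k1],[k1,k1,k0,k0,k1,k0],[k1,k0,k0,k0,k2,k0],[k1,k0,k0,k0,k1,k1],[k1,k0,
    k0,k0,k0,k2],[k0,k3,k0,k0,k0,k0],[k0,k2,k1,k0,k0,k0],[k0,k2,k0,k1,k0,k0],[k0,k2,k0,k0,k0,k1],[k0,k1,k1,k0,k0,k1],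
    [k0,k1,k0,k1,k0,k1],[k0,k1,k0,k0,k1,k1],[k0,k1,k0,k0,k0,k2],[k0,k0,k1,k0,k1,k1],[k0,k0,k1,k0,k0,k2],[k0,k0,k0,k0,
    k2,k1],[k0,k0,k0,k0,k1,k2],[k0,k0,k0,k0,k0,k3]]
    [.ref k29 k6 [(z1,[y2,z1]),(z1,[z4,y1]),(z1,[z0,z0,z1]),(z1,[z0,z0,z0,z1])],.ref k30 k4 [(z1,[z2,y1,y2]),(z4,[y4,
    z1,z0,y1,z4]),(z4,[z2,y1,y2,z1]),(z1,[y4,z2,z5])],.ref k31 k7 [(z1,[y2,z0,z1]),(z2,[z1,z0,z0,z1]),(z4,[y2,y1,y4,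
    y1,z4]),(z1,[z1])],.ref k32 k8 [(z1,[z0,z0,z1,z2]),(z1,[z0,y1,y5,y1,z4]),(z1,[z0,z0,z1]),(z1,[y8,z2,z5])],
    .ref k33 k7 [(z1,[z8,y2,y5]),(z4,[y4,z1,z4,z3]),(z4,[z8,y5,y20,y3,z12]),(z1,[y4,z1,z4])],.ref k34 k8 [(z1,[z0,z0,
    z1,z2]),(z1,[z0,y1,y5,y1,z4]),(z1,[z0,z0,z1]),(z1,[y4,z1,z3,z1])],.ref k33 k7 [(z1,[y4,z1,z3,z1]),(z8,[z4,y1,z0,
    z5]),(z2,[y2,y1,y6,y1,z6]),(z2,[z4,y1,z0,y1])],.ref k33 k7 [(z1,[y8,z0,y5,y2,z8]),(z1,[z1,z0,z1,z1,y1]),(z4,[y8,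
    y3,y20,y5,z20]),(z1,[z4,z0,z4,z1,y4])],.ref k30 k4 [(z1,[z4,y1,y4]),(z4,[y8,z1,z4,y1,z4]),(z4,[z4,y1,y4,z1]),(z1,
    [y8,z2,z9])],.ref k35 k6 [(z1,[y4,z1]),(z1,[z1]),(z1,[z0,z0,z1]),(z1,[z0,z0,z0,z1])],.ref k33 k7 [(z3,[y8,z2,z9]),
    (z12,[z4,y1,z0,z9]),(z12,[y8,y7,y36,y9,z36]),(z3,[z4,y1])],.ref k36 k8 [(z1,[z0,z0,z1,z2]),(z1,[z0,y1,y5,y1,z4]),
    (z1,[z0,z0,z1]),(z1,[z8,y2,y5])],.ref k33 k7 [(z1,[z1]),(z8,[y1,z0,z3,z6]),(z4,[z1,y3,y15,y3,z12]),(z2,[y1,z0,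
    z3])],.ref k33 k7 [(z5,[z8,z0,y1,y2]),(z5,[y1,z0,z2,z4]),(z20,[z8,y15,y76,y17,z60]),(z5,[y4,z0,z8,z1])],
    .ref k33 k7 [(z3,[z4,z1,z5,z1,y4]),(z24,[y4,y1,z4,z17,z4]),(z3,[z1,y2,y10,y2,z8]),(z6,[y4,y1,z4,y1,z4])],
    .ref k26 k6 [(z1,[z1,z0,y2]),(z1,[y4,z1,z8]),(z1,[z0,z0,z1]),(z1,[z0,z0,z0,z1])],.ref k31 k7 [(z1,[z4,y1,y3,y1]),
    (z4,[y4,z1,z4,z3]),(z2,[z2,y1,y4,y1,z2]),(z2,[y4,z1,z4,z1])],.ref k29 k6 [(z2,[z4,z1,z0,z1,y4]),(z1,[y4,z0,z0,y1,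
    z4]),(z1,[z0,z0,z1]),(z1,[z0,z0,z0,z1])],.ref k37 k9 [(z1,[z5,y1,y5]),(z1,[z4,y1,y4]),(z4,[y8,z1,z4,y1,z4]),(z4,
    [z4,y1,y4,z1])],.ref k37 k9 [(z2,[z5,y2,y5]),(z1,[z2,y1,y2]),(z4,[y4,z1,z0,y1,z4]),(z4,[z2,y1,y2,z1])],
    .ref k36 k8 [(z1,[z0,z0,z1,z2]),(z1,[z0,y1,y5,y1,z4]),(z1,[z0,z0,z1]),(z1,[z8,z0,y5,y2])],.ref k38 k9 [(z4,[z20,
    z1,z0,y5]),(z1,[z4,y2,z0,y1]),(z4,[y8,y7,y44,y9,z44]),(z2,[z2,y1,z0,z5])],.ref k39 k8 [(z1,[z0,z0,z1,z2]),(z1,[z0,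
    y1,y5,y1,z4]),(z1,[z0,z0,z1]),(z1,[z1,z0,y1])],.ref k34 k8 [(z1,[z0,z0,z1,z2]),(z1,[z0,y1,y5,y1,z4]),(z1,[z0,z0,
    z1]),(z1,[z2,z0,y1])],.ref k40 k0 [(z1,[y4,z3]),(z1,[z0,z0,z1]),(z1,[z0,z0,z0,z1]),(z2,[z0,y1,y4,y1,z4])]],
    .lp k0 [(nat_lit 490),(nat_lit 466),(nat_lit 478),(nat_lit 490),(nat_lit 504),(nat_lit 446)] [k7,k7,k19,k19,k13,
    k13,k7,k7,k0,k0,k29,k29] k0 [[k0,k0,k6,k18,k12,k0,k6,k0,k0,k0,k0,k30],[k66,k0,k0,k0,k0,k0,k0,k0,k16,k56,k0,k84],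
    [k0,k18,k0,k0,k6,k0,k0,k0,k22,k0,k0,k0],[k0,k6,k0,k0,k6,k0,k0,k0,k22,k0,k0,k102],[k0,k0,k0,k0,k0,k0,k30,k0,k34,
    k68,k6,k6],[k0,k12,k6,k6,k0,k0,k6,k0,k0,k0,k0,k0],[k0,k0,k0,k0,k0,k0,k0,k0,k22,k32,k0,k0],[k0,k6,k0,k0,k6,k30,k0,
    k0,k0,k0,k36,k12],[k56,k0,k0,k0,k0,k68,k0,k32,k0,k16,k74,k0],[k16,k0,k22,k22,k0,k34,k0,k22,k0,k0,k40,k0],[k84,k30,
    k102,k0,k0,k6,k12,k0,k0,k0,k0,k0],[k0,k0,k0,k0,k0,k6,k36,k0,k40,k74,k12,k0]] (nat_lit 1440) k5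
    [[(k8,(nat_lit 423)),(k11,(nat_lit 428)),(k9,(nat_lit 461)),(k10,(nat_lit 468)),(k1,(nat_lit 478)),(k4,
    (nat_lit 478)),(k5,(nat_lit 484)),(k7,(nat_lit 496)),(k6,(nat_lit 502)),(k3,(nat_lit 508)),(k0,(nat_lit 574)),(k2,
    (nat_lit 580))],[(k10,(nat_lit 438)),(k2,(nat_lit 460)),(k3,(nat_lit 478)),(k5,(nat_lit 478)),(k7,(nat_lit 478)),
    (k4,(nat_lit 484)),(k6,(nat_lit 490)),(k9,(nat_lit 491)),(k8,(nat_lit 513)),(k11,(nat_lit 524)),(k0,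
    (nat_lit 556)),(k1,(nat_lit 574))],[(k10,(nat_lit 372)),(k3,(nat_lit 400)),(k8,(nat_lit 429)),(k11,(nat_lit 440)),
    (k2,(nat_lit 472)),(k0,(nat_lit 478)),(k7,(nat_lit 478)),(k4,(nat_lit 484)),(k6,(nat_lit 484)),(k9,(nat_lit 485)),
    (k5,(nat_lit 490)),(k1,(nat_lit 508))],[(k11,(nat_lit 434)),(k10,(nat_lit 456)),(k0,(nat_lit 460)),(k2,
    (nat_lit 466)),(k3,(nat_lit 472)),(k5,(nat_lit 472)),(k7,(nat_lit 472)),(k4,(nat_lit 478)),(k6,(nat_lit 478)),(k9,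
    (nat_lit 485)),(k8,(nat_lit 507)),(k1,(nat_lit 580))],[(k10,(nat_lit 360)),(k11,(nat_lit 440)),(k2,(nat_lit 472)),
    (k0,(nat_lit 478)),(k5,(nat_lit 478)),(k7,(nat_lit 478)),(k1,(nat_lit 484)),(k4,(nat_lit 484)),(k6,(nat_lit 484)),
    (k3,(nat_lit 490)),(k9,(nat_lit 491)),(k8,(nat_lit 513))],[(k8,(nat_lit 423)),(k11,(nat_lit 428)),(k10,
    (nat_lit 456)),(k9,(nat_lit 461)),(k1,(nat_lit 478)),(k2,(nat_lit 478)),(k4,(nat_lit 478)),(k0,(nat_lit 484)),(k3,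
    (nat_lit 484)),(k5,(nat_lit 484)),(k7,(nat_lit 484)),(k6,(nat_lit 490))],[(k2,(nat_lit 472)),(k10,(nat_lit 474)),
    (k0,(nat_lit 478)),(k3,(nat_lit 478)),(k5,(nat_lit 478)),(k4,(nat_lit 484)),(k7,(nat_lit 490)),(k9,(nat_lit 491)),
    (k1,(nat_lit 496)),(k6,(nat_lit 520)),(k8,(nat_lit 531)),(k11,(nat_lit 536))],[(k11,(nat_lit 446)),(k8,
    (nat_lit 465)),(k2,(nat_lit 478)),(k3,(nat_lit 484)),(k5,(nat_lit 484)),(k0,(nat_lit 490)),(k4,(nat_lit 490)),(k6,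
    (nat_lit 490)),(k9,(nat_lit 497)),(k1,(nat_lit 502)),(k10,(nat_lit 504)),(k7,(nat_lit 520))],[(k1,(nat_lit 461)),
    (k4,(nat_lit 461)),(k10,(nat_lit 463)),(k2,(nat_lit 485)),(k3,(nat_lit 485)),(k0,(nat_lit 491)),(k5,
    (nat_lit 491)),(k7,(nat_lit 491)),(k6,(nat_lit 497)),(k9,(nat_lit 504)),(k11,(nat_lit 507)),(k8,(nat_lit 526))],
    [(k1,(nat_lit 423)),(k4,(nat_lit 423)),(k3,(nat_lit 429)),(k6,(nat_lit 465)),(k11,(nat_lit 475)),(k8,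
    (nat_lit 488)),(k2,(nat_lit 507)),(k0,(nat_lit 513)),(k5,(nat_lit 513)),(k10,(nat_lit 515)),(k9,(nat_lit 526)),
    (k7,(nat_lit 531))],[(k1,(nat_lit 428)),(k4,(nat_lit 428)),(k2,(nat_lit 434)),(k3,(nat_lit 440)),(k5,
    (nat_lit 440)),(k6,(nat_lit 446)),(k11,(nat_lit 462)),(k8,(nat_lit 475)),(k9,(nat_lit 507)),(k10,(nat_lit 520)),
    (k0,(nat_lit 524)),(k7,(nat_lit 536))],[(k5,(nat_lit 360)),(k3,(nat_lit 372)),(k0,(nat_lit 438)),(k2,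
    (nat_lit 456)),(k4,(nat_lit 456)),(k10,(nat_lit 458)),(k9,(nat_lit 463)),(k1,(nat_lit 468)),(k7,(nat_lit 474)),
    (k6,(nat_lit 504)),(k8,(nat_lit 515)),(k11,(nat_lit 520))]]
    [[k2,k1,k0,k0,k0,k0],[k1,k1,k0,k0,k0,k1],[k1,k1,k1,k0,k0,k0],[k1,k0,k1,k0,k0,k1],[k1,k0,k1,k0,k1,k0],[k1,k0,k0,k1,
    k0,k1],[k1,k1,k0,k0,k1,k0],[k1,k0,k0,k1,k1,k0],[k1,k0,k0,k0,k1,k1],[k1,k0,k0,k0,k0,k2],[k0,k3,k0,k0,k0,k0],[k0,k2,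
    k1,k0,k0,k0],[k0,k2,k0,k1,k0,k0],[k0,k2,k0,k0,k1,k0],[k0,k2,k0,k0,k0,k1],[k0,k1,k1,k0,k0,k1],[k0,k1,k1,k0,k1,k0],
    [k0,k1,k0,k1,k0,k1],[k0,k1,k0,k1,k1,k0],[k0,k1,k0,k0,k1,k1],[k0,k1,k0,k0,k0,k2],[k0,k0,k2,k0,k1,k0],[k0,k0,k2,k0,
    k0,k1],[k0,k0,k1,k1,k1,k0],[k0,k0,k1,k1,k0,k1],[k0,k0,k1,k0,k1,k1],[k0,k0,k1,k0,k0,k2]]
    [.ref k9 k6 [(z1,[y4,z4,z1]),(z2,[z4,y1,y1]),(z1,[y1,z1,z1])],.ref k9 k6 [(z1,[z4,y2,y1]),(z2,[y4,z5,z1]),(z2,[z2,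
    y1,z1])],.ref k10 k10 [(z2,[y2,z1,z1]),(z2,[z4,y1,y1]),(z1,[y4,z2,z1])],.ref k11 k1 [(z2,[z6,y1,z1,y4]),(z1,[y1,
    z0,z0,z1]),(z2,[z4,z1,z1,y4])],.ref k12 k0 [(z1,[z0,z1]),(z1,[z0,z0,z1]),(z1,[z2,y1])],.ref k13 k0 [(z1,[z0,z1]),
    (z1,[z0,z0,z1]),(z1,[y4,z0,y1,z4])],.ref k14 k6 [(z1,[y4,z2,z1]),(z2,[z4,y1,y1]),(z2,[y2,z1,z1])],
    .ref k15 k6 [(z1,[y2,z1]),(z1,[z1]),(z2,[y2,z1,z1])],.ref k16 k5 [(z2,[z6,y1,z1,y4]),(z1,[y4,z0,y1,z4]),(z2,[z4,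
    z1,z1,y4])],.ref k9 k6 [(z1,[z2,y1]),(z1,[y1,z2]),(z4,[z2,y1,z3])],.ref k9 k6 [(z1,[z4,z0,y3]),(z2,[y4,z3,z3]),
    (z1,[z1])],.ref k11 k1 [(z1,[z3,z1,y1,y2]),(z2,[y2,y1,z1,z2]),(z2,[z4,z3,y1,y4])],.ref k13 k0 [(z1,[z0,z1]),(z1,
    [z0,z0,z1]),(z1,[y4,y2,z1,z4])],.ref k16 k5 [(z1,[z3,z1,y1,y2]),(z1,[y4,y2,z1,z4]),(z2,[z4,z3,y1,y4])],
    .ref k9 k6 [(z1,[z2,z0,y1]),(z2,[y2,z3,z1]),(z2,[z1,z0,z1])],.ref k15 k6 [(z1,[z2,z1,z0,y2]),(z1,[y1,z0,z0,z1]),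
    (z2,[z2,z1,z1,y2])],.ref k13 k0 [(z1,[z0,z1]),(z1,[z0,z0,z1]),(z1,[z4,z0,y1])],.ref k12 k0 [(z1,[z0,z1]),(z1,[z0,
    z0,z1]),(z1,[y2,y1,z0,z2])],.ref k11 k1 [(z2,[y6,y1,z1,z2]),(z1,[z1]),(z2,[y4,z1,z1])],.ref k17 k3 [(z2,[y2,y1,y1,
    z2]),(z1,[z1,z0,z1]),(z1,[z0,z0,y1])],.ref k9 k6 [(z3,[z4,z0,y1]),(z6,[y4,z9,z1]),(z3,[z1,z0,z2])],
    .ref k27 k0 [(z1,[z0,z1]),(z1,[z0,z0,z1]),(z1,[z1])],.ref k11 k1 [(z2,[z3,z2,z1,y4]),(z2,[y1,y1,z0,z2]),(z2,[z2,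
    z3,z1,y4])],.ref k9 k6 [(z1,[y4,y2,y1,z4]),(z2,[z4,z5,z1,y4]),(z2,[y2,y1,z1,z2])],.ref k14 k6 [(z1,[z4,z2,z1,y4]),
    (z2,[y4,y1,y1,z4]),(z2,[z2,z1,z1,y2])],.ref k28 k6 [(z1,[z4,z2,z1,y4]),(z2,[y4,y1,y1,z4]),(z2,[z2,z1,z1,y2])],
    .ref k41 k2 [(z1,[y4,y2,y1,z4]),(z1,[z1]),(z1,[z0,z0,z1])]],
    .base (.leafM k3 [k1,k2,k3,k4,k5,k0] [(z1,[z0,z0,z1])] []),
    .base (.leafM k3 [k1,k2,k3,k4,k5,k0] [(z1,[z0,z0,z1])] []),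
    .base (.leafM k0 [k1,k2,k3,k4,k5,k0] [(z1,[y1,y1,z0,z1])] []),
    .base (.leafM k0 [k0,k1,k2,k3,k4,k5] [(z2,[z0,z1,z1])] []),
    .base (.leafM k3 [k4,k5,k0,k1,k2,k3] [(z1,[z0,z1,z1])] [])]

theorem hB6_171_3 : blkB [0, 0, 0, 0, 0, 0] [] sp6 hS6_171 (pcls (n := 6) [0, 0, 0, 0, 0, 0]) hD6_171 560 3 hN6_171_3 = true := by
  decide +kernel

/-- nodes 48 to 59 -/
noncomputable def hN6_171_4 : List HM :=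
  [.base (.leafM k3 [k3,k4,k5,k0,k1,k2] [(z2,[z1,z1])] []),
    .base (.leafM k3 [k2,k3,k4,k5,k0,k1] [(z5,[z0,y1,y1,z5])] []),
    .base (.leafM k3 [k5,k0,k1,k2,k3,k4] [(z1,[z0,y1,z0,z1])] []),
    .base (.leafM k0 [k2,k3,k4,k5,k0,k1] [(z1,[y1,y1,z0,z1])] []),
    .lp k0 [(nat_lit 652),(nat_lit 654),(nat_lit 700),(nat_lit 592),(nat_lit 666),(nat_lit 572)] [k24,k24,k23,k23,k0,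
    k0,k54,k54,k17,k17,k64,k64] k0 [[k0,k0,k14,k6,k0,k0,k0,k0,k0,k64,k64,k0],[k0,k0,k0,k0,k38,k22,k46,k14,k0,k0,k0,
    k0],[k0,k6,k0,k8,k24,k0,k20,k0,k0,k22,k0,k0],[k0,k14,k0,k0,k4,k0,k0,k0,k0,k58,k58,k14],[k22,k0,k0,k0,k0,k60,k84,
    k0,k0,k0,k0,k98],[k38,k0,k4,k24,k0,k0,k12,k0,k0,k38,k0,k0],[k14,k0,k0,k0,k0,k0,k0,k0,k102,k102,k0,k90],[k46,k0,k0,
    k20,k12,k84,k0,k0,k0,k0,k0,k86],[k0,k64,k58,k22,k38,k0,k0,k102,k0,k0,k0,k0],[k0,k0,k0,k0,k0,k0,k0,k102,k0,k0,k16,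
    k0],[k0,k0,k14,k0,k0,k98,k86,k90,k0,k0,k0,k0],[k0,k64,k58,k0,k0,k0,k0,k0,k16,k0,k0,k0]] (nat_lit 1920) k5
    [[(k0,(nat_lit 588)),(k11,(nat_lit 596)),(k10,(nat_lit 612)),(k5,(nat_lit 618)),(k1,(nat_lit 652)),(k3,
    (nat_lit 653)),(k8,(nat_lit 659)),(k2,(nat_lit 667)),(k4,(nat_lit 676)),(k6,(nat_lit 708)),(k7,(nat_lit 720)),(k9,
    (nat_lit 749))],[(k1,(nat_lit 588)),(k8,(nat_lit 595)),(k10,(nat_lit 612)),(k11,(nat_lit 612)),(k7,(nat_lit 644)),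
    (k2,(nat_lit 647)),(k0,(nat_lit 652)),(k3,(nat_lit 653)),(k5,(nat_lit 662)),(k6,(nat_lit 668)),(k9,(nat_lit 673)),
    (k4,(nat_lit 714))],[(k7,(nat_lit 585)),(k6,(nat_lit 609)),(k9,(nat_lit 614)),(k0,(nat_lit 653)),(k1,
    (nat_lit 653)),(k3,(nat_lit 654)),(k4,(nat_lit 655)),(k8,(nat_lit 660)),(k2,(nat_lit 668)),(k10,(nat_lit 677)),
    (k11,(nat_lit 677)),(k5,(nat_lit 683))],[(k7,(nat_lit 599)),(k6,(nat_lit 623)),(k8,(nat_lit 638)),(k9,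
    (nat_lit 640)),(k2,(nat_lit 646)),(k0,(nat_lit 647)),(k1,(nat_lit 667)),(k3,(nat_lit 668)),(k10,(nat_lit 671)),
    (k11,(nat_lit 671)),(k5,(nat_lit 677)),(k4,(nat_lit 681))],[(k1,(nat_lit 618)),(k10,(nat_lit 622)),(k8,
    (nat_lit 625)),(k7,(nat_lit 642)),(k11,(nat_lit 658)),(k0,(nat_lit 662)),(k6,(nat_lit 666)),(k2,(nat_lit 677)),
    (k3,(nat_lit 683)),(k9,(nat_lit 683)),(k5,(nat_lit 708)),(k4,(nat_lit 724))],[(k10,(nat_lit 538)),(k9,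
    (nat_lit 599)),(k4,(nat_lit 640)),(k7,(nat_lit 646)),(k3,(nat_lit 655)),(k6,(nat_lit 658)),(k11,(nat_lit 674)),
    (k1,(nat_lit 676)),(k2,(nat_lit 681)),(k8,(nat_lit 683)),(k0,(nat_lit 714)),(k5,(nat_lit 724))],[(k10,
    (nat_lit 582)),(k11,(nat_lit 582)),(k3,(nat_lit 585)),(k8,(nat_lit 591)),(k2,(nat_lit 599)),(k9,(nat_lit 617)),
    (k5,(nat_lit 642)),(k0,(nat_lit 644)),(k4,(nat_lit 646)),(k7,(nat_lit 652)),(k6,(nat_lit 676)),(k1,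
    (nat_lit 720))],[(k11,(nat_lit 480)),(k10,(nat_lit 492)),(k8,(nat_lit 527)),(k6,(nat_lit 592)),(k3,(nat_lit 609)),
    (k2,(nat_lit 623)),(k9,(nat_lit 629)),(k4,(nat_lit 658)),(k5,(nat_lit 666)),(k0,(nat_lit 668)),(k7,(nat_lit 676)),
    (k1,(nat_lit 708))],[(k10,(nat_lit 533)),(k4,(nat_lit 599)),(k3,(nat_lit 614)),(k7,(nat_lit 617)),(k6,
    (nat_lit 629)),(k2,(nat_lit 640)),(k9,(nat_lit 666)),(k0,(nat_lit 673)),(k5,(nat_lit 683)),(k11,(nat_lit 721)),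
    (k1,(nat_lit 749)),(k8,(nat_lit 768))],[(k6,(nat_lit 527)),(k7,(nat_lit 591)),(k0,(nat_lit 595)),(k11,
    (nat_lit 619)),(k5,(nat_lit 625)),(k10,(nat_lit 635)),(k2,(nat_lit 638)),(k1,(nat_lit 659)),(k3,(nat_lit 660)),
    (k8,(nat_lit 666)),(k4,(nat_lit 683)),(k9,(nat_lit 768))],[(k6,(nat_lit 480)),(k10,(nat_lit 572)),(k11,
    (nat_lit 572)),(k7,(nat_lit 582)),(k1,(nat_lit 596)),(k0,(nat_lit 612)),(k8,(nat_lit 619)),(k5,(nat_lit 658)),(k2,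
    (nat_lit 671)),(k4,(nat_lit 674)),(k3,(nat_lit 677)),(k9,(nat_lit 721))],[(k6,(nat_lit 492)),(k9,(nat_lit 533)),
    (k4,(nat_lit 538)),(k10,(nat_lit 572)),(k11,(nat_lit 572)),(k7,(nat_lit 582)),(k0,(nat_lit 612)),(k1,
    (nat_lit 612)),(k5,(nat_lit 622)),(k8,(nat_lit 635)),(k2,(nat_lit 671)),(k3,(nat_lit 677))]]
    [[k3,k0,k0,k0,k0,k0],[k2,k1,k0,k0,k0,k0],[k2,k0,k0,k0,k0,k1],[k1,k1,k0,k0,k1,k0],[k1,k0,k1,k0,k0,k1],[k1,k0,k1,k0,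
    k1,k0],[k1,k0,k0,k1,k0,k1],[k1,k0,k0,k0,k1,k1],[k1,k0,k0,k0,k0,k2],[k0,k2,k0,k1,k0,k0],[k0,k1,k1,k0,k0,k1],[k0,k1,
    k0,k2,k0,k0],[k0,k1,k0,k1,k1,k0],[k0,k1,k0,k1,k0,k1],[k0,k1,k0,k0,k1,k1],[k0,k0,k1,k1,k1,k0],[k0,k0,k1,k1,k0,k1],
    [k0,k0,k1,k2,k0,k0],[k0,k0,k1,k0,k1,k1],[k0,k0,k1,k0,k0,k2],[k0,k0,k0,k2,k1,k0],[k0,k0,k0,k2,k0,k1],[k0,k0,k0,k1,
    k2,k0],[k0,k0,k0,k1,k1,k1],[k0,k0,k0,k1,k0,k2],[k0,k0,k0,k0,k1,k2],[k0,k0,k0,k0,k0,k3]]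
    [.ref k25 k0 [(z1,[z1]),(z2,[y1,z3,z6]),(z1,[y2,z6,z0,z3]),(z4,[z13,y39,z0,z0,z12]),(z1,[y2,z3,y3,y3,y3,z3])],
    .ref k25 k0 [(z1,[z2,y1,y2]),(z1,[y1,z2,z4]),(z1,[y4,z8,z4,z3]),(z2,[z13,y26,y13,z0,z6]),(z1,[y4,z5,z1,y3,y3,
    z3])],.ref k25 k0 [(z3,[z4,z1]),(z3,[y2,z4,z9]),(z3,[y8,z16,z0,z9]),(z3,[z13,y26,z0,z0,z9]),(z3,[y8,z7,y9,y9,y9,
    z9])],.ref k25 k0 [(z1,[y2,z3,z0,y2,y2,z2]),(z1,[z1,z0,z3,z1,z1,y1]),(z1,[z4,z0,z0,z7,z4,y4]),(z2,[y13,z0,z0,y13,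
    y7,z13]),(z1,[z4,y3,y3,z1,z1,y1])],.ref k25 k0 [(z1,[y4,z7,z0,z4]),(z1,[z2,y2,z3,y2]),(z1,[z8,y8,z0,y5]),(z1,[y13,
    z13,z0,z13,z3]),(z1,[z8,y11,y3,y11,y3,z3])],.ref k25 k0 [(z1,[y1,z3,y1,z0,y1,z1]),(z2,[z1,z0,z7,z0,z1,y1]),(z1,
    [z2,z0,z2,z3,z2,y2]),(z4,[y13,z0,y13,z0,y1,z13]),(z1,[z2,y3,y1,y3,y1,z1])],.ref k25 k0 [(z3,[z2,z7,z0,z0,y2]),(z3,
    [y1,z1,z9,z0,z1]),(z3,[y4,z4,z0,z9,z4]),(z6,[z13,y13,z0,z0,z5]),(z3,[y4,y5,y9,y9,y5,z9])],.ref k25 k0 [(z1,[y4,z3,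
    y4,y4,y4,z4]),(z1,[z2,z0,z5,z2,z2,y2]),(z1,[z8,z0,z8,z11,z8,y8]),(z1,[y13,z0,y13,y13,y10,z13]),(z1,[z8,y3,z5,z5,
    z5,y5])],.ref k25 k0 [(z1,[z2,z1]),(z1,[y1,z1,z3]),(z1,[y4,z4,z0,z3]),(z2,[z13,y13,z0,z0,z6]),(z1,[y4,z1,y3,y3,y3,
    z3])],.ref k25 k0 [(z3,[z4,z9,y8,z0,y4]),(z3,[y2,z0,z13,z0,z2]),(z3,[y8,z0,z16,z9,z8]),(z3,[z13,z0,y26,z0,y4]),
    (z3,[y8,y9,z7,y9,y1,z9])],.ref k25 k0 [(z3,[y4,z9,z4,z4]),(z3,[z2,z0,z7,y2]),(z3,[z8,z0,y8,z1]),(z3,[y13,z0,z13,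
    z13,z9]),(z3,[z8,y9,y17,y17,y9,z9])],.ref k25 k0 [(z2,[z1,z6,y1,z0,y2]),(z4,[y1,z0,z13,z0,z2]),(z1,[y1,z0,z1,z3,
    z2]),(z8,[z13,z0,y13,z0,y2]),(z1,[y1,y3,y2,y3,y1,z3])],.ref k25 k0 [(z1,[z4,z7,z0,z4,z0,y4]),(z1,[y2,y2,z3,y2,z0,
    z2]),(z1,[y8,y8,z0,y5,z0,z8]),(z1,[z13,z13,z0,z13,z3,y13]),(z1,[y8,y11,y3,y11,y3,z11])],.ref k25 k0 [(z1,[z1,z3,
    y1,z0,y1]),(z2,[y1,z0,z7,z0,z1]),(z1,[y2,z0,z2,z3,z2]),(z4,[z13,z0,y13,z0,y1]),(z1,[y2,y3,y1,y3,y1,z3])],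
    .ref k25 k0 [(z3,[y4,z5,z0,y4,y4,z4]),(z3,[z2,z2,z9,z2,z2,y2]),(z3,[z8,z8,z0,z17,z8,y8]),(z3,[y13,y13,z0,y13,y4,
    z13]),(z3,[z8,y1,y9,y1,y1,z1])],.ref k25 k0 [(z1,[y4,y1,y4,z0,z0,z4]),(z1,[z2,z2,z5,z0,z0,y2]),(z1,[z8,z8,z8,z3,
    z0,y8]),(z1,[y13,y13,y13,z0,z3,z13]),(z1,[z8,z5,z5,y3,y3,y5])],.ref k25 k0 [(z1,[z2,z3,z0,y2,y2]),(z1,[y1,z0,z3,
    z1,z1]),(z1,[y4,z0,z0,z7,z4]),(z2,[z13,z0,z0,y13,y7]),(z1,[y4,y3,y3,z1,z1,z3])],.ref k25 k0 [(z3,[z2,z9,z0,y2,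
    y4]),(z3,[y1,z0,z9,z1,z2]),(z3,[y4,z0,z0,z13,z8]),(z6,[z13,z0,z0,y13,y8]),(z3,[y4,y9,y9,y5,y1,z9])],
    .ref k25 k0 [(z5,[y4,z11,y4,z0,y4,z4]),(z5,[z2,z2,z17,z0,z2,y2]),(z5,[z8,z8,z8,z15,z8,y8]),(z5,[y13,y13,y13,z0,z2,
    z13]),(z5,[z8,y7,y7,y15,y7,z7])],.ref k25 k0 [(z1,[y2,z3,z0,z2]),(z1,[z1,z0,z3,y1]),(z1,[z4,z0,z0,y1]),(z2,[y13,
    z0,z0,z13,z6]),(z1,[z4,y3,y3,y7,y3,z3])],.ref k25 k0 [(z3,[z2,z11,z2,z2,y2,y2]),(z3,[y1,y1,z8,y1,z1,z1]),(z3,[y4,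
    y4,y4,z5,z4,z4]),(z6,[z13,z13,z13,z13,z5,y13]),(z3,[y4,y13,y13,y13,y5,z13])],.ref k25 k0 [(z9,[z4,z27,z0,z0,y8]),
    (z9,[y2,z0,z27,z0,z4]),(z9,[y8,z0,z0,z27,z16]),(z9,[z13,z0,z0,z0,z1]),(z9,[y8,y27,y27,y27,y11,z27])],
    .ref k25 k0 [(z1,[y4,y5,y8,y8,y4,z8]),(z1,[z2,z4,z7,z4,z2,y4]),(z1,[z8,z16,z16,z19,z8,y16]),(z1,[y13,y26,y26,y26,
    y10,z26]),(z1,[z8,z13,z13,z13,z5,y13])],.ref k25 k0 [(z1,[z2,z5,z2,z2,z0,y2]),(z1,[y1,y1,z2,y1,z0,z1]),(z1,[y4,y4,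
    y4,y1,z0,z4]),(z2,[z13,z13,z13,z13,z6,y13]),(z1,[y4,y7,y7,y7,y3,z7])],.ref k25 k0 [(z5,[z4,z15,z0,z0,y4]),(z5,[y2,
    z0,z15,z0,z2]),(z5,[y8,z0,z0,z15,z8]),(z5,[z13,z0,z0,z0,z2]),(z5,[y8,y15,y15,y15,y7,z15])],.ref k25 k0 [(z1,[y2,
    z1,y2,y2,y2,z2]),(z1,[z1,z1,z4,z1,z1,y1]),(z1,[z4,z4,z4,z7,z4,y4]),(z2,[y13,y13,y13,y13,y7,z13]),(z1,[z4,z1,z1,z1,
    z1,y1])],.ref k25 k0 [(z1,[z4,z3]),(z1,[y2,z0,z3]),(z1,[y8,z0,z0,z3]),(z1,[z13,z0,z0,z0,z3]),(z1,[y8,y3,y3,y3,y3,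
    z3])]],
    .lp k0 [(nat_lit 652),(nat_lit 654),(nat_lit 700),(nat_lit 592),(nat_lit 666),(nat_lit 572)] [k24,k24,k23,k23,k0,
    k0,k54,k54,k17,k17,k64,k64] k0 [[k0,k0,k14,k6,k0,k0,k0,k0,k0,k64,k64,k0],[k0,k0,k0,k0,k38,k22,k46,k14,k0,k0,k0,
    k0],[k0,k6,k0,k8,k24,k0,k20,k0,k0,k22,k0,k0],[k0,k14,k0,k0,k4,k0,k0,k0,k0,k58,k58,k14],[k22,k0,k0,k0,k0,k60,k84,
    k0,k0,k0,k0,k98],[k38,k0,k4,k24,k0,k0,k12,k0,k0,k38,k0,k0],[k14,k0,k0,k0,k0,k0,k0,k0,k102,k102,k0,k90],[k46,k0,k0,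
    k20,k12,k84,k0,k0,k0,k0,k0,k86],[k0,k64,k58,k22,k38,k0,k0,k102,k0,k0,k0,k0],[k0,k0,k0,k0,k0,k0,k0,k102,k0,k0,k16,
    k0],[k0,k0,k14,k0,k0,k98,k86,k90,k0,k0,k0,k0],[k0,k64,k58,k0,k0,k0,k0,k0,k16,k0,k0,k0]] (nat_lit 1920) k5
    [[(k0,(nat_lit 588)),(k11,(nat_lit 596)),(k10,(nat_lit 612)),(k5,(nat_lit 618)),(k1,(nat_lit 652)),(k3,
    (nat_lit 653)),(k8,(nat_lit 659)),(k2,(nat_lit 667)),(k4,(nat_lit 676)),(k6,(nat_lit 708)),(k7,(nat_lit 720)),(k9,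
    (nat_lit 749))],[(k1,(nat_lit 588)),(k8,(nat_lit 595)),(k10,(nat_lit 612)),(k11,(nat_lit 612)),(k7,(nat_lit 644)),
    (k2,(nat_lit 647)),(k0,(nat_lit 652)),(k3,(nat_lit 653)),(k5,(nat_lit 662)),(k6,(nat_lit 668)),(k9,(nat_lit 673)),
    (k4,(nat_lit 714))],[(k7,(nat_lit 585)),(k6,(nat_lit 609)),(k9,(nat_lit 614)),(k0,(nat_lit 653)),(k1,
    (nat_lit 653)),(k3,(nat_lit 654)),(k4,(nat_lit 655)),(k8,(nat_lit 660)),(k2,(nat_lit 668)),(k10,(nat_lit 677)),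
    (k11,(nat_lit 677)),(k5,(nat_lit 683))],[(k7,(nat_lit 599)),(k6,(nat_lit 623)),(k8,(nat_lit 638)),(k9,
    (nat_lit 640)),(k2,(nat_lit 646)),(k0,(nat_lit 647)),(k1,(nat_lit 667)),(k3,(nat_lit 668)),(k10,(nat_lit 671)),
    (k11,(nat_lit 671)),(k5,(nat_lit 677)),(k4,(nat_lit 681))],[(k1,(nat_lit 618)),(k10,(nat_lit 622)),(k8,
    (nat_lit 625)),(k7,(nat_lit 642)),(k11,(nat_lit 658)),(k0,(nat_lit 662)),(k6,(nat_lit 666)),(k2,(nat_lit 677)),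
    (k3,(nat_lit 683)),(k9,(nat_lit 683)),(k5,(nat_lit 708)),(k4,(nat_lit 724))],[(k10,(nat_lit 538)),(k9,
    (nat_lit 599)),(k4,(nat_lit 640)),(k7,(nat_lit 646)),(k3,(nat_lit 655)),(k6,(nat_lit 658)),(k11,(nat_lit 674)),
    (k1,(nat_lit 676)),(k2,(nat_lit 681)),(k8,(nat_lit 683)),(k0,(nat_lit 714)),(k5,(nat_lit 724))],[(k10,
    (nat_lit 582)),(k11,(nat_lit 582)),(k3,(nat_lit 585)),(k8,(nat_lit 591)),(k2,(nat_lit 599)),(k9,(nat_lit 617)),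
    (k5,(nat_lit 642)),(k0,(nat_lit 644)),(k4,(nat_lit 646)),(k7,(nat_lit 652)),(k6,(nat_lit 676)),(k1,
    (nat_lit 720))],[(k11,(nat_lit 480)),(k10,(nat_lit 492)),(k8,(nat_lit 527)),(k6,(nat_lit 592)),(k3,(nat_lit 609)),
    (k2,(nat_lit 623)),(k9,(nat_lit 629)),(k4,(nat_lit 658)),(k5,(nat_lit 666)),(k0,(nat_lit 668)),(k7,(nat_lit 676)),
    (k1,(nat_lit 708))],[(k10,(nat_lit 533)),(k4,(nat_lit 599)),(k3,(nat_lit 614)),(k7,(nat_lit 617)),(k6,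
    (nat_lit 629)),(k2,(nat_lit 640)),(k9,(nat_lit 666)),(k0,(nat_lit 673)),(k5,(nat_lit 683)),(k11,(nat_lit 721)),
    (k1,(nat_lit 749)),(k8,(nat_lit 768))],[(k6,(nat_lit 527)),(k7,(nat_lit 591)),(k0,(nat_lit 595)),(k11,
    (nat_lit 619)),(k5,(nat_lit 625)),(k10,(nat_lit 635)),(k2,(nat_lit 638)),(k1,(nat_lit 659)),(k3,(nat_lit 660)),
    (k8,(nat_lit 666)),(k4,(nat_lit 683)),(k9,(nat_lit 768))],[(k6,(nat_lit 480)),(k10,(nat_lit 572)),(k11,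
    (nat_lit 572)),(k7,(nat_lit 582)),(k1,(nat_lit 596)),(k0,(nat_lit 612)),(k8,(nat_lit 619)),(k5,(nat_lit 658)),(k2,
    (nat_lit 671)),(k4,(nat_lit 674)),(k3,(nat_lit 677)),(k9,(nat_lit 721))],[(k6,(nat_lit 492)),(k9,(nat_lit 533)),
    (k4,(nat_lit 538)),(k10,(nat_lit 572)),(k11,(nat_lit 572)),(k7,(nat_lit 582)),(k0,(nat_lit 612)),(k1,
    (nat_lit 612)),(k5,(nat_lit 622)),(k8,(nat_lit 635)),(k2,(nat_lit 671)),(k3,(nat_lit 677))]]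
    [[k3,k0,k0,k0,k0,k0],[k2,k1,k0,k0,k0,k0],[k2,k0,k0,k0,k0,k1],[k1,k1,k0,k0,k1,k0],[k1,k0,k1,k0,k0,k1],[k1,k0,k1,k0,
    k1,k0],[k1,k0,k0,k1,k0,k1],[k1,k0,k0,k0,k1,k1],[k1,k0,k0,k0,k0,k2],[k0,k2,k0,k1,k0,k0],[k0,k1,k1,k0,k0,k1],[k0,k1,
    k0,k2,k0,k0],[k0,k1,k0,k1,k1,k0],[k0,k1,k0,k1,k0,k1],[k0,k1,k0,k0,k1,k1],[k0,k0,k1,k1,k1,k0],[k0,k0,k1,k1,k0,k1],
    [k0,k0,k1,k2,k0,k0],[k0,k0,k1,k0,k1,k1],[k0,k0,k1,k0,k0,k2],[k0,k0,k0,k2,k1,k0],[k0,k0,k0,k2,k0,k1],[k0,k0,k0,k1,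
    k2,k0],[k0,k0,k0,k1,k1,k1],[k0,k0,k0,k1,k0,k2],[k0,k0,k0,k0,k1,k2],[k0,k0,k0,k0,k0,k3]]
    [.ref k25 k0 [(z1,[z1]),(z2,[y1,z3,z6]),(z4,[z13,y39,z0,z12]),(z1,[y2,z6,z0,z0,z3]),(z1,[y2,z3,y3,y3,y3,z3])],
    .ref k25 k0 [(z1,[z2,y1,y2]),(z1,[y1,z2,z4]),(z2,[z13,y26,y13,z6]),(z1,[y4,z8,z4,z0,z3]),(z1,[y4,z5,z1,y3,y3,
    z3])],.ref k25 k0 [(z3,[z4,z1]),(z3,[y2,z4,z9]),(z3,[z13,y26,z0,z9]),(z3,[y8,z16,z0,z0,z9]),(z3,[y8,z7,y9,y9,y9,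
    z9])],.ref k25 k0 [(z1,[y2,z3,z0,y2,y2,z2]),(z1,[z1,z0,z3,z1,z1,y1]),(z2,[y13,z0,z0,y7,y13,z13]),(z1,[z4,z0,z0,z4,
    z7,y4]),(z1,[z4,y3,y3,z1,z1,y1])],.ref k25 k0 [(z3,[z2,z7,z0,y2]),(z3,[y1,z1,z9,z1]),(z6,[z13,y13,z0,z5]),(z3,[y4,
    z4,z0,z4,z9]),(z3,[y4,y5,y9,y5,y9,z9])],.ref k25 k0 [(z3,[z4,z9,z4,z0,z4,y4]),(z3,[y2,z0,z7,z0,y2,z2]),(z3,[z13,
    z0,z13,z9,z13,y13]),(z3,[y8,z0,y8,z0,z1,z8]),(z3,[y8,y9,y17,y9,y17,z17])],.ref k25 k0 [(z1,[y4,z7,z0,z0,z4]),(z1,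
    [z2,y2,z3,z0,y2]),(z1,[y13,z13,z0,z3,z13]),(z1,[z8,y8,z0,z0,y5]),(z1,[z8,y11,y3,y3,y11,z3])],.ref k25 k0 [(z1,[y4,
    z3,y4,y4,y4,z4]),(z1,[z2,z0,z5,z2,z2,y2]),(z1,[y13,z0,y13,y10,y13,z13]),(z1,[z8,z0,z8,z8,z11,y8]),(z1,[z8,y3,z5,
    z5,z5,y5])],.ref k25 k0 [(z1,[z2,z1]),(z1,[y1,z1,z3]),(z2,[z13,y13,z0,z6]),(z1,[y4,z4,z0,z0,z3]),(z1,[y4,z1,y3,y3,
    y3,z3])],.ref k25 k0 [(z1,[y1,z3,z2,z0,z1]),(z2,[z1,z0,z4,z0,y1]),(z4,[y13,z0,z26,z12,z13]),(z1,[z2,z0,y4,z0,z1]),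
    (z1,[z2,y3,y7,y3,y5,z3])],.ref k25 k0 [(z1,[z1,z3,y1,y1]),(z2,[y1,z0,z7,z1]),(z4,[z13,z0,y13,y1]),(z1,[y2,z0,z2,
    z2,z3]),(z1,[y2,y3,y1,y1,y3,z3])],.ref k25 k0 [(z3,[y2,z9,z2,z0,z4]),(z3,[z1,z0,z8,z0,y2]),(z6,[y13,z0,z13,z18,
    z26]),(z3,[z4,z0,y4,z0,z1]),(z3,[z4,y9,y13,y9,y17,z9])],.ref k25 k0 [(z3,[y2,z7,z0,y2,z0,z2]),(z3,[z1,z1,z9,z1,z0,
    y1]),(z6,[y13,y13,z0,z5,z0,z13]),(z3,[z4,z4,z0,z4,z9,y4]),(z3,[z4,y5,y9,y5,y9,z5])],.ref k25 k0 [(z3,[y4,z9,z4,z0,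
    z4]),(z3,[z2,z0,z7,z0,y2]),(z3,[y13,z0,z13,z9,z13]),(z3,[z8,z0,y8,z0,z1]),(z3,[z8,y9,y17,y9,y17,z9])],
    .ref k25 k0 [(z3,[y4,z5,z0,y4,y4,z4]),(z3,[z2,z2,z9,z2,z2,y2]),(z3,[y13,y13,z0,y4,y13,z13]),(z3,[z8,z8,z0,z8,z17,
    y8]),(z3,[z8,y1,y9,y1,y1,z1])],.ref k25 k0 [(z1,[y4,y1,y4,z0,z0,z4]),(z1,[z2,z2,z5,z0,z0,y2]),(z1,[y13,y13,y13,z3,
    z0,z13]),(z1,[z8,z8,z8,z0,z3,y8]),(z1,[z8,z5,z5,y3,y3,y5])],.ref k25 k0 [(z1,[z2,z3,z0,y2,y2]),(z1,[y1,z0,z3,z1,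
    z1]),(z2,[z13,z0,z0,y7,y13]),(z1,[y4,z0,z0,z4,z7]),(z1,[y4,y3,y3,z1,z1,z3])],.ref k25 k0 [(z1,[y4,z3,z0,z4,z8]),
    (z1,[z2,z0,z3,y2,y4]),(z1,[y13,z0,z0,z16,z26]),(z1,[z8,z0,z0,y8,y13]),(z1,[z8,y3,y3,y11,y19,z3])],
    .ref k25 k0 [(z1,[z2,z5,z2,z0,z2,y2]),(z1,[y1,y1,z2,z0,y1,z1]),(z2,[z13,z13,z13,z6,z13,y13]),(z1,[y4,y4,y4,z0,y1,
    z4]),(z1,[y4,y7,y7,y3,y7,z7])],.ref k25 k0 [(z5,[z4,z15,z0,y4]),(z5,[y2,z0,z15,z2]),(z5,[z13,z0,z0,z2]),(z5,[y8,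
    z0,z0,z8,z15]),(z5,[y8,y15,y15,y7,y15,z15])],.ref k25 k0 [(z2,[y1,z5,y1,y1,z1,z1]),(z4,[z1,z1,z13,z1,y1,y1]),(z8,
    [y13,y13,y13,z11,z13,z13]),(z1,[z1,z1,z1,z1,z2,y1]),(z1,[z1,y2,y2,y2,y4,z2])],.ref k25 k0 [(z5,[y4,z15,z0,z0,z8]),
    (z5,[z2,z0,z15,z0,y4]),(z5,[y13,z0,z0,z15,z26]),(z5,[z8,z0,z0,z0,y1]),(z5,[z8,y15,y15,y15,y31,z15])],
    .ref k25 k0 [(z2,[y1,z4,y2,y2,y1,z2]),(z4,[z1,z2,z14,z2,z1,y2]),(z8,[y13,y26,y26,y2,y13,z26]),(z1,[z1,z2,z2,z2,z4,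
    y2]),(z1,[z1,y1,y1,y1,y2,z1])],.ref k25 k0 [(z5,[y4,z11,y4,y4,z0,z4]),(z5,[z2,z2,z17,z2,z0,y2]),(z5,[y13,y13,y13,
    z2,z0,z13]),(z5,[z8,z8,z8,z8,z15,y8]),(z5,[z8,y7,y7,y7,y15,z7])],.ref k25 k0 [(z1,[y2,z3,z0,z0,z2]),(z1,[z1,z0,z3,
    z0,y1]),(z2,[y13,z0,z0,z6,z13]),(z1,[z4,z0,z0,z0,y1]),(z1,[z4,y3,y3,y3,y7,z3])],.ref k25 k0 [(z1,[y2,z1,y2,y2,y2,
    z2]),(z1,[z1,z1,z4,z1,z1,y1]),(z2,[y13,y13,y13,y7,y13,z13]),(z1,[z4,z4,z4,z4,z7,y4]),(z1,[z4,z1,z1,z1,z1,y1])],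
    .ref k25 k0 [(z1,[z4,z3]),(z1,[y2,z0,z3]),(z1,[z13,z0,z0,z3]),(z1,[y8,z0,z0,z0,z3]),(z1,[y8,y3,y3,y3,y3,z3])]],
    .base (.leafM k3 [k0,k1,k2,k3,k4,k5] [(z1,[y1,z0,y1,z0,z1])] []),
    .base (.leafM k3 [k3,k4,k5,k0,k1,k2] [(z1,[z0,z0,y1,y1,z1])] []),
    .base (.leafM k3 [k4,k5,k0,k1,k2,k3] [(z1,[z0,z1,z1])] []),
    .base (.leafM k3 [k2,k3,k4,k5,k0,k1] [(z1,[z1,z0,z0,z1])] []),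
    .base (.leafM k1 [k0,k1,k2,k3,k4,k5] [(z1,[z0,z1,z0,z1]),(z1,[z0,y1,z0,y1,z1])] []),
    .lp k0 [(nat_lit 652),(nat_lit 654),(nat_lit 700),(nat_lit 592),(nat_lit 666),(nat_lit 572)] [k24,k24,k23,k23,k0,
    k0,k54,k54,k17,k17,k64,k64] k0 [[k0,k0,k14,k6,k0,k0,k0,k0,k0,k64,k64,k0],[k0,k0,k0,k0,k38,k22,k46,k14,k0,k0,k0,
    k0],[k0,k6,k0,k8,k24,k0,k20,k0,k0,k22,k0,k0],[k0,k14,k0,k0,k4,k0,k0,k0,k0,k58,k58,k14],[k22,k0,k0,k0,k0,k60,k84,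
    k0,k0,k0,k0,k98],[k38,k0,k4,k24,k0,k0,k12,k0,k0,k38,k0,k0],[k14,k0,k0,k0,k0,k0,k0,k0,k102,k102,k0,k90],[k46,k0,k0,
    k20,k12,k84,k0,k0,k0,k0,k0,k86],[k0,k64,k58,k22,k38,k0,k0,k102,k0,k0,k0,k0],[k0,k0,k0,k0,k0,k0,k0,k102,k0,k0,k16,
    k0],[k0,k0,k14,k0,k0,k98,k86,k90,k0,k0,k0,k0],[k0,k64,k58,k0,k0,k0,k0,k0,k16,k0,k0,k0]] (nat_lit 1920) k5
    [[(k0,(nat_lit 588)),(k11,(nat_lit 596)),(k10,(nat_lit 612)),(k5,(nat_lit 618)),(k1,(nat_lit 652)),(k3,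
    (nat_lit 653)),(k8,(nat_lit 659)),(k2,(nat_lit 667)),(k4,(nat_lit 676)),(k6,(nat_lit 708)),(k7,(nat_lit 720)),(k9,
    (nat_lit 749))],[(k1,(nat_lit 588)),(k8,(nat_lit 595)),(k10,(nat_lit 612)),(k11,(nat_lit 612)),(k7,(nat_lit 644)),
    (k2,(nat_lit 647)),(k0,(nat_lit 652)),(k3,(nat_lit 653)),(k5,(nat_lit 662)),(k6,(nat_lit 668)),(k9,(nat_lit 673)),
    (k4,(nat_lit 714))],[(k7,(nat_lit 585)),(k6,(nat_lit 609)),(k9,(nat_lit 614)),(k0,(nat_lit 653)),(k1,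
    (nat_lit 653)),(k3,(nat_lit 654)),(k4,(nat_lit 655)),(k8,(nat_lit 660)),(k2,(nat_lit 668)),(k10,(nat_lit 677)),
    (k11,(nat_lit 677)),(k5,(nat_lit 683))],[(k7,(nat_lit 599)),(k6,(nat_lit 623)),(k8,(nat_lit 638)),(k9,
    (nat_lit 640)),(k2,(nat_lit 646)),(k0,(nat_lit 647)),(k1,(nat_lit 667)),(k3,(nat_lit 668)),(k10,(nat_lit 671)),
    (k11,(nat_lit 671)),(k5,(nat_lit 677)),(k4,(nat_lit 681))],[(k1,(nat_lit 618)),(k10,(nat_lit 622)),(k8,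
    (nat_lit 625)),(k7,(nat_lit 642)),(k11,(nat_lit 658)),(k0,(nat_lit 662)),(k6,(nat_lit 666)),(k2,(nat_lit 677)),
    (k3,(nat_lit 683)),(k9,(nat_lit 683)),(k5,(nat_lit 708)),(k4,(nat_lit 724))],[(k10,(nat_lit 538)),(k9,
    (nat_lit 599)),(k4,(nat_lit 640)),(k7,(nat_lit 646)),(k3,(nat_lit 655)),(k6,(nat_lit 658)),(k11,(nat_lit 674)),
    (k1,(nat_lit 676)),(k2,(nat_lit 681)),(k8,(nat_lit 683)),(k0,(nat_lit 714)),(k5,(nat_lit 724))],[(k10,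
    (nat_lit 582)),(k11,(nat_lit 582)),(k3,(nat_lit 585)),(k8,(nat_lit 591)),(k2,(nat_lit 599)),(k9,(nat_lit 617)),
    (k5,(nat_lit 642)),(k0,(nat_lit 644)),(k4,(nat_lit 646)),(k7,(nat_lit 652)),(k6,(nat_lit 676)),(k1,
    (nat_lit 720))],[(k11,(nat_lit 480)),(k10,(nat_lit 492)),(k8,(nat_lit 527)),(k6,(nat_lit 592)),(k3,(nat_lit 609)),
    (k2,(nat_lit 623)),(k9,(nat_lit 629)),(k4,(nat_lit 658)),(k5,(nat_lit 666)),(k0,(nat_lit 668)),(k7,(nat_lit 676)),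
    (k1,(nat_lit 708))],[(k10,(nat_lit 533)),(k4,(nat_lit 599)),(k3,(nat_lit 614)),(k7,(nat_lit 617)),(k6,
    (nat_lit 629)),(k2,(nat_lit 640)),(k9,(nat_lit 666)),(k0,(nat_lit 673)),(k5,(nat_lit 683)),(k11,(nat_lit 721)),
    (k1,(nat_lit 749)),(k8,(nat_lit 768))],[(k6,(nat_lit 527)),(k7,(nat_lit 591)),(k0,(nat_lit 595)),(k11,
    (nat_lit 619)),(k5,(nat_lit 625)),(k10,(nat_lit 635)),(k2,(nat_lit 638)),(k1,(nat_lit 659)),(k3,(nat_lit 660)),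
    (k8,(nat_lit 666)),(k4,(nat_lit 683)),(k9,(nat_lit 768))],[(k6,(nat_lit 480)),(k10,(nat_lit 572)),(k11,
    (nat_lit 572)),(k7,(nat_lit 582)),(k1,(nat_lit 596)),(k0,(nat_lit 612)),(k8,(nat_lit 619)),(k5,(nat_lit 658)),(k2,
    (nat_lit 671)),(k4,(nat_lit 674)),(k3,(nat_lit 677)),(k9,(nat_lit 721))],[(k6,(nat_lit 492)),(k9,(nat_lit 533)),
    (k4,(nat_lit 538)),(k10,(nat_lit 572)),(k11,(nat_lit 572)),(k7,(nat_lit 582)),(k0,(nat_lit 612)),(k1,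
    (nat_lit 612)),(k5,(nat_lit 622)),(k8,(nat_lit 635)),(k2,(nat_lit 671)),(k3,(nat_lit 677))]]
    [[k3,k0,k0,k0,k0,k0],[k2,k1,k0,k0,k0,k0],[k2,k0,k0,k0,k0,k1],[k1,k1,k0,k0,k1,k0],[k1,k0,k1,k0,k0,k1],[k1,k0,k1,k0,
    k1,k0],[k1,k0,k0,k1,k0,k1],[k1,k0,k0,k0,k1,k1],[k1,k0,k0,k0,k0,k2],[k0,k2,k0,k1,k0,k0],[k0,k1,k1,k0,k0,k1],[k0,k1,
    k0,k2,k0,k0],[k0,k1,k0,k1,k1,k0],[k0,k1,k0,k1,k0,k1],[k0,k1,k0,k0,k1,k1],[k0,k0,k1,k1,k1,k0],[k0,k0,k1,k1,k0,k1],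
    [k0,k0,k1,k2,k0,k0],[k0,k0,k1,k0,k1,k1],[k0,k0,k1,k0,k0,k2],[k0,k0,k0,k2,k1,k0],[k0,k0,k0,k2,k0,k1],[k0,k0,k0,k1,
    k2,k0],[k0,k0,k0,k1,k1,k1],[k0,k0,k0,k1,k0,k2],[k0,k0,k0,k0,k1,k2],[k0,k0,k0,k0,k0,k3]]
    [.ref k25 k0 [(z1,[z1]),(z2,[y1,z3,z6]),(z8,[y1,z3,z0,z12]),(z8,[z11,y33,z0,z0,z12]),(z2,[y4,z6,y6,y3,y3,z6])],
    .ref k25 k0 [(z1,[z2,y1,y2]),(z1,[y1,z2,z4]),(z4,[y1,z2,z1,z6]),(z4,[z11,y22,y11,z0,z6]),(z2,[y8,z10,z2,y3,y3,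
    z6])],.ref k25 k0 [(z3,[z4,z1]),(z3,[y2,z4,z9]),(z6,[y1,z2,z0,z9]),(z6,[z11,y22,z0,z0,z9]),(z6,[y16,z14,y18,y9,y9,
    z18])],.ref k25 k0 [(z1,[y2,z3,z0,y1,y1,z2]),(z2,[z2,z0,z6,z1,z1,y2]),(z8,[z2,z0,z0,z13,z1,y2]),(z8,[y22,z0,z0,
    y11,z1,z22]),(z2,[z8,y6,y6,z1,z1,y2])],.ref k25 k0 [(z3,[z8,z1,z0,y4]),(z3,[y4,z4,z9,z2]),(z3,[y1,z1,z0,z5]),(z6,
    [z22,y22,z0,y11,z9]),(z6,[y32,z14,y18,z7,y9,z18])],.ref k25 k0 [(z3,[y8,z9,y8,z0,y4,z8]),(z3,[z4,z0,z13,z0,z2,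
    y4]),(z6,[z2,z0,z2,z9,z1,y2]),(z3,[y11,z0,y11,z0,y1,z11]),(z6,[z32,y18,z14,y9,z7,y14])],.ref k25 k0 [(z7,[z8,z13,
    z0,z0,y4]),(z7,[y4,z4,z21,z0,z2]),(z14,[y2,z2,z0,z21,z1]),(z7,[z11,y11,z0,z0,z5]),(z14,[y32,y10,y42,y21,y5,z42])],
    .ref k25 k0 [(z1,[y4,z3,y4,y2,y2,z4]),(z1,[z2,z0,z5,z1,z1,y2]),(z4,[z2,z0,z2,z7,z1,y2]),(z4,[y22,z0,y22,y11,y5,
    z22]),(z2,[z16,y6,z10,z5,z5,y10])],.ref k25 k0 [(z1,[z2,z1]),(z1,[y1,z1,z3]),(z4,[y1,z1,z0,z6]),(z4,[z11,y11,z0,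
    z0,z6]),(z2,[y8,z2,y6,y3,y3,z6])],.ref k25 k0 [(z1,[z8,z3,y16,z0,y4]),(z1,[y4,z0,z11,z0,z2]),(z2,[y2,z0,z4,z3,
    z1]),(z1,[z11,z0,y22,z0,y4]),(z2,[y32,y6,z58,y3,z13,z6])],.ref k25 k0 [(z1,[y8,z3,z8,z4]),(z1,[z4,z0,y1,y2]),(z1,
    [z1,z0,y1,z1]),(z2,[y22,z0,z22,z11,z3]),(z2,[z32,y6,y38,y19,y3,z6])],.ref k25 k0 [(z3,[z4,z9,y4,z0,y4]),(z3,[y2,
    z0,z11,z0,z2]),(z6,[y1,z0,z1,z9,z1]),(z6,[z11,z0,y11,z0,y2]),(z6,[y16,y18,y2,y9,z7,z18])],.ref k25 k0 [(z3,[y8,z1,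
    z0,y4,z0,z8]),(z3,[z4,z4,z9,z2,z0,y4]),(z3,[z1,z1,z0,z5,z0,y1]),(z6,[y22,y22,z0,y11,z9,z22]),(z6,[z32,z14,y18,z7,
    y9,y14])],.ref k25 k0 [(z3,[z8,z9,y8,z0,y4]),(z3,[y4,z0,z13,z0,z2]),(z6,[y2,z0,z2,z9,z1]),(z3,[z11,z0,y11,z0,y1]),
    (z6,[y32,y18,z14,y9,z7,z18])],.ref k25 k0 [(z3,[y4,z5,z0,y2,y2,z4]),(z3,[z2,z2,z9,z1,z1,y2]),(z12,[z2,z2,z0,z19,
    z1,y2]),(z12,[y22,y22,z0,y11,z7,z22]),(z6,[z16,y2,y18,y1,y1,z2])],.ref k25 k0 [(z1,[y4,y1,y4,z0,z0,z4]),(z1,[z2,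
    z2,z5,z0,z0,y2]),(z2,[z1,z1,z1,z3,z0,y1]),(z2,[y11,y11,y11,z0,z3,z11]),(z2,[z16,z10,z10,y3,y3,y10])],
    .ref k25 k0 [(z1,[z2,z3,z0,y1,y1]),(z2,[y2,z0,z6,z1,z1]),(z8,[y2,z0,z0,z13,z1]),(z8,[z22,z0,z0,y11,z1]),(z2,[y8,
    y6,y6,z1,z1,z6])],.ref k25 k0 [(z7,[z8,z21,z0,y4,y8]),(z7,[y4,z0,z21,z2,z4]),(z7,[y1,z0,z0,z11,z1]),(z14,[z22,z0,
    z0,y11,y1]),(z14,[y32,y42,y42,y5,z11,z42])],.ref k25 k0 [(z5,[y8,z7,y8,z0,y4,z8]),(z5,[z4,z4,z19,z0,z2,y4]),(z10,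
    [z2,z2,z2,z15,z1,y2]),(z5,[y11,y11,y11,z0,z2,z11]),(z10,[z32,z2,z2,y15,z1,y2])],.ref k25 k0 [(z1,[z8,z3,z0,y4]),
    (z1,[y4,z0,z3,z2]),(z1,[y1,z0,z0,z2]),(z2,[z22,z0,z0,y11,z3]),(z2,[y32,y6,y6,z13,y3,z6])],.ref k25 k0 [(z1,[z4,z7,
    z4,z2,y2,y4]),(z1,[y2,y2,z1,y1,z1,z2]),(z4,[y2,y2,y2,z5,z1,z2]),(z4,[z22,z22,z22,z11,y5,y22]),(z2,[y16,y22,y22,
    y11,z5,z22])],.ref k25 k0 [(z1,[z1,z3,z0,z0,y1]),(z2,[y1,z0,z6,z0,z1]),(z8,[y1,z0,z0,z12,z1]),(z8,[z11,z0,z0,z0,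
    z1]),(z2,[y4,y6,y6,y3,z1,z6])],.ref k25 k0 [(z7,[y8,z5,y16,y8,y4,z16]),(z7,[z4,z8,z29,z4,z2,y8]),(z14,[z2,z4,z4,
    z23,z1,y4]),(z7,[y11,y22,y22,y11,z5,z22]),(z14,[z32,z22,z22,z11,y5,y22])],.ref k25 k0 [(z1,[y8,y5,y8,y4,z0,z8]),
    (z1,[z4,z4,z7,z2,z0,y4]),(z1,[z1,z1,z1,z2,z0,y1]),(z2,[y22,y22,y22,y11,z3,z22]),(z2,[z32,z26,z26,z13,y3,y26])],
    .ref k25 k0 [(z5,[z8,z15,z0,z0,y4]),(z5,[y4,z0,z15,z0,z2]),(z10,[y2,z0,z0,z15,z1]),(z5,[z11,z0,z0,z0,z2]),(z10,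
    [y32,y30,y30,y15,z1,z30])],.ref k25 k0 [(z1,[y2,z1,y2,y1,y1,z2]),(z2,[z2,z2,z8,z1,z1,y2]),(z8,[z2,z2,z2,z13,z1,
    y2]),(z8,[y22,y22,y22,y11,z1,z22]),(z2,[z8,z2,z2,z1,z1,y2])],.ref k25 k0 [(z1,[z4,z3]),(z1,[y2,z0,z3]),(z2,[y1,z0,
    z0,z3]),(z2,[z11,z0,z0,z0,z3]),(z2,[y16,y6,y6,y3,y3,z6])]]]

theorem hB6_171_4 : blkB [0, 0, 0, 0, 0, 0] [] sp6 hS6_171 (pcls (n := 6) [0, 0, 0, 0, 0, 0]) hD6_171 560 4 hN6_171_4 = true := by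
  decide +kernel

/-- nodes 60 to 71 -/
noncomputable def hN6_171_5 : List HM :=
  [.base (.leafM k0 [k2,k3,k4,k5,k0,k1] [(z1,[y1,y1,y1,z0,z1])] []),
    .lp k0 [(nat_lit 652),(nat_lit 654),(nat_lit 700),(nat_lit 592),(nat_lit 666),(nat_lit 572)] [k24,k24,k23,k23,k0,
    k0,k54,k54,k17,k17,k64,k64] k0 [[k0,k0,k14,k6,k0,k0,k0,k0,k0,k64,k64,k0],[k0,k0,k0,k0,k38,k22,k46,k14,k0,k0,k0,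
    k0],[k0,k6,k0,k8,k24,k0,k20,k0,k0,k22,k0,k0],[k0,k14,k0,k0,k4,k0,k0,k0,k0,k58,k58,k14],[k22,k0,k0,k0,k0,k60,k84,
    k0,k0,k0,k0,k98],[k38,k0,k4,k24,k0,k0,k12,k0,k0,k38,k0,k0],[k14,k0,k0,k0,k0,k0,k0,k0,k102,k102,k0,k90],[k46,k0,k0,
    k20,k12,k84,k0,k0,k0,k0,k0,k86],[k0,k64,k58,k22,k38,k0,k0,k102,k0,k0,k0,k0],[k0,k0,k0,k0,k0,k0,k0,k102,k0,k0,k16,
    k0],[k0,k0,k14,k0,k0,k98,k86,k90,k0,k0,k0,k0],[k0,k64,k58,k0,k0,k0,k0,k0,k16,k0,k0,k0]] (nat_lit 1920) k5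
    [[(k0,(nat_lit 588)),(k11,(nat_lit 596)),(k10,(nat_lit 612)),(k5,(nat_lit 618)),(k1,(nat_lit 652)),(k3,
    (nat_lit 653)),(k8,(nat_lit 659)),(k2,(nat_lit 667)),(k4,(nat_lit 676)),(k6,(nat_lit 708)),(k7,(nat_lit 720)),(k9,
    (nat_lit 749))],[(k1,(nat_lit 588)),(k8,(nat_lit 595)),(k10,(nat_lit 612)),(k11,(nat_lit 612)),(k7,(nat_lit 644)),
    (k2,(nat_lit 647)),(k0,(nat_lit 652)),(k3,(nat_lit 653)),(k5,(nat_lit 662)),(k6,(nat_lit 668)),(k9,(nat_lit 673)),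
    (k4,(nat_lit 714))],[(k7,(nat_lit 585)),(k6,(nat_lit 609)),(k9,(nat_lit 614)),(k0,(nat_lit 653)),(k1,
    (nat_lit 653)),(k3,(nat_lit 654)),(k4,(nat_lit 655)),(k8,(nat_lit 660)),(k2,(nat_lit 668)),(k10,(nat_lit 677)),
    (k11,(nat_lit 677)),(k5,(nat_lit 683))],[(k7,(nat_lit 599)),(k6,(nat_lit 623)),(k8,(nat_lit 638)),(k9,
    (nat_lit 640)),(k2,(nat_lit 646)),(k0,(nat_lit 647)),(k1,(nat_lit 667)),(k3,(nat_lit 668)),(k10,(nat_lit 671)),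
    (k11,(nat_lit 671)),(k5,(nat_lit 677)),(k4,(nat_lit 681))],[(k1,(nat_lit 618)),(k10,(nat_lit 622)),(k8,
    (nat_lit 625)),(k7,(nat_lit 642)),(k11,(nat_lit 658)),(k0,(nat_lit 662)),(k6,(nat_lit 666)),(k2,(nat_lit 677)),
    (k3,(nat_lit 683)),(k9,(nat_lit 683)),(k5,(nat_lit 708)),(k4,(nat_lit 724))],[(k10,(nat_lit 538)),(k9,
    (nat_lit 599)),(k4,(nat_lit 640)),(k7,(nat_lit 646)),(k3,(nat_lit 655)),(k6,(nat_lit 658)),(k11,(nat_lit 674)),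
    (k1,(nat_lit 676)),(k2,(nat_lit 681)),(k8,(nat_lit 683)),(k0,(nat_lit 714)),(k5,(nat_lit 724))],[(k10,
    (nat_lit 582)),(k11,(nat_lit 582)),(k3,(nat_lit 585)),(k8,(nat_lit 591)),(k2,(nat_lit 599)),(k9,(nat_lit 617)),
    (k5,(nat_lit 642)),(k0,(nat_lit 644)),(k4,(nat_lit 646)),(k7,(nat_lit 652)),(k6,(nat_lit 676)),(k1,
    (nat_lit 720))],[(k11,(nat_lit 480)),(k10,(nat_lit 492)),(k8,(nat_lit 527)),(k6,(nat_lit 592)),(k3,(nat_lit 609)),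
    (k2,(nat_lit 623)),(k9,(nat_lit 629)),(k4,(nat_lit 658)),(k5,(nat_lit 666)),(k0,(nat_lit 668)),(k7,(nat_lit 676)),
    (k1,(nat_lit 708))],[(k10,(nat_lit 533)),(k4,(nat_lit 599)),(k3,(nat_lit 614)),(k7,(nat_lit 617)),(k6,
    (nat_lit 629)),(k2,(nat_lit 640)),(k9,(nat_lit 666)),(k0,(nat_lit 673)),(k5,(nat_lit 683)),(k11,(nat_lit 721)),
    (k1,(nat_lit 749)),(k8,(nat_lit 768))],[(k6,(nat_lit 527)),(k7,(nat_lit 591)),(k0,(nat_lit 595)),(k11,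
    (nat_lit 619)),(k5,(nat_lit 625)),(k10,(nat_lit 635)),(k2,(nat_lit 638)),(k1,(nat_lit 659)),(k3,(nat_lit 660)),
    (k8,(nat_lit 666)),(k4,(nat_lit 683)),(k9,(nat_lit 768))],[(k6,(nat_lit 480)),(k10,(nat_lit 572)),(k11,
    (nat_lit 572)),(k7,(nat_lit 582)),(k1,(nat_lit 596)),(k0,(nat_lit 612)),(k8,(nat_lit 619)),(k5,(nat_lit 658)),(k2,
    (nat_lit 671)),(k4,(nat_lit 674)),(k3,(nat_lit 677)),(k9,(nat_lit 721))],[(k6,(nat_lit 492)),(k9,(nat_lit 533)),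
    (k4,(nat_lit 538)),(k10,(nat_lit 572)),(k11,(nat_lit 572)),(k7,(nat_lit 582)),(k0,(nat_lit 612)),(k1,
    (nat_lit 612)),(k5,(nat_lit 622)),(k8,(nat_lit 635)),(k2,(nat_lit 671)),(k3,(nat_lit 677))]]
    [[k3,k0,k0,k0,k0,k0],[k2,k1,k0,k0,k0,k0],[k2,k0,k0,k0,k0,k1],[k1,k1,k0,k0,k1,k0],[k1,k0,k1,k0,k0,k1],[k1,k0,k1,k0,
    k1,k0],[k1,k0,k0,k1,k0,k1],[k1,k0,k0,k0,k1,k1],[k1,k0,k0,k0,k0,k2],[k0,k2,k0,k1,k0,k0],[k0,k1,k1,k0,k0,k1],[k0,k1,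
    k0,k2,k0,k0],[k0,k1,k0,k1,k1,k0],[k0,k1,k0,k1,k0,k1],[k0,k1,k0,k0,k1,k1],[k0,k0,k1,k1,k1,k0],[k0,k0,k1,k1,k0,k1],
    [k0,k0,k1,k2,k0,k0],[k0,k0,k1,k0,k1,k1],[k0,k0,k1,k0,k0,k2],[k0,k0,k0,k2,k1,k0],[k0,k0,k0,k2,k0,k1],[k0,k0,k0,k1,
    k2,k0],[k0,k0,k0,k1,k1,k1],[k0,k0,k0,k1,k0,k2],[k0,k0,k0,k0,k1,k2],[k0,k0,k0,k0,k0,k3]]
    [.ref k25 k0 [(z1,[z1]),(z2,[y1,z3,z6]),(z4,[z5,y15,z0,z4]),(z1,[z0,z0,z0,z0,z1]),(z1,[y2,z3,y3,y1,y1,z3])],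
    .ref k25 k0 [(z1,[z2,y1,y2]),(z1,[y1,z2,z4]),(z2,[z5,y10,y5,z2]),(z1,[z0,z0,z0,z0,z1]),(z1,[y4,z5,z1,y1,y1,z3])],
    .ref k25 k0 [(z3,[z4,z1]),(z3,[y2,z4,z9]),(z3,[z5,y10,z0,z3]),(z1,[z0,z0,z0,z0,z1]),(z3,[y8,z7,y9,y3,y3,z9])],
    .ref k25 k0 [(z3,[y6,z9,z0,y2,y2,z6]),(z3,[z3,z0,z9,z1,z1,y3]),(z6,[y15,z0,z0,z1,y5,z15]),(z1,[z0,z0,z0,z0,z1]),
    (z3,[z12,y9,y9,z1,z1,y3])],.ref k25 k0 [(z5,[z6,z9,z0,y2]),(z5,[y3,z3,z15,z1]),(z2,[z3,y3,z0,z1]),(z1,[z0,z0,z0,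
    z0,z1]),(z5,[y12,y3,y15,y1,y5,z15])],.ref k25 k0 [(z1,[z12,z3,z12,z0,z4,y12]),(z1,[y6,z0,y3,z0,y2,z6]),(z1,[z15,
    z0,z15,z1,z5,y15]),(z1,[z0,z0,z0,z0,z1]),(z1,[y24,y3,y27,y1,y9,z27])],.ref k25 k0 [(z5,[z12,z3,z0,z0,y4]),(z5,[y6,
    z6,z15,z0,z2]),(z1,[z3,y3,z0,z1,y1]),(z1,[z0,z0,z0,z0,z1]),(z5,[y24,z9,y15,y5,z3,z15])],.ref k25 k0 [(z3,[y12,z9,
    y12,y4,y4,z12]),(z3,[z6,z0,z15,z2,z2,y6]),(z3,[y15,z0,y15,y2,y5,z15]),(z1,[z0,z0,z0,z0,z1]),(z3,[z24,y9,z15,z5,z5,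
    y15])],.ref k25 k0 [(z1,[z2,z1]),(z1,[y1,z1,z3]),(z2,[z5,y5,z0,z2]),(z1,[z0,z0,z0,z0,z1]),(z1,[y4,z1,y3,y1,y1,
    z3])],.ref k25 k0 [(z1,[y3,z3,z6,z0,z1]),(z2,[z3,z0,z0,z0,y1]),(z4,[y15,z0,z30,z4,z5]),(z1,[z0,z0,z0,z0,z1]),(z1,
    [z6,y3,y15,y1,y3,z3])],.ref k25 k0 [(z1,[z3,z3,y3,y1]),(z2,[y3,z0,z9,z1]),(z4,[z15,z0,y15,y1]),(z1,[z0,z0,z0,z0,
    z1]),(z1,[y6,y3,z3,z1,y1,z3])],.ref k25 k0 [(z1,[y6,z3,z6,z0,z4]),(z1,[z3,z0,z0,z0,y2]),(z2,[y15,z0,z15,z2,z10]),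
    (z1,[z0,z0,z0,z0,z1]),(z1,[z12,y3,y15,y1,y9,z3])],.ref k25 k0 [(z5,[y6,z9,z0,y2,z0,z6]),(z5,[z3,z3,z15,z1,z0,y3]),
    (z2,[y3,y3,z0,z1,z0,z3]),(z1,[z0,z0,z0,z0,z1]),(z5,[z12,y3,y15,y1,y5,z3])],.ref k25 k0 [(z1,[y12,z3,z12,z0,z4]),
    (z1,[z6,z0,y3,z0,y2]),(z1,[y15,z0,z15,z1,z5]),(z1,[z0,z0,z0,z0,z1]),(z1,[z24,y3,y27,y1,y9,z3])],.ref k25 k0 [(z9,
    [y12,z15,z0,y4,y4,z12]),(z9,[z6,z6,z27,z2,z2,y6]),(z9,[y15,y15,z0,z4,y5,z15]),(z1,[z0,z0,z0,z0,z1]),(z9,[z24,y3,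
    y27,y1,y1,z3])],.ref k25 k0 [(z1,[y4,y1,y4,z0,z0,z4]),(z1,[z2,z2,z5,z0,z0,y2]),(z1,[y5,y5,y5,z1,z0,z5]),(z1,[z0,
    z0,z0,z0,z1]),(z1,[z8,z5,z5,y1,y1,y5])],.ref k25 k0 [(z3,[z6,z9,z0,y2,y2]),(z3,[y3,z0,z9,z1,z1]),(z6,[z15,z0,z0,
    z1,y5]),(z1,[z0,z0,z0,z0,z1]),(z3,[y12,y9,y9,z1,z1,z9])],.ref k25 k0 [(z5,[z12,z15,z0,y4,y8]),(z5,[y6,z0,z15,z2,
    z4]),(z1,[z3,z0,z0,z0,y2]),(z1,[z0,z0,z0,z0,z1]),(z5,[y24,y15,y15,z3,z11,z15])],.ref k25 k0 [(z1,[y6,y3,y6,z0,y2,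
    z6]),(z1,[z3,z3,z6,z0,z1,y3]),(z2,[y15,y15,y15,z2,y5,z15]),(z1,[z0,z0,z0,z0,z1]),(z1,[z12,z9,z9,y1,z3,y9])],
    .ref k25 k0 [(z7,[z12,z21,z0,y4]),(z7,[y6,z0,z21,z2]),(z7,[z15,z0,z0,z2]),(z1,[z0,z0,z0,z0,z1]),(z7,[y24,y21,y21,
    z1,y7,z21])],.ref k25 k0 [(z2,[y3,z3,y3,y1,z1,z3]),(z4,[z3,z3,z15,z1,y1,y3]),(z8,[y15,y15,y15,z3,z5,z15]),(z1,[z0,
    z0,z0,z0,z1]),(z1,[z3,z0,z0,z0,y2])],.ref k25 k0 [(z1,[z12,z3,z0,z0,y8]),(z1,[y6,z0,z3,z0,z4]),(z1,[z15,z0,z0,z1,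
    y10]),(z1,[z0,z0,z0,z0,z1]),(z1,[y24,y3,y3,y1,z15,z3])],.ref k25 k0 [(z4,[y3,z6,y6,y2,y1,z6]),(z8,[z3,z6,z30,z2,
    z1,y6]),(z16,[y15,y30,y30,z6,y5,z30]),(z1,[z0,z0,z0,z0,z1]),(z2,[z3,z0,z0,z0,y1])],.ref k25 k0 [(z7,[y12,z9,y12,
    y4,z0,z12]),(z7,[z6,z6,z27,z2,z0,y6]),(z7,[y15,y15,y15,z2,z0,z15]),(z1,[z0,z0,z0,z0,z1]),(z7,[z24,z3,z3,z1,y7,
    y3])],.ref k25 k0 [(z1,[z6,z3,z0,z0,y2]),(z1,[y3,z0,z3,z0,z1]),(z2,[z15,z0,z0,z2,y5]),(z1,[z0,z0,z0,z0,z1]),(z1,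
    [y12,y3,y3,y1,z3,z3])],.ref k25 k0 [(z3,[y6,z3,y6,y2,y2,z6]),(z3,[z3,z3,z12,z1,z1,y3]),(z6,[y15,y15,y15,z1,y5,
    z15]),(z1,[z0,z0,z0,z0,z1]),(z3,[z12,z3,z3,z1,z1,y3])],.ref k25 k0 [(z1,[z4,z3]),(z1,[y2,z0,z3]),(z1,[z5,z0,z0,
    z1]),(z1,[z0,z0,z0,z0,z1]),(z1,[y8,y3,y3,y1,y1,z3])]],
    .lp k0 [k82,k84,k80,k80,k78,k74] [k1,k1,k0,k0,k2,k2,k2,k2,k3,k3,k5,k5] k0 [[k0,k0,k0,k0,k0,k0,k0,k0,k0,k6,k6,k2],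
    [k0,k0,k0,k0,k4,k0,k0,k4,k0,k0,k0,k0],[k0,k0,k0,k0,k4,k0,k0,k4,k0,k0,k0,k0],[k0,k0,k0,k0,k0,k0,k0,k0,k0,k2,k2,k2],
    [k0,k0,k0,k0,k0,k0,k0,k0,k0,k0,k0,k12],[k4,k0,k0,k4,k0,k0,k0,k0,k6,k0,k0,k2],[k4,k0,k0,k4,k0,k0,k0,k0,k16,k16,k0,
    k16],[k0,k0,k0,k0,k0,k0,k0,k0,k0,k0,k0,k6],[k0,k6,k2,k0,k0,k0,k0,k16,k0,k0,k0,k0],[k0,k0,k0,k0,k6,k0,k0,k16,k0,k0,
    k10,k0],[k0,k2,k2,k0,k2,k12,k6,k16,k0,k0,k0,k0],[k0,k6,k2,k0,k0,k0,k0,k0,k10,k0,k0,k0]] (nat_lit 240) k5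
    [[(k11,k68),(k0,k76),(k10,k78),(k5,k79),(k8,k80),(k1,k82),(k4,k83),(k2,k85),(k3,k85),(k6,k87),(k7,k93),(k9,k96)],
    [(k8,k74),(k1,k76),(k10,k76),(k11,k78),(k5,k81),(k6,k81),(k7,k81),(k0,k82),(k2,k83),(k3,k83),(k9,k84),(k4,k85)],
    [(k6,k78),(k7,k78),(k8,k81),(k9,k81),(k4,k82),(k5,k82),(k0,k83),(k2,k84),(k3,k84),(k1,k85),(k10,k85),(k11,k85)],
    [(k6,k78),(k7,k78),(k8,k81),(k9,k81),(k10,k81),(k11,k81),(k4,k82),(k5,k82),(k0,k83),(k2,k84),(k3,k84),(k1,k85)],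
    [(k10,k75),(k8,k77),(k11,k77),(k1,k79),(k5,k80),(k6,k80),(k7,k80),(k0,k81),(k2,k82),(k3,k82),(k9,k83),(k4,k84)],
    [(k10,k65),(k11,k77),(k9,k79),(k4,k80),(k6,k80),(k7,k80),(k2,k82),(k3,k82),(k1,k83),(k5,k84),(k0,k85),(k8,k85)],
    [(k11,k71),(k10,k75),(k2,k78),(k3,k78),(k8,k79),(k9,k79),(k4,k80),(k5,k80),(k6,k80),(k7,k80),(k0,k81),(k1,k93)],
    [(k10,k61),(k11,k61),(k8,k63),(k2,k78),(k3,k78),(k9,k79),(k4,k80),(k5,k80),(k6,k80),(k7,k80),(k0,k81),(k1,k87)],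
    [(k10,k70),(k9,k78),(k4,k79),(k6,k79),(k7,k79),(k2,k81),(k3,k81),(k5,k83),(k0,k84),(k11,k92),(k8,k94),(k1,k96)],
    [(k6,k63),(k0,k74),(k11,k76),(k5,k77),(k8,k78),(k7,k79),(k1,k80),(k2,k81),(k3,k81),(k4,k85),(k10,k86),(k9,k94)],
    [(k6,k61),(k1,k68),(k7,k71),(k10,k74),(k11,k74),(k8,k76),(k4,k77),(k5,k77),(k0,k78),(k2,k81),(k3,k85),(k9,k92)],
    [(k6,k61),(k4,k65),(k9,k70),(k10,k74),(k11,k74),(k5,k75),(k7,k75),(k0,k76),(k1,k78),(k2,k81),(k3,k85),(k8,k86)]]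
    [[k3,k0,k0,k0,k0,k0],[k2,k0,k0,k0,k0,k1],[k1,k0,k1,k0,k0,k1],[k1,k0,k1,k0,k1,k0],[k1,k0,k0,k1,k0,k1],[k1,k0,k0,k0,
    k2,k0],[k1,k0,k0,k0,k1,k1],[k1,k0,k0,k0,k0,k2],[k1,k1,k0,k0,k0,k1],[k0,k1,k1,k0,k0,k1],[k0,k1,k0,k2,k0,k0],[k0,k1,
    k0,k1,k1,k0],[k0,k1,k0,k1,k0,k1],[k0,k1,k0,k0,k1,k1],[k0,k0,k2,k0,k0,k1],[k0,k0,k1,k1,k1,k0],[k0,k0,k1,k1,k0,k1],
    [k0,k0,k1,k0,k1,k1],[k0,k0,k1,k0,k0,k2],[k0,k0,k0,k2,k1,k0],[k0,k0,k0,k2,k0,k1],[k0,k0,k0,k1,k2,k0],[k0,k0,k0,k1,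
    k1,k1],[k0,k0,k0,k1,k0,k2],[k0,k0,k0,k0,k1,k2],[k0,k0,k0,k0,k0,k3]]
    [.ref k25 k0 [(z1,[z1]),(z8,[y1,z3,z24]),(z2,[y1,z3,z0,z6]),(z4,[z1,y3,z0,z0,z12]),(z16,[y11,y15,y48,y48,y48,
    z48])],.ref k25 k0 [(z11,[z16,z1]),(z11,[y2,z4,z33]),(z11,[y8,z16,z0,z33]),(z11,[z4,y8,z0,z0,z33]),(z1,[y1,y1,y3,
    y3,y3,z3])],.ref k25 k0 [(z3,[z16,y7,z0,y16]),(z3,[y2,z2,z9,z2]),(z3,[y8,z8,z0,z17]),(z3,[z4,y4,z0,y4,z9]),(z3,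
    [y11,z2,y9,z2,y9,z9])],.ref k25 k0 [(z1,[y16,z3,y16,z0,y16,z16]),(z1,[z2,z0,z5,z0,z2,y2]),(z1,[z8,z0,z8,z3,z8,
    y8]),(z1,[y4,z0,y4,z0,y1,z4]),(z1,[z11,y3,z8,y3,z8,y8])],.ref k25 k0 [(z7,[z16,z5,z0,z0,y16]),(z7,[y2,z2,z21,z0,
    z2]),(z7,[y8,z8,z0,z21,z8]),(z7,[z4,y4,z0,z0,z17]),(z7,[y11,y10,y21,y21,y10,z21])],.ref k25 k0 [(z1,[y8,y5,y16,
    y16,y16,z16]),(z1,[z1,z1,z5,z2,z2,y2]),(z1,[z4,z4,z8,z11,z8,y8]),(z1,[y2,y2,y4,y4,y1,z4]),(z2,[z11,z5,z16,z16,z16,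
    y16])],.ref k25 k0 [(z1,[z8,z3,z8,z8,z8,y8]),(z1,[y1,z0,z2,y1,y1,z1]),(z1,[y4,z0,y4,y1,y4,z4]),(z1,[z2,z0,z2,z2,
    z5,y2]),(z2,[y11,y6,y17,y17,y17,z17])],.ref k25 k0 [(z3,[z8,z1]),(z3,[y1,z1,z9]),(z3,[y4,z4,z0,z9]),(z3,[z2,y2,z0,
    z0,z9]),(z6,[y11,y7,y18,y18,y18,z18])],.ref k25 k0 [(z5,[z16,y1,y16]),(z5,[y2,z2,z17]),(z5,[y8,z8,z8,z15]),(z5,
    [z4,y4,y4,z0,z15]),(z5,[y11,y4,y4,y15,y15,z15])],.ref k25 k0 [(z3,[y16,z9,z16,z16]),(z3,[z2,z0,z7,y2]),(z3,[z8,z0,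
    y8,z1]),(z3,[y4,z0,z4,z4,z9]),(z3,[z11,y9,y20,y20,y9,z9])],.ref k25 k0 [(z1,[z8,z3,y8,z0,y16]),(z1,[y1,z0,z4,z0,
    z2]),(z1,[y4,z0,z4,z3,z8]),(z1,[z2,z0,y2,z0,y1]),(z2,[y11,y6,z5,y6,z16,z6])],.ref k25 k0 [(z3,[y16,y7,z0,y16,z0,
    z16]),(z3,[z2,z2,z9,z2,z0,y2]),(z3,[z8,z8,z0,z17,z0,y8]),(z3,[y4,y4,z0,y4,z9,z4]),(z3,[z11,z2,y9,z2,y9,y2])],
    .ref k25 k0 [(z1,[z16,z3,y16,z0,y16]),(z1,[y2,z0,z5,z0,z2]),(z1,[y8,z0,z8,z3,z8]),(z1,[z4,z0,y4,z0,y1]),(z1,[y11,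
    y3,z8,y3,z8,z3])],.ref k25 k0 [(z1,[y4,y1,z0,y4,y4,z4]),(z2,[z1,z1,z6,z1,z1,y1]),(z1,[z2,z2,z0,z5,z2,y2]),(z1,[y1,
    y1,z0,y1,z2,z1]),(z4,[z11,y1,y12,y1,y1,z1])],.ref k25 k0 [(z5,[y16,z15,z0,z32]),(z5,[z2,z0,z15,y4]),(z5,[z8,z0,z0,
    y1]),(z5,[y4,z0,z0,z8,z15]),(z5,[z11,y15,y15,y37,y15,z15])],.ref k25 k0 [(z5,[y16,y1,y16,z0,z0,z16]),(z5,[z2,z2,
    z17,z0,z0,y2]),(z5,[z8,z8,z8,z15,z0,y8]),(z5,[y4,y4,y4,z0,z15,z4]),(z5,[z11,y4,y4,y15,y15,z4])],.ref k25 k0 [(z1,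
    [y16,z3,z0,z16,z16]),(z1,[z2,z0,z3,y2,y2]),(z1,[z8,z0,z0,y5,y8]),(z1,[y4,z0,z0,z4,z7]),(z1,[z11,y3,y3,y14,y14,
    z3])],.ref k25 k0 [(z3,[y8,z1,y8,z0,y8,z8]),(z3,[z1,z1,z10,z0,z1,y1]),(z3,[z4,z4,z4,z9,z4,y4]),(z3,[y2,y2,y2,z0,
    z7,z2]),(z6,[z11,y7,y7,y18,y7,z7])],.ref k25 k0 [(z1,[y8,z3,z0,z8]),(z1,[z1,z0,z3,y1]),(z1,[z4,z0,z0,y1]),(z1,[y2,
    z0,z0,z2,z3]),(z2,[z11,y6,y6,y17,y6,z6])],.ref k25 k0 [(z1,[y16,y13,y16,y16,z16,z16]),(z1,[z2,z2,z5,z2,y2,y2]),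
    (z1,[z8,z8,z8,z11,y8,y8]),(z1,[y4,y4,y4,y4,z7,z4]),(z1,[z11,z8,z8,z8,y14,y8])],.ref k25 k0 [(z3,[z16,z9,z0,z0,
    y32]),(z3,[y2,z0,z9,z0,z4]),(z3,[y8,z0,z0,z9,z16]),(z3,[z4,z0,z0,z0,z1]),(z3,[y11,y9,y9,y9,z13,z9])],
    .ref k25 k0 [(z3,[y8,y7,y16,y16,y8,z16]),(z3,[z1,z2,z11,z2,z1,y2]),(z3,[z4,z8,z8,z17,z4,y8]),(z3,[y2,y4,y4,y4,z7,
    z4]),(z6,[z11,z4,z4,z4,y7,y4])],.ref k25 k0 [(z1,[y8,y5,y8,y8,z0,z8]),(z1,[z1,z1,z4,z1,z0,y1]),(z1,[z4,z4,z4,z7,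
    z0,y4]),(z1,[y2,y2,y2,y2,z3,z2]),(z2,[z11,z5,z5,z5,y6,y5])],.ref k25 k0 [(z1,[z8,z3,z0,z0,y8]),(z1,[y1,z0,z3,z0,
    z1]),(z1,[y4,z0,z0,z3,z4]),(z1,[z2,z0,z0,z0,z1]),(z2,[y11,y6,y6,y6,z5,z6])],.ref k25 k0 [(z3,[y16,y7,y16,y16,y16,
    z16]),(z3,[z2,z2,z11,z2,z2,y2]),(z3,[z8,z8,z8,z17,z8,y8]),(z3,[y4,y4,y4,y4,z5,z4]),(z3,[z11,z2,z2,z2,z2,y2])],
    .ref k25 k0 [(z1,[z16,z3]),(z1,[y2,z0,z3]),(z1,[y8,z0,z0,z3]),(z1,[z4,z0,z0,z0,z3]),(z1,[y11,y3,y3,y3,y3,z3])]],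
    .lp k0 [(nat_lit 502),(nat_lit 508),(nat_lit 496),(nat_lit 442),(nat_lit 502),(nat_lit 424)] [k3,k3,k0,k0,k6,k6,
    k33,k33,k3,k3,k42,k42] k0 [[k0,k0,k0,k0,k0,k0,k0,k0,k0,k66,k66,k6],[k0,k0,k0,k12,k0,k12,k18,k0,k0,k0,k0,k0],[k12,
    k0,k0,k0,k0,k12,k12,k0,k0,k6,k0,k0],[k0,k0,k0,k0,k0,k6,k0,k0,k0,k36,k18,k12],[k12,k0,k6,k12,k0,k0,k0,k0,k6,k0,k0,
    k0],[k0,k0,k0,k0,k0,k0,k6,k24,k0,k0,k0,k6],[k0,k0,k0,k0,k24,k0,k0,k0,k0,k0,k12,k66],[k18,k0,k0,k12,k6,k0,k0,k0,k0,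
    k0,k0,k0],[k0,k66,k36,k6,k0,k0,k0,k0,k0,k0,k0,k0],[k0,k0,k0,k0,k0,k6,k0,k0,k0,k0,k12,k0],[k0,k6,k12,k0,k6,k0,k0,
    k66,k0,k0,k0,k0],[k0,k66,k18,k0,k0,k0,k0,k12,k12,k0,k0,k0]] (nat_lit 1440) k5
    [[(k0,(nat_lit 436)),(k11,(nat_lit 451)),(k6,(nat_lit 460)),(k10,(nat_lit 463)),(k7,(nat_lit 472)),(k5,
    (nat_lit 481)),(k1,(nat_lit 502)),(k8,(nat_lit 502)),(k4,(nat_lit 505)),(k3,(nat_lit 511)),(k2,(nat_lit 517)),(k9,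
    (nat_lit 568))],[(k1,(nat_lit 436)),(k8,(nat_lit 436)),(k10,(nat_lit 457)),(k11,(nat_lit 463)),(k7,(nat_lit 484)),
    (k6,(nat_lit 490)),(k4,(nat_lit 499)),(k0,(nat_lit 502)),(k9,(nat_lit 502)),(k2,(nat_lit 505)),(k3,(nat_lit 505)),
    (k5,(nat_lit 511))],[(k6,(nat_lit 475)),(k7,(nat_lit 475)),(k9,(nat_lit 487)),(k4,(nat_lit 490)),(k2,
    (nat_lit 496)),(k5,(nat_lit 502)),(k0,(nat_lit 505)),(k8,(nat_lit 505)),(k3,(nat_lit 508)),(k1,(nat_lit 511)),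
    (k10,(nat_lit 532)),(k11,(nat_lit 532))],[(k6,(nat_lit 475)),(k7,(nat_lit 481)),(k10,(nat_lit 484)),(k4,
    (nat_lit 490)),(k9,(nat_lit 493)),(k3,(nat_lit 496)),(k8,(nat_lit 499)),(k5,(nat_lit 502)),(k11,(nat_lit 502)),
    (k0,(nat_lit 505)),(k2,(nat_lit 508)),(k1,(nat_lit 517))],[(k10,(nat_lit 448)),(k8,(nat_lit 463)),(k11,
    (nat_lit 466)),(k1,(nat_lit 481)),(k6,(nat_lit 481)),(k7,(nat_lit 481)),(k4,(nat_lit 490)),(k5,(nat_lit 496)),(k9,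
    (nat_lit 499)),(k2,(nat_lit 502)),(k3,(nat_lit 502)),(k0,(nat_lit 511))],[(k11,(nat_lit 454)),(k10,(nat_lit 460)),
    (k7,(nat_lit 469)),(k6,(nat_lit 475)),(k2,(nat_lit 490)),(k3,(nat_lit 490)),(k5,(nat_lit 490)),(k4,(nat_lit 496)),
    (k0,(nat_lit 499)),(k8,(nat_lit 499)),(k1,(nat_lit 505)),(k9,(nat_lit 523))],[(k6,(nat_lit 418)),(k10,
    (nat_lit 427)),(k11,(nat_lit 433)),(k7,(nat_lit 442)),(k9,(nat_lit 466)),(k4,(nat_lit 469)),(k1,(nat_lit 472)),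
    (k3,(nat_lit 475)),(k8,(nat_lit 478)),(k2,(nat_lit 481)),(k5,(nat_lit 481)),(k0,(nat_lit 484))],[(k10,
    (nat_lit 367)),(k7,(nat_lit 418)),(k11,(nat_lit 433)),(k6,(nat_lit 442)),(k1,(nat_lit 460)),(k8,(nat_lit 472)),
    (k9,(nat_lit 472)),(k2,(nat_lit 475)),(k3,(nat_lit 475)),(k4,(nat_lit 475)),(k5,(nat_lit 481)),(k0,
    (nat_lit 490))],[(k11,(nat_lit 463)),(k7,(nat_lit 466)),(k6,(nat_lit 472)),(k10,(nat_lit 475)),(k3,(nat_lit 487)),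
    (k2,(nat_lit 493)),(k5,(nat_lit 499)),(k0,(nat_lit 502)),(k8,(nat_lit 502)),(k9,(nat_lit 502)),(k4,(nat_lit 523)),
    (k1,(nat_lit 568))],[(k0,(nat_lit 436)),(k5,(nat_lit 463)),(k11,(nat_lit 463)),(k6,(nat_lit 472)),(k10,
    (nat_lit 475)),(k7,(nat_lit 478)),(k2,(nat_lit 499)),(k4,(nat_lit 499)),(k1,(nat_lit 502)),(k8,(nat_lit 502)),(k9,
    (nat_lit 502)),(k3,(nat_lit 505))],[(k10,(nat_lit 424)),(k11,(nat_lit 424)),(k6,(nat_lit 433)),(k7,(nat_lit 433)),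
    (k1,(nat_lit 451)),(k4,(nat_lit 454)),(k0,(nat_lit 463)),(k8,(nat_lit 463)),(k9,(nat_lit 463)),(k5,(nat_lit 466)),
    (k2,(nat_lit 502)),(k3,(nat_lit 532))],[(k6,(nat_lit 367)),(k10,(nat_lit 424)),(k11,(nat_lit 424)),(k7,
    (nat_lit 427)),(k5,(nat_lit 448)),(k0,(nat_lit 457)),(k4,(nat_lit 460)),(k1,(nat_lit 463)),(k8,(nat_lit 475)),(k9,
    (nat_lit 475)),(k2,(nat_lit 484)),(k3,(nat_lit 532))]]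
    [[k3,k0,k0,k0,k0,k0],[k2,k0,k1,k0,k0,k0],[k2,k0,k0,k1,k0,k0],[k2,k0,k0,k0,k0,k1],[k1,k0,k1,k0,k0,k1],[k1,k0,k0,k2,
    k0,k0],[k1,k0,k0,k1,k1,k0],[k1,k0,k0,k1,k0,k1],[k1,k0,k0,k0,k1,k1],[k1,k0,k0,k0,k0,k2],[k0,k1,k0,k2,k0,k0],[k0,k1,
    k0,k1,k0,k1],[k0,k1,k0,k0,k1,k1],[k0,k0,k2,k0,k0,k1],[k0,k0,k1,k2,k0,k0],[k0,k0,k1,k1,k0,k1],[k0,k0,k1,k1,k1,k0],
    [k0,k0,k1,k0,k1,k1],[k0,k0,k1,k0,k0,k2],[k0,k0,k0,k3,k0,k0],[k0,k0,k0,k2,k1,k0],[k0,k0,k0,k2,k0,k1],[k0,k0,k0,k1,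
    k1,k1],[k0,k0,k0,k1,k0,k2],[k0,k0,k0,k0,k1,k2],[k0,k0,k0,k0,k0,k3]]
    [.ref k33 k5 [(z1,[y2,z3,y3,y3,z3]),(z4,[z1,y3]),(z1,[z1]),(z2,[y1,z3,z6])],.ref k52 k0 [(z1,[z0,z1]),(z1,[z0,z0,
    z1]),(z1,[z1,y2]),(z1,[y1,z2,z0,z1])],.ref k53 k0 [(z1,[z0,z1]),(z1,[z0,z0,z1]),(z1,[y1,z2,z0,z1]),(z1,[z1,y2])],
    .ref k33 k5 [(z3,[y8,z7,y9,y9,z9]),(z3,[z1,y2]),(z3,[z4,z1]),(z3,[y2,z4,z9])],.ref k54 k0 [(z1,[z0,z1]),(z1,[z0,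
    z0,z1]),(z1,[z1,y1]),(z1,[y1,z1,z0,z1])],.ref k55 k5 [(z1,[y2,z1,y1,y1,z1]),(z2,[z1,y1]),(z1,[z1]),(z2,[y1,z1,
    z2])],.ref k56 k0 [(z1,[z0,z1]),(z1,[z0,z0,z1]),(z1,[y1,z0,y1,z0,z1]),(z1,[z1,z0,z1,z1,y1])],.ref k57 k0 [(z1,[z0,
    z1]),(z1,[z0,z0,z1]),(z1,[y1,z1,z0,z1]),(z1,[z1,y1])],.ref k33 k5 [(z1,[z8,y3,z5,z5,y5]),(z1,[y1,z0,y1,y1,z1]),
    (z1,[y4,z3,y4,y4,z4]),(z1,[z2,z0,z5,z2,y2])],.ref k33 k5 [(z1,[y4,z1,y3,y3,z3]),(z2,[z1,y1]),(z1,[z2,z1]),(z1,[y1,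
    z1,z3])],.ref k58 k0 [(z1,[z0,z1]),(z1,[z0,z0,z1]),(z2,[y1,z0,z1,z2]),(z2,[z1,z0,y1])],.ref k58 k0 [(z1,[z0,z1]),
    (z1,[z0,z0,z1]),(z1,[y1,z0,z1,z1]),(z1,[z1,z0,y1])],.ref k33 k5 [(z3,[z8,y1,y9,y1,z1]),(z3,[y1,y1,z0,y1,z1]),(z3,
    [y4,z5,z0,y4,z4]),(z3,[z2,z2,z9,z2,y2])],.ref k59 k0 [(z1,[z0,z1]),(z1,[z0,z0,z1]),(z1,[z1]),(z1,[y1,z0,z0,z2])],
    .ref k57 k0 [(z1,[z0,z1]),(z1,[z0,z0,z1]),(z1,[y1,z0,z0,z2]),(z1,[z1,z0,z0,y1])],.ref k33 k5 [(z1,[y4,y3,y3,z1,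
    z3]),(z2,[z1,z0,z0,y1]),(z1,[z2,z3,z0,y2]),(z1,[y1,z0,z3,z1])],.ref k33 k5 [(z1,[z8,z5,z5,y3,y5]),(z1,[y1,y1,y1,
    z0,z1]),(z1,[y4,y1,y4,z0,z4]),(z1,[z2,z2,z5,z0,y2])],.ref k55 k5 [(z1,[z4,z3,z3,y1,y3]),(z1,[y1,y1,y1,z0,z1]),(z1,
    [y2,y1,y2,z0,z2]),(z1,[z1,z1,z2,z0,y1])],.ref k60 k0 [(z1,[z0,z1]),(z1,[z0,z0,z1]),(z1,[z1]),(z1,[y1,z0,z0,z1])],
    .ref k61 k0 [(z1,[z0,z1]),(z1,[z0,z0,z1]),(z1,[y1,z0,z0,z3]),(z1,[z1])],.ref k56 k0 [(z1,[z0,z1]),(z1,[z0,z0,z1]),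
    (z2,[y1,y1,y1,z1,z1]),(z2,[z1,z1,z1,z1,y1])],.ref k62 k5 [(z1,[y8,y1,y1,y1,z1]),(z1,[z1]),(z1,[z4,z1]),(z1,[y2,z0,
    z1])],.ref k60 k0 [(z1,[z0,z1]),(z1,[z0,z0,z1]),(z1,[y1,y1,y1,z0,z1]),(z1,[z1,z1,z1,z1,y1])],.ref k55 k5 [(z1,[y4,
    y1,y1,y1,z1]),(z1,[z1]),(z1,[z2,z1]),(z1,[y1,z0,z1])],.ref k33 k5 [(z1,[z4,z1,z1,z1,y1]),(z2,[y1,y1,y1,y1,z1]),
    (z1,[y2,z1,y2,y2,z2]),(z1,[z1,z1,z4,z1,y1])],.ref k33 k5 [(z1,[y8,y3,y3,y3,z3]),(z1,[z1]),(z1,[z4,z3]),(z1,[y2,z0,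
    z3])]],
    .base (.leafM k0 [k2,k3,k4,k5,k0,k1] [(z1,[y1,y1,y1,z0,z1])] []),
    .base (.leafM k0 [k1,k2,k3,k4,k5,k0] [(z1,[y1,y1,z0,z0,z1])] []),
    .base (.leafM k3 [k3,k4,k5,k0,k1,k2] [(z1,[z0,z0,y1,y1,z1])] []),
    .base (.leafM k3 [k3,k4,k5,k0,k1,k2] [(z1,[z0,z0,y1,y1,z1])] []),
    .base (.leafM k3 [k4,k5,k0,k1,k2,k3] [(z1,[y1,z0,z0,y1,z1])] []),
    .lp k0 [(nat_lit 326),(nat_lit 296),(nat_lit 332),(nat_lit 338),(nat_lit 338),(nat_lit 286)] [k6,k6,k21,k21,k3,k3,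
    k0,k0,k0,k0,k26,k26] k0 [[k0,k48,k24,k0,k36,k0,k0,k0,k36,k0,k0,k42],[k0,k0,k0,k0,k0,k0,k6,k2,k4,k0,k0,k30],[k0,k0,
    k0,k0,k0,k0,k6,k6,k0,k0,k0,k30],[k0,k24,k0,k0,k12,k0,k0,k0,k12,k0,k0,k38],[k0,k0,k0,k0,k0,k0,k0,k0,k0,k48,k6,k18],
    [k0,k36,k12,k0,k0,k0,k0,k6,k0,k0,k0,k0],[k2,k0,k0,k6,k6,k0,k0,k0,k0,k0,k0,k0],[k6,k0,k0,k6,k0,k0,k0,k0,k0,k2,k44,
    k0],[k0,k0,k0,k0,k0,k48,k2,k0,k0,k0,k42,k0],[k4,k36,k12,k0,k0,k0,k0,k0,k0,k0,k0,k0],[k30,k42,k38,k30,k0,k18,k0,k0,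
    k0,k0,k0,k0],[k0,k0,k0,k0,k0,k6,k44,k0,k0,k42,k0,k0]] (nat_lit 960) k5
    [[(k9,(nat_lit 288)),(k8,(nat_lit 290)),(k10,(nat_lit 306)),(k11,(nat_lit 306)),(k4,(nat_lit 323)),(k1,
    (nat_lit 326)),(k6,(nat_lit 332)),(k2,(nat_lit 349)),(k7,(nat_lit 350)),(k3,(nat_lit 353)),(k0,(nat_lit 356)),(k5,
    (nat_lit 359))],[(k10,(nat_lit 264)),(k11,(nat_lit 270)),(k0,(nat_lit 278)),(k7,(nat_lit 296)),(k5,(nat_lit 305)),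
    (k2,(nat_lit 311)),(k3,(nat_lit 311)),(k4,(nat_lit 329)),(k9,(nat_lit 334)),(k8,(nat_lit 336)),(k6,(nat_lit 338)),
    (k1,(nat_lit 356))],[(k10,(nat_lit 261)),(k11,(nat_lit 287)),(k0,(nat_lit 311)),(k9,(nat_lit 311)),(k5,
    (nat_lit 314)),(k6,(nat_lit 315)),(k7,(nat_lit 317)),(k2,(nat_lit 320)),(k3,(nat_lit 344)),(k4,(nat_lit 350)),(k1,
    (nat_lit 353)),(k8,(nat_lit 353))],[(k10,(nat_lit 261)),(k11,(nat_lit 291)),(k2,(nat_lit 296)),(k0,(nat_lit 311)),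
    (k6,(nat_lit 311)),(k9,(nat_lit 311)),(k5,(nat_lit 314)),(k7,(nat_lit 317)),(k3,(nat_lit 320)),(k4,(nat_lit 326)),
    (k8,(nat_lit 329)),(k1,(nat_lit 349))],[(k10,(nat_lit 271)),(k11,(nat_lit 297)),(k0,(nat_lit 305)),(k2,
    (nat_lit 314)),(k3,(nat_lit 314)),(k7,(nat_lit 323)),(k4,(nat_lit 332)),(k5,(nat_lit 332)),(k8,(nat_lit 335)),(k6,
    (nat_lit 341)),(k9,(nat_lit 341)),(k1,(nat_lit 359))],[(k8,(nat_lit 287)),(k10,(nat_lit 291)),(k11,(nat_lit 309)),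
    (k1,(nat_lit 323)),(k2,(nat_lit 326)),(k0,(nat_lit 329)),(k4,(nat_lit 332)),(k5,(nat_lit 332)),(k6,(nat_lit 335)),
    (k7,(nat_lit 335)),(k9,(nat_lit 341)),(k3,(nat_lit 350))],[(k0,(nat_lit 296)),(k2,(nat_lit 317)),(k3,
    (nat_lit 317)),(k10,(nat_lit 318)),(k5,(nat_lit 323)),(k6,(nat_lit 332)),(k4,(nat_lit 335)),(k7,(nat_lit 338)),
    (k8,(nat_lit 338)),(k9,(nat_lit 338)),(k1,(nat_lit 350)),(k11,(nat_lit 360))],[(k2,(nat_lit 311)),(k11,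
    (nat_lit 314)),(k3,(nat_lit 315)),(k1,(nat_lit 332)),(k7,(nat_lit 332)),(k4,(nat_lit 335)),(k0,(nat_lit 338)),(k6,
    (nat_lit 338)),(k8,(nat_lit 338)),(k9,(nat_lit 338)),(k5,(nat_lit 341)),(k10,(nat_lit 356))],[(k1,(nat_lit 288)),
    (k2,(nat_lit 311)),(k3,(nat_lit 311)),(k10,(nat_lit 312)),(k11,(nat_lit 312)),(k0,(nat_lit 334)),(k8,
    (nat_lit 336)),(k6,(nat_lit 338)),(k7,(nat_lit 338)),(k9,(nat_lit 338)),(k4,(nat_lit 341)),(k5,(nat_lit 341))],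
    [(k4,(nat_lit 287)),(k1,(nat_lit 290)),(k10,(nat_lit 312)),(k11,(nat_lit 312)),(k2,(nat_lit 329)),(k5,
    (nat_lit 335)),(k0,(nat_lit 336)),(k9,(nat_lit 336)),(k6,(nat_lit 338)),(k7,(nat_lit 338)),(k8,(nat_lit 338)),(k3,
    (nat_lit 353))],[(k0,(nat_lit 270)),(k11,(nat_lit 286)),(k3,(nat_lit 287)),(k2,(nat_lit 291)),(k5,(nat_lit 297)),
    (k1,(nat_lit 306)),(k4,(nat_lit 309)),(k8,(nat_lit 312)),(k9,(nat_lit 312)),(k6,(nat_lit 314)),(k10,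
    (nat_lit 328)),(k7,(nat_lit 360))],[(k2,(nat_lit 261)),(k3,(nat_lit 261)),(k0,(nat_lit 264)),(k5,(nat_lit 271)),
    (k10,(nat_lit 286)),(k4,(nat_lit 291)),(k1,(nat_lit 306)),(k8,(nat_lit 312)),(k9,(nat_lit 312)),(k7,
    (nat_lit 318)),(k11,(nat_lit 328)),(k6,(nat_lit 356))]]
    [[k2,k0,k0,k0,k0,k1],[k2,k1,k0,k0,k0,k0],[k1,k1,k0,k0,k0,k1],[k1,k1,k1,k0,k0,k0],[k1,k0,k1,k0,k0,k1],[k1,k0,k0,k1,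
    k0,k1],[k2,k0,k0,k0,k1,k0],[k1,k1,k0,k0,k1,k0],[k1,k0,k1,k0,k1,k0],[k1,k0,k0,k1,k1,k0],[k1,k0,k0,k0,k1,k1],[k1,k0,
    k0,k0,k0,k2],[k0,k2,k0,k1,k0,k0],[k0,k2,k0,k0,k0,k1],[k0,k1,k1,k0,k0,k1],[k0,k1,k1,k0,k1,k0],[k0,k1,k0,k1,k0,k1],
    [k0,k1,k0,k0,k1,k1],[k0,k1,k0,k0,k0,k2],[k0,k0,k2,k0,k0,k1],[k0,k0,k1,k1,k1,k0],[k0,k0,k1,k1,k0,k1],[k0,k0,k1,k0,
    k1,k1],[k0,k0,k1,k0,k0,k2],[k0,k0,k0,k0,k1,k2],[k0,k0,k0,k0,k0,k3]]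
    [.ref k25 k0 [(z3,[z4,z1]),(z3,[y1,z2,z3]),(z3,[z2,y4,z0,z3]),(z3,[y2,z4,z0,z0,z9]),(z3,[y4,y1,y3,y3,y9,z9])],
    .ref k25 k0 [(z7,[z12,y3,y4]),(z7,[y3,z6,z8]),(z7,[z6,y12,y2,z7]),(z7,[y6,z12,z2,z0,z21]),(z7,[y12,z3,y3,y7,y21,
    z21])],.ref k25 k0 [(z1,[z3,z0,y1]),(z4,[y3,z3,z5]),(z2,[z3,y3,y1,z2]),(z2,[y3,z3,z1,z0,z6]),(z1,[y3,z0,z0,y1,y3,
    z3])],.ref k25 k0 [(z5,[z12,z3,y4,y4]),(z5,[y3,z3,z6,z1]),(z5,[z6,y6,y2,z3]),(z5,[y6,z6,z2,z2,z15]),(z5,[y12,y3,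
    y1,y1,y15,z15])],.ref k25 k0 [(z7,[z12,z9,z0,y4]),(z7,[y3,z3,z7,z1]),(z7,[z6,y6,z0,z5]),(z7,[y6,z6,z0,z2,z21]),
    (z7,[y12,y9,y7,y3,y21,z21])],.ref k25 k0 [(z1,[z4,y1,z0,z0,y4]),(z1,[y1,z1,z1,z0,z1]),(z1,[z2,y2,z0,z1,y2]),(z1,
    [y2,z2,z0,z0,z5]),(z1,[y4,z1,y1,y1,z1,z3])],.ref k25 k0 [(z1,[z3,z0,z1,z1,z3,y3]),(z4,[y3,z3,z3,y1,y3,z3]),(z2,
    [z3,y3,z1,z3,z3,y3]),(z2,[y3,z3,y1,y1,z3,z3]),(z1,[y3,z0,y2,y2,y6,z6])],.ref k25 k0 [(z1,[y12,z3,z0,y4,y12,z12]),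
    (z1,[z3,z0,z1,z1,z3,y3]),(z1,[y6,z0,z0,y1,y6,z6]),(z1,[z6,z0,z0,z2,z9,y6]),(z1,[z12,y3,y1,z3,z9,y9])],
    .ref k25 k0 [(z1,[z6,z3,z2,z0,z6,y6]),(z2,[y3,z0,z1,z0,y3,z3]),(z1,[z3,z0,z1,z1,z3,y3]),(z1,[y3,z0,y1,z0,z0,z3]),
    (z1,[y6,y3,y3,y1,y9,z9])],.ref k25 k0 [(z1,[y6,z3,y2,y2,z0,z6]),(z2,[z3,z0,z3,z1,z0,y3]),(z1,[y3,z0,y1,z0,z0,z3]),
    (z1,[z3,z0,z1,z1,z3,y3]),(z1,[z6,y3,z1,z1,y3,y3])],.ref k25 k0 [(z1,[z12,z3,z4,z4,z12,y12]),(z1,[y3,z0,z0,y1,y3,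
    z3]),(z1,[z6,z0,z2,z3,z6,y6]),(z1,[y6,z0,y2,y2,y3,z6]),(z1,[y12,y3,y5,y5,y15,z15])],.ref k25 k0 [(z1,[z2,z1]),(z2,
    [y1,z1,z2]),(z1,[z1,y1,z0,z1]),(z1,[y1,z1,z0,z0,z3]),(z1,[y2,y1,y1,y1,y3,z3])],.ref k25 k0 [(z1,[y3,z3,z2,z0,z3]),
    (z4,[z3,z0,z2,z0,y3]),(z2,[y3,z0,z2,z2,z3]),(z2,[z3,z0,y2,z0,z3]),(z1,[z3,y3,y3,y1,y6,z3])],.ref k25 k0 [(z1,[y12,
    z3,z8]),(z1,[z3,z0,y1]),(z1,[y6,z0,z4,z1]),(z1,[z6,z0,y4,z0,z3]),(z1,[z12,y3,y9,y1,y3,z3])],.ref k25 k0 [(z1,[z6,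
    z3,y2,y2]),(z2,[y3,z0,z3,z1]),(z1,[z3,z0,y1]),(z1,[y3,z0,z1,z1,z3]),(z1,[y6,y3,z1,z1,y3,z3])],.ref k25 k0 [(z1,
    [y4,y1,z0,z0,y4,z4]),(z1,[z1,z1,z1,z0,z1,y1]),(z1,[y2,y2,z0,z1,y2,z2]),(z1,[z2,z2,z0,z0,z5,y2]),(z1,[z4,z1,y1,y1,
    z1,y1])],.ref k25 k0 [(z1,[y6,z3,z2,z0,z6]),(z2,[z3,z0,z1,z0,y3]),(z1,[y3,z0,z1,z1,z3]),(z1,[z3,z0,y1]),(z1,[z6,
    y3,y3,y1,y9,z3])],.ref k25 k0 [(z1,[y3,z0,z0,y1,y3,z3]),(z4,[z3,z3,z4,z1,z3,y3]),(z2,[y3,y3,z0,z1,y3,z3]),(z2,[z3,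
    z3,z0,z1,z9,y3]),(z1,[z3,z0,y1])],.ref k25 k0 [(z1,[z12,z3,y4]),(z1,[y3,z0,z2]),(z1,[z6,z0,y2,z1]),(z1,[y6,z0,z2,
    z0,z3]),(z1,[y12,y3,z3,y1,y3,z3])],.ref k25 k0 [(z5,[z12,z15,z0,y8]),(z5,[y3,z0,z5,z2]),(z5,[z6,z0,z0,z1]),(z5,
    [y6,z0,z0,z4,z15]),(z5,[y12,y15,y5,z3,y15,z15])],.ref k25 k0 [(z1,[y3,z0,y1,z0,z0,z3]),(z4,[z3,z3,z5,z0,z0,y3]),
    (z2,[y3,y3,y1,z2,z0,z3]),(z2,[z3,z3,z1,z0,z6,y3]),(z1,[z3,z0,z0,y1,y3])],.ref k25 k0 [(z1,[z12,z3,z0,y4,y12]),(z1,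
    [y3,z0,z1,z1,z3]),(z1,[z6,z0,z0,y1,y6]),(z1,[y6,z0,z0,z2,z9]),(z1,[y12,y3,y1,z3,z9,z3])],.ref k25 k0 [(z1,[y12,y9,
    y4,z0,y12,z12]),(z1,[z3,z3,z2,z0,z3,y3]),(z1,[y6,y6,y2,z1,y6,z6]),(z1,[z6,z6,z2,z0,z9,y6]),(z1,[z12,z9,z3,y1,z9,
    y9])],.ref k25 k0 [(z1,[z3,z3,z0,y1]),(z4,[y3,z0,z4,z1]),(z2,[z3,z0,z0,z1]),(z2,[y3,z0,z0,z1,z6]),(z1,[y3,y3,y1,
    z0,y3,z3])],.ref k25 k0 [(z1,[y6,y3,y2,y2,y6,z6]),(z2,[z3,z3,z3,z1,z3,y3]),(z1,[y3,y3,y1,z0,y3,z3]),(z1,[z3,z3,z1,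
    z1,z6,y3]),(z1,[z6,z3,z1,z1,z3,y3])],.ref k25 k0 [(z1,[z4,z3]),(z1,[y1,z0,z1]),(z1,[z2,z0,z0,z1]),(z1,[y2,z0,z0,
    z0,z3]),(z1,[y4,y3,y1,y1,y3,z3])]],
    .lp k0 [(nat_lit 482),(nat_lit 458),(nat_lit 488),(nat_lit 500),(nat_lit 494),(nat_lit 452)] [k19,k19,k62,k0,k16,
    k16,k10,k10,k13,k13,k34,k34] k0 [[k0,k0,k0,k18,k12,k18,k36,k0,k0,k0,k0,k0],[k102,k0,k0,k0,k0,k0,k6,k0,k0,k0,k0,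
    k126],[k0,k18,k0,k18,k0,k0,k0,k0,k0,k0,k24,k0],[k0,k0,k0,k0,k12,k0,k12,k0,k0,k0,k0,k0],[k0,k18,k0,k0,k0,k12,k0,
    k18,k0,k0,k18,k0],[k0,k12,k12,k0,k0,k0,k0,k0,k6,k0,k12,k0],[k0,k0,k0,k0,k0,k18,k0,k18,k0,k66,k0,k0],[k6,k36,k12,
    k0,k0,k0,k0,k0,k0,k0,k12,k0],[k0,k0,k0,k0,k0,k0,k0,k66,k0,k0,k108,k0],[k0,k0,k0,k0,k6,k0,k0,k0,k0,k0,k42,k0],
    [k126,k0,k0,k0,k0,k0,k0,k0,k0,k0,k0,k24],[k0,k0,k0,k24,k12,k18,k12,k0,k42,k108,k0,k0]] (nat_lit 1440) k5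
    [[(k8,(nat_lit 380)),(k2,(nat_lit 415)),(k11,(nat_lit 425)),(k4,(nat_lit 467)),(k10,(nat_lit 467)),(k9,
    (nat_lit 476)),(k7,(nat_lit 479)),(k5,(nat_lit 485)),(k6,(nat_lit 491)),(k3,(nat_lit 501)),(k1,(nat_lit 506)),(k0,
    (nat_lit 608))],[(k2,(nat_lit 421)),(k9,(nat_lit 452)),(k4,(nat_lit 467)),(k10,(nat_lit 467)),(k11,(nat_lit 467)),
    (k7,(nat_lit 479)),(k5,(nat_lit 485)),(k8,(nat_lit 488)),(k6,(nat_lit 497)),(k3,(nat_lit 501)),(k0,(nat_lit 584)),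
    (k1,(nat_lit 608))],[(k10,(nat_lit 360)),(k3,(nat_lit 418)),(k2,(nat_lit 458)),(k11,(nat_lit 486)),(k0,
    (nat_lit 501)),(k1,(nat_lit 501)),(k9,(nat_lit 501)),(k8,(nat_lit 507)),(k4,(nat_lit 516)),(k5,(nat_lit 522)),(k7,
    (nat_lit 528)),(k6,(nat_lit 546))],[(k2,(nat_lit 378)),(k1,(nat_lit 415)),(k0,(nat_lit 421)),(k10,(nat_lit 424)),
    (k11,(nat_lit 424)),(k5,(nat_lit 442)),(k8,(nat_lit 445)),(k9,(nat_lit 445)),(k7,(nat_lit 448)),(k4,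
    (nat_lit 454)),(k3,(nat_lit 458)),(k6,(nat_lit 460))],[(k2,(nat_lit 442)),(k11,(nat_lit 470)),(k9,(nat_lit 479)),
    (k7,(nat_lit 482)),(k0,(nat_lit 485)),(k1,(nat_lit 485)),(k4,(nat_lit 488)),(k8,(nat_lit 491)),(k6,(nat_lit 494)),
    (k10,(nat_lit 494)),(k5,(nat_lit 506)),(k3,(nat_lit 522))],[(k2,(nat_lit 454)),(k0,(nat_lit 467)),(k1,
    (nat_lit 467)),(k11,(nat_lit 470)),(k4,(nat_lit 476)),(k6,(nat_lit 476)),(k10,(nat_lit 482)),(k5,(nat_lit 488)),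
    (k9,(nat_lit 491)),(k7,(nat_lit 494)),(k8,(nat_lit 497)),(k3,(nat_lit 516))],[(k2,(nat_lit 448)),(k11,
    (nat_lit 470)),(k0,(nat_lit 479)),(k1,(nat_lit 479)),(k5,(nat_lit 482)),(k4,(nat_lit 494)),(k10,(nat_lit 494)),
    (k8,(nat_lit 497)),(k6,(nat_lit 500)),(k7,(nat_lit 512)),(k9,(nat_lit 515)),(k3,(nat_lit 528))],[(k8,
    (nat_lit 431)),(k2,(nat_lit 460)),(k4,(nat_lit 476)),(k11,(nat_lit 476)),(k6,(nat_lit 482)),(k10,(nat_lit 488)),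
    (k1,(nat_lit 491)),(k5,(nat_lit 494)),(k0,(nat_lit 497)),(k9,(nat_lit 497)),(k7,(nat_lit 500)),(k3,
    (nat_lit 546))],[(k2,(nat_lit 445)),(k0,(nat_lit 452)),(k10,(nat_lit 473)),(k1,(nat_lit 476)),(k5,(nat_lit 479)),
    (k4,(nat_lit 491)),(k8,(nat_lit 494)),(k6,(nat_lit 497)),(k3,(nat_lit 501)),(k9,(nat_lit 512)),(k7,(nat_lit 515)),
    (k11,(nat_lit 539))],[(k1,(nat_lit 380)),(k6,(nat_lit 431)),(k2,(nat_lit 445)),(k11,(nat_lit 473)),(k0,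
    (nat_lit 488)),(k5,(nat_lit 491)),(k8,(nat_lit 494)),(k9,(nat_lit 494)),(k4,(nat_lit 497)),(k7,(nat_lit 497)),(k3,
    (nat_lit 507)),(k10,(nat_lit 515))],[(k2,(nat_lit 424)),(k1,(nat_lit 425)),(k11,(nat_lit 452)),(k0,(nat_lit 467)),
    (k4,(nat_lit 470)),(k5,(nat_lit 470)),(k7,(nat_lit 470)),(k8,(nat_lit 473)),(k6,(nat_lit 476)),(k3,(nat_lit 486)),
    (k9,(nat_lit 539)),(k10,(nat_lit 560))],[(k3,(nat_lit 360)),(k2,(nat_lit 424)),(k10,(nat_lit 428)),(k0,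
    (nat_lit 467)),(k1,(nat_lit 467)),(k9,(nat_lit 473)),(k4,(nat_lit 482)),(k6,(nat_lit 488)),(k5,(nat_lit 494)),(k7,
    (nat_lit 494)),(k8,(nat_lit 515)),(k11,(nat_lit 560))]]
    [[k2,k1,k0,k0,k0,k0],[k1,k2,k0,k0,k0,k0],[k1,k1,k1,k0,k0,k0],[k1,k1,k0,k0,k1,k0],[k1,k1,k0,k0,k0,k1],[k1,k0,k1,k0,
    k1,k0],[k1,k0,k1,k0,k0,k1],[k1,k0,k0,k1,k0,k1],[k1,k0,k0,k1,k1,k0],[k1,k0,k0,k0,k2,k0],[k1,k0,k0,k0,k1,k1],[k1,k0,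
    k0,k0,k0,k2],[k0,k3,k0,k0,k0,k0],[k0,k2,k1,k0,k0,k0],[k0,k2,k0,k0,k1,k0],[k0,k2,k0,k0,k0,k1],[k0,k2,k0,k1,k0,k0],
    [k0,k1,k1,k0,k0,k1],[k0,k1,k0,k1,k1,k0],[k0,k1,k0,k1,k0,k1],[k0,k1,k0,k0,k1,k1],[k0,k1,k0,k0,k0,k2],[k0,k0,k1,k1,
    k1,k0],[k0,k0,k1,k0,k1,k1],[k0,k0,k1,k0,k0,k2],[k0,k0,k0,k1,k0,k2],[k0,k0,k0,k1,k1,k1]]
    [.ref k25 k0 [(z7,[z16,y11,y16]),(z7,[y11,z22,z32]),(z7,[z4,y8,y4,z21]),(z7,[y8,z16,z8,z0,z21]),(z7,[y2,y17,y19,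
    y21,y21,z21])],.ref k25 k0 [(z1,[y8,z11,z16]),(z2,[z11,y11,y16]),(z1,[y2,z2,z4,z3]),(z1,[z4,y4,y8,z0,z3]),(z1,[z1,
    y4,y5,y3,y3,z3])],.ref k25 k0 [(z3,[z16,y7,y16,y16]),(z3,[y11,z11,z20,z11]),(z3,[z4,y4,y4,z5]),(z3,[y8,z8,z8,z8,
    z9]),(z3,[y2,y7,y7,y7,y9,z9])],.ref k25 k0 [(z1,[z16,z3,z0,z16,z16,y16]),(z1,[y11,z0,z3,y11,y11,z11]),(z1,[z4,z0,
    z0,z7,z4,y4]),(z1,[y8,z0,z0,y8,y5,z8]),(z1,[y2,y3,y3,y5,y5,z5])],.ref k25 k0 [(z1,[z8,y5,y8]),(z2,[y11,z11,z17]),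
    (z1,[z2,y2,y2,z3]),(z1,[y4,z4,z4,z0,z3]),(z1,[y1,y2,y2,y3,y3,z3])],.ref k25 k0 [(z3,[z8,z9,z8,z0,z8,y8]),(z6,[y11,
    z0,z7,z0,y11,z11]),(z3,[z2,z0,z2,z9,z2,y2]),(z3,[y4,z0,y4,z0,z5,z4]),(z3,[y1,y9,y10,y9,y10,z10])],
    .ref k25 k0 [(z7,[z16,z5,z0,y16]),(z7,[y11,z11,z21,z11]),(z7,[z4,y4,z0,z17]),(z7,[y8,z8,z0,z8,z21]),(z7,[y2,y19,
    y21,y19,y21,z21])],.ref k25 k0 [(z3,[z16,y7,z0,z0,y16]),(z3,[y11,z11,z9,z0,z11]),(z3,[z4,y4,z0,z9,y4]),(z3,[y8,z8,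
    z0,z0,z17]),(z3,[y2,y7,y9,y9,y7,z9])],.ref k25 k0 [(z1,[z8,z3,z8,z8,z0,y8]),(z2,[y11,z0,y5,y11,z0,z11]),(z1,[z2,
    z0,z2,z5,z0,y2]),(z1,[y4,z0,y4,y4,z3,z4]),(z1,[y1,y3,y4,y4,y3,z4])],.ref k25 k0 [(z1,[z4,z7,z8,z8,z8,y8]),(z4,
    [y11,y11,y10,y22,y22,z22]),(z1,[z1,z1,z2,z5,z2,y2]),(z1,[y2,y2,y4,y4,y1,z4]),(z2,[y1,y7,y8,y8,y8,z8])],
    .ref k25 k0 [(z5,[z16,z15,z16,z16,z16,y16]),(z5,[y11,z0,z4,y11,y11,z11]),(z5,[z4,z0,z4,z19,z4,y4]),(z5,[y8,z0,y8,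
    y8,z7,z8]),(z5,[y2,y15,y17,y17,y17,z17])],.ref k25 k0 [(z3,[z8,z1]),(z6,[y11,z11,z18]),(z3,[z2,y2,z0,z9]),(z3,[y4,
    z4,z0,z0,z9]),(z3,[y1,y8,y9,y9,y9,z9])],.ref k25 k0 [(z11,[y16,z33,z48]),(z1,[z1]),(z11,[y4,z0,z12,z33]),(z11,[z8,
    z0,y24,z0,z33]),(z11,[z2,y33,y39,y33,y33,z33])],.ref k25 k0 [(z3,[y8,z9,z16,z8]),(z6,[z11,z0,y4,y11]),(z3,[y2,z0,
    z4,z11]),(z3,[z4,z0,y8,y4,z9]),(z3,[z1,y9,y11,y10,y9,z9])],.ref k25 k0 [(z1,[y2,z1,z2,y2,y2,z2]),(z8,[z11,z11,z13,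
    z11,z11,y11]),(z2,[y1,y1,z1,z5,y1,z1]),(z1,[z1,z1,y1,z1,z4,y1]),(z4,[z1,y11,y13,y11,y11,z11])],.ref k25 k0 [(z7,
    [y16,z21,z32]),(z7,[z11,z0,y1]),(z7,[y4,z0,z8,z21]),(z7,[z8,z0,y16,z0,z21]),(z7,[z2,y21,y25,y21,y21,z21])],
    .ref k25 k0 [(z5,[y8,z15,z16,z0,z8]),(z10,[z11,z0,z8,z0,y11]),(z5,[y2,z0,z4,z15,z2]),(z5,[z4,z0,y8,z0,z11]),(z5,
    [z1,y15,y17,y15,y16,z15])],.ref k25 k0 [(z1,[y8,z3,z8,z8]),(z2,[z11,z0,y5,y11]),(z1,[y2,z0,z2,z5]),(z1,[z4,z0,y4,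
    y4,z3]),(z1,[z1,y3,y4,y4,y3,z3])],.ref k25 k0 [(z7,[y16,z5,z0,y16,z0,z16]),(z7,[z11,z11,z21,z11,z0,y11]),(z7,[y4,
    y4,z0,z17,z0,z4]),(z7,[z8,z8,z0,z8,z21,y8]),(z7,[z2,y19,y21,y19,y21,z19])],.ref k25 k0 [(z3,[y8,z9,z8,z0,z8]),(z6,
    [z11,z0,z7,z0,y11]),(z3,[y2,z0,z2,z9,z2]),(z3,[z4,z0,y4,z0,z5]),(z3,[z1,y9,y10,y9,y10,z9])],.ref k25 k0 [(z1,[y4,
    y1,z0,y4,y4,z4]),(z4,[z11,z11,z12,z11,z11,y11]),(z1,[y1,y1,z0,z2,y1,z1]),(z1,[z2,z2,z0,z2,z5,y2]),(z2,[z1,y5,y6,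
    y5,y5,z5])],.ref k25 k0 [(z3,[y16,z9,z16]),(z3,[z11,z0,y2]),(z3,[y4,z0,z4,z9]),(z3,[z8,z0,y8,z0,z9]),(z3,[z2,y9,
    y11,y9,y9,z9])],.ref k25 k0 [(z1,[y8,y5,y8,z0,z0,z8]),(z2,[z11,z11,z17,z0,z0,y11]),(z1,[y2,y2,y2,z3,z0,z2]),(z1,
    [z4,z4,z4,z0,z3,y4]),(z1,[z1,y2,y2,y3,y3,z2])],.ref k25 k0 [(z1,[z16,z19,z16,z0,z16,y16]),(z1,[y11,y11,y8,z0,y11,
    z11]),(z1,[z4,z4,z4,z3,z4,y4]),(z1,[y8,y8,y8,z0,y5,z8]),(z1,[y2,y5,y5,y3,y5,z5])],.ref k25 k0 [(z1,[z8,z3,z0,y8]),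
    (z2,[y11,z0,z6,z11]),(z1,[z2,z0,z0,z1]),(z1,[y4,z0,z0,z4,z3]),(z1,[y1,y3,y3,y2,y3,z3])],.ref k25 k0 [(z1,[y8,z3,
    z0,z0,z8]),(z2,[z11,z0,z6,z0,y11]),(z1,[y2,z0,z0,z3,z2]),(z1,[z4,z0,z0,z0,y1]),(z1,[z1,y3,y3,y3,y4,z3])],
    .ref k25 k0 [(z3,[y16,y7,y16,y16,z0,z16]),(z3,[z11,z11,z20,z11,z0,y11]),(z3,[y4,y4,y4,z5,z0,z4]),(z3,[z8,z8,z8,z8,
    z9,y8]),(z3,[z2,y7,y7,y7,y9,z7])]],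
    .lp k0 [(nat_lit 940),(nat_lit 928),(nat_lit 1006),(nat_lit 1018),(nat_lit 1018),(nat_lit 844)] [k182,k56,k125,
    k125,k86,k86,k80,k80,k0,k160,k167,k167] k0 [[k0,k0,k60,k0,k0,k0,k12,k0,k24,(nat_lit 276),k0,k90],[k0,k0,k18,k0,k0,
    k0,k12,k0,k0,k0,k0,k90],[k0,k0,k0,k6,k6,k0,k0,k0,k0,k0,k18,k12],[k18,k60,k0,k0,k0,k0,k12,k6,k0,(nat_lit 210),k0,
    k0],[k0,k0,k0,k0,k0,k0,k0,k0,k0,k0,k18,k0],[k0,k0,k0,k6,k72,k0,k0,k54,k0,k0,k18,k0],[k0,k0,k6,k0,k54,k0,k0,k48,k0,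
    k0,k0,k0],[k12,k12,k12,k0,k0,k0,k0,k0,k0,k0,k12,k0],[k0,(nat_lit 276),(nat_lit 210),k0,k0,k0,k0,k0,k0,k0,
    (nat_lit 402),k0],[k0,k24,k0,k0,k0,k0,k0,k0,k0,k0,k0,k0],[k90,k90,k0,k12,k0,k0,k0,k0,k0,k0,k0,k54],[k0,k0,k0,k18,
    k18,k18,k12,k0,k0,(nat_lit 402),k0,k0]] (nat_lit 2880) k5
    [[(k8,(nat_lit 720)),(k9,(nat_lit 950)),(k10,(nat_lit 955)),(k11,(nat_lit 955)),(k2,(nat_lit 979)),(k4,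
    (nat_lit 1018)),(k7,(nat_lit 1024)),(k0,(nat_lit 1030)),(k6,(nat_lit 1042)),(k5,(nat_lit 1048)),(k3,
    (nat_lit 1087)),(k1,(nat_lit 1120))],[(k8,(nat_lit 720)),(k10,(nat_lit 739)),(k11,(nat_lit 805)),(k0,
    (nat_lit 814)),(k9,(nat_lit 824)),(k5,(nat_lit 850)),(k3,(nat_lit 871)),(k2,(nat_lit 889)),(k4,(nat_lit 910)),(k7,
    (nat_lit 916)),(k6,(nat_lit 928)),(k1,(nat_lit 1030))],[(k10,(nat_lit 796)),(k0,(nat_lit 871)),(k9,(nat_lit 881)),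
    (k3,(nat_lit 928)),(k5,(nat_lit 949)),(k4,(nat_lit 967)),(k7,(nat_lit 973)),(k6,(nat_lit 985)),(k2,(nat_lit 988)),
    (k8,(nat_lit 1077)),(k1,(nat_lit 1087)),(k11,(nat_lit 1162))],[(k10,(nat_lit 874)),(k0,(nat_lit 889)),(k9,
    (nat_lit 899)),(k2,(nat_lit 922)),(k4,(nat_lit 967)),(k5,(nat_lit 967)),(k7,(nat_lit 967)),(k1,(nat_lit 979)),(k6,
    (nat_lit 985)),(k3,(nat_lit 988)),(k8,(nat_lit 1053)),(k11,(nat_lit 1096))],[(k0,(nat_lit 850)),(k8,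
    (nat_lit 882)),(k9,(nat_lit 920)),(k11,(nat_lit 925)),(k10,(nat_lit 943)),(k3,(nat_lit 949)),(k2,(nat_lit 967)),
    (k6,(nat_lit 1006)),(k4,(nat_lit 1012)),(k5,(nat_lit 1012)),(k7,(nat_lit 1012)),(k1,(nat_lit 1048))],[(k0,
    (nat_lit 910)),(k11,(nat_lit 925)),(k10,(nat_lit 943)),(k2,(nat_lit 967)),(k3,(nat_lit 967)),(k9,(nat_lit 986)),
    (k5,(nat_lit 1012)),(k6,(nat_lit 1012)),(k7,(nat_lit 1012)),(k1,(nat_lit 1018)),(k4,(nat_lit 1078)),(k8,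
    (nat_lit 1092))],[(k0,(nat_lit 916)),(k11,(nat_lit 931)),(k9,(nat_lit 938)),(k7,(nat_lit 946)),(k10,
    (nat_lit 949)),(k6,(nat_lit 964)),(k2,(nat_lit 967)),(k3,(nat_lit 973)),(k4,(nat_lit 1012)),(k5,(nat_lit 1012)),
    (k1,(nat_lit 1024)),(k8,(nat_lit 1098))],[(k0,(nat_lit 928)),(k11,(nat_lit 931)),(k9,(nat_lit 938)),(k10,
    (nat_lit 943)),(k7,(nat_lit 964)),(k6,(nat_lit 970)),(k2,(nat_lit 985)),(k3,(nat_lit 985)),(k5,(nat_lit 1006)),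
    (k4,(nat_lit 1012)),(k1,(nat_lit 1042)),(k8,(nat_lit 1098))],[(k0,(nat_lit 824)),(k10,(nat_lit 851)),(k11,
    (nat_lit 851)),(k3,(nat_lit 881)),(k2,(nat_lit 899)),(k9,(nat_lit 906)),(k5,(nat_lit 920)),(k6,(nat_lit 938)),(k7,
    (nat_lit 938)),(k1,(nat_lit 950)),(k4,(nat_lit 986)),(k8,(nat_lit 1018))],[(k0,(nat_lit 720)),(k1,(nat_lit 720)),
    (k5,(nat_lit 882)),(k10,(nat_lit 1011)),(k11,(nat_lit 1011)),(k9,(nat_lit 1018)),(k2,(nat_lit 1053)),(k3,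
    (nat_lit 1077)),(k4,(nat_lit 1092)),(k6,(nat_lit 1098)),(k7,(nat_lit 1098)),(k8,(nat_lit 1178))],[(k0,
    (nat_lit 805)),(k11,(nat_lit 844)),(k9,(nat_lit 851)),(k4,(nat_lit 925)),(k5,(nat_lit 925)),(k6,(nat_lit 931)),
    (k7,(nat_lit 931)),(k1,(nat_lit 955)),(k8,(nat_lit 1011)),(k2,(nat_lit 1096)),(k3,(nat_lit 1162)),(k10,
    (nat_lit 1246))],[(k0,(nat_lit 739)),(k10,(nat_lit 790)),(k3,(nat_lit 796)),(k9,(nat_lit 851)),(k2,(nat_lit 874)),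
    (k4,(nat_lit 943)),(k5,(nat_lit 943)),(k6,(nat_lit 943)),(k7,(nat_lit 949)),(k1,(nat_lit 955)),(k8,
    (nat_lit 1011)),(k11,(nat_lit 1246))]]
    [[k2,k0,k0,k0,k1,k0],[k2,k0,k0,k0,k0,k1],[k1,k2,k0,k0,k0,k0],[k1,k1,k1,k0,k0,k0],[k1,k1,k0,k0,k1,k0],[k1,k1,k0,k0,
    k0,k1],[k1,k0,k1,k0,k1,k0],[k1,k0,k1,k0,k0,k1],[k1,k0,k0,k1,k1,k0],[k1,k0,k0,k1,k0,k1],[k1,k0,k0,k0,k2,k0],[k1,k0,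
    k0,k0,k1,k1],[k1,k0,k0,k0,k0,k2],[k0,k3,k0,k0,k0,k0],[k0,k2,k1,k0,k0,k0],[k0,k1,k1,k0,k1,k0],[k0,k1,k1,k0,k0,k1],
    [k0,k1,k0,k1,k0,k1],[k0,k1,k0,k0,k1,k1],[k0,k1,k0,k0,k0,k2],[k0,k0,k1,k1,k1,k0],[k0,k0,k1,k0,k1,k1],[k0,k0,k1,k0,
    k0,k2],[k0,k0,k0,k2,k0,k1],[k0,k0,k0,k1,k0,k2],[k0,k0,k0,k0,k1,k2]]
    [.ref k64 k9 [(z3,[y4,y1]),(z1,[z1]),(z4,[z0,z1,y2,y1,z4]),(z12,[y4,y1,z0,z3])],.ref k65 k3 [(z4,[y4,z1,y2,y5,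
    z4]),(z4,[z2,y1,z0,z5]),(z1,[z0,z0,z0,y1]),(z2,[z1,z0,z0,z1])],.ref k37 k6 [(z1,[y4,z1,z4]),(z1,[y3,z1,z3]),(z2,
    [z4,y1,y3]),(z4,[y4,z1,z4,z1])],.ref k64 k9 [(z1,[y4,z0,z2,z1]),(z4,[z12,y1,y6,y3]),(z4,[z0,z1,y2,y1,z4]),(z2,[y2,
    z0,z1,z1])],.ref k66 k2 [(z4,[y24,z5,z10,y1,z4]),(z4,[z4,y1,y2,z1]),(z2,[y4,z1,z3]),(z2,[z6,y1,y3])],
    .ref k65 k3 [(z4,[y8,z1,z2,y5,z4]),(z4,[z4,y1,y2,z5]),(z1,[z0,z0,z0,y1]),(z2,[z2,z0,y1,z1])],.ref k64 k9 [(z2,[y4,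
    y1,z0,z1]),(z8,[z12,z1,z0,y3]),(z4,[z0,z1,y2,y1,z4]),(z8,[y4,y1,z0,z3])],.ref k67 k3 [(z4,[y8,z1,y2,y9,z4]),(z4,
    [z4,y1,z0,z7]),(z1,[z0,z0,z0,y1]),(z1,[z1,z0,z0,z1])],.ref k68 k0 [(z4,[y4,z1,y2,y1,z4]),(z2,[z4,z0,z5,z1,y4]),
    (z2,[y2,z0,y1,z1,z2]),(z4,[z8,y1,z2,z1,y4])],.ref k37 k6 [(z1,[z4,z0,z2,z1,y4]),(z4,[z12,z1,z6,z3,y12]),(z2,[y4,
    z0,y1,y1,z4]),(z2,[z2,z0,z1,z1,y2])],.ref k69 k2 [(z4,[y8,z1,y2,y1,z4]),(z4,[z4,y1,z0,z3]),(z2,[y4,z1,z3]),(z1,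
    [z1])],.ref k60 k7 [(z2,[y4,y1,z1]),(z4,[z4,z1,z0,z1]),(z4,[z0,z1,y2,y1,z4]),(z1,[y3,y1])],.ref k70 k3 [(z4,[y8,
    z1,y2,y17,z4]),(z4,[z4,y1,z0,z11]),(z1,[z0,z0,z0,y1]),(z1,[z1,z0,z0,z2])],.ref k68 k0 [(z4,[y2,z1,z3]),(z1,[z1]),
    (z4,[y2,z0,z3,z3]),(z4,[z4,y1,y8,y1,z4])],.ref k68 k0 [(z4,[y4,z1,z4,z1]),(z2,[z4,z0,y1,y1]),(z1,[y1,z0,z1,z1]),
    (z4,[z8,y1,y10,y3,z4])],.ref k37 k6 [(z1,[y4,z0,z2,z1]),(z4,[y12,z1,z6,z3]),(z2,[z4,z0,y1,y1]),(z2,[y2,z0,z1,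
    z1])],.ref k68 k0 [(z4,[z4,z1,y2,y1]),(z2,[y4,z0,z5,z1]),(z2,[z2,z0,y1,z1]),(z4,[y8,y1,z2,z1,z4])],
    .ref k64 k9 [(z2,[z4,y1,z0,z1,y4]),(z8,[y12,z1,z0,y3,z12]),(z4,[z0,z1,y2,y1,z4]),(z8,[z4,y1,z0,z3,y4])],
    .ref k64 k9 [(z1,[y4,y1,z2]),(z2,[z6,z1,y3]),(z4,[z0,z1,y2,y1,z4]),(z4,[y4,y1,z2,z1])],.ref k68 k0 [(z4,[z2,z1,
    y1]),(z1,[y1,z0,z2]),(z4,[z2,z0,y1,z3]),(z4,[y4,y1,z0,y1,z4])],.ref k65 k3 [(z4,[z8,z1,z2,y5,y4]),(z4,[y4,y1,y2,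
    z5,z4]),(z1,[z0,z0,z0,y1]),(z2,[y2,z0,y1,z1,z2])],.ref k65 k3 [(z4,[y8,y1,y2,y3,z4]),(z1,[z1,z0,z0,z1]),(z1,[z0,
    z0,z0,y1]),(z4,[z4,z1,z0,z1])],.ref k68 k0 [(z12,[z4,z3,z0,y1]),(z6,[y4,z0,z9,z1]),(z3,[z1,z0,z0,z2]),(z12,[y8,y3,
    y6,y1,z12])],.ref k64 k9 [(z2,[z2,y1,z2,z1,y4]),(z8,[y6,z1,y6,y3,z12]),(z4,[z0,z1,y2,y1,z4]),(z8,[z2,y1,z2,z3,
    y4])],.ref k37 k6 [(z2,[z4,z1,z2,z1,y4]),(z8,[z12,z5,z6,z3,y12]),(z4,[y4,y1,z0,y1,z4]),(z8,[z4,z1,z2,z3,y4])],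
    .ref k67 k3 [(z4,[y8,y1,y2,y11,z4]),(z1,[z1,z0,z0,z2]),(z1,[z0,z0,z0,y1]),(z4,[z4,z1,z0,z5])]]]

theorem hB6_171_5 : blkB [0, 0, 0, 0, 0, 0] [] sp6 hS6_171 (pcls (n := 6) [0, 0, 0, 0, 0, 0]) hD6_171 560 5 hN6_171_5 = true := by
  decide +kernel

end Pool.Agent.Lib_MP_fa6e45
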