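import Pool.Agent.Lib_MP_fa6e45.HK

/-!
MP_fa6e45_co, stage 4: certificates (captain, generated by a program).
-/

namespace Pool.Agent.Lib_MP_fa6e45

/-- nodes 72 to 83 -/
noncomputable def hN6_171_6 : List HM :=
  [.base (.leafM k1 [k0,k1,k2,k3,k4,k5] [(z2,[y1,z0,y1,z2]),(z2,[z1,z0,z1])] []),
    .lp k0 [(nat_lit 1918),(nat_lit 1924),(nat_lit 1918),(nat_lit 1756),(nat_lit 2002),(nat_lit 1978)] [k42,k42,k39,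
    k39,k42,k42,k123,k123,k0,k0,k12,k12] k0 [[k0,k0,k12,k0,(nat_lit 330),k0,k0,k162,k132,k12,k0,k0],[k24,k0,k0,k0,k66,
    k0,k0,k0,k0,k0,k78,k78],[k0,k0,k0,k0,(nat_lit 330),(nat_lit 330),(nat_lit 330),k0,k0,k0,k0,k42],[k0,k12,k0,k0,k0,
    k0,k0,k0,k0,k0,k0,k54],[k0,k0,k0,(nat_lit 330),k0,k0,k0,k0,k0,k78,k60,k0],[k66,(nat_lit 330),k0,(nat_lit 330),k0,
    k0,k0,k0,k0,k0,k0,k0],[k0,k162,k0,k0,k0,k0,k0,k0,k30,k0,k12,k12],[k0,k0,k0,(nat_lit 330),k0,k0,k0,k0,k0,k0,k0,k0],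
    [k0,k12,k0,k0,k0,k78,k0,k0,k0,k0,k18,k18],[k0,k132,k0,k0,k0,k0,k0,k30,k0,k0,k0,k0],[k78,k0,k54,k42,k0,k0,k0,k12,
    k0,k18,k0,k0],[k78,k0,k0,k0,k0,k60,k0,k12,k0,k18,k0,k0]] (nat_lit 5760) k5
    [[(k6,(nat_lit 1825)),(k7,(nat_lit 1837)),(k3,(nat_lit 1843)),(k4,(nat_lit 1858)),(k1,(nat_lit 1918)),(k8,
    (nat_lit 1942)),(k10,(nat_lit 1948)),(k5,(nat_lit 1960)),(k11,(nat_lit 1966)),(k9,(nat_lit 1972)),(k2,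
    (nat_lit 1975)),(k0,(nat_lit 1996))],[(k7,(nat_lit 1507)),(k6,(nat_lit 1675)),(k11,(nat_lit 1816)),(k5,
    (nat_lit 1906)),(k2,(nat_lit 1921)),(k3,(nat_lit 1921)),(k0,(nat_lit 1942)),(k8,(nat_lit 1948)),(k9,
    (nat_lit 1960)),(k4,(nat_lit 1984)),(k1,(nat_lit 1996)),(k10,(nat_lit 2026))],[(k7,(nat_lit 1774)),(k6,
    (nat_lit 1840)),(k1,(nat_lit 1843)),(k10,(nat_lit 1873)),(k3,(nat_lit 1900)),(k0,(nat_lit 1921)),(k5,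
    (nat_lit 1921)),(k2,(nat_lit 1936)),(k11,(nat_lit 1963)),(k8,(nat_lit 2095)),(k9,(nat_lit 2125)),(k4,
    (nat_lit 2251))],[(k7,(nat_lit 1510)),(k4,(nat_lit 1591)),(k9,(nat_lit 1633)),(k6,(nat_lit 1840)),(k10,
    (nat_lit 1909)),(k0,(nat_lit 1921)),(k5,(nat_lit 1921)),(k2,(nat_lit 1924)),(k3,(nat_lit 1936)),(k11,
    (nat_lit 1951)),(k8,(nat_lit 1963)),(k1,(nat_lit 1975))],[(k10,(nat_lit 1894)),(k0,(nat_lit 1906)),(k5,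
    (nat_lit 1918)),(k2,(nat_lit 1921)),(k3,(nat_lit 1921)),(k11,(nat_lit 1948)),(k1,(nat_lit 1960)),(k8,
    (nat_lit 1960)),(k9,(nat_lit 1960)),(k6,(nat_lit 2167)),(k7,(nat_lit 2167)),(k4,(nat_lit 2248))],[(k2,
    (nat_lit 1591)),(k6,(nat_lit 1837)),(k7,(nat_lit 1837)),(k1,(nat_lit 1858)),(k8,(nat_lit 1882)),(k4,
    (nat_lit 1918)),(k10,(nat_lit 1948)),(k11,(nat_lit 1948)),(k9,(nat_lit 1960)),(k0,(nat_lit 1984)),(k5,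
    (nat_lit 2248)),(k3,(nat_lit 2251))],[(k0,(nat_lit 1507)),(k2,(nat_lit 1510)),(k6,(nat_lit 1756)),(k7,
    (nat_lit 1756)),(k3,(nat_lit 1774)),(k1,(nat_lit 1837)),(k4,(nat_lit 1837)),(k8,(nat_lit 1879)),(k9,
    (nat_lit 1879)),(k10,(nat_lit 1927)),(k11,(nat_lit 1945)),(k5,(nat_lit 2167))],[(k0,(nat_lit 1675)),(k6,
    (nat_lit 1756)),(k7,(nat_lit 1756)),(k1,(nat_lit 1825)),(k4,(nat_lit 1837)),(k11,(nat_lit 1837)),(k2,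
    (nat_lit 1840)),(k3,(nat_lit 1840)),(k10,(nat_lit 1855)),(k8,(nat_lit 1879)),(k9,(nat_lit 1879)),(k5,
    (nat_lit 2167))],[(k2,(nat_lit 1633)),(k6,(nat_lit 1879)),(k7,(nat_lit 1879)),(k0,(nat_lit 1960)),(k4,
    (nat_lit 1960)),(k5,(nat_lit 1960)),(k1,(nat_lit 1972)),(k11,(nat_lit 1990)),(k9,(nat_lit 2002)),(k10,
    (nat_lit 2002)),(k8,(nat_lit 2032)),(k3,(nat_lit 2125))],[(k6,(nat_lit 1879)),(k7,(nat_lit 1879)),(k4,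
    (nat_lit 1882)),(k1,(nat_lit 1942)),(k0,(nat_lit 1948)),(k5,(nat_lit 1960)),(k2,(nat_lit 1963)),(k10,
    (nat_lit 1972)),(k11,(nat_lit 1990)),(k8,(nat_lit 2002)),(k9,(nat_lit 2032)),(k3,(nat_lit 2095))],[(k0,
    (nat_lit 1816)),(k6,(nat_lit 1837)),(k7,(nat_lit 1945)),(k4,(nat_lit 1948)),(k5,(nat_lit 1948)),(k2,
    (nat_lit 1951)),(k3,(nat_lit 1963)),(k1,(nat_lit 1966)),(k11,(nat_lit 1978)),(k8,(nat_lit 1990)),(k9,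
    (nat_lit 1990)),(k10,(nat_lit 1996))],[(k6,(nat_lit 1855)),(k3,(nat_lit 1873)),(k5,(nat_lit 1894)),(k2,
    (nat_lit 1909)),(k7,(nat_lit 1927)),(k1,(nat_lit 1948)),(k4,(nat_lit 1948)),(k8,(nat_lit 1972)),(k10,
    (nat_lit 1978)),(k11,(nat_lit 1996)),(k9,(nat_lit 2002)),(k0,(nat_lit 2026))]]
    [[k2,k0,k0,k1,k0,k0],[k1,k1,k0,k1,k0,k0],[k1,k1,k0,k0,k0,k1],[k1,k2,k0,k0,k0,k0],[k1,k1,k1,k0,k0,k0],[k1,k1,k0,k0,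
    k1,k0],[k1,k0,k1,k1,k0,k0],[k1,k0,k1,k0,k0,k1],[k1,k0,k0,k2,k0,k0],[k1,k0,k0,k1,k1,k0],[k1,k0,k0,k1,k0,k1],[k0,k2,
    k1,k0,k0,k0],[k0,k2,k0,k1,k0,k0],[k0,k2,k0,k0,k1,k0],[k0,k1,k1,k1,k0,k0],[k0,k1,k1,k0,k1,k0],[k0,k1,k0,k2,k0,k0],
    [k0,k1,k0,k1,k1,k0],[k0,k1,k0,k1,k0,k1],[k0,k1,k1,k0,k0,k1],[k0,k1,k0,k0,k1,k1],[k0,k0,k2,k1,k0,k0],[k0,k0,k1,k1,
    k1,k0],[k0,k0,k1,k1,k0,k1],[k0,k0,k0,k3,k0,k0],[k0,k0,k0,k2,k1,k0],[k0,k0,k0,k2,k0,k1],[k0,k0,k0,k1,k1,k1]]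
    [.ref k43 k2 [(z3,[z1,y2]),(z3,[y2,y5,y9,z9]),(z3,[y1,z2,z3])],.ref k44 k0 [(z1,[z2,y1,y2]),(z1,[y3,z3,z5]),(z1,
    [y1,z0,z0,z1])],.ref k45 k0 [(z1,[z4,y3,y4]),(z1,[y3,z3,z4]),(z1,[y2,z1,z1,z1])],.ref k46 k8 [(z2,[y1,y1,y2,z2]),
    (z2,[z1,y1]),(z2,[y3,z3,z4])],.ref k46 k8 [(z1,[y1,y1,y2,z2]),(z1,[z1,z0,z1,y1]),(z1,[y3,z0,y1,z3])],
    .ref k47 k6 [(z1,[y1,z1,z1]),(z1,[z0,z1]),(z1,[z1,y1])],.ref k43 k2 [(z1,[z1,z0,z1,y1]),(z1,[y2,y3,y5,z5]),(z1,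
    [y1,z0,z0,z1])],.ref k48 k3 [(z1,[z0,y1,y1,z1]),(z1,[y2,z1,z1,z1]),(z1,[z1,z1,z2,y2])],.ref k43 k2 [(z2,[z1,y1]),
    (z1,[y1,y2,y3,z3]),(z2,[y1,z1,z2])],.ref k49 k2 [(z1,[z1,y1]),(z1,[y2,y3,y5,z5]),(z1,[y3,z3,z5])],
    .ref k50 k3 [(z1,[z0,y1,y1,z1]),(z1,[y1,z0,z0,z1]),(z1,[z2,z3,z5,y5])],.ref k51 k11 [(z1,[y2,y1,y2,z2]),(z2,[z3,
    z3,z5,y3]),(z2,[y1,y1,y1,z1])],.ref k63 k8 [(z1,[y2,y1,y1,z1]),(z1,[z1]),(z1,[y3,z0,z1])],.ref k71 k7 [(z1,[z4,y3,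
    y4]),(z1,[z0,y1,y2,z2]),(z1,[z0,y1])],.ref k51 k11 [(z1,[y4,y3,y4,z4]),(z1,[z3,z3,z4,y3]),(z1,[y1,y1,y1,z1])],
    .ref k50 k3 [(z1,[z0,y1,y1,z1]),(z1,[z1]),(z1,[y2,z3,z5,y3])],.ref k46 k8 [(z1,[y1,y1,y1,z1]),(z1,[z1]),(z1,[y3,
    z0,z2])],.ref k48 k3 [(z1,[z0,y1,y1,z1]),(z1,[z2,z1,z1,y1]),(z1,[y1,z1,z2,y1])],.ref k72 k3 [(z1,[z0,y1,y1,z1]),
    (z1,[y1,z1,z2,y1]),(z1,[z2,z1,z1,y1])],.ref k49 k2 [(z1,[y1,y1,z0,z1]),(z1,[z2,y3,y5,z3]),(z1,[z3,z3,z5,y3])],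
    .ref k43 k2 [(z1,[y1,z0,z1]),(z1,[z2,y3,y5,z3]),(z1,[z1])],.ref k43 k2 [(z1,[y1,y2,y2,z2]),(z1,[z2,z1,z1,y1]),(z1,
    [z1,z2,z3,y2])],.ref k45 k0 [(z1,[y4,y3,y4,z4]),(z1,[z3,z3,z4,y3]),(z1,[z2,z1,z1,y1])],.ref k47 k6 [(z1,[z1,z1,z1,
    y1]),(z1,[z0,z1]),(z1,[y1,y1,z0,z1])],.ref k43 k2 [(z1,[z1]),(z1,[y2,y3,y3,z3]),(z1,[y1,z0,z1])],.ref k72 k3 [(z1,
    [z0,y1,y1,z1]),(z1,[z1,z1,z1,y1]),(z1,[y2,z1,z3,y1])],.ref k48 k3 [(z1,[z0,y1,y1,z1]),(z1,[y2,z1,z3,y1]),(z1,[z1,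
    z1,z1,y1])],.ref k46 k8 [(z1,[z1,y1,y2,z1]),(z1,[y1,z0,z1]),(z1,[z3,z0,y1])]],
    .lp k0 [(nat_lit 236),(nat_lit 224),(nat_lit 254),(nat_lit 264),(nat_lit 264),k192] [k14,k14,k26,k14,k5,k5,k0,k0,
    k0,k0,k30,k42] k0 [[k0,k0,k10,k0,k0,k10,k12,k0,k14,k0,k0,k40],[k0,k0,k0,k0,k0,k0,k2,k0,k0,k0,k0,k40],[k0,k0,k0,k4,
    k4,k0,k0,k0,k0,k0,k16,k12],[k0,k10,k0,k0,k0,k0,k12,k8,k0,k0,k0,k0],[k0,k10,k0,k0,k0,k0,k0,k0,k0,k2,k18,k0],[k0,k0,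
    k0,k4,k4,k0,k0,k0,k0,k0,k16,k0],[k0,k0,k8,k0,k0,k0,k0,k0,k0,k0,k0,k0],[k2,k12,k12,k0,k0,k0,k0,k0,k0,k0,k10,k0],
    [k0,k0,k0,k0,k0,k2,k0,k0,k0,k0,k0,k0],[k0,k14,k0,k0,k0,k0,k0,k0,k0,k0,k0,k0],[k40,k40,k0,k12,k0,k0,k0,k0,k0,k0,k0,
    k24],[k0,k0,k0,k16,k16,k18,k10,k0,k0,k0,k0,k0]] (nat_lit 720) k5
    [[(k2,(nat_lit 208)),(k11,(nat_lit 208)),(k10,(nat_lit 220)),(k4,(nat_lit 227)),(k7,(nat_lit 234)),(k9,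
    (nat_lit 240)),(k6,(nat_lit 250)),(k8,(nat_lit 250)),(k5,(nat_lit 257)),(k1,(nat_lit 260)),(k0,(nat_lit 276)),(k3,
    (nat_lit 276))],[(k10,k180),(k11,k194),(k2,(nat_lit 224)),(k4,(nat_lit 235)),(k5,(nat_lit 235)),(k0,
    (nat_lit 236)),(k3,(nat_lit 236)),(k9,(nat_lit 238)),(k7,(nat_lit 250)),(k8,(nat_lit 250)),(k6,(nat_lit 252)),(k1,
    (nat_lit 276))],[(k10,k180),(k11,(nat_lit 208)),(k2,(nat_lit 234)),(k0,(nat_lit 236)),(k3,(nat_lit 236)),(k4,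
    (nat_lit 245)),(k5,(nat_lit 245)),(k9,(nat_lit 248)),(k7,(nat_lit 260)),(k6,(nat_lit 262)),(k8,(nat_lit 264)),(k1,
    (nat_lit 276))],[(k10,k196),(k11,k196),(k1,(nat_lit 208)),(k2,(nat_lit 208)),(k0,(nat_lit 224)),(k4,
    (nat_lit 233)),(k5,(nat_lit 233)),(k3,(nat_lit 234)),(k7,(nat_lit 234)),(k8,(nat_lit 238)),(k9,(nat_lit 246)),(k6,
    (nat_lit 250))],[(k11,(nat_lit 217)),(k2,(nat_lit 233)),(k0,(nat_lit 235)),(k3,(nat_lit 245)),(k10,(nat_lit 245)),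
    (k9,(nat_lit 247)),(k6,(nat_lit 251)),(k1,(nat_lit 257)),(k4,(nat_lit 258)),(k5,(nat_lit 258)),(k7,(nat_lit 259)),
    (k8,(nat_lit 259))],[(k11,(nat_lit 217)),(k1,(nat_lit 227)),(k2,(nat_lit 233)),(k0,(nat_lit 235)),(k3,
    (nat_lit 245)),(k10,(nat_lit 245)),(k8,(nat_lit 257)),(k4,(nat_lit 258)),(k5,(nat_lit 258)),(k6,(nat_lit 259)),
    (k7,(nat_lit 259)),(k9,(nat_lit 259))],[(k11,(nat_lit 224)),(k1,(nat_lit 234)),(k2,(nat_lit 234)),(k0,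
    (nat_lit 250)),(k10,(nat_lit 252)),(k4,(nat_lit 259)),(k5,(nat_lit 259)),(k3,(nat_lit 260)),(k7,(nat_lit 260)),
    (k6,(nat_lit 264)),(k8,(nat_lit 264)),(k9,(nat_lit 264))],[(k11,(nat_lit 222)),(k10,(nat_lit 244)),(k1,
    (nat_lit 250)),(k2,(nat_lit 250)),(k5,(nat_lit 251)),(k0,(nat_lit 252)),(k4,(nat_lit 259)),(k3,(nat_lit 262)),(k6,
    (nat_lit 264)),(k7,(nat_lit 264)),(k8,(nat_lit 264)),(k9,(nat_lit 264))],[(k11,(nat_lit 222)),(k10,(nat_lit 234)),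
    (k0,(nat_lit 238)),(k1,(nat_lit 240)),(k2,(nat_lit 246)),(k5,(nat_lit 247)),(k3,(nat_lit 248)),(k4,(nat_lit 259)),
    (k6,(nat_lit 264)),(k7,(nat_lit 264)),(k8,(nat_lit 264)),(k9,(nat_lit 264))],[(k11,(nat_lit 222)),(k10,
    (nat_lit 234)),(k2,(nat_lit 238)),(k0,(nat_lit 250)),(k1,(nat_lit 250)),(k4,(nat_lit 257)),(k5,(nat_lit 259)),(k3,
    (nat_lit 264)),(k6,(nat_lit 264)),(k7,(nat_lit 264)),(k8,(nat_lit 264)),(k9,(nat_lit 264))],[(k11,k180),(k10,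
    k192),(k0,k194),(k2,k196),(k1,(nat_lit 208)),(k3,(nat_lit 208)),(k4,(nat_lit 217)),(k5,(nat_lit 217)),(k6,
    (nat_lit 222)),(k8,(nat_lit 222)),(k9,(nat_lit 222)),(k7,(nat_lit 224))],[(k0,k180),(k3,k180),(k10,k180),(k11,
    k192),(k2,k196),(k1,(nat_lit 220)),(k8,(nat_lit 234)),(k9,(nat_lit 234)),(k6,(nat_lit 244)),(k4,(nat_lit 245)),
    (k5,(nat_lit 245)),(k7,(nat_lit 252))]]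
    [[k2,k0,k0,k0,k0,k1],[k1,k2,k0,k0,k0,k0],[k1,k1,k1,k0,k0,k0],[k1,k1,k0,k0,k1,k0],[k1,k1,k0,k0,k0,k1],[k1,k0,k1,k0,
    k0,k1],[k1,k0,k0,k1,k0,k1],[k1,k0,k0,k0,k1,k1],[k1,k0,k0,k0,k0,k2],[k0,k3,k0,k0,k0,k0],[k0,k2,k1,k0,k0,k0],[k0,k2,
    k0,k0,k0,k1],[k0,k1,k1,k0,k0,k1],[k0,k1,k0,k1,k0,k1],[k0,k1,k0,k0,k1,k1],[k0,k1,k0,k0,k0,k2],[k0,k0,k1,k0,k1,k1],
    [k0,k0,k1,k0,k0,k2],[k0,k0,k0,k1,k0,k2],[k0,k0,k0,k0,k1,k2],[k0,k0,k0,k0,k0,k3]]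
    [.ref k25 k0 [(z3,[y1,z1]),(z33,[z22,y4,z9]),(z33,[(Int.negSucc (nat_lit 175)),z32,z0,z9]),(z33,[z88,y16,z0,z0,
    z9]),(z33,[y44,y1,y9,y9,y9,z99])],.ref k25 k0 [(z11,[y11,z4,z2]),(z11,[z22,y2,y1]),(z11,
    [(Int.negSucc (nat_lit 175)),z16,z32,z3]),(z11,[z88,y8,y16,z0,z3]),(z11,[y44,z1,z5,y3,y3,z33])],.ref k25 k0 [(z55,
    [z11,z14,y1,y1]),(z55,[y22,z2,z17,z2]),(z55,[(Int.ofNat (nat_lit 176)),y16,y16,y1]),(z55,[y88,z8,z8,z8,z15]),(z55,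
    [z44,y19,y19,y19,y15,(Int.ofNat (nat_lit 165))])],.ref k25 k0 [(z11,[z11,z3,z0,z1,z1,y11]),(z11,[y22,z0,z3,y2,y2,
    z22]),(z11,[(Int.ofNat (nat_lit 176)),z0,z0,z19,z16,(Int.negSucc (nat_lit 175))]),(z11,[y88,z0,z0,y8,y5,z88]),
    (z11,[z44,y3,y3,z1,z1,y11])],.ref k25 k0 [(z44,[y11,z13,z1]),(z22,[z11,y1,z5]),(z11,[y44,z4,z4,z3]),(z11,[z22,y2,
    y2,z0,z3]),(z11,[y11,y2,y2,y3,y3,z33])],.ref k25 k0 [(z22,[z11,z5,z0,y1]),(z11,[y11,z1,z3,z1]),(z11,[z88,y8,z0,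
    y5]),(z11,[y44,z4,z0,z4,z3]),(z11,[z22,y5,y3,y5,y3,z33])],.ref k25 k0 [(z66,[y11,z19,z0,z0,z1]),(z33,[z11,y1,z9,
    z0,y1]),(z33,[y88,z8,z0,z9,z8]),(z33,[z44,y4,z0,z0,z5]),(z33,[y22,y7,y9,y9,y7,z99])],.ref k25 k0 [(z22,[y11,z6,y1,
    y1,y1,z11]),(z11,[z11,z0,z4,z1,z1,y11]),(z11,[y88,z0,y8,y5,y8,z88]),(z11,[z44,z0,z4,z4,z7,y44]),(z11,[y22,y3,y5,
    y5,y5,z55])],.ref k25 k0 [(z7,[y1,z2]),(z77,[z22,y2,z21]),(z77,[(Int.negSucc (nat_lit 175)),z16,z0,z21]),(z77,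
    [z88,y8,z0,z0,z21]),(z77,[y44,y17,y21,y21,y21,(Int.ofNat (nat_lit 231))])],.ref k25 k0 [(z22,[y11,z6,z3]),(z1,
    [z1]),(z11,[y88,z0,z24,z3]),(z11,[z44,z0,y12,z0,z3]),(z11,[y22,y3,z3,y3,y3,z33])],.ref k25 k0 [(z44,[z11,z12,y2,
    y1]),(z22,[y11,z0,z8,z1]),(z11,[z44,z0,y8,y1]),(z11,[y22,z0,z4,z2,z3]),(z11,[z11,y3,y5,y4,y3,z33])],
    .ref k25 k0 [(z55,[y11,z15,z2]),(z5,[z2,z0,z1]),(z55,[(Int.negSucc (nat_lit 175)),z0,z32,z15]),(z55,[z88,z0,y16,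
    z0,z15]),(z55,[y44,y15,y7,y15,y15,(Int.ofNat (nat_lit 165))])],.ref k25 k0 [(z11,[z11,z3,y1,y1]),(z11,[y22,z0,z5,
    z2]),(z11,[(Int.ofNat (nat_lit 176)),z0,y16,y13]),(z11,[y88,z0,z8,z8,z3]),(z11,[z44,y3,y7,y7,y3,z33])],
    .ref k25 k0 [(z77,[y11,z21,z1,z0,z1]),(z77,[z22,z0,z19,z0,y2]),(z77,[(Int.negSucc (nat_lit 175)),z0,z16,z21,z16]),
    (z77,[z88,z0,y8,z0,z13]),(z77,[y44,y21,y17,y21,y17,(Int.ofNat (nat_lit 231))])],.ref k25 k0 [(z33,[y11,z8,z0,y1,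
    y1,z11]),(z33,[z22,z2,z9,z2,z2,y22]),(z33,[(Int.negSucc (nat_lit 175)),y16,z0,y7,y16,(Int.ofNat (nat_lit 176))]),
    (z33,[z88,z8,z0,z8,z17,y88]),(z33,[y44,y13,y9,y13,y13,(Int.ofNat (nat_lit 143))])],.ref k25 k0 [(z88,[y11,z24,
    z1]),(z4,[z1,z0,z1]),(z11,[y22,z0,z2,z3]),(z11,[z11,z0,y1,z0,z3]),(z22,[y11,y6,y5,y6,y6,z66])],.ref k25 k0 [(z33,
    [z11,z10,z1,z0,z1,y11]),(z33,[y22,y2,z7,z0,y2,z22]),(z33,[(Int.ofNat (nat_lit 176)),z16,z16,z9,z16,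
    (Int.negSucc (nat_lit 175))]),(z33,[y88,y8,y8,z0,z1,z88]),(z33,[z44,y5,y5,y9,y5,z55])],.ref k25 k0 [(z22,[y11,z6,
    z0,z1]),(z11,[z11,z0,z3,y1]),(z1,[y8,z0,z0,z1]),(z11,[z44,z0,z0,y4,z3]),(z11,[y22,y3,y3,y1,y3,z33])],
    .ref k25 k0 [((Int.ofNat (nat_lit 110)),[y11,z30,z0,z0,z1]),(z55,[z11,z0,z15,z0,y1]),(z55,[y88,z0,z0,z15,z8]),(z5,
    [z4,z0,z0,z0,z1]),(z55,[y22,y15,y15,y15,y13,(Int.ofNat (nat_lit 165))])],.ref k25 k0 [(z66,[y11,z17,y1,y1,y1,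
    z11]),(z33,[z11,z1,z10,z1,z1,y11]),(z33,[y88,y8,y8,z1,y8,z88]),(z33,[z44,z4,z4,z4,z13,y44]),(z3,[y2,y1,y1,y1,y1,
    z11])],.ref k25 k0 [(z11,[y1,z3]),(z11,[z2,z0,z3]),(z11,[y16,z0,z0,z3]),(z11,[z8,z0,z0,z0,z3]),(z11,[y4,y3,y3,y3,
    y3,z33])]],
    .base (.leafM k0 [k2,k3,k4,k5,k0,k1] [(z1,[y1,y1,y1,z0,z1])] []),
    .base (.leafM k0 [k2,k3,k4,k5,k0,k1] [(z1,[y1,y1,y1,z0,z1])] []),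
    .base (.leafM k3 [k0,k1,k2,k3,k4,k5] [(z3,[y1,z0,y1,z0,z3])] []),
    .base (.leafM k3 [k5,k0,k1,k2,k3,k4] [(z7,[z1,z0,z1,z1])] []),
    .base (.leafM k0 [k0,k1,k2,k3,k4,k5] [(z5,[z0,z1,z5,z1])] []),
    .lp k0 [(nat_lit 1888),(nat_lit 1840),(nat_lit 2004),(nat_lit 2032),(nat_lit 2002),(nat_lit 1742)] [k72,k72,k96,
    k96,k14,k14,k0,k0,k15,k15,k145,k145] k0 [[k0,k84,k80,k0,k0,k0,k0,k0,k0,k0,k0,k0],[k0,k0,k0,k0,k28,k0,k28,k0,k62,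
    k0,k0,k148],[k0,k0,k0,k0,k0,k0,k0,k0,k0,k10,k0,k120],[k0,k80,k76,k0,k0,k0,k0,k0,k0,k0,k0,k0],[k0,k0,k0,k0,k0,k0,
    k76,k0,k0,k14,k56,k0],[k28,k0,k0,k0,k0,k0,k0,k0,k0,k86,k0,k0],[k0,k0,k0,k0,k0,k0,k0,k116,k178,(nat_lit 306),k0,
    k0],[k28,k0,k0,k0,k0,k76,k0,k0,k0,k0,k132,k36],[k0,k0,k0,k10,k86,k14,k0,(nat_lit 306),k0,k0,(nat_lit 310),k0],
    [k62,k0,k0,k0,k0,k0,k0,k178,k0,k0,(nat_lit 310),k0],[k148,k0,k0,k120,k0,k0,k36,k0,k0,k0,k0,k32],[k0,k0,k0,k0,k0,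
    k56,k132,k0,(nat_lit 310),(nat_lit 310),k0,k0]] (nat_lit 5760) k5
    [[(k11,(nat_lit 1505)),(k8,(nat_lit 1635)),(k9,(nat_lit 1813)),(k10,(nat_lit 1815)),(k2,(nat_lit 1864)),(k3,
    (nat_lit 1864)),(k4,(nat_lit 1890)),(k1,(nat_lit 1920)),(k7,(nat_lit 1960)),(k6,(nat_lit 1996)),(k0,
    (nat_lit 2036)),(k5,(nat_lit 2066))],[(k0,(nat_lit 1804)),(k10,(nat_lit 1815)),(k11,(nat_lit 1815)),(k2,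
    (nat_lit 1864)),(k3,(nat_lit 1864)),(k5,(nat_lit 1866)),(k9,(nat_lit 1945)),(k7,(nat_lit 1960)),(k4,
    (nat_lit 1974)),(k6,(nat_lit 1988)),(k8,(nat_lit 2007)),(k1,(nat_lit 2036))],[(k10,(nat_lit 1643)),(k11,
    (nat_lit 1729)),(k0,(nat_lit 1864)),(k1,(nat_lit 1864)),(k9,(nat_lit 1893)),(k7,(nat_lit 1908)),(k2,
    (nat_lit 1920)),(k8,(nat_lit 1921)),(k4,(nat_lit 1922)),(k5,(nat_lit 1922)),(k3,(nat_lit 1924)),(k6,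
    (nat_lit 1936))],[(k10,(nat_lit 1671)),(k11,(nat_lit 1791)),(k0,(nat_lit 1864)),(k1,(nat_lit 1864)),(k8,
    (nat_lit 1911)),(k2,(nat_lit 1916)),(k3,(nat_lit 1920)),(k9,(nat_lit 1921)),(k4,(nat_lit 1922)),(k5,
    (nat_lit 1922)),(k6,(nat_lit 1936)),(k7,(nat_lit 1936))],[(k0,(nat_lit 1866)),(k10,(nat_lit 1873)),(k11,
    (nat_lit 1883)),(k2,(nat_lit 1922)),(k3,(nat_lit 1922)),(k5,(nat_lit 1928)),(k8,(nat_lit 2003)),(k9,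
    (nat_lit 2003)),(k4,(nat_lit 2004)),(k6,(nat_lit 2018)),(k7,(nat_lit 2018)),(k1,(nat_lit 2066))],[(k10,
    (nat_lit 1873)),(k1,(nat_lit 1890)),(k2,(nat_lit 1922)),(k3,(nat_lit 1922)),(k9,(nat_lit 1927)),(k11,
    (nat_lit 1959)),(k0,(nat_lit 1974)),(k8,(nat_lit 1989)),(k4,(nat_lit 2004)),(k5,(nat_lit 2004)),(k6,
    (nat_lit 2018)),(k7,(nat_lit 2018))],[(k11,(nat_lit 1901)),(k3,(nat_lit 1908)),(k8,(nat_lit 1931)),(k2,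
    (nat_lit 1936)),(k10,(nat_lit 1943)),(k0,(nat_lit 1960)),(k1,(nat_lit 1960)),(k9,(nat_lit 2017)),(k4,
    (nat_lit 2018)),(k5,(nat_lit 2018)),(k7,(nat_lit 2032)),(k6,(nat_lit 2108))],[(k11,(nat_lit 1709)),(k8,
    (nat_lit 1711)),(k6,(nat_lit 1916)),(k2,(nat_lit 1936)),(k3,(nat_lit 1936)),(k0,(nat_lit 1988)),(k1,
    (nat_lit 1996)),(k9,(nat_lit 2017)),(k4,(nat_lit 2018)),(k5,(nat_lit 2018)),(k10,(nat_lit 2019)),(k7,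
    (nat_lit 2108))],[(k1,(nat_lit 1813)),(k10,(nat_lit 1836)),(k3,(nat_lit 1893)),(k2,(nat_lit 1921)),(k4,
    (nat_lit 1927)),(k0,(nat_lit 1945)),(k5,(nat_lit 2003)),(k6,(nat_lit 2017)),(k7,(nat_lit 2017)),(k9,
    (nat_lit 2118)),(k11,(nat_lit 2178)),(k8,(nat_lit 2180))],[(k1,(nat_lit 1635)),(k6,(nat_lit 1711)),(k11,
    (nat_lit 1872)),(k2,(nat_lit 1911)),(k3,(nat_lit 1921)),(k7,(nat_lit 1931)),(k4,(nat_lit 1989)),(k8,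
    (nat_lit 2002)),(k5,(nat_lit 2003)),(k0,(nat_lit 2007)),(k9,(nat_lit 2180)),(k10,(nat_lit 2182))],[(k1,
    (nat_lit 1505)),(k6,(nat_lit 1709)),(k3,(nat_lit 1729)),(k11,(nat_lit 1742)),(k2,(nat_lit 1791)),(k0,
    (nat_lit 1815)),(k8,(nat_lit 1872)),(k5,(nat_lit 1883)),(k7,(nat_lit 1901)),(k4,(nat_lit 1959)),(k10,
    (nat_lit 2052)),(k9,(nat_lit 2178))],[(k3,(nat_lit 1643)),(k2,(nat_lit 1671)),(k10,(nat_lit 1710)),(k0,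
    (nat_lit 1815)),(k1,(nat_lit 1815)),(k9,(nat_lit 1836)),(k4,(nat_lit 1873)),(k5,(nat_lit 1873)),(k7,
    (nat_lit 1943)),(k6,(nat_lit 2019)),(k11,(nat_lit 2052)),(k8,(nat_lit 2182))]]
    [[k2,k0,k0,k0,k1,k0],[k2,k0,k0,k0,k0,k1],[k2,k1,k0,k0,k0,k0],[k1,k2,k0,k0,k0,k0],[k1,k1,k1,k0,k0,k0],[k1,k1,k0,k0,
    k1,k0],[k1,k1,k0,k0,k0,k1],[k1,k0,k1,k0,k0,k1],[k1,k0,k0,k1,k0,k1],[k1,k0,k0,k1,k1,k0],[k1,k0,k1,k0,k1,k0],[k1,k0,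
    k0,k0,k1,k1],[k1,k0,k0,k0,k0,k2],[k0,k2,k0,k0,k1,k0],[k0,k2,k0,k0,k0,k1],[k0,k1,k1,k0,k0,k1],[k0,k1,k0,k1,k0,k1],
    [k0,k1,k0,k1,k1,k0],[k0,k1,k0,k0,k1,k1],[k0,k1,k0,k0,k0,k2],[k0,k0,k1,k1,k1,k0],[k0,k0,k1,k1,k0,k1],[k0,k0,k1,k0,
    k1,k1],[k0,k0,k1,k0,k0,k2],[k0,k0,k0,k1,k1,k1],[k0,k0,k0,k1,k0,k2],[k0,k0,k0,k0,k0,k3]]
    [.ref k25 k0 [(z8,[z13,z11,z13,z13,z13,y13]),(z2,[z1,y1,z7,z1,z1,y1]),(z1,[y1,z1,y1,z2,y1,z1]),(z1,[y1,z1,y1,y1,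
    z2,z1]),(z4,[y1,y11,y13,y13,y13,z13])],.ref k25 k0 [(z9,[z13,z1]),(z9,[z4,y8,z27]),(z9,[y8,z16,z0,z27]),(z9,[y8,
    z16,z0,z0,z27]),(z9,[y2,y23,y27,y27,y27,z27])],.ref k25 k0 [(z10,[z13,z4,y13]),(z5,[z2,y4,z13]),(z5,[y4,z8,z4,
    z15]),(z5,[y4,z8,z4,z0,z15]),(z5,[y1,y13,y14,y15,y15,z15])],.ref k25 k0 [(z7,[z13,z8,y26]),(z7,[z4,y4,z13]),(z7,
    [y8,z8,z16,z21]),(z7,[y8,z8,z16,z0,z21]),(z7,[y2,y19,y17,y21,y21,z21])],.ref k25 k0 [(z3,[z13,y4,y13,y13]),(z3,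
    [z4,y4,z5,y4]),(z3,[y8,z8,z8,z17]),(z3,[y8,z8,z8,z8,z9]),(z3,[y2,y7,y7,y7,y9,z9])],.ref k25 k0 [(z5,[z13,z15,z0,
    z13,z13,y13]),(z5,[z4,z0,z15,z4,z4,y4]),(z5,[y8,z0,z0,z7,y8,z8]),(z5,[y8,z0,z0,y8,z7,z8]),(z5,[y2,y15,y15,y17,y17,
    z17])],.ref k25 k0 [(z6,[z13,z5,y13]),(z3,[z2,y2,z7]),(z3,[y4,z4,z4,z9]),(z3,[y4,z4,z4,z0,z9]),(z3,[y1,y8,y8,y9,
    y9,z9])],.ref k25 k0 [(z2,[z13,y7,z0,y13]),(z1,[z2,y2,z3,y2]),(z1,[y4,z4,z0,z7]),(z1,[y4,z4,z0,z4,z3]),(z1,[y1,y2,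
    y3,y2,y3,z3])],.ref k25 k0 [(z2,[z13,y7,z0,z0,y13]),(z1,[z2,y2,z3,z0,y2]),(z1,[y4,z4,z0,z3,z4]),(z1,[y4,z4,z0,z0,
    z7]),(z1,[y1,y2,y3,y3,y2,z3])],.ref k25 k0 [(z1,[z13,z3,z13,z13,z0,y13]),(z1,[z4,z0,z7,z4,z0,y4]),(z1,[y8,z0,y8,
    y5,z0,z8]),(z1,[y8,z0,y8,y8,z3,z8]),(z1,[y2,y3,y5,y5,y3,z5])],.ref k25 k0 [(z1,[z13,z3,z13,z0,z13,y13]),(z1,[z4,
    z0,z7,z0,z4,y4]),(z1,[y8,z0,y8,z3,y8,z8]),(z1,[y8,z0,y8,z0,y5,z8]),(z1,[y2,y3,y5,y3,y5,z5])],.ref k25 k0 [(z4,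
    [z13,z12,z13,z13,z13,y13]),(z1,[z1,z0,z4,z1,z1,y1]),(z1,[y2,z0,y2,z1,y2,z2]),(z1,[y2,z0,y2,y2,z1,z2]),(z2,[y1,y6,
    y7,y7,y7,z7])],.ref k25 k0 [(z5,[z13,z2]),(z5,[z4,y4,z15]),(z5,[y8,z8,z0,z15]),(z5,[y8,z8,z0,z0,z15]),(z5,[y2,y13,
    y15,y15,y15,z15])],.ref k25 k0 [(z2,[z13,z19,y13,z13,z13,y13]),(z1,[z2,z2,z1,z2,z2,y2]),(z1,[y4,y4,z4,y1,y4,z4]),
    (z1,[y4,y4,z4,y4,y1,z4]),(z1,[y1,y4,y2,y4,y4,z4])],.ref k25 k0 [(z3,[z13,z9,y26]),(z3,[z4,z0,z1]),(z3,[y8,z0,z16,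
    z9]),(z3,[y8,z0,z16,z0,z9]),(z3,[y2,y9,y5,y9,y9,z9])],.ref k25 k0 [(z1,[y13,z3,z13,z13]),(z1,[y4,z0,z7,z4]),(z1,
    [z8,z0,y8,y5]),(z1,[z8,z0,y8,y8,z3]),(z1,[z2,y3,y5,y5,y3,z3])],.ref k25 k0 [(z1,[y13,z3,z13,z0,z13]),(z1,[y4,z0,
    z7,z0,z4]),(z1,[z8,z0,y8,z3,y8]),(z1,[z8,z0,y8,z0,y5]),(z1,[z2,y3,y5,y3,y5,z3])],.ref k25 k0 [(z2,[y13,y7,z0,y13,
    z0,z13]),(z1,[y2,y2,z3,y2,z0,z2]),(z1,[z4,z4,z0,z7,z0,y4]),(z1,[z4,z4,z0,z4,z3,y4]),(z1,[z1,y2,y3,y2,y3,z2])],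
    .ref k25 k0 [(z1,[z13,z16,z0,z13,z13,y13]),(z1,[z4,z4,z3,z4,z4,y4]),(z1,[y8,y8,z0,y5,y8,z8]),(z1,[y8,y8,z0,y8,y5,
    z8]),(z1,[y2,y5,y3,y5,y5,z5])],.ref k25 k0 [(z2,[z13,z6,y13]),(z1,[z2,z0,z1]),(z1,[y4,z0,z4,z3]),(z1,[y4,z0,z4,z0,
    z3]),(z1,[y1,y3,y2,y3,y3,z3])],.ref k25 k0 [(z6,[y13,z5,y13,z0,z0,z13]),(z3,[y2,y2,z7,z0,z0,z2]),(z3,[z4,z4,z4,z9,
    z0,y4]),(z3,[z4,z4,z4,z0,z9,y4]),(z3,[z1,y8,y8,y9,y9,z8])],.ref k25 k0 [(z5,[y13,z15,z0,z13,z13]),(z5,[y4,z0,z15,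
    z4,z4]),(z5,[z8,z0,z0,z7,y8]),(z5,[z8,z0,z0,y8,z7]),(z5,[z2,y15,y15,y17,y17,z15])],.ref k25 k0 [(z3,[y13,y4,y13,
    z0,y13,z13]),(z3,[y4,y4,z5,z0,y4,z4]),(z3,[z8,z8,z8,z9,z8,y8]),(z3,[z8,z8,z8,z0,z17,y8]),(z3,[z2,y7,y7,y9,y7,
    z7])],.ref k25 k0 [(z2,[y13,z6,z0,z13]),(z1,[y2,z0,z3,z2]),(z1,[z4,z0,z0,y1]),(z1,[z4,z0,z0,y4,z3]),(z1,[z1,y3,y3,
    y4,y3,z3])],.ref k25 k0 [(z3,[y13,y4,y13,y13,z0,z13]),(z3,[y4,y4,z5,y4,z0,z4]),(z3,[z8,z8,z8,z17,z0,y8]),(z3,[z8,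
    z8,z8,z8,z9,y8]),(z3,[z2,y7,y7,y7,y9,z7])],.ref k25 k0 [(z2,[y13,z6,z0,z0,z13]),(z1,[y2,z0,z3,z0,z2]),(z1,[z4,z0,
    z0,z3,y4]),(z1,[z4,z0,z0,z0,y1]),(z1,[z1,y3,y3,y3,y4,z3])],.ref k25 k0 [(z1,[z13,z3]),(z1,[z4,z0,z3]),(z1,[y8,z0,
    z0,z3]),(z1,[y8,z0,z0,z0,z3]),(z1,[y2,y3,y3,y3,y3,z3])]],
    .base (.leafM k1 [k0,k1,k2,k3,k4,k5] [(z1,[z0,z1,z0,z1]),(z1,[z0,y1,z0,y1,z1])] []),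
    .base (.leafM k3 [k0,k1,k2,k3,k4,k5] [(z1,[y1,z0,y1,z0,z1])] []),
    .lp k0 [(nat_lit 1928),(nat_lit 1784),(nat_lit 1970),(nat_lit 2018),(nat_lit 1988),(nat_lit 1784)] [k45,k45,k117,
    k117,k24,k24,k0,k0,k15,k15,k117,k117] k0 [[k0,k0,k0,k0,k36,k0,k0,k0,(nat_lit 258),k0,k0,(nat_lit 318)],[k54,k0,k0,
    k54,k0,k0,k0,k0,k0,k0,k0,k0],[k54,k0,k0,k12,k0,k0,k0,k0,k0,k0,k0,k0],[k0,k0,k0,k0,k36,k0,k0,k0,(nat_lit 258),k0,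
    k0,(nat_lit 318)],[k0,k0,k0,k0,k0,k0,k0,k0,k30,k126,k120,k30],[k0,k36,k36,k0,k36,k0,k0,k0,k0,k0,k0,k0],[k0,k0,k0,
    k0,k0,k0,k0,k0,k30,k30,k0,k0],[k0,k0,k0,k0,k0,k0,k0,k0,k0,k0,k54,k30],[k0,k0,k0,k0,k0,k126,k0,k30,k0,k0,k84,k0],
    [k0,(nat_lit 258),(nat_lit 258),k0,k0,k30,k0,k30,k0,k0,k0,k0],[k0,(nat_lit 318),(nat_lit 318),k0,k0,k30,k30,k0,k0,
    k0,k0,k0],[k0,k0,k0,k0,k0,k120,k54,k0,k0,k84,k78,k0]] (nat_lit 5760) k5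
    [[(k4,(nat_lit 1829)),(k1,(nat_lit 1850)),(k10,(nat_lit 1856)),(k11,(nat_lit 1856)),(k8,(nat_lit 1874)),(k9,
    (nat_lit 1904)),(k0,(nat_lit 1928)),(k5,(nat_lit 1949)),(k6,(nat_lit 2003)),(k7,(nat_lit 2003)),(k2,
    (nat_lit 2174)),(k3,(nat_lit 2174))],[(k10,(nat_lit 1538)),(k11,(nat_lit 1598)),(k2,(nat_lit 1856)),(k3,
    (nat_lit 1856)),(k1,(nat_lit 1928)),(k7,(nat_lit 1937)),(k4,(nat_lit 1949)),(k8,(nat_lit 1958)),(k9,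
    (nat_lit 1958)),(k6,(nat_lit 1973)),(k0,(nat_lit 1982)),(k5,(nat_lit 2003))],[(k2,(nat_lit 1730)),(k3,
    (nat_lit 1730)),(k10,(nat_lit 1784)),(k11,(nat_lit 1784)),(k0,(nat_lit 1856)),(k5,(nat_lit 1877)),(k9,
    (nat_lit 1886)),(k6,(nat_lit 1901)),(k7,(nat_lit 1901)),(k4,(nat_lit 1913)),(k8,(nat_lit 2144)),(k1,
    (nat_lit 2174))],[(k3,(nat_lit 1730)),(k2,(nat_lit 1772)),(k10,(nat_lit 1784)),(k11,(nat_lit 1784)),(k0,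
    (nat_lit 1856)),(k5,(nat_lit 1877)),(k9,(nat_lit 1886)),(k6,(nat_lit 1901)),(k7,(nat_lit 1901)),(k4,
    (nat_lit 1913)),(k8,(nat_lit 2144)),(k1,(nat_lit 2174))],[(k10,(nat_lit 1559)),(k11,(nat_lit 1619)),(k2,
    (nat_lit 1877)),(k3,(nat_lit 1877)),(k1,(nat_lit 1949)),(k7,(nat_lit 1958)),(k4,(nat_lit 1970)),(k8,
    (nat_lit 1979)),(k9,(nat_lit 1979)),(k5,(nat_lit 1982)),(k6,(nat_lit 1994)),(k0,(nat_lit 2003))],[(k1,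
    (nat_lit 1829)),(k10,(nat_lit 1847)),(k11,(nat_lit 1847)),(k8,(nat_lit 1853)),(k2,(nat_lit 1913)),(k3,
    (nat_lit 1913)),(k0,(nat_lit 1949)),(k5,(nat_lit 1970)),(k9,(nat_lit 1979)),(k6,(nat_lit 1994)),(k7,
    (nat_lit 1994)),(k4,(nat_lit 2006))],[(k2,(nat_lit 1901)),(k3,(nat_lit 1901)),(k0,(nat_lit 1937)),(k5,
    (nat_lit 1958)),(k7,(nat_lit 1982)),(k4,(nat_lit 1994)),(k1,(nat_lit 2003)),(k9,(nat_lit 2003)),(k6,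
    (nat_lit 2018)),(k10,(nat_lit 2021)),(k11,(nat_lit 2027)),(k8,(nat_lit 2033))],[(k11,(nat_lit 1871)),(k2,
    (nat_lit 1901)),(k3,(nat_lit 1901)),(k10,(nat_lit 1955)),(k0,(nat_lit 1973)),(k8,(nat_lit 1973)),(k4,
    (nat_lit 1994)),(k5,(nat_lit 1994)),(k1,(nat_lit 2003)),(k9,(nat_lit 2003)),(k6,(nat_lit 2018)),(k7,
    (nat_lit 2018))],[(k10,(nat_lit 1856)),(k2,(nat_lit 1886)),(k3,(nat_lit 1886)),(k1,(nat_lit 1904)),(k11,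
    (nat_lit 1916)),(k0,(nat_lit 1958)),(k4,(nat_lit 1979)),(k5,(nat_lit 1979)),(k9,(nat_lit 1988)),(k6,
    (nat_lit 2003)),(k7,(nat_lit 2003)),(k8,(nat_lit 2018))],[(k4,(nat_lit 1853)),(k1,(nat_lit 1874)),(k10,
    (nat_lit 1886)),(k11,(nat_lit 1886)),(k0,(nat_lit 1958)),(k6,(nat_lit 1973)),(k5,(nat_lit 1979)),(k8,
    (nat_lit 1988)),(k9,(nat_lit 2018)),(k7,(nat_lit 2033)),(k2,(nat_lit 2144)),(k3,(nat_lit 2144))],[(k0,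
    (nat_lit 1598)),(k5,(nat_lit 1619)),(k2,(nat_lit 1784)),(k3,(nat_lit 1784)),(k11,(nat_lit 1784)),(k4,
    (nat_lit 1847)),(k1,(nat_lit 1856)),(k10,(nat_lit 1868)),(k6,(nat_lit 1871)),(k8,(nat_lit 1886)),(k9,
    (nat_lit 1916)),(k7,(nat_lit 2027))],[(k0,(nat_lit 1538)),(k5,(nat_lit 1559)),(k2,(nat_lit 1784)),(k3,
    (nat_lit 1784)),(k4,(nat_lit 1847)),(k1,(nat_lit 1856)),(k9,(nat_lit 1856)),(k10,(nat_lit 1862)),(k11,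
    (nat_lit 1868)),(k8,(nat_lit 1886)),(k6,(nat_lit 1955)),(k7,(nat_lit 2021))]]
    [[k2,k0,k0,k0,k0,k1],[k2,k1,k0,k0,k0,k0],[k1,k1,k0,k0,k0,k1],[k1,k1,k1,k0,k0,k0],[k1,k0,k1,k0,k0,k1],[k1,k0,k0,k1,
    k0,k1],[k1,k1,k0,k0,k1,k0],[k1,k0,k0,k0,k1,k1],[k1,k0,k0,k0,k0,k2],[k0,k3,k0,k0,k0,k0],[k0,k2,k1,k0,k0,k0],[k0,k2,
    k0,k1,k0,k0],[k0,k2,k0,k0,k0,k1],[k0,k1,k1,k0,k0,k1],[k0,k1,k1,k0,k1,k0],[k0,k1,k0,k1,k0,k1],[k0,k1,k0,k0,k1,k1],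
    [k0,k1,k0,k0,k0,k2],[k0,k0,k2,k0,k0,k1],[k0,k0,k1,k1,k0,k1],[k0,k0,k1,k0,k1,k1],[k0,k0,k1,k0,k0,k2],[k0,k0,k0,k0,
    k1,k2],[k0,k0,k0,k0,k0,k3]]
    [.ref k25 k0 [(z11,[z16,z1]),(z11,[y8,z16,z33]),(z1,[y1,z2,z0,z3]),(z11,[y2,z4,z0,z0,z33]),(z11,[z4,y41,y33,y33,
    y33,z33])],.ref k25 k0 [(z1,[z2,y1,y2]),(z1,[y1,z2,z4]),(z8,[y11,z22,z11,z24]),(z4,[y1,z2,z1,z0,z12]),(z2,[z1,y8,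
    y7,y6,y6,z6])],.ref k25 k0 [(z3,[z16,y7,y16]),(z3,[y8,z8,z17]),(z3,[y11,z11,z11,z9]),(z3,[y2,z2,z2,z0,z9]),(z3,
    [z4,y13,y13,y9,y9,z9])],.ref k25 k0 [(z1,[y16,z19,z16,z16]),(z1,[z8,y8,y5,y8]),(z1,[z11,y11,y11,y8]),(z1,[z2,y2,
    y2,y2,z3]),(z1,[y4,z1,z1,z1,y3,z3])],.ref k25 k0 [(z1,[z8,y5,z0,y8]),(z1,[y4,z4,z3,z4]),(z2,[y11,z11,z0,z17]),(z1,
    [y1,z1,z0,z1,z3]),(z1,[z2,y5,y3,y5,y3,z3])],.ref k25 k0 [(z5,[z16,y1,z0,z0,y16]),(z5,[y8,z8,z15,z0,z8]),(z5,[y11,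
    z11,z0,z15,z11]),(z5,[y2,z2,z0,z0,z17]),(z5,[z4,y19,y15,y15,y19,z15])],.ref k25 k0 [(z1,[z4,z3,z0,z4,z4,y4]),(z1,
    [y2,z0,z3,y2,y2,z2]),(z4,[y11,z0,z0,z1,y11,z11]),(z2,[y1,z0,z0,y1,z5,z1]),(z1,[z1,y3,y3,y2,y2,z2])],
    .ref k25 k0 [(z7,[z16,z21,z16,z16,z16,y16]),(z7,[y8,z0,z13,y8,y8,z8]),(z7,[y11,z0,y11,z10,y11,z11]),(z7,[y2,z0,y2,
    y2,z19,z2]),(z7,[z4,y21,y17,y17,y17,z17])],.ref k25 k0 [(z3,[z8,z1]),(z3,[y4,z4,z9]),(z6,[y11,z11,z0,z18]),(z3,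
    [y1,z1,z0,z0,z9]),(z3,[z2,y11,y9,y9,y9,z9])],.ref k25 k0 [(z1,[y2,z3,z6]),(z1,[z1]),(z8,[z11,z0,y33,z24]),(z4,[z1,
    z0,y3,z0,z12]),(z2,[y1,y6,y3,y6,y6,z6])],.ref k25 k0 [(z9,[y16,z27,z32,z16]),(z9,[z8,z0,z11,y8]),(z9,[z11,z0,y22,
    z16]),(z9,[z2,z0,y4,y2,z27]),(z9,[y4,y27,y19,y23,y27,z27])],.ref k25 k0 [(z3,[y8,z9,z16,z0,z8]),(z3,[z4,z0,z1,z0,
    y4]),(z6,[z11,z0,y22,z18,y11]),(z3,[z1,z0,y2,z0,z8]),(z3,[y2,y9,y5,y9,y7,z9])],.ref k25 k0 [(z5,[y16,z15,z32]),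
    (z5,[z8,z0,y1]),(z5,[z11,z0,y22,z15]),(z5,[z2,z0,y4,z0,z15]),(z5,[y4,y15,y7,y15,y15,z15])],.ref k25 k0 [(z3,[y8,
    z9,z8,z8]),(z3,[z4,z0,z5,y4]),(z6,[z11,z0,y11,z7]),(z3,[z1,z0,y1,y1,z9]),(z3,[y2,y9,y7,y7,y9,z9])],
    .ref k25 k0 [(z5,[y16,y1,z0,z0,y16,z16]),(z5,[z8,z8,z15,z0,z8,y8]),(z5,[z11,z11,z0,z15,z11,y11]),(z5,[z2,z2,z0,z0,
    z17,y2]),(z5,[y4,y19,y15,y15,y19,z19])],.ref k25 k0 [(z3,[y16,z9,z16,z0,z16]),(z3,[z8,z0,z1,z0,y8]),(z3,[z11,z0,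
    y11,z9,y11]),(z3,[z2,z0,y2,z0,z7]),(z3,[y4,y9,y5,y9,y5,z9])],.ref k25 k0 [(z1,[y16,y13,z0,y16,y16,z16]),(z1,[z8,
    z8,z3,z8,z8,y8]),(z1,[z11,z11,z0,z14,z11,y11]),(z1,[z2,z2,z0,z2,z5,y2]),(z1,[y4,y7,y3,y7,y7,z7])],
    .ref k25 k0 [(z1,[y8,z3,z8]),(z1,[z4,z0,y1]),(z2,[z11,z0,y11,z6]),(z1,[z1,z0,y1,z0,z3]),(z1,[y2,y3,y1,y3,y3,z3])],
    .ref k25 k0 [(z7,[y16,z21,z0,z32]),(z7,[z8,z0,z21,y16]),(z7,[z11,z0,z0,y1]),(z7,[z2,z0,z0,y4,z21]),(z7,[y4,y21,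
    y21,y13,y21,z21])],.ref k25 k0 [(z1,[y4,z3,z0,z4,z4]),(z1,[z2,z0,z3,y2,y2]),(z4,[z11,z0,z0,z1,y11]),(z2,[z1,z0,z0,
    y1,z5]),(z1,[y1,y3,y3,y2,y2,z3])],.ref k25 k0 [(z1,[y8,y5,y8,z0,y8,z8]),(z1,[z4,z4,z7,z0,z4,y4]),(z2,[z11,z11,z11,
    z6,z11,y11]),(z1,[z1,z1,z1,z0,z4,y1]),(z1,[y2,y5,y5,y3,y5,z5])],.ref k25 k0 [(z3,[y16,z9,z0,z16]),(z3,[z8,z0,z9,
    y8]),(z3,[z11,z0,z0,y2]),(z3,[z2,z0,z0,y2,z9]),(z3,[y4,y9,y9,y5,y9,z9])],.ref k25 k0 [(z1,[z8,z11,z8,z8,z8,y8]),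
    (z1,[y4,y4,y1,y4,y4,z4]),(z2,[y11,y11,y11,y5,y11,z11]),(z1,[y1,y1,y1,y1,z2,z1]),(z1,[z2,y1,y1,y1,y1,z1])],
    .ref k25 k0 [(z1,[z16,z3]),(z1,[y8,z0,z3]),(z1,[y11,z0,z0,z3]),(z1,[y2,z0,z0,z0,z3]),(z1,[z4,y3,y3,y3,y3,z3])]]]

theorem hB6_171_6 : blkB [0, 0, 0, 0, 0, 0] [] sp6 hS6_171 (pcls (n := 6) [0, 0, 0, 0, 0, 0]) hD6_171 560 6 hN6_171_6 = true := by
  decide +kernel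

/-- nodes 84 to 95 -/
noncomputable def hN6_171_7 : List HM :=
  [.lp k0 [(nat_lit 642),(nat_lit 616),(nat_lit 652),(nat_lit 660),(nat_lit 700),(nat_lit 566)] [k29,k29,k42,k42,k24,
    k24,k20,k20,k0,k0,k67,k67] k0 [[k0,k48,k24,k0,k36,k0,k0,k0,k0,k0,k0,k46],[k0,k0,k0,k0,k8,k0,k12,k8,k32,k0,k0,k42],
    [k0,k0,k0,k0,k8,k0,k12,k0,k0,k0,k0,k42],[k0,k24,k0,k0,k12,k0,k0,k0,k0,k0,k0,k46],[k0,k0,k0,k0,k0,k0,k48,k0,k28,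
    k36,k10,k14],[k8,k36,k12,k8,k0,k0,k0,k0,k0,k0,k0,k0],[k8,k0,k0,k0,k0,k0,k0,k0,k24,k32,k0,k0],[k12,k0,k0,k12,k0,
    k48,k0,k0,k0,k0,k58,k10],[k0,k0,k0,k0,k0,k36,k0,k32,k0,k68,k154,k0],[k32,k0,k0,k0,k0,k28,k0,k24,k0,k0,k18,k0],
    [k42,k46,k46,k42,k0,k14,k10,k0,k0,k0,k0,k0],[k0,k0,k0,k0,k0,k10,k58,k0,k18,k154,k0,k0]] (nat_lit 1920) k5
    [[(k8,(nat_lit 517)),(k11,(nat_lit 586)),(k10,(nat_lit 604)),(k9,(nat_lit 613)),(k4,(nat_lit 637)),(k1,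
    (nat_lit 642)),(k6,(nat_lit 661)),(k7,(nat_lit 665)),(k2,(nat_lit 675)),(k3,(nat_lit 675)),(k0,(nat_lit 684)),(k5,
    (nat_lit 689))],[(k10,(nat_lit 558)),(k0,(nat_lit 594)),(k11,(nat_lit 604)),(k7,(nat_lit 615)),(k5,(nat_lit 623)),
    (k2,(nat_lit 629)),(k3,(nat_lit 629)),(k4,(nat_lit 655)),(k6,(nat_lit 663)),(k9,(nat_lit 679)),(k1,(nat_lit 684)),
    (k8,(nat_lit 703))],[(k10,(nat_lit 549)),(k11,(nat_lit 559)),(k0,(nat_lit 629)),(k6,(nat_lit 630)),(k7,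
    (nat_lit 630)),(k5,(nat_lit 634)),(k2,(nat_lit 640)),(k9,(nat_lit 646)),(k8,(nat_lit 658)),(k3,(nat_lit 664)),(k4,
    (nat_lit 670)),(k1,(nat_lit 675))],[(k10,(nat_lit 549)),(k11,(nat_lit 591)),(k2,(nat_lit 616)),(k0,(nat_lit 629)),
    (k7,(nat_lit 630)),(k5,(nat_lit 634)),(k6,(nat_lit 638)),(k3,(nat_lit 640)),(k4,(nat_lit 646)),(k9,(nat_lit 646)),
    (k8,(nat_lit 658)),(k1,(nat_lit 675))],[(k10,(nat_lit 563)),(k11,(nat_lit 609)),(k0,(nat_lit 623)),(k2,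
    (nat_lit 634)),(k3,(nat_lit 634)),(k7,(nat_lit 644)),(k5,(nat_lit 652)),(k4,(nat_lit 660)),(k6,(nat_lit 668)),(k8,
    (nat_lit 676)),(k9,(nat_lit 676)),(k1,(nat_lit 689))],[(k11,(nat_lit 581)),(k10,(nat_lit 595)),(k9,(nat_lit 628)),
    (k1,(nat_lit 637)),(k8,(nat_lit 640)),(k2,(nat_lit 646)),(k4,(nat_lit 652)),(k0,(nat_lit 655)),(k6,(nat_lit 656)),
    (k7,(nat_lit 656)),(k5,(nat_lit 660)),(k3,(nat_lit 670))],[(k0,(nat_lit 615)),(k10,(nat_lit 623)),(k2,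
    (nat_lit 630)),(k3,(nat_lit 630)),(k5,(nat_lit 644)),(k11,(nat_lit 649)),(k4,(nat_lit 656)),(k7,(nat_lit 660)),
    (k1,(nat_lit 665)),(k9,(nat_lit 680)),(k6,(nat_lit 708)),(k8,(nat_lit 708))],[(k11,(nat_lit 589)),(k3,
    (nat_lit 630)),(k2,(nat_lit 638)),(k8,(nat_lit 648)),(k4,(nat_lit 656)),(k6,(nat_lit 660)),(k1,(nat_lit 661)),(k0,
    (nat_lit 663)),(k5,(nat_lit 668)),(k10,(nat_lit 671)),(k9,(nat_lit 680)),(k7,(nat_lit 708))],[(k1,(nat_lit 613)),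
    (k10,(nat_lit 623)),(k4,(nat_lit 628)),(k2,(nat_lit 646)),(k3,(nat_lit 646)),(k11,(nat_lit 665)),(k5,
    (nat_lit 676)),(k0,(nat_lit 679)),(k6,(nat_lit 680)),(k7,(nat_lit 680)),(k9,(nat_lit 700)),(k8,(nat_lit 724))],
    [(k1,(nat_lit 517)),(k8,(nat_lit 632)),(k11,(nat_lit 633)),(k4,(nat_lit 640)),(k6,(nat_lit 648)),(k10,
    (nat_lit 651)),(k2,(nat_lit 658)),(k3,(nat_lit 658)),(k5,(nat_lit 676)),(k0,(nat_lit 703)),(k7,(nat_lit 708)),(k9,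
    (nat_lit 724))],[(k3,(nat_lit 559)),(k4,(nat_lit 581)),(k1,(nat_lit 586)),(k6,(nat_lit 589)),(k2,(nat_lit 591)),
    (k0,(nat_lit 604)),(k5,(nat_lit 609)),(k8,(nat_lit 633)),(k11,(nat_lit 634)),(k7,(nat_lit 649)),(k9,
    (nat_lit 665)),(k10,(nat_lit 720))],[(k2,(nat_lit 549)),(k3,(nat_lit 549)),(k0,(nat_lit 558)),(k5,(nat_lit 563)),
    (k10,(nat_lit 566)),(k4,(nat_lit 595)),(k1,(nat_lit 604)),(k7,(nat_lit 623)),(k9,(nat_lit 623)),(k8,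
    (nat_lit 651)),(k6,(nat_lit 671)),(k11,(nat_lit 720))]]
    [[k2,k0,k0,k0,k1,k0],[k2,k0,k0,k0,k0,k1],[k2,k1,k0,k0,k0,k0],[k1,k1,k0,k0,k0,k1],[k1,k1,k1,k0,k0,k0],[k1,k0,k1,k0,
    k0,k1],[k1,k0,k0,k1,k0,k1],[k1,k1,k0,k0,k1,k0],[k1,k0,k1,k0,k1,k0],[k1,k0,k0,k1,k1,k0],[k1,k0,k0,k0,k1,k1],[k1,k0,
    k0,k0,k0,k2],[k0,k2,k0,k1,k0,k0],[k0,k2,k0,k0,k0,k1],[k0,k1,k1,k0,k0,k1],[k0,k1,k0,k1,k0,k1],[k0,k1,k0,k0,k1,k1],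
    [k0,k1,k0,k0,k0,k2],[k0,k0,k2,k0,k0,k1],[k0,k0,k1,k1,k0,k1],[k0,k0,k1,k0,k1,k1],[k0,k0,k1,k0,k0,k2],[k0,k0,k0,k1,
    k0,k2],[k0,k0,k0,k0,k1,k2]]
    [.ref k25 k0 [(z3,[z4,z1]),(z3,[y2,z4,z9]),(z6,[y5,z10,z0,z3]),(z6,[y1,z2,z0,z0,z9]),(z3,[z1,y2])],
    .ref k25 k0 [(z4,[z6,z6,z6,z1,z3,y6]),(z8,[y6,z6,z18,y1,y3,z6]),(z32,[y30,z30,y30,z11,y15,z30]),(z32,[y6,z6,y6,y1,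
    z45,z6]),(z16,[z6,y6,z6,z1,z3,y6])],.ref k25 k0 [(z1,[z2,y1,y2]),(z1,[y1,z2,z4]),(z4,[y5,z10,z5,z2]),(z4,[y1,z2,
    z1,z0,z6]),(z2,[z1,y2,y1])],.ref k25 k0 [(z1,[z6,z3,z0,z1,z3,y6]),(z2,[y6,z0,z6,y1,y3,z6]),(z8,[y30,z0,z0,y1,y15,
    z30]),(z8,[y6,z0,z0,y1,z9,z6]),(z4,[z6,z0,z0,z1,z3,y6])],.ref k25 k0 [(z1,[y24,z27,z24,z4]),(z1,[z12,y12,y9,y2]),
    (z1,[z15,y15,y15,y2]),(z2,[z6,y6,y6,y1,z3]),(z1,[y6,z6,z6,z1])],.ref k25 k0 [(z1,[z8,z3,z8,z0,z4,y8]),(z1,[y4,z0,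
    y1,z0,y2,z4]),(z2,[y10,z0,y10,z1,y5,z10]),(z1,[y1,z0,y1,z0,z1,z1]),(z1,[z2,z0,z2,z0,z1,y2])],.ref k25 k0 [(z7,
    [z24,z21,z24,z4,z0,y24]),(z7,[y12,z0,z9,y2,z0,z12]),(z7,[y15,z0,y15,z1,z0,z15]),(z14,[y6,z0,y6,y1,z21,z6]),(z7,
    [z6,z0,z6,z1,z0,y6])],.ref k25 k0 [(z1,[z4,y1,y4]),(z1,[y2,z2,z5]),(z2,[y5,z5,z5,z1]),(z2,[y1,z1,z1,z0,z3]),(z1,
    [z1,y1,y1])],.ref k25 k0 [(z5,[z24,y9,z0,y4]),(z5,[y12,z12,z15,z2]),(z1,[y3,z3,z0,z1]),(z10,[y6,z6,z0,z1,z15]),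
    (z5,[z6,y6,z0,y1])],.ref k25 k0 [(z3,[z8,z1,z0,z0,y4]),(z3,[y4,z4,z9,z0,z2]),(z6,[y10,z10,z0,z3,z5]),(z3,[y1,z1,
    z0,z0,z5]),(z3,[z2,y2,z0,z0,y1])],.ref k25 k0 [(z5,[z12,z15,z12,z2,z6,y12]),(z5,[y6,z0,z9,y1,y3,z6]),(z4,[y6,z0,
    y6,z1,y3,z6]),(z20,[y6,z0,y6,y1,z27,z6]),(z10,[z6,z0,z6,z1,z3,y6])],.ref k25 k0 [(z1,[z3,z6,z6,z1,z3,y6]),(z2,[y3,
    y3,z0,y1,y3,z6]),(z8,[y15,y15,y30,y1,y15,z30]),(z8,[y3,y3,y6,y1,z9,z6]),(z4,[z3,z3,z6,z1,z3,y6])],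
    .ref k25 k0 [(z3,[y8,z9,z16,z0,z4]),(z3,[z4,z0,z1,z0,y2]),(z6,[z10,z0,y20,z3,y5]),(z3,[z1,z0,y2,z0,z4]),(z3,[y2,
    z0,z4,z0,z1])],.ref k25 k0 [(z2,[y6,z0,z6,y1,y3,z6]),(z4,[z6,z6,z6,z1,z3,y6]),(z16,[z30,z30,y30,z13,z15,y30]),
    (z16,[z6,z6,y6,z1,z27,y6]),(z8,[y6,y6,z6,y1,y3,z6])],.ref k25 k0 [(z3,[y8,z1,z0,z0,y4,z8]),(z3,[z4,z4,z9,z0,z2,
    y4]),(z6,[z10,z10,z0,z3,z5,y10]),(z3,[z1,z1,z0,z0,z5,y1]),(z3,[y2,y2,z0,z0,y1,z2])],.ref k25 k0 [(z5,[y24,y9,z0,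
    y4,z0,z24]),(z5,[z12,z12,z15,z2,z0,y12]),(z1,[z3,z3,z0,z1,z0,y3]),(z10,[z6,z6,z0,z1,z15,y6]),(z5,[y6,y6,z0,y1,z0,
    z6])],.ref k25 k0 [(z1,[y12,y9,z0,y2,y6,z12]),(z1,[z6,z6,z3,z1,z3,y6]),(z4,[z30,z30,z0,z7,z15,y30]),(z4,[z6,z6,z0,
    z1,z9,y6]),(z2,[y6,y6,z0,y1,y3,z6])],.ref k25 k0 [(z1,[y6,y9,y6,y2,y6,z12]),(z1,[z3,z6,z6,z1,z3,y6]),(z4,[z15,z30,
    z15,z7,z15,y30]),(z4,[z3,z6,z3,z1,z9,y6]),(z2,[y3,y6,y3,y1,y3,z6])],.ref k25 k0 [(z5,[y12,z3,y12,z2,y6,z12]),(z5,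
    [z6,z6,z21,y1,z3,y6]),(z4,[z6,z6,z6,z1,z3,y6]),(z20,[z6,z6,z6,y1,z33,y6]),(z10,[y6,y6,y6,z1,y3,z6])],
    .ref k25 k0 [(z1,[y4,y1,y4,z0,z0,z4]),(z1,[z2,z2,z5,z0,z0,y2]),(z2,[z5,z5,z5,z1,z0,y5]),(z2,[z1,z1,z1,z0,z3,y1]),
    (z1,[y1,y1,y1,z0,z0,z1])],.ref k25 k0 [(z1,[y8,y5,y8,z0,y4,z8]),(z1,[z4,z4,z7,z0,z2,y4]),(z2,[z10,z10,z10,z1,z5,
    y10]),(z1,[z1,z1,z1,z0,z2,y1]),(z1,[y2,y2,y2,z0,y1,z2])],.ref k25 k0 [(z5,[y24,y33,y48,y4,y24,z48]),(z5,[z12,z24,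
    z39,z2,z12,y24]),(z1,[z3,z6,z6,z1,z3,y6]),(z10,[z6,z12,z12,z1,z21,y12]),(z5,[y6,y12,y12,y1,y6,z12])],
    .ref k25 k0 [(z1,[y24,y45,y48,y8,y12,z48]),(z1,[z12,z24,z27,z4,z6,y24]),(z2,[z30,z60,z60,z11,z15,y60]),(z1,[z3,z6,
    z6,z1,z3,y6]),(z1,[y6,y12,y12,y2,y3,z12])],.ref k25 k0 [(z1,[z12,z27,z24,z4,z12,y24]),(z1,[y6,y12,y9,y2,y6,z12]),
    (z2,[y15,y30,y30,y4,y15,z30]),(z2,[y3,y6,y6,y1,z0,z6]),(z1,[z3,z6,z6,z1,z3,y6])]],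
    .lp k0 [k40,k40,k40,k44,k44,k30] [k2,k2,k2,k2,k2,k2,k0,k0,k0,k0,k7,k7] k0 [[k0,k0,k0,k0,k0,k0,k0,k0,k0,k0,k0,k0],
    [k0,k0,k0,k0,k2,k0,k0,k0,k0,k0,k0,k2],[k0,k0,k0,k0,k2,k0,k0,k0,k0,k0,k0,k2],[k0,k0,k0,k0,k0,k0,k0,k0,k0,k0,k0,k0],
    [k0,k0,k0,k0,k0,k0,k0,k0,k0,k0,k2,k0],[k2,k0,k0,k2,k0,k0,k0,k0,k0,k0,k0,k0],[k0,k0,k0,k0,k0,k0,k0,k0,k0,k0,k2,k0],
    [k0,k0,k0,k0,k0,k0,k0,k0,k0,k0,k2,k0],[k0,k0,k0,k0,k0,k0,k0,k0,k0,k0,k0,k0],[k0,k0,k0,k0,k0,k0,k0,k0,k0,k0,k2,k0],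
    [k2,k0,k0,k2,k0,k0,k0,k0,k0,k0,k0,k0],[k0,k0,k0,k0,k0,k2,k2,k2,k2,k0,k0,k0]] k120 k5
    [[(k11,k33),(k10,k35),(k4,k38),(k1,k40),(k2,k40),(k3,k40),(k6,k40),(k9,k40),(k0,k42),(k5,k42),(k7,k42),(k8,k42)],
    [(k10,k35),(k11,k35),(k0,k40),(k2,k40),(k3,k40),(k5,k40),(k1,k42),(k4,k42),(k6,k42),(k7,k42),(k8,k42),(k9,k42)],
    [(k10,k33),(k11,k35),(k0,k40),(k1,k40),(k2,k40),(k3,k40),(k4,k40),(k5,k40),(k7,k40),(k6,k42),(k8,k42),(k9,k42)],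
    [(k10,k33),(k11,k35),(k0,k40),(k1,k40),(k2,k40),(k3,k40),(k4,k40),(k5,k40),(k7,k40),(k6,k42),(k8,k42),(k9,k42)],
    [(k10,k35),(k11,k35),(k0,k40),(k2,k40),(k3,k40),(k5,k40),(k1,k42),(k4,k42),(k6,k42),(k7,k42),(k8,k42),(k9,k42)],
    [(k10,k35),(k11,k35),(k1,k38),(k2,k40),(k3,k40),(k4,k40),(k0,k42),(k5,k42),(k6,k42),(k7,k42),(k8,k42),(k9,k42)],
    [(k11,k37),(k10,k39),(k2,k40),(k3,k40),(k0,k42),(k1,k42),(k4,k42),(k5,k42),(k6,k44),(k7,k44),(k8,k44),(k9,k44)],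
    [(k11,k37),(k10,k39),(k1,k40),(k0,k42),(k2,k42),(k3,k42),(k4,k42),(k5,k42),(k6,k44),(k7,k44),(k8,k44),(k9,k44)],
    [(k11,k37),(k10,k39),(k1,k40),(k0,k42),(k2,k42),(k3,k42),(k4,k42),(k5,k42),(k6,k44),(k7,k44),(k8,k44),(k9,k44)],
    [(k11,k37),(k10,k39),(k0,k42),(k1,k42),(k2,k42),(k3,k42),(k4,k42),(k5,k42),(k6,k44),(k7,k44),(k8,k44),(k9,k44)],
    [(k10,k30),(k11,k30),(k1,k33),(k0,k35),(k2,k35),(k3,k35),(k4,k35),(k5,k35),(k6,k37),(k7,k37),(k8,k37),(k9,k37)],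
    [(k10,k30),(k11,k30),(k2,k33),(k3,k33),(k0,k35),(k1,k35),(k4,k35),(k5,k35),(k6,k39),(k7,k39),(k8,k39),(k9,k39)]]
    [[k2,k0,k0,k0,k0,k1],[k1,k1,k0,k0,k0,k1],[k1,k1,k1,k0,k0,k0],[k1,k0,k1,k0,k0,k1],[k1,k0,k0,k1,k0,k1],[k1,k0,k0,k0,
    k1,k1],[k1,k0,k0,k0,k0,k2],[k0,k2,k0,k0,k0,k1],[k0,k1,k1,k0,k0,k1],[k0,k1,k0,k1,k0,k1],[k0,k1,k0,k0,k1,k1],[k0,k1,
    k0,k0,k0,k2],[k0,k0,k2,k0,k0,k1],[k0,k0,k1,k1,k0,k1],[k0,k0,k1,k0,k1,k1],[k0,k0,k1,k0,k0,k2],[k0,k0,k0,k1,k0,k2],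
    [k0,k0,k0,k0,k1,k2],[k0,k0,k0,k0,k0,k3]]
    [.ref k74 k3 [(z1,[y1,y9,y11,y5,z11]),(z1,[z2,y4,z0,y1]),(z1,[y5,z10,z0,z8]),(z1,[z8,y5,z0,y4])],
    .ref k75 k10 [(z1,[z4,y4,y3,y2]),(z1,[y8,z9,z8,z4]),(z1,[z5,y5,y5,y2]),(z1,[y2,z2,z2,z1])],.ref k76 k1 [(z1,[z1,
    z3,z3,z2,y4]),(z1,[z0,z4,z5,z2,y4]),(z1,[z0,y7,y8,y4,z8]),(z1,[y1,z2,z2,z1,y1])],.ref k77 k0 [(z1,[z8,y5,z0,y4]),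
    (z1,[y4,z4,z3,z2]),(z1,[y5,z5,z0,z4]),(z1,[y1,y2,y3,y1,z3])],.ref k78 k4 [(z1,[z2,z0,z2,z1,y2]),(z1,[y1,y7,y8,y4,
    z8]),(z1,[y5,z0,y5,z1,z5]),(z1,[y4,z0,z3,y2,z4])],.ref k79 k3 [(z1,[y1,y4,y5,y2,z5]),(z1,[z2,y2,z0,y1]),(z1,[y1,
    z1,z0,z1]),(z1,[z8,y3,z0,y4])],.ref k75 k10 [(z1,[z2,y2,z1,y2]),(z1,[y4,z5,z0,z4]),(z2,[z5,y5,z0,y4]),(z1,[y1,z1,
    z0,z1])],.ref k80 k1 [(z1,[y1,z13,z15,z7,y13]),(z1,[z0,z4,z5,z2,y4]),(z1,[z0,y7,y8,y4,z8]),(z1,[z1,y8,y10,y4,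
    z8])],.ref k77 k0 [(z3,[y8,z9,z8,z4]),(z3,[z4,z0,z5,y2]),(z3,[z5,z0,y5,z2]),(z3,[z1,y9,y10,y5,z9])],
    .ref k81 k1 [(z1,[y1,z9,z10,z5,y9]),(z1,[z0,z4,z5,z2,y4]),(z1,[z0,y7,y8,y4,z8]),(z1,[z1,y4,y5,y2,z4])],
    .ref k82 k1 [(z1,[y1,z7,z8,z4,y7]),(z1,[z0,z4,z5,z2,y4]),(z1,[z0,y7,y8,y4,z8]),(z1,[z1,y2,y3,y1,z2])],
    .ref k82 k1 [(z2,[y1,z14,z15,z8,y14]),(z1,[z0,z4,z5,z2,y4]),(z1,[z0,y7,y8,y4,z8]),(z2,[z1,y4,y5,y2,z4])],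
    .ref k79 k3 [(z1,[z1,y5,y5,y3,z5]),(z1,[y2,z0,z0,z1]),(z1,[z1]),(z1,[y8,z5,z0,z4])],.ref k77 k0 [(z1,[y4,y1,y4,z0,
    z4]),(z1,[z2,z2,z5,z0,y2]),(z2,[z5,z5,z5,z3,y5]),(z2,[z1,y5,y5,y3,z5])],.ref k77 k0 [(z1,[y8,z3,z0,z4]),(z1,[z4,
    z0,z3,y2]),(z1,[z5,z0,z0,y1]),(z1,[z1,y3,y3,y2,z3])],.ref k81 k1 [(z1,[y1,z10,z10,z6,y10]),(z1,[z0,z4,z5,z2,y4]),
    (z1,[z0,y7,y8,y4,z8]),(z1,[z1,y5,y5,y3,z5])],.ref k83 k0 [(z1,[y8,y7,y8,y4,z8]),(z1,[z4,z4,z5,z2,y4]),(z1,[z5,z5,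
    z5,z3,y5]),(z1,[z1])],.ref k76 k1 [(z2,[y1,z8,z8,z5,y8]),(z1,[z0,z4,z5,z2,y4]),(z1,[z0,y7,y8,y4,z8]),(z2,[z1,z2,
    z2,z1,y2])],.ref k84 k0 [(z1,[z0,z1]),(z1,[z0,z0,z1]),(z1,[y2,z0,z0,z3]),(z1,[z0,y2,y2,y1,z2])]],
    .base (.leafM k3 [k1,k2,k3,k4,k5,k0] [(z1,[z0,z0,z1])] []),
    .base (.leafM k0 [k1,k2,k3,k4,k5,k0] [(z1,[y1,y1,z0,z1])] []),
    .base (.leafM k3 [k3,k4,k5,k0,k1,k2] [(z1,[z1,z1])] []),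
    .base (.leafM k0 [k1,k2,k3,k4,k5,k0] [(z1,[y1,y1,z0,z1])] []),
    .base (.leafM k1 [k0,k1,k2,k3,k4,k5] [(z1,[y1,z0,y1,z1]),(z1,[z1,z0,z1])] []),
    .base (.leafM k3 [k5,k0,k1,k2,k3,k4] [(z1,[z0,y1,z0,z1])] []),
    .base (.leafM k3 [k0,k1,k2,k3,k4,k5] [(z1,[y1,z0,y1,z1])] []),
    .base (.leafM k0 [k2,k3,k4,k5,k0,k1] [(z2,[y2,y1,y1,z2])] []),
    .lp k0 [k158,k168,k164,k160,k158,k150] [k5,k5,k0,k0,k2,k2,k4,k4,k5,k5,k9,k9] k0 [[k0,k0,k0,k0,k0,k0,k0,k0,k6,k6,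
    k6,k2],[k0,k0,k0,k0,k12,k4,k4,k12,k0,k0,k0,k0],[k0,k0,k0,k16,k8,k0,k0,k4,k0,k10,k0,k0],[k0,k0,k0,k0,k0,k0,k0,k0,
    k0,k6,k6,k6],[k4,k0,k0,k0,k0,k0,k0,k0,k0,k0,k0,k16],[k12,k0,k0,k8,k0,k0,k0,k0,k6,k2,k0,k6],[k12,k0,k0,k4,k0,k0,k0,
    k0,k24,k24,k0,k24],[k4,k0,k0,k0,k0,k0,k0,k0,k0,k0,k0,k10],[k0,k6,k6,k10,k2,k0,k0,k24,k0,k0,k0,k0],[k0,k6,k0,k0,k6,
    k0,k0,k24,k0,k0,k14,k0],[k0,k2,k6,k0,k6,k16,k10,k24,k0,k0,k0,k0],[k0,k6,k6,k0,k0,k0,k0,k0,k14,k0,k0,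
    k0]] (nat_lit 480) k5
    [[(k11,k140),(k0,k152),(k10,k154),(k5,k155),(k1,k158),(k8,k158),(k3,k165),(k4,k167),(k2,k169),(k6,k169),(k7,k175),
    (k9,k182)],[(k11,k148),(k1,k152),(k8,k152),(k10,k152),(k0,k158),(k5,k161),(k2,k163),(k3,k163),(k6,k163),(k7,k163),
    (k9,k170),(k4,k173)],[(k6,k152),(k7,k152),(k9,k159),(k4,k162),(k0,k163),(k1,k165),(k10,k165),(k11,k165),(k5,k166),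
    (k2,k168),(k3,k168),(k8,k169)],[(k2,k152),(k8,k153),(k7,k156),(k6,k160),(k0,k163),(k9,k163),(k10,k165),(k11,k165),
    (k4,k166),(k5,k166),(k3,k168),(k1,k169)],[(k10,k151),(k1,k155),(k8,k155),(k0,k161),(k6,k162),(k7,k162),(k9,k165),
    (k2,k166),(k3,k166),(k11,k167),(k4,k172),(k5,k180)],[(k10,k141),(k11,k159),(k9,k161),(k3,k162),(k6,k162),(k7,
    k162),(k4,k164),(k2,k166),(k1,k167),(k8,k167),(k5,k172),(k0,k173)],[(k10,k149),(k11,k149),(k3,k152),(k2,k156),(k8,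
    k157),(k9,k159),(k6,k160),(k7,k160),(k4,k162),(k5,k162),(k0,k163),(k1,k175)],[(k10,k131),(k11,k131),(k8,k135),(k3,
    k152),(k9,k159),(k2,k160),(k6,k160),(k7,k160),(k4,k162),(k5,k162),(k0,k163),(k1,k169)],[(k10,k144),(k9,k158),(k3,
    k159),(k6,k159),(k7,k159),(k4,k161),(k2,k163),(k5,k165),(k0,k170),(k11,k178),(k1,k182),(k8,k182)],[(k6,k135),(k0,
    k152),(k2,k153),(k11,k154),(k5,k155),(k7,k157),(k1,k158),(k8,k158),(k4,k167),(k10,k168),(k3,k169),(k9,k182)],[(k6,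
    k131),(k1,k140),(k0,k148),(k7,k149),(k10,k150),(k11,k150),(k8,k154),(k4,k159),(k2,k165),(k3,k165),(k5,k167),(k9,
    k178)],[(k6,k131),(k4,k141),(k9,k144),(k7,k149),(k10,k150),(k11,k150),(k5,k151),(k0,k152),(k1,k154),(k2,k165),(k3,
    k165),(k8,k168)]]
    [[k3,k0,k0,k0,k0,k0],[k2,k0,k0,k0,k0,k1],[k1,k1,k0,k0,k0,k1],[k1,k0,k1,k0,k0,k1],[k1,k0,k1,k0,k1,k0],[k1,k0,k0,k1,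
    k0,k1],[k1,k0,k0,k0,k2,k0],[k1,k0,k0,k0,k1,k1],[k1,k0,k0,k0,k0,k2],[k0,k2,k0,k1,k0,k0],[k0,k1,k1,k0,k0,k1],[k0,k1,
    k0,k2,k0,k0],[k0,k1,k0,k1,k1,k0],[k0,k1,k0,k1,k0,k1],[k0,k1,k0,k0,k1,k1],[k0,k0,k1,k1,k0,k1],[k0,k0,k1,k1,k1,k0],
    [k0,k0,k1,k0,k1,k1],[k0,k0,k1,k0,k0,k2],[k0,k0,k0,k2,k1,k0],[k0,k0,k0,k2,k0,k1],[k0,k0,k0,k1,k2,k0],[k0,k0,k0,k1,
    k1,k1],[k0,k0,k0,k1,k0,k2],[k0,k0,k0,k0,k1,k2],[k0,k0,k0,k0,k0,k3]]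
    [.ref k25 k0 [(z1,[z1]),(z2,[y1,z3,z6]),(z1,[z4,y12,z0,z3]),(z1,[y2,z6,z0,z0,z3]),(z4,[y11,z21,y12,y12,y12,z12])],
    .ref k25 k0 [(z3,[z4,z1]),(z3,[y2,z4,z9]),(z3,[z16,y32,z0,z9]),(z3,[y8,z16,z0,z0,z9]),(z3,[y11,z13,y9,y9,y9,z9])],
    .ref k25 k0 [(z1,[z4,y1,y4]),(z1,[y2,z2,z5]),(z1,[z16,y16,y16,z3]),(z1,[y8,z8,z8,z0,z3]),(z1,[y11,z8,z8,y3,y3,
    z3])],.ref k25 k0 [(z7,[z4,z17,z0,y4]),(z7,[y2,z2,z21,z2]),(z7,[z16,y16,z0,z5]),(z7,[y8,z8,z0,z8,z21]),(z7,[y11,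
    y10,y21,y10,y21,z21])],.ref k25 k0 [(z3,[z4,z9,z4,z0,z4,y4]),(z3,[y2,z0,z7,z0,y2,z2]),(z3,[z16,z0,z16,z9,z16,
    y16]),(z3,[y8,z0,y8,z0,z1,z8]),(z3,[y11,y9,y20,y9,y20,z20])],.ref k25 k0 [(z1,[y4,z7,z0,z0,z4]),(z1,[z2,y2,z3,z0,
    y2]),(z1,[y16,z16,z0,z3,z16]),(z1,[z8,y8,z0,z0,y5]),(z1,[z11,y14,y3,y3,y14,z3])],.ref k25 k0 [(z3,[y2,z7,y4,y4,y4,
    z4]),(z3,[z1,z1,z11,z2,z2,y2]),(z3,[y8,y8,y16,y7,y16,z16]),(z3,[z4,z4,z8,z8,z17,y8]),(z6,[z11,y7,z4,z4,z4,y4])],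
    .ref k25 k0 [(z1,[y2,z3,y2,y2,y2,z2]),(z1,[z1,z0,z4,z1,z1,y1]),(z1,[y8,z0,y8,y5,y8,z8]),(z1,[z4,z0,z4,z4,z7,y4]),
    (z2,[z11,y6,z5,z5,z5,y5])],.ref k25 k0 [(z1,[z2,z1]),(z1,[y1,z1,z3]),(z1,[z8,y8,z0,z3]),(z1,[y4,z4,z0,z0,z3]),(z2,
    [y11,z5,y6,y6,y6,z6])],.ref k25 k0 [(z1,[y1,z3,z2,z0,z1]),(z2,[z1,z0,z4,z0,y1]),(z1,[y4,z0,z8,z3,z4]),(z1,[z2,z0,
    y4,z0,z1]),(z4,[z11,y12,y34,y12,y23,z12])],.ref k25 k0 [(z5,[z4,z15,y4,y4]),(z5,[y2,z0,z17,z2]),(z5,[z16,z0,y16,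
    y1]),(z5,[y8,z0,z8,z8,z15]),(z5,[y11,y15,y4,y4,y15,z15])],.ref k25 k0 [(z3,[y2,z9,z2,z0,z4]),(z3,[z1,z0,z8,z0,
    y2]),(z3,[y8,z0,z8,z9,z16]),(z3,[z4,z0,y4,z0,z1]),(z6,[z11,y18,y29,y18,y40,z18])],.ref k25 k0 [(z7,[y4,z17,z0,y4,
    z0,z4]),(z7,[z2,z2,z21,z2,z0,y2]),(z7,[y16,y16,z0,z5,z0,z16]),(z7,[z8,z8,z0,z8,z21,y8]),(z7,[z11,y10,y21,y10,y21,
    z10])],.ref k25 k0 [(z3,[y4,z9,z4,z0,z4]),(z3,[z2,z0,z7,z0,y2]),(z3,[y16,z0,z16,z9,z16]),(z3,[z8,z0,y8,z0,z1]),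
    (z3,[z11,y9,y20,y9,y20,z9])],.ref k25 k0 [(z1,[y1,z2,z0,y1,y1,z1]),(z2,[z1,z1,z6,z1,z1,y1]),(z1,[y4,y4,z0,y1,y4,
    z4]),(z1,[z2,z2,z0,z2,z5,y2]),(z4,[z11,y1,y12,y1,y1,z1])],.ref k25 k0 [(z3,[z4,z9,z0,y4,y4]),(z3,[y2,z0,z9,z2,
    z2]),(z3,[z16,z0,z0,y7,y16]),(z3,[y8,z0,z0,z8,z17]),(z3,[y11,y9,y9,z2,z2,z9])],.ref k25 k0 [(z1,[y4,y1,y4,z0,z0,
    z4]),(z1,[z2,z2,z5,z0,z0,y2]),(z1,[y16,y16,y16,z3,z0,z16]),(z1,[z8,z8,z8,z0,z3,y8]),(z1,[z11,z8,z8,y3,y3,y8])],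
    .ref k25 k0 [(z1,[z2,z5,z2,z0,z2,y2]),(z1,[y1,y1,z2,z0,y1,z1]),(z1,[z8,z8,z8,z3,z8,y8]),(z1,[y4,y4,y4,z0,y1,z4]),
    (z2,[y11,y17,y17,y6,y17,z17])],.ref k25 k0 [(z3,[z2,z9,z0,y2]),(z3,[y1,z0,z9,z1]),(z3,[z8,z0,z0,z1]),(z3,[y4,z0,
    z0,z4,z9]),(z6,[y11,y18,y18,y7,y18,z18])],.ref k25 k0 [(z9,[y4,z23,y4,y4,z4,z4]),(z9,[z2,z2,z29,z2,y2,y2]),(z9,
    [y16,y16,y16,z11,z16,z16]),(z9,[z8,z8,z8,z8,z19,y8]),(z9,[z11,y16,y16,y16,y38,z16])],.ref k25 k0 [(z5,[y4,z15,z0,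
    z0,z8]),(z5,[z2,z0,z15,z0,y4]),(z5,[y16,z0,z0,z15,z32]),(z5,[z8,z0,z0,z0,y1]),(z5,[z11,y15,y15,y15,y37,z15])],
    .ref k25 k0 [(z5,[y2,z11,y4,y4,y2,z4]),(z5,[z1,z2,z17,z2,z1,y2]),(z5,[y8,y16,y16,y1,y8,z16]),(z5,[z4,z8,z8,z8,z19,
    y8]),(z10,[z11,y8,y8,y8,y19,z8])],.ref k25 k0 [(z3,[y2,z7,y2,y2,z0,z2]),(z3,[z1,z1,z10,z1,z0,y1]),(z3,[y8,y8,y8,
    z1,z0,z8]),(z3,[z4,z4,z4,z4,z9,y4]),(z6,[z11,y7,y7,y7,y18,z7])],.ref k25 k0 [(z1,[y2,z3,z0,z0,z2]),(z1,[z1,z0,z3,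
    z0,y1]),(z1,[y8,z0,z0,z3,z8]),(z1,[z4,z0,z0,z0,y1]),(z2,[z11,y6,y6,y6,y17,z6])],.ref k25 k0 [(z3,[y4,z5,y4,y4,y4,
    z4]),(z3,[z2,z2,z11,z2,z2,y2]),(z3,[y16,y16,y16,y7,y16,z16]),(z3,[z8,z8,z8,z8,z17,y8]),(z3,[z11,z2,z2,z2,z2,y2])],
    .ref k25 k0 [(z1,[z4,z3]),(z1,[y2,z0,z3]),(z1,[z16,z0,z0,z3]),(z1,[y8,z0,z0,z0,z3]),(z1,[y11,y3,y3,y3,y3,z3])]],
    .base (.leafM k0 [k1,k2,k3,k4,k5,k0] [(z1,[y1,y1,z0,z0,z1])] [])]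

theorem hB6_171_7 : blkB [0, 0, 0, 0, 0, 0] [] sp6 hS6_171 (pcls (n := 6) [0, 0, 0, 0, 0, 0]) hD6_171 560 7 hN6_171_7 = true := by
  decide +kernel

/-- nodes 96 to 107 -/
noncomputable def hN6_171_8 : List HM :=
  [.base (.leafM k3 [k1,k2,k3,k4,k5,k0] [(z1,[y1,y1,z0,y1,z1])] []),
    .base (.leafM k0 [k2,k3,k4,k5,k0,k1] [(z3,[y1,y1,y1,z0,z3])] []),
    .base (.leafM k3 [k3,k4,k5,k0,k1,k2] [(z1,[z0,z0,y1,y1,z1])] []),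
    .base (.leafM k3 [k5,k0,k1,k2,k3,k4] [(z1,[z1,z0,z1,z1])] []),
    .base (.leafM k0 [k0,k1,k2,k3,k4,k5] [(z1,[z0,z1,z1,z1])] []),
    .lp k0 [(nat_lit 652),(nat_lit 654),(nat_lit 700),(nat_lit 592),(nat_lit 666),(nat_lit 572)] [k24,k24,k23,k23,k0,
    k0,k54,k54,k17,k17,k64,k64] k0 [[k0,k0,k14,k6,k0,k0,k0,k0,k0,k64,k64,k0],[k0,k0,k0,k0,k38,k22,k46,k14,k0,k0,k0,
    k0],[k0,k6,k0,k8,k24,k0,k20,k0,k0,k22,k0,k0],[k0,k14,k0,k0,k4,k0,k0,k0,k0,k58,k58,k14],[k22,k0,k0,k0,k0,k60,k84,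
    k0,k0,k0,k0,k98],[k38,k0,k4,k24,k0,k0,k12,k0,k0,k38,k0,k0],[k14,k0,k0,k0,k0,k0,k0,k0,k102,k102,k0,k90],[k46,k0,k0,
    k20,k12,k84,k0,k0,k0,k0,k0,k86],[k0,k64,k58,k22,k38,k0,k0,k102,k0,k0,k0,k0],[k0,k0,k0,k0,k0,k0,k0,k102,k0,k0,k16,
    k0],[k0,k0,k14,k0,k0,k98,k86,k90,k0,k0,k0,k0],[k0,k64,k58,k0,k0,k0,k0,k0,k16,k0,k0,k0]] (nat_lit 1920) k5
    [[(k0,(nat_lit 588)),(k11,(nat_lit 596)),(k10,(nat_lit 612)),(k5,(nat_lit 618)),(k1,(nat_lit 652)),(k3,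
    (nat_lit 653)),(k8,(nat_lit 659)),(k2,(nat_lit 667)),(k4,(nat_lit 676)),(k6,(nat_lit 708)),(k7,(nat_lit 720)),(k9,
    (nat_lit 749))],[(k1,(nat_lit 588)),(k8,(nat_lit 595)),(k10,(nat_lit 612)),(k11,(nat_lit 612)),(k7,(nat_lit 644)),
    (k2,(nat_lit 647)),(k0,(nat_lit 652)),(k3,(nat_lit 653)),(k5,(nat_lit 662)),(k6,(nat_lit 668)),(k9,(nat_lit 673)),
    (k4,(nat_lit 714))],[(k7,(nat_lit 585)),(k6,(nat_lit 609)),(k9,(nat_lit 614)),(k0,(nat_lit 653)),(k1,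
    (nat_lit 653)),(k3,(nat_lit 654)),(k4,(nat_lit 655)),(k8,(nat_lit 660)),(k2,(nat_lit 668)),(k10,(nat_lit 677)),
    (k11,(nat_lit 677)),(k5,(nat_lit 683))],[(k7,(nat_lit 599)),(k6,(nat_lit 623)),(k8,(nat_lit 638)),(k9,
    (nat_lit 640)),(k2,(nat_lit 646)),(k0,(nat_lit 647)),(k1,(nat_lit 667)),(k3,(nat_lit 668)),(k10,(nat_lit 671)),
    (k11,(nat_lit 671)),(k5,(nat_lit 677)),(k4,(nat_lit 681))],[(k1,(nat_lit 618)),(k10,(nat_lit 622)),(k8,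
    (nat_lit 625)),(k7,(nat_lit 642)),(k11,(nat_lit 658)),(k0,(nat_lit 662)),(k6,(nat_lit 666)),(k2,(nat_lit 677)),
    (k3,(nat_lit 683)),(k9,(nat_lit 683)),(k5,(nat_lit 708)),(k4,(nat_lit 724))],[(k10,(nat_lit 538)),(k9,
    (nat_lit 599)),(k4,(nat_lit 640)),(k7,(nat_lit 646)),(k3,(nat_lit 655)),(k6,(nat_lit 658)),(k11,(nat_lit 674)),
    (k1,(nat_lit 676)),(k2,(nat_lit 681)),(k8,(nat_lit 683)),(k0,(nat_lit 714)),(k5,(nat_lit 724))],[(k10,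
    (nat_lit 582)),(k11,(nat_lit 582)),(k3,(nat_lit 585)),(k8,(nat_lit 591)),(k2,(nat_lit 599)),(k9,(nat_lit 617)),
    (k5,(nat_lit 642)),(k0,(nat_lit 644)),(k4,(nat_lit 646)),(k7,(nat_lit 652)),(k6,(nat_lit 676)),(k1,
    (nat_lit 720))],[(k11,(nat_lit 480)),(k10,(nat_lit 492)),(k8,(nat_lit 527)),(k6,(nat_lit 592)),(k3,(nat_lit 609)),
    (k2,(nat_lit 623)),(k9,(nat_lit 629)),(k4,(nat_lit 658)),(k5,(nat_lit 666)),(k0,(nat_lit 668)),(k7,(nat_lit 676)),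
    (k1,(nat_lit 708))],[(k10,(nat_lit 533)),(k4,(nat_lit 599)),(k3,(nat_lit 614)),(k7,(nat_lit 617)),(k6,
    (nat_lit 629)),(k2,(nat_lit 640)),(k9,(nat_lit 666)),(k0,(nat_lit 673)),(k5,(nat_lit 683)),(k11,(nat_lit 721)),
    (k1,(nat_lit 749)),(k8,(nat_lit 768))],[(k6,(nat_lit 527)),(k7,(nat_lit 591)),(k0,(nat_lit 595)),(k11,
    (nat_lit 619)),(k5,(nat_lit 625)),(k10,(nat_lit 635)),(k2,(nat_lit 638)),(k1,(nat_lit 659)),(k3,(nat_lit 660)),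
    (k8,(nat_lit 666)),(k4,(nat_lit 683)),(k9,(nat_lit 768))],[(k6,(nat_lit 480)),(k10,(nat_lit 572)),(k11,
    (nat_lit 572)),(k7,(nat_lit 582)),(k1,(nat_lit 596)),(k0,(nat_lit 612)),(k8,(nat_lit 619)),(k5,(nat_lit 658)),(k2,
    (nat_lit 671)),(k4,(nat_lit 674)),(k3,(nat_lit 677)),(k9,(nat_lit 721))],[(k6,(nat_lit 492)),(k9,(nat_lit 533)),
    (k4,(nat_lit 538)),(k10,(nat_lit 572)),(k11,(nat_lit 572)),(k7,(nat_lit 582)),(k0,(nat_lit 612)),(k1,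
    (nat_lit 612)),(k5,(nat_lit 622)),(k8,(nat_lit 635)),(k2,(nat_lit 671)),(k3,(nat_lit 677))]]
    [[k3,k0,k0,k0,k0,k0],[k2,k1,k0,k0,k0,k0],[k2,k0,k0,k0,k0,k1],[k1,k1,k0,k0,k1,k0],[k1,k0,k1,k0,k0,k1],[k1,k0,k1,k0,
    k1,k0],[k1,k0,k0,k1,k0,k1],[k1,k0,k0,k0,k1,k1],[k1,k0,k0,k0,k0,k2],[k0,k2,k0,k1,k0,k0],[k0,k1,k1,k0,k0,k1],[k0,k1,
    k0,k2,k0,k0],[k0,k1,k0,k1,k1,k0],[k0,k1,k0,k1,k0,k1],[k0,k1,k0,k0,k1,k1],[k0,k0,k1,k1,k1,k0],[k0,k0,k1,k1,k0,k1],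
    [k0,k0,k1,k2,k0,k0],[k0,k0,k1,k0,k1,k1],[k0,k0,k1,k0,k0,k2],[k0,k0,k0,k2,k1,k0],[k0,k0,k0,k2,k0,k1],[k0,k0,k0,k1,
    k2,k0],[k0,k0,k0,k1,k1,k1],[k0,k0,k0,k1,k0,k2],[k0,k0,k0,k0,k1,k2],[k0,k0,k0,k0,k0,k3]]
    [.ref k25 k0 [(z1,[z1]),(z2,[y1,z3,z6]),(z4,[z5,y15,z0,z4]),(z1,[y2,z6,z0,z0,z3]),(z1,[z0,y3,y3,y1,y3,z3])],
    .ref k25 k0 [(z1,[z2,y1,y2]),(z1,[y1,z2,z4]),(z2,[z5,y10,y5,z2]),(z1,[y4,z8,z4,z0,z3]),(z1,[z0,y3,y3,y1,y3,z3])],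
    .ref k25 k0 [(z3,[z4,z1]),(z3,[y2,z4,z9]),(z3,[z5,y10,z0,z3]),(z3,[y8,z16,z0,z0,z9]),(z1,[z0,y3,y3,y1,y3,z3])],
    .ref k25 k0 [(z1,[z6,z3,z0,z2,z6,y6]),(z1,[y3,z0,z3,y1,y3,z3]),(z2,[z15,z0,z0,z7,z15,y15]),(z1,[y12,z0,z0,y4,y9,
    z12]),(z1,[z0,y3,y3,y1,y3,z3])],.ref k25 k0 [(z5,[z6,z9,z0,y2]),(z5,[y3,z3,z15,z1]),(z2,[z3,y3,z0,z1]),(z5,[y12,
    z12,z0,z4,z15]),(z1,[z0,y3,y3,y1,y3,z3])],.ref k25 k0 [(z3,[z4,z9,z4,z0,z4,y4]),(z3,[y2,z0,z7,z0,y2,z2]),(z3,[z5,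
    z0,z5,z3,z5,y5]),(z3,[y8,z0,y8,z0,z1,z8]),(z1,[z0,y3,y3,y1,y3,z3])],.ref k25 k0 [(z1,[y4,z7,z0,z0,z4]),(z1,[z2,y2,
    z3,z0,y2]),(z1,[y5,z5,z0,z1,z5]),(z1,[z8,y8,z0,z0,y5]),(z1,[z0,y3,y3,y1,y3,z3])],.ref k25 k0 [(z5,[z12,z15,z12,z4,
    z12,y12]),(z5,[y6,z0,z9,y2,y6,z6]),(z1,[z3,z0,z3,z2,z3,y3]),(z5,[y24,z0,y24,y8,y9,z24]),(z1,[z0,y3,y3,y1,y3,z3])],
    .ref k25 k0 [(z1,[z2,z1]),(z1,[y1,z1,z3]),(z2,[z5,y5,z0,z2]),(z1,[y4,z4,z0,z0,z3]),(z1,[z0,y3,y3,y1,y3,z3])],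
    .ref k25 k0 [(z1,[y1,z3,z2,z0,z1]),(z2,[z1,z0,z4,z0,y1]),(z4,[y5,z0,z10,z4,z5]),(z1,[z2,z0,y4,z0,z1]),(z1,[z0,y3,
    y3,y1,y3,z3])],.ref k25 k0 [(z1,[z3,z3,y3,y1]),(z2,[y3,z0,z9,z1]),(z4,[z15,z0,y15,y1]),(z1,[y6,z0,z6,z2,z3]),(z1,
    [z0,y3,y3,y1,y3,z3])],.ref k25 k0 [(z3,[y2,z9,z2,z0,z4]),(z3,[z1,z0,z8,z0,y2]),(z6,[y5,z0,z5,z6,z10]),(z3,[z4,z0,
    y4,z0,z1]),(z1,[z0,y3,y3,y1,y3,z3])],.ref k25 k0 [(z5,[y6,z9,z0,y2,z0,z6]),(z5,[z3,z3,z15,z1,z0,y3]),(z2,[y3,y3,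
    z0,z1,z0,z3]),(z5,[z12,z12,z0,z4,z15,y12]),(z1,[z0,y3,y3,y1,y3,z3])],.ref k25 k0 [(z3,[y4,z9,z4,z0,z4]),(z3,[z2,
    z0,z7,z0,y2]),(z3,[y5,z0,z5,z3,z5]),(z3,[z8,z0,y8,z0,z1]),(z1,[z0,y3,y3,y1,y3,z3])],.ref k25 k0 [(z1,[y12,y9,z0,
    y4,y12,z12]),(z1,[z6,z6,z3,z2,z6,y6]),(z1,[y15,y15,z0,y4,y15,z15]),(z1,[z24,z24,z0,z8,z27,y24]),(z1,[z0,y3,y3,y1,
    y3,z3])],.ref k25 k0 [(z1,[y4,y1,y4,z0,z0,z4]),(z1,[z2,z2,z5,z0,z0,y2]),(z1,[y5,y5,y5,z1,z0,z5]),(z1,[z8,z8,z8,z0,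
    z3,y8]),(z1,[z0,y3,y3,y1,y3,z3])],.ref k25 k0 [(z1,[y6,z3,z0,z2,z6]),(z1,[z3,z0,z3,y1,y3]),(z2,[y15,z0,z0,z7,
    z15]),(z1,[z12,z0,z0,y4,y9]),(z1,[z0,y3,y3,y1,y3,z3])],.ref k25 k0 [(z11,[y12,z33,z0,z4,z24]),(z11,[z6,z0,z33,y2,
    y12]),(z11,[y15,z0,z0,z16,z30]),(z11,[z24,z0,z0,y8,y15]),(z1,[z0,y3,y3,y1,y3,z3])],.ref k25 k0 [(z1,[z2,z5,z2,z0,
    z2,y2]),(z1,[y1,y1,z2,z0,y1,z1]),(z2,[z5,z5,z5,z2,z5,y5]),(z1,[y4,y4,y4,z0,y1,z4]),(z1,[z0,y3,y3,y1,y3,z3])],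
    .ref k25 k0 [(z7,[z12,z21,z0,y4]),(z7,[y6,z0,z21,z2]),(z7,[z15,z0,z0,z2]),(z7,[y24,z0,z0,z8,z21]),(z1,[z0,y3,y3,
    y1,y3,z3])],.ref k25 k0 [(z4,[y3,z9,y3,y1,z3,z3]),(z8,[z3,z3,z27,z1,y3,y3]),(z16,[y15,y15,y15,z11,z15,z15]),(z2,
    [z3,z3,z3,z1,z3,y3]),(z1,[z0,y3,y3,y1,y3,z3])],.ref k25 k0 [(z5,[y4,z15,z0,z0,z8]),(z5,[z2,z0,z15,z0,y4]),(z1,[y1,
    z0,z0,z1,z2]),(z5,[z8,z0,z0,z0,y1]),(z1,[z0,y3,y3,y1,y3,z3])],.ref k25 k0 [(z2,[y3,z0,y6,y2,y3,z6]),(z4,[z3,z6,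
    z18,z2,z3,y6]),(z8,[y15,y30,y30,y2,y15,z30]),(z1,[z3,z6,z6,z2,z6,y6]),(z1,[z0,y3,y3,y1,y3,z3])],.ref k25 k0 [(z7,
    [y12,z9,y12,y4,z0,z12]),(z7,[z6,z6,z27,z2,z0,y6]),(z7,[y15,y15,y15,z2,z0,z15]),(z7,[z24,z24,z24,z8,z21,y24]),(z1,
    [z0,y3,y3,y1,y3,z3])],.ref k25 k0 [(z1,[y2,z3,z0,z0,z2]),(z1,[z1,z0,z3,z0,y1]),(z2,[y5,z0,z0,z2,z5]),(z1,[z4,z0,
    z0,z0,y1]),(z1,[z0,y3,y3,y1,y3,z3])],.ref k25 k0 [(z1,[z6,z9,z6,z2,z6,y6]),(z1,[y3,y3,z0,y1,y3,z3]),(z2,[z15,z15,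
    z15,z7,z15,y15]),(z1,[y12,y12,y12,y4,y9,z12]),(z1,[z0,y3,y3,y1,y3,z3])],.ref k25 k0 [(z1,[z4,z3]),(z1,[y2,z0,z3]),
    (z1,[z5,z0,z0,z1]),(z1,[y8,z0,z0,z0,z3]),(z1,[z0,y3,y3,y1,y3,z3])]],
    .lp k0 [k80,k68,k86,k82,k86,k76] [k3,k3,k9,k9,k0,k0,k2,k2,k0,k0,k5,k5] k0 [[k0,k0,k0,k4,k4,k4,k4,k0,k0,k0,k0,k0],
    [k2,k0,k0,k0,k0,k0,k0,k0,k0,k0,k8,k6],[k0,k4,k0,k0,k0,k0,k0,k0,k0,k2,k4,k0],[k0,k0,k0,k0,k0,k0,k0,k0,k0,k0,k0,k0],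
    [k0,k4,k0,k0,k0,k2,k0,k0,k0,k0,k2,k2],[k0,k4,k0,k0,k0,k0,k0,k0,k0,k2,k0,k0],[k0,k0,k0,k0,k0,k0,k0,k2,k2,k0,k0,k0],
    [k0,k4,k0,k0,k0,k0,k0,k0,k0,k0,k0,k0],[k0,k0,k0,k2,k2,k0,k0,k0,k0,k0,k8,k10],[k0,k0,k0,k0,k0,k0,k0,k2,k0,k0,k0,
    k0],[k6,k0,k0,k0,k0,k2,k0,k0,k0,k10,k0,k2],[k8,k0,k0,k4,k0,k2,k0,k0,k0,k8,k0,k0]] (nat_lit 240) k5
    [[(k3,k66),(k2,k70),(k8,k75),(k10,k78),(k4,k81),(k6,k81),(k1,k82),(k5,k83),(k7,k83),(k9,k83),(k0,k86),(k11,k88)],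
    [(k2,k70),(k3,k74),(k7,k77),(k11,k78),(k4,k79),(k9,k79),(k6,k81),(k0,k82),(k5,k83),(k8,k83),(k1,k86),(k10,k86)],
    [(k1,k66),(k3,k66),(k10,k66),(k2,k68),(k11,k72),(k0,k74),(k8,k77),(k9,k77),(k6,k79),(k7,k79),(k4,k81),(k5,k81)],
    [(k2,k68),(k3,k68),(k0,k70),(k1,k70),(k10,k72),(k11,k72),(k6,k75),(k7,k75),(k8,k75),(k4,k77),(k5,k77),(k9,k77)],
    [(k2,k77),(k3,k81),(k0,k83),(k1,k83),(k11,k83),(k6,k84),(k7,k84),(k10,k85),(k4,k86),(k5,k86),(k8,k86),(k9,k86)],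
    [(k2,k77),(k0,k79),(k10,k79),(k1,k81),(k3,k81),(k11,k83),(k4,k84),(k6,k84),(k7,k84),(k5,k86),(k8,k86),(k9,k86)],
    [(k2,k75),(k0,k77),(k3,k79),(k11,k79),(k10,k81),(k6,k82),(k8,k82),(k1,k83),(k4,k84),(k5,k84),(k7,k84),(k9,k84)],
    [(k2,k75),(k11,k77),(k3,k79),(k10,k79),(k6,k80),(k0,k81),(k1,k81),(k7,k82),(k4,k84),(k5,k84),(k8,k84),(k9,k84)],
    [(k2,k77),(k3,k77),(k0,k79),(k10,k81),(k11,k81),(k1,k83),(k6,k84),(k7,k84),(k4,k86),(k5,k86),(k8,k88),(k9,k88)],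
    [(k10,k71),(k1,k75),(k2,k75),(k3,k77),(k11,k81),(k7,k82),(k0,k83),(k6,k84),(k4,k86),(k5,k86),(k8,k86),(k9,k88)],
    [(k2,k72),(k3,k72),(k11,k76),(k6,k77),(k0,k78),(k7,k79),(k8,k81),(k9,k81),(k4,k83),(k5,k83),(k10,k84),(k1,k88)],
    [(k3,k66),(k8,k71),(k2,k72),(k10,k74),(k1,k78),(k4,k79),(k6,k79),(k7,k81),(k9,k81),(k11,k84),(k5,k85),(k0,k86)]]
    [[k2,k1,k0,k0,k0,k0],[k1,k2,k0,k0,k0,k0],[k1,k1,k1,k0,k0,k0],[k1,k1,k0,k1,k0,k0],[k1,k1,k0,k0,k1,k0],[k1,k1,k0,k0,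
    k0,k1],[k1,k0,k0,k1,k1,k0],[k1,k0,k0,k0,k1,k1],[k1,k0,k0,k1,k0,k1],[k0,k3,k0,k0,k0,k0],[k0,k2,k1,k0,k0,k0],[k0,k2,
    k0,k1,k0,k0],[k0,k2,k0,k0,k1,k0],[k0,k2,k0,k0,k0,k1],[k0,k1,k1,k0,k0,k1],[k0,k1,k0,k2,k0,k0],[k0,k1,k0,k1,k1,k0],
    [k0,k1,k0,k1,k0,k1],[k0,k1,k0,k0,k1,k1],[k0,k1,k0,k0,k0,k2],[k0,k0,k0,k1,k1,k1],[k0,k0,k0,k1,k0,k2],[k0,k0,k0,k0,
    k1,k2],[k0,k0,k0,k0,k0,k3]]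
    [.ref k25 k0 [(z7,[z16,y11,y16]),(z7,[y11,z22,z32]),(z7,[y2,z4,z2,z21]),(z7,[y8,z16,z8,z0,z21]),(z7,[z4,y29,y25,
    y21,y21,z21])],.ref k25 k0 [(z1,[y8,z11,z16]),(z2,[z11,y11,y16]),(z1,[z1,y1,y2,z3]),(z1,[z4,y4,y8,z0,z3]),(z1,[y2,
    y1,z1,y3,y3,z3])],.ref k25 k0 [(z1,[z16,y13,y16,y16]),(z1,[y11,z11,z14,z11]),(z1,[y2,z2,z2,z5]),(z1,[y8,z8,z8,z8,
    z3]),(z1,[z4,y7,y7,y7,y3,z3])],.ref k25 k0 [(z1,[y16,z19,z16,z0,z16]),(z1,[z11,y11,y8,z0,y11]),(z1,[z2,y2,y2,z3,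
    y2]),(z1,[z8,y8,y8,z0,y5]),(z1,[y4,z1,z1,y3,z1,z3])],.ref k25 k0 [(z3,[z16,z9,z0,z16,z16,y16]),(z3,[y11,z0,z9,y11,
    y11,z11]),(z3,[y2,z0,z0,z7,y2,z2]),(z3,[y8,z0,z0,y8,z1,z8]),(z3,[z4,y9,y9,y5,y5,z5])],.ref k25 k0 [(z1,[z8,y5,
    y8]),(z2,[y11,z11,z17]),(z1,[y1,z1,z1,z3]),(z1,[y4,z4,z4,z0,z3]),(z1,[z2,y5,y5,y3,y3,z3])],.ref k25 k0 [(z1,[z4,
    z3,z4,z4,z0,y4]),(z4,[y11,z0,z1,y11,z0,z11]),(z2,[y1,z0,y1,z5,z0,z1]),(z1,[y2,z0,y2,y2,z3,z2]),(z1,[z1,y3,y2,y2,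
    y3,z2])],.ref k25 k0 [(z7,[z16,z21,z16,z16,z16,y16]),(z7,[y11,z0,z10,y11,y11,z11]),(z7,[y2,z0,y2,z19,y2,z2]),(z7,
    [y8,z0,y8,y8,z13,z8]),(z7,[z4,y21,y17,y17,y17,z17])],.ref k25 k0 [(z3,[z16,y7,z0,z0,y16]),(z3,[y11,z11,z9,z0,
    z11]),(z3,[y2,z2,z0,z9,z2]),(z3,[y8,z8,z0,z0,z17]),(z3,[z4,y13,y9,y9,y13,z9])],.ref k25 k0 [(z11,[y16,z33,z48]),
    (z1,[z1]),(z11,[z2,z0,y6,z33]),(z11,[z8,z0,y24,z0,z33]),(z11,[y4,y33,y21,y33,y33,z33])],.ref k25 k0 [(z1,[y2,z3,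
    z4,z2]),(z8,[z11,z0,z2,y11]),(z4,[z1,z0,y2,z11]),(z1,[z1,z0,y2,y1,z3]),(z2,[y1,y6,y4,y5,y6,z6])],.ref k25 k0 [(z5,
    [y8,z15,z16,z0,z8]),(z10,[z11,z0,z8,z0,y11]),(z5,[z1,z0,y2,z15,y1]),(z5,[z4,z0,y8,z0,z11]),(z5,[y2,y15,y11,y15,
    y13,z15])],.ref k25 k0 [(z3,[y8,z1,z8,y8,y8,z8]),(z6,[z11,z11,z7,z11,z11,y11]),(z3,[z1,z1,y1,z10,z1,y1]),(z3,[z4,
    z4,y4,z4,z13,y4]),(z3,[y2,y11,y7,y11,y11,z11])],.ref k25 k0 [(z7,[y16,z21,z32]),(z7,[z11,z0,y1]),(z7,[z2,z0,y4,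
    z21]),(z7,[z8,z0,y16,z0,z21]),(z7,[y4,y21,y13,y21,y21,z21])],.ref k25 k0 [(z1,[y4,z3,z4,z4]),(z4,[z11,z0,z1,y11]),
    (z2,[z1,z0,y1,z5]),(z1,[z2,z0,y2,y2,z3]),(z1,[y1,y3,y2,y2,y3,z3])],.ref k25 k0 [(z9,[y16,z27,z16,z0,z32]),(z9,
    [z11,z0,z16,z0,y22]),(z9,[z2,z0,y2,z27,y4]),(z9,[z8,z0,y8,z0,z11]),(z9,[y4,y27,y23,y27,y19,z27])],
    .ref k25 k0 [(z5,[y16,y1,z0,y16,z0,z16]),(z5,[z11,z11,z15,z11,z0,y11]),(z5,[z2,z2,z0,z17,z0,y2]),(z5,[z8,z8,z0,z8,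
    z15,y8]),(z5,[y4,y19,y15,y19,y15,z19])],.ref k25 k0 [(z3,[y8,z9,z8,z0,z8]),(z6,[z11,z0,z7,z0,y11]),(z3,[z1,z0,y1,
    z9,y1]),(z3,[z4,z0,y4,z0,z5]),(z3,[y2,y9,y7,y9,y7,z9])],.ref k25 k0 [(z1,[y8,y5,z0,y8,y8,z8]),(z2,[z11,z11,z6,z11,
    z11,y11]),(z1,[z1,z1,z0,z4,z1,y1]),(z1,[z4,z4,z0,z4,z7,y4]),(z1,[y2,y5,y3,y5,y5,z5])],.ref k25 k0 [(z3,[y16,z9,
    z16]),(z3,[z11,z0,y2]),(z3,[z2,z0,y2,z9]),(z3,[z8,z0,y8,z0,z9]),(z3,[y4,y9,y5,y9,y9,z9])],.ref k25 k0 [(z1,[y16,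
    y13,y16,y16,z0,z16]),(z1,[z11,z11,z14,z11,z0,y11]),(z1,[z2,z2,z2,z5,z0,y2]),(z1,[z8,z8,z8,z8,z3,y8]),(z1,[y4,y7,
    y7,y7,y3,z7])],.ref k25 k0 [(z1,[y8,z3,z0,z0,z8]),(z2,[z11,z0,z6,z0,y11]),(z1,[z1,z0,z0,z3,y1]),(z1,[z4,z0,z0,z0,
    y1]),(z1,[y2,y3,y3,y3,y1,z3])],.ref k25 k0 [(z1,[z8,z11,z8,z8,z8,y8]),(z2,[y11,y11,y5,y11,y11,z11]),(z1,[y1,y1,y1,
    z2,y1,z1]),(z1,[y4,y4,y4,y4,y1,z4]),(z1,[z2,y1,y1,y1,y1,z1])],.ref k25 k0 [(z1,[z16,z3]),(z1,[y11,z0,z3]),(z1,[y2,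
    z0,z0,z3]),(z1,[y8,z0,z0,z0,z3]),(z1,[z4,y3,y3,y3,y3,z3])]],
    .lp k0 [(nat_lit 474),(nat_lit 472),(nat_lit 486),(nat_lit 490),(nat_lit 486),(nat_lit 466)] [k8,k8,k9,k9,k2,k2,
    k0,k0,k2,k2,k12,k12] k0 [[k0,k0,k0,k0,k6,k6,k16,k0,k0,k0,k0,k2],[k78,k0,k0,k0,k0,k0,k4,k0,k0,k0,k0,k92],[k0,k0,k0,
    k0,k0,k0,k0,k0,k0,k2,k6,k4],[k0,k0,k0,k0,k4,k4,k8,k0,k0,k0,k0,k0],[k0,k6,k4,k0,k0,k0,k0,k0,k0,k0,k0,k0],[k0,k6,k4,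
    k0,k0,k0,k0,k0,k0,k0,k4,k0],[k0,k0,k0,k0,k0,k0,k0,k2,k2,k2,k0,k0],[k4,k16,k8,k0,k0,k0,k0,k0,k0,k0,k2,k0],[k0,k0,
    k0,k2,k0,k0,k0,k2,k0,k0,k70,k0],[k0,k0,k0,k0,k0,k0,k0,k2,k0,k0,k0,k0],[k92,k2,k0,k4,k0,k0,k0,k0,k0,k0,k0,k28],[k0,
    k0,k0,k6,k4,k0,k2,k0,k0,k70,k0,k0]] (nat_lit 1440) k5
    [[(k8,(nat_lit 410)),(k2,(nat_lit 467)),(k10,(nat_lit 470)),(k11,(nat_lit 470)),(k3,(nat_lit 475)),(k7,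
    (nat_lit 478)),(k9,(nat_lit 478)),(k4,(nat_lit 480)),(k6,(nat_lit 482)),(k5,(nat_lit 484)),(k1,(nat_lit 502)),(k0,
    (nat_lit 566))],[(k9,(nat_lit 464)),(k10,(nat_lit 468)),(k11,(nat_lit 470)),(k2,(nat_lit 473)),(k3,(nat_lit 473)),
    (k4,(nat_lit 474)),(k7,(nat_lit 476)),(k5,(nat_lit 480)),(k8,(nat_lit 480)),(k6,(nat_lit 486)),(k0,(nat_lit 552)),
    (k1,(nat_lit 566))],[(k10,(nat_lit 377)),(k3,(nat_lit 394)),(k11,(nat_lit 469)),(k2,(nat_lit 472)),(k0,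
    (nat_lit 473)),(k1,(nat_lit 475)),(k9,(nat_lit 475)),(k5,(nat_lit 479)),(k8,(nat_lit 479)),(k4,(nat_lit 485)),(k7,
    (nat_lit 487)),(k6,(nat_lit 497))],[(k10,(nat_lit 465)),(k1,(nat_lit 467)),(k11,(nat_lit 469)),(k2,(nat_lit 472)),
    (k3,(nat_lit 472)),(k0,(nat_lit 473)),(k8,(nat_lit 477)),(k5,(nat_lit 479)),(k9,(nat_lit 479)),(k4,(nat_lit 483)),
    (k7,(nat_lit 485)),(k6,(nat_lit 489))],[(k9,(nat_lit 478)),(k11,(nat_lit 478)),(k2,(nat_lit 479)),(k3,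
    (nat_lit 479)),(k0,(nat_lit 480)),(k4,(nat_lit 482)),(k10,(nat_lit 482)),(k1,(nat_lit 484)),(k7,(nat_lit 484)),
    (k5,(nat_lit 486)),(k8,(nat_lit 486)),(k6,(nat_lit 488))],[(k0,(nat_lit 474)),(k11,(nat_lit 476)),(k1,
    (nat_lit 480)),(k10,(nat_lit 480)),(k5,(nat_lit 482)),(k2,(nat_lit 483)),(k3,(nat_lit 485)),(k4,(nat_lit 486)),
    (k8,(nat_lit 486)),(k9,(nat_lit 486)),(k6,(nat_lit 488)),(k7,(nat_lit 488))],[(k0,(nat_lit 476)),(k1,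
    (nat_lit 478)),(k10,(nat_lit 478)),(k11,(nat_lit 478)),(k5,(nat_lit 484)),(k2,(nat_lit 485)),(k3,(nat_lit 487)),
    (k4,(nat_lit 488)),(k8,(nat_lit 488)),(k9,(nat_lit 488)),(k6,(nat_lit 490)),(k7,(nat_lit 490))],[(k11,
    (nat_lit 476)),(k10,(nat_lit 480)),(k1,(nat_lit 482)),(k0,(nat_lit 486)),(k8,(nat_lit 486)),(k4,(nat_lit 488)),
    (k5,(nat_lit 488)),(k6,(nat_lit 488)),(k9,(nat_lit 488)),(k2,(nat_lit 489)),(k7,(nat_lit 490)),(k3,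
    (nat_lit 497))],[(k0,(nat_lit 464)),(k3,(nat_lit 475)),(k10,(nat_lit 476)),(k1,(nat_lit 478)),(k5,(nat_lit 478)),
    (k11,(nat_lit 478)),(k2,(nat_lit 479)),(k4,(nat_lit 486)),(k6,(nat_lit 488)),(k7,(nat_lit 488)),(k8,
    (nat_lit 488)),(k9,(nat_lit 488))],[(k1,(nat_lit 410)),(k10,(nat_lit 476)),(k11,(nat_lit 476)),(k2,(nat_lit 477)),
    (k3,(nat_lit 479)),(k0,(nat_lit 480)),(k4,(nat_lit 486)),(k5,(nat_lit 486)),(k6,(nat_lit 486)),(k8,(nat_lit 486)),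
    (k7,(nat_lit 488)),(k9,(nat_lit 488))],[(k11,(nat_lit 466)),(k2,(nat_lit 469)),(k3,(nat_lit 469)),(k0,
    (nat_lit 470)),(k1,(nat_lit 470)),(k4,(nat_lit 476)),(k6,(nat_lit 476)),(k8,(nat_lit 476)),(k5,(nat_lit 478)),(k7,
    (nat_lit 478)),(k9,(nat_lit 478)),(k10,(nat_lit 536))],[(k3,(nat_lit 377)),(k10,(nat_lit 438)),(k2,(nat_lit 465)),
    (k0,(nat_lit 468)),(k1,(nat_lit 470)),(k8,(nat_lit 476)),(k9,(nat_lit 476)),(k7,(nat_lit 478)),(k4,(nat_lit 480)),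
    (k6,(nat_lit 480)),(k5,(nat_lit 482)),(k11,(nat_lit 536))]]
    [[k1,k2,k0,k0,k0,k0],[k1,k1,k1,k0,k0,k0],[k1,k1,k0,k0,k1,k0],[k1,k1,k0,k0,k0,k1],[k1,k0,k1,k0,k1,k0],[k1,k0,k1,k0,
    k0,k1],[k1,k0,k0,k1,k1,k0],[k1,k0,k0,k1,k0,k1],[k1,k0,k0,k0,k2,k0],[k1,k0,k0,k0,k1,k1],[k1,k0,k0,k0,k0,k2],[k0,k3,
    k0,k0,k0,k0],[k0,k2,k1,k0,k0,k0],[k0,k2,k0,k0,k1,k0],[k0,k2,k0,k0,k0,k1],[k0,k2,k0,k1,k0,k0],[k0,k1,k1,k0,k0,k1],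
    [k0,k1,k0,k1,k0,k1],[k0,k1,k0,k0,k1,k1],[k0,k1,k0,k0,k0,k2],[k0,k0,k1,k0,k1,k1],[k0,k0,k1,k0,k0,k2],[k0,k0,k0,k1,
    k0,k2],[k0,k0,k0,k0,k1,k2]]
    [.ref k25 k0 [(z1,[y12,z15,z4]),(z2,[z15,y15,y4]),(z2,[z3,y3,y1,z3]),(z1,[z6,y6,y2,z0,z3]),(z1,[y3,z3,z1])],
    .ref k25 k0 [(z1,[z12,y9,y2,y6]),(z4,[y30,z30,z7,z15]),(z4,[y6,z6,z1,z9]),(z1,[y6,z6,z1,z3,z3]),(z2,[z6,y6,y1,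
    y3])],.ref k25 k0 [(z5,[z24,y9,y4]),(z1,[y3,z3,z1]),(z10,[y6,z6,z1,z15]),(z5,[y12,z12,z2,z0,z15]),(z5,[z6,y6,
    y1])],.ref k25 k0 [(z1,[z8,z3,z0,z4,z8,y8]),(z2,[y10,z0,z1,y5,y10,z10]),(z1,[y1,z0,z0,z1,y1,z1]),(z1,[y4,z0,z0,y2,
    y1,z4]),(z1,[z2,z0,z0,z1,z2,y2])],.ref k25 k0 [(z3,[z8,z1,z0,y4]),(z6,[y10,z10,z3,z5]),(z3,[y1,z1,z0,z5]),(z3,[y4,
    z4,z0,z2,z9]),(z3,[z2,y2,z0,y1])],.ref k25 k0 [(z7,[z24,z21,z4,z0,z24,y24]),(z7,[y15,z0,z1,z0,y15,z15]),(z14,[y6,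
    z0,y1,z21,y6,z6]),(z7,[y12,z0,y2,z0,z9,z12]),(z7,[z6,z0,z1,z0,z6,y6])],.ref k25 k0 [(z1,[z4,y1,z0,z0,y4]),(z2,[y5,
    z5,z1,z0,z5]),(z2,[y1,z1,z0,z3,z1]),(z1,[y2,z2,z0,z0,z5]),(z1,[z1,y1,z0,z0,y1])],.ref k25 k0 [(z1,[z6,z3,z1,z3,z0,
    y6]),(z8,[y30,z0,y1,y15,z0,z30]),(z8,[y6,z0,y1,z9,z0,z6]),(z2,[y6,z0,y1,y3,z6,z6]),(z4,[z6,z0,z1,z3,z0,y6])],
    .ref k25 k0 [(z1,[z2,z1]),(z4,[y5,z5,z2]),(z4,[y1,z1,z0,z6]),(z1,[y1,z1,z0,z0,z3]),(z2,[z1,y1])],.ref k25 k0 [(z5,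
    [z12,z15,z2,z6,z12,y12]),(z4,[y6,z0,z1,y3,y6,z6]),(z20,[y6,z0,y1,z27,y6,z6]),(z5,[y6,z0,y1,y3,z9,z6]),(z10,[z6,z0,
    z1,z3,z6,y6])],.ref k25 k0 [(z1,[z3,z6,z1,z3,z6,y6]),(z8,[y15,y15,y1,y15,y30,z30]),(z8,[y3,y3,y1,z9,y6,z6]),(z2,
    [y3,y3,y1,y3,z0,z6]),(z4,[z3,z3,z1,z3,z6,y6])],.ref k25 k0 [(z5,[y8,z15,z4]),(z1,[z1]),(z10,[z2,z0,y1,z15]),(z5,
    [z4,z0,y2,z0,z15]),(z5,[y2,z0,z1])],.ref k25 k0 [(z11,[y24,z33,z8,z12]),(z22,[z30,z0,z1,y15]),(z11,[z3,z0,y1,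
    z15]),(z11,[z12,z0,y4,y6,z33]),(z11,[y6,z0,z2,z3])],.ref k25 k0 [(z1,[y3,z3,z1]),(z8,[z15,z0,y1]),(z8,[z3,z0,y1,
    z12]),(z2,[z3,z0,y1,z0,z6]),(z4,[y3,z0,z1])],.ref k25 k0 [(z5,[y12,z3,z2,y6,y12,z12]),(z4,[z6,z6,z1,z3,z6,y6]),
    (z20,[z6,z6,y1,z33,z6,y6]),(z5,[z6,z6,y1,z3,z21,y6]),(z10,[y6,y6,z1,y3,y6,z6])],.ref k25 k0 [(z7,[y12,z21,z4,z0,
    z12]),(z14,[z15,z0,z2,z0,y15]),(z14,[z3,z0,y1,z21,y3]),(z7,[z6,z0,y2,z0,z15]),(z7,[y3,z0,z1,z0,z3])],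
    .ref k25 k0 [(z1,[y4,y1,z0,z0,y4,z4]),(z2,[z5,z5,z1,z0,z5,y5]),(z2,[z1,z1,z0,z3,z1,y1]),(z1,[z2,z2,z0,z0,z5,y2]),
    (z1,[y1,y1,z0,z0,y1,z1])],.ref k25 k0 [(z3,[y8,z1,z0,y4,z0,z8]),(z6,[z10,z10,z3,z5,z0,y10]),(z3,[z1,z1,z0,z5,z0,
    y1]),(z3,[z4,z4,z0,z2,z9,y4]),(z3,[y2,y2,z0,y1,z0,z2])],.ref k25 k0 [(z1,[y8,y5,z0,y4,y8,z8]),(z2,[z10,z10,z1,z5,
    z10,y10]),(z1,[z1,z1,z0,z2,z1,y1]),(z1,[z4,z4,z0,z2,z7,y4]),(z1,[y2,y2,z0,y1,y2,z2])],.ref k25 k0 [(z5,[y24,y33,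
    y4,y24,y48,z48]),(z1,[z3,z6,z1,z3,z6,y6]),(z10,[z6,z12,z1,z21,z12,y12]),(z5,[z12,z24,z2,z12,z39,y24]),(z5,[y6,y12,
    y1,y6,y12,z12])],.ref k25 k0 [(z1,[z24,z27,z4,z0,z24,y24]),(z1,[y15,y15,y2,z0,y15,z15]),(z2,[y6,y6,y1,z3,y6,z6]),
    (z1,[y12,y12,y2,z0,y9,z12]),(z1,[z6,z6,z1,z0,z6,y6])],.ref k25 k0 [(z1,[y24,y45,y8,y12,y48,z48]),(z2,[z30,z60,z11,
    z15,z60,y60]),(z1,[z3,z6,z1,z3,z6,y6]),(z1,[z12,z24,z4,z6,z27,y24]),(z1,[y6,y12,y2,y3,y12,z12])],.ref k25 k0 [(z1,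
    [y6,y9,y2,y6,y6,z12]),(z4,[z15,z30,z7,z15,z15,y30]),(z4,[z3,z6,z1,z9,z3,y6]),(z1,[z3,z6,z1,z3,z6,y6]),(z2,[y3,y6,
    y1,y3,y3,z6])],.ref k25 k0 [(z1,[z12,z27,z4,z12,z24,y24]),(z2,[y15,y30,y4,y15,y30,z30]),(z2,[y3,y6,y1,z0,y6,z6]),
    (z1,[y6,y12,y2,y6,y9,z12]),(z1,[z3,z6,z1,z3,z6,y6])]],
    .lp k0 [(nat_lit 236),(nat_lit 224),(nat_lit 254),(nat_lit 264),(nat_lit 264),k192] [k14,k14,k26,k14,k5,k5,k0,k0,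
    k0,k0,k30,k42] k0 [[k0,k0,k10,k0,k0,k10,k12,k0,k14,k0,k0,k40],[k0,k0,k0,k0,k0,k0,k2,k0,k0,k0,k0,k40],[k0,k0,k0,k4,
    k4,k0,k0,k0,k0,k0,k16,k12],[k0,k10,k0,k0,k0,k0,k12,k8,k0,k0,k0,k0],[k0,k10,k0,k0,k0,k0,k0,k0,k0,k2,k18,k0],[k0,k0,
    k0,k4,k4,k0,k0,k0,k0,k0,k16,k0],[k0,k0,k8,k0,k0,k0,k0,k0,k0,k0,k0,k0],[k2,k12,k12,k0,k0,k0,k0,k0,k0,k0,k10,k0],
    [k0,k0,k0,k0,k0,k2,k0,k0,k0,k0,k0,k0],[k0,k14,k0,k0,k0,k0,k0,k0,k0,k0,k0,k0],[k40,k40,k0,k12,k0,k0,k0,k0,k0,k0,k0,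
    k24],[k0,k0,k0,k16,k16,k18,k10,k0,k0,k0,k0,k0]] (nat_lit 720) k5
    [[(k2,(nat_lit 208)),(k11,(nat_lit 208)),(k10,(nat_lit 220)),(k4,(nat_lit 227)),(k7,(nat_lit 234)),(k9,
    (nat_lit 240)),(k6,(nat_lit 250)),(k8,(nat_lit 250)),(k5,(nat_lit 257)),(k1,(nat_lit 260)),(k0,(nat_lit 276)),(k3,
    (nat_lit 276))],[(k10,k180),(k11,k194),(k2,(nat_lit 224)),(k4,(nat_lit 235)),(k5,(nat_lit 235)),(k0,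
    (nat_lit 236)),(k3,(nat_lit 236)),(k9,(nat_lit 238)),(k7,(nat_lit 250)),(k8,(nat_lit 250)),(k6,(nat_lit 252)),(k1,
    (nat_lit 276))],[(k10,k180),(k11,(nat_lit 208)),(k2,(nat_lit 234)),(k0,(nat_lit 236)),(k3,(nat_lit 236)),(k4,
    (nat_lit 245)),(k5,(nat_lit 245)),(k9,(nat_lit 248)),(k7,(nat_lit 260)),(k6,(nat_lit 262)),(k8,(nat_lit 264)),(k1,
    (nat_lit 276))],[(k10,k196),(k11,k196),(k1,(nat_lit 208)),(k2,(nat_lit 208)),(k0,(nat_lit 224)),(k4,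
    (nat_lit 233)),(k5,(nat_lit 233)),(k3,(nat_lit 234)),(k7,(nat_lit 234)),(k8,(nat_lit 238)),(k9,(nat_lit 246)),(k6,
    (nat_lit 250))],[(k11,(nat_lit 217)),(k2,(nat_lit 233)),(k0,(nat_lit 235)),(k3,(nat_lit 245)),(k10,(nat_lit 245)),
    (k9,(nat_lit 247)),(k6,(nat_lit 251)),(k1,(nat_lit 257)),(k4,(nat_lit 258)),(k5,(nat_lit 258)),(k7,(nat_lit 259)),
    (k8,(nat_lit 259))],[(k11,(nat_lit 217)),(k1,(nat_lit 227)),(k2,(nat_lit 233)),(k0,(nat_lit 235)),(k3,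
    (nat_lit 245)),(k10,(nat_lit 245)),(k8,(nat_lit 257)),(k4,(nat_lit 258)),(k5,(nat_lit 258)),(k6,(nat_lit 259)),
    (k7,(nat_lit 259)),(k9,(nat_lit 259))],[(k11,(nat_lit 224)),(k1,(nat_lit 234)),(k2,(nat_lit 234)),(k0,
    (nat_lit 250)),(k10,(nat_lit 252)),(k4,(nat_lit 259)),(k5,(nat_lit 259)),(k3,(nat_lit 260)),(k7,(nat_lit 260)),
    (k6,(nat_lit 264)),(k8,(nat_lit 264)),(k9,(nat_lit 264))],[(k11,(nat_lit 222)),(k10,(nat_lit 244)),(k1,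
    (nat_lit 250)),(k2,(nat_lit 250)),(k5,(nat_lit 251)),(k0,(nat_lit 252)),(k4,(nat_lit 259)),(k3,(nat_lit 262)),(k6,
    (nat_lit 264)),(k7,(nat_lit 264)),(k8,(nat_lit 264)),(k9,(nat_lit 264))],[(k11,(nat_lit 222)),(k10,(nat_lit 234)),
    (k0,(nat_lit 238)),(k1,(nat_lit 240)),(k2,(nat_lit 246)),(k5,(nat_lit 247)),(k3,(nat_lit 248)),(k4,(nat_lit 259)),
    (k6,(nat_lit 264)),(k7,(nat_lit 264)),(k8,(nat_lit 264)),(k9,(nat_lit 264))],[(k11,(nat_lit 222)),(k10,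
    (nat_lit 234)),(k2,(nat_lit 238)),(k0,(nat_lit 250)),(k1,(nat_lit 250)),(k4,(nat_lit 257)),(k5,(nat_lit 259)),(k3,
    (nat_lit 264)),(k6,(nat_lit 264)),(k7,(nat_lit 264)),(k8,(nat_lit 264)),(k9,(nat_lit 264))],[(k11,k180),(k10,
    k192),(k0,k194),(k2,k196),(k1,(nat_lit 208)),(k3,(nat_lit 208)),(k4,(nat_lit 217)),(k5,(nat_lit 217)),(k6,
    (nat_lit 222)),(k8,(nat_lit 222)),(k9,(nat_lit 222)),(k7,(nat_lit 224))],[(k0,k180),(k3,k180),(k10,k180),(k11,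
    k192),(k2,k196),(k1,(nat_lit 220)),(k8,(nat_lit 234)),(k9,(nat_lit 234)),(k6,(nat_lit 244)),(k4,(nat_lit 245)),
    (k5,(nat_lit 245)),(k7,(nat_lit 252))]]
    [[k2,k0,k0,k0,k0,k1],[k1,k2,k0,k0,k0,k0],[k1,k1,k1,k0,k0,k0],[k1,k1,k0,k0,k1,k0],[k1,k1,k0,k0,k0,k1],[k1,k0,k1,k0,
    k0,k1],[k1,k0,k0,k1,k0,k1],[k1,k0,k0,k0,k1,k1],[k1,k0,k0,k0,k0,k2],[k0,k3,k0,k0,k0,k0],[k0,k2,k1,k0,k0,k0],[k0,k2,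
    k0,k0,k0,k1],[k0,k1,k1,k0,k0,k1],[k0,k1,k0,k1,k0,k1],[k0,k1,k0,k0,k1,k1],[k0,k1,k0,k0,k0,k2],[k0,k0,k1,k0,k1,k1],
    [k0,k0,k1,k0,k0,k2],[k0,k0,k0,k1,k0,k2],[k0,k0,k0,k0,k1,k2],[k0,k0,k0,k0,k0,k3]]
    [.ref k94 k3 [(z2,[z0,y2,y1,y5,z2]),(z1,[z0,z0,z0,z1]),(z1,[z1,y2,z0,y8]),(z1,[z0,z1,z0,z4])],.ref k30 k3 [(z2,
    [z0,y2,y1,y5,z2]),(z1,[z0,z0,z0,z1]),(z2,[y1,z1,z1,y1]),(z1,[z0,z1,z0,z4])],.ref k95 k10 [(z1,[z1,y1,z0,y4]),(z1,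
    [z0,z1,z0,z4]),(z2,[y2,z2,z1,z3]),(z1,[z0,z0,z0,z1])],.ref k96 k10 [(z1,[z1,y1,z0,y5]),(z1,[z0,z1,z0,z4]),(z2,[y2,
    z2,z1,z5]),(z1,[z0,z0,z0,z1])],.ref k97 k8 [(z2,[y2,z2,z1,z3]),(z2,[y8,z2,z1,y3,z6]),(z1,[z2,y2,y1]),(z1,[y5,z5,
    z4])],.ref k98 k3 [(z2,[z0,y2,y1,y5,z2]),(z1,[z0,z0,z0,z1]),(z1,[z1,y1,z0,y4]),(z1,[z0,z1,z0,z4])],
    .ref k99 k3 [(z2,[z0,y2,y1,y5,z2]),(z1,[z0,z0,z0,z1]),(z2,[z2,z0,z1,y3,y2]),(z1,[z0,z1,z0,z4])],.ref k100 k3 [(z2,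
    [z0,y2,y1,y5,z2]),(z1,[z0,z0,z0,z1]),(z1,[z1,y1,z0,y5]),(z1,[z0,z1,z0,z4])],.ref k99 k3 [(z2,[z0,y2,y1,y5,z2]),
    (z1,[z0,z0,z0,z1]),(z2,[z1,y1,z0,y4]),(z1,[z0,z1,z0,z4])],.ref k101 k3 [(z2,[z0,y2,y1,y5,z2]),(z1,[z0,z0,z0,z1]),
    (z2,[y2,z0,z3,y15]),(z1,[z0,z1,z0,z4])],.ref k70 k11 [(z1,[y8,z1,z0,z4]),(z2,[z10,z0,z1,y5]),(z1,[y2,z0,z0,z1]),
    (z2,[z8,y2,y1,y5,z2])],.ref k100 k3 [(z2,[z0,y2,y1,y5,z2]),(z1,[z0,z0,z0,z1]),(z1,[y1,z0,z1,y5]),(z1,[z0,z1,z0,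
    z4])],.ref k97 k8 [(z4,[z2,z0,y1,z5]),(z2,[z4,y6,y5,y5,z6]),(z2,[y2,z0,z1,z1]),(z4,[z10,z0,z1,y5])],
    .ref k97 k8 [(z3,[z1,z1,z0,z5,y1]),(z6,[z8,y10,y9,y5,z10]),(z3,[y2,y2,z0,y1,z2]),(z6,[z10,z10,z9,z5,y10])],
    .ref k97 k8 [(z2,[z2,z0,y1,z3]),(z2,[z8,y6,y7,y3,z6]),(z1,[y2,z0,z1]),(z1,[z5,z0,y1])],.ref k96 k10 [(z1,[y1,z0,
    z1,y5]),(z1,[z0,z1,z0,z4]),(z2,[z2,z0,y1,z5]),(z1,[z0,z0,z0,z1])],.ref k30 k3 [(z2,[z0,y2,y1,y5,z2]),(z1,[z0,z0,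
    z0,z1]),(z1,[z1,z0,z0,y1]),(z1,[z0,z1,z0,z4])],.ref k102 k0 [(z1,[y8,z1,z0,z4]),(z2,[z10,z0,z1,y5]),(z1,[z1]),(z2,
    [z8,y2,y1,y5,z2])],.ref k95 k10 [(z4,[y2,y2,z1,y15,z2]),(z1,[z0,z1,z0,z4]),(z4,[z2,z2,z1,z5,y2]),(z1,[z0,z0,z0,
    z1])],.ref k30 k3 [(z2,[z0,y2,y1,y5,z2]),(z1,[z0,z0,z0,z1]),(z2,[z1,z0,z0,y1]),(z1,[z0,z1,z0,z4])],
    .ref k103 k0 [(z1,[z0,z1]),(z1,[y2,z0,z3]),(z1,[z0,z0,z0,z1]),(z2,[z0,y2,y1,y1,z2])]],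
    .lp k0 [(nat_lit 600),(nat_lit 670),(nat_lit 606),(nat_lit 694),(nat_lit 582),(nat_lit 680)] [k47,k47,k12,k12,k44,
    k44,k0,k0,k56,k56,k7,k7] k0 [[k0,k0,k0,k74,k68,k0,k70,k62,k80,k100,k0,k0],[k0,k0,k0,k10,k104,k0,k0,k0,k0,k0,k120,
    k120],[k10,k74,k0,k80,k34,k0,k0,k0,k0,k0,k46,k0],[k0,k0,k0,k0,k30,k0,k0,k24,k6,k30,k10,k0],[k0,k0,k0,k0,k0,k12,
    k18,k62,k40,k0,k0,k0],[k104,k68,k30,k34,k0,k0,k0,k0,k0,k0,k0,k124],[k0,k62,k24,k0,k0,k62,k0,k0,k22,k0,k18,k0],[k0,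
    k70,k0,k0,k0,k18,k0,k0,k22,k0,k0,k0],[k0,k100,k30,k0,k0,k0,k0,k0,k0,k0,k40,k40],[k0,k80,k6,k0,k0,k40,k22,k22,k0,
    k0,k0,k0],[k120,k0,k0,k0,k124,k0,k0,k0,k0,k40,k0,k0],[k120,k0,k10,k46,k0,k0,k0,k18,k0,k40,k0,
    k0]] (nat_lit 1920) k5
    [[(k3,(nat_lit 515)),(k8,(nat_lit 551)),(k2,(nat_lit 589)),(k9,(nat_lit 591)),(k5,(nat_lit 593)),(k1,
    (nat_lit 600)),(k6,(nat_lit 629)),(k10,(nat_lit 640)),(k7,(nat_lit 647)),(k11,(nat_lit 680)),(k0,(nat_lit 720)),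
    (k4,(nat_lit 727))],[(k8,(nat_lit 491)),(k9,(nat_lit 521)),(k11,(nat_lit 560)),(k2,(nat_lit 561)),(k7,
    (nat_lit 579)),(k6,(nat_lit 585)),(k0,(nat_lit 600)),(k5,(nat_lit 613)),(k3,(nat_lit 635)),(k4,(nat_lit 707)),(k1,
    (nat_lit 720)),(k10,(nat_lit 760))],[(k1,(nat_lit 515)),(k10,(nat_lit 555)),(k7,(nat_lit 578)),(k0,(nat_lit 635)),
    (k2,(nat_lit 660)),(k3,(nat_lit 670)),(k9,(nat_lit 688)),(k4,(nat_lit 706)),(k8,(nat_lit 706)),(k5,(nat_lit 712)),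
    (k6,(nat_lit 752)),(k11,(nat_lit 775))],[(k0,(nat_lit 561)),(k1,(nat_lit 589)),(k2,(nat_lit 590)),(k8,
    (nat_lit 632)),(k5,(nat_lit 638)),(k7,(nat_lit 648)),(k9,(nat_lit 650)),(k3,(nat_lit 660)),(k4,(nat_lit 668)),(k6,
    (nat_lit 682)),(k10,(nat_lit 685)),(k11,(nat_lit 705))],[(k8,(nat_lit 564)),(k1,(nat_lit 593)),(k9,(nat_lit 594)),
    (k0,(nat_lit 613)),(k7,(nat_lit 620)),(k6,(nat_lit 626)),(k11,(nat_lit 637)),(k2,(nat_lit 638)),(k4,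
    (nat_lit 640)),(k5,(nat_lit 686)),(k10,(nat_lit 689)),(k3,(nat_lit 712))],[(k9,(nat_lit 576)),(k6,(nat_lit 588)),
    (k4,(nat_lit 594)),(k8,(nat_lit 594)),(k11,(nat_lit 603)),(k5,(nat_lit 640)),(k10,(nat_lit 643)),(k7,
    (nat_lit 650)),(k2,(nat_lit 668)),(k3,(nat_lit 706)),(k0,(nat_lit 707)),(k1,(nat_lit 727))],[(k10,(nat_lit 563)),
    (k3,(nat_lit 578)),(k0,(nat_lit 579)),(k5,(nat_lit 620)),(k1,(nat_lit 647)),(k2,(nat_lit 648)),(k4,(nat_lit 650)),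
    (k8,(nat_lit 678)),(k11,(nat_lit 687)),(k9,(nat_lit 700)),(k7,(nat_lit 706)),(k6,(nat_lit 712))],[(k0,
    (nat_lit 585)),(k4,(nat_lit 588)),(k5,(nat_lit 626)),(k1,(nat_lit 629)),(k9,(nat_lit 638)),(k8,(nat_lit 660)),
    (k11,(nat_lit 665)),(k2,(nat_lit 682)),(k10,(nat_lit 687)),(k6,(nat_lit 694)),(k7,(nat_lit 712)),(k3,
    (nat_lit 752))],[(k0,(nat_lit 521)),(k4,(nat_lit 576)),(k9,(nat_lit 582)),(k1,(nat_lit 591)),(k5,(nat_lit 594)),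
    (k8,(nat_lit 604)),(k11,(nat_lit 609)),(k6,(nat_lit 638)),(k10,(nat_lit 649)),(k2,(nat_lit 650)),(k3,
    (nat_lit 688)),(k7,(nat_lit 700))],[(k0,(nat_lit 491)),(k1,(nat_lit 551)),(k5,(nat_lit 564)),(k8,(nat_lit 582)),
    (k10,(nat_lit 591)),(k4,(nat_lit 594)),(k9,(nat_lit 604)),(k11,(nat_lit 631)),(k2,(nat_lit 632)),(k6,
    (nat_lit 660)),(k7,(nat_lit 678)),(k3,(nat_lit 706))],[(k0,(nat_lit 560)),(k4,(nat_lit 603)),(k9,(nat_lit 609)),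
    (k8,(nat_lit 631)),(k5,(nat_lit 637)),(k6,(nat_lit 665)),(k1,(nat_lit 680)),(k11,(nat_lit 680)),(k7,
    (nat_lit 687)),(k2,(nat_lit 705)),(k10,(nat_lit 720)),(k3,(nat_lit 775))],[(k3,(nat_lit 555)),(k7,(nat_lit 563)),
    (k8,(nat_lit 591)),(k1,(nat_lit 640)),(k4,(nat_lit 643)),(k9,(nat_lit 649)),(k10,(nat_lit 680)),(k2,
    (nat_lit 685)),(k6,(nat_lit 687)),(k5,(nat_lit 689)),(k11,(nat_lit 720)),(k0,(nat_lit 760))]]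
    [[k2,k1,k0,k0,k0,k0],[k2,k0,k0,k0,k1,k0],[k2,k0,k0,k1,k0,k0],[k1,k2,k0,k0,k0,k0],[k1,k1,k1,k0,k0,k0],[k1,k1,k0,k1,
    k0,k0],[k1,k1,k0,k0,k1,k0],[k1,k1,k0,k0,k0,k1],[k1,k0,k1,k0,k1,k0],[k1,k0,k2,k0,k0,k0],[k1,k0,k1,k1,k0,k0],[k1,k0,
    k1,k0,k0,k1],[k1,k0,k0,k1,k1,k0],[k1,k0,k0,k1,k0,k1],[k1,k0,k0,k0,k2,k0],[k1,k0,k0,k0,k1,k1],[k0,k1,k1,k1,k0,k0],
    [k0,k1,k0,k1,k1,k0],[k0,k1,k1,k0,k0,k1],[k0,k1,k0,k1,k0,k1],[k0,k1,k0,k0,k1,k1],[k0,k0,k2,k1,k0,k0],[k0,k0,k2,k0,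
    k1,k0],[k0,k0,k1,k1,k1,k0],[k0,k0,k1,k1,k0,k1],[k0,k0,k1,k0,k2,k0],[k0,k0,k1,k0,k1,k1],[k0,k0,k0,k1,k1,k1],[k0,k0,
    k0,k0,k3,k0],[k0,k0,k0,k0,k2,k1]]
    [.ref k85 k10 [(z1,[z1,z2,z4,y4]),(z1,[z0,y1,y2,z2]),(z1,[y2,y1,y3,z5])],.ref k43 k3 [(z3,[y2,y5,y9,z9]),(z3,[z1,
    y2]),(z3,[y1,z2,z3])],.ref k43 k3 [(z1,[y1,y2,y4,z4]),(z2,[z1,y1,z1,y1]),(z2,[y1,z1,z1,z1])],.ref k86 k0 [(z1,[z0,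
    z1]),(z2,[z1,y1]),(z2,[y1,z1,z2])],.ref k87 k10 [(z1,[z1,z1,z2,y2]),(z1,[z0,y1,y2,z2]),(z1,[y2,z1,z1,z1])],
    .ref k86 k0 [(z1,[z0,z1]),(z1,[z1,z0,z1,y1]),(z1,[y1,z0,z0,z1])],.ref k88 k0 [(z1,[z0,z1]),(z1,[z1,y1]),(z1,[y1,
    z1,z1])],.ref k89 k0 [(z1,[z0,z1]),(z1,[z1,y1]),(z1,[y1,z1,z1])],.ref k90 k0 [(z1,[z0,z1]),(z1,[y1,z1,z1]),(z1,
    [z1,y1])],.ref k91 k0 [(z1,[z0,z1]),(z2,[y1,z1,z2]),(z2,[z1,y1])],.ref k91 k0 [(z1,[z0,z1]),(z1,[y1,z0,z0,z1]),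
    (z1,[z1,z0,z1,y1])],.ref k92 k0 [(z1,[z0,z1]),(z1,[y1,z1,z1]),(z1,[z1,y1])],.ref k43 k3 [(z1,[y2,y3,y5,z5]),(z1,
    [z1,z0,z1,y1]),(z1,[y1,z0,z0,z1])],.ref k11 k3 [(z1,[z2,y1,y1,y1]),(z1,[y1,z0,z0,z1]),(z1,[z3,z0,z1,y3])],
    .ref k43 k3 [(z1,[y1,y2,y3,z3]),(z2,[z1,y1]),(z2,[y1,z1,z2])],.ref k93 k11 [(z1,[z2,y1,y2]),(z1,[y3,z3,z5]),(z1,
    [z1,y1,y1])],.ref k93 k11 [(z1,[y2,y1,y2,z2]),(z1,[z3,z3,z5,y3]),(z1,[y1,y1,y1,z1])],.ref k92 k0 [(z1,[z0,z1]),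
    (z1,[z1,z1,z1,y1]),(z1,[y1,y1,z0,z1])],.ref k43 k3 [(z1,[z2,y3,y5,z3]),(z1,[y1,z0,z1]),(z1,[z1])],
    .ref k90 k0 [(z1,[z0,z1]),(z1,[z1,z1,z1,y1]),(z1,[y1,y1,z0,z1])],.ref k91 k0 [(z1,[z0,z1]),(z1,[z1]),(z1,[y1,z0,
    z1])],.ref k89 k0 [(z1,[z0,z1]),(z2,[y1,y1,z1,z1]),(z2,[z1,z1,z1,y1])],.ref k104 k0 [(z1,[z0,z1]),(z1,[y1,z0,z2]),
    (z1,[z1])],.ref k89 k0 [(z1,[z0,z1]),(z1,[y1,y1,z0,z1]),(z1,[z1,z1,z1,y1])],.ref k88 k0 [(z1,[z0,z1]),(z1,[y1,y1,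
    z0,z1]),(z1,[z1,z1,z1,y1])],.ref k91 k0 [(z1,[z0,z1]),(z1,[y1,z0,z1]),(z1,[z1])],.ref k86 k0 [(z1,[z0,z1]),(z1,
    [y1,z0,z1]),(z1,[z1])],.ref k87 k10 [(z1,[y1,z1,z2,y1]),(z1,[z0,y1,y2,z2]),(z1,[z2,z1,z1,y1])],.ref k43 k3 [(z1,
    [y2,y3,y3,z3]),(z1,[z1]),(z1,[y1,z0,z1])],.ref k11 k3 [(z1,[z2,y1,y3,z1]),(z1,[y1,z0,z1]),(z1,[z3,z0,y2])]],
    .base (.leafM k0 [k1,k2,k3,k4,k5,k0] [(z1,[y1,y1,z0,z1])] []),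
    .base (.leafM k3 [k2,k3,k4,k5,k0,k1] [(z1,[z0,y1,y1,z1])] [])]

theorem hB6_171_8 : blkB [0, 0, 0, 0, 0, 0] [] sp6 hS6_171 (pcls (n := 6) [0, 0, 0, 0, 0, 0]) hD6_171 560 8 hN6_171_8 = true := by
  decide +kernel

/-- nodes 108 to 119 -/
noncomputable def hN6_171_9 : List HM :=
  [.base (.leafM k3 [k5,k0,k1,k2,k3,k4] [(z1,[z0,y1,z0,z1])] []),
    .base (.leafM k1 [k0,k1,k2,k3,k4,k5] [(z1,[y1,z0,y1,z1]),(z1,[z1,z0,z1])] []),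
    .base (.leafM k3 [k1,k2,k3,k4,k5,k0] [(z1,[z0,z0,z1])] []),
    .lp k0 [(nat_lit 982),(nat_lit 892),(nat_lit 994),(nat_lit 988),(nat_lit 988),(nat_lit 904)] [k6,k6,k51,k51,k0,k0,
    k3,k3,k3,k3,k45,k45] k0 [[k0,k0,k0,k0,k18,k30,k42,k6,k6,k0,k0,k6],[k24,k0,k0,k48,k0,k0,k0,k0,k6,k0,k0,k30],[k48,
    k0,k0,k0,k0,k0,k0,k0,k18,k0,k6,k66],[k0,k0,k0,k0,k18,k18,k30,k6,k6,k0,k0,k0],[k0,k30,k18,k0,k0,k0,k0,k0,k0,k108,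
    k60,k0],[k0,k18,k18,k0,k0,k0,k0,k0,k0,k0,k12,k0],[k0,k6,k6,k0,k0,k0,k0,k0,k0,k0,k0,k0],[k0,k42,k30,k0,k0,k0,k0,k0,
    k0,k0,k24,k0],[k0,k0,k0,k0,k0,k108,k0,k0,k0,k0,k24,k0],[k6,k6,k6,k18,k0,k0,k0,k0,k0,k0,k0,k0],[k30,k6,k0,k66,k0,
    k0,k0,k0,k0,k0,k0,k24],[k0,k0,k0,k6,k12,k60,k24,k0,k0,k24,k0,k0]] (nat_lit 2880) k5
    [[(k4,(nat_lit 928)),(k2,(nat_lit 931)),(k3,(nat_lit 943)),(k10,(nat_lit 943)),(k11,(nat_lit 943)),(k8,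
    (nat_lit 961)),(k9,(nat_lit 961)),(k7,(nat_lit 973)),(k6,(nat_lit 985)),(k1,(nat_lit 1006)),(k0,(nat_lit 1012)),
    (k5,(nat_lit 1054))],[(k2,(nat_lit 937)),(k3,(nat_lit 937)),(k10,(nat_lit 937)),(k11,(nat_lit 937)),(k9,
    (nat_lit 943)),(k4,(nat_lit 958)),(k7,(nat_lit 967)),(k6,(nat_lit 979)),(k8,(nat_lit 991)),(k0,(nat_lit 1006)),
    (k1,(nat_lit 1012)),(k5,(nat_lit 1036))],[(k2,(nat_lit 844)),(k3,(nat_lit 868)),(k10,(nat_lit 868)),(k11,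
    (nat_lit 892)),(k0,(nat_lit 937)),(k1,(nat_lit 943)),(k5,(nat_lit 943)),(k8,(nat_lit 946)),(k9,(nat_lit 946)),(k4,
    (nat_lit 961)),(k7,(nat_lit 970)),(k6,(nat_lit 982))],[(k10,(nat_lit 832)),(k3,(nat_lit 844)),(k11,(nat_lit 880)),
    (k2,(nat_lit 892)),(k1,(nat_lit 931)),(k0,(nat_lit 937)),(k5,(nat_lit 943)),(k8,(nat_lit 946)),(k9,(nat_lit 946)),
    (k7,(nat_lit 958)),(k4,(nat_lit 961)),(k6,(nat_lit 970))],[(k2,(nat_lit 943)),(k3,(nat_lit 943)),(k11,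
    (nat_lit 943)),(k10,(nat_lit 955)),(k9,(nat_lit 961)),(k7,(nat_lit 973)),(k4,(nat_lit 976)),(k6,(nat_lit 985)),
    (k5,(nat_lit 994)),(k8,(nat_lit 1009)),(k0,(nat_lit 1036)),(k1,(nat_lit 1054))],[(k8,(nat_lit 883)),(k1,
    (nat_lit 928)),(k11,(nat_lit 949)),(k0,(nat_lit 958)),(k2,(nat_lit 961)),(k3,(nat_lit 961)),(k10,(nat_lit 961)),
    (k5,(nat_lit 976)),(k6,(nat_lit 991)),(k7,(nat_lit 991)),(k9,(nat_lit 991)),(k4,(nat_lit 994))],[(k2,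
    (nat_lit 958)),(k0,(nat_lit 967)),(k3,(nat_lit 970)),(k1,(nat_lit 973)),(k5,(nat_lit 973)),(k6,(nat_lit 988)),(k7,
    (nat_lit 988)),(k8,(nat_lit 988)),(k9,(nat_lit 988)),(k4,(nat_lit 991)),(k10,(nat_lit 1006)),(k11,
    (nat_lit 1054))],[(k11,(nat_lit 946)),(k2,(nat_lit 970)),(k10,(nat_lit 970)),(k0,(nat_lit 979)),(k3,
    (nat_lit 982)),(k1,(nat_lit 985)),(k5,(nat_lit 985)),(k6,(nat_lit 988)),(k7,(nat_lit 988)),(k8,(nat_lit 988)),(k9,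
    (nat_lit 988)),(k4,(nat_lit 991))],[(k0,(nat_lit 943)),(k2,(nat_lit 946)),(k3,(nat_lit 946)),(k10,(nat_lit 946)),
    (k11,(nat_lit 946)),(k1,(nat_lit 961)),(k5,(nat_lit 961)),(k6,(nat_lit 988)),(k7,(nat_lit 988)),(k8,
    (nat_lit 988)),(k9,(nat_lit 988)),(k4,(nat_lit 991))],[(k4,(nat_lit 883)),(k2,(nat_lit 946)),(k3,(nat_lit 946)),
    (k10,(nat_lit 946)),(k11,(nat_lit 946)),(k1,(nat_lit 961)),(k6,(nat_lit 988)),(k7,(nat_lit 988)),(k8,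
    (nat_lit 988)),(k9,(nat_lit 988)),(k0,(nat_lit 991)),(k5,(nat_lit 1009))],[(k2,(nat_lit 880)),(k3,(nat_lit 892)),
    (k11,(nat_lit 904)),(k10,(nat_lit 928)),(k0,(nat_lit 937)),(k1,(nat_lit 943)),(k5,(nat_lit 943)),(k6,
    (nat_lit 946)),(k8,(nat_lit 946)),(k9,(nat_lit 946)),(k4,(nat_lit 949)),(k7,(nat_lit 1054))],[(k2,(nat_lit 832)),
    (k3,(nat_lit 868)),(k10,(nat_lit 880)),(k11,(nat_lit 928)),(k0,(nat_lit 937)),(k1,(nat_lit 943)),(k8,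
    (nat_lit 946)),(k9,(nat_lit 946)),(k5,(nat_lit 955)),(k4,(nat_lit 961)),(k6,(nat_lit 970)),(k7,(nat_lit 1006))]]
    [[k1,k2,k0,k0,k0,k0],[k1,k1,k1,k0,k0,k0],[k1,k1,k0,k0,k1,k0],[k1,k1,k0,k0,k0,k1],[k1,k0,k1,k0,k0,k1],[k1,k0,k0,k1,
    k0,k1],[k1,k0,k0,k0,k1,k1],[k1,k0,k0,k0,k0,k2],[k0,k3,k0,k0,k0,k0],[k0,k2,k1,k0,k0,k0],[k0,k2,k0,k1,k0,k0],[k0,k2,
    k0,k0,k1,k0],[k0,k2,k0,k0,k0,k1],[k0,k1,k1,k0,k1,k0],[k0,k1,k1,k0,k0,k1],[k0,k1,k0,k1,k0,k1],[k0,k1,k0,k0,k1,k1],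
    [k0,k1,k0,k0,k0,k2],[k0,k0,k2,k0,k1,k0],[k0,k0,k1,k1,k1,k0],[k0,k0,k1,k0,k2,k0],[k0,k0,k1,k0,k1,k1],[k0,k0,k1,k0,
    k0,k2],[k0,k0,k0,k0,k1,k2],[k0,k0,k0,k0,k0,k3]]
    [.ref k25 k0 [(z1,[y1,z4,z2]),(z1,[z2,y2,y1]),(z8,[y11,z11,z22,z12]),(z2,[z1,y1,y2,z0,z6]),(z8,[z1,y25,y26,y12,
    y24,z24])],.ref k25 k0 [(z1,[z8,y5,y8,y4]),(z1,[y16,z16,z19,z8]),(z1,[z11,y11,y11,y4]),(z1,[y4,z4,z4,z2,z3]),(z1,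
    [y1,y2,y2,y1,y3,z3])],.ref k25 k0 [(z3,[y8,z9,z0,y4,y8,z8]),(z3,[z16,z0,z9,z8,z16,y16]),(z3,[y11,z0,z0,y1,y11,
    z11]),(z3,[z4,z0,z0,z2,z13,y4]),(z3,[z1,y9,y9,y4,y8,z8])],.ref k25 k0 [(z1,[y4,z7,z4]),(z1,[z8,y8,y5]),(z2,[y11,
    z11,z11,z3]),(z1,[z2,y2,y2,z0,z3]),(z2,[z1,y7,y7,y3,y6,z6])],.ref k25 k0 [(z7,[z8,z13,z0,y4]),(z7,[y16,z16,z21,
    z8]),(z7,[z11,y11,z0,z5]),(z7,[y4,z4,z0,z2,z21]),(z7,[y1,y20,y21,y10,y21,z21])],.ref k25 k0 [(z1,[z4,y1,z0,z0,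
    y4]),(z1,[y8,z8,z3,z0,z8]),(z2,[z11,y11,z0,z3,y11]),(z1,[y2,z2,z0,z0,z5]),(z2,[y1,y5,y6,y3,y5,z6])],
    .ref k25 k0 [(z3,[z8,z9,z8,z4,z8,y8]),(z3,[y16,z0,y7,y8,y16,z16]),(z3,[z11,z0,z11,z10,z11,y11]),(z3,[y4,z0,y4,y2,
    z5,z4]),(z3,[y1,y9,y10,y5,y10,z10])],.ref k25 k0 [(z1,[z2,z1]),(z1,[y4,z4,z3]),(z4,[z11,y11,z0,z6]),(z1,[y1,z1,z0,
    z0,z3]),(z4,[y1,y11,y12,y6,y12,z12])],.ref k25 k0 [(z2,[y1,z6,z3]),(z1,[z1]),(z16,[y11,z0,z33,z24]),(z4,[z1,z0,y3,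
    z0,z12]),(z16,[z1,y48,y51,y24,y48,z48])],.ref k25 k0 [(z7,[y8,z21,z16,z4]),(z7,[z16,z0,y11,y8]),(z7,[y11,z0,z22,
    z16]),(z7,[z4,z0,y8,y2,z21]),(z7,[z1,y21,y23,y11,y21,z21])],.ref k25 k0 [(z3,[y2,z9,z4,z0,z2]),(z3,[z4,z0,z1,z0,
    y4]),(z12,[y11,z0,z22,z18,z11]),(z3,[z1,z0,y2,z0,z8]),(z12,[z1,y36,y38,y18,y37,z36])],.ref k25 k0 [(z11,[y8,z25,
    z8,y4,y8,z8]),(z11,[z16,z16,z17,z8,z16,y16]),(z1,[y1,y1,z1,z1,y1,z1]),(z11,[z4,z4,y4,z2,z37,y4]),(z11,[z1,y32,y34,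
    y16,y32,z32])],.ref k25 k0 [(z5,[y4,z15,z8]),(z5,[z8,z0,y1]),(z10,[y11,z0,z22,z15]),(z5,[z2,z0,y4,z0,z15]),(z10,
    [z1,y30,y32,y15,y30,z30])],.ref k25 k0 [(z1,[y4,y1,z0,z0,y4,z4]),(z1,[z8,z8,z3,z0,z8,y8]),(z2,[y11,y11,z0,z3,y11,
    z11]),(z1,[z2,z2,z0,z0,z5,y2]),(z2,[z1,y5,y6,y3,y5,z5])],.ref k25 k0 [(z1,[y8,z3,z8,z4]),(z1,[z16,z0,y13,y8]),(z1,
    [y11,z0,z11,z7]),(z1,[z4,z0,y4,y2,z3]),(z1,[z1,y3,y4,y2,y3,z3])],.ref k25 k0 [(z3,[y4,z9,z4,z0,z4]),(z3,[z8,z0,z1,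
    z0,y8]),(z6,[y11,z0,z11,z9,z11]),(z3,[z2,z0,y2,z0,z7]),(z6,[z1,y18,y19,y9,y19,z18])],.ref k25 k0 [(z5,[y8,z7,z0,
    y4,y8,z8]),(z5,[z16,z16,z15,z8,z16,y16]),(z5,[y11,y11,z0,z2,y11,z11]),(z5,[z4,z4,z0,z2,z19,y4]),(z5,[z1,y14,y15,
    y7,y14,z14])],.ref k25 k0 [(z1,[y2,z3,z2]),(z1,[z4,z0,y1]),(z4,[y11,z0,z11,z6]),(z1,[z1,z0,y1,z0,z3]),(z4,[z1,y12,
    y13,y6,y12,z12])],.ref k25 k0 [(z7,[z8,z29,z8,y4,z8,y8]),(z7,[y16,y16,z5,z8,y16,z16]),(z7,[z11,z11,z11,z5,z11,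
    y11]),(z7,[y4,y4,y4,z2,z17,z4]),(z7,[y1,y22,y22,y10,y22,z22])],.ref k25 k0 [(z1,[z4,z7,z4,z0,z0,y4]),(z1,[y8,y8,
    y5,z0,z0,z8]),(z2,[z11,z11,z11,z3,z0,y11]),(z1,[y2,y2,y2,z0,z3,z2]),(z2,[y1,y7,y7,y3,y6,z7])],.ref k25 k0 [(z3,
    [z8,z25,z16,z4,z16,y16]),(z3,[y16,y32,y23,y8,y32,z32]),(z3,[z11,z22,z22,z10,z22,y22]),(z3,[y4,y8,y8,y2,z1,z8]),
    (z3,[y1,y11,y11,y5,y11,z11])],.ref k25 k0 [(z1,[z2,z5,z2,z0,z2,y2]),(z1,[y4,y4,y1,z0,y4,z4]),(z4,[z11,z11,z11,z6,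
    z11,y11]),(z1,[y1,y1,y1,z0,z2,z1]),(z4,[y1,y13,y13,y6,y13,z13])],.ref k25 k0 [(z5,[z8,z15,z0,y4]),(z5,[y16,z0,z15,
    z8]),(z5,[z11,z0,z0,z2]),(z5,[y4,z0,z0,z2,z15]),(z5,[y1,y15,y15,y7,y15,z15])],.ref k25 k0 [(z1,[z8,z11,z8,z4,z8,
    y8]),(z1,[y16,y16,y13,y8,y16,z16]),(z1,[z11,z11,z11,z7,z11,y11]),(z1,[y4,y4,y4,y2,y1,z4]),(z1,[y1,y4,y4,y2,y4,
    z4])],.ref k25 k0 [(z1,[z4,z3]),(z1,[y8,z0,z3]),(z2,[z11,z0,z0,z3]),(z1,[y2,z0,z0,z0,z3]),(z2,[y1,y6,y6,y3,y6,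
    z6])]],
    .base (.leafM k0 [k1,k2,k3,k4,k5,k0] [(z1,[y1,y1,z0,z0,z1])] []),
    .base (.leafM k3 [k5,k0,k1,k2,k3,k4] [(z1,[z1,z0,z1,z1])] []),
    .lp k0 [(nat_lit 988),(nat_lit 868),(nat_lit 1000),(nat_lit 994),(nat_lit 1006),(nat_lit 892)] [k9,k9,k69,k69,k3,
    k3,k6,k6,k0,k0,k57,k57] k0 [[k0,k0,k0,k36,k24,k36,k66,k0,k0,k0,k0,k24],[k132,k0,k0,k0,k0,k0,k6,k0,k0,k0,k0,k156],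
    [k0,k36,k0,k0,k0,k0,k0,k0,k0,k0,k12,k0],[k0,k0,k0,k0,k36,k0,k30,k6,k12,k0,k0,k0],[k0,k36,k0,k0,k0,k12,k0,k18,k0,
    k0,k72,k0],[k0,k24,k36,k0,k0,k0,k0,k6,k12,k0,k0,k0],[k0,k0,k6,k0,k6,k18,k0,k0,k66,k126,k0,k0],[k6,k66,k30,k0,k0,
    k0,k0,k0,k0,k0,k54,k30],[k0,k0,k0,k0,k0,k0,k0,k126,k0,k0,k120,k0],[k0,k0,k12,k0,k12,k0,k0,k66,k0,k0,k120,k0],
    [k156,k24,k0,k0,k0,k0,k30,k0,k0,k0,k0,k36],[k0,k0,k0,k12,k0,k72,k54,k0,k120,k120,k0,k0]] (nat_lit 2880) k5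
    [[(k11,(nat_lit 820)),(k8,(nat_lit 877)),(k2,(nat_lit 916)),(k4,(nat_lit 922)),(k10,(nat_lit 940)),(k9,
    (nat_lit 943)),(k3,(nat_lit 952)),(k7,(nat_lit 991)),(k5,(nat_lit 994)),(k6,(nat_lit 1021)),(k1,(nat_lit 1024)),
    (k0,(nat_lit 1144))],[(k2,(nat_lit 892)),(k10,(nat_lit 916)),(k3,(nat_lit 928)),(k9,(nat_lit 931)),(k11,
    (nat_lit 940)),(k4,(nat_lit 958)),(k7,(nat_lit 967)),(k5,(nat_lit 994)),(k6,(nat_lit 997)),(k8,(nat_lit 997)),(k0,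
    (nat_lit 1120)),(k1,(nat_lit 1144))],[(k10,(nat_lit 724)),(k3,(nat_lit 736)),(k2,(nat_lit 868)),(k11,
    (nat_lit 880)),(k0,(nat_lit 928)),(k9,(nat_lit 931)),(k8,(nat_lit 937)),(k1,(nat_lit 952)),(k4,(nat_lit 958)),(k7,
    (nat_lit 967)),(k5,(nat_lit 970)),(k6,(nat_lit 997))],[(k2,(nat_lit 868)),(k3,(nat_lit 868)),(k10,(nat_lit 880)),
    (k11,(nat_lit 880)),(k0,(nat_lit 892)),(k1,(nat_lit 916)),(k7,(nat_lit 931)),(k5,(nat_lit 934)),(k9,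
    (nat_lit 943)),(k8,(nat_lit 949)),(k6,(nat_lit 961)),(k4,(nat_lit 970))],[(k2,(nat_lit 934)),(k11,(nat_lit 934)),
    (k10,(nat_lit 958)),(k7,(nat_lit 961)),(k3,(nat_lit 970)),(k9,(nat_lit 973)),(k6,(nat_lit 991)),(k0,
    (nat_lit 994)),(k1,(nat_lit 994)),(k4,(nat_lit 1000)),(k5,(nat_lit 1000)),(k8,(nat_lit 1003))],[(k1,
    (nat_lit 922)),(k10,(nat_lit 946)),(k11,(nat_lit 946)),(k0,(nat_lit 958)),(k3,(nat_lit 958)),(k2,(nat_lit 970)),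
    (k6,(nat_lit 979)),(k4,(nat_lit 988)),(k7,(nat_lit 997)),(k5,(nat_lit 1000)),(k9,(nat_lit 1009)),(k8,
    (nat_lit 1015))],[(k2,(nat_lit 931)),(k11,(nat_lit 931)),(k5,(nat_lit 961)),(k0,(nat_lit 967)),(k3,(nat_lit 967)),
    (k6,(nat_lit 988)),(k1,(nat_lit 991)),(k4,(nat_lit 997)),(k8,(nat_lit 1000)),(k7,(nat_lit 1006)),(k10,
    (nat_lit 1015)),(k9,(nat_lit 1018))],[(k8,(nat_lit 874)),(k11,(nat_lit 877)),(k2,(nat_lit 961)),(k4,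
    (nat_lit 979)),(k7,(nat_lit 988)),(k5,(nat_lit 991)),(k6,(nat_lit 994)),(k0,(nat_lit 997)),(k3,(nat_lit 997)),
    (k10,(nat_lit 997)),(k9,(nat_lit 1000)),(k1,(nat_lit 1021))],[(k10,(nat_lit 919)),(k0,(nat_lit 931)),(k3,
    (nat_lit 931)),(k1,(nat_lit 943)),(k2,(nat_lit 943)),(k5,(nat_lit 973)),(k6,(nat_lit 1000)),(k9,(nat_lit 1006)),
    (k4,(nat_lit 1009)),(k7,(nat_lit 1018)),(k8,(nat_lit 1072)),(k11,(nat_lit 1075))],[(k6,(nat_lit 874)),(k1,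
    (nat_lit 877)),(k3,(nat_lit 937)),(k2,(nat_lit 949)),(k11,(nat_lit 949)),(k0,(nat_lit 997)),(k7,(nat_lit 1000)),
    (k5,(nat_lit 1003)),(k8,(nat_lit 1006)),(k4,(nat_lit 1015)),(k10,(nat_lit 1069)),(k9,(nat_lit 1072))],[(k1,
    (nat_lit 820)),(k6,(nat_lit 877)),(k2,(nat_lit 880)),(k3,(nat_lit 880)),(k11,(nat_lit 892)),(k7,(nat_lit 931)),
    (k5,(nat_lit 934)),(k0,(nat_lit 940)),(k4,(nat_lit 946)),(k8,(nat_lit 949)),(k10,(nat_lit 1012)),(k9,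
    (nat_lit 1075))],[(k3,(nat_lit 724)),(k10,(nat_lit 856)),(k2,(nat_lit 880)),(k0,(nat_lit 916)),(k9,(nat_lit 919)),
    (k1,(nat_lit 940)),(k4,(nat_lit 946)),(k5,(nat_lit 958)),(k6,(nat_lit 997)),(k11,(nat_lit 1012)),(k7,
    (nat_lit 1015)),(k8,(nat_lit 1069))]]
    [[k2,k1,k0,k0,k0,k0],[k1,k2,k0,k0,k0,k0],[k1,k1,k1,k0,k0,k0],[k1,k1,k0,k0,k1,k0],[k1,k1,k0,k0,k0,k1],[k1,k0,k1,k0,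
    k1,k0],[k1,k0,k1,k0,k0,k1],[k1,k0,k0,k1,k0,k1],[k1,k0,k0,k1,k1,k0],[k1,k0,k0,k0,k1,k1],[k1,k0,k0,k0,k0,k2],[k0,k3,
    k0,k0,k0,k0],[k0,k2,k1,k0,k0,k0],[k0,k2,k0,k1,k0,k0],[k0,k2,k0,k0,k1,k0],[k0,k2,k0,k0,k0,k1],[k0,k1,k1,k0,k0,k1],
    [k0,k1,k0,k1,k0,k1],[k0,k1,k0,k1,k1,k0],[k0,k1,k0,k0,k1,k1],[k0,k1,k0,k0,k0,k2],[k0,k0,k1,k1,k0,k1],[k0,k0,k1,k1,
    k1,k0],[k0,k0,k1,k0,k1,k1],[k0,k0,k1,k0,k0,k2],[k0,k0,k0,k1,k1,k1],[k0,k0,k0,k1,k0,k2],[k0,k0,k0,k0,k0,k3]]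
    [.ref k25 k0 [(z2,[z1,z4,y1]),(z1,[z2,y4,z1]),(z8,[y11,z22,z11,z24]),(z1,[y1,z2,z1,z0,z3]),(z4,[y1,y10,y11,y12,
    y12,z12])],.ref k25 k0 [(z3,[z1,z8,y2]),(z3,[z4,y4,z1]),(z12,[y11,z11,z22,z36]),(z3,[y2,z2,z4,z0,z9]),(z6,[y1,y17,
    y16,y18,y18,z18])],.ref k25 k0 [(z3,[z4,z5,y4,y4]),(z3,[z16,y16,y7,y16]),(z3,[y11,z11,z11,z20]),(z3,[y8,z8,z8,z8,
    z9]),(z3,[y2,y7,y7,y7,y9,z9])],.ref k25 k0 [(z3,[z2,z9,z0,z2,z2,y2]),(z3,[z8,z0,z9,z8,z8,y8]),(z6,[y11,z0,z0,z7,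
    y11,z11]),(z3,[y4,z0,z0,y4,z5,z4]),(z3,[y1,y9,y9,y10,y10,z10])],.ref k25 k0 [(z7,[z4,z17,y4]),(z7,[z16,y16,z5]),
    (z7,[y11,z11,z11,z21]),(z7,[y8,z8,z8,z0,z21]),(z7,[y2,y19,y19,y21,y21,z21])],.ref k25 k0 [(z3,[y4,z9,y4,z0,y4,
    z4]),(z3,[y16,z0,y7,z0,y16,z16]),(z3,[z11,z0,z11,z9,z11,y11]),(z3,[z8,z0,z8,z0,z17,y8]),(z3,[z2,y9,y7,y9,y7,z7])],
    .ref k25 k0 [(z1,[y2,z5,z0,z2]),(z1,[y8,z8,z3,z8]),(z2,[z11,y11,z0,y5]),(z1,[z4,y4,z0,y4,z3]),(z1,[z1,y4,y3,y4,y3,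
    z3])],.ref k25 k0 [(z1,[y4,z7,z0,z0,z4]),(z1,[y16,z16,z3,z0,z16]),(z1,[z11,y11,z0,z3,y11]),(z1,[z8,y8,z0,z0,y5]),
    (z1,[z2,y5,y3,y3,y5,z3])],.ref k25 k0 [(z1,[y2,z3,y2,y2,z0,z2]),(z1,[y8,z0,y5,y8,z0,z8]),(z2,[z11,z0,z11,z17,z0,
    y11]),(z1,[z4,z0,z4,z4,z3,y4]),(z1,[z1,y3,y2,y2,y3,z2])],.ref k25 k0 [(z1,[z4,z3,z4,z4,z4,y4]),(z1,[z16,z0,z19,
    z16,z16,y16]),(z1,[y11,z0,y11,y8,y11,z11]),(z1,[y8,z0,y8,y8,y5,z8]),(z1,[y2,y3,y5,y5,y5,z5])],.ref k25 k0 [(z1,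
    [z2,z1]),(z1,[z8,y8,z3]),(z2,[y11,z11,z0,z6]),(z1,[y4,z4,z0,z0,z3]),(z1,[y1,y2,y3,y3,y3,z3])],.ref k25 k0 [(z4,
    [z1,z12,y3]),(z1,[z1]),(z16,[y11,z0,z33,z48]),(z2,[y1,z0,z3,z0,z6]),(z8,[y1,y24,y21,y24,y24,z24])],
    .ref k25 k0 [(z7,[z4,z21,y8,y4]),(z7,[z16,z0,y11,y16]),(z7,[y11,z0,z22,z32]),(z7,[y8,z0,z16,z8,z21]),(z7,[y2,y21,
    y17,y19,y21,z21])],.ref k25 k0 [(z2,[z1,z6,y2,z0,y1]),(z1,[z2,z0,y1,z0,y2]),(z8,[y11,z0,z22,z24,z11]),(z1,[y1,z0,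
    z2,z0,z4]),(z4,[y1,y12,y10,y12,y11,z12])],.ref k25 k0 [(z5,[z2,z17,y2,z2,z2,y2]),(z5,[z8,z8,z7,z8,z8,y8]),(z10,
    [y11,y11,z11,z19,y11,z11]),(z5,[y4,y4,z4,y4,z11,z4]),(z5,[y1,y16,y14,y16,y16,z16])],.ref k25 k0 [(z11,[z4,z33,
    y8]),(z11,[z16,z0,z1]),(z1,[y1,z0,z2,z3]),(z11,[y8,z0,z16,z0,z33]),(z11,[y2,y33,y29,y33,y33,z33])],
    .ref k25 k0 [(z1,[z2,z3,y2,y2]),(z1,[z8,z0,y5,y8]),(z2,[y11,z0,z11,z17]),(z1,[y4,z0,z4,z4,z3]),(z1,[y1,y3,y2,y2,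
    y3,z3])],.ref k25 k0 [(z3,[z4,z9,y4,z0,y4]),(z3,[z16,z0,y7,z0,y16]),(z3,[y11,z0,z11,z9,z11]),(z3,[y8,z0,z8,z0,
    z17]),(z3,[y2,y9,y7,y9,y7,z9])],.ref k25 k0 [(z1,[z2,z5,z0,z2,z0,y2]),(z1,[z8,z8,z3,z8,z0,y8]),(z2,[y11,y11,z0,y5,
    z0,z11]),(z1,[y4,y4,z0,y4,z3,z4]),(z1,[y1,y4,y3,y4,y3,z4])],.ref k25 k0 [(z5,[z4,z19,z0,z4,z4,y4]),(z5,[z16,z16,
    z15,z16,z16,y16]),(z5,[y11,y11,z0,z4,y11,z11]),(z5,[y8,y8,z0,y8,z7,z8]),(z5,[y2,y17,y15,y17,y17,z17])],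
    .ref k25 k0 [(z3,[z2,z9,y2]),(z3,[z8,z0,z1]),(z6,[y11,z0,z11,z18]),(z3,[y4,z0,z4,z0,z9]),(z3,[y1,y9,y8,y9,y9,
    z9])],.ref k25 k0 [(z3,[y2,z9,z0,z2,z2]),(z3,[y8,z0,z9,z8,z8]),(z6,[z11,z0,z0,z7,y11]),(z3,[z4,z0,z0,y4,z5]),(z3,
    [z1,y9,y9,y10,y10,z9])],.ref k25 k0 [(z7,[y4,z17,y4,z0,z0,z4]),(z7,[y16,y16,z5,z0,z0,z16]),(z7,[z11,z11,z11,z21,
    z0,y11]),(z7,[z8,z8,z8,z0,z21,y8]),(z7,[z2,y19,y19,y21,y21,z19])],.ref k25 k0 [(z1,[y1,z2,y1,z0,y1,z1]),(z1,[y4,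
    y4,y1,z0,y4,z4]),(z4,[z11,z11,z11,z12,z11,y11]),(z1,[z2,z2,z2,z0,z5,y2]),(z2,[z1,y5,y5,y6,y5,z5])],
    .ref k25 k0 [(z3,[y4,z9,z0,z4]),(z3,[y16,z0,z9,z16]),(z3,[z11,z0,z0,y2]),(z3,[z8,z0,z0,y8,z9]),(z3,[z2,y9,y9,y11,
    y9,z9])],.ref k25 k0 [(z3,[y4,z5,y4,y4,z0,z4]),(z3,[y16,y16,y7,y16,z0,z16]),(z3,[z11,z11,z11,z20,z0,y11]),(z3,[z8,
    z8,z8,z8,z9,y8]),(z3,[z2,y7,y7,y7,y9,z7])],.ref k25 k0 [(z1,[y2,z3,z0,z0,z2]),(z1,[y8,z0,z3,z0,z8]),(z2,[z11,z0,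
    z0,z6,y11]),(z1,[z4,z0,z0,z0,y1]),(z1,[z1,y3,y3,y3,y4,z3])],.ref k25 k0 [(z1,[z4,z3]),(z1,[z16,z0,z3]),(z1,[y11,
    z0,z0,z3]),(z1,[y8,z0,z0,z0,z3]),(z1,[y2,y3,y3,y3,y3,z3])]],
    .base (.leafM k3 [k0,k1,k2,k3,k4,k5] [(z1,[y1,z0,y1,z0,z1])] []),
    .base (.leafM k1 [k0,k1,k2,k3,k4,k5] [(z1,[z0,z1,z0,z1]),(z1,[z0,y1,z0,y1,z1])] []),
    .base (.leafM k3 [k3,k4,k5,k0,k1,k2] [(z1,[z0,z0,y1,y1,z1])] []),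
    .lp k0 [(nat_lit 312),(nat_lit 336),(nat_lit 336),(nat_lit 312),(nat_lit 338),(nat_lit 282)] [k25,k1,k1,k1,k1,k1,
    k13,k13,k0,k0,k33,k23] k0 [[k0,k0,k0,k16,k0,k0,k16,k0,k2,k6,k0,k0],[k8,k0,k0,k0,k0,k0,k16,k0,k0,k0,k0,k8],[k0,k16,
    k0,k0,k16,k0,k0,k0,k0,k14,k16,k0],[k0,k0,k8,k0,k0,k0,k0,k0,k0,k14,k0,k0],[k0,k0,k0,k0,k0,k24,k52,k0,k0,k0,k0,k0],
    [k0,k0,k0,k16,k0,k0,k0,k0,k10,k14,k0,k0],[k0,k0,k0,k0,k0,k0,k0,k52,k62,k66,k0,k0],[k16,k16,k0,k0,k0,k52,k0,k0,k0,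
    k0,k0,k16],[k0,k6,k14,k14,k14,k0,k0,k66,k0,k0,k74,k0],[k0,k2,k0,k0,k10,k0,k0,k62,k0,k0,k74,k0],[k8,k0,k0,k0,k0,k0,
    k16,k0,k0,k0,k0,k8],[k0,k0,k0,k16,k0,k0,k0,k0,k74,k74,k0,k0]] (nat_lit 960) k5
    [[(k11,(nat_lit 240)),(k8,(nat_lit 263)),(k10,(nat_lit 304)),(k0,(nat_lit 320)),(k2,(nat_lit 320)),(k7,
    (nat_lit 324)),(k3,(nat_lit 336)),(k4,(nat_lit 336)),(k5,(nat_lit 336)),(k9,(nat_lit 337)),(k6,(nat_lit 340)),(k1,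
    (nat_lit 344))],[(k10,(nat_lit 280)),(k11,(nat_lit 288)),(k0,(nat_lit 296)),(k2,(nat_lit 296)),(k9,(nat_lit 297)),
    (k7,(nat_lit 300)),(k8,(nat_lit 307)),(k3,(nat_lit 312)),(k4,(nat_lit 312)),(k5,(nat_lit 312)),(k6,(nat_lit 316)),
    (k1,(nat_lit 320))],[(k10,(nat_lit 296)),(k0,(nat_lit 312)),(k11,(nat_lit 320)),(k9,(nat_lit 321)),(k7,
    (nat_lit 324)),(k3,(nat_lit 328)),(k1,(nat_lit 336)),(k2,(nat_lit 336)),(k4,(nat_lit 336)),(k8,(nat_lit 339)),(k6,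
    (nat_lit 340)),(k5,(nat_lit 352))],[(k0,(nat_lit 296)),(k10,(nat_lit 304)),(k7,(nat_lit 308)),(k1,(nat_lit 320)),
    (k8,(nat_lit 323)),(k6,(nat_lit 324)),(k11,(nat_lit 328)),(k3,(nat_lit 336)),(k4,(nat_lit 336)),(k5,
    (nat_lit 336)),(k9,(nat_lit 337)),(k2,(nat_lit 344))],[(k0,(nat_lit 312)),(k10,(nat_lit 320)),(k8,(nat_lit 323)),
    (k6,(nat_lit 324)),(k7,(nat_lit 324)),(k5,(nat_lit 328)),(k11,(nat_lit 328)),(k1,(nat_lit 336)),(k2,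
    (nat_lit 336)),(k9,(nat_lit 337)),(k3,(nat_lit 352)),(k4,(nat_lit 352))],[(k9,(nat_lit 285)),(k10,(nat_lit 304)),
    (k0,(nat_lit 312)),(k4,(nat_lit 312)),(k6,(nat_lit 324)),(k7,(nat_lit 324)),(k11,(nat_lit 328)),(k1,
    (nat_lit 336)),(k2,(nat_lit 336)),(k3,(nat_lit 336)),(k8,(nat_lit 347)),(k5,(nat_lit 352))],[(k10,(nat_lit 292)),
    (k11,(nat_lit 292)),(k0,(nat_lit 300)),(k2,(nat_lit 308)),(k8,(nat_lit 311)),(k1,(nat_lit 324)),(k3,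
    (nat_lit 324)),(k4,(nat_lit 324)),(k5,(nat_lit 324)),(k9,(nat_lit 325)),(k7,(nat_lit 336)),(k6,(nat_lit 364))],
    [(k11,(nat_lit 240)),(k8,(nat_lit 259)),(k6,(nat_lit 260)),(k10,(nat_lit 292)),(k0,(nat_lit 316)),(k2,
    (nat_lit 324)),(k4,(nat_lit 324)),(k5,(nat_lit 324)),(k9,(nat_lit 325)),(k1,(nat_lit 340)),(k3,(nat_lit 340)),(k7,
    (nat_lit 364))],[(k4,(nat_lit 285)),(k10,(nat_lit 289)),(k0,(nat_lit 297)),(k3,(nat_lit 321)),(k6,(nat_lit 325)),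
    (k7,(nat_lit 325)),(k1,(nat_lit 337)),(k2,(nat_lit 337)),(k5,(nat_lit 337)),(k11,(nat_lit 381)),(k9,
    (nat_lit 390)),(k8,(nat_lit 400))],[(k6,(nat_lit 259)),(k1,(nat_lit 263)),(k0,(nat_lit 307)),(k7,(nat_lit 311)),
    (k11,(nat_lit 315)),(k2,(nat_lit 323)),(k5,(nat_lit 323)),(k8,(nat_lit 338)),(k3,(nat_lit 339)),(k4,
    (nat_lit 347)),(k10,(nat_lit 379)),(k9,(nat_lit 400))],[(k1,(nat_lit 240)),(k6,(nat_lit 240)),(k0,(nat_lit 288)),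
    (k7,(nat_lit 292)),(k11,(nat_lit 292)),(k8,(nat_lit 315)),(k3,(nat_lit 320)),(k2,(nat_lit 328)),(k4,
    (nat_lit 328)),(k5,(nat_lit 328)),(k10,(nat_lit 356)),(k9,(nat_lit 381))],[(k10,(nat_lit 264)),(k0,(nat_lit 280)),
    (k9,(nat_lit 289)),(k6,(nat_lit 292)),(k7,(nat_lit 292)),(k3,(nat_lit 296)),(k1,(nat_lit 304)),(k2,(nat_lit 304)),
    (k4,(nat_lit 304)),(k5,(nat_lit 320)),(k11,(nat_lit 356)),(k8,(nat_lit 379))]]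
    [[k2,k1,k0,k0,k0,k0],[k2,k0,k0,k0,k1,k0],[k2,k0,k0,k0,k0,k1],[k1,k2,k0,k0,k0,k0],[k1,k1,k0,k0,k1,k0],[k1,k1,k0,k0,
    k0,k1],[k1,k0,k1,k0,k1,k0],[k1,k0,k1,k0,k0,k1],[k1,k0,k0,k1,k1,k0],[k1,k0,k0,k1,k0,k1],[k1,k0,k0,k2,k0,k0],[k1,k0,
    k0,k0,k1,k1],[k1,k0,k0,k0,k0,k2],[k0,k1,k0,k1,k0,k1],[k0,k1,k0,k2,k0,k0],[k0,k1,k0,k1,k1,k0],[k0,k1,k0,k0,k1,k1],
    [k0,k1,k0,k0,k0,k2],[k0,k0,k1,k1,k1,k0],[k0,k0,k1,k1,k0,k1],[k0,k0,k1,k2,k0,k0],[k0,k0,k1,k0,k1,k1],[k0,k0,k1,k0,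
    k0,k2],[k0,k0,k0,k2,k1,k0],[k0,k0,k0,k2,k0,k1],[k0,k0,k0,k1,k1,k1],[k0,k0,k0,k1,k0,k2],[k0,k0,k0,k0,k0,k3]]
    [.ref k25 k0 [(z5,[z8,y1,y4]),(z5,[y1,z2,z8]),(z10,[z22,y44,y11,z15]),(z5,[y16,z32,z8,z0,z15]),(z10,[y8,y14,y11,
    y15,y30,z30])],.ref k25 k0 [(z1,[z2,z1,z1,z1,z2,y2]),(z8,[y2,z2,z11,y1,y2,z2]),(z8,[z22,y22,z11,z23,z22,y22]),(z1,
    [y4,z4,y2,y2,y1,z4]),(z1,[y1,y2,y2,y2,y4,z4])],.ref k25 k0 [(z3,[z4,z1]),(z6,[y1,z2,z9]),(z6,[z11,y22,z0,z9]),(z3,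
    [y8,z16,z0,z0,z9]),(z6,[y4,y10,y9,y9,y18,z18])],.ref k25 k0 [(z1,[z4,y1,y4]),(z2,[y1,z1,z4]),(z2,[z11,y11,y11,
    z3]),(z1,[y8,z8,z8,z0,z3]),(z2,[y4,y2,z1,y3,y6,z6])],.ref k25 k0 [(z1,[z8,z3,z0,z4,z8,y8]),(z2,[y2,z0,z3,y1,y2,
    z2]),(z1,[z11,z0,z0,z7,z11,y11]),(z1,[y16,z0,z0,y8,y13,z16]),(z2,[y8,y6,y3,y7,y14,z14])],.ref k25 k0 [(z3,[z8,z1,
    y4]),(z3,[y1,z1,z5]),(z6,[z22,y22,y11,z9]),(z3,[y16,z16,z8,z0,z9]),(z6,[y8,y10,y5,y9,y18,z18])],.ref k25 k0 [(z5,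
    [z8,z15,z4,z0,z8,y8]),(z5,[y1,z0,z7,z0,y1,z1]),(z10,[z22,z0,z11,z15,z22,y22]),(z5,[y16,z0,y8,z0,y1,z16]),(z10,[y8,
    y30,y19,y15,y38,z38])],.ref k25 k0 [(z7,[z8,z13,z0,y4]),(z14,[y2,z2,z21,z1]),(z7,[z11,y11,z0,z5]),(z7,[y16,z16,z0,
    z8,z21]),(z14,[y8,y34,y21,y17,y42,z42])],.ref k25 k0 [(z1,[y2,z3,y1,y1,z0,z2]),(z8,[z2,z0,z13,z1,z0,y2]),(z8,[y22,
    z0,y11,z1,z0,z22]),(z1,[z4,z0,z2,z2,z3,y4]),(z1,[z1,y3,y1,y1,y3,z2])],.ref k25 k0 [(z1,[y4,z7,z0,z0,z4]),(z2,[z1,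
    y1,z3,z0,y1]),(z2,[y11,z11,z0,z3,z11]),(z1,[z8,y8,z0,z0,y5]),(z2,[z4,y10,y3,y3,y10,z6])],.ref k25 k0 [(z1,[y1,z4,
    z0,z0,z2]),(z8,[z1,y1,z12,z0,y2]),(z8,[y11,z11,z0,z12,z22]),(z1,[z2,y2,z0,z0,y1]),(z2,[z1,y7,y3,y3,y8,z6])],
    .ref k25 k0 [(z1,[z4,z3,z2,z2,z4,y4]),(z4,[y2,z0,z5,y1,y2,z2]),(z4,[z22,z0,z11,z17,z22,y22]),(z1,[y8,z0,y4,y4,y5,
    z8]),(z2,[y4,y6,y5,y5,y10,z10])],.ref k25 k0 [(z1,[z2,z1]),(z4,[y1,z1,z6]),(z4,[z11,y11,z0,z6]),(z1,[y4,z4,z0,z0,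
    z3]),(z2,[y2,y4,y3,y3,y6,z6])],.ref k25 k0 [(z5,[y8,z15,z4,z0,z8]),(z5,[z1,z0,z7,z0,y1]),(z10,[y22,z0,z11,z15,
    z22]),(z5,[z16,z0,y8,z0,y1]),(z10,[z8,y30,y19,y15,y38,z30])],.ref k25 k0 [(z11,[y8,z33,z4,z0,z16]),(z11,[z1,z0,
    z16,z0,y2]),(z2,[y2,z0,z1,z3,z4]),(z11,[z16,z0,y8,z0,z1]),(z22,[z8,y66,y37,y33,y82,z66])],.ref k25 k0 [(z7,[y8,
    z13,z0,y4,z0,z8]),(z14,[z2,z2,z21,z1,z0,y2]),(z7,[y11,y11,z0,z5,z0,z11]),(z7,[z16,z16,z0,z8,z21,y16]),(z14,[z8,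
    y34,y21,y17,y42,z34])],.ref k25 k0 [(z1,[y8,y5,z0,y4,y8,z8]),(z2,[z2,z2,z3,z1,z2,y2]),(z1,[y11,y11,z0,y4,y11,
    z11]),(z1,[z16,z16,z0,z8,z19,y16]),(z2,[z8,z2,y3,z1,z2,y2])],.ref k25 k0 [(z1,[z8,z3,y4]),(z1,[y1,z0,z2]),(z2,
    [z22,z0,y11,z3]),(z1,[y16,z0,z8,z0,z3]),(z2,[y8,y6,z1,y3,y6,z6])],.ref k25 k0 [(z3,[y8,z1,y4,z0,z0,z8]),(z3,[z1,
    z1,z5,z0,z0,y1]),(z6,[y22,y22,y11,z9,z0,z22]),(z3,[z16,z16,z8,z0,z9,y16]),(z6,[z8,y10,y5,y9,y18,z10])],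
    .ref k25 k0 [(z1,[y8,z3,z0,z4,z8]),(z2,[z2,z0,z3,y1,y2]),(z1,[y11,z0,z0,z7,z11]),(z1,[z16,z0,z0,y8,y13]),(z2,[z8,
    y6,y3,y7,y14,z6])],.ref k25 k0 [(z7,[y8,z21,z0,z4,z16]),(z14,[z2,z0,z21,y1,y4]),(z7,[y11,z0,z0,z16,z22]),(z7,[z16,
    z0,z0,y8,y11]),(z14,[z8,y42,y21,y25,y58,z42])],.ref k25 k0 [(z3,[z8,z17,z4,z0,z8,y8]),(z3,[y1,y1,z4,z0,y1,z1]),
    (z6,[z22,z22,z11,z9,z22,y22]),(z3,[y16,y16,y8,z0,y7,z16]),(z6,[y8,y26,y13,y9,y26,z26])],.ref k25 k0 [(z5,[z8,z15,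
    z0,y4]),(z10,[y2,z0,z15,z1]),(z5,[z11,z0,z0,z2]),(z5,[y16,z0,z0,z8,z15]),(z10,[y8,y30,y15,y11,y30,z30])],
    .ref k25 k0 [(z3,[y2,z7,y1,y1,z2,z2]),(z24,[z2,z2,z37,z1,y2,y2]),(z24,[y22,y22,y11,z25,z22,z22]),(z3,[z4,z4,z2,z2,
    z5,y4]),(z3,[z1,y8,y4,y4,y10,z8])],.ref k25 k0 [(z5,[y4,z15,z0,z0,z8]),(z10,[z1,z0,z15,z0,y2]),(z10,[y11,z0,z0,
    z15,z22]),(z5,[z8,z0,z0,z0,y1]),(z10,[z4,y30,y15,y15,y38,z30])],.ref k25 k0 [(z3,[y4,z5,y2,y2,z0,z4]),(z12,[z2,z2,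
    z19,z1,z0,y2]),(z12,[y22,y22,y11,z7,z0,z22]),(z3,[z8,z8,z4,z4,z9,y8]),(z6,[z4,y14,y7,y7,y18,z14])],
    .ref k25 k0 [(z1,[y2,z3,z0,z0,z2]),(z4,[z1,z0,z6,z0,y1]),(z4,[y11,z0,z0,z6,z11]),(z1,[z4,z0,z0,z0,y1]),(z2,[z2,y6,
    y3,y3,y8,z6])],.ref k25 k0 [(z1,[z4,z3]),(z2,[y1,z0,z3]),(z2,[z11,z0,z0,z3]),(z1,[y8,z0,z0,z0,z3]),(z2,[y4,y6,y3,
    y3,y6,z6])]],
    .lp k0 [(nat_lit 474),(nat_lit 472),(nat_lit 486),(nat_lit 490),(nat_lit 486),(nat_lit 466)] [k8,k8,k9,k9,k2,k2,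
    k0,k0,k2,k2,k12,k12] k0 [[k0,k0,k0,k0,k6,k6,k16,k0,k0,k0,k0,k2],[k78,k0,k0,k0,k0,k0,k4,k0,k0,k0,k0,k92],[k0,k0,k0,
    k0,k0,k0,k0,k0,k0,k2,k6,k4],[k0,k0,k0,k0,k4,k4,k8,k0,k0,k0,k0,k0],[k0,k6,k4,k0,k0,k0,k0,k0,k0,k0,k0,k0],[k0,k6,k4,
    k0,k0,k0,k0,k0,k0,k0,k4,k0],[k0,k0,k0,k0,k0,k0,k0,k2,k2,k2,k0,k0],[k4,k16,k8,k0,k0,k0,k0,k0,k0,k0,k2,k0],[k0,k0,
    k0,k2,k0,k0,k0,k2,k0,k0,k70,k0],[k0,k0,k0,k0,k0,k0,k0,k2,k0,k0,k0,k0],[k92,k2,k0,k4,k0,k0,k0,k0,k0,k0,k0,k28],[k0,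
    k0,k0,k6,k4,k0,k2,k0,k0,k70,k0,k0]] (nat_lit 1440) k5
    [[(k8,(nat_lit 410)),(k2,(nat_lit 467)),(k10,(nat_lit 470)),(k11,(nat_lit 470)),(k3,(nat_lit 475)),(k7,
    (nat_lit 478)),(k9,(nat_lit 478)),(k4,(nat_lit 480)),(k6,(nat_lit 482)),(k5,(nat_lit 484)),(k1,(nat_lit 502)),(k0,
    (nat_lit 566))],[(k9,(nat_lit 464)),(k10,(nat_lit 468)),(k11,(nat_lit 470)),(k2,(nat_lit 473)),(k3,(nat_lit 473)),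
    (k4,(nat_lit 474)),(k7,(nat_lit 476)),(k5,(nat_lit 480)),(k8,(nat_lit 480)),(k6,(nat_lit 486)),(k0,(nat_lit 552)),
    (k1,(nat_lit 566))],[(k10,(nat_lit 377)),(k3,(nat_lit 394)),(k11,(nat_lit 469)),(k2,(nat_lit 472)),(k0,
    (nat_lit 473)),(k1,(nat_lit 475)),(k9,(nat_lit 475)),(k5,(nat_lit 479)),(k8,(nat_lit 479)),(k4,(nat_lit 485)),(k7,
    (nat_lit 487)),(k6,(nat_lit 497))],[(k10,(nat_lit 465)),(k1,(nat_lit 467)),(k11,(nat_lit 469)),(k2,(nat_lit 472)),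
    (k3,(nat_lit 472)),(k0,(nat_lit 473)),(k8,(nat_lit 477)),(k5,(nat_lit 479)),(k9,(nat_lit 479)),(k4,(nat_lit 483)),
    (k7,(nat_lit 485)),(k6,(nat_lit 489))],[(k9,(nat_lit 478)),(k11,(nat_lit 478)),(k2,(nat_lit 479)),(k3,
    (nat_lit 479)),(k0,(nat_lit 480)),(k4,(nat_lit 482)),(k10,(nat_lit 482)),(k1,(nat_lit 484)),(k7,(nat_lit 484)),
    (k5,(nat_lit 486)),(k8,(nat_lit 486)),(k6,(nat_lit 488))],[(k0,(nat_lit 474)),(k11,(nat_lit 476)),(k1,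
    (nat_lit 480)),(k10,(nat_lit 480)),(k5,(nat_lit 482)),(k2,(nat_lit 483)),(k3,(nat_lit 485)),(k4,(nat_lit 486)),
    (k8,(nat_lit 486)),(k9,(nat_lit 486)),(k6,(nat_lit 488)),(k7,(nat_lit 488))],[(k0,(nat_lit 476)),(k1,
    (nat_lit 478)),(k10,(nat_lit 478)),(k11,(nat_lit 478)),(k5,(nat_lit 484)),(k2,(nat_lit 485)),(k3,(nat_lit 487)),
    (k4,(nat_lit 488)),(k8,(nat_lit 488)),(k9,(nat_lit 488)),(k6,(nat_lit 490)),(k7,(nat_lit 490))],[(k11,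
    (nat_lit 476)),(k10,(nat_lit 480)),(k1,(nat_lit 482)),(k0,(nat_lit 486)),(k8,(nat_lit 486)),(k4,(nat_lit 488)),
    (k5,(nat_lit 488)),(k6,(nat_lit 488)),(k9,(nat_lit 488)),(k2,(nat_lit 489)),(k7,(nat_lit 490)),(k3,
    (nat_lit 497))],[(k0,(nat_lit 464)),(k3,(nat_lit 475)),(k10,(nat_lit 476)),(k1,(nat_lit 478)),(k5,(nat_lit 478)),
    (k11,(nat_lit 478)),(k2,(nat_lit 479)),(k4,(nat_lit 486)),(k6,(nat_lit 488)),(k7,(nat_lit 488)),(k8,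
    (nat_lit 488)),(k9,(nat_lit 488))],[(k1,(nat_lit 410)),(k10,(nat_lit 476)),(k11,(nat_lit 476)),(k2,(nat_lit 477)),
    (k3,(nat_lit 479)),(k0,(nat_lit 480)),(k4,(nat_lit 486)),(k5,(nat_lit 486)),(k6,(nat_lit 486)),(k8,(nat_lit 486)),
    (k7,(nat_lit 488)),(k9,(nat_lit 488))],[(k11,(nat_lit 466)),(k2,(nat_lit 469)),(k3,(nat_lit 469)),(k0,
    (nat_lit 470)),(k1,(nat_lit 470)),(k4,(nat_lit 476)),(k6,(nat_lit 476)),(k8,(nat_lit 476)),(k5,(nat_lit 478)),(k7,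
    (nat_lit 478)),(k9,(nat_lit 478)),(k10,(nat_lit 536))],[(k3,(nat_lit 377)),(k10,(nat_lit 438)),(k2,(nat_lit 465)),
    (k0,(nat_lit 468)),(k1,(nat_lit 470)),(k8,(nat_lit 476)),(k9,(nat_lit 476)),(k7,(nat_lit 478)),(k4,(nat_lit 480)),
    (k6,(nat_lit 480)),(k5,(nat_lit 482)),(k11,(nat_lit 536))]]
    [[k1,k2,k0,k0,k0,k0],[k1,k1,k1,k0,k0,k0],[k1,k1,k0,k0,k1,k0],[k1,k1,k0,k0,k0,k1],[k1,k0,k1,k0,k1,k0],[k1,k0,k1,k0,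
    k0,k1],[k1,k0,k0,k1,k1,k0],[k1,k0,k0,k1,k0,k1],[k1,k0,k0,k0,k2,k0],[k1,k0,k0,k0,k1,k1],[k1,k0,k0,k0,k0,k2],[k0,k3,
    k0,k0,k0,k0],[k0,k2,k1,k0,k0,k0],[k0,k2,k0,k0,k1,k0],[k0,k2,k0,k0,k0,k1],[k0,k2,k0,k1,k0,k0],[k0,k1,k1,k0,k0,k1],
    [k0,k1,k0,k1,k0,k1],[k0,k1,k0,k0,k1,k1],[k0,k1,k0,k0,k0,k2],[k0,k0,k1,k0,k1,k1],[k0,k0,k1,k0,k0,k2],[k0,k0,k0,k1,
    k0,k2],[k0,k0,k0,k0,k1,k2]]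
    [.ref k25 k0 [(z11,[y15,z4,z30]),(z11,[z24,y2,y15]),(z22,[z12,y1,y24,z33]),(z44,[y12,z1,z24,z0,z33]),(z11,[y12,z1,
    z24])],.ref k25 k0 [(z2,[y6,z1,z6,z3]),(z5,[z24,y2,y9,y12]),(z10,[z12,y1,y12,z9]),(z20,[y12,z1,z12,z6,z15]),(z5,
    [y12,z1,z12,z6])],.ref k25 k0 [(z1,[z15,y1,y15]),(z1,[y24,z2,z27]),(z2,[y12,z1,z12,z3]),(z4,[z12,y1,y12,z0,z3]),
    (z1,[z12,y1,y12])],.ref k25 k0 [(z4,[y20,z1,z0,y10,y5,z20]),(z1,[z8,z0,z3,z4,z2,y8]),(z2,[z4,z0,z0,z5,z1,y4]),(z2,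
    [y2,z0,z0,y1,z1,z2]),(z1,[y4,z0,z0,y2,y1,z4])],.ref k25 k0 [(z14,[z30,z1,z0,y15]),(z7,[y24,z2,z21,z12]),(z14,[y12,
    z1,z0,z27]),(z28,[z12,y1,z0,y6,z21]),(z7,[z12,y1,z0,y6])],.ref k25 k0 [(z4,[z20,z1,z20,z0,z5,y20]),(z1,[y8,z0,y5,
    z0,y2,z8]),(z2,[y4,z0,y4,z3,y1,z4]),(z1,[z1,z0,z1,z0,z1,y1]),(z1,[z4,z0,z4,z0,z1,y4])],.ref k25 k0 [(z8,[z12,z1,
    z0,z0,y3]),(z5,[y12,z1,z15,z0,z3]),(z20,[y12,z1,z0,z30,z3]),(z40,[z12,y1,z0,z0,z27]),(z10,[z12,y1,z0,z0,y3])],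
    .ref k25 k0 [(z4,[z10,z1,z10,z5,z0,y10]),(z1,[y4,z0,y1,y2,z0,z4]),(z1,[y1,z0,y1,z1,z0,z1]),(z4,[z2,z0,z2,z1,z3,
    y2]),(z1,[z2,z0,z2,z1,z0,y2])],.ref k25 k0 [(z13,[z15,z2]),(z13,[y24,z2,z39]),(z26,[y12,z1,z0,z39]),(z52,[z12,y1,
    z0,z0,z39]),(z13,[z12,y1])],.ref k25 k0 [(z12,[z20,z3,z20,z10,z5,y20]),(z3,[y8,z0,z1,y4,y2,z8]),(z6,[y4,z0,y4,z7,
    y1,z4]),(z6,[z2,z0,z2,z1,z5,y2]),(z3,[z4,z0,z4,z2,z1,y4])],.ref k25 k0 [(z2,[z6,z1,z12,z6,z3,y12]),(z5,[y24,y2,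
    y33,y24,y12,z48]),(z10,[y12,y1,y24,z3,y6,z24]),(z20,[z12,z1,z24,z12,z21,y24]),(z5,[z12,z1,z24,z12,z6,y24])],
    .ref k25 k0 [(z8,[y5,z2,z15]),(z1,[z1]),(z4,[z1,z0,y3,z6]),(z8,[y1,z0,z3,z0,z6]),(z2,[y1,z0,z3])],
    .ref k25 k0 [(z12,[y10,z3,z20,z5]),(z3,[z4,z0,z1,y2]),(z3,[z1,z0,y2,z4]),(z12,[y2,z0,z4,z1,z9]),(z3,[y2,z0,z4,
    z1])],.ref k25 k0 [(z4,[y5,z1,z10]),(z1,[z2,z0,y1]),(z2,[z1,z0,y2,z3]),(z4,[y1,z0,z2,z0,z3]),(z1,[y1,z0,z2])],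
    .ref k25 k0 [(z64,[y60,z11,z60,y30,y15,z60]),(z8,[z12,z1,z12,z6,z3,y12]),(z32,[z12,z1,y12,z54,z3,y12]),(z64,[y12,
    y1,z12,y6,z45,z12]),(z16,[y12,y1,z12,y6,y3,z12])],.ref k25 k0 [(z4,[y4,z1,z8,z0,z1]),(z5,[z8,z0,y1,z0,y2]),(z10,
    [z4,z0,y8,z15,y1]),(z5,[y1,z0,z2,z0,z4]),(z5,[y4,z0,z8,z0,z1])],.ref k25 k0 [(z8,[y12,z1,z0,z0,y3,z12]),(z5,[z12,
    z1,z15,z0,z3,y12]),(z20,[z12,z1,z0,z30,z3,y12]),(z40,[y12,y1,z0,z0,z27,z12]),(z10,[y12,y1,z0,z0,y3,z12])],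
    .ref k25 k0 [(z14,[y30,z1,z0,y15,z0,z30]),(z7,[z24,z2,z21,z12,z0,y24]),(z14,[z12,z1,z0,z27,z0,y12]),(z28,[y12,y1,
    z0,y6,z21,z12]),(z7,[y12,y1,z0,y6,z0,z12])],.ref k25 k0 [(z16,[y60,y1,z0,y30,y15,z60]),(z2,[z12,z1,z6,z6,z3,y12]),
    (z8,[z12,z1,z0,z18,z3,y12]),(z16,[y12,y1,z0,y6,z9,z12]),(z4,[y12,y1,z0,y6,y3,z12])],.ref k25 k0 [(z16,[y30,y1,y30,
    y30,y15,z60]),(z2,[z6,z1,z12,z6,z3,y12]),(z8,[z6,z1,z6,z18,z3,y12]),(z16,[y6,y1,y6,y6,z9,z12]),(z4,[y6,y1,y6,y6,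
    y3,z12])],.ref k25 k0 [(z8,[z60,z7,z60,z0,z15,y60]),(z1,[y12,y1,y9,z0,y3,z12]),(z4,[y12,y1,y12,z6,y3,z12]),(z8,
    [z12,z1,z12,z0,z9,y12]),(z2,[z12,z1,z12,z0,z3,y12])],.ref k25 k0 [(z4,[y30,y4,y60,y15,y15,z60]),(z1,[z12,z2,z27,
    z6,z6,y24]),(z2,[z6,z1,z12,z6,z3,y12]),(z4,[y6,y1,y12,y3,z0,z12]),(z1,[y6,y1,y12,y3,y3,z12])],.ref k25 k0 [(z4,
    [z60,z11,(Int.ofNat (nat_lit 120)),z60,z15,(Int.negSucc (nat_lit 119))]),(z1,[y24,y4,y45,y24,y6,z48]),(z2,[y12,y2,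
    y24,y9,y3,z24]),(z2,[z6,z1,z12,z6,z3,y12]),(z1,[z12,z2,z24,z12,z3,y24])],.ref k25 k0 [(z8,[z30,z7,z60,z30,z15,
    y60]),(z1,[y6,y1,y9,y6,y3,z12]),(z4,[y6,y1,y12,z0,y3,z12]),(z8,[z6,z1,z12,z6,z9,y12]),(z2,[z6,z1,z12,z6,z3,
    y12])]]]

theorem hB6_171_9 : blkB [0, 0, 0, 0, 0, 0] [] sp6 hS6_171 (pcls (n := 6) [0, 0, 0, 0, 0, 0]) hD6_171 560 9 hN6_171_9 = true := by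
  decide +kernel

/-- nodes 120 to 131 -/
noncomputable def hN6_171_10 : List HM :=
  [.lp k0 [k158,k150,k168,k168,k168,k144] [k5,k5,k9,k9,k0,k0,k0,k0,k0,k0,k12,k12] k0 [[k0,k0,k0,k0,k2,k8,k10,k0,k0,k0,
    k0,k0],[k20,k0,k0,k0,k0,k0,k0,k0,k0,k0,k0,k20],[k0,k0,k0,k0,k0,k0,k0,k0,k0,k2,k4,k0],[k0,k0,k0,k0,k0,k4,k6,k0,k0,
    k0,k0,k0],[k0,k8,k4,k0,k0,k0,k0,k0,k0,k0,k0,k0],[k0,k2,k0,k0,k0,k0,k0,k0,k0,k0,k2,k0],[k0,k0,k0,k0,k0,k0,k0,k0,k0,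
    k0,k0,k0],[k0,k10,k6,k0,k0,k0,k0,k0,k0,k0,k0,k0],[k0,k0,k0,k2,k0,k0,k0,k0,k0,k0,k0,k0],[k0,k0,k0,k0,k0,k0,k0,k0,
    k0,k0,k0,k0],[k20,k0,k0,k0,k0,k0,k0,k0,k0,k0,k0,k20],[k0,k0,k0,k4,k2,k0,k0,k0,k0,k0,k0,k0]] (nat_lit 480) k5
    [[(k2,k150),(k10,k151),(k11,k151),(k3,k154),(k7,k161),(k4,k163),(k5,k163),(k6,k163),(k8,k163),(k9,k163),(k0,k178),
    (k1,k178)],[(k10,k151),(k11,k151),(k9,k153),(k2,k154),(k3,k154),(k4,k155),(k7,k161),(k5,k163),(k6,k163),(k8,k163),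
    (k0,k178),(k1,k178)],[(k10,k127),(k3,k130),(k11,k147),(k2,k150),(k0,k154),(k1,k154),(k5,k159),(k8,k159),(k9,k159),
    (k4,k161),(k7,k167),(k6,k169)],[(k10,k147),(k11,k147),(k1,k150),(k2,k150),(k3,k150),(k0,k154),(k8,k157),(k4,k159),
    (k5,k159),(k9,k159),(k7,k163),(k6,k165)],[(k11,k158),(k2,k159),(k3,k159),(k10,k160),(k9,k162),(k0,k163),(k1,k163),
    (k4,k164),(k5,k168),(k6,k168),(k7,k168),(k8,k168)],[(k0,k155),(k11,k156),(k10,k158),(k2,k159),(k3,k161),(k1,k163),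
    (k5,k164),(k4,k168),(k6,k168),(k7,k168),(k8,k168),(k9,k168)],[(k10,k156),(k11,k156),(k0,k161),(k1,k161),(k2,k163),
    (k3,k167),(k4,k168),(k5,k168),(k6,k168),(k7,k168),(k8,k168),(k9,k168)],[(k10,k156),(k11,k156),(k0,k163),(k1,k163),
    (k2,k165),(k4,k168),(k5,k168),(k6,k168),(k7,k168),(k8,k168),(k9,k168),(k3,k169)],[(k0,k153),(k10,k156),(k11,k156),
    (k2,k159),(k3,k159),(k5,k162),(k1,k163),(k4,k168),(k6,k168),(k7,k168),(k8,k168),(k9,k168)],[(k10,k156),(k11,k156),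
    (k2,k157),(k3,k159),(k0,k163),(k1,k163),(k4,k168),(k5,k168),(k6,k168),(k7,k168),(k8,k168),(k9,k168)],[(k10,k144),
    (k11,k144),(k2,k147),(k3,k147),(k0,k151),(k1,k151),(k4,k156),(k6,k156),(k7,k156),(k8,k156),(k9,k156),(k5,k158)],
    [(k10,k124),(k3,k127),(k11,k144),(k2,k147),(k0,k151),(k1,k151),(k6,k156),(k7,k156),(k8,k156),(k9,k156),(k4,k158),
    (k5,k160)]]
    [[k1,k2,k0,k0,k0,k0],[k1,k1,k1,k0,k0,k0],[k1,k1,k0,k0,k1,k0],[k1,k1,k0,k0,k0,k1],[k1,k0,k1,k0,k0,k1],[k1,k0,k0,k1,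
    k0,k1],[k1,k0,k0,k0,k1,k1],[k1,k0,k0,k0,k0,k2],[k0,k3,k0,k0,k0,k0],[k0,k2,k1,k0,k0,k0],[k0,k2,k0,k0,k1,k0],[k0,k2,
    k0,k0,k0,k1],[k0,k2,k0,k1,k0,k0],[k0,k1,k1,k0,k0,k1],[k0,k1,k0,k1,k0,k1],[k0,k1,k0,k0,k1,k1],[k0,k1,k0,k0,k0,k2],
    [k0,k0,k1,k0,k1,k1],[k0,k0,k1,k0,k0,k2],[k0,k0,k0,k1,k0,k2],[k0,k0,k0,k0,k1,k2],[k0,k0,k0,k0,k0,k3]]
    [.ref k111 k10 [(z1,[z0,z0,z1,y2]),(z1,[z1,z0,y2,z4]),(z2,[y4,z1,z8,y11]),(z1,[z0,z0,z0,z1])],.ref k112 k5 [(z1,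
    [z0,z1,z4,z2,y4]),(z1,[y1,y1,y4,y2,z5]),(z2,[z2,z5,z18,z9,y20]),(z1,[z0,y2,y7,y4,z8])],.ref k113 k5 [(z1,[z0,z1,
    z4,z2,y4]),(z2,[y2,z1,z4,z1,y2]),(z1,[z1,z1,z3,z2,y4]),(z1,[z0,y2,y7,y4,z8])],.ref k33 k7 [(z1,[z8,y2,y5]),(z2,
    [z4,y1,y4,z3]),(z2,[y2,y1,y4,y3,z6]),(z1,[y4,z1,z4])],.ref k33 k7 [(z1,[y8,z2,z3,z4]),(z2,[y4,z1,z0,z5]),(z1,[z1,
    y1,y3,y2,z3]),(z1,[z4,y1,z0,y2])],.ref k33 k7 [(z1,[y4,z0,y1,y2,z4]),(z1,[y1,z0,y1,z1,z1]),(z4,[z2,y3,y10,y5,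
    z10]),(z1,[z2,z0,z2,z1,y2])],.ref k33 k7 [(z3,[y8,z2,z9]),(z6,[y4,z1,z0,z9]),(z6,[z2,y5,y18,y9,z18]),(z3,[z4,
    y1])],.ref k112 k5 [(z1,[z0,z1,z4,z2,y4]),(z2,[z2,y3,y10,y5,z10]),(z1,[y1,z3,z10,z5,y10]),(z1,[z0,y2,y7,y4,z8])],
    .ref k33 k7 [(z1,[z1]),(z4,[z1,z0,y3,z6]),(z8,[y1,y6,y21,y12,z24]),(z2,[y1,z0,z3])],.ref k33 k7 [(z3,[z4,z0,z1,
    y2]),(z3,[z1,z0,y2,z4]),(z12,[y2,y9,y32,y17,z36]),(z3,[y2,z0,z4,z1])],.ref k33 k7 [(z1,[z2,z0,y1]),(z2,[z1,z0,y2,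
    z3]),(z4,[y1,y3,y10,y6,z12]),(z1,[y1,z0,z2])],.ref k114 k5 [(z1,[z0,z1,z4,z2,y4]),(z1,[z1,z4,z14,z8,y16]),(z2,[y2,
    y5,y18,y11,z22]),(z1,[z0,y2,y7,y4,z8])],.ref k33 k7 [(z5,[z8,z2,z7,z4,y8]),(z10,[z4,z1,y4,z17,y4]),(z5,[y1,y4,y14,
    y8,z16]),(z5,[y4,y1,z4,y2,z4])],.ref k115 k5 [(z1,[z0,z1,z4,z2,y4]),(z2,[z2,z5,z18,z9,y20]),(z1,[y1,y1,y4,y2,z5]),
    (z1,[z0,y2,y7,y4,z8])],.ref k116 k5 [(z1,[z0,z1,z4,z2,y4]),(z1,[z1,z2,z7,z4,y8]),(z2,[y2,y1,y4,y3,z6]),(z1,[z0,y2,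
    y7,y4,z8])],.ref k117 k9 [(z1,[z5,y1,y5]),(z1,[z4,y1,y4]),(z2,[z2,y1,y4,y1,z2]),(z2,[y4,z1,z4,z1])],
    .ref k117 k9 [(z2,[z5,y2,y5]),(z1,[z2,y1,y2]),(z2,[z1,y1,y3,y1,z2]),(z2,[y2,z1,z2,z1])],.ref k98 k5 [(z1,[z0,z1,
    z4,z2,y4]),(z2,[z2,y1,y4,y3,z4]),(z1,[y1,z2,z7,z4,y7]),(z1,[z0,y2,y7,y4,z8])],.ref k113 k5 [(z1,[z0,z1,z4,z2,y4]),
    (z4,[z2,z1,z4,z1,y4]),(z4,[y2,z5,z16,z9,y16]),(z1,[z0,y2,y7,y4,z8])],.ref k118 k5 [(z1,[z0,z1,z4,z2,y4]),(z1,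
    [z1]),(z1,[y1,z3,z10,z5,y10]),(z1,[z0,y2,y7,y4,z8])],.ref k98 k5 [(z1,[z0,z1,z4,z2,y4]),(z2,[z1,y1,y4,y2,z4]),(z2,
    [y1,z4,z14,z7,y14]),(z1,[z0,y2,y7,y4,z8])],.ref k119 k0 [(z1,[y4,z3]),(z1,[z0,z0,z1]),(z1,[z0,z0,z0,z1]),(z1,[z0,
    y1,y4,y2,z4])]],
    .lp k0 [(nat_lit 988),(nat_lit 868),(nat_lit 1000),(nat_lit 994),(nat_lit 1006),(nat_lit 892)] [k9,k9,k69,k69,k3,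
    k3,k6,k6,k0,k0,k57,k57] k0 [[k0,k0,k0,k36,k24,k36,k66,k0,k0,k0,k0,k24],[k132,k0,k0,k0,k0,k0,k6,k0,k0,k0,k0,k156],
    [k0,k36,k0,k0,k0,k0,k0,k0,k0,k0,k12,k0],[k0,k0,k0,k0,k36,k0,k30,k6,k12,k0,k0,k0],[k0,k36,k0,k0,k0,k12,k0,k18,k0,
    k0,k72,k0],[k0,k24,k36,k0,k0,k0,k0,k6,k12,k0,k0,k0],[k0,k0,k6,k0,k6,k18,k0,k0,k66,k126,k0,k0],[k6,k66,k30,k0,k0,
    k0,k0,k0,k0,k0,k54,k30],[k0,k0,k0,k0,k0,k0,k0,k126,k0,k0,k120,k0],[k0,k0,k12,k0,k12,k0,k0,k66,k0,k0,k120,k0],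
    [k156,k24,k0,k0,k0,k0,k30,k0,k0,k0,k0,k36],[k0,k0,k0,k12,k0,k72,k54,k0,k120,k120,k0,k0]] (nat_lit 2880) k5
    [[(k11,(nat_lit 820)),(k8,(nat_lit 877)),(k2,(nat_lit 916)),(k4,(nat_lit 922)),(k10,(nat_lit 940)),(k9,
    (nat_lit 943)),(k3,(nat_lit 952)),(k7,(nat_lit 991)),(k5,(nat_lit 994)),(k6,(nat_lit 1021)),(k1,(nat_lit 1024)),
    (k0,(nat_lit 1144))],[(k2,(nat_lit 892)),(k10,(nat_lit 916)),(k3,(nat_lit 928)),(k9,(nat_lit 931)),(k11,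
    (nat_lit 940)),(k4,(nat_lit 958)),(k7,(nat_lit 967)),(k5,(nat_lit 994)),(k6,(nat_lit 997)),(k8,(nat_lit 997)),(k0,
    (nat_lit 1120)),(k1,(nat_lit 1144))],[(k10,(nat_lit 724)),(k3,(nat_lit 736)),(k2,(nat_lit 868)),(k11,
    (nat_lit 880)),(k0,(nat_lit 928)),(k9,(nat_lit 931)),(k8,(nat_lit 937)),(k1,(nat_lit 952)),(k4,(nat_lit 958)),(k7,
    (nat_lit 967)),(k5,(nat_lit 970)),(k6,(nat_lit 997))],[(k2,(nat_lit 868)),(k3,(nat_lit 868)),(k10,(nat_lit 880)),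
    (k11,(nat_lit 880)),(k0,(nat_lit 892)),(k1,(nat_lit 916)),(k7,(nat_lit 931)),(k5,(nat_lit 934)),(k9,
    (nat_lit 943)),(k8,(nat_lit 949)),(k6,(nat_lit 961)),(k4,(nat_lit 970))],[(k2,(nat_lit 934)),(k11,(nat_lit 934)),
    (k10,(nat_lit 958)),(k7,(nat_lit 961)),(k3,(nat_lit 970)),(k9,(nat_lit 973)),(k6,(nat_lit 991)),(k0,
    (nat_lit 994)),(k1,(nat_lit 994)),(k4,(nat_lit 1000)),(k5,(nat_lit 1000)),(k8,(nat_lit 1003))],[(k1,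
    (nat_lit 922)),(k10,(nat_lit 946)),(k11,(nat_lit 946)),(k0,(nat_lit 958)),(k3,(nat_lit 958)),(k2,(nat_lit 970)),
    (k6,(nat_lit 979)),(k4,(nat_lit 988)),(k7,(nat_lit 997)),(k5,(nat_lit 1000)),(k9,(nat_lit 1009)),(k8,
    (nat_lit 1015))],[(k2,(nat_lit 931)),(k11,(nat_lit 931)),(k5,(nat_lit 961)),(k0,(nat_lit 967)),(k3,(nat_lit 967)),
    (k6,(nat_lit 988)),(k1,(nat_lit 991)),(k4,(nat_lit 997)),(k8,(nat_lit 1000)),(k7,(nat_lit 1006)),(k10,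
    (nat_lit 1015)),(k9,(nat_lit 1018))],[(k8,(nat_lit 874)),(k11,(nat_lit 877)),(k2,(nat_lit 961)),(k4,
    (nat_lit 979)),(k7,(nat_lit 988)),(k5,(nat_lit 991)),(k6,(nat_lit 994)),(k0,(nat_lit 997)),(k3,(nat_lit 997)),
    (k10,(nat_lit 997)),(k9,(nat_lit 1000)),(k1,(nat_lit 1021))],[(k10,(nat_lit 919)),(k0,(nat_lit 931)),(k3,
    (nat_lit 931)),(k1,(nat_lit 943)),(k2,(nat_lit 943)),(k5,(nat_lit 973)),(k6,(nat_lit 1000)),(k9,(nat_lit 1006)),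
    (k4,(nat_lit 1009)),(k7,(nat_lit 1018)),(k8,(nat_lit 1072)),(k11,(nat_lit 1075))],[(k6,(nat_lit 874)),(k1,
    (nat_lit 877)),(k3,(nat_lit 937)),(k2,(nat_lit 949)),(k11,(nat_lit 949)),(k0,(nat_lit 997)),(k7,(nat_lit 1000)),
    (k5,(nat_lit 1003)),(k8,(nat_lit 1006)),(k4,(nat_lit 1015)),(k10,(nat_lit 1069)),(k9,(nat_lit 1072))],[(k1,
    (nat_lit 820)),(k6,(nat_lit 877)),(k2,(nat_lit 880)),(k3,(nat_lit 880)),(k11,(nat_lit 892)),(k7,(nat_lit 931)),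
    (k5,(nat_lit 934)),(k0,(nat_lit 940)),(k4,(nat_lit 946)),(k8,(nat_lit 949)),(k10,(nat_lit 1012)),(k9,
    (nat_lit 1075))],[(k3,(nat_lit 724)),(k10,(nat_lit 856)),(k2,(nat_lit 880)),(k0,(nat_lit 916)),(k9,(nat_lit 919)),
    (k1,(nat_lit 940)),(k4,(nat_lit 946)),(k5,(nat_lit 958)),(k6,(nat_lit 997)),(k11,(nat_lit 1012)),(k7,
    (nat_lit 1015)),(k8,(nat_lit 1069))]]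
    [[k2,k1,k0,k0,k0,k0],[k1,k2,k0,k0,k0,k0],[k1,k1,k1,k0,k0,k0],[k1,k1,k0,k0,k1,k0],[k1,k1,k0,k0,k0,k1],[k1,k0,k1,k0,
    k1,k0],[k1,k0,k1,k0,k0,k1],[k1,k0,k0,k1,k0,k1],[k1,k0,k0,k1,k1,k0],[k1,k0,k0,k0,k1,k1],[k1,k0,k0,k0,k0,k2],[k0,k3,
    k0,k0,k0,k0],[k0,k2,k1,k0,k0,k0],[k0,k2,k0,k1,k0,k0],[k0,k2,k0,k0,k1,k0],[k0,k2,k0,k0,k0,k1],[k0,k1,k1,k0,k0,k1],
    [k0,k1,k0,k1,k0,k1],[k0,k1,k0,k1,k1,k0],[k0,k1,k0,k0,k1,k1],[k0,k1,k0,k0,k0,k2],[k0,k0,k1,k1,k0,k1],[k0,k0,k1,k1,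
    k1,k0],[k0,k0,k1,k0,k1,k1],[k0,k0,k1,k0,k0,k2],[k0,k0,k0,k1,k1,k1],[k0,k0,k0,k1,k0,k2],[k0,k0,k0,k0,k0,k3]]
    [.ref k25 k0 [(z1,[y4,z11,z4]),(z1,[z11,y22,y8]),(z1,[z8,y16,y8,z3]),(z1,[y16,z32,z16,z0,z3]),(z1,[z2,y7,y5,y3,y3,
    z3])],.ref k25 k0 [(z3,[y2,z11,z4]),(z6,[z11,y11,y4]),(z3,[z4,y4,y8,z9]),(z3,[y8,z8,z16,z0,z9]),(z3,[z1,y10,y11,
    y9,y9,z9])],.ref k25 k0 [(z5,[y4,z19,z4,z4]),(z5,[z11,y11,z4,y11]),(z5,[z8,y8,y8,z7]),(z5,[y16,z16,z16,z16,z15]),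
    (z5,[z2,y17,y17,y17,y15,z15])],.ref k25 k0 [(z3,[y4,z9,z0,y4,y4,z4]),(z3,[z11,z0,z9,z11,z11,y11]),(z3,[z8,z0,z0,
    z17,z8,y8]),(z3,[y16,z0,z0,y16,y7,z16]),(z3,[z2,y9,y9,y7,y7,z7])],.ref k25 k0 [(z1,[y2,z5,z2]),(z2,[z11,y11,y5]),
    (z1,[z4,y4,y4,z3]),(z1,[y8,z8,z8,z0,z3]),(z1,[z1,y4,y4,y3,y3,z3])],.ref k25 k0 [(z1,[y2,z3,y2,z0,y2,z2]),(z2,[z11,
    z0,z17,z0,z11,y11]),(z1,[z4,z0,z4,z3,z4,y4]),(z1,[y8,z0,y8,z0,y5,z8]),(z1,[z1,y3,y2,y3,y2,z2])],.ref k25 k0 [(z1,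
    [y4,z7,z0,z4]),(z1,[z11,y11,z3,y11]),(z1,[z8,y8,z0,y5]),(z1,[y16,z16,z0,z16,z3]),(z1,[z2,y5,y3,y5,y3,z3])],
    .ref k25 k0 [(z7,[z4,z17,z0,z0,y4]),(z7,[y11,z11,z21,z0,z11]),(z7,[y8,z8,z0,z21,z8]),(z7,[z16,y16,z0,z0,z5]),(z7,
    [y2,y19,y21,y21,y19,z21])],.ref k25 k0 [(z3,[z2,z9,z2,z2,z0,y2]),(z6,[y11,z0,z7,y11,z0,z11]),(z3,[y4,z0,y4,z5,z0,
    z4]),(z3,[z8,z0,z8,z8,z9,y8]),(z3,[y1,y9,y10,y10,y9,z10])],.ref k25 k0 [(z1,[z4,z3,z4,z4,z4,y4]),(z1,[y11,z0,y8,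
    y11,y11,z11]),(z1,[y8,z0,y8,y5,y8,z8]),(z1,[z16,z0,z16,z16,z19,y16]),(z1,[y2,y3,y5,y5,y5,z5])],.ref k25 k0 [(z1,
    [z2,z1]),(z2,[y11,z11,z6]),(z1,[y4,z4,z0,z3]),(z1,[z8,y8,z0,z0,z3]),(z1,[y1,y2,y3,y3,y3,z3])],.ref k25 k0 [(z11,
    [y4,z33,z12]),(z1,[z1]),(z11,[z8,z0,y24,z33]),(z11,[y16,z0,z48,z0,z33]),(z11,[z2,y33,y39,y33,y33,z33])],
    .ref k25 k0 [(z5,[y2,z15,z4,z2]),(z10,[z11,z0,z8,y11]),(z5,[z4,z0,y8,z11]),(z5,[y8,z0,z16,z8,z15]),(z5,[z1,y15,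
    y17,y16,y15,z15])],.ref k25 k0 [(z1,[y2,z3,z4,z0,z2]),(z2,[z11,z0,y16,z0,y11]),(z1,[z4,z0,y8,z3,y4]),(z1,[y8,z0,
    z16,z0,z11]),(z1,[z1,y3,y5,y3,y4,z3])],.ref k25 k0 [(z2,[y1,z5,z1,y1,y1,z1]),(z8,[z11,z11,z13,z11,z11,y11]),(z1,
    [z1,z1,y1,z4,z1,y1]),(z1,[y2,y2,z2,y2,z1,z2]),(z4,[z1,y11,y13,y11,y11,z11])],.ref k25 k0 [(z7,[y4,z21,z8]),(z7,
    [z11,z0,y1]),(z7,[z8,z0,y16,z21]),(z7,[y16,z0,z32,z0,z21]),(z7,[z2,y21,y25,y21,y21,z21])],.ref k25 k0 [(z3,[y2,z9,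
    z2,z2]),(z6,[z11,z0,z7,y11]),(z3,[z4,z0,y4,z5]),(z3,[y8,z0,z8,z8,z9]),(z3,[z1,y9,y10,y10,y9,z9])],
    .ref k25 k0 [(z1,[z2,z3,y2,z0,y2]),(z2,[y11,z0,z17,z0,z11]),(z1,[y4,z0,z4,z3,z4]),(z1,[z8,z0,y8,z0,y5]),(z1,[y1,
    y3,y2,y3,y2,z3])],.ref k25 k0 [(z1,[z4,z7,z0,z4,z0,y4]),(z1,[y11,y11,z3,y11,z0,z11]),(z1,[y8,y8,z0,y5,z0,z8]),(z1,
    [z16,z16,z0,z16,z3,y16]),(z1,[y2,y5,y3,y5,y3,z5])],.ref k25 k0 [(z1,[y1,z2,z0,y1,y1,z1]),(z4,[z11,z11,z12,z11,z11,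
    y11]),(z1,[z2,z2,z0,z5,z2,y2]),(z1,[y4,y4,z0,y4,y1,z4]),(z2,[z1,y5,y6,y5,y5,z5])],.ref k25 k0 [(z3,[y4,z9,z4]),
    (z3,[z11,z0,y2]),(z3,[z8,z0,y8,z9]),(z3,[y16,z0,z16,z0,z9]),(z3,[z2,y9,y11,y9,y9,z9])],.ref k25 k0 [(z3,[z4,z9,z0,
    y4,y4]),(z3,[y11,z0,z9,z11,z11]),(z3,[y8,z0,z0,z17,z8]),(z3,[z16,z0,z0,y16,y7]),(z3,[y2,y9,y9,y7,y7,z9])],
    .ref k25 k0 [(z1,[z2,z5,z2,z0,z0,y2]),(z2,[y11,y11,y5,z0,z0,z11]),(z1,[y4,y4,y4,z3,z0,z4]),(z1,[z8,z8,z8,z0,z3,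
    y8]),(z1,[y1,y4,y4,y3,y3,z4])],.ref k25 k0 [(z3,[y4,z5,y4,z0,y4,z4]),(z3,[z11,z11,z20,z0,z11,y11]),(z3,[z8,z8,z8,
    z9,z8,y8]),(z3,[y16,y16,y16,z0,y7,z16]),(z3,[z2,y7,y7,y9,y7,z7])],.ref k25 k0 [(z1,[y2,z3,z0,z2]),(z2,[z11,z0,z6,
    y11]),(z1,[z4,z0,z0,y1]),(z1,[y8,z0,z0,z8,z3]),(z1,[z1,y3,y3,y4,y3,z3])],.ref k25 k0 [(z5,[z4,z19,z4,z4,z0,y4]),
    (z5,[y11,y11,z4,y11,z0,z11]),(z5,[y8,y8,y8,z7,z0,z8]),(z5,[z16,z16,z16,z16,z15,y16]),(z5,[y2,y17,y17,y17,y15,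
    z17])],.ref k25 k0 [(z3,[z2,z9,z0,z0,y2]),(z6,[y11,z0,z18,z0,z11]),(z3,[y4,z0,z0,z9,z4]),(z3,[z8,z0,z0,z0,z1]),
    (z3,[y1,y9,y9,y9,y8,z9])],.ref k25 k0 [(z1,[z4,z3]),(z1,[y11,z0,z3]),(z1,[y8,z0,z0,z3]),(z1,[z16,z0,z0,z0,z3]),
    (z1,[y2,y3,y3,y3,y3,z3])]],
    .base (.leafM k3 [k2,k3,k4,k5,k0,k1] [(z1,[z1,z0,z0,z1])] []),
    .base (.leafM k3 [k3,k4,k5,k0,k1,k2] [(z1,[z0,z0,y1,y1,z1])] []),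
    .base (.leafM k0 [k1,k2,k3,k4,k5,k0] [(z1,[y1,y1,z0,z0,z1])] []),
    .lp k0 [(nat_lit 1258),(nat_lit 1248),(nat_lit 1326),(nat_lit 1334),(nat_lit 1314),(nat_lit 1196)] [k38,k38,k43,
    k43,k4,k4,k0,k0,k10,k10,k69,k69] k0 [[k0,k64,k32,k0,k18,k0,k0,k0,k0,k0,k0,k18],[k0,k0,k0,k0,k30,k0,k8,k24,k90,k0,
    k0,k86],[k0,k0,k0,k0,k18,k14,k0,k0,k0,k34,k0,k118],[k0,k32,k0,k0,k0,k0,k0,k0,k0,k0,k0,k42],[k0,k0,k0,k14,k0,k0,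
    k14,k0,k0,k0,k56,k24],[k30,k18,k0,k18,k0,k0,k0,k0,k0,k16,k0,k0],[k24,k0,k0,k0,k0,k0,k0,k28,k94,k134,k0,k0],[k8,k0,
    k0,k0,k0,k14,k0,k0,k0,k0,k70,k30],[k0,k0,k0,k34,k16,k0,k0,k134,k0,k0,k164,k0],[k90,k0,k0,k0,k0,k0,k0,k94,k0,k0,
    k164,k0],[k86,k18,k42,k118,k0,k24,k30,k0,k0,k0,k0,k0],[k0,k0,k0,k0,k0,k56,k70,k0,k164,k164,k0,
    k0]] (nat_lit 3840) k5
    [[(k11,(nat_lit 1063)),(k8,(nat_lit 1122)),(k9,(nat_lit 1216)),(k10,(nat_lit 1227)),(k4,(nat_lit 1236)),(k1,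
    (nat_lit 1258)),(k3,(nat_lit 1271)),(k2,(nat_lit 1295)),(k7,(nat_lit 1320)),(k6,(nat_lit 1326)),(k0,
    (nat_lit 1344)),(k5,(nat_lit 1410))],[(k0,(nat_lit 1194)),(k10,(nat_lit 1209)),(k11,(nat_lit 1227)),(k2,
    (nat_lit 1253)),(k3,(nat_lit 1253)),(k5,(nat_lit 1260)),(k7,(nat_lit 1278)),(k6,(nat_lit 1304)),(k9,
    (nat_lit 1310)),(k4,(nat_lit 1322)),(k1,(nat_lit 1344)),(k8,(nat_lit 1376))],[(k11,(nat_lit 1132)),(k10,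
    (nat_lit 1136)),(k0,(nat_lit 1253)),(k7,(nat_lit 1261)),(k6,(nat_lit 1267)),(k1,(nat_lit 1271)),(k9,
    (nat_lit 1273)),(k2,(nat_lit 1280)),(k8,(nat_lit 1281)),(k5,(nat_lit 1287)),(k4,(nat_lit 1305)),(k3,
    (nat_lit 1312))],[(k10,(nat_lit 1104)),(k11,(nat_lit 1222)),(k8,(nat_lit 1247)),(k2,(nat_lit 1248)),(k0,
    (nat_lit 1253)),(k4,(nat_lit 1273)),(k7,(nat_lit 1273)),(k3,(nat_lit 1280)),(k9,(nat_lit 1281)),(k5,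
    (nat_lit 1287)),(k6,(nat_lit 1291)),(k1,(nat_lit 1295))],[(k10,(nat_lit 1219)),(k0,(nat_lit 1260)),(k2,
    (nat_lit 1287)),(k3,(nat_lit 1287)),(k11,(nat_lit 1295)),(k8,(nat_lit 1320)),(k9,(nat_lit 1320)),(k5,
    (nat_lit 1326)),(k6,(nat_lit 1330)),(k4,(nat_lit 1344)),(k7,(nat_lit 1344)),(k1,(nat_lit 1410))],[(k1,
    (nat_lit 1236)),(k10,(nat_lit 1237)),(k2,(nat_lit 1273)),(k11,(nat_lit 1277)),(k3,(nat_lit 1305)),(k9,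
    (nat_lit 1306)),(k8,(nat_lit 1320)),(k0,(nat_lit 1322)),(k4,(nat_lit 1326)),(k6,(nat_lit 1330)),(k7,
    (nat_lit 1330)),(k5,(nat_lit 1344))],[(k3,(nat_lit 1261)),(k11,(nat_lit 1265)),(k2,(nat_lit 1273)),(k0,
    (nat_lit 1278)),(k8,(nat_lit 1308)),(k1,(nat_lit 1320)),(k10,(nat_lit 1321)),(k9,(nat_lit 1324)),(k4,
    (nat_lit 1330)),(k7,(nat_lit 1334)),(k5,(nat_lit 1344)),(k6,(nat_lit 1348))],[(k11,(nat_lit 1171)),(k8,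
    (nat_lit 1190)),(k3,(nat_lit 1267)),(k2,(nat_lit 1291)),(k0,(nat_lit 1304)),(k6,(nat_lit 1306)),(k9,
    (nat_lit 1324)),(k1,(nat_lit 1326)),(k4,(nat_lit 1330)),(k5,(nat_lit 1330)),(k10,(nat_lit 1335)),(k7,
    (nat_lit 1348))],[(k1,(nat_lit 1216)),(k10,(nat_lit 1225)),(k3,(nat_lit 1273)),(k2,(nat_lit 1281)),(k4,
    (nat_lit 1306)),(k0,(nat_lit 1310)),(k5,(nat_lit 1320)),(k6,(nat_lit 1324)),(k7,(nat_lit 1324)),(k9,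
    (nat_lit 1342)),(k11,(nat_lit 1389)),(k8,(nat_lit 1408))],[(k1,(nat_lit 1122)),(k6,(nat_lit 1190)),(k2,
    (nat_lit 1247)),(k11,(nat_lit 1255)),(k3,(nat_lit 1281)),(k7,(nat_lit 1308)),(k8,(nat_lit 1314)),(k4,
    (nat_lit 1320)),(k5,(nat_lit 1320)),(k0,(nat_lit 1376)),(k9,(nat_lit 1408)),(k10,(nat_lit 1419))],[(k1,
    (nat_lit 1063)),(k3,(nat_lit 1132)),(k6,(nat_lit 1171)),(k11,(nat_lit 1196)),(k2,(nat_lit 1222)),(k0,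
    (nat_lit 1227)),(k8,(nat_lit 1255)),(k7,(nat_lit 1265)),(k4,(nat_lit 1277)),(k5,(nat_lit 1295)),(k10,
    (nat_lit 1360)),(k9,(nat_lit 1389))],[(k2,(nat_lit 1104)),(k3,(nat_lit 1136)),(k10,(nat_lit 1196)),(k0,
    (nat_lit 1209)),(k5,(nat_lit 1219)),(k9,(nat_lit 1225)),(k1,(nat_lit 1227)),(k4,(nat_lit 1237)),(k7,
    (nat_lit 1321)),(k6,(nat_lit 1335)),(k11,(nat_lit 1360)),(k8,(nat_lit 1419))]]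
    [[k3,k0,k0,k0,k0,k0],[k2,k0,k0,k0,k1,k0],[k2,k0,k0,k0,k0,k1],[k2,k1,k0,k0,k0,k0],[k1,k2,k0,k0,k0,k0],[k1,k1,k0,k0,
    k0,k1],[k1,k1,k1,k0,k0,k0],[k1,k1,k0,k0,k1,k0],[k1,k0,k1,k0,k0,k1],[k1,k0,k0,k1,k0,k1],[k1,k0,k0,k1,k1,k0],[k1,k0,
    k1,k0,k1,k0],[k1,k0,k0,k0,k1,k1],[k1,k0,k0,k0,k0,k2],[k0,k2,k0,k1,k0,k0],[k0,k2,k0,k0,k1,k0],[k0,k2,k0,k0,k0,k1],
    [k0,k1,k1,k0,k0,k1],[k0,k1,k0,k1,k1,k0],[k0,k1,k0,k1,k0,k1],[k0,k1,k0,k0,k1,k1],[k0,k1,k0,k0,k0,k2],[k0,k0,k1,k1,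
    k0,k1],[k0,k0,k1,k0,k1,k1],[k0,k0,k1,k0,k0,k2],[k0,k0,k0,k1,k1,k1],[k0,k0,k0,k1,k0,k2],[k0,k0,k0,k0,k0,k3]]
    [.ref k25 k0 [(z1,[z1]),(z1,[z0,z0,z1]),(z1,[y2,z6,z0,z3]),(z4,[z5,y15,z0,z0,z4]),(z2,[y1,y3,y2,y6,y2,z6])],
    .ref k25 k0 [(z3,[z6,z3,z2,z6,z2,y6]),(z1,[z0,z0,z1]),(z3,[y12,z12,y4,y3,y4,z12]),(z6,[z15,y15,z5,z15,z11,y15]),
    (z3,[y3,y6,y4,y12,y4,z12])],.ref k25 k0 [(z3,[z4,z1]),(z1,[z0,z0,z1]),(z3,[y8,z16,z0,z9]),(z3,[z5,y10,z0,z0,z3]),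
    (z3,[y2,y5,y3,y9,y3,z9])],.ref k25 k0 [(z2,[z3,z0,y1]),(z1,[z0,z0,z1]),(z1,[y3,z6,z1,z3]),(z8,[z15,y30,y5,z0,z8]),
    (z4,[y3,y6,y3,y12,y4,z12])],.ref k25 k0 [(z1,[z3,z0,y2]),(z1,[z0,z0,z1]),(z1,[y6,z6,z4,z3]),(z4,[z15,y15,y10,z0,
    z4]),(z2,[y3,y3,z0,y6,y2,z6])],.ref k25 k0 [(z5,[z12,z3,y4]),(z1,[z0,z0,z1]),(z5,[y24,z24,z8,z15]),(z1,[z3,y3,y1,
    z0,z1]),(z5,[y6,y9,y3,y15,y5,z15])],.ref k25 k0 [(z1,[y3,z6,z1,z3]),(z1,[z0,z0,z1]),(z1,[z6,y6,y2,y3]),(z4,[y15,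
    z15,z5,z15,z4]),(z2,[z3,y9,y3,y9,y2,z6])],.ref k25 k0 [(z1,[z6,z3,z0,z6,z2,y6]),(z1,[z0,z0,z1]),(z1,[y12,z0,z0,y9,
    y4,z12]),(z2,[z15,z0,z0,z15,z7,y15]),(z1,[y3,y3,y1,y6,y2,z6])],.ref k25 k0 [(z1,[y4,z7,z0,z4]),(z1,[z0,z0,z1]),
    (z1,[z8,y8,z0,y5]),(z1,[y5,z5,z0,z5,z1]),(z1,[z2,y5,y1,y5,y1,z3])],.ref k25 k0 [(z5,[z6,z9,z0,z0,y2]),(z1,[z0,z0,
    z1]),(z5,[y12,z12,z0,z15,z4]),(z2,[z3,y3,z0,z0,z1]),(z5,[y3,y12,y5,y15,y4,z15])],.ref k25 k0 [(z7,[z12,z21,z4,z12,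
    z0,y12]),(z1,[z0,z0,z1]),(z7,[y24,z0,y8,y3,z0,z24]),(z7,[z15,z0,z5,z15,z7,y15]),(z7,[y6,y21,y9,y27,y7,z27])],
    .ref k25 k0 [(z3,[y6,z9,y2,z0,y2,z6]),(z1,[z0,z0,z1]),(z3,[z12,z0,z4,z9,z4,y12]),(z6,[y15,z0,y5,z0,z1,z15]),(z3,
    [z3,y9,y2,y9,y2,z6])],.ref k25 k0 [(z3,[z12,z9,z4,z12,z4,y12]),(z1,[z0,z0,z1]),(z3,[y24,z0,y8,y15,y8,z24]),(z3,
    [z15,z0,z5,z15,z8,y15]),(z3,[y6,y9,y5,y15,y5,z15])],.ref k25 k0 [(z1,[z2,z1]),(z1,[z0,z0,z1]),(z1,[y4,z4,z0,z3]),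
    (z2,[z5,y5,z0,z0,z2]),(z1,[y1,y2,y1,y3,y1,z3])],.ref k25 k0 [(z5,[z12,z15,y8,z0,y4]),(z1,[z0,z0,z1]),(z5,[y24,z0,
    z16,z15,z8]),(z1,[z3,z0,y2]),(z5,[y6,y15,y1,y15,y3,z15])],.ref k25 k0 [(z1,[y6,y3,z2,y6,y2,z6]),(z1,[z0,z0,z1]),
    (z1,[z12,z12,y4,z15,z4,y12]),(z2,[y15,y15,z5,y15,y3,z15]),(z1,[z3,z0,y2])],.ref k25 k0 [(z1,[z12,z3,y8]),(z1,[z0,
    z0,z1]),(z1,[y24,z0,z16,z3]),(z1,[z15,z0,y10,z0,z1]),(z1,[y6,y3,z3,y3,y1,z3])],.ref k25 k0 [(z7,[y12,z21,z4,z12]),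
    (z1,[z0,z0,z1]),(z7,[z24,z0,y8,y3]),(z7,[y15,z0,z5,z15,z7]),(z7,[z6,y21,y9,y27,y7,z21])],.ref k25 k0 [(z1,[z4,z7,
    z0,z4,z0,y4]),(z1,[z0,z0,z1]),(z1,[y8,y8,z0,y5,z0,z8]),(z1,[z5,z5,z0,z5,z1,y5]),(z1,[y2,y5,y1,y5,y1,z5])],
    .ref k25 k0 [(z3,[z6,z9,y2,z0,y2]),(z1,[z0,z0,z1]),(z3,[y12,z0,z4,z9,z4]),(z6,[z15,z0,y5,z0,z1]),(z3,[y3,y9,y2,y9,
    y2,z9])],.ref k25 k0 [(z1,[y12,y9,z0,y12,y4,z12]),(z1,[z0,z0,z1]),(z1,[z24,z24,z0,z27,z8,y24]),(z1,[y15,y15,z0,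
    y15,y4,z15]),(z1,[z6,z3,y1,z3,z1,y3])],.ref k25 k0 [(z1,[z6,z3,y2]),(z1,[z0,z0,z1]),(z1,[y12,z0,z4,z3]),(z2,[z15,
    z0,y5,z0,z2]),(z1,[y3,y3,z0,y3,y1,z3])],.ref k25 k0 [(z1,[y6,z3,z0,z6,z2]),(z1,[z0,z0,z1]),(z1,[z12,z0,z0,y9,y4]),
    (z2,[y15,z0,z0,z15,z7]),(z1,[z3,y3,y1,y6,y2,z3])],.ref k25 k0 [(z9,[y12,z15,y4,z0,y4,z12]),(z1,[z0,z0,z1]),(z9,
    [z24,z24,z8,z27,z8,y24]),(z9,[y15,y15,y5,z0,z4,z15]),(z9,[z6,y21,y7,y27,y7,z21])],.ref k25 k0 [(z1,[y2,z3,z0,z2]),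
    (z1,[z0,z0,z1]),(z1,[z4,z0,z0,y1]),(z2,[y5,z0,z0,z5,z2]),(z1,[z1,y3,y1,y4,y1,z3])],.ref k25 k0 [(z1,[z3,z6,z1,z3,
    z0,y3]),(z1,[z0,z0,z1]),(z1,[y6,y6,y2,y3,z0,z6]),(z4,[z15,z15,z5,z15,z4,y15]),(z2,[y3,y9,y3,y9,y2,z9])],
    .ref k25 k0 [(z7,[z12,z21,z0,z0,y4]),(z1,[z0,z0,z1]),(z7,[y24,z0,z0,z21,z8]),(z7,[z15,z0,z0,z0,z2]),(z7,[y6,y21,
    y7,y21,y5,z21])],.ref k25 k0 [(z1,[z4,z3]),(z1,[z0,z0,z1]),(z1,[y8,z0,z0,z3]),(z1,[z5,z0,z0,z0,z1]),(z1,[y2,y3,y1,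
    y3,y1,z3])]],
    .base (.leafM k3 [k4,k5,k0,k1,k2,k3] [(z1,[z0,z1,z1])] []),
    .lp k0 [(nat_lit 470),(nat_lit 428),(nat_lit 506),(nat_lit 518),(nat_lit 506),(nat_lit 440)] [k24,k24,k45,k45,k6,
    k6,k0,k0,k6,k6,k39,k39] k0 [[k0,k0,k0,k0,k12,k12,k24,k0,k0,k0,k0,k12],[k6,k0,k0,k6,k0,k0,k0,k0,k18,k0,k0,k24],[k6,
    k0,k0,k6,k0,k0,k0,k0,k18,k0,k0,k24],[k0,k0,k0,k0,k12,k12,k24,k0,k0,k0,k0,k12],[k0,k12,k12,k0,k0,k0,k0,k0,k0,k42,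
    k36,k0],[k0,k12,k12,k0,k0,k0,k0,k0,k0,k12,k0,k0],[k0,k0,k0,k0,k0,k0,k0,k0,k0,k0,k0,k0],[k0,k24,k24,k0,k0,k0,k0,k0,
    k0,k0,k6,k12],[k0,k0,k0,k0,k12,k42,k0,k0,k0,k0,k6,k0],[k18,k0,k0,k18,k0,k0,k0,k0,k0,k0,k0,k0],[k24,k12,k12,k24,k0,
    k0,k12,k0,k0,k0,k0,k0],[k0,k0,k0,k0,k0,k36,k6,k0,k0,k6,k0,k0]] (nat_lit 1440) k5
    [[(k4,(nat_lit 452)),(k10,(nat_lit 455)),(k11,(nat_lit 455)),(k2,(nat_lit 461)),(k3,(nat_lit 461)),(k1,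
    (nat_lit 470)),(k8,(nat_lit 482)),(k9,(nat_lit 482)),(k0,(nat_lit 494)),(k7,(nat_lit 494)),(k6,(nat_lit 506)),(k5,
    (nat_lit 512))],[(k10,(nat_lit 443)),(k2,(nat_lit 449)),(k3,(nat_lit 449)),(k11,(nat_lit 455)),(k9,(nat_lit 464)),
    (k0,(nat_lit 476)),(k4,(nat_lit 476)),(k7,(nat_lit 482)),(k1,(nat_lit 494)),(k5,(nat_lit 494)),(k6,(nat_lit 494)),
    (k8,(nat_lit 506))],[(k10,(nat_lit 410)),(k11,(nat_lit 416)),(k2,(nat_lit 422)),(k3,(nat_lit 422)),(k0,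
    (nat_lit 449)),(k1,(nat_lit 461)),(k5,(nat_lit 467)),(k8,(nat_lit 467)),(k9,(nat_lit 467)),(k4,(nat_lit 479)),(k7,
    (nat_lit 485)),(k6,(nat_lit 497))],[(k10,(nat_lit 410)),(k11,(nat_lit 416)),(k2,(nat_lit 422)),(k3,(nat_lit 422)),
    (k0,(nat_lit 449)),(k1,(nat_lit 461)),(k5,(nat_lit 467)),(k8,(nat_lit 467)),(k9,(nat_lit 467)),(k4,(nat_lit 479)),
    (k7,(nat_lit 485)),(k6,(nat_lit 497))],[(k10,(nat_lit 461)),(k2,(nat_lit 467)),(k3,(nat_lit 467)),(k11,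
    (nat_lit 473)),(k9,(nat_lit 482)),(k0,(nat_lit 494)),(k4,(nat_lit 494)),(k7,(nat_lit 500)),(k1,(nat_lit 512)),(k5,
    (nat_lit 512)),(k6,(nat_lit 512)),(k8,(nat_lit 524))],[(k1,(nat_lit 452)),(k8,(nat_lit 464)),(k10,(nat_lit 473)),
    (k0,(nat_lit 476)),(k2,(nat_lit 479)),(k3,(nat_lit 479)),(k11,(nat_lit 485)),(k5,(nat_lit 494)),(k4,
    (nat_lit 506)),(k9,(nat_lit 506)),(k6,(nat_lit 512)),(k7,(nat_lit 512))],[(k0,(nat_lit 482)),(k2,(nat_lit 485)),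
    (k3,(nat_lit 485)),(k1,(nat_lit 494)),(k5,(nat_lit 500)),(k8,(nat_lit 500)),(k4,(nat_lit 512)),(k9,(nat_lit 512)),
    (k10,(nat_lit 515)),(k6,(nat_lit 518)),(k7,(nat_lit 518)),(k11,(nat_lit 521))],[(k11,(nat_lit 479)),(k10,
    (nat_lit 485)),(k0,(nat_lit 494)),(k2,(nat_lit 497)),(k3,(nat_lit 497)),(k1,(nat_lit 506)),(k4,(nat_lit 512)),(k5,
    (nat_lit 512)),(k8,(nat_lit 512)),(k9,(nat_lit 512)),(k6,(nat_lit 518)),(k7,(nat_lit 518))],[(k10,(nat_lit 461)),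
    (k0,(nat_lit 464)),(k2,(nat_lit 467)),(k3,(nat_lit 467)),(k11,(nat_lit 473)),(k1,(nat_lit 482)),(k5,
    (nat_lit 482)),(k4,(nat_lit 506)),(k8,(nat_lit 506)),(k9,(nat_lit 506)),(k6,(nat_lit 512)),(k7,(nat_lit 512))],
    [(k4,(nat_lit 464)),(k2,(nat_lit 467)),(k3,(nat_lit 467)),(k10,(nat_lit 473)),(k11,(nat_lit 473)),(k1,
    (nat_lit 482)),(k7,(nat_lit 500)),(k0,(nat_lit 506)),(k8,(nat_lit 506)),(k9,(nat_lit 506)),(k6,(nat_lit 512)),(k5,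
    (nat_lit 524))],[(k2,(nat_lit 416)),(k3,(nat_lit 416)),(k11,(nat_lit 440)),(k10,(nat_lit 446)),(k0,(nat_lit 455)),
    (k1,(nat_lit 455)),(k5,(nat_lit 473)),(k8,(nat_lit 473)),(k9,(nat_lit 473)),(k6,(nat_lit 479)),(k4,(nat_lit 485)),
    (k7,(nat_lit 521))],[(k2,(nat_lit 410)),(k3,(nat_lit 410)),(k10,(nat_lit 440)),(k0,(nat_lit 443)),(k11,
    (nat_lit 446)),(k1,(nat_lit 455)),(k5,(nat_lit 461)),(k9,(nat_lit 461)),(k4,(nat_lit 473)),(k8,(nat_lit 473)),(k6,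
    (nat_lit 485)),(k7,(nat_lit 515))]]
    [[k2,k1,k0,k0,k0,k0],[k2,k0,k0,k0,k0,k1],[k1,k2,k0,k0,k0,k0],[k1,k1,k1,k0,k0,k0],[k1,k1,k0,k0,k1,k0],[k1,k1,k0,k0,
    k0,k1],[k1,k0,k1,k0,k0,k1],[k1,k0,k0,k1,k0,k1],[k1,k0,k0,k0,k1,k1],[k1,k0,k0,k0,k0,k2],[k0,k3,k0,k0,k0,k0],[k0,k2,
    k1,k0,k0,k0],[k0,k2,k0,k1,k0,k0],[k0,k2,k0,k0,k1,k0],[k0,k2,k0,k0,k0,k1],[k0,k1,k1,k0,k1,k0],[k0,k1,k1,k0,k0,k1],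
    [k0,k1,k0,k1,k0,k1],[k0,k1,k0,k0,k1,k1],[k0,k1,k0,k0,k0,k2],[k0,k0,k1,k0,k1,k1],[k0,k0,k1,k0,k0,k2],[k0,k0,k0,k0,
    k1,k2],[k0,k0,k0,k0,k0,k3]]
    [.ref k25 k0 [(z7,[z16,y11,y16]),(z7,[y11,z22,z32]),(z7,[y8,z16,z8,z21]),(z7,[y2,z4,z2,z0,z21]),(z7,[z4,y29,y25,
    y21,y21,z21])],.ref k25 k0 [(z11,[z16,z1]),(z1,[y1,z2,z3]),(z11,[y8,z16,z0,z33]),(z11,[y2,z4,z0,z0,z33]),(z11,[z4,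
    y41,y33,y33,y33,z33])],.ref k25 k0 [(z1,[y8,z11,z16]),(z2,[z11,y11,y16]),(z1,[z4,y4,y8,z3]),(z1,[z1,y1,y2,z0,z3]),
    (z1,[y2,y1,z1,y3,y3,z3])],.ref k25 k0 [(z1,[y16,z19,z16,z16]),(z1,[z11,y11,y8,y11]),(z1,[z8,y8,y8,y5]),(z1,[z2,y2,
    y2,y2,z3]),(z1,[y4,z1,z1,z1,y3,z3])],.ref k25 k0 [(z3,[z16,z9,z0,z16,z16,y16]),(z3,[y11,z0,z9,y11,y11,z11]),(z3,
    [y8,z0,z0,z1,y8,z8]),(z3,[y2,z0,z0,y2,z7,z2]),(z3,[z4,y9,y9,y5,y5,z5])],.ref k25 k0 [(z1,[z8,y5,y8]),(z2,[y11,z11,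
    z17]),(z1,[y4,z4,z4,z3]),(z1,[y1,z1,z1,z0,z3]),(z1,[z2,y5,y5,y3,y3,z3])],.ref k25 k0 [(z3,[z16,y7,z0,y16]),(z3,
    [y11,z11,z9,z11]),(z3,[y8,z8,z0,z17]),(z3,[y2,z2,z0,z2,z9]),(z3,[z4,y13,y9,y13,y9,z9])],.ref k25 k0 [(z5,[z16,y1,
    z0,z0,y16]),(z5,[y11,z11,z15,z0,z11]),(z5,[y8,z8,z0,z15,z8]),(z5,[y2,z2,z0,z0,z17]),(z5,[z4,y19,y15,y15,y19,
    z15])],.ref k25 k0 [(z7,[z16,z21,z16,z16,z16,y16]),(z7,[y11,z0,z10,y11,y11,z11]),(z7,[y8,z0,y8,z13,y8,z8]),(z7,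
    [y2,z0,y2,y2,z19,z2]),(z7,[z4,y21,y17,y17,y17,z17])],.ref k25 k0 [(z3,[z8,z1]),(z6,[y11,z11,z18]),(z3,[y4,z4,z0,
    z9]),(z3,[y1,z1,z0,z0,z9]),(z3,[z2,y11,y9,y9,y9,z9])],.ref k25 k0 [(z11,[y16,z33,z48]),(z1,[z1]),(z11,[z8,z0,y24,
    z33]),(z11,[z2,z0,y6,z0,z33]),(z11,[y4,y33,y21,y33,y33,z33])],.ref k25 k0 [(z5,[y8,z15,z16,z8]),(z10,[z11,z0,z8,
    y11]),(z5,[z4,z0,y8,z11]),(z5,[z1,z0,y2,y1,z15]),(z5,[y2,y15,y11,y13,y15,z15])],.ref k25 k0 [(z1,[y2,z3,z4,z0,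
    z2]),(z8,[z11,z0,z2,z0,y11]),(z1,[z1,z0,y2,z3,y1]),(z4,[z1,z0,y2,z0,z11]),(z2,[y1,y6,y4,y6,y5,z6])],
    .ref k25 k0 [(z3,[y8,z1,z8,y8,y8,z8]),(z6,[z11,z11,z7,z11,z11,y11]),(z3,[z4,z4,y4,z13,z4,y4]),(z3,[z1,z1,y1,z1,
    z10,y1]),(z3,[y2,y11,y7,y11,y11,z11])],.ref k25 k0 [(z7,[y16,z21,z32]),(z7,[z11,z0,y1]),(z7,[z8,z0,y16,z21]),(z7,
    [z2,z0,y4,z0,z21]),(z7,[y4,y21,y13,y21,y21,z21])],.ref k25 k0 [(z5,[y16,y1,z0,z0,y16,z16]),(z5,[z11,z11,z15,z0,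
    z11,y11]),(z5,[z8,z8,z0,z15,z8,y8]),(z5,[z2,z2,z0,z0,z17,y2]),(z5,[y4,y19,y15,y15,y19,z19])],.ref k25 k0 [(z3,[y8,
    z9,z8,z8]),(z6,[z11,z0,z7,y11]),(z3,[z4,z0,y4,z5]),(z3,[z1,z0,y1,y1,z9]),(z3,[y2,y9,y7,y7,y9,z9])],
    .ref k25 k0 [(z1,[y4,z3,z4,z0,z4]),(z4,[z11,z0,z1,z0,y11]),(z1,[z2,z0,y2,z3,y2]),(z2,[z1,z0,y1,z0,z5]),(z1,[y1,y3,
    y2,y3,y2,z3])],.ref k25 k0 [(z1,[y8,y5,z0,y8,y8,z8]),(z2,[z11,z11,z6,z11,z11,y11]),(z1,[z4,z4,z0,z7,z4,y4]),(z1,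
    [z1,z1,z0,z1,z4,y1]),(z1,[y2,y5,y3,y5,y5,z5])],.ref k25 k0 [(z3,[y16,z9,z16]),(z3,[z11,z0,y2]),(z3,[z8,z0,y8,z9]),
    (z3,[z2,z0,y2,z0,z9]),(z3,[y4,y9,y5,y9,y9,z9])],.ref k25 k0 [(z1,[y16,y13,y16,z0,y16,z16]),(z1,[z11,z11,z14,z0,
    z11,y11]),(z1,[z8,z8,z8,z3,z8,y8]),(z1,[z2,z2,z2,z0,z5,y2]),(z1,[y4,y7,y7,y3,y7,z7])],.ref k25 k0 [(z1,[y8,z3,z0,
    z8]),(z2,[z11,z0,z6,y11]),(z1,[z4,z0,z0,y1]),(z1,[z1,z0,z0,y1,z3]),(z1,[y2,y3,y3,y1,y3,z3])],.ref k25 k0 [(z1,[z8,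
    z11,z8,z8,z8,y8]),(z2,[y11,y11,y5,y11,y11,z11]),(z1,[y4,y4,y4,y1,y4,z4]),(z1,[y1,y1,y1,y1,z2,z1]),(z1,[z2,y1,y1,
    y1,y1,z1])],.ref k25 k0 [(z1,[z16,z3]),(z1,[y11,z0,z3]),(z1,[y8,z0,z0,z3]),(z1,[y2,z0,z0,z0,z3]),(z1,[z4,y3,y3,y3,
    y3,z3])]],
    .lp k0 [(nat_lit 474),(nat_lit 472),(nat_lit 486),(nat_lit 490),(nat_lit 486),(nat_lit 466)] [k8,k8,k9,k9,k2,k2,
    k0,k0,k2,k2,k12,k12] k0 [[k0,k0,k0,k0,k6,k6,k16,k0,k0,k0,k0,k2],[k78,k0,k0,k0,k0,k0,k4,k0,k0,k0,k0,k92],[k0,k0,k0,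
    k0,k0,k0,k0,k0,k0,k2,k6,k4],[k0,k0,k0,k0,k4,k4,k8,k0,k0,k0,k0,k0],[k0,k6,k4,k0,k0,k0,k0,k0,k0,k0,k0,k0],[k0,k6,k4,
    k0,k0,k0,k0,k0,k0,k0,k4,k0],[k0,k0,k0,k0,k0,k0,k0,k2,k2,k2,k0,k0],[k4,k16,k8,k0,k0,k0,k0,k0,k0,k0,k2,k0],[k0,k0,
    k0,k2,k0,k0,k0,k2,k0,k0,k70,k0],[k0,k0,k0,k0,k0,k0,k0,k2,k0,k0,k0,k0],[k92,k2,k0,k4,k0,k0,k0,k0,k0,k0,k0,k28],[k0,
    k0,k0,k6,k4,k0,k2,k0,k0,k70,k0,k0]] (nat_lit 1440) k5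
    [[(k8,(nat_lit 410)),(k2,(nat_lit 467)),(k10,(nat_lit 470)),(k11,(nat_lit 470)),(k3,(nat_lit 475)),(k7,
    (nat_lit 478)),(k9,(nat_lit 478)),(k4,(nat_lit 480)),(k6,(nat_lit 482)),(k5,(nat_lit 484)),(k1,(nat_lit 502)),(k0,
    (nat_lit 566))],[(k9,(nat_lit 464)),(k10,(nat_lit 468)),(k11,(nat_lit 470)),(k2,(nat_lit 473)),(k3,(nat_lit 473)),
    (k4,(nat_lit 474)),(k7,(nat_lit 476)),(k5,(nat_lit 480)),(k8,(nat_lit 480)),(k6,(nat_lit 486)),(k0,(nat_lit 552)),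
    (k1,(nat_lit 566))],[(k10,(nat_lit 377)),(k3,(nat_lit 394)),(k11,(nat_lit 469)),(k2,(nat_lit 472)),(k0,
    (nat_lit 473)),(k1,(nat_lit 475)),(k9,(nat_lit 475)),(k5,(nat_lit 479)),(k8,(nat_lit 479)),(k4,(nat_lit 485)),(k7,
    (nat_lit 487)),(k6,(nat_lit 497))],[(k10,(nat_lit 465)),(k1,(nat_lit 467)),(k11,(nat_lit 469)),(k2,(nat_lit 472)),
    (k3,(nat_lit 472)),(k0,(nat_lit 473)),(k8,(nat_lit 477)),(k5,(nat_lit 479)),(k9,(nat_lit 479)),(k4,(nat_lit 483)),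
    (k7,(nat_lit 485)),(k6,(nat_lit 489))],[(k9,(nat_lit 478)),(k11,(nat_lit 478)),(k2,(nat_lit 479)),(k3,
    (nat_lit 479)),(k0,(nat_lit 480)),(k4,(nat_lit 482)),(k10,(nat_lit 482)),(k1,(nat_lit 484)),(k7,(nat_lit 484)),
    (k5,(nat_lit 486)),(k8,(nat_lit 486)),(k6,(nat_lit 488))],[(k0,(nat_lit 474)),(k11,(nat_lit 476)),(k1,
    (nat_lit 480)),(k10,(nat_lit 480)),(k5,(nat_lit 482)),(k2,(nat_lit 483)),(k3,(nat_lit 485)),(k4,(nat_lit 486)),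
    (k8,(nat_lit 486)),(k9,(nat_lit 486)),(k6,(nat_lit 488)),(k7,(nat_lit 488))],[(k0,(nat_lit 476)),(k1,
    (nat_lit 478)),(k10,(nat_lit 478)),(k11,(nat_lit 478)),(k5,(nat_lit 484)),(k2,(nat_lit 485)),(k3,(nat_lit 487)),
    (k4,(nat_lit 488)),(k8,(nat_lit 488)),(k9,(nat_lit 488)),(k6,(nat_lit 490)),(k7,(nat_lit 490))],[(k11,
    (nat_lit 476)),(k10,(nat_lit 480)),(k1,(nat_lit 482)),(k0,(nat_lit 486)),(k8,(nat_lit 486)),(k4,(nat_lit 488)),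
    (k5,(nat_lit 488)),(k6,(nat_lit 488)),(k9,(nat_lit 488)),(k2,(nat_lit 489)),(k7,(nat_lit 490)),(k3,
    (nat_lit 497))],[(k0,(nat_lit 464)),(k3,(nat_lit 475)),(k10,(nat_lit 476)),(k1,(nat_lit 478)),(k5,(nat_lit 478)),
    (k11,(nat_lit 478)),(k2,(nat_lit 479)),(k4,(nat_lit 486)),(k6,(nat_lit 488)),(k7,(nat_lit 488)),(k8,
    (nat_lit 488)),(k9,(nat_lit 488))],[(k1,(nat_lit 410)),(k10,(nat_lit 476)),(k11,(nat_lit 476)),(k2,(nat_lit 477)),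
    (k3,(nat_lit 479)),(k0,(nat_lit 480)),(k4,(nat_lit 486)),(k5,(nat_lit 486)),(k6,(nat_lit 486)),(k8,(nat_lit 486)),
    (k7,(nat_lit 488)),(k9,(nat_lit 488))],[(k11,(nat_lit 466)),(k2,(nat_lit 469)),(k3,(nat_lit 469)),(k0,
    (nat_lit 470)),(k1,(nat_lit 470)),(k4,(nat_lit 476)),(k6,(nat_lit 476)),(k8,(nat_lit 476)),(k5,(nat_lit 478)),(k7,
    (nat_lit 478)),(k9,(nat_lit 478)),(k10,(nat_lit 536))],[(k3,(nat_lit 377)),(k10,(nat_lit 438)),(k2,(nat_lit 465)),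
    (k0,(nat_lit 468)),(k1,(nat_lit 470)),(k8,(nat_lit 476)),(k9,(nat_lit 476)),(k7,(nat_lit 478)),(k4,(nat_lit 480)),
    (k6,(nat_lit 480)),(k5,(nat_lit 482)),(k11,(nat_lit 536))]]
    [[k1,k2,k0,k0,k0,k0],[k1,k1,k1,k0,k0,k0],[k1,k1,k0,k0,k1,k0],[k1,k1,k0,k0,k0,k1],[k1,k0,k1,k0,k1,k0],[k1,k0,k1,k0,
    k0,k1],[k1,k0,k0,k1,k1,k0],[k1,k0,k0,k1,k0,k1],[k1,k0,k0,k0,k2,k0],[k1,k0,k0,k0,k1,k1],[k1,k0,k0,k0,k0,k2],[k0,k3,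
    k0,k0,k0,k0],[k0,k2,k1,k0,k0,k0],[k0,k2,k0,k0,k1,k0],[k0,k2,k0,k0,k0,k1],[k0,k2,k0,k1,k0,k0],[k0,k1,k1,k0,k0,k1],
    [k0,k1,k0,k1,k0,k1],[k0,k1,k0,k0,k1,k1],[k0,k1,k0,k0,k0,k2],[k0,k0,k1,k0,k1,k1],[k0,k0,k1,k0,k0,k2],[k0,k0,k0,k1,
    k0,k2],[k0,k0,k0,k0,k1,k2]]
    [.ref k25 k0 [(z1,[y12,z15,z4]),(z2,[z15,y15,y4]),(z1,[z6,y6,y2,z3]),(z2,[z3,y3,y1,z0,z3]),(z1,[y3,z3,z1])],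
    .ref k25 k0 [(z1,[y24,z27,z4,z24]),(z1,[z15,y15,y2,y15]),(z1,[z12,y12,y2,y9]),(z2,[z6,y6,y1,y6,z3]),(z1,[y6,z6,z1,
    z6])],.ref k25 k0 [(z5,[z24,y9,y4]),(z1,[y3,z3,z1]),(z5,[y12,z12,z2,z15]),(z10,[y6,z6,z1,z0,z15]),(z5,[z6,y6,
    y1])],.ref k25 k0 [(z1,[z8,z3,z0,z8,z4,y8]),(z2,[y10,z0,z1,y10,y5,z10]),(z1,[y4,z0,z0,y1,y2,z4]),(z1,[y1,z0,z0,y1,
    z1,z1]),(z1,[z2,z0,z0,z2,z1,y2])],.ref k25 k0 [(z1,[z4,y1,z0,y4]),(z2,[y5,z5,z1,z5]),(z1,[y2,z2,z0,z5]),(z2,[y1,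
    z1,z0,z1,z3]),(z1,[z1,y1,z0,y1])],.ref k25 k0 [(z1,[z6,z3,z1,z0,z3,y6]),(z8,[y30,z0,y1,z0,y15,z30]),(z2,[y6,z0,y1,
    z6,y3,z6]),(z8,[y6,z0,y1,z0,z9,z6]),(z4,[z6,z0,z1,z0,z3,y6])],.ref k25 k0 [(z3,[z8,z1,z0,z0,y4]),(z6,[y10,z10,z3,
    z0,z5]),(z3,[y4,z4,z0,z9,z2]),(z3,[y1,z1,z0,z0,z5]),(z3,[z2,y2,z0,z0,y1])],.ref k25 k0 [(z7,[z24,z21,z4,z24,z0,
    y24]),(z7,[y15,z0,z1,y15,z0,z15]),(z7,[y12,z0,y2,z9,z0,z12]),(z14,[y6,z0,y1,y6,z21,z6]),(z7,[z6,z0,z1,z6,z0,y6])],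
    .ref k25 k0 [(z1,[z2,z1]),(z4,[y5,z5,z2]),(z1,[y1,z1,z0,z3]),(z4,[y1,z1,z0,z0,z6]),(z2,[z1,y1])],.ref k25 k0 [(z5,
    [z12,z15,z2,z12,z6,y12]),(z4,[y6,z0,z1,y6,y3,z6]),(z5,[y6,z0,y1,z9,y3,z6]),(z20,[y6,z0,y1,y6,z27,z6]),(z10,[z6,z0,
    z1,z6,z3,y6])],.ref k25 k0 [(z1,[z3,z6,z1,z6,z3,y6]),(z8,[y15,y15,y1,y30,y15,z30]),(z2,[y3,y3,y1,z0,y3,z6]),(z8,
    [y3,y3,y1,y6,z9,z6]),(z4,[z3,z3,z1,z6,z3,y6])],.ref k25 k0 [(z5,[y8,z15,z4]),(z1,[z1]),(z5,[z4,z0,y2,z15]),(z10,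
    [z2,z0,y1,z0,z15]),(z5,[y2,z0,z1])],.ref k25 k0 [(z7,[y12,z21,z4,z12]),(z14,[z15,z0,z2,y15]),(z7,[z6,z0,y2,z15]),
    (z14,[z3,z0,y1,y3,z21]),(z7,[y3,z0,z1,z3])],.ref k25 k0 [(z1,[y3,z3,z1]),(z8,[z15,z0,y1]),(z2,[z3,z0,y1,z6]),(z8,
    [z3,z0,y1,z0,z12]),(z4,[y3,z0,z1])],.ref k25 k0 [(z5,[y12,z3,z2,y12,y6,z12]),(z4,[z6,z6,z1,z6,z3,y6]),(z5,[z6,z6,
    y1,z21,z3,y6]),(z20,[z6,z6,y1,z6,z33,y6]),(z10,[y6,y6,z1,y6,y3,z6])],.ref k25 k0 [(z11,[y24,z33,z8,z0,z12]),(z22,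
    [z30,z0,z1,z0,y15]),(z11,[z12,z0,y4,z33,y6]),(z11,[z3,z0,y1,z0,z15]),(z11,[y6,z0,z2,z0,z3])],.ref k25 k0 [(z3,[y8,
    z1,z0,z0,y4,z8]),(z6,[z10,z10,z3,z0,z5,y10]),(z3,[z4,z4,z0,z9,z2,y4]),(z3,[z1,z1,z0,z0,z5,y1]),(z3,[y2,y2,z0,z0,
    y1,z2])],.ref k25 k0 [(z1,[y4,y1,z0,y4,z0,z4]),(z2,[z5,z5,z1,z5,z0,y5]),(z1,[z2,z2,z0,z5,z0,y2]),(z2,[z1,z1,z0,z1,
    z3,y1]),(z1,[y1,y1,z0,y1,z0,z1])],.ref k25 k0 [(z1,[y8,y5,z0,y8,y4,z8]),(z2,[z10,z10,z1,z10,z5,y10]),(z1,[z4,z4,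
    z0,z7,z2,y4]),(z1,[z1,z1,z0,z1,z2,y1]),(z1,[y2,y2,z0,y2,y1,z2])],.ref k25 k0 [(z5,[y24,y33,y4,y48,y24,z48]),(z1,
    [z3,z6,z1,z6,z3,y6]),(z5,[z12,z24,z2,z39,z12,y24]),(z10,[z6,z12,z1,z12,z21,y12]),(z5,[y6,y12,y1,y12,y6,z12])],
    .ref k25 k0 [(z1,[y12,y9,y2,z0,y6,z12]),(z4,[z30,z30,z7,z0,z15,y30]),(z1,[z6,z6,z1,z3,z3,y6]),(z4,[z6,z6,z1,z0,z9,
    y6]),(z2,[y6,y6,y1,z0,y3,z6])],.ref k25 k0 [(z1,[y6,y9,y2,y6,y6,z12]),(z4,[z15,z30,z7,z15,z15,y30]),(z1,[z3,z6,z1,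
    z6,z3,y6]),(z4,[z3,z6,z1,z3,z9,y6]),(z2,[y3,y6,y1,y3,y3,z6])],.ref k25 k0 [(z1,[y24,y45,y8,y48,y12,z48]),(z2,[z30,
    z60,z11,z60,z15,y60]),(z1,[z12,z24,z4,z27,z6,y24]),(z1,[z3,z6,z1,z6,z3,y6]),(z1,[y6,y12,y2,y12,y3,z12])],
    .ref k25 k0 [(z1,[z12,z27,z4,z24,z12,y24]),(z2,[y15,y30,y4,y30,y15,z30]),(z1,[y6,y12,y2,y9,y6,z12]),(z2,[y3,y6,y1,
    y6,z0,z6]),(z1,[z3,z6,z1,z6,z3,y6])]],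
    .lp k0 [(nat_lit 236),(nat_lit 224),(nat_lit 254),(nat_lit 264),(nat_lit 264),k192] [k14,k14,k26,k14,k5,k5,k0,k0,
    k0,k0,k30,k42] k0 [[k0,k0,k10,k0,k0,k10,k12,k0,k14,k0,k0,k40],[k0,k0,k0,k0,k0,k0,k2,k0,k0,k0,k0,k40],[k0,k0,k0,k4,
    k4,k0,k0,k0,k0,k0,k16,k12],[k0,k10,k0,k0,k0,k0,k12,k8,k0,k0,k0,k0],[k0,k10,k0,k0,k0,k0,k0,k0,k0,k2,k18,k0],[k0,k0,
    k0,k4,k4,k0,k0,k0,k0,k0,k16,k0],[k0,k0,k8,k0,k0,k0,k0,k0,k0,k0,k0,k0],[k2,k12,k12,k0,k0,k0,k0,k0,k0,k0,k10,k0],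
    [k0,k0,k0,k0,k0,k2,k0,k0,k0,k0,k0,k0],[k0,k14,k0,k0,k0,k0,k0,k0,k0,k0,k0,k0],[k40,k40,k0,k12,k0,k0,k0,k0,k0,k0,k0,
    k24],[k0,k0,k0,k16,k16,k18,k10,k0,k0,k0,k0,k0]] (nat_lit 720) k5
    [[(k2,(nat_lit 208)),(k11,(nat_lit 208)),(k10,(nat_lit 220)),(k4,(nat_lit 227)),(k7,(nat_lit 234)),(k9,
    (nat_lit 240)),(k6,(nat_lit 250)),(k8,(nat_lit 250)),(k5,(nat_lit 257)),(k1,(nat_lit 260)),(k0,(nat_lit 276)),(k3,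
    (nat_lit 276))],[(k10,k180),(k11,k194),(k2,(nat_lit 224)),(k4,(nat_lit 235)),(k5,(nat_lit 235)),(k0,
    (nat_lit 236)),(k3,(nat_lit 236)),(k9,(nat_lit 238)),(k7,(nat_lit 250)),(k8,(nat_lit 250)),(k6,(nat_lit 252)),(k1,
    (nat_lit 276))],[(k10,k180),(k11,(nat_lit 208)),(k2,(nat_lit 234)),(k0,(nat_lit 236)),(k3,(nat_lit 236)),(k4,
    (nat_lit 245)),(k5,(nat_lit 245)),(k9,(nat_lit 248)),(k7,(nat_lit 260)),(k6,(nat_lit 262)),(k8,(nat_lit 264)),(k1,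
    (nat_lit 276))],[(k10,k196),(k11,k196),(k1,(nat_lit 208)),(k2,(nat_lit 208)),(k0,(nat_lit 224)),(k4,
    (nat_lit 233)),(k5,(nat_lit 233)),(k3,(nat_lit 234)),(k7,(nat_lit 234)),(k8,(nat_lit 238)),(k9,(nat_lit 246)),(k6,
    (nat_lit 250))],[(k11,(nat_lit 217)),(k2,(nat_lit 233)),(k0,(nat_lit 235)),(k3,(nat_lit 245)),(k10,(nat_lit 245)),
    (k9,(nat_lit 247)),(k6,(nat_lit 251)),(k1,(nat_lit 257)),(k4,(nat_lit 258)),(k5,(nat_lit 258)),(k7,(nat_lit 259)),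
    (k8,(nat_lit 259))],[(k11,(nat_lit 217)),(k1,(nat_lit 227)),(k2,(nat_lit 233)),(k0,(nat_lit 235)),(k3,
    (nat_lit 245)),(k10,(nat_lit 245)),(k8,(nat_lit 257)),(k4,(nat_lit 258)),(k5,(nat_lit 258)),(k6,(nat_lit 259)),
    (k7,(nat_lit 259)),(k9,(nat_lit 259))],[(k11,(nat_lit 224)),(k1,(nat_lit 234)),(k2,(nat_lit 234)),(k0,
    (nat_lit 250)),(k10,(nat_lit 252)),(k4,(nat_lit 259)),(k5,(nat_lit 259)),(k3,(nat_lit 260)),(k7,(nat_lit 260)),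
    (k6,(nat_lit 264)),(k8,(nat_lit 264)),(k9,(nat_lit 264))],[(k11,(nat_lit 222)),(k10,(nat_lit 244)),(k1,
    (nat_lit 250)),(k2,(nat_lit 250)),(k5,(nat_lit 251)),(k0,(nat_lit 252)),(k4,(nat_lit 259)),(k3,(nat_lit 262)),(k6,
    (nat_lit 264)),(k7,(nat_lit 264)),(k8,(nat_lit 264)),(k9,(nat_lit 264))],[(k11,(nat_lit 222)),(k10,(nat_lit 234)),
    (k0,(nat_lit 238)),(k1,(nat_lit 240)),(k2,(nat_lit 246)),(k5,(nat_lit 247)),(k3,(nat_lit 248)),(k4,(nat_lit 259)),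
    (k6,(nat_lit 264)),(k7,(nat_lit 264)),(k8,(nat_lit 264)),(k9,(nat_lit 264))],[(k11,(nat_lit 222)),(k10,
    (nat_lit 234)),(k2,(nat_lit 238)),(k0,(nat_lit 250)),(k1,(nat_lit 250)),(k4,(nat_lit 257)),(k5,(nat_lit 259)),(k3,
    (nat_lit 264)),(k6,(nat_lit 264)),(k7,(nat_lit 264)),(k8,(nat_lit 264)),(k9,(nat_lit 264))],[(k11,k180),(k10,
    k192),(k0,k194),(k2,k196),(k1,(nat_lit 208)),(k3,(nat_lit 208)),(k4,(nat_lit 217)),(k5,(nat_lit 217)),(k6,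
    (nat_lit 222)),(k8,(nat_lit 222)),(k9,(nat_lit 222)),(k7,(nat_lit 224))],[(k0,k180),(k3,k180),(k10,k180),(k11,
    k192),(k2,k196),(k1,(nat_lit 220)),(k8,(nat_lit 234)),(k9,(nat_lit 234)),(k6,(nat_lit 244)),(k4,(nat_lit 245)),
    (k5,(nat_lit 245)),(k7,(nat_lit 252))]]
    [[k2,k0,k0,k0,k0,k1],[k1,k2,k0,k0,k0,k0],[k1,k1,k1,k0,k0,k0],[k1,k1,k0,k0,k1,k0],[k1,k1,k0,k0,k0,k1],[k1,k0,k1,k0,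
    k0,k1],[k1,k0,k0,k1,k0,k1],[k1,k0,k0,k0,k1,k1],[k1,k0,k0,k0,k0,k2],[k0,k3,k0,k0,k0,k0],[k0,k2,k1,k0,k0,k0],[k0,k2,
    k0,k0,k0,k1],[k0,k1,k1,k0,k0,k1],[k0,k1,k0,k1,k0,k1],[k0,k1,k0,k0,k1,k1],[k0,k1,k0,k0,k0,k2],[k0,k0,k1,k0,k1,k1],
    [k0,k0,k1,k0,k0,k2],[k0,k0,k0,k1,k0,k2],[k0,k0,k0,k0,k1,k2],[k0,k0,k0,k0,k0,k3]]
    [.ref k121 k1 [(z1,[z0,z4,z2,z5,y4]),(z1,[y1,y9,y5,y11,z11]),(z1,[z0,y7,y4,y8,z8]),(z1,[z1,z14,z8,z16,y16])],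
    .ref k76 k1 [(z1,[z0,z4,z2,z5,y4]),(z2,[z1,z7,z4,z8,y8]),(z1,[z0,y7,y4,y8,z8]),(z2,[y1,z3,z2,z2,y2])],
    .ref k76 k1 [(z1,[z0,z4,z2,z5,y4]),(z1,[z1,z3,z2,z3,y4]),(z1,[z0,y7,y4,y8,z8]),(z1,[y1,z2,z1,z2,y1])],
    .ref k122 k1 [(z1,[z0,z4,z2,z5,y4]),(z1,[z1,z9,z5,z10,y10]),(z1,[z0,y7,y4,y8,z8]),(z1,[y1,y4,y2,y5,z5])],
    .ref k97 k8 [(z1,[y4,z4,z2,z3]),(z1,[y1,y2,y1,y3,z3]),(z1,[z2,y2,y1]),(z1,[y5,z5,z4])],.ref k24 k8 [(z1,[z4,y4,y2,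
    y3]),(z1,[z1,y2,y1,y2,z1]),(z1,[y2,z2,z1,z2]),(z1,[z5,y5,y2,y5])],.ref k123 k1 [(z1,[z0,z4,z2,z5,y4]),(z1,[y1,y2,
    y1,y3,z3]),(z1,[z0,y7,y4,y8,z8]),(z1,[z1,z7,z4,z8,y8])],.ref k124 k1 [(z1,[z0,z4,z2,z5,y4]),(z1,[y1,y4,y2,y5,z5]),
    (z1,[z0,y7,y4,y8,z8]),(z1,[z1,z9,z5,z10,y10])],.ref k24 k8 [(z1,[z2,y2,y2,z1]),(z2,[z1,y3,y2,y2,z2]),(z1,[y1,z1,
    z1]),(z2,[z5,y5,y4])],.ref k125 k1 [(z1,[z0,z4,z2,z5,y4]),(z1,[z1]),(z1,[z0,y7,y4,y8,z8]),(z1,[y1,z15,z9,z15,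
    y15])],.ref k123 k1 [(z1,[z0,z4,z2,z5,y4]),(z2,[z1,y4,y2,y5,z4]),(z1,[z0,y7,y4,y8,z8]),(z2,[y1,z14,z8,z15,y14])],
    .ref k124 k1 [(z1,[z0,z4,z2,z5,y4]),(z1,[z1,y5,y3,y5,z5]),(z1,[z0,y7,y4,y8,z8]),(z1,[y1,z10,z6,z10,y10])],
    .ref k97 k8 [(z3,[z4,z0,y2,z5]),(z3,[z1,y9,y5,y10,z9]),(z3,[y2,z0,z1,z2]),(z3,[z5,z0,z2,y5])],.ref k97 k8 [(z1,
    [z2,z2,z0,z5,y2]),(z2,[z1,y5,y3,y5,z5]),(z1,[y1,y1,z0,y1,z1]),(z2,[z5,z5,z3,z5,y5])],.ref k97 k8 [(z1,[z4,z0,y2,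
    z3]),(z1,[z1,y3,y2,y3,z3]),(z1,[y2,z0,z1]),(z1,[z5,z0,y1])],.ref k122 k1 [(z1,[z0,z4,z2,z5,y4]),(z1,[y1,z10,z6,
    z10,y10]),(z1,[z0,y7,y4,y8,z8]),(z1,[z1,y5,y3,y5,z5])],.ref k126 k1 [(z1,[z0,z4,z2,z5,y4]),(z1,[y1,z7,z4,z8,y7]),
    (z1,[z0,y7,y4,y8,z8]),(z1,[z1,y2,y1,y3,z2])],.ref k126 k1 [(z1,[z0,z4,z2,z5,y4]),(z2,[y1,z14,z8,z15,y14]),(z1,[z0,
    y7,y4,y8,z8]),(z2,[z1,y4,y2,y5,z4])],.ref k127 k0 [(z1,[y8,y7,y4,y8,z8]),(z1,[z5,z5,z3,z5,y5]),(z1,[z4,z4,z2,z5,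
    y4]),(z1,[z1])],.ref k76 k1 [(z1,[z0,z4,z2,z5,y4]),(z2,[y1,z8,z5,z8,y8]),(z1,[z0,y7,y4,y8,z8]),(z2,[z1,z2,z1,z2,
    y2])],.ref k128 k0 [(z1,[z0,z1]),(z1,[y2,z0,z3]),(z1,[z0,z0,z0,z1]),(z1,[z0,y2,y1,y2,z2])]],
    .base (.leafM k3 [k1,k2,k3,k4,k5,k0] [(z1,[z0,z0,z1])] []),
    .base (.leafM k3 [k5,k0,k1,k2,k3,k4] [(z1,[z0,y1,z0,z1])] [])]

theorem hB6_171_10 : blkB [0, 0, 0, 0, 0, 0] [] sp6 hS6_171 (pcls (n := 6) [0, 0, 0, 0, 0, 0]) hD6_171 560 10 hN6_171_10 = true := by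
  decide +kernel

end Pool.Agent.Lib_MP_fa6e45
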