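import Pool.Agent.Lib_MP_fa6e45.HK

/-!
MP_fa6e45_co, stage 4: certificates (captain, generated by a program).
-/

namespace Pool.Agent.Lib_MP_fa6e45

/-- nodes 132 to 143 -/
noncomputable def hN6_171_11 : List HM :=
  [.base (.leafM k3 [k0,k1,k2,k3,k4,k5] [(z1,[y1,z0,y1,z1])] []),
    .lp k0 [k188,k134,k176,k188,k168,k166] [k0,k0,k27,k27,k10,k2,k0,k0,k10,k10,k11,k11] k0 [[k0,k16,k38,k0,k0,k2,k0,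
    k0,k0,k0,k0,k0],[k0,k0,k22,k0,k0,k0,k14,k2,k6,k6,k0,k0],[k0,k0,k0,k0,k0,k0,k8,k8,k0,k0,k0,k22],[k22,k38,k56,k0,k0,
    k0,k0,k0,k0,k0,k0,k18],[k0,k2,k0,k0,k0,k12,k8,k0,k0,k0,k0,k0],[k0,k0,k0,k0,k0,k0,k28,k0,k0,k4,k22,k30],[k2,k0,k0,
    k8,k0,k0,k0,k0,k8,k12,k2,k2],[k14,k0,k0,k8,k28,k8,k0,k0,k0,k0,k0,k0],[k6,k0,k0,k0,k4,k0,k0,k12,k0,k0,k18,k0],[k6,
    k0,k0,k0,k0,k0,k0,k8,k0,k0,k10,k0],[k0,k0,k18,k22,k30,k0,k0,k2,k0,k0,k0,k0],[k0,k0,k0,k0,k22,k0,k0,k2,k10,k18,k0,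
    k0]] (nat_lit 512) k5
    [[(k8,k160),(k3,k161),(k7,k166),(k11,k167),(k10,k177),(k2,k179),(k9,k180),(k6,k186),(k0,k188),(k1,k188),(k4,
    (nat_lit 208)),(k5,(nat_lit 208))],[(k5,k148),(k3,k161),(k0,k172),(k4,k176),(k10,k177),(k9,k180),(k2,k183),(k11,
    k183),(k8,k184),(k1,k188),(k7,k188),(k6,(nat_lit 202))],[(k5,k137),(k9,k137),(k11,k144),(k8,k145),(k3,k150),(k10,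
    k150),(k4,k151),(k6,k159),(k0,k161),(k1,k161),(k7,k163),(k2,k172)],[(k10,k128),(k9,k143),(k11,k150),(k4,k151),(k8,
    k151),(k6,k153),(k5,k159),(k7,k161),(k3,k172),(k1,k179),(k0,k183),(k2,k190)],[(k5,k128),(k3,k137),(k0,k148),(k10,
    k157),(k2,k159),(k11,k175),(k4,k176),(k8,k176),(k9,k184),(k7,k186),(k6,k194),(k1,(nat_lit 208))],[(k2,k151),(k3,
    k151),(k4,k156),(k9,k160),(k8,k168),(k11,k171),(k0,k176),(k5,k176),(k7,k178),(k10,k189),(k6,(nat_lit 206)),(k1,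
    (nat_lit 208))],[(k10,k147),(k9,k150),(k2,k161),(k3,k163),(k1,k166),(k8,k174),(k11,k177),(k4,k178),(k5,k186),(k0,
    k188),(k6,k196),(k7,(nat_lit 200))],[(k2,k153),(k3,k159),(k8,k166),(k11,k169),(k10,k175),(k9,k178),(k1,k186),(k6,
    k188),(k5,k194),(k7,k196),(k0,(nat_lit 202)),(k4,(nat_lit 206))],[(k3,k137),(k2,k143),(k7,k150),(k4,k160),(k9,
    k168),(k10,k169),(k8,k176),(k6,k178),(k11,k179),(k0,k180),(k1,k180),(k5,k184)],[(k3,k145),(k2,k151),(k1,k160),(k6,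
    k166),(k11,k167),(k4,k168),(k8,k168),(k7,k174),(k5,k176),(k9,k176),(k10,k177),(k0,k184)],[(k3,k144),(k2,k150),
    (k11,k166),(k1,k167),(k8,k167),(k6,k169),(k4,k171),(k5,k175),(k7,k177),(k9,k179),(k0,k183),(k10,k184)],[(k2,k128),
    (k7,k147),(k3,k150),(k5,k157),(k10,k166),(k9,k169),(k6,k175),(k0,k177),(k1,k177),(k8,k177),(k11,k184),(k4,k189)]]
    [[k1,k1,k1,k0,k0,k0],[k1,k1,k0,k0,k1,k0],[k1,k1,k0,k0,k0,k1],[k1,k1,k0,k1,k0,k0],[k1,k0,k1,k0,k1,k0],[k1,k0,k1,k0,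
    k0,k1],[k0,k2,k1,k0,k0,k0],[k0,k2,k0,k1,k0,k0],[k0,k2,k0,k0,k1,k0],[k0,k2,k0,k0,k0,k1],[k0,k1,k2,k0,k0,k0],[k0,k1,
    k1,k1,k0,k0],[k0,k1,k1,k0,k1,k0],[k0,k1,k1,k0,k0,k1],[k0,k1,k0,k1,k1,k0],[k0,k1,k0,k1,k0,k1],[k0,k1,k0,k0,k2,k0],
    [k0,k1,k0,k0,k1,k1],[k0,k1,k0,k0,k0,k2],[k0,k0,k3,k0,k0,k0],[k0,k0,k2,k0,k0,k1],[k0,k0,k2,k0,k1,k0],[k0,k0,k1,k1,
    k0,k1],[k0,k0,k1,k0,k1,k1],[k0,k0,k0,k1,k2,k0],[k0,k0,k0,k1,k1,k1],[k0,k0,k0,k1,k0,k2]]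
    [.ref k106 k10 [(z1,[z0,z2,z5,y4]),(z1,[z1,y2,y5,z4]),(z1,[y1,z1,z2,y1])],.ref k107 k7 [(z1,[z4,y2,y3]),(z1,[z1,
    y1,y2,z1]),(z1,[y2,z1,z2])],.ref k51 k10 [(z1,[z0,z2,z5,y4]),(z1,[z1,y2,y5,z4]),(z1,[y1,z1,z2,y1])],
    .ref k108 k2 [(z1,[z2,y1,y2]),(z1,[y1,z0,z0,z1]),(z1,[y4,z2,z5])],.ref k109 k6 [(z1,[y1,z0,y1,z1]),(z1,[z2,z1,z2,
    y2]),(z1,[z0,z0,z1])],.ref k110 k4 [(z1,[y3,y1,y3,z3]),(z1,[y2,y1,y2,z2]),(z1,[z1])],.ref k9 k7 [(z3,[z4,z2,z5,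
    y4]),(z3,[z1,y4,y10,z8]),(z3,[y2,y1,z2,z2])],.ref k9 k7 [(z1,[z2,z0,y1]),(z2,[z1,y3,y8,z6]),(z1,[y1,z0,z2])],
    .ref k120 k9 [(z1,[y4,z2,z3]),(z1,[z1]),(z1,[z0,z0,z1])],.ref k129 k6 [(z1,[z1,z0,y2]),(z1,[y2,z1,z4]),(z1,[z0,z0,
    z1])],.ref k9 k7 [(z1,[z2,z2,z5,y4]),(z2,[z1,y2,y5,z4]),(z1,[y1,y1,y1,z2])],.ref k9 k7 [(z1,[z4,z2,z3,y4]),(z1,
    [z1,y1,y3,z2]),(z1,[y2,y1,z0,z2])],.ref k130 k7 [(z1,[z2,z0,z1,y2]),(z1,[z1,y1,y2,z1]),(z1,[y1,z0,z0,z1])],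
    .ref k131 k6 [(z1,[z2,z1,z0,y2]),(z1,[y1,z0,z0,z1]),(z1,[z0,z0,z1])],.ref k110 k4 [(z1,[z3,y1,y3]),(z1,[z2,y1,
    y2]),(z1,[y1,z0,z0,z1])],.ref k109 k6 [(z1,[z1,z0,y1]),(z1,[y2,z1,z2]),(z1,[z0,z0,z1])],.ref k110 k4 [(z2,[z3,y2,
    y3]),(z1,[z1,y1,y1]),(z2,[y1,z0,y1,z2])],.ref k132 k6 [(z1,[z1,z0,y1]),(z1,[y2,z1,z2]),(z1,[z0,z0,z1])],
    .ref k109 k6 [(z2,[z1,z0,y1]),(z1,[y1,z1,z1]),(z1,[z0,z0,z1])],.ref k9 k7 [(z1,[z4,z6,z15,y12]),(z1,[z1]),(z1,[y2,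
    y3,y6,z6])],.ref k109 k6 [(z1,[z1,z1,z2,y2]),(z1,[y2,y1,y4,z4]),(z1,[z0,z0,z1])],.ref k110 k4 [(z1,[z3,z2,z6,y6]),
    (z1,[z2,z1,z4,y4]),(z1,[y1,y1,y3,z3])],.ref k107 k7 [(z1,[y4,y2,y3,z4]),(z1,[y1,y1,y2,z2]),(z1,[z2,z1,z2,y2])],
    .ref k108 k2 [(z1,[y2,y1,y2,z2]),(z1,[z1]),(z1,[z4,z2,z5,y4])],.ref k51 k10 [(z1,[z0,z2,z5,y4]),(z2,[y1,y3,y8,
    z8]),(z2,[z1,z1,z2,y2])],.ref k106 k10 [(z1,[z0,z2,z5,y4]),(z1,[y1,y2,y5,z5]),(z1,[z1,z1,z2,y2])],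
    .ref k107 k7 [(z1,[y2,z0,z1]),(z2,[y1,y1,y2,z2]),(z1,[z1])]],
    .base (.leafM k3 [k0,k1,k2,k3,k4,k5] [(z1,[z0,z1])] []),
    .base (.leafM k0 [k2,k3,k4,k5,k0,k1] [(z1,[y1,y1,z0,z1])] []),
    .base (.leafM k3 [k5,k0,k1,k2,k3,k4] [(z1,[z1,z0,z1])] []),
    .base (.leafM k3 [k0,k1,k2,k3,k4,k5] [(z1,[y1,z0,y1,z1])] []),
    .base (.leafM k1 [k0,k1,k2,k3,k4,k5] [(z1,[z0,z1]),(z1,[z0,y1,z0,z1])] []),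
    .base (.leafM k3 [k4,k5,k0,k1,k2,k3] [(z1,[z0,z1,z1])] []),
    .lp k0 [(nat_lit 1246),(nat_lit 1244),(nat_lit 1330),(nat_lit 1338),(nat_lit 1298),(nat_lit 1216)] [k46,k46,k47,
    k47,k4,k4,k0,k0,k20,k20,k61,k61] k0 [[k0,k52,k36,k16,k0,k0,k0,k0,k34,k0,k0,k86],[k0,k0,k0,k0,k54,k10,k0,k68,k190,
    k0,k0,k154],[k0,k16,k0,k0,k26,k0,k0,k12,k0,k34,k0,k126],[k0,k36,k20,k0,k0,k0,k0,k0,k0,k0,k0,k70],[k10,k0,k0,k0,k0,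
    k0,k14,k0,k0,k0,k56,k96],[k54,k0,k0,k26,k0,k0,k0,k0,k0,k80,k0,k0],[k68,k0,k0,k12,k0,k0,k0,k0,k122,k110,k0,k0],[k0,
    k0,k0,k0,k0,k14,k0,k0,k0,k0,k70,k82],[k0,k0,k0,k34,k80,k0,k0,k110,k0,k0,k192,k0],[k190,k34,k0,k0,k0,k0,k0,k122,k0,
    k0,k192,k0],[k154,k86,k70,k126,k0,k96,k82,k0,k0,k0,k0,k0],[k0,k0,k0,k0,k0,k56,k70,k0,k192,k192,k0,
    k0]] (nat_lit 3840) k5
    [[(k11,(nat_lit 1039)),(k8,(nat_lit 1080)),(k9,(nat_lit 1202)),(k10,(nat_lit 1231)),(k4,(nat_lit 1232)),(k1,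
    (nat_lit 1246)),(k2,(nat_lit 1315)),(k3,(nat_lit 1331)),(k6,(nat_lit 1374)),(k7,(nat_lit 1388)),(k0,
    (nat_lit 1400)),(k5,(nat_lit 1414))],[(k10,(nat_lit 1145)),(k0,(nat_lit 1194)),(k11,(nat_lit 1197)),(k2,
    (nat_lit 1229)),(k3,(nat_lit 1245)),(k5,(nat_lit 1252)),(k6,(nat_lit 1292)),(k7,(nat_lit 1302)),(k9,
    (nat_lit 1340)),(k4,(nat_lit 1342)),(k1,(nat_lit 1400)),(k8,(nat_lit 1462))],[(k11,(nat_lit 1040)),(k10,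
    (nat_lit 1076)),(k6,(nat_lit 1223)),(k7,(nat_lit 1237)),(k0,(nat_lit 1245)),(k9,(nat_lit 1271)),(k4,
    (nat_lit 1277)),(k2,(nat_lit 1280)),(k3,(nat_lit 1296)),(k5,(nat_lit 1303)),(k8,(nat_lit 1305)),(k1,
    (nat_lit 1331))],[(k10,(nat_lit 1104)),(k0,(nat_lit 1229)),(k11,(nat_lit 1230)),(k8,(nat_lit 1237)),(k2,
    (nat_lit 1264)),(k7,(nat_lit 1265)),(k9,(nat_lit 1271)),(k6,(nat_lit 1279)),(k3,(nat_lit 1280)),(k4,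
    (nat_lit 1287)),(k5,(nat_lit 1287)),(k1,(nat_lit 1315))],[(k10,(nat_lit 1203)),(k0,(nat_lit 1252)),(k2,
    (nat_lit 1287)),(k3,(nat_lit 1303)),(k11,(nat_lit 1307)),(k5,(nat_lit 1310)),(k8,(nat_lit 1314)),(k9,
    (nat_lit 1326)),(k6,(nat_lit 1334)),(k7,(nat_lit 1334)),(k4,(nat_lit 1356)),(k1,(nat_lit 1414))],[(k10,
    (nat_lit 1177)),(k1,(nat_lit 1232)),(k3,(nat_lit 1277)),(k2,(nat_lit 1287)),(k9,(nat_lit 1300)),(k8,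
    (nat_lit 1314)),(k4,(nat_lit 1330)),(k6,(nat_lit 1334)),(k7,(nat_lit 1334)),(k0,(nat_lit 1342)),(k11,
    (nat_lit 1353)),(k5,(nat_lit 1356))],[(k3,(nat_lit 1237)),(k8,(nat_lit 1238)),(k2,(nat_lit 1265)),(k11,
    (nat_lit 1277)),(k0,(nat_lit 1302)),(k9,(nat_lit 1318)),(k10,(nat_lit 1333)),(k4,(nat_lit 1334)),(k5,
    (nat_lit 1334)),(k7,(nat_lit 1338)),(k6,(nat_lit 1352)),(k1,(nat_lit 1388))],[(k11,(nat_lit 1155)),(k8,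
    (nat_lit 1208)),(k3,(nat_lit 1223)),(k2,(nat_lit 1279)),(k0,(nat_lit 1292)),(k9,(nat_lit 1318)),(k4,
    (nat_lit 1334)),(k5,(nat_lit 1334)),(k6,(nat_lit 1338)),(k10,(nat_lit 1347)),(k7,(nat_lit 1352)),(k1,
    (nat_lit 1374))],[(k10,(nat_lit 1175)),(k1,(nat_lit 1202)),(k2,(nat_lit 1271)),(k3,(nat_lit 1271)),(k9,
    (nat_lit 1298)),(k4,(nat_lit 1300)),(k6,(nat_lit 1318)),(k7,(nat_lit 1318)),(k5,(nat_lit 1326)),(k0,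
    (nat_lit 1340)),(k11,(nat_lit 1367)),(k8,(nat_lit 1420))],[(k1,(nat_lit 1080)),(k6,(nat_lit 1208)),(k2,
    (nat_lit 1237)),(k7,(nat_lit 1238)),(k11,(nat_lit 1257)),(k8,(nat_lit 1298)),(k3,(nat_lit 1305)),(k4,
    (nat_lit 1314)),(k5,(nat_lit 1314)),(k9,(nat_lit 1420)),(k10,(nat_lit 1449)),(k0,(nat_lit 1462))],[(k1,
    (nat_lit 1039)),(k3,(nat_lit 1040)),(k6,(nat_lit 1155)),(k0,(nat_lit 1197)),(k11,(nat_lit 1216)),(k2,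
    (nat_lit 1230)),(k8,(nat_lit 1257)),(k7,(nat_lit 1277)),(k5,(nat_lit 1307)),(k4,(nat_lit 1353)),(k9,
    (nat_lit 1367)),(k10,(nat_lit 1408))],[(k3,(nat_lit 1076)),(k2,(nat_lit 1104)),(k0,(nat_lit 1145)),(k9,
    (nat_lit 1175)),(k4,(nat_lit 1177)),(k5,(nat_lit 1203)),(k10,(nat_lit 1216)),(k1,(nat_lit 1231)),(k7,
    (nat_lit 1333)),(k6,(nat_lit 1347)),(k11,(nat_lit 1408)),(k8,(nat_lit 1449))]]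
    [[k2,k0,k0,k0,k1,k0],[k2,k0,k0,k0,k0,k1],[k2,k1,k0,k0,k0,k0],[k1,k1,k0,k0,k0,k1],[k1,k1,k1,k0,k0,k0],[k1,k0,k1,k0,
    k0,k1],[k1,k0,k0,k1,k0,k1],[k1,k1,k0,k0,k1,k0],[k1,k0,k1,k0,k1,k0],[k1,k0,k0,k1,k1,k0],[k1,k0,k0,k0,k1,k1],[k1,k0,
    k0,k0,k0,k2],[k0,k2,k0,k1,k0,k0],[k0,k2,k0,k0,k1,k0],[k0,k2,k0,k0,k0,k1],[k0,k1,k1,k0,k0,k1],[k0,k1,k0,k1,k1,k0],
    [k0,k1,k0,k1,k0,k1],[k0,k1,k0,k0,k1,k1],[k0,k1,k0,k0,k0,k2],[k0,k0,k1,k1,k0,k1],[k0,k0,k1,k0,k1,k1],[k0,k0,k1,k0,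
    k0,k2],[k0,k0,k0,k1,k2,k0],[k0,k0,k0,k1,k1,k1],[k0,k0,k0,k1,k0,k2]]
    [.ref k25 k0 [(z5,[z8,z7,z8,z8,z8,y8]),(z5,[y4,z4,z11,y4,y4,z4]),(z5,[z2,y2,z2,z17,z2,y2]),(z10,[y11,z11,y11,y11,
    z19,z11]),(z5,[y1,y14,y16,y16,y16,z16])],.ref k25 k0 [(z11,[z16,z1]),(z11,[y8,z16,z33]),(z11,[z4,y8,z0,z33]),(z1,
    [y1,z2,z0,z0,z3]),(z11,[y2,y29,y33,y33,y33,z33])],.ref k25 k0 [(z1,[z2,y1,y2]),(z1,[y1,z2,z4]),(z2,[z1,y2,y1,z6]),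
    (z8,[y11,z22,z11,z0,z24]),(z4,[y1,y10,y11,y12,y12,z12])],.ref k25 k0 [(z3,[z16,y7,y16]),(z3,[y8,z8,z17]),(z3,[z4,
    y4,y4,z9]),(z3,[y11,z11,z11,z0,z9]),(z3,[y2,y7,y7,y9,y9,z9])],.ref k25 k0 [(z1,[z4,y1,y4,y4]),(z1,[y2,z2,z5,z2]),
    (z1,[z1,y1,y1,z2]),(z4,[y11,z11,z11,z11,z12]),(z2,[y1,y5,y5,y5,y6,z6])],.ref k25 k0 [(z7,[z16,z5,z0,y16]),(z7,[y8,
    z8,z21,z8]),(z7,[z4,y4,z0,z17]),(z7,[y11,z11,z0,z11,z21]),(z7,[y2,y19,y21,y19,y21,z21])],.ref k25 k0 [(z1,[z8,y5,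
    z0,z0,y8]),(z1,[y4,z4,z3,z0,z4]),(z1,[z2,y2,z0,z3,y2]),(z2,[y11,z11,z0,z0,z17]),(z1,[y1,y2,y3,y3,y2,z3])],
    .ref k25 k0 [(z1,[z8,z3,z0,z8,z8,y8]),(z1,[y4,z0,z3,y4,y4,z4]),(z1,[z2,z0,z0,z5,z2,y2]),(z2,[y11,z0,z0,y11,y5,
    z11]),(z1,[y1,y3,y3,y4,y4,z4])],.ref k25 k0 [(z3,[z8,z9,z8,z0,z8,y8]),(z3,[y4,z0,z5,z0,y4,z4]),(z3,[z2,z0,z2,z9,
    z2,y2]),(z6,[y11,z0,y11,z0,z7,z11]),(z3,[y1,y9,y10,y9,y10,z10])],.ref k25 k0 [(z1,[z16,z3,z16,z16,z0,y16]),(z1,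
    [y8,z0,y5,y8,z0,z8]),(z1,[z4,z0,z4,z7,z0,y4]),(z1,[y11,z0,y11,y11,z3,z11]),(z1,[y2,y3,y5,y5,y3,z5])],
    .ref k25 k0 [(z5,[z16,z15,z16,z16,z16,y16]),(z5,[y8,z0,z7,y8,y8,z8]),(z5,[z4,z0,z4,z19,z4,y4]),(z5,[y11,z0,y11,
    y11,z4,z11]),(z5,[y2,y15,y17,y17,y17,z17])],.ref k25 k0 [(z3,[z8,z1]),(z3,[y4,z4,z9]),(z3,[z2,y2,z0,z9]),(z6,[y11,
    z11,z0,z0,z18]),(z3,[y1,y8,y9,y9,y9,z9])],.ref k25 k0 [(z9,[y16,z27,z32,z0,z16]),(z9,[z8,z0,z11,z0,y8]),(z9,[y4,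
    z0,z8,z27,z4]),(z9,[z11,z0,y22,z0,z16]),(z9,[z2,y27,y31,y27,y29,z27])],.ref k25 k0 [(z3,[y8,z1,z8,y8,y8,z8]),(z3,
    [z4,z4,z5,z4,z4,y4]),(z3,[y2,y2,z2,z7,y2,z2]),(z6,[z11,z11,y11,z11,z29,y11]),(z3,[z1,y8,y10,y8,y8,z8])],
    .ref k25 k0 [(z5,[y16,z15,z32]),(z5,[z8,z0,y1]),(z5,[y4,z0,z8,z15]),(z5,[z11,z0,y22,z0,z15]),(z5,[z2,y15,y19,y15,
    y15,z15])],.ref k25 k0 [(z1,[y16,z3,z16,z16]),(z1,[z8,z0,y5,y8]),(z1,[y4,z0,z4,z7]),(z1,[z11,z0,y11,y11,z3]),(z1,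
    [z2,y3,y5,y5,y3,z3])],.ref k25 k0 [(z7,[y16,z5,z0,y16,z0,z16]),(z7,[z8,z8,z21,z8,z0,y8]),(z7,[y4,y4,z0,z17,z0,
    z4]),(z7,[z11,z11,z0,z11,z21,y11]),(z7,[z2,y19,y21,y19,y21,z19])],.ref k25 k0 [(z3,[y8,z9,z8,z0,z8]),(z3,[z4,z0,
    z5,z0,y4]),(z3,[y2,z0,z2,z9,z2]),(z6,[z11,z0,y11,z0,z7]),(z3,[z1,y9,y10,y9,y10,z9])],.ref k25 k0 [(z3,[y16,y7,z0,
    y16,y16,z16]),(z3,[z8,z8,z9,z8,z8,y8]),(z3,[y4,y4,z0,z5,y4,z4]),(z3,[z11,z11,z0,z11,z20,y11]),(z3,[z2,y7,y9,y7,y7,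
    z7])],.ref k25 k0 [(z1,[y8,z3,z8]),(z1,[z4,z0,y1]),(z1,[y2,z0,z2,z3]),(z2,[z11,z0,y11,z0,z6]),(z1,[z1,y3,y4,y3,y3,
    z3])],.ref k25 k0 [(z1,[y8,z3,z0,z8,z8]),(z1,[z4,z0,z3,y4,y4]),(z1,[y2,z0,z0,z5,z2]),(z2,[z11,z0,z0,y11,y5]),(z1,
    [z1,y3,y3,y4,y4,z3])],.ref k25 k0 [(z1,[z16,z19,z16,z0,z16,y16]),(z1,[y8,y8,y5,z0,y8,z8]),(z1,[z4,z4,z4,z3,z4,
    y4]),(z1,[y11,y11,y11,z0,y8,z11]),(z1,[y2,y5,y5,y3,y5,z5])],.ref k25 k0 [(z1,[z8,z3,z0,y8]),(z1,[y4,z0,z3,z4]),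
    (z1,[z2,z0,z0,z1]),(z2,[y11,z0,z0,z11,z6]),(z1,[y1,y3,y3,y2,y3,z3])],.ref k25 k0 [(z5,[y16,y17,y32,y32,y16,z32]),
    (z5,[z8,z16,z31,z16,z8,y16]),(z5,[y4,y8,y8,z7,y4,z8]),(z5,[z11,z22,z22,z22,z26,y22]),(z5,[z2,y11,y11,y11,y13,
    z11])],.ref k25 k0 [(z1,[y4,y1,y4,y4,z0,z4]),(z1,[z2,z2,z5,z2,z0,y2]),(z1,[y1,y1,y1,z2,z0,z1]),(z4,[z11,z11,z11,
    z11,z12,y11]),(z2,[z1,y5,y5,y5,y6,z5])],.ref k25 k0 [(z3,[y16,z9,z0,z0,z16]),(z3,[z8,z0,z9,z0,y8]),(z3,[y4,z0,z0,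
    z9,z4]),(z3,[z11,z0,z0,z0,y2]),(z3,[z2,y9,y9,y9,y11,z9])]],
    .base (.leafM k0 [k2,k3,k4,k5,k0,k1] [(z4,[y1,y4,y1,z0,z4])] []),
    .base (.leafM k3 [k2,k3,k4,k5,k0,k1] [(z1,[z1,z0,z0,z1])] []),
    .lp k0 [(nat_lit 624),(nat_lit 624),(nat_lit 664),(nat_lit 672),(nat_lit 666),(nat_lit 586)] [k24,k24,k24,k24,k4,
    k4,k0,k0,k3,k3,k43,k43] k0 [[k0,k12,k16,k0,k0,k0,k12,k0,k0,k0,k0,k0],[k0,k0,k12,k0,k24,k0,k36,k0,k0,k0,k0,k60],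
    [k0,k0,k0,k0,k0,k12,k0,k0,k14,k6,k12,k36],[k12,k16,k20,k0,k0,k0,k0,k0,k0,k0,k0,k0],[k0,k0,k0,k12,k0,k4,k0,k0,k0,
    k0,k16,k0],[k24,k0,k0,k0,k0,k0,k0,k0,k2,k26,k0,k0],[k0,k0,k0,k0,k0,k0,k0,k24,k14,k82,k0,k0],[k36,k12,k0,k0,k0,k0,
    k0,k0,k0,k0,k0,k12],[k0,k0,k0,k6,k26,k0,k0,k82,k0,k0,k162,k0],[k0,k0,k0,k14,k2,k0,k0,k14,k0,k0,k94,k0],[k60,k0,k0,
    k36,k0,k0,k12,k0,k0,k0,k0,k0],[k0,k0,k0,k12,k0,k16,k0,k0,k94,k162,k0,k0]] (nat_lit 1920) k5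
    [[(k8,(nat_lit 483)),(k11,(nat_lit 511)),(k10,(nat_lit 605)),(k2,(nat_lit 612)),(k1,(nat_lit 624)),(k3,
    (nat_lit 624)),(k4,(nat_lit 628)),(k9,(nat_lit 645)),(k7,(nat_lit 648)),(k6,(nat_lit 660)),(k5,(nat_lit 680)),(k0,
    (nat_lit 684))],[(k10,(nat_lit 605)),(k11,(nat_lit 605)),(k0,(nat_lit 612)),(k3,(nat_lit 624)),(k5,(nat_lit 628)),
    (k9,(nat_lit 633)),(k2,(nat_lit 636)),(k8,(nat_lit 645)),(k7,(nat_lit 648)),(k4,(nat_lit 668)),(k1,(nat_lit 684)),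
    (k6,(nat_lit 684))],[(k10,(nat_lit 545)),(k11,(nat_lit 605)),(k9,(nat_lit 609)),(k0,(nat_lit 624)),(k1,
    (nat_lit 624)),(k7,(nat_lit 624)),(k5,(nat_lit 632)),(k3,(nat_lit 636)),(k2,(nat_lit 640)),(k4,(nat_lit 644)),(k8,
    (nat_lit 645)),(k6,(nat_lit 660))],[(k10,(nat_lit 569)),(k11,(nat_lit 591)),(k1,(nat_lit 612)),(k4,(nat_lit 632)),
    (k0,(nat_lit 636)),(k8,(nat_lit 639)),(k3,(nat_lit 640)),(k2,(nat_lit 644)),(k5,(nat_lit 644)),(k9,(nat_lit 645)),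
    (k6,(nat_lit 648)),(k7,(nat_lit 648))],[(k0,(nat_lit 628)),(k11,(nat_lit 631)),(k3,(nat_lit 632)),(k10,
    (nat_lit 637)),(k2,(nat_lit 644)),(k5,(nat_lit 644)),(k4,(nat_lit 664)),(k9,(nat_lit 665)),(k6,(nat_lit 668)),(k8,
    (nat_lit 679)),(k1,(nat_lit 680)),(k7,(nat_lit 680))],[(k10,(nat_lit 625)),(k1,(nat_lit 628)),(k2,(nat_lit 632)),
    (k3,(nat_lit 644)),(k11,(nat_lit 651)),(k4,(nat_lit 660)),(k5,(nat_lit 664)),(k9,(nat_lit 665)),(k8,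
    (nat_lit 667)),(k0,(nat_lit 668)),(k6,(nat_lit 668)),(k7,(nat_lit 668))],[(k3,(nat_lit 624)),(k11,(nat_lit 627)),
    (k8,(nat_lit 643)),(k10,(nat_lit 645)),(k0,(nat_lit 648)),(k1,(nat_lit 648)),(k2,(nat_lit 648)),(k4,
    (nat_lit 668)),(k9,(nat_lit 669)),(k6,(nat_lit 672)),(k7,(nat_lit 676)),(k5,(nat_lit 680))],[(k8,(nat_lit 587)),
    (k11,(nat_lit 615)),(k10,(nat_lit 629)),(k2,(nat_lit 648)),(k6,(nat_lit 648)),(k1,(nat_lit 660)),(k3,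
    (nat_lit 660)),(k4,(nat_lit 668)),(k5,(nat_lit 668)),(k9,(nat_lit 669)),(k7,(nat_lit 672)),(k0,(nat_lit 684))],
    [(k3,(nat_lit 609)),(k10,(nat_lit 614)),(k0,(nat_lit 633)),(k1,(nat_lit 645)),(k2,(nat_lit 645)),(k4,
    (nat_lit 665)),(k5,(nat_lit 665)),(k6,(nat_lit 669)),(k7,(nat_lit 669)),(k8,(nat_lit 680)),(k9,(nat_lit 690)),
    (k11,(nat_lit 708))],[(k1,(nat_lit 483)),(k6,(nat_lit 587)),(k11,(nat_lit 626)),(k2,(nat_lit 639)),(k7,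
    (nat_lit 643)),(k0,(nat_lit 645)),(k3,(nat_lit 645)),(k8,(nat_lit 666)),(k4,(nat_lit 667)),(k5,(nat_lit 679)),(k9,
    (nat_lit 680)),(k10,(nat_lit 720))],[(k1,(nat_lit 511)),(k11,(nat_lit 586)),(k2,(nat_lit 591)),(k0,(nat_lit 605)),
    (k3,(nat_lit 605)),(k6,(nat_lit 615)),(k8,(nat_lit 626)),(k7,(nat_lit 627)),(k5,(nat_lit 631)),(k4,(nat_lit 651)),
    (k9,(nat_lit 708)),(k10,(nat_lit 748))],[(k3,(nat_lit 545)),(k2,(nat_lit 569)),(k10,(nat_lit 586)),(k0,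
    (nat_lit 605)),(k1,(nat_lit 605)),(k9,(nat_lit 614)),(k4,(nat_lit 625)),(k6,(nat_lit 629)),(k5,(nat_lit 637)),(k7,
    (nat_lit 645)),(k8,(nat_lit 720)),(k11,(nat_lit 748))]]
    [[k2,k0,k0,k0,k1,k0],[k2,k0,k0,k0,k0,k1],[k2,k1,k0,k0,k0,k0],[k1,k2,k0,k0,k0,k0],[k1,k1,k1,k0,k0,k0],[k1,k1,k0,k0,
    k1,k0],[k1,k1,k0,k0,k0,k1],[k1,k0,k1,k0,k0,k1],[k1,k0,k0,k1,k0,k1],[k1,k0,k0,k1,k1,k0],[k1,k0,k1,k0,k1,k0],[k1,k0,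
    k0,k0,k2,k0],[k1,k0,k0,k0,k1,k1],[k1,k0,k0,k0,k0,k2],[k0,k2,k1,k0,k0,k0],[k0,k2,k0,k1,k0,k0],[k0,k2,k0,k0,k1,k0],
    [k0,k2,k0,k0,k0,k1],[k0,k1,k1,k0,k0,k1],[k0,k1,k0,k1,k0,k1],[k0,k1,k0,k1,k1,k0],[k0,k1,k0,k0,k1,k1],[k0,k1,k0,k0,
    k0,k2],[k0,k0,k1,k0,k1,k1],[k0,k0,k1,k0,k0,k2],[k0,k0,k0,k1,k1,k1],[k0,k0,k0,k1,k0,k2]]
    [.ref k25 k0 [(z3,[z18,y1,z6,z2,z2,y18]),(z1,[z0,z0,z1]),(z3,[y9,z1,y3,z0,y1,z9]),(z6,[z9,y1,z3,z1,z3,y9]),(z3,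
    [y27,z2,y12,y4,y4,z36])],.ref k25 k0 [(z11,[z12,z1]),(z1,[z0,z0,z1]),(z33,[y18,z4,z0,z11]),(z33,[z9,y2,z0,z0,
    z11]),(z33,[y54,z1,y33,y11,y11,z99])],.ref k25 k0 [(z2,[z3,z0,y1]),(z1,[z0,z0,z1]),(z12,[y9,z2,z3,z4]),(z24,[z9,
    y2,y3,z0,z8]),(z12,[y27,z2,y3,y4,y4,z36])],.ref k25 k0 [(z1,[z3,z0,y2]),(z1,[z0,z0,z1]),(z6,[y9,z1,z6,z2]),(z12,
    [z9,y1,y6,z0,z4]),(z6,[y27,z1,z12,y2,y2,z18])],.ref k25 k0 [(z3,[z18,y1,y6,y2]),(z1,[z0,z0,z1]),(z3,[y9,z1,z3,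
    z2]),(z6,[z9,y1,y3,y1,z2]),(z3,[y27,z2,z6,z2,y1,z9])],.ref k25 k0 [(z3,[y18,z1,z0,y2,y2,z18]),(z1,[z0,z0,z1]),(z3,
    [z9,z0,z0,z2,z1,y9]),(z6,[y9,z0,z0,y1,z1,z9]),(z3,[z27,y1,y3,z2,z2,y18])],.ref k25 k0 [(z7,[z12,z1,y4]),(z1,[z0,
    z0,z1]),(z21,[y18,z2,z6,z7]),(z21,[z9,y1,y3,z0,z7]),(z21,[y54,y1,y3,y7,y7,z63])],.ref k25 k0 [(z15,[z36,z1,z0,
    y4]),(z1,[z0,z0,z1]),(z15,[y18,z2,z0,z7]),(z15,[z9,y1,z0,y1,z5]),(z15,[y54,z1,y15,z1,y5,z45])],.ref k25 k0 [(z6,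
    [z9,z1,z0,z0,y1]),(z1,[z0,z0,z1]),(z12,[y9,z1,z0,z4,z1]),(z24,[z9,y1,z0,z0,z7]),(z12,[y27,y1,y12,y4,y1,z36])],
    .ref k25 k0 [(z3,[y36,z1,y12,y4,z0,z36]),(z1,[z0,z0,z1]),(z1,[z6,z0,z2,z1,z0,y6]),(z3,[y9,z0,y3,y1,z1,z9]),(z3,
    [z54,y1,z15,z5,y1,y45])],.ref k25 k0 [(z3,[y9,z1,y3,z0,y1,z9]),(z1,[z0,z0,z1]),(z6,[z9,z0,z3,z2,z1,y9]),(z4,[y3,
    z0,y1,z0,z1,z3]),(z6,[z27,y2,z3,y2,z1,y9])],.ref k25 k0 [(z6,[y9,z1,y6,y2,y2,z18]),(z1,[z0,z0,z1]),(z12,[z9,z1,z6,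
    z6,z2,y18]),(z24,[y9,y1,y6,y2,z6,z18]),(z12,[z27,y1,z6,z2,z2,y18])],.ref k25 k0 [(z3,[z36,z1,z12,z4,z4,y36]),(z1,
    [z0,z0,z1]),(z3,[y18,z0,y6,y1,y2,z18]),(z3,[z9,z0,z3,z1,z2,y9]),(z3,[y54,y1,y21,y7,y7,z63])],.ref k25 k0 [(z5,[z6,
    z1]),(z1,[z0,z0,z1]),(z15,[y9,z1,z0,z5]),(z30,[z9,y1,z0,z0,z10]),(z15,[y27,y2,y15,y5,y5,z45])],.ref k25 k0 [(z3,
    [y18,z1,z12,z2]),(z1,[z0,z0,z1]),(z1,[z3,z0,y2]),(z6,[y9,z0,z6,z1,z2]),(z3,[z27,y1,y21,y4,y1,z9])],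
    .ref k25 k0 [(z3,[z36,z1,y24,z0,y4]),(z1,[z0,z0,z1]),(z3,[y18,z0,z12,z1,z2]),(z1,[z3,z0,y2]),(z3,[y54,y1,z33,y1,
    z5,z9])],.ref k25 k0 [(z9,[y18,z1,z6,y2,y2,z18]),(z1,[z0,z0,z1]),(z9,[z9,z1,y3,z4,z1,y9]),(z18,[y9,y1,z3,y1,z5,
    z9]),(z1,[z3,z0,y2])],.ref k25 k0 [(z3,[z12,z1,y8]),(z1,[z0,z0,z1]),(z3,[y6,z0,z4,z1]),(z3,[z3,z0,y2,z0,z1]),(z3,
    [y18,y1,z9,y1,y1,z9])],.ref k25 k0 [(z3,[z36,z1,y12,y4]),(z1,[z0,z0,z1]),(z1,[y6,z0,z2,z1]),(z3,[z9,z0,y3,y1,z1]),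
    (z3,[y54,y1,z15,z5,y1,z9])],.ref k25 k0 [(z3,[z9,z1,y3,z0,y1]),(z1,[z0,z0,z1]),(z6,[y9,z0,z3,z2,z1]),(z4,[z3,z0,
    y1,z0,z1]),(z6,[y27,y2,z3,y2,z1,z18])],.ref k25 k0 [(z15,[y36,z1,z0,y4,z0,z36]),(z1,[z0,z0,z1]),(z15,[z18,z2,z0,
    z7,z0,y18]),(z15,[y9,y1,z0,y1,z5,z9]),(z15,[z54,z1,y15,z1,y5,y9])],.ref k25 k0 [(z9,[y36,y1,z0,y4,y4,z36]),(z1,
    [z0,z0,z1]),(z9,[z18,z2,z0,z5,z2,y18]),(z9,[y9,y1,z0,y1,z2,z9]),(z3,[z18,z1,y3,z1,z1,y9])],.ref k25 k0 [(z3,[z6,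
    z1,y2]),(z1,[z0,z0,z1]),(z3,[y3,z0,z1,z1]),(z6,[z3,z0,y1,z0,z2]),(z3,[y9,y1,z0,y1,y1,z9])],.ref k25 k0 [(z15,[y36,
    z1,y12,z0,y4,z36]),(z1,[z0,z0,z1]),(z15,[z18,z2,z6,z5,z2,y18]),(z15,[y9,y1,y3,z0,z4,z9]),(z15,[z54,z1,z3,y5,z1,
    y9])],.ref k25 k0 [(z3,[z9,z1,z0,y1]),(z1,[z0,z0,z1]),(z2,[y3,z0,z0,z1]),(z12,[z9,z0,z0,y1,z4]),(z6,[y27,y2,y6,z1,
    y2,z18])],.ref k25 k0 [(z3,[y18,y1,y6,y2,z0,z18]),(z1,[z0,z0,z1]),(z3,[z9,z1,z3,z2,z0,y9]),(z6,[y9,y1,y3,y1,z2,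
    z9]),(z3,[z27,z2,z6,z2,y1,y18])],.ref k25 k0 [(z21,[z36,z7,z0,z0,y4]),(z1,[z0,z0,z1]),(z21,[y18,z0,z0,z7,z2]),(z7,
    [z3,z0,z0,z0,z2]),(z21,[y54,y7,y21,y7,y1,z63])]]]

theorem hB6_171_11 : blkB [0, 0, 0, 0, 0, 0] [] sp6 hS6_171 (pcls (n := 6) [0, 0, 0, 0, 0, 0]) hD6_171 560 11 hN6_171_11 = true := by
  decide +kernel

/-- nodes 144 to 155 -/
noncomputable def hN6_171_12 : List HM :=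
  [.lp k0 [(nat_lit 458),(nat_lit 452),(nat_lit 506),(nat_lit 512),(nat_lit 506),(nat_lit 440)] [k24,k34,k32,k32,k5,
    k5,k2,k2,k0,k10,k38,k38] k0 [[k0,k18,k0,k0,k0,k0,k0,k0,k0,k132,k18,k0],[k0,k0,k18,k18,k18,k12,k30,k0,k0,k0,k0,k0],
    [k18,k0,k0,k6,k0,k0,k6,k0,k0,k0,k0,k18],[k18,k0,k0,k0,k0,k0,k6,k0,k0,k96,k0,k6],[k12,k0,k0,k0,k0,k0,k0,k0,k6,k36,
    k0,k12],[k18,k0,k0,k0,k24,k0,k0,k18,k0,k0,k0,k18],[k0,k0,k0,k0,k18,k0,k0,k54,k6,k36,k0,k0],[k30,k0,k6,k6,k0,k0,k0,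
    k0,k0,k0,k78,k18],[k0,k132,k96,k0,k0,k36,k0,k36,k0,k0,k114,k0],[k0,k0,k0,k0,k0,k6,k0,k6,k12,k0,k84,k0],[k0,k0,k6,
    k18,k18,k12,k18,k0,k0,k0,k0,k0],[k0,k18,k0,k0,k0,k0,k78,k0,k84,k114,k18,k0]] (nat_lit 1440) k5
    [[(k11,(nat_lit 360)),(k8,(nat_lit 368)),(k9,(nat_lit 394)),(k1,(nat_lit 430)),(k0,(nat_lit 440)),(k10,
    (nat_lit 444)),(k3,(nat_lit 450)),(k2,(nat_lit 456)),(k7,(nat_lit 492)),(k4,(nat_lit 495)),(k5,(nat_lit 495)),(k6,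
    (nat_lit 498))],[(k8,(nat_lit 360)),(k1,(nat_lit 440)),(k0,(nat_lit 450)),(k10,(nat_lit 454)),(k11,(nat_lit 454)),
    (k3,(nat_lit 460)),(k2,(nat_lit 478)),(k9,(nat_lit 482)),(k7,(nat_lit 502)),(k4,(nat_lit 505)),(k5,(nat_lit 505)),
    (k6,(nat_lit 520))],[(k2,(nat_lit 434)),(k9,(nat_lit 444)),(k1,(nat_lit 450)),(k0,(nat_lit 460)),(k5,
    (nat_lit 461)),(k7,(nat_lit 464)),(k10,(nat_lit 464)),(k4,(nat_lit 467)),(k3,(nat_lit 470)),(k6,(nat_lit 482)),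
    (k8,(nat_lit 484)),(k11,(nat_lit 578))],[(k10,(nat_lit 428)),(k3,(nat_lit 434)),(k2,(nat_lit 446)),(k1,
    (nat_lit 456)),(k9,(nat_lit 468)),(k0,(nat_lit 478)),(k4,(nat_lit 479)),(k5,(nat_lit 479)),(k7,(nat_lit 482)),(k8,
    (nat_lit 484)),(k6,(nat_lit 488)),(k11,(nat_lit 542))],[(k8,(nat_lit 415)),(k3,(nat_lit 461)),(k10,(nat_lit 467)),
    (k11,(nat_lit 473)),(k2,(nat_lit 479)),(k1,(nat_lit 495)),(k9,(nat_lit 495)),(k0,(nat_lit 505)),(k4,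
    (nat_lit 506)),(k7,(nat_lit 509)),(k5,(nat_lit 512)),(k6,(nat_lit 515))],[(k10,(nat_lit 461)),(k3,(nat_lit 467)),
    (k11,(nat_lit 467)),(k8,(nat_lit 475)),(k2,(nat_lit 479)),(k1,(nat_lit 495)),(k0,(nat_lit 505)),(k5,
    (nat_lit 506)),(k6,(nat_lit 509)),(k7,(nat_lit 509)),(k9,(nat_lit 519)),(k4,(nat_lit 530))],[(k10,(nat_lit 458)),
    (k3,(nat_lit 464)),(k2,(nat_lit 482)),(k7,(nat_lit 488)),(k1,(nat_lit 492)),(k6,(nat_lit 494)),(k0,(nat_lit 502)),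
    (k9,(nat_lit 504)),(k4,(nat_lit 509)),(k5,(nat_lit 509)),(k11,(nat_lit 512)),(k8,(nat_lit 520))],[(k6,
    (nat_lit 458)),(k11,(nat_lit 470)),(k8,(nat_lit 478)),(k3,(nat_lit 482)),(k2,(nat_lit 488)),(k7,(nat_lit 494)),
    (k1,(nat_lit 498)),(k9,(nat_lit 504)),(k4,(nat_lit 509)),(k5,(nat_lit 515)),(k0,(nat_lit 520)),(k10,
    (nat_lit 554))],[(k1,(nat_lit 394)),(k3,(nat_lit 444)),(k10,(nat_lit 450)),(k2,(nat_lit 468)),(k0,(nat_lit 482)),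
    (k5,(nat_lit 495)),(k6,(nat_lit 504)),(k7,(nat_lit 504)),(k11,(nat_lit 504)),(k8,(nat_lit 512)),(k4,
    (nat_lit 519)),(k9,(nat_lit 550))],[(k0,(nat_lit 360)),(k1,(nat_lit 368)),(k5,(nat_lit 415)),(k4,(nat_lit 475)),
    (k6,(nat_lit 478)),(k11,(nat_lit 478)),(k2,(nat_lit 484)),(k3,(nat_lit 484)),(k9,(nat_lit 512)),(k7,
    (nat_lit 520)),(k8,(nat_lit 528)),(k10,(nat_lit 562))],[(k1,(nat_lit 360)),(k11,(nat_lit 428)),(k0,(nat_lit 454)),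
    (k4,(nat_lit 467)),(k6,(nat_lit 470)),(k5,(nat_lit 473)),(k8,(nat_lit 478)),(k9,(nat_lit 504)),(k7,(nat_lit 512)),
    (k2,(nat_lit 542)),(k10,(nat_lit 554)),(k3,(nat_lit 578))],[(k2,(nat_lit 428)),(k1,(nat_lit 444)),(k9,
    (nat_lit 450)),(k0,(nat_lit 454)),(k7,(nat_lit 458)),(k10,(nat_lit 458)),(k4,(nat_lit 461)),(k3,(nat_lit 464)),
    (k5,(nat_lit 467)),(k6,(nat_lit 554)),(k11,(nat_lit 554)),(k8,(nat_lit 562))]]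
    [[k3,k0,k0,k0,k0,k0],[k2,k1,k0,k0,k0,k0],[k2,k0,k0,k0,k1,k0],[k2,k0,k0,k0,k0,k1],[k1,k2,k0,k0,k0,k0],[k1,k1,k1,k0,
    k0,k0],[k1,k1,k0,k0,k1,k0],[k1,k1,k0,k0,k0,k1],[k1,k0,k1,k0,k1,k0],[k1,k0,k1,k0,k0,k1],[k1,k0,k0,k1,k1,k0],[k1,k0,
    k0,k1,k0,k1],[k1,k0,k0,k0,k2,k0],[k1,k0,k0,k0,k1,k1],[k1,k0,k0,k0,k0,k2],[k0,k3,k0,k0,k0,k0],[k0,k2,k1,k0,k0,k0],
    [k0,k2,k0,k1,k0,k0],[k0,k2,k0,k0,k1,k0],[k0,k1,k1,k0,k1,k0],[k0,k1,k1,k0,k0,k1],[k0,k1,k0,k1,k0,k1],[k0,k1,k0,k2,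
    k0,k0],[k0,k1,k0,k1,k1,k0],[k0,k1,k0,k0,k1,k1],[k0,k1,k0,k0,k0,k2],[k0,k0,k1,k1,k1,k0],[k0,k0,k1,k0,k1,k1],[k0,k0,
    k1,k0,k0,k2],[k0,k0,k0,k2,k0,k1]]
    [.ref k25 k0 [(z1,[z1]),(z4,[y1,z1,z6]),(z2,[y1,z1,z0,z2]),(z4,[z1,y1,z0,z0,z2]),(z2,[y2,z0,y3,y2,y1,z6])],
    .ref k25 k0 [(z7,[z12,y1,y6]),(z7,[y3,z2,z12]),(z7,[y6,z4,z3,z7]),(z14,[z6,y4,y3,z0,z7]),(z14,[y24,z2,y9,y14,y7,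
    z42])],.ref k25 k0 [(z2,[z6,z0,z3,z2,z1,y6]),(z8,[y6,z2,z9,y2,y1,z6]),(z4,[y6,z2,y3,z2,y1,z6]),(z8,[z6,y2,z3,z2,
    z5,y6]),(z1,[y3,z0,y3,y2,y1,z6])],.ref k25 k0 [(z5,[z6,z1]),(z10,[y3,z2,z15]),(z5,[y3,z2,z0,z5]),(z10,[z3,y2,z0,
    z0,z5]),(z10,[y12,y2,y15,y10,y5,z30])],.ref k25 k0 [(z1,[z6,y1,y6]),(z2,[y3,z1,z6]),(z1,[y3,z1,z3,z1]),(z2,[z3,y1,
    y3,z0,z1]),(z2,[y12,z2,z9,y2,y1,z6])],.ref k25 k0 [(z1,[z12,y3,y6,y4]),(z1,[y3,z1,z3,z1]),(z1,[y6,z2,z3,z3]),(z2,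
    [z6,y2,y3,y2,z1]),(z2,[y24,z6,z9,z6,y1,z6])],.ref k25 k0 [(z1,[y12,z1,z0,y4,y2,z12]),(z2,[z6,z0,z3,z2,z1,y6]),(z1,
    [z6,z0,z0,z3,z1,y6]),(z1,[y3,z0,z0,y1,z0,z3]),(z2,[z24,y2,y3,z6,z3,y18])],.ref k25 k0 [(z5,[z12,z1,y6]),(z5,[y3,
    z1,z9]),(z5,[y6,z2,z3,z5]),(z10,[z6,y2,y3,z0,z5]),(z10,[y24,y2,y3,y10,y5,z30])],.ref k25 k0 [(z1,[y6,z1,y3,z0,y1,
    z6]),(z4,[z6,z0,z9,z0,z1,y6]),(z2,[z6,z0,z3,z2,z1,y6]),(z4,[y6,z0,y3,z0,z1,z6]),(z2,[z12,y2,z3,y2,z1,y6])],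
    .ref k25 k0 [(z1,[z3,z0,z0,y1]),(z4,[y3,z1,z6,z1]),(z2,[y3,z1,z0,z3]),(z4,[z3,y1,z0,y1,z2]),(z2,[y6,z0,y3,z0,y1,
    z6])],.ref k25 k0 [(z1,[z12,z1,z6,z4,z0,y12]),(z1,[y3,z0,z0,y1,z0,z3]),(z1,[y6,z0,y3,y1,z0,z6]),(z2,[z6,z0,z3,z2,
    z1,y6]),(z2,[y24,y2,y15,y10,y1,z30])],.ref k25 k0 [(z7,[z12,z3,z0,z0,y2]),(z14,[y6,z2,z21,z0,z1]),(z7,[y6,z2,z0,
    z7,z1]),(z7,[z3,y1,z0,z0,z3]),(z14,[y24,y6,y21,y14,y3,z42])],.ref k25 k0 [(z1,[y3,z0,y3,y2,y1,z6]),(z4,[z3,z1,z9,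
    z2,z1,y6]),(z2,[z3,z1,z3,z4,z1,y6]),(z4,[y3,y1,y3,y2,z1,z6]),(z2,[z6,z0,z3,z2,z1,y6])],.ref k25 k0 [(z1,[z6,z1,z3,
    z2,z1,y6]),(z4,[y6,z0,z3,y2,y1,z6]),(z2,[y6,z0,y3,z0,y1,z6]),(z4,[z6,z0,z3,z2,z3,y6]),(z2,[y12,y2,y9,y6,y3,z18])],
    .ref k25 k0 [(z2,[z3,z1]),(z8,[y3,z1,z12]),(z4,[y3,z1,z0,z4]),(z8,[z3,y1,z0,z0,z4]),(z2,[y3,y1,y3,y2,y1,z6])],
    .ref k25 k0 [(z1,[y4,z1,z6]),(z1,[z1]),(z1,[z2,z0,y3,z1]),(z2,[y2,z0,z3,z0,z1]),(z2,[z8,y2,y15,y2,y1,z6])],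
    .ref k25 k0 [(z1,[y3,z1,z3,z1]),(z4,[z3,z0,z3,y1]),(z2,[z3,z0,y3,z1]),(z4,[y3,z0,z3,z1,z2]),(z2,[z6,y2,y9,y4,y1,
    z6])],.ref k25 k0 [(z1,[y12,z1,z12,z0,z2]),(z2,[z6,z0,y3,z0,y1]),(z1,[z6,z0,y6,z1,y1]),(z1,[y3,z0,z3,z0,z1]),(z2,
    [z24,y2,y27,y2,y5,z6])],.ref k25 k0 [(z3,[y6,z1,z3,y2,y1,z6]),(z12,[z6,z2,z15,z2,z1,y6]),(z6,[z6,z2,y3,z8,z1,y6]),
    (z12,[y6,y2,z3,y2,z5,z6]),(z6,[z12,y2,y15,y2,y1,z6])],.ref k25 k0 [(z7,[y12,z3,z0,z0,y2,z12]),(z14,[z6,z2,z21,z0,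
    z1,y6]),(z7,[z6,z2,z0,z7,z1,y6]),(z7,[y3,y1,z0,z0,z3,z3]),(z14,[z24,y6,y21,y14,y3,z18])],.ref k25 k0 [(z1,[y12,z1,
    z6,z4]),(z1,[z3,z0,z0,y1]),(z1,[z6,z0,y3,y1]),(z2,[y6,z0,z3,z2,z1]),(z2,[z24,y2,y15,y10,y1,z6])],.ref k25 k0 [(z1,
    [z6,z1,y3,z0,y1]),(z4,[y6,z0,z9,z0,z1]),(z2,[y6,z0,z3,z2,z1]),(z4,[z6,z0,y3,z0,z1]),(z2,[y12,y2,z3,y2,z1,z6])],
    .ref k25 k0 [(z1,[z12,z1,y6,z0,y4]),(z1,[y3,z0,z3,z0,z1]),(z1,[y6,z0,z3,z1,z2]),(z2,[z6,z0,y3,z0,y1]),(z2,[y24,y2,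
    z9,y2,z7,z6])],.ref k25 k0 [(z1,[y3,z0,z0,y1,z0,z3]),(z4,[z3,z1,z6,z1,z0,y3]),(z2,[z3,z1,z0,z3,z0,y3]),(z4,[y3,y1,
    z0,y1,z2,z3]),(z2,[z6,z0,y3,z0,y1])],.ref k25 k0 [(z3,[y12,y1,z0,y4,y2,z12]),(z6,[z6,z2,z9,z2,z1,y6]),(z3,[z6,z2,
    z0,z5,z1,y6]),(z3,[y3,y1,z0,y1,z1,z3]),(z6,[z24,z2,y9,z2,z1,y6])],.ref k25 k0 [(z1,[z4,z1,y2]),(z1,[y1,z0,z2]),
    (z1,[y2,z0,z1,z1]),(z2,[z2,z0,y1,z0,z1]),(z2,[y8,y2,z1,y2,y1,z6])],.ref k25 k0 [(z5,[y12,z1,y6,z0,z0,z12]),(z5,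
    [z3,z1,z9,z0,z0,y3]),(z5,[z6,z2,z3,z5,z0,y6]),(z10,[y6,y2,y3,z0,z5,z6]),(z10,[z24,y2,y3,y10,y5,z6])],
    .ref k25 k0 [(z2,[y6,z0,y3,z0,y1,z6]),(z8,[z6,z2,z15,z0,z1,y6]),(z4,[z6,z2,z3,z4,z1,y6]),(z8,[y6,y2,y3,z0,z3,z6]),
    (z1,[z3,z0,z0,y1])],.ref k25 k0 [(z1,[z6,z1,z0,y2]),(z2,[y3,z0,z3,z1]),(z1,[y3,z0,z0,z2]),(z2,[z3,z0,z0,y1,z1]),
    (z2,[y12,y2,y3,z2,y1,z6])],.ref k25 k0 [(z1,[z3,z1,z0,z0,y1]),(z4,[y3,z0,z6,z0,z1]),(z2,[y3,z0,z0,z2,z1]),(z4,[z3,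
    z0,z0,z0,z1]),(z2,[y6,y2,y3,y2,z1,z6])]],
    .lp k0 [k158,k150,k168,k168,k168,k144] [k5,k5,k9,k9,k0,k0,k0,k0,k0,k0,k12,k12] k0 [[k0,k0,k0,k0,k2,k8,k10,k0,k0,
    k0,k0,k0],[k20,k0,k0,k0,k0,k0,k0,k0,k0,k0,k0,k20],[k0,k0,k0,k0,k0,k0,k0,k0,k0,k2,k4,k0],[k0,k0,k0,k0,k0,k4,k6,k0,
    k0,k0,k0,k0],[k0,k8,k4,k0,k0,k0,k0,k0,k0,k0,k0,k0],[k0,k2,k0,k0,k0,k0,k0,k0,k0,k0,k2,k0],[k0,k0,k0,k0,k0,k0,k0,k0,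
    k0,k0,k0,k0],[k0,k10,k6,k0,k0,k0,k0,k0,k0,k0,k0,k0],[k0,k0,k0,k2,k0,k0,k0,k0,k0,k0,k0,k0],[k0,k0,k0,k0,k0,k0,k0,
    k0,k0,k0,k0,k0],[k20,k0,k0,k0,k0,k0,k0,k0,k0,k0,k0,k20],[k0,k0,k0,k4,k2,k0,k0,k0,k0,k0,k0,k0]] (nat_lit 480) k5
    [[(k2,k150),(k10,k151),(k11,k151),(k3,k154),(k7,k161),(k4,k163),(k5,k163),(k6,k163),(k8,k163),(k9,k163),(k0,k178),
    (k1,k178)],[(k10,k151),(k11,k151),(k9,k153),(k2,k154),(k3,k154),(k4,k155),(k7,k161),(k5,k163),(k6,k163),(k8,k163),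
    (k0,k178),(k1,k178)],[(k10,k127),(k3,k130),(k11,k147),(k2,k150),(k0,k154),(k1,k154),(k5,k159),(k8,k159),(k9,k159),
    (k4,k161),(k7,k167),(k6,k169)],[(k10,k147),(k11,k147),(k1,k150),(k2,k150),(k3,k150),(k0,k154),(k8,k157),(k4,k159),
    (k5,k159),(k9,k159),(k7,k163),(k6,k165)],[(k11,k158),(k2,k159),(k3,k159),(k10,k160),(k9,k162),(k0,k163),(k1,k163),
    (k4,k164),(k5,k168),(k6,k168),(k7,k168),(k8,k168)],[(k0,k155),(k11,k156),(k10,k158),(k2,k159),(k3,k161),(k1,k163),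
    (k5,k164),(k4,k168),(k6,k168),(k7,k168),(k8,k168),(k9,k168)],[(k10,k156),(k11,k156),(k0,k161),(k1,k161),(k2,k163),
    (k3,k167),(k4,k168),(k5,k168),(k6,k168),(k7,k168),(k8,k168),(k9,k168)],[(k10,k156),(k11,k156),(k0,k163),(k1,k163),
    (k2,k165),(k4,k168),(k5,k168),(k6,k168),(k7,k168),(k8,k168),(k9,k168),(k3,k169)],[(k0,k153),(k10,k156),(k11,k156),
    (k2,k159),(k3,k159),(k5,k162),(k1,k163),(k4,k168),(k6,k168),(k7,k168),(k8,k168),(k9,k168)],[(k10,k156),(k11,k156),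
    (k2,k157),(k3,k159),(k0,k163),(k1,k163),(k4,k168),(k5,k168),(k6,k168),(k7,k168),(k8,k168),(k9,k168)],[(k10,k144),
    (k11,k144),(k2,k147),(k3,k147),(k0,k151),(k1,k151),(k4,k156),(k6,k156),(k7,k156),(k8,k156),(k9,k156),(k5,k158)],
    [(k10,k124),(k3,k127),(k11,k144),(k2,k147),(k0,k151),(k1,k151),(k6,k156),(k7,k156),(k8,k156),(k9,k156),(k4,k158),
    (k5,k160)]]
    [[k1,k2,k0,k0,k0,k0],[k1,k1,k1,k0,k0,k0],[k1,k1,k0,k0,k1,k0],[k1,k1,k0,k0,k0,k1],[k1,k0,k1,k0,k0,k1],[k1,k0,k0,k1,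
    k0,k1],[k1,k0,k0,k0,k1,k1],[k1,k0,k0,k0,k0,k2],[k0,k3,k0,k0,k0,k0],[k0,k2,k1,k0,k0,k0],[k0,k2,k0,k0,k1,k0],[k0,k2,
    k0,k0,k0,k1],[k0,k2,k0,k1,k0,k0],[k0,k1,k1,k0,k0,k1],[k0,k1,k0,k1,k0,k1],[k0,k1,k0,k0,k1,k1],[k0,k1,k0,k0,k0,k2],
    [k0,k0,k1,k0,k1,k1],[k0,k0,k1,k0,k0,k2],[k0,k0,k0,k1,k0,k2],[k0,k0,k0,k0,k1,k2],[k0,k0,k0,k0,k0,k3]]
    [.ref k25 k0 [(z1,[y1,z1,z1]),(z2,[z4,y1,y1]),(z28,[y4,z1,z4,z21]),(z14,[z4,y1,y4,z0,z21]),(z28,[y16,y17,y26,y21,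
    y42,z84])],.ref k25 k0 [(z8,[y28,z13,z14,z7]),(z4,[z28,y7,y8,y7]),(z8,[y4,z1,z2,z7]),(z4,[z4,y1,y2,y1,z6]),(z4,
    [y8,y1,y2,y1,y6,z12])],.ref k25 k0 [(z4,[y28,z3,z0,y7,y14,z28]),(z2,[z28,z0,z3,z7,z14,y28]),(z2,[y2,z0,z0,z1,y1,
    z2]),(z2,[z4,z0,z0,z1,z5,y4]),(z4,[y16,y3,y6,y7,y14,z28])],.ref k25 k0 [(z2,[y14,z5,z7]),(z2,[z28,y7,y11]),(z4,
    [y4,z1,z2,z3]),(z2,[z4,y1,y2,z0,z3]),(z4,[y16,z1,z2,y3,y6,z12])],.ref k25 k0 [(z16,[z28,z5,z0,y7]),(z8,[y28,z7,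
    z12,z7]),(z16,[z4,y1,z0,z11]),(z8,[y4,z1,z0,z1,z12]),(z2,[z2,y2,y3,y2,y3,z6])],.ref k25 k0 [(z6,[z14,z1,z0,z0,
    y7]),(z6,[y28,z7,z9,z0,z14]),(z12,[z4,y1,z0,z9,y2]),(z6,[y4,z1,z0,z0,z11]),(z12,[z16,y13,y18,y9,y26,z36])],
    .ref k25 k0 [(z20,[z28,z15,z14,z7,z14,y28]),(z10,[y28,z0,z1,y7,y14,z28]),(z10,[z2,z0,z1,z8,z1,y2]),(z10,[y4,z0,y2,
    y1,z13,z4]),(z20,[z16,y15,y22,y11,y22,z44])],.ref k25 k0 [(z5,[z7,z2]),(z10,[y28,z7,z15]),(z20,[z4,y1,z0,z15]),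
    (z10,[y4,z1,z0,z0,z15]),(z20,[z16,y19,y30,y15,y30,z60])],.ref k25 k0 [(z4,[y2,z3,z3]),(z1,[z1]),(z28,[y2,z0,z3,
    z21]),(z14,[z2,z0,y3,z0,z21]),(z28,[y8,y21,y30,y21,y42,z84])],.ref k25 k0 [(z36,[y28,z27,z28,z7]),(z18,[z28,z0,y1,
    y7]),(z9,[y1,z0,z1,z7]),(z18,[z4,z0,y4,y1,z27]),(z36,[y16,y27,y38,y23,y54,(Int.ofNat (nat_lit 108))])],
    .ref k25 k0 [(z32,[y28,z17,z14,y7,y14,z28]),(z16,[z28,z7,z10,z7,z14,y28]),(z32,[y4,y1,z2,z23,y2,z4]),(z16,[z4,z1,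
    y2,z1,z26,y4]),(z8,[y4,y7,y10,y7,y14,z28])],.ref k25 k0 [(z8,[y7,z6,z7]),(z4,[z7,z0,y1]),(z8,[y1,z0,z1,z6]),(z4,
    [z1,z0,y1,z0,z6]),(z4,[y2,y3,y4,y3,y6,z12])],.ref k25 k0 [(z20,[y14,z15,z14,z0,z7]),(z10,[z14,z0,z1,z0,y7]),(z20,
    [y2,z0,z2,z15,z1]),(z5,[z1,z0,y1,z0,z7]),(z20,[y8,y15,y22,y15,y26,z60])],.ref k25 k0 [(z12,[y28,z9,z14,z7]),(z6,
    [z28,z0,y5,y7]),(z6,[y2,z0,z1,z5]),(z6,[z4,z0,y2,y1,z9]),(z12,[y16,y9,y10,y5,y18,z36])],.ref k25 k0 [(z8,[y14,z6,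
    z7,z0,z7]),(z4,[z14,z0,y1,z0,y7]),(z8,[y2,z0,z1,z6,z1]),(z4,[z2,z0,y1,z0,z5]),(z4,[y4,y3,y4,y3,y4,z12])],
    .ref k25 k0 [(z8,[y28,y1,z0,y7,y14,z28]),(z4,[z28,z7,z6,z7,z14,y28]),(z8,[y4,y1,z0,z5,y2,z4]),(z4,[z4,z1,z0,z1,z8,
    y4]),(z4,[y8,y5,y6,y5,y10,z20])],.ref k25 k0 [(z4,[y14,z3,z7]),(z1,[z7,z0,y2]),(z4,[y2,z0,z1,z3]),(z2,[z2,z0,y1,
    z0,z3]),(z4,[y8,y3,y2,y3,y6,z12])],.ref k25 k0 [(z6,[z14,z8,z7,z0,z7,y14]),(z6,[y28,y7,y5,z0,y14,z28]),(z12,[z4,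
    z1,z2,z9,z2,y4]),(z6,[y4,y1,y2,z0,z7,z4]),(z12,[z16,y5,y10,y9,y10,z20])],.ref k25 k0 [(z12,[z28,z9,z0,y7]),(z6,
    [y28,z0,z9,z7]),(z3,[z1,z0,z0,z2]),(z6,[y4,z0,z0,z1,z9]),(z12,[z16,y9,y18,y13,y18,z36])],.ref k25 k0 [(z4,[z14,z3,
    z0,z0,y7]),(z2,[y14,z0,z3,z0,z7]),(z4,[z2,z0,z0,z3,y1]),(z1,[y1,z0,z0,z0,z2]),(z4,[z8,y3,y6,y3,y10,z12])],
    .ref k25 k0 [(z16,[z28,z19,z14,z7,z14,y28]),(z8,[y28,y7,y2,y7,y14,z28]),(z16,[z4,z1,z2,z13,z2,y4]),(z8,[y4,y1,y2,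
    y1,z10,z4]),(z2,[z2,y1,y2,y1,y2,z4])],.ref k25 k0 [(z4,[z7,z3]),(z2,[y7,z0,z3]),(z4,[z1,z0,z0,z3]),(z2,[y1,z0,z0,
    z0,z3]),(z4,[z4,y3,y6,y3,y6,z12])]],
    .lp k0 [(nat_lit 476),(nat_lit 442),(nat_lit 482),(nat_lit 522),(nat_lit 508),(nat_lit 444)] [k23,k23,k40,k40,k20,
    k20,k0,k0,k7,k7,k39,k39] k0 [[k0,k0,k0,k0,k0,k0,k0,k8,k8,k0,k0,k6],[k28,k0,k0,k32,k0,k0,k0,k0,k6,k0,k0,k28],[k32,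
    k0,k0,k0,k0,k0,k0,k0,k0,k0,k0,k2],[k0,k0,k0,k0,k2,k2,k0,k8,k8,k0,k0,k8],[k0,k0,k2,k0,k0,k0,k0,k0,k0,k0,k0,k0],[k0,
    k0,k2,k0,k0,k0,k0,k0,k0,k0,k0,k0],[k0,k8,k8,k0,k0,k0,k0,k0,k0,k18,k0,k0],[k0,k0,k0,k0,k0,k0,k0,k0,k0,k4,k0,k0],
    [k0,k0,k0,k0,k0,k0,k4,k18,k0,k34,k48,k0],[k6,k8,k8,k0,k0,k0,k0,k0,k0,k0,k10,k0],[k28,k6,k8,k2,k0,k0,k0,k0,k0,k0,
    k0,k0],[k0,k0,k0,k0,k0,k0,k0,k0,k10,k48,k26,k0]] (nat_lit 1440) k5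
    [[(k8,(nat_lit 444)),(k1,(nat_lit 450)),(k11,(nat_lit 450)),(k10,(nat_lit 460)),(k3,(nat_lit 465)),(k2,
    (nat_lit 467)),(k4,(nat_lit 479)),(k5,(nat_lit 481)),(k9,(nat_lit 492)),(k6,(nat_lit 499)),(k7,(nat_lit 499)),(k0,
    (nat_lit 504))],[(k11,(nat_lit 452)),(k10,(nat_lit 454)),(k2,(nat_lit 459)),(k3,(nat_lit 459)),(k4,(nat_lit 479)),
    (k6,(nat_lit 491)),(k9,(nat_lit 492)),(k8,(nat_lit 498)),(k7,(nat_lit 499)),(k0,(nat_lit 504)),(k1,(nat_lit 504)),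
    (k5,(nat_lit 511))],[(k2,(nat_lit 410)),(k3,(nat_lit 414)),(k10,(nat_lit 415)),(k11,(nat_lit 437)),(k0,
    (nat_lit 459)),(k4,(nat_lit 462)),(k5,(nat_lit 462)),(k1,(nat_lit 465)),(k6,(nat_lit 482)),(k7,(nat_lit 482)),(k8,
    (nat_lit 483)),(k9,(nat_lit 483))],[(k3,(nat_lit 410)),(k10,(nat_lit 441)),(k2,(nat_lit 442)),(k11,(nat_lit 443)),
    (k0,(nat_lit 459)),(k5,(nat_lit 462)),(k4,(nat_lit 464)),(k1,(nat_lit 467)),(k6,(nat_lit 482)),(k8,(nat_lit 483)),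
    (k9,(nat_lit 483)),(k7,(nat_lit 484))],[(k10,(nat_lit 455)),(k11,(nat_lit 455)),(k2,(nat_lit 462)),(k3,
    (nat_lit 462)),(k4,(nat_lit 480)),(k1,(nat_lit 481)),(k5,(nat_lit 482)),(k6,(nat_lit 494)),(k8,(nat_lit 495)),(k9,
    (nat_lit 495)),(k7,(nat_lit 500)),(k0,(nat_lit 511))],[(k3,(nat_lit 462)),(k10,(nat_lit 463)),(k11,(nat_lit 463)),
    (k2,(nat_lit 464)),(k0,(nat_lit 479)),(k1,(nat_lit 479)),(k5,(nat_lit 480)),(k4,(nat_lit 482)),(k8,(nat_lit 495)),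
    (k9,(nat_lit 495)),(k6,(nat_lit 502)),(k7,(nat_lit 502))],[(k3,(nat_lit 482)),(k10,(nat_lit 483)),(k11,
    (nat_lit 483)),(k2,(nat_lit 484)),(k0,(nat_lit 499)),(k1,(nat_lit 499)),(k5,(nat_lit 500)),(k4,(nat_lit 502)),(k8,
    (nat_lit 515)),(k9,(nat_lit 515)),(k6,(nat_lit 522)),(k7,(nat_lit 522))],[(k2,(nat_lit 482)),(k3,(nat_lit 482)),
    (k10,(nat_lit 483)),(k11,(nat_lit 487)),(k0,(nat_lit 491)),(k5,(nat_lit 494)),(k8,(nat_lit 497)),(k1,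
    (nat_lit 499)),(k4,(nat_lit 502)),(k9,(nat_lit 515)),(k6,(nat_lit 522)),(k7,(nat_lit 522))],[(k10,(nat_lit 476)),
    (k2,(nat_lit 483)),(k3,(nat_lit 483)),(k0,(nat_lit 492)),(k1,(nat_lit 492)),(k11,(nat_lit 494)),(k4,
    (nat_lit 495)),(k5,(nat_lit 495)),(k8,(nat_lit 504)),(k9,(nat_lit 508)),(k6,(nat_lit 515)),(k7,(nat_lit 515))],
    [(k1,(nat_lit 444)),(k8,(nat_lit 474)),(k11,(nat_lit 476)),(k2,(nat_lit 483)),(k3,(nat_lit 483)),(k10,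
    (nat_lit 486)),(k4,(nat_lit 495)),(k5,(nat_lit 495)),(k6,(nat_lit 497)),(k0,(nat_lit 498)),(k9,(nat_lit 504)),(k7,
    (nat_lit 515))],[(k3,(nat_lit 437)),(k2,(nat_lit 443)),(k1,(nat_lit 450)),(k0,(nat_lit 452)),(k5,(nat_lit 455)),
    (k4,(nat_lit 463)),(k8,(nat_lit 476)),(k11,(nat_lit 478)),(k7,(nat_lit 483)),(k6,(nat_lit 487)),(k10,
    (nat_lit 492)),(k9,(nat_lit 494))],[(k3,(nat_lit 415)),(k2,(nat_lit 441)),(k0,(nat_lit 454)),(k5,(nat_lit 455)),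
    (k1,(nat_lit 460)),(k4,(nat_lit 463)),(k10,(nat_lit 470)),(k9,(nat_lit 476)),(k6,(nat_lit 483)),(k7,
    (nat_lit 483)),(k8,(nat_lit 486)),(k11,(nat_lit 492))]]
    [[k2,k1,k0,k0,k0,k0],[k2,k0,k0,k0,k0,k1],[k1,k2,k0,k0,k0,k0],[k1,k1,k1,k0,k0,k0],[k1,k1,k0,k0,k0,k1],[k1,k0,k1,k0,
    k0,k1],[k1,k0,k0,k1,k0,k1],[k1,k1,k0,k0,k1,k0],[k1,k0,k1,k0,k1,k0],[k1,k0,k0,k0,k1,k1],[k1,k0,k0,k0,k0,k2],[k0,k3,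
    k0,k0,k0,k0],[k0,k2,k1,k0,k0,k0],[k0,k2,k0,k1,k0,k0],[k0,k2,k0,k0,k1,k0],[k0,k2,k0,k0,k0,k1],[k0,k1,k2,k0,k0,k0],
    [k0,k1,k1,k0,k0,k1],[k0,k1,k0,k1,k0,k1],[k0,k1,k0,k0,k1,k1],[k0,k1,k0,k0,k0,k2],[k0,k0,k2,k0,k0,k1],[k0,k0,k1,k0,
    k1,k1],[k0,k0,k1,k0,k0,k2]]
    [.ref k139 k5 [(z1,[y2,z3,z1,y1,z1]),(z1,[z1,y2,y1]),(z1,[z0,z1]),(z1,[z1,y2])],.ref k140 k5 [(z1,[y2,z3,y1,y1,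
    z1]),(z1,[z1,y2]),(z1,[z0,z1]),(z1,[z1,y2,z1])],.ref k64 k0 [(z1,[y2,z3,z4]),(z2,[z3,y3,y4]),(z1,[z1,y1,y2,z1]),
    (z2,[y1,z1,z2])],.ref k64 k0 [(z1,[y4,z5,z4,z4]),(z1,[z3,y3,y2,y3]),(z1,[z2,y2,y2,y1]),(z1,[y1,z1,z1,z1])],
    .ref k141 k10 [(z1,[z2,y2,z2,y7]),(z1,[z0,z1,z0,z2]),(z1,[z2,y2,y2,y1]),(z1,[y2,z0,z0,y1,z2])],.ref k142 k5 [(z1,
    [y2,z1,y1,z1,z1]),(z1,[z1,y1,z0,y1]),(z1,[z0,z1]),(z1,[z1,y1,z1,y1])],.ref k139 k5 [(z1,[y2,z1,y1,y1,z1]),(z1,[z1,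
    y1]),(z1,[z0,z1]),(z1,[z1,y1,z1])],.ref k64 k0 [(z1,[z4,z1,z0,z4,y4]),(z1,[y3,z0,z1,y3,z3]),(z1,[y2,z0,z0,y1,z2]),
    (z1,[z1,z0,z0,z1,y1])],.ref k64 k0 [(z1,[z2,z1,z2,z0,y2]),(z2,[y3,z0,y1,z0,z3]),(z1,[y1,z0,y1,z1,z1]),(z2,[z1,z0,
    z1,z0,y1])],.ref k76 k11 [(z1,[z4,z1,z0,z4,y4]),(z1,[z3,z0,y1,z3,y3]),(z1,[y6,y1,z1,y7,z7]),(z1,[z1,z0,z0,z1,
    y1])],.ref k142 k5 [(z1,[y1,z0,y1,y1,z1]),(z2,[z1,y1]),(z1,[z0,z1]),(z2,[z1,y1,z2])],.ref k143 k0 [(z1,[y4,z9,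
    z12]),(z1,[z1]),(z1,[z2,z0,y6,z9]),(z1,[y1,z0,z3])],.ref k76 k11 [(z1,[y2,z1,z0,z2]),(z2,[y3,z0,y2,z3]),(z1,[z3,
    y1,z1,y4,z1]),(z2,[y1,z0,z0,z1])],.ref k57 k8 [(z1,[y2,z0,z0,z1]),(z1,[z1]),(z1,[y6,y1,z1,y1,z1]),(z1,[z3,z0,
    y1])],.ref k68 k7 [(z2,[z1,z1,z1,z1,y1]),(z1,[z1,z1,y1,z4,y1]),(z2,[y1,y1,z1,y1,z1]),(z1,[z0,y1,y1,y1,z1])],
    .ref k144 k0 [(z1,[y2,z3,z4]),(z1,[z1]),(z1,[z1,z0,y2,z3]),(z1,[y1,z0,z2])],.ref k145 k9 [(z1,[z4,y7,y4,y8]),(z1,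
    [y4,z5,z2,z6,z2]),(z1,[z0,y1]),(z1,[z0,z1,z0,z2])],.ref k57 k8 [(z1,[y2,z0,y2,z3]),(z1,[z1,z0,z1,y1]),(z1,[y6,y1,
    y5,z5,z1]),(z1,[z3,z0,z2,y3])],.ref k64 k0 [(z1,[y2,z1,z2]),(z2,[z3,z0,y1]),(z1,[z1,z0,y1,z1]),(z2,[y1,z0,z1])],
    .ref k68 k7 [(z1,[z1,z1,z1,z1,y1]),(z1,[z2,z2,z0,z5,y2]),(z1,[y1,y1,z0,y1,z1]),(z1,[z0,y1,y1,y1,z1])],
    .ref k64 k0 [(z3,[y4,z3,z4]),(z1,[z1]),(z3,[z2,z0,y2,z3]),(z3,[y1,z0,z1])],.ref k76 k11 [(z1,[y4,z1,y4,z8]),(z1,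
    [y3,z0,y4,z6]),(z1,[z6,y1,z7,y13,z1]),(z1,[y1,z0,y1,z2])],.ref k142 k5 [(z1,[z2,z1,z1,y1,y1]),(z1,[y1,y1,y1,z0,
    z1]),(z1,[z0,z1]),(z1,[y1,y1,z0,z0,z1])],.ref k64 k0 [(z1,[y2,z1,z0,z2]),(z2,[z3,z0,z2,y3]),(z1,[z1]),(z2,[y1,z0,
    z0,z1])]],
    .base (.leafM k0 [k1,k2,k3,k4,k5,k0] [(z1,[y1,y1,z0,z1])] []),
    .base (.leafM k3 [k0,k1,k2,k3,k4,k5] [(z1,[y1,z0,y1,z1])] []),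
    .base (.leafM k3 [k0,k1,k2,k3,k4,k5] [(z1,[y1,z0,y1,z1])] []),
    .base (.leafM k3 [k5,k0,k1,k2,k3,k4] [(z1,[z1,z0,z1])] []),
    .base (.leafM k0 [k0,k1,k2,k3,k4,k5] [(z4,[z0,z2,z1,z1])] []),
    .lp k0 [(nat_lit 1928),(nat_lit 1784),(nat_lit 1970),(nat_lit 2018),(nat_lit 1988),(nat_lit 1784)] [k45,k45,k117,
    k117,k24,k24,k0,k0,k15,k15,k117,k117] k0 [[k0,k0,k0,k0,k36,k0,k0,k0,(nat_lit 258),k0,k0,(nat_lit 318)],[k54,k0,k0,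
    k54,k0,k0,k0,k0,k0,k0,k0,k0],[k54,k0,k0,k12,k0,k0,k0,k0,k0,k0,k0,k0],[k0,k0,k0,k0,k36,k0,k0,k0,(nat_lit 258),k0,
    k0,(nat_lit 318)],[k0,k0,k0,k0,k0,k0,k0,k0,k30,k126,k120,k30],[k0,k36,k36,k0,k36,k0,k0,k0,k0,k0,k0,k0],[k0,k0,k0,
    k0,k0,k0,k0,k0,k30,k30,k0,k0],[k0,k0,k0,k0,k0,k0,k0,k0,k0,k0,k54,k30],[k0,k0,k0,k0,k0,k126,k0,k30,k0,k0,k84,k0],
    [k0,(nat_lit 258),(nat_lit 258),k0,k0,k30,k0,k30,k0,k0,k0,k0],[k0,(nat_lit 318),(nat_lit 318),k0,k0,k30,k30,k0,k0,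
    k0,k0,k0],[k0,k0,k0,k0,k0,k120,k54,k0,k0,k84,k78,k0]] (nat_lit 5760) k5
    [[(k4,(nat_lit 1829)),(k1,(nat_lit 1850)),(k10,(nat_lit 1856)),(k11,(nat_lit 1856)),(k8,(nat_lit 1874)),(k9,
    (nat_lit 1904)),(k0,(nat_lit 1928)),(k5,(nat_lit 1949)),(k6,(nat_lit 2003)),(k7,(nat_lit 2003)),(k2,
    (nat_lit 2174)),(k3,(nat_lit 2174))],[(k10,(nat_lit 1538)),(k11,(nat_lit 1598)),(k2,(nat_lit 1856)),(k3,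
    (nat_lit 1856)),(k1,(nat_lit 1928)),(k7,(nat_lit 1937)),(k4,(nat_lit 1949)),(k8,(nat_lit 1958)),(k9,
    (nat_lit 1958)),(k6,(nat_lit 1973)),(k0,(nat_lit 1982)),(k5,(nat_lit 2003))],[(k2,(nat_lit 1730)),(k3,
    (nat_lit 1730)),(k10,(nat_lit 1784)),(k11,(nat_lit 1784)),(k0,(nat_lit 1856)),(k5,(nat_lit 1877)),(k9,
    (nat_lit 1886)),(k6,(nat_lit 1901)),(k7,(nat_lit 1901)),(k4,(nat_lit 1913)),(k8,(nat_lit 2144)),(k1,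
    (nat_lit 2174))],[(k3,(nat_lit 1730)),(k2,(nat_lit 1772)),(k10,(nat_lit 1784)),(k11,(nat_lit 1784)),(k0,
    (nat_lit 1856)),(k5,(nat_lit 1877)),(k9,(nat_lit 1886)),(k6,(nat_lit 1901)),(k7,(nat_lit 1901)),(k4,
    (nat_lit 1913)),(k8,(nat_lit 2144)),(k1,(nat_lit 2174))],[(k10,(nat_lit 1559)),(k11,(nat_lit 1619)),(k2,
    (nat_lit 1877)),(k3,(nat_lit 1877)),(k1,(nat_lit 1949)),(k7,(nat_lit 1958)),(k4,(nat_lit 1970)),(k8,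
    (nat_lit 1979)),(k9,(nat_lit 1979)),(k5,(nat_lit 1982)),(k6,(nat_lit 1994)),(k0,(nat_lit 2003))],[(k1,
    (nat_lit 1829)),(k10,(nat_lit 1847)),(k11,(nat_lit 1847)),(k8,(nat_lit 1853)),(k2,(nat_lit 1913)),(k3,
    (nat_lit 1913)),(k0,(nat_lit 1949)),(k5,(nat_lit 1970)),(k9,(nat_lit 1979)),(k6,(nat_lit 1994)),(k7,
    (nat_lit 1994)),(k4,(nat_lit 2006))],[(k2,(nat_lit 1901)),(k3,(nat_lit 1901)),(k0,(nat_lit 1937)),(k5,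
    (nat_lit 1958)),(k7,(nat_lit 1982)),(k4,(nat_lit 1994)),(k1,(nat_lit 2003)),(k9,(nat_lit 2003)),(k6,
    (nat_lit 2018)),(k10,(nat_lit 2021)),(k11,(nat_lit 2027)),(k8,(nat_lit 2033))],[(k11,(nat_lit 1871)),(k2,
    (nat_lit 1901)),(k3,(nat_lit 1901)),(k10,(nat_lit 1955)),(k0,(nat_lit 1973)),(k8,(nat_lit 1973)),(k4,
    (nat_lit 1994)),(k5,(nat_lit 1994)),(k1,(nat_lit 2003)),(k9,(nat_lit 2003)),(k6,(nat_lit 2018)),(k7,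
    (nat_lit 2018))],[(k10,(nat_lit 1856)),(k2,(nat_lit 1886)),(k3,(nat_lit 1886)),(k1,(nat_lit 1904)),(k11,
    (nat_lit 1916)),(k0,(nat_lit 1958)),(k4,(nat_lit 1979)),(k5,(nat_lit 1979)),(k9,(nat_lit 1988)),(k6,
    (nat_lit 2003)),(k7,(nat_lit 2003)),(k8,(nat_lit 2018))],[(k4,(nat_lit 1853)),(k1,(nat_lit 1874)),(k10,
    (nat_lit 1886)),(k11,(nat_lit 1886)),(k0,(nat_lit 1958)),(k6,(nat_lit 1973)),(k5,(nat_lit 1979)),(k8,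
    (nat_lit 1988)),(k9,(nat_lit 2018)),(k7,(nat_lit 2033)),(k2,(nat_lit 2144)),(k3,(nat_lit 2144))],[(k0,
    (nat_lit 1598)),(k5,(nat_lit 1619)),(k2,(nat_lit 1784)),(k3,(nat_lit 1784)),(k11,(nat_lit 1784)),(k4,
    (nat_lit 1847)),(k1,(nat_lit 1856)),(k10,(nat_lit 1868)),(k6,(nat_lit 1871)),(k8,(nat_lit 1886)),(k9,
    (nat_lit 1916)),(k7,(nat_lit 2027))],[(k0,(nat_lit 1538)),(k5,(nat_lit 1559)),(k2,(nat_lit 1784)),(k3,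
    (nat_lit 1784)),(k4,(nat_lit 1847)),(k1,(nat_lit 1856)),(k9,(nat_lit 1856)),(k10,(nat_lit 1862)),(k11,
    (nat_lit 1868)),(k8,(nat_lit 1886)),(k6,(nat_lit 1955)),(k7,(nat_lit 2021))]]
    [[k2,k0,k0,k0,k0,k1],[k2,k1,k0,k0,k0,k0],[k1,k1,k0,k0,k0,k1],[k1,k1,k1,k0,k0,k0],[k1,k0,k1,k0,k0,k1],[k1,k0,k0,k1,
    k0,k1],[k1,k1,k0,k0,k1,k0],[k1,k0,k0,k0,k1,k1],[k1,k0,k0,k0,k0,k2],[k0,k3,k0,k0,k0,k0],[k0,k2,k1,k0,k0,k0],[k0,k2,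
    k0,k1,k0,k0],[k0,k2,k0,k0,k0,k1],[k0,k1,k1,k0,k0,k1],[k0,k1,k1,k0,k1,k0],[k0,k1,k0,k1,k0,k1],[k0,k1,k0,k0,k1,k1],
    [k0,k1,k0,k0,k0,k2],[k0,k0,k2,k0,k0,k1],[k0,k0,k1,k1,k0,k1],[k0,k0,k1,k0,k1,k1],[k0,k0,k1,k0,k0,k2],[k0,k0,k0,k0,
    k1,k2],[k0,k0,k0,k0,k0,k3]]
    [.ref k25 k0 [(z11,[z16,z1]),(z11,[y8,z16,z33]),(z11,[z4,y8,z0,z33]),(z11,[y2,z4,z0,z0,z33]),(z1,[y1,y1,y3,y3,y3,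
    z3])],.ref k25 k0 [(z1,[z2,y1,y2]),(z1,[y1,z2,z4]),(z2,[z1,y2,y1,z6]),(z4,[y1,z2,z1,z0,z12]),(z8,[y11,y2,y13,y24,
    y24,z24])],.ref k25 k0 [(z3,[z16,y7,y16]),(z3,[y8,z8,z17]),(z3,[z4,y4,y4,z9]),(z3,[y2,z2,z2,z0,z9]),(z3,[y11,z2,
    z2,y9,y9,z9])],.ref k25 k0 [(z1,[z4,y1,y4,y4]),(z1,[y2,z2,z5,z2]),(z1,[z1,y1,y1,z2]),(z2,[y1,z1,z1,z1,z6]),(z4,
    [y11,y1,y1,y1,y12,z12])],.ref k25 k0 [(z7,[z16,z5,z0,y16]),(z7,[y8,z8,z21,z8]),(z7,[z4,y4,z0,z17]),(z7,[y2,z2,z0,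
    z2,z21]),(z7,[y11,y10,y21,y10,y21,z21])],.ref k25 k0 [(z5,[z16,y1,z0,z0,y16]),(z5,[y8,z8,z15,z0,z8]),(z5,[z4,y4,
    z0,z15,y4]),(z5,[y2,z2,z0,z0,z17]),(z5,[y11,y4,y15,y15,y4,z15])],.ref k25 k0 [(z1,[y16,z3,z0,y16,y16,z16]),(z1,
    [z8,z0,z3,z8,z8,y8]),(z1,[y4,z0,z0,y1,y4,z4]),(z1,[z2,z0,z0,z2,z5,y2]),(z1,[z11,y3,y3,z8,z8,y8])],
    .ref k25 k0 [(z1,[z8,z3,z8,z8,z8,y8]),(z1,[y4,z0,y1,y4,y4,z4]),(z1,[z2,z0,z2,z5,z2,y2]),(z1,[y1,z0,y1,y1,z2,z1]),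
    (z2,[y11,y6,y17,y17,y17,z17])],.ref k25 k0 [(z3,[z8,z1]),(z3,[y4,z4,z9]),(z3,[z2,y2,z0,z9]),(z3,[y1,z1,z0,z0,z9]),
    (z6,[y11,y7,y18,y18,y18,z18])],.ref k25 k0 [(z1,[y2,z3,z6]),(z1,[z1]),(z2,[y1,z0,z3,z6]),(z4,[z1,z0,y3,z0,z12]),
    (z8,[z11,y24,y57,y24,y24,z24])],.ref k25 k0 [(z1,[y4,z3,z8,z4]),(z1,[z2,z0,y1,y2]),(z1,[y1,z0,z2,z4]),(z2,[z1,z0,
    y2,y1,z6]),(z4,[z11,y12,y34,y23,y12,z12])],.ref k25 k0 [(z3,[y8,z9,z16,z0,z8]),(z3,[z4,z0,z1,z0,y4]),(z3,[y2,z0,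
    z4,z9,z2]),(z3,[z1,z0,y2,z0,z8]),(z6,[z11,y18,y40,y18,y29,z18])],.ref k25 k0 [(z5,[y16,z15,z32]),(z5,[z8,z0,y1]),
    (z5,[y4,z0,z8,z15]),(z5,[z2,z0,y4,z0,z15]),(z5,[z11,y15,y37,y15,y15,z15])],.ref k25 k0 [(z1,[y16,z3,z16,z16]),(z1,
    [z8,z0,y5,y8]),(z1,[y4,z0,z4,z7]),(z1,[z2,z0,y2,y2,z3]),(z1,[z11,y3,y14,y14,y3,z3])],.ref k25 k0 [(z5,[y16,y1,z0,
    z0,y16,z16]),(z5,[z8,z8,z15,z0,z8,y8]),(z5,[y4,y4,z0,z15,y4,z4]),(z5,[z2,z2,z0,z0,z17,y2]),(z5,[z11,y4,y15,y15,y4,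
    z4])],.ref k25 k0 [(z3,[y16,z9,z16,z0,z16]),(z3,[z8,z0,z1,z0,y8]),(z3,[y4,z0,z4,z9,z4]),(z3,[z2,z0,y2,z0,z7]),(z3,
    [z11,y9,y20,y9,y20,z9])],.ref k25 k0 [(z3,[y8,z1,z0,y8,y8,z8]),(z3,[z4,z4,z9,z4,z4,y4]),(z3,[y2,y2,z0,z7,y2,z2]),
    (z3,[z1,z1,z0,z1,z10,y1]),(z6,[z11,y7,y18,y7,y7,z7])],.ref k25 k0 [(z1,[y8,z3,z8]),(z1,[z4,z0,y1]),(z1,[y2,z0,z2,
    z3]),(z1,[z1,z0,y1,z0,z3]),(z2,[z11,y6,y17,y6,y6,z6])],.ref k25 k0 [(z3,[z16,z9,z0,y32]),(z3,[y8,z0,z9,z16]),(z3,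
    [z4,z0,z0,z1]),(z3,[y2,z0,z0,z4,z9]),(z3,[y11,y9,y9,z13,y9,z9])],.ref k25 k0 [(z1,[z16,z3,z0,y16,y16]),(z1,[y8,z0,
    z3,z8,z8]),(z1,[z4,z0,z0,y1,y4]),(z1,[y2,z0,z0,z2,z5]),(z1,[y11,y3,y3,z8,z8,z3])],.ref k25 k0 [(z1,[y8,y5,y8,z0,
    y8,z8]),(z1,[z4,z4,z7,z0,z4,y4]),(z1,[y2,y2,y2,z3,y2,z2]),(z1,[z1,z1,z1,z0,z4,y1]),(z2,[z11,z5,z5,y6,z5,y5])],
    .ref k25 k0 [(z1,[z8,z3,z0,y8]),(z1,[y4,z0,z3,z4]),(z1,[z2,z0,z0,z1]),(z1,[y1,z0,z0,z1,z3]),(z2,[y11,y6,y6,z5,y6,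
    z6])],.ref k25 k0 [(z3,[y16,y7,y16,y16,y16,z16]),(z3,[z8,z8,z17,z8,z8,y8]),(z3,[y4,y4,y4,z5,y4,z4]),(z3,[z2,z2,z2,
    z2,z11,y2]),(z3,[z11,z2,z2,z2,z2,y2])],.ref k25 k0 [(z1,[z16,z3]),(z1,[y8,z0,z3]),(z1,[z4,z0,z0,z3]),(z1,[y2,z0,
    z0,z0,z3]),(z1,[y11,y3,y3,y3,y3,z3])]],
    .base (.leafM k0 [k0,k1,k2,k3,k4,k5] [(z1,[z0,z1,z1,z1])] []),
    .base (.leafM k3 [k4,k5,k0,k1,k2,k3] [(z2,[z0,z1,z1])] []),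
    .base (.leafM k3 [k0,k1,k2,k3,k4,k5] [(z1,[y1,z0,y1,z0,z1])] [])]

theorem hB6_171_12 : blkB [0, 0, 0, 0, 0, 0] [] sp6 hS6_171 (pcls (n := 6) [0, 0, 0, 0, 0, 0]) hD6_171 560 12 hN6_171_12 = true := by
  decide +kernel

/-- nodes 156 to 167 -/
noncomputable def hN6_171_13 : List HM :=
  [.base (.leafM k3 [k4,k5,k0,k1,k2,k3] [(z1,[z0,z1,z1])] []),
    .lp k0 [(nat_lit 398),(nat_lit 512),(nat_lit 524),(nat_lit 494),(nat_lit 452),(nat_lit 494)] [k63,k63,k6,k6,k0,k0,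
    k15,k15,k36,k36,k15,k15] k0 [[k0,k0,k0,k0,k18,k0,k0,k24,k30,k0,k0,k86],[k6,k0,k4,k72,k72,k0,k0,k0,k0,k0,k0,k0],
    [k72,k0,k0,k0,k0,k0,k0,k18,k18,k0,k0,k66],[k4,k0,k0,k0,k0,k0,k0,k6,k12,k0,k0,k90],[k0,k0,k0,k0,k0,k0,k0,k0,k0,k0,
    k0,k0],[k72,k18,k0,k0,k0,k0,k0,k0,k0,k0,k0,k48],[k0,k24,k6,k18,k0,k0,k0,k0,k0,k0,k48,k0],[k0,k0,k0,k0,k0,k0,k6,k0,
    k0,k6,k0,k0],[k0,k0,k0,k0,k0,k0,k6,k0,k0,k6,k6,k0],[k0,k30,k12,k18,k0,k0,k0,k0,k0,k0,k48,k0],[k0,k86,k90,k66,k48,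
    k0,k0,k0,k0,k0,k0,k0],[k0,k0,k0,k0,k0,k0,k0,k48,k48,k6,k0,k0]] (nat_lit 1440) k5
    [[(k0,(nat_lit 398)),(k1,(nat_lit 398)),(k6,(nat_lit 398)),(k11,(nat_lit 398)),(k8,(nat_lit 419)),(k9,
    (nat_lit 425)),(k7,(nat_lit 446)),(k10,(nat_lit 446)),(k4,(nat_lit 509)),(k5,(nat_lit 527)),(k3,(nat_lit 541)),
    (k2,(nat_lit 545))],[(k10,(nat_lit 360)),(k1,(nat_lit 398)),(k0,(nat_lit 404)),(k11,(nat_lit 416)),(k6,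
    (nat_lit 422)),(k8,(nat_lit 425)),(k9,(nat_lit 425)),(k7,(nat_lit 428)),(k3,(nat_lit 455)),(k2,(nat_lit 459)),(k4,
    (nat_lit 533)),(k5,(nat_lit 533))],[(k7,(nat_lit 431)),(k2,(nat_lit 440)),(k0,(nat_lit 455)),(k6,(nat_lit 503)),
    (k10,(nat_lit 503)),(k11,(nat_lit 503)),(k3,(nat_lit 506)),(k9,(nat_lit 506)),(k8,(nat_lit 512)),(k5,
    (nat_lit 514)),(k4,(nat_lit 536)),(k1,(nat_lit 541))],[(k10,(nat_lit 437)),(k3,(nat_lit 440)),(k0,(nat_lit 459)),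
    (k6,(nat_lit 485)),(k11,(nat_lit 485)),(k9,(nat_lit 488)),(k8,(nat_lit 494)),(k7,(nat_lit 503)),(k2,
    (nat_lit 512)),(k4,(nat_lit 518)),(k5,(nat_lit 518)),(k1,(nat_lit 545))],[(k10,(nat_lit 419)),(k11,(nat_lit 497)),
    (k6,(nat_lit 503)),(k8,(nat_lit 506)),(k9,(nat_lit 506)),(k7,(nat_lit 509)),(k3,(nat_lit 514)),(k2,(nat_lit 518)),
    (k4,(nat_lit 524)),(k5,(nat_lit 524)),(k1,(nat_lit 527)),(k0,(nat_lit 533))],[(k8,(nat_lit 488)),(k9,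
    (nat_lit 488)),(k1,(nat_lit 509)),(k6,(nat_lit 509)),(k7,(nat_lit 509)),(k10,(nat_lit 509)),(k11,(nat_lit 509)),
    (k2,(nat_lit 518)),(k4,(nat_lit 524)),(k5,(nat_lit 524)),(k0,(nat_lit 533)),(k3,(nat_lit 536))],[(k0,
    (nat_lit 428)),(k3,(nat_lit 431)),(k1,(nat_lit 446)),(k10,(nat_lit 446)),(k8,(nat_lit 473)),(k9,(nat_lit 473)),
    (k6,(nat_lit 494)),(k7,(nat_lit 494)),(k11,(nat_lit 494)),(k2,(nat_lit 503)),(k4,(nat_lit 509)),(k5,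
    (nat_lit 509))],[(k1,(nat_lit 398)),(k0,(nat_lit 422)),(k8,(nat_lit 473)),(k9,(nat_lit 473)),(k2,(nat_lit 485)),
    (k7,(nat_lit 494)),(k10,(nat_lit 494)),(k6,(nat_lit 500)),(k11,(nat_lit 500)),(k3,(nat_lit 503)),(k5,
    (nat_lit 503)),(k4,(nat_lit 509))],[(k0,(nat_lit 425)),(k1,(nat_lit 425)),(k8,(nat_lit 446)),(k9,(nat_lit 446)),
    (k6,(nat_lit 473)),(k7,(nat_lit 473)),(k11,(nat_lit 473)),(k2,(nat_lit 488)),(k4,(nat_lit 488)),(k3,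
    (nat_lit 506)),(k5,(nat_lit 506)),(k10,(nat_lit 521))],[(k1,(nat_lit 419)),(k0,(nat_lit 425)),(k8,(nat_lit 446)),
    (k9,(nat_lit 446)),(k6,(nat_lit 473)),(k7,(nat_lit 473)),(k11,(nat_lit 473)),(k4,(nat_lit 488)),(k2,
    (nat_lit 494)),(k5,(nat_lit 506)),(k3,(nat_lit 512)),(k10,(nat_lit 521))],[(k1,(nat_lit 398)),(k0,(nat_lit 416)),
    (k8,(nat_lit 473)),(k9,(nat_lit 473)),(k2,(nat_lit 485)),(k7,(nat_lit 494)),(k5,(nat_lit 497)),(k6,(nat_lit 500)),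
    (k10,(nat_lit 500)),(k11,(nat_lit 500)),(k3,(nat_lit 503)),(k4,(nat_lit 509))],[(k0,(nat_lit 360)),(k5,
    (nat_lit 419)),(k2,(nat_lit 437)),(k1,(nat_lit 446)),(k7,(nat_lit 446)),(k6,(nat_lit 494)),(k10,(nat_lit 494)),
    (k11,(nat_lit 500)),(k3,(nat_lit 503)),(k4,(nat_lit 509)),(k8,(nat_lit 521)),(k9,(nat_lit 521))]]
    [[k3,k0,k0,k0,k0,k0],[k2,k1,k0,k0,k0,k0],[k2,k0,k0,k1,k0,k0],[k2,k0,k0,k0,k1,k0],[k2,k0,k0,k0,k0,k1],[k1,k1,k0,k1,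
    k0,k0],[k1,k1,k0,k0,k0,k1],[k1,k0,k1,k0,k0,k1],[k1,k0,k0,k2,k0,k0],[k1,k0,k0,k1,k1,k0],[k1,k0,k0,k1,k0,k1],[k1,k1,
    k0,k0,k1,k0],[k1,k0,k0,k0,k2,k0],[k1,k0,k0,k0,k1,k1],[k1,k0,k0,k0,k0,k2],[k0,k3,k0,k0,k0,k0],[k0,k2,k0,k1,k0,k0],
    [k0,k2,k0,k0,k0,k1],[k0,k1,k0,k1,k0,k1],[k0,k1,k0,k2,k0,k0],[k0,k1,k0,k1,k1,k0],[k0,k1,k0,k0,k1,k1],[k0,k0,k1,k1,
    k0,k1],[k0,k0,k1,k0,k1,k1],[k0,k0,k1,k0,k0,k2],[k0,k0,k0,k1,k2,k0],[k0,k0,k0,k1,k1,k1],[k0,k0,k0,k0,k3,k0]]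
    [.ref k25 k0 [(z1,[z1]),(z2,[y1,z3,z6]),(z1,[z1,y3,z0,z3]),(z4,[z7,y21,z0,z0,z12]),(z2,[y7,z15,y6,y6,y6,z6])],
    .ref k25 k0 [(z1,[z2,y1,y2]),(z1,[y1,z2,z4]),(z1,[z2,y4,y2,z3]),(z2,[z7,y14,y7,z0,z6]),(z1,[y7,z11,z4,y3,y3,z3])],
    .ref k25 k0 [(z5,[z4,z7,z0,z0,y4]),(z5,[y2,z4,z15,z0,z2]),(z5,[z4,y8,z0,z15,y4]),(z5,[z7,y14,z0,z0,z8]),(z5,[y14,
    z13,y15,y15,y1,z15])],.ref k25 k0 [(z1,[y2,z5,y2,y2,y2,z2]),(z1,[z1,y1,z4,z1,z1,y1]),(z1,[y2,z2,y2,z1,y2,z2]),(z2,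
    [y7,z7,y7,y7,y1,z7]),(z1,[z7,y10,z4,z4,z4,y4])],.ref k25 k0 [(z3,[z4,z1]),(z3,[y2,z4,z9]),(z3,[z4,y8,z0,z9]),(z3,
    [z7,y14,z0,z0,z9]),(z3,[y14,z19,y9,y9,y9,z9])],.ref k25 k0 [(z3,[z4,z5,y4,z0,y4]),(z3,[y2,z2,z11,z0,z2]),(z3,[z4,
    y4,y4,z9,y4]),(z3,[z7,y7,y7,z0,z2]),(z3,[y14,z5,z5,y9,z5,z9])],.ref k25 k0 [(z1,[z4,y1,y4]),(z1,[y2,z2,z5]),(z1,
    [z4,y4,y4,z3]),(z1,[z7,y7,y7,z0,z3]),(z1,[y14,z11,z11,y3,y3,z3])],.ref k25 k0 [(z3,[z4,z5,z0,y4]),(z3,[y2,z2,z9,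
    z2]),(z3,[z4,y4,z0,z5]),(z3,[z7,y7,z0,y7,z9]),(z3,[y14,z5,y9,z5,y9,z9])],.ref k25 k0 [(z3,[z2,z7,z0,z0,y4]),(z3,
    [y1,z1,z9,z0,z2]),(z3,[z2,y2,z0,z9,y4]),(z6,[z7,y7,z0,z0,z4]),(z3,[y7,y2,y9,y9,z5,z9])],.ref k25 k0 [(z1,[y4,z3,
    y4,y4,z0,z4]),(z1,[z2,z0,z5,z2,z0,y2]),(z1,[y4,z0,y4,y1,z0,z4]),(z1,[y7,z0,y7,y7,z3,z7]),(z1,[z14,y3,z11,z11,y3,
    y11])],.ref k25 k0 [(z1,[z1,z2,z0,z0,y1]),(z2,[y1,z1,z6,z0,z1]),(z1,[z1,y1,z0,z3,y1]),(z4,[z7,y7,z0,z0,z5]),(z2,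
    [y7,z1,y6,y6,z1,z6])],.ref k25 k0 [(z1,[y1,z3,z0,y1,y1,z1]),(z2,[z1,z0,z6,z1,z1,y1]),(z1,[y1,z0,z0,z2,y1,z1]),(z4,
    [y7,z0,z0,y7,z5,z7]),(z2,[z7,y6,y6,z1,z1,y1])],.ref k25 k0 [(z2,[y1,z5,y2,y2,y2,z2]),(z4,[z1,z1,z14,z2,z2,y2]),
    (z2,[y1,y1,y2,z4,y2,z2]),(z8,[y7,y7,y14,y14,z10,z14]),(z4,[z7,y5,z2,z2,z2,y2])],.ref k25 k0 [(z3,[y4,z9,y4,y4,y4,
    z4]),(z3,[z2,z0,z11,z2,z2,y2]),(z3,[y4,z0,y4,z5,y4,z4]),(z3,[y7,z0,y7,y7,z2,z7]),(z3,[z14,y9,z5,z5,z5,y5])],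
    .ref k25 k0 [(z1,[z2,z1]),(z1,[y1,z1,z3]),(z1,[z2,y2,z0,z3]),(z2,[z7,y7,z0,z0,z6]),(z1,[y7,z4,y3,y3,y3,z3])],
    .ref k25 k0 [(z1,[y2,z3,z6]),(z1,[z1]),(z1,[y2,z0,z6,z3]),(z2,[y7,z0,z21,z0,z6]),(z1,[z7,y3,y24,y3,y3,z3])],
    .ref k25 k0 [(z1,[z4,z3,y8,z0,y4]),(z1,[y2,z0,z7,z0,z2]),(z1,[z4,z0,y8,z3,y4]),(z1,[z7,z0,y14,z0,y4]),(z1,[y14,y3,
    z25,y3,z11,z3])],.ref k25 k0 [(z1,[y4,z3,z8]),(z1,[z2,z0,y1]),(z1,[y4,z0,z8,z3]),(z1,[y7,z0,z14,z0,z3]),(z1,[z14,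
    y3,y31,y3,y3,z3])],.ref k25 k0 [(z1,[z2,z3,y2,z0,y2]),(z1,[y1,z0,z4,z0,z1]),(z1,[z2,z0,y2,z3,y2]),(z2,[z7,z0,y7,
    z0,y1]),(z1,[y7,y3,z4,y3,z4,z3])],.ref k25 k0 [(z1,[z1,z3,y1,z0,y2]),(z2,[y1,z0,z7,z0,z2]),(z1,[z1,z0,y1,z3,y2]),
    (z4,[z7,z0,y7,z0,y2]),(z2,[y7,y6,z1,y6,z8,z6])],.ref k25 k0 [(z3,[y4,z5,z0,y4,z0,z4]),(z3,[z2,z2,z9,z2,z0,y2]),
    (z3,[y4,y4,z0,z5,z0,z4]),(z3,[y7,y7,z0,y7,z9,z7]),(z3,[z14,z5,y9,z5,y9,y5])],.ref k25 k0 [(z5,[y4,z11,z0,y4,y4,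
    z4]),(z5,[z2,z2,z15,z2,z2,y2]),(z5,[y4,y4,z0,z11,y4,z4]),(z5,[y7,y7,z0,y7,z8,z7]),(z5,[z14,y1,y15,y1,y1,z1])],
    .ref k25 k0 [(z1,[z1,z3,z0,y1,y1]),(z2,[y1,z0,z6,z1,z1]),(z1,[z1,z0,z0,z2,y1]),(z4,[z7,z0,z0,y7,z5]),(z2,[y7,y6,
    y6,z1,z1,z6])],.ref k25 k0 [(z3,[y4,z5,y4,z0,y4,z4]),(z3,[z2,z2,z11,z0,z2,y2]),(z3,[y4,y4,y4,z9,y4,z4]),(z3,[y7,
    y7,y7,z0,z2,z7]),(z3,[z14,z5,z5,y9,z5,y5])],.ref k25 k0 [(z1,[z2,z3,z0,y2]),(z1,[y1,z0,z3,z1]),(z1,[z2,z0,z0,z1]),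
    (z2,[z7,z0,z0,y7,z6]),(z1,[y7,y3,y3,z4,y3,z3])],.ref k25 k0 [(z7,[y4,z13,y8,y8,y4,z8]),(z7,[z2,z4,z25,z4,z2,y4]),
    (z7,[y4,y8,y8,z13,y4,z8]),(z1,[y1,y2,y2,y2,z2,z2]),(z1,[z2,z1,z1,z1,y1,y1])],.ref k25 k0 [(z1,[y2,z1,y2,y2,z0,
    z2]),(z1,[z1,z1,z4,z1,z0,y1]),(z1,[y2,y2,y2,z1,z0,z2]),(z2,[y7,y7,y7,y7,z6,z7]),(z1,[z7,z4,z4,z4,y3,y4])],
    .ref k25 k0 [(z7,[y2,z15,y6,y6,y6,z6]),(z7,[z1,z3,z24,z3,z3,y3]),(z7,[y2,y6,y6,z15,y6,z6]),(z2,[y1,y3,y3,y3,z3,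
    z3]),(z1,[z1])]],
    .lp k0 [(nat_lit 1246),(nat_lit 1244),(nat_lit 1330),(nat_lit 1338),(nat_lit 1298),(nat_lit 1216)] [k46,k46,k47,
    k47,k4,k4,k0,k0,k20,k20,k61,k61] k0 [[k0,k52,k36,k16,k0,k0,k0,k0,k34,k0,k0,k86],[k0,k0,k0,k0,k54,k10,k0,k68,k190,
    k0,k0,k154],[k0,k16,k0,k0,k26,k0,k0,k12,k0,k34,k0,k126],[k0,k36,k20,k0,k0,k0,k0,k0,k0,k0,k0,k70],[k10,k0,k0,k0,k0,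
    k0,k14,k0,k0,k0,k56,k96],[k54,k0,k0,k26,k0,k0,k0,k0,k0,k80,k0,k0],[k68,k0,k0,k12,k0,k0,k0,k0,k122,k110,k0,k0],[k0,
    k0,k0,k0,k0,k14,k0,k0,k0,k0,k70,k82],[k0,k0,k0,k34,k80,k0,k0,k110,k0,k0,k192,k0],[k190,k34,k0,k0,k0,k0,k0,k122,k0,
    k0,k192,k0],[k154,k86,k70,k126,k0,k96,k82,k0,k0,k0,k0,k0],[k0,k0,k0,k0,k0,k56,k70,k0,k192,k192,k0,
    k0]] (nat_lit 3840) k5
    [[(k11,(nat_lit 1039)),(k8,(nat_lit 1080)),(k9,(nat_lit 1202)),(k10,(nat_lit 1231)),(k4,(nat_lit 1232)),(k1,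
    (nat_lit 1246)),(k2,(nat_lit 1315)),(k3,(nat_lit 1331)),(k6,(nat_lit 1374)),(k7,(nat_lit 1388)),(k0,
    (nat_lit 1400)),(k5,(nat_lit 1414))],[(k10,(nat_lit 1145)),(k0,(nat_lit 1194)),(k11,(nat_lit 1197)),(k2,
    (nat_lit 1229)),(k3,(nat_lit 1245)),(k5,(nat_lit 1252)),(k6,(nat_lit 1292)),(k7,(nat_lit 1302)),(k9,
    (nat_lit 1340)),(k4,(nat_lit 1342)),(k1,(nat_lit 1400)),(k8,(nat_lit 1462))],[(k11,(nat_lit 1040)),(k10,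
    (nat_lit 1076)),(k6,(nat_lit 1223)),(k7,(nat_lit 1237)),(k0,(nat_lit 1245)),(k9,(nat_lit 1271)),(k4,
    (nat_lit 1277)),(k2,(nat_lit 1280)),(k3,(nat_lit 1296)),(k5,(nat_lit 1303)),(k8,(nat_lit 1305)),(k1,
    (nat_lit 1331))],[(k10,(nat_lit 1104)),(k0,(nat_lit 1229)),(k11,(nat_lit 1230)),(k8,(nat_lit 1237)),(k2,
    (nat_lit 1264)),(k7,(nat_lit 1265)),(k9,(nat_lit 1271)),(k6,(nat_lit 1279)),(k3,(nat_lit 1280)),(k4,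
    (nat_lit 1287)),(k5,(nat_lit 1287)),(k1,(nat_lit 1315))],[(k10,(nat_lit 1203)),(k0,(nat_lit 1252)),(k2,
    (nat_lit 1287)),(k3,(nat_lit 1303)),(k11,(nat_lit 1307)),(k5,(nat_lit 1310)),(k8,(nat_lit 1314)),(k9,
    (nat_lit 1326)),(k6,(nat_lit 1334)),(k7,(nat_lit 1334)),(k4,(nat_lit 1356)),(k1,(nat_lit 1414))],[(k10,
    (nat_lit 1177)),(k1,(nat_lit 1232)),(k3,(nat_lit 1277)),(k2,(nat_lit 1287)),(k9,(nat_lit 1300)),(k8,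
    (nat_lit 1314)),(k4,(nat_lit 1330)),(k6,(nat_lit 1334)),(k7,(nat_lit 1334)),(k0,(nat_lit 1342)),(k11,
    (nat_lit 1353)),(k5,(nat_lit 1356))],[(k3,(nat_lit 1237)),(k8,(nat_lit 1238)),(k2,(nat_lit 1265)),(k11,
    (nat_lit 1277)),(k0,(nat_lit 1302)),(k9,(nat_lit 1318)),(k10,(nat_lit 1333)),(k4,(nat_lit 1334)),(k5,
    (nat_lit 1334)),(k7,(nat_lit 1338)),(k6,(nat_lit 1352)),(k1,(nat_lit 1388))],[(k11,(nat_lit 1155)),(k8,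
    (nat_lit 1208)),(k3,(nat_lit 1223)),(k2,(nat_lit 1279)),(k0,(nat_lit 1292)),(k9,(nat_lit 1318)),(k4,
    (nat_lit 1334)),(k5,(nat_lit 1334)),(k6,(nat_lit 1338)),(k10,(nat_lit 1347)),(k7,(nat_lit 1352)),(k1,
    (nat_lit 1374))],[(k10,(nat_lit 1175)),(k1,(nat_lit 1202)),(k2,(nat_lit 1271)),(k3,(nat_lit 1271)),(k9,
    (nat_lit 1298)),(k4,(nat_lit 1300)),(k6,(nat_lit 1318)),(k7,(nat_lit 1318)),(k5,(nat_lit 1326)),(k0,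
    (nat_lit 1340)),(k11,(nat_lit 1367)),(k8,(nat_lit 1420))],[(k1,(nat_lit 1080)),(k6,(nat_lit 1208)),(k2,
    (nat_lit 1237)),(k7,(nat_lit 1238)),(k11,(nat_lit 1257)),(k8,(nat_lit 1298)),(k3,(nat_lit 1305)),(k4,
    (nat_lit 1314)),(k5,(nat_lit 1314)),(k9,(nat_lit 1420)),(k10,(nat_lit 1449)),(k0,(nat_lit 1462))],[(k1,
    (nat_lit 1039)),(k3,(nat_lit 1040)),(k6,(nat_lit 1155)),(k0,(nat_lit 1197)),(k11,(nat_lit 1216)),(k2,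
    (nat_lit 1230)),(k8,(nat_lit 1257)),(k7,(nat_lit 1277)),(k5,(nat_lit 1307)),(k4,(nat_lit 1353)),(k9,
    (nat_lit 1367)),(k10,(nat_lit 1408))],[(k3,(nat_lit 1076)),(k2,(nat_lit 1104)),(k0,(nat_lit 1145)),(k9,
    (nat_lit 1175)),(k4,(nat_lit 1177)),(k5,(nat_lit 1203)),(k10,(nat_lit 1216)),(k1,(nat_lit 1231)),(k7,
    (nat_lit 1333)),(k6,(nat_lit 1347)),(k11,(nat_lit 1408)),(k8,(nat_lit 1449))]]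
    [[k2,k0,k0,k0,k1,k0],[k2,k0,k0,k0,k0,k1],[k2,k1,k0,k0,k0,k0],[k1,k1,k0,k0,k0,k1],[k1,k1,k1,k0,k0,k0],[k1,k0,k1,k0,
    k0,k1],[k1,k0,k0,k1,k0,k1],[k1,k1,k0,k0,k1,k0],[k1,k0,k1,k0,k1,k0],[k1,k0,k0,k1,k1,k0],[k1,k0,k0,k0,k1,k1],[k1,k0,
    k0,k0,k0,k2],[k0,k2,k0,k1,k0,k0],[k0,k2,k0,k0,k1,k0],[k0,k2,k0,k0,k0,k1],[k0,k1,k1,k0,k0,k1],[k0,k1,k0,k1,k1,k0],
    [k0,k1,k0,k1,k0,k1],[k0,k1,k0,k0,k1,k1],[k0,k1,k0,k0,k0,k2],[k0,k0,k1,k1,k0,k1],[k0,k0,k1,k0,k1,k1],[k0,k0,k1,k0,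
    k0,k2],[k0,k0,k0,k1,k2,k0],[k0,k0,k0,k1,k1,k1],[k0,k0,k0,k1,k0,k2]]
    [.ref k25 k0 [(z2,[z6,z0,z2,z3,z1,y6]),(z4,[y6,z2,z2,y3,y1,z6]),(z8,[y6,z2,y2,z9,y1,z6]),(z8,[z6,y2,z2,z3,z5,y6]),
    (z1,[y3,z0,y2,y3,y1,z6])],.ref k25 k0 [(z5,[z6,z1]),(z5,[y3,z2,z5]),(z10,[y3,z2,z0,z15]),(z10,[z3,y2,z0,z0,z5]),
    (z10,[y12,y2,y10,y15,y5,z30])],.ref k25 k0 [(z3,[z6,y1,y2]),(z3,[y3,z2,z4]),(z6,[y3,z2,z1,z9]),(z6,[z3,y2,y1,z0,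
    z3]),(z6,[y12,z2,y2,y9,y3,z18])],.ref k25 k0 [(z1,[z3,z0,y1]),(z2,[y3,z1,z3]),(z4,[y3,z1,z1,z6]),(z4,[z3,y1,y1,z0,
    z2]),(z2,[y6,z0,z0,y3,y1,z6])],.ref k25 k0 [(z1,[z12,y3,y4,y6]),(z1,[y6,z2,z3,z3]),(z1,[y3,z1,z1,z3]),(z2,[z6,y2,
    y2,y3,z1]),(z2,[y24,z6,z6,z9,y1,z6])],.ref k25 k0 [(z5,[z12,z1,z0,y6]),(z5,[y6,z2,z5,z3]),(z5,[y3,z1,z0,z9]),(z10,
    [z6,y2,z0,y3,z5]),(z10,[y24,y2,y10,y3,y5,z30])],.ref k25 k0 [(z7,[z12,z3,z0,z0,y2]),(z7,[y6,z2,z7,z0,z1]),(z14,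
    [y6,z2,z0,z21,z1]),(z7,[z3,y1,z0,z0,z3]),(z14,[y24,y6,y14,y21,y3,z42])],.ref k25 k0 [(z1,[y6,z1,z0,y3,y1,z6]),(z2,
    [z6,z0,z2,z3,z1,y6]),(z4,[z6,z0,z0,z9,z1,y6]),(z4,[y6,z0,z0,y3,z1,z6]),(z2,[z12,y2,y2,z3,z1,y6])],
    .ref k25 k0 [(z1,[y12,z1,y4,z0,y2,z12]),(z1,[z6,z0,z3,z0,z1,y6]),(z2,[z6,z0,z2,z3,z1,y6]),(z1,[y3,z0,y1,z0,z0,
    z3]),(z2,[z24,y2,z6,y3,z3,y18])],.ref k25 k0 [(z1,[z12,z1,z4,z6,z0,y12]),(z1,[y6,z0,y1,y3,z0,z6]),(z1,[y3,z0,y1,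
    z0,z0,z3]),(z2,[z6,z0,z2,z3,z1,y6]),(z2,[y24,y2,y10,y15,y1,z30])],.ref k25 k0 [(z1,[z6,z1,z2,z3,z1,y6]),(z2,[y6,
    z0,z0,y3,y1,z6]),(z4,[y6,z0,y2,z3,y1,z6]),(z4,[z6,z0,z2,z3,z3,y6]),(z2,[y12,y2,y6,y9,y3,z18])],.ref k25 k0 [(z2,
    [z3,z1]),(z4,[y3,z1,z4]),(z8,[y3,z1,z0,z12]),(z8,[z3,y1,z0,z0,z4]),(z2,[y3,y1,y2,y3,y1,z6])],.ref k25 k0 [(z3,
    [y12,z3,z8,z0,z2]),(z3,[z6,z0,y1,z0,y1]),(z6,[z6,z0,y4,z9,y1]),(z3,[y3,z0,z2,z0,z2]),(z6,[z24,y6,y22,y9,y7,z18])],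
    .ref k25 k0 [(z4,[y6,z2,z2,y3,y1,z6]),(z8,[z6,z2,z6,z3,z1,y6]),(z16,[z6,z2,y2,z27,z1,y6]),(z16,[y6,y2,z2,y3,z7,
    z6]),(z4,[z6,y2,y6,y3,y1,z6])],.ref k25 k0 [(z1,[y6,z1,z4]),(z1,[z3,z0,y1]),(z2,[z3,z0,y2,z3]),(z2,[y3,z0,z2,z0,
    z1]),(z2,[z12,y2,y10,y3,y1,z6])],.ref k25 k0 [(z1,[y12,z1,z4,z6]),(z1,[z6,z0,y1,y3]),(z1,[z3,z0,y1]),(z2,[y6,z0,
    z2,z3,z1]),(z2,[z24,y2,y10,y15,y1,z6])],.ref k25 k0 [(z5,[y12,z1,z0,y6,z0,z12]),(z5,[z6,z2,z5,z3,z0,y6]),(z5,[z3,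
    z1,z0,z9,z0,y3]),(z10,[y6,y2,z0,y3,z5,z6]),(z10,[z24,y2,y10,y3,y5,z6])],.ref k25 k0 [(z1,[z12,z1,y4,z0,y2]),(z1,
    [y6,z0,z3,z0,z1]),(z2,[y6,z0,z2,z3,z1]),(z1,[z3,z0,y1]),(z2,[y24,y2,z6,y3,z3,z6])],.ref k25 k0 [(z2,[y6,z0,z0,y3,
    y1,z6]),(z4,[z6,z2,z4,z3,z1,y6]),(z8,[z6,z2,z0,z15,z1,y6]),(z8,[y6,y2,z0,y3,z3,z6]),(z1,[z3,z0,y1])],
    .ref k25 k0 [(z1,[z6,z1,y2]),(z1,[y3,z0,z2]),(z2,[y3,z0,z1,z3]),(z2,[z3,z0,y1,z0,z1]),(z2,[y12,y2,z2,y3,y1,z6])],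
    .ref k25 k0 [(z1,[z6,z1,z0,y3,y1]),(z2,[y6,z0,z2,z3,z1]),(z4,[y6,z0,z0,z9,z1]),(z4,[z6,z0,z0,y3,z1]),(z2,[y12,y2,
    y2,z3,z1,z6])],.ref k25 k0 [(z3,[y12,y1,y4,z0,y2,z12]),(z3,[z6,z2,z5,z0,z1,y6]),(z6,[z6,z2,z2,z9,z1,y6]),(z3,[y3,
    y1,y1,z0,z1,z3]),(z6,[z24,z2,z2,y9,z1,y6])],.ref k25 k0 [(z1,[z4,z1,z0,y2]),(z1,[y2,z0,z1,z1]),(z1,[y1,z0,z0,z2]),
    (z2,[z2,z0,z0,y1,z1]),(z2,[y8,y2,y2,z1,y1,z6])],.ref k25 k0 [(z7,[y12,y1,y8,y12,y2,z24]),(z7,[z6,z4,z11,z6,z1,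
    y12]),(z14,[z6,z4,z4,z27,z1,y12]),(z7,[y3,y2,y2,y3,z3,z6]),(z14,[z24,z2,z2,z3,y3,y6])],.ref k25 k0 [(z1,[y12,y3,
    y4,y6,z0,z12]),(z1,[z6,z2,z3,z3,z0,y6]),(z1,[z3,z1,z1,z3,z0,y3]),(z2,[y6,y2,y2,y3,z1,z6]),(z2,[z24,z6,z6,z9,y1,
    y18])],.ref k25 k0 [(z5,[z12,z5,z0,z0,y2]),(z5,[y6,z0,z5,z0,z1]),(z10,[y6,z0,z0,z15,z1]),(z5,[z3,z0,z0,z0,z2]),
    (z10,[y24,y10,y10,y15,y1,z30])]],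
    .lp k0 [k100,k100,k100,k108,k108,k82] [k5,k3,k4,k4,k4,k4,k0,k0,k0,k0,k13,k13] k0 [[k0,k0,k0,k0,k0,k0,k0,k0,k0,k0,
    k0,k0],[k0,k0,k0,k0,k8,k0,k0,k8,k16,k0,k0,k8],[k0,k0,k0,k0,k0,k0,k0,k8,k0,k0,k0,k0],[k0,k0,k0,k0,k0,k0,k0,k0,k0,
    k0,k0,k0],[k0,k0,k0,k0,k0,k0,k8,k0,k0,k0,k0,k0],[k8,k0,k0,k0,k0,k0,k0,k0,k0,k0,k0,k0],[k8,k0,k0,k8,k0,k0,k0,k0,k6,
    k20,k0,k0],[k0,k0,k0,k0,k0,k8,k2,k0,k0,k0,k8,k0],[k0,k0,k0,k0,k0,k0,k0,k20,k0,k16,k30,k0],[k16,k0,k0,k0,k0,k0,k0,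
    k6,k0,k0,k12,k0],[k8,k0,k0,k0,k0,k0,k0,k0,k0,k0,k0,k0],[k0,k0,k0,k0,k0,k0,k8,k0,k12,k30,k8,k0]] (nat_lit 300) k5
    [[(k8,k75),(k11,k80),(k10,k92),(k1,k94),(k9,k97),(k2,k101),(k3,k101),(k4,k101),(k5,k101),(k6,k105),(k7,k105),(k0,
    k108)],[(k10,k90),(k11,k90),(k0,k98),(k2,k99),(k3,k99),(k5,k99),(k6,k103),(k7,k103),(k4,k107),(k1,k108),(k9,k111),
    (k8,k119)],[(k11,k75),(k10,k83),(k6,k96),(k7,k96),(k0,k99),(k2,k100),(k3,k100),(k4,k100),(k5,k100),(k1,k101),(k8,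
    k104),(k9,k104)],[(k10,k91),(k11,k91),(k6,k96),(k0,k99),(k2,k100),(k3,k100),(k4,k100),(k5,k100),(k1,k101),(k7,
    k104),(k8,k104),(k9,k104)],[(k10,k91),(k11,k91),(k0,k99),(k2,k100),(k3,k100),(k4,k100),(k5,k100),(k1,k101),(k6,
    k104),(k7,k104),(k8,k104),(k9,k112)],[(k10,k91),(k11,k91),(k9,k96),(k2,k100),(k3,k100),(k4,k100),(k5,k100),(k1,
    k101),(k6,k104),(k7,k104),(k8,k104),(k0,k107)],[(k10,k95),(k11,k95),(k3,k96),(k0,k103),(k2,k104),(k4,k104),(k5,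
    k104),(k1,k105),(k7,k108),(k8,k108),(k9,k108),(k6,k116)],[(k8,k88),(k11,k89),(k2,k96),(k3,k96),(k0,k103),(k10,
    k103),(k4,k104),(k5,k104),(k1,k105),(k9,k108),(k6,k110),(k7,k116)],[(k10,k95),(k4,k96),(k1,k97),(k2,k104),(k3,
    k104),(k9,k106),(k6,k108),(k7,k108),(k0,k111),(k5,k112),(k8,k114),(k11,k115)],[(k1,k75),(k6,k88),(k8,k92),(k11,
    k95),(k2,k104),(k3,k104),(k4,k104),(k5,k104),(k10,k107),(k7,k108),(k9,k114),(k0,k119)],[(k3,k75),(k1,k80),(k6,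
    k89),(k0,k90),(k2,k91),(k4,k91),(k5,k91),(k7,k95),(k8,k95),(k11,k98),(k10,k112),(k9,k115)],[(k3,k83),(k0,k90),
    (k10,k90),(k2,k91),(k4,k91),(k5,k91),(k1,k92),(k7,k95),(k9,k95),(k6,k103),(k8,k107),(k11,k112)]]
    [[k2,k0,k0,k0,k1,k0],[k2,k0,k0,k0,k0,k1],[k2,k1,k0,k0,k0,k0],[k1,k1,k0,k0,k0,k1],[k1,k0,k1,k0,k0,k1],[k1,k0,k0,k1,
    k0,k1],[k1,k1,k0,k0,k1,k0],[k1,k0,k1,k0,k1,k0],[k1,k0,k0,k1,k1,k0],[k1,k0,k0,k0,k1,k1],[k1,k0,k0,k0,k0,k2],[k0,k2,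
    k0,k1,k0,k0],[k0,k2,k0,k0,k0,k1],[k0,k1,k1,k0,k0,k1],[k0,k1,k0,k1,k0,k1],[k0,k1,k0,k1,k1,k0],[k0,k1,k0,k0,k1,k1],
    [k0,k1,k0,k0,k0,k2],[k0,k0,k2,k0,k0,k1],[k0,k0,k1,k1,k0,k1],[k0,k0,k1,k1,k1,k0],[k0,k0,k1,k0,k1,k1],[k0,k0,k1,k0,
    k0,k2],[k0,k0,k0,k1,k1,k1],[k0,k0,k0,k1,k0,k2]]
    [.ref k25 k0 [(z5,[z8,z7,z8,z8,z8,y8]),(z5,[y4,z4,z11,y4,y4,z4]),(z10,[y11,z11,y11,z19,y11,z11]),(z5,[z2,y2,z2,z2,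
    z17,y2]),(z5,[y1,y14,y16,y16,y16,z16])],.ref k25 k0 [(z11,[z16,z1]),(z11,[y8,z16,z33]),(z1,[y1,z2,z0,z3]),(z11,
    [z4,y8,z0,z0,z33]),(z11,[y2,y29,y33,y33,y33,z33])],.ref k25 k0 [(z1,[z2,y1,y2]),(z1,[y1,z2,z4]),(z8,[y11,z22,z11,
    z24]),(z2,[z1,y2,y1,z0,z6]),(z4,[y1,y10,y11,y12,y12,z12])],.ref k25 k0 [(z3,[z16,y7,y16]),(z3,[y8,z8,z17]),(z3,
    [y11,z11,z11,z9]),(z3,[z4,y4,y4,z0,z9]),(z3,[y2,y7,y7,y9,y9,z9])],.ref k25 k0 [(z1,[z8,y5,z0,y8]),(z1,[y4,z4,z3,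
    z4]),(z2,[y11,z11,z0,z17]),(z1,[z2,y2,z0,y2,z3]),(z1,[y1,y2,y3,y2,y3,z3])],.ref k25 k0 [(z7,[z16,z5,z0,z0,y16]),
    (z7,[y8,z8,z21,z0,z8]),(z7,[y11,z11,z0,z21,z11]),(z7,[z4,y4,z0,z0,z17]),(z7,[y2,y19,y21,y21,y19,z21])],
    .ref k25 k0 [(z1,[z8,z3,z0,z8,z8,y8]),(z1,[y4,z0,z3,y4,y4,z4]),(z2,[y11,z0,z0,y5,y11,z11]),(z1,[z2,z0,z0,z2,z5,
    y2]),(z1,[y1,y3,y3,y4,y4,z4])],.ref k25 k0 [(z1,[z16,z3,z16,z0,z16,y16]),(z1,[y8,z0,y5,z0,y8,z8]),(z1,[y11,z0,y11,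
    z3,y11,z11]),(z1,[z4,z0,z4,z0,z7,y4]),(z1,[y2,y3,y5,y3,y5,z5])],.ref k25 k0 [(z3,[z8,z9,z8,z8,z0,y8]),(z3,[y4,z0,
    z5,y4,z0,z4]),(z6,[y11,z0,y11,z7,z0,z11]),(z3,[z2,z0,z2,z2,z9,y2]),(z3,[y1,y9,y10,y10,y9,z10])],.ref k25 k0 [(z5,
    [z16,z15,z16,z16,z16,y16]),(z5,[y8,z0,z7,y8,y8,z8]),(z5,[y11,z0,y11,z4,y11,z11]),(z5,[z4,z0,z4,z4,z19,y4]),(z5,
    [y2,y15,y17,y17,y17,z17])],.ref k25 k0 [(z3,[z8,z1]),(z3,[y4,z4,z9]),(z6,[y11,z11,z0,z18]),(z3,[z2,y2,z0,z0,z9]),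
    (z3,[y1,y8,y9,y9,y9,z9])],.ref k25 k0 [(z1,[y4,z3,z8,z0,z4]),(z1,[z2,z0,y1,z0,y2]),(z4,[z11,z0,y22,z12,y11]),(z1,
    [y1,z0,z2,z0,z4]),(z2,[z1,y6,y8,y6,y7,z6])],.ref k25 k0 [(z5,[y16,z15,z32]),(z5,[z8,z0,y1]),(z5,[z11,z0,y22,z15]),
    (z5,[y4,z0,z8,z0,z15]),(z5,[z2,y15,y19,y15,y15,z15])],.ref k25 k0 [(z3,[y8,z9,z8,z8]),(z3,[z4,z0,z5,y4]),(z6,[z11,
    z0,y11,z7]),(z3,[y2,z0,z2,z2,z9]),(z3,[z1,y9,y10,y10,y9,z9])],.ref k25 k0 [(z1,[y16,z3,z16,z0,z16]),(z1,[z8,z0,y5,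
    z0,y8]),(z1,[z11,z0,y11,z3,y11]),(z1,[y4,z0,z4,z0,z7]),(z1,[z2,y3,y5,y3,y5,z3])],.ref k25 k0 [(z1,[y8,y5,z0,y8,z0,
    z8]),(z1,[z4,z4,z3,z4,z0,y4]),(z2,[z11,z11,z0,z17,z0,y11]),(z1,[y2,y2,z0,y2,z3,z2]),(z1,[z1,y2,y3,y2,y3,z2])],
    .ref k25 k0 [(z3,[y16,y7,z0,y16,y16,z16]),(z3,[z8,z8,z9,z8,z8,y8]),(z3,[z11,z11,z0,z20,z11,y11]),(z3,[y4,y4,z0,y4,
    z5,z4]),(z3,[z2,y7,y9,y7,y7,z7])],.ref k25 k0 [(z1,[y8,z3,z8]),(z1,[z4,z0,y1]),(z2,[z11,z0,y11,z6]),(z1,[y2,z0,z2,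
    z0,z3]),(z1,[z1,y3,y4,y3,y3,z3])],.ref k25 k0 [(z7,[y16,z21,z0,z32]),(z7,[z8,z0,z21,y16]),(z7,[z11,z0,z0,y1]),(z7,
    [y4,z0,z0,z8,z21]),(z7,[z2,y21,y21,y25,y21,z21])],.ref k25 k0 [(z1,[y8,z3,z0,z8,z8]),(z1,[z4,z0,z3,y4,y4]),(z2,
    [z11,z0,z0,y5,y11]),(z1,[y2,z0,z0,z2,z5]),(z1,[z1,y3,y3,y4,y4,z3])],.ref k25 k0 [(z3,[y16,y7,y16,z0,z0,z16]),(z3,
    [z8,z8,z17,z0,z0,y8]),(z3,[z11,z11,z11,z9,z0,y11]),(z3,[y4,y4,y4,z0,z9,z4]),(z3,[z2,y7,y7,y9,y9,z7])],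
    .ref k25 k0 [(z1,[y4,y1,y4,z0,y4,z4]),(z1,[z2,z2,z5,z0,z2,y2]),(z4,[z11,z11,z11,z12,z11,y11]),(z1,[y1,y1,y1,z0,z2,
    z1]),(z2,[z1,y5,y5,y6,y5,z5])],.ref k25 k0 [(z3,[y16,z9,z0,z16]),(z3,[z8,z0,z9,y8]),(z3,[z11,z0,z0,y2]),(z3,[y4,
    z0,z0,z4,z9]),(z3,[z2,y9,y9,y11,y9,z9])],.ref k25 k0 [(z1,[z16,z19,z16,z16,z0,y16]),(z1,[y8,y8,y5,y8,z0,z8]),(z1,
    [y11,y11,y11,y8,z0,z11]),(z1,[z4,z4,z4,z4,z3,y4]),(z1,[y2,y5,y5,y5,y3,z5])],.ref k25 k0 [(z1,[z8,z3,z0,z0,y8]),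
    (z1,[y4,z0,z3,z0,z4]),(z2,[y11,z0,z0,z6,z11]),(z1,[z2,z0,z0,z0,z1]),(z1,[y1,y3,y3,y3,y2,z3])]],
    .lp k0 [(nat_lit 1246),(nat_lit 1244),(nat_lit 1330),(nat_lit 1338),(nat_lit 1298),(nat_lit 1216)] [k46,k46,k47,
    k47,k4,k4,k0,k0,k20,k20,k61,k61] k0 [[k0,k52,k36,k16,k0,k0,k0,k0,k34,k0,k0,k86],[k0,k0,k0,k0,k54,k10,k0,k68,k190,
    k0,k0,k154],[k0,k16,k0,k0,k26,k0,k0,k12,k0,k34,k0,k126],[k0,k36,k20,k0,k0,k0,k0,k0,k0,k0,k0,k70],[k10,k0,k0,k0,k0,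
    k0,k14,k0,k0,k0,k56,k96],[k54,k0,k0,k26,k0,k0,k0,k0,k0,k80,k0,k0],[k68,k0,k0,k12,k0,k0,k0,k0,k122,k110,k0,k0],[k0,
    k0,k0,k0,k0,k14,k0,k0,k0,k0,k70,k82],[k0,k0,k0,k34,k80,k0,k0,k110,k0,k0,k192,k0],[k190,k34,k0,k0,k0,k0,k0,k122,k0,
    k0,k192,k0],[k154,k86,k70,k126,k0,k96,k82,k0,k0,k0,k0,k0],[k0,k0,k0,k0,k0,k56,k70,k0,k192,k192,k0,
    k0]] (nat_lit 3840) k5
    [[(k11,(nat_lit 1039)),(k8,(nat_lit 1080)),(k9,(nat_lit 1202)),(k10,(nat_lit 1231)),(k4,(nat_lit 1232)),(k1,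
    (nat_lit 1246)),(k2,(nat_lit 1315)),(k3,(nat_lit 1331)),(k6,(nat_lit 1374)),(k7,(nat_lit 1388)),(k0,
    (nat_lit 1400)),(k5,(nat_lit 1414))],[(k10,(nat_lit 1145)),(k0,(nat_lit 1194)),(k11,(nat_lit 1197)),(k2,
    (nat_lit 1229)),(k3,(nat_lit 1245)),(k5,(nat_lit 1252)),(k6,(nat_lit 1292)),(k7,(nat_lit 1302)),(k9,
    (nat_lit 1340)),(k4,(nat_lit 1342)),(k1,(nat_lit 1400)),(k8,(nat_lit 1462))],[(k11,(nat_lit 1040)),(k10,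
    (nat_lit 1076)),(k6,(nat_lit 1223)),(k7,(nat_lit 1237)),(k0,(nat_lit 1245)),(k9,(nat_lit 1271)),(k4,
    (nat_lit 1277)),(k2,(nat_lit 1280)),(k3,(nat_lit 1296)),(k5,(nat_lit 1303)),(k8,(nat_lit 1305)),(k1,
    (nat_lit 1331))],[(k10,(nat_lit 1104)),(k0,(nat_lit 1229)),(k11,(nat_lit 1230)),(k8,(nat_lit 1237)),(k2,
    (nat_lit 1264)),(k7,(nat_lit 1265)),(k9,(nat_lit 1271)),(k6,(nat_lit 1279)),(k3,(nat_lit 1280)),(k4,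
    (nat_lit 1287)),(k5,(nat_lit 1287)),(k1,(nat_lit 1315))],[(k10,(nat_lit 1203)),(k0,(nat_lit 1252)),(k2,
    (nat_lit 1287)),(k3,(nat_lit 1303)),(k11,(nat_lit 1307)),(k5,(nat_lit 1310)),(k8,(nat_lit 1314)),(k9,
    (nat_lit 1326)),(k6,(nat_lit 1334)),(k7,(nat_lit 1334)),(k4,(nat_lit 1356)),(k1,(nat_lit 1414))],[(k10,
    (nat_lit 1177)),(k1,(nat_lit 1232)),(k3,(nat_lit 1277)),(k2,(nat_lit 1287)),(k9,(nat_lit 1300)),(k8,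
    (nat_lit 1314)),(k4,(nat_lit 1330)),(k6,(nat_lit 1334)),(k7,(nat_lit 1334)),(k0,(nat_lit 1342)),(k11,
    (nat_lit 1353)),(k5,(nat_lit 1356))],[(k3,(nat_lit 1237)),(k8,(nat_lit 1238)),(k2,(nat_lit 1265)),(k11,
    (nat_lit 1277)),(k0,(nat_lit 1302)),(k9,(nat_lit 1318)),(k10,(nat_lit 1333)),(k4,(nat_lit 1334)),(k5,
    (nat_lit 1334)),(k7,(nat_lit 1338)),(k6,(nat_lit 1352)),(k1,(nat_lit 1388))],[(k11,(nat_lit 1155)),(k8,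
    (nat_lit 1208)),(k3,(nat_lit 1223)),(k2,(nat_lit 1279)),(k0,(nat_lit 1292)),(k9,(nat_lit 1318)),(k4,
    (nat_lit 1334)),(k5,(nat_lit 1334)),(k6,(nat_lit 1338)),(k10,(nat_lit 1347)),(k7,(nat_lit 1352)),(k1,
    (nat_lit 1374))],[(k10,(nat_lit 1175)),(k1,(nat_lit 1202)),(k2,(nat_lit 1271)),(k3,(nat_lit 1271)),(k9,
    (nat_lit 1298)),(k4,(nat_lit 1300)),(k6,(nat_lit 1318)),(k7,(nat_lit 1318)),(k5,(nat_lit 1326)),(k0,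
    (nat_lit 1340)),(k11,(nat_lit 1367)),(k8,(nat_lit 1420))],[(k1,(nat_lit 1080)),(k6,(nat_lit 1208)),(k2,
    (nat_lit 1237)),(k7,(nat_lit 1238)),(k11,(nat_lit 1257)),(k8,(nat_lit 1298)),(k3,(nat_lit 1305)),(k4,
    (nat_lit 1314)),(k5,(nat_lit 1314)),(k9,(nat_lit 1420)),(k10,(nat_lit 1449)),(k0,(nat_lit 1462))],[(k1,
    (nat_lit 1039)),(k3,(nat_lit 1040)),(k6,(nat_lit 1155)),(k0,(nat_lit 1197)),(k11,(nat_lit 1216)),(k2,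
    (nat_lit 1230)),(k8,(nat_lit 1257)),(k7,(nat_lit 1277)),(k5,(nat_lit 1307)),(k4,(nat_lit 1353)),(k9,
    (nat_lit 1367)),(k10,(nat_lit 1408))],[(k3,(nat_lit 1076)),(k2,(nat_lit 1104)),(k0,(nat_lit 1145)),(k9,
    (nat_lit 1175)),(k4,(nat_lit 1177)),(k5,(nat_lit 1203)),(k10,(nat_lit 1216)),(k1,(nat_lit 1231)),(k7,
    (nat_lit 1333)),(k6,(nat_lit 1347)),(k11,(nat_lit 1408)),(k8,(nat_lit 1449))]]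
    [[k2,k0,k0,k0,k1,k0],[k2,k0,k0,k0,k0,k1],[k2,k1,k0,k0,k0,k0],[k1,k1,k0,k0,k0,k1],[k1,k1,k1,k0,k0,k0],[k1,k0,k1,k0,
    k0,k1],[k1,k0,k0,k1,k0,k1],[k1,k1,k0,k0,k1,k0],[k1,k0,k1,k0,k1,k0],[k1,k0,k0,k1,k1,k0],[k1,k0,k0,k0,k1,k1],[k1,k0,
    k0,k0,k0,k2],[k0,k2,k0,k1,k0,k0],[k0,k2,k0,k0,k1,k0],[k0,k2,k0,k0,k0,k1],[k0,k1,k1,k0,k0,k1],[k0,k1,k0,k1,k1,k0],
    [k0,k1,k0,k1,k0,k1],[k0,k1,k0,k0,k1,k1],[k0,k1,k0,k0,k0,k2],[k0,k0,k1,k1,k0,k1],[k0,k0,k1,k0,k1,k1],[k0,k0,k1,k0,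
    k0,k2],[k0,k0,k0,k1,k2,k0],[k0,k0,k0,k1,k1,k1],[k0,k0,k0,k1,k0,k2]]
    [.ref k25 k0 [(z2,[z3,z0,z0,z0,y1]),(z4,[y3,z6,z12,z0,z1]),(z8,[y9,z18,z0,z8,z3]),(z8,[z3,y6,z0,z0,y1]),(z1,[z0,
    z0,z0,z0,z1])],.ref k25 k0 [(z2,[z3,z3,z3,z1,z1,y3]),(z4,[y3,z3,z9,y1,y1,z3]),(z8,[y9,z9,y9,z5,y3,z9]),(z8,[z3,y3,
    z3,z1,z1,y3]),(z1,[z0,z0,z0,z0,z1])],.ref k25 k0 [(z1,[z2,y1,y2]),(z1,[y1,z2,z4]),(z2,[y3,z6,z3,z2]),(z2,[z1,y2,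
    y1]),(z1,[z0,z0,z0,z0,z1])],.ref k25 k0 [(z1,[z6,z3,z0,z2,z2,y6]),(z1,[y3,z0,z3,y1,y1,z3]),(z2,[y9,z0,z0,y1,y3,
    z9]),(z2,[z3,z0,z0,z1,z1,y3]),(z1,[z0,z0,z0,z0,z1])],.ref k25 k0 [(z1,[y12,z15,z12,z4]),(z1,[z6,y6,y3,y2]),(z1,
    [z9,y9,y9,y2]),(z1,[y3,z3,z3,z1]),(z1,[z0,z0,z0,z0,z1])],.ref k25 k0 [(z1,[z12,z3,z12,z0,z4,y12]),(z1,[y6,z0,y3,
    z0,y2,z6]),(z1,[y9,z0,y9,z1,y3,z9]),(z1,[z3,z0,z3,z0,z1,y3]),(z1,[z0,z0,z0,z0,z1])],.ref k25 k0 [(z5,[z12,z15,z12,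
    z4,z4,y12]),(z5,[y6,z0,z9,y2,y2,z6]),(z5,[y9,z0,y9,z2,y3,z9]),(z5,[z3,z0,z3,z1,z1,y3]),(z1,[z0,z0,z0,z0,z1])],
    .ref k25 k0 [(z1,[z6,y3,y6,z0,y2]),(z1,[y3,z3,z6,z0,z1]),(z2,[y9,z9,z9,z2,z3]),(z2,[z3,y3,y3,z0,y1]),(z1,[z0,z0,
    z0,z0,z1])],.ref k25 k0 [(z1,[z12,y9,z0,y4,y4]),(z1,[y6,z6,z3,z2,z2]),(z1,[y9,z9,z0,z4,z3]),(z1,[z3,y3,z0,y1,y1]),
    (z1,[z0,z0,z0,z0,z1])],.ref k25 k0 [(z5,[z12,z3,z0,z0,y4]),(z5,[y6,z6,z15,z0,z2]),(z5,[y9,z9,z0,z5,z3]),(z5,[z3,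
    y3,z0,z0,y1]),(z1,[z0,z0,z0,z0,z1])],.ref k25 k0 [(z1,[z3,z3,z3,z1,z0,y3]),(z2,[y3,z0,z3,y1,z0,z3]),(z4,[y9,z0,y9,
    z1,z0,z9]),(z4,[z3,z0,z3,z1,z0,y3]),(z1,[z0,z0,z0,z0,z1])],.ref k25 k0 [(z1,[z3,z6,z6,z2,z2,y6]),(z2,[y3,y3,z0,y2,
    y2,z6]),(z4,[y9,y9,y18,y2,y6,z18]),(z4,[z3,z3,z6,z2,z2,y6]),(z1,[z0,z0,z0,z0,z1])],.ref k25 k0 [(z1,[y4,z3,z8]),
    (z1,[z2,z0,y1]),(z1,[z3,z0,y6,z1]),(z1,[y1,z0,z2]),(z1,[z0,z0,z0,z0,z1])],.ref k25 k0 [(z1,[y3,z3,z6,z0,z1]),(z2,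
    [z3,z0,z0,z0,y1]),(z4,[z9,z0,y18,z4,y3]),(z4,[y3,z0,z6,z0,z1]),(z1,[z0,z0,z0,z0,z1])],.ref k25 k0 [(z1,[y3,z0,z3,
    y1,y1,z3]),(z2,[z3,z3,z3,z1,z1,y3]),(z4,[z9,z9,y9,z7,z3,y9]),(z4,[y3,y3,z3,y1,y1,z3]),(z1,[z0,z0,z0,z0,z1])],
    .ref k25 k0 [(z5,[y12,z3,z0,z0,y4,z12]),(z5,[z6,z6,z15,z0,z2,y6]),(z5,[z9,z9,z0,z5,z3,y9]),(z5,[y3,y3,z0,z0,y1,
    z3]),(z1,[z0,z0,z0,z0,z1])],.ref k25 k0 [(z1,[y12,z3,z12,z0,z4]),(z1,[z6,z0,y3,z0,y2]),(z1,[z9,z0,y9,z1,y3]),(z1,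
    [y3,z0,z3,z0,z1]),(z1,[z0,z0,z0,z0,z1])],.ref k25 k0 [(z1,[y12,y9,z0,y4,y4,z12]),(z1,[z6,z6,z3,z2,z2,y6]),(z1,[z9,
    z9,z0,z4,z3,y9]),(z1,[y3,y3,z0,y1,y1,z3]),(z1,[z0,z0,z0,z0,z1])],.ref k25 k0 [(z1,[y6,y3,z0,y2,z0,z6]),(z1,[z3,z3,
    z3,z1,z0,y3]),(z2,[z9,z9,z0,z5,z0,y9]),(z2,[y3,y3,z0,y1,z0,z3]),(z1,[z0,z0,z0,z0,z1])],.ref k25 k0 [(z1,[y6,y9,y6,
    y4,y4,z12]),(z1,[z3,z6,z6,z2,z2,y6]),(z2,[z9,z18,z9,z8,z6,y18]),(z2,[y3,y6,y3,y2,y2,z6]),(z1,[z0,z0,z0,z0,z1])],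
    .ref k25 k0 [(z1,[y6,y3,y6,z0,y2,z6]),(z1,[z3,z3,z6,z0,z1,y3]),(z2,[z9,z9,z9,z2,z3,y9]),(z2,[y3,y3,y3,z0,y1,z3]),
    (z1,[z0,z0,z0,z0,z1])],.ref k25 k0 [(z1,[y4,y1,y4,z0,z0,z4]),(z1,[z2,z2,z5,z0,z0,y2]),(z1,[z3,z3,z3,z1,z0,y3]),
    (z1,[y1,y1,y1,z0,z0,z1]),(z1,[z0,z0,z0,z0,z1])],.ref k25 k0 [(z3,[y12,y15,y24,y4,y8,z24]),(z3,[z6,z12,z21,z2,z4,
    y12]),(z1,[z3,z6,z6,z2,z2,y6]),(z3,[y3,y6,y6,y1,y2,z6]),(z1,[z0,z0,z0,z0,z1])],.ref k25 k0 [(z1,[z12,z3,z0,z0,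
    y8]),(z1,[y6,z0,z3,z0,z4]),(z1,[y9,z0,z0,z1,z6]),(z1,[z3,z0,z0,z0,y2]),(z1,[z0,z0,z0,z0,z1])],.ref k25 k0 [(z1,
    [z12,z15,z12,z4,z0,y12]),(z1,[y6,y6,y3,y2,z0,z6]),(z1,[y9,y9,y9,y2,z0,z9]),(z1,[z3,z3,z3,z1,z0,y3]),(z1,[z0,z0,z0,
    z0,z1])],.ref k25 k0 [(z1,[z12,z27,z24,z8,z8,y24]),(z1,[y6,y12,y9,y4,y4,z12]),(z1,[y9,y18,y18,y5,y6,z18]),(z1,[z3,
    z6,z6,z2,z2,y6]),(z1,[z0,z0,z0,z0,z1])]],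
    .lp k0 [(nat_lit 2046),(nat_lit 2008),(nat_lit 2298),(nat_lit 2478),(nat_lit 2046),(nat_lit 2030)] [(nat_lit 216),
    (nat_lit 216),(nat_lit 235),(nat_lit 235),k90,k90,k0,k0,(nat_lit 216),(nat_lit 216),(nat_lit 224),
    (nat_lit 224)] k0 [[k0,k0,k0,k0,k0,k0,k128,k182,(nat_lit 344),k110,k0,(nat_lit 418)],[k0,k0,k88,k52,k52,k106,k0,
    k0,k0,k0,k0,k0],[k52,k0,k0,k0,k0,k18,k0,k18,k36,k0,k0,k146],[k88,k0,k0,k0,k0,k0,k0,k198,(nat_lit 360),k0,k0,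
    (nat_lit 470)],[k106,k0,k0,k18,k0,k0,k0,k0,k0,k0,k0,k92],[k52,k0,k0,k0,k0,k0,k162,k0,k18,k0,k0,k128],[k0,k182,
    k198,k18,k0,k0,k0,k0,k0,(nat_lit 360),k52,k0],[k0,k128,k0,k0,k162,k0,k0,k0,k0,k162,k70,k0],[k0,k110,k0,k0,k0,k0,
    k162,(nat_lit 360),k0,k0,(nat_lit 376),k0],[k0,(nat_lit 344),(nat_lit 360),k36,k18,k0,k0,k0,k0,k0,(nat_lit 322),
    k0],[k0,(nat_lit 418),(nat_lit 470),k146,k128,k92,k0,k0,k0,k0,k0,k0],[k0,k0,k0,k0,k0,k0,k70,k52,(nat_lit 322),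
    (nat_lit 376),k14,k0]] (nat_lit 6480) k5
    [[(k8,(nat_lit 1670)),(k11,(nat_lit 1716)),(k9,(nat_lit 1976)),(k1,(nat_lit 2032)),(k10,(nat_lit 2038)),(k0,
    (nat_lit 2046)),(k6,(nat_lit 2210)),(k4,(nat_lit 2300)),(k5,(nat_lit 2318)),(k7,(nat_lit 2354)),(k3,
    (nat_lit 2445)),(k2,(nat_lit 2497))],[(k10,(nat_lit 1620)),(k11,(nat_lit 1694)),(k9,(nat_lit 1918)),(k8,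
    (nat_lit 1936)),(k3,(nat_lit 2027)),(k0,(nat_lit 2046)),(k1,(nat_lit 2046)),(k6,(nat_lit 2080)),(k2,
    (nat_lit 2115)),(k4,(nat_lit 2224)),(k5,(nat_lit 2224)),(k7,(nat_lit 2368))],[(k2,(nat_lit 1956)),(k3,
    (nat_lit 2008)),(k10,(nat_lit 2019)),(k0,(nat_lit 2027)),(k4,(nat_lit 2047)),(k5,(nat_lit 2065)),(k11,
    (nat_lit 2129)),(k7,(nat_lit 2191)),(k9,(nat_lit 2209)),(k6,(nat_lit 2371)),(k8,(nat_lit 2371)),(k1,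
    (nat_lit 2445))],[(k10,(nat_lit 1873)),(k3,(nat_lit 1956)),(k11,(nat_lit 1983)),(k2,(nat_lit 2008)),(k0,
    (nat_lit 2115)),(k4,(nat_lit 2135)),(k5,(nat_lit 2153)),(k6,(nat_lit 2225)),(k9,(nat_lit 2225)),(k7,
    (nat_lit 2243)),(k8,(nat_lit 2387)),(k1,(nat_lit 2497))],[(k10,(nat_lit 1694)),(k11,(nat_lit 1804)),(k3,
    (nat_lit 2065)),(k2,(nat_lit 2153)),(k6,(nat_lit 2190)),(k9,(nat_lit 2190)),(k8,(nat_lit 2208)),(k0,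
    (nat_lit 2224)),(k4,(nat_lit 2298)),(k5,(nat_lit 2298)),(k1,(nat_lit 2318)),(k7,(nat_lit 2406))],[(k3,
    (nat_lit 2047)),(k10,(nat_lit 2072)),(k2,(nat_lit 2135)),(k11,(nat_lit 2164)),(k9,(nat_lit 2172)),(k8,
    (nat_lit 2190)),(k0,(nat_lit 2224)),(k4,(nat_lit 2298)),(k5,(nat_lit 2298)),(k1,(nat_lit 2300)),(k7,
    (nat_lit 2388)),(k6,(nat_lit 2550))],[(k9,(nat_lit 2100)),(k10,(nat_lit 2126)),(k3,(nat_lit 2191)),(k11,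
    (nat_lit 2236)),(k2,(nat_lit 2243)),(k8,(nat_lit 2262)),(k1,(nat_lit 2354)),(k0,(nat_lit 2368)),(k4,
    (nat_lit 2388)),(k5,(nat_lit 2406)),(k6,(nat_lit 2478)),(k7,(nat_lit 2478))],[(k8,(nat_lit 1902)),(k0,
    (nat_lit 2080)),(k5,(nat_lit 2190)),(k1,(nat_lit 2210)),(k2,(nat_lit 2225)),(k9,(nat_lit 2262)),(k10,
    (nat_lit 2324)),(k3,(nat_lit 2371)),(k11,(nat_lit 2416)),(k6,(nat_lit 2478)),(k7,(nat_lit 2478)),(k4,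
    (nat_lit 2550))],[(k8,(nat_lit 1884)),(k0,(nat_lit 1918)),(k1,(nat_lit 1976)),(k9,(nat_lit 2046)),(k10,
    (nat_lit 2090)),(k7,(nat_lit 2100)),(k4,(nat_lit 2172)),(k5,(nat_lit 2190)),(k3,(nat_lit 2209)),(k2,
    (nat_lit 2225)),(k6,(nat_lit 2262)),(k11,(nat_lit 2398))],[(k1,(nat_lit 1670)),(k9,(nat_lit 1884)),(k6,
    (nat_lit 1902)),(k0,(nat_lit 1936)),(k11,(nat_lit 2038)),(k8,(nat_lit 2046)),(k4,(nat_lit 2190)),(k5,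
    (nat_lit 2208)),(k7,(nat_lit 2262)),(k10,(nat_lit 2360)),(k3,(nat_lit 2371)),(k2,(nat_lit 2387))],[(k0,
    (nat_lit 1694)),(k1,(nat_lit 1716)),(k5,(nat_lit 1804)),(k2,(nat_lit 1983)),(k11,(nat_lit 2030)),(k8,
    (nat_lit 2038)),(k3,(nat_lit 2129)),(k4,(nat_lit 2164)),(k7,(nat_lit 2236)),(k9,(nat_lit 2398)),(k10,
    (nat_lit 2406)),(k6,(nat_lit 2416))],[(k0,(nat_lit 1620)),(k5,(nat_lit 1694)),(k2,(nat_lit 1873)),(k3,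
    (nat_lit 2019)),(k1,(nat_lit 2038)),(k10,(nat_lit 2044)),(k4,(nat_lit 2072)),(k9,(nat_lit 2090)),(k7,
    (nat_lit 2126)),(k6,(nat_lit 2324)),(k8,(nat_lit 2360)),(k11,(nat_lit 2406))]]
    [[k3,k0,k0,k0,k0,k0],[k2,k0,k0,k0,k1,k0],[k2,k0,k0,k0,k0,k1],[k2,k1,k0,k0,k0,k0],[k1,k1,k0,k0,k0,k1],[k1,k0,k1,k0,
    k1,k0],[k1,k0,k1,k0,k0,k1],[k1,k0,k0,k1,k1,k0],[k1,k0,k0,k1,k0,k1],[k1,k1,k0,k0,k1,k0],[k1,k0,k0,k0,k2,k0],[k1,k0,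
    k0,k0,k1,k1],[k1,k0,k0,k0,k0,k2],[k0,k3,k0,k0,k0,k0],[k0,k2,k1,k0,k0,k0],[k0,k2,k0,k1,k0,k0],[k0,k2,k0,k0,k0,k1],
    [k0,k1,k1,k0,k0,k1],[k0,k1,k0,k1,k1,k0],[k0,k1,k0,k0,k1,k1],[k0,k1,k0,k0,k0,k2],[k0,k0,k2,k0,k0,k1],[k0,k0,k1,k0,
    k2,k0],[k0,k0,k1,k0,k1,k1],[k0,k0,k1,k0,k0,k2],[k0,k0,k0,k1,k2,k0],[k0,k0,k0,k1,k1,k1],[k0,k0,k0,k0,k3,k0],[k0,k0,
    k0,k0,k2,k1]]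
    [.ref k150 k8 [(z4,[y1,z3,z0,z4]),(z4,[z1,y3]),(z1,[z0,y1,y1,y1,z1]),(z1,[z1])],.ref k151 k0 [(z2,[z1,z1,z1,z1,
    y1]),(z2,[y1,z1,z3,y1,z1]),(z2,[y3,z3,y3,z5,z3]),(z2,[z1,y1,z1,z1,y1])],.ref k152 k5 [(z1,[y2,z3,y1,y1,z1]),(z1,
    [z1,y2]),(z1,[z0,z1]),(z1,[z0,z0,z1])],.ref k150 k8 [(z2,[y1,z2,z1,z2]),(z2,[z1,y2,y1]),(z1,[z0,y1,y1,y1,z1]),(z1,
    [z2,y1,y2])],.ref k153 k5 [(z1,[y2,z1,z1,y1,z1]),(z1,[z1,y1,y1]),(z1,[z0,z1]),(z1,[z0,z0,z1])],.ref k64 k0 [(z1,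
    [z4,z1,z4,z0,y4]),(z1,[y2,z0,y1,z0,z2]),(z1,[y3,z0,y3,z1,z3]),(z1,[z1,z0,z1,z0,y1])],.ref k154 k8 [(z1,[z2,y2,y7,
    z2]),(z1,[z0,z0,z1]),(z1,[y2,z0,y1,z0,z2]),(z1,[z2,y2,y1,y2])],.ref k155 k10 [(z1,[z2,z0,z3,y2,y2]),(z1,[y4,z1,y4,
    z4,z4]),(z1,[y3,z0,y3,z2,z3]),(z1,[z6,y1,z5,y5,y5])],.ref k156 k5 [(z1,[y2,z1,y1,y1,z1]),(z1,[z1,y1]),(z1,[z0,
    z1]),(z1,[z0,z0,z1])],.ref k64 k0 [(z1,[z2,z1,z0,z2,y2]),(z1,[y1,z0,z1,y1,z1]),(z2,[y3,z0,z0,y1,z3]),(z2,[z1,z0,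
    z0,z1,y1])],.ref k64 k0 [(z1,[z1,z2,z2,z2,y2]),(z2,[y1,y1,z0,y2,z2]),(z4,[y3,y3,y6,y2,z6]),(z4,[z1,z1,z2,z2,y2])],
    .ref k151 k0 [(z1,[z1,z1,z1,z1,y1]),(z1,[y1,z0,z1,y1,z1]),(z1,[y3,z0,y3,z1,z3]),(z1,[z1,z0,z1,z1,y1])],
    .ref k153 k5 [(z1,[y1,z0,y1,y1,z1]),(z2,[z1,y1]),(z1,[z0,z1]),(z1,[z0,z0,z1])],.ref k150 k8 [(z2,[z1,z0,y3,z2]),
    (z2,[y1,z0,z3]),(z1,[z0,y1,y1,y1,z1]),(z1,[y2,z3,z6])],.ref k157 k1 [(z1,[z1,z0,y2]),(z1,[z0,z0,z1]),(z1,[z0,z1]),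
    (z1,[z1,z0,y2,y1])],.ref k150 k8 [(z1,[z1,z0,y2,z1]),(z1,[y1,z0,z2]),(z1,[z0,y1,y1,y1,z1]),(z1,[y4,z3,z8])],
    .ref k151 k0 [(z1,[y1,z1,z2]),(z1,[z1]),(z1,[z3,z0,y6,z4]),(z1,[y1,z0,z2])],.ref k155 k10 [(z1,[y2,z0,z3,y2]),(z1,
    [z4,z1,y4,z4]),(z1,[z3,z0,y3,z2]),(z1,[y6,y1,z5,y5,z1])],.ref k154 k8 [(z1,[y2,y2,y7,z2,z2]),(z1,[z0,z0,z1]),(z1,
    [z2,z0,y1]),(z1,[y2,y2,y1,y2,z2])],.ref k153 k5 [(z1,[z2,z1,y1,z1,y1]),(z1,[y1,y1,z0,y1,z1]),(z1,[z0,z1]),(z1,[z0,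
    z0,z1])],.ref k64 k0 [(z1,[y2,z1,z2]),(z1,[z1]),(z2,[z3,z0,y3,z2]),(z2,[y1,z0,z1])],.ref k158 k0 [(z1,[y2,z3,z0,
    z4]),(z1,[z1,z0,z3,y2]),(z1,[z1]),(z1,[y1,z0,z0,z2])],.ref k144 k8 [(z1,[y1,y2,y8,z2,z2]),(z1,[z0,z0,z1]),(z1,[z2,
    z1,z4,y1,y1]),(z1,[y2,y4,y7,y2,z4])],.ref k150 k8 [(z1,[z1,z1,z1,z1,y1]),(z1,[y1,y1,y1,z0,z1]),(z1,[z0,y1,y1,y1,
    z1]),(z1,[y4,y1,y4,z0,z4])],.ref k64 k0 [(z3,[y4,z3,z0,z4]),(z3,[z2,z0,z3,y2]),(z1,[z1]),(z3,[y1,z0,z0,z1])],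
    .ref k159 k0 [(z1,[z4,z9,z8,z8,y8]),(z1,[y2,y4,y3,y4,z4]),(z1,[y3,y6,y6,y5,z6]),(z1,[z1,z2,z2,z2,y2])],
    .ref k64 k0 [(z1,[z4,z5,z4,z4,y4]),(z1,[y2,y2,y1,y2,z2]),(z1,[y3,y3,y3,y2,z3]),(z1,[z1,z1,z1,z1,y1])],
    .ref k160 k0 [(z1,[z0,z1]),(z1,[z0,z0,z1]),(z2,[y1,y3,y3,z3,z3]),(z1,[z1])],.ref k160 k0 [(z1,[z0,z1]),(z1,[z0,z0,
    z1]),(z1,[y1,y2,y2,z1,z2]),(z1,[z2,z1,z1,z1,y1])]],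
    .lp k0 [(nat_lit 324),(nat_lit 324),(nat_lit 300),(nat_lit 316),(nat_lit 326),(nat_lit 322)] [k1,k1,k1,k1,k13,k13,
    k5,k5,k0,k0,k2,k2] k0 [[k0,k0,k12,k0,k0,k0,k0,k0,k2,k0,k0,k4],[k0,k0,k4,k0,k52,k0,k0,k0,k2,k0,k0,k24],[k0,k0,k0,
    k0,k80,k0,k0,k12,k14,k14,k16,k52],[k4,k12,k16,k0,k12,k0,k0,k0,k0,k0,k0,k0],[k0,k0,k0,k0,k0,k4,k4,k0,k0,k2,k0,k0],
    [k52,k0,k12,k80,k0,k0,k0,k0,k0,k0,k0,k0],[k0,k0,k0,k12,k0,k0,k0,k0,k0,k0,k0,k0],[k0,k0,k0,k0,k0,k4,k4,k0,k0,k2,k0,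
    k0],[k0,k0,k0,k14,k0,k2,k2,k0,k0,k0,k2,k0],[k2,k2,k0,k14,k0,k0,k0,k0,k0,k0,k2,k0],[k24,k4,k0,k52,k0,k0,k0,k0,k0,
    k0,k0,k0],[k0,k0,k0,k16,k0,k0,k0,k0,k2,k2,k2,k0]] (nat_lit 960) k5
    [[(k2,(nat_lit 308)),(k4,(nat_lit 312)),(k6,(nat_lit 320)),(k7,(nat_lit 320)),(k11,(nat_lit 321)),(k1,
    (nat_lit 322)),(k8,(nat_lit 323)),(k10,(nat_lit 323)),(k9,(nat_lit 325)),(k3,(nat_lit 328)),(k0,(nat_lit 348)),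
    (k5,(nat_lit 364))],[(k5,(nat_lit 300)),(k10,(nat_lit 319)),(k6,(nat_lit 320)),(k7,(nat_lit 320)),(k11,
    (nat_lit 321)),(k0,(nat_lit 324)),(k3,(nat_lit 324)),(k9,(nat_lit 325)),(k8,(nat_lit 327)),(k2,(nat_lit 328)),(k1,
    (nat_lit 348)),(k4,(nat_lit 364))],[(k7,(nat_lit 268)),(k10,(nat_lit 299)),(k5,(nat_lit 308)),(k4,(nat_lit 312)),
    (k6,(nat_lit 320)),(k11,(nat_lit 321)),(k0,(nat_lit 324)),(k3,(nat_lit 324)),(k9,(nat_lit 325)),(k8,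
    (nat_lit 327)),(k1,(nat_lit 328)),(k2,(nat_lit 336))],[(k7,(nat_lit 240)),(k10,(nat_lit 271)),(k1,(nat_lit 308)),
    (k6,(nat_lit 308)),(k11,(nat_lit 309)),(k8,(nat_lit 311)),(k5,(nat_lit 312)),(k4,(nat_lit 324)),(k9,
    (nat_lit 325)),(k0,(nat_lit 328)),(k3,(nat_lit 336)),(k2,(nat_lit 340))],[(k5,(nat_lit 284)),(k7,(nat_lit 296)),
    (k0,(nat_lit 300)),(k3,(nat_lit 308)),(k6,(nat_lit 308)),(k2,(nat_lit 312)),(k9,(nat_lit 325)),(k11,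
    (nat_lit 325)),(k8,(nat_lit 327)),(k10,(nat_lit 327)),(k1,(nat_lit 364)),(k4,(nat_lit 380))],[(k4,(nat_lit 296)),
    (k6,(nat_lit 308)),(k7,(nat_lit 308)),(k9,(nat_lit 309)),(k8,(nat_lit 311)),(k10,(nat_lit 311)),(k11,
    (nat_lit 311)),(k1,(nat_lit 312)),(k3,(nat_lit 312)),(k2,(nat_lit 324)),(k0,(nat_lit 364)),(k5,(nat_lit 380))],
    [(k2,(nat_lit 240)),(k3,(nat_lit 268)),(k5,(nat_lit 296)),(k4,(nat_lit 308)),(k10,(nat_lit 319)),(k0,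
    (nat_lit 320)),(k1,(nat_lit 320)),(k6,(nat_lit 320)),(k7,(nat_lit 320)),(k8,(nat_lit 321)),(k9,(nat_lit 321)),
    (k11,(nat_lit 321))],[(k2,(nat_lit 308)),(k4,(nat_lit 308)),(k5,(nat_lit 308)),(k10,(nat_lit 319)),(k0,
    (nat_lit 320)),(k1,(nat_lit 320)),(k3,(nat_lit 320)),(k6,(nat_lit 320)),(k7,(nat_lit 320)),(k8,(nat_lit 321)),(k9,
    (nat_lit 321)),(k11,(nat_lit 321))],[(k4,(nat_lit 309)),(k6,(nat_lit 321)),(k7,(nat_lit 321)),(k9,(nat_lit 322)),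
    (k8,(nat_lit 324)),(k10,(nat_lit 324)),(k11,(nat_lit 324)),(k0,(nat_lit 325)),(k1,(nat_lit 325)),(k2,
    (nat_lit 325)),(k3,(nat_lit 325)),(k5,(nat_lit 325))],[(k2,(nat_lit 311)),(k4,(nat_lit 311)),(k6,(nat_lit 321)),
    (k7,(nat_lit 321)),(k1,(nat_lit 323)),(k9,(nat_lit 324)),(k11,(nat_lit 324)),(k8,(nat_lit 326)),(k10,
    (nat_lit 326)),(k0,(nat_lit 327)),(k3,(nat_lit 327)),(k5,(nat_lit 327))],[(k2,(nat_lit 309)),(k4,(nat_lit 311)),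
    (k0,(nat_lit 321)),(k1,(nat_lit 321)),(k3,(nat_lit 321)),(k6,(nat_lit 321)),(k7,(nat_lit 321)),(k11,
    (nat_lit 322)),(k8,(nat_lit 324)),(k9,(nat_lit 324)),(k10,(nat_lit 324)),(k5,(nat_lit 325))],[(k2,(nat_lit 271)),
    (k3,(nat_lit 299)),(k4,(nat_lit 311)),(k0,(nat_lit 319)),(k6,(nat_lit 319)),(k7,(nat_lit 319)),(k1,(nat_lit 323)),
    (k9,(nat_lit 324)),(k10,(nat_lit 324)),(k11,(nat_lit 324)),(k8,(nat_lit 326)),(k5,(nat_lit 327))]]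
    [[k1,k1,k1,k0,k0,k0],[k1,k1,k0,k1,k0,k0],[k1,k1,k0,k0,k0,k1],[k1,k0,k1,k1,k0,k0],[k1,k0,k1,k0,k0,k1],[k1,k0,k1,k0,
    k1,k0],[k0,k2,k0,k1,k0,k0],[k0,k2,k0,k0,k0,k1],[k0,k1,k2,k0,k0,k0],[k0,k1,k1,k1,k0,k0],[k0,k1,k1,k0,k1,k0],[k0,k1,
    k1,k0,k0,k1],[k0,k1,k0,k2,k0,k0],[k0,k1,k0,k1,k1,k0],[k0,k1,k0,k1,k0,k1],[k0,k1,k0,k0,k1,k1],[k0,k1,k0,k0,k0,k2],
    [k0,k0,k2,k1,k0,k0],[k0,k0,k2,k0,k1,k0],[k0,k0,k2,k0,k0,k1],[k0,k0,k1,k2,k0,k0],[k0,k0,k1,k1,k1,k0],[k0,k0,k1,k1,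
    k0,k1]]
    [.ref k135 k0 [(z1,[y1,z1,z1]),(z1,[z2,y1,y1]),(z1,[y2,z1,z2])],.ref k136 k2 [(z1,[z1,y1,y1]),(z1,[y1,z1,z2,y1]),
    (z1,[z0,z1,z1])],.ref k46 k9 [(z1,[z1,y1,y1]),(z1,[y1,z0,y1,z2]),(z1,[y1,z0,z1])],.ref k108 k10 [(z1,[y2,z1,z1]),
    (z1,[z1]),(z1,[z2,y1])],.ref k137 k2 [(z1,[y1,y1,y1,z1]),(z1,[z1,z1,z2,y2]),(z1,[z0,z1,z1])],.ref k138 k10 [(z1,
    [y2,z1,z1]),(z1,[z1]),(z1,[z0,y1,y2,z2])],.ref k146 k2 [(z1,[z1,y2,y2]),(z1,[y1,z2,z3,y1]),(z1,[z0,z1,z1])],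
    .ref k108 k10 [(z1,[z1,z0,y1]),(z2,[y1,z1,z2]),(z1,[y1,z0,z2])],.ref k135 k0 [(z2,[y1,z1,z1]),(z1,[z1]),(z1,[y1,
    z0,z1])],.ref k147 k1 [(z1,[y1,z1,z3,y2]),(z1,[z2,y1,y3,z2]),(z1,[y1,z1,z2,y1])],.ref k148 k9 [(z1,[y2,z1,z0,z2]),
    (z1,[z1,y1,y1]),(z1,[z1,y1,z0,y1])],.ref k149 k10 [(z1,[z1,z1,z2,y2]),(z1,[y1,z0,y1,z2]),(z1,[z0,y1,y2,z2])],
    .ref k136 k2 [(z2,[z1,y1,y1]),(z2,[y1,z1,z3,y2]),(z1,[z0,z1,z1])],.ref k137 k2 [(z1,[z1,y1,y1]),(z1,[y1,z1,z2,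
    y1]),(z1,[z0,z1,z1])],.ref k138 k10 [(z1,[z2,z1,z1,y2]),(z1,[y1,z0,z0,z1]),(z1,[z0,y1,y2,z2])],.ref k108 k10 [(z1,
    [z2,z1,z1,y2]),(z1,[y1,z0,z0,z1]),(z1,[y2,y1,z0,z2])],.ref k46 k9 [(z2,[z1,y1,y1]),(z2,[y1,y1,y3,z4]),(z2,[y1,y1,
    z1])],.ref k138 k10 [(z1,[y2,z1,z3,y2]),(z1,[z1,z0,y1,z1]),(z1,[z0,y1,y2,z2])],.ref k161 k9 [(z1,[y2,y1,y2,z2]),
    (z1,[z1]),(z1,[z1,z0,z1,y1])],.ref k136 k2 [(z2,[y1,y1]),(z2,[z1,z1,z2,y2]),(z1,[z0,z1,z1])],.ref k149 k10 [(z1,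
    [y1,z1,z3,y2]),(z1,[z1,z0,y2,z2]),(z1,[z0,y1,y2,z2])],.ref k46 k9 [(z1,[y1,y1,y1,z1]),(z1,[z1,z0,y1,z1]),(z1,[z1,
    z0,z1,y1])],.ref k147 k1 [(z1,[z1,z1,z2,y2]),(z1,[y2,y1,y1,z2]),(z1,[z1,z1,z1,y1])]],
    .lp k0 [k84,k70,k82,k80,k80,k82] [k0,k0,k7,k7,k1,k1,k2,k2,k2,k2,k1,k1] k0 [[k0,k6,k18,k0,k0,k0,k0,k0,k0,k0,k0,
    k10],[k0,k0,k10,k0,k8,k0,k0,k0,k0,k0,k0,k8],[k0,k0,k0,k0,k10,k0,k0,k0,k0,k0,k0,k10],[k10,k18,k6,k0,k0,k0,k0,k0,k0,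
    k0,k0,k0],[k0,k0,k0,k0,k0,k0,k0,k2,k0,k0,k0,k0],[k8,k0,k0,k10,k0,k0,k0,k0,k2,k0,k0,k0],[k0,k0,k0,k0,k0,k2,k0,k0,
    k2,k0,k0,k0],[k0,k0,k0,k0,k0,k0,k0,k0,k0,k0,k0,k0],[k0,k0,k0,k0,k0,k0,k0,k0,k0,k2,k2,k0],[k0,k0,k0,k0,k2,k0,k0,k2,
    k0,k0,k0,k0],[k8,k10,k0,k10,k0,k0,k0,k0,k0,k0,k0,k0],[k0,k0,k0,k0,k0,k0,k0,k0,k0,k2,k0,k0]] (nat_lit 240) k5
    [[(k2,k77),(k8,k80),(k6,k82),(k7,k82),(k9,k82),(k4,k83),(k10,k83),(k11,k83),(k1,k84),(k3,k87),(k0,k92),(k5,k93)],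
    [(k5,k65),(k10,k73),(k3,k77),(k0,k78),(k6,k82),(k7,k82),(k8,k82),(k9,k82),(k11,k83),(k2,k87),(k4,k91),(k1,k92)],
    [(k5,k66),(k7,k67),(k10,k68),(k6,k75),(k8,k75),(k9,k75),(k3,k76),(k4,k76),(k11,k76),(k0,k77),(k1,k87),(k2,k88)],
    [(k7,k65),(k10,k66),(k6,k75),(k8,k75),(k9,k75),(k2,k76),(k4,k76),(k5,k76),(k11,k76),(k1,k77),(k0,k87),(k3,k88)],
    [(k0,k65),(k3,k66),(k2,k76),(k5,k76),(k6,k81),(k7,k81),(k8,k81),(k9,k81),(k10,k82),(k11,k82),(k4,k92),(k1,k93)],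
    [(k2,k76),(k3,k76),(k6,k79),(k7,k81),(k9,k81),(k4,k82),(k10,k82),(k11,k82),(k1,k83),(k8,k83),(k0,k91),(k5,k92)],
    [(k2,k65),(k3,k67),(k11,k79),(k6,k80),(k7,k80),(k8,k80),(k4,k81),(k5,k81),(k10,k81),(k0,k82),(k1,k82),(k9,k82)],
    [(k2,k75),(k3,k75),(k4,k79),(k11,k79),(k6,k80),(k7,k80),(k8,k80),(k9,k80),(k5,k81),(k10,k81),(k0,k82),(k1,k82)],
    [(k2,k75),(k3,k75),(k6,k80),(k9,k80),(k4,k81),(k5,k81),(k10,k81),(k11,k81),(k0,k82),(k1,k82),(k7,k82),(k8,k82)],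
    [(k2,k75),(k3,k75),(k8,k78),(k1,k80),(k6,k80),(k7,k80),(k5,k81),(k10,k81),(k11,k81),(k0,k82),(k9,k82),(k4,k83)],
    [(k2,k76),(k3,k76),(k6,k79),(k7,k79),(k8,k81),(k9,k81),(k4,k82),(k5,k82),(k0,k83),(k1,k83),(k10,k84),(k11,k84)],
    [(k2,k66),(k3,k68),(k0,k73),(k6,k81),(k7,k81),(k8,k81),(k9,k81),(k4,k82),(k5,k82),(k10,k82),(k1,k83),(k11,k84)]]
    [[k1,k1,k1,k0,k0,k0],[k1,k1,k0,k1,k0,k0],[k1,k1,k0,k0,k1,k0],[k1,k1,k0,k0,k0,k1],[k1,k0,k1,k0,k0,k1],[k1,k0,k1,k1,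
    k0,k0],[k1,k0,k0,k1,k0,k1],[k1,k0,k1,k0,k1,k0],[k1,k0,k0,k0,k1,k1],[k0,k2,k1,k0,k0,k0],[k0,k2,k0,k1,k0,k0],[k0,k2,
    k0,k0,k1,k0],[k0,k2,k0,k0,k0,k1],[k0,k1,k2,k0,k0,k0],[k0,k1,k1,k1,k0,k0],[k0,k1,k1,k0,k1,k0],[k0,k1,k1,k0,k0,k1],
    [k0,k1,k0,k2,k0,k0],[k0,k1,k0,k1,k1,k0],[k0,k1,k0,k1,k0,k1],[k0,k1,k0,k0,k2,k0],[k0,k1,k0,k0,k1,k1],[k0,k1,k0,k0,
    k0,k2],[k0,k0,k2,k1,k0,k0]]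
    [.ref k0 k0 [(z1,[y1,z1,z1]),(z1,[z2,y1,y1])],.ref k1 k2 [(z1,[z1,y1,y1]),(z1,[y1,z0,z1])],.ref k2 k0 [(z1,[y1,z1,
    z1]),(z1,[z2,y1,y1])],.ref k3 k0 [(z1,[y1,z1,z1]),(z1,[z2,y1,y1])],.ref k4 k2 [(z1,[y1,y1]),(z1,[z1])],
    .ref k5 k10 [(z1,[y2,z1,z1]),(z1,[z1])],.ref k6 k11 [(z1,[z0,z1,z1]),(z1,[z2,y1,y1])],.ref k7 k10 [(z1,[y2,z1,
    z1]),(z1,[z1])],.ref k8 k11 [(z1,[z0,z1,z1]),(z1,[z2,y1,y1])],.ref k42 k10 [(z1,[z1]),(z1,[y1,z2,z2])],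
    .ref k73 k2 [(z1,[z1,y2,y2]),(z1,[y1,z1,z2])],.ref k105 k4 [(z1,[z1,y2,y2]),(z1,[y1,z1,z2])],.ref k133 k5 [(z1,
    [y2,y1,z1]),(z1,[z1])],.ref k0 k0 [(z2,[y1,z1,z1]),(z1,[z1])],.ref k8 k11 [(z1,[z0,z1,z1]),(z1,[y2,y1,z1])],
    .ref k6 k11 [(z1,[z0,z1,z1]),(z1,[y2,y1,z1])],.ref k134 k10 [(z1,[z2,z1,y1]),(z1,[y1,z0,z1])],.ref k1 k2 [(z2,[z1,
    y1,y1]),(z2,[y1,y1,z1])],.ref k4 k2 [(z1,[z1,y1,y1]),(z1,[y1,z0,z1])],.ref k7 k10 [(z1,[z2,z1,y1]),(z1,[y1,z0,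
    z1])],.ref k2 k0 [(z2,[y1,z1,z1]),(z1,[z1])],.ref k5 k10 [(z1,[z2,z1,y1]),(z1,[y1,z0,z1])],.ref k3 k0 [(z2,[y1,z1,
    z1]),(z1,[z1])],.ref k162 k8 [(z1,[z2,z1,y1]),(z1,[y1,y1,z1])]],
    .base (.leafM k0 [k0,k1,k2,k3,k4,k5] [(z1,[y1,z1])] []),
    .base (.leafM k3 [k2,k3,k4,k5,k0,k1] [(z1,[z1])] []),
    .base (.leafM k3 [k0,k1,k2,k3,k4,k5] [(z3,[y1,z0,y1,z3])] []),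
    .base (.leafM k0 [k0,k1,k2,k3,k4,k5] [(z3,[z0,z1,z1])] [])]

theorem hB6_171_13 : blkB [0, 0, 0, 0, 0, 0] [] sp6 hS6_171 (pcls (n := 6) [0, 0, 0, 0, 0, 0]) hD6_171 560 13 hN6_171_13 = true := by
  decide +kernel

/-- nodes 168 to 179 -/
noncomputable def hN6_171_14 : List HM :=
  [.base (.leafM k1 [k0,k1,k2,k3,k4,k5] [(z3,[y1,z0,y1,z3]),(z3,[z1,z0,z1])] []),
    .lp k0 [(nat_lit 283360),(nat_lit 265650),(nat_lit 283360),(nat_lit 283360),(nat_lit 295680),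
    (nat_lit 283360)] [(nat_lit 6160),(nat_lit 6160),(nat_lit 15015),(nat_lit 15015),(nat_lit 6160),(nat_lit 6160),
    (nat_lit 6160),(nat_lit 6160),k0,k0,(nat_lit 6160),(nat_lit 6160)] k0 [[k0,k0,(nat_lit 53130),k0,k0,k0,k0,k0,k0,
    k0,k0,(nat_lit 38640)],[k0,k0,(nat_lit 38640),k0,(nat_lit 60720),k0,k0,k0,k0,k0,k0,(nat_lit 60720)],[k0,k0,k0,k0,
    (nat_lit 56672),k0,k0,k0,k0,k0,k0,(nat_lit 56672)],[(nat_lit 38640),(nat_lit 53130),k0,k0,k0,k0,k0,k0,k0,k0,k0,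
    k0],[k0,k0,k0,k0,k0,k0,k0,k0,k0,k0,k0,k0],[(nat_lit 60720),k0,k0,(nat_lit 56672),k0,k0,k0,k0,k0,k0,k0,k0],[k0,k0,
    k0,k0,k0,k0,k0,k0,k0,k0,k0,k0],[k0,k0,k0,k0,k0,k0,k0,k0,k0,k0,k0,k0],[k0,k0,k0,k0,k0,k0,k0,k0,k0,k0,k0,k0],[k0,k0,
    k0,k0,k0,k0,k0,k0,k0,k0,k0,k0],[(nat_lit 60720),(nat_lit 38640),k0,(nat_lit 56672),k0,k0,k0,k0,k0,k0,k0,k0],[k0,
    k0,k0,k0,k0,k0,k0,k0,k0,k0,k0,k0]] (nat_lit 850080) k5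
    [[(k2,(nat_lit 274505)),(k1,(nat_lit 283360)),(k4,(nat_lit 283360)),(k6,(nat_lit 283360)),(k7,(nat_lit 283360)),
    (k10,(nat_lit 283360)),(k11,(nat_lit 283360)),(k8,(nat_lit 289520)),(k9,(nat_lit 289520)),(k3,(nat_lit 313145)),
    (k5,(nat_lit 340032)),(k0,(nat_lit 344080))],[(k5,(nat_lit 230230)),(k10,(nat_lit 244720)),(k3,(nat_lit 274505)),
    (k0,(nat_lit 283360)),(k6,(nat_lit 283360)),(k7,(nat_lit 283360)),(k11,(nat_lit 283360)),(k8,(nat_lit 289520)),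
    (k9,(nat_lit 289520)),(k2,(nat_lit 313145)),(k1,(nat_lit 344080)),(k4,(nat_lit 344080))],[(k7,(nat_lit 213785)),
    (k10,(nat_lit 213785)),(k5,(nat_lit 235865)),(k3,(nat_lit 265650)),(k0,(nat_lit 274505)),(k4,(nat_lit 274505)),
    (k6,(nat_lit 274505)),(k11,(nat_lit 274505)),(k8,(nat_lit 280665)),(k9,(nat_lit 280665)),(k1,(nat_lit 313145)),
    (k2,(nat_lit 318780))],[(k7,(nat_lit 217833)),(k10,(nat_lit 217833)),(k2,(nat_lit 265650)),(k1,(nat_lit 274505)),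
    (k4,(nat_lit 274505)),(k5,(nat_lit 274505)),(k6,(nat_lit 274505)),(k11,(nat_lit 274505)),(k8,(nat_lit 280665)),
    (k9,(nat_lit 280665)),(k0,(nat_lit 313145)),(k3,(nat_lit 318780))],[(k0,(nat_lit 230230)),(k3,(nat_lit 235865)),
    (k2,(nat_lit 274505)),(k5,(nat_lit 283360)),(k6,(nat_lit 283360)),(k7,(nat_lit 283360)),(k10,(nat_lit 283360)),
    (k11,(nat_lit 283360)),(k8,(nat_lit 289520)),(k9,(nat_lit 289520)),(k1,(nat_lit 340032)),(k4,(nat_lit 340032))],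
    [(k2,(nat_lit 274505)),(k3,(nat_lit 274505)),(k1,(nat_lit 283360)),(k4,(nat_lit 283360)),(k6,(nat_lit 283360)),
    (k7,(nat_lit 283360)),(k10,(nat_lit 283360)),(k11,(nat_lit 283360)),(k8,(nat_lit 289520)),(k9,(nat_lit 289520)),
    (k5,(nat_lit 340032)),(k0,(nat_lit 344080))],[(k3,(nat_lit 213785)),(k2,(nat_lit 217833)),(k0,(nat_lit 283360)),
    (k1,(nat_lit 283360)),(k4,(nat_lit 283360)),(k5,(nat_lit 283360)),(k6,(nat_lit 283360)),(k7,(nat_lit 283360)),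
    (k10,(nat_lit 283360)),(k11,(nat_lit 283360)),(k8,(nat_lit 289520)),(k9,(nat_lit 289520))],[(k2,(nat_lit 274505)),
    (k3,(nat_lit 274505)),(k0,(nat_lit 283360)),(k1,(nat_lit 283360)),(k4,(nat_lit 283360)),(k5,(nat_lit 283360)),(k6,
    (nat_lit 283360)),(k7,(nat_lit 283360)),(k10,(nat_lit 283360)),(k11,(nat_lit 283360)),(k8,(nat_lit 289520)),(k9,
    (nat_lit 289520))],[(k2,(nat_lit 280665)),(k3,(nat_lit 280665)),(k0,(nat_lit 289520)),(k1,(nat_lit 289520)),(k4,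
    (nat_lit 289520)),(k5,(nat_lit 289520)),(k6,(nat_lit 289520)),(k7,(nat_lit 289520)),(k10,(nat_lit 289520)),(k11,
    (nat_lit 289520)),(k8,(nat_lit 295680)),(k9,(nat_lit 295680))],[(k2,(nat_lit 280665)),(k3,(nat_lit 280665)),(k0,
    (nat_lit 289520)),(k1,(nat_lit 289520)),(k4,(nat_lit 289520)),(k5,(nat_lit 289520)),(k6,(nat_lit 289520)),(k7,
    (nat_lit 289520)),(k10,(nat_lit 289520)),(k11,(nat_lit 289520)),(k8,(nat_lit 295680)),(k9,(nat_lit 295680))],[(k2,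
    (nat_lit 274505)),(k3,(nat_lit 274505)),(k0,(nat_lit 283360)),(k1,(nat_lit 283360)),(k4,(nat_lit 283360)),(k5,
    (nat_lit 283360)),(k6,(nat_lit 283360)),(k7,(nat_lit 283360)),(k10,(nat_lit 283360)),(k11,(nat_lit 283360)),(k8,
    (nat_lit 289520)),(k9,(nat_lit 289520))],[(k3,(nat_lit 213785)),(k2,(nat_lit 217833)),(k0,(nat_lit 244720)),(k1,
    (nat_lit 283360)),(k4,(nat_lit 283360)),(k5,(nat_lit 283360)),(k6,(nat_lit 283360)),(k7,(nat_lit 283360)),(k10,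
    (nat_lit 283360)),(k11,(nat_lit 283360)),(k8,(nat_lit 289520)),(k9,(nat_lit 289520))]]
    [[k2,k0,k0,k0,k0,k1],[k1,k1,k1,k0,k0,k0],[k1,k1,k0,k1,k0,k0],[k1,k1,k0,k0,k1,k0],[k1,k1,k0,k0,k0,k1],[k1,k0,k1,k0,
    k0,k1],[k1,k0,k1,k1,k0,k0],[k1,k0,k0,k1,k0,k1],[k1,k0,k1,k0,k1,k0],[k1,k0,k0,k0,k1,k1],[k1,k0,k0,k0,k0,k2],[k0,k2,
    k1,k0,k0,k0],[k0,k2,k0,k1,k0,k0],[k0,k2,k0,k0,k0,k1],[k0,k2,k0,k0,k1,k0],[k0,k1,k2,k0,k0,k0],[k0,k1,k1,k1,k0,k0],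
    [k0,k1,k1,k0,k1,k0],[k0,k1,k1,k0,k0,k1],[k0,k1,k0,k2,k0,k0],[k0,k1,k0,k1,k1,k0],[k0,k1,k0,k1,k0,k1],[k0,k1,k0,k0,
    k1,k1],[k0,k1,k0,k0,k0,k2]]
    [.ref k9 k6 [(z1,[z3,y2]),(z1,[z0,z1]),(z1,[z0,z0,z1])],.ref k9 k0 [(z1,[z0,z1]),(z1,[z0,z0,z1]),(z1,[z3,y1,y1])],
    .ref k43 k0 [(z1,[z0,z1]),(z1,[z0,z0,z1]),(z1,[y1,z0,z0,z1])],.ref k43 k10 [(z1,[z0,z0,z1]),(z1,[z0,z1]),(z1,[y1,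
    z0,z0,z1])],.ref k9 k6 [(z1,[z3,y1,y1]),(z1,[z0,z1]),(z1,[z0,z0,z1])],.ref k166 k0 [(z1,[z0,z1]),(z1,[z0,z0,z1]),
    (z1,[z3,y1])],.ref k167 k0 [(z1,[z0,z1]),(z1,[z0,z0,z1]),(z1,[z3,y1])],.ref k168 k0 [(z1,[z0,z1]),(z1,[z0,z0,z1]),
    (z1,[y3,z0,y1,z3])],.ref k168 k0 [(z1,[z0,z1]),(z1,[z0,z0,z1]),(z1,[z3,y1])],.ref k167 k0 [(z1,[z0,z1]),(z1,[z0,
    z0,z1]),(z1,[y3,z0,y1,z3])],.ref k9 k6 [(z2,[z3,y1]),(z1,[z0,z1]),(z1,[z0,z0,z1])],.ref k9 k0 [(z1,[z0,z1]),(z1,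
    [z0,z0,z1]),(z1,[z3,z0,y2])],.ref k43 k0 [(z1,[z0,z1]),(z1,[z0,z0,z1]),(z3,[y3,y1,z1,z3])],.ref k9 k6 [(z1,[z3,z0,
    y2]),(z1,[z0,z1]),(z1,[z0,z0,z1])],.ref k43 k10 [(z1,[z0,z0,z1]),(z1,[z0,z1]),(z3,[y3,y1,z1,z3])],.ref k9 k0 [(z1,
    [z0,z1]),(z1,[z0,z0,z1]),(z2,[z3,z0,y1])],.ref k167 k0 [(z1,[z0,z1]),(z1,[z0,z0,z1]),(z1,[z3,z0,y1])],
    .ref k168 k0 [(z1,[z0,z1]),(z1,[z0,z0,z1]),(z1,[z3,z0,y1])],.ref k166 k0 [(z1,[z0,z1]),(z1,[z0,z0,z1]),(z1,[z3,z0,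
    y1])],.ref k43 k0 [(z1,[z0,z1]),(z1,[z0,z0,z1]),(z6,[y3,y2,y1,z6])],.ref k166 k0 [(z1,[z0,z1]),(z1,[z0,z0,z1]),
    (z1,[y3,y1,z0,z3])],.ref k168 k0 [(z1,[z0,z1]),(z1,[z0,z0,z1]),(z1,[y3,y1,z0,z3])],.ref k167 k0 [(z1,[z0,z1]),(z1,
    [z0,z0,z1]),(z1,[y3,y1,z0,z3])],.ref k9 k6 [(z2,[z3,z0,y1]),(z1,[z0,z1]),(z1,[z0,z0,z1])]],
    .base (.leafM k0 [k2,k3,k4,k5,k0,k1] [(z3,[y1,y1,z3])] []),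
    .base (.leafM k3 [k1,k2,k3,k4,k5,k0] [(z3,[y1,y1,z3])] []),
    .base (.leafM k3 [k3,k4,k5,k0,k1,k2] [(z3,[z1,z1])] []),
    .base (.leafM k0 [k1,k2,k3,k4,k5,k0] [(z3,[y1,y1,z3])] []),
    .base (.leafM k0 [k2,k3,k4,k5,k0,k1] [(z1,[y1,y1,z0,z1])] []),
    .base (.leafM k3 [k5,k0,k1,k2,k3,k4] [(z1,[z1,z0,z1])] []),
    .base (.leafM k3 [k3,k4,k5,k0,k1,k2] [(z1,[z1,z1])] []),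
    .base (.leafM k3 [k5,k0,k1,k2,k3,k4] [(z1,[z0,y1,z0,z1])] []),
    .base (.leafM k3 [k0,k1,k2,k3,k4,k5] [(z1,[y1,z0,y1,z1])] []),
    .lp k0 [(nat_lit 636),(nat_lit 576),(nat_lit 696),(nat_lit 648),(nat_lit 668),(nat_lit 614)] [k30,k30,k60,k60,k0,
    k0,k24,k24,k14,k14,k41,k41] k0 [[k0,k56,k64,k0,k12,k0,k0,k0,k0,k0,k0,k0],[k0,k0,k0,k0,k4,k0,k0,k0,k10,k10,k56,
    k56],[k0,k0,k0,k0,k0,k0,k0,k0,k10,k10,k0,k46],[k0,k64,k72,k0,k12,k0,k0,k8,k0,k0,k0,k0],[k0,k0,k0,k0,k0,k48,k10,k0,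
    k0,k0,k38,k0],[k4,k12,k12,k0,k0,k0,k16,k0,k0,k0,k12,k0],[k0,k0,k8,k0,k0,k0,k0,k28,k38,k38,k0,k0],[k0,k0,k0,k0,k16,
    k10,k0,k0,k0,k0,k0,k68],[k10,k0,k0,k10,k0,k0,k0,k38,k0,k0,k90,k58],[k10,k0,k0,k10,k0,k0,k0,k38,k0,k0,k0,k0],[k56,
    k0,k0,k46,k0,k0,k68,k0,k0,k58,k0,k12],[k56,k0,k0,k0,k12,k38,k0,k0,k0,k90,k0,k0]] (nat_lit 1920) k5
    [[(k3,(nat_lit 550)),(k8,(nat_lit 562)),(k2,(nat_lit 606)),(k10,(nat_lit 625)),(k4,(nat_lit 628)),(k7,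
    (nat_lit 630)),(k1,(nat_lit 648)),(k9,(nat_lit 652)),(k11,(nat_lit 683)),(k0,(nat_lit 692)),(k6,(nat_lit 710)),
    (k5,(nat_lit 712))],[(k0,(nat_lit 580)),(k5,(nat_lit 602)),(k2,(nat_lit 606)),(k3,(nat_lit 606)),(k7,
    (nat_lit 630)),(k11,(nat_lit 635)),(k6,(nat_lit 642)),(k9,(nat_lit 652)),(k8,(nat_lit 662)),(k4,(nat_lit 670)),
    (k10,(nat_lit 681)),(k1,(nat_lit 692))],[(k10,(nat_lit 539)),(k1,(nat_lit 550)),(k11,(nat_lit 585)),(k0,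
    (nat_lit 606)),(k7,(nat_lit 608)),(k6,(nat_lit 612)),(k8,(nat_lit 612)),(k9,(nat_lit 622)),(k3,(nat_lit 632)),(k5,
    (nat_lit 636)),(k2,(nat_lit 640)),(k4,(nat_lit 648))],[(k10,(nat_lit 549)),(k11,(nat_lit 585)),(k0,(nat_lit 606)),
    (k1,(nat_lit 606)),(k6,(nat_lit 612)),(k7,(nat_lit 612)),(k8,(nat_lit 612)),(k9,(nat_lit 630)),(k5,(nat_lit 636)),
    (k3,(nat_lit 640)),(k2,(nat_lit 648)),(k4,(nat_lit 648))],[(k0,(nat_lit 602)),(k5,(nat_lit 624)),(k2,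
    (nat_lit 636)),(k3,(nat_lit 636)),(k10,(nat_lit 655)),(k7,(nat_lit 660)),(k6,(nat_lit 664)),(k11,(nat_lit 665)),
    (k9,(nat_lit 682)),(k8,(nat_lit 692)),(k4,(nat_lit 696)),(k1,(nat_lit 712))],[(k1,(nat_lit 628)),(k2,
    (nat_lit 648)),(k3,(nat_lit 648)),(k4,(nat_lit 648)),(k11,(nat_lit 655)),(k10,(nat_lit 667)),(k0,(nat_lit 670)),
    (k7,(nat_lit 672)),(k9,(nat_lit 672)),(k8,(nat_lit 682)),(k6,(nat_lit 688)),(k5,(nat_lit 696))],[(k3,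
    (nat_lit 608)),(k2,(nat_lit 612)),(k0,(nat_lit 630)),(k1,(nat_lit 630)),(k11,(nat_lit 631)),(k9,(nat_lit 642)),
    (k6,(nat_lit 658)),(k8,(nat_lit 658)),(k5,(nat_lit 660)),(k10,(nat_lit 669)),(k4,(nat_lit 672)),(k7,
    (nat_lit 696))],[(k11,(nat_lit 593)),(k2,(nat_lit 612)),(k3,(nat_lit 612)),(k6,(nat_lit 620)),(k8,(nat_lit 620)),
    (k10,(nat_lit 631)),(k0,(nat_lit 642)),(k7,(nat_lit 658)),(k9,(nat_lit 658)),(k5,(nat_lit 664)),(k4,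
    (nat_lit 688)),(k1,(nat_lit 710))],[(k10,(nat_lit 573)),(k3,(nat_lit 622)),(k2,(nat_lit 630)),(k7,(nat_lit 642)),
    (k0,(nat_lit 652)),(k1,(nat_lit 652)),(k6,(nat_lit 658)),(k4,(nat_lit 672)),(k11,(nat_lit 679)),(k5,
    (nat_lit 682)),(k9,(nat_lit 696)),(k8,(nat_lit 706))],[(k1,(nat_lit 562)),(k10,(nat_lit 583)),(k2,(nat_lit 612)),
    (k3,(nat_lit 612)),(k6,(nat_lit 620)),(k11,(nat_lit 641)),(k7,(nat_lit 658)),(k0,(nat_lit 662)),(k8,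
    (nat_lit 668)),(k4,(nat_lit 682)),(k5,(nat_lit 692)),(k9,(nat_lit 706))],[(k2,(nat_lit 585)),(k3,(nat_lit 585)),
    (k6,(nat_lit 593)),(k11,(nat_lit 614)),(k7,(nat_lit 631)),(k0,(nat_lit 635)),(k8,(nat_lit 641)),(k4,
    (nat_lit 655)),(k5,(nat_lit 665)),(k9,(nat_lit 679)),(k1,(nat_lit 683)),(k10,(nat_lit 704))],[(k3,(nat_lit 539)),
    (k2,(nat_lit 549)),(k9,(nat_lit 573)),(k8,(nat_lit 583)),(k10,(nat_lit 602)),(k1,(nat_lit 625)),(k6,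
    (nat_lit 631)),(k5,(nat_lit 655)),(k4,(nat_lit 667)),(k7,(nat_lit 669)),(k0,(nat_lit 681)),(k11,(nat_lit 704))]]
    [[k2,k1,k0,k0,k0,k0],[k2,k0,k0,k0,k1,k0],[k1,k2,k0,k0,k0,k0],[k1,k1,k1,k0,k0,k0],[k1,k1,k0,k1,k0,k0],[k1,k1,k0,k0,
    k1,k0],[k1,k1,k0,k0,k0,k1],[k1,k0,k1,k0,k0,k1],[k1,k0,k0,k2,k0,k0],[k1,k0,k0,k1,k1,k0],[k1,k0,k0,k1,k0,k1],[k1,k0,
    k1,k0,k1,k0],[k1,k0,k0,k0,k1,k1],[k2,k0,k0,k0,k0,k1],[k0,k2,k0,k1,k0,k0],[k0,k2,k0,k0,k1,k0],[k0,k2,k0,k0,k0,k1],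
    [k0,k2,k1,k0,k0,k0],[k0,k1,k1,k0,k0,k1],[k0,k1,k0,k2,k0,k0],[k0,k1,k0,k1,k1,k0],[k0,k1,k0,k1,k0,k1],[k0,k1,k0,k0,
    k1,k1],[k0,k1,k0,k0,k0,k2],[k0,k0,k0,k1,k1,k1],[k0,k0,k0,k1,k0,k2],[k0,k0,k0,k0,k1,k2]]
    [.ref k25 k0 [(z2,[z3,z0,y1]),(z1,[z0,z0,z1]),(z5,[y3,z2,z1,z15]),(z5,[z6,y4,y2,z0,z15]),(z5,[y12,z3,y1,y15,y15,
    z15])],.ref k25 k0 [(z2,[z15,y3,z5,z15,z15,y15]),(z1,[z0,z0,z1]),(z1,[y3,z1,y1,z0,y3,z3]),(z1,[z6,y2,z2,z6,z9,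
    y6]),(z1,[y12,z3,y5,y15,y15,z15])],.ref k25 k0 [(z1,[z3,z0,y2]),(z1,[z0,z0,z1]),(z5,[y6,z2,z4,z15]),(z5,[z12,y4,
    y8,z0,z15]),(z5,[y24,z3,z11,y15,y15,z15])],.ref k25 k0 [(z3,[z15,y2,y5,y15]),(z1,[z0,z0,z1]),(z3,[y6,z2,z2,z15]),
    (z3,[z12,y4,y4,y12,z9]),(z3,[y24,z5,z5,z15,y9,z9])],.ref k25 k0 [(z9,[z15,z4,y5,z0,y15]),(z1,[z0,z0,z1]),(z9,[y6,
    z2,z2,z27,z6]),(z9,[z12,y4,y4,z0,z15]),(z9,[y24,y1,y1,y27,y3,z27])],.ref k25 k0 [(z1,[y5,z1,z0,y5,y5,z5]),(z1,[z0,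
    z0,z1]),(z1,[z2,z0,z0,z5,z2,y2]),(z1,[y4,z0,z0,y4,y1,z4]),(z1,[z8,y1,y1,z5,z5,y5])],.ref k25 k0 [(z6,[z15,z1,y5]),
    (z1,[z0,z0,z1]),(z3,[y3,z1,z1,z9]),(z3,[z6,y2,y2,z0,z9]),(z3,[y12,z1,z1,y9,y9,z9])],.ref k25 k0 [(z4,[z15,y1,z0,
    y15]),(z1,[z0,z0,z1]),(z2,[y3,z1,z0,z9]),(z1,[z3,y1,z0,y3,z3]),(z1,[y6,z1,y1,z3,y3,z3])],.ref k25 k0 [(z13,[z15,
    z8,z0,z0,y30]),(z1,[z0,z0,z1]),(z13,[y6,z2,z0,z39,z12]),(z13,[z12,y4,z0,z0,z15]),(z13,[y24,y5,y13,y39,z9,z39])],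
    .ref k25 k0 [(z1,[z15,z1,z5,z15,z0,y15]),(z1,[z0,z0,z1]),(z1,[y6,z0,y2,y3,z0,z6]),(z1,[z12,z0,z4,z12,z3,y12]),(z1,
    [y24,y1,y9,y27,y3,z27])],.ref k25 k0 [(z2,[z3,z1,z0,z0,y3]),(z1,[z0,z0,z1]),(z5,[y3,z1,z0,z15,z3]),(z5,[z6,y2,z0,
    z0,z9]),(z5,[y12,y1,y5,y15,y3,z15])],.ref k25 k0 [(z1,[y3,z1,y1,z0,y3,z3]),(z1,[z0,z0,z1]),(z5,[z6,z0,z2,z15,z6,
    y6]),(z5,[y12,z0,y4,z0,z3,z12]),(z5,[z24,y5,z3,y15,z9,y9])],.ref k25 k0 [(z2,[y15,z2,y5,y15,y15,z15]),(z1,[z0,z0,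
    z1]),(z1,[z3,z0,z1,z6,z3,y3]),(z1,[y6,z0,y2,y6,y3,z6]),(z1,[z12,y1,z3,z9,z9,y9])],.ref k25 k0 [(z11,[z15,z1]),(z1,
    [z0,z0,z1]),(z11,[y6,z4,z0,z33]),(z11,[z12,y8,z0,z0,z33]),(z11,[y24,z5,y11,y33,y33,z33])],.ref k25 k0 [(z4,[z15,
    z4,y10,z0,y15]),(z1,[z0,z0,z1]),(z2,[y3,z0,z2,z6,z3]),(z1,[z3,z0,y2]),(z1,[y6,y1,z3,y3,z3,z3])],.ref k25 k0 [(z8,
    [y15,z3,z5,y15,y15,z15]),(z1,[z0,z0,z1]),(z4,[z3,z1,y1,z15,z3,y3]),(z2,[y3,y1,z1,y3,z3,z3]),(z1,[z3,z0,y2])],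
    .ref k25 k0 [(z1,[z15,z1,y10]),(z1,[z0,z0,z1]),(z1,[y6,z0,z4,z3]),(z1,[z12,z0,y8,z0,z3]),(z1,[y24,y1,z15,y3,y3,
    z3])],.ref k25 k0 [(z2,[y15,z2,z10,z15]),(z1,[z0,z0,z1]),(z1,[z3,z0,y2]),(z1,[y6,z0,z4,z6,z3]),(z1,[z12,y1,y9,y15,
    y3,z3])],.ref k25 k0 [(z1,[y15,z1,z5,z15]),(z1,[z0,z0,z1]),(z1,[z6,z0,y2,y3]),(z1,[y12,z0,z4,z12,z3]),(z1,[z24,y1,
    y9,y27,y3,z3])],.ref k25 k0 [(z8,[z15,z8,y5,z0,y30]),(z1,[z0,z0,z1]),(z4,[y3,z0,z1,z12,z6]),(z2,[z3,z0,y1]),(z1,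
    [y3,y1,z0,y3,z3,z3])],.ref k25 k0 [(z4,[y15,y1,z0,y15,z0,z15]),(z1,[z0,z0,z1]),(z2,[z3,z1,z0,z9,z0,y3]),(z1,[y3,
    y1,z0,y3,z3,z3]),(z1,[z6,z1,y1,z3,y3,y3])],.ref k25 k0 [(z1,[z3,z1,y1,z0,y3]),(z1,[z0,z0,z1]),(z5,[y6,z0,z2,z15,
    z6]),(z5,[z12,z0,y4,z0,z3]),(z5,[y24,y5,z3,y15,z9,z15])],.ref k25 k0 [(z7,[y15,z2,z0,y15,y15,z15]),(z1,[z0,z0,
    z1]),(z7,[z6,z2,z0,z27,z6,y6]),(z7,[y12,y4,z0,y12,z9,z12]),(z7,[z24,z1,y7,z3,z3,y3])],.ref k25 k0 [(z2,[z15,z2,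
    y5]),(z1,[z0,z0,z1]),(z1,[y3,z0,z1,z3]),(z1,[z6,z0,y2,z0,z3]),(z1,[y12,y1,z3,y3,y3,z3])],.ref k25 k0 [(z3,[y15,y2,
    y5,y15,z0,z15]),(z1,[z0,z0,z1]),(z3,[z6,z2,z2,z15,z0,y6]),(z3,[y12,y4,y4,y12,z9,z12]),(z3,[z24,z5,z5,z15,y9,
    y15])],.ref k25 k0 [(z2,[z5,z2,z0,z0,y5]),(z1,[z0,z0,z1]),(z1,[y1,z0,z0,z3,z1]),(z1,[z2,z0,z0,z0,z1]),(z1,[y4,y1,
    y1,y3,z1,z3])],.ref k25 k0 [(z6,[y15,z1,y5,y15,y15,z15]),(z1,[z0,z0,z1]),(z3,[z3,z1,z1,z12,z3,y3]),(z3,[y6,y2,y2,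
    y6,z3,z6]),(z3,[z12,z1,z1,z3,z3,y3])]]]

theorem hB6_171_14 : blkB [0, 0, 0, 0, 0, 0] [] sp6 hS6_171 (pcls (n := 6) [0, 0, 0, 0, 0, 0]) hD6_171 560 14 hN6_171_14 = true := by
  decide +kernel

end Pool.Agent.Lib_MP_fa6e45
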