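import Pool.Agent.Lib_MP_fa6e45.HK

/-!
MP_fa6e45_co, stage 4: certificates (captain, generated by a program).
-/

namespace Pool.Agent.Lib_MP_fa6e45

/-- nodes 180 to 191 -/
noncomputable def hN6_171_15 : List HM :=
  [.base (.leafM k0 [k2,k3,k4,k5,k0,k1] [(z3,[y1,y1,y1,z0,z3])] []),
    .base (.leafM k3 [k0,k1,k2,k3,k4,k5] [(z1,[y1,z0,y1,z0,z1])] []),
    .base (.leafM k0 [k2,k3,k4,k5,k0,k1] [(z3,[y1,y1,y3,z0,z3])] []),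
    .lp k0 [(nat_lit 314),(nat_lit 310),(nat_lit 328),(nat_lit 338),(nat_lit 334),(nat_lit 292)] [k32,k0,k18,k18,k9,
    k9,k4,k4,k6,k6,k27,k27] k0 [[k0,k0,k6,k0,k0,k6,k6,k0,k10,k0,k0,k30],[k0,k0,k6,k0,k0,k0,k0,k0,k0,k0,k0,k30],[k0,k0,
    k0,k4,k4,k0,k0,k0,k0,k0,k8,k12],[k6,k6,k0,k0,k0,k0,k6,k6,k0,k0,k0,k0],[k0,k6,k0,k0,k0,k0,k0,k0,k0,k0,k8,k0],[k0,
    k0,k0,k4,k4,k0,k0,k0,k0,k0,k8,k0],[k0,k0,k6,k0,k0,k0,k0,k0,k2,k2,k0,k0],[k0,k6,k6,k0,k0,k0,k0,k0,k0,k0,k2,k2],[k0,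
    k0,k0,k0,k0,k0,k0,k2,k0,k0,k100,k0],[k0,k10,k0,k0,k0,k0,k0,k2,k0,k0,k0,k0],[k30,k30,k0,k12,k0,k0,k2,k0,k0,k0,k0,
    k16],[k0,k0,k0,k8,k8,k8,k2,k0,k0,k100,k0,k0]] (nat_lit 960) k5
    [[(k8,(nat_lit 240)),(k10,(nat_lit 319)),(k11,(nat_lit 319)),(k2,(nat_lit 320)),(k4,(nat_lit 329)),(k7,
    (nat_lit 334)),(k9,(nat_lit 338)),(k0,(nat_lit 344)),(k6,(nat_lit 344)),(k5,(nat_lit 349)),(k3,(nat_lit 358)),(k1,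
    (nat_lit 362))],[(k10,(nat_lit 257)),(k11,(nat_lit 277)),(k0,(nat_lit 282)),(k3,(nat_lit 296)),(k4,(nat_lit 299)),
    (k5,(nat_lit 299)),(k2,(nat_lit 302)),(k9,(nat_lit 302)),(k8,(nat_lit 308)),(k6,(nat_lit 310)),(k7,(nat_lit 310)),
    (k1,(nat_lit 344))],[(k10,(nat_lit 271)),(k0,(nat_lit 296)),(k11,(nat_lit 301)),(k3,(nat_lit 310)),(k5,
    (nat_lit 313)),(k2,(nat_lit 316)),(k4,(nat_lit 319)),(k9,(nat_lit 322)),(k6,(nat_lit 330)),(k7,(nat_lit 330)),(k8,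
    (nat_lit 332)),(k1,(nat_lit 358))],[(k10,(nat_lit 289)),(k11,(nat_lit 301)),(k0,(nat_lit 302)),(k2,(nat_lit 306)),
    (k3,(nat_lit 316)),(k4,(nat_lit 319)),(k5,(nat_lit 319)),(k1,(nat_lit 320)),(k7,(nat_lit 320)),(k8,(nat_lit 322)),
    (k9,(nat_lit 328)),(k6,(nat_lit 330))],[(k0,(nat_lit 299)),(k11,(nat_lit 310)),(k3,(nat_lit 313)),(k10,
    (nat_lit 318)),(k2,(nat_lit 319)),(k9,(nat_lit 325)),(k6,(nat_lit 327)),(k8,(nat_lit 331)),(k4,(nat_lit 332)),(k5,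
    (nat_lit 332)),(k7,(nat_lit 333)),(k1,(nat_lit 349))],[(k0,(nat_lit 299)),(k11,(nat_lit 310)),(k10,(nat_lit 318)),
    (k2,(nat_lit 319)),(k3,(nat_lit 319)),(k1,(nat_lit 329)),(k8,(nat_lit 331)),(k9,(nat_lit 331)),(k4,(nat_lit 332)),
    (k5,(nat_lit 332)),(k6,(nat_lit 333)),(k7,(nat_lit 333))],[(k0,(nat_lit 310)),(k11,(nat_lit 315)),(k2,
    (nat_lit 320)),(k10,(nat_lit 323)),(k3,(nat_lit 330)),(k4,(nat_lit 333)),(k5,(nat_lit 333)),(k1,(nat_lit 334)),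
    (k7,(nat_lit 334)),(k8,(nat_lit 336)),(k9,(nat_lit 336)),(k6,(nat_lit 338))],[(k0,(nat_lit 310)),(k11,
    (nat_lit 313)),(k10,(nat_lit 317)),(k5,(nat_lit 327)),(k2,(nat_lit 330)),(k3,(nat_lit 330)),(k4,(nat_lit 333)),
    (k8,(nat_lit 334)),(k9,(nat_lit 336)),(k6,(nat_lit 338)),(k7,(nat_lit 338)),(k1,(nat_lit 344))],[(k0,
    (nat_lit 302)),(k10,(nat_lit 311)),(k11,(nat_lit 315)),(k3,(nat_lit 322)),(k5,(nat_lit 325)),(k2,(nat_lit 328)),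
    (k4,(nat_lit 331)),(k9,(nat_lit 334)),(k6,(nat_lit 336)),(k7,(nat_lit 336)),(k8,(nat_lit 336)),(k1,
    (nat_lit 338))],[(k1,(nat_lit 240)),(k0,(nat_lit 308)),(k10,(nat_lit 313)),(k11,(nat_lit 313)),(k2,(nat_lit 322)),
    (k4,(nat_lit 331)),(k5,(nat_lit 331)),(k3,(nat_lit 332)),(k6,(nat_lit 334)),(k8,(nat_lit 334)),(k7,(nat_lit 336)),
    (k9,(nat_lit 336))],[(k0,(nat_lit 277)),(k11,(nat_lit 292)),(k2,(nat_lit 301)),(k3,(nat_lit 301)),(k4,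
    (nat_lit 310)),(k5,(nat_lit 310)),(k6,(nat_lit 313)),(k8,(nat_lit 313)),(k7,(nat_lit 315)),(k9,(nat_lit 315)),(k1,
    (nat_lit 319)),(k10,(nat_lit 392))],[(k0,(nat_lit 257)),(k3,(nat_lit 271)),(k10,(nat_lit 276)),(k2,(nat_lit 289)),
    (k9,(nat_lit 311)),(k8,(nat_lit 313)),(k6,(nat_lit 317)),(k4,(nat_lit 318)),(k5,(nat_lit 318)),(k1,(nat_lit 319)),
    (k7,(nat_lit 323)),(k11,(nat_lit 392))]]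
    [[k2,k0,k0,k0,k1,k0],[k2,k0,k0,k0,k0,k1],[k1,k2,k0,k0,k0,k0],[k1,k1,k1,k0,k0,k0],[k1,k1,k0,k0,k1,k0],[k1,k1,k0,k0,
    k0,k1],[k1,k0,k1,k0,k0,k1],[k1,k0,k0,k1,k0,k1],[k1,k0,k1,k0,k1,k0],[k1,k0,k0,k1,k1,k0],[k1,k0,k0,k0,k2,k0],[k1,k0,
    k0,k0,k1,k1],[k1,k0,k0,k0,k0,k2],[k0,k3,k0,k0,k0,k0],[k0,k2,k1,k0,k0,k0],[k0,k2,k0,k0,k0,k1],[k0,k1,k1,k0,k0,k1],
    [k0,k1,k0,k1,k0,k1],[k0,k1,k0,k0,k1,k1],[k0,k1,k0,k0,k0,k2],[k0,k0,k1,k0,k1,k1],[k0,k0,k1,k0,k0,k2],[k0,k0,k0,k1,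
    k0,k2],[k0,k0,k0,k0,k1,k2]]
    [.ref k25 k0 [(z16,[z21,z1]),(z16,[y3,z1,z24]),(z4,[y3,z1,z0,z12]),(z4,[y3,z1,z0,z0,z12]),(z8,[z3,y1])],
    .ref k25 k0 [(z4,[z6,z1,z3,z6,z6,y6]),(z28,[y6,z1,z39,y6,y6,z6]),(z7,[y6,z1,y3,z15,y6,z6]),(z7,[y6,z1,y3,y6,z15,
    z6]),(z14,[z6,y1,z3,z6,z6,y6])],.ref k25 k0 [(z5,[z21,y1,y21]),(z10,[y6,z1,z21]),(z5,[y12,z2,z12,z15]),(z5,[y12,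
    z2,z12,z0,z15]),(z5,[z6,y1,y6])],.ref k25 k0 [(z4,[z42,y5,y21,y42]),(z4,[y6,z1,z9,z6]),(z1,[y6,z1,z3,z9]),(z1,[y6,
    z1,z3,z6,z3]),(z2,[z6,y1,y3,y6])],.ref k25 k0 [(z16,[z42,z1,y21]),(z16,[y6,z1,z27]),(z4,[y6,z1,z3,z12]),(z4,[y6,
    z1,z3,z0,z12]),(z8,[z6,y1,y3])],.ref k25 k0 [(z2,[z7,z1,z0,z7,z7,y7]),(z2,[y1,z0,z3,y1,y1,z1]),(z1,[y2,z0,z0,z1,
    y2,z2]),(z1,[y2,z0,z0,y2,z1,z2]),(z1,[z1,z0,z0,z1,z1,y1])],.ref k25 k0 [(z2,[z14,z1,z7,z0,z14,y14]),(z1,[y1,z0,z1,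
    z0,y1,z1]),(z1,[y4,z0,y2,z3,y4,z4]),(z1,[y4,z0,y2,z0,y1,z4]),(z1,[z2,z0,z1,z0,z2,y2])],.ref k25 k0 [(z2,[z14,z1,
    z7,z14,z0,y14]),(z1,[y1,z0,z1,y1,z0,z1]),(z1,[y4,z0,y2,y1,z0,z4]),(z1,[y4,z0,y2,y4,z3,z4]),(z1,[z2,z0,z1,z2,z0,
    y2])],.ref k25 k0 [(z5,[z21,y1,z0,y21]),(z10,[y6,z1,z15,z6]),(z5,[y12,z2,z0,z27]),(z5,[y12,z2,z0,z12,z15]),(z5,
    [z6,y1,z0,y6])],.ref k25 k0 [(z5,[z21,y1,z0,z0,y21]),(z10,[y6,z1,z15,z0,z6]),(z5,[y12,z2,z0,z15,z12]),(z5,[y12,z2,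
    z0,z0,z27]),(z5,[z6,y1,z0,z0,y6])],.ref k25 k0 [(z11,[z21,z2]),(z22,[y6,z1,z33]),(z11,[y12,z2,z0,z33]),(z11,[y12,
    z2,z0,z0,z33]),(z11,[z6,y1])],.ref k25 k0 [(z6,[z14,z3,z7,z14,z14,y14]),(z3,[y1,z0,z4,y1,y1,z1]),(z3,[y4,z0,y2,z5,
    y4,z4]),(z3,[y4,z0,y2,y4,z5,z4]),(z3,[z2,z0,z1,z2,z2,y2])],.ref k25 k0 [(z1,[z3,z1,z3,z6,z6,y6]),(z14,[y6,y1,z15,
    y12,y12,z12]),(z7,[y12,y2,y12,y3,y24,z24]),(z7,[y12,y2,y12,y24,y3,z24]),(z7,[z6,z1,z6,z12,z12,y12])],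
    .ref k25 k0 [(z2,[y14,z1,z21]),(z1,[z1]),(z1,[z4,z0,y6,z3]),(z1,[z4,z0,y6,z0,z3]),(z1,[y2,z0,z3])],
    .ref k25 k0 [(z2,[y7,z1,z7,z7]),(z2,[z1,z0,z2,y1]),(z1,[z2,z0,y2,z1]),(z1,[z2,z0,y2,y2,z3]),(z1,[y1,z0,z1,z1])],
    .ref k25 k0 [(z4,[y42,y5,z21,y42,y42,z42]),(z4,[z6,z1,z3,z6,z6,y6]),(z1,[z6,z1,y3,z9,z6,y6]),(z1,[z6,z1,y3,z6,z9,
    y6]),(z2,[y6,y1,z3,y6,y6,z6])],.ref k25 k0 [(z5,[y21,y1,z0,z0,y21,z21]),(z10,[z6,z1,z15,z0,z6,y6]),(z5,[z12,z2,z0,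
    z15,z12,y12]),(z5,[z12,z2,z0,z0,z27,y12]),(z5,[y6,y1,z0,z0,y6,z6])],.ref k25 k0 [(z5,[y21,y1,z0,y21,z0,z21]),(z10,
    [z6,z1,z15,z6,z0,y6]),(z5,[z12,z2,z0,z27,z0,y12]),(z5,[z12,z2,z0,z12,z15,y12]),(z5,[y6,y1,z0,y6,z0,z6])],
    .ref k25 k0 [(z1,[z21,z4,z0,z21,z21,y21]),(z2,[y6,y1,z3,y6,y6,z6]),(z1,[y12,y2,z0,y9,y12,z12]),(z1,[y12,y2,z0,y12,
    y9,z12]),(z1,[z6,z1,z0,z6,z6,y6])],.ref k25 k0 [(z2,[y42,y13,y21,y84,y84,z84]),(z1,[z3,z1,z3,z6,z6,y6]),(z1,[z12,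
    z4,z6,z27,z24,y24]),(z1,[z12,z4,z6,z24,z27,y24]),(z1,[y6,y2,y3,y12,y12,z12])],.ref k25 k0 [(z4,[y42,y5,y21,z0,y42,
    z42]),(z4,[z6,z1,z9,z0,z6,y6]),(z1,[z6,z1,z3,z3,z6,y6]),(z1,[z6,z1,z3,z0,z9,y6]),(z2,[y6,y1,y3,z0,y6,z6])],
    .ref k25 k0 [(z4,[y21,y5,y21,y21,y42,z42]),(z4,[z3,z1,z9,z3,z6,y6]),(z1,[z3,z1,z3,z6,z6,y6]),(z1,[z3,z1,z3,z3,z9,
    y6]),(z2,[y3,y1,y3,y3,y6,z6])],.ref k25 k0 [(z4,[y21,y5,y21,y42,y21,z42]),(z4,[z3,z1,z9,z6,z3,y6]),(z1,[z3,z1,z3,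
    z9,z3,y6]),(z1,[z3,z1,z3,z6,z6,y6]),(z2,[y3,y1,y3,y6,y3,z6])],.ref k25 k0 [(z2,[z21,z8,z21,z42,z42,y42]),(z2,[y3,
    y1,z0,y6,y6,z6]),(z1,[y6,y2,y6,y9,y12,z12]),(z1,[y6,y2,y6,y12,y9,z12]),(z1,[z3,z1,z3,z6,z6,y6])]],
    .base (.leafM k3 [k1,k2,k3,k4,k5,k0] [(z2,[y1,y1,z0,y2,z2])] []),
    .base (.leafM k3 [k2,k3,k4,k5,k0,k1] [(z2,[z0,y1,y1,z0,z2])] []),
    .lp k0 [(nat_lit 314),(nat_lit 326),(nat_lit 336),(nat_lit 332),(nat_lit 310),(nat_lit 298)] [k11,k11,k5,k5,k0,k0,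
    k2,k2,k13,k13,k19,k19] k0 [[k0,k0,k18,k0,k0,k0,k0,k18,k0,k0,k0,k30],[k0,k0,k18,k0,k6,k10,k0,k0,k0,k0,k0,k46],[k0,
    k0,k0,k0,k24,k28,k0,k16,k0,k0,k24,k28],[k18,k18,k0,k0,k0,k0,k0,k0,k14,k0,k0,k0],[k10,k0,k0,k28,k0,k20,k8,k0,k0,k0,
    k32,k0],[k6,k0,k0,k24,k0,k0,k8,k0,k30,k50,k0,k0],[k0,k18,k0,k16,k0,k0,k0,k0,k42,k62,k0,k0],[k0,k0,k0,k0,k8,k8,k0,
    k0,k0,k0,k20,k0],[k0,k0,k0,k0,k50,k0,k0,k62,k0,k4,k70,k0],[k0,k0,k14,k0,k30,k0,k0,k42,k0,k0,k50,k0],[k46,k30,k0,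
    k28,k0,k0,k0,k0,k0,k0,k0,k8],[k0,k0,k0,k24,k0,k32,k20,k0,k50,k70,k0,k0]] (nat_lit 960) k5
    [[(k8,(nat_lit 242)),(k11,(nat_lit 256)),(k9,(nat_lit 292)),(k4,(nat_lit 293)),(k2,(nat_lit 296)),(k10,
    (nat_lit 306)),(k1,(nat_lit 322)),(k6,(nat_lit 323)),(k7,(nat_lit 323)),(k3,(nat_lit 350)),(k5,(nat_lit 353)),(k0,
    (nat_lit 360))],[(k10,(nat_lit 276)),(k6,(nat_lit 305)),(k11,(nat_lit 306)),(k5,(nat_lit 307)),(k8,(nat_lit 312)),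
    (k9,(nat_lit 312)),(k0,(nat_lit 314)),(k3,(nat_lit 320)),(k4,(nat_lit 331)),(k7,(nat_lit 333)),(k2,(nat_lit 338)),
    (k1,(nat_lit 360))],[(k10,(nat_lit 266)),(k11,(nat_lit 312)),(k5,(nat_lit 313)),(k8,(nat_lit 318)),(k0,
    (nat_lit 320)),(k4,(nat_lit 321)),(k7,(nat_lit 323)),(k3,(nat_lit 326)),(k6,(nat_lit 329)),(k9,(nat_lit 336)),(k2,
    (nat_lit 344)),(k1,(nat_lit 350))],[(k10,(nat_lit 284)),(k1,(nat_lit 296)),(k4,(nat_lit 303)),(k7,(nat_lit 305)),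
    (k11,(nat_lit 312)),(k6,(nat_lit 313)),(k9,(nat_lit 318)),(k2,(nat_lit 326)),(k5,(nat_lit 331)),(k8,
    (nat_lit 332)),(k0,(nat_lit 338)),(k3,(nat_lit 344))],[(k11,(nat_lit 303)),(k0,(nat_lit 307)),(k3,(nat_lit 313)),
    (k8,(nat_lit 323)),(k2,(nat_lit 331)),(k6,(nat_lit 334)),(k5,(nat_lit 336)),(k9,(nat_lit 339)),(k10,
    (nat_lit 341)),(k1,(nat_lit 353)),(k4,(nat_lit 360)),(k7,(nat_lit 362))],[(k1,(nat_lit 293)),(k2,(nat_lit 303)),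
    (k9,(nat_lit 315)),(k4,(nat_lit 316)),(k10,(nat_lit 317)),(k3,(nat_lit 321)),(k0,(nat_lit 331)),(k7,
    (nat_lit 334)),(k6,(nat_lit 342)),(k8,(nat_lit 353)),(k5,(nat_lit 360)),(k11,(nat_lit 367))],[(k8,(nat_lit 271)),
    (k11,(nat_lit 285)),(k2,(nat_lit 305)),(k9,(nat_lit 313)),(k1,(nat_lit 323)),(k3,(nat_lit 323)),(k0,
    (nat_lit 333)),(k4,(nat_lit 334)),(k6,(nat_lit 340)),(k10,(nat_lit 347)),(k7,(nat_lit 352)),(k5,(nat_lit 362))],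
    [(k8,(nat_lit 259)),(k11,(nat_lit 273)),(k0,(nat_lit 305)),(k2,(nat_lit 313)),(k9,(nat_lit 321)),(k1,
    (nat_lit 323)),(k3,(nat_lit 329)),(k6,(nat_lit 332)),(k5,(nat_lit 334)),(k10,(nat_lit 335)),(k7,(nat_lit 340)),
    (k4,(nat_lit 342))],[(k1,(nat_lit 292)),(k10,(nat_lit 304)),(k9,(nat_lit 310)),(k0,(nat_lit 312)),(k7,
    (nat_lit 313)),(k4,(nat_lit 315)),(k2,(nat_lit 318)),(k6,(nat_lit 321)),(k3,(nat_lit 336)),(k5,(nat_lit 339)),(k8,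
    (nat_lit 352)),(k11,(nat_lit 366))],[(k1,(nat_lit 242)),(k6,(nat_lit 259)),(k7,(nat_lit 271)),(k11,(nat_lit 304)),
    (k8,(nat_lit 306)),(k0,(nat_lit 312)),(k3,(nat_lit 318)),(k5,(nat_lit 323)),(k2,(nat_lit 332)),(k9,(nat_lit 352)),
    (k4,(nat_lit 353)),(k10,(nat_lit 354))],[(k1,(nat_lit 256)),(k6,(nat_lit 273)),(k7,(nat_lit 285)),(k11,
    (nat_lit 302)),(k5,(nat_lit 303)),(k8,(nat_lit 304)),(k0,(nat_lit 306)),(k2,(nat_lit 312)),(k3,(nat_lit 312)),(k9,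
    (nat_lit 366)),(k4,(nat_lit 367)),(k10,(nat_lit 368))],[(k3,(nat_lit 266)),(k0,(nat_lit 276)),(k2,(nat_lit 284)),
    (k10,(nat_lit 290)),(k9,(nat_lit 304)),(k1,(nat_lit 306)),(k4,(nat_lit 317)),(k6,(nat_lit 335)),(k5,
    (nat_lit 341)),(k7,(nat_lit 347)),(k8,(nat_lit 354)),(k11,(nat_lit 368))]]
    [[k2,k0,k0,k0,k1,k0],[k2,k0,k0,k0,k0,k1],[k1,k1,k1,k0,k0,k0],[k1,k1,k0,k1,k0,k0],[k1,k1,k0,k0,k1,k0],[k1,k1,k0,k0,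
    k0,k1],[k1,k0,k1,k0,k1,k0],[k1,k0,k1,k0,k0,k1],[k1,k0,k0,k1,k1,k0],[k1,k0,k0,k1,k0,k1],[k1,k0,k0,k0,k2,k0],[k1,k0,
    k0,k0,k1,k1],[k1,k0,k0,k0,k0,k2],[k0,k2,k0,k0,k0,k1],[k0,k2,k0,k1,k0,k0],[k0,k1,k1,k0,k0,k1],[k0,k1,k0,k1,k1,k0],
    [k0,k1,k0,k1,k0,k1],[k0,k1,k0,k0,k1,k1],[k0,k1,k0,k0,k0,k2],[k0,k0,k1,k1,k1,k0],[k0,k0,k1,k1,k0,k1],[k0,k0,k0,k2,
    k1,k0],[k0,k0,k0,k1,k2,k0],[k0,k0,k0,k1,k1,k1],[k0,k0,k0,k1,k0,k2]]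
    [.ref k25 k0 [(z3,[z4,z1]),(z3,[y2,z4,z9]),(z1,[z0,z0,z0,z1]),(z1,[y1,z2,z0,z0,z1]),(z3,[z1,y2])],
    .ref k25 k0 [(z2,[z3,z3,z3,z1,z1,y3]),(z4,[y3,z3,z9,y1,y1,z3]),(z1,[z0,z0,z0,z1]),(z8,[y9,z9,y9,y3,z5,z9]),(z8,
    [z3,y3,z3,z1,z1,y3])],.ref k25 k0 [(z1,[z6,y3,y6,y2]),(z1,[y3,z3,z6,z1]),(z1,[z0,z0,z0,z1]),(z2,[y9,z9,z9,z3,z2]),
    (z2,[z3,y3,y3,y1])],.ref k25 k0 [(z1,[y12,z15,z12,z0,z4]),(z1,[z6,y6,y3,z0,y2]),(z1,[z0,z0,z0,z1]),(z1,[z9,y9,y9,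
    z0,y2]),(z1,[y3,z3,z3,z0,z1])],.ref k25 k0 [(z1,[z4,y1,y4]),(z1,[y2,z2,z5]),(z1,[z0,z0,z0,z1]),(z1,[y3,z3,z3,z0,
    z1]),(z1,[z1,y1,y1])],.ref k25 k0 [(z1,[z6,z3,z0,z2,z2,y6]),(z1,[y3,z0,z3,y1,y1,z3]),(z1,[z0,z0,z0,z1]),(z2,[y9,
    z0,z0,y3,y1,z9]),(z2,[z3,z0,z0,z1,z1,y3])],.ref k25 k0 [(z5,[z12,z3,z0,y4]),(z5,[y6,z6,z15,z2]),(z1,[z0,z0,z0,
    z1]),(z5,[y9,z9,z0,z3,z5]),(z5,[z3,y3,z0,y1])],.ref k25 k0 [(z1,[z3,z3,z3,z0,z1,y3]),(z2,[y3,z0,z3,z0,y1,z3]),(z1,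
    [z0,z0,z0,z1]),(z4,[y9,z0,y9,z0,z1,z9]),(z4,[z3,z0,z3,z0,z1,y3])],.ref k25 k0 [(z1,[z6,y3,z0,z0,y2]),(z1,[y3,z3,
    z3,z0,z1]),(z1,[z0,z0,z0,z1]),(z2,[y9,z9,z0,z0,z5]),(z2,[z3,y3,z0,z0,y1])],.ref k25 k0 [(z1,[z12,z3,z12,z4,z0,
    y12]),(z1,[y6,z0,y3,y2,z0,z6]),(z1,[z0,z0,z0,z1]),(z1,[y9,z0,y9,y3,z1,z9]),(z1,[z3,z0,z3,z1,z0,y3])],
    .ref k25 k0 [(z1,[z2,z1]),(z1,[y1,z1,z3]),(z1,[z0,z0,z0,z1]),(z2,[y3,z3,z0,z0,z2]),(z2,[z1,y1])],.ref k25 k0 [(z5,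
    [z12,z15,z12,z4,z4,y12]),(z5,[y6,z0,z9,y2,y2,z6]),(z1,[z0,z0,z0,z1]),(z5,[y9,z0,y9,y3,z2,z9]),(z5,[z3,z0,z3,z1,z1,
    y3])],.ref k25 k0 [(z1,[z3,z6,z6,z2,z2,y6]),(z2,[y3,y3,z0,y2,y2,z6]),(z1,[z0,z0,z0,z1]),(z4,[y9,y9,y18,y6,y2,
    z18]),(z4,[z3,z3,z6,z2,z2,y6])],.ref k25 k0 [(z1,[y3,z0,z3,y1,y1,z3]),(z2,[z3,z3,z3,z1,z1,y3]),(z1,[z0,z0,z0,z1]),
    (z4,[z9,z9,y9,z3,z7,y9]),(z4,[y3,y3,z3,y1,y1,z3])],.ref k25 k0 [(z7,[y12,z21,z24,z0,z4]),(z7,[z6,z0,z9,z0,y2]),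
    (z1,[z0,z0,z0,z1]),(z7,[z9,z0,y18,z0,z4]),(z7,[y3,z0,z6,z0,z1])],.ref k25 k0 [(z1,[y6,y3,z0,z0,y2,z6]),(z1,[z3,z3,
    z3,z0,z1,y3]),(z1,[z0,z0,z0,z1]),(z2,[z9,z9,z0,z0,z5,y9]),(z2,[y3,y3,z0,z0,y1,z3])],.ref k25 k0 [(z1,[y3,z3,z3,z0,
    z1]),(z2,[z3,z0,z3,z0,y1]),(z1,[z0,z0,z0,z1]),(z4,[z9,z0,y9,z0,z1]),(z4,[y3,z0,z3,z0,z1])],.ref k25 k0 [(z5,[y12,
    z3,z0,y4,z0,z12]),(z5,[z6,z6,z15,z2,z0,y6]),(z1,[z0,z0,z0,z1]),(z5,[z9,z9,z0,z3,z5,y9]),(z5,[y3,y3,z0,y1,z0,z3])],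
    .ref k25 k0 [(z1,[y12,y9,z0,y4,y4,z12]),(z1,[z6,z6,z3,z2,z2,y6]),(z1,[z0,z0,z0,z1]),(z1,[z9,z9,z0,z3,z4,y9]),(z1,
    [y3,y3,z0,y1,y1,z3])],.ref k25 k0 [(z1,[y6,y9,y6,y4,y4,z12]),(z1,[z3,z6,z6,z2,z2,y6]),(z1,[z0,z0,z0,z1]),(z2,[z9,
    z18,z9,z6,z8,y18]),(z2,[y3,y6,y3,y2,y2,z6])],.ref k25 k0 [(z1,[y6,z3,z0,z2,z2]),(z1,[z3,z0,z3,y1,y1]),(z1,[z0,z0,
    z0,z1]),(z2,[z9,z0,z0,y3,y1]),(z2,[y3,z0,z0,z1,z1])],.ref k25 k0 [(z1,[y4,y1,y4,z0,z0,z4]),(z1,[z2,z2,z5,z0,z0,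
    y2]),(z1,[z0,z0,z0,z1]),(z1,[z3,z3,z3,z0,z1,y3]),(z1,[y1,y1,y1,z0,z0,z1])],.ref k25 k0 [(z5,[y12,z15,z0,z0,z8]),
    (z5,[z6,z0,z15,z0,y4]),(z1,[z0,z0,z0,z1]),(z5,[z9,z0,z0,z0,y1]),(z5,[y3,z0,z0,z0,z2])],.ref k25 k0 [(z1,[y12,z3,
    z0,z0,z4]),(z1,[z6,z0,z3,z0,y2]),(z1,[z0,z0,z0,z1]),(z1,[z9,z0,z0,z0,y2]),(z1,[y3,z0,z0,z0,z1])],.ref k25 k0 [(z1,
    [y6,y3,y6,y2,z0,z6]),(z1,[z3,z3,z6,z1,z0,y3]),(z1,[z0,z0,z0,z1]),(z2,[z9,z9,z9,z3,z2,y9]),(z2,[y3,y3,y3,y1,z0,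
    z3])],.ref k25 k0 [(z3,[y12,y15,y24,y8,y4,z24]),(z3,[z6,z12,z21,z4,z2,y12]),(z1,[z0,z0,z0,z1]),(z1,[z3,z6,z6,z2,
    z2,y6]),(z3,[y3,y6,y6,y2,y1,z6])]],
    .base (.leafM k3 [k4,k5,k0,k1,k2,k3] [(z1,[y1,z0,z0,y1,z1])] []),
    .lp k0 [(nat_lit 314),(nat_lit 310),(nat_lit 328),(nat_lit 338),(nat_lit 334),(nat_lit 292)] [k32,k0,k18,k18,k9,
    k9,k4,k4,k6,k6,k27,k27] k0 [[k0,k0,k6,k0,k0,k6,k6,k0,k10,k0,k0,k30],[k0,k0,k6,k0,k0,k0,k0,k0,k0,k0,k0,k30],[k0,k0,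
    k0,k4,k4,k0,k0,k0,k0,k0,k8,k12],[k6,k6,k0,k0,k0,k0,k6,k6,k0,k0,k0,k0],[k0,k6,k0,k0,k0,k0,k0,k0,k0,k0,k8,k0],[k0,
    k0,k0,k4,k4,k0,k0,k0,k0,k0,k8,k0],[k0,k0,k6,k0,k0,k0,k0,k0,k2,k2,k0,k0],[k0,k6,k6,k0,k0,k0,k0,k0,k0,k0,k2,k2],[k0,
    k0,k0,k0,k0,k0,k0,k2,k0,k0,k100,k0],[k0,k10,k0,k0,k0,k0,k0,k2,k0,k0,k0,k0],[k30,k30,k0,k12,k0,k0,k2,k0,k0,k0,k0,
    k16],[k0,k0,k0,k8,k8,k8,k2,k0,k0,k100,k0,k0]] (nat_lit 960) k5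
    [[(k8,(nat_lit 240)),(k10,(nat_lit 319)),(k11,(nat_lit 319)),(k2,(nat_lit 320)),(k4,(nat_lit 329)),(k7,
    (nat_lit 334)),(k9,(nat_lit 338)),(k0,(nat_lit 344)),(k6,(nat_lit 344)),(k5,(nat_lit 349)),(k3,(nat_lit 358)),(k1,
    (nat_lit 362))],[(k10,(nat_lit 257)),(k11,(nat_lit 277)),(k0,(nat_lit 282)),(k3,(nat_lit 296)),(k4,(nat_lit 299)),
    (k5,(nat_lit 299)),(k2,(nat_lit 302)),(k9,(nat_lit 302)),(k8,(nat_lit 308)),(k6,(nat_lit 310)),(k7,(nat_lit 310)),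
    (k1,(nat_lit 344))],[(k10,(nat_lit 271)),(k0,(nat_lit 296)),(k11,(nat_lit 301)),(k3,(nat_lit 310)),(k5,
    (nat_lit 313)),(k2,(nat_lit 316)),(k4,(nat_lit 319)),(k9,(nat_lit 322)),(k6,(nat_lit 330)),(k7,(nat_lit 330)),(k8,
    (nat_lit 332)),(k1,(nat_lit 358))],[(k10,(nat_lit 289)),(k11,(nat_lit 301)),(k0,(nat_lit 302)),(k2,(nat_lit 306)),
    (k3,(nat_lit 316)),(k4,(nat_lit 319)),(k5,(nat_lit 319)),(k1,(nat_lit 320)),(k7,(nat_lit 320)),(k8,(nat_lit 322)),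
    (k9,(nat_lit 328)),(k6,(nat_lit 330))],[(k0,(nat_lit 299)),(k11,(nat_lit 310)),(k3,(nat_lit 313)),(k10,
    (nat_lit 318)),(k2,(nat_lit 319)),(k9,(nat_lit 325)),(k6,(nat_lit 327)),(k8,(nat_lit 331)),(k4,(nat_lit 332)),(k5,
    (nat_lit 332)),(k7,(nat_lit 333)),(k1,(nat_lit 349))],[(k0,(nat_lit 299)),(k11,(nat_lit 310)),(k10,(nat_lit 318)),
    (k2,(nat_lit 319)),(k3,(nat_lit 319)),(k1,(nat_lit 329)),(k8,(nat_lit 331)),(k9,(nat_lit 331)),(k4,(nat_lit 332)),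
    (k5,(nat_lit 332)),(k6,(nat_lit 333)),(k7,(nat_lit 333))],[(k0,(nat_lit 310)),(k11,(nat_lit 315)),(k2,
    (nat_lit 320)),(k10,(nat_lit 323)),(k3,(nat_lit 330)),(k4,(nat_lit 333)),(k5,(nat_lit 333)),(k1,(nat_lit 334)),
    (k7,(nat_lit 334)),(k8,(nat_lit 336)),(k9,(nat_lit 336)),(k6,(nat_lit 338))],[(k0,(nat_lit 310)),(k11,
    (nat_lit 313)),(k10,(nat_lit 317)),(k5,(nat_lit 327)),(k2,(nat_lit 330)),(k3,(nat_lit 330)),(k4,(nat_lit 333)),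
    (k8,(nat_lit 334)),(k9,(nat_lit 336)),(k6,(nat_lit 338)),(k7,(nat_lit 338)),(k1,(nat_lit 344))],[(k0,
    (nat_lit 302)),(k10,(nat_lit 311)),(k11,(nat_lit 315)),(k3,(nat_lit 322)),(k5,(nat_lit 325)),(k2,(nat_lit 328)),
    (k4,(nat_lit 331)),(k9,(nat_lit 334)),(k6,(nat_lit 336)),(k7,(nat_lit 336)),(k8,(nat_lit 336)),(k1,
    (nat_lit 338))],[(k1,(nat_lit 240)),(k0,(nat_lit 308)),(k10,(nat_lit 313)),(k11,(nat_lit 313)),(k2,(nat_lit 322)),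
    (k4,(nat_lit 331)),(k5,(nat_lit 331)),(k3,(nat_lit 332)),(k6,(nat_lit 334)),(k8,(nat_lit 334)),(k7,(nat_lit 336)),
    (k9,(nat_lit 336))],[(k0,(nat_lit 277)),(k11,(nat_lit 292)),(k2,(nat_lit 301)),(k3,(nat_lit 301)),(k4,
    (nat_lit 310)),(k5,(nat_lit 310)),(k6,(nat_lit 313)),(k8,(nat_lit 313)),(k7,(nat_lit 315)),(k9,(nat_lit 315)),(k1,
    (nat_lit 319)),(k10,(nat_lit 392))],[(k0,(nat_lit 257)),(k3,(nat_lit 271)),(k10,(nat_lit 276)),(k2,(nat_lit 289)),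
    (k9,(nat_lit 311)),(k8,(nat_lit 313)),(k6,(nat_lit 317)),(k4,(nat_lit 318)),(k5,(nat_lit 318)),(k1,(nat_lit 319)),
    (k7,(nat_lit 323)),(k11,(nat_lit 392))]]
    [[k2,k0,k0,k0,k1,k0],[k2,k0,k0,k0,k0,k1],[k1,k2,k0,k0,k0,k0],[k1,k1,k1,k0,k0,k0],[k1,k1,k0,k0,k1,k0],[k1,k1,k0,k0,
    k0,k1],[k1,k0,k1,k0,k0,k1],[k1,k0,k0,k1,k0,k1],[k1,k0,k1,k0,k1,k0],[k1,k0,k0,k1,k1,k0],[k1,k0,k0,k0,k2,k0],[k1,k0,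
    k0,k0,k1,k1],[k1,k0,k0,k0,k0,k2],[k0,k3,k0,k0,k0,k0],[k0,k2,k1,k0,k0,k0],[k0,k2,k0,k0,k0,k1],[k0,k1,k1,k0,k0,k1],
    [k0,k1,k0,k1,k0,k1],[k0,k1,k0,k0,k1,k1],[k0,k1,k0,k0,k0,k2],[k0,k0,k1,k0,k1,k1],[k0,k0,k1,k0,k0,k2],[k0,k0,k0,k1,
    k0,k2],[k0,k0,k0,k0,k1,k2]]
    [.ref k25 k0 [(z7,[z9,z1]),(z14,[y3,z2,z21]),(z14,[y9,z6,z0,z7]),(z7,[y6,z4,z0,z0,z21]),(z7,[z3,y2])],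
    .ref k25 k0 [(z4,[z6,z2,z3,z1,z6,y6]),(z24,[y6,z2,z33,y1,y6,z6]),(z8,[y6,z2,y3,z3,y6,z6]),(z6,[y6,z2,y3,y1,z12,
    z6]),(z12,[z6,y2,z3,z1,z6,y6])],.ref k25 k0 [(z2,[z9,y1,y9]),(z4,[y3,z1,z9]),(z4,[y9,z3,z9,z2]),(z1,[y3,z1,z3,z0,
    z3]),(z2,[z3,y1,y3])],.ref k25 k0 [(z2,[z18,y4,y9,y3]),(z4,[y6,z2,z9,z1]),(z4,[y18,z6,z9,z5]),(z1,[y6,z2,z3,z1,
    z3]),(z2,[z6,y2,y3,y1])],.ref k25 k0 [(z7,[z18,z1,y9]),(z7,[y3,z1,z12]),(z14,[y18,z6,z9,z7]),(z7,[y12,z4,z6,z0,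
    z21]),(z7,[z6,y2,y3])],.ref k25 k0 [(z5,[z18,z5,z0,z3,z18,y18]),(z10,[y6,z0,z15,y1,y6,z6]),(z5,[y9,z0,z0,z1,y9,
    z9]),(z5,[y12,z0,z0,y2,z3,z12]),(z5,[z6,z0,z0,z1,z6,y6])],.ref k25 k0 [(z1,[z6,z1,z3,z0,z6,y6]),(z1,[y1,z0,z1,z0,
    y1,z1]),(z2,[y6,z0,y3,z1,y6,z6]),(z1,[y4,z0,y2,z0,y1,z4]),(z1,[z2,z0,z1,z0,z2,y2])],.ref k25 k0 [(z2,[z18,z2,z9,
    z3,z0,y18]),(z4,[y6,z0,z3,y1,z0,z6]),(z4,[y18,z0,y9,y1,z0,z18]),(z1,[y6,z0,y3,y1,z3,z6]),(z2,[z6,z0,z3,z1,z0,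
    y6])],.ref k25 k0 [(z5,[z18,y1,z0,y3]),(z10,[y6,z2,z15,z1]),(z5,[y9,z3,z0,z4]),(z5,[y12,z4,z0,z2,z15]),(z5,[z6,y2,
    z0,y1])],.ref k25 k0 [(z2,[z9,y1,z0,z0,y9]),(z4,[y3,z1,z6,z0,z3]),(z4,[y9,z3,z0,z2,z9]),(z1,[y3,z1,z0,z0,z6]),(z2,
    [z3,y1,z0,z0,y3])],.ref k25 k0 [(z5,[z9,z2]),(z10,[y3,z1,z15]),(z10,[y9,z3,z0,z5]),(z5,[y6,z2,z0,z0,z15]),(z5,[z3,
    y1])],.ref k25 k0 [(z8,[z18,z8,z9,z3,z18,y18]),(z16,[y6,z0,z21,y1,y6,z6]),(z16,[y18,z0,y9,z5,y18,z18]),(z4,[y6,z0,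
    y3,y1,z6,z6]),(z8,[z6,z0,z3,z1,z6,y6])],.ref k25 k0 [(z1,[z3,z2,z3,z1,z6,y6]),(z6,[y3,y1,z6,y1,y6,z6]),(z2,[y3,y1,
    y3,z0,y6,z6]),(z3,[y6,y2,y6,y2,y3,z12]),(z3,[z3,z1,z3,z1,z6,y6])],.ref k25 k0 [(z1,[y6,z1,z9]),(z1,[z1]),(z2,[z6,
    z0,y9,z1]),(z1,[z4,z0,y6,z0,z3]),(z1,[y2,z0,z3])],.ref k25 k0 [(z5,[y18,z5,z18,z3]),(z10,[z6,z0,z9,y1]),(z5,[z9,
    z0,y9,z1]),(z5,[z12,z0,y12,y2,z15]),(z5,[y6,z0,z6,z1])],.ref k25 k0 [(z2,[y18,y4,z9,y3,y18,z18]),(z4,[z6,z2,z3,z1,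
    z6,y6]),(z4,[z18,z6,y9,z5,z18,y18]),(z1,[z6,z2,y3,z1,z9,y6]),(z2,[y6,y2,z3,y1,y6,z6])],.ref k25 k0 [(z2,[y9,y1,z0,
    z0,y9,z9]),(z4,[z3,z1,z6,z0,z3,y3]),(z4,[z9,z3,z0,z2,z9,y9]),(z1,[z3,z1,z0,z0,z6,y3]),(z2,[y3,y1,z0,z0,y3,z3])],
    .ref k25 k0 [(z5,[y18,y1,z0,y3,z0,z18]),(z10,[z6,z2,z15,z1,z0,y6]),(z5,[z9,z3,z0,z4,z0,y9]),(z5,[z12,z4,z0,z2,z15,
    y12]),(z5,[y6,y2,z0,y1,z0,z6])],.ref k25 k0 [(z1,[z18,z7,z0,z3,z18,y18]),(z2,[y6,y2,z3,y1,y6,z6]),(z1,[y9,y3,z0,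
    y1,y9,z9]),(z1,[y12,y4,z0,y2,y9,z12]),(z1,[z6,z2,z0,z1,z6,y6])],.ref k25 k0 [(z1,[y18,y11,y9,y6,y36,z36]),(z1,[z3,
    z2,z3,z1,z6,y6]),(z2,[z18,z12,z9,z7,z36,y36]),(z1,[z12,z8,z6,z4,z27,y24]),(z1,[y6,y4,y3,y2,y12,z12])],
    .ref k25 k0 [(z1,[y18,y5,y9,z0,y18,z18]),(z1,[z3,z1,z3,z0,z3,y3]),(z2,[z18,z6,z9,z1,z18,y18]),(z1,[z12,z4,z6,z0,
    z15,y12]),(z1,[y6,y2,y3,z0,y6,z6])],.ref k25 k0 [(z1,[y6,y3,y6,y1,y12,z12]),(z6,[z6,z4,z15,z1,z12,y12]),(z1,[z3,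
    z2,z3,z1,z6,y6]),(z3,[z12,z8,z12,z2,z33,y24]),(z3,[y6,y4,y6,y1,y12,z12])],.ref k25 k0 [(z2,[y9,y4,y9,y3,y9,z18]),
    (z4,[z3,z2,z9,z1,z3,y6]),(z4,[z9,z6,z9,z5,z9,y18]),(z1,[z3,z2,z3,z1,z6,y6]),(z2,[y3,y2,y3,y1,y3,z6])],
    .ref k25 k0 [(z1,[z9,z7,z9,z3,z18,y18]),(z2,[y3,y2,z0,y1,y6,z6]),(z2,[y9,y6,y9,y2,y18,z18]),(z1,[y6,y4,y6,y2,y9,
    z12]),(z1,[z3,z2,z3,z1,z6,y6])]],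
    .lp k0 [(nat_lit 314),(nat_lit 310),(nat_lit 328),(nat_lit 338),(nat_lit 334),(nat_lit 292)] [k32,k0,k18,k18,k9,
    k9,k4,k4,k6,k6,k27,k27] k0 [[k0,k0,k6,k0,k0,k6,k6,k0,k10,k0,k0,k30],[k0,k0,k6,k0,k0,k0,k0,k0,k0,k0,k0,k30],[k0,k0,
    k0,k4,k4,k0,k0,k0,k0,k0,k8,k12],[k6,k6,k0,k0,k0,k0,k6,k6,k0,k0,k0,k0],[k0,k6,k0,k0,k0,k0,k0,k0,k0,k0,k8,k0],[k0,
    k0,k0,k4,k4,k0,k0,k0,k0,k0,k8,k0],[k0,k0,k6,k0,k0,k0,k0,k0,k2,k2,k0,k0],[k0,k6,k6,k0,k0,k0,k0,k0,k0,k0,k2,k2],[k0,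
    k0,k0,k0,k0,k0,k0,k2,k0,k0,k100,k0],[k0,k10,k0,k0,k0,k0,k0,k2,k0,k0,k0,k0],[k30,k30,k0,k12,k0,k0,k2,k0,k0,k0,k0,
    k16],[k0,k0,k0,k8,k8,k8,k2,k0,k0,k100,k0,k0]] (nat_lit 960) k5
    [[(k8,(nat_lit 240)),(k10,(nat_lit 319)),(k11,(nat_lit 319)),(k2,(nat_lit 320)),(k4,(nat_lit 329)),(k7,
    (nat_lit 334)),(k9,(nat_lit 338)),(k0,(nat_lit 344)),(k6,(nat_lit 344)),(k5,(nat_lit 349)),(k3,(nat_lit 358)),(k1,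
    (nat_lit 362))],[(k10,(nat_lit 257)),(k11,(nat_lit 277)),(k0,(nat_lit 282)),(k3,(nat_lit 296)),(k4,(nat_lit 299)),
    (k5,(nat_lit 299)),(k2,(nat_lit 302)),(k9,(nat_lit 302)),(k8,(nat_lit 308)),(k6,(nat_lit 310)),(k7,(nat_lit 310)),
    (k1,(nat_lit 344))],[(k10,(nat_lit 271)),(k0,(nat_lit 296)),(k11,(nat_lit 301)),(k3,(nat_lit 310)),(k5,
    (nat_lit 313)),(k2,(nat_lit 316)),(k4,(nat_lit 319)),(k9,(nat_lit 322)),(k6,(nat_lit 330)),(k7,(nat_lit 330)),(k8,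
    (nat_lit 332)),(k1,(nat_lit 358))],[(k10,(nat_lit 289)),(k11,(nat_lit 301)),(k0,(nat_lit 302)),(k2,(nat_lit 306)),
    (k3,(nat_lit 316)),(k4,(nat_lit 319)),(k5,(nat_lit 319)),(k1,(nat_lit 320)),(k7,(nat_lit 320)),(k8,(nat_lit 322)),
    (k9,(nat_lit 328)),(k6,(nat_lit 330))],[(k0,(nat_lit 299)),(k11,(nat_lit 310)),(k3,(nat_lit 313)),(k10,
    (nat_lit 318)),(k2,(nat_lit 319)),(k9,(nat_lit 325)),(k6,(nat_lit 327)),(k8,(nat_lit 331)),(k4,(nat_lit 332)),(k5,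
    (nat_lit 332)),(k7,(nat_lit 333)),(k1,(nat_lit 349))],[(k0,(nat_lit 299)),(k11,(nat_lit 310)),(k10,(nat_lit 318)),
    (k2,(nat_lit 319)),(k3,(nat_lit 319)),(k1,(nat_lit 329)),(k8,(nat_lit 331)),(k9,(nat_lit 331)),(k4,(nat_lit 332)),
    (k5,(nat_lit 332)),(k6,(nat_lit 333)),(k7,(nat_lit 333))],[(k0,(nat_lit 310)),(k11,(nat_lit 315)),(k2,
    (nat_lit 320)),(k10,(nat_lit 323)),(k3,(nat_lit 330)),(k4,(nat_lit 333)),(k5,(nat_lit 333)),(k1,(nat_lit 334)),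
    (k7,(nat_lit 334)),(k8,(nat_lit 336)),(k9,(nat_lit 336)),(k6,(nat_lit 338))],[(k0,(nat_lit 310)),(k11,
    (nat_lit 313)),(k10,(nat_lit 317)),(k5,(nat_lit 327)),(k2,(nat_lit 330)),(k3,(nat_lit 330)),(k4,(nat_lit 333)),
    (k8,(nat_lit 334)),(k9,(nat_lit 336)),(k6,(nat_lit 338)),(k7,(nat_lit 338)),(k1,(nat_lit 344))],[(k0,
    (nat_lit 302)),(k10,(nat_lit 311)),(k11,(nat_lit 315)),(k3,(nat_lit 322)),(k5,(nat_lit 325)),(k2,(nat_lit 328)),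
    (k4,(nat_lit 331)),(k9,(nat_lit 334)),(k6,(nat_lit 336)),(k7,(nat_lit 336)),(k8,(nat_lit 336)),(k1,
    (nat_lit 338))],[(k1,(nat_lit 240)),(k0,(nat_lit 308)),(k10,(nat_lit 313)),(k11,(nat_lit 313)),(k2,(nat_lit 322)),
    (k4,(nat_lit 331)),(k5,(nat_lit 331)),(k3,(nat_lit 332)),(k6,(nat_lit 334)),(k8,(nat_lit 334)),(k7,(nat_lit 336)),
    (k9,(nat_lit 336))],[(k0,(nat_lit 277)),(k11,(nat_lit 292)),(k2,(nat_lit 301)),(k3,(nat_lit 301)),(k4,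
    (nat_lit 310)),(k5,(nat_lit 310)),(k6,(nat_lit 313)),(k8,(nat_lit 313)),(k7,(nat_lit 315)),(k9,(nat_lit 315)),(k1,
    (nat_lit 319)),(k10,(nat_lit 392))],[(k0,(nat_lit 257)),(k3,(nat_lit 271)),(k10,(nat_lit 276)),(k2,(nat_lit 289)),
    (k9,(nat_lit 311)),(k8,(nat_lit 313)),(k6,(nat_lit 317)),(k4,(nat_lit 318)),(k5,(nat_lit 318)),(k1,(nat_lit 319)),
    (k7,(nat_lit 323)),(k11,(nat_lit 392))]]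
    [[k2,k0,k0,k0,k1,k0],[k2,k0,k0,k0,k0,k1],[k1,k2,k0,k0,k0,k0],[k1,k1,k1,k0,k0,k0],[k1,k1,k0,k0,k1,k0],[k1,k1,k0,k0,
    k0,k1],[k1,k0,k1,k0,k0,k1],[k1,k0,k0,k1,k0,k1],[k1,k0,k1,k0,k1,k0],[k1,k0,k0,k1,k1,k0],[k1,k0,k0,k0,k2,k0],[k1,k0,
    k0,k0,k1,k1],[k1,k0,k0,k0,k0,k2],[k0,k3,k0,k0,k0,k0],[k0,k2,k1,k0,k0,k0],[k0,k2,k0,k0,k0,k1],[k0,k1,k1,k0,k0,k1],
    [k0,k1,k0,k1,k0,k1],[k0,k1,k0,k0,k1,k1],[k0,k1,k0,k0,k0,k2],[k0,k0,k1,k0,k1,k1],[k0,k0,k1,k0,k0,k2],[k0,k0,k0,k1,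
    k0,k2],[k0,k0,k0,k0,k1,k2]]
    [.ref k25 k0 [(z14,[z15,z1]),(z14,[y6,z1,z21]),(z28,[z6,y1,z0,z21]),(z7,[y12,z2,z0,z0,z21]),(z7,[z6,y1])],
    .ref k25 k0 [(z8,[z12,z1,z6,z3,z12,y12]),(z20,[y12,z1,z24,y3,y12,z12]),(z40,[z12,y1,z6,z33,z12,y12]),(z5,[y12,z1,
    y6,y3,z3,z12]),(z10,[z12,y1,z6,z3,z12,y12])],.ref k25 k0 [(z1,[z15,y1,y15]),(z2,[y12,z1,z15]),(z4,[z12,y1,y12,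
    z3]),(z1,[y24,z2,z24,z0,z3]),(z1,[z12,y1,y12])],.ref k25 k0 [(z16,[z60,y1,y30,y15]),(z8,[y12,z1,z18,z3]),(z16,
    [z12,y1,y6,z9]),(z2,[y12,z1,z6,z3,z6]),(z4,[z12,y1,y6,y3])],.ref k25 k0 [(z14,[z30,z1,y15]),(z14,[y12,z1,z27]),
    (z28,[z12,y1,y6,z21]),(z7,[y24,z2,z12,z0,z21]),(z7,[z12,y1,y6])],.ref k25 k0 [(z4,[z20,z1,z0,z5,z20,y20]),(z2,[y4,
    z0,z3,y1,y4,z4]),(z1,[z1,z0,z0,z1,z1,y1]),(z1,[y8,z0,z0,y2,y5,z8]),(z1,[z4,z0,z0,z1,z4,y4])],.ref k25 k0 [(z4,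
    [z10,z1,z5,z0,z10,y10]),(z1,[y1,z0,z1,z0,y1,z1]),(z4,[z2,z0,z1,z3,z2,y2]),(z1,[y4,z0,y2,z0,y1,z4]),(z1,[z2,z0,z1,
    z0,z2,y2])],.ref k25 k0 [(z4,[y20,z1,y10,y5,z0,z20]),(z2,[z4,z0,z5,z1,z0,y4]),(z2,[y2,z0,y1,z1,z0,z2]),(z1,[z8,z0,
    z4,z2,z3,y8]),(z1,[y4,z0,y2,y1,z0,z4])],.ref k25 k0 [(z8,[z12,z1,z0,y3]),(z20,[y12,z1,z30,z3]),(z40,[z12,y1,z0,
    z27]),(z5,[y12,z1,z0,z3,z15]),(z10,[z12,y1,z0,y3])],.ref k25 k0 [(z1,[z15,y1,z0,z0,y15]),(z2,[y12,z1,z3,z0,z12]),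
    (z4,[z12,y1,z0,z3,y12]),(z1,[y24,z2,z0,z0,z27]),(z1,[z12,y1,z0,z0,y12])],.ref k25 k0 [(z13,[z15,z2]),(z26,[y12,z1,
    z39]),(z52,[z12,y1,z0,z39]),(z13,[y24,z2,z0,z0,z39]),(z13,[z12,y1])],.ref k25 k0 [(z12,[z20,z3,z10,z5,z20,y20]),
    (z6,[y4,z0,z7,y1,y4,z4]),(z6,[z2,z0,z1,z5,z2,y2]),(z3,[y8,z0,y4,y2,z1,z8]),(z3,[z4,z0,z2,z1,z4,y4])],
    .ref k25 k0 [(z2,[z6,z1,z6,z3,z12,y12]),(z10,[y12,y1,z3,y6,y24,z24]),(z20,[z12,z1,z12,z21,z24,y24]),(z5,[y24,y2,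
    y24,y12,y33,z48]),(z5,[z12,z1,z12,z6,z24,y24])],.ref k25 k0 [(z4,[y10,z1,z15]),(z1,[z1]),(z4,[y2,z0,z3,z3]),(z1,
    [z4,z0,y6,z0,z3]),(z1,[y2,z0,z3])],.ref k25 k0 [(z4,[y20,z1,z20,z5]),(z2,[z4,z0,y1,y1]),(z1,[y1,z0,z1,z1]),(z1,
    [z8,z0,y8,y2,z3]),(z1,[y4,z0,z4,z1])],.ref k25 k0 [(z16,[y60,y1,z30,y15,y60,z60]),(z8,[z12,z1,z6,z3,z12,y12]),
    (z16,[y12,y1,z6,z9,y12,z12]),(z2,[z12,z1,y6,z3,z18,y12]),(z4,[y12,y1,z6,y3,y12,z12])],.ref k25 k0 [(z1,[y15,y1,z0,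
    z0,y15,z15]),(z2,[z12,z1,z3,z0,z12,y12]),(z4,[y12,y1,z0,z3,y12,z12]),(z1,[z24,z2,z0,z0,z27,y24]),(z1,[y12,y1,z0,
    z0,y12,z12])],.ref k25 k0 [(z8,[y12,z1,z0,y3,z0,z12]),(z20,[z12,z1,z30,z3,z0,y12]),(z40,[y12,y1,z0,z27,z0,z12]),
    (z5,[z12,z1,z0,z3,z15,y12]),(z10,[y12,y1,z0,y3,z0,z12])],.ref k25 k0 [(z8,[z60,z7,z0,z15,z60,y60]),(z4,[y12,y1,z6,
    y3,y12,z12]),(z8,[z12,z1,z0,z9,z12,y12]),(z1,[y12,y1,z0,y3,y9,z12]),(z2,[z12,z1,z0,z3,z12,y12])],.ref k25 k0 [(z4,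
    [y30,y4,y15,y15,y60,z60]),(z2,[z6,z1,z6,z3,z12,y12]),(z4,[y6,y1,y3,z0,y12,z12]),(z1,[z12,z2,z6,z6,z27,y24]),(z1,
    [y6,y1,y3,y3,y12,z12])],.ref k25 k0 [(z2,[z6,z1,z3,z0,z6,y6]),(z10,[y12,y1,z9,z0,y12,z12]),(z20,[z12,z1,z6,z15,
    z12,y12]),(z5,[y24,y2,y12,z0,y9,z24]),(z5,[z12,z1,z6,z0,z12,y12])],.ref k25 k0 [(z4,[z60,z11,z60,z15,
    (Int.ofNat (nat_lit 120)),(Int.negSucc (nat_lit 119))]),(z2,[y12,y2,y9,y3,y24,z24]),(z2,[z6,z1,z6,z3,z12,y12]),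
    (z1,[y24,y4,y24,y6,y45,z48]),(z1,[z12,z2,z12,z3,z24,y24])],.ref k25 k0 [(z16,[y30,y1,y30,y15,y30,z60]),(z8,[z6,z1,
    z18,z3,z6,y12]),(z16,[y6,y1,y6,z9,y6,z12]),(z2,[z6,z1,z6,z3,z12,y12]),(z4,[y6,y1,y6,y3,y6,z12])],.ref k25 k0 [(z8,
    [z30,z7,z30,z15,z60,y60]),(z4,[y6,y1,z0,y3,y12,z12]),(z8,[z6,z1,z6,z9,z12,y12]),(z1,[y6,y1,y6,y3,y9,z12]),(z2,[z6,
    z1,z6,z3,z12,y12])]],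
    .lp k0 [k40,k40,k40,k44,k44,k30] [k2,k2,k2,k2,k2,k2,k0,k0,k0,k0,k7,k7] k0 [[k0,k0,k0,k0,k0,k0,k0,k0,k0,k0,k0,k0],
    [k0,k0,k0,k0,k2,k0,k0,k0,k0,k0,k0,k2],[k0,k0,k0,k0,k2,k0,k0,k0,k0,k0,k0,k2],[k0,k0,k0,k0,k0,k0,k0,k0,k0,k0,k0,k0],
    [k0,k0,k0,k0,k0,k0,k0,k0,k0,k0,k2,k0],[k2,k0,k0,k2,k0,k0,k0,k0,k0,k0,k0,k0],[k0,k0,k0,k0,k0,k0,k0,k0,k0,k0,k2,k0],
    [k0,k0,k0,k0,k0,k0,k0,k0,k0,k0,k2,k0],[k0,k0,k0,k0,k0,k0,k0,k0,k0,k0,k0,k0],[k0,k0,k0,k0,k0,k0,k0,k0,k0,k0,k2,k0],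
    [k2,k0,k0,k2,k0,k0,k0,k0,k0,k0,k0,k0],[k0,k0,k0,k0,k0,k2,k2,k2,k2,k0,k0,k0]] k120 k5
    [[(k11,k33),(k10,k35),(k4,k38),(k1,k40),(k2,k40),(k3,k40),(k6,k40),(k9,k40),(k0,k42),(k5,k42),(k7,k42),(k8,k42)],
    [(k10,k35),(k11,k35),(k0,k40),(k2,k40),(k3,k40),(k5,k40),(k1,k42),(k4,k42),(k6,k42),(k7,k42),(k8,k42),(k9,k42)],
    [(k10,k33),(k11,k35),(k0,k40),(k1,k40),(k2,k40),(k3,k40),(k4,k40),(k5,k40),(k7,k40),(k6,k42),(k8,k42),(k9,k42)],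
    [(k10,k33),(k11,k35),(k0,k40),(k1,k40),(k2,k40),(k3,k40),(k4,k40),(k5,k40),(k7,k40),(k6,k42),(k8,k42),(k9,k42)],
    [(k10,k35),(k11,k35),(k0,k40),(k2,k40),(k3,k40),(k5,k40),(k1,k42),(k4,k42),(k6,k42),(k7,k42),(k8,k42),(k9,k42)],
    [(k10,k35),(k11,k35),(k1,k38),(k2,k40),(k3,k40),(k4,k40),(k0,k42),(k5,k42),(k6,k42),(k7,k42),(k8,k42),(k9,k42)],
    [(k11,k37),(k10,k39),(k2,k40),(k3,k40),(k0,k42),(k1,k42),(k4,k42),(k5,k42),(k6,k44),(k7,k44),(k8,k44),(k9,k44)],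
    [(k11,k37),(k10,k39),(k1,k40),(k0,k42),(k2,k42),(k3,k42),(k4,k42),(k5,k42),(k6,k44),(k7,k44),(k8,k44),(k9,k44)],
    [(k11,k37),(k10,k39),(k1,k40),(k0,k42),(k2,k42),(k3,k42),(k4,k42),(k5,k42),(k6,k44),(k7,k44),(k8,k44),(k9,k44)],
    [(k11,k37),(k10,k39),(k0,k42),(k1,k42),(k2,k42),(k3,k42),(k4,k42),(k5,k42),(k6,k44),(k7,k44),(k8,k44),(k9,k44)],
    [(k10,k30),(k11,k30),(k1,k33),(k0,k35),(k2,k35),(k3,k35),(k4,k35),(k5,k35),(k6,k37),(k7,k37),(k8,k37),(k9,k37)],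
    [(k10,k30),(k11,k30),(k2,k33),(k3,k33),(k0,k35),(k1,k35),(k4,k35),(k5,k35),(k6,k39),(k7,k39),(k8,k39),(k9,k39)]]
    [[k2,k0,k0,k0,k0,k1],[k1,k1,k0,k0,k0,k1],[k1,k1,k1,k0,k0,k0],[k1,k0,k1,k0,k0,k1],[k1,k0,k0,k1,k0,k1],[k1,k0,k0,k0,
    k1,k1],[k1,k0,k0,k0,k0,k2],[k0,k2,k0,k0,k0,k1],[k0,k1,k1,k0,k0,k1],[k0,k1,k0,k1,k0,k1],[k0,k1,k0,k0,k1,k1],[k0,k1,
    k0,k0,k0,k2],[k0,k0,k2,k0,k0,k1],[k0,k0,k1,k1,k0,k1],[k0,k0,k1,k0,k1,k1],[k0,k0,k1,k0,k0,k2],[k0,k0,k0,k1,k0,k2],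
    [k0,k0,k0,k0,k1,k2],[k0,k0,k0,k0,k0,k3]]
    [.ref k179 k2 [(z1,[y3,z3,y3,y1,z3]),(z1,[z0,z0,z0,z1]),(z1,[z0,z0,z1]),(z1,[z0,z1])],.ref k180 k10 [(z1,[z6,z0,
    z3,z2,y6]),(z1,[y12,z3,z0,y4,z12]),(z1,[z9,y3,y3,z2,y6]),(z1,[y3,z0,z0,y1,z3])],.ref k97 k0 [(z1,[z6,y3,y6,y2]),
    (z1,[y3,z3,z6,z1]),(z1,[z0,z0,z0,z1]),(z2,[y9,z3,z3,z1,z6])],.ref k181 k2 [(z1,[y1,z0,y1,z0,z1]),(z1,[z0,z0,z0,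
    z1]),(z1,[z0,z0,z1]),(z1,[z0,z1])],.ref k97 k0 [(z1,[z12,z3,z12,z4,y12]),(z1,[y6,z0,y3,y2,z6]),(z1,[z0,z0,z0,z1]),
    (z1,[y9,y3,y12,y4,z12])],.ref k182 k2 [(z1,[y3,z0,y3,y1,z3]),(z1,[z0,z0,z0,z1]),(z1,[z0,z0,z1]),(z1,[z0,z1])],
    .ref k180 k10 [(z1,[z3,z3,z9,z2,y6]),(z1,[y6,y3,y12,y4,z12]),(z2,[z9,z3,z12,z4,y12]),(z2,[y3,y3,y6,y2,z6])],
    .ref k183 k3 [(z1,[y6,y6,y15,y2,z6]),(z1,[z0,z0,z1]),(z1,[z1]),(z1,[z0,z1,z2])],.ref k184 k3 [(z1,[y2,y2,y5,z0,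
    z2]),(z1,[z0,z0,z1]),(z1,[z3,z0,z0,y1]),(z1,[z0,z1,z2])],.ref k97 k0 [(z5,[y12,z3,z0,y4,z12]),(z5,[z6,z6,z15,z2,
    y6]),(z1,[z0,z0,z0,z1]),(z5,[z9,y6,y15,y2,z6])],.ref k185 k3 [(z1,[y3,y3,y6,y1,z3]),(z1,[z0,z0,z1]),(z1,[z2,z0,
    y1]),(z1,[z0,z1,z2])],.ref k185 k3 [(z2,[y3,y6,y15,y2,z6]),(z1,[z0,z0,z1]),(z1,[z1]),(z1,[z0,z1,z2])],
    .ref k186 k0 [(z1,[z0,z1]),(z1,[z0,z0,z1]),(z1,[z0,z0,z0,z1]),(z1,[y3,y3,y3,z1,z3])],.ref k97 k0 [(z1,[y4,y1,y4,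
    z0,z4]),(z1,[z2,z2,z5,z0,y2]),(z1,[z0,z0,z0,z1]),(z1,[z3,z0,z0,y1])],.ref k187 k3 [(z1,[y1,y1,y2,z0,z1]),(z1,[z0,
    z0,z1]),(z1,[z6,z0,y3,y2]),(z1,[z0,z1,z2])],.ref k186 k0 [(z1,[z0,z1]),(z1,[z0,z0,z1]),(z1,[z0,z0,z0,z1]),(z2,[y3,
    y6,y6,y1,z6])],.ref k188 k3 [(z1,[y3,y6,y15,y2,z6]),(z1,[z0,z0,z1]),(z1,[z6,z6,z15,z2,y6]),(z1,[z0,z1,z2])],
    .ref k189 k3 [(z1,[y6,y12,y27,y4,z12]),(z1,[z0,z0,z1]),(z1,[z2,z0,y1]),(z1,[z0,z1,z2])],.ref k186 k0 [(z1,[z0,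
    z1]),(z1,[z0,z0,z1]),(z1,[z0,z0,z0,z1]),(z1,[y1,y3,y3,y1,z3])]],
    .base (.leafM k3 [k2,k3,k4,k5,k0,k1] [(z3,[z0,y1,y1,z3])] [])]

theorem hB6_171_15 : blkB [0, 0, 0, 0, 0, 0] [] sp6 hS6_171 (pcls (n := 6) [0, 0, 0, 0, 0, 0]) hD6_171 560 15 hN6_171_15 = true := by
  decide +kernel

/-- nodes 192 to 203 -/
noncomputable def hN6_171_16 : List HM :=
  [.base (.leafM k1 [k0,k1,k2,k3,k4,k5] [(z1,[z0,z1]),(z1,[z0,y1,z0,z1])] []),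
    .base (.leafM k3 [k5,k0,k1,k2,k3,k4] [(z1,[z0,y1,z0,z1])] []),
    .base (.leafM k0 [k1,k2,k3,k4,k5,k0] [(z3,[y1,y1,z0,z3])] []),
    .lp k0 [(nat_lit 458),(nat_lit 452),(nat_lit 506),(nat_lit 512),(nat_lit 506),(nat_lit 440)] [k24,k34,k32,k32,k5,
    k5,k2,k2,k0,k10,k38,k38] k0 [[k0,k18,k0,k0,k0,k0,k0,k0,k0,k132,k18,k0],[k0,k0,k18,k18,k18,k12,k30,k0,k0,k0,k0,k0],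
    [k18,k0,k0,k6,k0,k0,k6,k0,k0,k0,k0,k18],[k18,k0,k0,k0,k0,k0,k6,k0,k0,k96,k0,k6],[k12,k0,k0,k0,k0,k0,k0,k0,k6,k36,
    k0,k12],[k18,k0,k0,k0,k24,k0,k0,k18,k0,k0,k0,k18],[k0,k0,k0,k0,k18,k0,k0,k54,k6,k36,k0,k0],[k30,k0,k6,k6,k0,k0,k0,
    k0,k0,k0,k78,k18],[k0,k132,k96,k0,k0,k36,k0,k36,k0,k0,k114,k0],[k0,k0,k0,k0,k0,k6,k0,k6,k12,k0,k84,k0],[k0,k0,k6,
    k18,k18,k12,k18,k0,k0,k0,k0,k0],[k0,k18,k0,k0,k0,k0,k78,k0,k84,k114,k18,k0]] (nat_lit 1440) k5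
    [[(k11,(nat_lit 360)),(k8,(nat_lit 368)),(k9,(nat_lit 394)),(k1,(nat_lit 430)),(k0,(nat_lit 440)),(k10,
    (nat_lit 444)),(k3,(nat_lit 450)),(k2,(nat_lit 456)),(k7,(nat_lit 492)),(k4,(nat_lit 495)),(k5,(nat_lit 495)),(k6,
    (nat_lit 498))],[(k8,(nat_lit 360)),(k1,(nat_lit 440)),(k0,(nat_lit 450)),(k10,(nat_lit 454)),(k11,(nat_lit 454)),
    (k3,(nat_lit 460)),(k2,(nat_lit 478)),(k9,(nat_lit 482)),(k7,(nat_lit 502)),(k4,(nat_lit 505)),(k5,(nat_lit 505)),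
    (k6,(nat_lit 520))],[(k2,(nat_lit 434)),(k9,(nat_lit 444)),(k1,(nat_lit 450)),(k0,(nat_lit 460)),(k5,
    (nat_lit 461)),(k7,(nat_lit 464)),(k10,(nat_lit 464)),(k4,(nat_lit 467)),(k3,(nat_lit 470)),(k6,(nat_lit 482)),
    (k8,(nat_lit 484)),(k11,(nat_lit 578))],[(k10,(nat_lit 428)),(k3,(nat_lit 434)),(k2,(nat_lit 446)),(k1,
    (nat_lit 456)),(k9,(nat_lit 468)),(k0,(nat_lit 478)),(k4,(nat_lit 479)),(k5,(nat_lit 479)),(k7,(nat_lit 482)),(k8,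
    (nat_lit 484)),(k6,(nat_lit 488)),(k11,(nat_lit 542))],[(k8,(nat_lit 415)),(k3,(nat_lit 461)),(k10,(nat_lit 467)),
    (k11,(nat_lit 473)),(k2,(nat_lit 479)),(k1,(nat_lit 495)),(k9,(nat_lit 495)),(k0,(nat_lit 505)),(k4,
    (nat_lit 506)),(k7,(nat_lit 509)),(k5,(nat_lit 512)),(k6,(nat_lit 515))],[(k10,(nat_lit 461)),(k3,(nat_lit 467)),
    (k11,(nat_lit 467)),(k8,(nat_lit 475)),(k2,(nat_lit 479)),(k1,(nat_lit 495)),(k0,(nat_lit 505)),(k5,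
    (nat_lit 506)),(k6,(nat_lit 509)),(k7,(nat_lit 509)),(k9,(nat_lit 519)),(k4,(nat_lit 530))],[(k10,(nat_lit 458)),
    (k3,(nat_lit 464)),(k2,(nat_lit 482)),(k7,(nat_lit 488)),(k1,(nat_lit 492)),(k6,(nat_lit 494)),(k0,(nat_lit 502)),
    (k9,(nat_lit 504)),(k4,(nat_lit 509)),(k5,(nat_lit 509)),(k11,(nat_lit 512)),(k8,(nat_lit 520))],[(k6,
    (nat_lit 458)),(k11,(nat_lit 470)),(k8,(nat_lit 478)),(k3,(nat_lit 482)),(k2,(nat_lit 488)),(k7,(nat_lit 494)),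
    (k1,(nat_lit 498)),(k9,(nat_lit 504)),(k4,(nat_lit 509)),(k5,(nat_lit 515)),(k0,(nat_lit 520)),(k10,
    (nat_lit 554))],[(k1,(nat_lit 394)),(k3,(nat_lit 444)),(k10,(nat_lit 450)),(k2,(nat_lit 468)),(k0,(nat_lit 482)),
    (k5,(nat_lit 495)),(k6,(nat_lit 504)),(k7,(nat_lit 504)),(k11,(nat_lit 504)),(k8,(nat_lit 512)),(k4,
    (nat_lit 519)),(k9,(nat_lit 550))],[(k0,(nat_lit 360)),(k1,(nat_lit 368)),(k5,(nat_lit 415)),(k4,(nat_lit 475)),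
    (k6,(nat_lit 478)),(k11,(nat_lit 478)),(k2,(nat_lit 484)),(k3,(nat_lit 484)),(k9,(nat_lit 512)),(k7,
    (nat_lit 520)),(k8,(nat_lit 528)),(k10,(nat_lit 562))],[(k1,(nat_lit 360)),(k11,(nat_lit 428)),(k0,(nat_lit 454)),
    (k4,(nat_lit 467)),(k6,(nat_lit 470)),(k5,(nat_lit 473)),(k8,(nat_lit 478)),(k9,(nat_lit 504)),(k7,(nat_lit 512)),
    (k2,(nat_lit 542)),(k10,(nat_lit 554)),(k3,(nat_lit 578))],[(k2,(nat_lit 428)),(k1,(nat_lit 444)),(k9,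
    (nat_lit 450)),(k0,(nat_lit 454)),(k7,(nat_lit 458)),(k10,(nat_lit 458)),(k4,(nat_lit 461)),(k3,(nat_lit 464)),
    (k5,(nat_lit 467)),(k6,(nat_lit 554)),(k11,(nat_lit 554)),(k8,(nat_lit 562))]]
    [[k3,k0,k0,k0,k0,k0],[k2,k1,k0,k0,k0,k0],[k2,k0,k0,k0,k1,k0],[k2,k0,k0,k0,k0,k1],[k1,k2,k0,k0,k0,k0],[k1,k1,k1,k0,
    k0,k0],[k1,k1,k0,k0,k1,k0],[k1,k1,k0,k0,k0,k1],[k1,k0,k1,k0,k1,k0],[k1,k0,k1,k0,k0,k1],[k1,k0,k0,k1,k1,k0],[k1,k0,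
    k0,k1,k0,k1],[k1,k0,k0,k0,k2,k0],[k1,k0,k0,k0,k1,k1],[k1,k0,k0,k0,k0,k2],[k0,k3,k0,k0,k0,k0],[k0,k2,k1,k0,k0,k0],
    [k0,k2,k0,k1,k0,k0],[k0,k2,k0,k0,k1,k0],[k0,k1,k1,k0,k1,k0],[k0,k1,k1,k0,k0,k1],[k0,k1,k0,k1,k0,k1],[k0,k1,k0,k2,
    k0,k0],[k0,k1,k0,k1,k1,k0],[k0,k1,k0,k0,k1,k1],[k0,k1,k0,k0,k0,k2],[k0,k0,k1,k1,k1,k0],[k0,k0,k1,k0,k1,k1],[k0,k0,
    k1,k0,k0,k2],[k0,k0,k0,k2,k0,k1]]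
    [.ref k25 k0 [(z1,[z1]),(z10,[y4,z1,z15]),(z20,[z4,y1,z0,z15]),(z1,[z0,z0,z0,z0,z1]),(z20,[y32,z3,y30,y15,y20,
    z60])],.ref k25 k0 [(z16,[z30,y1,y15]),(z8,[y6,z1,z15]),(z16,[z6,y1,y3,z12]),(z1,[z0,z0,z0,z0,z1]),(z4,[y12,z1,z0,
    y3,y4,z12])],.ref k25 k0 [(z8,[z60,y3,z30,z15,z20,y60]),(z4,[y12,z1,z0,y3,y4,z12]),(z8,[z12,y1,z6,z9,z4,y12]),(z1,
    [z0,z0,z0,z0,z1]),(z4,[y48,z3,y30,y15,y20,z60])],.ref k25 k0 [(z14,[z15,z1]),(z14,[y6,z1,z21]),(z28,[z6,y1,z0,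
    z21]),(z1,[z0,z0,z0,z0,z1]),(z28,[y48,z1,y42,y21,y28,z84])],.ref k25 k0 [(z1,[z15,y1,y15]),(z2,[y12,z1,z15]),(z4,
    [z12,y1,y12,z3]),(z1,[z0,z0,z0,z0,z1]),(z4,[y96,z7,z90,y3,y4,z12])],.ref k25 k0 [(z16,[z60,y1,y30,y15]),(z8,[y12,
    z1,z18,z3]),(z16,[z12,y1,y6,z9]),(z1,[z0,z0,z0,z0,z1]),(z4,[y24,z1,z6,z3,y4,z12])],.ref k25 k0 [(z4,[y12,z1,z0,y3,
    y4,z12]),(z10,[z12,z0,z15,z3,z4,y12]),(z5,[y3,z0,z0,z3,y1,z3]),(z1,[z0,z0,z0,z0,z1]),(z20,[z96,y5,y30,z9,z12,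
    y36])],.ref k25 k0 [(z14,[z30,z1,y15]),(z14,[y12,z1,z27]),(z28,[z12,y1,y6,z21]),(z1,[z0,z0,z0,z0,z1]),(z28,[y96,
    z1,z6,y21,y28,z84])],.ref k25 k0 [(z4,[y30,z1,y15,z0,y10,z30]),(z1,[z3,z0,z3,z0,z1,y3]),(z4,[y6,z0,y3,z3,y2,z6]),
    (z1,[z0,z0,z0,z0,z1]),(z4,[z48,y1,z18,y3,z12,y36])],.ref k25 k0 [(z8,[z12,z1,z0,y3]),(z20,[y12,z1,z30,z3]),(z40,
    [z12,y1,z0,z27]),(z1,[z0,z0,z0,z0,z1]),(z20,[y48,y1,y30,y3,y20,z60])],.ref k25 k0 [(z4,[y20,z1,y10,y5,z0,z20]),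
    (z2,[z4,z0,z5,z1,z0,y4]),(z2,[y2,z0,y1,z1,z0,z2]),(z1,[z0,z0,z0,z0,z1]),(z4,[z32,y1,z10,z5,y4,y20])],
    .ref k25 k0 [(z9,[z15,z1,z0,z0,y5]),(z18,[y12,z1,z27,z0,z4]),(z36,[z12,y1,z0,z27,y4]),(z1,[z0,z0,z0,z0,z1]),(z36,
    [y96,y1,y54,y27,y4,(Int.ofNat (nat_lit 108))])],.ref k25 k0 [(z22,[y30,z3,y30,y15,y20,z60]),(z22,[z12,z1,z45,z6,
    z8,y24]),(z44,[y12,y1,y12,z27,y8,z24]),(z1,[z0,z0,z0,z0,z1]),(z44,[z96,y3,z30,z15,z20,y60])],.ref k25 k0 [(z4,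
    [z60,z1,z30,z15,z20,y60]),(z2,[y12,z0,y3,y3,y4,z12]),(z2,[z6,z0,z3,z3,z2,y6]),(z1,[z0,z0,z0,z0,z1]),(z4,[y96,y1,
    y54,y27,y36,(Int.ofNat (nat_lit 108))])],.ref k25 k0 [(z13,[z15,z2]),(z26,[y12,z1,z39]),(z52,[z12,y1,z0,z39]),(z1,
    [z0,z0,z0,z0,z1]),(z52,[y96,y5,y78,y39,y52,(Int.ofNat (nat_lit 156))])],.ref k25 k0 [(z4,[y10,z1,z15]),(z1,[z1]),
    (z4,[y2,z0,z3,z3]),(z1,[z0,z0,z0,z0,z1]),(z4,[z16,y1,y30,y3,y4,z12])],.ref k25 k0 [(z4,[y20,z1,z20,z5]),(z2,[z4,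
    z0,y1,y1]),(z1,[y1,z0,z1,z1]),(z1,[z0,z0,z0,z0,z1]),(z4,[z32,y1,y38,y11,y4,z12])],.ref k25 k0 [(z4,[y15,z1,z15,z0,
    z5]),(z2,[z3,z0,z0,z0,y1]),(z4,[y3,z0,z3,z3,z1]),(z1,[z0,z0,z0,z0,z1]),(z4,[z24,y1,y30,y3,y12,z12])],
    .ref k25 k0 [(z48,[y60,z7,z30,y15,y20,z60]),(z24,[z12,z1,z30,z3,z4,y12]),(z48,[y12,y1,z6,z33,y4,z12]),(z1,[z0,z0,
    z0,z0,z1]),(z12,[z24,y1,y30,y3,y4,z12])],.ref k25 k0 [(z9,[y15,z1,z0,z0,y5,z15]),(z18,[z12,z1,z27,z0,z4,y12]),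
    (z36,[y12,y1,z0,z27,y4,z12]),(z1,[z0,z0,z0,z0,z1]),(z36,[z96,y1,y54,y27,y4,z12])],.ref k25 k0 [(z4,[z20,z1,y10,
    y5]),(z2,[y4,z0,z5,z1]),(z2,[z2,z0,y1,z1]),(z1,[z0,z0,z0,z0,z1]),(z4,[y32,y1,z10,z5,y4,z12])],.ref k25 k0 [(z4,
    [z30,z1,y15,z0,y10]),(z1,[y3,z0,z3,z0,z1]),(z4,[z6,z0,y3,z3,y2]),(z1,[z0,z0,z0,z0,z1]),(z4,[y48,y1,z18,y3,z12,
    z12])],.ref k25 k0 [(z4,[y30,z1,z15,z0,z20]),(z1,[z3,z0,z0,z0,y2]),(z4,[y6,z0,z3,z3,z4]),(z1,[z0,z0,z0,z0,z1]),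
    (z4,[z48,y1,y30,y3,y36,z12])],.ref k25 k0 [(z8,[y12,z1,z0,y3,z0,z12]),(z20,[z12,z1,z30,z3,z0,y12]),(z40,[y12,y1,
    z0,z27,z0,z12]),(z1,[z0,z0,z0,z0,z1]),(z20,[z48,y1,y30,y3,y20,z12])],.ref k25 k0 [(z24,[y60,z1,z0,y15,y20,z60]),
    (z12,[z12,z1,z18,z3,z4,y12]),(z24,[y12,y1,z0,z15,y4,z12]),(z1,[z0,z0,z0,z0,z1]),(z12,[z48,z1,y18,z3,z4,y12])],
    .ref k25 k0 [(z4,[z10,z1,y5]),(z1,[y1,z0,z2]),(z4,[z2,z0,y1,z3]),(z1,[z0,z0,z0,z0,z1]),(z4,[y16,y1,z2,y3,y4,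
    z12])],.ref k25 k0 [(z14,[y30,z1,y15,z0,z0,z30]),(z14,[z12,z1,z27,z0,z0,y12]),(z28,[y12,y1,y6,z21,z0,z12]),(z1,
    [z0,z0,z0,z0,z1]),(z28,[z96,z1,z6,y21,y28,y12])],.ref k25 k0 [(z6,[y30,y1,y15,z0,y10,z30]),(z6,[z12,z1,z15,z0,z4,
    y12]),(z12,[y12,y1,y6,z9,y4,z12]),(z1,[z0,z0,z0,z0,z1]),(z12,[z96,z5,z30,y9,z20,y60])],.ref k25 k0 [(z12,[z20,z3,
    z0,y5]),(z6,[y4,z0,z9,z1]),(z3,[z1,z0,z0,z2]),(z1,[z0,z0,z0,z0,z1]),(z12,[y32,y3,y18,y1,y12,z36])],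
    .ref k25 k0 [(z4,[z15,z1,z0,z0,y10]),(z2,[y3,z0,z3,z0,z2]),(z4,[z3,z0,z0,z3,y2]),(z1,[z0,z0,z0,z0,z1]),(z4,[y24,
    y1,y6,y3,z12,z12])]],
    .base (.leafM k0 [k0,k1,k2,k3,k4,k5] [(z6,[z0,z3,z2,z1])] []),
    .base (.leafM k3 [k4,k5,k0,k1,k2,k3] [(z1,[y1,z0,z0,y1,z1])] []),
    .base (.leafM k3 [k4,k5,k0,k1,k2,k3] [(z3,[z0,z1,z1])] []),
    .base (.leafM k3 [k1,k2,k3,k4,k5,k0] [(z6,[y2,y1,z0,y1,z6])] []),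
    .base (.leafM k0 [k2,k3,k4,k5,k0,k1] [(z3,[y3,y1,y1,z0,z3])] []),
    .lp k0 [(nat_lit 464),(nat_lit 470),(nat_lit 500),(nat_lit 506),(nat_lit 506),(nat_lit 428)] [k21,k21,k18,k18,k3,
    k3,k0,k0,k0,k0,k39,k39] k0 [[k0,k0,k0,k0,k0,k6,k12,k0,k24,k0,k0,k36],[k18,k0,k0,k0,k0,k0,k6,k0,k18,k0,k0,k54],[k0,
    k0,k0,k0,k0,k0,k0,k0,k0,k0,k12,k0],[k0,k0,k0,k0,k18,k0,k12,k12,k0,k0,k0,k0],[k0,k6,k0,k0,k0,k0,k0,k0,k0,k0,k0,k0],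
    [k0,k0,k18,k0,k0,k0,k0,k0,k0,k0,k12,k0],[k0,k0,k12,k0,k0,k0,k0,k0,k0,k0,k0,k0],[k6,k12,k12,k0,k0,k0,k0,k0,k0,k0,
    k0,k0],[k0,k0,k0,k0,k0,k0,k0,k0,k0,k0,k0,k0],[k18,k24,k0,k0,k0,k0,k0,k0,k0,k0,k0,k6],[k54,k36,k0,k0,k0,k0,k0,k0,
    k6,k0,k0,k42],[k0,k0,k0,k12,k12,k0,k0,k0,k0,k0,k0,k0]] (nat_lit 1440) k5
    [[(k10,(nat_lit 446)),(k11,(nat_lit 446)),(k2,(nat_lit 455)),(k7,(nat_lit 473)),(k4,(nat_lit 482)),(k5,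
    (nat_lit 482)),(k6,(nat_lit 485)),(k9,(nat_lit 485)),(k8,(nat_lit 491)),(k3,(nat_lit 503)),(k1,(nat_lit 506)),(k0,
    (nat_lit 518))],[(k10,(nat_lit 410)),(k11,(nat_lit 422)),(k2,(nat_lit 467)),(k3,(nat_lit 467)),(k9,(nat_lit 473)),
    (k4,(nat_lit 476)),(k0,(nat_lit 482)),(k5,(nat_lit 482)),(k7,(nat_lit 485)),(k6,(nat_lit 491)),(k8,(nat_lit 503)),
    (k1,(nat_lit 518))],[(k10,(nat_lit 395)),(k11,(nat_lit 431)),(k3,(nat_lit 452)),(k0,(nat_lit 467)),(k2,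
    (nat_lit 470)),(k9,(nat_lit 482)),(k4,(nat_lit 485)),(k5,(nat_lit 485)),(k7,(nat_lit 494)),(k6,(nat_lit 500)),(k1,
    (nat_lit 503)),(k8,(nat_lit 512))],[(k10,(nat_lit 449)),(k11,(nat_lit 449)),(k1,(nat_lit 455)),(k0,(nat_lit 467)),
    (k2,(nat_lit 470)),(k3,(nat_lit 470)),(k5,(nat_lit 485)),(k7,(nat_lit 488)),(k8,(nat_lit 488)),(k6,(nat_lit 500)),
    (k9,(nat_lit 500)),(k4,(nat_lit 503))],[(k11,(nat_lit 464)),(k10,(nat_lit 476)),(k0,(nat_lit 482)),(k1,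
    (nat_lit 482)),(k2,(nat_lit 485)),(k3,(nat_lit 485)),(k7,(nat_lit 485)),(k6,(nat_lit 491)),(k9,(nat_lit 491)),(k4,
    (nat_lit 500)),(k5,(nat_lit 500)),(k8,(nat_lit 503))],[(k11,(nat_lit 464)),(k0,(nat_lit 476)),(k10,(nat_lit 476)),
    (k1,(nat_lit 482)),(k3,(nat_lit 485)),(k4,(nat_lit 500)),(k5,(nat_lit 500)),(k2,(nat_lit 503)),(k6,(nat_lit 503)),
    (k7,(nat_lit 503)),(k8,(nat_lit 503)),(k9,(nat_lit 503))],[(k10,(nat_lit 467)),(k11,(nat_lit 467)),(k1,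
    (nat_lit 473)),(k0,(nat_lit 485)),(k5,(nat_lit 485)),(k2,(nat_lit 488)),(k3,(nat_lit 494)),(k4,(nat_lit 503)),(k6,
    (nat_lit 506)),(k7,(nat_lit 506)),(k8,(nat_lit 506)),(k9,(nat_lit 506))],[(k10,(nat_lit 467)),(k11,(nat_lit 467)),
    (k1,(nat_lit 485)),(k0,(nat_lit 491)),(k5,(nat_lit 491)),(k2,(nat_lit 500)),(k3,(nat_lit 500)),(k4,(nat_lit 503)),
    (k6,(nat_lit 506)),(k7,(nat_lit 506)),(k8,(nat_lit 506)),(k9,(nat_lit 506))],[(k10,(nat_lit 467)),(k11,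
    (nat_lit 467)),(k0,(nat_lit 473)),(k3,(nat_lit 482)),(k1,(nat_lit 485)),(k5,(nat_lit 491)),(k2,(nat_lit 500)),(k4,
    (nat_lit 503)),(k6,(nat_lit 506)),(k7,(nat_lit 506)),(k8,(nat_lit 506)),(k9,(nat_lit 506))],[(k10,(nat_lit 467)),
    (k11,(nat_lit 467)),(k2,(nat_lit 488)),(k1,(nat_lit 491)),(k0,(nat_lit 503)),(k4,(nat_lit 503)),(k5,
    (nat_lit 503)),(k6,(nat_lit 506)),(k7,(nat_lit 506)),(k8,(nat_lit 506)),(k9,(nat_lit 506)),(k3,(nat_lit 512))],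
    [(k0,(nat_lit 422)),(k10,(nat_lit 422)),(k11,(nat_lit 428)),(k3,(nat_lit 431)),(k1,(nat_lit 446)),(k2,
    (nat_lit 449)),(k4,(nat_lit 464)),(k5,(nat_lit 464)),(k6,(nat_lit 467)),(k7,(nat_lit 467)),(k8,(nat_lit 467)),(k9,
    (nat_lit 467))],[(k10,(nat_lit 386)),(k3,(nat_lit 395)),(k0,(nat_lit 410)),(k11,(nat_lit 422)),(k1,(nat_lit 446)),
    (k2,(nat_lit 449)),(k6,(nat_lit 467)),(k7,(nat_lit 467)),(k8,(nat_lit 467)),(k9,(nat_lit 467)),(k4,(nat_lit 476)),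
    (k5,(nat_lit 476))]]
    [[k2,k0,k0,k0,k0,k1],[k1,k2,k0,k0,k0,k0],[k1,k1,k1,k0,k0,k0],[k1,k1,k0,k0,k0,k1],[k1,k0,k1,k0,k0,k1],[k1,k0,k0,k1,
    k0,k1],[k1,k0,k0,k0,k1,k1],[k1,k0,k0,k0,k0,k2],[k0,k3,k0,k0,k0,k0],[k0,k2,k0,k0,k0,k1],[k0,k1,k1,k0,k0,k1],[k0,k1,
    k0,k1,k0,k1],[k0,k1,k0,k0,k1,k1],[k0,k1,k0,k0,k0,k2],[k0,k0,k1,k1,k0,k1],[k0,k0,k1,k0,k1,k1],[k0,k0,k1,k0,k0,k2],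
    [k0,k0,k0,k1,k0,k2],[k0,k0,k0,k0,k1,k2],[k0,k0,k0,k0,k0,k3]]
    [.ref k25 k0 [(z1,[z0,z1]),(z3,[y3,z2,z1]),(z3,[z6,y4,z0,z1]),(z1,[z0,z0,z0,z0,z1]),(z3,[y12,z5,y1,y1,y3,z9])],
    .ref k25 k0 [(z1,[z0,z1]),(z2,[z3,y1]),(z3,[y9,z3,z2,z1]),(z1,[z0,z0,z0,z0,z1]),(z3,[z18,y9,y5,y1,y3,z9])],
    .ref k25 k0 [(z1,[z0,z1]),(z3,[y9,z3,z2,z1]),(z3,[z18,y6,y2,y1]),(z1,[z0,z0,z0,z0,z1]),(z1,[y12,z3,z1,z1,y1,z3])],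
    .ref k25 k0 [(z1,[z0,z1]),(z2,[y3,z1,z1]),(z3,[z9,y3,y1,z1]),(z1,[z0,z0,z0,z0,z1]),(z3,[y18,z3,z1,y1,y3,z9])],
    .ref k25 k0 [(z1,[z0,z1]),(z15,[y9,z3,z5,z1]),(z5,[z6,y2,z0,z1]),(z1,[z0,z0,z0,z0,z1]),(z15,[y36,y3,y5,y1,y15,
    z45])],.ref k25 k0 [(z1,[z0,z1]),(z3,[y3,z1,z1,z0,z1]),(z3,[z6,y2,z0,z1,y2]),(z1,[z0,z0,z0,z0,z1]),(z3,[y12,z1,y1,
    y1,z1,z9])],.ref k25 k0 [(z1,[z0,z1]),(z3,[z9,z0,z2,z1,z3,y9]),(z3,[y18,z0,y2,y1,y6,z18]),(z1,[z0,z0,z0,z0,z1]),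
    (z1,[z12,y1,z1,z1,z3,y9])],.ref k25 k0 [(z1,[z0,z1]),(z6,[y3,z1,z2]),(z3,[z3,y1,z0,z1]),(z1,[z0,z0,z0,z0,z1]),(z3,
    [y6,y1,y1,y1,y3,z9])],.ref k25 k0 [(z1,[z0,z1]),(z1,[z1]),(z3,[y6,z0,z2,z1]),(z1,[z0,z0,z0,z0,z1]),(z3,[z12,y3,y5,
    y1,y3,z9])],.ref k25 k0 [(z1,[z0,z1]),(z1,[y3,z0,z1]),(z3,[z18,z0,y4,z1]),(z1,[z0,z0,z0,z0,z1]),(z3,[y36,y3,z7,y1,
    y3,z9])],.ref k25 k0 [(z1,[z0,z1]),(z12,[y9,z0,z5,z1]),(z6,[z9,z0,y1,z1]),(z1,[z0,z0,z0,z0,z1]),(z1,[y3,y1,z0,z0,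
    y1,z3])],.ref k25 k0 [(z1,[z0,z1]),(z2,[y3,z0,z1,z0,z1]),(z3,[z9,z0,y1,z1,y3]),(z1,[z0,z0,z0,z0,z1]),(z3,[y18,y3,
    z1,y1,z3,z9])],.ref k25 k0 [(z1,[z0,z1]),(z6,[z9,z3,z2,z1,z3,y9]),(z1,[y3,y1,z0,z0,y1,z3]),(z1,[z0,z0,z0,z0,z1]),
    (z3,[z18,z3,y1,z1,z3,y9])],.ref k25 k0 [(z1,[z0,z1]),(z5,[y3,z0,z2]),(z15,[z18,z0,y2,z5]),(z1,[z0,z0,z0,z0,z1]),
    (z15,[y36,y15,y1,y5,y15,z45])],.ref k25 k0 [(z1,[z0,z1]),(z15,[y9,z0,z5,z1,z3]),(z5,[z6,z0,z0,z1,y2]),(z1,[z0,z0,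
    z0,z0,z1]),(z15,[y36,y15,y5,y1,y3,z45])],.ref k25 k0 [(z1,[z0,z1]),(z1,[y3,y1,z0,z0,y1,z3]),(z3,[z18,z6,z2,z1,z6,
    y18]),(z1,[z0,z0,z0,z0,z1]),(z3,[y36,y15,y5,y1,y15,z45])],.ref k25 k0 [(z1,[z0,z1]),(z24,[y9,z0,z8,z1]),(z4,[z3,
    z0,z0,z1]),(z1,[z0,z0,z0,z0,z1]),(z6,[y9,y6,y2,y1,y6,z18])],.ref k25 k0 [(z1,[z0,z1]),(z6,[y3,z0,z2,z0,z1]),(z3,
    [z3,z0,z0,z1,y1]),(z1,[z0,z0,z0,z0,z1]),(z3,[y6,y3,y1,y1,y1,z9])],.ref k25 k0 [(z1,[z0,z1]),(z6,[y9,y3,z1,y1,y3,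
    z9]),(z3,[z9,z3,z1,z2,z3,y9]),(z1,[z0,z0,z0,z0,z1]),(z1,[y6,y3,y1,y1,y3,z9])],.ref k25 k0 [(z1,[z0,z1]),(z3,[y1,
    z0,z1]),(z3,[z2,z0,z0,z1]),(z1,[z0,z0,z0,z0,z1]),(z3,[y4,y3,y1,y1,y3,z9])]],
    .lp k0 [k160,k134,k172,k168,k156,k168] [k6,k6,k19,k19,k0,k0,k2,k2,k8,k8,k2,k2] k0 [[k0,k0,k0,k6,k2,k2,k6,k0,k0,k0,
    k0,k0],[k0,k0,k0,k0,k0,k0,k0,k0,k0,k0,k0,k0],[k0,k6,k0,k0,k0,k0,k4,k0,k0,k0,k0,k0],[k0,k0,k0,k0,k0,k0,k4,k0,k0,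
    k10,k10,k0],[k0,k2,k0,k0,k0,k4,k0,k0,k2,k0,k0,k2],[k0,k2,k0,k0,k0,k0,k4,k2,k8,k0,k0,k8],[k0,k0,k0,k0,k2,k0,k0,k8,
    k14,k0,k0,k14],[k0,k6,k4,k4,k4,k0,k0,k0,k0,k0,k0,k0],[k0,k0,k10,k0,k0,k0,k0,k0,k0,k0,k0,k0],[k0,k0,k0,k0,k8,k2,k0,
    k14,k0,k0,k0,k0],[k0,k0,k0,k0,k8,k2,k0,k14,k0,k0,k0,k0],[k0,k0,k10,k0,k0,k0,k0,k0,k0,k0,k0,k0]] (nat_lit 480) k5
    [[(k2,k147),(k3,k147),(k5,k156),(k8,k158),(k0,k160),(k1,k160),(k6,k164),(k10,k164),(k11,k164),(k7,k166),(k9,k172),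
    (k4,k174)],[(k2,k141),(k3,k147),(k9,k152),(k8,k158),(k0,k160),(k1,k160),(k7,k162),(k4,k164),(k6,k164),(k10,k164),
    (k11,k164),(k5,k166)],[(k2,k134),(k3,k134),(k8,k145),(k9,k145),(k0,k147),(k1,k147),(k10,k151),(k11,k151),(k7,
    k153),(k4,k155),(k6,k157),(k5,k159)],[(k2,k134),(k3,k134),(k0,k141),(k9,k141),(k8,k145),(k1,k147),(k7,k151),(k4,
    k153),(k5,k153),(k6,k155),(k10,k161),(k11,k161)],[(k2,k153),(k8,k154),(k1,k156),(k3,k159),(k9,k160),(k0,k166),(k7,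
    k170),(k10,k170),(k11,k170),(k4,k172),(k5,k172),(k6,k174)],[(k2,k153),(k3,k155),(k0,k164),(k9,k166),(k4,k168),
    (k10,k168),(k11,k168),(k7,k170),(k5,k172),(k8,k172),(k1,k174),(k6,k174)],[(k2,k151),(k3,k153),(k9,k158),(k10,
    k160),(k11,k160),(k0,k162),(k8,k164),(k1,k166),(k6,k166),(k4,k170),(k5,k170),(k7,k172)],[(k10,k154),(k11,k154),
    (k2,k155),(k3,k157),(k6,k160),(k8,k162),(k9,k162),(k0,k164),(k1,k164),(k7,k166),(k4,k174),(k5,k174)],[(k2,k141),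
    (k3,k145),(k0,k152),(k7,k158),(k5,k160),(k6,k162),(k10,k162),(k11,k162),(k9,k164),(k4,k166),(k8,k170),(k1,k172)],
    [(k2,k145),(k3,k145),(k5,k154),(k8,k156),(k0,k158),(k1,k158),(k6,k162),(k10,k162),(k11,k162),(k7,k164),(k9,k170),
    (k4,k172)],[(k3,k151),(k6,k154),(k7,k160),(k2,k161),(k8,k162),(k9,k162),(k0,k164),(k1,k164),(k4,k168),(k10,k168),
    (k11,k168),(k5,k170)],[(k3,k151),(k6,k154),(k7,k160),(k2,k161),(k8,k162),(k9,k162),(k0,k164),(k1,k164),(k4,k168),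
    (k10,k168),(k11,k168),(k5,k170)]]
    [[k2,k1,k0,k0,k0,k0],[k2,k0,k0,k0,k1,k0],[k1,k2,k0,k0,k0,k0],[k1,k1,k1,k0,k0,k0],[k1,k1,k0,k1,k0,k0],[k1,k1,k0,k0,
    k1,k0],[k1,k1,k0,k0,k0,k1],[k1,k0,k0,k0,k1,k1],[k0,k3,k0,k0,k0,k0],[k0,k2,k1,k0,k0,k0],[k0,k2,k0,k1,k0,k0],[k0,k2,
    k0,k0,k1,k0],[k0,k2,k0,k0,k0,k1],[k0,k1,k1,k0,k1,k0],[k0,k1,k0,k2,k0,k0],[k0,k1,k0,k1,k1,k0],[k0,k1,k0,k1,k0,k1],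
    [k0,k1,k0,k0,k2,k0],[k0,k1,k0,k0,k1,k1],[k0,k1,k1,k0,k0,k1],[k0,k0,k0,k1,k2,k0],[k0,k0,k0,k1,k1,k1]]
    [.ref k25 k0 [(z1,[z6,y1,y6]),(z1,[y9,z2,z12]),(z1,[z0,z0,z0,z1]),(z6,[z9,y2,y9,z0,z2]),(z3,[y9,z1,z0,y3,y1,z9])],
    .ref k25 k0 [(z9,[z18,z1,z18,z6,z2,y18]),(z3,[y9,z1,z0,y3,y1,z9]),(z1,[z0,z0,z0,z1]),(z18,[z9,y1,z9,z3,z7,y9]),
    (z9,[y9,y2,y36,y12,y4,z36])],.ref k25 k0 [(z2,[y3,z1,z6]),(z4,[z9,y1,y6]),(z1,[z0,z0,z0,z1]),(z24,[y9,z1,z18,z0,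
    z8]),(z12,[z9,y5,y54,y12,y4,z36])],.ref k25 k0 [(z1,[y6,z1,z6,z2]),(z1,[z9,y1,y6,y3]),(z1,[z0,z0,z0,z1]),(z6,[y9,
    z1,z9,z3,z2]),(z3,[z9,y2,y18,y6,y1,z9])],.ref k25 k0 [(z3,[y36,z5,z36,z0,z4]),(z1,[z18,y2,y15,z0,y2]),(z1,[z0,z0,
    z0,z1]),(z3,[y9,z1,z9,z0,z2]),(z1,[z6,y1,y9,y1,y1,z3])],.ref k25 k0 [(z3,[y9,z1,z0,y3,y1,z9]),(z2,[z9,z0,z6,z3,z1,
    y9]),(z1,[z0,z0,z0,z1]),(z4,[y3,z0,z0,y1,z1,z3]),(z6,[z9,y2,y18,y3,y1,z9])],.ref k25 k0 [(z1,[z12,y1,y12]),(z1,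
    [y18,z2,z21]),(z1,[z0,z0,z0,z1]),(z3,[z9,y1,y9,z0,z1]),(z3,[y18,z1,z9,y3,y1,z9])],.ref k25 k0 [(z15,[z36,z5,z36,
    z12,z4,y36]),(z5,[y18,z0,y3,y6,y2,z18]),(z1,[z0,z0,z0,z1]),(z5,[z3,z0,z3,z1,z2,y3]),(z15,[y18,y5,y63,y21,y7,
    z63])],.ref k25 k0 [(z3,[y2,z1,z6]),(z1,[z1]),(z1,[z0,z0,z0,z1]),(z6,[y1,z0,z3,z0,z2]),(z3,[z1,y1,y12,y3,y1,z9])],
    .ref k25 k0 [(z3,[y3,z1,z6,z1]),(z2,[z3,z0,z0,y1]),(z1,[z0,z0,z0,z1]),(z12,[y3,z0,z6,z1,z4]),(z6,[z3,y2,y24,y7,y2,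
    z18])],.ref k25 k0 [(z33,[y36,z11,z72,z0,z4]),(z11,[z18,z0,y3,z0,y2]),(z1,[z0,z0,z0,z1]),(z11,[y3,z0,z6,z0,z4]),
    (z33,[z18,y11,(Int.negSucc (nat_lit 134)),y33,y13,z99])],.ref k25 k0 [(z21,[y18,z5,z18,y6,y2,z18]),(z7,[z9,z1,z12,
    z3,z1,y9]),(z1,[z0,z0,z0,z1]),(z42,[y9,y1,z9,y3,z13,z9]),(z7,[z3,y2,y24,y6,y2,z18])],.ref k25 k0 [(z3,[y4,z1,z8]),
    (z1,[z2,z0,y1]),(z1,[z0,z0,z0,z1]),(z3,[y1,z0,z2,z0,z1]),(z3,[z2,y1,y13,y3,y1,z9])],.ref k25 k0 [(z6,[y9,z1,z0,z0,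
    y1,z9]),(z4,[z9,z1,z12,z0,z1,y9]),(z1,[z0,z0,z0,z1]),(z24,[y9,y1,z0,z0,z7,z9]),(z4,[z3,y1,y12,y4,y1,z9])],
    .ref k25 k0 [(z3,[y9,z1,z9,z0,z2]),(z2,[z9,z0,y3,z0,y2]),(z1,[z0,z0,z0,z1]),(z4,[y3,z0,z3,z0,z2]),(z6,[z9,y2,y27,
    y6,y4,z18])],.ref k25 k0 [(z7,[y12,z1,z0,y4,z0,z12]),(z7,[z18,z2,z21,z6,z0,y18]),(z1,[z0,z0,z0,z1]),(z21,[y9,y1,
    z0,y3,z7,z9]),(z21,[z18,y5,y63,y15,y7,z45])],.ref k25 k0 [(z3,[y18,z1,z18,z0,z2]),(z1,[z9,z0,y6,z0,y1]),(z1,[z0,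
    z0,z0,z1]),(z2,[y3,z0,z3,z0,z1]),(z3,[z9,y1,y18,y3,y2,z9])],.ref k25 k0 [(z15,[y18,z1,y18,y12,y4,z36]),(z5,[z9,z2,
    z24,z6,z2,y18]),(z1,[z0,z0,z0,z1]),(z30,[y9,y2,y9,y6,z8,z18]),(z5,[z3,y1,y12,y3,y1,z9])],.ref k25 k0 [(z15,[y36,
    z1,z0,y12,y4,z36]),(z5,[z18,z2,z15,z6,z2,y18]),(z1,[z0,z0,z0,z1]),(z15,[y9,y1,z0,y3,z4,z9]),(z5,[z6,y1,y15,y3,y1,
    z9])],.ref k25 k0 [(z3,[y12,z1,z12,z4]),(z1,[z6,z0,y3,y2]),(z1,[z0,z0,z0,z1]),(z3,[y3,z0,z3,z1,z1]),(z3,[z6,y1,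
    y15,y5,y1,z9])],.ref k25 k0 [(z9,[y36,y5,y72,y24,y4,z72]),(z3,[z18,z4,z45,z12,z2,y36]),(z1,[z0,z0,z0,z1]),(z9,[y9,
    y2,y18,y6,z2,z18]),(z9,[z18,z1,z9,z3,y1,y9])],.ref k25 k0 [(z1,[z6,z1,z6,z2,z0,y6]),(z1,[y9,y1,y6,y3,z0,z9]),(z1,
    [z0,z0,z0,z1]),(z6,[z9,z1,z9,z3,z2,y9]),(z3,[y9,y2,y18,y6,y1,z18])]],
    .lp k0 [(nat_lit 474),(nat_lit 472),(nat_lit 486),(nat_lit 490),(nat_lit 486),(nat_lit 466)] [k8,k8,k9,k9,k2,k2,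
    k0,k0,k2,k2,k12,k12] k0 [[k0,k0,k0,k0,k6,k6,k16,k0,k0,k0,k0,k2],[k78,k0,k0,k0,k0,k0,k4,k0,k0,k0,k0,k92],[k0,k0,k0,
    k0,k0,k0,k0,k0,k0,k2,k6,k4],[k0,k0,k0,k0,k4,k4,k8,k0,k0,k0,k0,k0],[k0,k6,k4,k0,k0,k0,k0,k0,k0,k0,k0,k0],[k0,k6,k4,
    k0,k0,k0,k0,k0,k0,k0,k4,k0],[k0,k0,k0,k0,k0,k0,k0,k2,k2,k2,k0,k0],[k4,k16,k8,k0,k0,k0,k0,k0,k0,k0,k2,k0],[k0,k0,
    k0,k2,k0,k0,k0,k2,k0,k0,k70,k0],[k0,k0,k0,k0,k0,k0,k0,k2,k0,k0,k0,k0],[k92,k2,k0,k4,k0,k0,k0,k0,k0,k0,k0,k28],[k0,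
    k0,k0,k6,k4,k0,k2,k0,k0,k70,k0,k0]] (nat_lit 1440) k5
    [[(k8,(nat_lit 410)),(k2,(nat_lit 467)),(k10,(nat_lit 470)),(k11,(nat_lit 470)),(k3,(nat_lit 475)),(k7,
    (nat_lit 478)),(k9,(nat_lit 478)),(k4,(nat_lit 480)),(k6,(nat_lit 482)),(k5,(nat_lit 484)),(k1,(nat_lit 502)),(k0,
    (nat_lit 566))],[(k9,(nat_lit 464)),(k10,(nat_lit 468)),(k11,(nat_lit 470)),(k2,(nat_lit 473)),(k3,(nat_lit 473)),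
    (k4,(nat_lit 474)),(k7,(nat_lit 476)),(k5,(nat_lit 480)),(k8,(nat_lit 480)),(k6,(nat_lit 486)),(k0,(nat_lit 552)),
    (k1,(nat_lit 566))],[(k10,(nat_lit 377)),(k3,(nat_lit 394)),(k11,(nat_lit 469)),(k2,(nat_lit 472)),(k0,
    (nat_lit 473)),(k1,(nat_lit 475)),(k9,(nat_lit 475)),(k5,(nat_lit 479)),(k8,(nat_lit 479)),(k4,(nat_lit 485)),(k7,
    (nat_lit 487)),(k6,(nat_lit 497))],[(k10,(nat_lit 465)),(k1,(nat_lit 467)),(k11,(nat_lit 469)),(k2,(nat_lit 472)),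
    (k3,(nat_lit 472)),(k0,(nat_lit 473)),(k8,(nat_lit 477)),(k5,(nat_lit 479)),(k9,(nat_lit 479)),(k4,(nat_lit 483)),
    (k7,(nat_lit 485)),(k6,(nat_lit 489))],[(k9,(nat_lit 478)),(k11,(nat_lit 478)),(k2,(nat_lit 479)),(k3,
    (nat_lit 479)),(k0,(nat_lit 480)),(k4,(nat_lit 482)),(k10,(nat_lit 482)),(k1,(nat_lit 484)),(k7,(nat_lit 484)),
    (k5,(nat_lit 486)),(k8,(nat_lit 486)),(k6,(nat_lit 488))],[(k0,(nat_lit 474)),(k11,(nat_lit 476)),(k1,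
    (nat_lit 480)),(k10,(nat_lit 480)),(k5,(nat_lit 482)),(k2,(nat_lit 483)),(k3,(nat_lit 485)),(k4,(nat_lit 486)),
    (k8,(nat_lit 486)),(k9,(nat_lit 486)),(k6,(nat_lit 488)),(k7,(nat_lit 488))],[(k0,(nat_lit 476)),(k1,
    (nat_lit 478)),(k10,(nat_lit 478)),(k11,(nat_lit 478)),(k5,(nat_lit 484)),(k2,(nat_lit 485)),(k3,(nat_lit 487)),
    (k4,(nat_lit 488)),(k8,(nat_lit 488)),(k9,(nat_lit 488)),(k6,(nat_lit 490)),(k7,(nat_lit 490))],[(k11,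
    (nat_lit 476)),(k10,(nat_lit 480)),(k1,(nat_lit 482)),(k0,(nat_lit 486)),(k8,(nat_lit 486)),(k4,(nat_lit 488)),
    (k5,(nat_lit 488)),(k6,(nat_lit 488)),(k9,(nat_lit 488)),(k2,(nat_lit 489)),(k7,(nat_lit 490)),(k3,
    (nat_lit 497))],[(k0,(nat_lit 464)),(k3,(nat_lit 475)),(k10,(nat_lit 476)),(k1,(nat_lit 478)),(k5,(nat_lit 478)),
    (k11,(nat_lit 478)),(k2,(nat_lit 479)),(k4,(nat_lit 486)),(k6,(nat_lit 488)),(k7,(nat_lit 488)),(k8,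
    (nat_lit 488)),(k9,(nat_lit 488))],[(k1,(nat_lit 410)),(k10,(nat_lit 476)),(k11,(nat_lit 476)),(k2,(nat_lit 477)),
    (k3,(nat_lit 479)),(k0,(nat_lit 480)),(k4,(nat_lit 486)),(k5,(nat_lit 486)),(k6,(nat_lit 486)),(k8,(nat_lit 486)),
    (k7,(nat_lit 488)),(k9,(nat_lit 488))],[(k11,(nat_lit 466)),(k2,(nat_lit 469)),(k3,(nat_lit 469)),(k0,
    (nat_lit 470)),(k1,(nat_lit 470)),(k4,(nat_lit 476)),(k6,(nat_lit 476)),(k8,(nat_lit 476)),(k5,(nat_lit 478)),(k7,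
    (nat_lit 478)),(k9,(nat_lit 478)),(k10,(nat_lit 536))],[(k3,(nat_lit 377)),(k10,(nat_lit 438)),(k2,(nat_lit 465)),
    (k0,(nat_lit 468)),(k1,(nat_lit 470)),(k8,(nat_lit 476)),(k9,(nat_lit 476)),(k7,(nat_lit 478)),(k4,(nat_lit 480)),
    (k6,(nat_lit 480)),(k5,(nat_lit 482)),(k11,(nat_lit 536))]]
    [[k1,k2,k0,k0,k0,k0],[k1,k1,k1,k0,k0,k0],[k1,k1,k0,k0,k1,k0],[k1,k1,k0,k0,k0,k1],[k1,k0,k1,k0,k1,k0],[k1,k0,k1,k0,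
    k0,k1],[k1,k0,k0,k1,k1,k0],[k1,k0,k0,k1,k0,k1],[k1,k0,k0,k0,k2,k0],[k1,k0,k0,k0,k1,k1],[k1,k0,k0,k0,k0,k2],[k0,k3,
    k0,k0,k0,k0],[k0,k2,k1,k0,k0,k0],[k0,k2,k0,k0,k1,k0],[k0,k2,k0,k0,k0,k1],[k0,k2,k0,k1,k0,k0],[k0,k1,k1,k0,k0,k1],
    [k0,k1,k0,k1,k0,k1],[k0,k1,k0,k0,k1,k1],[k0,k1,k0,k0,k0,k2],[k0,k0,k1,k0,k1,k1],[k0,k0,k1,k0,k0,k2],[k0,k0,k0,k1,
    k0,k2],[k0,k0,k0,k0,k1,k2]]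
    [.ref k25 k0 [(z11,[z9,z8,y18]),(z11,[z12,y4,z9]),(z11,[y18,z6,z36,z11]),(z11,[y6,z2,z12,z0,z33]),(z11,[z3,y1,
    y6])],.ref k25 k0 [(z1,[z9,y2,y9,y3]),(z1,[z12,y4,y9,y4]),(z1,[y18,z6,z18,z7]),(z1,[y6,z2,z6,z2,z3]),(z1,[z3,y1,
    y3,y1])],.ref k25 k0 [(z8,[z9,z5,y9]),(z2,[z3,y1,z3]),(z4,[y9,z3,z9,z4]),(z4,[y3,z1,z3,z0,z12]),(z8,[z3,y1,y3])],
    .ref k25 k0 [(z7,[z9,z7,z0,z3,z9,y9]),(z7,[z12,z0,z21,z4,z12,y12]),(z7,[y18,z0,z0,z1,y18,z18]),(z7,[y6,z0,z0,y2,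
    z15,z6]),(z7,[z3,z0,z0,z1,z3,y3])],.ref k25 k0 [(z2,[y9,z5,z0,z3]),(z1,[y6,z2,z3,z2]),(z1,[z9,y3,z0,y2]),(z1,[z3,
    y1,z0,y1,z3]),(z2,[y3,z1,z0,z1])],.ref k25 k0 [(z1,[y3,z1,y3,z0,y3,z3]),(z1,[y4,z0,y1,z0,y4,z4]),(z1,[z6,z0,z6,z1,
    z6,y6]),(z1,[z2,z0,z2,z0,z5,y2]),(z1,[y1,z0,y1,z0,y1,z1])],.ref k25 k0 [(z2,[z9,y1,z0,z0,y9]),(z1,[z6,y2,z3,z0,
    y6]),(z1,[y9,z3,z0,z1,z9]),(z1,[y3,z1,z0,z0,z6]),(z2,[z3,y1,z0,z0,y3])],.ref k25 k0 [(z1,[z9,z1,z9,z3,z0,y9]),(z1,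
    [z12,z0,z15,z4,z0,y12]),(z1,[y18,z0,y18,y5,z0,z18]),(z1,[y6,z0,y6,y2,z3,z6]),(z1,[z3,z0,z3,z1,z0,y3])],
    .ref k25 k0 [(z5,[z9,z2]),(z5,[z12,y4,z15]),(z5,[y18,z6,z0,z5]),(z5,[y6,z2,z0,z0,z15]),(z5,[z3,y1])],
    .ref k25 k0 [(z4,[z9,z4,z9,z3,z9,y9]),(z1,[z3,z0,z6,z1,z3,y3]),(z2,[y9,z0,y9,y1,y9,z9]),(z2,[y3,z0,y3,y1,z3,z3]),
    (z4,[z3,z0,z3,z1,z3,y3])],.ref k25 k0 [(z1,[z3,z2,z6,z2,z6,y6]),(z3,[z12,z4,z33,z8,z24,y24]),(z1,[y6,y2,y12,y3,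
    y12,z12]),(z3,[y6,y2,y12,y4,y3,z12]),(z3,[z3,z1,z6,z2,z6,y6])],.ref k25 k0 [(z4,[z3,z4,y9]),(z1,[z1]),(z2,[y3,z0,
    z9,z2]),(z2,[y1,z0,z3,z0,z6]),(z4,[z1,z0,y3])],.ref k25 k0 [(z2,[z9,z2,y18,y3]),(z1,[z6,z0,y9,y2]),(z1,[y9,z0,z18,
    z4]),(z1,[y3,z0,z6,z1,z3]),(z2,[z3,z0,y6,y1])],.ref k25 k0 [(z1,[z1,z1,y2]),(z3,[z4,z0,z1]),(z1,[y2,z0,z4,z1]),
    (z3,[y2,z0,z4,z0,z9]),(z3,[z1,z0,y2])],.ref k25 k0 [(z8,[z9,z11,y9,z3,z9,y9]),(z2,[z3,z1,z3,z1,z3,y3]),(z4,[y9,y3,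
    z9,z1,y9,z9]),(z4,[y3,y1,z3,y1,z9,z3]),(z8,[z3,z1,y3,z1,z3,y3])],.ref k25 k0 [(z2,[z3,z2,y6,z0,y3]),(z1,[z2,z0,y1,
    z0,y2]),(z1,[y3,z0,z6,z1,z3]),(z1,[y1,z0,z2,z0,z4]),(z2,[z1,z0,y2,z0,y1])],.ref k25 k0 [(z2,[y9,y1,z0,z0,y9,z9]),
    (z1,[y6,y2,z3,z0,y6,z6]),(z1,[z9,z3,z0,z1,z9,y9]),(z1,[z3,z1,z0,z0,z6,y3]),(z2,[y3,y1,z0,z0,y3,z3])],
    .ref k25 k0 [(z2,[z9,z5,z0,z3,z0,y9]),(z1,[z6,z2,z3,z2,z0,y6]),(z1,[y9,y3,z0,y2,z0,z9]),(z1,[y3,y1,z0,y1,z3,z3]),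
    (z2,[z3,z1,z0,z1,z0,y3])],.ref k25 k0 [(z5,[z9,z8,z0,z3,z9,y9]),(z5,[z12,z4,z15,z4,z12,y12]),(z5,[y18,y6,z0,y1,
    y18,z18]),(z5,[y6,y2,z0,y2,z9,z6]),(z5,[z3,z1,z0,z1,z3,y3])],.ref k25 k0 [(z4,[z9,z10,z9,z6,z18,y18]),(z1,[z3,z2,
    z6,z2,z6,y6]),(z2,[y9,y6,y9,y4,y18,z18]),(z2,[y3,y2,y3,y2,z0,z6]),(z4,[z3,z2,z3,z2,z6,y6])],.ref k25 k0 [(z5,[y9,
    z2,y9,z0,y9,z9]),(z5,[y12,y4,z3,z0,y12,z12]),(z5,[z18,z6,z18,z5,z18,y18]),(z5,[z6,z2,z6,z0,z21,y6]),(z5,[y3,y1,y3,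
    z0,y3,z3])],.ref k25 k0 [(z2,[y3,z0,y6,y1,y6,z6]),(z3,[y6,y4,y3,y2,y12,z12]),(z1,[z3,z2,z6,z2,z6,y6]),(z3,[z3,z2,
    z6,z1,z15,y6]),(z6,[y3,y2,y6,y1,y6,z6])],.ref k25 k0 [(z2,[y9,y4,y18,y6,y9,z18]),(z1,[y6,y4,y9,y4,y6,z12]),(z1,
    [z9,z6,z18,z7,z9,y18]),(z1,[z3,z2,z6,z2,z6,y6]),(z2,[y3,y2,y6,y2,y3,z6])],.ref k25 k0 [(z1,[z9,z7,z18,z6,z18,
    y18]),(z1,[z12,z8,z27,z8,z24,y24]),(z1,[y18,y12,y36,y11,y36,z36]),(z1,[y6,y4,y12,y4,y9,z12]),(z1,[z3,z2,z6,z2,z6,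
    y6])]]]

theorem hB6_171_16 : blkB [0, 0, 0, 0, 0, 0] [] sp6 hS6_171 (pcls (n := 6) [0, 0, 0, 0, 0, 0]) hD6_171 560 16 hN6_171_16 = true := by
  decide +kernel

/-- nodes 204 to 215 -/
noncomputable def hN6_171_17 : List HM :=
  [.base (.leafM k3 [k2,k3,k4,k5,k0,k1] [(z1,[z0,y1,y1,z0,z1])] []),
    .lp k0 [(nat_lit 652),(nat_lit 654),(nat_lit 700),(nat_lit 592),(nat_lit 666),(nat_lit 572)] [k24,k24,k23,k23,k0,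
    k0,k54,k54,k17,k17,k64,k64] k0 [[k0,k0,k14,k6,k0,k0,k0,k0,k0,k64,k64,k0],[k0,k0,k0,k0,k38,k22,k46,k14,k0,k0,k0,
    k0],[k0,k6,k0,k8,k24,k0,k20,k0,k0,k22,k0,k0],[k0,k14,k0,k0,k4,k0,k0,k0,k0,k58,k58,k14],[k22,k0,k0,k0,k0,k60,k84,
    k0,k0,k0,k0,k98],[k38,k0,k4,k24,k0,k0,k12,k0,k0,k38,k0,k0],[k14,k0,k0,k0,k0,k0,k0,k0,k102,k102,k0,k90],[k46,k0,k0,
    k20,k12,k84,k0,k0,k0,k0,k0,k86],[k0,k64,k58,k22,k38,k0,k0,k102,k0,k0,k0,k0],[k0,k0,k0,k0,k0,k0,k0,k102,k0,k0,k16,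
    k0],[k0,k0,k14,k0,k0,k98,k86,k90,k0,k0,k0,k0],[k0,k64,k58,k0,k0,k0,k0,k0,k16,k0,k0,k0]] (nat_lit 1920) k5
    [[(k0,(nat_lit 588)),(k11,(nat_lit 596)),(k10,(nat_lit 612)),(k5,(nat_lit 618)),(k1,(nat_lit 652)),(k3,
    (nat_lit 653)),(k8,(nat_lit 659)),(k2,(nat_lit 667)),(k4,(nat_lit 676)),(k6,(nat_lit 708)),(k7,(nat_lit 720)),(k9,
    (nat_lit 749))],[(k1,(nat_lit 588)),(k8,(nat_lit 595)),(k10,(nat_lit 612)),(k11,(nat_lit 612)),(k7,(nat_lit 644)),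
    (k2,(nat_lit 647)),(k0,(nat_lit 652)),(k3,(nat_lit 653)),(k5,(nat_lit 662)),(k6,(nat_lit 668)),(k9,(nat_lit 673)),
    (k4,(nat_lit 714))],[(k7,(nat_lit 585)),(k6,(nat_lit 609)),(k9,(nat_lit 614)),(k0,(nat_lit 653)),(k1,
    (nat_lit 653)),(k3,(nat_lit 654)),(k4,(nat_lit 655)),(k8,(nat_lit 660)),(k2,(nat_lit 668)),(k10,(nat_lit 677)),
    (k11,(nat_lit 677)),(k5,(nat_lit 683))],[(k7,(nat_lit 599)),(k6,(nat_lit 623)),(k8,(nat_lit 638)),(k9,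
    (nat_lit 640)),(k2,(nat_lit 646)),(k0,(nat_lit 647)),(k1,(nat_lit 667)),(k3,(nat_lit 668)),(k10,(nat_lit 671)),
    (k11,(nat_lit 671)),(k5,(nat_lit 677)),(k4,(nat_lit 681))],[(k1,(nat_lit 618)),(k10,(nat_lit 622)),(k8,
    (nat_lit 625)),(k7,(nat_lit 642)),(k11,(nat_lit 658)),(k0,(nat_lit 662)),(k6,(nat_lit 666)),(k2,(nat_lit 677)),
    (k3,(nat_lit 683)),(k9,(nat_lit 683)),(k5,(nat_lit 708)),(k4,(nat_lit 724))],[(k10,(nat_lit 538)),(k9,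
    (nat_lit 599)),(k4,(nat_lit 640)),(k7,(nat_lit 646)),(k3,(nat_lit 655)),(k6,(nat_lit 658)),(k11,(nat_lit 674)),
    (k1,(nat_lit 676)),(k2,(nat_lit 681)),(k8,(nat_lit 683)),(k0,(nat_lit 714)),(k5,(nat_lit 724))],[(k10,
    (nat_lit 582)),(k11,(nat_lit 582)),(k3,(nat_lit 585)),(k8,(nat_lit 591)),(k2,(nat_lit 599)),(k9,(nat_lit 617)),
    (k5,(nat_lit 642)),(k0,(nat_lit 644)),(k4,(nat_lit 646)),(k7,(nat_lit 652)),(k6,(nat_lit 676)),(k1,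
    (nat_lit 720))],[(k11,(nat_lit 480)),(k10,(nat_lit 492)),(k8,(nat_lit 527)),(k6,(nat_lit 592)),(k3,(nat_lit 609)),
    (k2,(nat_lit 623)),(k9,(nat_lit 629)),(k4,(nat_lit 658)),(k5,(nat_lit 666)),(k0,(nat_lit 668)),(k7,(nat_lit 676)),
    (k1,(nat_lit 708))],[(k10,(nat_lit 533)),(k4,(nat_lit 599)),(k3,(nat_lit 614)),(k7,(nat_lit 617)),(k6,
    (nat_lit 629)),(k2,(nat_lit 640)),(k9,(nat_lit 666)),(k0,(nat_lit 673)),(k5,(nat_lit 683)),(k11,(nat_lit 721)),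
    (k1,(nat_lit 749)),(k8,(nat_lit 768))],[(k6,(nat_lit 527)),(k7,(nat_lit 591)),(k0,(nat_lit 595)),(k11,
    (nat_lit 619)),(k5,(nat_lit 625)),(k10,(nat_lit 635)),(k2,(nat_lit 638)),(k1,(nat_lit 659)),(k3,(nat_lit 660)),
    (k8,(nat_lit 666)),(k4,(nat_lit 683)),(k9,(nat_lit 768))],[(k6,(nat_lit 480)),(k10,(nat_lit 572)),(k11,
    (nat_lit 572)),(k7,(nat_lit 582)),(k1,(nat_lit 596)),(k0,(nat_lit 612)),(k8,(nat_lit 619)),(k5,(nat_lit 658)),(k2,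
    (nat_lit 671)),(k4,(nat_lit 674)),(k3,(nat_lit 677)),(k9,(nat_lit 721))],[(k6,(nat_lit 492)),(k9,(nat_lit 533)),
    (k4,(nat_lit 538)),(k10,(nat_lit 572)),(k11,(nat_lit 572)),(k7,(nat_lit 582)),(k0,(nat_lit 612)),(k1,
    (nat_lit 612)),(k5,(nat_lit 622)),(k8,(nat_lit 635)),(k2,(nat_lit 671)),(k3,(nat_lit 677))]]
    [[k3,k0,k0,k0,k0,k0],[k2,k1,k0,k0,k0,k0],[k2,k0,k0,k0,k0,k1],[k1,k1,k0,k0,k1,k0],[k1,k0,k1,k0,k0,k1],[k1,k0,k1,k0,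
    k1,k0],[k1,k0,k0,k1,k0,k1],[k1,k0,k0,k0,k1,k1],[k1,k0,k0,k0,k0,k2],[k0,k2,k0,k1,k0,k0],[k0,k1,k1,k0,k0,k1],[k0,k1,
    k0,k2,k0,k0],[k0,k1,k0,k1,k1,k0],[k0,k1,k0,k1,k0,k1],[k0,k1,k0,k0,k1,k1],[k0,k0,k1,k1,k1,k0],[k0,k0,k1,k1,k0,k1],
    [k0,k0,k1,k2,k0,k0],[k0,k0,k1,k0,k1,k1],[k0,k0,k1,k0,k0,k2],[k0,k0,k0,k2,k1,k0],[k0,k0,k0,k2,k0,k1],[k0,k0,k0,k1,
    k2,k0],[k0,k0,k0,k1,k1,k1],[k0,k0,k0,k1,k0,k2],[k0,k0,k0,k0,k1,k2],[k0,k0,k0,k0,k0,k3]]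
    [.ref k25 k0 [(z1,[z1]),(z5,[y8,z2,z15]),(z20,[z4,y1,z0,z15]),(z1,[z0,z0,z0,z0,z1]),(z20,[y8,y3,y60,y15,y20,
    z60])],.ref k25 k0 [(z2,[z15,y2,y15]),(z1,[y12,z2,z15]),(z4,[z6,y1,y6,z3]),(z1,[z0,z0,z0,z0,z1]),(z4,[y12,z1,z0,
    y3,y4,z12])],.ref k25 k0 [(z14,[z15,z1]),(z7,[y12,z2,z21]),(z28,[z6,y1,z0,z21]),(z1,[z0,z0,z0,z0,z1]),(z28,[y12,
    y5,y84,y21,y28,z84])],.ref k25 k0 [(z4,[y12,z1,z0,y3,y4,z12]),(z5,[z24,z0,z15,z6,z8,y24]),(z5,[y3,z0,z0,z3,y1,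
    z3]),(z1,[z0,z0,z0,z0,z1]),(z20,[z24,y5,y60,y9,y12,z36])],.ref k25 k0 [(z8,[z12,z1,z0,y3]),(z5,[y12,z1,z15,z3]),
    (z40,[z12,y1,z0,z27]),(z1,[z0,z0,z0,z0,z1]),(z5,[y3,y1,y15,y3,y5,z15])],.ref k25 k0 [(z4,[z15,z1,z15,z0,z5,y15]),
    (z1,[y6,z0,y3,z0,y2,z6]),(z4,[z3,z0,z3,z3,z1,y3]),(z1,[z0,z0,z0,z0,z1]),(z4,[y6,y1,y18,y3,y6,z18])],
    .ref k25 k0 [(z9,[z15,z1,z0,z0,y5]),(z9,[y24,z2,z27,z0,z8]),(z36,[z12,y1,z0,z27,y4]),(z1,[z0,z0,z0,z0,z1]),(z36,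
    [y24,y7,(Int.negSucc (nat_lit 107)),y27,y28,(Int.ofNat (nat_lit 108))])],.ref k25 k0 [(z28,[z60,z7,z60,z15,z20,
    y60]),(z7,[y24,z0,y3,y6,y8,z24]),(z7,[z3,z0,z3,z6,z1,y3]),(z1,[z0,z0,z0,z0,z1]),(z28,[y24,y7,
    (Int.negSucc (nat_lit 107)),y27,y36,(Int.ofNat (nat_lit 108))])],.ref k25 k0 [(z13,[z15,z2]),(z13,[y24,z2,z39]),
    (z52,[z12,y1,z0,z39]),(z1,[z0,z0,z0,z0,z1]),(z52,[y24,y11,(Int.negSucc (nat_lit 155)),y39,y52,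
    (Int.ofNat (nat_lit 156))])],.ref k25 k0 [(z16,[y15,z4,z30,z0,z5]),(z2,[z3,z0,z0,z0,y1]),(z16,[y3,z0,z6,z12,z1]),
    (z1,[z0,z0,z0,z0,z1]),(z8,[z3,y2,y30,y6,y9,z24])],.ref k25 k0 [(z4,[y20,z1,z20,z5]),(z1,[z8,z0,y5,y2]),(z1,[y1,z0,
    z1,z1]),(z1,[z0,z0,z0,z0,z1]),(z4,[z8,y1,y20,y5,y4,z12])],.ref k25 k0 [(z8,[y15,z2,z15,z0,z10]),(z1,[z3,z0,z0,z0,
    y2]),(z8,[y3,z0,z3,z6,z2]),(z1,[z0,z0,z0,z0,z1]),(z4,[z3,y1,y15,y3,y6,z12])],.ref k25 k0 [(z8,[y12,z1,z0,y3,z0,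
    z12]),(z5,[z12,z1,z15,z3,z0,y12]),(z40,[y12,y1,z0,z27,z0,z12]),(z1,[z0,z0,z0,z0,z1]),(z5,[z3,y1,y15,y3,y5,z12])],
    .ref k25 k0 [(z4,[y15,z1,z15,z0,z5]),(z1,[z6,z0,y3,z0,y2]),(z4,[y3,z0,z3,z3,z1]),(z1,[z0,z0,z0,z0,z1]),(z4,[z6,y1,
    y18,y3,y6,z12])],.ref k25 k0 [(z24,[y60,z1,z0,y15,y20,z60]),(z3,[z12,z1,z9,z3,z4,y12]),(z24,[y12,y1,z0,z15,y4,
    z12]),(z1,[z0,z0,z0,z0,z1]),(z6,[z6,y1,y18,y3,y4,z12])],.ref k25 k0 [(z1,[y15,y1,y15,z0,z0,z15]),(z1,[z24,z2,z27,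
    z0,z0,y24]),(z4,[y12,y1,y12,z3,z0,z12]),(z1,[z0,z0,z0,z0,z1]),(z4,[z24,z1,z12,y3,y4,y12])],.ref k25 k0 [(z4,[z12,
    z1,z0,y3,y4]),(z5,[y24,z0,z15,z6,z8]),(z5,[z3,z0,z0,z3,y1]),(z1,[z0,z0,z0,z0,z1]),(z20,[y24,y5,y60,y9,y12,z60])],
    .ref k25 k0 [(z4,[z60,z1,z0,y15,y40]),(z1,[y24,z0,z3,z6,z16]),(z1,[z3,z0,z0,z0,y2]),(z1,[z0,z0,z0,z0,z1]),(z4,
    [y24,y1,y12,z3,z12,z12])],.ref k25 k0 [(z3,[z15,z2,z15,z0,z5,y15]),(z3,[y24,y2,y15,z0,y8,z24]),(z12,[z12,z1,z12,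
    z9,z4,y12]),(z1,[z0,z0,z0,z0,z1]),(z12,[y24,y5,y60,y9,y20,z60])],.ref k25 k0 [(z12,[z20,z3,z0,y5]),(z3,[y8,z0,z9,
    z2]),(z3,[z1,z0,z0,z2]),(z1,[z0,z0,z0,z0,z1]),(z12,[y8,y3,y36,y7,y12,z36])],.ref k25 k0 [(z8,[y60,y3,y60,y15,z20,
    z60]),(z1,[z12,z1,z15,z3,y4,y12]),(z8,[y12,y1,y12,z3,z4,z12]),(z1,[z0,z0,z0,z0,z1]),(z1,[z3,z0,z0,z0,y2])],
    .ref k25 k0 [(z4,[z15,z1,z0,z0,y10]),(z1,[y6,z0,z3,z0,z4]),(z4,[z3,z0,z0,z3,y2]),(z1,[z0,z0,z0,z0,z1]),(z4,[y6,y1,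
    y12,y3,z0,z12])],.ref k25 k0 [(z8,[y30,y3,y60,y15,y10,z60]),(z1,[z6,z1,z15,z3,z2,y12]),(z8,[y6,y1,y12,z3,y2,z12]),
    (z1,[z0,z0,z0,z0,z1]),(z2,[z3,z0,z0,z0,y1])],.ref k25 k0 [(z8,[z60,z7,z60,z15,z0,y60]),(z1,[y12,y1,y9,y3,z0,z12]),
    (z8,[z12,z1,z12,z9,z0,y12]),(z1,[z0,z0,z0,z0,z1]),(z2,[y6,y1,y12,y3,y2,z12])],.ref k25 k0 [(z8,[z15,z2,z0,z0,y5]),
    (z1,[y3,z0,z3,z0,z1]),(z8,[z3,z0,z0,z6,y1]),(z1,[z0,z0,z0,z0,z1]),(z4,[y3,y1,y12,y3,y3,z12])],.ref k25 k0 [(z24,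
    [z60,z11,z60,z15,z20,y60]),(z3,[y12,y1,y3,y3,y4,z12]),(z24,[z12,z1,z12,z21,z4,y12]),(z1,[z0,z0,z0,z0,z1]),(z3,[y3,
    y1,y12,y3,y4,z12])],.ref k25 k0 [(z4,[z5,z1]),(z1,[y2,z0,z3]),(z4,[z1,z0,z0,z3]),(z1,[z0,z0,z0,z0,z1]),(z4,[y2,y1,
    y12,y3,y4,z12])]],
    .lp k0 [(nat_lit 482),(nat_lit 458),(nat_lit 488),(nat_lit 500),(nat_lit 494),(nat_lit 452)] [k19,k19,k62,k0,k16,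
    k16,k10,k10,k13,k13,k34,k34] k0 [[k0,k0,k0,k18,k12,k18,k36,k0,k0,k0,k0,k0],[k102,k0,k0,k0,k0,k0,k6,k0,k0,k0,k0,
    k126],[k0,k18,k0,k18,k0,k0,k0,k0,k0,k0,k24,k0],[k0,k0,k0,k0,k12,k0,k12,k0,k0,k0,k0,k0],[k0,k18,k0,k0,k0,k12,k0,
    k18,k0,k0,k18,k0],[k0,k12,k12,k0,k0,k0,k0,k0,k6,k0,k12,k0],[k0,k0,k0,k0,k0,k18,k0,k18,k0,k66,k0,k0],[k6,k36,k12,
    k0,k0,k0,k0,k0,k0,k0,k12,k0],[k0,k0,k0,k0,k0,k0,k0,k66,k0,k0,k108,k0],[k0,k0,k0,k0,k6,k0,k0,k0,k0,k0,k42,k0],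
    [k126,k0,k0,k0,k0,k0,k0,k0,k0,k0,k0,k24],[k0,k0,k0,k24,k12,k18,k12,k0,k42,k108,k0,k0]] (nat_lit 1440) k5
    [[(k8,(nat_lit 380)),(k2,(nat_lit 415)),(k11,(nat_lit 425)),(k4,(nat_lit 467)),(k10,(nat_lit 467)),(k9,
    (nat_lit 476)),(k7,(nat_lit 479)),(k5,(nat_lit 485)),(k6,(nat_lit 491)),(k3,(nat_lit 501)),(k1,(nat_lit 506)),(k0,
    (nat_lit 608))],[(k2,(nat_lit 421)),(k9,(nat_lit 452)),(k4,(nat_lit 467)),(k10,(nat_lit 467)),(k11,(nat_lit 467)),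
    (k7,(nat_lit 479)),(k5,(nat_lit 485)),(k8,(nat_lit 488)),(k6,(nat_lit 497)),(k3,(nat_lit 501)),(k0,(nat_lit 584)),
    (k1,(nat_lit 608))],[(k10,(nat_lit 360)),(k3,(nat_lit 418)),(k2,(nat_lit 458)),(k11,(nat_lit 486)),(k0,
    (nat_lit 501)),(k1,(nat_lit 501)),(k9,(nat_lit 501)),(k8,(nat_lit 507)),(k4,(nat_lit 516)),(k5,(nat_lit 522)),(k7,
    (nat_lit 528)),(k6,(nat_lit 546))],[(k2,(nat_lit 378)),(k1,(nat_lit 415)),(k0,(nat_lit 421)),(k10,(nat_lit 424)),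
    (k11,(nat_lit 424)),(k5,(nat_lit 442)),(k8,(nat_lit 445)),(k9,(nat_lit 445)),(k7,(nat_lit 448)),(k4,
    (nat_lit 454)),(k3,(nat_lit 458)),(k6,(nat_lit 460))],[(k2,(nat_lit 442)),(k11,(nat_lit 470)),(k9,(nat_lit 479)),
    (k7,(nat_lit 482)),(k0,(nat_lit 485)),(k1,(nat_lit 485)),(k4,(nat_lit 488)),(k8,(nat_lit 491)),(k6,(nat_lit 494)),
    (k10,(nat_lit 494)),(k5,(nat_lit 506)),(k3,(nat_lit 522))],[(k2,(nat_lit 454)),(k0,(nat_lit 467)),(k1,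
    (nat_lit 467)),(k11,(nat_lit 470)),(k4,(nat_lit 476)),(k6,(nat_lit 476)),(k10,(nat_lit 482)),(k5,(nat_lit 488)),
    (k9,(nat_lit 491)),(k7,(nat_lit 494)),(k8,(nat_lit 497)),(k3,(nat_lit 516))],[(k2,(nat_lit 448)),(k11,
    (nat_lit 470)),(k0,(nat_lit 479)),(k1,(nat_lit 479)),(k5,(nat_lit 482)),(k4,(nat_lit 494)),(k10,(nat_lit 494)),
    (k8,(nat_lit 497)),(k6,(nat_lit 500)),(k7,(nat_lit 512)),(k9,(nat_lit 515)),(k3,(nat_lit 528))],[(k8,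
    (nat_lit 431)),(k2,(nat_lit 460)),(k4,(nat_lit 476)),(k11,(nat_lit 476)),(k6,(nat_lit 482)),(k10,(nat_lit 488)),
    (k1,(nat_lit 491)),(k5,(nat_lit 494)),(k0,(nat_lit 497)),(k9,(nat_lit 497)),(k7,(nat_lit 500)),(k3,
    (nat_lit 546))],[(k2,(nat_lit 445)),(k0,(nat_lit 452)),(k10,(nat_lit 473)),(k1,(nat_lit 476)),(k5,(nat_lit 479)),
    (k4,(nat_lit 491)),(k8,(nat_lit 494)),(k6,(nat_lit 497)),(k3,(nat_lit 501)),(k9,(nat_lit 512)),(k7,(nat_lit 515)),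
    (k11,(nat_lit 539))],[(k1,(nat_lit 380)),(k6,(nat_lit 431)),(k2,(nat_lit 445)),(k11,(nat_lit 473)),(k0,
    (nat_lit 488)),(k5,(nat_lit 491)),(k8,(nat_lit 494)),(k9,(nat_lit 494)),(k4,(nat_lit 497)),(k7,(nat_lit 497)),(k3,
    (nat_lit 507)),(k10,(nat_lit 515))],[(k2,(nat_lit 424)),(k1,(nat_lit 425)),(k11,(nat_lit 452)),(k0,(nat_lit 467)),
    (k4,(nat_lit 470)),(k5,(nat_lit 470)),(k7,(nat_lit 470)),(k8,(nat_lit 473)),(k6,(nat_lit 476)),(k3,(nat_lit 486)),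
    (k9,(nat_lit 539)),(k10,(nat_lit 560))],[(k3,(nat_lit 360)),(k2,(nat_lit 424)),(k10,(nat_lit 428)),(k0,
    (nat_lit 467)),(k1,(nat_lit 467)),(k9,(nat_lit 473)),(k4,(nat_lit 482)),(k6,(nat_lit 488)),(k5,(nat_lit 494)),(k7,
    (nat_lit 494)),(k8,(nat_lit 515)),(k11,(nat_lit 560))]]
    [[k2,k1,k0,k0,k0,k0],[k1,k2,k0,k0,k0,k0],[k1,k1,k1,k0,k0,k0],[k1,k1,k0,k0,k1,k0],[k1,k1,k0,k0,k0,k1],[k1,k0,k1,k0,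
    k1,k0],[k1,k0,k1,k0,k0,k1],[k1,k0,k0,k1,k0,k1],[k1,k0,k0,k1,k1,k0],[k1,k0,k0,k0,k2,k0],[k1,k0,k0,k0,k1,k1],[k1,k0,
    k0,k0,k0,k2],[k0,k3,k0,k0,k0,k0],[k0,k2,k1,k0,k0,k0],[k0,k2,k0,k0,k1,k0],[k0,k2,k0,k0,k0,k1],[k0,k2,k0,k1,k0,k0],
    [k0,k1,k1,k0,k0,k1],[k0,k1,k0,k1,k1,k0],[k0,k1,k0,k1,k0,k1],[k0,k1,k0,k0,k1,k1],[k0,k1,k0,k0,k0,k2],[k0,k0,k1,k1,
    k1,k0],[k0,k0,k1,k0,k1,k1],[k0,k0,k1,k0,k0,k2],[k0,k0,k0,k1,k0,k2],[k0,k0,k0,k1,k1,k1]]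
    [.ref k25 k0 [(z5,[z12,y9,y4]),(z5,[y9,z18,z8]),(z5,[y6,z12,z2,z15]),(z5,[z3,y6,y1]),(z1,[z0,z0,z0,z0,z1])],
    .ref k25 k0 [(z1,[y6,z9,z4]),(z2,[z9,y9,y4]),(z1,[z3,y3,y2,z3]),(z2,[y3,z3,z2]),(z1,[z0,z0,z0,z0,z1])],
    .ref k25 k0 [(z1,[y12,z15,z4,z12]),(z1,[z9,y9,y2,y9]),(z1,[z6,y6,y2,y3]),(z1,[y3,z3,z1,z3]),(z1,[z0,z0,z0,z0,
    z1])],.ref k25 k0 [(z1,[z12,y9,y4,z0,y4]),(z1,[y9,z9,z4,z0,z3]),(z1,[y6,z6,z2,z3,z2]),(z1,[z3,y3,y1,z0,y1]),(z1,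
    [z0,z0,z0,z0,z1])],.ref k25 k0 [(z1,[z12,z3,z0,z12,z4,y12]),(z1,[y9,z0,z1,y9,y3,z9]),(z1,[y6,z0,z0,y3,y2,z6]),(z1,
    [z3,z0,z0,z3,z1,y3]),(z1,[z0,z0,z0,z0,z1])],.ref k25 k0 [(z1,[z6,y3,z0,y6,y2]),(z2,[y9,z9,z2,z9,z3]),(z1,[y3,z3,
    z0,z6,z1]),(z2,[z3,y3,z0,y3,y1]),(z1,[z0,z0,z0,z0,z1])],.ref k25 k0 [(z1,[z6,z3,z2,z0,z2,y6]),(z2,[y9,z0,y1,z0,y3,
    z9]),(z1,[y3,z0,y1,z3,y1,z3]),(z2,[z3,z0,z1,z0,z1,y3]),(z1,[z0,z0,z0,z0,z1])],.ref k25 k0 [(z5,[z12,z15,z4,z12,z4,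
    y12]),(z5,[y9,z0,z2,y9,y3,z9]),(z5,[y6,z0,y2,z9,y2,z6]),(z5,[z3,z0,z1,z3,z1,y3]),(z1,[z0,z0,z0,z0,z1])],
    .ref k25 k0 [(z5,[z12,z3,z0,z0,y4]),(z5,[y9,z9,z5,z0,z3]),(z5,[y6,z6,z0,z15,z2]),(z5,[z3,y3,z0,z0,y1]),(z1,[z0,z0,
    z0,z0,z1])],.ref k25 k0 [(z1,[z3,z0,z0,z0,y2]),(z4,[y9,z9,z4,z0,z6]),(z2,[y3,z3,z0,z6,z2]),(z4,[z3,y3,z0,z0,y2]),
    (z1,[z0,z0,z0,z0,z1])],.ref k25 k0 [(z1,[z3,z3,z1,z3,z0,y3]),(z4,[y9,z0,z1,y9,z0,z9]),(z2,[y3,z0,y1,z3,z0,z3]),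
    (z4,[z3,z0,z1,z3,z0,y3]),(z1,[z0,z0,z0,z0,z1])],.ref k25 k0 [(z1,[z3,z6,z2,z6,z2,y6]),(z4,[y9,y9,y2,y18,y6,z18]),
    (z2,[y3,y3,y2,z0,y2,z6]),(z4,[z3,z3,z2,z6,z2,y6]),(z1,[z0,z0,z0,z0,z1])],.ref k25 k0 [(z3,[y4,z9,z4]),(z1,[z1]),
    (z3,[z2,z0,y2,z9]),(z3,[y1,z0,z1]),(z1,[z0,z0,z0,z0,z1])],.ref k25 k0 [(z2,[y3,z6,z2,z3]),(z8,[z9,z0,z2,y9]),(z4,
    [z3,z0,y2,z9]),(z8,[y3,z0,z2,z3]),(z1,[z0,z0,z0,z0,z1])],.ref k25 k0 [(z3,[y6,z9,z4,z0,z2]),(z2,[z3,z0,z0,z0,y1]),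
    (z3,[z3,z0,y2,z9,y1]),(z6,[y3,z0,z2,z0,z1]),(z1,[z0,z0,z0,z0,z1])],.ref k25 k0 [(z3,[y6,z3,z2,y6,y2,z6]),(z2,[z3,
    z3,z1,z3,z1,y3]),(z3,[z3,z3,y1,z12,z1,y3]),(z6,[y3,y3,z1,y3,y1,z3]),(z1,[z0,z0,z0,z0,z1])],.ref k25 k0 [(z5,[y12,
    z15,z8]),(z5,[z9,z0,y1]),(z5,[z6,z0,y4,z15]),(z5,[y3,z0,z2]),(z1,[z0,z0,z0,z0,z1])],.ref k25 k0 [(z5,[y12,z3,z0,
    z0,y4,z12]),(z5,[z9,z9,z5,z0,z3,y9]),(z5,[z6,z6,z0,z15,z2,y6]),(z5,[y3,y3,z0,z0,y1,z3]),(z1,[z0,z0,z0,z0,z1])],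
    .ref k25 k0 [(z1,[y6,z3,z2,z0,z2]),(z2,[z9,z0,y1,z0,y3]),(z1,[z3,z0,y1,z3,y1]),(z2,[y3,z0,z1,z0,z1]),(z1,[z0,z0,
    z0,z0,z1])],.ref k25 k0 [(z1,[y6,y3,z0,y6,y2,z6]),(z2,[z9,z9,z2,z9,z3,y9]),(z1,[z3,z3,z0,z6,z1,y3]),(z2,[y3,y3,z0,
    y3,y1,z3]),(z1,[z0,z0,z0,z0,z1])],.ref k25 k0 [(z1,[y4,y1,z0,y4,z0,z4]),(z1,[z3,z3,z1,z3,z0,y3]),(z1,[z2,z2,z0,z5,
    z0,y2]),(z1,[y1,y1,z0,y1,z0,z1]),(z1,[z0,z0,z0,z0,z1])],.ref k25 k0 [(z3,[y12,y15,y4,y24,y8,z24]),(z1,[z3,z6,z2,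
    z6,z2,y6]),(z3,[z6,z12,z2,z21,z4,y12]),(z3,[y3,y6,y1,y6,y2,z6]),(z1,[z0,z0,z0,z0,z1])],.ref k25 k0 [(z1,[y12,z3,
    z0,z12,z4]),(z1,[z9,z0,z1,y9,y3]),(z1,[z6,z0,z0,y3,y2]),(z1,[y3,z0,z0,z3,z1]),(z1,[z0,z0,z0,z0,z1])],
    .ref k25 k0 [(z1,[y6,y3,y2,z0,z0,z6]),(z2,[z9,z9,z5,z0,z0,y9]),(z1,[z3,z3,z1,z3,z0,y3]),(z2,[y3,y3,y1,z0,z0,z3]),
    (z1,[z0,z0,z0,z0,z1])],.ref k25 k0 [(z1,[y6,y9,y4,y6,y4,z12]),(z2,[z9,z18,z8,z9,z6,y18]),(z1,[z3,z6,z2,z6,z2,y6]),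
    (z2,[y3,y6,y2,y3,y2,z6]),(z1,[z0,z0,z0,z0,z1])],.ref k25 k0 [(z1,[z12,z27,z8,z24,z8,y24]),(z1,[y9,y18,y5,y18,y6,
    z18]),(z1,[y6,y12,y4,y9,y4,z12]),(z1,[z3,z6,z2,z6,z2,y6]),(z1,[z0,z0,z0,z0,z1])],.ref k25 k0 [(z1,[z12,z15,z4,z12,
    z0,y12]),(z1,[y9,y9,y2,y9,z0,z9]),(z1,[y6,y6,y2,y3,z0,z6]),(z1,[z3,z3,z1,z3,z0,y3]),(z1,[z0,z0,z0,z0,z1])]],
    .lp k0 [k80,k78,k84,k82,k84,k70] [k2,k2,k3,k3,k0,k0,k1,k1,k0,k0,k7,k7] k0 [[k0,k0,k0,k0,k0,k2,k2,k0,k0,k0,k0,k4],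
    [k0,k0,k0,k0,k0,k0,k0,k0,k0,k0,k0,k4],[k0,k0,k0,k0,k0,k0,k0,k0,k0,k0,k2,k0],[k0,k0,k0,k0,k0,k0,k2,k0,k0,k0,k0,k0],
    [k0,k2,k0,k0,k0,k0,k0,k0,k0,k4,k4,k0],[k0,k0,k0,k0,k0,k0,k0,k0,k0,k0,k2,k0],[k0,k0,k0,k0,k0,k0,k0,k0,k0,k0,k0,k0],
    [k0,k2,k2,k0,k0,k0,k0,k0,k0,k4,k4,k0],[k0,k0,k0,k0,k0,k4,k4,k0,k0,k0,k0,k0],[k0,k0,k0,k0,k0,k0,k0,k0,k0,k0,k0,k0],
    [k4,k4,k0,k0,k0,k0,k0,k0,k0,k0,k0,k2],[k0,k0,k0,k2,k2,k4,k4,k0,k0,k0,k0,k0]] (nat_lit 240) k5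
    [[(k10,k75),(k11,k75),(k2,k77),(k4,k78),(k9,k78),(k7,k79),(k6,k81),(k1,k82),(k5,k82),(k8,k82),(k3,k83),(k0,k84)],
    [(k10,k71),(k11,k75),(k2,k79),(k3,k79),(k0,k80),(k4,k80),(k9,k80),(k6,k81),(k7,k81),(k5,k82),(k8,k82),(k1,k84)],
    [(k10,k70),(k11,k74),(k2,k78),(k3,k78),(k0,k79),(k4,k81),(k5,k81),(k8,k81),(k9,k81),(k6,k82),(k7,k82),(k1,k83)],
    [(k10,k74),(k11,k74),(k1,k77),(k2,k78),(k3,k78),(k0,k79),(k7,k80),(k4,k81),(k5,k81),(k8,k81),(k9,k81),(k6,k82)],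
    [(k11,k77),(k10,k79),(k2,k81),(k3,k81),(k0,k82),(k1,k82),(k9,k82),(k6,k83),(k7,k83),(k4,k84),(k5,k84),(k8,k84)],
    [(k11,k77),(k1,k78),(k10,k79),(k0,k80),(k8,k80),(k2,k81),(k3,k81),(k6,k83),(k7,k83),(k4,k84),(k5,k84),(k9,k84)],
    [(k1,k79),(k2,k80),(k10,k80),(k11,k80),(k0,k81),(k3,k82),(k6,k82),(k7,k82),(k4,k83),(k5,k83),(k8,k83),(k9,k83)],
    [(k10,k80),(k11,k80),(k0,k81),(k1,k81),(k2,k82),(k3,k82),(k6,k82),(k7,k82),(k4,k83),(k5,k83),(k8,k83),(k9,k83)],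
    [(k10,k77),(k11,k77),(k1,k78),(k0,k80),(k8,k80),(k2,k81),(k3,k81),(k5,k82),(k6,k83),(k7,k83),(k4,k84),(k9,k84)],
    [(k10,k77),(k11,k77),(k4,k80),(k9,k80),(k2,k81),(k3,k81),(k0,k82),(k1,k82),(k6,k83),(k7,k83),(k5,k84),(k8,k84)],
    [(k10,k70),(k11,k70),(k2,k74),(k3,k74),(k0,k75),(k1,k75),(k4,k77),(k5,k77),(k8,k77),(k9,k77),(k6,k80),(k7,k80)],
    [(k10,k68),(k3,k70),(k11,k70),(k0,k71),(k2,k74),(k1,k75),(k8,k77),(k9,k77),(k4,k79),(k5,k79),(k6,k80),(k7,k80)]]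
    [[k2,k0,k0,k0,k0,k1],[k1,k2,k0,k0,k0,k0],[k1,k1,k1,k0,k0,k0],[k1,k1,k0,k0,k1,k0],[k1,k1,k0,k0,k0,k1],[k1,k0,k1,k0,
    k0,k1],[k1,k0,k0,k1,k0,k1],[k1,k0,k0,k0,k1,k1],[k1,k0,k0,k0,k0,k2],[k0,k3,k0,k0,k0,k0],[k0,k2,k0,k0,k0,k1],[k0,k1,
    k1,k0,k0,k1],[k0,k1,k0,k1,k0,k1],[k0,k1,k0,k0,k1,k1],[k0,k1,k0,k0,k0,k2],[k0,k0,k1,k0,k1,k1],[k0,k0,k1,k0,k0,k2],
    [k0,k0,k0,k1,k0,k2],[k0,k0,k0,k0,k2,k1],[k0,k0,k0,k0,k1,k2],[k0,k0,k0,k0,k0,k3]]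
    [.ref k195 k7 [(z1,[y12,z9,z4]),(z1,[z0,z1,z0,z2]),(z1,[z0,y1]),(z1,[z0,y3,y1,y3,z3])],.ref k196 k8 [(z2,[y1,z1,
    z0,z2]),(z2,[z1,y1]),(z1,[z0,y3,y1,y3,z3]),(z2,[y9,z9,z4])],.ref k196 k8 [(z1,[y1,z1,z0,z2]),(z1,[z1,y1,z0,y1]),
    (z1,[z0,y3,y1,y3,z3]),(z1,[y9,z9,z2,z9])],.ref k197 k6 [(z1,[y1,z0,z0,y1,z1]),(z1,[z0,z1]),(z1,[z3,z0,z1,z3,y3]),
    (z1,[z0,z0,z0,z1])],.ref k97 k8 [(z1,[y6,z6,z2,z3]),(z1,[z3,y3,y1]),(z1,[z0,y3,y1,y3,z3]),(z1,[y9,z9,z4])],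
    .ref k198 k8 [(z1,[z6,y6,y2,y3]),(z1,[y3,z3,z1,z3]),(z1,[z0,y3,y1,y3,z3]),(z1,[z9,y9,y2,y9])],.ref k199 k11 [(z1,
    [z6,y3,y2]),(z1,[y9,z9,z5]),(z1,[z0,y3,y1,y3,z3]),(z1,[z3,y3,y1])],.ref (nat_lit 200) k11 [(z1,[z4,z1,z0,z4,y4]),
    (z1,[y9,z0,z1,y9,z9]),(z1,[z0,y3,y1,y3,z3]),(z1,[z1,z0,z0,z1,y1])],.ref k198 k8 [(z1,[z3,y3,y2,z3]),(z2,[y3,z3,
    z2]),(z1,[z0,y3,y1,y3,z3]),(z2,[z9,y9,y4])],.ref (nat_lit 201) k4 [(z1,[z0,y3,y1,y3,z3]),(z1,[y1,z0,z1]),(z1,[z2,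
    z0,y2,z9]),(z1,[z1])],.ref (nat_lit 202) k11 [(z1,[y12,z9,z4]),(z1,[z1]),(z1,[z0,y3,y1,y3,z3]),(z1,[y3,z0,z1])],
    .ref k97 k8 [(z5,[z6,z0,y2,z9]),(z5,[y3,z0,z1,z3]),(z1,[z0,y3,y1,y3,z3]),(z5,[z9,z0,z2,y9])],.ref k97 k8 [(z1,[z3,
    z0,y1,z3]),(z2,[y3,z0,z1]),(z1,[z0,y3,y1,y3,z3]),(z2,[z9,z0,y1])],.ref k97 k8 [(z1,[z2,z2,z0,z5,y2]),(z1,[y1,y1,
    z0,y1,z1]),(z1,[z0,y3,y1,y3,z3]),(z1,[z3,z3,z1,z3,y3])],.ref (nat_lit 203) k6 [(z1,[z3,z0,y1]),(z1,[z0,z1]),(z1,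
    [y3,z0,z2]),(z1,[z0,z0,z0,z1])],.ref (nat_lit 204) k6 [(z1,[z3,z3,z1,z0,y3]),(z1,[z0,z1]),(z1,[y1,y1,z0,z0,z1]),
    (z1,[z0,z0,z0,z1])],.ref k197 k6 [(z2,[z1,z0,z0,y1]),(z1,[z0,z1]),(z2,[y3,z0,z2,z3]),(z1,[z0,z0,z0,z1])],
    .ref (nat_lit 205) k10 [(z1,[y6,z0,z4,y15]),(z1,[z0,z1,z0,z2]),(z1,[z2,z0,z0,y1]),(z1,[z0,y3,y1,y3,z3])],
    .ref (nat_lit 206) k0 [(z1,[z0,z1]),(z1,[y3,y6,y1,y6,z6]),(z1,[z0,z0,z0,z1]),(z1,[z0,y3,y1,y3,z3])],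
    .ref (nat_lit 206) k0 [(z1,[z0,z1]),(z2,[y3,y3,z1,y3,z3]),(z1,[z0,z0,z0,z1]),(z1,[z0,y3,y1,y3,z3])],
    .ref (nat_lit 206) k0 [(z1,[z0,z1]),(z1,[y1,z0,z1]),(z1,[z0,z0,z0,z1]),(z1,[z0,y3,y1,y3,z3])]],
    .lp k0 [(nat_lit 642),(nat_lit 616),(nat_lit 652),(nat_lit 660),(nat_lit 700),(nat_lit 566)] [k29,k29,k42,k42,k24,
    k24,k20,k20,k0,k0,k67,k67] k0 [[k0,k48,k24,k0,k36,k0,k0,k0,k0,k0,k0,k46],[k0,k0,k0,k0,k8,k0,k12,k8,k32,k0,k0,k42],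
    [k0,k0,k0,k0,k8,k0,k12,k0,k0,k0,k0,k42],[k0,k24,k0,k0,k12,k0,k0,k0,k0,k0,k0,k46],[k0,k0,k0,k0,k0,k0,k48,k0,k28,
    k36,k10,k14],[k8,k36,k12,k8,k0,k0,k0,k0,k0,k0,k0,k0],[k8,k0,k0,k0,k0,k0,k0,k0,k24,k32,k0,k0],[k12,k0,k0,k12,k0,
    k48,k0,k0,k0,k0,k58,k10],[k0,k0,k0,k0,k0,k36,k0,k32,k0,k68,k154,k0],[k32,k0,k0,k0,k0,k28,k0,k24,k0,k0,k18,k0],
    [k42,k46,k46,k42,k0,k14,k10,k0,k0,k0,k0,k0],[k0,k0,k0,k0,k0,k10,k58,k0,k18,k154,k0,k0]] (nat_lit 1920) k5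
    [[(k8,(nat_lit 517)),(k11,(nat_lit 586)),(k10,(nat_lit 604)),(k9,(nat_lit 613)),(k4,(nat_lit 637)),(k1,
    (nat_lit 642)),(k6,(nat_lit 661)),(k7,(nat_lit 665)),(k2,(nat_lit 675)),(k3,(nat_lit 675)),(k0,(nat_lit 684)),(k5,
    (nat_lit 689))],[(k10,(nat_lit 558)),(k0,(nat_lit 594)),(k11,(nat_lit 604)),(k7,(nat_lit 615)),(k5,(nat_lit 623)),
    (k2,(nat_lit 629)),(k3,(nat_lit 629)),(k4,(nat_lit 655)),(k6,(nat_lit 663)),(k9,(nat_lit 679)),(k1,(nat_lit 684)),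
    (k8,(nat_lit 703))],[(k10,(nat_lit 549)),(k11,(nat_lit 559)),(k0,(nat_lit 629)),(k6,(nat_lit 630)),(k7,
    (nat_lit 630)),(k5,(nat_lit 634)),(k2,(nat_lit 640)),(k9,(nat_lit 646)),(k8,(nat_lit 658)),(k3,(nat_lit 664)),(k4,
    (nat_lit 670)),(k1,(nat_lit 675))],[(k10,(nat_lit 549)),(k11,(nat_lit 591)),(k2,(nat_lit 616)),(k0,(nat_lit 629)),
    (k7,(nat_lit 630)),(k5,(nat_lit 634)),(k6,(nat_lit 638)),(k3,(nat_lit 640)),(k4,(nat_lit 646)),(k9,(nat_lit 646)),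
    (k8,(nat_lit 658)),(k1,(nat_lit 675))],[(k10,(nat_lit 563)),(k11,(nat_lit 609)),(k0,(nat_lit 623)),(k2,
    (nat_lit 634)),(k3,(nat_lit 634)),(k7,(nat_lit 644)),(k5,(nat_lit 652)),(k4,(nat_lit 660)),(k6,(nat_lit 668)),(k8,
    (nat_lit 676)),(k9,(nat_lit 676)),(k1,(nat_lit 689))],[(k11,(nat_lit 581)),(k10,(nat_lit 595)),(k9,(nat_lit 628)),
    (k1,(nat_lit 637)),(k8,(nat_lit 640)),(k2,(nat_lit 646)),(k4,(nat_lit 652)),(k0,(nat_lit 655)),(k6,(nat_lit 656)),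
    (k7,(nat_lit 656)),(k5,(nat_lit 660)),(k3,(nat_lit 670))],[(k0,(nat_lit 615)),(k10,(nat_lit 623)),(k2,
    (nat_lit 630)),(k3,(nat_lit 630)),(k5,(nat_lit 644)),(k11,(nat_lit 649)),(k4,(nat_lit 656)),(k7,(nat_lit 660)),
    (k1,(nat_lit 665)),(k9,(nat_lit 680)),(k6,(nat_lit 708)),(k8,(nat_lit 708))],[(k11,(nat_lit 589)),(k3,
    (nat_lit 630)),(k2,(nat_lit 638)),(k8,(nat_lit 648)),(k4,(nat_lit 656)),(k6,(nat_lit 660)),(k1,(nat_lit 661)),(k0,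
    (nat_lit 663)),(k5,(nat_lit 668)),(k10,(nat_lit 671)),(k9,(nat_lit 680)),(k7,(nat_lit 708))],[(k1,(nat_lit 613)),
    (k10,(nat_lit 623)),(k4,(nat_lit 628)),(k2,(nat_lit 646)),(k3,(nat_lit 646)),(k11,(nat_lit 665)),(k5,
    (nat_lit 676)),(k0,(nat_lit 679)),(k6,(nat_lit 680)),(k7,(nat_lit 680)),(k9,(nat_lit 700)),(k8,(nat_lit 724))],
    [(k1,(nat_lit 517)),(k8,(nat_lit 632)),(k11,(nat_lit 633)),(k4,(nat_lit 640)),(k6,(nat_lit 648)),(k10,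
    (nat_lit 651)),(k2,(nat_lit 658)),(k3,(nat_lit 658)),(k5,(nat_lit 676)),(k0,(nat_lit 703)),(k7,(nat_lit 708)),(k9,
    (nat_lit 724))],[(k3,(nat_lit 559)),(k4,(nat_lit 581)),(k1,(nat_lit 586)),(k6,(nat_lit 589)),(k2,(nat_lit 591)),
    (k0,(nat_lit 604)),(k5,(nat_lit 609)),(k8,(nat_lit 633)),(k11,(nat_lit 634)),(k7,(nat_lit 649)),(k9,
    (nat_lit 665)),(k10,(nat_lit 720))],[(k2,(nat_lit 549)),(k3,(nat_lit 549)),(k0,(nat_lit 558)),(k5,(nat_lit 563)),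
    (k10,(nat_lit 566)),(k4,(nat_lit 595)),(k1,(nat_lit 604)),(k7,(nat_lit 623)),(k9,(nat_lit 623)),(k8,
    (nat_lit 651)),(k6,(nat_lit 671)),(k11,(nat_lit 720))]]
    [[k2,k0,k0,k0,k1,k0],[k2,k0,k0,k0,k0,k1],[k2,k1,k0,k0,k0,k0],[k1,k1,k0,k0,k0,k1],[k1,k1,k1,k0,k0,k0],[k1,k0,k1,k0,
    k0,k1],[k1,k0,k0,k1,k0,k1],[k1,k1,k0,k0,k1,k0],[k1,k0,k1,k0,k1,k0],[k1,k0,k0,k1,k1,k0],[k1,k0,k0,k0,k1,k1],[k1,k0,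
    k0,k0,k0,k2],[k0,k2,k0,k1,k0,k0],[k0,k2,k0,k0,k0,k1],[k0,k1,k1,k0,k0,k1],[k0,k1,k0,k1,k0,k1],[k0,k1,k0,k0,k1,k1],
    [k0,k1,k0,k0,k0,k2],[k0,k0,k2,k0,k0,k1],[k0,k0,k1,k1,k0,k1],[k0,k0,k1,k0,k1,k1],[k0,k0,k1,k0,k0,k2],[k0,k0,k0,k1,
    k0,k2],[k0,k0,k0,k0,k1,k2]]
    [.ref k25 k0 [(z11,[z12,z1]),(z33,[y18,z4,z11]),(z33,[z9,y2,z0,z11]),(z11,[y18,z4,z0,z0,z33]),(z11,[z9,y2])],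
    .ref k25 k0 [(z6,[z9,z1,z1,z1,z9,y9]),(z12,[y9,z1,z3,y1,y9,z9]),(z24,[z9,y1,z1,z9,z9,y9]),(z4,[y9,z1,y1,y1,z3,
    z9]),(z8,[z9,y1,z1,z1,z9,y9])],.ref k25 k0 [(z9,[z18,y1,y2]),(z9,[y9,z2,z4]),(z18,[z9,y2,y1,z6]),(z3,[y9,z2,z1,z0,
    z9]),(z6,[z9,y2,y1])],.ref k25 k0 [(z3,[z18,z1,z0,z2,z18,y18]),(z3,[y9,z0,z1,y1,y9,z9]),(z2,[z3,z0,z0,z1,z3,y3]),
    (z1,[y9,z0,z0,y1,y6,z9]),(z2,[z9,z0,z0,z1,z9,y9])],.ref k25 k0 [(z9,[z36,y1,y4,y4]),(z9,[y18,z2,z5,z2]),(z9,[z9,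
    y1,y1,z2]),(z3,[y18,z2,z2,z2,z9]),(z3,[z9,y1,y1,y1])],.ref k25 k0 [(z15,[z36,z5,z4,z0,z36,y36]),(z5,[y6,z0,z1,z0,
    y6,z6]),(z15,[z9,z0,z1,z5,z9,y9]),(z5,[y18,z0,y2,z0,y3,z18]),(z5,[z9,z0,z1,z0,z9,y9])],.ref k25 k0 [(z3,[y18,z1,
    y2,y2,z0,z18]),(z3,[z9,z0,z2,z1,z0,y9]),(z6,[y9,z0,y1,z1,z0,z9]),(z1,[z9,z0,z1,z1,z3,y9]),(z2,[y9,z0,y1,y1,z0,
    z9])],.ref k25 k0 [(z15,[z36,z1,y4]),(z15,[y18,z2,z7]),(z15,[z9,y1,y1,z5]),(z5,[y18,z2,z2,z0,z15]),(z5,[z9,y1,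
    y1])],.ref k25 k0 [(z6,[z9,z1,z0,y1]),(z12,[y9,z1,z4,z1]),(z24,[z9,y1,z0,z7]),(z4,[y9,z1,z0,z1,z12]),(z8,[z9,y1,
    z0,y1])],.ref k25 k0 [(z1,[z12,y1,z0,z0,y12]),(z3,[y18,z2,z1,z0,z18]),(z3,[z9,y1,z0,z1,y9]),(z1,[y18,z2,z0,z0,
    z21]),(z1,[z9,y1,z0,z0,y9])],.ref k25 k0 [(z21,[z36,z7,z4,z4,z36,y36]),(z21,[y18,z0,z5,y2,y18,z18]),(z21,[z9,z0,
    z1,z8,z9,y9]),(z7,[y18,z0,y2,y2,z3,z18]),(z7,[z9,z0,z1,z1,z9,y9])],.ref k25 k0 [(z3,[z9,z2,z2,z2,z18,y18]),(z6,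
    [y9,y1,z0,y2,y18,z18]),(z12,[z9,z1,z2,z6,z18,y18]),(z2,[y9,y1,y2,y2,y12,z18]),(z4,[z9,z1,z2,z2,z18,y18])],
    .ref k25 k0 [(z15,[y18,z5,z4,z0,z18]),(z5,[z3,z0,z1,z0,y3]),(z30,[y9,z0,z2,z10,z9]),(z5,[z9,z0,y2,z0,z6]),(z10,
    [y9,z0,z2,z0,z9])],.ref k25 k0 [(z3,[y9,z0,z1,y1,y9,z9]),(z6,[z9,z1,z1,z1,z9,y9]),(z12,[y9,y1,z1,z3,y9,z9]),(z2,
    [z9,z1,y1,z1,z15,y9]),(z4,[y9,y1,z1,y1,y9,z9])],.ref k25 k0 [(z1,[y12,y1,z0,z0,y12,z12]),(z3,[z18,z2,z1,z0,z18,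
    y18]),(z3,[y9,y1,z0,z1,y9,z9]),(z1,[z18,z2,z0,z0,z21,y18]),(z1,[y9,y1,z0,z0,y9,z9])],.ref k25 k0 [(z6,[y9,z1,z0,
    y1,z0,z9]),(z12,[z9,z1,z4,z1,z0,y9]),(z24,[y9,y1,z0,z7,z0,z9]),(z4,[z9,z1,z0,z1,z12,y9]),(z8,[y9,y1,z0,y1,z0,
    z9])],.ref k25 k0 [(z3,[z36,z5,z0,z4,z36,y36]),(z3,[y18,y2,z1,y2,y18,z18]),(z3,[z9,z1,z0,z2,z9,y9]),(z1,[y18,y2,
    z0,y2,y15,z18]),(z1,[z9,z1,z0,z1,z9,y9])],.ref k25 k0 [(z3,[y18,y3,y2,y4,y36,z36]),(z3,[z9,z2,z2,z2,z18,y18]),(z6,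
    [y9,y2,y1,z0,y18,z18]),(z1,[z9,z2,z1,z2,z21,y18]),(z2,[y9,y2,y1,y2,y18,z18])],.ref k25 k0 [(z3,[z18,z3,z2,y2,z18,
    y18]),(z3,[y9,y1,z0,z1,y9,z9]),(z6,[z9,z1,z1,z1,z9,y9]),(z1,[y9,y1,y1,z1,y6,z9]),(z2,[z9,z1,z1,y1,z9,y9])],
    .ref k25 k0 [(z15,[y36,z1,y4,z0,z0,z36]),(z15,[z18,z2,z7,z0,z0,y18]),(z15,[y9,y1,y1,z5,z0,z9]),(z5,[z18,z2,z2,z0,
    z15,y18]),(z5,[y9,y1,y1,z0,z0,z9])],.ref k25 k0 [(z3,[z9,z2,z1,z0,z9,y9]),(z6,[y9,y1,z1,z0,y9,z9]),(z12,[z9,z1,z1,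
    z4,z9,y9]),(z2,[y9,y1,y1,z0,y3,z9]),(z4,[z9,z1,z1,z0,z9,y9])],.ref k25 k0 [(z3,[z36,z9,z8,z4,z72,y72]),(z3,[y18,
    y4,y3,y2,y36,z36]),(z3,[z9,z2,z2,z2,z18,y18]),(z1,[y18,y4,y4,y2,y33,z36]),(z1,[z9,z2,z2,z1,z18,y18])],
    .ref k25 k0 [(z9,[y18,y1,y4,y4,y18,z36]),(z9,[z9,z2,z5,z2,z9,y18]),(z18,[y9,y2,y2,z4,y9,z18]),(z3,[z9,z2,z2,z2,
    z18,y18]),(z6,[y9,y2,y2,y2,y9,z18])],.ref k25 k0 [(z9,[z36,z11,z8,z8,z72,y72]),(z9,[y18,y4,y1,y4,y36,z36]),(z9,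
    [z9,z2,z2,z5,z18,y18]),(z3,[y18,y4,y4,y4,y27,z36]),(z3,[z9,z2,z2,z2,z18,y18])]],
    .base (.leafM k0 [k2,k3,k4,k5,k0,k1] [(z1,[y1,y1,z0,z0,z1])] []),
    .base (.leafM k3 [k3,k4,k5,k0,k1,k2] [(z3,[z1,z1])] []),
    .base (.leafM k0 [k1,k2,k3,k4,k5,k0] [(z1,[z0,z0,z1,z1])] []),
    .base (.leafM k1 [k0,k1,k2,k3,k4,k5] [(z3,[y1,z0,y3,y1,z3]),(z3,[z1,z0,z3,z1])] []),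
    .base (.leafM k3 [k1,k2,k3,k4,k5,k0] [(z3,[y1,y1,z0,y1,z3])] []),
    .lp k0 [k158,k150,k168,k168,k168,k144] [k5,k5,k9,k9,k0,k0,k0,k0,k0,k0,k12,k12] k0 [[k0,k0,k0,k0,k2,k8,k10,k0,k0,
    k0,k0,k0],[k20,k0,k0,k0,k0,k0,k0,k0,k0,k0,k0,k20],[k0,k0,k0,k0,k0,k0,k0,k0,k0,k2,k4,k0],[k0,k0,k0,k0,k0,k4,k6,k0,
    k0,k0,k0,k0],[k0,k8,k4,k0,k0,k0,k0,k0,k0,k0,k0,k0],[k0,k2,k0,k0,k0,k0,k0,k0,k0,k0,k2,k0],[k0,k0,k0,k0,k0,k0,k0,k0,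
    k0,k0,k0,k0],[k0,k10,k6,k0,k0,k0,k0,k0,k0,k0,k0,k0],[k0,k0,k0,k2,k0,k0,k0,k0,k0,k0,k0,k0],[k0,k0,k0,k0,k0,k0,k0,
    k0,k0,k0,k0,k0],[k20,k0,k0,k0,k0,k0,k0,k0,k0,k0,k0,k20],[k0,k0,k0,k4,k2,k0,k0,k0,k0,k0,k0,k0]] (nat_lit 480) k5
    [[(k2,k150),(k10,k151),(k11,k151),(k3,k154),(k7,k161),(k4,k163),(k5,k163),(k6,k163),(k8,k163),(k9,k163),(k0,k178),
    (k1,k178)],[(k10,k151),(k11,k151),(k9,k153),(k2,k154),(k3,k154),(k4,k155),(k7,k161),(k5,k163),(k6,k163),(k8,k163),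
    (k0,k178),(k1,k178)],[(k10,k127),(k3,k130),(k11,k147),(k2,k150),(k0,k154),(k1,k154),(k5,k159),(k8,k159),(k9,k159),
    (k4,k161),(k7,k167),(k6,k169)],[(k10,k147),(k11,k147),(k1,k150),(k2,k150),(k3,k150),(k0,k154),(k8,k157),(k4,k159),
    (k5,k159),(k9,k159),(k7,k163),(k6,k165)],[(k11,k158),(k2,k159),(k3,k159),(k10,k160),(k9,k162),(k0,k163),(k1,k163),
    (k4,k164),(k5,k168),(k6,k168),(k7,k168),(k8,k168)],[(k0,k155),(k11,k156),(k10,k158),(k2,k159),(k3,k161),(k1,k163),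
    (k5,k164),(k4,k168),(k6,k168),(k7,k168),(k8,k168),(k9,k168)],[(k10,k156),(k11,k156),(k0,k161),(k1,k161),(k2,k163),
    (k3,k167),(k4,k168),(k5,k168),(k6,k168),(k7,k168),(k8,k168),(k9,k168)],[(k10,k156),(k11,k156),(k0,k163),(k1,k163),
    (k2,k165),(k4,k168),(k5,k168),(k6,k168),(k7,k168),(k8,k168),(k9,k168),(k3,k169)],[(k0,k153),(k10,k156),(k11,k156),
    (k2,k159),(k3,k159),(k5,k162),(k1,k163),(k4,k168),(k6,k168),(k7,k168),(k8,k168),(k9,k168)],[(k10,k156),(k11,k156),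
    (k2,k157),(k3,k159),(k0,k163),(k1,k163),(k4,k168),(k5,k168),(k6,k168),(k7,k168),(k8,k168),(k9,k168)],[(k10,k144),
    (k11,k144),(k2,k147),(k3,k147),(k0,k151),(k1,k151),(k4,k156),(k6,k156),(k7,k156),(k8,k156),(k9,k156),(k5,k158)],
    [(k10,k124),(k3,k127),(k11,k144),(k2,k147),(k0,k151),(k1,k151),(k6,k156),(k7,k156),(k8,k156),(k9,k156),(k4,k158),
    (k5,k160)]]
    [[k1,k2,k0,k0,k0,k0],[k1,k1,k1,k0,k0,k0],[k1,k1,k0,k0,k1,k0],[k1,k1,k0,k0,k0,k1],[k1,k0,k1,k0,k0,k1],[k1,k0,k0,k1,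
    k0,k1],[k1,k0,k0,k0,k1,k1],[k1,k0,k0,k0,k0,k2],[k0,k3,k0,k0,k0,k0],[k0,k2,k1,k0,k0,k0],[k0,k2,k0,k0,k1,k0],[k0,k2,
    k0,k0,k0,k1],[k0,k2,k0,k1,k0,k0],[k0,k1,k1,k0,k0,k1],[k0,k1,k0,k1,k0,k1],[k0,k1,k0,k0,k1,k1],[k0,k1,k0,k0,k0,k2],
    [k0,k0,k1,k0,k1,k1],[k0,k0,k1,k0,k0,k2],[k0,k0,k0,k1,k0,k2],[k0,k0,k0,k0,k1,k2],[k0,k0,k0,k0,k0,k3]]
    [.ref k25 k0 [(z3,[y3,z2,z2]),(z3,[z6,y1,y1]),(z9,[y6,z1,z4,z27]),(z1,[z0,z0,z0,z0,z1]),(z9,[z3,y5,y11,y27,y9,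
    z27])],.ref k25 k0 [(z1,[y9,z2,z3,z9]),(z1,[z18,y3,y5,y18]),(z1,[y6,z1,z2,z9]),(z1,[z0,z0,z0,z0,z1]),(z1,[z3,y1,
    y2,y6,y1,z3])],.ref k25 k0 [(z4,[y9,z2,z0,y9,y3,z9]),(z2,[z9,z0,z2,z9,z3,y9]),(z2,[y3,z0,z0,z3,y1,z3]),(z1,[z0,z0,
    z0,z0,z1]),(z4,[z3,y2,y4,y9,y3,z9])],.ref k25 k0 [(z1,[y9,z2,z3]),(z1,[z18,y3,y5]),(z1,[y6,z1,z2,z3]),(z1,[z0,z0,
    z0,z0,z1]),(z1,[z3,y1,y2,y3,y1,z3])],.ref k25 k0 [(z7,[z9,z2,z0,y9]),(z7,[y18,z3,z7,z18]),(z7,[z6,y1,z0,z15]),(z1,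
    [z0,z0,z0,z0,z1]),(z7,[y3,y3,y7,y18,y7,z21])],.ref k25 k0 [(z5,[z9,z1,z0,z0,y3]),(z5,[y18,z3,z5,z0,z6]),(z5,[z6,
    y1,z0,z15,y2]),(z1,[z0,z0,z0,z0,z1]),(z5,[y3,y2,y5,y15,y4,z15])],.ref k25 k0 [(z4,[z9,z2,z3,z9,z3,y9]),(z2,[y9,z0,
    y1,y9,y3,z9]),(z2,[z3,z0,z1,z9,z1,y3]),(z1,[z0,z0,z0,z0,z1]),(z4,[y3,y2,y5,y15,y5,z15])],.ref k25 k0 [(z7,[z9,
    z2]),(z7,[y18,z3,z7]),(z7,[z6,y1,z0,z21]),(z1,[z0,z0,z0,z0,z1]),(z7,[y3,y3,y7,y21,y7,z21])],.ref k25 k0 [(z2,[y1,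
    z1,z1]),(z1,[z1]),(z3,[y1,z0,z1,z9]),(z1,[z0,z0,z0,z0,z1]),(z6,[z1,y3,y7,y18,y6,z18])],.ref k25 k0 [(z10,[y9,z5,
    z6,z9]),(z5,[z9,z0,y1,y9]),(z5,[y3,z0,z2,z18]),(z1,[z0,z0,z0,z0,z1]),(z10,[z3,y5,y12,y33,y10,z30])],
    .ref k25 k0 [(z13,[y9,z5,z3,y9,y3,z9]),(z13,[z18,z3,z7,z18,z6,y18]),(z13,[y6,y1,z2,z33,y2,z6]),(z1,[z0,z0,z0,z0,
    z1]),(z13,[z3,y6,y14,y36,y12,z36])],.ref k25 k0 [(z10,[y9,z5,z6]),(z5,[z9,z0,y1]),(z5,[y3,z0,z2,z15]),(z1,[z0,z0,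
    z0,z0,z1]),(z10,[z3,y5,y12,y30,y10,z30])],.ref k25 k0 [(z4,[y3,z2,z2,z0,z1]),(z2,[z3,z0,z0,z0,y1]),(z6,[y3,z0,z2,
    z18,z1]),(z1,[z0,z0,z0,z0,z1]),(z12,[z3,y6,y14,y36,y13,z36])],.ref k25 k0 [(z2,[y9,z1,z3,z9]),(z1,[z9,z0,y2,y9]),
    (z1,[y3,z0,z1,z6]),(z1,[z0,z0,z0,z0,z1]),(z2,[z3,y1,y3,y9,y2,z6])],.ref k25 k0 [(z4,[y9,z2,z3,z0,z3]),(z2,[z9,z0,
    y1,z0,y3]),(z2,[y3,z0,z1,z6,z1]),(z1,[z0,z0,z0,z0,z1]),(z4,[z3,y2,y5,y12,y5,z12])],.ref k25 k0 [(z5,[y9,z1,z0,y9,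
    y3,z9]),(z5,[z18,z3,z5,z18,z6,y18]),(z5,[y6,y1,z0,z9,y2,z6]),(z1,[z0,z0,z0,z0,z1]),(z5,[z3,y2,y5,y12,y4,z12])],
    .ref k25 k0 [(z2,[y9,z1,z3]),(z1,[z9,z0,y2]),(z1,[y3,z0,z1,z3]),(z1,[z0,z0,z0,z0,z1]),(z2,[z3,y1,y3,y6,y2,z6])],
    .ref k25 k0 [(z1,[z3,z1,z1,z0,z1,y3]),(z1,[y6,y1,y1,z0,y2,z6]),(z3,[z6,z1,z2,z9,z2,y6]),(z1,[z0,z0,z0,z0,z1]),(z3,
    [y3,y2,y4,y9,y4,z12])],.ref k25 k0 [(z2,[z3,z1,z0,y3]),(z1,[y3,z0,z1,z3]),(z1,[z1,z0,z0,z2]),(z1,[z0,z0,z0,z0,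
    z1]),(z2,[y1,y1,y2,y5,y2,z6])],.ref k25 k0 [(z4,[z9,z2,z0,z0,y3]),(z2,[y9,z0,z2,z0,z3]),(z2,[z3,z0,z0,z6,y1]),(z1,
    [z0,z0,z0,z0,z1]),(z4,[y3,y2,y4,y12,y3,z12])],.ref k25 k0 [(z1,[z3,z1,z1,z3,z1,y3]),(z1,[y6,y1,y1,y6,y2,z6]),(z3,
    [z6,z1,z2,z15,z2,y6]),(z1,[z0,z0,z0,z0,z1]),(z3,[y3,y2,y4,y12,y4,z12])],.ref k25 k0 [(z2,[z3,z1]),(z1,[y3,z0,z1]),
    (z1,[z1,z0,z0,z3]),(z1,[z0,z0,z0,z0,z1]),(z2,[y1,y1,y2,y6,y2,z6])]],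
    .base (.leafM k3 [k5,k0,k1,k2,k3,k4] [(z6,[z1,z0,z1,z6])] [])]

theorem hB6_171_17 : blkB [0, 0, 0, 0, 0, 0] [] sp6 hS6_171 (pcls (n := 6) [0, 0, 0, 0, 0, 0]) hD6_171 560 17 hN6_171_17 = true := by
  decide +kernel

/-- nodes 216 to 227 -/
noncomputable def hN6_171_18 : List HM :=
  [.lp k0 [(nat_lit 474),(nat_lit 472),(nat_lit 486),(nat_lit 490),(nat_lit 486),(nat_lit 466)] [k8,k8,k9,k9,k2,k2,k0,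
    k0,k2,k2,k12,k12] k0 [[k0,k0,k0,k0,k6,k6,k16,k0,k0,k0,k0,k2],[k78,k0,k0,k0,k0,k0,k4,k0,k0,k0,k0,k92],[k0,k0,k0,k0,
    k0,k0,k0,k0,k0,k2,k6,k4],[k0,k0,k0,k0,k4,k4,k8,k0,k0,k0,k0,k0],[k0,k6,k4,k0,k0,k0,k0,k0,k0,k0,k0,k0],[k0,k6,k4,k0,
    k0,k0,k0,k0,k0,k0,k4,k0],[k0,k0,k0,k0,k0,k0,k0,k2,k2,k2,k0,k0],[k4,k16,k8,k0,k0,k0,k0,k0,k0,k0,k2,k0],[k0,k0,k0,
    k2,k0,k0,k0,k2,k0,k0,k70,k0],[k0,k0,k0,k0,k0,k0,k0,k2,k0,k0,k0,k0],[k92,k2,k0,k4,k0,k0,k0,k0,k0,k0,k0,k28],[k0,k0,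
    k0,k6,k4,k0,k2,k0,k0,k70,k0,k0]] (nat_lit 1440) k5
    [[(k8,(nat_lit 410)),(k2,(nat_lit 467)),(k10,(nat_lit 470)),(k11,(nat_lit 470)),(k3,(nat_lit 475)),(k7,
    (nat_lit 478)),(k9,(nat_lit 478)),(k4,(nat_lit 480)),(k6,(nat_lit 482)),(k5,(nat_lit 484)),(k1,(nat_lit 502)),(k0,
    (nat_lit 566))],[(k9,(nat_lit 464)),(k10,(nat_lit 468)),(k11,(nat_lit 470)),(k2,(nat_lit 473)),(k3,(nat_lit 473)),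
    (k4,(nat_lit 474)),(k7,(nat_lit 476)),(k5,(nat_lit 480)),(k8,(nat_lit 480)),(k6,(nat_lit 486)),(k0,(nat_lit 552)),
    (k1,(nat_lit 566))],[(k10,(nat_lit 377)),(k3,(nat_lit 394)),(k11,(nat_lit 469)),(k2,(nat_lit 472)),(k0,
    (nat_lit 473)),(k1,(nat_lit 475)),(k9,(nat_lit 475)),(k5,(nat_lit 479)),(k8,(nat_lit 479)),(k4,(nat_lit 485)),(k7,
    (nat_lit 487)),(k6,(nat_lit 497))],[(k10,(nat_lit 465)),(k1,(nat_lit 467)),(k11,(nat_lit 469)),(k2,(nat_lit 472)),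
    (k3,(nat_lit 472)),(k0,(nat_lit 473)),(k8,(nat_lit 477)),(k5,(nat_lit 479)),(k9,(nat_lit 479)),(k4,(nat_lit 483)),
    (k7,(nat_lit 485)),(k6,(nat_lit 489))],[(k9,(nat_lit 478)),(k11,(nat_lit 478)),(k2,(nat_lit 479)),(k3,
    (nat_lit 479)),(k0,(nat_lit 480)),(k4,(nat_lit 482)),(k10,(nat_lit 482)),(k1,(nat_lit 484)),(k7,(nat_lit 484)),
    (k5,(nat_lit 486)),(k8,(nat_lit 486)),(k6,(nat_lit 488))],[(k0,(nat_lit 474)),(k11,(nat_lit 476)),(k1,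
    (nat_lit 480)),(k10,(nat_lit 480)),(k5,(nat_lit 482)),(k2,(nat_lit 483)),(k3,(nat_lit 485)),(k4,(nat_lit 486)),
    (k8,(nat_lit 486)),(k9,(nat_lit 486)),(k6,(nat_lit 488)),(k7,(nat_lit 488))],[(k0,(nat_lit 476)),(k1,
    (nat_lit 478)),(k10,(nat_lit 478)),(k11,(nat_lit 478)),(k5,(nat_lit 484)),(k2,(nat_lit 485)),(k3,(nat_lit 487)),
    (k4,(nat_lit 488)),(k8,(nat_lit 488)),(k9,(nat_lit 488)),(k6,(nat_lit 490)),(k7,(nat_lit 490))],[(k11,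
    (nat_lit 476)),(k10,(nat_lit 480)),(k1,(nat_lit 482)),(k0,(nat_lit 486)),(k8,(nat_lit 486)),(k4,(nat_lit 488)),
    (k5,(nat_lit 488)),(k6,(nat_lit 488)),(k9,(nat_lit 488)),(k2,(nat_lit 489)),(k7,(nat_lit 490)),(k3,
    (nat_lit 497))],[(k0,(nat_lit 464)),(k3,(nat_lit 475)),(k10,(nat_lit 476)),(k1,(nat_lit 478)),(k5,(nat_lit 478)),
    (k11,(nat_lit 478)),(k2,(nat_lit 479)),(k4,(nat_lit 486)),(k6,(nat_lit 488)),(k7,(nat_lit 488)),(k8,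
    (nat_lit 488)),(k9,(nat_lit 488))],[(k1,(nat_lit 410)),(k10,(nat_lit 476)),(k11,(nat_lit 476)),(k2,(nat_lit 477)),
    (k3,(nat_lit 479)),(k0,(nat_lit 480)),(k4,(nat_lit 486)),(k5,(nat_lit 486)),(k6,(nat_lit 486)),(k8,(nat_lit 486)),
    (k7,(nat_lit 488)),(k9,(nat_lit 488))],[(k11,(nat_lit 466)),(k2,(nat_lit 469)),(k3,(nat_lit 469)),(k0,
    (nat_lit 470)),(k1,(nat_lit 470)),(k4,(nat_lit 476)),(k6,(nat_lit 476)),(k8,(nat_lit 476)),(k5,(nat_lit 478)),(k7,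
    (nat_lit 478)),(k9,(nat_lit 478)),(k10,(nat_lit 536))],[(k3,(nat_lit 377)),(k10,(nat_lit 438)),(k2,(nat_lit 465)),
    (k0,(nat_lit 468)),(k1,(nat_lit 470)),(k8,(nat_lit 476)),(k9,(nat_lit 476)),(k7,(nat_lit 478)),(k4,(nat_lit 480)),
    (k6,(nat_lit 480)),(k5,(nat_lit 482)),(k11,(nat_lit 536))]]
    [[k1,k2,k0,k0,k0,k0],[k1,k1,k1,k0,k0,k0],[k1,k1,k0,k0,k1,k0],[k1,k1,k0,k0,k0,k1],[k1,k0,k1,k0,k1,k0],[k1,k0,k1,k0,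
    k0,k1],[k1,k0,k0,k1,k1,k0],[k1,k0,k0,k1,k0,k1],[k1,k0,k0,k0,k2,k0],[k1,k0,k0,k0,k1,k1],[k1,k0,k0,k0,k0,k2],[k0,k3,
    k0,k0,k0,k0],[k0,k2,k1,k0,k0,k0],[k0,k2,k0,k0,k1,k0],[k0,k2,k0,k0,k0,k1],[k0,k2,k0,k1,k0,k0],[k0,k1,k1,k0,k0,k1],
    [k0,k1,k0,k1,k0,k1],[k0,k1,k0,k0,k1,k1],[k0,k1,k0,k0,k0,k2],[k0,k0,k1,k0,k1,k1],[k0,k0,k1,k0,k0,k2],[k0,k0,k0,k1,
    k0,k2],[k0,k0,k0,k0,k1,k2]]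
    [.ref (nat_lit 208) k0 [(z1,[y3,z4,z6]),(z1,[z6,y2,y3]),(z1,[y3,z1,z6]),(z1,[z0,z0,z0,z1])],
    .ref (nat_lit 209) k0 [(z1,[z1,z0,y1]),(z1,[z0,z0,z1]),(z1,[y6,z2,z6,z3]),(z1,[z3,y1,y3])],
    .ref (nat_lit 210) k0 [(z1,[y3,z2,z3]),(z1,[z6,y2,y3]),(z1,[y3,z1,z3]),(z1,[z0,z0,z0,z1])],
    .ref (nat_lit 211) k0 [(z1,[y3,z1,z0,y3,z3]),(z1,[z2,z0,z1,z2,y2]),(z1,[y1,z0,z0,y1,z1]),(z1,[z0,z0,z0,z1])],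
    .ref (nat_lit 212) k7 [(z1,[y3,z1,z3]),(z2,[z3,y1]),(z1,[z0,z0,z0,z1]),(z1,[z0,y1,y3,y3,z3])],
    .ref (nat_lit 213) k4 [(z1,[y3,y2,y3,y3,z3]),(z1,[z6,z4,z6,z9,y6]),(z1,[z3,z1,z3,z3,y3]),(z1,[y6,y2,y3,y6,z6])],
    .ref k68 k0 [(z1,[z1,z0,z0,y1]),(z1,[y6,z2,z3,z6]),(z1,[z3,y1,z0,y3]),(z1,[z0,z0,z0,z1])],
    .ref (nat_lit 211) k0 [(z1,[z3,z1,z3,z0,y3]),(z1,[y2,z0,y1,z0,z2]),(z1,[z1,z0,z1,z0,y1]),(z1,[z0,z0,z0,z1])],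
    .ref (nat_lit 214) k1 [(z1,[z6,y2,z0,y9]),(z1,[y6,z2,z3,z9]),(z1,[z1,z0,z0,y1]),(z1,[z0,y1,y3,y3,z3])],
    .ref k196 k3 [(z1,[y1,z0,y1,z0,z1]),(z1,[z1,z0,z1,z1,y1]),(z1,[z0,y1,y3,y3,z3]),(z1,[z3,z2,z3,z3,y3])],
    .ref (nat_lit 212) k7 [(z1,[y6,y2,y9,y12,z12]),(z1,[z3,z1,z6,z6,y6]),(z1,[z0,z0,z0,z1]),(z1,[z0,y1,y3,y3,z3])],
    .ref k68 k0 [(z6,[y1,z2,z3]),(z1,[z1]),(z2,[y1,z0,z3]),(z1,[z0,z0,z0,z1])],.ref k68 k0 [(z3,[y1,z1,z2]),(z1,[z2,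
    z0,y1]),(z1,[y1,z0,z2]),(z1,[z0,z0,z0,z1])],.ref k189 k0 [(z1,[y3,z4,z6]),(z1,[z1]),(z1,[y1,z0,z2]),(z1,[z0,z0,z0,
    z1])],.ref k68 k0 [(z4,[y1,z1,z1,y1,z1]),(z2,[z3,z1,z3,z3,y3]),(z4,[y3,y1,z3,y3,z3]),(z1,[z0,z0,z0,z1])],
    .ref (nat_lit 213) k4 [(z2,[z3,y4,y6,y3]),(z1,[y3,z4,z6,z6]),(z2,[y3,z2,z6,z3]),(z1,[z3,y2,y3,y3])],
    .ref k68 k0 [(z1,[y1,z0,z0,y1,z1]),(z1,[z6,z2,z3,z6,y6]),(z1,[y3,y1,z0,y3,z3]),(z1,[z0,z0,z0,z1])],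
    .ref (nat_lit 212) k7 [(z1,[z3,z1,z3,z0,y3]),(z2,[y3,y1,z0,z0,z3]),(z1,[z0,z0,z0,z1]),(z1,[z0,y1,y3,y3,z3])],
    .ref (nat_lit 215) k0 [(z1,[y3,z1,z0,y3,z3]),(z1,[z3,z1,z3,z3,y3]),(z1,[y3,y1,z0,y3,z3]),(z1,[z0,z0,z0,z1])],
    .ref k68 k0 [(z2,[y1,z0,y1,y2,z2]),(z1,[z3,z2,z6,z6,y6]),(z2,[y3,y2,y3,y6,z6]),(z1,[z0,z0,z0,z1])],
    .ref (nat_lit 212) k7 [(z1,[y6,y2,y3,y6,z6]),(z1,[z3,z1,z3,z3,y3]),(z1,[z0,z0,z0,z1]),(z1,[z0,y1,y3,y3,z3])],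
    .ref k68 k0 [(z1,[z1,z1,z2,z2,y2]),(z1,[y6,y4,y9,y12,z12]),(z1,[z3,z2,z6,z6,y6]),(z1,[z0,z0,z0,z1])],
    .ref (nat_lit 209) k0 [(z2,[y1,z0,y2,y1,z2]),(z1,[z0,z0,z1]),(z1,[z3,z2,z6,z6,y6]),(z2,[y3,y2,y6,y3,z6])],
    .ref (nat_lit 209) k0 [(z1,[z1,z1,z2,z2,y2]),(z1,[z0,z0,z1]),(z1,[y6,y4,y12,y9,z12]),(z1,[z3,z2,z6,z6,y6])]],
    .lp k0 [(nat_lit 318),(nat_lit 312),(nat_lit 322),(nat_lit 324),(nat_lit 322),(nat_lit 318)] [k3,k3,k6,k6,k1,k1,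
    k0,k0,k1,k1,k3,k3] k0 [[k0,k0,k48,k0,k34,k0,k0,k0,k48,k0,k0,k18],[k0,k0,k20,k0,k50,k0,k34,k0,k4,k0,k0,k50],[k0,k0,
    k0,k0,k46,k0,k0,k2,k0,k0,k2,k50],[k20,k48,k0,k0,k14,k0,k0,k14,k0,k0,k0,k0],[k0,k0,k0,k0,k0,k4,k4,k0,k0,k2,k0,k0],
    [k50,k34,k14,k46,k0,k0,k0,k0,k0,k2,k0,k0],[k0,k0,k14,k2,k0,k0,k0,k0,k2,k2,k0,k4],[k34,k0,k0,k0,k0,k4,k4,k0,k0,k0,
    k0,k0],[k0,k0,k0,k0,k2,k2,k0,k2,k0,k4,k2,k0],[k4,k48,k0,k0,k0,k0,k0,k2,k0,k0,k2,k0],[k50,k18,k0,k50,k0,k0,k0,k4,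
    k0,k0,k0,k0],[k0,k0,k0,k2,k0,k0,k0,k0,k2,k2,k0,k0]] (nat_lit 960) k5
    [[(k2,(nat_lit 313)),(k11,(nat_lit 316)),(k1,(nat_lit 318)),(k8,(nat_lit 318)),(k10,(nat_lit 318)),(k4,
    (nat_lit 320)),(k6,(nat_lit 321)),(k7,(nat_lit 321)),(k9,(nat_lit 324)),(k3,(nat_lit 333)),(k0,(nat_lit 368)),(k5,
    (nat_lit 370))],[(k11,(nat_lit 270)),(k5,(nat_lit 272)),(k7,(nat_lit 287)),(k10,(nat_lit 300)),(k3,(nat_lit 315)),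
    (k0,(nat_lit 318)),(k9,(nat_lit 320)),(k8,(nat_lit 324)),(k2,(nat_lit 335)),(k6,(nat_lit 355)),(k1,(nat_lit 368)),
    (k4,(nat_lit 370))],[(k10,(nat_lit 265)),(k7,(nat_lit 268)),(k9,(nat_lit 283)),(k5,(nat_lit 297)),(k11,
    (nat_lit 311)),(k3,(nat_lit 312)),(k0,(nat_lit 315)),(k6,(nat_lit 318)),(k1,(nat_lit 333)),(k4,(nat_lit 351)),(k2,
    (nat_lit 360)),(k8,(nat_lit 365))],[(k10,(nat_lit 265)),(k7,(nat_lit 272)),(k2,(nat_lit 312)),(k1,(nat_lit 313)),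
    (k11,(nat_lit 315)),(k6,(nat_lit 316)),(k5,(nat_lit 317)),(k8,(nat_lit 317)),(k4,(nat_lit 331)),(k9,
    (nat_lit 331)),(k0,(nat_lit 335)),(k3,(nat_lit 360))],[(k0,(nat_lit 272)),(k3,(nat_lit 297)),(k6,(nat_lit 309)),
    (k7,(nat_lit 309)),(k2,(nat_lit 317)),(k11,(nat_lit 320)),(k5,(nat_lit 322)),(k8,(nat_lit 322)),(k10,
    (nat_lit 322)),(k9,(nat_lit 324)),(k4,(nat_lit 368)),(k1,(nat_lit 370))],[(k4,(nat_lit 318)),(k9,(nat_lit 318)),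
    (k1,(nat_lit 320)),(k8,(nat_lit 320)),(k10,(nat_lit 320)),(k11,(nat_lit 322)),(k6,(nat_lit 323)),(k7,
    (nat_lit 323)),(k2,(nat_lit 331)),(k3,(nat_lit 351)),(k5,(nat_lit 368)),(k0,(nat_lit 370))],[(k3,(nat_lit 268)),
    (k2,(nat_lit 272)),(k0,(nat_lit 287)),(k5,(nat_lit 309)),(k1,(nat_lit 321)),(k8,(nat_lit 321)),(k10,
    (nat_lit 321)),(k4,(nat_lit 323)),(k9,(nat_lit 323)),(k11,(nat_lit 323)),(k6,(nat_lit 328)),(k7,(nat_lit 328))],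
    [(k5,(nat_lit 309)),(k2,(nat_lit 316)),(k10,(nat_lit 317)),(k3,(nat_lit 318)),(k11,(nat_lit 319)),(k1,
    (nat_lit 321)),(k8,(nat_lit 321)),(k4,(nat_lit 323)),(k9,(nat_lit 323)),(k6,(nat_lit 328)),(k7,(nat_lit 328)),(k0,
    (nat_lit 355))],[(k3,(nat_lit 283)),(k4,(nat_lit 318)),(k9,(nat_lit 318)),(k0,(nat_lit 320)),(k10,(nat_lit 320)),
    (k11,(nat_lit 322)),(k6,(nat_lit 323)),(k7,(nat_lit 323)),(k1,(nat_lit 324)),(k5,(nat_lit 324)),(k8,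
    (nat_lit 324)),(k2,(nat_lit 331))],[(k2,(nat_lit 317)),(k1,(nat_lit 318)),(k8,(nat_lit 318)),(k4,(nat_lit 320)),
    (k11,(nat_lit 320)),(k6,(nat_lit 321)),(k7,(nat_lit 321)),(k5,(nat_lit 322)),(k10,(nat_lit 322)),(k0,
    (nat_lit 324)),(k9,(nat_lit 324)),(k3,(nat_lit 365))],[(k0,(nat_lit 270)),(k3,(nat_lit 311)),(k2,(nat_lit 315)),
    (k1,(nat_lit 316)),(k6,(nat_lit 319)),(k5,(nat_lit 320)),(k8,(nat_lit 320)),(k10,(nat_lit 320)),(k4,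
    (nat_lit 322)),(k9,(nat_lit 322)),(k11,(nat_lit 322)),(k7,(nat_lit 323))],[(k2,(nat_lit 265)),(k3,(nat_lit 265)),
    (k0,(nat_lit 300)),(k6,(nat_lit 317)),(k1,(nat_lit 318)),(k10,(nat_lit 318)),(k4,(nat_lit 320)),(k9,
    (nat_lit 320)),(k11,(nat_lit 320)),(k7,(nat_lit 321)),(k5,(nat_lit 322)),(k8,(nat_lit 322))]]
    [[k2,k0,k0,k0,k0,k1],[k1,k1,k1,k0,k0,k0],[k1,k1,k0,k1,k0,k0],[k1,k1,k0,k0,k1,k0],[k1,k1,k0,k0,k0,k1],[k1,k0,k1,k1,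
    k0,k0],[k1,k0,k1,k0,k0,k1],[k1,k0,k0,k2,k0,k0],[k1,k0,k0,k1,k0,k1],[k1,k0,k1,k0,k1,k0],[k1,k0,k0,k1,k1,k0],[k1,k0,
    k0,k0,k1,k1],[k1,k0,k0,k0,k0,k2],[k0,k2,k0,k1,k0,k0],[k0,k2,k0,k0,k0,k1],[k0,k1,k1,k1,k0,k0],[k0,k1,k1,k0,k0,k1],
    [k0,k1,k2,k0,k0,k0],[k0,k1,k1,k0,k1,k0],[k0,k1,k0,k2,k0,k0],[k0,k1,k0,k1,k1,k0],[k0,k1,k0,k1,k0,k1],[k0,k1,k0,k0,
    k1,k1],[k0,k1,k0,k0,k2,k0],[k0,k1,k0,k0,k0,k2],[k0,k0,k2,k1,k0,k0],[k0,k0,k1,k1,k1,k0],[k0,k0,k1,k1,k0,k1]]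
    [.ref k9 k6 [(z1,[z0,y1,y1,z3]),(z2,[z3,z1,z1,y3]),(z1,[y3,z1,z0,z3])],.ref k174 k1 [(z3,[z3,y2,y1]),(z3,[z0,z2,
    z1]),(z1,[z0,y1,y1,z3])],.ref k175 k2 [(z3,[z3,y2,y1]),(z1,[y3,z1,z1]),(z3,[z0,z2,z1])],.ref k176 k0 [(z3,[y3,z2,
    z1]),(z3,[z6,y2,y1]),(z1,[y3,z1,z1])],.ref k9 k6 [(z1,[z0,y1,y1,z3]),(z1,[y3,z1,z0,z3]),(z1,[z6,z0,z1,y6])],
    .ref k177 k10 [(z3,[y6,z2,z1]),(z1,[z1]),(z1,[z0,y1,y1,z3])],.ref k178 k2 [(z3,[y3,y2,y1,z3]),(z1,[z3,z1,z1,y3]),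
    (z3,[z0,z2,z1])],.ref k190 k10 [(z3,[y6,z2,z1]),(z1,[z1]),(z1,[z0,y1,y1,z3])],.ref k191 k10 [(z1,[y6,z0,y1,z6]),
    (z1,[z3,z1,z1,y3]),(z1,[z0,y1,y1,z3])],.ref k192 k2 [(z1,[y3,y1]),(z1,[z1]),(z3,[z0,z2,z1])],.ref k193 k6 [(z1,
    [z0,y1,y1,z3]),(z1,[z1]),(z3,[y6,z2,z1])],.ref k194 k6 [(z1,[z0,y1,y1,z3]),(z1,[z3,z1,z1,y3]),(z1,[y6,z0,y1,z6])],
    .ref k9 k6 [(z1,[z0,y1,y1,z3]),(z1,[z3,z2,z2,y6]),(z1,[y6,y2,y3,z12])],.ref (nat_lit 207) k2 [(z3,[z3,y4,y2]),(z1,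
    [y3,z3,z2]),(z3,[z0,z2,z1])],.ref k9 k6 [(z1,[z0,y1,y1,z3]),(z4,[y3,z3,z1,z3]),(z2,[z3,z1,z1,y3])],
    .ref k194 k6 [(z1,[z0,y1,y1,z3]),(z1,[y3,z1,z1]),(z1,[z6,z0,y1])],.ref k193 k6 [(z1,[z0,y1,y1,z3]),(z1,[y1,z0,z0,
    z1]),(z3,[z6,z2,z1,y6])],.ref k174 k1 [(z6,[z3,y2,y1]),(z3,[z0,z2,z1]),(z1,[z0,y1,y1,z3])],.ref k191 k10 [(z1,[z6,
    z0,y1]),(z1,[y3,z1,z1]),(z1,[z0,y1,y1,z3])],.ref k175 k2 [(z6,[z3,y2,y1]),(z2,[y3,z0,z1]),(z3,[z0,z2,z1])],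
    .ref k178 k2 [(z3,[z3,y2,y1]),(z1,[y3,z1,z1]),(z3,[z0,z2,z1])],.ref k192 k2 [(z1,[z3,y1,z0,y3]),(z1,[y1,z0,z0,
    z1]),(z3,[z0,z2,z1])],.ref k177 k10 [(z3,[z6,z2,z1,y6]),(z1,[y1,z0,z0,z1]),(z1,[z0,y1,y1,z3])],.ref k176 k0 [(z6,
    [y3,z2,z1]),(z1,[z1]),(z2,[y3,z0,z1])],.ref k9 k6 [(z1,[z0,y1,y1,z3]),(z2,[y3,z0,y1,z6]),(z1,[z3,z2,z2,y6])],
    .ref (nat_lit 216) k4 [(z1,[y3,y1]),(z1,[z1]),(z3,[z0,z2,z1])],.ref k9 k6 [(z1,[z0,y1,y1,z3]),(z1,[z3,z1]),(z1,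
    [y6,z0,z1])],.ref k176 k0 [(z3,[z3,z2,z1,y3]),(z3,[y6,y2,y1,z6]),(z1,[z3,z1,z1,y3])]],
    .base (.leafM k0 [k1,k2,k3,k4,k5,k0] [(z1,[y1,y1,z0,z1])] []),
    .base (.leafM k3 [k3,k4,k5,k0,k1,k2] [(z3,[z1,z1])] []),
    .base (.leafM k0 [k1,k2,k3,k4,k5,k0] [(z3,[y1,y1,z0,z3])] []),
    .base (.leafM k3 [k1,k2,k3,k4,k5,k0] [(z1,[z0,z0,z1])] []),
    .base (.leafM k3 [k3,k4,k5,k0,k1,k2] [(z1,[z0,z0,y1,z1])] []),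
    .base (.leafM k3 [k0,k1,k2,k3,k4,k5] [(z1,[z0,z1])] []),
    .base (.leafM k1 [k0,k1,k2,k3,k4,k5] [(z1,[y1,z0,y1,z1]),(z1,[z1,z0,z1])] []),
    .base (.leafM k0 [k0,k1,k2,k3,k4,k5] [(z3,[z0,z1,z1])] []),
    .base (.leafM k3 [k5,k0,k1,k2,k3,k4] [(z1,[z1,z0,z1])] []),
    .lp k0 [(nat_lit 642),(nat_lit 616),(nat_lit 652),(nat_lit 660),(nat_lit 700),(nat_lit 566)] [k29,k29,k42,k42,k24,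
    k24,k20,k20,k0,k0,k67,k67] k0 [[k0,k48,k24,k0,k36,k0,k0,k0,k0,k0,k0,k46],[k0,k0,k0,k0,k8,k0,k12,k8,k32,k0,k0,k42],
    [k0,k0,k0,k0,k8,k0,k12,k0,k0,k0,k0,k42],[k0,k24,k0,k0,k12,k0,k0,k0,k0,k0,k0,k46],[k0,k0,k0,k0,k0,k0,k48,k0,k28,
    k36,k10,k14],[k8,k36,k12,k8,k0,k0,k0,k0,k0,k0,k0,k0],[k8,k0,k0,k0,k0,k0,k0,k0,k24,k32,k0,k0],[k12,k0,k0,k12,k0,
    k48,k0,k0,k0,k0,k58,k10],[k0,k0,k0,k0,k0,k36,k0,k32,k0,k68,k154,k0],[k32,k0,k0,k0,k0,k28,k0,k24,k0,k0,k18,k0],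
    [k42,k46,k46,k42,k0,k14,k10,k0,k0,k0,k0,k0],[k0,k0,k0,k0,k0,k10,k58,k0,k18,k154,k0,k0]] (nat_lit 1920) k5
    [[(k8,(nat_lit 517)),(k11,(nat_lit 586)),(k10,(nat_lit 604)),(k9,(nat_lit 613)),(k4,(nat_lit 637)),(k1,
    (nat_lit 642)),(k6,(nat_lit 661)),(k7,(nat_lit 665)),(k2,(nat_lit 675)),(k3,(nat_lit 675)),(k0,(nat_lit 684)),(k5,
    (nat_lit 689))],[(k10,(nat_lit 558)),(k0,(nat_lit 594)),(k11,(nat_lit 604)),(k7,(nat_lit 615)),(k5,(nat_lit 623)),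
    (k2,(nat_lit 629)),(k3,(nat_lit 629)),(k4,(nat_lit 655)),(k6,(nat_lit 663)),(k9,(nat_lit 679)),(k1,(nat_lit 684)),
    (k8,(nat_lit 703))],[(k10,(nat_lit 549)),(k11,(nat_lit 559)),(k0,(nat_lit 629)),(k6,(nat_lit 630)),(k7,
    (nat_lit 630)),(k5,(nat_lit 634)),(k2,(nat_lit 640)),(k9,(nat_lit 646)),(k8,(nat_lit 658)),(k3,(nat_lit 664)),(k4,
    (nat_lit 670)),(k1,(nat_lit 675))],[(k10,(nat_lit 549)),(k11,(nat_lit 591)),(k2,(nat_lit 616)),(k0,(nat_lit 629)),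
    (k7,(nat_lit 630)),(k5,(nat_lit 634)),(k6,(nat_lit 638)),(k3,(nat_lit 640)),(k4,(nat_lit 646)),(k9,(nat_lit 646)),
    (k8,(nat_lit 658)),(k1,(nat_lit 675))],[(k10,(nat_lit 563)),(k11,(nat_lit 609)),(k0,(nat_lit 623)),(k2,
    (nat_lit 634)),(k3,(nat_lit 634)),(k7,(nat_lit 644)),(k5,(nat_lit 652)),(k4,(nat_lit 660)),(k6,(nat_lit 668)),(k8,
    (nat_lit 676)),(k9,(nat_lit 676)),(k1,(nat_lit 689))],[(k11,(nat_lit 581)),(k10,(nat_lit 595)),(k9,(nat_lit 628)),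
    (k1,(nat_lit 637)),(k8,(nat_lit 640)),(k2,(nat_lit 646)),(k4,(nat_lit 652)),(k0,(nat_lit 655)),(k6,(nat_lit 656)),
    (k7,(nat_lit 656)),(k5,(nat_lit 660)),(k3,(nat_lit 670))],[(k0,(nat_lit 615)),(k10,(nat_lit 623)),(k2,
    (nat_lit 630)),(k3,(nat_lit 630)),(k5,(nat_lit 644)),(k11,(nat_lit 649)),(k4,(nat_lit 656)),(k7,(nat_lit 660)),
    (k1,(nat_lit 665)),(k9,(nat_lit 680)),(k6,(nat_lit 708)),(k8,(nat_lit 708))],[(k11,(nat_lit 589)),(k3,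
    (nat_lit 630)),(k2,(nat_lit 638)),(k8,(nat_lit 648)),(k4,(nat_lit 656)),(k6,(nat_lit 660)),(k1,(nat_lit 661)),(k0,
    (nat_lit 663)),(k5,(nat_lit 668)),(k10,(nat_lit 671)),(k9,(nat_lit 680)),(k7,(nat_lit 708))],[(k1,(nat_lit 613)),
    (k10,(nat_lit 623)),(k4,(nat_lit 628)),(k2,(nat_lit 646)),(k3,(nat_lit 646)),(k11,(nat_lit 665)),(k5,
    (nat_lit 676)),(k0,(nat_lit 679)),(k6,(nat_lit 680)),(k7,(nat_lit 680)),(k9,(nat_lit 700)),(k8,(nat_lit 724))],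
    [(k1,(nat_lit 517)),(k8,(nat_lit 632)),(k11,(nat_lit 633)),(k4,(nat_lit 640)),(k6,(nat_lit 648)),(k10,
    (nat_lit 651)),(k2,(nat_lit 658)),(k3,(nat_lit 658)),(k5,(nat_lit 676)),(k0,(nat_lit 703)),(k7,(nat_lit 708)),(k9,
    (nat_lit 724))],[(k3,(nat_lit 559)),(k4,(nat_lit 581)),(k1,(nat_lit 586)),(k6,(nat_lit 589)),(k2,(nat_lit 591)),
    (k0,(nat_lit 604)),(k5,(nat_lit 609)),(k8,(nat_lit 633)),(k11,(nat_lit 634)),(k7,(nat_lit 649)),(k9,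
    (nat_lit 665)),(k10,(nat_lit 720))],[(k2,(nat_lit 549)),(k3,(nat_lit 549)),(k0,(nat_lit 558)),(k5,(nat_lit 563)),
    (k10,(nat_lit 566)),(k4,(nat_lit 595)),(k1,(nat_lit 604)),(k7,(nat_lit 623)),(k9,(nat_lit 623)),(k8,
    (nat_lit 651)),(k6,(nat_lit 671)),(k11,(nat_lit 720))]]
    [[k2,k0,k0,k0,k1,k0],[k2,k0,k0,k0,k0,k1],[k2,k1,k0,k0,k0,k0],[k1,k1,k0,k0,k0,k1],[k1,k1,k1,k0,k0,k0],[k1,k0,k1,k0,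
    k0,k1],[k1,k0,k0,k1,k0,k1],[k1,k1,k0,k0,k1,k0],[k1,k0,k1,k0,k1,k0],[k1,k0,k0,k1,k1,k0],[k1,k0,k0,k0,k1,k1],[k1,k0,
    k0,k0,k0,k2],[k0,k2,k0,k1,k0,k0],[k0,k2,k0,k0,k0,k1],[k0,k1,k1,k0,k0,k1],[k0,k1,k0,k1,k0,k1],[k0,k1,k0,k0,k1,k1],
    [k0,k1,k0,k0,k0,k2],[k0,k0,k2,k0,k0,k1],[k0,k0,k1,k1,k0,k1],[k0,k0,k1,k0,k1,k1],[k0,k0,k1,k0,k0,k2],[k0,k0,k0,k1,
    k0,k2],[k0,k0,k0,k0,k1,k2]]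
    [.ref k25 k0 [(z13,[z18,z1]),(z13,[y9,z6,z13]),(z13,[y6,z4,z0,z39]),(z13,[y6,z4,z0,z0,z39]),(z13,[z3,y2])],
    .ref k25 k0 [(z2,[z3,z1,z1,z3,z3,y3]),(z4,[y3,z1,z3,y3,y3,z3]),(z6,[y3,z1,y1,z15,y3,z3]),(z6,[y3,z1,y1,y3,z15,
    z3]),(z12,[z3,y1,z1,z3,z3,y3])],.ref k25 k0 [(z3,[z6,y1,y2]),(z3,[y3,z2,z4]),(z9,[y6,z4,z2,z27]),(z9,[y6,z4,z2,z0,
    z27]),(z9,[z3,y2,y1])],.ref k25 k0 [(z1,[z6,z1,z0,z6,z6,y6]),(z1,[y3,z0,z1,y3,y3,z3]),(z1,[y2,z0,z0,z1,y2,z2]),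
    (z1,[y2,z0,z0,y2,z1,z2]),(z1,[z1,z0,z0,z1,z1,y1])],.ref k25 k0 [(z1,[z18,y5,y6,y18]),(z1,[y9,z3,z4,z9]),(z1,[y6,
    z2,z2,z9]),(z1,[y6,z2,z2,z6,z3]),(z1,[z3,y1,y1,y3])],.ref k25 k0 [(z2,[z9,z2,z3,z0,z9,y9]),(z4,[y9,z0,z1,z0,y9,
    z9]),(z2,[y3,z0,y1,z6,y3,z3]),(z2,[y3,z0,y1,z0,z3,z3]),(z4,[z3,z0,z1,z0,z3,y3])],.ref k25 k0 [(z2,[z9,z2,z3,z9,z0,
    y9]),(z4,[y9,z0,z1,y9,z0,z9]),(z2,[y3,z0,y1,z3,z0,z3]),(z2,[y3,z0,y1,y3,z6,z3]),(z4,[z3,z0,z1,z3,z0,y3])],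
    .ref k25 k0 [(z2,[z9,y1,y3]),(z4,[y9,z3,z7]),(z2,[y3,z1,z1,z6]),(z2,[y3,z1,z1,z0,z6]),(z4,[z3,y1,y1])],
    .ref k25 k0 [(z5,[z18,y1,z0,y18]),(z5,[y9,z3,z5,z9]),(z5,[y6,z2,z0,z21]),(z5,[y6,z2,z0,z6,z15]),(z5,[z3,y1,z0,
    y3])],.ref k25 k0 [(z5,[z18,y1,z0,z0,y18]),(z5,[y9,z3,z5,z0,z9]),(z5,[y6,z2,z0,z15,z6]),(z5,[y6,z2,z0,z0,z21]),
    (z5,[z3,y1,z0,z0,y3])],.ref k25 k0 [(z7,[z18,z7,z6,z18,z18,y18]),(z7,[y9,z0,z4,y9,y9,z9]),(z7,[y6,z0,y2,z15,y6,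
    z6]),(z7,[y6,z0,y2,y6,z15,z6]),(z7,[z3,z0,z1,z3,z3,y3])],.ref k25 k0 [(z1,[z3,z2,z2,z6,z6,y6]),(z2,[y3,y1,z0,y6,
    y6,z6]),(z3,[y3,y1,y2,z3,y6,z6]),(z3,[y3,y1,y2,y6,z3,z6]),(z6,[z3,z1,z2,z6,z6,y6])],.ref k25 k0 [(z4,[y9,z4,z6,z0,
    z9]),(z8,[z9,z0,z2,z0,y9]),(z4,[z3,z0,y2,z12,y3]),(z4,[z3,z0,y2,z0,z9]),(z8,[y3,z0,z2,z0,z3])],.ref k25 k0 [(z1,
    [y3,z0,z1,y3,y3,z3]),(z2,[z3,z1,z1,z3,z3,y3]),(z3,[z3,z1,y1,z12,z3,y3]),(z3,[z3,z1,y1,z3,z12,y3]),(z6,[y3,y1,z1,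
    y3,y3,z3])],.ref k25 k0 [(z5,[y18,y1,z0,z0,y18,z18]),(z5,[z9,z3,z5,z0,z9,y9]),(z5,[z6,z2,z0,z15,z6,y6]),(z5,[z6,
    z2,z0,z0,z21,y6]),(z5,[y3,y1,z0,z0,y3,z3])],.ref k25 k0 [(z5,[y18,y1,z0,y18,z0,z18]),(z5,[z9,z3,z5,z9,z0,y9]),(z5,
    [z6,z2,z0,z21,z0,y6]),(z5,[z6,z2,z0,z6,z15,y6]),(z5,[y3,y1,z0,y3,z0,z3])],.ref k25 k0 [(z1,[y9,y2,z0,y9,y9,z9]),
    (z2,[z9,z3,z2,z9,z9,y9]),(z1,[z3,z1,z0,z6,z3,y3]),(z1,[z3,z1,z0,z3,z6,y3]),(z2,[y3,y1,z0,y3,y3,z3])],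
    .ref k25 k0 [(z1,[y6,y3,y2,y12,y12,z12]),(z1,[z3,z2,z2,z6,z6,y6]),(z3,[z6,z4,z2,z21,z12,y12]),(z3,[z6,z4,z2,z12,
    z21,y12]),(z3,[y3,y2,y1,y6,y6,z6])],.ref k25 k0 [(z2,[y9,y1,y3,z9,y9,z9]),(z4,[z9,z3,z7,y9,z9,y9]),(z2,[z3,z1,z1,
    z3,z3,y3]),(z2,[z3,z1,z1,y3,z9,y3]),(z4,[y3,y1,y1,z3,y3,z3])],.ref k25 k0 [(z2,[y9,y1,y3,z0,z0,z9]),(z4,[z9,z3,z7,
    z0,z0,y9]),(z2,[z3,z1,z1,z6,z0,y3]),(z2,[z3,z1,z1,z0,z6,y3]),(z4,[y3,y1,y1,z0,z0,z3])],.ref k25 k0 [(z1,[y18,y5,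
    y6,z0,y18,z18]),(z1,[z9,z3,z4,z0,z9,y9]),(z1,[z6,z2,z2,z3,z6,y6]),(z1,[z6,z2,z2,z0,z9,y6]),(z1,[y3,y1,y1,z0,y3,
    z3])],.ref k25 k0 [(z1,[y9,y5,y6,y9,y18,z18]),(z2,[z9,z6,z8,z9,z18,y18]),(z1,[z3,z2,z2,z6,z6,y6]),(z1,[z3,z2,z2,
    z3,z9,y6]),(z2,[y3,y2,y2,y3,y6,z6])],.ref k25 k0 [(z1,[y9,y5,y6,y18,y9,z18]),(z2,[z9,z6,z8,z18,z9,y18]),(z1,[z3,
    z2,z2,z9,z3,y6]),(z1,[z3,z2,z2,z6,z6,y6]),(z2,[y3,y2,y2,y6,y3,z6])],.ref k25 k0 [(z1,[z18,z13,z12,z36,z36,y36]),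
    (z1,[y9,y6,y5,y18,y18,z18]),(z1,[y6,y4,y4,y9,y12,z12]),(z1,[y6,y4,y4,y12,y9,z12]),(z1,[z3,z2,z2,z6,z6,y6])]]]

theorem hB6_171_18 : blkB [0, 0, 0, 0, 0, 0] [] sp6 hS6_171 (pcls (n := 6) [0, 0, 0, 0, 0, 0]) hD6_171 560 18 hN6_171_18 = true := by
  decide +kernel

end Pool.Agent.Lib_MP_fa6e45
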