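import Pool.Agent.Lib_MP_fa6e45.HK

/-!
MP_fa6e45_co, stage 4: certificates (captain, generated by a program).
-/

namespace Pool.Agent.Lib_MP_fa6e45

/-- nodes 228 to 239 -/
noncomputable def hN6_171_19 : List HM :=
  [.base (.leafM k1 [k0,k1,k2,k3,k4,k5] [(z1,[y1,z0,y1,z0,z1]),(z1,[z1,z0,z1])] []),
    .lp k0 [(nat_lit 18240),(nat_lit 19040),(nat_lit 18810),(nat_lit 18240),(nat_lit 18696),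
    (nat_lit 16188)] [(nat_lit 400),(nat_lit 400),k0,k0,k115,k115,(nat_lit 400),(nat_lit 400),k172,k172,
    (nat_lit 1426),(nat_lit 1426)] k0 [[k0,k0,k0,k0,k0,k0,k0,k0,k0,(nat_lit 456),k0,k0],[k0,k0,k0,k0,k0,k0,k0,k0,k0,
    k0,k0,k0],[k0,k0,k0,k0,k0,k0,(nat_lit 342),(nat_lit 342),k0,(nat_lit 912),k0,k0],[k0,k0,k0,k0,k0,k0,k0,k0,k0,
    (nat_lit 456),k0,k0],[k0,k0,k0,k0,k0,k0,(nat_lit 456),(nat_lit 456),k0,k0,k0,k0],[k0,k0,k0,k0,k0,k0,k0,k0,k0,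
    (nat_lit 912),k0,k0],[k0,k0,k0,(nat_lit 342),k0,(nat_lit 456),k0,k0,(nat_lit 1596),k0,k0,(nat_lit 456)],[k0,k0,k0,
    (nat_lit 342),k0,(nat_lit 456),k0,k0,k0,k0,k0,(nat_lit 456)],[k0,(nat_lit 456),(nat_lit 456),(nat_lit 912),
    (nat_lit 912),k0,k0,k0,k0,k0,k0,k0],[k0,k0,k0,k0,k0,k0,k0,(nat_lit 1596),(nat_lit 1596),k0,(nat_lit 1140),k0],[k0,
    k0,k0,k0,k0,k0,(nat_lit 456),(nat_lit 456),k0,k0,k0,k0],[k0,k0,k0,k0,k0,k0,k0,k0,(nat_lit 1140),k0,k0,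
    k0]] (nat_lit 54720) k5
    [[(k11,(nat_lit 16074)),(k10,(nat_lit 17214)),(k0,(nat_lit 18240)),(k1,(nat_lit 18240)),(k7,(nat_lit 18240)),(k8,
    (nat_lit 18468)),(k4,(nat_lit 18525)),(k5,(nat_lit 18525)),(k2,(nat_lit 18640)),(k3,(nat_lit 18640)),(k6,
    (nat_lit 18696)),(k9,(nat_lit 18924))],[(k10,(nat_lit 17214)),(k11,(nat_lit 17214)),(k8,(nat_lit 18012)),(k0,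
    (nat_lit 18240)),(k1,(nat_lit 18240)),(k6,(nat_lit 18240)),(k7,(nat_lit 18240)),(k9,(nat_lit 18468)),(k4,
    (nat_lit 18525)),(k5,(nat_lit 18525)),(k2,(nat_lit 18640)),(k3,(nat_lit 18640))],[(k10,(nat_lit 17614)),(k11,
    (nat_lit 18070)),(k0,(nat_lit 18640)),(k1,(nat_lit 18640)),(k6,(nat_lit 18640)),(k7,(nat_lit 18640)),(k8,
    (nat_lit 18868)),(k9,(nat_lit 18868)),(k4,(nat_lit 18925)),(k5,(nat_lit 18925)),(k2,(nat_lit 19040)),(k3,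
    (nat_lit 19040))],[(k10,(nat_lit 17614)),(k8,(nat_lit 17956)),(k11,(nat_lit 18070)),(k6,(nat_lit 18298)),(k9,
    (nat_lit 18526)),(k0,(nat_lit 18640)),(k1,(nat_lit 18640)),(k7,(nat_lit 18640)),(k4,(nat_lit 18925)),(k5,
    (nat_lit 18925)),(k2,(nat_lit 19040)),(k3,(nat_lit 19040))],[(k10,(nat_lit 17499)),(k8,(nat_lit 18297)),(k11,
    (nat_lit 18411)),(k0,(nat_lit 18525)),(k1,(nat_lit 18525)),(k7,(nat_lit 18525)),(k4,(nat_lit 18810)),(k5,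
    (nat_lit 18810)),(k6,(nat_lit 18867)),(k2,(nat_lit 18925)),(k3,(nat_lit 18925)),(k9,(nat_lit 19095))],[(k10,
    (nat_lit 17499)),(k6,(nat_lit 18069)),(k9,(nat_lit 18297)),(k11,(nat_lit 18411)),(k0,(nat_lit 18525)),(k1,
    (nat_lit 18525)),(k7,(nat_lit 18525)),(k8,(nat_lit 18753)),(k4,(nat_lit 18810)),(k5,(nat_lit 18810)),(k2,
    (nat_lit 18925)),(k3,(nat_lit 18925))],[(k10,(nat_lit 17214)),(k11,(nat_lit 17214)),(k8,(nat_lit 17556)),(k0,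
    (nat_lit 18240)),(k1,(nat_lit 18240)),(k7,(nat_lit 18240)),(k4,(nat_lit 18525)),(k5,(nat_lit 18525)),(k2,
    (nat_lit 18640)),(k3,(nat_lit 18640)),(k6,(nat_lit 18696)),(k9,(nat_lit 18924))],[(k11,(nat_lit 15618)),(k10,
    (nat_lit 16758)),(k4,(nat_lit 18069)),(k0,(nat_lit 18240)),(k6,(nat_lit 18240)),(k2,(nat_lit 18298)),(k8,
    (nat_lit 18468)),(k9,(nat_lit 18468)),(k3,(nat_lit 18640)),(k1,(nat_lit 18696)),(k7,(nat_lit 18696)),(k5,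
    (nat_lit 18867))],[(k10,(nat_lit 16986)),(k11,(nat_lit 17442)),(k4,(nat_lit 18297)),(k0,(nat_lit 18468)),(k6,
    (nat_lit 18468)),(k2,(nat_lit 18526)),(k9,(nat_lit 18696)),(k3,(nat_lit 18868)),(k1,(nat_lit 18924)),(k7,
    (nat_lit 18924)),(k5,(nat_lit 19095)),(k8,(nat_lit 20292))],[(k11,(nat_lit 17442)),(k7,(nat_lit 17556)),(k2,
    (nat_lit 17956)),(k0,(nat_lit 18012)),(k5,(nat_lit 18297)),(k1,(nat_lit 18468)),(k6,(nat_lit 18468)),(k10,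
    (nat_lit 18582)),(k4,(nat_lit 18753)),(k3,(nat_lit 18868)),(k8,(nat_lit 20292)),(k9,(nat_lit 20292))],[(k11,
    (nat_lit 14592)),(k6,(nat_lit 15618)),(k1,(nat_lit 16074)),(k10,(nat_lit 16188)),(k0,(nat_lit 17214)),(k7,
    (nat_lit 17214)),(k8,(nat_lit 17442)),(k9,(nat_lit 17442)),(k2,(nat_lit 18070)),(k3,(nat_lit 18070)),(k4,
    (nat_lit 18411)),(k5,(nat_lit 18411))],[(k10,(nat_lit 16188)),(k11,(nat_lit 16188)),(k6,(nat_lit 16758)),(k9,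
    (nat_lit 16986)),(k0,(nat_lit 17214)),(k1,(nat_lit 17214)),(k7,(nat_lit 17214)),(k4,(nat_lit 17499)),(k5,
    (nat_lit 17499)),(k2,(nat_lit 17614)),(k3,(nat_lit 17614)),(k8,(nat_lit 18582))]]
    [[k2,k0,k0,k0,k0,k1],[k1,k1,k0,k0,k0,k1],[k1,k0,k1,k0,k0,k1],[k1,k0,k0,k1,k0,k1],[k1,k0,k0,k0,k1,k1],[k1,k0,k0,k0,
    k0,k2],[k0,k1,k1,k0,k0,k1],[k0,k1,k0,k1,k0,k1],[k0,k1,k0,k0,k1,k1],[k0,k1,k0,k0,k0,k2],[k0,k0,k1,k1,k0,k1],[k0,k0,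
    k1,k0,k1,k1],[k0,k0,k1,k0,k0,k2],[k0,k0,k0,k2,k0,k1],[k0,k0,k0,k1,k1,k1],[k0,k0,k0,k1,k0,k2],[k0,k0,k0,k0,k1,k2],
    [k0,k0,k0,k0,k0,k3]]
    [.ref k25 k0 [(z1,[z1,z1]),(z2,[y1,z2,z3]),(z1,[z0,z0,z0,z1]),(z2,[z3,y6,z0,z0,z1]),(z2,[y6,z6,y3,y2,y1,z6])],
    .ref k25 k0 [(z1,[z2,z1,y1]),(z1,[y1,z1,z2]),(z1,[z0,z0,z0,z1]),(z2,[z6,y6,y3,z0,z1]),(z2,[y12,z6,z3,y2,y1,z6])],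
    .ref k25 k0 [(z2,[z3,z3,z0,y1]),(z4,[y3,z3,z6,z1]),(z1,[z0,z0,z0,z1]),(z4,[z9,y9,z0,y3,z2]),(z2,[y9,z3,y3,z1,y1,
    z6])],.ref k25 k0 [(z7,[z6,z15,z0,z0,y1]),(z14,[y6,z6,z21,z0,z1]),(z1,[z0,z0,z0,z1]),(z7,[z9,y9,z0,z0,z2]),(z14,
    [y36,y6,y21,y14,y1,z42])],.ref k25 k0 [(z2,[y6,z6,y3,y2,y1,z6]),(z4,[z6,z0,z9,z2,z1,y6]),(z1,[z0,z0,z0,z1]),(z4,
    [y18,z0,y9,y6,y1,z18]),(z1,[z9,y3,z3,z2,z1,y6])],.ref k25 k0 [(z1,[z1,z2]),(z2,[y1,z1,z3]),(z1,[z0,z0,z0,z1]),(z2,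
    [z3,y3,z0,z0,z1]),(z2,[y6,z0,y3,y2,y1,z6])],.ref k25 k0 [(z1,[z6,z3,y3,y2]),(z1,[y3,z0,z3,z1]),(z1,[z0,z0,z0,z1]),
    (z2,[z18,z0,y9,y6,z1]),(z2,[y36,y6,z15,z10,y1,z6])],.ref k25 k0 [(z4,[z6,z12,y3,z0,y1]),(z8,[y6,z0,z15,z0,z1]),
    (z1,[z0,z0,z0,z1]),(z8,[z18,z0,y9,z0,z1]),(z4,[y18,y12,z3,y4,z1,z12])],.ref k25 k0 [(z5,[y6,z9,z0,y2,y1,z6]),(z10,
    [z6,z6,z15,z2,z1,y6]),(z1,[z0,z0,z0,z1]),(z5,[y9,y9,z0,y3,z1,z9]),(z10,[z36,z6,y15,z2,z1,y6])],.ref k25 k0 [(z1,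
    [z2,z3,y1]),(z1,[y1,z0,z2]),(z1,[z0,z0,z0,z1]),(z2,[z6,z0,y3,z0,z1]),(z2,[y12,y6,z3,y2,y1,z6])],.ref k25 k0 [(z5,
    [z6,z15,z0,y2,y1]),(z10,[y6,z0,z15,z2,z1]),(z1,[z0,z0,z0,z1]),(z5,[z9,z0,z0,y3,z1]),(z10,[y36,y30,y15,z2,z1,
    z30])],.ref k25 k0 [(z4,[y6,z6,y3,z0,y1,z6]),(z8,[z6,z6,z15,z0,z1,y6]),(z1,[z0,z0,z0,z1]),(z8,[y18,y18,y9,z0,z1,
    z18]),(z4,[z18,z6,z3,y4,z1,y6])],.ref k25 k0 [(z2,[z3,z6,z0,y1]),(z4,[y3,z0,z6,z1]),(z1,[z0,z0,z0,z1]),(z4,[z9,z0,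
    z0,y3,z2]),(z2,[y9,y6,y3,z1,y1,z6])],.ref k25 k0 [(z4,[z3,z12,z0,z0,y1]),(z8,[y3,z0,z12,z0,z1]),(z1,[z0,z0,z0,
    z1]),(z8,[z9,z0,z0,z0,z1]),(z4,[y9,y12,y6,y4,z1,z12])],.ref k25 k0 [(z1,[y6,y3,y3,y2,z0,z6]),(z1,[z3,z3,z3,z1,z0,
    y3]),(z1,[z0,z0,z0,z1]),(z2,[y18,y18,y9,y6,z1,z18]),(z2,[z36,z30,z15,z10,y1,y30])],.ref k25 k0 [(z7,[z6,z21,z0,z0,
    y1]),(z14,[y6,z0,z21,z0,z1]),(z1,[z0,z0,z0,z1]),(z7,[z9,z0,z0,z0,z2]),(z14,[y36,y42,y21,y14,y1,z42])],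
    .ref k25 k0 [(z2,[y6,z0,y3,y2,y1,z6]),(z4,[z6,z6,z9,z2,z1,y6]),(z1,[z0,z0,z0,z1]),(z4,[y18,y18,y9,y6,y1,z18]),(z1,
    [z9,z6,z3,z2,z1,y6])],.ref k25 k0 [(z1,[z1,z3]),(z2,[y1,z0,z3]),(z1,[z0,z0,z0,z1]),(z2,[z3,z0,z0,z0,z1]),(z2,[y6,
    y6,y3,y2,y1,z6])]],
    .base (.leafM k3 [k5,k0,k1,k2,k3,k4] [(z1,[z1,z0,z1,z1])] []),
    .base (.leafM k3 [k0,k1,k2,k3,k4,k5] [(z1,[z0,z1,z0,z1])] []),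
    .lp k0 [(nat_lit 18240),(nat_lit 19040),(nat_lit 18810),(nat_lit 18240),(nat_lit 18696),
    (nat_lit 16188)] [(nat_lit 400),(nat_lit 400),k0,k0,k115,k115,(nat_lit 400),(nat_lit 400),k172,k172,
    (nat_lit 1426),(nat_lit 1426)] k0 [[k0,k0,k0,k0,k0,k0,k0,k0,k0,(nat_lit 456),k0,k0],[k0,k0,k0,k0,k0,k0,k0,k0,k0,
    k0,k0,k0],[k0,k0,k0,k0,k0,k0,(nat_lit 342),(nat_lit 342),k0,(nat_lit 912),k0,k0],[k0,k0,k0,k0,k0,k0,k0,k0,k0,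
    (nat_lit 456),k0,k0],[k0,k0,k0,k0,k0,k0,(nat_lit 456),(nat_lit 456),k0,k0,k0,k0],[k0,k0,k0,k0,k0,k0,k0,k0,k0,
    (nat_lit 912),k0,k0],[k0,k0,k0,(nat_lit 342),k0,(nat_lit 456),k0,k0,(nat_lit 1596),k0,k0,(nat_lit 456)],[k0,k0,k0,
    (nat_lit 342),k0,(nat_lit 456),k0,k0,k0,k0,k0,(nat_lit 456)],[k0,(nat_lit 456),(nat_lit 456),(nat_lit 912),
    (nat_lit 912),k0,k0,k0,k0,k0,k0,k0],[k0,k0,k0,k0,k0,k0,k0,(nat_lit 1596),(nat_lit 1596),k0,(nat_lit 1140),k0],[k0,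
    k0,k0,k0,k0,k0,(nat_lit 456),(nat_lit 456),k0,k0,k0,k0],[k0,k0,k0,k0,k0,k0,k0,k0,(nat_lit 1140),k0,k0,
    k0]] (nat_lit 54720) k5
    [[(k11,(nat_lit 16074)),(k10,(nat_lit 17214)),(k0,(nat_lit 18240)),(k1,(nat_lit 18240)),(k7,(nat_lit 18240)),(k8,
    (nat_lit 18468)),(k4,(nat_lit 18525)),(k5,(nat_lit 18525)),(k2,(nat_lit 18640)),(k3,(nat_lit 18640)),(k6,
    (nat_lit 18696)),(k9,(nat_lit 18924))],[(k10,(nat_lit 17214)),(k11,(nat_lit 17214)),(k8,(nat_lit 18012)),(k0,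
    (nat_lit 18240)),(k1,(nat_lit 18240)),(k6,(nat_lit 18240)),(k7,(nat_lit 18240)),(k9,(nat_lit 18468)),(k4,
    (nat_lit 18525)),(k5,(nat_lit 18525)),(k2,(nat_lit 18640)),(k3,(nat_lit 18640))],[(k10,(nat_lit 17614)),(k11,
    (nat_lit 18070)),(k0,(nat_lit 18640)),(k1,(nat_lit 18640)),(k6,(nat_lit 18640)),(k7,(nat_lit 18640)),(k8,
    (nat_lit 18868)),(k9,(nat_lit 18868)),(k4,(nat_lit 18925)),(k5,(nat_lit 18925)),(k2,(nat_lit 19040)),(k3,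
    (nat_lit 19040))],[(k10,(nat_lit 17614)),(k8,(nat_lit 17956)),(k11,(nat_lit 18070)),(k6,(nat_lit 18298)),(k9,
    (nat_lit 18526)),(k0,(nat_lit 18640)),(k1,(nat_lit 18640)),(k7,(nat_lit 18640)),(k4,(nat_lit 18925)),(k5,
    (nat_lit 18925)),(k2,(nat_lit 19040)),(k3,(nat_lit 19040))],[(k10,(nat_lit 17499)),(k8,(nat_lit 18297)),(k11,
    (nat_lit 18411)),(k0,(nat_lit 18525)),(k1,(nat_lit 18525)),(k7,(nat_lit 18525)),(k4,(nat_lit 18810)),(k5,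
    (nat_lit 18810)),(k6,(nat_lit 18867)),(k2,(nat_lit 18925)),(k3,(nat_lit 18925)),(k9,(nat_lit 19095))],[(k10,
    (nat_lit 17499)),(k6,(nat_lit 18069)),(k9,(nat_lit 18297)),(k11,(nat_lit 18411)),(k0,(nat_lit 18525)),(k1,
    (nat_lit 18525)),(k7,(nat_lit 18525)),(k8,(nat_lit 18753)),(k4,(nat_lit 18810)),(k5,(nat_lit 18810)),(k2,
    (nat_lit 18925)),(k3,(nat_lit 18925))],[(k10,(nat_lit 17214)),(k11,(nat_lit 17214)),(k8,(nat_lit 17556)),(k0,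
    (nat_lit 18240)),(k1,(nat_lit 18240)),(k7,(nat_lit 18240)),(k4,(nat_lit 18525)),(k5,(nat_lit 18525)),(k2,
    (nat_lit 18640)),(k3,(nat_lit 18640)),(k6,(nat_lit 18696)),(k9,(nat_lit 18924))],[(k11,(nat_lit 15618)),(k10,
    (nat_lit 16758)),(k4,(nat_lit 18069)),(k0,(nat_lit 18240)),(k6,(nat_lit 18240)),(k2,(nat_lit 18298)),(k8,
    (nat_lit 18468)),(k9,(nat_lit 18468)),(k3,(nat_lit 18640)),(k1,(nat_lit 18696)),(k7,(nat_lit 18696)),(k5,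
    (nat_lit 18867))],[(k10,(nat_lit 16986)),(k11,(nat_lit 17442)),(k4,(nat_lit 18297)),(k0,(nat_lit 18468)),(k6,
    (nat_lit 18468)),(k2,(nat_lit 18526)),(k9,(nat_lit 18696)),(k3,(nat_lit 18868)),(k1,(nat_lit 18924)),(k7,
    (nat_lit 18924)),(k5,(nat_lit 19095)),(k8,(nat_lit 20292))],[(k11,(nat_lit 17442)),(k7,(nat_lit 17556)),(k2,
    (nat_lit 17956)),(k0,(nat_lit 18012)),(k5,(nat_lit 18297)),(k1,(nat_lit 18468)),(k6,(nat_lit 18468)),(k10,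
    (nat_lit 18582)),(k4,(nat_lit 18753)),(k3,(nat_lit 18868)),(k8,(nat_lit 20292)),(k9,(nat_lit 20292))],[(k11,
    (nat_lit 14592)),(k6,(nat_lit 15618)),(k1,(nat_lit 16074)),(k10,(nat_lit 16188)),(k0,(nat_lit 17214)),(k7,
    (nat_lit 17214)),(k8,(nat_lit 17442)),(k9,(nat_lit 17442)),(k2,(nat_lit 18070)),(k3,(nat_lit 18070)),(k4,
    (nat_lit 18411)),(k5,(nat_lit 18411))],[(k10,(nat_lit 16188)),(k11,(nat_lit 16188)),(k6,(nat_lit 16758)),(k9,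
    (nat_lit 16986)),(k0,(nat_lit 17214)),(k1,(nat_lit 17214)),(k7,(nat_lit 17214)),(k4,(nat_lit 17499)),(k5,
    (nat_lit 17499)),(k2,(nat_lit 17614)),(k3,(nat_lit 17614)),(k8,(nat_lit 18582))]]
    [[k2,k0,k0,k0,k0,k1],[k1,k1,k0,k0,k0,k1],[k1,k0,k1,k0,k0,k1],[k1,k0,k0,k1,k0,k1],[k1,k0,k0,k0,k1,k1],[k1,k0,k0,k0,
    k0,k2],[k0,k1,k1,k0,k0,k1],[k0,k1,k0,k1,k0,k1],[k0,k1,k0,k0,k1,k1],[k0,k1,k0,k0,k0,k2],[k0,k0,k1,k1,k0,k1],[k0,k0,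
    k1,k0,k1,k1],[k0,k0,k1,k0,k0,k2],[k0,k0,k0,k2,k0,k1],[k0,k0,k0,k1,k1,k1],[k0,k0,k0,k1,k0,k2],[k0,k0,k0,k0,k1,k2],
    [k0,k0,k0,k0,k0,k3]]
    [.ref k25 k0 [(z1,[z1,z1]),(z2,[y1,z2,z3]),(z1,[z0,z0,z0,z1]),(z4,[z1,y2,z0,z0,z3]),(z4,[y7,z2,y6,y4,y3,z12])],
    .ref k25 k0 [(z1,[z2,z1,y1]),(z1,[y1,z1,z2]),(z1,[z0,z0,z0,z1]),(z4,[z2,y2,y1,z0,z3]),(z4,[y14,z2,z1,y4,y3,z12])],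
    .ref k25 k0 [(z2,[z3,z3,z0,y1]),(z4,[y3,z3,z6,z1]),(z1,[z0,z0,z0,z1]),(z8,[z3,y3,z0,y1,z6]),(z8,[y21,y3,y12,y1,y6,
    z24])],.ref k25 k0 [(z3,[z4,z5,z0,z0,y1]),(z6,[y4,z4,z9,z0,z1]),(z1,[z0,z0,z0,z1]),(z3,[z1,y1,z0,z0,z2]),(z6,[y14,
    y4,y9,y6,y1,z18])],.ref k25 k0 [(z1,[z12,z3,z6,z4,z3,y12]),(z2,[y12,z0,y3,y4,y3,z12]),(z1,[z0,z0,z0,z1]),(z2,[z6,
    z0,z3,z2,z3,y6]),(z1,[y21,y3,y12,y8,y6,z24])],.ref k25 k0 [(z1,[z1,z2]),(z2,[y1,z1,z3]),(z1,[z0,z0,z0,z1]),(z4,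
    [z1,y1,z0,z0,z3]),(z4,[y7,y5,y6,y4,y3,z12])],.ref k25 k0 [(z1,[z6,z3,y3,y2]),(z1,[y3,z0,z3,z1]),(z1,[z0,z0,z0,
    z1]),(z4,[z6,z0,y3,y2,z3]),(z4,[y42,y12,z15,z10,y3,z12])],.ref k25 k0 [(z1,[z4,z3,y2,z0,y1]),(z2,[y4,z0,z5,z0,
    z1]),(z1,[z0,z0,z0,z1]),(z2,[z2,z0,y1,z0,z1]),(z1,[y7,y3,z2,y1,z1,z3])],.ref k25 k0 [(z5,[y12,z3,z0,y4,y3,z12]),
    (z10,[z12,z12,z15,z4,z3,y12]),(z1,[z0,z0,z0,z1]),(z5,[y3,y3,z0,y1,z3,z3]),(z10,[z42,z12,y15,z4,z3,y12])],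
    .ref k25 k0 [(z1,[z2,z3,y1]),(z1,[y1,z0,z2]),(z1,[z0,z0,z0,z1]),(z4,[z2,z0,y1,z0,z3]),(z4,[y14,y12,z1,y4,y3,
    z12])],.ref k25 k0 [(z5,[z12,z15,z0,y4,y3]),(z10,[y12,z0,z15,z4,z3]),(z1,[z0,z0,z0,z1]),(z5,[z3,z0,z0,y1,z3]),
    (z10,[y42,y30,y15,z4,z3,z30])],.ref k25 k0 [(z1,[y4,y1,y2,z0,y1,z4]),(z2,[z4,z4,z5,z0,z1,y4]),(z1,[z0,z0,z0,z1]),
    (z2,[y2,y2,y1,z0,z1,z2]),(z1,[z7,z4,z2,y1,z1,y4])],.ref k25 k0 [(z2,[z3,z6,z0,y1]),(z4,[y3,z0,z6,z1]),(z1,[z0,z0,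
    z0,z1]),(z8,[z3,z0,z0,y1,z6]),(z8,[y21,y24,y12,y1,y6,z24])],.ref k25 k0 [(z1,[z2,z3,z0,z0,y1]),(z2,[y2,z0,z3,z0,
    z1]),(z1,[z0,z0,z0,z1]),(z2,[z1,z0,z0,z0,z1]),(z2,[y7,y6,y3,y2,z2,z6])],.ref k25 k0 [(z1,[y6,y3,y3,y2,z0,z6]),(z1,
    [z3,z3,z3,z1,z0,y3]),(z1,[z0,z0,z0,z1]),(z4,[y6,y6,y3,y2,z3,z6]),(z4,[z42,z30,z15,z10,y3,y30])],.ref k25 k0 [(z3,
    [z4,z9,z0,z0,y1]),(z6,[y4,z0,z9,z0,z1]),(z1,[z0,z0,z0,z1]),(z3,[z1,z0,z0,z0,z2]),(z6,[y14,y18,y9,y6,y1,z18])],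
    .ref k25 k0 [(z1,[z12,z15,z6,z4,z3,y12]),(z2,[y12,y12,y3,y4,y3,z12]),(z1,[z0,z0,z0,z1]),(z2,[z6,z6,z3,z2,z3,y6]),
    (z1,[y21,y24,y12,y8,y6,z24])],.ref k25 k0 [(z1,[z1,z3]),(z2,[y1,z0,z3]),(z1,[z0,z0,z0,z1]),(z4,[z1,z0,z0,z0,z3]),
    (z4,[y7,y12,y6,y4,y3,z12])]],
    .lp k0 [(nat_lit 482),(nat_lit 458),(nat_lit 488),(nat_lit 500),(nat_lit 494),(nat_lit 452)] [k19,k19,k62,k0,k16,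
    k16,k10,k10,k13,k13,k34,k34] k0 [[k0,k0,k0,k18,k12,k18,k36,k0,k0,k0,k0,k0],[k102,k0,k0,k0,k0,k0,k6,k0,k0,k0,k0,
    k126],[k0,k18,k0,k18,k0,k0,k0,k0,k0,k0,k24,k0],[k0,k0,k0,k0,k12,k0,k12,k0,k0,k0,k0,k0],[k0,k18,k0,k0,k0,k12,k0,
    k18,k0,k0,k18,k0],[k0,k12,k12,k0,k0,k0,k0,k0,k6,k0,k12,k0],[k0,k0,k0,k0,k0,k18,k0,k18,k0,k66,k0,k0],[k6,k36,k12,
    k0,k0,k0,k0,k0,k0,k0,k12,k0],[k0,k0,k0,k0,k0,k0,k0,k66,k0,k0,k108,k0],[k0,k0,k0,k0,k6,k0,k0,k0,k0,k0,k42,k0],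
    [k126,k0,k0,k0,k0,k0,k0,k0,k0,k0,k0,k24],[k0,k0,k0,k24,k12,k18,k12,k0,k42,k108,k0,k0]] (nat_lit 1440) k5
    [[(k8,(nat_lit 380)),(k2,(nat_lit 415)),(k11,(nat_lit 425)),(k4,(nat_lit 467)),(k10,(nat_lit 467)),(k9,
    (nat_lit 476)),(k7,(nat_lit 479)),(k5,(nat_lit 485)),(k6,(nat_lit 491)),(k3,(nat_lit 501)),(k1,(nat_lit 506)),(k0,
    (nat_lit 608))],[(k2,(nat_lit 421)),(k9,(nat_lit 452)),(k4,(nat_lit 467)),(k10,(nat_lit 467)),(k11,(nat_lit 467)),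
    (k7,(nat_lit 479)),(k5,(nat_lit 485)),(k8,(nat_lit 488)),(k6,(nat_lit 497)),(k3,(nat_lit 501)),(k0,(nat_lit 584)),
    (k1,(nat_lit 608))],[(k10,(nat_lit 360)),(k3,(nat_lit 418)),(k2,(nat_lit 458)),(k11,(nat_lit 486)),(k0,
    (nat_lit 501)),(k1,(nat_lit 501)),(k9,(nat_lit 501)),(k8,(nat_lit 507)),(k4,(nat_lit 516)),(k5,(nat_lit 522)),(k7,
    (nat_lit 528)),(k6,(nat_lit 546))],[(k2,(nat_lit 378)),(k1,(nat_lit 415)),(k0,(nat_lit 421)),(k10,(nat_lit 424)),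
    (k11,(nat_lit 424)),(k5,(nat_lit 442)),(k8,(nat_lit 445)),(k9,(nat_lit 445)),(k7,(nat_lit 448)),(k4,
    (nat_lit 454)),(k3,(nat_lit 458)),(k6,(nat_lit 460))],[(k2,(nat_lit 442)),(k11,(nat_lit 470)),(k9,(nat_lit 479)),
    (k7,(nat_lit 482)),(k0,(nat_lit 485)),(k1,(nat_lit 485)),(k4,(nat_lit 488)),(k8,(nat_lit 491)),(k6,(nat_lit 494)),
    (k10,(nat_lit 494)),(k5,(nat_lit 506)),(k3,(nat_lit 522))],[(k2,(nat_lit 454)),(k0,(nat_lit 467)),(k1,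
    (nat_lit 467)),(k11,(nat_lit 470)),(k4,(nat_lit 476)),(k6,(nat_lit 476)),(k10,(nat_lit 482)),(k5,(nat_lit 488)),
    (k9,(nat_lit 491)),(k7,(nat_lit 494)),(k8,(nat_lit 497)),(k3,(nat_lit 516))],[(k2,(nat_lit 448)),(k11,
    (nat_lit 470)),(k0,(nat_lit 479)),(k1,(nat_lit 479)),(k5,(nat_lit 482)),(k4,(nat_lit 494)),(k10,(nat_lit 494)),
    (k8,(nat_lit 497)),(k6,(nat_lit 500)),(k7,(nat_lit 512)),(k9,(nat_lit 515)),(k3,(nat_lit 528))],[(k8,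
    (nat_lit 431)),(k2,(nat_lit 460)),(k4,(nat_lit 476)),(k11,(nat_lit 476)),(k6,(nat_lit 482)),(k10,(nat_lit 488)),
    (k1,(nat_lit 491)),(k5,(nat_lit 494)),(k0,(nat_lit 497)),(k9,(nat_lit 497)),(k7,(nat_lit 500)),(k3,
    (nat_lit 546))],[(k2,(nat_lit 445)),(k0,(nat_lit 452)),(k10,(nat_lit 473)),(k1,(nat_lit 476)),(k5,(nat_lit 479)),
    (k4,(nat_lit 491)),(k8,(nat_lit 494)),(k6,(nat_lit 497)),(k3,(nat_lit 501)),(k9,(nat_lit 512)),(k7,(nat_lit 515)),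
    (k11,(nat_lit 539))],[(k1,(nat_lit 380)),(k6,(nat_lit 431)),(k2,(nat_lit 445)),(k11,(nat_lit 473)),(k0,
    (nat_lit 488)),(k5,(nat_lit 491)),(k8,(nat_lit 494)),(k9,(nat_lit 494)),(k4,(nat_lit 497)),(k7,(nat_lit 497)),(k3,
    (nat_lit 507)),(k10,(nat_lit 515))],[(k2,(nat_lit 424)),(k1,(nat_lit 425)),(k11,(nat_lit 452)),(k0,(nat_lit 467)),
    (k4,(nat_lit 470)),(k5,(nat_lit 470)),(k7,(nat_lit 470)),(k8,(nat_lit 473)),(k6,(nat_lit 476)),(k3,(nat_lit 486)),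
    (k9,(nat_lit 539)),(k10,(nat_lit 560))],[(k3,(nat_lit 360)),(k2,(nat_lit 424)),(k10,(nat_lit 428)),(k0,
    (nat_lit 467)),(k1,(nat_lit 467)),(k9,(nat_lit 473)),(k4,(nat_lit 482)),(k6,(nat_lit 488)),(k5,(nat_lit 494)),(k7,
    (nat_lit 494)),(k8,(nat_lit 515)),(k11,(nat_lit 560))]]
    [[k2,k1,k0,k0,k0,k0],[k1,k2,k0,k0,k0,k0],[k1,k1,k1,k0,k0,k0],[k1,k1,k0,k0,k1,k0],[k1,k1,k0,k0,k0,k1],[k1,k0,k1,k0,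
    k1,k0],[k1,k0,k1,k0,k0,k1],[k1,k0,k0,k1,k0,k1],[k1,k0,k0,k1,k1,k0],[k1,k0,k0,k0,k2,k0],[k1,k0,k0,k0,k1,k1],[k1,k0,
    k0,k0,k0,k2],[k0,k3,k0,k0,k0,k0],[k0,k2,k1,k0,k0,k0],[k0,k2,k0,k0,k1,k0],[k0,k2,k0,k0,k0,k1],[k0,k2,k0,k1,k0,k0],
    [k0,k1,k1,k0,k0,k1],[k0,k1,k0,k1,k1,k0],[k0,k1,k0,k1,k0,k1],[k0,k1,k0,k0,k1,k1],[k0,k1,k0,k0,k0,k2],[k0,k0,k1,k1,
    k1,k0],[k0,k0,k1,k0,k1,k1],[k0,k0,k1,k0,k0,k2],[k0,k0,k0,k1,k0,k2],[k0,k0,k0,k1,k1,k1]]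
    [.ref k25 k0 [(z4,[z9,y2,y9]),(z2,[y3,z2,z9]),(z2,[y3,z2,z3,z6]),(z4,[z3,y2,y3]),(z1,[z0,z0,z0,z0,z1])],
    .ref k25 k0 [(z1,[y9,z4,z18]),(z1,[z6,y2,y9]),(z1,[z6,y2,y12,z3]),(z1,[y3,z1,z6]),(z1,[z0,z0,z0,z0,z1])],
    .ref k25 k0 [(z1,[y9,z4,z9,z9]),(z1,[z6,y2,y3,y6]),(z1,[z6,y2,y6,y3]),(z1,[y3,z1,z3,z3]),(z1,[z0,z0,z0,z0,z1])],
    .ref k25 k0 [(z1,[z9,y2,y9,z0,y3]),(z1,[y6,z2,z9,z0,z2]),(z1,[y6,z2,z6,z3,z2]),(z1,[z3,y1,y3,z0,y1]),(z1,[z0,z0,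
    z0,z0,z1])],.ref k25 k0 [(z1,[z9,z1,z0,z9,z3,y9]),(z1,[y6,z0,z3,y6,y2,z6]),(z1,[y6,z0,z0,y3,y2,z6]),(z1,[z3,z0,z0,
    z3,z1,y3]),(z1,[z0,z0,z0,z0,z1])],.ref k25 k0 [(z1,[z9,y2,z0,y9,y3]),(z1,[y6,z2,z3,z6,z2]),(z1,[y6,z2,z0,z9,z2]),
    (z1,[z3,y1,z0,y3,y1]),(z1,[z0,z0,z0,z0,z1])],.ref k25 k0 [(z1,[z9,z1,z9,z0,z3,y9]),(z1,[y6,z0,y3,z0,y2,z6]),(z1,
    [y6,z0,y6,z3,y2,z6]),(z1,[z3,z0,z3,z0,z1,y3]),(z1,[z0,z0,z0,z0,z1])],.ref k25 k0 [(z4,[z9,z4,z9,z9,z3,y9]),(z2,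
    [y3,z0,z3,y3,y1,z3]),(z2,[y3,z0,y3,z3,y1,z3]),(z4,[z3,z0,z3,z3,z1,y3]),(z1,[z0,z0,z0,z0,z1])],.ref k25 k0 [(z4,
    [z9,z1,z0,z0,y3]),(z2,[y3,z1,z6,z0,z1]),(z2,[y3,z1,z0,z6,z1]),(z4,[z3,y1,z0,z0,y1]),(z1,[z0,z0,z0,z0,z1])],
    .ref k25 k0 [(z1,[z3,z0,z0,z0,y2]),(z3,[y6,z2,z9,z0,z4]),(z3,[y6,z2,z0,z9,z4]),(z3,[z3,y1,z0,z0,y2]),(z1,[z0,z0,
    z0,z0,z1])],.ref k25 k0 [(z1,[z3,z1,z3,z3,z0,y3]),(z1,[y2,z0,z1,y2,z0,z2]),(z1,[y2,z0,y2,z1,z0,z2]),(z1,[z1,z0,z1,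
    z1,z0,y1]),(z1,[z0,z0,z0,z0,z1])],.ref k25 k0 [(z1,[z3,z2,z6,z6,z2,y6]),(z3,[y6,y2,y3,y12,y4,z12]),(z3,[y6,y2,y12,
    y3,y4,z12]),(z3,[z3,z1,z6,z6,z2,y6]),(z1,[z0,z0,z0,z0,z1])],.ref k25 k0 [(z2,[y3,z2,z9]),(z1,[z1]),(z1,[z1,z0,y3,
    z3]),(z2,[y1,z0,z3]),(z1,[z0,z0,z0,z0,z1])],.ref k25 k0 [(z2,[y3,z2,z6,z3]),(z1,[z1,z0,z1,y1]),(z1,[z1,z0,y2,z2]),
    (z2,[y1,z0,z2,z1]),(z1,[z0,z0,z0,z0,z1])],.ref k25 k0 [(z4,[y9,z4,z18,z0,z3]),(z2,[z3,z0,z0,z0,y1]),(z2,[z3,z0,y6,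
    z6,y1]),(z4,[y3,z0,z6,z0,z1]),(z1,[z0,z0,z0,z0,z1])],.ref k25 k0 [(z4,[y9,z1,z9,y9,y3,z9]),(z2,[z3,z1,z3,z3,z1,
    y3]),(z2,[z3,z1,y3,z9,z1,y3]),(z4,[y3,y1,z3,y3,y1,z3]),(z1,[z0,z0,z0,z0,z1])],.ref k25 k0 [(z1,[y3,z1,z6]),(z1,
    [z2,z0,y1]),(z1,[z2,z0,y4,z3]),(z1,[y1,z0,z2]),(z1,[z0,z0,z0,z0,z1])],.ref k25 k0 [(z4,[y9,z1,z0,z0,y3,z9]),(z2,
    [z3,z1,z6,z0,z1,y3]),(z2,[z3,z1,z0,z6,z1,y3]),(z4,[y3,y1,z0,z0,y1,z3]),(z1,[z0,z0,z0,z0,z1])],.ref k25 k0 [(z1,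
    [y9,z1,z9,z0,z3]),(z1,[z6,z0,y3,z0,y2]),(z1,[z6,z0,y6,z3,y2]),(z1,[y3,z0,z3,z0,z1]),(z1,[z0,z0,z0,z0,z1])],
    .ref k25 k0 [(z1,[y9,y2,z0,y9,y3,z9]),(z1,[z6,z2,z3,z6,z2,y6]),(z1,[z6,z2,z0,z9,z2,y6]),(z1,[y3,y1,z0,y3,y1,z3]),
    (z1,[z0,z0,z0,z0,z1])],.ref k25 k0 [(z2,[y9,y1,z0,y9,z0,z9]),(z1,[z3,z1,z3,z3,z0,y3]),(z1,[z3,z1,z0,z6,z0,y3]),
    (z2,[y3,y1,z0,y3,z0,z3]),(z1,[z0,z0,z0,z0,z1])],.ref k25 k0 [(z2,[y9,y4,y9,y18,y6,z18]),(z1,[z3,z2,z6,z6,z2,y6]),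
    (z1,[z3,z2,z3,z9,z2,y6]),(z2,[y3,y2,y3,y6,y2,z6]),(z1,[z0,z0,z0,z0,z1])],.ref k25 k0 [(z1,[y9,z1,z0,z9,z3]),(z1,
    [z6,z0,z3,y6,y2]),(z1,[z6,z0,z0,y3,y2]),(z1,[y3,z0,z0,z3,z1]),(z1,[z0,z0,z0,z0,z1])],.ref k25 k0 [(z2,[y9,y1,y9,
    z0,z0,z9]),(z1,[z3,z1,z6,z0,z0,y3]),(z1,[z3,z1,z3,z3,z0,y3]),(z2,[y3,y1,y3,z0,z0,z3]),(z1,[z0,z0,z0,z0,z1])],
    .ref k25 k0 [(z2,[y9,y4,y18,y9,y6,z18]),(z1,[z3,z2,z9,z3,z2,y6]),(z1,[z3,z2,z6,z6,z2,y6]),(z2,[y3,y2,y6,y3,y2,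
    z6]),(z1,[z0,z0,z0,z0,z1])],.ref k25 k0 [(z1,[z9,z7,z18,z18,z6,y18]),(z1,[y6,y4,y9,y12,y4,z12]),(z1,[y6,y4,y12,y9,
    y4,z12]),(z1,[z3,z2,z6,z6,z2,y6]),(z1,[z0,z0,z0,z0,z1])],.ref k25 k0 [(z1,[z9,z4,z9,z9,z0,y9]),(z1,[y6,y2,y3,y6,
    z0,z6]),(z1,[y6,y2,y6,y3,z0,z6]),(z1,[z3,z1,z3,z3,z0,y3]),(z1,[z0,z0,z0,z0,z1])]],
    .lp k0 [k76,k80,k82,k86,k84,k70] [k5,k5,k3,k3,k2,k2,k0,k0,k1,k1,k8,k8] k0 [[k0,k0,k0,k0,k0,k0,k1,k0,k0,k0,k0,k12],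
    [k0,k0,k1,k0,k0,k1,k2,k0,k0,k0,k0,k12],[k0,k0,k0,k0,k0,k0,k0,k0,k0,k2,k4,k6],[k1,k0,k0,k0,k0,k0,k2,k0,k0,k0,k0,
    k0],[k1,k0,k0,k0,k0,k0,k0,k0,k0,k0,k0,k0],[k0,k0,k0,k0,k0,k0,k0,k0,k0,k2,k4,k0],[k0,k0,k0,k0,k0,k0,k0,k1,k0,k1,k2,
    k0],[k2,k1,k2,k0,k0,k0,k0,k0,k0,k0,k1,k0],[k0,k0,k0,k2,k2,k0,k0,k1,k0,k0,k0,k0],[k0,k0,k0,k0,k0,k0,k0,k0,k0,k0,k1,
    k5],[k12,k12,k0,k6,k0,k0,k0,k0,k5,k0,k0,k7],[k0,k0,k0,k4,k4,k0,k1,k2,k1,k0,k0,k0]] (nat_lit 240) k5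
    [[(k11,k72),(k10,k73),(k2,k74),(k7,k77),(k4,k79),(k6,k79),(k9,k79),(k1,k83),(k5,k85),(k8,k85),(k0,k88),(k3,k90)],
    [(k10,k61),(k11,k73),(k0,k76),(k3,k78),(k2,k79),(k4,k79),(k5,k79),(k9,k79),(k8,k80),(k7,k82),(k6,k83),(k1,k88)],
    [(k10,k63),(k11,k75),(k0,k78),(k2,k80),(k3,k80),(k4,k80),(k5,k80),(k9,k80),(k8,k82),(k7,k83),(k6,k84),(k1,k90)],
    [(k10,k69),(k1,k74),(k11,k75),(k0,k79),(k2,k80),(k3,k80),(k8,k80),(k4,k81),(k5,k81),(k9,k82),(k7,k83),(k6,k85)],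
    [(k11,k78),(k0,k79),(k3,k80),(k10,k80),(k2,k81),(k9,k81),(k4,k82),(k5,k82),(k8,k83),(k6,k84),(k7,k84),(k1,k85)],
    [(k11,k78),(k0,k79),(k1,k79),(k3,k80),(k10,k80),(k2,k81),(k4,k82),(k5,k82),(k8,k83),(k9,k83),(k6,k84),(k7,k84)],
    [(k1,k77),(k10,k78),(k11,k78),(k0,k82),(k2,k83),(k3,k83),(k8,k83),(k4,k84),(k5,k84),(k9,k85),(k6,k86),(k7,k86)],
    [(k11,k78),(k1,k79),(k10,k79),(k0,k83),(k3,k84),(k4,k84),(k5,k84),(k8,k84),(k2,k85),(k6,k85),(k9,k85),(k7,k86)],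
    [(k11,k78),(k0,k79),(k1,k79),(k10,k79),(k3,k80),(k5,k81),(k2,k82),(k4,k83),(k8,k84),(k6,k85),(k7,k85),(k9,k85)],
    [(k11,k77),(k10,k78),(k0,k80),(k2,k80),(k3,k82),(k4,k83),(k5,k83),(k7,k83),(k6,k84),(k8,k84),(k9,k84),(k1,k85)],
    [(k10,k65),(k11,k70),(k1,k72),(k0,k73),(k2,k75),(k3,k75),(k8,k77),(k4,k78),(k5,k78),(k6,k78),(k7,k78),(k9,k78)],
    [(k0,k61),(k3,k63),(k10,k63),(k11,k65),(k2,k69),(k1,k73),(k7,k78),(k8,k78),(k6,k79),(k9,k79),(k4,k80),(k5,k80)]]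
    [[k2,k0,k0,k0,k0,k1],[k1,k2,k0,k0,k0,k0],[k1,k1,k1,k0,k0,k0],[k1,k1,k0,k0,k1,k0],[k1,k1,k0,k0,k0,k1],[k1,k0,k1,k0,
    k0,k1],[k2,k0,k0,k1,k0,k0],[k1,k0,k0,k1,k0,k1],[k1,k0,k0,k0,k1,k1],[k1,k0,k0,k0,k0,k2],[k0,k2,k0,k0,k0,k1],[k0,k1,
    k1,k0,k0,k1],[k0,k1,k0,k1,k0,k1],[k0,k1,k0,k0,k1,k1],[k0,k1,k0,k0,k0,k2],[k0,k0,k1,k0,k1,k1],[k0,k0,k1,k0,k0,k2],
    [k0,k0,k0,k1,k0,k2],[k0,k0,k0,k0,k1,k2],[k0,k0,k0,k0,k0,k3]]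
    [.ref (nat_lit 227) k6 [(z1,[y3,z2]),(z1,[z3,y1]),(z1,[z0,z0,z1]),(z1,[z0,z0,z0,z1])],.ref k196 k8 [(z1,[z0,z0,y1,
    z1]),(z1,[z0,z0,z1]),(z1,[z0,y1,y3,y3,z3]),(z1,[y6,z2,z9])],.ref k196 k8 [(z1,[z0,z0,y1,z1]),(z1,[z0,z0,z1]),(z1,
    [z0,y1,y3,y3,z3]),(z1,[y6,z2,z3,z6])],.ref (nat_lit 228) k6 [(z1,[y1,z0,z0,y1,z1]),(z1,[z3,z1,z0,z3,y3]),(z1,[z0,
    z0,z1]),(z1,[z0,z0,z0,z1])],.ref k33 k7 [(z1,[y6,z2,z9]),(z1,[y6,z2,z6,z3]),(z1,[z3,y1,y3]),(z1,[z0,y1,y3,y3,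
    z3])],.ref k33 k7 [(z1,[y6,z2,z3,z6]),(z1,[y6,z2,z0,z9]),(z1,[z3,y1,z0,y3]),(z1,[z0,y1,y3,y3,z3])],
    .ref k183 k6 [(z1,[y3,z2]),(z1,[z1]),(z1,[z0,z0,z1]),(z1,[z0,z0,z0,z1])],.ref k33 k7 [(z2,[y3,z1,z6]),(z2,[y3,z1,
    z0,z6]),(z4,[z3,y1]),(z1,[z0,y1,y3,y3,z3])],.ref k33 k7 [(z1,[y2,z0,z1,y2,z2]),(z1,[y2,z0,y2,z1,z2]),(z1,[z1,z0,
    z1,z1,y1]),(z1,[z0,y1,y3,y3,z3])],.ref (nat_lit 229) k8 [(z1,[z0,z0,y1,z1]),(z1,[z0,z0,z1]),(z1,[z0,y1,y3,y3,z3]),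
    (z1,[z6,y2,y9])],.ref (nat_lit 230) k6 [(z1,[z1,z0,y2]),(z1,[y3,z1,z6]),(z1,[z0,z0,z1]),(z1,[z0,z0,z0,z1])],
    .ref (nat_lit 230) k6 [(z1,[z1,z0,y1,y1]),(z1,[y3,z1,z3,z3]),(z1,[z0,z0,z1]),(z1,[z0,z0,z0,z1])],
    .ref (nat_lit 228) k6 [(z1,[z1,z0,y1]),(z1,[y3,z1,z3]),(z1,[z0,z0,z1]),(z1,[z0,z0,z0,z1])],
    .ref (nat_lit 231) k6 [(z1,[z3,z1,z0,z3,y3]),(z1,[y1,z0,z0,y1,z1]),(z1,[z0,z0,z1]),(z1,[z0,z0,z0,z1])],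
    .ref (nat_lit 228) k6 [(z2,[z1,z0,y1]),(z2,[y3,z2,z3]),(z1,[z0,z0,z1]),(z1,[z0,z0,z0,z1])],
    .ref (nat_lit 231) k6 [(z1,[z3,z1,z3,z0,y3]),(z1,[y1,z0,y1,z0,z1]),(z1,[z0,z0,z1]),(z1,[z0,z0,z0,z1])],
    .ref (nat_lit 228) k6 [(z2,[z1,z0,z0,y1]),(z2,[y3,z2,z0,z3]),(z1,[z0,z0,z1]),(z1,[z0,z0,z0,z1])],
    .ref (nat_lit 232) k8 [(z1,[z0,z0,y1,z1]),(z1,[z0,z0,z1]),(z1,[z0,y1,y3,y3,z3]),(z1,[z2,z0,y1])],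
    .ref (nat_lit 233) k0 [(z2,[y3,z1,y3,y3,z3]),(z1,[z0,z0,z1]),(z1,[z0,z0,z0,z1]),(z1,[z0,y1,y3,y3,z3])],
    .ref (nat_lit 233) k0 [(z1,[y1,z1]),(z1,[z0,z0,z1]),(z1,[z0,z0,z0,z1]),(z1,[z0,y1,y3,y3,z3])]],
    .base (.leafM k0 [k2,k3,k4,k5,k0,k1] [(z3,[y1,y1,y1,z0,z3])] []),
    .base (.leafM k0 [k0,k1,k2,k3,k4,k5] [(z3,[z0,z1,z3,z1])] []),
    .base (.leafM k3 [k3,k4,k5,k0,k1,k2] [(z1,[z0,z0,y1,y1,z1])] []),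
    .lp k0 [k172,k184,k184,k166,k164,k158] [k9,k3,k0,k0,k0,k0,k9,k9,k10,k10,k16,k10] k0 [[k0,k0,k4,k2,k0,k0,k0,k0,k6,
    k16,k0,k12],[k0,k0,k0,k0,k4,k0,k10,k0,k0,k0,k0,k0],[k0,k2,k0,k2,k0,k0,k0,k18,k0,k2,k0,k0],[k0,k4,k0,k0,k0,k0,k0,
    k14,k0,k0,k16,k0],[k0,k0,k0,k0,k0,k4,k14,k0,k0,k0,k0,k12],[k4,k0,k0,k0,k0,k0,k10,k0,k4,k0,k0,k8],[k0,k0,k14,k18,
    k0,k0,k0,k0,k36,k36,k0,k0],[k10,k0,k0,k0,k10,k14,k0,k0,k0,k0,k0,k6],[k0,k16,k0,k2,k0,k0,k0,k36,k0,k0,k42,k0],[k0,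
    k6,k0,k0,k4,k0,k0,k36,k0,k0,k42,k0],[k0,k12,k0,k0,k8,k12,k6,k0,k0,k0,k0,k0],[k0,k0,k16,k0,k0,k0,k0,k0,k42,k42,k0,
    k0]] (nat_lit 516) k5
    [[(k8,k129),(k11,k129),(k5,k165),(k10,k165),(k9,k171),(k0,k172),(k1,k178),(k6,k178),(k2,k181),(k7,k184),(k4,k189),
    (k3,k193)],[(k10,k147),(k8,k149),(k11,k159),(k9,k165),(k0,k166),(k7,k166),(k5,k171),(k1,k172),(k2,k173),(k3,k175),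
    (k6,k176),(k4,k179)],[(k9,k164),(k10,k168),(k7,k171),(k0,k175),(k6,k175),(k8,k180),(k3,k184),(k4,k184),(k5,k186),
    (k2,k188),(k11,k190),(k1,k193)],[(k6,k157),(k8,k172),(k0,k173),(k11,k174),(k7,k175),(k1,k181),(k2,k182),(k4,k184),
    (k5,k184),(k10,k184),(k3,k188),(k9,k188)],[(k6,k161),(k1,k165),(k10,k168),(k0,k171),(k8,k174),(k7,k175),(k11,
    k176),(k2,k184),(k4,k184),(k3,k186),(k5,k186),(k9,k192)],[(k10,k156),(k9,k160),(k11,k174),(k7,k175),(k8,k178),(k0,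
    k179),(k4,k180),(k2,k184),(k3,k184),(k5,k184),(k6,k185),(k1,k189)],[(k10,k151),(k9,k155),(k11,k161),(k8,k165),(k0,
    k166),(k7,k170),(k3,k171),(k2,k175),(k4,k175),(k5,k175),(k6,k180),(k1,k184)],[(k8,k129),(k11,k129),(k2,k157),(k10,
    k159),(k5,k161),(k9,k165),(k6,k166),(k3,k175),(k0,k176),(k1,k178),(k7,k180),(k4,k185)],[(k10,k152),(k7,k155),(k4,
    k160),(k3,k164),(k9,k164),(k0,k165),(k6,k165),(k1,k171),(k2,k188),(k5,k192),(k8,(nat_lit 200)),(k11,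
    (nat_lit 200))],[(k1,k129),(k6,k129),(k0,k149),(k8,k164),(k11,k164),(k7,k165),(k2,k172),(k5,k174),(k4,k178),(k3,
    k180),(k9,(nat_lit 200)),(k10,(nat_lit 200))],[(k1,k129),(k6,k129),(k0,k159),(k7,k161),(k8,k164),(k11,k164),(k2,
    k174),(k4,k174),(k5,k176),(k3,k190),(k9,(nat_lit 200)),(k10,(nat_lit 200))],[(k0,k147),(k7,k151),(k9,k152),(k10,
    k152),(k4,k156),(k6,k159),(k1,k165),(k3,k168),(k5,k168),(k2,k184),(k8,(nat_lit 200)),(k11,(nat_lit 200))]]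
    [[k2,k0,k0,k0,k1,k0],[k2,k0,k0,k0,k0,k1],[k1,k1,k0,k0,k1,k0],[k1,k1,k0,k0,k0,k1],[k1,k0,k1,k0,k0,k1],[k1,k0,k1,k0,
    k1,k0],[k1,k0,k0,k1,k1,k0],[k1,k0,k0,k1,k0,k1],[k1,k0,k0,k0,k2,k0],[k1,k0,k0,k0,k1,k1],[k1,k0,k0,k0,k0,k2],[k0,k1,
    k0,k2,k0,k0],[k0,k1,k0,k1,k1,k0],[k0,k1,k0,k1,k0,k1],[k0,k1,k0,k0,k1,k1],[k0,k0,k1,k1,k1,k0],[k0,k0,k1,k1,k0,k1],
    [k0,k0,k1,k0,k1,k1],[k0,k0,k1,k0,k0,k2],[k0,k0,k0,k2,k1,k0],[k0,k0,k0,k2,k0,k1],[k0,k0,k0,k1,k2,k0],[k0,k0,k0,k1,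
    k1,k1],[k0,k0,k0,k1,k0,k2]]
    [.ref k25 k0 [(z1,[z1,z1]),(z1,[z0,z0,z1]),(z2,[y1,z2,z0,z3]),(z2,[y3,z6,z0,z0,z1]),(z1,[z1,y2])],
    .ref k25 k0 [(z4,[z6,z6,z2,z3,z1,y6]),(z1,[z0,z0,z1]),(z8,[y6,z6,y2,z9,y1,z6]),(z8,[y18,z18,y6,y9,z1,z18]),(z4,
    [z6,y6,z2,z3,z1,y6])],.ref k25 k0 [(z2,[z3,z3,y1]),(z1,[z0,z0,z1]),(z4,[y3,z3,z1,z6]),(z4,[y9,z9,z3,z0,z2]),(z2,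
    [z3,y3,y1])],.ref k25 k0 [(z2,[z6,z6,z0,z3,z1,y6]),(z1,[z0,z0,z1]),(z4,[y6,z0,z0,z3,y1,z6]),(z4,[y18,z0,z0,y9,y1,
    z18]),(z2,[z6,z0,z0,z3,z1,y6])],.ref k25 k0 [(z1,[z6,z3,z2,z0,z1,y6]),(z1,[z0,z0,z1]),(z2,[y6,z0,y2,z3,y1,z6]),
    (z1,[y9,z0,y3,z0,y1,z9]),(z1,[z6,z0,z2,z0,z1,y6])],.ref k25 k0 [(z1,[z2,z1,z0,y1]),(z1,[z0,z0,z1]),(z1,[y1,z1,z0,
    z2]),(z2,[y6,z6,z0,z3,z1]),(z1,[z2,y2,z0,y1])],.ref k25 k0 [(z1,[z6,y3,z0,z0,y1]),(z1,[z0,z0,z1]),(z2,[y6,z6,z0,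
    z3,z1]),(z1,[y9,z9,z0,z0,z2]),(z1,[z6,y6,z0,z0,y1])],.ref k25 k0 [(z1,[y6,z3,y2,y3,z0,z6]),(z1,[z0,z0,z1]),(z1,
    [z3,z0,z1,z3,z0,y3]),(z2,[z18,z0,z6,z9,z1,y18]),(z1,[y6,z0,y2,y3,z0,z6])],.ref k25 k0 [(z1,[z1,z2]),(z1,[z0,z0,
    z1]),(z2,[y1,z1,z0,z3]),(z2,[y3,z3,z0,z0,z1]),(z1,[z1,y1])],.ref k25 k0 [(z4,[z6,z12,z2,z3,z1,y6]),(z1,[z0,z0,
    z1]),(z8,[y6,z0,y2,z9,y1,z6]),(z8,[y18,z0,y6,y9,z1,z18]),(z4,[z6,z0,z2,z3,z1,y6])],.ref k25 k0 [(z1,[z3,z6,z2,z3,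
    z1,y6]),(z1,[z0,z0,z1]),(z2,[y3,y3,y2,z0,y1,z6]),(z2,[y9,y9,y6,y9,y2,z18]),(z1,[z3,z3,z2,z3,z1,y6])],
    .ref k25 k0 [(z3,[y3,z9,z1,z0,z1]),(z1,[z0,z0,z1]),(z6,[z3,z0,y1,z9,y1]),(z2,[z3,z0,y1]),(z3,[y3,z0,z1,z0,z1])],
    .ref k25 k0 [(z1,[y6,z3,z2,z0,z1]),(z1,[z0,z0,z1]),(z2,[z6,z0,y2,z3,y1]),(z1,[z9,z0,y3,z0,y1]),(z1,[y6,z0,z2,z0,
    z1])],.ref k25 k0 [(z1,[y2,z1,z0,y1,z0,z2]),(z1,[z0,z0,z1]),(z1,[z1,z1,z0,z2,z0,y1]),(z2,[z6,z6,z0,z3,z1,y6]),(z1,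
    [y2,y2,z0,y1,z0,z2])],.ref k25 k0 [(z2,[z6,z12,z0,z3,z1,y6]),(z1,[z0,z0,z1]),(z4,[y6,y6,z0,z3,y1,z6]),(z4,[y18,
    y18,z0,y9,y1,z18]),(z2,[z6,z6,z0,z3,z1,y6])],.ref k25 k0 [(z2,[y6,z6,z0,z3,z1]),(z1,[z0,z0,z1]),(z4,[z6,z0,z0,z3,
    y1]),(z4,[z18,z0,z0,y9,y1]),(z2,[y6,z0,z0,z3,z1])],.ref k25 k0 [(z2,[y3,z3,y1,z0,z0,z3]),(z1,[z0,z0,z1]),(z4,[z3,
    z3,z1,z6,z0,y3]),(z4,[z9,z9,z3,z0,z2,y9]),(z2,[y3,y3,y1,z0,z0,z3])],.ref k25 k0 [(z1,[z6,z9,z2,z0,z1,y6]),(z1,[z0,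
    z0,z1]),(z2,[y6,y6,y2,z3,y1,z6]),(z1,[y9,y9,y3,z0,y1,z9]),(z1,[z6,z6,z2,z0,z1,y6])],.ref k25 k0 [(z1,[y6,y9,y4,y3,
    y2,z12]),(z1,[z0,z0,z1]),(z1,[z3,z6,z2,z3,z1,y6]),(z2,[z18,z36,z12,z9,z7,y36]),(z1,[y6,y12,y4,y3,y2,z12])],
    .ref k25 k0 [(z2,[y3,z6,z0,z0,z1]),(z1,[z0,z0,z1]),(z4,[z3,z0,z0,z6,y1]),(z4,[z9,z0,z0,z0,y1]),(z2,[y3,z0,z0,z0,
    z1])],.ref k25 k0 [(z6,[y6,z12,y2,y3,z1,z6]),(z1,[z0,z0,z1]),(z12,[z6,z6,z2,z21,y1,y6]),(z4,[z6,z6,z2,z3,z1,y6]),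
    (z6,[y6,y6,y2,y3,z1,z6])],.ref k25 k0 [(z1,[z6,z3,z0,z0,y1]),(z1,[z0,z0,z1]),(z2,[y6,z0,z0,z3,z1]),(z1,[y9,z0,z0,
    z0,z2]),(z1,[z6,z0,z0,z0,y1])],.ref k25 k0 [(z1,[y6,y3,y2,y3,z0,z6]),(z1,[z0,z0,z1]),(z1,[z3,z3,z1,z3,z0,y3]),(z2,
    [z18,z18,z6,z9,z1,y18]),(z1,[y6,y6,y2,y3,z0,z6])],.ref k25 k0 [(z3,[y6,y3,y4,y6,y1,z12]),(z1,[z0,z0,z1]),(z6,[z6,
    z12,z4,z15,z1,y12]),(z1,[z3,z6,z2,z3,z1,y6]),(z3,[y6,y12,y4,y6,y1,z12])]],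
    .base (.leafM k3 [k1,k2,k3,k4,k5,k0] [(z1,[y1,y1,z0,y1,z1])] [])]

theorem hB6_171_19 : blkB [0, 0, 0, 0, 0, 0] [] sp6 hS6_171 (pcls (n := 6) [0, 0, 0, 0, 0, 0]) hD6_171 560 19 hN6_171_19 = true := by
  decide +kernel

/-- nodes 240 to 251 -/
noncomputable def hN6_171_20 : List HM :=
  [.lp k0 [(nat_lit 332),(nat_lit 272),(nat_lit 344),(nat_lit 336),(nat_lit 306),(nat_lit 328)] [k6,k6,k36,k36,k0,k0,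
    k4,k4,k19,k19,k8,k8] k0 [[k0,k0,k0,k12,k0,k12,k12,k0,k0,k0,k12,k20],[k0,k0,k0,k0,k0,k0,k0,k0,k2,k12,k0,k0],[k0,
    k12,k0,k12,k0,k12,k8,k0,k0,k0,k0,k0],[k0,k0,k0,k0,k0,k0,k0,k0,k0,k10,k24,k8],[k0,k12,k0,k12,k0,k0,k0,k0,k0,k0,k0,
    k20],[k0,k0,k0,k0,k0,k0,k0,k0,k14,k0,k0,k0],[k0,k0,k0,k0,k0,k0,k0,k20,k40,k36,k0,k0],[k0,k12,k0,k8,k0,k0,k0,k0,k0,
    k0,k0,k20],[k12,k0,k10,k0,k0,k0,k0,k36,k0,k0,k10,k0],[k2,k0,k0,k0,k14,k0,k0,k40,k4,k0,k0,k0],[k0,k20,k8,k0,k0,k20,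
    k20,k0,k0,k0,k0,k0],[k0,k12,k24,k0,k0,k0,k0,k0,k0,k10,k24,k0]] (nat_lit 960) k5
    [[(k1,(nat_lit 308)),(k8,(nat_lit 309)),(k2,(nat_lit 310)),(k5,(nat_lit 314)),(k9,(nat_lit 319)),(k0,
    (nat_lit 320)),(k3,(nat_lit 322)),(k10,(nat_lit 330)),(k11,(nat_lit 330)),(k4,(nat_lit 338)),(k6,(nat_lit 354)),
    (k7,(nat_lit 354))],[(k2,(nat_lit 290)),(k3,(nat_lit 302)),(k9,(nat_lit 307)),(k10,(nat_lit 310)),(k1,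
    (nat_lit 320)),(k8,(nat_lit 321)),(k4,(nat_lit 326)),(k0,(nat_lit 332)),(k6,(nat_lit 334)),(k7,(nat_lit 334)),(k5,
    (nat_lit 338)),(k11,(nat_lit 342))],[(k2,(nat_lit 272)),(k3,(nat_lit 272)),(k8,(nat_lit 277)),(k9,(nat_lit 289)),
    (k11,(nat_lit 298)),(k0,(nat_lit 302)),(k4,(nat_lit 308)),(k10,(nat_lit 312)),(k6,(nat_lit 316)),(k7,
    (nat_lit 316)),(k5,(nat_lit 320)),(k1,(nat_lit 322))],[(k2,(nat_lit 260)),(k3,(nat_lit 272)),(k9,(nat_lit 281)),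
    (k8,(nat_lit 289)),(k0,(nat_lit 290)),(k4,(nat_lit 296)),(k6,(nat_lit 304)),(k7,(nat_lit 304)),(k5,(nat_lit 308)),
    (k1,(nat_lit 310)),(k11,(nat_lit 310)),(k10,(nat_lit 324))],[(k2,(nat_lit 308)),(k1,(nat_lit 314)),(k8,
    (nat_lit 315)),(k3,(nat_lit 320)),(k9,(nat_lit 325)),(k10,(nat_lit 328)),(k11,(nat_lit 336)),(k0,(nat_lit 338)),
    (k4,(nat_lit 344)),(k6,(nat_lit 348)),(k7,(nat_lit 352)),(k5,(nat_lit 356))],[(k2,(nat_lit 296)),(k3,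
    (nat_lit 308)),(k10,(nat_lit 316)),(k9,(nat_lit 325)),(k0,(nat_lit 326)),(k11,(nat_lit 336)),(k1,(nat_lit 338)),
    (k8,(nat_lit 339)),(k6,(nat_lit 340)),(k7,(nat_lit 340)),(k4,(nat_lit 344)),(k5,(nat_lit 344))],[(k2,
    (nat_lit 304)),(k3,(nat_lit 316)),(k11,(nat_lit 318)),(k8,(nat_lit 321)),(k9,(nat_lit 321)),(k10,(nat_lit 332)),
    (k0,(nat_lit 334)),(k6,(nat_lit 336)),(k7,(nat_lit 336)),(k4,(nat_lit 340)),(k5,(nat_lit 352)),(k1,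
    (nat_lit 354))],[(k8,(nat_lit 285)),(k11,(nat_lit 292)),(k2,(nat_lit 304)),(k3,(nat_lit 316)),(k6,(nat_lit 316)),
    (k9,(nat_lit 321)),(k10,(nat_lit 332)),(k0,(nat_lit 334)),(k7,(nat_lit 336)),(k4,(nat_lit 340)),(k5,
    (nat_lit 348)),(k1,(nat_lit 354))],[(k2,(nat_lit 281)),(k3,(nat_lit 289)),(k10,(nat_lit 297)),(k0,(nat_lit 307)),
    (k1,(nat_lit 319)),(k6,(nat_lit 321)),(k7,(nat_lit 321)),(k4,(nat_lit 325)),(k5,(nat_lit 325)),(k9,(nat_lit 326)),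
    (k8,(nat_lit 346)),(k11,(nat_lit 353))],[(k3,(nat_lit 277)),(k6,(nat_lit 285)),(k2,(nat_lit 289)),(k1,
    (nat_lit 309)),(k8,(nat_lit 310)),(k5,(nat_lit 315)),(k10,(nat_lit 317)),(k11,(nat_lit 317)),(k0,(nat_lit 321)),
    (k7,(nat_lit 321)),(k4,(nat_lit 339)),(k9,(nat_lit 346))],[(k6,(nat_lit 292)),(k3,(nat_lit 298)),(k2,
    (nat_lit 310)),(k8,(nat_lit 317)),(k7,(nat_lit 318)),(k11,(nat_lit 324)),(k1,(nat_lit 330)),(k4,(nat_lit 336)),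
    (k5,(nat_lit 336)),(k10,(nat_lit 338)),(k0,(nat_lit 342)),(k9,(nat_lit 353))],[(k9,(nat_lit 297)),(k0,
    (nat_lit 310)),(k3,(nat_lit 312)),(k4,(nat_lit 316)),(k8,(nat_lit 317)),(k2,(nat_lit 324)),(k5,(nat_lit 328)),(k1,
    (nat_lit 330)),(k6,(nat_lit 332)),(k7,(nat_lit 332)),(k11,(nat_lit 338)),(k10,(nat_lit 352))]]
    [[k2,k1,k0,k0,k0,k0],[k2,k0,k0,k0,k1,k0],[k1,k2,k0,k0,k0,k0],[k1,k1,k1,k0,k0,k0],[k1,k1,k0,k0,k1,k0],[k1,k1,k0,k0,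
    k0,k1],[k1,k0,k0,k1,k1,k0],[k1,k0,k0,k1,k0,k1],[k1,k0,k0,k0,k2,k0],[k1,k0,k0,k0,k1,k1],[k0,k3,k0,k0,k0,k0],[k0,k2,
    k1,k0,k0,k0],[k0,k2,k0,k1,k0,k0],[k0,k2,k0,k0,k1,k0],[k0,k2,k0,k0,k0,k1],[k0,k1,k1,k0,k1,k0],[k0,k1,k1,k0,k0,k1],
    [k0,k1,k0,k2,k0,k0],[k0,k1,k0,k1,k1,k0],[k0,k1,k0,k1,k0,k1],[k0,k1,k0,k0,k2,k0],[k0,k1,k0,k0,k1,k1],[k0,k0,k1,k0,
    k1,k1],[k0,k0,k1,k1,k1,k0],[k0,k0,k0,k2,k1,k0],[k0,k0,k0,k1,k2,k0],[k0,k0,k0,k1,k1,k1],[k0,k0,k0,k0,k1,k2]]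
    [.ref k25 k0 [(z8,[z15,y2,y15]),(z4,[y3,z2,z15]),(z4,[y3,z2,z3,z12]),(z4,[y3,z2,z3,z0,z12]),(z1,[z0,y1,y3,y3,y3,
    z3])],.ref k25 k0 [(z2,[z3,z1,z3,z3,z3,y3]),(z5,[y3,z1,z12,y3,y3,z3]),(z5,[y3,z1,y3,z12,y3,z3]),(z5,[y3,z1,y3,y3,
    z12,z3]),(z1,[z0,y1,y3,y3,y3,z3])],.ref k25 k0 [(z1,[z15,y4,y30]),(z1,[y6,z2,z15]),(z1,[y6,z2,z12,z3]),(z1,[y6,z2,
    z12,z0,z3]),(z1,[z0,y1,y3,y3,y3,z3])],.ref k25 k0 [(z1,[z15,y4,y15,y15]),(z1,[y6,z2,z9,z6]),(z1,[y6,z2,z6,z9]),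
    (z1,[y6,z2,z6,z6,z3]),(z1,[z0,y1,y3,y3,y3,z3])],.ref k25 k0 [(z1,[z5,z1,z0,z5,z5,y5]),(z1,[y2,z0,z3,y2,y2,z2]),
    (z1,[y2,z0,z0,z1,y2,z2]),(z1,[y2,z0,z0,y2,z1,z2]),(z1,[z0,y1,y3,y3,y3,z3])],.ref k25 k0 [(z4,[z15,y1,y15]),(z2,
    [y3,z1,z9]),(z2,[y3,z1,z3,z6]),(z2,[y3,z1,z3,z0,z6]),(z1,[z0,y1,y3,y3,y3,z3])],.ref k25 k0 [(z1,[z5,z1,z5,z5,z0,
    y5]),(z1,[y2,z0,z1,y2,z0,z2]),(z1,[y2,z0,y2,z1,z0,z2]),(z1,[y2,z0,y2,y2,z3,z2]),(z1,[z0,y1,y3,y3,y3,z3])],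
    .ref k25 k0 [(z4,[z15,y1,z0,z0,y15]),(z2,[y3,z1,z6,z0,z3]),(z2,[y3,z1,z0,z6,z3]),(z2,[y3,z1,z0,z0,z9]),(z1,[z0,y1,
    y3,y3,y3,z3])],.ref k25 k0 [(z1,[z3,z2,z6,z6,z6,y6]),(z5,[y6,y2,z3,y12,y12,z12]),(z5,[y6,y2,y12,z3,y12,z12]),(z5,
    [y6,y2,y12,y12,z3,z12]),(z1,[z0,y1,y3,y3,y3,z3])],.ref k25 k0 [(z2,[z5,z2,z5,z5,z5,y5]),(z1,[y1,z0,z2,y1,y1,z1]),
    (z1,[y1,z0,y1,z2,y1,z1]),(z1,[y1,z0,y1,y1,z2,z1]),(z1,[z0,y1,y3,y3,y3,z3])],.ref k25 k0 [(z2,[y5,z2,z15]),(z1,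
    [z1]),(z1,[z1,z0,y3,z3]),(z1,[z1,z0,y3,z0,z3]),(z1,[z0,y1,y3,y3,y3,z3])],.ref k25 k0 [(z2,[y5,z2,z10,z5]),(z1,[z1,
    z0,z1,y1]),(z1,[z1,z0,y2,z2]),(z1,[z1,z0,y2,y1,z3]),(z1,[z0,y1,y3,y3,y3,z3])],.ref k25 k0 [(z2,[y5,z2,z10,z0,z5]),
    (z1,[z1,z0,z1,z0,y1]),(z1,[z1,z0,y2,z3,y1]),(z1,[z1,z0,y2,z0,z2]),(z1,[z0,y1,y3,y3,y3,z3])],.ref k25 k0 [(z4,[y15,
    y1,z15,y15,y15,z15]),(z2,[z3,z1,z3,z3,z3,y3]),(z2,[z3,z1,y3,z9,z3,y3]),(z2,[z3,z1,y3,z3,z9,y3]),(z1,[z0,y1,y3,y3,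
    y3,z3])],.ref k25 k0 [(z1,[y5,z1,z10]),(z1,[z2,z0,y1]),(z1,[z2,z0,y4,z3]),(z1,[z2,z0,y4,z0,z3]),(z1,[z0,y1,y3,y3,
    y3,z3])],.ref k25 k0 [(z4,[y15,y1,z0,z0,y15,z15]),(z2,[z3,z1,z6,z0,z3,y3]),(z2,[z3,z1,z0,z6,z3,y3]),(z2,[z3,z1,z0,
    z0,z9,y3]),(z1,[z0,y1,y3,y3,y3,z3])],.ref k25 k0 [(z1,[y5,z1,z5,z5]),(z1,[z2,z0,z1,y2]),(z1,[z2,z0,y2,z1]),(z1,
    [z2,z0,y2,y2,z3]),(z1,[z0,y1,y3,y3,y3,z3])],.ref k25 k0 [(z2,[y5,z2,z5,z0,z10]),(z1,[z1,z0,z2,z0,y2]),(z1,[z1,z0,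
    y1,z3,y2]),(z1,[z1,z0,y1,z0,z1]),(z1,[z0,y1,y3,y3,y3,z3])],.ref k25 k0 [(z4,[y15,y1,z0,y15,z0,z15]),(z2,[z3,z1,z6,
    z3,z0,y3]),(z2,[z3,z1,z0,z9,z0,y3]),(z2,[z3,z1,z0,z3,z6,y3]),(z1,[z0,y1,y3,y3,y3,z3])],.ref k25 k0 [(z1,[y5,z1,z5,
    z0,z5]),(z1,[z2,z0,z1,z0,y2]),(z1,[z2,z0,y2,z3,y2]),(z1,[z2,z0,y2,z0,z1]),(z1,[z0,y1,y3,y3,y3,z3])],
    .ref k25 k0 [(z2,[y15,y8,y15,y30,y30,z30]),(z1,[z3,z2,z6,z6,z6,y6]),(z1,[z3,z2,z3,z9,z6,y6]),(z1,[z3,z2,z3,z6,z9,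
    y6]),(z1,[z0,y1,y3,y3,y3,z3])],.ref k25 k0 [(z1,[y15,y4,z0,y15,y15,z15]),(z1,[z6,z2,z3,z6,z6,y6]),(z1,[z6,z2,z0,
    z9,z6,y6]),(z1,[z6,z2,z0,z6,z9,y6]),(z1,[z0,y1,y3,y3,y3,z3])],.ref k25 k0 [(z1,[y15,y4,y15,z0,y15,z15]),(z1,[z6,
    z2,z9,z0,z6,y6]),(z1,[z6,z2,z6,z3,z6,y6]),(z1,[z6,z2,z6,z0,z9,y6]),(z1,[z0,y1,y3,y3,y3,z3])],.ref k25 k0 [(z4,
    [y15,y1,y15,z0,z0,z15]),(z2,[z3,z1,z9,z0,z0,y3]),(z2,[z3,z1,z3,z6,z0,y3]),(z2,[z3,z1,z3,z0,z6,y3]),(z1,[z0,y1,y3,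
    y3,y3,z3])],.ref k25 k0 [(z4,[y15,y1,y15,y15,z15,z15]),(z2,[z3,z1,z9,z3,y3,y3]),(z2,[z3,z1,z3,z9,y3,y3]),(z2,[z3,
    z1,z3,z3,z3,y3]),(z1,[z0,y1,y3,y3,y3,z3])],.ref k25 k0 [(z2,[y15,y8,y30,y30,y15,z30]),(z1,[z3,z2,z9,z6,z3,y6]),
    (z1,[z3,z2,z6,z9,z3,y6]),(z1,[z3,z2,z6,z6,z6,y6]),(z1,[z0,y1,y3,y3,y3,z3])],.ref k25 k0 [(z1,[y15,y4,y15,y15,z0,
    z15]),(z1,[z6,z2,z9,z6,z0,y6]),(z1,[z6,z2,z6,z9,z0,y6]),(z1,[z6,z2,z6,z6,z3,y6]),(z1,[z0,y1,y3,y3,y3,z3])],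
    .ref k25 k0 [(z2,[z15,z7,z15,z15,z15,y15]),(z1,[y3,y1,z0,y3,y3,z3]),(z1,[y3,y1,y3,z0,y3,z3]),(z1,[y3,y1,y3,y3,z0,
    z3]),(z1,[z0,y1,y3,y3,y3,z3])]],
    .lp k0 [(nat_lit 324),(nat_lit 286),(nat_lit 364),(nat_lit 310),(nat_lit 326),(nat_lit 308)] [k20,k20,k39,k39,k0,
    k0,k27,k27,k19,k19,k28,k28] k0 [[k0,k0,k54,k0,k0,k0,k0,k0,k0,k0,k0,k0],[k6,k0,k0,k0,k0,k0,k0,k0,k0,k0,k42,k40],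
    [k0,k0,k0,k0,k0,k0,k0,k0,k0,k0,k2,k16],[k0,k54,k54,k0,k0,k0,k0,k0,k0,k0,k0,k0],[k0,k0,k0,k0,k0,k54,k16,k0,k0,k16,
    k38,k0],[k0,k0,k0,k0,k0,k0,k16,k0,k0,k18,k0,k0],[k0,k0,k0,k0,k0,k0,k0,k22,k22,k0,k0,k0],[k0,k0,k0,k0,k16,k16,k0,
    k0,k0,k0,k0,k16],[k0,k0,k0,k0,k18,k16,k0,k0,k0,k0,k20,k22],[k0,k0,k0,k0,k0,k0,k0,k22,k22,k0,k0,k0],[k40,k0,k0,k16,
    k0,k0,k16,k0,k0,k22,k0,k2],[k42,k0,k0,k2,k0,k38,k0,k0,k0,k20,k0,k0]] (nat_lit 960) k5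
    [[(k3,(nat_lit 263)),(k2,(nat_lit 303)),(k8,(nat_lit 305)),(k4,(nat_lit 306)),(k10,(nat_lit 316)),(k7,
    (nat_lit 317)),(k9,(nat_lit 325)),(k1,(nat_lit 326)),(k6,(nat_lit 333)),(k11,(nat_lit 338)),(k5,(nat_lit 360)),
    (k0,(nat_lit 364))],[(k5,(nat_lit 290)),(k2,(nat_lit 305)),(k3,(nat_lit 305)),(k11,(nat_lit 316)),(k6,
    (nat_lit 317)),(k7,(nat_lit 317)),(k8,(nat_lit 325)),(k9,(nat_lit 325)),(k0,(nat_lit 330)),(k4,(nat_lit 344)),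
    (k10,(nat_lit 358)),(k1,(nat_lit 364))],[(k10,(nat_lit 257)),(k1,(nat_lit 263)),(k3,(nat_lit 280)),(k11,
    (nat_lit 297)),(k6,(nat_lit 298)),(k7,(nat_lit 298)),(k0,(nat_lit 305)),(k8,(nat_lit 306)),(k9,(nat_lit 306)),(k4,
    (nat_lit 325)),(k5,(nat_lit 325)),(k2,(nat_lit 340))],[(k10,(nat_lit 281)),(k11,(nat_lit 297)),(k6,(nat_lit 298)),
    (k7,(nat_lit 298)),(k1,(nat_lit 303)),(k0,(nat_lit 305)),(k8,(nat_lit 306)),(k9,(nat_lit 306)),(k4,(nat_lit 325)),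
    (k5,(nat_lit 325)),(k2,(nat_lit 340)),(k3,(nat_lit 340))],[(k0,(nat_lit 290)),(k5,(nat_lit 310)),(k2,
    (nat_lit 325)),(k3,(nat_lit 325)),(k11,(nat_lit 336)),(k6,(nat_lit 337)),(k7,(nat_lit 337)),(k10,(nat_lit 338)),
    (k8,(nat_lit 345)),(k9,(nat_lit 345)),(k1,(nat_lit 360)),(k4,(nat_lit 364))],[(k1,(nat_lit 306)),(k4,
    (nat_lit 310)),(k2,(nat_lit 325)),(k3,(nat_lit 325)),(k8,(nat_lit 329)),(k9,(nat_lit 329)),(k10,(nat_lit 336)),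
    (k7,(nat_lit 337)),(k0,(nat_lit 344)),(k6,(nat_lit 353)),(k11,(nat_lit 354)),(k5,(nat_lit 364))],[(k2,
    (nat_lit 298)),(k3,(nat_lit 298)),(k8,(nat_lit 300)),(k9,(nat_lit 302)),(k0,(nat_lit 317)),(k1,(nat_lit 317)),
    (k11,(nat_lit 325)),(k6,(nat_lit 326)),(k4,(nat_lit 337)),(k5,(nat_lit 337)),(k10,(nat_lit 347)),(k7,
    (nat_lit 364))],[(k11,(nat_lit 287)),(k6,(nat_lit 288)),(k2,(nat_lit 298)),(k3,(nat_lit 298)),(k10,(nat_lit 309)),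
    (k0,(nat_lit 317)),(k8,(nat_lit 318)),(k9,(nat_lit 318)),(k7,(nat_lit 326)),(k1,(nat_lit 333)),(k5,(nat_lit 337)),
    (k4,(nat_lit 353))],[(k10,(nat_lit 301)),(k7,(nat_lit 302)),(k2,(nat_lit 306)),(k3,(nat_lit 306)),(k11,
    (nat_lit 317)),(k6,(nat_lit 318)),(k0,(nat_lit 325)),(k1,(nat_lit 325)),(k4,(nat_lit 329)),(k5,(nat_lit 345)),(k8,
    (nat_lit 348)),(k9,(nat_lit 348))],[(k10,(nat_lit 295)),(k7,(nat_lit 300)),(k1,(nat_lit 305)),(k2,(nat_lit 306)),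
    (k3,(nat_lit 306)),(k11,(nat_lit 317)),(k6,(nat_lit 318)),(k0,(nat_lit 325)),(k4,(nat_lit 329)),(k5,
    (nat_lit 345)),(k8,(nat_lit 348)),(k9,(nat_lit 348))],[(k11,(nat_lit 286)),(k6,(nat_lit 287)),(k2,(nat_lit 297)),
    (k3,(nat_lit 297)),(k0,(nat_lit 316)),(k8,(nat_lit 317)),(k9,(nat_lit 317)),(k7,(nat_lit 325)),(k10,
    (nat_lit 328)),(k5,(nat_lit 336)),(k1,(nat_lit 338)),(k4,(nat_lit 354))],[(k3,(nat_lit 257)),(k2,(nat_lit 281)),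
    (k8,(nat_lit 295)),(k9,(nat_lit 301)),(k10,(nat_lit 306)),(k6,(nat_lit 309)),(k1,(nat_lit 316)),(k11,
    (nat_lit 328)),(k4,(nat_lit 336)),(k5,(nat_lit 338)),(k7,(nat_lit 347)),(k0,(nat_lit 358))]]
    [[k2,k1,k0,k0,k0,k0],[k1,k2,k0,k0,k0,k0],[k1,k1,k1,k0,k0,k0],[k1,k1,k0,k1,k0,k0],[k1,k1,k0,k0,k1,k0],[k1,k1,k0,k0,
    k0,k1],[k1,k0,k0,k1,k1,k0],[k1,k0,k0,k2,k0,k0],[k1,k0,k0,k1,k0,k1],[k1,k0,k1,k0,k1,k0],[k1,k0,k0,k0,k1,k1],[k0,k2,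
    k0,k1,k0,k0],[k0,k2,k0,k0,k1,k0],[k0,k2,k0,k0,k0,k1],[k0,k2,k1,k0,k0,k0],[k0,k1,k1,k0,k0,k1],[k0,k1,k0,k2,k0,k0],
    [k0,k1,k0,k1,k1,k0],[k0,k1,k0,k1,k0,k1],[k0,k1,k0,k0,k1,k1],[k0,k1,k0,k0,k0,k2],[k0,k0,k0,k2,k1,k0],[k0,k0,k0,k1,
    k1,k1],[k0,k0,k0,k1,k0,k2],[k0,k0,k0,k0,k1,k2],[k0,k0,k0,k0,k0,k3]]
    [.ref k25 k0 [(z2,[z3,z0,y1]),(z1,[z0,z0,z1]),(z4,[y3,z6,z1,z12]),(z8,[y21,z42,z7,z0,z8]),(z2,[z3,y12,y3,y6,y2,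
    z6])],.ref k25 k0 [(z1,[z3,z0,y2]),(z1,[z0,z0,z1]),(z2,[y3,z3,z2,z6]),(z4,[y21,z21,z14,z0,z4]),(z1,[z3,y6,y3,y3,
    y1,z3])],.ref k25 k0 [(z1,[z6,y3,y2,y6]),(z1,[z0,z0,z1]),(z1,[y3,z3,z1,z6]),(z2,[y21,z21,z7,z21,z2]),(z1,[z6,y9,
    y3,y9,y1,z3])],.ref k25 k0 [(z3,[y12,z21,z4,z0,z4]),(z1,[z0,z0,z1]),(z3,[z6,y6,y2,z9,y2]),(z3,[z21,y21,y7,z0,y4]),
    (z3,[y12,z3,z1,y9,z1,z9])],.ref k25 k0 [(z2,[z3,z6,z0,z3,z1,y3]),(z1,[z0,z0,z1]),(z4,[y3,z0,z0,z9,y1,z3]),(z8,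
    [y21,z0,z0,y21,z1,z21]),(z2,[z3,y6,y2,y3,y1,z3])],.ref k25 k0 [(z5,[z12,z3,y4]),(z1,[z0,z0,z1]),(z5,[y6,z6,z2,
    z15]),(z5,[y21,z21,z7,z0,z5]),(z5,[z12,y27,y9,y15,y5,z15])],.ref k25 k0 [(z1,[z12,z3,z4,z12,z0,y12]),(z1,[z0,z0,
    z1]),(z1,[y6,z0,y2,y3,z0,z6]),(z1,[y21,z0,y7,y21,z1,z21]),(z1,[z12,y3,z3,z9,y1,y9])],.ref k25 k0 [(z5,[y6,z21,z0,
    z0,z4]),(z1,[z0,z0,z1]),(z5,[z3,y3,z0,z15,y2]),(z10,[z21,y21,z0,z0,y4]),(z5,[y6,y9,y5,y15,y1,z15])],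
    .ref k25 k0 [(z1,[y6,z9,z0,z0,z2]),(z1,[z0,z0,z1]),(z1,[z3,y3,z0,z3,y1]),(z2,[z21,y21,z0,z0,y5]),(z1,[y6,z3,y1,y3,
    z1,z3])],.ref k25 k0 [(z3,[z6,z9,z2,z0,z2,y6]),(z1,[z0,z0,z1]),(z3,[y3,z0,y1,z9,y1,z3]),(z6,[y21,z0,y7,z0,y1,
    z21]),(z3,[z6,y9,y1,y9,y1,z3])],.ref k25 k0 [(z9,[z12,z27,z4,z12,z4,y12]),(z1,[z0,z0,z1]),(z9,[y6,z0,y2,z21,y2,
    z6]),(z9,[y21,z0,y7,y21,z2,z21]),(z9,[z12,y27,y5,y15,y5,z15])],.ref k25 k0 [(z7,[y12,z21,z8,z0,z4]),(z1,[z0,z0,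
    z1]),(z7,[z6,z0,y4,z21,y2]),(z1,[z3,z0,y2]),(z7,[y12,y21,z1,y21,y3,z21])],.ref k25 k0 [(z1,[z3,z6,y1,z3,z1,y3]),
    (z1,[z0,z0,z1]),(z2,[y3,y3,z1,z3,y1,z3]),(z4,[y21,y21,z7,y21,y3,z21]),(z1,[z3,z0,y2])],.ref k25 k0 [(z1,[z12,z3,
    y8]),(z1,[z0,z0,z1]),(z1,[y6,z0,z4,z3]),(z1,[y21,z0,z14,z0,z1]),(z1,[z12,y3,y9,y3,y1,z3])],.ref k25 k0 [(z1,[y6,
    z3,z4,z6]),(z1,[z0,z0,z1]),(z1,[z3,z0,y2]),(z2,[z21,z0,y14,y21,z2]),(z1,[y6,y3,z3,z3,y1,z3])],.ref k25 k0 [(z1,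
    [y12,z3,z4,z12]),(z1,[z0,z0,z1]),(z1,[z6,z0,y2,y3]),(z1,[z21,z0,y7,y21,z1]),(z1,[y12,y3,z3,z9,y1,z3])],
    .ref k25 k0 [(z7,[y6,z21,z2,z0,z4]),(z1,[z0,z0,z1]),(z7,[z3,z0,y1,z21,y2]),(z2,[z3,z0,y1]),(z7,[y6,y21,y5,y21,y3,
    z21])],.ref k25 k0 [(z1,[y4,y1,z0,y4,z0,z4]),(z1,[z0,z0,z1]),(z1,[z2,z2,z0,z5,z0,y2]),(z1,[z7,z7,z0,z7,z1,y7]),
    (z1,[y4,y7,y1,y7,y1,z7])],.ref k25 k0 [(z3,[y6,z9,z2,z0,z2]),(z1,[z0,z0,z1]),(z3,[z3,z0,y1,z9,y1]),(z6,[z21,z0,y7,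
    z0,y1]),(z3,[y6,y9,y1,y9,y1,z9])],.ref k25 k0 [(z5,[z12,z27,z0,z12,z4,y12]),(z1,[z0,z0,z1]),(z5,[y6,y6,z0,z9,y2,
    z6]),(z5,[y21,y21,z0,y21,y2,z21]),(z5,[z12,y3,y5,y3,y1,z3])],.ref k25 k0 [(z1,[z6,z3,y2]),(z1,[z0,z0,z1]),(z1,[y3,
    z0,z1,z3]),(z2,[y21,z0,z7,z0,z2]),(z1,[z6,y3,y3,y3,y1,z3])],.ref k25 k0 [(z5,[y6,z9,y2,y6,z2,z6]),(z1,[z0,z0,z1]),
    (z5,[z3,z3,z1,z18,y1,y3]),(z10,[z21,z21,z7,z21,z3,y21]),(z5,[y6,y21,y7,y21,y3,z21])],.ref k25 k0 [(z1,[y6,y3,y2,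
    y6,z0,z6]),(z1,[z0,z0,z1]),(z1,[z3,z3,z1,z6,z0,y3]),(z2,[z21,z21,z7,z21,z2,y21]),(z1,[y6,y9,y3,y9,y1,z9])],
    .ref k25 k0 [(z5,[y12,z15,z0,z0,z4]),(z1,[z0,z0,z1]),(z5,[z6,z0,z0,z15,y2]),(z5,[z21,z0,z0,z0,y2]),(z5,[y12,y15,
    y5,y15,y1,z15])],.ref k25 k0 [(z3,[z6,z15,z2,z6,z2,y6]),(z1,[z0,z0,z1]),(z3,[y3,y3,y1,z6,y1,z3]),(z6,[y21,y21,y7,
    y21,y1,z21]),(z3,[z6,y3,y1,y3,y1,z3])],.ref k25 k0 [(z1,[z4,z3]),(z1,[z0,z0,z1]),(z1,[y2,z0,z0,z3]),(z1,[y7,z0,z0,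
    z0,z1]),(z1,[z4,y3,y1,y3,y1,z3])]],
    .lp k0 [(nat_lit 332),(nat_lit 272),(nat_lit 344),(nat_lit 336),(nat_lit 306),(nat_lit 328)] [k6,k6,k36,k36,k0,k0,
    k4,k4,k19,k19,k8,k8] k0 [[k0,k0,k0,k12,k0,k12,k12,k0,k0,k0,k12,k20],[k0,k0,k0,k0,k0,k0,k0,k0,k2,k12,k0,k0],[k0,
    k12,k0,k12,k0,k12,k8,k0,k0,k0,k0,k0],[k0,k0,k0,k0,k0,k0,k0,k0,k0,k10,k24,k8],[k0,k12,k0,k12,k0,k0,k0,k0,k0,k0,k0,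
    k20],[k0,k0,k0,k0,k0,k0,k0,k0,k14,k0,k0,k0],[k0,k0,k0,k0,k0,k0,k0,k20,k40,k36,k0,k0],[k0,k12,k0,k8,k0,k0,k0,k0,k0,
    k0,k0,k20],[k12,k0,k10,k0,k0,k0,k0,k36,k0,k0,k10,k0],[k2,k0,k0,k0,k14,k0,k0,k40,k4,k0,k0,k0],[k0,k20,k8,k0,k0,k20,
    k20,k0,k0,k0,k0,k0],[k0,k12,k24,k0,k0,k0,k0,k0,k0,k10,k24,k0]] (nat_lit 960) k5
    [[(k1,(nat_lit 308)),(k8,(nat_lit 309)),(k2,(nat_lit 310)),(k5,(nat_lit 314)),(k9,(nat_lit 319)),(k0,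
    (nat_lit 320)),(k3,(nat_lit 322)),(k10,(nat_lit 330)),(k11,(nat_lit 330)),(k4,(nat_lit 338)),(k6,(nat_lit 354)),
    (k7,(nat_lit 354))],[(k2,(nat_lit 290)),(k3,(nat_lit 302)),(k9,(nat_lit 307)),(k10,(nat_lit 310)),(k1,
    (nat_lit 320)),(k8,(nat_lit 321)),(k4,(nat_lit 326)),(k0,(nat_lit 332)),(k6,(nat_lit 334)),(k7,(nat_lit 334)),(k5,
    (nat_lit 338)),(k11,(nat_lit 342))],[(k2,(nat_lit 272)),(k3,(nat_lit 272)),(k8,(nat_lit 277)),(k9,(nat_lit 289)),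
    (k11,(nat_lit 298)),(k0,(nat_lit 302)),(k4,(nat_lit 308)),(k10,(nat_lit 312)),(k6,(nat_lit 316)),(k7,
    (nat_lit 316)),(k5,(nat_lit 320)),(k1,(nat_lit 322))],[(k2,(nat_lit 260)),(k3,(nat_lit 272)),(k9,(nat_lit 281)),
    (k8,(nat_lit 289)),(k0,(nat_lit 290)),(k4,(nat_lit 296)),(k6,(nat_lit 304)),(k7,(nat_lit 304)),(k5,(nat_lit 308)),
    (k1,(nat_lit 310)),(k11,(nat_lit 310)),(k10,(nat_lit 324))],[(k2,(nat_lit 308)),(k1,(nat_lit 314)),(k8,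
    (nat_lit 315)),(k3,(nat_lit 320)),(k9,(nat_lit 325)),(k10,(nat_lit 328)),(k11,(nat_lit 336)),(k0,(nat_lit 338)),
    (k4,(nat_lit 344)),(k6,(nat_lit 348)),(k7,(nat_lit 352)),(k5,(nat_lit 356))],[(k2,(nat_lit 296)),(k3,
    (nat_lit 308)),(k10,(nat_lit 316)),(k9,(nat_lit 325)),(k0,(nat_lit 326)),(k11,(nat_lit 336)),(k1,(nat_lit 338)),
    (k8,(nat_lit 339)),(k6,(nat_lit 340)),(k7,(nat_lit 340)),(k4,(nat_lit 344)),(k5,(nat_lit 344))],[(k2,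
    (nat_lit 304)),(k3,(nat_lit 316)),(k11,(nat_lit 318)),(k8,(nat_lit 321)),(k9,(nat_lit 321)),(k10,(nat_lit 332)),
    (k0,(nat_lit 334)),(k6,(nat_lit 336)),(k7,(nat_lit 336)),(k4,(nat_lit 340)),(k5,(nat_lit 352)),(k1,
    (nat_lit 354))],[(k8,(nat_lit 285)),(k11,(nat_lit 292)),(k2,(nat_lit 304)),(k3,(nat_lit 316)),(k6,(nat_lit 316)),
    (k9,(nat_lit 321)),(k10,(nat_lit 332)),(k0,(nat_lit 334)),(k7,(nat_lit 336)),(k4,(nat_lit 340)),(k5,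
    (nat_lit 348)),(k1,(nat_lit 354))],[(k2,(nat_lit 281)),(k3,(nat_lit 289)),(k10,(nat_lit 297)),(k0,(nat_lit 307)),
    (k1,(nat_lit 319)),(k6,(nat_lit 321)),(k7,(nat_lit 321)),(k4,(nat_lit 325)),(k5,(nat_lit 325)),(k9,(nat_lit 326)),
    (k8,(nat_lit 346)),(k11,(nat_lit 353))],[(k3,(nat_lit 277)),(k6,(nat_lit 285)),(k2,(nat_lit 289)),(k1,
    (nat_lit 309)),(k8,(nat_lit 310)),(k5,(nat_lit 315)),(k10,(nat_lit 317)),(k11,(nat_lit 317)),(k0,(nat_lit 321)),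
    (k7,(nat_lit 321)),(k4,(nat_lit 339)),(k9,(nat_lit 346))],[(k6,(nat_lit 292)),(k3,(nat_lit 298)),(k2,
    (nat_lit 310)),(k8,(nat_lit 317)),(k7,(nat_lit 318)),(k11,(nat_lit 324)),(k1,(nat_lit 330)),(k4,(nat_lit 336)),
    (k5,(nat_lit 336)),(k10,(nat_lit 338)),(k0,(nat_lit 342)),(k9,(nat_lit 353))],[(k9,(nat_lit 297)),(k0,
    (nat_lit 310)),(k3,(nat_lit 312)),(k4,(nat_lit 316)),(k8,(nat_lit 317)),(k2,(nat_lit 324)),(k5,(nat_lit 328)),(k1,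
    (nat_lit 330)),(k6,(nat_lit 332)),(k7,(nat_lit 332)),(k11,(nat_lit 338)),(k10,(nat_lit 352))]]
    [[k2,k1,k0,k0,k0,k0],[k2,k0,k0,k0,k1,k0],[k1,k2,k0,k0,k0,k0],[k1,k1,k1,k0,k0,k0],[k1,k1,k0,k0,k1,k0],[k1,k1,k0,k0,
    k0,k1],[k1,k0,k0,k1,k1,k0],[k1,k0,k0,k1,k0,k1],[k1,k0,k0,k0,k2,k0],[k1,k0,k0,k0,k1,k1],[k0,k3,k0,k0,k0,k0],[k0,k2,
    k1,k0,k0,k0],[k0,k2,k0,k1,k0,k0],[k0,k2,k0,k0,k1,k0],[k0,k2,k0,k0,k0,k1],[k0,k1,k1,k0,k1,k0],[k0,k1,k1,k0,k0,k1],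
    [k0,k1,k0,k2,k0,k0],[k0,k1,k0,k1,k1,k0],[k0,k1,k0,k1,k0,k1],[k0,k1,k0,k0,k2,k0],[k0,k1,k0,k0,k1,k1],[k0,k0,k1,k0,
    k1,k1],[k0,k0,k1,k1,k1,k0],[k0,k0,k0,k2,k1,k0],[k0,k0,k0,k1,k2,k0],[k0,k0,k0,k1,k1,k1],[k0,k0,k0,k0,k1,k2]]
    [.ref k25 k0 [(z5,[z9,y1,y9]),(z5,[y3,z2,z18]),(z10,[y9,z6,z9,z10]),(z5,[y3,z2,z3,z0,z15]),(z1,[z0,y1,y3,y1,y3,
    z3])],.ref k25 k0 [(z2,[z3,z1,z3,z1,z3,y3]),(z6,[y3,z1,z15,y1,y3,z3]),(z4,[y3,z1,y3,z3,y3,z3]),(z6,[y3,z1,y3,y1,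
    z15,z3]),(z1,[z0,y1,y3,y1,y3,z3])],.ref k25 k0 [(z1,[z9,y2,y18]),(z1,[y3,z1,z9]),(z2,[y9,z3,z18,z2]),(z1,[y3,z1,
    z6,z0,z3]),(z1,[z0,y1,y3,y1,y3,z3])],.ref k25 k0 [(z1,[z18,y5,y18,y6]),(z1,[y6,z2,z9,z2]),(z1,[y9,z3,z9,z4]),(z1,
    [y6,z2,z6,z2,z3]),(z1,[z0,y1,y3,y1,y3,z3])],.ref k25 k0 [(z2,[z9,z2,z0,z3,z9,y9]),(z2,[y3,z0,z6,y1,y3,z3]),(z4,
    [y9,z0,z0,z1,y9,z9]),(z2,[y3,z0,z0,y1,z3,z3]),(z1,[z0,y1,y3,y1,y3,z3])],.ref k25 k0 [(z5,[z18,y1,y18]),(z5,[y6,z2,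
    z21]),(z5,[y9,z3,z9,z5]),(z5,[y6,z2,z6,z0,z15]),(z1,[z0,y1,y3,y1,y3,z3])],.ref k25 k0 [(z2,[z9,z2,z9,z3,z0,y9]),
    (z2,[y3,z0,z3,y1,z0,z3]),(z4,[y9,z0,y9,z1,z0,z9]),(z2,[y3,z0,y3,y1,z6,z3]),(z1,[z0,y1,y3,y1,y3,z3])],
    .ref k25 k0 [(z5,[z18,y1,z0,z0,y18]),(z5,[y6,z2,z15,z0,z6]),(z5,[y9,z3,z0,z5,z9]),(z5,[y6,z2,z0,z0,z21]),(z1,[z0,
    y1,y3,y1,y3,z3])],.ref k25 k0 [(z1,[z3,z2,z6,z2,z6,y6]),(z3,[y3,y1,z3,y2,y6,z6]),(z2,[y3,y1,y6,z0,y6,z6]),(z3,[y3,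
    y1,y6,y2,z3,z6]),(z1,[z0,y1,y3,y1,y3,z3])],.ref k25 k0 [(z7,[z18,z7,z18,z6,z18,y18]),(z7,[y6,z0,z15,y2,y6,z6]),
    (z7,[y9,z0,y9,z4,y9,z9]),(z7,[y6,z0,y6,y2,z15,z6]),(z1,[z0,y1,y3,y1,y3,z3])],.ref k25 k0 [(z1,[y3,z1,z9]),(z1,
    [z1]),(z2,[z3,z0,y9,z2]),(z1,[z1,z0,y3,z0,z3]),(z1,[z0,y1,y3,y1,y3,z3])],.ref k25 k0 [(z7,[y18,z7,z36,z6]),(z7,
    [z6,z0,z9,y2]),(z7,[z9,z0,y18,z4]),(z7,[z6,z0,y12,y2,z21]),(z1,[z0,y1,y3,y1,y3,z3])],.ref k25 k0 [(z1,[y3,z1,z6,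
    z0,z3]),(z1,[z1,z0,z1,z0,y1]),(z2,[z3,z0,y6,z2,y3]),(z1,[z1,z0,y2,z0,z2]),(z1,[z0,y1,y3,y1,y3,z3])],
    .ref k25 k0 [(z2,[y9,y1,z9,y3,y9,z9]),(z2,[z3,z1,z3,z1,z3,y3]),(z4,[z9,z3,y9,z7,z9,y9]),(z2,[z3,z1,y3,z1,z9,y3]),
    (z1,[z0,y1,y3,y1,y3,z3])],.ref k25 k0 [(z1,[y6,z1,z12]),(z1,[z2,z0,y1]),(z1,[z3,z0,y6,z1]),(z1,[z2,z0,y4,z0,z3]),
    (z1,[z0,y1,y3,y1,y3,z3])],.ref k25 k0 [(z5,[y18,y1,z0,z0,y18,z18]),(z5,[z6,z2,z15,z0,z6,y6]),(z5,[z9,z3,z0,z5,z9,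
    y9]),(z5,[z6,z2,z0,z0,z21,y6]),(z1,[z0,y1,y3,y1,y3,z3])],.ref k25 k0 [(z2,[y9,z2,z9,z3]),(z2,[z3,z0,z3,y1]),(z4,
    [z9,z0,y9,z1]),(z2,[z3,z0,y3,y1,z6]),(z1,[z0,y1,y3,y1,y3,z3])],.ref k25 k0 [(z1,[y3,z1,z3,z0,z6]),(z1,[z1,z0,z2,
    z0,y2]),(z2,[z3,z0,y3,z2,y6]),(z1,[z1,z0,y1,z0,z1]),(z1,[z0,y1,y3,y1,y3,z3])],.ref k25 k0 [(z2,[y9,y1,z0,y3,z0,
    z9]),(z2,[z3,z1,z6,z1,z0,y3]),(z4,[z9,z3,z0,z7,z0,y9]),(z2,[z3,z1,z0,z1,z6,y3]),(z1,[z0,y1,y3,y1,y3,z3])],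
    .ref k25 k0 [(z1,[y6,z1,z6,z0,z6]),(z1,[z2,z0,z1,z0,y2]),(z1,[z3,z0,y3,z1,y3]),(z1,[z2,z0,y2,z0,z1]),(z1,[z0,y1,
    y3,y1,y3,z3])],.ref k25 k0 [(z1,[y9,y5,y9,y6,y18,z18]),(z1,[z3,z2,z6,z2,z6,y6]),(z2,[z9,z6,z9,z8,z18,y18]),(z1,
    [z3,z2,z3,z2,z9,y6]),(z1,[z0,y1,y3,y1,y3,z3])],.ref k25 k0 [(z1,[y18,y5,z0,y6,y18,z18]),(z1,[z6,z2,z3,z2,z6,y6]),
    (z1,[z9,z3,z0,z4,z9,y9]),(z1,[z6,z2,z0,z2,z9,y6]),(z1,[z0,y1,y3,y1,y3,z3])],.ref k25 k0 [(z1,[y9,y2,y9,z0,y9,z9]),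
    (z1,[z3,z1,z6,z0,z3,y3]),(z2,[z9,z3,z9,z2,z9,y9]),(z1,[z3,z1,z3,z0,z6,y3]),(z1,[z0,y1,y3,y1,y3,z3])],
    .ref k25 k0 [(z5,[y18,y1,y18,z0,z0,z18]),(z5,[z6,z2,z21,z0,z0,y6]),(z5,[z9,z3,z9,z5,z0,y9]),(z5,[z6,z2,z6,z0,z15,
    y6]),(z1,[z0,y1,y3,y1,y3,z3])],.ref k25 k0 [(z2,[y9,y1,y9,y3,z9,z9]),(z2,[z3,z1,z9,z1,y3,y3]),(z4,[z9,z3,z9,z7,y9,
    y9]),(z2,[z3,z1,z3,z1,z3,y3]),(z1,[z0,y1,y3,y1,y3,z3])],.ref k25 k0 [(z1,[y9,y5,y18,y6,y9,z18]),(z1,[z3,z2,z9,z2,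
    z3,y6]),(z2,[z9,z6,z18,z8,z9,y18]),(z1,[z3,z2,z6,z2,z6,y6]),(z1,[z0,y1,y3,y1,y3,z3])],.ref k25 k0 [(z1,[y18,y5,
    y18,y6,z0,z18]),(z1,[z6,z2,z9,z2,z0,y6]),(z1,[z9,z3,z9,z4,z0,y9]),(z1,[z6,z2,z6,z2,z3,y6]),(z1,[z0,y1,y3,y1,y3,
    z3])],.ref k25 k0 [(z1,[z9,z4,z9,z3,z9,y9]),(z1,[y3,y1,z0,y1,y3,z3]),(z2,[y9,y3,y9,y1,y9,z9]),(z1,[y3,y1,y3,y1,z0,
    z3]),(z1,[z0,y1,y3,y1,y3,z3])]],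
    .lp k0 [k158,k156,k168,k176,k170,k128] [k9,k9,k10,k10,k4,k4,k0,k0,k3,k3,k24,k24] k0 [[k0,k0,k4,k0,k4,k0,k4,k0,k0,
    k0,k0,k18],[k0,k0,k0,k0,k0,k0,k0,k0,k0,k0,k0,k18],[k0,k0,k0,k0,k0,k8,k0,k0,k0,k2,k10,k2],[k0,k4,k8,k0,k0,k0,k0,k0,
    k0,k0,k0,k0],[k0,k0,k0,k8,k0,k0,k0,k0,k0,k6,k6,k0],[k0,k4,k0,k0,k0,k0,k0,k0,k0,k2,k2,k0],[k0,k0,k0,k0,k0,k0,k0,k4,
    k2,k2,k10,k0],[k0,k4,k0,k0,k0,k0,k0,k0,k0,k0,k6,k0],[k0,k0,k0,k2,k2,k6,k0,k2,k0,k0,k0,k0],[k0,k0,k0,k0,k0,k0,k0,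
    k2,k0,k0,k8,k0],[k18,k18,k0,k2,k0,k0,k0,k0,k0,k0,k0,k8],[k0,k0,k0,k10,k2,k6,k6,k10,k8,k0,k0,k0]] (nat_lit 480) k5
    [[(k11,k135),(k10,k143),(k2,k147),(k4,k157),(k6,k157),(k9,k158),(k8,k164),(k5,k165),(k7,k165),(k1,k166),(k3,k175),
    (k0,k176)],[(k10,k125),(k11,k143),(k2,k157),(k3,k157),(k0,k158),(k5,k159),(k9,k160),(k4,k163),(k7,k163),(k8,k164),
    (k6,k167),(k1,k176)],[(k10,k124),(k11,k142),(k3,k156),(k0,k157),(k2,k160),(k5,k162),(k8,k163),(k9,k163),(k4,k166),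
    (k7,k166),(k6,k170),(k1,k175)],[(k10,k140),(k11,k142),(k1,k147),(k4,k154),(k0,k157),(k3,k160),(k8,k161),(k5,k162),
    (k9,k163),(k2,k164),(k6,k166),(k7,k166)],[(k11,k150),(k10,k158),(k0,k159),(k5,k160),(k2,k162),(k3,k162),(k1,k165),
    (k4,k168),(k8,k169),(k9,k169),(k6,k172),(k7,k180)],[(k10,k150),(k11,k150),(k2,k154),(k1,k157),(k0,k163),(k8,k163),
    (k3,k166),(k4,k168),(k5,k168),(k9,k169),(k6,k172),(k7,k172)],[(k10,k158),(k11,k158),(k0,k163),(k1,k165),(k2,k166),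
    (k3,k166),(k8,k171),(k4,k172),(k9,k173),(k6,k176),(k7,k176),(k5,k180)],[(k11,k150),(k1,k157),(k10,k158),(k2,k166),
    (k0,k167),(k3,k170),(k8,k171),(k4,k172),(k5,k172),(k6,k172),(k9,k173),(k7,k176)],[(k11,k151),(k1,k158),(k10,k159),
    (k0,k160),(k2,k163),(k3,k163),(k4,k169),(k5,k169),(k8,k172),(k6,k173),(k7,k173),(k9,k174)],[(k11,k149),(k10,k157),
    (k2,k161),(k3,k163),(k4,k163),(k0,k164),(k1,k164),(k5,k169),(k8,k170),(k6,k171),(k7,k171),(k9,k172)],[(k10,k128),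
    (k11,k128),(k1,k135),(k2,k142),(k3,k142),(k0,k143),(k8,k149),(k4,k150),(k5,k150),(k6,k150),(k9,k151),(k7,k158)],
    [(k10,k120),(k3,k124),(k0,k125),(k11,k128),(k2,k140),(k1,k143),(k4,k150),(k8,k157),(k5,k158),(k6,k158),(k7,k158),
    (k9,k159)]]
    [[k2,k0,k0,k0,k0,k1],[k1,k2,k0,k0,k0,k0],[k1,k1,k1,k0,k0,k0],[k1,k1,k0,k0,k1,k0],[k1,k1,k0,k0,k0,k1],[k1,k0,k1,k0,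
    k0,k1],[k1,k0,k0,k1,k0,k1],[k1,k0,k0,k0,k1,k1],[k1,k0,k0,k0,k0,k2],[k0,k2,k1,k0,k0,k0],[k0,k2,k0,k0,k0,k1],[k0,k1,
    k1,k0,k0,k1],[k0,k1,k0,k1,k0,k1],[k0,k1,k0,k0,k1,k1],[k0,k1,k0,k0,k0,k2],[k0,k0,k2,k0,k0,k1],[k0,k0,k1,k0,k1,k1],
    [k0,k0,k1,k0,k0,k2],[k0,k0,k0,k1,k0,k2],[k0,k0,k0,k0,k1,k2],[k0,k0,k0,k0,k0,k3]]
    [.ref (nat_lit 235) k5 [(z1,[z6,y6,z2,z3,y6]),(z1,[y9,z6,y4,y6,z12]),(z1,[z6,y3,z2,z3,y6]),(z1,[z0,z0,z1])],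
    .ref k97 k0 [(z1,[z3,z0,y2]),(z1,[z0,z0,z1]),(z2,[y3,z3,z2,z3]),(z2,[y9,z3,z4,y3,z6])],.ref k97 k0 [(z1,[z6,y3,y2,
    y3]),(z1,[z0,z0,z1]),(z1,[y3,z3,z1,z3]),(z1,[y9,z6,z2,z3,z3])],.ref k97 k0 [(z2,[z3,z3,y1]),(z1,[z0,z0,z1]),(z4,
    [y3,z3,z1,z6]),(z4,[y9,y3,y1,y6,z12])],.ref (nat_lit 236) k1 [(z1,[z1,z0,z0,z1,y1]),(z1,[z0,z0,z1]),(z1,[y2,z1,z0,
    y1,z2]),(z1,[z9,y3,y1,z3,y6])],.ref (nat_lit 237) k3 [(z1,[y3,z0,y1,y3,z3]),(z1,[z0,z0,z0,z1]),(z1,[z1,y1,z0,y1]),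
    (z1,[z0,z1,z0,z1])],.ref k97 k0 [(z1,[y6,z3,y2,y3,z6]),(z1,[z0,z0,z1]),(z1,[z3,z0,z1,z3,y3]),(z1,[z9,y3,z2,z3,
    y6])],.ref (nat_lit 235) k5 [(z1,[z6,z0,z2,z3,y6]),(z1,[y9,y3,y4,y6,z12]),(z1,[z6,z3,z2,z3,y6]),(z1,[z0,z0,z1])],
    .ref (nat_lit 237) k3 [(z2,[y3,y3,y2,y9,z6]),(z1,[z0,z0,z0,z1]),(z2,[z1,y1,z0,y1]),(z1,[z0,z1,z0,z1])],
    .ref k97 k0 [(z1,[y6,z3,z4,z3]),(z1,[z0,z0,z1]),(z1,[z3,z0,y2]),(z1,[z9,y3,y7,y6,z3])],.ref (nat_lit 238) k0 [(z1,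
    [z0,z1]),(z1,[z0,z0,z1]),(z1,[z0,z0,z0,z1]),(z1,[y6,y6,z2,y3,z6])],.ref (nat_lit 239) k3 [(z1,[y1,y1,z0,y2,z1]),
    (z1,[z0,z0,z0,z1]),(z1,[z3,z0,y1]),(z1,[z0,z1,z0,z1])],.ref k97 k0 [(z1,[y2,z1,z0,y1,z2]),(z1,[z0,z0,z1]),(z1,[z1,
    z1,z0,z2,y1]),(z1,[z3,z0,y1])],.ref (nat_lit 236) k1 [(z1,[z1,z1,z0,z1,y1]),(z1,[z0,z0,z1]),(z1,[y2,y1,z0,y1,z2]),
    (z1,[z9,z6,y1,z3,y6])],.ref (nat_lit 238) k0 [(z1,[z0,z1]),(z1,[z0,z0,z1]),(z1,[z0,z0,z0,z1]),(z1,[y3,y6,y1,y3,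
    z6])],.ref (nat_lit 240) k3 [(z1,[y3,y3,y1,y6,z3]),(z1,[z0,z0,z0,z1]),(z1,[z1]),(z1,[z0,z1,z0,z1])],
    .ref (nat_lit 237) k3 [(z1,[y3,y3,y1,y3,z3]),(z1,[z0,z0,z0,z1]),(z1,[z1,z0,z0,y1]),(z1,[z0,z1,z0,z1])],
    .ref (nat_lit 241) k0 [(z1,[y2,z1,z0,z1]),(z1,[z0,z0,z1]),(z1,[z1]),(z1,[z9,y3,y1,y6,z3])],
    .ref (nat_lit 242) k3 [(z1,[y3,y6,y2,y12,z6]),(z1,[z0,z0,z0,z1]),(z1,[z3,z3,z1,z6,y3]),(z1,[z0,z1,z0,z1])],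
    .ref (nat_lit 237) k3 [(z2,[y3,y6,y2,y9,z6]),(z1,[z0,z0,z0,z1]),(z2,[z1,z0,z0,y1]),(z1,[z0,z1,z0,z1])],
    .ref (nat_lit 238) k0 [(z1,[z0,z1]),(z1,[z0,z0,z1]),(z1,[z0,z0,z0,z1]),(z1,[y2,y6,y2,y3,z6])]],
    .base (.leafM k0 [k0,k1,k2,k3,k4,k5] [(z6,[z0,z2,z3,z1])] []),
    .base (.leafM k3 [k1,k2,k3,k4,k5,k0] [(z2,[y1,y2,z0,y1,z2])] []),
    .base (.leafM k3 [k4,k5,k0,k1,k2,k3] [(z3,[z0,z1,z1])] []),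
    .base (.leafM k3 [k1,k2,k3,k4,k5,k0] [(z3,[y3,y1,z0,y1,z3])] []),
    .base (.leafM k0 [k2,k3,k4,k5,k0,k1] [(z6,[y2,y1,y1,z0,z6])] []),
    .lp k0 [(nat_lit 644),(nat_lit 636),(nat_lit 598),(nat_lit 686),(nat_lit 648),(nat_lit 626)] [k21,k21,k25,k25,k44,
    k44,k0,k0,k19,k19,k30,k30] k0 [[k0,k0,k4,k44,k0,k0,k0,k0,k0,k18,k0,k0],[k28,k0,k0,k0,k2,k0,k0,k0,k0,k0,k0,k32],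
    [k0,k44,k0,k0,k0,k44,k46,k44,k0,k14,k44,k0],[k0,k4,k36,k0,k0,k42,k0,k0,k0,k50,k0,k0],[k0,k0,k42,k44,k0,k32,k0,k0,
    k30,k52,k0,k0],[k2,k0,k0,k0,k0,k0,k2,k42,k0,k0,k0,k6],[k0,k0,k0,k44,k42,k0,k0,k128,k34,k0,k0,k0],[k0,k0,k0,k46,k2,
    k0,k0,k0,k0,k0,k22,k0],[k0,k18,k50,k14,k0,k52,k0,k0,k0,k0,k22,k0],[k0,k0,k0,k0,k0,k30,k0,k34,k34,k0,k0,k0],[k32,
    k0,k0,k0,k6,k0,k0,k0,k0,k0,k0,k36],[k0,k0,k0,k44,k0,k0,k22,k0,k0,k22,k0,k0]] (nat_lit 1920) k5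
    [[(k2,(nat_lit 596)),(k5,(nat_lit 621)),(k8,(nat_lit 624)),(k9,(nat_lit 624)),(k4,(nat_lit 627)),(k10,
    (nat_lit 635)),(k11,(nat_lit 635)),(k3,(nat_lit 640)),(k6,(nat_lit 665)),(k7,(nat_lit 665)),(k0,(nat_lit 676)),
    (k1,(nat_lit 680))],[(k2,(nat_lit 596)),(k5,(nat_lit 617)),(k4,(nat_lit 623)),(k8,(nat_lit 628)),(k10,
    (nat_lit 635)),(k11,(nat_lit 635)),(k3,(nat_lit 640)),(k9,(nat_lit 646)),(k6,(nat_lit 665)),(k7,(nat_lit 665)),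
    (k0,(nat_lit 672)),(k1,(nat_lit 676))],[(k10,(nat_lit 599)),(k3,(nat_lit 608)),(k4,(nat_lit 617)),(k0,
    (nat_lit 640)),(k1,(nat_lit 640)),(k2,(nat_lit 640)),(k8,(nat_lit 642)),(k9,(nat_lit 642)),(k11,(nat_lit 649)),
    (k7,(nat_lit 659)),(k5,(nat_lit 661)),(k6,(nat_lit 661))],[(k4,(nat_lit 573)),(k0,(nat_lit 596)),(k1,
    (nat_lit 596)),(k9,(nat_lit 596)),(k5,(nat_lit 617)),(k6,(nat_lit 617)),(k8,(nat_lit 628)),(k10,(nat_lit 631)),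
    (k3,(nat_lit 640)),(k2,(nat_lit 672)),(k11,(nat_lit 681)),(k7,(nat_lit 703))],[(k4,(nat_lit 556)),(k5,
    (nat_lit 562)),(k8,(nat_lit 573)),(k0,(nat_lit 617)),(k2,(nat_lit 617)),(k1,(nat_lit 621)),(k11,(nat_lit 626)),
    (k10,(nat_lit 656)),(k3,(nat_lit 661)),(k9,(nat_lit 667)),(k7,(nat_lit 686)),(k6,(nat_lit 688))],[(k5,
    (nat_lit 556)),(k4,(nat_lit 566)),(k8,(nat_lit 571)),(k2,(nat_lit 573)),(k11,(nat_lit 582)),(k10,(nat_lit 612)),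
    (k3,(nat_lit 617)),(k0,(nat_lit 623)),(k1,(nat_lit 627)),(k7,(nat_lit 642)),(k6,(nat_lit 644)),(k9,
    (nat_lit 665))],[(k4,(nat_lit 642)),(k6,(nat_lit 644)),(k10,(nat_lit 650)),(k3,(nat_lit 659)),(k0,(nat_lit 665)),
    (k1,(nat_lit 665)),(k9,(nat_lit 665)),(k5,(nat_lit 686)),(k8,(nat_lit 697)),(k2,(nat_lit 703)),(k11,
    (nat_lit 708)),(k7,(nat_lit 718))],[(k6,(nat_lit 558)),(k2,(nat_lit 617)),(k11,(nat_lit 622)),(k4,(nat_lit 644)),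
    (k7,(nat_lit 644)),(k3,(nat_lit 661)),(k0,(nat_lit 665)),(k1,(nat_lit 665)),(k8,(nat_lit 667)),(k9,(nat_lit 667)),
    (k10,(nat_lit 678)),(k5,(nat_lit 688))],[(k2,(nat_lit 596)),(k1,(nat_lit 624)),(k10,(nat_lit 637)),(k11,
    (nat_lit 637)),(k3,(nat_lit 642)),(k0,(nat_lit 646)),(k4,(nat_lit 665)),(k7,(nat_lit 665)),(k5,(nat_lit 667)),(k6,
    (nat_lit 667)),(k8,(nat_lit 682)),(k9,(nat_lit 776))],[(k4,(nat_lit 571)),(k5,(nat_lit 573)),(k1,(nat_lit 624)),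
    (k0,(nat_lit 628)),(k2,(nat_lit 628)),(k10,(nat_lit 637)),(k11,(nat_lit 637)),(k3,(nat_lit 642)),(k6,
    (nat_lit 667)),(k8,(nat_lit 682)),(k9,(nat_lit 682)),(k7,(nat_lit 697))],[(k4,(nat_lit 582)),(k11,(nat_lit 592)),
    (k6,(nat_lit 622)),(k5,(nat_lit 626)),(k0,(nat_lit 635)),(k1,(nat_lit 635)),(k8,(nat_lit 637)),(k9,(nat_lit 637)),
    (k10,(nat_lit 648)),(k3,(nat_lit 649)),(k2,(nat_lit 681)),(k7,(nat_lit 708))],[(k10,(nat_lit 590)),(k3,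
    (nat_lit 599)),(k4,(nat_lit 612)),(k2,(nat_lit 631)),(k0,(nat_lit 635)),(k1,(nat_lit 635)),(k8,(nat_lit 637)),(k9,
    (nat_lit 637)),(k11,(nat_lit 648)),(k7,(nat_lit 650)),(k5,(nat_lit 656)),(k6,(nat_lit 678))]]
    [[k2,k1,k0,k0,k0,k0],[k1,k2,k0,k0,k0,k0],[k1,k1,k1,k0,k0,k0],[k1,k1,k0,k0,k1,k0],[k1,k1,k0,k0,k0,k1],[k1,k0,k2,k0,
    k0,k0],[k1,k0,k1,k0,k1,k0],[k1,k0,k1,k0,k0,k1],[k1,k0,k0,k2,k0,k0],[k1,k0,k0,k0,k1,k1],[k1,k0,k0,k0,k0,k2],[k0,k2,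
    k1,k0,k0,k0],[k0,k2,k0,k1,k0,k0],[k0,k2,k0,k0,k1,k0],[k0,k1,k2,k0,k0,k0],[k0,k1,k1,k0,k1,k0],[k0,k1,k1,k0,k0,k1],
    [k0,k1,k0,k1,k0,k1],[k0,k1,k0,k0,k1,k1],[k0,k1,k0,k0,k0,k2],[k0,k0,k3,k0,k0,k0],[k0,k0,k2,k1,k0,k0],[k0,k0,k2,k0,
    k1,k0],[k0,k0,k2,k0,k0,k1],[k0,k0,k1,k2,k0,k0],[k0,k0,k1,k1,k1,k0],[k0,k0,k1,k0,k1,k1],[k0,k0,k1,k0,k0,k2],[k0,k0,
    k0,k2,k0,k1],[k0,k0,k0,k0,k1,k2],[k0,k0,k0,k0,k0,k3]]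
    [.ref k25 k0 [(z1,[z0,z1]),(z1,[z3,y2]),(z2,[y18,z12,z9,z1]),(z1,[z12,y8,y6,z0,z3]),(z2,[z0,y2,y3,y1,y6,z6])],
    .ref k25 k0 [(z1,[z0,z1]),(z2,[z3,y1]),(z2,[y9,z3,z9,z1]),(z1,[z6,y2,y6,z0,z3]),(z2,[z0,y2,y3,y1,y6,z6])],
    .ref k25 k0 [(z1,[z0,z1]),(z4,[y6,z2,z9,z1]),(z4,[z18,y6,y9,y1]),(z1,[y6,z2,z3,z1,z3]),(z2,[z0,y2,y3,y1,y6,z6])],
    .ref k25 k0 [(z1,[z0,z1]),(z2,[z6,z0,z3,z1,z6,y6]),(z1,[y9,z0,z0,y1,y9,z9]),(z1,[z12,z0,z0,z2,z15,y12]),(z2,[z0,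
    y2,y3,y1,y6,z6])],.ref k25 k0 [(z1,[z0,z1]),(z1,[y3,z1,z3]),(z2,[z18,y6,y9,z1]),(z1,[y12,z4,z6,z0,z3]),(z2,[z0,y2,
    y3,y1,y6,z6])],.ref k25 k0 [(z1,[z0,z1]),(z6,[y3,z1,z9,z1]),(z2,[z3,y1]),(z3,[y6,z2,z0,z2,z9]),(z2,[z0,y2,y3,y1,
    y6,z6])],.ref k25 k0 [(z1,[z0,z1]),(z1,[y1,z0,z1,z0,y1,z1]),(z2,[z6,z0,z3,z1,z6,y6]),(z1,[y4,z0,y2,z0,y1,z4]),(z2,
    [z0,y2,y3,y1,y6,z6])],.ref k25 k0 [(z1,[z0,z1]),(z10,[y6,z2,z15,z1]),(z5,[z9,y3,z0,z1]),(z5,[y12,z4,z0,z2,z15]),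
    (z2,[z0,y2,y3,y1,y6,z6])],.ref k25 k0 [(z1,[z0,z1]),(z8,[z3,y1,z12,z0,y6]),(z8,[y9,z3,z0,z4,z18]),(z2,[z3,y1]),
    (z2,[z0,y2,y3,y1,y6,z6])],.ref k25 k0 [(z1,[z0,z1]),(z4,[y6,z0,z3,y1,y6,z6]),(z4,[z18,z0,z9,z5,z18,y18]),(z1,[y6,
    z0,y3,y1,y3,z6]),(z2,[z0,y2,y3,y1,y6,z6])],.ref k25 k0 [(z1,[z0,z1]),(z4,[y3,z1,z6]),(z4,[z9,y3,z0,z2]),(z1,[y3,
    z1,z0,z0,z3]),(z2,[z0,y2,y3,y1,y6,z6])],.ref k25 k0 [(z1,[z0,z1]),(z2,[y6,z0,z9,z1]),(z1,[z9,z0,y9,y1]),(z1,[y12,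
    z0,z12,z2,z3]),(z2,[z0,y2,y3,y1,y6,z6])],.ref k25 k0 [(z1,[z0,z1]),(z2,[z1,z0,z2,z0,y1]),(z2,[y3,z0,z3,z1,z3]),
    (z1,[z2,z0,y2,z0,z1]),(z2,[z0,y2,y3,y1,y6,z6])],.ref k25 k0 [(z1,[z0,z1]),(z4,[z6,z2,z3,z1,z6,y6]),(z4,[y18,y6,z9,
    y1,y18,z18]),(z1,[z6,z2,y3,z1,z9,y6]),(z2,[z0,y2,y3,y1,y6,z6])],.ref k25 k0 [(z1,[z0,z1]),(z5,[y3,z0,z9,z1]),(z10,
    [z18,z0,y9,y1]),(z5,[y12,z0,z6,z4,z15]),(z2,[z0,y2,y3,y1,y6,z6])],.ref k25 k0 [(z1,[z0,z1]),(z2,[y3,y1,z3,z0,y3,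
    z3]),(z2,[z9,z3,z0,z1,z9,y9]),(z1,[y6,y2,z0,z0,y3,z6]),(z2,[z0,y2,y3,y1,y6,z6])],.ref k25 k0 [(z1,[z0,z1]),(z8,
    [y6,z0,z15,z1]),(z8,[z18,z0,y9,z1]),(z2,[y6,z0,z3,z1,z6]),(z2,[z0,y2,y3,y1,y6,z6])],.ref k25 k0 [(z1,[z0,z1]),(z1,
    [z1,z0,z1,z0,y1]),(z2,[y6,z0,z3,z1,z6]),(z1,[z4,z0,y2,z0,y1]),(z2,[z0,y2,y3,y1,y6,z6])],.ref k25 k0 [(z1,[z0,z1]),
    (z2,[y6,y2,z3,y1,y6,z6]),(z1,[z9,z3,z0,z2,z9,y9]),(z1,[y12,y4,z0,y2,y9,z12]),(z2,[z0,y2,y3,y1,y6,z6])],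
    .ref k25 k0 [(z1,[z0,z1]),(z1,[y1,z0,z2]),(z2,[z6,z0,y3,z1]),(z1,[y4,z0,z2,z0,z3]),(z2,[z0,y2,y3,y1,y6,z6])],
    .ref k25 k0 [(z1,[z0,z1]),(z6,[y2,z0,z9,z1]),(z1,[z1]),(z3,[y4,z0,z0,z2,z9]),(z2,[z0,y2,y3,y1,y6,z6])],
    .ref k25 k0 [(z1,[z0,z1]),(z2,[y3,z0,z3,z1,z3]),(z2,[z9,z0,z0,y2,y9]),(z1,[y6,z0,z0,z2,z9]),(z2,[z0,y2,y3,y1,y6,
    z6])],.ref k25 k0 [(z1,[z0,z1]),(z12,[y6,y2,z15,z1,y6,z6]),(z4,[z6,z2,z3,z1,z6,y6]),(z3,[y6,y2,y3,z1,z3,z6]),(z2,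
    [z0,y2,y3,y1,y6,z6])],.ref k25 k0 [(z1,[z0,z1]),(z8,[y3,z0,z12,z1]),(z8,[z9,z0,z0,z1]),(z2,[y3,z0,z0,z1,z6]),(z2,
    [z0,y2,y3,y1,y6,z6])],.ref k25 k0 [(z1,[z0,z1]),(z10,[z6,z0,z15,y1,y12]),(z5,[y9,z0,z0,z4,z18]),(z5,[z12,z0,z0,y2,
    y9]),(z2,[z0,y2,y3,y1,y6,z6])],.ref k25 k0 [(z1,[z0,z1]),(z1,[z3,z1,z3,z0,z0,y3]),(z2,[y18,y6,y9,z1,z0,z18]),(z1,
    [z12,z4,z6,z0,z3,y12]),(z2,[z0,y2,y3,y1,y6,z6])],.ref k25 k0 [(z1,[z0,z1]),(z5,[y3,y1,z6,z0,y3,z3]),(z10,[z18,z6,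
    z9,z5,z18,y18]),(z5,[y12,y4,y6,z0,z3,z12]),(z2,[z0,y2,y3,y1,y6,z6])],.ref k25 k0 [(z1,[z0,z1]),(z14,[y6,z0,z21,
    z1]),(z7,[z9,z0,z0,z2]),(z7,[y12,z0,z0,z2,z21]),(z2,[z0,y2,y3,y1,y6,z6])],.ref k25 k0 [(z1,[z0,z1]),(z2,[z1,z0,z3,
    z0,y2]),(z2,[y3,z0,z0,z1,z6]),(z1,[z2,z0,z0,z0,y1]),(z2,[z0,y2,y3,y1,y6,z6])],.ref k25 k0 [(z1,[z0,z1]),(z8,[y6,
    y2,z9,y1,y6,z6]),(z8,[z18,z6,z9,z7,z18,y18]),(z2,[y6,y2,y3,y1,z0,z6]),(z2,[z0,y2,y3,y1,y6,z6])],.ref k25 k0 [(z1,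
    [z0,z1]),(z2,[y1,z0,z3]),(z2,[z3,z0,z0,z1]),(z1,[y2,z0,z0,z0,z3]),(z2,[z0,y2,y3,y1,y6,z6])]],
    .lp k0 [(nat_lit 324),(nat_lit 286),(nat_lit 364),(nat_lit 310),(nat_lit 326),(nat_lit 308)] [k20,k20,k39,k39,k0,
    k0,k27,k27,k19,k19,k28,k28] k0 [[k0,k0,k54,k0,k0,k0,k0,k0,k0,k0,k0,k0],[k6,k0,k0,k0,k0,k0,k0,k0,k0,k0,k42,k40],
    [k0,k0,k0,k0,k0,k0,k0,k0,k0,k0,k2,k16],[k0,k54,k54,k0,k0,k0,k0,k0,k0,k0,k0,k0],[k0,k0,k0,k0,k0,k54,k16,k0,k0,k16,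
    k38,k0],[k0,k0,k0,k0,k0,k0,k16,k0,k0,k18,k0,k0],[k0,k0,k0,k0,k0,k0,k0,k22,k22,k0,k0,k0],[k0,k0,k0,k0,k16,k16,k0,
    k0,k0,k0,k0,k16],[k0,k0,k0,k0,k18,k16,k0,k0,k0,k0,k20,k22],[k0,k0,k0,k0,k0,k0,k0,k22,k22,k0,k0,k0],[k40,k0,k0,k16,
    k0,k0,k16,k0,k0,k22,k0,k2],[k42,k0,k0,k2,k0,k38,k0,k0,k0,k20,k0,k0]] (nat_lit 960) k5
    [[(k3,(nat_lit 263)),(k2,(nat_lit 303)),(k8,(nat_lit 305)),(k4,(nat_lit 306)),(k10,(nat_lit 316)),(k7,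
    (nat_lit 317)),(k9,(nat_lit 325)),(k1,(nat_lit 326)),(k6,(nat_lit 333)),(k11,(nat_lit 338)),(k5,(nat_lit 360)),
    (k0,(nat_lit 364))],[(k5,(nat_lit 290)),(k2,(nat_lit 305)),(k3,(nat_lit 305)),(k11,(nat_lit 316)),(k6,
    (nat_lit 317)),(k7,(nat_lit 317)),(k8,(nat_lit 325)),(k9,(nat_lit 325)),(k0,(nat_lit 330)),(k4,(nat_lit 344)),
    (k10,(nat_lit 358)),(k1,(nat_lit 364))],[(k10,(nat_lit 257)),(k1,(nat_lit 263)),(k3,(nat_lit 280)),(k11,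
    (nat_lit 297)),(k6,(nat_lit 298)),(k7,(nat_lit 298)),(k0,(nat_lit 305)),(k8,(nat_lit 306)),(k9,(nat_lit 306)),(k4,
    (nat_lit 325)),(k5,(nat_lit 325)),(k2,(nat_lit 340))],[(k10,(nat_lit 281)),(k11,(nat_lit 297)),(k6,(nat_lit 298)),
    (k7,(nat_lit 298)),(k1,(nat_lit 303)),(k0,(nat_lit 305)),(k8,(nat_lit 306)),(k9,(nat_lit 306)),(k4,(nat_lit 325)),
    (k5,(nat_lit 325)),(k2,(nat_lit 340)),(k3,(nat_lit 340))],[(k0,(nat_lit 290)),(k5,(nat_lit 310)),(k2,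
    (nat_lit 325)),(k3,(nat_lit 325)),(k11,(nat_lit 336)),(k6,(nat_lit 337)),(k7,(nat_lit 337)),(k10,(nat_lit 338)),
    (k8,(nat_lit 345)),(k9,(nat_lit 345)),(k1,(nat_lit 360)),(k4,(nat_lit 364))],[(k1,(nat_lit 306)),(k4,
    (nat_lit 310)),(k2,(nat_lit 325)),(k3,(nat_lit 325)),(k8,(nat_lit 329)),(k9,(nat_lit 329)),(k10,(nat_lit 336)),
    (k7,(nat_lit 337)),(k0,(nat_lit 344)),(k6,(nat_lit 353)),(k11,(nat_lit 354)),(k5,(nat_lit 364))],[(k2,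
    (nat_lit 298)),(k3,(nat_lit 298)),(k8,(nat_lit 300)),(k9,(nat_lit 302)),(k0,(nat_lit 317)),(k1,(nat_lit 317)),
    (k11,(nat_lit 325)),(k6,(nat_lit 326)),(k4,(nat_lit 337)),(k5,(nat_lit 337)),(k10,(nat_lit 347)),(k7,
    (nat_lit 364))],[(k11,(nat_lit 287)),(k6,(nat_lit 288)),(k2,(nat_lit 298)),(k3,(nat_lit 298)),(k10,(nat_lit 309)),
    (k0,(nat_lit 317)),(k8,(nat_lit 318)),(k9,(nat_lit 318)),(k7,(nat_lit 326)),(k1,(nat_lit 333)),(k5,(nat_lit 337)),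
    (k4,(nat_lit 353))],[(k10,(nat_lit 301)),(k7,(nat_lit 302)),(k2,(nat_lit 306)),(k3,(nat_lit 306)),(k11,
    (nat_lit 317)),(k6,(nat_lit 318)),(k0,(nat_lit 325)),(k1,(nat_lit 325)),(k4,(nat_lit 329)),(k5,(nat_lit 345)),(k8,
    (nat_lit 348)),(k9,(nat_lit 348))],[(k10,(nat_lit 295)),(k7,(nat_lit 300)),(k1,(nat_lit 305)),(k2,(nat_lit 306)),
    (k3,(nat_lit 306)),(k11,(nat_lit 317)),(k6,(nat_lit 318)),(k0,(nat_lit 325)),(k4,(nat_lit 329)),(k5,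
    (nat_lit 345)),(k8,(nat_lit 348)),(k9,(nat_lit 348))],[(k11,(nat_lit 286)),(k6,(nat_lit 287)),(k2,(nat_lit 297)),
    (k3,(nat_lit 297)),(k0,(nat_lit 316)),(k8,(nat_lit 317)),(k9,(nat_lit 317)),(k7,(nat_lit 325)),(k10,
    (nat_lit 328)),(k5,(nat_lit 336)),(k1,(nat_lit 338)),(k4,(nat_lit 354))],[(k3,(nat_lit 257)),(k2,(nat_lit 281)),
    (k8,(nat_lit 295)),(k9,(nat_lit 301)),(k10,(nat_lit 306)),(k6,(nat_lit 309)),(k1,(nat_lit 316)),(k11,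
    (nat_lit 328)),(k4,(nat_lit 336)),(k5,(nat_lit 338)),(k7,(nat_lit 347)),(k0,(nat_lit 358))]]
    [[k2,k1,k0,k0,k0,k0],[k1,k2,k0,k0,k0,k0],[k1,k1,k1,k0,k0,k0],[k1,k1,k0,k1,k0,k0],[k1,k1,k0,k0,k1,k0],[k1,k1,k0,k0,
    k0,k1],[k1,k0,k0,k1,k1,k0],[k1,k0,k0,k2,k0,k0],[k1,k0,k0,k1,k0,k1],[k1,k0,k1,k0,k1,k0],[k1,k0,k0,k0,k1,k1],[k0,k2,
    k0,k1,k0,k0],[k0,k2,k0,k0,k1,k0],[k0,k2,k0,k0,k0,k1],[k0,k2,k1,k0,k0,k0],[k0,k1,k1,k0,k0,k1],[k0,k1,k0,k2,k0,k0],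
    [k0,k1,k0,k1,k1,k0],[k0,k1,k0,k1,k0,k1],[k0,k1,k0,k0,k1,k1],[k0,k1,k0,k0,k0,k2],[k0,k0,k0,k2,k1,k0],[k0,k0,k0,k1,
    k1,k1],[k0,k0,k0,k1,k0,k2],[k0,k0,k0,k0,k1,k2],[k0,k0,k0,k0,k0,k3]]
    [.ref k25 k0 [(z2,[z3,z0,y1]),(z1,[z0,z0,z1]),(z4,[y3,z6,z1,z12]),(z8,[z15,y30,y5,z0,z8]),(z1,[y3,z3,z0,y3,y1,
    z3])],.ref k25 k0 [(z1,[z3,z0,y2]),(z1,[z0,z0,z1]),(z2,[y3,z3,z2,z6]),(z4,[z15,y15,y10,z0,z4]),(z1,[y6,z3,z3,y3,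
    y1,z3])],.ref k25 k0 [(z1,[z6,y3,y2,y6]),(z1,[z0,z0,z1]),(z1,[y3,z3,z1,z6]),(z2,[z15,y15,y5,y15,z2]),(z1,[y12,z9,
    z3,z9,y1,z3])],.ref k25 k0 [(z9,[z12,z15,y4,z0,y4]),(z1,[z0,z0,z1]),(z9,[y6,z6,z2,z27,z2]),(z9,[z15,y15,y5,z0,
    z4]),(z9,[y24,y3,y1,y27,y1,z27])],.ref k25 k0 [(z1,[y3,z3,z0,y3,y1,z3]),(z1,[z0,z0,z1]),(z2,[z3,z0,z0,z9,z1,y3]),
    (z4,[y15,z0,z0,y15,y1,z15]),(z1,[z6,y3,y1,z3,z1,y3])],.ref k25 k0 [(z5,[z12,z3,y4]),(z1,[z0,z0,z1]),(z5,[y6,z6,z2,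
    z15]),(z1,[z3,y3,y1,z0,z1]),(z5,[y24,z9,z3,y15,y5,z15])],.ref k25 k0 [(z1,[z12,z3,z4,z12,z0,y12]),(z1,[z0,z0,z1]),
    (z1,[y6,z0,y2,y3,z0,z6]),(z1,[z15,z0,z5,z15,z1,y15]),(z1,[y24,y3,y9,y27,y1,z27])],.ref k25 k0 [(z7,[z6,z15,z0,z0,
    y4]),(z1,[z0,z0,z1]),(z7,[y3,z3,z0,z21,z2]),(z14,[z15,y15,z0,z0,z4]),(z7,[y12,y9,y7,y21,z1,z21])],
    .ref k25 k0 [(z5,[z6,z9,z0,z0,y2]),(z1,[z0,z0,z1]),(z5,[y3,z3,z0,z15,z1]),(z2,[z3,y3,z0,z0,z1]),(z5,[y12,y3,y5,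
    y15,y1,z15])],.ref k25 k0 [(z3,[y6,z9,y2,z0,y2,z6]),(z1,[z0,z0,z1]),(z3,[z3,z0,z1,z9,z1,y3]),(z6,[y15,z0,y5,z0,z1,
    z15]),(z3,[z12,y9,z1,y9,z1,y3])],.ref k25 k0 [(z3,[y12,z9,y4,y12,y4,z12]),(z1,[z0,z0,z1]),(z3,[z6,z0,z2,z15,z2,
    y6]),(z3,[y15,z0,y5,y15,y2,z15]),(z3,[z24,y9,z5,z15,z5,y15])],.ref k25 k0 [(z5,[z12,z15,y8,z0,y4]),(z1,[z0,z0,
    z1]),(z5,[y6,z0,z4,z15,z2]),(z1,[z3,z0,y2]),(z5,[y24,y15,z11,y15,z3,z15])],.ref k25 k0 [(z2,[y3,z3,z1,y3,y1,z3]),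
    (z1,[z0,z0,z1]),(z4,[z3,z3,y1,z15,z1,y3]),(z8,[y15,y15,z5,y15,z3,z15]),(z1,[z3,z0,y2])],.ref k25 k0 [(z1,[z12,z3,
    y8]),(z1,[z0,z0,z1]),(z1,[y6,z0,z4,z3]),(z1,[z15,z0,y10,z0,z1]),(z1,[y24,y3,z15,y3,y1,z3])],.ref k25 k0 [(z1,[y6,
    z3,z4,z6]),(z1,[z0,z0,z1]),(z1,[z3,z0,y2]),(z2,[y15,z0,z10,z15,z2]),(z1,[z12,y3,y9,y15,y1,z3])],.ref k25 k0 [(z1,
    [y12,z3,z4,z12]),(z1,[z0,z0,z1]),(z1,[z6,z0,y2,y3]),(z1,[y15,z0,z5,z15,z1]),(z1,[z24,y3,y9,y27,y1,z3])],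
    .ref k25 k0 [(z5,[z6,z15,y2,z0,y4]),(z1,[z0,z0,z1]),(z5,[y3,z0,z1,z15,z2]),(z2,[z3,z0,y1]),(z5,[y12,y15,y1,y15,z3,
    z15])],.ref k25 k0 [(z1,[y4,y1,z0,y4,z0,z4]),(z1,[z0,z0,z1]),(z1,[z2,z2,z0,z5,z0,y2]),(z1,[y5,y5,z0,y5,z1,z5]),
    (z1,[z8,z5,y1,z5,y1,y5])],.ref k25 k0 [(z3,[z6,z9,y2,z0,y2]),(z1,[z0,z0,z1]),(z3,[y3,z0,z1,z9,z1]),(z6,[z15,z0,y5,
    z0,z1]),(z3,[y12,y9,z1,y9,z1,z9])],.ref k25 k0 [(z7,[y12,z9,z0,y12,y4,z12]),(z1,[z0,z0,z1]),(z7,[z6,z6,z0,z27,z2,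
    y6]),(z7,[y15,y15,z0,y15,z2,z15]),(z7,[z24,z3,y7,z3,z1,y3])],.ref k25 k0 [(z1,[z6,z3,y2]),(z1,[z0,z0,z1]),(z1,[y3,
    z0,z1,z3]),(z2,[z15,z0,y5,z0,z2]),(z1,[y12,y3,z3,y3,y1,z3])],.ref k25 k0 [(z1,[z6,z9,z2,z6,y2,y6]),(z1,[z0,z0,
    z1]),(z1,[y3,y3,y1,z0,z1,z3]),(z2,[z15,z15,z5,z15,y3,y15]),(z1,[y12,y15,y5,y15,z3,z15])],.ref k25 k0 [(z1,[y6,y3,
    y2,y6,z0,z6]),(z1,[z0,z0,z1]),(z1,[z3,z3,z1,z6,z0,y3]),(z2,[y15,y15,y5,y15,z2,z15]),(z1,[z12,z9,z3,z9,y1,y9])],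
    .ref k25 k0 [(z7,[z12,z21,z0,z0,y4]),(z1,[z0,z0,z1]),(z7,[y6,z0,z0,z21,z2]),(z7,[z15,z0,z0,z0,z2]),(z7,[y24,y21,
    y7,y21,z1,z21])],.ref k25 k0 [(z3,[y6,z3,y2,y6,y2,z6]),(z1,[z0,z0,z1]),(z3,[z3,z3,z1,z12,z1,y3]),(z6,[y15,y15,y5,
    y15,z1,z15]),(z3,[z12,z3,z1,z3,z1,y3])],.ref k25 k0 [(z1,[z4,z3]),(z1,[z0,z0,z1]),(z1,[y2,z0,z0,z3]),(z1,[z5,z0,
    z0,z0,z1]),(z1,[y8,y3,y1,y3,y1,z3])]],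
    .lp k0 [(nat_lit 652),(nat_lit 654),(nat_lit 700),(nat_lit 592),(nat_lit 666),(nat_lit 572)] [k24,k24,k23,k23,k0,
    k0,k54,k54,k17,k17,k64,k64] k0 [[k0,k0,k14,k6,k0,k0,k0,k0,k0,k64,k64,k0],[k0,k0,k0,k0,k38,k22,k46,k14,k0,k0,k0,
    k0],[k0,k6,k0,k8,k24,k0,k20,k0,k0,k22,k0,k0],[k0,k14,k0,k0,k4,k0,k0,k0,k0,k58,k58,k14],[k22,k0,k0,k0,k0,k60,k84,
    k0,k0,k0,k0,k98],[k38,k0,k4,k24,k0,k0,k12,k0,k0,k38,k0,k0],[k14,k0,k0,k0,k0,k0,k0,k0,k102,k102,k0,k90],[k46,k0,k0,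
    k20,k12,k84,k0,k0,k0,k0,k0,k86],[k0,k64,k58,k22,k38,k0,k0,k102,k0,k0,k0,k0],[k0,k0,k0,k0,k0,k0,k0,k102,k0,k0,k16,
    k0],[k0,k0,k14,k0,k0,k98,k86,k90,k0,k0,k0,k0],[k0,k64,k58,k0,k0,k0,k0,k0,k16,k0,k0,k0]] (nat_lit 1920) k5
    [[(k0,(nat_lit 588)),(k11,(nat_lit 596)),(k10,(nat_lit 612)),(k5,(nat_lit 618)),(k1,(nat_lit 652)),(k3,
    (nat_lit 653)),(k8,(nat_lit 659)),(k2,(nat_lit 667)),(k4,(nat_lit 676)),(k6,(nat_lit 708)),(k7,(nat_lit 720)),(k9,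
    (nat_lit 749))],[(k1,(nat_lit 588)),(k8,(nat_lit 595)),(k10,(nat_lit 612)),(k11,(nat_lit 612)),(k7,(nat_lit 644)),
    (k2,(nat_lit 647)),(k0,(nat_lit 652)),(k3,(nat_lit 653)),(k5,(nat_lit 662)),(k6,(nat_lit 668)),(k9,(nat_lit 673)),
    (k4,(nat_lit 714))],[(k7,(nat_lit 585)),(k6,(nat_lit 609)),(k9,(nat_lit 614)),(k0,(nat_lit 653)),(k1,
    (nat_lit 653)),(k3,(nat_lit 654)),(k4,(nat_lit 655)),(k8,(nat_lit 660)),(k2,(nat_lit 668)),(k10,(nat_lit 677)),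
    (k11,(nat_lit 677)),(k5,(nat_lit 683))],[(k7,(nat_lit 599)),(k6,(nat_lit 623)),(k8,(nat_lit 638)),(k9,
    (nat_lit 640)),(k2,(nat_lit 646)),(k0,(nat_lit 647)),(k1,(nat_lit 667)),(k3,(nat_lit 668)),(k10,(nat_lit 671)),
    (k11,(nat_lit 671)),(k5,(nat_lit 677)),(k4,(nat_lit 681))],[(k1,(nat_lit 618)),(k10,(nat_lit 622)),(k8,
    (nat_lit 625)),(k7,(nat_lit 642)),(k11,(nat_lit 658)),(k0,(nat_lit 662)),(k6,(nat_lit 666)),(k2,(nat_lit 677)),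
    (k3,(nat_lit 683)),(k9,(nat_lit 683)),(k5,(nat_lit 708)),(k4,(nat_lit 724))],[(k10,(nat_lit 538)),(k9,
    (nat_lit 599)),(k4,(nat_lit 640)),(k7,(nat_lit 646)),(k3,(nat_lit 655)),(k6,(nat_lit 658)),(k11,(nat_lit 674)),
    (k1,(nat_lit 676)),(k2,(nat_lit 681)),(k8,(nat_lit 683)),(k0,(nat_lit 714)),(k5,(nat_lit 724))],[(k10,
    (nat_lit 582)),(k11,(nat_lit 582)),(k3,(nat_lit 585)),(k8,(nat_lit 591)),(k2,(nat_lit 599)),(k9,(nat_lit 617)),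
    (k5,(nat_lit 642)),(k0,(nat_lit 644)),(k4,(nat_lit 646)),(k7,(nat_lit 652)),(k6,(nat_lit 676)),(k1,
    (nat_lit 720))],[(k11,(nat_lit 480)),(k10,(nat_lit 492)),(k8,(nat_lit 527)),(k6,(nat_lit 592)),(k3,(nat_lit 609)),
    (k2,(nat_lit 623)),(k9,(nat_lit 629)),(k4,(nat_lit 658)),(k5,(nat_lit 666)),(k0,(nat_lit 668)),(k7,(nat_lit 676)),
    (k1,(nat_lit 708))],[(k10,(nat_lit 533)),(k4,(nat_lit 599)),(k3,(nat_lit 614)),(k7,(nat_lit 617)),(k6,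
    (nat_lit 629)),(k2,(nat_lit 640)),(k9,(nat_lit 666)),(k0,(nat_lit 673)),(k5,(nat_lit 683)),(k11,(nat_lit 721)),
    (k1,(nat_lit 749)),(k8,(nat_lit 768))],[(k6,(nat_lit 527)),(k7,(nat_lit 591)),(k0,(nat_lit 595)),(k11,
    (nat_lit 619)),(k5,(nat_lit 625)),(k10,(nat_lit 635)),(k2,(nat_lit 638)),(k1,(nat_lit 659)),(k3,(nat_lit 660)),
    (k8,(nat_lit 666)),(k4,(nat_lit 683)),(k9,(nat_lit 768))],[(k6,(nat_lit 480)),(k10,(nat_lit 572)),(k11,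
    (nat_lit 572)),(k7,(nat_lit 582)),(k1,(nat_lit 596)),(k0,(nat_lit 612)),(k8,(nat_lit 619)),(k5,(nat_lit 658)),(k2,
    (nat_lit 671)),(k4,(nat_lit 674)),(k3,(nat_lit 677)),(k9,(nat_lit 721))],[(k6,(nat_lit 492)),(k9,(nat_lit 533)),
    (k4,(nat_lit 538)),(k10,(nat_lit 572)),(k11,(nat_lit 572)),(k7,(nat_lit 582)),(k0,(nat_lit 612)),(k1,
    (nat_lit 612)),(k5,(nat_lit 622)),(k8,(nat_lit 635)),(k2,(nat_lit 671)),(k3,(nat_lit 677))]]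
    [[k3,k0,k0,k0,k0,k0],[k2,k1,k0,k0,k0,k0],[k2,k0,k0,k0,k0,k1],[k1,k1,k0,k0,k1,k0],[k1,k0,k1,k0,k0,k1],[k1,k0,k1,k0,
    k1,k0],[k1,k0,k0,k1,k0,k1],[k1,k0,k0,k0,k1,k1],[k1,k0,k0,k0,k0,k2],[k0,k2,k0,k1,k0,k0],[k0,k1,k1,k0,k0,k1],[k0,k1,
    k0,k2,k0,k0],[k0,k1,k0,k1,k1,k0],[k0,k1,k0,k1,k0,k1],[k0,k1,k0,k0,k1,k1],[k0,k0,k1,k1,k1,k0],[k0,k0,k1,k1,k0,k1],
    [k0,k0,k1,k2,k0,k0],[k0,k0,k1,k0,k1,k1],[k0,k0,k1,k0,k0,k2],[k0,k0,k0,k2,k1,k0],[k0,k0,k0,k2,k0,k1],[k0,k0,k0,k1,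
    k2,k0],[k0,k0,k0,k1,k1,k1],[k0,k0,k0,k1,k0,k2],[k0,k0,k0,k0,k1,k2],[k0,k0,k0,k0,k0,k3]]
    [.ref k25 k0 [(z1,[z1]),(z2,[y3,z1,z6]),(z12,[z3,y1,z0,z4]),(z1,[z0,z0,z0,z0,z1]),(z6,[y3,y1,y18,y2,y6,z18])],
    .ref k25 k0 [(z1,[z6,y1,y6]),(z1,[y9,z2,z12]),(z6,[z9,y2,y9,z2]),(z1,[z0,z0,z0,z0,z1]),(z3,[y9,z1,z0,y1,y3,z9])],
    .ref k25 k0 [(z11,[z12,z1]),(z11,[y18,z4,z33]),(z33,[z9,y2,z0,z11]),(z1,[z0,z0,z0,z0,z1]),(z33,[y18,y7,y99,y11,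
    y33,z99])],.ref k25 k0 [(z3,[y9,z1,z0,y1,y3,z9]),(z2,[z9,z0,z6,z1,z3,y9]),(z4,[y3,z0,z0,z1,y1,z3]),(z1,[z0,z0,z0,
    z0,z1]),(z6,[z9,y2,y18,y1,y3,z9])],.ref k25 k0 [(z6,[z9,z1,z0,y1]),(z4,[y9,z1,z12,z1]),(z24,[z9,y1,z0,z7]),(z1,
    [z0,z0,z0,z0,z1]),(z4,[y3,y1,y12,y1,y4,z12])],.ref k25 k0 [(z3,[z12,z1,z12,z0,z4,y12]),(z1,[y6,z0,y3,z0,y2,z6]),
    (z3,[z3,z0,z3,z1,z1,y3]),(z1,[z0,z0,z0,z0,z1]),(z3,[y6,y1,y15,y1,y5,z15])],.ref k25 k0 [(z7,[z12,z1,z0,z0,y4]),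
    (z7,[y18,z2,z21,z0,z6]),(z21,[z9,y1,z0,z7,y3]),(z1,[z0,z0,z0,z0,z1]),(z21,[y18,y5,y63,y7,y15,z63])],
    .ref k25 k0 [(z15,[z36,z5,z36,z4,z12,y36]),(z5,[y18,z0,y3,y2,y6,z18]),(z5,[z3,z0,z3,z2,z1,y3]),(z1,[z0,z0,z0,z0,
    z1]),(z15,[y18,y5,y63,y7,y21,z63])],.ref k25 k0 [(z5,[z6,z1]),(z5,[y9,z1,z15]),(z30,[z9,y1,z0,z10]),(z1,[z0,z0,z0,
    z0,z1]),(z15,[y9,y4,y45,y5,y15,z45])],.ref k25 k0 [(z3,[y3,z1,z6,z0,z1]),(z2,[z3,z0,z0,z0,y1]),(z12,[y3,z0,z6,z4,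
    z1]),(z1,[z0,z0,z0,z0,z1]),(z6,[z3,y2,y24,y2,y7,z18])],.ref k25 k0 [(z3,[y18,z1,z18,z2]),(z1,[z9,z0,y6,y1]),(z2,
    [y3,z0,z3,z1]),(z1,[z0,z0,z0,z0,z1]),(z3,[z9,y1,y18,y2,y3,z9])],.ref k25 k0 [(z3,[y6,z1,z6,z0,z4]),(z1,[z3,z0,z0,
    z0,y2]),(z6,[y3,z0,z3,z2,z2]),(z1,[z0,z0,z0,z0,z1]),(z3,[z3,y1,y12,y1,y5,z9])],.ref k25 k0 [(z6,[y9,z1,z0,y1,z0,
    z9]),(z4,[z9,z1,z12,z1,z0,y9]),(z24,[y9,y1,z0,z7,z0,z9]),(z1,[z0,z0,z0,z0,z1]),(z4,[z3,y1,y12,y1,y4,z9])],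
    .ref k25 k0 [(z3,[y12,z1,z12,z0,z4]),(z1,[z6,z0,y3,z0,y2]),(z3,[y3,z0,z3,z1,z1]),(z1,[z0,z0,z0,z0,z1]),(z3,[z6,y1,
    y15,y1,y5,z9])],.ref k25 k0 [(z15,[y36,z1,z0,y4,y12,z36]),(z5,[z18,z2,z15,z2,z6,y18]),(z15,[y9,y1,z0,z4,y3,z9]),
    (z1,[z0,z0,z0,z0,z1]),(z5,[z6,y1,y15,y1,y3,z9])],.ref k25 k0 [(z1,[y12,y1,y12,z0,z0,z12]),(z1,[z18,z2,z21,z0,z0,
    y18]),(z3,[y9,y1,y9,z1,z0,z9]),(z1,[z0,z0,z0,z0,z1]),(z3,[z18,z1,z9,y1,y3,y9])],.ref k25 k0 [(z3,[z9,z1,z0,y1,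
    y3]),(z2,[y9,z0,z6,z1,z3]),(z4,[z3,z0,z0,z1,y1]),(z1,[z0,z0,z0,z0,z1]),(z6,[y9,y2,y18,y1,y3,z18])],
    .ref k25 k0 [(z3,[z36,z1,z0,y4,y24]),(z1,[y18,z0,z3,z2,z12]),(z1,[z3,z0,z0,z0,y2]),(z1,[z0,z0,z0,z0,z1]),(z3,[y18,
    y1,y9,z1,z9,z9])],.ref k25 k0 [(z1,[z6,z1,z6,z0,z2,y6]),(z1,[y9,y1,y6,z0,y3,z9]),(z6,[z9,z1,z9,z2,z3,y9]),(z1,[z0,
    z0,z0,z0,z1]),(z3,[y9,y2,y18,y1,y6,z18])],.ref k25 k0 [(z21,[z36,z7,z0,y4]),(z7,[y18,z0,z21,z2]),(z7,[z3,z0,z0,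
    z2]),(z1,[z0,z0,z0,z0,z1]),(z21,[y18,y7,y63,y5,y21,z63])],.ref k25 k0 [(z3,[y18,y1,y18,y2,z6,z18]),(z1,[z9,z1,z12,
    z1,y3,y9]),(z6,[y9,y1,y9,z1,z3,z9]),(z1,[z0,z0,z0,z0,z1]),(z1,[z3,z0,z0,z0,y2])],.ref k25 k0 [(z3,[z12,z1,z0,z0,
    y8]),(z1,[y6,z0,z3,z0,z4]),(z3,[z3,z0,z0,z1,y2]),(z1,[z0,z0,z0,z0,z1]),(z3,[y6,y1,y9,y1,z1,z9])],.ref k25 k0 [(z3,
    [y9,y1,y18,y2,y3,z18]),(z2,[z9,z2,z24,z2,z3,y18]),(z12,[y9,y2,y18,z2,y3,z18]),(z1,[z0,z0,z0,z0,z1]),(z2,[z3,z0,z0,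
    z0,y1])],.ref k25 k0 [(z3,[z36,z5,z36,z4,z0,y36]),(z1,[y18,y2,y15,y2,z0,z18]),(z3,[z9,z1,z9,z2,z0,y9]),(z1,[z0,z0,
    z0,z0,z1]),(z1,[y6,y1,y9,y1,y1,z9])],.ref k25 k0 [(z3,[z6,z1,z0,z0,y2]),(z1,[y3,z0,z3,z0,z1]),(z6,[z3,z0,z0,z2,
    y1]),(z1,[z0,z0,z0,z0,z1]),(z3,[y3,y1,y9,y1,y2,z9])],.ref k25 k0 [(z3,[z9,z2,z9,z1,z3,y9]),(z2,[y9,y1,y3,y1,y3,
    z9]),(z12,[z9,z1,z9,z5,z3,y9]),(z1,[z0,z0,z0,z0,z1]),(z2,[y3,y1,y9,y1,y3,z9])],.ref k25 k0 [(z3,[z4,z1]),(z1,[y2,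
    z0,z3]),(z3,[z1,z0,z0,z1]),(z1,[z0,z0,z0,z0,z1]),(z3,[y2,y1,y9,y1,y3,z9])]]]

theorem hB6_171_20 : blkB [0, 0, 0, 0, 0, 0] [] sp6 hS6_171 (pcls (n := 6) [0, 0, 0, 0, 0, 0]) hD6_171 560 20 hN6_171_20 = true := by
  decide +kernel

/-- nodes 252 to 263 -/
noncomputable def hN6_171_21 : List HM :=
  [.lp k0 [(nat_lit 470),(nat_lit 428),(nat_lit 506),(nat_lit 518),(nat_lit 506),(nat_lit 440)] [k24,k24,k45,k45,k6,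
    k6,k0,k0,k6,k6,k39,k39] k0 [[k0,k0,k0,k0,k12,k12,k24,k0,k0,k0,k0,k12],[k6,k0,k0,k6,k0,k0,k0,k0,k18,k0,k0,k24],[k6,
    k0,k0,k6,k0,k0,k0,k0,k18,k0,k0,k24],[k0,k0,k0,k0,k12,k12,k24,k0,k0,k0,k0,k12],[k0,k12,k12,k0,k0,k0,k0,k0,k0,k42,
    k36,k0],[k0,k12,k12,k0,k0,k0,k0,k0,k0,k12,k0,k0],[k0,k0,k0,k0,k0,k0,k0,k0,k0,k0,k0,k0],[k0,k24,k24,k0,k0,k0,k0,k0,
    k0,k0,k6,k12],[k0,k0,k0,k0,k12,k42,k0,k0,k0,k0,k6,k0],[k18,k0,k0,k18,k0,k0,k0,k0,k0,k0,k0,k0],[k24,k12,k12,k24,k0,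
    k0,k12,k0,k0,k0,k0,k0],[k0,k0,k0,k0,k0,k36,k6,k0,k0,k6,k0,k0]] (nat_lit 1440) k5
    [[(k4,(nat_lit 452)),(k10,(nat_lit 455)),(k11,(nat_lit 455)),(k2,(nat_lit 461)),(k3,(nat_lit 461)),(k1,
    (nat_lit 470)),(k8,(nat_lit 482)),(k9,(nat_lit 482)),(k0,(nat_lit 494)),(k7,(nat_lit 494)),(k6,(nat_lit 506)),(k5,
    (nat_lit 512))],[(k10,(nat_lit 443)),(k2,(nat_lit 449)),(k3,(nat_lit 449)),(k11,(nat_lit 455)),(k9,(nat_lit 464)),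
    (k0,(nat_lit 476)),(k4,(nat_lit 476)),(k7,(nat_lit 482)),(k1,(nat_lit 494)),(k5,(nat_lit 494)),(k6,(nat_lit 494)),
    (k8,(nat_lit 506))],[(k10,(nat_lit 410)),(k11,(nat_lit 416)),(k2,(nat_lit 422)),(k3,(nat_lit 422)),(k0,
    (nat_lit 449)),(k1,(nat_lit 461)),(k5,(nat_lit 467)),(k8,(nat_lit 467)),(k9,(nat_lit 467)),(k4,(nat_lit 479)),(k7,
    (nat_lit 485)),(k6,(nat_lit 497))],[(k10,(nat_lit 410)),(k11,(nat_lit 416)),(k2,(nat_lit 422)),(k3,(nat_lit 422)),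
    (k0,(nat_lit 449)),(k1,(nat_lit 461)),(k5,(nat_lit 467)),(k8,(nat_lit 467)),(k9,(nat_lit 467)),(k4,(nat_lit 479)),
    (k7,(nat_lit 485)),(k6,(nat_lit 497))],[(k10,(nat_lit 461)),(k2,(nat_lit 467)),(k3,(nat_lit 467)),(k11,
    (nat_lit 473)),(k9,(nat_lit 482)),(k0,(nat_lit 494)),(k4,(nat_lit 494)),(k7,(nat_lit 500)),(k1,(nat_lit 512)),(k5,
    (nat_lit 512)),(k6,(nat_lit 512)),(k8,(nat_lit 524))],[(k1,(nat_lit 452)),(k8,(nat_lit 464)),(k10,(nat_lit 473)),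
    (k0,(nat_lit 476)),(k2,(nat_lit 479)),(k3,(nat_lit 479)),(k11,(nat_lit 485)),(k5,(nat_lit 494)),(k4,
    (nat_lit 506)),(k9,(nat_lit 506)),(k6,(nat_lit 512)),(k7,(nat_lit 512))],[(k0,(nat_lit 482)),(k2,(nat_lit 485)),
    (k3,(nat_lit 485)),(k1,(nat_lit 494)),(k5,(nat_lit 500)),(k8,(nat_lit 500)),(k4,(nat_lit 512)),(k9,(nat_lit 512)),
    (k10,(nat_lit 515)),(k6,(nat_lit 518)),(k7,(nat_lit 518)),(k11,(nat_lit 521))],[(k11,(nat_lit 479)),(k10,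
    (nat_lit 485)),(k0,(nat_lit 494)),(k2,(nat_lit 497)),(k3,(nat_lit 497)),(k1,(nat_lit 506)),(k4,(nat_lit 512)),(k5,
    (nat_lit 512)),(k8,(nat_lit 512)),(k9,(nat_lit 512)),(k6,(nat_lit 518)),(k7,(nat_lit 518))],[(k10,(nat_lit 461)),
    (k0,(nat_lit 464)),(k2,(nat_lit 467)),(k3,(nat_lit 467)),(k11,(nat_lit 473)),(k1,(nat_lit 482)),(k5,
    (nat_lit 482)),(k4,(nat_lit 506)),(k8,(nat_lit 506)),(k9,(nat_lit 506)),(k6,(nat_lit 512)),(k7,(nat_lit 512))],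
    [(k4,(nat_lit 464)),(k2,(nat_lit 467)),(k3,(nat_lit 467)),(k10,(nat_lit 473)),(k11,(nat_lit 473)),(k1,
    (nat_lit 482)),(k7,(nat_lit 500)),(k0,(nat_lit 506)),(k8,(nat_lit 506)),(k9,(nat_lit 506)),(k6,(nat_lit 512)),(k5,
    (nat_lit 524))],[(k2,(nat_lit 416)),(k3,(nat_lit 416)),(k11,(nat_lit 440)),(k10,(nat_lit 446)),(k0,(nat_lit 455)),
    (k1,(nat_lit 455)),(k5,(nat_lit 473)),(k8,(nat_lit 473)),(k9,(nat_lit 473)),(k6,(nat_lit 479)),(k4,(nat_lit 485)),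
    (k7,(nat_lit 521))],[(k2,(nat_lit 410)),(k3,(nat_lit 410)),(k10,(nat_lit 440)),(k0,(nat_lit 443)),(k11,
    (nat_lit 446)),(k1,(nat_lit 455)),(k5,(nat_lit 461)),(k9,(nat_lit 461)),(k4,(nat_lit 473)),(k8,(nat_lit 473)),(k6,
    (nat_lit 485)),(k7,(nat_lit 515))]]
    [[k2,k1,k0,k0,k0,k0],[k2,k0,k0,k0,k0,k1],[k1,k2,k0,k0,k0,k0],[k1,k1,k1,k0,k0,k0],[k1,k1,k0,k0,k1,k0],[k1,k1,k0,k0,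
    k0,k1],[k1,k0,k1,k0,k0,k1],[k1,k0,k0,k1,k0,k1],[k1,k0,k0,k0,k1,k1],[k1,k0,k0,k0,k0,k2],[k0,k3,k0,k0,k0,k0],[k0,k2,
    k1,k0,k0,k0],[k0,k2,k0,k1,k0,k0],[k0,k2,k0,k0,k1,k0],[k0,k2,k0,k0,k0,k1],[k0,k1,k1,k0,k1,k0],[k0,k1,k1,k0,k0,k1],
    [k0,k1,k0,k1,k0,k1],[k0,k1,k0,k0,k1,k1],[k0,k1,k0,k0,k0,k2],[k0,k0,k1,k0,k1,k1],[k0,k0,k1,k0,k0,k2],[k0,k0,k0,k0,
    k1,k2],[k0,k0,k0,k0,k0,k3]]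
    [.ref k25 k0 [(z10,[z9,z4,y9]),(z5,[z6,y4,z9]),(z5,[y9,z6,z9,z5]),(z5,[y3,z2,z3,z0,z15]),(z1,[z0,y1,y3,y1,y3,
    z3])],.ref k25 k0 [(z7,[z9,z1]),(z7,[z12,y8,z21]),(z7,[y18,z12,z0,z7]),(z7,[y6,z4,z0,z0,z21]),(z1,[z0,y1,y3,y1,y3,
    z3])],.ref k25 k0 [(z11,[z9,z8,y18]),(z11,[z12,y4,z9]),(z11,[y18,z6,z36,z11]),(z11,[y6,z2,z12,z0,z33]),(z1,[z0,y1,
    y3,y1,y3,z3])],.ref k25 k0 [(z1,[z9,y2,y9,y3]),(z1,[z12,y4,y9,y4]),(z1,[y18,z6,z18,z7]),(z1,[y6,z2,z6,z2,z3]),(z1,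
    [z0,y1,y3,y1,y3,z3])],.ref k25 k0 [(z7,[z9,z7,z0,z3,z9,y9]),(z7,[z12,z0,z21,z4,z12,y12]),(z7,[y18,z0,z0,z1,y18,
    z18]),(z7,[y6,z0,z0,y2,z15,z6]),(z1,[z0,y1,y3,y1,y3,z3])],.ref k25 k0 [(z8,[z9,z5,y9]),(z2,[z3,y1,z3]),(z4,[y9,z3,
    z9,z4]),(z4,[y3,z1,z3,z0,z12]),(z1,[z0,y1,y3,y1,y3,z3])],.ref k25 k0 [(z2,[y9,z5,z0,z3]),(z1,[y6,z2,z3,z2]),(z1,
    [z9,y3,z0,y2]),(z1,[z3,y1,z0,y1,z3]),(z1,[z0,y1,y3,y1,y3,z3])],.ref k25 k0 [(z2,[z9,y1,z0,z0,y9]),(z1,[z6,y2,z3,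
    z0,y6]),(z1,[y9,z3,z0,z1,z9]),(z1,[y3,z1,z0,z0,z6]),(z1,[z0,y1,y3,y1,y3,z3])],.ref k25 k0 [(z4,[z9,z4,z9,z3,z9,
    y9]),(z1,[z3,z0,z6,z1,z3,y3]),(z2,[y9,z0,y9,y1,y9,z9]),(z2,[y3,z0,y3,y1,z3,z3]),(z1,[z0,y1,y3,y1,y3,z3])],
    .ref k25 k0 [(z5,[z9,z2]),(z5,[z12,y4,z15]),(z5,[y18,z6,z0,z5]),(z5,[y6,z2,z0,z0,z15]),(z1,[z0,y1,y3,y1,y3,z3])],
    .ref k25 k0 [(z4,[z3,z4,y9]),(z1,[z1]),(z2,[y3,z0,z9,z2]),(z2,[y1,z0,z3,z0,z6]),(z1,[z0,y1,y3,y1,y3,z3])],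
    .ref k25 k0 [(z2,[z9,z2,y18,y3]),(z1,[z6,z0,y9,y2]),(z1,[y9,z0,z18,z4]),(z1,[y3,z0,z6,z1,z3]),(z1,[z0,y1,y3,y1,y3,
    z3])],.ref k25 k0 [(z2,[z3,z2,y6,z0,y3]),(z1,[z2,z0,y1,z0,y2]),(z1,[y3,z0,z6,z1,z3]),(z1,[y1,z0,z2,z0,z4]),(z1,
    [z0,y1,y3,y1,y3,z3])],.ref k25 k0 [(z8,[z9,z11,y9,z3,z9,y9]),(z2,[z3,z1,z3,z1,z3,y3]),(z4,[y9,y3,z9,z1,y9,z9]),
    (z4,[y3,y1,z3,y1,z9,z3]),(z1,[z0,y1,y3,y1,y3,z3])],.ref k25 k0 [(z1,[z1,z1,y2]),(z3,[z4,z0,z1]),(z1,[y2,z0,z4,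
    z1]),(z3,[y2,z0,z4,z0,z9]),(z1,[z0,y1,y3,y1,y3,z3])],.ref k25 k0 [(z2,[y9,y1,z0,z0,y9,z9]),(z1,[y6,y2,z3,z0,y6,
    z6]),(z1,[z9,z3,z0,z1,z9,y9]),(z1,[z3,z1,z0,z0,z6,y3]),(z1,[z0,y1,y3,y1,y3,z3])],.ref k25 k0 [(z1,[y9,z1,z9,z3]),
    (z1,[y12,z0,z15,z4]),(z1,[z18,z0,y18,y5]),(z1,[z6,z0,y6,y2,z3]),(z1,[z0,y1,y3,y1,y3,z3])],.ref k25 k0 [(z1,[z3,z1,
    y3,z0,y3]),(z1,[z4,z0,y1,z0,y4]),(z1,[y6,z0,z6,z1,z6]),(z1,[y2,z0,z2,z0,z5]),(z1,[z0,y1,y3,y1,y3,z3])],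
    .ref k25 k0 [(z5,[z9,z8,z0,z3,z9,y9]),(z5,[z12,z4,z15,z4,z12,y12]),(z5,[y18,y6,z0,y1,y18,z18]),(z5,[y6,y2,z0,y2,
    z9,z6]),(z1,[z0,y1,y3,y1,y3,z3])],.ref k25 k0 [(z2,[z3,z2,y3]),(z1,[z2,z0,z1]),(z1,[y3,z0,z3,z1]),(z1,[y1,z0,z1,
    z0,z3]),(z1,[z0,y1,y3,y1,y3,z3])],.ref k25 k0 [(z5,[y9,z2,y9,z0,y9,z9]),(z5,[y12,y4,z3,z0,y12,z12]),(z5,[z18,z6,
    z18,z5,z18,y18]),(z5,[z6,z2,z6,z0,z21,y6]),(z1,[z0,y1,y3,y1,y3,z3])],.ref k25 k0 [(z4,[y9,z4,z0,z3]),(z1,[y3,z0,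
    z3,z1]),(z2,[z9,z0,z0,y1]),(z2,[z3,z0,z0,y1,z6]),(z1,[z0,y1,y3,y1,y3,z3])],.ref k25 k0 [(z2,[z9,z5,z9,z3,z9,y9]),
    (z1,[z6,z2,z9,z2,z6,y6]),(z1,[y9,y3,y9,y2,y9,z9]),(z1,[y3,y1,y3,y1,z0,z3]),(z1,[z0,y1,y3,y1,y3,z3])],
    .ref k25 k0 [(z1,[z3,z1]),(z1,[z4,z0,z3]),(z1,[y6,z0,z0,z1]),(z1,[y2,z0,z0,z0,z3]),(z1,[z0,y1,y3,y1,y3,z3])]],
    .base (.leafM k3 [k1,k2,k3,k4,k5,k0] [(z3,[y3,y1,z0,y1,z3])] []),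
    .lp k0 [k80,k72,k82,k84,k84,k76] [k2,k2,k8,k4,k1,k1,k0,k0,k0,k0,k4,k4] k0 [[k0,k0,k0,k4,k4,k4,k8,k0,k0,k0,k0,k4],
    [k10,k0,k0,k2,k0,k0,k0,k0,k4,k0,k0,k16],[k2,k4,k0,k2,k0,k0,k0,k0,k0,k0,k0,k0],[k0,k0,k0,k0,k0,k0,k4,k0,k0,k0,k0,
    k0],[k0,k4,k0,k0,k0,k0,k0,k0,k0,k4,k2,k0],[k0,k4,k0,k0,k0,k0,k0,k0,k0,k0,k0,k0],[k0,k0,k0,k0,k0,k0,k0,k0,k0,k0,k0,
    k0],[k0,k8,k4,k0,k0,k0,k0,k0,k0,k0,k2,k4],[k0,k0,k0,k0,k0,k4,k0,k0,k0,k0,k12,k0],[k4,k0,k0,k0,k0,k0,k0,k0,k0,k0,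
    k0,k0],[k16,k4,k0,k0,k0,k0,k4,k0,k0,k0,k0,k0],[k0,k0,k0,k0,k0,k2,k2,k0,k0,k12,k0,k0]] (nat_lit 240) k5
    [[(k8,k70),(k2,k74),(k10,k78),(k11,k78),(k4,k79),(k1,k80),(k9,k80),(k5,k81),(k3,k82),(k7,k82),(k6,k86),(k0,k96)],
    [(k2,k70),(k9,k74),(k10,k74),(k4,k77),(k3,k78),(k7,k78),(k11,k78),(k6,k82),(k5,k83),(k8,k86),(k0,k90),(k1,k96)],
    [(k10,k60),(k3,k66),(k2,k70),(k11,k72),(k0,k78),(k8,k80),(k9,k80),(k1,k82),(k4,k83),(k5,k83),(k7,k84),(k6,k88)],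
    [(k2,k66),(k0,k70),(k3,k70),(k10,k72),(k11,k72),(k1,k74),(k4,k75),(k5,k75),(k7,k76),(k8,k76),(k9,k76),(k6,k80)],
    [(k2,k75),(k9,k79),(k10,k79),(k11,k79),(k1,k81),(k4,k82),(k0,k83),(k3,k83),(k6,k83),(k7,k83),(k8,k83),(k5,k84)],
    [(k2,k75),(k0,k77),(k1,k79),(k8,k79),(k10,k79),(k11,k79),(k4,k82),(k5,k82),(k3,k83),(k6,k83),(k7,k83),(k9,k83)],
    [(k2,k76),(k0,k78),(k1,k82),(k10,k82),(k4,k83),(k5,k83),(k3,k84),(k6,k84),(k7,k84),(k8,k84),(k9,k84),(k11,k84)],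
    [(k2,k80),(k11,k80),(k0,k82),(k10,k82),(k4,k83),(k5,k83),(k6,k84),(k7,k84),(k8,k84),(k9,k84),(k1,k86),(k3,k88)],
    [(k0,k74),(k2,k76),(k10,k76),(k5,k79),(k1,k80),(k3,k80),(k11,k80),(k4,k83),(k6,k84),(k7,k84),(k8,k84),(k9,k84)],
    [(k1,k70),(k2,k76),(k4,k79),(k3,k80),(k10,k80),(k11,k80),(k5,k83),(k6,k84),(k7,k84),(k8,k84),(k9,k84),(k0,k86)],
    [(k2,k72),(k3,k72),(k11,k76),(k0,k78),(k1,k78),(k4,k79),(k5,k79),(k6,k80),(k8,k80),(k9,k80),(k7,k84),(k10,k88)],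
    [(k3,k60),(k2,k72),(k0,k74),(k9,k76),(k10,k76),(k1,k78),(k4,k79),(k5,k79),(k8,k80),(k6,k82),(k7,k82),(k11,k88)]]
    [[k2,k1,k0,k0,k0,k0],[k2,k0,k0,k0,k0,k1],[k1,k2,k0,k0,k0,k0],[k1,k1,k1,k0,k0,k0],[k1,k1,k0,k0,k1,k0],[k1,k1,k0,k0,
    k0,k1],[k1,k0,k1,k0,k1,k0],[k1,k0,k1,k0,k0,k1],[k1,k0,k0,k1,k0,k1],[k1,k0,k0,k1,k1,k0],[k1,k0,k0,k0,k2,k0],[k1,k0,
    k0,k0,k1,k1],[k1,k0,k0,k0,k0,k2],[k0,k3,k0,k0,k0,k0],[k0,k2,k1,k0,k0,k0],[k0,k2,k0,k1,k0,k0],[k0,k2,k0,k0,k1,k0],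
    [k0,k2,k0,k0,k0,k1],[k0,k1,k1,k0,k1,k0],[k0,k1,k1,k0,k0,k1],[k0,k1,k0,k1,k0,k1],[k0,k1,k0,k0,k1,k1],[k0,k1,k0,k0,
    k0,k2],[k0,k0,k1,k0,k1,k1],[k0,k0,k1,k0,k0,k2],[k0,k0,k0,k0,k1,k2]]
    [.ref k25 k0 [(z5,[z12,y9,y4]),(z5,[y9,z18,z8]),(z5,[y6,z12,z2,z15]),(z1,[z0,z0,z0,z0,z1]),(z5,[z3,y6,y1])],
    .ref k25 k0 [(z2,[z3,z3,z1,z3,z1,y3]),(z8,[y9,z9,z5,y9,y3,z9]),(z4,[y3,z3,y1,z9,y1,z3]),(z1,[z0,z0,z0,z0,z1]),(z8,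
    [z3,y3,z1,z3,z1,y3])],.ref k25 k0 [(z1,[y6,z9,z4]),(z2,[z9,y9,y4]),(z1,[z3,y3,y2,z3]),(z1,[z0,z0,z0,z0,z1]),(z2,
    [y3,z3,z2])],.ref k25 k0 [(z1,[y12,z15,z4,z12]),(z1,[z9,y9,y2,y9]),(z1,[z6,y6,y2,y3]),(z1,[z0,z0,z0,z0,z1]),(z1,
    [y3,z3,z1,z3])],.ref k25 k0 [(z1,[z6,y3,y2]),(z2,[y9,z9,z5]),(z1,[y3,z3,z1,z3]),(z1,[z0,z0,z0,z0,z1]),(z2,[z3,y3,
    y1])],.ref k25 k0 [(z1,[z12,z3,z0,z12,z4,y12]),(z1,[y9,z0,z1,y9,y3,z9]),(z1,[y6,z0,z0,y3,y2,z6]),(z1,[z0,z0,z0,z0,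
    z1]),(z1,[z3,z0,z0,z3,z1,y3])],.ref k25 k0 [(z1,[z4,y1,z0,y4]),(z1,[y3,z3,z1,z3]),(z1,[y2,z2,z0,z5]),(z1,[z0,z0,
    z0,z0,z1]),(z1,[z1,y1,z0,y1])],.ref k25 k0 [(z1,[z6,z3,z2,z0,z2,y6]),(z2,[y9,z0,y1,z0,y3,z9]),(z1,[y3,z0,y1,z3,y1,
    z3]),(z1,[z0,z0,z0,z0,z1]),(z2,[z3,z0,z1,z0,z1,y3])],.ref k25 k0 [(z1,[z3,z3,z1,z3,z0,y3]),(z4,[y9,z0,z1,y9,z0,
    z9]),(z2,[y3,z0,y1,z3,z0,z3]),(z1,[z0,z0,z0,z0,z1]),(z4,[z3,z0,z1,z3,z0,y3])],.ref k25 k0 [(z5,[z12,z3,z0,z0,y4]),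
    (z5,[y9,z9,z5,z0,z3]),(z5,[y6,z6,z0,z15,z2]),(z1,[z0,z0,z0,z0,z1]),(z5,[z3,y3,z0,z0,y1])],.ref k25 k0 [(z1,[z2,
    z1]),(z2,[y3,z3,z2]),(z1,[y1,z1,z0,z3]),(z1,[z0,z0,z0,z0,z1]),(z2,[z1,y1])],.ref k25 k0 [(z5,[z12,z15,z4,z12,z4,
    y12]),(z5,[y9,z0,z2,y9,y3,z9]),(z5,[y6,z0,y2,z9,y2,z6]),(z1,[z0,z0,z0,z0,z1]),(z5,[z3,z0,z1,z3,z1,y3])],
    .ref k25 k0 [(z1,[z3,z6,z2,z6,z2,y6]),(z4,[y9,y9,y2,y18,y6,z18]),(z2,[y3,y3,y2,z0,y2,z6]),(z1,[z0,z0,z0,z0,z1]),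
    (z4,[z3,z3,z2,z6,z2,y6])],.ref k25 k0 [(z3,[y4,z9,z4]),(z1,[z1]),(z3,[z2,z0,y2,z9]),(z1,[z0,z0,z0,z0,z1]),(z3,[y1,
    z0,z1])],.ref k25 k0 [(z2,[y3,z6,z2,z3]),(z8,[z9,z0,z2,y9]),(z4,[z3,z0,y2,z9]),(z1,[z0,z0,z0,z0,z1]),(z8,[y3,z0,
    z2,z3])],.ref k25 k0 [(z3,[y6,z9,z4,z0,z2]),(z2,[z3,z0,z0,z0,y1]),(z3,[z3,z0,y2,z9,y1]),(z1,[z0,z0,z0,z0,z1]),(z6,
    [y3,z0,z2,z0,z1])],.ref k25 k0 [(z5,[y12,z15,z8]),(z5,[z9,z0,y1]),(z5,[z6,z0,y4,z15]),(z1,[z0,z0,z0,z0,z1]),(z5,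
    [y3,z0,z2])],.ref k25 k0 [(z3,[y6,z3,z2,y6,y2,z6]),(z2,[z3,z3,z1,z3,z1,y3]),(z3,[z3,z3,y1,z12,z1,y3]),(z1,[z0,z0,
    z0,z0,z1]),(z6,[y3,y3,z1,y3,y1,z3])],.ref k25 k0 [(z1,[y3,z3,z1,z3]),(z4,[z9,z0,z1,y9]),(z2,[z3,z0,y1,z3]),(z1,
    [z0,z0,z0,z0,z1]),(z4,[y3,z0,z1,z3])],.ref k25 k0 [(z5,[y12,z3,z0,z0,y4,z12]),(z5,[z9,z9,z5,z0,z3,y9]),(z5,[z6,z6,
    z0,z15,z2,y6]),(z1,[z0,z0,z0,z0,z1]),(z5,[y3,y3,z0,z0,y1,z3])],.ref k25 k0 [(z1,[y4,y1,z0,y4,z0,z4]),(z1,[z3,z3,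
    z1,z3,z0,y3]),(z1,[z2,z2,z0,z5,z0,y2]),(z1,[z0,z0,z0,z0,z1]),(z1,[y1,y1,z0,y1,z0,z1])],.ref k25 k0 [(z1,[y6,y3,z0,
    y6,y2,z6]),(z2,[z9,z9,z2,z9,z3,y9]),(z1,[z3,z3,z0,z6,z1,y3]),(z1,[z0,z0,z0,z0,z1]),(z2,[y3,y3,z0,y3,y1,z3])],
    .ref k25 k0 [(z3,[y12,y15,y4,y24,y8,z24]),(z1,[z3,z6,z2,z6,z2,y6]),(z3,[z6,z12,z2,z21,z4,y12]),(z1,[z0,z0,z0,z0,
    z1]),(z3,[y3,y6,y1,y6,y2,z6])],.ref k25 k0 [(z1,[y12,y9,y4,z0,y4,z12]),(z1,[z9,z9,z4,z0,z3,y9]),(z1,[z6,z6,z2,z3,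
    z2,y6]),(z1,[z0,z0,z0,z0,z1]),(z1,[y3,y3,y1,z0,y1,z3])],.ref k25 k0 [(z1,[y6,y9,y4,y6,y4,z12]),(z2,[z9,z18,z8,z9,
    z6,y18]),(z1,[z3,z6,z2,z6,z2,y6]),(z1,[z0,z0,z0,z0,z1]),(z2,[y3,y6,y2,y3,y2,z6])],.ref k25 k0 [(z1,[z12,z27,z8,
    z24,z8,y24]),(z1,[y9,y18,y5,y18,y6,z18]),(z1,[y6,y12,y4,y9,y4,z12]),(z1,[z0,z0,z0,z0,z1]),(z1,[z3,z6,z2,z6,z2,
    y6])]],
    .lp k0 [k154,k144,k168,k172,k150,k170] [k9,k9,k14,k14,k2,k2,k0,k0,k11,k11,k1,k1] k0 [[k0,k0,k0,k0,k2,k0,k8,k0,k18,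
    k16,k0,k12],[k16,k0,k0,k8,k0,k0,k6,k0,k0,k0,k0,k6],[k8,k0,k0,k0,k0,k0,k4,k0,k24,k0,k0,k0],[k0,k0,k0,k0,k0,k0,k0,
    k0,k16,k0,k2,k4],[k0,k0,k0,k0,k0,k0,k0,k0,k0,k0,k0,k10],[k0,k2,k0,k0,k0,k0,k0,k12,k24,k0,k0,k0],[k0,k0,k0,k0,k12,
    k0,k0,k10,k20,k20,k0,k0],[k6,k8,k0,k4,k0,k0,k0,k0,k0,k0,k2,k10],[k0,k16,k0,k0,k0,k0,k0,k20,k0,k0,k26,k0],[k0,k18,
    k16,k24,k24,k0,k0,k20,k0,k0,k0,k0],[k6,k12,k4,k0,k0,k10,k10,k0,k0,k0,k0,k0],[k0,k0,k2,k0,k0,k0,k2,k0,k0,k26,k4,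
    k0]] (nat_lit 480) k5
    [[(k8,k126),(k1,k150),(k9,k150),(k2,k153),(k5,k159),(k0,k160),(k3,k161),(k4,k161),(k10,k162),(k11,k162),(k6,k173),
    (k7,k173)],[(k8,k136),(k9,k144),(k11,k144),(k2,k149),(k3,k149),(k10,k150),(k1,k160),(k4,k161),(k7,k161),(k5,k169),
    (k6,k169),(k0,k170)],[(k3,k128),(k2,k136),(k9,k141),(k0,k149),(k10,k151),(k5,k156),(k4,k158),(k7,k158),(k1,k161),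
    (k8,k165),(k6,k166),(k11,k173)],[(k11,k133),(k3,k136),(k9,k143),(k2,k144),(k0,k149),(k1,k153),(k4,k156),(k5,k156),
    (k6,k158),(k7,k158),(k10,k159),(k8,k163)],[(k11,k153),(k2,k156),(k3,k156),(k1,k159),(k9,k159),(k10,k165),(k4,
    k168),(k5,k168),(k0,k169),(k7,k170),(k6,k174),(k8,k183)],[(k2,k156),(k3,k158),(k10,k159),(k0,k161),(k1,k161),(k4,
    k168),(k5,k168),(k11,k169),(k6,k170),(k7,k170),(k9,k171),(k8,k183)],[(k11,k147),(k2,k158),(k3,k158),(k6,k160),(k0,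
    k161),(k8,k161),(k9,k161),(k4,k170),(k5,k170),(k10,k171),(k7,k172),(k1,k173)],[(k8,k141),(k11,k151),(k2,k158),(k7,
    k160),(k9,k161),(k6,k162),(k3,k166),(k0,k169),(k4,k170),(k1,k173),(k10,k173),(k5,k174)],[(k3,k141),(k2,k143),(k0,
    k144),(k1,k150),(k10,k150),(k5,k159),(k9,k160),(k6,k161),(k7,k161),(k8,k170),(k4,k171),(k11,k180)],[(k1,k126),(k0,
    k136),(k6,k141),(k8,k150),(k10,k160),(k11,k160),(k7,k161),(k2,k163),(k3,k165),(k9,k170),(k4,k183),(k5,k183)],[(k2,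
    k133),(k0,k144),(k7,k147),(k6,k151),(k5,k153),(k8,k160),(k1,k162),(k4,k169),(k11,k170),(k3,k173),(k9,k180),(k10,
    k196)],[(k0,k150),(k9,k150),(k3,k151),(k2,k159),(k4,k159),(k8,k160),(k1,k162),(k5,k165),(k7,k171),(k6,k173),(k10,
    k174),(k11,k196)]]
    [[k2,k1,k0,k0,k0,k0],[k2,k0,k0,k0,k1,k0],[k2,k0,k0,k0,k0,k1],[k1,k2,k0,k0,k0,k0],[k1,k1,k1,k0,k0,k0],[k1,k1,k0,k0,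
    k1,k0],[k1,k1,k0,k0,k0,k1],[k1,k0,k1,k0,k1,k0],[k1,k0,k1,k0,k0,k1],[k1,k0,k0,k1,k1,k0],[k1,k0,k0,k1,k0,k1],[k1,k0,
    k0,k0,k2,k0],[k1,k0,k0,k0,k1,k1],[k0,k3,k0,k0,k0,k0],[k0,k2,k1,k0,k0,k0],[k0,k2,k0,k1,k0,k0],[k0,k2,k0,k0,k1,k0],
    [k0,k2,k0,k0,k0,k1],[k0,k1,k1,k0,k0,k1],[k0,k1,k0,k1,k1,k0],[k0,k1,k0,k1,k0,k1],[k0,k1,k0,k2,k0,k0],[k0,k1,k0,k0,
    k2,k0],[k0,k1,k0,k0,k1,k1],[k0,k0,k1,k1,k1,k0],[k0,k0,k1,k0,k1,k1],[k0,k0,k0,k2,k1,k0],[k0,k0,k0,k1,k2,k0],[k0,k0,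
    k0,k1,k1,k1],[k0,k0,k0,k1,k0,k2]]
    [.ref k25 k0 [(z2,[z15,y2,y15]),(z1,[y12,z2,z15]),(z4,[z6,y1,y6,z3]),(z2,[y6,z1,z6,z0,z3]),(z4,[z0,y1,y12,y3,y6,
    z12])],.ref k25 k0 [(z8,[z12,z1,z12,z3,z6,y12]),(z5,[y12,z1,z3,y3,y6,z12]),(z40,[z12,y1,z12,z33,z6,y12]),(z20,
    [y12,z1,y12,y3,z24,z12]),(z4,[z0,y1,y12,y3,y6,z12])],.ref k25 k0 [(z14,[z15,z1]),(z7,[y12,z2,z21]),(z28,[z6,y1,z0,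
    z21]),(z14,[y6,z1,z0,z0,z21]),(z4,[z0,y1,y12,y3,y6,z12])],.ref k25 k0 [(z11,[y15,z4,z30]),(z11,[z24,y2,y15]),(z44,
    [y12,z1,z24,z33]),(z22,[z12,y1,y24,z0,z33]),(z4,[z0,y1,y12,y3,y6,z12])],.ref k25 k0 [(z8,[y60,z7,z60,z15]),(z1,
    [z12,y1,y9,y3]),(z8,[y12,z1,z12,z9]),(z4,[z12,y1,y12,y3,z6]),(z4,[z0,y1,y12,y3,y6,z12])],.ref k25 k0 [(z4,[y20,z1,
    z0,y5,y10,z20]),(z1,[z8,z0,z3,z2,z4,y8]),(z2,[y2,z0,z0,z1,y1,z2]),(z2,[z4,z0,z0,z1,z5,y4]),(z4,[z0,y1,y12,y3,y6,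
    z12])],.ref k25 k0 [(z1,[z15,y1,y15]),(z1,[y24,z2,z27]),(z4,[z12,y1,y12,z3]),(z2,[y12,z1,z12,z0,z3]),(z4,[z0,y1,
    y12,y3,y6,z12])],.ref k25 k0 [(z4,[z10,z1,z10,z0,z5,y10]),(z1,[y4,z0,y1,z0,y2,z4]),(z4,[z2,z0,z2,z3,z1,y2]),(z1,
    [y1,z0,y1,z0,z1,z1]),(z4,[z0,y1,y12,y3,y6,z12])],.ref k25 k0 [(z8,[z12,z1,z0,y3]),(z5,[y12,z1,z15,z3]),(z40,[z12,
    y1,z0,z27]),(z20,[y12,z1,z0,z3,z30]),(z4,[z0,y1,y12,y3,y6,z12])],.ref k25 k0 [(z4,[z20,z1,z20,z5,z0,y20]),(z1,[y8,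
    z0,y5,y2,z0,z8]),(z1,[z1,z0,z1,z1,z0,y1]),(z2,[y4,z0,y4,y1,z3,z4]),(z4,[z0,y1,y12,y3,y6,z12])],.ref k25 k0 [(z14,
    [z30,z1,z0,z0,y15]),(z7,[y24,z2,z21,z0,z12]),(z28,[z12,y1,z0,z21,y6]),(z14,[y12,z1,z0,z0,z27]),(z4,[z0,y1,y12,y3,
    y6,z12])],.ref k25 k0 [(z2,[z6,z1,z12,z3,z6,y12]),(z5,[y24,y2,y33,y12,y24,z48]),(z20,[z12,z1,z24,z21,z12,y24]),
    (z10,[y12,y1,y24,y6,z3,z24]),(z4,[z0,y1,y12,y3,y6,z12])],.ref k25 k0 [(z12,[z20,z3,z20,z5,z10,y20]),(z3,[y8,z0,z1,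
    y2,y4,z8]),(z6,[z2,z0,z2,z5,z1,y2]),(z6,[y4,z0,y4,y1,z7,z4]),(z4,[z0,y1,y12,y3,y6,z12])],.ref k25 k0 [(z8,[y5,z2,
    z15]),(z1,[z1]),(z8,[y1,z0,z3,z6]),(z4,[z1,z0,y3,z0,z6]),(z4,[z0,y1,y12,y3,y6,z12])],.ref k25 k0 [(z4,[y4,z1,z8,
    z1]),(z5,[z8,z0,y1,y2]),(z5,[y1,z0,z2,z4]),(z10,[z4,z0,y8,y1,z15]),(z4,[z0,y1,y12,y3,y6,z12])],.ref k25 k0 [(z12,
    [y10,z3,z20,z0,z5]),(z3,[z4,z0,z1,z0,y2]),(z12,[y2,z0,z4,z9,z1]),(z3,[z1,z0,y2,z0,z4]),(z4,[z0,y1,y12,y3,y6,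
    z12])],.ref k25 k0 [(z64,[y60,z11,z60,y15,y30,z60]),(z8,[z12,z1,z12,z3,z6,y12]),(z64,[y12,y1,z12,z45,y6,z12]),
    (z32,[z12,z1,y12,z3,z54,y12]),(z4,[z0,y1,y12,y3,y6,z12])],.ref k25 k0 [(z4,[y5,z1,z10]),(z1,[z2,z0,y1]),(z4,[y1,
    z0,z2,z3]),(z2,[z1,z0,y2,z0,z3]),(z4,[z0,y1,y12,y3,y6,z12])],.ref k25 k0 [(z4,[y20,z1,z20,z5]),(z1,[z8,z0,y5,y2]),
    (z1,[y1,z0,z1,z1]),(z2,[z4,z0,y4,y1,z3]),(z4,[z0,y1,y12,y3,y6,z12])],.ref k25 k0 [(z8,[y12,z1,z0,y3,z0,z12]),(z5,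
    [z12,z1,z15,z3,z0,y12]),(z40,[y12,y1,z0,z27,z0,z12]),(z20,[z12,z1,z0,z3,z30,y12]),(z4,[z0,y1,y12,y3,y6,z12])],
    .ref k25 k0 [(z4,[y10,z1,z10,z0,z5]),(z1,[z4,z0,y1,z0,y2]),(z4,[y2,z0,z2,z3,z1]),(z1,[z1,z0,y1,z0,z1]),(z4,[z0,y1,
    y12,y3,y6,z12])],.ref k25 k0 [(z4,[y5,z1,z5,z0,z5]),(z1,[z2,z0,z1,z0,y2]),(z4,[y1,z0,z1,z3,z1]),(z2,[z1,z0,y1,z0,
    z2]),(z4,[z0,y1,y12,y3,y6,z12])],.ref k25 k0 [(z16,[y30,y1,y30,y15,y30,z60]),(z2,[z6,z1,z12,z3,z6,y12]),(z16,[y6,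
    y1,y6,z9,y6,z12]),(z8,[z6,z1,z6,z3,z18,y12]),(z4,[z0,y1,y12,y3,y6,z12])],.ref k25 k0 [(z16,[y60,y1,z0,y15,y30,
    z60]),(z2,[z12,z1,z6,z3,z6,y12]),(z16,[y12,y1,z0,z9,y6,z12]),(z8,[z12,z1,z0,z3,z18,y12]),(z4,[z0,y1,y12,y3,y6,
    z12])],.ref k25 k0 [(z1,[y15,y1,y15,z0,z0,z15]),(z1,[z24,z2,z27,z0,z0,y24]),(z4,[y12,y1,y12,z3,z0,z12]),(z2,[z12,
    z1,z12,z0,z3,y12]),(z4,[z0,y1,y12,y3,y6,z12])],.ref k25 k0 [(z2,[z6,z1,z6,z0,z3,y6]),(z5,[y24,y2,y9,z0,y12,z24]),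
    (z20,[z12,z1,z12,z15,z6,y12]),(z10,[y12,y1,y12,z0,z9,z12]),(z4,[z0,y1,y12,y3,y6,z12])],.ref k25 k0 [(z16,[y60,y1,
    y60,y15,z30,z60]),(z2,[z12,z1,z18,z3,y6,y12]),(z16,[y12,y1,y12,z9,z6,z12]),(z8,[z12,z1,z12,z3,z6,y12]),(z4,[z0,y1,
    y12,y3,y6,z12])],.ref k25 k0 [(z4,[y30,y4,y60,y15,y15,z60]),(z1,[z12,z2,z27,z6,z6,y24]),(z4,[y6,y1,y12,z0,y3,
    z12]),(z2,[z6,z1,z12,z3,z6,y12]),(z4,[z0,y1,y12,y3,y6,z12])],.ref k25 k0 [(z8,[z60,z7,z60,z15,z0,y60]),(z1,[y12,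
    y1,y9,y3,z0,z12]),(z8,[z12,z1,z12,z9,z0,y12]),(z4,[y12,y1,y12,y3,z6,z12]),(z4,[z0,y1,y12,y3,y6,z12])],
    .ref k25 k0 [(z4,[z10,z1,z0,z0,y5]),(z1,[y4,z0,z3,z0,z2]),(z4,[z2,z0,z0,z3,y1]),(z1,[y1,z0,z0,z0,z2]),(z4,[z0,y1,
    y12,y3,y6,z12])]],
    .lp k0 [k158,k150,k168,k168,k168,k144] [k5,k5,k9,k9,k0,k0,k0,k0,k0,k0,k12,k12] k0 [[k0,k0,k0,k0,k2,k8,k10,k0,k0,
    k0,k0,k0],[k20,k0,k0,k0,k0,k0,k0,k0,k0,k0,k0,k20],[k0,k0,k0,k0,k0,k0,k0,k0,k0,k2,k4,k0],[k0,k0,k0,k0,k0,k4,k6,k0,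
    k0,k0,k0,k0],[k0,k8,k4,k0,k0,k0,k0,k0,k0,k0,k0,k0],[k0,k2,k0,k0,k0,k0,k0,k0,k0,k0,k2,k0],[k0,k0,k0,k0,k0,k0,k0,k0,
    k0,k0,k0,k0],[k0,k10,k6,k0,k0,k0,k0,k0,k0,k0,k0,k0],[k0,k0,k0,k2,k0,k0,k0,k0,k0,k0,k0,k0],[k0,k0,k0,k0,k0,k0,k0,
    k0,k0,k0,k0,k0],[k20,k0,k0,k0,k0,k0,k0,k0,k0,k0,k0,k20],[k0,k0,k0,k4,k2,k0,k0,k0,k0,k0,k0,k0]] (nat_lit 480) k5
    [[(k2,k150),(k10,k151),(k11,k151),(k3,k154),(k7,k161),(k4,k163),(k5,k163),(k6,k163),(k8,k163),(k9,k163),(k0,k178),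
    (k1,k178)],[(k10,k151),(k11,k151),(k9,k153),(k2,k154),(k3,k154),(k4,k155),(k7,k161),(k5,k163),(k6,k163),(k8,k163),
    (k0,k178),(k1,k178)],[(k10,k127),(k3,k130),(k11,k147),(k2,k150),(k0,k154),(k1,k154),(k5,k159),(k8,k159),(k9,k159),
    (k4,k161),(k7,k167),(k6,k169)],[(k10,k147),(k11,k147),(k1,k150),(k2,k150),(k3,k150),(k0,k154),(k8,k157),(k4,k159),
    (k5,k159),(k9,k159),(k7,k163),(k6,k165)],[(k11,k158),(k2,k159),(k3,k159),(k10,k160),(k9,k162),(k0,k163),(k1,k163),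
    (k4,k164),(k5,k168),(k6,k168),(k7,k168),(k8,k168)],[(k0,k155),(k11,k156),(k10,k158),(k2,k159),(k3,k161),(k1,k163),
    (k5,k164),(k4,k168),(k6,k168),(k7,k168),(k8,k168),(k9,k168)],[(k10,k156),(k11,k156),(k0,k161),(k1,k161),(k2,k163),
    (k3,k167),(k4,k168),(k5,k168),(k6,k168),(k7,k168),(k8,k168),(k9,k168)],[(k10,k156),(k11,k156),(k0,k163),(k1,k163),
    (k2,k165),(k4,k168),(k5,k168),(k6,k168),(k7,k168),(k8,k168),(k9,k168),(k3,k169)],[(k0,k153),(k10,k156),(k11,k156),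
    (k2,k159),(k3,k159),(k5,k162),(k1,k163),(k4,k168),(k6,k168),(k7,k168),(k8,k168),(k9,k168)],[(k10,k156),(k11,k156),
    (k2,k157),(k3,k159),(k0,k163),(k1,k163),(k4,k168),(k5,k168),(k6,k168),(k7,k168),(k8,k168),(k9,k168)],[(k10,k144),
    (k11,k144),(k2,k147),(k3,k147),(k0,k151),(k1,k151),(k4,k156),(k6,k156),(k7,k156),(k8,k156),(k9,k156),(k5,k158)],
    [(k10,k124),(k3,k127),(k11,k144),(k2,k147),(k0,k151),(k1,k151),(k6,k156),(k7,k156),(k8,k156),(k9,k156),(k4,k158),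
    (k5,k160)]]
    [[k1,k2,k0,k0,k0,k0],[k1,k1,k1,k0,k0,k0],[k1,k1,k0,k0,k1,k0],[k1,k1,k0,k0,k0,k1],[k1,k0,k1,k0,k0,k1],[k1,k0,k0,k1,
    k0,k1],[k1,k0,k0,k0,k1,k1],[k1,k0,k0,k0,k0,k2],[k0,k3,k0,k0,k0,k0],[k0,k2,k1,k0,k0,k0],[k0,k2,k0,k0,k1,k0],[k0,k2,
    k0,k0,k0,k1],[k0,k2,k0,k1,k0,k0],[k0,k1,k1,k0,k0,k1],[k0,k1,k0,k1,k0,k1],[k0,k1,k0,k0,k1,k1],[k0,k1,k0,k0,k0,k2],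
    [k0,k0,k1,k0,k1,k1],[k0,k0,k1,k0,k0,k2],[k0,k0,k0,k1,k0,k2],[k0,k0,k0,k0,k1,k2],[k0,k0,k0,k0,k0,k3]]
    [.ref (nat_lit 244) k8 [(z2,[y1,z1,z0,z2]),(z1,[z0,y3,y1,y3,z3]),(z2,[z1,y1]),(z2,[y9,z9,z4])],
    .ref (nat_lit 244) k8 [(z1,[y1,z1,z0,z2]),(z1,[z0,y3,y1,y3,z3]),(z1,[z1,y1,z0,y1]),(z1,[y9,z9,z2,z9])],
    .ref (nat_lit 245) k10 [(z1,[z2,y2,z0,y5]),(z1,[z0,z1,z0,z2]),(z1,[y3,z3,z1,z3]),(z1,[z0,z0,z0,z1])],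
    .ref k97 k8 [(z1,[y6,z6,z2,z3]),(z1,[z0,y3,y1,y3,z3]),(z1,[z3,y3,y1]),(z1,[y9,z9,z4])],.ref (nat_lit 246) k8 [(z1,
    [z6,y6,y2,y3]),(z1,[z0,y3,y1,y3,z3]),(z1,[y3,z3,z1,z3]),(z1,[z9,y9,y2,y9])],.ref (nat_lit 247) k11 [(z1,[z4,z1,z0,
    z4,y4]),(z1,[y9,z0,z1,y9,z9]),(z1,[z1,z0,z0,z1,y1]),(z1,[z0,y3,y1,y3,z3])],.ref (nat_lit 248) k11 [(z1,[z6,y3,
    y2]),(z1,[y9,z9,z5]),(z1,[z3,y3,y1]),(z1,[z0,y3,y1,y3,z3])],.ref (nat_lit 246) k8 [(z1,[z3,y3,y2,z3]),(z1,[z0,y3,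
    y1,y3,z3]),(z2,[y3,z3,z2]),(z2,[z9,y9,y4])],.ref (nat_lit 249) k3 [(z1,[z0,y3,y1,y3,z3]),(z1,[z0,z0,z0,z1]),(z1,
    [y2,z0,z2,y9]),(z1,[z0,z1,z0,z2])],.ref (nat_lit 247) k11 [(z1,[y2,z1,z0,z2]),(z2,[z9,z0,z2,y9]),(z2,[y1,z0,z0,
    z1]),(z1,[z0,y3,y1,y3,z3])],.ref (nat_lit 250) k8 [(z1,[y2,z0,z0,z1]),(z1,[z0,y3,y1,y3,z3]),(z1,[z1]),(z1,[y9,z0,
    z1])],.ref (nat_lit 251) k11 [(z1,[y12,z9,z4]),(z1,[z1]),(z1,[y3,z0,z1]),(z1,[z0,y3,y1,y3,z3])],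
    .ref (nat_lit 249) k3 [(z1,[z0,y3,y1,y3,z3]),(z1,[z0,z0,z0,z1]),(z1,[y3,y3,z1,y12,z3]),(z1,[z0,z1,z0,z2])],
    .ref k97 k8 [(z5,[z6,z0,y2,z9]),(z1,[z0,y3,y1,y3,z3]),(z5,[y3,z0,z1,z3]),(z5,[z9,z0,z2,y9])],.ref k97 k8 [(z1,[z2,
    z2,z0,z5,y2]),(z1,[z0,y3,y1,y3,z3]),(z1,[y1,y1,z0,y1,z1]),(z1,[z3,z3,z1,z3,y3])],.ref k97 k8 [(z1,[z3,z0,y1,z3]),
    (z1,[z0,y3,y1,y3,z3]),(z2,[y3,z0,z1]),(z2,[z9,z0,y1])],.ref (nat_lit 252) k6 [(z1,[z3,z0,y1]),(z1,[z0,z1]),(z1,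
    [y3,z0,z2]),(z1,[z0,z0,z0,z1])],.ref (nat_lit 253) k0 [(z1,[y4,z1,z0,z4]),(z1,[z9,z0,z1,y9]),(z1,[z2,z0,z0,y1]),
    (z1,[z0,y3,y1,y3,z3])],.ref (nat_lit 253) k0 [(z1,[y2,z1,z0,z2]),(z2,[z9,z0,z2,y9]),(z1,[z1]),(z1,[z0,y3,y1,y3,
    z3])],.ref (nat_lit 254) k0 [(z1,[z0,z1]),(z2,[y3,y3,z1,y3,z3]),(z1,[z0,z0,z0,z1]),(z1,[z0,y3,y1,y3,z3])],
    .ref (nat_lit 255) k10 [(z1,[y6,z0,z4,y15]),(z1,[z0,z1,z0,z2]),(z1,[z2,z0,z0,y1]),(z1,[z0,z0,z0,z1])],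
    .ref (nat_lit 254) k0 [(z1,[z0,z1]),(z1,[y1,z0,z1]),(z1,[z0,z0,z0,z1]),(z1,[z0,y3,y1,y3,z3])]],
    .base (.leafM k3 [k1,k2,k3,k4,k5,k0] [(z3,[y1,y3,z0,y1,z3])] []),
    .base (.leafM k0 [k1,k2,k3,k4,k5,k0] [(z3,[z0,z0,z1,z1])] []),
    .lp k0 [k80,k68,k86,k82,k86,k76] [k3,k3,k9,k9,k0,k0,k2,k2,k0,k0,k5,k5] k0 [[k0,k0,k0,k4,k4,k4,k4,k0,k0,k0,k0,k0],
    [k2,k0,k0,k0,k0,k0,k0,k0,k0,k0,k8,k6],[k0,k4,k0,k0,k0,k0,k0,k0,k0,k2,k4,k0],[k0,k0,k0,k0,k0,k0,k0,k0,k0,k0,k0,k0],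
    [k0,k4,k0,k0,k0,k2,k0,k0,k0,k0,k2,k2],[k0,k4,k0,k0,k0,k0,k0,k0,k0,k2,k0,k0],[k0,k0,k0,k0,k0,k0,k0,k2,k2,k0,k0,k0],
    [k0,k4,k0,k0,k0,k0,k0,k0,k0,k0,k0,k0],[k0,k0,k0,k2,k2,k0,k0,k0,k0,k0,k8,k10],[k0,k0,k0,k0,k0,k0,k0,k2,k0,k0,k0,
    k0],[k6,k0,k0,k0,k0,k2,k0,k0,k0,k10,k0,k2],[k8,k0,k0,k4,k0,k2,k0,k0,k0,k8,k0,k0]] (nat_lit 240) k5
    [[(k3,k66),(k2,k70),(k8,k75),(k10,k78),(k4,k81),(k6,k81),(k1,k82),(k5,k83),(k7,k83),(k9,k83),(k0,k86),(k11,k88)],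
    [(k2,k70),(k3,k74),(k7,k77),(k11,k78),(k4,k79),(k9,k79),(k6,k81),(k0,k82),(k5,k83),(k8,k83),(k1,k86),(k10,k86)],
    [(k1,k66),(k3,k66),(k10,k66),(k2,k68),(k11,k72),(k0,k74),(k8,k77),(k9,k77),(k6,k79),(k7,k79),(k4,k81),(k5,k81)],
    [(k2,k68),(k3,k68),(k0,k70),(k1,k70),(k10,k72),(k11,k72),(k6,k75),(k7,k75),(k8,k75),(k4,k77),(k5,k77),(k9,k77)],
    [(k2,k77),(k3,k81),(k0,k83),(k1,k83),(k11,k83),(k6,k84),(k7,k84),(k10,k85),(k4,k86),(k5,k86),(k8,k86),(k9,k86)],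
    [(k2,k77),(k0,k79),(k10,k79),(k1,k81),(k3,k81),(k11,k83),(k4,k84),(k6,k84),(k7,k84),(k5,k86),(k8,k86),(k9,k86)],
    [(k2,k75),(k0,k77),(k3,k79),(k11,k79),(k10,k81),(k6,k82),(k8,k82),(k1,k83),(k4,k84),(k5,k84),(k7,k84),(k9,k84)],
    [(k2,k75),(k11,k77),(k3,k79),(k10,k79),(k6,k80),(k0,k81),(k1,k81),(k7,k82),(k4,k84),(k5,k84),(k8,k84),(k9,k84)],
    [(k2,k77),(k3,k77),(k0,k79),(k10,k81),(k11,k81),(k1,k83),(k6,k84),(k7,k84),(k4,k86),(k5,k86),(k8,k88),(k9,k88)],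
    [(k10,k71),(k1,k75),(k2,k75),(k3,k77),(k11,k81),(k7,k82),(k0,k83),(k6,k84),(k4,k86),(k5,k86),(k8,k86),(k9,k88)],
    [(k2,k72),(k3,k72),(k11,k76),(k6,k77),(k0,k78),(k7,k79),(k8,k81),(k9,k81),(k4,k83),(k5,k83),(k10,k84),(k1,k88)],
    [(k3,k66),(k8,k71),(k2,k72),(k10,k74),(k1,k78),(k4,k79),(k6,k79),(k7,k81),(k9,k81),(k11,k84),(k5,k85),(k0,k86)]]
    [[k2,k1,k0,k0,k0,k0],[k1,k2,k0,k0,k0,k0],[k1,k1,k1,k0,k0,k0],[k1,k1,k0,k1,k0,k0],[k1,k1,k0,k0,k1,k0],[k1,k1,k0,k0,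
    k0,k1],[k1,k0,k0,k1,k1,k0],[k1,k0,k0,k0,k1,k1],[k1,k0,k0,k1,k0,k1],[k0,k3,k0,k0,k0,k0],[k0,k2,k1,k0,k0,k0],[k0,k2,
    k0,k1,k0,k0],[k0,k2,k0,k0,k1,k0],[k0,k2,k0,k0,k0,k1],[k0,k1,k1,k0,k0,k1],[k0,k1,k0,k2,k0,k0],[k0,k1,k0,k1,k1,k0],
    [k0,k1,k0,k1,k0,k1],[k0,k1,k0,k0,k1,k1],[k0,k1,k0,k0,k0,k2],[k0,k0,k0,k1,k1,k1],[k0,k0,k0,k1,k0,k2],[k0,k0,k0,k0,
    k1,k2],[k0,k0,k0,k0,k0,k3]]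
    [.ref k25 k0 [(z5,[z12,y9,y4]),(z5,[y9,z18,z8]),(z5,[y6,z12,z2,z15]),(z1,[z0,z0,z0,z0,z1]),(z1,[z0,y3,y1,y3,y1,
    z3])],.ref k25 k0 [(z1,[y6,z9,z4]),(z2,[z9,y9,y4]),(z1,[z3,y3,y2,z3]),(z1,[z0,z0,z0,z0,z1]),(z1,[z0,y3,y1,y3,y1,
    z3])],.ref k25 k0 [(z1,[y12,z15,z4,z12]),(z1,[z9,y9,y2,y9]),(z1,[z6,y6,y2,y3]),(z1,[z0,z0,z0,z0,z1]),(z1,[z0,y3,
    y1,y3,y1,z3])],.ref k25 k0 [(z1,[z12,y9,y4,z0,y4]),(z1,[y9,z9,z4,z0,z3]),(z1,[y6,z6,z2,z3,z2]),(z1,[z0,z0,z0,z0,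
    z1]),(z1,[z0,y3,y1,y3,y1,z3])],.ref k25 k0 [(z1,[z12,z3,z0,z12,z4,y12]),(z1,[y9,z0,z1,y9,y3,z9]),(z1,[y6,z0,z0,y3,
    y2,z6]),(z1,[z0,z0,z0,z0,z1]),(z1,[z0,y3,y1,y3,y1,z3])],.ref k25 k0 [(z1,[z6,y3,y2]),(z2,[y9,z9,z5]),(z1,[y3,z3,
    z1,z3]),(z1,[z0,z0,z0,z0,z1]),(z1,[z0,y3,y1,y3,y1,z3])],.ref k25 k0 [(z1,[z3,z3,z1,z3,z0,y3]),(z4,[y9,z0,z1,y9,z0,
    z9]),(z2,[y3,z0,y1,z3,z0,z3]),(z1,[z0,z0,z0,z0,z1]),(z1,[z0,y3,y1,y3,y1,z3])],.ref k25 k0 [(z5,[z12,z15,z4,z12,z4,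
    y12]),(z5,[y9,z0,z2,y9,y3,z9]),(z5,[y6,z0,y2,z9,y2,z6]),(z1,[z0,z0,z0,z0,z1]),(z1,[z0,y3,y1,y3,y1,z3])],
    .ref k25 k0 [(z5,[z12,z3,z0,z0,y4]),(z5,[y9,z9,z5,z0,z3]),(z5,[y6,z6,z0,z15,z2]),(z1,[z0,z0,z0,z0,z1]),(z1,[z0,y3,
    y1,y3,y1,z3])],.ref k25 k0 [(z3,[y4,z9,z4]),(z1,[z1]),(z3,[z2,z0,y2,z9]),(z1,[z0,z0,z0,z0,z1]),(z1,[z0,y3,y1,y3,
    y1,z3])],.ref k25 k0 [(z2,[y3,z6,z2,z3]),(z8,[z9,z0,z2,y9]),(z4,[z3,z0,y2,z9]),(z1,[z0,z0,z0,z0,z1]),(z1,[z0,y3,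
    y1,y3,y1,z3])],.ref k25 k0 [(z3,[y6,z9,z4,z0,z2]),(z2,[z3,z0,z0,z0,y1]),(z3,[z3,z0,y2,z9,y1]),(z1,[z0,z0,z0,z0,
    z1]),(z1,[z0,y3,y1,y3,y1,z3])],.ref k25 k0 [(z3,[y6,z3,z2,y6,y2,z6]),(z2,[z3,z3,z1,z3,z1,y3]),(z3,[z3,z3,y1,z12,
    z1,y3]),(z1,[z0,z0,z0,z0,z1]),(z1,[z0,y3,y1,y3,y1,z3])],.ref k25 k0 [(z5,[y12,z15,z8]),(z5,[z9,z0,y1]),(z5,[z6,z0,
    y4,z15]),(z1,[z0,z0,z0,z0,z1]),(z1,[z0,y3,y1,y3,y1,z3])],.ref k25 k0 [(z1,[y3,z3,z1,z3]),(z4,[z9,z0,z1,y9]),(z2,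
    [z3,z0,y1,z3]),(z1,[z0,z0,z0,z0,z1]),(z1,[z0,y3,y1,y3,y1,z3])],.ref k25 k0 [(z3,[y12,z9,z4,z0,z8]),(z1,[z3,z0,z0,
    z0,y2]),(z3,[z6,z0,y2,z9,y4]),(z1,[z0,z0,z0,z0,z1]),(z1,[z0,y3,y1,y3,y1,z3])],.ref k25 k0 [(z1,[y4,y1,z0,y4,z0,
    z4]),(z1,[z3,z3,z1,z3,z0,y3]),(z1,[z2,z2,z0,z5,z0,y2]),(z1,[z0,z0,z0,z0,z1]),(z1,[z0,y3,y1,y3,y1,z3])],
    .ref k25 k0 [(z1,[y6,z3,z2,z0,z2]),(z2,[z9,z0,y1,z0,y3]),(z1,[z3,z0,y1,z3,y1]),(z1,[z0,z0,z0,z0,z1]),(z1,[z0,y3,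
    y1,y3,y1,z3])],.ref k25 k0 [(z1,[y6,y3,z0,y6,y2,z6]),(z2,[z9,z9,z2,z9,z3,y9]),(z1,[z3,z3,z0,z6,z1,y3]),(z1,[z0,z0,
    z0,z0,z1]),(z1,[z0,y3,y1,y3,y1,z3])],.ref k25 k0 [(z1,[y12,z3,z4]),(z1,[z9,z0,y2]),(z1,[z6,z0,y2,z3]),(z1,[z0,z0,
    z0,z0,z1]),(z1,[z0,y3,y1,y3,y1,z3])],.ref k25 k0 [(z1,[z12,z15,z4,z12,z0,y12]),(z1,[y9,y9,y2,y9,z0,z9]),(z1,[y6,
    y6,y2,y3,z0,z6]),(z1,[z0,z0,z0,z0,z1]),(z1,[z0,y3,y1,y3,y1,z3])],.ref k25 k0 [(z1,[z6,z3,z0,z0,y2]),(z2,[y9,z0,z2,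
    z0,z3]),(z1,[y3,z0,z0,z3,z1]),(z1,[z0,z0,z0,z0,z1]),(z1,[z0,y3,y1,y3,y1,z3])],.ref k25 k0 [(z1,[z6,z9,z2,z6,z2,
    y6]),(z2,[y9,y9,y1,y9,y3,z9]),(z1,[y3,y3,y1,z0,y1,z3]),(z1,[z0,z0,z0,z0,z1]),(z1,[z0,y3,y1,y3,y1,z3])],
    .ref k25 k0 [(z1,[z4,z3]),(z1,[y3,z0,z1]),(z1,[y2,z0,z0,z3]),(z1,[z0,z0,z0,z0,z1]),(z1,[z0,y3,y1,y3,y1,z3])]],
    .lp k0 [k158,k156,k176,k168,k172,k126] [k9,k9,k10,k10,k0,k0,k4,k4,k2,k2,k25,k25] k0 [[k0,k0,k12,k0,k4,k0,k4,k0,k0,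
    k0,k0,k10],[k0,k0,k12,k0,k0,k0,k0,k0,k2,k0,k0,k14],[k0,k0,k0,k0,k0,k0,k0,k0,k0,k0,k2,k2],[k12,k12,k0,k0,k0,k0,k0,
    k2,k0,k0,k0,k0],[k0,k0,k0,k0,k0,k0,k0,k2,k0,k14,k14,k0],[k0,k4,k0,k0,k0,k0,k0,k0,k0,k0,k2,k0],[k0,k0,k2,k0,k0,k2,
    k0,k0,k0,k2,k2,k0],[k0,k4,k0,k0,k0,k0,k0,k0,k0,k12,k12,k0],[k0,k0,k0,k0,k0,k14,k12,k2,k0,k0,k0,k0],[k2,k0,k0,k0,
    k0,k0,k0,k0,k0,k0,k0,k4],[k14,k10,k0,k2,k0,k0,k0,k0,k4,k0,k0,k0],[k0,k0,k0,k2,k2,k14,k12,k2,k0,k0,k0,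
    k0]] (nat_lit 480) k5
    [[(k10,k142),(k11,k142),(k4,k153),(k9,k153),(k2,k155),(k1,k158),(k6,k161),(k7,k161),(k3,k167),(k5,k169),(k8,k169),
    (k0,k172)],[(k10,k132),(k11,k142),(k5,k155),(k3,k157),(k0,k158),(k7,k159),(k9,k161),(k6,k163),(k4,k167),(k8,k167),
    (k2,k169),(k1,k172)],[(k10,k127),(k11,k139),(k5,k154),(k3,k156),(k0,k157),(k7,k162),(k8,k164),(k9,k164),(k6,k166),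
    (k1,k167),(k2,k168),(k4,k170)],[(k10,k139),(k11,k141),(k1,k155),(k2,k156),(k6,k162),(k7,k162),(k8,k164),(k4,k166),
    (k5,k166),(k9,k166),(k3,k168),(k0,k169)],[(k11,k151),(k10,k153),(k3,k154),(k0,k155),(k2,k166),(k1,k169),(k6,k170),
    (k7,k172),(k8,k174),(k9,k174),(k4,k176),(k5,k176)],[(k11,k151),(k1,k153),(k10,k153),(k8,k160),(k2,k166),(k0,k167),
    (k3,k170),(k6,k170),(k7,k172),(k9,k174),(k4,k176),(k5,k176)],[(k0,k159),(k1,k161),(k10,k161),(k11,k161),(k2,k162),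
    (k3,k162),(k6,k168),(k7,k168),(k8,k170),(k4,k172),(k5,k172),(k9,k172)],[(k10,k159),(k11,k159),(k1,k161),(k2,k162),
    (k0,k163),(k3,k166),(k6,k168),(k7,k168),(k8,k168),(k4,k170),(k5,k170),(k9,k170)],[(k10,k151),(k11,k151),(k1,k153),
    (k8,k160),(k0,k161),(k3,k164),(k2,k166),(k6,k170),(k7,k172),(k9,k172),(k4,k174),(k5,k174)],[(k10,k149),(k11,k149),
    (k4,k160),(k9,k160),(k2,k164),(k3,k164),(k0,k167),(k6,k168),(k1,k169),(k7,k170),(k8,k172),(k5,k174)],[(k10,k122),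
    (k11,k126),(k3,k139),(k2,k141),(k0,k142),(k1,k142),(k8,k149),(k4,k151),(k5,k151),(k9,k151),(k6,k159),(k7,k161)],
    [(k11,k122),(k10,k126),(k3,k127),(k0,k132),(k2,k139),(k1,k142),(k8,k149),(k9,k151),(k4,k153),(k5,k153),(k6,k159),
    (k7,k161)]]
    [[k2,k0,k0,k0,k0,k1],[k1,k1,k1,k0,k0,k0],[k1,k1,k0,k0,k0,k1],[k1,k0,k1,k0,k0,k1],[k1,k0,k0,k1,k0,k1],[k1,k0,k0,k0,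
    k1,k1],[k1,k1,k0,k0,k1,k0],[k1,k0,k1,k0,k1,k0],[k1,k0,k0,k0,k0,k2],[k0,k2,k0,k0,k0,k1],[k0,k1,k1,k0,k0,k1],[k0,k1,
    k0,k1,k0,k1],[k0,k1,k0,k0,k1,k1],[k0,k1,k0,k0,k0,k2],[k0,k0,k1,k0,k1,k1],[k0,k0,k1,k0,k0,k2],[k0,k0,k0,k1,k0,k2],
    [k0,k0,k0,k0,k2,k1],[k0,k0,k0,k0,k1,k2],[k0,k0,k0,k0,k0,k3]]
    [.ref k18 k1 [(z3,[z3,y1,z1,z3,y3]),(z1,[z0,z0,z1]),(z1,[z0,z1]),(z1,[z3,y2])],.ref k97 k0 [(z1,[z0,z1]),(z1,[z0,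
    z0,z1]),(z1,[z3,y1,y1]),(z1,[z3,y2,y2,y3,z3])],.ref k18 k1 [(z1,[z1,z0,z0,z1,y1]),(z1,[z0,z0,z1]),(z1,[z0,z1]),
    (z1,[z3,y1,y1])],.ref (nat_lit 257) k3 [(z1,[y3,z0,y1,y3,z3]),(z1,[z0,z0,z0,z1]),(z1,[z3,y1]),(z1,[z0,z1])],
    .ref k97 k0 [(z1,[z0,z1]),(z1,[z0,z0,z1]),(z1,[z3,z0,z1,z3,y3]),(z1,[z3,y1])],.ref (nat_lit 258) k9 [(z1,[z3,y1,
    z0,y3]),(z1,[z0,z0,z0,z1]),(z1,[y3,z0,y1,z0,z3]),(z1,[z0,z0,z1])],.ref k97 k0 [(z1,[z0,z1]),(z1,[z0,z0,z1]),(z2,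
    [y3,z1,z1,z3]),(z2,[y3,y1,y1,y3,z6])],.ref k97 k0 [(z1,[z0,z1]),(z1,[z0,z0,z1]),(z1,[y3,z1,z0,z3]),(z1,[y3,z0,y1,
    z0,z3])],.ref k18 k1 [(z6,[z3,z1,z2,z6,y6]),(z1,[z0,z0,z1]),(z1,[z0,z1]),(z2,[z3,y1])],.ref k18 k1 [(z3,[z3,z1,y1,
    z3,y3]),(z1,[z0,z0,z1]),(z1,[z0,z1]),(z1,[z3,z0,y2])],.ref (nat_lit 257) k3 [(z1,[y3,y1,z0,y3,z3]),(z1,[z0,z0,z0,
    z1]),(z1,[z3,z0,y1]),(z1,[z0,z1])],.ref k97 k0 [(z1,[z0,z1]),(z1,[z0,z0,z1]),(z1,[z3,z1,z0,z3,y3]),(z1,[z3,z0,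
    y1])],.ref (nat_lit 258) k9 [(z1,[z3,z0,y1,y3]),(z1,[z0,z0,z0,z1]),(z1,[y3,y1,z0,z0,z3]),(z1,[z0,z0,z1])],
    .ref k18 k1 [(z6,[z3,z2,z1,z6,y6]),(z1,[z0,z0,z1]),(z1,[z0,z1]),(z2,[z3,z0,y1])],.ref k150 k8 [(z1,[y1,z0,z0,z1]),
    (z1,[y3,y1,y1,z0,z3]),(z1,[z2,z0,z0,y1]),(z1,[z0,z1])],.ref (nat_lit 259) k4 [(z1,[y2,z0,z0,z1]),(z1,[z3,y1,y1,y3,
    z3]),(z1,[z1]),(z1,[z0,z0,z1])],.ref (nat_lit 257) k3 [(z1,[y3,y2,y2,y6,z6]),(z1,[z0,z0,z0,z1]),(z1,[z3,z1,z1,z3,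
    y3]),(z1,[z0,z1])],.ref k160 k9 [(z1,[z1,z0,z0,y2]),(z1,[z0,z0,z0,z1]),(z1,[y3,y1,y1,z3,z3]),(z1,[z0,z0,z1])],
    .ref k150 k8 [(z2,[y1,z0,z0,z1]),(z2,[y3,y2,y2,y3,z6]),(z1,[z1]),(z1,[z0,z1])],.ref k18 k1 [(z3,[z1,z1,z1,z3,y3]),
    (z1,[z0,z0,z1]),(z1,[z0,z1]),(z1,[z1])]],
    .lp k0 [(nat_lit 640),(nat_lit 600),(nat_lit 640),(nat_lit 674),(nat_lit 672),(nat_lit 610)] [k17,k17,k37,k37,k17,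
    k17,k0,k0,k1,k1,k32,k32] k0 [[k0,k0,k0,k40,k40,k0,k46,k86,k0,k0,k0,k0],[k0,k0,k0,k0,k0,k0,k0,k0,k14,k26,k60,k48],
    [k0,k40,k0,k0,k0,k0,k0,k0,k14,k0,k32,k0],[k0,k0,k0,k0,k0,k0,k46,k86,k2,k0,k0,k0],[k0,k0,k0,k0,k0,k0,k18,k0,k0,k0,
    k0,k0],[k0,k40,k0,k0,k0,k0,k18,k0,k14,k82,k96,k0],[k0,k86,k86,k0,k0,k0,k0,k0,k16,k84,k78,k2],[k0,k46,k46,k0,k18,
    k18,k0,k0,k0,k0,k0,k0],[k26,k0,k0,k0,k82,k0,k0,k84,k0,k0,k34,k34],[k14,k0,k2,k14,k14,k0,k0,k16,k0,k0,k0,k0],[k48,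
    k0,k0,k0,k0,k0,k0,k2,k0,k34,k0,k0],[k60,k0,k0,k32,k96,k0,k0,k78,k0,k34,k0,k0]] (nat_lit 1920) k5
    [[(k3,(nat_lit 560)),(k7,(nat_lit 561)),(k6,(nat_lit 579)),(k2,(nat_lit 588)),(k8,(nat_lit 622)),(k10,
    (nat_lit 625)),(k1,(nat_lit 640)),(k4,(nat_lit 640)),(k5,(nat_lit 640)),(k9,(nat_lit 658)),(k11,(nat_lit 659)),
    (k0,(nat_lit 688))],[(k6,(nat_lit 571)),(k2,(nat_lit 580)),(k9,(nat_lit 610)),(k7,(nat_lit 617)),(k3,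
    (nat_lit 620)),(k0,(nat_lit 640)),(k4,(nat_lit 640)),(k5,(nat_lit 640)),(k11,(nat_lit 651)),(k8,(nat_lit 670)),
    (k10,(nat_lit 685)),(k1,(nat_lit 688))],[(k10,(nat_lit 557)),(k1,(nat_lit 560)),(k11,(nat_lit 591)),(k2,
    (nat_lit 600)),(k3,(nat_lit 600)),(k8,(nat_lit 610)),(k0,(nat_lit 620)),(k7,(nat_lit 637)),(k4,(nat_lit 660)),(k5,
    (nat_lit 660)),(k6,(nat_lit 683)),(k9,(nat_lit 722))],[(k0,(nat_lit 580)),(k1,(nat_lit 588)),(k11,(nat_lit 591)),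
    (k2,(nat_lit 600)),(k3,(nat_lit 600)),(k10,(nat_lit 605)),(k4,(nat_lit 620)),(k5,(nat_lit 620)),(k7,
    (nat_lit 637)),(k8,(nat_lit 638)),(k6,(nat_lit 683)),(k9,(nat_lit 722))],[(k6,(nat_lit 571)),(k9,(nat_lit 610)),
    (k2,(nat_lit 620)),(k11,(nat_lit 623)),(k0,(nat_lit 640)),(k1,(nat_lit 640)),(k4,(nat_lit 640)),(k5,
    (nat_lit 640)),(k7,(nat_lit 657)),(k10,(nat_lit 657)),(k3,(nat_lit 660)),(k8,(nat_lit 670))],[(k2,(nat_lit 620)),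
    (k9,(nat_lit 638)),(k0,(nat_lit 640)),(k1,(nat_lit 640)),(k4,(nat_lit 640)),(k5,(nat_lit 640)),(k7,(nat_lit 657)),
    (k3,(nat_lit 660)),(k8,(nat_lit 670)),(k6,(nat_lit 675)),(k11,(nat_lit 707)),(k10,(nat_lit 721))],[(k1,
    (nat_lit 561)),(k8,(nat_lit 591)),(k0,(nat_lit 617)),(k11,(nat_lit 628)),(k2,(nat_lit 637)),(k3,(nat_lit 637)),
    (k10,(nat_lit 642)),(k9,(nat_lit 655)),(k4,(nat_lit 657)),(k5,(nat_lit 657)),(k7,(nat_lit 674)),(k6,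
    (nat_lit 692))],[(k0,(nat_lit 571)),(k5,(nat_lit 571)),(k1,(nat_lit 579)),(k8,(nat_lit 589)),(k11,(nat_lit 626)),
    (k10,(nat_lit 640)),(k9,(nat_lit 673)),(k6,(nat_lit 674)),(k4,(nat_lit 675)),(k2,(nat_lit 683)),(k3,
    (nat_lit 683)),(k7,(nat_lit 692))],[(k0,(nat_lit 610)),(k5,(nat_lit 610)),(k4,(nat_lit 638)),(k7,(nat_lit 655)),
    (k1,(nat_lit 658)),(k9,(nat_lit 672)),(k6,(nat_lit 673)),(k8,(nat_lit 688)),(k10,(nat_lit 719)),(k2,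
    (nat_lit 722)),(k3,(nat_lit 722)),(k11,(nat_lit 725))],[(k6,(nat_lit 589)),(k7,(nat_lit 591)),(k10,(nat_lit 607)),
    (k3,(nat_lit 610)),(k1,(nat_lit 622)),(k2,(nat_lit 638)),(k11,(nat_lit 641)),(k0,(nat_lit 670)),(k4,
    (nat_lit 670)),(k5,(nat_lit 670)),(k8,(nat_lit 672)),(k9,(nat_lit 688))],[(k2,(nat_lit 591)),(k3,(nat_lit 591)),
    (k11,(nat_lit 610)),(k5,(nat_lit 623)),(k6,(nat_lit 626)),(k7,(nat_lit 628)),(k8,(nat_lit 641)),(k10,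
    (nat_lit 644)),(k0,(nat_lit 651)),(k1,(nat_lit 659)),(k4,(nat_lit 707)),(k9,(nat_lit 725))],[(k3,(nat_lit 557)),
    (k2,(nat_lit 605)),(k8,(nat_lit 607)),(k10,(nat_lit 610)),(k1,(nat_lit 625)),(k6,(nat_lit 640)),(k7,
    (nat_lit 642)),(k11,(nat_lit 644)),(k5,(nat_lit 657)),(k0,(nat_lit 685)),(k9,(nat_lit 719)),(k4,(nat_lit 721))]]
    [[k2,k1,k0,k0,k0,k0],[k2,k0,k0,k1,k0,k0],[k1,k2,k0,k0,k0,k0],[k1,k1,k1,k0,k0,k0],[k1,k1,k0,k1,k0,k0],[k1,k1,k0,k0,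
    k1,k0],[k1,k1,k0,k0,k0,k1],[k1,k0,k1,k1,k0,k0],[k1,k0,k0,k2,k0,k0],[k1,k0,k0,k1,k1,k0],[k1,k0,k0,k1,k0,k1],[k1,k0,
    k1,k0,k1,k0],[k1,k0,k0,k0,k1,k1],[k1,k0,k1,k0,k0,k1],[k0,k3,k0,k0,k0,k0],[k0,k2,k1,k0,k0,k0],[k0,k2,k0,k0,k0,k1],
    [k0,k1,k1,k1,k0,k0],[k0,k1,k1,k0,k1,k0],[k0,k1,k1,k0,k0,k1],[k0,k1,k0,k1,k0,k1],[k0,k1,k0,k0,k0,k2],[k0,k0,k2,k1,
    k0,k0],[k0,k0,k1,k1,k1,k0],[k0,k0,k1,k0,k1,k1],[k0,k0,k0,k1,k2,k0],[k0,k0,k0,k1,k1,k1],[k0,k0,k0,k1,k0,k2],[k0,k0,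
    k0,k0,k0,k3]]
    [.ref k43 k0 [(z1,[z0,z1]),(z1,[z3,y2]),(z1,[z1,y1,y1,z1])],.ref k43 k0 [(z1,[z0,z1]),(z2,[y3,z2,z3]),(z2,[y1,z0,
    y1,z2])],.ref k43 k0 [(z1,[z0,z1]),(z2,[z3,y1]),(z2,[z1,y1,y2,z2])],.ref (nat_lit 218) k4 [(z1,[y1,z0,y1,z1]),(z1,
    [z0,z0,z1]),(z1,[z3,y1])],.ref k43 k0 [(z1,[z0,z1]),(z1,[y3,z1,z3]),(z1,[y1,z0,z0,z1])],
    .ref (nat_lit 219) k2 [(z1,[y6,z2,z3]),(z1,[z3,y2,y3,z3]),(z1,[z3,y1])],.ref (nat_lit 220) k2 [(z1,[y6,z2,z3]),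
    (z1,[z3,y2,y3,z3]),(z1,[z3,y1])],.ref (nat_lit 221) k2 [(z1,[z2,z0,z1,y2]),(z1,[y3,y1,y3,z6]),(z1,[y1,z0,z0,z1])],
    .ref k43 k0 [(z1,[z0,z1]),(z4,[y3,z1,z6]),(z4,[y1,y1,y2,z4])],.ref (nat_lit 222) k4 [(z1,[z3,y1,y3]),(z1,[z0,z0,
    z1]),(z1,[y1,z0,z0,z1])],.ref (nat_lit 223) k9 [(z1,[z3,y1,y3]),(z1,[y1,z0,z0,z1]),(z1,[z0,z0,z1])],
    .ref (nat_lit 224) k7 [(z1,[z1,z0,z1,y1]),(z1,[z3,y1]),(z1,[y2,z0,y1,z2])],.ref (nat_lit 225) k10 [(z1,[z1,z0,z1,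
    y1]),(z1,[z0,z1]),(z1,[z3,y1])],.ref (nat_lit 226) k7 [(z1,[z1,z0,z1,y1]),(z1,[z3,y1]),(z1,[y2,z0,y1,z2])],
    .ref k43 k0 [(z1,[z0,z1]),(z1,[z1]),(z3,[z1,y1,y3,z3])],.ref (nat_lit 234) k4 [(z1,[y3,y1,y3,z3]),(z1,[z0,z0,z1]),
    (z1,[z1])],.ref (nat_lit 243) k6 [(z1,[z1,z0,y1]),(z1,[z0,z1]),(z1,[z0,z0,z1])],.ref (nat_lit 225) k10 [(z1,[y1,
    z0,z1]),(z1,[z0,z1]),(z1,[y3,y1,z0,z3])],.ref (nat_lit 223) k9 [(z1,[y3,y1,y3,z3]),(z1,[z1]),(z1,[z0,z0,z1])],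
    .ref (nat_lit 222) k4 [(z1,[y3,y1,y3,z3]),(z1,[z0,z0,z1]),(z1,[z1])],.ref (nat_lit 224) k7 [(z1,[y1,z0,z1]),(z1,
    [y3,y1,z0,z3]),(z1,[z2,z0,y1])],.ref (nat_lit 256) k2 [(z1,[y2,z0,z1]),(z1,[z3,y1,y3,z3]),(z1,[z1])],
    .ref (nat_lit 225) k10 [(z2,[y1,z0,z1]),(z1,[z0,z1]),(z2,[y3,y2,y3,z6])],.ref (nat_lit 220) k2 [(z1,[z6,z2,z3,
    y6]),(z1,[y3,y2,y3,z6]),(z1,[y3,y1,z0,z3])],.ref k43 k0 [(z1,[z0,z1]),(z1,[z3,z1,z3,y3]),(z1,[z1])],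
    .ref (nat_lit 226) k7 [(z2,[y1,z0,z1]),(z2,[y3,y2,y3,z6]),(z1,[z1])],.ref (nat_lit 218) k4 [(z1,[z1,z0,y1]),(z1,
    [z0,z0,z1]),(z1,[y3,y1,z0,z3])],.ref (nat_lit 224) k7 [(z2,[y1,z0,z1]),(z2,[y3,y2,y3,z6]),(z1,[z1])],
    .ref (nat_lit 260) k6 [(z1,[z1]),(z1,[z0,z1]),(z1,[z0,z0,z1])]],
    .base (.leafM k0 [k1,k2,k3,k4,k5,k0] [(z3,[y1,y1,z0,z3])] []),
    .base (.leafM k3 [k3,k4,k5,k0,k1,k2] [(z3,[z1,z1])] [])]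

theorem hB6_171_21 : blkB [0, 0, 0, 0, 0, 0] [] sp6 hS6_171 (pcls (n := 6) [0, 0, 0, 0, 0, 0]) hD6_171 560 21 hN6_171_21 = true := by
  decide +kernel

end Pool.Agent.Lib_MP_fa6e45
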