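import Pool.Agent.Lib_MP_fa6e45.HK

/-!
MP_fa6e45_co, stage 4: certificates (captain, generated by a program).
-/

namespace Pool.Agent.Lib_MP_fa6e45

/-- nodes 264 to 275 -/
noncomputable def hN6_171_22 : List HM :=
  [.base (.leafM k0 [k1,k2,k3,k4,k5,k0] [(z1,[y1,y1,z0,z1])] []),
    .base (.leafM k1 [k0,k1,k2,k3,k4,k5] [(z1,[z0,z1]),(z1,[z0,y1,z0,z1])] []),
    .base (.leafM k3 [k4,k5,k0,k1,k2,k3] [(z3,[z0,z1,z1])] []),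
    .base (.leafM k0 [k1,k2,k3,k4,k5,k0] [(z3,[z0,z0,z1,z1])] []),
    .base (.leafM k0 [k2,k3,k4,k5,k0,k1] [(z3,[y1,y1,y3,z0,z3])] []),
    .base (.leafM k3 [k2,k3,k4,k5,k0,k1] [(z1,[z1,z0,z0,z1])] []),
    .lp k0 [(nat_lit 244),k190,(nat_lit 256),(nat_lit 256),(nat_lit 262),(nat_lit 226)] [k9,k9,k38,k34,k3,k3,k3,k3,k0,
    k0,k18,k18] k0 [[k0,k0,k0,k24,k24,k18,k18,k0,k12,k0,k0,k0],[k12,k0,k0,k0,k0,k0,k0,k0,k0,k0,k24,k30],[k0,k24,k0,k0,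
    k0,k0,k0,k0,k6,k12,k6,k0],[k0,k0,k0,k0,k6,k6,k0,k6,k0,k0,k0,k0],[k0,k18,k6,k0,k0,k0,k0,k0,k0,k0,k0,k0],[k0,k24,k6,
    k0,k0,k0,k0,k0,k12,k12,k6,k0],[k0,k0,k6,k0,k0,k0,k0,k6,k18,k0,k0,k0],[k0,k18,k0,k0,k0,k0,k0,k0,k0,k0,k0,k0],[k0,
    k0,k0,k12,k12,k0,k0,k0,k0,k0,k42,k36],[k0,k12,k0,k6,k12,k0,k0,k18,k0,k0,k0,k0],[k30,k0,k0,k0,k0,k0,k0,k0,k0,k36,
    k0,k0],[k24,k0,k0,k6,k6,k0,k0,k0,k0,k42,k0,k0]] (nat_lit 720) k5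
    [[(k3,k195),(k2,(nat_lit 209)),(k8,(nat_lit 211)),(k10,(nat_lit 235)),(k1,(nat_lit 244)),(k7,(nat_lit 244)),(k4,
    (nat_lit 250)),(k5,(nat_lit 250)),(k6,(nat_lit 250)),(k9,(nat_lit 253)),(k11,(nat_lit 271)),(k0,(nat_lit 274))],
    [(k2,k191),(k3,(nat_lit 219)),(k11,(nat_lit 223)),(k7,(nat_lit 226)),(k4,(nat_lit 232)),(k9,(nat_lit 235)),(k5,
    (nat_lit 250)),(k6,(nat_lit 250)),(k8,(nat_lit 253)),(k0,(nat_lit 256)),(k10,(nat_lit 259)),(k1,(nat_lit 274))],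
    [(k10,k180),(k3,k182),(k2,k190),(k1,k195),(k11,(nat_lit 210)),(k0,(nat_lit 219)),(k9,(nat_lit 228)),(k8,
    (nat_lit 240)),(k6,(nat_lit 243)),(k7,(nat_lit 243)),(k4,(nat_lit 249)),(k5,(nat_lit 249))],[(k2,k186),(k3,k190),
    (k0,k191),(k11,(nat_lit 200)),(k10,(nat_lit 206)),(k1,(nat_lit 209)),(k8,(nat_lit 212)),(k5,(nat_lit 221)),(k6,
    (nat_lit 221)),(k4,(nat_lit 227)),(k7,(nat_lit 227)),(k9,(nat_lit 230))],[(k2,(nat_lit 221)),(k10,(nat_lit 247)),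
    (k3,(nat_lit 249)),(k0,(nat_lit 250)),(k1,(nat_lit 250)),(k4,(nat_lit 250)),(k6,(nat_lit 250)),(k7,(nat_lit 250)),
    (k11,(nat_lit 253)),(k5,(nat_lit 256)),(k9,(nat_lit 259)),(k8,(nat_lit 265))],[(k2,(nat_lit 227)),(k0,
    (nat_lit 232)),(k10,(nat_lit 247)),(k3,(nat_lit 249)),(k1,(nat_lit 250)),(k5,(nat_lit 250)),(k11,(nat_lit 253)),
    (k4,(nat_lit 256)),(k6,(nat_lit 256)),(k7,(nat_lit 256)),(k9,(nat_lit 259)),(k8,(nat_lit 271))],[(k0,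
    (nat_lit 226)),(k2,(nat_lit 227)),(k11,(nat_lit 229)),(k10,(nat_lit 241)),(k3,(nat_lit 243)),(k1,(nat_lit 244)),
    (k8,(nat_lit 247)),(k5,(nat_lit 250)),(k4,(nat_lit 256)),(k6,(nat_lit 256)),(k7,(nat_lit 256)),(k9,
    (nat_lit 259))],[(k2,(nat_lit 221)),(k11,(nat_lit 223)),(k10,(nat_lit 241)),(k3,(nat_lit 243)),(k0,(nat_lit 250)),
    (k1,(nat_lit 250)),(k5,(nat_lit 250)),(k6,(nat_lit 250)),(k4,(nat_lit 256)),(k7,(nat_lit 256)),(k8,(nat_lit 259)),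
    (k9,(nat_lit 259))],[(k3,(nat_lit 228)),(k2,(nat_lit 230)),(k0,(nat_lit 235)),(k10,(nat_lit 244)),(k11,
    (nat_lit 244)),(k1,(nat_lit 253)),(k4,(nat_lit 259)),(k5,(nat_lit 259)),(k6,(nat_lit 259)),(k7,(nat_lit 259)),(k9,
    (nat_lit 268)),(k8,(nat_lit 280))],[(k10,(nat_lit 208)),(k1,(nat_lit 211)),(k2,(nat_lit 212)),(k3,(nat_lit 240)),
    (k11,(nat_lit 244)),(k7,(nat_lit 247)),(k0,(nat_lit 253)),(k6,(nat_lit 259)),(k8,(nat_lit 262)),(k5,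
    (nat_lit 265)),(k4,(nat_lit 271)),(k9,(nat_lit 280))],[(k2,(nat_lit 200)),(k3,(nat_lit 210)),(k0,(nat_lit 223)),
    (k6,(nat_lit 223)),(k11,(nat_lit 226)),(k7,(nat_lit 229)),(k8,(nat_lit 244)),(k9,(nat_lit 244)),(k4,
    (nat_lit 253)),(k5,(nat_lit 253)),(k10,(nat_lit 268)),(k1,(nat_lit 271))],[(k3,k180),(k2,(nat_lit 206)),(k8,
    (nat_lit 208)),(k10,(nat_lit 226)),(k1,(nat_lit 235)),(k6,(nat_lit 241)),(k7,(nat_lit 241)),(k9,(nat_lit 244)),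
    (k4,(nat_lit 247)),(k5,(nat_lit 247)),(k0,(nat_lit 259)),(k11,(nat_lit 268))]]
    [[k2,k1,k0,k0,k0,k0],[k1,k2,k0,k0,k0,k0],[k1,k1,k1,k0,k0,k0],[k1,k1,k0,k1,k0,k0],[k1,k1,k0,k0,k1,k0],[k1,k1,k0,k0,
    k0,k1],[k1,k0,k0,k1,k0,k1],[k1,k0,k1,k0,k1,k0],[k1,k0,k0,k1,k1,k0],[k1,k0,k0,k0,k1,k1],[k0,k3,k0,k0,k0,k0],[k0,k2,
    k1,k0,k0,k0],[k0,k2,k0,k1,k0,k0],[k0,k2,k0,k0,k1,k0],[k0,k2,k0,k0,k0,k1],[k0,k1,k1,k0,k0,k1],[k0,k1,k0,k1,k1,k0],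
    [k0,k1,k0,k1,k0,k1],[k0,k1,k0,k0,k1,k1],[k0,k1,k0,k0,k0,k2],[k0,k0,k0,k1,k1,k1],[k0,k0,k0,k1,k0,k2],[k0,k0,k0,k0,
    k1,k2]]
    [.ref k25 k0 [(z4,[z9,y2,y9]),(z2,[y3,z2,z9]),(z1,[z0,z0,z0,z1]),(z2,[y3,z2,z3,z0,z6]),(z4,[z3,y2,y3])],
    .ref k25 k0 [(z1,[y9,z4,z18]),(z1,[z6,y2,y9]),(z1,[z0,z0,z0,z1]),(z1,[z6,y2,y12,z0,z3]),(z1,[y3,z1,z6])],
    .ref k25 k0 [(z1,[z9,y2,y9,y3]),(z1,[y6,z2,z9,z2]),(z1,[z0,z0,z0,z1]),(z1,[y6,z2,z6,z2,z3]),(z1,[z3,y1,y3,y1])],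
    .ref k25 k0 [(z1,[y9,z4,z9,z0,z9]),(z1,[z6,y2,y3,z0,y6]),(z1,[z0,z0,z0,z1]),(z1,[z6,y2,y6,z0,y3]),(z1,[y3,z1,z3,
    z0,z3])],.ref k25 k0 [(z2,[z9,y1,y9]),(z1,[y3,z1,z6]),(z1,[z0,z0,z0,z1]),(z1,[y3,z1,z3,z0,z3]),(z2,[z3,y1,y3])],
    .ref k25 k0 [(z1,[z9,z1,z0,z3,z9,y9]),(z1,[y6,z0,z3,y2,y6,z6]),(z1,[z0,z0,z0,z1]),(z1,[y6,z0,z0,y2,y3,z6]),(z1,
    [z3,z0,z0,z1,z3,y3])],.ref k25 k0 [(z1,[z9,z1,z9,z3,z0,y9]),(z1,[y6,z0,y3,y2,z0,z6]),(z1,[z0,z0,z0,z1]),(z1,[y6,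
    z0,y6,y2,z3,z6]),(z1,[z3,z0,z3,z1,z0,y3])],.ref k25 k0 [(z4,[z9,z1,z0,y3]),(z2,[y3,z1,z6,z1]),(z1,[z0,z0,z0,z1]),
    (z2,[y3,z1,z0,z1,z6]),(z4,[z3,y1,z0,y1])],.ref k25 k0 [(z2,[z9,y1,z0,z0,y9]),(z1,[y3,z1,z3,z0,z3]),(z1,[z0,z0,z0,
    z1]),(z1,[y3,z1,z0,z0,z6]),(z2,[z3,y1,z0,z0,y3])],.ref k25 k0 [(z4,[z9,z4,z9,z3,z9,y9]),(z2,[y3,z0,z3,y1,y3,z3]),
    (z1,[z0,z0,z0,z1]),(z2,[y3,z0,y3,y1,z3,z3]),(z4,[z3,z0,z3,z1,z3,y3])],.ref k25 k0 [(z2,[y3,z2,z9]),(z1,[z1]),(z1,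
    [z0,z0,z0,z1]),(z1,[z1,z0,y3,z0,z3]),(z2,[y1,z0,z3])],.ref k25 k0 [(z4,[y9,z4,z18,z3]),(z2,[z3,z0,z0,y1]),(z1,[z0,
    z0,z0,z1]),(z2,[z3,z0,y6,y1,z6]),(z4,[y3,z0,z6,z1])],.ref k25 k0 [(z2,[y3,z2,z6,z0,z3]),(z1,[z1,z0,z1,z0,y1]),(z1,
    [z0,z0,z0,z1]),(z1,[z1,z0,y2,z0,z2]),(z2,[y1,z0,z2,z0,z1])],.ref k25 k0 [(z1,[y3,z1,z6]),(z1,[z2,z0,y1]),(z1,[z0,
    z0,z0,z1]),(z1,[z2,z0,y4,z0,z3]),(z1,[y1,z0,z2])],.ref k25 k0 [(z4,[y9,z1,z9,y3,y9,z9]),(z2,[z3,z1,z3,z1,z3,y3]),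
    (z1,[z0,z0,z0,z1]),(z2,[z3,z1,y3,z1,z9,y3]),(z4,[y3,y1,z3,y1,y3,z3])],.ref k25 k0 [(z2,[y9,y1,z0,z0,y9,z9]),(z1,
    [z3,z1,z3,z0,z3,y3]),(z1,[z0,z0,z0,z1]),(z1,[z3,z1,z0,z0,z6,y3]),(z2,[y3,y1,z0,z0,y3,z3])],.ref k25 k0 [(z1,[y3,
    z1,z3,z0,z3]),(z1,[z2,z0,z1,z0,y2]),(z1,[z0,z0,z0,z1]),(z1,[z2,z0,y2,z0,z1]),(z1,[y1,z0,z1,z0,z1])],
    .ref k25 k0 [(z4,[y9,z1,z0,y3,z0,z9]),(z2,[z3,z1,z6,z1,z0,y3]),(z1,[z0,z0,z0,z1]),(z2,[z3,z1,z0,z1,z6,y3]),(z4,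
    [y3,y1,z0,y1,z0,z3])],.ref k25 k0 [(z1,[y9,y2,z0,y3,y9,z9]),(z1,[z6,z2,z3,z2,z6,y6]),(z1,[z0,z0,z0,z1]),(z1,[z6,
    z2,z0,z2,z9,y6]),(z1,[y3,y1,z0,y1,y3,z3])],.ref k25 k0 [(z2,[y9,y4,y9,y6,y18,z18]),(z1,[z3,z2,z6,z2,z6,y6]),(z1,
    [z0,z0,z0,z1]),(z1,[z3,z2,z3,z2,z9,y6]),(z2,[y3,y2,y3,y2,y6,z6])],.ref k25 k0 [(z1,[y9,y2,y9,y3,z0,z9]),(z1,[z6,
    z2,z9,z2,z0,y6]),(z1,[z0,z0,z0,z1]),(z1,[z6,z2,z6,z2,z3,y6]),(z1,[y3,y1,y3,y1,z0,z3])],.ref k25 k0 [(z2,[y9,y4,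
    y18,y6,y9,z18]),(z1,[z3,z2,z9,z2,z3,y6]),(z1,[z0,z0,z0,z1]),(z1,[z3,z2,z6,z2,z6,y6]),(z2,[y3,y2,y6,y2,y3,z6])],
    .ref k25 k0 [(z1,[z9,z7,z18,z6,z18,y18]),(z1,[y6,y4,y9,y4,y12,z12]),(z1,[z0,z0,z0,z1]),(z1,[y6,y4,y12,y4,y9,z12]),
    (z1,[z3,z2,z6,z2,z6,y6])]],
    .lp k0 [(nat_lit 232),(nat_lit 216),(nat_lit 260),(nat_lit 252),(nat_lit 244),(nat_lit 230)] [k15,k15,k23,k23,k0,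
    k2,k5,k5,k4,k14,k16,k16] k0 [[k0,k16,k28,k0,k12,k0,k0,k0,k16,k0,k0,k0],[k0,k0,k0,k0,k8,k0,k0,k8,k0,k0,k44,k42],
    [k0,k0,k0,k0,k0,k0,k0,k0,k0,k0,k32,k12],[k0,k28,k28,k0,k0,k0,k0,k0,k28,k0,k0,k0],[k0,k0,k0,k0,k0,k16,k40,k0,k0,
    k78,k0,k0],[k8,k12,k0,k0,k0,k0,k36,k0,k0,k44,k32,k0],[k8,k0,k0,k0,k0,k0,k0,k62,k54,k38,k0,k0],[k0,k0,k0,k0,k36,
    k40,k0,k0,k0,k0,k24,k52],[k0,k0,k0,k0,k44,k78,k0,k38,k0,k0,k62,k60],[k0,k16,k28,k0,k0,k0,k0,k54,k16,k0,k0,k0],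
    [k42,k0,k0,k12,k0,k0,k52,k0,k0,k60,k0,k16],[k44,k0,k0,k32,k32,k0,k24,k0,k0,k62,k0,k0]] (nat_lit 720) k5
    [[(k3,k180),(k8,k181),(k2,k192),(k9,(nat_lit 209)),(k7,(nat_lit 210)),(k10,(nat_lit 231)),(k4,(nat_lit 247)),(k1,
    (nat_lit 248)),(k5,(nat_lit 257)),(k0,(nat_lit 274)),(k11,(nat_lit 291)),(k6,(nat_lit 294))],[(k11,(nat_lit 215)),
    (k0,(nat_lit 216)),(k5,(nat_lit 217)),(k2,(nat_lit 224)),(k3,(nat_lit 224)),(k7,(nat_lit 230)),(k9,(nat_lit 241)),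
    (k6,(nat_lit 242)),(k8,(nat_lit 243)),(k4,(nat_lit 255)),(k1,(nat_lit 274)),(k10,(nat_lit 275))],[(k1,k180),(k10,
    k181),(k11,(nat_lit 223)),(k0,(nat_lit 224)),(k9,(nat_lit 225)),(k6,(nat_lit 226)),(k7,(nat_lit 226)),(k3,
    (nat_lit 232)),(k5,(nat_lit 237)),(k2,(nat_lit 244)),(k4,(nat_lit 251)),(k8,(nat_lit 251))],[(k1,k192),(k10,
    (nat_lit 211)),(k11,(nat_lit 223)),(k0,(nat_lit 224)),(k9,(nat_lit 225)),(k6,(nat_lit 234)),(k7,(nat_lit 234)),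
    (k5,(nat_lit 237)),(k4,(nat_lit 239)),(k2,(nat_lit 244)),(k3,(nat_lit 244)),(k8,(nat_lit 263))],[(k11,
    (nat_lit 216)),(k0,(nat_lit 217)),(k5,(nat_lit 230)),(k2,(nat_lit 237)),(k3,(nat_lit 237)),(k9,(nat_lit 246)),(k6,
    (nat_lit 255)),(k7,(nat_lit 255)),(k8,(nat_lit 256)),(k1,(nat_lit 257)),(k4,(nat_lit 260)),(k10,(nat_lit 276))],
    [(k8,k180),(k9,(nat_lit 208)),(k2,(nat_lit 239)),(k4,(nat_lit 246)),(k1,(nat_lit 247)),(k3,(nat_lit 251)),(k0,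
    (nat_lit 255)),(k7,(nat_lit 257)),(k5,(nat_lit 260)),(k10,(nat_lit 278)),(k11,(nat_lit 290)),(k6,(nat_lit 293))],
    [(k9,(nat_lit 207)),(k8,(nat_lit 209)),(k1,(nat_lit 210)),(k3,(nat_lit 226)),(k0,(nat_lit 230)),(k2,
    (nat_lit 234)),(k10,(nat_lit 241)),(k5,(nat_lit 255)),(k4,(nat_lit 257)),(k7,(nat_lit 268)),(k6,(nat_lit 292)),
    (k11,(nat_lit 319))],[(k11,k187),(k6,k190),(k8,(nat_lit 215)),(k3,(nat_lit 226)),(k2,(nat_lit 234)),(k0,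
    (nat_lit 242)),(k9,(nat_lit 243)),(k5,(nat_lit 255)),(k10,(nat_lit 265)),(k7,(nat_lit 292)),(k4,(nat_lit 293)),
    (k1,(nat_lit 294))],[(k10,k180),(k7,(nat_lit 207)),(k4,(nat_lit 208)),(k1,(nat_lit 209)),(k2,(nat_lit 225)),(k3,
    (nat_lit 225)),(k0,(nat_lit 241)),(k6,(nat_lit 243)),(k5,(nat_lit 246)),(k11,(nat_lit 270)),(k9,(nat_lit 296)),
    (k8,(nat_lit 298))],[(k4,k180),(k1,k181),(k10,k182),(k7,(nat_lit 209)),(k6,(nat_lit 215)),(k11,(nat_lit 242)),(k0,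
    (nat_lit 243)),(k3,(nat_lit 251)),(k5,(nat_lit 256)),(k2,(nat_lit 263)),(k8,(nat_lit 270)),(k9,(nat_lit 298))],
    [(k6,k187),(k11,(nat_lit 214)),(k0,(nat_lit 215)),(k5,(nat_lit 216)),(k2,(nat_lit 223)),(k3,(nat_lit 223)),(k8,
    (nat_lit 242)),(k9,(nat_lit 270)),(k4,(nat_lit 290)),(k1,(nat_lit 291)),(k10,(nat_lit 292)),(k7,(nat_lit 319))],
    [(k9,k180),(k3,k181),(k8,k182),(k2,(nat_lit 211)),(k10,(nat_lit 214)),(k1,(nat_lit 231)),(k7,(nat_lit 241)),(k6,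
    (nat_lit 265)),(k0,(nat_lit 275)),(k5,(nat_lit 276)),(k4,(nat_lit 278)),(k11,(nat_lit 292))]]
    [[k2,k1,k0,k0,k0,k0],[k2,k0,k0,k0,k1,k0],[k1,k2,k0,k0,k0,k0],[k1,k1,k1,k0,k0,k0],[k1,k1,k0,k1,k0,k0],[k1,k1,k0,k0,
    k1,k0],[k1,k1,k0,k0,k0,k1],[k1,k0,k1,k0,k1,k0],[k1,k0,k0,k2,k0,k0],[k1,k0,k0,k1,k1,k0],[k1,k0,k0,k1,k0,k1],[k1,k0,
    k0,k0,k1,k1],[k1,k0,k1,k0,k0,k1],[k0,k2,k0,k1,k0,k0],[k0,k2,k0,k0,k0,k1],[k0,k2,k1,k0,k0,k0],[k0,k1,k1,k0,k0,k1],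
    [k0,k1,k1,k0,k1,k0],[k0,k1,k0,k1,k1,k0],[k0,k1,k0,k1,k0,k1],[k0,k1,k0,k2,k0,k0],[k0,k1,k0,k0,k1,k1],[k0,k1,k0,k0,
    k0,k2],[k0,k0,k2,k0,k1,k0],[k0,k0,k1,k1,k1,k0],[k0,k0,k1,k2,k0,k0],[k0,k0,k1,k0,k1,k1],[k0,k0,k0,k2,k1,k0],[k0,k0,
    k0,k1,k1,k1],[k0,k0,k0,k0,k1,k2]]
    [.ref k25 k0 [(z2,[z3,z0,y1]),(z1,[z0,z0,z1]),(z3,[y3,z2,z1,z9]),(z3,[y3,z2,z1,z0,z9]),(z1,[z0,y1,y1,y3,y3,z3])],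
    .ref k25 k0 [(z2,[z3,z1,z1,z3,z3,y3]),(z1,[z0,z0,z1]),(z3,[y3,z1,y1,z6,y3,z3]),(z3,[y3,z1,y1,y3,z6,z3]),(z1,[z0,
    y1,y1,y3,y3,z3])],.ref k25 k0 [(z1,[z3,z0,y2]),(z1,[z0,z0,z1]),(z3,[y6,z2,z4,z9]),(z3,[y6,z2,z4,z0,z9]),(z1,[z0,
    y1,y1,y3,y3,z3])],.ref k25 k0 [(z1,[z9,y2,y3,y9]),(z1,[z0,z0,z1]),(z1,[y6,z2,z2,z9]),(z1,[y6,z2,z2,z6,z3]),(z1,
    [z0,y1,y1,y3,y3,z3])],.ref k25 k0 [(z1,[z9,y2,y3,z0,y9]),(z1,[z0,z0,z1]),(z1,[y6,z2,z2,z3,z6]),(z1,[y6,z2,z2,z0,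
    z9]),(z1,[z0,y1,y1,y3,y3,z3])],.ref k25 k0 [(z1,[z3,z1,z0,z3,z3,y3]),(z1,[z0,z0,z1]),(z1,[y2,z0,z0,z1,y2,z2]),(z1,
    [y2,z0,z0,y2,z1,z2]),(z1,[z0,y1,y1,y3,y3,z3])],.ref k25 k0 [(z4,[z9,z1,y3]),(z1,[z0,z0,z1]),(z2,[y3,z1,z1,z6]),
    (z2,[y3,z1,z1,z0,z6]),(z1,[z0,y1,y1,y3,y3,z3])],.ref k25 k0 [(z1,[z9,z1,z3,z0,z9,y9]),(z1,[z0,z0,z1]),(z1,[y6,z0,
    y2,z3,y6,z6]),(z1,[y6,z0,y2,z0,y3,z6]),(z1,[z0,y1,y1,y3,y3,z3])],.ref k25 k0 [(z1,[y9,z4,z0,z0,z18]),(z1,[z0,z0,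
    z1]),(z1,[z6,y2,z0,z3,y12]),(z1,[z6,y2,z0,z0,y9]),(z1,[z0,y1,y1,y3,y3,z3])],.ref k25 k0 [(z1,[z9,z1,z3,z9,z0,y9]),
    (z1,[z0,z0,z1]),(z1,[y6,z0,y2,y3,z0,z6]),(z1,[y6,z0,y2,y6,z3,z6]),(z1,[z0,y1,y1,y3,y3,z3])],.ref k25 k0 [(z2,[z9,
    y1,z0,z0,y9]),(z1,[z0,z0,z1]),(z1,[y3,z1,z0,z3,z3]),(z1,[y3,z1,z0,z0,z6]),(z1,[z0,y1,y1,y3,y3,z3])],
    .ref k25 k0 [(z4,[z9,z4,z3,z9,z9,y9]),(z1,[z0,z0,z1]),(z2,[y3,z0,y1,z3,y3,z3]),(z2,[y3,z0,y1,y3,z3,z3]),(z1,[z0,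
    y1,y1,y3,y3,z3])],.ref k25 k0 [(z2,[z9,y1,z0,y9]),(z1,[z0,z0,z1]),(z1,[y3,z1,z0,z6]),(z1,[y3,z1,z0,z3,z3]),(z1,
    [z0,y1,y1,y3,y3,z3])],.ref k25 k0 [(z2,[y9,z2,z6,z0,z9]),(z1,[z0,z0,z1]),(z1,[z3,z0,y2,z3,y3]),(z1,[z3,z0,y2]),
    (z1,[z0,y1,y1,y3,y3,z3])],.ref k25 k0 [(z1,[z9,z1,y6]),(z1,[z0,z0,z1]),(z1,[y6,z0,z4,z3]),(z1,[y6,z0,z4,z0,z3]),
    (z1,[z0,y1,y1,y3,y3,z3])],.ref k25 k0 [(z2,[y9,z2,z6,z9]),(z1,[z0,z0,z1]),(z1,[z3,z0,y2]),(z1,[z3,z0,y2,y3,z3]),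
    (z1,[z0,y1,y1,y3,y3,z3])],.ref k25 k0 [(z1,[y9,z1,z3,z9]),(z1,[z0,z0,z1]),(z1,[z6,z0,y2,y3]),(z1,[z6,z0,y2,y6,
    z3]),(z1,[z0,y1,y1,y3,y3,z3])],.ref k25 k0 [(z2,[y9,y1,z0,z0,y9,z9]),(z1,[z0,z0,z1]),(z1,[z3,z1,z0,z3,z3,y3]),(z1,
    [z3,z1,z0,z0,z6,y3]),(z1,[z0,y1,y1,y3,y3,z3])],.ref k25 k0 [(z2,[y9,y1,z0,y9,z0,z9]),(z1,[z0,z0,z1]),(z1,[z3,z1,
    z0,z6,z0,y3]),(z1,[z3,z1,z0,z3,z3,y3]),(z1,[z0,y1,y1,y3,y3,z3])],.ref k25 k0 [(z1,[y9,z1,z3,z0,z9]),(z1,[z0,z0,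
    z1]),(z1,[z6,z0,y2,z3,y6]),(z1,[z6,z0,y2,z0,y3]),(z1,[z0,y1,y1,y3,y3,z3])],.ref k25 k0 [(z4,[y9,z4,z3,z0,z18]),
    (z1,[z0,z0,z1]),(z2,[z3,z0,y1,z6,y6]),(z2,[z3,z0,y1]),(z1,[z0,y1,y1,y3,y3,z3])],.ref k25 k0 [(z1,[z9,z4,z0,z9,z9,
    y9]),(z1,[z0,z0,z1]),(z1,[y6,y2,z0,y3,y6,z6]),(z1,[y6,y2,z0,y6,y3,z6]),(z1,[z0,y1,y1,y3,y3,z3])],.ref k25 k0 [(z2,
    [z9,z2,y3]),(z1,[z0,z0,z1]),(z1,[y3,z0,z1,z3]),(z1,[y3,z0,z1,z0,z3]),(z1,[z0,y1,y1,y3,y3,z3])],.ref k25 k0 [(z4,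
    [y9,z1,y3,z9,y9,z9]),(z1,[z0,z0,z1]),(z2,[z3,z1,z1,z3,z3,y3]),(z2,[z3,z1,z1,y3,z9,y3]),(z1,[z0,y1,y1,y3,y3,z3])],
    .ref k25 k0 [(z4,[y9,z1,y3,z0,z0,z9]),(z1,[z0,z0,z1]),(z2,[z3,z1,z1,z6,z0,y3]),(z2,[z3,z1,z1,z0,z6,y3]),(z1,[z0,
    y1,y1,y3,y3,z3])],.ref k25 k0 [(z2,[y3,z2,z0,z3,z6]),(z1,[z0,z0,z1]),(z1,[z1,z0,z0,z2,y2]),(z1,[z1,z0,z0,y1,z1]),
    (z1,[z0,y1,y1,y3,y3,z3])],.ref k25 k0 [(z1,[y9,y2,y3,z0,y9,z9]),(z1,[z0,z0,z1]),(z1,[z6,z2,z2,z3,z6,y6]),(z1,[z6,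
    z2,z2,z0,z9,y6]),(z1,[z0,y1,y1,y3,y3,z3])],.ref k25 k0 [(z4,[y9,z1,y3,y9,z9,z9]),(z1,[z0,z0,z1]),(z2,[z3,z1,z1,z9,
    y3,y3]),(z2,[z3,z1,z1,z3,z3,y3]),(z1,[z0,y1,y1,y3,y3,z3])],.ref k25 k0 [(z1,[y9,y2,y3,y9,z0,z9]),(z1,[z0,z0,z1]),
    (z1,[z6,z2,z2,z9,z0,y6]),(z1,[z6,z2,z2,z6,z3,y6]),(z1,[z0,y1,y1,y3,y3,z3])],.ref k25 k0 [(z2,[z9,z5,z3,z9,z9,y9]),
    (z1,[z0,z0,z1]),(z1,[y3,y1,y1,z0,y3,z3]),(z1,[y3,y1,y1,y3,z0,z3]),(z1,[z0,y1,y1,y3,y3,z3])]],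
    .lp k0 [(nat_lit 616),(nat_lit 626),(nat_lit 662),(nat_lit 682),(nat_lit 668),(nat_lit 582)] [k45,k21,k28,k28,k10,
    k10,k0,k0,k7,k7,k50,k50] k0 [[k0,k8,k14,k0,k0,k0,k0,k0,k18,k0,k0,k0],[k0,k0,k30,k0,k40,k0,k38,k0,k0,k0,k0,k80],
    [k0,k0,k0,k0,k10,k10,k0,k0,k2,k0,k2,k50],[k30,k14,k20,k0,k0,k0,k0,k0,k24,k0,k0,k0],[k0,k0,k0,k10,k0,k0,k0,k0,k2,
    k82,k16,k8],[k40,k0,k0,k10,k0,k0,k2,k30,k0,k0,k0,k0],[k0,k0,k0,k0,k30,k0,k0,k2,k8,k8,k0,k0],[k38,k0,k0,k0,k2,k0,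
    k0,k0,k0,k0,k58,k6],[k0,k0,k0,k0,k0,k82,k0,k8,k0,k0,k174,k0],[k0,k18,k24,k2,k0,k2,k0,k8,k0,k0,k0,k0],[k80,k0,k0,
    k50,k0,k8,k6,k0,k0,k0,k0,k0],[k0,k0,k0,k2,k0,k16,k58,k0,k0,k174,k0,k0]] (nat_lit 1920) k5
    [[(k8,(nat_lit 480)),(k9,(nat_lit 596)),(k10,(nat_lit 611)),(k11,(nat_lit 611)),(k2,(nat_lit 631)),(k3,
    (nat_lit 633)),(k4,(nat_lit 635)),(k1,(nat_lit 640)),(k6,(nat_lit 667)),(k7,(nat_lit 669)),(k0,(nat_lit 696)),(k5,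
    (nat_lit 701))],[(k11,(nat_lit 569)),(k0,(nat_lit 584)),(k10,(nat_lit 587)),(k3,(nat_lit 609)),(k5,(nat_lit 613)),
    (k8,(nat_lit 630)),(k9,(nat_lit 630)),(k7,(nat_lit 637)),(k2,(nat_lit 639)),(k4,(nat_lit 667)),(k6,(nat_lit 675)),
    (k1,(nat_lit 696))],[(k10,(nat_lit 524)),(k11,(nat_lit 604)),(k0,(nat_lit 609)),(k9,(nat_lit 609)),(k5,
    (nat_lit 614)),(k7,(nat_lit 614)),(k1,(nat_lit 633)),(k3,(nat_lit 634)),(k2,(nat_lit 640)),(k4,(nat_lit 644)),(k6,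
    (nat_lit 654)),(k8,(nat_lit 665))],[(k10,(nat_lit 554)),(k11,(nat_lit 602)),(k1,(nat_lit 631)),(k4,(nat_lit 634)),
    (k0,(nat_lit 639)),(k3,(nat_lit 640)),(k5,(nat_lit 644)),(k7,(nat_lit 644)),(k2,(nat_lit 646)),(k9,(nat_lit 647)),
    (k6,(nat_lit 654)),(k8,(nat_lit 671))],[(k11,(nat_lit 598)),(k0,(nat_lit 613)),(k3,(nat_lit 614)),(k10,
    (nat_lit 624)),(k5,(nat_lit 642)),(k2,(nat_lit 644)),(k9,(nat_lit 665)),(k8,(nat_lit 667)),(k4,(nat_lit 672)),(k6,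
    (nat_lit 672)),(k7,(nat_lit 682)),(k1,(nat_lit 701))],[(k8,(nat_lit 583)),(k10,(nat_lit 614)),(k11,(nat_lit 620)),
    (k2,(nat_lit 634)),(k1,(nat_lit 635)),(k3,(nat_lit 644)),(k4,(nat_lit 662)),(k0,(nat_lit 667)),(k5,(nat_lit 672)),
    (k7,(nat_lit 672)),(k6,(nat_lit 674)),(k9,(nat_lit 695))],[(k3,(nat_lit 614)),(k0,(nat_lit 637)),(k2,
    (nat_lit 644)),(k10,(nat_lit 648)),(k6,(nat_lit 652)),(k1,(nat_lit 669)),(k4,(nat_lit 672)),(k9,(nat_lit 673)),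
    (k8,(nat_lit 677)),(k5,(nat_lit 682)),(k7,(nat_lit 682)),(k11,(nat_lit 714))],[(k11,(nat_lit 624)),(k7,
    (nat_lit 652)),(k2,(nat_lit 654)),(k3,(nat_lit 654)),(k1,(nat_lit 667)),(k8,(nat_lit 667)),(k5,(nat_lit 672)),(k4,
    (nat_lit 674)),(k0,(nat_lit 675)),(k9,(nat_lit 675)),(k6,(nat_lit 680)),(k10,(nat_lit 690))],[(k1,(nat_lit 596)),
    (k3,(nat_lit 609)),(k10,(nat_lit 619)),(k0,(nat_lit 630)),(k11,(nat_lit 633)),(k2,(nat_lit 647)),(k5,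
    (nat_lit 665)),(k9,(nat_lit 670)),(k7,(nat_lit 673)),(k6,(nat_lit 675)),(k8,(nat_lit 676)),(k4,(nat_lit 695))],
    [(k1,(nat_lit 480)),(k4,(nat_lit 583)),(k10,(nat_lit 625)),(k11,(nat_lit 625)),(k0,(nat_lit 630)),(k3,
    (nat_lit 665)),(k5,(nat_lit 667)),(k6,(nat_lit 667)),(k8,(nat_lit 668)),(k2,(nat_lit 671)),(k9,(nat_lit 676)),(k7,
    (nat_lit 677))],[(k0,(nat_lit 569)),(k11,(nat_lit 582)),(k5,(nat_lit 598)),(k2,(nat_lit 602)),(k3,(nat_lit 604)),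
    (k1,(nat_lit 611)),(k4,(nat_lit 620)),(k6,(nat_lit 624)),(k8,(nat_lit 625)),(k9,(nat_lit 633)),(k7,(nat_lit 714)),
    (k10,(nat_lit 756))],[(k3,(nat_lit 524)),(k2,(nat_lit 554)),(k10,(nat_lit 582)),(k0,(nat_lit 587)),(k1,
    (nat_lit 611)),(k4,(nat_lit 614)),(k9,(nat_lit 619)),(k5,(nat_lit 624)),(k8,(nat_lit 625)),(k7,(nat_lit 648)),(k6,
    (nat_lit 690)),(k11,(nat_lit 756))]]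
    [[k2,k0,k0,k0,k1,k0],[k2,k0,k0,k0,k0,k1],[k2,k1,k0,k0,k0,k0],[k1,k2,k0,k0,k0,k0],[k1,k1,k1,k0,k0,k0],[k1,k1,k0,k0,
    k1,k0],[k1,k1,k0,k0,k0,k1],[k1,k0,k1,k0,k0,k1],[k1,k0,k1,k0,k1,k0],[k1,k0,k0,k1,k0,k1],[k1,k0,k0,k1,k1,k0],[k1,k0,
    k0,k0,k2,k0],[k1,k0,k0,k0,k1,k1],[k1,k0,k0,k0,k0,k2],[k0,k2,k1,k0,k0,k0],[k0,k2,k0,k1,k0,k0],[k0,k2,k0,k0,k0,k1],
    [k0,k1,k1,k0,k0,k1],[k0,k1,k1,k0,k1,k0],[k0,k1,k0,k1,k0,k1],[k0,k1,k0,k0,k1,k1],[k0,k1,k0,k0,k0,k2],[k0,k0,k2,k0,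
    k0,k1],[k0,k0,k1,k0,k1,k1],[k0,k0,k1,k0,k0,k2],[k0,k0,k0,k0,k1,k2]]
    [.ref k25 k0 [(z2,[z3,z3,z1,z1,z3,y3]),(z1,[z0,z0,z1]),(z8,[y9,z9,y3,z5,y9,z9]),(z4,[y3,z3,y1,y1,z9,z3]),(z1,[z0,
    y3,y1,y1,y3,z3])],.ref k25 k0 [(z3,[z4,z1]),(z1,[z0,z0,z1]),(z1,[y1,z2,z0,z1]),(z3,[y2,z4,z0,z0,z9]),(z1,[z0,y3,
    y1,y1,y3,z3])],.ref k25 k0 [(z2,[z3,z0,y1]),(z1,[z0,z0,z1]),(z8,[y9,z18,z3,z8]),(z4,[y3,z6,z1,z0,z12]),(z1,[z0,y3,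
    y1,y1,y3,z3])],.ref k25 k0 [(z1,[z3,z0,y2]),(z1,[z0,z0,z1]),(z4,[y9,z9,z6,z4]),(z2,[y3,z3,z2,z0,z6]),(z1,[z0,y3,
    y1,y1,y3,z3])],.ref k25 k0 [(z1,[z12,y9,y4,y4]),(z1,[z0,z0,z1]),(z1,[y9,z9,z3,z4]),(z1,[y6,z6,z2,z2,z3]),(z1,[z0,
    y3,y1,y1,y3,z3])],.ref k25 k0 [(z1,[z3,z3,z0,z1,z3,y3]),(z1,[z0,z0,z1]),(z4,[y9,z0,z0,z1,y9,z9]),(z2,[y3,z0,z0,y1,
    z3,z3]),(z1,[z0,y3,y1,y1,y3,z3])],.ref k25 k0 [(z5,[z12,z3,y4]),(z1,[z0,z0,z1]),(z5,[y9,z9,z3,z5]),(z5,[y6,z6,z2,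
    z0,z15]),(z1,[z0,y3,y1,y1,y3,z3])],.ref k25 k0 [(z1,[z6,y3,z0,y2]),(z1,[z0,z0,z1]),(z2,[y9,z9,z0,z5]),(z1,[y3,z3,
    z0,z1,z3]),(z1,[z0,y3,y1,y1,y3,z3])],.ref k25 k0 [(z1,[z12,z3,z4,z0,z12,y12]),(z1,[z0,z0,z1]),(z1,[y9,z0,y3,z1,y9,
    z9]),(z1,[y6,z0,y2,z0,y3,z6]),(z1,[z0,y3,y1,y1,y3,z3])],.ref k25 k0 [(z1,[z4,y1,z0,z0,y4]),(z1,[z0,z0,z1]),(z1,
    [y3,z3,z0,z1,z3]),(z1,[y2,z2,z0,z0,z5]),(z1,[z0,y3,y1,y1,y3,z3])],.ref k25 k0 [(z1,[z6,z3,z2,z2,z0,y6]),(z1,[z0,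
    z0,z1]),(z2,[y9,z0,y3,y1,z0,z9]),(z1,[y3,z0,y1,y1,z3,z3]),(z1,[z0,y3,y1,y1,y3,z3])],.ref k25 k0 [(z1,[z3,z6,z2,z2,
    z6,y6]),(z1,[z0,z0,z1]),(z4,[y9,y9,y6,y2,y18,z18]),(z2,[y3,y3,y2,y2,z0,z6]),(z1,[z0,y3,y1,y1,y3,z3])],
    .ref k25 k0 [(z5,[z12,z15,z4,z4,z12,y12]),(z1,[z0,z0,z1]),(z5,[y9,z0,y3,z2,y9,z9]),(z5,[y6,z0,y2,y2,z9,z6]),(z1,
    [z0,y3,y1,y1,y3,z3])],.ref k25 k0 [(z1,[z2,z1]),(z1,[z0,z0,z1]),(z2,[y3,z3,z0,z2]),(z1,[y1,z1,z0,z0,z3]),(z1,[z0,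
    y3,y1,y1,y3,z3])],.ref k25 k0 [(z3,[y12,z9,z8,z4]),(z1,[z0,z0,z1]),(z1,[z3,z0,y2]),(z3,[z6,z0,y4,y2,z9]),(z1,[z0,
    y3,y1,y1,y3,z3])],.ref k25 k0 [(z1,[y6,z3,z4,z0,z6]),(z1,[z0,z0,z1]),(z2,[z9,z0,y6,z2,y9]),(z1,[z3,z0,y2]),(z1,
    [z0,y3,y1,y1,y3,z3])],.ref k25 k0 [(z1,[z12,z3,y8]),(z1,[z0,z0,z1]),(z1,[y9,z0,z6,z1]),(z1,[y6,z0,z4,z0,z3]),(z1,
    [z0,y3,y1,y1,y3,z3])],.ref k25 k0 [(z1,[y6,z3,z2,z2]),(z1,[z0,z0,z1]),(z2,[z9,z0,y3,y1]),(z1,[z3,z0,y1,y1,z3]),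
    (z1,[z0,y3,y1,y1,y3,z3])],.ref k25 k0 [(z1,[y4,y1,z0,z0,y4,z4]),(z1,[z0,z0,z1]),(z1,[z3,z3,z0,z1,z3,y3]),(z1,[z2,
    z2,z0,z0,z5,y2]),(z1,[z0,y3,y1,y1,y3,z3])],.ref k25 k0 [(z1,[y12,z3,z4,z0,z12]),(z1,[z0,z0,z1]),(z1,[z9,z0,y3,z1,
    y9]),(z1,[z6,z0,y2,z0,y3]),(z1,[z0,y3,y1,y1,y3,z3])],.ref k25 k0 [(z1,[z12,z15,z0,z4,z12,y12]),(z1,[z0,z0,z1]),
    (z1,[y9,y9,z0,y2,y9,z9]),(z1,[y6,y6,z0,y2,y3,z6]),(z1,[z0,y3,y1,y1,y3,z3])],.ref k25 k0 [(z1,[z6,z3,y2]),(z1,[z0,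
    z0,z1]),(z2,[y9,z0,z3,z2]),(z1,[y3,z0,z1,z0,z3]),(z1,[z0,y3,y1,y1,y3,z3])],.ref k25 k0 [(z5,[y12,z15,z0,z8]),(z1,
    [z0,z0,z1]),(z5,[z9,z0,z0,y1]),(z5,[z6,z0,z0,y4,z15]),(z1,[z0,y3,y1,y1,y3,z3])],.ref k25 k0 [(z1,[y6,y3,y2,z0,y6,
    z6]),(z1,[z0,z0,z1]),(z2,[z9,z9,z3,z2,z9,y9]),(z1,[z3,z3,z1,z0,z6,y3]),(z1,[z0,y3,y1,y1,y3,z3])],.ref k25 k0 [(z1,
    [y12,z3,z0,z4]),(z1,[z0,z0,z1]),(z1,[z9,z0,z0,y2]),(z1,[z6,z0,z0,y2,z3]),(z1,[z0,y3,y1,y1,y3,z3])],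
    .ref k25 k0 [(z1,[z6,z9,z2,z2,z6,y6]),(z1,[z0,z0,z1]),(z2,[y9,y9,y3,y1,y9,z9]),(z1,[y3,y3,y1,y1,z0,z3]),(z1,[z0,
    y3,y1,y1,y3,z3])]],
    .lp k0 [(nat_lit 57885120),(nat_lit 59736248),(nat_lit 61588800),(nat_lit 60476780),(nat_lit 60476780),
    (nat_lit 54922790)] [(nat_lit 1851840),(nat_lit 1851840),(nat_lit 926276),(nat_lit 926276),k0,k0,(nat_lit 556010),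
    (nat_lit 556010),(nat_lit 556010),(nat_lit 556010),(nat_lit 3333005),(nat_lit 3333005)] k0 [[k0,k0,k0,
    (nat_lit 1481064),(nat_lit 1481064),k0,k0,k0,k0,k0,k0,(nat_lit 2221596)],[(nat_lit 2962128),k0,k0,k0,k0,k0,k0,
    (nat_lit 4072926),(nat_lit 8145852),k0,k0,(nat_lit 5183724)],[k0,(nat_lit 1481064),k0,k0,k0,(nat_lit 1481064),k0,
    (nat_lit 1110798),k0,k0,(nat_lit 2962128),k0],[k0,k0,(nat_lit 1851330),k0,k0,(nat_lit 1851330),k0,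
    (nat_lit 740532),k0,k0,k0,k0],[k0,k0,(nat_lit 1851330),(nat_lit 1481064),k0,(nat_lit 3332394),(nat_lit 4072926),
    k0,k0,k0,k0,k0],[k0,(nat_lit 1481064),k0,k0,k0,k0,(nat_lit 740532),k0,k0,(nat_lit 9997182),(nat_lit 1481064),k0],
    [(nat_lit 4072926),k0,(nat_lit 740532),(nat_lit 1110798),k0,k0,k0,k0,(nat_lit 2221596),(nat_lit 11107980),k0,k0],
    [k0,k0,k0,k0,(nat_lit 740532),(nat_lit 4072926),(nat_lit 1851330),k0,k0,k0,(nat_lit 740532),k0],[k0,k0,k0,k0,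
    (nat_lit 9997182),k0,k0,(nat_lit 11107980),k0,(nat_lit 1851330),(nat_lit 7405320),k0],[(nat_lit 8145852),k0,k0,k0,
    k0,k0,k0,(nat_lit 2221596),k0,k0,(nat_lit 5553990),k0],[(nat_lit 5183724),(nat_lit 2221596),k0,k0,k0,k0,k0,k0,k0,
    k0,k0,(nat_lit 3702660)],[k0,k0,k0,(nat_lit 2962128),(nat_lit 1481064),k0,(nat_lit 740532),k0,(nat_lit 5553990),
    (nat_lit 7405320),k0,k0]] (nat_lit 177727680) k5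
    [[(k11,(nat_lit 50849965)),(k8,(nat_lit 51775630)),(k2,(nat_lit 55848556)),(k10,(nat_lit 56403955)),(k7,
    (nat_lit 57699886)),(k9,(nat_lit 58440418)),(k6,(nat_lit 59180950)),(k4,(nat_lit 59736960)),(k5,
    (nat_lit 59736960)),(k3,(nat_lit 61032280)),(k1,(nat_lit 61587780)),(k0,(nat_lit 63068844))],[(k10,
    (nat_lit 54182359)),(k11,(nat_lit 56403955)),(k2,(nat_lit 57329620)),(k7,(nat_lit 57699886)),(k3,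
    (nat_lit 58810684)),(k6,(nat_lit 59180950)),(k4,(nat_lit 59736960)),(k5,(nat_lit 59736960)),(k0,
    (nat_lit 60847248)),(k1,(nat_lit 63068844)),(k9,(nat_lit 63253876)),(k8,(nat_lit 67326802))],[(k11,
    (nat_lit 49183667)),(k10,(nat_lit 52145795)),(k6,(nat_lit 56033588)),(k3,(nat_lit 56774120)),(k0,
    (nat_lit 58810684)),(k2,(nat_lit 59736248)),(k7,(nat_lit 60106514)),(k8,(nat_lit 60106514)),(k9,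
    (nat_lit 60106514)),(k1,(nat_lit 61032280)),(k4,(nat_lit 62143588)),(k5,(nat_lit 62143588))],[(k1,
    (nat_lit 55848556)),(k10,(nat_lit 57329519)),(k11,(nat_lit 57329519)),(k0,(nat_lit 57329620)),(k6,
    (nat_lit 58995716)),(k4,(nat_lit 59181460)),(k3,(nat_lit 59736248)),(k8,(nat_lit 60106514)),(k5,
    (nat_lit 60662524)),(k9,(nat_lit 60847046)),(k2,(nat_lit 61587578)),(k7,(nat_lit 61957844))],[(k11,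
    (nat_lit 58255795)),(k0,(nat_lit 59736960)),(k1,(nat_lit 59736960)),(k4,(nat_lit 59737470)),(k5,
    (nat_lit 59737470)),(k6,(nat_lit 60292258)),(k2,(nat_lit 60662524)),(k8,(nat_lit 61032790)),(k10,
    (nat_lit 61217923)),(k3,(nat_lit 62143588)),(k9,(nat_lit 62143588)),(k7,(nat_lit 62513854))],[(k9,
    (nat_lit 56959864)),(k4,(nat_lit 58256406)),(k2,(nat_lit 59181460)),(k10,(nat_lit 59736859)),(k0,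
    (nat_lit 59736960)),(k1,(nat_lit 59736960)),(k5,(nat_lit 59737470)),(k7,(nat_lit 61032790)),(k8,
    (nat_lit 61032790)),(k6,(nat_lit 61773322)),(k3,(nat_lit 62143588)),(k11,(nat_lit 68252977))],[(k8,
    (nat_lit 50479598)),(k10,(nat_lit 57699785)),(k11,(nat_lit 57699785)),(k0,(nat_lit 57699886)),(k1,
    (nat_lit 57699886)),(k9,(nat_lit 59736248)),(k3,(nat_lit 60106514)),(k4,(nat_lit 61032790)),(k2,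
    (nat_lit 61957844)),(k5,(nat_lit 62513854)),(k7,(nat_lit 63809174)),(k6,(nat_lit 64549706))],[(k8,
    (nat_lit 49368800)),(k11,(nat_lit 55478189)),(k3,(nat_lit 56033588)),(k10,(nat_lit 58440317)),(k2,
    (nat_lit 58995716)),(k0,(nat_lit 59180950)),(k1,(nat_lit 59180950)),(k5,(nat_lit 60292258)),(k9,
    (nat_lit 60476780)),(k4,(nat_lit 61773322)),(k6,(nat_lit 62328110)),(k7,(nat_lit 64549706))],[(k4,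
    (nat_lit 56959864)),(k10,(nat_lit 57699785)),(k1,(nat_lit 58440418)),(k9,(nat_lit 58625450)),(k7,
    (nat_lit 59736248)),(k3,(nat_lit 60106514)),(k6,(nat_lit 60476780)),(k2,(nat_lit 60847046)),(k5,
    (nat_lit 62143588)),(k8,(nat_lit 62698376)),(k0,(nat_lit 63253876)),(k11,(nat_lit 68807765))],[(k6,
    (nat_lit 49368800)),(k7,(nat_lit 50479598)),(k1,(nat_lit 51775630)),(k11,(nat_lit 57699785)),(k8,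
    (nat_lit 58625450)),(k2,(nat_lit 60106514)),(k3,(nat_lit 60106514)),(k4,(nat_lit 61032790)),(k5,
    (nat_lit 61032790)),(k9,(nat_lit 62698376)),(k10,(nat_lit 63253775)),(k0,(nat_lit 67326802))],[(k3,
    (nat_lit 49183667)),(k1,(nat_lit 50849965)),(k6,(nat_lit 55478189)),(k0,(nat_lit 56403955)),(k11,
    (nat_lit 56774120)),(k2,(nat_lit 57329519)),(k7,(nat_lit 57699785)),(k8,(nat_lit 57699785)),(k5,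
    (nat_lit 58255795)),(k10,(nat_lit 62328110)),(k4,(nat_lit 68252977)),(k9,(nat_lit 68807765))],[(k10,
    (nat_lit 51220130)),(k3,(nat_lit 52145795)),(k0,(nat_lit 54182359)),(k1,(nat_lit 56403955)),(k2,
    (nat_lit 57329519)),(k7,(nat_lit 57699785)),(k9,(nat_lit 57699785)),(k6,(nat_lit 58440317)),(k4,
    (nat_lit 59736859)),(k5,(nat_lit 61217923)),(k11,(nat_lit 62328110)),(k8,(nat_lit 63253775))]]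
    [[k2,k0,k0,k0,k0,k1],[k1,k2,k0,k0,k0,k0],[k1,k1,k0,k1,k0,k0],[k1,k1,k0,k0,k0,k1],[k1,k0,k1,k0,k0,k1],[k1,k0,k0,k1,
    k1,k0],[k1,k0,k0,k1,k0,k1],[k2,k0,k0,k0,k1,k0],[k1,k1,k0,k0,k1,k0],[k1,k0,k1,k0,k1,k0],[k1,k0,k0,k0,k1,k1],[k1,k0,
    k0,k0,k0,k2],[k0,k2,k0,k0,k0,k1],[k0,k2,k1,k0,k0,k0],[k0,k1,k0,k1,k1,k0],[k0,k1,k0,k1,k0,k1],[k0,k1,k0,k0,k1,k1],
    [k0,k1,k1,k0,k0,k1],[k0,k1,k0,k0,k0,k2],[k0,k0,k1,k1,k1,k0],[k0,k0,k1,k0,k1,k1],[k0,k0,k0,k2,k1,k0],[k0,k0,k0,k1,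
    k2,k0],[k0,k0,k0,k1,k1,k1],[k0,k0,k0,k1,k0,k2],[k0,k0,k0,k0,k0,k3]]
    [.ref k25 k0 [(z3,[z4,z1]),(z1,[z0,z0,z1]),(z3,[y2,z4,z0,z9]),(z1,[y1,z2,z0,z0,z1]),(z1,[z0,y3,y1,y3,y1,z3])],
    .ref k25 k0 [(z1,[z3,z0,y2]),(z1,[z0,z0,z1]),(z2,[y3,z3,z2,z6]),(z4,[y9,z9,z6,z0,z4]),(z1,[z0,y3,y1,y3,y1,z3])],
    .ref k25 k0 [(z1,[z12,y9,y4,z0,y4]),(z1,[z0,z0,z1]),(z1,[y6,z6,z2,z3,z2]),(z1,[y9,z9,z3,z0,z4]),(z1,[z0,y3,y1,y3,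
    y1,z3])],.ref k25 k0 [(z5,[z12,z3,y4]),(z1,[z0,z0,z1]),(z5,[y6,z6,z2,z15]),(z5,[y9,z9,z3,z0,z5]),(z1,[z0,y3,y1,y3,
    y1,z3])],.ref k25 k0 [(z1,[z4,y1,z0,y4]),(z1,[z0,z0,z1]),(z1,[y2,z2,z0,z5]),(z1,[y3,z3,z0,z3,z1]),(z1,[z0,y3,y1,
    y3,y1,z3])],.ref k25 k0 [(z1,[z12,z3,z4,z12,z0,y12]),(z1,[z0,z0,z1]),(z1,[y6,z0,y2,y3,z0,z6]),(z1,[y9,z0,y3,y9,z1,
    z9]),(z1,[z0,y3,y1,y3,y1,z3])],.ref k25 k0 [(z1,[z6,y3,z0,z0,y2]),(z1,[z0,z0,z1]),(z1,[y3,z3,z0,z3,z1]),(z2,[y9,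
    z9,z0,z0,z5]),(z1,[z0,y3,y1,y3,y1,z3])],.ref k25 k0 [(z2,[z3,z3,z1,z3,z1,y3]),(z1,[z0,z0,z1]),(z4,[y3,z3,y1,z9,y1,
    z3]),(z8,[y9,z9,y3,y9,z5,z9]),(z1,[z0,y3,y1,y3,y1,z3])],.ref k25 k0 [(z1,[z3,z3,z0,z3,z1,y3]),(z1,[z0,z0,z1]),(z2,
    [y3,z0,z0,z3,y1,z3]),(z4,[y9,z0,z0,y9,z1,z9]),(z1,[z0,y3,y1,y3,y1,z3])],.ref k25 k0 [(z1,[z6,z3,z2,z0,z2,y6]),(z1,
    [z0,z0,z1]),(z1,[y3,z0,y1,z3,y1,z3]),(z2,[y9,z0,y3,z0,y1,z9]),(z1,[z0,y3,y1,y3,y1,z3])],.ref k25 k0 [(z5,[z12,z15,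
    z4,z12,z4,y12]),(z1,[z0,z0,z1]),(z5,[y6,z0,y2,z9,y2,z6]),(z5,[y9,z0,y3,y9,z2,z9]),(z1,[z0,y3,y1,y3,y1,z3])],
    .ref k25 k0 [(z1,[z2,z1]),(z1,[z0,z0,z1]),(z1,[y1,z1,z0,z3]),(z2,[y3,z3,z0,z0,z2]),(z1,[z0,y3,y1,y3,y1,z3])],
    .ref k25 k0 [(z1,[z12,z3,y8]),(z1,[z0,z0,z1]),(z1,[y6,z0,z4,z3]),(z1,[y9,z0,z6,z0,z1]),(z1,[z0,y3,y1,y3,y1,z3])],
    .ref k25 k0 [(z1,[y6,z3,z4,z6]),(z1,[z0,z0,z1]),(z1,[z3,z0,y2]),(z2,[z9,z0,y6,y9,z2]),(z1,[z0,y3,y1,y3,y1,z3])],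
    .ref k25 k0 [(z1,[y4,y1,z0,y4,z0,z4]),(z1,[z0,z0,z1]),(z1,[z2,z2,z0,z5,z0,y2]),(z1,[z3,z3,z0,z3,z1,y3]),(z1,[z0,
    y3,y1,y3,y1,z3])],.ref k25 k0 [(z1,[y6,z3,z2,z0,z2]),(z1,[z0,z0,z1]),(z1,[z3,z0,y1,z3,y1]),(z2,[z9,z0,y3,z0,y1]),
    (z1,[z0,y3,y1,y3,y1,z3])],.ref k25 k0 [(z1,[z12,z15,z0,z12,z4,y12]),(z1,[z0,z0,z1]),(z1,[y6,y6,z0,y3,y2,z6]),(z1,
    [y9,y9,z0,y9,y2,z9]),(z1,[z0,y3,y1,y3,y1,z3])],.ref k25 k0 [(z1,[y12,z3,z4,z12]),(z1,[z0,z0,z1]),(z1,[z6,z0,y2,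
    y3]),(z1,[z9,z0,y3,y9,z1]),(z1,[z0,y3,y1,y3,y1,z3])],.ref k25 k0 [(z1,[z6,z3,y2]),(z1,[z0,z0,z1]),(z1,[y3,z0,z1,
    z3]),(z2,[y9,z0,z3,z0,z2]),(z1,[z0,y3,y1,y3,y1,z3])],.ref k25 k0 [(z5,[y12,z3,y4,z0,z0,z12]),(z1,[z0,z0,z1]),(z5,
    [z6,z6,z2,z15,z0,y6]),(z5,[z9,z9,z3,z0,z5,y9]),(z1,[z0,y3,y1,y3,y1,z3])],.ref k25 k0 [(z1,[y12,y9,y4,z0,y4,z12]),
    (z1,[z0,z0,z1]),(z1,[z6,z6,z2,z3,z2,y6]),(z1,[z9,z9,z3,z0,z4,y9]),(z1,[z0,y3,y1,y3,y1,z3])],.ref k25 k0 [(z3,[y6,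
    z3,y2,y6,z2,z6]),(z1,[z0,z0,z1]),(z3,[z3,z3,z1,z12,y1,y3]),(z2,[z3,z3,z1,z3,z1,y3]),(z1,[z0,y3,y1,y3,y1,z3])],
    .ref k25 k0 [(z3,[y12,y15,y8,y24,y4,z24]),(z1,[z0,z0,z1]),(z3,[z6,z12,z4,z21,z2,y12]),(z1,[z3,z6,z2,z6,z2,y6]),
    (z1,[z0,y3,y1,y3,y1,z3])],.ref k25 k0 [(z1,[y6,y3,y2,y6,z0,z6]),(z1,[z0,z0,z1]),(z1,[z3,z3,z1,z6,z0,y3]),(z2,[z9,
    z9,z3,z9,z2,y9]),(z1,[z0,y3,y1,y3,y1,z3])],.ref k25 k0 [(z1,[y12,z3,z0,z0,z4]),(z1,[z0,z0,z1]),(z1,[z6,z0,z0,z3,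
    y2]),(z1,[z9,z0,z0,z0,y2]),(z1,[z0,y3,y1,y3,y1,z3])],.ref k25 k0 [(z1,[z4,z3]),(z1,[z0,z0,z1]),(z1,[y2,z0,z0,z3]),
    (z1,[y3,z0,z0,z0,z1]),(z1,[z0,y3,y1,y3,y1,z3])]],
    .lp k0 [(nat_lit 1000),(nat_lit 916),(nat_lit 1006),(nat_lit 1000),(nat_lit 982),(nat_lit 850)] [k3,k3,k45,k45,k0,
    k0,k3,k3,k12,k12,k78,k78] k0 [[k0,k0,k0,k0,k6,k36,k6,k54,k30,k0,k0,k18],[k6,k0,k0,k12,k0,k0,k0,k0,k12,k0,k0,k60],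
    [k12,k0,k0,k0,k0,k0,k0,k0,k0,k0,k18,k0],[k0,k0,k0,k0,k0,k0,k6,k48,k24,k0,k0,k0],[k0,k36,k0,k0,k0,k0,k0,k24,k0,k72,
    k72,k0],[k0,k6,k0,k0,k24,k0,k0,k0,k0,k0,k42,k0],[k0,k54,k48,k0,k0,k24,k0,k0,k0,k0,k0,k0],[k0,k6,k6,k0,k0,k0,k0,k0,
    k0,k48,k48,k0],[k0,k0,k0,k0,k0,k72,k48,k0,k0,k0,k0,k24],[k12,k30,k24,k0,k0,k0,k0,k0,k0,k0,k0,k0],[k60,k18,k0,k0,
    k0,k0,k0,k0,k0,k24,k0,k78],[k0,k0,k0,k18,k42,k72,k48,k0,k0,k0,k0,k0]] (nat_lit 2880) k5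
    [[(k10,(nat_lit 925)),(k4,(nat_lit 931)),(k2,(nat_lit 940)),(k9,(nat_lit 943)),(k11,(nat_lit 949)),(k7,
    (nat_lit 958)),(k3,(nat_lit 976)),(k8,(nat_lit 991)),(k6,(nat_lit 1000)),(k5,(nat_lit 1003)),(k0,(nat_lit 1060)),
    (k1,(nat_lit 1078))],[(k11,(nat_lit 895)),(k10,(nat_lit 907)),(k6,(nat_lit 946)),(k2,(nat_lit 958)),(k3,
    (nat_lit 958)),(k4,(nat_lit 967)),(k9,(nat_lit 985)),(k7,(nat_lit 994)),(k8,(nat_lit 1003)),(k0,(nat_lit 1006)),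
    (k5,(nat_lit 1015)),(k1,(nat_lit 1060))],[(k10,(nat_lit 823)),(k11,(nat_lit 871)),(k2,(nat_lit 904)),(k3,
    (nat_lit 910)),(k0,(nat_lit 958)),(k5,(nat_lit 961)),(k6,(nat_lit 964)),(k4,(nat_lit 967)),(k1,(nat_lit 976)),(k8,
    (nat_lit 979)),(k7,(nat_lit 994)),(k9,(nat_lit 1003))],[(k10,(nat_lit 883)),(k11,(nat_lit 883)),(k3,
    (nat_lit 904)),(k2,(nat_lit 916)),(k1,(nat_lit 940)),(k0,(nat_lit 958)),(k7,(nat_lit 958)),(k4,(nat_lit 961)),(k5,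
    (nat_lit 961)),(k6,(nat_lit 964)),(k8,(nat_lit 973)),(k9,(nat_lit 997))],[(k11,(nat_lit 904)),(k10,(nat_lit 946)),
    (k6,(nat_lit 955)),(k2,(nat_lit 961)),(k3,(nat_lit 961)),(k9,(nat_lit 988)),(k8,(nat_lit 994)),(k1,
    (nat_lit 1003)),(k7,(nat_lit 1003)),(k4,(nat_lit 1006)),(k5,(nat_lit 1006)),(k0,(nat_lit 1015))],[(k8,
    (nat_lit 922)),(k11,(nat_lit 928)),(k1,(nat_lit 931)),(k2,(nat_lit 961)),(k0,(nat_lit 967)),(k3,(nat_lit 967)),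
    (k10,(nat_lit 970)),(k6,(nat_lit 979)),(k9,(nat_lit 994)),(k7,(nat_lit 1003)),(k5,(nat_lit 1006)),(k4,
    (nat_lit 1030))],[(k1,(nat_lit 958)),(k2,(nat_lit 958)),(k7,(nat_lit 976)),(k8,(nat_lit 991)),(k0,(nat_lit 994)),
    (k3,(nat_lit 994)),(k10,(nat_lit 997)),(k11,(nat_lit 997)),(k6,(nat_lit 1000)),(k4,(nat_lit 1003)),(k5,
    (nat_lit 1003)),(k9,(nat_lit 1015))],[(k0,(nat_lit 946)),(k5,(nat_lit 955)),(k2,(nat_lit 964)),(k3,(nat_lit 964)),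
    (k10,(nat_lit 973)),(k11,(nat_lit 973)),(k4,(nat_lit 979)),(k8,(nat_lit 991)),(k9,(nat_lit 991)),(k1,
    (nat_lit 1000)),(k6,(nat_lit 1000)),(k7,(nat_lit 1000))],[(k10,(nat_lit 916)),(k11,(nat_lit 916)),(k8,
    (nat_lit 934)),(k1,(nat_lit 943)),(k9,(nat_lit 982)),(k0,(nat_lit 985)),(k5,(nat_lit 988)),(k6,(nat_lit 991)),(k4,
    (nat_lit 994)),(k2,(nat_lit 997)),(k3,(nat_lit 1003)),(k7,(nat_lit 1015))],[(k10,(nat_lit 892)),(k11,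
    (nat_lit 916)),(k4,(nat_lit 922)),(k9,(nat_lit 934)),(k2,(nat_lit 973)),(k3,(nat_lit 979)),(k8,(nat_lit 982)),(k1,
    (nat_lit 991)),(k6,(nat_lit 991)),(k7,(nat_lit 991)),(k5,(nat_lit 994)),(k0,(nat_lit 1003))],[(k10,(nat_lit 850)),
    (k11,(nat_lit 850)),(k3,(nat_lit 871)),(k2,(nat_lit 883)),(k0,(nat_lit 895)),(k5,(nat_lit 904)),(k8,
    (nat_lit 916)),(k9,(nat_lit 916)),(k4,(nat_lit 928)),(k1,(nat_lit 949)),(k6,(nat_lit 973)),(k7,(nat_lit 997))],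
    [(k10,(nat_lit 772)),(k3,(nat_lit 823)),(k11,(nat_lit 850)),(k2,(nat_lit 883)),(k8,(nat_lit 892)),(k0,
    (nat_lit 907)),(k9,(nat_lit 916)),(k1,(nat_lit 925)),(k5,(nat_lit 946)),(k4,(nat_lit 970)),(k6,(nat_lit 973)),(k7,
    (nat_lit 997))]]
    [[k1,k2,k0,k0,k0,k0],[k1,k1,k1,k0,k0,k0],[k1,k1,k0,k0,k0,k1],[k1,k0,k1,k0,k0,k1],[k1,k0,k0,k1,k0,k1],[k1,k0,k0,k0,
    k1,k1],[k1,k1,k0,k0,k1,k0],[k1,k0,k0,k0,k0,k2],[k0,k3,k0,k0,k0,k0],[k0,k2,k1,k0,k0,k0],[k0,k2,k0,k1,k0,k0],[k0,k2,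
    k0,k0,k0,k1],[k0,k1,k1,k0,k0,k1],[k0,k1,k0,k1,k0,k1],[k0,k1,k0,k0,k1,k1],[k0,k1,k0,k0,k0,k2],[k0,k0,k1,k0,k1,k1],
    [k0,k0,k1,k0,k2,k0],[k0,k0,k1,k0,k0,k2],[k0,k0,k0,k1,k0,k2],[k0,k0,k0,k0,k3,k0],[k0,k0,k0,k0,k2,k1],[k0,k0,k0,k0,
    k1,k2],[k0,k0,k0,k0,k0,k3]]
    [.ref k77 k0 [(z1,[z0,z1]),(z2,[z3,y1]),(z2,[z3,y1,y3,z1]),(z2,[z0,y2,y3,y1,z6])],.ref (nat_lit 267) k5 [(z1,[y6,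
    z2,z3]),(z6,[z6,y2,y3,z1]),(z1,[z0,z1]),(z1,[z3,y1])],.ref (nat_lit 268) k8 [(z2,[y6,z2,y3,z1]),(z2,[z0,y2,y3,y1,
    z6]),(z1,[z0,z0,z1]),(z1,[z3,y1])],.ref k77 k0 [(z1,[z0,z1]),(z2,[z6,y2,z3,y1]),(z1,[z3,y1]),(z2,[z0,y2,y3,y1,
    z6])],.ref (nat_lit 269) k10 [(z1,[z1,z0,z1,z0,y1]),(z1,[z0,z1]),(z2,[z6,z0,z3,z1,y6]),(z1,[y2,z0,y1,z0,z2])],
    .ref (nat_lit 267) k5 [(z1,[z6,y2,z0,y1]),(z3,[y3,z1,z0,z1]),(z1,[z0,z1]),(z2,[y6,z2,z3,z1])],.ref k77 k0 [(z1,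
    [z0,z1]),(z1,[y3,z1,z3]),(z2,[y6,z2,z3,z1]),(z2,[z0,y2,y3,y1,z6])],.ref (nat_lit 269) k10 [(z6,[z3,y1,z3,y1]),(z1,
    [z0,z1]),(z2,[z3,y1]),(z3,[y3,z1,z0,z1])],.ref k77 k0 [(z1,[z0,z1]),(z1,[z1]),(z2,[z2,z0,y3,z1]),(z2,[z0,y2,y3,y1,
    z6])],.ref (nat_lit 270) k9 [(z2,[y6,z0,y3,z1]),(z1,[z0,z0,z1]),(z2,[z0,y2,y3,y1,z6]),(z1,[z1])],.ref k77 k0 [(z1,
    [z0,z1]),(z4,[z6,z2,z3,z1,y6]),(z4,[z6,z2,y3,z3,y6]),(z2,[z0,y2,y3,y1,z6])],.ref (nat_lit 271) k8 [(z2,[y6,z0,y3,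
    z1]),(z2,[z0,y2,y3,y1,z6]),(z1,[z0,z0,z1]),(z1,[z1])],.ref k77 k0 [(z1,[z0,z1]),(z4,[z6,z0,z3,y1]),(z4,[z6,z0,y3,
    z1]),(z2,[z0,y2,y3,y1,z6])],.ref (nat_lit 268) k8 [(z1,[y3,y1,y3,z0,z3]),(z2,[z0,y2,y3,y1,z6]),(z1,[z0,z0,z1]),
    (z2,[z6,z2,z3,z1,y6])],.ref k68 k7 [(z1,[y1,z0,z1]),(z2,[y6,z0,z3,z1]),(z2,[z0,y2,y3,y1,z6]),(z1,[z2,z0,y1])],
    .ref (nat_lit 272) k4 [(z1,[y2,z0,z1]),(z2,[z0,y2,y3,y1,z6]),(z2,[z6,z0,y3,z1]),(z1,[z1])],.ref k77 k0 [(z1,[z0,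
    z1]),(z2,[y6,z0,z3,z1]),(z1,[y3,z0,z0,z1]),(z2,[z0,y2,y3,y1,z6])],.ref (nat_lit 273) k8 [(z1,[z1,z0,y2]),(z2,[z0,
    y2,y3,y1,z6]),(z1,[z0,z0,z1]),(z2,[y6,z0,z9,z1])],.ref (nat_lit 268) k8 [(z1,[y3,z0,y3,z1]),(z2,[z0,y2,y3,y1,z6]),
    (z1,[z0,z0,z1]),(z2,[z6,z0,z3,y1])],.ref (nat_lit 269) k10 [(z12,[z6,z2,z9,y1,y6]),(z1,[z0,z1]),(z4,[z6,z2,z3,z1,
    y6]),(z6,[y6,y2,y3,z1,z6])],.ref k77 k0 [(z1,[z0,z1]),(z2,[y1,z0,z3]),(z2,[y1,z0,z0,z1]),(z2,[z0,y2,y3,y1,z6])],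
    .ref k186 k9 [(z1,[z1,z0,y2]),(z1,[z0,z0,z1]),(z2,[z0,y2,y3,y1,z6]),(z2,[y6,z0,z9,z1])],.ref k68 k7 [(z2,[y1,z0,
    z1]),(z2,[y3,z0,z0,z1]),(z2,[z0,y2,y3,y1,z6]),(z1,[z1])],.ref (nat_lit 269) k10 [(z6,[z2,z0,z3,y1]),(z1,[z0,z1]),
    (z1,[z1]),(z3,[y2,z0,z0,z1])]],
    .base (.leafM k3 [k1,k2,k3,k4,k5,k0] [(z1,[z0,z0,z1])] [])]

theorem hB6_171_22 : blkB [0, 0, 0, 0, 0, 0] [] sp6 hS6_171 (pcls (n := 6) [0, 0, 0, 0, 0, 0]) hD6_171 560 22 hN6_171_22 = true := by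
  decide +kernel

/-- nodes 276 to 287 -/
noncomputable def hN6_171_23 : List HM :=
  [.base (.leafM k3 [k2,k3,k4,k5,k0,k1] [(z3,[z0,y1,y1,z3])] []),
    .base (.leafM k0 [k2,k3,k4,k5,k0,k1] [(z3,[y3,y1,y1,z3])] []),
    .base (.leafM k0 [k1,k2,k3,k4,k5,k0] [(z1,[z0,z0,z1,z1])] []),
    .base (.leafM k0 [k2,k3,k4,k5,k0,k1] [(z1,[y1,y1,y1,z0,z1])] []),
    .base (.leafM k0 [k2,k3,k4,k5,k0,k1] [(z1,[y1,y1,y1,z0,z1])] []),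
    .lp k0 [(nat_lit 1180),(nat_lit 1280),(nat_lit 1340),(nat_lit 1294),(nat_lit 1314),(nat_lit 1268)] [k80,k80,k30,
    k30,k0,k0,k23,k23,k13,k13,k36,k36] k0 [[k0,k0,k0,k64,k0,k0,k6,k0,k0,k48,k0,k0],[k0,k0,k0,k0,k48,k88,k98,k0,k0,k68,
    k148,k0],[k0,k64,k0,k0,k0,k20,k0,k6,k24,k0,k76,k0],[k0,k0,k0,k0,k0,k20,k0,k6,k0,k0,k48,k0],[k88,k0,k20,k20,k0,k0,
    k26,k0,k0,k0,k0,k88],[k48,k0,k0,k0,k28,k0,k0,k0,k16,k0,k0,k0],[k0,k0,k6,k6,k0,k0,k0,k0,k42,k18,k0,k0],[k98,k6,k0,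
    k0,k0,k26,k0,k0,k0,k0,k54,k98],[k68,k48,k0,k0,k0,k0,k0,k18,k0,k0,k60,k56],[k0,k0,k0,k24,k16,k0,k0,k42,k24,k0,k0,
    k0],[k0,k0,k0,k0,k0,k88,k98,k0,k0,k56,k0,k0],[k148,k0,k48,k76,k0,k0,k54,k0,k0,k60,k0,k0]] (nat_lit 3840) k5
    [[(k3,(nat_lit 1082)),(k2,(nat_lit 1154)),(k0,(nat_lit 1180)),(k1,(nat_lit 1180)),(k8,(nat_lit 1187)),(k9,
    (nat_lit 1193)),(k5,(nat_lit 1212)),(k10,(nat_lit 1224)),(k4,(nat_lit 1260)),(k11,(nat_lit 1280)),(k7,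
    (nat_lit 1325)),(k6,(nat_lit 1335))],[(k2,(nat_lit 1166)),(k0,(nat_lit 1180)),(k1,(nat_lit 1180)),(k8,
    (nat_lit 1199)),(k3,(nat_lit 1230)),(k9,(nat_lit 1241)),(k5,(nat_lit 1260)),(k11,(nat_lit 1292)),(k4,
    (nat_lit 1308)),(k7,(nat_lit 1325)),(k6,(nat_lit 1335)),(k10,(nat_lit 1372))],[(k1,(nat_lit 1082)),(k9,
    (nat_lit 1199)),(k4,(nat_lit 1222)),(k8,(nat_lit 1229)),(k0,(nat_lit 1230)),(k7,(nat_lit 1239)),(k10,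
    (nat_lit 1274)),(k2,(nat_lit 1280)),(k3,(nat_lit 1280)),(k6,(nat_lit 1293)),(k11,(nat_lit 1322)),(k5,
    (nat_lit 1374))],[(k1,(nat_lit 1154)),(k0,(nat_lit 1166)),(k11,(nat_lit 1250)),(k2,(nat_lit 1280)),(k3,
    (nat_lit 1280)),(k6,(nat_lit 1281)),(k4,(nat_lit 1290)),(k8,(nat_lit 1297)),(k9,(nat_lit 1303)),(k7,
    (nat_lit 1307)),(k5,(nat_lit 1310)),(k10,(nat_lit 1322))],[(k1,(nat_lit 1212)),(k0,(nat_lit 1260)),(k11,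
    (nat_lit 1304)),(k2,(nat_lit 1310)),(k6,(nat_lit 1311)),(k4,(nat_lit 1320)),(k9,(nat_lit 1333)),(k7,
    (nat_lit 1337)),(k5,(nat_lit 1340)),(k8,(nat_lit 1351)),(k3,(nat_lit 1374)),(k10,(nat_lit 1380))],[(k10,
    (nat_lit 1216)),(k3,(nat_lit 1222)),(k1,(nat_lit 1260)),(k2,(nat_lit 1290)),(k9,(nat_lit 1301)),(k11,
    (nat_lit 1304)),(k0,(nat_lit 1308)),(k6,(nat_lit 1317)),(k7,(nat_lit 1317)),(k5,(nat_lit 1320)),(k8,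
    (nat_lit 1343)),(k4,(nat_lit 1368))],[(k3,(nat_lit 1239)),(k11,(nat_lit 1265)),(k7,(nat_lit 1266)),(k10,
    (nat_lit 1281)),(k8,(nat_lit 1304)),(k9,(nat_lit 1304)),(k2,(nat_lit 1307)),(k4,(nat_lit 1317)),(k6,
    (nat_lit 1320)),(k0,(nat_lit 1325)),(k1,(nat_lit 1325)),(k5,(nat_lit 1337))],[(k11,(nat_lit 1239)),(k2,
    (nat_lit 1281)),(k8,(nat_lit 1286)),(k3,(nat_lit 1293)),(k6,(nat_lit 1294)),(k9,(nat_lit 1304)),(k5,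
    (nat_lit 1311)),(k4,(nat_lit 1317)),(k7,(nat_lit 1320)),(k0,(nat_lit 1335)),(k1,(nat_lit 1335)),(k10,
    (nat_lit 1335))],[(k1,(nat_lit 1193)),(k10,(nat_lit 1193)),(k3,(nat_lit 1199)),(k0,(nat_lit 1241)),(k4,
    (nat_lit 1301)),(k2,(nat_lit 1303)),(k6,(nat_lit 1304)),(k7,(nat_lit 1304)),(k11,(nat_lit 1309)),(k9,
    (nat_lit 1314)),(k5,(nat_lit 1333)),(k8,(nat_lit 1356))],[(k1,(nat_lit 1187)),(k0,(nat_lit 1199)),(k3,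
    (nat_lit 1229)),(k10,(nat_lit 1235)),(k6,(nat_lit 1286)),(k11,(nat_lit 1291)),(k2,(nat_lit 1297)),(k7,
    (nat_lit 1304)),(k8,(nat_lit 1338)),(k4,(nat_lit 1343)),(k5,(nat_lit 1351)),(k9,(nat_lit 1356))],[(k6,
    (nat_lit 1239)),(k11,(nat_lit 1244)),(k2,(nat_lit 1250)),(k7,(nat_lit 1265)),(k1,(nat_lit 1280)),(k8,
    (nat_lit 1291)),(k0,(nat_lit 1292)),(k4,(nat_lit 1304)),(k5,(nat_lit 1304)),(k9,(nat_lit 1309)),(k3,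
    (nat_lit 1322)),(k10,(nat_lit 1328))],[(k9,(nat_lit 1193)),(k4,(nat_lit 1216)),(k1,(nat_lit 1224)),(k8,
    (nat_lit 1235)),(k10,(nat_lit 1268)),(k3,(nat_lit 1274)),(k7,(nat_lit 1281)),(k2,(nat_lit 1322)),(k11,
    (nat_lit 1328)),(k6,(nat_lit 1335)),(k0,(nat_lit 1372)),(k5,(nat_lit 1380))]]
    [[k3,k0,k0,k0,k0,k0],[k2,k1,k0,k0,k0,k0],[k2,k0,k1,k0,k0,k0],[k2,k0,k0,k0,k1,k0],[k2,k0,k0,k0,k0,k1],[k1,k2,k0,k0,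
    k0,k0],[k1,k1,k1,k0,k0,k0],[k1,k1,k0,k1,k0,k0],[k1,k1,k0,k0,k1,k0],[k1,k1,k0,k0,k0,k1],[k1,k0,k1,k0,k1,k0],[k1,k0,
    k1,k0,k0,k1],[k1,k0,k0,k1,k1,k0],[k1,k0,k0,k0,k2,k0],[k1,k0,k0,k0,k1,k1],[k1,k0,k0,k1,k0,k1],[k0,k2,k1,k0,k0,k0],
    [k0,k2,k0,k1,k0,k0],[k0,k2,k0,k0,k1,k0],[k0,k2,k0,k0,k0,k1],[k0,k1,k0,k1,k0,k1],[k0,k1,k0,k1,k1,k0],[k0,k1,k0,k0,
    k1,k1],[k0,k0,k1,k1,k0,k1],[k0,k0,k0,k1,k1,k1],[k0,k0,k0,k1,k0,k2],[k0,k0,k0,k0,k1,k2]]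
    [.ref k25 k0 [(z1,[z1]),(z3,[y2,z2,z9]),(z3,[y2,z2,z0,z9]),(z1,[z0,z0,z0,z0,z1]),(z1,[z0,y1,y3,y3,y1,z3])],
    .ref k25 k0 [(z4,[z9,y2,y9]),(z2,[y3,z2,z9]),(z2,[y3,z2,z3,z6]),(z1,[z0,z0,z0,z0,z1]),(z1,[z0,y1,y3,y3,y1,z3])],
    .ref k25 k0 [(z4,[z9,y2,z0,y9]),(z2,[y3,z2,z6,z3]),(z2,[y3,z2,z0,z9]),(z1,[z0,z0,z0,z0,z1]),(z1,[z0,y1,y3,y3,y1,
    z3])],.ref k25 k0 [(z2,[z3,z1,z3,z3,z1,y3]),(z3,[y3,z1,z6,y3,y1,z3]),(z3,[y3,z1,y3,z6,y1,z3]),(z1,[z0,z0,z0,z0,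
    z1]),(z1,[z0,y1,y3,y3,y1,z3])],.ref k25 k0 [(z7,[z9,z1]),(z7,[y6,z4,z21]),(z7,[y6,z4,z0,z21]),(z1,[z0,z0,z0,z0,
    z1]),(z1,[z0,y1,y3,y3,y1,z3])],.ref k25 k0 [(z1,[y9,z4,z18]),(z1,[z6,y2,y9]),(z1,[z6,y2,y12,z3]),(z1,[z0,z0,z0,z0,
    z1]),(z1,[z0,y1,y3,y3,y1,z3])],.ref k25 k0 [(z1,[y9,z4,z9,z9]),(z1,[z6,y2,y3,y6]),(z1,[z6,y2,y6,y3]),(z1,[z0,z0,
    z0,z0,z1]),(z1,[z0,y1,y3,y3,y1,z3])],.ref k25 k0 [(z1,[z9,y2,y9,z0,y3]),(z1,[y6,z2,z9,z0,z2]),(z1,[y6,z2,z6,z3,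
    z2]),(z1,[z0,z0,z0,z0,z1]),(z1,[z0,y1,y3,y3,y1,z3])],.ref k25 k0 [(z1,[z9,z1,z0,z9,z3,y9]),(z1,[y6,z0,z3,y6,y2,
    z6]),(z1,[y6,z0,z0,y3,y2,z6]),(z1,[z0,z0,z0,z0,z1]),(z1,[z0,y1,y3,y3,y1,z3])],.ref k25 k0 [(z2,[z9,y1,y9]),(z1,
    [y3,z1,z6]),(z1,[y3,z1,z3,z3]),(z1,[z0,z0,z0,z0,z1]),(z1,[z0,y1,y3,y3,y1,z3])],.ref k25 k0 [(z1,[z9,z1,z9,z0,z3,
    y9]),(z1,[y6,z0,y3,z0,y2,z6]),(z1,[y6,z0,y6,z3,y2,z6]),(z1,[z0,z0,z0,z0,z1]),(z1,[z0,y1,y3,y3,y1,z3])],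
    .ref k25 k0 [(z2,[z9,y1,z0,y9]),(z1,[y3,z1,z3,z3]),(z1,[y3,z1,z0,z6]),(z1,[z0,z0,z0,z0,z1]),(z1,[z0,y1,y3,y3,y1,
    z3])],.ref k25 k0 [(z1,[z3,z1,z3,z3,z0,y3]),(z1,[y2,z0,z1,y2,z0,z2]),(z1,[y2,z0,y2,z1,z0,z2]),(z1,[z0,z0,z0,z0,
    z1]),(z1,[z0,y1,y3,y3,y1,z3])],.ref k25 k0 [(z1,[z3,z2,z6,z6,z2,y6]),(z3,[y6,y2,y3,y12,y4,z12]),(z3,[y6,y2,y12,y3,
    y4,z12]),(z1,[z0,z0,z0,z0,z1]),(z1,[z0,y1,y3,y3,y1,z3])],.ref k25 k0 [(z4,[z9,z4,z9,z9,z3,y9]),(z2,[y3,z0,z3,y3,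
    y1,z3]),(z2,[y3,z0,y3,z3,y1,z3]),(z1,[z0,z0,z0,z0,z1]),(z1,[z0,y1,y3,y3,y1,z3])],.ref k25 k0 [(z4,[z9,z1,z0,z0,
    y3]),(z2,[y3,z1,z6,z0,z1]),(z2,[y3,z1,z0,z6,z1]),(z1,[z0,z0,z0,z0,z1]),(z1,[z0,y1,y3,y3,y1,z3])],.ref k25 k0 [(z2,
    [y3,z2,z6,z3]),(z1,[z1,z0,z1,y1]),(z1,[z1,z0,y2,z2]),(z1,[z0,z0,z0,z0,z1]),(z1,[z0,y1,y3,y3,y1,z3])],
    .ref k25 k0 [(z4,[y9,z4,z18,z0,z3]),(z2,[z3,z0,z0,z0,y1]),(z2,[z3,z0,y6,z6,y1]),(z1,[z0,z0,z0,z0,z1]),(z1,[z0,y1,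
    y3,y3,y1,z3])],.ref k25 k0 [(z4,[y9,z1,z9,y9,y3,z9]),(z2,[z3,z1,z3,z3,z1,y3]),(z2,[z3,z1,y3,z9,z1,y3]),(z1,[z0,z0,
    z0,z0,z1]),(z1,[z0,y1,y3,y3,y1,z3])],.ref k25 k0 [(z1,[y3,z1,z6]),(z1,[z2,z0,y1]),(z1,[z2,z0,y4,z3]),(z1,[z0,z0,
    z0,z0,z1]),(z1,[z0,y1,y3,y3,y1,z3])],.ref k25 k0 [(z1,[y9,z1,z9,z0,z3]),(z1,[z6,z0,y3,z0,y2]),(z1,[z6,z0,y6,z3,
    y2]),(z1,[z0,z0,z0,z0,z1]),(z1,[z0,y1,y3,y3,y1,z3])],.ref k25 k0 [(z2,[y9,y1,z0,y9,z0,z9]),(z1,[z3,z1,z3,z3,z0,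
    y3]),(z1,[z3,z1,z0,z6,z0,y3]),(z1,[z0,z0,z0,z0,z1]),(z1,[z0,y1,y3,y3,y1,z3])],.ref k25 k0 [(z1,[y9,y2,z0,y9,y3,
    z9]),(z1,[z6,z2,z3,z6,z2,y6]),(z1,[z6,z2,z0,z9,z2,y6]),(z1,[z0,z0,z0,z0,z1]),(z1,[z0,y1,y3,y3,y1,z3])],
    .ref k25 k0 [(z1,[y9,z1,z0,z9,z3]),(z1,[z6,z0,z3,y6,y2]),(z1,[z6,z0,z0,y3,y2]),(z1,[z0,z0,z0,z0,z1]),(z1,[z0,y1,
    y3,y3,y1,z3])],.ref k25 k0 [(z1,[z9,z4,z9,z9,z0,y9]),(z1,[y6,y2,y3,y6,z0,z6]),(z1,[y6,y2,y6,y3,z0,z6]),(z1,[z0,z0,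
    z0,z0,z1]),(z1,[z0,y1,y3,y3,y1,z3])],.ref k25 k0 [(z2,[z9,z2,z0,z0,y3]),(z1,[y3,z0,z3,z0,z1]),(z1,[y3,z0,z0,z3,
    z1]),(z1,[z0,z0,z0,z0,z1]),(z1,[z0,y1,y3,y3,y1,z3])],.ref k25 k0 [(z2,[z9,z5,z9,z9,z3,y9]),(z1,[y3,y1,z0,y3,y1,
    z3]),(z1,[y3,y1,y3,z0,y1,z3]),(z1,[z0,z0,z0,z0,z1]),(z1,[z0,y1,y3,y3,y1,z3])]],
    .lp k0 [(nat_lit 1278),(nat_lit 1236),(nat_lit 1384),(nat_lit 1220),(nat_lit 1276),(nat_lit 1282)] [k53,k53,k74,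
    k74,k0,k0,k82,k82,k54,k54,k51,k51] k0 [[k0,k0,k0,k88,k0,k0,k0,k0,k24,k88,k150,k0],[k0,k0,k0,k44,k0,k0,k64,k0,k0,
    k0,k58,k0],[k44,k88,k0,k0,k0,k0,k0,k0,k0,k0,k102,k50],[k0,k0,k0,k0,k56,k56,k56,k56,k0,k0,k0,k0],[k0,k0,k56,k0,k0,
    k148,k60,k0,k0,k0,k0,k150],[k0,k0,k56,k0,k0,k0,k0,k0,k8,k0,k0,k46],[k0,k0,k56,k0,k0,k0,k0,k28,(nat_lit 220),k160,
    k0,k0],[k64,k0,k56,k0,k0,k60,k0,k0,k0,k0,k0,(nat_lit 214)],[k0,k88,k0,k0,k0,k0,k0,k160,k0,k0,k42,k22],[k0,k24,k0,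
    k0,k8,k0,k0,(nat_lit 220),k60,k0,k0,k0],[k0,k0,k0,k50,k46,k150,(nat_lit 214),k0,k0,k22,k0,k0],[k58,k150,k0,k102,
    k0,k0,k0,k0,k0,k42,k0,k0]] (nat_lit 3840) k5
    [[(k0,(nat_lit 1128)),(k2,(nat_lit 1155)),(k3,(nat_lit 1199)),(k8,(nat_lit 1235)),(k9,(nat_lit 1277)),(k1,
    (nat_lit 1278)),(k10,(nat_lit 1280)),(k11,(nat_lit 1302)),(k4,(nat_lit 1377)),(k5,(nat_lit 1381)),(k7,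
    (nat_lit 1399)),(k6,(nat_lit 1463))],[(k1,(nat_lit 1128)),(k2,(nat_lit 1169)),(k8,(nat_lit 1189)),(k7,
    (nat_lit 1249)),(k11,(nat_lit 1256)),(k3,(nat_lit 1257)),(k9,(nat_lit 1277)),(k0,(nat_lit 1278)),(k6,
    (nat_lit 1313)),(k4,(nat_lit 1331)),(k10,(nat_lit 1338)),(k5,(nat_lit 1375))],[(k2,(nat_lit 1192)),(k9,
    (nat_lit 1192)),(k1,(nat_lit 1199)),(k6,(nat_lit 1228)),(k7,(nat_lit 1228)),(k3,(nat_lit 1236)),(k0,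
    (nat_lit 1257)),(k8,(nat_lit 1280)),(k4,(nat_lit 1310)),(k11,(nat_lit 1347)),(k5,(nat_lit 1398)),(k10,
    (nat_lit 1409))],[(k1,(nat_lit 1155)),(k0,(nat_lit 1169)),(k3,(nat_lit 1192)),(k10,(nat_lit 1209)),(k2,
    (nat_lit 1236)),(k8,(nat_lit 1256)),(k11,(nat_lit 1259)),(k6,(nat_lit 1284)),(k7,(nat_lit 1284)),(k5,
    (nat_lit 1310)),(k9,(nat_lit 1312)),(k4,(nat_lit 1366))],[(k6,(nat_lit 1246)),(k7,(nat_lit 1246)),(k9,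
    (nat_lit 1274)),(k2,(nat_lit 1310)),(k4,(nat_lit 1328)),(k8,(nat_lit 1330)),(k11,(nat_lit 1333)),(k0,
    (nat_lit 1375)),(k1,(nat_lit 1381)),(k5,(nat_lit 1384)),(k3,(nat_lit 1398)),(k10,(nat_lit 1435))],[(k10,
    (nat_lit 1183)),(k4,(nat_lit 1236)),(k9,(nat_lit 1270)),(k6,(nat_lit 1302)),(k7,(nat_lit 1302)),(k3,
    (nat_lit 1310)),(k5,(nat_lit 1328)),(k0,(nat_lit 1331)),(k11,(nat_lit 1333)),(k8,(nat_lit 1338)),(k2,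
    (nat_lit 1366)),(k1,(nat_lit 1377))],[(k10,(nat_lit 1205)),(k3,(nat_lit 1228)),(k11,(nat_lit 1243)),(k5,
    (nat_lit 1246)),(k8,(nat_lit 1248)),(k9,(nat_lit 1248)),(k0,(nat_lit 1249)),(k6,(nat_lit 1280)),(k2,
    (nat_lit 1284)),(k4,(nat_lit 1302)),(k7,(nat_lit 1368)),(k1,(nat_lit 1399))],[(k11,(nat_lit 1031)),(k8,
    (nat_lit 1088)),(k6,(nat_lit 1192)),(k3,(nat_lit 1228)),(k5,(nat_lit 1246)),(k9,(nat_lit 1248)),(k10,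
    (nat_lit 1251)),(k7,(nat_lit 1280)),(k2,(nat_lit 1284)),(k4,(nat_lit 1302)),(k0,(nat_lit 1313)),(k1,
    (nat_lit 1463))],[(k10,(nat_lit 1065)),(k3,(nat_lit 1192)),(k6,(nat_lit 1248)),(k7,(nat_lit 1248)),(k4,
    (nat_lit 1270)),(k5,(nat_lit 1274)),(k0,(nat_lit 1277)),(k1,(nat_lit 1277)),(k9,(nat_lit 1304)),(k2,
    (nat_lit 1312)),(k11,(nat_lit 1439)),(k8,(nat_lit 1496))],[(k6,(nat_lit 1088)),(k0,(nat_lit 1189)),(k1,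
    (nat_lit 1235)),(k7,(nat_lit 1248)),(k2,(nat_lit 1256)),(k10,(nat_lit 1257)),(k11,(nat_lit 1279)),(k3,
    (nat_lit 1280)),(k5,(nat_lit 1330)),(k8,(nat_lit 1336)),(k4,(nat_lit 1338)),(k9,(nat_lit 1496))],[(k6,
    (nat_lit 1031)),(k11,(nat_lit 1222)),(k7,(nat_lit 1243)),(k0,(nat_lit 1256)),(k2,(nat_lit 1259)),(k8,
    (nat_lit 1279)),(k1,(nat_lit 1302)),(k10,(nat_lit 1324)),(k4,(nat_lit 1333)),(k5,(nat_lit 1333)),(k3,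
    (nat_lit 1347)),(k9,(nat_lit 1439))],[(k9,(nat_lit 1065)),(k4,(nat_lit 1183)),(k7,(nat_lit 1205)),(k2,
    (nat_lit 1209)),(k6,(nat_lit 1251)),(k8,(nat_lit 1257)),(k1,(nat_lit 1280)),(k10,(nat_lit 1282)),(k11,
    (nat_lit 1324)),(k0,(nat_lit 1338)),(k3,(nat_lit 1409)),(k5,(nat_lit 1435))]]
    [[k3,k0,k0,k0,k0,k0],[k2,k1,k0,k0,k0,k0],[k2,k0,k0,k0,k1,k0],[k2,k0,k0,k0,k0,k1],[k1,k2,k0,k0,k0,k0],[k1,k1,k0,k1,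
    k0,k0],[k1,k1,k0,k0,k1,k0],[k1,k1,k0,k0,k0,k1],[k1,k0,k1,k0,k0,k1],[k1,k0,k0,k1,k1,k0],[k1,k0,k0,k1,k0,k1],[k1,k0,
    k0,k0,k2,k0],[k1,k0,k0,k0,k1,k1],[k0,k3,k0,k0,k0,k0],[k0,k2,k1,k0,k0,k0],[k0,k2,k0,k1,k0,k0],[k0,k2,k0,k0,k1,k0],
    [k0,k2,k0,k0,k0,k1],[k0,k1,k0,k2,k0,k0],[k0,k1,k0,k1,k1,k0],[k0,k1,k0,k1,k0,k1],[k0,k1,k0,k0,k1,k1],[k0,k0,k2,k1,
    k0,k0],[k0,k0,k1,k2,k0,k0],[k0,k0,k1,k1,k1,k0],[k0,k0,k1,k1,k0,k1],[k0,k0,k1,k0,k1,k1],[k0,k0,k0,k2,k1,k0],[k0,k0,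
    k0,k2,k0,k1],[k0,k0,k0,k1,k2,k0],[k0,k0,k0,k1,k1,k1],[k0,k0,k0,k1,k0,k2],[k0,k0,k0,k0,k1,k2],[k0,k0,k0,k0,k0,k3]]
    [.ref k25 k0 [(z1,[z1]),(z3,[y1,z1,z9]),(z3,[y1,z1,z0,z9]),(z2,[y1,z1,z0,z0,z2]),(z1,[z0,y1,y3,y3,y1,z3])],
    .ref k25 k0 [(z5,[z9,y1,y9]),(z5,[y3,z2,z18]),(z5,[y3,z2,z3,z15]),(z10,[y9,z6,z9,z0,z10]),(z1,[z0,y1,y3,y3,y1,
    z3])],.ref k25 k0 [(z2,[z3,z1,z3,z3,z1,y3]),(z6,[y3,z1,z15,y3,y1,z3]),(z6,[y3,z1,y3,z15,y1,z3]),(z4,[y3,z1,y3,y3,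
    z3,z3]),(z1,[z0,y1,y3,y3,y1,z3])],.ref k25 k0 [(z13,[z18,z1]),(z13,[y6,z4,z39]),(z13,[y6,z4,z0,z39]),(z13,[y9,z6,
    z0,z0,z13]),(z1,[z0,y1,y3,y3,y1,z3])],.ref k25 k0 [(z1,[z9,y2,y18]),(z1,[y3,z1,z9]),(z1,[y3,z1,z6,z3]),(z2,[y9,z3,
    z18,z0,z2]),(z1,[z0,y1,y3,y3,y1,z3])],.ref k25 k0 [(z1,[z18,y5,y18,z0,y6]),(z1,[y6,z2,z9,z0,z2]),(z1,[y6,z2,z6,z3,
    z2]),(z1,[y9,z3,z9,z0,z4]),(z1,[z0,y1,y3,y3,y1,z3])],.ref k25 k0 [(z2,[z9,z2,z0,z9,z3,y9]),(z2,[y3,z0,z6,y3,y1,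
    z3]),(z2,[y3,z0,z0,z3,y1,z3]),(z4,[y9,z0,z0,y9,z1,z9]),(z1,[z0,y1,y3,y3,y1,z3])],.ref k25 k0 [(z5,[z18,y1,y18]),
    (z5,[y6,z2,z21]),(z5,[y6,z2,z6,z15]),(z5,[y9,z3,z9,z0,z5]),(z1,[z0,y1,y3,y3,y1,z3])],.ref k25 k0 [(z5,[z18,y1,z0,
    y18]),(z5,[y6,z2,z15,z6]),(z5,[y6,z2,z0,z21]),(z5,[y9,z3,z0,z9,z5]),(z1,[z0,y1,y3,y3,y1,z3])],.ref k25 k0 [(z1,
    [z6,z1,z6,z6,z0,y6]),(z1,[y2,z0,z1,y2,z0,z2]),(z1,[y2,z0,y2,z1,z0,z2]),(z1,[y3,z0,y3,y3,z1,z3]),(z1,[z0,y1,y3,y3,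
    y1,z3])],.ref k25 k0 [(z2,[z9,y1,z0,z0,y3]),(z2,[y3,z1,z6,z0,z1]),(z2,[y3,z1,z0,z6,z1]),(z4,[y9,z3,z0,z0,z7]),(z1,
    [z0,y1,y3,y3,y1,z3])],.ref k25 k0 [(z1,[z3,z2,z6,z6,z2,y6]),(z3,[y3,y1,z3,y6,y2,z6]),(z3,[y3,y1,y6,z3,y2,z6]),(z2,
    [y3,y1,y6,y6,z0,z6]),(z1,[z0,y1,y3,y3,y1,z3])],.ref k25 k0 [(z7,[z18,z7,z18,z18,z6,y18]),(z7,[y6,z0,z15,y6,y2,
    z6]),(z7,[y6,z0,y6,z15,y2,z6]),(z7,[y9,z0,y9,y9,z4,z9]),(z1,[z0,y1,y3,y3,y1,z3])],.ref k25 k0 [(z1,[y3,z1,z9]),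
    (z1,[z1]),(z1,[z1,z0,y3,z3]),(z2,[z3,z0,y9,z0,z2]),(z1,[z0,y1,y3,y3,y1,z3])],.ref k25 k0 [(z1,[y3,z1,z6,z3]),(z1,
    [z1,z0,z1,y1]),(z1,[z1,z0,y2,z2]),(z2,[z3,z0,y6,y3,z2]),(z1,[z0,y1,y3,y3,y1,z3])],.ref k25 k0 [(z7,[y18,z7,z36,z0,
    z6]),(z7,[z6,z0,z9,z0,y2]),(z7,[z6,z0,y12,z21,y2]),(z7,[z9,z0,y18,z0,z4]),(z1,[z0,y1,y3,y3,y1,z3])],
    .ref k25 k0 [(z2,[y9,y1,z9,y9,y3,z9]),(z2,[z3,z1,z3,z3,z1,y3]),(z2,[z3,z1,y3,z9,z1,y3]),(z4,[z9,z3,y9,z9,z7,y9]),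
    (z1,[z0,y1,y3,y3,y1,z3])],.ref k25 k0 [(z1,[y6,z1,z12]),(z1,[z2,z0,y1]),(z1,[z2,z0,y4,z3]),(z1,[z3,z0,y6,z0,z1]),
    (z1,[z0,y1,y3,y3,y1,z3])],.ref k25 k0 [(z4,[y9,z4,z9,z0,z6]),(z4,[z3,z0,z9,z0,y2]),(z4,[z3,z0,y3,z12,y2]),(z8,[z9,
    z0,y9,z0,z2]),(z1,[z0,y1,y3,y3,y1,z3])],.ref k25 k0 [(z5,[y18,y1,z0,y18,z0,z18]),(z5,[z6,z2,z15,z6,z0,y6]),(z5,
    [z6,z2,z0,z21,z0,y6]),(z5,[z9,z3,z0,z9,z5,y9]),(z1,[z0,y1,y3,y3,y1,z3])],.ref k25 k0 [(z2,[y9,z2,z9,z0,z3]),(z2,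
    [z3,z0,z3,z0,y1]),(z2,[z3,z0,y3,z6,y1]),(z4,[z9,z0,y9,z0,z1]),(z1,[z0,y1,y3,y3,y1,z3])],.ref k25 k0 [(z1,[y18,y5,
    z0,y18,y6,z18]),(z1,[z6,z2,z3,z6,z2,y6]),(z1,[z6,z2,z0,z9,z2,y6]),(z1,[z9,z3,z0,z9,z4,y9]),(z1,[z0,y1,y3,y3,y1,
    z3])],.ref k25 k0 [(z7,[y18,z7,z0,z36,z6]),(z7,[z6,z0,z21,y12,y2]),(z7,[z6,z0,z0,z9,y2]),(z7,[z9,z0,z0,y18,z4]),
    (z1,[z0,y1,y3,y3,y1,z3])],.ref k25 k0 [(z4,[y9,z4,z0,z9,z6]),(z4,[z3,z0,z12,y3,y2]),(z4,[z3,z0,z0,z9,y2]),(z8,[z9,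
    z0,z0,y9,z2]),(z1,[z0,y1,y3,y3,y1,z3])],.ref k25 k0 [(z5,[y18,y1,y18,z0,z0,z18]),(z5,[z6,z2,z21,z0,z0,y6]),(z5,
    [z6,z2,z6,z15,z0,y6]),(z5,[z9,z3,z9,z0,z5,y9]),(z1,[z0,y1,y3,y3,y1,z3])],.ref k25 k0 [(z2,[y9,z2,z0,z9,z3]),(z2,
    [z3,z0,z6,y3,y1]),(z2,[z3,z0,z0,z3,y1]),(z4,[z9,z0,z0,y9,z1]),(z1,[z0,y1,y3,y3,y1,z3])],.ref k25 k0 [(z1,[y18,y5,
    y18,z0,y6,z18]),(z1,[z6,z2,z9,z0,z2,y6]),(z1,[z6,z2,z6,z3,z2,y6]),(z1,[z9,z3,z9,z0,z4,y9]),(z1,[z0,y1,y3,y3,y1,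
    z3])],.ref k25 k0 [(z1,[y3,z0,y3,y3,z1,z3]),(z3,[z3,z1,z12,z3,y1,y3]),(z3,[z3,z1,z3,z12,y1,y3]),(z2,[z3,z1,z3,z3,
    z1,y3]),(z1,[z0,y1,y3,y3,y1,z3])],.ref k25 k0 [(z5,[y18,z5,z0,z0,z12]),(z5,[z6,z0,z15,z0,y4]),(z5,[z6,z0,z0,z15,
    y4]),(z5,[z9,z0,z0,z0,y1]),(z1,[z0,y1,y3,y3,y1,z3])],.ref k25 k0 [(z1,[y6,y3,y12,y12,y2,z12]),(z3,[z6,z4,z21,z12,
    z2,y12]),(z3,[z6,z4,z12,z21,z2,y12]),(z1,[z3,z2,z6,z6,z2,y6]),(z1,[z0,y1,y3,y3,y1,z3])],.ref k25 k0 [(z1,[y9,y2,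
    y9,y9,z0,z9]),(z1,[z3,z1,z6,z3,z0,y3]),(z1,[z3,z1,z3,z6,z0,y3]),(z2,[z9,z3,z9,z9,z2,y9]),(z1,[z0,y1,y3,y3,y1,
    z3])],.ref k25 k0 [(z1,[y18,z1,z0,z0,z6]),(z1,[z6,z0,z3,z0,y2]),(z1,[z6,z0,z0,z3,y2]),(z1,[z9,z0,z0,z0,y2]),(z1,
    [z0,y1,y3,y3,y1,z3])],.ref k25 k0 [(z1,[z9,z4,z9,z9,z3,y9]),(z1,[y3,y1,z0,y3,y1,z3]),(z1,[y3,y1,y3,z0,y1,z3]),(z2,
    [y9,y3,y9,y9,y1,z9]),(z1,[z0,y1,y3,y3,y1,z3])],.ref k25 k0 [(z1,[z6,z1]),(z1,[y2,z0,z3]),(z1,[y2,z0,z0,z3]),(z1,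
    [y3,z0,z0,z0,z1]),(z1,[z0,y1,y3,y3,y1,z3])]],
    .lp k0 [(nat_lit 470),(nat_lit 428),(nat_lit 506),(nat_lit 518),(nat_lit 506),(nat_lit 440)] [k24,k24,k45,k45,k6,
    k6,k0,k0,k6,k6,k39,k39] k0 [[k0,k0,k0,k0,k12,k12,k24,k0,k0,k0,k0,k12],[k6,k0,k0,k6,k0,k0,k0,k0,k18,k0,k0,k24],[k6,
    k0,k0,k6,k0,k0,k0,k0,k18,k0,k0,k24],[k0,k0,k0,k0,k12,k12,k24,k0,k0,k0,k0,k12],[k0,k12,k12,k0,k0,k0,k0,k0,k0,k42,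
    k36,k0],[k0,k12,k12,k0,k0,k0,k0,k0,k0,k12,k0,k0],[k0,k0,k0,k0,k0,k0,k0,k0,k0,k0,k0,k0],[k0,k24,k24,k0,k0,k0,k0,k0,
    k0,k0,k6,k12],[k0,k0,k0,k0,k12,k42,k0,k0,k0,k0,k6,k0],[k18,k0,k0,k18,k0,k0,k0,k0,k0,k0,k0,k0],[k24,k12,k12,k24,k0,
    k0,k12,k0,k0,k0,k0,k0],[k0,k0,k0,k0,k0,k36,k6,k0,k0,k6,k0,k0]] (nat_lit 1440) k5
    [[(k4,(nat_lit 452)),(k10,(nat_lit 455)),(k11,(nat_lit 455)),(k2,(nat_lit 461)),(k3,(nat_lit 461)),(k1,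
    (nat_lit 470)),(k8,(nat_lit 482)),(k9,(nat_lit 482)),(k0,(nat_lit 494)),(k7,(nat_lit 494)),(k6,(nat_lit 506)),(k5,
    (nat_lit 512))],[(k10,(nat_lit 443)),(k2,(nat_lit 449)),(k3,(nat_lit 449)),(k11,(nat_lit 455)),(k9,(nat_lit 464)),
    (k0,(nat_lit 476)),(k4,(nat_lit 476)),(k7,(nat_lit 482)),(k1,(nat_lit 494)),(k5,(nat_lit 494)),(k6,(nat_lit 494)),
    (k8,(nat_lit 506))],[(k10,(nat_lit 410)),(k11,(nat_lit 416)),(k2,(nat_lit 422)),(k3,(nat_lit 422)),(k0,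
    (nat_lit 449)),(k1,(nat_lit 461)),(k5,(nat_lit 467)),(k8,(nat_lit 467)),(k9,(nat_lit 467)),(k4,(nat_lit 479)),(k7,
    (nat_lit 485)),(k6,(nat_lit 497))],[(k10,(nat_lit 410)),(k11,(nat_lit 416)),(k2,(nat_lit 422)),(k3,(nat_lit 422)),
    (k0,(nat_lit 449)),(k1,(nat_lit 461)),(k5,(nat_lit 467)),(k8,(nat_lit 467)),(k9,(nat_lit 467)),(k4,(nat_lit 479)),
    (k7,(nat_lit 485)),(k6,(nat_lit 497))],[(k10,(nat_lit 461)),(k2,(nat_lit 467)),(k3,(nat_lit 467)),(k11,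
    (nat_lit 473)),(k9,(nat_lit 482)),(k0,(nat_lit 494)),(k4,(nat_lit 494)),(k7,(nat_lit 500)),(k1,(nat_lit 512)),(k5,
    (nat_lit 512)),(k6,(nat_lit 512)),(k8,(nat_lit 524))],[(k1,(nat_lit 452)),(k8,(nat_lit 464)),(k10,(nat_lit 473)),
    (k0,(nat_lit 476)),(k2,(nat_lit 479)),(k3,(nat_lit 479)),(k11,(nat_lit 485)),(k5,(nat_lit 494)),(k4,
    (nat_lit 506)),(k9,(nat_lit 506)),(k6,(nat_lit 512)),(k7,(nat_lit 512))],[(k0,(nat_lit 482)),(k2,(nat_lit 485)),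
    (k3,(nat_lit 485)),(k1,(nat_lit 494)),(k5,(nat_lit 500)),(k8,(nat_lit 500)),(k4,(nat_lit 512)),(k9,(nat_lit 512)),
    (k10,(nat_lit 515)),(k6,(nat_lit 518)),(k7,(nat_lit 518)),(k11,(nat_lit 521))],[(k11,(nat_lit 479)),(k10,
    (nat_lit 485)),(k0,(nat_lit 494)),(k2,(nat_lit 497)),(k3,(nat_lit 497)),(k1,(nat_lit 506)),(k4,(nat_lit 512)),(k5,
    (nat_lit 512)),(k8,(nat_lit 512)),(k9,(nat_lit 512)),(k6,(nat_lit 518)),(k7,(nat_lit 518))],[(k10,(nat_lit 461)),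
    (k0,(nat_lit 464)),(k2,(nat_lit 467)),(k3,(nat_lit 467)),(k11,(nat_lit 473)),(k1,(nat_lit 482)),(k5,
    (nat_lit 482)),(k4,(nat_lit 506)),(k8,(nat_lit 506)),(k9,(nat_lit 506)),(k6,(nat_lit 512)),(k7,(nat_lit 512))],
    [(k4,(nat_lit 464)),(k2,(nat_lit 467)),(k3,(nat_lit 467)),(k10,(nat_lit 473)),(k11,(nat_lit 473)),(k1,
    (nat_lit 482)),(k7,(nat_lit 500)),(k0,(nat_lit 506)),(k8,(nat_lit 506)),(k9,(nat_lit 506)),(k6,(nat_lit 512)),(k5,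
    (nat_lit 524))],[(k2,(nat_lit 416)),(k3,(nat_lit 416)),(k11,(nat_lit 440)),(k10,(nat_lit 446)),(k0,(nat_lit 455)),
    (k1,(nat_lit 455)),(k5,(nat_lit 473)),(k8,(nat_lit 473)),(k9,(nat_lit 473)),(k6,(nat_lit 479)),(k4,(nat_lit 485)),
    (k7,(nat_lit 521))],[(k2,(nat_lit 410)),(k3,(nat_lit 410)),(k10,(nat_lit 440)),(k0,(nat_lit 443)),(k11,
    (nat_lit 446)),(k1,(nat_lit 455)),(k5,(nat_lit 461)),(k9,(nat_lit 461)),(k4,(nat_lit 473)),(k8,(nat_lit 473)),(k6,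
    (nat_lit 485)),(k7,(nat_lit 515))]]
    [[k2,k1,k0,k0,k0,k0],[k2,k0,k0,k0,k0,k1],[k1,k2,k0,k0,k0,k0],[k1,k1,k1,k0,k0,k0],[k1,k1,k0,k0,k1,k0],[k1,k1,k0,k0,
    k0,k1],[k1,k0,k1,k0,k0,k1],[k1,k0,k0,k1,k0,k1],[k1,k0,k0,k0,k1,k1],[k1,k0,k0,k0,k0,k2],[k0,k3,k0,k0,k0,k0],[k0,k2,
    k1,k0,k0,k0],[k0,k2,k0,k1,k0,k0],[k0,k2,k0,k0,k1,k0],[k0,k2,k0,k0,k0,k1],[k0,k1,k1,k0,k1,k0],[k0,k1,k1,k0,k0,k1],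
    [k0,k1,k0,k1,k0,k1],[k0,k1,k0,k0,k1,k1],[k0,k1,k0,k0,k0,k2],[k0,k0,k1,k0,k1,k1],[k0,k0,k1,k0,k0,k2],[k0,k0,k0,k0,
    k1,k2],[k0,k0,k0,k0,k0,k3]]
    [.ref k25 k0 [(z1,[z1,z1,y1]),(z1,[z1,y2,z2]),(z4,[y7,z14,z7,z4]),(z2,[y1,z2,z1,z0,z6]),(z1,[z0,y3,y3,y1,y3,z3])],
    .ref k25 k0 [(z3,[z4,z1]),(z3,[z4,y8,z9]),(z3,[y7,z14,z0,z3]),(z3,[y2,z4,z0,z0,z9]),(z1,[z0,y3,y3,y1,y3,z3])],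
    .ref k25 k0 [(z1,[z1,z2,y2]),(z1,[z1,y1,z1]),(z4,[y7,z7,z14,z4]),(z2,[y1,z1,z2,z0,z6]),(z1,[z0,y3,y3,y1,y3,z3])],
    .ref k25 k0 [(z1,[z12,y9,y12,y4]),(z1,[z12,y12,y9,y4]),(z1,[y21,z21,z21,z8]),(z1,[y6,z6,z6,z2,z3]),(z1,[z0,y3,y3,
    y1,y3,z3])],.ref k25 k0 [(z2,[z3,z6,z0,z1,z3,y3]),(z2,[z3,z0,z6,z1,z3,y3]),(z8,[y21,z0,z0,z1,y21,z21]),(z4,[y3,z0,
    z0,y1,z9,z3]),(z1,[z0,y3,y3,y1,y3,z3])],.ref k25 k0 [(z3,[z4,z5,y4]),(z3,[z4,y4,z5]),(z3,[y7,z7,z7,z3]),(z3,[y2,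
    z2,z2,z0,z9]),(z1,[z0,y3,y3,y1,y3,z3])],.ref k25 k0 [(z1,[y6,z9,z0,z2]),(z1,[y6,z6,z3,z2]),(z2,[z21,y21,z0,y5]),
    (z1,[z3,y3,z0,y1,z3]),(z1,[z0,y3,y3,y1,y3,z3])],.ref k25 k0 [(z1,[z4,y1,z0,z0,y4]),(z1,[z4,y4,z3,z0,y4]),(z1,[y7,
    z7,z0,z1,z7]),(z1,[y2,z2,z0,z0,z5]),(z1,[z0,y3,y3,y1,y3,z3])],.ref k25 k0 [(z5,[z12,z15,z12,z4,z12,y12]),(z5,[z12,
    z0,z27,z4,z12,y12]),(z5,[y21,z0,y21,y2,y21,z21]),(z5,[y6,z0,y6,y2,z9,z6]),(z1,[z0,y3,y3,y1,y3,z3])],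
    .ref k25 k0 [(z1,[z2,z1]),(z1,[z2,y2,z3]),(z2,[y7,z7,z0,z2]),(z1,[y1,z1,z0,z0,z3]),(z1,[z0,y3,y3,y1,y3,z3])],
    .ref k25 k0 [(z1,[z1,z3,y3]),(z1,[z1]),(z4,[y7,z0,z21,z4]),(z2,[y1,z0,z3,z0,z6]),(z1,[z0,y3,y3,y1,y3,z3])],
    .ref k25 k0 [(z1,[z12,z3,y24,y4]),(z1,[z12,z0,y21,y4]),(z1,[y21,z0,z42,z8]),(z1,[y6,z0,z12,z2,z3]),(z1,[z0,y3,y3,
    y1,y3,z3])],.ref k25 k0 [(z1,[z2,z3,y4,z0,y2]),(z1,[z2,z0,y1,z0,y2]),(z2,[y7,z0,z14,z2,z7]),(z1,[y1,z0,z2,z0,z4]),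
    (z1,[z0,y3,y3,y1,y3,z3])],.ref k25 k0 [(z2,[z3,z9,y3,z1,z3,y3]),(z2,[z3,z3,z3,z1,z3,y3]),(z8,[y21,y21,z21,z1,y21,
    z21]),(z4,[y3,y3,z3,y1,z9,z3]),(z1,[z0,y3,y3,y1,y3,z3])],.ref k25 k0 [(z3,[z4,z9,y8]),(z3,[z4,z0,z1]),(z3,[y7,z0,
    z14,z3]),(z3,[y2,z0,z4,z0,z9]),(z1,[z0,y3,y3,y1,y3,z3])],.ref k25 k0 [(z1,[y4,y1,z0,z0,y4,z4]),(z1,[y4,y4,z3,z0,
    y4,z4]),(z1,[z7,z7,z0,z1,z7,y7]),(z1,[z2,z2,z0,z0,z5,y2]),(z1,[z0,y3,y3,y1,y3,z3])],.ref k25 k0 [(z1,[y6,z3,z6,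
    z2]),(z1,[y6,z0,z9,z2]),(z2,[z21,z0,y21,y5]),(z1,[z3,z0,y3,y1,z3]),(z1,[z0,y3,y3,y1,y3,z3])],.ref k25 k0 [(z1,[z4,
    z3,y4,z0,y4]),(z1,[z4,z0,y1,z0,y4]),(z1,[y7,z0,z7,z1,z7]),(z1,[y2,z0,z2,z0,z5]),(z1,[z0,y3,y3,y1,y3,z3])],
    .ref k25 k0 [(z5,[z12,z27,z0,z4,z12,y12]),(z5,[z12,z12,z15,z4,z12,y12]),(z5,[y21,y21,z0,y2,y21,z21]),(z5,[y6,y6,
    z0,y2,z9,z6]),(z1,[z0,y3,y3,y1,y3,z3])],.ref k25 k0 [(z1,[z2,z3,y2]),(z1,[z2,z0,z1]),(z2,[y7,z0,z7,z2]),(z1,[y1,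
    z0,z1,z0,z3]),(z1,[z0,y3,y3,y1,y3,z3])],.ref k25 k0 [(z1,[y2,z1,y2,z0,y2,z2]),(z1,[y2,y2,z1,z0,y2,z2]),(z2,[z7,z7,
    z7,z2,z7,y7]),(z1,[z1,z1,z1,z0,z4,y1]),(z1,[z0,y3,y3,y1,y3,z3])],.ref k25 k0 [(z5,[y12,z15,z0,z4]),(z5,[y12,z0,
    z15,z4]),(z5,[z21,z0,z0,y2]),(z5,[z6,z0,z0,y2,z15]),(z1,[z0,y3,y3,y1,y3,z3])],.ref k25 k0 [(z1,[z6,z9,z6,z2,z6,
    y6]),(z1,[z6,z6,z9,z2,z6,y6]),(z2,[y21,y21,y21,y5,y21,z21]),(z1,[y3,y3,y3,y1,z0,z3]),(z1,[z0,y3,y3,y1,y3,z3])],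
    .ref k25 k0 [(z1,[z4,z3]),(z1,[z4,z0,z3]),(z1,[y7,z0,z0,z1]),(z1,[y2,z0,z0,z0,z3]),(z1,[z0,y3,y3,y1,y3,z3])]],
    .lp k0 [k158,k150,k168,k168,k168,k144] [k5,k5,k9,k9,k0,k0,k0,k0,k0,k0,k12,k12] k0 [[k0,k0,k0,k0,k2,k8,k10,k0,k0,
    k0,k0,k0],[k20,k0,k0,k0,k0,k0,k0,k0,k0,k0,k0,k20],[k0,k0,k0,k0,k0,k0,k0,k0,k0,k2,k4,k0],[k0,k0,k0,k0,k0,k4,k6,k0,
    k0,k0,k0,k0],[k0,k8,k4,k0,k0,k0,k0,k0,k0,k0,k0,k0],[k0,k2,k0,k0,k0,k0,k0,k0,k0,k0,k2,k0],[k0,k0,k0,k0,k0,k0,k0,k0,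
    k0,k0,k0,k0],[k0,k10,k6,k0,k0,k0,k0,k0,k0,k0,k0,k0],[k0,k0,k0,k2,k0,k0,k0,k0,k0,k0,k0,k0],[k0,k0,k0,k0,k0,k0,k0,
    k0,k0,k0,k0,k0],[k20,k0,k0,k0,k0,k0,k0,k0,k0,k0,k0,k20],[k0,k0,k0,k4,k2,k0,k0,k0,k0,k0,k0,k0]] (nat_lit 480) k5
    [[(k2,k150),(k10,k151),(k11,k151),(k3,k154),(k7,k161),(k4,k163),(k5,k163),(k6,k163),(k8,k163),(k9,k163),(k0,k178),
    (k1,k178)],[(k10,k151),(k11,k151),(k9,k153),(k2,k154),(k3,k154),(k4,k155),(k7,k161),(k5,k163),(k6,k163),(k8,k163),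
    (k0,k178),(k1,k178)],[(k10,k127),(k3,k130),(k11,k147),(k2,k150),(k0,k154),(k1,k154),(k5,k159),(k8,k159),(k9,k159),
    (k4,k161),(k7,k167),(k6,k169)],[(k10,k147),(k11,k147),(k1,k150),(k2,k150),(k3,k150),(k0,k154),(k8,k157),(k4,k159),
    (k5,k159),(k9,k159),(k7,k163),(k6,k165)],[(k11,k158),(k2,k159),(k3,k159),(k10,k160),(k9,k162),(k0,k163),(k1,k163),
    (k4,k164),(k5,k168),(k6,k168),(k7,k168),(k8,k168)],[(k0,k155),(k11,k156),(k10,k158),(k2,k159),(k3,k161),(k1,k163),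
    (k5,k164),(k4,k168),(k6,k168),(k7,k168),(k8,k168),(k9,k168)],[(k10,k156),(k11,k156),(k0,k161),(k1,k161),(k2,k163),
    (k3,k167),(k4,k168),(k5,k168),(k6,k168),(k7,k168),(k8,k168),(k9,k168)],[(k10,k156),(k11,k156),(k0,k163),(k1,k163),
    (k2,k165),(k4,k168),(k5,k168),(k6,k168),(k7,k168),(k8,k168),(k9,k168),(k3,k169)],[(k0,k153),(k10,k156),(k11,k156),
    (k2,k159),(k3,k159),(k5,k162),(k1,k163),(k4,k168),(k6,k168),(k7,k168),(k8,k168),(k9,k168)],[(k10,k156),(k11,k156),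
    (k2,k157),(k3,k159),(k0,k163),(k1,k163),(k4,k168),(k5,k168),(k6,k168),(k7,k168),(k8,k168),(k9,k168)],[(k10,k144),
    (k11,k144),(k2,k147),(k3,k147),(k0,k151),(k1,k151),(k4,k156),(k6,k156),(k7,k156),(k8,k156),(k9,k156),(k5,k158)],
    [(k10,k124),(k3,k127),(k11,k144),(k2,k147),(k0,k151),(k1,k151),(k6,k156),(k7,k156),(k8,k156),(k9,k156),(k4,k158),
    (k5,k160)]]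
    [[k1,k2,k0,k0,k0,k0],[k1,k1,k1,k0,k0,k0],[k1,k1,k0,k0,k1,k0],[k1,k1,k0,k0,k0,k1],[k1,k0,k1,k0,k0,k1],[k1,k0,k0,k1,
    k0,k1],[k1,k0,k0,k0,k1,k1],[k1,k0,k0,k0,k0,k2],[k0,k3,k0,k0,k0,k0],[k0,k2,k1,k0,k0,k0],[k0,k2,k0,k0,k1,k0],[k0,k2,
    k0,k0,k0,k1],[k0,k2,k0,k1,k0,k0],[k0,k1,k1,k0,k0,k1],[k0,k1,k0,k1,k0,k1],[k0,k1,k0,k0,k1,k1],[k0,k1,k0,k0,k0,k2],
    [k0,k0,k1,k0,k1,k1],[k0,k0,k1,k0,k0,k2],[k0,k0,k0,k1,k0,k2],[k0,k0,k0,k0,k1,k2],[k0,k0,k0,k0,k0,k3]]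
    [.ref (nat_lit 228) k3 [(z6,[y3,y3,y1,y2,z6]),(z2,[y9,z9,z1]),(z1,[z1,y1]),(z1,[z1])],.ref (nat_lit 278) k10 [(z1,
    [z3,z3,z1,z1,y6]),(z3,[z0,y3,y1,y2,z6]),(z3,[z0,y6,y1,y2,z6]),(z3,[y3,z6,z1,z2,y3])],.ref k77 k6 [(z1,[y6,z6,z1]),
    (z1,[y6,z9,z1]),(z1,[z9,y9,y1]),(z1,[z0,z0,z0,z1])],.ref (nat_lit 279) k10 [(z3,[z3,z9,z2,z4,y12]),(z3,[z0,y3,y1,
    y2,z6]),(z3,[z0,y6,y1,y2,z6]),(z1,[y3,z0,z0,y1,z3])],.ref k77 k6 [(z2,[z3,y3,z0,y1]),(z2,[z3,z3,z0,y1]),(z4,[y9,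
    z9,z2,z3]),(z1,[z0,z0,z0,z1])],.ref k77 k6 [(z3,[z6,z0,z1,z2,y6]),(z3,[z6,z9,z1,z2,y6]),(z1,[y3,z0,z0,y1,z3]),(z1,
    [z0,z0,z0,z1])],.ref (nat_lit 280) k5 [(z3,[z3,z9,z2,z4,y12]),(z3,[z0,y6,y1,y2,z6]),(z3,[z0,y3,y1,y2,z6]),(z1,[y3,
    z0,z0,y1,z3])],.ref k77 k6 [(z1,[z1,y1]),(z1,[z1,z2]),(z2,[y3,z3,z1]),(z1,[z0,z0,z0,z1])],
    .ref (nat_lit 281) k5 [(z1,[y1,z9,z2,z3,y9]),(z3,[z0,y6,y1,y2,z6]),(z3,[z0,y3,y1,y2,z6]),(z1,[z1])],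
    .ref (nat_lit 281) k5 [(z2,[y3,z18,z4,z7,y18]),(z3,[z0,y6,y1,y2,z6]),(z3,[z0,y3,y1,y2,z6]),(z2,[z3,z0,z0,y1])],
    .ref (nat_lit 282) k5 [(z1,[y3,z18,z4,z6,y18]),(z3,[z0,y6,y1,y2,z6]),(z3,[z0,y3,y1,y2,z6]),(z1,[z3,y9,y2,y3,z9])],
    .ref (nat_lit 228) k3 [(z6,[y3,y6,y1,y2,z6]),(z2,[y9,z0,z1]),(z1,[z1]),(z1,[z1,z1])],.ref (nat_lit 283) k11 [(z3,
    [y6,y3,y1,y2,z6]),(z3,[y6,y6,y1,y2,z6]),(z1,[z9,z9,z2,z3,y9]),(z1,[z1])],.ref (nat_lit 278) k10 [(z1,[z3,z6,z1,z1,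
    y6]),(z3,[z0,y3,y1,y2,z6]),(z3,[z0,y6,y1,y2,z6]),(z3,[y3,z3,z1,z2,y3])],.ref (nat_lit 228) k3 [(z3,[y3,y6,y1,y2,
    z6]),(z1,[y9,y9,y1,y3,z9]),(z3,[z6,z6,z1,z2,y6]),(z3,[z6,z9,z1,z2,y6])],.ref k77 k6 [(z1,[y6,z0,z1]),(z1,[y6,z3,
    z1]),(z1,[z9,z0,y1]),(z1,[z0,z0,z0,z1])],.ref (nat_lit 279) k10 [(z3,[z3,z12,z2,z4,y12]),(z3,[z0,y3,y1,y2,z6]),
    (z3,[z0,y6,y1,y2,z6]),(z1,[y3,y3,z0,y1,z3])],.ref (nat_lit 228) k3 [(z3,[z3,y3,y1,y2,z3]),(z1,[z9,z0,y1,y3]),(z3,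
    [y6,z0,z1,z2]),(z3,[y6,z3,z1,z2])],.ref k77 k6 [(z2,[z3,z0,z0,y1]),(z2,[z3,z6,z0,y1]),(z4,[y9,z0,z2,z3]),(z1,[z0,
    z0,z0,z1])],.ref k77 k6 [(z3,[z6,z6,z1,z2,y6]),(z3,[z6,z15,z1,z2,y6]),(z1,[y3,y3,z0,y1,z3]),(z1,[z0,z0,z0,z1])],
    .ref (nat_lit 280) k5 [(z3,[z3,z12,z2,z4,y12]),(z3,[z0,y6,y1,y2,z6]),(z3,[z0,y3,y1,y2,z6]),(z1,[y3,y3,z0,y1,z3])],
    .ref k77 k6 [(z1,[z1]),(z1,[z1,z3]),(z2,[y3,z0,z1]),(z1,[z0,z0,z0,z1])]],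
    .lp k0 [(nat_lit 940),(nat_lit 964),(nat_lit 982),(nat_lit 994),(nat_lit 952),(nat_lit 916)] [k27,k27,k15,k15,k6,
    k6,k0,k0,k21,k21,k39,k39] k0 [[k0,k0,k12,k0,k0,k0,k0,k12,k12,k0,k0,k12],[k0,k0,k12,k0,k30,k18,k0,k0,k0,k0,k0,k84],
    [k0,k0,k0,k0,k42,k30,k0,k48,k180,k0,k0,k72],[k12,k12,k0,k0,k0,k0,k0,k0,k0,k0,k0,k0],[k18,k0,k0,k30,k0,k0,k54,k0,
    k0,k186,k54,k0],[k30,k0,k0,k42,k0,k0,k42,k0,k0,k66,k66,k0],[k0,k12,k0,k48,k0,k0,k0,k0,k132,k132,k0,k0],[k0,k0,k0,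
    k0,k42,k54,k0,k0,k0,k0,k108,k72],[k0,k0,k0,k0,k66,k186,k0,k132,k0,k0,k168,k0],[k0,k12,k0,k180,k0,k0,k0,k132,k0,k0,
    k168,k0],[k84,k12,k0,k72,k0,k0,k72,k0,k0,k0,k0,k0],[k0,k0,k0,k0,k66,k54,k108,k0,k168,k168,k0,
    k0]] (nat_lit 2880) k5
    [[(k11,(nat_lit 760)),(k8,(nat_lit 778)),(k9,(nat_lit 838)),(k7,(nat_lit 901)),(k4,(nat_lit 907)),(k10,
    (nat_lit 928)),(k1,(nat_lit 940)),(k2,(nat_lit 952)),(k3,(nat_lit 964)),(k0,(nat_lit 1024)),(k5,(nat_lit 1033)),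
    (k6,(nat_lit 1039))],[(k10,(nat_lit 916)),(k11,(nat_lit 916)),(k0,(nat_lit 940)),(k8,(nat_lit 946)),(k9,
    (nat_lit 946)),(k5,(nat_lit 949)),(k3,(nat_lit 952)),(k6,(nat_lit 955)),(k2,(nat_lit 964)),(k7,(nat_lit 985)),(k4,
    (nat_lit 991)),(k1,(nat_lit 1024))],[(k10,(nat_lit 856)),(k11,(nat_lit 940)),(k7,(nat_lit 949)),(k0,
    (nat_lit 952)),(k4,(nat_lit 955)),(k5,(nat_lit 961)),(k1,(nat_lit 964)),(k3,(nat_lit 964)),(k8,(nat_lit 970)),(k9,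
    (nat_lit 970)),(k2,(nat_lit 976)),(k6,(nat_lit 979))],[(k11,(nat_lit 760)),(k10,(nat_lit 868)),(k6,(nat_lit 931)),
    (k7,(nat_lit 937)),(k4,(nat_lit 943)),(k1,(nat_lit 952)),(k8,(nat_lit 958)),(k9,(nat_lit 958)),(k0,(nat_lit 964)),
    (k2,(nat_lit 964)),(k5,(nat_lit 973)),(k3,(nat_lit 976))],[(k0,(nat_lit 949)),(k10,(nat_lit 949)),(k11,
    (nat_lit 949)),(k3,(nat_lit 961)),(k2,(nat_lit 973)),(k5,(nat_lit 982)),(k6,(nat_lit 988)),(k9,(nat_lit 1015)),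
    (k7,(nat_lit 1018)),(k4,(nat_lit 1024)),(k1,(nat_lit 1033)),(k8,(nat_lit 1147))],[(k8,(nat_lit 781)),(k1,
    (nat_lit 907)),(k9,(nat_lit 913)),(k2,(nat_lit 943)),(k3,(nat_lit 955)),(k4,(nat_lit 982)),(k7,(nat_lit 988)),(k0,
    (nat_lit 991)),(k10,(nat_lit 1015)),(k11,(nat_lit 1015)),(k5,(nat_lit 1024)),(k6,(nat_lit 1030))],[(k1,
    (nat_lit 901)),(k8,(nat_lit 907)),(k9,(nat_lit 931)),(k2,(nat_lit 937)),(k3,(nat_lit 949)),(k0,(nat_lit 985)),(k4,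
    (nat_lit 988)),(k7,(nat_lit 994)),(k10,(nat_lit 1009)),(k5,(nat_lit 1018)),(k6,(nat_lit 1048)),(k11,
    (nat_lit 1141))],[(k11,(nat_lit 823)),(k8,(nat_lit 841)),(k2,(nat_lit 931)),(k0,(nat_lit 955)),(k9,(nat_lit 973)),
    (k3,(nat_lit 979)),(k5,(nat_lit 988)),(k6,(nat_lit 994)),(k4,(nat_lit 1030)),(k1,(nat_lit 1039)),(k7,
    (nat_lit 1048)),(k10,(nat_lit 1063))],[(k1,(nat_lit 838)),(k10,(nat_lit 862)),(k4,(nat_lit 913)),(k7,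
    (nat_lit 931)),(k0,(nat_lit 946)),(k9,(nat_lit 952)),(k2,(nat_lit 958)),(k3,(nat_lit 970)),(k6,(nat_lit 973)),(k5,
    (nat_lit 1015)),(k11,(nat_lit 1066)),(k8,(nat_lit 1084))],[(k1,(nat_lit 778)),(k4,(nat_lit 781)),(k6,
    (nat_lit 841)),(k7,(nat_lit 907)),(k11,(nat_lit 934)),(k0,(nat_lit 946)),(k8,(nat_lit 952)),(k2,(nat_lit 958)),
    (k3,(nat_lit 970)),(k9,(nat_lit 1084)),(k10,(nat_lit 1102)),(k5,(nat_lit 1147))],[(k1,(nat_lit 760)),(k2,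
    (nat_lit 760)),(k6,(nat_lit 823)),(k0,(nat_lit 916)),(k11,(nat_lit 916)),(k8,(nat_lit 934)),(k3,(nat_lit 940)),
    (k5,(nat_lit 949)),(k4,(nat_lit 1015)),(k9,(nat_lit 1066)),(k10,(nat_lit 1084)),(k7,(nat_lit 1141))],[(k3,
    (nat_lit 856)),(k9,(nat_lit 862)),(k2,(nat_lit 868)),(k0,(nat_lit 916)),(k10,(nat_lit 916)),(k1,(nat_lit 928)),
    (k5,(nat_lit 949)),(k7,(nat_lit 1009)),(k4,(nat_lit 1015)),(k6,(nat_lit 1063)),(k11,(nat_lit 1084)),(k8,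
    (nat_lit 1102))]]
    [[k2,k0,k0,k0,k1,k0],[k2,k0,k0,k0,k0,k1],[k2,k1,k0,k0,k0,k0],[k1,k1,k1,k0,k0,k0],[k1,k1,k0,k1,k0,k0],[k1,k1,k0,k0,
    k1,k0],[k1,k1,k0,k0,k0,k1],[k1,k0,k1,k0,k1,k0],[k1,k0,k1,k0,k0,k1],[k1,k0,k0,k1,k1,k0],[k1,k0,k0,k1,k0,k1],[k1,k0,
    k0,k0,k2,k0],[k1,k0,k0,k0,k1,k1],[k1,k0,k0,k0,k0,k2],[k0,k2,k0,k1,k0,k0],[k0,k2,k0,k0,k0,k1],[k0,k1,k1,k0,k0,k1],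
    [k0,k1,k1,k0,k1,k0],[k0,k1,k0,k1,k1,k0],[k0,k1,k0,k1,k0,k1],[k0,k1,k0,k0,k1,k1],[k0,k1,k0,k0,k0,k2],[k0,k0,k2,k0,
    k1,k0],[k0,k0,k1,k1,k1,k0],[k0,k0,k1,k1,k0,k1],[k0,k0,k1,k0,k1,k1],[k0,k0,k0,k2,k1,k0],[k0,k0,k0,k1,k2,k0],[k0,k0,
    k0,k1,k1,k1]]
    [.ref k25 k0 [(z2,[z3,z1,z1,z3,z3,y3]),(z4,[y3,z1,z3,y3,y3,z3]),(z6,[y3,z1,y1,z15,y3,z3]),(z6,[y3,z1,y1,y3,z15,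
    z3]),(z1,[z0,y1,y1,y3,y3,z3])],.ref k25 k0 [(z13,[z18,z1]),(z13,[y9,z6,z13]),(z13,[y6,z4,z0,z39]),(z13,[y6,z4,z0,
    z0,z39]),(z1,[z0,y1,y1,y3,y3,z3])],.ref k25 k0 [(z3,[z6,y1,y2]),(z3,[y3,z2,z4]),(z9,[y6,z4,z2,z27]),(z9,[y6,z4,z2,
    z0,z27]),(z1,[z0,y1,y1,y3,y3,z3])],.ref k25 k0 [(z1,[z18,y5,y6,y18]),(z1,[y9,z3,z4,z9]),(z1,[y6,z2,z2,z9]),(z1,
    [y6,z2,z2,z6,z3]),(z1,[z0,y1,y1,y3,y3,z3])],.ref k25 k0 [(z1,[z18,y5,y6,z0,y18]),(z1,[y9,z3,z4,z0,z9]),(z1,[y6,z2,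
    z2,z3,z6]),(z1,[y6,z2,z2,z0,z9]),(z1,[z0,y1,y1,y3,y3,z3])],.ref k25 k0 [(z1,[z6,z1,z0,z6,z6,y6]),(z1,[y3,z0,z1,y3,
    y3,z3]),(z1,[y2,z0,z0,z1,y2,z2]),(z1,[y2,z0,z0,y2,z1,z2]),(z1,[z0,y1,y1,y3,y3,z3])],.ref k25 k0 [(z2,[z9,y1,y3]),
    (z4,[y9,z3,z7]),(z2,[y3,z1,z1,z6]),(z2,[y3,z1,z1,z0,z6]),(z1,[z0,y1,y1,y3,y3,z3])],.ref k25 k0 [(z2,[z9,z2,z3,z0,
    z9,y9]),(z4,[y9,z0,z1,z0,y9,z9]),(z2,[y3,z0,y1,z6,y3,z3]),(z2,[y3,z0,y1,z0,z3,z3]),(z1,[z0,y1,y1,y3,y3,z3])],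
    .ref k25 k0 [(z5,[z18,y1,z0,y18]),(z5,[y9,z3,z5,z9]),(z5,[y6,z2,z0,z21]),(z5,[y6,z2,z0,z6,z15]),(z1,[z0,y1,y1,y3,
    y3,z3])],.ref k25 k0 [(z2,[z9,z2,z3,z9,z0,y9]),(z4,[y9,z0,z1,y9,z0,z9]),(z2,[y3,z0,y1,z3,z0,z3]),(z2,[y3,z0,y1,y3,
    z6,z3]),(z1,[z0,y1,y1,y3,y3,z3])],.ref k25 k0 [(z5,[z18,y1,z0,z0,y18]),(z5,[y9,z3,z5,z0,z9]),(z5,[y6,z2,z0,z15,
    z6]),(z5,[y6,z2,z0,z0,z21]),(z1,[z0,y1,y1,y3,y3,z3])],.ref k25 k0 [(z1,[z3,z2,z2,z6,z6,y6]),(z2,[y3,y1,z0,y6,y6,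
    z6]),(z3,[y3,y1,y2,z3,y6,z6]),(z3,[y3,y1,y2,y6,z3,z6]),(z1,[z0,y1,y1,y3,y3,z3])],.ref k25 k0 [(z7,[z18,z7,z6,z18,
    z18,y18]),(z7,[y9,z0,z4,y9,y9,z9]),(z7,[y6,z0,y2,z15,y6,z6]),(z7,[y6,z0,y2,y6,z15,z6]),(z1,[z0,y1,y1,y3,y3,z3])],
    .ref k25 k0 [(z4,[z9,z1]),(z8,[y9,z3,z8]),(z4,[y3,z1,z0,z12]),(z4,[y3,z1,z0,z0,z12]),(z1,[z0,y1,y1,y3,y3,z3])],
    .ref k25 k0 [(z4,[y9,z4,z6,z0,z9]),(z8,[z9,z0,z2,z0,y9]),(z4,[z3,z0,y2,z12,y3]),(z4,[z3,z0,y2,z0,z9]),(z1,[z0,y1,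
    y1,y3,y3,z3])],.ref k25 k0 [(z5,[y18,z5,z12]),(z5,[z9,z0,y1]),(z5,[z6,z0,y4,z15]),(z5,[z6,z0,y4,z0,z15]),(z1,[z0,
    y1,y1,y3,y3,z3])],.ref k25 k0 [(z2,[y9,z2,z3,z9]),(z4,[z9,z0,z1,y9]),(z2,[z3,z0,y1,z3]),(z2,[z3,z0,y1,y3,z6]),(z1,
    [z0,y1,y1,y3,y3,z3])],.ref k25 k0 [(z5,[y18,y1,z0,z0,y18,z18]),(z5,[z9,z3,z5,z0,z9,y9]),(z5,[z6,z2,z0,z15,z6,y6]),
    (z5,[z6,z2,z0,z0,z21,y6]),(z1,[z0,y1,y1,y3,y3,z3])],.ref k25 k0 [(z5,[y18,y1,z0,y18,z0,z18]),(z5,[z9,z3,z5,z9,z0,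
    y9]),(z5,[z6,z2,z0,z21,z0,y6]),(z5,[z6,z2,z0,z6,z15,y6]),(z1,[z0,y1,y1,y3,y3,z3])],.ref k25 k0 [(z2,[y9,z2,z3,z0,
    z9]),(z4,[z9,z0,z1,z0,y9]),(z2,[z3,z0,y1,z6,y3]),(z2,[z3,z0,y1,z0,z3]),(z1,[z0,y1,y1,y3,y3,z3])],.ref k25 k0 [(z1,
    [y9,y2,z0,y9,y9,z9]),(z2,[z9,z3,z2,z9,z9,y9]),(z1,[z3,z1,z0,z6,z3,y3]),(z1,[z3,z1,z0,z3,z6,y3]),(z1,[z0,y1,y1,y3,
    y3,z3])],.ref k25 k0 [(z1,[y18,z1,z6]),(z1,[z9,z0,y2]),(z1,[z6,z0,y2,z3]),(z1,[z6,z0,y2,z0,z3]),(z1,[z0,y1,y1,y3,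
    y3,z3])],.ref k25 k0 [(z2,[y9,y1,y3,z9,y9,z9]),(z4,[z9,z3,z7,y9,z9,y9]),(z2,[z3,z1,z1,z3,z3,y3]),(z2,[z3,z1,z1,y3,
    z9,y3]),(z1,[z0,y1,y1,y3,y3,z3])],.ref k25 k0 [(z2,[y9,y1,y3,z0,z0,z9]),(z4,[z9,z3,z7,z0,z0,y9]),(z2,[z3,z1,z1,z6,
    z0,y3]),(z2,[z3,z1,z1,z0,z6,y3]),(z1,[z0,y1,y1,y3,y3,z3])],.ref k25 k0 [(z1,[y6,z1,z0,z6,z6]),(z1,[z3,z0,z1,y3,
    y3]),(z1,[z2,z0,z0,z1,y2]),(z1,[z2,z0,z0,y2,z1]),(z1,[z0,y1,y1,y3,y3,z3])],.ref k25 k0 [(z1,[y18,y5,y6,z0,y18,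
    z18]),(z1,[z9,z3,z4,z0,z9,y9]),(z1,[z6,z2,z2,z3,z6,y6]),(z1,[z6,z2,z2,z0,z9,y6]),(z1,[z0,y1,y1,y3,y3,z3])],
    .ref k25 k0 [(z2,[y9,y1,y3,y9,z9,z9]),(z4,[z9,z3,z7,z9,y9,y9]),(z2,[z3,z1,z1,z9,y3,y3]),(z2,[z3,z1,z1,z3,z3,y3]),
    (z1,[z0,y1,y1,y3,y3,z3])],.ref k25 k0 [(z1,[y9,y5,y6,y18,y9,z18]),(z2,[z9,z6,z8,z18,z9,y18]),(z1,[z3,z2,z2,z9,z3,
    y6]),(z1,[z3,z2,z2,z6,z6,y6]),(z1,[z0,y1,y1,y3,y3,z3])],.ref k25 k0 [(z1,[y18,y5,y6,y18,z0,z18]),(z1,[z9,z3,z4,z9,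
    z0,y9]),(z1,[z6,z2,z2,z9,z0,y6]),(z1,[z6,z2,z2,z6,z3,y6]),(z1,[z0,y1,y1,y3,y3,z3])]],
    .base (.leafM k1 [k0,k1,k2,k3,k4,k5] [(z1,[z0,z1,z0,z1]),(z1,[z0,y1,z0,y1,z1])] []),
    .lp k0 [(nat_lit 856),(nat_lit 866),(nat_lit 902),(nat_lit 962),(nat_lit 940),(nat_lit 732)] [k53,k53,k48,k48,k30,
    k30,k0,k0,k11,k11,k115,k115] k0 [[k0,k0,k36,k0,k14,k0,k42,k0,k0,k0,k0,k134],[k0,k0,k0,k0,k0,k0,k28,k0,k0,k0,k0,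
    k134],[k0,k0,k0,k0,k38,k38,k0,k0,k0,k32,k72,k38],[k0,k36,k6,k0,k0,k0,k0,k0,k0,k0,k0,k0],[k0,k0,k0,k38,k0,k0,k0,k0,
    k0,k10,k12,k0],[k0,k14,k0,k38,k0,k0,k0,k0,k0,k76,k34,k0],[k0,k0,k0,k0,k0,k0,k0,k28,k28,k28,k0,k0],[k28,k42,k0,k0,
    k0,k0,k0,k0,k0,k0,k12,k0],[k0,k0,k0,k32,k76,k10,k0,k28,k0,k0,k0,k0],[k0,k0,k0,k0,k0,k0,k0,k28,k0,k0,k0,k0],[k134,
    k134,k0,k38,k0,k0,k0,k0,k0,k0,k0,k62],[k0,k0,k0,k72,k34,k12,k12,k0,k0,k0,k0,k0]] (nat_lit 2640) k5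
    [[(k2,(nat_lit 789)),(k10,(nat_lit 794)),(k11,(nat_lit 794)),(k4,(nat_lit 867)),(k7,(nat_lit 875)),(k9,
    (nat_lit 886)),(k8,(nat_lit 898)),(k6,(nat_lit 909)),(k5,(nat_lit 917)),(k1,(nat_lit 918)),(k0,(nat_lit 990)),(k3,
    (nat_lit 995))],[(k10,(nat_lit 660)),(k11,(nat_lit 794)),(k5,(nat_lit 843)),(k0,(nat_lit 856)),(k9,(nat_lit 856)),
    (k2,(nat_lit 861)),(k3,(nat_lit 861)),(k4,(nat_lit 879)),(k7,(nat_lit 895)),(k8,(nat_lit 898)),(k6,(nat_lit 937)),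
    (k1,(nat_lit 990))],[(k10,(nat_lit 665)),(k11,(nat_lit 799)),(k0,(nat_lit 861)),(k3,(nat_lit 866)),(k9,
    (nat_lit 875)),(k5,(nat_lit 884)),(k4,(nat_lit 898)),(k2,(nat_lit 902)),(k8,(nat_lit 903)),(k7,(nat_lit 914)),(k6,
    (nat_lit 956)),(k1,(nat_lit 995))],[(k10,(nat_lit 761)),(k1,(nat_lit 789)),(k11,(nat_lit 799)),(k4,(nat_lit 846)),
    (k0,(nat_lit 861)),(k8,(nat_lit 871)),(k2,(nat_lit 872)),(k7,(nat_lit 876)),(k5,(nat_lit 884)),(k3,(nat_lit 902)),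
    (k9,(nat_lit 903)),(k6,(nat_lit 914))],[(k0,(nat_lit 843)),(k11,(nat_lit 849)),(k2,(nat_lit 884)),(k3,
    (nat_lit 884)),(k10,(nat_lit 889)),(k5,(nat_lit 896)),(k1,(nat_lit 917)),(k8,(nat_lit 921)),(k9,(nat_lit 921)),
    (k6,(nat_lit 932)),(k4,(nat_lit 940)),(k7,(nat_lit 970))],[(k2,(nat_lit 846)),(k10,(nat_lit 851)),(k1,
    (nat_lit 867)),(k0,(nat_lit 879)),(k11,(nat_lit 893)),(k3,(nat_lit 898)),(k4,(nat_lit 902)),(k8,(nat_lit 911)),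
    (k9,(nat_lit 921)),(k6,(nat_lit 932)),(k7,(nat_lit 932)),(k5,(nat_lit 940))],[(k11,(nat_lit 857)),(k10,
    (nat_lit 859)),(k1,(nat_lit 875)),(k8,(nat_lit 875)),(k2,(nat_lit 876)),(k0,(nat_lit 895)),(k3,(nat_lit 914)),(k4,
    (nat_lit 932)),(k9,(nat_lit 951)),(k6,(nat_lit 962)),(k7,(nat_lit 962)),(k5,(nat_lit 970))],[(k11,(nat_lit 819)),
    (k10,(nat_lit 859)),(k1,(nat_lit 909)),(k2,(nat_lit 914)),(k8,(nat_lit 923)),(k4,(nat_lit 932)),(k5,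
    (nat_lit 932)),(k6,(nat_lit 934)),(k0,(nat_lit 937)),(k9,(nat_lit 951)),(k3,(nat_lit 956)),(k7,(nat_lit 962))],
    [(k10,(nat_lit 836)),(k0,(nat_lit 856)),(k11,(nat_lit 864)),(k3,(nat_lit 875)),(k1,(nat_lit 886)),(k2,
    (nat_lit 903)),(k4,(nat_lit 921)),(k5,(nat_lit 921)),(k6,(nat_lit 951)),(k7,(nat_lit 951)),(k8,(nat_lit 968)),(k9,
    (nat_lit 968))],[(k10,(nat_lit 836)),(k11,(nat_lit 836)),(k2,(nat_lit 871)),(k7,(nat_lit 875)),(k0,(nat_lit 898)),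
    (k1,(nat_lit 898)),(k3,(nat_lit 903)),(k4,(nat_lit 911)),(k5,(nat_lit 921)),(k6,(nat_lit 923)),(k8,(nat_lit 940)),
    (k9,(nat_lit 968))],[(k10,(nat_lit 732)),(k11,(nat_lit 732)),(k0,(nat_lit 794)),(k1,(nat_lit 794)),(k2,
    (nat_lit 799)),(k3,(nat_lit 799)),(k6,(nat_lit 819)),(k8,(nat_lit 836)),(k5,(nat_lit 849)),(k7,(nat_lit 857)),(k9,
    (nat_lit 864)),(k4,(nat_lit 893))],[(k0,(nat_lit 660)),(k3,(nat_lit 665)),(k10,(nat_lit 670)),(k11,(nat_lit 732)),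
    (k2,(nat_lit 761)),(k1,(nat_lit 794)),(k8,(nat_lit 836)),(k9,(nat_lit 836)),(k4,(nat_lit 851)),(k6,(nat_lit 859)),
    (k7,(nat_lit 859)),(k5,(nat_lit 889))]]
    [[k2,k0,k0,k0,k0,k1],[k1,k2,k0,k0,k0,k0],[k1,k1,k1,k0,k0,k0],[k1,k1,k0,k0,k1,k0],[k1,k1,k0,k0,k0,k1],[k1,k0,k1,k0,
    k0,k1],[k1,k0,k0,k1,k0,k1],[k1,k0,k0,k0,k1,k1],[k1,k0,k0,k0,k0,k2],[k0,k2,k1,k0,k0,k0],[k0,k2,k0,k0,k0,k1],[k0,k1,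
    k1,k0,k0,k1],[k0,k1,k0,k1,k0,k1],[k0,k1,k0,k0,k1,k1],[k0,k1,k0,k0,k0,k2],[k0,k0,k1,k0,k1,k1],[k0,k0,k1,k0,k0,k2],
    [k0,k0,k0,k1,k1,k1],[k0,k0,k0,k1,k0,k2],[k0,k0,k0,k0,k1,k2],[k0,k0,k0,k0,k0,k3]]
    [.ref k25 k0 [(z1,[z1,z1]),(z1,[z0,z0,z1]),(z2,[y1,z2,z0,z3]),(z2,[z3,y6,z0,z0,z1]),(z2,[y6,z6,y2,y3,y1,z6])],
    .ref k25 k0 [(z1,[z3,z0,y2]),(z1,[z0,z0,z1]),(z2,[y3,z3,z2,z3]),(z2,[z9,y9,y6,z0,z1]),(z2,[y18,z12,z10,y3,y1,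
    z6])],.ref k25 k0 [(z1,[z6,y3,y2,y3]),(z1,[z0,z0,z1]),(z1,[y3,z3,z1,z3]),(z2,[z18,y18,y6,y9,z1]),(z2,[y36,z30,z10,
    z15,y1,z6])],.ref k25 k0 [(z4,[y6,z12,z0,y3,y1,z6]),(z1,[z0,z0,z1]),(z8,[z6,z0,z0,z15,z1,y6]),(z8,[y18,z0,z0,y9,
    z1,z18]),(z4,[z18,y12,y4,z3,z1,y6])],.ref k25 k0 [(z2,[z3,z3,y1]),(z1,[z0,z0,z1]),(z4,[y3,z3,z1,z6]),(z4,[z9,y9,
    y3,z0,z2]),(z2,[y9,z3,z1,y3,y1,z6])],.ref k25 k0 [(z1,[z2,z1,z0,y1]),(z1,[z0,z0,z1]),(z1,[y1,z1,z0,z2]),(z2,[z6,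
    y6,z0,y3,z1]),(z2,[y12,z6,y2,z3,y1,z6])],.ref k25 k0 [(z7,[z6,z15,z0,z0,y1]),(z1,[z0,z0,z1]),(z14,[y6,z6,z0,z21,
    z1]),(z7,[z9,y9,z0,z0,z2]),(z14,[y36,y6,y14,y21,y1,z42])],.ref k25 k0 [(z2,[y6,z6,y2,y3,y1,z6]),(z1,[z0,z0,z1]),
    (z4,[z6,z0,z2,z9,z1,y6]),(z4,[y18,z0,y6,y9,y1,z18]),(z1,[z9,y3,z2,z3,z1,y6])],.ref k25 k0 [(z1,[z1,z2]),(z1,[z0,
    z0,z1]),(z2,[y1,z1,z0,z3]),(z2,[z3,y3,z0,z0,z1]),(z2,[y6,z0,y2,y3,y1,z6])],.ref k25 k0 [(z1,[y6,z3,z4,z3]),(z1,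
    [z0,z0,z1]),(z1,[z3,z0,y2]),(z2,[y18,z0,z12,z9,z1]),(z2,[z36,y6,y26,y21,y1,z6])],.ref k25 k0 [(z1,[z3,z3,y2]),(z1,
    [z0,z0,z1]),(z2,[y3,z0,z2,z3]),(z2,[z9,z0,y6,z0,z1]),(z2,[y18,y6,z10,y3,y1,z6])],.ref k25 k0 [(z1,[z6,z3,y2,y3]),
    (z1,[z0,z0,z1]),(z1,[y3,z0,z1,z3]),(z2,[z18,z0,y6,y9,z1]),(z2,[y36,y6,z10,z15,y1,z6])],.ref k25 k0 [(z5,[z6,z15,
    y2,z0,y1]),(z1,[z0,z0,z1]),(z10,[y6,z0,z2,z15,z1]),(z5,[z9,z0,y3,z0,z1]),(z10,[y36,y30,z2,y15,z1,z30])],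
    .ref k25 k0 [(z4,[y6,z6,z0,y3,y1,z6]),(z1,[z0,z0,z1]),(z8,[z6,z6,z0,z15,z1,y6]),(z8,[y18,y18,z0,y9,z1,z18]),(z4,
    [z18,z6,y4,z3,z1,y6])],.ref k25 k0 [(z2,[z3,z6,y1]),(z1,[z0,z0,z1]),(z4,[y3,z0,z1,z6]),(z4,[z9,z0,y3,z0,z2]),(z2,
    [y9,y6,z1,y3,y1,z6])],.ref k25 k0 [(z5,[y6,z9,y2,z0,y1,z6]),(z1,[z0,z0,z1]),(z10,[z6,z6,z2,z15,z1,y6]),(z5,[y9,y9,
    y3,z0,z1,z9]),(z10,[z36,z6,z2,y15,z1,y6])],.ref k25 k0 [(z1,[z2,z3,z0,y1]),(z1,[z0,z0,z1]),(z1,[y1,z0,z0,z2]),(z2,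
    [z6,z0,z0,y3,z1]),(z2,[y12,y6,y2,z3,y1,z6])],.ref k25 k0 [(z1,[y6,y3,y2,y3,z0,z6]),(z1,[z0,z0,z1]),(z1,[z3,z3,z1,
    z3,z0,y3]),(z2,[y18,y18,y6,y9,z1,z18]),(z2,[z36,z30,z10,z15,y1,y30])],.ref k25 k0 [(z7,[z6,z21,z0,z0,y1]),(z1,[z0,
    z0,z1]),(z14,[y6,z0,z0,z21,z1]),(z7,[z9,z0,z0,z0,z2]),(z14,[y36,y42,y14,y21,y1,z42])],.ref k25 k0 [(z2,[y6,z0,y2,
    y3,y1,z6]),(z1,[z0,z0,z1]),(z4,[z6,z6,z2,z9,z1,y6]),(z4,[y18,y18,y6,y9,y1,z18]),(z1,[z9,z6,z2,z3,z1,y6])],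
    .ref k25 k0 [(z1,[z1,z3]),(z1,[z0,z0,z1]),(z2,[y1,z0,z0,z3]),(z2,[z3,z0,z0,z0,z1]),(z2,[y6,y6,y2,y3,y1,z6])]]]

theorem hB6_171_23 : blkB [0, 0, 0, 0, 0, 0] [] sp6 hS6_171 (pcls (n := 6) [0, 0, 0, 0, 0, 0]) hD6_171 560 23 hN6_171_23 = true := by
  decide +kernel

/-- nodes 288 to 299 -/
noncomputable def hN6_171_24 : List HM :=
  [.base (.leafM k3 [k5,k0,k1,k2,k3,k4] [(z1,[z1,z0,z1,z1])] []),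
    .base (.leafM k3 [k1,k2,k3,k4,k5,k0] [(z3,[y1,y3,z0,y1,z3])] []),
    .lp k0 [k80,k72,k82,k84,k84,k76] [k2,k2,k8,k4,k1,k1,k0,k0,k0,k0,k4,k4] k0 [[k0,k0,k0,k4,k4,k4,k8,k0,k0,k0,k0,k4],
    [k10,k0,k0,k2,k0,k0,k0,k0,k4,k0,k0,k16],[k2,k4,k0,k2,k0,k0,k0,k0,k0,k0,k0,k0],[k0,k0,k0,k0,k0,k0,k4,k0,k0,k0,k0,
    k0],[k0,k4,k0,k0,k0,k0,k0,k0,k0,k4,k2,k0],[k0,k4,k0,k0,k0,k0,k0,k0,k0,k0,k0,k0],[k0,k0,k0,k0,k0,k0,k0,k0,k0,k0,k0,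
    k0],[k0,k8,k4,k0,k0,k0,k0,k0,k0,k0,k2,k4],[k0,k0,k0,k0,k0,k4,k0,k0,k0,k0,k12,k0],[k4,k0,k0,k0,k0,k0,k0,k0,k0,k0,
    k0,k0],[k16,k4,k0,k0,k0,k0,k4,k0,k0,k0,k0,k0],[k0,k0,k0,k0,k0,k2,k2,k0,k0,k12,k0,k0]] (nat_lit 240) k5
    [[(k8,k70),(k2,k74),(k10,k78),(k11,k78),(k4,k79),(k1,k80),(k9,k80),(k5,k81),(k3,k82),(k7,k82),(k6,k86),(k0,k96)],
    [(k2,k70),(k9,k74),(k10,k74),(k4,k77),(k3,k78),(k7,k78),(k11,k78),(k6,k82),(k5,k83),(k8,k86),(k0,k90),(k1,k96)],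
    [(k10,k60),(k3,k66),(k2,k70),(k11,k72),(k0,k78),(k8,k80),(k9,k80),(k1,k82),(k4,k83),(k5,k83),(k7,k84),(k6,k88)],
    [(k2,k66),(k0,k70),(k3,k70),(k10,k72),(k11,k72),(k1,k74),(k4,k75),(k5,k75),(k7,k76),(k8,k76),(k9,k76),(k6,k80)],
    [(k2,k75),(k9,k79),(k10,k79),(k11,k79),(k1,k81),(k4,k82),(k0,k83),(k3,k83),(k6,k83),(k7,k83),(k8,k83),(k5,k84)],
    [(k2,k75),(k0,k77),(k1,k79),(k8,k79),(k10,k79),(k11,k79),(k4,k82),(k5,k82),(k3,k83),(k6,k83),(k7,k83),(k9,k83)],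
    [(k2,k76),(k0,k78),(k1,k82),(k10,k82),(k4,k83),(k5,k83),(k3,k84),(k6,k84),(k7,k84),(k8,k84),(k9,k84),(k11,k84)],
    [(k2,k80),(k11,k80),(k0,k82),(k10,k82),(k4,k83),(k5,k83),(k6,k84),(k7,k84),(k8,k84),(k9,k84),(k1,k86),(k3,k88)],
    [(k0,k74),(k2,k76),(k10,k76),(k5,k79),(k1,k80),(k3,k80),(k11,k80),(k4,k83),(k6,k84),(k7,k84),(k8,k84),(k9,k84)],
    [(k1,k70),(k2,k76),(k4,k79),(k3,k80),(k10,k80),(k11,k80),(k5,k83),(k6,k84),(k7,k84),(k8,k84),(k9,k84),(k0,k86)],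
    [(k2,k72),(k3,k72),(k11,k76),(k0,k78),(k1,k78),(k4,k79),(k5,k79),(k6,k80),(k8,k80),(k9,k80),(k7,k84),(k10,k88)],
    [(k3,k60),(k2,k72),(k0,k74),(k9,k76),(k10,k76),(k1,k78),(k4,k79),(k5,k79),(k8,k80),(k6,k82),(k7,k82),(k11,k88)]]
    [[k2,k1,k0,k0,k0,k0],[k2,k0,k0,k0,k0,k1],[k1,k2,k0,k0,k0,k0],[k1,k1,k1,k0,k0,k0],[k1,k1,k0,k0,k1,k0],[k1,k1,k0,k0,
    k0,k1],[k1,k0,k1,k0,k1,k0],[k1,k0,k1,k0,k0,k1],[k1,k0,k0,k1,k0,k1],[k1,k0,k0,k1,k1,k0],[k1,k0,k0,k0,k2,k0],[k1,k0,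
    k0,k0,k1,k1],[k1,k0,k0,k0,k0,k2],[k0,k3,k0,k0,k0,k0],[k0,k2,k1,k0,k0,k0],[k0,k2,k0,k1,k0,k0],[k0,k2,k0,k0,k1,k0],
    [k0,k2,k0,k0,k0,k1],[k0,k1,k1,k0,k1,k0],[k0,k1,k1,k0,k0,k1],[k0,k1,k0,k1,k0,k1],[k0,k1,k0,k0,k1,k1],[k0,k1,k0,k0,
    k0,k2],[k0,k0,k1,k0,k1,k1],[k0,k0,k1,k0,k0,k2],[k0,k0,k0,k0,k1,k2]]
    [.ref k25 k0 [(z4,[z9,y2,y9]),(z2,[y3,z2,z9]),(z2,[y3,z2,z3,z6]),(z1,[z0,z0,z0,z0,z1]),(z4,[z3,y2,y3])],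
    .ref k25 k0 [(z2,[z3,z1,z3,z3,z1,y3]),(z3,[y3,z1,z6,y3,y1,z3]),(z3,[y3,z1,y3,z6,y1,z3]),(z1,[z0,z0,z0,z0,z1]),(z6,
    [z3,y1,z3,z3,z1,y3])],.ref k25 k0 [(z1,[y9,z4,z18]),(z1,[z6,y2,y9]),(z1,[z6,y2,y12,z3]),(z1,[z0,z0,z0,z0,z1]),(z1,
    [y3,z1,z6])],.ref k25 k0 [(z1,[y9,z4,z9,z9]),(z1,[z6,y2,y3,y6]),(z1,[z6,y2,y6,y3]),(z1,[z0,z0,z0,z0,z1]),(z1,[y3,
    z1,z3,z3])],.ref k25 k0 [(z2,[z9,y1,y9]),(z1,[y3,z1,z6]),(z1,[y3,z1,z3,z3]),(z1,[z0,z0,z0,z0,z1]),(z2,[z3,y1,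
    y3])],.ref k25 k0 [(z1,[z9,z1,z0,z9,z3,y9]),(z1,[y6,z0,z3,y6,y2,z6]),(z1,[y6,z0,z0,y3,y2,z6]),(z1,[z0,z0,z0,z0,
    z1]),(z1,[z3,z0,z0,z3,z1,y3])],.ref k25 k0 [(z2,[z9,y1,z0,y9]),(z1,[y3,z1,z3,z3]),(z1,[y3,z1,z0,z6]),(z1,[z0,z0,
    z0,z0,z1]),(z2,[z3,y1,z0,y3])],.ref k25 k0 [(z1,[z9,z1,z9,z0,z3,y9]),(z1,[y6,z0,y3,z0,y2,z6]),(z1,[y6,z0,y6,z3,y2,
    z6]),(z1,[z0,z0,z0,z0,z1]),(z1,[z3,z0,z3,z0,z1,y3])],.ref k25 k0 [(z1,[z3,z1,z3,z3,z0,y3]),(z1,[y2,z0,z1,y2,z0,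
    z2]),(z1,[y2,z0,y2,z1,z0,z2]),(z1,[z0,z0,z0,z0,z1]),(z1,[z1,z0,z1,z1,z0,y1])],.ref k25 k0 [(z4,[z9,z1,z0,z0,y3]),
    (z2,[y3,z1,z6,z0,z1]),(z2,[y3,z1,z0,z6,z1]),(z1,[z0,z0,z0,z0,z1]),(z4,[z3,y1,z0,z0,y1])],.ref k25 k0 [(z5,[z9,
    z2]),(z5,[y6,z2,z15]),(z5,[y6,z2,z0,z15]),(z1,[z0,z0,z0,z0,z1]),(z5,[z3,y1])],.ref k25 k0 [(z4,[z9,z4,z9,z9,z3,
    y9]),(z2,[y3,z0,z3,y3,y1,z3]),(z2,[y3,z0,y3,z3,y1,z3]),(z1,[z0,z0,z0,z0,z1]),(z4,[z3,z0,z3,z3,z1,y3])],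
    .ref k25 k0 [(z1,[z3,z2,z6,z6,z2,y6]),(z3,[y6,y2,y3,y12,y4,z12]),(z3,[y6,y2,y12,y3,y4,z12]),(z1,[z0,z0,z0,z0,z1]),
    (z3,[z3,z1,z6,z6,z2,y6])],.ref k25 k0 [(z2,[y3,z2,z9]),(z1,[z1]),(z1,[z1,z0,y3,z3]),(z1,[z0,z0,z0,z0,z1]),(z2,[y1,
    z0,z3])],.ref k25 k0 [(z2,[y3,z2,z6,z3]),(z1,[z1,z0,z1,y1]),(z1,[z1,z0,y2,z2]),(z1,[z0,z0,z0,z0,z1]),(z2,[y1,z0,
    z2,z1])],.ref k25 k0 [(z4,[y9,z4,z18,z0,z3]),(z2,[z3,z0,z0,z0,y1]),(z2,[z3,z0,y6,z6,y1]),(z1,[z0,z0,z0,z0,z1]),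
    (z4,[y3,z0,z6,z0,z1])],.ref k25 k0 [(z1,[y3,z1,z6]),(z1,[z2,z0,y1]),(z1,[z2,z0,y4,z3]),(z1,[z0,z0,z0,z0,z1]),(z1,
    [y1,z0,z2])],.ref k25 k0 [(z4,[y9,z1,z9,y9,y3,z9]),(z2,[z3,z1,z3,z3,z1,y3]),(z2,[z3,z1,y3,z9,z1,y3]),(z1,[z0,z0,
    z0,z0,z1]),(z4,[y3,y1,z3,y3,y1,z3])],.ref k25 k0 [(z1,[y3,z1,z3,z3]),(z1,[z2,z0,z1,y2]),(z1,[z2,z0,y2,z1]),(z1,
    [z0,z0,z0,z0,z1]),(z1,[y1,z0,z1,z1])],.ref k25 k0 [(z4,[y9,z1,z0,z0,y3,z9]),(z2,[z3,z1,z6,z0,z1,y3]),(z2,[z3,z1,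
    z0,z6,z1,y3]),(z1,[z0,z0,z0,z0,z1]),(z4,[y3,y1,z0,z0,y1,z3])],.ref k25 k0 [(z2,[y9,y1,z0,y9,z0,z9]),(z1,[z3,z1,z3,
    z3,z0,y3]),(z1,[z3,z1,z0,z6,z0,y3]),(z1,[z0,z0,z0,z0,z1]),(z2,[y3,y1,z0,y3,z0,z3])],.ref k25 k0 [(z1,[y9,y2,z0,y9,
    y3,z9]),(z1,[z6,z2,z3,z6,z2,y6]),(z1,[z6,z2,z0,z9,z2,y6]),(z1,[z0,z0,z0,z0,z1]),(z1,[y3,y1,z0,y3,y1,z3])],
    .ref k25 k0 [(z2,[y9,y4,y9,y18,y6,z18]),(z1,[z3,z2,z6,z6,z2,y6]),(z1,[z3,z2,z3,z9,z2,y6]),(z1,[z0,z0,z0,z0,z1]),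
    (z2,[y3,y2,y3,y6,y2,z6])],.ref k25 k0 [(z1,[y9,y2,y9,z0,y3,z9]),(z1,[z6,z2,z9,z0,z2,y6]),(z1,[z6,z2,z6,z3,z2,y6]),
    (z1,[z0,z0,z0,z0,z1]),(z1,[y3,y1,y3,z0,y1,z3])],.ref k25 k0 [(z2,[y9,y4,y18,y9,y6,z18]),(z1,[z3,z2,z9,z3,z2,y6]),
    (z1,[z3,z2,z6,z6,z2,y6]),(z1,[z0,z0,z0,z0,z1]),(z2,[y3,y2,y6,y3,y2,z6])],.ref k25 k0 [(z1,[z9,z7,z18,z18,z6,y18]),
    (z1,[y6,y4,y9,y12,y4,z12]),(z1,[y6,y4,y12,y9,y4,z12]),(z1,[z0,z0,z0,z0,z1]),(z1,[z3,z2,z6,z6,z2,y6])]],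
    .lp k0 [(nat_lit 856),(nat_lit 866),(nat_lit 902),(nat_lit 962),(nat_lit 940),(nat_lit 732)] [k53,k53,k48,k48,k30,
    k30,k0,k0,k11,k11,k115,k115] k0 [[k0,k0,k36,k0,k14,k0,k42,k0,k0,k0,k0,k134],[k0,k0,k0,k0,k0,k0,k28,k0,k0,k0,k0,
    k134],[k0,k0,k0,k0,k38,k38,k0,k0,k0,k32,k72,k38],[k0,k36,k6,k0,k0,k0,k0,k0,k0,k0,k0,k0],[k0,k0,k0,k38,k0,k0,k0,k0,
    k0,k10,k12,k0],[k0,k14,k0,k38,k0,k0,k0,k0,k0,k76,k34,k0],[k0,k0,k0,k0,k0,k0,k0,k28,k28,k28,k0,k0],[k28,k42,k0,k0,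
    k0,k0,k0,k0,k0,k0,k12,k0],[k0,k0,k0,k32,k76,k10,k0,k28,k0,k0,k0,k0],[k0,k0,k0,k0,k0,k0,k0,k28,k0,k0,k0,k0],[k134,
    k134,k0,k38,k0,k0,k0,k0,k0,k0,k0,k62],[k0,k0,k0,k72,k34,k12,k12,k0,k0,k0,k0,k0]] (nat_lit 2640) k5
    [[(k2,(nat_lit 789)),(k10,(nat_lit 794)),(k11,(nat_lit 794)),(k4,(nat_lit 867)),(k7,(nat_lit 875)),(k9,
    (nat_lit 886)),(k8,(nat_lit 898)),(k6,(nat_lit 909)),(k5,(nat_lit 917)),(k1,(nat_lit 918)),(k0,(nat_lit 990)),(k3,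
    (nat_lit 995))],[(k10,(nat_lit 660)),(k11,(nat_lit 794)),(k5,(nat_lit 843)),(k0,(nat_lit 856)),(k9,(nat_lit 856)),
    (k2,(nat_lit 861)),(k3,(nat_lit 861)),(k4,(nat_lit 879)),(k7,(nat_lit 895)),(k8,(nat_lit 898)),(k6,(nat_lit 937)),
    (k1,(nat_lit 990))],[(k10,(nat_lit 665)),(k11,(nat_lit 799)),(k0,(nat_lit 861)),(k3,(nat_lit 866)),(k9,
    (nat_lit 875)),(k5,(nat_lit 884)),(k4,(nat_lit 898)),(k2,(nat_lit 902)),(k8,(nat_lit 903)),(k7,(nat_lit 914)),(k6,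
    (nat_lit 956)),(k1,(nat_lit 995))],[(k10,(nat_lit 761)),(k1,(nat_lit 789)),(k11,(nat_lit 799)),(k4,(nat_lit 846)),
    (k0,(nat_lit 861)),(k8,(nat_lit 871)),(k2,(nat_lit 872)),(k7,(nat_lit 876)),(k5,(nat_lit 884)),(k3,(nat_lit 902)),
    (k9,(nat_lit 903)),(k6,(nat_lit 914))],[(k0,(nat_lit 843)),(k11,(nat_lit 849)),(k2,(nat_lit 884)),(k3,
    (nat_lit 884)),(k10,(nat_lit 889)),(k5,(nat_lit 896)),(k1,(nat_lit 917)),(k8,(nat_lit 921)),(k9,(nat_lit 921)),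
    (k6,(nat_lit 932)),(k4,(nat_lit 940)),(k7,(nat_lit 970))],[(k2,(nat_lit 846)),(k10,(nat_lit 851)),(k1,
    (nat_lit 867)),(k0,(nat_lit 879)),(k11,(nat_lit 893)),(k3,(nat_lit 898)),(k4,(nat_lit 902)),(k8,(nat_lit 911)),
    (k9,(nat_lit 921)),(k6,(nat_lit 932)),(k7,(nat_lit 932)),(k5,(nat_lit 940))],[(k11,(nat_lit 857)),(k10,
    (nat_lit 859)),(k1,(nat_lit 875)),(k8,(nat_lit 875)),(k2,(nat_lit 876)),(k0,(nat_lit 895)),(k3,(nat_lit 914)),(k4,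
    (nat_lit 932)),(k9,(nat_lit 951)),(k6,(nat_lit 962)),(k7,(nat_lit 962)),(k5,(nat_lit 970))],[(k11,(nat_lit 819)),
    (k10,(nat_lit 859)),(k1,(nat_lit 909)),(k2,(nat_lit 914)),(k8,(nat_lit 923)),(k4,(nat_lit 932)),(k5,
    (nat_lit 932)),(k6,(nat_lit 934)),(k0,(nat_lit 937)),(k9,(nat_lit 951)),(k3,(nat_lit 956)),(k7,(nat_lit 962))],
    [(k10,(nat_lit 836)),(k0,(nat_lit 856)),(k11,(nat_lit 864)),(k3,(nat_lit 875)),(k1,(nat_lit 886)),(k2,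
    (nat_lit 903)),(k4,(nat_lit 921)),(k5,(nat_lit 921)),(k6,(nat_lit 951)),(k7,(nat_lit 951)),(k8,(nat_lit 968)),(k9,
    (nat_lit 968))],[(k10,(nat_lit 836)),(k11,(nat_lit 836)),(k2,(nat_lit 871)),(k7,(nat_lit 875)),(k0,(nat_lit 898)),
    (k1,(nat_lit 898)),(k3,(nat_lit 903)),(k4,(nat_lit 911)),(k5,(nat_lit 921)),(k6,(nat_lit 923)),(k8,(nat_lit 940)),
    (k9,(nat_lit 968))],[(k10,(nat_lit 732)),(k11,(nat_lit 732)),(k0,(nat_lit 794)),(k1,(nat_lit 794)),(k2,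
    (nat_lit 799)),(k3,(nat_lit 799)),(k6,(nat_lit 819)),(k8,(nat_lit 836)),(k5,(nat_lit 849)),(k7,(nat_lit 857)),(k9,
    (nat_lit 864)),(k4,(nat_lit 893))],[(k0,(nat_lit 660)),(k3,(nat_lit 665)),(k10,(nat_lit 670)),(k11,(nat_lit 732)),
    (k2,(nat_lit 761)),(k1,(nat_lit 794)),(k8,(nat_lit 836)),(k9,(nat_lit 836)),(k4,(nat_lit 851)),(k6,(nat_lit 859)),
    (k7,(nat_lit 859)),(k5,(nat_lit 889))]]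
    [[k2,k0,k0,k0,k0,k1],[k1,k2,k0,k0,k0,k0],[k1,k1,k1,k0,k0,k0],[k1,k1,k0,k0,k1,k0],[k1,k1,k0,k0,k0,k1],[k1,k0,k1,k0,
    k0,k1],[k1,k0,k0,k1,k0,k1],[k1,k0,k0,k0,k1,k1],[k1,k0,k0,k0,k0,k2],[k0,k2,k1,k0,k0,k0],[k0,k2,k0,k0,k0,k1],[k0,k1,
    k1,k0,k0,k1],[k0,k1,k0,k1,k0,k1],[k0,k1,k0,k0,k1,k1],[k0,k1,k0,k0,k0,k2],[k0,k0,k1,k0,k1,k1],[k0,k0,k1,k0,k0,k2],
    [k0,k0,k0,k1,k1,k1],[k0,k0,k0,k1,k0,k2],[k0,k0,k0,k0,k1,k2],[k0,k0,k0,k0,k0,k3]]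
    [.ref k25 k0 [(z1,[z1,z1]),(z1,[z0,z0,z1]),(z2,[y1,z2,z0,z3]),(z4,[z1,y2,z0,z0,z3]),(z4,[y7,z2,y4,y6,y3,z12])],
    .ref k25 k0 [(z1,[z3,z0,y2]),(z1,[z0,z0,z1]),(z2,[y3,z3,z2,z3]),(z4,[z3,y3,y2,z0,z3]),(z4,[y21,z9,z10,y6,y3,
    z12])],.ref k25 k0 [(z1,[z6,y3,y2,y3]),(z1,[z0,z0,z1]),(z1,[y3,z3,z1,z3]),(z4,[z6,y6,y2,y3,z3]),(z4,[y42,z30,z10,
    z15,y3,z12])],.ref k25 k0 [(z1,[y4,z3,z0,y2,y1,z4]),(z1,[z0,z0,z1]),(z2,[z4,z0,z0,z5,z1,y4]),(z2,[y2,z0,z0,y1,z1,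
    z2]),(z1,[z7,y3,y1,z2,z1,y4])],.ref k25 k0 [(z2,[z3,z3,y1]),(z1,[z0,z0,z1]),(z4,[y3,z3,z1,z6]),(z8,[z3,y3,y1,z0,
    z6]),(z8,[y21,y3,y1,y12,y6,z24])],.ref k25 k0 [(z1,[z2,z1,z0,y1]),(z1,[z0,z0,z1]),(z1,[y1,z1,z0,z2]),(z4,[z2,y2,
    z0,y1,z3]),(z4,[y14,z2,y4,z1,y3,z12])],.ref k25 k0 [(z3,[z4,z5,z0,z0,y1]),(z1,[z0,z0,z1]),(z6,[y4,z4,z0,z9,z1]),
    (z3,[z1,y1,z0,z0,z2]),(z6,[y14,y4,y6,y9,y1,z18])],.ref k25 k0 [(z1,[z12,z3,z4,z6,z3,y12]),(z1,[z0,z0,z1]),(z2,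
    [y12,z0,y4,y3,y3,z12]),(z2,[z6,z0,z2,z3,z3,y6]),(z1,[y21,y3,y8,y12,y6,z24])],.ref k25 k0 [(z1,[z1,z2]),(z1,[z0,z0,
    z1]),(z2,[y1,z1,z0,z3]),(z4,[z1,y1,z0,z0,z3]),(z4,[y7,y5,y4,y6,y3,z12])],.ref k25 k0 [(z1,[y6,z3,z4,z3]),(z1,[z0,
    z0,z1]),(z1,[z3,z0,y2]),(z4,[y6,z0,z4,z3,z3]),(z4,[z42,y12,y32,y27,y3,z12])],.ref k25 k0 [(z1,[z3,z3,y2]),(z1,[z0,
    z0,z1]),(z2,[y3,z0,z2,z3]),(z4,[z3,z0,y2,z0,z3]),(z4,[y21,y12,z10,y6,y3,z12])],.ref k25 k0 [(z1,[z6,z3,y2,y3]),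
    (z1,[z0,z0,z1]),(z1,[y3,z0,z1,z3]),(z4,[z6,z0,y2,y3,z3]),(z4,[y42,y12,z10,z15,y3,z12])],.ref k25 k0 [(z5,[z12,z15,
    y4,z0,y3]),(z1,[z0,z0,z1]),(z10,[y12,z0,z4,z15,z3]),(z5,[z3,z0,y1,z0,z3]),(z10,[y42,y30,z4,y15,z3,z30])],
    .ref k25 k0 [(z1,[y4,y1,z0,y2,y1,z4]),(z1,[z0,z0,z1]),(z2,[z4,z4,z0,z5,z1,y4]),(z2,[y2,y2,z0,y1,z1,z2]),(z1,[z7,
    z4,y1,z2,z1,y4])],.ref k25 k0 [(z2,[z3,z6,y1]),(z1,[z0,z0,z1]),(z4,[y3,z0,z1,z6]),(z8,[z3,z0,y1,z0,z6]),(z8,[y21,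
    y24,y1,y12,y6,z24])],.ref k25 k0 [(z5,[y12,z3,y4,z0,y3,z12]),(z1,[z0,z0,z1]),(z10,[z12,z12,z4,z15,z3,y12]),(z5,
    [y3,y3,y1,z0,z3,z3]),(z10,[z42,z12,z4,y15,z3,y12])],.ref k25 k0 [(z1,[z2,z3,z0,y1]),(z1,[z0,z0,z1]),(z1,[y1,z0,z0,
    z2]),(z4,[z2,z0,z0,y1,z3]),(z4,[y14,y12,y4,z1,y3,z12])],.ref k25 k0 [(z1,[y6,y3,y2,y3,z0,z6]),(z1,[z0,z0,z1]),(z1,
    [z3,z3,z1,z3,z0,y3]),(z4,[y6,y6,y2,y3,z3,z6]),(z4,[z42,z30,z10,z15,y3,y30])],.ref k25 k0 [(z3,[z4,z9,z0,z0,y1]),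
    (z1,[z0,z0,z1]),(z6,[y4,z0,z0,z9,z1]),(z3,[z1,z0,z0,z0,z2]),(z6,[y14,y18,y6,y9,y1,z18])],.ref k25 k0 [(z1,[z12,
    z15,z4,z6,z3,y12]),(z1,[z0,z0,z1]),(z2,[y12,y12,y4,y3,y3,z12]),(z2,[z6,z6,z2,z3,z3,y6]),(z1,[y21,y24,y8,y12,y6,
    z24])],.ref k25 k0 [(z1,[z1,z3]),(z1,[z0,z0,z1]),(z2,[y1,z0,z0,z3]),(z4,[z1,z0,z0,z0,z3]),(z4,[y7,y12,y4,y6,y3,
    z12])]],
    .lp k0 [k76,k80,k82,k86,k84,k70] [k5,k5,k3,k3,k2,k2,k0,k0,k1,k1,k8,k8] k0 [[k0,k0,k0,k0,k0,k0,k1,k0,k0,k0,k0,k12],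
    [k0,k0,k1,k0,k0,k1,k2,k0,k0,k0,k0,k12],[k0,k0,k0,k0,k0,k0,k0,k0,k0,k2,k4,k6],[k1,k0,k0,k0,k0,k0,k2,k0,k0,k0,k0,
    k0],[k1,k0,k0,k0,k0,k0,k0,k0,k0,k0,k0,k0],[k0,k0,k0,k0,k0,k0,k0,k0,k0,k2,k4,k0],[k0,k0,k0,k0,k0,k0,k0,k1,k0,k1,k2,
    k0],[k2,k1,k2,k0,k0,k0,k0,k0,k0,k0,k1,k0],[k0,k0,k0,k2,k2,k0,k0,k1,k0,k0,k0,k0],[k0,k0,k0,k0,k0,k0,k0,k0,k0,k0,k1,
    k5],[k12,k12,k0,k6,k0,k0,k0,k0,k5,k0,k0,k7],[k0,k0,k0,k4,k4,k0,k1,k2,k1,k0,k0,k0]] (nat_lit 240) k5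
    [[(k11,k72),(k10,k73),(k2,k74),(k7,k77),(k4,k79),(k6,k79),(k9,k79),(k1,k83),(k5,k85),(k8,k85),(k0,k88),(k3,k90)],
    [(k10,k61),(k11,k73),(k0,k76),(k3,k78),(k2,k79),(k4,k79),(k5,k79),(k9,k79),(k8,k80),(k7,k82),(k6,k83),(k1,k88)],
    [(k10,k63),(k11,k75),(k0,k78),(k2,k80),(k3,k80),(k4,k80),(k5,k80),(k9,k80),(k8,k82),(k7,k83),(k6,k84),(k1,k90)],
    [(k10,k69),(k1,k74),(k11,k75),(k0,k79),(k2,k80),(k3,k80),(k8,k80),(k4,k81),(k5,k81),(k9,k82),(k7,k83),(k6,k85)],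
    [(k11,k78),(k0,k79),(k3,k80),(k10,k80),(k2,k81),(k9,k81),(k4,k82),(k5,k82),(k8,k83),(k6,k84),(k7,k84),(k1,k85)],
    [(k11,k78),(k0,k79),(k1,k79),(k3,k80),(k10,k80),(k2,k81),(k4,k82),(k5,k82),(k8,k83),(k9,k83),(k6,k84),(k7,k84)],
    [(k1,k77),(k10,k78),(k11,k78),(k0,k82),(k2,k83),(k3,k83),(k8,k83),(k4,k84),(k5,k84),(k9,k85),(k6,k86),(k7,k86)],
    [(k11,k78),(k1,k79),(k10,k79),(k0,k83),(k3,k84),(k4,k84),(k5,k84),(k8,k84),(k2,k85),(k6,k85),(k9,k85),(k7,k86)],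
    [(k11,k78),(k0,k79),(k1,k79),(k10,k79),(k3,k80),(k5,k81),(k2,k82),(k4,k83),(k8,k84),(k6,k85),(k7,k85),(k9,k85)],
    [(k11,k77),(k10,k78),(k0,k80),(k2,k80),(k3,k82),(k4,k83),(k5,k83),(k7,k83),(k6,k84),(k8,k84),(k9,k84),(k1,k85)],
    [(k10,k65),(k11,k70),(k1,k72),(k0,k73),(k2,k75),(k3,k75),(k8,k77),(k4,k78),(k5,k78),(k6,k78),(k7,k78),(k9,k78)],
    [(k0,k61),(k3,k63),(k10,k63),(k11,k65),(k2,k69),(k1,k73),(k7,k78),(k8,k78),(k6,k79),(k9,k79),(k4,k80),(k5,k80)]]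
    [[k2,k0,k0,k0,k0,k1],[k1,k2,k0,k0,k0,k0],[k1,k1,k1,k0,k0,k0],[k1,k1,k0,k0,k1,k0],[k1,k1,k0,k0,k0,k1],[k1,k0,k1,k0,
    k0,k1],[k2,k0,k0,k1,k0,k0],[k1,k0,k0,k1,k0,k1],[k1,k0,k0,k0,k1,k1],[k1,k0,k0,k0,k0,k2],[k0,k2,k0,k0,k0,k1],[k0,k1,
    k1,k0,k0,k1],[k0,k1,k0,k1,k0,k1],[k0,k1,k0,k0,k1,k1],[k0,k1,k0,k0,k0,k2],[k0,k0,k1,k0,k1,k1],[k0,k0,k1,k0,k0,k2],
    [k0,k0,k0,k1,k0,k2],[k0,k0,k0,k0,k1,k2],[k0,k0,k0,k0,k0,k3]]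
    [.ref (nat_lit 285) k6 [(z1,[y3,z2]),(z1,[z3,y1]),(z1,[z0,z0,z1]),(z1,[z0,z0,z0,z1])],.ref (nat_lit 244) k8 [(z1,
    [z0,z0,y1,z1]),(z1,[z0,y1,y3,y3,z3]),(z1,[z0,z0,z1]),(z1,[y6,z2,z9])],.ref (nat_lit 244) k8 [(z1,[z0,z0,y1,z1]),
    (z1,[z0,y1,y3,y3,z3]),(z1,[z0,z0,z1]),(z1,[y6,z2,z3,z6])],.ref (nat_lit 286) k9 [(z1,[y9,z1,z9]),(z1,[y1,z0,z1]),
    (z1,[z0,y1,y3,y3,z3]),(z1,[z2,z0,y2,z1])],.ref k33 k7 [(z1,[y6,z2,z9]),(z1,[y6,z2,z6,z3]),(z1,[z0,y1,y3,y3,z3]),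
    (z1,[z3,y1,y3])],.ref k33 k7 [(z1,[y6,z2,z3,z6]),(z1,[y6,z2,z0,z9]),(z1,[z0,y1,y3,y3,z3]),(z1,[z3,y1,z0,y3])],
    .ref (nat_lit 271) k6 [(z2,[y3,z1,y3,y3,z3]),(z2,[z3,z1,z3,z3,y3]),(z1,[z0,z0,z1]),(z1,[z0,z0,z0,z1])],
    .ref k33 k7 [(z1,[y2,z0,z1,y2,z2]),(z1,[y2,z0,y2,z1,z2]),(z1,[z0,y1,y3,y3,z3]),(z1,[z1,z0,z1,z1,y1])],
    .ref k33 k7 [(z2,[y3,z1,z6]),(z2,[y3,z1,z0,z6]),(z1,[z0,y1,y3,y3,z3]),(z4,[z3,y1])],.ref (nat_lit 287) k8 [(z1,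
    [z0,z0,y1,z1]),(z1,[z0,y1,y3,y3,z3]),(z1,[z0,z0,z1]),(z1,[z6,y2,y9])],.ref (nat_lit 288) k6 [(z1,[z1,z0,y2]),(z1,
    [y3,z1,z6]),(z1,[z0,z0,z1]),(z1,[z0,z0,z0,z1])],.ref (nat_lit 288) k6 [(z1,[z1,z0,y1,y1]),(z1,[y3,z1,z3,z3]),(z1,
    [z0,z0,z1]),(z1,[z0,z0,z0,z1])],.ref (nat_lit 286) k9 [(z1,[z9,z1,z0,z9,y9]),(z1,[z1,z0,z0,z1,y1]),(z1,[z0,y1,y3,
    y3,z3]),(z1,[y2,z0,z0,y1,z2])],.ref (nat_lit 289) k0 [(z1,[y9,z1,z9]),(z1,[z2,z0,y1]),(z1,[z2,z0,y2,z1]),(z1,[z0,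
    y1,y3,y3,z3])],.ref (nat_lit 289) k0 [(z2,[y9,z2,z9]),(z1,[z1]),(z1,[z1,z0,y1,z1]),(z1,[z0,y1,y3,y3,z3])],
    .ref (nat_lit 289) k0 [(z1,[y9,z1,z0,z9]),(z1,[z2,z0,z1,y2]),(z1,[z2,z0,z0,y1]),(z1,[z0,y1,y3,y3,z3])],
    .ref (nat_lit 289) k0 [(z2,[y9,z2,z0,z9]),(z1,[z1,z0,z1,y1]),(z1,[z1]),(z1,[z0,y1,y3,y3,z3])],
    .ref (nat_lit 290) k0 [(z2,[y3,z1,y3,y3,z3]),(z1,[z0,z0,z1]),(z1,[z0,z0,z0,z1]),(z1,[z0,y1,y3,y3,z3])],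
    .ref (nat_lit 291) k8 [(z1,[z0,z0,y1,z1]),(z1,[z0,y1,y3,y3,z3]),(z1,[z0,z0,z1]),(z1,[z2,z0,y1])],
    .ref (nat_lit 290) k0 [(z1,[y1,z1]),(z1,[z0,z0,z1]),(z1,[z0,z0,z0,z1]),(z1,[z0,y1,y3,y3,z3])]],
    .lp k0 [(nat_lit 642),(nat_lit 616),(nat_lit 652),(nat_lit 660),(nat_lit 700),(nat_lit 566)] [k29,k29,k42,k42,k24,
    k24,k20,k20,k0,k0,k67,k67] k0 [[k0,k48,k24,k0,k36,k0,k0,k0,k0,k0,k0,k46],[k0,k0,k0,k0,k8,k0,k12,k8,k32,k0,k0,k42],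
    [k0,k0,k0,k0,k8,k0,k12,k0,k0,k0,k0,k42],[k0,k24,k0,k0,k12,k0,k0,k0,k0,k0,k0,k46],[k0,k0,k0,k0,k0,k0,k48,k0,k28,
    k36,k10,k14],[k8,k36,k12,k8,k0,k0,k0,k0,k0,k0,k0,k0],[k8,k0,k0,k0,k0,k0,k0,k0,k24,k32,k0,k0],[k12,k0,k0,k12,k0,
    k48,k0,k0,k0,k0,k58,k10],[k0,k0,k0,k0,k0,k36,k0,k32,k0,k68,k154,k0],[k32,k0,k0,k0,k0,k28,k0,k24,k0,k0,k18,k0],
    [k42,k46,k46,k42,k0,k14,k10,k0,k0,k0,k0,k0],[k0,k0,k0,k0,k0,k10,k58,k0,k18,k154,k0,k0]] (nat_lit 1920) k5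
    [[(k8,(nat_lit 517)),(k11,(nat_lit 586)),(k10,(nat_lit 604)),(k9,(nat_lit 613)),(k4,(nat_lit 637)),(k1,
    (nat_lit 642)),(k6,(nat_lit 661)),(k7,(nat_lit 665)),(k2,(nat_lit 675)),(k3,(nat_lit 675)),(k0,(nat_lit 684)),(k5,
    (nat_lit 689))],[(k10,(nat_lit 558)),(k0,(nat_lit 594)),(k11,(nat_lit 604)),(k7,(nat_lit 615)),(k5,(nat_lit 623)),
    (k2,(nat_lit 629)),(k3,(nat_lit 629)),(k4,(nat_lit 655)),(k6,(nat_lit 663)),(k9,(nat_lit 679)),(k1,(nat_lit 684)),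
    (k8,(nat_lit 703))],[(k10,(nat_lit 549)),(k11,(nat_lit 559)),(k0,(nat_lit 629)),(k6,(nat_lit 630)),(k7,
    (nat_lit 630)),(k5,(nat_lit 634)),(k2,(nat_lit 640)),(k9,(nat_lit 646)),(k8,(nat_lit 658)),(k3,(nat_lit 664)),(k4,
    (nat_lit 670)),(k1,(nat_lit 675))],[(k10,(nat_lit 549)),(k11,(nat_lit 591)),(k2,(nat_lit 616)),(k0,(nat_lit 629)),
    (k7,(nat_lit 630)),(k5,(nat_lit 634)),(k6,(nat_lit 638)),(k3,(nat_lit 640)),(k4,(nat_lit 646)),(k9,(nat_lit 646)),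
    (k8,(nat_lit 658)),(k1,(nat_lit 675))],[(k10,(nat_lit 563)),(k11,(nat_lit 609)),(k0,(nat_lit 623)),(k2,
    (nat_lit 634)),(k3,(nat_lit 634)),(k7,(nat_lit 644)),(k5,(nat_lit 652)),(k4,(nat_lit 660)),(k6,(nat_lit 668)),(k8,
    (nat_lit 676)),(k9,(nat_lit 676)),(k1,(nat_lit 689))],[(k11,(nat_lit 581)),(k10,(nat_lit 595)),(k9,(nat_lit 628)),
    (k1,(nat_lit 637)),(k8,(nat_lit 640)),(k2,(nat_lit 646)),(k4,(nat_lit 652)),(k0,(nat_lit 655)),(k6,(nat_lit 656)),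
    (k7,(nat_lit 656)),(k5,(nat_lit 660)),(k3,(nat_lit 670))],[(k0,(nat_lit 615)),(k10,(nat_lit 623)),(k2,
    (nat_lit 630)),(k3,(nat_lit 630)),(k5,(nat_lit 644)),(k11,(nat_lit 649)),(k4,(nat_lit 656)),(k7,(nat_lit 660)),
    (k1,(nat_lit 665)),(k9,(nat_lit 680)),(k6,(nat_lit 708)),(k8,(nat_lit 708))],[(k11,(nat_lit 589)),(k3,
    (nat_lit 630)),(k2,(nat_lit 638)),(k8,(nat_lit 648)),(k4,(nat_lit 656)),(k6,(nat_lit 660)),(k1,(nat_lit 661)),(k0,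
    (nat_lit 663)),(k5,(nat_lit 668)),(k10,(nat_lit 671)),(k9,(nat_lit 680)),(k7,(nat_lit 708))],[(k1,(nat_lit 613)),
    (k10,(nat_lit 623)),(k4,(nat_lit 628)),(k2,(nat_lit 646)),(k3,(nat_lit 646)),(k11,(nat_lit 665)),(k5,
    (nat_lit 676)),(k0,(nat_lit 679)),(k6,(nat_lit 680)),(k7,(nat_lit 680)),(k9,(nat_lit 700)),(k8,(nat_lit 724))],
    [(k1,(nat_lit 517)),(k8,(nat_lit 632)),(k11,(nat_lit 633)),(k4,(nat_lit 640)),(k6,(nat_lit 648)),(k10,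
    (nat_lit 651)),(k2,(nat_lit 658)),(k3,(nat_lit 658)),(k5,(nat_lit 676)),(k0,(nat_lit 703)),(k7,(nat_lit 708)),(k9,
    (nat_lit 724))],[(k3,(nat_lit 559)),(k4,(nat_lit 581)),(k1,(nat_lit 586)),(k6,(nat_lit 589)),(k2,(nat_lit 591)),
    (k0,(nat_lit 604)),(k5,(nat_lit 609)),(k8,(nat_lit 633)),(k11,(nat_lit 634)),(k7,(nat_lit 649)),(k9,
    (nat_lit 665)),(k10,(nat_lit 720))],[(k2,(nat_lit 549)),(k3,(nat_lit 549)),(k0,(nat_lit 558)),(k5,(nat_lit 563)),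
    (k10,(nat_lit 566)),(k4,(nat_lit 595)),(k1,(nat_lit 604)),(k7,(nat_lit 623)),(k9,(nat_lit 623)),(k8,
    (nat_lit 651)),(k6,(nat_lit 671)),(k11,(nat_lit 720))]]
    [[k2,k0,k0,k0,k1,k0],[k2,k0,k0,k0,k0,k1],[k2,k1,k0,k0,k0,k0],[k1,k1,k0,k0,k0,k1],[k1,k1,k1,k0,k0,k0],[k1,k0,k1,k0,
    k0,k1],[k1,k0,k0,k1,k0,k1],[k1,k1,k0,k0,k1,k0],[k1,k0,k1,k0,k1,k0],[k1,k0,k0,k1,k1,k0],[k1,k0,k0,k0,k1,k1],[k1,k0,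
    k0,k0,k0,k2],[k0,k2,k0,k1,k0,k0],[k0,k2,k0,k0,k0,k1],[k0,k1,k1,k0,k0,k1],[k0,k1,k0,k1,k0,k1],[k0,k1,k0,k0,k1,k1],
    [k0,k1,k0,k0,k0,k2],[k0,k0,k2,k0,k0,k1],[k0,k0,k1,k1,k0,k1],[k0,k0,k1,k0,k1,k1],[k0,k0,k1,k0,k0,k2],[k0,k0,k0,k1,
    k0,k2],[k0,k0,k0,k0,k1,k2]]
    [.ref k25 k0 [(z3,[z4,z1]),(z3,[y2,z4,z9]),(z6,[y1,z2,z0,z9]),(z6,[y5,z10,z0,z0,z3]),(z3,[z1,y2])],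
    .ref k25 k0 [(z4,[z6,z6,z6,z3,z1,y6]),(z8,[y6,z6,z18,y3,y1,z6]),(z32,[y6,z6,y6,z45,y1,z6]),(z32,[y30,z30,y30,y15,
    z11,z30]),(z16,[z6,y6,z6,z3,z1,y6])],.ref k25 k0 [(z1,[z2,y1,y2]),(z1,[y1,z2,z4]),(z4,[y1,z2,z1,z6]),(z4,[y5,z10,
    z5,z0,z2]),(z2,[z1,y2,y1])],.ref k25 k0 [(z1,[z6,z3,z0,z3,z1,y6]),(z2,[y6,z0,z6,y3,y1,z6]),(z8,[y6,z0,z0,z9,y1,
    z6]),(z8,[y30,z0,z0,y15,y1,z30]),(z4,[z6,z0,z0,z3,z1,y6])],.ref k25 k0 [(z1,[z8,y5,y8,y4]),(z1,[y4,z4,z7,z2]),(z1,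
    [y1,z1,z1,z2]),(z2,[y10,z10,z10,z5,z1]),(z1,[z2,y2,y2,y1])],.ref k25 k0 [(z7,[z24,z21,z24,z0,z4,y24]),(z7,[y12,z0,
    z9,z0,y2,z12]),(z14,[y6,z0,y6,z21,y1,z6]),(z7,[y15,z0,y15,z0,z1,z15]),(z7,[z6,z0,z6,z0,z1,y6])],.ref k25 k0 [(z1,
    [z8,z3,z8,z4,z0,y8]),(z1,[y4,z0,y1,y2,z0,z4]),(z1,[y1,z0,y1,z1,z0,z1]),(z2,[y10,z0,y10,y5,z1,z10]),(z1,[z2,z0,z2,
    z1,z0,y2])],.ref k25 k0 [(z1,[z4,y1,y4]),(z1,[y2,z2,z5]),(z2,[y1,z1,z1,z3]),(z2,[y5,z5,z5,z0,z1]),(z1,[z1,y1,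
    y1])],.ref k25 k0 [(z3,[z8,z1,z0,y4]),(z3,[y4,z4,z9,z2]),(z3,[y1,z1,z0,z5]),(z6,[y10,z10,z0,z5,z3]),(z3,[z2,y2,z0,
    y1])],.ref k25 k0 [(z5,[z24,y9,z0,z0,y4]),(z5,[y12,z12,z15,z0,z2]),(z10,[y6,z6,z0,z15,z1]),(z1,[y3,z3,z0,z0,z1]),
    (z5,[z6,y6,z0,z0,y1])],.ref k25 k0 [(z5,[z12,z15,z12,z6,z2,y12]),(z5,[y6,z0,z9,y3,y1,z6]),(z20,[y6,z0,y6,z27,y1,
    z6]),(z4,[y6,z0,y6,y3,z1,z6]),(z10,[z6,z0,z6,z3,z1,y6])],.ref k25 k0 [(z1,[z3,z6,z6,z3,z1,y6]),(z2,[y3,y3,z0,y3,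
    y1,z6]),(z8,[y3,y3,y6,z9,y1,z6]),(z8,[y15,y15,y30,y15,y1,z30]),(z4,[z3,z3,z6,z3,z1,y6])],.ref k25 k0 [(z13,[y24,
    z39,z48,z0,z4]),(z13,[z12,z0,z15,z0,y2]),(z26,[z6,z0,y12,z39,y1]),(z13,[z15,z0,y30,z0,z4]),(z13,[y6,z0,z12,z0,
    z1])],.ref k25 k0 [(z2,[y6,z0,z6,y3,y1,z6]),(z4,[z6,z6,z6,z3,z1,y6]),(z16,[z6,z6,y6,z27,z1,y6]),(z16,[z30,z30,y30,
    z15,z13,y30]),(z8,[y6,y6,z6,y3,y1,z6])],.ref k25 k0 [(z5,[y24,y9,z0,z0,y4,z24]),(z5,[z12,z12,z15,z0,z2,y12]),(z10,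
    [z6,z6,z0,z15,z1,y6]),(z1,[z3,z3,z0,z0,z1,y3]),(z5,[y6,y6,z0,z0,y1,z6])],.ref k25 k0 [(z3,[y8,z1,z0,y4,z0,z8]),
    (z3,[z4,z4,z9,z2,z0,y4]),(z3,[z1,z1,z0,z5,z0,y1]),(z6,[z10,z10,z0,z5,z3,y10]),(z3,[y2,y2,z0,y1,z0,z2])],
    .ref k25 k0 [(z1,[y12,y9,z0,y6,y2,z12]),(z1,[z6,z6,z3,z3,z1,y6]),(z4,[z6,z6,z0,z9,z1,y6]),(z4,[z30,z30,z0,z15,z7,
    y30]),(z2,[y6,y6,z0,y3,y1,z6])],.ref k25 k0 [(z1,[y6,y9,y6,y6,y2,z12]),(z1,[z3,z6,z6,z3,z1,y6]),(z4,[z3,z6,z3,z9,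
    z1,y6]),(z4,[z15,z30,z15,z15,z7,y30]),(z2,[y3,y6,y3,y3,y1,z6])],.ref k25 k0 [(z1,[y12,y9,y12,z6,y2,z12]),(z1,[z6,
    z6,z9,y3,z1,y6]),(z4,[z6,z6,z6,z3,z1,y6]),(z4,[z30,z30,z30,y15,z7,y30]),(z2,[y6,y6,y6,z3,y1,z6])],
    .ref k25 k0 [(z1,[y4,y1,y4,z0,z0,z4]),(z1,[z2,z2,z5,z0,z0,y2]),(z2,[z1,z1,z1,z3,z0,y1]),(z2,[z5,z5,z5,z0,z1,y5]),
    (z1,[y1,y1,y1,z0,z0,z1])],.ref k25 k0 [(z1,[z24,z27,z24,z0,z4,y24]),(z1,[y12,y12,y9,z0,y2,z12]),(z2,[y6,y6,y6,z3,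
    y1,z6]),(z1,[y15,y15,y15,z0,y2,z15]),(z1,[z6,z6,z6,z0,z1,y6])],.ref k25 k0 [(z1,[y24,y45,y48,y12,y8,z48]),(z1,
    [z12,z24,z27,z6,z4,y24]),(z1,[z3,z6,z6,z3,z1,y6]),(z2,[z30,z60,z60,z15,z11,y60]),(z1,[y6,y12,y12,y3,y2,z12])],
    .ref k25 k0 [(z5,[y24,y33,y48,y24,y4,z48]),(z5,[z12,z24,z39,z12,z2,y24]),(z10,[z6,z12,z12,z21,z1,y12]),(z1,[z3,z6,
    z6,z3,z1,y6]),(z5,[y6,y12,y12,y6,y1,z12])],.ref k25 k0 [(z1,[z12,z27,z24,z12,z4,y24]),(z1,[y6,y12,y9,y6,y2,z12]),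
    (z2,[y3,y6,y6,z0,y1,z6]),(z2,[y15,y30,y30,y15,y4,z30]),(z1,[z3,z6,z6,z3,z1,y6])]],
    .base (.leafM k3 [k4,k5,k0,k1,k2,k3] [(z1,[y1,z0,z0,y1,z1])] []),
    .base (.leafM k0 [k1,k2,k3,k4,k5,k0] [(z2,[z0,z0,z1,z1])] []),
    .base (.leafM k0 [k2,k3,k4,k5,k0,k1] [(z2,[y1,y2,y1,z0,z2])] []),
    .base (.leafM k0 [k0,k1,k2,k3,k4,k5] [(z3,[z0,z1,z1,z3])] []),
    .lp k0 [k158,k160,k158,k166,k180,k136] [k11,k11,k10,k10,k11,k11,k7,k7,k0,k0,k22,k22] k0 [[k0,k0,k0,k4,k2,k0,k0,k0,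
    k0,k0,k0,k6],[k0,k0,k0,k0,k6,k0,k0,k4,k4,k0,k0,k6],[k0,k4,k0,k0,k6,k0,k0,k4,k4,k0,k0,k6],[k0,k0,k0,k0,k2,k0,k0,k0,
    k0,k0,k0,k6],[k0,k0,k0,k0,k0,k0,k12,k0,k4,k42,k0,k4],[k6,k2,k2,k6,k0,k0,k2,k0,k0,k0,k0,k0],[k4,k0,k0,k4,k0,k0,k0,
    k0,k0,k20,k0,k0],[k0,k0,k0,k0,k2,k12,k0,k0,k0,k0,k12,k6],[k0,k0,k0,k0,k0,k42,k0,k20,k0,k30,k42,k0],[k4,k0,k0,k4,
    k0,k4,k0,k0,k0,k0,k0,k0],[k6,k6,k6,k6,k0,k4,k6,k0,k0,k0,k0,k0],[k0,k0,k0,k0,k0,k0,k12,k0,k0,k42,k0,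
    k0]] (nat_lit 480) k5
    [[(k8,k127),(k10,k147),(k11,k147),(k9,k157),(k1,k158),(k4,k158),(k0,k164),(k5,k164),(k2,k165),(k3,k165),(k7,k166),
    (k6,k168)],[(k10,k141),(k11,k147),(k2,k155),(k0,k158),(k5,k158),(k3,k159),(k7,k160),(k6,k162),(k1,k164),(k4,k164),
    (k8,k173),(k9,k173)],[(k10,k142),(k11,k144),(k7,k157),(k0,k159),(k6,k159),(k2,k160),(k3,k160),(k4,k161),(k5,k163),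
    (k1,k165),(k8,k170),(k9,k170)],[(k10,k142),(k11,k144),(k0,k155),(k7,k157),(k5,k159),(k6,k159),(k2,k160),(k3,k160),
    (k4,k161),(k1,k165),(k8,k170),(k9,k170)],[(k10,k141),(k11,k147),(k0,k158),(k5,k158),(k2,k159),(k7,k160),(k6,k162),
    (k3,k163),(k1,k164),(k4,k164),(k8,k173),(k9,k173)],[(k8,k127),(k10,k143),(k11,k143),(k9,k157),(k1,k158),(k4,k158),
    (k2,k161),(k3,k161),(k7,k162),(k0,k164),(k5,k164),(k6,k164)],[(k10,k151),(k2,k157),(k3,k157),(k0,k160),(k5,k160),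
    (k4,k162),(k1,k166),(k7,k166),(k9,k171),(k8,k177),(k6,k178),(k11,k193)],[(k11,k151),(k8,k153),(k2,k159),(k3,k159),
    (k0,k162),(k5,k162),(k10,k163),(k4,k164),(k6,k166),(k1,k168),(k9,k173),(k7,k178)],[(k10,k152),(k1,k157),(k4,k157),
    (k2,k170),(k3,k170),(k7,k171),(k0,k173),(k5,k173),(k6,k173),(k11,k178),(k8,k180),(k9,k180)],[(k1,k127),(k4,k127),
    (k8,k150),(k6,k153),(k10,k158),(k11,k158),(k2,k170),(k3,k170),(k0,k173),(k5,k173),(k7,k177),(k9,k180)],[(k4,k143),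
    (k2,k144),(k3,k144),(k0,k147),(k1,k147),(k5,k147),(k6,k151),(k8,k158),(k11,k166),(k9,k178),(k10,k178),(k7,k193)],
    [(k10,k136),(k0,k141),(k5,k141),(k2,k142),(k3,k142),(k4,k143),(k1,k147),(k7,k151),(k9,k152),(k8,k158),(k6,k163),
    (k11,k178)]]
    [[k2,k0,k0,k0,k1,k0],[k2,k0,k0,k0,k0,k1],[k2,k1,k0,k0,k0,k0],[k1,k1,k0,k0,k0,k1],[k1,k1,k1,k0,k0,k0],[k1,k0,k1,k0,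
    k0,k1],[k1,k0,k1,k0,k1,k0],[k1,k0,k0,k1,k0,k1],[k1,k1,k0,k0,k1,k0],[k1,k0,k0,k1,k1,k0],[k1,k0,k0,k0,k1,k1],[k1,k0,
    k0,k0,k0,k2],[k0,k2,k0,k1,k0,k0],[k0,k2,k0,k0,k0,k1],[k0,k1,k1,k0,k0,k1],[k0,k1,k1,k0,k1,k0],[k0,k1,k0,k1,k0,k1],
    [k0,k1,k0,k0,k1,k1],[k0,k1,k0,k0,k0,k2],[k0,k0,k2,k0,k1,k0],[k0,k0,k2,k0,k0,k1],[k0,k0,k1,k1,k1,k0],[k0,k0,k1,k1,
    k0,k1],[k0,k0,k1,k0,k1,k1],[k0,k0,k1,k0,k0,k2],[k0,k0,k0,k0,k1,k2]]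
    [.ref k25 k0 [(z5,[z12,z3,z4,z4,z12,y12]),(z1,[z0,z0,z1]),(z1,[z0,z0,z0,z1]),(z5,[y6,z6,y2,y2,z9,z6]),(z5,[y9,y6,
    y8,y8,y24,z24])],.ref k25 k0 [(z3,[z4,z1]),(z1,[z0,z0,z1]),(z1,[z0,z0,z0,z1]),(z3,[y2,z4,z0,z0,z9]),(z1,[y1,y1,y1,
    y1,y3,z3])],.ref k25 k0 [(z2,[z3,z0,y1]),(z1,[z0,z0,z1]),(z1,[z0,z0,z0,z1]),(z4,[y3,z6,z1,z0,z12]),(z8,[y9,y6,y5,
    y8,y24,z24])],.ref k25 k0 [(z5,[z12,z3,y4]),(z1,[z0,z0,z1]),(z1,[z0,z0,z0,z1]),(z5,[y6,z6,z2,z0,z15]),(z5,[y9,y6,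
    y2,y5,y15,z15])],.ref k25 k0 [(z1,[z3,z0,y1,y1]),(z1,[z0,z0,z1]),(z1,[z0,z0,z0,z1]),(z2,[y3,z3,z1,z1,z6]),(z4,[y9,
    y3,y1,y1,y12,z12])],.ref k25 k0 [(z5,[z12,z3,z0,y4]),(z1,[z0,z0,z1]),(z1,[z0,z0,z0,z1]),(z5,[y6,z6,z0,z2,z15]),
    (z5,[y9,y6,y5,y2,y15,z15])],.ref k25 k0 [(z1,[z12,z3,z4,z0,z12,y12]),(z1,[z0,z0,z1]),(z1,[z0,z0,z0,z1]),(z1,[y6,
    z0,y2,z0,y3,z6]),(z1,[y9,y3,y4,y1,y12,z12])],.ref k25 k0 [(z1,[z4,y1,z0,z0,y4]),(z1,[z0,z0,z1]),(z1,[z0,z0,z0,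
    z1]),(z1,[y2,z2,z0,z0,z5]),(z1,[y3,z0,y1,y1,z0,z3])],.ref k25 k0 [(z1,[z12,z3,z0,z4,z12,y12]),(z1,[z0,z0,z1]),(z1,
    [z0,z0,z0,z1]),(z1,[y6,z0,z0,y2,y3,z6]),(z1,[y9,y3,y1,y4,y12,z12])],.ref k25 k0 [(z1,[y12,z3,y4,y4,z0,z12]),(z1,
    [z0,z0,z1]),(z1,[z0,z0,z0,z1]),(z1,[z6,z0,z2,z2,z3,y6]),(z1,[z9,y3,z2,z2,y3,y6])],.ref k25 k0 [(z1,[z6,z3,z2,z2,
    z6,y6]),(z1,[z0,z0,z1]),(z1,[z0,z0,z0,z1]),(z1,[y3,z0,y1,y1,z0,z3]),(z2,[y9,y6,y5,y5,y15,z15])],.ref k25 k0 [(z1,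
    [z2,z1]),(z1,[z0,z0,z1]),(z1,[z0,z0,z0,z1]),(z1,[y1,z1,z0,z0,z3]),(z2,[y3,y3,y2,y2,y6,z6])],.ref k25 k0 [(z1,[y6,
    z3,z4,z0,z6]),(z1,[z0,z0,z1]),(z1,[z0,z0,z0,z1]),(z1,[z3,z0,y2]),(z2,[z9,y6,y8,y2,y15,z6])],.ref k25 k0 [(z1,[z12,
    z3,y8]),(z1,[z0,z0,z1]),(z1,[z0,z0,z0,z1]),(z1,[y6,z0,z4,z0,z3]),(z1,[y9,y3,z5,y1,y3,z3])],.ref k25 k0 [(z1,[z12,
    z3,y4,y4]),(z1,[z0,z0,z1]),(z1,[z0,z0,z0,z1]),(z1,[y6,z0,z2,z2,z3]),(z1,[y9,y3,z2,z2,y3,z3])],.ref k25 k0 [(z1,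
    [y4,y1,z0,z0,y4,z4]),(z1,[z0,z0,z1]),(z1,[z0,z0,z0,z1]),(z1,[z2,z2,z0,z0,z5,y2]),(z1,[z3,z0,y1,y1])],
    .ref k25 k0 [(z1,[y12,z3,z4,z0,z12]),(z1,[z0,z0,z1]),(z1,[z0,z0,z0,z1]),(z1,[z6,z0,y2,z0,y3]),(z1,[z9,y3,y4,y1,
    y12,z3])],.ref k25 k0 [(z1,[y6,y3,z0,y2,y6,z6]),(z1,[z0,z0,z1]),(z1,[z0,z0,z0,z1]),(z1,[z3,z3,z0,z1,z6,y3]),(z2,
    [z9,z3,y2,z1,z3,y3])],.ref k25 k0 [(z1,[z6,z3,y2]),(z1,[z0,z0,z1]),(z1,[z0,z0,z0,z1]),(z1,[y3,z0,z1,z0,z3]),(z2,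
    [y9,y6,z1,y2,y6,z6])],.ref k25 k0 [(z3,[y12,y3,y4,z4,y12,z12]),(z1,[z0,z0,z1]),(z1,[z0,z0,z0,z1]),(z3,[z6,z6,z2,
    y2,z15,y6]),(z1,[z3,z0,z0,y2])],.ref k25 k0 [(z1,[z12,z3,z0,y8]),(z1,[z0,z0,z1]),(z1,[z0,z0,z0,z1]),(z1,[y6,z0,z0,
    z4,z3]),(z1,[y9,y3,y1,z5,y3,z3])],.ref k25 k0 [(z5,[y12,z3,y4,z0,z0,z12]),(z1,[z0,z0,z1]),(z1,[z0,z0,z0,z1]),(z5,
    [z6,z6,z2,z0,z15,y6]),(z5,[z9,y6,y2,y5,y15,z6])],.ref k25 k0 [(z1,[y12,z3,z0,z4,z12]),(z1,[z0,z0,z1]),(z1,[z0,z0,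
    z0,z1]),(z1,[z6,z0,z0,y2,y3]),(z1,[z9,y3,y1,y4,y12,z3])],.ref k25 k0 [(z1,[y6,y3,y2,z0,y6,z6]),(z1,[z0,z0,z1]),
    (z1,[z0,z0,z0,z1]),(z1,[z3,z3,z1,z0,z6,y3]),(z2,[z9,z3,z1,y2,z3,y3])],.ref k25 k0 [(z1,[z6,z3,z0,y2]),(z1,[z0,z0,
    z1]),(z1,[z0,z0,z0,z1]),(z1,[y3,z0,z0,z1,z3]),(z2,[y9,y6,y2,z1,y6,z6])],.ref k25 k0 [(z1,[y12,y9,y4,y4,y12,z12]),
    (z1,[z0,z0,z1]),(z1,[z0,z0,z0,z1]),(z1,[z6,z6,z2,z2,z9,y6]),(z1,[z9,z6,z2,z2,z6,y6])]],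
    .base (.leafM k1 [k0,k1,k2,k3,k4,k5] [(z1,[z0,z1,z0,z1]),(z1,[z0,y1,z0,y1,z1])] [])]

theorem hB6_171_24 : blkB [0, 0, 0, 0, 0, 0] [] sp6 hS6_171 (pcls (n := 6) [0, 0, 0, 0, 0, 0]) hD6_171 560 24 hN6_171_24 = true := by
  decide +kernel

/-- nodes 300 to 311 -/
noncomputable def hN6_171_25 : List HM :=
  [.lp k0 [k152,k140,k170,k188,k178,k124] [k10,k26,k26,k22,k12,k6,k0,k0,k5,k5,k32,k32] k0 [[k0,k0,k0,k0,k0,k0,k0,k2,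
    k26,k0,k0,k2],[k14,k0,k0,k10,k0,k0,k0,k0,k0,k0,k0,k14],[k10,k0,k0,k6,k0,k0,k0,k2,k0,k0,k0,k10],[k0,k0,k0,k0,k0,k0,
    k0,k6,k30,k0,k0,k2],[k0,k0,k0,k0,k0,k0,k0,k0,k0,k40,k18,k2],[k0,k0,k0,k0,k0,k0,k10,k0,k0,k0,k0,k0],[k0,k2,k6,k2,
    k0,k0,k0,k0,k0,k0,k0,k0],[k0,k0,k0,k0,k10,k0,k0,k0,k0,k0,k28,k0],[k0,k0,k0,k0,k0,k40,k0,k0,k0,k0,k26,k0],[k0,k26,
    k30,k0,k0,k0,k0,k0,k0,k0,k0,k0],[k14,k2,k2,k10,k0,k2,k0,k0,k0,k0,k0,k0],[k0,k0,k0,k0,k0,k18,k28,k0,k0,k26,k4,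
    k0]] (nat_lit 480) k5
    [[(k9,k129),(k10,k130),(k11,k130),(k8,k131),(k1,k132),(k4,k132),(k2,k138),(k3,k142),(k6,k162),(k7,k164),(k0,k166),
    (k5,k166)],[(k11,k120),(k10,k144),(k2,k152),(k3,k156),(k1,k166),(k4,k166),(k8,k173),(k9,k173),(k6,k176),(k7,k178),
    (k0,k182),(k5,k182)],[(k10,k120),(k2,k130),(k3,k130),(k11,k134),(k1,k142),(k4,k154),(k0,k156),(k5,k160),(k9,k163),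
    (k6,k166),(k7,k166),(k8,k187)],[(k10,k120),(k2,k130),(k3,k130),(k11,k130),(k1,k138),(k4,k150),(k0,k152),(k5,k156),
    (k6,k160),(k7,k162),(k9,k163),(k8,k187)],[(k11,k120),(k10,k148),(k2,k156),(k3,k160),(k1,k166),(k4,k170),(k6,k176),
    (k8,k177),(k9,k179),(k0,k182),(k5,k182),(k7,k182)],[(k8,k131),(k1,k132),(k10,k142),(k11,k144),(k2,k150),(k3,k154),
    (k4,k164),(k0,k166),(k5,k170),(k9,k171),(k7,k176),(k6,k186)],[(k2,k162),(k1,k164),(k3,k166),(k9,k173),(k10,k174),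
    (k4,k176),(k0,k178),(k5,k182),(k8,k183),(k6,k188),(k7,k188),(k11,k196)],[(k11,k156),(k2,k160),(k1,k162),(k3,k166),
    (k0,k176),(k5,k176),(k8,k183),(k9,k183),(k10,k184),(k4,k186),(k6,k188),(k7,k188)],[(k1,k129),(k10,k151),(k11,
    k151),(k2,k163),(k3,k163),(k4,k171),(k0,k173),(k7,k173),(k8,k178),(k9,k178),(k5,k179),(k6,k183)],[(k1,k131),(k4,
    k131),(k10,k151),(k11,k151),(k0,k173),(k5,k177),(k8,k178),(k9,k178),(k6,k183),(k7,k183),(k2,k187),(k3,k187)],[(k0,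
    k120),(k5,k120),(k11,k124),(k1,k130),(k2,k130),(k3,k134),(k4,k144),(k10,k150),(k8,k151),(k9,k151),(k6,k156),(k7,
    k196)],[(k2,k120),(k3,k120),(k10,k128),(k1,k130),(k4,k142),(k0,k144),(k5,k148),(k11,k150),(k8,k151),(k9,k151),(k7,
    k174),(k6,k184)]]
    [[k2,k1,k0,k0,k0,k0],[k2,k0,k0,k0,k1,k0],[k2,k0,k0,k0,k0,k1],[k1,k2,k0,k0,k0,k0],[k1,k1,k1,k0,k0,k0],[k1,k1,k0,k0,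
    k1,k0],[k1,k1,k0,k0,k0,k1],[k1,k0,k1,k0,k0,k1],[k1,k0,k1,k0,k1,k0],[k1,k0,k0,k1,k0,k1],[k1,k0,k0,k0,k1,k1],[k1,k0,
    k0,k0,k0,k2],[k0,k3,k0,k0,k0,k0],[k0,k2,k1,k0,k0,k0],[k0,k2,k0,k1,k0,k0],[k0,k2,k0,k0,k0,k1],[k0,k1,k1,k0,k0,k1],
    [k0,k1,k1,k0,k1,k0],[k0,k1,k0,k1,k0,k1],[k0,k1,k0,k0,k1,k1],[k0,k1,k0,k0,k0,k2],[k0,k0,k2,k0,k0,k1],[k0,k0,k1,k0,
    k1,k1],[k0,k0,k1,k0,k0,k2],[k0,k0,k0,k0,k1,k2],[k0,k0,k0,k0,k0,k3]]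
    [.ref k25 k0 [(z11,[z12,z9,y4]),(z11,[z9,y18,z8]),(z1,[z0,z0,z0,z1]),(z11,[y6,z12,z2,z0,z33]),(z11,[y18,z3,y5,y11,
    y33,z33])],.ref k25 k0 [(z1,[z6,y3,z2,z2,z6,y6]),(z2,[z9,y9,z5,z3,z9,y9]),(z1,[z0,z0,z0,z1]),(z1,[y3,z3,y1,y1,z0,
    z3]),(z1,[y9,z6,y4,y4,y12,z12])],.ref k25 k0 [(z3,[z4,z1]),(z1,[z1,y2,z1]),(z1,[z0,z0,z0,z1]),(z3,[y2,z4,z0,z0,
    z9]),(z1,[y2,z1,y1,y1,y3,z3])],.ref k25 k0 [(z5,[z6,z9,y4]),(z10,[z9,y9,z4]),(z1,[z0,z0,z0,z1]),(z5,[y3,z3,z2,z0,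
    z15]),(z5,[y9,y6,z1,y5,y15,z15])],.ref k25 k0 [(z7,[z12,z9,y4,y4]),(z7,[z9,y9,z4,y3]),(z1,[z0,z0,z0,z1]),(z7,[y6,
    z6,z2,z2,z21]),(z7,[y18,y3,y1,y1,y21,z21])],.ref k25 k0 [(z1,[z12,z3,z0,z4,z12,y12]),(z1,[z9,z0,z1,z3,z9,y9]),(z1,
    [z0,z0,z0,z1]),(z1,[y6,z0,z0,y2,y3,z6]),(z1,[y18,y3,y1,y7,y21,z21])],.ref k25 k0 [(z2,[z3,z3,y1]),(z8,[z9,y9,z5]),
    (z1,[z0,z0,z0,z1]),(z4,[y3,z3,z1,z0,z12]),(z4,[y9,y3,y1,y4,y12,z12])],.ref k25 k0 [(z5,[z12,z3,z0,y4]),(z5,[z9,y9,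
    z5,y3]),(z1,[z0,z0,z0,z1]),(z5,[y6,z6,z0,z2,z15]),(z5,[y18,z3,y5,z1,y15,z15])],.ref k25 k0 [(z1,[y6,z3,y2,z0,y6,
    z6]),(z2,[y9,z0,y1,z0,y9,z9]),(z1,[z0,z0,z0,z1]),(z1,[z3,z0,z1,z0,z6,y3]),(z1,[z9,y3,z2,y1,z6,y6])],
    .ref k25 k0 [(z1,[z4,y1,z0,z0,y4]),(z1,[z3,y3,z1,z0,y3]),(z1,[z0,z0,z0,z1]),(z1,[y2,z2,z0,z0,z5]),(z1,[y6,z3,y1,
    y1,z3,z3])],.ref k25 k0 [(z1,[y12,z3,y4,y4,y12,z12]),(z1,[y9,z0,y2,y3,y9,z9]),(z1,[z0,z0,z0,z1]),(z1,[z6,z0,z2,z2,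
    z9,y6]),(z1,[z18,y3,z5,z5,z15,y15])],.ref k25 k0 [(z1,[z2,z1]),(z2,[z3,y3,z2]),(z1,[z0,z0,z0,z1]),(z1,[y1,z1,z0,
    z0,z3]),(z1,[y3,z0,y1,y1,y3,z3])],.ref k25 k0 [(z3,[z4,z9,y4]),(z1,[z1]),(z1,[z0,z0,z0,z1]),(z3,[y2,z0,z2,z0,z9]),
    (z1,[y2,y3,z1,y1,y3,z3])],.ref k25 k0 [(z3,[z6,z9,y4,y2]),(z2,[z3,z0,z0,y1]),(z1,[z0,z0,z0,z1]),(z3,[y3,z0,z2,z1,
    z9]),(z1,[y3,y3,z1,z0,y3,z3])],.ref k25 k0 [(z1,[z3,z3,y2,z0,y3]),(z4,[z9,z0,y2,z0,y9]),(z1,[z0,z0,z0,z1]),(z2,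
    [y3,z0,z2,z0,z9]),(z2,[y9,y6,z4,y2,z3,z6])],.ref k25 k0 [(z7,[z12,z21,y8]),(z7,[z9,z0,z1]),(z1,[z0,z0,z0,z1]),(z7,
    [y6,z0,z4,z0,z21]),(z7,[y18,y21,z5,y7,y21,z21])],.ref k25 k0 [(z1,[z3,z3,y1,y1]),(z4,[z9,z0,z1,y3]),(z1,[z0,z0,z0,
    z1]),(z2,[y3,z0,z1,z1,z6]),(z2,[y9,y6,z1,z1,y6,z6])],.ref k25 k0 [(z1,[y4,y1,z0,z0,y4,z4]),(z1,[y3,y3,z1,z0,y3,
    z3]),(z1,[z0,z0,z0,z1]),(z1,[z2,z2,z0,z0,z5,y2]),(z1,[z6,z3,y1,y1,z3,y3])],.ref k25 k0 [(z1,[z6,z3,y2,z0,y6]),(z2,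
    [z9,z0,y1,z0,y9]),(z1,[z0,z0,z0,z1]),(z1,[y3,z0,z1,z0,z6]),(z1,[y9,y3,z2,y1,z6,z3])],.ref k25 k0 [(z1,[y6,y3,z0,
    y2,y6,z6]),(z2,[y9,y9,z2,y3,y9,z9]),(z1,[z0,z0,z0,z1]),(z1,[z3,z3,z0,z1,z6,y3]),(z1,[z9,z6,y1,z2,z6,y6])],
    .ref k25 k0 [(z5,[z12,z15,y4]),(z5,[z9,z0,z2]),(z1,[z0,z0,z0,z1]),(z5,[y6,z0,z2,z0,z15]),(z5,[y18,y15,z1,y5,y15,
    z15])],.ref k25 k0 [(z1,[z12,z3,z0,y8]),(z1,[z9,z0,z1,y6]),(z1,[z0,z0,z0,z1]),(z1,[y6,z0,z0,z4,z3]),(z1,[y18,y3,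
    y1,z11,y3,z3])],.ref k25 k0 [(z5,[y12,z3,y4,z0,y12,z12]),(z5,[y9,y9,z2,z0,y9,z9]),(z1,[z0,z0,z0,z1]),(z5,[z6,z6,
    z2,z0,z21,y6]),(z5,[z18,z3,z1,y5,z3,y3])],.ref k25 k0 [(z1,[z6,z3,z0,y2]),(z2,[z9,z0,z2,y3]),(z1,[z0,z0,z0,z1]),
    (z1,[y3,z0,z0,z1,z3]),(z1,[y9,y3,y1,z2,y3,z3])],.ref k25 k0 [(z1,[y3,z0,y1,y1,y3,z3]),(z4,[y9,y9,z1,y3,y9,z9]),
    (z1,[z0,z0,z0,z1]),(z2,[z3,z3,z1,z1,z9,y3]),(z2,[z9,z3,z1,z1,z3,y3])],.ref k25 k0 [(z1,[z4,z3]),(z1,[z3,z0,z1]),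
    (z1,[z0,z0,z0,z1]),(z1,[y2,z0,z0,z0,z3]),(z1,[y6,y3,y1,y1,y3,z3])]],
    .lp k0 [(nat_lit 474),(nat_lit 472),(nat_lit 486),(nat_lit 490),(nat_lit 486),(nat_lit 466)] [k8,k8,k9,k9,k2,k2,
    k0,k0,k2,k2,k12,k12] k0 [[k0,k0,k0,k0,k6,k6,k16,k0,k0,k0,k0,k2],[k78,k0,k0,k0,k0,k0,k4,k0,k0,k0,k0,k92],[k0,k0,k0,
    k0,k0,k0,k0,k0,k0,k2,k6,k4],[k0,k0,k0,k0,k4,k4,k8,k0,k0,k0,k0,k0],[k0,k6,k4,k0,k0,k0,k0,k0,k0,k0,k0,k0],[k0,k6,k4,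
    k0,k0,k0,k0,k0,k0,k0,k4,k0],[k0,k0,k0,k0,k0,k0,k0,k2,k2,k2,k0,k0],[k4,k16,k8,k0,k0,k0,k0,k0,k0,k0,k2,k0],[k0,k0,
    k0,k2,k0,k0,k0,k2,k0,k0,k70,k0],[k0,k0,k0,k0,k0,k0,k0,k2,k0,k0,k0,k0],[k92,k2,k0,k4,k0,k0,k0,k0,k0,k0,k0,k28],[k0,
    k0,k0,k6,k4,k0,k2,k0,k0,k70,k0,k0]] (nat_lit 1440) k5
    [[(k8,(nat_lit 410)),(k2,(nat_lit 467)),(k10,(nat_lit 470)),(k11,(nat_lit 470)),(k3,(nat_lit 475)),(k7,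
    (nat_lit 478)),(k9,(nat_lit 478)),(k4,(nat_lit 480)),(k6,(nat_lit 482)),(k5,(nat_lit 484)),(k1,(nat_lit 502)),(k0,
    (nat_lit 566))],[(k9,(nat_lit 464)),(k10,(nat_lit 468)),(k11,(nat_lit 470)),(k2,(nat_lit 473)),(k3,(nat_lit 473)),
    (k4,(nat_lit 474)),(k7,(nat_lit 476)),(k5,(nat_lit 480)),(k8,(nat_lit 480)),(k6,(nat_lit 486)),(k0,(nat_lit 552)),
    (k1,(nat_lit 566))],[(k10,(nat_lit 377)),(k3,(nat_lit 394)),(k11,(nat_lit 469)),(k2,(nat_lit 472)),(k0,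
    (nat_lit 473)),(k1,(nat_lit 475)),(k9,(nat_lit 475)),(k5,(nat_lit 479)),(k8,(nat_lit 479)),(k4,(nat_lit 485)),(k7,
    (nat_lit 487)),(k6,(nat_lit 497))],[(k10,(nat_lit 465)),(k1,(nat_lit 467)),(k11,(nat_lit 469)),(k2,(nat_lit 472)),
    (k3,(nat_lit 472)),(k0,(nat_lit 473)),(k8,(nat_lit 477)),(k5,(nat_lit 479)),(k9,(nat_lit 479)),(k4,(nat_lit 483)),
    (k7,(nat_lit 485)),(k6,(nat_lit 489))],[(k9,(nat_lit 478)),(k11,(nat_lit 478)),(k2,(nat_lit 479)),(k3,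
    (nat_lit 479)),(k0,(nat_lit 480)),(k4,(nat_lit 482)),(k10,(nat_lit 482)),(k1,(nat_lit 484)),(k7,(nat_lit 484)),
    (k5,(nat_lit 486)),(k8,(nat_lit 486)),(k6,(nat_lit 488))],[(k0,(nat_lit 474)),(k11,(nat_lit 476)),(k1,
    (nat_lit 480)),(k10,(nat_lit 480)),(k5,(nat_lit 482)),(k2,(nat_lit 483)),(k3,(nat_lit 485)),(k4,(nat_lit 486)),
    (k8,(nat_lit 486)),(k9,(nat_lit 486)),(k6,(nat_lit 488)),(k7,(nat_lit 488))],[(k0,(nat_lit 476)),(k1,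
    (nat_lit 478)),(k10,(nat_lit 478)),(k11,(nat_lit 478)),(k5,(nat_lit 484)),(k2,(nat_lit 485)),(k3,(nat_lit 487)),
    (k4,(nat_lit 488)),(k8,(nat_lit 488)),(k9,(nat_lit 488)),(k6,(nat_lit 490)),(k7,(nat_lit 490))],[(k11,
    (nat_lit 476)),(k10,(nat_lit 480)),(k1,(nat_lit 482)),(k0,(nat_lit 486)),(k8,(nat_lit 486)),(k4,(nat_lit 488)),
    (k5,(nat_lit 488)),(k6,(nat_lit 488)),(k9,(nat_lit 488)),(k2,(nat_lit 489)),(k7,(nat_lit 490)),(k3,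
    (nat_lit 497))],[(k0,(nat_lit 464)),(k3,(nat_lit 475)),(k10,(nat_lit 476)),(k1,(nat_lit 478)),(k5,(nat_lit 478)),
    (k11,(nat_lit 478)),(k2,(nat_lit 479)),(k4,(nat_lit 486)),(k6,(nat_lit 488)),(k7,(nat_lit 488)),(k8,
    (nat_lit 488)),(k9,(nat_lit 488))],[(k1,(nat_lit 410)),(k10,(nat_lit 476)),(k11,(nat_lit 476)),(k2,(nat_lit 477)),
    (k3,(nat_lit 479)),(k0,(nat_lit 480)),(k4,(nat_lit 486)),(k5,(nat_lit 486)),(k6,(nat_lit 486)),(k8,(nat_lit 486)),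
    (k7,(nat_lit 488)),(k9,(nat_lit 488))],[(k11,(nat_lit 466)),(k2,(nat_lit 469)),(k3,(nat_lit 469)),(k0,
    (nat_lit 470)),(k1,(nat_lit 470)),(k4,(nat_lit 476)),(k6,(nat_lit 476)),(k8,(nat_lit 476)),(k5,(nat_lit 478)),(k7,
    (nat_lit 478)),(k9,(nat_lit 478)),(k10,(nat_lit 536))],[(k3,(nat_lit 377)),(k10,(nat_lit 438)),(k2,(nat_lit 465)),
    (k0,(nat_lit 468)),(k1,(nat_lit 470)),(k8,(nat_lit 476)),(k9,(nat_lit 476)),(k7,(nat_lit 478)),(k4,(nat_lit 480)),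
    (k6,(nat_lit 480)),(k5,(nat_lit 482)),(k11,(nat_lit 536))]]
    [[k1,k2,k0,k0,k0,k0],[k1,k1,k1,k0,k0,k0],[k1,k1,k0,k0,k1,k0],[k1,k1,k0,k0,k0,k1],[k1,k0,k1,k0,k1,k0],[k1,k0,k1,k0,
    k0,k1],[k1,k0,k0,k1,k1,k0],[k1,k0,k0,k1,k0,k1],[k1,k0,k0,k0,k2,k0],[k1,k0,k0,k0,k1,k1],[k1,k0,k0,k0,k0,k2],[k0,k3,
    k0,k0,k0,k0],[k0,k2,k1,k0,k0,k0],[k0,k2,k0,k0,k1,k0],[k0,k2,k0,k0,k0,k1],[k0,k2,k0,k1,k0,k0],[k0,k1,k1,k0,k0,k1],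
    [k0,k1,k0,k1,k0,k1],[k0,k1,k0,k0,k1,k1],[k0,k1,k0,k0,k0,k2],[k0,k0,k1,k0,k1,k1],[k0,k0,k1,k0,k0,k2],[k0,k0,k0,k1,
    k0,k2],[k0,k0,k0,k0,k1,k2]]
    [.ref k25 k0 [(z7,[z6,z15,y4]),(z14,[z15,y15,z4]),(z7,[y3,z3,z2,z21]),(z7,[y12,z12,z8,z0,z21]),(z14,[z3,y3,y2])],
    .ref k25 k0 [(z7,[z12,z9,y4,y12]),(z7,[z15,y15,z2,y15]),(z7,[y6,z6,z2,z27]),(z7,[y24,z24,z8,z24,z21]),(z7,[z3,y3,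
    y1,y3])],.ref k25 k0 [(z5,[z6,z9,y2]),(z2,[z3,y3,z1]),(z5,[y3,z3,z1,z15]),(z5,[y12,z12,z4,z0,z15]),(z10,[z3,y3,
    y1])],.ref k25 k0 [(z3,[z4,z9,z0,z4,z4,y4]),(z3,[z5,z0,z3,z5,z5,y5]),(z3,[y2,z0,z0,z7,y2,z2]),(z3,[y8,z0,z0,y8,z1,
    z8]),(z3,[z1,z0,z0,z1,z1,y1])],.ref k25 k0 [(z1,[z4,y1,z0,y4]),(z1,[z5,y5,z1,y5]),(z1,[y2,z2,z0,z5]),(z1,[y8,z8,
    z0,z8,z3]),(z1,[z1,y1,z0,y1])],.ref k25 k0 [(z1,[z6,z3,z2,z0,z6,y6]),(z2,[z15,z0,z7,z0,z15,y15]),(z1,[y3,z0,y1,z3,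
    y3,z3]),(z1,[y12,z0,y4,z0,y9,z12]),(z2,[z3,z0,z1,z0,z3,y3])],.ref k25 k0 [(z1,[y4,z7,z0,z0,z4]),(z1,[y5,z5,z1,z0,
    z5]),(z1,[z2,y2,z0,z3,y2]),(z1,[z8,y8,z0,z0,y5]),(z1,[y1,z1,z0,z0,z1])],.ref k25 k0 [(z1,[y3,z3,y1,y3,z0,z3]),(z4,
    [y15,z0,y1,y15,z0,z15]),(z2,[z3,z0,z1,z9,z0,y3]),(z1,[z6,z0,z2,z6,z3,y6]),(z4,[y3,z0,y1,y3,z0,z3])],
    .ref k25 k0 [(z1,[z2,z1]),(z2,[z5,y5,z2]),(z1,[y1,z1,z0,z3]),(z1,[y4,z4,z0,z0,z3]),(z2,[z1,y1])],.ref k25 k0 [(z5,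
    [z12,z15,z4,z12,z12,y12]),(z1,[z3,z0,z2,z3,z3,y3]),(z5,[y6,z0,y2,z9,y6,z6]),(z5,[y24,z0,y8,y24,y9,z24]),(z5,[z3,
    z0,z1,z3,z3,y3])],.ref k25 k0 [(z1,[z3,z6,z2,z6,z6,y6]),(z4,[z15,z15,z14,z30,z30,y30]),(z2,[y3,y3,y2,z0,y6,z6]),
    (z1,[y6,y6,y4,y12,y9,z12]),(z4,[z3,z3,z2,z6,z6,y6])],.ref k25 k0 [(z5,[z4,z15,y4]),(z1,[z1]),(z5,[y2,z0,z2,z15]),
    (z5,[y8,z0,z8,z0,z15]),(z5,[z1,z0,y1])],.ref k25 k0 [(z2,[z3,z6,y2,y3]),(z8,[z15,z0,y2,y15]),(z4,[y3,z0,z2,z15]),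
    (z1,[y3,z0,z2,z3,z3]),(z8,[z3,z0,y2,y3])],.ref k25 k0 [(z11,[z12,z33,y8]),(z11,[z15,z0,z1]),(z11,[y6,z0,z4,z33]),
    (z11,[y24,z0,z16,z0,z33]),(z11,[z3,z0,y2])],.ref k25 k0 [(z5,[z6,z21,y2,z6,z6,y6]),(z2,[z3,z3,z1,z3,z3,y3]),(z5,
    [y3,y3,z1,z12,y3,z3]),(z5,[y12,y12,z4,y12,z3,z12]),(z10,[z3,z3,y1,z3,z3,y3])],.ref k25 k0 [(z1,[z6,z3,y4,z0,y6]),
    (z2,[z15,z0,y8,z0,y15]),(z1,[y3,z0,z2,z3,z3]),(z1,[y12,z0,z8,z0,z15]),(z2,[z3,z0,y2,z0,y3])],.ref k25 k0 [(z1,[z4,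
    z7,z0,z0,z4,y4]),(z1,[z5,z5,z1,z0,z5,y5]),(z1,[y2,y2,z0,z3,y2,z2]),(z1,[y8,y8,z0,z0,y5,z8]),(z1,[z1,z1,z0,z0,z1,
    y1])],.ref k25 k0 [(z1,[y4,y1,z0,y4,z0,z4]),(z1,[y5,y5,z1,y5,z0,z5]),(z1,[z2,z2,z0,z5,z0,y2]),(z1,[z8,z8,z0,z8,z3,
    y8]),(z1,[y1,y1,z0,y1,z0,z1])],.ref k25 k0 [(z1,[z2,z5,z0,z2,z2,y2]),(z2,[z5,z5,z2,z5,z5,y5]),(z1,[y1,y1,z0,z2,y1,
    z1]),(z1,[y4,y4,z0,y4,y1,z4]),(z2,[z1,z1,z0,z1,z1,y1])],.ref k25 k0 [(z5,[z12,z39,z4,z24,z24,y24]),(z1,[z3,z6,z2,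
    z6,z6,y6]),(z5,[y6,y12,y2,z3,y12,z12]),(z5,[y24,y48,y8,y48,y33,z48]),(z5,[z3,z6,z1,z6,z6,y6])],.ref k25 k0 [(z1,
    [y12,y9,y4,z0,y12,z12]),(z1,[y15,y15,y4,z0,y15,z15]),(z1,[z6,z6,z2,z3,z6,y6]),(z1,[z24,z24,z8,z0,z27,y24]),(z1,
    [y3,y3,y1,z0,y3,z3])],.ref k25 k0 [(z1,[y6,y9,y4,y6,y12,z12]),(z2,[y15,y30,y8,y15,y30,z30]),(z1,[z3,z6,z2,z6,z6,
    y6]),(z1,[z12,z24,z8,z12,z27,y24]),(z2,[y3,y6,y2,y3,y6,z6])],.ref k25 k0 [(z2,[y3,z0,y2,y6,y3,z6]),(z8,[y15,y30,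
    y2,y30,y15,z30]),(z4,[z3,z6,z2,z18,z3,y6]),(z1,[z3,z6,z2,z6,z6,y6]),(z8,[y3,y6,y2,y6,y3,z6])],.ref k25 k0 [(z1,
    [z12,z27,z8,z24,z24,y24]),(z1,[z15,z30,z11,z30,z30,y30]),(z1,[y6,y12,y4,y9,y12,z12]),(z1,[y24,y48,y16,y48,y45,
    z48]),(z1,[z3,z6,z2,z6,z6,y6])]],
    .base (.leafM k3 [k1,k2,k3,k4,k5,k0] [(z3,[y1,y1,z0,y1,z3])] []),
    .lp k0 [(nat_lit 474),(nat_lit 472),(nat_lit 486),(nat_lit 490),(nat_lit 486),(nat_lit 466)] [k8,k8,k9,k9,k2,k2,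
    k0,k0,k2,k2,k12,k12] k0 [[k0,k0,k0,k0,k6,k6,k16,k0,k0,k0,k0,k2],[k78,k0,k0,k0,k0,k0,k4,k0,k0,k0,k0,k92],[k0,k0,k0,
    k0,k0,k0,k0,k0,k0,k2,k6,k4],[k0,k0,k0,k0,k4,k4,k8,k0,k0,k0,k0,k0],[k0,k6,k4,k0,k0,k0,k0,k0,k0,k0,k0,k0],[k0,k6,k4,
    k0,k0,k0,k0,k0,k0,k0,k4,k0],[k0,k0,k0,k0,k0,k0,k0,k2,k2,k2,k0,k0],[k4,k16,k8,k0,k0,k0,k0,k0,k0,k0,k2,k0],[k0,k0,
    k0,k2,k0,k0,k0,k2,k0,k0,k70,k0],[k0,k0,k0,k0,k0,k0,k0,k2,k0,k0,k0,k0],[k92,k2,k0,k4,k0,k0,k0,k0,k0,k0,k0,k28],[k0,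
    k0,k0,k6,k4,k0,k2,k0,k0,k70,k0,k0]] (nat_lit 1440) k5
    [[(k8,(nat_lit 410)),(k2,(nat_lit 467)),(k10,(nat_lit 470)),(k11,(nat_lit 470)),(k3,(nat_lit 475)),(k7,
    (nat_lit 478)),(k9,(nat_lit 478)),(k4,(nat_lit 480)),(k6,(nat_lit 482)),(k5,(nat_lit 484)),(k1,(nat_lit 502)),(k0,
    (nat_lit 566))],[(k9,(nat_lit 464)),(k10,(nat_lit 468)),(k11,(nat_lit 470)),(k2,(nat_lit 473)),(k3,(nat_lit 473)),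
    (k4,(nat_lit 474)),(k7,(nat_lit 476)),(k5,(nat_lit 480)),(k8,(nat_lit 480)),(k6,(nat_lit 486)),(k0,(nat_lit 552)),
    (k1,(nat_lit 566))],[(k10,(nat_lit 377)),(k3,(nat_lit 394)),(k11,(nat_lit 469)),(k2,(nat_lit 472)),(k0,
    (nat_lit 473)),(k1,(nat_lit 475)),(k9,(nat_lit 475)),(k5,(nat_lit 479)),(k8,(nat_lit 479)),(k4,(nat_lit 485)),(k7,
    (nat_lit 487)),(k6,(nat_lit 497))],[(k10,(nat_lit 465)),(k1,(nat_lit 467)),(k11,(nat_lit 469)),(k2,(nat_lit 472)),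
    (k3,(nat_lit 472)),(k0,(nat_lit 473)),(k8,(nat_lit 477)),(k5,(nat_lit 479)),(k9,(nat_lit 479)),(k4,(nat_lit 483)),
    (k7,(nat_lit 485)),(k6,(nat_lit 489))],[(k9,(nat_lit 478)),(k11,(nat_lit 478)),(k2,(nat_lit 479)),(k3,
    (nat_lit 479)),(k0,(nat_lit 480)),(k4,(nat_lit 482)),(k10,(nat_lit 482)),(k1,(nat_lit 484)),(k7,(nat_lit 484)),
    (k5,(nat_lit 486)),(k8,(nat_lit 486)),(k6,(nat_lit 488))],[(k0,(nat_lit 474)),(k11,(nat_lit 476)),(k1,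
    (nat_lit 480)),(k10,(nat_lit 480)),(k5,(nat_lit 482)),(k2,(nat_lit 483)),(k3,(nat_lit 485)),(k4,(nat_lit 486)),
    (k8,(nat_lit 486)),(k9,(nat_lit 486)),(k6,(nat_lit 488)),(k7,(nat_lit 488))],[(k0,(nat_lit 476)),(k1,
    (nat_lit 478)),(k10,(nat_lit 478)),(k11,(nat_lit 478)),(k5,(nat_lit 484)),(k2,(nat_lit 485)),(k3,(nat_lit 487)),
    (k4,(nat_lit 488)),(k8,(nat_lit 488)),(k9,(nat_lit 488)),(k6,(nat_lit 490)),(k7,(nat_lit 490))],[(k11,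
    (nat_lit 476)),(k10,(nat_lit 480)),(k1,(nat_lit 482)),(k0,(nat_lit 486)),(k8,(nat_lit 486)),(k4,(nat_lit 488)),
    (k5,(nat_lit 488)),(k6,(nat_lit 488)),(k9,(nat_lit 488)),(k2,(nat_lit 489)),(k7,(nat_lit 490)),(k3,
    (nat_lit 497))],[(k0,(nat_lit 464)),(k3,(nat_lit 475)),(k10,(nat_lit 476)),(k1,(nat_lit 478)),(k5,(nat_lit 478)),
    (k11,(nat_lit 478)),(k2,(nat_lit 479)),(k4,(nat_lit 486)),(k6,(nat_lit 488)),(k7,(nat_lit 488)),(k8,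
    (nat_lit 488)),(k9,(nat_lit 488))],[(k1,(nat_lit 410)),(k10,(nat_lit 476)),(k11,(nat_lit 476)),(k2,(nat_lit 477)),
    (k3,(nat_lit 479)),(k0,(nat_lit 480)),(k4,(nat_lit 486)),(k5,(nat_lit 486)),(k6,(nat_lit 486)),(k8,(nat_lit 486)),
    (k7,(nat_lit 488)),(k9,(nat_lit 488))],[(k11,(nat_lit 466)),(k2,(nat_lit 469)),(k3,(nat_lit 469)),(k0,
    (nat_lit 470)),(k1,(nat_lit 470)),(k4,(nat_lit 476)),(k6,(nat_lit 476)),(k8,(nat_lit 476)),(k5,(nat_lit 478)),(k7,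
    (nat_lit 478)),(k9,(nat_lit 478)),(k10,(nat_lit 536))],[(k3,(nat_lit 377)),(k10,(nat_lit 438)),(k2,(nat_lit 465)),
    (k0,(nat_lit 468)),(k1,(nat_lit 470)),(k8,(nat_lit 476)),(k9,(nat_lit 476)),(k7,(nat_lit 478)),(k4,(nat_lit 480)),
    (k6,(nat_lit 480)),(k5,(nat_lit 482)),(k11,(nat_lit 536))]]
    [[k1,k2,k0,k0,k0,k0],[k1,k1,k1,k0,k0,k0],[k1,k1,k0,k0,k1,k0],[k1,k1,k0,k0,k0,k1],[k1,k0,k1,k0,k1,k0],[k1,k0,k1,k0,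
    k0,k1],[k1,k0,k0,k1,k1,k0],[k1,k0,k0,k1,k0,k1],[k1,k0,k0,k0,k2,k0],[k1,k0,k0,k0,k1,k1],[k1,k0,k0,k0,k0,k2],[k0,k3,
    k0,k0,k0,k0],[k0,k2,k1,k0,k0,k0],[k0,k2,k0,k0,k1,k0],[k0,k2,k0,k0,k0,k1],[k0,k2,k0,k1,k0,k0],[k0,k1,k1,k0,k0,k1],
    [k0,k1,k0,k1,k0,k1],[k0,k1,k0,k0,k1,k1],[k0,k1,k0,k0,k0,k2],[k0,k0,k1,k0,k1,k1],[k0,k0,k1,k0,k0,k2],[k0,k0,k0,k1,
    k0,k2],[k0,k0,k0,k0,k1,k2]]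
    [.ref k25 k0 [(z1,[y9,z4,z18]),(z1,[z6,y2,y9]),(z2,[z3,y1,y6,z3]),(z2,[z9,y3,y18,z0,z1]),(z1,[y3,z1,z6])],
    .ref k25 k0 [(z1,[z18,y5,y18,y9]),(z1,[y12,z4,z15,z6]),(z1,[y3,z1,z3,z3]),(z2,[y18,z6,z18,z9,z1]),(z1,[z6,y2,y6,
    y3])],.ref k25 k0 [(z2,[z9,y1,y9]),(z1,[y3,z1,z6]),(z4,[y3,z1,z3,z6]),(z4,[y9,z3,z9,z0,z2]),(z2,[z3,y1,y3])],
    .ref k25 k0 [(z2,[z18,z2,z0,z9,z3,y18]),(z1,[y6,z0,z3,y3,y1,z6]),(z4,[y6,z0,z0,z3,y1,z6]),(z4,[y18,z0,z0,y9,y1,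
    z18]),(z2,[z6,z0,z0,z3,z1,y6])],.ref k25 k0 [(z7,[z18,z1,z0,y9]),(z7,[y12,z4,z21,z6]),(z7,[y3,z1,z0,z12]),(z14,
    [y18,z6,z0,z9,z7]),(z7,[z6,y2,z0,y3])],.ref k25 k0 [(z5,[z18,z5,z18,z0,z3,y18]),(z5,[y12,z0,z3,z0,y2,z12]),(z10,
    [y6,z0,y6,z15,y1,z6]),(z5,[y9,z0,y9,z0,z1,z9]),(z5,[z6,z0,z6,z0,z1,y6])],.ref k25 k0 [(z5,[z18,y1,z0,z0,y3]),(z5,
    [y12,z4,z15,z0,z2]),(z10,[y6,z2,z0,z15,z1]),(z5,[y9,z3,z0,z0,z4]),(z5,[z6,y2,z0,z0,y1])],.ref k25 k0 [(z1,[z6,z1,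
    z6,z3,z0,y6]),(z1,[y4,z0,y1,y2,z0,z4]),(z1,[y1,z0,y1,z1,z0,z1]),(z2,[y6,z0,y6,y3,z1,z6]),(z1,[z2,z0,z2,z1,z0,
    y2])],.ref k25 k0 [(z5,[z9,z2]),(z5,[y6,z2,z15]),(z10,[y3,z1,z0,z15]),(z10,[y9,z3,z0,z0,z5]),(z5,[z3,y1])],
    .ref k25 k0 [(z8,[z18,z8,z18,z9,z3,y18]),(z4,[y6,z0,z6,y3,y1,z6]),(z16,[y6,z0,y6,z21,y1,z6]),(z16,[y18,z0,y18,y9,
    z5,z18]),(z8,[z6,z0,z6,z3,z1,y6])],.ref k25 k0 [(z1,[z3,z2,z6,z3,z1,y6]),(z3,[y6,y2,y3,y6,y2,z12]),(z6,[y3,y1,y6,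
    z6,y1,z6]),(z2,[y3,y1,y6,y3,z0,z6]),(z3,[z3,z1,z6,z3,z1,y6])],.ref k25 k0 [(z2,[y3,z2,z9]),(z1,[z1]),(z4,[z1,z0,
    y3,z6]),(z4,[z3,z0,y9,z0,z2]),(z2,[y1,z0,z3])],.ref k25 k0 [(z1,[y2,z1,z4,z1]),(z3,[z4,z0,z1,y2]),(z3,[z1,z0,y2,
    z4]),(z2,[z2,z0,y4,y1,z1]),(z3,[y2,z0,z4,z1])],.ref k25 k0 [(z1,[y3,z1,z6]),(z1,[z2,z0,y1]),(z2,[z1,z0,y2,z3]),
    (z2,[z3,z0,y6,z0,z1]),(z1,[y1,z0,z2])],.ref k25 k0 [(z8,[y18,z2,z18,y9,y3,z18]),(z4,[z6,z2,z6,z3,z1,y6]),(z16,[z6,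
    z2,y6,z27,z1,y6]),(z16,[z18,z6,y18,z9,z11,y18]),(z8,[y6,y2,z6,y3,y1,z6])],.ref k25 k0 [(z11,[y18,z11,z36,z0,z3]),
    (z11,[z12,z0,z9,z0,y2]),(z22,[z6,z0,y12,z33,y1]),(z11,[z9,z0,y18,z0,z4]),(z11,[y6,z0,z12,z0,z1])],
    .ref k25 k0 [(z5,[y18,y1,z0,z0,y3,z18]),(z5,[z12,z4,z15,z0,z2,y12]),(z10,[z6,z2,z0,z15,z1,y6]),(z5,[z9,z3,z0,z0,
    z4,y9]),(z5,[y6,y2,z0,z0,y1,z6])],.ref k25 k0 [(z7,[y18,z1,z0,y9,z0,z18]),(z7,[z12,z4,z21,z6,z0,y12]),(z7,[z3,z1,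
    z0,z12,z0,y3]),(z14,[z18,z6,z0,z9,z7,y18]),(z7,[y6,y2,z0,y3,z0,z6])],.ref k25 k0 [(z2,[y18,y4,z0,y9,y3,z18]),(z1,
    [z6,z2,z3,z3,z1,y6]),(z4,[z6,z2,z0,z9,z1,y6]),(z4,[z18,z6,z0,z9,z5,y18]),(z2,[y6,y2,z0,y3,y1,z6])],
    .ref k25 k0 [(z2,[y9,y4,y9,y9,y3,z18]),(z1,[z3,z2,z6,z3,z1,y6]),(z4,[z3,z2,z3,z9,z1,y6]),(z4,[z9,z6,z9,z9,z5,
    y18]),(z2,[y3,y2,y3,y3,y1,z6])],.ref k25 k0 [(z1,[z18,z7,z18,z0,z3,y18]),(z1,[y12,y4,y9,z0,y2,z12]),(z2,[y6,y2,y6,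
    z3,y1,z6]),(z1,[y9,y3,y9,z0,y1,z9]),(z1,[z6,z2,z6,z0,z1,y6])],.ref k25 k0 [(z1,[y18,y11,y36,y9,y6,z36]),(z1,[z12,
    z8,z27,z6,z4,y24]),(z1,[z3,z2,z6,z3,z1,y6]),(z2,[z18,z12,z36,z9,z7,y36]),(z1,[y6,y4,y12,y3,y2,z12])],
    .ref k25 k0 [(z1,[y6,y3,y12,y6,y1,z12]),(z3,[z12,z8,z33,z12,z2,y24]),(z6,[z6,z4,z12,z15,z1,y12]),(z1,[z3,z2,z6,z3,
    z1,y6]),(z3,[y6,y4,y12,y6,y1,z12])],.ref k25 k0 [(z1,[z9,z7,z18,z9,z3,y18]),(z1,[y6,y4,y9,y6,y2,z12]),(z2,[y3,y2,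
    y6,z0,y1,z6]),(z2,[y9,y6,y18,y9,y2,z18]),(z1,[z3,z2,z6,z3,z1,y6])]],
    .lp k0 [k164,k142,k170,k170,k166,k146] [k3,k3,k14,k14,k0,k0,k0,k0,k2,k2,k12,k12] k0 [[k0,k0,k0,k0,k0,k2,k0,k2,k2,
    k0,k0,k6],[k4,k0,k0,k0,k0,k0,k0,k0,k2,k0,k0,k0],[k0,k0,k0,k0,k0,k0,k0,k0,k0,k0,k0,k0],[k0,k0,k0,k0,k0,k0,k0,k2,k2,
    k0,k0,k4],[k0,k2,k0,k0,k0,k0,k0,k0,k0,k0,k2,k4],[k0,k0,k0,k0,k0,k0,k0,k0,k0,k0,k0,k0],[k0,k2,k2,k0,k0,k0,k0,k0,k0,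
    k0,k0,k0],[k0,k0,k0,k0,k0,k0,k0,k0,k2,k2,k4,k4],[k0,k0,k0,k0,k0,k0,k2,k0,k0,k12,k14,k0],[k2,k2,k2,k0,k0,k0,k2,k0,
    k0,k0,k0,k0],[k0,k6,k4,k0,k0,k4,k4,k0,k0,k0,k0,k0],[k0,k0,k0,k0,k0,k2,k4,k0,k0,k14,k16,k0]] (nat_lit 480) k5
    [[(k1,k148),(k8,k151),(k10,k155),(k11,k155),(k2,k157),(k3,k159),(k9,k161),(k0,k164),(k4,k165),(k5,k167),(k6,k171),
    (k7,k171)],[(k10,k149),(k2,k153),(k3,k153),(k11,k153),(k1,k164),(k4,k165),(k6,k165),(k9,k165),(k5,k167),(k7,k167),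
    (k8,k167),(k0,k168)],[(k3,k138),(k2,k142),(k11,k142),(k10,k144),(k0,k153),(k4,k156),(k5,k156),(k6,k156),(k8,k156),
    (k9,k156),(k7,k158),(k1,k159)],[(k2,k142),(k3,k142),(k10,k144),(k11,k144),(k0,k153),(k4,k156),(k5,k156),(k6,k156),
    (k7,k156),(k8,k156),(k9,k156),(k1,k157)],[(k10,k154),(k2,k156),(k3,k156),(k11,k156),(k0,k167),(k1,k167),(k6,k168),
    (k8,k168),(k9,k168),(k4,k170),(k5,k170),(k7,k170)],[(k10,k154),(k2,k156),(k3,k156),(k11,k158),(k0,k165),(k1,k165),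
    (k8,k168),(k9,k168),(k4,k170),(k5,k170),(k6,k170),(k7,k170)],[(k2,k156),(k3,k158),(k11,k158),(k10,k160),(k0,k167),
    (k8,k168),(k9,k168),(k4,k170),(k5,k170),(k6,k170),(k7,k170),(k1,k171)],[(k2,k156),(k3,k156),(k11,k160),(k10,k162),
    (k0,k165),(k5,k168),(k9,k168),(k4,k170),(k6,k170),(k7,k170),(k8,k170),(k1,k171)],[(k10,k152),(k11,k154),(k2,k156),
    (k3,k156),(k1,k161),(k8,k164),(k0,k165),(k9,k166),(k4,k168),(k5,k168),(k6,k168),(k7,k168)],[(k1,k151),(k8,k154),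
    (k2,k156),(k3,k156),(k10,k156),(k11,k156),(k9,k164),(k0,k167),(k4,k168),(k5,k168),(k7,k168),(k6,k170)],[(k3,k142),
    (k2,k144),(k0,k153),(k9,k154),(k1,k155),(k5,k156),(k8,k156),(k4,k158),(k7,k158),(k11,k158),(k6,k160),(k10,k160)],
    [(k2,k144),(k3,k144),(k0,k149),(k9,k152),(k4,k154),(k5,k154),(k1,k155),(k8,k156),(k7,k160),(k11,k160),(k6,k162),
    (k10,k162)]]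
    [[k2,k1,k0,k0,k0,k0],[k2,k0,k0,k0,k0,k1],[k1,k2,k0,k0,k0,k0],[k1,k1,k1,k0,k0,k0],[k1,k1,k0,k0,k1,k0],[k1,k1,k0,k0,
    k0,k1],[k1,k0,k1,k0,k0,k1],[k1,k0,k0,k1,k0,k1],[k1,k0,k0,k0,k1,k1],[k1,k0,k0,k0,k0,k2],[k0,k3,k0,k0,k0,k0],[k0,k2,
    k1,k0,k0,k0],[k0,k2,k0,k1,k0,k0],[k0,k2,k0,k0,k1,k0],[k0,k2,k0,k0,k0,k1],[k0,k1,k1,k0,k0,k1],[k0,k1,k0,k1,k0,k1],
    [k0,k1,k0,k0,k2,k0],[k0,k1,k0,k0,k1,k1],[k0,k1,k0,k0,k0,k2],[k0,k0,k1,k0,k1,k1],[k0,k0,k1,k0,k0,k2],[k0,k0,k0,k0,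
    k2,k1],[k0,k0,k0,k0,k1,k2]]
    [.ref (nat_lit 293) k10 [(z3,[z3,z6,z4,z4,y12]),(z3,[z0,y3,y2,y2,z6]),(z3,[z0,y3,y1,y1,z3]),(z1,[y6,y3,y3,y5,
    z15])],.ref k77 k6 [(z3,[z1,y2]),(z3,[z4,z1]),(z1,[y1,z2,z1]),(z1,[z0,z0,z0,z1])],.ref (nat_lit 294) k3 [(z6,[y3,
    y3,y2,y2,z6]),(z2,[y9,z9,z4]),(z2,[z1,y1]),(z1,[z1])],.ref (nat_lit 295) k10 [(z1,[z3,z3,z2,z1,y6]),(z3,[z0,y3,y2,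
    y2,z6]),(z3,[z0,y3,y1,y1,z3]),(z3,[y6,z3,z1,z1,z3])],.ref k77 k6 [(z1,[z3,y3,y1]),(z1,[z12,y9,y4]),(z1,[y9,z9,
    z4]),(z1,[z0,z0,z0,z1])],.ref (nat_lit 296) k10 [(z3,[z6,z9,z5,z5,y15]),(z3,[z0,y3,y2,y2,z6]),(z3,[z0,y3,y1,y1,
    z3]),(z1,[y3,z0,z0,y1,z3])],.ref k77 k6 [(z5,[z3,y3,z0,y1]),(z5,[z12,z3,z0,y4]),(z5,[y9,z9,z5,z3]),(z1,[z0,z0,z0,
    z1])],.ref k77 k6 [(z3,[z3,z0,z1,z1,y3]),(z3,[z12,z9,z4,z4,y12]),(z1,[y3,z0,z0,y1,z3]),(z1,[z0,z0,z0,z1])],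
    .ref (nat_lit 297) k0 [(z1,[z0,z1]),(z1,[y3,z3,z1]),(z1,[z0,z0,z0,z1]),(z3,[z0,y3,y1,y1,z3])],.ref k77 k6 [(z2,
    [z1,y1]),(z1,[z2,z1]),(z2,[y3,z3,z2]),(z1,[z0,z0,z0,z1])],.ref (nat_lit 298) k0 [(z1,[z0,z1]),(z1,[z1]),(z1,[z0,
    z0,z0,z1]),(z3,[z0,y3,y1,y1,z3])],.ref (nat_lit 298) k0 [(z1,[z0,z1]),(z2,[z3,z0,z0,y1]),(z1,[z0,z0,z0,z1]),(z3,
    [z0,y3,y1,y1,z3])],.ref (nat_lit 299) k0 [(z1,[z0,z1]),(z6,[z3,z3,z1,z1,y3]),(z1,[z0,z0,z0,z1]),(z3,[z0,y3,y1,y1,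
    z3])],.ref (nat_lit 300) k0 [(z1,[z0,z1]),(z1,[z3,z0,y1]),(z1,[z0,z0,z0,z1]),(z3,[z0,y3,y1,y1,z3])],
    .ref (nat_lit 301) k3 [(z3,[y6,y3,y1,y1,z3]),(z1,[y9,z0,z1]),(z1,[z1]),(z1,[z4,z1])],.ref (nat_lit 302) k3 [(z1,
    [y6,y3,y1,z1,z3]),(z1,[y9,z0,z1,z3]),(z1,[z3,z0,z0,y1]),(z1,[z12,z3,z0,y4])],.ref (nat_lit 299) k0 [(z1,[z0,z1]),
    (z3,[z3,z3,z1,z1,y3]),(z1,[z0,z0,z0,z1]),(z3,[z0,y3,y1,y1,z3])],.ref (nat_lit 303) k10 [(z1,[y3,z9,z5,z3,y9]),(z3,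
    [z0,y3,y2,y2,z6]),(z3,[z0,y3,y1,y1,z3]),(z1,[z6,y9,y5,y3,z9])],.ref k77 k6 [(z2,[y3,z0,z1]),(z1,[y6,z3,z2]),(z2,
    [z9,z0,y1]),(z1,[z0,z0,z0,z1])],.ref (nat_lit 294) k3 [(z3,[y3,y3,y1,y1,z3]),(z1,[y9,z0,z2]),(z1,[z1]),(z1,[z2,
    z1])],.ref (nat_lit 294) k3 [(z3,[z3,y3,y2,y2,z3]),(z1,[z9,z0,y1,y3]),(z3,[y3,z0,z1,z1]),(z3,[y6,z3,z2,z2])],
    .ref k77 k6 [(z2,[z3,z0,z0,y1]),(z1,[z6,z3,z0,y2]),(z2,[y9,z0,z2,z3]),(z1,[z0,z0,z0,z1])],.ref k119 k10 [(z1,[y6,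
    z15,z9,z5,y15]),(z3,[z0,y3,y2,y2,z6]),(z3,[z0,y3,y1,y1,z3]),(z3,[z6,z3,z1,z1,y3])],.ref (nat_lit 302) k3 [(z1,[z6,
    y3,y3,y1,z3]),(z1,[z9,z0,y2]),(z1,[y3,z0,z1]),(z1,[y12,z3,z4])]],
    .base (.leafM k3 [k4,k5,k0,k1,k2,k3] [(z3,[y1,z0,z0,y1,z3])] []),
    .base (.leafM k0 [k2,k3,k4,k5,k0,k1] [(z6,[y1,y6,y1,z0,z6])] []),
    .lp k0 [(nat_lit 642),(nat_lit 616),(nat_lit 652),(nat_lit 660),(nat_lit 700),(nat_lit 566)] [k29,k29,k42,k42,k24,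
    k24,k20,k20,k0,k0,k67,k67] k0 [[k0,k48,k24,k0,k36,k0,k0,k0,k0,k0,k0,k46],[k0,k0,k0,k0,k8,k0,k12,k8,k32,k0,k0,k42],
    [k0,k0,k0,k0,k8,k0,k12,k0,k0,k0,k0,k42],[k0,k24,k0,k0,k12,k0,k0,k0,k0,k0,k0,k46],[k0,k0,k0,k0,k0,k0,k48,k0,k28,
    k36,k10,k14],[k8,k36,k12,k8,k0,k0,k0,k0,k0,k0,k0,k0],[k8,k0,k0,k0,k0,k0,k0,k0,k24,k32,k0,k0],[k12,k0,k0,k12,k0,
    k48,k0,k0,k0,k0,k58,k10],[k0,k0,k0,k0,k0,k36,k0,k32,k0,k68,k154,k0],[k32,k0,k0,k0,k0,k28,k0,k24,k0,k0,k18,k0],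
    [k42,k46,k46,k42,k0,k14,k10,k0,k0,k0,k0,k0],[k0,k0,k0,k0,k0,k10,k58,k0,k18,k154,k0,k0]] (nat_lit 1920) k5
    [[(k8,(nat_lit 517)),(k11,(nat_lit 586)),(k10,(nat_lit 604)),(k9,(nat_lit 613)),(k4,(nat_lit 637)),(k1,
    (nat_lit 642)),(k6,(nat_lit 661)),(k7,(nat_lit 665)),(k2,(nat_lit 675)),(k3,(nat_lit 675)),(k0,(nat_lit 684)),(k5,
    (nat_lit 689))],[(k10,(nat_lit 558)),(k0,(nat_lit 594)),(k11,(nat_lit 604)),(k7,(nat_lit 615)),(k5,(nat_lit 623)),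
    (k2,(nat_lit 629)),(k3,(nat_lit 629)),(k4,(nat_lit 655)),(k6,(nat_lit 663)),(k9,(nat_lit 679)),(k1,(nat_lit 684)),
    (k8,(nat_lit 703))],[(k10,(nat_lit 549)),(k11,(nat_lit 559)),(k0,(nat_lit 629)),(k6,(nat_lit 630)),(k7,
    (nat_lit 630)),(k5,(nat_lit 634)),(k2,(nat_lit 640)),(k9,(nat_lit 646)),(k8,(nat_lit 658)),(k3,(nat_lit 664)),(k4,
    (nat_lit 670)),(k1,(nat_lit 675))],[(k10,(nat_lit 549)),(k11,(nat_lit 591)),(k2,(nat_lit 616)),(k0,(nat_lit 629)),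
    (k7,(nat_lit 630)),(k5,(nat_lit 634)),(k6,(nat_lit 638)),(k3,(nat_lit 640)),(k4,(nat_lit 646)),(k9,(nat_lit 646)),
    (k8,(nat_lit 658)),(k1,(nat_lit 675))],[(k10,(nat_lit 563)),(k11,(nat_lit 609)),(k0,(nat_lit 623)),(k2,
    (nat_lit 634)),(k3,(nat_lit 634)),(k7,(nat_lit 644)),(k5,(nat_lit 652)),(k4,(nat_lit 660)),(k6,(nat_lit 668)),(k8,
    (nat_lit 676)),(k9,(nat_lit 676)),(k1,(nat_lit 689))],[(k11,(nat_lit 581)),(k10,(nat_lit 595)),(k9,(nat_lit 628)),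
    (k1,(nat_lit 637)),(k8,(nat_lit 640)),(k2,(nat_lit 646)),(k4,(nat_lit 652)),(k0,(nat_lit 655)),(k6,(nat_lit 656)),
    (k7,(nat_lit 656)),(k5,(nat_lit 660)),(k3,(nat_lit 670))],[(k0,(nat_lit 615)),(k10,(nat_lit 623)),(k2,
    (nat_lit 630)),(k3,(nat_lit 630)),(k5,(nat_lit 644)),(k11,(nat_lit 649)),(k4,(nat_lit 656)),(k7,(nat_lit 660)),
    (k1,(nat_lit 665)),(k9,(nat_lit 680)),(k6,(nat_lit 708)),(k8,(nat_lit 708))],[(k11,(nat_lit 589)),(k3,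
    (nat_lit 630)),(k2,(nat_lit 638)),(k8,(nat_lit 648)),(k4,(nat_lit 656)),(k6,(nat_lit 660)),(k1,(nat_lit 661)),(k0,
    (nat_lit 663)),(k5,(nat_lit 668)),(k10,(nat_lit 671)),(k9,(nat_lit 680)),(k7,(nat_lit 708))],[(k1,(nat_lit 613)),
    (k10,(nat_lit 623)),(k4,(nat_lit 628)),(k2,(nat_lit 646)),(k3,(nat_lit 646)),(k11,(nat_lit 665)),(k5,
    (nat_lit 676)),(k0,(nat_lit 679)),(k6,(nat_lit 680)),(k7,(nat_lit 680)),(k9,(nat_lit 700)),(k8,(nat_lit 724))],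
    [(k1,(nat_lit 517)),(k8,(nat_lit 632)),(k11,(nat_lit 633)),(k4,(nat_lit 640)),(k6,(nat_lit 648)),(k10,
    (nat_lit 651)),(k2,(nat_lit 658)),(k3,(nat_lit 658)),(k5,(nat_lit 676)),(k0,(nat_lit 703)),(k7,(nat_lit 708)),(k9,
    (nat_lit 724))],[(k3,(nat_lit 559)),(k4,(nat_lit 581)),(k1,(nat_lit 586)),(k6,(nat_lit 589)),(k2,(nat_lit 591)),
    (k0,(nat_lit 604)),(k5,(nat_lit 609)),(k8,(nat_lit 633)),(k11,(nat_lit 634)),(k7,(nat_lit 649)),(k9,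
    (nat_lit 665)),(k10,(nat_lit 720))],[(k2,(nat_lit 549)),(k3,(nat_lit 549)),(k0,(nat_lit 558)),(k5,(nat_lit 563)),
    (k10,(nat_lit 566)),(k4,(nat_lit 595)),(k1,(nat_lit 604)),(k7,(nat_lit 623)),(k9,(nat_lit 623)),(k8,
    (nat_lit 651)),(k6,(nat_lit 671)),(k11,(nat_lit 720))]]
    [[k2,k0,k0,k0,k1,k0],[k2,k0,k0,k0,k0,k1],[k2,k1,k0,k0,k0,k0],[k1,k1,k0,k0,k0,k1],[k1,k1,k1,k0,k0,k0],[k1,k0,k1,k0,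
    k0,k1],[k1,k0,k0,k1,k0,k1],[k1,k1,k0,k0,k1,k0],[k1,k0,k1,k0,k1,k0],[k1,k0,k0,k1,k1,k0],[k1,k0,k0,k0,k1,k1],[k1,k0,
    k0,k0,k0,k2],[k0,k2,k0,k1,k0,k0],[k0,k2,k0,k0,k0,k1],[k0,k1,k1,k0,k0,k1],[k0,k1,k0,k1,k0,k1],[k0,k1,k0,k0,k1,k1],
    [k0,k1,k0,k0,k0,k2],[k0,k0,k2,k0,k0,k1],[k0,k0,k1,k1,k0,k1],[k0,k0,k1,k0,k1,k1],[k0,k0,k1,k0,k0,k2],[k0,k0,k0,k1,
    k0,k2],[k0,k0,k0,k0,k1,k2]]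
    [.ref k25 k0 [(z11,[z15,z1]),(z11,[y6,z4,z33]),(z11,[z12,y8,z0,z33]),(z11,[y24,z16,z0,z0,z33]),(z11,[z3,y2])],
    .ref k25 k0 [(z2,[z3,z1,z3,z3,z3,y3]),(z5,[y3,z1,z12,y3,y3,z3]),(z5,[z6,y2,z6,z21,z6,y6]),(z5,[y12,z4,y12,y12,z3,
    z12]),(z10,[z3,y1,z3,z3,z3,y3])],.ref k25 k0 [(z8,[z15,y2,y15]),(z4,[y3,z2,z15]),(z2,[z3,y2,y3,z6]),(z1,[y3,z2,z3,
    z0,z3]),(z8,[z3,y2,y3])],.ref k25 k0 [(z1,[z5,z1,z0,z5,z5,y5]),(z1,[y2,z0,z3,y2,y2,z2]),(z1,[z4,z0,z0,z7,z4,y4]),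
    (z1,[y8,z0,z0,y8,y5,z8]),(z1,[z1,z0,z0,z1,z1,y1])],.ref k25 k0 [(z7,[z15,z2,y15,y15]),(z7,[y6,z2,z27,z6]),(z7,
    [z12,y4,y12,z9]),(z7,[y24,z8,z24,z24,z21]),(z7,[z3,y1,y3,y3])],.ref k25 k0 [(z3,[z5,z3,z5,z0,z5,y5]),(z3,[y2,z0,
    z7,z0,y2,z2]),(z3,[z4,z0,z4,z9,z4,y4]),(z3,[y8,z0,y8,z0,z1,z8]),(z3,[z1,z0,z1,z0,z1,y1])],.ref k25 k0 [(z1,[y5,z1,
    y5,y5,z0,z5]),(z1,[z2,z0,z5,z2,z0,y2]),(z1,[y4,z0,y4,y1,z0,z4]),(z1,[z8,z0,z8,z8,z3,y8]),(z1,[y1,z0,y1,y1,z0,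
    z1])],.ref k25 k0 [(z4,[z15,y1,y15]),(z2,[y3,z1,z9]),(z1,[z3,y1,y3,z3]),(z1,[y6,z2,z6,z0,z3]),(z4,[z3,y1,y3])],
    .ref k25 k0 [(z2,[z3,z1,z0,y3]),(z5,[y3,z1,z15,z3]),(z5,[z6,y2,z0,z9]),(z5,[y12,z4,z0,z12,z15]),(z10,[z3,y1,z0,
    y3])],.ref k25 k0 [(z2,[y15,z7,z0,z0,z15]),(z1,[z3,y1,z3,z0,y3]),(z1,[y6,z2,z0,z3,z6]),(z1,[z12,y4,z0,z0,y9]),(z2,
    [y3,z1,z0,z0,z3])],.ref k25 k0 [(z2,[z5,z2,z5,z5,z5,y5]),(z1,[y1,z0,z2,y1,y1,z1]),(z1,[z2,z0,z2,z5,z2,y2]),(z1,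
    [y4,z0,y4,y4,y1,z4]),(z2,[z1,z0,z1,z1,z1,y1])],.ref k25 k0 [(z1,[z3,z2,z6,z6,z6,y6]),(z5,[y6,y2,z3,y12,y12,z12]),
    (z5,[z12,z4,z24,z39,z24,y24]),(z5,[y24,y8,y48,y48,y33,z48]),(z5,[z3,z1,z6,z6,z6,y6])],.ref k25 k0 [(z4,[y5,z4,z10,
    z0,z5]),(z2,[z1,z0,z4,z0,y1]),(z1,[y1,z0,z2,z3,z1]),(z1,[z2,z0,y4,z0,z1]),(z4,[y1,z0,z2,z0,z1])],.ref k25 k0 [(z4,
    [y15,y1,z15,y15,y15,z15]),(z2,[z3,z1,z3,z3,z3,y3]),(z1,[y3,y1,z3,z0,y3,z3]),(z1,[z6,z2,y6,z6,z9,y6]),(z4,[y3,y1,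
    z3,y3,y3,z3])],.ref k25 k0 [(z2,[z15,z7,z0,z0,z15,y15]),(z1,[y3,y1,z3,z0,y3,z3]),(z1,[z6,z2,z0,z3,z6,y6]),(z1,
    [y12,y4,z0,z0,y9,z12]),(z2,[z3,z1,z0,z0,z3,y3])],.ref k25 k0 [(z2,[y3,z1,z0,y3,z0,z3]),(z5,[z3,z1,z15,z3,z0,y3]),
    (z5,[y6,y2,z0,z9,z0,z6]),(z5,[z12,z4,z0,z12,z15,y12]),(z10,[y3,y1,z0,y3,z0,z3])],.ref k25 k0 [(z1,[y15,y4,z0,y15,
    y15,z15]),(z1,[z6,z2,z3,z6,z6,y6]),(z1,[y12,y4,z0,y9,y12,z12]),(z1,[z24,z8,z0,z24,z27,y24]),(z1,[y3,y1,z0,y3,y3,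
    z3])],.ref k25 k0 [(z2,[y15,y8,y15,y30,y30,z30]),(z1,[z3,z2,z6,z6,z6,y6]),(z1,[y6,y4,y6,y9,y12,z12]),(z1,[z12,z8,
    z12,z24,z27,y24]),(z2,[y3,y2,y3,y6,y6,z6])],.ref k25 k0 [(z8,[z15,z13,z15,y15,z15,y15]),(z4,[y3,y1,z9,z3,y3,z3]),
    (z2,[z3,z1,z3,z3,z3,y3]),(z1,[y3,y1,y3,z3,z0,z3]),(z8,[z3,z1,z3,y3,z3,y3])],.ref k25 k0 [(z4,[y15,y1,y15,z0,z0,
    z15]),(z2,[z3,z1,z9,z0,z0,y3]),(z1,[y3,y1,y3,z3,z0,z3]),(z1,[z6,z2,z6,z0,z3,y6]),(z4,[y3,y1,y3,z0,z0,z3])],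
    .ref k25 k0 [(z1,[z3,z2,z3,z0,z3,y3]),(z5,[y6,y2,z9,z0,y6,z6]),(z5,[z12,z4,z12,z15,z12,y12]),(z5,[y24,y8,y24,z0,
    y9,z24]),(z5,[z3,z1,z3,z0,z3,y3])],.ref k25 k0 [(z4,[z15,z14,z30,z15,z30,y30]),(z2,[y3,y2,z0,y3,y6,z6]),(z1,[z3,
    z2,z6,z6,z6,y6]),(z1,[y6,y4,y12,y6,y9,z12]),(z4,[z3,z2,z6,z3,z6,y6])],.ref k25 k0 [(z8,[y15,y2,y30,y30,y15,z30]),
    (z4,[z3,z2,z18,z6,z3,y6]),(z2,[y3,y2,y6,z0,y3,z6]),(z1,[z3,z2,z6,z6,z6,y6]),(z8,[y3,y2,y6,y6,y3,z6])],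
    .ref k25 k0 [(z1,[z15,z11,z30,z30,z30,y30]),(z1,[y6,y4,y9,y12,y12,z12]),(z1,[z12,z8,z24,z27,z24,y24]),(z1,[y24,
    y16,y48,y48,y45,z48]),(z1,[z3,z2,z6,z6,z6,y6])]],
    .lp k0 [(nat_lit 474),(nat_lit 472),(nat_lit 486),(nat_lit 490),(nat_lit 486),(nat_lit 466)] [k8,k8,k9,k9,k2,k2,
    k0,k0,k2,k2,k12,k12] k0 [[k0,k0,k0,k0,k6,k6,k16,k0,k0,k0,k0,k2],[k78,k0,k0,k0,k0,k0,k4,k0,k0,k0,k0,k92],[k0,k0,k0,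
    k0,k0,k0,k0,k0,k0,k2,k6,k4],[k0,k0,k0,k0,k4,k4,k8,k0,k0,k0,k0,k0],[k0,k6,k4,k0,k0,k0,k0,k0,k0,k0,k0,k0],[k0,k6,k4,
    k0,k0,k0,k0,k0,k0,k0,k4,k0],[k0,k0,k0,k0,k0,k0,k0,k2,k2,k2,k0,k0],[k4,k16,k8,k0,k0,k0,k0,k0,k0,k0,k2,k0],[k0,k0,
    k0,k2,k0,k0,k0,k2,k0,k0,k70,k0],[k0,k0,k0,k0,k0,k0,k0,k2,k0,k0,k0,k0],[k92,k2,k0,k4,k0,k0,k0,k0,k0,k0,k0,k28],[k0,
    k0,k0,k6,k4,k0,k2,k0,k0,k70,k0,k0]] (nat_lit 1440) k5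
    [[(k8,(nat_lit 410)),(k2,(nat_lit 467)),(k10,(nat_lit 470)),(k11,(nat_lit 470)),(k3,(nat_lit 475)),(k7,
    (nat_lit 478)),(k9,(nat_lit 478)),(k4,(nat_lit 480)),(k6,(nat_lit 482)),(k5,(nat_lit 484)),(k1,(nat_lit 502)),(k0,
    (nat_lit 566))],[(k9,(nat_lit 464)),(k10,(nat_lit 468)),(k11,(nat_lit 470)),(k2,(nat_lit 473)),(k3,(nat_lit 473)),
    (k4,(nat_lit 474)),(k7,(nat_lit 476)),(k5,(nat_lit 480)),(k8,(nat_lit 480)),(k6,(nat_lit 486)),(k0,(nat_lit 552)),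
    (k1,(nat_lit 566))],[(k10,(nat_lit 377)),(k3,(nat_lit 394)),(k11,(nat_lit 469)),(k2,(nat_lit 472)),(k0,
    (nat_lit 473)),(k1,(nat_lit 475)),(k9,(nat_lit 475)),(k5,(nat_lit 479)),(k8,(nat_lit 479)),(k4,(nat_lit 485)),(k7,
    (nat_lit 487)),(k6,(nat_lit 497))],[(k10,(nat_lit 465)),(k1,(nat_lit 467)),(k11,(nat_lit 469)),(k2,(nat_lit 472)),
    (k3,(nat_lit 472)),(k0,(nat_lit 473)),(k8,(nat_lit 477)),(k5,(nat_lit 479)),(k9,(nat_lit 479)),(k4,(nat_lit 483)),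
    (k7,(nat_lit 485)),(k6,(nat_lit 489))],[(k9,(nat_lit 478)),(k11,(nat_lit 478)),(k2,(nat_lit 479)),(k3,
    (nat_lit 479)),(k0,(nat_lit 480)),(k4,(nat_lit 482)),(k10,(nat_lit 482)),(k1,(nat_lit 484)),(k7,(nat_lit 484)),
    (k5,(nat_lit 486)),(k8,(nat_lit 486)),(k6,(nat_lit 488))],[(k0,(nat_lit 474)),(k11,(nat_lit 476)),(k1,
    (nat_lit 480)),(k10,(nat_lit 480)),(k5,(nat_lit 482)),(k2,(nat_lit 483)),(k3,(nat_lit 485)),(k4,(nat_lit 486)),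
    (k8,(nat_lit 486)),(k9,(nat_lit 486)),(k6,(nat_lit 488)),(k7,(nat_lit 488))],[(k0,(nat_lit 476)),(k1,
    (nat_lit 478)),(k10,(nat_lit 478)),(k11,(nat_lit 478)),(k5,(nat_lit 484)),(k2,(nat_lit 485)),(k3,(nat_lit 487)),
    (k4,(nat_lit 488)),(k8,(nat_lit 488)),(k9,(nat_lit 488)),(k6,(nat_lit 490)),(k7,(nat_lit 490))],[(k11,
    (nat_lit 476)),(k10,(nat_lit 480)),(k1,(nat_lit 482)),(k0,(nat_lit 486)),(k8,(nat_lit 486)),(k4,(nat_lit 488)),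
    (k5,(nat_lit 488)),(k6,(nat_lit 488)),(k9,(nat_lit 488)),(k2,(nat_lit 489)),(k7,(nat_lit 490)),(k3,
    (nat_lit 497))],[(k0,(nat_lit 464)),(k3,(nat_lit 475)),(k10,(nat_lit 476)),(k1,(nat_lit 478)),(k5,(nat_lit 478)),
    (k11,(nat_lit 478)),(k2,(nat_lit 479)),(k4,(nat_lit 486)),(k6,(nat_lit 488)),(k7,(nat_lit 488)),(k8,
    (nat_lit 488)),(k9,(nat_lit 488))],[(k1,(nat_lit 410)),(k10,(nat_lit 476)),(k11,(nat_lit 476)),(k2,(nat_lit 477)),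
    (k3,(nat_lit 479)),(k0,(nat_lit 480)),(k4,(nat_lit 486)),(k5,(nat_lit 486)),(k6,(nat_lit 486)),(k8,(nat_lit 486)),
    (k7,(nat_lit 488)),(k9,(nat_lit 488))],[(k11,(nat_lit 466)),(k2,(nat_lit 469)),(k3,(nat_lit 469)),(k0,
    (nat_lit 470)),(k1,(nat_lit 470)),(k4,(nat_lit 476)),(k6,(nat_lit 476)),(k8,(nat_lit 476)),(k5,(nat_lit 478)),(k7,
    (nat_lit 478)),(k9,(nat_lit 478)),(k10,(nat_lit 536))],[(k3,(nat_lit 377)),(k10,(nat_lit 438)),(k2,(nat_lit 465)),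
    (k0,(nat_lit 468)),(k1,(nat_lit 470)),(k8,(nat_lit 476)),(k9,(nat_lit 476)),(k7,(nat_lit 478)),(k4,(nat_lit 480)),
    (k6,(nat_lit 480)),(k5,(nat_lit 482)),(k11,(nat_lit 536))]]
    [[k1,k2,k0,k0,k0,k0],[k1,k1,k1,k0,k0,k0],[k1,k1,k0,k0,k1,k0],[k1,k1,k0,k0,k0,k1],[k1,k0,k1,k0,k1,k0],[k1,k0,k1,k0,
    k0,k1],[k1,k0,k0,k1,k1,k0],[k1,k0,k0,k1,k0,k1],[k1,k0,k0,k0,k2,k0],[k1,k0,k0,k0,k1,k1],[k1,k0,k0,k0,k0,k2],[k0,k3,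
    k0,k0,k0,k0],[k0,k2,k1,k0,k0,k0],[k0,k2,k0,k0,k1,k0],[k0,k2,k0,k0,k0,k1],[k0,k2,k0,k1,k0,k0],[k0,k1,k1,k0,k0,k1],
    [k0,k1,k0,k1,k0,k1],[k0,k1,k0,k0,k1,k1],[k0,k1,k0,k0,k0,k2],[k0,k0,k1,k0,k1,k1],[k0,k0,k1,k0,k0,k2],[k0,k0,k0,k1,
    k0,k2],[k0,k0,k0,k0,k1,k2]]
    [.ref k25 k0 [(z2,[y3,z1,z6]),(z4,[z9,y1,y6]),(z24,[y9,z1,z18,z8]),(z12,[z9,y1,y18,z0,z4]),(z8,[y9,z1,z18])],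
    .ref k25 k0 [(z3,[y36,z5,z36,z4]),(z1,[z18,y2,y15,y2]),(z3,[y9,z1,z9,z2]),(z3,[z18,y2,y18,y2,z1]),(z1,[y9,z1,z9,
    z1])],.ref k25 k0 [(z1,[z12,y1,y12]),(z1,[y18,z2,z21]),(z3,[z9,y1,y9,z1]),(z3,[y18,z2,z18,z0,z1]),(z1,[z9,y1,
    y9])],.ref k25 k0 [(z3,[y18,z1,z0,y2,y2,z18]),(z1,[z9,z0,z3,z1,z1,y9]),(z6,[y9,z0,z0,z1,y1,z9]),(z3,[z9,z0,z0,z1,
    z2,y9]),(z2,[y9,z0,z0,y1,y1,z9])],.ref k25 k0 [(z6,[z9,z1,z0,y1]),(z4,[y9,z1,z12,z1]),(z24,[z9,y1,z0,z7]),(z12,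
    [y9,z1,z0,z1,z4]),(z8,[z9,y1,z0,y1])],.ref k25 k0 [(z15,[z36,z5,z36,z0,z4,y36]),(z5,[y18,z0,y3,z0,y2,z18]),(z15,
    [z9,z0,z9,z5,z1,y9]),(z5,[y6,z0,y6,z0,z1,z6]),(z5,[z9,z0,z9,z0,z1,y9])],.ref k25 k0 [(z15,[z36,z1,z0,z0,y4]),(z5,
    [y18,z2,z15,z0,z2]),(z15,[z9,y1,z0,z5,y1]),(z15,[y18,z2,z0,z0,z7]),(z5,[z9,y1,z0,z0,y1])],.ref k25 k0 [(z3,[z18,
    z1,z18,z2,z0,y18]),(z1,[y9,z0,y6,y1,z0,z9]),(z2,[z3,z0,z3,z1,z0,y3]),(z3,[y9,z0,y9,y1,z1,z9]),(z2,[z9,z0,z9,z1,z0,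
    y9])],.ref k25 k0 [(z5,[z6,z1]),(z5,[y9,z1,z15]),(z30,[z9,y1,z0,z10]),(z15,[y9,z1,z0,z0,z5]),(z10,[z9,y1])],
    .ref k25 k0 [(z21,[z36,z7,z36,z4,z4,y36]),(z7,[y18,z0,z3,y2,y2,z18]),(z21,[z9,z0,z9,z8,z1,y9]),(z21,[y18,z0,y18,
    y2,z5,z18]),(z7,[z9,z0,z9,z1,z1,y9])],.ref k25 k0 [(z3,[z9,z2,z18,z2,z2,y18]),(z2,[y9,y1,y12,y2,y2,z18]),(z12,[z9,
    z1,z18,z6,z2,y18]),(z6,[y9,y1,y18,y2,z0,z18]),(z4,[z9,z1,z18,z2,z2,y18])],.ref k25 k0 [(z3,[y2,z1,z6]),(z1,[z1]),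
    (z6,[y1,z0,z3,z2]),(z3,[z1,z0,y3,z0,z1]),(z2,[y1,z0,z3])],.ref k25 k0 [(z33,[y36,z11,z72,z4]),(z11,[z18,z0,y3,
    y2]),(z11,[y3,z0,z6,z4]),(z33,[z18,z0,y36,y2,z11]),(z11,[y9,z0,z18,z1])],.ref k25 k0 [(z3,[y4,z1,z8]),(z1,[z2,z0,
    y1]),(z3,[y1,z0,z2,z1]),(z3,[z2,z0,y4,z0,z1]),(z1,[y1,z0,z2])],.ref k25 k0 [(z9,[y9,z2,z9,y1,y1,z9]),(z6,[z9,z1,
    z9,z1,z1,y9]),(z36,[y9,y1,z9,z11,y1,z9]),(z18,[z9,z1,y9,z1,z7,y9]),(z12,[y9,y1,z9,y1,y1,z9])],.ref k25 k0 [(z21,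
    [y18,z7,z36,z0,z2]),(z7,[z9,z0,z3,z0,y1]),(z42,[y9,z0,z18,z14,z1]),(z7,[z3,z0,y6,z0,z2]),(z14,[y9,z0,z18,z0,z1])],
    .ref k25 k0 [(z15,[y36,z1,z0,z0,y4,z36]),(z5,[z18,z2,z15,z0,z2,y18]),(z15,[y9,y1,z0,z5,y1,z9]),(z15,[z18,z2,z0,z0,
    z7,y18]),(z5,[y9,y1,z0,z0,y1,z9])],.ref k25 k0 [(z6,[y9,z1,z0,y1,z0,z9]),(z4,[z9,z1,z12,z1,z0,y9]),(z24,[y9,y1,z0,
    z7,z0,z9]),(z12,[z9,z1,z0,z1,z4,y9]),(z8,[y9,y1,z0,y1,z0,z9])],.ref k25 k0 [(z9,[y36,y1,z0,y4,y4,z36]),(z3,[z18,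
    z2,z9,z2,z2,y18]),(z9,[y9,y1,z0,z2,y1,z9]),(z9,[z18,z2,z0,z2,z5,y18]),(z3,[y9,y1,z0,y1,y1,z9])],.ref k25 k0 [(z9,
    [y18,y1,y18,y4,y4,z36]),(z3,[z9,z2,z18,z2,z2,y18]),(z18,[y9,y2,y9,z4,y2,z18]),(z9,[z9,z2,z9,z2,z5,y18]),(z6,[y9,
    y2,y9,y2,y2,z18])],.ref k25 k0 [(z3,[z9,z2,z9,z0,z1,y9]),(z2,[y9,y1,y3,z0,y1,z9]),(z12,[z9,z1,z9,z4,z1,y9]),(z6,
    [y9,y1,y9,z0,z1,z9]),(z4,[z9,z1,z9,z0,z1,y9])],.ref k25 k0 [(z3,[z36,z9,z72,z4,z8,y72]),(z1,[y18,y4,y33,y2,y4,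
    z36]),(z3,[z9,z2,z18,z2,z2,y18]),(z3,[y18,y4,y36,y2,y3,z36]),(z1,[z9,z2,z18,z1,z2,y18])],.ref k25 k0 [(z3,[y18,y3,
    y36,y4,y2,z36]),(z1,[z9,z2,z21,z2,z1,y18]),(z6,[y9,y2,y18,z0,y1,z18]),(z3,[z9,z2,z18,z2,z2,y18]),(z2,[y9,y2,y18,
    y2,y1,z18])],.ref k25 k0 [(z9,[z36,z11,z72,z8,z8,y72]),(z3,[y18,y4,y27,y4,y4,z36]),(z9,[z9,z2,z18,z5,z2,y18]),(z9,
    [y18,y4,y36,y4,y1,z36]),(z3,[z9,z2,z18,z2,z2,y18])]],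
    .base (.leafM k1 [k0,k1,k2,k3,k4,k5] [(z3,[z0,z1,z0,z1]),(z3,[z0,y1,z0,y1,z3])] []),
    .lp k0 [(nat_lit 642),(nat_lit 616),(nat_lit 652),(nat_lit 660),(nat_lit 700),(nat_lit 566)] [k29,k29,k42,k42,k24,
    k24,k20,k20,k0,k0,k67,k67] k0 [[k0,k48,k24,k0,k36,k0,k0,k0,k0,k0,k0,k46],[k0,k0,k0,k0,k8,k0,k12,k8,k32,k0,k0,k42],
    [k0,k0,k0,k0,k8,k0,k12,k0,k0,k0,k0,k42],[k0,k24,k0,k0,k12,k0,k0,k0,k0,k0,k0,k46],[k0,k0,k0,k0,k0,k0,k48,k0,k28,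
    k36,k10,k14],[k8,k36,k12,k8,k0,k0,k0,k0,k0,k0,k0,k0],[k8,k0,k0,k0,k0,k0,k0,k0,k24,k32,k0,k0],[k12,k0,k0,k12,k0,
    k48,k0,k0,k0,k0,k58,k10],[k0,k0,k0,k0,k0,k36,k0,k32,k0,k68,k154,k0],[k32,k0,k0,k0,k0,k28,k0,k24,k0,k0,k18,k0],
    [k42,k46,k46,k42,k0,k14,k10,k0,k0,k0,k0,k0],[k0,k0,k0,k0,k0,k10,k58,k0,k18,k154,k0,k0]] (nat_lit 1920) k5
    [[(k8,(nat_lit 517)),(k11,(nat_lit 586)),(k10,(nat_lit 604)),(k9,(nat_lit 613)),(k4,(nat_lit 637)),(k1,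
    (nat_lit 642)),(k6,(nat_lit 661)),(k7,(nat_lit 665)),(k2,(nat_lit 675)),(k3,(nat_lit 675)),(k0,(nat_lit 684)),(k5,
    (nat_lit 689))],[(k10,(nat_lit 558)),(k0,(nat_lit 594)),(k11,(nat_lit 604)),(k7,(nat_lit 615)),(k5,(nat_lit 623)),
    (k2,(nat_lit 629)),(k3,(nat_lit 629)),(k4,(nat_lit 655)),(k6,(nat_lit 663)),(k9,(nat_lit 679)),(k1,(nat_lit 684)),
    (k8,(nat_lit 703))],[(k10,(nat_lit 549)),(k11,(nat_lit 559)),(k0,(nat_lit 629)),(k6,(nat_lit 630)),(k7,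
    (nat_lit 630)),(k5,(nat_lit 634)),(k2,(nat_lit 640)),(k9,(nat_lit 646)),(k8,(nat_lit 658)),(k3,(nat_lit 664)),(k4,
    (nat_lit 670)),(k1,(nat_lit 675))],[(k10,(nat_lit 549)),(k11,(nat_lit 591)),(k2,(nat_lit 616)),(k0,(nat_lit 629)),
    (k7,(nat_lit 630)),(k5,(nat_lit 634)),(k6,(nat_lit 638)),(k3,(nat_lit 640)),(k4,(nat_lit 646)),(k9,(nat_lit 646)),
    (k8,(nat_lit 658)),(k1,(nat_lit 675))],[(k10,(nat_lit 563)),(k11,(nat_lit 609)),(k0,(nat_lit 623)),(k2,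
    (nat_lit 634)),(k3,(nat_lit 634)),(k7,(nat_lit 644)),(k5,(nat_lit 652)),(k4,(nat_lit 660)),(k6,(nat_lit 668)),(k8,
    (nat_lit 676)),(k9,(nat_lit 676)),(k1,(nat_lit 689))],[(k11,(nat_lit 581)),(k10,(nat_lit 595)),(k9,(nat_lit 628)),
    (k1,(nat_lit 637)),(k8,(nat_lit 640)),(k2,(nat_lit 646)),(k4,(nat_lit 652)),(k0,(nat_lit 655)),(k6,(nat_lit 656)),
    (k7,(nat_lit 656)),(k5,(nat_lit 660)),(k3,(nat_lit 670))],[(k0,(nat_lit 615)),(k10,(nat_lit 623)),(k2,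
    (nat_lit 630)),(k3,(nat_lit 630)),(k5,(nat_lit 644)),(k11,(nat_lit 649)),(k4,(nat_lit 656)),(k7,(nat_lit 660)),
    (k1,(nat_lit 665)),(k9,(nat_lit 680)),(k6,(nat_lit 708)),(k8,(nat_lit 708))],[(k11,(nat_lit 589)),(k3,
    (nat_lit 630)),(k2,(nat_lit 638)),(k8,(nat_lit 648)),(k4,(nat_lit 656)),(k6,(nat_lit 660)),(k1,(nat_lit 661)),(k0,
    (nat_lit 663)),(k5,(nat_lit 668)),(k10,(nat_lit 671)),(k9,(nat_lit 680)),(k7,(nat_lit 708))],[(k1,(nat_lit 613)),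
    (k10,(nat_lit 623)),(k4,(nat_lit 628)),(k2,(nat_lit 646)),(k3,(nat_lit 646)),(k11,(nat_lit 665)),(k5,
    (nat_lit 676)),(k0,(nat_lit 679)),(k6,(nat_lit 680)),(k7,(nat_lit 680)),(k9,(nat_lit 700)),(k8,(nat_lit 724))],
    [(k1,(nat_lit 517)),(k8,(nat_lit 632)),(k11,(nat_lit 633)),(k4,(nat_lit 640)),(k6,(nat_lit 648)),(k10,
    (nat_lit 651)),(k2,(nat_lit 658)),(k3,(nat_lit 658)),(k5,(nat_lit 676)),(k0,(nat_lit 703)),(k7,(nat_lit 708)),(k9,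
    (nat_lit 724))],[(k3,(nat_lit 559)),(k4,(nat_lit 581)),(k1,(nat_lit 586)),(k6,(nat_lit 589)),(k2,(nat_lit 591)),
    (k0,(nat_lit 604)),(k5,(nat_lit 609)),(k8,(nat_lit 633)),(k11,(nat_lit 634)),(k7,(nat_lit 649)),(k9,
    (nat_lit 665)),(k10,(nat_lit 720))],[(k2,(nat_lit 549)),(k3,(nat_lit 549)),(k0,(nat_lit 558)),(k5,(nat_lit 563)),
    (k10,(nat_lit 566)),(k4,(nat_lit 595)),(k1,(nat_lit 604)),(k7,(nat_lit 623)),(k9,(nat_lit 623)),(k8,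
    (nat_lit 651)),(k6,(nat_lit 671)),(k11,(nat_lit 720))]]
    [[k2,k0,k0,k0,k1,k0],[k2,k0,k0,k0,k0,k1],[k2,k1,k0,k0,k0,k0],[k1,k1,k0,k0,k0,k1],[k1,k1,k1,k0,k0,k0],[k1,k0,k1,k0,
    k0,k1],[k1,k0,k0,k1,k0,k1],[k1,k1,k0,k0,k1,k0],[k1,k0,k1,k0,k1,k0],[k1,k0,k0,k1,k1,k0],[k1,k0,k0,k0,k1,k1],[k1,k0,
    k0,k0,k0,k2],[k0,k2,k0,k1,k0,k0],[k0,k2,k0,k0,k0,k1],[k0,k1,k1,k0,k0,k1],[k0,k1,k0,k1,k0,k1],[k0,k1,k0,k0,k1,k1],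
    [k0,k1,k0,k0,k0,k2],[k0,k0,k2,k0,k0,k1],[k0,k0,k1,k1,k0,k1],[k0,k0,k1,k0,k1,k1],[k0,k0,k1,k0,k0,k2],[k0,k0,k0,k1,
    k0,k2],[k0,k0,k0,k0,k1,k2]]
    [.ref k25 k0 [(z3,[z4,z1]),(z3,[y2,z4,z9]),(z1,[z1,y2,z0,z1]),(z1,[y2,z4,z0,z0,z1]),(z3,[z1,y2])],
    .ref k25 k0 [(z2,[z3,z3,z3,z1,z1,y3]),(z4,[y3,z3,z9,y1,y1,z3]),(z8,[z9,y9,z9,z11,z3,y9]),(z4,[y9,z9,y9,y3,z1,z9]),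
    (z8,[z3,y3,z3,z1,z1,y3])],.ref k25 k0 [(z1,[z2,y1,y2]),(z1,[y1,z2,z4]),(z2,[z3,y6,y3,z2]),(z1,[y3,z6,z3,z0,z1]),
    (z2,[z1,y2,y1])],.ref k25 k0 [(z1,[z6,z3,z0,z2,z2,y6]),(z1,[y3,z0,z3,y1,y1,z3]),(z2,[z9,z0,z0,z5,z3,y9]),(z1,[y9,
    z0,z0,y3,y2,z9]),(z2,[z3,z0,z0,z1,z1,y3])],.ref k25 k0 [(z5,[z12,z3,y12,y4]),(z5,[y6,z6,z21,z2]),(z5,[z9,y9,y9,
    z2]),(z5,[y18,z18,z18,z6,z5]),(z5,[z3,y3,y3,y1])],.ref k25 k0 [(z7,[z12,z21,z12,z0,z4,y12]),(z7,[y6,z0,z15,z0,y2,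
    z6]),(z7,[z9,z0,z9,z7,z3,y9]),(z7,[y18,z0,y18,z0,z1,z18]),(z7,[z3,z0,z3,z0,z1,y3])],.ref k25 k0 [(z1,[y6,z3,y6,y2,
    z0,z6]),(z1,[z3,z0,z6,z1,z0,y3]),(z2,[y9,z0,y9,y1,z0,z9]),(z1,[z9,z0,z9,z3,z1,y9]),(z2,[y3,z0,y3,y1,z0,z3])],
    .ref k25 k0 [(z1,[z4,y1,y4]),(z1,[y2,z2,z5]),(z1,[z3,y3,y3,z1]),(z1,[y6,z6,z6,z0,z1]),(z1,[z1,y1,y1])],
    .ref k25 k0 [(z2,[z3,z3,z0,y1]),(z4,[y3,z3,z12,z1]),(z8,[z9,y9,z0,z5]),(z4,[y9,z9,z0,z3,z4]),(z8,[z3,y3,z0,y1])],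
    .ref k25 k0 [(z1,[y12,z15,z0,z0,z4]),(z1,[z6,y6,z3,z0,y2]),(z1,[y9,z9,z0,z1,z3]),(z1,[z18,y18,z0,z0,y5]),(z1,[y3,
    z3,z0,z0,z1])],.ref k25 k0 [(z5,[z12,z15,z12,z4,z4,y12]),(z5,[y6,z0,z9,y2,y2,z6]),(z5,[z9,z0,z9,z8,z3,y9]),(z5,
    [y18,z0,y18,y6,y1,z18]),(z5,[z3,z0,z3,z1,z1,y3])],.ref k25 k0 [(z1,[z3,z6,z6,z2,z2,y6]),(z2,[y3,y3,z0,y2,y2,z6]),
    (z4,[z9,z9,z18,z10,z6,y18]),(z2,[y9,y9,y18,y6,y4,z18]),(z4,[z3,z3,z6,z2,z2,y6])],.ref k25 k0 [(z5,[y6,z15,z12,z0,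
    z2]),(z5,[z3,z0,z9,z0,y1]),(z10,[y9,z0,z18,z10,z3]),(z5,[z9,z0,y18,z0,z2]),(z10,[y3,z0,z6,z0,z1])],
    .ref k25 k0 [(z1,[y3,z0,z3,y1,y1,z3]),(z2,[z3,z3,z3,z1,z1,y3]),(z4,[y9,y9,z9,z1,y3,z9]),(z2,[z9,z9,y9,z3,z5,y9]),
    (z4,[y3,y3,z3,y1,y1,z3])],.ref k25 k0 [(z1,[z12,z15,z0,z0,z4,y12]),(z1,[y6,y6,z3,z0,y2,z6]),(z1,[z9,z9,z0,z1,z3,
    y9]),(z1,[y18,y18,z0,z0,y5,z18]),(z1,[z3,z3,z0,z0,z1,y3])],.ref k25 k0 [(z2,[y3,z3,z0,y1,z0,z3]),(z4,[z3,z3,z12,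
    z1,z0,y3]),(z8,[y9,y9,z0,z5,z0,z9]),(z4,[z9,z9,z0,z3,z4,y9]),(z8,[y3,y3,z0,y1,z0,z3])],.ref k25 k0 [(z1,[y12,y9,
    z0,y4,y4,z12]),(z1,[z6,z6,z3,z2,z2,y6]),(z1,[y9,y9,z0,y2,y3,z9]),(z1,[z18,z18,z0,z6,z7,y18]),(z1,[y3,y3,z0,y1,y1,
    z3])],.ref k25 k0 [(z1,[y6,y9,y6,y4,y4,z12]),(z1,[z3,z6,z6,z2,z2,y6]),(z2,[y9,y18,y9,y4,y6,z18]),(z1,[z9,z18,z9,
    z6,z7,y18]),(z2,[y3,y6,y3,y2,y2,z6])],.ref k25 k0 [(z3,[z6,z15,z6,y2,z2,y6]),(z3,[y3,y3,z6,z1,y1,z3]),(z2,[z3,z3,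
    z3,z1,z1,y3]),(z1,[y3,y3,y3,z1,z0,z3]),(z6,[z3,z3,z3,y1,z1,y3])],.ref k25 k0 [(z1,[y4,y1,y4,z0,z0,z4]),(z1,[z2,z2,
    z5,z0,z0,y2]),(z1,[y3,y3,y3,z1,z0,z3]),(z1,[z6,z6,z6,z0,z1,y6]),(z1,[y1,y1,y1,z0,z0,z1])],.ref k25 k0 [(z1,[z3,z6,
    z3,z0,z1,y3]),(z2,[y3,y3,z3,z0,y1,z3]),(z4,[z9,z9,z9,z4,z3,y9]),(z2,[y9,y9,y9,z0,y1,z9]),(z4,[z3,z3,z3,z0,z1,
    y3])],.ref k25 k0 [(z3,[z12,z33,z24,z4,z8,y24]),(z3,[y6,y12,y3,y2,y4,z12]),(z1,[z3,z6,z6,z2,z2,y6]),(z1,[y6,y12,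
    y12,y2,y3,z12]),(z3,[z3,z6,z6,z1,z2,y6])],.ref k25 k0 [(z3,[y6,y3,y12,y4,y2,z12]),(z3,[z3,z6,z15,z2,z1,y6]),(z2,
    [y3,y6,y6,z0,y1,z6]),(z1,[z3,z6,z6,z2,z2,y6]),(z6,[y3,y6,y6,y2,y1,z6])],.ref k25 k0 [(z1,[z12,z27,z24,z8,z8,y24]),
    (z1,[y6,y12,y9,y4,y4,z12]),(z1,[z9,z18,z18,z7,z6,y18]),(z1,[y18,y36,y36,y12,y11,z36]),(z1,[z3,z6,z6,z2,z2,y6])]],
    .lp k0 [k158,k150,k168,k168,k168,k144] [k5,k5,k9,k9,k0,k0,k0,k0,k0,k0,k12,k12] k0 [[k0,k0,k0,k0,k2,k8,k10,k0,k0,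
    k0,k0,k0],[k20,k0,k0,k0,k0,k0,k0,k0,k0,k0,k0,k20],[k0,k0,k0,k0,k0,k0,k0,k0,k0,k2,k4,k0],[k0,k0,k0,k0,k0,k4,k6,k0,
    k0,k0,k0,k0],[k0,k8,k4,k0,k0,k0,k0,k0,k0,k0,k0,k0],[k0,k2,k0,k0,k0,k0,k0,k0,k0,k0,k2,k0],[k0,k0,k0,k0,k0,k0,k0,k0,
    k0,k0,k0,k0],[k0,k10,k6,k0,k0,k0,k0,k0,k0,k0,k0,k0],[k0,k0,k0,k2,k0,k0,k0,k0,k0,k0,k0,k0],[k0,k0,k0,k0,k0,k0,k0,
    k0,k0,k0,k0,k0],[k20,k0,k0,k0,k0,k0,k0,k0,k0,k0,k0,k20],[k0,k0,k0,k4,k2,k0,k0,k0,k0,k0,k0,k0]] (nat_lit 480) k5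
    [[(k2,k150),(k10,k151),(k11,k151),(k3,k154),(k7,k161),(k4,k163),(k5,k163),(k6,k163),(k8,k163),(k9,k163),(k0,k178),
    (k1,k178)],[(k10,k151),(k11,k151),(k9,k153),(k2,k154),(k3,k154),(k4,k155),(k7,k161),(k5,k163),(k6,k163),(k8,k163),
    (k0,k178),(k1,k178)],[(k10,k127),(k3,k130),(k11,k147),(k2,k150),(k0,k154),(k1,k154),(k5,k159),(k8,k159),(k9,k159),
    (k4,k161),(k7,k167),(k6,k169)],[(k10,k147),(k11,k147),(k1,k150),(k2,k150),(k3,k150),(k0,k154),(k8,k157),(k4,k159),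
    (k5,k159),(k9,k159),(k7,k163),(k6,k165)],[(k11,k158),(k2,k159),(k3,k159),(k10,k160),(k9,k162),(k0,k163),(k1,k163),
    (k4,k164),(k5,k168),(k6,k168),(k7,k168),(k8,k168)],[(k0,k155),(k11,k156),(k10,k158),(k2,k159),(k3,k161),(k1,k163),
    (k5,k164),(k4,k168),(k6,k168),(k7,k168),(k8,k168),(k9,k168)],[(k10,k156),(k11,k156),(k0,k161),(k1,k161),(k2,k163),
    (k3,k167),(k4,k168),(k5,k168),(k6,k168),(k7,k168),(k8,k168),(k9,k168)],[(k10,k156),(k11,k156),(k0,k163),(k1,k163),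
    (k2,k165),(k4,k168),(k5,k168),(k6,k168),(k7,k168),(k8,k168),(k9,k168),(k3,k169)],[(k0,k153),(k10,k156),(k11,k156),
    (k2,k159),(k3,k159),(k5,k162),(k1,k163),(k4,k168),(k6,k168),(k7,k168),(k8,k168),(k9,k168)],[(k10,k156),(k11,k156),
    (k2,k157),(k3,k159),(k0,k163),(k1,k163),(k4,k168),(k5,k168),(k6,k168),(k7,k168),(k8,k168),(k9,k168)],[(k10,k144),
    (k11,k144),(k2,k147),(k3,k147),(k0,k151),(k1,k151),(k4,k156),(k6,k156),(k7,k156),(k8,k156),(k9,k156),(k5,k158)],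
    [(k10,k124),(k3,k127),(k11,k144),(k2,k147),(k0,k151),(k1,k151),(k6,k156),(k7,k156),(k8,k156),(k9,k156),(k4,k158),
    (k5,k160)]]
    [[k1,k2,k0,k0,k0,k0],[k1,k1,k1,k0,k0,k0],[k1,k1,k0,k0,k1,k0],[k1,k1,k0,k0,k0,k1],[k1,k0,k1,k0,k0,k1],[k1,k0,k0,k1,
    k0,k1],[k1,k0,k0,k0,k1,k1],[k1,k0,k0,k0,k0,k2],[k0,k3,k0,k0,k0,k0],[k0,k2,k1,k0,k0,k0],[k0,k2,k0,k0,k1,k0],[k0,k2,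
    k0,k0,k0,k1],[k0,k2,k0,k1,k0,k0],[k0,k1,k1,k0,k0,k1],[k0,k1,k0,k1,k0,k1],[k0,k1,k0,k0,k1,k1],[k0,k1,k0,k0,k0,k2],
    [k0,k0,k1,k0,k1,k1],[k0,k0,k1,k0,k0,k2],[k0,k0,k0,k1,k0,k2],[k0,k0,k0,k0,k1,k2],[k0,k0,k0,k0,k0,k3]]
    [.ref k68 k1 [(z18,[z6,y1,y4,z9]),(z3,[z6,y1,y1]),(z3,[y3,z2,z2]),(z9,[y6,z1,z4])],.ref (nat_lit 211) k5 [(z2,[y6,
    z1,z2,y3]),(z1,[z0,z0,z0,z1]),(z3,[y3,z1,z1]),(z3,[z6,y1,y1])],.ref k68 k4 [(z3,[z3,y1,y1]),(z2,[z0,y1,y2,y3,z6]),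
    (z2,[z6,y1,y2,z3]),(z3,[z0,z1,z1])],.ref (nat_lit 280) k10 [(z3,[z6,y1,y1,y6]),(z3,[y3,z1,z1,z3]),(z1,[z0,z0,z0,
    z1]),(z2,[y6,z1,z2,z3])],.ref (nat_lit 211) k5 [(z2,[z6,y1,z0,y9]),(z1,[z0,z0,z0,z1]),(z1,[z1,z0,z0,y1]),(z3,[y6,
    z1,z1,z6])],.ref (nat_lit 305) k5 [(z1,[z3,z0,z1,y3,y3]),(z1,[z0,z0,z0,z1]),(z2,[z6,z1,z2,y3,y6]),(z1,[y6,z0,y1,
    z3,z6])],.ref (nat_lit 306) k5 [(z2,[z6,y1,z0,y9]),(z1,[z0,z0,z0,z1]),(z2,[z6,z1,z0,y3]),(z2,[y6,z1,z2,z3])],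
    .ref (nat_lit 307) k5 [(z2,[z6,y1,z0,y15]),(z1,[z0,z0,z0,z1]),(z1,[z1,z0,z0,y2]),(z3,[y6,z1,z1,z12])],
    .ref k68 k1 [(z6,[z1,z0,y1,z3]),(z1,[z1]),(z2,[y1,z1,z1]),(z3,[y1,z0,z1])],.ref k40 k5 [(z1,[y3,z0,z2,y6]),(z1,
    [z0,z0,z0,z1]),(z3,[y3,z2,z2]),(z1,[z1])],.ref (nat_lit 308) k5 [(z1,[y3,z0,z2,y6]),(z1,[z0,z0,z0,z1]),(z2,[y6,z3,
    z4,y3]),(z1,[z6,z0,y1,z3])],.ref (nat_lit 302) k1 [(z2,[z3,z0,y2,z3]),(z1,[z3,z0,y1]),(z2,[y3,z1,z2]),(z1,[y3,z0,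
    z2])],.ref k68 k1 [(z24,[z6,z1,y2,z15,y6]),(z4,[z6,z1,z2,z3,y6]),(z8,[y6,z3,z2,y3,z6]),(z12,[y6,y1,z2,y3,z6])],
    .ref (nat_lit 302) k1 [(z1,[z3,z0,y1]),(z1,[z6,z0,y1,y3]),(z2,[y6,z1,z2,z3]),(z1,[y6,z0,z2,z3])],
    .ref (nat_lit 309) k9 [(z2,[z6,y1,z0,z3,y6]),(z4,[y6,y1,z0,y3,z6]),(z2,[z0,y1,y2,y3,z6]),(z4,[y6,z1,z0,z3,z6])],
    .ref (nat_lit 309) k9 [(z1,[z6,y1,y2]),(z1,[y3,z0,z1]),(z2,[z0,y1,y2,y3,z6]),(z2,[y6,z1,z2,z3])],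
    .ref (nat_lit 280) k10 [(z1,[z1,z0,z0,y2]),(z6,[y3,z1,z1,z6]),(z1,[z0,z0,z0,z1]),(z2,[y3,z0,z1,z3])],
    .ref k68 k1 [(z1,[y1,z0,z0,z1]),(z1,[y6,z0,z1,z3]),(z2,[z6,z1,z0,y3]),(z1,[z2,z0,z0,y1])],.ref k68 k4 [(z6,[y2,y1,
    z0,z1]),(z2,[z0,y1,y2,y3,z6]),(z1,[y1,z0,z0,z2]),(z3,[z0,z1,z1])],.ref k68 k4 [(z24,[y6,y5,y2,y3,z6]),(z2,[z0,y1,
    y2,y3,z6]),(z8,[y6,y1,y2,z9,z6]),(z3,[z0,z1,z1])],.ref (nat_lit 310) k5 [(z1,[z1,z0,z0,y2]),(z1,[z0,z0,z0,z1]),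
    (z2,[z6,z1,z0,y9]),(z1,[y6,z0,z1,z9])],.ref k68 k4 [(z6,[y1,y1]),(z2,[z0,y1,y2,y3,z6]),(z2,[y1,z0,z0,z3]),(z3,[z0,
    z1,z1])]]]

theorem hB6_171_25 : blkB [0, 0, 0, 0, 0, 0] [] sp6 hS6_171 (pcls (n := 6) [0, 0, 0, 0, 0, 0]) hD6_171 560 25 hN6_171_25 = true := by
  decide +kernel

end Pool.Agent.Lib_MP_fa6e45
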