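import Pool.Agent.Lib_MP_fa6e45.HK

/-!
MP_fa6e45_co, stage 4: certificates (captain, generated by a program).
-/

namespace Pool.Agent.Lib_MP_fa6e45

/-- nodes 312 to 323 -/
noncomputable def hN6_171_26 : List HM :=
  [.lp k0 [(nat_lit 316),(nat_lit 310),(nat_lit 344),(nat_lit 278),(nat_lit 340),(nat_lit 328)] [k40,k24,k35,k35,k18,
    k18,k51,k51,k40,k0,k26,k26] k0 [[k0,k0,k34,k46,k0,k0,k0,k0,k0,k28,k0,k0],[k0,k0,k0,k0,k6,k38,k0,k0,k0,k0,k0,k12],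
    [k0,k46,k0,k0,k0,k0,k0,k54,k18,k6,k34,k0],[k0,k34,k0,k0,k0,k0,k0,k6,k0,k0,k10,k0],[k38,k0,k0,k0,k0,k0,k122,k0,k6,
    k78,k0,k50],[k6,k0,k0,k0,k0,k0,k0,k0,k0,k0,k0,k6],[k0,k0,k6,k54,k0,k0,k0,k0,k40,k0,k0,k0],[k0,k0,k0,k0,k0,k122,k4,
    k0,k0,k0,k116,k0],[k0,k28,k0,k6,k0,k78,k0,k0,k0,k0,k72,k0],[k0,k0,k0,k18,k0,k6,k0,k40,k4,k0,k0,k0],[k12,k0,k0,k0,
    k6,k50,k0,k0,k0,k0,k0,k12],[k0,k0,k10,k34,k0,k0,k116,k0,k0,k72,k0,k0]] (nat_lit 960) k5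
    [[(k9,(nat_lit 240)),(k8,(nat_lit 244)),(k2,(nat_lit 287)),(k6,(nat_lit 305)),(k3,(nat_lit 321)),(k0,
    (nat_lit 328)),(k5,(nat_lit 328)),(k10,(nat_lit 330)),(k11,(nat_lit 330)),(k1,(nat_lit 344)),(k4,(nat_lit 344)),
    (k7,(nat_lit 355))],[(k2,(nat_lit 259)),(k8,(nat_lit 272)),(k5,(nat_lit 288)),(k6,(nat_lit 289)),(k0,
    (nat_lit 300)),(k3,(nat_lit 305)),(k10,(nat_lit 314)),(k11,(nat_lit 314)),(k7,(nat_lit 327)),(k1,(nat_lit 328)),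
    (k4,(nat_lit 328)),(k9,(nat_lit 340))],[(k7,(nat_lit 288)),(k4,(nat_lit 289)),(k6,(nat_lit 294)),(k0,
    (nat_lit 305)),(k8,(nat_lit 305)),(k10,(nat_lit 307)),(k3,(nat_lit 310)),(k1,(nat_lit 321)),(k2,(nat_lit 344)),
    (k9,(nat_lit 345)),(k11,(nat_lit 347)),(k5,(nat_lit 373))],[(k6,(nat_lit 240)),(k0,(nat_lit 259)),(k1,
    (nat_lit 287)),(k7,(nat_lit 294)),(k8,(nat_lit 299)),(k11,(nat_lit 301)),(k2,(nat_lit 310)),(k4,(nat_lit 327)),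
    (k5,(nat_lit 327)),(k10,(nat_lit 329)),(k3,(nat_lit 344)),(k9,(nat_lit 351))],[(k0,(nat_lit 288)),(k6,
    (nat_lit 305)),(k7,(nat_lit 311)),(k2,(nat_lit 327)),(k1,(nat_lit 328)),(k8,(nat_lit 340)),(k11,(nat_lit 342)),
    (k4,(nat_lit 344)),(k5,(nat_lit 344)),(k10,(nat_lit 370)),(k3,(nat_lit 373)),(k9,(nat_lit 416))],[(k9,
    (nat_lit 240)),(k8,(nat_lit 244)),(k10,(nat_lit 286)),(k3,(nat_lit 289)),(k6,(nat_lit 311)),(k7,(nat_lit 311)),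
    (k2,(nat_lit 327)),(k0,(nat_lit 328)),(k11,(nat_lit 330)),(k1,(nat_lit 344)),(k4,(nat_lit 344)),(k5,
    (nat_lit 344))],[(k7,(nat_lit 278)),(k3,(nat_lit 288)),(k2,(nat_lit 294)),(k8,(nat_lit 295)),(k10,(nat_lit 297)),
    (k4,(nat_lit 311)),(k5,(nat_lit 311)),(k0,(nat_lit 327)),(k9,(nat_lit 329)),(k1,(nat_lit 355)),(k11,
    (nat_lit 381)),(k6,(nat_lit 400))],[(k2,(nat_lit 240)),(k11,(nat_lit 263)),(k6,(nat_lit 282)),(k0,(nat_lit 289)),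
    (k8,(nat_lit 289)),(k3,(nat_lit 294)),(k1,(nat_lit 305)),(k5,(nat_lit 305)),(k4,(nat_lit 311)),(k9,(nat_lit 329)),
    (k7,(nat_lit 400)),(k10,(nat_lit 419))],[(k1,(nat_lit 240)),(k4,(nat_lit 240)),(k6,(nat_lit 329)),(k7,
    (nat_lit 329)),(k0,(nat_lit 340)),(k3,(nat_lit 345)),(k2,(nat_lit 351)),(k10,(nat_lit 354)),(k11,(nat_lit 354)),
    (k9,(nat_lit 376)),(k8,(nat_lit 380)),(k5,(nat_lit 416))],[(k1,(nat_lit 244)),(k4,(nat_lit 244)),(k0,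
    (nat_lit 272)),(k6,(nat_lit 289)),(k7,(nat_lit 295)),(k2,(nat_lit 299)),(k8,(nat_lit 304)),(k3,(nat_lit 305)),
    (k10,(nat_lit 314)),(k11,(nat_lit 314)),(k5,(nat_lit 340)),(k9,(nat_lit 380))],[(k6,(nat_lit 263)),(k2,
    (nat_lit 301)),(k0,(nat_lit 314)),(k8,(nat_lit 314)),(k11,(nat_lit 324)),(k1,(nat_lit 330)),(k4,(nat_lit 330)),
    (k5,(nat_lit 342)),(k3,(nat_lit 347)),(k9,(nat_lit 354)),(k7,(nat_lit 381)),(k10,(nat_lit 400))],[(k4,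
    (nat_lit 286)),(k7,(nat_lit 297)),(k3,(nat_lit 307)),(k0,(nat_lit 314)),(k8,(nat_lit 314)),(k10,(nat_lit 316)),
    (k2,(nat_lit 329)),(k1,(nat_lit 330)),(k9,(nat_lit 354)),(k5,(nat_lit 370)),(k11,(nat_lit 400)),(k6,
    (nat_lit 419))]]
    [[k2,k1,k0,k0,k0,k0],[k2,k0,k0,k0,k1,k0],[k1,k2,k0,k0,k0,k0],[k1,k1,k1,k0,k0,k0],[k1,k1,k0,k1,k0,k0],[k1,k1,k0,k0,
    k1,k0],[k1,k1,k0,k0,k0,k1],[k1,k0,k1,k1,k0,k0],[k1,k0,k1,k0,k1,k0],[k1,k0,k1,k0,k0,k1],[k1,k0,k0,k2,k0,k0],[k1,k0,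
    k0,k1,k1,k0],[k1,k0,k0,k1,k0,k1],[k1,k0,k0,k0,k2,k0],[k1,k0,k0,k0,k1,k1],[k0,k2,k0,k1,k0,k0],[k0,k2,k0,k0,k0,k1],
    [k0,k1,k1,k1,k0,k0],[k0,k1,k1,k0,k1,k0],[k0,k1,k0,k2,k0,k0],[k0,k1,k0,k1,k1,k0],[k0,k1,k0,k1,k0,k1],[k0,k0,k2,k0,
    k1,k0],[k0,k0,k1,k2,k0,k0],[k0,k0,k1,k1,k1,k0],[k0,k0,k1,k1,k0,k1],[k0,k0,k1,k0,k1,k1],[k0,k0,k0,k2,k1,k0],[k0,k0,
    k0,k1,k1,k1]]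
    [.ref k43 k10 [(z1,[z3,y2]),(z1,[z0,z1]),(z1,[z1,y1,y1,z1])],.ref k43 k10 [(z2,[y3,z2,z3]),(z1,[z0,z1]),(z2,[y1,
    z0,y1,z2])],.ref k43 k10 [(z2,[z3,y1]),(z1,[z0,z1]),(z2,[z1,y1,y2,z2])],.ref (nat_lit 262) k5 [(z1,[y6,z2,z3]),
    (z1,[z3,y2,y3,z3]),(z1,[z0,z1])],.ref (nat_lit 263) k5 [(z1,[y6,z2,z3]),(z1,[z3,y2,y3,z3]),(z1,[z0,z1])],
    .ref k43 k10 [(z1,[y3,z1,z3]),(z1,[z0,z1]),(z1,[y1,z0,z0,z1])],.ref (nat_lit 264) k3 [(z1,[y1,z0,y1,z1]),(z1,[z0,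
    z0,z1]),(z1,[z3,y1])],.ref k176 k9 [(z1,[y1,z0,y1,z1]),(z1,[z0,z0,z1]),(z1,[z3,y1])],.ref (nat_lit 265) k8 [(z1,
    [z3,y1,y3]),(z1,[y1,z0,z0,z1]),(z1,[z0,z0,z1])],.ref (nat_lit 266) k10 [(z1,[z1,z0,z1,y1]),(z1,[z0,z1]),(z1,[z3,
    y1])],.ref (nat_lit 274) k0 [(z1,[z0,z1]),(z1,[z0,z0,z1]),(z1,[y3,y1,y3,z6])],.ref (nat_lit 275) k3 [(z1,[z3,y1,
    y3]),(z1,[z0,z0,z1]),(z1,[y1,z0,z0,z1])],.ref (nat_lit 276) k10 [(z1,[z1,z0,z1,y1]),(z1,[z0,z1]),(z1,[z3,y1])],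
    .ref k43 k10 [(z4,[y3,z1,z6]),(z1,[z0,z1]),(z4,[y1,y1,y2,z4])],.ref (nat_lit 277) k5 [(z1,[z2,z0,z1,y2]),(z1,[y3,
    y1,y3,z6]),(z1,[z0,z1])],.ref (nat_lit 284) k5 [(z1,[y1,z0,z1]),(z1,[z3,y2,y6,z6]),(z1,[z0,z1])],
    .ref (nat_lit 292) k3 [(z1,[y3,y1,y3,z3]),(z1,[z0,z0,z1]),(z1,[z1])],.ref (nat_lit 277) k5 [(z1,[y2,z0,z1]),(z1,
    [z3,y1,y3,z3]),(z1,[z0,z1])],.ref (nat_lit 276) k10 [(z1,[y1,z0,z1]),(z1,[z0,z1]),(z1,[y3,y1,z0,z3])],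
    .ref (nat_lit 304) k5 [(z1,[y2,z0,z1]),(z1,[z3,y1,y3,z3]),(z1,[z0,z1])],.ref (nat_lit 266) k10 [(z1,[y1,z0,z1]),
    (z1,[z0,z1]),(z1,[y3,y1,z0,z3])],.ref (nat_lit 265) k8 [(z1,[y3,y1,y3,z3]),(z1,[z1]),(z1,[z0,z0,z1])],
    .ref (nat_lit 276) k10 [(z2,[y1,z0,z1]),(z1,[z0,z1]),(z2,[y3,y2,y3,z6])],.ref (nat_lit 311) k2 [(z1,[z6,z2,z3,
    y6]),(z1,[y3,y2,y3,z6]),(z1,[z0,z0,z1])],.ref (nat_lit 264) k3 [(z1,[z1,z0,y1]),(z1,[z0,z0,z1]),(z1,[y3,y1,z0,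
    z3])],.ref k43 k10 [(z1,[z3,z1,z3,y3]),(z1,[z0,z1]),(z1,[z1])],.ref (nat_lit 263) k5 [(z1,[z6,z2,z3,y6]),(z1,[y3,
    y2,y3,z6]),(z1,[z0,z1])],.ref (nat_lit 266) k10 [(z2,[y1,z0,z1]),(z1,[z0,z1]),(z2,[y3,y2,y3,z6])],
    .ref (nat_lit 262) k5 [(z1,[z6,z2,z3,y6]),(z1,[y3,y2,y3,z6]),(z1,[z0,z1])]],
    .base (.leafM k3 [k0,k1,k2,k3,k4,k5] [(z1,[y1,z0,y1,z1])] []),
    .base (.leafM k3 [k2,k3,k4,k5,k0,k1] [(z3,[z0,y1,y1,z3])] []),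
    .base (.leafM k0 [k2,k3,k4,k5,k0,k1] [(z6,[y2,y3,y1,z6])] []),
    .base (.leafM k1 [k0,k1,k2,k3,k4,k5] [(z1,[y1,z0,y1,z1]),(z1,[z1,z0,z1])] []),
    .base (.leafM k3 [k5,k0,k1,k2,k3,k4] [(z1,[z1,z0,z1])] []),
    .base (.leafM k3 [k1,k2,k3,k4,k5,k0] [(z1,[z0,z0,z1])] []),
    .base (.leafM k3 [k0,k1,k2,k3,k4,k5] [(z1,[y1,z0,y1,z1])] []),
    .base (.leafM k0 [k0,k1,k2,k3,k4,k5] [(z2,[z0,z1,z1])] []),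
    .base (.leafM k3 [k5,k0,k1,k2,k3,k4] [(z1,[z0,y1,z0,z1])] []),
    .lp k0 [(nat_lit 236),(nat_lit 224),(nat_lit 254),(nat_lit 264),(nat_lit 264),k192] [k14,k14,k26,k14,k5,k5,k0,k0,
    k0,k0,k30,k42] k0 [[k0,k0,k10,k0,k0,k10,k12,k0,k14,k0,k0,k40],[k0,k0,k0,k0,k0,k0,k2,k0,k0,k0,k0,k40],[k0,k0,k0,k4,
    k4,k0,k0,k0,k0,k0,k16,k12],[k0,k10,k0,k0,k0,k0,k12,k8,k0,k0,k0,k0],[k0,k10,k0,k0,k0,k0,k0,k0,k0,k2,k18,k0],[k0,k0,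
    k0,k4,k4,k0,k0,k0,k0,k0,k16,k0],[k0,k0,k8,k0,k0,k0,k0,k0,k0,k0,k0,k0],[k2,k12,k12,k0,k0,k0,k0,k0,k0,k0,k10,k0],
    [k0,k0,k0,k0,k0,k2,k0,k0,k0,k0,k0,k0],[k0,k14,k0,k0,k0,k0,k0,k0,k0,k0,k0,k0],[k40,k40,k0,k12,k0,k0,k0,k0,k0,k0,k0,
    k24],[k0,k0,k0,k16,k16,k18,k10,k0,k0,k0,k0,k0]] (nat_lit 720) k5
    [[(k2,(nat_lit 208)),(k11,(nat_lit 208)),(k10,(nat_lit 220)),(k4,(nat_lit 227)),(k7,(nat_lit 234)),(k9,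
    (nat_lit 240)),(k6,(nat_lit 250)),(k8,(nat_lit 250)),(k5,(nat_lit 257)),(k1,(nat_lit 260)),(k0,(nat_lit 276)),(k3,
    (nat_lit 276))],[(k10,k180),(k11,k194),(k2,(nat_lit 224)),(k4,(nat_lit 235)),(k5,(nat_lit 235)),(k0,
    (nat_lit 236)),(k3,(nat_lit 236)),(k9,(nat_lit 238)),(k7,(nat_lit 250)),(k8,(nat_lit 250)),(k6,(nat_lit 252)),(k1,
    (nat_lit 276))],[(k10,k180),(k11,(nat_lit 208)),(k2,(nat_lit 234)),(k0,(nat_lit 236)),(k3,(nat_lit 236)),(k4,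
    (nat_lit 245)),(k5,(nat_lit 245)),(k9,(nat_lit 248)),(k7,(nat_lit 260)),(k6,(nat_lit 262)),(k8,(nat_lit 264)),(k1,
    (nat_lit 276))],[(k10,k196),(k11,k196),(k1,(nat_lit 208)),(k2,(nat_lit 208)),(k0,(nat_lit 224)),(k4,
    (nat_lit 233)),(k5,(nat_lit 233)),(k3,(nat_lit 234)),(k7,(nat_lit 234)),(k8,(nat_lit 238)),(k9,(nat_lit 246)),(k6,
    (nat_lit 250))],[(k11,(nat_lit 217)),(k2,(nat_lit 233)),(k0,(nat_lit 235)),(k3,(nat_lit 245)),(k10,(nat_lit 245)),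
    (k9,(nat_lit 247)),(k6,(nat_lit 251)),(k1,(nat_lit 257)),(k4,(nat_lit 258)),(k5,(nat_lit 258)),(k7,(nat_lit 259)),
    (k8,(nat_lit 259))],[(k11,(nat_lit 217)),(k1,(nat_lit 227)),(k2,(nat_lit 233)),(k0,(nat_lit 235)),(k3,
    (nat_lit 245)),(k10,(nat_lit 245)),(k8,(nat_lit 257)),(k4,(nat_lit 258)),(k5,(nat_lit 258)),(k6,(nat_lit 259)),
    (k7,(nat_lit 259)),(k9,(nat_lit 259))],[(k11,(nat_lit 224)),(k1,(nat_lit 234)),(k2,(nat_lit 234)),(k0,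
    (nat_lit 250)),(k10,(nat_lit 252)),(k4,(nat_lit 259)),(k5,(nat_lit 259)),(k3,(nat_lit 260)),(k7,(nat_lit 260)),
    (k6,(nat_lit 264)),(k8,(nat_lit 264)),(k9,(nat_lit 264))],[(k11,(nat_lit 222)),(k10,(nat_lit 244)),(k1,
    (nat_lit 250)),(k2,(nat_lit 250)),(k5,(nat_lit 251)),(k0,(nat_lit 252)),(k4,(nat_lit 259)),(k3,(nat_lit 262)),(k6,
    (nat_lit 264)),(k7,(nat_lit 264)),(k8,(nat_lit 264)),(k9,(nat_lit 264))],[(k11,(nat_lit 222)),(k10,(nat_lit 234)),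
    (k0,(nat_lit 238)),(k1,(nat_lit 240)),(k2,(nat_lit 246)),(k5,(nat_lit 247)),(k3,(nat_lit 248)),(k4,(nat_lit 259)),
    (k6,(nat_lit 264)),(k7,(nat_lit 264)),(k8,(nat_lit 264)),(k9,(nat_lit 264))],[(k11,(nat_lit 222)),(k10,
    (nat_lit 234)),(k2,(nat_lit 238)),(k0,(nat_lit 250)),(k1,(nat_lit 250)),(k4,(nat_lit 257)),(k5,(nat_lit 259)),(k3,
    (nat_lit 264)),(k6,(nat_lit 264)),(k7,(nat_lit 264)),(k8,(nat_lit 264)),(k9,(nat_lit 264))],[(k11,k180),(k10,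
    k192),(k0,k194),(k2,k196),(k1,(nat_lit 208)),(k3,(nat_lit 208)),(k4,(nat_lit 217)),(k5,(nat_lit 217)),(k6,
    (nat_lit 222)),(k8,(nat_lit 222)),(k9,(nat_lit 222)),(k7,(nat_lit 224))],[(k0,k180),(k3,k180),(k10,k180),(k11,
    k192),(k2,k196),(k1,(nat_lit 220)),(k8,(nat_lit 234)),(k9,(nat_lit 234)),(k6,(nat_lit 244)),(k4,(nat_lit 245)),
    (k5,(nat_lit 245)),(k7,(nat_lit 252))]]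
    [[k2,k0,k0,k0,k0,k1],[k1,k2,k0,k0,k0,k0],[k1,k1,k1,k0,k0,k0],[k1,k1,k0,k0,k1,k0],[k1,k1,k0,k0,k0,k1],[k1,k0,k1,k0,
    k0,k1],[k1,k0,k0,k1,k0,k1],[k1,k0,k0,k0,k1,k1],[k1,k0,k0,k0,k0,k2],[k0,k3,k0,k0,k0,k0],[k0,k2,k1,k0,k0,k0],[k0,k2,
    k0,k0,k0,k1],[k0,k1,k1,k0,k0,k1],[k0,k1,k0,k1,k0,k1],[k0,k1,k0,k0,k1,k1],[k0,k1,k0,k0,k0,k2],[k0,k0,k1,k0,k1,k1],
    [k0,k0,k1,k0,k0,k2],[k0,k0,k0,k1,k0,k2],[k0,k0,k0,k0,k1,k2],[k0,k0,k0,k0,k0,k3]]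
    [.ref k25 k0 [(z1,[z0,z1]),(z3,[y3,z2,z1]),(z1,[z0,z0,z0,z1]),(z3,[z6,y4,z0,z0,z1]),(z3,[y12,z5,y1,y3,y1,z9])],
    .ref k25 k0 [(z1,[z0,z1]),(z2,[z3,y1]),(z1,[z0,z0,z0,z1]),(z3,[y9,z3,z2,z0,z1]),(z3,[z18,y9,y5,y3,y1,z9])],
    .ref k25 k0 [(z1,[z0,z1]),(z1,[z3,y1,z0,y1]),(z1,[z0,z0,z0,z1]),(z3,[y18,z6,z2,z6,z1]),(z3,[z36,y15,y5,y15,y1,
    z9])],.ref k25 k0 [(z1,[z0,z1]),(z15,[z9,z0,z5,z3,z1,y9]),(z1,[z0,z0,z0,z1]),(z5,[y6,z0,z0,y2,z1,z6]),(z15,[z36,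
    y15,y5,y3,y1,z9])],.ref k25 k0 [(z1,[z0,z1]),(z2,[y3,z1,z1]),(z1,[z0,z0,z0,z1]),(z3,[z9,y3,y1,z0,z1]),(z3,[y18,z3,
    z1,y3,y1,z9])],.ref k25 k0 [(z1,[z0,z1]),(z3,[y3,z1,z1,z1]),(z1,[z0,z0,z0,z1]),(z3,[z6,y2,z0,y2,z1]),(z3,[y12,z1,
    y1,z1,y1,z9])],.ref k25 k0 [(z1,[z0,z1]),(z15,[y9,z3,z5,z0,z1]),(z1,[z0,z0,z0,z1]),(z5,[z6,y2,z0,z0,z1]),(z15,
    [y36,y3,y5,y15,y1,z45])],.ref k25 k0 [(z1,[z0,z1]),(z3,[z9,z0,z2,z3,z1,y9]),(z1,[z0,z0,z0,z1]),(z3,[y18,z0,y2,y6,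
    y1,z18]),(z1,[z12,y1,z1,z3,z1,y9])],.ref k25 k0 [(z1,[z0,z1]),(z6,[y3,z1,z2]),(z1,[z0,z0,z0,z1]),(z3,[z3,y1,z0,z0,
    z1]),(z3,[y6,y1,y1,y3,y1,z9])],.ref k25 k0 [(z1,[z0,z1]),(z1,[z1]),(z1,[z0,z0,z0,z1]),(z3,[y6,z0,z2,z0,z1]),(z3,
    [z12,y3,y5,y3,y1,z9])],.ref k25 k0 [(z1,[z0,z1]),(z2,[z3,z0,z0,y1]),(z1,[z0,z0,z0,z1]),(z3,[y9,z0,z2,z3,z1]),(z3,
    [z18,y3,y5,y9,y1,z9])],.ref k25 k0 [(z1,[z0,z1]),(z1,[y3,z0,z1]),(z1,[z0,z0,z0,z1]),(z3,[z18,z0,y4,z0,z1]),(z3,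
    [y36,y3,z7,y3,y1,z9])],.ref k25 k0 [(z1,[z0,z1]),(z2,[y3,z0,z1,z1]),(z1,[z0,z0,z0,z1]),(z3,[z9,z0,y1,y3,z1]),(z3,
    [y18,y3,z1,z3,y1,z9])],.ref k25 k0 [(z1,[z0,z1]),(z12,[y9,z0,z5,z0,z1]),(z1,[z0,z0,z0,z1]),(z6,[z9,z0,y1,z0,z1]),
    (z1,[y3,y1,z0,y1,z0,z3])],.ref k25 k0 [(z1,[z0,z1]),(z6,[z9,z3,z2,z3,z1,y9]),(z1,[z0,z0,z0,z1]),(z1,[y3,y1,z0,y1,
    z0,z3]),(z3,[z18,z3,y1,z3,z1,y9])],.ref k25 k0 [(z1,[z0,z1]),(z5,[y3,z0,z2]),(z1,[z0,z0,z0,z1]),(z15,[z18,z0,y2,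
    z0,z5]),(z15,[y36,y15,y1,y15,y5,z45])],.ref k25 k0 [(z1,[z0,z1]),(z3,[z9,z3,z2,z0,z1,y9]),(z1,[z0,z0,z0,z1]),(z3,
    [y18,y6,y2,z0,y1,z18]),(z1,[z12,z3,z1,y1,z1,y9])],.ref k25 k0 [(z1,[z0,z1]),(z6,[y3,z0,z2,z1]),(z1,[z0,z0,z0,z1]),
    (z3,[z3,z0,z0,y1,z1]),(z3,[y6,y3,y1,y1,y1,z9])],.ref k25 k0 [(z1,[z0,z1]),(z24,[y9,z0,z8,z0,z1]),(z1,[z0,z0,z0,
    z1]),(z4,[z3,z0,z0,z0,z1]),(z6,[y9,y6,y2,y6,y1,z18])],.ref k25 k0 [(z1,[z0,z1]),(z6,[y9,y3,z1,y3,y1,z9]),(z1,[z0,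
    z0,z0,z1]),(z3,[z9,z3,z1,z3,z2,y9]),(z1,[y6,y3,y1,y3,y1,z9])],.ref k25 k0 [(z1,[z0,z1]),(z3,[y1,z0,z1]),(z1,[z0,
    z0,z0,z1]),(z3,[z2,z0,z0,z0,z1]),(z3,[y4,y3,y1,y3,y1,z9])]],
    .lp k0 [(nat_lit 320),(nat_lit 280),(nat_lit 340),(nat_lit 340),(nat_lit 344),(nat_lit 294)] [k4,k28,k36,k36,k6,
    k6,k6,k6,k0,k8,k29,k29] k0 [[k0,k0,k20,k0,k0,k0,k14,k0,k0,k108,k0,k8],[k0,k0,k0,k0,k0,k0,k14,k0,k0,k0,k0,k0],[k0,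
    k0,k0,k2,k0,k0,k0,k0,k0,k0,k0,k0],[k0,k20,k0,k0,k0,k0,k12,k0,k0,k86,k20,k6],[k0,k0,k0,k0,k0,k0,k0,k0,k8,k30,k0,
    k8],[k0,k0,k0,k0,k0,k0,k0,k12,k0,k0,k0,k0],[k0,k0,k0,k0,k12,k0,k0,k48,k6,k28,k0,k0],[k14,k14,k12,k0,k0,k0,k0,k0,
    k0,k0,k0,k20],[k0,k108,k86,k0,k0,k30,k0,k28,k0,k0,k84,k0],[k0,k0,k0,k0,k0,k8,k0,k6,k6,k0,k54,k0],[k0,k8,k6,k0,k0,
    k8,k20,k0,k0,k0,k0,k0],[k0,k0,k20,k0,k0,k0,k0,k0,k54,k84,k0,k0]] (nat_lit 960) k5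
    [[(k8,(nat_lit 240)),(k11,(nat_lit 241)),(k2,(nat_lit 294)),(k10,(nat_lit 295)),(k1,(nat_lit 296)),(k3,
    (nat_lit 296)),(k5,(nat_lit 298)),(k9,(nat_lit 316)),(k4,(nat_lit 318)),(k0,(nat_lit 320)),(k7,(nat_lit 326)),(k6,
    (nat_lit 338))],[(k8,(nat_lit 240)),(k10,(nat_lit 311)),(k2,(nat_lit 312)),(k3,(nat_lit 312)),(k11,(nat_lit 319)),
    (k1,(nat_lit 320)),(k5,(nat_lit 322)),(k9,(nat_lit 326)),(k4,(nat_lit 342)),(k7,(nat_lit 342)),(k0,(nat_lit 344)),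
    (k6,(nat_lit 356))],[(k3,(nat_lit 280)),(k10,(nat_lit 287)),(k9,(nat_lit 294)),(k1,(nat_lit 296)),(k2,
    (nat_lit 300)),(k4,(nat_lit 310)),(k5,(nat_lit 310)),(k7,(nat_lit 310)),(k0,(nat_lit 312)),(k8,(nat_lit 316)),(k6,
    (nat_lit 324)),(k11,(nat_lit 395))],[(k2,(nat_lit 278)),(k1,(nat_lit 294)),(k3,(nat_lit 300)),(k10,(nat_lit 307)),
    (k9,(nat_lit 308)),(k4,(nat_lit 310)),(k5,(nat_lit 310)),(k7,(nat_lit 310)),(k0,(nat_lit 312)),(k8,(nat_lit 316)),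
    (k6,(nat_lit 322)),(k11,(nat_lit 373))],[(k8,(nat_lit 260)),(k1,(nat_lit 298)),(k2,(nat_lit 310)),(k3,
    (nat_lit 310)),(k10,(nat_lit 311)),(k11,(nat_lit 317)),(k0,(nat_lit 322)),(k9,(nat_lit 326)),(k4,(nat_lit 340)),
    (k6,(nat_lit 340)),(k7,(nat_lit 340)),(k5,(nat_lit 342))],[(k10,(nat_lit 309)),(k11,(nat_lit 309)),(k2,
    (nat_lit 310)),(k3,(nat_lit 310)),(k8,(nat_lit 316)),(k1,(nat_lit 318)),(k4,(nat_lit 340)),(k5,(nat_lit 340)),(k6,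
    (nat_lit 340)),(k7,(nat_lit 340)),(k0,(nat_lit 342)),(k9,(nat_lit 350))],[(k2,(nat_lit 310)),(k3,(nat_lit 310)),
    (k10,(nat_lit 317)),(k1,(nat_lit 326)),(k6,(nat_lit 328)),(k9,(nat_lit 338)),(k4,(nat_lit 340)),(k5,
    (nat_lit 340)),(k7,(nat_lit 340)),(k0,(nat_lit 342)),(k11,(nat_lit 347)),(k8,(nat_lit 354))],[(k6,(nat_lit 292)),
    (k11,(nat_lit 311)),(k10,(nat_lit 317)),(k8,(nat_lit 318)),(k2,(nat_lit 322)),(k3,(nat_lit 324)),(k7,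
    (nat_lit 328)),(k1,(nat_lit 338)),(k9,(nat_lit 338)),(k4,(nat_lit 340)),(k5,(nat_lit 340)),(k0,(nat_lit 356))],
    [(k3,(nat_lit 294)),(k10,(nat_lit 295)),(k2,(nat_lit 308)),(k1,(nat_lit 316)),(k0,(nat_lit 326)),(k5,
    (nat_lit 326)),(k6,(nat_lit 338)),(k7,(nat_lit 338)),(k11,(nat_lit 343)),(k4,(nat_lit 350)),(k8,(nat_lit 350)),
    (k9,(nat_lit 384))],[(k0,(nat_lit 240)),(k1,(nat_lit 240)),(k5,(nat_lit 260)),(k2,(nat_lit 316)),(k3,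
    (nat_lit 316)),(k4,(nat_lit 316)),(k6,(nat_lit 318)),(k11,(nat_lit 323)),(k9,(nat_lit 350)),(k7,(nat_lit 354)),
    (k8,(nat_lit 358)),(k10,(nat_lit 377))],[(k1,(nat_lit 241)),(k11,(nat_lit 288)),(k4,(nat_lit 309)),(k6,
    (nat_lit 311)),(k5,(nat_lit 317)),(k0,(nat_lit 319)),(k8,(nat_lit 323)),(k9,(nat_lit 343)),(k7,(nat_lit 347)),(k2,
    (nat_lit 373)),(k10,(nat_lit 378)),(k3,(nat_lit 395))],[(k3,(nat_lit 287)),(k10,(nat_lit 294)),(k1,(nat_lit 295)),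
    (k9,(nat_lit 295)),(k2,(nat_lit 307)),(k4,(nat_lit 309)),(k0,(nat_lit 311)),(k5,(nat_lit 311)),(k6,(nat_lit 317)),
    (k7,(nat_lit 317)),(k8,(nat_lit 377)),(k11,(nat_lit 378))]]
    [[k2,k1,k0,k0,k0,k0],[k2,k0,k0,k0,k1,k0],[k2,k0,k0,k0,k0,k1],[k1,k2,k0,k0,k0,k0],[k1,k1,k1,k0,k0,k0],[k1,k1,k0,k0,
    k1,k0],[k1,k1,k0,k0,k0,k1],[k1,k0,k1,k0,k1,k0],[k1,k0,k1,k0,k0,k1],[k1,k0,k0,k1,k1,k0],[k1,k0,k0,k1,k0,k1],[k1,k0,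
    k0,k0,k2,k0],[k1,k0,k0,k0,k1,k1],[k1,k0,k0,k0,k0,k2],[k0,k3,k0,k0,k0,k0],[k0,k2,k1,k0,k0,k0],[k0,k2,k0,k1,k0,k0],
    [k0,k2,k0,k0,k1,k0],[k0,k1,k1,k0,k1,k0],[k0,k1,k1,k0,k0,k1],[k0,k1,k0,k2,k0,k0],[k0,k1,k0,k1,k1,k0],[k0,k1,k0,k1,
    k0,k1],[k0,k1,k0,k0,k1,k1],[k0,k1,k0,k0,k0,k2],[k0,k0,k2,k0,k1,k0],[k0,k0,k1,k1,k1,k0],[k0,k0,k1,k0,k1,k1],[k0,k0,
    k1,k0,k0,k2],[k0,k0,k0,k2,k0,k1],[k0,k0,k0,k1,k0,k2]]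
    [.ref k25 k0 [(z1,[z0,z1]),(z1,[z3,y2]),(z2,[y18,z12,z9,z1]),(z1,[z0,z0,z0,z0,z1]),(z2,[z24,y18,y15,y1,y2,z6])],
    .ref k25 k0 [(z1,[z0,z1]),(z8,[z6,y2,z15,z1,z2,y6]),(z8,[y18,z6,y9,z1,y6,z18]),(z1,[z0,z0,z0,z0,z1]),(z1,[z3,
    y2])],.ref k25 k0 [(z1,[z0,z1]),(z2,[y3,z2,z3]),(z2,[z9,y6,z0,z1]),(z1,[z0,z0,z0,z0,z1]),(z2,[y12,z6,y3,y1,y2,
    z6])],.ref k25 k0 [(z1,[z0,z1]),(z2,[z3,y1]),(z2,[y9,z3,z9,z1]),(z1,[z0,z0,z0,z0,z1]),(z2,[z12,y6,y15,y1,y2,z6])],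
    .ref k25 k0 [(z1,[z0,z1]),(z4,[y6,z2,z9,z1]),(z4,[z18,y6,y9,y1]),(z1,[z0,z0,z0,z0,z1]),(z2,[y12,z2,z3,z1,y2,z6])],
    .ref k25 k0 [(z1,[z0,z1]),(z10,[z6,z0,z15,z1,z2,y6]),(z5,[y9,z0,z0,z1,y3,z9]),(z1,[z0,z0,z0,z0,z1]),(z10,[z24,y10,
    y15,y1,y2,z6])],.ref k25 k0 [(z1,[z0,z1]),(z1,[y3,z1,z3]),(z2,[z18,y6,y9,z1]),(z1,[z0,z0,z0,z0,z1]),(z2,[y24,z6,
    z9,y1,y2,z6])],.ref k25 k0 [(z1,[z0,z1]),(z1,[z3,z0,z3,z0,z1,y3]),(z2,[y18,z0,y9,z1,y6,z18]),(z1,[z0,z0,z0,z0,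
    z1]),(z2,[z24,y2,z9,y1,z6,y18])],.ref k25 k0 [(z1,[z0,z1]),(z10,[y6,z2,z15,z1]),(z5,[z9,y3,z0,z1]),(z1,[z0,z0,z0,
    z0,z1]),(z10,[y24,y2,y15,y1,y10,z30])],.ref k25 k0 [(z1,[z0,z1]),(z8,[z6,z0,z15,z1,z0,y6]),(z8,[y18,z0,y9,z1,z0,
    z18]),(z1,[z0,z0,z0,z0,z1]),(z1,[z3,y1,z0,z0,y1])],.ref k25 k0 [(z1,[z0,z1]),(z2,[y3,z1,z3,z0,z1]),(z2,[z9,y3,z0,
    z1,y3]),(z1,[z0,z0,z0,z0,z1]),(z2,[y12,z2,y3,y1,z2,z6])],.ref k25 k0 [(z1,[z0,z1]),(z8,[z3,z1,z15,z1,z2,y6]),(z8,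
    [y9,y3,y9,z1,y6,z18]),(z1,[z0,z0,z0,z0,z1]),(z2,[z3,y1])],.ref k25 k0 [(z1,[z0,z1]),(z4,[z6,z0,z9,z1,z2,y6]),(z4,
    [y18,z0,y9,y1,y6,z18]),(z1,[z0,z0,z0,z0,z1]),(z2,[z12,y2,z3,z1,z2,y6])],.ref k25 k0 [(z1,[z0,z1]),(z4,[y3,z1,z6]),
    (z4,[z9,y3,z0,z2]),(z1,[z0,z0,z0,z0,z1]),(z2,[y6,z0,y3,y1,y2,z6])],.ref k25 k0 [(z1,[z0,z1]),(z1,[z1]),(z2,[y6,z0,
    z9,z1]),(z1,[z0,z0,z0,z0,z1]),(z2,[z8,y2,y15,y1,y2,z6])],.ref k25 k0 [(z1,[z0,z1]),(z2,[y6,z0,z9,z1]),(z1,[z9,z0,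
    y9,y1]),(z1,[z0,z0,z0,z0,z1]),(z2,[y24,y2,z21,z3,y2,z6])],.ref k25 k0 [(z1,[z0,z1]),(z2,[z3,z0,z0,z0,y1]),(z2,[y9,
    z0,z9,z1,z3]),(z1,[z0,z0,z0,z0,z1]),(z2,[z12,y2,y15,y1,y6,z6])],.ref k25 k0 [(z1,[z0,z1]),(z12,[z6,z2,z15,z1,z2,
    y6]),(z4,[y6,y2,z3,z1,y2,z6]),(z1,[z0,z0,z0,z0,z1]),(z6,[z12,y2,y15,y1,y2,z6])],.ref k25 k0 [(z1,[z0,z1]),(z2,[z3,
    z1,z3,z0,z1,y3]),(z2,[y9,y3,z0,z1,y3,z9]),(z1,[z0,z0,z0,z0,z1]),(z2,[z12,z2,y3,y1,z2,y6])],.ref k25 k0 [(z1,[z0,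
    z1]),(z8,[y6,z0,z15,z1]),(z8,[z18,z0,y9,z1]),(z1,[z0,z0,z0,z0,z1]),(z1,[y3,y1,z0,z0,y1,z3])],.ref k25 k0 [(z1,[z0,
    z1]),(z1,[z3,z0,z0,z0,y2]),(z2,[y18,z0,z9,z1,z12]),(z1,[z0,z0,z0,z0,z1]),(z2,[z24,y2,y15,y1,y18,z6])],
    .ref k25 k0 [(z1,[z0,z1]),(z10,[z6,z2,z15,z1,z0,y6]),(z5,[y9,y3,z0,z1,z0,z9]),(z1,[z0,z0,z0,z0,z1]),(z10,[z24,y2,
    y15,y1,y10,z6])],.ref k25 k0 [(z1,[z0,z1]),(z1,[y3,z0,z3,z0,z1]),(z2,[z18,z0,y9,z1,y6]),(z1,[z0,z0,z0,z0,z1]),(z2,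
    [y24,y2,z9,y1,z6,z6])],.ref k25 k0 [(z1,[z0,z1]),(z6,[z6,z2,z9,z1,z2,y6]),(z1,[y3,y1,z0,z0,y1,z3]),(z1,[z0,z0,z0,
    z0,z1]),(z6,[z24,z2,y9,z1,z2,y6])],.ref k25 k0 [(z1,[z0,z1]),(z1,[y1,z0,z2]),(z2,[z6,z0,y3,z1]),(z1,[z0,z0,z0,z0,
    z1]),(z2,[y8,y2,z1,y1,y2,z6])],.ref k25 k0 [(z1,[z0,z1]),(z4,[y6,y2,z3,z1,y2,z6]),(z4,[z18,z6,z9,y1,z6,y18]),(z1,
    [z0,z0,z0,z0,z1]),(z2,[y12,y6,y9,z1,y6,z18])],.ref k25 k0 [(z1,[z0,z1]),(z1,[z3,z1,z3,z0,z0,y3]),(z2,[y18,y6,y9,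
    z1,z0,z18]),(z1,[z0,z0,z0,z0,z1]),(z2,[z24,z6,z9,y1,y2,y18])],.ref k25 k0 [(z1,[z0,z1]),(z1,[y3,y1,z0,z0,y1,z3]),
    (z2,[z18,z6,z9,z1,z6,y18]),(z1,[z0,z0,z0,z0,z1]),(z2,[y24,y10,y15,y1,y10,z30])],.ref k25 k0 [(z1,[z0,z1]),(z14,
    [y6,z0,z21,z1]),(z7,[z9,z0,z0,z2]),(z1,[z0,z0,z0,z0,z1]),(z14,[y24,y14,y21,y3,y14,z42])],.ref k25 k0 [(z1,[z0,
    z1]),(z2,[y3,z0,z3,z0,z2]),(z2,[z9,z0,z0,z1,y6]),(z1,[z0,z0,z0,z0,z1]),(z2,[y12,y2,y3,y1,z6,z6])],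
    .ref k25 k0 [(z1,[z0,z1]),(z4,[y3,z0,z6,z0,z1]),(z4,[z9,z0,z0,z2,y3]),(z1,[z0,z0,z0,z0,z1]),(z2,[y6,y2,y3,y1,z0,
    z6])]]]

theorem hB6_171_26 : blkB [0, 0, 0, 0, 0, 0] [] sp6 hS6_171 (pcls (n := 6) [0, 0, 0, 0, 0, 0]) hD6_171 560 26 hN6_171_26 = true := by
  decide +kernel

/-- nodes 324 to 335 -/
noncomputable def hN6_171_27 : List HM :=
  [.base (.leafM k1 [k0,k1,k2,k3,k4,k5] [(z1,[z0,z1,z0,z1]),(z1,[z0,y1,z0,y1,z1])] []),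
    .base (.leafM k3 [k4,k5,k0,k1,k2,k3] [(z1,[z0,z1,z1])] []),
    .base (.leafM k3 [k4,k5,k0,k1,k2,k3] [(z3,[z0,z1,z1])] []),
    .lp k0 [(nat_lit 470),(nat_lit 428),(nat_lit 506),(nat_lit 518),(nat_lit 506),(nat_lit 440)] [k24,k24,k45,k45,k6,
    k6,k0,k0,k6,k6,k39,k39] k0 [[k0,k0,k0,k0,k12,k12,k24,k0,k0,k0,k0,k12],[k6,k0,k0,k6,k0,k0,k0,k0,k18,k0,k0,k24],[k6,
    k0,k0,k6,k0,k0,k0,k0,k18,k0,k0,k24],[k0,k0,k0,k0,k12,k12,k24,k0,k0,k0,k0,k12],[k0,k12,k12,k0,k0,k0,k0,k0,k0,k42,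
    k36,k0],[k0,k12,k12,k0,k0,k0,k0,k0,k0,k12,k0,k0],[k0,k0,k0,k0,k0,k0,k0,k0,k0,k0,k0,k0],[k0,k24,k24,k0,k0,k0,k0,k0,
    k0,k0,k6,k12],[k0,k0,k0,k0,k12,k42,k0,k0,k0,k0,k6,k0],[k18,k0,k0,k18,k0,k0,k0,k0,k0,k0,k0,k0],[k24,k12,k12,k24,k0,
    k0,k12,k0,k0,k0,k0,k0],[k0,k0,k0,k0,k0,k36,k6,k0,k0,k6,k0,k0]] (nat_lit 1440) k5
    [[(k4,(nat_lit 452)),(k10,(nat_lit 455)),(k11,(nat_lit 455)),(k2,(nat_lit 461)),(k3,(nat_lit 461)),(k1,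
    (nat_lit 470)),(k8,(nat_lit 482)),(k9,(nat_lit 482)),(k0,(nat_lit 494)),(k7,(nat_lit 494)),(k6,(nat_lit 506)),(k5,
    (nat_lit 512))],[(k10,(nat_lit 443)),(k2,(nat_lit 449)),(k3,(nat_lit 449)),(k11,(nat_lit 455)),(k9,(nat_lit 464)),
    (k0,(nat_lit 476)),(k4,(nat_lit 476)),(k7,(nat_lit 482)),(k1,(nat_lit 494)),(k5,(nat_lit 494)),(k6,(nat_lit 494)),
    (k8,(nat_lit 506))],[(k10,(nat_lit 410)),(k11,(nat_lit 416)),(k2,(nat_lit 422)),(k3,(nat_lit 422)),(k0,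
    (nat_lit 449)),(k1,(nat_lit 461)),(k5,(nat_lit 467)),(k8,(nat_lit 467)),(k9,(nat_lit 467)),(k4,(nat_lit 479)),(k7,
    (nat_lit 485)),(k6,(nat_lit 497))],[(k10,(nat_lit 410)),(k11,(nat_lit 416)),(k2,(nat_lit 422)),(k3,(nat_lit 422)),
    (k0,(nat_lit 449)),(k1,(nat_lit 461)),(k5,(nat_lit 467)),(k8,(nat_lit 467)),(k9,(nat_lit 467)),(k4,(nat_lit 479)),
    (k7,(nat_lit 485)),(k6,(nat_lit 497))],[(k10,(nat_lit 461)),(k2,(nat_lit 467)),(k3,(nat_lit 467)),(k11,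
    (nat_lit 473)),(k9,(nat_lit 482)),(k0,(nat_lit 494)),(k4,(nat_lit 494)),(k7,(nat_lit 500)),(k1,(nat_lit 512)),(k5,
    (nat_lit 512)),(k6,(nat_lit 512)),(k8,(nat_lit 524))],[(k1,(nat_lit 452)),(k8,(nat_lit 464)),(k10,(nat_lit 473)),
    (k0,(nat_lit 476)),(k2,(nat_lit 479)),(k3,(nat_lit 479)),(k11,(nat_lit 485)),(k5,(nat_lit 494)),(k4,
    (nat_lit 506)),(k9,(nat_lit 506)),(k6,(nat_lit 512)),(k7,(nat_lit 512))],[(k0,(nat_lit 482)),(k2,(nat_lit 485)),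
    (k3,(nat_lit 485)),(k1,(nat_lit 494)),(k5,(nat_lit 500)),(k8,(nat_lit 500)),(k4,(nat_lit 512)),(k9,(nat_lit 512)),
    (k10,(nat_lit 515)),(k6,(nat_lit 518)),(k7,(nat_lit 518)),(k11,(nat_lit 521))],[(k11,(nat_lit 479)),(k10,
    (nat_lit 485)),(k0,(nat_lit 494)),(k2,(nat_lit 497)),(k3,(nat_lit 497)),(k1,(nat_lit 506)),(k4,(nat_lit 512)),(k5,
    (nat_lit 512)),(k8,(nat_lit 512)),(k9,(nat_lit 512)),(k6,(nat_lit 518)),(k7,(nat_lit 518))],[(k10,(nat_lit 461)),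
    (k0,(nat_lit 464)),(k2,(nat_lit 467)),(k3,(nat_lit 467)),(k11,(nat_lit 473)),(k1,(nat_lit 482)),(k5,
    (nat_lit 482)),(k4,(nat_lit 506)),(k8,(nat_lit 506)),(k9,(nat_lit 506)),(k6,(nat_lit 512)),(k7,(nat_lit 512))],
    [(k4,(nat_lit 464)),(k2,(nat_lit 467)),(k3,(nat_lit 467)),(k10,(nat_lit 473)),(k11,(nat_lit 473)),(k1,
    (nat_lit 482)),(k7,(nat_lit 500)),(k0,(nat_lit 506)),(k8,(nat_lit 506)),(k9,(nat_lit 506)),(k6,(nat_lit 512)),(k5,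
    (nat_lit 524))],[(k2,(nat_lit 416)),(k3,(nat_lit 416)),(k11,(nat_lit 440)),(k10,(nat_lit 446)),(k0,(nat_lit 455)),
    (k1,(nat_lit 455)),(k5,(nat_lit 473)),(k8,(nat_lit 473)),(k9,(nat_lit 473)),(k6,(nat_lit 479)),(k4,(nat_lit 485)),
    (k7,(nat_lit 521))],[(k2,(nat_lit 410)),(k3,(nat_lit 410)),(k10,(nat_lit 440)),(k0,(nat_lit 443)),(k11,
    (nat_lit 446)),(k1,(nat_lit 455)),(k5,(nat_lit 461)),(k9,(nat_lit 461)),(k4,(nat_lit 473)),(k8,(nat_lit 473)),(k6,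
    (nat_lit 485)),(k7,(nat_lit 515))]]
    [[k2,k1,k0,k0,k0,k0],[k2,k0,k0,k0,k0,k1],[k1,k2,k0,k0,k0,k0],[k1,k1,k1,k0,k0,k0],[k1,k1,k0,k0,k1,k0],[k1,k1,k0,k0,
    k0,k1],[k1,k0,k1,k0,k0,k1],[k1,k0,k0,k1,k0,k1],[k1,k0,k0,k0,k1,k1],[k1,k0,k0,k0,k0,k2],[k0,k3,k0,k0,k0,k0],[k0,k2,
    k1,k0,k0,k0],[k0,k2,k0,k1,k0,k0],[k0,k2,k0,k0,k1,k0],[k0,k2,k0,k0,k0,k1],[k0,k1,k1,k0,k1,k0],[k0,k1,k1,k0,k0,k1],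
    [k0,k1,k0,k1,k0,k1],[k0,k1,k0,k0,k1,k1],[k0,k1,k0,k0,k0,k2],[k0,k0,k1,k0,k1,k1],[k0,k0,k1,k0,k0,k2],[k0,k0,k0,k0,
    k1,k2],[k0,k0,k0,k0,k0,k3]]
    [.ref k25 k0 [(z1,[z12,y21,y4]),(z1,[y21,z42,z8]),(z1,[z12,y24,y4,z3]),(z1,[y6,z12,z2,z0,z3]),(z1,[z0,y3,y1,y3,y3,
    z3])],.ref k25 k0 [(z3,[z4,z1]),(z3,[y7,z14,z3]),(z3,[z4,y8,z0,z9]),(z3,[y2,z4,z0,z0,z9]),(z1,[z0,y3,y1,y3,y3,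
    z3])],.ref k25 k0 [(z5,[y6,z21,z4]),(z10,[z21,y21,y4]),(z5,[y6,z6,z4,z15]),(z5,[z3,y3,y2,z0,z15]),(z1,[z0,y3,y1,
    y3,y3,z3])],.ref k25 k0 [(z1,[z12,y9,y4,y12]),(z1,[y21,z21,z8,z21]),(z1,[z12,y12,y4,y9]),(z1,[y6,z6,z2,z6,z3]),
    (z1,[z0,y3,y1,y3,y3,z3])],.ref k25 k0 [(z1,[y4,z3,z0,y4,y4,z4]),(z1,[z7,z0,z1,z7,z7,y7]),(z1,[y4,z0,z0,y1,y4,z4]),
    (z1,[z2,z0,z0,z2,z5,y2]),(z1,[z0,y3,y1,y3,y3,z3])],.ref k25 k0 [(z1,[y6,z9,z2]),(z2,[z21,y21,y5]),(z1,[y6,z6,z2,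
    z3]),(z1,[z3,y3,y1,z0,z3]),(z1,[z0,y3,y1,y3,y3,z3])],.ref k25 k0 [(z3,[z4,z5,z0,y4]),(z3,[y7,z7,z3,z7]),(z3,[z4,
    y4,z0,z5]),(z3,[y2,z2,z0,z2,z9]),(z1,[z0,y3,y1,y3,y3,z3])],.ref k25 k0 [(z1,[z4,y1,z0,z0,y4]),(z1,[y7,z7,z1,z0,
    z7]),(z1,[z4,y4,z0,z3,y4]),(z1,[y2,z2,z0,z0,z5]),(z1,[z0,y3,y1,y3,y3,z3])],.ref k25 k0 [(z5,[z12,z15,z4,z12,z12,
    y12]),(z5,[y21,z0,y2,y21,y21,z21]),(z5,[z12,z0,z4,z27,z12,y12]),(z5,[y6,z0,y2,y6,z9,z6]),(z1,[z0,y3,y1,y3,y3,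
    z3])],.ref k25 k0 [(z1,[z2,z1]),(z2,[y7,z7,z2]),(z1,[z2,y2,z0,z3]),(z1,[y1,z1,z0,z0,z3]),(z1,[z0,y3,y1,y3,y3,
    z3])],.ref k25 k0 [(z7,[y4,z21,z4]),(z1,[z1]),(z7,[y4,z0,z4,z21]),(z7,[z2,z0,y2,z0,z21]),(z1,[z0,y3,y1,y3,y3,
    z3])],.ref k25 k0 [(z5,[y6,z15,z4,z6]),(z10,[z21,z0,y4,y21]),(z5,[y6,z0,z4,z21]),(z5,[z3,z0,y2,y3,z15]),(z1,[z0,
    y3,y1,y3,y3,z3])],.ref k25 k0 [(z4,[y3,z12,z2,z0,z3]),(z16,[z21,z0,z2,z0,y21]),(z4,[y3,z0,z2,z12,z3]),(z8,[z3,z0,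
    y2,z0,z21]),(z1,[z0,y3,y1,y3,y3,z3])],.ref k25 k0 [(z7,[y6,z15,z2,y6,y6,z6]),(z2,[z3,z3,z1,z3,z3,y3]),(z7,[y6,y6,
    z2,z15,y6,z6]),(z7,[z3,z3,y1,z3,z24,y3]),(z1,[z0,y3,y1,y3,y3,z3])],.ref k25 k0 [(z13,[y12,z39,z8]),(z13,[z21,z0,
    y1]),(z13,[y12,z0,z8,z39]),(z13,[z6,z0,y4,z0,z39]),(z1,[z0,y3,y1,y3,y3,z3])],.ref k25 k0 [(z1,[y4,y1,z0,z0,y4,
    z4]),(z1,[z7,z7,z1,z0,z7,y7]),(z1,[y4,y4,z0,z3,y4,z4]),(z1,[z2,z2,z0,z0,z5,y2]),(z1,[z0,y3,y1,y3,y3,z3])],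
    .ref k25 k0 [(z1,[y6,z3,z2,z6]),(z2,[z21,z0,y5,y21]),(z1,[y6,z0,z2,z9]),(z1,[z3,z0,y1,y3,z3]),(z1,[z0,y3,y1,y3,y3,
    z3])],.ref k25 k0 [(z2,[y3,z6,z1,z0,z3]),(z8,[z21,z0,z1,z0,y21]),(z2,[y3,z0,z1,z6,z3]),(z4,[z3,z0,y1,z0,z9]),(z1,
    [z0,y3,y1,y3,y3,z3])],.ref k25 k0 [(z1,[y2,z1,z0,y2,y2,z2]),(z2,[z7,z7,z2,z7,z7,y7]),(z1,[y2,y2,z0,z1,y2,z2]),(z1,
    [z1,z1,z0,z1,z4,y1]),(z1,[z0,y3,y1,y3,y3,z3])],.ref k25 k0 [(z5,[y12,z15,z4]),(z5,[z21,z0,y2]),(z5,[y12,z0,z4,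
    z15]),(z5,[z6,z0,y2,z0,z15]),(z1,[z0,y3,y1,y3,y3,z3])],.ref k25 k0 [(z5,[z12,z27,z4,z0,z12,y12]),(z5,[y21,y21,y2,
    z0,y21,z21]),(z5,[z12,z12,z4,z15,z12,y12]),(z5,[y6,y6,y2,z0,z9,z6]),(z1,[z0,y3,y1,y3,y3,z3])],.ref k25 k0 [(z1,
    [z2,z3,z0,y2]),(z2,[y7,z0,z2,z7]),(z1,[z2,z0,z0,z1]),(z1,[y1,z0,z0,z1,z3]),(z1,[z0,y3,y1,y3,y3,z3])],
    .ref k25 k0 [(z1,[z6,z9,z2,z6,z6,y6]),(z2,[y21,y21,y5,y21,y21,z21]),(z1,[z6,z6,z2,z9,z6,y6]),(z1,[y3,y3,y1,y3,z0,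
    z3]),(z1,[z0,y3,y1,y3,y3,z3])],.ref k25 k0 [(z1,[z4,z3]),(z1,[y7,z0,z1]),(z1,[z4,z0,z0,z3]),(z1,[y2,z0,z0,z0,z3]),
    (z1,[z0,y3,y1,y3,y3,z3])]],
    .lp k0 [(nat_lit 470),(nat_lit 428),(nat_lit 506),(nat_lit 518),(nat_lit 506),(nat_lit 440)] [k24,k24,k45,k45,k6,
    k6,k0,k0,k6,k6,k39,k39] k0 [[k0,k0,k0,k0,k12,k12,k24,k0,k0,k0,k0,k12],[k6,k0,k0,k6,k0,k0,k0,k0,k18,k0,k0,k24],[k6,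
    k0,k0,k6,k0,k0,k0,k0,k18,k0,k0,k24],[k0,k0,k0,k0,k12,k12,k24,k0,k0,k0,k0,k12],[k0,k12,k12,k0,k0,k0,k0,k0,k0,k42,
    k36,k0],[k0,k12,k12,k0,k0,k0,k0,k0,k0,k12,k0,k0],[k0,k0,k0,k0,k0,k0,k0,k0,k0,k0,k0,k0],[k0,k24,k24,k0,k0,k0,k0,k0,
    k0,k0,k6,k12],[k0,k0,k0,k0,k12,k42,k0,k0,k0,k0,k6,k0],[k18,k0,k0,k18,k0,k0,k0,k0,k0,k0,k0,k0],[k24,k12,k12,k24,k0,
    k0,k12,k0,k0,k0,k0,k0],[k0,k0,k0,k0,k0,k36,k6,k0,k0,k6,k0,k0]] (nat_lit 1440) k5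
    [[(k4,(nat_lit 452)),(k10,(nat_lit 455)),(k11,(nat_lit 455)),(k2,(nat_lit 461)),(k3,(nat_lit 461)),(k1,
    (nat_lit 470)),(k8,(nat_lit 482)),(k9,(nat_lit 482)),(k0,(nat_lit 494)),(k7,(nat_lit 494)),(k6,(nat_lit 506)),(k5,
    (nat_lit 512))],[(k10,(nat_lit 443)),(k2,(nat_lit 449)),(k3,(nat_lit 449)),(k11,(nat_lit 455)),(k9,(nat_lit 464)),
    (k0,(nat_lit 476)),(k4,(nat_lit 476)),(k7,(nat_lit 482)),(k1,(nat_lit 494)),(k5,(nat_lit 494)),(k6,(nat_lit 494)),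
    (k8,(nat_lit 506))],[(k10,(nat_lit 410)),(k11,(nat_lit 416)),(k2,(nat_lit 422)),(k3,(nat_lit 422)),(k0,
    (nat_lit 449)),(k1,(nat_lit 461)),(k5,(nat_lit 467)),(k8,(nat_lit 467)),(k9,(nat_lit 467)),(k4,(nat_lit 479)),(k7,
    (nat_lit 485)),(k6,(nat_lit 497))],[(k10,(nat_lit 410)),(k11,(nat_lit 416)),(k2,(nat_lit 422)),(k3,(nat_lit 422)),
    (k0,(nat_lit 449)),(k1,(nat_lit 461)),(k5,(nat_lit 467)),(k8,(nat_lit 467)),(k9,(nat_lit 467)),(k4,(nat_lit 479)),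
    (k7,(nat_lit 485)),(k6,(nat_lit 497))],[(k10,(nat_lit 461)),(k2,(nat_lit 467)),(k3,(nat_lit 467)),(k11,
    (nat_lit 473)),(k9,(nat_lit 482)),(k0,(nat_lit 494)),(k4,(nat_lit 494)),(k7,(nat_lit 500)),(k1,(nat_lit 512)),(k5,
    (nat_lit 512)),(k6,(nat_lit 512)),(k8,(nat_lit 524))],[(k1,(nat_lit 452)),(k8,(nat_lit 464)),(k10,(nat_lit 473)),
    (k0,(nat_lit 476)),(k2,(nat_lit 479)),(k3,(nat_lit 479)),(k11,(nat_lit 485)),(k5,(nat_lit 494)),(k4,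
    (nat_lit 506)),(k9,(nat_lit 506)),(k6,(nat_lit 512)),(k7,(nat_lit 512))],[(k0,(nat_lit 482)),(k2,(nat_lit 485)),
    (k3,(nat_lit 485)),(k1,(nat_lit 494)),(k5,(nat_lit 500)),(k8,(nat_lit 500)),(k4,(nat_lit 512)),(k9,(nat_lit 512)),
    (k10,(nat_lit 515)),(k6,(nat_lit 518)),(k7,(nat_lit 518)),(k11,(nat_lit 521))],[(k11,(nat_lit 479)),(k10,
    (nat_lit 485)),(k0,(nat_lit 494)),(k2,(nat_lit 497)),(k3,(nat_lit 497)),(k1,(nat_lit 506)),(k4,(nat_lit 512)),(k5,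
    (nat_lit 512)),(k8,(nat_lit 512)),(k9,(nat_lit 512)),(k6,(nat_lit 518)),(k7,(nat_lit 518))],[(k10,(nat_lit 461)),
    (k0,(nat_lit 464)),(k2,(nat_lit 467)),(k3,(nat_lit 467)),(k11,(nat_lit 473)),(k1,(nat_lit 482)),(k5,
    (nat_lit 482)),(k4,(nat_lit 506)),(k8,(nat_lit 506)),(k9,(nat_lit 506)),(k6,(nat_lit 512)),(k7,(nat_lit 512))],
    [(k4,(nat_lit 464)),(k2,(nat_lit 467)),(k3,(nat_lit 467)),(k10,(nat_lit 473)),(k11,(nat_lit 473)),(k1,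
    (nat_lit 482)),(k7,(nat_lit 500)),(k0,(nat_lit 506)),(k8,(nat_lit 506)),(k9,(nat_lit 506)),(k6,(nat_lit 512)),(k5,
    (nat_lit 524))],[(k2,(nat_lit 416)),(k3,(nat_lit 416)),(k11,(nat_lit 440)),(k10,(nat_lit 446)),(k0,(nat_lit 455)),
    (k1,(nat_lit 455)),(k5,(nat_lit 473)),(k8,(nat_lit 473)),(k9,(nat_lit 473)),(k6,(nat_lit 479)),(k4,(nat_lit 485)),
    (k7,(nat_lit 521))],[(k2,(nat_lit 410)),(k3,(nat_lit 410)),(k10,(nat_lit 440)),(k0,(nat_lit 443)),(k11,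
    (nat_lit 446)),(k1,(nat_lit 455)),(k5,(nat_lit 461)),(k9,(nat_lit 461)),(k4,(nat_lit 473)),(k8,(nat_lit 473)),(k6,
    (nat_lit 485)),(k7,(nat_lit 515))]]
    [[k2,k1,k0,k0,k0,k0],[k2,k0,k0,k0,k0,k1],[k1,k2,k0,k0,k0,k0],[k1,k1,k1,k0,k0,k0],[k1,k1,k0,k0,k1,k0],[k1,k1,k0,k0,
    k0,k1],[k1,k0,k1,k0,k0,k1],[k1,k0,k0,k1,k0,k1],[k1,k0,k0,k0,k1,k1],[k1,k0,k0,k0,k0,k2],[k0,k3,k0,k0,k0,k0],[k0,k2,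
    k1,k0,k0,k0],[k0,k2,k0,k1,k0,k0],[k0,k2,k0,k0,k1,k0],[k0,k2,k0,k0,k0,k1],[k0,k1,k1,k0,k1,k0],[k0,k1,k1,k0,k0,k1],
    [k0,k1,k0,k1,k0,k1],[k0,k1,k0,k0,k1,k1],[k0,k1,k0,k0,k0,k2],[k0,k0,k1,k0,k1,k1],[k0,k0,k1,k0,k0,k2],[k0,k0,k0,k0,
    k1,k2],[k0,k0,k0,k0,k0,k3]]
    [.ref k25 k0 [(z2,[z15,y8,y15]),(z1,[y12,z8,z15]),(z1,[z6,y4,y6,z3]),(z1,[y3,z2,z3,z0,z3]),(z1,[z0,y1,y3,y3,y3,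
    z3])],.ref k25 k0 [(z11,[z15,z1]),(z11,[y24,z16,z33]),(z11,[z12,y8,z0,z33]),(z11,[y6,z4,z0,z0,z33]),(z1,[z0,y1,y3,
    y3,y3,z3])],.ref k25 k0 [(z11,[y15,z16,z30]),(z11,[z24,y8,y15]),(z11,[y12,z4,z24,z33]),(z11,[z6,y2,y12,z0,z33]),
    (z1,[z0,y1,y3,y3,y3,z3])],.ref k25 k0 [(z1,[z15,y4,y15,y15]),(z1,[y24,z8,z27,z24]),(z1,[z12,y4,y12,y9]),(z1,[y6,
    z2,z6,z6,z3]),(z1,[z0,y1,y3,y3,y3,z3])],.ref k25 k0 [(z1,[y5,z1,z0,y5,y5,z5]),(z1,[z8,z0,z3,z8,z8,y8]),(z1,[y4,z0,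
    z0,y1,y4,z4]),(z1,[z2,z0,z0,z2,z5,y2]),(z1,[z0,y1,y3,y3,y3,z3])],.ref k25 k0 [(z2,[y15,z7,z15]),(z1,[z12,y4,y9]),
    (z1,[y6,z2,z6,z3]),(z1,[z3,y1,y3,z0,z3]),(z1,[z0,y1,y3,y3,y3,z3])],.ref k25 k0 [(z2,[z3,z1,z0,y3]),(z5,[y12,z4,
    z15,z12]),(z5,[z6,y2,z0,z9]),(z5,[y3,z1,z0,z3,z15]),(z1,[z0,y1,y3,y3,y3,z3])],.ref k25 k0 [(z4,[z15,y1,z0,z0,
    y15]),(z1,[y6,z2,z3,z0,z6]),(z1,[z3,y1,z0,z3,y3]),(z2,[y3,z1,z0,z0,z9]),(z1,[z0,y1,y3,y3,y3,z3])],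
    .ref k25 k0 [(z2,[z5,z2,z5,z5,z5,y5]),(z1,[y4,z0,y1,y4,y4,z4]),(z1,[z2,z0,z2,z5,z2,y2]),(z1,[y1,z0,y1,y1,z2,z1]),
    (z1,[z0,y1,y3,y3,y3,z3])],.ref k25 k0 [(z7,[z15,z2]),(z7,[y24,z8,z21]),(z7,[z12,y4,z0,z21]),(z7,[y6,z2,z0,z0,
    z21]),(z1,[z0,y1,y3,y3,y3,z3])],.ref k25 k0 [(z8,[y5,z8,z15]),(z1,[z1]),(z2,[y1,z0,z3,z6]),(z4,[z1,z0,y3,z0,z12]),
    (z1,[z0,y1,y3,y3,y3,z3])],.ref k25 k0 [(z4,[y5,z4,z10,z5]),(z1,[z2,z0,y1,y2]),(z1,[y1,z0,z2,z4]),(z2,[z1,z0,y2,y1,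
    z6]),(z1,[z0,y1,y3,y3,y3,z3])],.ref k25 k0 [(z6,[y5,z6,z10,z0,z5]),(z3,[z4,z0,z1,z0,y4]),(z3,[y2,z0,z4,z9,z2]),
    (z3,[z1,z0,y2,z0,z8]),(z1,[z0,y1,y3,y3,y3,z3])],.ref k25 k0 [(z16,[y15,z11,z15,y15,y15,z15]),(z2,[z3,z1,z3,z3,z3,
    y3]),(z4,[y3,y1,z3,z9,y3,z3]),(z8,[z3,z1,y3,z3,z27,y3]),(z1,[z0,y1,y3,y3,y3,z3])],.ref k25 k0 [(z1,[y1,z1,z2]),
    (z5,[z8,z0,y1]),(z5,[y4,z0,z8,z15]),(z5,[z2,z0,y4,z0,z15]),(z1,[z0,y1,y3,y3,y3,z3])],.ref k25 k0 [(z4,[y15,y1,z0,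
    z0,y15,z15]),(z1,[z6,z2,z3,z0,z6,y6]),(z1,[y3,y1,z0,z3,y3,z3]),(z2,[z3,z1,z0,z0,z9,y3]),(z1,[z0,y1,y3,y3,y3,z3])],
    .ref k25 k0 [(z1,[y5,z1,z5,z5]),(z1,[z8,z0,y5,y8]),(z1,[y4,z0,z4,z7]),(z1,[z2,z0,y2,y2,z3]),(z1,[z0,y1,y3,y3,y3,
    z3])],.ref k25 k0 [(z3,[y5,z3,z5,z0,z5]),(z3,[z8,z0,z1,z0,y8]),(z3,[y4,z0,z4,z9,z4]),(z3,[z2,z0,y2,z0,z7]),(z1,
    [z0,y1,y3,y3,y3,z3])],.ref k25 k0 [(z7,[y15,z2,z0,y15,y15,z15]),(z7,[z24,z8,z21,z24,z24,y24]),(z7,[y12,y4,z0,z9,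
    y12,z12]),(z7,[z6,z2,z0,z6,z27,y6]),(z1,[z0,y1,y3,y3,y3,z3])],.ref k25 k0 [(z2,[y5,z2,z5]),(z1,[z4,z0,y1]),(z1,
    [y2,z0,z2,z3]),(z1,[z1,z0,y1,z0,z3]),(z1,[z0,y1,y3,y3,y3,z3])],.ref k25 k0 [(z1,[z3,z2,z3,z0,z3,y3]),(z5,[y24,y8,
    y9,z0,y24,z24]),(z5,[z12,z4,z12,z15,z12,y12]),(z5,[y6,y2,y6,z0,z9,z6]),(z1,[z0,y1,y3,y3,y3,z3])],.ref k25 k0 [(z2,
    [z5,z2,z0,y5]),(z1,[y4,z0,z3,z4]),(z1,[z2,z0,z0,z1]),(z1,[y1,z0,z0,z1,z3]),(z1,[z0,y1,y3,y3,y3,z3])],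
    .ref k25 k0 [(z2,[z15,z7,z15,z15,z15,y15]),(z1,[y12,y4,y9,y12,y12,z12]),(z1,[z6,z2,z6,z9,z6,y6]),(z1,[y3,y1,y3,y3,
    z0,z3]),(z1,[z0,y1,y3,y3,y3,z3])],.ref k25 k0 [(z1,[z5,z1]),(z1,[y8,z0,z3]),(z1,[z4,z0,z0,z3]),(z1,[y2,z0,z0,z0,
    z3]),(z1,[z0,y1,y3,y3,y3,z3])]],
    .lp k0 [k144,k166,k166,k170,k148,k164] [k25,k1,k2,k2,k2,k2,k0,k0,k11,k11,k3,k3] k0 [[k0,k0,k0,k0,k0,k0,k0,k0,k0,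
    k0,k0,k0],[k0,k0,k0,k0,k0,k0,k0,k0,k0,k0,k0,k16],[k0,k0,k0,k0,k0,k0,k0,k0,k0,k0,k0,k0],[k0,k0,k0,k0,k0,k16,k0,k0,
    k0,k0,k0,k0],[k0,k0,k16,k0,k0,k0,k0,k0,k0,k0,k0,k0],[k0,k0,k0,k0,k0,k0,k0,k0,k0,k0,k0,k0],[k0,k0,k0,k0,k0,k0,k0,
    k18,k20,k36,k0,k0],[k0,k0,k0,k0,k0,k0,k0,k0,k0,k0,k0,k0],[k0,k0,k0,k0,k0,k0,k0,k36,k0,k0,k38,k0],[k0,k0,k0,k0,k0,
    k0,k0,k20,k18,k0,k22,k0],[k16,k0,k0,k0,k0,k0,k0,k0,k0,k0,k0,k32],[k0,k0,k0,k0,k0,k0,k0,k0,k22,k38,k0,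
    k0]] (nat_lit 480) k5
    [[(k8,k120),(k11,k144),(k9,k158),(k0,k160),(k10,k166),(k2,k167),(k3,k167),(k4,k167),(k5,k167),(k6,k169),(k7,k169),
    (k1,(nat_lit 200))],[(k0,k120),(k8,k134),(k9,k134),(k10,k142),(k11,k142),(k2,k143),(k3,k143),(k4,k143),(k5,k143),
    (k6,k145),(k7,k145),(k1,k160)],[(k0,k143),(k10,k149),(k8,k157),(k9,k157),(k11,k165),(k2,k166),(k3,k166),(k4,k166),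
    (k5,k166),(k1,k167),(k6,k168),(k7,k168)],[(k0,k143),(k8,k157),(k9,k157),(k10,k165),(k11,k165),(k2,k166),(k3,k166),
    (k4,k166),(k5,k166),(k1,k167),(k6,k168),(k7,k184)],[(k0,k143),(k4,k150),(k8,k157),(k9,k157),(k10,k165),(k11,k165),
    (k2,k166),(k3,k166),(k5,k166),(k1,k167),(k6,k168),(k7,k168)],[(k0,k143),(k5,k150),(k8,k157),(k9,k157),(k10,k165),
    (k11,k165),(k2,k166),(k3,k166),(k4,k166),(k1,k167),(k6,k168),(k7,k168)],[(k0,k145),(k8,k159),(k9,k159),(k10,k167),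
    (k11,k167),(k3,k168),(k4,k168),(k5,k168),(k1,k169),(k6,k170),(k7,k170),(k2,k184)],[(k8,k123),(k0,k145),(k11,k147),
    (k6,k152),(k9,k159),(k10,k167),(k2,k168),(k3,k168),(k4,k168),(k5,k168),(k1,k169),(k7,k170)],[(k0,k134),(k10,k156),
    (k2,k157),(k3,k157),(k4,k157),(k5,k157),(k1,k158),(k6,k159),(k7,k159),(k9,k166),(k8,k168),(k11,k192)],[(k1,k120),
    (k6,k123),(k0,k134),(k11,k156),(k2,k157),(k3,k157),(k4,k157),(k5,k157),(k7,k159),(k8,k166),(k9,k168),(k10,k178)],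
    [(k0,k142),(k1,k144),(k11,k146),(k6,k147),(k8,k156),(k2,k165),(k3,k165),(k4,k165),(k5,k165),(k7,k167),(k9,k192),
    (k10,(nat_lit 202))],[(k10,k132),(k0,k142),(k3,k149),(k9,k156),(k2,k165),(k4,k165),(k5,k165),(k1,k166),(k6,k167),
    (k7,k167),(k8,k178),(k11,(nat_lit 202))]]
    [[k2,k1,k0,k0,k0,k0],[k2,k0,k1,k0,k0,k0],[k2,k0,k0,k1,k0,k0],[k2,k0,k0,k0,k1,k0],[k2,k0,k0,k0,k0,k1],[k1,k2,k0,k0,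
    k0,k0],[k1,k1,k1,k0,k0,k0],[k1,k1,k0,k0,k1,k0],[k1,k1,k0,k0,k0,k1],[k1,k0,k2,k0,k0,k0],[k1,k0,k1,k0,k1,k0],[k1,k0,
    k1,k0,k0,k1],[k1,k0,k0,k1,k1,k0],[k1,k0,k0,k1,k0,k1],[k1,k0,k0,k2,k0,k0],[k1,k0,k0,k0,k2,k0],[k1,k0,k0,k0,k1,k1],
    [k1,k0,k0,k0,k0,k2],[k0,k1,k0,k1,k1,k0],[k0,k1,k0,k0,k1,k1],[k0,k1,k0,k0,k0,k2],[k0,k0,k3,k0,k0,k0],[k0,k0,k2,k0,
    k1,k0],[k0,k0,k1,k1,k1,k0],[k0,k0,k1,k0,k1,k1],[k0,k0,k1,k0,k0,k2],[k0,k0,k0,k2,k1,k0],[k0,k0,k0,k1,k2,k0],[k0,k0,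
    k0,k1,k1,k1],[k0,k0,k0,k1,k0,k2]]
    [.ref k33 k5 [(z2,[z24,y18,y15,y1,z6]),(z1,[y6,z4,z3]),(z1,[z0,z1]),(z1,[z3,y2])],.ref (nat_lit 322) k1 [(z1,[z3,
    y2]),(z2,[y6,z4,z9,z1]),(z1,[z0,z1]),(z1,[z6,y4,z0,y1])],.ref (nat_lit 323) k0 [(z1,[z0,z1]),(z1,[z0,z0,z1]),(z1,
    [y6,z4,z0,z1]),(z1,[z3,y2])],.ref k33 k5 [(z1,[z3,y2]),(z4,[y6,z2,y3,y1,z6]),(z1,[z0,z1]),(z8,[z6,y2,z15,z1,y6])],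
    .ref k33 k5 [(z2,[y12,z6,y3,y1,z6]),(z1,[z3,y2]),(z1,[z0,z1]),(z2,[y3,z2,z3])],.ref k33 k5 [(z2,[z12,y6,y15,y1,
    z6]),(z1,[y3,z1,z3]),(z1,[z0,z1]),(z2,[z3,y1])],.ref (nat_lit 235) k3 [(z2,[y18,z6,z9,z1]),(z2,[z24,y10,y15,y1,
    z6]),(z1,[y6,z2,z3]),(z1,[z0,z1])],.ref k33 k5 [(z10,[z24,y10,y15,y1,z6]),(z5,[y6,z0,z0,y1,z6]),(z1,[z0,z1]),(z10,
    [z6,z0,z15,z1,y6])],.ref k33 k5 [(z2,[y24,z6,z9,y1,z6]),(z1,[z6,y2,y3]),(z1,[z0,z1]),(z1,[y3,z1,z3])],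
    .ref (nat_lit 322) k1 [(z2,[z3,y1]),(z2,[y3,z1,z9,z1]),(z1,[z0,z1]),(z1,[z3,y1,z0,y1])],
    .ref (nat_lit 324) k5 [(z6,[z24,y2,z9,y1,y18]),(z1,[y2,z0,y1,z0,z2]),(z1,[z0,z1]),(z1,[z1,z0,z1,z0,y1])],
    .ref (nat_lit 325) k8 [(z1,[z3,y1,y3]),(z6,[y6,z2,z15,z1]),(z6,[z0,y2,y15,y1,z6]),(z1,[z0,z0,z1])],
    .ref k181 k10 [(z1,[z1,z0,z1,z0,y1]),(z1,[z0,z1]),(z1,[y2,z0,y1,z0,z2]),(z6,[z24,y2,z9,y1,y18])],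
    .ref (nat_lit 326) k5 [(z2,[y12,z2,y3,y1,z6]),(z1,[z3,y1]),(z1,[z0,z1]),(z1,[y3,z1,z3])],
    .ref (nat_lit 323) k0 [(z1,[z0,z1]),(z1,[z0,z0,z1]),(z1,[y3,z1,z0,z1]),(z2,[z3,y1])],.ref k33 k5 [(z2,[z3,y1]),
    (z4,[y3,y1,y3,y1,z6]),(z1,[z0,z1]),(z8,[z3,z1,z15,z1,y6])],.ref k33 k5 [(z2,[z12,y2,z3,z1,y6]),(z2,[y6,z0,y3,y1,
    z6]),(z1,[z0,z1]),(z4,[z6,z0,z9,z1,y6])],.ref k33 k5 [(z2,[y6,z0,y3,y1,z6]),(z2,[z3,y1]),(z1,[z0,z1]),(z4,[y3,z1,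
    z6])],.ref (nat_lit 325) k8 [(z1,[y3,y1,y3,z0,z3]),(z6,[z6,z2,z15,z1,y6]),(z6,[z0,y2,y15,y1,z6]),(z1,[z0,z0,z1])],
    .ref k33 k5 [(z6,[z24,z2,y9,z1,y6]),(z3,[y6,y2,z0,y1,z6]),(z1,[z0,z1]),(z6,[z6,z2,z9,z1,y6])],.ref k33 k5 [(z2,
    [y8,y2,z1,y1,z6]),(z1,[z2,z0,y1]),(z1,[z0,z1]),(z1,[y1,z0,z2])],.ref (nat_lit 322) k1 [(z1,[z1]),(z2,[y2,z0,z9,
    z1]),(z1,[z0,z1]),(z1,[z2,z0,z0,y1])],.ref k198 k1 [(z4,[z18,z6,z9,y1,y18]),(z4,[y6,y2,z3,z1,z6]),(z1,[z0,z1]),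
    (z2,[z6,z2,z3,y1,y6])],.ref k33 k5 [(z2,[z24,z6,z9,y1,y18]),(z1,[y6,y2,y3,z0,z6]),(z1,[z0,z1]),(z1,[z3,z1,z3,z0,
    y3])],.ref k198 k1 [(z2,[z18,z6,z9,z1,y18]),(z1,[y3,y1,z0,z0,z3]),(z1,[z0,z1]),(z1,[z6,z2,z3,z0,y6])],
    .ref (nat_lit 327) k8 [(z1,[z1,z0,y2]),(z2,[y6,z0,z21,z1]),(z6,[z0,y2,y15,y1,z6]),(z1,[z0,z0,z1])],
    .ref (nat_lit 235) k3 [(z4,[z18,z6,z9,y1,y18]),(z2,[y12,y6,y9,z1,z18]),(z2,[z6,z2,z3,y1,y6]),(z1,[z0,z1])],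
    .ref (nat_lit 328) k8 [(z2,[y6,y4,y21,y1,z12]),(z3,[z3,z2,z15,z1,y6]),(z6,[z0,y2,y15,y1,z6]),(z1,[z0,z0,z1])],
    .ref (nat_lit 235) k3 [(z2,[z18,z6,z9,z1,y18]),(z2,[y24,y10,y15,y1,z30]),(z1,[z6,z2,z3,z0,y6]),(z1,[z0,z1])],
    .ref (nat_lit 232) k5 [(z6,[y6,y2,y3,y1,z6]),(z1,[z1]),(z1,[z0,z1]),(z1,[y1,z0,z2])]],
    .lp k0 [(nat_lit 512),(nat_lit 470),(nat_lit 410),(nat_lit 504),(nat_lit 480),(nat_lit 498)] [k50,k0,k46,k46,k76,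
    k76,k29,k29,k41,k41,k32,k32] k0 [[k0,k0,k30,k0,k0,k0,k0,k4,k16,k8,k0,k0],[k0,k0,k0,k0,k0,k18,k0,k0,k0,k0,k24,k6],
    [k0,k0,k0,k0,k30,k30,k0,k0,k0,k2,k156,k0],[k0,k30,k0,k0,k0,k0,k26,k22,k0,k2,k0,k0],[k18,k0,k0,k30,k0,k36,k44,k0,
    k0,k0,k0,k0],[k0,k0,k0,k30,k0,k0,k8,k0,k0,k32,k90,k30],[k0,k4,k22,k0,k0,k0,k0,k8,k8,k0,k0,k0],[k0,k0,k26,k0,k8,
    k44,k0,k0,k0,k0,k32,k2],[k0,k8,k2,k2,k32,k0,k0,k0,k0,k0,k0,k0],[k0,k16,k0,k0,k0,k0,k0,k8,k0,k0,k0,k0],[k6,k0,k0,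
    k0,k30,k0,k2,k0,k0,k0,k0,k36],[k24,k0,k0,k156,k90,k0,k32,k0,k0,k0,k0,k0]] (nat_lit 1440) k5
    [[(k2,(nat_lit 360)),(k7,(nat_lit 443)),(k5,(nat_lit 486)),(k9,(nat_lit 489)),(k3,(nat_lit 492)),(k4,
    (nat_lit 516)),(k0,(nat_lit 518)),(k8,(nat_lit 521)),(k10,(nat_lit 530)),(k11,(nat_lit 530)),(k6,(nat_lit 535)),
    (k1,(nat_lit 598))],[(k5,(nat_lit 406)),(k4,(nat_lit 436)),(k0,(nat_lit 462)),(k8,(nat_lit 463)),(k11,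
    (nat_lit 464)),(k2,(nat_lit 466)),(k3,(nat_lit 466)),(k9,(nat_lit 471)),(k6,(nat_lit 479)),(k7,(nat_lit 501)),
    (k10,(nat_lit 504)),(k1,(nat_lit 518))],[(k4,(nat_lit 422)),(k5,(nat_lit 440)),(k0,(nat_lit 466)),(k3,
    (nat_lit 470)),(k10,(nat_lit 478)),(k9,(nat_lit 479)),(k6,(nat_lit 487)),(k7,(nat_lit 487)),(k8,(nat_lit 491)),
    (k1,(nat_lit 492)),(k11,(nat_lit 492)),(k2,(nat_lit 500))],[(k1,(nat_lit 360)),(k4,(nat_lit 410)),(k5,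
    (nat_lit 440)),(k7,(nat_lit 457)),(k0,(nat_lit 466)),(k2,(nat_lit 470)),(k8,(nat_lit 473)),(k10,(nat_lit 484)),
    (k11,(nat_lit 486)),(k9,(nat_lit 497)),(k3,(nat_lit 500)),(k6,(nat_lit 513))],[(k0,(nat_lit 406)),(k5,
    (nat_lit 410)),(k9,(nat_lit 419)),(k6,(nat_lit 435)),(k2,(nat_lit 440)),(k3,(nat_lit 440)),(k4,(nat_lit 440)),(k8,
    (nat_lit 443)),(k11,(nat_lit 456)),(k1,(nat_lit 486)),(k7,(nat_lit 487)),(k10,(nat_lit 610))],[(k4,(nat_lit 374)),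
    (k9,(nat_lit 401)),(k2,(nat_lit 410)),(k3,(nat_lit 422)),(k0,(nat_lit 436)),(k5,(nat_lit 440)),(k8,(nat_lit 445)),
    (k7,(nat_lit 457)),(k6,(nat_lit 465)),(k11,(nat_lit 486)),(k1,(nat_lit 516)),(k10,(nat_lit 544))],[(k1,
    (nat_lit 443)),(k2,(nat_lit 457)),(k4,(nat_lit 457)),(k8,(nat_lit 460)),(k10,(nat_lit 471)),(k9,(nat_lit 484)),
    (k3,(nat_lit 487)),(k5,(nat_lit 487)),(k0,(nat_lit 501)),(k11,(nat_lit 501)),(k7,(nat_lit 540)),(k6,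
    (nat_lit 548))],[(k5,(nat_lit 435)),(k4,(nat_lit 465)),(k0,(nat_lit 479)),(k3,(nat_lit 487)),(k8,(nat_lit 492)),
    (k9,(nat_lit 492)),(k11,(nat_lit 493)),(k6,(nat_lit 496)),(k2,(nat_lit 513)),(k10,(nat_lit 533)),(k1,
    (nat_lit 535)),(k7,(nat_lit 548))],[(k4,(nat_lit 401)),(k5,(nat_lit 419)),(k0,(nat_lit 471)),(k3,(nat_lit 479)),
    (k7,(nat_lit 484)),(k10,(nat_lit 487)),(k8,(nat_lit 488)),(k9,(nat_lit 488)),(k1,(nat_lit 489)),(k11,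
    (nat_lit 489)),(k6,(nat_lit 492)),(k2,(nat_lit 497))],[(k5,(nat_lit 443)),(k4,(nat_lit 445)),(k7,(nat_lit 460)),
    (k0,(nat_lit 463)),(k2,(nat_lit 473)),(k8,(nat_lit 480)),(k9,(nat_lit 488)),(k10,(nat_lit 489)),(k11,
    (nat_lit 489)),(k3,(nat_lit 491)),(k6,(nat_lit 492)),(k1,(nat_lit 521))],[(k5,(nat_lit 456)),(k0,(nat_lit 464)),
    (k2,(nat_lit 486)),(k4,(nat_lit 486)),(k8,(nat_lit 489)),(k9,(nat_lit 489)),(k3,(nat_lit 492)),(k6,(nat_lit 493)),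
    (k10,(nat_lit 498)),(k11,(nat_lit 498)),(k7,(nat_lit 501)),(k1,(nat_lit 530))],[(k10,(nat_lit 462)),(k7,
    (nat_lit 471)),(k3,(nat_lit 478)),(k2,(nat_lit 484)),(k9,(nat_lit 487)),(k8,(nat_lit 489)),(k11,(nat_lit 498)),
    (k0,(nat_lit 504)),(k1,(nat_lit 530)),(k6,(nat_lit 533)),(k4,(nat_lit 544)),(k5,(nat_lit 610))]]
    [[k2,k1,k0,k0,k0,k0],[k1,k2,k0,k0,k0,k0],[k1,k1,k1,k0,k0,k0],[k1,k1,k0,k1,k0,k0],[k1,k1,k0,k0,k1,k0],[k1,k1,k0,k0,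
    k0,k1],[k1,k0,k2,k0,k0,k0],[k1,k0,k1,k0,k1,k0],[k1,k0,k1,k1,k0,k0],[k1,k0,k0,k1,k1,k0],[k1,k0,k1,k0,k0,k1],[k0,k2,
    k1,k0,k0,k0],[k0,k1,k2,k0,k0,k0],[k0,k1,k1,k1,k0,k0],[k0,k1,k1,k0,k1,k0],[k0,k1,k1,k0,k0,k1],[k0,k1,k0,k1,k1,k0],
    [k0,k1,k0,k1,k0,k1],[k0,k0,k3,k0,k0,k0],[k0,k0,k2,k1,k0,k0],[k0,k0,k2,k0,k1,k0],[k0,k0,k1,k1,k1,k0],[k0,k0,k1,k1,
    k0,k1],[k0,k0,k1,k0,k2,k0],[k0,k0,k1,k0,k1,k1],[k0,k0,k1,k0,k0,k2]]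
    [.ref k9 k0 [(z2,[z3,z0,y1]),(z1,[z0,z0,z1]),(z1,[y3,z1,z0,z3])],.ref k9 k0 [(z1,[z3,z0,y2]),(z1,[z0,z0,z1]),(z1,
    [y6,z1,z3,z3])],.ref k9 k0 [(z1,[y3,z1,z0,z3]),(z1,[z0,z0,z1]),(z1,[z6,y1,y1,y3])],.ref (nat_lit 313) k4 [(z3,[y3,
    y1,z1]),(z1,[z3,z0,y1]),(z3,[z0,z1,y1,z3])],.ref (nat_lit 314) k1 [(z1,[y6,z1,z1,z3]),(z1,[z0,z0,z1]),(z1,[z3,z0,
    y1])],.ref (nat_lit 315) k10 [(z1,[z0,z0,z1]),(z3,[z0,z1,y1,z3]),(z1,[z6,y1,y1,y3])],.ref k9 k0 [(z3,[y3,z2,y2,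
    z6]),(z1,[z0,z0,z1]),(z3,[z6,y1,z1,y3])],.ref (nat_lit 316) k0 [(z3,[y3,z1,y1,z3]),(z1,[z0,z0,z1]),(z3,[z6,y1,z1,
    y3])],.ref (nat_lit 317) k0 [(z3,[y3,z1,y1,z3]),(z1,[z0,z0,z1]),(z3,[z6,y1,z1,y3])],.ref (nat_lit 318) k1 [(z3,
    [y6,z1,y1,z3]),(z1,[z0,z0,z1]),(z1,[z1])],.ref (nat_lit 319) k0 [(z3,[y3,z1,y1,z3]),(z1,[z0,z0,z1]),(z3,[z6,y1,z1,
    y3])],.ref k9 k0 [(z2,[y3,z1,z1,z3]),(z1,[z0,z0,z1]),(z1,[z3,z0,y2])],.ref k9 k0 [(z4,[y3,z2,y1,z6]),(z1,[z0,z0,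
    z1]),(z2,[z3,z0,y1])],.ref (nat_lit 320) k10 [(z1,[z0,z0,z1]),(z3,[z0,z1,y1,z3]),(z3,[y6,y1,z1,z3])],
    .ref (nat_lit 321) k4 [(z1,[z3,y1,z0,y3]),(z1,[y1,z0,z0,z1]),(z3,[z0,z1,y1,z3])],.ref (nat_lit 318) k1 [(z3,[z6,
    z1,y1,y3]),(z1,[z0,z0,z1]),(z1,[y1,z0,z0,z1])],.ref (nat_lit 319) k0 [(z3,[z3,z1,y1]),(z1,[z0,z0,z1]),(z3,[y6,y1,
    z1,z3])],.ref (nat_lit 316) k0 [(z3,[z3,z1,y1]),(z1,[z0,z0,z1]),(z3,[y6,y1,z1,z3])],.ref k9 k0 [(z2,[y1,z1,y1,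
    z3]),(z1,[z0,z0,z1]),(z1,[z1])],.ref (nat_lit 329) k10 [(z1,[z0,z0,z1]),(z3,[z0,z1,y1,z3]),(z1,[y6,y1,y1,z3])],
    .ref (nat_lit 256) k4 [(z3,[z3,y2,z2,y6]),(z1,[y3,z1,y2,z6]),(z3,[z0,z1,y1,z3])],.ref (nat_lit 315) k10 [(z1,[z0,
    z0,z1]),(z3,[z0,z1,y1,z3]),(z1,[y6,y1,y1,z3])],.ref (nat_lit 314) k1 [(z1,[z6,z1,z1,y3]),(z1,[z0,z0,z1]),(z1,[y3,
    z0,y1,z3])],.ref (nat_lit 316) k0 [(z6,[y3,z1,y1,z3]),(z1,[z0,z0,z1]),(z1,[z1])],.ref (nat_lit 313) k4 [(z3,[z3,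
    y1,z1,y3]),(z1,[y3,z0,y1,z3]),(z3,[z0,z1,y1,z3])],.ref (nat_lit 319) k0 [(z6,[y3,z1,y1,z3]),(z1,[z0,z0,z1]),(z1,
    [z1])]],
    .base (.leafM k3 [k5,k0,k1,k2,k3,k4] [(z1,[z0,y1,z1])] []),
    .base (.leafM k0 [k1,k2,k3,k4,k5,k0] [(z1,[z0,z0,z1])] []),
    .base (.leafM k3 [k5,k0,k1,k2,k3,k4] [(z1,[z0,y1,z0,z1])] []),
    .base (.leafM k0 [k2,k3,k4,k5,k0,k1] [(z3,[y1,y1,y3,z3])] []),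
    .base (.leafM k3 [k0,k1,k2,k3,k4,k5] [(z1,[y1,z0,y1,z1])] [])]

theorem hB6_171_27 : blkB [0, 0, 0, 0, 0, 0] [] sp6 hS6_171 (pcls (n := 6) [0, 0, 0, 0, 0, 0]) hD6_171 560 27 hN6_171_27 = true := by
  decide +kernel

/-- nodes 336 to 347 -/
noncomputable def hN6_171_28 : List HM :=
  [.base (.leafM k3 [k2,k3,k4,k5,k0,k1] [(z3,[z0,y1,y1,z3])] []),
    .base (.leafM k3 [k3,k4,k5,k0,k1,k2] [(z3,[z1,z1])] []),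
    .base (.leafM k3 [k1,k2,k3,k4,k5,k0] [(z3,[y1,y1,z0,z3])] []),
    .lp k0 [(nat_lit 642),(nat_lit 616),(nat_lit 652),(nat_lit 660),(nat_lit 700),(nat_lit 566)] [k29,k29,k42,k42,k24,
    k24,k20,k20,k0,k0,k67,k67] k0 [[k0,k48,k24,k0,k36,k0,k0,k0,k0,k0,k0,k46],[k0,k0,k0,k0,k8,k0,k12,k8,k32,k0,k0,k42],
    [k0,k0,k0,k0,k8,k0,k12,k0,k0,k0,k0,k42],[k0,k24,k0,k0,k12,k0,k0,k0,k0,k0,k0,k46],[k0,k0,k0,k0,k0,k0,k48,k0,k28,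
    k36,k10,k14],[k8,k36,k12,k8,k0,k0,k0,k0,k0,k0,k0,k0],[k8,k0,k0,k0,k0,k0,k0,k0,k24,k32,k0,k0],[k12,k0,k0,k12,k0,
    k48,k0,k0,k0,k0,k58,k10],[k0,k0,k0,k0,k0,k36,k0,k32,k0,k68,k154,k0],[k32,k0,k0,k0,k0,k28,k0,k24,k0,k0,k18,k0],
    [k42,k46,k46,k42,k0,k14,k10,k0,k0,k0,k0,k0],[k0,k0,k0,k0,k0,k10,k58,k0,k18,k154,k0,k0]] (nat_lit 1920) k5
    [[(k8,(nat_lit 517)),(k11,(nat_lit 586)),(k10,(nat_lit 604)),(k9,(nat_lit 613)),(k4,(nat_lit 637)),(k1,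
    (nat_lit 642)),(k6,(nat_lit 661)),(k7,(nat_lit 665)),(k2,(nat_lit 675)),(k3,(nat_lit 675)),(k0,(nat_lit 684)),(k5,
    (nat_lit 689))],[(k10,(nat_lit 558)),(k0,(nat_lit 594)),(k11,(nat_lit 604)),(k7,(nat_lit 615)),(k5,(nat_lit 623)),
    (k2,(nat_lit 629)),(k3,(nat_lit 629)),(k4,(nat_lit 655)),(k6,(nat_lit 663)),(k9,(nat_lit 679)),(k1,(nat_lit 684)),
    (k8,(nat_lit 703))],[(k10,(nat_lit 549)),(k11,(nat_lit 559)),(k0,(nat_lit 629)),(k6,(nat_lit 630)),(k7,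
    (nat_lit 630)),(k5,(nat_lit 634)),(k2,(nat_lit 640)),(k9,(nat_lit 646)),(k8,(nat_lit 658)),(k3,(nat_lit 664)),(k4,
    (nat_lit 670)),(k1,(nat_lit 675))],[(k10,(nat_lit 549)),(k11,(nat_lit 591)),(k2,(nat_lit 616)),(k0,(nat_lit 629)),
    (k7,(nat_lit 630)),(k5,(nat_lit 634)),(k6,(nat_lit 638)),(k3,(nat_lit 640)),(k4,(nat_lit 646)),(k9,(nat_lit 646)),
    (k8,(nat_lit 658)),(k1,(nat_lit 675))],[(k10,(nat_lit 563)),(k11,(nat_lit 609)),(k0,(nat_lit 623)),(k2,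
    (nat_lit 634)),(k3,(nat_lit 634)),(k7,(nat_lit 644)),(k5,(nat_lit 652)),(k4,(nat_lit 660)),(k6,(nat_lit 668)),(k8,
    (nat_lit 676)),(k9,(nat_lit 676)),(k1,(nat_lit 689))],[(k11,(nat_lit 581)),(k10,(nat_lit 595)),(k9,(nat_lit 628)),
    (k1,(nat_lit 637)),(k8,(nat_lit 640)),(k2,(nat_lit 646)),(k4,(nat_lit 652)),(k0,(nat_lit 655)),(k6,(nat_lit 656)),
    (k7,(nat_lit 656)),(k5,(nat_lit 660)),(k3,(nat_lit 670))],[(k0,(nat_lit 615)),(k10,(nat_lit 623)),(k2,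
    (nat_lit 630)),(k3,(nat_lit 630)),(k5,(nat_lit 644)),(k11,(nat_lit 649)),(k4,(nat_lit 656)),(k7,(nat_lit 660)),
    (k1,(nat_lit 665)),(k9,(nat_lit 680)),(k6,(nat_lit 708)),(k8,(nat_lit 708))],[(k11,(nat_lit 589)),(k3,
    (nat_lit 630)),(k2,(nat_lit 638)),(k8,(nat_lit 648)),(k4,(nat_lit 656)),(k6,(nat_lit 660)),(k1,(nat_lit 661)),(k0,
    (nat_lit 663)),(k5,(nat_lit 668)),(k10,(nat_lit 671)),(k9,(nat_lit 680)),(k7,(nat_lit 708))],[(k1,(nat_lit 613)),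
    (k10,(nat_lit 623)),(k4,(nat_lit 628)),(k2,(nat_lit 646)),(k3,(nat_lit 646)),(k11,(nat_lit 665)),(k5,
    (nat_lit 676)),(k0,(nat_lit 679)),(k6,(nat_lit 680)),(k7,(nat_lit 680)),(k9,(nat_lit 700)),(k8,(nat_lit 724))],
    [(k1,(nat_lit 517)),(k8,(nat_lit 632)),(k11,(nat_lit 633)),(k4,(nat_lit 640)),(k6,(nat_lit 648)),(k10,
    (nat_lit 651)),(k2,(nat_lit 658)),(k3,(nat_lit 658)),(k5,(nat_lit 676)),(k0,(nat_lit 703)),(k7,(nat_lit 708)),(k9,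
    (nat_lit 724))],[(k3,(nat_lit 559)),(k4,(nat_lit 581)),(k1,(nat_lit 586)),(k6,(nat_lit 589)),(k2,(nat_lit 591)),
    (k0,(nat_lit 604)),(k5,(nat_lit 609)),(k8,(nat_lit 633)),(k11,(nat_lit 634)),(k7,(nat_lit 649)),(k9,
    (nat_lit 665)),(k10,(nat_lit 720))],[(k2,(nat_lit 549)),(k3,(nat_lit 549)),(k0,(nat_lit 558)),(k5,(nat_lit 563)),
    (k10,(nat_lit 566)),(k4,(nat_lit 595)),(k1,(nat_lit 604)),(k7,(nat_lit 623)),(k9,(nat_lit 623)),(k8,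
    (nat_lit 651)),(k6,(nat_lit 671)),(k11,(nat_lit 720))]]
    [[k2,k0,k0,k0,k1,k0],[k2,k0,k0,k0,k0,k1],[k2,k1,k0,k0,k0,k0],[k1,k1,k0,k0,k0,k1],[k1,k1,k1,k0,k0,k0],[k1,k0,k1,k0,
    k0,k1],[k1,k0,k0,k1,k0,k1],[k1,k1,k0,k0,k1,k0],[k1,k0,k1,k0,k1,k0],[k1,k0,k0,k1,k1,k0],[k1,k0,k0,k0,k1,k1],[k1,k0,
    k0,k0,k0,k2],[k0,k2,k0,k1,k0,k0],[k0,k2,k0,k0,k0,k1],[k0,k1,k1,k0,k0,k1],[k0,k1,k0,k1,k0,k1],[k0,k1,k0,k0,k1,k1],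
    [k0,k1,k0,k0,k0,k2],[k0,k0,k2,k0,k0,k1],[k0,k0,k1,k1,k0,k1],[k0,k0,k1,k0,k1,k1],[k0,k0,k1,k0,k0,k2],[k0,k0,k0,k1,
    k0,k2],[k0,k0,k0,k0,k1,k2]]
    [.ref k25 k0 [(z7,[z9,z1]),(z14,[y9,z6,z7]),(z14,[y3,z2,z0,z21]),(z7,[y6,z4,z0,z0,z21]),(z7,[z3,y2])],
    .ref k25 k0 [(z4,[z6,z2,z1,z3,z6,y6]),(z8,[y6,z2,z3,y3,y6,z6]),(z24,[y6,z2,y1,z33,y6,z6]),(z6,[y6,z2,y1,y3,z12,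
    z6]),(z12,[z6,y2,z1,z3,z6,y6])],.ref k25 k0 [(z3,[z6,y1,y1]),(z3,[y3,z2,z2]),(z18,[y6,z4,z1,z27]),(z9,[y12,z8,z2,
    z0,z27]),(z9,[z6,y4,y1])],.ref k25 k0 [(z1,[z6,z1,z0,z3,z6,y6]),(z2,[y6,z0,z1,y3,y6,z6]),(z1,[y1,z0,z0,z1,y1,z1]),
    (z1,[y4,z0,z0,y2,y1,z4]),(z1,[z2,z0,z0,z1,z2,y2])],.ref k25 k0 [(z2,[z18,y4,y3,y9]),(z4,[y18,z6,z5,z9]),(z4,[y6,
    z2,z1,z9]),(z1,[y6,z2,z1,z3,z3]),(z2,[z6,y2,y1,y3])],.ref k25 k0 [(z5,[z18,z5,z3,z0,z18,y18]),(z5,[y9,z0,z1,z0,y9,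
    z9]),(z10,[y6,z0,y1,z15,y6,z6]),(z5,[y12,z0,y2,z0,z3,z12]),(z5,[z6,z0,z1,z0,z6,y6])],.ref k25 k0 [(z2,[z18,z2,z3,
    z9,z0,y18]),(z4,[y18,z0,y1,y9,z0,z18]),(z4,[y6,z0,y1,z3,z0,z6]),(z1,[y6,z0,y1,y3,z3,z6]),(z2,[z6,z0,z1,z3,z0,
    y6])],.ref k25 k0 [(z5,[z18,y1,y3]),(z5,[y9,z3,z4]),(z10,[y6,z2,z1,z15]),(z5,[y12,z4,z2,z0,z15]),(z5,[z6,y2,y1])],
    .ref k25 k0 [(z7,[z18,z1,z0,y9]),(z14,[y18,z6,z7,z9]),(z7,[y3,z1,z0,z12]),(z7,[y12,z4,z0,z6,z21]),(z7,[z6,y2,z0,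
    y3])],.ref k25 k0 [(z2,[z9,y1,z0,z0,y9]),(z4,[y9,z3,z2,z0,z9]),(z4,[y3,z1,z0,z6,z3]),(z1,[y3,z1,z0,z0,z6]),(z2,
    [z3,y1,z0,z0,y3])],.ref k25 k0 [(z8,[z18,z8,z3,z9,z18,y18]),(z16,[y18,z0,z5,y9,y18,z18]),(z16,[y6,z0,y1,z21,y6,
    z6]),(z4,[y6,z0,y1,y3,z6,z6]),(z8,[z6,z0,z1,z3,z6,y6])],.ref k25 k0 [(z1,[z3,z2,z1,z3,z6,y6]),(z2,[y3,y1,z0,y3,y6,
    z6]),(z6,[y3,y1,y1,z6,y6,z6]),(z3,[y6,y2,y2,y6,y3,z12]),(z3,[z3,z1,z1,z3,z6,y6])],.ref k25 k0 [(z5,[y9,z5,z3,z0,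
    z9]),(z10,[z9,z0,z2,z0,y9]),(z10,[z3,z0,y1,z15,y3]),(z5,[z6,z0,y2,z0,z9]),(z5,[y3,z0,z1,z0,z3])],.ref k25 k0 [(z2,
    [y6,z0,z1,y3,y6,z6]),(z4,[z6,z2,z1,z3,z6,y6]),(z12,[z6,z2,y1,z21,z6,y6]),(z3,[z6,z2,y1,z3,z15,y6]),(z6,[y6,y2,z1,
    y3,y6,z6])],.ref k25 k0 [(z2,[y9,y1,z0,z0,y9,z9]),(z4,[z9,z3,z2,z0,z9,y9]),(z4,[z3,z1,z0,z6,z3,y3]),(z1,[z3,z1,z0,
    z0,z6,y3]),(z2,[y3,y1,z0,z0,y3,z3])],.ref k25 k0 [(z7,[y18,z1,z0,y9,z0,z18]),(z14,[z18,z6,z7,z9,z0,y18]),(z7,[z3,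
    z1,z0,z12,z0,y3]),(z7,[z12,z4,z0,z6,z21,y12]),(z7,[y6,y2,z0,y3,z0,z6])],.ref k25 k0 [(z1,[y18,y5,z0,y9,y18,z18]),
    (z2,[z18,z6,z1,z9,z18,y18]),(z1,[z3,z1,z0,z3,z3,y3]),(z1,[z12,z4,z0,z6,z15,y12]),(z1,[y6,y2,z0,y3,y6,z6])],
    .ref k25 k0 [(z1,[y6,y3,y1,y6,y12,z12]),(z1,[z3,z2,z1,z3,z6,y6]),(z6,[z6,z4,z1,z15,z12,y12]),(z3,[z12,z8,z2,z12,
    z33,y24]),(z3,[y6,y4,y1,y6,y12,z12])],.ref k25 k0 [(z2,[y18,y4,y3,z9,y18,z18]),(z4,[z18,z6,z5,y9,z18,y18]),(z4,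
    [z6,z2,z1,z3,z6,y6]),(z1,[z6,z2,z1,y3,z9,y6]),(z2,[y6,y2,y1,z3,y6,z6])],.ref k25 k0 [(z5,[y18,y1,y3,z0,z0,z18]),
    (z5,[z9,z3,z4,z0,z0,y9]),(z10,[z6,z2,z1,z15,z0,y6]),(z5,[z12,z4,z2,z0,z15,y12]),(z5,[y6,y2,y1,z0,z0,z6])],
    .ref k25 k0 [(z1,[z18,z7,z3,z0,z18,y18]),(z1,[y9,y3,y1,z0,y9,z9]),(z2,[y6,y2,y1,z3,y6,z6]),(z1,[y12,y4,y2,z0,y9,
    z12]),(z1,[z6,z2,z1,z0,z6,y6])],.ref k25 k0 [(z1,[y18,y11,y6,y9,y36,z36]),(z2,[z18,z12,z7,z9,z36,y36]),(z1,[z3,z2,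
    z1,z3,z6,y6]),(z1,[z12,z8,z4,z6,z27,y24]),(z1,[y6,y4,y2,y3,y12,z12])],.ref k25 k0 [(z2,[y9,y4,y3,y9,y9,z18]),(z4,
    [z9,z6,z5,z9,z9,y18]),(z4,[z3,z2,z1,z9,z3,y6]),(z1,[z3,z2,z1,z3,z6,y6]),(z2,[y3,y2,y1,y3,y3,z6])],
    .ref k25 k0 [(z1,[z9,z7,z3,z9,z18,y18]),(z2,[y9,y6,y2,y9,y18,z18]),(z2,[y3,y2,y1,z0,y6,z6]),(z1,[y6,y4,y2,y6,y9,
    z12]),(z1,[z3,z2,z1,z3,z6,y6])]],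
    .base (.leafM k0 [k0,k1,k2,k3,k4,k5] [(z3,[z0,z3,z1,z1])] []),
    .lp k0 [(nat_lit 472),(nat_lit 430),(nat_lit 508),(nat_lit 490),(nat_lit 484),(nat_lit 484)] [k32,k32,k53,k53,k28,
    k0,k23,k23,k26,k26,k26,k26] k0 [[k0,k0,k18,k18,k0,k0,k12,k0,k96,k84,k0,k108],[k24,k0,k0,k0,k6,k6,k0,k0,k0,k0,k0,
    k12],[k0,k18,k0,k0,k0,k0,k18,k0,k42,k0,k0,k0],[k0,k18,k0,k0,k0,k0,k18,k0,k138,k0,k30,k150],[k6,k0,k0,k0,k0,k0,k0,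
    k0,k6,k0,k6,k0],[k6,k0,k0,k0,k0,k0,k18,k6,k18,k0,k0,k0],[k0,k0,k0,k0,k6,k0,k0,k12,k0,k0,k12,k0],[k0,k12,k18,k18,
    k18,k0,k0,k0,k0,k0,k0,k0],[k0,k84,k0,k0,k0,k0,k0,k0,k0,k24,k96,k0],[k0,k96,k138,k42,k18,k6,k0,k0,k0,k0,k0,k0],
    [k12,k108,k150,k0,k0,k0,k0,k0,k0,k0,k0,k0],[k0,k0,k30,k0,k0,k6,k0,k12,k0,k96,k0,k0]] (nat_lit 1440) k5
    [[(k8,(nat_lit 382)),(k6,(nat_lit 469)),(k4,(nat_lit 470)),(k1,(nat_lit 472)),(k5,(nat_lit 474)),(k9,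
    (nat_lit 478)),(k10,(nat_lit 478)),(k11,(nat_lit 478)),(k7,(nat_lit 481)),(k0,(nat_lit 484)),(k3,(nat_lit 559)),
    (k2,(nat_lit 601))],[(k10,(nat_lit 370)),(k11,(nat_lit 382)),(k8,(nat_lit 394)),(k2,(nat_lit 433)),(k3,
    (nat_lit 451)),(k9,(nat_lit 466)),(k6,(nat_lit 481)),(k4,(nat_lit 482)),(k1,(nat_lit 484)),(k5,(nat_lit 486)),(k7,
    (nat_lit 487)),(k0,(nat_lit 496))],[(k3,(nat_lit 406)),(k10,(nat_lit 445)),(k2,(nat_lit 448)),(k4,(nat_lit 449)),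
    (k0,(nat_lit 451)),(k7,(nat_lit 454)),(k9,(nat_lit 457)),(k6,(nat_lit 472)),(k5,(nat_lit 501)),(k11,
    (nat_lit 541)),(k8,(nat_lit 553)),(k1,(nat_lit 559))],[(k11,(nat_lit 415)),(k2,(nat_lit 430)),(k0,(nat_lit 433)),
    (k9,(nat_lit 439)),(k3,(nat_lit 448)),(k4,(nat_lit 455)),(k7,(nat_lit 460)),(k6,(nat_lit 478)),(k5,(nat_lit 483)),
    (k10,(nat_lit 487)),(k8,(nat_lit 595)),(k1,(nat_lit 601))],[(k10,(nat_lit 360)),(k11,(nat_lit 372)),(k1,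
    (nat_lit 474)),(k2,(nat_lit 483)),(k0,(nat_lit 486)),(k9,(nat_lit 492)),(k3,(nat_lit 501)),(k4,(nat_lit 508)),(k7,
    (nat_lit 513)),(k6,(nat_lit 531)),(k5,(nat_lit 536)),(k8,(nat_lit 552))],[(k3,(nat_lit 449)),(k2,(nat_lit 455)),
    (k1,(nat_lit 470)),(k11,(nat_lit 476)),(k4,(nat_lit 480)),(k0,(nat_lit 482)),(k10,(nat_lit 482)),(k7,
    (nat_lit 485)),(k9,(nat_lit 488)),(k8,(nat_lit 500)),(k6,(nat_lit 503)),(k5,(nat_lit 508))],[(k3,(nat_lit 454)),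
    (k2,(nat_lit 460)),(k9,(nat_lit 469)),(k11,(nat_lit 469)),(k1,(nat_lit 481)),(k6,(nat_lit 484)),(k4,
    (nat_lit 485)),(k0,(nat_lit 487)),(k7,(nat_lit 490)),(k8,(nat_lit 493)),(k10,(nat_lit 493)),(k5,(nat_lit 513))],
    [(k1,(nat_lit 469)),(k3,(nat_lit 472)),(k2,(nat_lit 478)),(k6,(nat_lit 478)),(k0,(nat_lit 481)),(k7,
    (nat_lit 484)),(k8,(nat_lit 487)),(k9,(nat_lit 487)),(k10,(nat_lit 487)),(k11,(nat_lit 487)),(k4,(nat_lit 503)),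
    (k5,(nat_lit 531))],[(k2,(nat_lit 439)),(k3,(nat_lit 457)),(k0,(nat_lit 466)),(k7,(nat_lit 469)),(k1,
    (nat_lit 478)),(k8,(nat_lit 484)),(k11,(nat_lit 484)),(k6,(nat_lit 487)),(k4,(nat_lit 488)),(k5,(nat_lit 492)),
    (k9,(nat_lit 496)),(k10,(nat_lit 496))],[(k1,(nat_lit 382)),(k0,(nat_lit 394)),(k8,(nat_lit 460)),(k9,
    (nat_lit 484)),(k10,(nat_lit 484)),(k11,(nat_lit 484)),(k6,(nat_lit 487)),(k7,(nat_lit 493)),(k4,(nat_lit 500)),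
    (k5,(nat_lit 552)),(k3,(nat_lit 553)),(k2,(nat_lit 595))],[(k5,(nat_lit 372)),(k0,(nat_lit 382)),(k2,
    (nat_lit 415)),(k7,(nat_lit 469)),(k4,(nat_lit 476)),(k1,(nat_lit 478)),(k8,(nat_lit 484)),(k9,(nat_lit 484)),(k6,
    (nat_lit 487)),(k11,(nat_lit 508)),(k3,(nat_lit 541)),(k10,(nat_lit 580))],[(k5,(nat_lit 360)),(k0,(nat_lit 370)),
    (k3,(nat_lit 445)),(k1,(nat_lit 478)),(k4,(nat_lit 482)),(k8,(nat_lit 484)),(k10,(nat_lit 484)),(k2,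
    (nat_lit 487)),(k6,(nat_lit 487)),(k7,(nat_lit 493)),(k9,(nat_lit 496)),(k11,(nat_lit 580))]]
    [[k2,k0,k0,k0,k1,k0],[k2,k0,k0,k0,k0,k1],[k2,k1,k0,k0,k0,k0],[k1,k1,k0,k0,k0,k1],[k1,k1,k0,k0,k1,k0],[k1,k1,k1,k0,
    k0,k0],[k1,k0,k1,k0,k1,k0],[k1,k0,k1,k0,k0,k1],[k1,k1,k0,k1,k0,k0],[k1,k0,k0,k1,k1,k0],[k1,k0,k0,k1,k0,k1],[k1,k0,
    k0,k0,k2,k0],[k1,k0,k0,k0,k1,k1],[k1,k0,k0,k0,k0,k2],[k0,k3,k0,k0,k0,k0],[k0,k2,k1,k0,k0,k0],[k0,k2,k0,k1,k0,k0],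
    [k0,k2,k0,k0,k0,k1],[k0,k1,k1,k0,k0,k1],[k0,k1,k0,k2,k0,k0],[k0,k1,k0,k1,k1,k0],[k0,k1,k0,k1,k0,k1],[k0,k1,k0,k0,
    k2,k0],[k0,k1,k0,k0,k1,k1],[k0,k0,k2,k0,k0,k1],[k0,k0,k1,k1,k0,k1],[k0,k0,k1,k0,k1,k1],[k0,k0,k1,k0,k0,k2],[k0,k0,
    k0,k1,k2,k0]]
    [.ref k25 k0 [(z1,[z6,y3,z6,z2,z2,y6]),(z1,[y3,z3,z0,y1,y1,z3]),(z1,[z0,z0,z0,z1]),(z2,[z9,y9,z9,z3,z5,y9]),(z1,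
    [y9,z6,y12,y4,y4,z12])],.ref k25 k0 [(z3,[z4,z1]),(z3,[y2,z4,z9]),(z1,[z0,z0,z0,z1]),(z1,[z1,y2,z0,z0,z1]),(z1,
    [y2,z1,y3,y1,y1,z3])],.ref k25 k0 [(z1,[z2,y1,y2]),(z1,[y1,z2,z4]),(z1,[z0,z0,z0,z1]),(z2,[z3,y6,y3,z0,z2]),(z1,
    [y3,z3,z0,y1,y1,z3])],.ref k25 k0 [(z1,[z4,y1,y4]),(z1,[y2,z2,z5]),(z1,[z0,z0,z0,z1]),(z1,[z3,y3,y3,z0,z1]),(z1,
    [y6,z3,z3,y1,y1,z3])],.ref k25 k0 [(z1,[y3,z3,z0,y1,y1,z3]),(z2,[z3,z0,z6,z1,z1,y3]),(z1,[z0,z0,z0,z1]),(z4,[y9,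
    z0,z0,y3,z1,z9]),(z2,[z9,y6,y6,z1,z1,y3])],.ref k25 k0 [(z1,[z6,y3,y6,y2]),(z1,[y3,z3,z6,z1]),(z1,[z0,z0,z0,z1]),
    (z2,[z9,y9,y9,y3,z2]),(z1,[y9,z6,z6,z2,y1,z3])],.ref k25 k0 [(z1,[y6,z3,y6,z0,y2,z6]),(z1,[z3,z0,z6,z0,z1,y3]),
    (z1,[z0,z0,z0,z1]),(z2,[y9,z0,y9,z0,y1,z9]),(z1,[z9,y3,z6,y1,z2,y6])],.ref k25 k0 [(z5,[z12,z3,z0,y4]),(z5,[y6,z6,
    z15,z2]),(z1,[z0,z0,z0,z1]),(z5,[z9,y9,z0,y3,z5]),(z5,[y18,z3,y15,z1,y5,z15])],.ref k25 k0 [(z5,[z12,z3,y12,z0,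
    y4]),(z5,[y6,z6,z21,z0,z2]),(z1,[z0,z0,z0,z1]),(z5,[z9,y9,y9,z0,z2]),(z5,[y18,z3,z3,y5,z1,z15])],.ref k25 k0 [(z1,
    [z12,z3,z12,z4,z0,y12]),(z1,[y6,z0,y3,y2,z0,z6]),(z1,[z0,z0,z0,z1]),(z1,[z9,z0,z9,z3,z1,y9]),(z1,[y18,y3,y21,y7,
    y1,z21])],.ref k25 k0 [(z2,[z3,z3,z0,z0,y1]),(z4,[y3,z3,z12,z0,z1]),(z1,[z0,z0,z0,z1]),(z8,[z9,y9,z0,z0,z5]),(z4,
    [y9,y3,y12,y4,y1,z12])],.ref k25 k0 [(z2,[y3,z3,y6,y2,y2,z6]),(z4,[z3,z3,z18,z2,z2,y6]),(z1,[z0,z0,z0,z1]),(z8,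
    [y9,y9,y18,y6,z2,z18]),(z4,[z9,y3,z6,z2,z2,y6])],.ref k25 k0 [(z1,[y12,z3,y12,y4,y4,z12]),(z1,[z6,z0,z9,z2,z2,
    y6]),(z1,[z0,z0,z0,z1]),(z1,[y9,z0,y9,y3,y2,z9]),(z1,[z18,y3,z15,z5,z5,y15])],.ref k25 k0 [(z1,[z2,z1]),(z1,[y1,
    z1,z3]),(z1,[z0,z0,z0,z1]),(z2,[z3,y3,z0,z0,z2]),(z1,[y3,z0,y3,y1,y1,z3])],.ref k25 k0 [(z1,[y2,z3,z6]),(z1,[z1]),
    (z1,[z0,z0,z0,z1]),(z2,[y3,z0,z9,z0,z2]),(z1,[z3,y3,y12,y1,y1,z3])],.ref k25 k0 [(z1,[y3,z3,z6,z1]),(z2,[z3,z0,z0,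
    y1]),(z1,[z0,z0,z0,z1]),(z4,[y9,z0,z18,z3,z4]),(z2,[z9,y6,y24,y5,y2,z6])],.ref k25 k0 [(z1,[y12,z3,z24,z0,z4]),
    (z1,[z6,z0,y9,z0,y2]),(z1,[z0,z0,z0,z1]),(z1,[y9,z0,z18,z0,z4]),(z1,[z18,y3,y39,y1,y7,z3])],.ref k25 k0 [(z1,[y4,
    z3,z8]),(z1,[z2,z0,y1]),(z1,[z0,z0,z0,z1]),(z1,[y3,z0,z6,z0,z1]),(z1,[z6,y3,y15,y1,y1,z3])],.ref k25 k0 [(z1,[y12,
    z3,z12,z4]),(z1,[z6,z0,y3,y2]),(z1,[z0,z0,z0,z1]),(z1,[y9,z0,z9,z3,z1]),(z1,[z18,y3,y21,y7,y1,z3])],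
    .ref k25 k0 [(z1,[z3,z3,y3,z0,y2]),(z2,[y3,z0,z9,z0,z2]),(z1,[z0,z0,z0,z1]),(z4,[z9,z0,y9,z0,y2]),(z2,[y9,y6,z3,
    y2,z4,z6])],.ref k25 k0 [(z5,[y12,z3,z0,y4,z0,z12]),(z5,[z6,z6,z15,z2,z0,y6]),(z1,[z0,z0,z0,z1]),(z5,[y9,y9,z0,y3,
    z5,z9]),(z5,[z18,z3,y15,z1,y5,y3])],.ref k25 k0 [(z1,[z6,z3,y6,z0,y2]),(z1,[y3,z0,z6,z0,z1]),(z1,[z0,z0,z0,z1]),
    (z2,[z9,z0,y9,z0,y1]),(z1,[y9,y3,z6,y1,z2,z3])],.ref k25 k0 [(z7,[y6,z9,y6,y4,y4,z12]),(z7,[z3,z6,z24,z2,z2,y6]),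
    (z1,[z0,z0,z0,z1]),(z14,[y9,y18,y9,y6,z8,z18]),(z7,[z9,y3,y12,y1,y1,z3])],.ref k25 k0 [(z7,[y12,z9,z0,y4,y4,z12]),
    (z7,[z6,z6,z21,z2,z2,y6]),(z1,[z0,z0,z0,z1]),(z7,[y9,y9,z0,y3,z4,z9]),(z7,[z18,y3,y21,y1,y1,z3])],
    .ref k25 k0 [(z1,[z12,z3,z0,y8]),(z1,[y6,z0,z3,z4]),(z1,[z0,z0,z0,z1]),(z1,[z9,z0,z0,y6,z1]),(z1,[y18,y3,y3,z11,
    y1,z3])],.ref k25 k0 [(z1,[z3,z3,z0,y1,y1]),(z2,[y3,z0,z6,z1,z1]),(z1,[z0,z0,z0,z1]),(z4,[z9,z0,z0,y3,z1]),(z2,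
    [y9,y6,y6,z1,z1,z6])],.ref k25 k0 [(z5,[y12,z3,y12,z0,y4,z12]),(z5,[z6,z6,z21,z0,z2,y6]),(z1,[z0,z0,z0,z1]),(z5,
    [y9,y9,y9,z0,z2,z9]),(z5,[z18,z3,z3,y5,z1,y3])],.ref k25 k0 [(z1,[z6,z3,z0,y2]),(z1,[y3,z0,z3,z1]),(z1,[z0,z0,z0,
    z1]),(z2,[z9,z0,z0,y3,z2]),(z1,[y9,y3,y3,z2,y1,z3])],.ref k25 k0 [(z9,[y12,z3,y24,y8,y4,z24]),(z9,[z6,z12,z39,z4,
    z2,y12]),(z1,[z0,z0,z0,z1]),(z3,[y3,y6,y6,y2,z2,z6]),(z3,[z6,z3,z3,z1,y1,y3])]],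
    .base (.leafM k3 [k5,k0,k1,k2,k3,k4] [(z2,[z1,z0,z1,z2])] []),
    .lp k0 [(nat_lit 474),(nat_lit 472),(nat_lit 486),(nat_lit 490),(nat_lit 486),(nat_lit 466)] [k8,k8,k9,k9,k2,k2,
    k0,k0,k2,k2,k12,k12] k0 [[k0,k0,k0,k0,k6,k6,k16,k0,k0,k0,k0,k2],[k78,k0,k0,k0,k0,k0,k4,k0,k0,k0,k0,k92],[k0,k0,k0,
    k0,k0,k0,k0,k0,k0,k2,k6,k4],[k0,k0,k0,k0,k4,k4,k8,k0,k0,k0,k0,k0],[k0,k6,k4,k0,k0,k0,k0,k0,k0,k0,k0,k0],[k0,k6,k4,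
    k0,k0,k0,k0,k0,k0,k0,k4,k0],[k0,k0,k0,k0,k0,k0,k0,k2,k2,k2,k0,k0],[k4,k16,k8,k0,k0,k0,k0,k0,k0,k0,k2,k0],[k0,k0,
    k0,k2,k0,k0,k0,k2,k0,k0,k70,k0],[k0,k0,k0,k0,k0,k0,k0,k2,k0,k0,k0,k0],[k92,k2,k0,k4,k0,k0,k0,k0,k0,k0,k0,k28],[k0,
    k0,k0,k6,k4,k0,k2,k0,k0,k70,k0,k0]] (nat_lit 1440) k5
    [[(k8,(nat_lit 410)),(k2,(nat_lit 467)),(k10,(nat_lit 470)),(k11,(nat_lit 470)),(k3,(nat_lit 475)),(k7,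
    (nat_lit 478)),(k9,(nat_lit 478)),(k4,(nat_lit 480)),(k6,(nat_lit 482)),(k5,(nat_lit 484)),(k1,(nat_lit 502)),(k0,
    (nat_lit 566))],[(k9,(nat_lit 464)),(k10,(nat_lit 468)),(k11,(nat_lit 470)),(k2,(nat_lit 473)),(k3,(nat_lit 473)),
    (k4,(nat_lit 474)),(k7,(nat_lit 476)),(k5,(nat_lit 480)),(k8,(nat_lit 480)),(k6,(nat_lit 486)),(k0,(nat_lit 552)),
    (k1,(nat_lit 566))],[(k10,(nat_lit 377)),(k3,(nat_lit 394)),(k11,(nat_lit 469)),(k2,(nat_lit 472)),(k0,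
    (nat_lit 473)),(k1,(nat_lit 475)),(k9,(nat_lit 475)),(k5,(nat_lit 479)),(k8,(nat_lit 479)),(k4,(nat_lit 485)),(k7,
    (nat_lit 487)),(k6,(nat_lit 497))],[(k10,(nat_lit 465)),(k1,(nat_lit 467)),(k11,(nat_lit 469)),(k2,(nat_lit 472)),
    (k3,(nat_lit 472)),(k0,(nat_lit 473)),(k8,(nat_lit 477)),(k5,(nat_lit 479)),(k9,(nat_lit 479)),(k4,(nat_lit 483)),
    (k7,(nat_lit 485)),(k6,(nat_lit 489))],[(k9,(nat_lit 478)),(k11,(nat_lit 478)),(k2,(nat_lit 479)),(k3,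
    (nat_lit 479)),(k0,(nat_lit 480)),(k4,(nat_lit 482)),(k10,(nat_lit 482)),(k1,(nat_lit 484)),(k7,(nat_lit 484)),
    (k5,(nat_lit 486)),(k8,(nat_lit 486)),(k6,(nat_lit 488))],[(k0,(nat_lit 474)),(k11,(nat_lit 476)),(k1,
    (nat_lit 480)),(k10,(nat_lit 480)),(k5,(nat_lit 482)),(k2,(nat_lit 483)),(k3,(nat_lit 485)),(k4,(nat_lit 486)),
    (k8,(nat_lit 486)),(k9,(nat_lit 486)),(k6,(nat_lit 488)),(k7,(nat_lit 488))],[(k0,(nat_lit 476)),(k1,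
    (nat_lit 478)),(k10,(nat_lit 478)),(k11,(nat_lit 478)),(k5,(nat_lit 484)),(k2,(nat_lit 485)),(k3,(nat_lit 487)),
    (k4,(nat_lit 488)),(k8,(nat_lit 488)),(k9,(nat_lit 488)),(k6,(nat_lit 490)),(k7,(nat_lit 490))],[(k11,
    (nat_lit 476)),(k10,(nat_lit 480)),(k1,(nat_lit 482)),(k0,(nat_lit 486)),(k8,(nat_lit 486)),(k4,(nat_lit 488)),
    (k5,(nat_lit 488)),(k6,(nat_lit 488)),(k9,(nat_lit 488)),(k2,(nat_lit 489)),(k7,(nat_lit 490)),(k3,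
    (nat_lit 497))],[(k0,(nat_lit 464)),(k3,(nat_lit 475)),(k10,(nat_lit 476)),(k1,(nat_lit 478)),(k5,(nat_lit 478)),
    (k11,(nat_lit 478)),(k2,(nat_lit 479)),(k4,(nat_lit 486)),(k6,(nat_lit 488)),(k7,(nat_lit 488)),(k8,
    (nat_lit 488)),(k9,(nat_lit 488))],[(k1,(nat_lit 410)),(k10,(nat_lit 476)),(k11,(nat_lit 476)),(k2,(nat_lit 477)),
    (k3,(nat_lit 479)),(k0,(nat_lit 480)),(k4,(nat_lit 486)),(k5,(nat_lit 486)),(k6,(nat_lit 486)),(k8,(nat_lit 486)),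
    (k7,(nat_lit 488)),(k9,(nat_lit 488))],[(k11,(nat_lit 466)),(k2,(nat_lit 469)),(k3,(nat_lit 469)),(k0,
    (nat_lit 470)),(k1,(nat_lit 470)),(k4,(nat_lit 476)),(k6,(nat_lit 476)),(k8,(nat_lit 476)),(k5,(nat_lit 478)),(k7,
    (nat_lit 478)),(k9,(nat_lit 478)),(k10,(nat_lit 536))],[(k3,(nat_lit 377)),(k10,(nat_lit 438)),(k2,(nat_lit 465)),
    (k0,(nat_lit 468)),(k1,(nat_lit 470)),(k8,(nat_lit 476)),(k9,(nat_lit 476)),(k7,(nat_lit 478)),(k4,(nat_lit 480)),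
    (k6,(nat_lit 480)),(k5,(nat_lit 482)),(k11,(nat_lit 536))]]
    [[k1,k2,k0,k0,k0,k0],[k1,k1,k1,k0,k0,k0],[k1,k1,k0,k0,k1,k0],[k1,k1,k0,k0,k0,k1],[k1,k0,k1,k0,k1,k0],[k1,k0,k1,k0,
    k0,k1],[k1,k0,k0,k1,k1,k0],[k1,k0,k0,k1,k0,k1],[k1,k0,k0,k0,k2,k0],[k1,k0,k0,k0,k1,k1],[k1,k0,k0,k0,k0,k2],[k0,k3,
    k0,k0,k0,k0],[k0,k2,k1,k0,k0,k0],[k0,k2,k0,k0,k1,k0],[k0,k2,k0,k0,k0,k1],[k0,k2,k0,k1,k0,k0],[k0,k1,k1,k0,k0,k1],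
    [k0,k1,k0,k1,k0,k1],[k0,k1,k0,k0,k1,k1],[k0,k1,k0,k0,k0,k2],[k0,k0,k1,k0,k1,k1],[k0,k0,k1,k0,k0,k2],[k0,k0,k0,k1,
    k0,k2],[k0,k0,k0,k0,k1,k2]]
    [.ref k25 k0 [(z1,[y1,z4,z2]),(z1,[z2,y2,y1]),(z2,[z1,y1,y2,z6]),(z4,[y5,z5,z10,z0,z4]),(z4,[y1,z1,z2])],
    .ref k25 k0 [(z1,[y2,z5,z2,z2]),(z1,[z4,y4,y1,y4]),(z1,[z1,y1,y1,z2]),(z2,[y5,z5,z5,z5,z2]),(z2,[y1,z1,z1,z1])],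
    .ref k25 k0 [(z1,[y4,z7,z4]),(z1,[z8,y8,y5]),(z1,[z2,y2,y2,z3]),(z1,[y5,z5,z5,z0,z1]),(z1,[y1,z1,z1])],
    .ref k25 k0 [(z1,[y3,z3,z0,y3,y1,z3]),(z1,[z6,z0,z3,z6,z2,y6]),(z2,[z3,z0,z0,z9,z1,y3]),(z4,[y15,z0,z0,y15,y1,
    z15]),(z4,[y3,z0,z0,y3,y1,z3])],.ref k25 k0 [(z1,[z4,y1,z0,y4]),(z1,[y8,z8,z3,z8]),(z1,[y2,z2,z0,z5]),(z1,[z5,y5,
    z0,y5,z1]),(z1,[z1,y1,z0,y1])],.ref k25 k0 [(z1,[z6,z3,z6,z0,z2,y6]),(z1,[y12,z0,y9,z0,y4,z12]),(z1,[y3,z0,y3,z3,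
    y1,z3]),(z2,[z15,z0,z15,z0,z7,y15]),(z2,[z3,z0,z3,z0,z1,y3])],.ref k25 k0 [(z5,[z6,z9,z0,z0,y2]),(z5,[y12,z12,z15,
    z0,z4]),(z5,[y3,z3,z0,z15,z1]),(z2,[z3,y3,z0,z0,z1]),(z10,[z3,y3,z0,z0,y1])],.ref k25 k0 [(z3,[z4,z9,z4,z4,z0,
    y4]),(z3,[y8,z0,z1,y8,z0,z8]),(z3,[y2,z0,y2,z7,z0,z2]),(z3,[z5,z0,z5,z5,z3,y5]),(z3,[z1,z0,z1,z1,z0,y1])],
    .ref k25 k0 [(z1,[z2,z1]),(z1,[y4,z4,z3]),(z1,[y1,z1,z0,z3]),(z2,[z5,y5,z0,z0,z2]),(z2,[z1,y1])],.ref k25 k0 [(z5,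
    [z12,z15,z12,z12,z4,y12]),(z5,[y24,z0,y9,y24,y8,z24]),(z5,[y6,z0,y6,z9,y2,z6]),(z1,[z3,z0,z3,z3,z2,y3]),(z5,[z3,
    z0,z3,z3,z1,y3])],.ref k25 k0 [(z1,[z3,z6,z6,z6,z2,y6]),(z1,[y6,y6,y9,y12,y4,z12]),(z2,[y3,y3,y6,z0,y2,z6]),(z4,
    [z15,z15,z30,z30,z14,y30]),(z4,[z3,z3,z6,z6,z2,y6])],.ref k25 k0 [(z2,[y1,z6,z3]),(z1,[z1]),(z4,[z1,z0,y3,z12]),
    (z8,[y5,z0,z15,z0,z8]),(z8,[y1,z0,z3])],.ref k25 k0 [(z3,[y2,z9,z4,z2]),(z3,[z4,z0,z1,y4]),(z3,[z1,z0,y2,z8]),(z6,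
    [y5,z0,z10,z5,z6]),(z6,[y1,z0,z2,z1])],.ref k25 k0 [(z5,[y4,z15,z8]),(z5,[z8,z0,y1]),(z5,[z2,z0,y4,z15]),(z1,[y1,
    z0,z2,z0,z1]),(z5,[y1,z0,z2])],.ref k25 k0 [(z4,[y3,z9,z3,y3,y1,z3]),(z2,[z3,z3,z3,z3,z1,y3]),(z8,[z3,z3,y3,z27,
    z1,y3]),(z16,[y15,y15,z15,y15,z11,z15]),(z16,[y3,y3,z3,y3,y1,z3])],.ref k25 k0 [(z11,[y12,z33,z24,z0,z4]),(z11,
    [z24,z0,y15,z0,y8]),(z11,[z6,z0,y12,z33,y2]),(z11,[y15,z0,z30,z0,z16]),(z11,[y3,z0,z6,z0,z1])],.ref k25 k0 [(z5,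
    [y6,z9,z0,z0,y2,z6]),(z5,[z12,z12,z15,z0,z4,y12]),(z5,[z3,z3,z0,z15,z1,y3]),(z2,[y3,y3,z0,z0,z1,z3]),(z10,[y3,y3,
    z0,z0,y1,z3])],.ref k25 k0 [(z1,[y4,y1,z0,y4,z0,z4]),(z1,[z8,z8,z3,z8,z0,y8]),(z1,[z2,z2,z0,z5,z0,y2]),(z1,[y5,y5,
    z0,y5,z1,z5]),(z1,[y1,y1,z0,y1,z0,z1])],.ref k25 k0 [(z7,[y12,z9,z0,y12,y4,z12]),(z7,[z24,z24,z21,z24,z8,y24]),
    (z7,[z6,z6,z0,z27,z2,y6]),(z7,[y15,y15,z0,y15,z2,z15]),(z7,[y3,y3,z0,y3,y1,z3])],.ref k25 k0 [(z2,[y3,z0,y3,y6,y2,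
    z6]),(z1,[z3,z6,z6,z6,z2,y6]),(z4,[z3,z6,z3,z18,z2,y6]),(z8,[y15,y30,y15,y30,y2,z30]),(z8,[y3,y6,y3,y6,y2,z6])],
    .ref k25 k0 [(z1,[y12,y9,y12,z0,y4,z12]),(z1,[z24,z24,z27,z0,z8,y24]),(z1,[z6,z6,z6,z3,z2,y6]),(z1,[y15,y15,y15,
    z0,y4,z15]),(z1,[y3,y3,y3,z0,y1,z3])],.ref k25 k0 [(z1,[y6,y9,y12,y6,y4,z12]),(z1,[z12,z24,z27,z12,z8,y24]),(z1,
    [z3,z6,z6,z6,z2,y6]),(z2,[y15,y30,y30,y15,y8,z30]),(z2,[y3,y6,y6,y3,y2,z6])],.ref k25 k0 [(z5,[z12,z39,z24,z24,z4,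
    y24]),(z5,[y24,y48,y33,y48,y8,z48]),(z5,[y6,y12,y12,z3,y2,z12]),(z1,[z3,z6,z6,z6,z2,y6]),(z5,[z3,z6,z6,z6,z1,
    y6])],.ref k25 k0 [(z1,[z12,z27,z24,z24,z8,y24]),(z1,[y24,y48,y45,y48,y16,z48]),(z1,[y6,y12,y12,y9,y4,z12]),(z1,
    [z15,z30,z30,z30,z11,y30]),(z1,[z3,z6,z6,z6,z2,y6])]],
    .lp k0 [(nat_lit 608),(nat_lit 610),(nat_lit 708),(nat_lit 652),(nat_lit 636),(nat_lit 622)] [k86,k14,k49,k49,k0,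
    k0,k28,k28,k24,k48,k43,k43] k0 [[k0,k0,k0,k2,k22,k58,k42,k38,k54,k0,k0,k0],[k116,k0,k0,k14,k0,k0,k0,k0,k0,k0,k0,
    k136],[k14,k2,k0,k0,k0,k16,k0,k0,k0,k0,k0,k46],[k0,k0,k0,k0,k0,k92,k72,k0,k16,k0,k0,k30],[k0,k58,k92,k16,k0,k0,k0,
    k0,k0,k0,k26,k10],[k0,k22,k0,k0,k0,k0,k0,k12,k32,k4,k0,k0],[k0,k38,k0,k0,k12,k0,k0,k0,k20,k176,k6,k0],[k0,k42,k72,
    k0,k0,k0,k0,k0,k0,k0,k38,k0],[k0,k0,k0,k0,k4,k0,k0,k176,k0,k0,k190,k0],[k0,k54,k16,k0,k32,k0,k0,k20,k0,k0,k34,k0],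
    [k136,k0,k30,k46,k0,k10,k0,k0,k0,k0,k0,k136],[k0,k0,k0,k0,k0,k26,k38,k6,k34,k190,k0,k0]] (nat_lit 1920) k5
    [[(k8,(nat_lit 480)),(k9,(nat_lit 608)),(k11,(nat_lit 617)),(k3,(nat_lit 645)),(k10,(nat_lit 651)),(k6,
    (nat_lit 660)),(k4,(nat_lit 668)),(k2,(nat_lit 675)),(k7,(nat_lit 676)),(k5,(nat_lit 740)),(k0,(nat_lit 744)),(k1,
    (nat_lit 816))],[(k11,(nat_lit 525)),(k9,(nat_lit 532)),(k6,(nat_lit 556)),(k4,(nat_lit 564)),(k2,(nat_lit 571)),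
    (k7,(nat_lit 572)),(k3,(nat_lit 573)),(k10,(nat_lit 579)),(k8,(nat_lit 598)),(k5,(nat_lit 636)),(k0,
    (nat_lit 652)),(k1,(nat_lit 744))],[(k10,(nat_lit 480)),(k3,(nat_lit 494)),(k0,(nat_lit 573)),(k2,(nat_lit 596)),
    (k11,(nat_lit 616)),(k1,(nat_lit 645)),(k9,(nat_lit 649)),(k5,(nat_lit 661)),(k6,(nat_lit 673)),(k4,
    (nat_lit 681)),(k7,(nat_lit 689)),(k8,(nat_lit 689))],[(k10,(nat_lit 570)),(k0,(nat_lit 571)),(k3,(nat_lit 596)),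
    (k2,(nat_lit 610)),(k9,(nat_lit 611)),(k11,(nat_lit 616)),(k4,(nat_lit 643)),(k8,(nat_lit 651)),(k5,
    (nat_lit 659)),(k1,(nat_lit 675)),(k6,(nat_lit 703)),(k7,(nat_lit 723))],[(k9,(nat_lit 588)),(k4,(nat_lit 616)),
    (k10,(nat_lit 635)),(k0,(nat_lit 636)),(k11,(nat_lit 649)),(k2,(nat_lit 659)),(k3,(nat_lit 661)),(k6,
    (nat_lit 680)),(k8,(nat_lit 684)),(k7,(nat_lit 696)),(k5,(nat_lit 708)),(k1,(nat_lit 740))],[(k0,(nat_lit 564)),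
    (k5,(nat_lit 616)),(k2,(nat_lit 643)),(k10,(nat_lit 655)),(k1,(nat_lit 668)),(k11,(nat_lit 669)),(k9,
    (nat_lit 672)),(k6,(nat_lit 680)),(k7,(nat_lit 680)),(k3,(nat_lit 681)),(k4,(nat_lit 708)),(k8,(nat_lit 716))],
    [(k0,(nat_lit 572)),(k11,(nat_lit 605)),(k9,(nat_lit 632)),(k6,(nat_lit 640)),(k7,(nat_lit 652)),(k8,
    (nat_lit 652)),(k10,(nat_lit 663)),(k1,(nat_lit 676)),(k4,(nat_lit 680)),(k3,(nat_lit 689)),(k5,(nat_lit 696)),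
    (k2,(nat_lit 723))],[(k8,(nat_lit 480)),(k0,(nat_lit 556)),(k11,(nat_lit 617)),(k9,(nat_lit 632)),(k7,
    (nat_lit 640)),(k6,(nat_lit 652)),(k1,(nat_lit 660)),(k3,(nat_lit 673)),(k10,(nat_lit 675)),(k4,(nat_lit 680)),
    (k5,(nat_lit 680)),(k2,(nat_lit 703))],[(k0,(nat_lit 532)),(k5,(nat_lit 588)),(k1,(nat_lit 608)),(k2,
    (nat_lit 611)),(k9,(nat_lit 612)),(k10,(nat_lit 623)),(k6,(nat_lit 632)),(k7,(nat_lit 632)),(k3,(nat_lit 649)),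
    (k8,(nat_lit 656)),(k4,(nat_lit 672)),(k11,(nat_lit 793))],[(k1,(nat_lit 480)),(k6,(nat_lit 480)),(k0,
    (nat_lit 598)),(k11,(nat_lit 641)),(k2,(nat_lit 651)),(k7,(nat_lit 652)),(k9,(nat_lit 656)),(k8,(nat_lit 660)),
    (k10,(nat_lit 675)),(k5,(nat_lit 684)),(k3,(nat_lit 689)),(k4,(nat_lit 716))],[(k0,(nat_lit 525)),(k7,
    (nat_lit 605)),(k2,(nat_lit 616)),(k3,(nat_lit 616)),(k1,(nat_lit 617)),(k6,(nat_lit 617)),(k11,(nat_lit 622)),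
    (k8,(nat_lit 641)),(k5,(nat_lit 649)),(k4,(nat_lit 669)),(k9,(nat_lit 793)),(k10,(nat_lit 812))],[(k3,
    (nat_lit 480)),(k10,(nat_lit 486)),(k2,(nat_lit 570)),(k0,(nat_lit 579)),(k9,(nat_lit 623)),(k5,(nat_lit 635)),
    (k1,(nat_lit 651)),(k4,(nat_lit 655)),(k7,(nat_lit 663)),(k6,(nat_lit 675)),(k8,(nat_lit 675)),(k11,
    (nat_lit 812))]]
    [[k2,k0,k0,k0,k1,k0],[k1,k2,k0,k0,k0,k0],[k1,k1,k1,k0,k0,k0],[k1,k1,k0,k0,k1,k0],[k1,k1,k0,k0,k0,k1],[k1,k0,k1,k0,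
    k1,k0],[k1,k0,k1,k0,k0,k1],[k1,k0,k0,k2,k0,k0],[k1,k0,k0,k1,k1,k0],[k1,k0,k0,k1,k0,k1],[k1,k0,k0,k0,k2,k0],[k1,k0,
    k0,k0,k1,k1],[k1,k0,k0,k0,k0,k2],[k0,k3,k0,k0,k0,k0],[k0,k2,k1,k0,k0,k0],[k0,k2,k0,k0,k1,k0],[k0,k2,k0,k0,k0,k1],
    [k0,k1,k1,k0,k0,k1],[k0,k1,k0,k1,k0,k1],[k0,k1,k0,k1,k1,k0],[k0,k1,k0,k0,k1,k1],[k0,k1,k0,k0,k0,k2],[k0,k0,k3,k0,
    k0,k0],[k0,k0,k1,k1,k1,k0],[k0,k0,k1,k0,k1,k1],[k0,k0,k1,k0,k0,k2],[k0,k0,k0,k2,k1,k0],[k0,k0,k0,k1,k2,k0],[k0,k0,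
    k0,k1,k1,k1],[k0,k0,k0,k1,k0,k2]]
    [.ref k25 k0 [(z2,[z3,z0,z0,z0,y1]),(z6,[y3,z1,z9,z0,z1]),(z3,[y6,z2,z0,z9,z2]),(z3,[z3,y1,z0,z0,y1]),(z1,[z0,z0,
    z0,z0,z1])],.ref k25 k0 [(z1,[z9,y1,y9]),(z2,[y6,z1,z9]),(z1,[y12,z2,z12,z3]),(z1,[z6,y1,y6]),(z1,[z0,z0,z0,z0,
    z1])],.ref k25 k0 [(z4,[y18,z5,z9,z18]),(z4,[z6,y1,z3,y6]),(z1,[z6,y1,y3,y3]),(z2,[y6,z1,z3,z6]),(z1,[z0,z0,z0,z0,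
    z1])],.ref k25 k0 [(z4,[z18,y1,y9,z0,y6]),(z4,[y6,z1,z9,z0,z2]),(z1,[y6,z1,z3,z3,z2]),(z2,[z6,y1,y3,z0,y2]),(z1,
    [z0,z0,z0,z0,z1])],.ref k25 k0 [(z2,[z9,z1,z0,z9,z3,y9]),(z2,[y3,z0,z3,y3,y1,z3]),(z1,[y6,z0,z0,y3,y2,z6]),(z1,
    [z3,z0,z0,z3,z1,y3]),(z1,[z0,z0,z0,z0,z1])],.ref k25 k0 [(z1,[y9,z2,z0,z9,z3]),(z2,[z6,y1,z3,y6,y2]),(z1,[z12,y2,
    z0,y9,y4]),(z1,[y6,z1,z0,z6,z2]),(z1,[z0,z0,z0,z0,z1])],.ref k25 k0 [(z2,[y18,z1,y9,z0,y6,z18]),(z1,[z3,z0,z3,z0,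
    z1,y3]),(z1,[z12,z0,z6,z3,z4,y12]),(z1,[y6,z0,y3,z0,y2,z6]),(z1,[z0,z0,z0,z0,z1])],.ref k25 k0 [(z7,[z9,z2]),(z14,
    [y6,z1,z21]),(z7,[y12,z2,z0,z21]),(z7,[z6,y1]),(z1,[z0,z0,z0,z0,z1])],.ref k25 k0 [(z5,[z9,z1,z0,z0,y3]),(z10,[y6,
    z1,z15,z0,z2]),(z5,[y12,z2,z0,z15,z4]),(z5,[z6,y1,z0,z0,y2]),(z1,[z0,z0,z0,z0,z1])],.ref k25 k0 [(z10,[z18,z5,z9,
    z18,z6,y18]),(z5,[y3,z0,z6,y3,y1,z3]),(z5,[y12,z0,y6,z3,y4,z12]),(z5,[z6,z0,z3,z6,z2,y6]),(z1,[z0,z0,z0,z0,z1])],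
    .ref k25 k0 [(z1,[z3,z0,z0,z0,y2]),(z6,[y6,z1,z9,z0,z4]),(z3,[y12,z2,z0,z9,z8]),(z3,[z6,y1,z0,z0,y4]),(z1,[z0,z0,
    z0,z0,z1])],.ref k25 k0 [(z2,[z6,z1,z3,z6,z0,y6]),(z1,[y1,z0,z1,y1,z0,z1]),(z1,[y4,z0,y2,y1,z0,z4]),(z1,[z2,z0,z1,
    z2,z0,y2]),(z1,[z0,z0,z0,z0,z1])],.ref k25 k0 [(z1,[z3,z1,z3,z6,z2,y6]),(z6,[y6,y1,z3,y12,y4,z12]),(z3,[y12,y2,
    y12,y15,y8,z24]),(z3,[z6,z1,z6,z12,z4,y12]),(z1,[z0,z0,z0,z0,z1])],.ref k25 k0 [(z2,[y6,z1,z9]),(z1,[z1]),(z1,[z4,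
    z0,y6,z3]),(z1,[y2,z0,z3]),(z1,[z0,z0,z0,z0,z1])],.ref k25 k0 [(z2,[y3,z1,z3,z3]),(z2,[z1,z0,z2,y1]),(z1,[z2,z0,
    y2,z1]),(z1,[y1,z0,z1,z1]),(z1,[z0,z0,z0,z0,z1])],.ref k25 k0 [(z2,[y9,z1,z9,z0,z3]),(z2,[z3,z0,z0,z0,y1]),(z1,
    [z6,z0,y6,z3,y2]),(z1,[y3,z0,z3,z0,z1]),(z1,[z0,z0,z0,z0,z1])],.ref k25 k0 [(z4,[y18,y1,z9,y18,y6,z18]),(z4,[z6,
    z1,z3,z6,z2,y6]),(z1,[z6,z1,y3,z9,z2,y6]),(z2,[y6,y1,z3,y6,y2,z6]),(z1,[z0,z0,z0,z0,z1])],.ref k25 k0 [(z5,[y9,z1,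
    z0,z0,y3,z9]),(z10,[z6,z1,z15,z0,z2,y6]),(z5,[z12,z2,z0,z15,z4,y12]),(z5,[y6,y1,z0,z0,y2,z6]),(z1,[z0,z0,z0,z0,
    z1])],.ref k25 k0 [(z1,[z9,z2,z0,z9,z3,y9]),(z2,[y6,y1,z3,y6,y2,z6]),(z1,[y12,y2,z0,y9,y4,z12]),(z1,[z6,z1,z0,z6,
    z2,y6]),(z1,[z0,z0,z0,z0,z1])],.ref k25 k0 [(z2,[z18,z1,y9,z0,y6]),(z1,[y3,z0,z3,z0,z1]),(z1,[y12,z0,z6,z3,z4]),
    (z1,[z6,z0,y3,z0,y2]),(z1,[z0,z0,z0,z0,z1])],.ref k25 k0 [(z1,[y9,y1,z0,y9,z0,z9]),(z2,[z6,z1,z3,z6,z0,y6]),(z1,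
    [z12,z2,z0,z15,z0,y12]),(z1,[y6,y1,z0,y6,z0,z6]),(z1,[z0,z0,z0,z0,z1])],.ref k25 k0 [(z2,[y18,y5,y9,y36,y12,z36]),
    (z1,[z3,z1,z3,z6,z2,y6]),(z1,[z12,z4,z6,z27,z8,y24]),(z1,[y6,y2,y3,y12,y4,z12]),(z1,[z0,z0,z0,z0,z1])],
    .ref k25 k0 [(z4,[y3,z2,z0,z9]),(z4,[z1,z0,z6,y3]),(z1,[z1]),(z2,[y1,z0,z0,z3]),(z1,[z0,z0,z0,z0,z1])],
    .ref k25 k0 [(z2,[y9,z1,z0,z9,z3]),(z2,[z3,z0,z3,y3,y1]),(z1,[z6,z0,z0,y3,y2]),(z1,[y3,z0,z0,z3,z1]),(z1,[z0,z0,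
    z0,z0,z1])],.ref k25 k0 [(z8,[y18,z1,y9,z0,z0,z18]),(z8,[z6,z1,z15,z0,z0,y6]),(z2,[z6,z1,z3,z6,z0,y6]),(z4,[y6,y1,
    y3,z0,z0,z6]),(z1,[z0,z0,z0,z0,z1])],.ref k25 k0 [(z4,[y9,y1,y9,y9,y6,z18]),(z4,[z3,z1,z9,z3,z2,y6]),(z1,[z3,z1,
    z3,z6,z2,y6]),(z2,[y3,y1,y3,y3,y2,z6]),(z1,[z0,z0,z0,z0,z1])],.ref k25 k0 [(z4,[z9,z2,z0,z0,y3]),(z4,[y3,z0,z6,z0,
    z1]),(z1,[y3,z0,z0,z3,z1]),(z2,[z3,z0,z0,z0,y1]),(z1,[z0,z0,z0,z0,z1])],.ref k25 k0 [(z2,[z9,z1,z0,z0,y6]),(z2,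
    [y3,z0,z3,z0,z2]),(z1,[y6,z0,z0,z3,z4]),(z1,[z3,z0,z0,z0,y2]),(z1,[z0,z0,z0,z0,z1])],.ref k25 k0 [(z4,[z18,z5,z9,
    z18,z0,y18]),(z4,[y6,y1,z3,y6,z0,z6]),(z1,[y6,y1,y3,y3,z0,z6]),(z2,[z6,z1,z3,z6,z0,y6]),(z1,[z0,z0,z0,z0,z1])],
    .ref k25 k0 [(z2,[z9,z4,z9,z18,z6,y18]),(z2,[y3,y1,z0,y6,y2,z6]),(z1,[y6,y2,y6,y9,y4,z12]),(z1,[z3,z1,z3,z6,z2,
    y6]),(z1,[z0,z0,z0,z0,z1])]],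
    .lp k0 [k154,k158,k164,k172,k164,k144] [k9,k9,k7,k7,k4,k4,k0,k0,k4,k4,k14,k14] k0 [[k0,k0,k2,k0,k0,k0,k0,k0,k0,k0,
    k0,k14],[k0,k0,k0,k0,k2,k0,k0,k0,k0,k0,k0,k14],[k0,k0,k0,k0,k0,k0,k0,k0,k0,k0,k0,k8],[k0,k2,k4,k0,k0,k0,k0,k0,k0,
    k0,k0,k0],[k0,k0,k0,k0,k0,k0,k0,k0,k0,k0,k0,k0],[k2,k0,k0,k0,k0,k0,k0,k0,k0,k0,k0,k0],[k0,k0,k0,k0,k0,k0,k0,k0,k0,
    k0,k0,k0],[k0,k0,k0,k0,k0,k0,k0,k0,k0,k0,k0,k0],[k0,k0,k0,k0,k0,k0,k0,k0,k0,k0,k0,k0],[k0,k0,k0,k0,k0,k0,k0,k0,k0,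
    k0,k0,k8],[k14,k14,k0,k8,k0,k0,k0,k0,k8,k0,k0,k14],[k0,k0,k0,k0,k0,k0,k0,k0,k0,k0,k0,k0]] (nat_lit 480) k5
    [[(k10,k149),(k11,k149),(k2,k156),(k4,k159),(k9,k159),(k6,k163),(k7,k163),(k5,k167),(k8,k167),(k0,k168),(k1,k168),
    (k3,k170)],[(k10,k135),(k11,k149),(k0,k154),(k2,k156),(k3,k156),(k5,k157),(k8,k159),(k9,k159),(k4,k161),(k6,k163),
    (k7,k163),(k1,k168)],[(k10,k137),(k11,k151),(k0,k156),(k3,k158),(k2,k160),(k4,k161),(k5,k161),(k8,k161),(k9,k161),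
    (k7,k163),(k6,k165),(k1,k170)],[(k10,k143),(k11,k151),(k0,k156),(k1,k156),(k3,k160),(k4,k161),(k5,k161),(k8,k161),
    (k9,k161),(k2,k162),(k6,k165),(k7,k165)],[(k10,k154),(k11,k154),(k0,k157),(k5,k160),(k2,k161),(k3,k161),(k4,k164),
    (k8,k164),(k9,k164),(k1,k167),(k6,k168),(k7,k168)],[(k10,k154),(k11,k154),(k1,k159),(k0,k161),(k2,k161),(k3,k161),
    (k4,k164),(k5,k164),(k8,k164),(k9,k164),(k6,k168),(k7,k168)],[(k10,k158),(k11,k158),(k0,k163),(k1,k163),(k3,k163),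
    (k2,k165),(k4,k168),(k5,k168),(k8,k168),(k9,k168),(k6,k172),(k7,k172)],[(k10,k158),(k11,k158),(k0,k163),(k1,k163),
    (k2,k165),(k3,k165),(k4,k168),(k5,k168),(k8,k168),(k9,k168),(k6,k172),(k7,k172)],[(k10,k154),(k11,k154),(k0,k159),
    (k1,k159),(k2,k161),(k3,k161),(k4,k164),(k5,k164),(k8,k164),(k9,k164),(k6,k168),(k7,k168)],[(k10,k154),(k11,k154),
    (k0,k159),(k2,k161),(k3,k161),(k4,k164),(k5,k164),(k8,k164),(k9,k164),(k1,k167),(k6,k168),(k7,k168)],[(k10,k136),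
    (k11,k144),(k0,k149),(k1,k149),(k2,k151),(k3,k151),(k4,k154),(k5,k154),(k8,k154),(k9,k154),(k6,k158),(k7,k158)],
    [(k10,k130),(k0,k135),(k11,k136),(k3,k137),(k2,k143),(k1,k149),(k4,k154),(k5,k154),(k8,k154),(k9,k154),(k6,k158),
    (k7,k158)]]
    [[k2,k0,k0,k0,k0,k1],[k1,k2,k0,k0,k0,k0],[k1,k1,k1,k0,k0,k0],[k1,k1,k0,k0,k1,k0],[k1,k1,k0,k0,k0,k1],[k1,k0,k1,k0,
    k0,k1],[k1,k0,k0,k1,k0,k1],[k1,k0,k0,k0,k1,k1],[k1,k0,k0,k0,k0,k2],[k0,k2,k0,k0,k0,k1],[k0,k1,k1,k0,k0,k1],[k0,k1,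
    k0,k1,k0,k1],[k0,k1,k0,k0,k1,k1],[k0,k1,k0,k0,k0,k2],[k0,k0,k2,k0,k0,k1],[k0,k0,k1,k0,k1,k1],[k0,k0,k1,k0,k0,k2],
    [k0,k0,k0,k1,k0,k2],[k0,k0,k0,k0,k2,k1],[k0,k0,k0,k0,k1,k2],[k0,k0,k0,k0,k0,k3]]
    [.ref (nat_lit 339) k6 [(z1,[y3,z1]),(z1,[z6,y1]),(z1,[z0,z0,z1]),(z1,[z0,z0,z0,z1])],.ref (nat_lit 213) k2 [(z1,
    [z6,y1,y6]),(z1,[y12,z2,z12,z3]),(z2,[y6,z1,z9]),(z1,[z9,y1,y9])],.ref (nat_lit 340) k8 [(z1,[z0,z0,y2,z1]),(z1,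
    [z0,z0,z1]),(z2,[z0,y1,y3,y6,z6]),(z2,[y6,z1,y3,z6])],.ref (nat_lit 294) k6 [(z1,[y1,z0,z0,y1,z1]),(z1,[z6,z1,z0,
    z6,y6]),(z1,[z0,z0,z1]),(z1,[z0,z0,z0,z1])],.ref k33 k7 [(z4,[y6,z1,z9]),(z1,[y6,z1,z3,z3]),(z2,[z6,y1,y3]),(z2,
    [z0,y1,y3,y6,z6])],.ref k33 k7 [(z2,[z6,y1,z3,y6]),(z1,[z12,y2,z0,y9]),(z1,[y6,z1,z0,z6]),(z2,[z0,y1,y3,y6,z6])],
    .ref k33 k7 [(z10,[y6,z1,z15]),(z5,[y12,z2,z0,z15]),(z5,[z6,y1]),(z2,[z0,y1,y3,y6,z6])],.ref k33 k7 [(z1,[y1,z0,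
    z1,y1,z1]),(z1,[y4,z0,y2,y1,z4]),(z1,[z2,z0,z1,z2,y2]),(z2,[z0,y1,y3,y6,z6])],.ref (nat_lit 341) k8 [(z1,[z0,z0,
    y2,z1]),(z1,[z0,z0,z1]),(z2,[z0,y1,y3,y6,z6]),(z2,[z6,y1,y9])],.ref (nat_lit 294) k6 [(z1,[z1,z0,y1]),(z1,[y6,z1,
    z6]),(z1,[z0,z0,z1]),(z1,[z0,z0,z0,z1])],.ref (nat_lit 342) k6 [(z1,[z2,z0,y1,y2]),(z2,[y6,z1,z3,z6]),(z1,[z0,z0,
    z1]),(z1,[z0,z0,z0,z1])],.ref (nat_lit 324) k8 [(z1,[z0,z0,y2,z1]),(z1,[z0,z0,z1]),(z2,[z0,y1,y3,y6,z6]),(z1,[z1,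
    z0,y1])],.ref (nat_lit 213) k2 [(z1,[y6,y1,z0,y6,z6]),(z1,[z12,z2,z0,z15,y12]),(z2,[z6,z1,z3,z6,y6]),(z1,[y9,y1,
    z0,y9,z9])],.ref (nat_lit 343) k2 [(z1,[y2,z0,z1]),(z1,[z4,z0,y2,z1]),(z1,[z1]),(z2,[y18,z1,z9])],
    .ref k103 k6 [(z1,[z1,z0,z0,y2]),(z1,[y6,z1,z0,z12]),(z1,[z0,z0,z1]),(z1,[z0,z0,z0,z1])],.ref k185 k6 [(z2,[z6,z1,
    z3,z0,y6]),(z1,[y2,z0,y1,z0,z2]),(z1,[z0,z0,z1]),(z1,[z0,z0,z0,z1])],.ref (nat_lit 294) k6 [(z2,[z1,z0,z0,y1]),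
    (z1,[y3,z1,z0,z3]),(z1,[z0,z0,z1]),(z1,[z0,z0,z0,z1])],.ref (nat_lit 324) k8 [(z1,[z0,z0,y2,z1]),(z1,[z0,z0,z1]),
    (z2,[z0,y1,y3,y6,z6]),(z2,[z1,z0,y1])],.ref (nat_lit 344) k0 [(z1,[y6,y1,y6,y12,z12]),(z1,[z0,z0,z1]),(z1,[z0,z0,
    z0,z1]),(z2,[z0,y1,y3,y6,z6])],.ref (nat_lit 344) k0 [(z2,[y6,z1,y3,y6,z6]),(z1,[z0,z0,z1]),(z1,[z0,z0,z0,z1]),
    (z2,[z0,y1,y3,y6,z6])],.ref (nat_lit 344) k0 [(z1,[y2,z1]),(z1,[z0,z0,z1]),(z1,[z0,z0,z0,z1]),(z2,[z0,y1,y3,y6,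
    z6])]],
    .lp k0 [(nat_lit 640),(nat_lit 640),(nat_lit 676),(nat_lit 646),(nat_lit 628),(nat_lit 606)] [k18,k18,k18,k18,k0,
    k0,k15,k15,k24,k24,k35,k35] k0 [[k0,k0,k32,k0,k0,k0,k106,k86,k86,k114,k0,k80],[k0,k0,k0,k0,k32,k80,k0,k0,k0,k0,k0,
    k0],[k0,k0,k0,k80,k8,k72,k62,k0,k0,k34,k0,k0],[k0,k32,k0,k0,k0,k0,k2,k0,k0,k2,k68,k0],[k80,k0,k0,k72,k0,k0,k10,k0,
    k0,k10,k0,k80],[k32,k0,k0,k8,k28,k0,k0,k0,k0,k0,k0,k32],[k0,k86,k0,k0,k0,k0,k0,k0,k0,k0,k86,k0],[k0,k106,k2,k62,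
    k0,k10,k0,k0,k28,k0,k0,k0],[k0,k114,k2,k34,k0,k10,k0,k0,k0,k0,k102,k0],[k0,k86,k0,k0,k0,k0,k28,k0,k0,k0,k86,k0],
    [k0,k80,k0,k0,k32,k80,k0,k0,k0,k0,k0,k0],[k0,k0,k68,k0,k0,k0,k0,k86,k86,k102,k0,k0]] (nat_lit 1920) k5
    [[(k8,(nat_lit 532)),(k11,(nat_lit 537)),(k6,(nat_lit 557)),(k5,(nat_lit 590)),(k10,(nat_lit 623)),(k9,
    (nat_lit 634)),(k0,(nat_lit 640)),(k1,(nat_lit 640)),(k2,(nat_lit 640)),(k4,(nat_lit 690)),(k3,(nat_lit 720)),(k7,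
    (nat_lit 723))],[(k8,(nat_lit 520)),(k9,(nat_lit 528)),(k11,(nat_lit 537)),(k10,(nat_lit 543)),(k6,(nat_lit 557)),
    (k5,(nat_lit 626)),(k0,(nat_lit 640)),(k1,(nat_lit 640)),(k2,(nat_lit 640)),(k3,(nat_lit 640)),(k4,(nat_lit 690)),
    (k7,(nat_lit 723))],[(k4,(nat_lit 578)),(k7,(nat_lit 611)),(k10,(nat_lit 623)),(k0,(nat_lit 640)),(k3,
    (nat_lit 640)),(k5,(nat_lit 658)),(k2,(nat_lit 672)),(k1,(nat_lit 720)),(k8,(nat_lit 720)),(k9,(nat_lit 720)),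
    (k11,(nat_lit 737)),(k6,(nat_lit 749))],[(k2,(nat_lit 560)),(k9,(nat_lit 572)),(k4,(nat_lit 586)),(k8,
    (nat_lit 600)),(k11,(nat_lit 625)),(k7,(nat_lit 635)),(k0,(nat_lit 640)),(k1,(nat_lit 640)),(k6,(nat_lit 645)),
    (k5,(nat_lit 658)),(k3,(nat_lit 672)),(k10,(nat_lit 691))],[(k1,(nat_lit 590)),(k0,(nat_lit 626)),(k10,
    (nat_lit 641)),(k8,(nat_lit 650)),(k9,(nat_lit 650)),(k2,(nat_lit 658)),(k3,(nat_lit 658)),(k11,(nat_lit 675)),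
    (k4,(nat_lit 684)),(k6,(nat_lit 723)),(k7,(nat_lit 733)),(k5,(nat_lit 756))],[(k10,(nat_lit 561)),(k3,
    (nat_lit 578)),(k2,(nat_lit 586)),(k11,(nat_lit 641)),(k8,(nat_lit 642)),(k9,(nat_lit 642)),(k6,(nat_lit 661)),
    (k7,(nat_lit 661)),(k5,(nat_lit 684)),(k0,(nat_lit 690)),(k1,(nat_lit 690)),(k4,(nat_lit 704))],[(k10,
    (nat_lit 594)),(k3,(nat_lit 611)),(k7,(nat_lit 618)),(k2,(nat_lit 635)),(k11,(nat_lit 636)),(k8,(nat_lit 637)),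
    (k9,(nat_lit 637)),(k6,(nat_lit 656)),(k4,(nat_lit 661)),(k0,(nat_lit 723)),(k1,(nat_lit 723)),(k5,
    (nat_lit 733))],[(k0,(nat_lit 557)),(k1,(nat_lit 557)),(k10,(nat_lit 626)),(k11,(nat_lit 626)),(k9,(nat_lit 637)),
    (k2,(nat_lit 645)),(k6,(nat_lit 646)),(k7,(nat_lit 656)),(k4,(nat_lit 661)),(k8,(nat_lit 665)),(k5,(nat_lit 723)),
    (k3,(nat_lit 749))],[(k0,(nat_lit 528)),(k2,(nat_lit 572)),(k11,(nat_lit 589)),(k8,(nat_lit 628)),(k9,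
    (nat_lit 628)),(k1,(nat_lit 634)),(k6,(nat_lit 637)),(k7,(nat_lit 637)),(k4,(nat_lit 642)),(k5,(nat_lit 650)),
    (k10,(nat_lit 703)),(k3,(nat_lit 720))],[(k0,(nat_lit 520)),(k1,(nat_lit 532)),(k2,(nat_lit 600)),(k11,
    (nat_lit 617)),(k8,(nat_lit 628)),(k9,(nat_lit 628)),(k7,(nat_lit 637)),(k4,(nat_lit 642)),(k5,(nat_lit 650)),(k6,
    (nat_lit 665)),(k10,(nat_lit 703)),(k3,(nat_lit 720))],[(k0,(nat_lit 537)),(k1,(nat_lit 537)),(k9,(nat_lit 589)),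
    (k11,(nat_lit 606)),(k8,(nat_lit 617)),(k2,(nat_lit 625)),(k6,(nat_lit 626)),(k7,(nat_lit 636)),(k4,
    (nat_lit 641)),(k5,(nat_lit 675)),(k10,(nat_lit 708)),(k3,(nat_lit 737))],[(k0,(nat_lit 543)),(k4,(nat_lit 561)),
    (k7,(nat_lit 594)),(k10,(nat_lit 606)),(k1,(nat_lit 623)),(k3,(nat_lit 623)),(k6,(nat_lit 626)),(k5,
    (nat_lit 641)),(k2,(nat_lit 691)),(k8,(nat_lit 703)),(k9,(nat_lit 703)),(k11,(nat_lit 708))]]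
    [[k2,k0,k0,k0,k1,k0],[k2,k0,k0,k0,k0,k1],[k1,k1,k1,k0,k0,k0],[k1,k1,k0,k1,k0,k0],[k1,k1,k0,k0,k1,k0],[k1,k1,k0,k0,
    k0,k1],[k1,k0,k1,k0,k1,k0],[k1,k0,k1,k0,k0,k1],[k1,k0,k1,k1,k0,k0],[k1,k0,k0,k2,k0,k0],[k1,k0,k0,k1,k1,k0],[k1,k0,
    k0,k1,k0,k1],[k1,k0,k0,k0,k2,k0],[k1,k0,k0,k0,k1,k1],[k1,k0,k0,k0,k0,k2],[k0,k3,k0,k0,k0,k0],[k0,k2,k1,k0,k0,k0],
    [k0,k2,k0,k0,k1,k0],[k0,k1,k1,k0,k1,k0],[k0,k1,k1,k0,k0,k1],[k0,k1,k0,k2,k0,k0],[k0,k1,k0,k1,k1,k0],[k0,k1,k0,k1,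
    k0,k1],[k0,k1,k0,k0,k1,k1],[k0,k0,k1,k0,k1,k1],[k0,k0,k1,k0,k0,k2],[k0,k0,k0,k2,k0,k1],[k0,k0,k0,k1,k2,k0],[k0,k0,
    k0,k1,k1,k1],[k0,k0,k0,k1,k0,k2],[k0,k0,k0,k0,k3,k0],[k0,k0,k0,k0,k1,k2]]
    [.ref k25 k0 [(z2,[z15,y3,z15,z5,z15,y15]),(z1,[y3,z1,z0,y1,y3,z3]),(z1,[z0,z0,z0,z1]),(z1,[z6,y2,z6,z2,z9,y6]),
    (z1,[y12,z3,y15,y5,y15,z15])],.ref k25 k0 [(z11,[z15,z1]),(z11,[y6,z4,z33]),(z1,[z0,z0,z0,z1]),(z11,[z12,y8,z0,z0,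
    z33]),(z11,[y24,z5,y33,y11,y33,z33])],.ref k25 k0 [(z3,[z15,y2,y15,y5]),(z3,[y6,z2,z15,z2]),(z1,[z0,z0,z0,z1]),
    (z3,[z12,y4,y12,y4,z9]),(z3,[y24,z5,z15,z5,y9,z9])],.ref k25 k0 [(z7,[z15,z2,y15,z0,y15]),(z7,[y6,z2,z27,z0,z6]),
    (z1,[z0,z0,z0,z1]),(z7,[z12,y4,y12,z0,z9]),(z7,[y24,z1,z3,y7,z3,z21])],.ref k25 k0 [(z1,[y3,z1,z0,y1,y3,z3]),(z5,
    [z6,z0,z15,z2,z6,y6]),(z1,[z0,z0,z0,z1]),(z5,[y12,z0,z0,y4,z3,z12]),(z5,[z24,y5,y15,z3,z9,y9])],.ref k25 k0 [(z4,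
    [z15,y1,y15]),(z2,[y3,z1,z9]),(z1,[z0,z0,z0,z1]),(z1,[z3,y1,y3,z0,z3]),(z1,[y6,z1,z3,y1,y3,z3])],.ref k25 k0 [(z1,
    [y5,z1,y5,z0,y5,z5]),(z1,[z2,z0,z5,z0,z2,y2]),(z1,[z0,z0,z0,z1]),(z1,[y4,z0,y4,z0,y1,z4]),(z1,[z8,y1,z5,y1,z5,
    y5])],.ref k25 k0 [(z6,[z15,z1,z0,y5]),(z3,[y3,z1,z9,z1]),(z1,[z0,z0,z0,z1]),(z3,[z6,y2,z0,y2,z9]),(z3,[y12,z1,y9,
    z1,y9,z9])],.ref k25 k0 [(z9,[z15,z4,z0,y5,y15]),(z9,[y6,z2,z27,z2,z6]),(z1,[z0,z0,z0,z1]),(z9,[z12,y4,z0,y4,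
    z15]),(z9,[y24,y1,y27,y1,y3,z27])],.ref k25 k0 [(z13,[z15,z8,z0,z0,y30]),(z13,[y6,z2,z39,z0,z12]),(z1,[z0,z0,z0,
    z1]),(z13,[z12,y4,z0,z0,z15]),(z13,[y24,y5,y39,y13,z9,z39])],.ref k25 k0 [(z1,[z15,z1,z15,z5,z0,y15]),(z1,[y6,z0,
    y3,y2,z0,z6]),(z1,[z0,z0,z0,z1]),(z1,[z12,z0,z12,z4,z3,y12]),(z1,[y24,y1,y27,y9,y3,z27])],.ref k25 k0 [(z2,[z3,z1,
    z0,z0,y3]),(z5,[y3,z1,z15,z0,z3]),(z1,[z0,z0,z0,z1]),(z5,[z6,y2,z0,z0,z9]),(z5,[y12,y1,y15,y5,y3,z15])],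
    .ref k25 k0 [(z11,[y15,z6,y30,y10,y30,z30]),(z11,[z6,z2,z45,z4,z12,y12]),(z1,[z0,z0,z0,z1]),(z11,[y12,y4,y24,y8,
    z9,z24]),(z11,[z24,y3,z15,z5,z15,y15])],.ref k25 k0 [(z2,[y15,z2,y15,y5,y15,z15]),(z1,[z3,z0,z6,z1,z3,y3]),(z1,
    [z0,z0,z0,z1]),(z1,[y6,z0,y6,y2,y3,z6]),(z1,[z12,y1,z9,z3,z9,y9])],.ref k25 k0 [(z7,[z15,z2]),(z7,[y6,z2,z21]),
    (z1,[z0,z0,z0,z1]),(z7,[z12,y4,z0,z0,z21]),(z7,[y24,z1,y21,y7,y21,z21])],.ref k25 k0 [(z2,[y5,z2,z15]),(z1,[z1]),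
    (z1,[z0,z0,z0,z1]),(z1,[y2,z0,z6,z0,z3]),(z1,[z4,y1,y15,y1,y3,z3])],.ref k25 k0 [(z4,[y15,z4,z30,z5]),(z2,[z3,z0,
    z0,y1]),(z1,[z0,z0,z0,z1]),(z1,[y3,z0,z6,z1,z3]),(z1,[z6,y1,y15,y3,y3,z3])],.ref k25 k0 [(z12,[y15,z7,z15,y5,y15,
    z15]),(z6,[z3,z1,z15,z1,z3,y3]),(z1,[z0,z0,z0,z1]),(z3,[y3,y1,z3,y1,z6,z3]),(z3,[z6,y1,y15,y1,y3,z3])],
    .ref k25 k0 [(z2,[y3,z1,z0,z0,y3,z3]),(z5,[z3,z1,z15,z0,z3,y3]),(z1,[z0,z0,z0,z1]),(z5,[y6,y2,z0,z0,z9,z6]),(z5,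
    [z12,y1,y15,y5,y3,z3])],.ref k25 k0 [(z1,[y15,z1,z15,z5]),(z1,[z6,z0,y3,y2]),(z1,[z0,z0,z0,z1]),(z1,[y12,z0,z12,
    z4,z3]),(z1,[z24,y1,y27,y9,y3,z3])],.ref k25 k0 [(z2,[z5,z2,y5,z0,y10]),(z1,[y1,z0,z4,z0,z2]),(z1,[z0,z0,z0,z1]),
    (z1,[z2,z0,y2,z0,y1]),(z1,[y4,y1,z1,y1,z5,z3])],.ref k25 k0 [(z6,[y15,z1,z0,y5,z0,z15]),(z3,[z3,z1,z9,z1,z0,y3]),
    (z1,[z0,z0,z0,z1]),(z3,[y6,y2,z0,y2,z9,z6]),(z3,[z12,z1,y9,z1,y9,y3])],.ref k25 k0 [(z1,[z5,z1,y5,z0,y5]),(z1,[y2,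
    z0,z5,z0,z2]),(z1,[z0,z0,z0,z1]),(z1,[z4,z0,y4,z0,y1]),(z1,[y8,y1,z5,y1,z5,z3])],.ref k25 k0 [(z9,[y15,z4,z0,y5,
    y15,z15]),(z9,[z6,z2,z27,z2,z6,y6]),(z1,[z0,z0,z0,z1]),(z9,[y12,y4,z0,y4,z15,z12]),(z9,[z24,y1,y27,y1,y3,z3])],
    .ref k25 k0 [(z7,[y15,z2,y15,z0,y15,z15]),(z7,[z6,z2,z27,z0,z6,y6]),(z1,[z0,z0,z0,z1]),(z7,[y12,y4,y12,z0,z9,
    z12]),(z7,[z24,z1,z3,y7,z3,y3])],.ref k25 k0 [(z2,[z15,z2,z0,y5]),(z1,[y3,z0,z3,z1]),(z1,[z0,z0,z0,z1]),(z1,[z6,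
    z0,z0,y2,z3]),(z1,[y12,y1,y3,z3,y3,z3])],.ref k25 k0 [(z3,[z5,z3,z0,z0,y10]),(z3,[y2,z0,z9,z0,z4]),(z1,[z0,z0,z0,
    z1]),(z3,[z4,z0,z0,z0,z1]),(z3,[y8,y3,y9,y3,z7,z9])],.ref k25 k0 [(z12,[y15,z2,y30,y10,y15,z30]),(z6,[z3,z2,z24,
    z2,z3,y6]),(z1,[z0,z0,z0,z1]),(z3,[y3,y2,y6,y2,z6,z6]),(z3,[z6,z1,z3,z1,y3,y3])],.ref k25 k0 [(z3,[y15,y2,y15,y5,
    z0,z15]),(z3,[z6,z2,z15,z2,z0,y6]),(z1,[z0,z0,z0,z1]),(z3,[y12,y4,y12,y4,z9,z12]),(z3,[z24,z5,z15,z5,y9,y15])],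
    .ref k25 k0 [(z2,[z5,z2,z0,z0,y5]),(z1,[y1,z0,z3,z0,z1]),(z1,[z0,z0,z0,z1]),(z1,[z2,z0,z0,z0,z1]),(z1,[y4,y1,y3,
    y1,z1,z3])],.ref k25 k0 [(z8,[y5,z3,y15,y5,y15,z15]),(z4,[z1,z1,z15,z1,z3,y3]),(z1,[z0,z0,z0,z1]),(z2,[y1,y1,y3,
    y1,z3,z3]),(z1,[z1])],.ref k25 k0 [(z6,[y15,z1,y15,y5,y15,z15]),(z3,[z3,z1,z12,z1,z3,y3]),(z1,[z0,z0,z0,z1]),(z3,
    [y6,y2,y6,y2,z3,z6]),(z3,[z12,z1,z3,z1,z3,y3])]],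
    .base (.leafM k0 [k1,k2,k3,k4,k5,k0] [(z1,[y1,y1,z0,z0,z1])] [])]

theorem hB6_171_28 : blkB [0, 0, 0, 0, 0, 0] [] sp6 hS6_171 (pcls (n := 6) [0, 0, 0, 0, 0, 0]) hD6_171 560 28 hN6_171_28 = true := by
  decide +kernel

end Pool.Agent.Lib_MP_fa6e45
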