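import Pool.Agent.Lib_MP_fa6e45.HK

/-!
MP_fa6e45_co, stage 4: certificates (captain, generated by a program).
-/

namespace Pool.Agent.Lib_MP_fa6e45

/-- nodes 348 to 359 -/
noncomputable def hN6_171_29 : List HM :=
  [.base (.leafM k3 [k5,k0,k1,k2,k3,k4] [(z3,[z1,z0,z1,z1])] []),
    .lp k0 [k152,k140,k170,k188,k178,k124] [k10,k26,k26,k22,k12,k6,k0,k0,k5,k5,k32,k32] k0 [[k0,k0,k0,k0,k0,k0,k0,k2,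
    k26,k0,k0,k2],[k14,k0,k0,k10,k0,k0,k0,k0,k0,k0,k0,k14],[k10,k0,k0,k6,k0,k0,k0,k2,k0,k0,k0,k10],[k0,k0,k0,k0,k0,k0,
    k0,k6,k30,k0,k0,k2],[k0,k0,k0,k0,k0,k0,k0,k0,k0,k40,k18,k2],[k0,k0,k0,k0,k0,k0,k10,k0,k0,k0,k0,k0],[k0,k2,k6,k2,
    k0,k0,k0,k0,k0,k0,k0,k0],[k0,k0,k0,k0,k10,k0,k0,k0,k0,k0,k28,k0],[k0,k0,k0,k0,k0,k40,k0,k0,k0,k0,k26,k0],[k0,k26,
    k30,k0,k0,k0,k0,k0,k0,k0,k0,k0],[k14,k2,k2,k10,k0,k2,k0,k0,k0,k0,k0,k0],[k0,k0,k0,k0,k0,k18,k28,k0,k0,k26,k4,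
    k0]] (nat_lit 480) k5
    [[(k9,k129),(k10,k130),(k11,k130),(k8,k131),(k1,k132),(k4,k132),(k2,k138),(k3,k142),(k6,k162),(k7,k164),(k0,k166),
    (k5,k166)],[(k11,k120),(k10,k144),(k2,k152),(k3,k156),(k1,k166),(k4,k166),(k8,k173),(k9,k173),(k6,k176),(k7,k178),
    (k0,k182),(k5,k182)],[(k10,k120),(k2,k130),(k3,k130),(k11,k134),(k1,k142),(k4,k154),(k0,k156),(k5,k160),(k9,k163),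
    (k6,k166),(k7,k166),(k8,k187)],[(k10,k120),(k2,k130),(k3,k130),(k11,k130),(k1,k138),(k4,k150),(k0,k152),(k5,k156),
    (k6,k160),(k7,k162),(k9,k163),(k8,k187)],[(k11,k120),(k10,k148),(k2,k156),(k3,k160),(k1,k166),(k4,k170),(k6,k176),
    (k8,k177),(k9,k179),(k0,k182),(k5,k182),(k7,k182)],[(k8,k131),(k1,k132),(k10,k142),(k11,k144),(k2,k150),(k3,k154),
    (k4,k164),(k0,k166),(k5,k170),(k9,k171),(k7,k176),(k6,k186)],[(k2,k162),(k1,k164),(k3,k166),(k9,k173),(k10,k174),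
    (k4,k176),(k0,k178),(k5,k182),(k8,k183),(k6,k188),(k7,k188),(k11,k196)],[(k11,k156),(k2,k160),(k1,k162),(k3,k166),
    (k0,k176),(k5,k176),(k8,k183),(k9,k183),(k10,k184),(k4,k186),(k6,k188),(k7,k188)],[(k1,k129),(k10,k151),(k11,
    k151),(k2,k163),(k3,k163),(k4,k171),(k0,k173),(k7,k173),(k8,k178),(k9,k178),(k5,k179),(k6,k183)],[(k1,k131),(k4,
    k131),(k10,k151),(k11,k151),(k0,k173),(k5,k177),(k8,k178),(k9,k178),(k6,k183),(k7,k183),(k2,k187),(k3,k187)],[(k0,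
    k120),(k5,k120),(k11,k124),(k1,k130),(k2,k130),(k3,k134),(k4,k144),(k10,k150),(k8,k151),(k9,k151),(k6,k156),(k7,
    k196)],[(k2,k120),(k3,k120),(k10,k128),(k1,k130),(k4,k142),(k0,k144),(k5,k148),(k11,k150),(k8,k151),(k9,k151),(k7,
    k174),(k6,k184)]]
    [[k2,k1,k0,k0,k0,k0],[k2,k0,k0,k0,k1,k0],[k2,k0,k0,k0,k0,k1],[k1,k2,k0,k0,k0,k0],[k1,k1,k1,k0,k0,k0],[k1,k1,k0,k0,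
    k1,k0],[k1,k1,k0,k0,k0,k1],[k1,k0,k1,k0,k0,k1],[k1,k0,k1,k0,k1,k0],[k1,k0,k0,k1,k0,k1],[k1,k0,k0,k0,k1,k1],[k1,k0,
    k0,k0,k0,k2],[k0,k3,k0,k0,k0,k0],[k0,k2,k1,k0,k0,k0],[k0,k2,k0,k1,k0,k0],[k0,k2,k0,k0,k0,k1],[k0,k1,k1,k0,k0,k1],
    [k0,k1,k1,k0,k1,k0],[k0,k1,k0,k1,k0,k1],[k0,k1,k0,k0,k1,k1],[k0,k1,k0,k0,k0,k2],[k0,k0,k2,k0,k0,k1],[k0,k0,k1,k0,
    k1,k1],[k0,k0,k1,k0,k0,k2],[k0,k0,k0,k0,k1,k2],[k0,k0,k0,k0,k0,k3]]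
    [.ref k25 k0 [(z14,[z15,z4,y15]),(z7,[z6,y4,z15]),(z1,[z0,z0,z0,z1]),(z7,[y3,z2,z3,z0,z21]),(z7,[y12,z1,y9,y7,y21,
    z21])],.ref k25 k0 [(z2,[z15,y3,z15,z5,z15,y15]),(z1,[z6,y2,z9,z2,z6,y6]),(z1,[z0,z0,z0,z1]),(z1,[y3,z1,y3,y1,z0,
    z3]),(z1,[y12,z3,y15,y5,y15,z15])],.ref k25 k0 [(z11,[z15,z1]),(z11,[z12,y8,z33]),(z1,[z0,z0,z0,z1]),(z11,[y6,z4,
    z0,z0,z33]),(z11,[y24,z5,y33,y11,y33,z33])],.ref k25 k0 [(z13,[z15,z8,y30]),(z13,[z12,y4,z15]),(z1,[z0,z0,z0,z1]),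
    (z13,[y6,z2,z12,z0,z39]),(z13,[y24,y5,z9,y13,y39,z39])],.ref k25 k0 [(z9,[z15,z4,y15,y5]),(z9,[z12,y4,z15,y4]),
    (z1,[z0,z0,z0,z1]),(z9,[y6,z2,z6,z2,z27]),(z9,[y24,y1,y3,y1,y27,z27])],.ref k25 k0 [(z1,[z15,z1,z0,z5,z15,y15]),
    (z1,[z12,z0,z3,z4,z12,y12]),(z1,[z0,z0,z0,z1]),(z1,[y6,z0,z0,y2,y3,z6]),(z1,[y24,y1,y3,y9,y27,z27])],
    .ref k25 k0 [(z2,[z3,z1,y3]),(z5,[z6,y2,z9]),(z1,[z0,z0,z0,z1]),(z5,[y3,z1,z3,z0,z15]),(z5,[y12,y1,y3,y5,y15,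
    z15])],.ref k25 k0 [(z6,[z15,z1,z0,y5]),(z3,[z6,y2,z9,y2]),(z1,[z0,z0,z0,z1]),(z3,[y3,z1,z0,z1,z9]),(z3,[y12,z1,
    y9,z1,y9,z9])],.ref k25 k0 [(z1,[y5,z1,y5,z0,y5,z5]),(z1,[y4,z0,y1,z0,y4,z4]),(z1,[z0,z0,z0,z1]),(z1,[z2,z0,z2,z0,
    z5,y2]),(z1,[z8,y1,z5,y1,z5,y5])],.ref k25 k0 [(z4,[z15,y1,z0,z0,y15]),(z1,[z3,y1,z3,z0,y3]),(z1,[z0,z0,z0,z1]),
    (z2,[y3,z1,z0,z0,z9]),(z1,[y6,z1,y3,y1,z3,z3])],.ref k25 k0 [(z2,[y15,z2,y15,y5,y15,z15]),(z1,[y6,z0,y3,y2,y6,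
    z6]),(z1,[z0,z0,z0,z1]),(z1,[z3,z0,z3,z1,z6,y3]),(z1,[z12,y1,z9,z3,z9,y9])],.ref k25 k0 [(z7,[z15,z2]),(z7,[z12,
    y4,z21]),(z1,[z0,z0,z0,z1]),(z7,[y6,z2,z0,z0,z21]),(z7,[y24,z1,y21,y7,y21,z21])],.ref k25 k0 [(z4,[z5,z4,y15]),
    (z1,[z1]),(z1,[z0,z0,z0,z1]),(z2,[y1,z0,z3,z0,z6]),(z1,[y2,y1,z3,y1,y3,z3])],.ref k25 k0 [(z8,[z15,z8,y30,y5]),
    (z2,[z3,z0,z0,y1]),(z1,[z0,z0,z0,z1]),(z4,[y3,z0,z6,z1,z12]),(z1,[y3,y1,z3,z0,y3,z3])],.ref k25 k0 [(z2,[z5,z2,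
    y10,z0,y5]),(z1,[z2,z0,y1,z0,y2]),(z1,[z0,z0,z0,z1]),(z1,[y1,z0,z2,z0,z4]),(z1,[y4,y1,z5,y1,z1,z3])],
    .ref k25 k0 [(z3,[z5,z3,y10]),(z3,[z4,z0,z1]),(z1,[z0,z0,z0,z1]),(z3,[y2,z0,z4,z0,z9]),(z3,[y8,y3,z7,y3,y9,z9])],
    .ref k25 k0 [(z1,[z3,z1,y3,y1]),(z5,[z12,z0,z3,y4]),(z1,[z0,z0,z0,z1]),(z5,[y6,z0,z6,z2,z15]),(z5,[y24,y5,z9,z3,
    y15,z15])],.ref k25 k0 [(z4,[y15,y1,z0,z0,y15,z15]),(z1,[y3,y1,z3,z0,y3,z3]),(z1,[z0,z0,z0,z1]),(z2,[z3,z1,z0,z0,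
    z9,y3]),(z1,[z6,z1,y3,y1,z3,y3])],.ref k25 k0 [(z1,[z5,z1,y5,z0,y5]),(z1,[z4,z0,y1,z0,y4]),(z1,[z0,z0,z0,z1]),(z1,
    [y2,z0,z2,z0,z5]),(z1,[y8,y1,z5,y1,z5,z3])],.ref k25 k0 [(z3,[y15,y2,z0,y5,y15,z15]),(z3,[y12,y4,z9,y4,y12,z12]),
    (z1,[z0,z0,z0,z1]),(z3,[z6,z2,z0,z2,z15,y6]),(z3,[z24,z5,y9,z5,z15,y15])],.ref k25 k0 [(z2,[z5,z2,y5]),(z1,[z2,z0,
    z1]),(z1,[z0,z0,z0,z1]),(z1,[y1,z0,z1,z0,z3]),(z1,[y4,y1,z1,y1,y3,z3])],.ref k25 k0 [(z1,[z15,z1,z0,y10]),(z1,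
    [z12,z0,z3,y8]),(z1,[z0,z0,z0,z1]),(z1,[y6,z0,z0,z4,z3]),(z1,[y24,y1,y3,z15,y3,z3])],.ref k25 k0 [(z7,[y15,z2,y15,
    z0,y15,z15]),(z7,[y12,y4,z9,z0,y12,z12]),(z1,[z0,z0,z0,z1]),(z7,[z6,z2,z6,z0,z27,y6]),(z7,[z24,z1,z3,y7,z3,y3])],
    .ref k25 k0 [(z2,[z15,z2,z0,y5]),(z1,[z6,z0,z3,y2]),(z1,[z0,z0,z0,z1]),(z1,[y3,z0,z0,z1,z3]),(z1,[y12,y1,y3,z3,y3,
    z3])],.ref k25 k0 [(z6,[y15,z1,y15,y5,y15,z15]),(z3,[y6,y2,z3,y2,y6,z6]),(z1,[z0,z0,z0,z1]),(z3,[z3,z1,z3,z1,z12,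
    y3]),(z3,[z12,z1,z3,z1,z3,y3])],.ref k25 k0 [(z1,[z5,z1]),(z1,[z4,z0,z3]),(z1,[z0,z0,z0,z1]),(z1,[y2,z0,z0,z0,
    z3]),(z1,[y8,y1,y3,y1,y3,z3])]],
    .base (.leafM k0 [k2,k3,k4,k5,k0,k1] [(z3,[y1,y3,y1,z0,z3])] []),
    .lp k0 [k172,k184,k184,k166,k164,k158] [k9,k3,k0,k0,k0,k0,k9,k9,k10,k10,k16,k10] k0 [[k0,k0,k4,k2,k0,k0,k0,k0,k6,
    k16,k0,k12],[k0,k0,k0,k0,k4,k0,k10,k0,k0,k0,k0,k0],[k0,k2,k0,k2,k0,k0,k0,k18,k0,k2,k0,k0],[k0,k4,k0,k0,k0,k0,k0,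
    k14,k0,k0,k16,k0],[k0,k0,k0,k0,k0,k4,k14,k0,k0,k0,k0,k12],[k4,k0,k0,k0,k0,k0,k10,k0,k4,k0,k0,k8],[k0,k0,k14,k18,
    k0,k0,k0,k0,k36,k36,k0,k0],[k10,k0,k0,k0,k10,k14,k0,k0,k0,k0,k0,k6],[k0,k16,k0,k2,k0,k0,k0,k36,k0,k0,k42,k0],[k0,
    k6,k0,k0,k4,k0,k0,k36,k0,k0,k42,k0],[k0,k12,k0,k0,k8,k12,k6,k0,k0,k0,k0,k0],[k0,k0,k16,k0,k0,k0,k0,k0,k42,k42,k0,
    k0]] (nat_lit 516) k5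
    [[(k8,k129),(k11,k129),(k5,k165),(k10,k165),(k9,k171),(k0,k172),(k1,k178),(k6,k178),(k2,k181),(k7,k184),(k4,k189),
    (k3,k193)],[(k10,k147),(k8,k149),(k11,k159),(k9,k165),(k0,k166),(k7,k166),(k5,k171),(k1,k172),(k2,k173),(k3,k175),
    (k6,k176),(k4,k179)],[(k9,k164),(k10,k168),(k7,k171),(k0,k175),(k6,k175),(k8,k180),(k3,k184),(k4,k184),(k5,k186),
    (k2,k188),(k11,k190),(k1,k193)],[(k6,k157),(k8,k172),(k0,k173),(k11,k174),(k7,k175),(k1,k181),(k2,k182),(k4,k184),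
    (k5,k184),(k10,k184),(k3,k188),(k9,k188)],[(k6,k161),(k1,k165),(k10,k168),(k0,k171),(k8,k174),(k7,k175),(k11,
    k176),(k2,k184),(k4,k184),(k3,k186),(k5,k186),(k9,k192)],[(k10,k156),(k9,k160),(k11,k174),(k7,k175),(k8,k178),(k0,
    k179),(k4,k180),(k2,k184),(k3,k184),(k5,k184),(k6,k185),(k1,k189)],[(k10,k151),(k9,k155),(k11,k161),(k8,k165),(k0,
    k166),(k7,k170),(k3,k171),(k2,k175),(k4,k175),(k5,k175),(k6,k180),(k1,k184)],[(k8,k129),(k11,k129),(k2,k157),(k10,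
    k159),(k5,k161),(k9,k165),(k6,k166),(k3,k175),(k0,k176),(k1,k178),(k7,k180),(k4,k185)],[(k10,k152),(k7,k155),(k4,
    k160),(k3,k164),(k9,k164),(k0,k165),(k6,k165),(k1,k171),(k2,k188),(k5,k192),(k8,(nat_lit 200)),(k11,
    (nat_lit 200))],[(k1,k129),(k6,k129),(k0,k149),(k8,k164),(k11,k164),(k7,k165),(k2,k172),(k5,k174),(k4,k178),(k3,
    k180),(k9,(nat_lit 200)),(k10,(nat_lit 200))],[(k1,k129),(k6,k129),(k0,k159),(k7,k161),(k8,k164),(k11,k164),(k2,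
    k174),(k4,k174),(k5,k176),(k3,k190),(k9,(nat_lit 200)),(k10,(nat_lit 200))],[(k0,k147),(k7,k151),(k9,k152),(k10,
    k152),(k4,k156),(k6,k159),(k1,k165),(k3,k168),(k5,k168),(k2,k184),(k8,(nat_lit 200)),(k11,(nat_lit 200))]]
    [[k2,k0,k0,k0,k1,k0],[k2,k0,k0,k0,k0,k1],[k1,k1,k0,k0,k1,k0],[k1,k1,k0,k0,k0,k1],[k1,k0,k1,k0,k0,k1],[k1,k0,k1,k0,
    k1,k0],[k1,k0,k0,k1,k1,k0],[k1,k0,k0,k1,k0,k1],[k1,k0,k0,k0,k2,k0],[k1,k0,k0,k0,k1,k1],[k1,k0,k0,k0,k0,k2],[k0,k1,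
    k0,k2,k0,k0],[k0,k1,k0,k1,k1,k0],[k0,k1,k0,k1,k0,k1],[k0,k1,k0,k0,k1,k1],[k0,k0,k1,k1,k1,k0],[k0,k0,k1,k1,k0,k1],
    [k0,k0,k1,k0,k1,k1],[k0,k0,k1,k0,k0,k2],[k0,k0,k0,k2,k1,k0],[k0,k0,k0,k2,k0,k1],[k0,k0,k0,k1,k2,k0],[k0,k0,k0,k1,
    k1,k1],[k0,k0,k0,k1,k0,k2]]
    [.ref k25 k0 [(z3,[z4,z1]),(z1,[z0,z0,z1]),(z3,[y2,z4,z0,z9]),(z1,[y1,z2,z0,z0,z1]),(z3,[z1,y2])],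
    .ref k25 k0 [(z2,[z3,z3,z1,z3,z1,y3]),(z1,[z0,z0,z1]),(z4,[y3,z3,y1,z9,y1,z3]),(z8,[y9,z9,y3,y9,z5,z9]),(z8,[z3,
    y3,z1,z3,z1,y3])],.ref k25 k0 [(z5,[z12,z3,y4]),(z1,[z0,z0,z1]),(z5,[y6,z6,z2,z15]),(z5,[y9,z9,z3,z0,z5]),(z5,[z3,
    y3,y1])],.ref k25 k0 [(z1,[z3,z3,z0,z3,z1,y3]),(z1,[z0,z0,z1]),(z2,[y3,z0,z0,z3,y1,z3]),(z4,[y9,z0,z0,y9,z1,z9]),
    (z4,[z3,z0,z0,z3,z1,y3])],.ref k25 k0 [(z1,[z6,z3,z2,z0,z2,y6]),(z1,[z0,z0,z1]),(z1,[y3,z0,y1,z3,y1,z3]),(z2,[y9,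
    z0,y3,z0,y1,z9]),(z2,[z3,z0,z1,z0,z1,y3])],.ref k25 k0 [(z1,[z4,y1,z0,y4]),(z1,[z0,z0,z1]),(z1,[y2,z2,z0,z5]),(z1,
    [y3,z3,z0,z3,z1]),(z1,[z1,y1,z0,y1])],.ref k25 k0 [(z1,[z6,y3,z0,z0,y2]),(z1,[z0,z0,z1]),(z1,[y3,z3,z0,z3,z1]),
    (z2,[y9,z9,z0,z0,z5]),(z2,[z3,y3,z0,z0,y1])],.ref k25 k0 [(z1,[z12,z3,z4,z12,z0,y12]),(z1,[z0,z0,z1]),(z1,[y6,z0,
    y2,y3,z0,z6]),(z1,[y9,z0,y3,y9,z1,z9]),(z1,[z3,z0,z1,z3,z0,y3])],.ref k25 k0 [(z1,[z2,z1]),(z1,[z0,z0,z1]),(z1,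
    [y1,z1,z0,z3]),(z2,[y3,z3,z0,z0,z2]),(z2,[z1,y1])],.ref k25 k0 [(z5,[z12,z15,z4,z12,z4,y12]),(z1,[z0,z0,z1]),(z5,
    [y6,z0,y2,z9,y2,z6]),(z5,[y9,z0,y3,y9,z2,z9]),(z5,[z3,z0,z1,z3,z1,y3])],.ref k25 k0 [(z1,[z3,z6,z2,z6,z2,y6]),(z1,
    [z0,z0,z1]),(z2,[y3,y3,y2,z0,y2,z6]),(z4,[y9,y9,y6,y18,y2,z18]),(z4,[z3,z3,z2,z6,z2,y6])],.ref k25 k0 [(z3,[y6,z9,
    z2,z0,z4]),(z1,[z0,z0,z1]),(z3,[z3,z0,y1,z9,y2]),(z2,[z3,z0,y1]),(z6,[y3,z0,z1,z0,z2])],.ref k25 k0 [(z1,[y6,z3,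
    z2,z0,z2]),(z1,[z0,z0,z1]),(z1,[z3,z0,y1,z3,y1]),(z2,[z9,z0,y3,z0,y1]),(z2,[y3,z0,z1,z0,z1])],.ref k25 k0 [(z1,
    [y4,y1,z0,y4,z0,z4]),(z1,[z0,z0,z1]),(z1,[z2,z2,z0,z5,z0,y2]),(z1,[z3,z3,z0,z3,z1,y3]),(z1,[y1,y1,z0,y1,z0,z1])],
    .ref k25 k0 [(z1,[z12,z15,z0,z12,z4,y12]),(z1,[z0,z0,z1]),(z1,[y6,y6,z0,y3,y2,z6]),(z1,[y9,y9,z0,y9,y2,z9]),(z1,
    [z3,z3,z0,z3,z1,y3])],.ref k25 k0 [(z1,[y3,z3,z0,z3,z1]),(z1,[z0,z0,z1]),(z2,[z3,z0,z0,z3,y1]),(z4,[z9,z0,z0,y9,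
    z1]),(z4,[y3,z0,z0,z3,z1])],.ref k25 k0 [(z5,[y12,z3,y4,z0,z0,z12]),(z1,[z0,z0,z1]),(z5,[z6,z6,z2,z15,z0,y6]),(z5,
    [z9,z9,z3,z0,z5,y9]),(z5,[y3,y3,y1,z0,z0,z3])],.ref k25 k0 [(z1,[y12,y9,y4,z0,y4,z12]),(z1,[z0,z0,z1]),(z1,[z6,z6,
    z2,z3,z2,y6]),(z1,[z9,z9,z3,z0,z4,y9]),(z1,[y3,y3,y1,z0,y1,z3])],.ref k25 k0 [(z1,[y6,y9,y4,y6,y4,z12]),(z1,[z0,
    z0,z1]),(z1,[z3,z6,z2,z6,z2,y6]),(z2,[z9,z18,z6,z9,z8,y18]),(z2,[y3,y6,y2,y3,y2,z6])],.ref k25 k0 [(z5,[y12,z15,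
    z0,z0,z8]),(z1,[z0,z0,z1]),(z5,[z6,z0,z0,z15,y4]),(z5,[z9,z0,z0,z0,y1]),(z5,[y3,z0,z0,z0,z2])],.ref k25 k0 [(z3,
    [y6,z3,y2,y6,z2,z6]),(z1,[z0,z0,z1]),(z3,[z3,z3,z1,z12,y1,y3]),(z2,[z3,z3,z1,z3,z1,y3]),(z6,[y3,y3,y1,y3,z1,z3])],
    .ref k25 k0 [(z1,[y12,z3,z0,z0,z4]),(z1,[z0,z0,z1]),(z1,[z6,z0,z0,z3,y2]),(z1,[z9,z0,z0,z0,y2]),(z1,[y3,z0,z0,z0,
    z1])],.ref k25 k0 [(z1,[y6,y3,y2,y6,z0,z6]),(z1,[z0,z0,z1]),(z1,[z3,z3,z1,z6,z0,y3]),(z2,[z9,z9,z3,z9,z2,y9]),(z2,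
    [y3,y3,y1,y3,z0,z3])],.ref k25 k0 [(z3,[y12,y15,y8,y24,y4,z24]),(z1,[z0,z0,z1]),(z3,[z6,z12,z4,z21,z2,y12]),(z1,
    [z3,z6,z2,z6,z2,y6]),(z3,[y3,y6,y2,y6,y1,z6])]],
    .base (.leafM k3 [k1,k2,k3,k4,k5,k0] [(z2,[y1,y1,z0,y2,z2])] []),
    .base (.leafM k3 [k0,k1,k2,k3,k4,k5] [(z1,[y1,z0,y1,z0,z1])] []),
    .base (.leafM k3 [k1,k2,k3,k4,k5,k0] [(z3,[y3,y1,z0,y1,z3])] []),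
    .lp k0 [(nat_lit 470),(nat_lit 428),(nat_lit 506),(nat_lit 518),(nat_lit 506),(nat_lit 440)] [k24,k24,k45,k45,k6,
    k6,k0,k0,k6,k6,k39,k39] k0 [[k0,k0,k0,k0,k12,k12,k24,k0,k0,k0,k0,k12],[k6,k0,k0,k6,k0,k0,k0,k0,k18,k0,k0,k24],[k6,
    k0,k0,k6,k0,k0,k0,k0,k18,k0,k0,k24],[k0,k0,k0,k0,k12,k12,k24,k0,k0,k0,k0,k12],[k0,k12,k12,k0,k0,k0,k0,k0,k0,k42,
    k36,k0],[k0,k12,k12,k0,k0,k0,k0,k0,k0,k12,k0,k0],[k0,k0,k0,k0,k0,k0,k0,k0,k0,k0,k0,k0],[k0,k24,k24,k0,k0,k0,k0,k0,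
    k0,k0,k6,k12],[k0,k0,k0,k0,k12,k42,k0,k0,k0,k0,k6,k0],[k18,k0,k0,k18,k0,k0,k0,k0,k0,k0,k0,k0],[k24,k12,k12,k24,k0,
    k0,k12,k0,k0,k0,k0,k0],[k0,k0,k0,k0,k0,k36,k6,k0,k0,k6,k0,k0]] (nat_lit 1440) k5
    [[(k4,(nat_lit 452)),(k10,(nat_lit 455)),(k11,(nat_lit 455)),(k2,(nat_lit 461)),(k3,(nat_lit 461)),(k1,
    (nat_lit 470)),(k8,(nat_lit 482)),(k9,(nat_lit 482)),(k0,(nat_lit 494)),(k7,(nat_lit 494)),(k6,(nat_lit 506)),(k5,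
    (nat_lit 512))],[(k10,(nat_lit 443)),(k2,(nat_lit 449)),(k3,(nat_lit 449)),(k11,(nat_lit 455)),(k9,(nat_lit 464)),
    (k0,(nat_lit 476)),(k4,(nat_lit 476)),(k7,(nat_lit 482)),(k1,(nat_lit 494)),(k5,(nat_lit 494)),(k6,(nat_lit 494)),
    (k8,(nat_lit 506))],[(k10,(nat_lit 410)),(k11,(nat_lit 416)),(k2,(nat_lit 422)),(k3,(nat_lit 422)),(k0,
    (nat_lit 449)),(k1,(nat_lit 461)),(k5,(nat_lit 467)),(k8,(nat_lit 467)),(k9,(nat_lit 467)),(k4,(nat_lit 479)),(k7,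
    (nat_lit 485)),(k6,(nat_lit 497))],[(k10,(nat_lit 410)),(k11,(nat_lit 416)),(k2,(nat_lit 422)),(k3,(nat_lit 422)),
    (k0,(nat_lit 449)),(k1,(nat_lit 461)),(k5,(nat_lit 467)),(k8,(nat_lit 467)),(k9,(nat_lit 467)),(k4,(nat_lit 479)),
    (k7,(nat_lit 485)),(k6,(nat_lit 497))],[(k10,(nat_lit 461)),(k2,(nat_lit 467)),(k3,(nat_lit 467)),(k11,
    (nat_lit 473)),(k9,(nat_lit 482)),(k0,(nat_lit 494)),(k4,(nat_lit 494)),(k7,(nat_lit 500)),(k1,(nat_lit 512)),(k5,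
    (nat_lit 512)),(k6,(nat_lit 512)),(k8,(nat_lit 524))],[(k1,(nat_lit 452)),(k8,(nat_lit 464)),(k10,(nat_lit 473)),
    (k0,(nat_lit 476)),(k2,(nat_lit 479)),(k3,(nat_lit 479)),(k11,(nat_lit 485)),(k5,(nat_lit 494)),(k4,
    (nat_lit 506)),(k9,(nat_lit 506)),(k6,(nat_lit 512)),(k7,(nat_lit 512))],[(k0,(nat_lit 482)),(k2,(nat_lit 485)),
    (k3,(nat_lit 485)),(k1,(nat_lit 494)),(k5,(nat_lit 500)),(k8,(nat_lit 500)),(k4,(nat_lit 512)),(k9,(nat_lit 512)),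
    (k10,(nat_lit 515)),(k6,(nat_lit 518)),(k7,(nat_lit 518)),(k11,(nat_lit 521))],[(k11,(nat_lit 479)),(k10,
    (nat_lit 485)),(k0,(nat_lit 494)),(k2,(nat_lit 497)),(k3,(nat_lit 497)),(k1,(nat_lit 506)),(k4,(nat_lit 512)),(k5,
    (nat_lit 512)),(k8,(nat_lit 512)),(k9,(nat_lit 512)),(k6,(nat_lit 518)),(k7,(nat_lit 518))],[(k10,(nat_lit 461)),
    (k0,(nat_lit 464)),(k2,(nat_lit 467)),(k3,(nat_lit 467)),(k11,(nat_lit 473)),(k1,(nat_lit 482)),(k5,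
    (nat_lit 482)),(k4,(nat_lit 506)),(k8,(nat_lit 506)),(k9,(nat_lit 506)),(k6,(nat_lit 512)),(k7,(nat_lit 512))],
    [(k4,(nat_lit 464)),(k2,(nat_lit 467)),(k3,(nat_lit 467)),(k10,(nat_lit 473)),(k11,(nat_lit 473)),(k1,
    (nat_lit 482)),(k7,(nat_lit 500)),(k0,(nat_lit 506)),(k8,(nat_lit 506)),(k9,(nat_lit 506)),(k6,(nat_lit 512)),(k5,
    (nat_lit 524))],[(k2,(nat_lit 416)),(k3,(nat_lit 416)),(k11,(nat_lit 440)),(k10,(nat_lit 446)),(k0,(nat_lit 455)),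
    (k1,(nat_lit 455)),(k5,(nat_lit 473)),(k8,(nat_lit 473)),(k9,(nat_lit 473)),(k6,(nat_lit 479)),(k4,(nat_lit 485)),
    (k7,(nat_lit 521))],[(k2,(nat_lit 410)),(k3,(nat_lit 410)),(k10,(nat_lit 440)),(k0,(nat_lit 443)),(k11,
    (nat_lit 446)),(k1,(nat_lit 455)),(k5,(nat_lit 461)),(k9,(nat_lit 461)),(k4,(nat_lit 473)),(k8,(nat_lit 473)),(k6,
    (nat_lit 485)),(k7,(nat_lit 515))]]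
    [[k2,k1,k0,k0,k0,k0],[k2,k0,k0,k0,k0,k1],[k1,k2,k0,k0,k0,k0],[k1,k1,k1,k0,k0,k0],[k1,k1,k0,k0,k1,k0],[k1,k1,k0,k0,
    k0,k1],[k1,k0,k1,k0,k0,k1],[k1,k0,k0,k1,k0,k1],[k1,k0,k0,k0,k1,k1],[k1,k0,k0,k0,k0,k2],[k0,k3,k0,k0,k0,k0],[k0,k2,
    k1,k0,k0,k0],[k0,k2,k0,k1,k0,k0],[k0,k2,k0,k0,k1,k0],[k0,k2,k0,k0,k0,k1],[k0,k1,k1,k0,k1,k0],[k0,k1,k1,k0,k0,k1],
    [k0,k1,k0,k1,k0,k1],[k0,k1,k0,k0,k1,k1],[k0,k1,k0,k0,k0,k2],[k0,k0,k1,k0,k1,k1],[k0,k0,k1,k0,k0,k2],[k0,k0,k0,k0,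
    k1,k2],[k0,k0,k0,k0,k0,k3]]
    [.ref k25 k0 [(z10,[z9,z4,y9]),(z5,[z6,y4,z9]),(z1,[z0,z0,z0,z1]),(z5,[y3,z2,z3,z0,z15]),(z5,[y9,z1,y6,y5,y15,
    z15])],.ref k25 k0 [(z7,[z9,z1]),(z7,[z12,y8,z21]),(z1,[z0,z0,z0,z1]),(z7,[y6,z4,z0,z0,z21]),(z7,[y18,z5,y21,y7,
    y21,z21])],.ref k25 k0 [(z11,[z9,z8,y18]),(z11,[z12,y4,z9]),(z1,[z0,z0,z0,z1]),(z11,[y6,z2,z12,z0,z33]),(z11,[y18,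
    y5,z3,y11,y33,z33])],.ref k25 k0 [(z7,[z9,z4,y9,y3]),(z7,[z12,y4,z9,y4]),(z1,[z0,z0,z0,z1]),(z7,[y6,z2,z6,z2,
    z21]),(z7,[y18,y1,y3,y1,y21,z21])],.ref k25 k0 [(z1,[z9,z1,z0,z3,z9,y9]),(z1,[z12,z0,z3,z4,z12,y12]),(z1,[z0,z0,
    z0,z1]),(z1,[y6,z0,z0,y2,y3,z6]),(z1,[y18,y1,y3,y7,y21,z21])],.ref k25 k0 [(z8,[z9,z5,y9]),(z2,[z3,y1,z3]),(z1,
    [z0,z0,z0,z1]),(z4,[y3,z1,z3,z0,z12]),(z4,[y9,y1,y3,y4,y12,z12])],.ref k25 k0 [(z4,[z9,z1,z0,y3]),(z1,[z3,y1,z3,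
    y1]),(z1,[z0,z0,z0,z1]),(z2,[y3,z1,z0,z1,z6]),(z2,[y9,z1,y6,z1,y6,z6])],.ref k25 k0 [(z2,[z9,y1,z0,z0,y9]),(z1,
    [z6,y2,z3,z0,y6]),(z1,[z0,z0,z0,z1]),(z1,[y3,z1,z0,z0,z6]),(z1,[y9,z2,y3,y1,z6,z3])],.ref k25 k0 [(z2,[y9,z2,y9,
    y3,y9,z9]),(z1,[y6,z0,y3,y2,y6,z6]),(z1,[z0,z0,z0,z1]),(z1,[z3,z0,z3,z1,z6,y3]),(z1,[z9,y1,z6,z2,z6,y6])],
    .ref k25 k0 [(z5,[z9,z2]),(z5,[z12,y4,z15]),(z1,[z0,z0,z0,z1]),(z5,[y6,z2,z0,z0,z15]),(z5,[y18,z1,y15,y5,y15,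
    z15])],.ref k25 k0 [(z4,[z3,z4,y9]),(z1,[z1]),(z1,[z0,z0,z0,z1]),(z2,[y1,z0,z3,z0,z6]),(z2,[y3,y2,z3,y2,y6,z6])],
    .ref k25 k0 [(z8,[z9,z8,y18,y3]),(z2,[z3,z0,z0,y1]),(z1,[z0,z0,z0,z1]),(z4,[y3,z0,z6,z1,z12]),(z4,[y9,y4,z6,y1,
    y12,z12])],.ref k25 k0 [(z2,[z3,z2,y6,z0,y3]),(z1,[z2,z0,y1,z0,y2]),(z1,[z0,z0,z0,z1]),(z1,[y1,z0,z2,z0,z4]),(z1,
    [y3,y1,z3,y1,z0,z3])],.ref k25 k0 [(z2,[z9,z5,y9,z3,z9,y9]),(z1,[z6,z2,y3,z2,z6,y6]),(z1,[z0,z0,z0,z1]),(z1,[y3,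
    y1,z3,y1,z0,z3]),(z1,[y9,y4,z6,y4,y12,z12])],.ref k25 k0 [(z1,[z1,z1,y2]),(z3,[z4,z0,z1]),(z1,[z0,z0,z0,z1]),(z3,
    [y2,z0,z4,z0,z9]),(z1,[y2,y1,z1,y1,y3,z3])],.ref k25 k0 [(z2,[y9,y1,z0,z0,y9,z9]),(z1,[y6,y2,z3,z0,y6,z6]),(z1,
    [z0,z0,z0,z1]),(z1,[z3,z1,z0,z0,z6,y3]),(z1,[z9,z2,y3,y1,z6,y6])],.ref k25 k0 [(z5,[z9,z5,y9,y3]),(z5,[z12,z0,z3,
    y4]),(z1,[z0,z0,z0,z1]),(z5,[y6,z0,z6,z2,z15]),(z5,[y18,y5,z3,z1,y15,z15])],.ref k25 k0 [(z1,[z3,z1,y3,z0,y3]),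
    (z1,[z4,z0,y1,z0,y4]),(z1,[z0,z0,z0,z1]),(z1,[y2,z0,z2,z0,z5]),(z1,[y6,y1,z3,y1,z3,z3])],.ref k25 k0 [(z1,[y9,y2,
    z0,y3,y9,z9]),(z1,[y12,y4,z3,y4,y12,z12]),(z1,[z0,z0,z0,z1]),(z1,[z6,z2,z0,z2,z9,y6]),(z1,[z18,z5,y3,z5,z15,
    y15])],.ref k25 k0 [(z2,[z3,z2,y3]),(z1,[z2,z0,z1]),(z1,[z0,z0,z0,z1]),(z1,[y1,z0,z1,z0,z3]),(z1,[y3,y1,z0,y1,y3,
    z3])],.ref k25 k0 [(z5,[y9,z2,y9,z0,y9,z9]),(z5,[y12,y4,z3,z0,y12,z12]),(z1,[z0,z0,z0,z1]),(z5,[z6,z2,z6,z0,z21,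
    y6]),(z5,[z18,z1,z3,y5,z3,y3])],.ref k25 k0 [(z2,[z9,z2,z0,y3]),(z1,[z6,z0,z3,y2]),(z1,[z0,z0,z0,z1]),(z1,[y3,z0,
    z0,z1,z3]),(z1,[y9,y1,y3,z2,y3,z3])],.ref k25 k0 [(z4,[y9,z1,y9,y3,y9,z9]),(z1,[y3,y1,z0,y1,y3,z3]),(z1,[z0,z0,z0,
    z1]),(z2,[z3,z1,z3,z1,z9,y3]),(z2,[z9,z1,z3,z1,z3,y3])],.ref k25 k0 [(z1,[z3,z1]),(z1,[z4,z0,z3]),(z1,[z0,z0,z0,
    z1]),(z1,[y2,z0,z0,z0,z3]),(z1,[y6,y1,y3,y1,y3,z3])]],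
    .lp k0 [(nat_lit 470),(nat_lit 446),(nat_lit 506),(nat_lit 518),(nat_lit 500),(nat_lit 434)] [k15,k33,k36,k36,k6,
    k6,k0,k0,k5,k13,k42,k42] k0 [[k0,k30,k0,k0,k0,k0,k0,k0,k0,k138,k30,k0],[k0,k0,k12,k12,k12,k6,k18,k0,k0,k0,k0,k0],
    [k12,k0,k0,k6,k0,k0,k0,k0,k0,k0,k0,k12],[k12,k0,k0,k0,k0,k0,k0,k0,k0,k96,k0,k0],[k6,k0,k0,k0,k0,k0,k0,k0,k6,k36,
    k0,k6],[k12,k0,k0,k0,k24,k0,k0,k24,k0,k0,k0,k12],[k0,k0,k0,k0,k24,k0,k0,k66,k12,k0,k0,k0],[k18,k0,k0,k0,k0,k0,k0,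
    k0,k0,k0,k78,k6],[k0,k138,k96,k0,k0,k36,k0,k0,k0,k0,k120,k0],[k0,k0,k0,k0,k0,k6,k0,k12,k12,k0,k0,k0],[k0,k0,k0,
    k12,k12,k6,k6,k0,k0,k0,k0,k0],[k0,k30,k0,k0,k0,k0,k78,k0,k0,k120,k30,k0]] (nat_lit 1440) k5
    [[(k8,(nat_lit 360)),(k9,(nat_lit 394)),(k1,(nat_lit 422)),(k0,(nat_lit 440)),(k10,(nat_lit 443)),(k11,
    (nat_lit 443)),(k2,(nat_lit 449)),(k3,(nat_lit 449)),(k4,(nat_lit 491)),(k5,(nat_lit 491)),(k6,(nat_lit 491)),(k7,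
    (nat_lit 491))],[(k8,(nat_lit 360)),(k1,(nat_lit 440)),(k0,(nat_lit 458)),(k10,(nat_lit 461)),(k11,(nat_lit 461)),
    (k3,(nat_lit 467)),(k2,(nat_lit 479)),(k9,(nat_lit 490)),(k4,(nat_lit 509)),(k5,(nat_lit 509)),(k7,(nat_lit 509)),
    (k6,(nat_lit 521))],[(k2,(nat_lit 434)),(k1,(nat_lit 449)),(k9,(nat_lit 451)),(k5,(nat_lit 464)),(k0,
    (nat_lit 467)),(k4,(nat_lit 470)),(k7,(nat_lit 470)),(k10,(nat_lit 470)),(k3,(nat_lit 476)),(k8,(nat_lit 477)),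
    (k6,(nat_lit 482)),(k11,(nat_lit 578))],[(k10,(nat_lit 428)),(k3,(nat_lit 434)),(k2,(nat_lit 440)),(k1,
    (nat_lit 449)),(k9,(nat_lit 469)),(k4,(nat_lit 476)),(k5,(nat_lit 476)),(k8,(nat_lit 477)),(k0,(nat_lit 479)),(k6,
    (nat_lit 482)),(k7,(nat_lit 482)),(k11,(nat_lit 536))],[(k8,(nat_lit 411)),(k3,(nat_lit 464)),(k10,(nat_lit 470)),
    (k11,(nat_lit 470)),(k2,(nat_lit 476)),(k1,(nat_lit 491)),(k9,(nat_lit 499)),(k4,(nat_lit 506)),(k0,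
    (nat_lit 509)),(k5,(nat_lit 512)),(k6,(nat_lit 512)),(k7,(nat_lit 512))],[(k10,(nat_lit 464)),(k11,(nat_lit 464)),
    (k3,(nat_lit 470)),(k8,(nat_lit 471)),(k2,(nat_lit 476)),(k1,(nat_lit 491)),(k5,(nat_lit 506)),(k0,(nat_lit 509)),
    (k6,(nat_lit 512)),(k7,(nat_lit 512)),(k9,(nat_lit 523)),(k4,(nat_lit 530))],[(k10,(nat_lit 464)),(k3,
    (nat_lit 470)),(k2,(nat_lit 482)),(k1,(nat_lit 491)),(k6,(nat_lit 494)),(k7,(nat_lit 494)),(k9,(nat_lit 505)),(k0,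
    (nat_lit 509)),(k4,(nat_lit 512)),(k5,(nat_lit 512)),(k11,(nat_lit 512)),(k8,(nat_lit 519))],[(k6,(nat_lit 452)),
    (k11,(nat_lit 464)),(k2,(nat_lit 482)),(k3,(nat_lit 482)),(k1,(nat_lit 491)),(k7,(nat_lit 494)),(k9,
    (nat_lit 505)),(k4,(nat_lit 512)),(k5,(nat_lit 512)),(k8,(nat_lit 513)),(k0,(nat_lit 521)),(k10,(nat_lit 554))],
    [(k1,(nat_lit 394)),(k3,(nat_lit 451)),(k10,(nat_lit 457)),(k11,(nat_lit 463)),(k2,(nat_lit 469)),(k0,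
    (nat_lit 490)),(k5,(nat_lit 499)),(k6,(nat_lit 505)),(k7,(nat_lit 505)),(k8,(nat_lit 512)),(k4,(nat_lit 523)),(k9,
    (nat_lit 558))],[(k0,(nat_lit 360)),(k1,(nat_lit 360)),(k5,(nat_lit 411)),(k4,(nat_lit 471)),(k10,(nat_lit 471)),
    (k11,(nat_lit 471)),(k2,(nat_lit 477)),(k3,(nat_lit 477)),(k9,(nat_lit 512)),(k6,(nat_lit 513)),(k7,
    (nat_lit 519)),(k8,(nat_lit 520))],[(k11,(nat_lit 422)),(k1,(nat_lit 443)),(k0,(nat_lit 461)),(k9,(nat_lit 463)),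
    (k4,(nat_lit 464)),(k6,(nat_lit 464)),(k5,(nat_lit 470)),(k8,(nat_lit 471)),(k7,(nat_lit 512)),(k2,(nat_lit 536)),
    (k10,(nat_lit 554)),(k3,(nat_lit 578))],[(k2,(nat_lit 428)),(k1,(nat_lit 443)),(k9,(nat_lit 457)),(k0,
    (nat_lit 461)),(k4,(nat_lit 464)),(k7,(nat_lit 464)),(k10,(nat_lit 464)),(k3,(nat_lit 470)),(k5,(nat_lit 470)),
    (k8,(nat_lit 471)),(k6,(nat_lit 554)),(k11,(nat_lit 554))]]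
    [[k3,k0,k0,k0,k0,k0],[k2,k1,k0,k0,k0,k0],[k2,k0,k0,k0,k1,k0],[k2,k0,k0,k0,k0,k1],[k1,k2,k0,k0,k0,k0],[k1,k1,k1,k0,
    k0,k0],[k1,k1,k0,k0,k1,k0],[k1,k1,k0,k0,k0,k1],[k1,k0,k1,k0,k1,k0],[k1,k0,k1,k0,k0,k1],[k1,k0,k0,k1,k1,k0],[k1,k0,
    k0,k1,k0,k1],[k1,k0,k0,k0,k2,k0],[k1,k0,k0,k0,k1,k1],[k1,k0,k0,k0,k0,k2],[k0,k3,k0,k0,k0,k0],[k0,k2,k1,k0,k0,k0],
    [k0,k2,k0,k1,k0,k0],[k0,k2,k0,k0,k1,k0],[k0,k1,k1,k0,k1,k0],[k0,k1,k1,k0,k0,k1],[k0,k1,k0,k1,k0,k1],[k0,k1,k0,k2,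
    k0,k0],[k0,k1,k0,k0,k1,k1],[k0,k1,k0,k0,k0,k2],[k0,k0,k1,k1,k1,k0],[k0,k0,k1,k0,k1,k1],[k0,k0,k1,k0,k0,k2],[k0,k0,
    k0,k2,k0,k1],[k0,k0,k0,k0,k1,k2]]
    [.ref k25 k0 [(z1,[z1]),(z10,[y4,z1,z15]),(z20,[z4,y1,z0,z15]),(z5,[y8,z2,z0,z0,z15]),(z4,[z0,y1,y6,y3,y12,z12])],
    .ref k25 k0 [(z16,[z30,y1,y15]),(z8,[y6,z1,z15]),(z16,[z6,y1,y3,z12]),(z2,[y6,z1,z3,z0,z6]),(z4,[z0,y1,y6,y3,y12,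
    z12])],.ref k25 k0 [(z8,[z12,z1,z6,z3,z12,y12]),(z20,[y12,z1,z24,y3,y12,z12]),(z40,[z12,y1,z6,z33,z12,y12]),(z5,
    [y12,z1,y6,y3,z3,z12]),(z4,[z0,y1,y6,y3,y12,z12])],.ref k25 k0 [(z14,[z15,z1]),(z14,[y6,z1,z21]),(z28,[z6,y1,z0,
    z21]),(z7,[y12,z2,z0,z0,z21]),(z4,[z0,y1,y6,y3,y12,z12])],.ref k25 k0 [(z1,[z15,y1,y15]),(z2,[y12,z1,z15]),(z4,
    [z12,y1,y12,z3]),(z1,[y24,z2,z24,z0,z3]),(z4,[z0,y1,y6,y3,y12,z12])],.ref k25 k0 [(z16,[z60,y1,y30,y15]),(z8,[y12,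
    z1,z18,z3]),(z16,[z12,y1,y6,z9]),(z2,[y12,z1,z6,z3,z6]),(z4,[z0,y1,y6,y3,y12,z12])],.ref k25 k0 [(z4,[z20,z1,z0,
    z5,z20,y20]),(z2,[y4,z0,z3,y1,y4,z4]),(z1,[z1,z0,z0,z1,z1,y1]),(z1,[y8,z0,z0,y2,y5,z8]),(z4,[z0,y1,y6,y3,y12,
    z12])],.ref k25 k0 [(z14,[z30,z1,y15]),(z14,[y12,z1,z27]),(z28,[z12,y1,y6,z21]),(z7,[y24,z2,z12,z0,z21]),(z4,[z0,
    y1,y6,y3,y12,z12])],.ref k25 k0 [(z4,[z10,z1,z5,z0,z10,y10]),(z1,[y1,z0,z1,z0,y1,z1]),(z4,[z2,z0,z1,z3,z2,y2]),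
    (z1,[y4,z0,y2,z0,y1,z4]),(z4,[z0,y1,y6,y3,y12,z12])],.ref k25 k0 [(z8,[z12,z1,z0,y3]),(z20,[y12,z1,z30,z3]),(z40,
    [z12,y1,z0,z27]),(z5,[y12,z1,z0,z3,z15]),(z4,[z0,y1,y6,y3,y12,z12])],.ref k25 k0 [(z4,[y20,z1,y10,y5,z0,z20]),(z2,
    [z4,z0,z5,z1,z0,y4]),(z2,[y2,z0,y1,z1,z0,z2]),(z1,[z8,z0,z4,z2,z3,y8]),(z4,[z0,y1,y6,y3,y12,z12])],
    .ref k25 k0 [(z1,[z15,y1,z0,z0,y15]),(z2,[y12,z1,z3,z0,z12]),(z4,[z12,y1,z0,z3,y12]),(z1,[y24,z2,z0,z0,z27]),(z4,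
    [z0,y1,y6,y3,y12,z12])],.ref k25 k0 [(z2,[z6,z1,z6,z3,z12,y12]),(z10,[y12,y1,z3,y6,y24,z24]),(z20,[z12,z1,z12,z21,
    z24,y24]),(z5,[y24,y2,y24,y12,y33,z48]),(z4,[z0,y1,y6,y3,y12,z12])],.ref k25 k0 [(z12,[z20,z3,z10,z5,z20,y20]),
    (z6,[y4,z0,z7,y1,y4,z4]),(z6,[z2,z0,z1,z5,z2,y2]),(z3,[y8,z0,y4,y2,z1,z8]),(z4,[z0,y1,y6,y3,y12,z12])],
    .ref k25 k0 [(z13,[z15,z2]),(z26,[y12,z1,z39]),(z52,[z12,y1,z0,z39]),(z13,[y24,z2,z0,z0,z39]),(z4,[z0,y1,y6,y3,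
    y12,z12])],.ref k25 k0 [(z4,[y10,z1,z15]),(z1,[z1]),(z4,[y2,z0,z3,z3]),(z1,[z4,z0,y6,z0,z3]),(z4,[z0,y1,y6,y3,y12,
    z12])],.ref k25 k0 [(z4,[y20,z1,z20,z5]),(z2,[z4,z0,y1,y1]),(z1,[y1,z0,z1,z1]),(z1,[z8,z0,y8,y2,z3]),(z4,[z0,y1,
    y6,y3,y12,z12])],.ref k25 k0 [(z4,[y5,z1,z5,z0,z5]),(z2,[z1,z0,z2,z0,y1]),(z4,[y1,z0,z1,z3,z1]),(z1,[z2,z0,y2,z0,
    z1]),(z4,[z0,y1,y6,y3,y12,z12])],.ref k25 k0 [(z16,[y60,y1,z30,y15,y60,z60]),(z8,[z12,z1,z6,z3,z12,y12]),(z16,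
    [y12,y1,z6,z9,y12,z12]),(z2,[z12,z1,y6,z3,z18,y12]),(z4,[z0,y1,y6,y3,y12,z12])],.ref k25 k0 [(z1,[y15,y1,z0,z0,
    y15,z15]),(z2,[z12,z1,z3,z0,z12,y12]),(z4,[y12,y1,z0,z3,y12,z12]),(z1,[z24,z2,z0,z0,z27,y24]),(z4,[z0,y1,y6,y3,
    y12,z12])],.ref k25 k0 [(z4,[z20,z1,y10,y5]),(z2,[y4,z0,z5,z1]),(z2,[z2,z0,y1,z1]),(z1,[y8,z0,z4,z2,z3]),(z4,[z0,
    y1,y6,y3,y12,z12])],.ref k25 k0 [(z4,[y10,z1,z5,z0,z10]),(z1,[z1,z0,z1,z0,y1]),(z4,[y2,z0,z1,z3,z2]),(z1,[z4,z0,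
    y2,z0,y1]),(z4,[z0,y1,y6,y3,y12,z12])],.ref k25 k0 [(z12,[y10,z3,z5,z0,z20]),(z3,[z1,z0,z4,z0,y2]),(z12,[y2,z0,z1,
    z9,z4]),(z3,[z4,z0,y2,z0,z1]),(z4,[z0,y1,y6,y3,y12,z12])],.ref k25 k0 [(z8,[z60,z7,z0,z15,z60,y60]),(z4,[y12,y1,
    z6,y3,y12,z12]),(z8,[z12,z1,z0,z9,z12,y12]),(z1,[y12,y1,z0,y3,y9,z12]),(z4,[z0,y1,y6,y3,y12,z12])],
    .ref k25 k0 [(z4,[z10,z1,y5]),(z1,[y1,z0,z2]),(z4,[z2,z0,y1,z3]),(z1,[y4,z0,z2,z0,z3]),(z4,[z0,y1,y6,y3,y12,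
    z12])],.ref k25 k0 [(z14,[y30,z1,y15,z0,z0,z30]),(z14,[z12,z1,z27,z0,z0,y12]),(z28,[y12,y1,y6,z21,z0,z12]),(z7,
    [z24,z2,z12,z0,z21,y24]),(z4,[z0,y1,y6,y3,y12,z12])],.ref k25 k0 [(z2,[z6,z1,z3,z0,z6,y6]),(z10,[y12,y1,z9,z0,y12,
    z12]),(z20,[z12,z1,z6,z15,z12,y12]),(z5,[y24,y2,y12,z0,y9,z24]),(z4,[z0,y1,y6,y3,y12,z12])],.ref k25 k0 [(z12,
    [z20,z3,z0,y5]),(z6,[y4,z0,z9,z1]),(z3,[z1,z0,z0,z2]),(z3,[y8,z0,z0,z2,z9]),(z4,[z0,y1,y6,y3,y12,z12])],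
    .ref k25 k0 [(z4,[y5,z1,z0,z0,z10]),(z2,[z1,z0,z3,z0,y2]),(z4,[y1,z0,z0,z3,z2]),(z1,[z2,z0,z0,z0,y1]),(z4,[z0,y1,
    y6,y3,y12,z12])],.ref k25 k0 [(z32,[z60,z13,z30,z15,z60,y60]),(z16,[y12,y1,z18,y3,y12,z12]),(z32,[z12,z1,z6,z27,
    z12,y12]),(z4,[y12,y1,y6,y3,z0,z12]),(z4,[z0,y1,y6,y3,y12,z12])]],
    .lp k0 [k76,k80,k82,k86,k84,k70] [k5,k5,k3,k3,k2,k2,k0,k0,k1,k1,k8,k8] k0 [[k0,k0,k0,k0,k0,k0,k1,k0,k0,k0,k0,k12],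
    [k0,k0,k1,k0,k0,k1,k2,k0,k0,k0,k0,k12],[k0,k0,k0,k0,k0,k0,k0,k0,k0,k2,k4,k6],[k1,k0,k0,k0,k0,k0,k2,k0,k0,k0,k0,
    k0],[k1,k0,k0,k0,k0,k0,k0,k0,k0,k0,k0,k0],[k0,k0,k0,k0,k0,k0,k0,k0,k0,k2,k4,k0],[k0,k0,k0,k0,k0,k0,k0,k1,k0,k1,k2,
    k0],[k2,k1,k2,k0,k0,k0,k0,k0,k0,k0,k1,k0],[k0,k0,k0,k2,k2,k0,k0,k1,k0,k0,k0,k0],[k0,k0,k0,k0,k0,k0,k0,k0,k0,k0,k1,
    k5],[k12,k12,k0,k6,k0,k0,k0,k0,k5,k0,k0,k7],[k0,k0,k0,k4,k4,k0,k1,k2,k1,k0,k0,k0]] (nat_lit 240) k5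
    [[(k11,k72),(k10,k73),(k2,k74),(k7,k77),(k4,k79),(k6,k79),(k9,k79),(k1,k83),(k5,k85),(k8,k85),(k0,k88),(k3,k90)],
    [(k10,k61),(k11,k73),(k0,k76),(k3,k78),(k2,k79),(k4,k79),(k5,k79),(k9,k79),(k8,k80),(k7,k82),(k6,k83),(k1,k88)],
    [(k10,k63),(k11,k75),(k0,k78),(k2,k80),(k3,k80),(k4,k80),(k5,k80),(k9,k80),(k8,k82),(k7,k83),(k6,k84),(k1,k90)],
    [(k10,k69),(k1,k74),(k11,k75),(k0,k79),(k2,k80),(k3,k80),(k8,k80),(k4,k81),(k5,k81),(k9,k82),(k7,k83),(k6,k85)],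
    [(k11,k78),(k0,k79),(k3,k80),(k10,k80),(k2,k81),(k9,k81),(k4,k82),(k5,k82),(k8,k83),(k6,k84),(k7,k84),(k1,k85)],
    [(k11,k78),(k0,k79),(k1,k79),(k3,k80),(k10,k80),(k2,k81),(k4,k82),(k5,k82),(k8,k83),(k9,k83),(k6,k84),(k7,k84)],
    [(k1,k77),(k10,k78),(k11,k78),(k0,k82),(k2,k83),(k3,k83),(k8,k83),(k4,k84),(k5,k84),(k9,k85),(k6,k86),(k7,k86)],
    [(k11,k78),(k1,k79),(k10,k79),(k0,k83),(k3,k84),(k4,k84),(k5,k84),(k8,k84),(k2,k85),(k6,k85),(k9,k85),(k7,k86)],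
    [(k11,k78),(k0,k79),(k1,k79),(k10,k79),(k3,k80),(k5,k81),(k2,k82),(k4,k83),(k8,k84),(k6,k85),(k7,k85),(k9,k85)],
    [(k11,k77),(k10,k78),(k0,k80),(k2,k80),(k3,k82),(k4,k83),(k5,k83),(k7,k83),(k6,k84),(k8,k84),(k9,k84),(k1,k85)],
    [(k10,k65),(k11,k70),(k1,k72),(k0,k73),(k2,k75),(k3,k75),(k8,k77),(k4,k78),(k5,k78),(k6,k78),(k7,k78),(k9,k78)],
    [(k0,k61),(k3,k63),(k10,k63),(k11,k65),(k2,k69),(k1,k73),(k7,k78),(k8,k78),(k6,k79),(k9,k79),(k4,k80),(k5,k80)]]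
    [[k2,k0,k0,k0,k0,k1],[k1,k2,k0,k0,k0,k0],[k1,k1,k1,k0,k0,k0],[k1,k1,k0,k0,k1,k0],[k1,k1,k0,k0,k0,k1],[k1,k0,k1,k0,
    k0,k1],[k2,k0,k0,k1,k0,k0],[k1,k0,k0,k1,k0,k1],[k1,k0,k0,k0,k1,k1],[k1,k0,k0,k0,k0,k2],[k0,k2,k0,k0,k0,k1],[k0,k1,
    k1,k0,k0,k1],[k0,k1,k0,k1,k0,k1],[k0,k1,k0,k0,k1,k1],[k0,k1,k0,k0,k0,k2],[k0,k0,k1,k0,k1,k1],[k0,k0,k1,k0,k0,k2],
    [k0,k0,k0,k1,k0,k2],[k0,k0,k0,k0,k1,k2],[k0,k0,k0,k0,k0,k3]]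
    [.ref (nat_lit 346) k2 [(z1,[y3,z3,y1,y3,z3]),(z1,[z0,z0,z0,z1]),(z1,[z0,z0,z1]),(z1,[z0,z1])],.ref k97 k0 [(z1,
    [z3,z0,y2]),(z1,[z0,z0,z1]),(z2,[y3,z3,z2,z6]),(z4,[y9,y3,z2,y12,z12])],.ref k97 k0 [(z1,[z6,y3,y2,y6]),(z1,[z0,
    z0,z1]),(z1,[y3,z3,z1,z6]),(z2,[y9,z3,z1,z3,z6])],.ref k97 k0 [(z5,[z12,z3,y4]),(z1,[z0,z0,z1]),(z5,[y6,z6,z2,
    z15]),(z5,[y9,y6,y2,y15,z15])],.ref (nat_lit 347) k2 [(z1,[y1,z0,z0,y1,z1]),(z1,[z0,z0,z0,z1]),(z1,[z0,z0,z1]),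
    (z1,[z0,z1])],.ref (nat_lit 348) k1 [(z1,[z6,z0,z2,z3,y6]),(z1,[z0,z0,z1]),(z1,[y12,z3,y4,z0,z12]),(z1,[z9,y3,z2,
    y3,y6])],.ref (nat_lit 349) k6 [(z1,[y3,z3,y1,y3,z3]),(z1,[z0,z1]),(z1,[z0,z0,z1]),(z1,[z0,z0,z0,z1])],
    .ref k97 k0 [(z1,[z12,z3,z4,z12,y12]),(z1,[z0,z0,z1]),(z1,[y6,z0,y2,y3,z6]),(z1,[y9,y3,y4,y12,z12])],
    .ref (nat_lit 350) k2 [(z1,[y3,z0,y1,y3,z3]),(z1,[z0,z0,z0,z1]),(z1,[z0,z0,z1]),(z1,[z0,z1])],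
    .ref (nat_lit 348) k1 [(z1,[z3,z3,z2,z9,y6]),(z1,[z0,z0,z1]),(z1,[y6,y3,y4,y12,z12]),(z2,[z9,z3,z4,z12,y12])],
    .ref (nat_lit 351) k0 [(z1,[z0,z1]),(z1,[z0,z0,z1]),(z1,[z0,z0,z0,z1]),(z1,[y3,y3,z1,y3,z3])],
    .ref (nat_lit 352) k3 [(z1,[y2,y2,z0,y5,z2]),(z1,[z0,z0,z0,z1]),(z1,[z3,z0,y1]),(z1,[z0,z1,z0,z2])],
    .ref k97 k0 [(z1,[y4,y1,z0,y4,z4]),(z1,[z0,z0,z1]),(z1,[z2,z2,z0,z5,y2]),(z1,[z3,z0,y1])],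
    .ref (nat_lit 353) k1 [(z1,[z1,z1,z0,z2,y1]),(z1,[z0,z0,z1]),(z1,[y2,y1,z0,y2,z2]),(z1,[z9,z3,y2,z3,y3])],
    .ref (nat_lit 351) k0 [(z1,[z0,z1]),(z1,[z0,z0,z1]),(z1,[z0,z0,z0,z1]),(z2,[y3,y6,y1,y6,z6])],
    .ref (nat_lit 354) k0 [(z1,[y4,z1,z0,z4]),(z1,[z0,z0,z1]),(z1,[z2,z0,z0,y1]),(z1,[z9,y3,y1,y12,z3])],
    .ref (nat_lit 354) k0 [(z1,[y2,z1,z0,z2]),(z1,[z0,z0,z1]),(z1,[z1]),(z2,[z9,y6,y2,y15,z6])],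
    .ref (nat_lit 355) k6 [(z1,[z3,z3,z1,z3,y3]),(z1,[z0,z1]),(z1,[z0,z0,z1]),(z1,[z0,z0,z0,z1])],
    .ref (nat_lit 356) k3 [(z1,[y6,y12,y4,y27,z12]),(z1,[z0,z0,z0,z1]),(z1,[z2,z0,z0,y1]),(z1,[z0,z1,z0,z2])],
    .ref (nat_lit 351) k0 [(z1,[z0,z1]),(z1,[z0,z0,z1]),(z1,[z0,z0,z0,z1]),(z1,[y1,y3,y1,y3,z3])]],
    .base (.leafM k0 [k1,k2,k3,k4,k5,k0] [(z1,[y1,y1,z0,z1])] []),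
    .lp k0 [(nat_lit 642),(nat_lit 616),(nat_lit 652),(nat_lit 660),(nat_lit 700),(nat_lit 566)] [k29,k29,k42,k42,k24,
    k24,k20,k20,k0,k0,k67,k67] k0 [[k0,k48,k24,k0,k36,k0,k0,k0,k0,k0,k0,k46],[k0,k0,k0,k0,k8,k0,k12,k8,k32,k0,k0,k42],
    [k0,k0,k0,k0,k8,k0,k12,k0,k0,k0,k0,k42],[k0,k24,k0,k0,k12,k0,k0,k0,k0,k0,k0,k46],[k0,k0,k0,k0,k0,k0,k48,k0,k28,
    k36,k10,k14],[k8,k36,k12,k8,k0,k0,k0,k0,k0,k0,k0,k0],[k8,k0,k0,k0,k0,k0,k0,k0,k24,k32,k0,k0],[k12,k0,k0,k12,k0,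
    k48,k0,k0,k0,k0,k58,k10],[k0,k0,k0,k0,k0,k36,k0,k32,k0,k68,k154,k0],[k32,k0,k0,k0,k0,k28,k0,k24,k0,k0,k18,k0],
    [k42,k46,k46,k42,k0,k14,k10,k0,k0,k0,k0,k0],[k0,k0,k0,k0,k0,k10,k58,k0,k18,k154,k0,k0]] (nat_lit 1920) k5
    [[(k8,(nat_lit 517)),(k11,(nat_lit 586)),(k10,(nat_lit 604)),(k9,(nat_lit 613)),(k4,(nat_lit 637)),(k1,
    (nat_lit 642)),(k6,(nat_lit 661)),(k7,(nat_lit 665)),(k2,(nat_lit 675)),(k3,(nat_lit 675)),(k0,(nat_lit 684)),(k5,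
    (nat_lit 689))],[(k10,(nat_lit 558)),(k0,(nat_lit 594)),(k11,(nat_lit 604)),(k7,(nat_lit 615)),(k5,(nat_lit 623)),
    (k2,(nat_lit 629)),(k3,(nat_lit 629)),(k4,(nat_lit 655)),(k6,(nat_lit 663)),(k9,(nat_lit 679)),(k1,(nat_lit 684)),
    (k8,(nat_lit 703))],[(k10,(nat_lit 549)),(k11,(nat_lit 559)),(k0,(nat_lit 629)),(k6,(nat_lit 630)),(k7,
    (nat_lit 630)),(k5,(nat_lit 634)),(k2,(nat_lit 640)),(k9,(nat_lit 646)),(k8,(nat_lit 658)),(k3,(nat_lit 664)),(k4,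
    (nat_lit 670)),(k1,(nat_lit 675))],[(k10,(nat_lit 549)),(k11,(nat_lit 591)),(k2,(nat_lit 616)),(k0,(nat_lit 629)),
    (k7,(nat_lit 630)),(k5,(nat_lit 634)),(k6,(nat_lit 638)),(k3,(nat_lit 640)),(k4,(nat_lit 646)),(k9,(nat_lit 646)),
    (k8,(nat_lit 658)),(k1,(nat_lit 675))],[(k10,(nat_lit 563)),(k11,(nat_lit 609)),(k0,(nat_lit 623)),(k2,
    (nat_lit 634)),(k3,(nat_lit 634)),(k7,(nat_lit 644)),(k5,(nat_lit 652)),(k4,(nat_lit 660)),(k6,(nat_lit 668)),(k8,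
    (nat_lit 676)),(k9,(nat_lit 676)),(k1,(nat_lit 689))],[(k11,(nat_lit 581)),(k10,(nat_lit 595)),(k9,(nat_lit 628)),
    (k1,(nat_lit 637)),(k8,(nat_lit 640)),(k2,(nat_lit 646)),(k4,(nat_lit 652)),(k0,(nat_lit 655)),(k6,(nat_lit 656)),
    (k7,(nat_lit 656)),(k5,(nat_lit 660)),(k3,(nat_lit 670))],[(k0,(nat_lit 615)),(k10,(nat_lit 623)),(k2,
    (nat_lit 630)),(k3,(nat_lit 630)),(k5,(nat_lit 644)),(k11,(nat_lit 649)),(k4,(nat_lit 656)),(k7,(nat_lit 660)),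
    (k1,(nat_lit 665)),(k9,(nat_lit 680)),(k6,(nat_lit 708)),(k8,(nat_lit 708))],[(k11,(nat_lit 589)),(k3,
    (nat_lit 630)),(k2,(nat_lit 638)),(k8,(nat_lit 648)),(k4,(nat_lit 656)),(k6,(nat_lit 660)),(k1,(nat_lit 661)),(k0,
    (nat_lit 663)),(k5,(nat_lit 668)),(k10,(nat_lit 671)),(k9,(nat_lit 680)),(k7,(nat_lit 708))],[(k1,(nat_lit 613)),
    (k10,(nat_lit 623)),(k4,(nat_lit 628)),(k2,(nat_lit 646)),(k3,(nat_lit 646)),(k11,(nat_lit 665)),(k5,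
    (nat_lit 676)),(k0,(nat_lit 679)),(k6,(nat_lit 680)),(k7,(nat_lit 680)),(k9,(nat_lit 700)),(k8,(nat_lit 724))],
    [(k1,(nat_lit 517)),(k8,(nat_lit 632)),(k11,(nat_lit 633)),(k4,(nat_lit 640)),(k6,(nat_lit 648)),(k10,
    (nat_lit 651)),(k2,(nat_lit 658)),(k3,(nat_lit 658)),(k5,(nat_lit 676)),(k0,(nat_lit 703)),(k7,(nat_lit 708)),(k9,
    (nat_lit 724))],[(k3,(nat_lit 559)),(k4,(nat_lit 581)),(k1,(nat_lit 586)),(k6,(nat_lit 589)),(k2,(nat_lit 591)),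
    (k0,(nat_lit 604)),(k5,(nat_lit 609)),(k8,(nat_lit 633)),(k11,(nat_lit 634)),(k7,(nat_lit 649)),(k9,
    (nat_lit 665)),(k10,(nat_lit 720))],[(k2,(nat_lit 549)),(k3,(nat_lit 549)),(k0,(nat_lit 558)),(k5,(nat_lit 563)),
    (k10,(nat_lit 566)),(k4,(nat_lit 595)),(k1,(nat_lit 604)),(k7,(nat_lit 623)),(k9,(nat_lit 623)),(k8,
    (nat_lit 651)),(k6,(nat_lit 671)),(k11,(nat_lit 720))]]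
    [[k2,k0,k0,k0,k1,k0],[k2,k0,k0,k0,k0,k1],[k2,k1,k0,k0,k0,k0],[k1,k1,k0,k0,k0,k1],[k1,k1,k1,k0,k0,k0],[k1,k0,k1,k0,
    k0,k1],[k1,k0,k0,k1,k0,k1],[k1,k1,k0,k0,k1,k0],[k1,k0,k1,k0,k1,k0],[k1,k0,k0,k1,k1,k0],[k1,k0,k0,k0,k1,k1],[k1,k0,
    k0,k0,k0,k2],[k0,k2,k0,k1,k0,k0],[k0,k2,k0,k0,k0,k1],[k0,k1,k1,k0,k0,k1],[k0,k1,k0,k1,k0,k1],[k0,k1,k0,k0,k1,k1],
    [k0,k1,k0,k0,k0,k2],[k0,k0,k2,k0,k0,k1],[k0,k0,k1,k1,k0,k1],[k0,k0,k1,k0,k1,k1],[k0,k0,k1,k0,k0,k2],[k0,k0,k0,k1,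
    k0,k2],[k0,k0,k0,k0,k1,k2]]
    [.ref k25 k0 [(z11,[z12,z1]),(z33,[z9,y2,z11]),(z33,[y18,z4,z0,z11]),(z11,[y18,z4,z0,z0,z33]),(z11,[z9,y2])],
    .ref k25 k0 [(z6,[z9,z1,z1,z1,z9,y9]),(z24,[z9,y1,z9,z1,z9,y9]),(z12,[y9,z1,y1,z3,y9,z9]),(z4,[y9,z1,y1,y1,z3,
    z9]),(z8,[z9,y1,z1,z1,z9,y9])],.ref k25 k0 [(z27,[z36,z1,y4]),(z27,[z9,y2,z8]),(z27,[y18,z4,z2,z9]),(z9,[y18,z4,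
    z2,z0,z27]),(z9,[z9,y2,y1])],.ref k25 k0 [(z15,[z36,z5,z0,z4,z36,y36]),(z15,[z9,z0,z5,z1,z9,y9]),(z5,[y6,z0,z0,z1,
    y6,z6]),(z5,[y18,z0,z0,y2,y3,z18]),(z5,[z9,z0,z0,z1,z9,y9])],.ref k25 k0 [(z9,[z36,y1,y4,y4]),(z9,[z9,y1,z2,y1]),
    (z9,[y18,z2,z2,z5]),(z3,[y18,z2,z2,z2,z9]),(z3,[z9,y1,y1,y1])],.ref k25 k0 [(z3,[z18,z1,z2,z0,z18,y18]),(z2,[z3,
    z0,z1,z0,z3,y3]),(z3,[y9,z0,y1,z1,y9,z9]),(z1,[y9,z0,y1,z0,y6,z9]),(z2,[z9,z0,z1,z0,z9,y9])],.ref k25 k0 [(z3,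
    [y18,z1,y2,y2,z0,z18]),(z6,[y9,z0,z1,y1,z0,z9]),(z3,[z9,z0,z1,z2,z0,y9]),(z1,[z9,z0,z1,z1,z3,y9]),(z2,[y9,z0,y1,
    y1,z0,z9])],.ref k25 k0 [(z6,[z9,z1,y1]),(z24,[z9,y1,z7]),(z12,[y9,z1,z1,z4]),(z4,[y9,z1,z1,z0,z12]),(z8,[z9,y1,
    y1])],.ref k25 k0 [(z15,[z36,z1,z0,y4]),(z15,[z9,y1,z5,y1]),(z15,[y18,z2,z0,z7]),(z5,[y18,z2,z0,z2,z15]),(z5,[z9,
    y1,z0,y1])],.ref k25 k0 [(z1,[z12,y1,z0,z0,y12]),(z3,[z9,y1,z1,z0,y9]),(z3,[y18,z2,z0,z1,z18]),(z1,[y18,z2,z0,z0,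
    z21]),(z1,[z9,y1,z0,z0,y9])],.ref k25 k0 [(z21,[z36,z7,z4,z4,z36,y36]),(z21,[z9,z0,z8,z1,z9,y9]),(z21,[y18,z0,y2,
    z5,y18,z18]),(z7,[y18,z0,y2,y2,z3,z18]),(z7,[z9,z0,z1,z1,z9,y9])],.ref k25 k0 [(z3,[z9,z2,z2,z2,z18,y18]),(z12,
    [z9,z1,z6,z2,z18,y18]),(z6,[y9,y1,y2,z0,y18,z18]),(z2,[y9,y1,y2,y2,y12,z18]),(z4,[z9,z1,z2,z2,z18,y18])],
    .ref k25 k0 [(z3,[y9,z1,z2,z0,z9]),(z4,[y3,z0,z2,z0,z3]),(z6,[z9,z0,y2,z2,y9]),(z2,[z9,z0,y2,z0,y3]),(z4,[y9,z0,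
    z2,z0,z9])],.ref k25 k0 [(z3,[z18,z3,y2,z2,z18,y18]),(z6,[z9,z1,z1,z1,z9,y9]),(z3,[y9,y1,z1,z0,y9,z9]),(z1,[y9,y1,
    z1,y1,y6,z9]),(z2,[z9,z1,y1,z1,z9,y9])],.ref k25 k0 [(z1,[y12,y1,z0,z0,y12,z12]),(z3,[y9,y1,z1,z0,y9,z9]),(z3,
    [z18,z2,z0,z1,z18,y18]),(z1,[z18,z2,z0,z0,z21,y18]),(z1,[y9,y1,z0,z0,y9,z9])],.ref k25 k0 [(z15,[y36,z1,z0,y4,z0,
    z36]),(z15,[y9,y1,z5,y1,z0,z9]),(z15,[z18,z2,z0,z7,z0,y18]),(z5,[z18,z2,z0,z2,z15,y18]),(z5,[y9,y1,z0,y1,z0,z9])],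
    .ref k25 k0 [(z3,[z9,z2,z0,z1,z9,y9]),(z12,[z9,z1,z4,z1,z9,y9]),(z6,[y9,y1,z0,z1,y9,z9]),(z2,[y9,y1,z0,y1,y3,z9]),
    (z4,[z9,z1,z0,z1,z9,y9])],.ref k25 k0 [(z3,[z36,z9,z4,z8,z72,y72]),(z3,[z9,z2,z2,z2,z18,y18]),(z3,[y18,y4,y2,y3,
    y36,z36]),(z1,[y18,y4,y2,y4,y33,z36]),(z1,[z9,z2,z1,z2,z18,y18])],.ref k25 k0 [(z3,[y9,z0,y1,z1,y9,z9]),(z12,[y9,
    y1,z3,z1,y9,z9]),(z6,[z9,z1,z1,z1,z9,y9]),(z2,[z9,z1,z1,y1,z15,y9]),(z4,[y9,y1,y1,z1,y9,z9])],.ref k25 k0 [(z6,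
    [y9,z1,y1,z0,z0,z9]),(z24,[y9,y1,z7,z0,z0,z9]),(z12,[z9,z1,z1,z4,z0,y9]),(z4,[z9,z1,z1,z0,z12,y9]),(z8,[y9,y1,y1,
    z0,z0,z9])],.ref k25 k0 [(z3,[z36,z5,z4,z0,z36,y36]),(z3,[z9,z1,z2,z0,z9,y9]),(z3,[y18,y2,y2,z1,y18,z18]),(z1,
    [y18,y2,y2,z0,y15,z18]),(z1,[z9,z1,z1,z0,z9,y9])],.ref k25 k0 [(z3,[y18,y3,y4,y2,y36,z36]),(z6,[y9,y2,z0,y1,y18,
    z18]),(z3,[z9,z2,z2,z2,z18,y18]),(z1,[z9,z2,z2,z1,z21,y18]),(z2,[y9,y2,y2,y1,y18,z18])],.ref k25 k0 [(z9,[y18,y1,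
    y4,y4,y18,z36]),(z18,[y9,y2,z4,y2,y9,z18]),(z9,[z9,z2,z2,z5,z9,y18]),(z3,[z9,z2,z2,z2,z18,y18]),(z6,[y9,y2,y2,y2,
    y9,z18])],.ref k25 k0 [(z9,[z36,z11,z8,z8,z72,y72]),(z9,[z9,z2,z5,z2,z18,y18]),(z9,[y18,y4,y4,y1,y36,z36]),(z3,
    [y18,y4,y4,y4,y27,z36]),(z3,[z9,z2,z2,z2,z18,y18])]]]

theorem hB6_171_29 : blkB [0, 0, 0, 0, 0, 0] [] sp6 hS6_171 (pcls (n := 6) [0, 0, 0, 0, 0, 0]) hD6_171 560 29 hN6_171_29 = true := by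
  decide +kernel

/-- nodes 360 to 371 -/
noncomputable def hN6_171_30 : List HM :=
  [.lp k0 [(nat_lit 1258),(nat_lit 1248),(nat_lit 1326),(nat_lit 1334),(nat_lit 1314),(nat_lit 1196)] [k38,k38,k43,
    k43,k4,k4,k0,k0,k10,k10,k69,k69] k0 [[k0,k64,k32,k0,k18,k0,k0,k0,k0,k0,k0,k18],[k0,k0,k0,k0,k30,k0,k8,k24,k90,k0,
    k0,k86],[k0,k0,k0,k0,k18,k14,k0,k0,k0,k34,k0,k118],[k0,k32,k0,k0,k0,k0,k0,k0,k0,k0,k0,k42],[k0,k0,k0,k14,k0,k0,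
    k14,k0,k0,k0,k56,k24],[k30,k18,k0,k18,k0,k0,k0,k0,k0,k16,k0,k0],[k24,k0,k0,k0,k0,k0,k0,k28,k94,k134,k0,k0],[k8,k0,
    k0,k0,k0,k14,k0,k0,k0,k0,k70,k30],[k0,k0,k0,k34,k16,k0,k0,k134,k0,k0,k164,k0],[k90,k0,k0,k0,k0,k0,k0,k94,k0,k0,
    k164,k0],[k86,k18,k42,k118,k0,k24,k30,k0,k0,k0,k0,k0],[k0,k0,k0,k0,k0,k56,k70,k0,k164,k164,k0,
    k0]] (nat_lit 3840) k5
    [[(k11,(nat_lit 1063)),(k8,(nat_lit 1122)),(k9,(nat_lit 1216)),(k10,(nat_lit 1227)),(k4,(nat_lit 1236)),(k1,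
    (nat_lit 1258)),(k3,(nat_lit 1271)),(k2,(nat_lit 1295)),(k7,(nat_lit 1320)),(k6,(nat_lit 1326)),(k0,
    (nat_lit 1344)),(k5,(nat_lit 1410))],[(k0,(nat_lit 1194)),(k10,(nat_lit 1209)),(k11,(nat_lit 1227)),(k2,
    (nat_lit 1253)),(k3,(nat_lit 1253)),(k5,(nat_lit 1260)),(k7,(nat_lit 1278)),(k6,(nat_lit 1304)),(k9,
    (nat_lit 1310)),(k4,(nat_lit 1322)),(k1,(nat_lit 1344)),(k8,(nat_lit 1376))],[(k11,(nat_lit 1132)),(k10,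
    (nat_lit 1136)),(k0,(nat_lit 1253)),(k7,(nat_lit 1261)),(k6,(nat_lit 1267)),(k1,(nat_lit 1271)),(k9,
    (nat_lit 1273)),(k2,(nat_lit 1280)),(k8,(nat_lit 1281)),(k5,(nat_lit 1287)),(k4,(nat_lit 1305)),(k3,
    (nat_lit 1312))],[(k10,(nat_lit 1104)),(k11,(nat_lit 1222)),(k8,(nat_lit 1247)),(k2,(nat_lit 1248)),(k0,
    (nat_lit 1253)),(k4,(nat_lit 1273)),(k7,(nat_lit 1273)),(k3,(nat_lit 1280)),(k9,(nat_lit 1281)),(k5,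
    (nat_lit 1287)),(k6,(nat_lit 1291)),(k1,(nat_lit 1295))],[(k10,(nat_lit 1219)),(k0,(nat_lit 1260)),(k2,
    (nat_lit 1287)),(k3,(nat_lit 1287)),(k11,(nat_lit 1295)),(k8,(nat_lit 1320)),(k9,(nat_lit 1320)),(k5,
    (nat_lit 1326)),(k6,(nat_lit 1330)),(k4,(nat_lit 1344)),(k7,(nat_lit 1344)),(k1,(nat_lit 1410))],[(k1,
    (nat_lit 1236)),(k10,(nat_lit 1237)),(k2,(nat_lit 1273)),(k11,(nat_lit 1277)),(k3,(nat_lit 1305)),(k9,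
    (nat_lit 1306)),(k8,(nat_lit 1320)),(k0,(nat_lit 1322)),(k4,(nat_lit 1326)),(k6,(nat_lit 1330)),(k7,
    (nat_lit 1330)),(k5,(nat_lit 1344))],[(k3,(nat_lit 1261)),(k11,(nat_lit 1265)),(k2,(nat_lit 1273)),(k0,
    (nat_lit 1278)),(k8,(nat_lit 1308)),(k1,(nat_lit 1320)),(k10,(nat_lit 1321)),(k9,(nat_lit 1324)),(k4,
    (nat_lit 1330)),(k7,(nat_lit 1334)),(k5,(nat_lit 1344)),(k6,(nat_lit 1348))],[(k11,(nat_lit 1171)),(k8,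
    (nat_lit 1190)),(k3,(nat_lit 1267)),(k2,(nat_lit 1291)),(k0,(nat_lit 1304)),(k6,(nat_lit 1306)),(k9,
    (nat_lit 1324)),(k1,(nat_lit 1326)),(k4,(nat_lit 1330)),(k5,(nat_lit 1330)),(k10,(nat_lit 1335)),(k7,
    (nat_lit 1348))],[(k1,(nat_lit 1216)),(k10,(nat_lit 1225)),(k3,(nat_lit 1273)),(k2,(nat_lit 1281)),(k4,
    (nat_lit 1306)),(k0,(nat_lit 1310)),(k5,(nat_lit 1320)),(k6,(nat_lit 1324)),(k7,(nat_lit 1324)),(k9,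
    (nat_lit 1342)),(k11,(nat_lit 1389)),(k8,(nat_lit 1408))],[(k1,(nat_lit 1122)),(k6,(nat_lit 1190)),(k2,
    (nat_lit 1247)),(k11,(nat_lit 1255)),(k3,(nat_lit 1281)),(k7,(nat_lit 1308)),(k8,(nat_lit 1314)),(k4,
    (nat_lit 1320)),(k5,(nat_lit 1320)),(k0,(nat_lit 1376)),(k9,(nat_lit 1408)),(k10,(nat_lit 1419))],[(k1,
    (nat_lit 1063)),(k3,(nat_lit 1132)),(k6,(nat_lit 1171)),(k11,(nat_lit 1196)),(k2,(nat_lit 1222)),(k0,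
    (nat_lit 1227)),(k8,(nat_lit 1255)),(k7,(nat_lit 1265)),(k4,(nat_lit 1277)),(k5,(nat_lit 1295)),(k10,
    (nat_lit 1360)),(k9,(nat_lit 1389))],[(k2,(nat_lit 1104)),(k3,(nat_lit 1136)),(k10,(nat_lit 1196)),(k0,
    (nat_lit 1209)),(k5,(nat_lit 1219)),(k9,(nat_lit 1225)),(k1,(nat_lit 1227)),(k4,(nat_lit 1237)),(k7,
    (nat_lit 1321)),(k6,(nat_lit 1335)),(k11,(nat_lit 1360)),(k8,(nat_lit 1419))]]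
    [[k3,k0,k0,k0,k0,k0],[k2,k0,k0,k0,k1,k0],[k2,k0,k0,k0,k0,k1],[k2,k1,k0,k0,k0,k0],[k1,k2,k0,k0,k0,k0],[k1,k1,k0,k0,
    k0,k1],[k1,k1,k1,k0,k0,k0],[k1,k1,k0,k0,k1,k0],[k1,k0,k1,k0,k0,k1],[k1,k0,k0,k1,k0,k1],[k1,k0,k0,k1,k1,k0],[k1,k0,
    k1,k0,k1,k0],[k1,k0,k0,k0,k1,k1],[k1,k0,k0,k0,k0,k2],[k0,k2,k0,k1,k0,k0],[k0,k2,k0,k0,k1,k0],[k0,k2,k0,k0,k0,k1],
    [k0,k1,k1,k0,k0,k1],[k0,k1,k0,k1,k1,k0],[k0,k1,k0,k1,k0,k1],[k0,k1,k0,k0,k1,k1],[k0,k1,k0,k0,k0,k2],[k0,k0,k1,k1,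
    k0,k1],[k0,k0,k1,k0,k1,k1],[k0,k0,k1,k0,k0,k2],[k0,k0,k0,k1,k1,k1],[k0,k0,k0,k1,k0,k2],[k0,k0,k0,k0,k0,k3]]
    [.ref k25 k0 [(z1,[z1]),(z1,[z0,z0,z1]),(z1,[z0,z0,z0,z1]),(z4,[y3,z9,z0,z0,z4]),(z2,[y1,y3,y2,y2,y2,z6])],
    .ref k25 k0 [(z3,[z6,z3,z2,z2,z2,y6]),(z1,[z0,z0,z1]),(z1,[z0,z0,z0,z1]),(z2,[y3,z3,y1,y1,z1,z3]),(z3,[y3,y6,y4,
    y4,y4,z12])],.ref k25 k0 [(z3,[z4,z1]),(z1,[z0,z0,z1]),(z1,[z0,z0,z0,z1]),(z1,[y1,z2,z0,z0,z1]),(z3,[y2,y5,y3,y3,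
    y3,z9])],.ref k25 k0 [(z2,[z3,z0,y1]),(z1,[z0,z0,z1]),(z1,[z0,z0,z0,z1]),(z8,[y9,z18,z3,z0,z8]),(z4,[y3,y6,y3,y4,
    y4,z12])],.ref k25 k0 [(z1,[z3,z0,y2]),(z1,[z0,z0,z1]),(z1,[z0,z0,z0,z1]),(z4,[y9,z9,z6,z0,z4]),(z2,[y3,y3,z0,y2,
    y2,z6])],.ref k25 k0 [(z5,[z12,z3,y4]),(z1,[z0,z0,z1]),(z1,[z0,z0,z0,z1]),(z5,[y9,z9,z3,z0,z5]),(z5,[y6,y9,y3,y5,
    y5,z15])],.ref k25 k0 [(z1,[z3,z0,y1,y1]),(z1,[z0,z0,z1]),(z1,[z0,z0,z0,z1]),(z4,[y9,z9,z3,z3,z4]),(z2,[y3,y3,y1,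
    y1,y2,z6])],.ref k25 k0 [(z1,[z6,z3,z0,z2,z2,y6]),(z1,[z0,z0,z1]),(z1,[z0,z0,z0,z1]),(z2,[y9,z0,z0,y3,y1,z9]),(z1,
    [y3,y3,y1,y2,y2,z6])],.ref k25 k0 [(z5,[z12,z3,z0,y4]),(z1,[z0,z0,z1]),(z1,[z0,z0,z0,z1]),(z5,[y9,z9,z0,z3,z5]),
    (z5,[y6,y9,y5,y3,y5,z15])],.ref k25 k0 [(z1,[z6,y3,z0,z0,y2]),(z1,[z0,z0,z1]),(z1,[z0,z0,z0,z1]),(z2,[y9,z9,z0,z0,
    z5]),(z1,[y3,z0,y1,y1,z0,z3])],.ref k25 k0 [(z1,[y12,z3,y4,y4,z0,z12]),(z1,[z0,z0,z1]),(z1,[z0,z0,z0,z1]),(z1,[z9,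
    z0,z3,z3,z1,y9]),(z1,[z6,y3,z1,z1,y1,y3])],.ref k25 k0 [(z1,[z6,z3,z2,z0,z2,y6]),(z1,[z0,z0,z1]),(z1,[z0,z0,z0,
    z1]),(z2,[y9,z0,y3,z0,y1,z9]),(z1,[y3,y3,y2,y1,y2,z6])],.ref k25 k0 [(z3,[z12,z9,z4,z4,z4,y12]),(z1,[z0,z0,z1]),
    (z1,[z0,z0,z0,z1]),(z1,[y3,z0,y1,y1,z0,z3]),(z3,[y6,y9,y5,y5,y5,z15])],.ref k25 k0 [(z1,[z2,z1]),(z1,[z0,z0,z1]),
    (z1,[z0,z0,z0,z1]),(z2,[y3,z3,z0,z0,z2]),(z1,[y1,y2,y1,y1,y1,z3])],.ref k25 k0 [(z3,[y12,z9,z8,z0,z4]),(z1,[z0,z0,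
    z1]),(z1,[z0,z0,z0,z1]),(z1,[z3,z0,y2]),(z3,[z6,y9,y7,y3,y5,z9])],.ref k25 k0 [(z1,[y6,y3,z2,y2,y2,z6]),(z1,[z0,
    z0,z1]),(z1,[z0,z0,z0,z1]),(z2,[z9,z9,y3,z3,z5,y9]),(z1,[z3,z0,y2])],.ref k25 k0 [(z1,[z12,z3,y8]),(z1,[z0,z0,
    z1]),(z1,[z0,z0,z0,z1]),(z1,[y9,z0,z6,z0,z1]),(z1,[y6,y3,z3,y1,y1,z3])],.ref k25 k0 [(z1,[z12,z3,y4,y4]),(z1,[z0,
    z0,z1]),(z1,[z0,z0,z0,z1]),(z1,[y9,z0,z3,z3,z1]),(z1,[y6,y3,z1,z1,y1,z3])],.ref k25 k0 [(z5,[y12,z3,z0,y4,z0,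
    z12]),(z1,[z0,z0,z1]),(z1,[z0,z0,z0,z1]),(z5,[z9,z9,z0,z3,z5,y9]),(z5,[z6,y9,y5,y3,y5,z9])],.ref k25 k0 [(z1,[y6,
    z3,z2,z0,z2]),(z1,[z0,z0,z1]),(z1,[z0,z0,z0,z1]),(z2,[z9,z0,y3,z0,y1]),(z1,[z3,y3,y2,y1,y2,z3])],.ref k25 k0 [(z1,
    [y12,y9,z0,y4,y4,z12]),(z1,[z0,z0,z1]),(z1,[z0,z0,z0,z1]),(z1,[z9,z9,z0,z3,z4,y9]),(z1,[z6,z3,y1,z1,z1,y3])],
    .ref k25 k0 [(z1,[z6,z3,y2]),(z1,[z0,z0,z1]),(z1,[z0,z0,z0,z1]),(z2,[y9,z0,z3,z0,z2]),(z1,[y3,y3,z0,y1,y1,z3])],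
    .ref k25 k0 [(z1,[y6,z3,z0,z2,z2]),(z1,[z0,z0,z1]),(z1,[z0,z0,z0,z1]),(z2,[z9,z0,z0,y3,y1]),(z1,[z3,y3,y1,y2,y2,
    z3])],.ref k25 k0 [(z1,[y12,y9,y4,z0,y4,z12]),(z1,[z0,z0,z1]),(z1,[z0,z0,z0,z1]),(z1,[z9,z9,z3,z0,z4,y9]),(z1,[z6,
    z3,z1,y1,z1,y3])],.ref k25 k0 [(z1,[z6,z3,z0,y2]),(z1,[z0,z0,z1]),(z1,[z0,z0,z0,z1]),(z2,[y9,z0,z0,z3,z2]),(z1,
    [y3,y3,y1,z0,y1,z3])],.ref k25 k0 [(z1,[y3,z0,y1,y1,z0,z3]),(z1,[z0,z0,z1]),(z1,[z0,z0,z0,z1]),(z4,[z9,z9,z3,z3,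
    z4,y9]),(z2,[z3,y3,y1,y1,y2,z3])],.ref k25 k0 [(z1,[y12,z3,z0,z0,z4]),(z1,[z0,z0,z1]),(z1,[z0,z0,z0,z1]),(z1,[z9,
    z0,z0,z0,y2]),(z1,[z6,y3,y1,y1,y3,z3])],.ref k25 k0 [(z1,[z4,z3]),(z1,[z0,z0,z1]),(z1,[z0,z0,z0,z1]),(z1,[y3,z0,
    z0,z0,z1]),(z1,[y2,y3,y1,y1,y1,z3])]],
    .base (.leafM k0 [k2,k3,k4,k5,k0,k1] [(z3,[y3,y1,y1,z0,z3])] []),
    .base (.leafM k3 [k1,k2,k3,k4,k5,k0] [(z6,[y2,y1,z0,y1,z6])] []),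
    .lp k0 [(nat_lit 342),(nat_lit 316),(nat_lit 316),(nat_lit 328),(nat_lit 346),(nat_lit 268)] [k2,k2,k15,k15,k15,
    k15,k9,k9,k0,k0,k39,k39] k0 [[k0,k0,k4,k68,k48,k0,k0,k8,k10,k0,k0,k0],[k8,k0,k0,k0,k12,k0,k0,k0,k0,k0,k10,k18],
    [k0,k68,k0,k0,k0,k0,k56,k0,k0,k58,k58,k38],[k0,k4,k16,k0,k0,k0,k8,k0,k0,k0,k0,k0],[k0,k0,k0,k0,k0,k48,k28,k0,k0,
    k26,k10,k0],[k12,k48,k0,k0,k0,k0,k36,k0,k0,k58,k50,k0],[k0,k8,k0,k0,k0,k0,k0,k0,k2,k2,k0,k10],[k0,k0,k8,k56,k36,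
    k28,k0,k0,k0,k0,k0,k2],[k0,k0,k0,k58,k58,k26,k0,k2,k0,k0,k0,k0],[k0,k10,k0,k0,k0,k0,k0,k2,k0,k0,k0,k0],[k18,k0,k0,
    k38,k0,k0,k2,k10,k0,k0,k0,k8],[k10,k0,k0,k58,k50,k10,k0,k0,k0,k0,k0,k0]] (nat_lit 960) k5
    [[(k2,(nat_lit 271)),(k7,(nat_lit 285)),(k10,(nat_lit 305)),(k11,(nat_lit 305)),(k3,(nat_lit 319)),(k4,
    (nat_lit 319)),(k6,(nat_lit 337)),(k8,(nat_lit 344)),(k1,(nat_lit 350)),(k9,(nat_lit 354)),(k0,(nat_lit 360)),(k5,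
    (nat_lit 367))],[(k2,(nat_lit 261)),(k7,(nat_lit 287)),(k11,(nat_lit 295)),(k10,(nat_lit 315)),(k5,(nat_lit 325)),
    (k6,(nat_lit 327)),(k3,(nat_lit 329)),(k4,(nat_lit 341)),(k8,(nat_lit 344)),(k9,(nat_lit 344)),(k0,(nat_lit 350)),
    (k1,(nat_lit 360))],[(k10,(nat_lit 274)),(k11,(nat_lit 292)),(k3,(nat_lit 308)),(k7,(nat_lit 310)),(k1,
    (nat_lit 319)),(k2,(nat_lit 320)),(k6,(nat_lit 322)),(k0,(nat_lit 329)),(k9,(nat_lit 339)),(k8,(nat_lit 341)),(k4,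
    (nat_lit 364)),(k5,(nat_lit 384))],[(k10,(nat_lit 254)),(k0,(nat_lit 261)),(k1,(nat_lit 271)),(k8,(nat_lit 273)),
    (k9,(nat_lit 275)),(k11,(nat_lit 292)),(k4,(nat_lit 316)),(k5,(nat_lit 316)),(k3,(nat_lit 320)),(k7,
    (nat_lit 322)),(k6,(nat_lit 330)),(k2,(nat_lit 332))],[(k5,(nat_lit 300)),(k2,(nat_lit 316)),(k4,(nat_lit 316)),
    (k7,(nat_lit 322)),(k9,(nat_lit 323)),(k0,(nat_lit 325)),(k8,(nat_lit 331)),(k10,(nat_lit 350)),(k11,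
    (nat_lit 350)),(k1,(nat_lit 367)),(k6,(nat_lit 378)),(k3,(nat_lit 384))],[(k4,(nat_lit 268)),(k9,(nat_lit 303)),
    (k8,(nat_lit 305)),(k2,(nat_lit 316)),(k5,(nat_lit 316)),(k1,(nat_lit 319)),(k7,(nat_lit 322)),(k0,(nat_lit 341)),
    (k10,(nat_lit 342)),(k11,(nat_lit 350)),(k6,(nat_lit 358)),(k3,(nat_lit 364))],[(k8,(nat_lit 279)),(k1,
    (nat_lit 285)),(k0,(nat_lit 287)),(k9,(nat_lit 301)),(k10,(nat_lit 308)),(k3,(nat_lit 310)),(k2,(nat_lit 322)),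
    (k4,(nat_lit 322)),(k5,(nat_lit 322)),(k11,(nat_lit 324)),(k6,(nat_lit 356)),(k7,(nat_lit 376))],[(k10,
    (nat_lit 288)),(k11,(nat_lit 296)),(k3,(nat_lit 322)),(k0,(nat_lit 327)),(k6,(nat_lit 328)),(k2,(nat_lit 330)),
    (k8,(nat_lit 335)),(k1,(nat_lit 337)),(k9,(nat_lit 337)),(k7,(nat_lit 356)),(k4,(nat_lit 358)),(k5,
    (nat_lit 378))],[(k2,(nat_lit 275)),(k7,(nat_lit 301)),(k4,(nat_lit 303)),(k10,(nat_lit 305)),(k11,(nat_lit 309)),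
    (k5,(nat_lit 323)),(k6,(nat_lit 337)),(k3,(nat_lit 339)),(k0,(nat_lit 344)),(k9,(nat_lit 346)),(k8,(nat_lit 348)),
    (k1,(nat_lit 354))],[(k2,(nat_lit 273)),(k7,(nat_lit 279)),(k4,(nat_lit 305)),(k10,(nat_lit 307)),(k11,
    (nat_lit 307)),(k5,(nat_lit 331)),(k6,(nat_lit 335)),(k3,(nat_lit 341)),(k0,(nat_lit 344)),(k1,(nat_lit 344)),(k8,
    (nat_lit 346)),(k9,(nat_lit 348))],[(k10,(nat_lit 268)),(k11,(nat_lit 268)),(k2,(nat_lit 292)),(k3,(nat_lit 292)),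
    (k0,(nat_lit 295)),(k6,(nat_lit 296)),(k1,(nat_lit 305)),(k8,(nat_lit 307)),(k9,(nat_lit 309)),(k7,(nat_lit 324)),
    (k4,(nat_lit 350)),(k5,(nat_lit 350))],[(k2,(nat_lit 254)),(k10,(nat_lit 260)),(k11,(nat_lit 268)),(k3,
    (nat_lit 274)),(k6,(nat_lit 288)),(k1,(nat_lit 305)),(k9,(nat_lit 305)),(k8,(nat_lit 307)),(k7,(nat_lit 308)),(k0,
    (nat_lit 315)),(k4,(nat_lit 342)),(k5,(nat_lit 350))]]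
    [[k2,k1,k0,k0,k0,k0],[k1,k2,k0,k0,k0,k0],[k1,k1,k0,k1,k0,k0],[k1,k1,k0,k0,k1,k0],[k1,k1,k0,k0,k0,k1],[k1,k0,k0,k1,
    k0,k1],[k1,k0,k0,k2,k0,k0],[k1,k0,k0,k0,k1,k1],[k1,k0,k0,k0,k0,k2],[k0,k2,k0,k0,k1,k0],[k0,k2,k0,k0,k0,k1],[k0,k2,
    k1,k0,k0,k0],[k0,k1,k0,k1,k1,k0],[k0,k1,k0,k1,k0,k1],[k0,k1,k0,k0,k1,k1],[k0,k1,k1,k0,k0,k1],[k0,k1,k0,k0,k0,k2],
    [k0,k0,k3,k0,k0,k0],[k0,k0,k2,k0,k1,k0],[k0,k0,k0,k2,k1,k0],[k0,k0,k0,k1,k1,k1],[k0,k0,k0,k1,k0,k2],[k0,k0,k0,k0,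
    k1,k2],[k0,k0,k0,k0,k0,k3]]
    [.ref k25 k0 [(z14,[z15,z4,y15]),(z7,[z6,y4,z15]),(z7,[y3,z2,z3,z21]),(z7,[y12,z8,z12,z0,z21]),(z1,[z0,y1,y3,y3,
    y3,z3])],.ref k25 k0 [(z13,[z15,z8,y30]),(z13,[z12,y4,z15]),(z13,[y6,z2,z12,z39]),(z13,[y24,z8,z48,z0,z39]),(z1,
    [z0,y1,y3,y3,y3,z3])],.ref k25 k0 [(z1,[z15,y4,y15,z0,y15]),(z1,[z12,y4,y9,z0,y12]),(z1,[y6,z2,z6,z3,z6]),(z1,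
    [y24,z8,z24,z0,z27]),(z1,[z0,y1,y3,y3,y3,z3])],.ref k25 k0 [(z3,[z5,z3,z0,z5,z5,y5]),(z3,[z4,z0,z9,z4,z4,y4]),(z3,
    [y2,z0,z0,z7,y2,z2]),(z3,[y8,z0,z0,y8,z1,z8]),(z1,[z0,y1,y3,y3,y3,z3])],.ref k25 k0 [(z2,[z3,z1,y3]),(z5,[z6,y2,
    z9]),(z5,[y3,z1,z3,z15]),(z5,[y12,z4,z12,z0,z15]),(z1,[z0,y1,y3,y3,y3,z3])],.ref k25 k0 [(z2,[y15,z7,z0,z0,z15]),
    (z1,[y6,z2,z3,z0,z6]),(z1,[z3,y1,z0,z3,y3]),(z1,[z12,y4,z0,z0,y9]),(z1,[z0,y1,y3,y3,y3,z3])],.ref k25 k0 [(z11,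
    [y15,z16,z0,z0,z30]),(z11,[y12,z4,z33,z0,z24]),(z11,[z6,y2,z0,z33,y12]),(z11,[z24,y8,z0,z0,y15]),(z1,[z0,y1,y3,y3,
    y3,z3])],.ref k25 k0 [(z2,[z5,z2,z5,z5,z5,y5]),(z1,[z2,z0,z5,z2,z2,y2]),(z1,[y1,z0,y1,z2,y1,z1]),(z1,[y4,z0,y4,y4,
    y1,z4]),(z1,[z0,y1,y3,y3,y3,z3])],.ref k25 k0 [(z7,[z15,z2]),(z7,[z12,y4,z21]),(z7,[y6,z2,z0,z21]),(z7,[y24,z8,z0,
    z0,z21]),(z1,[z0,y1,y3,y3,y3,z3])],.ref k25 k0 [(z8,[z15,z13,y15,z15,z15,y15]),(z2,[z3,z1,z3,z3,z3,y3]),(z4,[y3,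
    y1,z3,z9,y3,z3]),(z1,[y3,y1,z3,y3,z0,z3]),(z1,[z0,y1,y3,y3,y3,z3])],.ref k25 k0 [(z3,[z5,z3,y10]),(z3,[z4,z0,z1]),
    (z3,[y2,z0,z4,z9]),(z3,[y8,z0,z16,z0,z9]),(z1,[z0,y1,y3,y3,y3,z3])],.ref k25 k0 [(z2,[z5,z2,y10,y5]),(z1,[z2,z0,
    y1,y2]),(z1,[y1,z0,z2,z4]),(z1,[y4,z0,z8,z4,z3]),(z1,[z0,y1,y3,y3,y3,z3])],.ref k25 k0 [(z4,[y15,y1,z0,y15,z0,
    z15]),(z1,[y3,y1,z3,y3,z0,z3]),(z2,[z3,z1,z0,z9,z0,y3]),(z1,[z6,z2,z0,z6,z3,y6]),(z1,[z0,y1,y3,y3,y3,z3])],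
    .ref k25 k0 [(z1,[y5,z1,z5,z0,z5]),(z1,[y4,z0,z7,z0,z4]),(z1,[z2,z0,y2,z3,y2]),(z1,[z8,z0,y8,z0,y5]),(z1,[z0,y1,
    y3,y3,y3,z3])],.ref k25 k0 [(z1,[z3,z2,z0,z3,z3,y3]),(z5,[z12,z4,z15,z12,z12,y12]),(z5,[y6,y2,z0,z9,y6,z6]),(z5,
    [y24,y8,z0,y24,y9,z24]),(z1,[z0,y1,y3,y3,y3,z3])],.ref k25 k0 [(z1,[z5,z1,y5,y5]),(z1,[z4,z0,y1,y4]),(z1,[y2,z0,
    z2,z5]),(z1,[y8,z0,z8,z8,z3]),(z1,[z0,y1,y3,y3,y3,z3])],.ref k25 k0 [(z2,[z5,z2,y5]),(z1,[z2,z0,z1]),(z1,[y1,z0,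
    z1,z3]),(z1,[y4,z0,z4,z0,z3]),(z1,[z0,y1,y3,y3,y3,z3])],.ref k25 k0 [(z2,[y5,z2,z0,z15]),(z1,[y2,z0,z3,z6]),(z1,
    [z1]),(z1,[z4,z0,z0,y12,z3]),(z1,[z0,y1,y3,y3,y3,z3])],.ref k25 k0 [(z4,[y15,y1,y15,z15,y15,z15]),(z1,[y3,y1,z0,
    z3,y3,z3]),(z2,[z3,z1,z3,z3,z3,y3]),(z1,[z6,z2,z6,y6,z9,y6]),(z1,[z0,y1,y3,y3,y3,z3])],.ref k25 k0 [(z16,[y15,z11,
    y15,y15,z15,z15]),(z4,[y3,y1,z9,y3,z3,z3]),(z8,[z3,z1,z3,z27,y3,y3]),(z2,[z3,z1,z3,z3,z3,y3]),(z1,[z0,y1,y3,y3,y3,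
    z3])],.ref k25 k0 [(z7,[y15,z2,y15,y15,z0,z15]),(z7,[y12,y4,z9,y12,z0,z12]),(z7,[z6,z2,z6,z27,z0,y6]),(z7,[z24,z8,
    z24,z24,z21,y24]),(z1,[z0,y1,y3,y3,y3,z3])],.ref k25 k0 [(z2,[y5,z2,z0,z0,z5]),(z1,[y2,z0,z3,z0,z2]),(z1,[z1,z0,
    z0,z3,y1]),(z1,[z4,z0,z0,z0,y1]),(z1,[z0,y1,y3,y3,y3,z3])],.ref k25 k0 [(z2,[z15,z7,z15,z15,z15,y15]),(z1,[z6,z2,
    z9,z6,z6,y6]),(z1,[y3,y1,y3,z0,y3,z3]),(z1,[y12,y4,y12,y12,y9,z12]),(z1,[z0,y1,y3,y3,y3,z3])],.ref k25 k0 [(z1,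
    [z5,z1]),(z1,[z4,z0,z3]),(z1,[y2,z0,z0,z3]),(z1,[y8,z0,z0,z0,z3]),(z1,[z0,y1,y3,y3,y3,z3])]],
    .lp k0 [(nat_lit 1258),(nat_lit 1248),(nat_lit 1326),(nat_lit 1334),(nat_lit 1314),(nat_lit 1196)] [k38,k38,k43,
    k43,k4,k4,k0,k0,k10,k10,k69,k69] k0 [[k0,k64,k32,k0,k18,k0,k0,k0,k0,k0,k0,k18],[k0,k0,k0,k0,k30,k0,k8,k24,k90,k0,
    k0,k86],[k0,k0,k0,k0,k18,k14,k0,k0,k0,k34,k0,k118],[k0,k32,k0,k0,k0,k0,k0,k0,k0,k0,k0,k42],[k0,k0,k0,k14,k0,k0,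
    k14,k0,k0,k0,k56,k24],[k30,k18,k0,k18,k0,k0,k0,k0,k0,k16,k0,k0],[k24,k0,k0,k0,k0,k0,k0,k28,k94,k134,k0,k0],[k8,k0,
    k0,k0,k0,k14,k0,k0,k0,k0,k70,k30],[k0,k0,k0,k34,k16,k0,k0,k134,k0,k0,k164,k0],[k90,k0,k0,k0,k0,k0,k0,k94,k0,k0,
    k164,k0],[k86,k18,k42,k118,k0,k24,k30,k0,k0,k0,k0,k0],[k0,k0,k0,k0,k0,k56,k70,k0,k164,k164,k0,
    k0]] (nat_lit 3840) k5
    [[(k11,(nat_lit 1063)),(k8,(nat_lit 1122)),(k9,(nat_lit 1216)),(k10,(nat_lit 1227)),(k4,(nat_lit 1236)),(k1,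
    (nat_lit 1258)),(k3,(nat_lit 1271)),(k2,(nat_lit 1295)),(k7,(nat_lit 1320)),(k6,(nat_lit 1326)),(k0,
    (nat_lit 1344)),(k5,(nat_lit 1410))],[(k0,(nat_lit 1194)),(k10,(nat_lit 1209)),(k11,(nat_lit 1227)),(k2,
    (nat_lit 1253)),(k3,(nat_lit 1253)),(k5,(nat_lit 1260)),(k7,(nat_lit 1278)),(k6,(nat_lit 1304)),(k9,
    (nat_lit 1310)),(k4,(nat_lit 1322)),(k1,(nat_lit 1344)),(k8,(nat_lit 1376))],[(k11,(nat_lit 1132)),(k10,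
    (nat_lit 1136)),(k0,(nat_lit 1253)),(k7,(nat_lit 1261)),(k6,(nat_lit 1267)),(k1,(nat_lit 1271)),(k9,
    (nat_lit 1273)),(k2,(nat_lit 1280)),(k8,(nat_lit 1281)),(k5,(nat_lit 1287)),(k4,(nat_lit 1305)),(k3,
    (nat_lit 1312))],[(k10,(nat_lit 1104)),(k11,(nat_lit 1222)),(k8,(nat_lit 1247)),(k2,(nat_lit 1248)),(k0,
    (nat_lit 1253)),(k4,(nat_lit 1273)),(k7,(nat_lit 1273)),(k3,(nat_lit 1280)),(k9,(nat_lit 1281)),(k5,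
    (nat_lit 1287)),(k6,(nat_lit 1291)),(k1,(nat_lit 1295))],[(k10,(nat_lit 1219)),(k0,(nat_lit 1260)),(k2,
    (nat_lit 1287)),(k3,(nat_lit 1287)),(k11,(nat_lit 1295)),(k8,(nat_lit 1320)),(k9,(nat_lit 1320)),(k5,
    (nat_lit 1326)),(k6,(nat_lit 1330)),(k4,(nat_lit 1344)),(k7,(nat_lit 1344)),(k1,(nat_lit 1410))],[(k1,
    (nat_lit 1236)),(k10,(nat_lit 1237)),(k2,(nat_lit 1273)),(k11,(nat_lit 1277)),(k3,(nat_lit 1305)),(k9,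
    (nat_lit 1306)),(k8,(nat_lit 1320)),(k0,(nat_lit 1322)),(k4,(nat_lit 1326)),(k6,(nat_lit 1330)),(k7,
    (nat_lit 1330)),(k5,(nat_lit 1344))],[(k3,(nat_lit 1261)),(k11,(nat_lit 1265)),(k2,(nat_lit 1273)),(k0,
    (nat_lit 1278)),(k8,(nat_lit 1308)),(k1,(nat_lit 1320)),(k10,(nat_lit 1321)),(k9,(nat_lit 1324)),(k4,
    (nat_lit 1330)),(k7,(nat_lit 1334)),(k5,(nat_lit 1344)),(k6,(nat_lit 1348))],[(k11,(nat_lit 1171)),(k8,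
    (nat_lit 1190)),(k3,(nat_lit 1267)),(k2,(nat_lit 1291)),(k0,(nat_lit 1304)),(k6,(nat_lit 1306)),(k9,
    (nat_lit 1324)),(k1,(nat_lit 1326)),(k4,(nat_lit 1330)),(k5,(nat_lit 1330)),(k10,(nat_lit 1335)),(k7,
    (nat_lit 1348))],[(k1,(nat_lit 1216)),(k10,(nat_lit 1225)),(k3,(nat_lit 1273)),(k2,(nat_lit 1281)),(k4,
    (nat_lit 1306)),(k0,(nat_lit 1310)),(k5,(nat_lit 1320)),(k6,(nat_lit 1324)),(k7,(nat_lit 1324)),(k9,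
    (nat_lit 1342)),(k11,(nat_lit 1389)),(k8,(nat_lit 1408))],[(k1,(nat_lit 1122)),(k6,(nat_lit 1190)),(k2,
    (nat_lit 1247)),(k11,(nat_lit 1255)),(k3,(nat_lit 1281)),(k7,(nat_lit 1308)),(k8,(nat_lit 1314)),(k4,
    (nat_lit 1320)),(k5,(nat_lit 1320)),(k0,(nat_lit 1376)),(k9,(nat_lit 1408)),(k10,(nat_lit 1419))],[(k1,
    (nat_lit 1063)),(k3,(nat_lit 1132)),(k6,(nat_lit 1171)),(k11,(nat_lit 1196)),(k2,(nat_lit 1222)),(k0,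
    (nat_lit 1227)),(k8,(nat_lit 1255)),(k7,(nat_lit 1265)),(k4,(nat_lit 1277)),(k5,(nat_lit 1295)),(k10,
    (nat_lit 1360)),(k9,(nat_lit 1389))],[(k2,(nat_lit 1104)),(k3,(nat_lit 1136)),(k10,(nat_lit 1196)),(k0,
    (nat_lit 1209)),(k5,(nat_lit 1219)),(k9,(nat_lit 1225)),(k1,(nat_lit 1227)),(k4,(nat_lit 1237)),(k7,
    (nat_lit 1321)),(k6,(nat_lit 1335)),(k11,(nat_lit 1360)),(k8,(nat_lit 1419))]]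
    [[k3,k0,k0,k0,k0,k0],[k2,k0,k0,k0,k1,k0],[k2,k0,k0,k0,k0,k1],[k2,k1,k0,k0,k0,k0],[k1,k2,k0,k0,k0,k0],[k1,k1,k0,k0,
    k0,k1],[k1,k1,k1,k0,k0,k0],[k1,k1,k0,k0,k1,k0],[k1,k0,k1,k0,k0,k1],[k1,k0,k0,k1,k0,k1],[k1,k0,k0,k1,k1,k0],[k1,k0,
    k1,k0,k1,k0],[k1,k0,k0,k0,k1,k1],[k1,k0,k0,k0,k0,k2],[k0,k2,k0,k1,k0,k0],[k0,k2,k0,k0,k1,k0],[k0,k2,k0,k0,k0,k1],
    [k0,k1,k1,k0,k0,k1],[k0,k1,k0,k1,k1,k0],[k0,k1,k0,k1,k0,k1],[k0,k1,k0,k0,k1,k1],[k0,k1,k0,k0,k0,k2],[k0,k0,k1,k1,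
    k0,k1],[k0,k0,k1,k0,k1,k1],[k0,k0,k1,k0,k0,k2],[k0,k0,k0,k1,k1,k1],[k0,k0,k0,k1,k0,k2],[k0,k0,k0,k0,k0,k3]]
    [.ref k25 k0 [(z1,[z1]),(z1,[z0,z0,z1]),(z2,[y3,z9,z0,z2]),(z4,[z3,y9,z0,z0,z4]),(z2,[y1,y3,y2,y2,y2,z6])],
    .ref k25 k0 [(z3,[z6,z3,z2,z2,z2,y6]),(z1,[z0,z0,z1]),(z1,[y3,z3,y1,z0,y1,z3]),(z2,[z3,y3,z1,z1,z3,y3]),(z3,[y3,
    y6,y4,y4,y4,z12])],.ref k25 k0 [(z3,[z4,z1]),(z1,[z0,z0,z1]),(z1,[y2,z4,z0,z1]),(z1,[z1,y2,z0,z0,z1]),(z3,[y2,y5,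
    y3,y3,y3,z9])],.ref k25 k0 [(z2,[z3,z0,y1]),(z1,[z0,z0,z1]),(z4,[y9,z18,z3,z4]),(z8,[z9,y18,y3,z0,z8]),(z4,[y3,y6,
    y3,y4,y4,z12])],.ref k25 k0 [(z1,[z3,z0,y2]),(z1,[z0,z0,z1]),(z2,[y9,z9,z6,z2]),(z4,[z9,y9,y6,z0,z4]),(z2,[y3,y3,
    z0,y2,y2,z6])],.ref k25 k0 [(z5,[z12,z3,y4]),(z1,[z0,z0,z1]),(z5,[y18,z18,z6,z5]),(z5,[z9,y9,y3,z0,z5]),(z5,[y6,
    y9,y3,y5,y5,z15])],.ref k25 k0 [(z1,[y6,z9,z2,z2]),(z1,[z0,z0,z1]),(z1,[z9,y9,y3,y2]),(z2,[y9,z9,z3,z3,z2]),(z1,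
    [z3,y6,y2,y2,y1,z3])],.ref k25 k0 [(z1,[z6,z3,z0,z2,z2,y6]),(z1,[z0,z0,z1]),(z1,[y9,z0,z0,y2,y3,z9]),(z2,[z9,z0,
    z0,z3,z5,y9]),(z1,[y3,y3,y1,y2,y2,z6])],.ref k25 k0 [(z1,[y12,z15,z0,z4]),(z1,[z0,z0,z1]),(z1,[z18,y18,z0,y5]),
    (z1,[y9,z9,z0,z3,z1]),(z1,[z6,y9,y1,y3,y1,z3])],.ref k25 k0 [(z2,[z3,z3,z0,z0,y1]),(z1,[z0,z0,z1]),(z4,[y9,z9,z0,
    z4,z3]),(z8,[z9,y9,z0,z0,z5]),(z4,[y3,y9,y4,y4,y3,z12])],.ref k25 k0 [(z5,[z12,z15,z4,z4,z0,y12]),(z1,[z0,z0,z1]),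
    (z5,[y18,z0,y6,y1,z0,z18]),(z5,[z9,z0,z3,z3,z5,y9]),(z5,[y6,y15,y7,y7,y5,z21])],.ref k25 k0 [(z1,[y3,z3,y1,z0,y1,
    z3]),(z1,[z0,z0,z1]),(z2,[z9,z0,z3,z2,z3,y9]),(z4,[y9,z0,y3,z0,z1,z9]),(z2,[z3,y6,y1,y2,y1,z3])],.ref k25 k0 [(z3,
    [z12,z9,z4,z4,z4,y12]),(z1,[z0,z0,z1]),(z1,[y6,z0,y2,y1,y2,z6]),(z1,[z3,z0,z1,z1,z2,y3]),(z3,[y6,y9,y5,y5,y5,
    z15])],.ref k25 k0 [(z1,[z2,z1]),(z1,[z0,z0,z1]),(z1,[y3,z3,z0,z1]),(z2,[z3,y3,z0,z0,z2]),(z1,[y1,y2,y1,y1,y1,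
    z3])],.ref k25 k0 [(z3,[z12,z9,y8,z0,y4]),(z1,[z0,z0,z1]),(z1,[y6,z0,z4,z1,z2]),(z1,[z3,z0,y2]),(z3,[y6,y9,z1,y3,
    y1,z9])],.ref k25 k0 [(z1,[y6,y3,z2,y2,y2,z6]),(z1,[z0,z0,z1]),(z1,[z9,z9,y3,z4,z3,y9]),(z2,[y9,y9,z3,y3,y1,z9]),
    (z1,[z3,z0,y2])],.ref k25 k0 [(z1,[z12,z3,y8]),(z1,[z0,z0,z1]),(z1,[y18,z0,z12,z1]),(z1,[z9,z0,y6,z0,z1]),(z1,[y6,
    y3,z3,y1,y1,z3])],.ref k25 k0 [(z5,[y12,z15,z4,z4]),(z1,[z0,z0,z1]),(z5,[z18,z0,y6,y1]),(z5,[y9,z0,z3,z3,z5]),(z5,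
    [z6,y15,y7,y7,y5,z15])],.ref k25 k0 [(z1,[z12,z15,z0,z4,z0,y12]),(z1,[z0,z0,z1]),(z1,[y18,y18,z0,y5,z0,z18]),(z1,
    [z9,z9,z0,z3,z1,y9]),(z1,[y6,y9,y1,y3,y1,z9])],.ref k25 k0 [(z1,[z3,z3,y1,z0,y1]),(z1,[z0,z0,z1]),(z2,[y9,z0,z3,
    z2,z3]),(z4,[z9,z0,y3,z0,z1]),(z2,[y3,y6,y1,y2,y1,z6])],.ref k25 k0 [(z1,[y12,y9,z0,y4,y4,z12]),(z1,[z0,z0,z1]),
    (z1,[z18,z18,z0,z7,z6,y18]),(z1,[y9,y9,z0,y3,y2,z9]),(z1,[z6,z3,y1,z1,z1,y3])],.ref k25 k0 [(z1,[z6,z3,y2]),(z1,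
    [z0,z0,z1]),(z1,[y9,z0,z3,z1]),(z2,[z9,z0,y3,z0,z2]),(z1,[y3,y3,z0,y1,y1,z3])],.ref k25 k0 [(z1,[y6,z3,z0,z2,z2]),
    (z1,[z0,z0,z1]),(z1,[z9,z0,z0,y2,y3]),(z2,[y9,z0,z0,z3,z5]),(z1,[z3,y3,y1,y2,y2,z3])],.ref k25 k0 [(z7,[y12,z9,y4,
    z0,y4,z12]),(z1,[z0,z0,z1]),(z7,[z18,z18,z6,z7,z6,y18]),(z7,[y9,y9,y3,z0,z4,z9]),(z7,[z6,y15,y5,y7,y5,z15])],
    .ref k25 k0 [(z1,[y3,z3,z0,z1]),(z1,[z0,z0,z1]),(z2,[z9,z0,z0,y1]),(z4,[y9,z0,z0,z3,z4]),(z2,[z3,y6,y2,y3,y2,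
    z6])],.ref k25 k0 [(z1,[z6,z9,z2,z2,z0,y6]),(z1,[z0,z0,z1]),(z1,[y9,y9,y3,y2,z0,z9]),(z2,[z9,z9,z3,z3,z2,y9]),(z1,
    [y3,y6,y2,y2,y1,z6])],.ref k25 k0 [(z5,[z12,z15,z0,z0,y4]),(z1,[z0,z0,z1]),(z5,[y18,z0,z0,z5,z6]),(z5,[z9,z0,z0,
    z0,z2]),(z5,[y6,y15,y5,y5,y3,z15])],.ref k25 k0 [(z1,[z4,z3]),(z1,[z0,z0,z1]),(z1,[y6,z0,z0,z1]),(z1,[z3,z0,z0,z0,
    z1]),(z1,[y2,y3,y1,y1,y1,z3])]],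
    .lp k0 [k164,k142,k170,k168,k152,k162] [k3,k3,k14,k14,k0,k0,k1,k1,k9,k9,k4,k4] k0 [[k0,k34,k18,k0,k0,k0,k0,k0,k0,
    k16,k16,k0],[k0,k0,k0,k0,k4,k0,k2,k0,k0,k8,k0,k0],[k0,k0,k0,k0,k0,k0,k4,k0,k0,k6,k12,k0],[k0,k18,k2,k0,k0,k0,k0,
    k0,k0,k0,k6,k0],[k0,k0,k0,k0,k0,k0,k2,k0,k22,k0,k0,k18],[k4,k0,k0,k0,k0,k0,k4,k0,k0,k0,k0,k22],[k0,k0,k0,k0,k0,k0,
    k0,k26,k14,k6,k0,k14],[k2,k0,k0,k4,k4,k2,k0,k0,k0,k0,k0,k0],[k8,k16,k0,k6,k0,k0,k0,k6,k0,k0,k0,k6],[k0,k0,k0,k0,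
    k0,k22,k0,k14,k8,k0,k0,k2],[k0,k0,k0,k0,k22,k18,k0,k14,k2,k6,k0,k0],[k0,k16,k6,k12,k0,k0,k0,k0,k0,k0,k4,
    k0]] (nat_lit 480) k5
    [[(k2,k141),(k0,k148),(k3,k153),(k1,k160),(k8,k160),(k5,k161),(k10,k163),(k6,k166),(k11,k169),(k9,k172),(k7,k184),
    (k4,k189)],[(k0,k130),(k8,k142),(k1,k148),(k5,k149),(k2,k153),(k3,k153),(k9,k158),(k10,k163),(k7,k166),(k6,k168),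
    (k4,k171),(k11,k171)],[(k8,k139),(k9,k145),(k7,k151),(k0,k153),(k1,k153),(k6,k155),(k4,k156),(k5,k156),(k2,k160),
    (k10,k168),(k11,k168),(k3,k176)],[(k1,k141),(k8,k141),(k9,k143),(k2,k144),(k11,k152),(k0,k153),(k6,k155),(k7,
    k155),(k4,k156),(k5,k156),(k10,k158),(k3,k160)],[(k0,k149),(k2,k156),(k3,k156),(k1,k161),(k8,k161),(k9,k161),(k5,
    k168),(k7,k169),(k4,k170),(k11,k172),(k6,k173),(k10,k178)],[(k11,k144),(k10,k148),(k2,k156),(k3,k156),(k9,k159),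
    (k8,k161),(k7,k169),(k4,k170),(k5,k170),(k0,k171),(k6,k173),(k1,k189)],[(k10,k143),(k3,k151),(k2,k155),(k9,k156),
    (k11,k165),(k0,k166),(k7,k168),(k4,k169),(k5,k169),(k6,k170),(k8,k182),(k1,k184)],[(k6,k142),(k10,k151),(k11,
    k151),(k8,k154),(k2,k155),(k3,k155),(k9,k160),(k1,k166),(k0,k168),(k7,k170),(k4,k173),(k5,k173)],[(k2,k143),(k3,
    k145),(k7,k156),(k10,k157),(k0,k158),(k4,k159),(k6,k160),(k5,k161),(k11,k163),(k8,k166),(k1,k172),(k9,k178)],[(k3,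
    k139),(k2,k141),(k0,k142),(k10,k151),(k6,k154),(k11,k157),(k1,k160),(k8,k160),(k4,k161),(k5,k161),(k9,k166),(k7,
    k182)],[(k4,k144),(k6,k151),(k2,k152),(k11,k154),(k8,k157),(k10,k160),(k9,k163),(k7,k165),(k3,k168),(k1,k169),(k0,
    k171),(k5,k172)],[(k7,k143),(k4,k148),(k6,k151),(k8,k151),(k9,k157),(k2,k158),(k11,k160),(k0,k163),(k1,k163),(k10,
    k166),(k3,k168),(k5,k178)]]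
    [[k3,k0,k0,k0,k0,k0],[k2,k1,k0,k0,k0,k0],[k2,k0,k0,k0,k1,k0],[k1,k2,k0,k0,k0,k0],[k1,k1,k1,k0,k0,k0],[k1,k1,k0,k1,
    k0,k0],[k1,k1,k0,k0,k1,k0],[k1,k1,k0,k0,k0,k1],[k1,k0,k1,k0,k1,k0],[k1,k0,k1,k0,k0,k1],[k1,k0,k0,k1,k1,k0],[k2,k0,
    k0,k0,k0,k1],[k1,k0,k0,k0,k1,k1],[k0,k2,k1,k0,k0,k0],[k0,k2,k0,k1,k0,k0],[k0,k2,k0,k0,k1,k0],[k0,k1,k1,k0,k1,k0],
    [k0,k1,k1,k0,k0,k1],[k0,k1,k0,k2,k0,k0],[k0,k1,k0,k1,k1,k0],[k0,k1,k0,k1,k0,k1],[k0,k1,k0,k0,k2,k0],[k0,k1,k0,k0,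
    k1,k1],[k0,k0,k2,k0,k0,k1],[k0,k0,k1,k1,k0,k1],[k0,k0,k1,k0,k1,k1],[k0,k0,k0,k2,k0,k1],[k0,k0,k0,k1,k2,k0],[k0,k0,
    k0,k1,k1,k1],[k0,k0,k0,k1,k0,k2],[k0,k0,k0,k0,k1,k2]]
    [.ref k25 k0 [(z1,[z1]),(z1,[z0,z0,z1]),(z3,[y4,z2,z0,z9]),(z6,[y2,z1,z0,z0,z9]),(z3,[z2,y1])],.ref k25 k0 [(z2,
    [z3,z0,y1]),(z1,[z0,z0,z1]),(z3,[y6,z2,z2,z9]),(z6,[y3,z1,z1,z0,z9]),(z3,[z3,y1,y1])],.ref k25 k0 [(z8,[z9,z1]),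
    (z1,[z0,z0,z1]),(z2,[y3,z1,z0,z6]),(z8,[y3,z1,z0,z0,z12]),(z4,[z3,y1])],.ref k25 k0 [(z1,[z3,z0,y2]),(z1,[z0,z0,
    z1]),(z3,[y12,z2,z8,z9]),(z6,[y6,z1,z4,z0,z9]),(z3,[z6,y1,y4])],.ref k25 k0 [(z1,[y9,z2,z3,z9]),(z1,[z0,z0,z1]),
    (z1,[z12,y2,y4,y9]),(z2,[z6,y1,y2,y6,z3]),(z1,[y6,z1,z2,z6])],.ref k25 k0 [(z4,[z18,y1,y6,z0,y9]),(z1,[z0,z0,z1]),
    (z1,[y6,z1,z2,z3,z3]),(z4,[y6,z1,z2,z0,z9]),(z2,[z6,y1,y2,z0,y3])],.ref k25 k0 [(z5,[z9,z1,y3]),(z1,[z0,z0,z1]),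
    (z5,[y12,z2,z4,z15]),(z10,[y6,z1,z2,z0,z15]),(z5,[z6,y1,y2])],.ref k25 k0 [(z2,[z6,z1,z0,z6,z3,y6]),(z1,[z0,z0,
    z1]),(z1,[y4,z0,z0,y1,y2,z4]),(z1,[y1,z0,z0,y1,z1,z1]),(z1,[z2,z0,z0,z2,z1,y2])],.ref k25 k0 [(z1,[z9,y1,z0,y9]),
    (z1,[z0,z0,z1]),(z1,[y12,z2,z0,z15]),(z2,[y6,z1,z0,z6,z3]),(z1,[z6,y1,z0,y6])],.ref k25 k0 [(z2,[y18,z1,y6,z0,y9,
    z18]),(z1,[z0,z0,z1]),(z1,[z12,z0,z4,z3,z6,y12]),(z1,[z3,z0,z1,z0,z3,y3]),(z1,[y6,z0,y2,z0,y3,z6])],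
    .ref k25 k0 [(z8,[z18,z1,z0,z0,y9]),(z1,[z0,z0,z1]),(z2,[y6,z1,z0,z6,z3]),(z8,[y6,z1,z0,z0,z15]),(z4,[z6,y1,z0,z0,
    y3])],.ref k25 k0 [(z4,[z6,z1,z2,z6,z3,y6]),(z1,[z0,z0,z1]),(z3,[y6,z1,y2,z3,y3,z6]),(z12,[y6,z1,y2,y6,z15,z6]),
    (z6,[z6,y1,z2,z6,z3,y6])],.ref k25 k0 [(z10,[z18,z5,z6,z18,z9,y18]),(z1,[z0,z0,z1]),(z5,[y12,z0,y4,z3,y6,z12]),
    (z5,[y3,z0,y1,y3,z6,z3]),(z5,[z6,z0,z2,z6,z3,y6])],.ref k25 k0 [(z4,[y9,z2,z6,z9]),(z1,[z0,z0,z1]),(z1,[z3,z0,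
    y2]),(z4,[z3,z0,y2,y3,z6]),(z2,[y3,z0,z2,z3])],.ref k25 k0 [(z2,[y18,z1,z12,z0,z9]),(z1,[z0,z0,z1]),(z1,[z12,z0,
    y8,z3,y6]),(z1,[z3,z0,y2]),(z1,[y6,z0,z4,z0,z3])],.ref k25 k0 [(z2,[z9,z1,y6]),(z1,[z0,z0,z1]),(z1,[y6,z0,z4,z3]),
    (z2,[y3,z0,z2,z0,z3]),(z1,[z3,z0,y2])],.ref k25 k0 [(z2,[y9,z1,z3,z9]),(z1,[z0,z0,z1]),(z1,[z6,z0,y2,y3]),(z2,[z3,
    z0,y1,y3,z3]),(z1,[y3,z0,z1,z3])],.ref k25 k0 [(z8,[y18,z1,z0,z0,y9,z18]),(z1,[z0,z0,z1]),(z2,[z6,z1,z0,z6,z3,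
    y6]),(z8,[z6,z1,z0,z0,z15,y6]),(z4,[y6,y1,z0,z0,y3,z6])],.ref k25 k0 [(z2,[y9,z1,z3,z0,z9]),(z1,[z0,z0,z1]),(z1,
    [z6,z0,y2,z3,y6]),(z2,[z3,z0,y1]),(z1,[y3,z0,z1,z0,z3])],.ref k25 k0 [(z2,[z18,z1,y6,z0,y9]),(z1,[z0,z0,z1]),(z1,
    [y12,z0,z4,z3,z6]),(z1,[y3,z0,z1,z0,z3]),(z1,[z6,z0,y2,z0,y3])],.ref k25 k0 [(z1,[y9,y1,z0,y9,z0,z9]),(z1,[z0,z0,
    z1]),(z1,[z12,z2,z0,z15,z0,y12]),(z2,[z6,z1,z0,z6,z3,y6]),(z1,[y6,y1,z0,y6,z0,z6])],.ref k25 k0 [(z4,[z9,z2,y3]),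
    (z1,[z0,z0,z1]),(z1,[y3,z0,z1,z3]),(z4,[y3,z0,z1,z0,z6]),(z2,[z3,z0,y1])],.ref k25 k0 [(z4,[z18,z5,z0,z18,z9,
    y18]),(z1,[z0,z0,z1]),(z1,[y6,y1,z0,y3,y3,z6]),(z4,[y6,y1,z0,y6,z3,z6]),(z2,[z6,z1,z0,z6,z3,y6])],
    .ref k25 k0 [(z16,[y18,z5,y6,z18,y9,z18]),(z1,[z0,z0,z1]),(z4,[z6,z1,z2,z6,z3,y6]),(z16,[z6,z1,z2,y6,z27,y6]),(z8,
    [y6,y1,y2,z6,y3,z6])],.ref k25 k0 [(z5,[y9,z1,y3,z0,z0,z9]),(z1,[z0,z0,z1]),(z5,[z12,z2,z4,z15,z0,y12]),(z10,[z6,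
    z1,z2,z0,z15,y6]),(z5,[y6,y1,y2,z0,z0,z6])],.ref k25 k0 [(z4,[y18,y1,y6,z0,y9,z18]),(z1,[z0,z0,z1]),(z1,[z6,z1,z2,
    z3,z3,y6]),(z4,[z6,z1,z2,z0,z9,y6]),(z2,[y6,y1,y2,z0,y3,z6])],.ref k25 k0 [(z4,[y18,y1,y6,y18,z9,z18]),(z1,[z0,z0,
    z1]),(z1,[z6,z1,z2,z9,y3,y6]),(z4,[z6,z1,z2,z6,z3,y6]),(z2,[y6,y1,y2,y6,z3,z6])],.ref k25 k0 [(z2,[z6,z1,z0,z0,
    y3]),(z1,[z0,z0,z1]),(z1,[y4,z0,z0,z3,z2]),(z1,[y1,z0,z0,z0,z2]),(z1,[z2,z0,z0,z0,y1])],.ref k25 k0 [(z1,[z9,z2,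
    z3,z9,z0,y9]),(z1,[z0,z0,z1]),(z1,[y12,y2,y4,y9,z0,z12]),(z2,[y6,y1,y2,y6,z3,z6]),(z1,[z6,z1,z2,z6,z0,y6])],
    .ref k25 k0 [(z2,[y18,y5,y12,y36,y9,z36]),(z1,[z0,z0,z1]),(z1,[z12,z4,z8,z27,z6,y24]),(z1,[z3,z1,z2,z6,z3,y6]),
    (z1,[y6,y2,y4,y12,y3,z12])],.ref k25 k0 [(z2,[z9,z4,z6,z18,z9,y18]),(z1,[z0,z0,z1]),(z1,[y6,y2,y4,y9,y6,z12]),(z2,
    [y3,y1,y2,y6,z0,z6]),(z1,[z3,z1,z2,z6,z3,y6])]],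
    .base (.leafM k3 [k2,k3,k4,k5,k0,k1] [(z1,[z0,y1,y1,z0,z1])] []),
    .base (.leafM k1 [k0,k1,k2,k3,k4,k5] [(z3,[z0,z1,z0,z1]),(z3,[z0,y1,z0,y1,z3])] []),
    .base (.leafM k3 [k0,k1,k2,k3,k4,k5] [(z1,[y1,z0,y1,z0,z1])] []),
    .base (.leafM k3 [k4,k5,k0,k1,k2,k3] [(z3,[z0,z1,z1])] []),
    .lp k0 [(nat_lit 616),(nat_lit 626),(nat_lit 662),(nat_lit 682),(nat_lit 668),(nat_lit 582)] [k45,k21,k28,k28,k10,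
    k10,k0,k0,k7,k7,k50,k50] k0 [[k0,k8,k14,k0,k0,k0,k0,k0,k18,k0,k0,k0],[k0,k0,k30,k0,k40,k0,k38,k0,k0,k0,k0,k80],
    [k0,k0,k0,k0,k10,k10,k0,k0,k2,k0,k2,k50],[k30,k14,k20,k0,k0,k0,k0,k0,k24,k0,k0,k0],[k0,k0,k0,k10,k0,k0,k0,k0,k2,
    k82,k16,k8],[k40,k0,k0,k10,k0,k0,k2,k30,k0,k0,k0,k0],[k0,k0,k0,k0,k30,k0,k0,k2,k8,k8,k0,k0],[k38,k0,k0,k0,k2,k0,
    k0,k0,k0,k0,k58,k6],[k0,k0,k0,k0,k0,k82,k0,k8,k0,k0,k174,k0],[k0,k18,k24,k2,k0,k2,k0,k8,k0,k0,k0,k0],[k80,k0,k0,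
    k50,k0,k8,k6,k0,k0,k0,k0,k0],[k0,k0,k0,k2,k0,k16,k58,k0,k0,k174,k0,k0]] (nat_lit 1920) k5
    [[(k8,(nat_lit 480)),(k9,(nat_lit 596)),(k10,(nat_lit 611)),(k11,(nat_lit 611)),(k2,(nat_lit 631)),(k3,
    (nat_lit 633)),(k4,(nat_lit 635)),(k1,(nat_lit 640)),(k6,(nat_lit 667)),(k7,(nat_lit 669)),(k0,(nat_lit 696)),(k5,
    (nat_lit 701))],[(k11,(nat_lit 569)),(k0,(nat_lit 584)),(k10,(nat_lit 587)),(k3,(nat_lit 609)),(k5,(nat_lit 613)),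
    (k8,(nat_lit 630)),(k9,(nat_lit 630)),(k7,(nat_lit 637)),(k2,(nat_lit 639)),(k4,(nat_lit 667)),(k6,(nat_lit 675)),
    (k1,(nat_lit 696))],[(k10,(nat_lit 524)),(k11,(nat_lit 604)),(k0,(nat_lit 609)),(k9,(nat_lit 609)),(k5,
    (nat_lit 614)),(k7,(nat_lit 614)),(k1,(nat_lit 633)),(k3,(nat_lit 634)),(k2,(nat_lit 640)),(k4,(nat_lit 644)),(k6,
    (nat_lit 654)),(k8,(nat_lit 665))],[(k10,(nat_lit 554)),(k11,(nat_lit 602)),(k1,(nat_lit 631)),(k4,(nat_lit 634)),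
    (k0,(nat_lit 639)),(k3,(nat_lit 640)),(k5,(nat_lit 644)),(k7,(nat_lit 644)),(k2,(nat_lit 646)),(k9,(nat_lit 647)),
    (k6,(nat_lit 654)),(k8,(nat_lit 671))],[(k11,(nat_lit 598)),(k0,(nat_lit 613)),(k3,(nat_lit 614)),(k10,
    (nat_lit 624)),(k5,(nat_lit 642)),(k2,(nat_lit 644)),(k9,(nat_lit 665)),(k8,(nat_lit 667)),(k4,(nat_lit 672)),(k6,
    (nat_lit 672)),(k7,(nat_lit 682)),(k1,(nat_lit 701))],[(k8,(nat_lit 583)),(k10,(nat_lit 614)),(k11,(nat_lit 620)),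
    (k2,(nat_lit 634)),(k1,(nat_lit 635)),(k3,(nat_lit 644)),(k4,(nat_lit 662)),(k0,(nat_lit 667)),(k5,(nat_lit 672)),
    (k7,(nat_lit 672)),(k6,(nat_lit 674)),(k9,(nat_lit 695))],[(k3,(nat_lit 614)),(k0,(nat_lit 637)),(k2,
    (nat_lit 644)),(k10,(nat_lit 648)),(k6,(nat_lit 652)),(k1,(nat_lit 669)),(k4,(nat_lit 672)),(k9,(nat_lit 673)),
    (k8,(nat_lit 677)),(k5,(nat_lit 682)),(k7,(nat_lit 682)),(k11,(nat_lit 714))],[(k11,(nat_lit 624)),(k7,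
    (nat_lit 652)),(k2,(nat_lit 654)),(k3,(nat_lit 654)),(k1,(nat_lit 667)),(k8,(nat_lit 667)),(k5,(nat_lit 672)),(k4,
    (nat_lit 674)),(k0,(nat_lit 675)),(k9,(nat_lit 675)),(k6,(nat_lit 680)),(k10,(nat_lit 690))],[(k1,(nat_lit 596)),
    (k3,(nat_lit 609)),(k10,(nat_lit 619)),(k0,(nat_lit 630)),(k11,(nat_lit 633)),(k2,(nat_lit 647)),(k5,
    (nat_lit 665)),(k9,(nat_lit 670)),(k7,(nat_lit 673)),(k6,(nat_lit 675)),(k8,(nat_lit 676)),(k4,(nat_lit 695))],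
    [(k1,(nat_lit 480)),(k4,(nat_lit 583)),(k10,(nat_lit 625)),(k11,(nat_lit 625)),(k0,(nat_lit 630)),(k3,
    (nat_lit 665)),(k5,(nat_lit 667)),(k6,(nat_lit 667)),(k8,(nat_lit 668)),(k2,(nat_lit 671)),(k9,(nat_lit 676)),(k7,
    (nat_lit 677))],[(k0,(nat_lit 569)),(k11,(nat_lit 582)),(k5,(nat_lit 598)),(k2,(nat_lit 602)),(k3,(nat_lit 604)),
    (k1,(nat_lit 611)),(k4,(nat_lit 620)),(k6,(nat_lit 624)),(k8,(nat_lit 625)),(k9,(nat_lit 633)),(k7,(nat_lit 714)),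
    (k10,(nat_lit 756))],[(k3,(nat_lit 524)),(k2,(nat_lit 554)),(k10,(nat_lit 582)),(k0,(nat_lit 587)),(k1,
    (nat_lit 611)),(k4,(nat_lit 614)),(k9,(nat_lit 619)),(k5,(nat_lit 624)),(k8,(nat_lit 625)),(k7,(nat_lit 648)),(k6,
    (nat_lit 690)),(k11,(nat_lit 756))]]
    [[k2,k0,k0,k0,k1,k0],[k2,k0,k0,k0,k0,k1],[k2,k1,k0,k0,k0,k0],[k1,k2,k0,k0,k0,k0],[k1,k1,k1,k0,k0,k0],[k1,k1,k0,k0,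
    k1,k0],[k1,k1,k0,k0,k0,k1],[k1,k0,k1,k0,k0,k1],[k1,k0,k1,k0,k1,k0],[k1,k0,k0,k1,k0,k1],[k1,k0,k0,k1,k1,k0],[k1,k0,
    k0,k0,k2,k0],[k1,k0,k0,k0,k1,k1],[k1,k0,k0,k0,k0,k2],[k0,k2,k1,k0,k0,k0],[k0,k2,k0,k1,k0,k0],[k0,k2,k0,k0,k0,k1],
    [k0,k1,k1,k0,k0,k1],[k0,k1,k1,k0,k1,k0],[k0,k1,k0,k1,k0,k1],[k0,k1,k0,k0,k1,k1],[k0,k1,k0,k0,k0,k2],[k0,k0,k2,k0,
    k0,k1],[k0,k0,k1,k0,k1,k1],[k0,k0,k1,k0,k0,k2],[k0,k0,k0,k0,k1,k2]]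
    [.ref k25 k0 [(z14,[z15,z9,z5,z15,z15,y15]),(z1,[z0,z0,z1]),(z7,[y12,z4,y4,z9,y12,z12]),(z7,[y3,z1,y1,y3,z18,z3]),
    (z7,[z6,y9,y5,y15,y15,z15])],.ref k25 k0 [(z11,[z15,z1]),(z1,[z0,z0,z1]),(z11,[y24,z16,z0,z33]),(z11,[y6,z4,z0,z0,
    z33]),(z11,[z12,y19,y11,y33,y33,z33])],.ref k25 k0 [(z2,[z3,z0,y1]),(z1,[z0,z0,z1]),(z5,[y12,z8,z4,z15]),(z5,[y3,
    z2,z1,z0,z15]),(z5,[z6,y9,y7,y15,y15,z15])],.ref k25 k0 [(z1,[z3,z0,y2]),(z1,[z0,z0,z1]),(z5,[y24,z8,z16,z15]),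
    (z5,[y6,z2,z4,z0,z15]),(z5,[z12,y9,y13,y15,y15,z15])],.ref k25 k0 [(z3,[y15,z8,z5,z15]),(z1,[z0,z0,z1]),(z3,[z24,
    y8,y8,y15]),(z3,[z6,y2,y2,y6,z9]),(z3,[y12,z1,z1,z3,y9,z9])],.ref k25 k0 [(z3,[z5,z3,z0,z5,z5,y5]),(z1,[z0,z0,
    z1]),(z3,[y8,z0,z0,z1,y8,z8]),(z3,[y2,z0,z0,y2,z7,z2]),(z3,[z4,y3,y3,y5,y5,z5])],.ref k25 k0 [(z6,[z15,z1,y5]),
    (z1,[z0,z0,z1]),(z3,[y12,z4,z4,z9]),(z3,[y3,z1,z1,z0,z9]),(z3,[z6,y5,y5,y9,y9,z9])],.ref k25 k0 [(z2,[y15,z7,z0,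
    z15]),(z1,[z0,z0,z1]),(z1,[z12,y4,z0,y9]),(z1,[z3,y1,z0,y3,z3]),(z1,[y6,z1,y1,z3,y3,z3])],.ref k25 k0 [(z1,[z15,
    z1,z5,z0,z15,y15]),(z1,[z0,z0,z1]),(z1,[y24,z0,y8,z3,y24,z24]),(z1,[y6,z0,y2,z0,y3,z6]),(z1,[z12,y1,z3,y3,z9,
    y9])],.ref k25 k0 [(z4,[z15,y1,z0,z0,y15]),(z1,[z0,z0,z1]),(z1,[y6,z2,z0,z3,z6]),(z2,[y3,z1,z0,z0,z9]),(z1,[z3,y2,
    y1,y3,y6,z3])],.ref k25 k0 [(z7,[z15,z7,z5,z15,z0,y15]),(z1,[z0,z0,z1]),(z7,[y24,z0,y8,y3,z0,z24]),(z7,[y6,z0,y2,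
    y6,z21,z6]),(z7,[z12,y7,y3,y9,y21,z9])],.ref k25 k0 [(z13,[z15,z18,z10,z30,z30,y30]),(z1,[z0,z0,z1]),(z13,[y24,y8,
    y16,y9,y48,z48]),(z13,[y6,y2,y4,y12,z27,z12]),(z13,[z12,y9,y5,y15,y15,z15])],.ref k25 k0 [(z2,[z3,z2,z1,z3,z3,
    y3]),(z1,[z0,z0,z1]),(z5,[y12,z0,y4,z3,y12,z12]),(z5,[y3,z0,y1,y3,z12,z3]),(z5,[z6,y5,y3,y9,y9,z9])],
    .ref k25 k0 [(z7,[z15,z2]),(z1,[z0,z0,z1]),(z7,[y24,z8,z0,z21]),(z7,[y6,z2,z0,z0,z21]),(z7,[z12,y11,y7,y21,y21,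
    z21])],.ref k25 k0 [(z8,[y15,z8,z10,z15]),(z1,[z0,z0,z1]),(z1,[z3,z0,y2]),(z4,[z3,z0,y2,y3,z12]),(z2,[y3,y2,z0,y3,
    y6,z6])],.ref k25 k0 [(z2,[y15,z2,z10,z0,z15]),(z1,[z0,z0,z1]),(z1,[z12,z0,y8,z3,y12]),(z1,[z3,z0,y2]),(z1,[y6,y1,
    z3,y3,z3,z3])],.ref k25 k0 [(z1,[z15,z1,y10]),(z1,[z0,z0,z1]),(z1,[y24,z0,z16,z3]),(z1,[y6,z0,z4,z0,z3]),(z1,[z12,
    y1,y9,y3,y3,z3])],.ref k25 k0 [(z7,[y15,z7,z5,z15]),(z1,[z0,z0,z1]),(z7,[z24,z0,y8,y3]),(z7,[z6,z0,y2,y6,z21]),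
    (z7,[y12,y7,y3,y9,y21,z21])],.ref k25 k0 [(z4,[y15,y1,z0,z0,y15,z15]),(z1,[z0,z0,z1]),(z1,[z6,z2,z0,z3,z6,y6]),
    (z2,[z3,z1,z0,z0,z9,y3]),(z1,[y3,y2,y1,y3,y6,z6])],.ref k25 k0 [(z1,[y15,z1,z5,z0,z15]),(z1,[z0,z0,z1]),(z1,[z24,
    z0,y8,z3,y24]),(z1,[z6,z0,y2,z0,y3]),(z1,[y12,y1,z3,y3,z9,z3])],.ref k25 k0 [(z1,[z3,z2,z0,z3,z3,y3]),(z1,[z0,z0,
    z1]),(z5,[y24,y8,z0,y9,y24,z24]),(z5,[y6,y2,z0,y6,z9,z6]),(z5,[z12,y1,y5,y3,y3,z3])],.ref k25 k0 [(z2,[z15,z2,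
    y5]),(z1,[z0,z0,z1]),(z1,[y12,z0,z4,z3]),(z1,[y3,z0,z1,z0,z3]),(z1,[z6,y1,y3,y3,y3,z3])],.ref k25 k0 [(z1,[y1,z1,
    z0,z2]),(z1,[z0,z0,z1]),(z5,[z8,z0,z0,y1]),(z5,[z2,z0,z0,y4,z15]),(z5,[y4,y5,y5,y7,y15,z15])],.ref k25 k0 [(z3,
    [y15,y2,y5,z0,y15,z15]),(z1,[z0,z0,z1]),(z3,[z24,z8,z8,z9,z24,y24]),(z3,[z6,z2,z2,z0,z15,y6]),(z3,[y12,y7,y7,y9,
    y21,z21])],.ref k25 k0 [(z2,[y5,z2,z0,z5]),(z1,[z0,z0,z1]),(z1,[z4,z0,z0,y1]),(z1,[z1,z0,z0,y1,z3]),(z1,[y2,y1,y1,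
    y1,y3,z3])],.ref k25 k0 [(z6,[z15,z11,z5,z15,z15,y15]),(z1,[z0,z0,z1]),(z3,[y12,y4,y4,y3,y12,z12]),(z3,[y3,y1,y1,
    y3,z6,z3]),(z3,[z6,y1,y1,y3,y3,z3])]],
    .lp k0 [k76,k80,k82,k86,k84,k70] [k5,k5,k3,k3,k2,k2,k0,k0,k1,k1,k8,k8] k0 [[k0,k0,k0,k0,k0,k0,k1,k0,k0,k0,k0,k12],
    [k0,k0,k1,k0,k0,k1,k2,k0,k0,k0,k0,k12],[k0,k0,k0,k0,k0,k0,k0,k0,k0,k2,k4,k6],[k1,k0,k0,k0,k0,k0,k2,k0,k0,k0,k0,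
    k0],[k1,k0,k0,k0,k0,k0,k0,k0,k0,k0,k0,k0],[k0,k0,k0,k0,k0,k0,k0,k0,k0,k2,k4,k0],[k0,k0,k0,k0,k0,k0,k0,k1,k0,k1,k2,
    k0],[k2,k1,k2,k0,k0,k0,k0,k0,k0,k0,k1,k0],[k0,k0,k0,k2,k2,k0,k0,k1,k0,k0,k0,k0],[k0,k0,k0,k0,k0,k0,k0,k0,k0,k0,k1,
    k5],[k12,k12,k0,k6,k0,k0,k0,k0,k5,k0,k0,k7],[k0,k0,k0,k4,k4,k0,k1,k2,k1,k0,k0,k0]] (nat_lit 240) k5
    [[(k11,k72),(k10,k73),(k2,k74),(k7,k77),(k4,k79),(k6,k79),(k9,k79),(k1,k83),(k5,k85),(k8,k85),(k0,k88),(k3,k90)],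
    [(k10,k61),(k11,k73),(k0,k76),(k3,k78),(k2,k79),(k4,k79),(k5,k79),(k9,k79),(k8,k80),(k7,k82),(k6,k83),(k1,k88)],
    [(k10,k63),(k11,k75),(k0,k78),(k2,k80),(k3,k80),(k4,k80),(k5,k80),(k9,k80),(k8,k82),(k7,k83),(k6,k84),(k1,k90)],
    [(k10,k69),(k1,k74),(k11,k75),(k0,k79),(k2,k80),(k3,k80),(k8,k80),(k4,k81),(k5,k81),(k9,k82),(k7,k83),(k6,k85)],
    [(k11,k78),(k0,k79),(k3,k80),(k10,k80),(k2,k81),(k9,k81),(k4,k82),(k5,k82),(k8,k83),(k6,k84),(k7,k84),(k1,k85)],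
    [(k11,k78),(k0,k79),(k1,k79),(k3,k80),(k10,k80),(k2,k81),(k4,k82),(k5,k82),(k8,k83),(k9,k83),(k6,k84),(k7,k84)],
    [(k1,k77),(k10,k78),(k11,k78),(k0,k82),(k2,k83),(k3,k83),(k8,k83),(k4,k84),(k5,k84),(k9,k85),(k6,k86),(k7,k86)],
    [(k11,k78),(k1,k79),(k10,k79),(k0,k83),(k3,k84),(k4,k84),(k5,k84),(k8,k84),(k2,k85),(k6,k85),(k9,k85),(k7,k86)],
    [(k11,k78),(k0,k79),(k1,k79),(k10,k79),(k3,k80),(k5,k81),(k2,k82),(k4,k83),(k8,k84),(k6,k85),(k7,k85),(k9,k85)],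
    [(k11,k77),(k10,k78),(k0,k80),(k2,k80),(k3,k82),(k4,k83),(k5,k83),(k7,k83),(k6,k84),(k8,k84),(k9,k84),(k1,k85)],
    [(k10,k65),(k11,k70),(k1,k72),(k0,k73),(k2,k75),(k3,k75),(k8,k77),(k4,k78),(k5,k78),(k6,k78),(k7,k78),(k9,k78)],
    [(k0,k61),(k3,k63),(k10,k63),(k11,k65),(k2,k69),(k1,k73),(k7,k78),(k8,k78),(k6,k79),(k9,k79),(k4,k80),(k5,k80)]]
    [[k2,k0,k0,k0,k0,k1],[k1,k2,k0,k0,k0,k0],[k1,k1,k1,k0,k0,k0],[k1,k1,k0,k0,k1,k0],[k1,k1,k0,k0,k0,k1],[k1,k0,k1,k0,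
    k0,k1],[k2,k0,k0,k1,k0,k0],[k1,k0,k0,k1,k0,k1],[k1,k0,k0,k0,k1,k1],[k1,k0,k0,k0,k0,k2],[k0,k2,k0,k0,k0,k1],[k0,k1,
    k1,k0,k0,k1],[k0,k1,k0,k1,k0,k1],[k0,k1,k0,k0,k1,k1],[k0,k1,k0,k0,k0,k2],[k0,k0,k1,k0,k1,k1],[k0,k0,k1,k0,k0,k2],
    [k0,k0,k0,k1,k0,k2],[k0,k0,k0,k0,k1,k2],[k0,k0,k0,k0,k0,k3]]
    [.ref (nat_lit 359) k8 [(z1,[y12,z2,z0,z9]),(z1,[y3,y1,y3,y9,z9]),(z1,[z6,y1]),(z1,[z1])],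
    .ref (nat_lit 360) k1 [(z3,[z0,z2,z4,z15,y12]),(z1,[z0,z0,z1]),(z1,[z3,z0,y2]),(z1,[y3,y1,y1,y9,z9])],
    .ref (nat_lit 361) k1 [(z3,[z0,z2,z4,z15,y12]),(z1,[z0,z0,z1]),(z1,[z3,y2,y5,y15,z12]),(z3,[y3,z1,z2,z6,y3])],
    .ref (nat_lit 362) k8 [(z1,[y6,z0,z2,z3]),(z1,[y3,y1,y1,y6,z6]),(z1,[z3,z0,y1]),(z1,[z9,z1,y3])],.ref k33 k7 [(z1,
    [z0,z0,z1]),(z3,[y12,z2,z4,z9]),(z3,[y3,y1,y2,y9,z9]),(z3,[z6,y1,y2])],.ref k33 k7 [(z1,[z0,z0,z1]),(z1,[z12,y2,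
    z0,y9]),(z1,[z3,y1,y1,y6,z3]),(z1,[y6,z1,z0,z6])],.ref (nat_lit 363) k9 [(z1,[y9,y1,y3,y9,z9]),(z3,[y6,y1,y2,y6,
    z6]),(z1,[z1]),(z3,[z12,z2,z4,z15,y12])],.ref k33 k7 [(z1,[z0,z0,z1]),(z1,[y6,z0,y2,y3,z6]),(z2,[y3,y1,y3,y9,z9]),
    (z1,[z3,z0,z1,z3,y3])],.ref k33 k7 [(z1,[z0,z0,z1]),(z5,[y12,z2,z0,z15]),(z5,[y3,y2,y5,y15,z15]),(z5,[z6,y1])],
    .ref (nat_lit 364) k1 [(z3,[z0,z2,z4,z15,y12]),(z1,[z0,z0,z1]),(z1,[y3,y2,y6,y18,z18]),(z1,[z3,z1,z3,z9,y9])],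
    .ref (nat_lit 365) k0 [(z1,[y6,z1,z4]),(z1,[z0,z0,z1]),(z1,[z0,z0,z0,z1]),(z3,[z0,y1,y2,y6,z6])],
    .ref (nat_lit 366) k8 [(z3,[z12,y2,y4,y9]),(z3,[z3,y1,y2,y6,z3]),(z3,[y6,z1,z2,z6]),(z1,[y9,z2,z3,z9])],
    .ref (nat_lit 367) k1 [(z3,[z0,z2,z4,z15,y12]),(z1,[z0,z0,z1]),(z3,[y3,y1,y2,y9,z9]),(z1,[z3,z0,y1])],
    .ref (nat_lit 368) k1 [(z3,[z0,z2,z4,z15,y12]),(z1,[z0,z0,z1]),(z3,[y3,y2,y4,y15,z15]),(z1,[z3,z1,z1,z6,y6])],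
    .ref (nat_lit 365) k0 [(z1,[y3,z1,z1]),(z1,[z0,z0,z1]),(z1,[z0,z0,z0,z1]),(z3,[z0,y1,y2,y6,z6])],
    .ref (nat_lit 369) k1 [(z3,[z0,z2,z4,z15,y12]),(z1,[z0,z0,z1]),(z1,[y3,z0,y1,z0,z3]),(z3,[z3,y1,y2,y9,z6])],
    .ref (nat_lit 369) k1 [(z3,[z0,z2,z4,z15,y12]),(z1,[z0,z0,z1]),(z2,[y3,z0,y2,y3,z6]),(z6,[z3,y2,y4,y15,z12])],
    .ref (nat_lit 370) k0 [(z1,[y9,y1,y3,y9,z9]),(z1,[z0,z0,z1]),(z3,[z12,z2,z4,z15,y12]),(z1,[z1])],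
    .ref (nat_lit 361) k1 [(z3,[z0,z2,z4,z15,y12]),(z1,[z0,z0,z1]),(z2,[y3,y3,y8,y24,z24]),(z6,[z3,z1,z2,z6,y6])],
    .ref (nat_lit 365) k0 [(z1,[y2,z1]),(z1,[z0,z0,z1]),(z1,[z0,z0,z0,z1]),(z3,[z0,y1,y2,y6,z6])]]]

theorem hB6_171_30 : blkB [0, 0, 0, 0, 0, 0] [] sp6 hS6_171 (pcls (n := 6) [0, 0, 0, 0, 0, 0]) hD6_171 560 30 hN6_171_30 = true := by
  decide +kernel

/-- nodes 372 to 383 -/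
noncomputable def hN6_171_31 : List HM :=
  [.lp k0 [k160,k130,k162,k178,k160,k166] [k12,k12,k32,k22,k11,k11,k3,k3,k12,k12,k0,k18] k0 [[k0,k0,k8,k0,k0,k0,k0,
    k48,k12,k0,k0,k0],[k0,k0,k0,k0,k6,k30,k0,k0,k0,k0,k6,k42],[k0,k0,k0,k0,k0,k0,k0,k0,k0,k0,k12,k6],[k0,k8,k0,k0,k0,
    k0,k0,k40,k20,k0,k0,k0],[k30,k0,k0,k0,k0,k2,k2,k0,k0,k2,k0,k0],[k6,k0,k0,k0,k0,k0,k0,k0,k0,k18,k12,k4],[k0,k48,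
    k40,k0,k0,k0,k0,k0,k0,k0,k6,k6],[k0,k0,k0,k0,k0,k2,k0,k0,k0,k0,k0,k0],[k0,k0,k0,k0,k18,k2,k0,k0,k0,k0,k0,k0],[k0,
    k12,k20,k0,k0,k0,k0,k0,k0,k0,k0,k0],[k42,k0,k0,k6,k4,k0,k0,k6,k0,k0,k0,k0],[k6,k0,k0,k12,k12,k0,k0,k6,k0,k0,k0,
    k0]] (nat_lit 480) k5
    [[(k2,k128),(k3,k144),(k11,k154),(k7,k157),(k1,k160),(k8,k160),(k6,k163),(k4,k165),(k9,k166),(k5,k167),(k10,k172),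
    (k0,(nat_lit 202))],[(k6,k121),(k2,k140),(k11,k142),(k3,k150),(k5,k153),(k0,k160),(k8,k160),(k9,k160),(k4,k167),
    (k10,k178),(k7,k199),(k1,(nat_lit 202))],[(k10,k120),(k4,k121),(k2,k138),(k3,k140),(k1,k144),(k11,k144),(k0,k150),
    (k5,k151),(k7,k153),(k6,k159),(k8,k162),(k9,k198)],[(k2,k120),(k1,k128),(k11,k134),(k3,k138),(k0,k140),(k4,k141),
    (k5,k141),(k10,k146),(k6,k149),(k7,k149),(k8,k160),(k9,k180)],[(k6,k130),(k11,k135),(k2,k141),(k3,k151),(k0,k153),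
    (k8,k161),(k9,k161),(k4,k162),(k5,k162),(k1,k167),(k7,k170),(k10,k185)],[(k3,k121),(k2,k141),(k8,k159),(k9,k159),
    (k4,k160),(k5,k162),(k1,k165),(k0,k167),(k6,k170),(k7,k170),(k11,k173),(k10,k185)],[(k2,k149),(k8,k151),(k3,k153),
    (k1,k157),(k11,k165),(k9,k169),(k4,k170),(k5,k170),(k10,k177),(k6,k180),(k7,k180),(k0,k199)],[(k0,k121),(k5,k130),
    (k2,k149),(k3,k159),(k1,k163),(k11,k163),(k8,k169),(k9,k169),(k4,k170),(k10,k175),(k6,k178),(k7,k180)],[(k11,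
    k154),(k4,k159),(k0,k160),(k8,k160),(k9,k160),(k5,k161),(k1,k166),(k6,k169),(k7,k169),(k10,k178),(k2,k180),(k3,
    k198)],[(k7,k151),(k11,k154),(k4,k159),(k0,k160),(k1,k160),(k2,k160),(k8,k160),(k9,k160),(k5,k161),(k3,k162),(k6,
    k169),(k10,k172)],[(k2,k134),(k5,k135),(k0,k142),(k3,k144),(k11,k148),(k1,k154),(k8,k154),(k9,k154),(k6,k163),(k7,
    k165),(k10,k166),(k4,k173)],[(k3,k120),(k2,k146),(k11,k166),(k1,k172),(k8,k172),(k6,k175),(k7,k177),(k0,k178),(k9,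
    k178),(k10,k184),(k4,k185),(k5,k185)]]
    [[k2,k1,k0,k0,k0,k0],[k1,k2,k0,k0,k0,k0],[k1,k1,k1,k0,k0,k0],[k1,k1,k0,k1,k0,k0],[k1,k1,k0,k0,k1,k0],[k1,k1,k0,k0,
    k0,k1],[k1,k0,k1,k1,k0,k0],[k1,k0,k1,k0,k0,k1],[k1,k0,k0,k2,k0,k0],[k1,k0,k0,k1,k1,k0],[k1,k0,k0,k1,k0,k1],[k1,k0,
    k1,k0,k1,k0],[k0,k3,k0,k0,k0,k0],[k0,k2,k1,k0,k0,k0],[k0,k2,k0,k1,k0,k0],[k0,k2,k0,k0,k0,k1],[k0,k1,k2,k0,k0,k0],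
    [k0,k1,k1,k1,k0,k0],[k0,k1,k1,k0,k1,k0],[k0,k1,k1,k0,k0,k1],[k0,k1,k0,k1,k0,k1],[k0,k1,k0,k0,k1,k1],[k0,k1,k0,k0,
    k0,k2],[k0,k0,k2,k1,k0,k0],[k0,k0,k1,k1,k1,k0],[k0,k0,k1,k0,k1,k1]]
    [.ref k43 k0 [(z1,[z0,z1]),(z1,[z3,y2]),(z2,[y1,z0,y1,z2])],.ref k43 k0 [(z1,[z0,z1]),(z2,[z3,y1]),(z4,[y1,y1,y2,
    z4])],.ref (nat_lit 332) k7 [(z1,[z2,z0,z1,y2]),(z1,[y3,y1,y3,z6]),(z1,[y1,z0,z0,z1])],.ref k43 k0 [(z1,[z0,z1]),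
    (z1,[z6,y2,y3]),(z1,[y1,z0,z0,z1])],.ref (nat_lit 333) k5 [(z1,[z3,y1,y3]),(z1,[y1,z0,z0,z1]),(z1,[z0,z1])],
    .ref (nat_lit 334) k6 [(z1,[z3,y1,y3]),(z1,[z0,z1]),(z1,[z0,z0,z1])],.ref (nat_lit 335) k6 [(z1,[y1,z0,y1,z1]),
    (z1,[z0,z1]),(z1,[z0,z0,z1])],.ref (nat_lit 336) k5 [(z1,[y1,z0,y1,z1]),(z1,[z3,y1]),(z1,[z0,z1])],
    .ref k43 k0 [(z1,[z0,z1]),(z1,[y3,z1,z3]),(z2,[z1,y1,y2,z2])],.ref (nat_lit 337) k7 [(z1,[y6,z2,z3]),(z1,[z3,y2,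
    y3,z3]),(z1,[z3,y1])],.ref (nat_lit 338) k7 [(z1,[y6,z2,z3]),(z1,[z3,y2,y3,z3]),(z1,[z3,y1])],
    .ref (nat_lit 316) k6 [(z1,[y1,z0,y1,z1]),(z1,[z0,z1]),(z1,[z0,z0,z1])],.ref k43 k0 [(z1,[z0,z1]),(z1,[z1]),(z6,
    [y1,y2,y3,z6])],.ref (nat_lit 345) k4 [(z1,[y6,y2,y3,z6]),(z1,[z0,z0,z1]),(z1,[z1])],.ref k43 k0 [(z1,[z0,z1]),
    (z1,[z2,z0,y1]),(z3,[y1,y1,y1,z3])],.ref (nat_lit 357) k6 [(z1,[z1,z0,y2]),(z1,[z0,z1]),(z1,[z0,z0,z1])],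
    .ref (nat_lit 358) k1 [(z2,[z1,z0,y1]),(z1,[z0,z0,z1]),(z1,[z0,z1])],.ref (nat_lit 358) k1 [(z1,[z1,z0,y1]),(z1,
    [z0,z0,z1]),(z1,[z0,z1])],.ref (nat_lit 338) k7 [(z1,[z6,z2,z3,y6]),(z1,[y3,y2,y3,z6]),(z1,[y3,y1,z0,z3])],
    .ref (nat_lit 337) k7 [(z1,[z6,z2,z3,y6]),(z1,[y3,y2,y3,z6]),(z1,[y3,y1,z0,z3])],.ref (nat_lit 316) k6 [(z1,[z1,
    z0,y1]),(z1,[z0,z1]),(z1,[z0,z0,z1])],.ref (nat_lit 335) k6 [(z1,[z1,z0,y1]),(z1,[z0,z1]),(z1,[z0,z0,z1])],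
    .ref (nat_lit 316) k6 [(z2,[z1,z0,y1]),(z1,[z0,z1]),(z1,[z0,z0,z1])],.ref (nat_lit 371) k6 [(z1,[y3,y2,y6,z6]),
    (z1,[z0,z1]),(z1,[z0,z0,z1])],.ref (nat_lit 334) k6 [(z1,[y3,y1,y3,z3]),(z1,[z0,z1]),(z1,[z0,z0,z1])],
    .ref k43 k0 [(z1,[z0,z1]),(z1,[y6,y2,y3,z6]),(z1,[z1])]],
    .base (.leafM k1 [k0,k1,k2,k3,k4,k5] [(z1,[z0,z1]),(z1,[z0,y1,z1])] []),
    .lp k0 [(nat_lit 320),(nat_lit 276),(nat_lit 328),(nat_lit 320),(nat_lit 334),(nat_lit 338)] [k9,k9,k31,k31,k5,k5,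
    k9,k9,k2,k2,k0,k0] k0 [[k0,k0,k0,k28,k0,k0,k0,k0,k0,k0,k0,k0],[k0,k0,k0,k0,k0,k0,k0,k0,k0,k0,k0,k0],[k0,k28,k0,
    k28,k28,k0,k0,k0,k0,k0,k0,k0],[k0,k0,k0,k0,k0,k0,k0,k16,k16,k8,k8,k0],[k0,k0,k0,k0,k0,k0,k8,k0,k2,k0,k0,k8],[k0,
    k0,k0,k28,k0,k0,k8,k0,k2,k0,k0,k8],[k0,k0,k16,k0,k0,k0,k0,k0,k0,k0,k0,k0],[k0,k0,k0,k0,k8,k8,k0,k0,k0,k0,k0,k0],
    [k0,k0,k8,k0,k0,k0,k0,k0,k0,k0,k0,k0],[k0,k0,k16,k0,k2,k2,k0,k0,k0,k0,k0,k0],[k0,k0,k0,k0,k8,k8,k0,k0,k0,k0,k0,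
    k0],[k0,k0,k8,k0,k0,k0,k0,k0,k0,k0,k0,k0]] (nat_lit 960) k5
    [[(k2,(nat_lit 298)),(k3,(nat_lit 298)),(k5,(nat_lit 316)),(k0,(nat_lit 320)),(k1,(nat_lit 320)),(k6,
    (nat_lit 320)),(k8,(nat_lit 327)),(k9,(nat_lit 327)),(k7,(nat_lit 328)),(k10,(nat_lit 329)),(k11,(nat_lit 329)),
    (k4,(nat_lit 332))],[(k2,(nat_lit 270)),(k3,(nat_lit 298)),(k0,(nat_lit 320)),(k1,(nat_lit 320)),(k6,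
    (nat_lit 320)),(k7,(nat_lit 320)),(k4,(nat_lit 324)),(k5,(nat_lit 324)),(k8,(nat_lit 327)),(k9,(nat_lit 327)),
    (k10,(nat_lit 329)),(k11,(nat_lit 329))],[(k2,(nat_lit 276)),(k3,(nat_lit 276)),(k0,(nat_lit 298)),(k1,
    (nat_lit 298)),(k6,(nat_lit 298)),(k7,(nat_lit 298)),(k4,(nat_lit 302)),(k8,(nat_lit 305)),(k9,(nat_lit 305)),
    (k10,(nat_lit 307)),(k11,(nat_lit 307)),(k5,(nat_lit 330))],[(k2,(nat_lit 248)),(k0,(nat_lit 270)),(k7,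
    (nat_lit 270)),(k3,(nat_lit 276)),(k1,(nat_lit 298)),(k6,(nat_lit 298)),(k4,(nat_lit 302)),(k5,(nat_lit 302)),
    (k10,(nat_lit 315)),(k11,(nat_lit 315)),(k8,(nat_lit 321)),(k9,(nat_lit 321))],[(k2,(nat_lit 302)),(k6,
    (nat_lit 308)),(k1,(nat_lit 316)),(k11,(nat_lit 317)),(k8,(nat_lit 323)),(k0,(nat_lit 324)),(k7,(nat_lit 324)),
    (k3,(nat_lit 330)),(k9,(nat_lit 331)),(k10,(nat_lit 333)),(k4,(nat_lit 356)),(k5,(nat_lit 356))],[(k2,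
    (nat_lit 302)),(k3,(nat_lit 302)),(k9,(nat_lit 323)),(k0,(nat_lit 324)),(k7,(nat_lit 324)),(k10,(nat_lit 325)),
    (k4,(nat_lit 328)),(k11,(nat_lit 331)),(k1,(nat_lit 332)),(k6,(nat_lit 332)),(k8,(nat_lit 333)),(k5,
    (nat_lit 356))],[(k2,(nat_lit 270)),(k3,(nat_lit 298)),(k9,(nat_lit 319)),(k0,(nat_lit 320)),(k7,(nat_lit 320)),
    (k10,(nat_lit 321)),(k4,(nat_lit 324)),(k5,(nat_lit 324)),(k11,(nat_lit 327)),(k1,(nat_lit 328)),(k6,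
    (nat_lit 328)),(k8,(nat_lit 329))],[(k2,(nat_lit 298)),(k3,(nat_lit 298)),(k5,(nat_lit 308)),(k0,(nat_lit 320)),
    (k1,(nat_lit 320)),(k6,(nat_lit 320)),(k8,(nat_lit 327)),(k9,(nat_lit 327)),(k7,(nat_lit 328)),(k10,
    (nat_lit 329)),(k11,(nat_lit 329)),(k4,(nat_lit 332))],[(k3,(nat_lit 305)),(k7,(nat_lit 319)),(k2,(nat_lit 321)),
    (k4,(nat_lit 323)),(k0,(nat_lit 327)),(k1,(nat_lit 327)),(k6,(nat_lit 327)),(k5,(nat_lit 331)),(k8,(nat_lit 334)),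
    (k9,(nat_lit 334)),(k10,(nat_lit 336)),(k11,(nat_lit 336))],[(k3,(nat_lit 305)),(k2,(nat_lit 321)),(k5,
    (nat_lit 323)),(k0,(nat_lit 327)),(k1,(nat_lit 327)),(k6,(nat_lit 327)),(k7,(nat_lit 329)),(k4,(nat_lit 333)),(k8,
    (nat_lit 334)),(k9,(nat_lit 334)),(k10,(nat_lit 336)),(k11,(nat_lit 336))],[(k3,(nat_lit 307)),(k2,(nat_lit 315)),
    (k5,(nat_lit 317)),(k7,(nat_lit 327)),(k0,(nat_lit 329)),(k1,(nat_lit 329)),(k6,(nat_lit 329)),(k4,(nat_lit 331)),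
    (k8,(nat_lit 336)),(k9,(nat_lit 336)),(k10,(nat_lit 338)),(k11,(nat_lit 338))],[(k3,(nat_lit 307)),(k2,
    (nat_lit 315)),(k7,(nat_lit 321)),(k4,(nat_lit 325)),(k0,(nat_lit 329)),(k1,(nat_lit 329)),(k6,(nat_lit 329)),(k5,
    (nat_lit 333)),(k8,(nat_lit 336)),(k9,(nat_lit 336)),(k10,(nat_lit 338)),(k11,(nat_lit 338))]]
    [[k2,k1,k0,k0,k0,k0],[k1,k2,k0,k0,k0,k0],[k1,k1,k1,k0,k0,k0],[k1,k1,k0,k1,k0,k0],[k1,k1,k0,k0,k1,k0],[k1,k1,k0,k0,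
    k0,k1],[k0,k3,k0,k0,k0,k0],[k0,k2,k1,k0,k0,k0],[k0,k2,k0,k1,k0,k0],[k0,k2,k0,k0,k1,k0],[k0,k2,k0,k0,k0,k1],[k0,k1,
    k1,k1,k0,k0],[k0,k1,k1,k0,k1,k0],[k0,k1,k1,k0,k0,k1],[k0,k1,k0,k2,k0,k0],[k0,k1,k0,k1,k1,k0],[k0,k1,k0,k1,k0,k1],
    [k0,k1,k0,k0,k1,k1]]
    [.ref k169 k0 [(z1,[z0,z1]),(z1,[z3,y2])],.ref k169 k0 [(z1,[z0,z1]),(z2,[z3,y1])],.ref k170 k0 [(z1,[z0,z1]),(z1,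
    [z3,y1])],.ref k171 k0 [(z1,[z0,z1]),(z1,[z3,y1])],.ref k172 k0 [(z1,[z0,z1]),(z1,[z3,y1])],.ref k173 k0 [(z1,[z0,
    z1]),(z1,[z3,y1])],.ref k169 k0 [(z1,[z0,z1]),(z1,[z1])],.ref (nat_lit 217) k7 [(z1,[z3,z1,y3]),(z1,[y3,y2,z6])],
    .ref (nat_lit 261) k0 [(z1,[z0,z1]),(z1,[z1])],.ref (nat_lit 312) k0 [(z1,[z0,z1]),(z1,[z1])],
    .ref (nat_lit 330) k10 [(z1,[z3,z1,y3]),(z1,[z0,z1])],.ref k170 k11 [(z1,[z0,z1]),(z1,[y3,y1,z3])],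
    .ref k171 k11 [(z1,[z0,z1]),(z1,[y3,y1,z3])],.ref (nat_lit 331) k11 [(z1,[z0,z1]),(z1,[z1])],
    .ref (nat_lit 372) k0 [(z1,[z0,z1]),(z1,[z1])],.ref k172 k11 [(z1,[z0,z1]),(z1,[y3,y1,z3])],
    .ref (nat_lit 373) k0 [(z1,[z0,z1]),(z1,[z1])],.ref (nat_lit 331) k0 [(z1,[z0,z1]),(z1,[z1])]],
    .base (.leafM k3 [k2,k3,k4,k5,k0,k1] [(z1,[z0,y1,y1,z1])] []),
    .base (.leafM k0 [k0,k1,k2,k3,k4,k5] [(z1,[z0,z1,z1])] []),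
    .base (.leafM k0 [k0,k1,k2,k3,k4,k5] [(z1,[z0,z1,z1])] []),
    .lp k0 [(nat_lit 436),(nat_lit 464),(nat_lit 464),(nat_lit 428),(nat_lit 410),(nat_lit 406)] [k14,k14,k0,k0,k0,k0,
    k18,k18,k27,k27,k29,k29] k0 [[k0,k0,k4,k0,k0,k0,k0,k0,k24,k32,k0,k0],[k0,k0,k0,k0,k4,k0,k12,k0,k0,k0,k0,k0],[k0,
    k0,k0,k0,k0,k0,k0,k48,k0,k0,k52,k0],[k0,k4,k0,k0,k0,k0,k0,k36,k0,k0,k32,k0],[k0,k0,k0,k0,k0,k12,k24,k0,k0,k0,k0,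
    k16],[k4,k0,k0,k0,k0,k0,k12,k0,k36,k36,k0,k16],[k0,k0,k36,k48,k0,k0,k0,k0,k90,k90,k0,k0],[k12,k0,k0,k0,k12,k24,k0,
    k0,k0,k0,k0,k8],[k0,k32,k0,k0,k36,k0,k0,k90,k0,k0,k94,k0],[k0,k24,k0,k0,k36,k0,k0,k90,k0,k0,k94,k0],[k0,k0,k0,k0,
    k16,k16,k8,k0,k0,k0,k0,k0],[k0,k0,k32,k52,k0,k0,k0,k0,k94,k94,k0,k0]] (nat_lit 1308) k5
    [[(k11,(nat_lit 327)),(k8,(nat_lit 329)),(k2,(nat_lit 398)),(k5,(nat_lit 418)),(k10,(nat_lit 421)),(k9,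
    (nat_lit 423)),(k0,(nat_lit 436)),(k1,(nat_lit 436)),(k6,(nat_lit 440)),(k7,(nat_lit 448)),(k3,(nat_lit 450)),(k4,
    (nat_lit 466))],[(k8,(nat_lit 391)),(k11,(nat_lit 397)),(k10,(nat_lit 421)),(k9,(nat_lit 423)),(k7,(nat_lit 432)),
    (k0,(nat_lit 436)),(k1,(nat_lit 436)),(k6,(nat_lit 444)),(k5,(nat_lit 446)),(k2,(nat_lit 450)),(k3,(nat_lit 450)),
    (k4,(nat_lit 454))],[(k9,(nat_lit 425)),(k10,(nat_lit 435)),(k7,(nat_lit 442)),(k6,(nat_lit 446)),(k0,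
    (nat_lit 450)),(k1,(nat_lit 450)),(k8,(nat_lit 461)),(k3,(nat_lit 464)),(k4,(nat_lit 464)),(k5,(nat_lit 464)),
    (k11,(nat_lit 467)),(k2,(nat_lit 468))],[(k1,(nat_lit 398)),(k6,(nat_lit 398)),(k11,(nat_lit 435)),(k8,
    (nat_lit 437)),(k7,(nat_lit 446)),(k0,(nat_lit 450)),(k2,(nat_lit 464)),(k4,(nat_lit 464)),(k5,(nat_lit 464)),
    (k10,(nat_lit 467)),(k3,(nat_lit 468)),(k9,(nat_lit 473))],[(k6,(nat_lit 410)),(k1,(nat_lit 418)),(k11,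
    (nat_lit 435)),(k8,(nat_lit 437)),(k0,(nat_lit 446)),(k7,(nat_lit 446)),(k2,(nat_lit 464)),(k3,(nat_lit 464)),(k4,
    (nat_lit 464)),(k5,(nat_lit 464)),(k9,(nat_lit 485)),(k10,(nat_lit 487))],[(k9,(nat_lit 413)),(k10,(nat_lit 419)),
    (k7,(nat_lit 446)),(k4,(nat_lit 452)),(k0,(nat_lit 454)),(k6,(nat_lit 458)),(k2,(nat_lit 464)),(k3,(nat_lit 464)),
    (k5,(nat_lit 464)),(k1,(nat_lit 466)),(k11,(nat_lit 471)),(k8,(nat_lit 473))],[(k11,(nat_lit 381)),(k8,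
    (nat_lit 383)),(k10,(nat_lit 401)),(k9,(nat_lit 407)),(k0,(nat_lit 432)),(k7,(nat_lit 440)),(k3,(nat_lit 442)),
    (k2,(nat_lit 446)),(k4,(nat_lit 446)),(k5,(nat_lit 446)),(k1,(nat_lit 448)),(k6,(nat_lit 452))],[(k11,
    (nat_lit 327)),(k8,(nat_lit 329)),(k2,(nat_lit 398)),(k5,(nat_lit 410)),(k10,(nat_lit 417)),(k9,(nat_lit 419)),
    (k6,(nat_lit 428)),(k1,(nat_lit 440)),(k0,(nat_lit 444)),(k3,(nat_lit 446)),(k7,(nat_lit 452)),(k4,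
    (nat_lit 458))],[(k10,(nat_lit 400)),(k7,(nat_lit 407)),(k9,(nat_lit 410)),(k4,(nat_lit 413)),(k6,(nat_lit 419)),
    (k0,(nat_lit 423)),(k1,(nat_lit 423)),(k3,(nat_lit 425)),(k2,(nat_lit 473)),(k5,(nat_lit 485)),(k11,
    (nat_lit 498)),(k8,(nat_lit 500))],[(k1,(nat_lit 329)),(k6,(nat_lit 329)),(k7,(nat_lit 383)),(k0,(nat_lit 391)),
    (k11,(nat_lit 408)),(k8,(nat_lit 410)),(k2,(nat_lit 437)),(k5,(nat_lit 437)),(k3,(nat_lit 461)),(k4,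
    (nat_lit 473)),(k9,(nat_lit 500)),(k10,(nat_lit 502))],[(k1,(nat_lit 327)),(k6,(nat_lit 327)),(k7,(nat_lit 381)),
    (k0,(nat_lit 397)),(k11,(nat_lit 406)),(k8,(nat_lit 408)),(k2,(nat_lit 435)),(k5,(nat_lit 435)),(k3,
    (nat_lit 467)),(k4,(nat_lit 471)),(k9,(nat_lit 498)),(k10,(nat_lit 500))],[(k9,(nat_lit 400)),(k7,(nat_lit 401)),
    (k10,(nat_lit 406)),(k6,(nat_lit 417)),(k4,(nat_lit 419)),(k0,(nat_lit 421)),(k1,(nat_lit 421)),(k3,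
    (nat_lit 435)),(k2,(nat_lit 467)),(k5,(nat_lit 487)),(k11,(nat_lit 500)),(k8,(nat_lit 502))]]
    [[k2,k1,k0,k0,k0,k0],[k2,k0,k0,k0,k1,k0],[k2,k0,k0,k0,k0,k1],[k1,k1,k0,k1,k0,k0],[k1,k1,k0,k0,k1,k0],[k1,k1,k0,k0,
    k0,k1],[k1,k0,k1,k0,k1,k0],[k1,k0,k1,k0,k0,k1],[k1,k0,k0,k1,k1,k0],[k1,k0,k0,k1,k0,k1],[k1,k0,k0,k0,k2,k0],[k1,k0,
    k0,k0,k1,k1],[k1,k0,k0,k0,k0,k2],[k0,k1,k0,k2,k0,k0],[k0,k1,k0,k1,k1,k0],[k0,k1,k0,k1,k0,k1],[k0,k1,k0,k0,k1,k1],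
    [k0,k0,k1,k1,k1,k0],[k0,k0,k1,k1,k0,k1],[k0,k0,k0,k2,k1,k0],[k0,k0,k0,k2,k0,k1],[k0,k0,k0,k1,k2,k0],[k0,k0,k0,k1,
    k1,k1],[k0,k0,k0,k1,k0,k2]]
    [.ref k43 k0 [(z1,[z2,y1,y1]),(z1,[y1,z2,z2]),(z1,[y1,z1,z0,z1])],.ref k48 k7 [(z1,[z0,z1,z1]),(z1,[y2,z1,y1,z2]),
    (z1,[z0,y1])],.ref k13 k0 [(z1,[z1]),(z1,[y1,z2,z2]),(z1,[y3,z2,y2,z4])],.ref k43 k0 [(z1,[z2,z1,y1]),(z1,[y1,z1,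
    z2]),(z1,[y1,z0,z0,z1])],.ref (nat_lit 375) k5 [(z1,[z2,y2,y1]),(z1,[y1,z0,z0,z1]),(z1,[z0,z1])],
    .ref (nat_lit 376) k7 [(z1,[z0,z1,z1]),(z1,[y1,z1,z0,z1]),(z1,[z0,y1])],.ref (nat_lit 376) k7 [(z1,[z0,z1,z1]),
    (z1,[z1]),(z1,[z0,y1])],.ref (nat_lit 375) k5 [(z1,[y2,z0,y1,z2]),(z1,[z1,y1]),(z1,[z0,z1])],.ref k48 k7 [(z1,[z0,
    z1,z1]),(z1,[y2,y1,y1,z2]),(z1,[z0,y1])],.ref k13 k0 [(z1,[z1,z1]),(z1,[y1,z1,z2]),(z1,[y3,y1,y2,z4])],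
    .ref (nat_lit 375) k5 [(z1,[z1,y1]),(z2,[y1,y1,y1,z2]),(z1,[z0,z1])],.ref (nat_lit 377) k8 [(z1,[y1,z0,y1,z1]),
    (z1,[z0,z0,z1]),(z1,[z1,y1,y1])],.ref (nat_lit 376) k7 [(z1,[z0,z1,z1]),(z2,[y1,z1,y1,z2]),(z1,[z0,y1])],
    .ref k43 k0 [(z1,[z2,z3,y1]),(z1,[y1,z0,z2]),(z1,[y1,y1,z0,z1])],.ref (nat_lit 375) k5 [(z1,[z2,z0,y1]),(z1,[y1,
    y1,z0,z1]),(z1,[z0,z1])],.ref (nat_lit 376) k7 [(z1,[z0,z1,z1]),(z1,[y1,z0,z0,z1]),(z1,[z0,y1])],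
    .ref k108 k0 [(z1,[y2,z1,z1]),(z1,[z1]),(z1,[z3,y1,y2,z1])],.ref (nat_lit 376) k7 [(z1,[z0,z1,z1]),(z1,[z1,z1]),
    (z1,[z0,y1])],.ref (nat_lit 375) k5 [(z1,[y2,y2,y1,z2]),(z1,[z1]),(z1,[z0,z1])],.ref k48 k7 [(z1,[z0,z1,z1]),(z1,
    [y2,y3,y1,z2]),(z1,[z0,y1])],.ref k13 k0 [(z1,[z1,z2]),(z1,[y1,z0,z2]),(z1,[y3,y4,y2,z4])],
    .ref (nat_lit 375) k5 [(z1,[z1]),(z2,[y1,y2,y1,z2]),(z1,[z0,z1])],.ref (nat_lit 377) k8 [(z1,[y1,y1,y1,z1]),(z1,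
    [z0,z0,z1]),(z1,[z1,z0,y1])],.ref (nat_lit 376) k7 [(z1,[z0,z1,z1]),(z2,[y1,z0,y1,z2]),(z1,[z0,y1])]],
    .base (.leafM k0 [k1,k2,k3,k4,k5,k0] [(z1,[y1,y1,z1])] []),
    .base (.leafM k3 [k3,k4,k5,k0,k1,k2] [(z1,[z1,z1])] []),
    .base (.leafM k3 [k0,k1,k2,k3,k4,k5] [(z1,[z0,z1])] []),
    .base (.leafM k0 [k1,k2,k3,k4,k5,k0] [(z1,[y1,y1,z1])] []),
    .base (.leafM k0 [k2,k3,k4,k5,k0,k1] [(z2,[y2,y1,y1,z2])] [])]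

theorem hB6_171_31 : blkB [0, 0, 0, 0, 0, 0] [] sp6 hS6_171 (pcls (n := 6) [0, 0, 0, 0, 0, 0]) hD6_171 560 31 hN6_171_31 = true := by
  decide +kernel

/-- nodes 384 to 395 -/
noncomputable def hN6_171_32 : List HM :=
  [.base (.leafM k3 [k3,k4,k5,k0,k1,k2] [(z1,[z0,z0,y1,z1])] []),
    .base (.leafM k3 [k1,k2,k3,k4,k5,k0] [(z1,[z0,z0,z1])] []),
    .base (.leafM k3 [k1,k2,k3,k4,k5,k0] [(z1,[z0,z0,z1])] []),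
    .base (.leafM k0 [k1,k2,k3,k4,k5,k0] [(z1,[y1,y1,z0,z1])] []),
    .lp k0 [(nat_lit 322),(nat_lit 320),(nat_lit 320),(nat_lit 306),(nat_lit 328),(nat_lit 316)] [k3,k3,k4,k4,k4,k4,
    k11,k11,k0,k0,k6,k6] k0 [[k0,k0,k36,k0,k8,k0,k0,k0,k30,k0,k0,k34],[k0,k0,k36,k0,k48,k0,k18,k0,k46,k0,k0,k54],[k0,
    k0,k0,k0,k72,k0,k0,k34,k54,k10,k38,k78],[k36,k36,k28,k0,k0,k0,k0,k2,k0,k0,k0,k0],[k0,k0,k0,k0,k0,k44,k50,k14,k0,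
    k34,k22,k0],[k48,k8,k0,k72,k0,k0,k0,k0,k0,k30,k2,k0],[k0,k0,k2,k34,k0,k14,k0,k0,k12,k0,k0,k0],[k18,k0,k0,k0,k0,
    k50,k36,k0,k0,k0,k0,k12],[k0,k0,k0,k10,k30,k34,k0,k0,k0,k0,k12,k0],[k46,k30,k0,k54,k0,k0,k0,k12,k0,k0,k24,k0],
    [k54,k34,k0,k78,k0,k0,k12,k0,k0,k0,k0,k0],[k0,k0,k0,k38,k2,k22,k0,k0,k24,k12,k0,k0]] (nat_lit 960) k5
    [[(k2,(nat_lit 283)),(k11,(nat_lit 295)),(k4,(nat_lit 299)),(k7,(nat_lit 312)),(k8,(nat_lit 313)),(k10,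
    (nat_lit 319)),(k1,(nat_lit 322)),(k9,(nat_lit 325)),(k6,(nat_lit 326)),(k3,(nat_lit 355)),(k0,(nat_lit 376)),(k5,
    (nat_lit 399))],[(k5,(nat_lit 285)),(k10,(nat_lit 285)),(k11,(nat_lit 289)),(k7,(nat_lit 306)),(k3,(nat_lit 321)),
    (k0,(nat_lit 322)),(k9,(nat_lit 325)),(k6,(nat_lit 332)),(k2,(nat_lit 357)),(k4,(nat_lit 369)),(k8,(nat_lit 371)),
    (k1,(nat_lit 376))],[(k10,(nat_lit 264)),(k7,(nat_lit 265)),(k11,(nat_lit 272)),(k5,(nat_lit 284)),(k9,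
    (nat_lit 306)),(k6,(nat_lit 313)),(k3,(nat_lit 320)),(k0,(nat_lit 321)),(k4,(nat_lit 328)),(k8,(nat_lit 354)),(k1,
    (nat_lit 355)),(k2,(nat_lit 356))],[(k10,(nat_lit 240)),(k7,(nat_lit 241)),(k11,(nat_lit 264)),(k6,(nat_lit 279)),
    (k1,(nat_lit 283)),(k8,(nat_lit 314)),(k4,(nat_lit 320)),(k5,(nat_lit 320)),(k9,(nat_lit 326)),(k2,(nat_lit 348)),
    (k3,(nat_lit 356)),(k0,(nat_lit 357))],[(k3,(nat_lit 284)),(k0,(nat_lit 285)),(k5,(nat_lit 292)),(k6,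
    (nat_lit 311)),(k7,(nat_lit 313)),(k2,(nat_lit 320)),(k11,(nat_lit 328)),(k10,(nat_lit 356)),(k9,(nat_lit 358)),
    (k8,(nat_lit 378)),(k4,(nat_lit 392)),(k1,(nat_lit 399))],[(k9,(nat_lit 274)),(k4,(nat_lit 276)),(k8,
    (nat_lit 290)),(k1,(nat_lit 299)),(k6,(nat_lit 299)),(k7,(nat_lit 313)),(k2,(nat_lit 320)),(k10,(nat_lit 320)),
    (k3,(nat_lit 328)),(k11,(nat_lit 348)),(k0,(nat_lit 369)),(k5,(nat_lit 392))],[(k2,(nat_lit 241)),(k3,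
    (nat_lit 265)),(k8,(nat_lit 287)),(k0,(nat_lit 306)),(k1,(nat_lit 312)),(k4,(nat_lit 313)),(k5,(nat_lit 313)),(k9,
    (nat_lit 331)),(k10,(nat_lit 333)),(k11,(nat_lit 345)),(k7,(nat_lit 350)),(k6,(nat_lit 356))],[(k2,(nat_lit 279)),
    (k4,(nat_lit 299)),(k11,(nat_lit 299)),(k5,(nat_lit 311)),(k10,(nat_lit 311)),(k3,(nat_lit 313)),(k8,
    (nat_lit 317)),(k9,(nat_lit 317)),(k1,(nat_lit 326)),(k0,(nat_lit 332)),(k6,(nat_lit 342)),(k7,(nat_lit 356))],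
    [(k4,(nat_lit 274)),(k9,(nat_lit 292)),(k3,(nat_lit 306)),(k10,(nat_lit 310)),(k6,(nat_lit 317)),(k11,
    (nat_lit 322)),(k0,(nat_lit 325)),(k1,(nat_lit 325)),(k2,(nat_lit 326)),(k7,(nat_lit 331)),(k8,(nat_lit 340)),(k5,
    (nat_lit 358))],[(k7,(nat_lit 287)),(k4,(nat_lit 290)),(k1,(nat_lit 313)),(k2,(nat_lit 314)),(k6,(nat_lit 317)),
    (k11,(nat_lit 322)),(k8,(nat_lit 328)),(k9,(nat_lit 340)),(k10,(nat_lit 346)),(k3,(nat_lit 354)),(k0,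
    (nat_lit 371)),(k5,(nat_lit 378))],[(k2,(nat_lit 264)),(k3,(nat_lit 272)),(k0,(nat_lit 289)),(k1,(nat_lit 295)),
    (k6,(nat_lit 299)),(k11,(nat_lit 316)),(k8,(nat_lit 322)),(k9,(nat_lit 322)),(k5,(nat_lit 328)),(k10,
    (nat_lit 328)),(k7,(nat_lit 345)),(k4,(nat_lit 348))],[(k2,(nat_lit 240)),(k3,(nat_lit 264)),(k0,(nat_lit 285)),
    (k9,(nat_lit 310)),(k6,(nat_lit 311)),(k10,(nat_lit 316)),(k1,(nat_lit 319)),(k4,(nat_lit 320)),(k11,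
    (nat_lit 328)),(k7,(nat_lit 333)),(k8,(nat_lit 346)),(k5,(nat_lit 356))]]
    [[k2,k0,k0,k0,k0,k1],[k1,k1,k1,k0,k0,k0],[k1,k1,k0,k1,k0,k0],[k1,k1,k0,k0,k0,k1],[k1,k0,k1,k1,k0,k0],[k1,k0,k1,k0,
    k0,k1],[k1,k0,k0,k1,k1,k0],[k1,k0,k0,k1,k0,k1],[k1,k0,k1,k0,k1,k0],[k1,k0,k0,k0,k1,k1],[k1,k0,k0,k0,k0,k2],[k0,k2,
    k0,k1,k0,k0],[k0,k2,k0,k0,k0,k1],[k0,k1,k2,k0,k0,k0],[k0,k1,k1,k1,k0,k0],[k0,k1,k1,k0,k0,k1],[k0,k1,k1,k0,k1,k0],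
    [k0,k1,k0,k2,k0,k0],[k0,k1,k0,k1,k1,k0],[k0,k1,k0,k1,k0,k1],[k0,k1,k0,k0,k1,k1],[k0,k1,k0,k0,k0,k2],[k0,k0,k2,k1,
    k0,k0],[k0,k0,k2,k0,k1,k0],[k0,k0,k1,k1,k1,k0],[k0,k0,k1,k1,k0,k1],[k0,k0,k1,k0,k1,k1],[k0,k0,k0,k1,k2,k0],[k0,k0,
    k0,k1,k1,k1]]
    [.ref k72 k0 [(z1,[z1]),(z1,[y1,z2,z1]),(z1,[z1,y2])],.ref k135 k1 [(z1,[z1,y2,y1]),(z1,[z0,z2,z1]),(z1,[z0,y1,y1,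
    z1])],.ref k13 k11 [(z1,[z0,z2,z1]),(z1,[y2,z0,y1,z2]),(z1,[y2,z0,z1,z2])],.ref (nat_lit 383) k10 [(z1,[z2,y1,z0,
    y1]),(z1,[y2,z3,z1,z1]),(z1,[z0,y1,y1,z1])],.ref (nat_lit 384) k8 [(z1,[z2,z0,z1,y2]),(z1,[z0,y1,y1,z1]),(z1,[y1,
    z0,z0,z1])],.ref (nat_lit 385) k4 [(z1,[y1,y1]),(z1,[z0,y1,y1,z1]),(z1,[z1])],.ref (nat_lit 386) k3 [(z1,[z2,y1,
    y1,y1]),(z1,[y2,z0,z1,z2]),(z1,[y1,z0,z0,z1])],.ref (nat_lit 383) k10 [(z1,[y2,z1,z0,z1]),(z1,[z2,z1,z1,y1]),(z1,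
    [z0,y1,y1,z1])],.ref k72 k0 [(z1,[z1,z1]),(z1,[y1,z1,z1]),(z1,[z1,y1])],.ref (nat_lit 387) k8 [(z1,[y1,z1,z1]),
    (z1,[z0,y1,y1,z1]),(z1,[z2,y2,y1])],.ref k13 k11 [(z1,[z0,z2,z1]),(z1,[z2,y2,y1]),(z1,[z2,y2,z1])],
    .ref k72 k0 [(z2,[y1,z3,z1,z1]),(z2,[z1,z1,z1,y1]),(z2,[y1,y1,z1,z1])],.ref k129 k3 [(z1,[y2,y1,y1,z1]),(z1,[z2,
    z0,z1]),(z1,[z1])],.ref k135 k1 [(z2,[z1,y2,y1]),(z1,[z0,z2,z1]),(z1,[z0,y1,y1,z1])],.ref (nat_lit 387) k8 [(z1,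
    [z1,z1,z1,y1]),(z1,[z0,y1,y1,z1]),(z1,[y2,y2,y1,z2])],.ref (nat_lit 386) k3 [(z1,[y2,y1,y1,z1]),(z1,[z2,z0,z1]),
    (z1,[z1])],.ref (nat_lit 383) k10 [(z1,[z2,z1,z0,y1]),(z1,[y2,z1,z1,z1]),(z1,[z0,y1,y1,z1])],.ref k13 k11 [(z1,
    [z0,z2,z1]),(z1,[y1,y2,y2,z2]),(z1,[y1,y2,z0,z2])],.ref (nat_lit 385) k4 [(z1,[z1,y1,z0,y1]),(z1,[z0,y1,y1,z1]),
    (z1,[y1,z0,z0,z1])],.ref k72 k0 [(z1,[y1,z1,z0,z1]),(z1,[z1,z1,z1,y1]),(z1,[y1,y1,z0,z1])],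
    .ref (nat_lit 384) k8 [(z1,[y2,z0,z1]),(z1,[z0,y1,y1,z1]),(z1,[z1])],.ref (nat_lit 383) k10 [(z1,[z1,z1,z1,y1]),
    (z1,[y1,z1,z0,z1]),(z1,[z0,y1,y1,z1])],.ref k136 k9 [(z2,[y1,y1,y1,z1]),(z2,[y1,y3,y1,z1]),(z1,[z1])],
    .ref (nat_lit 385) k4 [(z1,[y1,y2]),(z1,[z0,y1,y1,z1]),(z1,[z1,z1])],.ref (nat_lit 383) k10 [(z1,[y2,y1,z0,z1]),
    (z1,[z2,z3,z1,y1]),(z1,[z0,y1,y1,z1])],.ref k136 k9 [(z1,[y1,y1,y1,z1]),(z1,[y1,y2,y1,z1]),(z1,[z2,z1,z1,y1])],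
    .ref k13 k11 [(z1,[z0,z2,z1]),(z1,[z2,z0,y1]),(z1,[z2,z0,z1])],.ref k135 k1 [(z2,[y1,y3,y1,z1]),(z1,[z0,z2,z1]),
    (z1,[z0,y1,y1,z1])],.ref k135 k1 [(z1,[y1,y2,y1,z1]),(z1,[z0,z2,z1]),(z1,[z0,y1,y1,z1])]],
    .base (.leafM k0 [k2,k3,k4,k5,k0,k1] [(z1,[y1,y1,y1,z1])] []),
    .base (.leafM k3 [k0,k1,k2,k3,k4,k5] [(z1,[y1,z0,y1,z1])] []),
    .base (.leafM k1 [k0,k1,k2,k3,k4,k5] [(z1,[y1,z0,y1,z1]),(z1,[z1,z0,z1])] []),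
    .base (.leafM k3 [k0,k1,k2,k3,k4,k5] [(z1,[y1,z0,y1,z1])] []),
    .base (.leafM k0 [k1,k2,k3,k4,k5,k0] [(z1,[y1,y1,z0,z1])] []),
    .base (.leafM k0 [k2,k3,k4,k5,k0,k1] [(z1,[y1,y1,y1,z0,z1])] []),
    .lp k0 [(nat_lit 328),(nat_lit 280),(nat_lit 342),(nat_lit 338),(nat_lit 302),(nat_lit 328)] [k7,k7,k31,k31,k0,k0,
    k2,k2,k20,k20,k7,k7] k0 [[k0,k0,k0,k0,k0,k0,k4,k0,k0,k0,k8,k6],[k0,k0,k0,k0,k0,k4,k8,k0,k0,k0,k0,k0],[k0,k0,k0,k4,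
    k0,k4,k4,k0,k0,k0,k0,k0],[k0,k0,k0,k0,k0,k0,k4,k0,k0,k8,k16,k6],[k4,k0,k0,k4,k0,k0,k0,k0,k0,k0,k0,k10],[k0,k0,k0,
    k0,k0,k0,k0,k18,k8,k0,k0,k0],[k0,k0,k0,k0,k18,k0,k0,k36,k42,k42,k0,k32],[k8,k4,k4,k4,k0,k0,k0,k0,k0,k0,k0,k14],
    [k0,k0,k8,k0,k0,k0,k0,k42,k0,k0,k8,k0],[k0,k0,k0,k0,k8,k0,k0,k42,k0,k0,k0,k0],[k0,k6,k6,k0,k0,k10,k14,k32,k0,k0,
    k0,k0],[k0,k8,k16,k0,k0,k0,k0,k0,k0,k8,k16,k0]] (nat_lit 960) k5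
    [[(k8,(nat_lit 307)),(k2,(nat_lit 310)),(k3,(nat_lit 310)),(k1,(nat_lit 312)),(k5,(nat_lit 319)),(k0,
    (nat_lit 320)),(k10,(nat_lit 328)),(k11,(nat_lit 328)),(k4,(nat_lit 335)),(k7,(nat_lit 343)),(k6,(nat_lit 347)),
    (k9,(nat_lit 347))],[(k2,(nat_lit 304)),(k3,(nat_lit 304)),(k9,(nat_lit 311)),(k8,(nat_lit 315)),(k1,
    (nat_lit 320)),(k10,(nat_lit 322)),(k0,(nat_lit 328)),(k11,(nat_lit 328)),(k4,(nat_lit 335)),(k5,(nat_lit 335)),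
    (k7,(nat_lit 337)),(k6,(nat_lit 341))],[(k2,(nat_lit 280)),(k3,(nat_lit 280)),(k9,(nat_lit 283)),(k8,
    (nat_lit 291)),(k0,(nat_lit 304)),(k11,(nat_lit 304)),(k4,(nat_lit 307)),(k7,(nat_lit 309)),(k1,(nat_lit 310)),
    (k5,(nat_lit 311)),(k10,(nat_lit 312)),(k6,(nat_lit 313))],[(k2,(nat_lit 276)),(k3,(nat_lit 280)),(k9,
    (nat_lit 287)),(k8,(nat_lit 291)),(k0,(nat_lit 304)),(k4,(nat_lit 307)),(k7,(nat_lit 309)),(k1,(nat_lit 310)),(k5,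
    (nat_lit 311)),(k11,(nat_lit 312)),(k6,(nat_lit 313)),(k10,(nat_lit 320))],[(k2,(nat_lit 311)),(k3,(nat_lit 311)),
    (k8,(nat_lit 314)),(k9,(nat_lit 318)),(k1,(nat_lit 319)),(k10,(nat_lit 329)),(k0,(nat_lit 335)),(k11,
    (nat_lit 335)),(k4,(nat_lit 342)),(k6,(nat_lit 344)),(k7,(nat_lit 344)),(k5,(nat_lit 346))],[(k2,(nat_lit 307)),
    (k3,(nat_lit 307)),(k10,(nat_lit 325)),(k8,(nat_lit 330)),(k0,(nat_lit 335)),(k1,(nat_lit 335)),(k11,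
    (nat_lit 335)),(k6,(nat_lit 340)),(k7,(nat_lit 340)),(k9,(nat_lit 340)),(k4,(nat_lit 342)),(k5,(nat_lit 342))],
    [(k2,(nat_lit 309)),(k3,(nat_lit 309)),(k6,(nat_lit 320)),(k8,(nat_lit 320)),(k9,(nat_lit 320)),(k11,
    (nat_lit 325)),(k10,(nat_lit 333)),(k0,(nat_lit 337)),(k7,(nat_lit 338)),(k4,(nat_lit 340)),(k1,(nat_lit 343)),
    (k5,(nat_lit 344))],[(k8,(nat_lit 278)),(k11,(nat_lit 291)),(k10,(nat_lit 301)),(k6,(nat_lit 302)),(k2,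
    (nat_lit 313)),(k3,(nat_lit 313)),(k7,(nat_lit 320)),(k9,(nat_lit 320)),(k4,(nat_lit 340)),(k0,(nat_lit 341)),(k5,
    (nat_lit 344)),(k1,(nat_lit 347))],[(k3,(nat_lit 283)),(k2,(nat_lit 287)),(k10,(nat_lit 301)),(k0,(nat_lit 311)),
    (k5,(nat_lit 318)),(k6,(nat_lit 320)),(k7,(nat_lit 320)),(k9,(nat_lit 338)),(k4,(nat_lit 340)),(k8,(nat_lit 344)),
    (k1,(nat_lit 347)),(k11,(nat_lit 357))],[(k6,(nat_lit 278)),(k2,(nat_lit 291)),(k3,(nat_lit 291)),(k8,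
    (nat_lit 302)),(k1,(nat_lit 307)),(k5,(nat_lit 314)),(k0,(nat_lit 315)),(k10,(nat_lit 315)),(k11,(nat_lit 315)),
    (k7,(nat_lit 320)),(k4,(nat_lit 330)),(k9,(nat_lit 344))],[(k6,(nat_lit 291)),(k3,(nat_lit 304)),(k2,
    (nat_lit 312)),(k8,(nat_lit 315)),(k7,(nat_lit 325)),(k0,(nat_lit 328)),(k1,(nat_lit 328)),(k11,(nat_lit 328)),
    (k4,(nat_lit 335)),(k5,(nat_lit 335)),(k10,(nat_lit 336)),(k9,(nat_lit 357))],[(k6,(nat_lit 301)),(k9,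
    (nat_lit 301)),(k3,(nat_lit 312)),(k8,(nat_lit 315)),(k2,(nat_lit 320)),(k0,(nat_lit 322)),(k4,(nat_lit 325)),(k1,
    (nat_lit 328)),(k5,(nat_lit 329)),(k7,(nat_lit 333)),(k11,(nat_lit 336)),(k10,(nat_lit 344))]]
    [[k2,k1,k0,k0,k0,k0],[k2,k0,k0,k0,k1,k0],[k1,k2,k0,k0,k0,k0],[k1,k1,k1,k0,k0,k0],[k1,k1,k0,k0,k1,k0],[k1,k1,k0,k0,
    k0,k1],[k1,k0,k0,k1,k1,k0],[k1,k0,k0,k1,k0,k1],[k1,k0,k0,k0,k1,k1],[k0,k3,k0,k0,k0,k0],[k0,k2,k1,k0,k0,k0],[k0,k2,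
    k0,k1,k0,k0],[k0,k2,k0,k0,k1,k0],[k0,k2,k0,k0,k0,k1],[k0,k1,k1,k0,k1,k0],[k0,k1,k1,k0,k0,k1],[k0,k1,k0,k2,k0,k0],
    [k0,k1,k0,k1,k1,k0],[k0,k1,k0,k1,k0,k1],[k0,k1,k0,k0,k2,k0],[k0,k1,k0,k0,k1,k1],[k0,k0,k1,k0,k1,k1],[k0,k0,k1,k1,
    k1,k0],[k0,k0,k0,k2,k1,k0],[k0,k0,k0,k2,k0,k1],[k0,k0,k0,k1,k2,k0],[k0,k0,k0,k1,k1,k1],[k0,k0,k0,k0,k1,k2]]
    [.ref k25 k0 [(z1,[z3,y1,y3]),(z1,[y3,z2,z6]),(z1,[z3,y2,y3,z1]),(z1,[y3,z2,z3,z0,z3]),(z2,[y3,z0,y3,y2,y6,z6])],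
    .ref k25 k0 [(z3,[z6,z1,z6,z2,z6,y6]),(z3,[y6,z2,z3,y2,y6,z6]),(z3,[z6,y2,z6,z5,z6,y6]),(z3,[y6,z2,y6,y2,z3,z6]),
    (z3,[y3,y2,y12,y4,y12,z12])],.ref k25 k0 [(z1,[y3,z2,z6]),(z1,[z3,y1,y3]),(z1,[y3,z1,z6,z1]),(z1,[z3,y1,y6,z0,
    z3]),(z2,[z3,y3,y12,y2,y6,z6])],.ref k25 k0 [(z1,[z3,z0,y3,y1]),(z1,[y3,z1,z6,z1]),(z1,[z3,y1,y3]),(z1,[y3,z1,z3,
    z1,z3]),(z2,[y3,y1,y3,y1,y6,z6])],.ref k25 k0 [(z1,[y6,z1,z0,y2,y6,z6]),(z1,[z6,z0,z3,z2,z6,y6]),(z1,[y6,z0,z0,y1,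
    y6,z6]),(z1,[z6,z0,z0,z2,z9,y6]),(z1,[z3,y1,y3])],.ref k25 k0 [(z1,[z6,y1,y6]),(z1,[y6,z2,z9]),(z1,[z6,y2,y6,z1]),
    (z1,[y6,z2,z6,z0,z3]),(z1,[y3,z0,z0,y1,y3,z3])],.ref k25 k0 [(z1,[y6,z1,y6,y2,z0,z6]),(z1,[z6,z0,z9,z2,z0,y6]),
    (z1,[y6,z0,y6,y1,z0,z6]),(z1,[z6,z0,z6,z2,z3,y6]),(z1,[z3,y1,z0,z0,y3])],.ref k25 k0 [(z1,[z6,y1,z0,z0,y6]),(z1,
    [y6,z2,z3,z0,z6]),(z1,[z6,y2,z0,z1,y6]),(z1,[y6,z2,z0,z0,z9]),(z1,[y3,z0,y3,y1,z0,z3])],.ref k25 k0 [(z1,[z3,z1,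
    z3,z1,z3,y3]),(z1,[y3,z0,z0,y1,y3,z3]),(z1,[z3,z0,z3,z2,z3,y3]),(z1,[y3,z0,y3,y1,z0,z3]),(z2,[y3,y2,y9,y3,y9,
    z9])],.ref k25 k0 [(z1,[y1,z1,z3]),(z1,[z1]),(z1,[y1,z0,z3,z1]),(z1,[z1,z0,y3,z0,z3]),(z2,[z1,y2,y9,y2,y6,z6])],
    .ref k25 k0 [(z1,[y3,z1,z6,z1]),(z1,[z3,z0,y3,y1]),(z1,[y3,z0,z6,z2]),(z1,[z3,z0,y6,y1,z3]),(z2,[z3,y2,y12,y3,y6,
    z6])],.ref k25 k0 [(z1,[y1,z1,z2,z0,z1]),(z1,[z1,z0,z1,z0,y1]),(z1,[y1,z0,z2,z1,z1]),(z1,[z1,z0,y2,z0,z2]),(z2,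
    [z1,y2,y8,y2,y7,z6])],.ref k25 k0 [(z5,[y6,z3,z6,y2,y6,z6]),(z5,[z6,z2,z9,z2,z6,y6]),(z5,[y6,y2,z6,z3,y6,z6]),(z5,
    [z6,z2,y6,z2,z21,y6]),(z5,[z3,y4,y18,y4,y12,z12])],.ref k25 k0 [(z1,[y2,z1,z4]),(z1,[z2,z0,y1]),(z1,[y2,z0,z4,
    z1]),(z1,[z2,z0,y4,z0,z3]),(z1,[z1,y1,y5,y1,y3,z3])],.ref k25 k0 [(z1,[y6,y1,z0,z0,y6,z6]),(z1,[z6,z2,z3,z0,z6,
    y6]),(z1,[y6,y2,z0,z1,y6,z6]),(z1,[z6,z2,z0,z0,z9,y6]),(z1,[z3,z0,y3,y1])],.ref k25 k0 [(z1,[z6,z1,y6,y2]),(z1,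
    [y6,z0,z9,z2]),(z1,[z6,z0,y6,y1]),(z1,[y6,z0,z6,z2,z3]),(z1,[y3,y1,z0,z0,y3,z3])],.ref k25 k0 [(z1,[y1,z1,z1,z0,
    z2]),(z1,[z1,z0,z2,z0,y2]),(z1,[y1,z0,z1,z1,z2]),(z1,[z1,z0,y1,z0,z1]),(z2,[z1,y2,y7,y2,y8,z6])],.ref k25 k0 [(z5,
    [y6,z3,z0,y2,z0,z6]),(z5,[z6,z2,z15,z2,z0,y6]),(z5,[y6,y2,z0,z3,z0,z6]),(z5,[z6,z2,z0,z2,z15,y6]),(z5,[z3,y4,y15,
    y4,y15,z12])],.ref k25 k0 [(z1,[y2,z1,z2,z0,z2]),(z1,[z2,z0,z1,z0,y2]),(z1,[y2,z0,z2,z1,z2]),(z1,[z2,z0,y2,z0,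
    z1]),(z1,[z1,y1,y4,y1,y4,z3])],.ref k25 k0 [(z2,[y3,z0,y3,y2,y6,z6]),(z2,[z3,z2,z9,z2,z6,y6]),(z2,[y3,y2,y3,z0,y6,
    z6]),(z2,[z3,z2,z3,z2,z12,y6]),(z4,[z3,y2,y9,y2,y6,z6])],.ref k25 k0 [(z1,[y3,z0,z0,y1,y3,z3]),(z1,[z3,z1,z3,z1,
    z3,y3]),(z1,[y3,y1,z0,z0,y3,z3]),(z1,[z3,z1,z0,z1,z6,y3]),(z2,[z3,y1,y6,y1,y3,z3])],.ref k25 k0 [(z1,[z3,z2,z3,z0,
    z3,y3]),(z1,[y3,y1,z0,z0,y3,z3]),(z1,[z3,z1,z3,z1,z3,y3]),(z1,[y3,y1,y3,z0,z0,z3]),(z2,[y3,y3,y9,y2,y9,z9])],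
    .ref k25 k0 [(z1,[y6,y1,y6,z0,z0,z6]),(z1,[z6,z2,z9,z0,z0,y6]),(z1,[y6,y2,y6,z1,z0,z6]),(z1,[z6,z2,z6,z0,z3,y6]),
    (z1,[z3,z0,z0,y1,y3])],.ref k25 k0 [(z5,[y6,z3,y6,y2,z6,z6]),(z5,[z6,z2,z21,z2,y6,y6]),(z5,[y6,y2,y6,z3,z6,z6]),
    (z5,[z6,z2,z6,z2,z9,y6]),(z5,[z3,y4,y12,y4,y18,z12])],.ref k25 k0 [(z1,[y2,z1,z0,z0,z4]),(z1,[z2,z0,z3,z0,y4]),
    (z1,[y2,z0,z0,z1,z4]),(z1,[z2,z0,z0,z0,y1]),(z1,[z1,y1,y3,y1,y5,z3])],.ref k25 k0 [(z2,[y3,z0,y6,y2,y3,z6]),(z2,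
    [z3,z2,z12,z2,z3,y6]),(z2,[y3,y2,y6,z0,y3,z6]),(z2,[z3,z2,z6,z2,z9,y6]),(z4,[z3,y2,y6,y2,y9,z6])],
    .ref k25 k0 [(z1,[y3,z0,y3,y1,z0,z3]),(z1,[z3,z1,z6,z1,z0,y3]),(z1,[y3,y1,y3,z0,z0,z3]),(z1,[z3,z1,z3,z1,z3,y3]),
    (z2,[z3,y1,y3,y1,y6,z3])],.ref k25 k0 [(z1,[z6,z3,z6,z2,z6,y6]),(z1,[y6,y2,y3,y2,y6,z6]),(z1,[z6,z2,z6,z3,z6,y6]),
    (z1,[y6,y2,y6,y2,y3,z6]),(z1,[y3,y2,y6,y2,y6,z6])]]]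

theorem hB6_171_32 : blkB [0, 0, 0, 0, 0, 0] [] sp6 hS6_171 (pcls (n := 6) [0, 0, 0, 0, 0, 0]) hD6_171 560 32 hN6_171_32 = true := by
  decide +kernel

/-- nodes 396 to 407 -/
noncomputable def hN6_171_33 : List HM :=
  [.base (.leafM k1 [k0,k1,k2,k3,k4,k5] [(z1,[y1,z0,y1,z0,z1]),(z1,[z1,z0,z1])] []),
    .base (.leafM k3 [k0,k1,k2,k3,k4,k5] [(z1,[y1,z0,y1,z0,z1])] []),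
    .lp k0 [(nat_lit 332),(nat_lit 272),(nat_lit 344),(nat_lit 336),(nat_lit 306),(nat_lit 328)] [k6,k6,k36,k36,k0,k0,
    k4,k4,k19,k19,k8,k8] k0 [[k0,k0,k0,k12,k0,k12,k12,k0,k0,k0,k12,k20],[k0,k0,k0,k0,k0,k0,k0,k0,k2,k12,k0,k0],[k0,
    k12,k0,k12,k0,k12,k8,k0,k0,k0,k0,k0],[k0,k0,k0,k0,k0,k0,k0,k0,k0,k10,k24,k8],[k0,k12,k0,k12,k0,k0,k0,k0,k0,k0,k0,
    k20],[k0,k0,k0,k0,k0,k0,k0,k0,k14,k0,k0,k0],[k0,k0,k0,k0,k0,k0,k0,k20,k40,k36,k0,k0],[k0,k12,k0,k8,k0,k0,k0,k0,k0,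
    k0,k0,k20],[k12,k0,k10,k0,k0,k0,k0,k36,k0,k0,k10,k0],[k2,k0,k0,k0,k14,k0,k0,k40,k4,k0,k0,k0],[k0,k20,k8,k0,k0,k20,
    k20,k0,k0,k0,k0,k0],[k0,k12,k24,k0,k0,k0,k0,k0,k0,k10,k24,k0]] (nat_lit 960) k5
    [[(k1,(nat_lit 308)),(k8,(nat_lit 309)),(k2,(nat_lit 310)),(k5,(nat_lit 314)),(k9,(nat_lit 319)),(k0,
    (nat_lit 320)),(k3,(nat_lit 322)),(k10,(nat_lit 330)),(k11,(nat_lit 330)),(k4,(nat_lit 338)),(k6,(nat_lit 354)),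
    (k7,(nat_lit 354))],[(k2,(nat_lit 290)),(k3,(nat_lit 302)),(k9,(nat_lit 307)),(k10,(nat_lit 310)),(k1,
    (nat_lit 320)),(k8,(nat_lit 321)),(k4,(nat_lit 326)),(k0,(nat_lit 332)),(k6,(nat_lit 334)),(k7,(nat_lit 334)),(k5,
    (nat_lit 338)),(k11,(nat_lit 342))],[(k2,(nat_lit 272)),(k3,(nat_lit 272)),(k8,(nat_lit 277)),(k9,(nat_lit 289)),
    (k11,(nat_lit 298)),(k0,(nat_lit 302)),(k4,(nat_lit 308)),(k10,(nat_lit 312)),(k6,(nat_lit 316)),(k7,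
    (nat_lit 316)),(k5,(nat_lit 320)),(k1,(nat_lit 322))],[(k2,(nat_lit 260)),(k3,(nat_lit 272)),(k9,(nat_lit 281)),
    (k8,(nat_lit 289)),(k0,(nat_lit 290)),(k4,(nat_lit 296)),(k6,(nat_lit 304)),(k7,(nat_lit 304)),(k5,(nat_lit 308)),
    (k1,(nat_lit 310)),(k11,(nat_lit 310)),(k10,(nat_lit 324))],[(k2,(nat_lit 308)),(k1,(nat_lit 314)),(k8,
    (nat_lit 315)),(k3,(nat_lit 320)),(k9,(nat_lit 325)),(k10,(nat_lit 328)),(k11,(nat_lit 336)),(k0,(nat_lit 338)),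
    (k4,(nat_lit 344)),(k6,(nat_lit 348)),(k7,(nat_lit 352)),(k5,(nat_lit 356))],[(k2,(nat_lit 296)),(k3,
    (nat_lit 308)),(k10,(nat_lit 316)),(k9,(nat_lit 325)),(k0,(nat_lit 326)),(k11,(nat_lit 336)),(k1,(nat_lit 338)),
    (k8,(nat_lit 339)),(k6,(nat_lit 340)),(k7,(nat_lit 340)),(k4,(nat_lit 344)),(k5,(nat_lit 344))],[(k2,
    (nat_lit 304)),(k3,(nat_lit 316)),(k11,(nat_lit 318)),(k8,(nat_lit 321)),(k9,(nat_lit 321)),(k10,(nat_lit 332)),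
    (k0,(nat_lit 334)),(k6,(nat_lit 336)),(k7,(nat_lit 336)),(k4,(nat_lit 340)),(k5,(nat_lit 352)),(k1,
    (nat_lit 354))],[(k8,(nat_lit 285)),(k11,(nat_lit 292)),(k2,(nat_lit 304)),(k3,(nat_lit 316)),(k6,(nat_lit 316)),
    (k9,(nat_lit 321)),(k10,(nat_lit 332)),(k0,(nat_lit 334)),(k7,(nat_lit 336)),(k4,(nat_lit 340)),(k5,
    (nat_lit 348)),(k1,(nat_lit 354))],[(k2,(nat_lit 281)),(k3,(nat_lit 289)),(k10,(nat_lit 297)),(k0,(nat_lit 307)),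
    (k1,(nat_lit 319)),(k6,(nat_lit 321)),(k7,(nat_lit 321)),(k4,(nat_lit 325)),(k5,(nat_lit 325)),(k9,(nat_lit 326)),
    (k8,(nat_lit 346)),(k11,(nat_lit 353))],[(k3,(nat_lit 277)),(k6,(nat_lit 285)),(k2,(nat_lit 289)),(k1,
    (nat_lit 309)),(k8,(nat_lit 310)),(k5,(nat_lit 315)),(k10,(nat_lit 317)),(k11,(nat_lit 317)),(k0,(nat_lit 321)),
    (k7,(nat_lit 321)),(k4,(nat_lit 339)),(k9,(nat_lit 346))],[(k6,(nat_lit 292)),(k3,(nat_lit 298)),(k2,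
    (nat_lit 310)),(k8,(nat_lit 317)),(k7,(nat_lit 318)),(k11,(nat_lit 324)),(k1,(nat_lit 330)),(k4,(nat_lit 336)),
    (k5,(nat_lit 336)),(k10,(nat_lit 338)),(k0,(nat_lit 342)),(k9,(nat_lit 353))],[(k9,(nat_lit 297)),(k0,
    (nat_lit 310)),(k3,(nat_lit 312)),(k4,(nat_lit 316)),(k8,(nat_lit 317)),(k2,(nat_lit 324)),(k5,(nat_lit 328)),(k1,
    (nat_lit 330)),(k6,(nat_lit 332)),(k7,(nat_lit 332)),(k11,(nat_lit 338)),(k10,(nat_lit 352))]]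
    [[k2,k1,k0,k0,k0,k0],[k2,k0,k0,k0,k1,k0],[k1,k2,k0,k0,k0,k0],[k1,k1,k1,k0,k0,k0],[k1,k1,k0,k0,k1,k0],[k1,k1,k0,k0,
    k0,k1],[k1,k0,k0,k1,k1,k0],[k1,k0,k0,k1,k0,k1],[k1,k0,k0,k0,k2,k0],[k1,k0,k0,k0,k1,k1],[k0,k3,k0,k0,k0,k0],[k0,k2,
    k1,k0,k0,k0],[k0,k2,k0,k1,k0,k0],[k0,k2,k0,k0,k1,k0],[k0,k2,k0,k0,k0,k1],[k0,k1,k1,k0,k1,k0],[k0,k1,k1,k0,k0,k1],
    [k0,k1,k0,k2,k0,k0],[k0,k1,k0,k1,k1,k0],[k0,k1,k0,k1,k0,k1],[k0,k1,k0,k0,k2,k0],[k0,k1,k0,k0,k1,k1],[k0,k0,k1,k0,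
    k1,k1],[k0,k0,k1,k1,k1,k0],[k0,k0,k0,k2,k1,k0],[k0,k0,k0,k1,k2,k0],[k0,k0,k0,k1,k1,k1],[k0,k0,k0,k0,k1,k2]]
    [.ref k19 k5 [(z2,[z1,z0,z1,z2,y2]),(z1,[z0,y1,y1,y1,z1]),(z1,[z1,y1,y2,y1,z1]),(z1,[z0,z1,z2,z1,y1])],
    .ref k19 k5 [(z3,[z1,z1,z3,z3,y3]),(z1,[z0,y1,y1,y1,z1]),(z3,[z2,y1,y3,y3,z3]),(z1,[z0,z1,z2,z1,y1])],
    .ref (nat_lit 394) k0 [(z1,[z1,z0,y2]),(z1,[z0,z0,z1]),(z1,[y2,z2,z4,z1]),(z1,[z0,y1,y1,y1,z1])],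
    .ref (nat_lit 394) k0 [(z1,[y1,z2,z1,z1]),(z1,[z0,z0,z1]),(z1,[z2,y2,y2,y1]),(z1,[z0,y1,y1,y1,z1])],
    .ref k142 k2 [(z1,[y2,z1,z1,y1,z1]),(z1,[z0,z0,z0,z1]),(z1,[y2,z2,z3]),(z1,[z3,y2,y3])],.ref k19 k5 [(z1,[z1,z0,
    z0,z1,y1]),(z1,[z0,y1,y1,y1,z1]),(z1,[z2,y1,y3,y1,z1]),(z1,[z0,z1,z2,z1,y1])],.ref k142 k2 [(z1,[y2,y1,y3,y3,z3]),
    (z1,[z0,z0,z0,z1]),(z1,[y2,z0,y1,y2,z2]),(z1,[z3,z1,z3,z3,y3])],.ref k19 k5 [(z1,[z1,z1,z2,z2,y2]),(z1,[z0,y1,y1,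
    y1,z1]),(z1,[z2,z1,z1,z1,y1]),(z1,[z0,z1,z2,z1,y1])],.ref (nat_lit 395) k0 [(z1,[z1,z2]),(z1,[z0,z0,z1]),(z1,[y2,
    z2,z0,z3]),(z1,[z0,y1,y1,y1,z1])],.ref k19 k5 [(z2,[z1,z1,z2,z2,y2]),(z1,[z0,y1,y1,y1,z1]),(z1,[z1,z0,y1,y1,z1]),
    (z1,[z0,z1,z2,z1,y1])],.ref (nat_lit 396) k0 [(z2,[y1,z2,z3]),(z1,[z1]),(z1,[z0,z0,z0,z1]),(z1,[z1,y3,y6,y3,z3])],
    .ref k19 k5 [(z2,[y1,z2,z4,z3,y2]),(z1,[z0,y1,y1,y1,z1]),(z1,[y1,z1,z1,z0,z1]),(z1,[z0,z1,z2,z1,y1])],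
    .ref (nat_lit 396) k0 [(z2,[y1,z1,z1,y1,z1]),(z1,[z1,z1,z2,z1,y1]),(z1,[z0,z0,z0,z1]),(z1,[z1,y2,y4,y2,z2])],
    .ref (nat_lit 397) k0 [(z1,[z1,z1,y2]),(z1,[z0,z0,z1]),(z1,[y2,z0,z4,z1]),(z1,[z0,y1,y1,y1,z1])],
    .ref (nat_lit 396) k0 [(z1,[y1,z1,z2]),(z1,[z2,z0,y1]),(z1,[z0,z0,z0,z1]),(z1,[z2,y3,y7,y3,z3])],.ref k19 k5 [(z1,
    [y1,z1,z2,z2,y1]),(z1,[z0,y1,y1,y1,z1]),(z1,[y2,z1,z1,z1,z1]),(z1,[z0,z1,z2,z1,y1])],.ref k142 k2 [(z1,[z2,y1,y3,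
    y3,z1]),(z1,[z0,z0,z0,z1]),(z1,[z2,z0,y1,y2]),(z1,[y3,z1,z3,z3])],.ref (nat_lit 396) k0 [(z2,[y1,z0,y1,y2,z2]),
    (z1,[z1,z2,z4,z2,y2]),(z1,[z0,z0,z0,z1]),(z1,[z1,y1,y2,y1,z1])],.ref (nat_lit 397) k0 [(z1,[z1,z2,z0,z1,y1]),(z1,
    [z0,z0,z1]),(z1,[y2,y2,z0,y1,z2]),(z1,[z0,y1,y1,y1,z1])],.ref (nat_lit 396) k0 [(z1,[y1,z0,z0,y1,z1]),(z1,[z2,z2,
    z3,z2,y2]),(z1,[z0,z0,z0,z1]),(z1,[z2,y1,y3,y1,z1])],.ref (nat_lit 394) k0 [(z2,[z1,z2,y1]),(z1,[z0,z0,z1]),(z1,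
    [y1,z0,z1,z1]),(z1,[z0,y1,y1,y1,z1])],.ref (nat_lit 394) k0 [(z1,[z1,z1,y1]),(z1,[z0,z0,z1]),(z1,[y2,z0,z2,z1]),
    (z1,[z0,y1,y1,y1,z1])],.ref (nat_lit 394) k0 [(z1,[y1,z1,z0,z1]),(z1,[z0,z0,z1]),(z1,[z2,z0,z0,y1]),(z1,[z0,y1,y1,
    y1,z1])],.ref k19 k5 [(z1,[y1,z0,z0,z1]),(z1,[z0,y1,y1,y1,z1]),(z1,[y2,y1,y3,y1,z3]),(z1,[z0,z1,z2,z1,y1])],
    .ref (nat_lit 397) k0 [(z1,[z1,z3,z2,z2,y2]),(z1,[z0,z0,z1]),(z1,[y2,y4,y4,y3,z4]),(z1,[z0,y1,y1,y1,z1])],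
    .ref (nat_lit 394) k0 [(z2,[z1,z3,z1,z1,y1]),(z1,[z0,z0,z1]),(z1,[y1,y1,y1,z0,z1]),(z1,[z0,y1,y1,y1,z1])],
    .ref (nat_lit 394) k0 [(z1,[z1,z2,z1,z1,y1]),(z1,[z0,z0,z1]),(z1,[y2,y2,y2,y1,z2]),(z1,[z0,y1,y1,y1,z1])],
    .ref k19 k5 [(z1,[z1,z1,z1,z1,y1]),(z1,[z0,y1,y1,y1,z1]),(z1,[z2,z1,y1,y1,z1]),(z1,[z0,z1,z2,z1,y1])]],
    .lp k0 [(nat_lit 18240),(nat_lit 19040),(nat_lit 18810),(nat_lit 18240),(nat_lit 18696),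
    (nat_lit 16188)] [(nat_lit 400),(nat_lit 400),k0,k0,k115,k115,(nat_lit 400),(nat_lit 400),k172,k172,
    (nat_lit 1426),(nat_lit 1426)] k0 [[k0,k0,k0,k0,k0,k0,k0,k0,k0,(nat_lit 456),k0,k0],[k0,k0,k0,k0,k0,k0,k0,k0,k0,
    k0,k0,k0],[k0,k0,k0,k0,k0,k0,(nat_lit 342),(nat_lit 342),k0,(nat_lit 912),k0,k0],[k0,k0,k0,k0,k0,k0,k0,k0,k0,
    (nat_lit 456),k0,k0],[k0,k0,k0,k0,k0,k0,(nat_lit 456),(nat_lit 456),k0,k0,k0,k0],[k0,k0,k0,k0,k0,k0,k0,k0,k0,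
    (nat_lit 912),k0,k0],[k0,k0,k0,(nat_lit 342),k0,(nat_lit 456),k0,k0,(nat_lit 1596),k0,k0,(nat_lit 456)],[k0,k0,k0,
    (nat_lit 342),k0,(nat_lit 456),k0,k0,k0,k0,k0,(nat_lit 456)],[k0,(nat_lit 456),(nat_lit 456),(nat_lit 912),
    (nat_lit 912),k0,k0,k0,k0,k0,k0,k0],[k0,k0,k0,k0,k0,k0,k0,(nat_lit 1596),(nat_lit 1596),k0,(nat_lit 1140),k0],[k0,
    k0,k0,k0,k0,k0,(nat_lit 456),(nat_lit 456),k0,k0,k0,k0],[k0,k0,k0,k0,k0,k0,k0,k0,(nat_lit 1140),k0,k0,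
    k0]] (nat_lit 54720) k5
    [[(k11,(nat_lit 16074)),(k10,(nat_lit 17214)),(k0,(nat_lit 18240)),(k1,(nat_lit 18240)),(k7,(nat_lit 18240)),(k8,
    (nat_lit 18468)),(k4,(nat_lit 18525)),(k5,(nat_lit 18525)),(k2,(nat_lit 18640)),(k3,(nat_lit 18640)),(k6,
    (nat_lit 18696)),(k9,(nat_lit 18924))],[(k10,(nat_lit 17214)),(k11,(nat_lit 17214)),(k8,(nat_lit 18012)),(k0,
    (nat_lit 18240)),(k1,(nat_lit 18240)),(k6,(nat_lit 18240)),(k7,(nat_lit 18240)),(k9,(nat_lit 18468)),(k4,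
    (nat_lit 18525)),(k5,(nat_lit 18525)),(k2,(nat_lit 18640)),(k3,(nat_lit 18640))],[(k10,(nat_lit 17614)),(k11,
    (nat_lit 18070)),(k0,(nat_lit 18640)),(k1,(nat_lit 18640)),(k6,(nat_lit 18640)),(k7,(nat_lit 18640)),(k8,
    (nat_lit 18868)),(k9,(nat_lit 18868)),(k4,(nat_lit 18925)),(k5,(nat_lit 18925)),(k2,(nat_lit 19040)),(k3,
    (nat_lit 19040))],[(k10,(nat_lit 17614)),(k8,(nat_lit 17956)),(k11,(nat_lit 18070)),(k6,(nat_lit 18298)),(k9,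
    (nat_lit 18526)),(k0,(nat_lit 18640)),(k1,(nat_lit 18640)),(k7,(nat_lit 18640)),(k4,(nat_lit 18925)),(k5,
    (nat_lit 18925)),(k2,(nat_lit 19040)),(k3,(nat_lit 19040))],[(k10,(nat_lit 17499)),(k8,(nat_lit 18297)),(k11,
    (nat_lit 18411)),(k0,(nat_lit 18525)),(k1,(nat_lit 18525)),(k7,(nat_lit 18525)),(k4,(nat_lit 18810)),(k5,
    (nat_lit 18810)),(k6,(nat_lit 18867)),(k2,(nat_lit 18925)),(k3,(nat_lit 18925)),(k9,(nat_lit 19095))],[(k10,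
    (nat_lit 17499)),(k6,(nat_lit 18069)),(k9,(nat_lit 18297)),(k11,(nat_lit 18411)),(k0,(nat_lit 18525)),(k1,
    (nat_lit 18525)),(k7,(nat_lit 18525)),(k8,(nat_lit 18753)),(k4,(nat_lit 18810)),(k5,(nat_lit 18810)),(k2,
    (nat_lit 18925)),(k3,(nat_lit 18925))],[(k10,(nat_lit 17214)),(k11,(nat_lit 17214)),(k8,(nat_lit 17556)),(k0,
    (nat_lit 18240)),(k1,(nat_lit 18240)),(k7,(nat_lit 18240)),(k4,(nat_lit 18525)),(k5,(nat_lit 18525)),(k2,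
    (nat_lit 18640)),(k3,(nat_lit 18640)),(k6,(nat_lit 18696)),(k9,(nat_lit 18924))],[(k11,(nat_lit 15618)),(k10,
    (nat_lit 16758)),(k4,(nat_lit 18069)),(k0,(nat_lit 18240)),(k6,(nat_lit 18240)),(k2,(nat_lit 18298)),(k8,
    (nat_lit 18468)),(k9,(nat_lit 18468)),(k3,(nat_lit 18640)),(k1,(nat_lit 18696)),(k7,(nat_lit 18696)),(k5,
    (nat_lit 18867))],[(k10,(nat_lit 16986)),(k11,(nat_lit 17442)),(k4,(nat_lit 18297)),(k0,(nat_lit 18468)),(k6,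
    (nat_lit 18468)),(k2,(nat_lit 18526)),(k9,(nat_lit 18696)),(k3,(nat_lit 18868)),(k1,(nat_lit 18924)),(k7,
    (nat_lit 18924)),(k5,(nat_lit 19095)),(k8,(nat_lit 20292))],[(k11,(nat_lit 17442)),(k7,(nat_lit 17556)),(k2,
    (nat_lit 17956)),(k0,(nat_lit 18012)),(k5,(nat_lit 18297)),(k1,(nat_lit 18468)),(k6,(nat_lit 18468)),(k10,
    (nat_lit 18582)),(k4,(nat_lit 18753)),(k3,(nat_lit 18868)),(k8,(nat_lit 20292)),(k9,(nat_lit 20292))],[(k11,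
    (nat_lit 14592)),(k6,(nat_lit 15618)),(k1,(nat_lit 16074)),(k10,(nat_lit 16188)),(k0,(nat_lit 17214)),(k7,
    (nat_lit 17214)),(k8,(nat_lit 17442)),(k9,(nat_lit 17442)),(k2,(nat_lit 18070)),(k3,(nat_lit 18070)),(k4,
    (nat_lit 18411)),(k5,(nat_lit 18411))],[(k10,(nat_lit 16188)),(k11,(nat_lit 16188)),(k6,(nat_lit 16758)),(k9,
    (nat_lit 16986)),(k0,(nat_lit 17214)),(k1,(nat_lit 17214)),(k7,(nat_lit 17214)),(k4,(nat_lit 17499)),(k5,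
    (nat_lit 17499)),(k2,(nat_lit 17614)),(k3,(nat_lit 17614)),(k8,(nat_lit 18582))]]
    [[k2,k0,k0,k0,k0,k1],[k1,k1,k0,k0,k0,k1],[k1,k0,k1,k0,k0,k1],[k1,k0,k0,k1,k0,k1],[k1,k0,k0,k0,k1,k1],[k1,k0,k0,k0,
    k0,k2],[k0,k1,k1,k0,k0,k1],[k0,k1,k0,k1,k0,k1],[k0,k1,k0,k0,k1,k1],[k0,k1,k0,k0,k0,k2],[k0,k0,k1,k1,k0,k1],[k0,k0,
    k1,k0,k1,k1],[k0,k0,k1,k0,k0,k2],[k0,k0,k0,k2,k0,k1],[k0,k0,k0,k1,k1,k1],[k0,k0,k0,k1,k0,k2],[k0,k0,k0,k0,k1,k2],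
    [k0,k0,k0,k0,k0,k3]]
    [.ref k25 k0 [(z1,[z1,z1]),(z2,[y1,z2,z3]),(z2,[z3,y6,z0,z1]),(z1,[z0,z0,z0,z0,z1]),(z2,[y6,z6,y3,y1,y2,z6])],
    .ref k25 k0 [(z1,[z2,z1,y1]),(z1,[y1,z1,z2]),(z2,[z6,y6,y3,z1]),(z1,[z0,z0,z0,z0,z1]),(z2,[y12,z6,z3,y1,y2,z6])],
    .ref k25 k0 [(z7,[z6,z15,z0,y1]),(z14,[y6,z6,z21,z1]),(z7,[z9,y9,z0,z2]),(z1,[z0,z0,z0,z0,z1]),(z14,[y36,y6,y21,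
    y1,y14,z42])],.ref k25 k0 [(z2,[z3,z3,z0,z0,y1]),(z4,[y3,z3,z6,z0,z1]),(z4,[z9,y9,z0,z2,y3]),(z1,[z0,z0,z0,z0,
    z1]),(z2,[y9,z3,y3,y1,z1,z6])],.ref k25 k0 [(z2,[y6,z6,y3,y1,y2,z6]),(z4,[z6,z0,z9,z1,z2,y6]),(z4,[y18,z0,y9,y1,
    y6,z18]),(z1,[z0,z0,z0,z0,z1]),(z1,[z9,y3,z3,z1,z2,y6])],.ref k25 k0 [(z1,[z1,z2]),(z2,[y1,z1,z3]),(z2,[z3,y3,z0,
    z1]),(z1,[z0,z0,z0,z0,z1]),(z2,[y6,z0,y3,y1,y2,z6])],.ref k25 k0 [(z4,[z6,z12,y3,y1]),(z8,[y6,z0,z15,z1]),(z8,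
    [z18,z0,y9,z1]),(z1,[z0,z0,z0,z0,z1]),(z4,[y18,y12,z3,z1,y4,z12])],.ref k25 k0 [(z1,[z6,z3,y3,z0,y2]),(z1,[y3,z0,
    z3,z0,z1]),(z2,[z18,z0,y9,z1,y6]),(z1,[z0,z0,z0,z0,z1]),(z2,[y36,y6,z15,y1,z10,z6])],.ref k25 k0 [(z5,[y6,z9,z0,
    y1,y2,z6]),(z10,[z6,z6,z15,z1,z2,y6]),(z5,[y9,y9,z0,z1,y3,z9]),(z1,[z0,z0,z0,z0,z1]),(z10,[z36,z6,y15,z1,z2,y6])],
    .ref k25 k0 [(z1,[z2,z3,y1]),(z1,[y1,z0,z2]),(z2,[z6,z0,y3,z1]),(z1,[z0,z0,z0,z0,z1]),(z2,[y12,y6,z3,y1,y2,z6])],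
    .ref k25 k0 [(z5,[z6,z15,z0,y1,y2]),(z10,[y6,z0,z15,z1,z2]),(z5,[z9,z0,z0,z1,y3]),(z1,[z0,z0,z0,z0,z1]),(z10,[y36,
    y30,y15,z1,z2,z30])],.ref k25 k0 [(z1,[y6,y3,y3,z0,y2,z6]),(z1,[z3,z3,z3,z0,z1,y3]),(z2,[y18,y18,y9,z1,y6,z18]),
    (z1,[z0,z0,z0,z0,z1]),(z2,[z36,z30,z15,y1,z10,y30])],.ref k25 k0 [(z7,[z6,z21,z0,y1]),(z14,[y6,z0,z21,z1]),(z7,
    [z9,z0,z0,z2]),(z1,[z0,z0,z0,z0,z1]),(z14,[y36,y42,y21,y1,y14,z42])],.ref k25 k0 [(z1,[z3,z3,z0,z0,y2]),(z2,[y3,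
    z0,z3,z0,z2]),(z2,[z9,z0,z0,z1,y6]),(z1,[z0,z0,z0,z0,z1]),(z2,[y18,y6,y3,y1,z10,z6])],.ref k25 k0 [(z4,[y6,z6,y3,
    y1,z0,z6]),(z8,[z6,z6,z15,z1,z0,y6]),(z8,[y18,y18,y9,z1,z0,z18]),(z1,[z0,z0,z0,z0,z1]),(z4,[z18,z6,z3,z1,y4,y6])],
    .ref k25 k0 [(z2,[z3,z6,z0,z0,y1]),(z4,[y3,z0,z6,z0,z1]),(z4,[z9,z0,z0,z2,y3]),(z1,[z0,z0,z0,z0,z1]),(z2,[y9,y6,
    y3,y1,z1,z6])],.ref k25 k0 [(z2,[y6,z0,y3,y1,y2,z6]),(z4,[z6,z6,z9,z1,z2,y6]),(z4,[y18,y18,y9,y1,y6,z18]),(z1,[z0,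
    z0,z0,z0,z1]),(z1,[z9,z6,z3,z1,z2,y6])],.ref k25 k0 [(z1,[z1,z3]),(z2,[y1,z0,z3]),(z2,[z3,z0,z0,z1]),(z1,[z0,z0,
    z0,z0,z1]),(z2,[y6,y6,y3,y1,y2,z6])]],
    .lp k0 [k82,k84,k80,k80,k78,k74] [k1,k1,k0,k0,k2,k2,k2,k2,k3,k3,k5,k5] k0 [[k0,k0,k0,k0,k0,k0,k0,k0,k0,k6,k6,k2],
    [k0,k0,k0,k0,k4,k0,k0,k4,k0,k0,k0,k0],[k0,k0,k0,k0,k4,k0,k0,k4,k0,k0,k0,k0],[k0,k0,k0,k0,k0,k0,k0,k0,k0,k2,k2,k2],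
    [k0,k0,k0,k0,k0,k0,k0,k0,k0,k0,k0,k12],[k4,k0,k0,k4,k0,k0,k0,k0,k6,k0,k0,k2],[k4,k0,k0,k4,k0,k0,k0,k0,k16,k16,k0,
    k16],[k0,k0,k0,k0,k0,k0,k0,k0,k0,k0,k0,k6],[k0,k6,k2,k0,k0,k0,k0,k16,k0,k0,k0,k0],[k0,k0,k0,k0,k6,k0,k0,k16,k0,k0,
    k10,k0],[k0,k2,k2,k0,k2,k12,k6,k16,k0,k0,k0,k0],[k0,k6,k2,k0,k0,k0,k0,k0,k10,k0,k0,k0]] (nat_lit 240) k5
    [[(k11,k68),(k0,k76),(k10,k78),(k5,k79),(k8,k80),(k1,k82),(k4,k83),(k2,k85),(k3,k85),(k6,k87),(k7,k93),(k9,k96)],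
    [(k8,k74),(k1,k76),(k10,k76),(k11,k78),(k5,k81),(k6,k81),(k7,k81),(k0,k82),(k2,k83),(k3,k83),(k9,k84),(k4,k85)],
    [(k6,k78),(k7,k78),(k8,k81),(k9,k81),(k4,k82),(k5,k82),(k0,k83),(k2,k84),(k3,k84),(k1,k85),(k10,k85),(k11,k85)],
    [(k6,k78),(k7,k78),(k8,k81),(k9,k81),(k10,k81),(k11,k81),(k4,k82),(k5,k82),(k0,k83),(k2,k84),(k3,k84),(k1,k85)],
    [(k10,k75),(k8,k77),(k11,k77),(k1,k79),(k5,k80),(k6,k80),(k7,k80),(k0,k81),(k2,k82),(k3,k82),(k9,k83),(k4,k84)],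
    [(k10,k65),(k11,k77),(k9,k79),(k4,k80),(k6,k80),(k7,k80),(k2,k82),(k3,k82),(k1,k83),(k5,k84),(k0,k85),(k8,k85)],
    [(k11,k71),(k10,k75),(k2,k78),(k3,k78),(k8,k79),(k9,k79),(k4,k80),(k5,k80),(k6,k80),(k7,k80),(k0,k81),(k1,k93)],
    [(k10,k61),(k11,k61),(k8,k63),(k2,k78),(k3,k78),(k9,k79),(k4,k80),(k5,k80),(k6,k80),(k7,k80),(k0,k81),(k1,k87)],
    [(k10,k70),(k9,k78),(k4,k79),(k6,k79),(k7,k79),(k2,k81),(k3,k81),(k5,k83),(k0,k84),(k11,k92),(k8,k94),(k1,k96)],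
    [(k6,k63),(k0,k74),(k11,k76),(k5,k77),(k8,k78),(k7,k79),(k1,k80),(k2,k81),(k3,k81),(k4,k85),(k10,k86),(k9,k94)],
    [(k6,k61),(k1,k68),(k7,k71),(k10,k74),(k11,k74),(k8,k76),(k4,k77),(k5,k77),(k0,k78),(k2,k81),(k3,k85),(k9,k92)],
    [(k6,k61),(k4,k65),(k9,k70),(k10,k74),(k11,k74),(k5,k75),(k7,k75),(k0,k76),(k1,k78),(k2,k81),(k3,k85),(k8,k86)]]
    [[k3,k0,k0,k0,k0,k0],[k2,k0,k0,k0,k0,k1],[k1,k0,k1,k0,k0,k1],[k1,k0,k1,k0,k1,k0],[k1,k0,k0,k1,k0,k1],[k1,k0,k0,k0,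
    k2,k0],[k1,k0,k0,k0,k1,k1],[k1,k0,k0,k0,k0,k2],[k1,k1,k0,k0,k0,k1],[k0,k1,k1,k0,k0,k1],[k0,k1,k0,k2,k0,k0],[k0,k1,
    k0,k1,k1,k0],[k0,k1,k0,k1,k0,k1],[k0,k1,k0,k0,k1,k1],[k0,k0,k2,k0,k0,k1],[k0,k0,k1,k1,k1,k0],[k0,k0,k1,k1,k0,k1],
    [k0,k0,k1,k0,k1,k1],[k0,k0,k1,k0,k0,k2],[k0,k0,k0,k2,k1,k0],[k0,k0,k0,k2,k0,k1],[k0,k0,k0,k1,k2,k0],[k0,k0,k0,k1,
    k1,k1],[k0,k0,k0,k1,k0,k2],[k0,k0,k0,k0,k1,k2],[k0,k0,k0,k0,k0,k3]]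
    [.ref k25 k0 [(z1,[z1]),(z7,[y2,z6,z21]),(z7,[z4,y12,z0,z21]),(z7,[z4,y12,z0,z0,z21]),(z1,[y2,z3,y3,y3,y3,z3])],
    .ref k25 k0 [(z5,[z7,z1]),(z5,[y2,z4,z15]),(z5,[z4,y8,z0,z15]),(z5,[z4,y8,z0,z0,z15]),(z5,[y14,z13,y15,y15,y15,
    z15])],.ref k25 k0 [(z4,[z7,z5,z0,y7]),(z2,[y1,z1,z6,z1]),(z1,[z1,y1,z0,z2]),(z1,[z1,y1,z0,y1,z3]),(z2,[y7,z1,y6,
    z1,y6,z6])],.ref k25 k0 [(z1,[y7,z3,y7,z0,y7,z7]),(z1,[z2,z0,z5,z0,z2,y2]),(z1,[y4,z0,y4,z3,y4,z4]),(z1,[y4,z0,y4,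
    z0,y1,z4]),(z1,[z14,y3,z11,y3,z11,y11])],.ref k25 k0 [(z4,[z7,z5,z0,z0,y7]),(z2,[y1,z1,z6,z0,z1]),(z1,[z1,y1,z0,
    z3,y1]),(z1,[z1,y1,z0,z0,z2]),(z2,[y7,z1,y6,y6,z1,z6])],.ref k25 k0 [(z1,[y1,z2,y2,y2,y2,z2]),(z7,[z2,z2,z25,z4,
    z4,y4]),(z7,[y4,y4,y8,z13,y8,z8]),(z7,[y4,y4,y8,y8,z13,z8]),(z1,[z2,y1,z1,z1,z1,y1])],.ref k25 k0 [(z2,[y7,z6,y7,
    y7,y7,z7]),(z1,[z1,z0,z4,z1,z1,y1]),(z1,[y2,z0,y2,z1,y2,z2]),(z1,[y2,z0,y2,y2,z1,z2]),(z1,[z7,y3,z4,z4,z4,y4])],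
    .ref k25 k0 [(z3,[z7,z2]),(z3,[y2,z2,z9]),(z3,[z4,y4,z0,z9]),(z3,[z4,y4,z0,z0,z9]),(z3,[y14,z5,y9,y9,y9,z9])],
    .ref k25 k0 [(z2,[z7,y1,y7]),(z1,[y1,z1,z4]),(z1,[z2,y2,y2,z3]),(z1,[z2,y2,y2,z0,z3]),(z1,[y7,z4,z4,y3,y3,z3])],
    .ref k25 k0 [(z1,[z7,z3,y7,y7]),(z1,[y2,z0,z5,z2]),(z1,[z4,z0,y4,y1]),(z1,[z4,z0,y4,y4,z3]),(z1,[y14,y3,z11,z11,
    y3,z3])],.ref k25 k0 [(z2,[z7,z6,y7,z0,y14]),(z1,[y1,z0,z4,z0,z2]),(z1,[z2,z0,y2,z3,y4]),(z1,[z2,z0,y2,z0,y1]),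
    (z1,[y7,y3,z4,y3,z11,z3])],.ref k25 k0 [(z4,[y7,z5,z0,y7,z0,z7]),(z2,[z1,z1,z6,z1,z0,y1]),(z1,[y1,y1,z0,z2,z0,
    z1]),(z1,[y1,y1,z0,y1,z3,z1]),(z2,[z7,z1,y6,z1,y6,y1])],.ref k25 k0 [(z1,[z7,z3,y7,z0,y7]),(z1,[y2,z0,z5,z0,z2]),
    (z1,[z4,z0,y4,z3,y4]),(z1,[z4,z0,y4,z0,y1]),(z1,[y14,y3,z11,y3,z11,z3])],.ref k25 k0 [(z5,[y7,z8,z0,y7,y7,z7]),
    (z5,[z2,z2,z15,z2,z2,y2]),(z5,[y4,y4,z0,z11,y4,z4]),(z5,[y4,y4,z0,y4,z11,z4]),(z5,[z14,y1,y15,y1,y1,z1])],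
    .ref k25 k0 [(z3,[z7,z9,z0,y14]),(z3,[y2,z0,z9,z4]),(z3,[z4,z0,z0,z1]),(z3,[z4,z0,z0,y8,z9]),(z3,[y14,y9,y9,z19,
    y9,z9])],.ref k25 k0 [(z2,[y7,y1,y7,z0,z0,z7]),(z1,[z1,z1,z4,z0,z0,y1]),(z1,[y2,y2,y2,z3,z0,z2]),(z1,[y2,y2,y2,z0,
    z3,z2]),(z1,[z7,z4,z4,y3,y3,y4])],.ref k25 k0 [(z3,[z7,z9,z0,y7,y7]),(z3,[y2,z0,z9,z2,z2]),(z3,[z4,z0,z0,z5,y4]),
    (z3,[z4,z0,z0,y4,z5]),(z3,[y14,y9,y9,z5,z5,z9])],.ref k25 k0 [(z3,[y7,z2,y7,z0,y7,z7]),(z3,[z2,z2,z11,z0,z2,y2]),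
    (z3,[y4,y4,y4,z9,y4,z4]),(z3,[y4,y4,y4,z0,z5,z4]),(z3,[z14,z5,z5,y9,z5,y5])],.ref k25 k0 [(z2,[z7,z6,z0,y7]),(z1,
    [y1,z0,z3,z1]),(z1,[z2,z0,z0,z1]),(z1,[z2,z0,z0,y2,z3]),(z1,[y7,y3,y3,z4,y3,z3])],.ref k25 k0 [(z2,[y7,y1,y7,y7,
    z7,z7]),(z1,[z1,z1,z4,z1,y1,y1]),(z1,[y2,y2,y2,z1,z2,z2]),(z1,[y2,y2,y2,y2,z5,z2]),(z1,[z7,z4,z4,z4,y10,y4])],
    .ref k25 k0 [(z3,[z7,z9,z0,z0,y14]),(z3,[y2,z0,z9,z0,z4]),(z3,[z4,z0,z0,z9,y8]),(z3,[z4,z0,z0,z0,z1]),(z3,[y14,y9,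
    y9,y9,z19,z9])],.ref k25 k0 [(z8,[y7,z10,y14,y14,y7,z14]),(z4,[z1,z2,z14,z2,z1,y2]),(z2,[y1,y2,y2,z4,y1,z2]),(z2,
    [y1,y2,y2,y2,z5,z2]),(z4,[z7,z2,z2,z2,y5,y2])],.ref k25 k0 [(z3,[y7,z2,y7,y7,z0,z7]),(z3,[z2,z2,z11,z2,z0,y2]),
    (z3,[y4,y4,y4,z5,z0,z4]),(z3,[y4,y4,y4,y4,z9,z4]),(z3,[z14,z5,z5,z5,y9,y5])],.ref k25 k0 [(z2,[z7,z6,z0,z0,y7]),
    (z1,[y1,z0,z3,z0,z1]),(z1,[z2,z0,z0,z3,y2]),(z1,[z2,z0,z0,z0,z1]),(z1,[y7,y3,y3,y3,z4,z3])],.ref k25 k0 [(z4,[y7,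
    z5,y7,y7,y7,z7]),(z2,[z1,z1,z7,z1,z1,y1]),(z1,[y1,y1,y1,z2,y1,z1]),(z1,[y1,y1,y1,y1,z2,z1]),(z2,[z7,z1,z1,z1,z1,
    y1])],.ref k25 k0 [(z1,[z7,z3]),(z1,[y2,z0,z3]),(z1,[z4,z0,z0,z3]),(z1,[z4,z0,z0,z0,z3]),(z1,[y14,y3,y3,y3,y3,
    z3])]],
    .base (.leafM k3 [k1,k2,k3,k4,k5,k0] [(z2,[y1,y1,z0,y2,z2])] []),
    .lp k0 [(nat_lit 18240),(nat_lit 19040),(nat_lit 18810),(nat_lit 18240),(nat_lit 18696),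
    (nat_lit 16188)] [(nat_lit 400),(nat_lit 400),k0,k0,k115,k115,(nat_lit 400),(nat_lit 400),k172,k172,
    (nat_lit 1426),(nat_lit 1426)] k0 [[k0,k0,k0,k0,k0,k0,k0,k0,k0,(nat_lit 456),k0,k0],[k0,k0,k0,k0,k0,k0,k0,k0,k0,
    k0,k0,k0],[k0,k0,k0,k0,k0,k0,(nat_lit 342),(nat_lit 342),k0,(nat_lit 912),k0,k0],[k0,k0,k0,k0,k0,k0,k0,k0,k0,
    (nat_lit 456),k0,k0],[k0,k0,k0,k0,k0,k0,(nat_lit 456),(nat_lit 456),k0,k0,k0,k0],[k0,k0,k0,k0,k0,k0,k0,k0,k0,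
    (nat_lit 912),k0,k0],[k0,k0,k0,(nat_lit 342),k0,(nat_lit 456),k0,k0,(nat_lit 1596),k0,k0,(nat_lit 456)],[k0,k0,k0,
    (nat_lit 342),k0,(nat_lit 456),k0,k0,k0,k0,k0,(nat_lit 456)],[k0,(nat_lit 456),(nat_lit 456),(nat_lit 912),
    (nat_lit 912),k0,k0,k0,k0,k0,k0,k0],[k0,k0,k0,k0,k0,k0,k0,(nat_lit 1596),(nat_lit 1596),k0,(nat_lit 1140),k0],[k0,
    k0,k0,k0,k0,k0,(nat_lit 456),(nat_lit 456),k0,k0,k0,k0],[k0,k0,k0,k0,k0,k0,k0,k0,(nat_lit 1140),k0,k0,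
    k0]] (nat_lit 54720) k5
    [[(k11,(nat_lit 16074)),(k10,(nat_lit 17214)),(k0,(nat_lit 18240)),(k1,(nat_lit 18240)),(k7,(nat_lit 18240)),(k8,
    (nat_lit 18468)),(k4,(nat_lit 18525)),(k5,(nat_lit 18525)),(k2,(nat_lit 18640)),(k3,(nat_lit 18640)),(k6,
    (nat_lit 18696)),(k9,(nat_lit 18924))],[(k10,(nat_lit 17214)),(k11,(nat_lit 17214)),(k8,(nat_lit 18012)),(k0,
    (nat_lit 18240)),(k1,(nat_lit 18240)),(k6,(nat_lit 18240)),(k7,(nat_lit 18240)),(k9,(nat_lit 18468)),(k4,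
    (nat_lit 18525)),(k5,(nat_lit 18525)),(k2,(nat_lit 18640)),(k3,(nat_lit 18640))],[(k10,(nat_lit 17614)),(k11,
    (nat_lit 18070)),(k0,(nat_lit 18640)),(k1,(nat_lit 18640)),(k6,(nat_lit 18640)),(k7,(nat_lit 18640)),(k8,
    (nat_lit 18868)),(k9,(nat_lit 18868)),(k4,(nat_lit 18925)),(k5,(nat_lit 18925)),(k2,(nat_lit 19040)),(k3,
    (nat_lit 19040))],[(k10,(nat_lit 17614)),(k8,(nat_lit 17956)),(k11,(nat_lit 18070)),(k6,(nat_lit 18298)),(k9,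
    (nat_lit 18526)),(k0,(nat_lit 18640)),(k1,(nat_lit 18640)),(k7,(nat_lit 18640)),(k4,(nat_lit 18925)),(k5,
    (nat_lit 18925)),(k2,(nat_lit 19040)),(k3,(nat_lit 19040))],[(k10,(nat_lit 17499)),(k8,(nat_lit 18297)),(k11,
    (nat_lit 18411)),(k0,(nat_lit 18525)),(k1,(nat_lit 18525)),(k7,(nat_lit 18525)),(k4,(nat_lit 18810)),(k5,
    (nat_lit 18810)),(k6,(nat_lit 18867)),(k2,(nat_lit 18925)),(k3,(nat_lit 18925)),(k9,(nat_lit 19095))],[(k10,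
    (nat_lit 17499)),(k6,(nat_lit 18069)),(k9,(nat_lit 18297)),(k11,(nat_lit 18411)),(k0,(nat_lit 18525)),(k1,
    (nat_lit 18525)),(k7,(nat_lit 18525)),(k8,(nat_lit 18753)),(k4,(nat_lit 18810)),(k5,(nat_lit 18810)),(k2,
    (nat_lit 18925)),(k3,(nat_lit 18925))],[(k10,(nat_lit 17214)),(k11,(nat_lit 17214)),(k8,(nat_lit 17556)),(k0,
    (nat_lit 18240)),(k1,(nat_lit 18240)),(k7,(nat_lit 18240)),(k4,(nat_lit 18525)),(k5,(nat_lit 18525)),(k2,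
    (nat_lit 18640)),(k3,(nat_lit 18640)),(k6,(nat_lit 18696)),(k9,(nat_lit 18924))],[(k11,(nat_lit 15618)),(k10,
    (nat_lit 16758)),(k4,(nat_lit 18069)),(k0,(nat_lit 18240)),(k6,(nat_lit 18240)),(k2,(nat_lit 18298)),(k8,
    (nat_lit 18468)),(k9,(nat_lit 18468)),(k3,(nat_lit 18640)),(k1,(nat_lit 18696)),(k7,(nat_lit 18696)),(k5,
    (nat_lit 18867))],[(k10,(nat_lit 16986)),(k11,(nat_lit 17442)),(k4,(nat_lit 18297)),(k0,(nat_lit 18468)),(k6,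
    (nat_lit 18468)),(k2,(nat_lit 18526)),(k9,(nat_lit 18696)),(k3,(nat_lit 18868)),(k1,(nat_lit 18924)),(k7,
    (nat_lit 18924)),(k5,(nat_lit 19095)),(k8,(nat_lit 20292))],[(k11,(nat_lit 17442)),(k7,(nat_lit 17556)),(k2,
    (nat_lit 17956)),(k0,(nat_lit 18012)),(k5,(nat_lit 18297)),(k1,(nat_lit 18468)),(k6,(nat_lit 18468)),(k10,
    (nat_lit 18582)),(k4,(nat_lit 18753)),(k3,(nat_lit 18868)),(k8,(nat_lit 20292)),(k9,(nat_lit 20292))],[(k11,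
    (nat_lit 14592)),(k6,(nat_lit 15618)),(k1,(nat_lit 16074)),(k10,(nat_lit 16188)),(k0,(nat_lit 17214)),(k7,
    (nat_lit 17214)),(k8,(nat_lit 17442)),(k9,(nat_lit 17442)),(k2,(nat_lit 18070)),(k3,(nat_lit 18070)),(k4,
    (nat_lit 18411)),(k5,(nat_lit 18411))],[(k10,(nat_lit 16188)),(k11,(nat_lit 16188)),(k6,(nat_lit 16758)),(k9,
    (nat_lit 16986)),(k0,(nat_lit 17214)),(k1,(nat_lit 17214)),(k7,(nat_lit 17214)),(k4,(nat_lit 17499)),(k5,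
    (nat_lit 17499)),(k2,(nat_lit 17614)),(k3,(nat_lit 17614)),(k8,(nat_lit 18582))]]
    [[k2,k0,k0,k0,k0,k1],[k1,k1,k0,k0,k0,k1],[k1,k0,k1,k0,k0,k1],[k1,k0,k0,k1,k0,k1],[k1,k0,k0,k0,k1,k1],[k1,k0,k0,k0,
    k0,k2],[k0,k1,k1,k0,k0,k1],[k0,k1,k0,k1,k0,k1],[k0,k1,k0,k0,k1,k1],[k0,k1,k0,k0,k0,k2],[k0,k0,k1,k1,k0,k1],[k0,k0,
    k1,k0,k1,k1],[k0,k0,k1,k0,k0,k2],[k0,k0,k0,k2,k0,k1],[k0,k0,k0,k1,k1,k1],[k0,k0,k0,k1,k0,k2],[k0,k0,k0,k0,k1,k2],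
    [k0,k0,k0,k0,k0,k3]]
    [.ref k25 k0 [(z4,[z5,z1]),(z4,[y1,z1,z6]),(z2,[z1,y1,z0,z6]),(z2,[z1,y1,z0,z0,z6]),(z2,[y5,z2,y3,y6,y6,z6])],
    .ref k25 k0 [(z4,[z10,z1,y5]),(z4,[y2,z1,z7]),(z2,[z2,y1,y1,z6]),(z2,[z2,y1,y1,z0,z6]),(z1,[y5,z1,z1,y3,y3,z3])],
    .ref k25 k0 [(z3,[z5,z2,z0,y5]),(z6,[y2,z1,z9,z2]),(z3,[z2,y1,z0,z7]),(z3,[z2,y1,z0,y2,z9]),(z6,[y20,z1,y9,z2,y18,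
    z18])],.ref k25 k0 [(z3,[z5,z2,z0,z0,y5]),(z6,[y2,z1,z9,z0,z2]),(z3,[z2,y1,z0,z9,y2]),(z3,[z2,y1,z0,z0,z7]),(z6,
    [y20,z1,y9,y18,z2,z18])],.ref k25 k0 [(z2,[y10,z3,y5,y10,y10,z10]),(z1,[z1,z0,z2,z1,z1,y1]),(z1,[y2,z0,y1,z1,y2,
    z2]),(z1,[y2,z0,y1,y2,z1,z2]),(z2,[z20,y3,z7,z14,z14,y14])],.ref k25 k0 [(z3,[z5,z2]),(z6,[y2,z1,z9]),(z3,[z2,y1,
    z0,z9]),(z3,[z2,y1,z0,z0,z9]),(z6,[y20,z1,y9,y18,y18,z18])],.ref k25 k0 [(z2,[z10,z3,y5,y10]),(z1,[y1,z0,z2,z1]),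
    (z1,[z2,z0,y1,z1]),(z1,[z2,z0,y1,y2,z3]),(z2,[y20,y3,z7,z14,y6,z6])],.ref k25 k0 [(z2,[z10,z3,y5,z0,y10]),(z1,[y1,
    z0,z2,z0,z1]),(z1,[z2,z0,y1,z3,y2]),(z1,[z2,z0,y1,z0,z1]),(z2,[y20,y3,z7,y6,z14,z6])],.ref k25 k0 [(z3,[y5,z2,z0,
    y5,y5,z5]),(z6,[z2,z1,z9,z2,z2,y2]),(z3,[y2,y1,z0,z7,y2,z2]),(z3,[y2,y1,z0,y2,z7,z2]),(z6,[z20,z1,y9,z2,z2,y2])],
    .ref k25 k0 [(z2,[z10,z3,y5]),(z1,[y1,z0,z2]),(z1,[z2,z0,y1,z3]),(z1,[z2,z0,y1,z0,z3]),(z2,[y20,y3,z7,y6,y6,z6])],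
    .ref k25 k0 [(z2,[z5,z3,z0,y5,y5]),(z2,[y1,z0,z3,z1,z1]),(z1,[z1,z0,z0,z2,y1]),(z1,[z1,z0,z0,y1,z2]),(z2,[y10,y3,
    y3,z4,z4,z6])],.ref k25 k0 [(z4,[y10,z1,y5,z0,y10,z10]),(z4,[z2,z1,z7,z0,z2,y2]),(z2,[y2,y1,y1,z6,y2,z2]),(z2,[y2,
    y1,y1,z0,z4,z2]),(z1,[z5,z1,z1,y3,z2,y2])],.ref k25 k0 [(z2,[z5,z3,z0,y5]),(z2,[y1,z0,z3,z1]),(z1,[z1,z0,z0,z2]),
    (z1,[z1,z0,z0,y1,z3]),(z2,[y10,y3,y3,z4,y6,z6])],.ref k25 k0 [(z2,[z5,z3,z0,z0,y10]),(z2,[y1,z0,z3,z0,z2]),(z1,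
    [z1,z0,z0,z3,y2]),(z1,[z1,z0,z0,z0,z1]),(z2,[y10,y3,y3,y6,z14,z6])],.ref k25 k0 [(z4,[y10,z1,y5,y10,z0,z10]),(z4,
    [z2,z1,z7,z2,z0,y2]),(z2,[y2,y1,y1,z4,z0,z2]),(z2,[y2,y1,y1,y2,z6,z2]),(z1,[z5,z1,z1,z2,y3,y2])],.ref k25 k0 [(z2,
    [z5,z3,z0,z0,y5]),(z2,[y1,z0,z3,z0,z1]),(z1,[z1,z0,z0,z3,y1]),(z1,[z1,z0,z0,z0,z2]),(z2,[y10,y3,y3,y6,z4,z6])],
    .ref k25 k0 [(z4,[y10,z1,y5,y10,y10,z10]),(z4,[z2,z1,z7,z2,z2,y2]),(z2,[y2,y1,y1,z4,y2,z2]),(z2,[y2,y1,y1,y2,z4,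
    z2]),(z1,[z5,z1,z1,z2,z2,y2])],.ref k25 k0 [(z2,[z5,z3]),(z2,[y1,z0,z3]),(z1,[z1,z0,z0,z3]),(z1,[z1,z0,z0,z0,z3]),
    (z2,[y10,y3,y3,y6,y6,z6])]],
    .lp k0 [(nat_lit 18240),(nat_lit 19040),(nat_lit 18810),(nat_lit 18240),(nat_lit 18696),
    (nat_lit 16188)] [(nat_lit 400),(nat_lit 400),k0,k0,k115,k115,(nat_lit 400),(nat_lit 400),k172,k172,
    (nat_lit 1426),(nat_lit 1426)] k0 [[k0,k0,k0,k0,k0,k0,k0,k0,k0,(nat_lit 456),k0,k0],[k0,k0,k0,k0,k0,k0,k0,k0,k0,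
    k0,k0,k0],[k0,k0,k0,k0,k0,k0,(nat_lit 342),(nat_lit 342),k0,(nat_lit 912),k0,k0],[k0,k0,k0,k0,k0,k0,k0,k0,k0,
    (nat_lit 456),k0,k0],[k0,k0,k0,k0,k0,k0,(nat_lit 456),(nat_lit 456),k0,k0,k0,k0],[k0,k0,k0,k0,k0,k0,k0,k0,k0,
    (nat_lit 912),k0,k0],[k0,k0,k0,(nat_lit 342),k0,(nat_lit 456),k0,k0,(nat_lit 1596),k0,k0,(nat_lit 456)],[k0,k0,k0,
    (nat_lit 342),k0,(nat_lit 456),k0,k0,k0,k0,k0,(nat_lit 456)],[k0,(nat_lit 456),(nat_lit 456),(nat_lit 912),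
    (nat_lit 912),k0,k0,k0,k0,k0,k0,k0],[k0,k0,k0,k0,k0,k0,k0,(nat_lit 1596),(nat_lit 1596),k0,(nat_lit 1140),k0],[k0,
    k0,k0,k0,k0,k0,(nat_lit 456),(nat_lit 456),k0,k0,k0,k0],[k0,k0,k0,k0,k0,k0,k0,k0,(nat_lit 1140),k0,k0,
    k0]] (nat_lit 54720) k5
    [[(k11,(nat_lit 16074)),(k10,(nat_lit 17214)),(k0,(nat_lit 18240)),(k1,(nat_lit 18240)),(k7,(nat_lit 18240)),(k8,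
    (nat_lit 18468)),(k4,(nat_lit 18525)),(k5,(nat_lit 18525)),(k2,(nat_lit 18640)),(k3,(nat_lit 18640)),(k6,
    (nat_lit 18696)),(k9,(nat_lit 18924))],[(k10,(nat_lit 17214)),(k11,(nat_lit 17214)),(k8,(nat_lit 18012)),(k0,
    (nat_lit 18240)),(k1,(nat_lit 18240)),(k6,(nat_lit 18240)),(k7,(nat_lit 18240)),(k9,(nat_lit 18468)),(k4,
    (nat_lit 18525)),(k5,(nat_lit 18525)),(k2,(nat_lit 18640)),(k3,(nat_lit 18640))],[(k10,(nat_lit 17614)),(k11,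
    (nat_lit 18070)),(k0,(nat_lit 18640)),(k1,(nat_lit 18640)),(k6,(nat_lit 18640)),(k7,(nat_lit 18640)),(k8,
    (nat_lit 18868)),(k9,(nat_lit 18868)),(k4,(nat_lit 18925)),(k5,(nat_lit 18925)),(k2,(nat_lit 19040)),(k3,
    (nat_lit 19040))],[(k10,(nat_lit 17614)),(k8,(nat_lit 17956)),(k11,(nat_lit 18070)),(k6,(nat_lit 18298)),(k9,
    (nat_lit 18526)),(k0,(nat_lit 18640)),(k1,(nat_lit 18640)),(k7,(nat_lit 18640)),(k4,(nat_lit 18925)),(k5,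
    (nat_lit 18925)),(k2,(nat_lit 19040)),(k3,(nat_lit 19040))],[(k10,(nat_lit 17499)),(k8,(nat_lit 18297)),(k11,
    (nat_lit 18411)),(k0,(nat_lit 18525)),(k1,(nat_lit 18525)),(k7,(nat_lit 18525)),(k4,(nat_lit 18810)),(k5,
    (nat_lit 18810)),(k6,(nat_lit 18867)),(k2,(nat_lit 18925)),(k3,(nat_lit 18925)),(k9,(nat_lit 19095))],[(k10,
    (nat_lit 17499)),(k6,(nat_lit 18069)),(k9,(nat_lit 18297)),(k11,(nat_lit 18411)),(k0,(nat_lit 18525)),(k1,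
    (nat_lit 18525)),(k7,(nat_lit 18525)),(k8,(nat_lit 18753)),(k4,(nat_lit 18810)),(k5,(nat_lit 18810)),(k2,
    (nat_lit 18925)),(k3,(nat_lit 18925))],[(k10,(nat_lit 17214)),(k11,(nat_lit 17214)),(k8,(nat_lit 17556)),(k0,
    (nat_lit 18240)),(k1,(nat_lit 18240)),(k7,(nat_lit 18240)),(k4,(nat_lit 18525)),(k5,(nat_lit 18525)),(k2,
    (nat_lit 18640)),(k3,(nat_lit 18640)),(k6,(nat_lit 18696)),(k9,(nat_lit 18924))],[(k11,(nat_lit 15618)),(k10,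
    (nat_lit 16758)),(k4,(nat_lit 18069)),(k0,(nat_lit 18240)),(k6,(nat_lit 18240)),(k2,(nat_lit 18298)),(k8,
    (nat_lit 18468)),(k9,(nat_lit 18468)),(k3,(nat_lit 18640)),(k1,(nat_lit 18696)),(k7,(nat_lit 18696)),(k5,
    (nat_lit 18867))],[(k10,(nat_lit 16986)),(k11,(nat_lit 17442)),(k4,(nat_lit 18297)),(k0,(nat_lit 18468)),(k6,
    (nat_lit 18468)),(k2,(nat_lit 18526)),(k9,(nat_lit 18696)),(k3,(nat_lit 18868)),(k1,(nat_lit 18924)),(k7,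
    (nat_lit 18924)),(k5,(nat_lit 19095)),(k8,(nat_lit 20292))],[(k11,(nat_lit 17442)),(k7,(nat_lit 17556)),(k2,
    (nat_lit 17956)),(k0,(nat_lit 18012)),(k5,(nat_lit 18297)),(k1,(nat_lit 18468)),(k6,(nat_lit 18468)),(k10,
    (nat_lit 18582)),(k4,(nat_lit 18753)),(k3,(nat_lit 18868)),(k8,(nat_lit 20292)),(k9,(nat_lit 20292))],[(k11,
    (nat_lit 14592)),(k6,(nat_lit 15618)),(k1,(nat_lit 16074)),(k10,(nat_lit 16188)),(k0,(nat_lit 17214)),(k7,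
    (nat_lit 17214)),(k8,(nat_lit 17442)),(k9,(nat_lit 17442)),(k2,(nat_lit 18070)),(k3,(nat_lit 18070)),(k4,
    (nat_lit 18411)),(k5,(nat_lit 18411))],[(k10,(nat_lit 16188)),(k11,(nat_lit 16188)),(k6,(nat_lit 16758)),(k9,
    (nat_lit 16986)),(k0,(nat_lit 17214)),(k1,(nat_lit 17214)),(k7,(nat_lit 17214)),(k4,(nat_lit 17499)),(k5,
    (nat_lit 17499)),(k2,(nat_lit 17614)),(k3,(nat_lit 17614)),(k8,(nat_lit 18582))]]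
    [[k2,k0,k0,k0,k0,k1],[k1,k1,k0,k0,k0,k1],[k1,k0,k1,k0,k0,k1],[k1,k0,k0,k1,k0,k1],[k1,k0,k0,k0,k1,k1],[k1,k0,k0,k0,
    k0,k2],[k0,k1,k1,k0,k0,k1],[k0,k1,k0,k1,k0,k1],[k0,k1,k0,k0,k1,k1],[k0,k1,k0,k0,k0,k2],[k0,k0,k1,k1,k0,k1],[k0,k0,
    k1,k0,k1,k1],[k0,k0,k1,k0,k0,k2],[k0,k0,k0,k2,k0,k1],[k0,k0,k0,k1,k1,k1],[k0,k0,k0,k1,k0,k2],[k0,k0,k0,k0,k1,k2],
    [k0,k0,k0,k0,k0,k3]]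
    [.ref k25 k0 [(z1,[z1,z1]),(z2,[y1,z2,z3]),(z2,[z1,y2,z0,z1]),(z1,[y1,z2,z0,z0,z1]),(z2,[y2,y2,y3,y1,y2,z6])],
    .ref k25 k0 [(z1,[z2,z1,y1]),(z1,[y1,z1,z2]),(z2,[z2,y2,y1,z1]),(z1,[y2,z2,z1,z0,z1]),(z2,[y4,y2,y1,y1,y2,z6])],
    .ref k25 k0 [(z5,[z6,z9,z0,y1]),(z10,[y6,z6,z15,z1]),(z5,[z3,y3,z0,z2]),(z5,[y6,z6,z0,z1,z5]),(z10,[y12,y18,y15,
    y3,y10,z30])],.ref k25 k0 [(z1,[z3,z0,z0,z0,y1]),(z2,[y3,z3,z3,z0,z1]),(z2,[z3,y3,z0,z1,y1]),(z1,[y3,z3,z0,z0,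
    z2]),(z2,[y6,z0,y3,y1,z0,z6])],.ref k25 k0 [(z2,[z6,z6,z3,z1,z2,y6]),(z4,[y6,z0,z3,y1,y2,z6]),(z4,[z6,z0,z3,z3,z2,
    y6]),(z2,[y6,z0,y3,y1,z0,z6]),(z1,[y3,y3,y3,y1,y2,z6])],.ref k25 k0 [(z1,[z1,z2]),(z2,[y1,z1,z3]),(z2,[z1,y1,z0,
    z1]),(z1,[y1,z1,z0,z0,z1]),(z2,[y2,y4,y3,y1,y2,z6])],.ref k25 k0 [(z2,[z6,z6,y3,y1]),(z4,[y6,z0,z9,z1]),(z4,[z6,
    z0,y3,z1]),(z2,[y6,z0,z3,z1,z2]),(z1,[y3,y3,z0,z0,y1,z3])],.ref k25 k0 [(z1,[y6,z3,z3,z0,z2]),(z1,[z3,z0,z0,z0,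
    y1]),(z2,[y6,z0,z3,z1,z2]),(z1,[z6,z0,y3,z0,y1]),(z2,[z12,y6,y9,y1,y6,z6])],.ref k25 k0 [(z1,[y6,y3,z0,y1,y2,z6]),
    (z2,[z6,z6,z3,z1,z2,y6]),(z1,[y3,y3,z0,z0,y1,z3]),(z1,[z6,z6,z0,z1,z3,y6]),(z2,[z12,z6,y3,z1,z2,y6])],
    .ref k25 k0 [(z1,[z2,z3,y1]),(z1,[y1,z0,z2]),(z2,[z2,z0,y1,z1]),(z1,[y2,z0,z1,z0,z1]),(z2,[y4,y6,y1,y1,y2,z6])],
    .ref k25 k0 [(z1,[z6,z3,z0,y1,y2]),(z2,[y6,z0,z3,z1,z2]),(z1,[z3,z0,z0,z0,y1]),(z1,[y6,z0,z0,z1,z3]),(z2,[y12,y6,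
    y3,z1,z2,z6])],.ref k25 k0 [(z1,[z6,z9,z3,z0,z2,y6]),(z1,[y3,y3,z0,z0,y1,z3]),(z2,[z6,z6,z3,z1,z2,y6]),(z1,[y6,y6,
    y3,z0,y1,z6]),(z2,[y12,y18,y9,y1,y6,z18])],.ref k25 k0 [(z5,[z6,z15,z0,y1]),(z10,[y6,z0,z15,z1]),(z5,[z3,z0,z0,
    z2]),(z5,[y6,z0,z0,z1,z5]),(z10,[y12,y30,y15,y3,y10,z30])],.ref k25 k0 [(z1,[y3,z3,z0,z0,z2]),(z2,[z3,z0,z3,z0,
    y2]),(z2,[y3,z0,z0,z1,z2]),(z1,[z3,z0,z0,z0,y1]),(z2,[z6,y6,y3,y1,y6,z6])],.ref k25 k0 [(z2,[y6,z0,y3,y1,z0,z6]),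
    (z4,[z6,z6,z9,z1,z0,y6]),(z4,[y6,y6,y3,z1,z0,z6]),(z2,[z6,z6,z3,z1,z2,y6]),(z1,[z3,z0,z0,z0,y1])],
    .ref k25 k0 [(z1,[z3,z3,z0,z0,y1]),(z2,[y3,z0,z3,z0,z1]),(z2,[z3,z0,z0,z1,y1]),(z1,[y3,z0,z0,z0,z2]),(z2,[y6,y6,
    y3,y1,z0,z6])],.ref k25 k0 [(z2,[z6,z12,z3,z1,z2,y6]),(z4,[y6,y6,z3,y1,y2,z6]),(z4,[z6,z6,z3,z3,z2,y6]),(z2,[y6,
    y6,y3,y1,z0,z6]),(z1,[y3,y6,y3,y1,y2,z6])],.ref k25 k0 [(z1,[z1,z3]),(z2,[y1,z0,z3]),(z2,[z1,z0,z0,z1]),(z1,[y1,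
    z0,z0,z0,z1]),(z2,[y2,y6,y3,y1,y2,z6])]],
    .lp k0 [(nat_lit 574),(nat_lit 640),(nat_lit 676),(nat_lit 654),(nat_lit 650),(nat_lit 644)] [k51,k51,k18,k18,k0,
    k0,k11,k11,k13,k13,k16,k16] k0 [[k0,k0,k0,k24,k0,k0,k0,k0,k0,k36,k0,k10],[k0,k0,k0,k0,k0,k42,k42,k0,k0,k0,k0,k0],
    [k0,k24,k0,k0,k0,k0,k0,k0,k0,k0,k0,k0],[k0,k0,k0,k0,k8,k0,k0,k8,k0,k12,k6,k10],[k42,k0,k0,k0,k0,k0,k14,k0,k0,k0,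
    k6,k76],[k0,k0,k8,k0,k0,k0,k0,k0,k0,k0,k0,k0],[k0,k0,k8,k0,k0,k0,k0,k4,k52,k38,k0,k0],[k42,k0,k0,k0,k0,k14,k0,k0,
    k0,k0,k20,k76],[k0,k36,k12,k0,k0,k0,k0,k38,k0,k0,k58,k0],[k0,k0,k0,k0,k0,k0,k0,k52,k14,k0,k72,k0],[k0,k10,k10,k0,
    k0,k76,k76,k0,k0,k0,k0,k34],[k0,k0,k6,k0,k0,k6,k20,k0,k72,k58,k0,k0]] (nat_lit 1920) k5
    [[(k11,(nat_lit 537)),(k8,(nat_lit 554)),(k0,(nat_lit 574)),(k9,(nat_lit 592)),(k1,(nat_lit 608)),(k10,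
    (nat_lit 609)),(k2,(nat_lit 617)),(k3,(nat_lit 617)),(k4,(nat_lit 619)),(k5,(nat_lit 619)),(k6,(nat_lit 690)),(k7,
    (nat_lit 690))],[(k0,(nat_lit 574)),(k1,(nat_lit 574)),(k8,(nat_lit 576)),(k2,(nat_lit 583)),(k10,(nat_lit 599)),
    (k3,(nat_lit 607)),(k11,(nat_lit 609)),(k9,(nat_lit 612)),(k4,(nat_lit 625)),(k5,(nat_lit 625)),(k6,
    (nat_lit 656)),(k7,(nat_lit 656))],[(k9,(nat_lit 603)),(k0,(nat_lit 607)),(k4,(nat_lit 616)),(k1,(nat_lit 617)),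
    (k2,(nat_lit 640)),(k3,(nat_lit 640)),(k10,(nat_lit 642)),(k8,(nat_lit 645)),(k6,(nat_lit 647)),(k7,
    (nat_lit 647)),(k11,(nat_lit 678)),(k5,(nat_lit 682))],[(k0,(nat_lit 583)),(k1,(nat_lit 617)),(k2,(nat_lit 640)),
    (k3,(nat_lit 640)),(k8,(nat_lit 645)),(k6,(nat_lit 647)),(k7,(nat_lit 647)),(k10,(nat_lit 648)),(k9,
    (nat_lit 653)),(k11,(nat_lit 654)),(k5,(nat_lit 658)),(k4,(nat_lit 666))],[(k1,(nat_lit 619)),(k0,(nat_lit 625)),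
    (k10,(nat_lit 650)),(k8,(nat_lit 651)),(k6,(nat_lit 657)),(k7,(nat_lit 657)),(k2,(nat_lit 658)),(k11,
    (nat_lit 660)),(k9,(nat_lit 663)),(k4,(nat_lit 676)),(k5,(nat_lit 676)),(k3,(nat_lit 682))],[(k10,(nat_lit 584)),
    (k3,(nat_lit 616)),(k1,(nat_lit 619)),(k0,(nat_lit 625)),(k9,(nat_lit 649)),(k11,(nat_lit 660)),(k8,
    (nat_lit 663)),(k6,(nat_lit 665)),(k7,(nat_lit 665)),(k2,(nat_lit 666)),(k4,(nat_lit 676)),(k5,(nat_lit 676))],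
    [(k2,(nat_lit 647)),(k3,(nat_lit 647)),(k11,(nat_lit 649)),(k8,(nat_lit 652)),(k9,(nat_lit 652)),(k7,
    (nat_lit 654)),(k10,(nat_lit 655)),(k0,(nat_lit 656)),(k5,(nat_lit 657)),(k4,(nat_lit 665)),(k6,(nat_lit 668)),
    (k1,(nat_lit 690))],[(k11,(nat_lit 597)),(k8,(nat_lit 614)),(k2,(nat_lit 647)),(k3,(nat_lit 647)),(k6,
    (nat_lit 650)),(k9,(nat_lit 652)),(k0,(nat_lit 656)),(k5,(nat_lit 657)),(k4,(nat_lit 665)),(k7,(nat_lit 668)),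
    (k10,(nat_lit 669)),(k1,(nat_lit 690))],[(k10,(nat_lit 571)),(k1,(nat_lit 592)),(k3,(nat_lit 603)),(k0,
    (nat_lit 612)),(k4,(nat_lit 649)),(k6,(nat_lit 652)),(k7,(nat_lit 652)),(k2,(nat_lit 653)),(k9,(nat_lit 654)),(k5,
    (nat_lit 663)),(k11,(nat_lit 685)),(k8,(nat_lit 702))],[(k1,(nat_lit 554)),(k0,(nat_lit 576)),(k6,(nat_lit 614)),
    (k2,(nat_lit 645)),(k3,(nat_lit 645)),(k11,(nat_lit 647)),(k5,(nat_lit 651)),(k7,(nat_lit 652)),(k4,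
    (nat_lit 663)),(k8,(nat_lit 664)),(k9,(nat_lit 702)),(k10,(nat_lit 719))],[(k1,(nat_lit 537)),(k6,(nat_lit 597)),
    (k0,(nat_lit 609)),(k11,(nat_lit 630)),(k8,(nat_lit 647)),(k7,(nat_lit 649)),(k2,(nat_lit 654)),(k4,
    (nat_lit 660)),(k5,(nat_lit 660)),(k3,(nat_lit 678)),(k9,(nat_lit 685)),(k10,(nat_lit 702))],[(k9,(nat_lit 571)),
    (k4,(nat_lit 584)),(k0,(nat_lit 599)),(k1,(nat_lit 609)),(k10,(nat_lit 610)),(k3,(nat_lit 642)),(k2,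
    (nat_lit 648)),(k5,(nat_lit 650)),(k7,(nat_lit 655)),(k6,(nat_lit 669)),(k11,(nat_lit 702)),(k8,(nat_lit 719))]]
    [[k3,k0,k0,k0,k0,k0],[k2,k1,k0,k0,k0,k0],[k2,k0,k1,k0,k0,k0],[k2,k0,k0,k0,k1,k0],[k2,k0,k0,k0,k0,k1],[k1,k2,k0,k0,
    k0,k0],[k1,k1,k1,k0,k0,k0],[k1,k1,k0,k0,k1,k0],[k1,k1,k0,k0,k0,k1],[k1,k0,k1,k0,k1,k0],[k1,k0,k1,k0,k0,k1],[k1,k0,
    k0,k1,k1,k0],[k1,k0,k0,k1,k0,k1],[k1,k0,k0,k0,k2,k0],[k1,k0,k0,k0,k1,k1],[k1,k0,k0,k0,k0,k2],[k0,k2,k1,k0,k0,k0],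
    [k0,k2,k0,k0,k1,k0],[k0,k1,k0,k1,k1,k0],[k0,k1,k0,k1,k0,k1],[k0,k1,k0,k0,k1,k1],[k0,k0,k1,k1,k0,k1],[k0,k0,k1,k0,
    k1,k1],[k0,k0,k1,k0,k0,k2],[k0,k0,k0,k1,k1,k1],[k0,k0,k0,k1,k0,k2]]
    [.ref k25 k0 [(z1,[z1]),(z1,[z0,z0,z1]),(z3,[y2,z2,z0,z9]),(z3,[y2,z2,z0,z0,z9]),(z3,[z1,y1])],.ref k25 k0 [(z2,
    [z3,z0,y1]),(z1,[z0,z0,z1]),(z3,[y3,z2,z1,z9]),(z3,[y3,z2,z1,z0,z9]),(z6,[z3,y2,y1])],.ref k25 k0 [(z4,[z9,y2,z0,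
    y9]),(z1,[z0,z0,z1]),(z2,[y3,z2,z0,z9]),(z2,[y3,z2,z0,z3,z6]),(z4,[z3,y2,z0,y3])],.ref k25 k0 [(z7,[z9,z1]),(z1,
    [z0,z0,z1]),(z7,[y6,z4,z0,z21]),(z7,[y6,z4,z0,z0,z21]),(z7,[z3,y2])],.ref k25 k0 [(z2,[z3,z1,z1,z3,z3,y3]),(z1,
    [z0,z0,z1]),(z3,[y3,z1,y1,z6,y3,z3]),(z3,[y3,z1,y1,y3,z6,z3]),(z6,[z3,y1,z1,z3,z3,y3])],.ref k25 k0 [(z1,[z3,z0,
    y2]),(z1,[z0,z0,z1]),(z3,[y6,z2,z4,z9]),(z3,[y6,z2,z4,z0,z9]),(z3,[z3,y1,y2])],.ref k25 k0 [(z1,[z9,y2,y3,y9]),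
    (z1,[z0,z0,z1]),(z1,[y6,z2,z2,z9]),(z1,[y6,z2,z2,z6,z3]),(z1,[z3,y1,y1,y3])],.ref k25 k0 [(z4,[z9,z1,y3]),(z1,[z0,
    z0,z1]),(z2,[y3,z1,z1,z6]),(z2,[y3,z1,z1,z0,z6]),(z4,[z3,y1,y1])],.ref k25 k0 [(z1,[z3,z1,z0,z3,z3,y3]),(z1,[z0,
    z0,z1]),(z1,[y2,z0,z0,z1,y2,z2]),(z1,[y2,z0,z0,y2,z1,z2]),(z1,[z1,z0,z0,z1,z1,y1])],.ref k25 k0 [(z2,[z9,y1,z0,
    y9]),(z1,[z0,z0,z1]),(z1,[y3,z1,z0,z6]),(z1,[y3,z1,z0,z3,z3]),(z2,[z3,y1,z0,y3])],.ref k25 k0 [(z1,[z9,z1,z3,z0,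
    z9,y9]),(z1,[z0,z0,z1]),(z1,[y6,z0,y2,z3,y6,z6]),(z1,[y6,z0,y2,z0,y3,z6]),(z1,[z3,z0,z1,z0,z3,y3])],
    .ref k25 k0 [(z2,[z9,y1,z0,z0,y9]),(z1,[z0,z0,z1]),(z1,[y3,z1,z0,z3,z3]),(z1,[y3,z1,z0,z0,z6]),(z2,[z3,y1,z0,z0,
    y3])],.ref k25 k0 [(z1,[z9,z1,z3,z9,z0,y9]),(z1,[z0,z0,z1]),(z1,[y6,z0,y2,y3,z0,z6]),(z1,[y6,z0,y2,y6,z3,z6]),(z1,
    [z3,z0,z1,z3,z0,y3])],.ref k25 k0 [(z5,[z9,z2]),(z1,[z0,z0,z1]),(z5,[y6,z2,z0,z15]),(z5,[y6,z2,z0,z0,z15]),(z5,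
    [z3,y1])],.ref k25 k0 [(z4,[z9,z4,z3,z9,z9,y9]),(z1,[z0,z0,z1]),(z2,[y3,z0,y1,z3,y3,z3]),(z2,[y3,z0,y1,y3,z3,z3]),
    (z4,[z3,z0,z1,z3,z3,y3])],.ref k25 k0 [(z1,[z3,z2,z2,z6,z6,y6]),(z1,[z0,z0,z1]),(z3,[y6,y2,y4,y3,y12,z12]),(z3,
    [y6,y2,y4,y12,y3,z12]),(z3,[z3,z1,z2,z6,z6,y6])],.ref k25 k0 [(z2,[y9,z2,z6,z9]),(z1,[z0,z0,z1]),(z1,[z3,z0,y2]),
    (z1,[z3,z0,y2,y3,z3]),(z2,[y3,z0,z2,z3])],.ref k25 k0 [(z1,[z9,z1,y6]),(z1,[z0,z0,z1]),(z1,[y6,z0,z4,z3]),(z1,[y6,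
    z0,z4,z0,z3]),(z1,[z3,z0,y2])],.ref k25 k0 [(z1,[y9,z1,z3,z0,z9]),(z1,[z0,z0,z1]),(z1,[z6,z0,y2,z3,y6]),(z1,[z6,
    z0,y2,z0,y3]),(z1,[y3,z0,z1,z0,z3])],.ref k25 k0 [(z2,[y9,y1,z0,y9,z0,z9]),(z1,[z0,z0,z1]),(z1,[z3,z1,z0,z6,z0,
    y3]),(z1,[z3,z1,z0,z3,z3,y3]),(z2,[y3,y1,z0,y3,z0,z3])],.ref k25 k0 [(z1,[z9,z4,z0,z9,z9,y9]),(z1,[z0,z0,z1]),(z1,
    [y6,y2,z0,y3,y6,z6]),(z1,[y6,y2,z0,y6,y3,z6]),(z1,[z3,z1,z0,z3,z3,y3])],.ref k25 k0 [(z4,[y9,z1,y3,z0,z0,z9]),(z1,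
    [z0,z0,z1]),(z2,[z3,z1,z1,z6,z0,y3]),(z2,[z3,z1,z1,z0,z6,y3]),(z4,[y3,y1,y1,z0,z0,z3])],.ref k25 k0 [(z1,[y9,y2,
    y3,z0,y9,z9]),(z1,[z0,z0,z1]),(z1,[z6,z2,z2,z3,z6,y6]),(z1,[z6,z2,z2,z0,z9,y6]),(z1,[y3,y1,y1,z0,y3,z3])],
    .ref k25 k0 [(z2,[y9,y4,y6,y9,y18,z18]),(z1,[z0,z0,z1]),(z1,[z3,z2,z2,z6,z6,y6]),(z1,[z3,z2,z2,z3,z9,y6]),(z2,[y3,
    y2,y2,y3,y6,z6])],.ref k25 k0 [(z1,[y9,y2,y3,y9,z0,z9]),(z1,[z0,z0,z1]),(z1,[z6,z2,z2,z9,z0,y6]),(z1,[z6,z2,z2,z6,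
    z3,y6]),(z1,[y3,y1,y1,y3,z0,z3])],.ref k25 k0 [(z2,[y9,y4,y6,y18,y9,z18]),(z1,[z0,z0,z1]),(z1,[z3,z2,z2,z9,z3,
    y6]),(z1,[z3,z2,z2,z6,z6,y6]),(z2,[y3,y2,y2,y6,y3,z6])]],
    .lp k0 [(nat_lit 442),(nat_lit 496),(nat_lit 472),(nat_lit 502),(nat_lit 502),(nat_lit 460)] [k30,k30,k3,k3,k15,
    k15,k0,k0,k0,k0,k21,k21] k0 [[k0,k0,k0,k0,k0,k0,k0,k0,k18,k18,k12,k72],[k0,k0,k0,k66,k48,k18,k36,k0,k0,k0,k0,k0],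
    [k66,k0,k0,k6,k18,k0,k6,k0,k0,k0,k0,k0],[k0,k0,k0,k0,k12,k0,k0,k0,k48,k6,k12,k72],[k18,k0,k0,k0,k0,k0,k0,k0,k0,k0,
    k0,k30],[k48,k0,k12,k18,k0,k0,k18,k0,k6,k0,k0,k0],[k0,k0,k0,k0,k0,k0,k0,k18,k24,k24,k0,k0],[k36,k0,k0,k6,k18,k0,
    k0,k0,k0,k0,k0,k48],[k0,k18,k6,k0,k0,k0,k0,k24,k0,k0,k6,k0],[k0,k18,k48,k0,k6,k0,k0,k24,k0,k0,k0,k0],[k0,k72,k72,
    k0,k0,k30,k48,k0,k0,k0,k0,k0],[k0,k12,k12,k0,k0,k0,k0,k0,k0,k6,k0,k0]] (nat_lit 1440) k5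
    [[(k0,(nat_lit 430)),(k1,(nat_lit 442)),(k5,(nat_lit 445)),(k10,(nat_lit 451)),(k11,(nat_lit 451)),(k4,
    (nat_lit 457)),(k8,(nat_lit 466)),(k9,(nat_lit 472)),(k7,(nat_lit 502)),(k6,(nat_lit 520)),(k2,(nat_lit 541)),(k3,
    (nat_lit 541))],[(k10,(nat_lit 379)),(k1,(nat_lit 430)),(k11,(nat_lit 433)),(k0,(nat_lit 442)),(k8,(nat_lit 454)),
    (k2,(nat_lit 469)),(k3,(nat_lit 469)),(k9,(nat_lit 472)),(k7,(nat_lit 490)),(k4,(nat_lit 505)),(k6,(nat_lit 508)),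
    (k5,(nat_lit 523))],[(k2,(nat_lit 430)),(k7,(nat_lit 451)),(k9,(nat_lit 463)),(k4,(nat_lit 466)),(k0,
    (nat_lit 469)),(k5,(nat_lit 484)),(k10,(nat_lit 490)),(k3,(nat_lit 496)),(k11,(nat_lit 496)),(k6,(nat_lit 499)),
    (k8,(nat_lit 517)),(k1,(nat_lit 541))],[(k3,(nat_lit 430)),(k0,(nat_lit 469)),(k7,(nat_lit 481)),(k5,
    (nat_lit 484)),(k11,(nat_lit 484)),(k2,(nat_lit 490)),(k10,(nat_lit 490)),(k9,(nat_lit 493)),(k4,(nat_lit 496)),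
    (k6,(nat_lit 499)),(k1,(nat_lit 541)),(k8,(nat_lit 547))],[(k10,(nat_lit 394)),(k11,(nat_lit 418)),(k1,
    (nat_lit 445)),(k7,(nat_lit 475)),(k5,(nat_lit 478)),(k8,(nat_lit 481)),(k2,(nat_lit 484)),(k3,(nat_lit 484)),(k9,
    (nat_lit 487)),(k4,(nat_lit 490)),(k6,(nat_lit 493)),(k0,(nat_lit 523))],[(k10,(nat_lit 436)),(k1,(nat_lit 457)),
    (k3,(nat_lit 466)),(k11,(nat_lit 466)),(k4,(nat_lit 472)),(k7,(nat_lit 487)),(k9,(nat_lit 487)),(k5,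
    (nat_lit 490)),(k8,(nat_lit 493)),(k2,(nat_lit 496)),(k0,(nat_lit 505)),(k6,(nat_lit 505))],[(k3,(nat_lit 451)),
    (k5,(nat_lit 475)),(k11,(nat_lit 475)),(k2,(nat_lit 481)),(k10,(nat_lit 481)),(k9,(nat_lit 484)),(k4,
    (nat_lit 487)),(k0,(nat_lit 490)),(k1,(nat_lit 502)),(k6,(nat_lit 502)),(k7,(nat_lit 502)),(k8,(nat_lit 502))],
    [(k11,(nat_lit 457)),(k8,(nat_lit 478)),(k10,(nat_lit 481)),(k6,(nat_lit 484)),(k5,(nat_lit 493)),(k2,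
    (nat_lit 499)),(k3,(nat_lit 499)),(k7,(nat_lit 502)),(k9,(nat_lit 502)),(k4,(nat_lit 505)),(k0,(nat_lit 508)),(k1,
    (nat_lit 520))],[(k10,(nat_lit 433)),(k3,(nat_lit 463)),(k0,(nat_lit 472)),(k1,(nat_lit 472)),(k7,(nat_lit 484)),
    (k4,(nat_lit 487)),(k5,(nat_lit 487)),(k2,(nat_lit 493)),(k6,(nat_lit 502)),(k11,(nat_lit 505)),(k9,
    (nat_lit 520)),(k8,(nat_lit 526))],[(k0,(nat_lit 454)),(k1,(nat_lit 466)),(k6,(nat_lit 478)),(k5,(nat_lit 481)),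
    (k10,(nat_lit 481)),(k11,(nat_lit 481)),(k4,(nat_lit 493)),(k7,(nat_lit 502)),(k8,(nat_lit 502)),(k3,
    (nat_lit 517)),(k9,(nat_lit 526)),(k2,(nat_lit 547))],[(k5,(nat_lit 418)),(k0,(nat_lit 433)),(k1,(nat_lit 451)),
    (k6,(nat_lit 457)),(k11,(nat_lit 460)),(k4,(nat_lit 466)),(k10,(nat_lit 466)),(k7,(nat_lit 475)),(k8,
    (nat_lit 481)),(k2,(nat_lit 484)),(k3,(nat_lit 496)),(k9,(nat_lit 505))],[(k0,(nat_lit 379)),(k5,(nat_lit 394)),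
    (k9,(nat_lit 433)),(k4,(nat_lit 436)),(k1,(nat_lit 451)),(k10,(nat_lit 460)),(k11,(nat_lit 466)),(k6,
    (nat_lit 481)),(k7,(nat_lit 481)),(k8,(nat_lit 481)),(k2,(nat_lit 490)),(k3,(nat_lit 490))]]
    [[k3,k0,k0,k0,k0,k0],[k2,k0,k1,k0,k0,k0],[k2,k0,k0,k0,k1,k0],[k2,k0,k0,k0,k0,k1],[k2,k1,k0,k0,k0,k0],[k1,k1,k0,k0,
    k0,k1],[k1,k1,k1,k0,k0,k0],[k1,k0,k1,k0,k1,k0],[k1,k0,k1,k0,k0,k1],[k1,k0,k0,k1,k0,k1],[k1,k1,k0,k0,k1,k0],[k1,k0,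
    k0,k0,k1,k1],[k1,k0,k0,k0,k0,k2],[k0,k3,k0,k0,k0,k0],[k0,k2,k1,k0,k0,k0],[k0,k2,k0,k1,k0,k0],[k0,k2,k0,k0,k0,k1],
    [k0,k1,k1,k0,k0,k1],[k0,k1,k0,k2,k0,k0],[k0,k1,k0,k1,k1,k0],[k0,k1,k0,k1,k0,k1],[k0,k1,k0,k0,k1,k1],[k0,k0,k2,k0,
    k0,k1],[k0,k0,k1,k1,k0,k1],[k0,k0,k1,k0,k1,k1],[k0,k0,k1,k0,k0,k2],[k0,k0,k0,k1,k1,k1],[k0,k0,k0,k1,k0,k2],[k0,k0,
    k0,k0,k1,k2],[k0,k0,k0,k0,k0,k3]]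
    [.ref k25 k0 [(z1,[z1]),(z13,[y2,z6,z39]),(z13,[y8,z24,z0,z39]),(z13,[y8,z24,z0,z0,z39]),(z13,[z4,y51,y39,y39,y39,
    z39])],.ref k25 k0 [(z6,[z13,y8,z0,y13]),(z3,[y1,z2,z9,z1]),(z3,[y4,z8,z0,z13]),(z3,[y4,z8,z0,z4,z9]),(z3,[z2,y13,
    y9,y11,y9,z9])],.ref k25 k0 [(z10,[z13,z17,z13,z13,z13,y13]),(z5,[y1,z1,z14,y1,y1,z1]),(z5,[y4,z4,y4,z11,y4,z4]),
    (z5,[y4,z4,y4,y4,z11,z4]),(z5,[z2,y17,y13,y13,y13,z13])],.ref k25 k0 [(z9,[z13,z1]),(z9,[y2,z4,z27]),(z9,[y8,z16,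
    z0,z27]),(z9,[y8,z16,z0,z0,z27]),(z9,[z4,y35,y27,y27,y27,z27])],.ref k25 k0 [(z8,[z13,y2,y13]),(z4,[y1,z2,z13]),
    (z1,[y1,z2,z1,z3]),(z1,[y1,z2,z1,z0,z3]),(z2,[z1,y8,y7,y6,y6,z6])],.ref k25 k0 [(z4,[z13,y1,y13]),(z2,[y1,z1,z7]),
    (z1,[y2,z2,z2,z3]),(z1,[y2,z2,z2,z0,z3]),(z1,[z1,y4,y4,y3,y3,z3])],.ref k25 k0 [(z1,[z13,y10,y13,y13]),(z1,[y2,z2,
    z5,z2]),(z1,[y8,z8,z8,z11]),(z1,[y8,z8,z8,z8,z3]),(z1,[z4,y7,y7,y7,y3,z3])],.ref k25 k0 [(z3,[z13,z9,z13,z0,z13,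
    y13]),(z3,[y2,z0,z7,z0,y2,z2]),(z3,[y8,z0,y8,z9,y8,z8]),(z3,[y8,z0,y8,z0,z1,z8]),(z3,[z4,y9,y5,y9,y5,z5])],
    .ref k25 k0 [(z2,[z13,y7,z0,y13]),(z1,[y1,z1,z3,z1]),(z1,[y4,z4,z0,z7]),(z1,[y4,z4,z0,z4,z3]),(z1,[z2,y5,y3,y5,y3,
    z3])],.ref k25 k0 [(z2,[z13,y7,z0,z0,y13]),(z1,[y1,z1,z3,z0,z1]),(z1,[y4,z4,z0,z3,z4]),(z1,[y4,z4,z0,z0,z7]),(z1,
    [z2,y5,y3,y3,y5,z3])],.ref k25 k0 [(z5,[z13,z15,z0,z13,z13,y13]),(z5,[y2,z0,z15,y2,y2,z2]),(z5,[y8,z0,z0,z7,y8,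
    z8]),(z5,[y8,z0,z0,y8,z7,z8]),(z5,[z4,y15,y15,y11,y11,z11])],.ref k25 k0 [(z6,[z13,z18,z13,z13,z13,y13]),(z3,[y1,
    z0,z8,y1,y1,z1]),(z3,[y4,z0,y4,z5,y4,z4]),(z3,[y4,z0,y4,y4,z5,z4]),(z3,[z2,y9,y7,y7,y7,z7])],.ref k25 k0 [(z5,
    [z13,z2]),(z5,[y2,z2,z15]),(z5,[y8,z8,z0,z15]),(z5,[y8,z8,z0,z0,z15]),(z5,[z4,y19,y15,y15,y15,z15])],
    .ref k25 k0 [(z2,[y13,z6,z39]),(z1,[z1]),(z1,[z4,z0,y12,z3]),(z1,[z4,z0,y12,z0,z3]),(z1,[y2,y3,z3,y3,y3,z3])],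
    .ref k25 k0 [(z4,[y13,z12,z26,z13]),(z2,[z1,z0,z4,y1]),(z1,[z2,z0,y4,z1]),(z1,[z2,z0,y4,y2,z3]),(z1,[y1,y3,y1,y2,
    y3,z3])],.ref k25 k0 [(z4,[y13,z12,z26,z0,z13]),(z2,[z1,z0,z4,z0,y1]),(z1,[z2,z0,y4,z3,y2]),(z1,[z2,z0,y4,z0,z1]),
    (z1,[y1,y3,y1,y3,y2,z3])],.ref k25 k0 [(z1,[y13,z3,z26]),(z1,[z2,z0,y1]),(z1,[z8,z0,y16,z3]),(z1,[z8,z0,y16,z0,
    z3]),(z1,[y4,y3,z5,y3,y3,z3])],.ref k25 k0 [(z3,[y13,z9,z13,z13]),(z3,[z2,z0,z7,y2]),(z3,[z8,z0,y8,z1]),(z3,[z8,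
    z0,y8,y8,z9]),(z3,[y4,y9,y5,y5,y9,z9])],.ref k25 k0 [(z6,[y13,z18,z13,z0,z26]),(z3,[z1,z0,z8,z0,y2]),(z3,[z4,z0,
    y4,z9,y8]),(z3,[z4,z0,y4,z0,z1]),(z3,[y2,y9,y7,y9,y5,z9])],.ref k25 k0 [(z2,[y13,y7,z0,y13,z0,z13]),(z1,[z1,z1,z3,
    z1,z0,y1]),(z1,[z4,z4,z0,z7,z0,y4]),(z1,[z4,z4,z0,z4,z3,y4]),(z1,[y2,y5,y3,y5,y3,z5])],.ref k25 k0 [(z3,[y13,z9,
    z13,z0,z13]),(z3,[z2,z0,z7,z0,y2]),(z3,[z8,z0,y8,z9,y8]),(z3,[z8,z0,y8,z0,z1]),(z3,[y4,y9,y5,y9,y5,z9])],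
    .ref k25 k0 [(z1,[z13,z16,z0,z13,z13,y13]),(z1,[y2,y2,z3,y2,y2,z2]),(z1,[y8,y8,z0,y5,y8,z8]),(z1,[y8,y8,z0,y8,y5,
    z8]),(z1,[z4,z1,y3,z1,z1,y1])],.ref k25 k0 [(z5,[y13,z15,z0,z26]),(z5,[z2,z0,z15,y4]),(z5,[z8,z0,z0,y1]),(z5,[z8,
    z0,z0,y16,z15]),(z5,[y4,y15,y15,y7,y15,z15])],.ref k25 k0 [(z5,[y13,z15,z0,z13,z13]),(z5,[z2,z0,z15,y2,y2]),(z5,
    [z8,z0,z0,z7,y8]),(z5,[z8,z0,z0,y8,z7]),(z5,[y4,y15,y15,y11,y11,z15])],.ref k25 k0 [(z1,[y13,y10,y13,z0,y13,z13]),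
    (z1,[z2,z2,z5,z0,z2,y2]),(z1,[z8,z8,z8,z3,z8,y8]),(z1,[z8,z8,z8,z0,z11,y8]),(z1,[y4,y7,y7,y3,y7,z7])],
    .ref k25 k0 [(z2,[y13,z6,z0,z13]),(z1,[z1,z0,z3,y1]),(z1,[z4,z0,z0,y1]),(z1,[z4,z0,z0,y4,z3]),(z1,[y2,y3,y3,y1,y3,
    z3])],.ref k25 k0 [(z1,[y13,y10,y13,y13,z0,z13]),(z1,[z2,z2,z5,z2,z0,y2]),(z1,[z8,z8,z8,z11,z0,y8]),(z1,[z8,z8,z8,
    z8,z3,y8]),(z1,[y4,y7,y7,y7,y3,z7])],.ref k25 k0 [(z2,[y13,z6,z0,z0,z13]),(z1,[z1,z0,z3,z0,y1]),(z1,[z4,z0,z0,z3,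
    y4]),(z1,[z4,z0,z0,z0,y1]),(z1,[y2,y3,y3,y3,y1,z3])],.ref k25 k0 [(z2,[z13,z19,z13,z13,z13,y13]),(z1,[y1,y1,z2,y1,
    y1,z1]),(z1,[y4,y4,y4,y1,y4,z4]),(z1,[y4,y4,y4,y4,y1,z4]),(z1,[z2,y1,y1,y1,y1,z1])],.ref k25 k0 [(z1,[z13,z3]),
    (z1,[y2,z0,z3]),(z1,[y8,z0,z0,z3]),(z1,[y8,z0,z0,z0,z3]),(z1,[z4,y3,y3,y3,y3,z3])]],
    .lp k0 [(nat_lit 434),(nat_lit 440),(nat_lit 536),(nat_lit 500),(nat_lit 500),(nat_lit 458)] [k51,k51,k48,k48,k0,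
    k0,k18,k18,k18,k18,k39,k39] k0 [[k0,k0,k0,k0,k0,k0,k0,k0,k0,k84,k54,k30],[k0,k0,k0,k60,k0,k36,k36,k0,k0,k0,k0,k0],
    [k60,k0,k0,k0,k0,k0,k0,k0,k0,k0,k0,k0],[k0,k0,k0,k0,k0,k0,k0,k0,k0,k0,k66,k30],[k36,k0,k0,k0,k0,k60,k0,k0,k0,k0,
    k54,k90],[k0,k0,k0,k0,k0,k0,k0,k0,k0,k0,k0,k0],[k0,k0,k0,k0,k0,k0,k0,k0,k72,k36,k0,k6],[k36,k0,k0,k0,k0,k0,k0,k0,
    k0,k0,k0,k90],[k0,k84,k0,k0,k0,k0,k0,k36,k0,k0,k30,k0],[k0,k0,k0,k0,k0,k0,k0,k72,k36,k0,k0,k0],[k0,k30,k30,k0,k0,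
    k90,k90,k6,k0,k0,k0,k0],[k0,k54,k66,k0,k0,k54,k0,k0,k0,k30,k0,k0]] (nat_lit 1440) k5
    [[(k0,(nat_lit 380)),(k5,(nat_lit 419)),(k4,(nat_lit 431)),(k1,(nat_lit 434)),(k8,(nat_lit 437)),(k10,
    (nat_lit 446)),(k11,(nat_lit 446)),(k2,(nat_lit 467)),(k3,(nat_lit 467)),(k9,(nat_lit 473)),(k6,(nat_lit 557)),
    (k7,(nat_lit 557))],[(k1,(nat_lit 380)),(k8,(nat_lit 383)),(k10,(nat_lit 416)),(k0,(nat_lit 434)),(k2,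
    (nat_lit 437)),(k3,(nat_lit 437)),(k11,(nat_lit 446)),(k9,(nat_lit 467)),(k4,(nat_lit 485)),(k6,(nat_lit 503)),
    (k7,(nat_lit 503)),(k5,(nat_lit 545))],[(k2,(nat_lit 380)),(k9,(nat_lit 434)),(k0,(nat_lit 437)),(k3,
    (nat_lit 440)),(k4,(nat_lit 452)),(k1,(nat_lit 467)),(k6,(nat_lit 470)),(k7,(nat_lit 470)),(k8,(nat_lit 470)),(k5,
    (nat_lit 488)),(k10,(nat_lit 503)),(k11,(nat_lit 533))],[(k3,(nat_lit 380)),(k0,(nat_lit 437)),(k2,(nat_lit 440)),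
    (k11,(nat_lit 449)),(k1,(nat_lit 467)),(k6,(nat_lit 470)),(k7,(nat_lit 470)),(k8,(nat_lit 470)),(k9,
    (nat_lit 470)),(k4,(nat_lit 488)),(k5,(nat_lit 488)),(k10,(nat_lit 515))],[(k1,(nat_lit 419)),(k10,(nat_lit 467)),
    (k2,(nat_lit 488)),(k3,(nat_lit 488)),(k11,(nat_lit 497)),(k6,(nat_lit 518)),(k7,(nat_lit 518)),(k8,
    (nat_lit 518)),(k9,(nat_lit 518)),(k4,(nat_lit 536)),(k5,(nat_lit 536)),(k0,(nat_lit 545))],[(k10,(nat_lit 407)),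
    (k1,(nat_lit 431)),(k3,(nat_lit 452)),(k4,(nat_lit 476)),(k0,(nat_lit 485)),(k2,(nat_lit 488)),(k11,
    (nat_lit 497)),(k6,(nat_lit 518)),(k7,(nat_lit 518)),(k8,(nat_lit 518)),(k9,(nat_lit 518)),(k5,(nat_lit 536))],
    [(k2,(nat_lit 470)),(k3,(nat_lit 470)),(k11,(nat_lit 479)),(k6,(nat_lit 500)),(k8,(nat_lit 500)),(k9,
    (nat_lit 500)),(k0,(nat_lit 503)),(k4,(nat_lit 518)),(k5,(nat_lit 518)),(k10,(nat_lit 533)),(k1,(nat_lit 557)),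
    (k7,(nat_lit 560))],[(k11,(nat_lit 407)),(k8,(nat_lit 464)),(k2,(nat_lit 470)),(k3,(nat_lit 470)),(k10,
    (nat_lit 473)),(k6,(nat_lit 500)),(k7,(nat_lit 500)),(k9,(nat_lit 500)),(k0,(nat_lit 503)),(k4,(nat_lit 518)),(k5,
    (nat_lit 518)),(k1,(nat_lit 557))],[(k10,(nat_lit 389)),(k3,(nat_lit 434)),(k0,(nat_lit 467)),(k2,(nat_lit 470)),
    (k1,(nat_lit 473)),(k6,(nat_lit 500)),(k7,(nat_lit 500)),(k9,(nat_lit 500)),(k11,(nat_lit 515)),(k4,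
    (nat_lit 518)),(k5,(nat_lit 518)),(k8,(nat_lit 572))],[(k0,(nat_lit 383)),(k1,(nat_lit 437)),(k6,(nat_lit 464)),
    (k2,(nat_lit 470)),(k3,(nat_lit 470)),(k10,(nat_lit 479)),(k11,(nat_lit 479)),(k7,(nat_lit 500)),(k4,
    (nat_lit 518)),(k5,(nat_lit 518)),(k8,(nat_lit 536)),(k9,(nat_lit 572))],[(k6,(nat_lit 407)),(k11,(nat_lit 422)),
    (k0,(nat_lit 446)),(k1,(nat_lit 446)),(k2,(nat_lit 449)),(k7,(nat_lit 479)),(k8,(nat_lit 479)),(k10,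
    (nat_lit 488)),(k4,(nat_lit 497)),(k5,(nat_lit 497)),(k9,(nat_lit 515)),(k3,(nat_lit 533))],[(k9,(nat_lit 389)),
    (k4,(nat_lit 407)),(k0,(nat_lit 416)),(k1,(nat_lit 446)),(k10,(nat_lit 458)),(k5,(nat_lit 467)),(k6,
    (nat_lit 473)),(k8,(nat_lit 479)),(k11,(nat_lit 488)),(k3,(nat_lit 503)),(k2,(nat_lit 515)),(k7,(nat_lit 533))]]
    [[k3,k0,k0,k0,k0,k0],[k2,k1,k0,k0,k0,k0],[k2,k0,k1,k0,k0,k0],[k2,k0,k0,k0,k1,k0],[k2,k0,k0,k0,k0,k1],[k1,k2,k0,k0,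
    k0,k0],[k1,k1,k0,k0,k1,k0],[k1,k1,k0,k0,k0,k1],[k1,k1,k1,k0,k0,k0],[k1,k0,k1,k0,k1,k0],[k1,k0,k1,k0,k0,k1],[k1,k0,
    k0,k1,k0,k1],[k1,k0,k0,k0,k2,k0],[k1,k0,k0,k0,k1,k1],[k1,k0,k0,k0,k0,k2],[k0,k3,k0,k0,k0,k0],[k0,k2,k1,k0,k0,k0],
    [k0,k2,k0,k1,k0,k0],[k0,k2,k0,k0,k1,k0],[k0,k2,k0,k0,k0,k1],[k0,k1,k1,k0,k0,k1],[k0,k1,k0,k1,k1,k0],[k0,k1,k0,k1,
    k0,k1],[k0,k1,k0,k0,k1,k1],[k0,k0,k1,k1,k0,k1],[k0,k0,k1,k0,k1,k1],[k0,k0,k1,k0,k0,k2],[k0,k0,k0,k1,k1,k1],[k0,k0,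
    k0,k1,k0,k2],[k0,k0,k0,k0,k1,k2],[k0,k0,k0,k0,k0,k3]]
    [.ref (nat_lit 399) k3 [(z1,[z0,y1,y1,y2,z1]),(z1,[z0,z0,z0,z1]),(z1,[z2,y6,z0,y9]),(z1,[z1])],.ref k18 k9 [(z2,
    [y1,z0,z1]),(z2,[z1,y2,y1]),(z1,[y1,y1,y2,y3,z3]),(z1,[y1,z2,z1,z3])],.ref k64 k7 [(z1,[y3,z2,z1,z3]),(z1,[z1]),
    (z1,[z1,y1,y1,y2,z1]),(z2,[y1,z0,z0,z1])],.ref (nat_lit 400) k9 [(z1,[y3,y1]),(z1,[z1]),(z1,[y2,y1,y1,y1,z1]),(z1,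
    [y2,z0,z0,z1])],.ref k64 k7 [(z1,[y2,z0,z1]),(z3,[z2,z2,z0,z3]),(z3,[z2,y1,y3,y3,z3]),(z3,[y1,y1])],
    .ref (nat_lit 394) k0 [(z1,[z1,z0,y2]),(z1,[z0,z0,z1]),(z3,[y2,z2,z4,z3]),(z3,[y2,y1,z1,y3,z3])],
    .ref k126 k6 [(z1,[y1,z1,z1]),(z1,[y1,z2,z1]),(z1,[z2,y2,y1]),(z1,[z0,z0,z0,z1])],.ref k18 k9 [(z1,[y1,z0,z1]),
    (z1,[z1,y1,y1]),(z1,[y2,y1,y1,y3,z3]),(z1,[y2,z2,z2,z3])],.ref (nat_lit 394) k0 [(z1,[z3,y2,y3,y3]),(z1,[z0,z0,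
    z1]),(z1,[y2,z2,z2,z3]),(z1,[y2,z1,z1,z1,z1])],.ref k64 k7 [(z1,[y6,z2,z1,z6]),(z1,[z2,z0,z0,y1]),(z1,[z2,y1,y1,
    y3,z1]),(z1,[y1,z0,z0,z1])],.ref (nat_lit 401) k11 [(z1,[z6,y4,y5,y6]),(z1,[z0,z0,z1]),(z1,[z1,y1,y1,y1]),(z1,[y2,
    z1,z1,z1,z1])],.ref (nat_lit 401) k11 [(z1,[z6,z2,z1,z6,y6]),(z1,[z0,z0,z1]),(z1,[z1,z0,z0,z1,y1]),(z1,[y2,y1,y1,
    y3,z3])],.ref (nat_lit 402) k9 [(z1,[y3,y2]),(z1,[z1]),(z1,[y1,y1,y1,y1,z1]),(z1,[y1,z0,z0,z1])],.ref k64 k7 [(z1,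
    [y3,y1,z1]),(z1,[z1,z1,z0,z1]),(z1,[z1,z0,y1,y1,z1]),(z2,[y1,y1])],.ref (nat_lit 403) k3 [(z1,[z0,y1,y1,y2,z1]),
    (z1,[z0,z0,z0,z1]),(z1,[z2,y2,z0,y3]),(z1,[z1,z2,z0,z3])],.ref (nat_lit 404) k0 [(z2,[y1,z6,z3]),(z1,[z1]),(z1,
    [z0,z0,z0,z1]),(z1,[z0,y1,y1,y1,z1])],.ref (nat_lit 401) k11 [(z1,[y3,z2,z1,z3]),(z1,[z0,z0,z1]),(z2,[y1,z0,z0,
    z1]),(z1,[z1,y1,y1,y2,z1])],.ref (nat_lit 401) k11 [(z1,[y3,y1,y2,y3,z3]),(z1,[z0,z0,z1]),(z2,[y1,y1,y1,y1,z1]),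
    (z1,[z1])],.ref (nat_lit 405) k0 [(z1,[z3,z1,y6]),(z1,[z0,z0,z1]),(z1,[y2,z0,z4,z1]),(z1,[y2,y1,z3,y1,z1])],
    .ref (nat_lit 404) k0 [(z1,[y1,z3,z2]),(z1,[z2,z0,y1]),(z1,[z0,z0,z0,z1]),(z1,[z0,y1,y1,y1,z1])],.ref k64 k7 [(z1,
    [z6,y4,y5,y6]),(z1,[y2,z2,z2,z3]),(z1,[y2,z1,z1,z1,z1]),(z1,[z1,y1,y1,y1])],.ref (nat_lit 401) k11 [(z1,[y6,y4,y5,
    y6,z6]),(z1,[z0,z0,z1]),(z1,[y1,y1,y1,y1,z1]),(z1,[z2,z1,z1,z1,y1])],.ref k64 k7 [(z1,[z6,z2,z1,z6,y6]),(z1,[y2,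
    z0,z0,y1,z2]),(z1,[y2,y1,y1,y3,z3]),(z1,[z1,z0,z0,z1,y1])],.ref (nat_lit 394) k0 [(z1,[z3,z1,y3]),(z1,[z0,z0,z1]),
    (z1,[y2,z0,z2,z1]),(z1,[y2,y1,z1,y1,z1])],.ref k126 k6 [(z1,[z1,z1,z1,z0,y1]),(z1,[z1,z2,z1,z0,y1]),(z1,[y2,y2,y1,
    z0,z2]),(z1,[z0,z0,z0,z1])],.ref (nat_lit 394) k0 [(z1,[y3,z1,z0,z3]),(z1,[z0,z0,z1]),(z1,[z2,z0,z0,y1]),(z1,[z2,
    y1,y1,y3,z1])],.ref (nat_lit 394) k0 [(z2,[y3,z2,z0,z3]),(z1,[z0,z0,z1]),(z1,[z1]),(z1,[z1,y1,y1,y2,z1])],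
    .ref (nat_lit 394) k0 [(z1,[y3,y2,y3,y3,z3]),(z1,[z0,z0,z1]),(z1,[z2,z2,z2,z3,y2]),(z1,[z2,z1,z1,z1,y1])],
    .ref (nat_lit 394) k0 [(z2,[y3,y1,y3,y3,z3]),(z1,[z0,z0,z1]),(z1,[z1,z1,z1,z2,y1]),(z1,[z1])],
    .ref (nat_lit 401) k11 [(z1,[z6,z2,y5]),(z1,[z0,z0,z1]),(z1,[z1,z0,y1]),(z1,[y2,y1,z1,y1,z1])],
    .ref (nat_lit 404) k0 [(z1,[z1,z3]),(z1,[y2,z0,z3]),(z1,[z0,z0,z0,z1]),(z1,[z0,y1,y1,y1,z1])]],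
    .base (.leafM k3 [k1,k2,k3,k4,k5,k0] [(z1,[z0,z0,z1])] [])]

theorem hB6_171_33 : blkB [0, 0, 0, 0, 0, 0] [] sp6 hS6_171 (pcls (n := 6) [0, 0, 0, 0, 0, 0]) hD6_171 560 33 hN6_171_33 = true := by
  decide +kernel

end Pool.Agent.Lib_MP_fa6e45
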