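import Pool.Agent.Lib_MP_fa6e45.HK

/-!
MP_fa6e45_co, stage 4: certificates (captain, generated by a program).
-/

namespace Pool.Agent.Lib_MP_fa6e45

/-- nodes 408 to 419 -/
noncomputable def hN6_171_34 : List HM :=
  [.base (.leafM k3 [k0,k1,k2,k3,k4,k5] [(z1,[y1,z0,y1,z0,z1])] []),
    .base (.leafM k0 [k1,k2,k3,k4,k5,k0] [(z1,[y1,y1,z0,z0,z1])] []),
    .lp k0 [k82,k84,k80,k80,k78,k74] [k1,k1,k0,k0,k2,k2,k2,k2,k3,k3,k5,k5] k0 [[k0,k0,k0,k0,k0,k0,k0,k0,k0,k6,k6,k2],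
    [k0,k0,k0,k0,k4,k0,k0,k4,k0,k0,k0,k0],[k0,k0,k0,k0,k4,k0,k0,k4,k0,k0,k0,k0],[k0,k0,k0,k0,k0,k0,k0,k0,k0,k2,k2,k2],
    [k0,k0,k0,k0,k0,k0,k0,k0,k0,k0,k0,k12],[k4,k0,k0,k4,k0,k0,k0,k0,k6,k0,k0,k2],[k4,k0,k0,k4,k0,k0,k0,k0,k16,k16,k0,
    k16],[k0,k0,k0,k0,k0,k0,k0,k0,k0,k0,k0,k6],[k0,k6,k2,k0,k0,k0,k0,k16,k0,k0,k0,k0],[k0,k0,k0,k0,k6,k0,k0,k16,k0,k0,
    k10,k0],[k0,k2,k2,k0,k2,k12,k6,k16,k0,k0,k0,k0],[k0,k6,k2,k0,k0,k0,k0,k0,k10,k0,k0,k0]] (nat_lit 240) k5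
    [[(k11,k68),(k0,k76),(k10,k78),(k5,k79),(k8,k80),(k1,k82),(k4,k83),(k2,k85),(k3,k85),(k6,k87),(k7,k93),(k9,k96)],
    [(k8,k74),(k1,k76),(k10,k76),(k11,k78),(k5,k81),(k6,k81),(k7,k81),(k0,k82),(k2,k83),(k3,k83),(k9,k84),(k4,k85)],
    [(k6,k78),(k7,k78),(k8,k81),(k9,k81),(k4,k82),(k5,k82),(k0,k83),(k2,k84),(k3,k84),(k1,k85),(k10,k85),(k11,k85)],
    [(k6,k78),(k7,k78),(k8,k81),(k9,k81),(k10,k81),(k11,k81),(k4,k82),(k5,k82),(k0,k83),(k2,k84),(k3,k84),(k1,k85)],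
    [(k10,k75),(k8,k77),(k11,k77),(k1,k79),(k5,k80),(k6,k80),(k7,k80),(k0,k81),(k2,k82),(k3,k82),(k9,k83),(k4,k84)],
    [(k10,k65),(k11,k77),(k9,k79),(k4,k80),(k6,k80),(k7,k80),(k2,k82),(k3,k82),(k1,k83),(k5,k84),(k0,k85),(k8,k85)],
    [(k11,k71),(k10,k75),(k2,k78),(k3,k78),(k8,k79),(k9,k79),(k4,k80),(k5,k80),(k6,k80),(k7,k80),(k0,k81),(k1,k93)],
    [(k10,k61),(k11,k61),(k8,k63),(k2,k78),(k3,k78),(k9,k79),(k4,k80),(k5,k80),(k6,k80),(k7,k80),(k0,k81),(k1,k87)],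
    [(k10,k70),(k9,k78),(k4,k79),(k6,k79),(k7,k79),(k2,k81),(k3,k81),(k5,k83),(k0,k84),(k11,k92),(k8,k94),(k1,k96)],
    [(k6,k63),(k0,k74),(k11,k76),(k5,k77),(k8,k78),(k7,k79),(k1,k80),(k2,k81),(k3,k81),(k4,k85),(k10,k86),(k9,k94)],
    [(k6,k61),(k1,k68),(k7,k71),(k10,k74),(k11,k74),(k8,k76),(k4,k77),(k5,k77),(k0,k78),(k2,k81),(k3,k85),(k9,k92)],
    [(k6,k61),(k4,k65),(k9,k70),(k10,k74),(k11,k74),(k5,k75),(k7,k75),(k0,k76),(k1,k78),(k2,k81),(k3,k85),(k8,k86)]]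
    [[k3,k0,k0,k0,k0,k0],[k2,k0,k0,k0,k0,k1],[k1,k0,k1,k0,k0,k1],[k1,k0,k1,k0,k1,k0],[k1,k0,k0,k1,k0,k1],[k1,k0,k0,k0,
    k2,k0],[k1,k0,k0,k0,k1,k1],[k1,k0,k0,k0,k0,k2],[k1,k1,k0,k0,k0,k1],[k0,k1,k1,k0,k0,k1],[k0,k1,k0,k2,k0,k0],[k0,k1,
    k0,k1,k1,k0],[k0,k1,k0,k1,k0,k1],[k0,k1,k0,k0,k1,k1],[k0,k0,k2,k0,k0,k1],[k0,k0,k1,k1,k1,k0],[k0,k0,k1,k1,k0,k1],
    [k0,k0,k1,k0,k1,k1],[k0,k0,k1,k0,k0,k2],[k0,k0,k0,k2,k1,k0],[k0,k0,k0,k2,k0,k1],[k0,k0,k0,k1,k2,k0],[k0,k0,k0,k1,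
    k1,k1],[k0,k0,k0,k1,k0,k2],[k0,k0,k0,k0,k1,k2],[k0,k0,k0,k0,k0,k3]]
    [.ref k25 k0 [(z1,[z1]),(z3,[y2,z2,z9]),(z1,[z0,z0,z0,z1]),(z3,[z4,y4,z0,z0,z9]),(z1,[y2,z1,y3,y1,y3,z3])],
    .ref k25 k0 [(z7,[z9,z1]),(z7,[y6,z4,z21]),(z1,[z0,z0,z0,z1]),(z7,[z12,y8,z0,z0,z21]),(z7,[y18,z5,y21,y7,y21,
    z21])],.ref k25 k0 [(z4,[z9,z1,z0,y3]),(z2,[y3,z1,z6,z1]),(z1,[z0,z0,z0,z1]),(z1,[z3,y1,z0,y1,z3]),(z2,[y9,z1,y6,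
    z1,y6,z6])],.ref k25 k0 [(z1,[y3,z1,y3,z0,y3,z3]),(z1,[z2,z0,z5,z0,z2,y2]),(z1,[z0,z0,z0,z1]),(z1,[y4,z0,y4,z0,y1,
    z4]),(z1,[z6,y1,z3,y1,z3,y3])],.ref k25 k0 [(z8,[z9,z5,z0,z0,y9]),(z4,[y3,z1,z12,z0,z3]),(z1,[z0,z0,z0,z1]),(z2,
    [z3,y1,z0,z0,z3]),(z4,[y9,y1,y12,y4,y3,z12])],.ref k25 k0 [(z3,[y3,z2,y6,y2,y6,z6]),(z9,[z6,z2,z39,z4,z12,y12]),
    (z1,[z0,z0,z0,z1]),(z9,[y12,y4,y24,y8,z3,z24]),(z3,[z6,y1,z3,z1,z3,y3])],.ref k25 k0 [(z2,[y9,z2,y9,y3,y9,z9]),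
    (z1,[z3,z0,z6,z1,z3,y3]),(z1,[z0,z0,z0,z1]),(z1,[y6,z0,y6,y2,y3,z6]),(z1,[z9,y1,z6,z2,z6,y6])],.ref k25 k0 [(z5,
    [z9,z2]),(z5,[y6,z2,z15]),(z1,[z0,z0,z0,z1]),(z5,[z12,y4,z0,z0,z15]),(z5,[y18,z1,y15,y5,y15,z15])],
    .ref k25 k0 [(z2,[z9,y1,y9]),(z1,[y3,z1,z6]),(z1,[z0,z0,z0,z1]),(z1,[z6,y2,y6,z0,z3]),(z1,[y9,z2,z6,y1,y3,z3])],
    .ref k25 k0 [(z1,[y9,z1,z9,z3]),(z1,[z6,z0,y3,y2]),(z1,[z0,z0,z0,z1]),(z1,[y12,z0,z12,z4,z3]),(z1,[z18,y1,y21,y7,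
    y3,z3])],.ref k25 k0 [(z2,[z3,z2,y3,z0,y6]),(z1,[y1,z0,z4,z0,z2]),(z1,[z0,z0,z0,z1]),(z1,[z2,z0,y2,z0,y1]),(z1,
    [y3,y1,z0,y1,z3,z3])],.ref k25 k0 [(z4,[y9,z1,z0,y3,z0,z9]),(z2,[z3,z1,z6,z1,z0,y3]),(z1,[z0,z0,z0,z1]),(z1,[y3,
    y1,z0,y1,z3,z3]),(z2,[z9,z1,y6,z1,y6,y3])],.ref k25 k0 [(z1,[z3,z1,y3,z0,y3]),(z1,[y2,z0,z5,z0,z2]),(z1,[z0,z0,z0,
    z1]),(z1,[z4,z0,y4,z0,y1]),(z1,[y6,y1,z3,y1,z3,z3])],.ref k25 k0 [(z7,[y9,z4,z0,y3,y9,z9]),(z7,[z6,z2,z21,z2,z6,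
    y6]),(z1,[z0,z0,z0,z1]),(z7,[y12,y4,z0,y4,z9,z12]),(z7,[z18,y1,y21,y1,y3,z3])],.ref k25 k0 [(z1,[z9,z1,z0,y6]),
    (z1,[y6,z0,z3,z4]),(z1,[z0,z0,z0,z1]),(z1,[z12,z0,z0,y8,z3]),(z1,[y18,y1,y3,z11,y3,z3])],.ref k25 k0 [(z2,[y9,y1,
    y9,z0,z0,z9]),(z1,[z3,z1,z6,z0,z0,y3]),(z1,[z0,z0,z0,z1]),(z1,[y6,y2,y6,z0,z3,z6]),(z1,[z9,z2,z6,y1,y3,y6])],
    .ref k25 k0 [(z5,[z9,z5,z0,y3,y9]),(z5,[y6,z0,z15,z2,z6]),(z1,[z0,z0,z0,z1]),(z5,[z12,z0,z0,y4,z3]),(z5,[y18,y5,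
    y15,z1,z3,z15])],.ref k25 k0 [(z5,[y9,z2,y9,z0,y9,z9]),(z5,[z6,z2,z21,z0,z6,y6]),(z1,[z0,z0,z0,z1]),(z5,[y12,y4,
    y12,z0,z3,z12]),(z5,[z18,z1,z3,y5,z3,y3])],.ref k25 k0 [(z2,[z9,z2,z0,y3]),(z1,[y3,z0,z3,z1]),(z1,[z0,z0,z0,z1]),
    (z1,[z6,z0,z0,y2,z3]),(z1,[y9,y1,y3,z2,y3,z3])],.ref k25 k0 [(z2,[z9,z5,z9,z3,y9,y9]),(z1,[y3,y1,z0,y1,z3,z3]),
    (z1,[z0,z0,z0,z1]),(z1,[z6,z2,z6,z2,y3,y6]),(z1,[y9,y4,y12,y4,z6,z12])],.ref k25 k0 [(z1,[z1,z1,z0,z0,y2]),(z3,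
    [y2,z0,z9,z0,z4]),(z1,[z0,z0,z0,z1]),(z3,[z4,z0,z0,z0,z1]),(z1,[y2,y1,y3,y1,z1,z3])],.ref k25 k0 [(z8,[y9,z2,y18,
    y6,y9,z18]),(z4,[z3,z2,z18,z2,z3,y6]),(z1,[z0,z0,z0,z1]),(z2,[y3,y2,y6,y2,z3,z6]),(z4,[z9,z2,z6,z2,y3,y6])],
    .ref k25 k0 [(z1,[y9,y2,y9,y3,z0,z9]),(z1,[z6,z2,z9,z2,z0,y6]),(z1,[z0,z0,z0,z1]),(z1,[y12,y4,y12,y4,z3,z12]),(z1,
    [z18,z5,z15,z5,y3,y15])],.ref k25 k0 [(z2,[z3,z2,z0,z0,y3]),(z1,[y1,z0,z3,z0,z1]),(z1,[z0,z0,z0,z1]),(z1,[z2,z0,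
    z0,z0,z1]),(z1,[y3,y1,y3,y1,z0,z3])],.ref k25 k0 [(z4,[y9,z1,y9,y3,y9,z9]),(z2,[z3,z1,z9,z1,z3,y3]),(z1,[z0,z0,z0,
    z1]),(z1,[y3,y1,y3,y1,z0,z3]),(z2,[z9,z1,z3,z1,z3,y3])],.ref k25 k0 [(z1,[z3,z1]),(z1,[y2,z0,z3]),(z1,[z0,z0,z0,
    z1]),(z1,[z4,z0,z0,z0,z3]),(z1,[y6,y1,y3,y1,y3,z3])]],
    .lp k0 [k82,k84,k80,k80,k78,k74] [k1,k1,k0,k0,k2,k2,k2,k2,k3,k3,k5,k5] k0 [[k0,k0,k0,k0,k0,k0,k0,k0,k0,k6,k6,k2],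
    [k0,k0,k0,k0,k4,k0,k0,k4,k0,k0,k0,k0],[k0,k0,k0,k0,k4,k0,k0,k4,k0,k0,k0,k0],[k0,k0,k0,k0,k0,k0,k0,k0,k0,k2,k2,k2],
    [k0,k0,k0,k0,k0,k0,k0,k0,k0,k0,k0,k12],[k4,k0,k0,k4,k0,k0,k0,k0,k6,k0,k0,k2],[k4,k0,k0,k4,k0,k0,k0,k0,k16,k16,k0,
    k16],[k0,k0,k0,k0,k0,k0,k0,k0,k0,k0,k0,k6],[k0,k6,k2,k0,k0,k0,k0,k16,k0,k0,k0,k0],[k0,k0,k0,k0,k6,k0,k0,k16,k0,k0,
    k10,k0],[k0,k2,k2,k0,k2,k12,k6,k16,k0,k0,k0,k0],[k0,k6,k2,k0,k0,k0,k0,k0,k10,k0,k0,k0]] (nat_lit 240) k5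
    [[(k11,k68),(k0,k76),(k10,k78),(k5,k79),(k8,k80),(k1,k82),(k4,k83),(k2,k85),(k3,k85),(k6,k87),(k7,k93),(k9,k96)],
    [(k8,k74),(k1,k76),(k10,k76),(k11,k78),(k5,k81),(k6,k81),(k7,k81),(k0,k82),(k2,k83),(k3,k83),(k9,k84),(k4,k85)],
    [(k6,k78),(k7,k78),(k8,k81),(k9,k81),(k4,k82),(k5,k82),(k0,k83),(k2,k84),(k3,k84),(k1,k85),(k10,k85),(k11,k85)],
    [(k6,k78),(k7,k78),(k8,k81),(k9,k81),(k10,k81),(k11,k81),(k4,k82),(k5,k82),(k0,k83),(k2,k84),(k3,k84),(k1,k85)],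
    [(k10,k75),(k8,k77),(k11,k77),(k1,k79),(k5,k80),(k6,k80),(k7,k80),(k0,k81),(k2,k82),(k3,k82),(k9,k83),(k4,k84)],
    [(k10,k65),(k11,k77),(k9,k79),(k4,k80),(k6,k80),(k7,k80),(k2,k82),(k3,k82),(k1,k83),(k5,k84),(k0,k85),(k8,k85)],
    [(k11,k71),(k10,k75),(k2,k78),(k3,k78),(k8,k79),(k9,k79),(k4,k80),(k5,k80),(k6,k80),(k7,k80),(k0,k81),(k1,k93)],
    [(k10,k61),(k11,k61),(k8,k63),(k2,k78),(k3,k78),(k9,k79),(k4,k80),(k5,k80),(k6,k80),(k7,k80),(k0,k81),(k1,k87)],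
    [(k10,k70),(k9,k78),(k4,k79),(k6,k79),(k7,k79),(k2,k81),(k3,k81),(k5,k83),(k0,k84),(k11,k92),(k8,k94),(k1,k96)],
    [(k6,k63),(k0,k74),(k11,k76),(k5,k77),(k8,k78),(k7,k79),(k1,k80),(k2,k81),(k3,k81),(k4,k85),(k10,k86),(k9,k94)],
    [(k6,k61),(k1,k68),(k7,k71),(k10,k74),(k11,k74),(k8,k76),(k4,k77),(k5,k77),(k0,k78),(k2,k81),(k3,k85),(k9,k92)],
    [(k6,k61),(k4,k65),(k9,k70),(k10,k74),(k11,k74),(k5,k75),(k7,k75),(k0,k76),(k1,k78),(k2,k81),(k3,k85),(k8,k86)]]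
    [[k3,k0,k0,k0,k0,k0],[k2,k0,k0,k0,k0,k1],[k1,k0,k1,k0,k0,k1],[k1,k0,k1,k0,k1,k0],[k1,k0,k0,k1,k0,k1],[k1,k0,k0,k0,
    k2,k0],[k1,k0,k0,k0,k1,k1],[k1,k0,k0,k0,k0,k2],[k1,k1,k0,k0,k0,k1],[k0,k1,k1,k0,k0,k1],[k0,k1,k0,k2,k0,k0],[k0,k1,
    k0,k1,k1,k0],[k0,k1,k0,k1,k0,k1],[k0,k1,k0,k0,k1,k1],[k0,k0,k2,k0,k0,k1],[k0,k0,k1,k1,k1,k0],[k0,k0,k1,k1,k0,k1],
    [k0,k0,k1,k0,k1,k1],[k0,k0,k1,k0,k0,k2],[k0,k0,k0,k2,k1,k0],[k0,k0,k0,k2,k0,k1],[k0,k0,k0,k1,k2,k0],[k0,k0,k0,k1,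
    k1,k1],[k0,k0,k0,k1,k0,k2],[k0,k0,k0,k0,k1,k2],[k0,k0,k0,k0,k0,k3]]
    [.ref k25 k0 [(z1,[z1]),(z1,[y1,z1,z3]),(z2,[y1,z1,z0,z2]),(z1,[z2,y2,z0,z0,z3]),(z1,[y2,z1,y3,y1,y3,z3])],
    .ref k25 k0 [(z5,[z6,z1]),(z5,[y6,z4,z15]),(z5,[y3,z2,z0,z5]),(z5,[z12,y8,z0,z0,z15]),(z5,[y12,z3,y15,y5,y15,
    z15])],.ref k25 k0 [(z1,[z3,z0,z0,y1]),(z1,[y3,z1,z3,z1]),(z2,[y3,z1,z0,z3]),(z1,[z6,y2,z0,y2,z3]),(z1,[y6,z1,y3,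
    z1,y3,z3])],.ref k25 k0 [(z1,[y2,z1,y2,z0,y2,z2]),(z1,[z2,z0,z5,z0,z2,y2]),(z1,[z1,z0,z1,z1,z1,y1]),(z1,[y4,z0,y4,
    z0,y1,z4]),(z1,[z4,y1,z1,y1,z1,y1])],.ref k25 k0 [(z7,[z6,z5,z0,z0,y6]),(z7,[y6,z2,z21,z0,z6]),(z7,[y3,z1,z0,z7,
    z3]),(z7,[z12,y4,z0,z0,z9]),(z7,[y12,y3,y21,y7,y9,z21])],.ref k25 k0 [(z3,[y3,z2,y6,y2,y6,z6]),(z3,[z3,z1,z15,z2,
    z6,y6]),(z6,[z3,z1,z6,z8,z6,y6]),(z3,[y6,y2,y12,y4,y3,z12]),(z3,[z6,y1,z3,z1,z3,y3])],.ref k25 k0 [(z1,[y6,z1,y6,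
    y2,y6,z6]),(z1,[z6,z0,z9,z2,z6,y6]),(z1,[z3,z0,z3,z2,z3,y3]),(z1,[y12,z0,y12,y4,y9,z12]),(z1,[z12,y1,z9,z3,z9,
    y9])],.ref k25 k0 [(z2,[z3,z1]),(z2,[y3,z1,z6]),(z4,[y3,z1,z0,z4]),(z1,[z3,y1,z0,z0,z3]),(z1,[y3,z0,y3,y1,y3,
    z3])],.ref k25 k0 [(z1,[z6,y1,y6]),(z1,[y6,z2,z9]),(z1,[y3,z1,z3,z1]),(z1,[z12,y4,y12,z0,z3]),(z1,[y12,z3,z9,y1,
    y3,z3])],.ref k25 k0 [(z1,[y3,z1,z3,z1]),(z1,[z3,z0,z0,y1]),(z2,[z3,z0,y3,z1]),(z1,[y6,z0,z6,z2,z3]),(z1,[z6,y1,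
    y9,y3,y3,z3])],.ref k25 k0 [(z1,[z1,z1,y1,z0,y2]),(z1,[y1,z0,z4,z0,z2]),(z2,[y1,z0,z1,z2,z2]),(z1,[z2,z0,y2,z0,
    y1]),(z1,[y2,y1,y1,y1,z1,z3])],.ref k25 k0 [(z1,[y3,z0,z0,y1,z0,z3]),(z1,[z3,z1,z3,z1,z0,y3]),(z2,[z3,z1,z0,z3,z0,
    y3]),(z1,[y6,y2,z0,y2,z3,z6]),(z1,[z6,z1,y3,z1,y3,y3])],.ref k25 k0 [(z1,[z2,z1,y2,z0,y2]),(z1,[y2,z0,z5,z0,z2]),
    (z1,[y1,z0,z1,z1,z1]),(z1,[z4,z0,y4,z0,y1]),(z1,[y4,y1,z1,y1,z1,z3])],.ref k25 k0 [(z5,[y6,z3,z0,y2,y6,z6]),(z5,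
    [z6,z2,z15,z2,z6,y6]),(z5,[z3,z1,z0,z6,z3,y3]),(z5,[y12,y4,z0,y4,z3,z12]),(z5,[z12,y1,y15,y1,y3,z3])],
    .ref k25 k0 [(z1,[y6,z1,z0,z4]),(z1,[z6,z0,z3,y4]),(z1,[z3,z0,z0,y1]),(z1,[y12,z0,z0,z8,z3]),(z1,[z12,y1,y3,y9,y3,
    z3])],.ref k25 k0 [(z1,[y6,y1,y6,z0,z0,z6]),(z1,[z6,z2,z9,z0,z0,y6]),(z1,[z3,z1,z3,z1,z0,y3]),(z1,[y12,y4,y12,z0,
    z3,z12]),(z1,[z12,z3,z9,y1,y3,y9])],.ref k25 k0 [(z2,[z3,z2,z0,y1,y3]),(z2,[y3,z0,z6,z1,z3]),(z4,[y3,z0,z0,z5,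
    z3]),(z1,[z3,z0,z0,y1]),(z1,[y3,y1,y3,z0,z0,z3])],.ref k25 k0 [(z2,[y3,z1,y3,z0,y3,z3]),(z2,[z3,z1,z9,z0,z3,y3]),
    (z4,[z3,z1,z3,z4,z3,y3]),(z1,[y3,y1,y3,z0,z0,z3]),(z1,[z3,z0,z0,y1])],.ref k25 k0 [(z1,[z6,z1,z0,y2]),(z1,[y6,z0,
    z3,z2]),(z1,[y3,z0,z0,z2]),(z1,[z12,z0,z0,y4,z3]),(z1,[y12,y1,y3,z3,y3,z3])],.ref k25 k0 [(z2,[z3,z3,z3,z1,y3,
    y3]),(z2,[y3,y1,z3,y1,z3,z3]),(z4,[y3,y1,y3,z3,z3,z3]),(z1,[z3,z1,z3,z1,z0,y3]),(z1,[y3,y2,y6,y2,z0,z6])],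
    .ref k25 k0 [(z3,[z2,z3,z0,z0,y4]),(z3,[y2,z0,z9,z0,z4]),(z3,[y1,z0,z0,z3,z2]),(z3,[z4,z0,z0,z0,z1]),(z3,[y4,y3,
    y9,y3,y1,z9])],.ref k25 k0 [(z2,[y3,z0,y6,y2,y3,z6]),(z2,[z3,z2,z12,z2,z3,y6]),(z4,[z3,z2,z6,z6,z3,y6]),(z1,[y3,
    y2,y6,y2,z0,z6]),(z1,[z3,z1,z3,z1,z0,y3])],.ref k25 k0 [(z1,[z6,z3,z6,z2,z0,y6]),(z1,[y6,y2,y3,y2,z0,z6]),(z1,[y3,
    y1,y3,z0,z0,z3]),(z1,[z12,z4,z12,z4,z3,y12]),(z1,[y12,y5,y15,y5,y3,z15])],.ref k25 k0 [(z1,[z1,z1,z0,z0,y1]),(z1,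
    [y1,z0,z3,z0,z1]),(z2,[y1,z0,z0,z2,z1]),(z1,[z2,z0,z0,z0,z1]),(z1,[y2,y1,y3,y1,y1,z3])],.ref k25 k0 [(z1,[y3,z0,
    y3,y1,y3,z3]),(z1,[z3,z1,z6,z1,z3,y3]),(z2,[z3,z1,z3,z3,z3,y3]),(z1,[y6,y2,y6,y2,y3,z6]),(z1,[z6,z1,z3,z1,z3,
    y3])],.ref k25 k0 [(z1,[z2,z1]),(z1,[y2,z0,z3]),(z1,[y1,z0,z0,z1]),(z1,[z4,z0,z0,z0,z3]),(z1,[y4,y1,y3,y1,y3,
    z3])]],
    .base (.leafM k3 [k5,k0,k1,k2,k3,k4] [(z1,[z1,z0,z1,z1])] []),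
    .lp k0 [(nat_lit 470),(nat_lit 428),(nat_lit 506),(nat_lit 518),(nat_lit 506),(nat_lit 440)] [k24,k24,k45,k45,k6,
    k6,k0,k0,k6,k6,k39,k39] k0 [[k0,k0,k0,k0,k12,k12,k24,k0,k0,k0,k0,k12],[k6,k0,k0,k6,k0,k0,k0,k0,k18,k0,k0,k24],[k6,
    k0,k0,k6,k0,k0,k0,k0,k18,k0,k0,k24],[k0,k0,k0,k0,k12,k12,k24,k0,k0,k0,k0,k12],[k0,k12,k12,k0,k0,k0,k0,k0,k0,k42,
    k36,k0],[k0,k12,k12,k0,k0,k0,k0,k0,k0,k12,k0,k0],[k0,k0,k0,k0,k0,k0,k0,k0,k0,k0,k0,k0],[k0,k24,k24,k0,k0,k0,k0,k0,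
    k0,k0,k6,k12],[k0,k0,k0,k0,k12,k42,k0,k0,k0,k0,k6,k0],[k18,k0,k0,k18,k0,k0,k0,k0,k0,k0,k0,k0],[k24,k12,k12,k24,k0,
    k0,k12,k0,k0,k0,k0,k0],[k0,k0,k0,k0,k0,k36,k6,k0,k0,k6,k0,k0]] (nat_lit 1440) k5
    [[(k4,(nat_lit 452)),(k10,(nat_lit 455)),(k11,(nat_lit 455)),(k2,(nat_lit 461)),(k3,(nat_lit 461)),(k1,
    (nat_lit 470)),(k8,(nat_lit 482)),(k9,(nat_lit 482)),(k0,(nat_lit 494)),(k7,(nat_lit 494)),(k6,(nat_lit 506)),(k5,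
    (nat_lit 512))],[(k10,(nat_lit 443)),(k2,(nat_lit 449)),(k3,(nat_lit 449)),(k11,(nat_lit 455)),(k9,(nat_lit 464)),
    (k0,(nat_lit 476)),(k4,(nat_lit 476)),(k7,(nat_lit 482)),(k1,(nat_lit 494)),(k5,(nat_lit 494)),(k6,(nat_lit 494)),
    (k8,(nat_lit 506))],[(k10,(nat_lit 410)),(k11,(nat_lit 416)),(k2,(nat_lit 422)),(k3,(nat_lit 422)),(k0,
    (nat_lit 449)),(k1,(nat_lit 461)),(k5,(nat_lit 467)),(k8,(nat_lit 467)),(k9,(nat_lit 467)),(k4,(nat_lit 479)),(k7,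
    (nat_lit 485)),(k6,(nat_lit 497))],[(k10,(nat_lit 410)),(k11,(nat_lit 416)),(k2,(nat_lit 422)),(k3,(nat_lit 422)),
    (k0,(nat_lit 449)),(k1,(nat_lit 461)),(k5,(nat_lit 467)),(k8,(nat_lit 467)),(k9,(nat_lit 467)),(k4,(nat_lit 479)),
    (k7,(nat_lit 485)),(k6,(nat_lit 497))],[(k10,(nat_lit 461)),(k2,(nat_lit 467)),(k3,(nat_lit 467)),(k11,
    (nat_lit 473)),(k9,(nat_lit 482)),(k0,(nat_lit 494)),(k4,(nat_lit 494)),(k7,(nat_lit 500)),(k1,(nat_lit 512)),(k5,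
    (nat_lit 512)),(k6,(nat_lit 512)),(k8,(nat_lit 524))],[(k1,(nat_lit 452)),(k8,(nat_lit 464)),(k10,(nat_lit 473)),
    (k0,(nat_lit 476)),(k2,(nat_lit 479)),(k3,(nat_lit 479)),(k11,(nat_lit 485)),(k5,(nat_lit 494)),(k4,
    (nat_lit 506)),(k9,(nat_lit 506)),(k6,(nat_lit 512)),(k7,(nat_lit 512))],[(k0,(nat_lit 482)),(k2,(nat_lit 485)),
    (k3,(nat_lit 485)),(k1,(nat_lit 494)),(k5,(nat_lit 500)),(k8,(nat_lit 500)),(k4,(nat_lit 512)),(k9,(nat_lit 512)),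
    (k10,(nat_lit 515)),(k6,(nat_lit 518)),(k7,(nat_lit 518)),(k11,(nat_lit 521))],[(k11,(nat_lit 479)),(k10,
    (nat_lit 485)),(k0,(nat_lit 494)),(k2,(nat_lit 497)),(k3,(nat_lit 497)),(k1,(nat_lit 506)),(k4,(nat_lit 512)),(k5,
    (nat_lit 512)),(k8,(nat_lit 512)),(k9,(nat_lit 512)),(k6,(nat_lit 518)),(k7,(nat_lit 518))],[(k10,(nat_lit 461)),
    (k0,(nat_lit 464)),(k2,(nat_lit 467)),(k3,(nat_lit 467)),(k11,(nat_lit 473)),(k1,(nat_lit 482)),(k5,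
    (nat_lit 482)),(k4,(nat_lit 506)),(k8,(nat_lit 506)),(k9,(nat_lit 506)),(k6,(nat_lit 512)),(k7,(nat_lit 512))],
    [(k4,(nat_lit 464)),(k2,(nat_lit 467)),(k3,(nat_lit 467)),(k10,(nat_lit 473)),(k11,(nat_lit 473)),(k1,
    (nat_lit 482)),(k7,(nat_lit 500)),(k0,(nat_lit 506)),(k8,(nat_lit 506)),(k9,(nat_lit 506)),(k6,(nat_lit 512)),(k5,
    (nat_lit 524))],[(k2,(nat_lit 416)),(k3,(nat_lit 416)),(k11,(nat_lit 440)),(k10,(nat_lit 446)),(k0,(nat_lit 455)),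
    (k1,(nat_lit 455)),(k5,(nat_lit 473)),(k8,(nat_lit 473)),(k9,(nat_lit 473)),(k6,(nat_lit 479)),(k4,(nat_lit 485)),
    (k7,(nat_lit 521))],[(k2,(nat_lit 410)),(k3,(nat_lit 410)),(k10,(nat_lit 440)),(k0,(nat_lit 443)),(k11,
    (nat_lit 446)),(k1,(nat_lit 455)),(k5,(nat_lit 461)),(k9,(nat_lit 461)),(k4,(nat_lit 473)),(k8,(nat_lit 473)),(k6,
    (nat_lit 485)),(k7,(nat_lit 515))]]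
    [[k2,k1,k0,k0,k0,k0],[k2,k0,k0,k0,k0,k1],[k1,k2,k0,k0,k0,k0],[k1,k1,k1,k0,k0,k0],[k1,k1,k0,k0,k1,k0],[k1,k1,k0,k0,
    k0,k1],[k1,k0,k1,k0,k0,k1],[k1,k0,k0,k1,k0,k1],[k1,k0,k0,k0,k1,k1],[k1,k0,k0,k0,k0,k2],[k0,k3,k0,k0,k0,k0],[k0,k2,
    k1,k0,k0,k0],[k0,k2,k0,k1,k0,k0],[k0,k2,k0,k0,k1,k0],[k0,k2,k0,k0,k0,k1],[k0,k1,k1,k0,k1,k0],[k0,k1,k1,k0,k0,k1],
    [k0,k1,k0,k1,k0,k1],[k0,k1,k0,k0,k1,k1],[k0,k1,k0,k0,k0,k2],[k0,k0,k1,k0,k1,k1],[k0,k0,k1,k0,k0,k2],[k0,k0,k0,k0,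
    k1,k2],[k0,k0,k0,k0,k0,k3]]
    [.ref k25 k0 [(z4,[z3,z2,y3]),(z2,[z3,y2,z3]),(z2,[y3,z2,z3,z2]),(z4,[y3,z2,z3,z0,z12]),(z8,[y3,y6,y21,y8,y24,
    z24])],.ref k25 k0 [(z5,[z6,z1]),(z5,[z12,y8,z15]),(z5,[y12,z8,z0,z5]),(z5,[y6,z4,z0,z0,z15]),(z5,[y3,y3,y15,y5,
    y15,z15])],.ref k25 k0 [(z5,[z3,z4,y6]),(z5,[z6,y2,z3]),(z5,[y6,z2,z12,z5]),(z5,[y3,z1,z6,z0,z15]),(z10,[y3,y9,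
    y24,y10,y30,z30])],.ref k25 k0 [(z1,[z3,z0,y3,y1]),(z1,[z6,y2,y3,y2]),(z1,[y6,z2,z6,z3]),(z1,[y3,z1,z3,z1,z3]),
    (z2,[y3,y1,y3,y1,y6,z6])],.ref k25 k0 [(z5,[z6,z5,z0,z2,z6,y6]),(z5,[z12,z0,z15,z4,z12,y12]),(z5,[y12,z0,z0,z1,
    y12,z12]),(z5,[y6,z0,z0,y2,z9,z6]),(z5,[y3,y5,y15,y6,y18,z18])],.ref k25 k0 [(z7,[z6,z5,y6]),(z7,[z12,y4,z9]),(z7,
    [y12,z4,z12,z7]),(z7,[y6,z2,z6,z0,z21]),(z7,[y3,y6,y18,y7,y21,z21])],.ref k25 k0 [(z1,[y6,z3,z0,z2]),(z1,[y12,z4,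
    z3,z4]),(z1,[z12,y4,z0,y3]),(z1,[z6,y2,z0,y2,z3]),(z1,[z3,y2,y3,y2,y3,z3])],.ref k25 k0 [(z1,[z6,y1,z0,z0,y6]),
    (z1,[z12,y4,z3,z0,y12]),(z1,[y12,z4,z0,z1,z12]),(z1,[y6,z2,z0,z0,z9]),(z1,[y3,z0,y3,y1,z0,z3])],.ref k25 k0 [(z1,
    [z3,z1,z3,z1,z3,y3]),(z1,[z6,z0,z9,z2,z6,y6]),(z1,[y6,z0,y6,y1,y6,z6]),(z1,[y3,z0,y3,y1,z0,z3]),(z2,[y3,y2,y9,y3,
    y9,z9])],.ref k25 k0 [(z2,[z3,z1]),(z1,[z3,y1,z3]),(z1,[y3,z1,z0,z1]),(z2,[y3,z1,z0,z0,z6]),(z4,[y3,y3,y12,y4,y12,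
    z12])],.ref k25 k0 [(z2,[z1,z2,y3]),(z1,[z1]),(z1,[y1,z0,z3,z1]),(z2,[y1,z0,z3,z0,z6]),(z4,[y1,y4,y9,y4,y12,
    z12])],.ref k25 k0 [(z2,[z3,z2,y6,y1]),(z1,[z3,z0,y3,y1]),(z1,[y3,z0,z6,z2]),(z2,[y3,z0,z6,z1,z6]),(z4,[y3,y4,y6,
    y3,y12,z12])],.ref k25 k0 [(z1,[z1,z1,y2,z0,y1]),(z1,[z2,z0,y1,z0,y2]),(z1,[y2,z0,z4,z1,z2]),(z1,[y1,z0,z2,z0,
    z4]),(z2,[y1,y2,y4,y2,y5,z6])],.ref k25 k0 [(z7,[z6,z9,y6,z2,z6,y6]),(z7,[z12,z4,z9,z4,z12,y12]),(z7,[y12,y4,z12,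
    z3,y12,z12]),(z7,[y6,y2,z6,y2,z15,z6]),(z7,[y3,y8,y18,y8,y24,z24])],.ref k25 k0 [(z3,[z2,z3,y4]),(z3,[z4,z0,z1]),
    (z3,[y4,z0,z8,z3]),(z3,[y2,z0,z4,z0,z9]),(z3,[y1,y3,y7,y3,y9,z9])],.ref k25 k0 [(z1,[y6,y1,z0,z0,y6,z6]),(z1,[y12,
    y4,z3,z0,y12,z12]),(z1,[z12,z4,z0,z1,z12,y12]),(z1,[z6,z2,z0,z0,z9,y6]),(z1,[z3,z0,y3,y1])],.ref k25 k0 [(z1,[z6,
    z1,y6,y2]),(z1,[z12,z0,y9,y4]),(z1,[y12,z0,z12,z5]),(z1,[y6,z0,z6,z2,z3]),(z1,[y3,y1,z0,z0,y3,z3])],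
    .ref k25 k0 [(z1,[z2,z1,y2,z0,y2]),(z1,[z4,z0,y1,z0,y4]),(z1,[y4,z0,z4,z1,z4]),(z1,[y2,z0,z2,z0,z5]),(z1,[y1,y1,
    y2,y1,y2,z3])],.ref k25 k0 [(z2,[z3,z3,z0,z1,z3,y3]),(z1,[z3,z1,z3,z1,z3,y3]),(z1,[y3,y1,z0,z0,y3,z3]),(z2,[y3,y1,
    z0,y1,z3,z3]),(z4,[y3,y5,y12,y5,y15,z15])],.ref k25 k0 [(z1,[z1,z1,y1]),(z1,[z2,z0,z1]),(z1,[y2,z0,z2,z1]),(z1,
    [y1,z0,z1,z0,z3]),(z2,[y1,y2,y5,y2,y6,z6])],.ref k25 k0 [(z2,[y3,z1,y3,z0,y3,z3]),(z1,[y3,y1,z0,z0,y3,z3]),(z1,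
    [z3,z1,z3,z1,z3,y3]),(z2,[z3,z1,z3,z0,z9,y3]),(z4,[z3,y3,y9,y4,y9,z9])],.ref k25 k0 [(z1,[y3,z1,z0,z1]),(z1,[y6,
    z0,z3,z2]),(z1,[z6,z0,z0,y1]),(z1,[z3,z0,z0,y1,z3]),(z2,[z3,y2,y6,y3,y6,z6])],.ref k25 k0 [(z1,[z6,z3,z6,z2,z6,
    y6]),(z1,[z12,z4,z15,z4,z12,y12]),(z1,[y12,y4,y12,y3,y12,z12]),(z1,[y6,y2,y6,y2,y3,z6]),(z1,[y3,y2,y6,y2,y6,z6])],
    .ref k25 k0 [(z1,[z2,z1]),(z1,[z4,z0,z3]),(z1,[y4,z0,z0,z1]),(z1,[y2,z0,z0,z0,z3]),(z1,[y1,y1,y3,y1,y3,z3])]],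
    .lp k0 [(nat_lit 652),(nat_lit 654),(nat_lit 700),(nat_lit 592),(nat_lit 666),(nat_lit 572)] [k24,k24,k23,k23,k0,
    k0,k54,k54,k17,k17,k64,k64] k0 [[k0,k0,k14,k6,k0,k0,k0,k0,k0,k64,k64,k0],[k0,k0,k0,k0,k38,k22,k46,k14,k0,k0,k0,
    k0],[k0,k6,k0,k8,k24,k0,k20,k0,k0,k22,k0,k0],[k0,k14,k0,k0,k4,k0,k0,k0,k0,k58,k58,k14],[k22,k0,k0,k0,k0,k60,k84,
    k0,k0,k0,k0,k98],[k38,k0,k4,k24,k0,k0,k12,k0,k0,k38,k0,k0],[k14,k0,k0,k0,k0,k0,k0,k0,k102,k102,k0,k90],[k46,k0,k0,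
    k20,k12,k84,k0,k0,k0,k0,k0,k86],[k0,k64,k58,k22,k38,k0,k0,k102,k0,k0,k0,k0],[k0,k0,k0,k0,k0,k0,k0,k102,k0,k0,k16,
    k0],[k0,k0,k14,k0,k0,k98,k86,k90,k0,k0,k0,k0],[k0,k64,k58,k0,k0,k0,k0,k0,k16,k0,k0,k0]] (nat_lit 1920) k5
    [[(k0,(nat_lit 588)),(k11,(nat_lit 596)),(k10,(nat_lit 612)),(k5,(nat_lit 618)),(k1,(nat_lit 652)),(k3,
    (nat_lit 653)),(k8,(nat_lit 659)),(k2,(nat_lit 667)),(k4,(nat_lit 676)),(k6,(nat_lit 708)),(k7,(nat_lit 720)),(k9,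
    (nat_lit 749))],[(k1,(nat_lit 588)),(k8,(nat_lit 595)),(k10,(nat_lit 612)),(k11,(nat_lit 612)),(k7,(nat_lit 644)),
    (k2,(nat_lit 647)),(k0,(nat_lit 652)),(k3,(nat_lit 653)),(k5,(nat_lit 662)),(k6,(nat_lit 668)),(k9,(nat_lit 673)),
    (k4,(nat_lit 714))],[(k7,(nat_lit 585)),(k6,(nat_lit 609)),(k9,(nat_lit 614)),(k0,(nat_lit 653)),(k1,
    (nat_lit 653)),(k3,(nat_lit 654)),(k4,(nat_lit 655)),(k8,(nat_lit 660)),(k2,(nat_lit 668)),(k10,(nat_lit 677)),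
    (k11,(nat_lit 677)),(k5,(nat_lit 683))],[(k7,(nat_lit 599)),(k6,(nat_lit 623)),(k8,(nat_lit 638)),(k9,
    (nat_lit 640)),(k2,(nat_lit 646)),(k0,(nat_lit 647)),(k1,(nat_lit 667)),(k3,(nat_lit 668)),(k10,(nat_lit 671)),
    (k11,(nat_lit 671)),(k5,(nat_lit 677)),(k4,(nat_lit 681))],[(k1,(nat_lit 618)),(k10,(nat_lit 622)),(k8,
    (nat_lit 625)),(k7,(nat_lit 642)),(k11,(nat_lit 658)),(k0,(nat_lit 662)),(k6,(nat_lit 666)),(k2,(nat_lit 677)),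
    (k3,(nat_lit 683)),(k9,(nat_lit 683)),(k5,(nat_lit 708)),(k4,(nat_lit 724))],[(k10,(nat_lit 538)),(k9,
    (nat_lit 599)),(k4,(nat_lit 640)),(k7,(nat_lit 646)),(k3,(nat_lit 655)),(k6,(nat_lit 658)),(k11,(nat_lit 674)),
    (k1,(nat_lit 676)),(k2,(nat_lit 681)),(k8,(nat_lit 683)),(k0,(nat_lit 714)),(k5,(nat_lit 724))],[(k10,
    (nat_lit 582)),(k11,(nat_lit 582)),(k3,(nat_lit 585)),(k8,(nat_lit 591)),(k2,(nat_lit 599)),(k9,(nat_lit 617)),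
    (k5,(nat_lit 642)),(k0,(nat_lit 644)),(k4,(nat_lit 646)),(k7,(nat_lit 652)),(k6,(nat_lit 676)),(k1,
    (nat_lit 720))],[(k11,(nat_lit 480)),(k10,(nat_lit 492)),(k8,(nat_lit 527)),(k6,(nat_lit 592)),(k3,(nat_lit 609)),
    (k2,(nat_lit 623)),(k9,(nat_lit 629)),(k4,(nat_lit 658)),(k5,(nat_lit 666)),(k0,(nat_lit 668)),(k7,(nat_lit 676)),
    (k1,(nat_lit 708))],[(k10,(nat_lit 533)),(k4,(nat_lit 599)),(k3,(nat_lit 614)),(k7,(nat_lit 617)),(k6,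
    (nat_lit 629)),(k2,(nat_lit 640)),(k9,(nat_lit 666)),(k0,(nat_lit 673)),(k5,(nat_lit 683)),(k11,(nat_lit 721)),
    (k1,(nat_lit 749)),(k8,(nat_lit 768))],[(k6,(nat_lit 527)),(k7,(nat_lit 591)),(k0,(nat_lit 595)),(k11,
    (nat_lit 619)),(k5,(nat_lit 625)),(k10,(nat_lit 635)),(k2,(nat_lit 638)),(k1,(nat_lit 659)),(k3,(nat_lit 660)),
    (k8,(nat_lit 666)),(k4,(nat_lit 683)),(k9,(nat_lit 768))],[(k6,(nat_lit 480)),(k10,(nat_lit 572)),(k11,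
    (nat_lit 572)),(k7,(nat_lit 582)),(k1,(nat_lit 596)),(k0,(nat_lit 612)),(k8,(nat_lit 619)),(k5,(nat_lit 658)),(k2,
    (nat_lit 671)),(k4,(nat_lit 674)),(k3,(nat_lit 677)),(k9,(nat_lit 721))],[(k6,(nat_lit 492)),(k9,(nat_lit 533)),
    (k4,(nat_lit 538)),(k10,(nat_lit 572)),(k11,(nat_lit 572)),(k7,(nat_lit 582)),(k0,(nat_lit 612)),(k1,
    (nat_lit 612)),(k5,(nat_lit 622)),(k8,(nat_lit 635)),(k2,(nat_lit 671)),(k3,(nat_lit 677))]]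
    [[k3,k0,k0,k0,k0,k0],[k2,k1,k0,k0,k0,k0],[k2,k0,k0,k0,k0,k1],[k1,k1,k0,k0,k1,k0],[k1,k0,k1,k0,k0,k1],[k1,k0,k1,k0,
    k1,k0],[k1,k0,k0,k1,k0,k1],[k1,k0,k0,k0,k1,k1],[k1,k0,k0,k0,k0,k2],[k0,k2,k0,k1,k0,k0],[k0,k1,k1,k0,k0,k1],[k0,k1,
    k0,k2,k0,k0],[k0,k1,k0,k1,k1,k0],[k0,k1,k0,k1,k0,k1],[k0,k1,k0,k0,k1,k1],[k0,k0,k1,k1,k1,k0],[k0,k0,k1,k1,k0,k1],
    [k0,k0,k1,k2,k0,k0],[k0,k0,k1,k0,k1,k1],[k0,k0,k1,k0,k0,k2],[k0,k0,k0,k2,k1,k0],[k0,k0,k0,k2,k0,k1],[k0,k0,k0,k1,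
    k2,k0],[k0,k0,k0,k1,k1,k1],[k0,k0,k0,k1,k0,k2],[k0,k0,k0,k0,k1,k2],[k0,k0,k0,k0,k0,k3]]
    [.ref k25 k0 [(z1,[z1]),(z2,[y1,z3,z6]),(z1,[z4,y12,z0,z3]),(z4,[y11,z33,z0,z0,z12]),(z1,[y2,z3,y3,y3,y3,z3])],
    .ref k25 k0 [(z1,[z2,y1,y2]),(z1,[y1,z2,z4]),(z1,[z8,y16,y8,z3]),(z2,[y11,z22,z11,z0,z6]),(z1,[y4,z5,z1,y3,y3,
    z3])],.ref k25 k0 [(z3,[z4,z1]),(z3,[y2,z4,z9]),(z3,[z16,y32,z0,z9]),(z3,[y11,z22,z0,z0,z9]),(z3,[y8,z7,y9,y9,y9,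
    z9])],.ref k25 k0 [(z1,[y2,z3,z0,y2,y2,z2]),(z1,[z1,z0,z3,z1,z1,y1]),(z1,[y8,z0,z0,y5,y8,z8]),(z2,[z11,z0,z0,z11,
    z17,y11]),(z1,[z4,y3,y3,z1,z1,y1])],.ref k25 k0 [(z7,[z4,z17,z0,y4]),(z7,[y2,z2,z21,z2]),(z7,[z16,y16,z0,z5]),(z7,
    [y11,z11,z0,z11,z21]),(z7,[y8,y13,y21,y13,y21,z21])],.ref k25 k0 [(z1,[z1,z3,z1,z0,z1,y1]),(z2,[y1,z0,z5,z0,y1,
    z1]),(z1,[z4,z0,z4,z3,z4,y4]),(z4,[y11,z0,y11,z0,z1,z11]),(z1,[y2,y3,y5,y3,y5,z5])],.ref k25 k0 [(z1,[y2,z5,z0,z0,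
    z2]),(z1,[z1,y1,z3,z0,y1]),(z1,[y8,z8,z0,z3,z8]),(z2,[z11,y11,z0,z0,y5]),(z1,[z4,y7,y3,y3,y7,z3])],
    .ref k25 k0 [(z1,[y4,z3,y4,y4,y4,z4]),(z1,[z2,z0,z5,z2,z2,y2]),(z1,[y16,z0,y16,y13,y16,z16]),(z1,[z11,z0,z11,z11,
    z14,y11]),(z1,[z8,y3,z5,z5,z5,y5])],.ref k25 k0 [(z1,[z2,z1]),(z1,[y1,z1,z3]),(z1,[z8,y8,z0,z3]),(z2,[y11,z11,z0,
    z0,z6]),(z1,[y4,z1,y3,y3,y3,z3])],.ref k25 k0 [(z5,[y4,z15,z8,z0,z4]),(z5,[z2,z0,z11,z0,y2]),(z5,[y16,z0,z32,z15,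
    z16]),(z5,[z11,z0,y22,z0,z4]),(z5,[z8,y15,y31,y15,y23,z15])],.ref k25 k0 [(z5,[z4,z15,y4,y4]),(z5,[y2,z0,z17,z2]),
    (z5,[z16,z0,y16,y1]),(z5,[y11,z0,z11,z11,z15]),(z5,[y8,y15,y7,y7,y15,z15])],.ref k25 k0 [(z2,[y1,z6,z1,z0,z2]),
    (z4,[z1,z0,z11,z0,y2]),(z1,[y2,z0,z2,z3,z4]),(z8,[z11,z0,y11,z0,z2]),(z1,[z1,y3,y4,y3,y5,z3])],.ref k25 k0 [(z7,
    [y4,z17,z0,y4,z0,z4]),(z7,[z2,z2,z21,z2,z0,y2]),(z7,[y16,y16,z0,z5,z0,z16]),(z7,[z11,z11,z0,z11,z21,y11]),(z7,[z8,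
    y13,y21,y13,y21,z13])],.ref k25 k0 [(z1,[y1,z3,z1,z0,z1]),(z2,[z1,z0,z5,z0,y1]),(z1,[y4,z0,z4,z3,z4]),(z4,[z11,z0,
    y11,z0,z1]),(z1,[z2,y3,y5,y3,y5,z3])],.ref k25 k0 [(z3,[y4,z5,z0,y4,y4,z4]),(z3,[z2,z2,z9,z2,z2,y2]),(z3,[y16,y16,
    z0,y7,y16,z16]),(z3,[z11,z11,z0,z11,z20,y11]),(z3,[z8,y1,y9,y1,y1,z1])],.ref k25 k0 [(z1,[y4,y1,y4,z0,z0,z4]),(z1,
    [z2,z2,z5,z0,z0,y2]),(z1,[y16,y16,y16,z3,z0,z16]),(z1,[z11,z11,z11,z0,z3,y11]),(z1,[z8,z5,z5,y3,y3,y5])],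
    .ref k25 k0 [(z1,[z2,z3,z0,y2,y2]),(z1,[y1,z0,z3,z1,z1]),(z1,[z8,z0,z0,y5,y8]),(z2,[y11,z0,z0,z11,z17]),(z1,[y4,
    y3,y3,z1,z1,z3])],.ref k25 k0 [(z1,[y2,z3,z0,z2,z4]),(z1,[z1,z0,z3,y1,y2]),(z1,[y8,z0,z0,z11,z16]),(z2,[z11,z0,z0,
    y11,y16]),(z1,[z4,y3,y3,y7,y11,z3])],.ref k25 k0 [(z3,[z4,z13,z4,z0,z4,y4]),(z3,[y2,y2,z7,z0,y2,z2]),(z3,[z16,z16,
    z16,z9,z16,y16]),(z3,[y11,y11,y11,z0,y2,z11]),(z3,[y8,y17,y17,y9,y17,z17])],.ref k25 k0 [(z3,[z2,z9,z0,y2]),(z3,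
    [y1,z0,z9,z1]),(z3,[z8,z0,z0,z1]),(z6,[y11,z0,z0,z11,z18]),(z3,[y4,y9,y9,y5,y9,z9])],.ref k25 k0 [(z5,[y2,z13,y2,
    y2,z2,z2]),(z5,[z1,z1,z16,z1,y1,y1]),(z5,[y8,y8,y8,z7,z8,z8]),(z10,[z11,z11,z11,z11,z19,y11]),(z5,[z4,y11,y11,y11,
    y19,z11])],.ref k25 k0 [(z7,[y4,z21,z0,z0,z8]),(z7,[z2,z0,z21,z0,y4]),(z7,[y16,z0,z0,z21,z32]),(z7,[z11,z0,z0,z0,
    y1]),(z7,[z8,y21,y21,y21,y37,z21])],.ref k25 k0 [(z9,[y4,z19,y8,y8,y4,z8]),(z9,[z2,z4,z31,z4,z2,y4]),(z9,[y16,y32,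
    y32,y5,y16,z32]),(z9,[z11,z22,z22,z22,z38,y22]),(z9,[z8,y11,y11,y11,y19,z11])],.ref k25 k0 [(z3,[y2,z7,y2,y2,z0,
    z2]),(z3,[z1,z1,z10,z1,z0,y1]),(z3,[y8,y8,y8,z1,z0,z8]),(z6,[z11,z11,z11,z11,z18,y11]),(z3,[z4,y5,y5,y5,y9,z5])],
    .ref k25 k0 [(z3,[y4,z9,z0,z0,z4]),(z3,[z2,z0,z9,z0,y2]),(z3,[y16,z0,z0,z9,z16]),(z3,[z11,z0,z0,z0,y2]),(z3,[z8,
    y9,y9,y9,y17,z9])],.ref k25 k0 [(z1,[y2,z1,y2,y2,y2,z2]),(z1,[z1,z1,z4,z1,z1,y1]),(z1,[y8,y8,y8,y5,y8,z8]),(z2,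
    [z11,z11,z11,z11,z17,y11]),(z1,[z4,z1,z1,z1,z1,y1])],.ref k25 k0 [(z1,[z4,z3]),(z1,[y2,z0,z3]),(z1,[z16,z0,z0,
    z3]),(z1,[y11,z0,z0,z0,z3]),(z1,[y8,y3,y3,y3,y3,z3])]],
    .lp k0 [k158,k150,k168,k168,k168,k144] [k5,k5,k9,k9,k0,k0,k0,k0,k0,k0,k12,k12] k0 [[k0,k0,k0,k0,k2,k8,k10,k0,k0,
    k0,k0,k0],[k20,k0,k0,k0,k0,k0,k0,k0,k0,k0,k0,k20],[k0,k0,k0,k0,k0,k0,k0,k0,k0,k2,k4,k0],[k0,k0,k0,k0,k0,k4,k6,k0,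
    k0,k0,k0,k0],[k0,k8,k4,k0,k0,k0,k0,k0,k0,k0,k0,k0],[k0,k2,k0,k0,k0,k0,k0,k0,k0,k0,k2,k0],[k0,k0,k0,k0,k0,k0,k0,k0,
    k0,k0,k0,k0],[k0,k10,k6,k0,k0,k0,k0,k0,k0,k0,k0,k0],[k0,k0,k0,k2,k0,k0,k0,k0,k0,k0,k0,k0],[k0,k0,k0,k0,k0,k0,k0,
    k0,k0,k0,k0,k0],[k20,k0,k0,k0,k0,k0,k0,k0,k0,k0,k0,k20],[k0,k0,k0,k4,k2,k0,k0,k0,k0,k0,k0,k0]] (nat_lit 480) k5
    [[(k2,k150),(k10,k151),(k11,k151),(k3,k154),(k7,k161),(k4,k163),(k5,k163),(k6,k163),(k8,k163),(k9,k163),(k0,k178),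
    (k1,k178)],[(k10,k151),(k11,k151),(k9,k153),(k2,k154),(k3,k154),(k4,k155),(k7,k161),(k5,k163),(k6,k163),(k8,k163),
    (k0,k178),(k1,k178)],[(k10,k127),(k3,k130),(k11,k147),(k2,k150),(k0,k154),(k1,k154),(k5,k159),(k8,k159),(k9,k159),
    (k4,k161),(k7,k167),(k6,k169)],[(k10,k147),(k11,k147),(k1,k150),(k2,k150),(k3,k150),(k0,k154),(k8,k157),(k4,k159),
    (k5,k159),(k9,k159),(k7,k163),(k6,k165)],[(k11,k158),(k2,k159),(k3,k159),(k10,k160),(k9,k162),(k0,k163),(k1,k163),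
    (k4,k164),(k5,k168),(k6,k168),(k7,k168),(k8,k168)],[(k0,k155),(k11,k156),(k10,k158),(k2,k159),(k3,k161),(k1,k163),
    (k5,k164),(k4,k168),(k6,k168),(k7,k168),(k8,k168),(k9,k168)],[(k10,k156),(k11,k156),(k0,k161),(k1,k161),(k2,k163),
    (k3,k167),(k4,k168),(k5,k168),(k6,k168),(k7,k168),(k8,k168),(k9,k168)],[(k10,k156),(k11,k156),(k0,k163),(k1,k163),
    (k2,k165),(k4,k168),(k5,k168),(k6,k168),(k7,k168),(k8,k168),(k9,k168),(k3,k169)],[(k0,k153),(k10,k156),(k11,k156),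
    (k2,k159),(k3,k159),(k5,k162),(k1,k163),(k4,k168),(k6,k168),(k7,k168),(k8,k168),(k9,k168)],[(k10,k156),(k11,k156),
    (k2,k157),(k3,k159),(k0,k163),(k1,k163),(k4,k168),(k5,k168),(k6,k168),(k7,k168),(k8,k168),(k9,k168)],[(k10,k144),
    (k11,k144),(k2,k147),(k3,k147),(k0,k151),(k1,k151),(k4,k156),(k6,k156),(k7,k156),(k8,k156),(k9,k156),(k5,k158)],
    [(k10,k124),(k3,k127),(k11,k144),(k2,k147),(k0,k151),(k1,k151),(k6,k156),(k7,k156),(k8,k156),(k9,k156),(k4,k158),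
    (k5,k160)]]
    [[k1,k2,k0,k0,k0,k0],[k1,k1,k1,k0,k0,k0],[k1,k1,k0,k0,k1,k0],[k1,k1,k0,k0,k0,k1],[k1,k0,k1,k0,k0,k1],[k1,k0,k0,k1,
    k0,k1],[k1,k0,k0,k0,k1,k1],[k1,k0,k0,k0,k0,k2],[k0,k3,k0,k0,k0,k0],[k0,k2,k1,k0,k0,k0],[k0,k2,k0,k0,k1,k0],[k0,k2,
    k0,k0,k0,k1],[k0,k2,k0,k1,k0,k0],[k0,k1,k1,k0,k0,k1],[k0,k1,k0,k1,k0,k1],[k0,k1,k0,k0,k1,k1],[k0,k1,k0,k0,k0,k2],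
    [k0,k0,k1,k0,k1,k1],[k0,k0,k1,k0,k0,k2],[k0,k0,k0,k1,k0,k2],[k0,k0,k0,k0,k1,k2],[k0,k0,k0,k0,k0,k3]]
    [.ref k19 k8 [(z2,[y1,z1,z0,z2]),(z2,[z3,y7,y4,y4,z4]),(z2,[z1,y1]),(z2,[y3,z3,z2])],.ref k19 k8 [(z1,[y1,z1,z0,
    z2]),(z1,[z3,y5,y2,y5,z2]),(z1,[z1,y1,z0,y1]),(z1,[y3,z3,z1,z3])],.ref (nat_lit 408) k6 [(z1,[y2,z2,z1]),(z1,[z0,
    z1]),(z1,[z1,y1]),(z1,[z0,z0,z0,z1])],.ref k19 k8 [(z1,[z1,y1,y1,z1]),(z1,[y3,z1,z1,y2,z2]),(z1,[y1,z1,z1]),(z1,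
    [z3,y3,y2])],.ref k19 k8 [(z2,[z1,y1,y1,z1]),(z2,[y3,y1,y1,y1,z4]),(z2,[y1,z1,z1,z1]),(z2,[z3,y3,y1,y3])],
    .ref k56 k2 [(z1,[y1,y1,y1,y2,z2]),(z1,[z0,z0,z0,z1]),(z1,[y1,z0,z0,y1,z1]),(z1,[z0,z1])],
    .ref (nat_lit 409) k8 [(z1,[z2,y2,y2,z1]),(z1,[y3,z2,z2,y1,z1]),(z1,[y1,z1,z1]),(z1,[z6,y6,y5])],.ref k19 k8 [(z4,
    [z1,y1,y2,z4]),(z4,[y3,y5,y2,y8,z8]),(z4,[y1,z1,z2]),(z4,[z3,y3,y2])],.ref (nat_lit 410) k2 [(z1,[z1,y3,y3,y3,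
    z3]),(z1,[z0,z0,z0,z1]),(z1,[z1]),(z1,[z0,z1])],.ref k56 k2 [(z2,[z1,y2,y2,y3,z2]),(z1,[z0,z0,z0,z1]),(z2,[z1,z0,
    z0,y1]),(z1,[z0,z1])],.ref (nat_lit 409) k8 [(z1,[y2,z0,z0,z1]),(z1,[z3,y1,y1,y1,z1]),(z1,[z1]),(z1,[y6,z0,z1])],
    .ref (nat_lit 396) k3 [(z2,[y1,y2,y1,y2,z2]),(z2,[y1,z0,z1]),(z1,[z1]),(z1,[y2,z3,z2])],
    .ref (nat_lit 411) k8 [(z1,[y2,y2,y2,z1,z2]),(z1,[z1]),(z1,[z1,z1,z1,z1,y1]),(z1,[y2,y2,y1,y2,z2])],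
    .ref (nat_lit 412) k6 [(z1,[z2,z0,y1,y2]),(z1,[z0,z1]),(z1,[y1,z0,z1,z1]),(z1,[z0,z0,z0,z1])],
    .ref (nat_lit 396) k3 [(z1,[y1,y2,y1,y2,z2]),(z1,[y1,y1,z0,y1,z1]),(z1,[z2,z2,z1,z2,y2]),(z1,[y4,y1,z0,y4,z4])],
    .ref (nat_lit 408) k6 [(z1,[z2,z0,y1]),(z1,[z0,z1]),(z1,[y1,z0,z1]),(z1,[z0,z0,z0,z1])],
    .ref (nat_lit 413) k6 [(z1,[z2,z0,y1]),(z1,[z0,z1]),(z1,[y1,z0,z2]),(z1,[z0,z0,z0,z1])],.ref k126 k1 [(z1,[z2,z4,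
    z2,z3,y4]),(z1,[z3,z7,z4,z4,y7]),(z1,[y4,y7,y4,y4,z8]),(z1,[z0,y2,y1,y2,z2])],.ref k126 k1 [(z1,[z1,z4,z2,z4,y4]),
    (z2,[z3,z14,z8,z11,y14]),(z1,[y2,y7,y4,y6,z8]),(z1,[z0,y2,y1,y2,z2])],.ref (nat_lit 254) k0 [(z1,[z0,z1]),(z1,[y1,
    y1,z1,y1,z1]),(z1,[z0,z0,z0,z1]),(z1,[y1,y4,y2,y4,z4])],.ref (nat_lit 414) k5 [(z1,[z1,z4,z2,z4,y4]),(z1,[z0,y2,
    y1,y2,z2]),(z1,[z4,z17,z8,z16,y16]),(z1,[y3,y11,y5,y11,z11])],.ref (nat_lit 254) k0 [(z1,[z0,z1]),(z2,[y1,z0,z3]),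
    (z1,[z0,z0,z0,z1]),(z2,[y1,y6,y3,y6,z6])]],
    .base (.leafM k0 [k0,k1,k2,k3,k4,k5] [(z6,[z0,z3,z1,z2])] []),
    .lp k0 [(nat_lit 988),(nat_lit 868),(nat_lit 1000),(nat_lit 994),(nat_lit 1006),(nat_lit 892)] [k9,k9,k69,k69,k3,
    k3,k6,k6,k0,k0,k57,k57] k0 [[k0,k0,k0,k36,k24,k36,k66,k0,k0,k0,k0,k24],[k132,k0,k0,k0,k0,k0,k6,k0,k0,k0,k0,k156],
    [k0,k36,k0,k0,k0,k0,k0,k0,k0,k0,k12,k0],[k0,k0,k0,k0,k36,k0,k30,k6,k12,k0,k0,k0],[k0,k36,k0,k0,k0,k12,k0,k18,k0,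
    k0,k72,k0],[k0,k24,k36,k0,k0,k0,k0,k6,k12,k0,k0,k0],[k0,k0,k6,k0,k6,k18,k0,k0,k66,k126,k0,k0],[k6,k66,k30,k0,k0,
    k0,k0,k0,k0,k0,k54,k30],[k0,k0,k0,k0,k0,k0,k0,k126,k0,k0,k120,k0],[k0,k0,k12,k0,k12,k0,k0,k66,k0,k0,k120,k0],
    [k156,k24,k0,k0,k0,k0,k30,k0,k0,k0,k0,k36],[k0,k0,k0,k12,k0,k72,k54,k0,k120,k120,k0,k0]] (nat_lit 2880) k5
    [[(k11,(nat_lit 820)),(k8,(nat_lit 877)),(k2,(nat_lit 916)),(k4,(nat_lit 922)),(k10,(nat_lit 940)),(k9,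
    (nat_lit 943)),(k3,(nat_lit 952)),(k7,(nat_lit 991)),(k5,(nat_lit 994)),(k6,(nat_lit 1021)),(k1,(nat_lit 1024)),
    (k0,(nat_lit 1144))],[(k2,(nat_lit 892)),(k10,(nat_lit 916)),(k3,(nat_lit 928)),(k9,(nat_lit 931)),(k11,
    (nat_lit 940)),(k4,(nat_lit 958)),(k7,(nat_lit 967)),(k5,(nat_lit 994)),(k6,(nat_lit 997)),(k8,(nat_lit 997)),(k0,
    (nat_lit 1120)),(k1,(nat_lit 1144))],[(k10,(nat_lit 724)),(k3,(nat_lit 736)),(k2,(nat_lit 868)),(k11,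
    (nat_lit 880)),(k0,(nat_lit 928)),(k9,(nat_lit 931)),(k8,(nat_lit 937)),(k1,(nat_lit 952)),(k4,(nat_lit 958)),(k7,
    (nat_lit 967)),(k5,(nat_lit 970)),(k6,(nat_lit 997))],[(k2,(nat_lit 868)),(k3,(nat_lit 868)),(k10,(nat_lit 880)),
    (k11,(nat_lit 880)),(k0,(nat_lit 892)),(k1,(nat_lit 916)),(k7,(nat_lit 931)),(k5,(nat_lit 934)),(k9,
    (nat_lit 943)),(k8,(nat_lit 949)),(k6,(nat_lit 961)),(k4,(nat_lit 970))],[(k2,(nat_lit 934)),(k11,(nat_lit 934)),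
    (k10,(nat_lit 958)),(k7,(nat_lit 961)),(k3,(nat_lit 970)),(k9,(nat_lit 973)),(k6,(nat_lit 991)),(k0,
    (nat_lit 994)),(k1,(nat_lit 994)),(k4,(nat_lit 1000)),(k5,(nat_lit 1000)),(k8,(nat_lit 1003))],[(k1,
    (nat_lit 922)),(k10,(nat_lit 946)),(k11,(nat_lit 946)),(k0,(nat_lit 958)),(k3,(nat_lit 958)),(k2,(nat_lit 970)),
    (k6,(nat_lit 979)),(k4,(nat_lit 988)),(k7,(nat_lit 997)),(k5,(nat_lit 1000)),(k9,(nat_lit 1009)),(k8,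
    (nat_lit 1015))],[(k2,(nat_lit 931)),(k11,(nat_lit 931)),(k5,(nat_lit 961)),(k0,(nat_lit 967)),(k3,(nat_lit 967)),
    (k6,(nat_lit 988)),(k1,(nat_lit 991)),(k4,(nat_lit 997)),(k8,(nat_lit 1000)),(k7,(nat_lit 1006)),(k10,
    (nat_lit 1015)),(k9,(nat_lit 1018))],[(k8,(nat_lit 874)),(k11,(nat_lit 877)),(k2,(nat_lit 961)),(k4,
    (nat_lit 979)),(k7,(nat_lit 988)),(k5,(nat_lit 991)),(k6,(nat_lit 994)),(k0,(nat_lit 997)),(k3,(nat_lit 997)),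
    (k10,(nat_lit 997)),(k9,(nat_lit 1000)),(k1,(nat_lit 1021))],[(k10,(nat_lit 919)),(k0,(nat_lit 931)),(k3,
    (nat_lit 931)),(k1,(nat_lit 943)),(k2,(nat_lit 943)),(k5,(nat_lit 973)),(k6,(nat_lit 1000)),(k9,(nat_lit 1006)),
    (k4,(nat_lit 1009)),(k7,(nat_lit 1018)),(k8,(nat_lit 1072)),(k11,(nat_lit 1075))],[(k6,(nat_lit 874)),(k1,
    (nat_lit 877)),(k3,(nat_lit 937)),(k2,(nat_lit 949)),(k11,(nat_lit 949)),(k0,(nat_lit 997)),(k7,(nat_lit 1000)),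
    (k5,(nat_lit 1003)),(k8,(nat_lit 1006)),(k4,(nat_lit 1015)),(k10,(nat_lit 1069)),(k9,(nat_lit 1072))],[(k1,
    (nat_lit 820)),(k6,(nat_lit 877)),(k2,(nat_lit 880)),(k3,(nat_lit 880)),(k11,(nat_lit 892)),(k7,(nat_lit 931)),
    (k5,(nat_lit 934)),(k0,(nat_lit 940)),(k4,(nat_lit 946)),(k8,(nat_lit 949)),(k10,(nat_lit 1012)),(k9,
    (nat_lit 1075))],[(k3,(nat_lit 724)),(k10,(nat_lit 856)),(k2,(nat_lit 880)),(k0,(nat_lit 916)),(k9,(nat_lit 919)),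
    (k1,(nat_lit 940)),(k4,(nat_lit 946)),(k5,(nat_lit 958)),(k6,(nat_lit 997)),(k11,(nat_lit 1012)),(k7,
    (nat_lit 1015)),(k8,(nat_lit 1069))]]
    [[k2,k1,k0,k0,k0,k0],[k1,k2,k0,k0,k0,k0],[k1,k1,k1,k0,k0,k0],[k1,k1,k0,k0,k1,k0],[k1,k1,k0,k0,k0,k1],[k1,k0,k1,k0,
    k1,k0],[k1,k0,k1,k0,k0,k1],[k1,k0,k0,k1,k0,k1],[k1,k0,k0,k1,k1,k0],[k1,k0,k0,k0,k1,k1],[k1,k0,k0,k0,k0,k2],[k0,k3,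
    k0,k0,k0,k0],[k0,k2,k1,k0,k0,k0],[k0,k2,k0,k1,k0,k0],[k0,k2,k0,k0,k1,k0],[k0,k2,k0,k0,k0,k1],[k0,k1,k1,k0,k0,k1],
    [k0,k1,k0,k1,k0,k1],[k0,k1,k0,k1,k1,k0],[k0,k1,k0,k0,k1,k1],[k0,k1,k0,k0,k0,k2],[k0,k0,k1,k1,k0,k1],[k0,k0,k1,k1,
    k1,k0],[k0,k0,k1,k0,k1,k1],[k0,k0,k1,k0,k0,k2],[k0,k0,k0,k1,k1,k1],[k0,k0,k0,k1,k0,k2],[k0,k0,k0,k0,k0,k3]]
    [.ref k25 k0 [(z1,[z6,y9,y2]),(z1,[y9,z18,z4]),(z1,[z0,z0,z0,z1]),(z2,[z9,y18,y3,z0,z2]),(z1,[y3,z3,z0,y1,y1,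
    z3])],.ref k25 k0 [(z2,[y3,z9,z2]),(z4,[z9,y9,y2]),(z1,[z0,z0,z0,z1]),(z8,[y9,z9,z6,z0,z8]),(z4,[z3,y15,y6,y4,y4,
    z12])],.ref k25 k0 [(z1,[y6,z9,z2,z2]),(z1,[z9,y9,y2,y3]),(z1,[z0,z0,z0,z1]),(z2,[y9,z9,z3,z3,z2]),(z1,[z3,y6,y2,
    y2,y1,z3])],.ref k25 k0 [(z1,[y3,z3,z0,y1,y1,z3]),(z2,[z9,z0,z2,z3,z3,y9]),(z1,[z0,z0,z0,z1]),(z4,[y9,z0,z0,y3,z1,
    z9]),(z2,[z3,y6,y2,y1,y1,z3])],.ref k25 k0 [(z1,[y12,z15,z4]),(z1,[z18,y18,y5]),(z1,[z0,z0,z0,z1]),(z1,[y9,z9,z3,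
    z0,z1]),(z1,[z6,y9,y3,y1,y1,z3])],.ref k25 k0 [(z1,[z6,z3,z2,z0,z2,y6]),(z1,[y9,z0,y2,z0,y3,z9]),(z1,[z0,z0,z0,
    z1]),(z2,[z9,z0,z3,z0,z5,y9]),(z1,[y3,y3,y2,y1,y2,z6])],.ref k25 k0 [(z5,[z12,z3,z0,y4]),(z5,[y18,z18,z5,z6]),(z1,
    [z0,z0,z0,z1]),(z5,[z9,y9,z0,y3,z5]),(z5,[y6,y9,y5,y3,y5,z15])],.ref k25 k0 [(z2,[z3,z3,z0,z0,y1]),(z4,[y9,z9,z4,
    z0,z3]),(z1,[z0,z0,z0,z1]),(z8,[z9,y9,z0,z0,z5]),(z4,[y3,y9,y4,y4,y3,z12])],.ref k25 k0 [(z5,[z12,z15,z4,z4,z0,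
    y12]),(z5,[y18,z0,y1,y6,z0,z18]),(z1,[z0,z0,z0,z1]),(z5,[z9,z0,z3,z3,z5,y9]),(z5,[y6,y15,y7,y7,y5,z21])],
    .ref k25 k0 [(z3,[z12,z9,z4,z4,z4,y12]),(z1,[y6,z0,y1,y2,y2,z6]),(z1,[z0,z0,z0,z1]),(z1,[z3,z0,z1,z1,z2,y3]),(z3,
    [y6,y9,y5,y5,y5,z15])],.ref k25 k0 [(z1,[z2,z1]),(z1,[y3,z3,z1]),(z1,[z0,z0,z0,z1]),(z2,[z3,y3,z0,z0,z2]),(z1,[y1,
    y2,y1,y1,y1,z3])],.ref k25 k0 [(z3,[y2,z9,z2]),(z1,[z1]),(z1,[z0,z0,z0,z1]),(z2,[y1,z0,z1,z0,z2]),(z3,[z1,y9,y4,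
    y3,y3,z9])],.ref k25 k0 [(z3,[y3,z9,z2,z1]),(z2,[z3,z0,z0,y1]),(z1,[z0,z0,z0,z1]),(z4,[y3,z0,z2,z1,z4]),(z6,[z3,
    y18,y8,y7,y6,z18])],.ref k25 k0 [(z9,[y12,z27,z8,z0,z4]),(z3,[z6,z0,y1,z0,y2]),(z1,[z0,z0,z0,z1]),(z3,[y3,z0,z2,
    z0,z4]),(z9,[z6,y27,y13,y9,y11,z27])],.ref k25 k0 [(z7,[y6,z15,z2,y2,y2,z6]),(z7,[z9,z9,z4,z3,z3,y9]),(z1,[z0,z0,
    z0,z1]),(z14,[y9,y9,z3,y3,z11,z9]),(z7,[z3,y18,y8,y6,y6,z18])],.ref k25 k0 [(z11,[y12,z33,z8]),(z11,[z18,z0,y1]),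
    (z1,[z0,z0,z0,z1]),(z11,[y9,z0,z6,z0,z11]),(z11,[z6,y33,y15,y11,y11,z33])],.ref k25 k0 [(z5,[y12,z15,z4,z4]),(z5,
    [z18,z0,y1,y6]),(z1,[z0,z0,z0,z1]),(z5,[y9,z0,z3,z3,z5]),(z5,[z6,y15,y7,y7,y5,z15])],.ref k25 k0 [(z1,[y6,z3,z2,
    z0,z2]),(z1,[z9,z0,y2,z0,y3]),(z1,[z0,z0,z0,z1]),(z2,[y9,z0,z3,z0,z5]),(z1,[z3,y3,y2,y1,y2,z3])],.ref k25 k0 [(z5,
    [y12,z3,z0,y4,z0,z12]),(z5,[z18,z18,z5,z6,z0,y18]),(z1,[z0,z0,z0,z1]),(z5,[y9,y9,z0,y3,z5,z9]),(z5,[z6,y9,y5,y3,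
    y5,z9])],.ref k25 k0 [(z7,[y12,z9,z0,y4,y4,z12]),(z7,[z18,z18,z7,z6,z6,y18]),(z1,[z0,z0,z0,z1]),(z7,[y9,y9,z0,y3,
    z4,z9]),(z7,[z6,y15,y7,y5,y5,z15])],.ref k25 k0 [(z1,[y3,z3,z1]),(z2,[z9,z0,y1]),(z1,[z0,z0,z0,z1]),(z4,[y9,z0,z3,
    z0,z4]),(z2,[z3,y6,y3,y2,y2,z6])],.ref k25 k0 [(z1,[z3,z3,z0,y1,y1]),(z2,[y9,z0,z2,z3,z3]),(z1,[z0,z0,z0,z1]),(z4,
    [z9,z0,z0,y3,z1]),(z2,[y3,y6,y2,y1,y1,z6])],.ref k25 k0 [(z1,[z12,z15,z4,z0,z0,y12]),(z1,[y18,y18,y5,z0,z0,z18]),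
    (z1,[z0,z0,z0,z1]),(z1,[z9,z9,z3,z0,z1,y9]),(z1,[y6,y9,y3,y1,y1,z9])],.ref k25 k0 [(z1,[y12,y9,y4,z0,y4,z12]),(z1,
    [z18,z18,z7,z0,z6,y18]),(z1,[z0,z0,z0,z1]),(z1,[y9,y9,y3,z0,y2,z9]),(z1,[z6,z3,z1,y1,z1,y3])],.ref k25 k0 [(z1,
    [z6,z3,z0,y2]),(z1,[y9,z0,z1,z3]),(z1,[z0,z0,z0,z1]),(z2,[z9,z0,z0,y3,z2]),(z1,[y3,y3,y1,z0,y1,z3])],
    .ref k25 k0 [(z1,[z6,z9,z2,z2,z0,y6]),(z1,[y9,y9,y2,y3,z0,z9]),(z1,[z0,z0,z0,z1]),(z2,[z9,z9,z3,z3,z2,y9]),(z1,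
    [y3,y6,y2,y2,y1,z6])],.ref k25 k0 [(z5,[z12,z15,z0,z0,y4]),(z5,[y18,z0,z5,z0,z6]),(z1,[z0,z0,z0,z1]),(z5,[z9,z0,
    z0,z0,z2]),(z5,[y6,y15,y5,y5,y3,z15])],.ref k25 k0 [(z1,[z4,z3]),(z1,[y6,z0,z1]),(z1,[z0,z0,z0,z1]),(z1,[z3,z0,z0,
    z0,z1]),(z1,[y2,y3,y1,y1,y1,z3])]],
    .base (.leafM k3 [k0,k1,k2,k3,k4,k5] [(z3,[y1,z0,y1,z0,z3])] []),
    .base (.leafM k3 [k1,k2,k3,k4,k5,k0] [(z3,[y1,y1,z0,y1,z3])] [])]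

theorem hB6_171_34 : blkB [0, 0, 0, 0, 0, 0] [] sp6 hS6_171 (pcls (n := 6) [0, 0, 0, 0, 0, 0]) hD6_171 560 34 hN6_171_34 = true := by
  decide +kernel

/-- nodes 420 to 431 -/
noncomputable def hN6_171_35 : List HM :=
  [.lp k0 [(nat_lit 1928),(nat_lit 1964),(nat_lit 1988),(nat_lit 1928),(nat_lit 1970),(nat_lit 1730)] [k30,k30,k12,
    k12,k0,k0,k30,k30,k9,k9,k129,k129] k0 [[k0,k0,k0,k0,k0,k60,k72,k0,k6,k102,k0,k0],[k24,k0,k0,k0,k0,k24,k36,k0,k0,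
    k0,k0,k0],[k0,k0,k0,k0,k0,k156,k108,k0,k0,k150,k156,k0],[k0,k0,k0,k0,k0,k0,k0,k0,k0,k102,k24,k0],[k24,k60,k0,k156,
    k0,k0,k0,k0,k0,k6,k0,k0],[k0,k0,k0,k0,k0,k0,k12,k0,k0,k54,k0,k48],[k0,k0,k0,k0,k0,k0,k0,k0,k42,k42,k48,k36],[k36,
    k72,k0,k108,k12,k0,k0,k0,k0,k0,k0,k0],[k0,k102,k102,k150,k54,k6,k0,k42,k0,k0,k0,k0],[k0,k6,k0,k0,k0,k0,k0,k42,k0,
    k0,k90,k6],[k0,k0,k0,k0,k48,k0,k0,k36,k6,k0,k0,k108],[k0,k0,k24,k156,k0,k0,k0,k48,k90,k0,k0,k0]] (nat_lit 5760) k5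
    [[(k11,(nat_lit 1739)),(k2,(nat_lit 1790)),(k10,(nat_lit 1829)),(k6,(nat_lit 1880)),(k0,(nat_lit 1928)),(k7,
    (nat_lit 1928)),(k5,(nat_lit 1934)),(k3,(nat_lit 1946)),(k8,(nat_lit 1955)),(k9,(nat_lit 1985)),(k4,
    (nat_lit 2006)),(k1,(nat_lit 2036))],[(k11,(nat_lit 1823)),(k10,(nat_lit 1829)),(k8,(nat_lit 1847)),(k9,
    (nat_lit 1877)),(k4,(nat_lit 1898)),(k1,(nat_lit 1928)),(k2,(nat_lit 1946)),(k3,(nat_lit 1946)),(k0,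
    (nat_lit 1952)),(k7,(nat_lit 1952)),(k5,(nat_lit 1958)),(k6,(nat_lit 1964))],[(k10,(nat_lit 1847)),(k9,
    (nat_lit 1931)),(k3,(nat_lit 1940)),(k0,(nat_lit 1946)),(k1,(nat_lit 1946)),(k11,(nat_lit 1949)),(k4,
    (nat_lit 1952)),(k2,(nat_lit 1964)),(k8,(nat_lit 1973)),(k5,(nat_lit 1976)),(k7,(nat_lit 2006)),(k6,
    (nat_lit 2018))],[(k1,(nat_lit 1790)),(k8,(nat_lit 1817)),(k4,(nat_lit 1820)),(k9,(nat_lit 1859)),(k10,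
    (nat_lit 1871)),(k0,(nat_lit 1946)),(k6,(nat_lit 1946)),(k7,(nat_lit 1946)),(k11,(nat_lit 1949)),(k2,
    (nat_lit 1964)),(k3,(nat_lit 1964)),(k5,(nat_lit 1976))],[(k8,(nat_lit 1877)),(k1,(nat_lit 1934)),(k0,
    (nat_lit 1958)),(k2,(nat_lit 1976)),(k3,(nat_lit 1976)),(k9,(nat_lit 1979)),(k4,(nat_lit 1988)),(k5,
    (nat_lit 1988)),(k11,(nat_lit 2009)),(k10,(nat_lit 2015)),(k6,(nat_lit 2066)),(k7,(nat_lit 2114))],[(k2,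
    (nat_lit 1820)),(k10,(nat_lit 1859)),(k0,(nat_lit 1898)),(k11,(nat_lit 1913)),(k3,(nat_lit 1952)),(k7,
    (nat_lit 1958)),(k6,(nat_lit 1970)),(k8,(nat_lit 1973)),(k9,(nat_lit 1979)),(k4,(nat_lit 1988)),(k5,
    (nat_lit 1988)),(k1,(nat_lit 2006))],[(k10,(nat_lit 1781)),(k11,(nat_lit 1835)),(k8,(nat_lit 1895)),(k1,
    (nat_lit 1928)),(k6,(nat_lit 1928)),(k7,(nat_lit 1928)),(k9,(nat_lit 1937)),(k2,(nat_lit 1946)),(k0,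
    (nat_lit 1952)),(k4,(nat_lit 1958)),(k3,(nat_lit 2006)),(k5,(nat_lit 2114))],[(k11,(nat_lit 1787)),(k10,
    (nat_lit 1793)),(k1,(nat_lit 1880)),(k8,(nat_lit 1907)),(k6,(nat_lit 1928)),(k7,(nat_lit 1928)),(k2,
    (nat_lit 1946)),(k9,(nat_lit 1949)),(k0,(nat_lit 1964)),(k4,(nat_lit 1970)),(k3,(nat_lit 2018)),(k5,
    (nat_lit 2066))],[(k2,(nat_lit 1859)),(k0,(nat_lit 1877)),(k11,(nat_lit 1892)),(k10,(nat_lit 1898)),(k3,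
    (nat_lit 1931)),(k7,(nat_lit 1937)),(k6,(nat_lit 1949)),(k9,(nat_lit 1970)),(k4,(nat_lit 1979)),(k5,
    (nat_lit 1979)),(k1,(nat_lit 1985)),(k8,(nat_lit 2012))],[(k2,(nat_lit 1817)),(k0,(nat_lit 1847)),(k11,
    (nat_lit 1850)),(k5,(nat_lit 1877)),(k7,(nat_lit 1895)),(k6,(nat_lit 1907)),(k10,(nat_lit 1940)),(k1,
    (nat_lit 1955)),(k8,(nat_lit 1970)),(k3,(nat_lit 1973)),(k4,(nat_lit 1973)),(k9,(nat_lit 2012))],[(k10,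
    (nat_lit 1724)),(k11,(nat_lit 1730)),(k1,(nat_lit 1739)),(k6,(nat_lit 1787)),(k0,(nat_lit 1823)),(k7,
    (nat_lit 1835)),(k8,(nat_lit 1850)),(k9,(nat_lit 1892)),(k4,(nat_lit 1913)),(k2,(nat_lit 1949)),(k3,
    (nat_lit 1949)),(k5,(nat_lit 2009))],[(k10,(nat_lit 1622)),(k11,(nat_lit 1724)),(k7,(nat_lit 1781)),(k6,
    (nat_lit 1793)),(k0,(nat_lit 1829)),(k1,(nat_lit 1829)),(k3,(nat_lit 1847)),(k4,(nat_lit 1859)),(k2,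
    (nat_lit 1871)),(k9,(nat_lit 1898)),(k8,(nat_lit 1940)),(k5,(nat_lit 2015))]]
    [[k2,k1,k0,k0,k0,k0],[k2,k0,k0,k0,k0,k1],[k1,k2,k0,k0,k0,k0],[k1,k1,k1,k0,k0,k0],[k1,k1,k0,k0,k1,k0],[k1,k1,k0,k0,
    k0,k1],[k1,k0,k1,k0,k0,k1],[k1,k0,k0,k1,k1,k0],[k1,k0,k0,k1,k0,k1],[k1,k0,k0,k0,k1,k1],[k1,k0,k0,k0,k0,k2],[k0,k2,
    k0,k0,k1,k0],[k0,k2,k1,k0,k0,k0],[k0,k1,k1,k0,k1,k0],[k0,k1,k0,k1,k0,k1],[k0,k1,k0,k0,k1,k1],[k0,k1,k1,k0,k0,k1],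
    [k0,k1,k0,k0,k0,k2],[k0,k0,k1,k0,k1,k1],[k0,k0,k1,k0,k0,k2],[k0,k0,k0,k2,k0,k1],[k0,k0,k0,k1,k1,k1],[k0,k0,k0,k1,
    k0,k2],[k0,k0,k0,k0,k1,k2],[k0,k0,k0,k0,k0,k3]]
    [.ref k25 k0 [(z10,[z18,y1,y9]),(z5,[y3,z1,z9]),(z1,[z0,z0,z0,z1]),(z5,[z6,y2,y3,z0,z15]),(z10,[y36,z7,z3,y10,y30,
    z30])],.ref k25 k0 [(z8,[z9,z1]),(z8,[y3,z1,z12]),(z1,[z0,z0,z0,z1]),(z4,[z3,y1,z0,z0,z12]),(z4,[y9,z1,y6,y4,y12,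
    z12])],.ref k25 k0 [(z1,[z9,y1,y9]),(z2,[y6,z1,z9]),(z1,[z0,z0,z0,z1]),(z1,[z6,y1,y6,z0,z3]),(z2,[y36,z5,z33,y2,
    y6,z6])],.ref k25 k0 [(z4,[z18,y1,y9,y6]),(z4,[y6,z1,z9,z2]),(z1,[z0,z0,z0,z1]),(z2,[z6,y1,y3,y2,z6]),(z1,[y9,z1,
    z3,z2,y3,z3])],.ref k25 k0 [(z4,[y9,z2,z0,y3,y9,z9]),(z4,[z3,z0,z6,z1,z3,y3]),(z1,[z0,z0,z0,z1]),(z2,[y3,z0,z0,y1,
    z3,z3]),(z2,[z9,y1,y3,z1,z3,y3])],.ref k25 k0 [(z8,[z18,z1,y9]),(z8,[y6,z1,z15]),(z1,[z0,z0,z0,z1]),(z4,[z6,y1,y3,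
    z0,z12]),(z4,[y18,z1,z3,y4,y12,z12])],.ref k25 k0 [(z5,[z9,z1,z0,y3]),(z10,[y6,z1,z15,z2]),(z1,[z0,z0,z0,z1]),(z5,
    [z6,y1,z0,y2,z15]),(z10,[y36,z1,y15,z2,y30,z30])],.ref k25 k0 [(z2,[y18,z1,y9,y6,z0,z18]),(z1,[z3,z0,z3,z1,z0,
    y3]),(z1,[z0,z0,z0,z1]),(z1,[y6,z0,y3,y2,z3,z6]),(z2,[z36,y1,z15,z10,y6,y30])],.ref k25 k0 [(z7,[z9,z2,z0,z0,y9]),
    (z14,[y6,z1,z21,z0,z6]),(z1,[z0,z0,z0,z1]),(z7,[z6,y1,z0,z0,z15]),(z14,[y36,y1,y21,y14,y6,z42])],.ref k25 k0 [(z2,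
    [y18,z1,y9,y6,y18,z18]),(z1,[z3,z0,z3,z1,z3,y3]),(z1,[z0,z0,z0,z1]),(z1,[y6,z0,y3,y2,y3,z6]),(z2,[z36,y1,z15,z10,
    z30,y30])],.ref k25 k0 [(z7,[z9,z2]),(z14,[y6,z1,z21]),(z1,[z0,z0,z0,z1]),(z7,[z6,y1,z0,z0,z21]),(z14,[y36,y1,y21,
    y14,y42,z42])],.ref k25 k0 [(z16,[y18,z5,z9,y6,y18,z18]),(z16,[z6,z1,z21,z2,z6,y6]),(z1,[z0,z0,z0,z1]),(z8,[y6,y1,
    z3,y2,z18,z6]),(z8,[z18,y1,y21,y2,y6,z6])],.ref k25 k0 [(z2,[y9,z1,z9,z3]),(z2,[z3,z0,z0,y1]),(z1,[z0,z0,z0,z1]),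
    (z1,[y3,z0,z3,z1,z3]),(z2,[z18,y1,y21,y8,y6,z6])],.ref k25 k0 [(z7,[y9,z2,z0,z0,y9,z9]),(z14,[z6,z1,z21,z0,z6,
    y6]),(z1,[z0,z0,z0,z1]),(z7,[y6,y1,z0,z0,z15,z6]),(z14,[z36,y1,y21,y14,y6,z6])],.ref k25 k0 [(z2,[z6,z1,y3,z0,
    y6]),(z1,[y1,z0,z2,z0,z1]),(z1,[z0,z0,z0,z1]),(z1,[z2,z0,y1,z0,z1]),(z2,[y12,y1,z3,y2,z6,z6])],.ref k25 k0 [(z5,
    [y9,z1,z0,y3,y9,z9]),(z10,[z6,z1,z15,z2,z6,y6]),(z1,[z0,z0,z0,z1]),(z5,[y6,y1,z0,y2,z9,z6]),(z10,[z36,z1,y15,z2,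
    z6,y6])],.ref k25 k0 [(z2,[z18,z1,y9,y6]),(z1,[y3,z0,z3,z1]),(z1,[z0,z0,z0,z1]),(z1,[z6,z0,y3,y2,z3]),(z2,[y36,y1,
    z15,z10,y6,z6])],.ref k25 k0 [(z2,[z6,z1,y3]),(z1,[y1,z0,z2]),(z1,[z0,z0,z0,z1]),(z1,[z2,z0,y1,z0,z3]),(z2,[y12,
    y1,z3,y2,y6,z6])],.ref k25 k0 [(z8,[y18,z1,y9,z0,y18,z18]),(z8,[z6,z1,z15,z0,z6,y6]),(z1,[z0,z0,z0,z1]),(z4,[y6,
    y1,y3,z0,z6,z6]),(z4,[z18,z1,z3,y4,z6,y6])],.ref k25 k0 [(z4,[z9,z2,z0,y3]),(z4,[y3,z0,z6,z1]),(z1,[z0,z0,z0,z1]),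
    (z2,[z3,z0,z0,y1,z6]),(z2,[y9,y1,y3,z1,y6,z6])],.ref k25 k0 [(z2,[z3,z1,z0,z0,y6]),(z2,[y1,z0,z3,z0,z2]),(z1,[z0,
    z0,z0,z1]),(z1,[z1,z0,z0,z0,z1]),(z2,[y6,y1,y3,y2,z6,z6])],.ref k25 k0 [(z4,[y18,y1,y9,y6,z0,z18]),(z4,[z6,z1,z9,
    z2,z0,y6]),(z1,[z0,z0,z0,z1]),(z2,[y6,y1,y3,y2,z6,z6]),(z1,[z9,z1,z3,z2,y3,y6])],.ref k25 k0 [(z2,[z3,z1,z0,z0,
    y3]),(z2,[y1,z0,z3,z0,z1]),(z1,[z0,z0,z0,z1]),(z1,[z1,z0,z0,z0,z2]),(z2,[y6,y1,y3,y2,z0,z6])],.ref k25 k0 [(z4,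
    [y18,y1,y9,y6,y18,z18]),(z4,[z6,z1,z9,z2,z6,y6]),(z1,[z0,z0,z0,z1]),(z2,[y6,y1,y3,y2,z0,z6]),(z1,[z9,z1,z3,z2,z6,
    y6])],.ref k25 k0 [(z2,[z3,z1]),(z2,[y1,z0,z3]),(z1,[z0,z0,z0,z1]),(z1,[z1,z0,z0,z0,z3]),(z2,[y6,y1,y3,y2,y6,
    z6])]],
    .lp k0 [(nat_lit 470),(nat_lit 428),(nat_lit 506),(nat_lit 518),(nat_lit 506),(nat_lit 440)] [k24,k24,k45,k45,k6,
    k6,k0,k0,k6,k6,k39,k39] k0 [[k0,k0,k0,k0,k12,k12,k24,k0,k0,k0,k0,k12],[k6,k0,k0,k6,k0,k0,k0,k0,k18,k0,k0,k24],[k6,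
    k0,k0,k6,k0,k0,k0,k0,k18,k0,k0,k24],[k0,k0,k0,k0,k12,k12,k24,k0,k0,k0,k0,k12],[k0,k12,k12,k0,k0,k0,k0,k0,k0,k42,
    k36,k0],[k0,k12,k12,k0,k0,k0,k0,k0,k0,k12,k0,k0],[k0,k0,k0,k0,k0,k0,k0,k0,k0,k0,k0,k0],[k0,k24,k24,k0,k0,k0,k0,k0,
    k0,k0,k6,k12],[k0,k0,k0,k0,k12,k42,k0,k0,k0,k0,k6,k0],[k18,k0,k0,k18,k0,k0,k0,k0,k0,k0,k0,k0],[k24,k12,k12,k24,k0,
    k0,k12,k0,k0,k0,k0,k0],[k0,k0,k0,k0,k0,k36,k6,k0,k0,k6,k0,k0]] (nat_lit 1440) k5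
    [[(k4,(nat_lit 452)),(k10,(nat_lit 455)),(k11,(nat_lit 455)),(k2,(nat_lit 461)),(k3,(nat_lit 461)),(k1,
    (nat_lit 470)),(k8,(nat_lit 482)),(k9,(nat_lit 482)),(k0,(nat_lit 494)),(k7,(nat_lit 494)),(k6,(nat_lit 506)),(k5,
    (nat_lit 512))],[(k10,(nat_lit 443)),(k2,(nat_lit 449)),(k3,(nat_lit 449)),(k11,(nat_lit 455)),(k9,(nat_lit 464)),
    (k0,(nat_lit 476)),(k4,(nat_lit 476)),(k7,(nat_lit 482)),(k1,(nat_lit 494)),(k5,(nat_lit 494)),(k6,(nat_lit 494)),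
    (k8,(nat_lit 506))],[(k10,(nat_lit 410)),(k11,(nat_lit 416)),(k2,(nat_lit 422)),(k3,(nat_lit 422)),(k0,
    (nat_lit 449)),(k1,(nat_lit 461)),(k5,(nat_lit 467)),(k8,(nat_lit 467)),(k9,(nat_lit 467)),(k4,(nat_lit 479)),(k7,
    (nat_lit 485)),(k6,(nat_lit 497))],[(k10,(nat_lit 410)),(k11,(nat_lit 416)),(k2,(nat_lit 422)),(k3,(nat_lit 422)),
    (k0,(nat_lit 449)),(k1,(nat_lit 461)),(k5,(nat_lit 467)),(k8,(nat_lit 467)),(k9,(nat_lit 467)),(k4,(nat_lit 479)),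
    (k7,(nat_lit 485)),(k6,(nat_lit 497))],[(k10,(nat_lit 461)),(k2,(nat_lit 467)),(k3,(nat_lit 467)),(k11,
    (nat_lit 473)),(k9,(nat_lit 482)),(k0,(nat_lit 494)),(k4,(nat_lit 494)),(k7,(nat_lit 500)),(k1,(nat_lit 512)),(k5,
    (nat_lit 512)),(k6,(nat_lit 512)),(k8,(nat_lit 524))],[(k1,(nat_lit 452)),(k8,(nat_lit 464)),(k10,(nat_lit 473)),
    (k0,(nat_lit 476)),(k2,(nat_lit 479)),(k3,(nat_lit 479)),(k11,(nat_lit 485)),(k5,(nat_lit 494)),(k4,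
    (nat_lit 506)),(k9,(nat_lit 506)),(k6,(nat_lit 512)),(k7,(nat_lit 512))],[(k0,(nat_lit 482)),(k2,(nat_lit 485)),
    (k3,(nat_lit 485)),(k1,(nat_lit 494)),(k5,(nat_lit 500)),(k8,(nat_lit 500)),(k4,(nat_lit 512)),(k9,(nat_lit 512)),
    (k10,(nat_lit 515)),(k6,(nat_lit 518)),(k7,(nat_lit 518)),(k11,(nat_lit 521))],[(k11,(nat_lit 479)),(k10,
    (nat_lit 485)),(k0,(nat_lit 494)),(k2,(nat_lit 497)),(k3,(nat_lit 497)),(k1,(nat_lit 506)),(k4,(nat_lit 512)),(k5,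
    (nat_lit 512)),(k8,(nat_lit 512)),(k9,(nat_lit 512)),(k6,(nat_lit 518)),(k7,(nat_lit 518))],[(k10,(nat_lit 461)),
    (k0,(nat_lit 464)),(k2,(nat_lit 467)),(k3,(nat_lit 467)),(k11,(nat_lit 473)),(k1,(nat_lit 482)),(k5,
    (nat_lit 482)),(k4,(nat_lit 506)),(k8,(nat_lit 506)),(k9,(nat_lit 506)),(k6,(nat_lit 512)),(k7,(nat_lit 512))],
    [(k4,(nat_lit 464)),(k2,(nat_lit 467)),(k3,(nat_lit 467)),(k10,(nat_lit 473)),(k11,(nat_lit 473)),(k1,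
    (nat_lit 482)),(k7,(nat_lit 500)),(k0,(nat_lit 506)),(k8,(nat_lit 506)),(k9,(nat_lit 506)),(k6,(nat_lit 512)),(k5,
    (nat_lit 524))],[(k2,(nat_lit 416)),(k3,(nat_lit 416)),(k11,(nat_lit 440)),(k10,(nat_lit 446)),(k0,(nat_lit 455)),
    (k1,(nat_lit 455)),(k5,(nat_lit 473)),(k8,(nat_lit 473)),(k9,(nat_lit 473)),(k6,(nat_lit 479)),(k4,(nat_lit 485)),
    (k7,(nat_lit 521))],[(k2,(nat_lit 410)),(k3,(nat_lit 410)),(k10,(nat_lit 440)),(k0,(nat_lit 443)),(k11,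
    (nat_lit 446)),(k1,(nat_lit 455)),(k5,(nat_lit 461)),(k9,(nat_lit 461)),(k4,(nat_lit 473)),(k8,(nat_lit 473)),(k6,
    (nat_lit 485)),(k7,(nat_lit 515))]]
    [[k2,k1,k0,k0,k0,k0],[k2,k0,k0,k0,k0,k1],[k1,k2,k0,k0,k0,k0],[k1,k1,k1,k0,k0,k0],[k1,k1,k0,k0,k1,k0],[k1,k1,k0,k0,
    k0,k1],[k1,k0,k1,k0,k0,k1],[k1,k0,k0,k1,k0,k1],[k1,k0,k0,k0,k1,k1],[k1,k0,k0,k0,k0,k2],[k0,k3,k0,k0,k0,k0],[k0,k2,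
    k1,k0,k0,k0],[k0,k2,k0,k1,k0,k0],[k0,k2,k0,k0,k1,k0],[k0,k2,k0,k0,k0,k1],[k0,k1,k1,k0,k1,k0],[k0,k1,k1,k0,k0,k1],
    [k0,k1,k0,k1,k0,k1],[k0,k1,k0,k0,k1,k1],[k0,k1,k0,k0,k0,k2],[k0,k0,k1,k0,k1,k1],[k0,k0,k1,k0,k0,k2],[k0,k0,k0,k0,
    k1,k2],[k0,k0,k0,k0,k0,k3]]
    [.ref k25 k0 [(z13,[z12,z15,y4]),(z13,[z15,y30,z8]),(z13,[y24,z48,z8,z39]),(z13,[y6,z12,z2,z0,z39]),(z1,[z0,y3,y1,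
    y3,y3,z3])],.ref k25 k0 [(z3,[z4,z1]),(z3,[z5,y10,z3]),(z3,[y8,z16,z0,z9]),(z3,[y2,z4,z0,z0,z9]),(z1,[z0,y3,y1,y3,
    y3,z3])],.ref k25 k0 [(z7,[z6,z15,y4]),(z14,[z15,y15,z4]),(z7,[y12,z12,z8,z21]),(z7,[y3,z3,z2,z0,z21]),(z1,[z0,y3,
    y1,y3,y3,z3])],.ref k25 k0 [(z1,[z12,y9,y4,y12]),(z1,[z15,y15,y4,y15]),(z1,[y24,z24,z8,z27]),(z1,[y6,z6,z2,z6,
    z3]),(z1,[z0,y3,y1,y3,y3,z3])],.ref k25 k0 [(z3,[z4,z9,z0,z4,z4,y4]),(z3,[z5,z0,z3,z5,z5,y5]),(z3,[y8,z0,z0,z1,y8,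
    z8]),(z3,[y2,z0,z0,y2,z7,z2]),(z1,[z0,y3,y1,y3,y3,z3])],.ref k25 k0 [(z5,[z6,z9,y2]),(z2,[z3,y3,z1]),(z5,[y12,z12,
    z4,z15]),(z5,[y3,z3,z1,z0,z15]),(z1,[z0,y3,y1,y3,y3,z3])],.ref k25 k0 [(z1,[y4,z7,z0,z4]),(z1,[y5,z5,z1,z5]),(z1,
    [z8,y8,z0,y5]),(z1,[z2,y2,z0,y2,z3]),(z1,[z0,y3,y1,y3,y3,z3])],.ref k25 k0 [(z1,[z4,y1,z0,z0,y4]),(z1,[z5,y5,z1,
    z0,y5]),(z1,[y8,z8,z0,z3,z8]),(z1,[y2,z2,z0,z0,z5]),(z1,[z0,y3,y1,y3,y3,z3])],.ref k25 k0 [(z5,[z12,z15,z4,z12,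
    z12,y12]),(z1,[z3,z0,z2,z3,z3,y3]),(z5,[y24,z0,y8,y9,y24,z24]),(z5,[y6,z0,y2,y6,z9,z6]),(z1,[z0,y3,y1,y3,y3,z3])],
    .ref k25 k0 [(z1,[z2,z1]),(z2,[z5,y5,z2]),(z1,[y4,z4,z0,z3]),(z1,[y1,z1,z0,z0,z3]),(z1,[z0,y3,y1,y3,y3,z3])],
    .ref k25 k0 [(z5,[z4,z15,y4]),(z1,[z1]),(z5,[y8,z0,z8,z15]),(z5,[y2,z0,z2,z0,z15]),(z1,[z0,y3,y1,y3,y3,z3])],
    .ref k25 k0 [(z1,[z6,z3,y4,y6]),(z2,[z15,z0,y8,y15]),(z1,[y12,z0,z8,z15]),(z1,[y3,z0,z2,z3,z3]),(z1,[z0,y3,y1,y3,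
    y3,z3])],.ref k25 k0 [(z2,[z3,z6,y2,z0,y3]),(z8,[z15,z0,y2,z0,y15]),(z1,[y3,z0,z2,z3,z3]),(z4,[y3,z0,z2,z0,z15]),
    (z1,[z0,y3,y1,y3,y3,z3])],.ref k25 k0 [(z5,[z6,z21,y2,z6,z6,y6]),(z2,[z3,z3,z1,z3,z3,y3]),(z5,[y12,y12,z4,z3,y12,
    z12]),(z5,[y3,y3,z1,y3,z12,z3]),(z1,[z0,y3,y1,y3,y3,z3])],.ref k25 k0 [(z11,[z12,z33,y8]),(z11,[z15,z0,z1]),(z11,
    [y24,z0,z16,z33]),(z11,[y6,z0,z4,z0,z33]),(z1,[z0,y3,y1,y3,y3,z3])],.ref k25 k0 [(z1,[y4,y1,z0,z0,y4,z4]),(z1,[y5,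
    y5,z1,z0,y5,z5]),(z1,[z8,z8,z0,z3,z8,y8]),(z1,[z2,z2,z0,z0,z5,y2]),(z1,[z0,y3,y1,y3,y3,z3])],.ref k25 k0 [(z1,[y6,
    z3,z2,z6]),(z2,[y15,z0,z7,z15]),(z1,[z12,z0,y4,y9]),(z1,[z3,z0,y1,y3,z3]),(z1,[z0,y3,y1,y3,y3,z3])],
    .ref k25 k0 [(z1,[z3,z3,y1,z0,y3]),(z4,[z15,z0,y1,z0,y15]),(z1,[y6,z0,z2,z3,z6]),(z2,[y3,z0,z1,z0,z9]),(z1,[z0,y3,
    y1,y3,y3,z3])],.ref k25 k0 [(z1,[z2,z5,z0,z2,z2,y2]),(z2,[z5,z5,z2,z5,z5,y5]),(z1,[y4,y4,z0,y1,y4,z4]),(z1,[y1,y1,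
    z0,y1,z2,z1]),(z1,[z0,y3,y1,y3,y3,z3])],.ref k25 k0 [(z7,[z12,z21,y4]),(z7,[z15,z0,z2]),(z7,[y24,z0,z8,z21]),(z7,
    [y6,z0,z2,z0,z21]),(z1,[z0,y3,y1,y3,y3,z3])],.ref k25 k0 [(z7,[y12,z9,y4,z0,y12,z12]),(z7,[y15,y15,z2,z0,y15,
    z15]),(z7,[z24,z24,z8,z21,z24,y24]),(z7,[z6,z6,z2,z0,z27,y6]),(z1,[z0,y3,y1,y3,y3,z3])],.ref k25 k0 [(z1,[y2,z3,
    z0,z2]),(z2,[y5,z0,z2,z5]),(z1,[z4,z0,z0,y1]),(z1,[z1,z0,z0,y1,z3]),(z1,[z0,y3,y1,y3,y3,z3])],.ref k25 k0 [(z1,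
    [z6,z9,z2,z6,z6,y6]),(z2,[z15,z15,z7,z15,z15,y15]),(z1,[y12,y12,y4,y9,y12,z12]),(z1,[y3,y3,y1,y3,z0,z3]),(z1,[z0,
    y3,y1,y3,y3,z3])],.ref k25 k0 [(z1,[z4,z3]),(z1,[z5,z0,z1]),(z1,[y8,z0,z0,z3]),(z1,[y2,z0,z0,z0,z3]),(z1,[z0,y3,
    y1,y3,y3,z3])]],
    .base (.leafM k3 [k4,k5,k0,k1,k2,k3] [(z3,[z0,z1,z1])] []),
    .lp k0 [k82,k84,k80,k80,k78,k74] [k1,k1,k0,k0,k2,k2,k2,k2,k3,k3,k5,k5] k0 [[k0,k0,k0,k0,k0,k0,k0,k0,k0,k6,k6,k2],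
    [k0,k0,k0,k0,k4,k0,k0,k4,k0,k0,k0,k0],[k0,k0,k0,k0,k4,k0,k0,k4,k0,k0,k0,k0],[k0,k0,k0,k0,k0,k0,k0,k0,k0,k2,k2,k2],
    [k0,k0,k0,k0,k0,k0,k0,k0,k0,k0,k0,k12],[k4,k0,k0,k4,k0,k0,k0,k0,k6,k0,k0,k2],[k4,k0,k0,k4,k0,k0,k0,k0,k16,k16,k0,
    k16],[k0,k0,k0,k0,k0,k0,k0,k0,k0,k0,k0,k6],[k0,k6,k2,k0,k0,k0,k0,k16,k0,k0,k0,k0],[k0,k0,k0,k0,k6,k0,k0,k16,k0,k0,
    k10,k0],[k0,k2,k2,k0,k2,k12,k6,k16,k0,k0,k0,k0],[k0,k6,k2,k0,k0,k0,k0,k0,k10,k0,k0,k0]] (nat_lit 240) k5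
    [[(k11,k68),(k0,k76),(k10,k78),(k5,k79),(k8,k80),(k1,k82),(k4,k83),(k2,k85),(k3,k85),(k6,k87),(k7,k93),(k9,k96)],
    [(k8,k74),(k1,k76),(k10,k76),(k11,k78),(k5,k81),(k6,k81),(k7,k81),(k0,k82),(k2,k83),(k3,k83),(k9,k84),(k4,k85)],
    [(k6,k78),(k7,k78),(k8,k81),(k9,k81),(k4,k82),(k5,k82),(k0,k83),(k2,k84),(k3,k84),(k1,k85),(k10,k85),(k11,k85)],
    [(k6,k78),(k7,k78),(k8,k81),(k9,k81),(k10,k81),(k11,k81),(k4,k82),(k5,k82),(k0,k83),(k2,k84),(k3,k84),(k1,k85)],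
    [(k10,k75),(k8,k77),(k11,k77),(k1,k79),(k5,k80),(k6,k80),(k7,k80),(k0,k81),(k2,k82),(k3,k82),(k9,k83),(k4,k84)],
    [(k10,k65),(k11,k77),(k9,k79),(k4,k80),(k6,k80),(k7,k80),(k2,k82),(k3,k82),(k1,k83),(k5,k84),(k0,k85),(k8,k85)],
    [(k11,k71),(k10,k75),(k2,k78),(k3,k78),(k8,k79),(k9,k79),(k4,k80),(k5,k80),(k6,k80),(k7,k80),(k0,k81),(k1,k93)],
    [(k10,k61),(k11,k61),(k8,k63),(k2,k78),(k3,k78),(k9,k79),(k4,k80),(k5,k80),(k6,k80),(k7,k80),(k0,k81),(k1,k87)],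
    [(k10,k70),(k9,k78),(k4,k79),(k6,k79),(k7,k79),(k2,k81),(k3,k81),(k5,k83),(k0,k84),(k11,k92),(k8,k94),(k1,k96)],
    [(k6,k63),(k0,k74),(k11,k76),(k5,k77),(k8,k78),(k7,k79),(k1,k80),(k2,k81),(k3,k81),(k4,k85),(k10,k86),(k9,k94)],
    [(k6,k61),(k1,k68),(k7,k71),(k10,k74),(k11,k74),(k8,k76),(k4,k77),(k5,k77),(k0,k78),(k2,k81),(k3,k85),(k9,k92)],
    [(k6,k61),(k4,k65),(k9,k70),(k10,k74),(k11,k74),(k5,k75),(k7,k75),(k0,k76),(k1,k78),(k2,k81),(k3,k85),(k8,k86)]]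
    [[k3,k0,k0,k0,k0,k0],[k2,k0,k0,k0,k0,k1],[k1,k0,k1,k0,k0,k1],[k1,k0,k1,k0,k1,k0],[k1,k0,k0,k1,k0,k1],[k1,k0,k0,k0,
    k2,k0],[k1,k0,k0,k0,k1,k1],[k1,k0,k0,k0,k0,k2],[k1,k1,k0,k0,k0,k1],[k0,k1,k1,k0,k0,k1],[k0,k1,k0,k2,k0,k0],[k0,k1,
    k0,k1,k1,k0],[k0,k1,k0,k1,k0,k1],[k0,k1,k0,k0,k1,k1],[k0,k0,k2,k0,k0,k1],[k0,k0,k1,k1,k1,k0],[k0,k0,k1,k1,k0,k1],
    [k0,k0,k1,k0,k1,k1],[k0,k0,k1,k0,k0,k2],[k0,k0,k0,k2,k1,k0],[k0,k0,k0,k2,k0,k1],[k0,k0,k0,k1,k2,k0],[k0,k0,k0,k1,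
    k1,k1],[k0,k0,k0,k1,k0,k2],[k0,k0,k0,k0,k1,k2],[k0,k0,k0,k0,k0,k3]]
    [.ref (nat_lit 416) k3 [(z1,[z0,y1,y3,y3,z3]),(z1,[z0,z0,z0,z1]),(z1,[z2,y2,z0,y3]),(z1,[z1])],
    .ref (nat_lit 417) k7 [(z1,[y2,z0,z1]),(z1,[z6,z2,z0,z3]),(z1,[z0,y1,y3,y3,z3]),(z1,[y3,y1])],
    .ref (nat_lit 418) k0 [(z1,[y3,z2,z0,z3]),(z1,[z0,z0,z1]),(z1,[z6,y2,z0,y3]),(z1,[z0,y1,y3,y3,z3])],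
    .ref (nat_lit 396) k0 [(z1,[z1,z0,z0,y1]),(z1,[y6,z2,z3,z6]),(z1,[z0,z0,z0,z1]),(z1,[z0,y1,y3,y3,z3])],
    .ref (nat_lit 419) k7 [(z1,[y6,y2,y3,y6,z6]),(z1,[z6,z4,z6,z9,y6]),(z1,[z0,y1,y3,y3,z3]),(z1,[y3,y2,y3,y3,z3])],
    .ref (nat_lit 420) k9 [(z1,[y3,y2]),(z1,[z1]),(z1,[z0,y1,y3,y3,z3]),(z1,[y1,z0,z0,z1])],
    .ref (nat_lit 416) k3 [(z1,[z0,y1,y3,y3,z3]),(z1,[z0,z0,z0,z1]),(z1,[z3,y1,z0,y3]),(z2,[z3,z1])],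
    .ref (nat_lit 399) k11 [(z1,[z1,z0,y1]),(z1,[z0,z0,z1]),(z1,[z6,y2,y9]),(z1,[z0,y1,y3,y3,z3])],.ref k18 k9 [(z1,
    [y1,z0,z1]),(z1,[z3,y1,y3]),(z1,[z0,y1,y3,y3,z3]),(z1,[y6,z2,z6,z3])],.ref k198 k9 [(z1,[z3,y2,y3,y3]),(z1,[y3,z1,
    z3,z3]),(z1,[z0,y1,y3,y3,z3]),(z1,[z6,y2,y6,y3])],.ref (nat_lit 396) k0 [(z2,[y1,z0,y1,y2,z2]),(z1,[z3,z2,z6,z6,
    y6]),(z1,[z0,z0,z0,z1]),(z1,[z0,y1,y3,y3,z3])],.ref (nat_lit 418) k0 [(z1,[z3,z2,z0,z3,y3]),(z1,[z0,z0,z1]),(z1,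
    [y6,y2,z0,y3,z6]),(z1,[z0,y1,y3,y3,z3])],.ref (nat_lit 396) k0 [(z1,[y1,z0,z0,y1,z1]),(z1,[z6,z2,z3,z6,y6]),(z1,
    [z0,z0,z0,z1]),(z1,[z0,y1,y3,y3,z3])],.ref (nat_lit 289) k0 [(z1,[z3,z1,y3]),(z1,[z0,z0,z1]),(z1,[y2,z0,z2,z1]),
    (z1,[z0,y1,y3,y3,z3])],.ref (nat_lit 421) k6 [(z1,[z1,z0,z0,y2]),(z1,[z3,z1,z0,y6]),(z1,[y2,z0,z1,z4]),(z1,[z0,z0,
    z0,z1])],.ref k18 k9 [(z1,[z1,z0,z1,z0,y1]),(z1,[y3,y1,y3,z0,z3]),(z1,[z0,y1,y3,y3,z3]),(z1,[z6,z2,z6,z3,y6])],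
    .ref (nat_lit 422) k6 [(z1,[z3,z1,z3,z0,y3]),(z1,[z3,z2,z3,z0,y3]),(z1,[y6,y2,y3,z0,z6]),(z1,[z0,z0,z0,z1])],
    .ref (nat_lit 289) k0 [(z1,[y3,z1,z0,z3]),(z1,[z0,z0,z1]),(z1,[z2,z0,z0,y1]),(z1,[z0,y1,y3,y3,z3])],
    .ref (nat_lit 289) k0 [(z2,[y3,z2,z0,z3]),(z1,[z0,z0,z1]),(z1,[z1]),(z1,[z0,y1,y3,y3,z3])],.ref k18 k9 [(z1,[y1,
    y1,y2,y2,z2]),(z1,[z3,z2,z6,z6,y6]),(z1,[z0,y1,y3,y3,z3]),(z1,[y6,y4,y12,y9,z12])],.ref (nat_lit 396) k0 [(z1,[z1,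
    z1,z2,z2,y2]),(z1,[y6,y4,y9,y12,z12]),(z1,[z0,z0,z0,z1]),(z1,[z0,y1,y3,y3,z3])],.ref k18 k9 [(z2,[y1,y1,y1,y1,
    z1]),(z2,[z3,z1,z3,z3,y3]),(z1,[z0,y1,y3,y3,z3]),(z1,[y3,y1,y3,z0,z3])],.ref (nat_lit 416) k3 [(z1,[z0,y1,y3,y3,
    z3]),(z1,[z0,z0,z0,z1]),(z1,[z6,z2,z6,z3,y6]),(z1,[z3,z2,z3,z3,y3])],.ref (nat_lit 396) k0 [(z2,[z1,z1,z1,z1,y1]),
    (z1,[y3,y1,z0,y3,z3]),(z1,[z0,z0,z0,z1]),(z1,[z0,y1,y3,y3,z3])],.ref (nat_lit 419) k7 [(z1,[y6,y2,z3]),(z1,[z6,z4,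
    z0,z3]),(z1,[z0,y1,y3,y3,z3]),(z1,[y3,y2])],.ref (nat_lit 396) k0 [(z3,[z1,z1]),(z1,[y2,z0,z3]),(z1,[z0,z0,z0,
    z1]),(z1,[z0,y1,y3,y3,z3])]],
    .lp k0 [(nat_lit 138370),(nat_lit 130150),(nat_lit 127684),(nat_lit 137548),(nat_lit 140836),
    (nat_lit 112888)] [(nat_lit 1233),(nat_lit 1233),(nat_lit 6303),(nat_lit 4383),(nat_lit 6576),(nat_lit 6576),
    (nat_lit 1644),(nat_lit 1644),k0,k0,(nat_lit 13974),(nat_lit 13974)] k0 [[k0,k0,(nat_lit 5754),(nat_lit 5754),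
    (nat_lit 7398),(nat_lit 822),k0,k0,k0,k0,k0,k0],[k0,k0,k0,k0,k0,k0,k0,k0,k0,(nat_lit 22194),(nat_lit 30414),
    (nat_lit 23838)],[k0,(nat_lit 5754),k0,(nat_lit 1644),(nat_lit 6576),k0,k0,k0,k0,k0,k0,(nat_lit 3288)],[k0,
    (nat_lit 5754),k0,k0,k0,k0,(nat_lit 3288),k0,k0,k0,k0,(nat_lit 18084)],[k0,(nat_lit 822),k0,k0,k0,k0,
    (nat_lit 11508),k0,k0,(nat_lit 11508),k0,k0],[k0,(nat_lit 7398),k0,(nat_lit 6576),(nat_lit 3288),k0,k0,k0,k0,k0,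
    k0,k0],[k0,k0,k0,k0,k0,k0,k0,(nat_lit 4932),(nat_lit 4932),k0,k0,k0],[k0,k0,(nat_lit 3288),k0,k0,(nat_lit 11508),
    k0,k0,k0,k0,(nat_lit 14796),k0],[(nat_lit 22194),k0,k0,k0,k0,(nat_lit 11508),k0,k0,k0,k0,(nat_lit 8220),
    (nat_lit 4932)],[k0,k0,k0,k0,k0,k0,k0,(nat_lit 4932),k0,k0,k0,k0],[(nat_lit 23838),k0,(nat_lit 18084),
    (nat_lit 3288),k0,k0,k0,k0,k0,(nat_lit 4932),k0,k0],[(nat_lit 30414),k0,k0,k0,k0,k0,(nat_lit 14796),k0,k0,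
    (nat_lit 8220),(nat_lit 3288),k0]] (nat_lit 394560) k5
    [[(k3,(nat_lit 104806)),(k9,(nat_lit 124807)),(k10,(nat_lit 125629)),(k11,(nat_lit 130561)),(k8,(nat_lit 131383)),
    (k4,(nat_lit 133027)),(k1,(nat_lit 135082)),(k5,(nat_lit 136315)),(k6,(nat_lit 137959)),(k7,(nat_lit 137959)),(k2,
    (nat_lit 151384)),(k0,(nat_lit 162208))],[(k5,(nat_lit 127273)),(k2,(nat_lit 127546)),(k7,(nat_lit 130561)),(k4,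
    (nat_lit 132205)),(k3,(nat_lit 135220)),(k6,(nat_lit 137959)),(k0,(nat_lit 138370)),(k8,(nat_lit 139603)),(k9,
    (nat_lit 139603)),(k11,(nat_lit 147823)),(k10,(nat_lit 156043)),(k1,(nat_lit 162208))],[(k10,(nat_lit 98641)),(k1,
    (nat_lit 104806)),(k8,(nat_lit 114259)),(k11,(nat_lit 122479)),(k3,(nat_lit 132070)),(k6,(nat_lit 134809)),(k0,
    (nat_lit 135220)),(k5,(nat_lit 135631)),(k7,(nat_lit 135631)),(k2,(nat_lit 135904)),(k9,(nat_lit 136453)),(k4,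
    (nat_lit 137275))],[(k10,(nat_lit 117271)),(k11,(nat_lit 120559)),(k7,(nat_lit 126313)),(k2,(nat_lit 126586)),(k0,
    (nat_lit 127546)),(k4,(nat_lit 127957)),(k5,(nat_lit 127957)),(k8,(nat_lit 134533)),(k9,(nat_lit 134533)),(k3,
    (nat_lit 135904)),(k6,(nat_lit 136177)),(k1,(nat_lit 151384))],[(k10,(nat_lit 102202)),(k11,(nat_lit 120286)),(k0,
    (nat_lit 127273)),(k2,(nat_lit 127957)),(k5,(nat_lit 129328)),(k9,(nat_lit 130972)),(k6,(nat_lit 132616)),(k7,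
    (nat_lit 132616)),(k4,(nat_lit 134260)),(k8,(nat_lit 134260)),(k3,(nat_lit 135631)),(k1,(nat_lit 136315))],[(k10,
    (nat_lit 120286)),(k11,(nat_lit 120286)),(k8,(nat_lit 122752)),(k9,(nat_lit 122752)),(k2,(nat_lit 127957)),(k4,
    (nat_lit 130972)),(k0,(nat_lit 132205)),(k6,(nat_lit 132616)),(k7,(nat_lit 132616)),(k1,(nat_lit 133027)),(k5,
    (nat_lit 134260)),(k3,(nat_lit 137275))],[(k10,(nat_lit 125218)),(k2,(nat_lit 126313)),(k0,(nat_lit 130561)),(k4,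
    (nat_lit 132616)),(k5,(nat_lit 132616)),(k7,(nat_lit 134260)),(k3,(nat_lit 135631)),(k11,(nat_lit 136726)),(k1,
    (nat_lit 137959)),(k8,(nat_lit 139192)),(k9,(nat_lit 139192)),(k6,(nat_lit 149056))],[(k11,(nat_lit 120286)),(k4,
    (nat_lit 132616)),(k5,(nat_lit 132616)),(k6,(nat_lit 132616)),(k3,(nat_lit 134809)),(k2,(nat_lit 136177)),(k0,
    (nat_lit 137959)),(k1,(nat_lit 137959)),(k8,(nat_lit 139192)),(k9,(nat_lit 139192)),(k10,(nat_lit 140014)),(k7,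
    (nat_lit 149056))],[(k4,(nat_lit 122752)),(k1,(nat_lit 124807)),(k10,(nat_lit 126862)),(k11,(nat_lit 126862)),(k5,
    (nat_lit 130972)),(k2,(nat_lit 134533)),(k3,(nat_lit 136453)),(k6,(nat_lit 139192)),(k7,(nat_lit 139192)),(k0,
    (nat_lit 139603)),(k8,(nat_lit 145768)),(k9,(nat_lit 145768))],[(k3,(nat_lit 114259)),(k10,(nat_lit 121930)),(k4,
    (nat_lit 122752)),(k11,(nat_lit 126862)),(k1,(nat_lit 131383)),(k5,(nat_lit 134260)),(k2,(nat_lit 134533)),(k6,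
    (nat_lit 139192)),(k7,(nat_lit 139192)),(k0,(nat_lit 139603)),(k8,(nat_lit 140836)),(k9,(nat_lit 145768))],[(k11,
    (nat_lit 112888)),(k4,(nat_lit 120286)),(k5,(nat_lit 120286)),(k6,(nat_lit 120286)),(k2,(nat_lit 120559)),(k10,
    (nat_lit 121108)),(k3,(nat_lit 122479)),(k8,(nat_lit 126862)),(k9,(nat_lit 126862)),(k1,(nat_lit 130561)),(k7,
    (nat_lit 136726)),(k0,(nat_lit 147823))],[(k3,(nat_lit 98641)),(k5,(nat_lit 102202)),(k10,(nat_lit 116176)),(k2,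
    (nat_lit 117271)),(k4,(nat_lit 120286)),(k11,(nat_lit 121108)),(k8,(nat_lit 121930)),(k7,(nat_lit 125218)),(k1,
    (nat_lit 125629)),(k9,(nat_lit 126862)),(k6,(nat_lit 140014)),(k0,(nat_lit 156043))]]
    [[k1,k2,k0,k0,k0,k0],[k1,k1,k1,k0,k0,k0],[k1,k1,k0,k1,k0,k0],[k1,k1,k0,k0,k1,k0],[k1,k1,k0,k0,k0,k1],[k1,k0,k1,k0,
    k0,k1],[k1,k0,k1,k0,k1,k0],[k1,k0,k0,k1,k0,k1],[k1,k0,k0,k0,k1,k1],[k0,k2,k0,k0,k1,k0],[k0,k2,k0,k0,k0,k1],[k0,k2,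
    k1,k0,k0,k0],[k0,k1,k1,k0,k0,k1],[k0,k1,k1,k0,k1,k0],[k0,k1,k0,k1,k0,k1],[k0,k1,k0,k1,k1,k0],[k0,k1,k0,k0,k1,k1],
    [k0,k1,k0,k0,k0,k2],[k0,k0,k2,k0,k1,k0],[k0,k0,k2,k0,k0,k1],[k0,k0,k1,k1,k0,k1],[k0,k0,k1,k0,k1,k1],[k0,k0,k1,k0,
    k0,k2],[k0,k0,k0,k1,k1,k1],[k0,k0,k0,k1,k0,k2],[k0,k0,k0,k0,k1,k2],[k0,k0,k0,k0,k0,k3]]
    [.ref k48 k7 [(z1,[z1]),(z1,[z1,y2,y2,z2]),(z1,[y1,z0,z1])],.ref (nat_lit 389) k9 [(z1,[y1,y1,y1,z1]),(z1,[z0,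
    z1]),(z1,[z0,z0,z1])],.ref (nat_lit 390) k7 [(z1,[y1,z0,z1]),(z1,[y1,y1,z0,z1]),(z1,[z2,z0,y1])],
    .ref (nat_lit 390) k7 [(z1,[z1,y1]),(z1,[z1,y2,y1,z1]),(z1,[y2,z2,z1])],.ref (nat_lit 389) k8 [(z1,[y1,y1,y1,z1]),
    (z1,[z0,z0,z1]),(z1,[z0,z1])],.ref k48 k11 [(z1,[z1,z1,z1,y1]),(z1,[z1,y1,y1,z1]),(z1,[y1,z0,y1,z1])],
    .ref (nat_lit 391) k7 [(z1,[z1,z0,z1,y1]),(z1,[z1,y1]),(z1,[y2,z0,y1,z2])],.ref (nat_lit 392) k8 [(z1,[y1,y1,z0,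
    z1]),(z1,[z0,z0,z1]),(z1,[z0,z1])],.ref (nat_lit 393) k8 [(z1,[y1,z0,y1,z1]),(z1,[z0,z0,z1]),(z1,[z0,z1])],
    .ref (nat_lit 390) k7 [(z2,[z1,y1]),(z2,[z1,y3,y2,z2]),(z1,[y1,z1,z1])],.ref (nat_lit 398) k8 [(z1,[y1,y1,y1,z1]),
    (z1,[z0,z0,z1]),(z1,[z0,z1])],.ref (nat_lit 406) k9 [(z1,[y1,y1,y1,z1]),(z1,[z0,z1]),(z1,[z0,z0,z1])],
    .ref k48 k7 [(z1,[z1,z1,z1,y1]),(z1,[z1,y1,y1,z1]),(z1,[y1,y1,z0,z1])],.ref (nat_lit 392) k8 [(z1,[z1,y1]),(z1,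
    [z0,z0,z1]),(z1,[z0,z1])],.ref (nat_lit 391) k7 [(z1,[y1,z0,z1]),(z1,[y1,y1,z0,z1]),(z1,[z2,z0,y1])],
    .ref k48 k11 [(z1,[y1,z1,z1]),(z1,[y1,y1,y1,z2]),(z1,[z1,z0,y1])],.ref (nat_lit 407) k5 [(z1,[z2,z1,z0,y2]),(z1,
    [y2,y2,y1,z4]),(z1,[y1,z0,z0,z1])],.ref (nat_lit 415) k2 [(z1,[y2,z0,z1]),(z1,[z2,y1,y2,z2]),(z1,[z1])],
    .ref (nat_lit 391) k7 [(z2,[z1,z1,z2,y2]),(z2,[z1,y1]),(z1,[y1,y1,y1,z2])],.ref (nat_lit 389) k9 [(z1,[y1,y2,y2,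
    z2]),(z1,[z0,z1]),(z1,[z0,z0,z1])],.ref (nat_lit 390) k7 [(z1,[y1,y1,z0,z1]),(z1,[y1,y2,y1,z2]),(z1,[z2,z2,z1,
    y2])],.ref (nat_lit 390) k7 [(z1,[z1,z0,z1,y1]),(z1,[z1,y1]),(z1,[y2,z0,y1,z2])],.ref (nat_lit 389) k8 [(z1,[y1,
    y2,y2,z2]),(z1,[z0,z0,z1]),(z1,[z0,z1])],.ref (nat_lit 389) k9 [(z1,[z1,y1,y1]),(z1,[z0,z1]),(z1,[z0,z0,z1])],
    .ref (nat_lit 391) k7 [(z2,[y1,z0,z1]),(z2,[y1,y2,y1,z2]),(z1,[z1])],.ref (nat_lit 393) k8 [(z2,[y1,y1,y2,z2]),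
    (z1,[z0,z0,z1]),(z1,[z0,z1])],.ref (nat_lit 423) k8 [(z1,[y1,y3,y3,z3]),(z1,[z0,z0,z1]),(z1,[z0,z1])]],
    .base (.leafM k3 [k3,k4,k5,k0,k1,k2] [(z1,[z0,z0,y1,z1])] []),
    .base (.leafM k0 [k1,k2,k3,k4,k5,k0] [(z1,[y1,y1,z0,z1])] []),
    .base (.leafM k3 [k5,k0,k1,k2,k3,k4] [(z1,[z1,z0,z1])] []),
    .base (.leafM k3 [k3,k4,k5,k0,k1,k2] [(z1,[z1,z1])] []),
    .base (.leafM k3 [k0,k1,k2,k3,k4,k5] [(z1,[y1,z0,y1,z1])] []),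
    .lp k0 [(nat_lit 640),(nat_lit 652),(nat_lit 666),(nat_lit 656),(nat_lit 634),(nat_lit 590)] [k13,k13,k7,k7,k0,k0,
    k5,k5,k16,k16,k38,k38] k0 [[k0,k0,k8,k0,k0,k0,k8,k0,k0,k26,k0,k0],[k0,k0,k0,k0,k0,k10,k18,k0,k0,k0,k0,k0],[k0,k0,
    k0,k0,k0,k54,k10,k0,k0,k8,k46,k0],[k0,k8,k0,k0,k0,k0,k2,k0,k0,k20,k6,k0],[k10,k0,k0,k54,k0,k0,k0,k0,k0,k6,k0,k8],
    [k0,k0,k0,k0,k0,k0,k8,k12,k0,k6,k0,k8],[k0,k0,k0,k0,k12,k0,k0,k12,k38,k4,k24,k0],[k18,k8,k2,k10,k8,k0,k0,k0,k0,k0,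
    k0,k0],[k0,k26,k20,k8,k6,k6,k0,k4,k0,k0,k0,k0],[k0,k0,k0,k0,k0,k0,k0,k38,k34,k0,k50,k26],[k0,k0,k0,k0,k8,k8,k0,k0,
    k26,k0,k0,k0],[k0,k0,k6,k46,k0,k0,k0,k24,k50,k0,k0,k0]] (nat_lit 1920) k5
    [[(k11,(nat_lit 565)),(k2,(nat_lit 600)),(k10,(nat_lit 615)),(k6,(nat_lit 624)),(k9,(nat_lit 637)),(k0,
    (nat_lit 640)),(k1,(nat_lit 640)),(k3,(nat_lit 646)),(k5,(nat_lit 647)),(k7,(nat_lit 656)),(k4,(nat_lit 661)),(k8,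
    (nat_lit 663))],[(k8,(nat_lit 611)),(k10,(nat_lit 615)),(k11,(nat_lit 615)),(k9,(nat_lit 629)),(k0,(nat_lit 640)),
    (k1,(nat_lit 640)),(k5,(nat_lit 645)),(k2,(nat_lit 646)),(k3,(nat_lit 646)),(k4,(nat_lit 653)),(k7,(nat_lit 658)),
    (k6,(nat_lit 666))],[(k10,(nat_lit 621)),(k9,(nat_lit 625)),(k8,(nat_lit 643)),(k0,(nat_lit 646)),(k1,
    (nat_lit 646)),(k11,(nat_lit 647)),(k4,(nat_lit 649)),(k3,(nat_lit 652)),(k7,(nat_lit 654)),(k5,(nat_lit 659)),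
    (k2,(nat_lit 660)),(k6,(nat_lit 662))],[(k1,(nat_lit 600)),(k4,(nat_lit 605)),(k10,(nat_lit 627)),(k9,
    (nat_lit 633)),(k8,(nat_lit 635)),(k11,(nat_lit 641)),(k0,(nat_lit 646)),(k2,(nat_lit 652)),(k7,(nat_lit 654)),
    (k6,(nat_lit 656)),(k5,(nat_lit 659)),(k3,(nat_lit 660))],[(k8,(nat_lit 630)),(k11,(nat_lit 636)),(k0,
    (nat_lit 645)),(k1,(nat_lit 647)),(k9,(nat_lit 648)),(k2,(nat_lit 659)),(k3,(nat_lit 659)),(k4,(nat_lit 666)),(k5,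
    (nat_lit 666)),(k6,(nat_lit 671)),(k10,(nat_lit 674)),(k7,(nat_lit 715))],[(k2,(nat_lit 605)),(k10,(nat_lit 620)),
    (k11,(nat_lit 634)),(k8,(nat_lit 644)),(k3,(nat_lit 649)),(k0,(nat_lit 653)),(k1,(nat_lit 661)),(k7,
    (nat_lit 661)),(k9,(nat_lit 662)),(k4,(nat_lit 666)),(k5,(nat_lit 666)),(k6,(nat_lit 669))],[(k10,(nat_lit 615)),
    (k11,(nat_lit 629)),(k9,(nat_lit 637)),(k8,(nat_lit 639)),(k6,(nat_lit 644)),(k2,(nat_lit 654)),(k3,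
    (nat_lit 654)),(k1,(nat_lit 656)),(k7,(nat_lit 656)),(k0,(nat_lit 658)),(k4,(nat_lit 661)),(k5,(nat_lit 715))],
    [(k11,(nat_lit 585)),(k10,(nat_lit 623)),(k1,(nat_lit 624)),(k8,(nat_lit 641)),(k6,(nat_lit 644)),(k7,
    (nat_lit 644)),(k9,(nat_lit 645)),(k2,(nat_lit 656)),(k3,(nat_lit 662)),(k0,(nat_lit 666)),(k4,(nat_lit 669)),(k5,
    (nat_lit 671))],[(k11,(nat_lit 616)),(k3,(nat_lit 625)),(k0,(nat_lit 629)),(k2,(nat_lit 633)),(k10,(nat_lit 636)),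
    (k1,(nat_lit 637)),(k7,(nat_lit 637)),(k6,(nat_lit 645)),(k9,(nat_lit 646)),(k5,(nat_lit 648)),(k4,(nat_lit 662)),
    (k8,(nat_lit 672))],[(k0,(nat_lit 611)),(k11,(nat_lit 612)),(k5,(nat_lit 630)),(k2,(nat_lit 635)),(k7,
    (nat_lit 639)),(k6,(nat_lit 641)),(k3,(nat_lit 643)),(k4,(nat_lit 644)),(k10,(nat_lit 662)),(k1,(nat_lit 663)),
    (k8,(nat_lit 668)),(k9,(nat_lit 672))],[(k11,(nat_lit 556)),(k10,(nat_lit 564)),(k1,(nat_lit 565)),(k6,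
    (nat_lit 585)),(k8,(nat_lit 612)),(k0,(nat_lit 615)),(k9,(nat_lit 616)),(k7,(nat_lit 629)),(k4,(nat_lit 634)),(k5,
    (nat_lit 636)),(k2,(nat_lit 641)),(k3,(nat_lit 647))],[(k11,(nat_lit 564)),(k10,(nat_lit 590)),(k0,(nat_lit 615)),
    (k1,(nat_lit 615)),(k7,(nat_lit 615)),(k4,(nat_lit 620)),(k3,(nat_lit 621)),(k6,(nat_lit 623)),(k2,(nat_lit 627)),
    (k9,(nat_lit 636)),(k8,(nat_lit 662)),(k5,(nat_lit 674))]]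
    [[k2,k1,k0,k0,k0,k0],[k2,k0,k0,k0,k1,k0],[k2,k0,k0,k0,k0,k1],[k1,k2,k0,k0,k0,k0],[k1,k1,k1,k0,k0,k0],[k1,k1,k0,k0,
    k1,k0],[k1,k1,k0,k0,k0,k1],[k1,k0,k1,k0,k0,k1],[k1,k0,k0,k1,k1,k0],[k1,k0,k0,k1,k0,k1],[k1,k0,k0,k0,k1,k1],[k1,k0,
    k0,k0,k0,k2],[k0,k2,k1,k0,k0,k0],[k0,k1,k1,k0,k1,k0],[k0,k1,k1,k0,k0,k1],[k0,k1,k0,k1,k0,k1],[k0,k1,k0,k0,k1,k1],
    [k0,k1,k0,k0,k0,k2],[k0,k0,k1,k0,k1,k1],[k0,k0,k1,k0,k0,k2],[k0,k0,k0,k2,k0,k1],[k0,k0,k0,k1,k1,k1],[k0,k0,k0,k1,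
    k0,k2],[k0,k0,k0,k0,k1,k2],[k0,k0,k0,k0,k0,k3]]
    [.ref k25 k0 [(z1,[z0,z1]),(z1,[z3,y2]),(z1,[z0,z0,z0,z1]),(z1,[y6,z4,z3,z0,z3]),(z1,[z9,y7,y6,y1,y3,z3])],
    .ref k25 k0 [(z1,[z0,z1]),(z3,[z3,y1,z6,z1,z3,y3]),(z1,[z0,z0,z0,z1]),(z3,[y6,z2,y3,y2,z3,z6]),(z1,[z3,y2])],
    .ref k25 k0 [(z1,[z0,z1]),(z2,[y3,z2,z3]),(z1,[z0,z0,z0,z1]),(z1,[z3,y2,z0,z0,z3]),(z2,[y9,z4,y3,y2,y6,z6])],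
    .ref k25 k0 [(z1,[z0,z1]),(z2,[z3,y1]),(z1,[z0,z0,z0,z1]),(z1,[y3,z1,z3,z0,z3]),(z2,[z9,y5,y12,y2,y6,z6])],
    .ref k25 k0 [(z1,[z0,z1]),(z1,[z3,y1,z0,y1]),(z1,[z0,z0,z0,z1]),(z1,[y6,z2,z3,z2,z3]),(z1,[z9,y4,y6,y4,y3,z3])],
    .ref k25 k0 [(z1,[z0,z1]),(z4,[z3,z0,z6,z1,z3,y3]),(z1,[z0,z0,z0,z1]),(z2,[y3,z0,z0,y1,z3,z3]),(z4,[z9,y4,y6,y1,
    y3,z3])],.ref k25 k0 [(z1,[z0,z1]),(z1,[y3,z1,z3]),(z1,[z0,z0,z0,z1]),(z1,[z6,y2,y3,z0,z3]),(z1,[y9,z2,z3,y1,y3,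
    z3])],.ref k25 k0 [(z1,[z0,z1]),(z2,[y3,z1,z3,z1]),(z1,[z0,z0,z0,z1]),(z1,[z3,y1,z0,y1,z3]),(z2,[y9,z1,y3,z1,y6,
    z6])],.ref k25 k0 [(z1,[z0,z1]),(z1,[z3,z0,z3,z1,z0,y3]),(z1,[z0,z0,z0,z1]),(z1,[y6,z0,y3,y2,z3,z6]),(z1,[z9,y1,
    z3,z2,y3,y6])],.ref k25 k0 [(z1,[z0,z1]),(z4,[y3,z1,z6,z0,z3]),(z1,[z0,z0,z0,z1]),(z2,[z3,y1,z0,z0,z3]),(z4,[y9,
    y1,y6,y4,y3,z12])],.ref k25 k0 [(z1,[z0,z1]),(z1,[z3,z0,z3,z1,z3,y3]),(z1,[z0,z0,z0,z1]),(z1,[y6,z0,y3,y2,y3,z6]),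
    (z1,[z9,y1,z3,z2,z6,y6])],.ref k25 k0 [(z1,[z0,z1]),(z4,[y3,z1,z6]),(z1,[z0,z0,z0,z1]),(z2,[z3,y1,z0,z0,z6]),(z4,
    [y9,y1,y6,y4,y12,z12])],.ref k25 k0 [(z1,[z0,z1]),(z2,[z3,z0,z0,y1]),(z1,[z0,z0,z0,z1]),(z1,[y3,z0,z3,z1,z3]),(z2,
    [z9,y2,y12,y5,y6,z6])],.ref k25 k0 [(z1,[z0,z1]),(z4,[z3,z1,z6,z0,z3,y3]),(z1,[z0,z0,z0,z1]),(z2,[y3,y1,z0,z0,z3,
    z3]),(z4,[z9,y1,y6,y4,y3,z3])],.ref k25 k0 [(z1,[z0,z1]),(z1,[y3,z0,z3,z1]),(z1,[z0,z0,z0,z1]),(z1,[z6,z0,y3,y2,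
    z3]),(z1,[y9,y1,z3,z2,y3,z3])],.ref k25 k0 [(z1,[z0,z1]),(z1,[y1,z0,z2,z0,z1]),(z1,[z0,z0,z0,z1]),(z1,[z2,z0,y1,
    z0,z1]),(z1,[y3,y1,z0,y1,z0,z3])],.ref k25 k0 [(z1,[z0,z1]),(z2,[z3,z1,z3,z1,z3,y3]),(z1,[z0,z0,z0,z1]),(z1,[y3,
    y1,z0,y1,z0,z3]),(z2,[z9,z1,y3,z1,z3,y3])],.ref k25 k0 [(z1,[z0,z1]),(z1,[y1,z0,z2]),(z1,[z0,z0,z0,z1]),(z1,[z2,
    z0,y1,z0,z3]),(z1,[y3,y1,z0,y1,y3,z3])],.ref k25 k0 [(z1,[z0,z1]),(z1,[z3,z1,z3,z0,z3,y3]),(z1,[z0,z0,z0,z1]),(z1,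
    [y6,y2,y3,z0,y3,z6]),(z1,[z9,z2,z3,y1,z6,y6])],.ref k25 k0 [(z1,[z0,z1]),(z4,[y3,z0,z6,z1]),(z1,[z0,z0,z0,z1]),
    (z2,[z3,z0,z0,y1,z6]),(z4,[y9,y4,y6,y1,y12,z12])],.ref k25 k0 [(z1,[z0,z1]),(z2,[y1,z0,z3,z0,z2]),(z1,[z0,z0,z0,
    z1]),(z1,[z1,z0,z0,z0,z1]),(z2,[y3,y2,y3,y2,z0,z6])],.ref k25 k0 [(z1,[z0,z1]),(z1,[y3,y1,z0,y1,z0,z3]),(z1,[z0,
    z0,z0,z1]),(z1,[z6,z2,z3,z2,z3,y6]),(z1,[y9,y4,y6,y4,y3,z12])],.ref k25 k0 [(z1,[z0,z1]),(z2,[y1,z0,z3,z0,z1]),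
    (z1,[z0,z0,z0,z1]),(z1,[z1,z0,z0,z0,z2]),(z2,[y3,y2,y3,y2,y3,z6])],.ref k25 k0 [(z1,[z0,z1]),(z1,[y3,y1,z0,y1,y3,
    z3]),(z1,[z0,z0,z0,z1]),(z1,[z6,z2,z3,z2,z9,y6]),(z1,[y9,y4,y6,y4,y12,z12])],.ref k25 k0 [(z1,[z0,z1]),(z2,[y1,z0,
    z3]),(z1,[z0,z0,z0,z1]),(z1,[z1,z0,z0,z0,z3]),(z2,[y3,y2,y3,y2,y6,z6])]],
    .base (.leafM k0 [k0,k1,k2,k3,k4,k5] [(z6,[z0,z3,z2,z1])] [])]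

theorem hB6_171_35 : blkB [0, 0, 0, 0, 0, 0] [] sp6 hS6_171 (pcls (n := 6) [0, 0, 0, 0, 0, 0]) hD6_171 560 35 hN6_171_35 = true := by
  decide +kernel

/-- nodes 432 to 443 -/
noncomputable def hN6_171_36 : List HM :=
  [.base (.leafM k3 [k0,k1,k2,k3,k4,k5] [(z3,[z0,z1,z0,z1])] []),
    .lp k0 [k172,k184,k184,k166,k164,k158] [k9,k3,k0,k0,k0,k0,k9,k9,k10,k10,k16,k10] k0 [[k0,k0,k4,k2,k0,k0,k0,k0,k6,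
    k16,k0,k12],[k0,k0,k0,k0,k4,k0,k10,k0,k0,k0,k0,k0],[k0,k2,k0,k2,k0,k0,k0,k18,k0,k2,k0,k0],[k0,k4,k0,k0,k0,k0,k0,
    k14,k0,k0,k16,k0],[k0,k0,k0,k0,k0,k4,k14,k0,k0,k0,k0,k12],[k4,k0,k0,k0,k0,k0,k10,k0,k4,k0,k0,k8],[k0,k0,k14,k18,
    k0,k0,k0,k0,k36,k36,k0,k0],[k10,k0,k0,k0,k10,k14,k0,k0,k0,k0,k0,k6],[k0,k16,k0,k2,k0,k0,k0,k36,k0,k0,k42,k0],[k0,
    k6,k0,k0,k4,k0,k0,k36,k0,k0,k42,k0],[k0,k12,k0,k0,k8,k12,k6,k0,k0,k0,k0,k0],[k0,k0,k16,k0,k0,k0,k0,k0,k42,k42,k0,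
    k0]] (nat_lit 516) k5
    [[(k8,k129),(k11,k129),(k5,k165),(k10,k165),(k9,k171),(k0,k172),(k1,k178),(k6,k178),(k2,k181),(k7,k184),(k4,k189),
    (k3,k193)],[(k10,k147),(k8,k149),(k11,k159),(k9,k165),(k0,k166),(k7,k166),(k5,k171),(k1,k172),(k2,k173),(k3,k175),
    (k6,k176),(k4,k179)],[(k9,k164),(k10,k168),(k7,k171),(k0,k175),(k6,k175),(k8,k180),(k3,k184),(k4,k184),(k5,k186),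
    (k2,k188),(k11,k190),(k1,k193)],[(k6,k157),(k8,k172),(k0,k173),(k11,k174),(k7,k175),(k1,k181),(k2,k182),(k4,k184),
    (k5,k184),(k10,k184),(k3,k188),(k9,k188)],[(k6,k161),(k1,k165),(k10,k168),(k0,k171),(k8,k174),(k7,k175),(k11,
    k176),(k2,k184),(k4,k184),(k3,k186),(k5,k186),(k9,k192)],[(k10,k156),(k9,k160),(k11,k174),(k7,k175),(k8,k178),(k0,
    k179),(k4,k180),(k2,k184),(k3,k184),(k5,k184),(k6,k185),(k1,k189)],[(k10,k151),(k9,k155),(k11,k161),(k8,k165),(k0,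
    k166),(k7,k170),(k3,k171),(k2,k175),(k4,k175),(k5,k175),(k6,k180),(k1,k184)],[(k8,k129),(k11,k129),(k2,k157),(k10,
    k159),(k5,k161),(k9,k165),(k6,k166),(k3,k175),(k0,k176),(k1,k178),(k7,k180),(k4,k185)],[(k10,k152),(k7,k155),(k4,
    k160),(k3,k164),(k9,k164),(k0,k165),(k6,k165),(k1,k171),(k2,k188),(k5,k192),(k8,(nat_lit 200)),(k11,
    (nat_lit 200))],[(k1,k129),(k6,k129),(k0,k149),(k8,k164),(k11,k164),(k7,k165),(k2,k172),(k5,k174),(k4,k178),(k3,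
    k180),(k9,(nat_lit 200)),(k10,(nat_lit 200))],[(k1,k129),(k6,k129),(k0,k159),(k7,k161),(k8,k164),(k11,k164),(k2,
    k174),(k4,k174),(k5,k176),(k3,k190),(k9,(nat_lit 200)),(k10,(nat_lit 200))],[(k0,k147),(k7,k151),(k9,k152),(k10,
    k152),(k4,k156),(k6,k159),(k1,k165),(k3,k168),(k5,k168),(k2,k184),(k8,(nat_lit 200)),(k11,(nat_lit 200))]]
    [[k2,k0,k0,k0,k1,k0],[k2,k0,k0,k0,k0,k1],[k1,k1,k0,k0,k1,k0],[k1,k1,k0,k0,k0,k1],[k1,k0,k1,k0,k0,k1],[k1,k0,k1,k0,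
    k1,k0],[k1,k0,k0,k1,k1,k0],[k1,k0,k0,k1,k0,k1],[k1,k0,k0,k0,k2,k0],[k1,k0,k0,k0,k1,k1],[k1,k0,k0,k0,k0,k2],[k0,k1,
    k0,k2,k0,k0],[k0,k1,k0,k1,k1,k0],[k0,k1,k0,k1,k0,k1],[k0,k1,k0,k0,k1,k1],[k0,k0,k1,k1,k1,k0],[k0,k0,k1,k1,k0,k1],
    [k0,k0,k1,k0,k1,k1],[k0,k0,k1,k0,k0,k2],[k0,k0,k0,k2,k1,k0],[k0,k0,k0,k2,k0,k1],[k0,k0,k0,k1,k2,k0],[k0,k0,k0,k1,
    k1,k1],[k0,k0,k0,k1,k0,k2]]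
    [.ref (nat_lit 430) k6 [(z1,[z0,y1,y1,y1,z3]),(z1,[z1]),(z1,[z0,z0,z1]),(z3,[y3,z2,z0,z1])],.ref k33 k6 [(z1,[z0,
    y1,y1,y1,z3]),(z2,[z3,z1,z1,z1,y3]),(z1,[z0,z0,z1]),(z1,[y3,z1,y1,z0,z3])],.ref (nat_lit 431) k10 [(z1,[z0,z0,
    z1]),(z3,[z0,z2,z0,z1]),(z1,[z0,y1,y1,y1,z3]),(z1,[z6,y2,y2,y1])],.ref k33 k6 [(z1,[z0,y1,y1,y1,z3]),(z1,[z3,z1,
    z0,z1,y3]),(z1,[z0,z0,z1]),(z1,[y6,z0,z0,y1,z6])],.ref k33 k6 [(z1,[z0,y1,y1,y1,z3]),(z1,[y3,z1,y1,z0,z3]),(z1,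
    [z0,z0,z1]),(z1,[z6,z0,z2,z1,y6])],.ref (nat_lit 396) k0 [(z3,[y3,z2,z0,z1]),(z1,[z0,z0,z1]),(z3,[z6,y2,z0,y1]),
    (z1,[y3,z1,z0,z1])],.ref k33 k6 [(z1,[z0,y1,y1,y1,z3]),(z2,[z3,z1]),(z1,[z0,z0,z1]),(z1,[y3,z1,z0,z1])],
    .ref (nat_lit 432) k4 [(z1,[y3,y2,y1,y1,z3]),(z1,[z3,z1,z1,z1,y3]),(z3,[z0,z2,z0,z1]),(z1,[z0,z0,z1])],
    .ref (nat_lit 249) k9 [(z1,[z0,y1,y1,y1,z3]),(z1,[z1]),(z1,[y3,y2]),(z3,[z0,z2,z0,z1])],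
    .ref (nat_lit 431) k10 [(z1,[z0,z0,z1]),(z3,[z0,z2,z0,z1]),(z1,[z0,y1,y1,y1,z3]),(z1,[z6,z0,z2,z1,y6])],
    .ref k33 k6 [(z1,[z0,y1,y1,y1,z3]),(z1,[z3,z2,z2,z2,y6]),(z1,[z0,z0,z1]),(z1,[y6,y2,y4,y3,z12])],
    .ref (nat_lit 396) k0 [(z6,[z3,z2,y1]),(z1,[z0,z0,z1]),(z3,[y3,z0,z1,z1]),(z2,[z3,z0,y1])],.ref k33 k6 [(z1,[z0,
    y1,y1,y1,z3]),(z1,[z3,z1,y1]),(z1,[z0,z0,z1]),(z1,[y6,z0,z2,z1])],.ref (nat_lit 396) k0 [(z3,[z3,z2,z0,z1,y3]),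
    (z1,[z0,z0,z1]),(z3,[y6,y2,z0,y1,z6]),(z1,[z3,z1,z0,z1,y3])],.ref k150 k0 [(z3,[z3,z2,z0,z1,y3]),(z1,[z0,z0,z1]),
    (z3,[y6,y2,z0,y1,z6]),(z1,[z3,z1,z0,z1,y3])],.ref k33 k6 [(z1,[z0,y1,y1,y1,z3]),(z1,[y3,z1,z0,z1]),(z1,[z0,z0,
    z1]),(z1,[z6,z0,z0,y1])],.ref (nat_lit 431) k10 [(z1,[z0,z0,z1]),(z3,[z0,z2,z0,z1]),(z1,[z0,y1,y1,y1,z3]),(z1,[y6,
    y2,y2,y1,z6])],.ref (nat_lit 432) k4 [(z1,[z3,y1,z1,z0,y3]),(z1,[y3,z0,y1,z0,z3]),(z3,[z0,z2,z0,z1]),(z1,[z0,z0,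
    z1])],.ref k33 k6 [(z1,[z0,y1,y1,y1,z3]),(z2,[y3,z0,y2,y1,z6]),(z1,[z0,z0,z1]),(z1,[z3,z2,z2,z2,y6])],
    .ref (nat_lit 432) k4 [(z1,[y3,y2]),(z1,[z3,z1]),(z3,[z0,z2,z0,z1]),(z1,[z0,z0,z1])],.ref (nat_lit 396) k0 [(z6,
    [z3,z3,z1,z1,y3]),(z1,[z0,z0,z1]),(z3,[y3,y1,y1,z0,z3]),(z2,[z3,z1,z1,z1,y3])],.ref (nat_lit 431) k10 [(z1,[z0,z0,
    z1]),(z3,[z0,z2,z0,z1]),(z1,[z0,y1,y1,y1,z3]),(z1,[z6,z0,z0,y1])],.ref k33 k6 [(z1,[z0,y1,y1,y1,z3]),(z1,[z3,z2,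
    z1,z1,y3]),(z1,[z0,z0,z1]),(z1,[y6,y2,y2,y1,z6])],.ref (nat_lit 396) k0 [(z3,[z3,z3,z2,z2,y6]),(z1,[z0,z0,z1]),
    (z3,[y6,y4,y4,y3,z12]),(z1,[z3,z2,z2,z2,y6])]],
    .base (.leafM k3 [k1,k2,k3,k4,k5,k0] [(z2,[y1,y2,z0,y1,z2])] []),
    .base (.leafM k0 [k0,k1,k2,k3,k4,k5] [(z2,[z0,z1,z1,z2])] []),
    .lp k0 [(nat_lit 994),(nat_lit 976),(nat_lit 1000),(nat_lit 940),(nat_lit 904),(nat_lit 934)] [k3,k3,k12,k12,k0,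
    k0,k30,k30,k48,k48,k33,k33] k0 [[k0,k24,k0,k192,k60,k0,k0,k0,k0,k48,k0,k0],[k0,k0,k0,k0,k0,k0,k12,k36,k0,k24,
    (nat_lit 222),k30],[k0,k192,k0,k0,k0,k132,k96,k0,k0,k12,(nat_lit 222),k54],[k0,k0,k24,k0,k0,k156,k0,k0,k0,k24,k0,
    k0],[k0,k0,k156,k132,k0,k168,k24,k0,k0,k0,k0,k0],[k0,k60,k0,k0,k0,k0,k36,k0,k0,k0,k90,k42],[k36,k0,k0,k0,k0,k0,k0,
    k132,(nat_lit 216),k0,k0,k6],[k12,k0,k0,k96,k36,k24,k0,k0,k0,k0,k0,k66],[k24,k48,k24,k12,k0,k0,k0,k0,k0,k0,k0,k0],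
    [k0,k0,k0,k0,k0,k0,k0,(nat_lit 216),(nat_lit 204),k0,k6,k6],[k30,k0,k0,k54,k42,k0,k66,k6,k6,k0,k0,k0],
    [(nat_lit 222),k0,k0,(nat_lit 222),k90,k0,k0,k0,k6,k0,k0,k0]] (nat_lit 2880) k5
    [[(k2,(nat_lit 763)),(k3,(nat_lit 763)),(k7,(nat_lit 877)),(k8,(nat_lit 955)),(k9,(nat_lit 955)),(k11,
    (nat_lit 958)),(k10,(nat_lit 964)),(k1,(nat_lit 994)),(k0,(nat_lit 1024)),(k6,(nat_lit 1033)),(k4,(nat_lit 1039)),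
    (k5,(nat_lit 1051))],[(k2,(nat_lit 793)),(k8,(nat_lit 901)),(k7,(nat_lit 907)),(k0,(nat_lit 970)),(k6,
    (nat_lit 979)),(k3,(nat_lit 985)),(k9,(nat_lit 985)),(k11,(nat_lit 988)),(k4,(nat_lit 997)),(k5,(nat_lit 997)),
    (k1,(nat_lit 1024)),(k10,(nat_lit 1186))],[(k1,(nat_lit 763)),(k8,(nat_lit 916)),(k6,(nat_lit 922)),(k10,
    (nat_lit 925)),(k9,(nat_lit 928)),(k7,(nat_lit 958)),(k2,(nat_lit 976)),(k0,(nat_lit 985)),(k3,(nat_lit 1000)),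
    (k11,(nat_lit 1003)),(k4,(nat_lit 1048)),(k5,(nat_lit 1180))],[(k1,(nat_lit 763)),(k0,(nat_lit 793)),(k9,
    (nat_lit 844)),(k4,(nat_lit 856)),(k10,(nat_lit 901)),(k8,(nat_lit 928)),(k6,(nat_lit 958)),(k3,(nat_lit 976)),
    (k11,(nat_lit 979)),(k5,(nat_lit 988)),(k2,(nat_lit 1000)),(k7,(nat_lit 1114))],[(k4,(nat_lit 844)),(k8,
    (nat_lit 928)),(k9,(nat_lit 952)),(k5,(nat_lit 976)),(k11,(nat_lit 979)),(k2,(nat_lit 988)),(k0,(nat_lit 997)),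
    (k1,(nat_lit 1051)),(k6,(nat_lit 1066)),(k7,(nat_lit 1102)),(k3,(nat_lit 1180)),(k10,(nat_lit 1189))],[(k4,
    (nat_lit 832)),(k5,(nat_lit 844)),(k2,(nat_lit 856)),(k9,(nat_lit 928)),(k8,(nat_lit 952)),(k11,(nat_lit 967)),
    (k7,(nat_lit 970)),(k0,(nat_lit 997)),(k6,(nat_lit 1006)),(k1,(nat_lit 1039)),(k3,(nat_lit 1048)),(k10,
    (nat_lit 1057))],[(k1,(nat_lit 877)),(k9,(nat_lit 886)),(k10,(nat_lit 895)),(k0,(nat_lit 907)),(k8,(nat_lit 922)),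
    (k11,(nat_lit 937)),(k3,(nat_lit 958)),(k6,(nat_lit 964)),(k4,(nat_lit 970)),(k5,(nat_lit 1102)),(k7,
    (nat_lit 1108)),(k2,(nat_lit 1114))],[(k11,(nat_lit 721)),(k6,(nat_lit 808)),(k3,(nat_lit 922)),(k8,
    (nat_lit 922)),(k9,(nat_lit 922)),(k10,(nat_lit 931)),(k2,(nat_lit 958)),(k7,(nat_lit 964)),(k0,(nat_lit 979)),
    (k4,(nat_lit 1006)),(k1,(nat_lit 1033)),(k5,(nat_lit 1066))],[(k2,(nat_lit 844)),(k10,(nat_lit 853)),(k7,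
    (nat_lit 886)),(k11,(nat_lit 919)),(k6,(nat_lit 922)),(k3,(nat_lit 928)),(k4,(nat_lit 928)),(k5,(nat_lit 952)),
    (k1,(nat_lit 955)),(k0,(nat_lit 985)),(k9,(nat_lit 1036)),(k8,(nat_lit 1120))],[(k0,(nat_lit 901)),(k3,
    (nat_lit 916)),(k11,(nat_lit 919)),(k6,(nat_lit 922)),(k7,(nat_lit 922)),(k10,(nat_lit 925)),(k2,(nat_lit 928)),
    (k5,(nat_lit 928)),(k4,(nat_lit 952)),(k1,(nat_lit 955)),(k8,(nat_lit 1108)),(k9,(nat_lit 1120))],[(k6,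
    (nat_lit 721)),(k11,(nat_lit 730)),(k8,(nat_lit 919)),(k9,(nat_lit 919)),(k10,(nat_lit 928)),(k7,(nat_lit 937)),
    (k1,(nat_lit 958)),(k4,(nat_lit 967)),(k2,(nat_lit 979)),(k5,(nat_lit 979)),(k0,(nat_lit 988)),(k3,
    (nat_lit 1003))],[(k9,(nat_lit 853)),(k7,(nat_lit 895)),(k2,(nat_lit 901)),(k3,(nat_lit 925)),(k8,(nat_lit 925)),
    (k11,(nat_lit 928)),(k6,(nat_lit 931)),(k10,(nat_lit 934)),(k1,(nat_lit 964)),(k4,(nat_lit 1057)),(k0,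
    (nat_lit 1186)),(k5,(nat_lit 1189))]]
    [[k2,k1,k0,k0,k0,k0],[k1,k2,k0,k0,k0,k0],[k1,k1,k1,k0,k0,k0],[k1,k1,k0,k1,k0,k0],[k1,k1,k0,k0,k1,k0],[k1,k1,k0,k0,
    k0,k1],[k1,k0,k0,k1,k1,k0],[k1,k0,k0,k2,k0,k0],[k1,k0,k0,k1,k0,k1],[k1,k0,k0,k0,k1,k1],[k0,k2,k0,k0,k1,k0],[k0,k2,
    k1,k0,k0,k0],[k0,k1,k1,k0,k1,k0],[k0,k1,k0,k1,k1,k0],[k0,k1,k0,k1,k0,k1],[k0,k1,k0,k0,k1,k1],[k0,k1,k1,k0,k0,k1],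
    [k0,k1,k0,k0,k0,k2],[k0,k0,k3,k0,k0,k0],[k0,k0,k2,k0,k1,k0],[k0,k0,k1,k1,k1,k0],[k0,k0,k1,k0,k1,k1],[k0,k0,k0,k2,
    k1,k0],[k0,k0,k0,k2,k0,k1],[k0,k0,k0,k1,k1,k1],[k0,k0,k0,k1,k0,k2],[k0,k0,k0,k0,k1,k2],[k0,k0,k0,k0,k0,k3]]
    [.ref k25 k0 [(z5,[z8,y1,y4]),(z5,[y1,z2,z8]),(z5,[y4,z8,z2,z15]),(z10,[z22,y44,y11,z0,z15]),(z10,[y32,z34,z1,y30,
    y15,z30])],.ref k25 k0 [(z1,[z4,y1,y4]),(z2,[y1,z1,z4]),(z1,[y2,z2,z2,z3]),(z2,[z11,y11,y11,z0,z3]),(z2,[y16,z10,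
    z13,y6,y3,z6])],.ref k25 k0 [(z1,[z8,y5,y4,y8]),(z1,[y1,z1,z2,z1]),(z1,[y4,z4,z2,z7]),(z2,[z22,y22,y11,y22,z3]),
    (z2,[y32,z26,z13,z26,y3,z6])],.ref k25 k0 [(z3,[z4,z5,y2,z0,y2]),(z12,[y2,z2,z19,z0,z1]),(z3,[y2,z2,z1,z9,z1]),
    (z12,[z22,y22,y11,z0,z7]),(z6,[y16,y2,y1,y18,y1,z18])],.ref k25 k0 [(z3,[y8,z9,z0,y8,y4,z8]),(z6,[z2,z0,z9,z2,z1,
    y2]),(z3,[z4,z0,z0,z13,z2,y4]),(z3,[y11,z0,z0,y11,y1,z11]),(z6,[z32,y18,y9,z14,z7,y14])],.ref k25 k0 [(z3,[z8,z1,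
    y4]),(z3,[y1,z1,z5]),(z3,[y4,z4,z2,z9]),(z6,[z22,y22,y11,z0,z9]),(z6,[y32,z14,z7,y18,y9,z18])],.ref k25 k0 [(z1,
    [z8,z3,z4,z8,z0,y8]),(z1,[y1,z0,z1,y1,z0,z1]),(z1,[y4,z0,y2,y1,z0,z4]),(z2,[z22,z0,z11,z22,z3,y22]),(z2,[y32,y6,
    y19,y38,y3,z38])],.ref k25 k0 [(z5,[z4,z11,z0,z0,y4]),(z10,[y1,z1,z15,z0,z1]),(z5,[y2,z2,z0,z15,z2]),(z10,[z11,
    y11,z0,z0,z4]),(z10,[y16,y14,y15,y30,z1,z30])],.ref k25 k0 [(z7,[z8,z13,z0,z0,y4]),(z14,[y2,z2,z21,z0,z1]),(z7,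
    [y4,z4,z0,z21,z2]),(z7,[z11,y11,z0,z0,z5]),(z14,[y32,y10,y21,y42,y5,z42])],.ref k25 k0 [(z1,[y4,z3,y2,y4,y2,z4]),
    (z4,[z2,z0,z7,z2,z1,y2]),(z1,[z2,z0,z1,z5,z1,y2]),(z4,[y22,z0,y11,y22,y5,z22]),(z2,[z16,y6,z5,z10,z5,y10])],
    .ref k25 k0 [(z3,[y4,z5,z2,y4,y2,z4]),(z12,[z2,z2,z17,z2,z1,y2]),(z3,[z2,z2,y1,z11,z1,y2]),(z12,[y22,y22,z11,y22,
    z7,z22]),(z6,[z16,y2,y17,y2,y1,z2])],.ref k25 k0 [(z1,[y4,z3,z4,z4]),(z2,[z1,z0,z2,y1]),(z1,[z2,z0,y2,z1]),(z2,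
    [y11,z0,z11,z11,z3]),(z2,[z16,y6,y19,y22,y3,z6])],.ref k25 k0 [(z7,[y8,z13,z0,z0,y4,z8]),(z14,[z2,z2,z21,z0,z1,
    y2]),(z7,[z4,z4,z0,z21,z2,y4]),(z7,[y11,y11,z0,z0,z5,z11]),(z14,[z32,y10,y21,y42,y5,z10])],.ref k25 k0 [(z1,[y4,
    y1,z0,y4,z0,z4]),(z2,[z1,z1,z3,z1,z0,y1]),(z1,[z2,z2,z0,z5,z0,y2]),(z2,[y11,y11,z0,y11,z3,z11]),(z2,[z16,z10,y3,
    z10,y3,y10])],.ref k25 k0 [(z1,[z2,z3,y1,z0,y1]),(z8,[y2,z0,z13,z0,z1]),(z2,[y2,z0,z1,z6,z1]),(z8,[z22,z0,y11,z0,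
    z1]),(z2,[y8,y6,z1,y6,z1,z6])],.ref k25 k0 [(z5,[y8,z7,z0,y8,y4,z8]),(z10,[z2,z2,z15,z2,z1,y2]),(z5,[z4,z4,z0,z19,
    z2,y4]),(z5,[y11,y11,z0,y11,z2,z11]),(z10,[z32,z2,y15,z2,z1,y2])],.ref k25 k0 [(z1,[y8,z3,z4,z8]),(z1,[z1,z0,z1,
    y1]),(z1,[z4,z0,y2,y1]),(z2,[y22,z0,z11,z22,z3]),(z2,[z32,y6,y19,y38,y3,z6])],.ref k25 k0 [(z1,[z8,z3,y4]),(z1,
    [y1,z0,z2]),(z1,[y4,z0,z2,z3]),(z2,[z22,z0,y11,z0,z3]),(z2,[y32,y6,z13,y6,y3,z6])],.ref k25 k0 [(z1,[y2,z3,z0,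
    z6]),(z4,[z1,z0,z6,y3]),(z1,[z1]),(z4,[y11,z0,z0,z33,z6]),(z2,[z8,y6,y3,y30,y3,z6])],.ref k25 k0 [(z2,[y2,z4,y1,
    z2,y1,z2]),(z16,[z2,z2,z25,y2,z1,y2]),(z4,[z2,z2,z1,z10,z1,y2]),(z16,[y22,y22,y11,z22,z13,z22]),(z2,[z4,y2,y1,y10,
    y1,z2])],.ref k25 k0 [(z3,[y8,z1,y4,z0,z0,z8]),(z3,[z1,z1,z5,z0,z0,y1]),(z3,[z4,z4,z2,z9,z0,y4]),(z6,[y22,y22,y11,
    z0,z9,z22]),(z6,[z32,z14,z7,y18,y9,y14])],.ref k25 k0 [(z3,[y4,z5,y2,z0,y2,z4]),(z12,[z2,z2,z19,z0,z1,y2]),(z3,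
    [z2,z2,z1,z9,z1,y2]),(z12,[y22,y22,y11,z0,z7,z22]),(z6,[z16,y2,y1,y18,y1,z2])],.ref k25 k0 [(z1,[z4,z7,z2,z4,y2,
    y4]),(z4,[y2,y2,z5,y2,z1,z2]),(z1,[y2,y2,y1,z1,z1,z2]),(z4,[z22,z22,z11,z22,y5,y22]),(z2,[y16,y22,y11,y22,z5,
    z22])],.ref k25 k0 [(z1,[z1,z3,z0,z0,y1]),(z8,[y1,z0,z12,z0,z1]),(z2,[y1,z0,z0,z6,z1]),(z8,[z11,z0,z0,z0,z1]),(z2,
    [y4,y6,y3,y6,z1,z6])],.ref k25 k0 [(z1,[y8,y5,y4,y8,z0,z8]),(z1,[z1,z1,z2,z1,z0,y1]),(z1,[z4,z4,z2,z7,z0,y4]),(z2,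
    [y22,y22,y11,y22,z3,z22]),(z2,[z32,z26,z13,z26,y3,y26])],.ref k25 k0 [(z5,[z8,z15,z0,z0,y4]),(z10,[y2,z0,z15,z0,
    z1]),(z5,[y4,z0,z0,z15,z2]),(z5,[z11,z0,z0,z0,z2]),(z10,[y32,y30,y15,y30,z1,z30])],.ref k25 k0 [(z1,[y2,z1,y1,y2,
    y1,z2]),(z8,[z2,z2,z13,z2,z1,y2]),(z2,[z2,z2,z1,z8,z1,y2]),(z8,[y22,y22,y11,y22,z1,z22]),(z2,[z8,z2,z1,z2,z1,
    y2])],.ref k25 k0 [(z1,[z4,z3]),(z2,[y1,z0,z3]),(z1,[y2,z0,z0,z3]),(z2,[z11,z0,z0,z0,z3]),(z2,[y16,y6,y3,y6,y3,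
    z6])]],
    .lp k0 [k166,k136,k164,k172,k156,k164] [k3,k3,k18,k18,k4,k4,k0,k0,k8,k8,k4,k4] k0 [[k0,k0,k0,k8,k0,k0,k8,k0,k0,k0,
    k6,k4],[k0,k0,k0,k0,k0,k2,k6,k0,k0,k8,k0,k0],[k0,k8,k0,k0,k0,k10,k18,k0,k0,k0,k0,k0],[k0,k0,k0,k0,k0,k0,k0,k0,k0,
    k4,k10,k0],[k2,k0,k0,k10,k0,k0,k0,k0,k0,k0,k0,k12],[k0,k0,k0,k0,k0,k0,k8,k4,k12,k0,k0,k6],[k0,k0,k0,k0,k4,k0,k0,
    k8,k18,k18,k0,k10],[k6,k8,k0,k18,k8,k0,k0,k0,k0,k0,k0,k14],[k8,k0,k4,k0,k0,k0,k0,k18,k0,k0,k6,k0],[k0,k0,k0,k0,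
    k12,k0,k0,k18,k0,k0,k0,k0],[k0,k4,k0,k0,k6,k12,k14,k10,k0,k0,k0,k0],[k0,k6,k10,k0,k0,k0,k0,k0,k0,k6,k12,
    k0]] (nat_lit 480) k5
    [[(k2,k151),(k1,k154),(k3,k155),(k5,k155),(k8,k155),(k0,k160),(k10,k165),(k11,k165),(k4,k171),(k9,k171),(k7,k181),
    (k6,k183)],[(k2,k143),(k3,k151),(k9,k153),(k1,k160),(k8,k161),(k10,k161),(k4,k165),(k5,k165),(k0,k166),(k7,k171),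
    (k11,k173),(k6,k175)],[(k2,k136),(k3,k136),(k8,k138),(k9,k140),(k4,k148),(k11,k150),(k0,k151),(k7,k154),(k1,k155),
    (k10,k156),(k5,k158),(k6,k162)],[(k9,k128),(k2,k136),(k3,k136),(k4,k140),(k0,k143),(k8,k146),(k5,k150),(k1,k151),
    (k6,k154),(k7,k154),(k11,k154),(k10,k160)],[(k2,k150),(k1,k155),(k8,k156),(k3,k158),(k9,k160),(k4,k164),(k5,k164),
    (k10,k164),(k11,k164),(k0,k165),(k7,k178),(k6,k186)],[(k2,k140),(k3,k148),(k10,k152),(k4,k164),(k5,k164),(k9,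
    k164),(k11,k164),(k0,k165),(k7,k168),(k1,k171),(k8,k172),(k6,k176)],[(k2,k154),(k3,k154),(k9,k156),(k11,k156),
    (k10,k162),(k8,k164),(k4,k168),(k6,k168),(k0,k171),(k7,k172),(k5,k178),(k1,k181)],[(k8,k146),(k11,k150),(k2,k154),
    (k10,k158),(k3,k162),(k6,k164),(k9,k164),(k7,k168),(k0,k175),(k4,k176),(k1,k183),(k5,k186)],[(k2,k128),(k3,k140),
    (k10,k146),(k0,k153),(k7,k156),(k5,k160),(k4,k164),(k6,k164),(k9,k164),(k1,k171),(k8,k174),(k11,k178)],[(k3,k138),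
    (k2,k146),(k6,k146),(k1,k155),(k5,k156),(k8,k156),(k10,k160),(k11,k160),(k0,k161),(k7,k164),(k4,k172),(k9,k174)],
    [(k3,k150),(k6,k150),(k2,k154),(k7,k156),(k8,k160),(k4,k164),(k5,k164),(k11,k164),(k1,k165),(k10,k170),(k0,k173),
    (k9,k178)],[(k9,k146),(k4,k152),(k3,k156),(k6,k158),(k2,k160),(k8,k160),(k0,k161),(k7,k162),(k5,k164),(k1,k165),
    (k11,k170),(k10,k176)]]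
    [[k2,k1,k0,k0,k0,k0],[k2,k0,k0,k0,k1,k0],[k1,k2,k0,k0,k0,k0],[k1,k1,k1,k0,k0,k0],[k1,k1,k0,k0,k1,k0],[k1,k1,k0,k0,
    k0,k1],[k1,k0,k0,k0,k1,k1],[k0,k3,k0,k0,k0,k0],[k0,k2,k1,k0,k0,k0],[k0,k2,k0,k1,k0,k0],[k0,k2,k0,k0,k1,k0],[k0,k2,
    k0,k0,k0,k1],[k0,k1,k2,k0,k0,k0],[k0,k1,k1,k0,k1,k0],[k0,k1,k1,k0,k0,k1],[k0,k1,k0,k1,k1,k0],[k0,k1,k0,k1,k0,k1],
    [k0,k1,k0,k2,k0,k0],[k0,k1,k0,k0,k2,k0],[k0,k1,k0,k0,k1,k1],[k0,k0,k1,k0,k1,k1],[k0,k0,k1,k1,k1,k0],[k0,k0,k0,k2,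
    k1,k0],[k0,k0,k0,k1,k2,k0],[k0,k0,k0,k1,k1,k1],[k0,k0,k0,k0,k1,k2]]
    [.ref k25 k0 [(z1,[z3,y1,y3]),(z1,[y3,z2,z6]),(z4,[z3,y2,y3,z2]),(z4,[y3,z2,z3,z0,z6]),(z2,[y3,z0,y3,y1,y3,z6])],
    .ref k25 k0 [(z3,[z6,z1,z6,z1,z3,y6]),(z3,[y6,z2,z3,y1,y3,z6]),(z12,[z6,y2,z6,z7,z3,y6]),(z12,[y6,z2,y6,y1,z15,
    z6]),(z3,[y3,y2,y12,y2,y6,z12])],.ref k25 k0 [(z1,[y3,z2,z6]),(z1,[z3,y1,y3]),(z4,[y3,z1,z6,z2]),(z4,[z3,y1,y6,z0,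
    z6]),(z2,[z3,y3,y12,y1,y3,z6])],.ref k25 k0 [(z1,[z12,y3,y12,y2]),(z1,[y12,z4,z15,z2]),(z1,[z3,y1,y3]),(z2,[y6,z2,
    z6,z1,z3]),(z2,[y12,z2,z6,z1,y3,z6])],.ref k25 k0 [(z1,[y6,z1,z0,y1,y3,z6]),(z1,[z6,z0,z3,z1,z3,y6]),(z4,[y6,z0,
    z0,z1,y3,z6]),(z4,[z6,z0,z0,z1,z9,y6]),(z1,[z3,y1,y3])],.ref k25 k0 [(z1,[z6,y1,y6]),(z1,[y6,z2,z9]),(z2,[z3,y1,
    y3,z1]),(z2,[y3,z1,z3,z0,z3]),(z2,[y6,z0,z0,y1,y3,z6])],.ref k25 k0 [(z2,[z6,z2,z6,z1,z3,y6]),(z2,[y6,z0,z0,y1,y3,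
    z6]),(z8,[z6,z0,z6,z5,z3,y6]),(z8,[y6,z0,y6,y1,z9,z6]),(z4,[y6,y4,y18,y3,y9,z18])],.ref k25 k0 [(z1,[y1,z1,z3]),
    (z1,[z1]),(z4,[y1,z0,z3,z2]),(z4,[z1,z0,y3,z0,z6]),(z2,[z1,y2,y9,y1,y3,z6])],.ref k25 k0 [(z7,[y12,z7,z24,z2]),
    (z7,[z12,z0,y3,y2]),(z7,[y3,z0,z6,z4]),(z14,[z6,z0,y12,y1,z21]),(z14,[z12,y14,y66,y9,y21,z42])],.ref k25 k0 [(z3,
    [y4,z3,z8,z0,z2]),(z3,[z4,z0,z1,z0,y2]),(z6,[y2,z0,z4,z3,z1]),(z3,[z1,z0,y2,z0,z4]),(z6,[z4,y6,y26,y3,y11,z18])],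
    .ref k25 k0 [(z5,[y6,z3,z6,y1,y3,z6]),(z5,[z6,z2,z9,z1,z3,y6]),(z20,[y6,y2,z6,z9,y3,z6]),(z20,[z6,z2,y6,z1,z33,
    y6]),(z5,[z3,y4,y18,y2,y6,z12])],.ref k25 k0 [(z1,[y2,z1,z4]),(z1,[z2,z0,y1]),(z2,[y1,z0,z2,z1]),(z2,[z1,z0,y2,z0,
    z3]),(z2,[z2,y2,y10,y1,y3,z6])],.ref k25 k0 [(z1,[y6,z1,z6,z2]),(z1,[z6,z0,y3,y2]),(z2,[y3,z0,z3,z2]),(z2,[z3,z0,
    y3,y1,z3]),(z2,[z6,y2,y12,y3,y3,z6])],.ref k25 k0 [(z5,[y12,z1,z0,z0,y6,z12]),(z5,[z12,z4,z15,z0,z6,y12]),(z10,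
    [y6,y2,z0,z5,y3,z6]),(z5,[z3,z1,z0,z0,z9,y3]),(z10,[z12,y6,y30,y5,y9,z18])],.ref k25 k0 [(z1,[y12,z1,z12,z2]),(z1,
    [z12,z0,y9,y2]),(z1,[y3,z0,z3,z1]),(z2,[z6,z0,y6,y1,z3]),(z2,[z12,y2,y18,y3,y3,z6])],.ref k25 k0 [(z7,[y12,z3,z0,
    y2,z0,z12]),(z7,[z12,z4,z21,z2,z0,y12]),(z7,[y3,y1,z0,z3,z0,z3]),(z14,[z6,z2,z0,z1,z21,y6]),(z14,[z12,y10,y42,y5,
    y21,z30])],.ref k25 k0 [(z1,[y4,z1,z4,z0,z2]),(z1,[z4,z0,y1,z0,y2]),(z2,[y2,z0,z2,z1,z1]),(z1,[z1,z0,y1,z0,z1]),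
    (z2,[z4,y2,y10,y1,y5,z6])],.ref k25 k0 [(z1,[y2,z1,z2,z0,z2]),(z1,[z2,z0,z1,z0,y2]),(z2,[y1,z0,z1,z1,z1]),(z2,[z1,
    z0,y1,z0,z2]),(z2,[z2,y2,y8,y1,y5,z6])],.ref k25 k0 [(z2,[y3,z0,y3,y1,y3,z6]),(z2,[z3,z2,z9,z1,z3,y6]),(z8,[y3,y2,
    y3,z3,y3,z6]),(z8,[z3,z2,z3,z1,z15,y6]),(z4,[z3,y2,y9,y1,y3,z6])],.ref k25 k0 [(z2,[y6,z0,z0,y1,y3,z6]),(z2,[z6,
    z2,z6,z1,z3,y6]),(z8,[y6,y2,z0,z3,y3,z6]),(z8,[z6,z2,z0,z1,z15,y6]),(z4,[z6,y2,y12,y1,y3,z6])],.ref k25 k0 [(z1,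
    [z12,z5,z12,z0,z6,y12]),(z1,[y12,y4,y9,z0,y6,z12]),(z2,[z6,z2,z6,z1,z3,y6]),(z1,[y3,y1,y3,z0,z0,z3]),(z2,[y12,y6,
    y18,y1,y9,z18])],.ref k25 k0 [(z1,[y6,y1,y6,z0,z0,z6]),(z1,[z6,z2,z9,z0,z0,y6]),(z2,[y3,y1,y3,z1,z0,z3]),(z2,[z3,
    z1,z3,z0,z3,y3]),(z2,[z6,z0,z0,y1,y3])],.ref k25 k0 [(z2,[y6,z0,y6,y1,z3,z6]),(z2,[z6,z2,z12,z1,y3,y6]),(z8,[y6,
    y2,y6,z3,z3,z6]),(z8,[z6,z2,z6,z1,z9,y6]),(z4,[z6,y2,y6,y1,y9,z6])],.ref k25 k0 [(z5,[y12,y3,y24,y4,y6,z24]),(z5,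
    [z12,z8,z39,z4,z6,y24]),(z10,[y6,y4,y12,z3,y3,z12]),(z5,[z3,z2,z6,z1,z9,y6]),(z10,[z12,y2,y6,y1,y9,z6])],
    .ref k25 k0 [(z1,[y12,y3,y12,y2,z0,z12]),(z1,[z12,z4,z15,z2,z0,y12]),(z1,[y3,y1,y3,z0,z0,z3]),(z2,[z6,z2,z6,z1,z3,
    y6]),(z2,[z12,z2,z6,z1,y3,y6])],.ref k25 k0 [(z1,[z6,z3,z6,z1,z3,y6]),(z1,[y6,y2,y3,y1,y3,z6]),(z4,[z6,z2,z6,z3,
    z3,y6]),(z4,[y6,y2,y6,y1,z3,z6]),(z1,[y3,y2,y6,y1,y3,z6])]],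
    .base (.leafM k3 [k1,k2,k3,k4,k5,k0] [(z2,[y1,y1,z0,y2,z2])] []),
    .base (.leafM k3 [k3,k4,k5,k0,k1,k2] [(z2,[z0,z0,y1,y1,z2])] []),
    .lp k0 [(nat_lit 474),(nat_lit 472),(nat_lit 486),(nat_lit 490),(nat_lit 486),(nat_lit 466)] [k8,k8,k9,k9,k2,k2,
    k0,k0,k2,k2,k12,k12] k0 [[k0,k0,k0,k0,k6,k6,k16,k0,k0,k0,k0,k2],[k78,k0,k0,k0,k0,k0,k4,k0,k0,k0,k0,k92],[k0,k0,k0,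
    k0,k0,k0,k0,k0,k0,k2,k6,k4],[k0,k0,k0,k0,k4,k4,k8,k0,k0,k0,k0,k0],[k0,k6,k4,k0,k0,k0,k0,k0,k0,k0,k0,k0],[k0,k6,k4,
    k0,k0,k0,k0,k0,k0,k0,k4,k0],[k0,k0,k0,k0,k0,k0,k0,k2,k2,k2,k0,k0],[k4,k16,k8,k0,k0,k0,k0,k0,k0,k0,k2,k0],[k0,k0,
    k0,k2,k0,k0,k0,k2,k0,k0,k70,k0],[k0,k0,k0,k0,k0,k0,k0,k2,k0,k0,k0,k0],[k92,k2,k0,k4,k0,k0,k0,k0,k0,k0,k0,k28],[k0,
    k0,k0,k6,k4,k0,k2,k0,k0,k70,k0,k0]] (nat_lit 1440) k5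
    [[(k8,(nat_lit 410)),(k2,(nat_lit 467)),(k10,(nat_lit 470)),(k11,(nat_lit 470)),(k3,(nat_lit 475)),(k7,
    (nat_lit 478)),(k9,(nat_lit 478)),(k4,(nat_lit 480)),(k6,(nat_lit 482)),(k5,(nat_lit 484)),(k1,(nat_lit 502)),(k0,
    (nat_lit 566))],[(k9,(nat_lit 464)),(k10,(nat_lit 468)),(k11,(nat_lit 470)),(k2,(nat_lit 473)),(k3,(nat_lit 473)),
    (k4,(nat_lit 474)),(k7,(nat_lit 476)),(k5,(nat_lit 480)),(k8,(nat_lit 480)),(k6,(nat_lit 486)),(k0,(nat_lit 552)),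
    (k1,(nat_lit 566))],[(k10,(nat_lit 377)),(k3,(nat_lit 394)),(k11,(nat_lit 469)),(k2,(nat_lit 472)),(k0,
    (nat_lit 473)),(k1,(nat_lit 475)),(k9,(nat_lit 475)),(k5,(nat_lit 479)),(k8,(nat_lit 479)),(k4,(nat_lit 485)),(k7,
    (nat_lit 487)),(k6,(nat_lit 497))],[(k10,(nat_lit 465)),(k1,(nat_lit 467)),(k11,(nat_lit 469)),(k2,(nat_lit 472)),
    (k3,(nat_lit 472)),(k0,(nat_lit 473)),(k8,(nat_lit 477)),(k5,(nat_lit 479)),(k9,(nat_lit 479)),(k4,(nat_lit 483)),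
    (k7,(nat_lit 485)),(k6,(nat_lit 489))],[(k9,(nat_lit 478)),(k11,(nat_lit 478)),(k2,(nat_lit 479)),(k3,
    (nat_lit 479)),(k0,(nat_lit 480)),(k4,(nat_lit 482)),(k10,(nat_lit 482)),(k1,(nat_lit 484)),(k7,(nat_lit 484)),
    (k5,(nat_lit 486)),(k8,(nat_lit 486)),(k6,(nat_lit 488))],[(k0,(nat_lit 474)),(k11,(nat_lit 476)),(k1,
    (nat_lit 480)),(k10,(nat_lit 480)),(k5,(nat_lit 482)),(k2,(nat_lit 483)),(k3,(nat_lit 485)),(k4,(nat_lit 486)),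
    (k8,(nat_lit 486)),(k9,(nat_lit 486)),(k6,(nat_lit 488)),(k7,(nat_lit 488))],[(k0,(nat_lit 476)),(k1,
    (nat_lit 478)),(k10,(nat_lit 478)),(k11,(nat_lit 478)),(k5,(nat_lit 484)),(k2,(nat_lit 485)),(k3,(nat_lit 487)),
    (k4,(nat_lit 488)),(k8,(nat_lit 488)),(k9,(nat_lit 488)),(k6,(nat_lit 490)),(k7,(nat_lit 490))],[(k11,
    (nat_lit 476)),(k10,(nat_lit 480)),(k1,(nat_lit 482)),(k0,(nat_lit 486)),(k8,(nat_lit 486)),(k4,(nat_lit 488)),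
    (k5,(nat_lit 488)),(k6,(nat_lit 488)),(k9,(nat_lit 488)),(k2,(nat_lit 489)),(k7,(nat_lit 490)),(k3,
    (nat_lit 497))],[(k0,(nat_lit 464)),(k3,(nat_lit 475)),(k10,(nat_lit 476)),(k1,(nat_lit 478)),(k5,(nat_lit 478)),
    (k11,(nat_lit 478)),(k2,(nat_lit 479)),(k4,(nat_lit 486)),(k6,(nat_lit 488)),(k7,(nat_lit 488)),(k8,
    (nat_lit 488)),(k9,(nat_lit 488))],[(k1,(nat_lit 410)),(k10,(nat_lit 476)),(k11,(nat_lit 476)),(k2,(nat_lit 477)),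
    (k3,(nat_lit 479)),(k0,(nat_lit 480)),(k4,(nat_lit 486)),(k5,(nat_lit 486)),(k6,(nat_lit 486)),(k8,(nat_lit 486)),
    (k7,(nat_lit 488)),(k9,(nat_lit 488))],[(k11,(nat_lit 466)),(k2,(nat_lit 469)),(k3,(nat_lit 469)),(k0,
    (nat_lit 470)),(k1,(nat_lit 470)),(k4,(nat_lit 476)),(k6,(nat_lit 476)),(k8,(nat_lit 476)),(k5,(nat_lit 478)),(k7,
    (nat_lit 478)),(k9,(nat_lit 478)),(k10,(nat_lit 536))],[(k3,(nat_lit 377)),(k10,(nat_lit 438)),(k2,(nat_lit 465)),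
    (k0,(nat_lit 468)),(k1,(nat_lit 470)),(k8,(nat_lit 476)),(k9,(nat_lit 476)),(k7,(nat_lit 478)),(k4,(nat_lit 480)),
    (k6,(nat_lit 480)),(k5,(nat_lit 482)),(k11,(nat_lit 536))]]
    [[k1,k2,k0,k0,k0,k0],[k1,k1,k1,k0,k0,k0],[k1,k1,k0,k0,k1,k0],[k1,k1,k0,k0,k0,k1],[k1,k0,k1,k0,k1,k0],[k1,k0,k1,k0,
    k0,k1],[k1,k0,k0,k1,k1,k0],[k1,k0,k0,k1,k0,k1],[k1,k0,k0,k0,k2,k0],[k1,k0,k0,k0,k1,k1],[k1,k0,k0,k0,k0,k2],[k0,k3,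
    k0,k0,k0,k0],[k0,k2,k1,k0,k0,k0],[k0,k2,k0,k0,k1,k0],[k0,k2,k0,k0,k0,k1],[k0,k2,k0,k1,k0,k0],[k0,k1,k1,k0,k0,k1],
    [k0,k1,k0,k1,k0,k1],[k0,k1,k0,k0,k1,k1],[k0,k1,k0,k0,k0,k2],[k0,k0,k1,k0,k1,k1],[k0,k0,k1,k0,k0,k2],[k0,k0,k0,k1,
    k0,k2],[k0,k0,k0,k0,k1,k2]]
    [.ref k25 k0 [(z2,[y3,z9,z2]),(z4,[z9,y9,y2]),(z4,[z3,y3,y2,z12]),(z8,[y9,z9,z6,z0,z8]),(z8,[y3,z3,z2])],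
    .ref k25 k0 [(z1,[y3,z6,z1,z3]),(z2,[z9,y9,y1,y9]),(z2,[z3,y3,y1,z3]),(z4,[y9,z9,z3,z9,z4]),(z4,[y3,z3,z1,z3])],
    .ref k25 k0 [(z1,[y12,z15,z4]),(z1,[z18,y18,y5]),(z1,[z6,y6,y2,z3]),(z1,[y9,z9,z3,z0,z1]),(z1,[y3,z3,z1])],
    .ref k25 k0 [(z1,[y6,z3,z0,y6,y2,z6]),(z1,[z9,z0,z1,z9,z3,y9]),(z1,[z3,z0,z0,z6,z1,y3]),(z2,[y9,z0,z0,y9,y1,z9]),
    (z2,[y3,z0,z0,y3,y1,z3])],.ref k25 k0 [(z1,[z4,y1,z0,y4]),(z1,[y6,z6,z1,z6]),(z1,[y2,z2,z0,z5]),(z1,[z3,y3,z0,y3,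
    z1]),(z1,[z1,y1,z0,y1])],.ref k25 k0 [(z1,[z6,z3,z2,z0,z2,y6]),(z1,[y9,z0,y2,z0,y3,z9]),(z1,[y3,z0,y1,z3,y1,z3]),
    (z2,[z9,z0,z3,z0,z5,y9]),(z2,[z3,z0,z1,z0,z1,y3])],.ref k25 k0 [(z2,[z3,z3,z0,z0,y1]),(z4,[y9,z9,z4,z0,z3]),(z4,
    [y3,z3,z0,z12,z1]),(z8,[z9,y9,z0,z0,z5]),(z8,[z3,y3,z0,z0,y1])],.ref k25 k0 [(z7,[z12,z21,z4,z12,z0,y12]),(z7,
    [y18,z0,z1,y18,z0,z18]),(z7,[y6,z0,y2,z15,z0,z6]),(z7,[z9,z0,z3,z9,z7,y9]),(z7,[z3,z0,z1,z3,z0,y3])],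
    .ref k25 k0 [(z1,[z2,z1]),(z1,[y3,z3,z1]),(z1,[y1,z1,z0,z3]),(z2,[z3,y3,z0,z0,z2]),(z2,[z1,y1])],.ref k25 k0 [(z5,
    [z12,z15,z4,z12,z4,y12]),(z5,[y18,z0,y1,y18,y6,z18]),(z5,[y6,z0,y2,z9,y2,z6]),(z5,[z9,z0,z3,z9,z8,y9]),(z5,[z3,z0,
    z1,z3,z1,y3])],.ref k25 k0 [(z1,[z3,z6,z2,z6,z2,y6]),(z2,[y9,y9,y4,y18,y6,z18]),(z2,[y3,y3,y2,z0,y2,z6]),(z4,[z9,
    z9,z6,z18,z10,y18]),(z4,[z3,z3,z2,z6,z2,y6])],.ref k25 k0 [(z3,[y2,z9,z2]),(z1,[z1]),(z3,[z1,z0,y1,z9]),(z2,[y1,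
    z0,z1,z0,z2]),(z6,[y1,z0,z1])],.ref k25 k0 [(z7,[y6,z21,z4,z6]),(z7,[z9,z0,z1,y9]),(z7,[z3,z0,y2,z18]),(z14,[y9,
    z0,z6,z9,z14]),(z14,[y3,z0,z2,z3])],.ref k25 k0 [(z11,[y12,z33,z8]),(z11,[z18,z0,y1]),(z11,[z6,z0,y4,z33]),(z11,
    [y9,z0,z6,z0,z11]),(z11,[y3,z0,z2])],.ref k25 k0 [(z3,[y3,z6,z1,y3,y1,z3]),(z2,[z3,z3,z1,z3,z1,y3]),(z6,[z3,z3,y1,
    z21,z1,y3]),(z4,[y3,y3,z1,y3,z3,z3]),(z12,[y3,y3,z1,y3,y1,z3])],.ref k25 k0 [(z9,[y12,z27,z8,z0,z4]),(z3,[z6,z0,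
    y1,z0,y2]),(z9,[z6,z0,y4,z27,y2]),(z3,[y3,z0,z2,z0,z4]),(z9,[y3,z0,z2,z0,z1])],.ref k25 k0 [(z2,[y3,z3,z0,z0,y1,
    z3]),(z4,[z9,z9,z4,z0,z3,y9]),(z4,[z3,z3,z0,z12,z1,y3]),(z8,[y9,y9,z0,z0,z5,z9]),(z8,[y3,y3,z0,z0,y1,z3])],
    .ref k25 k0 [(z1,[y4,y1,z0,y4,z0,z4]),(z1,[z6,z6,z1,z6,z0,y6]),(z1,[z2,z2,z0,z5,z0,y2]),(z1,[y3,y3,z0,y3,z1,z3]),
    (z1,[y1,y1,z0,y1,z0,z1])],.ref k25 k0 [(z5,[y12,z3,z0,y12,y4,z12]),(z5,[z18,z18,z5,z18,z6,y18]),(z5,[z6,z6,z0,z21,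
    z2,y6]),(z5,[y9,y9,z0,y9,z2,z9]),(z5,[y3,y3,z0,y3,y1,z3])],.ref k25 k0 [(z3,[y6,y3,y2,y12,y4,z12]),(z1,[z3,z6,z2,
    z6,z2,y6]),(z3,[z3,z6,z1,z15,z2,y6]),(z2,[y3,y6,y1,y6,z0,z6]),(z6,[y3,y6,y1,y6,y2,z6])],.ref k25 k0 [(z1,[y12,y9,
    y4,z0,y4,z12]),(z1,[z18,z18,z7,z0,z6,y18]),(z1,[z6,z6,z2,z3,z2,y6]),(z1,[y9,y9,y3,z0,y2,z9]),(z1,[y3,y3,y1,z0,y1,
    z3])],.ref k25 k0 [(z1,[y6,y9,y4,y6,y4,z12]),(z1,[z9,z18,z7,z9,z6,y18]),(z1,[z3,z6,z2,z6,z2,y6]),(z2,[y9,y18,y6,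
    y9,y4,z18]),(z2,[y3,y6,y2,y3,y2,z6])],.ref k25 k0 [(z3,[z12,z33,z8,z24,z4,y24]),(z1,[y6,y12,y3,y12,y2,z12]),(z3,
    [y6,y12,y4,y3,y2,z12]),(z1,[z3,z6,z2,z6,z2,y6]),(z3,[z3,z6,z2,z6,z1,y6])],.ref k25 k0 [(z1,[z12,z27,z8,z24,z8,
    y24]),(z1,[y18,y36,y11,y36,y12,z36]),(z1,[y6,y12,y4,y9,y4,z12]),(z1,[z9,z18,z6,z18,z7,y18]),(z1,[z3,z6,z2,z6,z2,
    y6])]],
    .lp k0 [k158,k150,k168,k168,k168,k144] [k5,k5,k9,k9,k0,k0,k0,k0,k0,k0,k12,k12] k0 [[k0,k0,k0,k0,k2,k8,k10,k0,k0,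
    k0,k0,k0],[k20,k0,k0,k0,k0,k0,k0,k0,k0,k0,k0,k20],[k0,k0,k0,k0,k0,k0,k0,k0,k0,k2,k4,k0],[k0,k0,k0,k0,k0,k4,k6,k0,
    k0,k0,k0,k0],[k0,k8,k4,k0,k0,k0,k0,k0,k0,k0,k0,k0],[k0,k2,k0,k0,k0,k0,k0,k0,k0,k0,k2,k0],[k0,k0,k0,k0,k0,k0,k0,k0,
    k0,k0,k0,k0],[k0,k10,k6,k0,k0,k0,k0,k0,k0,k0,k0,k0],[k0,k0,k0,k2,k0,k0,k0,k0,k0,k0,k0,k0],[k0,k0,k0,k0,k0,k0,k0,
    k0,k0,k0,k0,k0],[k20,k0,k0,k0,k0,k0,k0,k0,k0,k0,k0,k20],[k0,k0,k0,k4,k2,k0,k0,k0,k0,k0,k0,k0]] (nat_lit 480) k5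
    [[(k2,k150),(k10,k151),(k11,k151),(k3,k154),(k7,k161),(k4,k163),(k5,k163),(k6,k163),(k8,k163),(k9,k163),(k0,k178),
    (k1,k178)],[(k10,k151),(k11,k151),(k9,k153),(k2,k154),(k3,k154),(k4,k155),(k7,k161),(k5,k163),(k6,k163),(k8,k163),
    (k0,k178),(k1,k178)],[(k10,k127),(k3,k130),(k11,k147),(k2,k150),(k0,k154),(k1,k154),(k5,k159),(k8,k159),(k9,k159),
    (k4,k161),(k7,k167),(k6,k169)],[(k10,k147),(k11,k147),(k1,k150),(k2,k150),(k3,k150),(k0,k154),(k8,k157),(k4,k159),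
    (k5,k159),(k9,k159),(k7,k163),(k6,k165)],[(k11,k158),(k2,k159),(k3,k159),(k10,k160),(k9,k162),(k0,k163),(k1,k163),
    (k4,k164),(k5,k168),(k6,k168),(k7,k168),(k8,k168)],[(k0,k155),(k11,k156),(k10,k158),(k2,k159),(k3,k161),(k1,k163),
    (k5,k164),(k4,k168),(k6,k168),(k7,k168),(k8,k168),(k9,k168)],[(k10,k156),(k11,k156),(k0,k161),(k1,k161),(k2,k163),
    (k3,k167),(k4,k168),(k5,k168),(k6,k168),(k7,k168),(k8,k168),(k9,k168)],[(k10,k156),(k11,k156),(k0,k163),(k1,k163),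
    (k2,k165),(k4,k168),(k5,k168),(k6,k168),(k7,k168),(k8,k168),(k9,k168),(k3,k169)],[(k0,k153),(k10,k156),(k11,k156),
    (k2,k159),(k3,k159),(k5,k162),(k1,k163),(k4,k168),(k6,k168),(k7,k168),(k8,k168),(k9,k168)],[(k10,k156),(k11,k156),
    (k2,k157),(k3,k159),(k0,k163),(k1,k163),(k4,k168),(k5,k168),(k6,k168),(k7,k168),(k8,k168),(k9,k168)],[(k10,k144),
    (k11,k144),(k2,k147),(k3,k147),(k0,k151),(k1,k151),(k4,k156),(k6,k156),(k7,k156),(k8,k156),(k9,k156),(k5,k158)],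
    [(k10,k124),(k3,k127),(k11,k144),(k2,k147),(k0,k151),(k1,k151),(k6,k156),(k7,k156),(k8,k156),(k9,k156),(k4,k158),
    (k5,k160)]]
    [[k1,k2,k0,k0,k0,k0],[k1,k1,k1,k0,k0,k0],[k1,k1,k0,k0,k1,k0],[k1,k1,k0,k0,k0,k1],[k1,k0,k1,k0,k0,k1],[k1,k0,k0,k1,
    k0,k1],[k1,k0,k0,k0,k1,k1],[k1,k0,k0,k0,k0,k2],[k0,k3,k0,k0,k0,k0],[k0,k2,k1,k0,k0,k0],[k0,k2,k0,k0,k1,k0],[k0,k2,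
    k0,k0,k0,k1],[k0,k2,k0,k1,k0,k0],[k0,k1,k1,k0,k0,k1],[k0,k1,k0,k1,k0,k1],[k0,k1,k0,k0,k1,k1],[k0,k1,k0,k0,k0,k2],
    [k0,k0,k1,k0,k1,k1],[k0,k0,k1,k0,k0,k2],[k0,k0,k0,k1,k0,k2],[k0,k0,k0,k0,k1,k2],[k0,k0,k0,k0,k0,k3]]
    [.ref k19 k8 [(z2,[y1,z1,z0,z2]),(z1,[z0,y2,y1,y2,z2]),(z2,[z1,y1]),(z4,[y3,z3,z2])],.ref k19 k8 [(z1,[y1,z1,z0,
    z2]),(z1,[z0,y2,y1,y2,z2]),(z1,[z1,y1,z0,y1]),(z2,[y3,z3,z1,z3])],.ref (nat_lit 434) k10 [(z1,[z2,y2,z0,y5]),(z1,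
    [z0,z1,z0,z2]),(z1,[y2,z2,z2,y1]),(z1,[z0,z0,z0,z1])],.ref k19 k8 [(z1,[y2,z2,z1,z1]),(z1,[z0,y2,y1,y2,z2]),(z1,
    [z2,y2,y1]),(z1,[y3,z3,z2])],.ref k19 k8 [(z1,[z2,y2,y1,y1]),(z1,[z0,y2,y1,y2,z2]),(z1,[y2,z2,z1,z2]),(z1,[z3,y3,
    y1,y3])],.ref k123 k1 [(z1,[y2,z4,z2,z3,y2]),(z1,[z0,y2,y1,y2,z2]),(z1,[z4,y7,y4,y4,z4]),(z1,[y3,z7,z4,z4,y4])],
    .ref (nat_lit 435) k3 [(z1,[z1,y2,y1,y2,z1]),(z1,[z0,z0,z0,z1]),(z1,[z2,y2,z0,y5]),(z1,[z0,z1,z0,z2])],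
    .ref k19 k8 [(z1,[z1,y1,y1,z1]),(z1,[z0,y2,y1,y2,z2]),(z1,[y1,z1,z1]),(z2,[z3,y3,y2])],.ref (nat_lit 249) k3 [(z2,
    [y1,y6,y3,y6,z6]),(z1,[z0,z0,z0,z1]),(z1,[y1,z0,z3,y9]),(z1,[z0,z1,z0,z2])],.ref k123 k1 [(z1,[z1,z4,z2,z4,y4]),
    (z1,[z0,y2,y1,y2,z2]),(z1,[y2,y7,y4,y6,z8]),(z2,[z3,z14,z8,z11,y14])],.ref (nat_lit 436) k8 [(z1,[y2,z0,z0,z1]),
    (z1,[z0,y2,y1,y2,z2]),(z1,[z1]),(z1,[y6,z0,z1])],.ref (nat_lit 437) k11 [(z1,[y4,z3,z2]),(z1,[z1]),(z1,[y2,z0,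
    z1]),(z1,[z0,y2,y1,y2,z2])],.ref (nat_lit 249) k3 [(z1,[y1,y4,y2,y4,z4]),(z1,[z0,z0,z0,z1]),(z1,[y2,y2,z2,y11,
    z2]),(z1,[z0,z1,z0,z2])],.ref (nat_lit 438) k3 [(z1,[y2,y2,z0,y5,z2]),(z1,[z0,z0,z0,z1]),(z1,[y1,z0,z1,y3]),(z1,
    [z0,z1,z0,z2])],.ref (nat_lit 396) k6 [(z1,[z1,z2,z1,z2,y2]),(z1,[y4,y1,z0,y4,z4]),(z1,[z0,y2,y1,y2,z2]),(z1,[z2,
    z2,z0,z5,y2])],.ref (nat_lit 435) k3 [(z1,[y1,y1,z0,y2,z1]),(z1,[z0,z0,z0,z1]),(z1,[y2,z0,z2,y5]),(z1,[z0,z1,z0,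
    z2])],.ref (nat_lit 396) k6 [(z2,[z1,z2,z1,z2,y2]),(z1,[y2,z3,z2]),(z1,[z0,y2,y1,y2,z2]),(z1,[z1,z0,y1,z3])],
    .ref (nat_lit 439) k10 [(z1,[y2,z0,z1,y2]),(z1,[z0,z1,z0,z2]),(z1,[z2,z0,z0,y1]),(z1,[z0,z0,z0,z1])],
    .ref (nat_lit 439) k10 [(z1,[y1,z0,z1,y3]),(z1,[z0,z1,z0,z2]),(z1,[z1]),(z1,[z0,z0,z0,z1])],
    .ref (nat_lit 437) k10 [(z1,[y2,y2,z1,y8,z2]),(z1,[z0,z1,z0,z2]),(z1,[z2,z2,z2,y1,y2]),(z1,[z0,z0,z0,z1])],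
    .ref (nat_lit 434) k10 [(z1,[y2,z0,z2,y5]),(z1,[z0,z1,z0,z2]),(z1,[z2,z0,z0,y1]),(z1,[z0,z0,z0,z1])],
    .ref (nat_lit 440) k0 [(z1,[z0,z1]),(z1,[y2,z0,z3]),(z1,[z0,z0,z0,z1]),(z1,[z1,y3,y3,y3,z3])]],
    .lp k0 [(nat_lit 630),(nat_lit 596),(nat_lit 692),(nat_lit 662),(nat_lit 622),(nat_lit 630)] [k31,k31,k53,k43,k0,
    k0,k15,k15,k35,k35,k31,k31] k0 [[k0,k28,k32,k56,k4,k0,k0,k0,k108,k0,k0,k0],[k0,k0,k0,k0,k0,k0,k2,k0,k60,k0,k138,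
    k138],[k0,k56,k0,k0,k0,k0,k0,k18,k52,k0,k98,k58],[k0,k32,k0,k0,k8,k0,k0,k2,k76,k0,k0,k0],[k0,k0,k0,k0,k0,k116,k18,
    k30,k0,k68,k62,k0],[k0,k4,k8,k0,k0,k0,k0,k0,k0,k44,k30,k0],[k0,k0,k2,k18,k0,k30,k0,k0,k70,k0,k0,k80],[k2,k0,k0,k0,
    k0,k18,k0,k0,k58,k0,k0,k56],[k0,k0,k0,k0,k44,k68,k0,k0,k0,k16,k14,k58],[k60,k108,k76,k52,k0,k0,k58,k70,k0,k0,k0,
    k0],[k138,k0,k0,k58,k0,k0,k56,k80,k0,k58,k0,k0],[k138,k0,k0,k98,k30,k62,k0,k0,k0,k14,k0,k0]] (nat_lit 1920) k5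
    [[(k3,(nat_lit 480)),(k2,(nat_lit 510)),(k4,(nat_lit 599)),(k8,(nat_lit 612)),(k7,(nat_lit 616)),(k1,
    (nat_lit 630)),(k10,(nat_lit 630)),(k11,(nat_lit 688)),(k6,(nat_lit 702)),(k9,(nat_lit 706)),(k5,(nat_lit 719)),
    (k0,(nat_lit 768))],[(k11,(nat_lit 522)),(k2,(nat_lit 552)),(k0,(nat_lit 602)),(k3,(nat_lit 618)),(k9,
    (nat_lit 626)),(k5,(nat_lit 629)),(k7,(nat_lit 642)),(k6,(nat_lit 648)),(k4,(nat_lit 661)),(k8,(nat_lit 686)),(k1,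
    (nat_lit 768)),(k10,(nat_lit 768))],[(k1,(nat_lit 480)),(k10,(nat_lit 480)),(k11,(nat_lit 558)),(k9,
    (nat_lit 612)),(k0,(nat_lit 618)),(k2,(nat_lit 628)),(k3,(nat_lit 634)),(k6,(nat_lit 634)),(k7,(nat_lit 634)),(k4,
    (nat_lit 653)),(k5,(nat_lit 705)),(k8,(nat_lit 722))],[(k1,(nat_lit 510)),(k10,(nat_lit 550)),(k0,(nat_lit 552)),
    (k11,(nat_lit 556)),(k2,(nat_lit 586)),(k6,(nat_lit 606)),(k9,(nat_lit 606)),(k7,(nat_lit 624)),(k3,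
    (nat_lit 628)),(k5,(nat_lit 639)),(k4,(nat_lit 647)),(k8,(nat_lit 680))],[(k11,(nat_lit 585)),(k0,(nat_lit 629)),
    (k2,(nat_lit 639)),(k7,(nat_lit 669)),(k6,(nat_lit 675)),(k9,(nat_lit 675)),(k4,(nat_lit 692)),(k5,(nat_lit 692)),
    (k3,(nat_lit 705)),(k8,(nat_lit 709)),(k1,(nat_lit 719)),(k10,(nat_lit 759))],[(k4,(nat_lit 576)),(k8,
    (nat_lit 589)),(k1,(nat_lit 599)),(k9,(nat_lit 639)),(k2,(nat_lit 647)),(k6,(nat_lit 647)),(k3,(nat_lit 653)),(k0,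
    (nat_lit 661)),(k7,(nat_lit 677)),(k10,(nat_lit 691)),(k5,(nat_lit 692)),(k11,(nat_lit 705))],[(k8,(nat_lit 598)),
    (k1,(nat_lit 616)),(k2,(nat_lit 624)),(k3,(nat_lit 634)),(k0,(nat_lit 642)),(k5,(nat_lit 669)),(k9,(nat_lit 672)),
    (k4,(nat_lit 677)),(k6,(nat_lit 680)),(k10,(nat_lit 708)),(k11,(nat_lit 714)),(k7,(nat_lit 778))],[(k10,
    (nat_lit 566)),(k11,(nat_lit 576)),(k2,(nat_lit 606)),(k3,(nat_lit 634)),(k9,(nat_lit 642)),(k4,(nat_lit 647)),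
    (k0,(nat_lit 648)),(k6,(nat_lit 662)),(k5,(nat_lit 675)),(k7,(nat_lit 680)),(k8,(nat_lit 700)),(k1,
    (nat_lit 702))],[(k11,(nat_lit 568)),(k10,(nat_lit 570)),(k2,(nat_lit 606)),(k3,(nat_lit 612)),(k9,(nat_lit 622)),
    (k0,(nat_lit 626)),(k4,(nat_lit 639)),(k6,(nat_lit 642)),(k7,(nat_lit 672)),(k5,(nat_lit 675)),(k8,(nat_lit 692)),
    (k1,(nat_lit 706))],[(k10,(nat_lit 568)),(k4,(nat_lit 589)),(k7,(nat_lit 598)),(k8,(nat_lit 606)),(k1,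
    (nat_lit 612)),(k11,(nat_lit 626)),(k2,(nat_lit 680)),(k0,(nat_lit 686)),(k9,(nat_lit 692)),(k6,(nat_lit 700)),
    (k5,(nat_lit 709)),(k3,(nat_lit 722))],[(k0,(nat_lit 522)),(k2,(nat_lit 556)),(k3,(nat_lit 558)),(k9,
    (nat_lit 568)),(k6,(nat_lit 576)),(k5,(nat_lit 585)),(k8,(nat_lit 626)),(k10,(nat_lit 644)),(k11,(nat_lit 646)),
    (k1,(nat_lit 688)),(k4,(nat_lit 705)),(k7,(nat_lit 714))],[(k3,(nat_lit 480)),(k2,(nat_lit 550)),(k6,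
    (nat_lit 566)),(k8,(nat_lit 568)),(k9,(nat_lit 570)),(k1,(nat_lit 630)),(k10,(nat_lit 630)),(k11,(nat_lit 644)),
    (k4,(nat_lit 691)),(k7,(nat_lit 708)),(k5,(nat_lit 759)),(k0,(nat_lit 768))]]
    [[k2,k1,k0,k0,k0,k0],[k1,k2,k0,k0,k0,k0],[k1,k1,k1,k0,k0,k0],[k1,k1,k0,k1,k0,k0],[k1,k1,k0,k0,k1,k0],[k1,k1,k0,k0,
    k0,k1],[k1,k0,k1,k1,k0,k0],[k1,k0,k1,k0,k0,k1],[k1,k0,k0,k1,k0,k1],[k1,k0,k1,k0,k1,k0],[k1,k0,k0,k1,k1,k0],[k1,k0,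
    k0,k0,k1,k1],[k1,k0,k0,k0,k0,k2],[k0,k3,k0,k0,k0,k0],[k0,k2,k0,k1,k0,k0],[k0,k2,k0,k0,k0,k1],[k0,k1,k1,k0,k0,k1],
    [k0,k1,k1,k0,k1,k0],[k0,k1,k0,k1,k1,k0],[k0,k1,k0,k1,k0,k1],[k0,k1,k0,k0,k1,k1],[k0,k1,k0,k0,k2,k0],[k0,k1,k0,k0,
    k0,k2],[k0,k0,k1,k1,k1,k0],[k0,k0,k1,k0,k1,k1],[k0,k0,k1,k1,k0,k1],[k0,k0,k0,k1,k1,k1],[k0,k0,k0,k0,k2,k1],[k0,k0,
    k0,k0,k1,k2]]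
    [.ref k108 k2 [(z2,[z1,y2,y1]),(z2,[y1,z0,y1,z2]),(z1,[y1,z2,z2])],.ref k46 k8 [(z2,[y1,y1,y2,z2]),(z1,[z0,z0,
    z1]),(z1,[y1,z1,z1])],.ref k46 k8 [(z1,[y1,y1,y2,z2]),(z1,[z0,z0,z1]),(z1,[y2,z0,y1,z2])],.ref k108 k2 [(z1,[z1,
    y1,y1]),(z1,[y1,z0,z0,z1]),(z1,[y2,z2,z3])],.ref (nat_lit 425) k0 [(z1,[z2,y1,y2]),(z1,[z0,z0,z1]),(z1,[y1,z0,z0,
    z1])],.ref (nat_lit 387) k0 [(z1,[z1,z0,y1]),(z1,[z0,z0,z1]),(z1,[y1,y1,y1,z2])],.ref (nat_lit 426) k6 [(z1,[y1,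
    z0,y1,z1]),(z1,[z2,z1,z2,y2]),(z1,[z0,z0,z1])],.ref (nat_lit 427) k1 [(z1,[y1,y1,y2,z2]),(z1,[z0,z0,z1]),(z1,[z2,
    z1,z2,y2])],.ref (nat_lit 428) k6 [(z1,[y1,z1]),(z1,[z2,y1]),(z1,[z0,z0,z1])],.ref (nat_lit 391) k5 [(z1,[z1,z1,
    z2,y2]),(z1,[y1,z0,y1,z1]),(z1,[z0,y1,y2,z2])],.ref (nat_lit 429) k5 [(z1,[z1,z1,z2,y2]),(z1,[y1,z0,y1,z1]),(z1,
    [z0,y1,y2,z2])],.ref (nat_lit 426) k6 [(z1,[y1,z1]),(z1,[z2,y1]),(z1,[z0,z0,z1])],.ref (nat_lit 427) k1 [(z2,[y1,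
    y1,y2,z2]),(z1,[z0,z0,z1]),(z1,[z1])],.ref (nat_lit 433) k1 [(z2,[z1,y6,y9,z6]),(z1,[z1]),(z1,[y1,z3,z3])],
    .ref (nat_lit 433) k1 [(z1,[z1,y3,y5,z3]),(z1,[z2,z0,y1]),(z1,[y2,z3,z4])],.ref (nat_lit 441) k6 [(z1,[z1,z0,y2]),
    (z1,[y2,z1,z4]),(z1,[z0,z0,z1])],.ref (nat_lit 429) k5 [(z1,[y1,z1,z2,y1]),(z1,[z1,z0,y1]),(z1,[z0,y1,y2,z2])],
    .ref (nat_lit 428) k6 [(z1,[z1,z1,z0,y1]),(z1,[y2,y1,z0,z2]),(z1,[z0,z0,z1])],.ref (nat_lit 427) k1 [(z1,[z1,y1,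
    y2,z1]),(z1,[z0,z0,z1]),(z1,[y2,z1,z2])],.ref (nat_lit 391) k5 [(z1,[y1,z1,z2,y1]),(z1,[z1,z0,y1]),(z1,[z0,y1,y2,
    z2])],.ref (nat_lit 426) k6 [(z1,[z1,z0,y1]),(z1,[y2,z1,z2]),(z1,[z0,z0,z1])],.ref (nat_lit 427) k1 [(z2,[z1,y2,
    y3,z2]),(z1,[z0,z0,z1]),(z1,[y1,z1,z1])],.ref (nat_lit 391) k5 [(z2,[y1,z2,z3,y2]),(z2,[z1,z0,y1]),(z1,[z0,y1,y2,
    z2])],.ref (nat_lit 387) k0 [(z1,[y1,z0,y1,z1]),(z1,[z0,z0,z1]),(z1,[z1,y1,y1,z1])],.ref k108 k2 [(z1,[y1,y1,y1,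
    z1]),(z1,[z1]),(z1,[z2,z2,z3,y2])],.ref (nat_lit 425) k0 [(z1,[y2,y1,y2,z2]),(z1,[z0,z0,z1]),(z1,[z1])],
    .ref k46 k8 [(z1,[z1,y1,y2,z1]),(z1,[z0,z0,z1]),(z1,[z2,z0,y1])],.ref (nat_lit 387) k0 [(z1,[y1,z1]),(z1,[z0,z0,
    z1]),(z1,[z1,y2,y2,z2])],.ref (nat_lit 425) k0 [(z1,[y2,z1]),(z1,[z0,z0,z1]),(z1,[z1,y1,y1,z1])]],
    .base (.leafM k3 [k0,k1,k2,k3,k4,k5] [(z1,[z0,z1])] [])]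

theorem hB6_171_36 : blkB [0, 0, 0, 0, 0, 0] [] sp6 hS6_171 (pcls (n := 6) [0, 0, 0, 0, 0, 0]) hD6_171 560 36 hN6_171_36 = true := by
  decide +kernel

end Pool.Agent.Lib_MP_fa6e45
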