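import Pool.Agent.Lib_MP_fa6e45.HK

/-!
MP_fa6e45_co, stage 4: certificates (captain, generated by a program).
-/

namespace Pool.Agent.Lib_MP_fa6e45

/-- nodes 444 to 455 -/
noncomputable def hN6_171_37 : List HM :=
  [.base (.leafM k0 [k1,k2,k3,k4,k5,k0] [(z1,[y1,y1,z0,z1])] []),
    .base (.leafM k0 [k2,k3,k4,k5,k0,k1] [(z2,[y1,y1,y2,z2])] []),
    .base (.leafM k3 [k5,k0,k1,k2,k3,k4] [(z1,[z0,y1,z0,z1])] []),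
    .base (.leafM k0 [k1,k2,k3,k4,k5,k0] [(z1,[y1,y1,z0,z1])] []),
    .base (.leafM k0 [k1,k2,k3,k4,k5,k0] [(z3,[z0,z0,z1,z1])] []),
    .base (.leafM k0 [k2,k3,k4,k5,k0,k1] [(z3,[y1,y1,y3,z0,z3])] []),
    .lp k0 [k80,k70,k86,k90,k82,k70] [k5,k5,k10,k10,k2,k2,k0,k0,k4,k4,k10,k10] k0 [[k0,k0,k0,k0,k0,k4,k0,k6,k4,k0,k0,
    k6],[k4,k0,k0,k2,k0,k0,k0,k0,k2,k0,k0,k0],[k2,k0,k0,k0,k0,k0,k0,k0,k0,k0,k0,k0],[k0,k0,k0,k0,k0,k0,k0,k6,k2,k0,k0,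
    k2],[k0,k4,k0,k0,k0,k0,k0,k0,k0,k4,k6,k0],[k0,k0,k0,k0,k2,k0,k0,k0,k0,k0,k0,k0],[k0,k6,k6,k0,k0,k0,k0,k0,k0,k0,k0,
    k0],[k0,k0,k0,k0,k0,k0,k0,k0,k0,k2,k4,k0],[k0,k0,k0,k0,k0,k4,k2,k0,k0,k0,k2,k0],[k2,k4,k2,k0,k0,k0,k0,k0,k0,k0,k0,
    k0],[k0,k6,k2,k0,k0,k0,k0,k0,k0,k0,k0,k0],[k0,k0,k0,k0,k0,k6,k4,k0,k0,k2,k4,k0]] (nat_lit 240) k5
    [[(k10,k75),(k11,k75),(k1,k76),(k2,k77),(k4,k77),(k9,k77),(k8,k79),(k0,k80),(k3,k81),(k5,k83),(k6,k85),(k7,k85)],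
    [(k10,k69),(k11,k71),(k2,k75),(k3,k75),(k4,k79),(k6,k79),(k1,k80),(k9,k81),(k8,k83),(k0,k84),(k5,k85),(k7,k85)],
    [(k3,k66),(k2,k68),(k11,k68),(k10,k70),(k0,k75),(k4,k78),(k5,k78),(k6,k80),(k8,k80),(k1,k81),(k9,k82),(k7,k84)],
    [(k3,k68),(k2,k70),(k10,k70),(k11,k70),(k0,k75),(k1,k77),(k4,k78),(k5,k78),(k8,k78),(k6,k80),(k7,k80),(k9,k82)],
    [(k10,k76),(k11,k76),(k2,k78),(k3,k78),(k6,k82),(k1,k83),(k8,k84),(k9,k84),(k0,k85),(k4,k86),(k5,k86),(k7,k88)],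
    [(k1,k77),(k2,k78),(k3,k78),(k10,k78),(k11,k78),(k0,k79),(k8,k80),(k9,k84),(k5,k86),(k4,k88),(k6,k88),(k7,k88)],
    [(k2,k80),(k3,k84),(k11,k84),(k0,k85),(k1,k85),(k8,k86),(k9,k86),(k10,k86),(k4,k88),(k5,k88),(k7,k88),(k6,k90)],
    [(k0,k79),(k2,k80),(k3,k80),(k5,k82),(k11,k82),(k10,k84),(k1,k85),(k8,k86),(k9,k86),(k4,k88),(k6,k90),(k7,k90)],
    [(k10,k76),(k11,k76),(k1,k77),(k8,k80),(k0,k81),(k2,k82),(k3,k82),(k9,k82),(k4,k84),(k5,k84),(k6,k86),(k7,k86)],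
    [(k10,k76),(k11,k76),(k2,k78),(k1,k79),(k3,k80),(k4,k80),(k9,k80),(k8,k82),(k0,k83),(k5,k84),(k6,k86),(k7,k86)],
    [(k3,k68),(k2,k70),(k11,k70),(k0,k71),(k10,k72),(k1,k75),(k5,k76),(k8,k76),(k9,k76),(k4,k78),(k6,k82),(k7,k84)],
    [(k0,k69),(k2,k70),(k3,k70),(k11,k72),(k10,k74),(k1,k75),(k5,k76),(k8,k76),(k9,k76),(k4,k78),(k6,k84),(k7,k86)]]
    [[k2,k1,k0,k0,k0,k0],[k2,k0,k0,k0,k0,k1],[k1,k2,k0,k0,k0,k0],[k1,k1,k1,k0,k0,k0],[k1,k1,k0,k0,k1,k0],[k1,k1,k0,k0,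
    k0,k1],[k1,k0,k1,k0,k0,k1],[k1,k0,k0,k1,k0,k1],[k1,k0,k0,k0,k1,k1],[k1,k0,k0,k0,k0,k2],[k0,k3,k0,k0,k0,k0],[k0,k2,
    k1,k0,k0,k0],[k0,k2,k0,k1,k0,k0],[k0,k2,k0,k0,k1,k0],[k0,k2,k0,k0,k0,k1],[k0,k1,k1,k0,k0,k1],[k0,k1,k0,k1,k0,k1],
    [k0,k1,k0,k0,k1,k1],[k0,k1,k0,k0,k0,k2],[k0,k0,k1,k0,k1,k1],[k0,k0,k1,k0,k0,k2],[k0,k0,k0,k0,k2,k1],[k0,k0,k0,k0,
    k1,k2],[k0,k0,k0,k0,k0,k3]]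
    [.ref k18 k6 [(z3,[z3,y2,y1]),(z1,[z0,z1]),(z1,[z3,y2]),(z1,[z0,z0,z0,z1])],.ref k77 k6 [(z1,[z3,y2]),(z1,[z0,
    z1]),(z1,[z3,y2,z1]),(z1,[z0,z0,z0,z1])],.ref k18 k6 [(z6,[z3,y1,y2]),(z1,[z0,z1]),(z2,[z3,y1]),(z1,[z0,z0,z0,
    z1])],.ref k18 k6 [(z3,[z3,y1,y1,y1]),(z1,[z0,z1]),(z1,[z3,y1,z0,y1]),(z1,[z0,z0,z0,z1])],.ref k77 k6 [(z1,[z3,y1,
    y1]),(z1,[z0,z1]),(z1,[z3,y1]),(z1,[z0,z0,z0,z1])],.ref (nat_lit 448) k3 [(z1,[y6,z1,y1,y1,z3]),(z3,[z3,y1,z1]),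
    (z1,[z3,y1]),(z1,[z0,z1])],.ref k77 k6 [(z1,[z3,y1,z0,y1]),(z1,[z0,z1]),(z1,[z3,y1,z1,y1]),(z1,[z0,z0,z0,z1])],
    .ref k77 k6 [(z1,[y3,z0,y1,y1,z3]),(z1,[z0,z1]),(z1,[y3,z0,z0,y1,z3]),(z1,[z0,z0,z0,z1])],
    .ref (nat_lit 449) k7 [(z1,[y3,z1,z1]),(z1,[z0,z0,z0,z1]),(z3,[z0,y1,y1,y1,z3]),(z1,[z3,y1])],.ref k77 k6 [(z2,
    [z3,y1]),(z1,[z0,z1]),(z2,[z3,y1,z2]),(z1,[z0,z0,z0,z1])],.ref k18 k6 [(z3,[z1,z0,y1]),(z1,[z0,z1]),(z1,[z1]),(z1,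
    [z0,z0,z0,z1])],.ref k18 k6 [(z6,[z3,z0,y2,y1]),(z1,[z0,z1]),(z2,[z3,z0,z0,y1]),(z1,[z0,z0,z0,z1])],
    .ref (nat_lit 396) k7 [(z6,[z3,z1,z1,z1,y3]),(z1,[z0,z0,z0,z1]),(z3,[z0,y1,y1,y1,z3]),(z2,[y3,y1,z1,y1,z3])],
    .ref (nat_lit 448) k3 [(z1,[y6,y1,z1,y1,z3]),(z1,[z1]),(z1,[z3,z0,y1]),(z1,[z0,z1])],.ref (nat_lit 254) k3 [(z3,
    [y6,y1,y1,y1,z3]),(z1,[z3,z0,z1]),(z1,[z1]),(z1,[z0,z1])],.ref (nat_lit 448) k3 [(z1,[y6,y1,y1,z1,z3]),(z3,[z3,z0,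
    z1,y1]),(z1,[z3,z0,z0,y1]),(z1,[z0,z1])],.ref (nat_lit 396) k7 [(z3,[z3,z1,z1,z1,y3]),(z1,[z0,z0,z0,z1]),(z3,[z0,
    y1,y1,y1,z3]),(z1,[y3,y1,z0,y1,z3])],.ref k77 k6 [(z2,[z3,z0,y1]),(z1,[z0,z1]),(z2,[z3,z0,z1]),(z1,[z0,z0,z0,
    z1])],.ref (nat_lit 238) k10 [(z3,[z3,z1,z1,z1,y3]),(z1,[z0,z1]),(z3,[z0,y1,y1,y1,z3]),(z1,[y6,y3,y1,y3,z9])],
    .ref (nat_lit 449) k7 [(z1,[y3,z0,z1,z1]),(z1,[z0,z0,z0,z1]),(z3,[z0,y1,y1,y1,z3]),(z1,[z3,z0,z0,y1])],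
    .ref k77 k6 [(z2,[z3,z0,z0,y1]),(z1,[z0,z1]),(z2,[z3,z0,z2,y1]),(z1,[z0,z0,z0,z1])],.ref (nat_lit 365) k7 [(z1,
    [y3,z0,z2]),(z1,[z0,z0,z0,z1]),(z3,[z0,y1,y1,y1,z3]),(z1,[z1])],.ref (nat_lit 404) k7 [(z1,[y3,z0,z1]),(z1,[z0,z0,
    z0,z1]),(z3,[z0,y1,y1,y1,z3]),(z1,[z1])],.ref k77 k6 [(z1,[z1]),(z1,[z0,z1]),(z1,[z1,z0,z1]),(z1,[z0,z0,z0,z1])]],
    .lp k0 [(nat_lit 652),(nat_lit 654),(nat_lit 700),(nat_lit 592),(nat_lit 666),(nat_lit 572)] [k24,k24,k23,k23,k0,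
    k0,k54,k54,k17,k17,k64,k64] k0 [[k0,k0,k14,k6,k0,k0,k0,k0,k0,k64,k64,k0],[k0,k0,k0,k0,k38,k22,k46,k14,k0,k0,k0,
    k0],[k0,k6,k0,k8,k24,k0,k20,k0,k0,k22,k0,k0],[k0,k14,k0,k0,k4,k0,k0,k0,k0,k58,k58,k14],[k22,k0,k0,k0,k0,k60,k84,
    k0,k0,k0,k0,k98],[k38,k0,k4,k24,k0,k0,k12,k0,k0,k38,k0,k0],[k14,k0,k0,k0,k0,k0,k0,k0,k102,k102,k0,k90],[k46,k0,k0,
    k20,k12,k84,k0,k0,k0,k0,k0,k86],[k0,k64,k58,k22,k38,k0,k0,k102,k0,k0,k0,k0],[k0,k0,k0,k0,k0,k0,k0,k102,k0,k0,k16,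
    k0],[k0,k0,k14,k0,k0,k98,k86,k90,k0,k0,k0,k0],[k0,k64,k58,k0,k0,k0,k0,k0,k16,k0,k0,k0]] (nat_lit 1920) k5
    [[(k0,(nat_lit 588)),(k11,(nat_lit 596)),(k10,(nat_lit 612)),(k5,(nat_lit 618)),(k1,(nat_lit 652)),(k3,
    (nat_lit 653)),(k8,(nat_lit 659)),(k2,(nat_lit 667)),(k4,(nat_lit 676)),(k6,(nat_lit 708)),(k7,(nat_lit 720)),(k9,
    (nat_lit 749))],[(k1,(nat_lit 588)),(k8,(nat_lit 595)),(k10,(nat_lit 612)),(k11,(nat_lit 612)),(k7,(nat_lit 644)),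
    (k2,(nat_lit 647)),(k0,(nat_lit 652)),(k3,(nat_lit 653)),(k5,(nat_lit 662)),(k6,(nat_lit 668)),(k9,(nat_lit 673)),
    (k4,(nat_lit 714))],[(k7,(nat_lit 585)),(k6,(nat_lit 609)),(k9,(nat_lit 614)),(k0,(nat_lit 653)),(k1,
    (nat_lit 653)),(k3,(nat_lit 654)),(k4,(nat_lit 655)),(k8,(nat_lit 660)),(k2,(nat_lit 668)),(k10,(nat_lit 677)),
    (k11,(nat_lit 677)),(k5,(nat_lit 683))],[(k7,(nat_lit 599)),(k6,(nat_lit 623)),(k8,(nat_lit 638)),(k9,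
    (nat_lit 640)),(k2,(nat_lit 646)),(k0,(nat_lit 647)),(k1,(nat_lit 667)),(k3,(nat_lit 668)),(k10,(nat_lit 671)),
    (k11,(nat_lit 671)),(k5,(nat_lit 677)),(k4,(nat_lit 681))],[(k1,(nat_lit 618)),(k10,(nat_lit 622)),(k8,
    (nat_lit 625)),(k7,(nat_lit 642)),(k11,(nat_lit 658)),(k0,(nat_lit 662)),(k6,(nat_lit 666)),(k2,(nat_lit 677)),
    (k3,(nat_lit 683)),(k9,(nat_lit 683)),(k5,(nat_lit 708)),(k4,(nat_lit 724))],[(k10,(nat_lit 538)),(k9,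
    (nat_lit 599)),(k4,(nat_lit 640)),(k7,(nat_lit 646)),(k3,(nat_lit 655)),(k6,(nat_lit 658)),(k11,(nat_lit 674)),
    (k1,(nat_lit 676)),(k2,(nat_lit 681)),(k8,(nat_lit 683)),(k0,(nat_lit 714)),(k5,(nat_lit 724))],[(k10,
    (nat_lit 582)),(k11,(nat_lit 582)),(k3,(nat_lit 585)),(k8,(nat_lit 591)),(k2,(nat_lit 599)),(k9,(nat_lit 617)),
    (k5,(nat_lit 642)),(k0,(nat_lit 644)),(k4,(nat_lit 646)),(k7,(nat_lit 652)),(k6,(nat_lit 676)),(k1,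
    (nat_lit 720))],[(k11,(nat_lit 480)),(k10,(nat_lit 492)),(k8,(nat_lit 527)),(k6,(nat_lit 592)),(k3,(nat_lit 609)),
    (k2,(nat_lit 623)),(k9,(nat_lit 629)),(k4,(nat_lit 658)),(k5,(nat_lit 666)),(k0,(nat_lit 668)),(k7,(nat_lit 676)),
    (k1,(nat_lit 708))],[(k10,(nat_lit 533)),(k4,(nat_lit 599)),(k3,(nat_lit 614)),(k7,(nat_lit 617)),(k6,
    (nat_lit 629)),(k2,(nat_lit 640)),(k9,(nat_lit 666)),(k0,(nat_lit 673)),(k5,(nat_lit 683)),(k11,(nat_lit 721)),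
    (k1,(nat_lit 749)),(k8,(nat_lit 768))],[(k6,(nat_lit 527)),(k7,(nat_lit 591)),(k0,(nat_lit 595)),(k11,
    (nat_lit 619)),(k5,(nat_lit 625)),(k10,(nat_lit 635)),(k2,(nat_lit 638)),(k1,(nat_lit 659)),(k3,(nat_lit 660)),
    (k8,(nat_lit 666)),(k4,(nat_lit 683)),(k9,(nat_lit 768))],[(k6,(nat_lit 480)),(k10,(nat_lit 572)),(k11,
    (nat_lit 572)),(k7,(nat_lit 582)),(k1,(nat_lit 596)),(k0,(nat_lit 612)),(k8,(nat_lit 619)),(k5,(nat_lit 658)),(k2,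
    (nat_lit 671)),(k4,(nat_lit 674)),(k3,(nat_lit 677)),(k9,(nat_lit 721))],[(k6,(nat_lit 492)),(k9,(nat_lit 533)),
    (k4,(nat_lit 538)),(k10,(nat_lit 572)),(k11,(nat_lit 572)),(k7,(nat_lit 582)),(k0,(nat_lit 612)),(k1,
    (nat_lit 612)),(k5,(nat_lit 622)),(k8,(nat_lit 635)),(k2,(nat_lit 671)),(k3,(nat_lit 677))]]
    [[k3,k0,k0,k0,k0,k0],[k2,k1,k0,k0,k0,k0],[k2,k0,k0,k0,k0,k1],[k1,k1,k0,k0,k1,k0],[k1,k0,k1,k0,k0,k1],[k1,k0,k1,k0,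
    k1,k0],[k1,k0,k0,k1,k0,k1],[k1,k0,k0,k0,k1,k1],[k1,k0,k0,k0,k0,k2],[k0,k2,k0,k1,k0,k0],[k0,k1,k1,k0,k0,k1],[k0,k1,
    k0,k2,k0,k0],[k0,k1,k0,k1,k1,k0],[k0,k1,k0,k1,k0,k1],[k0,k1,k0,k0,k1,k1],[k0,k0,k1,k1,k1,k0],[k0,k0,k1,k1,k0,k1],
    [k0,k0,k1,k2,k0,k0],[k0,k0,k1,k0,k1,k1],[k0,k0,k1,k0,k0,k2],[k0,k0,k0,k2,k1,k0],[k0,k0,k0,k2,k0,k1],[k0,k0,k0,k1,
    k2,k0],[k0,k0,k0,k1,k1,k1],[k0,k0,k0,k1,k0,k2],[k0,k0,k0,k0,k1,k2],[k0,k0,k0,k0,k0,k3]]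
    [.ref k25 k0 [(z1,[z1]),(z2,[y1,z3,z6]),(z4,[z3,y9,z0,z4]),(z1,[z0,z0,z0,z0,z1]),(z2,[y3,z3,y6,y2,y2,z6])],
    .ref k25 k0 [(z1,[z2,y1,y2]),(z1,[y1,z2,z4]),(z2,[z3,y6,y3,z2]),(z1,[z0,z0,z0,z0,z1]),(z1,[y3,z3,z0,y1,y1,z3])],
    .ref k25 k0 [(z3,[z4,z1]),(z3,[y2,z4,z9]),(z1,[z1,y2,z0,z1]),(z1,[z0,z0,z0,z0,z1]),(z1,[y2,z1,y3,y1,y1,z3])],
    .ref k25 k0 [(z1,[y3,z3,z0,y1,y1,z3]),(z2,[z3,z0,z6,z1,z1,y3]),(z4,[y9,z0,z0,z1,y3,z9]),(z1,[z0,z0,z0,z0,z1]),(z2,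
    [z9,y6,y6,z1,z1,y3])],.ref k25 k0 [(z2,[z3,z3,z0,y1]),(z4,[y3,z3,z12,z1]),(z8,[z9,y9,z0,z5]),(z1,[z0,z0,z0,z0,
    z1]),(z4,[y9,y3,y12,y1,y4,z12])],.ref k25 k0 [(z1,[z12,z3,z12,z0,z4,y12]),(z1,[y6,z0,y3,z0,y2,z6]),(z1,[z9,z0,z9,
    z1,z3,y9]),(z1,[z0,z0,z0,z0,z1]),(z1,[y18,y3,y21,y1,y7,z21])],.ref k25 k0 [(z5,[z12,z3,z0,z0,y4]),(z5,[y6,z6,z15,
    z0,z2]),(z5,[z9,y9,z0,z5,y3]),(z1,[z0,z0,z0,z0,z1]),(z5,[y18,z3,y15,y5,z1,z15])],.ref k25 k0 [(z1,[y12,z3,y12,y4,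
    y4,z12]),(z1,[z6,z0,z9,z2,z2,y6]),(z1,[y9,z0,y9,y2,y3,z9]),(z1,[z0,z0,z0,z0,z1]),(z1,[z18,y3,z15,z5,z5,y15])],
    .ref k25 k0 [(z1,[z2,z1]),(z1,[y1,z1,z3]),(z2,[z3,y3,z0,z2]),(z1,[z0,z0,z0,z0,z1]),(z1,[y3,z0,y3,y1,y1,z3])],
    .ref k25 k0 [(z1,[y3,z3,z6,z0,z1]),(z2,[z3,z0,z0,z0,y1]),(z4,[y9,z0,z18,z4,z3]),(z1,[z0,z0,z0,z0,z1]),(z2,[z9,y6,
    y24,y2,y5,z6])],.ref k25 k0 [(z1,[z6,z3,y6,y2]),(z1,[y3,z0,z6,z1]),(z2,[z9,z0,y9,y1]),(z1,[z0,z0,z0,z0,z1]),(z1,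
    [y9,y3,z6,z2,y1,z3])],.ref k25 k0 [(z1,[y6,z3,z6,z0,z4]),(z1,[z3,z0,z0,z0,y2]),(z2,[y9,z0,z9,z2,z6]),(z1,[z0,z0,
    z0,z0,z1]),(z1,[z9,y3,y12,y1,y7,z3])],.ref k25 k0 [(z2,[y3,z3,z0,y1,z0,z3]),(z4,[z3,z3,z12,z1,z0,y3]),(z8,[y9,y9,
    z0,z5,z0,z9]),(z1,[z0,z0,z0,z0,z1]),(z4,[z9,y3,y12,y1,y4,z3])],.ref k25 k0 [(z1,[y12,z3,z12,z0,z4]),(z1,[z6,z0,y3,
    z0,y2]),(z1,[y9,z0,z9,z1,z3]),(z1,[z0,z0,z0,z0,z1]),(z1,[z18,y3,y21,y1,y7,z3])],.ref k25 k0 [(z7,[y12,z9,z0,y4,y4,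
    z12]),(z7,[z6,z6,z21,z2,z2,y6]),(z7,[y9,y9,z0,z4,y3,z9]),(z1,[z0,z0,z0,z0,z1]),(z7,[z18,y3,y21,y1,y1,z3])],
    .ref k25 k0 [(z1,[y4,y1,y4,z0,z0,z4]),(z1,[z2,z2,z5,z0,z0,y2]),(z1,[y3,y3,y3,z1,z0,z3]),(z1,[z0,z0,z0,z0,z1]),(z1,
    [z6,z3,z3,y1,y1,y3])],.ref k25 k0 [(z1,[z3,z3,z0,y1,y1]),(z2,[y3,z0,z6,z1,z1]),(z4,[z9,z0,z0,z1,y3]),(z1,[z0,z0,
    z0,z0,z1]),(z2,[y9,y6,y6,z1,z1,z6])],.ref k25 k0 [(z3,[z12,z9,z0,y4,y8]),(z3,[y6,z0,z9,z2,z4]),(z1,[z3,z0,z0,z0,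
    y2]),(z1,[z0,z0,z0,z0,z1]),(z1,[y6,y3,y3,z1,z3,z3])],.ref k25 k0 [(z1,[y6,y3,y6,z0,y2,z6]),(z1,[z3,z3,z6,z0,z1,
    y3]),(z2,[y9,y9,y9,z2,y3,z9]),(z1,[z0,z0,z0,z0,z1]),(z1,[z9,z6,z6,y1,z2,y6])],.ref k25 k0 [(z5,[z12,z15,z0,y4]),
    (z5,[y6,z0,z15,z2]),(z5,[z9,z0,z0,z2]),(z1,[z0,z0,z0,z0,z1]),(z5,[y18,y15,y15,z1,y5,z15])],.ref k25 k0 [(z3,[y6,
    z3,y6,y2,z2,z6]),(z3,[z3,z3,z12,z1,y1,y3]),(z2,[y3,y3,y3,z1,z1,z3]),(z1,[z0,z0,z0,z0,z1]),(z1,[z3,z0,z0,z0,y2])],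
    .ref k25 k0 [(z1,[z12,z3,z0,z0,y8]),(z1,[y6,z0,z3,z0,z4]),(z1,[z9,z0,z0,z1,y6]),(z1,[z0,z0,z0,z0,z1]),(z1,[y18,y3,
    y3,y1,z11,z3])],.ref k25 k0 [(z3,[y3,z3,y6,y2,y1,z6]),(z6,[z3,z6,z24,z2,z1,y6]),(z4,[y3,y6,y6,z2,y1,z6]),(z1,[z0,
    z0,z0,z0,z1]),(z2,[z3,z0,z0,z0,y1])],.ref k25 k0 [(z5,[y12,z3,y12,y4,z0,z12]),(z5,[z6,z6,z21,z2,z0,y6]),(z5,[y9,
    y9,y9,z2,z0,z9]),(z1,[z0,z0,z0,z0,z1]),(z5,[z18,z3,z3,z1,y5,y3])],.ref k25 k0 [(z1,[z6,z3,z0,z0,y2]),(z1,[y3,z0,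
    z3,z0,z1]),(z2,[z9,z0,z0,z2,y3]),(z1,[z0,z0,z0,z0,z1]),(z1,[y9,y3,y3,y1,z2,z3])],.ref k25 k0 [(z1,[y3,z0,y3,y1,y1,
    z3]),(z2,[z3,z3,z9,z1,z1,y3]),(z4,[y9,y9,y9,z1,y3,z9]),(z1,[z0,z0,z0,z0,z1]),(z2,[z9,z3,z3,z1,z1,y3])],
    .ref k25 k0 [(z1,[z4,z3]),(z1,[y2,z0,z3]),(z1,[z3,z0,z0,z1]),(z1,[z0,z0,z0,z0,z1]),(z1,[y6,y3,y3,y1,y1,z3])]],
    .base (.leafM k0 [k2,k3,k4,k5,k0,k1] [(z1,[y1,y1,y1,z0,z1])] []),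
    .lp k0 [(nat_lit 1888),(nat_lit 1840),(nat_lit 2004),(nat_lit 2032),(nat_lit 2002),(nat_lit 1742)] [k72,k72,k96,
    k96,k14,k14,k0,k0,k15,k15,k145,k145] k0 [[k0,k84,k80,k0,k0,k0,k0,k0,k0,k0,k0,k0],[k0,k0,k0,k0,k28,k0,k28,k0,k62,
    k0,k0,k148],[k0,k0,k0,k0,k0,k0,k0,k0,k0,k10,k0,k120],[k0,k80,k76,k0,k0,k0,k0,k0,k0,k0,k0,k0],[k0,k0,k0,k0,k0,k0,
    k76,k0,k0,k14,k56,k0],[k28,k0,k0,k0,k0,k0,k0,k0,k0,k86,k0,k0],[k0,k0,k0,k0,k0,k0,k0,k116,k178,(nat_lit 306),k0,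
    k0],[k28,k0,k0,k0,k0,k76,k0,k0,k0,k0,k132,k36],[k0,k0,k0,k10,k86,k14,k0,(nat_lit 306),k0,k0,(nat_lit 310),k0],
    [k62,k0,k0,k0,k0,k0,k0,k178,k0,k0,(nat_lit 310),k0],[k148,k0,k0,k120,k0,k0,k36,k0,k0,k0,k0,k32],[k0,k0,k0,k0,k0,
    k56,k132,k0,(nat_lit 310),(nat_lit 310),k0,k0]] (nat_lit 5760) k5
    [[(k11,(nat_lit 1505)),(k8,(nat_lit 1635)),(k9,(nat_lit 1813)),(k10,(nat_lit 1815)),(k2,(nat_lit 1864)),(k3,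
    (nat_lit 1864)),(k4,(nat_lit 1890)),(k1,(nat_lit 1920)),(k7,(nat_lit 1960)),(k6,(nat_lit 1996)),(k0,
    (nat_lit 2036)),(k5,(nat_lit 2066))],[(k0,(nat_lit 1804)),(k10,(nat_lit 1815)),(k11,(nat_lit 1815)),(k2,
    (nat_lit 1864)),(k3,(nat_lit 1864)),(k5,(nat_lit 1866)),(k9,(nat_lit 1945)),(k7,(nat_lit 1960)),(k4,
    (nat_lit 1974)),(k6,(nat_lit 1988)),(k8,(nat_lit 2007)),(k1,(nat_lit 2036))],[(k10,(nat_lit 1643)),(k11,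
    (nat_lit 1729)),(k0,(nat_lit 1864)),(k1,(nat_lit 1864)),(k9,(nat_lit 1893)),(k7,(nat_lit 1908)),(k2,
    (nat_lit 1920)),(k8,(nat_lit 1921)),(k4,(nat_lit 1922)),(k5,(nat_lit 1922)),(k3,(nat_lit 1924)),(k6,
    (nat_lit 1936))],[(k10,(nat_lit 1671)),(k11,(nat_lit 1791)),(k0,(nat_lit 1864)),(k1,(nat_lit 1864)),(k8,
    (nat_lit 1911)),(k2,(nat_lit 1916)),(k3,(nat_lit 1920)),(k9,(nat_lit 1921)),(k4,(nat_lit 1922)),(k5,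
    (nat_lit 1922)),(k6,(nat_lit 1936)),(k7,(nat_lit 1936))],[(k0,(nat_lit 1866)),(k10,(nat_lit 1873)),(k11,
    (nat_lit 1883)),(k2,(nat_lit 1922)),(k3,(nat_lit 1922)),(k5,(nat_lit 1928)),(k8,(nat_lit 2003)),(k9,
    (nat_lit 2003)),(k4,(nat_lit 2004)),(k6,(nat_lit 2018)),(k7,(nat_lit 2018)),(k1,(nat_lit 2066))],[(k10,
    (nat_lit 1873)),(k1,(nat_lit 1890)),(k2,(nat_lit 1922)),(k3,(nat_lit 1922)),(k9,(nat_lit 1927)),(k11,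
    (nat_lit 1959)),(k0,(nat_lit 1974)),(k8,(nat_lit 1989)),(k4,(nat_lit 2004)),(k5,(nat_lit 2004)),(k6,
    (nat_lit 2018)),(k7,(nat_lit 2018))],[(k11,(nat_lit 1901)),(k3,(nat_lit 1908)),(k8,(nat_lit 1931)),(k2,
    (nat_lit 1936)),(k10,(nat_lit 1943)),(k0,(nat_lit 1960)),(k1,(nat_lit 1960)),(k9,(nat_lit 2017)),(k4,
    (nat_lit 2018)),(k5,(nat_lit 2018)),(k7,(nat_lit 2032)),(k6,(nat_lit 2108))],[(k11,(nat_lit 1709)),(k8,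
    (nat_lit 1711)),(k6,(nat_lit 1916)),(k2,(nat_lit 1936)),(k3,(nat_lit 1936)),(k0,(nat_lit 1988)),(k1,
    (nat_lit 1996)),(k9,(nat_lit 2017)),(k4,(nat_lit 2018)),(k5,(nat_lit 2018)),(k10,(nat_lit 2019)),(k7,
    (nat_lit 2108))],[(k1,(nat_lit 1813)),(k10,(nat_lit 1836)),(k3,(nat_lit 1893)),(k2,(nat_lit 1921)),(k4,
    (nat_lit 1927)),(k0,(nat_lit 1945)),(k5,(nat_lit 2003)),(k6,(nat_lit 2017)),(k7,(nat_lit 2017)),(k9,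
    (nat_lit 2118)),(k11,(nat_lit 2178)),(k8,(nat_lit 2180))],[(k1,(nat_lit 1635)),(k6,(nat_lit 1711)),(k11,
    (nat_lit 1872)),(k2,(nat_lit 1911)),(k3,(nat_lit 1921)),(k7,(nat_lit 1931)),(k4,(nat_lit 1989)),(k8,
    (nat_lit 2002)),(k5,(nat_lit 2003)),(k0,(nat_lit 2007)),(k9,(nat_lit 2180)),(k10,(nat_lit 2182))],[(k1,
    (nat_lit 1505)),(k6,(nat_lit 1709)),(k3,(nat_lit 1729)),(k11,(nat_lit 1742)),(k2,(nat_lit 1791)),(k0,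
    (nat_lit 1815)),(k8,(nat_lit 1872)),(k5,(nat_lit 1883)),(k7,(nat_lit 1901)),(k4,(nat_lit 1959)),(k10,
    (nat_lit 2052)),(k9,(nat_lit 2178))],[(k3,(nat_lit 1643)),(k2,(nat_lit 1671)),(k10,(nat_lit 1710)),(k0,
    (nat_lit 1815)),(k1,(nat_lit 1815)),(k9,(nat_lit 1836)),(k4,(nat_lit 1873)),(k5,(nat_lit 1873)),(k7,
    (nat_lit 1943)),(k6,(nat_lit 2019)),(k11,(nat_lit 2052)),(k8,(nat_lit 2182))]]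
    [[k2,k0,k0,k0,k1,k0],[k2,k0,k0,k0,k0,k1],[k2,k1,k0,k0,k0,k0],[k1,k2,k0,k0,k0,k0],[k1,k1,k1,k0,k0,k0],[k1,k1,k0,k0,
    k1,k0],[k1,k1,k0,k0,k0,k1],[k1,k0,k1,k0,k0,k1],[k1,k0,k0,k1,k0,k1],[k1,k0,k0,k1,k1,k0],[k1,k0,k1,k0,k1,k0],[k1,k0,
    k0,k0,k1,k1],[k1,k0,k0,k0,k0,k2],[k0,k2,k0,k0,k1,k0],[k0,k2,k0,k0,k0,k1],[k0,k1,k1,k0,k0,k1],[k0,k1,k0,k1,k0,k1],
    [k0,k1,k0,k1,k1,k0],[k0,k1,k0,k0,k1,k1],[k0,k1,k0,k0,k0,k2],[k0,k0,k1,k1,k1,k0],[k0,k0,k1,k1,k0,k1],[k0,k0,k1,k0,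
    k1,k1],[k0,k0,k1,k0,k0,k2],[k0,k0,k0,k1,k1,k1],[k0,k0,k0,k1,k0,k2],[k0,k0,k0,k0,k0,k3]]
    [.ref k25 k0 [(z3,[z6,z3,z2,z2,z2,y6]),(z6,[y3,z3,z5,y1,y1,z3]),(z3,[y6,z6,y2,z1,y2,z6]),(z3,[z3,y3,z1,z1,z4,y3]),
    (z3,[y3,y6,y4,y4,y4,z12])],.ref k25 k0 [(z3,[z4,z1]),(z3,[y1,z2,z3]),(z3,[y4,z8,z0,z3]),(z3,[z2,y4,z0,z0,z3]),(z3,
    [y2,y5,y3,y3,y3,z9])],.ref k25 k0 [(z7,[z12,y3,y4]),(z7,[y3,z6,z8]),(z7,[y12,z24,z4,z7]),(z7,[z6,y12,y2,z0,z7]),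
    (z7,[y6,y9,y5,y7,y7,z21])],.ref k25 k0 [(z1,[z6,y3,y4]),(z2,[y3,z3,z4]),(z1,[y6,z6,z4,z1]),(z1,[z3,y3,y2,z0,z1]),
    (z1,[y3,z0,z1,y1,y1,z3])],.ref k25 k0 [(z1,[y12,z15,z4,z4]),(z1,[z3,y3,z0,y1]),(z1,[z12,y12,y4,y3]),(z1,[y6,z6,z2,
    z2,z1]),(z1,[z6,y9,y3,y3,y1,z3])],.ref k25 k0 [(z1,[z12,z3,z0,z4,z4,y12]),(z1,[y3,z0,z1,y1,y1,z3]),(z1,[y12,z0,z0,
    y3,y4,z12]),(z1,[z6,z0,z0,z2,z3,y6]),(z1,[y6,y3,y1,y3,y3,z9])],.ref k25 k0 [(z1,[z3,z0,y1]),(z4,[y3,z3,z5]),(z1,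
    [y3,z3,z1,z1]),(z2,[z3,y3,y1,z0,z2]),(z2,[y3,y3,y1,y2,y2,z6])],.ref k25 k0 [(z1,[z12,y9,z0,y4]),(z1,[y3,z3,z1,
    z1]),(z1,[y12,z12,z0,z5]),(z1,[z6,y6,z0,y2,z1]),(z1,[y6,z3,y1,z1,y1,z3])],.ref k25 k0 [(z7,[z12,z9,z0,z0,y4]),(z7,
    [y3,z3,z7,z0,z1]),(z7,[y12,z12,z0,z7,z4]),(z7,[z6,y6,z0,z0,z5]),(z7,[y6,y15,y7,y7,y5,z21])],.ref k25 k0 [(z1,[z3,
    z3,z1,z1,z0,y3]),(z4,[y3,z0,z3,y1,z0,z3]),(z1,[y3,z0,y1,z0,z0,z3]),(z2,[z3,z0,z1,z1,z2,y3]),(z2,[y3,y6,y3,y3,y2,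
    z9])],.ref k25 k0 [(z1,[y6,z3,y2,z0,y2,z6]),(z2,[z3,z0,z3,z0,z1,y3]),(z1,[z6,z0,z2,z1,z2,y6]),(z1,[y3,z0,y1,z0,z0,
    z3]),(z1,[z3,y3,z0,y1])],.ref k25 k0 [(z3,[z12,z9,z4,z4,z4,y12]),(z3,[y3,z0,z2,y1,y1,z3]),(z3,[y12,z0,y4,y1,y4,
    z12]),(z3,[z6,z0,z2,z2,z5,y6]),(z3,[y6,y9,y5,y5,y5,z15])],.ref k25 k0 [(z1,[z2,z1]),(z2,[y1,z1,z2]),(z1,[y2,z2,z0,
    z1]),(z1,[z1,y1,z0,z0,z1]),(z1,[y1,y2,y1,y1,y1,z3])],.ref k25 k0 [(z1,[y3,z0,z1,y1,y1,z3]),(z4,[z3,z3,z3,z1,z1,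
    y3]),(z1,[z3,z3,y1,z2,z1,y3]),(z2,[y3,y3,z1,y1,z1,z3]),(z2,[z3,y3,y3,y1,y1,z3])],.ref k25 k0 [(z1,[y12,z3,z8]),
    (z1,[z3,z0,y1]),(z1,[z12,z0,y8,z1]),(z1,[y6,z0,z4,z0,z1]),(z1,[z6,y3,y5,y1,y1,z3])],.ref k25 k0 [(z1,[y3,z3,z1,
    z1]),(z4,[z3,z0,z3,y1]),(z1,[z3,z0,y1]),(z2,[y3,z0,z1,z1,z2]),(z2,[z3,y6,y3,y3,y2,z6])],.ref k25 k0 [(z1,[z6,z3,
    y2,z0,y2]),(z2,[y3,z0,z3,z0,z1]),(z1,[y6,z0,z2,z1,z2]),(z1,[z3,z0,y1]),(z1,[y3,y3,z0,y1,z0,z3])],.ref k25 k0 [(z1,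
    [y12,y9,z0,y4,z0,z12]),(z1,[z3,z3,z1,z1,z0,y3]),(z1,[z12,z12,z0,z5,z0,y12]),(z1,[y6,y6,z0,y2,z1,z6]),(z1,[z6,z3,
    y1,z1,y1,y3])],.ref k25 k0 [(z1,[y6,y3,z0,y2,y2,z6]),(z2,[z3,z3,z2,z1,z1,y3]),(z1,[z6,z6,z0,z3,z2,y6]),(z1,[y3,y3,
    z0,y1,z0,z3]),(z1,[z3,z0,y1])],.ref k25 k0 [(z1,[z12,z3,y4]),(z1,[y3,z0,z2]),(z1,[y12,z0,z4,z1]),(z1,[z6,z0,y2,z0,
    z1]),(z1,[y6,y3,z1,y1,y1,z3])],.ref k25 k0 [(z1,[y3,z0,y1,z0,z0,z3]),(z4,[z3,z3,z5,z0,z0,y3]),(z1,[z3,z3,z1,z1,z0,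
    y3]),(z2,[y3,y3,y1,z0,z2,z3]),(z2,[z3,y3,y1,y2,y2,z3])],.ref k25 k0 [(z1,[y12,z3,z0,z4,z4]),(z1,[z3,z0,z1,y1,y1]),
    (z1,[z12,z0,z0,y3,y4]),(z1,[y6,z0,z0,z2,z3]),(z1,[z6,y3,y1,y3,y3,z3])],.ref k25 k0 [(z5,[y12,z3,y4,z0,y4,z12]),
    (z5,[z3,z3,z6,z0,z1,y3]),(z5,[z12,z12,z4,z5,z4,y12]),(z5,[y6,y6,y2,z0,z3,z6]),(z5,[z6,y9,y3,y5,y3,z9])],
    .ref k25 k0 [(z1,[y6,z3,z0,z2]),(z2,[z3,z0,z2,y1]),(z1,[z6,z0,z0,y1]),(z1,[y3,z0,z0,z1,z1]),(z1,[z3,y3,y1,y2,y1,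
    z3])],.ref k25 k0 [(z1,[z12,z15,z4,z4,z0,y12]),(z1,[y3,y3,z0,y1,z0,z3]),(z1,[y12,y12,y4,y3,z0,z12]),(z1,[z6,z6,z2,
    z2,z1,y6]),(z1,[y6,y9,y3,y3,y1,z9])],.ref k25 k0 [(z1,[z3,z3,z0,z0,y1]),(z4,[y3,z0,z4,z0,z1]),(z1,[y3,z0,z0,z1,
    z1]),(z2,[z3,z0,z0,z0,z1]),(z2,[y3,y6,y2,y2,y1,z6])],.ref k25 k0 [(z1,[z4,z3]),(z1,[y1,z0,z1]),(z1,[y4,z0,z0,z1]),
    (z1,[z2,z0,z0,z0,z1]),(z1,[y2,y3,y1,y1,y1,z3])]],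
    .base (.leafM k0 [k2,k3,k4,k5,k0,k1] [(z1,[y1,y1,y1,z0,z1])] []),
    .base (.leafM k3 [k1,k2,k3,k4,k5,k0] [(z1,[y1,y1,z0,y1,z1])] [])]

theorem hB6_171_37 : blkB [0, 0, 0, 0, 0, 0] [] sp6 hS6_171 (pcls (n := 6) [0, 0, 0, 0, 0, 0]) hD6_171 560 37 hN6_171_37 = true := by
  decide +kernel

/-- nodes 456 to 467 -/
noncomputable def hN6_171_38 : List HM :=
  [.base (.leafM k3 [k2,k3,k4,k5,k0,k1] [(z1,[z1,z0,z0,z1])] []),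
    .lp k0 [k82,k84,k80,k80,k78,k74] [k1,k1,k0,k0,k2,k2,k2,k2,k3,k3,k5,k5] k0 [[k0,k0,k0,k0,k0,k0,k0,k0,k0,k6,k6,k2],
    [k0,k0,k0,k0,k4,k0,k0,k4,k0,k0,k0,k0],[k0,k0,k0,k0,k4,k0,k0,k4,k0,k0,k0,k0],[k0,k0,k0,k0,k0,k0,k0,k0,k0,k2,k2,k2],
    [k0,k0,k0,k0,k0,k0,k0,k0,k0,k0,k0,k12],[k4,k0,k0,k4,k0,k0,k0,k0,k6,k0,k0,k2],[k4,k0,k0,k4,k0,k0,k0,k0,k16,k16,k0,
    k16],[k0,k0,k0,k0,k0,k0,k0,k0,k0,k0,k0,k6],[k0,k6,k2,k0,k0,k0,k0,k16,k0,k0,k0,k0],[k0,k0,k0,k0,k6,k0,k0,k16,k0,k0,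
    k10,k0],[k0,k2,k2,k0,k2,k12,k6,k16,k0,k0,k0,k0],[k0,k6,k2,k0,k0,k0,k0,k0,k10,k0,k0,k0]] (nat_lit 240) k5
    [[(k11,k68),(k0,k76),(k10,k78),(k5,k79),(k8,k80),(k1,k82),(k4,k83),(k2,k85),(k3,k85),(k6,k87),(k7,k93),(k9,k96)],
    [(k8,k74),(k1,k76),(k10,k76),(k11,k78),(k5,k81),(k6,k81),(k7,k81),(k0,k82),(k2,k83),(k3,k83),(k9,k84),(k4,k85)],
    [(k6,k78),(k7,k78),(k8,k81),(k9,k81),(k4,k82),(k5,k82),(k0,k83),(k2,k84),(k3,k84),(k1,k85),(k10,k85),(k11,k85)],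
    [(k6,k78),(k7,k78),(k8,k81),(k9,k81),(k10,k81),(k11,k81),(k4,k82),(k5,k82),(k0,k83),(k2,k84),(k3,k84),(k1,k85)],
    [(k10,k75),(k8,k77),(k11,k77),(k1,k79),(k5,k80),(k6,k80),(k7,k80),(k0,k81),(k2,k82),(k3,k82),(k9,k83),(k4,k84)],
    [(k10,k65),(k11,k77),(k9,k79),(k4,k80),(k6,k80),(k7,k80),(k2,k82),(k3,k82),(k1,k83),(k5,k84),(k0,k85),(k8,k85)],
    [(k11,k71),(k10,k75),(k2,k78),(k3,k78),(k8,k79),(k9,k79),(k4,k80),(k5,k80),(k6,k80),(k7,k80),(k0,k81),(k1,k93)],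
    [(k10,k61),(k11,k61),(k8,k63),(k2,k78),(k3,k78),(k9,k79),(k4,k80),(k5,k80),(k6,k80),(k7,k80),(k0,k81),(k1,k87)],
    [(k10,k70),(k9,k78),(k4,k79),(k6,k79),(k7,k79),(k2,k81),(k3,k81),(k5,k83),(k0,k84),(k11,k92),(k8,k94),(k1,k96)],
    [(k6,k63),(k0,k74),(k11,k76),(k5,k77),(k8,k78),(k7,k79),(k1,k80),(k2,k81),(k3,k81),(k4,k85),(k10,k86),(k9,k94)],
    [(k6,k61),(k1,k68),(k7,k71),(k10,k74),(k11,k74),(k8,k76),(k4,k77),(k5,k77),(k0,k78),(k2,k81),(k3,k85),(k9,k92)],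
    [(k6,k61),(k4,k65),(k9,k70),(k10,k74),(k11,k74),(k5,k75),(k7,k75),(k0,k76),(k1,k78),(k2,k81),(k3,k85),(k8,k86)]]
    [[k3,k0,k0,k0,k0,k0],[k2,k0,k0,k0,k0,k1],[k1,k0,k1,k0,k0,k1],[k1,k0,k1,k0,k1,k0],[k1,k0,k0,k1,k0,k1],[k1,k0,k0,k0,
    k2,k0],[k1,k0,k0,k0,k1,k1],[k1,k0,k0,k0,k0,k2],[k1,k1,k0,k0,k0,k1],[k0,k1,k1,k0,k0,k1],[k0,k1,k0,k2,k0,k0],[k0,k1,
    k0,k1,k1,k0],[k0,k1,k0,k1,k0,k1],[k0,k1,k0,k0,k1,k1],[k0,k0,k2,k0,k0,k1],[k0,k0,k1,k1,k1,k0],[k0,k0,k1,k1,k0,k1],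
    [k0,k0,k1,k0,k1,k1],[k0,k0,k1,k0,k0,k2],[k0,k0,k0,k2,k1,k0],[k0,k0,k0,k2,k0,k1],[k0,k0,k0,k1,k2,k0],[k0,k0,k0,k1,
    k1,k1],[k0,k0,k0,k1,k0,k2],[k0,k0,k0,k0,k1,k2],[k0,k0,k0,k0,k0,k3]]
    [.ref k25 k0 [(z1,[z1]),(z2,[y1,z3,z6]),(z4,[z7,y21,z0,z12]),(z1,[z1,y3,z0,z0,z3]),(z2,[y7,z15,y6,y6,y6,z6])],
    .ref k25 k0 [(z3,[z4,z1]),(z3,[y2,z4,z9]),(z3,[z7,y14,z0,z9]),(z3,[z4,y8,z0,z0,z9]),(z3,[y14,z19,y9,y9,y9,z9])],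
    .ref k25 k0 [(z1,[z1,z2,z0,y1]),(z2,[y1,z1,z6,z1]),(z4,[z7,y7,z0,z5]),(z1,[z1,y1,z0,y1,z3]),(z2,[y7,z1,y6,z1,y6,
    z6])],.ref k25 k0 [(z1,[y4,z3,y4,z0,y4,z4]),(z1,[z2,z0,z5,z0,z2,y2]),(z1,[y7,z0,y7,z3,y7,z7]),(z1,[y4,z0,y4,z0,y1,
    z4]),(z1,[z14,y3,z11,y3,z11,y11])],.ref k25 k0 [(z3,[z4,z5,z0,z0,y4]),(z3,[y2,z2,z9,z0,z2]),(z3,[z7,y7,z0,z9,y7]),
    (z3,[z4,y4,z0,z0,z5]),(z3,[y14,z5,y9,y9,z5,z9])],.ref k25 k0 [(z2,[y1,z5,y2,y2,y2,z2]),(z4,[z1,z1,z14,z2,z2,y2]),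
    (z8,[y7,y7,y14,z10,y14,z14]),(z2,[y1,y1,y2,y2,z4,z2]),(z4,[z7,y5,z2,z2,z2,y2])],.ref k25 k0 [(z3,[y4,z9,y4,y4,y4,
    z4]),(z3,[z2,z0,z11,z2,z2,y2]),(z3,[y7,z0,y7,z2,y7,z7]),(z3,[y4,z0,y4,y4,z5,z4]),(z3,[z14,y9,z5,z5,z5,y5])],
    .ref k25 k0 [(z1,[z2,z1]),(z1,[y1,z1,z3]),(z2,[z7,y7,z0,z6]),(z1,[z2,y2,z0,z0,z3]),(z1,[y7,z4,y3,y3,y3,z3])],
    .ref k25 k0 [(z1,[z4,y1,y4]),(z1,[y2,z2,z5]),(z1,[z7,y7,y7,z3]),(z1,[z4,y4,y4,z0,z3]),(z1,[y14,z11,z11,y3,y3,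
    z3])],.ref k25 k0 [(z1,[z2,z3,y2,y2]),(z1,[y1,z0,z4,z1]),(z2,[z7,z0,y7,y1]),(z1,[z2,z0,y2,y2,z3]),(z1,[y7,y3,z4,
    z4,y3,z3])],.ref k25 k0 [(z1,[z2,z3,y2,z0,y4]),(z1,[y1,z0,z4,z0,z2]),(z2,[z7,z0,y7,z6,y14]),(z1,[z2,z0,y2,z0,y1]),
    (z1,[y7,y3,z4,y3,z11,z3])],.ref k25 k0 [(z1,[y1,z2,z0,y1,z0,z1]),(z2,[z1,z1,z6,z1,z0,y1]),(z4,[y7,y7,z0,z5,z0,
    z7]),(z1,[y1,y1,z0,y1,z3,z1]),(z2,[z7,z1,y6,z1,y6,y1])],.ref k25 k0 [(z1,[z4,z3,y4,z0,y4]),(z1,[y2,z0,z5,z0,z2]),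
    (z1,[z7,z0,y7,z3,y7]),(z1,[z4,z0,y4,z0,y1]),(z1,[y14,y3,z11,y3,z11,z3])],.ref k25 k0 [(z5,[y4,z11,z0,y4,y4,z4]),
    (z5,[z2,z2,z15,z2,z2,y2]),(z5,[y7,y7,z0,z8,y7,z7]),(z5,[y4,y4,z0,y4,z11,z4]),(z5,[z14,y1,y15,y1,y1,z1])],
    .ref k25 k0 [(z5,[z4,z15,z0,y8]),(z5,[y2,z0,z15,z4]),(z5,[z7,z0,z0,z1]),(z5,[z4,z0,z0,y8,z15]),(z5,[y14,y15,y15,
    z13,y15,z15])],.ref k25 k0 [(z1,[y4,y1,y4,z0,z0,z4]),(z1,[z2,z2,z5,z0,z0,y2]),(z1,[y7,y7,y7,z3,z0,z7]),(z1,[y4,y4,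
    y4,z0,z3,z4]),(z1,[z14,z11,z11,y3,y3,y11])],.ref k25 k0 [(z1,[z1,z3,z0,y1,y1]),(z2,[y1,z0,z6,z1,z1]),(z4,[z7,z0,
    z0,z5,y7]),(z1,[z1,z0,z0,y1,z2]),(z2,[y7,y6,y6,z1,z1,z6])],.ref k25 k0 [(z1,[y2,z1,y2,z0,y2,z2]),(z1,[z1,z1,z4,z0,
    z1,y1]),(z2,[y7,y7,y7,z6,y7,z7]),(z1,[y2,y2,y2,z0,z1,z2]),(z1,[z7,z4,z4,y3,z4,y4])],.ref k25 k0 [(z3,[z4,z9,z0,
    y4]),(z3,[y2,z0,z9,z2]),(z3,[z7,z0,z0,z2]),(z3,[z4,z0,z0,y4,z9]),(z3,[y14,y9,y9,z5,y9,z9])],.ref k25 k0 [(z1,[y2,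
    z1,y2,y2,z2,z2]),(z1,[z1,z1,z4,z1,y1,y1]),(z2,[y7,y7,y7,y1,z7,z7]),(z1,[y2,y2,y2,y2,z5,z2]),(z1,[z7,z4,z4,z4,y10,
    y4])],.ref k25 k0 [(z3,[z4,z9,z0,z0,y8]),(z3,[y2,z0,z9,z0,z4]),(z3,[z7,z0,z0,z9,y14]),(z3,[z4,z0,z0,z0,z1]),(z3,
    [y14,y9,y9,y9,z19,z9])],.ref k25 k0 [(z2,[y1,z4,y2,y2,y1,z2]),(z4,[z1,z2,z14,z2,z1,y2]),(z8,[y7,y14,y14,z10,y7,
    z14]),(z2,[y1,y2,y2,y2,z5,z2]),(z4,[z7,z2,z2,z2,y5,y2])],.ref k25 k0 [(z3,[y4,z5,y4,y4,z0,z4]),(z3,[z2,z2,z11,z2,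
    z0,y2]),(z3,[y7,y7,y7,z2,z0,z7]),(z3,[y4,y4,y4,y4,z9,z4]),(z3,[z14,z5,z5,z5,y9,y5])],.ref k25 k0 [(z1,[z2,z3,z0,
    z0,y2]),(z1,[y1,z0,z3,z0,z1]),(z2,[z7,z0,z0,z6,y7]),(z1,[z2,z0,z0,z0,z1]),(z1,[y7,y3,y3,y3,z4,z3])],
    .ref k25 k0 [(z1,[y1,z2,y1,y1,y1,z1]),(z2,[z1,z1,z7,z1,z1,y1]),(z4,[y7,y7,y7,z5,y7,z7]),(z1,[y1,y1,y1,y1,z2,z1]),
    (z2,[z7,z1,z1,z1,z1,y1])],.ref k25 k0 [(z1,[z4,z3]),(z1,[y2,z0,z3]),(z1,[z7,z0,z0,z3]),(z1,[z4,z0,z0,z0,z3]),(z1,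
    [y14,y3,y3,y3,y3,z3])]],
    .lp k0 [(nat_lit 458),(nat_lit 452),(nat_lit 506),(nat_lit 512),(nat_lit 506),(nat_lit 440)] [k24,k34,k32,k32,k5,
    k5,k2,k2,k0,k10,k38,k38] k0 [[k0,k18,k0,k0,k0,k0,k0,k0,k0,k132,k18,k0],[k0,k0,k18,k18,k18,k12,k30,k0,k0,k0,k0,k0],
    [k18,k0,k0,k6,k0,k0,k6,k0,k0,k0,k0,k18],[k18,k0,k0,k0,k0,k0,k6,k0,k0,k96,k0,k6],[k12,k0,k0,k0,k0,k0,k0,k0,k6,k36,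
    k0,k12],[k18,k0,k0,k0,k24,k0,k0,k18,k0,k0,k0,k18],[k0,k0,k0,k0,k18,k0,k0,k54,k6,k36,k0,k0],[k30,k0,k6,k6,k0,k0,k0,
    k0,k0,k0,k78,k18],[k0,k132,k96,k0,k0,k36,k0,k36,k0,k0,k114,k0],[k0,k0,k0,k0,k0,k6,k0,k6,k12,k0,k84,k0],[k0,k0,k6,
    k18,k18,k12,k18,k0,k0,k0,k0,k0],[k0,k18,k0,k0,k0,k0,k78,k0,k84,k114,k18,k0]] (nat_lit 1440) k5
    [[(k11,(nat_lit 360)),(k8,(nat_lit 368)),(k9,(nat_lit 394)),(k1,(nat_lit 430)),(k0,(nat_lit 440)),(k10,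
    (nat_lit 444)),(k3,(nat_lit 450)),(k2,(nat_lit 456)),(k7,(nat_lit 492)),(k4,(nat_lit 495)),(k5,(nat_lit 495)),(k6,
    (nat_lit 498))],[(k8,(nat_lit 360)),(k1,(nat_lit 440)),(k0,(nat_lit 450)),(k10,(nat_lit 454)),(k11,(nat_lit 454)),
    (k3,(nat_lit 460)),(k2,(nat_lit 478)),(k9,(nat_lit 482)),(k7,(nat_lit 502)),(k4,(nat_lit 505)),(k5,(nat_lit 505)),
    (k6,(nat_lit 520))],[(k2,(nat_lit 434)),(k9,(nat_lit 444)),(k1,(nat_lit 450)),(k0,(nat_lit 460)),(k5,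
    (nat_lit 461)),(k7,(nat_lit 464)),(k10,(nat_lit 464)),(k4,(nat_lit 467)),(k3,(nat_lit 470)),(k6,(nat_lit 482)),
    (k8,(nat_lit 484)),(k11,(nat_lit 578))],[(k10,(nat_lit 428)),(k3,(nat_lit 434)),(k2,(nat_lit 446)),(k1,
    (nat_lit 456)),(k9,(nat_lit 468)),(k0,(nat_lit 478)),(k4,(nat_lit 479)),(k5,(nat_lit 479)),(k7,(nat_lit 482)),(k8,
    (nat_lit 484)),(k6,(nat_lit 488)),(k11,(nat_lit 542))],[(k8,(nat_lit 415)),(k3,(nat_lit 461)),(k10,(nat_lit 467)),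
    (k11,(nat_lit 473)),(k2,(nat_lit 479)),(k1,(nat_lit 495)),(k9,(nat_lit 495)),(k0,(nat_lit 505)),(k4,
    (nat_lit 506)),(k7,(nat_lit 509)),(k5,(nat_lit 512)),(k6,(nat_lit 515))],[(k10,(nat_lit 461)),(k3,(nat_lit 467)),
    (k11,(nat_lit 467)),(k8,(nat_lit 475)),(k2,(nat_lit 479)),(k1,(nat_lit 495)),(k0,(nat_lit 505)),(k5,
    (nat_lit 506)),(k6,(nat_lit 509)),(k7,(nat_lit 509)),(k9,(nat_lit 519)),(k4,(nat_lit 530))],[(k10,(nat_lit 458)),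
    (k3,(nat_lit 464)),(k2,(nat_lit 482)),(k7,(nat_lit 488)),(k1,(nat_lit 492)),(k6,(nat_lit 494)),(k0,(nat_lit 502)),
    (k9,(nat_lit 504)),(k4,(nat_lit 509)),(k5,(nat_lit 509)),(k11,(nat_lit 512)),(k8,(nat_lit 520))],[(k6,
    (nat_lit 458)),(k11,(nat_lit 470)),(k8,(nat_lit 478)),(k3,(nat_lit 482)),(k2,(nat_lit 488)),(k7,(nat_lit 494)),
    (k1,(nat_lit 498)),(k9,(nat_lit 504)),(k4,(nat_lit 509)),(k5,(nat_lit 515)),(k0,(nat_lit 520)),(k10,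
    (nat_lit 554))],[(k1,(nat_lit 394)),(k3,(nat_lit 444)),(k10,(nat_lit 450)),(k2,(nat_lit 468)),(k0,(nat_lit 482)),
    (k5,(nat_lit 495)),(k6,(nat_lit 504)),(k7,(nat_lit 504)),(k11,(nat_lit 504)),(k8,(nat_lit 512)),(k4,
    (nat_lit 519)),(k9,(nat_lit 550))],[(k0,(nat_lit 360)),(k1,(nat_lit 368)),(k5,(nat_lit 415)),(k4,(nat_lit 475)),
    (k6,(nat_lit 478)),(k11,(nat_lit 478)),(k2,(nat_lit 484)),(k3,(nat_lit 484)),(k9,(nat_lit 512)),(k7,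
    (nat_lit 520)),(k8,(nat_lit 528)),(k10,(nat_lit 562))],[(k1,(nat_lit 360)),(k11,(nat_lit 428)),(k0,(nat_lit 454)),
    (k4,(nat_lit 467)),(k6,(nat_lit 470)),(k5,(nat_lit 473)),(k8,(nat_lit 478)),(k9,(nat_lit 504)),(k7,(nat_lit 512)),
    (k2,(nat_lit 542)),(k10,(nat_lit 554)),(k3,(nat_lit 578))],[(k2,(nat_lit 428)),(k1,(nat_lit 444)),(k9,
    (nat_lit 450)),(k0,(nat_lit 454)),(k7,(nat_lit 458)),(k10,(nat_lit 458)),(k4,(nat_lit 461)),(k3,(nat_lit 464)),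
    (k5,(nat_lit 467)),(k6,(nat_lit 554)),(k11,(nat_lit 554)),(k8,(nat_lit 562))]]
    [[k3,k0,k0,k0,k0,k0],[k2,k1,k0,k0,k0,k0],[k2,k0,k0,k0,k1,k0],[k2,k0,k0,k0,k0,k1],[k1,k2,k0,k0,k0,k0],[k1,k1,k1,k0,
    k0,k0],[k1,k1,k0,k0,k1,k0],[k1,k1,k0,k0,k0,k1],[k1,k0,k1,k0,k1,k0],[k1,k0,k1,k0,k0,k1],[k1,k0,k0,k1,k1,k0],[k1,k0,
    k0,k1,k0,k1],[k1,k0,k0,k0,k2,k0],[k1,k0,k0,k0,k1,k1],[k1,k0,k0,k0,k0,k2],[k0,k3,k0,k0,k0,k0],[k0,k2,k1,k0,k0,k0],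
    [k0,k2,k0,k1,k0,k0],[k0,k2,k0,k0,k1,k0],[k0,k1,k1,k0,k1,k0],[k0,k1,k1,k0,k0,k1],[k0,k1,k0,k1,k0,k1],[k0,k1,k0,k2,
    k0,k0],[k0,k1,k0,k1,k1,k0],[k0,k1,k0,k0,k1,k1],[k0,k1,k0,k0,k0,k2],[k0,k0,k1,k1,k1,k0],[k0,k0,k1,k0,k1,k1],[k0,k0,
    k1,k0,k0,k2],[k0,k0,k0,k2,k0,k1]]
    [.ref k25 k0 [(z1,[z1]),(z22,[y2,z3,z33]),(z11,[z8,y12,z0,z33]),(z11,[y16,z24,z0,z0,z33]),(z22,[y8,y21,y33,y66,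
    y66,z66])],.ref k25 k0 [(z14,[z22,y1,y11]),(z7,[y1,z1,z11]),(z7,[z8,y8,y4,z21]),(z7,[y16,z16,z8,z0,z21]),(z14,[y8,
    y13,y17,y42,y42,z42])],.ref k25 k0 [(z12,[z22,z7,z11,z22,z22,y22]),(z12,[y2,z1,z17,y2,y2,z2]),(z3,[z4,y2,z2,z13,
    z4,y4]),(z3,[y8,z4,y4,y8,z1,z8]),(z6,[y4,y7,y11,y22,y22,z22])],.ref k25 k0 [(z8,[z11,z1]),(z8,[y1,z1,z12]),(z1,
    [z1,y1,z0,z3]),(z1,[y2,z2,z0,z0,z3]),(z2,[y1,y2,y3,y6,y6,z6])],.ref k25 k0 [(z3,[z11,y1,y11]),(z6,[y2,z1,z11]),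
    (z3,[z8,y4,y8,z9]),(z3,[y16,z8,z16,z0,z9]),(z6,[y8,y5,y1,y18,y18,z18])],.ref k25 k0 [(z12,[z22,z7,y11,y22]),(z12,
    [y2,z1,z19,z2]),(z3,[z4,y2,y2,z5]),(z3,[y8,z4,z4,z8,z9]),(z6,[y4,y7,y7,y14,y18,z18])],.ref k25 k0 [(z2,[z11,z3,z0,
    z11,z11,y11]),(z2,[y1,z0,z3,y1,y1,z1]),(z1,[z4,z0,z0,z7,z4,y4]),(z1,[y8,z0,z0,y8,y5,z8]),(z2,[y4,y3,y3,y10,y10,
    z10])],.ref k25 k0 [(z8,[z22,z1,y11]),(z8,[y2,z1,z13]),(z1,[z2,y1,y1,z3]),(z1,[y4,z2,z2,z0,z3]),(z1,[y1,y1,y1,y3,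
    y3,z3])],.ref k25 k0 [(z10,[z22,z15,z11,z0,z22,y22]),(z5,[y1,z0,z7,z0,y1,z1]),(z5,[z8,z0,z4,z15,z8,y8]),(z5,[y16,
    z0,y8,z0,y1,z16]),(z10,[y8,y15,y19,y30,y38,z38])],.ref k25 k0 [(z7,[z11,z5,z0,y11]),(z14,[y2,z1,z21,z2]),(z7,[z8,
    y4,z0,z13]),(z7,[y16,z8,z0,z16,z21]),(z14,[y8,y17,y21,y34,y42,z42])],.ref k25 k0 [(z6,[y22,z9,y11,y22,z0,z22]),
    (z3,[z1,z0,z5,z1,z0,y1]),(z3,[y8,z0,y4,z1,z0,z8]),(z3,[z16,z0,z8,z16,z9,y16]),(z6,[z8,y9,y5,y10,y18,z10])],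
    .ref k25 k0 [(z1,[y11,z7,z0,z0,z11]),(z2,[z2,y1,z3,z0,y2]),(z1,[y8,z4,z0,z3,z8]),(z1,[z16,y8,z0,z0,y13]),(z2,[z8,
    y7,y3,y6,y14,z6])],.ref k25 k0 [(z1,[z11,z7,z11,z22,z22,y22]),(z2,[y2,y1,z1,y4,y4,z4]),(z1,[z8,z4,z8,z19,z16,
    y16]),(z1,[y16,y8,y16,y32,y29,z32]),(z2,[y8,y7,y11,y22,y22,z22])],.ref k25 k0 [(z6,[z22,z9,z11,z22,z22,y22]),(z3,
    [y1,z0,z4,y1,y1,z1]),(z3,[z8,z0,z4,z17,z8,y8]),(z3,[y16,z0,y8,y16,y7,z16]),(z6,[y8,y9,y13,y26,y26,z26])],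
    .ref k25 k0 [(z5,[z11,z2]),(z10,[y2,z1,z15]),(z5,[z8,y4,z0,z15]),(z5,[y16,z8,z0,z0,z15]),(z10,[y8,y11,y15,y30,y30,
    z30])],.ref k25 k0 [(z2,[y22,z3,z33]),(z1,[z1]),(z1,[y8,z0,z12,z3]),(z1,[z16,z0,y24,z0,z3]),(z2,[z8,y3,y15,y6,y6,
    z6])],.ref k25 k0 [(z2,[z11,z3,y11,y11]),(z2,[y1,z0,z4,z1]),(z1,[z4,z0,y4,y1]),(z1,[y8,z0,z8,z8,z3]),(z2,[y4,y3,
    z1,y2,y6,z6])],.ref k25 k0 [(z6,[y11,z9,z11,z0,z11]),(z6,[z1,z0,z8,z0,y1]),(z3,[y4,z0,z4,z9,z4]),(z3,[z8,z0,y8,z0,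
    z1]),(z6,[z4,y9,y13,y18,y22,z18])],.ref k25 k0 [(z4,[y22,y5,z11,y22,y22,z22]),(z4,[z2,z1,z5,z2,z2,y2]),(z1,[y4,y2,
    z2,y1,y4,z4]),(z1,[z8,z4,y4,z8,z11,y8]),(z2,[z4,y1,y5,y2,y2,z2])],.ref k25 k0 [(z1,[z11,z7,z0,z0,z11,y11]),(z2,
    [y2,y1,z3,z0,y2,z2]),(z1,[z8,z4,z0,z3,z8,y8]),(z1,[y16,y8,z0,z0,y13,z16]),(z2,[y8,y7,y3,y6,y14,z14])],
    .ref k25 k0 [(z6,[z22,z9,y11,y22]),(z3,[y1,z0,z5,z1]),(z3,[z8,z0,y4,z1]),(z3,[y16,z0,z8,z16,z9]),(z6,[y8,y9,y5,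
    y10,y18,z18])],.ref k25 k0 [(z10,[y22,z15,z11,z0,z22]),(z5,[z1,z0,z7,z0,y1]),(z5,[y8,z0,z4,z15,z8]),(z5,[z16,z0,
    y8,z0,y1]),(z10,[z8,y15,y19,y30,y38,z30])],.ref k25 k0 [(z2,[y2,z3,z1,z0,z4]),(z11,[z1,z0,z16,z0,y2]),(z11,[y8,z0,
    z4,z33,z16]),(z11,[z16,z0,y8,z0,z1]),(z22,[z8,y33,y37,y66,y82,z66])],.ref k25 k0 [(z7,[y11,z5,z0,y11,z0,z11]),
    (z14,[z2,z1,z21,z2,z0,y2]),(z7,[y8,y4,z0,z13,z0,z8]),(z7,[z16,z8,z0,z16,z21,y16]),(z14,[z8,y17,y21,y34,y42,z34])],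
    .ref k25 k0 [(z1,[y11,y4,z0,y11,y11,z11]),(z2,[z2,z1,z3,z2,z2,y2]),(z1,[y8,y4,z0,y5,y8,z8]),(z1,[z16,z8,z0,z16,
    z19,y16]),(z2,[z8,z1,y3,z2,z2,y2])],.ref k25 k0 [(z2,[z22,z3,y11]),(z1,[y1,z0,z2]),(z1,[z8,z0,y4,z3]),(z1,[y16,z0,
    z8,z0,z3]),(z2,[y8,y3,z1,y6,y6,z6])],.ref k25 k0 [(z8,[y22,z1,y11,z0,z0,z22]),(z8,[z2,z1,z13,z0,z0,y2]),(z1,[y2,
    y1,y1,z3,z0,z2]),(z1,[z4,z2,z2,z0,z3,y4]),(z1,[z1,y1,y1,y3,y3,z2])],.ref k25 k0 [(z4,[z22,z17,z11,z0,z22,y22]),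
    (z4,[y2,y1,z5,z0,y2,z2]),(z1,[z4,z2,z2,z3,z4,y4]),(z1,[y8,y4,y4,z0,y5,z8]),(z2,[y4,y5,y5,y6,y10,z10])],
    .ref k25 k0 [(z4,[z11,z6,z0,y11]),(z4,[y1,z0,z6,z1]),(z1,[z2,z0,z0,z1]),(z1,[y4,z0,z0,z4,z3]),(z2,[y2,y3,y3,y4,y6,
    z6])],.ref k25 k0 [(z10,[y11,z15,z0,z0,z22]),(z10,[z1,z0,z15,z0,y2]),(z5,[y4,z0,z0,z15,z8]),(z5,[z8,z0,z0,z0,y1]),
    (z10,[z4,y15,y15,y30,y38,z30])]],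
    .lp k0 [(nat_lit 574),(nat_lit 640),(nat_lit 676),(nat_lit 654),(nat_lit 650),(nat_lit 644)] [k51,k51,k18,k18,k0,
    k0,k11,k11,k13,k13,k16,k16] k0 [[k0,k0,k0,k24,k0,k0,k0,k0,k0,k36,k0,k10],[k0,k0,k0,k0,k0,k42,k42,k0,k0,k0,k0,k0],
    [k0,k24,k0,k0,k0,k0,k0,k0,k0,k0,k0,k0],[k0,k0,k0,k0,k8,k0,k0,k8,k0,k12,k6,k10],[k42,k0,k0,k0,k0,k0,k14,k0,k0,k0,
    k6,k76],[k0,k0,k8,k0,k0,k0,k0,k0,k0,k0,k0,k0],[k0,k0,k8,k0,k0,k0,k0,k4,k52,k38,k0,k0],[k42,k0,k0,k0,k0,k14,k0,k0,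
    k0,k0,k20,k76],[k0,k36,k12,k0,k0,k0,k0,k38,k0,k0,k58,k0],[k0,k0,k0,k0,k0,k0,k0,k52,k14,k0,k72,k0],[k0,k10,k10,k0,
    k0,k76,k76,k0,k0,k0,k0,k34],[k0,k0,k6,k0,k0,k6,k20,k0,k72,k58,k0,k0]] (nat_lit 1920) k5
    [[(k11,(nat_lit 537)),(k8,(nat_lit 554)),(k0,(nat_lit 574)),(k9,(nat_lit 592)),(k1,(nat_lit 608)),(k10,
    (nat_lit 609)),(k2,(nat_lit 617)),(k3,(nat_lit 617)),(k4,(nat_lit 619)),(k5,(nat_lit 619)),(k6,(nat_lit 690)),(k7,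
    (nat_lit 690))],[(k0,(nat_lit 574)),(k1,(nat_lit 574)),(k8,(nat_lit 576)),(k2,(nat_lit 583)),(k10,(nat_lit 599)),
    (k3,(nat_lit 607)),(k11,(nat_lit 609)),(k9,(nat_lit 612)),(k4,(nat_lit 625)),(k5,(nat_lit 625)),(k6,
    (nat_lit 656)),(k7,(nat_lit 656))],[(k9,(nat_lit 603)),(k0,(nat_lit 607)),(k4,(nat_lit 616)),(k1,(nat_lit 617)),
    (k2,(nat_lit 640)),(k3,(nat_lit 640)),(k10,(nat_lit 642)),(k8,(nat_lit 645)),(k6,(nat_lit 647)),(k7,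
    (nat_lit 647)),(k11,(nat_lit 678)),(k5,(nat_lit 682))],[(k0,(nat_lit 583)),(k1,(nat_lit 617)),(k2,(nat_lit 640)),
    (k3,(nat_lit 640)),(k8,(nat_lit 645)),(k6,(nat_lit 647)),(k7,(nat_lit 647)),(k10,(nat_lit 648)),(k9,
    (nat_lit 653)),(k11,(nat_lit 654)),(k5,(nat_lit 658)),(k4,(nat_lit 666))],[(k1,(nat_lit 619)),(k0,(nat_lit 625)),
    (k10,(nat_lit 650)),(k8,(nat_lit 651)),(k6,(nat_lit 657)),(k7,(nat_lit 657)),(k2,(nat_lit 658)),(k11,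
    (nat_lit 660)),(k9,(nat_lit 663)),(k4,(nat_lit 676)),(k5,(nat_lit 676)),(k3,(nat_lit 682))],[(k10,(nat_lit 584)),
    (k3,(nat_lit 616)),(k1,(nat_lit 619)),(k0,(nat_lit 625)),(k9,(nat_lit 649)),(k11,(nat_lit 660)),(k8,
    (nat_lit 663)),(k6,(nat_lit 665)),(k7,(nat_lit 665)),(k2,(nat_lit 666)),(k4,(nat_lit 676)),(k5,(nat_lit 676))],
    [(k2,(nat_lit 647)),(k3,(nat_lit 647)),(k11,(nat_lit 649)),(k8,(nat_lit 652)),(k9,(nat_lit 652)),(k7,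
    (nat_lit 654)),(k10,(nat_lit 655)),(k0,(nat_lit 656)),(k5,(nat_lit 657)),(k4,(nat_lit 665)),(k6,(nat_lit 668)),
    (k1,(nat_lit 690))],[(k11,(nat_lit 597)),(k8,(nat_lit 614)),(k2,(nat_lit 647)),(k3,(nat_lit 647)),(k6,
    (nat_lit 650)),(k9,(nat_lit 652)),(k0,(nat_lit 656)),(k5,(nat_lit 657)),(k4,(nat_lit 665)),(k7,(nat_lit 668)),
    (k10,(nat_lit 669)),(k1,(nat_lit 690))],[(k10,(nat_lit 571)),(k1,(nat_lit 592)),(k3,(nat_lit 603)),(k0,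
    (nat_lit 612)),(k4,(nat_lit 649)),(k6,(nat_lit 652)),(k7,(nat_lit 652)),(k2,(nat_lit 653)),(k9,(nat_lit 654)),(k5,
    (nat_lit 663)),(k11,(nat_lit 685)),(k8,(nat_lit 702))],[(k1,(nat_lit 554)),(k0,(nat_lit 576)),(k6,(nat_lit 614)),
    (k2,(nat_lit 645)),(k3,(nat_lit 645)),(k11,(nat_lit 647)),(k5,(nat_lit 651)),(k7,(nat_lit 652)),(k4,
    (nat_lit 663)),(k8,(nat_lit 664)),(k9,(nat_lit 702)),(k10,(nat_lit 719))],[(k1,(nat_lit 537)),(k6,(nat_lit 597)),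
    (k0,(nat_lit 609)),(k11,(nat_lit 630)),(k8,(nat_lit 647)),(k7,(nat_lit 649)),(k2,(nat_lit 654)),(k4,
    (nat_lit 660)),(k5,(nat_lit 660)),(k3,(nat_lit 678)),(k9,(nat_lit 685)),(k10,(nat_lit 702))],[(k9,(nat_lit 571)),
    (k4,(nat_lit 584)),(k0,(nat_lit 599)),(k1,(nat_lit 609)),(k10,(nat_lit 610)),(k3,(nat_lit 642)),(k2,
    (nat_lit 648)),(k5,(nat_lit 650)),(k7,(nat_lit 655)),(k6,(nat_lit 669)),(k11,(nat_lit 702)),(k8,(nat_lit 719))]]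
    [[k3,k0,k0,k0,k0,k0],[k2,k1,k0,k0,k0,k0],[k2,k0,k1,k0,k0,k0],[k2,k0,k0,k0,k1,k0],[k2,k0,k0,k0,k0,k1],[k1,k2,k0,k0,
    k0,k0],[k1,k1,k1,k0,k0,k0],[k1,k1,k0,k0,k1,k0],[k1,k1,k0,k0,k0,k1],[k1,k0,k1,k0,k1,k0],[k1,k0,k1,k0,k0,k1],[k1,k0,
    k0,k1,k1,k0],[k1,k0,k0,k1,k0,k1],[k1,k0,k0,k0,k2,k0],[k1,k0,k0,k0,k1,k1],[k1,k0,k0,k0,k0,k2],[k0,k2,k1,k0,k0,k0],
    [k0,k2,k0,k0,k1,k0],[k0,k1,k0,k1,k1,k0],[k0,k1,k0,k1,k0,k1],[k0,k1,k0,k0,k1,k1],[k0,k0,k1,k1,k0,k1],[k0,k0,k1,k0,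
    k1,k1],[k0,k0,k1,k0,k0,k2],[k0,k0,k0,k1,k1,k1],[k0,k0,k0,k1,k0,k2]]
    [.ref k25 k0 [(z1,[z1]),(z1,[z0,z0,z1]),(z6,[y2,z1,z0,z9]),(z3,[y4,z2,z0,z0,z9]),(z3,[z2,y1])],.ref k25 k0 [(z2,
    [z3,z0,y1]),(z1,[z0,z0,z1]),(z6,[y3,z1,z1,z9]),(z3,[y6,z2,z2,z0,z9]),(z3,[z3,y1,y1])],.ref k25 k0 [(z10,[z18,y1,
    z0,y9]),(z1,[z0,z0,z1]),(z5,[y3,z1,z0,z9]),(z5,[y12,z4,z0,z6,z15]),(z5,[z6,y2,z0,y3])],.ref k25 k0 [(z8,[z9,z1]),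
    (z1,[z0,z0,z1]),(z8,[y3,z1,z0,z12]),(z2,[y3,z1,z0,z0,z6]),(z4,[z3,y1])],.ref k25 k0 [(z4,[z6,z1,z2,z3,z6,y6]),(z1,
    [z0,z0,z1]),(z12,[y6,z1,y2,z15,y6,z6]),(z3,[y6,z1,y2,y3,z3,z6]),(z6,[z6,y1,z2,z3,z6,y6])],.ref k25 k0 [(z1,[z3,z0,
    y2]),(z1,[z0,z0,z1]),(z6,[y6,z1,z4,z9]),(z3,[y12,z2,z8,z0,z9]),(z3,[z6,y1,y4])],.ref k25 k0 [(z4,[z18,y1,y6,y9]),
    (z1,[z0,z0,z1]),(z4,[y6,z1,z2,z9]),(z1,[y6,z1,z2,z3,z3]),(z2,[z6,y1,y2,y3])],.ref k25 k0 [(z5,[z9,z1,y3]),(z1,[z0,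
    z0,z1]),(z10,[y6,z1,z2,z15]),(z5,[y12,z2,z4,z0,z15]),(z5,[z6,y1,y2])],.ref k25 k0 [(z2,[z6,z1,z0,z3,z6,y6]),(z1,
    [z0,z0,z1]),(z1,[y1,z0,z0,z1,y1,z1]),(z1,[y4,z0,z0,y2,y1,z4]),(z1,[z2,z0,z0,z1,z2,y2])],.ref k25 k0 [(z8,[z18,z1,
    z0,y9]),(z1,[z0,z0,z1]),(z8,[y6,z1,z0,z15]),(z2,[y6,z1,z0,z3,z6]),(z4,[z6,y1,z0,y3])],.ref k25 k0 [(z2,[z9,z1,z3,
    z0,z9,y9]),(z1,[z0,z0,z1]),(z2,[y3,z0,y1,z3,y3,z3]),(z1,[y6,z0,y2,z0,y3,z6]),(z1,[z3,z0,z1,z0,z3,y3])],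
    .ref k25 k0 [(z1,[z9,y1,z0,z0,y9]),(z1,[z0,z0,z1]),(z2,[y6,z1,z0,z3,z6]),(z1,[y12,z2,z0,z0,z15]),(z1,[z6,y1,z0,z0,
    y6])],.ref k25 k0 [(z2,[y18,z1,y6,y9,z0,z18]),(z1,[z0,z0,z1]),(z1,[z3,z0,z1,z3,z0,y3]),(z1,[z12,z0,z4,z6,z3,y12]),
    (z1,[y6,z0,y2,y3,z0,z6])],.ref k25 k0 [(z7,[z9,z2]),(z1,[z0,z0,z1]),(z14,[y6,z1,z0,z21]),(z7,[y12,z2,z0,z0,z21]),
    (z7,[z6,y1])],.ref k25 k0 [(z10,[z18,z5,z6,z9,z18,y18]),(z1,[z0,z0,z1]),(z5,[y3,z0,y1,z6,y3,z3]),(z5,[y12,z0,y4,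
    y6,z3,z12]),(z5,[z6,z0,z2,z3,z6,y6])],.ref k25 k0 [(z1,[z3,z1,z2,z3,z6,y6]),(z1,[z0,z0,z1]),(z6,[y6,y1,y4,z3,y12,
    z12]),(z3,[y12,y2,y8,y12,y15,z24]),(z3,[z6,z1,z4,z6,z12,y12])],.ref k25 k0 [(z2,[y18,z1,z12,z9]),(z1,[z0,z0,z1]),
    (z1,[z3,z0,y2]),(z1,[z12,z0,y8,y6,z3]),(z1,[y6,z0,z4,z3])],.ref k25 k0 [(z2,[z9,z1,y6]),(z1,[z0,z0,z1]),(z2,[y3,
    z0,z2,z3]),(z1,[y6,z0,z4,z0,z3]),(z1,[z3,z0,y2])],.ref k25 k0 [(z2,[y9,z1,z3,z0,z9]),(z1,[z0,z0,z1]),(z2,[z3,z0,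
    y1,z3,y3]),(z1,[z6,z0,y2,z0,y3]),(z1,[y3,z0,z1,z0,z3])],.ref k25 k0 [(z8,[y18,z1,z0,y9,z0,z18]),(z1,[z0,z0,z1]),
    (z8,[z6,z1,z0,z15,z0,y6]),(z2,[z6,z1,z0,z3,z6,y6]),(z4,[y6,y1,z0,y3,z0,z6])],.ref k25 k0 [(z4,[z18,z5,z0,z9,z18,
    y18]),(z1,[z0,z0,z1]),(z4,[y6,y1,z0,z3,y6,z6]),(z1,[y6,y1,z0,y3,y3,z6]),(z2,[z6,z1,z0,z3,z6,y6])],
    .ref k25 k0 [(z5,[y9,z1,y3,z0,z0,z9]),(z1,[z0,z0,z1]),(z10,[z6,z1,z2,z15,z0,y6]),(z5,[z12,z2,z4,z0,z15,y12]),(z5,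
    [y6,y1,y2,z0,z0,z6])],.ref k25 k0 [(z1,[z9,z2,z3,z0,z9,y9]),(z1,[z0,z0,z1]),(z2,[y6,y1,y2,z3,y6,z6]),(z1,[y12,y2,
    y4,z0,y9,z12]),(z1,[z6,z1,z2,z0,z6,y6])],.ref k25 k0 [(z2,[y18,y5,y12,y9,y36,z36]),(z1,[z0,z0,z1]),(z1,[z3,z1,z2,
    z3,z6,y6]),(z1,[z12,z4,z8,z6,z27,y24]),(z1,[y6,y2,y4,y3,y12,z12])],.ref k25 k0 [(z4,[y18,y1,y6,y9,z0,z18]),(z1,
    [z0,z0,z1]),(z4,[z6,z1,z2,z9,z0,y6]),(z1,[z6,z1,z2,z3,z3,y6]),(z2,[y6,y1,y2,y3,z0,z6])],.ref k25 k0 [(z4,[y9,y1,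
    y6,y9,y9,z18]),(z1,[z0,z0,z1]),(z4,[z3,z1,z2,z9,z3,y6]),(z1,[z3,z1,z2,z3,z6,y6]),(z2,[y3,y1,y2,y3,y3,z6])]],
    .lp k0 [k136,k160,k178,k162,k166,k156] [k21,k21,k9,k9,k0,k0,k8,k8,k6,k6,k11,k11] k0 [[k0,k0,k0,k0,k0,k0,k0,k0,k0,
    k12,k8,k24],[k0,k0,k0,k0,k2,k24,k22,k0,k0,k0,k0,k0],[k0,k0,k0,k0,k0,k4,k4,k0,k4,k0,k0,k0],[k0,k0,k0,k0,k0,k0,k0,
    k0,k0,k0,k14,k24],[k24,k0,k0,k4,k0,k0,k0,k0,k0,k0,k0,k32],[k2,k0,k0,k0,k2,k0,k0,k0,k0,k0,k0,k0],[k0,k0,k0,k0,k0,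
    k0,k0,k0,k22,k8,k0,k0],[k22,k0,k0,k4,k0,k0,k0,k0,k0,k0,k0,k30],[k0,k12,k0,k0,k0,k0,k0,k8,k0,k0,k4,k0],[k0,k0,k0,
    k4,k0,k0,k0,k22,k14,k0,k0,k0],[k0,k24,k24,k0,k0,k32,k30,k0,k0,k0,k0,k0],[k0,k8,k14,k0,k0,k0,k0,k0,k0,k4,k0,
    k0]] (nat_lit 480) k5
    [[(k0,k128),(k1,k136),(k5,k143),(k10,k146),(k11,k146),(k8,k147),(k9,k151),(k4,k157),(k2,k172),(k3,k172),(k6,k179),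
    (k7,k181)],[(k10,k122),(k1,k128),(k0,k136),(k8,k139),(k11,k146),(k2,k148),(k3,k148),(k9,k151),(k5,k157),(k4,k159),
    (k6,k171),(k7,k173)],[(k9,k141),(k4,k145),(k0,k148),(k7,k159),(k2,k160),(k3,k160),(k6,k161),(k8,k163),(k10,k166),
    (k5,k169),(k11,k170),(k1,k172)],[(k0,k148),(k11,k154),(k9,k159),(k2,k160),(k3,k160),(k6,k161),(k7,k161),(k8,k163),
    (k4,k165),(k5,k169),(k1,k172),(k10,k172)],[(k1,k143),(k10,k143),(k0,k157),(k11,k167),(k2,k169),(k3,k169),(k9,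
    k172),(k6,k174),(k7,k174),(k8,k176),(k4,k178),(k5,k178)],[(k10,k135),(k3,k145),(k1,k157),(k0,k159),(k2,k165),(k11,
    k167),(k6,k170),(k7,k170),(k8,k172),(k9,k172),(k5,k178),(k4,k180)],[(k3,k159),(k10,k159),(k11,k159),(k7,k160),(k2,
    k161),(k6,k162),(k8,k164),(k9,k164),(k4,k170),(k0,k173),(k5,k174),(k1,k181)],[(k11,k137),(k8,k156),(k10,k159),(k2,
    k161),(k3,k161),(k6,k162),(k7,k162),(k9,k164),(k4,k170),(k0,k171),(k5,k174),(k1,k179)],[(k10,k131),(k3,k141),(k0,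
    k151),(k1,k151),(k2,k159),(k6,k164),(k7,k164),(k9,k166),(k11,k169),(k4,k172),(k5,k172),(k8,k188)],[(k0,k139),(k1,
    k147),(k6,k156),(k10,k161),(k11,k161),(k2,k163),(k3,k163),(k7,k164),(k4,k172),(k5,k176),(k8,k180),(k9,k188)],[(k6,
    k137),(k11,k142),(k0,k146),(k1,k146),(k2,k154),(k7,k159),(k10,k160),(k8,k161),(k4,k167),(k5,k167),(k9,k169),(k3,
    k170)],[(k0,k122),(k9,k131),(k4,k135),(k5,k143),(k1,k146),(k10,k156),(k6,k159),(k7,k159),(k11,k160),(k8,k161),(k3,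
    k166),(k2,k172)]]
    [[k3,k0,k0,k0,k0,k0],[k2,k1,k0,k0,k0,k0],[k2,k0,k1,k0,k0,k0],[k2,k0,k0,k0,k1,k0],[k2,k0,k0,k0,k0,k1],[k1,k1,k1,k0,
    k0,k0],[k1,k1,k0,k0,k1,k0],[k1,k1,k0,k0,k0,k1],[k1,k0,k1,k0,k1,k0],[k1,k0,k1,k0,k0,k1],[k1,k0,k0,k1,k0,k1],[k1,k0,
    k0,k0,k2,k0],[k1,k0,k0,k0,k1,k1],[k1,k0,k0,k0,k0,k2],[k0,k2,k1,k0,k0,k0],[k0,k2,k0,k0,k1,k0],[k0,k1,k1,k0,k0,k1],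
    [k0,k1,k0,k1,k0,k1],[k0,k1,k0,k1,k1,k0],[k0,k1,k0,k0,k1,k1],[k0,k0,k1,k1,k0,k1],[k0,k0,k1,k0,k1,k1],[k0,k0,k1,k0,
    k0,k2],[k0,k0,k0,k2,k0,k1],[k0,k0,k0,k1,k1,k1],[k0,k0,k0,k1,k0,k2],[k0,k0,k0,k0,k1,k2],[k0,k0,k0,k0,k0,k3]]
    [.ref (nat_lit 451) k3 [(z2,[z0,y1,y2,y5,z2]),(z1,[z0,z0,z0,z1]),(z2,[z2,y3,z0,y9]),(z1,[z1])],.ref k18 k9 [(z2,
    [y1,z0,z1]),(z1,[z1,y1,y1]),(z2,[y4,z1,y2,y3,z6]),(z2,[y1,z1,z1,z3])],.ref (nat_lit 452) k7 [(z1,[y6,z1,z1,z3]),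
    (z1,[z1]),(z2,[z8,y1,y2,y5,z2]),(z1,[y2,z0,z0,z1])],.ref k58 k3 [(z2,[z0,y1,y2,y5,z2]),(z1,[z0,z0,z0,z1]),(z2,[z1,
    y1,z0,y4]),(z2,[z1,z0,z0,y1])],.ref (nat_lit 453) k7 [(z1,[y2,z0,z1]),(z2,[z2,z1,z0,z3]),(z2,[z8,z1,y6,y3,z6]),
    (z1,[y2,y1])],.ref (nat_lit 454) k3 [(z2,[z0,y1,y2,y5,z2]),(z1,[z0,z0,z0,z1]),(z2,[y2,z1,z2,z3]),(z1,[y1,z1,z1,
    z3])],.ref k96 k10 [(z1,[z2,y1,y1,y5]),(z1,[y1,z1,z1,z4]),(z2,[y2,z1,z2,z5]),(z1,[z0,z0,z0,z1])],.ref k18 k9 [(z1,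
    [y1,z0,z1]),(z1,[z2,y1,y2]),(z2,[y8,z1,z2,y3,z6]),(z2,[y2,z1,z2,z3])],.ref k58 k3 [(z2,[z0,y1,y2,y5,z2]),(z1,[z0,
    z0,z0,z1]),(z2,[z2,y1,z0,y5]),(z1,[z1,z0,z0,y1])],.ref (nat_lit 455) k3 [(z2,[z0,y1,y2,y5,z2]),(z1,[z0,z0,z0,z1]),
    (z4,[z2,y1,z0,y3]),(z4,[z2,z1,z0,z3])],.ref (nat_lit 456) k0 [(z2,[y6,z1,y6,y3,z6]),(z1,[z0,z0,z1]),(z1,[z1,z0,z1,
    z1,y1]),(z2,[z8,y1,z6,z3,y6])],.ref (nat_lit 457) k3 [(z2,[z0,y1,y2,y5,z2]),(z1,[z0,z0,z0,z1]),(z2,[z2,y1,z0,y7]),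
    (z1,[z1,z0,z0,y2])],.ref (nat_lit 452) k7 [(z1,[y6,y2,z1]),(z2,[z2,z1,z0,z1]),(z2,[z8,z3,y2,y1,z2]),(z1,[y2,y1])],
    .ref (nat_lit 455) k3 [(z2,[z0,y1,y2,y5,z2]),(z1,[z0,z0,z0,z1]),(z6,[z2,y1,z0,y3]),(z3,[z1,z1,z0,z3])],
    .ref (nat_lit 458) k11 [(z1,[y6,z1,z1,z3]),(z1,[z0,z0,z1]),(z1,[y2,z0,z0,z1]),(z2,[z8,y1,y2,y5,z2])],
    .ref (nat_lit 456) k0 [(z2,[z3,z1,y6]),(z1,[z0,z0,z1]),(z2,[y1,z0,z2,z1]),(z2,[y4,y1,z6,y1,z2])],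
    .ref (nat_lit 455) k3 [(z2,[z0,y1,y2,y5,z2]),(z1,[z0,z0,z0,z1]),(z1,[y1,z0,z1]),(z2,[y2,z1,z2,z3])],
    .ref k58 k3 [(z2,[z0,y1,y2,y5,z2]),(z1,[z0,z0,z0,z1]),(z2,[y2,y1,z0,y5,z2]),(z1,[y1,z0,z0,y1,z1])],
    .ref (nat_lit 455) k3 [(z2,[z0,y1,y2,y5,z2]),(z1,[z0,z0,z0,z1]),(z4,[y2,y1,z0,y3,z2]),(z4,[y2,z1,z0,z3,z2])],
    .ref (nat_lit 454) k3 [(z2,[z0,y1,y2,y5,z2]),(z1,[z0,z0,z0,z1]),(z1,[y1,z0,z1,z1]),(z2,[y2,z1,z2,z5])],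
    .ref k96 k10 [(z1,[y2,y1,y1,y5,z2]),(z1,[z1,z1,z1,z4,y1]),(z2,[z2,z1,z2,z5,y2]),(z1,[z0,z0,z0,z1])],
    .ref (nat_lit 455) k3 [(z2,[z0,y1,y2,y5,z2]),(z1,[z0,z0,z0,z1]),(z1,[z1,z0,z0,y1]),(z2,[z2,z1,z0,z1])],
    .ref (nat_lit 456) k0 [(z2,[y6,z1,z0,z3]),(z1,[z0,z0,z1]),(z1,[z1]),(z2,[z8,y1,y2,y5,z2])],.ref k127 k10 [(z1,[y2,
    y2,y3,y10,z4]),(z2,[z2,z3,z4,z13,y4]),(z1,[z1,z1,z2,z5,y2]),(z1,[z0,z0,z0,z1])],.ref (nat_lit 454) k3 [(z2,[z0,y1,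
    y2,y5,z2]),(z1,[z0,z0,z0,z1]),(z2,[z2,z1,z2,z3,y2]),(z1,[z1,z1,z1,z3,y1])],.ref (nat_lit 454) k3 [(z2,[z0,y1,y2,
    y5,z2]),(z1,[z0,z0,z0,z1]),(z4,[z2,z1,z2,z5,y2]),(z4,[z2,z3,z2,z11,y2])],.ref (nat_lit 455) k3 [(z2,[z0,y1,y2,y5,
    z2]),(z1,[z0,z0,z0,z1]),(z2,[z1,z0,z0,y1]),(z2,[z1,z1,z0,z2])],.ref (nat_lit 459) k0 [(z1,[z2,z3]),(z1,[y2,z0,
    z3]),(z1,[z0,z0,z0,z1]),(z2,[z0,y1,y2,y1,z2])]],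
    .lp k0 [k158,k160,k158,k166,k180,k136] [k11,k11,k10,k10,k11,k11,k7,k7,k0,k0,k22,k22] k0 [[k0,k0,k0,k4,k2,k0,k0,k0,
    k0,k0,k0,k6],[k0,k0,k0,k0,k6,k0,k0,k4,k4,k0,k0,k6],[k0,k4,k0,k0,k6,k0,k0,k4,k4,k0,k0,k6],[k0,k0,k0,k0,k2,k0,k0,k0,
    k0,k0,k0,k6],[k0,k0,k0,k0,k0,k0,k12,k0,k4,k42,k0,k4],[k6,k2,k2,k6,k0,k0,k2,k0,k0,k0,k0,k0],[k4,k0,k0,k4,k0,k0,k0,
    k0,k0,k20,k0,k0],[k0,k0,k0,k0,k2,k12,k0,k0,k0,k0,k12,k6],[k0,k0,k0,k0,k0,k42,k0,k20,k0,k30,k42,k0],[k4,k0,k0,k4,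
    k0,k4,k0,k0,k0,k0,k0,k0],[k6,k6,k6,k6,k0,k4,k6,k0,k0,k0,k0,k0],[k0,k0,k0,k0,k0,k0,k12,k0,k0,k42,k0,
    k0]] (nat_lit 480) k5
    [[(k8,k127),(k10,k147),(k11,k147),(k9,k157),(k1,k158),(k4,k158),(k0,k164),(k5,k164),(k2,k165),(k3,k165),(k7,k166),
    (k6,k168)],[(k10,k141),(k11,k147),(k2,k155),(k0,k158),(k5,k158),(k3,k159),(k7,k160),(k6,k162),(k1,k164),(k4,k164),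
    (k8,k173),(k9,k173)],[(k10,k142),(k11,k144),(k7,k157),(k0,k159),(k6,k159),(k2,k160),(k3,k160),(k4,k161),(k5,k163),
    (k1,k165),(k8,k170),(k9,k170)],[(k10,k142),(k11,k144),(k0,k155),(k7,k157),(k5,k159),(k6,k159),(k2,k160),(k3,k160),
    (k4,k161),(k1,k165),(k8,k170),(k9,k170)],[(k10,k141),(k11,k147),(k0,k158),(k5,k158),(k2,k159),(k7,k160),(k6,k162),
    (k3,k163),(k1,k164),(k4,k164),(k8,k173),(k9,k173)],[(k8,k127),(k10,k143),(k11,k143),(k9,k157),(k1,k158),(k4,k158),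
    (k2,k161),(k3,k161),(k7,k162),(k0,k164),(k5,k164),(k6,k164)],[(k10,k151),(k2,k157),(k3,k157),(k0,k160),(k5,k160),
    (k4,k162),(k1,k166),(k7,k166),(k9,k171),(k8,k177),(k6,k178),(k11,k193)],[(k11,k151),(k8,k153),(k2,k159),(k3,k159),
    (k0,k162),(k5,k162),(k10,k163),(k4,k164),(k6,k166),(k1,k168),(k9,k173),(k7,k178)],[(k10,k152),(k1,k157),(k4,k157),
    (k2,k170),(k3,k170),(k7,k171),(k0,k173),(k5,k173),(k6,k173),(k11,k178),(k8,k180),(k9,k180)],[(k1,k127),(k4,k127),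
    (k8,k150),(k6,k153),(k10,k158),(k11,k158),(k2,k170),(k3,k170),(k0,k173),(k5,k173),(k7,k177),(k9,k180)],[(k4,k143),
    (k2,k144),(k3,k144),(k0,k147),(k1,k147),(k5,k147),(k6,k151),(k8,k158),(k11,k166),(k9,k178),(k10,k178),(k7,k193)],
    [(k10,k136),(k0,k141),(k5,k141),(k2,k142),(k3,k142),(k4,k143),(k1,k147),(k7,k151),(k9,k152),(k8,k158),(k6,k163),
    (k11,k178)]]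
    [[k2,k0,k0,k0,k1,k0],[k2,k0,k0,k0,k0,k1],[k2,k1,k0,k0,k0,k0],[k1,k1,k0,k0,k0,k1],[k1,k1,k1,k0,k0,k0],[k1,k0,k1,k0,
    k0,k1],[k1,k0,k1,k0,k1,k0],[k1,k0,k0,k1,k0,k1],[k1,k1,k0,k0,k1,k0],[k1,k0,k0,k1,k1,k0],[k1,k0,k0,k0,k1,k1],[k1,k0,
    k0,k0,k0,k2],[k0,k2,k0,k1,k0,k0],[k0,k2,k0,k0,k0,k1],[k0,k1,k1,k0,k0,k1],[k0,k1,k1,k0,k1,k0],[k0,k1,k0,k1,k0,k1],
    [k0,k1,k0,k0,k1,k1],[k0,k1,k0,k0,k0,k2],[k0,k0,k2,k0,k1,k0],[k0,k0,k2,k0,k0,k1],[k0,k0,k1,k1,k1,k0],[k0,k0,k1,k1,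
    k0,k1],[k0,k0,k1,k0,k1,k1],[k0,k0,k1,k0,k0,k2],[k0,k0,k0,k0,k1,k2]]
    [.ref k25 k0 [(z7,[z16,z5,z16,z16,z16,y16]),(z7,[z4,y4,z25,z4,z4,y4]),(z7,[y8,z8,y8,z13,y8,z8]),(z7,[y2,z2,y2,y2,
    z19,z2]),(z7,[y11,y10,y32,y32,y32,z32])],.ref k25 k0 [(z11,[z16,z1]),(z11,[z4,y8,z33]),(z11,[y8,z16,z0,z33]),(z11,
    [y2,z4,z0,z0,z33]),(z1,[y1,y1,y3,y3,y3,z3])],.ref k25 k0 [(z3,[z4,z1,y4]),(z3,[z1,y2,z8]),(z3,[y2,z4,z2,z9]),(z6,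
    [y1,z2,z1,z0,z18]),(z12,[y11,y14,y25,y36,y36,z36])],.ref k25 k0 [(z7,[z16,z5,y16]),(z7,[z4,y4,z17]),(z7,[y8,z8,z8,
    z21]),(z7,[y2,z2,z2,z0,z21]),(z7,[y11,y10,y10,y21,y21,z21])],.ref k25 k0 [(z1,[z4,y1,y4,y4]),(z1,[z1,y1,z2,y1]),
    (z1,[y2,z2,z2,z5]),(z2,[y1,z1,z1,z1,z6]),(z4,[y11,y1,y1,y1,y12,z12])],.ref k25 k0 [(z3,[z16,y7,z0,y16]),(z3,[z4,
    y4,z9,y4]),(z3,[y8,z8,z0,z17]),(z3,[y2,z2,z0,z2,z9]),(z3,[y11,z2,y9,z2,y9,z9])],.ref k25 k0 [(z1,[y16,z3,y16,z0,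
    y16,z16]),(z1,[y4,z0,y1,z0,y4,z4]),(z1,[z8,z0,z8,z3,z8,y8]),(z1,[z2,z0,z2,z0,z5,y2]),(z1,[z11,y3,z8,y3,z8,y8])],
    .ref k25 k0 [(z5,[z16,y1,z0,z0,y16]),(z5,[z4,y4,z15,z0,y4]),(z5,[y8,z8,z0,z15,z8]),(z5,[y2,z2,z0,z0,z17]),(z5,
    [y11,y4,y15,y15,y4,z15])],.ref k25 k0 [(z3,[z16,z9,z0,z16,z16,y16]),(z3,[z4,z0,z9,z4,z4,y4]),(z3,[y8,z0,z0,z1,y8,
    z8]),(z3,[y2,z0,z0,y2,z7,z2]),(z3,[y11,y9,y9,y20,y20,z20])],.ref k25 k0 [(z1,[z16,z3,z16,z16,z0,y16]),(z1,[z4,z0,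
    z7,z4,z0,y4]),(z1,[y8,z0,y8,y5,z0,z8]),(z1,[y2,z0,y2,y2,z3,z2]),(z1,[y11,y3,y14,y14,y3,z14])],.ref k25 k0 [(z1,
    [z8,z3,z8,z8,z8,y8]),(z1,[z2,z0,z5,z2,z2,y2]),(z1,[y4,z0,y4,y1,y4,z4]),(z1,[y1,z0,y1,y1,z2,z1]),(z2,[y11,y6,y17,
    y17,y17,z17])],.ref k25 k0 [(z3,[z8,z1]),(z3,[z2,y2,z9]),(z3,[y4,z4,z0,z9]),(z3,[y1,z1,z0,z0,z9]),(z6,[y11,y7,y18,
    y18,y18,z18])],.ref k25 k0 [(z1,[z8,z3,y16,z0,y8]),(z1,[z2,z0,y1,z0,y2]),(z1,[y4,z0,z8,z3,z4]),(z1,[y1,z0,z2,z0,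
    z4]),(z2,[y11,y6,z16,y6,z5,z6])],.ref k25 k0 [(z3,[z16,z9,y32]),(z3,[z4,z0,z1]),(z3,[y8,z0,z16,z9]),(z3,[y2,z0,z4,
    z0,z9]),(z3,[y11,y9,z13,y9,y9,z9])],.ref k25 k0 [(z1,[y16,z3,z16,z16]),(z1,[y4,z0,z7,z4]),(z1,[z8,z0,y8,y5]),(z1,
    [z2,z0,y2,y2,z3]),(z1,[z11,y3,y14,y14,y3,z3])],.ref k25 k0 [(z5,[y16,y1,z0,z0,y16,z16]),(z5,[y4,y4,z15,z0,y4,z4]),
    (z5,[z8,z8,z0,z15,z8,y8]),(z5,[z2,z2,z0,z0,z17,y2]),(z5,[z11,y4,y15,y15,y4,z4])],.ref k25 k0 [(z1,[z16,z3,y16,z0,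
    y16]),(z1,[z4,z0,y1,z0,y4]),(z1,[y8,z0,z8,z3,z8]),(z1,[y2,z0,z2,z0,z5]),(z1,[y11,y3,z8,y3,z8,z3])],
    .ref k25 k0 [(z1,[y8,y5,z0,y8,y8,z8]),(z1,[y2,y2,z3,y2,y2,z2]),(z1,[z4,z4,z0,z7,z4,y4]),(z1,[z1,z1,z0,z1,z4,y1]),
    (z2,[z11,z5,y6,z5,z5,y5])],.ref k25 k0 [(z1,[z8,z3,y8]),(z1,[z2,z0,z1]),(z1,[y4,z0,z4,z3]),(z1,[y1,z0,z1,z0,z3]),
    (z2,[y11,y6,z5,y6,y6,z6])],.ref k25 k0 [(z9,[y16,z11,y16,z16,y16,z16]),(z9,[y4,y4,z23,z4,y4,z4]),(z9,[z8,z8,z8,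
    z19,z8,y8]),(z9,[z2,z2,z2,y2,z29,y2]),(z9,[z11,y16,y16,y38,y16,z16])],.ref k25 k0 [(z5,[y16,z15,z0,z32]),(z5,[y4,
    z0,z15,z8]),(z5,[z8,z0,z0,y1]),(z5,[z2,z0,z0,y4,z15]),(z5,[z11,y15,y15,y37,y15,z15])],.ref k25 k0 [(z7,[y16,z5,
    y16,z0,z0,z16]),(z7,[y4,y4,z17,z0,z0,z4]),(z7,[z8,z8,z8,z21,z0,y8]),(z7,[z2,z2,z2,z0,z21,y2]),(z7,[z11,y10,y10,
    y21,y21,z10])],.ref k25 k0 [(z3,[y16,z9,z0,z16,z16]),(z3,[y4,z0,z9,z4,z4]),(z3,[z8,z0,z0,z1,y8]),(z3,[z2,z0,z0,y2,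
    z7]),(z3,[z11,y9,y9,y20,y20,z9])],.ref k25 k0 [(z3,[y8,z1,y8,z0,y8,z8]),(z3,[y2,y2,z7,z0,y2,z2]),(z3,[z4,z4,z4,z9,
    z4,y4]),(z3,[z1,z1,z1,z0,z10,y1]),(z6,[z11,y7,y7,y18,y7,z7])],.ref k25 k0 [(z1,[y8,z3,z0,z8]),(z1,[y2,z0,z3,z2]),
    (z1,[z4,z0,z0,y1]),(z1,[z1,z0,z0,y1,z3]),(z2,[z11,y6,y6,y17,y6,z6])],.ref k25 k0 [(z3,[y16,y7,y16,y16,y16,z16]),
    (z3,[y4,y4,z5,y4,y4,z4]),(z3,[z8,z8,z8,z17,z8,y8]),(z3,[z2,z2,z2,z2,z11,y2]),(z3,[z11,z2,z2,z2,z2,y2])]],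
    .base (.leafM k0 [k0,k1,k2,k3,k4,k5] [(z1,[z0,z1,z1,z1])] []),
    .base (.leafM k3 [k4,k5,k0,k1,k2,k3] [(z1,[z0,z1,z1])] []),
    .base (.leafM k3 [k5,k0,k1,k2,k3,k4] [(z1,[z1,z0,z1,z1])] []),
    .lp k0 [(nat_lit 470),(nat_lit 428),(nat_lit 506),(nat_lit 518),(nat_lit 506),(nat_lit 440)] [k24,k24,k45,k45,k6,
    k6,k0,k0,k6,k6,k39,k39] k0 [[k0,k0,k0,k0,k12,k12,k24,k0,k0,k0,k0,k12],[k6,k0,k0,k6,k0,k0,k0,k0,k18,k0,k0,k24],[k6,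
    k0,k0,k6,k0,k0,k0,k0,k18,k0,k0,k24],[k0,k0,k0,k0,k12,k12,k24,k0,k0,k0,k0,k12],[k0,k12,k12,k0,k0,k0,k0,k0,k0,k42,
    k36,k0],[k0,k12,k12,k0,k0,k0,k0,k0,k0,k12,k0,k0],[k0,k0,k0,k0,k0,k0,k0,k0,k0,k0,k0,k0],[k0,k24,k24,k0,k0,k0,k0,k0,
    k0,k0,k6,k12],[k0,k0,k0,k0,k12,k42,k0,k0,k0,k0,k6,k0],[k18,k0,k0,k18,k0,k0,k0,k0,k0,k0,k0,k0],[k24,k12,k12,k24,k0,
    k0,k12,k0,k0,k0,k0,k0],[k0,k0,k0,k0,k0,k36,k6,k0,k0,k6,k0,k0]] (nat_lit 1440) k5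
    [[(k4,(nat_lit 452)),(k10,(nat_lit 455)),(k11,(nat_lit 455)),(k2,(nat_lit 461)),(k3,(nat_lit 461)),(k1,
    (nat_lit 470)),(k8,(nat_lit 482)),(k9,(nat_lit 482)),(k0,(nat_lit 494)),(k7,(nat_lit 494)),(k6,(nat_lit 506)),(k5,
    (nat_lit 512))],[(k10,(nat_lit 443)),(k2,(nat_lit 449)),(k3,(nat_lit 449)),(k11,(nat_lit 455)),(k9,(nat_lit 464)),
    (k0,(nat_lit 476)),(k4,(nat_lit 476)),(k7,(nat_lit 482)),(k1,(nat_lit 494)),(k5,(nat_lit 494)),(k6,(nat_lit 494)),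
    (k8,(nat_lit 506))],[(k10,(nat_lit 410)),(k11,(nat_lit 416)),(k2,(nat_lit 422)),(k3,(nat_lit 422)),(k0,
    (nat_lit 449)),(k1,(nat_lit 461)),(k5,(nat_lit 467)),(k8,(nat_lit 467)),(k9,(nat_lit 467)),(k4,(nat_lit 479)),(k7,
    (nat_lit 485)),(k6,(nat_lit 497))],[(k10,(nat_lit 410)),(k11,(nat_lit 416)),(k2,(nat_lit 422)),(k3,(nat_lit 422)),
    (k0,(nat_lit 449)),(k1,(nat_lit 461)),(k5,(nat_lit 467)),(k8,(nat_lit 467)),(k9,(nat_lit 467)),(k4,(nat_lit 479)),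
    (k7,(nat_lit 485)),(k6,(nat_lit 497))],[(k10,(nat_lit 461)),(k2,(nat_lit 467)),(k3,(nat_lit 467)),(k11,
    (nat_lit 473)),(k9,(nat_lit 482)),(k0,(nat_lit 494)),(k4,(nat_lit 494)),(k7,(nat_lit 500)),(k1,(nat_lit 512)),(k5,
    (nat_lit 512)),(k6,(nat_lit 512)),(k8,(nat_lit 524))],[(k1,(nat_lit 452)),(k8,(nat_lit 464)),(k10,(nat_lit 473)),
    (k0,(nat_lit 476)),(k2,(nat_lit 479)),(k3,(nat_lit 479)),(k11,(nat_lit 485)),(k5,(nat_lit 494)),(k4,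
    (nat_lit 506)),(k9,(nat_lit 506)),(k6,(nat_lit 512)),(k7,(nat_lit 512))],[(k0,(nat_lit 482)),(k2,(nat_lit 485)),
    (k3,(nat_lit 485)),(k1,(nat_lit 494)),(k5,(nat_lit 500)),(k8,(nat_lit 500)),(k4,(nat_lit 512)),(k9,(nat_lit 512)),
    (k10,(nat_lit 515)),(k6,(nat_lit 518)),(k7,(nat_lit 518)),(k11,(nat_lit 521))],[(k11,(nat_lit 479)),(k10,
    (nat_lit 485)),(k0,(nat_lit 494)),(k2,(nat_lit 497)),(k3,(nat_lit 497)),(k1,(nat_lit 506)),(k4,(nat_lit 512)),(k5,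
    (nat_lit 512)),(k8,(nat_lit 512)),(k9,(nat_lit 512)),(k6,(nat_lit 518)),(k7,(nat_lit 518))],[(k10,(nat_lit 461)),
    (k0,(nat_lit 464)),(k2,(nat_lit 467)),(k3,(nat_lit 467)),(k11,(nat_lit 473)),(k1,(nat_lit 482)),(k5,
    (nat_lit 482)),(k4,(nat_lit 506)),(k8,(nat_lit 506)),(k9,(nat_lit 506)),(k6,(nat_lit 512)),(k7,(nat_lit 512))],
    [(k4,(nat_lit 464)),(k2,(nat_lit 467)),(k3,(nat_lit 467)),(k10,(nat_lit 473)),(k11,(nat_lit 473)),(k1,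
    (nat_lit 482)),(k7,(nat_lit 500)),(k0,(nat_lit 506)),(k8,(nat_lit 506)),(k9,(nat_lit 506)),(k6,(nat_lit 512)),(k5,
    (nat_lit 524))],[(k2,(nat_lit 416)),(k3,(nat_lit 416)),(k11,(nat_lit 440)),(k10,(nat_lit 446)),(k0,(nat_lit 455)),
    (k1,(nat_lit 455)),(k5,(nat_lit 473)),(k8,(nat_lit 473)),(k9,(nat_lit 473)),(k6,(nat_lit 479)),(k4,(nat_lit 485)),
    (k7,(nat_lit 521))],[(k2,(nat_lit 410)),(k3,(nat_lit 410)),(k10,(nat_lit 440)),(k0,(nat_lit 443)),(k11,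
    (nat_lit 446)),(k1,(nat_lit 455)),(k5,(nat_lit 461)),(k9,(nat_lit 461)),(k4,(nat_lit 473)),(k8,(nat_lit 473)),(k6,
    (nat_lit 485)),(k7,(nat_lit 515))]]
    [[k2,k1,k0,k0,k0,k0],[k2,k0,k0,k0,k0,k1],[k1,k2,k0,k0,k0,k0],[k1,k1,k1,k0,k0,k0],[k1,k1,k0,k0,k1,k0],[k1,k1,k0,k0,
    k0,k1],[k1,k0,k1,k0,k0,k1],[k1,k0,k0,k1,k0,k1],[k1,k0,k0,k0,k1,k1],[k1,k0,k0,k0,k0,k2],[k0,k3,k0,k0,k0,k0],[k0,k2,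
    k1,k0,k0,k0],[k0,k2,k0,k1,k0,k0],[k0,k2,k0,k0,k1,k0],[k0,k2,k0,k0,k0,k1],[k0,k1,k1,k0,k1,k0],[k0,k1,k1,k0,k0,k1],
    [k0,k1,k0,k1,k0,k1],[k0,k1,k0,k0,k1,k1],[k0,k1,k0,k0,k0,k2],[k0,k0,k1,k0,k1,k1],[k0,k0,k1,k0,k0,k2],[k0,k0,k0,k0,
    k1,k2],[k0,k0,k0,k0,k0,k3]]
    [.ref k25 k0 [(z4,[z3,z2,y3]),(z2,[z3,y2,z3]),(z8,[y3,z2,z3,z8]),(z4,[y3,z2,z3,z0,z12]),(z2,[y3,z0,y3,y2,y6,z6])],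
    .ref k25 k0 [(z5,[z6,z1]),(z5,[z12,y8,z15]),(z5,[y3,z2,z0,z5]),(z5,[y6,z4,z0,z0,z15]),(z5,[y12,z3,y15,y5,y15,
    z15])],.ref k25 k0 [(z5,[z3,z4,y6]),(z5,[z6,y2,z3]),(z10,[y3,z1,z6,z10]),(z5,[y3,z1,z6,z0,z15]),(z5,[y6,y3,y3,y5,
    y15,z15])],.ref k25 k0 [(z5,[z6,z3,y6,y2]),(z5,[z12,y4,z3,y4]),(z5,[y3,z1,z3,z6]),(z5,[y6,z2,z6,z2,z15]),(z5,[y12,
    y1,y3,y1,y15,z15])],.ref k25 k0 [(z1,[z3,z1,z0,z1,z3,y3]),(z1,[z6,z0,z3,z2,z6,y6]),(z2,[y3,z0,z0,z1,y3,z3]),(z1,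
    [y3,z0,z0,y1,z0,z3]),(z1,[y6,y1,y3,y3,y9,z9])],.ref k25 k0 [(z7,[z6,z5,y6]),(z7,[z12,y4,z9]),(z7,[y3,z1,z3,z7]),
    (z7,[y6,z2,z6,z0,z21]),(z7,[y12,y3,y9,y7,y21,z21])],.ref k25 k0 [(z1,[z3,z0,z0,y1]),(z1,[z6,y2,z3,y2]),(z2,[y3,z1,
    z0,z3]),(z1,[y3,z1,z0,z1,z3]),(z1,[y6,z1,y3,z1,y3,z3])],.ref k25 k0 [(z1,[z6,y1,z0,z0,y6]),(z1,[z12,y4,z3,z0,
    y12]),(z1,[y3,z1,z0,z1,z3]),(z1,[y6,z2,z0,z0,z9]),(z1,[y12,z3,y3,y1,z9,z3])],.ref k25 k0 [(z1,[y6,z1,y6,y2,y6,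
    z6]),(z1,[y12,z0,y9,y4,y12,z12]),(z1,[z3,z0,z3,z2,z3,y3]),(z1,[z6,z0,z6,z2,z9,y6]),(z1,[z12,y1,z9,z3,z9,y9])],
    .ref k25 k0 [(z2,[z3,z1]),(z1,[z3,y1,z3]),(z4,[y3,z1,z0,z4]),(z2,[y3,z1,z0,z0,z6]),(z1,[y3,z0,y3,y1,y3,z3])],
    .ref k25 k0 [(z2,[z1,z2,y3]),(z1,[z1]),(z4,[y1,z0,z3,z4]),(z2,[y1,z0,z3,z0,z6]),(z1,[y1,y1,z0,y1,y3,z3])],
    .ref k25 k0 [(z7,[z6,z7,y12,y2]),(z7,[z12,z0,y3,y4]),(z7,[y3,z0,z6,z8]),(z7,[y6,z0,z12,z2,z21]),(z7,[y12,y7,z3,y3,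
    y21,z21])],.ref k25 k0 [(z1,[z1,z1,y2,z0,y1]),(z1,[z2,z0,y1,z0,y2]),(z2,[y1,z0,z2,z2,z1]),(z1,[y1,z0,z2,z0,z4]),
    (z1,[y2,y1,z1,y1,y1,z3])],.ref k25 k0 [(z2,[z3,z3,y3,z1,z3,y3]),(z1,[z3,z1,z0,z1,z3,y3]),(z4,[y3,y1,z3,z3,y3,z3]),
    (z2,[y3,y1,z3,y1,z3,z3]),(z1,[y3,y2,z0,y2,y6,z6])],.ref k25 k0 [(z3,[z2,z3,y4]),(z3,[z4,z0,z1]),(z3,[y1,z0,z2,
    z3]),(z3,[y2,z0,z4,z0,z9]),(z3,[y4,y3,y1,y3,y9,z9])],.ref k25 k0 [(z1,[y6,y1,z0,z0,y6,z6]),(z1,[y12,y4,z3,z0,y12,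
    z12]),(z1,[z3,z1,z0,z1,z3,y3]),(z1,[z6,z2,z0,z0,z9,y6]),(z1,[z12,z3,y3,y1,z9,y9])],.ref k25 k0 [(z2,[z3,z2,y3,
    y1]),(z1,[z3,z0,z0,y1]),(z4,[y3,z0,z3,z5]),(z2,[y3,z0,z3,z1,z6]),(z1,[y3,y1,z0,z0,y3,z3])],.ref k25 k0 [(z1,[z2,
    z1,y2,z0,y2]),(z1,[z4,z0,y1,z0,y4]),(z1,[y1,z0,z1,z1,z1]),(z1,[y2,z0,z2,z0,z5]),(z1,[y4,y1,z1,y1,z1,z3])],
    .ref k25 k0 [(z1,[z6,z3,z0,z2,z6,y6]),(z1,[z12,z4,z3,z4,z12,y12]),(z1,[y3,y1,z0,z0,y3,z3]),(z1,[y6,y2,z0,y2,y3,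
    z6]),(z1,[y12,y5,y3,y5,y15,z15])],.ref k25 k0 [(z1,[z1,z1,y1]),(z1,[z2,z0,z1]),(z2,[y1,z0,z1,z2]),(z1,[y1,z0,z1,
    z0,z3]),(z1,[y2,y1,y1,y1,y3,z3])],.ref k25 k0 [(z2,[y3,z1,y3,z0,y3,z3]),(z1,[y3,y1,z0,z0,y3,z3]),(z4,[z3,z1,z3,z4,
    z3,y3]),(z2,[z3,z1,z3,z0,z9,y3]),(z1,[z3,z0,z0,y1])],.ref k25 k0 [(z1,[z6,z1,z0,y2]),(z1,[z12,z0,z3,y4]),(z1,[y3,
    z0,z0,z2]),(z1,[y6,z0,z0,z2,z3]),(z1,[y12,y1,y3,z3,y3,z3])],.ref k25 k0 [(z1,[y3,z0,y3,y1,y3,z3]),(z1,[y6,y2,y3,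
    y2,y6,z6]),(z2,[z3,z1,z3,z3,z3,y3]),(z1,[z3,z1,z3,z1,z6,y3]),(z1,[z6,z1,z3,z1,z3,y3])],.ref k25 k0 [(z1,[z2,z1]),
    (z1,[z4,z0,z3]),(z1,[y1,z0,z0,z1]),(z1,[y2,z0,z0,z0,z3]),(z1,[y4,y1,y3,y1,y3,z3])]],
    .lp k0 [(nat_lit 652),(nat_lit 654),(nat_lit 700),(nat_lit 592),(nat_lit 666),(nat_lit 572)] [k24,k24,k23,k23,k0,
    k0,k54,k54,k17,k17,k64,k64] k0 [[k0,k0,k14,k6,k0,k0,k0,k0,k0,k64,k64,k0],[k0,k0,k0,k0,k38,k22,k46,k14,k0,k0,k0,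
    k0],[k0,k6,k0,k8,k24,k0,k20,k0,k0,k22,k0,k0],[k0,k14,k0,k0,k4,k0,k0,k0,k0,k58,k58,k14],[k22,k0,k0,k0,k0,k60,k84,
    k0,k0,k0,k0,k98],[k38,k0,k4,k24,k0,k0,k12,k0,k0,k38,k0,k0],[k14,k0,k0,k0,k0,k0,k0,k0,k102,k102,k0,k90],[k46,k0,k0,
    k20,k12,k84,k0,k0,k0,k0,k0,k86],[k0,k64,k58,k22,k38,k0,k0,k102,k0,k0,k0,k0],[k0,k0,k0,k0,k0,k0,k0,k102,k0,k0,k16,
    k0],[k0,k0,k14,k0,k0,k98,k86,k90,k0,k0,k0,k0],[k0,k64,k58,k0,k0,k0,k0,k0,k16,k0,k0,k0]] (nat_lit 1920) k5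
    [[(k0,(nat_lit 588)),(k11,(nat_lit 596)),(k10,(nat_lit 612)),(k5,(nat_lit 618)),(k1,(nat_lit 652)),(k3,
    (nat_lit 653)),(k8,(nat_lit 659)),(k2,(nat_lit 667)),(k4,(nat_lit 676)),(k6,(nat_lit 708)),(k7,(nat_lit 720)),(k9,
    (nat_lit 749))],[(k1,(nat_lit 588)),(k8,(nat_lit 595)),(k10,(nat_lit 612)),(k11,(nat_lit 612)),(k7,(nat_lit 644)),
    (k2,(nat_lit 647)),(k0,(nat_lit 652)),(k3,(nat_lit 653)),(k5,(nat_lit 662)),(k6,(nat_lit 668)),(k9,(nat_lit 673)),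
    (k4,(nat_lit 714))],[(k7,(nat_lit 585)),(k6,(nat_lit 609)),(k9,(nat_lit 614)),(k0,(nat_lit 653)),(k1,
    (nat_lit 653)),(k3,(nat_lit 654)),(k4,(nat_lit 655)),(k8,(nat_lit 660)),(k2,(nat_lit 668)),(k10,(nat_lit 677)),
    (k11,(nat_lit 677)),(k5,(nat_lit 683))],[(k7,(nat_lit 599)),(k6,(nat_lit 623)),(k8,(nat_lit 638)),(k9,
    (nat_lit 640)),(k2,(nat_lit 646)),(k0,(nat_lit 647)),(k1,(nat_lit 667)),(k3,(nat_lit 668)),(k10,(nat_lit 671)),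
    (k11,(nat_lit 671)),(k5,(nat_lit 677)),(k4,(nat_lit 681))],[(k1,(nat_lit 618)),(k10,(nat_lit 622)),(k8,
    (nat_lit 625)),(k7,(nat_lit 642)),(k11,(nat_lit 658)),(k0,(nat_lit 662)),(k6,(nat_lit 666)),(k2,(nat_lit 677)),
    (k3,(nat_lit 683)),(k9,(nat_lit 683)),(k5,(nat_lit 708)),(k4,(nat_lit 724))],[(k10,(nat_lit 538)),(k9,
    (nat_lit 599)),(k4,(nat_lit 640)),(k7,(nat_lit 646)),(k3,(nat_lit 655)),(k6,(nat_lit 658)),(k11,(nat_lit 674)),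
    (k1,(nat_lit 676)),(k2,(nat_lit 681)),(k8,(nat_lit 683)),(k0,(nat_lit 714)),(k5,(nat_lit 724))],[(k10,
    (nat_lit 582)),(k11,(nat_lit 582)),(k3,(nat_lit 585)),(k8,(nat_lit 591)),(k2,(nat_lit 599)),(k9,(nat_lit 617)),
    (k5,(nat_lit 642)),(k0,(nat_lit 644)),(k4,(nat_lit 646)),(k7,(nat_lit 652)),(k6,(nat_lit 676)),(k1,
    (nat_lit 720))],[(k11,(nat_lit 480)),(k10,(nat_lit 492)),(k8,(nat_lit 527)),(k6,(nat_lit 592)),(k3,(nat_lit 609)),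
    (k2,(nat_lit 623)),(k9,(nat_lit 629)),(k4,(nat_lit 658)),(k5,(nat_lit 666)),(k0,(nat_lit 668)),(k7,(nat_lit 676)),
    (k1,(nat_lit 708))],[(k10,(nat_lit 533)),(k4,(nat_lit 599)),(k3,(nat_lit 614)),(k7,(nat_lit 617)),(k6,
    (nat_lit 629)),(k2,(nat_lit 640)),(k9,(nat_lit 666)),(k0,(nat_lit 673)),(k5,(nat_lit 683)),(k11,(nat_lit 721)),
    (k1,(nat_lit 749)),(k8,(nat_lit 768))],[(k6,(nat_lit 527)),(k7,(nat_lit 591)),(k0,(nat_lit 595)),(k11,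
    (nat_lit 619)),(k5,(nat_lit 625)),(k10,(nat_lit 635)),(k2,(nat_lit 638)),(k1,(nat_lit 659)),(k3,(nat_lit 660)),
    (k8,(nat_lit 666)),(k4,(nat_lit 683)),(k9,(nat_lit 768))],[(k6,(nat_lit 480)),(k10,(nat_lit 572)),(k11,
    (nat_lit 572)),(k7,(nat_lit 582)),(k1,(nat_lit 596)),(k0,(nat_lit 612)),(k8,(nat_lit 619)),(k5,(nat_lit 658)),(k2,
    (nat_lit 671)),(k4,(nat_lit 674)),(k3,(nat_lit 677)),(k9,(nat_lit 721))],[(k6,(nat_lit 492)),(k9,(nat_lit 533)),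
    (k4,(nat_lit 538)),(k10,(nat_lit 572)),(k11,(nat_lit 572)),(k7,(nat_lit 582)),(k0,(nat_lit 612)),(k1,
    (nat_lit 612)),(k5,(nat_lit 622)),(k8,(nat_lit 635)),(k2,(nat_lit 671)),(k3,(nat_lit 677))]]
    [[k3,k0,k0,k0,k0,k0],[k2,k1,k0,k0,k0,k0],[k2,k0,k0,k0,k0,k1],[k1,k1,k0,k0,k1,k0],[k1,k0,k1,k0,k0,k1],[k1,k0,k1,k0,
    k1,k0],[k1,k0,k0,k1,k0,k1],[k1,k0,k0,k0,k1,k1],[k1,k0,k0,k0,k0,k2],[k0,k2,k0,k1,k0,k0],[k0,k1,k1,k0,k0,k1],[k0,k1,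
    k0,k2,k0,k0],[k0,k1,k0,k1,k1,k0],[k0,k1,k0,k1,k0,k1],[k0,k1,k0,k0,k1,k1],[k0,k0,k1,k1,k1,k0],[k0,k0,k1,k1,k0,k1],
    [k0,k0,k1,k2,k0,k0],[k0,k0,k1,k0,k1,k1],[k0,k0,k1,k0,k0,k2],[k0,k0,k0,k2,k1,k0],[k0,k0,k0,k2,k0,k1],[k0,k0,k0,k1,
    k2,k0],[k0,k0,k0,k1,k1,k1],[k0,k0,k0,k1,k0,k2],[k0,k0,k0,k0,k1,k2],[k0,k0,k0,k0,k0,k3]]
    [.ref k25 k0 [(z1,[z1]),(z8,[y1,z3,z24]),(z4,[z1,y3,z0,z12]),(z16,[y11,z33,z0,z0,z48]),(z2,[y1,y3,y6,y6,y6,z6])],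
    .ref k25 k0 [(z5,[z8,y1,y8]),(z5,[y1,z2,z16]),(z5,[z2,y4,y2,z15]),(z10,[y11,z22,z11,z0,z30]),(z5,[y4,y7,y11,y15,
    y15,z15])],.ref k25 k0 [(z11,[z16,z1]),(z11,[y2,z4,z33]),(z11,[z4,y8,z0,z33]),(z1,[y1,z2,z0,z0,z3]),(z11,[y8,y17,
    y33,y33,y33,z33])],.ref k25 k0 [(z1,[z8,z3,z0,z8,z8,y8]),(z1,[y1,z0,z3,y1,y1,z1]),(z1,[z2,z0,z0,z5,z2,y2]),(z2,
    [y11,z0,z0,y11,y5,z11]),(z1,[y4,y3,y3,y7,y7,z7])],.ref k25 k0 [(z7,[z16,z5,z0,y16]),(z7,[y2,z2,z21,z2]),(z7,[z4,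
    y4,z0,z17]),(z7,[y11,z11,z0,z11,z21]),(z7,[y8,y13,y21,y13,y21,z21])],.ref k25 k0 [(z1,[z4,z3,z4,z0,z4,y4]),(z2,
    [y1,z0,z5,z0,y1,z1]),(z1,[z1,z0,z1,z3,z1,y1]),(z4,[y11,z0,y11,z0,z1,z11]),(z1,[y2,y3,y5,y3,y5,z5])],
    .ref k25 k0 [(z1,[z8,y5,z0,z0,y8]),(z1,[y1,z1,z3,z0,z1]),(z1,[z2,y2,z0,z3,y2]),(z2,[y11,z11,z0,z0,z17]),(z1,[y4,
    z1,y3,y3,z1,z3])],.ref k25 k0 [(z3,[z16,z9,z16,z16,z16,y16]),(z3,[y2,z0,z7,y2,y2,z2]),(z3,[z4,z0,z4,z13,z4,y4]),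
    (z3,[y11,z0,y11,y11,y2,z11]),(z3,[y8,y9,y17,y17,y17,z17])],.ref k25 k0 [(z3,[z8,z1]),(z3,[y1,z1,z9]),(z3,[z2,y2,
    z0,z9]),(z6,[y11,z11,z0,z0,z18]),(z3,[y4,y5,y9,y9,y9,z9])],.ref k25 k0 [(z5,[y16,z15,z32,z0,z16]),(z5,[z2,z0,z11,
    z0,y2]),(z5,[y4,z0,z8,z15,z4]),(z5,[z11,z0,y22,z0,z4]),(z5,[z8,y15,y31,y15,y23,z15])],.ref k25 k0 [(z1,[z16,z3,
    y16,y16]),(z1,[y2,z0,z5,z2]),(z1,[z4,z0,y4,y1]),(z1,[y11,z0,z11,z11,z3]),(z1,[y8,y3,z5,z5,y3,z3])],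
    .ref k25 k0 [(z1,[y2,z3,z2,z0,z4]),(z4,[z1,z0,z11,z0,y2]),(z2,[y1,z0,z1,z6,z2]),(z8,[z11,z0,y11,z0,z2]),(z1,[z1,
    y3,y4,y3,y5,z3])],.ref k25 k0 [(z7,[y16,z5,z0,y16,z0,z16]),(z7,[z2,z2,z21,z2,z0,y2]),(z7,[y4,y4,z0,z17,z0,z4]),
    (z7,[z11,z11,z0,z11,z21,y11]),(z7,[z8,y13,y21,y13,y21,z13])],.ref k25 k0 [(z1,[y4,z3,z4,z0,z4]),(z2,[z1,z0,z5,z0,
    y1]),(z1,[y1,z0,z1,z3,z1]),(z4,[z11,z0,y11,z0,z1]),(z1,[z2,y3,y5,y3,y5,z3])],.ref k25 k0 [(z3,[y16,y7,z0,y16,y16,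
    z16]),(z3,[z2,z2,z9,z2,z2,y2]),(z3,[y4,y4,z0,z5,y4,z4]),(z3,[z11,z11,z0,z11,z20,y11]),(z3,[z8,y1,y9,y1,y1,z1])],
    .ref k25 k0 [(z5,[y16,y1,y16,z0,z0,z16]),(z5,[z2,z2,z17,z0,z0,y2]),(z5,[y4,y4,y4,z15,z0,z4]),(z5,[z11,z11,z11,z0,
    z15,y11]),(z5,[z8,y7,y7,y15,y15,z7])],.ref k25 k0 [(z1,[y8,z3,z0,z8,z8]),(z1,[z1,z0,z3,y1,y1]),(z1,[y2,z0,z0,z5,
    z2]),(z2,[z11,z0,z0,y11,y5]),(z1,[z4,y3,y3,y7,y7,z3])],.ref k25 k0 [(z3,[y8,z9,z0,z8,z16]),(z3,[z1,z0,z9,y1,y2]),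
    (z3,[y2,z0,z0,z11,z4]),(z6,[z11,z0,z0,y11,y4]),(z3,[z4,y9,y9,y13,y17,z9])],.ref k25 k0 [(z1,[y16,y13,y16,z0,y16,
    z16]),(z1,[z2,z2,z5,z0,z2,y2]),(z1,[y4,y4,y4,z3,y4,z4]),(z1,[z11,z11,z11,z0,z14,y11]),(z1,[z8,z5,z5,y3,z5,y5])],
    .ref k25 k0 [(z1,[z8,z3,z0,y8]),(z1,[y1,z0,z3,z1]),(z1,[z2,z0,z0,z1]),(z2,[y11,z0,z0,z11,z6]),(z1,[y4,y3,y3,z1,y3,
    z3])],.ref k25 k0 [(z5,[y8,z7,y8,y8,z8,z8]),(z5,[z1,z1,z16,z1,y1,y1]),(z5,[y2,y2,y2,z13,z2,z2]),(z10,[z11,z11,z11,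
    z11,z19,y11]),(z5,[z4,y11,y11,y11,y19,z11])],.ref k25 k0 [(z7,[y16,z21,z0,z0,z32]),(z7,[z2,z0,z21,z0,y4]),(z7,[y4,
    z0,z0,z21,z8]),(z7,[z11,z0,z0,z0,y1]),(z7,[z8,y21,y21,y21,y37,z21])],.ref k25 k0 [(z9,[y16,y5,y32,y32,y16,z32]),
    (z9,[z2,z4,z31,z4,z2,y4]),(z9,[y4,y8,y8,z19,y4,z8]),(z9,[z11,z22,z22,z22,z38,y22]),(z9,[z8,y11,y11,y11,y19,z11])],
    .ref k25 k0 [(z3,[y8,z1,y8,y8,z0,z8]),(z3,[z1,z1,z10,z1,z0,y1]),(z3,[y2,y2,y2,z7,z0,z2]),(z6,[z11,z11,z11,z11,z18,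
    y11]),(z3,[z4,y5,y5,y5,y9,z5])],.ref k25 k0 [(z3,[y16,z9,z0,z0,z16]),(z3,[z2,z0,z9,z0,y2]),(z3,[y4,z0,z0,z9,z4]),
    (z3,[z11,z0,z0,z0,y2]),(z3,[z8,y9,y9,y9,y17,z9])],.ref k25 k0 [(z1,[y8,y5,y8,y8,y8,z8]),(z1,[z1,z1,z4,z1,z1,y1]),
    (z1,[y2,y2,y2,z1,y2,z2]),(z2,[z11,z11,z11,z11,z17,y11]),(z1,[z4,z1,z1,z1,z1,y1])],.ref k25 k0 [(z1,[z16,z3]),(z1,
    [y2,z0,z3]),(z1,[z4,z0,z0,z3]),(z1,[y11,z0,z0,z0,z3]),(z1,[y8,y3,y3,y3,y3,z3])]],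
    .lp k0 [(nat_lit 640),(nat_lit 652),(nat_lit 666),(nat_lit 656),(nat_lit 634),(nat_lit 590)] [k13,k13,k7,k7,k0,k0,
    k5,k5,k16,k16,k38,k38] k0 [[k0,k0,k8,k0,k0,k0,k8,k0,k0,k26,k0,k0],[k0,k0,k0,k0,k0,k10,k18,k0,k0,k0,k0,k0],[k0,k0,
    k0,k0,k0,k54,k10,k0,k0,k8,k46,k0],[k0,k8,k0,k0,k0,k0,k2,k0,k0,k20,k6,k0],[k10,k0,k0,k54,k0,k0,k0,k0,k0,k6,k0,k8],
    [k0,k0,k0,k0,k0,k0,k8,k12,k0,k6,k0,k8],[k0,k0,k0,k0,k12,k0,k0,k12,k38,k4,k24,k0],[k18,k8,k2,k10,k8,k0,k0,k0,k0,k0,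
    k0,k0],[k0,k26,k20,k8,k6,k6,k0,k4,k0,k0,k0,k0],[k0,k0,k0,k0,k0,k0,k0,k38,k34,k0,k50,k26],[k0,k0,k0,k0,k8,k8,k0,k0,
    k26,k0,k0,k0],[k0,k0,k6,k46,k0,k0,k0,k24,k50,k0,k0,k0]] (nat_lit 1920) k5
    [[(k11,(nat_lit 565)),(k2,(nat_lit 600)),(k10,(nat_lit 615)),(k6,(nat_lit 624)),(k9,(nat_lit 637)),(k0,
    (nat_lit 640)),(k1,(nat_lit 640)),(k3,(nat_lit 646)),(k5,(nat_lit 647)),(k7,(nat_lit 656)),(k4,(nat_lit 661)),(k8,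
    (nat_lit 663))],[(k8,(nat_lit 611)),(k10,(nat_lit 615)),(k11,(nat_lit 615)),(k9,(nat_lit 629)),(k0,(nat_lit 640)),
    (k1,(nat_lit 640)),(k5,(nat_lit 645)),(k2,(nat_lit 646)),(k3,(nat_lit 646)),(k4,(nat_lit 653)),(k7,(nat_lit 658)),
    (k6,(nat_lit 666))],[(k10,(nat_lit 621)),(k9,(nat_lit 625)),(k8,(nat_lit 643)),(k0,(nat_lit 646)),(k1,
    (nat_lit 646)),(k11,(nat_lit 647)),(k4,(nat_lit 649)),(k3,(nat_lit 652)),(k7,(nat_lit 654)),(k5,(nat_lit 659)),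
    (k2,(nat_lit 660)),(k6,(nat_lit 662))],[(k1,(nat_lit 600)),(k4,(nat_lit 605)),(k10,(nat_lit 627)),(k9,
    (nat_lit 633)),(k8,(nat_lit 635)),(k11,(nat_lit 641)),(k0,(nat_lit 646)),(k2,(nat_lit 652)),(k7,(nat_lit 654)),
    (k6,(nat_lit 656)),(k5,(nat_lit 659)),(k3,(nat_lit 660))],[(k8,(nat_lit 630)),(k11,(nat_lit 636)),(k0,
    (nat_lit 645)),(k1,(nat_lit 647)),(k9,(nat_lit 648)),(k2,(nat_lit 659)),(k3,(nat_lit 659)),(k4,(nat_lit 666)),(k5,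
    (nat_lit 666)),(k6,(nat_lit 671)),(k10,(nat_lit 674)),(k7,(nat_lit 715))],[(k2,(nat_lit 605)),(k10,(nat_lit 620)),
    (k11,(nat_lit 634)),(k8,(nat_lit 644)),(k3,(nat_lit 649)),(k0,(nat_lit 653)),(k1,(nat_lit 661)),(k7,
    (nat_lit 661)),(k9,(nat_lit 662)),(k4,(nat_lit 666)),(k5,(nat_lit 666)),(k6,(nat_lit 669))],[(k10,(nat_lit 615)),
    (k11,(nat_lit 629)),(k9,(nat_lit 637)),(k8,(nat_lit 639)),(k6,(nat_lit 644)),(k2,(nat_lit 654)),(k3,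
    (nat_lit 654)),(k1,(nat_lit 656)),(k7,(nat_lit 656)),(k0,(nat_lit 658)),(k4,(nat_lit 661)),(k5,(nat_lit 715))],
    [(k11,(nat_lit 585)),(k10,(nat_lit 623)),(k1,(nat_lit 624)),(k8,(nat_lit 641)),(k6,(nat_lit 644)),(k7,
    (nat_lit 644)),(k9,(nat_lit 645)),(k2,(nat_lit 656)),(k3,(nat_lit 662)),(k0,(nat_lit 666)),(k4,(nat_lit 669)),(k5,
    (nat_lit 671))],[(k11,(nat_lit 616)),(k3,(nat_lit 625)),(k0,(nat_lit 629)),(k2,(nat_lit 633)),(k10,(nat_lit 636)),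
    (k1,(nat_lit 637)),(k7,(nat_lit 637)),(k6,(nat_lit 645)),(k9,(nat_lit 646)),(k5,(nat_lit 648)),(k4,(nat_lit 662)),
    (k8,(nat_lit 672))],[(k0,(nat_lit 611)),(k11,(nat_lit 612)),(k5,(nat_lit 630)),(k2,(nat_lit 635)),(k7,
    (nat_lit 639)),(k6,(nat_lit 641)),(k3,(nat_lit 643)),(k4,(nat_lit 644)),(k10,(nat_lit 662)),(k1,(nat_lit 663)),
    (k8,(nat_lit 668)),(k9,(nat_lit 672))],[(k11,(nat_lit 556)),(k10,(nat_lit 564)),(k1,(nat_lit 565)),(k6,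
    (nat_lit 585)),(k8,(nat_lit 612)),(k0,(nat_lit 615)),(k9,(nat_lit 616)),(k7,(nat_lit 629)),(k4,(nat_lit 634)),(k5,
    (nat_lit 636)),(k2,(nat_lit 641)),(k3,(nat_lit 647))],[(k11,(nat_lit 564)),(k10,(nat_lit 590)),(k0,(nat_lit 615)),
    (k1,(nat_lit 615)),(k7,(nat_lit 615)),(k4,(nat_lit 620)),(k3,(nat_lit 621)),(k6,(nat_lit 623)),(k2,(nat_lit 627)),
    (k9,(nat_lit 636)),(k8,(nat_lit 662)),(k5,(nat_lit 674))]]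
    [[k2,k1,k0,k0,k0,k0],[k2,k0,k0,k0,k1,k0],[k2,k0,k0,k0,k0,k1],[k1,k2,k0,k0,k0,k0],[k1,k1,k1,k0,k0,k0],[k1,k1,k0,k0,
    k1,k0],[k1,k1,k0,k0,k0,k1],[k1,k0,k1,k0,k0,k1],[k1,k0,k0,k1,k1,k0],[k1,k0,k0,k1,k0,k1],[k1,k0,k0,k0,k1,k1],[k1,k0,
    k0,k0,k0,k2],[k0,k2,k1,k0,k0,k0],[k0,k1,k1,k0,k1,k0],[k0,k1,k1,k0,k0,k1],[k0,k1,k0,k1,k0,k1],[k0,k1,k0,k0,k1,k1],
    [k0,k1,k0,k0,k0,k2],[k0,k0,k1,k0,k1,k1],[k0,k0,k1,k0,k0,k2],[k0,k0,k0,k2,k0,k1],[k0,k0,k0,k1,k1,k1],[k0,k0,k0,k1,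
    k0,k2],[k0,k0,k0,k0,k1,k2],[k0,k0,k0,k0,k0,k3]]
    [.ref (nat_lit 461) k6 [(z1,[y2,z4,z1]),(z1,[z0,z1]),(z1,[z1,y2]),(z1,[z0,z0,z0,z1])],.ref (nat_lit 396) k3 [(z3,
    [y1,y1,y3,y3,z3]),(z3,[z1,y2]),(z1,[z0,z0,z1]),(z3,[z4,z1])],.ref k151 k7 [(z2,[y1,z0,z1]),(z1,[z0,z1,z0,z2]),(z1,
    [y2,y1,y2,y4,z4]),(z1,[z0,y1])],.ref (nat_lit 462) k6 [(z1,[y1,z1,z1]),(z1,[z0,z1]),(z2,[z1,y1]),(z1,[z0,z0,z0,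
    z1])],.ref (nat_lit 462) k6 [(z1,[y2,z2,z1,z2]),(z1,[z0,z1]),(z1,[z1,y1,z0,y1]),(z1,[z0,z0,z0,z1])],
    .ref (nat_lit 463) k6 [(z1,[y2,z2,z1]),(z1,[z0,z1]),(z1,[z1,y1]),(z1,[z0,z0,z0,z1])],.ref k151 k7 [(z1,[y1,z0,
    z1]),(z1,[z0,z1,z0,z2]),(z1,[y4,y1,z0,y4,z4]),(z1,[z0,y1])],.ref (nat_lit 455) k11 [(z1,[z2,y1,y2,y2]),(z1,[z0,z0,
    z1]),(z2,[z1,y1,y1,y1]),(z2,[y3,z1,z1,z1,z2])],.ref (nat_lit 462) k6 [(z1,[y2,z0,y1,y2,z2]),(z1,[z0,z1]),(z1,[z1,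
    z0,z1,z1,y1]),(z1,[z0,z0,z0,z1])],.ref (nat_lit 455) k11 [(z1,[z4,z1,z0,z4,y4]),(z1,[z0,z0,z1]),(z1,[z1,z0,z0,z1,
    y1]),(z1,[y3,y1,y1,y4,z4])],.ref k124 k1 [(z1,[z2,z2,z2,z5,y4]),(z1,[y3,y2,y2,y5,z5]),(z1,[y4,y3,y4,y8,z8]),(z1,
    [z6,z4,z5,z10,y10])],.ref (nat_lit 455) k11 [(z1,[z1,z0,y2]),(z1,[z0,z0,z1]),(z4,[z1,y1,y2]),(z4,[y3,y1,z2,y4,
    z4])],.ref (nat_lit 455) k11 [(z1,[y2,z1,z0,z2]),(z1,[z0,z0,z1]),(z2,[y1,z0,z0,z1]),(z2,[z3,y2,y2,y5,z2])],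
    .ref (nat_lit 455) k11 [(z1,[y4,z1,z0,z4]),(z1,[z0,z0,z1]),(z1,[y1,z0,z0,z1]),(z1,[z3,y1,y1,y4,z1])],
    .ref (nat_lit 462) k6 [(z1,[z2,z0,y1,y2]),(z1,[z0,z1]),(z1,[y1,z0,z1,z1]),(z1,[z0,z0,z0,z1])],
    .ref (nat_lit 396) k3 [(z1,[z1,z0,y1]),(z1,[y1,y1,z0,y1,z1]),(z1,[z0,z0,z1]),(z1,[y4,y1,z0,y4,z4])],
    .ref (nat_lit 455) k11 [(z1,[z4,z1,y4]),(z1,[z0,z0,z1]),(z1,[z1,z0,y1]),(z1,[y3,y1,z2,y1,z1])],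
    .ref (nat_lit 351) k0 [(z1,[z0,z1]),(z1,[y1,z0,z2]),(z1,[z0,z0,z0,z1]),(z1,[y1,y3,y1,y3,z3])],
    .ref (nat_lit 464) k8 [(z1,[z2,z0,y2,y1]),(z1,[z3,y1,y4,y4,z1]),(z1,[y1,z0,z1,z1]),(z1,[z0,z0,z1])],
    .ref (nat_lit 464) k8 [(z1,[z1,z0,y2]),(z2,[z3,y2,y8,y5,z2]),(z2,[y1,z0,z2,z1]),(z1,[z0,z0,z1])],
    .ref (nat_lit 396) k3 [(z2,[z1,z0,y1]),(z2,[y1,y2,y1,y2,z2]),(z1,[z0,z0,z1]),(z1,[y2,y1,y2,y4,z4])],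
    .ref (nat_lit 462) k6 [(z1,[z2,z2,z1,z2,y2]),(z1,[z0,z1]),(z1,[y1,y1,z0,y1,z1]),(z1,[z0,z0,z0,z1])],
    .ref (nat_lit 465) k6 [(z1,[z2,z2,z1,z2,y2]),(z1,[z0,z1]),(z1,[y1,y1,z1,y1,z1]),(z1,[z0,z0,z0,z1])],
    .ref (nat_lit 466) k11 [(z1,[z4,z1,y8]),(z1,[z0,z0,z1]),(z1,[z1,z0,y2]),(z1,[y3,y1,z5,y1,z1])],
    .ref (nat_lit 351) k0 [(z1,[z0,z1]),(z2,[y1,z0,z3]),(z1,[z0,z0,z0,z1]),(z2,[y1,y6,y3,y6,z6])]]]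

theorem hB6_171_38 : blkB [0, 0, 0, 0, 0, 0] [] sp6 hS6_171 (pcls (n := 6) [0, 0, 0, 0, 0, 0]) hD6_171 560 38 hN6_171_38 = true := by
  decide +kernel

/-- nodes 468 to 479 -/
noncomputable def hN6_171_39 : List HM :=
  [.base (.leafM k3 [k1,k2,k3,k4,k5,k0] [(z1,[z0,z0,z1])] []),
    .base (.leafM k1 [k0,k1,k2,k3,k4,k5] [(z1,[y1,z0,y1,z1]),(z1,[z1,z0,z1])] []),
    .base (.leafM k3 [k1,k2,k3,k4,k5,k0] [(z3,[y1,y3,z0,y1,z3])] []),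
    .base (.leafM k0 [k0,k1,k2,k3,k4,k5] [(z3,[z0,z3,z1,z1])] []),
    .base (.leafM k3 [k5,k0,k1,k2,k3,k4] [(z1,[z1,z0,z1,z1])] []),
    .base (.leafM k0 [k2,k3,k4,k5,k0,k1] [(z6,[y1,y6,y1,z0,z6])] []),
    .lp k0 [(nat_lit 652),(nat_lit 654),(nat_lit 700),(nat_lit 592),(nat_lit 666),(nat_lit 572)] [k24,k24,k23,k23,k0,
    k0,k54,k54,k17,k17,k64,k64] k0 [[k0,k0,k14,k6,k0,k0,k0,k0,k0,k64,k64,k0],[k0,k0,k0,k0,k38,k22,k46,k14,k0,k0,k0,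
    k0],[k0,k6,k0,k8,k24,k0,k20,k0,k0,k22,k0,k0],[k0,k14,k0,k0,k4,k0,k0,k0,k0,k58,k58,k14],[k22,k0,k0,k0,k0,k60,k84,
    k0,k0,k0,k0,k98],[k38,k0,k4,k24,k0,k0,k12,k0,k0,k38,k0,k0],[k14,k0,k0,k0,k0,k0,k0,k0,k102,k102,k0,k90],[k46,k0,k0,
    k20,k12,k84,k0,k0,k0,k0,k0,k86],[k0,k64,k58,k22,k38,k0,k0,k102,k0,k0,k0,k0],[k0,k0,k0,k0,k0,k0,k0,k102,k0,k0,k16,
    k0],[k0,k0,k14,k0,k0,k98,k86,k90,k0,k0,k0,k0],[k0,k64,k58,k0,k0,k0,k0,k0,k16,k0,k0,k0]] (nat_lit 1920) k5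
    [[(k0,(nat_lit 588)),(k11,(nat_lit 596)),(k10,(nat_lit 612)),(k5,(nat_lit 618)),(k1,(nat_lit 652)),(k3,
    (nat_lit 653)),(k8,(nat_lit 659)),(k2,(nat_lit 667)),(k4,(nat_lit 676)),(k6,(nat_lit 708)),(k7,(nat_lit 720)),(k9,
    (nat_lit 749))],[(k1,(nat_lit 588)),(k8,(nat_lit 595)),(k10,(nat_lit 612)),(k11,(nat_lit 612)),(k7,(nat_lit 644)),
    (k2,(nat_lit 647)),(k0,(nat_lit 652)),(k3,(nat_lit 653)),(k5,(nat_lit 662)),(k6,(nat_lit 668)),(k9,(nat_lit 673)),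
    (k4,(nat_lit 714))],[(k7,(nat_lit 585)),(k6,(nat_lit 609)),(k9,(nat_lit 614)),(k0,(nat_lit 653)),(k1,
    (nat_lit 653)),(k3,(nat_lit 654)),(k4,(nat_lit 655)),(k8,(nat_lit 660)),(k2,(nat_lit 668)),(k10,(nat_lit 677)),
    (k11,(nat_lit 677)),(k5,(nat_lit 683))],[(k7,(nat_lit 599)),(k6,(nat_lit 623)),(k8,(nat_lit 638)),(k9,
    (nat_lit 640)),(k2,(nat_lit 646)),(k0,(nat_lit 647)),(k1,(nat_lit 667)),(k3,(nat_lit 668)),(k10,(nat_lit 671)),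
    (k11,(nat_lit 671)),(k5,(nat_lit 677)),(k4,(nat_lit 681))],[(k1,(nat_lit 618)),(k10,(nat_lit 622)),(k8,
    (nat_lit 625)),(k7,(nat_lit 642)),(k11,(nat_lit 658)),(k0,(nat_lit 662)),(k6,(nat_lit 666)),(k2,(nat_lit 677)),
    (k3,(nat_lit 683)),(k9,(nat_lit 683)),(k5,(nat_lit 708)),(k4,(nat_lit 724))],[(k10,(nat_lit 538)),(k9,
    (nat_lit 599)),(k4,(nat_lit 640)),(k7,(nat_lit 646)),(k3,(nat_lit 655)),(k6,(nat_lit 658)),(k11,(nat_lit 674)),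
    (k1,(nat_lit 676)),(k2,(nat_lit 681)),(k8,(nat_lit 683)),(k0,(nat_lit 714)),(k5,(nat_lit 724))],[(k10,
    (nat_lit 582)),(k11,(nat_lit 582)),(k3,(nat_lit 585)),(k8,(nat_lit 591)),(k2,(nat_lit 599)),(k9,(nat_lit 617)),
    (k5,(nat_lit 642)),(k0,(nat_lit 644)),(k4,(nat_lit 646)),(k7,(nat_lit 652)),(k6,(nat_lit 676)),(k1,
    (nat_lit 720))],[(k11,(nat_lit 480)),(k10,(nat_lit 492)),(k8,(nat_lit 527)),(k6,(nat_lit 592)),(k3,(nat_lit 609)),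
    (k2,(nat_lit 623)),(k9,(nat_lit 629)),(k4,(nat_lit 658)),(k5,(nat_lit 666)),(k0,(nat_lit 668)),(k7,(nat_lit 676)),
    (k1,(nat_lit 708))],[(k10,(nat_lit 533)),(k4,(nat_lit 599)),(k3,(nat_lit 614)),(k7,(nat_lit 617)),(k6,
    (nat_lit 629)),(k2,(nat_lit 640)),(k9,(nat_lit 666)),(k0,(nat_lit 673)),(k5,(nat_lit 683)),(k11,(nat_lit 721)),
    (k1,(nat_lit 749)),(k8,(nat_lit 768))],[(k6,(nat_lit 527)),(k7,(nat_lit 591)),(k0,(nat_lit 595)),(k11,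
    (nat_lit 619)),(k5,(nat_lit 625)),(k10,(nat_lit 635)),(k2,(nat_lit 638)),(k1,(nat_lit 659)),(k3,(nat_lit 660)),
    (k8,(nat_lit 666)),(k4,(nat_lit 683)),(k9,(nat_lit 768))],[(k6,(nat_lit 480)),(k10,(nat_lit 572)),(k11,
    (nat_lit 572)),(k7,(nat_lit 582)),(k1,(nat_lit 596)),(k0,(nat_lit 612)),(k8,(nat_lit 619)),(k5,(nat_lit 658)),(k2,
    (nat_lit 671)),(k4,(nat_lit 674)),(k3,(nat_lit 677)),(k9,(nat_lit 721))],[(k6,(nat_lit 492)),(k9,(nat_lit 533)),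
    (k4,(nat_lit 538)),(k10,(nat_lit 572)),(k11,(nat_lit 572)),(k7,(nat_lit 582)),(k0,(nat_lit 612)),(k1,
    (nat_lit 612)),(k5,(nat_lit 622)),(k8,(nat_lit 635)),(k2,(nat_lit 671)),(k3,(nat_lit 677))]]
    [[k3,k0,k0,k0,k0,k0],[k2,k1,k0,k0,k0,k0],[k2,k0,k0,k0,k0,k1],[k1,k1,k0,k0,k1,k0],[k1,k0,k1,k0,k0,k1],[k1,k0,k1,k0,
    k1,k0],[k1,k0,k0,k1,k0,k1],[k1,k0,k0,k0,k1,k1],[k1,k0,k0,k0,k0,k2],[k0,k2,k0,k1,k0,k0],[k0,k1,k1,k0,k0,k1],[k0,k1,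
    k0,k2,k0,k0],[k0,k1,k0,k1,k1,k0],[k0,k1,k0,k1,k0,k1],[k0,k1,k0,k0,k1,k1],[k0,k0,k1,k1,k1,k0],[k0,k0,k1,k1,k0,k1],
    [k0,k0,k1,k2,k0,k0],[k0,k0,k1,k0,k1,k1],[k0,k0,k1,k0,k0,k2],[k0,k0,k0,k2,k1,k0],[k0,k0,k0,k2,k0,k1],[k0,k0,k0,k1,
    k2,k0],[k0,k0,k0,k1,k1,k1],[k0,k0,k0,k1,k0,k2],[k0,k0,k0,k0,k1,k2],[k0,k0,k0,k0,k0,k3]]
    [.ref k25 k0 [(z1,[z1]),(z5,[y2,z2,z15]),(z5,[z4,y4,z0,z15]),(z1,[z0,z0,z0,z0,z1]),(z5,[y8,z3,y15,y15,y5,z15])],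
    .ref k25 k0 [(z8,[z15,y2,y15]),(z4,[y3,z2,z15]),(z2,[z3,y2,y3,z6]),(z1,[z0,z0,z0,z0,z1]),(z1,[y3,z1,z0,y3,y1,
    z3])],.ref k25 k0 [(z11,[z15,z1]),(z11,[y6,z4,z33]),(z11,[z12,y8,z0,z33]),(z1,[z0,z0,z0,z0,z1]),(z11,[y24,z5,y33,
    y33,y11,z33])],.ref k25 k0 [(z1,[y3,z1,z0,y3,y1,z3]),(z5,[z6,z0,z15,z6,z2,y6]),(z5,[y12,z0,z0,z3,y4,z12]),(z1,[z0,
    z0,z0,z0,z1]),(z5,[z24,y5,y15,z9,z3,y9])],.ref k25 k0 [(z2,[z3,z1,z0,y3]),(z5,[y3,z1,z15,z3]),(z5,[z6,y2,z0,z9]),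
    (z1,[z0,z0,z0,z0,z1]),(z5,[y12,y1,y15,y3,y5,z15])],.ref k25 k0 [(z1,[z15,z1,z15,z0,z5,y15]),(z1,[y6,z0,y3,z0,y2,
    z6]),(z1,[z12,z0,z12,z3,z4,y12]),(z1,[z0,z0,z0,z0,z1]),(z1,[y24,y1,y27,y3,y9,z27])],.ref k25 k0 [(z6,[z15,z1,z0,
    z0,y5]),(z3,[y3,z1,z9,z0,z1]),(z3,[z6,y2,z0,z9,y2]),(z1,[z0,z0,z0,z0,z1]),(z3,[y12,z1,y9,y9,z1,z9])],
    .ref k25 k0 [(z2,[y15,z2,y15,y15,y5,z15]),(z1,[z3,z0,z6,z3,z1,y3]),(z1,[y6,z0,y6,y3,y2,z6]),(z1,[z0,z0,z0,z0,z1]),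
    (z1,[z12,y1,z9,z9,z3,y9])],.ref k25 k0 [(z7,[z15,z2]),(z7,[y6,z2,z21]),(z7,[z12,y4,z0,z21]),(z1,[z0,z0,z0,z0,z1]),
    (z7,[y24,z1,y21,y21,y7,z21])],.ref k25 k0 [(z4,[y15,z4,z30,z0,z5]),(z2,[z3,z0,z0,z0,y1]),(z1,[y3,z0,z6,z3,z1]),
    (z1,[z0,z0,z0,z0,z1]),(z1,[z6,y1,y15,y3,y3,z3])],.ref k25 k0 [(z1,[z5,z1,y5,y5]),(z1,[y2,z0,z5,z2]),(z1,[z4,z0,y4,
    y1]),(z1,[z0,z0,z0,z0,z1]),(z1,[y8,y1,z5,z5,y1,z3])],.ref k25 k0 [(z2,[y15,z2,z15,z0,z10]),(z1,[z3,z0,z0,z0,y2]),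
    (z1,[y6,z0,z6,z3,z4]),(z1,[z0,z0,z0,z0,z1]),(z1,[z12,y1,y15,y3,y9,z3])],.ref k25 k0 [(z2,[y3,z1,z0,y3,z0,z3]),(z5,
    [z3,z1,z15,z3,z0,y3]),(z5,[y6,y2,z0,z9,z0,z6]),(z1,[z0,z0,z0,z0,z1]),(z5,[z12,y1,y15,y3,y5,z3])],.ref k25 k0 [(z1,
    [y15,z1,z15,z0,z5]),(z1,[z6,z0,y3,z0,y2]),(z1,[y12,z0,z12,z3,z4]),(z1,[z0,z0,z0,z0,z1]),(z1,[z24,y1,y27,y3,y9,
    z3])],.ref k25 k0 [(z9,[y15,z4,z0,y15,y5,z15]),(z9,[z6,z2,z27,z6,z2,y6]),(z9,[y12,y4,z0,z15,y4,z12]),(z1,[z0,z0,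
    z0,z0,z1]),(z9,[z24,y1,y27,y3,y1,z3])],.ref k25 k0 [(z4,[y15,y1,y15,z0,z0,z15]),(z2,[z3,z1,z9,z0,z0,y3]),(z1,[y3,
    y1,y3,z3,z0,z3]),(z1,[z0,z0,z0,z0,z1]),(z1,[z6,z1,z3,y3,y1,y3])],.ref k25 k0 [(z1,[z3,z1,z0,y3,y1]),(z5,[y6,z0,
    z15,z6,z2]),(z5,[z12,z0,z0,z3,y4]),(z1,[z0,z0,z0,z0,z1]),(z5,[y24,y5,y15,z9,z3,z15])],.ref k25 k0 [(z4,[z15,z4,z0,
    y15,y10]),(z2,[y3,z0,z6,z3,z2]),(z1,[z3,z0,z0,z0,y2]),(z1,[z0,z0,z0,z0,z1]),(z1,[y6,y1,y3,z3,z3,z3])],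
    .ref k25 k0 [(z3,[y15,y2,y15,z0,y5,z15]),(z3,[z6,z2,z15,z0,z2,y6]),(z3,[y12,y4,y12,z9,y4,z12]),(z1,[z0,z0,z0,z0,
    z1]),(z3,[z24,z5,z15,y9,z5,y15])],.ref k25 k0 [(z2,[z5,z2,z0,y5]),(z1,[y1,z0,z3,z1]),(z1,[z2,z0,z0,z1]),(z1,[z0,
    z0,z0,z0,z1]),(z1,[y4,y1,y3,z1,y1,z3])],.ref k25 k0 [(z8,[y15,z3,y15,y15,z5,z15]),(z4,[z3,z1,z15,z3,y1,y3]),(z2,
    [y3,y1,y3,z3,z1,z3]),(z1,[z0,z0,z0,z0,z1]),(z1,[z3,z0,z0,z0,y2])],.ref k25 k0 [(z1,[z15,z1,z0,z0,y10]),(z1,[y6,z0,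
    z3,z0,z4]),(z1,[z12,z0,z0,z3,y8]),(z1,[z0,z0,z0,z0,z1]),(z1,[y24,y1,y3,y3,z15,z3])],.ref k25 k0 [(z16,[y15,z6,y30,
    y30,y5,z30]),(z8,[z3,z2,z30,z6,z1,y6]),(z4,[y3,y2,y6,z6,y1,z6]),(z1,[z0,z0,z0,z0,z1]),(z2,[z3,z0,z0,z0,y1])],
    .ref k25 k0 [(z7,[y15,z2,y15,y15,z0,z15]),(z7,[z6,z2,z27,z6,z0,y6]),(z7,[y12,y4,y12,z9,z0,z12]),(z1,[z0,z0,z0,z0,
    z1]),(z7,[z24,z1,z3,z3,y7,y3])],.ref k25 k0 [(z2,[z15,z2,z0,z0,y5]),(z1,[y3,z0,z3,z0,z1]),(z1,[z6,z0,z0,z3,y2]),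
    (z1,[z0,z0,z0,z0,z1]),(z1,[y12,y1,y3,y3,z3,z3])],.ref k25 k0 [(z6,[y15,z1,y15,y15,y5,z15]),(z3,[z3,z1,z12,z3,z1,
    y3]),(z3,[y6,y2,y6,z3,y2,z6]),(z1,[z0,z0,z0,z0,z1]),(z3,[z12,z1,z3,z3,z1,y3])],.ref k25 k0 [(z1,[z5,z1]),(z1,[y2,
    z0,z3]),(z1,[z4,z0,z0,z3]),(z1,[z0,z0,z0,z0,z1]),(z1,[y8,y1,y3,y3,y1,z3])]],
    .base (.leafM k3 [k1,k2,k3,k4,k5,k0] [(z3,[y1,y1,z0,y3,z3])] []),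
    .lp k0 [k158,k156,k168,k176,k170,k128] [k9,k9,k10,k10,k4,k4,k0,k0,k3,k3,k24,k24] k0 [[k0,k0,k4,k0,k4,k0,k4,k0,k0,
    k0,k0,k18],[k0,k0,k0,k0,k0,k0,k0,k0,k0,k0,k0,k18],[k0,k0,k0,k0,k0,k8,k0,k0,k0,k2,k10,k2],[k0,k4,k8,k0,k0,k0,k0,k0,
    k0,k0,k0,k0],[k0,k0,k0,k8,k0,k0,k0,k0,k0,k6,k6,k0],[k0,k4,k0,k0,k0,k0,k0,k0,k0,k2,k2,k0],[k0,k0,k0,k0,k0,k0,k0,k4,
    k2,k2,k10,k0],[k0,k4,k0,k0,k0,k0,k0,k0,k0,k0,k6,k0],[k0,k0,k0,k2,k2,k6,k0,k2,k0,k0,k0,k0],[k0,k0,k0,k0,k0,k0,k0,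
    k2,k0,k0,k8,k0],[k18,k18,k0,k2,k0,k0,k0,k0,k0,k0,k0,k8],[k0,k0,k0,k10,k2,k6,k6,k10,k8,k0,k0,k0]] (nat_lit 480) k5
    [[(k11,k135),(k10,k143),(k2,k147),(k4,k157),(k6,k157),(k9,k158),(k8,k164),(k5,k165),(k7,k165),(k1,k166),(k3,k175),
    (k0,k176)],[(k10,k125),(k11,k143),(k2,k157),(k3,k157),(k0,k158),(k5,k159),(k9,k160),(k4,k163),(k7,k163),(k8,k164),
    (k6,k167),(k1,k176)],[(k10,k124),(k11,k142),(k3,k156),(k0,k157),(k2,k160),(k5,k162),(k8,k163),(k9,k163),(k4,k166),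
    (k7,k166),(k6,k170),(k1,k175)],[(k10,k140),(k11,k142),(k1,k147),(k4,k154),(k0,k157),(k3,k160),(k8,k161),(k5,k162),
    (k9,k163),(k2,k164),(k6,k166),(k7,k166)],[(k11,k150),(k10,k158),(k0,k159),(k5,k160),(k2,k162),(k3,k162),(k1,k165),
    (k4,k168),(k8,k169),(k9,k169),(k6,k172),(k7,k180)],[(k10,k150),(k11,k150),(k2,k154),(k1,k157),(k0,k163),(k8,k163),
    (k3,k166),(k4,k168),(k5,k168),(k9,k169),(k6,k172),(k7,k172)],[(k10,k158),(k11,k158),(k0,k163),(k1,k165),(k2,k166),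
    (k3,k166),(k8,k171),(k4,k172),(k9,k173),(k6,k176),(k7,k176),(k5,k180)],[(k11,k150),(k1,k157),(k10,k158),(k2,k166),
    (k0,k167),(k3,k170),(k8,k171),(k4,k172),(k5,k172),(k6,k172),(k9,k173),(k7,k176)],[(k11,k151),(k1,k158),(k10,k159),
    (k0,k160),(k2,k163),(k3,k163),(k4,k169),(k5,k169),(k8,k172),(k6,k173),(k7,k173),(k9,k174)],[(k11,k149),(k10,k157),
    (k2,k161),(k3,k163),(k4,k163),(k0,k164),(k1,k164),(k5,k169),(k8,k170),(k6,k171),(k7,k171),(k9,k172)],[(k10,k128),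
    (k11,k128),(k1,k135),(k2,k142),(k3,k142),(k0,k143),(k8,k149),(k4,k150),(k5,k150),(k6,k150),(k9,k151),(k7,k158)],
    [(k10,k120),(k3,k124),(k0,k125),(k11,k128),(k2,k140),(k1,k143),(k4,k150),(k8,k157),(k5,k158),(k6,k158),(k7,k158),
    (k9,k159)]]
    [[k2,k0,k0,k0,k0,k1],[k1,k2,k0,k0,k0,k0],[k1,k1,k1,k0,k0,k0],[k1,k1,k0,k0,k1,k0],[k1,k1,k0,k0,k0,k1],[k1,k0,k1,k0,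
    k0,k1],[k1,k0,k0,k1,k0,k1],[k1,k0,k0,k0,k1,k1],[k1,k0,k0,k0,k0,k2],[k0,k2,k1,k0,k0,k0],[k0,k2,k0,k0,k0,k1],[k0,k1,
    k1,k0,k0,k1],[k0,k1,k0,k1,k0,k1],[k0,k1,k0,k0,k1,k1],[k0,k1,k0,k0,k0,k2],[k0,k0,k2,k0,k0,k1],[k0,k0,k1,k0,k1,k1],
    [k0,k0,k1,k0,k0,k2],[k0,k0,k0,k1,k0,k2],[k0,k0,k0,k0,k1,k2],[k0,k0,k0,k0,k0,k3]]
    [.ref (nat_lit 470) k5 [(z2,[z3,z1,z4,z4,y12]),(z3,[z0,y1,y2,y2,z6]),(z6,[z3,z1,z2,z2,y6]),(z1,[z0,z0,z1])],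
    .ref k18 k2 [(z3,[y3,z0,z1,y1,z3]),(z1,[y6,z1,z4,z1]),(z1,[z0,z0,z1]),(z1,[z3,z0,y2])],.ref k18 k2 [(z3,[z3,y1,y2,
    y2,z3]),(z1,[z6,y1,y2,y1]),(z1,[z0,z0,z1]),(z1,[y3,z1,z1,z1])],.ref (nat_lit 288) k9 [(z3,[y6,y1,z2]),(z1,[z3,z0,
    y1]),(z3,[z3,z0,y2,y1,z3]),(z3,[z0,z1,z0,z1])],.ref (nat_lit 471) k5 [(z1,[z3,z1,z2,z3,y9]),(z3,[z0,y1,y2,y2,z6]),
    (z1,[z3,z1,z1,z2,y6]),(z1,[z0,z0,z1])],.ref (nat_lit 472) k1 [(z3,[z6,z1,z4,z3,y12]),(z1,[z0,z0,z1]),(z3,[y3,z0,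
    y2,y1,z6]),(z3,[z0,y1,y2,y2,z6])],.ref (nat_lit 470) k5 [(z1,[z3,z1,z3,z3,y9]),(z3,[z0,y1,y2,y2,z6]),(z3,[z3,z1,
    z2,z2,y6]),(z1,[z0,z0,z1])],.ref (nat_lit 473) k5 [(z1,[z3,z1,z3,z3,y9]),(z3,[z0,y1,y2,y2,z6]),(z1,[z3,z1,z1,z1,
    y3]),(z1,[z0,z0,z1])],.ref (nat_lit 474) k5 [(z1,[z3,z2,z5,z5,y15]),(z3,[z0,y1,y2,y2,z6]),(z3,[z3,z2,z4,z4,y12]),
    (z1,[z0,z0,z1])],.ref k18 k2 [(z6,[z3,y1,y4,y3,z6]),(z1,[z3,z0,y2]),(z1,[z0,z0,z1]),(z2,[y3,z1,z2,z1])],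
    .ref (nat_lit 396) k0 [(z6,[z3,z1,y2]),(z1,[z0,z0,z1]),(z3,[y3,z0,z2,z1]),(z2,[y3,y1,z0,y2,z6])],
    .ref (nat_lit 475) k1 [(z1,[z3,z1,z1,z2,y6]),(z1,[z0,z0,z1]),(z2,[y3,z0,y1,y1,z6]),(z3,[z0,y1,y2,y2,z6])],
    .ref (nat_lit 396) k0 [(z3,[z3,z1,z0,z1,y3]),(z1,[z0,z0,z1]),(z3,[y6,y1,z0,y1,z6]),(z1,[y3,y1,y1,y2,z6])],
    .ref (nat_lit 470) k5 [(z1,[z3,z1,z1,z2,y6]),(z3,[z0,y1,y2,y2,z6]),(z3,[z3,z1,z0,z1,y3]),(z1,[z0,z0,z1])],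
    .ref (nat_lit 396) k0 [(z12,[z3,z2,y1]),(z1,[z0,z0,z1]),(z6,[y3,z0,z1,z2]),(z4,[y3,y2,y3,y4,z12])],
    .ref (nat_lit 288) k9 [(z3,[z3,y2,z0,y2]),(z2,[y3,z1,z0,z2]),(z6,[y3,z1,y2,z0,z6]),(z3,[z0,z1,z0,z1])],
    .ref (nat_lit 475) k1 [(z1,[z6,z1,z2,z1,y6]),(z1,[z0,z0,z1]),(z1,[y3,z0,y1,z0,z3]),(z3,[z0,y1,y2,y2,z6])],
    .ref (nat_lit 472) k1 [(z3,[z3,z2,z4,z4,y12]),(z1,[z0,z0,z1]),(z6,[y3,y1,y4,y3,z12]),(z3,[z0,y1,y2,y2,z6])],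
    .ref (nat_lit 396) k0 [(z9,[z3,z2,z1,z1,y3]),(z1,[z0,z0,z1]),(z9,[y6,y1,y2,z1,z6]),(z3,[y3,y2,y4,y4,z12])],
    .ref (nat_lit 451) k5 [(z3,[z3,z2,z4,z4,y12]),(z3,[z0,y1,y2,y2,z6]),(z1,[z3,z2,z3,z3,y9]),(z1,[z0,z0,z1])],
    .ref (nat_lit 396) k0 [(z6,[z1,z1]),(z1,[z0,z0,z1]),(z3,[y1,z0,z0,z1]),(z2,[y1,y1,y2,y2,z6])]],
    .lp k0 [(nat_lit 1888),(nat_lit 1840),(nat_lit 2004),(nat_lit 2032),(nat_lit 2002),(nat_lit 1742)] [k72,k72,k96,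
    k96,k14,k14,k0,k0,k15,k15,k145,k145] k0 [[k0,k84,k80,k0,k0,k0,k0,k0,k0,k0,k0,k0],[k0,k0,k0,k0,k28,k0,k28,k0,k62,
    k0,k0,k148],[k0,k0,k0,k0,k0,k0,k0,k0,k0,k10,k0,k120],[k0,k80,k76,k0,k0,k0,k0,k0,k0,k0,k0,k0],[k0,k0,k0,k0,k0,k0,
    k76,k0,k0,k14,k56,k0],[k28,k0,k0,k0,k0,k0,k0,k0,k0,k86,k0,k0],[k0,k0,k0,k0,k0,k0,k0,k116,k178,(nat_lit 306),k0,
    k0],[k28,k0,k0,k0,k0,k76,k0,k0,k0,k0,k132,k36],[k0,k0,k0,k10,k86,k14,k0,(nat_lit 306),k0,k0,(nat_lit 310),k0],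
    [k62,k0,k0,k0,k0,k0,k0,k178,k0,k0,(nat_lit 310),k0],[k148,k0,k0,k120,k0,k0,k36,k0,k0,k0,k0,k32],[k0,k0,k0,k0,k0,
    k56,k132,k0,(nat_lit 310),(nat_lit 310),k0,k0]] (nat_lit 5760) k5
    [[(k11,(nat_lit 1505)),(k8,(nat_lit 1635)),(k9,(nat_lit 1813)),(k10,(nat_lit 1815)),(k2,(nat_lit 1864)),(k3,
    (nat_lit 1864)),(k4,(nat_lit 1890)),(k1,(nat_lit 1920)),(k7,(nat_lit 1960)),(k6,(nat_lit 1996)),(k0,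
    (nat_lit 2036)),(k5,(nat_lit 2066))],[(k0,(nat_lit 1804)),(k10,(nat_lit 1815)),(k11,(nat_lit 1815)),(k2,
    (nat_lit 1864)),(k3,(nat_lit 1864)),(k5,(nat_lit 1866)),(k9,(nat_lit 1945)),(k7,(nat_lit 1960)),(k4,
    (nat_lit 1974)),(k6,(nat_lit 1988)),(k8,(nat_lit 2007)),(k1,(nat_lit 2036))],[(k10,(nat_lit 1643)),(k11,
    (nat_lit 1729)),(k0,(nat_lit 1864)),(k1,(nat_lit 1864)),(k9,(nat_lit 1893)),(k7,(nat_lit 1908)),(k2,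
    (nat_lit 1920)),(k8,(nat_lit 1921)),(k4,(nat_lit 1922)),(k5,(nat_lit 1922)),(k3,(nat_lit 1924)),(k6,
    (nat_lit 1936))],[(k10,(nat_lit 1671)),(k11,(nat_lit 1791)),(k0,(nat_lit 1864)),(k1,(nat_lit 1864)),(k8,
    (nat_lit 1911)),(k2,(nat_lit 1916)),(k3,(nat_lit 1920)),(k9,(nat_lit 1921)),(k4,(nat_lit 1922)),(k5,
    (nat_lit 1922)),(k6,(nat_lit 1936)),(k7,(nat_lit 1936))],[(k0,(nat_lit 1866)),(k10,(nat_lit 1873)),(k11,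
    (nat_lit 1883)),(k2,(nat_lit 1922)),(k3,(nat_lit 1922)),(k5,(nat_lit 1928)),(k8,(nat_lit 2003)),(k9,
    (nat_lit 2003)),(k4,(nat_lit 2004)),(k6,(nat_lit 2018)),(k7,(nat_lit 2018)),(k1,(nat_lit 2066))],[(k10,
    (nat_lit 1873)),(k1,(nat_lit 1890)),(k2,(nat_lit 1922)),(k3,(nat_lit 1922)),(k9,(nat_lit 1927)),(k11,
    (nat_lit 1959)),(k0,(nat_lit 1974)),(k8,(nat_lit 1989)),(k4,(nat_lit 2004)),(k5,(nat_lit 2004)),(k6,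
    (nat_lit 2018)),(k7,(nat_lit 2018))],[(k11,(nat_lit 1901)),(k3,(nat_lit 1908)),(k8,(nat_lit 1931)),(k2,
    (nat_lit 1936)),(k10,(nat_lit 1943)),(k0,(nat_lit 1960)),(k1,(nat_lit 1960)),(k9,(nat_lit 2017)),(k4,
    (nat_lit 2018)),(k5,(nat_lit 2018)),(k7,(nat_lit 2032)),(k6,(nat_lit 2108))],[(k11,(nat_lit 1709)),(k8,
    (nat_lit 1711)),(k6,(nat_lit 1916)),(k2,(nat_lit 1936)),(k3,(nat_lit 1936)),(k0,(nat_lit 1988)),(k1,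
    (nat_lit 1996)),(k9,(nat_lit 2017)),(k4,(nat_lit 2018)),(k5,(nat_lit 2018)),(k10,(nat_lit 2019)),(k7,
    (nat_lit 2108))],[(k1,(nat_lit 1813)),(k10,(nat_lit 1836)),(k3,(nat_lit 1893)),(k2,(nat_lit 1921)),(k4,
    (nat_lit 1927)),(k0,(nat_lit 1945)),(k5,(nat_lit 2003)),(k6,(nat_lit 2017)),(k7,(nat_lit 2017)),(k9,
    (nat_lit 2118)),(k11,(nat_lit 2178)),(k8,(nat_lit 2180))],[(k1,(nat_lit 1635)),(k6,(nat_lit 1711)),(k11,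
    (nat_lit 1872)),(k2,(nat_lit 1911)),(k3,(nat_lit 1921)),(k7,(nat_lit 1931)),(k4,(nat_lit 1989)),(k8,
    (nat_lit 2002)),(k5,(nat_lit 2003)),(k0,(nat_lit 2007)),(k9,(nat_lit 2180)),(k10,(nat_lit 2182))],[(k1,
    (nat_lit 1505)),(k6,(nat_lit 1709)),(k3,(nat_lit 1729)),(k11,(nat_lit 1742)),(k2,(nat_lit 1791)),(k0,
    (nat_lit 1815)),(k8,(nat_lit 1872)),(k5,(nat_lit 1883)),(k7,(nat_lit 1901)),(k4,(nat_lit 1959)),(k10,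
    (nat_lit 2052)),(k9,(nat_lit 2178))],[(k3,(nat_lit 1643)),(k2,(nat_lit 1671)),(k10,(nat_lit 1710)),(k0,
    (nat_lit 1815)),(k1,(nat_lit 1815)),(k9,(nat_lit 1836)),(k4,(nat_lit 1873)),(k5,(nat_lit 1873)),(k7,
    (nat_lit 1943)),(k6,(nat_lit 2019)),(k11,(nat_lit 2052)),(k8,(nat_lit 2182))]]
    [[k2,k0,k0,k0,k1,k0],[k2,k0,k0,k0,k0,k1],[k2,k1,k0,k0,k0,k0],[k1,k2,k0,k0,k0,k0],[k1,k1,k1,k0,k0,k0],[k1,k1,k0,k0,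
    k1,k0],[k1,k1,k0,k0,k0,k1],[k1,k0,k1,k0,k0,k1],[k1,k0,k0,k1,k0,k1],[k1,k0,k0,k1,k1,k0],[k1,k0,k1,k0,k1,k0],[k1,k0,
    k0,k0,k1,k1],[k1,k0,k0,k0,k0,k2],[k0,k2,k0,k0,k1,k0],[k0,k2,k0,k0,k0,k1],[k0,k1,k1,k0,k0,k1],[k0,k1,k0,k1,k0,k1],
    [k0,k1,k0,k1,k1,k0],[k0,k1,k0,k0,k1,k1],[k0,k1,k0,k0,k0,k2],[k0,k0,k1,k1,k1,k0],[k0,k0,k1,k1,k0,k1],[k0,k0,k1,k0,
    k1,k1],[k0,k0,k1,k0,k0,k2],[k0,k0,k0,k1,k1,k1],[k0,k0,k0,k1,k0,k2],[k0,k0,k0,k0,k0,k3]]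
    [.ref k25 k0 [(z3,[z6,z3,z2,z2,z2,y6]),(z3,[z3,y3,z4,z1,z1,y3]),(z6,[y3,z3,y1,z5,y1,z3]),(z3,[y6,z6,y2,y2,z1,z6]),
    (z3,[y3,y6,y4,y4,y4,z12])],.ref k25 k0 [(z3,[z4,z1]),(z3,[z2,y4,z3]),(z3,[y1,z2,z0,z3]),(z3,[y4,z8,z0,z0,z3]),(z3,
    [y2,y5,y3,y3,y3,z9])],.ref k25 k0 [(z5,[z6,z3,y2]),(z5,[z3,y6,z4]),(z10,[y3,z6,z1,z10]),(z5,[y6,z12,z2,z0,z5]),
    (z5,[y3,y9,y4,y5,y5,z15])],.ref k25 k0 [(z2,[z3,z3,y2]),(z4,[z3,y3,z2]),(z8,[y3,z3,z2,z8]),(z2,[y3,z3,z2,z0,z2]),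
    (z4,[y3,y9,y2,y4,y4,z12])],.ref k25 k0 [(z5,[z12,z3,y4,y4]),(z5,[z6,y6,z3,y2]),(z5,[y3,z3,z1,z6]),(z5,[y12,z12,z4,
    z4,z5]),(z5,[y6,y9,y3,y3,y5,z15])],.ref k25 k0 [(z1,[z3,z3,z0,z1,z1,y3]),(z2,[z3,z0,z2,z1,z1,y3]),(z4,[y3,z0,z0,
    z3,y1,z3]),(z1,[y3,z0,z0,y1,z0,z3]),(z2,[y3,y6,y2,y3,y3,z9])],.ref k25 k0 [(z7,[z12,z9,y4]),(z7,[z6,y6,z5]),(z7,
    [y3,z3,z1,z7]),(z7,[y12,z12,z4,z0,z7]),(z7,[y6,y15,y5,y7,y7,z21])],.ref k25 k0 [(z1,[z3,z0,z0,y1]),(z2,[z3,y3,z2,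
    y1]),(z4,[y3,z3,z0,z5]),(z1,[y3,z3,z0,z1,z1]),(z2,[y3,y3,y2,y1,y2,z6])],.ref k25 k0 [(z1,[z12,y9,z0,z0,y4]),(z1,
    [z6,y6,z1,z0,y2]),(z1,[y3,z3,z0,z1,z1]),(z1,[y12,z12,z0,z0,z5]),(z1,[y6,z3,y1,y1,z1,z3])],.ref k25 k0 [(z1,[y6,z3,
    y2,y2,z0,z6]),(z1,[y3,z0,z0,y1,z0,z3]),(z2,[z3,z0,z1,z3,z0,y3]),(z1,[z6,z0,z2,z2,z1,y6]),(z1,[z3,y3,z0,z0,y1])],
    .ref k25 k0 [(z1,[z12,z3,z4,z0,z4,y12]),(z1,[z6,z0,z3,z0,z2,y6]),(z1,[y3,z0,y1,z1,y1,z3]),(z1,[y12,z0,y4,z0,y3,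
    z12]),(z1,[y6,y3,y3,y1,y3,z9])],.ref k25 k0 [(z3,[z12,z9,z4,z4,z4,y12]),(z3,[z6,z0,z5,z2,z2,y6]),(z3,[y3,z0,y1,z2,
    y1,z3]),(z3,[y12,z0,y4,y4,y1,z12]),(z3,[y6,y9,y5,y5,y5,z15])],.ref k25 k0 [(z1,[z2,z1]),(z1,[z1,y1,z1]),(z2,[y1,
    z1,z0,z2]),(z1,[y2,z2,z0,z0,z1]),(z1,[y1,y2,y1,y1,y1,z3])],.ref k25 k0 [(z1,[z6,z9,y2,z2,z2,y6]),(z1,[z3,z3,z0,z1,
    z1,y3]),(z2,[y3,y3,z1,z1,y1,z3]),(z1,[y6,y6,z2,y2,y1,z6]),(z1,[y3,y6,z0,y2,y2,z6])],.ref k25 k0 [(z5,[z12,z15,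
    y8]),(z5,[z6,z0,z1]),(z5,[y3,z0,z2,z5]),(z5,[y12,z0,z8,z0,z5]),(z5,[y6,y15,y1,y5,y5,z15])],.ref k25 k0 [(z1,[z6,
    z3,y2,y2]),(z1,[z3,z0,z0,y1]),(z2,[y3,z0,z1,z3]),(z1,[y6,z0,z2,z2,z1]),(z1,[y3,y3,z0,z0,y1,z3])],.ref k25 k0 [(z1,
    [y12,z3,z4,z0,z4]),(z1,[y6,z0,z3,z0,z2]),(z1,[z3,z0,y1,z1,y1]),(z1,[z12,z0,y4,z0,y3]),(z1,[z6,y3,y3,y1,y3,z3])],
    .ref k25 k0 [(z1,[y3,z0,z0,y1,z0,z3]),(z2,[y3,y3,z2,y1,z0,z3]),(z4,[z3,z3,z0,z5,z0,y3]),(z1,[z3,z3,z0,z1,z1,y3]),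
    (z2,[z3,y3,y2,y1,y2,z3])],.ref k25 k0 [(z1,[z12,z15,z0,z4,z4,y12]),(z1,[z6,z6,z1,z2,z2,y6]),(z1,[y3,y3,z0,z0,y1,
    z3]),(z1,[y12,y12,z0,y4,y3,z12]),(z1,[y6,y9,y1,y3,y3,z9])],.ref k25 k0 [(z1,[z3,z3,y1]),(z2,[z3,z0,z1]),(z4,[y3,
    z0,z1,z4]),(z1,[y3,z0,z1,z0,z1]),(z2,[y3,y6,y1,y2,y2,z6])],.ref k25 k0 [(z7,[y12,z9,y4,z0,z0,z12]),(z7,[y6,y6,z5,
    z0,z0,z6]),(z7,[z3,z3,z1,z7,z0,y3]),(z7,[z12,z12,z4,z0,z7,y12]),(z7,[z6,y15,y5,y7,y7,z15])],.ref k25 k0 [(z1,[y3,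
    z3,z0,z1,z1]),(z2,[y3,z0,z2,z1,z1]),(z4,[z3,z0,z0,z3,y1]),(z1,[z3,z0,z0,y1]),(z2,[z3,y6,y2,y3,y3,z6])],
    .ref k25 k0 [(z1,[y6,y3,y2,z0,y2,z6]),(z1,[y3,y3,z0,z0,y1,z3]),(z2,[z3,z3,z1,z2,z1,y3]),(z1,[z6,z6,z2,z0,z3,y6]),
    (z1,[z3,z0,z0,y1])],.ref k25 k0 [(z1,[z12,z3,z0,y4]),(z1,[z6,z0,z1,y2]),(z1,[y3,z0,z0,z2]),(z1,[y12,z0,z0,z4,z1]),
    (z1,[y6,y3,y1,z1,y1,z3])],.ref k25 k0 [(z5,[y12,z3,y4,y4,z0,z12]),(z5,[y6,y6,z3,y2,z0,z6]),(z5,[z3,z3,z1,z6,z0,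
    y3]),(z5,[z12,z12,z4,z4,z5,y12]),(z5,[z6,y9,y3,y3,y5,z9])],.ref k25 k0 [(z1,[y6,z3,z0,z0,z2]),(z1,[y3,z0,z1,z0,
    z1]),(z2,[z3,z0,z0,z2,y1]),(z1,[z6,z0,z0,z0,y1]),(z1,[z3,y3,y1,y1,y2,z3])],.ref k25 k0 [(z1,[z4,z3]),(z1,[z2,z0,
    z1]),(z1,[y1,z0,z0,z1]),(z1,[y4,z0,z0,z0,z1]),(z1,[y2,y3,y1,y1,y1,z3])]],
    .base (.leafM k1 [k0,k1,k2,k3,k4,k5] [(z1,[z0,z1,z0,z1]),(z1,[z0,y1,z0,y1,z1])] []),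
    .base (.leafM k0 [k0,k1,k2,k3,k4,k5] [(z1,[z0,z1,z1,z1])] [])]

theorem hB6_171_39 : blkB [0, 0, 0, 0, 0, 0] [] sp6 hS6_171 (pcls (n := 6) [0, 0, 0, 0, 0, 0]) hD6_171 560 39 hN6_171_39 = true := by
  decide +kernel

end Pool.Agent.Lib_MP_fa6e45
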