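import Pool.Agent.Lib_MP_fa6e45.HK

/-!
MP_fa6e45_co, stage 4: certificates (captain, generated by a program).
-/

namespace Pool.Agent.Lib_MP_fa6e45

/-- nodes 480 to 491 -/
noncomputable def hN6_171_40 : List HM :=
  [.base (.leafM k3 [k5,k0,k1,k2,k3,k4] [(z1,[z1,z0,z1,z1])] []),
    .base (.leafM k3 [k0,k1,k2,k3,k4,k5] [(z1,[y1,z0,y1,z0,z1])] []),
    .lp k0 [(nat_lit 57885120),(nat_lit 58625450),(nat_lit 61588800),(nat_lit 61217312),(nat_lit 64919972),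
    (nat_lit 50849864)] [(nat_lit 6911531),(nat_lit 123321),(nat_lit 3147261),(nat_lit 3147261),(nat_lit 1665586),
    (nat_lit 1665586),(nat_lit 1851330),(nat_lit 1851330),k0,k0,(nat_lit 7035054),(nat_lit 7035054)] k0 [[k0,
    (nat_lit 370266),(nat_lit 1481064),k0,k0,(nat_lit 370266),k0,k0,k0,k0,k0,(nat_lit 3702660)],[k0,k0,
    (nat_lit 1110798),k0,k0,k0,k0,k0,(nat_lit 740532),k0,k0,(nat_lit 4813458)],[k0,k0,k0,k0,(nat_lit 1110798),k0,k0,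
    k0,k0,(nat_lit 1481064),k0,(nat_lit 3702660)],[(nat_lit 1110798),(nat_lit 1481064),k0,k0,k0,k0,(nat_lit 1110798),
    k0,k0,k0,k0,k0],[k0,(nat_lit 370266),k0,k0,k0,k0,(nat_lit 4813458),k0,k0,(nat_lit 4072926),(nat_lit 2962128),k0],
    [k0,k0,k0,(nat_lit 1110798),(nat_lit 2221596),k0,k0,k0,k0,(nat_lit 2591862),(nat_lit 1110798),k0],[k0,k0,k0,k0,k0,
    k0,k0,(nat_lit 2591862),(nat_lit 3332394),(nat_lit 13329576),k0,k0],[k0,k0,(nat_lit 1110798),k0,k0,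
    (nat_lit 4813458),k0,k0,k0,k0,(nat_lit 9997182),(nat_lit 2221596)],[k0,k0,k0,(nat_lit 1481064),(nat_lit 2591862),
    (nat_lit 4072926),k0,(nat_lit 13329576),k0,k0,(nat_lit 13329576),k0],[(nat_lit 740532),k0,k0,k0,k0,k0,k0,
    (nat_lit 3332394),k0,k0,(nat_lit 13329576),k0],[(nat_lit 4813458),(nat_lit 3702660),k0,(nat_lit 3702660),k0,k0,
    (nat_lit 2221596),k0,k0,k0,k0,(nat_lit 2221596)],[k0,k0,k0,k0,(nat_lit 1110798),(nat_lit 2962128),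
    (nat_lit 9997182),k0,(nat_lit 13329576),(nat_lit 13329576),k0,k0]] (nat_lit 177727680) k5
    [[(k11,(nat_lit 44432021)),(k8,(nat_lit 51467075)),(k9,(nat_lit 54799469)),(k10,(nat_lit 57761597)),(k4,
    (nat_lit 60168937)),(k2,(nat_lit 61649390)),(k7,(nat_lit 61834523)),(k0,(nat_lit 62698578)),(k6,
    (nat_lit 65166917)),(k3,(nat_lit 65352050)),(k5,(nat_lit 66833725)),(k1,(nat_lit 66894926))],[(k10,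
    (nat_lit 47270727)),(k0,(nat_lit 50726644)),(k11,(nat_lit 50973387)),(k3,(nat_lit 54861180)),(k5,
    (nat_lit 54861791)),(k2,(nat_lit 55971978)),(k4,(nat_lit 55972589)),(k6,(nat_lit 56157111)),(k7,
    (nat_lit 56157111)),(k9,(nat_lit 58008441)),(k8,(nat_lit 58748973)),(k1,(nat_lit 62698578))],[(k10,
    (nat_lit 49924199)),(k11,(nat_lit 53997125)),(k0,(nat_lit 54861180)),(k3,(nat_lit 58995716)),(k5,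
    (nat_lit 58996327)),(k6,(nat_lit 59921381)),(k2,(nat_lit 60106514)),(k4,(nat_lit 60107125)),(k7,
    (nat_lit 60291647)),(k8,(nat_lit 61772711)),(k9,(nat_lit 61772711)),(k1,(nat_lit 65352050))],[(k10,
    (nat_lit 51034997)),(k11,(nat_lit 54737657)),(k0,(nat_lit 55971978)),(k2,(nat_lit 58625450)),(k7,
    (nat_lit 58810583)),(k3,(nat_lit 60106514)),(k4,(nat_lit 60107125)),(k5,(nat_lit 60107125)),(k8,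
    (nat_lit 60291647)),(k6,(nat_lit 61032179)),(k1,(nat_lit 61649390)),(k9,(nat_lit 61772711))],[(k0,
    (nat_lit 54861791)),(k10,(nat_lit 56219332)),(k11,(nat_lit 57700396)),(k3,(nat_lit 58996327)),(k2,
    (nat_lit 60107125)),(k6,(nat_lit 61403056)),(k7,(nat_lit 61403056)),(k5,(nat_lit 61588800)),(k9,
    (nat_lit 62143588)),(k4,(nat_lit 62699598)),(k8,(nat_lit 63254386)),(k1,(nat_lit 66833725))],[(k0,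
    (nat_lit 55972589)),(k10,(nat_lit 57330130)),(k9,(nat_lit 58440928)),(k11,(nat_lit 58811194)),(k8,
    (nat_lit 59181460)),(k2,(nat_lit 60107125)),(k3,(nat_lit 60107125)),(k1,(nat_lit 60168937)),(k6,
    (nat_lit 61403056)),(k7,(nat_lit 61403056)),(k5,(nat_lit 62699598)),(k4,(nat_lit 63810396))],[(k0,
    (nat_lit 56157111)),(k2,(nat_lit 58810583)),(k7,(nat_lit 58995716)),(k10,(nat_lit 58995716)),(k11,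
    (nat_lit 60106514)),(k3,(nat_lit 60291647)),(k8,(nat_lit 60476780)),(k4,(nat_lit 61403056)),(k5,
    (nat_lit 61403056)),(k1,(nat_lit 61834523)),(k9,(nat_lit 63068642)),(k6,(nat_lit 66030770))],[(k8,
    (nat_lit 49739066)),(k11,(nat_lit 52701194)),(k0,(nat_lit 56157111)),(k6,(nat_lit 58625450)),(k3,
    (nat_lit 59921381)),(k2,(nat_lit 61032179)),(k4,(nat_lit 61403056)),(k5,(nat_lit 61403056)),(k9,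
    (nat_lit 63068642)),(k1,(nat_lit 65166917)),(k7,(nat_lit 66030770)),(k10,(nat_lit 66030770))],[(k1,
    (nat_lit 54799469)),(k10,(nat_lit 55663322)),(k0,(nat_lit 58008441)),(k4,(nat_lit 58440928)),(k2,
    (nat_lit 61772711)),(k3,(nat_lit 61772711)),(k5,(nat_lit 62143588)),(k6,(nat_lit 63068642)),(k7,
    (nat_lit 63068642)),(k9,(nat_lit 67511834)),(k8,(nat_lit 68252366)),(k11,(nat_lit 71214494))],[(k6,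
    (nat_lit 49739066)),(k1,(nat_lit 51467075)),(k11,(nat_lit 57884918)),(k0,(nat_lit 58748973)),(k4,
    (nat_lit 59181460)),(k2,(nat_lit 60291647)),(k7,(nat_lit 60476780)),(k3,(nat_lit 61772711)),(k5,
    (nat_lit 63254386)),(k8,(nat_lit 64919972)),(k9,(nat_lit 68252366)),(k10,(nat_lit 71214494))],[(k1,
    (nat_lit 44432021)),(k11,(nat_lit 50849864)),(k0,(nat_lit 50973387)),(k6,(nat_lit 52701194)),(k3,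
    (nat_lit 53997125)),(k2,(nat_lit 54737657)),(k5,(nat_lit 57700396)),(k8,(nat_lit 57884918)),(k4,
    (nat_lit 58811194)),(k7,(nat_lit 60106514)),(k10,(nat_lit 64179440)),(k9,(nat_lit 71214494))],[(k0,
    (nat_lit 47270727)),(k10,(nat_lit 48628268)),(k3,(nat_lit 49924199)),(k2,(nat_lit 51034997)),(k9,
    (nat_lit 55663322)),(k5,(nat_lit 56219332)),(k4,(nat_lit 57330130)),(k1,(nat_lit 57761597)),(k7,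
    (nat_lit 58995716)),(k11,(nat_lit 64179440)),(k6,(nat_lit 66030770)),(k8,(nat_lit 71214494))]]
    [[k2,k0,k0,k0,k1,k0],[k2,k0,k0,k0,k0,k1],[k1,k2,k0,k0,k0,k0],[k1,k1,k1,k0,k0,k0],[k1,k1,k0,k0,k0,k1],[k1,k0,k1,k0,
    k0,k1],[k1,k0,k0,k1,k0,k1],[k1,k0,k0,k2,k0,k0],[k1,k0,k0,k1,k1,k0],[k1,k1,k0,k0,k1,k0],[k1,k0,k1,k0,k1,k0],[k1,k0,
    k0,k0,k1,k1],[k1,k0,k0,k0,k0,k2],[k0,k2,k0,k0,k0,k1],[k0,k1,k1,k0,k0,k1],[k0,k1,k0,k1,k0,k1],[k0,k1,k0,k1,k1,k0],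
    [k0,k1,k0,k0,k1,k1],[k0,k1,k0,k0,k0,k2],[k0,k0,k1,k1,k1,k0],[k0,k0,k1,k1,k0,k1],[k0,k0,k1,k0,k1,k1],[k0,k0,k1,k0,
    k0,k2],[k0,k0,k0,k2,k1,k0],[k0,k0,k0,k1,k1,k1],[k0,k0,k0,k1,k0,k2],[k0,k0,k0,k0,k0,k3]]
    [.ref k25 k0 [(z1,[z2,z1,z2,z2,z2,y2]),(z1,[y4,z4,y1,y4,y4,z4]),(z2,[y11,z11,y11,y5,y11,z11]),(z1,[z8,y8,z8,z8,
    z11,y8]),(z1,[y1,y2,y4,y4,y4,z4])],.ref k25 k0 [(z3,[z4,z1]),(z3,[y8,z16,z9]),(z3,[y11,z22,z0,z9]),(z3,[z16,y32,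
    z0,z0,z9]),(z3,[y2,y5,y9,y9,y9,z9])],.ref k25 k0 [(z1,[y1,z4,z2]),(z1,[z2,y2,y1]),(z4,[z11,y11,y22,z12]),(z1,[y4,
    z4,z8,z0,z3]),(z2,[z1,y7,y8,y6,y6,z6])],.ref k25 k0 [(z5,[y4,z19,z4,z4]),(z5,[z8,y8,z7,y8]),(z5,[z11,y11,y11,z4]),
    (z5,[y16,z16,z16,z16,z15]),(z5,[z2,y17,y17,y17,y15,z15])],.ref k25 k0 [(z1,[y4,z7,z4]),(z1,[z8,y8,y5]),(z1,[z11,
    y11,y11,z3]),(z1,[y16,z16,z16,z0,z3]),(z1,[z2,y5,y5,y3,y3,z3])],.ref k25 k0 [(z1,[y2,z5,z0,z2]),(z1,[z4,y4,z3,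
    y4]),(z2,[z11,y11,z0,y5]),(z1,[y8,z8,z0,z8,z3]),(z1,[z1,y4,y3,y4,y3,z3])],.ref k25 k0 [(z7,[z4,z17,z0,z0,y4]),(z7,
    [y8,z8,z21,z0,z8]),(z7,[y11,z11,z0,z21,z11]),(z7,[z16,y16,z0,z0,z5]),(z7,[y2,y19,y21,y21,y19,z21])],
    .ref k25 k0 [(z3,[z1,z8,z0,z0,y2]),(z3,[y2,z2,z9,z0,z4]),(z12,[y11,z11,z0,z36,z22]),(z3,[z4,y4,z0,z0,z1]),(z6,[y1,
    y17,y18,y18,y16,z18])],.ref k25 k0 [(z3,[z2,z9,z2,z2,z0,y2]),(z3,[y4,z0,z5,y4,z0,z4]),(z6,[y11,z0,y11,z7,z0,z11]),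
    (z3,[z8,z0,z8,z8,z9,y8]),(z3,[y1,y9,y10,y10,y9,z10])],.ref k25 k0 [(z1,[y2,z3,z0,y2,y2,z2]),(z1,[z4,z0,z3,z4,z4,
    y4]),(z2,[z11,z0,z0,z17,z11,y11]),(z1,[y8,z0,z0,y8,y5,z8]),(z1,[z1,y3,y3,y2,y2,z2])],.ref k25 k0 [(z3,[y4,z9,y4,
    z0,y4,z4]),(z3,[z8,z0,z17,z0,z8,y8]),(z3,[z11,z0,z11,z9,z11,y11]),(z3,[y16,z0,y16,z0,y7,z16]),(z3,[z2,y9,y7,y9,y7,
    z7])],.ref k25 k0 [(z1,[z4,z3,z4,z4,z4,y4]),(z1,[y8,z0,y5,y8,y8,z8]),(z1,[y11,z0,y11,y8,y11,z11]),(z1,[z16,z0,z16,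
    z16,z19,y16]),(z1,[y2,y3,y5,y5,y5,z5])],.ref k25 k0 [(z1,[z2,z1]),(z1,[y4,z4,z3]),(z2,[y11,z11,z0,z6]),(z1,[z8,y8,
    z0,z0,z3]),(z1,[y1,y2,y3,y3,y3,z3])],.ref k25 k0 [(z5,[y4,z15,z8]),(z5,[z8,z0,y1]),(z5,[z11,z0,y22,z15]),(z5,[y16,
    z0,z32,z0,z15]),(z5,[z2,y15,y19,y15,y15,z15])],.ref k25 k0 [(z3,[y2,z9,z2,z2]),(z3,[z4,z0,z5,y4]),(z6,[z11,z0,y11,
    z7]),(z3,[y8,z0,z8,z8,z9]),(z3,[z1,y9,y10,y10,y9,z9])],.ref k25 k0 [(z3,[z4,z9,y4,z0,y4]),(z3,[y8,z0,z17,z0,z8]),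
    (z3,[y11,z0,z11,z9,z11]),(z3,[z16,z0,y16,z0,y7]),(z3,[y2,y9,y7,y9,y7,z9])],.ref k25 k0 [(z1,[z2,z5,z0,z2,z0,y2]),
    (z1,[y4,y4,z3,y4,z0,z4]),(z2,[y11,y11,z0,y5,z0,z11]),(z1,[z8,z8,z0,z8,z3,y8]),(z1,[y1,y4,y3,y4,y3,z4])],
    .ref k25 k0 [(z3,[y4,z5,z0,y4,y4,z4]),(z3,[z8,z8,z9,z8,z8,y8]),(z3,[z11,z11,z0,z20,z11,y11]),(z3,[y16,y16,z0,y16,
    y7,z16]),(z3,[z2,y7,y9,y7,y7,z7])],.ref k25 k0 [(z1,[y2,z3,z2]),(z1,[z4,z0,y1]),(z2,[z11,z0,y11,z6]),(z1,[y8,z0,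
    z8,z0,z3]),(z1,[z1,y3,y4,y3,y3,z3])],.ref k25 k0 [(z1,[z4,z7,z4,z0,z0,y4]),(z1,[y8,y8,y5,z0,z0,z8]),(z1,[y11,y11,
    y11,z3,z0,z11]),(z1,[z16,z16,z16,z0,z3,y16]),(z1,[y2,y5,y5,y3,y3,z5])],.ref k25 k0 [(z1,[z2,z3,z0,y2,y2]),(z1,[y4,
    z0,z3,z4,z4]),(z2,[y11,z0,z0,z17,z11]),(z1,[z8,z0,z0,y8,y5]),(z1,[y1,y3,y3,y2,y2,z3])],.ref k25 k0 [(z1,[y1,z2,y1,
    z0,y1,z1]),(z1,[z2,z2,z5,z0,z2,y2]),(z4,[z11,z11,z11,z12,z11,y11]),(z1,[y4,y4,y4,z0,y1,z4]),(z2,[z1,y5,y5,y6,y5,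
    z5])],.ref k25 k0 [(z3,[y4,z9,z0,z4]),(z3,[z8,z0,z9,y8]),(z3,[z11,z0,z0,y2]),(z3,[y16,z0,z0,z16,z9]),(z3,[z2,y9,
    y9,y11,y9,z9])],.ref k25 k0 [(z5,[z2,z17,z2,z2,y2,y2]),(z5,[y4,y4,z11,y4,z4,z4]),(z10,[y11,y11,y11,z19,z11,z11]),
    (z5,[z8,z8,z8,z8,z7,y8]),(z5,[y1,y16,y16,y16,y14,z16])],.ref k25 k0 [(z5,[z4,z19,z4,z4,z0,y4]),(z5,[y8,y8,z7,y8,
    z0,z8]),(z5,[y11,y11,y11,z4,z0,z11]),(z5,[z16,z16,z16,z16,z15,y16]),(z5,[y2,y17,y17,y17,y15,z17])],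
    .ref k25 k0 [(z3,[z2,z9,z0,z0,y2]),(z3,[y4,z0,z9,z0,z4]),(z6,[y11,z0,z0,z18,z11]),(z3,[z8,z0,z0,z0,z1]),(z3,[y1,
    y9,y9,y9,y8,z9])],.ref k25 k0 [(z1,[z4,z3]),(z1,[y8,z0,z3]),(z1,[y11,z0,z0,z3]),(z1,[z16,z0,z0,z0,z3]),(z1,[y2,y3,
    y3,y3,y3,z3])]],
    .lp k0 [(nat_lit 326),(nat_lit 310),(nat_lit 318),(nat_lit 342),(nat_lit 342),(nat_lit 278)] [k8,k8,k16,k16,k12,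
    k12,k0,k0,k0,k0,k32,k32] k0 [[k0,k10,k10,k2,k0,k0,k0,k0,k0,k52,k0,k0],[k0,k0,k0,k0,k8,k16,k14,k0,k0,k12,k14,k0],
    [k0,k2,k0,k0,k12,k26,k24,k0,k0,k22,k24,k0],[k0,k10,k10,k0,k0,k0,k0,k0,k0,k52,k0,k0],[k16,k0,k0,k26,k0,k0,k0,k0,k2,
    k0,k0,k2],[k8,k0,k0,k12,k34,k0,k0,k22,k0,k0,k0,k0],[k0,k0,k0,k0,k22,k0,k0,k10,k2,k0,k0,k0],[k14,k0,k0,k24,k0,k0,
    k0,k0,k0,k0,k0,k2],[k12,k52,k52,k22,k0,k0,k0,k0,k0,k0,k0,k0],[k0,k0,k0,k0,k0,k2,k0,k2,k4,k0,k0,k0],[k0,k0,k0,k0,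
    k0,k2,k2,k0,k0,k0,k0,k0],[k14,k0,k0,k24,k0,k0,k0,k0,k0,k0,k0,k0]] (nat_lit 960) k5
    [[(k2,(nat_lit 294)),(k10,(nat_lit 302)),(k11,(nat_lit 302)),(k3,(nat_lit 304)),(k4,(nat_lit 322)),(k5,
    (nat_lit 322)),(k0,(nat_lit 326)),(k1,(nat_lit 326)),(k8,(nat_lit 334)),(k9,(nat_lit 334)),(k6,(nat_lit 336)),(k7,
    (nat_lit 336))],[(k8,(nat_lit 282)),(k5,(nat_lit 312)),(k11,(nat_lit 314)),(k0,(nat_lit 316)),(k2,(nat_lit 316)),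
    (k10,(nat_lit 316)),(k3,(nat_lit 318)),(k1,(nat_lit 326)),(k4,(nat_lit 330)),(k9,(nat_lit 334)),(k6,
    (nat_lit 348)),(k7,(nat_lit 350))],[(k10,(nat_lit 294)),(k4,(nat_lit 298)),(k1,(nat_lit 304)),(k9,(nat_lit 312)),
    (k8,(nat_lit 314)),(k5,(nat_lit 316)),(k0,(nat_lit 318)),(k7,(nat_lit 318)),(k2,(nat_lit 320)),(k3,(nat_lit 320)),
    (k6,(nat_lit 326)),(k11,(nat_lit 346))],[(k4,(nat_lit 288)),(k1,(nat_lit 294)),(k10,(nat_lit 294)),(k9,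
    (nat_lit 302)),(k8,(nat_lit 304)),(k5,(nat_lit 314)),(k7,(nat_lit 314)),(k0,(nat_lit 316)),(k2,(nat_lit 320)),(k3,
    (nat_lit 320)),(k6,(nat_lit 326)),(k11,(nat_lit 346))],[(k8,(nat_lit 278)),(k5,(nat_lit 308)),(k0,(nat_lit 312)),
    (k2,(nat_lit 314)),(k3,(nat_lit 316)),(k11,(nat_lit 320)),(k1,(nat_lit 322)),(k10,(nat_lit 322)),(k4,
    (nat_lit 330)),(k9,(nat_lit 330)),(k6,(nat_lit 354)),(k7,(nat_lit 356))],[(k2,(nat_lit 288)),(k10,(nat_lit 296)),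
    (k11,(nat_lit 296)),(k3,(nat_lit 298)),(k1,(nat_lit 322)),(k0,(nat_lit 330)),(k5,(nat_lit 330)),(k6,
    (nat_lit 330)),(k7,(nat_lit 330)),(k8,(nat_lit 330)),(k4,(nat_lit 352)),(k9,(nat_lit 352))],[(k7,(nat_lit 308)),
    (k10,(nat_lit 310)),(k11,(nat_lit 310)),(k2,(nat_lit 314)),(k3,(nat_lit 318)),(k6,(nat_lit 320)),(k4,
    (nat_lit 330)),(k1,(nat_lit 336)),(k9,(nat_lit 342)),(k8,(nat_lit 344)),(k0,(nat_lit 350)),(k5,(nat_lit 356))],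
    [(k11,(nat_lit 308)),(k10,(nat_lit 310)),(k7,(nat_lit 320)),(k2,(nat_lit 326)),(k3,(nat_lit 326)),(k4,
    (nat_lit 330)),(k6,(nat_lit 332)),(k1,(nat_lit 336)),(k8,(nat_lit 342)),(k9,(nat_lit 342)),(k0,(nat_lit 348)),(k5,
    (nat_lit 354))],[(k2,(nat_lit 302)),(k10,(nat_lit 308)),(k11,(nat_lit 310)),(k3,(nat_lit 312)),(k5,(nat_lit 330)),
    (k0,(nat_lit 334)),(k1,(nat_lit 334)),(k6,(nat_lit 342)),(k7,(nat_lit 342)),(k8,(nat_lit 344)),(k4,(nat_lit 352)),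
    (k9,(nat_lit 352))],[(k5,(nat_lit 278)),(k0,(nat_lit 282)),(k2,(nat_lit 304)),(k10,(nat_lit 310)),(k11,
    (nat_lit 310)),(k3,(nat_lit 314)),(k4,(nat_lit 330)),(k1,(nat_lit 334)),(k6,(nat_lit 342)),(k7,(nat_lit 344)),(k9,
    (nat_lit 344)),(k8,(nat_lit 346))],[(k11,(nat_lit 274)),(k10,(nat_lit 278)),(k4,(nat_lit 296)),(k1,(nat_lit 302)),
    (k6,(nat_lit 308)),(k7,(nat_lit 310)),(k8,(nat_lit 310)),(k9,(nat_lit 310)),(k0,(nat_lit 314)),(k5,(nat_lit 320)),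
    (k2,(nat_lit 346)),(k3,(nat_lit 346))],[(k10,(nat_lit 278)),(k11,(nat_lit 278)),(k2,(nat_lit 294)),(k3,
    (nat_lit 294)),(k4,(nat_lit 296)),(k1,(nat_lit 302)),(k9,(nat_lit 308)),(k6,(nat_lit 310)),(k7,(nat_lit 310)),(k8,
    (nat_lit 310)),(k0,(nat_lit 316)),(k5,(nat_lit 322))]]
    [[k2,k1,k0,k0,k0,k0],[k2,k0,k0,k0,k1,k0],[k2,k0,k0,k0,k0,k1],[k1,k2,k0,k0,k0,k0],[k1,k1,k1,k0,k0,k0],[k1,k1,k0,k0,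
    k1,k0],[k1,k1,k0,k0,k0,k1],[k1,k0,k1,k0,k1,k0],[k1,k0,k1,k0,k0,k1],[k1,k0,k0,k0,k1,k1],[k1,k0,k0,k0,k0,k2],[k0,k2,
    k1,k0,k0,k0],[k0,k2,k0,k0,k1,k0],[k0,k1,k2,k0,k0,k0],[k0,k1,k1,k0,k1,k0],[k0,k1,k1,k0,k0,k1],[k0,k1,k0,k1,k0,k1],
    [k0,k1,k0,k0,k1,k1],[k0,k1,k0,k0,k0,k2],[k0,k0,k2,k0,k0,k1],[k0,k0,k1,k1,k1,k0],[k0,k0,k1,k0,k1,k1],[k0,k0,k1,k0,
    k0,k2],[k0,k0,k0,k2,k0,k1],[k0,k0,k0,k1,k0,k2],[k0,k0,k0,k0,k1,k2],[k0,k0,k0,k0,k0,k3]]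
    [.ref (nat_lit 477) k1 [(z1,[z0,z2,z2,z5,y4]),(z1,[z1,z2,z4,z6,y6]),(z1,[z1,y1,y2,y3,z3]),(z1,[y2,y4,y5,y12,
    z12])],.ref k117 k7 [(z2,[y3,y1,z1]),(z1,[y2,z0,z0,z1]),(z2,[y1,y1,y1,y2,z2]),(z1,[z1])],.ref k18 k7 [(z2,[y1,z0,
    z1]),(z1,[y2,z2,z0,z3]),(z2,[y1,y2,y3,y6,z6]),(z1,[z1,y1])],.ref (nat_lit 478) k8 [(z3,[y4,z2,y2,z3]),(z3,[y1,y1,
    y2,y3,z3]),(z3,[z2,y1,z1]),(z1,[z0,z0,z1])],.ref (nat_lit 479) k11 [(z1,[y3,z2,y2,z3]),(z1,[z0,z0,z1]),(z1,[y2,z1,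
    y1,z2]),(z1,[z1,y1,z0,y2,z1])],.ref (nat_lit 480) k9 [(z1,[y6,y2,z3]),(z1,[y2,y1,z1]),(z1,[z1,z0,y1,y1,z1]),(z1,
    [z4,z2,y2,z1])],.ref k18 k7 [(z1,[y1,z0,z1]),(z1,[y4,z2,z2,z3]),(z1,[y1,y1,y1,y3,z3]),(z1,[z2,y1,y1])],
    .ref (nat_lit 478) k8 [(z1,[y4,z2,y2,z5]),(z1,[y1,z0,y1,z0,z1]),(z1,[z2,y1,z1,y2]),(z1,[z0,z0,z1])],
    .ref (nat_lit 478) k8 [(z1,[z4,y2,y2,y3]),(z1,[z1,y1,y1,y2,z1]),(z1,[y2,z1,z1,z2]),(z1,[z0,z0,z1])],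
    .ref k124 k1 [(z1,[z0,z2,z2,z5,y4]),(z1,[y1,y2,y2,y5,z5]),(z1,[y1,y3,y4,y8,z8]),(z1,[z2,z4,z5,z10,y10])],
    .ref (nat_lit 453) k1 [(z1,[z0,z2,z2,z5,y4]),(z1,[y1,y1,z0,y3,z3]),(z1,[y1,y4,y6,y12,z12]),(z1,[z2,z2,z3,z6,y6])],
    .ref (nat_lit 481) k1 [(z1,[z0,z2,z2,z5,y4]),(z2,[z1,y2,y2,y5,z4]),(z2,[z1,y4,y6,y11,z10]),(z1,[y1,z2,z3,z5,y4])],
    .ref (nat_lit 478) k8 [(z1,[y2,z0,z0,z1]),(z2,[y1,y1,y1,y2,z2]),(z1,[z1]),(z1,[z0,z0,z1])],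
    .ref (nat_lit 482) k1 [(z1,[z0,z2,z2,z5,y4]),(z1,[z1,y4,y4,y10,z8]),(z1,[z1,y5,y6,y13,z11]),(z1,[y2,z8,z9,z20,
    y16])],.ref (nat_lit 481) k1 [(z1,[z0,z2,z2,z5,y4]),(z1,[z1,y1,y1,y3,z2]),(z1,[z1,y2,y3,y6,z5]),(z1,[y2,z2,z3,z6,
    y4])],.ref k117 k7 [(z1,[z3,y2,y1,y3]),(z1,[z4,y2,y2,y3]),(z1,[z1,y1,y1,y2,z1]),(z1,[y2,z1,z1,z2])],
    .ref (nat_lit 478) k8 [(z1,[z4,z2,y2,z5,y4]),(z1,[z1,z0,y1]),(z1,[y2,y1,z1,y2,z2]),(z1,[z0,z0,z1])],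
    .ref (nat_lit 481) k1 [(z1,[z0,z2,z2,z5,y4]),(z1,[y1,y1,z0,y2,z2]),(z1,[y1,y2,y2,y5,z5]),(z1,[z2,z2,z1,z4,y4])],
    .ref (nat_lit 365) k0 [(z1,[y2,z3,z1]),(z1,[y1,z0,z2]),(z1,[z0,z0,z0,z1]),(z1,[z0,y1,y1,y2,z2])],
    .ref k117 k7 [(z2,[z3,y4,z1,y6]),(z1,[z2,y2,z0,y3]),(z2,[z1,y2,y1,y4,z2]),(z1,[y1,z1,z0,z2])],.ref k18 k7 [(z1,
    [z1,z0,z1,z0,y1]),(z1,[z4,z2,z2,z3,y4]),(z1,[z1,y1,y1,y3,z2]),(z1,[y2,y1,y1,z0,z2])],.ref (nat_lit 478) k8 [(z1,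
    [z2,z0,y2,y1]),(z2,[z1,y1,y2,y3,z2]),(z1,[y1,z0,z1,z1]),(z1,[z0,z0,z1])],.ref (nat_lit 478) k8 [(z1,[z1,z0,y2]),
    (z4,[z1,y2,y4,y5,z4]),(z2,[y1,z0,z2,z1]),(z1,[z0,z0,z1])],.ref (nat_lit 478) k8 [(z1,[z2,z2,z0,z5,y4]),(z2,[z1,z0,
    y1]),(z1,[y1,y1,z0,y2,z2]),(z1,[z0,z0,z1])],.ref (nat_lit 461) k8 [(z1,[z4,z2,y6,z5,y4]),(z1,[z1,z0,y2]),(z1,[y2,
    y1,z3,y2,z2]),(z1,[z0,z0,z1])],.ref (nat_lit 479) k11 [(z2,[z3,z1,y7]),(z1,[z0,z0,z1]),(z1,[z1,z0,y2]),(z2,[y1,y1,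
    z1,y2,z2])],.ref (nat_lit 365) k0 [(z1,[y1,z3]),(z2,[y1,z0,z3]),(z1,[z0,z0,z0,z1]),(z1,[z0,y1,y1,y2,z2])]],
    .lp k0 [k94,k70,k66,k88,k88,k72] [k0,k0,k12,k12,k17,k11,k3,k3,k3,k3,k11,k11] k0 [[k0,k0,k0,k0,k0,k0,k0,k0,k0,k0,
    k0,k6],[k0,k0,k6,k6,k0,k0,k0,k0,k0,k0,k0,k0],[k6,k0,k0,k0,k4,k0,k0,k6,k6,k0,k0,k10],[k6,k0,k0,k0,k0,k0,k0,k2,k2,
    k0,k0,k12],[k0,k0,k0,k0,k0,k0,k0,k0,k0,k0,k0,k0],[k0,k0,k0,k4,k0,k0,k0,k0,k0,k0,k0,k14],[k0,k0,k2,k6,k0,k0,k0,k0,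
    k0,k2,k0,k0],[k0,k0,k0,k0,k0,k0,k6,k0,k0,k8,k14,k0],[k0,k0,k0,k0,k0,k0,k8,k2,k0,k8,k14,k0],[k0,k0,k2,k6,k0,k0,k0,
    k0,k0,k0,k0,k0],[k0,k6,k12,k10,k14,k0,k0,k0,k0,k0,k0,k0],[k0,k0,k0,k0,k0,k0,k14,k0,k0,k14,k6,k0]] (nat_lit 240) k5
    [[(k8,k77),(k9,k77),(k10,k83),(k11,k83),(k1,k88),(k3,k88),(k4,k91),(k6,k91),(k7,k91),(k5,k93),(k0,k94),(k2,k94)],
    [(k4,k77),(k10,k77),(k3,k82),(k11,k83),(k2,k88),(k5,k89),(k6,k91),(k7,k91),(k8,k91),(k9,k91),(k0,k94),(k1,k94)],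
    [(k2,k64),(k4,k65),(k5,k65),(k3,k70),(k10,k71),(k11,k71),(k6,k79),(k7,k79),(k8,k79),(k9,k79),(k0,k82),(k1,k88)],
    [(k10,k61),(k3,k64),(k4,k65),(k11,k65),(k2,k70),(k5,k71),(k6,k73),(k7,k75),(k8,k81),(k9,k81),(k0,k88),(k1,k94)],
    [(k10,k60),(k3,k65),(k4,k70),(k11,k70),(k2,k71),(k5,k72),(k6,k78),(k7,k80),(k8,k86),(k9,k86),(k0,k89),(k1,k93)],
    [(k4,k60),(k2,k65),(k3,k65),(k10,k66),(k11,k66),(k5,k70),(k6,k74),(k7,k74),(k8,k74),(k9,k74),(k0,k77),(k1,k91)],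
    [(k10,k66),(k4,k74),(k2,k75),(k3,k79),(k5,k80),(k11,k80),(k6,k88),(k7,k88),(k8,k88),(k9,k88),(k0,k91),(k1,k91)],
    [(k2,k73),(k4,k74),(k5,k78),(k3,k79),(k8,k86),(k7,k88),(k9,k88),(k11,k88),(k0,k91),(k1,k91),(k6,k94),(k10,k94)],
    [(k4,k74),(k1,k77),(k3,k79),(k8,k80),(k10,k80),(k2,k81),(k9,k82),(k11,k82),(k5,k86),(k6,k88),(k7,k88),(k0,k91)],
    [(k4,k74),(k1,k77),(k3,k79),(k8,k80),(k9,k80),(k10,k80),(k11,k80),(k2,k81),(k5,k86),(k6,k86),(k7,k88),(k0,k91)],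
    [(k2,k65),(k4,k66),(k5,k70),(k3,k71),(k7,k80),(k8,k80),(k11,k80),(k9,k82),(k0,k83),(k1,k83),(k10,k86),(k6,k88)],
    [(k5,k60),(k2,k61),(k4,k66),(k7,k66),(k3,k71),(k0,k77),(k10,k78),(k8,k80),(k9,k80),(k1,k83),(k11,k86),(k6,k94)]]
    [[k1,k1,k1,k0,k0,k0],[k1,k1,k0,k0,k0,k1],[k1,k0,k1,k0,k0,k1],[k1,k0,k0,k0,k1,k1],[k0,k3,k0,k0,k0,k0],[k0,k2,k1,k0,
    k0,k0],[k0,k2,k0,k1,k0,k0],[k0,k2,k0,k0,k1,k0],[k0,k2,k0,k0,k0,k1],[k0,k1,k2,k0,k0,k0],[k0,k1,k1,k1,k0,k0],[k0,k1,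
    k1,k0,k1,k0],[k0,k1,k1,k0,k0,k1],[k0,k1,k0,k1,k0,k1],[k0,k1,k0,k0,k1,k1],[k0,k1,k0,k0,k0,k2],[k0,k0,k3,k0,k0,k0],
    [k0,k0,k2,k1,k0,k0],[k0,k0,k2,k0,k1,k0],[k0,k0,k2,k0,k0,k1],[k0,k0,k1,k1,k0,k1],[k0,k0,k1,k0,k1,k1],[k0,k0,k1,k0,
    k0,k2],[k0,k0,k0,k1,k1,k1]]
    [.ref (nat_lit 444) k5 [(z1,[y2,z1,z2]),(z1,[z1,y1,y2,z1]),(z1,[z1,z0,y1])],.ref (nat_lit 445) k6 [(z1,[z2,y1,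
    y2]),(z1,[z0,z1]),(z1,[z0,z0,z1])],.ref (nat_lit 446) k7 [(z1,[y2,y2,y1,z2]),(z1,[z1]),(z1,[z1,z1,z1,y1])],
    .ref (nat_lit 447) k1 [(z1,[y1,z0,y1,z1]),(z1,[z0,z0,z1]),(z1,[z0,z1])],.ref (nat_lit 450) k7 [(z1,[z1]),(z2,[y1,
    y6,y3,z6]),(z2,[y1,z0,z3])],.ref (nat_lit 460) k9 [(z1,[y2,y2,y1,z2]),(z1,[z0,z1]),(z1,[z0,z0,z1])],
    .ref (nat_lit 450) k7 [(z1,[z2,z0,y1]),(z1,[y1,y3,y1,z3]),(z1,[y1,z0,z2])],.ref (nat_lit 446) k5 [(z1,[z1,z0,y2]),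
    (z2,[y1,y1,z0,z2]),(z2,[y1,z1,z2])],.ref (nat_lit 467) k6 [(z1,[z1,z0,y2]),(z1,[z0,z1]),(z1,[z0,z0,z1])],
    .ref (nat_lit 447) k1 [(z2,[z1,z0,y1]),(z1,[z0,z0,z1]),(z1,[z0,z1])],.ref (nat_lit 447) k1 [(z1,[z1,z0,y1]),(z1,
    [z0,z0,z1]),(z1,[z0,z1])],.ref (nat_lit 468) k7 [(z1,[z2,z0,z1,y2]),(z1,[y1,y1,y1,z2]),(z1,[y1,z0,z0,z1])],
    .ref (nat_lit 375) k11 [(z1,[z2,z2,z1,y2]),(z1,[z1]),(z1,[y2,y1,y1,z2])],.ref (nat_lit 469) k6 [(z1,[z1,z0,y1]),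
    (z1,[z0,z1]),(z1,[z0,z0,z1])],.ref (nat_lit 468) k5 [(z1,[z2,z1,z0,y2]),(z1,[y1,y1,y1,z2]),(z1,[y1,z0,z0,z1])],
    .ref (nat_lit 469) k6 [(z2,[z1,z0,y1]),(z1,[z0,z1]),(z1,[z0,z0,z1])],.ref (nat_lit 476) k2 [(z1,[z2,z3,z6,y6]),
    (z1,[z1]),(z1,[y2,y3,y3,z6])],.ref (nat_lit 483) k6 [(z1,[y1,y1,y2,z2]),(z1,[z0,z1]),(z1,[z0,z0,z1])],
    .ref (nat_lit 469) k6 [(z2,[y1,y1,y2,z2]),(z1,[z0,z1]),(z1,[z0,z0,z1])],.ref (nat_lit 468) k5 [(z1,[y2,y1,y2,z2]),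
    (z1,[z1]),(z1,[z1,z1,z1,y1])],.ref (nat_lit 446) k5 [(z1,[y2,y1,y2,z2]),(z1,[z1]),(z1,[z1,z1,z1,y1])],
    .ref (nat_lit 375) k11 [(z1,[y2,z0,y1,z2]),(z1,[y1,y1,y1,z2]),(z1,[z2,z1,z1,y2])],.ref (nat_lit 468) k7 [(z1,[y2,
    y2,y1,z2]),(z1,[z1]),(z1,[z1,z1,z1,y1])],.ref (nat_lit 444) k5 [(z1,[z2,z1,z2,y2]),(z1,[y1,y1,y2,z2]),(z1,[y1,z0,
    y1,z1])]],
    .base (.leafM k3 [k3,k4,k5,k0,k1,k2] [(z1,[z1,z1])] []),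
    .base (.leafM k1 [k0,k1,k2,k3,k4,k5] [(z1,[z0,z1]),(z1,[z0,y1,z1])] []),
    .base (.leafM k3 [k1,k2,k3,k4,k5,k0] [(z1,[y1,y1,z1])] []),
    .lp k0 [(nat_lit 320),(nat_lit 276),(nat_lit 328),(nat_lit 320),(nat_lit 334),(nat_lit 338)] [k9,k9,k31,k31,k5,k5,
    k9,k9,k2,k2,k0,k0] k0 [[k0,k0,k0,k28,k0,k0,k0,k0,k0,k0,k0,k0],[k0,k0,k0,k0,k0,k0,k0,k0,k0,k0,k0,k0],[k0,k28,k0,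
    k28,k28,k0,k0,k0,k0,k0,k0,k0],[k0,k0,k0,k0,k0,k0,k0,k16,k16,k8,k8,k0],[k0,k0,k0,k0,k0,k0,k8,k0,k2,k0,k0,k8],[k0,
    k0,k0,k28,k0,k0,k8,k0,k2,k0,k0,k8],[k0,k0,k16,k0,k0,k0,k0,k0,k0,k0,k0,k0],[k0,k0,k0,k0,k8,k8,k0,k0,k0,k0,k0,k0],
    [k0,k0,k8,k0,k0,k0,k0,k0,k0,k0,k0,k0],[k0,k0,k16,k0,k2,k2,k0,k0,k0,k0,k0,k0],[k0,k0,k0,k0,k8,k8,k0,k0,k0,k0,k0,
    k0],[k0,k0,k8,k0,k0,k0,k0,k0,k0,k0,k0,k0]] (nat_lit 960) k5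
    [[(k2,(nat_lit 298)),(k3,(nat_lit 298)),(k5,(nat_lit 316)),(k0,(nat_lit 320)),(k1,(nat_lit 320)),(k6,
    (nat_lit 320)),(k8,(nat_lit 327)),(k9,(nat_lit 327)),(k7,(nat_lit 328)),(k10,(nat_lit 329)),(k11,(nat_lit 329)),
    (k4,(nat_lit 332))],[(k2,(nat_lit 270)),(k3,(nat_lit 298)),(k0,(nat_lit 320)),(k1,(nat_lit 320)),(k6,
    (nat_lit 320)),(k7,(nat_lit 320)),(k4,(nat_lit 324)),(k5,(nat_lit 324)),(k8,(nat_lit 327)),(k9,(nat_lit 327)),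
    (k10,(nat_lit 329)),(k11,(nat_lit 329))],[(k2,(nat_lit 276)),(k3,(nat_lit 276)),(k0,(nat_lit 298)),(k1,
    (nat_lit 298)),(k6,(nat_lit 298)),(k7,(nat_lit 298)),(k4,(nat_lit 302)),(k8,(nat_lit 305)),(k9,(nat_lit 305)),
    (k10,(nat_lit 307)),(k11,(nat_lit 307)),(k5,(nat_lit 330))],[(k2,(nat_lit 248)),(k0,(nat_lit 270)),(k7,
    (nat_lit 270)),(k3,(nat_lit 276)),(k1,(nat_lit 298)),(k6,(nat_lit 298)),(k4,(nat_lit 302)),(k5,(nat_lit 302)),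
    (k10,(nat_lit 315)),(k11,(nat_lit 315)),(k8,(nat_lit 321)),(k9,(nat_lit 321))],[(k2,(nat_lit 302)),(k6,
    (nat_lit 308)),(k1,(nat_lit 316)),(k11,(nat_lit 317)),(k8,(nat_lit 323)),(k0,(nat_lit 324)),(k7,(nat_lit 324)),
    (k3,(nat_lit 330)),(k9,(nat_lit 331)),(k10,(nat_lit 333)),(k4,(nat_lit 356)),(k5,(nat_lit 356))],[(k2,
    (nat_lit 302)),(k3,(nat_lit 302)),(k9,(nat_lit 323)),(k0,(nat_lit 324)),(k7,(nat_lit 324)),(k10,(nat_lit 325)),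
    (k4,(nat_lit 328)),(k11,(nat_lit 331)),(k1,(nat_lit 332)),(k6,(nat_lit 332)),(k8,(nat_lit 333)),(k5,
    (nat_lit 356))],[(k2,(nat_lit 270)),(k3,(nat_lit 298)),(k9,(nat_lit 319)),(k0,(nat_lit 320)),(k7,(nat_lit 320)),
    (k10,(nat_lit 321)),(k4,(nat_lit 324)),(k5,(nat_lit 324)),(k11,(nat_lit 327)),(k1,(nat_lit 328)),(k6,
    (nat_lit 328)),(k8,(nat_lit 329))],[(k2,(nat_lit 298)),(k3,(nat_lit 298)),(k5,(nat_lit 308)),(k0,(nat_lit 320)),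
    (k1,(nat_lit 320)),(k6,(nat_lit 320)),(k8,(nat_lit 327)),(k9,(nat_lit 327)),(k7,(nat_lit 328)),(k10,
    (nat_lit 329)),(k11,(nat_lit 329)),(k4,(nat_lit 332))],[(k3,(nat_lit 305)),(k7,(nat_lit 319)),(k2,(nat_lit 321)),
    (k4,(nat_lit 323)),(k0,(nat_lit 327)),(k1,(nat_lit 327)),(k6,(nat_lit 327)),(k5,(nat_lit 331)),(k8,(nat_lit 334)),
    (k9,(nat_lit 334)),(k10,(nat_lit 336)),(k11,(nat_lit 336))],[(k3,(nat_lit 305)),(k2,(nat_lit 321)),(k5,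
    (nat_lit 323)),(k0,(nat_lit 327)),(k1,(nat_lit 327)),(k6,(nat_lit 327)),(k7,(nat_lit 329)),(k4,(nat_lit 333)),(k8,
    (nat_lit 334)),(k9,(nat_lit 334)),(k10,(nat_lit 336)),(k11,(nat_lit 336))],[(k3,(nat_lit 307)),(k2,(nat_lit 315)),
    (k5,(nat_lit 317)),(k7,(nat_lit 327)),(k0,(nat_lit 329)),(k1,(nat_lit 329)),(k6,(nat_lit 329)),(k4,(nat_lit 331)),
    (k8,(nat_lit 336)),(k9,(nat_lit 336)),(k10,(nat_lit 338)),(k11,(nat_lit 338))],[(k3,(nat_lit 307)),(k2,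
    (nat_lit 315)),(k7,(nat_lit 321)),(k4,(nat_lit 325)),(k0,(nat_lit 329)),(k1,(nat_lit 329)),(k6,(nat_lit 329)),(k5,
    (nat_lit 333)),(k8,(nat_lit 336)),(k9,(nat_lit 336)),(k10,(nat_lit 338)),(k11,(nat_lit 338))]]
    [[k2,k1,k0,k0,k0,k0],[k1,k2,k0,k0,k0,k0],[k1,k1,k1,k0,k0,k0],[k1,k1,k0,k1,k0,k0],[k1,k1,k0,k0,k1,k0],[k1,k1,k0,k0,
    k0,k1],[k0,k3,k0,k0,k0,k0],[k0,k2,k1,k0,k0,k0],[k0,k2,k0,k1,k0,k0],[k0,k2,k0,k0,k1,k0],[k0,k2,k0,k0,k0,k1],[k0,k1,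
    k1,k1,k0,k0],[k0,k1,k1,k0,k1,k0],[k0,k1,k1,k0,k0,k1],[k0,k1,k0,k2,k0,k0],[k0,k1,k0,k1,k1,k0],[k0,k1,k0,k1,k0,k1],
    [k0,k1,k0,k0,k1,k1]]
    [.ref (nat_lit 378) k10 [(z1,[z1,y1]),(z1,[z0,z1])],.ref k73 k5 [(z1,[y2,z1]),(z1,[z1,y1,z1])],
    .ref (nat_lit 379) k5 [(z1,[y2,z1]),(z1,[z1,y1,z1])],.ref (nat_lit 380) k5 [(z1,[y2,z1]),(z1,[z1,y1,z1])],
    .ref (nat_lit 381) k11 [(z1,[y1,z1]),(z1,[y1,z0,z1])],.ref (nat_lit 382) k3 [(z1,[y1,y1,z1]),(z1,[z0,z1])],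
    .ref (nat_lit 261) k10 [(z1,[z1]),(z1,[z0,z1])],.ref (nat_lit 388) k7 [(z1,[z1,z1,y1]),(z1,[y1,y2,z2])],
    .ref (nat_lit 424) k0 [(z1,[z0,z1]),(z1,[z1])],.ref (nat_lit 381) k11 [(z2,[y1,z1]),(z2,[y1,y1,z2])],
    .ref (nat_lit 442) k5 [(z1,[y2,y1,z2]),(z1,[z1])],.ref k3 k9 [(z1,[y1,y1,z1]),(z1,[z0,z1])],
    .ref (nat_lit 443) k8 [(z1,[z1,y1]),(z1,[y1,z0,z1])],.ref k1 k11 [(z1,[z1,z1,y1]),(z1,[z1])],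
    .ref (nat_lit 484) k0 [(z1,[z0,z1]),(z1,[z1])],.ref (nat_lit 485) k3 [(z1,[z1,y1]),(z1,[z0,z1])],
    .ref (nat_lit 486) k8 [(z1,[y1,y1,z1]),(z1,[z1])],.ref (nat_lit 487) k5 [(z1,[z2,z1,y2]),(z1,[y1,y1,z2])]],
    .base (.leafM k3 [k0,k1,k2,k3,k4,k5] [(z1,[y1,z0,y1,z1])] []),
    .lp k0 [(nat_lit 320),(nat_lit 332),(nat_lit 328),(nat_lit 316),(nat_lit 306),(nat_lit 314)] [k6,k6,k0,k0,k2,k2,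
    k8,k8,k13,k13,k9,k9] k0 [[k0,k0,k0,k0,k0,k0,k0,k0,k16,k0,k0,k0],[k0,k0,k0,k0,k4,k4,k0,k0,k0,k0,k0,k0],[k0,k0,k0,
    k0,k0,k0,k0,k0,k0,k0,k12,k0],[k0,k0,k0,k0,k0,k0,k0,k12,k0,k0,k4,k0],[k4,k0,k0,k0,k0,k0,k60,k0,k0,k58,k0,k4],[k4,
    k0,k0,k0,k0,k0,k12,k0,k0,k4,k0,k4],[k0,k0,k12,k0,k0,k0,k0,k0,k42,k38,k0,k0],[k0,k0,k0,k0,k12,k60,k0,k0,k0,k0,k56,
    k8],[k0,k0,k0,k0,k4,k58,k0,k38,k0,k0,k62,k0],[k0,k16,k0,k0,k0,k0,k0,k42,k4,k0,k38,k0],[k0,k0,k0,k0,k4,k4,k8,k0,k0,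
    k0,k0,k0],[k0,k0,k4,k12,k0,k0,k56,k0,k38,k62,k0,k0]] (nat_lit 960) k5
    [[(k8,(nat_lit 251)),(k9,(nat_lit 257)),(k11,(nat_lit 279)),(k2,(nat_lit 314)),(k10,(nat_lit 317)),(k0,
    (nat_lit 320)),(k1,(nat_lit 320)),(k5,(nat_lit 320)),(k7,(nat_lit 322)),(k3,(nat_lit 326)),(k6,(nat_lit 326)),(k4,
    (nat_lit 328))],[(k11,(nat_lit 301)),(k8,(nat_lit 313)),(k9,(nat_lit 313)),(k10,(nat_lit 317)),(k6,(nat_lit 318)),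
    (k0,(nat_lit 320)),(k1,(nat_lit 320)),(k7,(nat_lit 322)),(k5,(nat_lit 324)),(k2,(nat_lit 326)),(k3,(nat_lit 326)),
    (k4,(nat_lit 328))],[(k9,(nat_lit 319)),(k7,(nat_lit 320)),(k10,(nat_lit 323)),(k11,(nat_lit 323)),(k6,
    (nat_lit 324)),(k0,(nat_lit 326)),(k1,(nat_lit 326)),(k4,(nat_lit 326)),(k5,(nat_lit 330)),(k2,(nat_lit 332)),(k3,
    (nat_lit 332)),(k8,(nat_lit 335))],[(k1,(nat_lit 314)),(k8,(nat_lit 319)),(k11,(nat_lit 323)),(k6,(nat_lit 324)),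
    (k7,(nat_lit 324)),(k0,(nat_lit 326)),(k10,(nat_lit 327)),(k4,(nat_lit 330)),(k5,(nat_lit 330)),(k9,
    (nat_lit 331)),(k2,(nat_lit 332)),(k3,(nat_lit 332))],[(k6,(nat_lit 310)),(k8,(nat_lit 317)),(k9,(nat_lit 317)),
    (k1,(nat_lit 320)),(k11,(nat_lit 321)),(k7,(nat_lit 322)),(k0,(nat_lit 324)),(k4,(nat_lit 328)),(k5,
    (nat_lit 328)),(k2,(nat_lit 330)),(k3,(nat_lit 330)),(k10,(nat_lit 333))],[(k9,(nat_lit 257)),(k8,(nat_lit 259)),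
    (k10,(nat_lit 317)),(k7,(nat_lit 322)),(k11,(nat_lit 325)),(k3,(nat_lit 326)),(k0,(nat_lit 328)),(k1,
    (nat_lit 328)),(k4,(nat_lit 328)),(k5,(nat_lit 328)),(k2,(nat_lit 330)),(k6,(nat_lit 334))],[(k9,(nat_lit 299)),
    (k8,(nat_lit 307)),(k10,(nat_lit 311)),(k7,(nat_lit 316)),(k3,(nat_lit 320)),(k0,(nat_lit 322)),(k1,
    (nat_lit 322)),(k4,(nat_lit 322)),(k5,(nat_lit 322)),(k2,(nat_lit 324)),(k11,(nat_lit 373)),(k6,(nat_lit 376))],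
    [(k8,(nat_lit 273)),(k11,(nat_lit 273)),(k5,(nat_lit 310)),(k9,(nat_lit 311)),(k6,(nat_lit 316)),(k0,
    (nat_lit 318)),(k2,(nat_lit 324)),(k3,(nat_lit 324)),(k1,(nat_lit 326)),(k4,(nat_lit 334)),(k10,(nat_lit 371)),
    (k7,(nat_lit 376))],[(k1,(nat_lit 257)),(k4,(nat_lit 257)),(k7,(nat_lit 299)),(k10,(nat_lit 302)),(k9,
    (nat_lit 306)),(k6,(nat_lit 311)),(k0,(nat_lit 313)),(k5,(nat_lit 317)),(k3,(nat_lit 319)),(k2,(nat_lit 331)),(k8,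
    (nat_lit 348)),(k11,(nat_lit 348))],[(k1,(nat_lit 251)),(k4,(nat_lit 259)),(k6,(nat_lit 273)),(k7,(nat_lit 307)),
    (k8,(nat_lit 310)),(k11,(nat_lit 310)),(k0,(nat_lit 313)),(k5,(nat_lit 317)),(k2,(nat_lit 319)),(k3,
    (nat_lit 335)),(k9,(nat_lit 348)),(k10,(nat_lit 348))],[(k6,(nat_lit 273)),(k1,(nat_lit 279)),(k0,(nat_lit 301)),
    (k8,(nat_lit 310)),(k11,(nat_lit 310)),(k5,(nat_lit 321)),(k2,(nat_lit 323)),(k3,(nat_lit 323)),(k4,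
    (nat_lit 325)),(k9,(nat_lit 348)),(k7,(nat_lit 373)),(k10,(nat_lit 376))],[(k9,(nat_lit 302)),(k7,(nat_lit 311)),
    (k10,(nat_lit 314)),(k0,(nat_lit 317)),(k1,(nat_lit 317)),(k4,(nat_lit 317)),(k3,(nat_lit 323)),(k2,
    (nat_lit 327)),(k5,(nat_lit 333)),(k8,(nat_lit 348)),(k6,(nat_lit 371)),(k11,(nat_lit 376))]]
    [[k2,k0,k0,k0,k1,k0],[k2,k0,k0,k0,k0,k1],[k1,k1,k0,k1,k0,k0],[k1,k1,k0,k0,k1,k0],[k1,k1,k0,k0,k0,k1],[k1,k0,k1,k0,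
    k1,k0],[k1,k0,k1,k0,k0,k1],[k1,k0,k0,k1,k1,k0],[k1,k0,k0,k1,k0,k1],[k1,k0,k0,k0,k2,k0],[k1,k0,k0,k0,k1,k1],[k1,k0,
    k0,k0,k0,k2],[k0,k1,k1,k0,k1,k0],[k0,k1,k0,k1,k1,k0],[k0,k1,k0,k1,k0,k1],[k0,k1,k0,k0,k1,k1],[k0,k0,k2,k0,k1,k0],
    [k0,k0,k1,k1,k1,k0],[k0,k0,k1,k1,k0,k1],[k0,k0,k1,k0,k2,k0],[k0,k0,k1,k0,k1,k1],[k0,k0,k0,k2,k1,k0],[k0,k0,k0,k1,
    k2,k0],[k0,k0,k0,k1,k1,k1]]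
    [.ref k43 k10 [(z2,[y1,z2,z3]),(z1,[z1,z1]),(z2,[y1,z0,y1,z2])],.ref k16 k5 [(z1,[z2,y2,z1,y2]),(z1,[y3,z2,y2,
    z4]),(z1,[z2,y1,z1,y2])],.ref (nat_lit 489) k0 [(z1,[z0,z1]),(z1,[z0,z0,z1]),(z1,[y1,z0,z0,z1])],
    .ref k43 k10 [(z1,[y1,z1,z2]),(z1,[z2,z1,y1]),(z1,[y1,z0,z0,z1])],.ref k147 k3 [(z1,[y1,z0,y1,z1]),(z1,[z0,z0,
    z1]),(z1,[z1,y1,y1])],.ref k109 k4 [(z1,[z0,y1]),(z1,[y2,y1,y1,z2]),(z1,[z1,z1])],.ref (nat_lit 489) k0 [(z1,[z0,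
    z1]),(z1,[z0,z0,z1]),(z1,[z1,y1])],.ref k86 k3 [(z1,[z1,y1,y2]),(z1,[z0,z0,z1]),(z1,[y1,z0,z0,z1])],
    .ref (nat_lit 383) k0 [(z1,[z0,z1]),(z1,[z0,z0,z1]),(z1,[y2,z0,y1,z2])],.ref k43 k10 [(z2,[y1,z1,z3]),(z1,[z1,
    z2]),(z2,[y1,y1,y1,z2])],.ref k16 k5 [(z1,[z2,z0,z1,y2]),(z1,[y3,y1,y2,z4]),(z1,[z2,z1,z1,y2])],.ref k147 k3 [(z2,
    [y1,y1,y3,z2]),(z1,[z0,z0,z1]),(z2,[z1,y1,y1])],.ref (nat_lit 383) k0 [(z1,[z0,z1]),(z1,[z0,z0,z1]),(z1,[z2,z0,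
    y1])],.ref (nat_lit 489) k0 [(z1,[z0,z1]),(z1,[z0,z0,z1]),(z1,[y1,y1,z0,z1])],.ref k109 k4 [(z1,[z0,y1]),(z1,[z2,
    y1,y1]),(z1,[y1,z1,z0,z1])],.ref k147 k3 [(z1,[y1,y1,y1,z1]),(z1,[z0,z0,z1]),(z1,[z1,z0,y1])],
    .ref (nat_lit 383) k0 [(z1,[z0,z1]),(z1,[z0,z0,z1]),(z1,[z1])],.ref k147 k3 [(z1,[z1,z0,y1]),(z1,[z0,z0,z1]),(z1,
    [y1,y1,y1,z1])],.ref k43 k10 [(z1,[z1,z1,z2,y1]),(z1,[y2,z1,y1,z2]),(z1,[z1])],.ref k109 k4 [(z1,[z0,y1]),(z1,[y2,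
    y3,y1,z2]),(z1,[z1,z2])],.ref (nat_lit 489) k0 [(z1,[z0,z1]),(z1,[z0,z0,z1]),(z1,[z1])],
    .ref (nat_lit 489) k0 [(z1,[z0,z1]),(z1,[z0,z0,z1]),(z2,[y1,y2,y1,z2])],.ref k86 k3 [(z1,[z1,z0,y2]),(z1,[z0,z0,
    z1]),(z1,[y1,y1,z0,z1])],.ref (nat_lit 383) k0 [(z1,[z0,z1]),(z1,[z0,z0,z1]),(z1,[y2,y2,y1,z2])]],
    .base (.leafM k0 [k2,k3,k4,k5,k0,k1] [(z1,[y1,y1,z1])] [])]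

theorem hB6_171_40 : blkB [0, 0, 0, 0, 0, 0] [] sp6 hS6_171 (pcls (n := 6) [0, 0, 0, 0, 0, 0]) hD6_171 560 40 hN6_171_40 = true := by
  decide +kernel

/-- nodes 492 to 503 -/
noncomputable def hN6_171_41 : List HM :=
  [.base (.leafM k3 [k3,k4,k5,k0,k1,k2] [(z2,[z1,z1])] []),
    .base (.leafM k0 [k0,k1,k2,k3,k4,k5] [(z1,[y1,z0,z1])] []),
    .base (.leafM k3 [k5,k0,k1,k2,k3,k4] [(z1,[z0,y1,z0,z1])] []),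
    .base (.leafM k0 [k2,k3,k4,k5,k0,k1] [(z2,[y1,y1,y1,z2])] []),
    .base (.leafM k3 [k5,k0,k1,k2,k3,k4] [(z1,[z0,y1,z0,z1])] []),
    .base (.leafM k3 [k4,k5,k0,k1,k2,k3] [(z1,[z0,z1,z1])] []),
    .base (.leafM k1 [k0,k1,k2,k3,k4,k5] [(z1,[y1,z0,y1,z1]),(z1,[z1,z0,z1])] []),
    .base (.leafM k0 [k0,k1,k2,k3,k4,k5] [(z2,[z0,z2,z1,z1])] []),
    .base (.leafM k3 [k5,k0,k1,k2,k3,k4] [(z1,[z1,z0,z1,z1])] []),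
    .base (.leafM k1 [k0,k1,k2,k3,k4,k5] [(z1,[z0,z1,z0,z1]),(z1,[z0,y1,z0,y1,z1])] []),
    .lp k0 [k158,k168,k164,k160,k158,k150] [k5,k5,k0,k0,k2,k2,k4,k4,k5,k5,k9,k9] k0 [[k0,k0,k0,k0,k0,k0,k0,k0,k6,k6,
    k6,k2],[k0,k0,k0,k0,k12,k4,k4,k12,k0,k0,k0,k0],[k0,k0,k0,k16,k8,k0,k0,k4,k0,k10,k0,k0],[k0,k0,k0,k0,k0,k0,k0,k0,
    k0,k6,k6,k6],[k4,k0,k0,k0,k0,k0,k0,k0,k0,k0,k0,k16],[k12,k0,k0,k8,k0,k0,k0,k0,k6,k2,k0,k6],[k12,k0,k0,k4,k0,k0,k0,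
    k0,k24,k24,k0,k24],[k4,k0,k0,k0,k0,k0,k0,k0,k0,k0,k0,k10],[k0,k6,k6,k10,k2,k0,k0,k24,k0,k0,k0,k0],[k0,k6,k0,k0,k6,
    k0,k0,k24,k0,k0,k14,k0],[k0,k2,k6,k0,k6,k16,k10,k24,k0,k0,k0,k0],[k0,k6,k6,k0,k0,k0,k0,k0,k14,k0,k0,
    k0]] (nat_lit 480) k5
    [[(k11,k140),(k0,k152),(k10,k154),(k5,k155),(k1,k158),(k8,k158),(k3,k165),(k4,k167),(k2,k169),(k6,k169),(k7,k175),
    (k9,k182)],[(k11,k148),(k1,k152),(k8,k152),(k10,k152),(k0,k158),(k5,k161),(k2,k163),(k3,k163),(k6,k163),(k7,k163),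
    (k9,k170),(k4,k173)],[(k6,k152),(k7,k152),(k9,k159),(k4,k162),(k0,k163),(k1,k165),(k10,k165),(k11,k165),(k5,k166),
    (k2,k168),(k3,k168),(k8,k169)],[(k2,k152),(k8,k153),(k7,k156),(k6,k160),(k0,k163),(k9,k163),(k10,k165),(k11,k165),
    (k4,k166),(k5,k166),(k3,k168),(k1,k169)],[(k10,k151),(k1,k155),(k8,k155),(k0,k161),(k6,k162),(k7,k162),(k9,k165),
    (k2,k166),(k3,k166),(k11,k167),(k4,k172),(k5,k180)],[(k10,k141),(k11,k159),(k9,k161),(k3,k162),(k6,k162),(k7,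
    k162),(k4,k164),(k2,k166),(k1,k167),(k8,k167),(k5,k172),(k0,k173)],[(k10,k149),(k11,k149),(k3,k152),(k2,k156),(k8,
    k157),(k9,k159),(k6,k160),(k7,k160),(k4,k162),(k5,k162),(k0,k163),(k1,k175)],[(k10,k131),(k11,k131),(k8,k135),(k3,
    k152),(k9,k159),(k2,k160),(k6,k160),(k7,k160),(k4,k162),(k5,k162),(k0,k163),(k1,k169)],[(k10,k144),(k9,k158),(k3,
    k159),(k6,k159),(k7,k159),(k4,k161),(k2,k163),(k5,k165),(k0,k170),(k11,k178),(k1,k182),(k8,k182)],[(k6,k135),(k0,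
    k152),(k2,k153),(k11,k154),(k5,k155),(k7,k157),(k1,k158),(k8,k158),(k4,k167),(k10,k168),(k3,k169),(k9,k182)],[(k6,
    k131),(k1,k140),(k0,k148),(k7,k149),(k10,k150),(k11,k150),(k8,k154),(k4,k159),(k2,k165),(k3,k165),(k5,k167),(k9,
    k178)],[(k6,k131),(k4,k141),(k9,k144),(k7,k149),(k10,k150),(k11,k150),(k5,k151),(k0,k152),(k1,k154),(k2,k165),(k3,
    k165),(k8,k168)]]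
    [[k3,k0,k0,k0,k0,k0],[k2,k0,k0,k0,k0,k1],[k1,k1,k0,k0,k0,k1],[k1,k0,k1,k0,k0,k1],[k1,k0,k1,k0,k1,k0],[k1,k0,k0,k1,
    k0,k1],[k1,k0,k0,k0,k2,k0],[k1,k0,k0,k0,k1,k1],[k1,k0,k0,k0,k0,k2],[k0,k2,k0,k1,k0,k0],[k0,k1,k1,k0,k0,k1],[k0,k1,
    k0,k2,k0,k0],[k0,k1,k0,k1,k1,k0],[k0,k1,k0,k1,k0,k1],[k0,k1,k0,k0,k1,k1],[k0,k0,k1,k1,k0,k1],[k0,k0,k1,k1,k1,k0],
    [k0,k0,k1,k0,k1,k1],[k0,k0,k1,k0,k0,k2],[k0,k0,k0,k2,k1,k0],[k0,k0,k0,k2,k0,k1],[k0,k0,k0,k1,k2,k0],[k0,k0,k0,k1,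
    k1,k1],[k0,k0,k0,k1,k0,k2],[k0,k0,k0,k0,k1,k2],[k0,k0,k0,k0,k0,k3]]
    [.ref k25 k0 [(z1,[z1]),(z2,[y1,z3,z6]),(z8,[y1,z3,z0,z12]),(z16,[z1,y3,z0,z0,z12]),(z16,[y11,y15,y48,y24,y12,
    z48])],.ref k25 k0 [(z3,[z4,z1]),(z3,[y2,z4,z9]),(z6,[y1,z2,z0,z9]),(z12,[z1,y2,z0,z0,z9]),(z12,[y11,y14,y36,y18,
    y9,z36])],.ref k25 k0 [(z1,[z4,y1,y4]),(z1,[y2,z2,z5]),(z2,[y1,z1,z1,z3]),(z4,[z1,y1,y1,z0,z3]),(z4,[y11,y1,y1,y6,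
    y3,z12])],.ref k25 k0 [(z3,[z8,z1,z0,y4]),(z3,[y4,z4,z9,z2]),(z3,[y1,z1,z0,z5]),(z12,[z2,y2,z0,y1,z9]),(z12,[y22,
    y14,y36,y7,y9,z36])],.ref k25 k0 [(z1,[z16,z3,z16,z0,z4,y16]),(z1,[y8,z0,y5,z0,y2,z8]),(z2,[y4,z0,y4,z3,y1,z4]),
    (z1,[z1,z0,z1,z0,z1,y1]),(z2,[y22,y6,y28,y3,y7,z28])],.ref k25 k0 [(z7,[z16,z5,z0,z0,y4]),(z7,[y8,z8,z21,z0,z2]),
    (z14,[y4,z4,z0,z21,z1]),(z7,[z1,y1,z0,z0,z5]),(z14,[y22,y20,y42,y21,y5,z42])],.ref k25 k0 [(z1,[y8,y5,y16,y8,y4,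
    z16]),(z1,[z4,z4,z11,z4,z2,y8]),(z2,[z2,z2,z4,z5,z1,y4]),(z2,[y1,y1,y2,y1,z1,z2]),(z2,[z11,z5,z16,z8,z4,y16])],
    .ref k25 k0 [(z3,[z16,z9,z16,z8,z4,y16]),(z3,[y8,z0,z1,y4,y2,z8]),(z6,[y4,z0,y4,z7,y1,z4]),(z6,[z2,z0,z2,z1,z5,
    y2]),(z3,[y11,y9,y20,y10,y5,z20])],.ref k25 k0 [(z1,[z2,z1]),(z1,[y1,z1,z3]),(z4,[y1,z1,z0,z6]),(z8,[z1,y1,z0,z0,
    z6]),(z8,[y11,y13,y24,y12,y6,z24])],.ref k25 k0 [(z5,[y16,z15,z32,z0,z4]),(z5,[z8,z0,y1,z0,y2]),(z10,[z4,z0,y8,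
    z15,y1]),(z5,[y1,z0,z2,z0,z4]),(z10,[z22,y30,y74,y15,y13,z30])],.ref k25 k0 [(z1,[y8,z3,z8,z4]),(z1,[z4,z0,y1,
    y2]),(z1,[z1,z0,y1,z1]),(z4,[y2,z0,z2,z1,z3]),(z4,[z22,y12,y34,y17,y3,z12])],.ref k25 k0 [(z1,[y8,z3,z8,z0,z4]),
    (z1,[z4,z0,y1,z0,y2]),(z2,[z2,z0,y2,z3,y1]),(z2,[y1,z0,z1,z0,z2]),(z2,[z11,y6,y17,y3,y7,z6])],.ref k25 k0 [(z3,
    [y8,z1,z0,y4,z0,z8]),(z3,[z4,z4,z9,z2,z0,y4]),(z3,[z1,z1,z0,z5,z0,y1]),(z12,[y2,y2,z0,y1,z9,z2]),(z12,[z22,y14,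
    y36,y7,y9,z14])],.ref k25 k0 [(z1,[y16,z3,z16,z0,z4]),(z1,[z8,z0,y5,z0,y2]),(z2,[z4,z0,y4,z3,y1]),(z1,[y1,z0,z1,
    z0,z1]),(z2,[z22,y6,y28,y3,y7,z6])],.ref k25 k0 [(z5,[y16,y1,z0,y8,y4,z16]),(z5,[z8,z8,z15,z4,z2,y8]),(z10,[z4,z4,
    z0,z17,z1,y4]),(z10,[y2,y2,z0,y1,z7,z2]),(z5,[z11,y4,y15,y2,y1,z4])],.ref k25 k0 [(z1,[z16,z3,z0,y8,y4]),(z1,[y8,
    z0,z3,z4,z2]),(z2,[y4,z0,z0,z5,z1]),(z2,[z2,z0,z0,y1,z1]),(z1,[y11,y3,y3,z4,z2,z3])],.ref k25 k0 [(z1,[y4,y1,y4,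
    z0,z0,z4]),(z1,[z2,z2,z5,z0,z0,y2]),(z2,[z1,z1,z1,z3,z0,y1]),(z4,[y1,y1,y1,z0,z3,z1]),(z4,[z11,y1,y1,y6,y3,z1])],
    .ref k25 k0 [(z3,[y16,y7,y16,z0,y4,z16]),(z3,[z8,z8,z17,z0,z2,y8]),(z6,[z4,z4,z4,z9,z1,y4]),(z3,[y1,y1,y1,z0,z2,
    z1]),(z6,[z22,z4,z4,y9,z1,y4])],.ref k25 k0 [(z1,[z8,z3,z0,y4]),(z1,[y4,z0,z3,z2]),(z1,[y1,z0,z0,z2]),(z4,[z2,z0,
    z0,y1,z3]),(z4,[y22,y12,y12,z5,y3,z12])],.ref k25 k0 [(z3,[y16,y7,y16,y8,z4,z16]),(z3,[z8,z8,z17,z4,y2,y8]),(z6,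
    [z4,z4,z4,z11,y1,y4]),(z6,[y2,y2,y2,y1,z5,z2]),(z3,[z11,z2,z2,z1,y5,y2])],.ref k25 k0 [(z1,[z8,z3,z0,z0,y4]),(z1,
    [y4,z0,z3,z0,z2]),(z2,[y2,z0,z0,z3,z1]),(z2,[z1,z0,z0,z0,z1]),(z2,[y11,y6,y6,y3,z4,z6])],.ref k25 k0 [(z7,[y16,
    y11,y32,y16,y4,z32]),(z7,[z8,z16,z37,z8,z2,y16]),(z14,[z4,z8,z8,z25,z1,y8]),(z7,[y1,y2,y2,y1,z5,z2]),(z14,[z22,z2,
    z2,z1,y5,y2])],.ref k25 k0 [(z1,[y8,y5,y8,y4,z0,z8]),(z1,[z4,z4,z7,z2,z0,y4]),(z1,[z1,z1,z1,z2,z0,y1]),(z4,[y2,y2,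
    y2,y1,z3,z2]),(z4,[z22,z10,z10,z5,y3,y10])],.ref k25 k0 [(z3,[z16,z9,z0,z0,y4]),(z3,[y8,z0,z9,z0,z2]),(z6,[y4,z0,
    z0,z9,z1]),(z3,[z1,z0,z0,z0,z2]),(z6,[y22,y18,y18,y9,z1,z18])],.ref k25 k0 [(z1,[y16,y13,y16,y8,y4,z16]),(z1,[z8,
    z8,z11,z4,z2,y8]),(z2,[z4,z4,z4,z5,z1,y4]),(z2,[y2,y2,y2,y1,z1,z2]),(z1,[z11,z8,z8,z4,z2,y8])],.ref k25 k0 [(z1,
    [z4,z3]),(z1,[y2,z0,z3]),(z2,[y1,z0,z0,z3]),(z4,[z1,z0,z0,z0,z3]),(z4,[y11,y12,y12,y6,y3,z12])]],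
    .lp k0 [(nat_lit 476),(nat_lit 470),(nat_lit 488),(nat_lit 492),(nat_lit 492),(nat_lit 456)] [k10,k6,k11,k11,k2,
    k2,k0,k0,k0,k0,k18,k18] k0 [[k0,k0,k0,k0,k22,k8,k40,k0,k14,k0,k0,k2],[k32,k0,k0,k0,k0,k0,k10,k0,k0,k0,k0,k46],[k0,
    k0,k0,k0,k0,k0,k10,k0,k0,k0,k16,k6],[k0,k0,k0,k0,k8,k8,k32,k0,k0,k0,k0,k0],[k0,k8,k8,k0,k0,k0,k0,k0,k0,k0,k4,k0],
    [k0,k22,k8,k0,k0,k0,k0,k0,k0,k0,k16,k0],[k0,k0,k0,k0,k0,k0,k0,k0,k0,k0,k0,k0],[k10,k40,k32,k10,k0,k0,k0,k0,k0,k0,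
    k12,k0],[k0,k0,k0,k0,k0,k0,k0,k0,k0,k0,k126,k0],[k0,k14,k0,k0,k0,k0,k0,k0,k6,k0,k0,k0],[k46,k2,k0,k6,k0,k0,k0,k0,
    k0,k0,k0,k48],[k0,k0,k0,k16,k16,k4,k12,k0,k0,k126,k0,k0]] (nat_lit 1440) k5
    [[(k8,(nat_lit 360)),(k2,(nat_lit 459)),(k10,(nat_lit 468)),(k11,(nat_lit 468)),(k7,(nat_lit 470)),(k9,
    (nat_lit 474)),(k3,(nat_lit 477)),(k4,(nat_lit 480)),(k6,(nat_lit 486)),(k5,(nat_lit 490)),(k0,(nat_lit 522)),(k1,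
    (nat_lit 528))],[(k9,(nat_lit 442)),(k11,(nat_lit 450)),(k7,(nat_lit 460)),(k10,(nat_lit 462)),(k2,(nat_lit 471)),
    (k3,(nat_lit 471)),(k4,(nat_lit 472)),(k5,(nat_lit 480)),(k8,(nat_lit 482)),(k6,(nat_lit 492)),(k0,(nat_lit 504)),
    (k1,(nat_lit 522))],[(k10,(nat_lit 417)),(k3,(nat_lit 438)),(k11,(nat_lit 463)),(k2,(nat_lit 470)),(k0,
    (nat_lit 471)),(k9,(nat_lit 471)),(k1,(nat_lit 477)),(k5,(nat_lit 479)),(k7,(nat_lit 489)),(k8,(nat_lit 495)),(k4,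
    (nat_lit 501)),(k6,(nat_lit 521))],[(k10,(nat_lit 457)),(k1,(nat_lit 459)),(k11,(nat_lit 463)),(k2,(nat_lit 470)),
    (k3,(nat_lit 470)),(k0,(nat_lit 471)),(k9,(nat_lit 471)),(k5,(nat_lit 479)),(k8,(nat_lit 481)),(k4,(nat_lit 487)),
    (k7,(nat_lit 489)),(k6,(nat_lit 513))],[(k9,(nat_lit 458)),(k11,(nat_lit 472)),(k2,(nat_lit 479)),(k3,
    (nat_lit 479)),(k0,(nat_lit 480)),(k4,(nat_lit 480)),(k7,(nat_lit 482)),(k5,(nat_lit 488)),(k10,(nat_lit 488)),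
    (k1,(nat_lit 490)),(k8,(nat_lit 490)),(k6,(nat_lit 500))],[(k0,(nat_lit 472)),(k11,(nat_lit 472)),(k1,
    (nat_lit 480)),(k5,(nat_lit 480)),(k2,(nat_lit 487)),(k4,(nat_lit 488)),(k10,(nat_lit 488)),(k6,(nat_lit 490)),
    (k7,(nat_lit 490)),(k8,(nat_lit 490)),(k9,(nat_lit 490)),(k3,(nat_lit 501))],[(k0,(nat_lit 460)),(k1,
    (nat_lit 470)),(k11,(nat_lit 474)),(k10,(nat_lit 478)),(k5,(nat_lit 482)),(k2,(nat_lit 489)),(k3,(nat_lit 489)),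
    (k4,(nat_lit 490)),(k6,(nat_lit 492)),(k7,(nat_lit 492)),(k8,(nat_lit 492)),(k9,(nat_lit 492))],[(k11,
    (nat_lit 474)),(k1,(nat_lit 486)),(k10,(nat_lit 486)),(k4,(nat_lit 490)),(k0,(nat_lit 492)),(k6,(nat_lit 492)),
    (k7,(nat_lit 492)),(k8,(nat_lit 492)),(k9,(nat_lit 492)),(k5,(nat_lit 500)),(k2,(nat_lit 513)),(k3,
    (nat_lit 521))],[(k0,(nat_lit 442)),(k5,(nat_lit 458)),(k2,(nat_lit 471)),(k3,(nat_lit 471)),(k1,(nat_lit 474)),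
    (k10,(nat_lit 474)),(k11,(nat_lit 474)),(k4,(nat_lit 490)),(k6,(nat_lit 492)),(k7,(nat_lit 492)),(k8,
    (nat_lit 492)),(k9,(nat_lit 492))],[(k1,(nat_lit 360)),(k10,(nat_lit 474)),(k11,(nat_lit 474)),(k2,(nat_lit 481)),
    (k0,(nat_lit 482)),(k4,(nat_lit 490)),(k5,(nat_lit 490)),(k6,(nat_lit 492)),(k7,(nat_lit 492)),(k9,(nat_lit 492)),
    (k3,(nat_lit 495)),(k8,(nat_lit 498))],[(k0,(nat_lit 450)),(k11,(nat_lit 450)),(k2,(nat_lit 463)),(k3,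
    (nat_lit 463)),(k1,(nat_lit 468)),(k4,(nat_lit 472)),(k5,(nat_lit 472)),(k6,(nat_lit 474)),(k7,(nat_lit 474)),(k8,
    (nat_lit 474)),(k9,(nat_lit 474)),(k10,(nat_lit 582))],[(k10,(nat_lit 408)),(k3,(nat_lit 417)),(k2,(nat_lit 457)),
    (k0,(nat_lit 462)),(k1,(nat_lit 468)),(k8,(nat_lit 474)),(k9,(nat_lit 474)),(k7,(nat_lit 478)),(k6,(nat_lit 486)),
    (k4,(nat_lit 488)),(k5,(nat_lit 488)),(k11,(nat_lit 582))]]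
    [[k2,k0,k0,k0,k1,k0],[k1,k2,k0,k0,k0,k0],[k1,k1,k1,k0,k0,k0],[k1,k1,k0,k0,k1,k0],[k1,k1,k0,k0,k0,k1],[k1,k0,k1,k0,
    k1,k0],[k1,k0,k1,k0,k0,k1],[k1,k0,k0,k2,k0,k0],[k1,k0,k0,k1,k1,k0],[k1,k0,k0,k1,k0,k1],[k1,k0,k0,k0,k2,k0],[k1,k0,
    k0,k0,k1,k1],[k1,k0,k0,k0,k0,k2],[k0,k3,k0,k0,k0,k0],[k0,k2,k1,k0,k0,k0],[k0,k2,k0,k0,k1,k0],[k0,k2,k0,k0,k0,k1],
    [k0,k1,k1,k0,k0,k1],[k0,k1,k0,k1,k0,k1],[k0,k1,k0,k0,k1,k1],[k0,k1,k0,k0,k0,k2],[k0,k0,k2,k0,k1,k0],[k0,k0,k1,k0,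
    k1,k1],[k0,k0,k1,k0,k0,k2],[k0,k0,k0,k1,k0,k2],[k0,k0,k0,k0,k1,k2]]
    [.ref k25 k0 [(z11,[z15,z1]),(z11,[y6,z4,z33]),(z11,[y24,z16,z0,z33]),(z11,[z12,y8,z0,z0,z33]),(z11,[z3,y2])],
    .ref k25 k0 [(z1,[z15,y4,y30]),(z1,[y6,z2,z15]),(z1,[y24,z8,z48,z3]),(z1,[z12,y4,y24,z0,z3]),(z1,[z3,y1,y6])],
    .ref k25 k0 [(z1,[y3,z2,z3,z3]),(z5,[z6,y2,z9,y6]),(z5,[z24,y8,y24,y9]),(z5,[y12,z4,z12,z12,z15]),(z5,[y3,z1,z3,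
    z3])],.ref k25 k0 [(z4,[z15,y1,y15]),(z2,[y3,z1,z9]),(z1,[y6,z2,z6,z3]),(z1,[z3,y1,y3,z0,z3]),(z4,[z3,y1,y3])],
    .ref k25 k0 [(z1,[z5,z1,z0,z5,z5,y5]),(z1,[y2,z0,z3,y2,y2,z2]),(z1,[y8,z0,z0,y5,y8,z8]),(z1,[z4,z0,z0,z4,z7,y4]),
    (z1,[z1,z0,z0,z1,z1,y1])],.ref k25 k0 [(z2,[y15,z7,z0,z15]),(z1,[z3,y1,z3,y3]),(z1,[z12,y4,z0,y9]),(z1,[y6,z2,z0,
    z6,z3]),(z2,[y3,z1,z0,z3])],.ref k25 k0 [(z1,[y5,z1,y5,z0,y5,z5]),(z1,[z2,z0,z5,z0,z2,y2]),(z1,[z8,z0,z8,z3,z8,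
    y8]),(z1,[y4,z0,y4,z0,y1,z4]),(z1,[y1,z0,y1,z0,y1,z1])],.ref k25 k0 [(z13,[z15,z8,z0,z0,y30]),(z13,[y6,z2,z39,z0,
    z12]),(z13,[y24,z8,z0,z39,z48]),(z13,[z12,y4,z0,z0,z15]),(z13,[z3,y1,z0,z0,y6])],.ref k25 k0 [(z2,[z3,z1,z0,z0,
    y3]),(z5,[y3,z1,z15,z0,z3]),(z5,[y12,z4,z0,z15,z12]),(z5,[z6,y2,z0,z0,z9]),(z10,[z3,y1,z0,z0,y3])],
    .ref k25 k0 [(z3,[z5,z3,z5,z5,z0,y5]),(z3,[y2,z0,z7,y2,z0,z2]),(z3,[y8,z0,y8,z1,z0,z8]),(z3,[z4,z0,z4,z4,z9,y4]),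
    (z3,[z1,z0,z1,z1,z0,y1])],.ref k25 k0 [(z7,[z15,z2]),(z7,[y6,z2,z21]),(z7,[y24,z8,z0,z21]),(z7,[z12,y4,z0,z0,
    z21]),(z7,[z3,y1])],.ref k25 k0 [(z2,[z5,z2,z5,z5,z5,y5]),(z1,[y1,z0,z2,y1,y1,z1]),(z1,[y4,z0,y4,y1,y4,z4]),(z1,
    [z2,z0,z2,z2,z5,y2]),(z2,[z1,z0,z1,z1,z1,y1])],.ref k25 k0 [(z1,[z3,z2,z6,z6,z6,y6]),(z5,[y6,y2,z3,y12,y12,z12]),
    (z5,[y24,y8,y48,y33,y48,z48]),(z5,[z12,z4,z24,z24,z39,y24]),(z5,[z3,z1,z6,z6,z6,y6])],.ref k25 k0 [(z2,[y5,z2,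
    z15]),(z1,[z1]),(z1,[z4,z0,y12,z3]),(z1,[y2,z0,z6,z0,z3]),(z2,[y1,z0,z3])],.ref k25 k0 [(z4,[y5,z4,z10,z5]),(z2,
    [z1,z0,z4,y1]),(z1,[z2,z0,y4,z1]),(z1,[y1,z0,z2,z1,z3]),(z4,[y1,z0,z2,z1])],.ref k25 k0 [(z1,[y5,z1,z10]),(z1,[z2,
    z0,y1]),(z1,[z8,z0,y16,z3]),(z1,[y4,z0,z8,z0,z3]),(z1,[y1,z0,z2])],.ref k25 k0 [(z4,[y15,y1,z15,y15,y15,z15]),(z2,
    [z3,z1,z3,z3,z3,y3]),(z1,[z6,z2,y6,z9,z6,y6]),(z1,[y3,y1,z3,y3,z0,z3]),(z4,[y3,y1,z3,y3,y3,z3])],.ref k25 k0 [(z2,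
    [y3,z1,z0,z0,y3,z3]),(z5,[z3,z1,z15,z0,z3,y3]),(z5,[z12,z4,z0,z15,z12,y12]),(z5,[y6,y2,z0,z0,z9,z6]),(z10,[y3,y1,
    z0,z0,y3,z3])],.ref k25 k0 [(z2,[z15,z7,z0,z15,z0,y15]),(z1,[y3,y1,z3,y3,z0,z3]),(z1,[y12,y4,z0,y9,z0,z12]),(z1,
    [z6,z2,z0,z6,z3,y6]),(z2,[z3,z1,z0,z3,z0,y3])],.ref k25 k0 [(z1,[y15,y4,z0,y15,y15,z15]),(z1,[z6,z2,z3,z6,z6,y6]),
    (z1,[z24,z8,z0,z27,z24,y24]),(z1,[y12,y4,z0,y12,y9,z12]),(z1,[y3,y1,z0,y3,y3,z3])],.ref k25 k0 [(z2,[y15,y8,y15,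
    y30,y30,z30]),(z1,[z3,z2,z6,z6,z6,y6]),(z1,[z12,z8,z12,z27,z24,y24]),(z1,[y6,y4,y6,y12,y9,z12]),(z2,[y3,y2,y3,y6,
    y6,z6])],.ref k25 k0 [(z1,[y1,z1,z0,z2]),(z5,[z2,z0,z15,y4]),(z5,[z8,z0,z0,y1]),(z5,[y4,z0,z0,z8,z15]),(z5,[y1,z0,
    z0,z2])],.ref k25 k0 [(z7,[y15,z2,y15,z0,y15,z15]),(z7,[z6,z2,z27,z0,z6,y6]),(z7,[z24,z8,z24,z21,z24,y24]),(z7,
    [y12,y4,y12,z0,z9,z12]),(z7,[y3,y1,y3,z0,y3,z3])],.ref k25 k0 [(z8,[y15,y2,y30,y15,y30,z30]),(z4,[z3,z2,z18,z3,z6,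
    y6]),(z1,[z3,z2,z6,z6,z6,y6]),(z2,[y3,y2,y6,y3,z0,z6]),(z8,[y3,y2,y6,y3,y6,z6])],.ref k25 k0 [(z4,[z15,z14,z30,
    z30,z15,y30]),(z2,[y3,y2,z0,y6,y3,z6]),(z1,[y6,y4,y12,y9,y6,z12]),(z1,[z3,z2,z6,z6,z6,y6]),(z4,[z3,z2,z6,z6,z3,
    y6])],.ref k25 k0 [(z1,[z15,z11,z30,z30,z30,y30]),(z1,[y6,y4,y9,y12,y12,z12]),(z1,[y24,y16,y48,y45,y48,z48]),(z1,
    [z12,z8,z24,z24,z27,y24]),(z1,[z3,z2,z6,z6,z6,y6])]]]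

theorem hB6_171_41 : blkB [0, 0, 0, 0, 0, 0] [] sp6 hS6_171 (pcls (n := 6) [0, 0, 0, 0, 0, 0]) hD6_171 560 41 hN6_171_41 = true := by
  decide +kernel

/-- nodes 504 to 515 -/
noncomputable def hN6_171_42 : List HM :=
  [.lp k0 [(nat_lit 964),(nat_lit 908),(nat_lit 982),(nat_lit 1010),(nat_lit 1008),(nat_lit 876)] [k23,k23,k51,k51,
    k14,k14,k0,k0,k1,k1,k67,k67] k0 [[k0,k0,k0,k8,k50,k6,k48,k0,k36,k0,k0,k0],[k44,k0,k0,k0,k0,k0,k0,k0,k28,k0,k0,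
    k112],[k0,k8,k0,k0,k0,k0,k0,k0,k0,k0,k0,k0],[k0,k0,k0,k0,k22,k22,k76,k0,k8,k0,k0,k0],[k0,k6,k22,k0,k0,k0,k0,k6,k0,
    k18,k26,k0],[k0,k50,k22,k0,k0,k0,k0,k0,k0,k14,k22,k0],[k0,k0,k0,k0,k0,k6,k0,k20,k0,k32,k0,k0],[k0,k48,k76,k0,k0,
    k0,k0,k0,k0,k12,k20,k0],[k0,k0,k0,k0,k14,k18,k12,k32,k0,k0,k0,k32],[k28,k36,k8,k0,k0,k0,k0,k0,k0,k0,k0,k8],[k112,
    k0,k0,k0,k0,k0,k0,k0,k8,k32,k0,k112],[k0,k0,k0,k0,k22,k26,k20,k0,k0,k0,k0,k0]] (nat_lit 2880) k5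
    [[(k10,(nat_lit 920)),(k2,(nat_lit 936)),(k3,(nat_lit 936)),(k4,(nat_lit 947)),(k11,(nat_lit 952)),(k7,
    (nat_lit 965)),(k9,(nat_lit 966)),(k5,(nat_lit 973)),(k6,(nat_lit 987)),(k8,(nat_lit 994)),(k0,(nat_lit 1076)),
    (k1,(nat_lit 1076))],[(k11,(nat_lit 884)),(k10,(nat_lit 920)),(k2,(nat_lit 928)),(k3,(nat_lit 936)),(k7,
    (nat_lit 937)),(k9,(nat_lit 938)),(k4,(nat_lit 967)),(k5,(nat_lit 973)),(k6,(nat_lit 987)),(k0,(nat_lit 1008)),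
    (k8,(nat_lit 1014)),(k1,(nat_lit 1076))],[(k10,(nat_lit 780)),(k3,(nat_lit 864)),(k11,(nat_lit 864)),(k2,
    (nat_lit 908)),(k0,(nat_lit 936)),(k1,(nat_lit 936)),(k5,(nat_lit 953)),(k9,(nat_lit 958)),(k7,(nat_lit 965)),(k8,
    (nat_lit 994)),(k4,(nat_lit 995)),(k6,(nat_lit 1007))],[(k10,(nat_lit 892)),(k11,(nat_lit 892)),(k2,
    (nat_lit 908)),(k3,(nat_lit 908)),(k0,(nat_lit 928)),(k1,(nat_lit 936)),(k5,(nat_lit 945)),(k9,(nat_lit 958)),(k8,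
    (nat_lit 966)),(k4,(nat_lit 967)),(k7,(nat_lit 981)),(k6,(nat_lit 1035))],[(k9,(nat_lit 919)),(k11,(nat_lit 921)),
    (k10,(nat_lit 929)),(k2,(nat_lit 945)),(k3,(nat_lit 953)),(k4,(nat_lit 960)),(k0,(nat_lit 973)),(k1,
    (nat_lit 973)),(k7,(nat_lit 974)),(k5,(nat_lit 982)),(k8,(nat_lit 995)),(k6,(nat_lit 996))],[(k11,(nat_lit 943)),
    (k1,(nat_lit 947)),(k10,(nat_lit 951)),(k5,(nat_lit 960)),(k0,(nat_lit 967)),(k2,(nat_lit 967)),(k8,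
    (nat_lit 977)),(k4,(nat_lit 982)),(k6,(nat_lit 990)),(k3,(nat_lit 995)),(k9,(nat_lit 995)),(k7,(nat_lit 996))],
    [(k0,(nat_lit 937)),(k11,(nat_lit 961)),(k1,(nat_lit 965)),(k3,(nat_lit 965)),(k10,(nat_lit 969)),(k5,
    (nat_lit 974)),(k2,(nat_lit 981)),(k8,(nat_lit 995)),(k4,(nat_lit 996)),(k6,(nat_lit 1010)),(k7,(nat_lit 1010)),
    (k9,(nat_lit 1015))],[(k11,(nat_lit 955)),(k10,(nat_lit 963)),(k8,(nat_lit 977)),(k0,(nat_lit 987)),(k1,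
    (nat_lit 987)),(k4,(nat_lit 990)),(k6,(nat_lit 990)),(k5,(nat_lit 996)),(k3,(nat_lit 1007)),(k9,(nat_lit 1009)),
    (k7,(nat_lit 1010)),(k2,(nat_lit 1035))],[(k5,(nat_lit 919)),(k0,(nat_lit 938)),(k10,(nat_lit 942)),(k2,
    (nat_lit 958)),(k3,(nat_lit 958)),(k1,(nat_lit 966)),(k11,(nat_lit 974)),(k4,(nat_lit 995)),(k8,(nat_lit 996)),
    (k6,(nat_lit 1009)),(k7,(nat_lit 1015)),(k9,(nat_lit 1028))],[(k10,(nat_lit 910)),(k11,(nat_lit 942)),(k2,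
    (nat_lit 966)),(k4,(nat_lit 977)),(k6,(nat_lit 977)),(k1,(nat_lit 994)),(k3,(nat_lit 994)),(k5,(nat_lit 995)),(k7,
    (nat_lit 995)),(k9,(nat_lit 996)),(k8,(nat_lit 1008)),(k0,(nat_lit 1014))],[(k3,(nat_lit 864)),(k10,
    (nat_lit 868)),(k11,(nat_lit 876)),(k0,(nat_lit 884)),(k2,(nat_lit 892)),(k5,(nat_lit 921)),(k8,(nat_lit 942)),
    (k4,(nat_lit 943)),(k1,(nat_lit 952)),(k6,(nat_lit 955)),(k7,(nat_lit 961)),(k9,(nat_lit 974))],[(k10,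
    (nat_lit 764)),(k3,(nat_lit 780)),(k11,(nat_lit 868)),(k2,(nat_lit 892)),(k8,(nat_lit 910)),(k0,(nat_lit 920)),
    (k1,(nat_lit 920)),(k5,(nat_lit 929)),(k9,(nat_lit 942)),(k4,(nat_lit 951)),(k6,(nat_lit 963)),(k7,
    (nat_lit 969))]]
    [[k1,k2,k0,k0,k0,k0],[k1,k1,k1,k0,k0,k0],[k1,k1,k0,k0,k1,k0],[k1,k1,k0,k0,k0,k1],[k1,k0,k1,k0,k0,k1],[k1,k0,k0,k1,
    k0,k1],[k1,k0,k0,k0,k1,k1],[k1,k0,k0,k0,k0,k2],[k0,k3,k0,k0,k0,k0],[k0,k2,k1,k0,k0,k0],[k0,k2,k0,k0,k1,k0],[k0,k2,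
    k0,k0,k0,k1],[k0,k1,k1,k0,k0,k1],[k0,k1,k0,k1,k0,k1],[k0,k1,k0,k0,k1,k1],[k0,k1,k0,k0,k0,k2],[k0,k0,k2,k0,k1,k0],
    [k0,k0,k2,k0,k0,k1],[k0,k0,k1,k0,k1,k1],[k0,k0,k1,k0,k0,k2],[k0,k0,k0,k1,k0,k2],[k0,k0,k0,k0,k1,k2],[k0,k0,k0,k0,
    k0,k3]]
    [.ref (nat_lit 439) k8 [(z1,[z0,z0,y4,z1]),(z1,[z0,y1,z1,y1,z1]),(z1,[z0,z0,z1]),(z1,[y2,z2,z5])],
    .ref (nat_lit 499) k8 [(z1,[z0,z0,y4,z1]),(z1,[z0,y1,z1,y1,z1]),(z1,[z0,z0,z1]),(z1,[y2,z2,y3,z2])],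
    .ref k113 k9 [(z1,[y5,z1,z5]),(z1,[y1,z0,z1]),(z1,[y4,y1,z3,y1,z1]),(z1,[z8,z0,y8,z1])],.ref k33 k7 [(z1,[y2,z2,
    z5]),(z1,[y8,z8,z8,z3]),(z1,[z4,y7,y7,y3,z3]),(z1,[z1,y1,y1])],.ref k33 k7 [(z1,[z2,y2,z3,y2]),(z1,[z8,y8,z0,y5]),
    (z1,[y4,z1,y3,z1,z3]),(z1,[y1,z1,z0,z1])],.ref k33 k7 [(z3,[y2,z0,z7,y2,z2]),(z3,[y8,z0,y8,z1,z8]),(z3,[z4,y9,y5,
    y5,z5]),(z3,[z1,z0,z1,z1,y1])],.ref k33 k7 [(z1,[y1,z1,z3]),(z1,[y4,z4,z0,z3]),(z1,[z2,y5,y3,y3,z3]),(z2,[z1,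
    y1])],.ref (nat_lit 499) k8 [(z1,[z0,z0,y4,z1]),(z1,[z0,y1,z1,y1,z1]),(z1,[z0,z0,z1]),(z1,[z2,y2,y5])],
    .ref k33 k7 [(z1,[z1]),(z1,[z4,z0,y12,z3]),(z1,[y2,y3,z3,y3,z3]),(z2,[y1,z0,z3])],.ref k33 k7 [(z2,[z1,z0,z4,y1]),
    (z1,[z2,z0,y4,z1]),(z1,[y1,y3,y1,y2,z3]),(z4,[y1,z0,z2,z1])],.ref k33 k7 [(z1,[z2,z0,y1]),(z1,[z8,z0,y16,z3]),(z1,
    [y4,y3,z5,y3,z3]),(z1,[y1,z0,z2])],.ref k113 k9 [(z1,[z5,y4,y10]),(z1,[z1,y1,y2]),(z1,[z4,y5,y9,y1,z1]),(z1,[y8,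
    z8,z16,z1])],.ref (nat_lit 500) k6 [(z1,[z1,z0,y1,y1]),(z1,[y1,z1,z1,z1]),(z1,[z0,z0,z1]),(z1,[z0,z0,z0,z1])],
    .ref (nat_lit 501) k8 [(z1,[z0,z0,y4,z1]),(z1,[z0,y1,z1,y1,z1]),(z1,[z0,z0,z1]),(z1,[z1,z1,y1,z1,y1])],
    .ref (nat_lit 439) k8 [(z1,[z0,z0,y4,z1]),(z1,[z0,y1,z1,y1,z1]),(z1,[z0,z0,z1]),(z1,[z2,z0,y1])],
    .ref (nat_lit 439) k8 [(z1,[z0,z0,y4,z1]),(z1,[z0,y1,z1,y1,z1]),(z1,[z0,z0,z1]),(z1,[z1])],.ref k33 k7 [(z5,[z2,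
    z0,z15,y4]),(z5,[z8,z0,z0,y1]),(z5,[y4,y15,y15,y7,z15]),(z5,[y1,z0,z0,z2])],.ref k102 k6 [(z1,[z1,z0,z0,y2]),(z1,
    [y1,z1,z0,z2]),(z1,[z0,z0,z1]),(z1,[z0,z0,z0,z1])],.ref (nat_lit 456) k6 [(z1,[z1,z0,z0,y1]),(z1,[y1,z1,z0,z1]),
    (z1,[z0,z0,z1]),(z1,[z0,z0,z0,z1])],.ref k113 k9 [(z2,[z5,y8,z0,y5]),(z2,[z1,y2,z0,y1]),(z1,[z2,y5,y1,y3,z1]),(z1,
    [y4,z8,z0,z5])],.ref (nat_lit 501) k8 [(z1,[z0,z0,y4,z1]),(z1,[z0,y1,z1,y1,z1]),(z1,[z0,z0,z1]),(z2,[z1,z1,y1,z1,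
    y1])],.ref (nat_lit 502) k8 [(z1,[z0,z0,y4,z1]),(z1,[z0,y1,z1,y1,z1]),(z1,[z0,z0,z1]),(z1,[z2,z0,y1])],
    .ref (nat_lit 503) k0 [(z1,[y1,z3]),(z1,[z0,z0,z1]),(z1,[z0,z0,z0,z1]),(z1,[z0,y1,y1,y1,z1])]],
    .base (.leafM k0 [k1,k2,k3,k4,k5,k0] [(z1,[y1,y1,z0,z0,z1])] []),
    .lp k0 [(nat_lit 46530052),(nat_lit 46225270),(nat_lit 52320910),(nat_lit 52016128),(nat_lit 54149760),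
    (nat_lit 40740480)] [(nat_lit 3809854),(nat_lit 3809854),(nat_lit 3962245),(nat_lit 3962245),(nat_lit 914425),
    (nat_lit 914425),(nat_lit 1066816),(nat_lit 1066816),k0,k0,(nat_lit 6704640),(nat_lit 6704640)] k0 [[k0,k0,
    (nat_lit 914346),k0,k0,k0,(nat_lit 1828692),(nat_lit 609564),k0,k0,k0,k0],[k0,k0,k0,k0,(nat_lit 1828692),
    (nat_lit 1828692),k0,k0,(nat_lit 914346),k0,k0,(nat_lit 6705204)],[k0,k0,k0,k0,(nat_lit 914346),(nat_lit 914346),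
    k0,k0,k0,(nat_lit 1828692),(nat_lit 7619550),(nat_lit 5790858)],[k0,(nat_lit 914346),(nat_lit 1828692),k0,k0,k0,
    (nat_lit 2743038),(nat_lit 1523910),k0,k0,k0,k0],[(nat_lit 1828692),k0,k0,(nat_lit 914346),k0,(nat_lit 3352602),
    k0,k0,k0,k0,(nat_lit 4876512),k0],[(nat_lit 1828692),k0,k0,(nat_lit 914346),k0,k0,(nat_lit 1219128),k0,k0,
    (nat_lit 10667370),(nat_lit 4876512),k0],[k0,(nat_lit 609564),(nat_lit 1523910),k0,k0,k0,k0,k0,(nat_lit 3352602),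
    (nat_lit 3352602),k0,k0],[k0,(nat_lit 1828692),(nat_lit 2743038),k0,(nat_lit 1219128),k0,k0,k0,k0,k0,
    (nat_lit 1523910),(nat_lit 6095640)],[k0,k0,k0,(nat_lit 1828692),(nat_lit 10667370),k0,k0,(nat_lit 3352602),k0,k0,
    (nat_lit 5790858),k0],[(nat_lit 914346),k0,k0,k0,k0,k0,k0,(nat_lit 3352602),k0,k0,k0,k0],[(nat_lit 6705204),k0,k0,
    (nat_lit 5790858),k0,k0,(nat_lit 6095640),k0,k0,k0,k0,k0],[k0,k0,k0,(nat_lit 7619550),(nat_lit 4876512),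
    (nat_lit 4876512),(nat_lit 1523910),k0,k0,(nat_lit 5790858),k0,k0]] (nat_lit 146295360) k5
    [[(k2,(nat_lit 38758111)),(k10,(nat_lit 43635266)),(k11,(nat_lit 43635266)),(k7,(nat_lit 44396578)),(k4,
    (nat_lit 44548969)),(k8,(nat_lit 44549048)),(k3,(nat_lit 46377661)),(k1,(nat_lit 46530052)),(k9,
    (nat_lit 48815996)),(k0,(nat_lit 53235256)),(k5,(nat_lit 55216339)),(k6,(nat_lit 55368730))],[(k10,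
    (nat_lit 43635266)),(k11,(nat_lit 43635266)),(k2,(nat_lit 46377661)),(k3,(nat_lit 46377661)),(k0,
    (nat_lit 46530052)),(k5,(nat_lit 48511135)),(k9,(nat_lit 48511214)),(k6,(nat_lit 48663526)),(k7,
    (nat_lit 51101782)),(k4,(nat_lit 51254173)),(k8,(nat_lit 51254252)),(k1,(nat_lit 53235256))],[(k10,
    (nat_lit 36777671)),(k11,(nat_lit 42568529)),(k3,(nat_lit 46225270)),(k0,(nat_lit 46377661)),(k1,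
    (nat_lit 46377661)),(k2,(nat_lit 47139616)),(k7,(nat_lit 47292007)),(k4,(nat_lit 47444398)),(k5,
    (nat_lit 49273090)),(k8,(nat_lit 50187515)),(k9,(nat_lit 50797079)),(k6,(nat_lit 50949391))],[(k10,
    (nat_lit 37692017)),(k1,(nat_lit 38758111)),(k11,(nat_lit 43482875)),(k0,(nat_lit 46377661)),(k3,
    (nat_lit 47139616)),(k2,(nat_lit 48053962)),(k7,(nat_lit 48206353)),(k4,(nat_lit 48358744)),(k8,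
    (nat_lit 48358823)),(k5,(nat_lit 49273090)),(k9,(nat_lit 51711425)),(k6,(nat_lit 51863737))],[(k11,
    (nat_lit 48359387)),(k0,(nat_lit 48511135)),(k2,(nat_lit 49273090)),(k3,(nat_lit 49273090)),(k5,
    (nat_lit 50492218)),(k9,(nat_lit 50492297)),(k6,(nat_lit 50644609)),(k7,(nat_lit 53082865)),(k4,
    (nat_lit 53235256)),(k8,(nat_lit 53235335)),(k10,(nat_lit 54150245)),(k1,(nat_lit 55216339))],[(k1,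
    (nat_lit 44548969)),(k3,(nat_lit 47444398)),(k2,(nat_lit 48358744)),(k4,(nat_lit 48968308)),(k0,
    (nat_lit 51254173)),(k10,(nat_lit 51407207)),(k7,(nat_lit 52168519)),(k5,(nat_lit 53235256)),(k8,
    (nat_lit 53235335)),(k9,(nat_lit 53235335)),(k6,(nat_lit 53387647)),(k11,(nat_lit 57198065))],[(k8,
    (nat_lit 42415574)),(k1,(nat_lit 44396578)),(k11,(nat_lit 46378304)),(k3,(nat_lit 47292007)),(k2,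
    (nat_lit 48206353)),(k0,(nat_lit 51101782)),(k10,(nat_lit 51254816)),(k9,(nat_lit 51863816)),(k6,
    (nat_lit 52016128)),(k4,(nat_lit 52168519)),(k5,(nat_lit 53082865)),(k7,(nat_lit 55368730))],[(k11,
    (nat_lit 43025702)),(k10,(nat_lit 47902214)),(k0,(nat_lit 48663526)),(k8,(nat_lit 49730342)),(k5,
    (nat_lit 50644609)),(k3,(nat_lit 50949391)),(k2,(nat_lit 51863737)),(k6,(nat_lit 52016128)),(k7,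
    (nat_lit 52016128)),(k9,(nat_lit 53082944)),(k4,(nat_lit 53387647)),(k1,(nat_lit 55368730))],[(k10,
    (nat_lit 41349480)),(k0,(nat_lit 48511214)),(k1,(nat_lit 48815996)),(k5,(nat_lit 50492297)),(k3,
    (nat_lit 50797079)),(k11,(nat_lit 50797722)),(k2,(nat_lit 51711425)),(k7,(nat_lit 51863816)),(k6,
    (nat_lit 53082944)),(k4,(nat_lit 53235335)),(k9,(nat_lit 54149760)),(k8,(nat_lit 57502362))],[(k7,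
    (nat_lit 42415574)),(k1,(nat_lit 44549048)),(k10,(nat_lit 47445120)),(k11,(nat_lit 47445120)),(k2,
    (nat_lit 48358823)),(k6,(nat_lit 49730342)),(k3,(nat_lit 50187515)),(k0,(nat_lit 51254252)),(k4,
    (nat_lit 53235335)),(k5,(nat_lit 53235335)),(k8,(nat_lit 54149760)),(k9,(nat_lit 57502362))],[(k11,
    (nat_lit 40740480)),(k3,(nat_lit 42568529)),(k6,(nat_lit 43025702)),(k2,(nat_lit 43482875)),(k0,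
    (nat_lit 43635266)),(k1,(nat_lit 43635266)),(k7,(nat_lit 46378304)),(k10,(nat_lit 46531338)),(k8,
    (nat_lit 47445120)),(k5,(nat_lit 48359387)),(k9,(nat_lit 50797722)),(k4,(nat_lit 57198065))],[(k3,
    (nat_lit 36777671)),(k2,(nat_lit 37692017)),(k10,(nat_lit 40740480)),(k9,(nat_lit 41349480)),(k0,
    (nat_lit 43635266)),(k1,(nat_lit 43635266)),(k11,(nat_lit 46531338)),(k8,(nat_lit 47445120)),(k6,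
    (nat_lit 47902214)),(k7,(nat_lit 51254816)),(k4,(nat_lit 51407207)),(k5,(nat_lit 54150245))]]
    [[k2,k1,k0,k0,k0,k0],[k2,k0,k0,k0,k0,k1],[k1,k2,k0,k0,k0,k0],[k1,k1,k1,k0,k0,k0],[k1,k1,k0,k1,k0,k0],[k1,k1,k0,k0,
    k1,k0],[k1,k1,k0,k0,k0,k1],[k1,k0,k1,k0,k0,k1],[k1,k0,k0,k1,k0,k1],[k1,k0,k0,k2,k0,k0],[k1,k0,k0,k1,k1,k0],[k2,k0,
    k0,k0,k1,k0],[k1,k0,k0,k0,k1,k1],[k1,k0,k0,k0,k0,k2],[k0,k3,k0,k0,k0,k0],[k0,k2,k1,k0,k0,k0],[k0,k2,k0,k0,k0,k1],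
    [k0,k1,k1,k0,k0,k1],[k0,k1,k0,k1,k1,k0],[k0,k1,k0,k1,k0,k1],[k0,k1,k0,k0,k1,k1],[k0,k1,k0,k0,k0,k2],[k0,k0,k1,k0,
    k1,k1],[k0,k0,k0,k1,k1,k1],[k0,k0,k0,k1,k0,k2],[k0,k0,k0,k0,k1,k2],[k0,k0,k0,k0,k0,k3]]
    [.ref k25 k0 [(z7,[z12,y3,y4]),(z7,[y3,z6,z8]),(z7,[y6,z12,z2,z21]),(z7,[y12,z24,z4,z0,z7]),(z7,[z6,y33,y9,y21,y7,
    z21])],.ref k25 k0 [(z3,[z4,z1]),(z3,[y1,z2,z3]),(z3,[y2,z4,z0,z9]),(z3,[y4,z8,z0,z0,z3]),(z3,[z2,y13,y3,y9,y3,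
    z9])],.ref k25 k0 [(z1,[z6,y3,y4]),(z2,[y3,z3,z4]),(z1,[y3,z3,z2,z3]),(z1,[y6,z6,z4,z0,z1]),(z1,[z3,y6,y3,y3,y1,
    z3])],.ref k25 k0 [(z1,[z12,y9,y4,y12]),(z1,[y3,z3,z2,z3]),(z1,[y6,z6,z2,z9]),(z1,[y12,z12,z4,z12,z1]),(z1,[z6,y9,
    y3,y9,y1,z3])],.ref k25 k0 [(z1,[y12,z15,z4,z0,z4]),(z1,[z3,y3,z0,z0,y1]),(z1,[z6,y6,y2,z3,y2]),(z1,[z12,y12,y4,
    z0,y3]),(z1,[y6,z3,z1,y3,z1,z3])],.ref k25 k0 [(z5,[z12,z15,z0,z12,z4,y12]),(z5,[y3,z0,z5,y3,y1,z3]),(z5,[y6,z0,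
    z0,z9,y2,z6]),(z5,[y12,z0,z0,y12,z1,z12]),(z5,[z6,y15,y5,y9,y3,z9])],.ref k25 k0 [(z1,[z3,z0,y1]),(z4,[y3,z3,z5]),
    (z2,[y3,z3,z1,z6]),(z1,[y3,z3,z1,z0,z1]),(z2,[z3,y9,y3,y6,y2,z6])],.ref k25 k0 [(z1,[z4,y1,z0,y4]),(z1,[y1,z1,z1,
    z1]),(z1,[y2,z2,z0,z5]),(z1,[y4,z4,z0,z4,z1]),(z1,[z2,y5,y1,y5,y1,z3])],.ref k25 k0 [(z1,[z12,y9,z0,z0,y4]),(z1,
    [y3,z3,z1,z0,z1]),(z1,[y6,z6,z0,z3,z2]),(z1,[y12,z12,z0,z0,z5]),(z1,[z6,y9,y1,y3,y3,z3])],.ref k25 k0 [(z1,[y3,z6,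
    z0,z0,z2]),(z4,[z3,y3,z4,z0,y2]),(z2,[z3,y3,z0,z6,y2]),(z1,[z3,y3,z0,z0,y1]),(z2,[y3,y3,y2,y6,z0,z6])],
    .ref k25 k0 [(z1,[z6,z3,z2,z6,z0,y6]),(z2,[y3,z0,z1,y3,z0,z3]),(z1,[y3,z0,y1,z0,z0,z3]),(z1,[y6,z0,y2,y6,z1,z6]),
    (z1,[z3,y3,z0,z0,y1])],.ref k25 k0 [(z5,[z6,z9,z2,z6,z2,y6]),(z10,[y3,z3,z9,y3,y1,z3]),(z5,[y3,z3,y1,z12,y1,z3]),
    (z5,[y6,z6,y2,y6,z3,z6]),(z5,[z3,y18,y4,y12,y4,z12])],.ref k25 k0 [(z7,[z12,z21,z4,z12,z4,y12]),(z7,[y3,z0,z6,y3,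
    y1,z3]),(z7,[y6,z0,y2,z15,y2,z6]),(z7,[y12,z0,y4,y12,z3,z12]),(z7,[z6,y21,y5,y15,y5,z15])],.ref k25 k0 [(z1,[z2,
    z1]),(z2,[y1,z1,z2]),(z1,[y1,z1,z0,z3]),(z1,[y2,z2,z0,z0,z1]),(z1,[z1,y4,y1,y3,y1,z3])],.ref k25 k0 [(z1,[y4,z3,
    z4]),(z1,[z1]),(z1,[z2,z0,y2,z3]),(z1,[z4,z0,y4,z0,z1]),(z1,[y2,y3,z1,y3,y1,z3])],.ref k25 k0 [(z1,[y3,z3,z2,z3]),
    (z4,[z3,z0,z2,y3]),(z2,[z3,z0,y2,z3]),(z1,[z3,z0,y2,y3,z1]),(z2,[y3,y6,z0,y3,y2,z6])],.ref k25 k0 [(z1,[y12,z3,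
    z8]),(z1,[z3,z0,y1]),(z1,[z6,z0,y4,z3]),(z1,[z12,z0,y8,z0,z1]),(z1,[y6,y3,z3,y3,y1,z3])],.ref k25 k0 [(z1,[y6,z3,
    z2,z6]),(z2,[z3,z0,z1,y3]),(z1,[z3,z0,y1]),(z1,[z6,z0,y2,y6,z1]),(z1,[y3,y3,z0,z0,y1,z3])],.ref k25 k0 [(z1,[y4,
    y1,z0,y4,z0,z4]),(z1,[z1,z1,z1,z1,z0,y1]),(z1,[z2,z2,z0,z5,z0,y2]),(z1,[z4,z4,z0,z4,z1,y4]),(z1,[y2,y5,y1,y5,y1,
    z5])],.ref k25 k0 [(z1,[y3,z3,z1,z0,z1]),(z4,[z3,z0,z3,z0,y1]),(z2,[z3,z0,y1,z6,y1]),(z1,[z3,z0,y1]),(z2,[y3,y6,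
    y1,y6,y1,z6])],.ref k25 k0 [(z1,[z6,z9,z0,z6,z2,y6]),(z2,[y3,y3,z2,y3,y1,z3]),(z1,[y3,y3,z0,z0,y1,z3]),(z1,[y6,y6,
    z0,y6,y1,z6]),(z1,[z3,z0,y1])],.ref k25 k0 [(z1,[z12,z3,y4]),(z1,[y3,z0,z2]),(z1,[y6,z0,z2,z3]),(z1,[y12,z0,z4,z0,
    z1]),(z1,[z6,y3,y3,y3,y1,z3])],.ref k25 k0 [(z1,[z12,z15,z4,z0,z4,y12]),(z1,[y3,y3,z0,z0,y1,z3]),(z1,[y6,y6,y2,z3,
    y2,z6]),(z1,[y12,y12,y4,z0,y3,z12]),(z1,[z6,z3,z1,y3,z1,y3])],.ref k25 k0 [(z1,[y12,y9,y4,y12,z0,z12]),(z1,[z3,z3,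
    z2,z3,z0,y3]),(z1,[z6,z6,z2,z9,z0,y6]),(z1,[z12,z12,z4,z12,z1,y12]),(z1,[y6,y9,y3,y9,y1,z9])],.ref k25 k0 [(z1,
    [y6,z3,z0,z0,z2]),(z2,[z3,z0,z2,z0,y1]),(z1,[z3,z0,z0,z3,y1]),(z1,[z6,z0,z0,z0,y1]),(z1,[y3,y3,y1,y3,z0,z3])],
    .ref k25 k0 [(z1,[z3,z6,z1,z3,z1,y3]),(z4,[y3,y3,z3,y3,y1,z3]),(z2,[y3,y3,y1,z3,y1,z3]),(z1,[y3,y3,y1,y3,z0,z3]),
    (z2,[z3,y3,y1,y3,y1,z3])],.ref k25 k0 [(z1,[z4,z3]),(z1,[y1,z0,z1]),(z1,[y2,z0,z0,z3]),(z1,[y4,z0,z0,z0,z1]),(z1,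
    [z2,y3,y1,y3,y1,z3])]],
    .base (.leafM k3 [k3,k4,k5,k0,k1,k2] [(z1,[z0,z0,y1,y1,z1])] []),
    .lp k0 [(nat_lit 244),k190,(nat_lit 256),(nat_lit 256),(nat_lit 262),(nat_lit 226)] [k9,k9,k38,k34,k3,k3,k3,k3,k0,
    k0,k18,k18] k0 [[k0,k0,k0,k24,k24,k18,k18,k0,k12,k0,k0,k0],[k12,k0,k0,k0,k0,k0,k0,k0,k0,k0,k24,k30],[k0,k24,k0,k0,
    k0,k0,k0,k0,k6,k12,k6,k0],[k0,k0,k0,k0,k6,k6,k0,k6,k0,k0,k0,k0],[k0,k18,k6,k0,k0,k0,k0,k0,k0,k0,k0,k0],[k0,k24,k6,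
    k0,k0,k0,k0,k0,k12,k12,k6,k0],[k0,k0,k6,k0,k0,k0,k0,k6,k18,k0,k0,k0],[k0,k18,k0,k0,k0,k0,k0,k0,k0,k0,k0,k0],[k0,
    k0,k0,k12,k12,k0,k0,k0,k0,k0,k42,k36],[k0,k12,k0,k6,k12,k0,k0,k18,k0,k0,k0,k0],[k30,k0,k0,k0,k0,k0,k0,k0,k0,k36,
    k0,k0],[k24,k0,k0,k6,k6,k0,k0,k0,k0,k42,k0,k0]] (nat_lit 720) k5
    [[(k3,k195),(k2,(nat_lit 209)),(k8,(nat_lit 211)),(k10,(nat_lit 235)),(k1,(nat_lit 244)),(k7,(nat_lit 244)),(k4,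
    (nat_lit 250)),(k5,(nat_lit 250)),(k6,(nat_lit 250)),(k9,(nat_lit 253)),(k11,(nat_lit 271)),(k0,(nat_lit 274))],
    [(k2,k191),(k3,(nat_lit 219)),(k11,(nat_lit 223)),(k7,(nat_lit 226)),(k4,(nat_lit 232)),(k9,(nat_lit 235)),(k5,
    (nat_lit 250)),(k6,(nat_lit 250)),(k8,(nat_lit 253)),(k0,(nat_lit 256)),(k10,(nat_lit 259)),(k1,(nat_lit 274))],
    [(k10,k180),(k3,k182),(k2,k190),(k1,k195),(k11,(nat_lit 210)),(k0,(nat_lit 219)),(k9,(nat_lit 228)),(k8,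
    (nat_lit 240)),(k6,(nat_lit 243)),(k7,(nat_lit 243)),(k4,(nat_lit 249)),(k5,(nat_lit 249))],[(k2,k186),(k3,k190),
    (k0,k191),(k11,(nat_lit 200)),(k10,(nat_lit 206)),(k1,(nat_lit 209)),(k8,(nat_lit 212)),(k5,(nat_lit 221)),(k6,
    (nat_lit 221)),(k4,(nat_lit 227)),(k7,(nat_lit 227)),(k9,(nat_lit 230))],[(k2,(nat_lit 221)),(k10,(nat_lit 247)),
    (k3,(nat_lit 249)),(k0,(nat_lit 250)),(k1,(nat_lit 250)),(k4,(nat_lit 250)),(k6,(nat_lit 250)),(k7,(nat_lit 250)),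
    (k11,(nat_lit 253)),(k5,(nat_lit 256)),(k9,(nat_lit 259)),(k8,(nat_lit 265))],[(k2,(nat_lit 227)),(k0,
    (nat_lit 232)),(k10,(nat_lit 247)),(k3,(nat_lit 249)),(k1,(nat_lit 250)),(k5,(nat_lit 250)),(k11,(nat_lit 253)),
    (k4,(nat_lit 256)),(k6,(nat_lit 256)),(k7,(nat_lit 256)),(k9,(nat_lit 259)),(k8,(nat_lit 271))],[(k0,
    (nat_lit 226)),(k2,(nat_lit 227)),(k11,(nat_lit 229)),(k10,(nat_lit 241)),(k3,(nat_lit 243)),(k1,(nat_lit 244)),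
    (k8,(nat_lit 247)),(k5,(nat_lit 250)),(k4,(nat_lit 256)),(k6,(nat_lit 256)),(k7,(nat_lit 256)),(k9,
    (nat_lit 259))],[(k2,(nat_lit 221)),(k11,(nat_lit 223)),(k10,(nat_lit 241)),(k3,(nat_lit 243)),(k0,(nat_lit 250)),
    (k1,(nat_lit 250)),(k5,(nat_lit 250)),(k6,(nat_lit 250)),(k4,(nat_lit 256)),(k7,(nat_lit 256)),(k8,(nat_lit 259)),
    (k9,(nat_lit 259))],[(k3,(nat_lit 228)),(k2,(nat_lit 230)),(k0,(nat_lit 235)),(k10,(nat_lit 244)),(k11,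
    (nat_lit 244)),(k1,(nat_lit 253)),(k4,(nat_lit 259)),(k5,(nat_lit 259)),(k6,(nat_lit 259)),(k7,(nat_lit 259)),(k9,
    (nat_lit 268)),(k8,(nat_lit 280))],[(k10,(nat_lit 208)),(k1,(nat_lit 211)),(k2,(nat_lit 212)),(k3,(nat_lit 240)),
    (k11,(nat_lit 244)),(k7,(nat_lit 247)),(k0,(nat_lit 253)),(k6,(nat_lit 259)),(k8,(nat_lit 262)),(k5,
    (nat_lit 265)),(k4,(nat_lit 271)),(k9,(nat_lit 280))],[(k2,(nat_lit 200)),(k3,(nat_lit 210)),(k0,(nat_lit 223)),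
    (k6,(nat_lit 223)),(k11,(nat_lit 226)),(k7,(nat_lit 229)),(k8,(nat_lit 244)),(k9,(nat_lit 244)),(k4,
    (nat_lit 253)),(k5,(nat_lit 253)),(k10,(nat_lit 268)),(k1,(nat_lit 271))],[(k3,k180),(k2,(nat_lit 206)),(k8,
    (nat_lit 208)),(k10,(nat_lit 226)),(k1,(nat_lit 235)),(k6,(nat_lit 241)),(k7,(nat_lit 241)),(k9,(nat_lit 244)),
    (k4,(nat_lit 247)),(k5,(nat_lit 247)),(k0,(nat_lit 259)),(k11,(nat_lit 268))]]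
    [[k2,k1,k0,k0,k0,k0],[k1,k2,k0,k0,k0,k0],[k1,k1,k1,k0,k0,k0],[k1,k1,k0,k1,k0,k0],[k1,k1,k0,k0,k1,k0],[k1,k1,k0,k0,
    k0,k1],[k1,k0,k0,k1,k0,k1],[k1,k0,k1,k0,k1,k0],[k1,k0,k0,k1,k1,k0],[k1,k0,k0,k0,k1,k1],[k0,k3,k0,k0,k0,k0],[k0,k2,
    k1,k0,k0,k0],[k0,k2,k0,k1,k0,k0],[k0,k2,k0,k0,k1,k0],[k0,k2,k0,k0,k0,k1],[k0,k1,k1,k0,k0,k1],[k0,k1,k0,k1,k1,k0],
    [k0,k1,k0,k1,k0,k1],[k0,k1,k0,k0,k1,k1],[k0,k1,k0,k0,k0,k2],[k0,k0,k0,k1,k1,k1],[k0,k0,k0,k1,k0,k2],[k0,k0,k0,k0,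
    k1,k2]]
    [.ref k25 k0 [(z1,[z3,y3,y1]),(z1,[y3,z6,z2]),(z2,[y3,z6,z1,z6]),(z2,[z3,y6,y1,z0,z2]),(z4,[y3,y6,y3,y12,y4,
    z12])],.ref k25 k0 [(z1,[y3,z6,z2]),(z1,[z3,y3,y1]),(z2,[z3,y3,y2,z6]),(z2,[y3,z3,z2,z0,z2]),(z4,[z3,y15,y6,y12,
    y4,z12])],.ref k25 k0 [(z1,[y6,z9,z2,z6]),(z1,[z6,y6,y1,y6]),(z1,[z3,y3,y1]),(z1,[y3,z3,z1,z3,z1]),(z2,[z3,y9,y3,
    y9,y2,z6])],.ref k25 k0 [(z1,[z6,y3,y2,z0,y2]),(z1,[y6,z6,z3,z0,z2]),(z1,[y3,z3,z1,z3,z1]),(z1,[z3,y3,y1]),(z2,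
    [y3,y3,y1,y6,y1,z6])],.ref k25 k0 [(z1,[y12,z3,z0,y12,y4,z12]),(z1,[z12,z0,z1,z12,z4,y12]),(z1,[z6,z0,z0,z9,z2,
    y6]),(z1,[y6,z0,z0,y6,y1,z6]),(z1,[z3,y3,y1])],.ref k25 k0 [(z1,[z12,y9,y4]),(z1,[y12,z12,z5]),(z1,[y6,z6,z2,z3]),
    (z1,[z6,y6,y2,z0,z1]),(z1,[y3,z0,z0,y3,y1,z3])],.ref k25 k0 [(z7,[z12,z9,z0,z0,y4]),(z7,[y12,z12,z7,z0,z4]),(z7,
    [y6,z6,z0,z21,z2]),(z7,[z6,y6,z0,z0,z5]),(z7,[y3,y18,y7,y21,y6,z21])],.ref k25 k0 [(z1,[z12,z3,z4,z0,z4,y12]),(z1,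
    [y12,z0,y3,z0,y4,z12]),(z1,[y6,z0,y2,z3,y2,z6]),(z1,[z6,z0,z2,z0,z3,y6]),(z1,[y3,y3,y2,y3,y2,z6])],
    .ref k25 k0 [(z5,[z12,z15,z4,z12,z0,y12]),(z5,[y12,z0,z1,y12,z0,z12]),(z5,[y6,z0,y2,z9,z0,z6]),(z5,[z6,z0,z2,z6,
    z5,y6]),(z5,[y3,y15,y6,y18,y5,z18])],.ref k25 k0 [(z1,[z3,z3,z1,z3,z1,y3]),(z1,[y3,z0,z0,y3,y1,z3]),(z2,[y3,z0,y1,
    z3,y1,z3]),(z2,[z3,z0,z1,z3,z3,y3]),(z4,[y3,y12,y5,y15,y5,z15])],.ref k25 k0 [(z1,[y1,z3,z1]),(z1,[z1]),(z2,[z1,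
    z0,y1,z6]),(z2,[y1,z0,z1,z0,z2]),(z4,[z1,y12,y5,y12,y4,z12])],.ref k25 k0 [(z5,[y6,z15,z4,z6]),(z5,[z6,z0,z1,y6]),
    (z5,[z3,z0,y2,z12]),(z5,[y3,z0,z2,z3,z5]),(z10,[z3,y30,y12,y33,y10,z30])],.ref k25 k0 [(z3,[y6,z9,z4,z0,z2]),(z3,
    [z6,z0,y1,z0,y2]),(z3,[z3,z0,y2,z9,y1]),(z3,[y3,z0,z2,z0,z4]),(z6,[z3,y18,y8,y18,y7,z18])],.ref k25 k0 [(z9,[y12,
    z15,z4,y12,y4,z12]),(z9,[z12,z12,z5,z12,z4,y12]),(z9,[z6,z6,y2,z33,z2,y6]),(z9,[y6,y6,z2,y6,z7,z6]),(z9,[z3,y24,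
    y10,y24,y8,z24])],.ref k25 k0 [(z7,[y12,z21,z8]),(z7,[z12,z0,y1]),(z7,[z6,z0,y4,z21]),(z7,[y6,z0,z4,z0,z7]),(z7,
    [z3,y21,y9,y21,y7,z21])],.ref k25 k0 [(z5,[y12,z15,z4,z12]),(z5,[z12,z0,z1,y12]),(z5,[z6,z0,y2,z9]),(z5,[y6,z0,z2,
    z6,z5]),(z5,[z3,y15,y6,y18,y5,z15])],.ref k25 k0 [(z1,[y4,y1,z0,y4,z0,z4]),(z1,[z4,z4,z1,z4,z0,y4]),(z1,[z2,z2,z0,
    z5,z0,y2]),(z1,[y2,y2,z0,y2,z1,z2]),(z1,[z1,y2,y1,y2,y1,z2])],.ref k25 k0 [(z1,[y12,z3,z4,z0,z4]),(z1,[z12,z0,y3,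
    z0,y4]),(z1,[z6,z0,y2,z3,y2]),(z1,[y6,z0,z2,z0,z3]),(z1,[z3,y3,y2,y3,y2,z3])],.ref k25 k0 [(z1,[y3,z0,z0,y3,y1,
    z3]),(z1,[z3,z3,z1,z3,z1,y3]),(z2,[z3,z3,z0,z9,z1,y3]),(z2,[y3,y3,z0,y3,z1,z3]),(z4,[z3,y9,y4,y9,y3,z9])],
    .ref k25 k0 [(z1,[y6,z3,z2]),(z1,[z6,z0,y1]),(z1,[z3,z0,y1,z3]),(z1,[y3,z0,z1,z0,z1]),(z2,[z3,y6,y3,y6,y2,z6])],
    .ref k25 k0 [(z1,[z6,z9,z2,z6,z0,y6]),(z1,[y6,y6,y1,y6,z0,z6]),(z1,[y3,y3,y1,z0,z0,z3]),(z1,[z3,z3,z1,z3,z1,y3]),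
    (z2,[y3,y9,y3,y9,y2,z9])],.ref k25 k0 [(z1,[z3,z3,z0,z0,y1]),(z1,[y3,z0,z1,z0,z1]),(z2,[y3,z0,z0,z6,z1]),(z2,[z3,
    z0,z0,z0,z1]),(z4,[y3,y12,y4,y12,y3,z12])],.ref k25 k0 [(z1,[z12,z15,z4,z12,z4,y12]),(z1,[y12,y12,y3,y12,y4,z12]),
    (z1,[y6,y6,y2,y3,y2,z6]),(z1,[z6,z6,z2,z6,z3,y6]),(z1,[y3,y6,y2,y6,y2,z6])]],
    .base (.leafM k3 [k0,k1,k2,k3,k4,k5] [(z1,[y1,z0,y1,z0,z1])] []),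
    .lp k0 [k78,k70,k88,k82,k86,k74] [k5,k5,k14,k4,k0,k0,k3,k3,k1,k1,k4,k10] k0 [[k0,k0,k0,k0,k6,k4,k6,k6,k4,k0,k0,
    k0],[k20,k0,k0,k0,k0,k0,k0,k0,k0,k0,k0,k20],[k0,k0,k0,k0,k0,k4,k0,k0,k0,k6,k6,k2],[k0,k0,k0,k0,k0,k2,k4,k0,k0,k0,
    k0,k0],[k0,k4,k2,k4,k0,k0,k0,k0,k0,k0,k2,k0],[k0,k6,k0,k0,k0,k0,k0,k2,k0,k12,k2,k0],[k0,k6,k0,k0,k2,k0,k0,k0,k0,
    k2,k8,k0],[k0,k6,k4,k0,k0,k0,k0,k0,k0,k2,k8,k0],[k0,k0,k0,k6,k12,k0,k2,k2,k0,k0,k0,k0],[k0,k4,k0,k0,k0,k0,k0,k0,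
    k4,k0,k0,k0],[k20,k0,k0,k2,k0,k0,k0,k0,k0,k0,k0,k14],[k0,k0,k0,k6,k2,k2,k8,k8,k0,k0,k0,k0]] (nat_lit 240) k5
    [[(k2,k63),(k6,k72),(k11,k73),(k9,k74),(k7,k78),(k3,k79),(k10,k79),(k4,k81),(k8,k82),(k5,k85),(k1,k92),(k0,k98)],
    [(k2,k69),(k11,k69),(k6,k74),(k7,k74),(k9,k76),(k3,k79),(k4,k79),(k10,k79),(k8,k82),(k5,k83),(k0,k98),(k1,k98)],
    [(k3,k60),(k10,k60),(k2,k70),(k11,k74),(k0,k79),(k1,k79),(k5,k84),(k7,k85),(k6,k87),(k8,k87),(k9,k89),(k4,k90)],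
    [(k2,k60),(k1,k63),(k11,k64),(k8,k67),(k10,k68),(k0,k69),(k3,k70),(k4,k70),(k7,k73),(k9,k73),(k5,k74),(k6,k75)],
    [(k2,k74),(k0,k83),(k9,k83),(k3,k84),(k11,k84),(k1,k85),(k6,k85),(k4,k86),(k8,k87),(k5,k88),(k7,k89),(k10,k90)],
    [(k2,k70),(k0,k79),(k1,k81),(k6,k85),(k7,k85),(k5,k86),(k10,k86),(k8,k87),(k4,k88),(k9,k89),(k3,k90),(k11,k90)],
    [(k8,k72),(k2,k73),(k0,k74),(k11,k75),(k1,k78),(k6,k80),(k7,k82),(k10,k83),(k9,k84),(k3,k85),(k4,k85),(k5,k89)],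
    [(k1,k72),(k0,k74),(k2,k75),(k11,k77),(k7,k80),(k6,k82),(k8,k82),(k9,k84),(k4,k85),(k5,k85),(k3,k87),(k10,k89)],
    [(k2,k73),(k1,k74),(k0,k76),(k11,k79),(k5,k83),(k6,k84),(k7,k84),(k8,k84),(k9,k86),(k3,k89),(k4,k89),(k10,k91)],
    [(k2,k67),(k7,k72),(k11,k77),(k0,k82),(k1,k82),(k6,k82),(k10,k83),(k9,k84),(k3,k87),(k4,k87),(k5,k87),(k8,k90)],
    [(k2,k64),(k11,k64),(k0,k69),(k1,k73),(k3,k74),(k10,k74),(k7,k75),(k6,k77),(k8,k77),(k9,k79),(k5,k84),(k4,k90)],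
    [(k3,k60),(k10,k66),(k2,k68),(k11,k74),(k0,k79),(k1,k79),(k7,k83),(k8,k83),(k4,k86),(k6,k89),(k5,k90),(k9,k91)]]
    [[k1,k2,k0,k0,k0,k0],[k1,k1,k1,k0,k0,k0],[k1,k1,k0,k1,k0,k0],[k1,k1,k0,k0,k1,k0],[k1,k1,k0,k0,k0,k1],[k1,k0,k0,k2,
    k0,k0],[k1,k0,k0,k1,k1,k0],[k1,k0,k0,k1,k0,k1],[k1,k0,k0,k0,k1,k1],[k1,k0,k0,k0,k0,k2],[k0,k3,k0,k0,k0,k0],[k0,k2,
    k1,k0,k0,k0],[k0,k2,k0,k1,k0,k0],[k0,k2,k0,k0,k1,k0],[k0,k2,k0,k0,k0,k1],[k0,k1,k1,k0,k0,k1],[k0,k1,k0,k1,k1,k0],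
    [k0,k1,k0,k1,k0,k1],[k0,k1,k0,k0,k1,k1],[k0,k1,k0,k0,k0,k2],[k0,k0,k0,k2,k1,k0],[k0,k0,k0,k1,k0,k2],[k0,k0,k0,k0,
    k1,k2],[k0,k0,k0,k0,k0,k3]]
    [.ref (nat_lit 259) k4 [(z1,[z0,y1,y1,y1,z1]),(z1,[y1,z1,z2]),(z1,[z0,z0,z0,z1]),(z1,[z2,y2,y1])],
    .ref (nat_lit 505) k4 [(z1,[z0,y1,y1,y1,z1]),(z1,[y1,z1,z1,z1]),(z1,[z0,z0,z0,z1]),(z1,[z2,y2,y1,y2])],
    .ref k150 k2 [(z1,[z1,y2,y1]),(z1,[z2,y2,y2,z3]),(z1,[z0,z2,z1]),(z1,[y1,z1,z1])],.ref k113 k5 [(z1,[z4,y1,y1,z3,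
    y3]),(z1,[z1,z0,z0,z1,y1]),(z1,[z3,z1,z0,z3,y3]),(z1,[y6,z0,z1,y6,z6])],.ref (nat_lit 394) k4 [(z1,[z0,y1,y1,y1,
    z1]),(z1,[y1,z1,z1]),(z1,[z0,z0,z0,z1]),(z1,[z2,y2,y1])],.ref (nat_lit 506) k4 [(z1,[z0,y1,y1,y1,z1]),(z1,[z1,
    y1]),(z1,[z0,z0,z0,z1]),(z1,[y2,z2,z3])],.ref (nat_lit 507) k4 [(z1,[z0,y1,y1,y1,z1]),(z1,[z1,z0,z1,z1,y1]),(z1,
    [z0,z0,z0,z1]),(z1,[y1,z0,z0,y1,z1])],.ref (nat_lit 394) k4 [(z1,[z0,y1,y1,y1,z1]),(z2,[z1,y1]),(z1,[z0,z0,z0,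
    z1]),(z1,[y1,z1,z1])],.ref (nat_lit 499) k3 [(z1,[z1,z0,z1,y3,y1]),(z1,[z0,y1,y1,z1,z1]),(z1,[z0,z0,z0,z1]),(z1,
    [z2,z2,z2,y3,y2])],.ref (nat_lit 505) k4 [(z1,[z0,y1,y1,y1,z1]),(z1,[z1,y1]),(z1,[z0,z0,z0,z1]),(z1,[y2,z2,z1])],
    .ref (nat_lit 259) k4 [(z1,[z0,y1,y1,y1,z1]),(z2,[y1,z0,z3]),(z1,[z0,z0,z0,z1]),(z1,[z1])],
    .ref (nat_lit 507) k4 [(z1,[z0,y1,y1,y1,z1]),(z2,[y1,z0,z2,z1]),(z1,[z0,z0,z0,z1]),(z2,[z1,z0,z0,y1])],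
    .ref (nat_lit 508) k4 [(z1,[z0,y1,y1,y1,z1]),(z1,[y1,z0,z2]),(z1,[z0,z0,z0,z1]),(z1,[z2,z0,y1])],
    .ref (nat_lit 394) k4 [(z1,[z0,y1,y1,y1,z1]),(z4,[y1,y1,z1,y1,z1]),(z1,[z0,z0,z0,z1]),(z2,[z1,z1,z1,z1,y1])],
    .ref k114 k9 [(z1,[z1,y4,y2]),(z1,[z4,y17,y9,y1,z1]),(z1,[y3,z11,z6]),(z1,[y2,z8,z4,z1])],
    .ref (nat_lit 507) k4 [(z1,[z0,y1,y1,y1,z1]),(z1,[y1,z0,z1,z1]),(z1,[z0,z0,z0,z1]),(z1,[z1,z0,z0,y1])],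
    .ref (nat_lit 394) k4 [(z1,[z0,y1,y1,y1,z1]),(z1,[y1,y1,z0,y1,z1]),(z1,[z0,z0,z0,z1]),(z1,[z2,z2,z1,z2,y2])],
    .ref (nat_lit 505) k4 [(z1,[z0,y1,y1,y1,z1]),(z1,[y1,z0,z1]),(z1,[z0,z0,z0,z1]),(z1,[z2,z0,y1])],
    .ref (nat_lit 509) k1 [(z1,[z2,z2,z0,z3,y2]),(z1,[z6,z6,z1,z6,y6]),(z1,[y3,y2,z0,y3,z3]),(z1,[y1,y1,z0,y1,z1])],
    .ref (nat_lit 394) k4 [(z1,[z0,y1,y1,y1,z1]),(z2,[y1,z0,z1]),(z1,[z0,z0,z0,z1]),(z1,[z1])],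
    .ref (nat_lit 394) k4 [(z1,[z0,y1,y1,y1,z1]),(z2,[z1,z1,z1,z1,y1]),(z1,[z0,z0,z0,z1]),(z1,[y1,y1,z0,y1,z1])],
    .ref (nat_lit 394) k4 [(z1,[z0,y1,y1,y1,z1]),(z1,[z1]),(z1,[z0,z0,z0,z1]),(z1,[y2,z0,z1])],.ref k150 k2 [(z2,[y1,
    y3,y1,y1,z1]),(z1,[y1,y1,y1,z2,z1]),(z1,[z0,z2,z1]),(z2,[z1,z1,z1,z1,y1])],.ref k150 k2 [(z1,[y1,y1]),(z1,[y2,z0,
    z0,z3]),(z1,[z0,z2,z1]),(z1,[z1])]],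
    .lp k0 [(nat_lit 314),(nat_lit 306),(nat_lit 316),(nat_lit 328),(nat_lit 332),(nat_lit 320)] [k9,k9,k13,k13,k8,k8,
    k2,k2,k0,k0,k6,k6] k0 [[k0,k4,k42,k0,k0,k0,k0,k0,k16,k0,k0,k38],[k0,k0,k38,k0,k58,k4,k0,k0,k0,k0,k0,k62],[k0,k0,
    k0,k0,k60,k12,k0,k0,k0,k0,k8,k56],[k38,k42,k0,k0,k0,k0,k0,k12,k0,k0,k0,k0],[k4,k0,k0,k12,k0,k0,k0,k0,k0,k4,k4,k0],
    [k58,k0,k0,k60,k0,k0,k0,k0,k0,k4,k4,k0],[k0,k0,k12,k0,k0,k0,k0,k0,k0,k0,k0,k4],[k0,k0,k0,k0,k0,k0,k0,k0,k0,k0,k0,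
    k12],[k0,k0,k0,k0,k4,k4,k0,k0,k0,k0,k0,k0],[k0,k16,k0,k0,k0,k0,k0,k0,k0,k0,k0,k0],[k62,k38,k0,k56,k0,k0,k12,k4,k0,
    k0,k0,k0],[k0,k0,k0,k8,k4,k4,k0,k0,k0,k0,k0,k0]] (nat_lit 960) k5
    [[(k2,(nat_lit 302)),(k4,(nat_lit 311)),(k1,(nat_lit 314)),(k7,(nat_lit 317)),(k10,(nat_lit 317)),(k11,
    (nat_lit 317)),(k8,(nat_lit 323)),(k9,(nat_lit 327)),(k6,(nat_lit 333)),(k3,(nat_lit 348)),(k5,(nat_lit 371)),(k0,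
    (nat_lit 376))],[(k5,(nat_lit 273)),(k10,(nat_lit 279)),(k11,(nat_lit 301)),(k0,(nat_lit 310)),(k3,(nat_lit 310)),
    (k6,(nat_lit 321)),(k8,(nat_lit 323)),(k9,(nat_lit 323)),(k7,(nat_lit 325)),(k2,(nat_lit 348)),(k4,(nat_lit 373)),
    (k1,(nat_lit 376))],[(k10,(nat_lit 251)),(k7,(nat_lit 259)),(k5,(nat_lit 273)),(k4,(nat_lit 307)),(k0,
    (nat_lit 310)),(k3,(nat_lit 310)),(k11,(nat_lit 313)),(k6,(nat_lit 317)),(k9,(nat_lit 319)),(k8,(nat_lit 335)),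
    (k1,(nat_lit 348)),(k2,(nat_lit 348))],[(k7,(nat_lit 257)),(k10,(nat_lit 257)),(k4,(nat_lit 299)),(k1,
    (nat_lit 302)),(k2,(nat_lit 306)),(k5,(nat_lit 311)),(k11,(nat_lit 313)),(k6,(nat_lit 317)),(k8,(nat_lit 319)),
    (k9,(nat_lit 331)),(k0,(nat_lit 348)),(k3,(nat_lit 348))],[(k0,(nat_lit 273)),(k3,(nat_lit 273)),(k6,
    (nat_lit 310)),(k2,(nat_lit 311)),(k5,(nat_lit 316)),(k11,(nat_lit 318)),(k8,(nat_lit 324)),(k9,(nat_lit 324)),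
    (k10,(nat_lit 326)),(k7,(nat_lit 334)),(k1,(nat_lit 371)),(k4,(nat_lit 376))],[(k2,(nat_lit 299)),(k3,
    (nat_lit 307)),(k1,(nat_lit 311)),(k4,(nat_lit 316)),(k8,(nat_lit 320)),(k6,(nat_lit 322)),(k7,(nat_lit 322)),
    (k10,(nat_lit 322)),(k11,(nat_lit 322)),(k9,(nat_lit 324)),(k0,(nat_lit 373)),(k5,(nat_lit 376))],[(k2,
    (nat_lit 257)),(k3,(nat_lit 259)),(k1,(nat_lit 317)),(k4,(nat_lit 322)),(k0,(nat_lit 325)),(k8,(nat_lit 326)),(k6,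
    (nat_lit 328)),(k7,(nat_lit 328)),(k10,(nat_lit 328)),(k11,(nat_lit 328)),(k9,(nat_lit 330)),(k5,(nat_lit 334))],
    [(k5,(nat_lit 310)),(k2,(nat_lit 317)),(k3,(nat_lit 317)),(k10,(nat_lit 320)),(k0,(nat_lit 321)),(k4,
    (nat_lit 322)),(k11,(nat_lit 324)),(k6,(nat_lit 328)),(k7,(nat_lit 328)),(k8,(nat_lit 330)),(k9,(nat_lit 330)),
    (k1,(nat_lit 333))],[(k10,(nat_lit 314)),(k3,(nat_lit 319)),(k0,(nat_lit 323)),(k4,(nat_lit 324)),(k5,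
    (nat_lit 324)),(k11,(nat_lit 326)),(k1,(nat_lit 327)),(k6,(nat_lit 330)),(k7,(nat_lit 330)),(k2,(nat_lit 331)),
    (k8,(nat_lit 332)),(k9,(nat_lit 332))],[(k2,(nat_lit 319)),(k4,(nat_lit 320)),(k0,(nat_lit 323)),(k1,
    (nat_lit 323)),(k5,(nat_lit 324)),(k7,(nat_lit 326)),(k10,(nat_lit 326)),(k11,(nat_lit 326)),(k6,(nat_lit 330)),
    (k8,(nat_lit 332)),(k9,(nat_lit 332)),(k3,(nat_lit 335))],[(k0,(nat_lit 301)),(k2,(nat_lit 313)),(k3,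
    (nat_lit 313)),(k1,(nat_lit 317)),(k5,(nat_lit 318)),(k10,(nat_lit 320)),(k11,(nat_lit 320)),(k4,(nat_lit 322)),
    (k6,(nat_lit 324)),(k8,(nat_lit 326)),(k9,(nat_lit 326)),(k7,(nat_lit 328))],[(k3,(nat_lit 251)),(k2,
    (nat_lit 257)),(k0,(nat_lit 279)),(k9,(nat_lit 314)),(k1,(nat_lit 317)),(k6,(nat_lit 320)),(k10,(nat_lit 320)),
    (k11,(nat_lit 320)),(k4,(nat_lit 322)),(k5,(nat_lit 326)),(k8,(nat_lit 326)),(k7,(nat_lit 328))]]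
    [[k2,k0,k0,k0,k0,k1],[k1,k1,k1,k0,k0,k0],[k1,k1,k0,k1,k0,k0],[k1,k1,k0,k0,k1,k0],[k1,k1,k0,k0,k0,k1],[k1,k0,k1,k1,
    k0,k0],[k1,k0,k1,k0,k1,k0],[k1,k0,k1,k0,k0,k1],[k1,k0,k0,k1,k0,k1],[k1,k0,k0,k0,k1,k1],[k1,k0,k0,k0,k0,k2],[k0,k2,
    k1,k0,k0,k0],[k0,k2,k0,k1,k0,k0],[k0,k2,k0,k0,k0,k1],[k0,k1,k2,k0,k0,k0],[k0,k1,k1,k1,k0,k0],[k0,k1,k1,k0,k1,k0],
    [k0,k1,k1,k0,k0,k1],[k0,k1,k0,k2,k0,k0],[k0,k1,k0,k1,k0,k1],[k0,k1,k0,k1,k1,k0],[k0,k1,k0,k0,k1,k1],[k0,k1,k0,k0,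
    k0,k2],[k0,k0,k1,k0,k1,k1]]
    [.ref (nat_lit 494) k6 [(z1,[y1,z2]),(z1,[z1,y1]),(z1,[z0,z0,z1])],.ref (nat_lit 495) k3 [(z1,[z0,y1,y1,z1]),(z1,
    [z0,z0,z1]),(z1,[y2,z1,z0,z1])],.ref (nat_lit 496) k8 [(z1,[y2,y1,y1,z1]),(z1,[z1]),(z1,[z0,z0,z1])],
    .ref (nat_lit 497) k6 [(z1,[y1,z1,z1]),(z1,[z1,z0,y1]),(z1,[z0,z0,z1])],.ref (nat_lit 426) k0 [(z1,[z1,z0,y1]),
    (z1,[z0,z0,z1]),(z1,[y2,z1,z1,z1])],.ref (nat_lit 427) k0 [(z1,[z1,z1,z1,y1]),(z1,[y2,z0,y1,z2]),(z1,[z0,y1,y1,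
    z1])],.ref (nat_lit 498) k0 [(z1,[y1,z1,y1,z1]),(z1,[z0,z0,z1]),(z1,[z2,y1,z1,y1])],.ref (nat_lit 426) k0 [(z1,
    [y1,z1,y1,z1]),(z1,[z0,z0,z1]),(z1,[z2,y1,z1,y1])],.ref k11 k4 [(z1,[y1,y1]),(z1,[z1]),(z1,[y2,y1,y1,z1])],
    .ref k16 k7 [(z1,[y2,z0,z1]),(z1,[z2,z1,y1,z1]),(z1,[y1,y1])],.ref (nat_lit 495) k3 [(z1,[z0,y1,y1,z1]),(z1,[z0,
    z0,z1]),(z1,[z2,y1,z0,y1])],.ref k16 k7 [(z1,[z1,y1,z0,y1]),(z1,[y1,z2,z0,z2]),(z2,[z1,y3,y1,y1])],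
    .ref (nat_lit 504) k0 [(z1,[z1,z1,y2]),(z1,[z0,z0,z1]),(z1,[y2,y1,z3,z1])],.ref (nat_lit 510) k2 [(z1,[z1,y1,y2]),
    (z1,[y2,z1,z3,z1]),(z1,[z0,z0,z1])],.ref k11 k4 [(z2,[z1,y2,z1,y2]),(z2,[y1,z0,y1,z2]),(z1,[z1,y1,z0,y1])],
    .ref k16 k7 [(z1,[z2,z0,z1,y2]),(z1,[y2,z1,y1,z3]),(z1,[z1,y1,z0,y1])],.ref k11 k4 [(z1,[z1,y1,z0,y1]),(z1,[y1,z0,
    z0,z1]),(z1,[z2,y1,y1,y1])],.ref (nat_lit 494) k6 [(z1,[z1,z1,z0,y1]),(z1,[y1,z0,z0,z1]),(z1,[z0,z0,z1])],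
    .ref (nat_lit 426) k0 [(z2,[z1,z2,y1]),(z1,[z0,z0,z1]),(z1,[y1,y1,z0,z1])],.ref (nat_lit 498) k0 [(z1,[z1,z1,y1]),
    (z1,[z0,z0,z1]),(z1,[y2,y1,z1,z1])],.ref (nat_lit 426) k0 [(z1,[z1,z1,y1]),(z1,[z0,z0,z1]),(z1,[y2,y1,z1,z1])],
    .ref (nat_lit 427) k0 [(z1,[y1,z1,z1]),(z1,[z2,z0,y1]),(z1,[z0,y1,y1,z1])],.ref (nat_lit 427) k0 [(z2,[y1,z2,z1]),
    (z1,[z1]),(z1,[z0,y1,y1,z1])],.ref (nat_lit 496) k8 [(z1,[z2,y1,y1,y1]),(z1,[y1,z0,z0,z1]),(z1,[z0,z0,z1])]],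
    .base (.leafM k0 [k2,k3,k4,k5,k0,k1] [(z1,[y1,y1,y1,z1])] []),
    .base (.leafM k1 [k0,k1,k2,k3,k4,k5] [(z4,[y1,z0,y1,z4]),(z4,[z1,z0,z1])] []),
    .base (.leafM k3 [k2,k3,k4,k5,k0,k1] [(z2,[z0,y1,y1,z2])] []),
    .base (.leafM k0 [k2,k3,k4,k5,k0,k1] [(z2,[y2,y1,y1,z2])] [])]

theorem hB6_171_42 : blkB [0, 0, 0, 0, 0, 0] [] sp6 hS6_171 (pcls (n := 6) [0, 0, 0, 0, 0, 0]) hD6_171 560 42 hN6_171_42 = true := by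
  decide +kernel

/-- nodes 516 to 527 -/
noncomputable def hN6_171_43 : List HM :=
  [.base (.leafM k1 [k0,k1,k2,k3,k4,k5] [(z1,[z0,z1,z0,z1]),(z1,[z0,y1,z0,y1,z1])] []),
    .lp k0 [k80,k68,k86,k82,k86,k76] [k3,k3,k9,k9,k0,k0,k2,k2,k0,k0,k5,k5] k0 [[k0,k0,k0,k4,k4,k4,k4,k0,k0,k0,k0,k0],
    [k2,k0,k0,k0,k0,k0,k0,k0,k0,k0,k8,k6],[k0,k4,k0,k0,k0,k0,k0,k0,k0,k2,k4,k0],[k0,k0,k0,k0,k0,k0,k0,k0,k0,k0,k0,k0],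
    [k0,k4,k0,k0,k0,k2,k0,k0,k0,k0,k2,k2],[k0,k4,k0,k0,k0,k0,k0,k0,k0,k2,k0,k0],[k0,k0,k0,k0,k0,k0,k0,k2,k2,k0,k0,k0],
    [k0,k4,k0,k0,k0,k0,k0,k0,k0,k0,k0,k0],[k0,k0,k0,k2,k2,k0,k0,k0,k0,k0,k8,k10],[k0,k0,k0,k0,k0,k0,k0,k2,k0,k0,k0,
    k0],[k6,k0,k0,k0,k0,k2,k0,k0,k0,k10,k0,k2],[k8,k0,k0,k4,k0,k2,k0,k0,k0,k8,k0,k0]] (nat_lit 240) k5
    [[(k3,k66),(k2,k70),(k8,k75),(k10,k78),(k4,k81),(k6,k81),(k1,k82),(k5,k83),(k7,k83),(k9,k83),(k0,k86),(k11,k88)],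
    [(k2,k70),(k3,k74),(k7,k77),(k11,k78),(k4,k79),(k9,k79),(k6,k81),(k0,k82),(k5,k83),(k8,k83),(k1,k86),(k10,k86)],
    [(k1,k66),(k3,k66),(k10,k66),(k2,k68),(k11,k72),(k0,k74),(k8,k77),(k9,k77),(k6,k79),(k7,k79),(k4,k81),(k5,k81)],
    [(k2,k68),(k3,k68),(k0,k70),(k1,k70),(k10,k72),(k11,k72),(k6,k75),(k7,k75),(k8,k75),(k4,k77),(k5,k77),(k9,k77)],
    [(k2,k77),(k3,k81),(k0,k83),(k1,k83),(k11,k83),(k6,k84),(k7,k84),(k10,k85),(k4,k86),(k5,k86),(k8,k86),(k9,k86)],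
    [(k2,k77),(k0,k79),(k10,k79),(k1,k81),(k3,k81),(k11,k83),(k4,k84),(k6,k84),(k7,k84),(k5,k86),(k8,k86),(k9,k86)],
    [(k2,k75),(k0,k77),(k3,k79),(k11,k79),(k10,k81),(k6,k82),(k8,k82),(k1,k83),(k4,k84),(k5,k84),(k7,k84),(k9,k84)],
    [(k2,k75),(k11,k77),(k3,k79),(k10,k79),(k6,k80),(k0,k81),(k1,k81),(k7,k82),(k4,k84),(k5,k84),(k8,k84),(k9,k84)],
    [(k2,k77),(k3,k77),(k0,k79),(k10,k81),(k11,k81),(k1,k83),(k6,k84),(k7,k84),(k4,k86),(k5,k86),(k8,k88),(k9,k88)],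
    [(k10,k71),(k1,k75),(k2,k75),(k3,k77),(k11,k81),(k7,k82),(k0,k83),(k6,k84),(k4,k86),(k5,k86),(k8,k86),(k9,k88)],
    [(k2,k72),(k3,k72),(k11,k76),(k6,k77),(k0,k78),(k7,k79),(k8,k81),(k9,k81),(k4,k83),(k5,k83),(k10,k84),(k1,k88)],
    [(k3,k66),(k8,k71),(k2,k72),(k10,k74),(k1,k78),(k4,k79),(k6,k79),(k7,k81),(k9,k81),(k11,k84),(k5,k85),(k0,k86)]]
    [[k2,k1,k0,k0,k0,k0],[k1,k2,k0,k0,k0,k0],[k1,k1,k1,k0,k0,k0],[k1,k1,k0,k1,k0,k0],[k1,k1,k0,k0,k1,k0],[k1,k1,k0,k0,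
    k0,k1],[k1,k0,k0,k1,k1,k0],[k1,k0,k0,k0,k1,k1],[k1,k0,k0,k1,k0,k1],[k0,k3,k0,k0,k0,k0],[k0,k2,k1,k0,k0,k0],[k0,k2,
    k0,k1,k0,k0],[k0,k2,k0,k0,k1,k0],[k0,k2,k0,k0,k0,k1],[k0,k1,k1,k0,k0,k1],[k0,k1,k0,k2,k0,k0],[k0,k1,k0,k1,k1,k0],
    [k0,k1,k0,k1,k0,k1],[k0,k1,k0,k0,k1,k1],[k0,k1,k0,k0,k0,k2],[k0,k0,k0,k1,k1,k1],[k0,k0,k0,k1,k0,k2],[k0,k0,k0,k0,
    k1,k2],[k0,k0,k0,k0,k0,k3]]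
    [.ref k25 k0 [(z7,[z4,z13,y4]),(z7,[z13,y26,z8]),(z7,[y2,z4,z2,z21]),(z7,[y8,z16,z8,z0,z21]),(z7,[y8,y5,y13,y21,
    y21,z21])],.ref k25 k0 [(z5,[z2,z13,y4]),(z10,[z13,y13,z4]),(z5,[y1,z1,z2,z15]),(z5,[y4,z4,z8,z0,z15]),(z5,[y4,
    y11,y7,y15,y15,z15])],.ref k25 k0 [(z5,[z4,z11,y4,y4]),(z5,[z13,y13,z2,y13]),(z5,[y2,z2,z2,z17]),(z5,[y8,z8,z8,z8,
    z15]),(z5,[y8,y7,y7,y7,y15,z15])],.ref k25 k0 [(z3,[z4,z5,y4,z0,y4]),(z3,[z13,y13,y4,z0,y13]),(z3,[y2,z2,z2,z9,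
    z2]),(z3,[y8,z8,z8,z0,z17]),(z3,[y8,y1,y1,y9,y1,z9])],.ref k25 k0 [(z3,[z4,z9,z0,z4,z4,y4]),(z3,[z13,z0,z9,z13,
    z13,y13]),(z3,[y2,z0,z0,z7,y2,z2]),(z3,[y8,z0,z0,y8,z1,z8]),(z3,[y8,y9,y9,y17,y17,z17])],.ref k25 k0 [(z3,[z2,z7,
    y2]),(z6,[z13,y13,z5]),(z3,[y1,z1,z1,z9]),(z3,[y4,z4,z4,z0,z9]),(z3,[y4,y5,y5,y9,y9,z9])],.ref k25 k0 [(z1,[y1,z3,
    y1,y1,z0,z1]),(z4,[y13,z0,y1,y13,z0,z13]),(z2,[z1,z0,z1,z7,z0,y1]),(z1,[z2,z0,z2,z2,z3,y2]),(z1,[z2,y3,y1,y1,y3,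
    z1])],.ref k25 k0 [(z1,[y4,z3,y4,y4,y4,z4]),(z1,[y13,z0,y10,y13,y13,z13]),(z1,[z2,z0,z2,z5,z2,y2]),(z1,[z8,z0,z8,
    z8,z11,y8]),(z1,[z8,y3,z5,z5,z5,y5])],.ref k25 k0 [(z1,[y4,z7,z0,z0,z4]),(z1,[y13,z13,z3,z0,z13]),(z1,[z2,y2,z0,
    z3,y2]),(z1,[z8,y8,z0,z0,y5]),(z1,[z8,y11,y3,y3,y11,z3])],.ref k25 k0 [(z13,[z4,z39,y12]),(z1,[z1]),(z13,[y2,z0,
    z6,z39]),(z13,[y8,z0,z24,z0,z39]),(z13,[y8,y39,y15,y39,y39,z39])],.ref k25 k0 [(z2,[z1,z6,y2,y1]),(z8,[z13,z0,y2,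
    y13]),(z4,[y1,z0,z2,z13]),(z1,[y1,z0,z2,z1,z3]),(z1,[y1,y3,y1,y2,y3,z3])],.ref k25 k0 [(z3,[z2,z9,y4,z0,y2]),(z6,
    [z13,z0,y8,z0,y13]),(z3,[y1,z0,z2,z9,z1]),(z3,[y4,z0,z8,z0,z13]),(z3,[y4,y9,y1,y9,y5,z9])],.ref k25 k0 [(z3,[z2,
    z11,y2,z2,z2,y2]),(z6,[z13,z13,z5,z13,z13,y13]),(z3,[y1,y1,z1,z8,y1,z1]),(z3,[y4,y4,z4,y4,z5,z4]),(z3,[y4,y13,y5,
    y13,y13,z13])],.ref k25 k0 [(z9,[z4,z27,y8]),(z9,[z13,z0,z1]),(z9,[y2,z0,z4,z27]),(z9,[y8,z0,z16,z0,z27]),(z9,[y8,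
    y27,y11,y27,y27,z27])],.ref k25 k0 [(z1,[z1,z3,y1,y1]),(z4,[z13,z0,y1,y13]),(z2,[y1,z0,z1,z7]),(z1,[y2,z0,z2,z2,
    z3]),(z1,[y2,y3,y1,y1,y3,z3])],.ref k25 k0 [(z1,[y4,z3,z4,z0,z8]),(z1,[y13,z0,z16,z0,z26]),(z1,[z2,z0,y2,z3,y4]),
    (z1,[z8,z0,y8,z0,y13]),(z1,[z8,y3,y11,y3,y19,z3])],.ref k25 k0 [(z1,[y4,y1,z0,y4,z0,z4]),(z1,[y13,y13,z3,y13,z0,
    z13]),(z1,[z2,z2,z0,z5,z0,y2]),(z1,[z8,z8,z0,z8,z3,y8]),(z1,[z8,z5,y3,z5,y3,y5])],.ref k25 k0 [(z1,[z2,z3,y2,z0,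
    y2]),(z2,[z13,z0,y7,z0,y13]),(z1,[y1,z0,z1,z3,z1]),(z1,[y4,z0,z4,z0,z7]),(z1,[y4,y3,z1,y3,z1,z3])],
    .ref k25 k0 [(z1,[z2,z5,z0,z2,z2,y2]),(z2,[z13,z13,z6,z13,z13,y13]),(z1,[y1,y1,z0,z2,y1,z1]),(z1,[y4,y4,z0,y4,y1,
    z4]),(z1,[y4,y7,y3,y7,y7,z7])],.ref k25 k0 [(z5,[z4,z15,y4]),(z5,[z13,z0,z2]),(z5,[y2,z0,z2,z15]),(z5,[y8,z0,z8,
    z0,z15]),(z5,[y8,y15,y7,y15,y15,z15])],.ref k25 k0 [(z5,[y4,z11,y4,y4,z0,z4]),(z5,[y13,y13,z2,y13,z0,z13]),(z5,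
    [z2,z2,z2,z17,z0,y2]),(z5,[z8,z8,z8,z8,z15,y8]),(z5,[z8,y7,y7,y7,y15,z7])],.ref k25 k0 [(z1,[y2,z3,z0,z0,z2]),(z2,
    [y13,z0,z6,z0,z13]),(z1,[z1,z0,z0,z3,y1]),(z1,[z4,z0,z0,z0,y1]),(z1,[z4,y3,y3,y3,y7,z3])],.ref k25 k0 [(z1,[y2,z1,
    y2,y2,y2,z2]),(z2,[y13,y13,y7,y13,y13,z13]),(z1,[z1,z1,z1,z4,z1,y1]),(z1,[z4,z4,z4,z4,z7,y4]),(z1,[z4,z1,z1,z1,z1,
    y1])],.ref k25 k0 [(z1,[z4,z3]),(z1,[z13,z0,z3]),(z1,[y2,z0,z0,z3]),(z1,[y8,z0,z0,z0,z3]),(z1,[y8,y3,y3,y3,y3,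
    z3])]],
    .lp k0 [(nat_lit 18240),(nat_lit 19040),(nat_lit 18810),(nat_lit 18240),(nat_lit 18696),
    (nat_lit 16188)] [(nat_lit 400),(nat_lit 400),k0,k0,k115,k115,(nat_lit 400),(nat_lit 400),k172,k172,
    (nat_lit 1426),(nat_lit 1426)] k0 [[k0,k0,k0,k0,k0,k0,k0,k0,k0,(nat_lit 456),k0,k0],[k0,k0,k0,k0,k0,k0,k0,k0,k0,
    k0,k0,k0],[k0,k0,k0,k0,k0,k0,(nat_lit 342),(nat_lit 342),k0,(nat_lit 912),k0,k0],[k0,k0,k0,k0,k0,k0,k0,k0,k0,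
    (nat_lit 456),k0,k0],[k0,k0,k0,k0,k0,k0,(nat_lit 456),(nat_lit 456),k0,k0,k0,k0],[k0,k0,k0,k0,k0,k0,k0,k0,k0,
    (nat_lit 912),k0,k0],[k0,k0,k0,(nat_lit 342),k0,(nat_lit 456),k0,k0,(nat_lit 1596),k0,k0,(nat_lit 456)],[k0,k0,k0,
    (nat_lit 342),k0,(nat_lit 456),k0,k0,k0,k0,k0,(nat_lit 456)],[k0,(nat_lit 456),(nat_lit 456),(nat_lit 912),
    (nat_lit 912),k0,k0,k0,k0,k0,k0,k0],[k0,k0,k0,k0,k0,k0,k0,(nat_lit 1596),(nat_lit 1596),k0,(nat_lit 1140),k0],[k0,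
    k0,k0,k0,k0,k0,(nat_lit 456),(nat_lit 456),k0,k0,k0,k0],[k0,k0,k0,k0,k0,k0,k0,k0,(nat_lit 1140),k0,k0,
    k0]] (nat_lit 54720) k5
    [[(k11,(nat_lit 16074)),(k10,(nat_lit 17214)),(k0,(nat_lit 18240)),(k1,(nat_lit 18240)),(k7,(nat_lit 18240)),(k8,
    (nat_lit 18468)),(k4,(nat_lit 18525)),(k5,(nat_lit 18525)),(k2,(nat_lit 18640)),(k3,(nat_lit 18640)),(k6,
    (nat_lit 18696)),(k9,(nat_lit 18924))],[(k10,(nat_lit 17214)),(k11,(nat_lit 17214)),(k8,(nat_lit 18012)),(k0,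
    (nat_lit 18240)),(k1,(nat_lit 18240)),(k6,(nat_lit 18240)),(k7,(nat_lit 18240)),(k9,(nat_lit 18468)),(k4,
    (nat_lit 18525)),(k5,(nat_lit 18525)),(k2,(nat_lit 18640)),(k3,(nat_lit 18640))],[(k10,(nat_lit 17614)),(k11,
    (nat_lit 18070)),(k0,(nat_lit 18640)),(k1,(nat_lit 18640)),(k6,(nat_lit 18640)),(k7,(nat_lit 18640)),(k8,
    (nat_lit 18868)),(k9,(nat_lit 18868)),(k4,(nat_lit 18925)),(k5,(nat_lit 18925)),(k2,(nat_lit 19040)),(k3,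
    (nat_lit 19040))],[(k10,(nat_lit 17614)),(k8,(nat_lit 17956)),(k11,(nat_lit 18070)),(k6,(nat_lit 18298)),(k9,
    (nat_lit 18526)),(k0,(nat_lit 18640)),(k1,(nat_lit 18640)),(k7,(nat_lit 18640)),(k4,(nat_lit 18925)),(k5,
    (nat_lit 18925)),(k2,(nat_lit 19040)),(k3,(nat_lit 19040))],[(k10,(nat_lit 17499)),(k8,(nat_lit 18297)),(k11,
    (nat_lit 18411)),(k0,(nat_lit 18525)),(k1,(nat_lit 18525)),(k7,(nat_lit 18525)),(k4,(nat_lit 18810)),(k5,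
    (nat_lit 18810)),(k6,(nat_lit 18867)),(k2,(nat_lit 18925)),(k3,(nat_lit 18925)),(k9,(nat_lit 19095))],[(k10,
    (nat_lit 17499)),(k6,(nat_lit 18069)),(k9,(nat_lit 18297)),(k11,(nat_lit 18411)),(k0,(nat_lit 18525)),(k1,
    (nat_lit 18525)),(k7,(nat_lit 18525)),(k8,(nat_lit 18753)),(k4,(nat_lit 18810)),(k5,(nat_lit 18810)),(k2,
    (nat_lit 18925)),(k3,(nat_lit 18925))],[(k10,(nat_lit 17214)),(k11,(nat_lit 17214)),(k8,(nat_lit 17556)),(k0,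
    (nat_lit 18240)),(k1,(nat_lit 18240)),(k7,(nat_lit 18240)),(k4,(nat_lit 18525)),(k5,(nat_lit 18525)),(k2,
    (nat_lit 18640)),(k3,(nat_lit 18640)),(k6,(nat_lit 18696)),(k9,(nat_lit 18924))],[(k11,(nat_lit 15618)),(k10,
    (nat_lit 16758)),(k4,(nat_lit 18069)),(k0,(nat_lit 18240)),(k6,(nat_lit 18240)),(k2,(nat_lit 18298)),(k8,
    (nat_lit 18468)),(k9,(nat_lit 18468)),(k3,(nat_lit 18640)),(k1,(nat_lit 18696)),(k7,(nat_lit 18696)),(k5,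
    (nat_lit 18867))],[(k10,(nat_lit 16986)),(k11,(nat_lit 17442)),(k4,(nat_lit 18297)),(k0,(nat_lit 18468)),(k6,
    (nat_lit 18468)),(k2,(nat_lit 18526)),(k9,(nat_lit 18696)),(k3,(nat_lit 18868)),(k1,(nat_lit 18924)),(k7,
    (nat_lit 18924)),(k5,(nat_lit 19095)),(k8,(nat_lit 20292))],[(k11,(nat_lit 17442)),(k7,(nat_lit 17556)),(k2,
    (nat_lit 17956)),(k0,(nat_lit 18012)),(k5,(nat_lit 18297)),(k1,(nat_lit 18468)),(k6,(nat_lit 18468)),(k10,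
    (nat_lit 18582)),(k4,(nat_lit 18753)),(k3,(nat_lit 18868)),(k8,(nat_lit 20292)),(k9,(nat_lit 20292))],[(k11,
    (nat_lit 14592)),(k6,(nat_lit 15618)),(k1,(nat_lit 16074)),(k10,(nat_lit 16188)),(k0,(nat_lit 17214)),(k7,
    (nat_lit 17214)),(k8,(nat_lit 17442)),(k9,(nat_lit 17442)),(k2,(nat_lit 18070)),(k3,(nat_lit 18070)),(k4,
    (nat_lit 18411)),(k5,(nat_lit 18411))],[(k10,(nat_lit 16188)),(k11,(nat_lit 16188)),(k6,(nat_lit 16758)),(k9,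
    (nat_lit 16986)),(k0,(nat_lit 17214)),(k1,(nat_lit 17214)),(k7,(nat_lit 17214)),(k4,(nat_lit 17499)),(k5,
    (nat_lit 17499)),(k2,(nat_lit 17614)),(k3,(nat_lit 17614)),(k8,(nat_lit 18582))]]
    [[k2,k0,k0,k0,k0,k1],[k1,k1,k0,k0,k0,k1],[k1,k0,k1,k0,k0,k1],[k1,k0,k0,k1,k0,k1],[k1,k0,k0,k0,k1,k1],[k1,k0,k0,k0,
    k0,k2],[k0,k1,k1,k0,k0,k1],[k0,k1,k0,k1,k0,k1],[k0,k1,k0,k0,k1,k1],[k0,k1,k0,k0,k0,k2],[k0,k0,k1,k1,k0,k1],[k0,k0,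
    k1,k0,k1,k1],[k0,k0,k1,k0,k0,k2],[k0,k0,k0,k2,k0,k1],[k0,k0,k0,k1,k1,k1],[k0,k0,k0,k1,k0,k2],[k0,k0,k0,k0,k1,k2],
    [k0,k0,k0,k0,k0,k3]]
    [.ref k25 k0 [(z4,[z5,z1]),(z4,[y1,z1,z6]),(z2,[z1,y1,z0,z6]),(z2,[y5,z5,z0,z0,z6]),(z2,[z1,y4,y3,y6,y6,z6])],
    .ref k25 k0 [(z4,[z10,z1,y5]),(z4,[y2,z1,z7]),(z2,[z2,y1,y1,z6]),(z2,[y10,z5,z5,z0,z6]),(z1,[z1,y2,y2,y3,y3,z3])],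
    .ref k25 k0 [(z3,[z5,z2,z0,y5]),(z6,[y2,z1,z9,z2]),(z3,[z2,y1,z0,z7]),(z3,[y10,z5,z0,z10,z9]),(z6,[z4,y11,y9,y22,
    y18,z18])],.ref k25 k0 [(z1,[y5,z4,z0,z0,z5]),(z2,[z2,y1,z3,z0,y2]),(z1,[y2,z1,z0,z3,z2]),(z1,[z10,y5,z0,z0,y7]),
    (z2,[y4,y1,y3,y6,y2,z6])],.ref k25 k0 [(z6,[z10,z9,z5,z10,z10,y10]),(z3,[y1,z0,z4,y1,y1,z1]),(z3,[z2,z0,z1,z11,z2,
    y2]),(z3,[y10,z0,y5,y10,y1,z10]),(z6,[z4,y9,y7,y14,y14,z14])],.ref k25 k0 [(z3,[z5,z2]),(z6,[y2,z1,z9]),(z3,[z2,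
    y1,z0,z9]),(z3,[y10,z5,z0,z0,z9]),(z6,[z4,y11,y9,y18,y18,z18])],.ref k25 k0 [(z2,[z10,z3,y5,y10]),(z1,[y1,z0,z2,
    z1]),(z1,[z2,z0,y1,z1]),(z1,[y10,z0,z5,z10,z3]),(z2,[z4,y3,y5,y10,y6,z6])],.ref k25 k0 [(z6,[y10,z9,z5,z0,z10]),
    (z3,[z1,z0,z4,z0,y1]),(z3,[y2,z0,z1,z9,z2]),(z3,[z10,z0,y5,z0,y1]),(z6,[y4,y9,y7,y18,y14,z18])],.ref k25 k0 [(z1,
    [z5,z4,z0,z5,z5,y5]),(z2,[y2,y1,z3,y2,y2,z2]),(z1,[z2,z1,z0,z5,z2,y2]),(z1,[y10,y5,z0,y10,y7,z10]),(z2,[z4,y1,y3,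
    y2,y2,z2])],.ref k25 k0 [(z2,[z10,z3,y5]),(z1,[y1,z0,z2]),(z1,[z2,z0,y1,z3]),(z1,[y10,z0,z5,z0,z3]),(z2,[z4,y3,y5,
    y6,y6,z6])],.ref k25 k0 [(z2,[y5,z3,z0,z5,z5]),(z2,[z1,z0,z3,y1,y1]),(z1,[y1,z0,z0,z4,z1]),(z1,[z5,z0,z0,y5,y2]),
    (z2,[y2,y3,y3,y4,y4,z6])],.ref k25 k0 [(z4,[z10,z11,z5,z0,z10,y10]),(z4,[y2,y1,z5,z0,y2,z2]),(z2,[z2,z1,z1,z6,z2,
    y2]),(z2,[y10,y5,y5,z0,y4,z10]),(z1,[z1,y1,y1,y3,y2,z2])],.ref k25 k0 [(z2,[z5,z3,z0,y5]),(z2,[y1,z0,z3,z1]),(z1,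
    [z1,z0,z0,z2]),(z1,[y5,z0,z0,z5,z3]),(z2,[z2,y3,y3,y8,y6,z6])],.ref k25 k0 [(z6,[y5,z9,z0,z0,z10]),(z6,[z1,z0,z9,
    z0,y2]),(z3,[y1,z0,z0,z9,z2]),(z3,[z5,z0,z0,z0,y1]),(z6,[y2,y9,y9,y18,y14,z18])],.ref k25 k0 [(z4,[y10,z1,y5,y10,
    z0,z10]),(z4,[z2,z1,z7,z2,z0,y2]),(z2,[y2,y1,y1,z4,z0,z2]),(z2,[z10,z5,z5,z10,z6,y10]),(z1,[y1,y2,y2,y4,y3,z4])],
    .ref k25 k0 [(z2,[y5,z3,z0,z0,z5]),(z2,[z1,z0,z3,z0,y1]),(z1,[y1,z0,z0,z3,z1]),(z1,[z5,z0,z0,z0,y2]),(z2,[y2,y3,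
    y3,y6,y4,z6])],.ref k25 k0 [(z4,[z10,z11,z5,z10,z10,y10]),(z4,[y2,y1,z5,y2,y2,z2]),(z2,[z2,z1,z1,z8,z2,y2]),(z2,
    [y10,y5,y5,y10,y4,z10]),(z1,[z1,y1,y1,y2,y2,z2])],.ref k25 k0 [(z2,[z5,z3]),(z2,[y1,z0,z3]),(z1,[z1,z0,z0,z3]),
    (z1,[y5,z0,z0,z0,z3]),(z2,[z2,y3,y3,y6,y6,z6])]],
    .lp k0 [(nat_lit 640),(nat_lit 652),(nat_lit 666),(nat_lit 656),(nat_lit 634),(nat_lit 590)] [k13,k13,k7,k7,k0,k0,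
    k5,k5,k16,k16,k38,k38] k0 [[k0,k0,k8,k0,k0,k0,k8,k0,k0,k26,k0,k0],[k0,k0,k0,k0,k0,k10,k18,k0,k0,k0,k0,k0],[k0,k0,
    k0,k0,k0,k54,k10,k0,k0,k8,k46,k0],[k0,k8,k0,k0,k0,k0,k2,k0,k0,k20,k6,k0],[k10,k0,k0,k54,k0,k0,k0,k0,k0,k6,k0,k8],
    [k0,k0,k0,k0,k0,k0,k8,k12,k0,k6,k0,k8],[k0,k0,k0,k0,k12,k0,k0,k12,k38,k4,k24,k0],[k18,k8,k2,k10,k8,k0,k0,k0,k0,k0,
    k0,k0],[k0,k26,k20,k8,k6,k6,k0,k4,k0,k0,k0,k0],[k0,k0,k0,k0,k0,k0,k0,k38,k34,k0,k50,k26],[k0,k0,k0,k0,k8,k8,k0,k0,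
    k26,k0,k0,k0],[k0,k0,k6,k46,k0,k0,k0,k24,k50,k0,k0,k0]] (nat_lit 1920) k5
    [[(k11,(nat_lit 565)),(k2,(nat_lit 600)),(k10,(nat_lit 615)),(k6,(nat_lit 624)),(k9,(nat_lit 637)),(k0,
    (nat_lit 640)),(k1,(nat_lit 640)),(k3,(nat_lit 646)),(k5,(nat_lit 647)),(k7,(nat_lit 656)),(k4,(nat_lit 661)),(k8,
    (nat_lit 663))],[(k8,(nat_lit 611)),(k10,(nat_lit 615)),(k11,(nat_lit 615)),(k9,(nat_lit 629)),(k0,(nat_lit 640)),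
    (k1,(nat_lit 640)),(k5,(nat_lit 645)),(k2,(nat_lit 646)),(k3,(nat_lit 646)),(k4,(nat_lit 653)),(k7,(nat_lit 658)),
    (k6,(nat_lit 666))],[(k10,(nat_lit 621)),(k9,(nat_lit 625)),(k8,(nat_lit 643)),(k0,(nat_lit 646)),(k1,
    (nat_lit 646)),(k11,(nat_lit 647)),(k4,(nat_lit 649)),(k3,(nat_lit 652)),(k7,(nat_lit 654)),(k5,(nat_lit 659)),
    (k2,(nat_lit 660)),(k6,(nat_lit 662))],[(k1,(nat_lit 600)),(k4,(nat_lit 605)),(k10,(nat_lit 627)),(k9,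
    (nat_lit 633)),(k8,(nat_lit 635)),(k11,(nat_lit 641)),(k0,(nat_lit 646)),(k2,(nat_lit 652)),(k7,(nat_lit 654)),
    (k6,(nat_lit 656)),(k5,(nat_lit 659)),(k3,(nat_lit 660))],[(k8,(nat_lit 630)),(k11,(nat_lit 636)),(k0,
    (nat_lit 645)),(k1,(nat_lit 647)),(k9,(nat_lit 648)),(k2,(nat_lit 659)),(k3,(nat_lit 659)),(k4,(nat_lit 666)),(k5,
    (nat_lit 666)),(k6,(nat_lit 671)),(k10,(nat_lit 674)),(k7,(nat_lit 715))],[(k2,(nat_lit 605)),(k10,(nat_lit 620)),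
    (k11,(nat_lit 634)),(k8,(nat_lit 644)),(k3,(nat_lit 649)),(k0,(nat_lit 653)),(k1,(nat_lit 661)),(k7,
    (nat_lit 661)),(k9,(nat_lit 662)),(k4,(nat_lit 666)),(k5,(nat_lit 666)),(k6,(nat_lit 669))],[(k10,(nat_lit 615)),
    (k11,(nat_lit 629)),(k9,(nat_lit 637)),(k8,(nat_lit 639)),(k6,(nat_lit 644)),(k2,(nat_lit 654)),(k3,
    (nat_lit 654)),(k1,(nat_lit 656)),(k7,(nat_lit 656)),(k0,(nat_lit 658)),(k4,(nat_lit 661)),(k5,(nat_lit 715))],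
    [(k11,(nat_lit 585)),(k10,(nat_lit 623)),(k1,(nat_lit 624)),(k8,(nat_lit 641)),(k6,(nat_lit 644)),(k7,
    (nat_lit 644)),(k9,(nat_lit 645)),(k2,(nat_lit 656)),(k3,(nat_lit 662)),(k0,(nat_lit 666)),(k4,(nat_lit 669)),(k5,
    (nat_lit 671))],[(k11,(nat_lit 616)),(k3,(nat_lit 625)),(k0,(nat_lit 629)),(k2,(nat_lit 633)),(k10,(nat_lit 636)),
    (k1,(nat_lit 637)),(k7,(nat_lit 637)),(k6,(nat_lit 645)),(k9,(nat_lit 646)),(k5,(nat_lit 648)),(k4,(nat_lit 662)),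
    (k8,(nat_lit 672))],[(k0,(nat_lit 611)),(k11,(nat_lit 612)),(k5,(nat_lit 630)),(k2,(nat_lit 635)),(k7,
    (nat_lit 639)),(k6,(nat_lit 641)),(k3,(nat_lit 643)),(k4,(nat_lit 644)),(k10,(nat_lit 662)),(k1,(nat_lit 663)),
    (k8,(nat_lit 668)),(k9,(nat_lit 672))],[(k11,(nat_lit 556)),(k10,(nat_lit 564)),(k1,(nat_lit 565)),(k6,
    (nat_lit 585)),(k8,(nat_lit 612)),(k0,(nat_lit 615)),(k9,(nat_lit 616)),(k7,(nat_lit 629)),(k4,(nat_lit 634)),(k5,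
    (nat_lit 636)),(k2,(nat_lit 641)),(k3,(nat_lit 647))],[(k11,(nat_lit 564)),(k10,(nat_lit 590)),(k0,(nat_lit 615)),
    (k1,(nat_lit 615)),(k7,(nat_lit 615)),(k4,(nat_lit 620)),(k3,(nat_lit 621)),(k6,(nat_lit 623)),(k2,(nat_lit 627)),
    (k9,(nat_lit 636)),(k8,(nat_lit 662)),(k5,(nat_lit 674))]]
    [[k2,k1,k0,k0,k0,k0],[k2,k0,k0,k0,k1,k0],[k2,k0,k0,k0,k0,k1],[k1,k2,k0,k0,k0,k0],[k1,k1,k1,k0,k0,k0],[k1,k1,k0,k0,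
    k1,k0],[k1,k1,k0,k0,k0,k1],[k1,k0,k1,k0,k0,k1],[k1,k0,k0,k1,k1,k0],[k1,k0,k0,k1,k0,k1],[k1,k0,k0,k0,k1,k1],[k1,k0,
    k0,k0,k0,k2],[k0,k2,k1,k0,k0,k0],[k0,k1,k1,k0,k1,k0],[k0,k1,k1,k0,k0,k1],[k0,k1,k0,k1,k0,k1],[k0,k1,k0,k0,k1,k1],
    [k0,k1,k0,k0,k0,k2],[k0,k0,k1,k0,k1,k1],[k0,k0,k1,k0,k0,k2],[k0,k0,k0,k2,k0,k1],[k0,k0,k0,k1,k1,k1],[k0,k0,k0,k1,
    k0,k2],[k0,k0,k0,k0,k1,k2],[k0,k0,k0,k0,k0,k3]]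
    [.ref k25 k0 [(z8,[z14,y1,y7]),(z4,[y2,z1,z7]),(z8,[z2,y1,y1,z6]),(z4,[y14,z7,z7,z0,z6]),(z4,[z4,y5,y8,y3,y6,
    z12])],.ref k25 k0 [(z24,[z28,z11,z14,z7,z14,y28]),(z12,[y4,z1,z16,y1,y2,z4]),(z24,[z4,y1,z2,z19,z2,y4]),(z12,
    [y28,z7,y14,y7,z4,z28]),(z12,[z8,y11,y14,y7,y14,z28])],.ref k25 k0 [(z6,[z7,z1]),(z6,[y2,z1,z9]),(z12,[z2,y1,z0,
    z9]),(z6,[y14,z7,z0,z0,z9]),(z12,[z8,y13,y18,y9,y18,z36])],.ref k25 k0 [(z1,[z7,y1,y7]),(z2,[y4,z1,z7]),(z4,[z4,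
    y1,y4,z3]),(z2,[y28,z7,z28,z0,z3]),(z4,[z16,y7,y22,y3,y6,z12])],.ref k25 k0 [(z8,[z28,y1,y14,y7]),(z4,[y4,z1,z8,
    z1]),(z8,[z4,y1,y2,z5]),(z4,[y28,z7,z14,z7,z6]),(z4,[z8,y5,y10,y5,y6,z12])],.ref k25 k0 [(z12,[z28,z9,z0,z7,z14,
    y28]),(z6,[y4,z0,z9,y1,y2,z4]),(z6,[z2,z0,z0,z5,z1,y2]),(z6,[y28,z0,z0,y7,y5,z28]),(z12,[z16,y9,y18,y5,y10,z20])],
    .ref k25 k0 [(z6,[z14,z1,y7]),(z6,[y4,z1,z11]),(z12,[z4,y1,y2,z9]),(z6,[y28,z7,z14,z0,z9]),(z12,[z16,y13,y26,y9,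
    y18,z36])],.ref k25 k0 [(z16,[z28,z5,z0,y7]),(z8,[y4,z1,z12,z1]),(z16,[z4,y1,z0,z11]),(z8,[y28,z7,z0,z7,z12]),(z2,
    [z2,y2,y3,y2,y3,z6])],.ref k25 k0 [(z4,[y28,z3,y14,y7,z0,z28]),(z2,[z4,z0,z5,z1,z0,y4]),(z2,[y2,z0,y1,z1,z0,z2]),
    (z2,[z28,z0,z14,z7,z3,y28]),(z4,[y16,y3,y14,y7,y6,z28])],.ref k25 k0 [(z2,[y14,z5,z0,z0,z7]),(z2,[z4,y1,z3,z0,
    y2]),(z4,[y4,z1,z0,z3,z2]),(z2,[z28,y7,z0,z0,y11]),(z4,[y16,z1,y6,y3,z2,z12])],.ref k25 k0 [(z20,[z28,z15,z14,z7,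
    z14,y28]),(z10,[y4,z0,z13,y1,y2,z4]),(z10,[z2,z0,z1,z8,z1,y2]),(z10,[y28,z0,y14,y7,z1,z28]),(z20,[z16,y15,y22,y11,
    y22,z44])],.ref k25 k0 [(z5,[z7,z2]),(z10,[y4,z1,z15]),(z20,[z4,y1,z0,z15]),(z10,[y28,z7,z0,z0,z15]),(z20,[z16,
    y19,y30,y15,y30,z60])],.ref k25 k0 [(z4,[y28,z3,z28,z7]),(z2,[z4,z0,y1,y1]),(z1,[y1,z0,z1,z1]),(z2,[z28,z0,y28,y7,
    z3]),(z4,[y16,y3,z10,z1,y6,z12])],.ref k25 k0 [(z2,[z14,z5,z0,z0,z7,y14]),(z2,[y4,y1,z3,z0,y2,z4]),(z4,[z4,z1,z0,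
    z3,z2,y4]),(z2,[y28,y7,z0,z0,y11,z28]),(z4,[z16,z1,y6,y3,z2,y4])],.ref k25 k0 [(z4,[z28,z3,y14,y7]),(z2,[y4,z0,z5,
    z1]),(z2,[z2,z0,y1,z1]),(z2,[y28,z0,z14,z7,z3]),(z4,[z16,y3,y14,y7,y6,z12])],.ref k25 k0 [(z8,[y14,z6,z7,z0,z7]),
    (z4,[z2,z0,z5,z0,y1]),(z8,[y2,z0,z1,z6,z1]),(z4,[z14,z0,y7,z0,y1]),(z4,[y4,y3,y4,y3,y4,z12])],.ref k25 k0 [(z8,
    [z28,z13,z0,z7,z14,y28]),(z4,[y4,y1,z6,y1,y2,z4]),(z8,[z4,z1,z0,z7,z2,y4]),(z4,[y28,y7,z0,y7,y8,z28]),(z4,[z8,y1,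
    y6,y1,y2,z4])],.ref k25 k0 [(z4,[z14,z3,y7]),(z1,[y1,z0,z2]),(z4,[z2,z0,y1,z3]),(z2,[y14,z0,z7,z0,z3]),(z4,[z8,y3,
    y10,y3,y6,z12])],.ref k25 k0 [(z6,[z14,z8,z7,z0,z7,y14]),(z6,[y4,y1,z7,z0,y2,z4]),(z12,[z4,z1,z2,z9,z2,y4]),(z6,
    [y28,y7,y14,z0,y5,z28]),(z12,[z16,y5,y10,y9,y10,z20])],.ref k25 k0 [(z12,[z28,z9,z0,y7]),(z6,[y4,z0,z9,z1]),(z3,
    [z1,z0,z0,z2]),(z6,[y28,z0,z0,z7,z9]),(z12,[z16,y9,y18,y13,y18,z36])],.ref k25 k0 [(z8,[y7,z6,z0,z0,z7]),(z4,[z1,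
    z0,z6,z0,y1]),(z8,[y1,z0,z0,z6,z1]),(z4,[z7,z0,z0,z0,y1]),(z4,[y2,y3,y6,y3,y4,z12])],.ref k25 k0 [(z8,[y28,y1,y14,
    y7,z0,z28]),(z4,[z4,z1,z8,z1,z0,y4]),(z8,[y4,y1,y2,z5,z0,z4]),(z4,[z28,z7,z14,z7,z6,y28]),(z4,[y8,y5,y10,y5,y6,
    z20])],.ref k25 k0 [(z4,[y14,z3,z0,z0,z7]),(z2,[z2,z0,z3,z0,y1]),(z4,[y2,z0,z0,z3,z1]),(z1,[z7,z0,z0,z0,y2]),(z4,
    [y8,y3,y6,y3,y2,z12])],.ref k25 k0 [(z16,[z28,z19,z14,z7,z14,y28]),(z8,[y4,y1,z10,y1,y2,z4]),(z16,[z4,z1,z2,z13,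
    z2,y4]),(z8,[y28,y7,y14,y7,y2,z28]),(z2,[z2,y1,y2,y1,y2,z4])],.ref k25 k0 [(z4,[z7,z3]),(z2,[y1,z0,z3]),(z4,[z1,
    z0,z0,z3]),(z2,[y7,z0,z0,z0,z3]),(z4,[z4,y3,y6,y3,y6,z12])]],
    .lp k0 [(nat_lit 474),(nat_lit 472),(nat_lit 486),(nat_lit 490),(nat_lit 486),(nat_lit 466)] [k8,k8,k9,k9,k2,k2,
    k0,k0,k2,k2,k12,k12] k0 [[k0,k0,k0,k0,k6,k6,k16,k0,k0,k0,k0,k2],[k78,k0,k0,k0,k0,k0,k4,k0,k0,k0,k0,k92],[k0,k0,k0,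
    k0,k0,k0,k0,k0,k0,k2,k6,k4],[k0,k0,k0,k0,k4,k4,k8,k0,k0,k0,k0,k0],[k0,k6,k4,k0,k0,k0,k0,k0,k0,k0,k0,k0],[k0,k6,k4,
    k0,k0,k0,k0,k0,k0,k0,k4,k0],[k0,k0,k0,k0,k0,k0,k0,k2,k2,k2,k0,k0],[k4,k16,k8,k0,k0,k0,k0,k0,k0,k0,k2,k0],[k0,k0,
    k0,k2,k0,k0,k0,k2,k0,k0,k70,k0],[k0,k0,k0,k0,k0,k0,k0,k2,k0,k0,k0,k0],[k92,k2,k0,k4,k0,k0,k0,k0,k0,k0,k0,k28],[k0,
    k0,k0,k6,k4,k0,k2,k0,k0,k70,k0,k0]] (nat_lit 1440) k5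
    [[(k8,(nat_lit 410)),(k2,(nat_lit 467)),(k10,(nat_lit 470)),(k11,(nat_lit 470)),(k3,(nat_lit 475)),(k7,
    (nat_lit 478)),(k9,(nat_lit 478)),(k4,(nat_lit 480)),(k6,(nat_lit 482)),(k5,(nat_lit 484)),(k1,(nat_lit 502)),(k0,
    (nat_lit 566))],[(k9,(nat_lit 464)),(k10,(nat_lit 468)),(k11,(nat_lit 470)),(k2,(nat_lit 473)),(k3,(nat_lit 473)),
    (k4,(nat_lit 474)),(k7,(nat_lit 476)),(k5,(nat_lit 480)),(k8,(nat_lit 480)),(k6,(nat_lit 486)),(k0,(nat_lit 552)),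
    (k1,(nat_lit 566))],[(k10,(nat_lit 377)),(k3,(nat_lit 394)),(k11,(nat_lit 469)),(k2,(nat_lit 472)),(k0,
    (nat_lit 473)),(k1,(nat_lit 475)),(k9,(nat_lit 475)),(k5,(nat_lit 479)),(k8,(nat_lit 479)),(k4,(nat_lit 485)),(k7,
    (nat_lit 487)),(k6,(nat_lit 497))],[(k10,(nat_lit 465)),(k1,(nat_lit 467)),(k11,(nat_lit 469)),(k2,(nat_lit 472)),
    (k3,(nat_lit 472)),(k0,(nat_lit 473)),(k8,(nat_lit 477)),(k5,(nat_lit 479)),(k9,(nat_lit 479)),(k4,(nat_lit 483)),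
    (k7,(nat_lit 485)),(k6,(nat_lit 489))],[(k9,(nat_lit 478)),(k11,(nat_lit 478)),(k2,(nat_lit 479)),(k3,
    (nat_lit 479)),(k0,(nat_lit 480)),(k4,(nat_lit 482)),(k10,(nat_lit 482)),(k1,(nat_lit 484)),(k7,(nat_lit 484)),
    (k5,(nat_lit 486)),(k8,(nat_lit 486)),(k6,(nat_lit 488))],[(k0,(nat_lit 474)),(k11,(nat_lit 476)),(k1,
    (nat_lit 480)),(k10,(nat_lit 480)),(k5,(nat_lit 482)),(k2,(nat_lit 483)),(k3,(nat_lit 485)),(k4,(nat_lit 486)),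
    (k8,(nat_lit 486)),(k9,(nat_lit 486)),(k6,(nat_lit 488)),(k7,(nat_lit 488))],[(k0,(nat_lit 476)),(k1,
    (nat_lit 478)),(k10,(nat_lit 478)),(k11,(nat_lit 478)),(k5,(nat_lit 484)),(k2,(nat_lit 485)),(k3,(nat_lit 487)),
    (k4,(nat_lit 488)),(k8,(nat_lit 488)),(k9,(nat_lit 488)),(k6,(nat_lit 490)),(k7,(nat_lit 490))],[(k11,
    (nat_lit 476)),(k10,(nat_lit 480)),(k1,(nat_lit 482)),(k0,(nat_lit 486)),(k8,(nat_lit 486)),(k4,(nat_lit 488)),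
    (k5,(nat_lit 488)),(k6,(nat_lit 488)),(k9,(nat_lit 488)),(k2,(nat_lit 489)),(k7,(nat_lit 490)),(k3,
    (nat_lit 497))],[(k0,(nat_lit 464)),(k3,(nat_lit 475)),(k10,(nat_lit 476)),(k1,(nat_lit 478)),(k5,(nat_lit 478)),
    (k11,(nat_lit 478)),(k2,(nat_lit 479)),(k4,(nat_lit 486)),(k6,(nat_lit 488)),(k7,(nat_lit 488)),(k8,
    (nat_lit 488)),(k9,(nat_lit 488))],[(k1,(nat_lit 410)),(k10,(nat_lit 476)),(k11,(nat_lit 476)),(k2,(nat_lit 477)),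
    (k3,(nat_lit 479)),(k0,(nat_lit 480)),(k4,(nat_lit 486)),(k5,(nat_lit 486)),(k6,(nat_lit 486)),(k8,(nat_lit 486)),
    (k7,(nat_lit 488)),(k9,(nat_lit 488))],[(k11,(nat_lit 466)),(k2,(nat_lit 469)),(k3,(nat_lit 469)),(k0,
    (nat_lit 470)),(k1,(nat_lit 470)),(k4,(nat_lit 476)),(k6,(nat_lit 476)),(k8,(nat_lit 476)),(k5,(nat_lit 478)),(k7,
    (nat_lit 478)),(k9,(nat_lit 478)),(k10,(nat_lit 536))],[(k3,(nat_lit 377)),(k10,(nat_lit 438)),(k2,(nat_lit 465)),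
    (k0,(nat_lit 468)),(k1,(nat_lit 470)),(k8,(nat_lit 476)),(k9,(nat_lit 476)),(k7,(nat_lit 478)),(k4,(nat_lit 480)),
    (k6,(nat_lit 480)),(k5,(nat_lit 482)),(k11,(nat_lit 536))]]
    [[k1,k2,k0,k0,k0,k0],[k1,k1,k1,k0,k0,k0],[k1,k1,k0,k0,k1,k0],[k1,k1,k0,k0,k0,k1],[k1,k0,k1,k0,k1,k0],[k1,k0,k1,k0,
    k0,k1],[k1,k0,k0,k1,k1,k0],[k1,k0,k0,k1,k0,k1],[k1,k0,k0,k0,k2,k0],[k1,k0,k0,k0,k1,k1],[k1,k0,k0,k0,k0,k2],[k0,k3,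
    k0,k0,k0,k0],[k0,k2,k1,k0,k0,k0],[k0,k2,k0,k0,k1,k0],[k0,k2,k0,k0,k0,k1],[k0,k2,k0,k1,k0,k0],[k0,k1,k1,k0,k0,k1],
    [k0,k1,k0,k1,k0,k1],[k0,k1,k0,k0,k1,k1],[k0,k1,k0,k0,k0,k2],[k0,k0,k1,k0,k1,k1],[k0,k0,k1,k0,k0,k2],[k0,k0,k0,k1,
    k0,k2],[k0,k0,k0,k0,k1,k2]]
    [.ref k25 k0 [(z1,[z9,y2,y18]),(z1,[y3,z1,z9]),(z1,[y3,z1,z6,z3]),(z2,[y9,z3,z18,z0,z2]),(z2,[z3,y1,y6])],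
    .ref k25 k0 [(z1,[z9,y2,y9,y9]),(z1,[y3,z1,z6,z3]),(z1,[y3,z1,z3,z6]),(z2,[y9,z3,z9,z9,z2]),(z2,[z3,y1,y3,y3])],
    .ref k25 k0 [(z5,[z18,y1,y18]),(z5,[y6,z2,z21]),(z5,[y6,z2,z6,z15]),(z5,[y9,z3,z9,z0,z5]),(z5,[z3,y1,y3])],
    .ref k25 k0 [(z2,[z9,z2,z0,z9,z3,y9]),(z2,[y3,z0,z6,y3,y1,z3]),(z2,[y3,z0,z0,z3,y1,z3]),(z4,[y9,z0,z0,y9,z1,z9]),
    (z4,[z3,z0,z0,z3,z1,y3])],.ref k25 k0 [(z5,[z18,y1,z0,y18]),(z5,[y6,z2,z15,z6]),(z5,[y6,z2,z0,z21]),(z5,[y9,z3,z0,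
    z9,z5]),(z5,[z3,y1,z0,y3])],.ref k25 k0 [(z2,[z9,z2,z9,z0,z3,y9]),(z2,[y3,z0,z3,z0,y1,z3]),(z2,[y3,z0,y3,z6,y1,
    z3]),(z4,[y9,z0,y9,z0,z1,z9]),(z4,[z3,z0,z3,z0,z1,y3])],.ref k25 k0 [(z2,[z9,y1,z0,z0,y3]),(z2,[y3,z1,z6,z0,z1]),
    (z2,[y3,z1,z0,z6,z1]),(z4,[y9,z3,z0,z0,z7]),(z4,[z3,y1,z0,z0,y1])],.ref k25 k0 [(z1,[z6,z1,z6,z6,z0,y6]),(z1,[y2,
    z0,z1,y2,z0,z2]),(z1,[y2,z0,y2,z1,z0,z2]),(z1,[y3,z0,y3,y3,z1,z3]),(z1,[z1,z0,z1,z1,z0,y1])],.ref k25 k0 [(z4,[z9,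
    z1]),(z4,[y3,z1,z12]),(z4,[y3,z1,z0,z12]),(z8,[y9,z3,z0,z0,z8]),(z8,[z3,y1])],.ref k25 k0 [(z7,[z18,z7,z18,z18,z6,
    y18]),(z7,[y6,z0,z15,y6,y2,z6]),(z7,[y6,z0,y6,z15,y2,z6]),(z7,[y9,z0,y9,y9,z4,z9]),(z7,[z3,z0,z3,z3,z1,y3])],
    .ref k25 k0 [(z1,[z3,z2,z6,z6,z2,y6]),(z3,[y3,y1,z3,y6,y2,z6]),(z3,[y3,y1,y6,z3,y2,z6]),(z2,[y3,y1,y6,y6,z0,z6]),
    (z6,[z3,z1,z6,z6,z2,y6])],.ref k25 k0 [(z1,[y3,z1,z9]),(z1,[z1]),(z1,[z1,z0,y3,z3]),(z2,[z3,z0,y9,z0,z2]),(z2,[y1,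
    z0,z3])],.ref k25 k0 [(z1,[y3,z1,z6,z3]),(z1,[z1,z0,z1,y1]),(z1,[z1,z0,y2,z2]),(z2,[z3,z0,y6,y3,z2]),(z2,[y1,z0,
    z2,z1])],.ref k25 k0 [(z1,[y6,z1,z12]),(z1,[z2,z0,y1]),(z1,[z2,z0,y4,z3]),(z1,[z3,z0,y6,z0,z1]),(z1,[y1,z0,z2])],
    .ref k25 k0 [(z2,[y9,y1,z9,y9,y3,z9]),(z2,[z3,z1,z3,z3,z1,y3]),(z2,[z3,z1,y3,z9,z1,y3]),(z4,[z9,z3,y9,z9,z7,y9]),
    (z4,[y3,y1,z3,y3,y1,z3])],.ref k25 k0 [(z7,[y18,z7,z36,z0,z6]),(z7,[z6,z0,z9,z0,y2]),(z7,[z6,z0,y12,z21,y2]),(z7,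
    [z9,z0,y18,z0,z4]),(z7,[y3,z0,z6,z0,z1])],.ref k25 k0 [(z2,[y9,y1,z0,z0,y3,z9]),(z2,[z3,z1,z6,z0,z1,y3]),(z2,[z3,
    z1,z0,z6,z1,y3]),(z4,[z9,z3,z0,z0,z7,y9]),(z4,[y3,y1,z0,z0,y1,z3])],.ref k25 k0 [(z5,[y18,y1,z0,y18,z0,z18]),(z5,
    [z6,z2,z15,z6,z0,y6]),(z5,[z6,z2,z0,z21,z0,y6]),(z5,[z9,z3,z0,z9,z5,y9]),(z5,[y3,y1,z0,y3,z0,z3])],
    .ref k25 k0 [(z1,[y18,y5,z0,y18,y6,z18]),(z1,[z6,z2,z3,z6,z2,y6]),(z1,[z6,z2,z0,z9,z2,y6]),(z1,[z9,z3,z0,z9,z4,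
    y9]),(z1,[y3,y1,z0,y3,y1,z3])],.ref k25 k0 [(z1,[y9,y5,y9,y18,y6,z18]),(z1,[z3,z2,z6,z6,z2,y6]),(z1,[z3,z2,z3,z9,
    z2,y6]),(z2,[z9,z6,z9,z18,z8,y18]),(z2,[y3,y2,y3,y6,y2,z6])],.ref k25 k0 [(z1,[y18,y5,y18,z0,y6,z18]),(z1,[z6,z2,
    z9,z0,z2,y6]),(z1,[z6,z2,z6,z3,z2,y6]),(z1,[z9,z3,z9,z0,z4,y9]),(z1,[y3,y1,y3,z0,y1,z3])],.ref k25 k0 [(z1,[y9,y5,
    y18,y9,y6,z18]),(z1,[z3,z2,z9,z3,z2,y6]),(z1,[z3,z2,z6,z6,z2,y6]),(z2,[z9,z6,z18,z9,z8,y18]),(z2,[y3,y2,y6,y3,y2,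
    z6])],.ref k25 k0 [(z1,[y6,y3,y12,y12,y2,z12]),(z3,[z6,z4,z21,z12,z2,y12]),(z3,[z6,z4,z12,z21,z2,y12]),(z1,[z3,z2,
    z6,z6,z2,y6]),(z3,[y3,y2,y6,y6,y1,z6])],.ref k25 k0 [(z1,[z18,z13,z36,z36,z12,y36]),(z1,[y6,y4,y9,y12,y4,z12]),
    (z1,[y6,y4,y12,y9,y4,z12]),(z1,[y9,y6,y18,y18,y5,z18]),(z1,[z3,z2,z6,z6,z2,y6])]],
    .lp k0 [k168,k152,k180,k196,k170,k138] [k14,k14,k22,k22,k8,k8,k0,k0,k13,k13,k28,k30] k0 [[k0,k0,k0,k0,k8,k0,k0,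
    k20,k26,k0,k0,k28],[k0,k0,k0,k8,k0,k0,k0,k8,k10,k0,k0,k20],[k8,k0,k0,k8,k20,k0,k0,k0,k0,k0,k0,k8],[k0,k0,k0,k0,k0,
    k0,k0,k12,k18,k0,k0,k8],[k0,k0,k0,k0,k0,k0,k0,k0,k6,k10,k20,k0],[k0,k8,k0,k20,k32,k0,k0,k0,k0,k0,k4,k0],[k8,k20,
    k12,k0,k0,k0,k0,k0,k0,k0,k0,k0],[k0,k0,k0,k0,k0,k0,k0,k0,k0,k2,k12,k8],[k0,k0,k0,k0,k0,k10,k2,k0,k0,k0,k10,k0],
    [k10,k26,k18,k0,k0,k6,k0,k0,k0,k0,k0,k0],[k20,k28,k8,k8,k0,k0,k8,k0,k0,k0,k0,k0],[k0,k0,k0,k0,k4,k20,k12,k0,k0,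
    k10,k20,k0]] (nat_lit 504) k5
    [[(k1,k148),(k11,k152),(k4,k154),(k10,k154),(k9,k157),(k8,k159),(k2,k168),(k7,k178),(k5,k182),(k0,k188),(k3,k188),
    (k6,k190)],[(k10,k126),(k11,k126),(k2,k160),(k3,k160),(k6,k162),(k0,k168),(k4,k174),(k7,k174),(k9,k177),(k8,k179),
    (k5,k182),(k1,k188)],[(k10,k126),(k11,k134),(k2,k144),(k3,k152),(k0,k160),(k5,k166),(k6,k166),(k4,k174),(k7,k174),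
    (k9,k181),(k8,k187),(k1,k188)],[(k10,k138),(k2,k144),(k3,k144),(k11,k144),(k7,k154),(k0,k160),(k4,k166),(k5,k166),
    (k1,k168),(k9,k173),(k6,k174),(k8,k179)],[(k11,k140),(k10,k152),(k2,k166),(k3,k166),(k8,k175),(k9,k175),(k6,k176),
    (k0,k182),(k1,k182),(k5,k188),(k7,k188),(k4,(nat_lit 200))],[(k11,k152),(k1,k154),(k10,k164),(k8,k165),(k2,k166),
    (k0,k174),(k3,k174),(k9,k175),(k6,k188),(k7,k188),(k5,(nat_lit 200)),(k4,(nat_lit 212))],[(k2,k154),(k7,k164),(k0,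
    k174),(k3,k174),(k11,k176),(k1,k178),(k9,k183),(k4,k188),(k5,k188),(k10,k188),(k8,k189),(k6,k196)],[(k0,k162),(k3,
    k166),(k11,k168),(k2,k174),(k5,k176),(k10,k180),(k8,k183),(k9,k183),(k4,k188),(k1,k190),(k6,k196),(k7,k196)],
    [(k10,k147),(k11,k153),(k1,k157),(k8,k168),(k9,k170),(k2,k173),(k4,k175),(k5,k175),(k0,k177),(k3,k181),(k6,k183),
    (k7,k183)],[(k11,k153),(k10,k155),(k1,k159),(k4,k165),(k9,k168),(k8,k170),(k5,k175),(k0,k179),(k2,k179),(k6,k183),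
    (k3,k187),(k7,k189)],[(k0,k126),(k3,k134),(k11,k136),(k5,k140),(k2,k144),(k10,k148),(k1,k152),(k4,k152),(k8,k153),
    (k9,k153),(k6,k168),(k7,k176)],[(k0,k126),(k3,k126),(k2,k138),(k9,k147),(k11,k148),(k5,k152),(k1,k154),(k8,k155),
    (k10,k160),(k4,k164),(k6,k180),(k7,k188)]]
    [[k2,k0,k0,k0,k0,k1],[k2,k1,k0,k0,k0,k0],[k2,k0,k0,k1,k0,k0],[k1,k2,k0,k0,k0,k0],[k1,k1,k0,k0,k0,k1],[k1,k1,k1,k0,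
    k0,k0],[k1,k0,k1,k0,k0,k1],[k1,k0,k0,k1,k0,k1],[k2,k0,k0,k0,k1,k0],[k1,k1,k0,k0,k1,k0],[k1,k0,k0,k0,k1,k1],[k1,k0,
    k0,k0,k0,k2],[k0,k3,k0,k0,k0,k0],[k0,k2,k1,k0,k0,k0],[k0,k2,k0,k1,k0,k0],[k0,k2,k0,k0,k0,k1],[k0,k1,k1,k0,k0,k1],
    [k0,k1,k0,k1,k0,k1],[k0,k1,k0,k0,k1,k1],[k0,k1,k0,k0,k0,k2],[k0,k0,k1,k0,k1,k1],[k0,k0,k1,k0,k0,k2],[k0,k0,k0,k0,
    k2,k1],[k0,k0,k0,k0,k1,k2],[k0,k0,k0,k0,k0,k3]]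
    [.ref (nat_lit 394) k6 [(z3,[y1,z2]),(z3,[z2,y1]),(z1,[z0,z0,z1]),(z1,[z0,z0,z0,z1])],.ref (nat_lit 516) k1 [(z1,
    [z1,z2,z3,z5,y4]),(z1,[z1,z2,z4,z4,y4]),(z1,[z0,y1,y2,y2,z2]),(z2,[y3,y4,y7,y10,z10])],.ref (nat_lit 271) k6 [(z1,
    [y1,z1,y1,y1,z1]),(z1,[z2,z1,z2,z2,y2]),(z1,[z0,z0,z1]),(z1,[z0,z0,z0,z1])],.ref (nat_lit 394) k0 [(z1,[z3,y2,
    y6]),(z1,[y1,z1,z3]),(z1,[y1,z1,z2,z1]),(z2,[y3,z1,z4,y2,z2])],.ref (nat_lit 394) k6 [(z1,[y1,z1,z1]),(z1,[z2,y1,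
    y2]),(z1,[z0,z0,z1]),(z1,[z0,z0,z0,z1])],.ref (nat_lit 394) k0 [(z1,[z3,y2,y3,y3]),(z1,[y1,z1,z2,z1]),(z1,[y1,z1,
    z1,z2]),(z2,[y3,z1,z1,z1,z2])],.ref (nat_lit 394) k6 [(z1,[y1,z1,z0,z1]),(z1,[z2,y1,z0,y2]),(z1,[z0,z0,z1]),(z1,
    [z0,z0,z0,z1])],.ref k68 k2 [(z1,[y1,y1,y2,y2,z2]),(z1,[y2,z0,y2,z1,z2]),(z1,[y2,z0,z1,y2,z2]),(z1,[z2,z1,z2,z2,
    y2])],.ref (nat_lit 517) k5 [(z1,[z1,z2,z4,z4,y4]),(z1,[z3,z7,z13,z13,y13]),(z1,[z0,y1,y2,y2,z2]),(z1,[y2,y4,y7,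
    y8,z8])],.ref (nat_lit 516) k1 [(z1,[z2,z2,z2,z5,y4]),(z1,[z2,z2,z3,z4,y4]),(z1,[z0,y1,y2,y2,z2]),(z1,[y3,y2,y2,
    y5,z5])],.ref k95 k6 [(z1,[y1,z1]),(z1,[z2,y1]),(z1,[z0,z0,z1]),(z1,[z0,z0,z0,z1])],.ref k68 k2 [(z2,[y1,y1,y2,y2,
    z2]),(z1,[y1,z1,z0,z3]),(z1,[y1,z1,z3]),(z1,[z1])],.ref k68 k2 [(z2,[z1,y2,y5,y2,z2]),(z1,[z1,z0,y3,z3]),(z1,
    [z1]),(z1,[y1,z1,z3])],.ref k68 k2 [(z2,[z1,y2,y4,y3,z2]),(z1,[z1,z0,y2,z2]),(z1,[z1,z0,z1,y1]),(z1,[y1,z1,z2,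
    z1])],.ref k95 k6 [(z1,[z1,z1,y1,z1,y1]),(z1,[y2,y1,z2,y2,z2]),(z1,[z0,z0,z1]),(z1,[z0,z0,z0,z1])],
    .ref (nat_lit 394) k6 [(z1,[z1,z0,y2]),(z1,[y2,z1,z4]),(z1,[z0,z0,z1]),(z1,[z0,z0,z0,z1])],
    .ref (nat_lit 394) k6 [(z1,[z1,z0,y1,y1]),(z1,[y2,z1,z2,z2]),(z1,[z0,z0,z1]),(z1,[z0,z0,z0,z1])],
    .ref (nat_lit 516) k1 [(z1,[y2,z2,z4,z3,y2]),(z1,[y2,z2,z5,z2,y2]),(z1,[z0,y1,y2,y2,z2]),(z1,[z3,y2,y5,y2,z2])],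
    .ref (nat_lit 394) k0 [(z1,[y6,z1,z6]),(z1,[z2,z0,y1]),(z1,[z2,z0,y2,z1]),(z1,[z3,y1,y4,y1,z1])],
    .ref (nat_lit 394) k0 [(z1,[y3,z1,z3]),(z1,[z1]),(z1,[z1,z0,y1,z1]),(z2,[z3,y2,y5,y2,z2])],
    .ref (nat_lit 394) k0 [(z1,[y6,z1,z0,z6]),(z1,[z2,z0,z1,y2]),(z1,[z2,z0,z0,y1]),(z1,[z3,y1,y1,y4,z1])],
    .ref (nat_lit 394) k0 [(z1,[y3,z1,z0,z3]),(z1,[z1,z0,z1,y1]),(z1,[z1]),(z2,[z3,y2,y2,y5,z2])],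
    .ref (nat_lit 518) k3 [(z1,[z2,y2,y2,y7,z2]),(z1,[z0,z0,z0,z1]),(z1,[z1,z0,z0,y1]),(z1,[y2,z1,z0,z5])],
    .ref (nat_lit 519) k3 [(z1,[z2,y4,y4,y11,z4]),(z1,[z0,z0,z0,z1]),(z1,[z2,z0,z0,y1]),(z1,[y2,z2,z0,z7])],
    .ref (nat_lit 520) k0 [(z1,[y2,z3]),(z1,[z0,z0,z1]),(z1,[z0,z0,z0,z1]),(z1,[z1,y3,y3,y3,z3])]],
    .lp k0 [k80,k68,k86,k82,k86,k76] [k3,k3,k9,k9,k0,k0,k2,k2,k0,k0,k5,k5] k0 [[k0,k0,k0,k4,k4,k4,k4,k0,k0,k0,k0,k0],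
    [k2,k0,k0,k0,k0,k0,k0,k0,k0,k0,k8,k6],[k0,k4,k0,k0,k0,k0,k0,k0,k0,k2,k4,k0],[k0,k0,k0,k0,k0,k0,k0,k0,k0,k0,k0,k0],
    [k0,k4,k0,k0,k0,k2,k0,k0,k0,k0,k2,k2],[k0,k4,k0,k0,k0,k0,k0,k0,k0,k2,k0,k0],[k0,k0,k0,k0,k0,k0,k0,k2,k2,k0,k0,k0],
    [k0,k4,k0,k0,k0,k0,k0,k0,k0,k0,k0,k0],[k0,k0,k0,k2,k2,k0,k0,k0,k0,k0,k8,k10],[k0,k0,k0,k0,k0,k0,k0,k2,k0,k0,k0,
    k0],[k6,k0,k0,k0,k0,k2,k0,k0,k0,k10,k0,k2],[k8,k0,k0,k4,k0,k2,k0,k0,k0,k8,k0,k0]] (nat_lit 240) k5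
    [[(k3,k66),(k2,k70),(k8,k75),(k10,k78),(k4,k81),(k6,k81),(k1,k82),(k5,k83),(k7,k83),(k9,k83),(k0,k86),(k11,k88)],
    [(k2,k70),(k3,k74),(k7,k77),(k11,k78),(k4,k79),(k9,k79),(k6,k81),(k0,k82),(k5,k83),(k8,k83),(k1,k86),(k10,k86)],
    [(k1,k66),(k3,k66),(k10,k66),(k2,k68),(k11,k72),(k0,k74),(k8,k77),(k9,k77),(k6,k79),(k7,k79),(k4,k81),(k5,k81)],
    [(k2,k68),(k3,k68),(k0,k70),(k1,k70),(k10,k72),(k11,k72),(k6,k75),(k7,k75),(k8,k75),(k4,k77),(k5,k77),(k9,k77)],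
    [(k2,k77),(k3,k81),(k0,k83),(k1,k83),(k11,k83),(k6,k84),(k7,k84),(k10,k85),(k4,k86),(k5,k86),(k8,k86),(k9,k86)],
    [(k2,k77),(k0,k79),(k10,k79),(k1,k81),(k3,k81),(k11,k83),(k4,k84),(k6,k84),(k7,k84),(k5,k86),(k8,k86),(k9,k86)],
    [(k2,k75),(k0,k77),(k3,k79),(k11,k79),(k10,k81),(k6,k82),(k8,k82),(k1,k83),(k4,k84),(k5,k84),(k7,k84),(k9,k84)],
    [(k2,k75),(k11,k77),(k3,k79),(k10,k79),(k6,k80),(k0,k81),(k1,k81),(k7,k82),(k4,k84),(k5,k84),(k8,k84),(k9,k84)],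
    [(k2,k77),(k3,k77),(k0,k79),(k10,k81),(k11,k81),(k1,k83),(k6,k84),(k7,k84),(k4,k86),(k5,k86),(k8,k88),(k9,k88)],
    [(k10,k71),(k1,k75),(k2,k75),(k3,k77),(k11,k81),(k7,k82),(k0,k83),(k6,k84),(k4,k86),(k5,k86),(k8,k86),(k9,k88)],
    [(k2,k72),(k3,k72),(k11,k76),(k6,k77),(k0,k78),(k7,k79),(k8,k81),(k9,k81),(k4,k83),(k5,k83),(k10,k84),(k1,k88)],
    [(k3,k66),(k8,k71),(k2,k72),(k10,k74),(k1,k78),(k4,k79),(k6,k79),(k7,k81),(k9,k81),(k11,k84),(k5,k85),(k0,k86)]]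
    [[k2,k1,k0,k0,k0,k0],[k1,k2,k0,k0,k0,k0],[k1,k1,k1,k0,k0,k0],[k1,k1,k0,k1,k0,k0],[k1,k1,k0,k0,k1,k0],[k1,k1,k0,k0,
    k0,k1],[k1,k0,k0,k1,k1,k0],[k1,k0,k0,k0,k1,k1],[k1,k0,k0,k1,k0,k1],[k0,k3,k0,k0,k0,k0],[k0,k2,k1,k0,k0,k0],[k0,k2,
    k0,k1,k0,k0],[k0,k2,k0,k0,k1,k0],[k0,k2,k0,k0,k0,k1],[k0,k1,k1,k0,k0,k1],[k0,k1,k0,k2,k0,k0],[k0,k1,k0,k1,k1,k0],
    [k0,k1,k0,k1,k0,k1],[k0,k1,k0,k0,k1,k1],[k0,k1,k0,k0,k0,k2],[k0,k0,k0,k1,k1,k1],[k0,k0,k0,k1,k0,k2],[k0,k0,k0,k0,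
    k1,k2],[k0,k0,k0,k0,k0,k3]]
    [.ref k25 k0 [(z6,[z13,y8,y13]),(z3,[y4,z8,z13]),(z3,[y1,z2,z1,z9]),(z3,[y4,z8,z4,z0,z9]),(z3,[z2,y13,y11,y9,y9,
    z9])],.ref k25 k0 [(z1,[y13,z16,z26]),(z1,[z8,y8,y13]),(z1,[z2,y2,y4,z3]),(z1,[z8,y8,y16,z0,z3]),(z1,[y4,z1,z5,y3,
    y3,z3])],.ref k25 k0 [(z1,[z13,y10,y13,y13]),(z1,[y8,z8,z11,z8]),(z1,[y2,z2,z2,z5]),(z1,[y8,z8,z8,z8,z3]),(z1,[z4,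
    y7,y7,y7,y3,z3])],.ref k25 k0 [(z1,[y13,z16,z13,z0,z13]),(z1,[z8,y8,y5,z0,y8]),(z1,[z2,y2,y2,z3,y2]),(z1,[z8,y8,
    y8,z0,y5]),(z1,[y4,z1,z1,y3,z1,z3])],.ref k25 k0 [(z3,[z13,z9,z0,z13,z13,y13]),(z3,[y8,z0,z9,y8,y8,z8]),(z3,[y2,
    z0,z0,z7,y2,z2]),(z3,[y8,z0,z0,y8,z1,z8]),(z3,[z4,y9,y9,y5,y5,z5])],.ref k25 k0 [(z2,[z13,y7,y13]),(z1,[y4,z4,
    z7]),(z1,[y1,z1,z1,z3]),(z1,[y4,z4,z4,z0,z3]),(z1,[z2,y5,y5,y3,y3,z3])],.ref k25 k0 [(z3,[z13,z9,z13,z13,z0,y13]),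
    (z3,[y8,z0,z1,y8,z0,z8]),(z3,[y2,z0,y2,z7,z0,z2]),(z3,[y8,z0,y8,y8,z9,z8]),(z3,[z4,y9,y5,y5,y9,z5])],
    .ref k25 k0 [(z6,[z13,z18,z13,z13,z13,y13]),(z3,[y4,z0,z5,y4,y4,z4]),(z3,[y1,z0,y1,z8,y1,z1]),(z3,[y4,z0,y4,y4,z5,
    z4]),(z3,[z2,y9,y7,y7,y7,z7])],.ref k25 k0 [(z2,[z13,y7,z0,z0,y13]),(z1,[y4,z4,z3,z0,z4]),(z1,[y1,z1,z0,z3,z1]),
    (z1,[y4,z4,z0,z0,z7]),(z1,[z2,y5,y3,y3,y5,z3])],.ref k25 k0 [(z8,[y13,z24,z39]),(z1,[z1]),(z4,[z1,z0,y3,z12]),(z1,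
    [z1,z0,y3,z0,z3]),(z2,[y1,y6,y3,y6,y6,z6])],.ref k25 k0 [(z6,[y13,z18,z26,z13]),(z3,[z4,z0,z1,y4]),(z3,[z1,z0,y2,
    z8]),(z3,[z4,z0,y8,y4,z9]),(z3,[y2,y9,y5,y7,y9,z9])],.ref k25 k0 [(z8,[y13,z24,z26,z0,z13]),(z1,[z1,z0,z1,z0,y1]),
    (z4,[z1,z0,y2,z12,y1]),(z1,[z1,z0,y2,z0,z2]),(z2,[y1,y6,y4,y6,y5,z6])],.ref k25 k0 [(z4,[y13,y1,z13,y13,y13,z13]),
    (z1,[z2,z2,z1,z2,z2,y2]),(z2,[z1,z1,y1,z7,z1,y1]),(z1,[z2,z2,y2,z2,z5,y2]),(z1,[y1,y4,y2,y4,y4,z4])],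
    .ref k25 k0 [(z5,[y13,z15,z26]),(z5,[z8,z0,y1]),(z5,[z2,z0,y4,z15]),(z5,[z8,z0,y16,z0,z15]),(z5,[y4,y15,y7,y15,
    y15,z15])],.ref k25 k0 [(z3,[y13,z9,z13,z13]),(z3,[z8,z0,z1,y8]),(z3,[z2,z0,y2,z7]),(z3,[z8,z0,y8,y8,z9]),(z3,[y4,
    y9,y5,y5,y9,z9])],.ref k25 k0 [(z8,[y13,z24,z13,z0,z26]),(z1,[z1,z0,z2,z0,y2]),(z4,[z1,z0,y1,z12,y2]),(z1,[z1,z0,
    y1,z0,z1]),(z2,[y1,y6,y5,y6,y4,z6])],.ref k25 k0 [(z4,[y13,y1,z0,y13,z0,z13]),(z1,[z2,z2,z3,z2,z0,y2]),(z2,[z1,z1,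
    z0,z7,z0,y1]),(z1,[z2,z2,z0,z2,z3,y2]),(z1,[y1,y4,y3,y4,y3,z4])],.ref k25 k0 [(z5,[y13,z15,z13,z0,z13]),(z5,[z8,
    z0,z7,z0,y8]),(z5,[z2,z0,y2,z15,y2]),(z5,[z8,z0,y8,z0,z7]),(z5,[y4,y15,y11,y15,y11,z15])],.ref k25 k0 [(z1,[y13,
    y10,z0,y13,y13,z13]),(z1,[z8,z8,z3,z8,z8,y8]),(z1,[z2,z2,z0,z5,z2,y2]),(z1,[z8,z8,z0,z8,z11,y8]),(z1,[y4,y7,y3,y7,
    y7,z7])],.ref k25 k0 [(z2,[y13,z6,z13]),(z1,[z4,z0,y1]),(z1,[z1,z0,y1,z3]),(z1,[z4,z0,y4,z0,z3]),(z1,[y2,y3,y1,y3,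
    y3,z3])],.ref k25 k0 [(z1,[y13,y10,y13,y13,z0,z13]),(z1,[z8,z8,z11,z8,z0,y8]),(z1,[z2,z2,z2,z5,z0,y2]),(z1,[z8,z8,
    z8,z8,z3,y8]),(z1,[y4,y7,y7,y7,y3,z7])],.ref k25 k0 [(z2,[y13,z6,z0,z0,z13]),(z1,[z4,z0,z3,z0,y4]),(z1,[z1,z0,z0,
    z3,y1]),(z1,[z4,z0,z0,z0,y1]),(z1,[y2,y3,y3,y3,y1,z3])],.ref k25 k0 [(z2,[z13,z19,z13,z13,z13,y13]),(z1,[y4,y4,y1,
    y4,y4,z4]),(z1,[y1,y1,y1,z2,y1,z1]),(z1,[y4,y4,y4,y4,y1,z4]),(z1,[z2,y1,y1,y1,y1,z1])],.ref k25 k0 [(z1,[z13,z3]),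
    (z1,[y8,z0,z3]),(z1,[y2,z0,z0,z3]),(z1,[y8,z0,z0,z0,z3]),(z1,[z4,y3,y3,y3,y3,z3])]],
    .base (.leafM k3 [k1,k2,k3,k4,k5,k0] [(z1,[y1,y1,z0,y1,z1])] []),
    .base (.leafM k0 [k2,k3,k4,k5,k0,k1] [(z1,[y1,y1,y1,z0,z1])] []),
    .base (.leafM k0 [k0,k1,k2,k3,k4,k5] [(z1,[z0,z1,z1,z1])] []),
    .lp k0 [k80,k68,k86,k82,k86,k76] [k3,k3,k9,k9,k0,k0,k2,k2,k0,k0,k5,k5] k0 [[k0,k0,k0,k4,k4,k4,k4,k0,k0,k0,k0,k0],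
    [k2,k0,k0,k0,k0,k0,k0,k0,k0,k0,k8,k6],[k0,k4,k0,k0,k0,k0,k0,k0,k0,k2,k4,k0],[k0,k0,k0,k0,k0,k0,k0,k0,k0,k0,k0,k0],
    [k0,k4,k0,k0,k0,k2,k0,k0,k0,k0,k2,k2],[k0,k4,k0,k0,k0,k0,k0,k0,k0,k2,k0,k0],[k0,k0,k0,k0,k0,k0,k0,k2,k2,k0,k0,k0],
    [k0,k4,k0,k0,k0,k0,k0,k0,k0,k0,k0,k0],[k0,k0,k0,k2,k2,k0,k0,k0,k0,k0,k8,k10],[k0,k0,k0,k0,k0,k0,k0,k2,k0,k0,k0,
    k0],[k6,k0,k0,k0,k0,k2,k0,k0,k0,k10,k0,k2],[k8,k0,k0,k4,k0,k2,k0,k0,k0,k8,k0,k0]] (nat_lit 240) k5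
    [[(k3,k66),(k2,k70),(k8,k75),(k10,k78),(k4,k81),(k6,k81),(k1,k82),(k5,k83),(k7,k83),(k9,k83),(k0,k86),(k11,k88)],
    [(k2,k70),(k3,k74),(k7,k77),(k11,k78),(k4,k79),(k9,k79),(k6,k81),(k0,k82),(k5,k83),(k8,k83),(k1,k86),(k10,k86)],
    [(k1,k66),(k3,k66),(k10,k66),(k2,k68),(k11,k72),(k0,k74),(k8,k77),(k9,k77),(k6,k79),(k7,k79),(k4,k81),(k5,k81)],
    [(k2,k68),(k3,k68),(k0,k70),(k1,k70),(k10,k72),(k11,k72),(k6,k75),(k7,k75),(k8,k75),(k4,k77),(k5,k77),(k9,k77)],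
    [(k2,k77),(k3,k81),(k0,k83),(k1,k83),(k11,k83),(k6,k84),(k7,k84),(k10,k85),(k4,k86),(k5,k86),(k8,k86),(k9,k86)],
    [(k2,k77),(k0,k79),(k10,k79),(k1,k81),(k3,k81),(k11,k83),(k4,k84),(k6,k84),(k7,k84),(k5,k86),(k8,k86),(k9,k86)],
    [(k2,k75),(k0,k77),(k3,k79),(k11,k79),(k10,k81),(k6,k82),(k8,k82),(k1,k83),(k4,k84),(k5,k84),(k7,k84),(k9,k84)],
    [(k2,k75),(k11,k77),(k3,k79),(k10,k79),(k6,k80),(k0,k81),(k1,k81),(k7,k82),(k4,k84),(k5,k84),(k8,k84),(k9,k84)],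
    [(k2,k77),(k3,k77),(k0,k79),(k10,k81),(k11,k81),(k1,k83),(k6,k84),(k7,k84),(k4,k86),(k5,k86),(k8,k88),(k9,k88)],
    [(k10,k71),(k1,k75),(k2,k75),(k3,k77),(k11,k81),(k7,k82),(k0,k83),(k6,k84),(k4,k86),(k5,k86),(k8,k86),(k9,k88)],
    [(k2,k72),(k3,k72),(k11,k76),(k6,k77),(k0,k78),(k7,k79),(k8,k81),(k9,k81),(k4,k83),(k5,k83),(k10,k84),(k1,k88)],
    [(k3,k66),(k8,k71),(k2,k72),(k10,k74),(k1,k78),(k4,k79),(k6,k79),(k7,k81),(k9,k81),(k11,k84),(k5,k85),(k0,k86)]]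
    [[k2,k1,k0,k0,k0,k0],[k1,k2,k0,k0,k0,k0],[k1,k1,k1,k0,k0,k0],[k1,k1,k0,k1,k0,k0],[k1,k1,k0,k0,k1,k0],[k1,k1,k0,k0,
    k0,k1],[k1,k0,k0,k1,k1,k0],[k1,k0,k0,k0,k1,k1],[k1,k0,k0,k1,k0,k1],[k0,k3,k0,k0,k0,k0],[k0,k2,k1,k0,k0,k0],[k0,k2,
    k0,k1,k0,k0],[k0,k2,k0,k0,k1,k0],[k0,k2,k0,k0,k0,k1],[k0,k1,k1,k0,k0,k1],[k0,k1,k0,k2,k0,k0],[k0,k1,k0,k1,k1,k0],
    [k0,k1,k0,k1,k0,k1],[k0,k1,k0,k0,k1,k1],[k0,k1,k0,k0,k0,k2],[k0,k0,k0,k1,k1,k1],[k0,k0,k0,k1,k0,k2],[k0,k0,k0,k0,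
    k1,k2],[k0,k0,k0,k0,k0,k3]]
    [.ref k25 k0 [(z2,[z15,y8,y15]),(z1,[y12,z8,z15]),(z1,[y3,z2,z3,z3]),(z1,[z0,z0,z0,z0,z1]),(z1,[z6,y5,y9,y3,y1,
    z3])],.ref k25 k0 [(z11,[y15,z16,z30]),(z11,[z24,y8,y15]),(z11,[z6,y2,y12,z33]),(z1,[z0,z0,z0,z0,z1]),(z11,[y12,
    y7,y9,y33,y11,z33])],.ref k25 k0 [(z1,[y3,z2,z3,z3]),(z5,[z24,y8,y9,y24]),(z5,[z6,y2,y6,z9]),(z1,[z0,z0,z0,z0,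
    z1]),(z5,[y12,y1,y3,y3,y5,z15])],.ref k25 k0 [(z3,[y15,z8,z15,z0,z5]),(z3,[z24,y8,y15,z0,y8]),(z3,[z6,y2,y6,z9,
    y2]),(z1,[z0,z0,z0,z0,z1]),(z3,[y12,z1,z3,y9,z1,z9])],.ref k25 k0 [(z1,[z15,z1,z0,z15,z5,y15]),(z1,[y24,z0,z3,y24,
    y8,z24]),(z1,[y6,z0,z0,y3,y2,z6]),(z1,[z0,z0,z0,z0,z1]),(z1,[z12,y1,y3,z9,z3,y9])],.ref k25 k0 [(z2,[y15,z7,z15]),
    (z1,[z12,y4,y9]),(z1,[z3,y1,y3,z3]),(z1,[z0,z0,z0,z0,z1]),(z1,[y6,z1,z3,y3,y1,z3])],.ref k25 k0 [(z3,[z5,z3,z5,z5,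
    z0,y5]),(z3,[y8,z0,z1,y8,z0,z8]),(z3,[y2,z0,y2,z7,z0,z2]),(z1,[z0,z0,z0,z0,z1]),(z3,[z4,y3,y5,y5,y3,z5])],
    .ref k25 k0 [(z2,[z3,z2,z3,z3,z1,y3]),(z5,[y12,z0,z3,y12,y4,z12]),(z5,[y3,z0,y3,z12,y1,z3]),(z1,[z0,z0,z0,z0,z1]),
    (z5,[z6,y5,y9,y9,y3,z9])],.ref k25 k0 [(z6,[z15,z1,z0,z0,y5]),(z3,[y12,z4,z9,z0,z4]),(z3,[y3,z1,z0,z9,z1]),(z1,
    [z0,z0,z0,z0,z1]),(z3,[z6,y5,y9,y9,y5,z9])],.ref k25 k0 [(z8,[y5,z8,z15]),(z1,[z1]),(z4,[z1,z0,y3,z12]),(z1,[z0,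
    z0,z0,z0,z1]),(z2,[y1,y2,y3,y6,y2,z6])],.ref k25 k0 [(z6,[y5,z6,z10,z5]),(z3,[z4,z0,z1,y4]),(z3,[z1,z0,y2,z8]),
    (z1,[z0,z0,z0,z0,z1]),(z3,[y2,y3,y5,y7,y3,z9])],.ref k25 k0 [(z16,[y15,z16,z30,z0,z5]),(z2,[z3,z0,z0,z0,y1]),(z8,
    [z3,z0,y6,z24,y1]),(z1,[z0,z0,z0,z0,z1]),(z4,[y3,y4,y6,y12,y3,z12])],.ref k25 k0 [(z12,[y15,z7,z15,y15,y5,z15]),
    (z3,[z6,z2,z3,z6,z2,y6]),(z6,[z3,z1,y3,z21,z1,y3]),(z1,[z0,z0,z0,z0,z1]),(z3,[y3,y4,y6,y12,y4,z12])],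
    .ref k25 k0 [(z1,[y1,z1,z2]),(z5,[z8,z0,y1]),(z5,[z2,z0,y4,z15]),(z1,[z0,z0,z0,z0,z1]),(z5,[y4,y5,y7,y15,y5,
    z15])],.ref k25 k0 [(z3,[y5,z3,z5,z5]),(z3,[z8,z0,z1,y8]),(z3,[z2,z0,y2,z7]),(z1,[z0,z0,z0,z0,z1]),(z3,[y4,y3,y5,
    y5,y3,z9])],.ref k25 k0 [(z8,[y15,z8,z15,z0,z10]),(z1,[z3,z0,z0,z0,y2]),(z4,[z3,z0,y3,z12,y2]),(z1,[z0,z0,z0,z0,
    z1]),(z2,[y3,y2,y3,y6,z0,z6])],.ref k25 k0 [(z4,[y15,y1,z0,y15,z0,z15]),(z1,[z6,z2,z3,z6,z0,y6]),(z2,[z3,z1,z0,z9,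
    z0,y3]),(z1,[z0,z0,z0,z0,z1]),(z1,[y3,y2,y3,y6,y1,z6])],.ref k25 k0 [(z7,[y15,z7,z15,z0,z5]),(z7,[z24,z0,y3,z0,
    y8]),(z7,[z6,z0,y6,z21,y2]),(z1,[z0,z0,z0,z0,z1]),(z7,[y12,y7,y9,y21,y3,z21])],.ref k25 k0 [(z3,[y15,y2,z0,y15,y5,
    z15]),(z3,[z24,z8,z9,z24,z8,y24]),(z3,[z6,z2,z0,z15,z2,y6]),(z1,[z0,z0,z0,z0,z1]),(z3,[y12,y7,y9,y21,y7,z21])],
    .ref k25 k0 [(z2,[y5,z2,z5]),(z1,[z4,z0,y1]),(z1,[z1,z0,y1,z3]),(z1,[z0,z0,z0,z0,z1]),(z1,[y2,y1,y1,y3,y1,z3])],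
    .ref k25 k0 [(z1,[z3,z2,z3,z3,z0,y3]),(z5,[y24,y8,y9,y24,z0,z24]),(z5,[y6,y2,y6,z9,z0,z6]),(z1,[z0,z0,z0,z0,z1]),
    (z5,[z12,y1,y3,y3,y5,z3])],.ref k25 k0 [(z2,[z15,z2,z0,z0,y5]),(z1,[y12,z0,z3,z0,z4]),(z1,[y3,z0,z0,z3,z1]),(z1,
    [z0,z0,z0,z0,z1]),(z1,[z6,y1,y3,y3,y3,z3])],.ref k25 k0 [(z6,[z15,z11,z15,z15,z5,y15]),(z3,[y12,y4,y3,y12,y4,
    z12]),(z3,[y3,y1,y3,z6,y1,z3]),(z1,[z0,z0,z0,z0,z1]),(z3,[z6,y1,y3,y3,y1,z3])],.ref k25 k0 [(z1,[z5,z1]),(z1,[y8,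
    z0,z3]),(z1,[y2,z0,z0,z3]),(z1,[z0,z0,z0,z0,z1]),(z1,[z4,y1,y3,y3,y1,z3])]],
    .lp k0 [k80,k68,k86,k82,k86,k76] [k3,k3,k9,k9,k0,k0,k2,k2,k0,k0,k5,k5] k0 [[k0,k0,k0,k4,k4,k4,k4,k0,k0,k0,k0,k0],
    [k2,k0,k0,k0,k0,k0,k0,k0,k0,k0,k8,k6],[k0,k4,k0,k0,k0,k0,k0,k0,k0,k2,k4,k0],[k0,k0,k0,k0,k0,k0,k0,k0,k0,k0,k0,k0],
    [k0,k4,k0,k0,k0,k2,k0,k0,k0,k0,k2,k2],[k0,k4,k0,k0,k0,k0,k0,k0,k0,k2,k0,k0],[k0,k0,k0,k0,k0,k0,k0,k2,k2,k0,k0,k0],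
    [k0,k4,k0,k0,k0,k0,k0,k0,k0,k0,k0,k0],[k0,k0,k0,k2,k2,k0,k0,k0,k0,k0,k8,k10],[k0,k0,k0,k0,k0,k0,k0,k2,k0,k0,k0,
    k0],[k6,k0,k0,k0,k0,k2,k0,k0,k0,k10,k0,k2],[k8,k0,k0,k4,k0,k2,k0,k0,k0,k8,k0,k0]] (nat_lit 240) k5
    [[(k3,k66),(k2,k70),(k8,k75),(k10,k78),(k4,k81),(k6,k81),(k1,k82),(k5,k83),(k7,k83),(k9,k83),(k0,k86),(k11,k88)],
    [(k2,k70),(k3,k74),(k7,k77),(k11,k78),(k4,k79),(k9,k79),(k6,k81),(k0,k82),(k5,k83),(k8,k83),(k1,k86),(k10,k86)],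
    [(k1,k66),(k3,k66),(k10,k66),(k2,k68),(k11,k72),(k0,k74),(k8,k77),(k9,k77),(k6,k79),(k7,k79),(k4,k81),(k5,k81)],
    [(k2,k68),(k3,k68),(k0,k70),(k1,k70),(k10,k72),(k11,k72),(k6,k75),(k7,k75),(k8,k75),(k4,k77),(k5,k77),(k9,k77)],
    [(k2,k77),(k3,k81),(k0,k83),(k1,k83),(k11,k83),(k6,k84),(k7,k84),(k10,k85),(k4,k86),(k5,k86),(k8,k86),(k9,k86)],
    [(k2,k77),(k0,k79),(k10,k79),(k1,k81),(k3,k81),(k11,k83),(k4,k84),(k6,k84),(k7,k84),(k5,k86),(k8,k86),(k9,k86)],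
    [(k2,k75),(k0,k77),(k3,k79),(k11,k79),(k10,k81),(k6,k82),(k8,k82),(k1,k83),(k4,k84),(k5,k84),(k7,k84),(k9,k84)],
    [(k2,k75),(k11,k77),(k3,k79),(k10,k79),(k6,k80),(k0,k81),(k1,k81),(k7,k82),(k4,k84),(k5,k84),(k8,k84),(k9,k84)],
    [(k2,k77),(k3,k77),(k0,k79),(k10,k81),(k11,k81),(k1,k83),(k6,k84),(k7,k84),(k4,k86),(k5,k86),(k8,k88),(k9,k88)],
    [(k10,k71),(k1,k75),(k2,k75),(k3,k77),(k11,k81),(k7,k82),(k0,k83),(k6,k84),(k4,k86),(k5,k86),(k8,k86),(k9,k88)],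
    [(k2,k72),(k3,k72),(k11,k76),(k6,k77),(k0,k78),(k7,k79),(k8,k81),(k9,k81),(k4,k83),(k5,k83),(k10,k84),(k1,k88)],
    [(k3,k66),(k8,k71),(k2,k72),(k10,k74),(k1,k78),(k4,k79),(k6,k79),(k7,k81),(k9,k81),(k11,k84),(k5,k85),(k0,k86)]]
    [[k2,k1,k0,k0,k0,k0],[k1,k2,k0,k0,k0,k0],[k1,k1,k1,k0,k0,k0],[k1,k1,k0,k1,k0,k0],[k1,k1,k0,k0,k1,k0],[k1,k1,k0,k0,
    k0,k1],[k1,k0,k0,k1,k1,k0],[k1,k0,k0,k0,k1,k1],[k1,k0,k0,k1,k0,k1],[k0,k3,k0,k0,k0,k0],[k0,k2,k1,k0,k0,k0],[k0,k2,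
    k0,k1,k0,k0],[k0,k2,k0,k0,k1,k0],[k0,k2,k0,k0,k0,k1],[k0,k1,k1,k0,k0,k1],[k0,k1,k0,k2,k0,k0],[k0,k1,k0,k1,k1,k0],
    [k0,k1,k0,k1,k0,k1],[k0,k1,k0,k0,k1,k1],[k0,k1,k0,k0,k0,k2],[k0,k0,k0,k1,k1,k1],[k0,k0,k0,k1,k0,k2],[k0,k0,k0,k0,
    k1,k2],[k0,k0,k0,k0,k0,k3]]
    [.ref k25 k0 [(z2,[z11,y8,y11]),(z1,[y8,z8,z11]),(z1,[y2,z2,z2,z3]),(z2,[y1,z1,z1,z0,z3]),(z2,[z8,y11,y14,y6,y3,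
    z6])],.ref k25 k0 [(z7,[y11,z16,z22]),(z7,[z16,y8,y11]),(z7,[z4,y2,y8,z21]),(z14,[z2,y1,y4,z0,z21]),(z14,[y16,y13,
    y10,y42,y21,z42])],.ref k25 k0 [(z3,[y11,z10,z11,z11]),(z3,[z16,y8,y7,y16]),(z3,[z4,y2,y4,z5]),(z6,[z2,y1,y2,y2,
    z9]),(z6,[y16,y1,y2,y2,y9,z18])],.ref k25 k0 [(z4,[y22,z17,z22,z0,z11]),(z1,[z8,y4,y5,z0,y4]),(z1,[z2,y1,y2,z3,
    y1]),(z4,[z2,y1,y2,z0,z5]),(z2,[y8,z1,z2,y6,z1,z6])],.ref k25 k0 [(z2,[z22,z3,z0,z22,z11,y22]),(z1,[y16,z0,z3,y16,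
    y8,z16]),(z1,[y4,z0,z0,y1,y2,z4]),(z1,[y1,z0,z0,y1,z1,z1]),(z2,[z16,y3,y6,z10,z5,y10])],.ref k25 k0 [(z1,[y11,z7,
    z11]),(z1,[z16,y8,y13]),(z1,[z4,y2,y4,z3]),(z2,[z2,y1,y2,z0,z3]),(z2,[y16,z5,z10,y6,y3,z6])],.ref k25 k0 [(z6,
    [z11,z9,z11,z11,z0,y11]),(z3,[y8,z0,z1,y8,z0,z8]),(z3,[y2,z0,y2,z7,z0,z2]),(z6,[y1,z0,y1,y1,z9,z1]),(z6,[z8,y9,
    y10,y10,y9,z10])],.ref k25 k0 [(z14,[z22,z21,z22,z22,z11,y22]),(z7,[y16,z0,z5,y16,y8,z16]),(z7,[y4,z0,y4,z17,y2,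
    z4]),(z7,[y1,z0,y1,y1,z10,z1]),(z14,[z16,y21,y26,y26,y13,z26])],.ref k25 k0 [(z8,[z22,z1,z0,z0,y11]),(z1,[y4,z2,
    z3,z0,z2]),(z2,[y2,z1,z0,z6,z1]),(z8,[y2,z1,z0,z0,z13]),(z2,[z4,y5,y6,y6,y5,z6])],.ref k25 k0 [(z16,[y11,z24,
    z33]),(z1,[z1]),(z4,[z1,z0,y3,z12]),(z16,[z1,z0,y3,z0,z24]),(z2,[y1,y3,y3,y6,y3,z6])],.ref k25 k0 [(z12,[y11,z18,
    z22,z11]),(z3,[z4,z0,z1,y4]),(z3,[z1,z0,y2,z8]),(z12,[z1,z0,y2,y1,z18]),(z6,[y4,y9,y10,y14,y9,z18])],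
    .ref k25 k0 [(z2,[y2,z3,z4,z0,z1]),(z11,[z16,z0,z1,z0,y8]),(z11,[z4,z0,y8,z33,y2]),(z11,[z1,z0,y2,z0,z16]),(z22,
    [y16,y33,y34,y66,y25,z66])],.ref k25 k0 [(z16,[y22,z13,z22,y22,y11,z22]),(z1,[z2,z1,z1,z2,z1,y2]),(z4,[z2,z1,y2,
    z14,z1,y2]),(z16,[z2,z1,y2,z2,z25,y2]),(z1,[y1,y2,y2,y4,y2,z4])],.ref k25 k0 [(z10,[y11,z15,z22]),(z5,[z8,z0,y1]),
    (z5,[z2,z0,y4,z15]),(z10,[z1,z0,y2,z0,z15]),(z10,[y8,y15,y14,y30,y15,z30])],.ref k25 k0 [(z6,[y11,z9,z11,z11]),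
    (z3,[z8,z0,z1,y8]),(z3,[z2,z0,y2,z7]),(z6,[z1,z0,y1,y1,z9]),(z6,[y8,y9,y10,y10,y9,z18])],.ref k25 k0 [(z6,[y11,z9,
    z11,z0,z11]),(z3,[z8,z0,z1,z0,y8]),(z3,[z2,z0,y2,z9,y2]),(z6,[z1,z0,y1,z0,z8]),(z6,[y8,y9,y10,y18,y1,z18])],
    .ref k25 k0 [(z3,[y11,y1,z0,y11,z0,z11]),(z3,[z16,z8,z9,z16,z0,y16]),(z3,[z4,z2,z0,z13,z0,y4]),(z6,[z2,z1,z0,z2,
    z9,y2]),(z6,[y16,y17,y18,y34,y9,z34])],.ref k25 k0 [(z10,[y22,z15,z22,z0,z11]),(z5,[z16,z0,y1,z0,y8]),(z5,[z4,z0,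
    y4,z15,y2]),(z5,[z1,z0,y1,z0,z7]),(z10,[y16,y15,y14,y30,y7,z30])],.ref k25 k0 [(z4,[y22,y5,z0,y22,y11,z22]),(z1,
    [z8,z4,z3,z8,z4,y8]),(z1,[z2,z1,z0,z5,z1,y2]),(z4,[z2,z1,z0,z2,z7,y2]),(z2,[y8,y7,y6,y14,y7,z14])],
    .ref k25 k0 [(z4,[y11,z6,z11]),(z1,[z4,z0,y1]),(z1,[z1,z0,y1,z3]),(z4,[z1,z0,y1,z0,z6]),(z2,[y4,y3,y2,y6,y3,z6])],
    .ref k25 k0 [(z3,[z11,z10,z11,z11,z0,y11]),(z3,[y16,y8,y7,y16,z0,z16]),(z3,[y4,y2,y4,z5,z0,z4]),(z6,[y2,y1,y2,y2,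
    z9,z2]),(z6,[z16,y1,y2,y2,y9,z2])],.ref k25 k0 [(z2,[z22,z3,z0,z0,y11]),(z1,[y16,z0,z3,z0,z8]),(z1,[y4,z0,z0,z3,
    z2]),(z1,[y1,z0,z0,z0,z2]),(z2,[z16,y3,y6,y6,y11,z6])],.ref k25 k0 [(z8,[z22,z23,z22,z22,z11,y22]),(z1,[y4,y2,y1,
    y4,y2,z4]),(z2,[y2,y1,y2,z4,y1,z2]),(z8,[y2,y1,y2,y2,z11,z2]),(z2,[z4,y1,y2,y2,y1,z2])],.ref k25 k0 [(z2,[z11,
    z3]),(z1,[y8,z0,z3]),(z1,[y2,z0,z0,z3]),(z2,[y1,z0,z0,z0,z3]),(z2,[z8,y3,y6,y6,y3,z6])]]]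

theorem hB6_171_43 : blkB [0, 0, 0, 0, 0, 0] [] sp6 hS6_171 (pcls (n := 6) [0, 0, 0, 0, 0, 0]) hD6_171 560 43 hN6_171_43 = true := by
  decide +kernel

end Pool.Agent.Lib_MP_fa6e45
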