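import Pool.Agent.Lib_MP_fa6e45.HK

/-!
MP_fa6e45_co, stage 4: certificates (captain, generated by a program).
-/

namespace Pool.Agent.Lib_MP_fa6e45

/-- nodes 528 to 539 -/
noncomputable def hN6_171_44 : List HM :=
  [.lp k0 [(nat_lit 244),k190,(nat_lit 256),(nat_lit 256),(nat_lit 262),(nat_lit 226)] [k9,k9,k38,k34,k3,k3,k3,k3,k0,
    k0,k18,k18] k0 [[k0,k0,k0,k24,k24,k18,k18,k0,k12,k0,k0,k0],[k12,k0,k0,k0,k0,k0,k0,k0,k0,k0,k24,k30],[k0,k24,k0,k0,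
    k0,k0,k0,k0,k6,k12,k6,k0],[k0,k0,k0,k0,k6,k6,k0,k6,k0,k0,k0,k0],[k0,k18,k6,k0,k0,k0,k0,k0,k0,k0,k0,k0],[k0,k24,k6,
    k0,k0,k0,k0,k0,k12,k12,k6,k0],[k0,k0,k6,k0,k0,k0,k0,k6,k18,k0,k0,k0],[k0,k18,k0,k0,k0,k0,k0,k0,k0,k0,k0,k0],[k0,
    k0,k0,k12,k12,k0,k0,k0,k0,k0,k42,k36],[k0,k12,k0,k6,k12,k0,k0,k18,k0,k0,k0,k0],[k30,k0,k0,k0,k0,k0,k0,k0,k0,k36,
    k0,k0],[k24,k0,k0,k6,k6,k0,k0,k0,k0,k42,k0,k0]] (nat_lit 720) k5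
    [[(k3,k195),(k2,(nat_lit 209)),(k8,(nat_lit 211)),(k10,(nat_lit 235)),(k1,(nat_lit 244)),(k7,(nat_lit 244)),(k4,
    (nat_lit 250)),(k5,(nat_lit 250)),(k6,(nat_lit 250)),(k9,(nat_lit 253)),(k11,(nat_lit 271)),(k0,(nat_lit 274))],
    [(k2,k191),(k3,(nat_lit 219)),(k11,(nat_lit 223)),(k7,(nat_lit 226)),(k4,(nat_lit 232)),(k9,(nat_lit 235)),(k5,
    (nat_lit 250)),(k6,(nat_lit 250)),(k8,(nat_lit 253)),(k0,(nat_lit 256)),(k10,(nat_lit 259)),(k1,(nat_lit 274))],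
    [(k10,k180),(k3,k182),(k2,k190),(k1,k195),(k11,(nat_lit 210)),(k0,(nat_lit 219)),(k9,(nat_lit 228)),(k8,
    (nat_lit 240)),(k6,(nat_lit 243)),(k7,(nat_lit 243)),(k4,(nat_lit 249)),(k5,(nat_lit 249))],[(k2,k186),(k3,k190),
    (k0,k191),(k11,(nat_lit 200)),(k10,(nat_lit 206)),(k1,(nat_lit 209)),(k8,(nat_lit 212)),(k5,(nat_lit 221)),(k6,
    (nat_lit 221)),(k4,(nat_lit 227)),(k7,(nat_lit 227)),(k9,(nat_lit 230))],[(k2,(nat_lit 221)),(k10,(nat_lit 247)),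
    (k3,(nat_lit 249)),(k0,(nat_lit 250)),(k1,(nat_lit 250)),(k4,(nat_lit 250)),(k6,(nat_lit 250)),(k7,(nat_lit 250)),
    (k11,(nat_lit 253)),(k5,(nat_lit 256)),(k9,(nat_lit 259)),(k8,(nat_lit 265))],[(k2,(nat_lit 227)),(k0,
    (nat_lit 232)),(k10,(nat_lit 247)),(k3,(nat_lit 249)),(k1,(nat_lit 250)),(k5,(nat_lit 250)),(k11,(nat_lit 253)),
    (k4,(nat_lit 256)),(k6,(nat_lit 256)),(k7,(nat_lit 256)),(k9,(nat_lit 259)),(k8,(nat_lit 271))],[(k0,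
    (nat_lit 226)),(k2,(nat_lit 227)),(k11,(nat_lit 229)),(k10,(nat_lit 241)),(k3,(nat_lit 243)),(k1,(nat_lit 244)),
    (k8,(nat_lit 247)),(k5,(nat_lit 250)),(k4,(nat_lit 256)),(k6,(nat_lit 256)),(k7,(nat_lit 256)),(k9,
    (nat_lit 259))],[(k2,(nat_lit 221)),(k11,(nat_lit 223)),(k10,(nat_lit 241)),(k3,(nat_lit 243)),(k0,(nat_lit 250)),
    (k1,(nat_lit 250)),(k5,(nat_lit 250)),(k6,(nat_lit 250)),(k4,(nat_lit 256)),(k7,(nat_lit 256)),(k8,(nat_lit 259)),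
    (k9,(nat_lit 259))],[(k3,(nat_lit 228)),(k2,(nat_lit 230)),(k0,(nat_lit 235)),(k10,(nat_lit 244)),(k11,
    (nat_lit 244)),(k1,(nat_lit 253)),(k4,(nat_lit 259)),(k5,(nat_lit 259)),(k6,(nat_lit 259)),(k7,(nat_lit 259)),(k9,
    (nat_lit 268)),(k8,(nat_lit 280))],[(k10,(nat_lit 208)),(k1,(nat_lit 211)),(k2,(nat_lit 212)),(k3,(nat_lit 240)),
    (k11,(nat_lit 244)),(k7,(nat_lit 247)),(k0,(nat_lit 253)),(k6,(nat_lit 259)),(k8,(nat_lit 262)),(k5,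
    (nat_lit 265)),(k4,(nat_lit 271)),(k9,(nat_lit 280))],[(k2,(nat_lit 200)),(k3,(nat_lit 210)),(k0,(nat_lit 223)),
    (k6,(nat_lit 223)),(k11,(nat_lit 226)),(k7,(nat_lit 229)),(k8,(nat_lit 244)),(k9,(nat_lit 244)),(k4,
    (nat_lit 253)),(k5,(nat_lit 253)),(k10,(nat_lit 268)),(k1,(nat_lit 271))],[(k3,k180),(k2,(nat_lit 206)),(k8,
    (nat_lit 208)),(k10,(nat_lit 226)),(k1,(nat_lit 235)),(k6,(nat_lit 241)),(k7,(nat_lit 241)),(k9,(nat_lit 244)),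
    (k4,(nat_lit 247)),(k5,(nat_lit 247)),(k0,(nat_lit 259)),(k11,(nat_lit 268))]]
    [[k2,k1,k0,k0,k0,k0],[k1,k2,k0,k0,k0,k0],[k1,k1,k1,k0,k0,k0],[k1,k1,k0,k1,k0,k0],[k1,k1,k0,k0,k1,k0],[k1,k1,k0,k0,
    k0,k1],[k1,k0,k0,k1,k0,k1],[k1,k0,k1,k0,k1,k0],[k1,k0,k0,k1,k1,k0],[k1,k0,k0,k0,k1,k1],[k0,k3,k0,k0,k0,k0],[k0,k2,
    k1,k0,k0,k0],[k0,k2,k0,k1,k0,k0],[k0,k2,k0,k0,k1,k0],[k0,k2,k0,k0,k0,k1],[k0,k1,k1,k0,k0,k1],[k0,k1,k0,k1,k1,k0],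
    [k0,k1,k0,k1,k0,k1],[k0,k1,k0,k0,k1,k1],[k0,k1,k0,k0,k0,k2],[k0,k0,k0,k1,k1,k1],[k0,k0,k0,k1,k0,k2],[k0,k0,k0,k0,
    k1,k2]]
    [.ref k25 k0 [(z2,[z1,z4,y1]),(z1,[z2,y4,z1]),(z4,[y1,z2,z1,z12]),(z1,[y1,z2,z1,z0,z3]),(z8,[y11,y2,y13,y24,y24,
    z24])],.ref k25 k0 [(z3,[z1,z8,y2]),(z3,[z4,y4,z1]),(z6,[y1,z1,z2,z18]),(z3,[y2,z2,z4,z0,z9]),(z12,[y11,y25,y14,
    y36,y36,z36])],.ref k25 k0 [(z3,[z2,z7,y2,y2]),(z3,[z8,y8,z1,y8]),(z3,[y1,z1,z1,z10]),(z3,[y4,z4,z4,z4,z9]),(z6,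
    [y11,y7,y7,y7,y18,z18])],.ref k25 k0 [(z1,[z1,z2,y1,z0,y1]),(z1,[z4,y4,y1,z0,y4]),(z2,[y1,z1,z1,z6,z1]),(z1,[y2,
    z2,z2,z0,z5]),(z4,[y11,y1,y1,y12,y1,z12])],.ref k25 k0 [(z3,[z4,z9,z0,z4,z4,y4]),(z3,[z16,z0,z9,z16,z16,y16]),(z3,
    [y2,z0,z0,z7,y2,z2]),(z3,[y8,z0,z0,y8,z1,z8]),(z3,[y11,y9,y9,y20,y20,z20])],.ref k25 k0 [(z7,[z4,z17,y4]),(z7,
    [z16,y16,z5]),(z7,[y2,z2,z2,z21]),(z7,[y8,z8,z8,z0,z21]),(z7,[y11,y10,y10,y21,y21,z21])],.ref k25 k0 [(z1,[y4,z7,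
    z0,z0,z4]),(z1,[y16,z16,z3,z0,z16]),(z1,[z2,y2,z0,z3,y2]),(z1,[z8,y8,z0,z0,y5]),(z1,[z11,y14,y3,y3,y14,z3])],
    .ref k25 k0 [(z3,[y4,z9,y4,z0,y4,z4]),(z3,[y16,z0,y7,z0,y16,z16]),(z3,[z2,z0,z2,z9,z2,y2]),(z3,[z8,z0,z8,z0,z17,
    y8]),(z3,[z11,y9,z2,y9,z2,y2])],.ref k25 k0 [(z5,[y4,z15,y4,y4,z0,z4]),(z5,[y16,z0,y1,y16,z0,z16]),(z5,[z2,z0,z2,
    z17,z0,y2]),(z5,[z8,z0,z8,z8,z15,y8]),(z5,[z11,y15,y4,y4,y15,z4])],.ref k25 k0 [(z1,[y2,z3,y2,y2,y2,z2]),(z1,[y8,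
    z0,y5,y8,y8,z8]),(z1,[z1,z0,z1,z4,z1,y1]),(z1,[z4,z0,z4,z4,z7,y4]),(z2,[z11,y6,z5,z5,z5,y5])],.ref k25 k0 [(z4,
    [z1,z12,y3]),(z1,[z1]),(z8,[y1,z0,z3,z24]),(z2,[y1,z0,z3,z0,z6]),(z16,[y11,y48,y15,y48,y48,z48])],
    .ref k25 k0 [(z5,[z2,z15,y4,y2]),(z5,[z8,z0,y1,y8]),(z5,[y1,z0,z2,z16]),(z5,[y4,z0,z8,z4,z15]),(z10,[y11,y30,y8,
    y19,y30,z30])],.ref k25 k0 [(z2,[z1,z6,y2,z0,y1]),(z1,[z2,z0,y1,z0,y2]),(z4,[y1,z0,z2,z12,z1]),(z1,[y1,z0,z2,z0,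
    z4]),(z8,[y11,y24,y2,y24,y13,z24])],.ref k25 k0 [(z7,[z4,z25,y4,z4,z4,y4]),(z7,[z16,z16,z5,z16,z16,y16]),(z7,[y2,
    y2,z2,z19,y2,z2]),(z7,[y8,y8,z8,y8,z13,z8]),(z7,[y11,y32,y10,y32,y32,z32])],.ref k25 k0 [(z11,[z4,z33,y8]),(z11,
    [z16,z0,z1]),(z11,[y2,z0,z4,z33]),(z11,[y8,z0,z16,z0,z33]),(z1,[y1,y3,y1,y3,y3,z3])],.ref k25 k0 [(z5,[z4,z15,y4,
    y4]),(z5,[z16,z0,y1,y16]),(z5,[y2,z0,z2,z17]),(z5,[y8,z0,z8,z8,z15]),(z5,[y11,y15,y4,y4,y15,z15])],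
    .ref k25 k0 [(z1,[y4,y1,z0,y4,z0,z4]),(z1,[y16,y16,z3,y16,z0,z16]),(z1,[z2,z2,z0,z5,z0,y2]),(z1,[z8,z8,z0,z8,z3,
    y8]),(z1,[z11,z8,y3,z8,y3,y8])],.ref k25 k0 [(z3,[z4,z9,y4,z0,y4]),(z3,[z16,z0,y7,z0,y16]),(z3,[y2,z0,z2,z9,z2]),
    (z3,[y8,z0,z8,z0,z17]),(z3,[y11,y9,z2,y9,z2,z9])],.ref k25 k0 [(z1,[z2,z5,z0,z2,z2,y2]),(z1,[z8,z8,z3,z8,z8,y8]),
    (z1,[y1,y1,z0,z2,y1,z1]),(z1,[y4,y4,z0,y4,y1,z4]),(z2,[y11,y17,y6,y17,y17,z17])],.ref k25 k0 [(z3,[z2,z9,y2]),(z3,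
    [z8,z0,z1]),(z3,[y1,z0,z1,z9]),(z3,[y4,z0,z4,z0,z9]),(z6,[y11,y18,y7,y18,y18,z18])],.ref k25 k0 [(z3,[y2,z7,y2,y2,
    z0,z2]),(z3,[y8,y8,z1,y8,z0,z8]),(z3,[z1,z1,z1,z10,z0,y1]),(z3,[z4,z4,z4,z4,z9,y4]),(z6,[z11,y7,y7,y7,y18,z7])],
    .ref k25 k0 [(z1,[y2,z3,z0,z0,z2]),(z1,[y8,z0,z3,z0,z8]),(z1,[z1,z0,z0,z3,y1]),(z1,[z4,z0,z0,z0,y1]),(z2,[z11,y6,
    y6,y6,y17,z6])],.ref k25 k0 [(z3,[y4,z5,y4,y4,y4,z4]),(z3,[y16,y16,y7,y16,y16,z16]),(z3,[z2,z2,z2,z11,z2,y2]),(z3,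
    [z8,z8,z8,z8,z17,y8]),(z3,[z11,z2,z2,z2,z2,y2])]],
    .lp k0 [k80,k68,k86,k82,k86,k76] [k3,k3,k9,k9,k0,k0,k2,k2,k0,k0,k5,k5] k0 [[k0,k0,k0,k4,k4,k4,k4,k0,k0,k0,k0,k0],
    [k2,k0,k0,k0,k0,k0,k0,k0,k0,k0,k8,k6],[k0,k4,k0,k0,k0,k0,k0,k0,k0,k2,k4,k0],[k0,k0,k0,k0,k0,k0,k0,k0,k0,k0,k0,k0],
    [k0,k4,k0,k0,k0,k2,k0,k0,k0,k0,k2,k2],[k0,k4,k0,k0,k0,k0,k0,k0,k0,k2,k0,k0],[k0,k0,k0,k0,k0,k0,k0,k2,k2,k0,k0,k0],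
    [k0,k4,k0,k0,k0,k0,k0,k0,k0,k0,k0,k0],[k0,k0,k0,k2,k2,k0,k0,k0,k0,k0,k8,k10],[k0,k0,k0,k0,k0,k0,k0,k2,k0,k0,k0,
    k0],[k6,k0,k0,k0,k0,k2,k0,k0,k0,k10,k0,k2],[k8,k0,k0,k4,k0,k2,k0,k0,k0,k8,k0,k0]] (nat_lit 240) k5
    [[(k3,k66),(k2,k70),(k8,k75),(k10,k78),(k4,k81),(k6,k81),(k1,k82),(k5,k83),(k7,k83),(k9,k83),(k0,k86),(k11,k88)],
    [(k2,k70),(k3,k74),(k7,k77),(k11,k78),(k4,k79),(k9,k79),(k6,k81),(k0,k82),(k5,k83),(k8,k83),(k1,k86),(k10,k86)],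
    [(k1,k66),(k3,k66),(k10,k66),(k2,k68),(k11,k72),(k0,k74),(k8,k77),(k9,k77),(k6,k79),(k7,k79),(k4,k81),(k5,k81)],
    [(k2,k68),(k3,k68),(k0,k70),(k1,k70),(k10,k72),(k11,k72),(k6,k75),(k7,k75),(k8,k75),(k4,k77),(k5,k77),(k9,k77)],
    [(k2,k77),(k3,k81),(k0,k83),(k1,k83),(k11,k83),(k6,k84),(k7,k84),(k10,k85),(k4,k86),(k5,k86),(k8,k86),(k9,k86)],
    [(k2,k77),(k0,k79),(k10,k79),(k1,k81),(k3,k81),(k11,k83),(k4,k84),(k6,k84),(k7,k84),(k5,k86),(k8,k86),(k9,k86)],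
    [(k2,k75),(k0,k77),(k3,k79),(k11,k79),(k10,k81),(k6,k82),(k8,k82),(k1,k83),(k4,k84),(k5,k84),(k7,k84),(k9,k84)],
    [(k2,k75),(k11,k77),(k3,k79),(k10,k79),(k6,k80),(k0,k81),(k1,k81),(k7,k82),(k4,k84),(k5,k84),(k8,k84),(k9,k84)],
    [(k2,k77),(k3,k77),(k0,k79),(k10,k81),(k11,k81),(k1,k83),(k6,k84),(k7,k84),(k4,k86),(k5,k86),(k8,k88),(k9,k88)],
    [(k10,k71),(k1,k75),(k2,k75),(k3,k77),(k11,k81),(k7,k82),(k0,k83),(k6,k84),(k4,k86),(k5,k86),(k8,k86),(k9,k88)],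
    [(k2,k72),(k3,k72),(k11,k76),(k6,k77),(k0,k78),(k7,k79),(k8,k81),(k9,k81),(k4,k83),(k5,k83),(k10,k84),(k1,k88)],
    [(k3,k66),(k8,k71),(k2,k72),(k10,k74),(k1,k78),(k4,k79),(k6,k79),(k7,k81),(k9,k81),(k11,k84),(k5,k85),(k0,k86)]]
    [[k2,k1,k0,k0,k0,k0],[k1,k2,k0,k0,k0,k0],[k1,k1,k1,k0,k0,k0],[k1,k1,k0,k1,k0,k0],[k1,k1,k0,k0,k1,k0],[k1,k1,k0,k0,
    k0,k1],[k1,k0,k0,k1,k1,k0],[k1,k0,k0,k0,k1,k1],[k1,k0,k0,k1,k0,k1],[k0,k3,k0,k0,k0,k0],[k0,k2,k1,k0,k0,k0],[k0,k2,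
    k0,k1,k0,k0],[k0,k2,k0,k0,k1,k0],[k0,k2,k0,k0,k0,k1],[k0,k1,k1,k0,k0,k1],[k0,k1,k0,k2,k0,k0],[k0,k1,k0,k1,k1,k0],
    [k0,k1,k0,k1,k0,k1],[k0,k1,k0,k0,k1,k1],[k0,k1,k0,k0,k0,k2],[k0,k0,k0,k1,k1,k1],[k0,k0,k0,k1,k0,k2],[k0,k0,k0,k0,
    k1,k2],[k0,k0,k0,k0,k0,k3]]
    [.ref (nat_lit 522) k4 [(z1,[y1,z2,z1]),(z1,[z0,y1,y1,y1,z1]),(z1,[z0,z0,z0,z1]),(z1,[z1,y2])],.ref k95 k4 [(z2,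
    [y1,z1,z2]),(z1,[z0,y1,y1,y1,z1]),(z1,[z0,z0,z0,z1]),(z2,[z1,y1])],.ref k95 k4 [(z1,[y1,z1,z1,z1]),(z1,[z0,y1,y1,
    y1,z1]),(z1,[z0,z0,z0,z1]),(z1,[z1,y1,z0,y1])],.ref (nat_lit 523) k0 [(z1,[z0,z1]),(z1,[z1,z0,z1,z1,y1]),(z1,[z0,
    z0,z0,z1]),(z1,[z0,y1,y1,y1,z1])],.ref k77 k6 [(z3,[z1,y1,y1]),(z3,[z4,z5,y4]),(z3,[z5,y5,z4]),(z3,[y2,z2,z2,
    z9])],.ref (nat_lit 524) k4 [(z1,[y1,z1,z1]),(z1,[z0,y1,y1,y1,z1]),(z1,[z0,z0,z0,z1]),(z1,[z1,y1])],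
    .ref k113 k11 [(z1,[z4,z1,z0,z4,y4]),(z1,[z1,z0,z0,z1,y1]),(z1,[z5,z0,z1,z5,y5]),(z1,[y8,y1,y1,y9,z9])],
    .ref (nat_lit 525) k0 [(z1,[z0,z1]),(z1,[y1,z1,z1]),(z1,[z0,z0,z0,z1]),(z1,[z0,y1,y1,y1,z1])],.ref k77 k6 [(z1,
    [y1,z0,y1,y1,z1]),(z1,[y4,z3,y4,y4,z4]),(z1,[y5,z0,y2,y5,z5]),(z1,[z2,z0,z2,z5,y2])],.ref (nat_lit 526) k4 [(z1,
    [y1,z0,z3]),(z1,[z0,y1,y1,y1,z1]),(z1,[z0,z0,z0,z1]),(z1,[z1])],.ref k113 k11 [(z1,[y2,z1,z0,z2]),(z2,[y1,z0,z0,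
    z1]),(z2,[y5,z0,z2,z5]),(z1,[z4,y1,y1,y5,z1])],.ref (nat_lit 523) k0 [(z1,[z0,z1]),(z2,[z1,z1,z1,z1,y1]),(z1,[z0,
    z0,z0,z1]),(z1,[z0,y1,y1,y1,z1])],.ref (nat_lit 524) k4 [(z1,[y1,z0,z2]),(z1,[z0,y1,y1,y1,z1]),(z1,[z0,z0,z0,z1]),
    (z1,[z1,z0,y1])],.ref (nat_lit 527) k4 [(z1,[y1,z0,z2]),(z1,[z0,y1,y1,y1,z1]),(z1,[z0,z0,z0,z1]),(z1,[z1])],
    .ref k113 k11 [(z1,[y4,z1,z0,z4]),(z1,[y1,z0,z0,z1]),(z1,[y5,z0,z1,z5]),(z1,[z8,y1,y1,y9,z1])],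
    .ref (nat_lit 528) k0 [(z1,[z0,z1]),(z1,[z1,z2,z2,z2,y2]),(z1,[z0,z0,z0,z1]),(z1,[z0,y1,y1,y1,z1])],
    .ref k77 k6 [(z1,[y1,y1,z0,y1,z1]),(z1,[y4,y1,z0,y4,z4]),(z1,[y5,y5,z3,y5,z5]),(z1,[z2,z2,z0,z5,y2])],
    .ref k116 k0 [(z1,[z0,z1]),(z1,[z1,z1,z1,z1,y1]),(z1,[z0,z0,z0,z1]),(z1,[z0,y1,y1,y1,z1])],.ref k77 k6 [(z2,[z1,
    z0,y1]),(z1,[z2,z3,y2]),(z2,[z5,z0,z1]),(z1,[y1,z0,z1,z3])],.ref k95 k4 [(z1,[y1,z0,z1]),(z1,[z0,y1,y1,y1,z1]),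
    (z1,[z0,z0,z0,z1]),(z1,[z1])],.ref k95 k4 [(z1,[z1,z1,z1,z1,y1]),(z1,[z0,y1,y1,y1,z1]),(z1,[z0,z0,z0,z1]),(z1,[y1,
    y1,z0,y1,z1])],.ref k77 k6 [(z2,[y1,y1,y1,y1,z1]),(z1,[y2,z1,y2,y2,z2]),(z2,[y5,y5,z1,y5,z5]),(z1,[z1,z1,z1,z4,
    y1])],.ref k116 k0 [(z1,[z0,z1]),(z1,[y1,z0,z1]),(z1,[z0,z0,z0,z1]),(z1,[z0,y1,y1,y1,z1])],.ref k77 k6 [(z1,[z1]),
    (z1,[z4,z3]),(z1,[z5,z0,z3]),(z1,[y2,z0,z0,z3])]],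
    .base (.leafM k0 [k0,k1,k2,k3,k4,k5] [(z5,[z0,z1,z1,z1])] []),
    .base (.leafM k3 [k0,k1,k2,k3,k4,k5] [(z8,[y1,z0,y1,z0,z8])] []),
    .base (.leafM k0 [k2,k3,k4,k5,k0,k1] [(z8,[y1,y1,y4,z0,z8])] []),
    .lp k0 [k80,k68,k86,k82,k86,k76] [k3,k3,k9,k9,k0,k0,k2,k2,k0,k0,k5,k5] k0 [[k0,k0,k0,k4,k4,k4,k4,k0,k0,k0,k0,k0],
    [k2,k0,k0,k0,k0,k0,k0,k0,k0,k0,k8,k6],[k0,k4,k0,k0,k0,k0,k0,k0,k0,k2,k4,k0],[k0,k0,k0,k0,k0,k0,k0,k0,k0,k0,k0,k0],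
    [k0,k4,k0,k0,k0,k2,k0,k0,k0,k0,k2,k2],[k0,k4,k0,k0,k0,k0,k0,k0,k0,k2,k0,k0],[k0,k0,k0,k0,k0,k0,k0,k2,k2,k0,k0,k0],
    [k0,k4,k0,k0,k0,k0,k0,k0,k0,k0,k0,k0],[k0,k0,k0,k2,k2,k0,k0,k0,k0,k0,k8,k10],[k0,k0,k0,k0,k0,k0,k0,k2,k0,k0,k0,
    k0],[k6,k0,k0,k0,k0,k2,k0,k0,k0,k10,k0,k2],[k8,k0,k0,k4,k0,k2,k0,k0,k0,k8,k0,k0]] (nat_lit 240) k5
    [[(k3,k66),(k2,k70),(k8,k75),(k10,k78),(k4,k81),(k6,k81),(k1,k82),(k5,k83),(k7,k83),(k9,k83),(k0,k86),(k11,k88)],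
    [(k2,k70),(k3,k74),(k7,k77),(k11,k78),(k4,k79),(k9,k79),(k6,k81),(k0,k82),(k5,k83),(k8,k83),(k1,k86),(k10,k86)],
    [(k1,k66),(k3,k66),(k10,k66),(k2,k68),(k11,k72),(k0,k74),(k8,k77),(k9,k77),(k6,k79),(k7,k79),(k4,k81),(k5,k81)],
    [(k2,k68),(k3,k68),(k0,k70),(k1,k70),(k10,k72),(k11,k72),(k6,k75),(k7,k75),(k8,k75),(k4,k77),(k5,k77),(k9,k77)],
    [(k2,k77),(k3,k81),(k0,k83),(k1,k83),(k11,k83),(k6,k84),(k7,k84),(k10,k85),(k4,k86),(k5,k86),(k8,k86),(k9,k86)],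
    [(k2,k77),(k0,k79),(k10,k79),(k1,k81),(k3,k81),(k11,k83),(k4,k84),(k6,k84),(k7,k84),(k5,k86),(k8,k86),(k9,k86)],
    [(k2,k75),(k0,k77),(k3,k79),(k11,k79),(k10,k81),(k6,k82),(k8,k82),(k1,k83),(k4,k84),(k5,k84),(k7,k84),(k9,k84)],
    [(k2,k75),(k11,k77),(k3,k79),(k10,k79),(k6,k80),(k0,k81),(k1,k81),(k7,k82),(k4,k84),(k5,k84),(k8,k84),(k9,k84)],
    [(k2,k77),(k3,k77),(k0,k79),(k10,k81),(k11,k81),(k1,k83),(k6,k84),(k7,k84),(k4,k86),(k5,k86),(k8,k88),(k9,k88)],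
    [(k10,k71),(k1,k75),(k2,k75),(k3,k77),(k11,k81),(k7,k82),(k0,k83),(k6,k84),(k4,k86),(k5,k86),(k8,k86),(k9,k88)],
    [(k2,k72),(k3,k72),(k11,k76),(k6,k77),(k0,k78),(k7,k79),(k8,k81),(k9,k81),(k4,k83),(k5,k83),(k10,k84),(k1,k88)],
    [(k3,k66),(k8,k71),(k2,k72),(k10,k74),(k1,k78),(k4,k79),(k6,k79),(k7,k81),(k9,k81),(k11,k84),(k5,k85),(k0,k86)]]
    [[k2,k1,k0,k0,k0,k0],[k1,k2,k0,k0,k0,k0],[k1,k1,k1,k0,k0,k0],[k1,k1,k0,k1,k0,k0],[k1,k1,k0,k0,k1,k0],[k1,k1,k0,k0,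
    k0,k1],[k1,k0,k0,k1,k1,k0],[k1,k0,k0,k0,k1,k1],[k1,k0,k0,k1,k0,k1],[k0,k3,k0,k0,k0,k0],[k0,k2,k1,k0,k0,k0],[k0,k2,
    k0,k1,k0,k0],[k0,k2,k0,k0,k1,k0],[k0,k2,k0,k0,k0,k1],[k0,k1,k1,k0,k0,k1],[k0,k1,k0,k2,k0,k0],[k0,k1,k0,k1,k1,k0],
    [k0,k1,k0,k1,k0,k1],[k0,k1,k0,k0,k1,k1],[k0,k1,k0,k0,k0,k2],[k0,k0,k0,k1,k1,k1],[k0,k0,k0,k1,k0,k2],[k0,k0,k0,k0,
    k1,k2],[k0,k0,k0,k0,k0,k3]]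
    [.ref k25 k0 [(z10,[z9,z4,y9]),(z5,[z6,y4,z9]),(z5,[y3,z2,z3,z15]),(z5,[y9,z6,z9,z0,z5]),(z1,[z0,y1,y3,y3,y1,
    z3])],.ref k25 k0 [(z11,[z9,z8,y18]),(z11,[z12,y4,z9]),(z11,[y6,z2,z12,z33]),(z11,[y18,z6,z36,z0,z11]),(z1,[z0,y1,
    y3,y3,y1,z3])],.ref k25 k0 [(z5,[z9,z2,y9,y9]),(z5,[z12,y4,z3,y12]),(z5,[y6,z2,z6,z21]),(z5,[y18,z6,z18,z18,z5]),
    (z1,[z0,y1,y3,y3,y1,z3])],.ref k25 k0 [(z1,[z9,y2,y9,z0,y3]),(z1,[z12,y4,y9,z0,y4]),(z1,[y6,z2,z6,z3,z2]),(z1,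
    [y18,z6,z18,z0,z7]),(z1,[z0,y1,y3,y3,y1,z3])],.ref k25 k0 [(z7,[z9,z7,z0,z9,z3,y9]),(z7,[z12,z0,z21,z12,z4,y12]),
    (z7,[y6,z0,z0,z15,y2,z6]),(z7,[y18,z0,z0,y18,z1,z18]),(z1,[z0,y1,y3,y3,y1,z3])],.ref k25 k0 [(z8,[z9,z5,y9]),(z2,
    [z3,y1,z3]),(z4,[y3,z1,z3,z12]),(z4,[y9,z3,z9,z0,z4]),(z1,[z0,y1,y3,y3,y1,z3])],.ref k25 k0 [(z1,[y3,z1,y3,y3,z0,
    z3]),(z1,[y4,z0,y1,y4,z0,z4]),(z1,[z2,z0,z2,z5,z0,y2]),(z1,[z6,z0,z6,z6,z1,y6]),(z1,[z0,y1,y3,y3,y1,z3])],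
    .ref k25 k0 [(z4,[z9,z4,z9,z9,z3,y9]),(z1,[z3,z0,z6,z3,z1,y3]),(z2,[y3,z0,y3,z3,y1,z3]),(z2,[y9,z0,y9,y9,y1,z9]),
    (z1,[z0,y1,y3,y3,y1,z3])],.ref k25 k0 [(z2,[y9,z5,z0,z0,z3]),(z1,[y6,z2,z3,z0,z2]),(z1,[z3,y1,z0,z3,y1]),(z1,[z9,
    y3,z0,z0,y2]),(z1,[z0,y1,y3,y3,y1,z3])],.ref k25 k0 [(z4,[z3,z4,y9]),(z1,[z1]),(z2,[y1,z0,z3,z6]),(z2,[y3,z0,z9,
    z0,z2]),(z1,[z0,y1,y3,y3,y1,z3])],.ref k25 k0 [(z2,[z3,z2,y6,y3]),(z1,[z2,z0,y1,y2]),(z1,[y1,z0,z2,z4]),(z1,[y3,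
    z0,z6,z3,z1]),(z1,[z0,y1,y3,y3,y1,z3])],.ref k25 k0 [(z2,[z9,z2,y18,z0,y3]),(z1,[z6,z0,y9,z0,y2]),(z1,[y3,z0,z6,
    z3,z1]),(z1,[y9,z0,z18,z0,z4]),(z1,[z0,y1,y3,y3,y1,z3])],.ref k25 k0 [(z8,[z9,z11,y9,z9,z3,y9]),(z2,[z3,z1,z3,z3,
    z1,y3]),(z4,[y3,y1,z3,z9,y1,z3]),(z4,[y9,y3,z9,y9,z1,z9]),(z1,[z0,y1,y3,y3,y1,z3])],.ref k25 k0 [(z1,[z1,z1,y2]),
    (z3,[z4,z0,z1]),(z3,[y2,z0,z4,z9]),(z1,[y2,z0,z4,z0,z1]),(z1,[z0,y1,y3,y3,y1,z3])],.ref k25 k0 [(z1,[z3,z1,y3,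
    y3]),(z1,[z4,z0,y1,y4]),(z1,[y2,z0,z2,z5]),(z1,[y6,z0,z6,z6,z1]),(z1,[z0,y1,y3,y3,y1,z3])],.ref k25 k0 [(z8,[y9,
    z8,z9,z0,z6]),(z2,[y3,z0,z9,z0,z2]),(z4,[z3,z0,y3,z12,y2]),(z4,[z9,z0,y9,z0,y2]),(z1,[z0,y1,y3,y3,y1,z3])],
    .ref k25 k0 [(z2,[y9,y1,z0,y9,z0,z9]),(z1,[y6,y2,z3,y6,z0,z6]),(z1,[z3,z1,z0,z6,z0,y3]),(z1,[z9,z3,z0,z9,z1,y9]),
    (z1,[z0,y1,y3,y3,y1,z3])],.ref k25 k0 [(z1,[y9,z1,z9,z0,z3]),(z1,[y12,z0,z15,z0,z4]),(z1,[z6,z0,y6,z3,y2]),(z1,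
    [z18,z0,y18,z0,y5]),(z1,[z0,y1,y3,y3,y1,z3])],.ref k25 k0 [(z5,[z9,z8,z0,z9,z3,y9]),(z5,[z12,z4,z15,z12,z4,y12]),
    (z5,[y6,y2,z0,z9,y2,z6]),(z5,[y18,y6,z0,y18,y1,z18]),(z1,[z0,y1,y3,y3,y1,z3])],.ref k25 k0 [(z2,[z3,z2,y3]),(z1,
    [z2,z0,z1]),(z1,[y1,z0,z1,z3]),(z1,[y3,z0,z3,z0,z1]),(z1,[z0,y1,y3,y3,y1,z3])],.ref k25 k0 [(z5,[y9,z2,y9,y9,z0,
    z9]),(z5,[y12,y4,z3,y12,z0,z12]),(z5,[z6,z2,z6,z21,z0,y6]),(z5,[z18,z6,z18,z18,z5,y18]),(z1,[z0,y1,y3,y3,y1,z3])],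
    .ref k25 k0 [(z4,[y9,z4,z0,z0,z3]),(z1,[y3,z0,z3,z0,z1]),(z2,[z3,z0,z0,z6,y1]),(z2,[z9,z0,z0,z0,y1]),(z1,[z0,y1,
    y3,y3,y1,z3])],.ref k25 k0 [(z2,[z9,z5,z9,z9,z3,y9]),(z1,[z6,z2,z9,z6,z2,y6]),(z1,[y3,y1,y3,z0,y1,z3]),(z1,[y9,y3,
    y9,y9,y2,z9]),(z1,[z0,y1,y3,y3,y1,z3])],.ref k25 k0 [(z1,[z3,z1]),(z1,[z4,z0,z3]),(z1,[y2,z0,z0,z3]),(z1,[y6,z0,
    z0,z0,z1]),(z1,[z0,y1,y3,y3,y1,z3])]],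
    .lp k0 [k158,k160,k158,k166,k180,k136] [k11,k11,k10,k10,k11,k11,k7,k7,k0,k0,k22,k22] k0 [[k0,k0,k0,k4,k2,k0,k0,k0,
    k0,k0,k0,k6],[k0,k0,k0,k0,k6,k0,k0,k4,k4,k0,k0,k6],[k0,k4,k0,k0,k6,k0,k0,k4,k4,k0,k0,k6],[k0,k0,k0,k0,k2,k0,k0,k0,
    k0,k0,k0,k6],[k0,k0,k0,k0,k0,k0,k12,k0,k4,k42,k0,k4],[k6,k2,k2,k6,k0,k0,k2,k0,k0,k0,k0,k0],[k4,k0,k0,k4,k0,k0,k0,
    k0,k0,k20,k0,k0],[k0,k0,k0,k0,k2,k12,k0,k0,k0,k0,k12,k6],[k0,k0,k0,k0,k0,k42,k0,k20,k0,k30,k42,k0],[k4,k0,k0,k4,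
    k0,k4,k0,k0,k0,k0,k0,k0],[k6,k6,k6,k6,k0,k4,k6,k0,k0,k0,k0,k0],[k0,k0,k0,k0,k0,k0,k12,k0,k0,k42,k0,
    k0]] (nat_lit 480) k5
    [[(k8,k127),(k10,k147),(k11,k147),(k9,k157),(k1,k158),(k4,k158),(k0,k164),(k5,k164),(k2,k165),(k3,k165),(k7,k166),
    (k6,k168)],[(k10,k141),(k11,k147),(k2,k155),(k0,k158),(k5,k158),(k3,k159),(k7,k160),(k6,k162),(k1,k164),(k4,k164),
    (k8,k173),(k9,k173)],[(k10,k142),(k11,k144),(k7,k157),(k0,k159),(k6,k159),(k2,k160),(k3,k160),(k4,k161),(k5,k163),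
    (k1,k165),(k8,k170),(k9,k170)],[(k10,k142),(k11,k144),(k0,k155),(k7,k157),(k5,k159),(k6,k159),(k2,k160),(k3,k160),
    (k4,k161),(k1,k165),(k8,k170),(k9,k170)],[(k10,k141),(k11,k147),(k0,k158),(k5,k158),(k2,k159),(k7,k160),(k6,k162),
    (k3,k163),(k1,k164),(k4,k164),(k8,k173),(k9,k173)],[(k8,k127),(k10,k143),(k11,k143),(k9,k157),(k1,k158),(k4,k158),
    (k2,k161),(k3,k161),(k7,k162),(k0,k164),(k5,k164),(k6,k164)],[(k10,k151),(k2,k157),(k3,k157),(k0,k160),(k5,k160),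
    (k4,k162),(k1,k166),(k7,k166),(k9,k171),(k8,k177),(k6,k178),(k11,k193)],[(k11,k151),(k8,k153),(k2,k159),(k3,k159),
    (k0,k162),(k5,k162),(k10,k163),(k4,k164),(k6,k166),(k1,k168),(k9,k173),(k7,k178)],[(k10,k152),(k1,k157),(k4,k157),
    (k2,k170),(k3,k170),(k7,k171),(k0,k173),(k5,k173),(k6,k173),(k11,k178),(k8,k180),(k9,k180)],[(k1,k127),(k4,k127),
    (k8,k150),(k6,k153),(k10,k158),(k11,k158),(k2,k170),(k3,k170),(k0,k173),(k5,k173),(k7,k177),(k9,k180)],[(k4,k143),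
    (k2,k144),(k3,k144),(k0,k147),(k1,k147),(k5,k147),(k6,k151),(k8,k158),(k11,k166),(k9,k178),(k10,k178),(k7,k193)],
    [(k10,k136),(k0,k141),(k5,k141),(k2,k142),(k3,k142),(k4,k143),(k1,k147),(k7,k151),(k9,k152),(k8,k158),(k6,k163),
    (k11,k178)]]
    [[k2,k0,k0,k0,k1,k0],[k2,k0,k0,k0,k0,k1],[k2,k1,k0,k0,k0,k0],[k1,k1,k0,k0,k0,k1],[k1,k1,k1,k0,k0,k0],[k1,k0,k1,k0,
    k0,k1],[k1,k0,k1,k0,k1,k0],[k1,k0,k0,k1,k0,k1],[k1,k1,k0,k0,k1,k0],[k1,k0,k0,k1,k1,k0],[k1,k0,k0,k0,k1,k1],[k1,k0,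
    k0,k0,k0,k2],[k0,k2,k0,k1,k0,k0],[k0,k2,k0,k0,k0,k1],[k0,k1,k1,k0,k0,k1],[k0,k1,k1,k0,k1,k0],[k0,k1,k0,k1,k0,k1],
    [k0,k1,k0,k0,k1,k1],[k0,k1,k0,k0,k0,k2],[k0,k0,k2,k0,k1,k0],[k0,k0,k2,k0,k0,k1],[k0,k0,k1,k1,k1,k0],[k0,k0,k1,k1,
    k0,k1],[k0,k0,k1,k0,k1,k1],[k0,k0,k1,k0,k0,k2],[k0,k0,k0,k0,k1,k2]]
    [.ref k25 k0 [(z7,[z12,z9,z4,z4,z12,y12]),(z7,[z6,y6,z9,z2,z6,y6]),(z7,[y12,z12,y4,z3,y12,z12]),(z7,[y6,z6,y2,y2,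
    z15,z6]),(z7,[y3,y18,y8,y8,y24,z24])],.ref k25 k0 [(z3,[z4,z1]),(z3,[z2,y4,z3]),(z3,[y4,z8,z0,z3]),(z3,[y2,z4,z0,
    z0,z9]),(z3,[y1,y7,y3,y3,y9,z9])],.ref k25 k0 [(z5,[z6,z3,y2]),(z5,[z3,y6,z4]),(z5,[y6,z12,z2,z5]),(z5,[y3,z6,z1,
    z0,z15]),(z10,[y3,y24,y9,y10,y30,z30])],.ref k25 k0 [(z7,[z12,z9,y4]),(z7,[z6,y6,z5]),(z7,[y12,z12,z4,z7]),(z7,
    [y6,z6,z2,z0,z21]),(z7,[y3,y18,y6,y7,y21,z21])],.ref k25 k0 [(z1,[z6,y3,y2,y2]),(z1,[z3,y3,z0,y1]),(z1,[y6,z6,z2,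
    z3]),(z1,[y3,z3,z1,z1,z3]),(z2,[y3,y3,y1,y1,y6,z6])],.ref k25 k0 [(z1,[z12,y9,z0,y4]),(z1,[z6,y6,z1,y2]),(z1,[y12,
    z12,z0,z5]),(z1,[y6,z6,z0,z2,z3]),(z1,[y3,z0,y1,z0,y3,z3])],.ref k25 k0 [(z1,[y12,z3,y4,z0,y12,z12]),(z1,[y6,z0,
    y1,z0,y6,z6]),(z1,[z12,z0,z4,z1,z12,y12]),(z1,[z6,z0,z2,z0,z9,y6]),(z1,[z3,y3,z0,y1])],.ref k25 k0 [(z1,[z4,y1,z0,
    z0,y4]),(z1,[z2,y2,z1,z0,y2]),(z1,[y4,z4,z0,z1,z4]),(z1,[y2,z2,z0,z0,z5]),(z1,[y1,y2,y1,y1,y2,z3])],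
    .ref k25 k0 [(z5,[z12,z15,z0,z4,z12,y12]),(z5,[z6,z0,z5,z2,z6,y6]),(z5,[y12,z0,z0,z1,y12,z12]),(z5,[y6,z0,z0,y2,
    z9,z6]),(z5,[y3,y15,y5,y6,y18,z18])],.ref k25 k0 [(z1,[z12,z3,z4,z4,z0,y12]),(z1,[z6,z0,z3,z2,z0,y6]),(z1,[y12,z0,
    y4,y3,z0,z12]),(z1,[y6,z0,y2,y2,z3,z6]),(z1,[y3,y3,y2,y2,y3,z6])],.ref k25 k0 [(z1,[z3,z3,z1,z1,z3,y3]),(z2,[z3,
    z0,z3,z1,z3,y3]),(z1,[y3,z0,y1,z0,y3,z3]),(z2,[y3,z0,y1,y1,z3,z3]),(z4,[y3,y12,y5,y5,y15,z15])],.ref k25 k0 [(z1,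
    [z2,z1]),(z1,[z1,y1,z1]),(z1,[y2,z2,z0,z1]),(z1,[y1,z1,z0,z0,z3]),(z2,[y1,y5,y2,y2,y6,z6])],.ref k25 k0 [(z1,[z6,
    z3,y4,z0,y6]),(z1,[z3,z0,y1,z0,y3]),(z1,[y6,z0,z4,z1,z6]),(z1,[y3,z0,z2,z0,z6]),(z2,[y3,y6,z0,y2,y3,z6])],
    .ref k25 k0 [(z5,[z12,z15,y8]),(z5,[z6,z0,z1]),(z5,[y12,z0,z8,z5]),(z5,[y6,z0,z4,z0,z15]),(z5,[y3,y15,y3,y5,y15,
    z15])],.ref k25 k0 [(z1,[y12,z3,z4,z4]),(z1,[y6,z0,z3,z2]),(z1,[z12,z0,y4,y3]),(z1,[z6,z0,y2,y2,z3]),(z1,[z3,y3,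
    y2,y2,y3,z3])],.ref k25 k0 [(z1,[y4,y1,z0,z0,y4,z4]),(z1,[y2,y2,z1,z0,y2,z2]),(z1,[z4,z4,z0,z1,z4,y4]),(z1,[z2,z2,
    z0,z0,z5,y2]),(z1,[z1,y2,y1,y1,y2,z2])],.ref k25 k0 [(z1,[z12,z3,y4,z0,y12]),(z1,[z6,z0,y1,z0,y6]),(z1,[y12,z0,z4,
    z1,z12]),(z1,[y6,z0,z2,z0,z9]),(z1,[y3,y3,z0,y1,z0,z3])],.ref k25 k0 [(z1,[z6,z9,z0,z2,z6,y6]),(z1,[z3,z3,z1,z1,
    z3,y3]),(z1,[y6,y6,z0,y1,y6,z6]),(z1,[y3,y3,z0,y1,z0,z3]),(z2,[y3,y9,y2,y3,y9,z9])],.ref k25 k0 [(z1,[z3,z3,y1]),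
    (z2,[z3,z0,z1]),(z1,[y3,z0,z1,z1]),(z2,[y3,z0,z1,z0,z6]),(z4,[y3,y12,y3,y4,y12,z12])],.ref k25 k0 [(z9,[y12,z15,
    y4,z4,y12,z12]),(z9,[y6,y6,z7,z2,y6,z6]),(z9,[z12,z12,z4,z5,z12,y12]),(z9,[z6,z6,z2,y2,z33,y6]),(z9,[z3,y24,y8,
    y10,y24,z24])],.ref k25 k0 [(z7,[y12,z21,z0,z8]),(z7,[y6,z0,z7,z4]),(z7,[z12,z0,z0,y1]),(z7,[z6,z0,z0,y4,z21]),
    (z7,[z3,y21,y7,y9,y21,z21])],.ref k25 k0 [(z7,[y12,z9,y4,z0,z0,z12]),(z7,[y6,y6,z5,z0,z0,z6]),(z7,[z12,z12,z4,z7,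
    z0,y12]),(z7,[z6,z6,z2,z0,z21,y6]),(z7,[z3,y18,y6,y7,y21,z18])],.ref k25 k0 [(z5,[y12,z15,z0,z4,z12]),(z5,[y6,z0,
    z5,z2,z6]),(z5,[z12,z0,z0,z1,y12]),(z5,[z6,z0,z0,y2,z9]),(z5,[z3,y15,y5,y6,y18,z15])],.ref k25 k0 [(z1,[y3,z0,y1,
    z0,y3,z3]),(z2,[y3,y3,z1,z0,y3,z3]),(z1,[z3,z3,z1,z1,z3,y3]),(z2,[z3,z3,z1,z0,z9,y3]),(z4,[z3,y9,y3,y4,y9,z9])],
    .ref k25 k0 [(z1,[y6,z3,z0,z2]),(z1,[y3,z0,z1,z1]),(z1,[z6,z0,z0,y1]),(z1,[z3,z0,z0,y1,z3]),(z2,[z3,y6,y2,y3,y6,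
    z6])],.ref k25 k0 [(z1,[z12,z15,z4,z4,z12,y12]),(z1,[z6,z6,z3,z2,z6,y6]),(z1,[y12,y12,y4,y3,y12,z12]),(z1,[y6,y6,
    y2,y2,y3,z6]),(z1,[y3,y6,y2,y2,y6,z6])]],
    .lp k0 [(nat_lit 998),(nat_lit 1028),(nat_lit 1028),(nat_lit 824),(nat_lit 944),(nat_lit 926)] [k15,k15,k0,k0,k0,
    k0,k102,k102,k42,k42,k51,k51] k0 [[k0,k0,k0,k0,k0,k0,k0,k0,k0,k0,k6,k0],[k0,k0,k0,k0,k0,k12,k48,k0,k0,k30,k54,k0],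
    [k0,k0,k0,k0,k0,k12,k12,k0,k0,k36,k42,k0],[k0,k0,k0,k0,k0,k0,k0,k0,k0,k0,k18,k0],[k12,k0,k0,k12,k0,k0,k0,k0,k0,k0,
    k0,k18],[k0,k0,k0,k0,k0,k0,k36,k0,k0,k36,k0,k6],[k0,k0,k0,k0,k0,k0,k0,k66,k120,k96,k0,k0],[k48,k0,k0,k12,k36,k0,
    k0,k0,k0,k0,k0,k54],[k30,k0,k0,k36,k36,k0,k0,k96,k0,k0,k0,k0],[k0,k0,k0,k0,k0,k0,k0,k120,k24,k0,k0,k0],[k0,k0,k0,
    k0,k6,k18,k54,k0,k0,k0,k0,k0],[k54,k6,k18,k42,k0,k0,k0,k0,k0,k0,k0,k0]] (nat_lit 2880) k5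
    [[(k7,(nat_lit 929)),(k3,(nat_lit 959)),(k10,(nat_lit 962)),(k11,(nat_lit 962)),(k6,(nat_lit 965)),(k2,
    (nat_lit 971)),(k8,(nat_lit 971)),(k9,(nat_lit 971)),(k0,(nat_lit 992)),(k5,(nat_lit 995)),(k1,(nat_lit 998)),(k4,
    (nat_lit 1019))],[(k7,(nat_lit 923)),(k6,(nat_lit 959)),(k8,(nat_lit 971)),(k9,(nat_lit 971)),(k1,(nat_lit 992)),
    (k11,(nat_lit 992)),(k0,(nat_lit 998)),(k2,(nat_lit 1013)),(k3,(nat_lit 1013)),(k4,(nat_lit 1013)),(k5,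
    (nat_lit 1013)),(k10,(nat_lit 1016))],[(k6,(nat_lit 926)),(k7,(nat_lit 926)),(k9,(nat_lit 938)),(k8,
    (nat_lit 956)),(k1,(nat_lit 959)),(k11,(nat_lit 977)),(k10,(nat_lit 983)),(k0,(nat_lit 1013)),(k4,(nat_lit 1016)),
    (k2,(nat_lit 1028)),(k3,(nat_lit 1028)),(k5,(nat_lit 1028))],[(k6,(nat_lit 926)),(k7,(nat_lit 926)),(k8,
    (nat_lit 950)),(k1,(nat_lit 971)),(k9,(nat_lit 974)),(k11,(nat_lit 977)),(k10,(nat_lit 995)),(k0,(nat_lit 1013)),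
    (k4,(nat_lit 1016)),(k2,(nat_lit 1028)),(k3,(nat_lit 1028)),(k5,(nat_lit 1028))],[(k6,(nat_lit 938)),(k7,
    (nat_lit 938)),(k8,(nat_lit 986)),(k9,(nat_lit 986)),(k1,(nat_lit 995)),(k0,(nat_lit 1013)),(k11,(nat_lit 1013)),
    (k10,(nat_lit 1019)),(k2,(nat_lit 1028)),(k3,(nat_lit 1028)),(k4,(nat_lit 1028)),(k5,(nat_lit 1028))],[(k7,
    (nat_lit 926)),(k10,(nat_lit 959)),(k6,(nat_lit 962)),(k8,(nat_lit 986)),(k9,(nat_lit 986)),(k0,(nat_lit 1013)),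
    (k11,(nat_lit 1013)),(k2,(nat_lit 1016)),(k3,(nat_lit 1016)),(k1,(nat_lit 1019)),(k4,(nat_lit 1028)),(k5,
    (nat_lit 1028))],[(k6,(nat_lit 824)),(k7,(nat_lit 824)),(k8,(nat_lit 848)),(k9,(nat_lit 848)),(k10,(nat_lit 869)),
    (k11,(nat_lit 875)),(k0,(nat_lit 923)),(k2,(nat_lit 926)),(k3,(nat_lit 926)),(k4,(nat_lit 926)),(k1,
    (nat_lit 929)),(k5,(nat_lit 938))],[(k11,(nat_lit 755)),(k6,(nat_lit 758)),(k8,(nat_lit 788)),(k7,(nat_lit 824)),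
    (k10,(nat_lit 875)),(k9,(nat_lit 884)),(k2,(nat_lit 926)),(k3,(nat_lit 926)),(k5,(nat_lit 938)),(k0,
    (nat_lit 959)),(k4,(nat_lit 962)),(k1,(nat_lit 965))],[(k7,(nat_lit 848)),(k10,(nat_lit 881)),(k6,(nat_lit 884)),
    (k3,(nat_lit 938)),(k0,(nat_lit 971)),(k1,(nat_lit 971)),(k2,(nat_lit 974)),(k4,(nat_lit 986)),(k5,(nat_lit 986)),
    (k9,(nat_lit 1010)),(k11,(nat_lit 1031)),(k8,(nat_lit 1064))],[(k6,(nat_lit 788)),(k7,(nat_lit 848)),(k10,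
    (nat_lit 935)),(k11,(nat_lit 935)),(k2,(nat_lit 950)),(k3,(nat_lit 956)),(k8,(nat_lit 968)),(k0,(nat_lit 971)),
    (k1,(nat_lit 971)),(k4,(nat_lit 986)),(k5,(nat_lit 986)),(k9,(nat_lit 1064))],[(k6,(nat_lit 755)),(k7,
    (nat_lit 875)),(k11,(nat_lit 902)),(k10,(nat_lit 926)),(k8,(nat_lit 935)),(k1,(nat_lit 962)),(k2,(nat_lit 977)),
    (k3,(nat_lit 977)),(k0,(nat_lit 992)),(k4,(nat_lit 1013)),(k5,(nat_lit 1013)),(k9,(nat_lit 1031))],[(k7,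
    (nat_lit 869)),(k6,(nat_lit 875)),(k9,(nat_lit 881)),(k10,(nat_lit 926)),(k11,(nat_lit 926)),(k8,(nat_lit 935)),
    (k4,(nat_lit 959)),(k1,(nat_lit 962)),(k3,(nat_lit 983)),(k2,(nat_lit 995)),(k0,(nat_lit 1016)),(k5,
    (nat_lit 1019))]]
    [[k1,k1,k0,k1,k0,k0],[k1,k0,k0,k2,k0,k0],[k1,k0,k0,k1,k1,k0],[k1,k0,k0,k1,k0,k1],[k1,k0,k0,k0,k1,k1],[k0,k1,k0,k2,
    k0,k0],[k0,k1,k0,k1,k1,k0],[k0,k1,k0,k1,k0,k1],[k0,k1,k0,k0,k1,k1],[k0,k0,k1,k2,k0,k0],[k0,k0,k1,k1,k1,k0],[k0,k0,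
    k1,k1,k0,k1],[k0,k0,k0,k3,k0,k0],[k0,k0,k0,k2,k1,k0],[k0,k0,k0,k2,k0,k1],[k0,k0,k0,k1,k2,k0],[k0,k0,k0,k1,k1,k1],
    [k0,k0,k0,k1,k0,k2],[k0,k0,k0,k0,k1,k2],[k0,k0,k0,k0,k0,k3]]
    [.ref (nat_lit 394) k0 [(z1,[y4,z1,z0,y4,z4]),(z1,[z2,z0,z1,z2,y2]),(z1,[z0,z0,z0,z1]),(z1,[z3,y1,y1,z2,y2])],
    .ref (nat_lit 394) k0 [(z1,[y2,y1,y4,y4,z4]),(z1,[z1,z1,z3,z2,y2]),(z1,[z0,z0,z0,z1]),(z2,[z3,z1,z4,z4,y4])],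
    .ref (nat_lit 530) k5 [(z1,[z1,y1]),(z1,[z3,z2,z5,z5,y5]),(z1,[z4,z1]),(z1,[y2,z2,z5])],
    .ref (nat_lit 531) k9 [(z1,[z4,z1,z4,z4,y4]),(z1,[z0,y1]),(z1,[z4,y1,y4,y4,z4]),(z1,[y4,y1,y4,z0,z4])],
    .ref (nat_lit 532) k5 [(z1,[z1,y2,y1,y1,z1]),(z1,[z3,z2,z5,z5,y5]),(z1,[z1,z0,y1,y1,z1]),(z1,[y1,z2,z5,z1,y1])],
    .ref (nat_lit 523) k6 [(z2,[z1,z2,z1,z2,y2]),(z1,[z0,z1]),(z1,[z0,z0,z1]),(z1,[y1,y2,y1,y1,z2])],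
    .ref (nat_lit 523) k6 [(z1,[z1,z1,z0,z1,y1]),(z1,[z0,z1]),(z1,[z0,z0,z1]),(z1,[y2,y2,z0,y1,z2])],.ref k81 k1 [(z1,
    [y6,z4,z10,z5,y4]),(z1,[y2,z2,z5,z2,y2]),(z1,[z4,y3,y8,y4,z4]),(z1,[z3,y2,y5,y2,z2])],.ref (nat_lit 394) k0 [(z1,
    [y4,z1,z4]),(z1,[z2,z0,y1]),(z1,[z0,z0,z0,z1]),(z1,[z3,y1,y4,y1,z1])],.ref k68 k6 [(z2,[y1,z0,z0,z1]),(z1,[y2,y1,
    y4,y2,z4]),(z1,[z1,z2,z5,z1,y2]),(z1,[z1])],.ref (nat_lit 530) k5 [(z1,[y1,y2,y2,y1,z2]),(z1,[y3,y1,y1,z2,z1]),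
    (z1,[y4,y3,y8,y4,z8]),(z1,[z2,z4,z9,z2,y4])],.ref k68 k6 [(z1,[y1,z0,z0,z1]),(z1,[y4,y1,y4,z0,z4]),(z1,[z2,z2,z5,
    z0,y2]),(z1,[z2,z0,z0,y1])],.ref (nat_lit 533) k6 [(z1,[z1,z3,z3,z3,y3]),(z1,[z0,z1]),(z1,[z0,z0,z1]),(z1,[y2,y6,
    y6,y3,z6])],.ref k81 k1 [(z1,[y6,y2,y2,y1,z2]),(z1,[y2,z0,z1]),(z1,[z4,z1]),(z1,[z3,z1,z1,z1,y1])],
    .ref (nat_lit 534) k1 [(z1,[y2,z0,z0,z1]),(z1,[y2,z2,z5,z2,y2]),(z1,[z4,y1,y4,y4,z4]),(z1,[z1])],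
    .ref (nat_lit 394) k0 [(z1,[y4,y3,y4,y4,z4]),(z1,[z2,z2,z3,z2,y2]),(z1,[z0,z0,z0,z1]),(z1,[z3,z2,z2,z2,y2])],
    .ref (nat_lit 394) k0 [(z1,[y2,y1,y2,y2,z2]),(z1,[z1,z1,z2,z1,y1]),(z1,[z0,z0,z0,z1]),(z2,[z3,z1,z1,z1,y1])],
    .ref (nat_lit 394) k0 [(z3,[y4,y1,y4,y4,z4]),(z3,[z2,z2,z5,z2,y2]),(z1,[z0,z0,z0,z1]),(z1,[z1])],
    .ref (nat_lit 531) k9 [(z1,[z4,z1]),(z1,[z0,y1]),(z1,[z4,y1,y8,y8,z8]),(z1,[y4,y1,z0,z4])],.ref k186 k0 [(z1,[z0,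
    z1]),(z1,[z0,z0,z1]),(z1,[y2,z0,z0,z3]),(z1,[z1,y3,y3,y3,z3])]],
    .lp k0 [(nat_lit 640),(nat_lit 630),(nat_lit 646),(nat_lit 592),(nat_lit 654),(nat_lit 674)] [k17,k17,k22,k22,k14,
    k14,k41,k41,k10,k10,k0,k0] k0 [[k0,k0,k34,k34,k0,k0,k0,k0,k34,k2,k0,k0],[k0,k0,k0,k0,k28,k20,k28,k12,k0,k0,k0,k0],
    [k0,k34,k0,k0,k30,k0,k0,k74,k60,k0,k2,k58],[k0,k34,k0,k0,k18,k0,k0,k10,k0,k0,k0,k0],[k20,k0,k0,k0,k0,k36,k108,k0,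
    k0,k94,k0,k76],[k28,k0,k18,k30,k0,k0,k0,k0,k0,k30,k0,k32],[k12,k0,k10,k74,k0,k0,k0,k0,k14,k14,k0,k0],[k28,k0,k0,
    k0,k0,k108,k0,k0,k0,k0,k40,k76],[k0,k2,k0,k0,k30,k94,k0,k14,k0,k0,k26,k0],[k0,k34,k0,k60,k0,k0,k0,k14,k0,k0,k0,
    k0],[k0,k0,k0,k58,k32,k76,k76,k0,k0,k0,k0,k0],[k0,k0,k0,k2,k0,k0,k40,k0,k0,k26,k0,k0]] (nat_lit 1920) k5
    [[(k9,(nat_lit 607)),(k8,(nat_lit 621)),(k2,(nat_lit 633)),(k3,(nat_lit 635)),(k0,(nat_lit 640)),(k1,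
    (nat_lit 640)),(k10,(nat_lit 657)),(k11,(nat_lit 657)),(k4,(nat_lit 675)),(k6,(nat_lit 692)),(k7,(nat_lit 692)),
    (k5,(nat_lit 701))],[(k2,(nat_lit 601)),(k5,(nat_lit 609)),(k11,(nat_lit 623)),(k3,(nat_lit 635)),(k7,
    (nat_lit 636)),(k0,(nat_lit 640)),(k1,(nat_lit 640)),(k6,(nat_lit 644)),(k8,(nat_lit 645)),(k10,(nat_lit 657)),
    (k9,(nat_lit 659)),(k4,(nat_lit 671))],[(k7,(nat_lit 583)),(k6,(nat_lit 599)),(k9,(nat_lit 614)),(k4,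
    (nat_lit 618)),(k3,(nat_lit 630)),(k0,(nat_lit 635)),(k1,(nat_lit 635)),(k10,(nat_lit 652)),(k11,(nat_lit 654)),
    (k2,(nat_lit 664)),(k5,(nat_lit 672)),(k8,(nat_lit 676))],[(k6,(nat_lit 537)),(k7,(nat_lit 581)),(k11,
    (nat_lit 592)),(k10,(nat_lit 594)),(k0,(nat_lit 601)),(k2,(nat_lit 630)),(k1,(nat_lit 633)),(k5,(nat_lit 638)),
    (k8,(nat_lit 642)),(k9,(nat_lit 652)),(k4,(nat_lit 656)),(k3,(nat_lit 664))],[(k7,(nat_lit 601)),(k0,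
    (nat_lit 609)),(k6,(nat_lit 609)),(k2,(nat_lit 638)),(k5,(nat_lit 646)),(k11,(nat_lit 660)),(k10,(nat_lit 662)),
    (k3,(nat_lit 672)),(k4,(nat_lit 676)),(k1,(nat_lit 701)),(k8,(nat_lit 710)),(k9,(nat_lit 724))],[(k9,
    (nat_lit 542)),(k8,(nat_lit 556)),(k10,(nat_lit 584)),(k4,(nat_lit 610)),(k3,(nat_lit 618)),(k6,(nat_lit 619)),
    (k7,(nat_lit 619)),(k2,(nat_lit 656)),(k0,(nat_lit 671)),(k1,(nat_lit 675)),(k5,(nat_lit 676)),(k11,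
    (nat_lit 690))],[(k2,(nat_lit 581)),(k3,(nat_lit 583)),(k8,(nat_lit 593)),(k5,(nat_lit 601)),(k10,(nat_lit 601)),
    (k4,(nat_lit 619)),(k9,(nat_lit 623)),(k7,(nat_lit 628)),(k0,(nat_lit 636)),(k1,(nat_lit 692)),(k6,(nat_lit 700)),
    (k11,(nat_lit 727))],[(k2,(nat_lit 537)),(k6,(nat_lit 592)),(k3,(nat_lit 599)),(k5,(nat_lit 609)),(k8,
    (nat_lit 609)),(k4,(nat_lit 619)),(k11,(nat_lit 619)),(k9,(nat_lit 623)),(k0,(nat_lit 644)),(k10,(nat_lit 673)),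
    (k1,(nat_lit 692)),(k7,(nat_lit 700))],[(k4,(nat_lit 542)),(k10,(nat_lit 588)),(k1,(nat_lit 607)),(k3,
    (nat_lit 614)),(k6,(nat_lit 623)),(k7,(nat_lit 623)),(k2,(nat_lit 652)),(k9,(nat_lit 654)),(k0,(nat_lit 659)),(k8,
    (nat_lit 668)),(k11,(nat_lit 678)),(k5,(nat_lit 724))],[(k4,(nat_lit 556)),(k7,(nat_lit 593)),(k6,(nat_lit 609)),
    (k1,(nat_lit 621)),(k2,(nat_lit 642)),(k0,(nat_lit 645)),(k8,(nat_lit 654)),(k10,(nat_lit 664)),(k11,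
    (nat_lit 664)),(k9,(nat_lit 668)),(k3,(nat_lit 676)),(k5,(nat_lit 710))],[(k2,(nat_lit 592)),(k6,(nat_lit 619)),
    (k0,(nat_lit 623)),(k3,(nat_lit 654)),(k1,(nat_lit 657)),(k5,(nat_lit 660)),(k8,(nat_lit 664)),(k11,
    (nat_lit 674)),(k9,(nat_lit 678)),(k4,(nat_lit 690)),(k10,(nat_lit 700)),(k7,(nat_lit 727))],[(k4,(nat_lit 584)),
    (k9,(nat_lit 588)),(k2,(nat_lit 594)),(k7,(nat_lit 601)),(k3,(nat_lit 652)),(k0,(nat_lit 657)),(k1,(nat_lit 657)),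
    (k5,(nat_lit 662)),(k8,(nat_lit 664)),(k6,(nat_lit 673)),(k10,(nat_lit 674)),(k11,(nat_lit 700))]]
    [[k2,k1,k0,k0,k0,k0],[k2,k0,k0,k0,k1,k0],[k1,k2,k0,k0,k0,k0],[k1,k1,k1,k0,k0,k0],[k1,k1,k0,k1,k0,k0],[k1,k1,k0,k0,
    k1,k0],[k1,k1,k0,k0,k0,k1],[k1,k0,k1,k0,k1,k0],[k1,k0,k1,k0,k0,k1],[k1,k0,k0,k1,k0,k1],[k1,k0,k0,k1,k1,k0],[k1,k0,
    k0,k0,k1,k1],[k0,k2,k0,k1,k0,k0],[k0,k2,k0,k0,k0,k1],[k0,k1,k1,k1,k0,k0],[k0,k1,k1,k0,k0,k1],[k0,k1,k1,k0,k1,k0],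
    [k0,k1,k0,k2,k0,k0],[k0,k1,k0,k1,k1,k0],[k0,k1,k0,k1,k0,k1],[k0,k1,k0,k0,k1,k1],[k0,k0,k2,k1,k0,k0],[k0,k0,k2,k0,
    k1,k0],[k0,k0,k1,k2,k0,k0],[k0,k0,k1,k1,k1,k0],[k0,k0,k1,k1,k0,k1],[k0,k0,k1,k0,k1,k1],[k0,k0,k0,k2,k1,k0],[k0,k0,
    k0,k1,k2,k0],[k0,k0,k0,k1,k1,k1]]
    [.ref k86 k4 [(z1,[y2,z0,z1]),(z1,[z0,z1]),(z1,[z1,y1,y1,z1])],.ref (nat_lit 390) k7 [(z2,[y1,z0,z1]),(z2,[y1,y2,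
    y1,z2]),(z1,[z0,z1])],.ref k86 k3 [(z1,[y2,z1]),(z1,[z0,z0,z1]),(z1,[z1,y1,y1,z1])],.ref (nat_lit 512) k3 [(z1,
    [y2,z1]),(z1,[z0,z0,z1]),(z1,[z1,y1,y1,z1])],.ref (nat_lit 390) k7 [(z1,[z1,y1]),(z1,[z1,y2,y1,z1]),(z1,[z0,z1])],
    .ref (nat_lit 390) k7 [(z1,[y1,z0,z1]),(z1,[y1,y1,z0,z1]),(z1,[z0,z1])],.ref (nat_lit 512) k8 [(z1,[y1,y1,y1,z1]),
    (z1,[z0,z1]),(z1,[z0,z0,z1])],.ref (nat_lit 513) k0 [(z1,[z2,z2,z1,y2]),(z1,[z0,z0,z1]),(z1,[z2,y2,y1,z2])],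
    .ref k86 k4 [(z1,[y2,y2,y1,z2]),(z1,[z0,z1]),(z1,[z1])],.ref (nat_lit 514) k0 [(z1,[y1,z1]),(z1,[z0,z0,z1]),(z1,
    [y2,z0,y1,z2])],.ref k86 k3 [(z1,[z2,y1,y2]),(z1,[z0,z0,z1]),(z1,[y1,z0,z0,z1])],.ref (nat_lit 515) k5 [(z1,[z2,
    z0,z1,y2]),(z1,[y2,y1,y2,z4]),(z1,[z0,z1])],.ref (nat_lit 390) k7 [(z2,[z1,y1]),(z2,[z1,y3,y2,z2]),(z1,[z0,z1])],
    .ref (nat_lit 521) k3 [(z1,[y2,y1,y2,z2]),(z1,[z0,z0,z1]),(z1,[z1])],.ref (nat_lit 515) k5 [(z1,[y2,z0,z1]),(z1,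
    [z2,y1,y2,z2]),(z1,[z0,z1])],.ref k86 k3 [(z1,[y2,y1,y2,z2]),(z1,[z0,z0,z1]),(z1,[z1])],
    .ref (nat_lit 514) k0 [(z1,[z1,z1,z0,y1]),(z1,[z0,z0,z1]),(z1,[z2,z0,y1])],.ref (nat_lit 529) k7 [(z1,[z1,y2]),
    (z1,[z1,y3,y1,z1]),(z1,[z0,z1])],.ref k86 k4 [(z1,[z2,y2,y1]),(z1,[z0,z1]),(z1,[y1,z0,z0,z1])],
    .ref (nat_lit 513) k0 [(z1,[y2,z2,z1]),(z1,[z0,z0,z1]),(z1,[y2,y2,y1,z4])],.ref (nat_lit 497) k7 [(z1,[y1,z0,z1]),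
    (z1,[y1,y1,z0,z1]),(z1,[z0,z1])],.ref (nat_lit 497) k7 [(z2,[z1,z1,z2,y2]),(z2,[z1,y1]),(z1,[z0,z1])],
    .ref (nat_lit 514) k0 [(z2,[z1,z2,z1,y2]),(z1,[z0,z0,z1]),(z1,[z1])],.ref (nat_lit 535) k8 [(z1,[z1,y2]),(z1,[z0,
    z1]),(z1,[z0,z0,z1])],.ref (nat_lit 512) k8 [(z1,[z1,y1,y1]),(z1,[z0,z1]),(z1,[z0,z0,z1])],
    .ref (nat_lit 390) k7 [(z1,[z1,z0,z1,y1]),(z1,[z1,y1]),(z1,[z0,z1])],.ref (nat_lit 390) k7 [(z1,[y1,y1,z0,z1]),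
    (z1,[y1,y2,y1,z2]),(z1,[z0,z1])],.ref k86 k4 [(z1,[z1,y2]),(z1,[z0,z1]),(z2,[y1,z0,y1,z2])],.ref k86 k3 [(z1,[z1,
    z0,y2]),(z1,[z0,z0,z1]),(z2,[y1,y1,z0,z2])],.ref (nat_lit 512) k3 [(z1,[z2,z1,z0,y2]),(z1,[z0,z0,z1]),(z1,[y1,y1,
    y1,z2])]],
    .base (.leafM k3 [k4,k5,k0,k1,k2,k3] [(z2,[z0,z1,z1])] []),
    .base (.leafM k3 [k1,k2,k3,k4,k5,k0] [(z1,[z0,z0,z1])] []),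
    .base (.leafM k0 [k2,k3,k4,k5,k0,k1] [(z2,[y2,y1,y1,z2])] [])]

theorem hB6_171_44 : blkB [0, 0, 0, 0, 0, 0] [] sp6 hS6_171 (pcls (n := 6) [0, 0, 0, 0, 0, 0]) hD6_171 560 44 hN6_171_44 = true := by
  decide +kernel

/-- nodes 540 to 551 -/
noncomputable def hN6_171_45 : List HM :=
  [.base (.leafM k3 [k1,k2,k3,k4,k5,k0] [(z1,[y1,y1,z0,y1,z1])] []),
    .base (.leafM k0 [k0,k1,k2,k3,k4,k5] [(z2,[z0,z1,z1,z2])] []),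
    .base (.leafM k1 [k0,k1,k2,k3,k4,k5] [(z1,[z0,z1,z0,z1]),(z1,[z0,y1,z0,y1,z1])] []),
    .lp k0 [(nat_lit 652),(nat_lit 654),(nat_lit 700),(nat_lit 592),(nat_lit 666),(nat_lit 572)] [k24,k24,k23,k23,k0,
    k0,k54,k54,k17,k17,k64,k64] k0 [[k0,k0,k14,k6,k0,k0,k0,k0,k0,k64,k64,k0],[k0,k0,k0,k0,k38,k22,k46,k14,k0,k0,k0,
    k0],[k0,k6,k0,k8,k24,k0,k20,k0,k0,k22,k0,k0],[k0,k14,k0,k0,k4,k0,k0,k0,k0,k58,k58,k14],[k22,k0,k0,k0,k0,k60,k84,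
    k0,k0,k0,k0,k98],[k38,k0,k4,k24,k0,k0,k12,k0,k0,k38,k0,k0],[k14,k0,k0,k0,k0,k0,k0,k0,k102,k102,k0,k90],[k46,k0,k0,
    k20,k12,k84,k0,k0,k0,k0,k0,k86],[k0,k64,k58,k22,k38,k0,k0,k102,k0,k0,k0,k0],[k0,k0,k0,k0,k0,k0,k0,k102,k0,k0,k16,
    k0],[k0,k0,k14,k0,k0,k98,k86,k90,k0,k0,k0,k0],[k0,k64,k58,k0,k0,k0,k0,k0,k16,k0,k0,k0]] (nat_lit 1920) k5
    [[(k0,(nat_lit 588)),(k11,(nat_lit 596)),(k10,(nat_lit 612)),(k5,(nat_lit 618)),(k1,(nat_lit 652)),(k3,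
    (nat_lit 653)),(k8,(nat_lit 659)),(k2,(nat_lit 667)),(k4,(nat_lit 676)),(k6,(nat_lit 708)),(k7,(nat_lit 720)),(k9,
    (nat_lit 749))],[(k1,(nat_lit 588)),(k8,(nat_lit 595)),(k10,(nat_lit 612)),(k11,(nat_lit 612)),(k7,(nat_lit 644)),
    (k2,(nat_lit 647)),(k0,(nat_lit 652)),(k3,(nat_lit 653)),(k5,(nat_lit 662)),(k6,(nat_lit 668)),(k9,(nat_lit 673)),
    (k4,(nat_lit 714))],[(k7,(nat_lit 585)),(k6,(nat_lit 609)),(k9,(nat_lit 614)),(k0,(nat_lit 653)),(k1,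
    (nat_lit 653)),(k3,(nat_lit 654)),(k4,(nat_lit 655)),(k8,(nat_lit 660)),(k2,(nat_lit 668)),(k10,(nat_lit 677)),
    (k11,(nat_lit 677)),(k5,(nat_lit 683))],[(k7,(nat_lit 599)),(k6,(nat_lit 623)),(k8,(nat_lit 638)),(k9,
    (nat_lit 640)),(k2,(nat_lit 646)),(k0,(nat_lit 647)),(k1,(nat_lit 667)),(k3,(nat_lit 668)),(k10,(nat_lit 671)),
    (k11,(nat_lit 671)),(k5,(nat_lit 677)),(k4,(nat_lit 681))],[(k1,(nat_lit 618)),(k10,(nat_lit 622)),(k8,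
    (nat_lit 625)),(k7,(nat_lit 642)),(k11,(nat_lit 658)),(k0,(nat_lit 662)),(k6,(nat_lit 666)),(k2,(nat_lit 677)),
    (k3,(nat_lit 683)),(k9,(nat_lit 683)),(k5,(nat_lit 708)),(k4,(nat_lit 724))],[(k10,(nat_lit 538)),(k9,
    (nat_lit 599)),(k4,(nat_lit 640)),(k7,(nat_lit 646)),(k3,(nat_lit 655)),(k6,(nat_lit 658)),(k11,(nat_lit 674)),
    (k1,(nat_lit 676)),(k2,(nat_lit 681)),(k8,(nat_lit 683)),(k0,(nat_lit 714)),(k5,(nat_lit 724))],[(k10,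
    (nat_lit 582)),(k11,(nat_lit 582)),(k3,(nat_lit 585)),(k8,(nat_lit 591)),(k2,(nat_lit 599)),(k9,(nat_lit 617)),
    (k5,(nat_lit 642)),(k0,(nat_lit 644)),(k4,(nat_lit 646)),(k7,(nat_lit 652)),(k6,(nat_lit 676)),(k1,
    (nat_lit 720))],[(k11,(nat_lit 480)),(k10,(nat_lit 492)),(k8,(nat_lit 527)),(k6,(nat_lit 592)),(k3,(nat_lit 609)),
    (k2,(nat_lit 623)),(k9,(nat_lit 629)),(k4,(nat_lit 658)),(k5,(nat_lit 666)),(k0,(nat_lit 668)),(k7,(nat_lit 676)),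
    (k1,(nat_lit 708))],[(k10,(nat_lit 533)),(k4,(nat_lit 599)),(k3,(nat_lit 614)),(k7,(nat_lit 617)),(k6,
    (nat_lit 629)),(k2,(nat_lit 640)),(k9,(nat_lit 666)),(k0,(nat_lit 673)),(k5,(nat_lit 683)),(k11,(nat_lit 721)),
    (k1,(nat_lit 749)),(k8,(nat_lit 768))],[(k6,(nat_lit 527)),(k7,(nat_lit 591)),(k0,(nat_lit 595)),(k11,
    (nat_lit 619)),(k5,(nat_lit 625)),(k10,(nat_lit 635)),(k2,(nat_lit 638)),(k1,(nat_lit 659)),(k3,(nat_lit 660)),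
    (k8,(nat_lit 666)),(k4,(nat_lit 683)),(k9,(nat_lit 768))],[(k6,(nat_lit 480)),(k10,(nat_lit 572)),(k11,
    (nat_lit 572)),(k7,(nat_lit 582)),(k1,(nat_lit 596)),(k0,(nat_lit 612)),(k8,(nat_lit 619)),(k5,(nat_lit 658)),(k2,
    (nat_lit 671)),(k4,(nat_lit 674)),(k3,(nat_lit 677)),(k9,(nat_lit 721))],[(k6,(nat_lit 492)),(k9,(nat_lit 533)),
    (k4,(nat_lit 538)),(k10,(nat_lit 572)),(k11,(nat_lit 572)),(k7,(nat_lit 582)),(k0,(nat_lit 612)),(k1,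
    (nat_lit 612)),(k5,(nat_lit 622)),(k8,(nat_lit 635)),(k2,(nat_lit 671)),(k3,(nat_lit 677))]]
    [[k3,k0,k0,k0,k0,k0],[k2,k1,k0,k0,k0,k0],[k2,k0,k0,k0,k0,k1],[k1,k1,k0,k0,k1,k0],[k1,k0,k1,k0,k0,k1],[k1,k0,k1,k0,
    k1,k0],[k1,k0,k0,k1,k0,k1],[k1,k0,k0,k0,k1,k1],[k1,k0,k0,k0,k0,k2],[k0,k2,k0,k1,k0,k0],[k0,k1,k1,k0,k0,k1],[k0,k1,
    k0,k2,k0,k0],[k0,k1,k0,k1,k1,k0],[k0,k1,k0,k1,k0,k1],[k0,k1,k0,k0,k1,k1],[k0,k0,k1,k1,k1,k0],[k0,k0,k1,k1,k0,k1],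
    [k0,k0,k1,k2,k0,k0],[k0,k0,k1,k0,k1,k1],[k0,k0,k1,k0,k0,k2],[k0,k0,k0,k2,k1,k0],[k0,k0,k0,k2,k0,k1],[k0,k0,k0,k1,
    k2,k0],[k0,k0,k0,k1,k1,k1],[k0,k0,k0,k1,k0,k2],[k0,k0,k0,k0,k1,k2],[k0,k0,k0,k0,k0,k3]]
    [.ref k25 k0 [(z1,[z1]),(z8,[y1,z3,z24]),(z2,[y1,z3,z0,z6]),(z16,[y11,z33,z0,z0,z48]),(z4,[z1,y15,y12,y12,y12,
    z12])],.ref k25 k0 [(z5,[z8,y1,y8]),(z5,[y1,z2,z16]),(z5,[y4,z8,z4,z15]),(z10,[y11,z22,z11,z0,z30]),(z5,[z2,y19,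
    y17,y15,y15,z15])],.ref k25 k0 [(z11,[z16,z1]),(z11,[y2,z4,z33]),(z11,[y8,z16,z0,z33]),(z1,[y1,z2,z0,z0,z3]),(z11,
    [z4,y41,y33,y33,y33,z33])],.ref k25 k0 [(z3,[z8,z9,z0,z8,z8,y8]),(z3,[y1,z0,z9,y1,y1,z1]),(z3,[y4,z0,z0,z5,y4,
    z4]),(z6,[y11,z0,z0,y11,z7,z11]),(z3,[z2,y9,y9,y7,y7,z7])],.ref k25 k0 [(z3,[z16,y7,z0,y16]),(z3,[y2,z2,z9,z2]),
    (z3,[y8,z8,z0,z17]),(z3,[y11,z11,z0,z11,z9]),(z3,[z4,y13,y9,y13,y9,z9])],.ref k25 k0 [(z1,[z4,z3,z4,z0,z4,y4]),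
    (z2,[y1,z0,z5,z0,y1,z1]),(z1,[y2,z0,y2,z3,y2,z2]),(z4,[y11,z0,y11,z0,z1,z11]),(z1,[z1,y3,y2,y3,y2,z2])],
    .ref k25 k0 [(z1,[z8,y5,z0,z0,y8]),(z1,[y1,z1,z3,z0,z1]),(z1,[y4,z4,z0,z3,z4]),(z2,[y11,z11,z0,z0,z17]),(z1,[z2,
    y5,y3,y3,y5,z3])],.ref k25 k0 [(z7,[z16,z21,z16,z16,z16,y16]),(z7,[y2,z0,z19,y2,y2,z2]),(z7,[y8,z0,y8,z13,y8,z8]),
    (z7,[y11,z0,y11,y11,z10,z11]),(z7,[z4,y21,y17,y17,y17,z17])],.ref k25 k0 [(z3,[z8,z1]),(z3,[y1,z1,z9]),(z3,[y4,z4,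
    z0,z9]),(z6,[y11,z11,z0,z0,z18]),(z3,[z2,y11,y9,y9,y9,z9])],.ref k25 k0 [(z5,[y16,z15,z32,z0,z16]),(z5,[z2,z0,z11,
    z0,y2]),(z5,[z8,z0,y16,z15,y8]),(z5,[z11,z0,y22,z0,z4]),(z5,[y4,y15,y7,y15,y11,z15])],.ref k25 k0 [(z3,[y16,z9,
    z16,z16]),(z3,[z2,z0,z7,y2]),(z3,[z8,z0,y8,z1]),(z3,[z11,z0,y11,y11,z9]),(z3,[y4,y9,y5,y5,y9,z9])],
    .ref k25 k0 [(z1,[y2,z3,z2,z0,z4]),(z4,[z1,z0,z11,z0,y2]),(z1,[z1,z0,y1,z3,y2]),(z8,[z11,z0,y11,z0,z2]),(z2,[y1,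
    y6,y5,y6,y4,z6])],.ref k25 k0 [(z3,[y16,y7,z0,y16,z0,z16]),(z3,[z2,z2,z9,z2,z0,y2]),(z3,[z8,z8,z0,z17,z0,y8]),(z3,
    [z11,z11,z0,z11,z9,y11]),(z3,[y4,y13,y9,y13,y9,z13])],.ref k25 k0 [(z1,[y4,z3,z4,z0,z4]),(z2,[z1,z0,z5,z0,y1]),
    (z1,[z2,z0,y2,z3,y2]),(z4,[z11,z0,y11,z0,z1]),(z1,[y1,y3,y2,y3,y2,z3])],.ref k25 k0 [(z1,[z16,z19,z0,z16,z16,
    y16]),(z1,[y2,y2,z3,y2,y2,z2]),(z1,[y8,y8,z0,y5,y8,z8]),(z1,[y11,y11,z0,y11,y8,z11]),(z1,[z4,z1,y3,z1,z1,y1])],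
    .ref k25 k0 [(z5,[y16,y1,y16,z0,z0,z16]),(z5,[z2,z2,z17,z0,z0,y2]),(z5,[z8,z8,z8,z15,z0,y8]),(z5,[z11,z11,z11,z0,
    z15,y11]),(z5,[y4,y19,y19,y15,y15,z19])],.ref k25 k0 [(z3,[y8,z9,z0,z8,z8]),(z3,[z1,z0,z9,y1,y1]),(z3,[z4,z0,z0,
    z5,y4]),(z6,[z11,z0,z0,y11,z7]),(z3,[y2,y9,y9,y7,y7,z9])],.ref k25 k0 [(z5,[y8,z15,z0,z8,z16]),(z5,[z1,z0,z15,y1,
    y2]),(z5,[z4,z0,z0,z11,y8]),(z10,[z11,z0,z0,y11,z8]),(z5,[y2,y15,y15,y13,y11,z15])],.ref k25 k0 [(z1,[y16,y13,y16,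
    z0,y16,z16]),(z1,[z2,z2,z5,z0,z2,y2]),(z1,[z8,z8,z8,z3,z8,y8]),(z1,[z11,z11,z11,z0,z14,y11]),(z1,[y4,y7,y7,y3,y7,
    z7])],.ref k25 k0 [(z1,[y8,z3,z0,z8]),(z1,[z1,z0,z3,y1]),(z1,[z4,z0,z0,y1]),(z2,[z11,z0,z0,y11,z6]),(z1,[y2,y3,y3,
    y1,y3,z3])],.ref k25 k0 [(z3,[y8,z1,y8,y8,z8,z8]),(z3,[z1,z1,z10,z1,y1,y1]),(z3,[z4,z4,z4,z13,y4,y4]),(z6,[z11,
    z11,z11,z11,z7,y11]),(z3,[y2,y11,y11,y11,y7,z11])],.ref k25 k0 [(z7,[y16,z21,z0,z0,z32]),(z7,[z2,z0,z21,z0,y4]),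
    (z7,[z8,z0,z0,z21,y16]),(z7,[z11,z0,z0,z0,y1]),(z7,[y4,y21,y21,y21,y13,z21])],.ref k25 k0 [(z1,[y16,y29,y32,y32,
    y16,z32]),(z1,[z2,z4,z7,z4,z2,y4]),(z1,[z8,z16,z16,z19,z8,y16]),(z1,[z11,z22,z22,z22,z14,y22]),(z1,[y4,y11,y11,
    y11,y7,z11])],.ref k25 k0 [(z1,[y8,y5,y8,y8,z0,z8]),(z1,[z1,z1,z4,z1,z0,y1]),(z1,[z4,z4,z4,z7,z0,y4]),(z2,[z11,
    z11,z11,z11,z6,y11]),(z1,[y2,y5,y5,y5,y3,z5])],.ref k25 k0 [(z3,[y16,z9,z0,z0,z16]),(z3,[z2,z0,z9,z0,y2]),(z3,[z8,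
    z0,z0,z9,y8]),(z3,[z11,z0,z0,z0,y2]),(z3,[y4,y9,y9,y9,y5,z9])],.ref k25 k0 [(z1,[z8,z11,z8,z8,z8,y8]),(z1,[y1,y1,
    z2,y1,y1,z1]),(z1,[y4,y4,y4,y1,y4,z4]),(z2,[y11,y11,y11,y11,y5,z11]),(z1,[z2,y1,y1,y1,y1,z1])],.ref k25 k0 [(z1,
    [z16,z3]),(z1,[y2,z0,z3]),(z1,[y8,z0,z0,z3]),(z1,[y11,z0,z0,z0,z3]),(z1,[z4,y3,y3,y3,y3,z3])]],
    .lp k0 [k80,k72,k82,k84,k84,k76] [k2,k2,k8,k4,k1,k1,k0,k0,k0,k0,k4,k4] k0 [[k0,k0,k0,k4,k4,k4,k8,k0,k0,k0,k0,k4],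
    [k10,k0,k0,k2,k0,k0,k0,k0,k4,k0,k0,k16],[k2,k4,k0,k2,k0,k0,k0,k0,k0,k0,k0,k0],[k0,k0,k0,k0,k0,k0,k4,k0,k0,k0,k0,
    k0],[k0,k4,k0,k0,k0,k0,k0,k0,k0,k4,k2,k0],[k0,k4,k0,k0,k0,k0,k0,k0,k0,k0,k0,k0],[k0,k0,k0,k0,k0,k0,k0,k0,k0,k0,k0,
    k0],[k0,k8,k4,k0,k0,k0,k0,k0,k0,k0,k2,k4],[k0,k0,k0,k0,k0,k4,k0,k0,k0,k0,k12,k0],[k4,k0,k0,k0,k0,k0,k0,k0,k0,k0,
    k0,k0],[k16,k4,k0,k0,k0,k0,k4,k0,k0,k0,k0,k0],[k0,k0,k0,k0,k0,k2,k2,k0,k0,k12,k0,k0]] (nat_lit 240) k5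
    [[(k8,k70),(k2,k74),(k10,k78),(k11,k78),(k4,k79),(k1,k80),(k9,k80),(k5,k81),(k3,k82),(k7,k82),(k6,k86),(k0,k96)],
    [(k2,k70),(k9,k74),(k10,k74),(k4,k77),(k3,k78),(k7,k78),(k11,k78),(k6,k82),(k5,k83),(k8,k86),(k0,k90),(k1,k96)],
    [(k10,k60),(k3,k66),(k2,k70),(k11,k72),(k0,k78),(k8,k80),(k9,k80),(k1,k82),(k4,k83),(k5,k83),(k7,k84),(k6,k88)],
    [(k2,k66),(k0,k70),(k3,k70),(k10,k72),(k11,k72),(k1,k74),(k4,k75),(k5,k75),(k7,k76),(k8,k76),(k9,k76),(k6,k80)],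
    [(k2,k75),(k9,k79),(k10,k79),(k11,k79),(k1,k81),(k4,k82),(k0,k83),(k3,k83),(k6,k83),(k7,k83),(k8,k83),(k5,k84)],
    [(k2,k75),(k0,k77),(k1,k79),(k8,k79),(k10,k79),(k11,k79),(k4,k82),(k5,k82),(k3,k83),(k6,k83),(k7,k83),(k9,k83)],
    [(k2,k76),(k0,k78),(k1,k82),(k10,k82),(k4,k83),(k5,k83),(k3,k84),(k6,k84),(k7,k84),(k8,k84),(k9,k84),(k11,k84)],
    [(k2,k80),(k11,k80),(k0,k82),(k10,k82),(k4,k83),(k5,k83),(k6,k84),(k7,k84),(k8,k84),(k9,k84),(k1,k86),(k3,k88)],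
    [(k0,k74),(k2,k76),(k10,k76),(k5,k79),(k1,k80),(k3,k80),(k11,k80),(k4,k83),(k6,k84),(k7,k84),(k8,k84),(k9,k84)],
    [(k1,k70),(k2,k76),(k4,k79),(k3,k80),(k10,k80),(k11,k80),(k5,k83),(k6,k84),(k7,k84),(k8,k84),(k9,k84),(k0,k86)],
    [(k2,k72),(k3,k72),(k11,k76),(k0,k78),(k1,k78),(k4,k79),(k5,k79),(k6,k80),(k8,k80),(k9,k80),(k7,k84),(k10,k88)],
    [(k3,k60),(k2,k72),(k0,k74),(k9,k76),(k10,k76),(k1,k78),(k4,k79),(k5,k79),(k8,k80),(k6,k82),(k7,k82),(k11,k88)]]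
    [[k2,k1,k0,k0,k0,k0],[k2,k0,k0,k0,k0,k1],[k1,k2,k0,k0,k0,k0],[k1,k1,k1,k0,k0,k0],[k1,k1,k0,k0,k1,k0],[k1,k1,k0,k0,
    k0,k1],[k1,k0,k1,k0,k1,k0],[k1,k0,k1,k0,k0,k1],[k1,k0,k0,k1,k0,k1],[k1,k0,k0,k1,k1,k0],[k1,k0,k0,k0,k2,k0],[k1,k0,
    k0,k0,k1,k1],[k1,k0,k0,k0,k0,k2],[k0,k3,k0,k0,k0,k0],[k0,k2,k1,k0,k0,k0],[k0,k2,k0,k1,k0,k0],[k0,k2,k0,k0,k1,k0],
    [k0,k2,k0,k0,k0,k1],[k0,k1,k1,k0,k1,k0],[k0,k1,k1,k0,k0,k1],[k0,k1,k0,k1,k0,k1],[k0,k1,k0,k0,k1,k1],[k0,k1,k0,k0,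
    k0,k2],[k0,k0,k1,k0,k1,k1],[k0,k0,k1,k0,k0,k2],[k0,k0,k0,k0,k1,k2]]
    [.ref k25 k0 [(z2,[z9,y2,y9]),(z1,[y6,z2,z9]),(z2,[y3,z1,z3,z3]),(z1,[z0,z0,z0,z0,z1]),(z1,[z3,y1,y3])],
    .ref k25 k0 [(z4,[z6,z1,z6,z3,z2,y6]),(z3,[y6,z1,z3,y3,y2,z6]),(z12,[y6,z1,y6,z15,y2,z6]),(z1,[z0,z0,z0,z0,z1]),
    (z6,[z6,y1,z6,z3,z2,y6])],.ref k25 k0 [(z5,[y9,z4,z18]),(z5,[z12,y2,y9]),(z10,[z6,y1,y12,z15]),(z1,[z0,z0,z0,z0,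
    z1]),(z5,[y6,z1,z12])],.ref k25 k0 [(z4,[y18,z5,z18,z9]),(z1,[z6,y1,y3,y3]),(z4,[z6,y1,y6,z3]),(z1,[z0,z0,z0,z0,
    z1]),(z2,[y6,z1,z6,z3])],.ref k25 k0 [(z1,[z9,y1,y9]),(z1,[y12,z2,z15]),(z2,[y6,z1,z6,z3]),(z1,[z0,z0,z0,z0,z1]),
    (z1,[z6,y1,y6])],.ref k25 k0 [(z2,[y18,z1,z0,y9,y6,z18]),(z1,[z12,z0,z3,z6,z4,y12]),(z1,[z3,z0,z0,z3,z1,y3]),(z1,
    [z0,z0,z0,z0,z1]),(z1,[y6,z0,z0,y3,y2,z6])],.ref k25 k0 [(z8,[z18,z1,z0,y9]),(z2,[y6,z1,z6,z3]),(z8,[y6,z1,z0,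
    z15]),(z1,[z0,z0,z0,z0,z1]),(z4,[z6,y1,z0,y3])],.ref k25 k0 [(z2,[z9,z1,z9,z0,z3,y9]),(z1,[y6,z0,y3,z0,y2,z6]),
    (z2,[y3,z0,y3,z3,y1,z3]),(z1,[z0,z0,z0,z0,z1]),(z1,[z3,z0,z3,z0,z1,y3])],.ref k25 k0 [(z2,[z6,z1,z6,z3,z0,y6]),
    (z1,[y4,z0,y1,y2,z0,z4]),(z1,[y1,z0,y1,z1,z0,z1]),(z1,[z0,z0,z0,z0,z1]),(z1,[z2,z0,z2,z1,z0,y2])],
    .ref k25 k0 [(z5,[z9,z1,z0,z0,y3]),(z5,[y12,z2,z15,z0,z4]),(z10,[y6,z1,z0,z15,z2]),(z1,[z0,z0,z0,z0,z1]),(z5,[z6,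
    y1,z0,z0,y2])],.ref k25 k0 [(z7,[z9,z2]),(z7,[y12,z2,z21]),(z14,[y6,z1,z0,z21]),(z1,[z0,z0,z0,z0,z1]),(z7,[z6,
    y1])],.ref k25 k0 [(z10,[z18,z5,z18,z9,z6,y18]),(z5,[y12,z0,z3,y6,y4,z12]),(z5,[y3,z0,y3,z6,y1,z3]),(z1,[z0,z0,z0,
    z0,z1]),(z5,[z6,z0,z6,z3,z2,y6])],.ref k25 k0 [(z1,[z3,z1,z6,z3,z2,y6]),(z3,[y12,y2,y15,y12,y8,z24]),(z6,[y6,y1,
    y12,z3,y4,z12]),(z1,[z0,z0,z0,z0,z1]),(z3,[z6,z1,z12,z6,z4,y12])],.ref k25 k0 [(z4,[y3,z2,z9]),(z1,[z1]),(z4,[z1,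
    z0,y3,z6]),(z1,[z0,z0,z0,z0,z1]),(z2,[y1,z0,z3])],.ref k25 k0 [(z2,[y2,z1,z4,z1]),(z3,[z4,z0,z1,y2]),(z3,[z1,z0,
    y2,z4]),(z1,[z0,z0,z0,z0,z1]),(z3,[y2,z0,z4,z1])],.ref k25 k0 [(z8,[y9,z4,z18,z0,z3]),(z2,[z3,z0,z0,z0,y1]),(z8,
    [z3,z0,y6,z12,y1]),(z1,[z0,z0,z0,z0,z1]),(z4,[y3,z0,z6,z0,z1])],.ref k25 k0 [(z2,[y3,z1,z6]),(z1,[z2,z0,y1]),(z2,
    [z1,z0,y2,z3]),(z1,[z0,z0,z0,z0,z1]),(z1,[y1,z0,z2])],.ref k25 k0 [(z16,[y18,z5,z18,y9,y6,z18]),(z4,[z6,z1,z6,z3,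
    z2,y6]),(z16,[z6,z1,y6,z27,z2,y6]),(z1,[z0,z0,z0,z0,z1]),(z8,[y6,y1,z6,y3,y2,z6])],.ref k25 k0 [(z2,[y6,z1,z6,
    z3]),(z1,[z4,z0,y1,y2]),(z1,[z1,z0,y1,z1]),(z1,[z0,z0,z0,z0,z1]),(z1,[y2,z0,z2,z1])],.ref k25 k0 [(z5,[y9,z1,z0,
    z0,y3,z9]),(z5,[z12,z2,z15,z0,z4,y12]),(z10,[z6,z1,z0,z15,z2,y6]),(z1,[z0,z0,z0,z0,z1]),(z5,[y6,y1,z0,z0,y2,z6])],
    .ref k25 k0 [(z8,[y18,z1,z0,y9,z0,z18]),(z2,[z6,z1,z6,z3,z0,y6]),(z8,[z6,z1,z0,z15,z0,y6]),(z1,[z0,z0,z0,z0,z1]),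
    (z4,[y6,y1,z0,y3,z0,z6])],.ref k25 k0 [(z4,[y18,y1,z0,y9,y6,z18]),(z1,[z6,z1,z3,z3,z2,y6]),(z4,[z6,z1,z0,z9,z2,
    y6]),(z1,[z0,z0,z0,z0,z1]),(z2,[y6,y1,z0,y3,y2,z6])],.ref k25 k0 [(z4,[y9,y1,y9,y9,y6,z18]),(z1,[z3,z1,z6,z3,z2,
    y6]),(z4,[z3,z1,z3,z9,z2,y6]),(z1,[z0,z0,z0,z0,z1]),(z2,[y3,y1,y3,y3,y2,z6])],.ref k25 k0 [(z1,[z9,z2,z9,z0,z3,
    y9]),(z1,[y12,y2,y9,z0,y4,z12]),(z2,[y6,y1,y6,z3,y2,z6]),(z1,[z0,z0,z0,z0,z1]),(z1,[z6,z1,z6,z0,z2,y6])],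
    .ref k25 k0 [(z2,[y18,y5,y36,y9,y12,z36]),(z1,[z12,z4,z27,z6,z8,y24]),(z1,[z3,z1,z6,z3,z2,y6]),(z1,[z0,z0,z0,z0,
    z1]),(z1,[y6,y2,y12,y3,y4,z12])],.ref k25 k0 [(z2,[z9,z4,z18,z9,z6,y18]),(z1,[y6,y2,y9,y6,y4,z12]),(z2,[y3,y1,y6,
    z0,y2,z6]),(z1,[z0,z0,z0,z0,z1]),(z1,[z3,z1,z6,z3,z2,y6])]],
    .lp k0 [(nat_lit 470),(nat_lit 428),(nat_lit 506),(nat_lit 518),(nat_lit 506),(nat_lit 440)] [k24,k24,k45,k45,k6,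
    k6,k0,k0,k6,k6,k39,k39] k0 [[k0,k0,k0,k0,k12,k12,k24,k0,k0,k0,k0,k12],[k6,k0,k0,k6,k0,k0,k0,k0,k18,k0,k0,k24],[k6,
    k0,k0,k6,k0,k0,k0,k0,k18,k0,k0,k24],[k0,k0,k0,k0,k12,k12,k24,k0,k0,k0,k0,k12],[k0,k12,k12,k0,k0,k0,k0,k0,k0,k42,
    k36,k0],[k0,k12,k12,k0,k0,k0,k0,k0,k0,k12,k0,k0],[k0,k0,k0,k0,k0,k0,k0,k0,k0,k0,k0,k0],[k0,k24,k24,k0,k0,k0,k0,k0,
    k0,k0,k6,k12],[k0,k0,k0,k0,k12,k42,k0,k0,k0,k0,k6,k0],[k18,k0,k0,k18,k0,k0,k0,k0,k0,k0,k0,k0],[k24,k12,k12,k24,k0,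
    k0,k12,k0,k0,k0,k0,k0],[k0,k0,k0,k0,k0,k36,k6,k0,k0,k6,k0,k0]] (nat_lit 1440) k5
    [[(k4,(nat_lit 452)),(k10,(nat_lit 455)),(k11,(nat_lit 455)),(k2,(nat_lit 461)),(k3,(nat_lit 461)),(k1,
    (nat_lit 470)),(k8,(nat_lit 482)),(k9,(nat_lit 482)),(k0,(nat_lit 494)),(k7,(nat_lit 494)),(k6,(nat_lit 506)),(k5,
    (nat_lit 512))],[(k10,(nat_lit 443)),(k2,(nat_lit 449)),(k3,(nat_lit 449)),(k11,(nat_lit 455)),(k9,(nat_lit 464)),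
    (k0,(nat_lit 476)),(k4,(nat_lit 476)),(k7,(nat_lit 482)),(k1,(nat_lit 494)),(k5,(nat_lit 494)),(k6,(nat_lit 494)),
    (k8,(nat_lit 506))],[(k10,(nat_lit 410)),(k11,(nat_lit 416)),(k2,(nat_lit 422)),(k3,(nat_lit 422)),(k0,
    (nat_lit 449)),(k1,(nat_lit 461)),(k5,(nat_lit 467)),(k8,(nat_lit 467)),(k9,(nat_lit 467)),(k4,(nat_lit 479)),(k7,
    (nat_lit 485)),(k6,(nat_lit 497))],[(k10,(nat_lit 410)),(k11,(nat_lit 416)),(k2,(nat_lit 422)),(k3,(nat_lit 422)),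
    (k0,(nat_lit 449)),(k1,(nat_lit 461)),(k5,(nat_lit 467)),(k8,(nat_lit 467)),(k9,(nat_lit 467)),(k4,(nat_lit 479)),
    (k7,(nat_lit 485)),(k6,(nat_lit 497))],[(k10,(nat_lit 461)),(k2,(nat_lit 467)),(k3,(nat_lit 467)),(k11,
    (nat_lit 473)),(k9,(nat_lit 482)),(k0,(nat_lit 494)),(k4,(nat_lit 494)),(k7,(nat_lit 500)),(k1,(nat_lit 512)),(k5,
    (nat_lit 512)),(k6,(nat_lit 512)),(k8,(nat_lit 524))],[(k1,(nat_lit 452)),(k8,(nat_lit 464)),(k10,(nat_lit 473)),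
    (k0,(nat_lit 476)),(k2,(nat_lit 479)),(k3,(nat_lit 479)),(k11,(nat_lit 485)),(k5,(nat_lit 494)),(k4,
    (nat_lit 506)),(k9,(nat_lit 506)),(k6,(nat_lit 512)),(k7,(nat_lit 512))],[(k0,(nat_lit 482)),(k2,(nat_lit 485)),
    (k3,(nat_lit 485)),(k1,(nat_lit 494)),(k5,(nat_lit 500)),(k8,(nat_lit 500)),(k4,(nat_lit 512)),(k9,(nat_lit 512)),
    (k10,(nat_lit 515)),(k6,(nat_lit 518)),(k7,(nat_lit 518)),(k11,(nat_lit 521))],[(k11,(nat_lit 479)),(k10,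
    (nat_lit 485)),(k0,(nat_lit 494)),(k2,(nat_lit 497)),(k3,(nat_lit 497)),(k1,(nat_lit 506)),(k4,(nat_lit 512)),(k5,
    (nat_lit 512)),(k8,(nat_lit 512)),(k9,(nat_lit 512)),(k6,(nat_lit 518)),(k7,(nat_lit 518))],[(k10,(nat_lit 461)),
    (k0,(nat_lit 464)),(k2,(nat_lit 467)),(k3,(nat_lit 467)),(k11,(nat_lit 473)),(k1,(nat_lit 482)),(k5,
    (nat_lit 482)),(k4,(nat_lit 506)),(k8,(nat_lit 506)),(k9,(nat_lit 506)),(k6,(nat_lit 512)),(k7,(nat_lit 512))],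
    [(k4,(nat_lit 464)),(k2,(nat_lit 467)),(k3,(nat_lit 467)),(k10,(nat_lit 473)),(k11,(nat_lit 473)),(k1,
    (nat_lit 482)),(k7,(nat_lit 500)),(k0,(nat_lit 506)),(k8,(nat_lit 506)),(k9,(nat_lit 506)),(k6,(nat_lit 512)),(k5,
    (nat_lit 524))],[(k2,(nat_lit 416)),(k3,(nat_lit 416)),(k11,(nat_lit 440)),(k10,(nat_lit 446)),(k0,(nat_lit 455)),
    (k1,(nat_lit 455)),(k5,(nat_lit 473)),(k8,(nat_lit 473)),(k9,(nat_lit 473)),(k6,(nat_lit 479)),(k4,(nat_lit 485)),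
    (k7,(nat_lit 521))],[(k2,(nat_lit 410)),(k3,(nat_lit 410)),(k10,(nat_lit 440)),(k0,(nat_lit 443)),(k11,
    (nat_lit 446)),(k1,(nat_lit 455)),(k5,(nat_lit 461)),(k9,(nat_lit 461)),(k4,(nat_lit 473)),(k8,(nat_lit 473)),(k6,
    (nat_lit 485)),(k7,(nat_lit 515))]]
    [[k2,k1,k0,k0,k0,k0],[k2,k0,k0,k0,k0,k1],[k1,k2,k0,k0,k0,k0],[k1,k1,k1,k0,k0,k0],[k1,k1,k0,k0,k1,k0],[k1,k1,k0,k0,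
    k0,k1],[k1,k0,k1,k0,k0,k1],[k1,k0,k0,k1,k0,k1],[k1,k0,k0,k0,k1,k1],[k1,k0,k0,k0,k0,k2],[k0,k3,k0,k0,k0,k0],[k0,k2,
    k1,k0,k0,k0],[k0,k2,k0,k1,k0,k0],[k0,k2,k0,k0,k1,k0],[k0,k2,k0,k0,k0,k1],[k0,k1,k1,k0,k1,k0],[k0,k1,k1,k0,k0,k1],
    [k0,k1,k0,k1,k0,k1],[k0,k1,k0,k0,k1,k1],[k0,k1,k0,k0,k0,k2],[k0,k0,k1,k0,k1,k1],[k0,k0,k1,k0,k0,k2],[k0,k0,k0,k0,
    k1,k2],[k0,k0,k0,k0,k0,k3]]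
    [.ref (nat_lit 455) k10 [(z1,[z0,z0,z1,y2]),(z2,[z1,z0,y1,z2]),(z2,[z1,y1,y1,y1]),(z1,[z0,z0,z0,z1])],
    .ref k69 k10 [(z1,[z0,z0,z1,y2]),(z2,[z2,z1,z0,z3]),(z1,[z1,y1,z0,y3]),(z1,[z0,z0,z0,z1])],
    .ref (nat_lit 540) k3 [(z2,[y4,z1,z6,y11,z2]),(z1,[z0,z0,z0,z1]),(z2,[z2,y1,y4,z5]),(z1,[z1,z0,y2,z4])],
    .ref (nat_lit 454) k3 [(z2,[y4,z1,z2,y3,z2]),(z1,[z0,z0,z0,z1]),(z2,[z2,y1,y2,z1]),(z1,[z1,z0,y1,z2])],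
    .ref (nat_lit 455) k10 [(z1,[z0,z0,z1,y2]),(z1,[z1,z0,y1,z1]),(z2,[z2,y1,y2,y1]),(z1,[z0,z0,z0,z1])],
    .ref k95 k0 [(z1,[y3,z2,z3]),(z1,[z4,y2,y3]),(z2,[z2,y1,y2,z1]),(z2,[z0,y1,y2,y1,z2])],
    .ref (nat_lit 455) k10 [(z1,[z0,z0,z1,y2]),(z4,[z2,z1,z0,z3]),(z4,[z2,y1,z0,y3]),(z1,[z0,z0,z0,z1])],
    .ref (nat_lit 269) k0 [(z2,[z2,z1,z2,z1,y2]),(z1,[y4,z0,y1,y2,z4]),(z1,[y1,z0,y1,z1,z1]),(z2,[z0,y1,y2,y1,z2])],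
    .ref (nat_lit 541) k10 [(z1,[z0,z0,z1,y2]),(z2,[z2,z1,z0,z1]),(z2,[z2,y1,z0,y5]),(z1,[z0,z0,z0,z1])],
    .ref (nat_lit 455) k10 [(z1,[z0,z0,z1,y2]),(z3,[z1,z1,z0,z3]),(z6,[z2,y1,z0,y3]),(z1,[z0,z0,z0,z1])],
    .ref (nat_lit 269) k0 [(z4,[y1,z2,z3]),(z1,[z1]),(z4,[z1,z0,y3,z6]),(z2,[z0,y1,y2,y1,z2])],
    .ref (nat_lit 269) k0 [(z6,[y2,z3,z4,z1]),(z3,[z4,z0,z1,y2]),(z3,[z1,z0,y2,z4]),(z2,[z0,y1,y2,y1,z2])],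
    .ref (nat_lit 542) k10 [(z1,[z0,z0,z1,y2]),(z4,[y2,z1,z2,y3,z2]),(z4,[y2,y1,z2,y9,z2]),(z1,[z0,z0,z0,z1])],
    .ref (nat_lit 269) k0 [(z2,[y1,z1,z2]),(z1,[z2,z0,y1]),(z2,[z1,z0,y2,z3]),(z2,[z0,y1,y2,y1,z2])],
    .ref (nat_lit 543) k3 [(z2,[y4,y1,z6,y17,z2]),(z1,[z0,z0,z0,z1]),(z1,[z1,z0,y2,z4]),(z2,[z2,z1,y4,z11])],
    .ref (nat_lit 269) k0 [(z2,[y2,z1,z2,z1]),(z1,[z4,z0,y1,y2]),(z1,[z1,z0,y1,z1]),(z2,[z0,y1,y2,y1,z2])],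
    .ref (nat_lit 540) k3 [(z2,[y4,y1,z2,y9,z2]),(z1,[z0,z0,z0,z1]),(z1,[z1,z0,y1,z2]),(z2,[z2,z1,y2,z7])],
    .ref (nat_lit 542) k10 [(z1,[z0,z0,z1,y2]),(z1,[y1,z0,z0,y1,z1]),(z2,[y2,y1,z0,y5,z2]),(z1,[z0,z0,z0,z1])],
    .ref (nat_lit 454) k3 [(z2,[y4,y1,z2,y5,z2]),(z1,[z0,z0,z0,z1]),(z1,[z1,z0,y1,z1]),(z2,[z2,z1,y2,z5])],
    .ref (nat_lit 454) k3 [(z2,[y2,y1,z0,y5,z2]),(z1,[z0,z0,z0,z1]),(z2,[z1,z0,y1,z2]),(z2,[z1,z1,y1,z5])],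
    .ref (nat_lit 455) k10 [(z1,[z0,z0,z1,y2]),(z2,[z2,z1,z0,z1]),(z1,[z1,z0,z0,y1]),(z1,[z0,z0,z0,z1])],
    .ref k95 k0 [(z2,[y6,z1,z0,z3]),(z1,[z4,z0,z1,y2]),(z1,[z1]),(z2,[z0,y1,y2,y1,z2])],.ref (nat_lit 455) k10 [(z1,
    [z0,z0,z1,y2]),(z2,[z1,z1,z0,z2]),(z2,[z1,z0,z0,y1]),(z1,[z0,z0,z0,z1])],.ref (nat_lit 544) k0 [(z1,[z2,z3]),(z1,
    [z0,z0,z1]),(z1,[z0,z0,z0,z1]),(z2,[y4,y3,y6,y3,z6])]],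
    .lp k0 [(nat_lit 155248),(nat_lit 151492),(nat_lit 155248),(nat_lit 138346),(nat_lit 153370),
    (nat_lit 145858)] [(nat_lit 6261),(nat_lit 6261),(nat_lit 8139),(nat_lit 8139),(nat_lit 6261),(nat_lit 6261),
    (nat_lit 14712),(nat_lit 14712),(nat_lit 14400),k0,(nat_lit 10956),(nat_lit 10956)] k0 [[k0,(nat_lit 3756),k0,k0,
    k0,k0,(nat_lit 18780),k0,(nat_lit 5634),(nat_lit 15024),k0,k0],[k0,k0,k0,k0,k0,(nat_lit 16902),(nat_lit 3756),k0,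
    k0,k0,(nat_lit 11268),k0],[k0,k0,k0,(nat_lit 7512),(nat_lit 9390),(nat_lit 1878),k0,k0,k0,k0,k0,k0],[k0,k0,k0,k0,
    k0,k0,(nat_lit 15024),k0,k0,(nat_lit 18780),(nat_lit 15024),(nat_lit 3756)],[(nat_lit 16902),k0,k0,(nat_lit 1878),
    k0,k0,(nat_lit 48828),k0,k0,k0,k0,(nat_lit 15024)],[k0,k0,k0,(nat_lit 9390),k0,k0,k0,k0,k0,(nat_lit 1878),k0,
    (nat_lit 3756)],[k0,k0,k0,k0,k0,k0,k0,(nat_lit 13146),(nat_lit 16902),(nat_lit 5634),k0,k0],[(nat_lit 3756),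
    (nat_lit 18780),(nat_lit 15024),k0,k0,(nat_lit 48828),k0,k0,k0,k0,k0,(nat_lit 15024)],[k0,(nat_lit 15024),
    (nat_lit 18780),k0,(nat_lit 1878),k0,k0,(nat_lit 5634),k0,k0,(nat_lit 9390),k0],[k0,(nat_lit 5634),k0,k0,k0,k0,k0,
    (nat_lit 16902),(nat_lit 7512),k0,k0,k0],[k0,k0,(nat_lit 3756),k0,(nat_lit 3756),(nat_lit 15024),(nat_lit 15024),
    k0,k0,k0,k0,k0],[(nat_lit 11268),k0,(nat_lit 15024),k0,k0,k0,k0,k0,k0,(nat_lit 9390),(nat_lit 11268),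
    k0]] (nat_lit 450720) k5
    [[(k8,(nat_lit 137719)),(k5,(nat_lit 140224)),(k3,(nat_lit 142102)),(k1,(nat_lit 143980)),(k10,(nat_lit 150553)),
    (k11,(nat_lit 150553)),(k0,(nat_lit 155248)),(k2,(nat_lit 157126)),(k4,(nat_lit 159004)),(k9,(nat_lit 161509)),
    (k6,(nat_lit 161821)),(k7,(nat_lit 161821))],[(k8,(nat_lit 132085)),(k9,(nat_lit 142729)),(k11,(nat_lit 144919)),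
    (k6,(nat_lit 150553)),(k0,(nat_lit 151492)),(k2,(nat_lit 153370)),(k3,(nat_lit 153370)),(k1,(nat_lit 155248)),(k4,
    (nat_lit 155248)),(k5,(nat_lit 155248)),(k10,(nat_lit 161821)),(k7,(nat_lit 163699))],[(k4,(nat_lit 136468)),(k1,
    (nat_lit 142102)),(k7,(nat_lit 144919)),(k10,(nat_lit 148675)),(k8,(nat_lit 150865)),(k2,(nat_lit 151492)),(k0,
    (nat_lit 153370)),(k5,(nat_lit 153370)),(k3,(nat_lit 155248)),(k9,(nat_lit 155875)),(k6,(nat_lit 163699)),(k11,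
    (nat_lit 163699))],[(k7,(nat_lit 135529)),(k2,(nat_lit 143980)),(k8,(nat_lit 145231)),(k3,(nat_lit 151492)),(k4,
    (nat_lit 151492)),(k0,(nat_lit 153370)),(k5,(nat_lit 153370)),(k1,(nat_lit 157126)),(k9,(nat_lit 159631)),(k6,
    (nat_lit 159943)),(k10,(nat_lit 163699)),(k11,(nat_lit 167455))],[(k8,(nat_lit 128329)),(k1,(nat_lit 140224)),(k9,
    (nat_lit 146485)),(k6,(nat_lit 146797)),(k10,(nat_lit 146797)),(k7,(nat_lit 148675)),(k11,(nat_lit 150553)),(k2,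
    (nat_lit 153370)),(k3,(nat_lit 153370)),(k0,(nat_lit 155248)),(k5,(nat_lit 162760)),(k4,(nat_lit 164638))],[(k9,
    (nat_lit 112681)),(k10,(nat_lit 135529)),(k3,(nat_lit 136468)),(k6,(nat_lit 146797)),(k7,(nat_lit 146797)),(k8,
    (nat_lit 147109)),(k2,(nat_lit 151492)),(k11,(nat_lit 152431)),(k0,(nat_lit 155248)),(k4,(nat_lit 155248)),(k1,
    (nat_lit 159004)),(k5,(nat_lit 164638))],[(k2,(nat_lit 135529)),(k8,(nat_lit 136780)),(k7,(nat_lit 138346)),(k10,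
    (nat_lit 138346)),(k11,(nat_lit 142102)),(k3,(nat_lit 144919)),(k4,(nat_lit 146797)),(k5,(nat_lit 148675)),(k9,
    (nat_lit 153058)),(k1,(nat_lit 161821)),(k0,(nat_lit 163699)),(k6,(nat_lit 187174))],[(k6,(nat_lit 125200)),(k11,
    (nat_lit 125200)),(k8,(nat_lit 133024)),(k10,(nat_lit 142102)),(k4,(nat_lit 146797)),(k5,(nat_lit 146797)),(k0,
    (nat_lit 150553)),(k9,(nat_lit 153058)),(k2,(nat_lit 159943)),(k1,(nat_lit 161821)),(k3,(nat_lit 163699)),(k7,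
    (nat_lit 187174))],[(k4,(nat_lit 112681)),(k10,(nat_lit 141790)),(k0,(nat_lit 142729)),(k5,(nat_lit 146485)),(k6,
    (nat_lit 153058)),(k7,(nat_lit 153058)),(k3,(nat_lit 155875)),(k2,(nat_lit 159631)),(k1,(nat_lit 161509)),(k11,
    (nat_lit 162448)),(k8,(nat_lit 170272)),(k9,(nat_lit 180916))],[(k5,(nat_lit 128329)),(k0,(nat_lit 132085)),(k6,
    (nat_lit 133024)),(k7,(nat_lit 136780)),(k1,(nat_lit 137719)),(k10,(nat_lit 142414)),(k11,(nat_lit 142414)),(k2,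
    (nat_lit 145231)),(k8,(nat_lit 146482)),(k4,(nat_lit 147109)),(k3,(nat_lit 150865)),(k9,(nat_lit 170272))],[(k6,
    (nat_lit 125200)),(k11,(nat_lit 138346)),(k7,(nat_lit 142102)),(k8,(nat_lit 142414)),(k0,(nat_lit 144919)),(k1,
    (nat_lit 150553)),(k5,(nat_lit 150553)),(k4,(nat_lit 152431)),(k10,(nat_lit 155248)),(k9,(nat_lit 162448)),(k3,
    (nat_lit 163699)),(k2,(nat_lit 167455))],[(k4,(nat_lit 135529)),(k7,(nat_lit 138346)),(k9,(nat_lit 141790)),(k6,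
    (nat_lit 142102)),(k8,(nat_lit 142414)),(k5,(nat_lit 146797)),(k3,(nat_lit 148675)),(k1,(nat_lit 150553)),(k11,
    (nat_lit 155248)),(k10,(nat_lit 157126)),(k0,(nat_lit 161821)),(k2,(nat_lit 163699))]]
    [[k2,k0,k0,k0,k1,k0],[k1,k1,k1,k0,k0,k0],[k1,k1,k0,k0,k1,k0],[k1,k2,k0,k0,k0,k0],[k1,k1,k0,k1,k0,k0],[k1,k0,k1,k0,
    k1,k0],[k1,k0,k1,k1,k0,k0],[k1,k0,k1,k0,k0,k1],[k1,k0,k0,k1,k1,k0],[k1,k0,k0,k1,k0,k1],[k1,k0,k0,k0,k1,k1],[k0,k2,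
    k1,k0,k0,k0],[k0,k1,k1,k1,k0,k0],[k0,k1,k1,k0,k1,k0],[k0,k1,k0,k2,k0,k0],[k0,k1,k0,k1,k1,k0],[k0,k1,k0,k1,k0,k1],
    [k0,k0,k2,k0,k1,k0],[k0,k0,k1,k2,k0,k0],[k0,k0,k1,k1,k1,k0],[k0,k0,k1,k1,k0,k1],[k0,k0,k1,k0,k2,k0],[k0,k0,k1,k0,
    k1,k1],[k0,k0,k1,k0,k0,k2],[k0,k0,k0,k2,k1,k0],[k0,k0,k0,k2,k0,k1],[k0,k0,k0,k1,k1,k1],[k0,k0,k0,k1,k0,k2],[k0,k0,
    k0,k0,k1,k2]]
    [.ref (nat_lit 383) k1 [(z2,[y2,z1,y1,z2]),(z1,[z0,z0,z1]),(z1,[z1])],.ref (nat_lit 383) k1 [(z2,[z4,y1,y1,y2]),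
    (z1,[z0,z0,z1]),(z1,[y2,z1,z0,z2])],.ref (nat_lit 383) k1 [(z2,[y4,z1,z1,z2]),(z1,[z0,z0,z1]),(z1,[z2,z0,y1])],
    .ref k109 k4 [(z1,[y1,z0,z1]),(z1,[z1,y1,y1]),(z2,[z0,z1,y1,z2])],.ref (nat_lit 468) k9 [(z2,[y2,y1,y1]),(z1,[z0,
    z0,z1]),(z1,[z1])],.ref k109 k4 [(z2,[z2,y1,z1,y2]),(z2,[y2,y1,y1,z2]),(z2,[z0,z1,y1,z2])],.ref k136 k0 [(z2,[y2,
    z1,y1,z2]),(z1,[z1,z0,z1,y1]),(z2,[z4,y1,z1,y2])],.ref (nat_lit 537) k10 [(z1,[z1,z0,z1,y1]),(z2,[z0,z1,y1,z2]),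
    (z2,[z4,y1,z1,y2])],.ref (nat_lit 538) k1 [(z2,[y4,z1,y1,z2]),(z1,[z0,z0,z1]),(z1,[z1])],.ref k91 k4 [(z1,[y2,
    y1]),(z1,[z1]),(z2,[z0,z1,y1,z2])],.ref (nat_lit 539) k5 [(z1,[z2,z0,z1,y2]),(z2,[y4,y1,y3,z6]),(z2,[z0,z1,y1,
    z2])],.ref (nat_lit 383) k1 [(z1,[z1,z0,y1]),(z1,[z0,z0,z1]),(z2,[y2,z1,z1,z2])],.ref (nat_lit 539) k5 [(z1,[y2,
    z0,z1]),(z2,[z4,y1,y3,z2]),(z2,[z0,z1,y1,z2])],.ref k91 k4 [(z1,[z2,y1,z0,y2]),(z1,[y1,z0,z0,z1]),(z2,[z0,z1,y1,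
    z2])],.ref (nat_lit 545) k9 [(z1,[y1,y1,y1]),(z1,[z0,z0,z1]),(z1,[z1])],.ref (nat_lit 537) k10 [(z1,[y1,z0,z1]),
    (z2,[z0,z1,y1,z2]),(z2,[y4,y1,z1,z2])],.ref k109 k4 [(z2,[y2,y1,z1]),(z2,[z2,y1,y1]),(z2,[z0,z1,y1,z2])],
    .ref k91 k4 [(z1,[z1,y1,z1,y2]),(z2,[y1,z0,y1,z2]),(z2,[z0,z1,y1,z2])],.ref k136 k0 [(z4,[y2,z1,y1,z2]),(z4,[z2,
    z1,z3,y2]),(z1,[z1])],.ref (nat_lit 389) k4 [(z1,[z2,z0,z1,y2]),(z2,[y2,y1,y1,z2]),(z2,[z0,z1,y1,z2])],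
    .ref (nat_lit 383) k1 [(z2,[z4,z1,z1,y2]),(z1,[z0,z0,z1]),(z1,[y2,z0,y1,z2])],.ref k109 k4 [(z4,[z2,y1,z1,y2]),
    (z4,[y2,y3,y1,z2]),(z2,[z0,z1,y1,z2])],.ref (nat_lit 468) k9 [(z2,[z2,y1,y1,y2]),(z1,[z0,z0,z1]),(z1,[y1,z0,z0,
    z1])],.ref (nat_lit 537) k10 [(z4,[z2,z1,z3,y2]),(z2,[z0,z1,y1,z2]),(z1,[z1])],.ref (nat_lit 537) k10 [(z2,[y1,z0,
    z1]),(z2,[z0,z1,y1,z2]),(z2,[y2,y1,y1,z2])],.ref (nat_lit 468) k9 [(z1,[y1,y1,y1]),(z1,[z0,z0,z1]),(z2,[z2,z1,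
    z1])],.ref (nat_lit 383) k1 [(z2,[y4,y1,y1,z2]),(z1,[z0,z0,z1]),(z1,[z2,z1])],.ref (nat_lit 389) k4 [(z1,[y2,y1]),
    (z1,[z1]),(z2,[z0,z1,y1,z2])],.ref k136 k0 [(z2,[z1,z1]),(z2,[y1,z0,z1]),(z2,[y2,y1,y1,z2])]],
    .base (.leafM k0 [k2,k3,k4,k5,k0,k1] [(z1,[y1,y1,y1,z1])] []),
    .base (.leafM k3 [k1,k2,k3,k4,k5,k0] [(z1,[y1,y1,z0,z1])] []),
    .base (.leafM k0 [k1,k2,k3,k4,k5,k0] [(z1,[y1,y1,z0,z1])] []),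
    .base (.leafM k3 [k2,k3,k4,k5,k0,k1] [(z1,[z0,y1,y1,z1])] []),
    .base (.leafM k0 [k2,k3,k4,k5,k0,k1] [(z2,[y1,y1,y2,z2])] [])]

theorem hB6_171_45 : blkB [0, 0, 0, 0, 0, 0] [] sp6 hS6_171 (pcls (n := 6) [0, 0, 0, 0, 0, 0]) hD6_171 560 45 hN6_171_45 = true := by
  decide +kernel

/-- nodes 552 to 559 -/
noncomputable def hN6_171_46 : List HM :=
  [.lp k0 [(nat_lit 328),(nat_lit 280),(nat_lit 342),(nat_lit 338),(nat_lit 302),(nat_lit 328)] [k7,k7,k31,k31,k0,k0,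
    k2,k2,k20,k20,k7,k7] k0 [[k0,k0,k0,k0,k0,k0,k4,k0,k0,k0,k8,k6],[k0,k0,k0,k0,k0,k4,k8,k0,k0,k0,k0,k0],[k0,k0,k0,k4,
    k0,k4,k4,k0,k0,k0,k0,k0],[k0,k0,k0,k0,k0,k0,k4,k0,k0,k8,k16,k6],[k4,k0,k0,k4,k0,k0,k0,k0,k0,k0,k0,k10],[k0,k0,k0,
    k0,k0,k0,k0,k18,k8,k0,k0,k0],[k0,k0,k0,k0,k18,k0,k0,k36,k42,k42,k0,k32],[k8,k4,k4,k4,k0,k0,k0,k0,k0,k0,k0,k14],
    [k0,k0,k8,k0,k0,k0,k0,k42,k0,k0,k8,k0],[k0,k0,k0,k0,k8,k0,k0,k42,k0,k0,k0,k0],[k0,k6,k6,k0,k0,k10,k14,k32,k0,k0,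
    k0,k0],[k0,k8,k16,k0,k0,k0,k0,k0,k0,k8,k16,k0]] (nat_lit 960) k5
    [[(k8,(nat_lit 307)),(k2,(nat_lit 310)),(k3,(nat_lit 310)),(k1,(nat_lit 312)),(k5,(nat_lit 319)),(k0,
    (nat_lit 320)),(k10,(nat_lit 328)),(k11,(nat_lit 328)),(k4,(nat_lit 335)),(k7,(nat_lit 343)),(k6,(nat_lit 347)),
    (k9,(nat_lit 347))],[(k2,(nat_lit 304)),(k3,(nat_lit 304)),(k9,(nat_lit 311)),(k8,(nat_lit 315)),(k1,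
    (nat_lit 320)),(k10,(nat_lit 322)),(k0,(nat_lit 328)),(k11,(nat_lit 328)),(k4,(nat_lit 335)),(k5,(nat_lit 335)),
    (k7,(nat_lit 337)),(k6,(nat_lit 341))],[(k2,(nat_lit 280)),(k3,(nat_lit 280)),(k9,(nat_lit 283)),(k8,
    (nat_lit 291)),(k0,(nat_lit 304)),(k11,(nat_lit 304)),(k4,(nat_lit 307)),(k7,(nat_lit 309)),(k1,(nat_lit 310)),
    (k5,(nat_lit 311)),(k10,(nat_lit 312)),(k6,(nat_lit 313))],[(k2,(nat_lit 276)),(k3,(nat_lit 280)),(k9,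
    (nat_lit 287)),(k8,(nat_lit 291)),(k0,(nat_lit 304)),(k4,(nat_lit 307)),(k7,(nat_lit 309)),(k1,(nat_lit 310)),(k5,
    (nat_lit 311)),(k11,(nat_lit 312)),(k6,(nat_lit 313)),(k10,(nat_lit 320))],[(k2,(nat_lit 311)),(k3,(nat_lit 311)),
    (k8,(nat_lit 314)),(k9,(nat_lit 318)),(k1,(nat_lit 319)),(k10,(nat_lit 329)),(k0,(nat_lit 335)),(k11,
    (nat_lit 335)),(k4,(nat_lit 342)),(k6,(nat_lit 344)),(k7,(nat_lit 344)),(k5,(nat_lit 346))],[(k2,(nat_lit 307)),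
    (k3,(nat_lit 307)),(k10,(nat_lit 325)),(k8,(nat_lit 330)),(k0,(nat_lit 335)),(k1,(nat_lit 335)),(k11,
    (nat_lit 335)),(k6,(nat_lit 340)),(k7,(nat_lit 340)),(k9,(nat_lit 340)),(k4,(nat_lit 342)),(k5,(nat_lit 342))],
    [(k2,(nat_lit 309)),(k3,(nat_lit 309)),(k6,(nat_lit 320)),(k8,(nat_lit 320)),(k9,(nat_lit 320)),(k11,
    (nat_lit 325)),(k10,(nat_lit 333)),(k0,(nat_lit 337)),(k7,(nat_lit 338)),(k4,(nat_lit 340)),(k1,(nat_lit 343)),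
    (k5,(nat_lit 344))],[(k8,(nat_lit 278)),(k11,(nat_lit 291)),(k10,(nat_lit 301)),(k6,(nat_lit 302)),(k2,
    (nat_lit 313)),(k3,(nat_lit 313)),(k7,(nat_lit 320)),(k9,(nat_lit 320)),(k4,(nat_lit 340)),(k0,(nat_lit 341)),(k5,
    (nat_lit 344)),(k1,(nat_lit 347))],[(k3,(nat_lit 283)),(k2,(nat_lit 287)),(k10,(nat_lit 301)),(k0,(nat_lit 311)),
    (k5,(nat_lit 318)),(k6,(nat_lit 320)),(k7,(nat_lit 320)),(k9,(nat_lit 338)),(k4,(nat_lit 340)),(k8,(nat_lit 344)),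
    (k1,(nat_lit 347)),(k11,(nat_lit 357))],[(k6,(nat_lit 278)),(k2,(nat_lit 291)),(k3,(nat_lit 291)),(k8,
    (nat_lit 302)),(k1,(nat_lit 307)),(k5,(nat_lit 314)),(k0,(nat_lit 315)),(k10,(nat_lit 315)),(k11,(nat_lit 315)),
    (k7,(nat_lit 320)),(k4,(nat_lit 330)),(k9,(nat_lit 344))],[(k6,(nat_lit 291)),(k3,(nat_lit 304)),(k2,
    (nat_lit 312)),(k8,(nat_lit 315)),(k7,(nat_lit 325)),(k0,(nat_lit 328)),(k1,(nat_lit 328)),(k11,(nat_lit 328)),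
    (k4,(nat_lit 335)),(k5,(nat_lit 335)),(k10,(nat_lit 336)),(k9,(nat_lit 357))],[(k6,(nat_lit 301)),(k9,
    (nat_lit 301)),(k3,(nat_lit 312)),(k8,(nat_lit 315)),(k2,(nat_lit 320)),(k0,(nat_lit 322)),(k4,(nat_lit 325)),(k1,
    (nat_lit 328)),(k5,(nat_lit 329)),(k7,(nat_lit 333)),(k11,(nat_lit 336)),(k10,(nat_lit 344))]]
    [[k2,k1,k0,k0,k0,k0],[k2,k0,k0,k0,k1,k0],[k1,k2,k0,k0,k0,k0],[k1,k1,k1,k0,k0,k0],[k1,k1,k0,k0,k1,k0],[k1,k1,k0,k0,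
    k0,k1],[k1,k0,k0,k1,k1,k0],[k1,k0,k0,k1,k0,k1],[k1,k0,k0,k0,k1,k1],[k0,k3,k0,k0,k0,k0],[k0,k2,k1,k0,k0,k0],[k0,k2,
    k0,k1,k0,k0],[k0,k2,k0,k0,k1,k0],[k0,k2,k0,k0,k0,k1],[k0,k1,k1,k0,k1,k0],[k0,k1,k1,k0,k0,k1],[k0,k1,k0,k2,k0,k0],
    [k0,k1,k0,k1,k1,k0],[k0,k1,k0,k1,k0,k1],[k0,k1,k0,k0,k2,k0],[k0,k1,k0,k0,k1,k1],[k0,k0,k1,k0,k1,k1],[k0,k0,k1,k1,
    k1,k0],[k0,k0,k0,k2,k1,k0],[k0,k0,k0,k2,k0,k1],[k0,k0,k0,k1,k2,k0],[k0,k0,k0,k1,k1,k1],[k0,k0,k0,k0,k1,k2]]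
    [.ref k25 k0 [(z4,[z7,y2,y7]),(z2,[y1,z2,z7]),(z8,[y1,z2,z1,z12]),(z2,[y1,z2,z1,z0,z6]),(z8,[y7,y10,y17,y12,y24,
    z24])],.ref k25 k0 [(z1,[z2,z1,z2,z1,z2,y2]),(z7,[y4,z4,z17,y2,y4,z4]),(z7,[y1,z1,y1,z10,y1,z1]),(z7,[y4,z4,y4,y2,
    z17,z4]),(z1,[y1,y2,y4,y2,y4,z4])],.ref k25 k0 [(z1,[z7,y4,y14]),(z1,[y2,z2,z7]),(z2,[y1,z1,z2,z3]),(z1,[y2,z2,z4,
    z0,z3]),(z2,[y7,z1,z8,y3,y6,z6])],.ref k25 k0 [(z3,[z14,y5,y14,y7]),(z3,[y4,z4,z13,z2]),(z3,[y1,z1,z1,z5]),(z3,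
    [y4,z4,z4,z2,z9]),(z3,[y7,y2,y2,y1,y9,z9])],.ref k25 k0 [(z1,[z14,z3,z0,z7,z14,y14]),(z1,[y4,z0,z3,y2,y4,z4]),(z1,
    [y1,z0,z0,z1,y1,z1]),(z1,[y4,z0,z0,y2,y1,z4]),(z1,[y7,y3,y3,y5,y10,z10])],.ref k25 k0 [(z2,[z7,y1,y7]),(z1,[y1,z1,
    z4]),(z4,[y1,z1,z1,z6]),(z1,[y1,z1,z1,z0,z3]),(z4,[y7,y5,y5,y6,y12,z12])],.ref k25 k0 [(z1,[z14,z3,z14,z7,z0,
    y14]),(z1,[y4,z0,y1,y2,z0,z4]),(z1,[y1,z0,y1,z1,z0,z1]),(z1,[y4,z0,y4,y2,z3,z4]),(z1,[y7,y3,y10,y5,y3,z10])],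
    .ref k25 k0 [(z2,[z7,y1,z0,z0,y7]),(z1,[y1,z1,z3,z0,z1]),(z4,[y1,z1,z0,z6,z1]),(z1,[y1,z1,z0,z0,z4]),(z4,[y7,y5,
    y12,y6,y5,z12])],.ref k25 k0 [(z3,[z14,z9,z14,z7,z14,y14]),(z3,[y4,z0,z5,y2,y4,z4]),(z3,[y1,z0,y1,z4,y1,z1]),(z3,
    [y4,z0,y4,y2,z5,z4]),(z3,[y7,y9,y16,y8,y16,z16])],.ref k25 k0 [(z2,[y7,z6,z21]),(z1,[z1]),(z4,[z1,z0,y3,z6]),(z1,
    [z1,z0,y3,z0,z3]),(z4,[z7,y12,y33,y6,y12,z12])],.ref k25 k0 [(z3,[y14,z9,z28,z7]),(z3,[z4,z0,z1,y2]),(z3,[z1,z0,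
    y2,z4]),(z3,[z4,z0,y8,y2,z9]),(z3,[z7,y9,y23,y8,y9,z9])],.ref k25 k0 [(z2,[y7,z6,z14,z0,z7]),(z1,[z1,z0,z1,z0,
    y1]),(z4,[z1,z0,y2,z6,y1]),(z1,[z1,z0,y2,z0,z2]),(z4,[z7,y12,y26,y6,y19,z12])],.ref k25 k0 [(z5,[y14,z1,z14,y7,
    y14,z14]),(z5,[z4,z4,z11,z2,z4,y4]),(z5,[z1,z1,y1,z8,z1,y1]),(z5,[z4,z4,y4,z2,z19,y4]),(z5,[z7,y8,y22,y4,y8,z8])],
    .ref k25 k0 [(z1,[y7,z3,z14]),(z1,[z2,z0,y1]),(z2,[z1,z0,y2,z3]),(z1,[z2,z0,y4,z0,z3]),(z2,[z7,y6,y20,y3,y6,z6])],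
    .ref k25 k0 [(z2,[y7,y1,z0,z0,y7,z7]),(z1,[z1,z1,z3,z0,z1,y1]),(z4,[z1,z1,z0,z6,z1,y1]),(z1,[z1,z1,z0,z0,z4,y1]),
    (z4,[z7,y5,y12,y6,y5,z5])],.ref k25 k0 [(z1,[y14,z3,z14,z7]),(z1,[z4,z0,y1,y2]),(z1,[z1,z0,y1,z1]),(z1,[z4,z0,y4,
    y2,z3]),(z1,[z7,y3,y10,y5,y3,z3])],.ref k25 k0 [(z2,[y7,z6,z7,z0,z14]),(z1,[z1,z0,z2,z0,y2]),(z4,[z1,z0,y1,z6,
    y2]),(z1,[z1,z0,y1,z0,z1]),(z4,[z7,y12,y19,y6,y26,z12])],.ref k25 k0 [(z5,[y14,z1,z0,y7,z0,z14]),(z5,[z4,z4,z15,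
    z2,z0,y4]),(z5,[z1,z1,z0,z8,z0,y1]),(z5,[z4,z4,z0,z2,z15,y4]),(z5,[z7,y8,y15,y4,y15,z8])],.ref k25 k0 [(z1,[y7,z3,
    z7,z0,z7]),(z1,[z2,z0,z1,z0,y2]),(z2,[z1,z0,y1,z3,y1]),(z1,[z2,z0,y2,z0,z1]),(z2,[z7,y6,y13,y3,y13,z6])],
    .ref k25 k0 [(z3,[y7,y5,y7,y7,y14,z14]),(z3,[z2,z4,z11,z2,z4,y4]),(z6,[z1,z2,z1,z10,z2,y2]),(z3,[z2,z4,z2,z2,z13,
    y4]),(z6,[z7,y4,y11,y2,y4,z4])],.ref k25 k0 [(z3,[y14,y5,z0,y7,y14,z14]),(z3,[z4,z4,z9,z2,z4,y4]),(z3,[z1,z1,z0,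
    z5,z1,y1]),(z3,[z4,z4,z0,z2,z13,y4]),(z3,[z7,y2,y9,y1,y2,z2])],.ref k25 k0 [(z1,[y7,y4,y7,z0,y7,z7]),(z1,[z2,z2,
    z5,z0,z2,y2]),(z2,[z1,z1,z1,z3,z1,y1]),(z1,[z2,z2,z2,z0,z5,y2]),(z2,[z7,z1,z1,y3,z1,y1])],.ref k25 k0 [(z2,[y7,y1,
    y7,z0,z0,z7]),(z1,[z1,z1,z4,z0,z0,y1]),(z4,[z1,z1,z1,z6,z0,y1]),(z1,[z1,z1,z1,z0,z3,y1]),(z4,[z7,y5,y5,y6,y12,
    z5])],.ref k25 k0 [(z5,[y14,z1,y14,y7,z14,z14]),(z5,[z4,z4,z19,z2,y4,y4]),(z5,[z1,z1,z1,z8,y1,y1]),(z5,[z4,z4,z4,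
    z2,z11,y4]),(z5,[z7,y8,y8,y4,y22,z8])],.ref k25 k0 [(z1,[y7,z3,z0,z0,z14]),(z1,[z2,z0,z3,z0,y4]),(z2,[z1,z0,z0,z3,
    y2]),(z1,[z2,z0,z0,z0,y1]),(z2,[z7,y6,y6,y3,y20,z6])],.ref k25 k0 [(z3,[y7,y5,y14,y7,y7,z14]),(z3,[z2,z4,z13,z2,
    z2,y4]),(z6,[z1,z2,z2,z10,z1,y2]),(z3,[z2,z4,z4,z2,z11,y4]),(z6,[z7,y4,y4,y2,y11,z4])],.ref k25 k0 [(z3,[y14,y5,
    y14,y7,z0,z14]),(z3,[z4,z4,z13,z2,z0,y4]),(z3,[z1,z1,z1,z5,z0,y1]),(z3,[z4,z4,z4,z2,z9,y4]),(z3,[z7,y2,y2,y1,y9,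
    z2])],.ref k25 k0 [(z1,[y14,y11,y14,y7,y14,z14]),(z1,[z4,z4,z7,z2,z4,y4]),(z1,[z1,z1,z1,z2,z1,y1]),(z1,[z4,z4,z4,
    z2,z7,y4]),(z1,[z7,z4,z4,z2,z4,y4])]],
    .lp k0 [(nat_lit 470),(nat_lit 428),(nat_lit 506),(nat_lit 518),(nat_lit 506),(nat_lit 440)] [k24,k24,k45,k45,k6,
    k6,k0,k0,k6,k6,k39,k39] k0 [[k0,k0,k0,k0,k12,k12,k24,k0,k0,k0,k0,k12],[k6,k0,k0,k6,k0,k0,k0,k0,k18,k0,k0,k24],[k6,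
    k0,k0,k6,k0,k0,k0,k0,k18,k0,k0,k24],[k0,k0,k0,k0,k12,k12,k24,k0,k0,k0,k0,k12],[k0,k12,k12,k0,k0,k0,k0,k0,k0,k42,
    k36,k0],[k0,k12,k12,k0,k0,k0,k0,k0,k0,k12,k0,k0],[k0,k0,k0,k0,k0,k0,k0,k0,k0,k0,k0,k0],[k0,k24,k24,k0,k0,k0,k0,k0,
    k0,k0,k6,k12],[k0,k0,k0,k0,k12,k42,k0,k0,k0,k0,k6,k0],[k18,k0,k0,k18,k0,k0,k0,k0,k0,k0,k0,k0],[k24,k12,k12,k24,k0,
    k0,k12,k0,k0,k0,k0,k0],[k0,k0,k0,k0,k0,k36,k6,k0,k0,k6,k0,k0]] (nat_lit 1440) k5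
    [[(k4,(nat_lit 452)),(k10,(nat_lit 455)),(k11,(nat_lit 455)),(k2,(nat_lit 461)),(k3,(nat_lit 461)),(k1,
    (nat_lit 470)),(k8,(nat_lit 482)),(k9,(nat_lit 482)),(k0,(nat_lit 494)),(k7,(nat_lit 494)),(k6,(nat_lit 506)),(k5,
    (nat_lit 512))],[(k10,(nat_lit 443)),(k2,(nat_lit 449)),(k3,(nat_lit 449)),(k11,(nat_lit 455)),(k9,(nat_lit 464)),
    (k0,(nat_lit 476)),(k4,(nat_lit 476)),(k7,(nat_lit 482)),(k1,(nat_lit 494)),(k5,(nat_lit 494)),(k6,(nat_lit 494)),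
    (k8,(nat_lit 506))],[(k10,(nat_lit 410)),(k11,(nat_lit 416)),(k2,(nat_lit 422)),(k3,(nat_lit 422)),(k0,
    (nat_lit 449)),(k1,(nat_lit 461)),(k5,(nat_lit 467)),(k8,(nat_lit 467)),(k9,(nat_lit 467)),(k4,(nat_lit 479)),(k7,
    (nat_lit 485)),(k6,(nat_lit 497))],[(k10,(nat_lit 410)),(k11,(nat_lit 416)),(k2,(nat_lit 422)),(k3,(nat_lit 422)),
    (k0,(nat_lit 449)),(k1,(nat_lit 461)),(k5,(nat_lit 467)),(k8,(nat_lit 467)),(k9,(nat_lit 467)),(k4,(nat_lit 479)),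
    (k7,(nat_lit 485)),(k6,(nat_lit 497))],[(k10,(nat_lit 461)),(k2,(nat_lit 467)),(k3,(nat_lit 467)),(k11,
    (nat_lit 473)),(k9,(nat_lit 482)),(k0,(nat_lit 494)),(k4,(nat_lit 494)),(k7,(nat_lit 500)),(k1,(nat_lit 512)),(k5,
    (nat_lit 512)),(k6,(nat_lit 512)),(k8,(nat_lit 524))],[(k1,(nat_lit 452)),(k8,(nat_lit 464)),(k10,(nat_lit 473)),
    (k0,(nat_lit 476)),(k2,(nat_lit 479)),(k3,(nat_lit 479)),(k11,(nat_lit 485)),(k5,(nat_lit 494)),(k4,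
    (nat_lit 506)),(k9,(nat_lit 506)),(k6,(nat_lit 512)),(k7,(nat_lit 512))],[(k0,(nat_lit 482)),(k2,(nat_lit 485)),
    (k3,(nat_lit 485)),(k1,(nat_lit 494)),(k5,(nat_lit 500)),(k8,(nat_lit 500)),(k4,(nat_lit 512)),(k9,(nat_lit 512)),
    (k10,(nat_lit 515)),(k6,(nat_lit 518)),(k7,(nat_lit 518)),(k11,(nat_lit 521))],[(k11,(nat_lit 479)),(k10,
    (nat_lit 485)),(k0,(nat_lit 494)),(k2,(nat_lit 497)),(k3,(nat_lit 497)),(k1,(nat_lit 506)),(k4,(nat_lit 512)),(k5,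
    (nat_lit 512)),(k8,(nat_lit 512)),(k9,(nat_lit 512)),(k6,(nat_lit 518)),(k7,(nat_lit 518))],[(k10,(nat_lit 461)),
    (k0,(nat_lit 464)),(k2,(nat_lit 467)),(k3,(nat_lit 467)),(k11,(nat_lit 473)),(k1,(nat_lit 482)),(k5,
    (nat_lit 482)),(k4,(nat_lit 506)),(k8,(nat_lit 506)),(k9,(nat_lit 506)),(k6,(nat_lit 512)),(k7,(nat_lit 512))],
    [(k4,(nat_lit 464)),(k2,(nat_lit 467)),(k3,(nat_lit 467)),(k10,(nat_lit 473)),(k11,(nat_lit 473)),(k1,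
    (nat_lit 482)),(k7,(nat_lit 500)),(k0,(nat_lit 506)),(k8,(nat_lit 506)),(k9,(nat_lit 506)),(k6,(nat_lit 512)),(k5,
    (nat_lit 524))],[(k2,(nat_lit 416)),(k3,(nat_lit 416)),(k11,(nat_lit 440)),(k10,(nat_lit 446)),(k0,(nat_lit 455)),
    (k1,(nat_lit 455)),(k5,(nat_lit 473)),(k8,(nat_lit 473)),(k9,(nat_lit 473)),(k6,(nat_lit 479)),(k4,(nat_lit 485)),
    (k7,(nat_lit 521))],[(k2,(nat_lit 410)),(k3,(nat_lit 410)),(k10,(nat_lit 440)),(k0,(nat_lit 443)),(k11,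
    (nat_lit 446)),(k1,(nat_lit 455)),(k5,(nat_lit 461)),(k9,(nat_lit 461)),(k4,(nat_lit 473)),(k8,(nat_lit 473)),(k6,
    (nat_lit 485)),(k7,(nat_lit 515))]]
    [[k2,k1,k0,k0,k0,k0],[k2,k0,k0,k0,k0,k1],[k1,k2,k0,k0,k0,k0],[k1,k1,k1,k0,k0,k0],[k1,k1,k0,k0,k1,k0],[k1,k1,k0,k0,
    k0,k1],[k1,k0,k1,k0,k0,k1],[k1,k0,k0,k1,k0,k1],[k1,k0,k0,k0,k1,k1],[k1,k0,k0,k0,k0,k2],[k0,k3,k0,k0,k0,k0],[k0,k2,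
    k1,k0,k0,k0],[k0,k2,k0,k1,k0,k0],[k0,k2,k0,k0,k1,k0],[k0,k2,k0,k0,k0,k1],[k0,k1,k1,k0,k1,k0],[k0,k1,k1,k0,k0,k1],
    [k0,k1,k0,k1,k0,k1],[k0,k1,k0,k0,k1,k1],[k0,k1,k0,k0,k0,k2],[k0,k0,k1,k0,k1,k1],[k0,k0,k1,k0,k0,k2],[k0,k0,k0,k0,
    k1,k2],[k0,k0,k0,k0,k0,k3]]
    [.ref k25 k0 [(z7,[z4,z13,y4]),(z7,[z13,y26,z8]),(z7,[y8,z16,z8,z21]),(z7,[y2,z4,z2,z0,z21]),(z7,[y8,y5,y13,y21,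
    y21,z21])],.ref k25 k0 [(z3,[z4,z1]),(z3,[z13,y26,z9]),(z3,[y8,z16,z0,z9]),(z3,[y2,z4,z0,z0,z9]),(z3,[y8,z7,y9,y9,
    y9,z9])],.ref k25 k0 [(z5,[z2,z13,y4]),(z10,[z13,y13,z4]),(z5,[y4,z4,z8,z15]),(z5,[y1,z1,z2,z0,z15]),(z5,[y4,y11,
    y7,y15,y15,z15])],.ref k25 k0 [(z3,[z4,z5,y4,y4]),(z3,[z13,y13,y4,y13]),(z3,[y8,z8,z8,z17]),(z3,[y2,z2,z2,z2,z9]),
    (z3,[y8,y1,y1,y1,y9,z9])],.ref k25 k0 [(z3,[z4,z9,z0,z4,z4,y4]),(z3,[z13,z0,z9,z13,z13,y13]),(z3,[y8,z0,z0,z1,y8,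
    z8]),(z3,[y2,z0,z0,y2,z7,z2]),(z3,[y8,y9,y9,y17,y17,z17])],.ref k25 k0 [(z3,[z2,z7,y2]),(z6,[z13,y13,z5]),(z3,[y4,
    z4,z4,z9]),(z3,[y1,z1,z1,z0,z9]),(z3,[y4,y5,y5,y9,y9,z9])],.ref k25 k0 [(z1,[y4,z7,z0,z4]),(z1,[y13,z13,z3,z13]),
    (z1,[z8,y8,z0,y5]),(z1,[z2,y2,z0,y2,z3]),(z1,[z8,y11,y3,y11,y3,z3])],.ref k25 k0 [(z1,[z4,y1,z0,z0,y4]),(z1,[z13,
    y13,z3,z0,y13]),(z1,[y8,z8,z0,z3,z8]),(z1,[y2,z2,z0,z0,z5]),(z1,[y8,z5,y3,y3,z5,z3])],.ref k25 k0 [(z1,[y4,z3,y4,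
    y4,y4,z4]),(z1,[y13,z0,y10,y13,y13,z13]),(z1,[z8,z0,z8,z11,z8,y8]),(z1,[z2,z0,z2,z2,z5,y2]),(z1,[z8,y3,z5,z5,z5,
    y5])],.ref k25 k0 [(z1,[z2,z1]),(z2,[z13,y13,z6]),(z1,[y4,z4,z0,z3]),(z1,[y1,z1,z0,z0,z3]),(z1,[y4,z1,y3,y3,y3,
    z3])],.ref k25 k0 [(z13,[z4,z39,y12]),(z1,[z1]),(z13,[y8,z0,z24,z39]),(z13,[y2,z0,z6,z0,z39]),(z13,[y8,y39,y15,
    y39,y39,z39])],.ref k25 k0 [(z3,[z2,z9,y4,y2]),(z6,[z13,z0,y8,y13]),(z3,[y4,z0,z8,z13]),(z3,[y1,z0,z2,z1,z9]),(z3,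
    [y4,y9,y1,y5,y9,z9])],.ref k25 k0 [(z2,[z1,z6,y2,z0,y1]),(z8,[z13,z0,y2,z0,y13]),(z1,[y1,z0,z2,z3,z1]),(z4,[y1,z0,
    z2,z0,z13]),(z1,[y1,y3,y1,y3,y2,z3])],.ref k25 k0 [(z3,[z2,z11,y2,z2,z2,y2]),(z6,[z13,z13,z5,z13,z13,y13]),(z3,
    [y4,y4,z4,z5,y4,z4]),(z3,[y1,y1,z1,y1,z8,z1]),(z3,[y4,y13,y5,y13,y13,z13])],.ref k25 k0 [(z9,[z4,z27,y8]),(z9,
    [z13,z0,z1]),(z9,[y8,z0,z16,z27]),(z9,[y2,z0,z4,z0,z27]),(z9,[y8,y27,y11,y27,y27,z27])],.ref k25 k0 [(z1,[y4,y1,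
    z0,z0,y4,z4]),(z1,[y13,y13,z3,z0,y13,z13]),(z1,[z8,z8,z0,z3,z8,y8]),(z1,[z2,z2,z0,z0,z5,y2]),(z1,[z8,z5,y3,y3,z5,
    y5])],.ref k25 k0 [(z1,[z2,z3,y2,y2]),(z2,[z13,z0,y7,y13]),(z1,[y4,z0,z4,z7]),(z1,[y1,z0,z1,z1,z3]),(z1,[y4,y3,z1,
    z1,y3,z3])],.ref k25 k0 [(z1,[z1,z3,y1,z0,y1]),(z4,[z13,z0,y1,z0,y13]),(z1,[y2,z0,z2,z3,z2]),(z2,[y1,z0,z1,z0,
    z7]),(z1,[y2,y3,y1,y3,y1,z3])],.ref k25 k0 [(z1,[z2,z5,z0,z2,z2,y2]),(z2,[z13,z13,z6,z13,z13,y13]),(z1,[y4,y4,z0,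
    y1,y4,z4]),(z1,[y1,y1,z0,y1,z2,z1]),(z1,[y4,y7,y3,y7,y7,z7])],.ref k25 k0 [(z5,[z4,z15,y4]),(z5,[z13,z0,z2]),(z5,
    [y8,z0,z8,z15]),(z5,[y2,z0,z2,z0,z15]),(z5,[y8,y15,y7,y15,y15,z15])],.ref k25 k0 [(z5,[y4,z11,y4,z0,y4,z4]),(z5,
    [y13,y13,z2,z0,y13,z13]),(z5,[z8,z8,z8,z15,z8,y8]),(z5,[z2,z2,z2,z0,z17,y2]),(z5,[z8,y7,y7,y15,y7,z7])],
    .ref k25 k0 [(z1,[y2,z3,z0,z2]),(z2,[y13,z0,z6,z13]),(z1,[z4,z0,z0,y1]),(z1,[z1,z0,z0,y1,z3]),(z1,[z4,y3,y3,y7,y3,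
    z3])],.ref k25 k0 [(z1,[y2,z1,y2,y2,y2,z2]),(z2,[y13,y13,y7,y13,y13,z13]),(z1,[z4,z4,z4,z7,z4,y4]),(z1,[z1,z1,z1,
    z1,z4,y1]),(z1,[z4,z1,z1,z1,z1,y1])],.ref k25 k0 [(z1,[z4,z3]),(z1,[z13,z0,z3]),(z1,[y8,z0,z0,z3]),(z1,[y2,z0,z0,
    z0,z3]),(z1,[y8,y3,y3,y3,y3,z3])]],
    .lp k0 [(nat_lit 330),(nat_lit 306),(nat_lit 362),(nat_lit 282),(nat_lit 320),(nat_lit 316)] [k16,k16,k28,k28,k0,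
    k0,k40,k40,k21,k21,k23,k23] k0 [[k0,k0,k14,k10,k0,k10,k10,k8,k0,k0,k0,k0],[k32,k0,k0,k0,k0,k0,k0,k0,k0,k0,k14,
    k40],[k0,k10,k0,k0,k0,k10,k10,k0,k0,k0,k24,k0],[k0,k14,k60,k0,k0,k0,k0,k0,k0,k0,k0,k0],[k0,k10,k0,k10,k0,k0,k0,k0,
    k0,k0,k0,k0],[k0,k0,k0,k0,k0,k0,k14,k0,k0,k0,k14,k0],[k0,k8,k0,k0,k0,k0,k0,k28,k24,k4,k0,k0],[k0,k10,k0,k10,k14,
    k0,k0,k0,k0,k0,k0,k0],[k0,k0,k0,k0,k0,k0,k0,k4,k0,k0,k0,k24],[k0,k0,k0,k0,k0,k0,k0,k24,k16,k0,k0,k0],[k40,k0,k0,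
    k0,k0,k0,k0,k0,k0,k24,k0,k26],[k14,k0,k0,k24,k14,k0,k0,k0,k0,k0,k0,k0]] (nat_lit 960) k5
    [[(k7,(nat_lit 292)),(k2,(nat_lit 294)),(k3,(nat_lit 304)),(k6,(nat_lit 306)),(k10,(nat_lit 323)),(k8,
    (nat_lit 325)),(k9,(nat_lit 325)),(k4,(nat_lit 346)),(k5,(nat_lit 346)),(k11,(nat_lit 347)),(k1,(nat_lit 356)),
    (k0,(nat_lit 370))],[(k6,(nat_lit 298)),(k7,(nat_lit 306)),(k2,(nat_lit 308)),(k9,(nat_lit 315)),(k3,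
    (nat_lit 318)),(k11,(nat_lit 323)),(k8,(nat_lit 325)),(k5,(nat_lit 332)),(k4,(nat_lit 336)),(k10,(nat_lit 337)),
    (k0,(nat_lit 362)),(k1,(nat_lit 370))],[(k10,(nat_lit 271)),(k3,(nat_lit 274)),(k1,(nat_lit 304)),(k6,
    (nat_lit 304)),(k7,(nat_lit 304)),(k11,(nat_lit 311)),(k8,(nat_lit 313)),(k0,(nat_lit 318)),(k2,(nat_lit 320)),
    (k9,(nat_lit 321)),(k4,(nat_lit 334)),(k5,(nat_lit 344))],[(k1,(nat_lit 294)),(k6,(nat_lit 294)),(k7,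
    (nat_lit 294)),(k9,(nat_lit 303)),(k0,(nat_lit 308)),(k10,(nat_lit 311)),(k11,(nat_lit 311)),(k8,(nat_lit 313)),
    (k3,(nat_lit 320)),(k4,(nat_lit 324)),(k5,(nat_lit 334)),(k2,(nat_lit 366))],[(k5,(nat_lit 302)),(k0,
    (nat_lit 332)),(k6,(nat_lit 332)),(k7,(nat_lit 332)),(k2,(nat_lit 334)),(k11,(nat_lit 339)),(k8,(nat_lit 341)),
    (k9,(nat_lit 341)),(k3,(nat_lit 344)),(k1,(nat_lit 346)),(k4,(nat_lit 362)),(k10,(nat_lit 363))],[(k7,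
    (nat_lit 322)),(k2,(nat_lit 324)),(k3,(nat_lit 334)),(k0,(nat_lit 336)),(k6,(nat_lit 336)),(k11,(nat_lit 339)),
    (k8,(nat_lit 341)),(k9,(nat_lit 341)),(k1,(nat_lit 346)),(k10,(nat_lit 353)),(k4,(nat_lit 362)),(k5,
    (nat_lit 362))],[(k6,(nat_lit 282)),(k7,(nat_lit 282)),(k9,(nat_lit 287)),(k1,(nat_lit 292)),(k2,(nat_lit 294)),
    (k10,(nat_lit 299)),(k11,(nat_lit 299)),(k8,(nat_lit 301)),(k3,(nat_lit 304)),(k0,(nat_lit 306)),(k4,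
    (nat_lit 322)),(k5,(nat_lit 332))],[(k6,(nat_lit 254)),(k11,(nat_lit 275)),(k7,(nat_lit 282)),(k2,(nat_lit 294)),
    (k8,(nat_lit 297)),(k0,(nat_lit 298)),(k10,(nat_lit 299)),(k9,(nat_lit 301)),(k3,(nat_lit 304)),(k1,
    (nat_lit 306)),(k5,(nat_lit 332)),(k4,(nat_lit 336))],[(k7,(nat_lit 287)),(k6,(nat_lit 301)),(k2,(nat_lit 303)),
    (k0,(nat_lit 315)),(k10,(nat_lit 318)),(k3,(nat_lit 321)),(k11,(nat_lit 322)),(k1,(nat_lit 325)),(k4,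
    (nat_lit 341)),(k5,(nat_lit 341)),(k8,(nat_lit 344)),(k9,(nat_lit 348))],[(k10,(nat_lit 294)),(k6,(nat_lit 297)),
    (k7,(nat_lit 301)),(k2,(nat_lit 313)),(k3,(nat_lit 313)),(k11,(nat_lit 318)),(k0,(nat_lit 325)),(k1,
    (nat_lit 325)),(k8,(nat_lit 336)),(k4,(nat_lit 341)),(k5,(nat_lit 341)),(k9,(nat_lit 344))],[(k6,(nat_lit 275)),
    (k7,(nat_lit 299)),(k11,(nat_lit 300)),(k2,(nat_lit 311)),(k3,(nat_lit 311)),(k10,(nat_lit 316)),(k8,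
    (nat_lit 318)),(k9,(nat_lit 322)),(k0,(nat_lit 323)),(k4,(nat_lit 339)),(k5,(nat_lit 339)),(k1,(nat_lit 347))],
    [(k3,(nat_lit 271)),(k10,(nat_lit 290)),(k8,(nat_lit 294)),(k6,(nat_lit 299)),(k7,(nat_lit 299)),(k2,
    (nat_lit 311)),(k11,(nat_lit 316)),(k9,(nat_lit 318)),(k1,(nat_lit 323)),(k0,(nat_lit 337)),(k4,(nat_lit 353)),
    (k5,(nat_lit 363))]]
    [[k1,k2,k0,k0,k0,k0],[k1,k1,k0,k1,k0,k0],[k1,k1,k0,k0,k1,k0],[k1,k1,k0,k0,k0,k1],[k1,k0,k0,k2,k0,k0],[k1,k0,k0,k1,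
    k1,k0],[k1,k0,k0,k1,k0,k1],[k1,k0,k0,k0,k1,k1],[k0,k2,k0,k1,k0,k0],[k0,k2,k0,k0,k1,k0],[k0,k2,k0,k0,k0,k1],[k0,k2,
    k1,k0,k0,k0],[k0,k1,k0,k2,k0,k0],[k0,k1,k0,k1,k1,k0],[k0,k1,k0,k1,k0,k1],[k0,k1,k0,k0,k1,k1],[k0,k1,k1,k0,k0,k1],
    [k0,k1,k0,k0,k0,k2],[k0,k0,k1,k2,k0,k0],[k0,k0,k0,k3,k0,k0],[k0,k0,k0,k2,k1,k0],[k0,k0,k0,k2,k0,k1],[k0,k0,k0,k1,
    k2,k0],[k0,k0,k0,k1,k1,k1],[k0,k0,k0,k1,k0,k2],[k0,k0,k0,k0,k1,k2],[k0,k0,k0,k0,k0,k3]]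
    [.ref (nat_lit 454) k0 [(z1,[z0,z1]),(z2,[z1,y1]),(z1,[z0,z0,z0,z1]),(z2,[y1,z1,z2])],.ref k97 k5 [(z1,[y4,z1,z1,
    y3,z3]),(z1,[y1,z1,z1]),(z1,[y4,z7,z4]),(z1,[z7,y7,y4])],.ref k113 k5 [(z1,[z4,y1,y1,z3,y3]),(z1,[z1,z0,z0,z1,
    y1]),(z1,[z4,z1,z0,z4,y4]),(z1,[y7,z0,z1,y7,z7])],.ref (nat_lit 454) k4 [(z1,[z0,y1,y1,y1,z1]),(z1,[y1,z1,z1]),
    (z1,[z0,z0,z0,z1]),(z1,[z1,y1])],.ref (nat_lit 454) k4 [(z1,[z0,y1,y1,y1,z1]),(z2,[z1,y1]),(z1,[z0,z0,z0,z1]),(z2,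
    [y1,z1,z2])],.ref k113 k11 [(z1,[z4,z1,z0,z4,y4]),(z1,[z1,z0,z0,z1,y1]),(z1,[z4,y1,y1,z3,y3]),(z1,[y7,z0,z1,y7,
    z7])],.ref (nat_lit 454) k0 [(z1,[z0,z1]),(z1,[y1,z1,z1]),(z1,[z0,z0,z0,z1]),(z1,[z1,y1])],.ref k97 k5 [(z3,[z4,
    y9,y5,y5,z5]),(z3,[z1,z0,z1,z1,y1]),(z3,[z4,z9,z4,z4,y4]),(z3,[y7,z0,z2,y7,z7])],.ref (nat_lit 552) k3 [(z1,[y1,
    z0,z2,y7]),(z1,[z0,y1,y1,z1,z1]),(z1,[z0,z0,z0,z1]),(z1,[z0,z1,z0,z2])],.ref (nat_lit 454) k0 [(z1,[z0,z1]),(z2,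
    [z1,z1,z1,z1,y1]),(z1,[z0,z0,z0,z1]),(z2,[y1,y1,z1,y1,z1])],.ref (nat_lit 553) k8 [(z1,[y2,z0,z0,z1]),(z1,[y7,z0,
    z1]),(z1,[z4,y1,y1,y1,z1]),(z1,[z1])],.ref k113 k11 [(z1,[y2,z1,z0,z2]),(z2,[y1,z0,z0,z1]),(z1,[y2,y1,y1,z1,z1]),
    (z2,[z7,z0,z2,y7])],.ref (nat_lit 552) k10 [(z1,[y1,z0,z2,y7]),(z1,[z0,z1,z0,z2]),(z1,[z0,z0,z0,z1]),(z1,[z0,y1,
    y1,z1,z1])],.ref k97 k5 [(z1,[y4,y7,y3,y7,z7]),(z1,[y1,y1,z0,y1,z1]),(z1,[y4,y1,z0,y4,z4]),(z1,[z7,z7,z3,z7,y7])],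
    .ref k97 k5 [(z1,[y2,y3,y1,y3,z3]),(z2,[y1,z0,z1]),(z1,[y2,z3,z2]),(z2,[z7,z0,y1])],.ref (nat_lit 454) k4 [(z1,
    [z0,y1,y1,y1,z1]),(z1,[y1,y1,z0,y1,z1]),(z1,[z0,z0,z0,z1]),(z1,[z1,z1,z1,z1,y1])],.ref k113 k11 [(z1,[y4,z1,z0,
    z4]),(z1,[y1,z0,z0,z1]),(z1,[y4,y1,y1,z3,z1]),(z1,[z7,z0,z1,y7])],.ref (nat_lit 454) k0 [(z1,[z0,z1]),(z1,[z1]),
    (z1,[z0,z0,z0,z1]),(z1,[y1,z0,z1])],.ref k113 k5 [(z1,[y2,y1,y1,z1,z1]),(z2,[y1,z0,z0,z1]),(z1,[y2,z1,z0,z2]),(z2,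
    [z7,z0,z2,y7])],.ref (nat_lit 241) k4 [(z1,[z0,y1,y1,y1,z1]),(z1,[z1]),(z1,[z0,z0,z0,z1]),(z1,[y1,z0,z3])],
    .ref (nat_lit 454) k4 [(z1,[z0,y1,y1,y1,z1]),(z2,[z1,z1,z1,z1,y1]),(z1,[z0,z0,z0,z1]),(z2,[y1,y1,z1,y1,z1])],
    .ref (nat_lit 553) k1 [(z1,[y2,z0,z0,z1]),(z1,[y7,z0,z1]),(z1,[z4,z1]),(z1,[z1])],.ref k113 k11 [(z1,[z4,z9,z4,z8,
    y8]),(z1,[z1,z2,z1,z2,y2]),(z1,[z4,z7,z3,z7,y7]),(z1,[y7,y14,y6,y14,z14])],.ref (nat_lit 454) k0 [(z1,[z0,z1]),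
    (z1,[y1,y1,z0,y1,z1]),(z1,[z0,z0,z0,z1]),(z1,[z1,z1,z1,z1,y1])],.ref (nat_lit 454) k4 [(z1,[z0,y1,y1,y1,z1]),(z1,
    [z1]),(z1,[z0,z0,z0,z1]),(z1,[y1,z0,z1])],.ref k97 k5 [(z1,[z2,y1,y1,y1,z1]),(z2,[z1,z1,z1,z1,y1]),(z1,[z2,z5,z2,
    z2,y2]),(z2,[y7,y7,y1,y7,z7])],.ref k97 k5 [(z1,[z4,y3,y3,y3,z3]),(z1,[z1]),(z1,[z4,z3]),(z1,[y7,z0,z3])]],
    .lp k0 [(nat_lit 980),(nat_lit 968),(nat_lit 980),(nat_lit 1004),(nat_lit 1002),(nat_lit 820)] [k12,k12,k18,k18,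
    k12,k12,k0,k0,k1,k1,k92,k92] k0 [[k0,k0,k72,k0,k84,k0,k0,k0,k38,(nat_lit 214),k0,k162],[k12,k0,k0,k0,k12,k0,k0,
    k132,k0,k0,k0,k174],[k0,k0,k0,k0,k0,k48,k0,k0,k0,k130,(nat_lit 222),k60],[k0,k72,k84,k0,k0,k0,k0,k84,k0,
    (nat_lit 226),k0,k0],[k0,k0,k0,k48,k0,k48,k102,k0,k0,k64,k0,k0],[k12,k84,k0,k0,k0,k0,k0,k0,k0,k130,k78,k12],[k132,
    k0,k84,k0,k0,k0,k0,k0,k38,k0,k18,k0],[k0,k0,k0,k0,k0,k102,k0,k0,k2,k0,k42,k0],[k0,(nat_lit 214),(nat_lit 226),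
    k130,k130,k64,k0,k0,k0,k0,k52,k0],[k0,k38,k0,k0,k0,k0,k2,k38,k40,k0,k56,k0],[k174,k162,k0,k60,k12,k0,k0,k0,k0,k0,
    k0,k0],[k0,k0,k0,(nat_lit 222),k78,k0,k42,k18,k56,k52,k0,k0]] (nat_lit 2880) k5
    [[(k2,(nat_lit 752)),(k11,(nat_lit 844)),(k10,(nat_lit 900)),(k7,(nat_lit 914)),(k8,(nat_lit 939)),(k9,
    (nat_lit 949)),(k6,(nat_lit 974)),(k1,(nat_lit 980)),(k4,(nat_lit 992)),(k5,(nat_lit 1040)),(k3,(nat_lit 1136)),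
    (k0,(nat_lit 1154))],[(k10,(nat_lit 738)),(k8,(nat_lit 777)),(k11,(nat_lit 862)),(k5,(nat_lit 908)),(k7,
    (nat_lit 908)),(k2,(nat_lit 974)),(k3,(nat_lit 974)),(k0,(nat_lit 992)),(k4,(nat_lit 992)),(k6,(nat_lit 992)),(k9,
    (nat_lit 1123)),(k1,(nat_lit 1154))],[(k10,(nat_lit 720)),(k6,(nat_lit 854)),(k3,(nat_lit 956)),(k0,
    (nat_lit 974)),(k5,(nat_lit 974)),(k7,(nat_lit 974)),(k9,(nat_lit 985)),(k8,(nat_lit 1023)),(k2,(nat_lit 1040)),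
    (k4,(nat_lit 1058)),(k11,(nat_lit 1108)),(k1,(nat_lit 1136))],[(k1,(nat_lit 752)),(k10,(nat_lit 834)),(k8,
    (nat_lit 855)),(k4,(nat_lit 926)),(k0,(nat_lit 974)),(k5,(nat_lit 974)),(k6,(nat_lit 986)),(k7,(nat_lit 986)),(k3,
    (nat_lit 1040)),(k2,(nat_lit 1052)),(k9,(nat_lit 1069)),(k11,(nat_lit 1120))],[(k8,(nat_lit 765)),(k5,
    (nat_lit 896)),(k0,(nat_lit 908)),(k6,(nat_lit 908)),(k2,(nat_lit 974)),(k3,(nat_lit 974)),(k4,(nat_lit 980)),(k9,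
    (nat_lit 991)),(k11,(nat_lit 1030)),(k1,(nat_lit 1040)),(k7,(nat_lit 1040)),(k10,(nat_lit 1122))],[(k9,
    (nat_lit 889)),(k2,(nat_lit 926)),(k8,(nat_lit 927)),(k4,(nat_lit 932)),(k10,(nat_lit 978)),(k5,(nat_lit 980)),
    (k0,(nat_lit 992)),(k1,(nat_lit 992)),(k6,(nat_lit 992)),(k7,(nat_lit 992)),(k11,(nat_lit 1030)),(k3,
    (nat_lit 1058))],[(k8,(nat_lit 873)),(k10,(nat_lit 900)),(k0,(nat_lit 908)),(k1,(nat_lit 914)),(k3,(nat_lit 974)),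
    (k11,(nat_lit 976)),(k2,(nat_lit 986)),(k4,(nat_lit 992)),(k9,(nat_lit 1003)),(k5,(nat_lit 1040)),(k7,
    (nat_lit 1052)),(k6,(nat_lit 1106))],[(k3,(nat_lit 854)),(k11,(nat_lit 874)),(k5,(nat_lit 908)),(k10,
    (nat_lit 954)),(k1,(nat_lit 974)),(k2,(nat_lit 986)),(k0,(nat_lit 992)),(k4,(nat_lit 992)),(k9,(nat_lit 1003)),
    (k6,(nat_lit 1004)),(k8,(nat_lit 1005)),(k7,(nat_lit 1106))],[(k4,(nat_lit 889)),(k11,(nat_lit 909)),(k10,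
    (nat_lit 929)),(k1,(nat_lit 949)),(k3,(nat_lit 985)),(k5,(nat_lit 991)),(k9,(nat_lit 1002)),(k6,(nat_lit 1003)),
    (k7,(nat_lit 1003)),(k8,(nat_lit 1040)),(k2,(nat_lit 1069)),(k0,(nat_lit 1123))],[(k5,(nat_lit 765)),(k0,
    (nat_lit 777)),(k2,(nat_lit 855)),(k7,(nat_lit 873)),(k11,(nat_lit 911)),(k4,(nat_lit 927)),(k1,(nat_lit 939)),
    (k10,(nat_lit 967)),(k6,(nat_lit 1005)),(k3,(nat_lit 1023)),(k9,(nat_lit 1040)),(k8,(nat_lit 1042))],[(k11,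
    (nat_lit 780)),(k1,(nat_lit 844)),(k0,(nat_lit 862)),(k10,(nat_lit 872)),(k6,(nat_lit 874)),(k9,(nat_lit 909)),
    (k8,(nat_lit 911)),(k7,(nat_lit 976)),(k4,(nat_lit 1030)),(k5,(nat_lit 1030)),(k3,(nat_lit 1108)),(k2,
    (nat_lit 1120))],[(k3,(nat_lit 720)),(k0,(nat_lit 738)),(k10,(nat_lit 820)),(k2,(nat_lit 834)),(k11,
    (nat_lit 872)),(k1,(nat_lit 900)),(k7,(nat_lit 900)),(k9,(nat_lit 929)),(k6,(nat_lit 954)),(k8,(nat_lit 967)),(k4,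
    (nat_lit 978)),(k5,(nat_lit 1122))]]
    [[k2,k0,k0,k0,k0,k1],[k1,k2,k0,k0,k0,k0],[k1,k1,k1,k0,k0,k0],[k1,k1,k0,k1,k0,k0],[k1,k1,k0,k0,k1,k0],[k1,k1,k0,k0,
    k0,k1],[k1,k0,k1,k1,k0,k0],[k1,k0,k1,k0,k1,k0],[k1,k0,k1,k0,k0,k1],[k1,k0,k0,k1,k1,k0],[k1,k0,k0,k1,k0,k1],[k1,k0,
    k0,k2,k0,k0],[k1,k0,k0,k0,k2,k0],[k1,k0,k0,k0,k1,k1],[k1,k0,k0,k0,k0,k2],[k0,k2,k1,k0,k0,k0],[k0,k1,k1,k0,k1,k0],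
    [k0,k1,k1,k0,k0,k1],[k0,k1,k1,k1,k0,k0],[k0,k1,k0,k1,k1,k0],[k0,k1,k0,k1,k0,k1],[k0,k1,k0,k0,k1,k1],[k0,k1,k0,k0,
    k0,k2],[k0,k0,k3,k0,k0,k0],[k0,k0,k2,k0,k1,k0],[k0,k0,k1,k1,k1,k0],[k0,k0,k1,k1,k0,k1],[k0,k0,k1,k0,k2,k0],[k0,k0,
    k1,k0,k1,k1],[k0,k0,k0,k1,k1,k1],[k0,k0,k0,k1,k0,k2],[k0,k0,k0,k0,k1,k2],[k0,k0,k0,k0,k0,k3]]
    [.ref k43 k6 [(z3,[z1,y2]),(z3,[z4,z1]),(z3,[y1,z2,z3])],.ref (nat_lit 547) k1 [(z1,[z1,y2,y3,z1]),(z2,[z3,y3,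
    y4]),(z1,[y2,z3,z4])],.ref (nat_lit 547) k1 [(z1,[z2,y1,y1,y1]),(z1,[z3,z0,z1,y3]),(z1,[y4,z1,z0,z4])],
    .ref (nat_lit 548) k0 [(z1,[z0,z1]),(z1,[z1,y1]),(z1,[z0,y1,y1,z1])],.ref k47 k6 [(z1,[z1,y1,y1]),(z1,[z4,y3,y4]),
    (z1,[y3,z3,z4])],.ref (nat_lit 549) k2 [(z1,[y1,z1,z1]),(z1,[z0,y1,y1,z1]),(z1,[z1,y1])],
    .ref (nat_lit 446) k0 [(z1,[z0,z1]),(z1,[y1,z0,z0,z1]),(z1,[z0,y1,y1,z1])],.ref k109 k1 [(z1,[y1,y1,y2,z2]),(z1,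
    [y3,z0,y1,z3]),(z1,[z2,z1,z2,y2])],.ref k43 k6 [(z1,[z1,z0,z1,y1]),(z1,[z4,z3,z4,y4]),(z1,[y1,z0,z0,z1])],
    .ref k132 k5 [(z1,[z1,z1,z2,y2]),(z1,[z0,y1,y1,z1]),(z1,[z0,y1,y2,z2])],.ref (nat_lit 550) k0 [(z1,[z0,z1]),(z1,
    [y1,z1,z1]),(z1,[z0,y1,y1,z1])],.ref (nat_lit 446) k0 [(z1,[z0,z1]),(z2,[y1,z1,z2]),(z1,[z0,y1,y1,z1])],
    .ref k109 k1 [(z2,[y1,y1,y2,z2]),(z2,[y3,z3,z4]),(z1,[z1])],.ref (nat_lit 551) k5 [(z1,[z2,z3,z5,y5]),(z1,[z0,y1,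
    y1,z1]),(z1,[z0,y1,y2,z2])],.ref k43 k6 [(z2,[z1,y1]),(z1,[z2,z1]),(z2,[y1,z1,z2])],.ref k132 k5 [(z2,[y1,z3,z5,
    y3]),(z1,[z0,y1,y1,z1]),(z1,[z0,y1,y2,z2])],.ref (nat_lit 550) k0 [(z1,[z0,z1]),(z1,[z1,z1,z1,y1]),(z1,[z0,y1,y1,
    z1])],.ref k132 k5 [(z1,[y1,z1,z2,y1]),(z1,[z0,y1,y1,z1]),(z1,[z0,y1,y2,z2])],.ref (nat_lit 551) k5 [(z1,[y2,z3,
    z5,y3]),(z1,[z0,y1,y1,z1]),(z1,[z0,y1,y2,z2])],.ref k43 k6 [(z1,[y1,z0,z1]),(z1,[y4,z3,z4]),(z1,[z1])],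
    .ref k109 k1 [(z1,[z1,y1,y2,z1]),(z1,[z3,z0,y1]),(z1,[y2,z1,z2])],.ref (nat_lit 446) k0 [(z1,[z0,z1]),(z1,[z1]),
    (z1,[z0,y1,y1,z1])],.ref (nat_lit 547) k1 [(z1,[z2,y1,y3,z1]),(z1,[z3,z0,y2]),(z1,[y4,z1,z4])],.ref k43 k6 [(z2,
    [y1,y3,y3,z3]),(z1,[y2,y3,y6,z6]),(z2,[z1,z3,z5,y3])],.ref (nat_lit 554) k0 [(z1,[z0,z1]),(z1,[y1,y2,y1,z2]),(z1,
    [z0,y1,y1,z1])],.ref (nat_lit 549) k2 [(z1,[z1,z1,z1,y1]),(z1,[z0,y1,y1,z1]),(z1,[y1,y1,z0,z1])],.ref k47 k6 [(z1,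
    [y1,y1,y1,z1]),(z1,[y4,y3,y4,z4]),(z1,[z3,z3,z4,y3])],.ref (nat_lit 548) k0 [(z1,[z0,z1]),(z2,[y1,y1,z1,z1]),(z1,
    [z0,y1,y1,z1])],.ref (nat_lit 548) k0 [(z1,[z0,z1]),(z1,[y1,y1,z0,z1]),(z1,[z0,y1,y1,z1])],
    .ref (nat_lit 547) k1 [(z1,[y2,y1,y1,z1]),(z1,[y3,z0,z1]),(z1,[z4,z1])],.ref (nat_lit 446) k0 [(z1,[z0,z1]),(z1,
    [y1,z0,z1]),(z1,[z0,y1,y1,z1])],.ref k109 k1 [(z1,[y1,y1,y1,z1]),(z1,[y3,z0,z2]),(z1,[z2,z1])],.ref k43 k6 [(z1,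
    [z1]),(z1,[z4,z3]),(z1,[y1,z0,z1])]],
    .base (.leafM k1 [k0,k1,k2,k3,k4,k5] [(z1,[z0,z1]),(z1,[z0,y1,z1])] []),
    .lp k0 [(nat_lit 320),(nat_lit 276),(nat_lit 328),(nat_lit 320),(nat_lit 334),(nat_lit 338)] [k9,k9,k31,k31,k5,k5,
    k9,k9,k2,k2,k0,k0] k0 [[k0,k0,k0,k28,k0,k0,k0,k0,k0,k0,k0,k0],[k0,k0,k0,k0,k0,k0,k0,k0,k0,k0,k0,k0],[k0,k28,k0,
    k28,k28,k0,k0,k0,k0,k0,k0,k0],[k0,k0,k0,k0,k0,k0,k0,k16,k16,k8,k8,k0],[k0,k0,k0,k0,k0,k0,k8,k0,k2,k0,k0,k8],[k0,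
    k0,k0,k28,k0,k0,k8,k0,k2,k0,k0,k8],[k0,k0,k16,k0,k0,k0,k0,k0,k0,k0,k0,k0],[k0,k0,k0,k0,k8,k8,k0,k0,k0,k0,k0,k0],
    [k0,k0,k8,k0,k0,k0,k0,k0,k0,k0,k0,k0],[k0,k0,k16,k0,k2,k2,k0,k0,k0,k0,k0,k0],[k0,k0,k0,k0,k8,k8,k0,k0,k0,k0,k0,
    k0],[k0,k0,k8,k0,k0,k0,k0,k0,k0,k0,k0,k0]] (nat_lit 960) k5
    [[(k2,(nat_lit 298)),(k3,(nat_lit 298)),(k5,(nat_lit 316)),(k0,(nat_lit 320)),(k1,(nat_lit 320)),(k6,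
    (nat_lit 320)),(k8,(nat_lit 327)),(k9,(nat_lit 327)),(k7,(nat_lit 328)),(k10,(nat_lit 329)),(k11,(nat_lit 329)),
    (k4,(nat_lit 332))],[(k2,(nat_lit 270)),(k3,(nat_lit 298)),(k0,(nat_lit 320)),(k1,(nat_lit 320)),(k6,
    (nat_lit 320)),(k7,(nat_lit 320)),(k4,(nat_lit 324)),(k5,(nat_lit 324)),(k8,(nat_lit 327)),(k9,(nat_lit 327)),
    (k10,(nat_lit 329)),(k11,(nat_lit 329))],[(k2,(nat_lit 276)),(k3,(nat_lit 276)),(k0,(nat_lit 298)),(k1,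
    (nat_lit 298)),(k6,(nat_lit 298)),(k7,(nat_lit 298)),(k4,(nat_lit 302)),(k8,(nat_lit 305)),(k9,(nat_lit 305)),
    (k10,(nat_lit 307)),(k11,(nat_lit 307)),(k5,(nat_lit 330))],[(k2,(nat_lit 248)),(k0,(nat_lit 270)),(k7,
    (nat_lit 270)),(k3,(nat_lit 276)),(k1,(nat_lit 298)),(k6,(nat_lit 298)),(k4,(nat_lit 302)),(k5,(nat_lit 302)),
    (k10,(nat_lit 315)),(k11,(nat_lit 315)),(k8,(nat_lit 321)),(k9,(nat_lit 321))],[(k2,(nat_lit 302)),(k6,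
    (nat_lit 308)),(k1,(nat_lit 316)),(k11,(nat_lit 317)),(k8,(nat_lit 323)),(k0,(nat_lit 324)),(k7,(nat_lit 324)),
    (k3,(nat_lit 330)),(k9,(nat_lit 331)),(k10,(nat_lit 333)),(k4,(nat_lit 356)),(k5,(nat_lit 356))],[(k2,
    (nat_lit 302)),(k3,(nat_lit 302)),(k9,(nat_lit 323)),(k0,(nat_lit 324)),(k7,(nat_lit 324)),(k10,(nat_lit 325)),
    (k4,(nat_lit 328)),(k11,(nat_lit 331)),(k1,(nat_lit 332)),(k6,(nat_lit 332)),(k8,(nat_lit 333)),(k5,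
    (nat_lit 356))],[(k2,(nat_lit 270)),(k3,(nat_lit 298)),(k9,(nat_lit 319)),(k0,(nat_lit 320)),(k7,(nat_lit 320)),
    (k10,(nat_lit 321)),(k4,(nat_lit 324)),(k5,(nat_lit 324)),(k11,(nat_lit 327)),(k1,(nat_lit 328)),(k6,
    (nat_lit 328)),(k8,(nat_lit 329))],[(k2,(nat_lit 298)),(k3,(nat_lit 298)),(k5,(nat_lit 308)),(k0,(nat_lit 320)),
    (k1,(nat_lit 320)),(k6,(nat_lit 320)),(k8,(nat_lit 327)),(k9,(nat_lit 327)),(k7,(nat_lit 328)),(k10,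
    (nat_lit 329)),(k11,(nat_lit 329)),(k4,(nat_lit 332))],[(k3,(nat_lit 305)),(k7,(nat_lit 319)),(k2,(nat_lit 321)),
    (k4,(nat_lit 323)),(k0,(nat_lit 327)),(k1,(nat_lit 327)),(k6,(nat_lit 327)),(k5,(nat_lit 331)),(k8,(nat_lit 334)),
    (k9,(nat_lit 334)),(k10,(nat_lit 336)),(k11,(nat_lit 336))],[(k3,(nat_lit 305)),(k2,(nat_lit 321)),(k5,
    (nat_lit 323)),(k0,(nat_lit 327)),(k1,(nat_lit 327)),(k6,(nat_lit 327)),(k7,(nat_lit 329)),(k4,(nat_lit 333)),(k8,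
    (nat_lit 334)),(k9,(nat_lit 334)),(k10,(nat_lit 336)),(k11,(nat_lit 336))],[(k3,(nat_lit 307)),(k2,(nat_lit 315)),
    (k5,(nat_lit 317)),(k7,(nat_lit 327)),(k0,(nat_lit 329)),(k1,(nat_lit 329)),(k6,(nat_lit 329)),(k4,(nat_lit 331)),
    (k8,(nat_lit 336)),(k9,(nat_lit 336)),(k10,(nat_lit 338)),(k11,(nat_lit 338))],[(k3,(nat_lit 307)),(k2,
    (nat_lit 315)),(k7,(nat_lit 321)),(k4,(nat_lit 325)),(k0,(nat_lit 329)),(k1,(nat_lit 329)),(k6,(nat_lit 329)),(k5,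
    (nat_lit 333)),(k8,(nat_lit 336)),(k9,(nat_lit 336)),(k10,(nat_lit 338)),(k11,(nat_lit 338))]]
    [[k2,k1,k0,k0,k0,k0],[k1,k2,k0,k0,k0,k0],[k1,k1,k1,k0,k0,k0],[k1,k1,k0,k1,k0,k0],[k1,k1,k0,k0,k1,k0],[k1,k1,k0,k0,
    k0,k1],[k0,k3,k0,k0,k0,k0],[k0,k2,k1,k0,k0,k0],[k0,k2,k0,k1,k0,k0],[k0,k2,k0,k0,k1,k0],[k0,k2,k0,k0,k0,k1],[k0,k1,
    k1,k1,k0,k0],[k0,k1,k1,k0,k1,k0],[k0,k1,k1,k0,k0,k1],[k0,k1,k0,k2,k0,k0],[k0,k1,k0,k1,k1,k0],[k0,k1,k0,k1,k0,k1],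
    [k0,k1,k0,k0,k1,k1]]
    [.ref (nat_lit 490) k10 [(z1,[z1,y1]),(z1,[z0,z1])],.ref k105 k3 [(z1,[y2,z1]),(z1,[z1,y1,z1])],
    .ref (nat_lit 491) k3 [(z1,[y2,z1]),(z1,[z1,y1,z1])],.ref (nat_lit 381) k7 [(z1,[z1,y1]),(z1,[y1,z0,z1])],
    .ref (nat_lit 492) k0 [(z1,[z0,z1]),(z1,[z2,y1])],.ref (nat_lit 493) k7 [(z1,[z1]),(z1,[y1,y1,z1])],
    .ref (nat_lit 312) k10 [(z1,[z1]),(z1,[z0,z1])],.ref (nat_lit 511) k4 [(z1,[y1,y1,z1]),(z1,[z0,z1])],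
    .ref (nat_lit 381) k7 [(z2,[z1,y1]),(z2,[y1,y1,z2])],.ref (nat_lit 536) k0 [(z1,[z0,z1]),(z1,[z1])],
    .ref (nat_lit 546) k10 [(z1,[z2,z1,y2]),(z1,[z0,z1])],.ref (nat_lit 491) k2 [(z1,[z2,z1,y2]),(z1,[y1,y1,z2])],
    .ref (nat_lit 381) k9 [(z1,[y1,y1,z1]),(z1,[z1])],.ref k2 k4 [(z1,[y1,y1,z1]),(z1,[z0,z1])],
    .ref (nat_lit 555) k7 [(z1,[z1,y2]),(z1,[y1,z1,z1])],.ref (nat_lit 492) k11 [(z1,[z0,z1]),(z1,[y2,y1,z2])],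
    .ref (nat_lit 556) k7 [(z1,[z1,y1]),(z1,[y1,z0,z1])],.ref k2 k8 [(z1,[y1,y1,z1]),(z1,[z0,z1])]],
    .base (.leafM k1 [k0,k1,k2,k3,k4,k5] [(z1,[y1,z1]),(z1,[z1])] []),
    .lp k0 [(nat_lit 320),(nat_lit 276),(nat_lit 328),(nat_lit 320),(nat_lit 334),(nat_lit 338)] [k9,k9,k31,k31,k5,k5,
    k9,k9,k2,k2,k0,k0] k0 [[k0,k0,k0,k28,k0,k0,k0,k0,k0,k0,k0,k0],[k0,k0,k0,k0,k0,k0,k0,k0,k0,k0,k0,k0],[k0,k28,k0,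
    k28,k28,k0,k0,k0,k0,k0,k0,k0],[k0,k0,k0,k0,k0,k0,k0,k16,k16,k8,k8,k0],[k0,k0,k0,k0,k0,k0,k8,k0,k2,k0,k0,k8],[k0,
    k0,k0,k28,k0,k0,k8,k0,k2,k0,k0,k8],[k0,k0,k16,k0,k0,k0,k0,k0,k0,k0,k0,k0],[k0,k0,k0,k0,k8,k8,k0,k0,k0,k0,k0,k0],
    [k0,k0,k8,k0,k0,k0,k0,k0,k0,k0,k0,k0],[k0,k0,k16,k0,k2,k2,k0,k0,k0,k0,k0,k0],[k0,k0,k0,k0,k8,k8,k0,k0,k0,k0,k0,
    k0],[k0,k0,k8,k0,k0,k0,k0,k0,k0,k0,k0,k0]] (nat_lit 960) k5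
    [[(k2,(nat_lit 298)),(k3,(nat_lit 298)),(k5,(nat_lit 316)),(k0,(nat_lit 320)),(k1,(nat_lit 320)),(k6,
    (nat_lit 320)),(k8,(nat_lit 327)),(k9,(nat_lit 327)),(k7,(nat_lit 328)),(k10,(nat_lit 329)),(k11,(nat_lit 329)),
    (k4,(nat_lit 332))],[(k2,(nat_lit 270)),(k3,(nat_lit 298)),(k0,(nat_lit 320)),(k1,(nat_lit 320)),(k6,
    (nat_lit 320)),(k7,(nat_lit 320)),(k4,(nat_lit 324)),(k5,(nat_lit 324)),(k8,(nat_lit 327)),(k9,(nat_lit 327)),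
    (k10,(nat_lit 329)),(k11,(nat_lit 329))],[(k2,(nat_lit 276)),(k3,(nat_lit 276)),(k0,(nat_lit 298)),(k1,
    (nat_lit 298)),(k6,(nat_lit 298)),(k7,(nat_lit 298)),(k4,(nat_lit 302)),(k8,(nat_lit 305)),(k9,(nat_lit 305)),
    (k10,(nat_lit 307)),(k11,(nat_lit 307)),(k5,(nat_lit 330))],[(k2,(nat_lit 248)),(k0,(nat_lit 270)),(k7,
    (nat_lit 270)),(k3,(nat_lit 276)),(k1,(nat_lit 298)),(k6,(nat_lit 298)),(k4,(nat_lit 302)),(k5,(nat_lit 302)),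
    (k10,(nat_lit 315)),(k11,(nat_lit 315)),(k8,(nat_lit 321)),(k9,(nat_lit 321))],[(k2,(nat_lit 302)),(k6,
    (nat_lit 308)),(k1,(nat_lit 316)),(k11,(nat_lit 317)),(k8,(nat_lit 323)),(k0,(nat_lit 324)),(k7,(nat_lit 324)),
    (k3,(nat_lit 330)),(k9,(nat_lit 331)),(k10,(nat_lit 333)),(k4,(nat_lit 356)),(k5,(nat_lit 356))],[(k2,
    (nat_lit 302)),(k3,(nat_lit 302)),(k9,(nat_lit 323)),(k0,(nat_lit 324)),(k7,(nat_lit 324)),(k10,(nat_lit 325)),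
    (k4,(nat_lit 328)),(k11,(nat_lit 331)),(k1,(nat_lit 332)),(k6,(nat_lit 332)),(k8,(nat_lit 333)),(k5,
    (nat_lit 356))],[(k2,(nat_lit 270)),(k3,(nat_lit 298)),(k9,(nat_lit 319)),(k0,(nat_lit 320)),(k7,(nat_lit 320)),
    (k10,(nat_lit 321)),(k4,(nat_lit 324)),(k5,(nat_lit 324)),(k11,(nat_lit 327)),(k1,(nat_lit 328)),(k6,
    (nat_lit 328)),(k8,(nat_lit 329))],[(k2,(nat_lit 298)),(k3,(nat_lit 298)),(k5,(nat_lit 308)),(k0,(nat_lit 320)),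
    (k1,(nat_lit 320)),(k6,(nat_lit 320)),(k8,(nat_lit 327)),(k9,(nat_lit 327)),(k7,(nat_lit 328)),(k10,
    (nat_lit 329)),(k11,(nat_lit 329)),(k4,(nat_lit 332))],[(k3,(nat_lit 305)),(k7,(nat_lit 319)),(k2,(nat_lit 321)),
    (k4,(nat_lit 323)),(k0,(nat_lit 327)),(k1,(nat_lit 327)),(k6,(nat_lit 327)),(k5,(nat_lit 331)),(k8,(nat_lit 334)),
    (k9,(nat_lit 334)),(k10,(nat_lit 336)),(k11,(nat_lit 336))],[(k3,(nat_lit 305)),(k2,(nat_lit 321)),(k5,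
    (nat_lit 323)),(k0,(nat_lit 327)),(k1,(nat_lit 327)),(k6,(nat_lit 327)),(k7,(nat_lit 329)),(k4,(nat_lit 333)),(k8,
    (nat_lit 334)),(k9,(nat_lit 334)),(k10,(nat_lit 336)),(k11,(nat_lit 336))],[(k3,(nat_lit 307)),(k2,(nat_lit 315)),
    (k5,(nat_lit 317)),(k7,(nat_lit 327)),(k0,(nat_lit 329)),(k1,(nat_lit 329)),(k6,(nat_lit 329)),(k4,(nat_lit 331)),
    (k8,(nat_lit 336)),(k9,(nat_lit 336)),(k10,(nat_lit 338)),(k11,(nat_lit 338))],[(k3,(nat_lit 307)),(k2,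
    (nat_lit 315)),(k7,(nat_lit 321)),(k4,(nat_lit 325)),(k0,(nat_lit 329)),(k1,(nat_lit 329)),(k6,(nat_lit 329)),(k5,
    (nat_lit 333)),(k8,(nat_lit 336)),(k9,(nat_lit 336)),(k10,(nat_lit 338)),(k11,(nat_lit 338))]]
    [[k2,k1,k0,k0,k0,k0],[k1,k2,k0,k0,k0,k0],[k1,k1,k1,k0,k0,k0],[k1,k1,k0,k1,k0,k0],[k1,k1,k0,k0,k1,k0],[k1,k1,k0,k0,
    k0,k1],[k0,k3,k0,k0,k0,k0],[k0,k2,k1,k0,k0,k0],[k0,k2,k0,k1,k0,k0],[k0,k2,k0,k0,k1,k0],[k0,k2,k0,k0,k0,k1],[k0,k1,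
    k1,k1,k0,k0],[k0,k1,k1,k0,k1,k0],[k0,k1,k1,k0,k0,k1],[k0,k1,k0,k2,k0,k0],[k0,k1,k0,k1,k1,k0],[k0,k1,k0,k1,k0,k1],
    [k0,k1,k0,k0,k1,k1]]
    [.ref k163 k0 [(z1,[z1,y1])],.ref k163 k10 [(z1,[z1,y1])],.ref k164 k6 [(z1,[y1,z1])],.ref k165 k6 [(z1,[y1,z1])],
    .ref k165 k7 [(z1,[z1])],.ref k164 k5 [(z1,[y1,z1])],.ref (nat_lit 374) k7 [(z1,[z1])],.ref k163 k7 [(z1,[z1,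
    y1])],.ref (nat_lit 488) k10 [(z1,[z1])],.ref (nat_lit 557) k7 [(z1,[z1])],.ref (nat_lit 488) k7 [(z1,[z1])],
    .ref k164 k0 [(z1,[y1,z1])],.ref k165 k0 [(z1,[y1,z1])],.ref k165 k8 [(z1,[z1])],.ref (nat_lit 488) k3 [(z1,
    [z1])],.ref k165 k5 [(z1,[z1])],.ref (nat_lit 558) k0 [(z1,[y1,z1])],.ref k165 k3 [(z1,[y1,z1])]]]

theorem hB6_171_46 : blkB [0, 0, 0, 0, 0, 0] [] sp6 hS6_171 (pcls (n := 6) [0, 0, 0, 0, 0, 0]) hD6_171 560 46 hN6_171_46 = true := by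
  decide +kernel

end Pool.Agent.Lib_MP_fa6e45
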