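import Pool.Agent.Lib_MP_fa6e45.HK

/-!
MP_fa6e45_co, stage 4: certificates (captain, generated by a program).
-/

namespace Pool.Agent.Lib_MP_fa6e45

/-- equations of the nodes for the classes `0 1 0 2 3`, active pairs `1-2` -/
noncomputable def hD5_3 : List (List (List Eqn)) :=
  [[[]]]

/-- symmetries -/
noncomputable def hS5_3 : List (Bool × ℕ × List ℕ) :=
  []

/-- nodes 0 to 0 -/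
noncomputable def hN5_3_0 : List HM :=
  [.base (.leafM k0 [k0,k3,k4] [] [(k1,k2,z1,[z1]),(k2,k1,z1,[z1])])]

theorem hB5_3_0 : blkB [0, 1, 0, 2, 3] [(1, 2)] sp5 hS5_3 (pcls (n := 5) [0, 1, 0, 2, 3]) hD5_3 1 0 hN5_3_0 = true := by
  decide +kernel

/-- equations of the nodes for the classes `0 0 1 0 1 1`, active pairs `0-2` -/
noncomputable def hD6_137 : List (List (List Eqn)) :=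
  [[[([z1,z0,z0,z0,z1,z1],z2),([z0,z1,z0,z0,z0,y1],z0)],[([z2,z0,z0,z0,z0,z1],z2),([z0,z3,z0,z0,z0,z0],z2),([z0,z0,z0,
    z2,z0,z3],z2)],[([z3,z0,z0,z0,z3,z0],z4),([z0,z3,z0,z0,z0,z0],z2),([z0,z0,z0,z3,z3,z0],z2)],[([z3,z0,z0,z0,z0,z0],
    z2),([z0,z3,z0,z0,z0,z0],z2),([z0,z0,z0,z3,z0,z3],z2)],[([z6,z0,z0,z0,z0,z3],z8),([z0,z3,z0,z0,z0,z0],z2),([z0,z0,
    z0,z6,z0,z9],z8)],[([z3,z0,z0,z0,z3,z0],z4),([z0,z3,z0,z0,z0,z0],z2),([z0,z0,z0,z1,z1,z0],z1)],[([z6,z0,z0,z0,z0,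
    y3],z2),([z0,z3,z0,z0,z0,z0],z2),([z0,z0,z0,z6,z0,z3],z2)],[([z3,z0,z0,z0,z3,z0],z4),([z0,z3,z0,z0,z0,z0],z2),
    ([z0,z0,z0,z6,z6,z0],z5)],[([z3,z0,z0,z0,z3,z0],z4),([z0,z3,z0,z0,z0,z0],z2)],[([z1,z0,z0,z0,y1,z0],z0),([z0,z1,
    z0,z0,z2,z0],z2)],[([z2,z0,z0,z0,z0,y1],z2),([z0,z2,z0,z0,z2,z1],z2)],[([z2,z0,z0,z0,z2,z0],z3),([z0,z2,z0,z0,z0,
    z0],z1),([z0,z0,z0,z6,z6,z0],z5)]],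
    [[([z6,z0,z0,z0,z0,z0],z7),([z0,z2,z0,z0,z0,z0],z1),([z0,z0,z0,z2,z0,z0],z1),([z0,z0,z0,z0,z3,z0],z1)],[([z3,z0,
    z0,z0,z0,z0],z4),([z0,z3,z0,z0,z0,z0],z1),([z0,z0,z0,z3,z0,z0],z2),([z0,z0,z0,z0,z3,z0],z1)],[([z3,z0,z0,y3,z0,
    z0],z2),([z0,z1,z0,z1,z0,z0],z1),([z0,z0,z0,z0,z3,z0],z1)],[([z3,z0,z0,z0,z3,z0],z5),([z0,z3,z0,z0,z0,z0],z1),
    ([z0,z0,z0,z1,z1,z0],z1)],[([z3,z0,z0,y3,z0,z0],z2),([z0,z3,z0,z3,z3,z0],z4)],[([z2,z0,z0,z0,z2,z0],z3),([z0,z2,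
    z0,z0,z0,z0],z1),([z0,z0,z0,z1,z1,z0],z1)],[([z4,z0,z0,z0,z0,z0],z5),([z0,z2,z0,z0,z0,z0],z1),([z0,z0,z0,z4,z0,
    z0],z3),([z0,z0,z0,z0,z4,z0],z1)],[([z12,z0,z0,z0,z0,z0],z13),([z0,z3,z0,z0,z0,z0],z2),([z0,z0,z0,z12,z0,z0],z7),
    ([z0,z0,z0,z0,z4,z0],z1)],[([z2,z0,z0,y2,z0,z0],z1),([z0,z4,z0,z4,z0,z0],z5),([z0,z0,z0,z0,z4,z0],z1)],[([z4,z0,
    z0,z0,z0,z0],z3),([z0,z2,z0,z0,z0,z0],z1),([z0,z0,z0,z4,z0,z0],z1),([z0,z0,z0,z0,z4,z0],z3)],[([z12,z0,z0,z0,z0,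
    z0],z7),([z0,z3,z0,z0,z0,z0],z2),([z0,z0,z0,z12,z0,z0],z1),([z0,z0,z0,z0,z4,z0],z3)],[([z2,z0,z0,y2,z0,z0],z1),
    ([z0,z4,z0,z4,z0,z0],z3),([z0,z0,z0,z0,z4,z0],z3)]],
    [[([z2,z0,z0,y2,z0,z0],z1),([z0,z2,z0,z2,z2,z0],z3)],[([z1,z0,z0,y1,z0,y1],z0)],[([z2,z0,z0,z0,z0,z1],z2),([z0,z1,
    z0,z0,z0,y1],z0),([z0,z0,z0,z2,z0,z3],z2)],[([z2,z0,z0,z0,z0,z1],z2),([z0,z2,z0,z0,z0,z0],z1),([z0,z0,z0,z2,z0,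
    z3],z2)],[([z6,z0,z0,z0,z0,z0],z5),([z0,z3,z0,z0,z0,z0],z2),([z0,z0,z0,z2,z0,z0],z1),([z0,z0,z0,z0,z2,z0],z1)],
    [([z2,z0,z0,z0,z0,z1],z2),([z0,z1,z0,z0,z0,z1],z1),([z0,z0,z0,z2,z0,z3],z2)],[([z2,z0,z0,z0,z0,z1],z2),([z0,z2,z0,
    z0,z2,y1],z2)],[([z2,z0,z0,z0,z0,z1],z2),([z0,z2,z0,z0,z2,z1],z2)],[([z2,z0,z0,z0,z0,z1],z2),([z0,z2,z0,z2,z0,z1],
    z2)],[([z2,z0,z0,z0,z0,z1],z2),([z0,z3,z0,z0,z0,z0],z2),([z0,z0,z0,z6,z0,z3],z2)],[([z2,z0,z0,z0,z0,z1],z2),([z0,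
    z3,z0,z0,z0,z0],z2),([z0,z0,z0,z2,z0,z1],z2)],[([z3,z0,z0,z0,z0,z0],z2),([z0,z3,z0,z0,z0,z0],z2),([z0,z0,z0,z3,z3,
    z0],z2)]],
    [[([z2,z0,z0,z0,z0,z1],z2),([z0,z3,z0,z0,z0,z0],z2),([z0,z0,z0,z1,z0,z1],z1)],[([z2,z0,z0,z0,z0,z1],z2),([z0,z3,
    z0,z0,z0,z0],z2),([z0,z0,z0,z3,z0,z0],z1)],[([z4,z0,z0,z0,z0,z0],z3),([z0,z3,z0,z0,z0,z0],z2),([z0,z0,z0,z6,z6,
    z0],z5)],[([z2,z0,z0,z0,z0,z1],z2),([z0,z3,z0,z0,z0,z0],z2)],[([z2,z0,z0,z0,z0,z1],z2),([z0,z3,z0,z0,z0,z0],z2),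
    ([z0,z0,z0,z3,z0,z3],z2)],[([z2,z0,z0,z0,z0,z1],z2),([z0,z2,z0,z0,z0,z0],z1),([z0,z0,z0,z4,z0,z4],z3)],[([z6,z0,
    z0,z0,z0,z0],z5),([z0,z3,z0,z0,z0,z0],z2),([z0,z0,z0,z3,z0,z0],z1),([z0,z0,z0,z0,z3,z0],z2)],[([z2,z0,z0,z0,z0,
    z1],z2),([z0,z1,z0,z0,z0,z1],z1),([z0,z0,z0,z2,z0,z1],z1)],[([z2,z0,z0,z0,z0,z1],z2),([z0,z1,z0,z0,z2,z0],z2)],
    [([z6,z0,z0,z0,z0,z0],z5),([z0,z3,z0,z0,z0,z0],z1),([z0,z0,z0,z6,z0,z0],z5),([z0,z0,z0,z0,z2,z0],z1)],[([z3,z0,z0,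
    z0,z0,z0],z2),([z0,z3,z0,z0,z0,z0],z2),([z0,z0,z0,z6,z0,z0],z1),([z0,z0,z0,z0,z2,z0],z1)],[([z4,z0,z0,z0,z0,z0],
    z3),([z0,z2,z0,z0,z0,z0],z1),([z0,z0,z0,z2,z0,z0],z1),([z0,z0,z0,z0,z2,z0],z1)]],
    [[([z2,z0,z0,z0,z0,z1],z2),([z0,z1,z0,z0,z0,y1],z0),([z0,z0,z0,z2,z0,z4],z3)],[([z2,z0,z0,z0,z0,z1],z2),([z0,z2,
    z0,z0,z0,y1],z1),([z0,z0,z0,z2,z0,z3],z2)],[([z2,z0,z0,z0,z0,z1],z2),([z0,z2,z0,z0,z0,z1],z1),([z0,z0,z0,z2,z0,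
    z1],z2)],[([z2,z0,z0,z0,z0,z1],z2),([z0,z3,z0,z0,z0,z0],z2),([z0,z0,z0,z6,z0,z6],z5)],[([z2,z0,z0,z0,z0,z1],z2),
    ([z0,z2,z0,z0,z0,z0],z1),([z0,z0,z0,z1,z0,z1],z1)],[([z2,z0,z0,z0,z0,z1],z2),([z0,z2,z0,z2,z0,z2],z3)],[([z2,z0,
    z0,z0,z0,z1],z2)],[([z1,z0,z0,z0,z1,z1],z2)],[([z1,z0,z0,z1,z0,z1],z2)],[([z1,z0,z0,z0,y1,z0],z0)],[([z6,z0,z0,z0,
    z0,z0],z5),([z0,z3,z0,z0,z0,z0],z2),([z0,z0,z0,z6,z0,z6],z7)],[([z6,z0,z0,z0,z0,y3],z4),([z0,z3,z0,z0,z0,z0],z2),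
    ([z0,z0,z0,z2,z0,z1],z2)]],
    [[([z3,z0,z0,z0,z0,z0],z2),([z0,z3,z0,z0,z0,z0],z2),([z0,z0,z0,z1,z0,z1],z1)],[([z1,z0,z0,z0,z1,z0],z1),([z0,z3,
    z0,z0,z0,z0],z2)],[([z1,z0,z0,z0,z1,z1],z2),([z0,z3,z0,z0,z0,z0],z2)],[([z2,z0,z0,z0,z0,z3],z2),([z0,z3,z0,z0,z0,
    z0],z2),([z0,z0,z0,z2,z0,z1],z2)],[([z1,z0,z0,z0,z0,z1],z1),([z0,z3,z0,z0,z0,z0],z2),([z0,z0,z0,z1,z0,z1],z1)],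
    [([z3,z0,z0,z0,y3,z3],z2),([z0,z3,z0,z0,z0,z0],z2)],[([z3,z0,z0,z0,y3,z0],z2),([z0,z3,z0,z0,z0,z0],z2)],[([z1,z0,
    z0,z0,y1,z0],z0),([z0,z3,z0,z0,z0,z0],z2)],[([z0,z3,z0,z0,z0,z0],z2),([z0,z0,z0,z1,z0,z1],z1)],[([z6,z0,z0,z0,z0,
    z3],z10),([z0,z3,z0,z0,z0,z0],z2),([z0,z0,z0,z6,z0,z3],z2)],[([z0,z3,z0,z0,z0,z0],z2),([z0,z0,z0,z6,z0,z3],z2)],
    [([z0,z3,z0,z0,z0,z0],z2)]],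
    [[([z1,z0,z0,z0,z1,z0],z2),([z0,z1,z0,z0,z2,z0],z2)],[([z0,z1,z0,z0,z2,z0],z2)],[([z2,z0,z0,z0,z0,z2],z3),([z0,z1,
    z0,z0,z0,y1],z0),([z0,z0,z0,z2,z0,z4],z3)],[([z6,z0,z0,z0,z0,z0],z5),([z0,z3,z0,z0,z0,z0],z2),([z0,z0,z0,z6,z0,
    z6],z5)],[([z6,z0,z0,z0,z0,z0],z5),([z0,z3,z0,z0,z0,z0],z2),([z0,z0,z0,z6,z0,z0],z1),([z0,z0,z0,z0,z2,z0],z1)],
    [([z6,z0,z0,z0,z0,z0],z7),([z0,z3,z0,z0,z0,z0],z1),([z0,z0,z0,z2,z0,z0],z1),([z0,z0,z0,z0,z2,z0],z1)],[([z3,z0,z0,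
    y3,z0,z0],z2),([z0,z6,z0,z6,z0,z0],z5),([z0,z0,z0,z0,z2,z0],z1)],[([z1,z0,z0,y1,z0,y1],z0),([z0,z2,z0,z2,z0,z2],
    z3)],[([z2,z0,z0,z0,z0,z2],z3),([z0,z2,z0,z2,z0,z2],z3)],[([z1,z0,z0,z1,z0,z1],z2),([z0,z2,z0,z2,z0,z2],z3)],
    [([z6,z0,z0,z0,z0,z0],z7),([z0,z3,z0,z0,z0,z0],z2),([z0,z0,z0,z6,z0,z6],z5)],[([z0,z3,z0,z0,z0,z0],z2),([z0,z0,z0,
    z6,z0,z6],z5)]],
    [[([z0,z2,z0,z0,z0,z0],z1),([z0,z0,z0,z1,z0,z1],z1)],[([z0,z2,z0,z2,z0,z2],z3)],[]]]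

/-- symmetries -/
noncomputable def hS6_137 : List (Bool × ℕ × List ℕ) :=
  [(false,k0,[k0,k1,k2,k3,k4,k5])]

/-- nodes 0 to 11 -/
noncomputable def hN6_137_0 : List HM :=
  [.base (.leafM k0 [k0,k1,k2,k3,k4,k5] [(z1,[y1,z0,z0,z1])] []),
    .base (.geo z6 k5 [(z6,y3),(z4,z0),(z6,z3),(z6,y9),(z2,z3),(z0,z6)] [(z1,[z3]),(z1,[z0,z2]),(z1,[y3,z0,z0,z6]),
    (z1,[z0,z0,z3]),(z1,[z0,y2,y3,y6,z6]),(z1,[])] k6),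
    .base (.leafM k0 [k0,k1,k2,k3,k4,k5] [(z3,[y1,z1,z1,z3])] []),
    .base (.leafM k1 [k5,k0,k1,k3] [] [(k2,k4,z3,[y1,y1,y1,z0,z3]),(k4,k2,z3,[y1,y1,y1,z0,z3])]),
    .base (.geo z6 k5 [(z8,y3),(z4,z0),(z4,z3),(z8,y9),(z0,z3),(z0,z6)] [(z1,[z1]),(z1,[z0,z2]),(z1,[y1,z0,z0,z6]),
    (z1,[z0,z0,z1]),(z1,[z0,y2,y1,y6,z6]),(z1,[])] k6),
    .base (.spec k5 false k0 [(z1,[z0,z0,z0,z1]),(z1,[z0,z1]),(z1,[y1,z0,z0,z3]),(z1,[z0,z0,z1]),(z1,[z0,y1,y3,y3,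
    z3])]),
    .base (.geo z6 k5 [(z2,z3),(z4,z0),(z10,y3),(z2,y3),(z6,y3),(z0,z6)] [(z1,[z1]),(z1,[z0,z2]),(z1,[y1,z0,z0,z6]),
    (z1,[z0,z0,z1]),(z1,[z0,y2,y1,y6,z6]),(z1,[])] k7),
    .base (.geo z6 k4 [(z8,y6),(z4,z0),(z4,z6),(z5,y6),(z0,z6),(z3,z0)] [(z1,[z2]),(z1,[z0,z2]),(z1,[y2,z0,z0,z6]),
    (z1,[z0,z0,z1]),(z1,[]),(z1,[z0,y2,y1,y6,z6])] k7),
    .lp (nat_lit 257) [(nat_lit 400),(nat_lit 400),(nat_lit 610),(nat_lit 400),(nat_lit 300),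
    (nat_lit 290)] [(nat_lit 202),(nat_lit 202),(nat_lit 202),(nat_lit 202),k0,k194,(nat_lit 281),k123,(nat_lit 252),
    (nat_lit 252),(nat_lit 239),(nat_lit 275)] k0 [[k0,k0,k0,k0,k0,k0,k0,k32,k0,k0,k0,k0],[k0,k0,k20,k0,k0,k0,k0,k0,
    k0,k0,k0,k0],[k0,k0,k0,k0,k0,k0,k0,k0,k0,k0,k0,k0],[k20,k0,k0,k0,k0,k0,k0,k52,k0,k0,k0,k0],[k0,k0,k0,k0,k0,k0,k0,
    k0,k0,(nat_lit 310),k0,k0],[k0,k0,k0,k0,k0,k0,k0,k0,k0,k152,k0,(nat_lit 200)],[k0,k32,k52,k0,k0,k0,k0,k0,k0,k0,k0,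
    k0],[k0,k0,k0,k0,k0,k0,k0,k0,k0,k0,k0,k0],[k0,k0,k0,k0,k152,(nat_lit 310),k0,k0,k0,k0,k0,k0],[k0,k0,k0,k0,k0,k0,
    k0,k0,k0,k0,k68,k48],[k0,k0,k0,k0,(nat_lit 200),k0,k0,k0,k48,k0,k0,k0],[k0,k0,k0,k0,k0,k0,k0,k0,k68,k0,k20,
    k0]] (nat_lit 1200) k6
    [[(k11,(nat_lit 259)),(k10,(nat_lit 363)),(k1,(nat_lit 380)),(k8,(nat_lit 398)),(k7,(nat_lit 479)),(k4,
    (nat_lit 802))],[(k6,(nat_lit 289)),(k9,(nat_lit 350)),(k0,(nat_lit 400)),(k3,(nat_lit 400)),(k5,(nat_lit 408)),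
    (k2,(nat_lit 420))],[(k6,(nat_lit 321)),(k9,(nat_lit 382)),(k5,(nat_lit 388)),(k0,(nat_lit 400)),(k2,
    (nat_lit 400)),(k3,(nat_lit 400))],[(k6,(nat_lit 321)),(k2,(nat_lit 400)),(k3,(nat_lit 400)),(k9,(nat_lit 402)),
    (k5,(nat_lit 408)),(k0,(nat_lit 420))],[(k6,(nat_lit 277)),(k9,(nat_lit 358)),(k3,(nat_lit 388)),(k0,
    (nat_lit 408)),(k2,(nat_lit 408)),(k5,(nat_lit 416))],[(k8,(nat_lit 242)),(k10,(nat_lit 565)),(k7,(nat_lit 681)),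
    (k11,(nat_lit 681)),(k1,(nat_lit 802)),(k4,(nat_lit 804))],[(k10,(nat_lit 242)),(k8,(nat_lit 277)),(k1,
    (nat_lit 479)),(k7,(nat_lit 558)),(k4,(nat_lit 681)),(k11,(nat_lit 716))],[(k6,(nat_lit 242)),(k9,(nat_lit 271)),
    (k5,(nat_lit 277)),(k0,(nat_lit 289)),(k2,(nat_lit 321)),(k3,(nat_lit 321))],[(k6,(nat_lit 271)),(k9,
    (nat_lit 300)),(k0,(nat_lit 350)),(k5,(nat_lit 358)),(k3,(nat_lit 382)),(k2,(nat_lit 402))],[(k4,(nat_lit 242)),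
    (k7,(nat_lit 277)),(k11,(nat_lit 277)),(k8,(nat_lit 300)),(k10,(nat_lit 381)),(k1,(nat_lit 398))],[(k10,
    (nat_lit 242)),(k11,(nat_lit 254)),(k1,(nat_lit 259)),(k8,(nat_lit 277)),(k4,(nat_lit 681)),(k7,(nat_lit 716))],
    [(k7,(nat_lit 242)),(k11,(nat_lit 242)),(k10,(nat_lit 346)),(k1,(nat_lit 363)),(k8,(nat_lit 381)),(k4,
    (nat_lit 565))]]
    [[k2,k0,k0,k0,k0,k1],[k1,k0,k0,k0,k1,k1],[k1,k0,k0,k1,k0,k2],[k1,k0,k0,k1,k0,k1],[k0,k1,k1,k0,k1,k0],[k0,k1,k0,k1,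
    k1,k0],[k0,k1,k0,k0,k2,k0],[k0,k0,k1,k1,k2,k0],[k0,k0,k0,k2,k2,k0],[k0,k0,k0,k1,k3,k0],[k0,k0,k0,k1,k1,k1],[k0,k0,
    k0,k1,k1,k2],[k0,k0,k0,k2,k0,k2],[k0,k0,k0,k0,k2,k1],[k0,k0,k0,k0,k0,k3],[k0,k0,k0,k0,k0,k4]]
    [.ref k1 k0 [(z1,[z1]),(z1,[z0,z0,z1]),(z3,[z3,y2,y2,y6,z6])],.ref k2 k0 [(z1,[z0,z1]),(z1,[z0,z0,z1]),(z1,[y3,z1,
    y1,y3,z3])],.ref k1 k0 [(z3,[z3,z1,z1,z3,y3]),(z1,[z0,z0,z1]),(z3,[z3,y1,y1,y3,z3])],.contra [z3,z1,z1,z3,y3],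
    .contra [y3,z1,z1,z3],.contra [y1,z0,z0,y1,z1],.ref k3 k0 [(z2,[y3,z2,z1]),(z1,[z0,z0,z1]),(z2,[y3,z0,y1,y6,z6])],
    .ref k4 k0 [(z1,[y3,z1,y1,z0,z3]),(z1,[z0,z0,z1]),(z1,[y3,y1,y3,y6,z9])],.ref k5 k0 [(z1,[z0,z1]),(z1,[z0,z0,z1]),
    (z2,[z1])],.ref k1 k0 [(z3,[y3,z2,y1,y3,z3]),(z1,[z0,z0,z1]),(z1,[y1,z0,y1,y3,z3])],.contra [z1,z0,z1,z1,y1],
    .ref k2 k0 [(z1,[z0,z1]),(z1,[z0,z0,z1]),(z1,[y3,z0,y2,y6,z6])],.contra [z3,z2,z2,z6,y6],.ref k6 k0 [(z1,[y3,z2]),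
    (z1,[z0,z0,z1]),(z1,[y3,z0,y2,y6,z6])],.ref k2 k0 [(z1,[z0,z1]),(z1,[z0,z0,z1]),(z1,[y1,z0,y1,y3,z3])],
    .ref k7 k0 [(z1,[z0,z1]),(z1,[z0,z0,z1]),(z2,[y3,z0,y4,y12,z12])]],
    .base (.leafM k1 [k5,k0,k1,k3] [] [(k2,k4,z1,[y1,z0,z1]),(k4,k2,z1,[y1,z0,z1])]),
    .base (.leafM k2 [k1,k2,k4,k5] [] [(k3,k0,z2,[z1,y1,y2,z2]),(k0,k3,z2,[z1,y1,y2,z2])]),
    .base (.geo z6 k4 [(z9,y6),(z3,z0),(z3,z6),(z5,y6),(z0,z6),(z4,z0)] [(z1,[z3]),(z1,[z0,z3]),(z1,[y3,z0,z0,z6]),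
    (z1,[z0,z0,z1]),(z1,[]),(z1,[z0,y3,y1,y6,z6])] k7)]

theorem hB6_137_0 : blkB [0, 0, 1, 0, 1, 1] [(0, 2)] sp6 hS6_137 (pcls (n := 6) [0, 0, 1, 0, 1, 1]) hD6_137 87 0 hN6_137_0 = true := by
  decide +kernel

/-- nodes 12 to 23 -/
noncomputable def hN6_137_1 : List HM :=
  [.base (.geo z6 k0 [(z7,z0),(z3,z0),(z5,z0),(z3,z0),(z2,z0),(z4,z0)] [(z1,[z1]),(z1,[z0,z3]),(z1,[y1,z0,z0,z0,z6]),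
    (z1,[z0,z0,z3]),(z1,[z0,z0,z0,z2]),(z1,[z0,y3,y3,y2,y6,z6])] k1),
    .base (.leafM k2 [k1,k2,k4,k5] [] [(k3,k0,z3,[z1,z0,z1]),(k0,k3,z3,[z1,z0,z1])]),
    .lp (nat_lit 257) [k116,k100,k118,k82,k84,k100] [k1,k1,k9,k9,k0,k0,k24,k12,k13,k21,k9,k9] k0 [[k0,k0,k0,k0,k0,k0,
    k5,k32,k0,k0,k0,k0],[k0,k0,k0,k39,k0,k0,k0,k0,k0,k0,k0,k0],[k39,k0,k0,k0,k0,k0,k0,k0,k0,k0,k0,k0],[k0,k0,k0,k0,k0,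
    k0,k2,k0,k0,k0,k0,k0],[k0,k0,k0,k0,k0,k29,k0,k0,k0,k0,k0,k0],[k0,k0,k0,k0,k0,k0,k0,k0,k0,k32,k0,k32],[k0,k32,k0,
    k0,k0,k0,k0,k0,k0,k0,k0,k0],[k0,k5,k2,k0,k0,k0,k0,k0,k0,k0,k0,k0],[k0,k0,k0,k0,k32,k0,k0,k0,k0,k0,k0,k0],[k0,k0,
    k0,k0,k0,k0,k0,k0,k0,k0,k32,k0],[k0,k0,k0,k0,k32,k0,k0,k0,k0,k0,k0,k0],[k0,k0,k0,k0,k0,k0,k0,k0,k32,k0,k0,
    k0]] (nat_lit 300) k6
    [[(k11,k76),(k8,k104),(k7,k105),(k10,k108),(k1,k116),(k4,k149)],[(k6,k61),(k9,k91),(k2,k108),(k3,k108),(k0,k116),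
    (k5,k156)],[(k2,k61),(k6,k90),(k3,k100),(k0,k108),(k5,k109),(k9,k120)],[(k3,k61),(k6,k87),(k9,k88),(k2,k100),(k0,
    k108),(k5,k109)],[(k6,k94),(k9,k95),(k2,k109),(k3,k109),(k5,k118),(k0,k156)],[(k4,k89),(k8,k105),(k7,k106),(k10,
    k109),(k11,k141),(k1,k149)],[(k8,k61),(k10,k65),(k11,k97),(k1,k105),(k4,k106),(k7,k123)],[(k0,k61),(k6,k70),(k9,
    k73),(k2,k87),(k3,k90),(k5,k94)],[(k6,k73),(k9,k76),(k2,k88),(k0,k91),(k5,k95),(k3,k120)],[(k7,k61),(k8,k92),(k11,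
    k96),(k1,k104),(k4,k105),(k10,k128)],[(k1,k76),(k8,k96),(k7,k97),(k10,k100),(k11,k100),(k4,k141)],[(k7,k65),(k10,
    k100),(k11,k100),(k1,k108),(k4,k109),(k8,k128)]]
    [[k1,k0,k0,k1,k0,k1],[k1,k0,k0,k0,k1,k1],[k0,k3,k0,k0,k0,k0],[k0,k4,k0,k0,k0,k0],[k0,k1,k0,k1,k1,k0],[k0,k0,k0,k2,
    k2,k0],[k0,k0,k0,k2,k0,k1],[k0,k0,k0,k1,k1,k1]]
    [.contra [z3,z1,z3,z1,z3,y3],.contra [z1,z0,z1,z0,z1,y1],.contra [y1,z1,z3],.ref k12 k0 [(z2,[y3,z4,z12]),(z2,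
    [z1]),(z2,[y1,z0,z4]),(z1,[z0,z0,z0,z1])],.contra [z1,z0,y1],.ref k13 k0 [(z2,[z3,z2,z0,y2]),(z2,[y3,z0,z6,z2]),
    (z2,[z3,z0,z0,y2]),(z1,[z0,z0,z0,z1])],.ref k13 k0 [(z2,[z3,z2,z3,z1,z3,y3]),(z2,[y3,z0,z3,y1,y3,z3]),(z2,[z3,z0,
    z3,z1,z3,y3]),(z1,[z0,z0,z0,z1])],.contra [z1,z0,z1,z0,z1,y1]],
    .base (.spec k6 false k0 [(z1,[z0,z0,z0,z1]),(z1,[z0,z1]),(z1,[y1,z0,z0,z3]),(z1,[z0,z0,z1]),(z1,[z0,y1,y3,y3,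
    z3])]),
    .lp (nat_lit 257) [(nat_lit 232),k162,(nat_lit 232),(nat_lit 206),k168,(nat_lit 200)] [k12,k12,k47,k47,k12,k12,
    k50,k0,k28,k60,k28,k28] k0 [[k0,k0,k0,k0,k0,k0,k10,k64,k0,k0,k0,k0],[k0,k0,k0,k40,k0,k0,k0,k0,k0,k0,k0,k0],[k40,
    k0,k0,k0,k0,k0,k0,k0,k0,k0,k0,k0],[k0,k0,k0,k0,k0,k0,k0,k38,k0,k0,k0,k0],[k0,k0,k0,k0,k0,k16,k0,k0,k0,k94,k0,k0],
    [k0,k0,k0,k0,k0,k0,k0,k0,k0,k106,k0,k106],[k0,k64,k38,k0,k0,k0,k0,k0,k0,k0,k0,k0],[k0,k10,k0,k0,k0,k0,k0,k0,k0,k0,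
    k0,k0],[k0,k0,k0,k0,k106,k94,k0,k0,k0,k0,k0,k0],[k0,k0,k0,k0,k0,k0,k0,k0,k0,k0,k64,k0],[k0,k0,k0,k0,k106,k0,k0,k0,
    k0,k0,k0,k0],[k0,k0,k0,k0,k0,k0,k0,k0,k64,k0,k0,k0]] (nat_lit 600) k6
    [[(k11,k152),(k8,(nat_lit 216)),(k10,(nat_lit 216)),(k1,(nat_lit 232)),(k7,(nat_lit 244)),(k4,(nat_lit 338))],
    [(k6,k130),(k9,k174),(k2,k197),(k3,k197),(k0,(nat_lit 232)),(k5,(nat_lit 272))],[(k2,k122),(k3,k162),(k6,k169),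
    (k0,k197),(k5,k197),(k9,(nat_lit 213))],[(k3,k122),(k6,k159),(k2,k162),(k9,k187),(k0,k197),(k5,k197)],[(k6,k156),
    (k9,k184),(k2,k197),(k3,k197),(k5,(nat_lit 232)),(k0,(nat_lit 272))],[(k8,k122),(k4,(nat_lit 216)),(k10,
    (nat_lit 216)),(k7,(nat_lit 244)),(k11,(nat_lit 322)),(k1,(nat_lit 338))],[(k8,k122),(k10,k122),(k1,
    (nat_lit 244)),(k4,(nat_lit 244)),(k7,(nat_lit 272)),(k11,(nat_lit 322))],[(k0,k130),(k9,k146),(k5,k156),(k6,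
    k156),(k2,k159),(k3,k169)],[(k9,k136),(k6,k146),(k0,k174),(k5,k184),(k2,k187),(k3,(nat_lit 213))],[(k4,k122),(k7,
    k122),(k8,(nat_lit 200)),(k11,(nat_lit 200)),(k1,(nat_lit 216)),(k10,(nat_lit 264))],[(k1,k152),(k8,
    (nat_lit 200)),(k10,(nat_lit 200)),(k11,(nat_lit 200)),(k4,(nat_lit 322)),(k7,(nat_lit 322))],[(k7,k122),(k10,
    (nat_lit 200)),(k11,(nat_lit 200)),(k1,(nat_lit 216)),(k4,(nat_lit 216)),(k8,(nat_lit 264))]]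
    [[k1,k0,k0,k0,k1,k1],[k1,k0,k0,k1,k0,k1],[k0,k3,k0,k0,k0,k0],[k0,k4,k0,k0,k0,k0],[k0,k1,k1,k0,k1,k0],[k0,k1,k0,k1,
    k1,k0],[k0,k0,k1,k1,k2,k0],[k0,k0,k0,k2,k2,k0],[k0,k0,k0,k1,k1,k1]]
    [.ref k2 k0 [(z1,[z3,z0,z1,z3,y3]),(z1,[y3,z1,z0,y3,z3]),(z1,[z3,y1,z1,z3,y3])],.contra [z3,z1,z1,z3,y3],
    .ref k2 k0 [(z1,[y1,z1,z1]),(z1,[z1]),(z1,[y1,z0,z1])],.ref k11 k0 [(z6,[y3,z4,z4]),(z2,[z1]),(z2,[y3,z0,z4])],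
    .contra [y3,z1,z1,z3],.contra [z1,z0,y1,y2,z2],.ref k14 k0 [(z1,[z0,z1]),(z6,[y3,y1,z2,z3]),(z2,[z3,z1,z0,y3])],
    .ref k15 k0 [(z2,[z3,z2]),(z2,[y3,z0,z2]),(z2,[z1])],.contra [y1,z0,z0,y1,z1]],
    .base (.leafM k0 [k0,k1,k2,k3,k4,k5] [(z2,[y1,z1,z2,z2])] []),
    .base (.leafM k0 [k0,k1,k2,k3,k4,k5] [(z4,[y1,z2,z1,z0,z4])] []),
    .base (.geo z12 k0 [(z13,z0),(z8,z0),(z11,z0),(z7,z0),(z3,z0),(z6,z0)] [(z1,[z1]),(z1,[z0,z4]),(z1,[y1,z0,z0,z0,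
    z12]),(z1,[z0,z0,z1]),(z1,[z0,z0,z0,z3]),(z1,[z0,y4,y1,y3,y12,z12])] k1),
    .lp (nat_lit 257) [(nat_lit 548),(nat_lit 368),(nat_lit 558),(nat_lit 242),(nat_lit 284),(nat_lit 400)] [k5,k5,
    k95,k95,k0,k0,k158,k158,k122,k152,k79,k79] k0 [[k0,k0,k0,k0,k0,k0,k42,k0,k0,k0,k0,k0],[k0,k0,k0,k68,k0,k0,k0,k0,
    k0,k0,k0,k0],[k68,k0,k0,k0,k0,k0,k0,k0,k0,k0,k0,k0],[k0,k0,k0,k0,k0,k0,k42,k0,k0,k0,k0,k0],[k0,k0,k0,k0,k0,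
    (nat_lit 264),k0,k0,k0,k0,k0,k0],[k0,k0,k0,k0,k0,k0,k0,k0,k0,k36,k0,k36],[k0,k0,k0,k0,k0,k0,k0,k0,k0,k0,k0,k0],
    [k0,k42,k42,k0,k0,k0,k0,k0,k0,k0,k0,k0],[k0,k0,k0,k0,k36,k0,k0,k0,k0,k0,k0,k0],[k0,k0,k0,k0,k0,k0,k0,k0,k0,k0,
    (nat_lit 232),k0],[k0,k0,k0,k0,k36,k0,k0,k0,k0,k0,k0,k0],[k0,k0,k0,k0,k0,k0,k0,k0,(nat_lit 232),k0,k0,
    k0]] (nat_lit 1200) k6
    [[(k11,(nat_lit 242)),(k7,(nat_lit 395)),(k8,(nat_lit 431)),(k10,(nat_lit 474)),(k1,(nat_lit 548)),(k4,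
    (nat_lit 589))],[(k9,(nat_lit 359)),(k6,(nat_lit 395)),(k2,(nat_lit 458)),(k3,(nat_lit 458)),(k0,(nat_lit 548)),
    (k5,(nat_lit 621))],[(k2,(nat_lit 300)),(k9,(nat_lit 311)),(k6,(nat_lit 347)),(k3,(nat_lit 368)),(k0,
    (nat_lit 458)),(k5,(nat_lit 463))],[(k3,(nat_lit 300)),(k9,(nat_lit 311)),(k6,(nat_lit 347)),(k2,(nat_lit 368)),
    (k0,(nat_lit 458)),(k5,(nat_lit 463))],[(k9,(nat_lit 364)),(k6,(nat_lit 400)),(k2,(nat_lit 463)),(k3,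
    (nat_lit 463)),(k5,(nat_lit 558)),(k0,(nat_lit 621))],[(k4,(nat_lit 294)),(k7,(nat_lit 400)),(k8,(nat_lit 436)),
    (k10,(nat_lit 479)),(k11,(nat_lit 515)),(k1,(nat_lit 589))],[(k8,(nat_lit 242)),(k10,(nat_lit 285)),(k11,
    (nat_lit 321)),(k1,(nat_lit 395)),(k4,(nat_lit 400)),(k7,(nat_lit 506))],[(k6,(nat_lit 242)),(k9,(nat_lit 248)),
    (k2,(nat_lit 347)),(k3,(nat_lit 347)),(k0,(nat_lit 395)),(k5,(nat_lit 400))],[(k6,(nat_lit 248)),(k9,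
    (nat_lit 254)),(k2,(nat_lit 311)),(k3,(nat_lit 311)),(k0,(nat_lit 359)),(k5,(nat_lit 364))],[(k7,(nat_lit 242)),
    (k8,(nat_lit 314)),(k11,(nat_lit 357)),(k1,(nat_lit 431)),(k4,(nat_lit 436)),(k10,(nat_lit 589))],[(k1,
    (nat_lit 242)),(k7,(nat_lit 321)),(k8,(nat_lit 357)),(k10,(nat_lit 400)),(k11,(nat_lit 400)),(k4,(nat_lit 515))],
    [(k7,(nat_lit 285)),(k10,(nat_lit 400)),(k11,(nat_lit 400)),(k1,(nat_lit 474)),(k4,(nat_lit 479)),(k8,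
    (nat_lit 589))]]
    [[k1,k0,k0,k1,k0,k1],[k1,k0,k0,k0,k1,k1],[k0,k3,k0,k0,k0,k0],[k0,k1,k0,k1,k1,k0],[k0,k1,k0,k0,k2,k0],[k0,k0,k0,k2,
    k2,k0],[k0,k0,k0,k1,k3,k0],[k0,k0,k0,k2,k0,k1],[k0,k0,k0,k1,k1,k1],[k0,k0,k0,k0,k4,k0]]
    [.contra [z4,z2,z1,z1,z4,y4],.ref k18 k0 [(z1,[z4,z0,z1,z0,z4,y4]),(z1,[y2,z1,z0,z0,y2,z2]),(z1,[z4,y2,z1,z0,z4,
    y4]),(z1,[z0,z0,z0,z1])],.ref k19 k0 [(z1,[y4,z6,z3]),(z1,[z1]),(z1,[y4,z0,z3]),(z1,[z0,z0,z0,z1])],.contra [z12,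
    z0,y3,y1],.contra [y4,z1,z1,z2],.ref k18 k0 [(z1,[z2,z2,z0,y1]),(z2,[y2,z0,z1,z1]),(z1,[z2,z0,z0,y1]),(z1,[z0,z0,
    z0,z1])],.contra [y4,z0,z1,z3],.ref k18 k0 [(z2,[z4,z4,z1,z1,z4,y4]),(z4,[y4,z0,z1,y1,y4,z4]),(z2,[z4,z0,z1,z1,z4,
    y4]),(z1,[z0,z0,z0,z1])],.contra [y1,z0,z0,z0,y1,z1],.contra [z3,z0,z0,y2]],
    .base (.leafM k0 [k0,k1,k2,k3,k4,k5] [(z4,[y1,z2,z1,z0,z4])] []),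
    .base (.geo z12 k0 [(z7,z0),(z8,z0),(z17,z0),(z1,z0),(z9,z0),(z6,z0)] [(z1,[z1]),(z1,[z0,z4]),(z1,[y1,z0,z0,z0,
    z12]),(z1,[z0,z0,z1]),(z1,[z0,z0,z0,z3]),(z1,[z0,y4,y1,y3,y12,z12])] k1),
    .lp (nat_lit 257) [(nat_lit 1690),(nat_lit 1600),(nat_lit 1870),(nat_lit 1330),(nat_lit 1510),
    (nat_lit 1600)] [k157,k157,(nat_lit 202),(nat_lit 202),k67,k67,(nat_lit 518),k156,k0,(nat_lit 494),k0,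
    (nat_lit 404)] k0 [[k0,k0,k0,k0,k0,k0,k180,k180,k0,k0,k0,k0],[k0,k0,k0,(nat_lit 400),k0,k0,k0,k0,k0,k0,k0,k0],
    [(nat_lit 400),k0,k0,k0,k0,k0,k0,k0,k0,k0,k0,k0],[k0,k0,k0,k0,k0,k0,k180,k0,k0,k0,k0,k0],[k0,k0,k0,k0,k0,k180,k0,
    k0,k0,k0,k0,k0],[k0,k0,k0,k0,k0,k0,k0,k0,k0,(nat_lit 880),k0,(nat_lit 880)],[k0,k180,k0,k0,k0,k0,k0,k0,k0,k0,k0,
    k0],[k0,k180,k180,k0,k0,k0,k0,k0,k0,k0,k0,k0],[k0,k0,k0,k0,(nat_lit 880),k0,k0,k0,k0,k0,k0,k0],[k0,k0,k0,k0,k0,k0,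
    k0,k0,k0,k0,k180,k0],[k0,k0,k0,k0,(nat_lit 880),k0,k0,k0,k0,k0,k0,k0],[k0,k0,k0,k0,k0,k0,k0,k0,k180,k0,k0,
    k0]] (nat_lit 4800) k6
    [[(k11,(nat_lit 1263)),(k1,(nat_lit 1690)),(k7,(nat_lit 1691)),(k8,(nat_lit 1847)),(k10,(nat_lit 1847)),(k4,
    (nat_lit 2660))],[(k6,(nat_lit 1149)),(k9,(nat_lit 1173)),(k2,(nat_lit 1645)),(k3,(nat_lit 1645)),(k0,
    (nat_lit 1690)),(k5,(nat_lit 2180))],[(k2,(nat_lit 1200)),(k6,(nat_lit 1464)),(k9,(nat_lit 1488)),(k3,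
    (nat_lit 1600)),(k0,(nat_lit 1645)),(k5,(nat_lit 1735))],[(k3,(nat_lit 1200)),(k9,(nat_lit 1308)),(k6,
    (nat_lit 1464)),(k2,(nat_lit 1600)),(k0,(nat_lit 1645)),(k5,(nat_lit 1735))],[(k9,(nat_lit 1263)),(k6,
    (nat_lit 1419)),(k2,(nat_lit 1735)),(k3,(nat_lit 1735)),(k5,(nat_lit 1870)),(k0,(nat_lit 2180))],[(k4,
    (nat_lit 1690)),(k7,(nat_lit 1781)),(k8,(nat_lit 1937)),(k10,(nat_lit 1937)),(k11,(nat_lit 2413)),(k1,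
    (nat_lit 2660))],[(k8,(nat_lit 968)),(k10,(nat_lit 968)),(k11,(nat_lit 1444)),(k1,(nat_lit 1691)),(k4,
    (nat_lit 1781)),(k7,(nat_lit 1872))],[(k6,(nat_lit 968)),(k9,(nat_lit 992)),(k0,(nat_lit 1149)),(k5,
    (nat_lit 1419)),(k2,(nat_lit 1464)),(k3,(nat_lit 1464))],[(k6,(nat_lit 992)),(k9,(nat_lit 1016)),(k0,
    (nat_lit 1173)),(k5,(nat_lit 1263)),(k2,(nat_lit 1308)),(k3,(nat_lit 1488))],[(k7,(nat_lit 968)),(k11,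
    (nat_lit 1600)),(k1,(nat_lit 1847)),(k4,(nat_lit 1937)),(k8,(nat_lit 2004)),(k10,(nat_lit 2184))],[(k11,
    (nat_lit 1196)),(k1,(nat_lit 1263)),(k7,(nat_lit 1444)),(k8,(nat_lit 1600)),(k10,(nat_lit 1600)),(k4,
    (nat_lit 2413))],[(k7,(nat_lit 968)),(k11,(nat_lit 1600)),(k1,(nat_lit 1847)),(k4,(nat_lit 1937)),(k10,
    (nat_lit 2004)),(k8,(nat_lit 2184))]]
    [[k1,k0,k0,k1,k0,k1],[k1,k0,k0,k0,k1,k1],[k0,k3,k0,k0,k0,k0],[k0,k1,k0,k1,k1,k0],[k0,k0,k0,k2,k2,k0],[k0,k0,k0,k2,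
    k0,k1],[k0,k0,k0,k1,k1,k1],[k0,k0,k0,k2,k0,k2]]
    [.contra [z4,z2,z1,z1,z4,y4],.ref k21 k0 [(z1,[z4,z0,z1,z0,z4,y4]),(z1,[y2,z1,z0,z0,y2,z2]),(z1,[z4,y2,z1,z0,z4,
    y4]),(z1,[z0,z0,z0,z1])],.ref k22 k0 [(z1,[y4,z6,z3]),(z1,[z1]),(z1,[y4,z0,z3]),(z1,[z0,z0,z0,z1])],.contra [z4,
    z0,y1,z1],.ref k21 k0 [(z1,[z2,z2,z0,y1]),(z2,[y2,z0,z1,z1]),(z1,[z2,z0,z0,y1]),(z1,[z0,z0,z0,z1])],.contra [y4,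
    z0,z1,y1,y4,z4],.contra [y1,z0,z0,z0,y1,z1],.contra [z2,z2,z1,z1,z4,y4]]]

theorem hB6_137_1 : blkB [0, 0, 1, 0, 1, 1] [(0, 2)] sp6 hS6_137 (pcls (n := 6) [0, 0, 1, 0, 1, 1]) hD6_137 87 1 hN6_137_1 = true := by
  decide +kernel

/-- nodes 24 to 35 -/
noncomputable def hN6_137_2 : List HM :=
  [.lp (nat_lit 257) [k110,k80,k140,k110,k80,k80] [k16,k16,k31,k31,k0,k2,k32,k0,k31,k31,k31,k31] k0 [[k0,k0,k0,k0,k0,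
    k0,k0,k30,k0,k0,k0,k0],[k0,k0,k0,k5,k0,k0,k0,k0,k0,k0,k0,k0],[k5,k0,k0,k0,k0,k0,k0,k0,k0,k0,k0,k0],[k0,k0,k0,k0,
    k0,k0,k0,k30,k0,k0,k0,k0],[k0,k0,k0,k0,k0,k0,k0,k0,k0,k50,k0,k0],[k0,k0,k0,k0,k0,k0,k0,k0,k0,k50,k0,k50],[k0,k30,
    k30,k0,k0,k0,k0,k0,k0,k0,k0,k0],[k0,k0,k0,k0,k0,k0,k0,k0,k0,k0,k0,k0],[k0,k0,k0,k0,k50,k50,k0,k0,k0,k0,k0,k0],[k0,
    k0,k0,k0,k0,k0,k0,k0,k0,k0,k0,k0],[k0,k0,k0,k0,k50,k0,k0,k0,k0,k0,k0,k0],[k0,k0,k0,k0,k0,k0,k0,k0,k0,k0,k0,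
    k0]] (nat_lit 300) k6
    [[(k8,k95),(k10,k95),(k11,k95),(k1,k110),(k7,k126),(k4,k176)],[(k6,k64),(k2,k95),(k3,k95),(k9,k95),(k0,k110),(k5,
    k129)],[(k2,k75),(k6,k79),(k3,k80),(k0,k95),(k5,k109),(k9,k110)],[(k3,k75),(k6,k79),(k2,k80),(k0,k95),(k5,k109),
    (k9,k110)],[(k6,k78),(k2,k109),(k3,k109),(k9,k109),(k0,k129),(k5,k138)],[(k8,k61),(k10,k111),(k4,k142),(k7,k142),
    (k11,k161),(k1,k176)],[(k8,k61),(k10,k61),(k1,k126),(k4,k142),(k7,k142),(k11,k161)],[(k0,k64),(k5,k78),(k6,k78),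
    (k2,k79),(k3,k79),(k9,k79)],[(k6,k79),(k9,k80),(k0,k95),(k5,k109),(k2,k110),(k3,k110)],[(k4,k61),(k7,k61),(k8,
    k80),(k10,k80),(k11,k80),(k1,k95)],[(k8,k80),(k10,k80),(k11,k80),(k1,k95),(k4,k161),(k7,k161)],[(k7,k61),(k8,k80),
    (k10,k80),(k11,k80),(k1,k95),(k4,k111)]]
    [[k1,k0,k0,k0,k1,k1],[k1,k0,k0,k1,k0,k1],[k0,k3,k0,k0,k0,k0],[k0,k1,k1,k0,k1,k0],[k0,k1,k0,k1,k1,k0],[k0,k0,k1,k1,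
    k2,k0],[k0,k0,k0,k2,k2,k0],[k0,k0,k0,k1,k1,k1],[k0,k0,k0,k2,k0,k2],[k0,k0,k0,k0,k2,k1],[k0,k0,k0,k0,k0,k3]]
    [.ref k17 k0 [(z1,[z2,z0,z1,z2,y2]),(z1,[y2,z1,z0,y2,z2]),(z2,[z2,y1,z1,z2,y2])],.contra [z2,z1,z1,z2,y2],
    .ref k7 k0 [(z2,[y2,z3,z3]),(z1,[z1]),(z1,[y2,z0,z3])],.contra [y2,z1,z1,z2],.contra [z1,z0,y1,y1,z1],
    .ref k20 k0 [(z1,[z0,z1]),(z1,[y2,y1,z2,z2]),(z1,[z2,z1,z0,y2])],.ref k17 k0 [(z1,[z1,z1]),(z1,[y1,z0,z1]),(z2,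
    [z1])],.contra [y1,z0,z0,y1,z1],.contra [z1,z1,z1,z2,y2],.ref k23 k0 [(z1,[z0,z1]),(z1,[y2,z0,z1,y2,z2]),(z1,[z2,
    z0,z1,z2,y2])],.contra [z1,z0,z1,z2,y2]],
    .lp (nat_lit 257) [(nat_lit 280),k150,(nat_lit 304),k160,k170,k136] [k12,k12,k77,k77,k0,k0,k72,k72,k67,k67,k84,
    k84] k0 [[k0,k0,k0,k0,k0,k0,k10,k0,k0,k0,k0,k0],[k0,k0,k0,k0,k0,k0,k0,k0,k0,k0,k0,k0],[k0,k0,k0,k0,k0,k0,k0,k0,k0,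
    k0,k0,k0],[k0,k0,k0,k0,k0,k0,k10,k0,k0,k0,k0,k0],[k0,k0,k0,k0,k0,k110,k0,k0,k0,k0,k0,k0],[k0,k0,k0,k0,k0,k0,k0,k0,
    k0,k26,k0,k26],[k0,k0,k0,k0,k0,k0,k0,k38,k0,k0,k0,k0],[k0,k10,k10,k0,k0,k0,k0,k0,k0,k0,k0,k0],[k0,k0,k0,k0,k26,k0,
    k0,k0,k0,k0,k0,k0],[k0,k0,k0,k0,k0,k0,k0,k0,k0,k0,k86,k0],[k0,k0,k0,k0,k26,k0,k0,k0,k0,k0,k0,k0],[k0,k0,k0,k0,k0,
    k0,k0,k0,k86,k0,k0,k0]] (nat_lit 600) k6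
    [[(k11,k122),(k10,(nat_lit 208)),(k7,(nat_lit 220)),(k8,(nat_lit 225)),(k1,(nat_lit 280)),(k4,(nat_lit 318))],
    [(k2,(nat_lit 215)),(k3,(nat_lit 215)),(k9,(nat_lit 215)),(k6,(nat_lit 220)),(k0,(nat_lit 280)),(k5,
    (nat_lit 292))],[(k2,k150),(k3,k150),(k9,k160),(k6,k165),(k0,(nat_lit 215)),(k5,(nat_lit 227))],[(k2,k150),(k3,
    k150),(k9,k160),(k6,k165),(k0,(nat_lit 215)),(k5,(nat_lit 227))],[(k2,(nat_lit 227)),(k3,(nat_lit 227)),(k9,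
    (nat_lit 227)),(k6,(nat_lit 232)),(k0,(nat_lit 292)),(k5,(nat_lit 304))],[(k4,k194),(k10,(nat_lit 220)),(k7,
    (nat_lit 232)),(k8,(nat_lit 237)),(k11,(nat_lit 246)),(k1,(nat_lit 318))],[(k10,k122),(k8,k139),(k11,k148),(k1,
    (nat_lit 220)),(k4,(nat_lit 232)),(k7,(nat_lit 270))],[(k6,k122),(k2,k165),(k3,k165),(k9,k165),(k0,(nat_lit 220)),
    (k5,(nat_lit 232))],[(k2,k160),(k3,k160),(k6,k165),(k9,(nat_lit 208)),(k0,(nat_lit 215)),(k5,(nat_lit 227))],[(k7,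
    k139),(k11,k153),(k8,k170),(k1,(nat_lit 225)),(k4,(nat_lit 237)),(k10,(nat_lit 239))],[(k1,k122),(k10,k136),(k11,
    k136),(k7,k148),(k8,k153),(k4,(nat_lit 246))],[(k7,k122),(k10,k136),(k11,k136),(k1,(nat_lit 208)),(k4,
    (nat_lit 220)),(k8,(nat_lit 239))]]
    [[k1,k0,k0,k1,k0,k1],[k1,k0,k0,k0,k1,k1],[k0,k3,k0,k0,k0,k0],[k0,k1,k0,k1,k1,k0],[k0,k1,k0,k0,k2,k0],[k0,k0,k0,k2,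
    k0,k1],[k0,k0,k0,k1,k1,k1],[k0,k0,k0,k2,k0,k2],[k0,k0,k0,k1,k1,k2],[k0,k0,k0,k0,k0,k3],[k0,k0,k0,k0,k0,k4]]
    [.contra [z1,z1],.ref k0 k0 [(z1,[z1]),(z1,[y1,z1,y1,z1])],.ref k8 k0 [(z1,[y1,z3,y3,z3]),(z1,[z1])],.contra [y1,
    z0,y1,z1],.ref k9 k0 [(z1,[y1,z1,y1,z1]),(z1,[z1])],.ref k10 k0 [(z1,[z1,z2]),(z1,[y1,z0,y2,z2])],.contra [y1,z0,
    y1,z1],.contra [z1,z2],.ref k0 k0 [(z1,[z1,z1]),(z1,[y1,z0,y1,z1])],.ref k16 k0 [(z1,[z1,z3]),(z1,[y1,z0,y3,z3])],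
    .ref k24 k0 [(z2,[z1,z4]),(z2,[y1,z0,y4,z4])]],
    .base (.leafM k0 [k0,k1,k2,k3,k4,k5] [(z2,[y1,z2,z1,z2])] []),
    .base (.geo z2 k5 [(z2,y1),(z1,z0),(z2,z1),(z2,y3),(z1,z1),(z0,z2)] [(z1,[z1]),(z1,[z0,z1]),(z1,[y1,z0,z0,z2]),
    (z1,[z0,z0,z1]),(z1,[z0,y1,y1,y2,z2]),(z1,[])] k7),
    .base (.leafM k3 [k1,k2,k3,k4,k5,k0] [(z6,[y1,y2,y3,z0,z0,z6])] []),
    .lp (nat_lit 257) [(nat_lit 452),(nat_lit 300),(nat_lit 602),(nat_lit 298),(nat_lit 448),(nat_lit 300)] [k75,k75,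
    k151,k151,k0,k0,k179,k125,k77,k77,k123,k179] k0 [[k0,k0,k0,k0,k0,k0,k150,k4,k0,k0,k0,k0],[k0,k0,k0,k56,k0,k0,k0,
    k0,k0,k0,k0,k0],[k56,k0,k0,k0,k0,k0,k0,k0,k0,k0,k0,k0],[k0,k0,k0,k0,k0,k0,k150,k0,k0,k0,k0,k0],[k0,k0,k0,k0,k0,k4,
    k0,k0,k0,k0,k0,k0],[k0,k0,k0,k0,k0,k0,k0,k0,k0,k110,k0,k110],[k0,k4,k0,k0,k0,k0,k0,k0,k0,k0,k0,k0],[k0,k150,k150,
    k0,k0,k0,k0,k0,k0,k0,k0,k0],[k0,k0,k0,k0,k110,k0,k0,k0,k0,k0,k0,k0],[k0,k0,k0,k0,k0,k0,k0,k0,k0,k0,k4,k0],[k0,k0,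
    k0,k0,k110,k0,k0,k0,k0,k0,k0,k0],[k0,k0,k0,k0,k0,k0,k0,k0,k4,k0,k0,k0]] (nat_lit 1200) k6
    [[(k11,(nat_lit 344)),(k7,(nat_lit 402)),(k10,(nat_lit 404)),(k8,(nat_lit 450)),(k1,(nat_lit 452)),(k4,
    (nat_lit 637))],[(k9,(nat_lit 300)),(k6,(nat_lit 344)),(k2,(nat_lit 376)),(k3,(nat_lit 376)),(k0,(nat_lit 452)),
    (k5,(nat_lit 583))],[(k2,(nat_lit 244)),(k3,(nat_lit 300)),(k0,(nat_lit 376)),(k9,(nat_lit 378)),(k6,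
    (nat_lit 422)),(k5,(nat_lit 451))],[(k3,(nat_lit 244)),(k2,(nat_lit 300)),(k9,(nat_lit 374)),(k0,(nat_lit 376)),
    (k6,(nat_lit 422)),(k5,(nat_lit 451))],[(k9,(nat_lit 375)),(k6,(nat_lit 423)),(k2,(nat_lit 451)),(k3,
    (nat_lit 451)),(k0,(nat_lit 583)),(k5,(nat_lit 602))],[(k7,(nat_lit 477)),(k10,(nat_lit 479)),(k8,(nat_lit 525)),
    (k11,(nat_lit 533)),(k4,(nat_lit 598)),(k1,(nat_lit 637))],[(k10,(nat_lit 244)),(k8,(nat_lit 290)),(k11,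
    (nat_lit 298)),(k7,(nat_lit 356)),(k1,(nat_lit 402)),(k4,(nat_lit 477))],[(k6,(nat_lit 244)),(k0,(nat_lit 344)),
    (k9,(nat_lit 346)),(k2,(nat_lit 422)),(k3,(nat_lit 422)),(k5,(nat_lit 423))],[(k0,(nat_lit 300)),(k6,
    (nat_lit 346)),(k2,(nat_lit 374)),(k5,(nat_lit 375)),(k3,(nat_lit 378)),(k9,(nat_lit 448))],[(k7,(nat_lit 290)),
    (k11,(nat_lit 346)),(k10,(nat_lit 406)),(k8,(nat_lit 448)),(k1,(nat_lit 450)),(k4,(nat_lit 525))],[(k11,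
    (nat_lit 244)),(k7,(nat_lit 298)),(k10,(nat_lit 300)),(k1,(nat_lit 344)),(k8,(nat_lit 346)),(k4,(nat_lit 533))],
    [(k7,(nat_lit 244)),(k11,(nat_lit 300)),(k10,(nat_lit 356)),(k1,(nat_lit 404)),(k8,(nat_lit 406)),(k4,
    (nat_lit 479))]]
    [[k1,k0,k0,k1,k0,k1],[k1,k0,k0,k0,k1,k1],[k0,k3,k0,k0,k0,k0],[k0,k4,k0,k0,k0,k0],[k0,k1,k0,k1,k1,k0],[k0,k0,k0,k2,
    k0,k1],[k0,k0,k0,k1,k1,k1],[k0,k0,k0,k2,k0,k2],[k0,k0,k0,k0,k0,k3]]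
    [.contra [z2,z1,z0,y1],.ref k21 k0 [(z2,[y2,z5,y2,y1,y2,z2]),(z2,[y2,z1,z2,y1,y2,z2]),(z2,[y6,z3,y6,z1,y6,z6]),
    (z2,[z6,y3,y2,y1,y2,z2])],.ref k28 k0 [(z1,[z1,z3,y3]),(z1,[z1]),(z1,[z1,z0,y3,z1]),(z1,[y1,z0,z1,y1,y2,z2])],
    .ref k21 k0 [(z2,[z1,z4,y4]),(z2,[z1]),(z2,[z3,z0,y12,z4]),(z2,[y3,z0,z4,y4,y8,z8])],.contra [z1,z1,z0,z0,z1,y1],
    .contra [z1,z2,z0,y1],.contra [z1,z0,z1,z0,z1,y1],.contra [z1,z1,z0,y1],.contra [z1,z0,y2,y1,y2,z2]],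
    .lp (nat_lit 257) [k116,k100,k118,k82,k84,k100] [k1,k1,k9,k9,k0,k0,k24,k12,k13,k21,k9,k9] k0 [[k0,k0,k0,k0,k0,k0,
    k5,k32,k0,k0,k0,k0],[k0,k0,k0,k39,k0,k0,k0,k0,k0,k0,k0,k0],[k39,k0,k0,k0,k0,k0,k0,k0,k0,k0,k0,k0],[k0,k0,k0,k0,k0,
    k0,k2,k0,k0,k0,k0,k0],[k0,k0,k0,k0,k0,k29,k0,k0,k0,k0,k0,k0],[k0,k0,k0,k0,k0,k0,k0,k0,k0,k32,k0,k32],[k0,k32,k0,
    k0,k0,k0,k0,k0,k0,k0,k0,k0],[k0,k5,k2,k0,k0,k0,k0,k0,k0,k0,k0,k0],[k0,k0,k0,k0,k32,k0,k0,k0,k0,k0,k0,k0],[k0,k0,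
    k0,k0,k0,k0,k0,k0,k0,k0,k32,k0],[k0,k0,k0,k0,k32,k0,k0,k0,k0,k0,k0,k0],[k0,k0,k0,k0,k0,k0,k0,k0,k32,k0,k0,
    k0]] (nat_lit 300) k6
    [[(k11,k76),(k8,k104),(k7,k105),(k10,k108),(k1,k116),(k4,k149)],[(k6,k61),(k9,k91),(k2,k108),(k3,k108),(k0,k116),
    (k5,k156)],[(k2,k61),(k6,k90),(k3,k100),(k0,k108),(k5,k109),(k9,k120)],[(k3,k61),(k6,k87),(k9,k88),(k2,k100),(k0,
    k108),(k5,k109)],[(k6,k94),(k9,k95),(k2,k109),(k3,k109),(k5,k118),(k0,k156)],[(k4,k89),(k8,k105),(k7,k106),(k10,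
    k109),(k11,k141),(k1,k149)],[(k8,k61),(k10,k65),(k11,k97),(k1,k105),(k4,k106),(k7,k123)],[(k0,k61),(k6,k70),(k9,
    k73),(k2,k87),(k3,k90),(k5,k94)],[(k6,k73),(k9,k76),(k2,k88),(k0,k91),(k5,k95),(k3,k120)],[(k7,k61),(k8,k92),(k11,
    k96),(k1,k104),(k4,k105),(k10,k128)],[(k1,k76),(k8,k96),(k7,k97),(k10,k100),(k11,k100),(k4,k141)],[(k7,k65),(k10,
    k100),(k11,k100),(k1,k108),(k4,k109),(k8,k128)]]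
    [[k1,k0,k0,k1,k0,k1],[k1,k0,k0,k0,k1,k1],[k0,k3,k0,k0,k0,k0],[k0,k4,k0,k0,k0,k0],[k0,k1,k0,k1,k1,k0],[k0,k0,k0,k2,
    k2,k0],[k0,k0,k0,k2,k0,k1],[k0,k0,k0,k1,k1,k1]]
    [.contra [z2,z1,z1,z2,y2],.ref k26 k0 [(z1,[z0,z1]),(z2,[y2,z1,z1]),(z1,[z0,z0,y1,y2,z2])],.ref k1 k0 [(z1,[z0,
    z1]),(z1,[z1]),(z1,[z0,z0,y1,y2,z2])],.ref k27 k0 [(z1,[z0,z1]),(z2,[z1]),(z1,[z0,z0,y1,y2,z2])],.contra [z1,z1,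
    z0,z1,y1],.ref k29 k0 [(z1,[z0,z1]),(z2,[y1,z0,z0,y2,z2]),(z1,[z0,z0,y1,y2,z2])],.contra [z1,z2,z1,z2,y2],
    .contra [y1,z0,z0,y1,z1]],
    .base (.leafM k3 [k2,k3,k4,k5,k0,k1] [(z2,[z1,y1,y2,z2])] []),
    .base (.leafM k0 [k0,k1,k2,k3,k4,k5] [(z2,[y1,z1,z2])] []),
    .base (.leafM k0 [k0,k1,k2,k3,k4,k5] [(z6,[y3,z2,z1,z6])] []),
    .base (.leafM k3 [k2,k3,k4,k5,k0,k1] [(z2,[z1,z0,z1])] []),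
    .base (.geo z3 k4 [(z2,z0),(z2,z0),(z4,z0),(z2,y3),(z0,z3),(z2,z0)] [(z1,[z1]),(z1,[z0,z1]),(z1,[y1,z0,z0,z3]),
    (z1,[z0,z0,z1]),(z1,[]),(z1,[z0,y1,y1,y3,z3])] k4)]

theorem hB6_137_2 : blkB [0, 0, 1, 0, 1, 1] [(0, 2)] sp6 hS6_137 (pcls (n := 6) [0, 0, 1, 0, 1, 1]) hD6_137 87 2 hN6_137_2 = true := by
  decide +kernel

/-- nodes 36 to 47 -/
noncomputable def hN6_137_3 : List HM :=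
  [.base (.leafM k8 [k5,k1,k3,k4] [(z1,[z0,z1]),(z1,[z0,y1,y3,y3,z3]),(z1,[z0,z0,z1])] [(k0,k2,z1,[z0,z0,z0,z1]),(k2,
    k0,z1,[z0,z0,z0,z1])]),
    .base (.geo z6 k5 [(z6,y3),(z4,z0),(z6,z3),(z2,z0),(z6,y6),(z0,z6)] [(z1,[z3]),(z1,[z0,z2]),(z1,[y3,z0,z0,z6]),
    (z1,[z0,z0,z2]),(z1,[z0,y2,y2,y6,z6]),(z1,[])] k6),
    .base (.geo z12 k4 [(z9,z0),(z8,z0),(z15,z0),(z10,y12),(z0,z12),(z6,z0)] [(z1,[z3]),(z1,[z0,z4]),(z1,[y3,z0,z0,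
    z12]),(z1,[z0,z0,z2]),(z1,[]),(z1,[z0,y4,y2,y12,z12])] k5),
    .lp (nat_lit 257) [(nat_lit 400),(nat_lit 400),(nat_lit 621),(nat_lit 400),(nat_lit 316),(nat_lit 263)] [k69,
    (nat_lit 203),k136,k136,k0,k51,(nat_lit 246),k26,k178,k178,(nat_lit 215),k194] k0 [[k0,k0,k0,k0,k0,k0,k0,k115,k0,
    k0,k0,k0],[k137,k0,k0,k0,k0,k0,k0,k0,k0,k0,k0,k0],[k0,k0,k0,k0,k0,k0,k0,k0,k0,k0,k0,k0],[k0,k0,k137,k0,k0,k0,k0,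
    k115,k0,k0,k0,k0],[k0,k0,k0,k0,k0,k0,k0,k0,k0,(nat_lit 252),k0,k0],[k0,k0,k0,k0,k0,k0,k0,k0,k0,k0,k0,k189],[k0,
    k115,k115,k0,k0,k0,k0,k0,k0,k0,k0,k0],[k0,k0,k0,k0,k0,k0,k74,k0,k0,k0,k0,k0],[k0,k0,k0,k0,k0,(nat_lit 252),k0,k0,
    k0,k0,k0,k0],[k0,k0,k0,k0,k0,k0,k0,k0,k42,k0,k0,k0],[k0,k0,k0,k0,k189,k0,k0,k0,k0,k0,k0,k0],[k0,k0,k0,k0,k0,k0,k0,
    k0,k0,k0,k0,k0]] (nat_lit 1200) k6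
    [[(k10,(nat_lit 254)),(k1,(nat_lit 266)),(k11,(nat_lit 275)),(k8,(nat_lit 291)),(k7,(nat_lit 443)),(k4,
    (nat_lit 658))],[(k6,(nat_lit 242)),(k9,(nat_lit 425)),(k2,(nat_lit 467)),(k3,(nat_lit 467)),(k5,(nat_lit 552)),
    (k0,(nat_lit 671))],[(k3,(nat_lit 263)),(k6,(nat_lit 290)),(k2,(nat_lit 400)),(k0,(nat_lit 467)),(k9,
    (nat_lit 473)),(k5,(nat_lit 485))],[(k6,(nat_lit 290)),(k3,(nat_lit 400)),(k0,(nat_lit 467)),(k9,(nat_lit 473)),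
    (k5,(nat_lit 485)),(k2,(nat_lit 537))],[(k6,(nat_lit 260)),(k5,(nat_lit 433)),(k9,(nat_lit 443)),(k2,
    (nat_lit 485)),(k3,(nat_lit 485)),(k0,(nat_lit 552))],[(k8,(nat_lit 242)),(k10,(nat_lit 457)),(k11,(nat_lit 478)),
    (k7,(nat_lit 646)),(k1,(nat_lit 658)),(k4,(nat_lit 672))],[(k10,(nat_lit 242)),(k1,(nat_lit 443)),(k8,
    (nat_lit 468)),(k7,(nat_lit 620)),(k4,(nat_lit 646)),(k11,(nat_lit 704))],[(k0,(nat_lit 242)),(k9,(nat_lit 248)),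
    (k6,(nat_lit 254)),(k5,(nat_lit 260)),(k2,(nat_lit 290)),(k3,(nat_lit 290))],[(k9,(nat_lit 242)),(k6,
    (nat_lit 248)),(k0,(nat_lit 425)),(k5,(nat_lit 443)),(k2,(nat_lit 473)),(k3,(nat_lit 473))],[(k4,(nat_lit 242)),
    (k10,(nat_lit 279)),(k1,(nat_lit 291)),(k11,(nat_lit 300)),(k8,(nat_lit 358)),(k7,(nat_lit 468))],[(k11,
    (nat_lit 242)),(k10,(nat_lit 263)),(k1,(nat_lit 275)),(k8,(nat_lit 300)),(k4,(nat_lit 478)),(k7,(nat_lit 704))],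
    [(k7,(nat_lit 242)),(k10,(nat_lit 242)),(k1,(nat_lit 254)),(k11,(nat_lit 263)),(k8,(nat_lit 279)),(k4,
    (nat_lit 457))]]
    [[k1,k0,k0,k0,k1,k1],[k1,k0,k0,k1,k0,k2],[k1,k0,k0,k1,k0,k1],[k0,k0,k2,k0,k2,k0],[k0,k0,k1,k1,k0,k1],[k0,k0,k0,k1,
    k1,k1],[k0,k0,k0,k1,k1,k2],[k0,k0,k0,k2,k0,k2],[k0,k0,k0,k0,k2,k1],[k0,k0,k0,k0,k2,k2],[k0,k0,k0,k0,k0,k3],[k0,k0,
    k0,k0,k0,k4]]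
    [.ref k33 k0 [(z1,[z0,z1]),(z1,[z0,z0,z1]),(z1,[y6,z3,y2,y6,z6])],.ref k1 k0 [(z1,[z0,z1]),(z1,[z0,z0,z1]),(z1,
    [z2,y1])],.ref k34 k0 [(z1,[z0,z1]),(z1,[z0,z0,z1]),(z1,[z2,y1])],.contra [z1,z1,z0,y2],.ref k1 k0 [(z1,[z0,z1]),
    (z1,[z0,z0,z1]),(z1,[z2,z1,z0,y2])],.contra [z1,z0,z1,z1,y1],.ref k35 k0 [(z2,[y3,z3,y1,y3,z3]),(z1,[z0,z0,z1]),
    (z1,[y3,z0,y2,y6,z6])],.ref k36 k0 [(z1,[z0,z1]),(z1,[z0,z0,z1]),(z2,[z1])],.ref k33 k0 [(z1,[z0,z1]),(z1,[z0,z0,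
    z1]),(z1,[y3,z0,y2,y6,z6])],.ref k37 k0 [(z1,[z0,z1]),(z1,[z0,z0,z1]),(z2,[y3,z0,y2,y6,z6])],.ref k35 k0 [(z2,[y1,
    z3]),(z1,[z0,z0,z1]),(z1,[y1,z0,y1,y3,z3])],.ref k38 k0 [(z2,[y1,z4]),(z1,[z0,z0,z1]),(z2,[y3,z0,y4,y12,z12])]],
    .base (.geo z6 k5 [(z6,y3),(z4,z0),(z6,z3),(z4,y6),(z4,z0),(z0,z6)] [(z1,[z3]),(z1,[z0,z2]),(z1,[y3,z0,z0,z6]),
    (z1,[z0,z0,z2]),(z1,[z0,y2,y2,y6,z6]),(z1,[])] k6),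
    .base (.geo z4 k5 [(z4,y2),(z2,z0),(z4,z2),(z3,y4),(z3,z0),(z0,z4)] [(z1,[z2]),(z1,[z0,z2]),(z1,[y2,z0,z0,z4]),
    (z1,[z0,z0,z1]),(z1,[z0,y2,y1,y4,z4]),(z1,[])] k7),
    .base (.geo z6 k0 [(z5,z0),(z4,z0),(z7,z0),(z2,z0),(z4,z0),(z2,z0)] [(z1,[z1]),(z1,[z0,z2]),(z1,[y1,z0,z0,z0,z6]),
    (z1,[z0,z0,z2]),(z1,[z0,z0,z0,z2]),(z1,[z0,y2,y2,y2,y6,z6])] k1),
    .lp (nat_lit 257) [(nat_lit 214),k172,(nat_lit 274),k186,k164,k190] [k8,k52,k51,k51,k0,k0,k44,k44,k55,k55,k8,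
    k76] k0 [[k0,k0,k0,k0,k0,k0,k28,k100,k0,k0,k0,k0],[k0,k0,k0,k22,k0,k0,k0,k0,k0,k0,k0,k0],[k22,k0,k0,k0,k0,k0,k0,
    k0,k0,k0,k0,k0],[k0,k0,k0,k0,k0,k0,k28,k0,k0,k0,k0,k0],[k0,k0,k0,k0,k0,k0,k0,k0,k0,k0,k0,k0],[k0,k0,k0,k0,k0,k0,
    k0,k0,k0,k50,k0,k100],[k0,k100,k0,k0,k0,k0,k0,k64,k0,k0,k0,k0],[k0,k28,k28,k0,k0,k0,k0,k0,k0,k0,k0,k0],[k0,k0,k0,
    k0,k50,k0,k0,k0,k0,k0,k30,k0],[k0,k0,k0,k0,k0,k0,k0,k0,k0,k0,k18,k0],[k0,k0,k0,k0,k100,k0,k0,k0,k0,k0,k0,k0],[k0,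
    k0,k0,k0,k0,k0,k0,k0,k18,k30,k0,k0]] (nat_lit 600) k6
    [[(k11,k128),(k8,k137),(k1,k170),(k7,k178),(k10,(nat_lit 214)),(k4,(nat_lit 322))],[(k6,k122),(k9,k183),(k2,
    (nat_lit 215)),(k3,(nat_lit 215)),(k0,(nat_lit 258)),(k5,(nat_lit 288))],[(k2,k150),(k3,k172),(k6,(nat_lit 207)),
    (k0,(nat_lit 215)),(k5,(nat_lit 223)),(k9,(nat_lit 268))],[(k3,k150),(k9,k168),(k2,k172),(k6,(nat_lit 207)),(k0,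
    (nat_lit 215)),(k5,(nat_lit 223))],[(k9,k191),(k2,(nat_lit 223)),(k3,(nat_lit 223)),(k6,(nat_lit 230)),(k5,
    (nat_lit 274)),(k0,(nat_lit 288))],[(k8,(nat_lit 219)),(k7,(nat_lit 230)),(k11,(nat_lit 248)),(k10,(nat_lit 266)),
    (k4,(nat_lit 274)),(k1,(nat_lit 322))],[(k10,k122),(k8,k125),(k11,k154),(k1,k178),(k7,k186),(k4,(nat_lit 230))],
    [(k0,k122),(k6,k122),(k9,k175),(k2,(nat_lit 207)),(k3,(nat_lit 207)),(k5,(nat_lit 230))],[(k2,k168),(k6,k175),(k0,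
    k183),(k5,k191),(k9,(nat_lit 228)),(k3,(nat_lit 268))],[(k7,k125),(k1,k137),(k11,k143),(k8,k164),(k4,
    (nat_lit 219)),(k10,(nat_lit 229))],[(k11,k122),(k1,k128),(k8,k143),(k7,k154),(k10,(nat_lit 220)),(k4,
    (nat_lit 248))],[(k7,k122),(k1,(nat_lit 214)),(k11,(nat_lit 220)),(k8,(nat_lit 229)),(k10,(nat_lit 258)),(k4,
    (nat_lit 266))]]
    [[k1,k1,k0,k0,k1,k0],[k1,k0,k0,k1,k0,k1],[k1,k0,k0,k0,k1,k1],[k1,k0,k0,k1,k0,k2],[k0,k3,k0,k0,k0,k0],[k0,k1,k0,k1,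
    k1,k0],[k0,k0,k0,k2,k0,k1],[k0,k0,k0,k1,k1,k1],[k0,k0,k0,k2,k0,k2]]
    [.ref k21 k0 [(z1,[z2,z1,z0,z1,z2,y2]),(z1,[z2,y1,z2,z1,z2,y2]),(z1,[z2,y1,z0,z3,z2,y2]),(z1,[y2,z1,y4,y3,y6,
    z6])],.contra [y4,z2,z0,z2,z1],.ref k21 k0 [(z1,[y2,z3,y2,y1,y2,z2]),(z1,[y2,z1,z0,y1,y2,z2]),(z1,[y2,z1,y2,z1,y2,
    z2]),(z1,[z2,y1,y2,y1,y2,z2])],.ref k21 k0 [(z1,[y2,z3,z0,z1]),(z1,[y2,z1,z2,z1]),(z1,[y2,z1,z0,z3]),(z1,[z2,y1,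
    y4,y3,y4,z4])],.ref k42 k0 [(z1,[z1,z3,y3]),(z1,[z1]),(z2,[z1,z0,y3,z3]),(z2,[y1,z0,y3,y3,y6,z6])],.contra [z1,z1,
    z0,z0,z1,y1],.contra [y2,z0,z0,z2,z1],.contra [z1,z0,y1,y1,y1,z1],.contra [z1,z0,y2,y2,y2,z2]],
    .lp (nat_lit 257) [k116,k100,k118,k82,k84,k100] [k1,k1,k9,k9,k0,k0,k24,k12,k13,k21,k9,k9] k0 [[k0,k0,k0,k0,k0,k0,
    k5,k32,k0,k0,k0,k0],[k0,k0,k0,k39,k0,k0,k0,k0,k0,k0,k0,k0],[k39,k0,k0,k0,k0,k0,k0,k0,k0,k0,k0,k0],[k0,k0,k0,k0,k0,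
    k0,k2,k0,k0,k0,k0,k0],[k0,k0,k0,k0,k0,k29,k0,k0,k0,k0,k0,k0],[k0,k0,k0,k0,k0,k0,k0,k0,k0,k32,k0,k32],[k0,k32,k0,
    k0,k0,k0,k0,k0,k0,k0,k0,k0],[k0,k5,k2,k0,k0,k0,k0,k0,k0,k0,k0,k0],[k0,k0,k0,k0,k32,k0,k0,k0,k0,k0,k0,k0],[k0,k0,
    k0,k0,k0,k0,k0,k0,k0,k0,k32,k0],[k0,k0,k0,k0,k32,k0,k0,k0,k0,k0,k0,k0],[k0,k0,k0,k0,k0,k0,k0,k0,k32,k0,k0,
    k0]] (nat_lit 300) k6
    [[(k11,k76),(k8,k104),(k7,k105),(k10,k108),(k1,k116),(k4,k149)],[(k6,k61),(k9,k91),(k2,k108),(k3,k108),(k0,k116),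
    (k5,k156)],[(k2,k61),(k6,k90),(k3,k100),(k0,k108),(k5,k109),(k9,k120)],[(k3,k61),(k6,k87),(k9,k88),(k2,k100),(k0,
    k108),(k5,k109)],[(k6,k94),(k9,k95),(k2,k109),(k3,k109),(k5,k118),(k0,k156)],[(k4,k89),(k8,k105),(k7,k106),(k10,
    k109),(k11,k141),(k1,k149)],[(k8,k61),(k10,k65),(k11,k97),(k1,k105),(k4,k106),(k7,k123)],[(k0,k61),(k6,k70),(k9,
    k73),(k2,k87),(k3,k90),(k5,k94)],[(k6,k73),(k9,k76),(k2,k88),(k0,k91),(k5,k95),(k3,k120)],[(k7,k61),(k8,k92),(k11,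
    k96),(k1,k104),(k4,k105),(k10,k128)],[(k1,k76),(k8,k96),(k7,k97),(k10,k100),(k11,k100),(k4,k141)],[(k7,k65),(k10,
    k100),(k11,k100),(k1,k108),(k4,k109),(k8,k128)]]
    [[k1,k0,k0,k1,k0,k1],[k1,k0,k0,k0,k1,k1],[k0,k3,k0,k0,k0,k0],[k0,k4,k0,k0,k0,k0],[k0,k1,k0,k1,k1,k0],[k0,k0,k0,k2,
    k2,k0],[k0,k0,k0,k2,k0,k1],[k0,k0,k0,k1,k1,k1]]
    [.contra [y2,z1,y1,y2,z2],.ref k26 k0 [(z1,[z0,z1]),(z1,[y2,z1,z1]),(z1,[z2,y1,y2,y2,z2])],.ref k40 k0 [(z1,[z0,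
    z1]),(z1,[z1]),(z2,[y1,z0,y3,y6,z6])],.ref k41 k0 [(z1,[z0,z1]),(z2,[z1]),(z2,[y1,z0,y4,y8,z8])],.contra [z1,z1,
    z0,z1,y1],.ref k43 k0 [(z1,[z0,z1]),(z2,[y1,z0,z0,y2,z2]),(z2,[z1,z0,y2,y2,z2])],.contra [y1,z0,y1,y2,z2],
    .contra [z1,z0,z1,z1,y1]],
    .base (.leafM k3 [k1,k2,k3,k4,k5,k0] [(z6,[y1,y2,y1,z0,z0,z6])] []),
    .base (.geo z6 k0 [(z4,z0),(z4,z0),(z8,z0),(z1,z0),(z3,z0),(z4,z0)] [(z1,[z2]),(z1,[z0,z2]),(z1,[y2,z0,z0,z0,z6]),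
    (z1,[z0,z0,z1]),(z1,[z0,z0,z0,z3]),(z1,[z0,y2,y1,y3,y6,z6])] k1),
    .base (.leafM k9 [k5,k1,k3,k4] [(z1,[z0,z1]),(z1,[z0,z0,z0,z1]),(z2,[z0,y1,z0,y1,y2,z2])] [(k0,k2,z1,[z0,z0,z0,z0,
    z1]),(k2,k0,z1,[z0,z0,z0,z0,z1])])]

theorem hB6_137_3 : blkB [0, 0, 1, 0, 1, 1] [(0, 2)] sp6 hS6_137 (pcls (n := 6) [0, 0, 1, 0, 1, 1]) hD6_137 87 3 hN6_137_3 = true := by
  decide +kernel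

/-- nodes 48 to 59 -/
noncomputable def hN6_137_4 : List HM :=
  [.lp (nat_lit 257) [(nat_lit 224),k186,(nat_lit 322),k168,k150,k150] [k49,k49,k68,k68,k0,k0,k77,k77,k86,k86,k86,
    k86] k0 [[k0,k0,k0,k16,k0,k0,k56,k74,k0,k0,k0,k0],[k2,k0,k0,k64,k0,k0,k0,k0,k0,k0,k0,k0],[k64,k16,k0,k0,k0,k0,k0,
    k0,k0,k0,k0,k0],[k0,k0,k0,k0,k0,k0,k22,k40,k0,k0,k0,k0],[k0,k0,k0,k0,k0,k0,k0,k0,k0,k114,k0,k0],[k0,k0,k0,k0,k0,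
    k0,k0,k0,k0,k0,k0,k0],[k0,k74,k40,k0,k0,k0,k0,k0,k0,k0,k0,k0],[k0,k56,k22,k0,k0,k0,k0,k0,k0,k0,k0,k0],[k0,k0,k0,
    k0,k0,k114,k0,k0,k0,k0,k0,k0],[k0,k0,k0,k0,k0,k0,k0,k0,k0,k0,k0,k0],[k0,k0,k0,k0,k0,k0,k0,k0,k0,k0,k0,k0],[k0,k0,
    k0,k0,k0,k0,k0,k0,k0,k0,k0,k0]] (nat_lit 600) k6
    [[(k8,k187),(k10,k187),(k11,k187),(k7,k196),(k1,(nat_lit 224)),(k4,(nat_lit 273))],[(k6,k122),(k9,k131),(k2,k189),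
    (k3,(nat_lit 205)),(k0,(nat_lit 226)),(k5,(nat_lit 337))],[(k2,k122),(k3,k184),(k0,(nat_lit 205)),(k6,
    (nat_lit 233)),(k9,(nat_lit 242)),(k5,(nat_lit 270))],[(k3,k122),(k2,k186),(k0,k189),(k6,k199),(k9,(nat_lit 208)),
    (k5,(nat_lit 254))],[(k6,(nat_lit 205)),(k9,(nat_lit 214)),(k2,(nat_lit 254)),(k3,(nat_lit 270)),(k5,
    (nat_lit 322)),(k0,(nat_lit 337))],[(k8,k122),(k10,(nat_lit 236)),(k11,(nat_lit 236)),(k7,(nat_lit 245)),(k1,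
    (nat_lit 273)),(k4,(nat_lit 322))],[(k8,k159),(k10,k159),(k7,k168),(k1,k196),(k4,(nat_lit 245)),(k11,
    (nat_lit 273))],[(k0,k122),(k9,k159),(k6,k168),(k2,k199),(k5,(nat_lit 205)),(k3,(nat_lit 233))],[(k0,k131),(k9,
    k150),(k6,k159),(k2,(nat_lit 208)),(k5,(nat_lit 214)),(k3,(nat_lit 242))],[(k4,k122),(k8,k150),(k10,k150),(k11,
    k150),(k7,k159),(k1,k187)],[(k8,k150),(k10,k150),(k11,k150),(k1,k187),(k4,(nat_lit 236)),(k7,(nat_lit 273))],[(k8,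
    k150),(k10,k150),(k11,k150),(k7,k159),(k1,k187),(k4,(nat_lit 236))]]
    [[k1,k0,k0,k1,k0,k1],[k1,k0,k0,k0,k1,k1],[k0,k3,k0,k0,k0,k0],[k0,k4,k0,k0,k0,k0],[k0,k0,k0,k1,k1,k1],[k0,k0,k0,k0,
    k2,k1],[k0,k0,k0,k0,k0,k3]]
    [.ref k45 k0 [(z1,[z2,z2,z0,y1]),(z1,[y2,z1,z3,z1]),(z1,[z8,y4,z0,y1]),(z1,[z0,z0,y2,y1,y2,z2])],.contra [z2,y1,
    z3,z1,z2,y2],.ref k46 k0 [(z2,[y1,z3,z3]),(z1,[z1]),(z1,[y4,z0,z12,z3]),(z1,[z0,z0,y2,y1,y2,z2])],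
    .ref k47 k0 [(z2,[y1,z4,z4]),(z2,[z1]),(z1,[y1,z0,z4,z1]),(z1,[z0,z0,y2,y1,y2,z2])],.contra [z1,z1,z1,z0,z1,y1],
    .contra [z1,z0,z3,z1,z2,y2],.ref k46 k0 [(z2,[y1,z3]),(z1,[z1,z0,z3]),(z1,[y4,z0,z0,z3]),(z1,[z0,z0,y2,y1,y2,
    z2])]],
    .base (.geo z2 k5 [(z2,y1),(z1,z1),(z2,z1),(z2,y3),(z1,z0),(z0,z2)] [(z1,[z1]),(z1,[z0,z1]),(z1,[y1,z0,z0,z2]),
    (z1,[z0,z0,z1]),(z1,[z0,y1,y1,y2,z2]),(z1,[])] k6),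
    .base (.leafM k3 [k2,k3,k4,k5,k0,k1] [(z2,[z1,z0,z1])] []),
    .base (.geo z6 k5 [(z6,y3),(z4,z0),(z6,z3),(z5,y6),(z3,z0),(z0,z6)] [(z1,[z3]),(z1,[z0,z2]),(z1,[y3,z0,z0,z6]),
    (z1,[z0,z0,z1]),(z1,[z0,y2,y1,y6,z6]),(z1,[])] k6),
    .base (.leafM k9 [k5,k1,k3,k4] [(z1,[z0,z1]),(z1,[z0,y1,y2,y2,z2]),(z1,[z0,z0,z1])] [(k0,k2,z1,[z0,z0,z0,z1]),(k2,
    k0,z1,[z0,z0,z0,z1])]),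
    .lp (nat_lit 257) [(nat_lit 800),(nat_lit 568),(nat_lit 1190),(nat_lit 916),(nat_lit 526),(nat_lit 800)] [k195,
    k195,(nat_lit 311),(nat_lit 311),k0,k0,k137,k137,(nat_lit 332),(nat_lit 332),k195,k195] k0 [[k0,k0,k0,k0,k0,k0,k0,
    (nat_lit 298),k0,k0,k0,k0],[k0,k0,k0,k84,k0,k0,k0,k0,k0,k0,k0,k0],[k84,k0,k0,k0,k0,k0,k0,k0,k0,k0,k0,k0],[k0,k0,
    k0,k0,k0,k0,k0,(nat_lit 230),k0,k0,k0,k0],[k0,k0,k0,k0,k0,k0,k0,k0,k0,k114,k0,k116],[k0,k0,k0,k0,k0,k0,k0,k0,k0,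
    k70,k0,(nat_lit 346)],[k0,(nat_lit 298),(nat_lit 230),k0,k0,k0,k0,k0,k0,k0,k0,k0],[k0,k0,k0,k0,k0,k0,k0,k0,k0,k0,
    k0,k0],[k0,k0,k0,k0,k70,k114,k0,k0,k0,k0,k0,k0],[k0,k0,k0,k0,k0,k0,k0,k0,(nat_lit 252),k0,k0,k0],[k0,k0,k0,k0,
    (nat_lit 346),k116,k0,k0,k0,k0,k0,k0],[k0,k0,k0,k0,k0,k0,k0,k0,k0,k0,(nat_lit 252),k0]] (nat_lit 2400) k6
    [[(k1,(nat_lit 548)),(k8,(nat_lit 663)),(k10,(nat_lit 800)),(k11,(nat_lit 800)),(k7,(nat_lit 974)),(k4,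
    (nat_lit 1341))],[(k6,(nat_lit 560)),(k9,(nat_lit 663)),(k2,(nat_lit 684)),(k3,(nat_lit 684)),(k0,(nat_lit 800)),
    (k5,(nat_lit 1079))],[(k2,(nat_lit 484)),(k3,(nat_lit 568)),(k0,(nat_lit 684)),(k6,(nat_lit 742)),(k9,
    (nat_lit 845)),(k5,(nat_lit 879))],[(k3,(nat_lit 484)),(k2,(nat_lit 568)),(k0,(nat_lit 684)),(k6,(nat_lit 742)),
    (k9,(nat_lit 777)),(k5,(nat_lit 879))],[(k6,(nat_lit 823)),(k9,(nat_lit 858)),(k2,(nat_lit 879)),(k3,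
    (nat_lit 879)),(k0,(nat_lit 1079)),(k5,(nat_lit 1190))],[(k8,(nat_lit 744)),(k10,(nat_lit 879)),(k7,
    (nat_lit 1053)),(k11,(nat_lit 1065)),(k4,(nat_lit 1190)),(k1,(nat_lit 1341))],[(k10,(nat_lit 512)),(k8,
    (nat_lit 651)),(k7,(nat_lit 916)),(k11,(nat_lit 972)),(k1,(nat_lit 974)),(k4,(nat_lit 1053))],[(k0,(nat_lit 560)),
    (k9,(nat_lit 721)),(k2,(nat_lit 742)),(k3,(nat_lit 742)),(k5,(nat_lit 823)),(k6,(nat_lit 916))],[(k9,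
    (nat_lit 526)),(k0,(nat_lit 663)),(k6,(nat_lit 721)),(k2,(nat_lit 777)),(k3,(nat_lit 845)),(k5,(nat_lit 858))],
    [(k7,(nat_lit 651)),(k1,(nat_lit 663)),(k10,(nat_lit 663)),(k11,(nat_lit 663)),(k4,(nat_lit 744)),(k8,
    (nat_lit 778))],[(k11,(nat_lit 548)),(k8,(nat_lit 663)),(k1,(nat_lit 800)),(k10,(nat_lit 800)),(k7,(nat_lit 972)),
    (k4,(nat_lit 1065))],[(k7,(nat_lit 512)),(k8,(nat_lit 663)),(k1,(nat_lit 800)),(k11,(nat_lit 800)),(k4,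
    (nat_lit 879)),(k10,(nat_lit 1052))]]
    [[k2,k1,k0,k0,k0,k0],[k1,k1,k0,k0,k1,k0],[k1,k0,k0,k1,k0,k1],[k1,k0,k0,k0,k1,k1],[k0,k3,k0,k0,k0,k0],[k0,k4,k0,k0,
    k0,k0],[k0,k1,k0,k1,k1,k0],[k0,k0,k0,k1,k1,k1],[k0,k0,k0,k0,k2,k1]]
    [.ref k48 k0 [(z1,[z0,z1]),(z1,[z1,y1]),(z1,[y2,z2,z1])],.ref k49 k0 [(z1,[z0,z1]),(z1,[z2,y1,z1,z2,y2]),(z1,[y2,
    z1,z0,y2,z2])],.ref k50 k0 [(z1,[z0,z1]),(z1,[y2,z1,z1]),(z1,[z2,y1])],.contra [z2,y1,z1,z2,y2],.ref k51 k0 [(z1,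
    [z0,z1]),(z1,[z1]),(z1,[y2,z0,z3])],.ref k52 k0 [(z1,[z0,z1]),(z2,[z1]),(z4,[y1,z0,z2])],.contra [z1,z1,z0,z1,y1],
    .contra [y1,z0,z0,y1,z1],.contra [z1,z0,z1,z2,y2]],
    .lp (nat_lit 257) [(nat_lit 600),(nat_lit 600),(nat_lit 840),(nat_lit 600),(nat_lit 360),(nat_lit 600)] [k120,
    k120,k120,k120,k0,k0,k126,k114,(nat_lit 235),(nat_lit 245),k120,k120] k0 [[k0,k0,k0,k0,k0,k0,k0,k30,k0,k0,k0,k0],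
    [k0,k0,k0,k150,k0,k0,k0,k0,k0,k0,k0,k0],[k150,k0,k0,k0,k0,k0,k0,k0,k0,k0,k0,k0],[k0,k0,k0,k0,k0,k0,k0,k0,k0,k0,k0,
    k0],[k0,k0,k0,k0,k0,k0,k0,k0,k0,k0,k0,k0],[k0,k0,k0,k0,k0,k0,k0,k0,k0,k0,k0,(nat_lit 240)],[k0,k30,k0,k0,k0,k0,k0,
    k120,k0,k0,k0,k0],[k0,k0,k0,k0,k0,k0,k0,k0,k0,k0,k0,k0],[k0,k0,k0,k0,k0,k0,k0,k0,k0,k0,k0,k0],[k0,k0,k0,k0,k0,k0,
    k0,k0,k0,k0,k0,k0],[k0,k0,k0,k0,(nat_lit 240),k0,k0,k0,k0,k0,k0,k0],[k0,k0,k0,k0,k0,k0,k0,k0,k0,k0,k0,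
    k0]] (nat_lit 1800) k6
    [[(k8,(nat_lit 485)),(k1,(nat_lit 600)),(k10,(nat_lit 600)),(k11,(nat_lit 600)),(k7,(nat_lit 606)),(k4,
    (nat_lit 960))],[(k9,(nat_lit 475)),(k6,(nat_lit 564)),(k0,(nat_lit 600)),(k2,(nat_lit 600)),(k3,(nat_lit 600)),
    (k5,(nat_lit 870))],[(k2,(nat_lit 450)),(k9,(nat_lit 505)),(k6,(nat_lit 594)),(k0,(nat_lit 600)),(k3,
    (nat_lit 600)),(k5,(nat_lit 720))],[(k3,(nat_lit 450)),(k9,(nat_lit 475)),(k6,(nat_lit 594)),(k0,(nat_lit 600)),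
    (k2,(nat_lit 600)),(k5,(nat_lit 720))],[(k9,(nat_lit 595)),(k6,(nat_lit 714)),(k2,(nat_lit 720)),(k3,
    (nat_lit 720)),(k5,(nat_lit 840)),(k0,(nat_lit 870))],[(k8,(nat_lit 605)),(k10,(nat_lit 720)),(k11,(nat_lit 720)),
    (k7,(nat_lit 726)),(k4,(nat_lit 840)),(k1,(nat_lit 960))],[(k10,(nat_lit 366)),(k8,(nat_lit 491)),(k1,
    (nat_lit 606)),(k11,(nat_lit 606)),(k7,(nat_lit 612)),(k4,(nat_lit 726))],[(k6,(nat_lit 468)),(k9,(nat_lit 469)),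
    (k0,(nat_lit 564)),(k2,(nat_lit 594)),(k3,(nat_lit 594)),(k5,(nat_lit 714))],[(k6,(nat_lit 469)),(k9,
    (nat_lit 470)),(k0,(nat_lit 475)),(k2,(nat_lit 475)),(k3,(nat_lit 505)),(k5,(nat_lit 595))],[(k8,(nat_lit 370)),
    (k1,(nat_lit 485)),(k10,(nat_lit 485)),(k11,(nat_lit 485)),(k7,(nat_lit 491)),(k4,(nat_lit 605))],[(k8,
    (nat_lit 485)),(k1,(nat_lit 600)),(k10,(nat_lit 600)),(k11,(nat_lit 600)),(k7,(nat_lit 606)),(k4,(nat_lit 720))],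
    [(k7,(nat_lit 366)),(k8,(nat_lit 485)),(k1,(nat_lit 600)),(k10,(nat_lit 600)),(k11,(nat_lit 600)),(k4,
    (nat_lit 720))]]
    [[k1,k1,k0,k0,k1,k0],[k1,k0,k0,k1,k0,k1],[k1,k0,k0,k0,k1,k1],[k0,k3,k0,k0,k0,k0],[k0,k1,k0,k1,k1,k0],[k0,k1,k0,k0,
    k2,k0],[k0,k0,k0,k2,k0,k1],[k0,k0,k0,k1,k1,k1],[k0,k0,k0,k0,k4,k0],[k0,k0,k0,k0,k2,k1]]
    [.ref k30 k0 [(z1,[z0,z1]),(z1,[z2,y1])],.ref k31 k0 [(z1,[z0,z1]),(z1,[y2,z1,y2,z2])],.ref k32 k0 [(z1,[z0,z1]),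
    (z1,[y2,z1,y2,z2])],.ref k39 k0 [(z1,[z0,z1]),(z1,[z1])],.contra [z1,z1,z1,y1],.ref k44 k0 [(z1,[z0,z1]),(z1,
    [z1])],.ref k31 k0 [(z1,[z0,z1]),(z1,[y1,z0,y2,z2])],.contra [y1,z0,y1,z1],.ref k53 k0 [(z1,[z0,z1]),(z2,[y1,z0,
    y4,z4])],.ref k32 k0 [(z1,[z0,z1]),(z1,[y1,z0,y2,z2])]],
    .base (.leafM k0 [k0,k1,k2,k3,k4,k5] [(z1,[y1,z0,z1])] []),
    .base (.leafM k3 [k2,k3,k4,k5,k0,k1] [(z1,[z1])] []),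
    .base (.leafM k1 [k5,k0,k1,k3] [] [(k2,k4,z1,[y1,z1]),(k4,k2,z1,[y1,z1])]),
    .base (.leafM k3 [k2,k3,k4,k5,k0,k1] [(z6,[z1,z0,z1])] []),
    .base (.geo z6 k5 [(z4,z3),(z4,z0),(z8,y3),(z6,y3),(z2,y3),(z0,z6)] [(z1,[z1]),(z1,[z0,z2]),(z1,[y1,z0,z0,z6]),
    (z1,[z0,z0,z3]),(z1,[z0,y2,y3,y6,z6]),(z1,[])] k6)]

theorem hB6_137_4 : blkB [0, 0, 1, 0, 1, 1] [(0, 2)] sp6 hS6_137 (pcls (n := 6) [0, 0, 1, 0, 1, 1]) hD6_137 87 4 hN6_137_4 = true := by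
  decide +kernel

/-- nodes 60 to 71 -/
noncomputable def hN6_137_5 : List HM :=
  [.base (.leafM k8 [k5,k1,k3,k4] [(z1,[z0,z1]),(z1,[z0,y1,y3,y3,z3]),(z1,[z0,z0,z1])] [(k0,k2,z1,[z0,z0,z0,z1]),(k2,
    k0,z1,[z0,z0,z0,z1])]),
    .lp (nat_lit 257) [(nat_lit 306),(nat_lit 588),(nat_lit 306),(nat_lit 306),(nat_lit 306),
    (nat_lit 588)] [(nat_lit 314),(nat_lit 314),k173,k173,(nat_lit 314),(nat_lit 314),(nat_lit 346),(nat_lit 282),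
    (nat_lit 314),(nat_lit 314),k0,(nat_lit 346)] k0 [[k0,k0,k0,k0,k0,k0,k0,k0,k0,k0,k0,k0],[k0,k0,k0,k188,k0,k0,k0,
    k0,k0,k0,k0,k0],[k188,k0,k0,k0,k0,k0,k0,k0,k0,k0,k0,k0],[k0,k0,k0,k0,k0,k0,k0,k0,k0,k0,k0,k0],[k0,k0,k0,k0,k0,k0,
    k0,k0,k0,k0,k0,k0],[k0,k0,k0,k0,k0,k0,k0,k0,k0,k0,k0,(nat_lit 410)],[k0,k0,k0,k0,k0,k0,k0,k0,k0,k0,k0,k0],[k0,k0,
    k0,k0,k0,k0,k0,k0,k0,k0,k0,k0],[k0,k0,k0,k0,k0,k0,k0,k0,k0,k0,k0,k0],[k0,k0,k0,k0,k0,k0,k0,k0,k0,k0,k0,k0],[k0,k0,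
    k0,k0,(nat_lit 410),k0,k0,k0,k0,k0,k0,k0],[k0,k0,k0,k0,k0,k0,k0,k0,k0,k0,k0,k0]] (nat_lit 1200) k6
    [[(k11,(nat_lit 274)),(k1,(nat_lit 306)),(k8,(nat_lit 306)),(k7,(nat_lit 338)),(k10,(nat_lit 620)),(k4,
    (nat_lit 716))],[(k6,(nat_lit 274)),(k0,(nat_lit 306)),(k9,(nat_lit 306)),(k2,(nat_lit 447)),(k3,(nat_lit 447)),
    (k5,(nat_lit 494))],[(k2,(nat_lit 400)),(k6,(nat_lit 415)),(k0,(nat_lit 447)),(k5,(nat_lit 447)),(k9,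
    (nat_lit 447)),(k3,(nat_lit 588))],[(k3,(nat_lit 400)),(k6,(nat_lit 415)),(k0,(nat_lit 447)),(k5,(nat_lit 447)),
    (k9,(nat_lit 447)),(k2,(nat_lit 588))],[(k6,(nat_lit 274)),(k5,(nat_lit 306)),(k9,(nat_lit 306)),(k2,
    (nat_lit 447)),(k3,(nat_lit 447)),(k0,(nat_lit 494))],[(k11,(nat_lit 274)),(k4,(nat_lit 306)),(k8,(nat_lit 306)),
    (k7,(nat_lit 338)),(k10,(nat_lit 620)),(k1,(nat_lit 716))],[(k10,(nat_lit 242)),(k11,(nat_lit 306)),(k1,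
    (nat_lit 338)),(k4,(nat_lit 338)),(k8,(nat_lit 338)),(k7,(nat_lit 370))],[(k6,(nat_lit 242)),(k0,(nat_lit 274)),
    (k5,(nat_lit 274)),(k9,(nat_lit 274)),(k2,(nat_lit 415)),(k3,(nat_lit 415))],[(k6,(nat_lit 274)),(k0,
    (nat_lit 306)),(k5,(nat_lit 306)),(k9,(nat_lit 306)),(k2,(nat_lit 447)),(k3,(nat_lit 447))],[(k11,(nat_lit 274)),
    (k1,(nat_lit 306)),(k4,(nat_lit 306)),(k8,(nat_lit 306)),(k7,(nat_lit 338)),(k10,(nat_lit 620))],[(k11,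
    (nat_lit 242)),(k1,(nat_lit 274)),(k4,(nat_lit 274)),(k8,(nat_lit 274)),(k7,(nat_lit 306)),(k10,(nat_lit 588))],
    [(k7,(nat_lit 242)),(k11,(nat_lit 588)),(k1,(nat_lit 620)),(k4,(nat_lit 620)),(k8,(nat_lit 620)),(k10,
    (nat_lit 934))]]
    [[k1,k0,k0,k1,k0,k1],[k0,k0,k1,k1,k0,k1],[k0,k0,k0,k2,k0,k1],[k0,k0,k0,k1,k1,k1],[k0,k0,k0,k2,k0,k2]]
    [.ref k58 k0 [(z1,[z3,z3,z1,z3,y3]),(z1,[z0,z0,z1]),(z1,[z3,y3,y1,y3,z3])],.contra [y1,y1,z0,z0,z1],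
    .ref k59 k0 [(z1,[z3,z6,z2,z6,y6]),(z1,[z0,z0,z1]),(z1,[z1])],.contra [z1,z0,z1,z1,y1],.ref k60 k0 [(z2,[z3,z6,z2,
    z6,y6]),(z1,[z0,z0,z1]),(z2,[z1])]],
    .base (.leafM k0 [k0,k1,k2,k3,k4,k5] [(z1,[y1,z0,z0,z1])] []),
    .base (.spec k7 false k0 [(z1,[z0,z0,z0,z1]),(z1,[z1]),(z1,[z0,z1]),(z1,[z0,z0,z1]),(z1,[z0,y2,y3,y6,z6])]),
    .base (.leafM k8 [k5,k1,k3,k4] [(z1,[z0,z1]),(z1,[z0,y1,y3,y3,z3]),(z1,[z0,z0,z1])] [(k0,k2,z1,[z0,z0,z0,z1]),(k2,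
    k0,z1,[z0,z0,z0,z1])]),
    .lp (nat_lit 257) [(nat_lit 306),(nat_lit 588),(nat_lit 306),(nat_lit 306),(nat_lit 306),
    (nat_lit 588)] [(nat_lit 314),(nat_lit 314),k173,k173,(nat_lit 314),(nat_lit 314),(nat_lit 346),(nat_lit 282),
    (nat_lit 314),(nat_lit 314),k0,(nat_lit 346)] k0 [[k0,k0,k0,k0,k0,k0,k0,k0,k0,k0,k0,k0],[k0,k0,k0,k188,k0,k0,k0,
    k0,k0,k0,k0,k0],[k188,k0,k0,k0,k0,k0,k0,k0,k0,k0,k0,k0],[k0,k0,k0,k0,k0,k0,k0,k0,k0,k0,k0,k0],[k0,k0,k0,k0,k0,k0,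
    k0,k0,k0,k0,k0,k0],[k0,k0,k0,k0,k0,k0,k0,k0,k0,k0,k0,(nat_lit 410)],[k0,k0,k0,k0,k0,k0,k0,k0,k0,k0,k0,k0],[k0,k0,
    k0,k0,k0,k0,k0,k0,k0,k0,k0,k0],[k0,k0,k0,k0,k0,k0,k0,k0,k0,k0,k0,k0],[k0,k0,k0,k0,k0,k0,k0,k0,k0,k0,k0,k0],[k0,k0,
    k0,k0,(nat_lit 410),k0,k0,k0,k0,k0,k0,k0],[k0,k0,k0,k0,k0,k0,k0,k0,k0,k0,k0,k0]] (nat_lit 1200) k6
    [[(k11,(nat_lit 274)),(k1,(nat_lit 306)),(k8,(nat_lit 306)),(k7,(nat_lit 338)),(k10,(nat_lit 620)),(k4,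
    (nat_lit 716))],[(k6,(nat_lit 274)),(k0,(nat_lit 306)),(k9,(nat_lit 306)),(k2,(nat_lit 447)),(k3,(nat_lit 447)),
    (k5,(nat_lit 494))],[(k2,(nat_lit 400)),(k6,(nat_lit 415)),(k0,(nat_lit 447)),(k5,(nat_lit 447)),(k9,
    (nat_lit 447)),(k3,(nat_lit 588))],[(k3,(nat_lit 400)),(k6,(nat_lit 415)),(k0,(nat_lit 447)),(k5,(nat_lit 447)),
    (k9,(nat_lit 447)),(k2,(nat_lit 588))],[(k6,(nat_lit 274)),(k5,(nat_lit 306)),(k9,(nat_lit 306)),(k2,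
    (nat_lit 447)),(k3,(nat_lit 447)),(k0,(nat_lit 494))],[(k11,(nat_lit 274)),(k4,(nat_lit 306)),(k8,(nat_lit 306)),
    (k7,(nat_lit 338)),(k10,(nat_lit 620)),(k1,(nat_lit 716))],[(k10,(nat_lit 242)),(k11,(nat_lit 306)),(k1,
    (nat_lit 338)),(k4,(nat_lit 338)),(k8,(nat_lit 338)),(k7,(nat_lit 370))],[(k6,(nat_lit 242)),(k0,(nat_lit 274)),
    (k5,(nat_lit 274)),(k9,(nat_lit 274)),(k2,(nat_lit 415)),(k3,(nat_lit 415))],[(k6,(nat_lit 274)),(k0,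
    (nat_lit 306)),(k5,(nat_lit 306)),(k9,(nat_lit 306)),(k2,(nat_lit 447)),(k3,(nat_lit 447))],[(k11,(nat_lit 274)),
    (k1,(nat_lit 306)),(k4,(nat_lit 306)),(k8,(nat_lit 306)),(k7,(nat_lit 338)),(k10,(nat_lit 620))],[(k11,
    (nat_lit 242)),(k1,(nat_lit 274)),(k4,(nat_lit 274)),(k8,(nat_lit 274)),(k7,(nat_lit 306)),(k10,(nat_lit 588))],
    [(k7,(nat_lit 242)),(k11,(nat_lit 588)),(k1,(nat_lit 620)),(k4,(nat_lit 620)),(k8,(nat_lit 620)),(k10,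
    (nat_lit 934))]]
    [[k1,k0,k0,k1,k0,k1],[k0,k0,k1,k1,k0,k1],[k0,k0,k0,k2,k0,k1],[k0,k0,k0,k1,k1,k1],[k0,k0,k0,k2,k0,k2]]
    [.contra [y3,z1,y1,y3,z3],.ref k1 k0 [(z3,[y3,z1,y1,z0,z3]),(z1,[z0,z0,z1]),(z3,[z3,z1,y1,y6,z3])],
    .ref k63 k0 [(z3,[y3,z2,y2,y6,z6]),(z1,[z0,z0,z1]),(z1,[z1])],.contra [z1,z0,z1,z1,y1],.ref k64 k0 [(z6,[y3,z2,y2,
    y6,z6]),(z1,[z0,z0,z1]),(z2,[z1])]],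
    .base (.leafM k3 [k2,k3,k4,k5,k0,k1] [(z3,[z1,y1,y3,z3])] []),
    .base (.leafM k1 [k5,k0,k1,k3] [] [(k2,k4,z1,[y1,z0,z1]),(k4,k2,z1,[y1,z0,z1])]),
    .base (.leafM k8 [k5,k1,k3,k4] [(z1,[z1]),(z1,[y1,y3,y3,z3]),(z1,[z0,z1])] [(k0,k2,z1,[z0,z0,z1]),(k2,k0,z1,[z0,
    z0,z1])]),
    .base (.leafM k3 [k2,k3,k4,k5,k0,k1] [(z6,[z1,z0,z1])] []),
    .lp (nat_lit 257) [(nat_lit 306),(nat_lit 588),(nat_lit 306),(nat_lit 306),(nat_lit 306),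
    (nat_lit 588)] [(nat_lit 314),(nat_lit 314),k173,k173,(nat_lit 314),(nat_lit 314),(nat_lit 346),(nat_lit 282),
    (nat_lit 314),(nat_lit 314),k0,(nat_lit 346)] k0 [[k0,k0,k0,k0,k0,k0,k0,k0,k0,k0,k0,k0],[k0,k0,k0,k188,k0,k0,k0,
    k0,k0,k0,k0,k0],[k188,k0,k0,k0,k0,k0,k0,k0,k0,k0,k0,k0],[k0,k0,k0,k0,k0,k0,k0,k0,k0,k0,k0,k0],[k0,k0,k0,k0,k0,k0,
    k0,k0,k0,k0,k0,k0],[k0,k0,k0,k0,k0,k0,k0,k0,k0,k0,k0,(nat_lit 410)],[k0,k0,k0,k0,k0,k0,k0,k0,k0,k0,k0,k0],[k0,k0,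
    k0,k0,k0,k0,k0,k0,k0,k0,k0,k0],[k0,k0,k0,k0,k0,k0,k0,k0,k0,k0,k0,k0],[k0,k0,k0,k0,k0,k0,k0,k0,k0,k0,k0,k0],[k0,k0,
    k0,k0,(nat_lit 410),k0,k0,k0,k0,k0,k0,k0],[k0,k0,k0,k0,k0,k0,k0,k0,k0,k0,k0,k0]] (nat_lit 1200) k6
    [[(k11,(nat_lit 274)),(k1,(nat_lit 306)),(k8,(nat_lit 306)),(k7,(nat_lit 338)),(k10,(nat_lit 620)),(k4,
    (nat_lit 716))],[(k6,(nat_lit 274)),(k0,(nat_lit 306)),(k9,(nat_lit 306)),(k2,(nat_lit 447)),(k3,(nat_lit 447)),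
    (k5,(nat_lit 494))],[(k2,(nat_lit 400)),(k6,(nat_lit 415)),(k0,(nat_lit 447)),(k5,(nat_lit 447)),(k9,
    (nat_lit 447)),(k3,(nat_lit 588))],[(k3,(nat_lit 400)),(k6,(nat_lit 415)),(k0,(nat_lit 447)),(k5,(nat_lit 447)),
    (k9,(nat_lit 447)),(k2,(nat_lit 588))],[(k6,(nat_lit 274)),(k5,(nat_lit 306)),(k9,(nat_lit 306)),(k2,
    (nat_lit 447)),(k3,(nat_lit 447)),(k0,(nat_lit 494))],[(k11,(nat_lit 274)),(k4,(nat_lit 306)),(k8,(nat_lit 306)),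
    (k7,(nat_lit 338)),(k10,(nat_lit 620)),(k1,(nat_lit 716))],[(k10,(nat_lit 242)),(k11,(nat_lit 306)),(k1,
    (nat_lit 338)),(k4,(nat_lit 338)),(k8,(nat_lit 338)),(k7,(nat_lit 370))],[(k6,(nat_lit 242)),(k0,(nat_lit 274)),
    (k5,(nat_lit 274)),(k9,(nat_lit 274)),(k2,(nat_lit 415)),(k3,(nat_lit 415))],[(k6,(nat_lit 274)),(k0,
    (nat_lit 306)),(k5,(nat_lit 306)),(k9,(nat_lit 306)),(k2,(nat_lit 447)),(k3,(nat_lit 447))],[(k11,(nat_lit 274)),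
    (k1,(nat_lit 306)),(k4,(nat_lit 306)),(k8,(nat_lit 306)),(k7,(nat_lit 338)),(k10,(nat_lit 620))],[(k11,
    (nat_lit 242)),(k1,(nat_lit 274)),(k4,(nat_lit 274)),(k8,(nat_lit 274)),(k7,(nat_lit 306)),(k10,(nat_lit 588))],
    [(k7,(nat_lit 242)),(k11,(nat_lit 588)),(k1,(nat_lit 620)),(k4,(nat_lit 620)),(k8,(nat_lit 620)),(k10,
    (nat_lit 934))]]
    [[k1,k0,k0,k1,k0,k1],[k0,k0,k1,k1,k0,k1],[k0,k0,k0,k2,k0,k1],[k0,k0,k0,k1,k1,k1],[k0,k0,k0,k2,k0,k2]]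
    [.ref k69 k0 [(z1,[z6,z0,y1]),(z1,[z0,z1]),(z1,[z0,z0,z1])],.ref k6 k0 [(z1,[y6,z0,z1,z6]),(z1,[z0,z1]),(z1,[z0,
    z0,z1])],.contra [z3,z4,y1],.contra [z1,z1,z0,z1,y1],.contra [y3,z1,z2]],
    .lp (nat_lit 257) [(nat_lit 2405),(nat_lit 3200),(nat_lit 3995),(nat_lit 3995),(nat_lit 2385),
    (nat_lit 3220)] [(nat_lit 1585),(nat_lit 1872),(nat_lit 1331),(nat_lit 1331),(nat_lit 850),(nat_lit 1017),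
    (nat_lit 1867),k0,(nat_lit 1538),(nat_lit 1939),(nat_lit 718),(nat_lit 1924)] k0 [[k0,k0,k0,k0,k0,k0,k0,
    (nat_lit 486),k0,k0,k0,k0],[k0,k0,(nat_lit 1590),k0,k0,k0,k0,k40,k0,k0,k0,k0],[k0,k0,k0,k0,k0,k0,k0,k0,k0,k0,k0,
    k0],[(nat_lit 1590),k0,k0,k0,k0,k0,k0,(nat_lit 1054),k0,k0,k0,k0],[k0,k0,k0,k0,k0,k0,k0,k0,k0,(nat_lit 1550),k0,
    k0],[k0,k0,k0,k0,k0,k0,k0,k0,k0,k0,k0,(nat_lit 3220)],[k40,(nat_lit 486),(nat_lit 1054),k0,k0,k0,k0,k0,k0,k0,k0,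
    k0],[k0,k0,k0,k0,k0,k0,k60,k0,k0,k0,k0,k0],[k0,k0,k0,k0,k0,(nat_lit 1550),k0,k0,k0,k0,k30,k0],[k0,k0,k0,k0,k0,k0,
    k0,k0,k90,k0,k90,k0],[k0,k0,k0,k0,(nat_lit 3220),k0,k0,k0,k0,k0,k0,k0],[k0,k0,k0,k0,k0,k0,k0,k0,k90,k30,k0,
    k0]] (nat_lit 9600) k6
    [[(k11,(nat_lit 1976)),(k1,(nat_lit 2118)),(k8,(nat_lit 2422)),(k10,(nat_lit 3272)),(k7,(nat_lit 3990)),(k4,
    (nat_lit 6360))],[(k6,(nat_lit 1924)),(k9,(nat_lit 2378)),(k0,(nat_lit 2692)),(k3,(nat_lit 2946)),(k5,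
    (nat_lit 3260)),(k2,(nat_lit 4536))],[(k5,(nat_lit 1924)),(k6,(nat_lit 2624)),(k0,(nat_lit 2946)),(k9,
    (nat_lit 3078)),(k2,(nat_lit 3200)),(k3,(nat_lit 3200))],[(k6,(nat_lit 2664)),(k2,(nat_lit 3200)),(k3,
    (nat_lit 3200)),(k5,(nat_lit 3514)),(k9,(nat_lit 3646)),(k0,(nat_lit 4536))],[(k3,(nat_lit 1924)),(k6,
    (nat_lit 1924)),(k9,(nat_lit 2906)),(k0,(nat_lit 3260)),(k2,(nat_lit 3514)),(k5,(nat_lit 3828))],[(k8,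
    (nat_lit 1924)),(k11,(nat_lit 3088)),(k4,(nat_lit 4162)),(k10,(nat_lit 4294)),(k7,(nat_lit 5012)),(k1,
    (nat_lit 6360))],[(k10,(nat_lit 1924)),(k1,(nat_lit 3990)),(k8,(nat_lit 4324)),(k4,(nat_lit 5012)),(k11,
    (nat_lit 5488)),(k7,(nat_lit 5862))],[(k0,(nat_lit 1924)),(k5,(nat_lit 1924)),(k9,(nat_lit 2056)),(k6,
    (nat_lit 2188)),(k3,(nat_lit 2624)),(k2,(nat_lit 2664))],[(k9,(nat_lit 1924)),(k6,(nat_lit 2056)),(k0,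
    (nat_lit 2378)),(k5,(nat_lit 2906)),(k3,(nat_lit 3078)),(k2,(nat_lit 3646))],[(k4,(nat_lit 1924)),(k11,
    (nat_lit 2400)),(k1,(nat_lit 2422)),(k8,(nat_lit 2876)),(k10,(nat_lit 3696)),(k7,(nat_lit 4324))],[(k11,
    (nat_lit 1924)),(k1,(nat_lit 1976)),(k8,(nat_lit 2400)),(k4,(nat_lit 3088)),(k10,(nat_lit 3250)),(k7,
    (nat_lit 5488))],[(k7,(nat_lit 1924)),(k11,(nat_lit 3250)),(k1,(nat_lit 3272)),(k8,(nat_lit 3696)),(k4,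
    (nat_lit 4294)),(k10,(nat_lit 4426))]]
    [[k1,k1,k0,k0,k1,k0],[k2,k0,k0,k0,k2,k0],[k1,k0,k1,k0,k2,k0],[k2,k0,k0,k0,k0,k1],[k1,k0,k0,k0,k1,k1],[k1,k0,k0,k1,
    k0,k2],[k1,k0,k1,k0,k0,k1],[k1,k0,k0,k1,k0,k1],[k1,k1,k0,k1,k0,k1],[k0,k1,k1,k0,k1,k0],[k0,k0,k1,k1,k0,k1],[k0,k0,
    k0,k1,k1,k1],[k0,k0,k0,k2,k0,k2],[k0,k0,k0,k0,k2,k1]]
    [.ref k8 k0 [(z1,[z3,y1]),(z1,[z0,z1])],.ref k61 k0 [(z2,[z1]),(z1,[z0,z1])],.contra [z1,z0,y1],.ref k39 k0 [(z1,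
    [z1]),(z1,[z0,z1])],.ref k62 k0 [(z1,[z1]),(z1,[z0,z1])],.ref k65 k0 [(z1,[z3,z1,z3,y3]),(z1,[z0,z1])],
    .contra [z1,z0,y1],.ref k66 k0 [(z1,[z3,z1,z3,y3]),(z1,[z0,z1])],.ref k67 k0 [(z1,[z1,z0,z1,y1]),(z1,[z0,z1])],
    .ref k66 k0 [(z1,[y3,z1,z3]),(z1,[z0,z1])],.ref k8 k0 [(z1,[y3,y1,z0,z3]),(z1,[z0,z1])],.contra [z1,z1,z1,y1],
    .ref k68 k0 [(z1,[z0,z1]),(z2,[z1])],.ref k70 k0 [(z1,[z0,z1]),(z1,[y3,y2,y6,z6])]]]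

theorem hB6_137_5 : blkB [0, 0, 1, 0, 1, 1] [(0, 2)] sp6 hS6_137 (pcls (n := 6) [0, 0, 1, 0, 1, 1]) hD6_137 87 5 hN6_137_5 = true := by
  decide +kernel

/-- nodes 72 to 83 -/
noncomputable def hN6_137_6 : List HM :=
  [.base (.leafM k3 [k2,k3,k4,k5,k0,k1] [(z1,[z1,y1,y1,z1])] []),
    .lp (nat_lit 257) [(nat_lit 306),(nat_lit 588),(nat_lit 306),(nat_lit 306),(nat_lit 306),
    (nat_lit 588)] [(nat_lit 314),(nat_lit 314),k173,k173,(nat_lit 314),(nat_lit 314),(nat_lit 346),(nat_lit 282),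
    (nat_lit 314),(nat_lit 314),k0,(nat_lit 346)] k0 [[k0,k0,k0,k0,k0,k0,k0,k0,k0,k0,k0,k0],[k0,k0,k0,k188,k0,k0,k0,
    k0,k0,k0,k0,k0],[k188,k0,k0,k0,k0,k0,k0,k0,k0,k0,k0,k0],[k0,k0,k0,k0,k0,k0,k0,k0,k0,k0,k0,k0],[k0,k0,k0,k0,k0,k0,
    k0,k0,k0,k0,k0,k0],[k0,k0,k0,k0,k0,k0,k0,k0,k0,k0,k0,(nat_lit 410)],[k0,k0,k0,k0,k0,k0,k0,k0,k0,k0,k0,k0],[k0,k0,
    k0,k0,k0,k0,k0,k0,k0,k0,k0,k0],[k0,k0,k0,k0,k0,k0,k0,k0,k0,k0,k0,k0],[k0,k0,k0,k0,k0,k0,k0,k0,k0,k0,k0,k0],[k0,k0,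
    k0,k0,(nat_lit 410),k0,k0,k0,k0,k0,k0,k0],[k0,k0,k0,k0,k0,k0,k0,k0,k0,k0,k0,k0]] (nat_lit 1200) k6
    [[(k11,(nat_lit 274)),(k1,(nat_lit 306)),(k8,(nat_lit 306)),(k7,(nat_lit 338)),(k10,(nat_lit 620)),(k4,
    (nat_lit 716))],[(k6,(nat_lit 274)),(k0,(nat_lit 306)),(k9,(nat_lit 306)),(k2,(nat_lit 447)),(k3,(nat_lit 447)),
    (k5,(nat_lit 494))],[(k2,(nat_lit 400)),(k6,(nat_lit 415)),(k0,(nat_lit 447)),(k5,(nat_lit 447)),(k9,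
    (nat_lit 447)),(k3,(nat_lit 588))],[(k3,(nat_lit 400)),(k6,(nat_lit 415)),(k0,(nat_lit 447)),(k5,(nat_lit 447)),
    (k9,(nat_lit 447)),(k2,(nat_lit 588))],[(k6,(nat_lit 274)),(k5,(nat_lit 306)),(k9,(nat_lit 306)),(k2,
    (nat_lit 447)),(k3,(nat_lit 447)),(k0,(nat_lit 494))],[(k11,(nat_lit 274)),(k4,(nat_lit 306)),(k8,(nat_lit 306)),
    (k7,(nat_lit 338)),(k10,(nat_lit 620)),(k1,(nat_lit 716))],[(k10,(nat_lit 242)),(k11,(nat_lit 306)),(k1,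
    (nat_lit 338)),(k4,(nat_lit 338)),(k8,(nat_lit 338)),(k7,(nat_lit 370))],[(k6,(nat_lit 242)),(k0,(nat_lit 274)),
    (k5,(nat_lit 274)),(k9,(nat_lit 274)),(k2,(nat_lit 415)),(k3,(nat_lit 415))],[(k6,(nat_lit 274)),(k0,
    (nat_lit 306)),(k5,(nat_lit 306)),(k9,(nat_lit 306)),(k2,(nat_lit 447)),(k3,(nat_lit 447))],[(k11,(nat_lit 274)),
    (k1,(nat_lit 306)),(k4,(nat_lit 306)),(k8,(nat_lit 306)),(k7,(nat_lit 338)),(k10,(nat_lit 620))],[(k11,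
    (nat_lit 242)),(k1,(nat_lit 274)),(k4,(nat_lit 274)),(k8,(nat_lit 274)),(k7,(nat_lit 306)),(k10,(nat_lit 588))],
    [(k7,(nat_lit 242)),(k11,(nat_lit 588)),(k1,(nat_lit 620)),(k4,(nat_lit 620)),(k8,(nat_lit 620)),(k10,
    (nat_lit 934))]]
    [[k1,k0,k0,k1,k0,k1],[k0,k0,k1,k1,k0,k1],[k0,k0,k0,k2,k0,k1],[k0,k0,k0,k1,k1,k1],[k0,k0,k0,k2,k0,k2]]
    [.ref k72 k0 [(z1,[z1,z1,z1,y1]),(z1,[z0,z1])],.ref k9 k0 [(z1,[y1,y1,z0,z1]),(z1,[z0,z1])],.contra [y1,y1,y2,z2],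
    .contra [z1,z1,z1,y1],.contra [z1,z2,z2,y2]],
    .base (.leafM k0 [k0,k1,k2,k3,k4,k5] [(z2,[y1,z2,z1,z2])] []),
    .base (.geo z6 k5 [(z5,z0),(z4,z0),(z7,z0),(z5,y6),(z3,z0),(z0,z6)] [(z1,[z1]),(z1,[z0,z2]),(z1,[y1,z0,z0,z6]),
    (z1,[z0,z0,z1]),(z1,[z0,y2,y1,y6,z6]),(z1,[])] k5),
    .base (.leafM k0 [k0,k1,k2,k3,k4,k5] [(z6,[y1,z2,z1,z0,z6])] []),
    .base (.leafM k3 [k1,k2,k3,k4,k5,k0] [(z6,[y1,y2,y3,z0,z0,z6])] []),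
    .lp (nat_lit 257) [(nat_lit 232),k162,(nat_lit 232),(nat_lit 206),k168,(nat_lit 200)] [k12,k12,k47,k47,k12,k12,
    k50,k0,k28,k60,k28,k28] k0 [[k0,k0,k0,k0,k0,k0,k10,k64,k0,k0,k0,k0],[k0,k0,k0,k40,k0,k0,k0,k0,k0,k0,k0,k0],[k40,
    k0,k0,k0,k0,k0,k0,k0,k0,k0,k0,k0],[k0,k0,k0,k0,k0,k0,k0,k38,k0,k0,k0,k0],[k0,k0,k0,k0,k0,k16,k0,k0,k0,k94,k0,k0],
    [k0,k0,k0,k0,k0,k0,k0,k0,k0,k106,k0,k106],[k0,k64,k38,k0,k0,k0,k0,k0,k0,k0,k0,k0],[k0,k10,k0,k0,k0,k0,k0,k0,k0,k0,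
    k0,k0],[k0,k0,k0,k0,k106,k94,k0,k0,k0,k0,k0,k0],[k0,k0,k0,k0,k0,k0,k0,k0,k0,k0,k64,k0],[k0,k0,k0,k0,k106,k0,k0,k0,
    k0,k0,k0,k0],[k0,k0,k0,k0,k0,k0,k0,k0,k64,k0,k0,k0]] (nat_lit 600) k6
    [[(k11,k152),(k8,(nat_lit 216)),(k10,(nat_lit 216)),(k1,(nat_lit 232)),(k7,(nat_lit 244)),(k4,(nat_lit 338))],
    [(k6,k130),(k9,k174),(k2,k197),(k3,k197),(k0,(nat_lit 232)),(k5,(nat_lit 272))],[(k2,k122),(k3,k162),(k6,k169),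
    (k0,k197),(k5,k197),(k9,(nat_lit 213))],[(k3,k122),(k6,k159),(k2,k162),(k9,k187),(k0,k197),(k5,k197)],[(k6,k156),
    (k9,k184),(k2,k197),(k3,k197),(k5,(nat_lit 232)),(k0,(nat_lit 272))],[(k8,k122),(k4,(nat_lit 216)),(k10,
    (nat_lit 216)),(k7,(nat_lit 244)),(k11,(nat_lit 322)),(k1,(nat_lit 338))],[(k8,k122),(k10,k122),(k1,
    (nat_lit 244)),(k4,(nat_lit 244)),(k7,(nat_lit 272)),(k11,(nat_lit 322))],[(k0,k130),(k9,k146),(k5,k156),(k6,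
    k156),(k2,k159),(k3,k169)],[(k9,k136),(k6,k146),(k0,k174),(k5,k184),(k2,k187),(k3,(nat_lit 213))],[(k4,k122),(k7,
    k122),(k8,(nat_lit 200)),(k11,(nat_lit 200)),(k1,(nat_lit 216)),(k10,(nat_lit 264))],[(k1,k152),(k8,
    (nat_lit 200)),(k10,(nat_lit 200)),(k11,(nat_lit 200)),(k4,(nat_lit 322)),(k7,(nat_lit 322))],[(k7,k122),(k10,
    (nat_lit 200)),(k11,(nat_lit 200)),(k1,(nat_lit 216)),(k4,(nat_lit 216)),(k8,(nat_lit 264))]]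
    [[k1,k0,k0,k0,k1,k1],[k1,k0,k0,k1,k0,k1],[k0,k3,k0,k0,k0,k0],[k0,k4,k0,k0,k0,k0],[k0,k1,k1,k0,k1,k0],[k0,k1,k0,k1,
    k1,k0],[k0,k0,k1,k1,k2,k0],[k0,k0,k0,k2,k2,k0],[k0,k0,k0,k1,k1,k1]]
    [.ref k76 k0 [(z1,[z6,z0,z1,z0,z6,y6]),(z1,[y3,z1,z0,z0,y3,z3]),(z1,[z6,y2,z1,z0,z6,y6]),(z1,[z0,z0,z0,z1])],
    .contra [z6,z2,z1,z3,z6,y6],.ref k76 k0 [(z1,[y2,z2,z1]),(z1,[z1]),(z1,[y2,z0,z1]),(z1,[z0,z0,z0,z1])],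
    .contra [y3,z4,z2],.contra [y6,z2,z1,z3,z6],.contra [z6,z0,y1,z1],.contra [y3,y1,z0,z4,z3],.ref k77 k0 [(z1,[z3,
    z2,z0,y3]),(z2,[y3,z0,z1,z3]),(z1,[z1,z0,z0,y1]),(z1,[z0,z0,z0,z1])],.contra [y1,z0,z0,z0,y1,z1]],
    .lp (nat_lit 257) [(nat_lit 224),k186,(nat_lit 322),k168,k150,k150] [k49,k49,k68,k68,k0,k0,k77,k77,k86,k86,k86,
    k86] k0 [[k0,k0,k0,k16,k0,k0,k56,k74,k0,k0,k0,k0],[k2,k0,k0,k64,k0,k0,k0,k0,k0,k0,k0,k0],[k64,k16,k0,k0,k0,k0,k0,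
    k0,k0,k0,k0,k0],[k0,k0,k0,k0,k0,k0,k22,k40,k0,k0,k0,k0],[k0,k0,k0,k0,k0,k0,k0,k0,k0,k114,k0,k0],[k0,k0,k0,k0,k0,
    k0,k0,k0,k0,k0,k0,k0],[k0,k74,k40,k0,k0,k0,k0,k0,k0,k0,k0,k0],[k0,k56,k22,k0,k0,k0,k0,k0,k0,k0,k0,k0],[k0,k0,k0,
    k0,k0,k114,k0,k0,k0,k0,k0,k0],[k0,k0,k0,k0,k0,k0,k0,k0,k0,k0,k0,k0],[k0,k0,k0,k0,k0,k0,k0,k0,k0,k0,k0,k0],[k0,k0,
    k0,k0,k0,k0,k0,k0,k0,k0,k0,k0]] (nat_lit 600) k6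
    [[(k8,k187),(k10,k187),(k11,k187),(k7,k196),(k1,(nat_lit 224)),(k4,(nat_lit 273))],[(k6,k122),(k9,k131),(k2,k189),
    (k3,(nat_lit 205)),(k0,(nat_lit 226)),(k5,(nat_lit 337))],[(k2,k122),(k3,k184),(k0,(nat_lit 205)),(k6,
    (nat_lit 233)),(k9,(nat_lit 242)),(k5,(nat_lit 270))],[(k3,k122),(k2,k186),(k0,k189),(k6,k199),(k9,(nat_lit 208)),
    (k5,(nat_lit 254))],[(k6,(nat_lit 205)),(k9,(nat_lit 214)),(k2,(nat_lit 254)),(k3,(nat_lit 270)),(k5,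
    (nat_lit 322)),(k0,(nat_lit 337))],[(k8,k122),(k10,(nat_lit 236)),(k11,(nat_lit 236)),(k7,(nat_lit 245)),(k1,
    (nat_lit 273)),(k4,(nat_lit 322))],[(k8,k159),(k10,k159),(k7,k168),(k1,k196),(k4,(nat_lit 245)),(k11,
    (nat_lit 273))],[(k0,k122),(k9,k159),(k6,k168),(k2,k199),(k5,(nat_lit 205)),(k3,(nat_lit 233))],[(k0,k131),(k9,
    k150),(k6,k159),(k2,(nat_lit 208)),(k5,(nat_lit 214)),(k3,(nat_lit 242))],[(k4,k122),(k8,k150),(k10,k150),(k11,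
    k150),(k7,k159),(k1,k187)],[(k8,k150),(k10,k150),(k11,k150),(k1,k187),(k4,(nat_lit 236)),(k7,(nat_lit 273))],[(k8,
    k150),(k10,k150),(k11,k150),(k7,k159),(k1,k187),(k4,(nat_lit 236))]]
    [[k1,k0,k0,k1,k0,k1],[k1,k0,k0,k0,k1,k1],[k0,k3,k0,k0,k0,k0],[k0,k4,k0,k0,k0,k0],[k0,k0,k0,k1,k1,k1],[k0,k0,k0,k0,
    k2,k1],[k0,k0,k0,k0,k0,k3]]
    [.contra [z1,z1],.ref k74 k0 [(z1,[z2,z0,z1,z2,y2]),(z1,[y1,z1,z0,y1,z1]),(z1,[z2,y2,z1,z2,y2])],.ref k75 k0 [(z1,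
    [y2,z6,z3]),(z1,[z1]),(z1,[y2,z0,z3])],.contra [y1,z4,z2],.contra [y1,z0,z0,y1,z1],.contra [z1,z0,z1,z2,y2],
    .ref k78 k0 [(z1,[z1,z3]),(z1,[y2,z0,z3]),(z1,[z0,z0,y1,y2,z2])]],
    .base (.leafM k0 [k0,k1,k2,k3,k4,k5] [(z2,[y1,z1,z2])] []),
    .base (.leafM k3 [k2,k3,k4,k5,k0,k1] [(z1,[z1])] []),
    .base (.leafM k3 [k2,k3,k4,k5,k0,k1] [(z6,[z1,z0,z1])] []),
    .lp (nat_lit 257) [(nat_lit 306),(nat_lit 588),(nat_lit 306),(nat_lit 306),(nat_lit 306),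
    (nat_lit 588)] [(nat_lit 314),(nat_lit 314),k173,k173,(nat_lit 314),(nat_lit 314),(nat_lit 346),(nat_lit 282),
    (nat_lit 314),(nat_lit 314),k0,(nat_lit 346)] k0 [[k0,k0,k0,k0,k0,k0,k0,k0,k0,k0,k0,k0],[k0,k0,k0,k188,k0,k0,k0,
    k0,k0,k0,k0,k0],[k188,k0,k0,k0,k0,k0,k0,k0,k0,k0,k0,k0],[k0,k0,k0,k0,k0,k0,k0,k0,k0,k0,k0,k0],[k0,k0,k0,k0,k0,k0,
    k0,k0,k0,k0,k0,k0],[k0,k0,k0,k0,k0,k0,k0,k0,k0,k0,k0,(nat_lit 410)],[k0,k0,k0,k0,k0,k0,k0,k0,k0,k0,k0,k0],[k0,k0,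
    k0,k0,k0,k0,k0,k0,k0,k0,k0,k0],[k0,k0,k0,k0,k0,k0,k0,k0,k0,k0,k0,k0],[k0,k0,k0,k0,k0,k0,k0,k0,k0,k0,k0,k0],[k0,k0,
    k0,k0,(nat_lit 410),k0,k0,k0,k0,k0,k0,k0],[k0,k0,k0,k0,k0,k0,k0,k0,k0,k0,k0,k0]] (nat_lit 1200) k6
    [[(k11,(nat_lit 274)),(k1,(nat_lit 306)),(k8,(nat_lit 306)),(k7,(nat_lit 338)),(k10,(nat_lit 620)),(k4,
    (nat_lit 716))],[(k6,(nat_lit 274)),(k0,(nat_lit 306)),(k9,(nat_lit 306)),(k2,(nat_lit 447)),(k3,(nat_lit 447)),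
    (k5,(nat_lit 494))],[(k2,(nat_lit 400)),(k6,(nat_lit 415)),(k0,(nat_lit 447)),(k5,(nat_lit 447)),(k9,
    (nat_lit 447)),(k3,(nat_lit 588))],[(k3,(nat_lit 400)),(k6,(nat_lit 415)),(k0,(nat_lit 447)),(k5,(nat_lit 447)),
    (k9,(nat_lit 447)),(k2,(nat_lit 588))],[(k6,(nat_lit 274)),(k5,(nat_lit 306)),(k9,(nat_lit 306)),(k2,
    (nat_lit 447)),(k3,(nat_lit 447)),(k0,(nat_lit 494))],[(k11,(nat_lit 274)),(k4,(nat_lit 306)),(k8,(nat_lit 306)),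
    (k7,(nat_lit 338)),(k10,(nat_lit 620)),(k1,(nat_lit 716))],[(k10,(nat_lit 242)),(k11,(nat_lit 306)),(k1,
    (nat_lit 338)),(k4,(nat_lit 338)),(k8,(nat_lit 338)),(k7,(nat_lit 370))],[(k6,(nat_lit 242)),(k0,(nat_lit 274)),
    (k5,(nat_lit 274)),(k9,(nat_lit 274)),(k2,(nat_lit 415)),(k3,(nat_lit 415))],[(k6,(nat_lit 274)),(k0,
    (nat_lit 306)),(k5,(nat_lit 306)),(k9,(nat_lit 306)),(k2,(nat_lit 447)),(k3,(nat_lit 447))],[(k11,(nat_lit 274)),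
    (k1,(nat_lit 306)),(k4,(nat_lit 306)),(k8,(nat_lit 306)),(k7,(nat_lit 338)),(k10,(nat_lit 620))],[(k11,
    (nat_lit 242)),(k1,(nat_lit 274)),(k4,(nat_lit 274)),(k8,(nat_lit 274)),(k7,(nat_lit 306)),(k10,(nat_lit 588))],
    [(k7,(nat_lit 242)),(k11,(nat_lit 588)),(k1,(nat_lit 620)),(k4,(nat_lit 620)),(k8,(nat_lit 620)),(k10,
    (nat_lit 934))]]
    [[k1,k0,k0,k1,k0,k1],[k0,k0,k1,k1,k0,k1],[k0,k0,k0,k2,k0,k1],[k0,k0,k0,k1,k1,k1],[k0,k0,k0,k2,k0,k2]]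
    [.ref k82 k0 [(z1,[z6,z0,y1]),(z1,[z0,z1]),(z1,[z0,z0,z1])],.ref k75 k0 [(z1,[y6,z0,z1,z6]),(z1,[z0,z1]),(z1,[z0,
    z0,z1])],.contra [y9,y2,z2,y6,z6],.contra [z1,z1,z0,z1,y1],.contra [z3,z1,y1]]]

theorem hB6_137_6 : blkB [0, 0, 1, 0, 1, 1] [(0, 2)] sp6 hS6_137 (pcls (n := 6) [0, 0, 1, 0, 1, 1]) hD6_137 87 6 hN6_137_6 = true := by
  decide +kernel

/-- nodes 84 to 86 -/
noncomputable def hN6_137_7 : List HM :=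
  [.base (.leafM k9 [k5,k1,k3,k4] [(z1,[z1]),(z1,[y1,y2,y2,z2]),(z1,[z0,z1])] [(k0,k2,z1,[z0,z0,z1]),(k2,k0,z1,[z0,z0,
    z1])]),
    .lp (nat_lit 257) [(nat_lit 1336),(nat_lit 958),(nat_lit 1336),(nat_lit 1306),(nat_lit 984),(nat_lit 1280)] [k60,
    k60,(nat_lit 249),(nat_lit 249),k60,k60,k146,k4,(nat_lit 236),(nat_lit 236),k0,k176] k0 [[k0,k0,k0,k0,k0,k0,k30,
    (nat_lit 524),k0,k0,k0,k0],[k0,k0,k0,(nat_lit 232),k0,k0,k0,k0,k0,k0,k0,k0],[(nat_lit 232),k0,k0,k0,k0,k0,k0,k0,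
    k0,k0,k0,k0],[k0,k0,k0,k0,k0,k0,k0,k30,k0,k0,k0,k0],[k0,k0,k0,k0,k0,k0,k0,k0,k0,(nat_lit 434),k0,k0],[k0,k0,k0,k0,
    k0,k0,k0,k0,k0,(nat_lit 434),k0,(nat_lit 726)],[k0,(nat_lit 524),k30,k0,k0,k0,k0,k0,k0,k0,k0,k0],[k0,k30,k0,k0,k0,
    k0,k0,k0,k0,k0,k0,k0],[k0,k0,k0,k0,(nat_lit 434),(nat_lit 434),k0,k0,k0,k0,k0,k0],[k0,k0,k0,k0,k0,k0,k0,k0,k120,
    k0,(nat_lit 352),k0],[k0,k0,k0,k0,(nat_lit 726),k0,k0,k0,k0,k0,k0,k0],[k0,k0,k0,k0,k0,k0,k0,k0,(nat_lit 352),k0,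
    k0,k0]] (nat_lit 3600) k6
    [[(k11,(nat_lit 868)),(k8,(nat_lit 1160)),(k1,(nat_lit 1336)),(k7,(nat_lit 1392)),(k10,(nat_lit 1396)),(k4,
    (nat_lit 2062))],[(k6,(nat_lit 726)),(k9,(nat_lit 1130)),(k2,(nat_lit 1147)),(k3,(nat_lit 1147)),(k0,
    (nat_lit 1336)),(k5,(nat_lit 1568))],[(k2,(nat_lit 726)),(k3,(nat_lit 958)),(k6,(nat_lit 1091)),(k0,
    (nat_lit 1147)),(k5,(nat_lit 1147)),(k9,(nat_lit 1495))],[(k3,(nat_lit 726)),(k2,(nat_lit 958)),(k9,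
    (nat_lit 1001)),(k6,(nat_lit 1061)),(k0,(nat_lit 1147)),(k5,(nat_lit 1147))],[(k2,(nat_lit 1147)),(k3,
    (nat_lit 1147)),(k9,(nat_lit 1160)),(k6,(nat_lit 1220)),(k5,(nat_lit 1336)),(k0,(nat_lit 1568))],[(k8,
    (nat_lit 726)),(k4,(nat_lit 1336)),(k7,(nat_lit 1392)),(k10,(nat_lit 1396)),(k11,(nat_lit 1654)),(k1,
    (nat_lit 2062))],[(k10,(nat_lit 726)),(k8,(nat_lit 782)),(k1,(nat_lit 1392)),(k4,(nat_lit 1392)),(k7,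
    (nat_lit 1448)),(k11,(nat_lit 1710))],[(k0,(nat_lit 726)),(k2,(nat_lit 1061)),(k9,(nat_lit 1074)),(k3,
    (nat_lit 1091)),(k6,(nat_lit 1164)),(k5,(nat_lit 1220))],[(k9,(nat_lit 984)),(k2,(nat_lit 1001)),(k6,
    (nat_lit 1074)),(k0,(nat_lit 1130)),(k5,(nat_lit 1160)),(k3,(nat_lit 1495))],[(k4,(nat_lit 726)),(k7,
    (nat_lit 782)),(k11,(nat_lit 1044)),(k8,(nat_lit 1104)),(k1,(nat_lit 1160)),(k10,(nat_lit 1572))],[(k1,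
    (nat_lit 868)),(k11,(nat_lit 984)),(k8,(nat_lit 1044)),(k10,(nat_lit 1280)),(k4,(nat_lit 1654)),(k7,
    (nat_lit 1710))],[(k7,(nat_lit 726)),(k11,(nat_lit 1280)),(k1,(nat_lit 1396)),(k4,(nat_lit 1396)),(k10,
    (nat_lit 1456)),(k8,(nat_lit 1572))]]
    [[k1,k1,k0,k0,k1,k0],[k1,k0,k0,k0,k1,k1],[k1,k0,k0,k1,k0,k1],[k0,k3,k0,k0,k0,k0],[k0,k4,k0,k0,k0,k0],[k0,k1,k1,k0,
    k1,k0],[k0,k1,k0,k1,k1,k0],[k0,k0,k0,k1,k1,k1]]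
    [.ref k79 k0 [(z1,[z1,z0,z1,y1]),(z1,[z0,z1])],.ref k80 k0 [(z1,[z2,z1,z2,y2]),(z1,[z0,z1])],.ref k81 k0 [(z1,
    [z1]),(z1,[z0,z1])],.ref k83 k0 [(z1,[z1]),(z1,[y2,z3])],.ref k84 k0 [(z2,[z1]),(z4,[y1,z2])],.ref k81 k0 [(z1,
    [y1,z0,z0,z1]),(z1,[z0,z1])],.contra [y1,z0,y1,z1],.contra [y1,z0,y1,z1]],
    .lp (nat_lit 257) [k110,k80,k130,k110,k68,k102] [k34,k0,k32,k32,k7,k7,k32,k2,k38,k38,k21,k21] k0 [[k0,k0,k0,k0,k0,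
    k0,k0,k5,k0,k0,k0,k0],[k0,k0,k0,k5,k0,k0,k0,k0,k0,k0,k0,k0],[k5,k0,k0,k0,k0,k0,k0,k0,k0,k0,k0,k0],[k0,k0,k0,k0,k0,
    k0,k0,k0,k0,k0,k0,k0],[k0,k0,k0,k0,k0,k0,k0,k0,k0,k38,k0,k0],[k0,k0,k0,k0,k0,k0,k0,k0,k0,k18,k0,k60],[k0,k5,k0,k0,
    k0,k0,k0,k0,k0,k0,k0,k0],[k0,k0,k0,k0,k0,k0,k0,k0,k0,k0,k0,k0],[k0,k0,k0,k0,k18,k38,k0,k0,k0,k0,k3,k0],[k0,k0,k0,
    k0,k0,k0,k0,k0,k4,k0,k62,k0],[k0,k0,k0,k0,k60,k0,k0,k0,k0,k0,k0,k0],[k0,k0,k0,k0,k0,k0,k0,k0,k62,k3,k0,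
    k0]] (nat_lit 300) k6
    [[(k11,k61),(k8,k103),(k10,k123),(k7,k142),(k1,k144),(k4,k197)],[(k9,k72),(k6,k73),(k0,k76),(k2,k78),(k3,k78),(k5,
    k108)],[(k2,k75),(k0,k78),(k9,k79),(k3,k80),(k6,k80),(k5,k105)],[(k9,k74),(k3,k75),(k0,k78),(k2,k80),(k6,k80),(k5,
    k105)],[(k9,k99),(k2,k105),(k3,k105),(k6,k105),(k0,k108),(k5,k130)],[(k8,k61),(k10,k116),(k4,k130),(k11,k134),(k7,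
    k135),(k1,k197)],[(k10,k61),(k8,k86),(k4,k135),(k7,k140),(k1,k142),(k11,k159)],[(k0,k73),(k9,k74),(k2,k80),(k3,
    k80),(k6,k80),(k5,k105)],[(k9,k68),(k0,k72),(k2,k74),(k6,k74),(k3,k79),(k5,k99)],[(k4,k61),(k8,k72),(k11,k85),(k7,
    k86),(k1,k103),(k10,k147)],[(k1,k61),(k8,k85),(k11,k98),(k10,k105),(k4,k134),(k7,k159)],[(k7,k61),(k10,k102),(k11,
    k105),(k4,k116),(k1,k123),(k8,k147)]]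
    [[k1,k1,k0,k0,k1,k0],[k2,k0,k0,k0,k0,k1],[k1,k0,k0,k0,k1,k1],[k1,k0,k1,k0,k0,k1],[k1,k0,k0,k1,k0,k1],[k1,k1,k0,k1,
    k0,k1],[k0,k3,k0,k0,k0,k0],[k0,k1,k1,k0,k1,k0],[k0,k1,k0,k1,k1,k0],[k0,k1,k0,k0,k2,k0],[k0,k0,k0,k1,k1,k1],[k0,k0,
    k0,k0,k4,k0]]
    [.ref k25 k0 [(z1,[z1,z1,y1])],.ref k54 k0 [(z1,[z1])],.ref k55 k0 [(z1,[z1])],.contra [z1,y1],.ref k56 k0 [(z1,
    [z1])],.ref k57 k0 [(z1,[z1,z1,y1])],.ref k71 k0 [(z1,[z1])],.ref k56 k0 [(z1,[y1,z0,z1])],.contra [y1,y1,z1],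
    .ref k73 k0 [(z1,[z1])],.contra [y1,y1,z1],.ref k85 k0 [(z2,[y1,y4,z4])]]]

theorem hB6_137_7 : blkB [0, 0, 1, 0, 1, 1] [(0, 2)] sp6 hS6_137 (pcls (n := 6) [0, 0, 1, 0, 1, 1]) hD6_137 87 7 hN6_137_7 = true := by
  decide +kernel

end Pool.Agent.Lib_MP_fa6e45
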