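import Pool.Agent.Lib_MP_fa6e45.HK

/-!
MP_fa6e45_co, stage 4: certificates (captain, generated by a program).
-/

namespace Pool.Agent.Lib_MP_fa6e45

/-- equations of the nodes for the classes `0 0 0 1 2`, active pairs `1-2` -/
noncomputable def hD5_5 : List (List (List Eqn)) :=
  [[[]]]

/-- symmetries -/
noncomputable def hS5_5 : List (Bool × ℕ × List ℕ) :=
  []

/-- nodes 0 to 0 -/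
noncomputable def hN5_5_0 : List HM :=
  [.base (.leafM k0 [k0,k3,k4] [] [(k1,k2,z1,[z1]),(k2,k1,z1,[z1])])]

theorem hB5_5_0 : blkB [0, 0, 0, 1, 2] [(1, 2)] sp5 hS5_5 (pcls (n := 5) [0, 0, 0, 1, 2]) hD5_5 1 0 hN5_5_0 = true := by
  decide +kernel

/-- equations of the nodes for the classes `0 0 1 0 2`, active pairs `0-4` -/
noncomputable def hD5_7 : List (List (List Eqn)) :=
  [[[]]]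

/-- symmetries -/
noncomputable def hS5_7 : List (Bool × ℕ × List ℕ) :=
  []

/-- nodes 0 to 0 -/
noncomputable def hN5_7_0 : List HM :=
  [.base (.leafM k0 [k1,k2,k3] [] [(k4,k0,z1,[z1]),(k0,k4,z1,[z1])])]

theorem hB5_7_0 : blkB [0, 0, 1, 0, 2] [(0, 4)] sp5 hS5_7 (pcls (n := 5) [0, 0, 1, 0, 2]) hD5_7 1 0 hN5_7_0 = true := by
  decide +kernel

/-- equations of the nodes for the classes `0 0 1 2 3 1`, active pairs `0-2` -/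
noncomputable def hD6_14 : List (List (List Eqn)) :=
  [[[([z0,z3,z0,z0,z0,z0],z2),([z0,z0,z0,z1,z0,z1],z1)],[([z0,z3,z0,z0,z0,z0],z2)],[([z0,z2,z0,z0,z0,z0],z1),([z0,z0,
    z0,z1,z0,z1],z1)],[([z0,z2,z0,z2,z0,z2],z3)],[]]]

/-- symmetries -/
noncomputable def hS6_14 : List (Bool × ℕ × List ℕ) :=
  [(false,k0,[k0,k1,k2,k3,k4,k5])]

/-- nodes 0 to 4 -/
noncomputable def hN6_14_0 : List HM :=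
  [.base (.leafM k8 [k5,k1,k3,k4] [(z1,[z1]),(z1,[y1,y3,y3,z3]),(z1,[z0,z1])] [(k0,k2,z1,[z0,z0,z1]),(k2,k0,z1,[z0,z0,
    z1])]),
    .lp k0 [k138,k80,k80,k60,k60,k60] [k0,k0,k29,k29,k29,k29,k45,k33,k39,k39,k35,k43] k0 [[k0,k0,k0,k0,k0,k0,k0,k0,k0,
    k0,k0,k0],[k0,k0,k0,k0,k0,k0,k0,k0,k0,k0,k0,k0],[k0,k0,k0,k0,k0,k0,k0,k0,k0,k0,k0,k0],[k0,k0,k0,k0,k0,k0,k0,k0,k0,
    k0,k0,k0],[k0,k0,k0,k0,k0,k0,k0,k0,k0,k0,k0,k0],[k0,k0,k0,k0,k0,k0,k0,k0,k0,k0,k0,k22],[k0,k0,k0,k0,k0,k0,k0,k0,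
    k0,k0,k0,k0],[k0,k0,k0,k0,k0,k0,k0,k0,k0,k0,k0,k0],[k0,k0,k0,k0,k0,k0,k0,k0,k0,k0,k0,k0],[k0,k0,k0,k0,k0,k0,k0,k0,
    k0,k0,k0,k0],[k0,k0,k0,k0,k22,k0,k0,k0,k0,k0,k0,k0],[k0,k0,k0,k0,k0,k0,k0,k0,k0,k0,k0,k0]] (nat_lit 240) k6
    [[(k10,k103),(k7,k105),(k4,k131),(k1,k138)],[(k2,k109),(k3,k109),(k5,k109),(k0,k138)],[(k2,k80),(k3,k80),(k5,k80),
    (k0,k109)],[(k2,k80),(k3,k80),(k5,k80),(k0,k109)],[(k2,k80),(k3,k80),(k5,k80),(k0,k109)],[(k10,k74),(k7,k76),(k4,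
    k80),(k1,k131)],[(k10,k48),(k7,k72),(k4,k76),(k1,k105)],[(k6,k48),(k9,k54)],[(k6,k54),(k9,k60)],[(k11,k56),(k8,
    k60)],[(k11,k52),(k8,k56)],[(k7,k48),(k10,k68),(k4,k74),(k1,k103)]]
    [[k0,k0,k0,k1,k1,k1],[k0,k0,k0,k2,k0,k2]]
    [.contra [z1,z1,z1,y1],.ref k0 k0 [(z1,[z0,z1]),(z2,[z1])]],
    .base (.leafM k9 [k5,k1,k3,k4] [(z1,[z1]),(z1,[y1,y2,y2,z2]),(z1,[z0,z1])] [(k0,k2,z1,[z0,z0,z1]),(k2,k0,z1,[z0,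
    z0,z1])]),
    .lp k0 [k138,k80,k80,k60,k60,k60] [k0,k0,k29,k29,k29,k29,k45,k33,k39,k39,k35,k43] k0 [[k0,k0,k0,k0,k0,k0,k0,k0,k0,
    k0,k0,k0],[k0,k0,k0,k0,k0,k0,k0,k0,k0,k0,k0,k0],[k0,k0,k0,k0,k0,k0,k0,k0,k0,k0,k0,k0],[k0,k0,k0,k0,k0,k0,k0,k0,k0,
    k0,k0,k0],[k0,k0,k0,k0,k0,k0,k0,k0,k0,k0,k0,k0],[k0,k0,k0,k0,k0,k0,k0,k0,k0,k0,k0,k22],[k0,k0,k0,k0,k0,k0,k0,k0,
    k0,k0,k0,k0],[k0,k0,k0,k0,k0,k0,k0,k0,k0,k0,k0,k0],[k0,k0,k0,k0,k0,k0,k0,k0,k0,k0,k0,k0],[k0,k0,k0,k0,k0,k0,k0,k0,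
    k0,k0,k0,k0],[k0,k0,k0,k0,k22,k0,k0,k0,k0,k0,k0,k0],[k0,k0,k0,k0,k0,k0,k0,k0,k0,k0,k0,k0]] (nat_lit 240) k6
    [[(k10,k103),(k7,k105),(k4,k131),(k1,k138)],[(k2,k109),(k3,k109),(k5,k109),(k0,k138)],[(k2,k80),(k3,k80),(k5,k80),
    (k0,k109)],[(k2,k80),(k3,k80),(k5,k80),(k0,k109)],[(k2,k80),(k3,k80),(k5,k80),(k0,k109)],[(k10,k74),(k7,k76),(k4,
    k80),(k1,k131)],[(k10,k48),(k7,k72),(k4,k76),(k1,k105)],[(k6,k48),(k9,k54)],[(k6,k54),(k9,k60)],[(k11,k56),(k8,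
    k60)],[(k11,k52),(k8,k56)],[(k7,k48),(k10,k68),(k4,k74),(k1,k103)]]
    [[k0,k0,k0,k1,k1,k1],[k0,k0,k0,k2,k0,k2]]
    [.contra [y1,z0,y1,z1],.ref k2 k0 [(z1,[y1,z1]),(z2,[z1])]],
    .lp k0 [k26,k12,k18,k14,k10,k14] [k0,k0,k7,k7,k4,k4,k6,k6,k8,k8,k6,k6] k0 [[k0,k0,k0,k0,k0,k0,k0,k0,k0,k0,k0,k0],
    [k0,k0,k0,k0,k0,k0,k0,k0,k0,k0,k0,k0],[k0,k0,k0,k0,k0,k0,k0,k0,k0,k0,k0,k0],[k0,k0,k0,k0,k0,k0,k0,k0,k0,k0,k0,k0],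
    [k0,k0,k0,k0,k0,k0,k0,k0,k0,k0,k0,k0],[k0,k0,k0,k0,k0,k0,k0,k0,k0,k0,k0,k4],[k0,k0,k0,k0,k0,k0,k0,k0,k0,k0,k0,k0],
    [k0,k0,k0,k0,k0,k0,k0,k0,k0,k0,k0,k0],[k0,k0,k0,k0,k0,k0,k0,k0,k0,k0,k0,k0],[k0,k0,k0,k0,k0,k0,k0,k0,k0,k0,k0,k0],
    [k0,k0,k0,k0,k4,k0,k0,k0,k0,k0,k0,k0],[k0,k0,k0,k0,k0,k0,k0,k0,k0,k0,k0,k0]] k48 k6
    [[(k7,k20),(k10,k20),(k1,k26),(k4,k26)],[(k2,k19),(k3,k19),(k5,k22),(k0,k26)],[(k2,k12),(k3,k12),(k5,k15),(k0,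
    k19)],[(k2,k12),(k3,k12),(k5,k15),(k0,k19)],[(k2,k15),(k3,k15),(k5,k18),(k0,k22)],[(k7,k16),(k10,k16),(k4,k18),
    (k1,k26)],[(k10,k10),(k7,k14),(k4,k16),(k1,k20)],[(k9,k12),(k6,k14)],[(k9,k10),(k6,k12)],[(k8,k10),(k11,k12)],
    [(k8,k12),(k11,k14)],[(k7,k10),(k10,k14),(k4,k16),(k1,k20)]]
    [[k0,k3,k0,k0,k0,k0],[k0,k0,k0,k1,k1,k1],[k0,k0,k0,k0,k4,k0]]
    [.ref k1 k0 [(z1,[z1])],.contra [y1,y1,z1],.ref k3 k0 [(z2,[y1,y4,z4])]]]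

theorem hB6_14_0 : blkB [0, 0, 1, 2, 3, 1] [(0, 2)] sp6 hS6_14 (pcls (n := 6) [0, 0, 1, 2, 3, 1]) hD6_14 5 0 hN6_14_0 = true := by
  decide +kernel

/-- equations of the nodes for the classes `0 0 1 0 0 1`, active pairs `0-2` -/
noncomputable def hD6_128 : List (List (List Eqn)) :=
  [[[([z1,z0,z0,z0,y1,y1],z0)],[([z9,z0,z0,z0,z0,z3],z14),([z0,z3,z0,z0,z0,z0],z2),([z0,z0,z0,z9,z0,z3],z2)],[([z3,z0,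
    z0,z0,z0,y3],z2),([z0,z3,z0,z0,z0,z0],z2),([z0,z0,z0,z1,z0,z3],z2)],[([z3,z0,z0,z0,z0,z1],z4),([z0,z3,z0,z0,z0,
    z0],z2),([z0,z0,z0,z3,z0,z1],z2)],[([z6,z0,z0,z0,z0,z0],z5),([z0,z3,z0,z0,z0,z0],z2),([z0,z0,z0,z1,z0,z1],z1)],
    [([z3,z0,z0,z0,z0,z0],z2),([z0,z3,z0,z0,z0,z0],z2),([z0,z0,z0,z3,z0,z3],z2)],[([z2,z0,z0,z0,y1,z0],z2),([z0,z3,z0,
    z0,z0,z0],z2)],[([z1,z0,z0,z0,y1,y1],z0),([z0,z3,z0,z0,z0,z0],z2)],[([z3,z0,z0,z0,z0,z3],z4),([z0,z3,z0,z0,z0,z0],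
    z2)],[([z0,z3,z0,z0,z0,z0],z2),([z0,z0,z0,z3,z0,z3],z2)],[([z0,z3,z0,z0,z0,z0],z2),([z0,z0,z0,z1,z0,z1],z1)],
    [([z0,z3,z0,z0,z0,z0],z2)]],
    [[([z0,z2,z0,z0,z0,z0],z1),([z0,z0,z0,z1,z0,z1],z1)],[([z0,z2,z0,z0,z0,z0],z1)],[([z1,z0,z0,z0,y1,y1],z0),([z0,z1,
    z0,z0,y1,y2],z0)],[([z3,z0,z0,z0,y1,z1],z2),([z0,z3,z0,z0,z1,z2],z4)],[([z3,z0,z0,z0,z0,y3],z2),([z0,z3,z0,z0,z0,
    z0],z2),([z0,z0,z0,z3,z0,z9],z2)],[([z3,z0,z0,z0,z0,y3],z4),([z0,z3,z0,z0,z0,z0],z2),([z0,z0,z0,z3,z0,y3],z2)],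
    [([z2,z0,z0,z0,z0,z0],z1),([z0,z3,z0,z0,z0,z0],z2),([z0,z0,z0,z1,z0,z1],z1)],[([z6,z0,z0,z0,y3,z0],z2),([z0,z3,z0,
    z0,z0,z0],z2)],[([z8,z0,z0,z0,z0,z0],z5),([z0,z2,z0,z0,z0,z0],z1),([z0,z0,z0,z4,z0,z4],z3)],[([z2,z0,z0,z0,z0,y2],
    z1),([z0,z2,z0,z0,z0,z0],z1),([z0,z0,z0,z1,z0,z3],z1)],[([z6,z0,z0,z0,z0,z2],z5),([z0,z2,z0,z0,z0,z0],z1),([z0,z0,
    z0,z3,z0,z1],z1)],[([z2,z0,z0,z0,z0,z0],z1),([z0,z2,z0,z0,z0,z0],z1),([z0,z0,z0,z1,z0,z1],z1)]],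
    [[([z4,z0,z0,z0,y2,z0],z1),([z0,z2,z0,z0,z0,z0],z1)],[([z3,z0,z0,z0,z0,y3],z2),([z0,z3,z0,z0,z0,y6],z2),([z0,z0,
    z0,z3,z0,z9],z2)],[([z9,z0,z0,z0,z0,z3],z8),([z0,z9,z0,z0,z0,z6],z10),([z0,z0,z0,z9,z0,z3],z2)],[([z2,z0,z0,z0,z0,
    z0],z1),([z0,z3,z0,z0,z0,z0],z1),([z0,z0,z0,z1,z0,z1],z1)],[([z2,z0,z0,z0,z0,z0],z1),([z0,z3,z0,z0,z0,z0],z1),
    ([z0,z0,z0,z3,z0,z0],z2),([z0,z0,z0,z0,z3,z0],z2)],[([z6,z0,z0,y3,z0,z0],z8),([z0,z3,z0,z3,z0,z0],z2),([z0,z0,z0,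
    z0,z3,z0],z2)],[([z2,z0,z0,y1,z0,y1],z2),([z0,z3,z0,z3,z0,z3],z4)],[([z2,z0,z0,y1,z0,y1],z2)],[([z2,z0,z0,z0,y1,
    z0],z2),([z0,z2,z0,z0,y1,z2],z2)],[([z3,z0,z0,z0,z0,z1],z4),([z0,z3,z0,z3,z0,z1],z4)],[([z2,z0,z0,z0,z0,y2],z1),
    ([z0,z2,z0,z0,z0,z0],z1),([z0,z0,z0,z2,z0,z6],z5)],[([z3,z0,z0,z0,z0,z1],z4),([z0,z2,z0,z0,z0,z0],z1),([z0,z0,z0,
    z6,z0,z2],z5)]],
    [[([z4,z0,z0,z0,z0,z0],z3),([z0,z2,z0,z0,z0,z0],z1),([z0,z0,z0,z1,z0,z1],z1)],[([z2,z0,z0,z0,y1,z0],z2),([z0,z2,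
    z0,z0,z0,z0],z1)],[([z3,z0,z0,z0,z0,z0],z2),([z0,z3,z0,z0,z0,z0],z1),([z0,z0,z0,z1,z0,z1],z1)],[([z3,z0,z0,z0,z0,
    z0],z2),([z0,z3,z0,z3,z0,z3],z4)],[([z2,z0,z0,z0,y1,z0],z2)],[([z1,z0,z0,y1,y1,z0],z0)],[([z0,z3,z0,z0,z0,z0],z1),
    ([z0,z0,z0,z1,z0,z1],z1)],[([z0,z3,z0,z3,z0,z3],z4)],[]]]

/-- symmetries -/
noncomputable def hS6_128 : List (Bool × ℕ × List ℕ) :=
  [(false,k0,[k0,k1,k2,k3,k4,k5]),(true,k2,[k2,k1,k0,k5,k4,k3])]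

/-- nodes 0 to 11 -/
noncomputable def hN6_128_0 : List HM :=
  [.base (.leafM k3 [k1,k2,k3,k4,k5,k0] [(z1,[y1,z1])] []),
    .base (.geo z9 k5 [(z14,y3),(z6,z0),(z4,z3),(z2,y3),(z10,y6),(z0,z9)] [(z1,[z1]),(z1,[z0,z3]),(z1,[y1,z0,z0,z9]),
    (z1,[z0,z0,z1]),(z1,[z0,y3,y1,y9,z9]),(z1,[])] k3),
    .base (.leafM k3 [k4,k5,k0,k1,k2,k3] [(z3,[y1,z1,z0,z3])] []),
    .base (.leafM k0 [k0,k1,k2,k3,k4,k5] [(z3,[y1,z1,z1,z3])] []),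
    .base (.leafM k8 [k5,k1,k3,k4] [(z1,[z0,z1]),(z1,[z0,y1,y3,y3,z3]),(z1,[z0,z0,z1])] [(k0,k2,z1,[z0,z0,z0,z1]),(k2,
    k0,z1,[z0,z0,z0,z1])]),
    .base (.leafM k10 [k3,k4,k5,k1] [(z1,[z0,y1,y1,y3,z3]),(z1,[z0,z1]),(z1,[z0,z0,z1])] [(k0,k2,z1,[z0,z0,z0,z1]),
    (k2,k0,z1,[z0,z0,z0,z1])]),
    .lp (nat_lit 257) [(nat_lit 300),(nat_lit 512),(nat_lit 388),(nat_lit 432),(nat_lit 336),(nat_lit 432)] [k174,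
    (nat_lit 208),k85,k85,k147,k147,(nat_lit 220),k30,k173,k173,k0,(nat_lit 250)] k0 [[k0,k0,k0,k0,k0,k0,k0,k46,k16,
    k0,k0,k0],[k0,k0,k88,k112,k0,k0,k0,k0,k0,k0,k0,k0],[k112,k0,k0,k0,k0,k0,k0,k44,k44,k0,k0,k0],[k88,k0,k0,k0,k0,k0,
    k0,k30,k0,k0,k0,k0],[k0,k0,k0,k0,k0,k0,k0,k0,k0,k0,k0,k0],[k0,k0,k0,k0,k0,k0,k0,k0,k0,k0,k0,(nat_lit 410)],[k0,
    k46,k30,k44,k0,k0,k0,k0,k0,k0,k0,k0],[k0,k0,k0,k0,k0,k0,k0,k0,k0,k30,k0,k0],[k0,k0,k0,k0,k0,k0,k30,k0,k0,k60,k0,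
    k0],[k0,k16,k0,k44,k0,k0,k0,k0,k0,k0,k0,k0],[k0,k0,k0,k0,(nat_lit 410),k0,k0,k0,k0,k0,k0,k0],[k0,k0,k0,k0,k0,k0,
    k0,k0,k0,k0,k0,k0]] (nat_lit 1200) k6
    [[(k1,(nat_lit 266)),(k7,(nat_lit 444)),(k10,(nat_lit 474)),(k4,(nat_lit 737))],[(k6,(nat_lit 242)),(k11,
    (nat_lit 242)),(k0,(nat_lit 334)),(k8,(nat_lit 335)),(k9,(nat_lit 335)),(k3,(nat_lit 423)),(k5,(nat_lit 473)),(k2,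
    (nat_lit 511))],[(k11,(nat_lit 347)),(k5,(nat_lit 362)),(k6,(nat_lit 377)),(k2,(nat_lit 400)),(k0,(nat_lit 423)),
    (k8,(nat_lit 440)),(k9,(nat_lit 470)),(k3,(nat_lit 512))],[(k11,(nat_lit 303)),(k6,(nat_lit 333)),(k3,
    (nat_lit 400)),(k8,(nat_lit 424)),(k5,(nat_lit 450)),(k9,(nat_lit 454)),(k0,(nat_lit 511)),(k2,(nat_lit 512))],
    [(k6,(nat_lit 285)),(k11,(nat_lit 285)),(k3,(nat_lit 362)),(k5,(nat_lit 388)),(k8,(nat_lit 406)),(k9,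
    (nat_lit 406)),(k2,(nat_lit 450)),(k0,(nat_lit 473))],[(k4,(nat_lit 388)),(k7,(nat_lit 505)),(k10,(nat_lit 535)),
    (k1,(nat_lit 737))],[(k10,(nat_lit 242)),(k1,(nat_lit 444)),(k4,(nat_lit 505)),(k7,(nat_lit 622))],[(k0,
    (nat_lit 242)),(k6,(nat_lit 242)),(k11,(nat_lit 242)),(k5,(nat_lit 285)),(k8,(nat_lit 289)),(k9,(nat_lit 289)),
    (k2,(nat_lit 333)),(k3,(nat_lit 377))],[(k11,(nat_lit 259)),(k6,(nat_lit 289)),(k8,(nat_lit 306)),(k0,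
    (nat_lit 335)),(k9,(nat_lit 336)),(k5,(nat_lit 406)),(k2,(nat_lit 454)),(k3,(nat_lit 470))],[(k11,(nat_lit 259)),
    (k8,(nat_lit 276)),(k6,(nat_lit 289)),(k9,(nat_lit 306)),(k0,(nat_lit 335)),(k5,(nat_lit 406)),(k2,(nat_lit 424)),
    (k3,(nat_lit 440))],[(k0,(nat_lit 242)),(k6,(nat_lit 242)),(k11,(nat_lit 242)),(k8,(nat_lit 259)),(k9,
    (nat_lit 259)),(k5,(nat_lit 285)),(k2,(nat_lit 303)),(k3,(nat_lit 347))],[(k7,(nat_lit 242)),(k1,(nat_lit 474)),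
    (k4,(nat_lit 535)),(k10,(nat_lit 682))]]
    [[k2,k0,k0,k1,k0,k1],[k2,k0,k0,k0,k1,k0],[k1,k0,k0,k2,k0,k1],[k1,k0,k0,k1,k1,k0],[k1,k0,k0,k0,k1,k1],[k0,k1,k0,k1,
    k0,k1],[k0,k0,k0,k2,k0,k2],[k0,k0,k0,k1,k1,k1],[k0,k0,k0,k1,k2,k1],[k0,k0,k0,k0,k3,k0]]
    [.contra [y1,z1,z1,y1,z1],.contra [z1,z1],.ref k1 k0 [(z1,[y3,z6,y2,y6,z6]),(z1,[z0,z0,z1]),(z1,[z6,y3,z1,z3,
    y3])],.ref k2 k0 [(z1,[z3,z0,z1,z3,y3]),(z1,[z0,z0,z1]),(z1,[y2,z1,y1,y3,z3])],.ref k3 k0 [(z1,[z1,z1]),(z1,[z0,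
    z0,z1]),(z1,[y2,z1,y1,y3,z3])],.contra [y1,z1,z0,y1,z1],.ref k4 k1 [(z2,[z3,y6,z2,z18,y6]),(z1,[z0,z0,z1]),(z2,
    [z1])],.contra [z1,z0,z1,z1,y1],.ref k5 k1 [(z2,[y3,y3,y1,z3,z3]),(z1,[z0,z0,z1]),(z1,[y3,z0,y2,y6,z6])],
    .ref k5 k1 [(z2,[y1,y3,z0,z6]),(z1,[z0,z0,z1]),(z1,[y1,z0,y1,y3,z3])]],
    .base (.leafM k3 [k1,k2,k3,k4,k5,k0] [(z1,[y1,z0,z1])] []),
    .base (.leafM k0 [k1,k2,k3,k4,k5,k0] [(z3,[y1,y1,z0,z3])] []),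
    .base (.leafM k10 [k3,k4,k5,k1] [(z1,[y1,y1,y3,z3]),(z1,[z1]),(z1,[z0,z1])] [(k0,k2,z1,[z0,z0,z1]),(k2,k0,z1,[z0,
    z0,z1])]),
    .base (.leafM k8 [k5,k1,k3,k4] [(z1,[z1]),(z1,[y1,y3,y3,z3]),(z1,[z0,z1])] [(k0,k2,z1,[z0,z0,z1]),(k2,k0,z1,[z0,
    z0,z1])]),
    .lp (nat_lit 257) [(nat_lit 2815718),(nat_lit 2922644),(nat_lit 3207780),(nat_lit 2815718),(nat_lit 2138520),
    (nat_lit 3207780)] [(nat_lit 894815),(nat_lit 894815),(nat_lit 841352),(nat_lit 841352),(nat_lit 698784),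
    (nat_lit 698784),(nat_lit 1440095),(nat_lit 349535),(nat_lit 1233414),(nat_lit 1233414),k0,
    (nat_lit 1397568)] k0 [[k0,k0,k0,k0,k0,k0,k0,k0,k0,k0,k0,k0],[k0,k0,k0,(nat_lit 71284),k0,k0,k0,k0,k0,k0,k0,k0],
    [(nat_lit 71284),k0,k0,k0,k0,k0,k0,k0,k0,k0,k0,k0],[k0,k0,k0,k0,k0,k0,k0,k0,k0,k0,k0,k0],[k0,k0,k0,k0,k0,
    (nat_lit 784124),k0,k0,k0,k0,k0,k0],[k0,k0,k0,k0,k0,k0,k0,k0,k0,k0,k0,(nat_lit 2530582)],[k0,k0,k0,k0,k0,k0,k0,k0,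
    k0,k0,k0,k0],[k0,k0,k0,k0,k0,k0,k0,k0,k0,k0,k0,k0],[k0,k0,k0,k0,k0,k0,k0,k0,k0,k0,k0,k0],[k0,k0,k0,k0,k0,k0,k0,k0,
    k0,k0,k0,k0],[k0,k0,k0,k0,(nat_lit 2530582),k0,k0,k0,k0,k0,k0,k0],[k0,k0,k0,k0,k0,k0,k0,k0,k0,k0,k0,
    k0]] (nat_lit 8554080) k6
    [[(k1,(nat_lit 2815718)),(k7,(nat_lit 3360998)),(k10,(nat_lit 3710533)),(k4,(nat_lit 5542331))],[(k6,
    (nat_lit 2270438)),(k11,(nat_lit 2312965)),(k8,(nat_lit 2477119)),(k9,(nat_lit 2477119)),(k0,(nat_lit 2815718)),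
    (k2,(nat_lit 2869181)),(k3,(nat_lit 2869181)),(k5,(nat_lit 3083033))],[(k6,(nat_lit 2323901)),(k11,
    (nat_lit 2366428)),(k8,(nat_lit 2530582)),(k9,(nat_lit 2530582)),(k2,(nat_lit 2851360)),(k0,(nat_lit 2869181)),
    (k3,(nat_lit 2922644)),(k5,(nat_lit 3065212))],[(k6,(nat_lit 2323901)),(k11,(nat_lit 2366428)),(k8,
    (nat_lit 2530582)),(k9,(nat_lit 2530582)),(k3,(nat_lit 2851360)),(k0,(nat_lit 2869181)),(k2,(nat_lit 2922644)),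
    (k5,(nat_lit 3065212))],[(k6,(nat_lit 2466469)),(k11,(nat_lit 2508996)),(k8,(nat_lit 2673150)),(k9,
    (nat_lit 2673150)),(k2,(nat_lit 3065212)),(k3,(nat_lit 3065212)),(k0,(nat_lit 3083033)),(k5,(nat_lit 3207780))],
    [(k4,(nat_lit 2423656)),(k7,(nat_lit 3557029)),(k10,(nat_lit 3906564)),(k1,(nat_lit 5542331))],[(k10,
    (nat_lit 1725231)),(k1,(nat_lit 3360998)),(k4,(nat_lit 3557029)),(k7,(nat_lit 4690402))],[(k6,(nat_lit 1725158)),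
    (k11,(nat_lit 1767685)),(k8,(nat_lit 1931839)),(k9,(nat_lit 1931839)),(k0,(nat_lit 2270438)),(k2,
    (nat_lit 2323901)),(k3,(nat_lit 2323901)),(k5,(nat_lit 2466469))],[(k6,(nat_lit 1931839)),(k11,(nat_lit 1974366)),
    (k8,(nat_lit 2138520)),(k9,(nat_lit 2138520)),(k0,(nat_lit 2477119)),(k2,(nat_lit 2530582)),(k3,
    (nat_lit 2530582)),(k5,(nat_lit 2673150))],[(k6,(nat_lit 1931839)),(k11,(nat_lit 1974366)),(k8,(nat_lit 2138520)),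
    (k9,(nat_lit 2138520)),(k0,(nat_lit 2477119)),(k2,(nat_lit 2530582)),(k3,(nat_lit 2530582)),(k5,
    (nat_lit 2673150))],[(k6,(nat_lit 1767685)),(k11,(nat_lit 1810212)),(k8,(nat_lit 1974366)),(k9,(nat_lit 1974366)),
    (k0,(nat_lit 2312965)),(k2,(nat_lit 2366428)),(k3,(nat_lit 2366428)),(k5,(nat_lit 2508996))],[(k7,
    (nat_lit 1725231)),(k1,(nat_lit 3710533)),(k4,(nat_lit 3906564)),(k10,(nat_lit 4605348))]]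
    [[k2,k0,k0,k0,k1,k0],[k1,k0,k0,k1,k1,k0],[k1,k0,k0,k0,k1,k1],[k0,k2,k0,k0,k1,k0],[k0,k1,k0,k1,k0,k1],[k0,k1,k0,k0,
    k2,k0],[k0,k0,k2,k0,k1,k0],[k0,k0,k1,k1,k1,k0],[k0,k0,k0,k2,k0,k2],[k0,k0,k0,k1,k1,k1],[k0,k0,k0,k1,k2,k1],[k0,k0,
    k0,k0,k3,k0]]
    [.ref k6 k1 [(z1,[y1,z0,z2]),(z1,[z0,z1])],.ref k7 k1 [(z1,[y1,z0,z1]),(z1,[z0,z1])],.ref k8 k1 [(z1,[y3,y1,z0,
    z3]),(z1,[z0,z1])],.ref k9 k0 [(z1,[z0,z1]),(z1,[y3,z1,y3,z3])],.contra [y1,z0,y1,z1],.ref k9 k0 [(z1,[z0,z1]),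
    (z2,[y3,y1,y6,z6])],.ref k6 k0 [(z1,[y1,z0,z2]),(z1,[z0,z1])],.ref k8 k0 [(z1,[y3,y1,z0,z3]),(z1,[z0,z1])],
    .ref k10 k0 [(z1,[z0,z1]),(z2,[z1])],.contra [z1,z1,z1,y1],.ref k9 k0 [(z1,[z0,z1]),(z1,[y3,y2,y6,z6])],
    .ref k9 k0 [(z1,[z0,z1]),(z1,[y1,y1,y3,z3])]]]

theorem hB6_128_0 : blkB [0, 0, 1, 0, 0, 1] [(0, 2)] sp6 hS6_128 (pcls (n := 6) [0, 0, 1, 0, 0, 1]) hD6_128 45 0 hN6_128_0 = true := by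
  decide +kernel

/-- nodes 12 to 23 -/
noncomputable def hN6_128_1 : List HM :=
  [.base (.leafM k9 [k5,k1,k3,k4] [(z1,[z1]),(z1,[y1,y2,y2,z2]),(z1,[z0,z1])] [(k0,k2,z1,[z0,z0,z1]),(k2,k0,z1,[z0,z0,
    z1])]),
    .lp (nat_lit 257) [(nat_lit 3355880),(nat_lit 3355880),(nat_lit 3355880),(nat_lit 3355880),(nat_lit 3355880),
    (nat_lit 3355880)] [(nat_lit 662760),(nat_lit 662760),(nat_lit 662760),(nat_lit 662760),(nat_lit 662760),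
    (nat_lit 662760),(nat_lit 1325520),k0,(nat_lit 662760),(nat_lit 662760),(nat_lit 50280),
    (nat_lit 1275240)] k0 [[k0,k0,k0,k0,k0,k0,k0,k0,k0,k0,k0,k0],[k0,k0,k0,(nat_lit 838970),k0,k0,k0,k0,k0,k0,k0,k0],
    [(nat_lit 838970),k0,k0,k0,k0,k0,k0,k0,k0,k0,k0,k0],[k0,k0,k0,k0,k0,k0,k0,k0,k0,k0,k0,k0],[k0,k0,k0,k0,k0,k0,k0,
    k0,k0,k0,k0,k0],[k0,k0,k0,k0,k0,k0,k0,k0,k0,k0,k0,(nat_lit 2600807)],[k0,k0,k0,k0,k0,k0,k0,k0,k0,k0,k0,k0],[k0,k0,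
    k0,k0,k0,k0,k0,k0,k0,k0,k0,k0],[k0,k0,k0,k0,k0,k0,k0,k0,k0,k0,k0,k0],[k0,k0,k0,k0,k0,k0,k0,k0,k0,k0,k0,k0],[k0,k0,
    k0,k0,(nat_lit 2600807),k0,k0,k0,k0,k0,k0,k0],[k0,k0,k0,k0,k0,k0,k0,k0,k0,k0,k0,k0]] (nat_lit 10067640) k6
    [[(k1,(nat_lit 3355880)),(k10,(nat_lit 3968360)),(k7,(nat_lit 4018640)),(k4,(nat_lit 5956687))],[(k6,
    (nat_lit 2693120)),(k11,(nat_lit 2743400)),(k0,(nat_lit 3355880)),(k2,(nat_lit 3355880)),(k3,(nat_lit 3355880)),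
    (k8,(nat_lit 3355880)),(k9,(nat_lit 3355880)),(k5,(nat_lit 4194850))],[(k2,(nat_lit 2516910)),(k6,
    (nat_lit 2693120)),(k11,(nat_lit 2743400)),(k0,(nat_lit 3355880)),(k3,(nat_lit 3355880)),(k5,(nat_lit 3355880)),
    (k8,(nat_lit 3355880)),(k9,(nat_lit 3355880))],[(k3,(nat_lit 2516910)),(k6,(nat_lit 2693120)),(k11,
    (nat_lit 2743400)),(k0,(nat_lit 3355880)),(k2,(nat_lit 3355880)),(k5,(nat_lit 3355880)),(k8,(nat_lit 3355880)),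
    (k9,(nat_lit 3355880))],[(k6,(nat_lit 2693120)),(k11,(nat_lit 2743400)),(k2,(nat_lit 3355880)),(k3,
    (nat_lit 3355880)),(k5,(nat_lit 3355880)),(k8,(nat_lit 3355880)),(k9,(nat_lit 3355880)),(k0,(nat_lit 4194850))],
    [(k4,(nat_lit 3355880)),(k10,(nat_lit 3968360)),(k7,(nat_lit 4018640)),(k1,(nat_lit 5956687))],[(k10,
    (nat_lit 2030313)),(k1,(nat_lit 4018640)),(k4,(nat_lit 4018640)),(k7,(nat_lit 4681400))],[(k6,(nat_lit 2030360)),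
    (k11,(nat_lit 2080640)),(k0,(nat_lit 2693120)),(k2,(nat_lit 2693120)),(k3,(nat_lit 2693120)),(k5,
    (nat_lit 2693120)),(k8,(nat_lit 2693120)),(k9,(nat_lit 2693120))],[(k6,(nat_lit 2693120)),(k11,(nat_lit 2743400)),
    (k0,(nat_lit 3355880)),(k2,(nat_lit 3355880)),(k3,(nat_lit 3355880)),(k5,(nat_lit 3355880)),(k8,
    (nat_lit 3355880)),(k9,(nat_lit 3355880))],[(k6,(nat_lit 2693120)),(k11,(nat_lit 2743400)),(k0,(nat_lit 3355880)),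
    (k2,(nat_lit 3355880)),(k3,(nat_lit 3355880)),(k5,(nat_lit 3355880)),(k8,(nat_lit 3355880)),(k9,
    (nat_lit 3355880))],[(k6,(nat_lit 2080640)),(k11,(nat_lit 2130920)),(k0,(nat_lit 2743400)),(k2,(nat_lit 2743400)),
    (k3,(nat_lit 2743400)),(k5,(nat_lit 2743400)),(k8,(nat_lit 2743400)),(k9,(nat_lit 2743400))],[(k7,
    (nat_lit 2030313)),(k1,(nat_lit 3968360)),(k4,(nat_lit 3968360)),(k10,(nat_lit 4580840))]]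
    [[k0,k3,k0,k0,k0,k0],[k0,k2,k0,k1,k0,k1],[k0,k2,k0,k0,k1,k0],[k0,k1,k0,k1,k0,k1],[k0,k0,k0,k2,k0,k2],[k0,k0,k0,k1,
    k1,k1]]
    [.contra [z1,y1],.ref k12 k0 [(z1,[z0,z1]),(z1,[z1,y1])],.contra [z1,y1],.contra [y1,z0,y1,z1],.ref k12 k0 [(z1,
    [z0,z1]),(z2,[z1])],.contra [z1,z1,z1,y1]],
    .base (.leafM k3 [k1,k2,k3,k4,k5,k0] [(z1,[y1,z0,z1])] []),
    .base (.leafM k0 [k1,k2,k3,k4,k5,k0] [(z3,[y1,y1,z0,z3])] []),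
    .base (.leafM k3 [k4,k5,k0,k1,k2,k3] [(z3,[y1,z1,z0,z3])] []),
    .base (.leafM k0 [k0,k1,k2,k3,k4,k5] [(z3,[y1,z1,z1,z3])] []),
    .base (.leafM k8 [k5,k1,k3,k4] [(z1,[z0,z1]),(z1,[z0,y1,y3,y3,z3]),(z1,[z0,z0,z1])] [(k0,k2,z1,[z0,z0,z0,z1]),(k2,
    k0,z1,[z0,z0,z0,z1])]),
    .lp (nat_lit 257) [(nat_lit 864),(nat_lit 862),(nat_lit 864),(nat_lit 674),(nat_lit 672),(nat_lit 864)] [k190,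
    k190,k191,k191,k190,k190,(nat_lit 440),k130,(nat_lit 286),(nat_lit 286),k0,(nat_lit 380)] k0 [[k0,k0,k0,k0,k0,k0,
    k0,k88,k148,k0,k0,k0],[k0,k0,k0,k62,k0,k0,k0,k0,k0,k0,k0,k0],[k62,k0,k0,k0,k0,k0,k0,k0,k0,k0,k0,k0],[k0,k0,k0,k0,
    k0,k0,k0,k106,k166,k0,k0,k0],[k0,k0,k0,k0,k0,(nat_lit 380),k0,k0,k0,k0,k0,k0],[k0,k0,k0,k0,k0,k0,k0,k0,k0,k0,k0,
    (nat_lit 630)],[k0,k88,k106,k0,k0,k0,k0,k0,k0,k0,k0,k0],[k0,k0,k0,k0,k0,k0,k120,k0,k0,k60,k0,k0],[k0,k0,k0,k0,k0,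
    k0,k60,k0,k0,k0,k0,k0],[k0,k148,k166,k0,k0,k0,k0,k0,k0,k0,k0,k0],[k0,k0,k0,k0,(nat_lit 630),k0,k0,k0,k0,k0,k0,k0],
    [k0,k0,k0,k0,k0,k0,k0,k0,k0,k0,k0,k0]] (nat_lit 2400) k6
    [[(k1,(nat_lit 864)),(k7,(nat_lit 924)),(k10,(nat_lit 1054)),(k4,(nat_lit 1494))],[(k6,(nat_lit 526)),(k11,
    (nat_lit 526)),(k8,(nat_lit 768)),(k9,(nat_lit 768)),(k2,(nat_lit 863)),(k3,(nat_lit 863)),(k0,(nat_lit 864)),(k5,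
    (nat_lit 926))],[(k6,(nat_lit 613)),(k11,(nat_lit 673)),(k2,(nat_lit 800)),(k9,(nat_lit 855)),(k3,(nat_lit 862)),
    (k0,(nat_lit 863)),(k5,(nat_lit 863)),(k8,(nat_lit 915))],[(k6,(nat_lit 613)),(k11,(nat_lit 673)),(k3,
    (nat_lit 800)),(k2,(nat_lit 862)),(k0,(nat_lit 863)),(k5,(nat_lit 863)),(k9,(nat_lit 873)),(k8,(nat_lit 933))],
    [(k6,(nat_lit 508)),(k11,(nat_lit 508)),(k8,(nat_lit 768)),(k9,(nat_lit 768)),(k2,(nat_lit 863)),(k3,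
    (nat_lit 863)),(k5,(nat_lit 864)),(k0,(nat_lit 926))],[(k4,(nat_lit 484)),(k7,(nat_lit 924)),(k10,(nat_lit 1054)),
    (k1,(nat_lit 1494))],[(k10,(nat_lit 484)),(k1,(nat_lit 924)),(k4,(nat_lit 924)),(k7,(nat_lit 1364))],[(k6,
    (nat_lit 484)),(k11,(nat_lit 484)),(k5,(nat_lit 508)),(k8,(nat_lit 518)),(k9,(nat_lit 518)),(k0,(nat_lit 526)),
    (k2,(nat_lit 613)),(k3,(nat_lit 613))],[(k6,(nat_lit 518)),(k9,(nat_lit 552)),(k11,(nat_lit 578)),(k8,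
    (nat_lit 612)),(k0,(nat_lit 768)),(k5,(nat_lit 768)),(k3,(nat_lit 855)),(k2,(nat_lit 873))],[(k6,(nat_lit 518)),
    (k11,(nat_lit 578)),(k9,(nat_lit 612)),(k8,(nat_lit 672)),(k0,(nat_lit 768)),(k5,(nat_lit 768)),(k3,
    (nat_lit 915)),(k2,(nat_lit 933))],[(k6,(nat_lit 484)),(k11,(nat_lit 484)),(k5,(nat_lit 508)),(k0,(nat_lit 526)),
    (k8,(nat_lit 578)),(k9,(nat_lit 578)),(k2,(nat_lit 673)),(k3,(nat_lit 673))],[(k7,(nat_lit 484)),(k1,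
    (nat_lit 1054)),(k4,(nat_lit 1054)),(k10,(nat_lit 1244))]]
    [[k1,k0,k0,k1,k1,k0],[k0,k1,k2,k0,k0,k0],[k0,k1,k0,k1,k0,k1],[k0,k0,k2,k1,k0,k1],[k0,k0,k2,k0,k1,k0],[k0,k0,k1,k1,
    k1,k0],[k0,k0,k0,k2,k0,k2],[k0,k0,k0,k1,k1,k1],[k0,k0,k0,k1,k2,k1],[k0,k0,k0,k0,k3,k0]]
    [.ref k16 k0 [(z1,[z3,z0,z1,z3,y3]),(z1,[z0,z0,z1]),(z1,[y6,z1,y3,y9,z9])],.contra [z3,z1,y1,y9,z3],.contra [y1,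
    z0,z0,y1,z1],.contra [y3,z1,y1,z3,z3],.contra [y3,y1,z4,z6],.ref k17 k1 [(z1,[y3,y1,z0,z6]),(z1,[z0,z0,z1]),(z1,
    [y6,y1,y1,z3,z3])],.ref k18 k0 [(z6,[y3,z2,y2,y6,z6]),(z1,[z0,z0,z1]),(z2,[z1])],.contra [z1,z0,z1,z1,y1],
    .ref k5 k0 [(z2,[z3,z1,z1,z3,y3]),(z1,[z0,z0,z1]),(z1,[y3,z0,y2,y6,z6])],.ref k5 k0 [(z2,[z1,z1]),(z1,[z0,z0,z1]),
    (z1,[y1,z0,y1,y3,z3])]],
    .lp (nat_lit 257) [(nat_lit 794),(nat_lit 812),(nat_lit 794),(nat_lit 794),(nat_lit 812),(nat_lit 794)] [k155,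
    k155,k146,k146,k155,k155,(nat_lit 310),k0,k146,k146,k0,(nat_lit 310)] k0 [[k0,k0,k0,k0,k0,k0,k0,k135,k21,k0,k0,
    k0],[k0,k0,k0,(nat_lit 212),k0,k0,k0,k0,k0,k0,k0,k0],[(nat_lit 212),k0,k0,k0,k0,k0,k0,k0,k0,k0,k0,k0],[k0,k0,k0,
    k0,k0,k0,k0,k155,k41,k0,k0,k0],[k0,k0,k0,k0,k0,k0,k0,k0,k0,k0,k0,k0],[k0,k0,k0,k0,k0,k0,k0,k0,k0,k0,k0,
    (nat_lit 620)],[k0,k135,k155,k0,k0,k0,k0,k0,k0,k0,k0,k0],[k0,k0,k0,k0,k0,k0,k0,k0,k0,k0,k0,k0],[k0,k0,k0,k0,k0,k0,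
    k0,k0,k0,k0,k0,k0],[k0,k21,k41,k0,k0,k0,k0,k0,k0,k0,k0,k0],[k0,k0,k0,k0,(nat_lit 620),k0,k0,k0,k0,k0,k0,k0],[k0,
    k0,k0,k0,k0,k0,k0,k0,k0,k0,k0,k0]] (nat_lit 2400) k6
    [[(k1,(nat_lit 794)),(k7,(nat_lit 949)),(k10,(nat_lit 949)),(k4,(nat_lit 1414))],[(k6,(nat_lit 504)),(k11,
    (nat_lit 618)),(k0,(nat_lit 794)),(k2,(nat_lit 803)),(k3,(nat_lit 803)),(k8,(nat_lit 803)),(k9,(nat_lit 803)),(k5,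
    (nat_lit 1006))],[(k2,(nat_lit 600)),(k6,(nat_lit 648)),(k11,(nat_lit 648)),(k0,(nat_lit 803)),(k5,(nat_lit 803)),
    (k3,(nat_lit 812)),(k8,(nat_lit 833)),(k9,(nat_lit 947))],[(k3,(nat_lit 600)),(k6,(nat_lit 648)),(k11,
    (nat_lit 648)),(k0,(nat_lit 803)),(k5,(nat_lit 803)),(k2,(nat_lit 812)),(k8,(nat_lit 853)),(k9,(nat_lit 967))],
    [(k6,(nat_lit 484)),(k11,(nat_lit 598)),(k5,(nat_lit 794)),(k2,(nat_lit 803)),(k3,(nat_lit 803)),(k8,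
    (nat_lit 803)),(k9,(nat_lit 803)),(k0,(nat_lit 1006))],[(k4,(nat_lit 794)),(k7,(nat_lit 949)),(k10,(nat_lit 949)),
    (k1,(nat_lit 1414))],[(k10,(nat_lit 484)),(k1,(nat_lit 949)),(k4,(nat_lit 949)),(k7,(nat_lit 1104))],[(k5,
    (nat_lit 484)),(k6,(nat_lit 484)),(k11,(nat_lit 484)),(k0,(nat_lit 504)),(k2,(nat_lit 648)),(k3,(nat_lit 648)),
    (k8,(nat_lit 648)),(k9,(nat_lit 648))],[(k6,(nat_lit 648)),(k11,(nat_lit 648)),(k0,(nat_lit 803)),(k5,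
    (nat_lit 803)),(k8,(nat_lit 812)),(k9,(nat_lit 812)),(k3,(nat_lit 947)),(k2,(nat_lit 967))],[(k6,(nat_lit 648)),
    (k11,(nat_lit 648)),(k0,(nat_lit 803)),(k5,(nat_lit 803)),(k8,(nat_lit 812)),(k9,(nat_lit 812)),(k3,
    (nat_lit 833)),(k2,(nat_lit 853))],[(k6,(nat_lit 484)),(k11,(nat_lit 484)),(k5,(nat_lit 598)),(k0,(nat_lit 618)),
    (k2,(nat_lit 648)),(k3,(nat_lit 648)),(k8,(nat_lit 648)),(k9,(nat_lit 648))],[(k7,(nat_lit 484)),(k1,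
    (nat_lit 949)),(k4,(nat_lit 949)),(k10,(nat_lit 1104))]]
    [[k0,k3,k0,k0,k0,k0],[k0,k2,k0,k1,k0,k1],[k0,k1,k0,k1,k0,k1],[k0,k0,k2,k1,k0,k1],[k0,k0,k0,k2,k0,k2],[k0,k0,k0,k1,
    k1,k1]]
    [.contra [z6,z1,y9],.contra [z12,z1,y12,y3],.contra [z4,z1,y2,y1],.contra [y4,z1,z0,z1,z8],.contra [z6,z1,z0,y3],
    .contra [z6,z1,z3,z0,z6,y6]],
    .base (.leafM k3 [k4,k5,k0,k1,k2,k3] [(z2,[y1,z1,z0,z2])] []),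
    .base (.leafM k0 [k0,k1,k2,k3,k4,k5] [(z6,[y1,z3,z2,z6])] []),
    .base (.leafM k9 [k5,k1,k3,k4] [(z1,[z0,z1]),(z1,[z0,y1,y2,y2,z2]),(z1,[z0,z0,z1])] [(k0,k2,z1,[z0,z0,z0,z1]),(k2,
    k0,z1,[z0,z0,z0,z1])])]

theorem hB6_128_1 : blkB [0, 0, 1, 0, 0, 1] [(0, 2)] sp6 hS6_128 (pcls (n := 6) [0, 0, 1, 0, 0, 1]) hD6_128 45 1 hN6_128_1 = true := by
  decide +kernel

/-- nodes 24 to 35 -/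
noncomputable def hN6_128_2 : List HM :=
  [.lp (nat_lit 257) [(nat_lit 358),(nat_lit 484),(nat_lit 358),(nat_lit 397),(nat_lit 406),(nat_lit 397)] [k97,k97,
    k34,k34,k97,k97,k155,k0,k73,k73,k0,k155] k0 [[k0,k0,k0,k0,k0,k0,k0,k0,k0,k0,k0,k0],[k0,k0,k0,k184,k0,k0,k0,k0,k0,
    k0,k0,k0],[k184,k0,k0,k0,k0,k0,k0,k39,k39,k0,k0,k0],[k0,k0,k0,k0,k0,k0,k0,k10,k10,k0,k0,k0],[k0,k0,k0,k0,k0,k0,k0,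
    k0,k0,k0,k0,k0],[k0,k0,k0,k0,k0,k0,k0,k0,k0,k0,k0,(nat_lit 310)],[k0,k0,k10,k39,k0,k0,k0,k0,k0,k0,k0,k0],[k0,k0,
    k0,k0,k0,k0,k0,k0,k0,k0,k0,k0],[k0,k0,k0,k0,k0,k0,k0,k0,k0,k0,k0,k0],[k0,k0,k10,k39,k0,k0,k0,k0,k0,k0,k0,k0],[k0,
    k0,k0,k0,(nat_lit 310),k0,k0,k0,k0,k0,k0,k0],[k0,k0,k0,k0,k0,k0,k0,k0,k0,k0,k0,k0]] (nat_lit 1200) k6
    [[(k1,(nat_lit 358)),(k7,(nat_lit 455)),(k10,(nat_lit 455)),(k4,(nat_lit 668))],[(k6,(nat_lit 300)),(k11,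
    (nat_lit 300)),(k0,(nat_lit 358)),(k8,(nat_lit 382)),(k9,(nat_lit 382)),(k2,(nat_lit 421)),(k3,(nat_lit 421)),(k5,
    (nat_lit 542))],[(k2,(nat_lit 300)),(k6,(nat_lit 363)),(k11,(nat_lit 363)),(k0,(nat_lit 421)),(k5,(nat_lit 421)),
    (k8,(nat_lit 445)),(k9,(nat_lit 445)),(k3,(nat_lit 484))],[(k3,(nat_lit 300)),(k6,(nat_lit 324)),(k11,
    (nat_lit 324)),(k0,(nat_lit 421)),(k5,(nat_lit 421)),(k8,(nat_lit 455)),(k9,(nat_lit 455)),(k2,(nat_lit 484))],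
    [(k6,(nat_lit 290)),(k11,(nat_lit 290)),(k5,(nat_lit 358)),(k2,(nat_lit 421)),(k3,(nat_lit 421)),(k8,
    (nat_lit 421)),(k9,(nat_lit 421)),(k0,(nat_lit 542))],[(k4,(nat_lit 358)),(k7,(nat_lit 455)),(k10,(nat_lit 455)),
    (k1,(nat_lit 668))],[(k10,(nat_lit 242)),(k1,(nat_lit 455)),(k4,(nat_lit 455)),(k7,(nat_lit 552))],[(k6,
    (nat_lit 242)),(k11,(nat_lit 242)),(k5,(nat_lit 290)),(k0,(nat_lit 300)),(k2,(nat_lit 324)),(k8,(nat_lit 324)),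
    (k9,(nat_lit 324)),(k3,(nat_lit 363))],[(k6,(nat_lit 324)),(k11,(nat_lit 324)),(k0,(nat_lit 382)),(k8,
    (nat_lit 406)),(k9,(nat_lit 406)),(k5,(nat_lit 421)),(k3,(nat_lit 445)),(k2,(nat_lit 455))],[(k6,(nat_lit 324)),
    (k11,(nat_lit 324)),(k0,(nat_lit 382)),(k8,(nat_lit 406)),(k9,(nat_lit 406)),(k5,(nat_lit 421)),(k3,
    (nat_lit 445)),(k2,(nat_lit 455))],[(k6,(nat_lit 242)),(k11,(nat_lit 242)),(k5,(nat_lit 290)),(k0,(nat_lit 300)),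
    (k2,(nat_lit 324)),(k8,(nat_lit 324)),(k9,(nat_lit 324)),(k3,(nat_lit 363))],[(k7,(nat_lit 242)),(k1,
    (nat_lit 455)),(k4,(nat_lit 455)),(k10,(nat_lit 552))]]
    [[k2,k0,k0,k0,k1,k0],[k1,k0,k0,k1,k1,k0],[k1,k0,k0,k0,k1,k1],[k0,k3,k0,k0,k0,k0],[k0,k1,k0,k1,k0,k1],[k0,k0,k2,k1,
    k0,k1],[k0,k0,k0,k2,k0,k2],[k0,k0,k0,k1,k1,k1]]
    [.ref k20 k0 [(z1,[z2,z1]),(z1,[z0,z0,z1]),(z1,[y2,z1,y2,y4,z4])],.ref k21 k0 [(z1,[z2,z0,z1,z2,y2]),(z1,[z0,z0,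
    z1]),(z2,[y4,z1,y3,y6,z6])],.ref k22 k0 [(z1,[z2,z1]),(z1,[z0,z0,z1]),(z2,[y4,z1,y3,y6,z6])],.contra [z1,z0,y1],
    .contra [y1,z0,z0,y1,z1],.contra [y2,z1,y1,z2,z2],.ref k23 k0 [(z2,[y1,z1,y1,y2,z2]),(z1,[z0,z0,z1]),(z2,[z1])],
    .contra [z1,z0,z1,z1,y1]],
    .base (.leafM k3 [k1,k2,k3,k4,k5,k0] [(z3,[y1,y1,y1,z0,z3])] []),
    .base (.leafM k0 [k1,k2,k3,k4,k5,k0] [(z9,[y1,y1,z0,z0,z9])] []),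
    .base (.leafM k11 [k3,k4,k5,k1] [(z1,[z0,y1,y3,y3,z3]),(z1,[z0,z1]),(z1,[z0,z0,z1])] [(k0,k2,z1,[z0,z0,z0,z1]),
    (k2,k0,z1,[z0,z0,z0,z1])]),
    .base (.leafM k11 [k3,k4,k5,k1] [(z1,[z0,z0,z0,z1]),(z1,[z0,z1]),(z3,[z0,y1,z0,y1,y3,z3])] [(k0,k2,z1,[z0,z0,z0,
    z0,z1]),(k2,k0,z1,[z0,z0,z0,z0,z1])]),
    .lp (nat_lit 257) [(nat_lit 1510),(nat_lit 1936),(nat_lit 1510),(nat_lit 1510),(nat_lit 1624),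
    (nat_lit 1510)] [(nat_lit 271),(nat_lit 271),k58,k58,(nat_lit 271),(nat_lit 271),(nat_lit 542),k0,(nat_lit 214),
    (nat_lit 214),k0,(nat_lit 542)] k0 [[k0,k0,k0,k0,k0,k0,k0,k0,k0,k0,k0,k0],[k0,k0,k0,(nat_lit 736),k0,k0,k0,k0,k0,
    k0,k0,k0],[(nat_lit 736),k0,k0,k0,k0,k0,k0,k156,k156,k0,k0,k0],[k0,k0,k0,k0,k0,k0,k0,k40,k40,k0,k0,k0],[k0,k0,k0,
    k0,k0,k0,k0,k0,k0,k0,k0,k0],[k0,k0,k0,k0,k0,k0,k0,k0,k0,k0,k0,(nat_lit 1084)],[k0,k0,k40,k156,k0,k0,k0,k0,k0,k0,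
    k0,k0],[k0,k0,k0,k0,k0,k0,k0,k0,k0,k0,k0,k0],[k0,k0,k0,k0,k0,k0,k0,k0,k0,k0,k0,k0],[k0,k0,k40,k156,k0,k0,k0,k0,k0,
    k0,k0,k0],[k0,k0,k0,k0,(nat_lit 1084),k0,k0,k0,k0,k0,k0,k0],[k0,k0,k0,k0,k0,k0,k0,k0,k0,k0,k156,
    k0]] (nat_lit 4800) k6
    [[(k1,(nat_lit 1354)),(k7,(nat_lit 1781)),(k10,(nat_lit 1781)),(k4,(nat_lit 2594))],[(k6,(nat_lit 1239)),(k11,
    (nat_lit 1239)),(k0,(nat_lit 1510)),(k8,(nat_lit 1567)),(k9,(nat_lit 1567)),(k2,(nat_lit 1723)),(k3,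
    (nat_lit 1723)),(k5,(nat_lit 2246))],[(k2,(nat_lit 1200)),(k6,(nat_lit 1452)),(k11,(nat_lit 1452)),(k0,
    (nat_lit 1723)),(k5,(nat_lit 1723)),(k8,(nat_lit 1780)),(k9,(nat_lit 1780)),(k3,(nat_lit 1936))],[(k3,
    (nat_lit 1200)),(k6,(nat_lit 1296)),(k11,(nat_lit 1296)),(k0,(nat_lit 1723)),(k5,(nat_lit 1723)),(k8,
    (nat_lit 1820)),(k9,(nat_lit 1820)),(k2,(nat_lit 1936))],[(k6,(nat_lit 1199)),(k11,(nat_lit 1199)),(k5,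
    (nat_lit 1510)),(k2,(nat_lit 1723)),(k3,(nat_lit 1723)),(k8,(nat_lit 1723)),(k9,(nat_lit 1723)),(k0,
    (nat_lit 2246))],[(k4,(nat_lit 1510)),(k7,(nat_lit 1781)),(k10,(nat_lit 1781)),(k1,(nat_lit 2594))],[(k10,
    (nat_lit 968)),(k1,(nat_lit 1781)),(k4,(nat_lit 1781)),(k7,(nat_lit 2052))],[(k6,(nat_lit 968)),(k11,
    (nat_lit 968)),(k5,(nat_lit 1199)),(k0,(nat_lit 1239)),(k2,(nat_lit 1296)),(k8,(nat_lit 1296)),(k9,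
    (nat_lit 1296)),(k3,(nat_lit 1452))],[(k6,(nat_lit 1296)),(k11,(nat_lit 1296)),(k0,(nat_lit 1567)),(k8,
    (nat_lit 1624)),(k9,(nat_lit 1624)),(k5,(nat_lit 1723)),(k3,(nat_lit 1780)),(k2,(nat_lit 1820))],[(k6,
    (nat_lit 1296)),(k11,(nat_lit 1296)),(k0,(nat_lit 1567)),(k8,(nat_lit 1624)),(k9,(nat_lit 1624)),(k5,
    (nat_lit 1723)),(k3,(nat_lit 1780)),(k2,(nat_lit 1820))],[(k6,(nat_lit 968)),(k11,(nat_lit 968)),(k5,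
    (nat_lit 1199)),(k0,(nat_lit 1239)),(k2,(nat_lit 1296)),(k8,(nat_lit 1296)),(k9,(nat_lit 1296)),(k3,
    (nat_lit 1452))],[(k7,(nat_lit 968)),(k1,(nat_lit 1781)),(k4,(nat_lit 1781)),(k10,(nat_lit 2208))]]
    [[k2,k0,k0,k0,k1,k0],[k1,k0,k0,k1,k1,k0],[k1,k0,k0,k0,k1,k1],[k0,k3,k0,k0,k0,k0],[k0,k1,k0,k1,k0,k1],[k0,k0,k0,k2,
    k1,k0],[k0,k0,k0,k2,k0,k2],[k0,k0,k0,k1,k1,k1]]
    [.contra [z6,y1,z0,y2],.contra [z6,y1,z0,y2],.contra [z12,y1,z4,z0,z12,y12],.contra [y1,z0,z1],.contra [z1,z0,z0,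
    z1,z1,y1],.contra [y3,z0,z2,z1],.ref k28 k1 [(z6,[y3,y2,y2,y2,z6,z6]),(z2,[y3,z0,z0,y2,y6,z6]),(z1,[z0,z0,y1,y1,
    y3,z3]),(z1,[z0,z0,z0,z1])],.contra [y1,z0,z0,z0,y1,z1]],
    .lp (nat_lit 257) [(nat_lit 710),(nat_lit 980),(nat_lit 890),(nat_lit 710),(nat_lit 800),(nat_lit 710)] [k135,
    k135,k0,k0,k45,k45,(nat_lit 248),k22,k90,k90,k34,(nat_lit 236)] k0 [[k0,k0,k0,k0,k0,k0,k0,k0,k0,k0,k0,k0],[k0,k0,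
    k0,(nat_lit 380),k0,k0,k0,k0,k0,k0,k0,k0],[(nat_lit 380),k0,k0,k0,k0,k0,k0,k0,k0,k0,k0,k0],[k0,k0,k0,k0,k0,k0,k0,
    k20,k20,k0,k0,k0],[k0,k0,k0,k0,k0,k180,k0,k0,k0,k0,k0,k0],[k0,k0,k0,k0,k0,k0,k0,k0,k0,k0,k0,(nat_lit 440)],[k0,k0,
    k20,k0,k0,k0,k0,k0,k0,k0,k0,k0],[k0,k0,k0,k0,k0,k0,k0,k0,k0,k0,k0,k0],[k0,k0,k0,k0,k0,k0,k0,k0,k0,k0,k0,k0],[k0,
    k0,k20,k0,k0,k0,k0,k0,k0,k0,k0,k0],[k0,k0,k0,k0,(nat_lit 440),k0,k0,k0,k0,k0,k0,k0],[k0,k0,k0,k0,k0,k0,k0,k0,k0,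
    k0,k0,k0]] (nat_lit 2400) k6
    [[(k1,(nat_lit 710)),(k10,(nat_lit 811)),(k7,(nat_lit 823)),(k4,(nat_lit 1240))],[(k6,(nat_lit 597)),(k11,
    (nat_lit 609)),(k0,(nat_lit 710)),(k8,(nat_lit 755)),(k9,(nat_lit 755)),(k2,(nat_lit 845)),(k3,(nat_lit 845)),(k5,
    (nat_lit 1180))],[(k2,(nat_lit 600)),(k6,(nat_lit 732)),(k11,(nat_lit 744)),(k0,(nat_lit 845)),(k8,(nat_lit 890)),
    (k9,(nat_lit 890)),(k5,(nat_lit 935)),(k3,(nat_lit 980))],[(k3,(nat_lit 600)),(k6,(nat_lit 732)),(k11,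
    (nat_lit 744)),(k0,(nat_lit 845)),(k8,(nat_lit 910)),(k9,(nat_lit 910)),(k5,(nat_lit 935)),(k2,(nat_lit 980))],
    [(k6,(nat_lit 667)),(k11,(nat_lit 679)),(k8,(nat_lit 845)),(k9,(nat_lit 845)),(k5,(nat_lit 890)),(k2,
    (nat_lit 935)),(k3,(nat_lit 935)),(k0,(nat_lit 1180))],[(k4,(nat_lit 710)),(k10,(nat_lit 901)),(k7,(nat_lit 913)),
    (k1,(nat_lit 1240))],[(k10,(nat_lit 484)),(k1,(nat_lit 823)),(k4,(nat_lit 913)),(k7,(nat_lit 1116))],[(k6,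
    (nat_lit 484)),(k11,(nat_lit 496)),(k0,(nat_lit 597)),(k8,(nat_lit 642)),(k9,(nat_lit 642)),(k5,(nat_lit 667)),
    (k2,(nat_lit 732)),(k3,(nat_lit 732))],[(k6,(nat_lit 642)),(k11,(nat_lit 654)),(k0,(nat_lit 755)),(k8,
    (nat_lit 800)),(k9,(nat_lit 800)),(k5,(nat_lit 845)),(k3,(nat_lit 890)),(k2,(nat_lit 910))],[(k6,(nat_lit 642)),
    (k11,(nat_lit 654)),(k0,(nat_lit 755)),(k8,(nat_lit 800)),(k9,(nat_lit 800)),(k5,(nat_lit 845)),(k3,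
    (nat_lit 890)),(k2,(nat_lit 910))],[(k6,(nat_lit 496)),(k11,(nat_lit 508)),(k0,(nat_lit 609)),(k8,(nat_lit 654)),
    (k9,(nat_lit 654)),(k5,(nat_lit 679)),(k2,(nat_lit 744)),(k3,(nat_lit 744))],[(k7,(nat_lit 484)),(k1,
    (nat_lit 811)),(k4,(nat_lit 901)),(k10,(nat_lit 912))]]
    [[k2,k0,k0,k0,k1,k0],[k1,k0,k0,k1,k1,k0],[k1,k0,k0,k0,k1,k1],[k0,k3,k0,k0,k0,k0],[k0,k1,k0,k1,k0,k1],[k0,k0,k0,k2,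
    k0,k2],[k0,k0,k0,k1,k1,k1],[k0,k0,k0,k0,k1,k2]]
    [.contra [z3,y2,z1,z3,y3],.ref k25 k1 [(z1,[y3,z0,y1,z0,z3]),(z1,[y6,z3,y1,y6,z6]),(z1,[z6,y3,z2,z6,y6])],
    .ref k26 k1 [(z1,[y3,y3,y1,z6,z3]),(z1,[y6,z3,z1,y6,z6]),(z1,[z6,y3,z2,z6,y6])],.ref k5 k1 [(z2,[z1,y3,y1,z6]),
    (z1,[z1]),(z1,[y1,z0,z1])],.contra [z1,z0,y1,y2,z2],.ref k27 k1 [(z2,[y1,y2,z0,z4]),(z2,[y3,z0,z2]),(z2,[z1])],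
    .contra [y1,z0,z0,y1,z1],.ref k29 k0 [(z2,[z3,z6,z1,z3,y3]),(z2,[y3,z0,z1,y3,z3]),(z1,[z0,z0,y1,y3,z3])]],
    .lp (nat_lit 257) [(nat_lit 514),(nat_lit 772),(nat_lit 514),(nat_lit 648),(nat_lit 504),(nat_lit 648)] [k129,
    k129,k0,k0,k129,k129,k119,k5,k134,k134,k5,k119] k0 [[k0,k0,k0,k0,k0,k0,k0,k158,k158,k0,k0,k0],[k0,k0,k0,
    (nat_lit 406),k0,k0,k0,k0,k0,k0,k0,k0],[(nat_lit 406),k0,k0,k0,k0,k0,k0,k134,k134,k0,k0,k0],[k0,k0,k0,k0,k0,k0,k0,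
    k0,k0,k0,k0,k0],[k0,k0,k0,k0,k0,k0,k0,k0,k0,k0,k0,k0],[k0,k0,k0,k0,k0,k0,k0,k0,k0,k0,k0,(nat_lit 396)],[k0,k158,
    k0,k134,k0,k0,k0,k0,k0,k0,k0,k0],[k0,k0,k0,k0,k0,k0,k0,k0,k0,k0,k0,k0],[k0,k0,k0,k0,k0,k0,k0,k0,k0,k0,k0,k0],[k0,
    k158,k0,k134,k0,k0,k0,k0,k0,k0,k0,k0],[k0,k0,k0,k0,(nat_lit 396),k0,k0,k0,k0,k0,k0,k0],[k0,k0,k0,k0,k0,k0,k0,k0,
    k0,k0,k0,k0]] (nat_lit 1800) k6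
    [[(k1,(nat_lit 514)),(k7,(nat_lit 638)),(k10,(nat_lit 638)),(k4,(nat_lit 910))],[(k6,(nat_lit 366)),(k11,
    (nat_lit 366)),(k8,(nat_lit 509)),(k9,(nat_lit 509)),(k0,(nat_lit 514)),(k2,(nat_lit 643)),(k3,(nat_lit 643)),(k5,
    (nat_lit 920))],[(k2,(nat_lit 366)),(k0,(nat_lit 643)),(k5,(nat_lit 643)),(k6,(nat_lit 653)),(k11,(nat_lit 653)),
    (k3,(nat_lit 772)),(k8,(nat_lit 796)),(k9,(nat_lit 796))],[(k3,(nat_lit 366)),(k6,(nat_lit 519)),(k11,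
    (nat_lit 519)),(k8,(nat_lit 638)),(k9,(nat_lit 638)),(k0,(nat_lit 643)),(k5,(nat_lit 643)),(k2,(nat_lit 772))],
    [(k5,(nat_lit 514)),(k6,(nat_lit 524)),(k11,(nat_lit 524)),(k2,(nat_lit 643)),(k3,(nat_lit 643)),(k8,
    (nat_lit 643)),(k9,(nat_lit 643)),(k0,(nat_lit 920))],[(k4,(nat_lit 514)),(k7,(nat_lit 638)),(k10,(nat_lit 638)),
    (k1,(nat_lit 910))],[(k10,(nat_lit 366)),(k1,(nat_lit 638)),(k4,(nat_lit 638)),(k7,(nat_lit 762))],[(k0,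
    (nat_lit 366)),(k2,(nat_lit 519)),(k8,(nat_lit 519)),(k9,(nat_lit 519)),(k5,(nat_lit 524)),(k6,(nat_lit 534)),
    (k11,(nat_lit 534)),(k3,(nat_lit 653))],[(k8,(nat_lit 504)),(k9,(nat_lit 504)),(k0,(nat_lit 509)),(k6,
    (nat_lit 519)),(k11,(nat_lit 519)),(k2,(nat_lit 638)),(k5,(nat_lit 643)),(k3,(nat_lit 796))],[(k8,(nat_lit 504)),
    (k9,(nat_lit 504)),(k0,(nat_lit 509)),(k6,(nat_lit 519)),(k11,(nat_lit 519)),(k2,(nat_lit 638)),(k5,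
    (nat_lit 643)),(k3,(nat_lit 796))],[(k0,(nat_lit 366)),(k2,(nat_lit 519)),(k8,(nat_lit 519)),(k9,(nat_lit 519)),
    (k5,(nat_lit 524)),(k6,(nat_lit 534)),(k11,(nat_lit 534)),(k3,(nat_lit 653))],[(k7,(nat_lit 366)),(k1,
    (nat_lit 638)),(k4,(nat_lit 638)),(k10,(nat_lit 762))]]
    [[k2,k0,k0,k1,k0,k1],[k2,k0,k0,k0,k1,k0],[k1,k0,k0,k1,k1,k0],[k1,k0,k0,k0,k1,k1],[k0,k3,k0,k0,k0,k0],[k0,k4,k0,k0,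
    k0,k0],[k0,k1,k0,k1,k0,k1],[k0,k0,k0,k1,k1,k1],[k0,k0,k0,k0,k3,k0]]
    [.contra [z1,z1],.contra [z1,y1],.ref k14 k1 [(z1,[y1,z0,z1]),(z1,[y2,z1,y1,z1])],.ref k15 k1 [(z1,[y1,y1,z3]),
    (z1,[y2,z1,y3,z3])],.ref k19 k1 [(z1,[z1,y3,z9,y3]),(z1,[z1])],.ref k24 k1 [(z2,[z1,y4,z12,y4]),(z2,[z1])],
    .contra [y1,z0,y1,z1],.contra [y1,z0,y1,z1],.ref k30 k0 [(z1,[z0,z1]),(z1,[y1,z0,y3,z3])]],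
    .base (.leafM k3 [k4,k5,k0,k1,k2,k3] [(z2,[y1,z1,z2])] []),
    .base (.leafM k0 [k0,k1,k2,k3,k4,k5] [(z3,[y1,z1,z3])] []),
    .base (.leafM k3 [k4,k5,k0,k1,k2,k3] [(z2,[y1,z1,z0,z2])] []),
    .base (.leafM k0 [k0,k1,k2,k3,k4,k5] [(z6,[y2,z3,z1,z6])] [])]

theorem hB6_128_2 : blkB [0, 0, 1, 0, 0, 1] [(0, 2)] sp6 hS6_128 (pcls (n := 6) [0, 0, 1, 0, 0, 1]) hD6_128 45 2 hN6_128_2 = true := by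
  decide +kernel

/-- nodes 36 to 44 -/
noncomputable def hN6_128_3 : List HM :=
  [.base (.leafM k9 [k5,k1,k3,k4] [(z1,[z0,z1]),(z1,[z0,y1,y2,y2,z2]),(z1,[z0,z0,z1])] [(k0,k2,z1,[z0,z0,z0,z1]),(k2,
    k0,z1,[z0,z0,z0,z1])]),
    .lp (nat_lit 257) [(nat_lit 358),(nat_lit 484),(nat_lit 358),(nat_lit 397),(nat_lit 406),(nat_lit 397)] [k97,k97,
    k34,k34,k97,k97,k155,k0,k73,k73,k0,k155] k0 [[k0,k0,k0,k0,k0,k0,k0,k0,k0,k0,k0,k0],[k0,k0,k0,k184,k0,k0,k0,k0,k0,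
    k0,k0,k0],[k184,k0,k0,k0,k0,k0,k0,k39,k39,k0,k0,k0],[k0,k0,k0,k0,k0,k0,k0,k10,k10,k0,k0,k0],[k0,k0,k0,k0,k0,k0,k0,
    k0,k0,k0,k0,k0],[k0,k0,k0,k0,k0,k0,k0,k0,k0,k0,k0,(nat_lit 310)],[k0,k0,k10,k39,k0,k0,k0,k0,k0,k0,k0,k0],[k0,k0,
    k0,k0,k0,k0,k0,k0,k0,k0,k0,k0],[k0,k0,k0,k0,k0,k0,k0,k0,k0,k0,k0,k0],[k0,k0,k10,k39,k0,k0,k0,k0,k0,k0,k0,k0],[k0,
    k0,k0,k0,(nat_lit 310),k0,k0,k0,k0,k0,k0,k0],[k0,k0,k0,k0,k0,k0,k0,k0,k0,k0,k0,k0]] (nat_lit 1200) k6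
    [[(k1,(nat_lit 358)),(k7,(nat_lit 455)),(k10,(nat_lit 455)),(k4,(nat_lit 668))],[(k6,(nat_lit 300)),(k11,
    (nat_lit 300)),(k0,(nat_lit 358)),(k8,(nat_lit 382)),(k9,(nat_lit 382)),(k2,(nat_lit 421)),(k3,(nat_lit 421)),(k5,
    (nat_lit 542))],[(k2,(nat_lit 300)),(k6,(nat_lit 363)),(k11,(nat_lit 363)),(k0,(nat_lit 421)),(k5,(nat_lit 421)),
    (k8,(nat_lit 445)),(k9,(nat_lit 445)),(k3,(nat_lit 484))],[(k3,(nat_lit 300)),(k6,(nat_lit 324)),(k11,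
    (nat_lit 324)),(k0,(nat_lit 421)),(k5,(nat_lit 421)),(k8,(nat_lit 455)),(k9,(nat_lit 455)),(k2,(nat_lit 484))],
    [(k6,(nat_lit 290)),(k11,(nat_lit 290)),(k5,(nat_lit 358)),(k2,(nat_lit 421)),(k3,(nat_lit 421)),(k8,
    (nat_lit 421)),(k9,(nat_lit 421)),(k0,(nat_lit 542))],[(k4,(nat_lit 358)),(k7,(nat_lit 455)),(k10,(nat_lit 455)),
    (k1,(nat_lit 668))],[(k10,(nat_lit 242)),(k1,(nat_lit 455)),(k4,(nat_lit 455)),(k7,(nat_lit 552))],[(k6,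
    (nat_lit 242)),(k11,(nat_lit 242)),(k5,(nat_lit 290)),(k0,(nat_lit 300)),(k2,(nat_lit 324)),(k8,(nat_lit 324)),
    (k9,(nat_lit 324)),(k3,(nat_lit 363))],[(k6,(nat_lit 324)),(k11,(nat_lit 324)),(k0,(nat_lit 382)),(k8,
    (nat_lit 406)),(k9,(nat_lit 406)),(k5,(nat_lit 421)),(k3,(nat_lit 445)),(k2,(nat_lit 455))],[(k6,(nat_lit 324)),
    (k11,(nat_lit 324)),(k0,(nat_lit 382)),(k8,(nat_lit 406)),(k9,(nat_lit 406)),(k5,(nat_lit 421)),(k3,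
    (nat_lit 445)),(k2,(nat_lit 455))],[(k6,(nat_lit 242)),(k11,(nat_lit 242)),(k5,(nat_lit 290)),(k0,(nat_lit 300)),
    (k2,(nat_lit 324)),(k8,(nat_lit 324)),(k9,(nat_lit 324)),(k3,(nat_lit 363))],[(k7,(nat_lit 242)),(k1,
    (nat_lit 455)),(k4,(nat_lit 455)),(k10,(nat_lit 552))]]
    [[k2,k0,k0,k0,k1,k0],[k1,k0,k0,k1,k1,k0],[k1,k0,k0,k0,k1,k1],[k0,k3,k0,k0,k0,k0],[k0,k1,k0,k1,k0,k1],[k0,k0,k2,k1,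
    k0,k1],[k0,k0,k0,k2,k0,k2],[k0,k0,k0,k1,k1,k1]]
    [.contra [z1,z1],.ref k34 k0 [(z1,[z2,z0,z1,z2,y2]),(z1,[z0,z0,z1]),(z1,[y4,z2,y3,y6,z6])],.ref k35 k0 [(z1,[z1,
    z1]),(z1,[z0,z0,z1]),(z1,[y4,z2,y3,y6,z6])],.contra [z1,z0,y1],.contra [y1,z1,z0,y1,z1],.ref k20 k1 [(z1,[z2,y2,
    z1,z6,y2]),(z1,[z0,z0,z1]),(z1,[z2,z2,y1,y6,z2])],.ref k36 k1 [(z1,[z1,y2,z1,z6,y2]),(z1,[z0,z0,z1]),(z2,[z1])],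
    .contra [z1,z0,z1,z1,y1]],
    .base (.leafM k11 [k3,k4,k5,k1] [(z1,[z0,y1,y3,y3,z3]),(z1,[z0,z1]),(z1,[z0,z0,z1])] [(k0,k2,z1,[z0,z0,z0,z1]),
    (k2,k0,z1,[z0,z0,z0,z1])]),
    .lp (nat_lit 257) [(nat_lit 794),(nat_lit 910),(nat_lit 696),(nat_lit 794),(nat_lit 812),(nat_lit 794)] [k155,
    k155,k97,k97,(nat_lit 204),(nat_lit 204),(nat_lit 310),k0,k146,k146,k0,(nat_lit 310)] k0 [[k0,k0,k0,k98,k0,k0,k0,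
    k78,k78,k0,k0,k0],[k0,k0,k0,(nat_lit 310),k0,k0,k0,k0,k0,k0,k0,k0],[(nat_lit 310),k98,k0,k0,k0,k0,k0,k0,k0,k0,k0,
    k0],[k0,k0,k0,k0,k0,k0,k0,k0,k0,k0,k0,k0],[k0,k0,k0,k0,k0,k0,k0,k0,k0,k0,k0,k0],[k0,k0,k0,k0,k0,k0,k0,k0,k0,k0,k0,
    (nat_lit 620)],[k0,k78,k0,k0,k0,k0,k0,k0,k0,k0,k0,k0],[k0,k0,k0,k0,k0,k0,k0,k0,k0,k0,k0,k0],[k0,k0,k0,k0,k0,k0,k0,
    k0,k0,k0,k0,k0],[k0,k78,k0,k0,k0,k0,k0,k0,k0,k0,k0,k0],[k0,k0,k0,k0,(nat_lit 620),k0,k0,k0,k0,k0,k0,k0],[k0,k0,k0,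
    k0,k0,k0,k0,k0,k0,k0,k0,k0]] (nat_lit 2400) k6
    [[(k1,(nat_lit 794)),(k7,(nat_lit 949)),(k10,(nat_lit 949)),(k4,(nat_lit 1365))],[(k6,(nat_lit 561)),(k11,
    (nat_lit 561)),(k2,(nat_lit 754)),(k0,(nat_lit 794)),(k8,(nat_lit 803)),(k9,(nat_lit 803)),(k3,(nat_lit 852)),(k5,
    (nat_lit 1055))],[(k2,(nat_lit 600)),(k6,(nat_lit 697)),(k11,(nat_lit 697)),(k0,(nat_lit 852)),(k5,(nat_lit 901)),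
    (k3,(nat_lit 910)),(k8,(nat_lit 939)),(k9,(nat_lit 939))],[(k3,(nat_lit 600)),(k6,(nat_lit 697)),(k11,
    (nat_lit 697)),(k0,(nat_lit 754)),(k5,(nat_lit 803)),(k8,(nat_lit 861)),(k9,(nat_lit 861)),(k2,(nat_lit 910))],
    [(k6,(nat_lit 590)),(k11,(nat_lit 590)),(k5,(nat_lit 696)),(k8,(nat_lit 754)),(k9,(nat_lit 754)),(k2,
    (nat_lit 803)),(k3,(nat_lit 901)),(k0,(nat_lit 1055))],[(k4,(nat_lit 696)),(k7,(nat_lit 900)),(k10,(nat_lit 900)),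
    (k1,(nat_lit 1365))],[(k10,(nat_lit 484)),(k4,(nat_lit 900)),(k1,(nat_lit 949)),(k7,(nat_lit 1104))],[(k6,
    (nat_lit 484)),(k11,(nat_lit 484)),(k0,(nat_lit 561)),(k5,(nat_lit 590)),(k8,(nat_lit 648)),(k9,(nat_lit 648)),
    (k2,(nat_lit 697)),(k3,(nat_lit 697))],[(k6,(nat_lit 648)),(k11,(nat_lit 648)),(k5,(nat_lit 754)),(k0,
    (nat_lit 803)),(k8,(nat_lit 812)),(k9,(nat_lit 812)),(k2,(nat_lit 861)),(k3,(nat_lit 939))],[(k6,(nat_lit 648)),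
    (k11,(nat_lit 648)),(k5,(nat_lit 754)),(k0,(nat_lit 803)),(k8,(nat_lit 812)),(k9,(nat_lit 812)),(k2,
    (nat_lit 861)),(k3,(nat_lit 939))],[(k6,(nat_lit 484)),(k11,(nat_lit 484)),(k0,(nat_lit 561)),(k5,(nat_lit 590)),
    (k8,(nat_lit 648)),(k9,(nat_lit 648)),(k2,(nat_lit 697)),(k3,(nat_lit 697))],[(k7,(nat_lit 484)),(k4,
    (nat_lit 900)),(k1,(nat_lit 949)),(k10,(nat_lit 1104))]]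
    [[k0,k3,k0,k0,k0,k0],[k0,k1,k0,k1,k0,k1],[k0,k0,k2,k1,k0,k1],[k0,k0,k2,k0,k1,k0],[k0,k0,k1,k1,k1,k0],[k0,k0,k1,k0,
    k1,k1],[k0,k0,k0,k2,k0,k2],[k0,k0,k0,k1,k1,k1]]
    [.ref k5 k0 [(z1,[z0,z1]),(z1,[z1]),(z1,[y1,z0,z1])],.contra [z3,z2,y1],.contra [z1,z1,z0,y2],.contra [y3,z2,y1,
    z3,z3],.contra [z3,z1,z1,z0,y3],.contra [z3,z1,z1,z0,y3],.ref k38 k0 [(z1,[z0,z1]),(z2,[y3,z0,z2]),(z2,[z1])],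
    .contra [y1,z0,z0,y1,z1]],
    .lp (nat_lit 257) [(nat_lit 514),(nat_lit 772),(nat_lit 514),(nat_lit 648),(nat_lit 504),(nat_lit 648)] [k129,
    k129,k0,k0,k129,k129,k119,k5,k134,k134,k5,k119] k0 [[k0,k0,k0,k0,k0,k0,k0,k158,k158,k0,k0,k0],[k0,k0,k0,
    (nat_lit 406),k0,k0,k0,k0,k0,k0,k0,k0],[(nat_lit 406),k0,k0,k0,k0,k0,k0,k134,k134,k0,k0,k0],[k0,k0,k0,k0,k0,k0,k0,
    k0,k0,k0,k0,k0],[k0,k0,k0,k0,k0,k0,k0,k0,k0,k0,k0,k0],[k0,k0,k0,k0,k0,k0,k0,k0,k0,k0,k0,(nat_lit 396)],[k0,k158,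
    k0,k134,k0,k0,k0,k0,k0,k0,k0,k0],[k0,k0,k0,k0,k0,k0,k0,k0,k0,k0,k0,k0],[k0,k0,k0,k0,k0,k0,k0,k0,k0,k0,k0,k0],[k0,
    k158,k0,k134,k0,k0,k0,k0,k0,k0,k0,k0],[k0,k0,k0,k0,(nat_lit 396),k0,k0,k0,k0,k0,k0,k0],[k0,k0,k0,k0,k0,k0,k0,k0,
    k0,k0,k0,k0]] (nat_lit 1800) k6
    [[(k1,(nat_lit 514)),(k7,(nat_lit 638)),(k10,(nat_lit 638)),(k4,(nat_lit 910))],[(k6,(nat_lit 366)),(k11,
    (nat_lit 366)),(k8,(nat_lit 509)),(k9,(nat_lit 509)),(k0,(nat_lit 514)),(k2,(nat_lit 643)),(k3,(nat_lit 643)),(k5,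
    (nat_lit 920))],[(k2,(nat_lit 366)),(k0,(nat_lit 643)),(k5,(nat_lit 643)),(k6,(nat_lit 653)),(k11,(nat_lit 653)),
    (k3,(nat_lit 772)),(k8,(nat_lit 796)),(k9,(nat_lit 796))],[(k3,(nat_lit 366)),(k6,(nat_lit 519)),(k11,
    (nat_lit 519)),(k8,(nat_lit 638)),(k9,(nat_lit 638)),(k0,(nat_lit 643)),(k5,(nat_lit 643)),(k2,(nat_lit 772))],
    [(k5,(nat_lit 514)),(k6,(nat_lit 524)),(k11,(nat_lit 524)),(k2,(nat_lit 643)),(k3,(nat_lit 643)),(k8,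
    (nat_lit 643)),(k9,(nat_lit 643)),(k0,(nat_lit 920))],[(k4,(nat_lit 514)),(k7,(nat_lit 638)),(k10,(nat_lit 638)),
    (k1,(nat_lit 910))],[(k10,(nat_lit 366)),(k1,(nat_lit 638)),(k4,(nat_lit 638)),(k7,(nat_lit 762))],[(k0,
    (nat_lit 366)),(k2,(nat_lit 519)),(k8,(nat_lit 519)),(k9,(nat_lit 519)),(k5,(nat_lit 524)),(k6,(nat_lit 534)),
    (k11,(nat_lit 534)),(k3,(nat_lit 653))],[(k8,(nat_lit 504)),(k9,(nat_lit 504)),(k0,(nat_lit 509)),(k6,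
    (nat_lit 519)),(k11,(nat_lit 519)),(k2,(nat_lit 638)),(k5,(nat_lit 643)),(k3,(nat_lit 796))],[(k8,(nat_lit 504)),
    (k9,(nat_lit 504)),(k0,(nat_lit 509)),(k6,(nat_lit 519)),(k11,(nat_lit 519)),(k2,(nat_lit 638)),(k5,
    (nat_lit 643)),(k3,(nat_lit 796))],[(k0,(nat_lit 366)),(k2,(nat_lit 519)),(k8,(nat_lit 519)),(k9,(nat_lit 519)),
    (k5,(nat_lit 524)),(k6,(nat_lit 534)),(k11,(nat_lit 534)),(k3,(nat_lit 653))],[(k7,(nat_lit 366)),(k1,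
    (nat_lit 638)),(k4,(nat_lit 638)),(k10,(nat_lit 762))]]
    [[k2,k0,k0,k1,k0,k1],[k2,k0,k0,k0,k1,k0],[k1,k0,k0,k1,k1,k0],[k1,k0,k0,k0,k1,k1],[k0,k3,k0,k0,k0,k0],[k0,k4,k0,k0,
    k0,k0],[k0,k1,k0,k1,k0,k1],[k0,k0,k0,k1,k1,k1],[k0,k0,k0,k0,k3,k0]]
    [.contra [z1,y1],.contra [z1,z1],.ref k32 k0 [(z1,[z0,z1]),(z1,[y2,z1,y2,z2])],.ref k33 k0 [(z1,[z1,z1]),(z1,[y2,
    z1,y3,z3])],.ref k6 k0 [(z1,[z0,z1]),(z1,[z1])],.ref k37 k0 [(z1,[z0,z1]),(z2,[z1])],.contra [y1,z1,y1,z1],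
    .contra [y1,z0,y1,z1],.ref k39 k1 [(z2,[y1,y3,z6]),(z1,[y1,z0,y3,z3])]],
    .base (.leafM k0 [k1,k2,k3,k4,k5,k0] [(z1,[y1,z1])] []),
    .base (.leafM k11 [k3,k4,k5,k1] [(z1,[y1,y3,y3,z3]),(z1,[z1]),(z1,[z0,z1])] [(k0,k2,z1,[z0,z0,z1]),(k2,k0,z1,[z0,
    z0,z1])]),
    .lp (nat_lit 257) [(nat_lit 3355880),(nat_lit 3355880),(nat_lit 3355880),(nat_lit 3355880),(nat_lit 3355880),
    (nat_lit 3355880)] [(nat_lit 662760),(nat_lit 662760),(nat_lit 662760),(nat_lit 662760),(nat_lit 662760),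
    (nat_lit 662760),(nat_lit 1325520),k0,(nat_lit 662760),(nat_lit 662760),(nat_lit 50280),
    (nat_lit 1275240)] k0 [[k0,k0,k0,k0,k0,k0,k0,k0,k0,k0,k0,k0],[k0,k0,k0,(nat_lit 838970),k0,k0,k0,k0,k0,k0,k0,k0],
    [(nat_lit 838970),k0,k0,k0,k0,k0,k0,k0,k0,k0,k0,k0],[k0,k0,k0,k0,k0,k0,k0,k0,k0,k0,k0,k0],[k0,k0,k0,k0,k0,k0,k0,
    k0,k0,k0,k0,k0],[k0,k0,k0,k0,k0,k0,k0,k0,k0,k0,k0,(nat_lit 2600807)],[k0,k0,k0,k0,k0,k0,k0,k0,k0,k0,k0,k0],[k0,k0,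
    k0,k0,k0,k0,k0,k0,k0,k0,k0,k0],[k0,k0,k0,k0,k0,k0,k0,k0,k0,k0,k0,k0],[k0,k0,k0,k0,k0,k0,k0,k0,k0,k0,k0,k0],[k0,k0,
    k0,k0,(nat_lit 2600807),k0,k0,k0,k0,k0,k0,k0],[k0,k0,k0,k0,k0,k0,k0,k0,k0,k0,k0,k0]] (nat_lit 10067640) k6
    [[(k1,(nat_lit 3355880)),(k10,(nat_lit 3968360)),(k7,(nat_lit 4018640)),(k4,(nat_lit 5956687))],[(k6,
    (nat_lit 2693120)),(k11,(nat_lit 2743400)),(k0,(nat_lit 3355880)),(k2,(nat_lit 3355880)),(k3,(nat_lit 3355880)),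
    (k8,(nat_lit 3355880)),(k9,(nat_lit 3355880)),(k5,(nat_lit 4194850))],[(k2,(nat_lit 2516910)),(k6,
    (nat_lit 2693120)),(k11,(nat_lit 2743400)),(k0,(nat_lit 3355880)),(k3,(nat_lit 3355880)),(k5,(nat_lit 3355880)),
    (k8,(nat_lit 3355880)),(k9,(nat_lit 3355880))],[(k3,(nat_lit 2516910)),(k6,(nat_lit 2693120)),(k11,
    (nat_lit 2743400)),(k0,(nat_lit 3355880)),(k2,(nat_lit 3355880)),(k5,(nat_lit 3355880)),(k8,(nat_lit 3355880)),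
    (k9,(nat_lit 3355880))],[(k6,(nat_lit 2693120)),(k11,(nat_lit 2743400)),(k2,(nat_lit 3355880)),(k3,
    (nat_lit 3355880)),(k5,(nat_lit 3355880)),(k8,(nat_lit 3355880)),(k9,(nat_lit 3355880)),(k0,(nat_lit 4194850))],
    [(k4,(nat_lit 3355880)),(k10,(nat_lit 3968360)),(k7,(nat_lit 4018640)),(k1,(nat_lit 5956687))],[(k10,
    (nat_lit 2030313)),(k1,(nat_lit 4018640)),(k4,(nat_lit 4018640)),(k7,(nat_lit 4681400))],[(k6,(nat_lit 2030360)),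
    (k11,(nat_lit 2080640)),(k0,(nat_lit 2693120)),(k2,(nat_lit 2693120)),(k3,(nat_lit 2693120)),(k5,
    (nat_lit 2693120)),(k8,(nat_lit 2693120)),(k9,(nat_lit 2693120))],[(k6,(nat_lit 2693120)),(k11,(nat_lit 2743400)),
    (k0,(nat_lit 3355880)),(k2,(nat_lit 3355880)),(k3,(nat_lit 3355880)),(k5,(nat_lit 3355880)),(k8,
    (nat_lit 3355880)),(k9,(nat_lit 3355880))],[(k6,(nat_lit 2693120)),(k11,(nat_lit 2743400)),(k0,(nat_lit 3355880)),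
    (k2,(nat_lit 3355880)),(k3,(nat_lit 3355880)),(k5,(nat_lit 3355880)),(k8,(nat_lit 3355880)),(k9,
    (nat_lit 3355880))],[(k6,(nat_lit 2080640)),(k11,(nat_lit 2130920)),(k0,(nat_lit 2743400)),(k2,(nat_lit 2743400)),
    (k3,(nat_lit 2743400)),(k5,(nat_lit 2743400)),(k8,(nat_lit 2743400)),(k9,(nat_lit 2743400))],[(k7,
    (nat_lit 2030313)),(k1,(nat_lit 3968360)),(k4,(nat_lit 3968360)),(k10,(nat_lit 4580840))]]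
    [[k0,k3,k0,k0,k0,k0],[k0,k2,k0,k1,k0,k1],[k0,k2,k0,k0,k1,k0],[k0,k1,k0,k1,k0,k1],[k0,k0,k0,k2,k0,k2],[k0,k0,k0,k1,
    k1,k1]]
    [.ref k9 k0 [(z1,[z1]),(z1,[y1,z1])],.ref k9 k0 [(z1,[z3,y1]),(z1,[y3,z2])],.ref k9 k0 [(z2,[z3,z1,z3,y3]),(z2,
    [y3,z1,y3,z3])],.contra [z1,y1,y2,z2],.ref k42 k0 [(z2,[y3,z2]),(z2,[z1])],.contra [y1,z0,y1,z1]],
    .lp (nat_lit 257) [(nat_lit 216),k178,(nat_lit 216),(nat_lit 206),k168,(nat_lit 216)] [k28,k28,k47,k47,k28,k28,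
    k66,k0,k52,k52,k28,k28] k0 [[k0,k0,k0,k10,k0,k0,k0,k56,k76,k0,k0,k0],[k0,k0,k0,k56,k0,k0,k0,k0,k0,k0,k0,k0],[k56,
    k10,k0,k0,k0,k0,k0,k0,k0,k0,k0,k0],[k0,k0,k0,k0,k0,k0,k0,k56,k76,k0,k0,k0],[k0,k0,k0,k0,k0,k20,k0,k0,k0,k0,k0,k0],
    [k0,k0,k0,k0,k0,k0,k0,k0,k0,k0,k0,k122],[k0,k56,k56,k0,k0,k0,k0,k0,k0,k0,k0,k0],[k0,k0,k0,k0,k0,k0,k0,k0,k0,k0,k0,
    k0],[k0,k0,k0,k0,k0,k0,k0,k0,k0,k0,k0,k0],[k0,k76,k76,k0,k0,k0,k0,k0,k0,k0,k0,k0],[k0,k0,k0,k0,k122,k0,k0,k0,k0,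
    k0,k0,k0],[k0,k0,k0,k0,k0,k0,k0,k0,k0,k0,k0,k0]] (nat_lit 600) k6
    [[(k1,(nat_lit 216)),(k10,(nat_lit 216)),(k7,(nat_lit 244)),(k4,(nat_lit 338))],[(k6,k122),(k11,k140),(k2,k187),
    (k8,k192),(k9,k192),(k3,k197),(k0,(nat_lit 216)),(k5,(nat_lit 272))],[(k2,k122),(k6,k159),(k3,k178),(k0,k197),
    (k11,k197),(k5,(nat_lit 207)),(k9,(nat_lit 229)),(k8,(nat_lit 249))],[(k3,k122),(k6,k159),(k2,k178),(k0,k187),(k5,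
    k197),(k11,k197),(k9,(nat_lit 229)),(k8,(nat_lit 249))],[(k6,k122),(k11,k140),(k8,k192),(k9,k192),(k2,k197),(k3,
    (nat_lit 207)),(k5,(nat_lit 216)),(k0,(nat_lit 272))],[(k4,k196),(k10,(nat_lit 216)),(k7,(nat_lit 244)),(k1,
    (nat_lit 338))],[(k10,k122),(k1,(nat_lit 244)),(k4,(nat_lit 244)),(k7,(nat_lit 292))],[(k0,k122),(k5,k122),(k6,
    k140),(k8,k154),(k9,k154),(k2,k159),(k3,k159),(k11,k178)],[(k6,k154),(k8,k168),(k9,k168),(k0,k192),(k5,k192),(k11,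
    k192),(k2,(nat_lit 229)),(k3,(nat_lit 229))],[(k6,k154),(k8,k168),(k9,k168),(k0,k192),(k5,k192),(k11,k192),(k2,
    (nat_lit 249)),(k3,(nat_lit 249))],[(k0,k140),(k5,k140),(k6,k178),(k8,k192),(k9,k192),(k2,k197),(k3,k197),(k11,
    (nat_lit 216))],[(k7,k122),(k1,(nat_lit 216)),(k4,(nat_lit 216)),(k10,(nat_lit 216))]]
    [[k1,k1,k0,k1,k0,k0],[k1,k0,k0,k1,k1,k0],[k0,k3,k0,k0,k0,k0],[k0,k4,k0,k0,k0,k0],[k0,k1,k0,k1,k0,k1],[k0,k0,k2,k1,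
    k0,k1],[k0,k0,k2,k0,k1,k0],[k0,k0,k1,k1,k1,k0],[k0,k0,k0,k1,k1,k1],[k0,k0,k0,k0,k3,k0]]
    [.ref k0 k0 [(z1,[z1,z1,y1])],.ref k0 k1 [(z1,[y1,z1])],.ref k11 k0 [(z1,[z1])],.ref k13 k0 [(z2,[z1])],
    .contra [y1,y1,z1],.ref k31 k0 [(z1,[y1,z2])],.ref k40 k0 [(z1,[y1,z2])],.ref k41 k0 [(z1,[y1,z1])],.contra [y1,
    y1,z1],.ref k43 k0 [(z1,[y1,y3,z3])]]]

theorem hB6_128_3 : blkB [0, 0, 1, 0, 0, 1] [(0, 2)] sp6 hS6_128 (pcls (n := 6) [0, 0, 1, 0, 0, 1]) hD6_128 45 3 hN6_128_3 = true := by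
  decide +kernel

/-- equations of the nodes for the classes `0 0 1 0 1 1`, active pairs `0-2 0-4` -/
noncomputable def hD6_140 : List (List (List Eqn)) :=
  [[[([z2,z0,z0,z0,z0,y1],z2)],[([z3,z0,z0,z0,z0,z0],z4),([z0,z3,z0,z0,z0,z0],z2)],[([z6,z0,z0,z0,z0,z3],z8),([z0,z3,
    z0,z0,z0,z0],z2)],[([z3,z0,z0,z0,z0,y3],z4),([z0,z3,z0,z0,z0,z0],z2)],[([z6,z0,z0,z0,z0,y3],z8),([z0,z3,z0,z0,z0,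
    z0],z2)],[([z0,z3,z0,z0,z0,z0],z1),([z0,z0,z0,z1,z1,z0],z1)],[([z6,z0,z0,z0,z0,z3],z10),([z0,z3,z0,z0,z0,z0],z2)],
    [([z0,z3,z0,z0,z0,z0],z2),([z0,z0,z0,z3,z3,z0],z2)],[([z6,z0,z0,z0,z0,y3],z10),([z0,z3,z0,z0,z0,z0],z2)],[([z3,z0,
    z0,z0,z0,z0],z5),([z0,z3,z0,z0,z0,z0],z2)],[([z2,z0,z0,z0,z0,z0],z3),([z0,z2,z0,z0,z0,z0],z1),([z0,z0,z0,z3,z0,
    z0],z1)],[([z3,z0,z0,z0,z0,z0],z5),([z0,z2,z0,z0,z0,z0],z1),([z0,z0,z0,z2,z0,z0],z1)]],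
    [[([z4,z0,z0,z0,z0,z0],z5),([z0,z2,z0,z0,z0,z0],z1),([z0,z0,z0,z12,z0,z0],z1)],[([z12,z0,z0,z0,z0,z0],z23),([z0,
    z2,z0,z0,z0,z0],z1),([z0,z0,z0,z4,z0,z0],z3)],[([z12,z0,z0,z0,z0,z0],z19),([z0,z2,z0,z0,z0,z0],z1),([z0,z0,z0,z12,
    z0,z0],z5)],[([z12,z0,z0,z0,z0,z0],z17),([z0,z2,z0,z0,z0,z0],z1),([z0,z0,z0,z4,z0,z0],z1)],[([z4,z0,z0,z0,z0,z0],
    z7),([z0,z2,z0,z0,z0,z0],z1),([z0,z0,z0,z12,z0,z0],z7)],[([z6,z0,z0,z0,z0,z0],z11),([z0,z2,z0,z0,z0,z0],z1),([z0,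
    z0,z0,z3,z0,z0],z2)],[([z0,z2,z0,z0,z0,z0],z1),([z0,z0,z0,z6,z6,z0],z5)],[([z0,z3,z0,z0,z0,z0],z2)],[([z2,z0,z0,
    z0,z0,y3],z2),([z0,z1,z0,z0,z0,y1],z0)],[([z2,z0,z0,z0,z0,z0],z3),([z0,z3,z0,z0,z0,z0],z1),([z0,z0,z0,z6,z0,z0],
    z5)],[([z2,z0,z0,z0,z0,z0],z3),([z0,z6,z0,z0,z0,z0],z1),([z0,z0,z0,z3,z0,z0],z2)],[([z2,z0,z0,z0,z0,z0],z3),([z0,
    z4,z0,z0,z0,z0],z1),([z0,z0,z0,z4,z0,z0],z3)]],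
    [[([z2,z0,z0,z0,z0,z0],z3),([z0,z2,z0,z0,z0,z1],z1)],[([z4,z0,z0,z0,z0,y1],z6),([z0,z2,z0,z0,z0,z3],z2)],[([z12,
    z0,z0,z0,z0,z0],z19),([z0,z3,z0,z0,z0,z0],z1),([z0,z0,z0,z4,z0,z0],z3)],[([z4,z0,z0,z0,z0,z0],z7),([z0,z2,z0,z0,
    z0,z0],z1),([z0,z0,z0,z4,z0,z0],z3)],[([z4,z0,z0,z0,z0,y4],z5),([z0,z2,z0,z0,z0,z0],z1)],[([z0,z2,z0,z0,z2,z1],
    z2)],[([z0,z1,z0,z0,z2,z1],z2)],[([z0,z1,z0,z0,z0,y1],z0)],[([z4,z0,z0,z0,z0,z0],z5),([z0,z2,z0,z0,z0,z0],z1)],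
    [([z4,z0,z0,z0,z0,z2],z5),([z0,z2,z0,z0,z0,z0],z1)],[([z4,z0,z0,z0,z0,y2],z5),([z0,z2,z0,z0,z0,z0],z1)],[([z0,z2,
    z0,z0,z0,z0],z1),([z0,z0,z0,z1,z1,z0],z1)]],
    [[([z8,z0,z0,z0,z0,z0],z13),([z0,z4,z0,z0,z0,z0],z1),([z0,z0,z0,z8,z0,z0],z7)],[([z2,z0,z0,z0,z0,y1],z3),([z0,z2,
    z0,z0,z0,z0],z1)],[([z0,z2,z0,z0,z0,z0],z1)],[]]]

/-- symmetries -/
noncomputable def hS6_140 : List (Bool × ℕ × List ℕ) :=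
  [(false,k0,[k0,k1,k2,k3,k4,k5]),(true,k0,[k0,k5,k4,k3,k2,k1])]

/-- nodes 0 to 11 -/
noncomputable def hN6_140_0 : List HM :=
  [.base (.leafM k3 [k1,k2,k3,k4,k5,k0] [(z1,[y1,z1,z1])] []),
    .base (.leafM k3 [k2,k3,k4,k5,k0,k1] [(z3,[z2,y1,y3,y3,z3])] []),
    .base (.geo z6 k5 [(z8,y3),(z4,z0),(z4,z3),(z4,y9),(z4,z3),(z0,z6)] [(z1,[z1]),(z1,[z0,z2]),(z1,[y1,z0,z6]),(z1,
    [z1,y2,y6,y6,z6]),(z1,[y1,z0,z0,z6]),(z1,[])] k7),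
    .base (.spec k8 false k0 [(z1,[z0,z0,z1]),(z1,[z1]),(z1,[z0,z1]),(z1,[z1,y1,y3,y3,z3]),(z1,[y1,z0,z0,z3])]),
    .base (.leafM k2 [k1,k2,k4,k5] [] [(k3,k0,z3,[z1,y1,y3,y3,z3]),(k0,k3,z3,[z1,y1,y3,y3,z3])]),
    .base (.spec k9 false k0 [(z1,[z0,z0,z1]),(z1,[z1]),(z1,[z0,z0,z1,y1]),(z1,[z0,z1,z1,y1]),(z1,[y1,y3,y3,z0,z3])]),
    .base (.geo z6 k5 [(z10,y3),(z4,z0),(z2,z3),(z6,y9),(z2,z3),(z0,z6)] [(z1,[z1]),(z1,[z0,z2]),(z1,[y1,z0,z6]),(z1,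
    [z1,y2,y6,y6,z6]),(z1,[y1,z0,z0,z6]),(z1,[])] k7),
    .base (.spec k0 false k0 [(z1,[z0,z0,z1]),(z1,[z0,z0,z0,z1]),(z3,[z2,z1,z3,z0,y3])]),
    .base (.spec k10 false k0 [(z1,[z0,z0,z1]),(z1,[z1]),(z1,[z0,z1]),(z3,[z1,y2,y6,y6,z6]),(z1,[y1,z0,z0,z6])]),
    .base (.leafM k8 [k5,k1,k3,k4] [(z1,[z0,z1]),(z1,[y1,z0,z0,z3]),(z3,[z1,y1,y3,y3,z3])] [(k0,k2,z1,[z0,z0,z1]),(k2,
    k0,z1,[z0,z0,z1])]),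
    .base (.leafM k9 [k5,k1,k3,k4] [(z1,[z0,z1]),(z1,[y1,z0,z0,z0,z2]),(z2,[z1,y1,z0,y2,y2,z2])] [(k0,k2,z1,[z0,z0,z0,
    z1]),(k2,k0,z1,[z0,z0,z0,z1])]),
    .base (.leafM k8 [k3,k5,k1,k2] [(z2,[z2,y3,y3,y6,y6,z6]),(z1,[y1,z0,z0,z3]),(z2,[z0,z1,z1])] [(k4,k0,z1,[z0,z0,z0,
    z0,z1]),(k0,k4,z1,[z0,z0,z0,z0,z1])])]

theorem hB6_140_0 : blkB [0, 0, 1, 0, 1, 1] [(0, 2), (0, 4)] sp6 hS6_140 (pcls (n := 6) [0, 0, 1, 0, 1, 1]) hD6_140 40 0 hN6_140_0 = true := by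
  decide +kernel

/-- nodes 12 to 23 -/
noncomputable def hN6_140_1 : List HM :=
  [.base (.leafM k3 [k2,k3,k4,k5,k0,k1] [(z2,[z1,y1,z0,y2,y2,z2])] []),
    .base (.spec k10 true k0 [(z1,[z0,z0,z0,z0,z1]),(z2,[z1,y3]),(z4,[z1,y6,y3,y12,y12,z12]),(z2,[z0,z1,z1]),(z2,[y1,
    z3,z0,z12])]),
    .base (.leafM k2 [k1,k2,k4,k5] [] [(k3,k0,z12,[z1,z0,z1]),(k0,k3,z12,[z1,z0,z1])]),
    .base (.geo z12 k0 [(z17,z0),(z6,z0),(z7,z0),(z3,z0),(z7,z0),(z8,z0)] [(z1,[z1]),(z1,[z0,z6]),(z1,[y1,z0,z0,z12]),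
    (z1,[z0,z0,z3]),(z1,[y1,z0,z0,z0,z12]),(z1,[z1,y6,y3,y12,y12,z12])] k1),
    .base (.geo z12 k0 [(z21,z0),(z6,z0),(z3,z0),(z7,z0),(z3,z0),(z8,z0)] [(z1,[z3]),(z1,[z0,z6]),(z1,[y3,z0,z0,z12]),
    (z1,[z0,z0,z1]),(z1,[y3,z0,z0,z0,z12]),(z1,[z3,y6,y1,y12,y12,z12])] k1),
    .base (.spec k8 true k0 [(z1,[z0,z0,z0,z0,z1]),(z2,[z1,y3]),(z2,[z1,y3,y2,y6,y6,z6]),(z1,[z0,z0,z1]),(z2,[y1,z3,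
    z0,z6])]),
    .lp (nat_lit 65537) [(nat_lit 1762),(nat_lit 600),(nat_lit 638),(nat_lit 342),(nat_lit 658),(nat_lit 800)] [k0,k0,
    (nat_lit 581),(nat_lit 581),(nat_lit 555),(nat_lit 569),(nat_lit 697),(nat_lit 723),(nat_lit 535),(nat_lit 569),
    (nat_lit 481),(nat_lit 481)] k0 [[k0,k92,k0,k0,k0,k0,k0,k0,k0,k0,k0,k0],[k0,k0,k0,k0,k0,k0,k0,k0,k0,k0,k0,k0],[k0,
    k0,k0,k92,k0,k0,k0,k0,k0,k0,k0,k0],[k0,k0,k0,k0,k0,k0,k0,k0,k0,k0,k0,k0],[k0,k0,k0,k0,k0,k168,k0,k0,k0,k0,k0,k0],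
    [k0,k0,k0,k0,k0,k0,k0,k0,k0,k20,(nat_lit 304),k0],[k0,k0,k0,k0,k0,k0,k0,k0,k0,k0,k0,k0],[k0,k0,k0,k0,k0,k0,k116,
    k0,k0,k0,k0,k0],[k0,k0,k0,k0,k20,k0,k0,k0,k0,k0,k0,k0],[k0,k0,k0,k0,k0,k0,k0,k0,k0,k0,(nat_lit 400),k0],[k0,k0,k0,
    k0,k0,k0,k0,k0,k0,k0,k0,k0],[k0,k0,k0,k0,(nat_lit 304),k0,k0,k0,(nat_lit 400),k0,k0,k0]] (nat_lit 2400) k6
    [[(k7,(nat_lit 735)),(k11,(nat_lit 881)),(k4,(nat_lit 1207)),(k8,(nat_lit 1227)),(k10,(nat_lit 1281)),(k1,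
    (nat_lit 1762))],[(k6,(nat_lit 1065)),(k2,(nat_lit 1181)),(k3,(nat_lit 1181)),(k5,(nat_lit 1193)),(k9,
    (nat_lit 1193)),(k0,(nat_lit 1670))],[(k6,(nat_lit 484)),(k2,(nat_lit 600)),(k5,(nat_lit 612)),(k9,(nat_lit 612)),
    (k3,(nat_lit 692)),(k0,(nat_lit 1181))],[(k6,(nat_lit 484)),(k2,(nat_lit 508)),(k3,(nat_lit 600)),(k5,
    (nat_lit 612)),(k9,(nat_lit 612)),(k0,(nat_lit 1181))],[(k6,(nat_lit 496)),(k2,(nat_lit 612)),(k3,(nat_lit 612)),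
    (k9,(nat_lit 624)),(k5,(nat_lit 716)),(k0,(nat_lit 1193))],[(k4,(nat_lit 484)),(k7,(nat_lit 484)),(k8,
    (nat_lit 672)),(k11,(nat_lit 746)),(k10,(nat_lit 1030)),(k1,(nat_lit 1207))],[(k4,(nat_lit 484)),(k7,
    (nat_lit 484)),(k8,(nat_lit 484)),(k10,(nat_lit 558)),(k11,(nat_lit 558)),(k1,(nat_lit 735))],[(k2,(nat_lit 484)),
    (k3,(nat_lit 484)),(k6,(nat_lit 484)),(k5,(nat_lit 496)),(k9,(nat_lit 496)),(k0,(nat_lit 1065))],[(k6,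
    (nat_lit 496)),(k9,(nat_lit 508)),(k2,(nat_lit 612)),(k3,(nat_lit 612)),(k5,(nat_lit 624)),(k0,(nat_lit 1193))],
    [(k7,(nat_lit 484)),(k4,(nat_lit 672)),(k8,(nat_lit 692)),(k11,(nat_lit 746)),(k10,(nat_lit 1146)),(k1,
    (nat_lit 1227))],[(k7,(nat_lit 558)),(k4,(nat_lit 746)),(k8,(nat_lit 746)),(k10,(nat_lit 800)),(k11,
    (nat_lit 800)),(k1,(nat_lit 881))],[(k7,(nat_lit 558)),(k10,(nat_lit 800)),(k11,(nat_lit 800)),(k4,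
    (nat_lit 1030)),(k8,(nat_lit 1146)),(k1,(nat_lit 1281))]]
    [[k0,k3,k0,k0,k0,k0],[k0,k2,k2,k0,k0,k0],[k0,k2,k1,k1,k0,k0],[k0,k2,k0,k2,k0,k0],[k0,k2,k0,k1,k1,k0],[k0,k1,k2,k0,
    k0,k0],[k0,k1,k1,k1,k0,k0],[k0,k1,k1,k0,k1,k0],[k0,k1,k0,k2,k0,k0],[k0,k1,k0,k1,k1,k0],[k0,k1,k0,k2,k0,k1],[k0,k1,
    k0,k0,k2,k0],[k0,k0,k3,k1,k0,k0],[k0,k0,k2,k2,k0,k0],[k0,k0,k2,k1,k1,k0],[k0,k0,k1,k3,k0,k0],[k0,k0,k1,k2,k1,k0],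
    [k0,k0,k1,k1,k2,k0],[k0,k0,k1,k1,k0,k1],[k0,k0,k0,k4,k0,k0],[k0,k0,k0,k3,k1,k0],[k0,k0,k0,k2,k2,k0],[k0,k0,k0,k1,
    k3,k0],[k0,k0,k0,k2,k0,k1],[k0,k0,k0,k1,k1,k1]]
    [.contra [z1,y1],.ref k10 k0 [(z1,[y1,z1,z0,z2]),(z1,[z0,z1]),(z2,[y3,z3,z1,z6,y6])],.contra [z6,y5,y1,y6,z6],
    .ref k11 k0 [(z2,[z3,y3,y1,z0,z6]),(z1,[z0,z1]),(z1,[z1,y1])],.contra [z6,y5,y1],.ref k12 k0 [(z1,[y2,z1,z0,z4]),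
    (z1,[z0,z1]),(z1,[y6,z3,z2,z12,y12])],.contra [z6,z1,y1,y6,z6],.ref k12 k0 [(z1,[y2,z1,z0,z2,z2]),(z1,[z0,z1]),
    (z1,[y6,z3,z2,z6,y6])],.ref k13 k0 [(z1,[z6,y3,y2,z0,z12]),(z1,[z0,z1]),(z1,[z2,y1])],.contra [z6,z1,y1],
    .ref k14 k0 [(z1,[z6,z0,y1,z6,z12,y6]),(z1,[z0,z1]),(z1,[z6,z0,z1,z6,z0,y6])],.ref k12 k0 [(z1,[y2,z1,z0,z0,z4]),
    (z1,[z0,z1]),(z1,[y6,z3,z2])],.ref k15 k0 [(z1,[y6,z0,z1,z18,y6]),(z1,[z0,z1]),(z1,[y2,z0,z1,z6,y6])],.contra [z3,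
    z1,y1,y6,z6],.ref k15 k0 [(z1,[y6,z0,z1,z12]),(z1,[z0,z1]),(z1,[y2,z0,z1,z4,y4])],.ref k16 k0 [(z1,[z2,z0,y1,y2,
    z6]),(z1,[z0,z1]),(z1,[z6,z0,y1,y6,z6])],.contra [z3,z1,y1,y3,z3],.ref k15 k0 [(z1,[y6,z0,z1,z6,z6]),(z1,[z0,z1]),
    (z1,[y2,z0,z1,z2,y2])],.contra [z1,z1,z0,z0,z1,y1],.ref k11 k0 [(z4,[z3,z0,y2,z0,z12]),(z1,[z0,z1]),(z2,[z1])],
    .ref k16 k0 [(z1,[z2,z0,y1,z0,z4]),(z1,[z0,z1]),(z1,[z6,z0,y1])],.contra [z3,z1,y1],.ref k15 k0 [(z1,[y6,z0,z1,z0,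
    z12]),(z1,[z0,z1]),(z1,[y2,z0,z1])],.ref k17 k0 [(z2,[z6,z3,y1,z6,z12,y6]),(z1,[z0,z1]),(z4,[z6,z3,z1,z6,z0,y6])],
    .contra [z1,z1,z0,z1,z0,y1]],
    .lp (nat_lit 257) [(nat_lit 3008),(nat_lit 1600),(nat_lit 1605),(nat_lit 633),(nat_lit 1585),
    (nat_lit 1169)] [(nat_lit 292),k0,(nat_lit 850),(nat_lit 850),(nat_lit 865),(nat_lit 830),(nat_lit 1488),
    (nat_lit 1179),(nat_lit 900),(nat_lit 815),(nat_lit 962),(nat_lit 1169)] k0 [[k0,k0,k0,k0,k0,k0,k0,k20,k0,k0,k0,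
    k0],[k0,k0,k0,k0,k0,k0,k0,k0,k0,k0,k0,k0],[k0,k0,k0,k0,k0,k0,k0,k0,k0,k0,k0,k0],[k0,k0,k0,k0,k0,k0,k0,k20,k0,k0,
    k0,k0],[k0,k0,k0,k0,k0,(nat_lit 608),k0,k0,k0,k10,k0,k0],[k0,k0,k0,k0,k0,k0,k0,k0,k0,k0,(nat_lit 441),k197],[k0,
    k20,k20,k0,k0,k0,k0,k0,k0,k0,k0,k0],[k0,k0,k0,k0,k0,k0,(nat_lit 708),k0,k0,k0,k0,k0],[k0,k0,k0,k0,k0,k10,k0,k0,k0,
    k0,k0,k0],[k0,k0,k0,k0,k0,k0,k0,k0,k0,k0,(nat_lit 1169),(nat_lit 207)],[k0,k0,k0,k0,k197,k0,k0,k0,(nat_lit 207),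
    k0,k0,k0],[k0,k0,k0,k0,(nat_lit 441),k0,k0,k0,(nat_lit 1169),k0,k0,k0]] (nat_lit 4800) k6
    [[(k11,(nat_lit 962)),(k7,(nat_lit 1680)),(k10,(nat_lit 2338)),(k8,(nat_lit 2607)),(k4,(nat_lit 2632)),(k1,
    (nat_lit 3300))],[(k6,(nat_lit 1500)),(k2,(nat_lit 2158)),(k3,(nat_lit 2158)),(k5,(nat_lit 2178)),(k9,
    (nat_lit 2193)),(k0,(nat_lit 2716))],[(k6,(nat_lit 962)),(k2,(nat_lit 1600)),(k3,(nat_lit 1600)),(k5,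
    (nat_lit 1620)),(k9,(nat_lit 1655)),(k0,(nat_lit 2158))],[(k6,(nat_lit 962)),(k2,(nat_lit 1600)),(k3,
    (nat_lit 1600)),(k5,(nat_lit 1620)),(k9,(nat_lit 1655)),(k0,(nat_lit 2158))],[(k6,(nat_lit 962)),(k2,
    (nat_lit 1620)),(k3,(nat_lit 1620)),(k5,(nat_lit 1640)),(k9,(nat_lit 1655)),(k0,(nat_lit 2178))],[(k4,
    (nat_lit 962)),(k7,(nat_lit 1256)),(k11,(nat_lit 1266)),(k8,(nat_lit 1525)),(k10,(nat_lit 1914)),(k1,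
    (nat_lit 2632))],[(k10,(nat_lit 962)),(k11,(nat_lit 962)),(k8,(nat_lit 1221)),(k4,(nat_lit 1256)),(k7,
    (nat_lit 1550)),(k1,(nat_lit 1680))],[(k2,(nat_lit 962)),(k3,(nat_lit 962)),(k5,(nat_lit 962)),(k9,(nat_lit 997)),
    (k6,(nat_lit 1032)),(k0,(nat_lit 1500))],[(k9,(nat_lit 962)),(k6,(nat_lit 997)),(k2,(nat_lit 1655)),(k3,
    (nat_lit 1655)),(k5,(nat_lit 1655)),(k0,(nat_lit 2193))],[(k7,(nat_lit 1221)),(k11,(nat_lit 1231)),(k8,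
    (nat_lit 1500)),(k4,(nat_lit 1525)),(k1,(nat_lit 2607)),(k10,(nat_lit 2607))],[(k1,(nat_lit 962)),(k7,
    (nat_lit 962)),(k10,(nat_lit 962)),(k11,(nat_lit 962)),(k8,(nat_lit 1231)),(k4,(nat_lit 1266))],[(k7,
    (nat_lit 962)),(k11,(nat_lit 962)),(k10,(nat_lit 1376)),(k4,(nat_lit 1914)),(k1,(nat_lit 2338)),(k8,
    (nat_lit 2607))]]
    [[k1,k0,k0,k1,k0,k1],[k1,k0,k0,k1,k0,k2],[k0,k1,k2,k0,k0,k0],[k0,k1,k1,k1,k0,k0],[k0,k1,k0,k2,k0,k0],[k0,k1,k0,k1,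
    k1,k0],[k0,k1,k0,k2,k0,k1],[k0,k0,k2,k2,k0,k0],[k0,k0,k1,k2,k1,k0],[k0,k0,k1,k1,k2,k0],[k0,k0,k1,k1,k0,k1],[k0,k0,
    k1,k1,k0,k2],[k0,k0,k0,k2,k2,k0],[k0,k0,k0,k1,k3,k0],[k0,k0,k0,k2,k0,k1],[k0,k0,k0,k1,k1,k1],[k0,k0,k0,k2,k0,k2],
    [k0,k0,k0,k1,k1,k2],[k0,k0,k0,k0,k0,k3],[k0,k0,k0,k0,k0,k4]]
    [.ref k1 k0 [(z2,[z3,z1,z3,z3,y3]),(z1,[z0,z1])],.ref k2 k0 [(z1,[z3,z1,z3,z3,y3]),(z1,[z0,z1])],.ref k1 k0 [(z2,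
    [y3,z1,z6]),(z1,[z0,z1])],.contra [y1,z0,z0,y1,z1],.ref k3 k0 [(z2,[z3,z1,z6,z6,y6]),(z1,[z0,z1])],.contra [y1,z0,
    y1,z0,z1],.ref k4 k0 [(z1,[z3,z1,z6,z6,y6]),(z1,[z0,z1])],.ref k5 k1 [(z2,[y3,y2,z0,y6,z6]),(z2,[z1])],
    .ref k5 k1 [(z2,[y3,y2,y3,y3,z6]),(z2,[z1,z0,z1,y1])],.ref k6 k0 [(z1,[y3,y1,z0,z3,z3]),(z1,[z0,z1])],.contra [z1,
    z1,z0,z1,y1],.ref k7 k0 [(z1,[z0,z1]),(z1,[y3,y2,y3,y3,z6])],.ref k5 k1 [(z2,[y3,y2,y6,z0,z6]),(z2,[z1,z0,z2,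
    y2])],.ref k6 k0 [(z1,[y3,y1,y3,z6,z3]),(z1,[z0,z1])],.ref k8 k0 [(z1,[z3,z2,z6,z6,y6]),(z1,[z0,z1])],.contra [z1,
    z1,z1,z0,y1],.ref k9 k0 [(z2,[z3,z2,z6,z6,y6]),(z1,[z0,z1])],.ref k7 k0 [(z1,[z0,z1]),(z1,[y3,y2,y6,z0,z6])],
    .ref k7 k0 [(z1,[z0,z1]),(z1,[y1,y1,y3,z0,z3])],.ref k18 k1 [(z2,[z1]),(z2,[y3,y4,z0,y12,z12])]],
    .base (.spec k0 false k0 [(z1,[z0,z0,z1]),(z1,[z0,z0,z0,z1]),(z1,[z0,z1])]),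
    .base (.spec k0 false k0 [(z1,[z0,z0,z0,z1]),(z1,[z0,z0,z0,z0,z1]),(z6,[y3,z4,z1,z6,z6,y6])]),
    .base (.spec k8 true k0 [(z1,[z0,z0,z0,z0,z1]),(z2,[z3,y1]),(z2,[z3,y1,y2,y6,y6,z6]),(z1,[z0,z0,z1]),(z2,[y3,z1,
    z0,z6])]),
    .base (.leafM k9 [k3,k5,k1,k2] [(z2,[z2,y1,y1,y4,y4,z4]),(z1,[y1,z0,z0,z2]),(z4,[z0,z1,z1])] [(k4,k0,z1,[z0,z0,z0,
    z0,z1]),(k0,k4,z1,[z0,z0,z0,z0,z1])])]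

theorem hB6_140_1 : blkB [0, 0, 1, 0, 1, 1] [(0, 2), (0, 4)] sp6 hS6_140 (pcls (n := 6) [0, 0, 1, 0, 1, 1]) hD6_140 40 1 hN6_140_1 = true := by
  decide +kernel

/-- nodes 24 to 35 -/
noncomputable def hN6_140_2 : List HM :=
  [.lp k0 [(nat_lit 1062),(nat_lit 404),(nat_lit 602),(nat_lit 598),(nat_lit 686),(nat_lit 480)] [k0,k0,(nat_lit 333),
    (nat_lit 325),(nat_lit 287),k173,(nat_lit 265),k199,(nat_lit 243),k133,(nat_lit 243),(nat_lit 339)] k0 [[k0,k0,k0,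
    k56,k0,k0,k0,(nat_lit 296),k0,k0,k0,k0],[k0,k0,k0,k20,k0,k0,k0,k88,k0,k0,k0,k0],[k20,k56,k0,k0,k0,k0,k0,k0,k0,k0,
    k0,k0],[k0,k0,k0,k0,k0,k0,k0,(nat_lit 240),k0,k0,k0,k0],[k0,k0,k0,k0,k0,k92,k0,k0,k0,k68,k0,k0],[k0,k0,k0,k0,k0,
    k0,k0,k0,k0,(nat_lit 236),k0,(nat_lit 236)],[k88,(nat_lit 296),(nat_lit 240),k0,k0,k0,k0,k0,k0,k0,k0,k0],[k0,k0,
    k0,k0,k0,k0,(nat_lit 412),k0,k0,k0,k0,k0],[k0,k0,k0,k0,(nat_lit 236),k68,k0,k0,k0,k0,k0,k0],[k0,k0,k0,k0,k0,k0,k0,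
    k0,k0,k0,k84,k84],[k0,k0,k0,k0,(nat_lit 236),k0,k0,k0,k84,k0,k0,k0],[k0,k0,k0,k0,k0,k0,k0,k0,k84,k0,k0,
    k0]] (nat_lit 1920) k6
    [[(k11,(nat_lit 639)),(k10,(nat_lit 819)),(k7,(nat_lit 863)),(k8,(nat_lit 903)),(k4,(nat_lit 1011)),(k1,
    (nat_lit 1062))],[(k6,(nat_lit 501)),(k2,(nat_lit 673)),(k3,(nat_lit 737)),(k5,(nat_lit 909)),(k9,(nat_lit 1017)),
    (k0,(nat_lit 1062))],[(k2,(nat_lit 384)),(k6,(nat_lit 384)),(k3,(nat_lit 412)),(k5,(nat_lit 620)),(k0,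
    (nat_lit 737)),(k9,(nat_lit 900))],[(k3,(nat_lit 384)),(k2,(nat_lit 396)),(k6,(nat_lit 464)),(k5,(nat_lit 556)),
    (k0,(nat_lit 673)),(k9,(nat_lit 836))],[(k6,(nat_lit 384)),(k2,(nat_lit 556)),(k3,(nat_lit 620)),(k5,
    (nat_lit 716)),(k9,(nat_lit 756)),(k0,(nat_lit 909))],[(k4,(nat_lit 396)),(k8,(nat_lit 464)),(k10,(nat_lit 532)),
    (k7,(nat_lit 576)),(k11,(nat_lit 672)),(k1,(nat_lit 1011))],[(k8,(nat_lit 384)),(k10,(nat_lit 384)),(k4,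
    (nat_lit 576)),(k11,(nat_lit 592)),(k7,(nat_lit 756)),(k1,(nat_lit 863))],[(k3,(nat_lit 384)),(k5,(nat_lit 384)),
    (k2,(nat_lit 464)),(k0,(nat_lit 501)),(k9,(nat_lit 664)),(k6,(nat_lit 944))],[(k9,(nat_lit 384)),(k6,
    (nat_lit 664)),(k5,(nat_lit 756)),(k2,(nat_lit 836)),(k3,(nat_lit 900)),(k0,(nat_lit 1017))],[(k7,(nat_lit 384)),
    (k4,(nat_lit 464)),(k11,(nat_lit 480)),(k8,(nat_lit 576)),(k10,(nat_lit 660)),(k1,(nat_lit 903))],[(k11,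
    (nat_lit 384)),(k10,(nat_lit 396)),(k8,(nat_lit 480)),(k7,(nat_lit 592)),(k1,(nat_lit 639)),(k4,(nat_lit 672))],
    [(k7,(nat_lit 384)),(k11,(nat_lit 396)),(k4,(nat_lit 532)),(k10,(nat_lit 576)),(k8,(nat_lit 660)),(k1,
    (nat_lit 819))]]
    [[k1,k0,k0,k1,k0,k1],[k0,k3,k0,k0,k0,k0],[k0,k4,k0,k0,k0,k0],[k0,k2,k1,k1,k0,k0],[k0,k1,k2,k0,k0,k0],[k0,k1,k1,k1,
    k0,k0],[k0,k1,k0,k2,k0,k0],[k0,k1,k0,k1,k1,k0],[k0,k1,k0,k2,k0,k1],[k0,k0,k1,k1,k2,k0],[k0,k0,k1,k1,k0,k1],[k0,k0,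
    k1,k1,k0,k2],[k0,k0,k1,k0,k1,k1],[k0,k0,k0,k1,k1,k1],[k0,k0,k0,k0,k2,k1],[k0,k0,k0,k0,k0,k3],[k0,k0,k0,k0,k0,k4]]
    [.contra [y1,z1,z0,y1,y1,z1],.contra [y2,y1,z3,z2],.contra [z1,z2,y4,y4,y4,z4],.ref k21 k0 [(z1,[z0,z1]),(z1,[z1,
    z0,z1,z0,z1,y1]),(z1,[z2,z3,y4,y6,y4,z4])],.contra [z1,z1,z0,y2],.contra [z1,z1,y1,y2,y1,z1],.ref k21 k0 [(z1,[z0,
    z1]),(z1,[z1,y1,z2,z2,z2,y2]),(z1,[z2,z1,y2,y2,y2,z2])],.contra [z1,z1,y1,y1,y2,z1],.contra [y2,z2,y1,y4,y4,z4],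
    .contra [y2,y2,y1,z0,z2,z2],.contra [z2,z0,z1,z0,z2,y2],.ref k21 k0 [(z1,[z0,z1]),(z1,[y1,z0,z1,z0,y1,z1]),(z1,
    [y2,z3,y4,y6,y8,z8])],.contra [z1,z1,z0,y1,y1],.contra [z2,z0,z1,z2,z0,y2],.contra [z1,z1,z0,z0,y2],
    .ref k22 k0 [(z1,[z0,z1]),(z1,[y1,z0,z3]),(z2,[y1,z3,y3,y6,y6,z6])],.ref k23 k0 [(z1,[z0,z1]),(z2,[y1,z0,z4]),(z2,
    [y1,z4,y4,y8,y8,z8])]],
    .base (.geo z4 k5 [(z6,z1),(z4,y6),(z2,y1),(z2,z3),(z2,y1),(z0,z4)] [(z1,[z1]),(z1,[z0,z2]),(z1,[y1,z0,z4]),(z1,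
    [z1,y2,y4,y4,z4]),(z1,[y1,z0,z0,z4]),(z1,[])] k10),
    .base (.geo z12 k0 [(z19,z0),(z4,z0),(z5,z0),(z9,z0),(z5,z0),(z6,z0)] [(z1,[z1]),(z1,[z0,z4]),(z1,[y1,z0,z0,z12]),
    (z1,[z0,z0,z3]),(z1,[y1,z0,z0,z0,z12]),(z1,[z1,y4,y3,y12,y12,z12])] k1),
    .base (.spec k0 false k0 [(z1,[z0,z0,z0,z1]),(z1,[z0,z0,z0,z0,z1]),(z4,[y1,z4,z1,z4,z4,y4])]),
    .lp (nat_lit 65537) [(nat_lit 702),(nat_lit 300),(nat_lit 440),(nat_lit 330),(nat_lit 328),(nat_lit 300)] [k0,k0,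
    (nat_lit 230),k172,k109,k153,k166,(nat_lit 206),k187,k187,k196,(nat_lit 206)] k0 [[k0,k0,k0,k0,k0,k0,k0,k132,k0,
    k0,k0,k0],[k0,k0,k0,k0,k0,k0,k0,k122,k0,k0,k0,k0],[k0,k0,k0,k0,k0,k0,k0,k0,k0,k0,k0,k0],[k0,k0,k0,k0,k0,k0,k120,
    k132,k0,k0,k0,k0],[k0,k0,k0,k0,k0,(nat_lit 242),k0,k0,k0,k0,k0,k0],[k0,k0,k0,k0,k0,k0,k0,k0,k0,k10,k10,k58],[k122,
    k132,k132,k0,k0,k0,k0,k0,k0,k0,k0,k0],[k0,k0,k120,k0,k0,k0,k56,k0,k0,k0,k0,k0],[k0,k0,k0,k0,k10,k0,k0,k0,k0,k0,k0,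
    k0],[k0,k0,k0,k0,k0,k0,k0,k0,k0,k0,k58,k58],[k0,k0,k0,k0,k58,k0,k0,k0,k58,k0,k0,k0],[k0,k0,k0,k0,k10,k0,k0,k0,k58,
    k0,k0,k0]] (nat_lit 1200) k6
    [[(k11,(nat_lit 438)),(k7,(nat_lit 486)),(k10,(nat_lit 506)),(k8,(nat_lit 573)),(k4,(nat_lit 651)),(k1,
    (nat_lit 702))],[(k6,(nat_lit 404)),(k2,(nat_lit 472)),(k3,(nat_lit 530)),(k5,(nat_lit 549)),(k9,(nat_lit 637)),
    (k0,(nat_lit 702))],[(k6,(nat_lit 242)),(k2,(nat_lit 300)),(k3,(nat_lit 358)),(k5,(nat_lit 377)),(k9,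
    (nat_lit 475)),(k0,(nat_lit 530))],[(k2,(nat_lit 242)),(k3,(nat_lit 300)),(k5,(nat_lit 319)),(k9,(nat_lit 417)),
    (k6,(nat_lit 426)),(k0,(nat_lit 472))],[(k9,(nat_lit 242)),(k6,(nat_lit 251)),(k2,(nat_lit 319)),(k3,
    (nat_lit 377)),(k5,(nat_lit 396)),(k0,(nat_lit 549))],[(k4,(nat_lit 242)),(k7,(nat_lit 387)),(k11,(nat_lit 397)),
    (k8,(nat_lit 406)),(k10,(nat_lit 407)),(k1,(nat_lit 651))],[(k10,(nat_lit 242)),(k11,(nat_lit 290)),(k8,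
    (nat_lit 299)),(k4,(nat_lit 387)),(k1,(nat_lit 486)),(k7,(nat_lit 532))],[(k3,(nat_lit 242)),(k5,(nat_lit 251)),
    (k9,(nat_lit 349)),(k0,(nat_lit 404)),(k2,(nat_lit 426)),(k6,(nat_lit 426))],[(k5,(nat_lit 242)),(k9,
    (nat_lit 272)),(k6,(nat_lit 349)),(k2,(nat_lit 417)),(k3,(nat_lit 475)),(k0,(nat_lit 637))],[(k7,(nat_lit 299)),
    (k11,(nat_lit 309)),(k8,(nat_lit 328)),(k10,(nat_lit 377)),(k4,(nat_lit 406)),(k1,(nat_lit 573))],[(k10,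
    (nat_lit 242)),(k7,(nat_lit 290)),(k11,(nat_lit 290)),(k8,(nat_lit 309)),(k4,(nat_lit 397)),(k1,(nat_lit 438))],
    [(k7,(nat_lit 242)),(k11,(nat_lit 242)),(k10,(nat_lit 310)),(k8,(nat_lit 377)),(k4,(nat_lit 407)),(k1,
    (nat_lit 506))]]
    [[k1,k0,k0,k1,k0,k1],[k0,k3,k0,k0,k0,k0],[k0,k1,k2,k0,k0,k0],[k0,k1,k1,k1,k0,k0],[k0,k1,k0,k1,k1,k0],[k0,k0,k2,k1,
    k1,k0],[k0,k0,k1,k1,k0,k1],[k0,k0,k1,k1,k0,k2],[k0,k0,k2,k0,k2,k0],[k0,k0,k1,k0,k1,k1],[k0,k0,k0,k2,k0,k1],[k0,k0,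
    k0,k1,k1,k1],[k0,k0,k0,k1,k1,k2],[k0,k0,k0,k0,k2,k1],[k0,k0,k0,k0,k0,k3],[k0,k0,k0,k0,k0,k4]]
    [.contra [z2,y1,z1,z2,z2,y2],.contra [z1,z0,y1],.contra [y2,y1,z1,z4],.contra [y1,z0,z0,z0,y1,z1],.contra [y1,z0,
    z0,y1,z0,z1],.ref k26 k1 [(z1,[y4,z1,y2,z4,z0,z4]),(z2,[y2,y1,y1,z2,z0,z2]),(z1,[z0,z1,y2,y4,y4,z4])],.contra [z1,
    z0,z1,z0,z1,y1],.ref k27 k0 [(z1,[z4,z1,z2,z0,z4,y4]),(z1,[z0,z0,z1]),(z1,[z0,z1,y2,y4,y4,z4])],.ref k23 k1 [(z2,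
    [y1,z0,z0,z2,z2]),(z1,[y1,y1,z0,z2,z2]),(z1,[z0,z1,y2,y4,y4,z4])],.contra [y2,y1,z1,z2,z2],.ref k27 k0 [(z1,[z4,
    y1,z4,z8,z8,y8]),(z1,[z0,z0,z1]),(z1,[z0,z1,y2,y4,y4,z4])],.contra [z1,z0,z1,z1,z0,y1],.ref k27 k0 [(z1,[z4,z1,z2,
    z4,z0,y4]),(z1,[z0,z0,z1]),(z1,[z0,z1,y2,y4,y4,z4])],.contra [y2,y1,z1,z0,z4],.ref k13 k0 [(z1,[z4,z3]),(z1,[z0,
    z0,z1]),(z1,[z0,z1,y2,y4,y4,z4])],.ref k27 k0 [(z1,[z1,z1]),(z1,[z0,z0,z1]),(z1,[z0,z1,y2,y4,y4,z4])]],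
    .lp (nat_lit 257) [(nat_lit 1396),(nat_lit 600),(nat_lit 856),(nat_lit 462),(nat_lit 846),(nat_lit 640)] [k0,k0,
    (nat_lit 398),(nat_lit 398),k113,(nat_lit 427),(nat_lit 477),(nat_lit 457),(nat_lit 379),k171,(nat_lit 299),
    (nat_lit 457)] k0 [[k0,k0,k0,k0,k0,k0,k0,k98,k0,k0,k0,k0],[k0,k0,k0,k0,k0,k0,k0,k0,k0,k0,k0,k0],[k0,k0,k0,k0,k0,
    k0,k0,k0,k0,k0,k0,k0],[k0,k0,k0,k0,k0,k0,k0,k10,k0,k0,k0,k0],[k0,k0,k0,k0,k0,(nat_lit 276),k0,k0,k0,(nat_lit 422),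
    k0,k0],[k0,k0,k0,k0,k0,k0,k0,k0,k0,k0,k58,k158],[k0,k98,k10,k0,k0,k0,k0,k0,k0,k0,k0,k0],[k0,k0,k0,k0,k0,k0,
    (nat_lit 572),k0,k0,k0,k0,k0],[k0,k0,k0,k0,k0,(nat_lit 422),k0,k0,k0,k0,k0,k0],[k0,k0,k0,k0,k0,k0,k0,k0,k0,k0,
    k158,k158],[k0,k0,k0,k0,k158,k0,k0,k0,k158,k0,k0,k0],[k0,k0,k0,k0,k58,k0,k0,k0,k158,k0,k0,k0]] (nat_lit 2400) k6
    [[(k11,(nat_lit 781)),(k7,(nat_lit 881)),(k10,(nat_lit 1097)),(k8,(nat_lit 1175)),(k1,(nat_lit 1396)),(k4,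
    (nat_lit 1441))],[(k6,(nat_lit 821)),(k5,(nat_lit 969)),(k2,(nat_lit 998)),(k3,(nat_lit 998)),(k9,(nat_lit 1225)),
    (k0,(nat_lit 1396))],[(k6,(nat_lit 521)),(k5,(nat_lit 571)),(k2,(nat_lit 600)),(k3,(nat_lit 600)),(k9,
    (nat_lit 925)),(k0,(nat_lit 998))],[(k6,(nat_lit 521)),(k5,(nat_lit 571)),(k2,(nat_lit 600)),(k3,(nat_lit 600)),
    (k9,(nat_lit 837)),(k0,(nat_lit 998))],[(k6,(nat_lit 482)),(k5,(nat_lit 542)),(k2,(nat_lit 571)),(k3,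
    (nat_lit 571)),(k9,(nat_lit 798)),(k0,(nat_lit 969))],[(k8,(nat_lit 482)),(k7,(nat_lit 826)),(k11,(nat_lit 826)),
    (k4,(nat_lit 894)),(k10,(nat_lit 1042)),(k1,(nat_lit 1441))],[(k10,(nat_lit 482)),(k8,(nat_lit 560)),(k7,
    (nat_lit 758)),(k4,(nat_lit 826)),(k1,(nat_lit 881)),(k11,(nat_lit 904))],[(k5,(nat_lit 482)),(k2,(nat_lit 521)),
    (k3,(nat_lit 521)),(k9,(nat_lit 748)),(k0,(nat_lit 821)),(k6,(nat_lit 1014))],[(k9,(nat_lit 482)),(k6,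
    (nat_lit 748)),(k5,(nat_lit 798)),(k2,(nat_lit 837)),(k3,(nat_lit 925)),(k0,(nat_lit 1225))],[(k4,(nat_lit 482)),
    (k7,(nat_lit 560)),(k11,(nat_lit 560)),(k8,(nat_lit 638)),(k10,(nat_lit 876)),(k1,(nat_lit 1175))],[(k10,
    (nat_lit 482)),(k11,(nat_lit 482)),(k8,(nat_lit 560)),(k1,(nat_lit 781)),(k4,(nat_lit 826)),(k7,(nat_lit 904))],
    [(k7,(nat_lit 482)),(k11,(nat_lit 482)),(k10,(nat_lit 798)),(k8,(nat_lit 876)),(k4,(nat_lit 1042)),(k1,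
    (nat_lit 1097))]]
    [[k1,k0,k0,k1,k0,k1],[k0,k3,k0,k0,k0,k0],[k0,k1,k2,k0,k0,k0],[k0,k1,k1,k1,k0,k0],[k0,k1,k1,k0,k1,k0],[k0,k1,k0,k2,
    k0,k0],[k0,k1,k0,k1,k1,k0],[k0,k0,k2,k0,k2,k0],[k0,k0,k1,k1,k2,k0],[k0,k0,k1,k1,k0,k1],[k0,k0,k1,k1,k0,k2],[k0,k0,
    k0,k1,k1,k1],[k0,k0,k0,k1,k1,k2],[k0,k0,k0,k0,k4,k0],[k0,k0,k0,k0,k2,k1],[k0,k0,k0,k0,k0,k3],[k0,k0,k0,k0,k0,k4]]
    [.contra [z1,z1,z1,y1,y1],.ref k8 k0 [(z1,[z2,y3,z0,z6]),(z1,[z1])],.contra [y1,z1,z2,y2],.contra [z1,y1,y2,z1,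
    z1],.contra [y1,z1,z1,y1],.ref k20 k0 [(z1,[z2,z1,z4,z2,y4]),(z1,[z1,z1,z2,z0,y2])],.contra [z1,y1,y1,z0,z1],
    .ref k24 k0 [(z2,[y1,z0,z2,z2]),(z2,[y1,z2,z2,y2])],.ref k25 k1 [(z1,[y1,y1,z0,z3,z1]),(z1,[y1,z1,z0,y1,z1])],
    .contra [y1,z0,z0,y1,z1],.ref k20 k0 [(z1,[y2,y1,z0,z0,z2]),(z1,[y1,z0,z0,y1,z1])],.contra [y1,z0,y1,z0,z1],
    .ref k20 k0 [(z1,[y2,y1,y2,z2,z2]),(z1,[y1,z0,y1,z0,z1])],.ref k24 k0 [(z2,[y1,z0,z0,z4]),(z2,[y1,z2])],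
    .contra [y1,z1],.ref k3 k1 [(z2,[z1,y3,z0,z6]),(z1,[z1])],.ref k28 k1 [(z2,[z1,y4,z0,z8]),(z2,[z1])]],
    .base (.leafM k2 [k1,k2,k4,k5] [] [(k3,k0,z1,[y1,y1,z1,z1]),(k0,k3,z1,[y1,y1,z1,z1])]),
    .base (.spec k0 false k0 [(z1,[z0,z1]),(z1,[z0,z0,z1]),(z1,[z1])]),
    .base (.leafM k3 [k2,k3,k4,k5,k0,k1] [(z2,[z1,y1,y2,y2,z2])] []),
    .base (.geo z4 k5 [(z5,y2),(z2,z0),(z3,z2),(z3,y6),(z3,z2),(z0,z4)] [(z1,[z1]),(z1,[z0,z2]),(z1,[y1,z0,z4]),(z1,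
    [z1,y2,y4,y4,z4]),(z1,[y1,z0,z0,z4]),(z1,[])] k9),
    .base (.leafM k2 [k1,k2,k4,k5] [] [(k3,k0,z2,[z1,y1,y2,y2,z2]),(k0,k3,z2,[z1,y1,y2,y2,z2])]),
    .base (.spec k0 false k0 [(z1,[z0,z0,z1]),(z1,[z0,z0,z0,z1]),(z1,[z1,z1,z1,z0,y1])])]

theorem hB6_140_2 : blkB [0, 0, 1, 0, 1, 1] [(0, 2), (0, 4)] sp6 hS6_140 (pcls (n := 6) [0, 0, 1, 0, 1, 1]) hD6_140 40 2 hN6_140_2 = true := by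
  decide +kernel

/-- nodes 36 to 39 -/
noncomputable def hN6_140_3 : List HM :=
  [.base (.geo z8 k0 [(z13,z0),(z2,z0),(z3,z0),(z7,z0),(z3,z0),(z4,z0)] [(z1,[z1]),(z1,[z0,z2]),(z1,[y1,z0,z0,z8]),
    (z1,[z0,z0,z1]),(z1,[y1,z0,z0,z0,z8]),(z1,[z1,y2,y1,y8,y8,z8])] k1),
    .lp (nat_lit 257) [(nat_lit 1396),(nat_lit 600),(nat_lit 856),(nat_lit 462),(nat_lit 846),(nat_lit 640)] [k0,k0,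
    (nat_lit 398),(nat_lit 398),k113,(nat_lit 427),(nat_lit 477),(nat_lit 457),(nat_lit 379),k171,(nat_lit 299),
    (nat_lit 457)] k0 [[k0,k0,k0,k0,k0,k0,k0,k98,k0,k0,k0,k0],[k0,k0,k0,k0,k0,k0,k0,k0,k0,k0,k0,k0],[k0,k0,k0,k0,k0,
    k0,k0,k0,k0,k0,k0,k0],[k0,k0,k0,k0,k0,k0,k0,k10,k0,k0,k0,k0],[k0,k0,k0,k0,k0,(nat_lit 276),k0,k0,k0,(nat_lit 422),
    k0,k0],[k0,k0,k0,k0,k0,k0,k0,k0,k0,k0,k58,k158],[k0,k98,k10,k0,k0,k0,k0,k0,k0,k0,k0,k0],[k0,k0,k0,k0,k0,k0,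
    (nat_lit 572),k0,k0,k0,k0,k0],[k0,k0,k0,k0,k0,(nat_lit 422),k0,k0,k0,k0,k0,k0],[k0,k0,k0,k0,k0,k0,k0,k0,k0,k0,
    k158,k158],[k0,k0,k0,k0,k158,k0,k0,k0,k158,k0,k0,k0],[k0,k0,k0,k0,k58,k0,k0,k0,k158,k0,k0,k0]] (nat_lit 2400) k6
    [[(k11,(nat_lit 781)),(k7,(nat_lit 881)),(k10,(nat_lit 1097)),(k8,(nat_lit 1175)),(k1,(nat_lit 1396)),(k4,
    (nat_lit 1441))],[(k6,(nat_lit 821)),(k5,(nat_lit 969)),(k2,(nat_lit 998)),(k3,(nat_lit 998)),(k9,(nat_lit 1225)),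
    (k0,(nat_lit 1396))],[(k6,(nat_lit 521)),(k5,(nat_lit 571)),(k2,(nat_lit 600)),(k3,(nat_lit 600)),(k9,
    (nat_lit 925)),(k0,(nat_lit 998))],[(k6,(nat_lit 521)),(k5,(nat_lit 571)),(k2,(nat_lit 600)),(k3,(nat_lit 600)),
    (k9,(nat_lit 837)),(k0,(nat_lit 998))],[(k6,(nat_lit 482)),(k5,(nat_lit 542)),(k2,(nat_lit 571)),(k3,
    (nat_lit 571)),(k9,(nat_lit 798)),(k0,(nat_lit 969))],[(k8,(nat_lit 482)),(k7,(nat_lit 826)),(k11,(nat_lit 826)),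
    (k4,(nat_lit 894)),(k10,(nat_lit 1042)),(k1,(nat_lit 1441))],[(k10,(nat_lit 482)),(k8,(nat_lit 560)),(k7,
    (nat_lit 758)),(k4,(nat_lit 826)),(k1,(nat_lit 881)),(k11,(nat_lit 904))],[(k5,(nat_lit 482)),(k2,(nat_lit 521)),
    (k3,(nat_lit 521)),(k9,(nat_lit 748)),(k0,(nat_lit 821)),(k6,(nat_lit 1014))],[(k9,(nat_lit 482)),(k6,
    (nat_lit 748)),(k5,(nat_lit 798)),(k2,(nat_lit 837)),(k3,(nat_lit 925)),(k0,(nat_lit 1225))],[(k4,(nat_lit 482)),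
    (k7,(nat_lit 560)),(k11,(nat_lit 560)),(k8,(nat_lit 638)),(k10,(nat_lit 876)),(k1,(nat_lit 1175))],[(k10,
    (nat_lit 482)),(k11,(nat_lit 482)),(k8,(nat_lit 560)),(k1,(nat_lit 781)),(k4,(nat_lit 826)),(k7,(nat_lit 904))],
    [(k7,(nat_lit 482)),(k11,(nat_lit 482)),(k10,(nat_lit 798)),(k8,(nat_lit 876)),(k4,(nat_lit 1042)),(k1,
    (nat_lit 1097))]]
    [[k1,k0,k0,k1,k0,k1],[k0,k3,k0,k0,k0,k0],[k0,k1,k2,k0,k0,k0],[k0,k1,k1,k1,k0,k0],[k0,k1,k1,k0,k1,k0],[k0,k1,k0,k2,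
    k0,k0],[k0,k1,k0,k1,k1,k0],[k0,k0,k2,k0,k2,k0],[k0,k0,k1,k1,k2,k0],[k0,k0,k1,k1,k0,k1],[k0,k0,k1,k1,k0,k2],[k0,k0,
    k0,k1,k1,k1],[k0,k0,k0,k1,k1,k2],[k0,k0,k0,k0,k4,k0],[k0,k0,k0,k0,k2,k1],[k0,k0,k0,k0,k0,k3],[k0,k0,k0,k0,k0,k4]]
    [.contra [z1,y1,z1,z1,z1,y1],.contra [z1,z0,y1],.contra [y1,y1,z1,z2],.contra [z1,z1,y1,y2,y1,z1],.contra [y1,y1,
    z1,z1,z1],.ref k27 k0 [(z1,[y2,z4,y1,y4,y4,z4]),(z1,[z0,z0,z1]),(z1,[z2,z0,y1])],.contra [z1,z1,y1,y1,y2,z1],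
    .contra [z1,z4,y2,y6,y6,z4],.ref k36 k1 [(z1,[y2,z2,y1,z0,z2,z2]),(z1,[y2,y2,y1,z0,z2,z2]),(z1,[z2,z6,y3,y8,y10,
    z6])],.contra [z1,z0,z1,z0,z1,y1],.ref k27 k0 [(z1,[z2,z2,z1,z0,z2,y2]),(z1,[z0,z0,z1]),(z1,[y2,z2,y3,y4,y6,z6])],
    .contra [z1,z0,z1,z1,z0,y1],.ref k27 k0 [(z1,[z2,z2,z1,z2,z0,y2]),(z1,[z0,z0,z1]),(z1,[y2,z2,y3,y6,y4,z6])],
    .contra [z1,z4,y2,y4,y8,z4],.contra [z1,z1,z1,z0,y2],.ref k17 k0 [(z1,[z1,z3]),(z1,[z0,z0,z1]),(z2,[y1,z3,y3,y6,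
    y6,z6])],.ref k27 k0 [(z2,[z1,z4]),(z1,[z0,z0,z1]),(z2,[y1,z4,y4,y8,y8,z8])]],
    .lp (nat_lit 65537) [(nat_lit 3598),(nat_lit 1500),(nat_lit 2198),(nat_lit 1006),(nat_lit 2198),
    (nat_lit 1500)] [(nat_lit 558),k0,(nat_lit 1328),(nat_lit 1328),(nat_lit 979),(nat_lit 979),(nat_lit 1618),
    (nat_lit 1532),(nat_lit 1183),(nat_lit 775),(nat_lit 1210),(nat_lit 1446)] k0 [[k0,k0,k0,k0,k0,k0,k0,k154,k0,k0,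
    k0,k0],[k0,k0,k0,k0,k0,k0,k0,k0,k0,k0,k0,k0],[k0,k0,k0,k0,k0,k0,k0,k0,k0,k0,k0,k0],[k0,k0,k0,k0,k0,k0,k0,k154,k0,
    k0,k0,k0],[k0,k0,k0,k0,k0,(nat_lit 988),k0,k0,k0,k50,k0,k0],[k0,k0,k0,k0,k0,k0,k0,k0,k0,k0,k104,(nat_lit 204)],
    [k0,k154,k154,k0,k0,k0,k0,k0,k0,k0,k0,k0],[k0,k0,k0,k0,k0,k0,(nat_lit 1396),k0,k0,k0,k0,k0],[k0,k0,k0,k0,k0,k50,
    k0,k0,k0,k0,k0,k0],[k0,k0,k0,k0,k0,k0,k0,k0,k0,k0,(nat_lit 1500),(nat_lit 254)],[k0,k0,k0,k0,(nat_lit 204),k0,k0,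
    k0,(nat_lit 254),k0,k0,k0],[k0,k0,k0,k0,k104,k0,k0,k0,(nat_lit 1500),k0,k0,k0]] (nat_lit 6000) k6
    [[(k11,(nat_lit 1210)),(k7,(nat_lit 2520)),(k10,(nat_lit 2946)),(k8,(nat_lit 3227)),(k4,(nat_lit 3381)),(k1,
    (nat_lit 4156))],[(k6,(nat_lit 1826)),(k2,(nat_lit 2270)),(k3,(nat_lit 2270)),(k5,(nat_lit 2619)),(k9,
    (nat_lit 2823)),(k0,(nat_lit 3040))],[(k6,(nat_lit 1210)),(k2,(nat_lit 1500)),(k3,(nat_lit 1500)),(k5,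
    (nat_lit 1849)),(k9,(nat_lit 2207)),(k0,(nat_lit 2270))],[(k6,(nat_lit 1210)),(k2,(nat_lit 1500)),(k3,
    (nat_lit 1500)),(k5,(nat_lit 1849)),(k9,(nat_lit 2207)),(k0,(nat_lit 2270))],[(k6,(nat_lit 1405)),(k2,
    (nat_lit 1849)),(k3,(nat_lit 1849)),(k5,(nat_lit 2198)),(k9,(nat_lit 2402)),(k0,(nat_lit 2619))],[(k4,
    (nat_lit 1210)),(k7,(nat_lit 1645)),(k11,(nat_lit 1731)),(k8,(nat_lit 1944)),(k10,(nat_lit 2071)),(k1,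
    (nat_lit 3381))],[(k10,(nat_lit 1210)),(k11,(nat_lit 1228)),(k8,(nat_lit 1441)),(k4,(nat_lit 1645)),(k7,
    (nat_lit 2080)),(k1,(nat_lit 2520))],[(k2,(nat_lit 1210)),(k3,(nat_lit 1210)),(k5,(nat_lit 1405)),(k9,
    (nat_lit 1763)),(k0,(nat_lit 1826)),(k6,(nat_lit 2316))],[(k9,(nat_lit 1210)),(k6,(nat_lit 1763)),(k2,
    (nat_lit 2207)),(k3,(nat_lit 2207)),(k5,(nat_lit 2402)),(k0,(nat_lit 2823))],[(k7,(nat_lit 1441)),(k11,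
    (nat_lit 1527)),(k8,(nat_lit 1790)),(k4,(nat_lit 1944)),(k1,(nat_lit 3227)),(k10,(nat_lit 3263))],[(k1,
    (nat_lit 1210)),(k7,(nat_lit 1228)),(k10,(nat_lit 1246)),(k11,(nat_lit 1264)),(k8,(nat_lit 1527)),(k4,
    (nat_lit 1731))],[(k7,(nat_lit 1210)),(k11,(nat_lit 1246)),(k10,(nat_lit 1736)),(k4,(nat_lit 2071)),(k1,
    (nat_lit 2946)),(k8,(nat_lit 3263))]]
    [[k1,k0,k1,k0,k0,k1],[k1,k0,k0,k1,k0,k1],[k1,k1,k0,k1,k0,k1],[k1,k0,k0,k1,k0,k2],[k0,k3,k0,k0,k0,k0],[k0,k1,k2,k0,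
    k0,k0],[k0,k1,k1,k1,k0,k0],[k0,k1,k0,k2,k0,k0],[k0,k1,k0,k1,k1,k0],[k0,k1,k0,k2,k0,k1],[k0,k0,k1,k1,k0,k1],[k0,k0,
    k1,k1,k0,k2],[k0,k0,k0,k2,k0,k1],[k0,k0,k0,k1,k1,k1],[k0,k0,k0,k1,k1,k2],[k0,k0,k0,k0,k0,k3],[k0,k0,k0,k0,k0,k4]]
    [.contra [z1,z0,y1],.ref k32 k0 [(z1,[z2,z1,z2,z2,y2]),(z1,[z0,z1])],.contra [z1,z0,z1,z1,y1],.ref k33 k0 [(z1,
    [z2,z1,z2,z2,y2]),(z1,[z0,z1])],.contra [z1,y1],.ref k32 k0 [(z1,[y2,z1,z4]),(z1,[z0,z1])],.contra [y1,z0,z0,y1,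
    z1],.ref k28 k0 [(z1,[z2,z1,z4,z4,y4]),(z1,[z0,z1])],.contra [y1,z0,y1,z0,z1],.ref k34 k0 [(z1,[z2,z1,z4,z4,y4]),
    (z1,[z0,z1])],.contra [z1,z1,z0,z1,y1],.ref k35 k0 [(z1,[z0,z1]),(z1,[y1,y1,y1,y1,z2])],.ref k37 k0 [(z1,[z1,z1,
    z2,z2,y2]),(z1,[z0,z1])],.contra [z1,z1,z1,z0,y1],.ref k35 k0 [(z1,[z0,z1]),(z1,[y1,y1,y2,z0,z2])],
    .ref k18 k0 [(z1,[z0,z1]),(z1,[y2,y3,y6,z0,z6])],.ref k35 k0 [(z1,[z0,z1]),(z4,[y1,y2,y4,z0,z4])]],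
    .lp (nat_lit 65537) [(nat_lit 2882),(nat_lit 1200),(nat_lit 1762),(nat_lit 794),(nat_lit 1762),
    (nat_lit 1200)] [k0,k0,(nat_lit 841),(nat_lit 841),(nat_lit 551),(nat_lit 569),(nat_lit 1073),(nat_lit 1015),
    (nat_lit 725),(nat_lit 395),(nat_lit 743),(nat_lit 939)] k0 [[k0,k0,k0,k0,k0,k0,k0,k116,k0,k0,k0,k0],[k0,k0,k0,k0,
    k0,k0,k0,k0,k0,k0,k0,k0],[k0,k0,k0,k0,k0,k0,k0,k0,k0,k0,k0,k0],[k0,k0,k0,k0,k0,k0,k0,k116,k0,k0,k0,k0],[k0,k0,k0,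
    k0,k0,(nat_lit 812),k0,k0,k0,k40,k0,k0],[k0,k0,k0,k0,k0,k0,k0,k0,k0,k0,k76,k156],[k0,k116,k116,k0,k0,k0,k0,k0,k0,
    k0,k0,k0],[k0,k0,k0,k0,k0,k0,(nat_lit 1124),k0,k0,k0,k0,k0],[k0,k0,k0,k0,k0,k40,k0,k0,k0,k0,k0,k0],[k0,k0,k0,k0,
    k0,k0,k0,k0,k0,k0,k196,k196],[k0,k0,k0,k0,k156,k0,k0,k0,k196,k0,k0,k0],[k0,k0,k0,k0,k76,k0,k0,k0,k196,k0,k0,
    k0]] (nat_lit 4800) k6
    [[(k11,(nat_lit 1747)),(k7,(nat_lit 1791)),(k10,(nat_lit 2139)),(k8,(nat_lit 2353)),(k4,(nat_lit 2487)),(k1,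
    (nat_lit 2882))],[(k6,(nat_lit 1693)),(k2,(nat_lit 2041)),(k3,(nat_lit 2041)),(k5,(nat_lit 2313)),(k9,
    (nat_lit 2487)),(k0,(nat_lit 2882))],[(k6,(nat_lit 968)),(k2,(nat_lit 1200)),(k3,(nat_lit 1200)),(k5,
    (nat_lit 1472)),(k9,(nat_lit 1762)),(k0,(nat_lit 2041))],[(k6,(nat_lit 968)),(k2,(nat_lit 1200)),(k3,
    (nat_lit 1200)),(k5,(nat_lit 1472)),(k9,(nat_lit 1762)),(k0,(nat_lit 2041))],[(k6,(nat_lit 1124)),(k2,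
    (nat_lit 1472)),(k3,(nat_lit 1472)),(k5,(nat_lit 1744)),(k9,(nat_lit 1918)),(k0,(nat_lit 2313))],[(k4,
    (nat_lit 968)),(k7,(nat_lit 1316)),(k11,(nat_lit 1392)),(k8,(nat_lit 1566)),(k10,(nat_lit 1664)),(k1,
    (nat_lit 2487))],[(k10,(nat_lit 968)),(k11,(nat_lit 968)),(k8,(nat_lit 1142)),(k4,(nat_lit 1316)),(k7,
    (nat_lit 1664)),(k1,(nat_lit 1791))],[(k2,(nat_lit 968)),(k3,(nat_lit 968)),(k5,(nat_lit 1124)),(k9,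
    (nat_lit 1414)),(k0,(nat_lit 1693)),(k6,(nat_lit 1860))],[(k9,(nat_lit 968)),(k6,(nat_lit 1414)),(k2,
    (nat_lit 1762)),(k3,(nat_lit 1762)),(k5,(nat_lit 1918)),(k0,(nat_lit 2487))],[(k7,(nat_lit 1142)),(k11,
    (nat_lit 1218)),(k8,(nat_lit 1432)),(k4,(nat_lit 1566)),(k10,(nat_lit 1610)),(k1,(nat_lit 2353))],[(k7,
    (nat_lit 968)),(k10,(nat_lit 1004)),(k11,(nat_lit 1004)),(k8,(nat_lit 1218)),(k4,(nat_lit 1392)),(k1,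
    (nat_lit 1747))],[(k7,(nat_lit 968)),(k11,(nat_lit 1004)),(k10,(nat_lit 1396)),(k8,(nat_lit 1610)),(k4,
    (nat_lit 1664)),(k1,(nat_lit 2139))]]
    [[k1,k0,k0,k1,k0,k1],[k0,k3,k0,k0,k0,k0],[k0,k1,k2,k0,k0,k0],[k0,k1,k1,k1,k0,k0],[k0,k1,k0,k2,k0,k0],[k0,k1,k0,k1,
    k1,k0],[k0,k1,k0,k2,k0,k1],[k0,k0,k1,k1,k0,k1],[k0,k0,k1,k1,k0,k2],[k0,k0,k0,k2,k0,k1],[k0,k0,k0,k1,k1,k1],[k0,k0,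
    k0,k1,k1,k2],[k0,k0,k0,k0,k2,k1],[k0,k0,k0,k0,k0,k3],[k0,k0,k0,k0,k0,k4]]
    [.ref k0 k1 [(z1,[z1,z1,z1,y1])],.ref k19 k0 [(z1,[z1])],.ref k0 k1 [(z1,[y1,z2])],.contra [y1,z0,y1,z1],
    .ref k29 k1 [(z1,[y1,z0,y2,z2])],.contra [y1,y1,z0,z1],.ref k30 k0 [(z1,[y1,y2,z0,z2])],.contra [y1,z0,y1,z1],
    .ref k31 k0 [(z1,[y1,z0,y1,z1])],.ref k29 k0 [(z1,[y1,y2,z0,z2])],.contra [y1,y1,z0,z1],.ref k31 k0 [(z1,[y1,y1,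
    z0,z1])],.ref k0 k0 [(z1,[y1,z0,z2])],.ref k19 k1 [(z1,[z1])],.ref k38 k1 [(z2,[z1])]]]

theorem hB6_140_3 : blkB [0, 0, 1, 0, 1, 1] [(0, 2), (0, 4)] sp6 hS6_140 (pcls (n := 6) [0, 0, 1, 0, 1, 1]) hD6_140 40 3 hN6_140_3 = true := by
  decide +kernel

end Pool.Agent.Lib_MP_fa6e45
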