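import Pool.Agent.Lib_MP_fa6e45.HK

/-!
MP_fa6e45_co, stage 4: certificates (captain, generated by a program).
-/

namespace Pool.Agent.Lib_MP_fa6e45

/-- equations of the nodes for the classes `0 0 0 1 2`, active pairs `` -/
noncomputable def hD5_4 : List (List (List Eqn)) :=
  [[[([z4,z0,z0,z0,z0],z3),([z0,z2,z0,z0,z0],z1),([z0,z0,z2,z0,z0],z1),([z0,z0,z0,z4,z0],z3)],[([z3,z0,z0,z0,z0],z2),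
    ([z0,z3,z0,z0,z0],z2),([z0,z0,z3,z0,z0],z2),([z0,z0,z0,z3,z0],z2)],[([z2,z0,z0,z0,y1],z1),([z0,z1,z0,z0,z1],z1),
    ([z0,z0,z1,z0,z1],z1)],[([z4,z0,z0,z0,z0],z3),([z0,z2,z0,z0,z0],z1),([z0,z0,z2,z0,z0],z1)],[([z3,z0,z0,z0,z0],z2),
    ([z0,z3,z0,z0,z0],z2),([z0,z0,z3,z0,z0],z2)],[([z1,z0,z0,y3,z1],y1),([z0,z1,z0,z2,z0],z2)],[([z1,z0,z0,z1,z1],z2),
    ([z0,z1,z0,z2,z0],z2)],[([z1,z0,z0,z0,z1],z1),([z0,z1,z0,z2,z0],z2)],[([z2,z0,z0,z2,z0],z3),([z0,z1,z0,z2,z0],z2),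
    ([z0,z0,z1,y2,z0],y1)],[([z3,z0,z0,z0,z0],z2),([z0,z3,z0,z0,z0],z1),([z0,z0,z3,z0,z0],z2),([z0,z0,z0,z6,z0],z5)],
    [([z3,z0,z0,z0,y3],z1),([z0,z3,z0,z0,z0],z2),([z0,z0,z3,z0,z6],z4)],[([z1,z0,z0,z0,y2],z0),([z0,z1,z0,z0,y2],z0),
    ([z0,z0,z1,z0,z4],z2)]],
    [[([z1,z0,z0,z1,y1],z1),([z0,z1,z0,z2,z0],z2)],[([z2,z0,z1,z0,z0],z2)],[([z1,z0,z0,z1,z1],z2)],[([z1,z0,z0,z0,z1],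
    z1)],[([z2,z0,z0,z0,z0],z1),([z0,z1,z1,z1,z0],z2)],[([z2,z0,z0,z2,z0],z3),([z0,z1,z0,y2,z0],y1),([z0,z0,z1,z2,z0],
    z2)],[([z1,z0,y1,z0,z0],z0),([z0,z1,z2,z0,z0],z2),([z0,z0,z0,z2,z0],z1)],[([z1,z0,z0,y1,z0],z0),([z0,z2,z0,z0,z0],
    z1),([z0,z0,z1,z2,z0],z2)],[([z2,z0,y2,y2,z0],y1),([z0,z1,z2,z2,z0],z3)],[([z2,z0,z0,z0,z0],z1),([z0,z3,z0,z0,z0],
    z2),([z0,z0,z3,z0,z0],z2),([z0,z0,z0,z3,z0],z2)],[([z2,z0,z0,y6,z0],y3),([z0,z1,z0,z2,z0],z2),([z0,z0,z1,z2,z0],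
    z2)],[([z2,z0,z0,z0,z0],z1),([z0,z1,z0,z2,z0],z2),([z0,z0,z1,y1,z0],z0)]],
    [[([z2,z0,z1,z0,z0],z2),([z0,z2,z1,z2,z0],z3)],[([z2,z0,z0,z2,z0],z3),([z0,z1,z1,z0,z0],z1)],[([z2,z2,z2,z2,z0],
    z5)],[]]]

/-- symmetries -/
noncomputable def hS5_4 : List (Bool × ℕ × List ℕ) :=
  [(false,k0,[k0,k1,k2,k3,k4]),(true,k3,[k3,k2,k1,k0,k4])]

/-- nodes 0 to 11 -/
noncomputable def hN5_4_0 : List HM :=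
  [.base (.leafM k0 [k1,k2,k3,k4,k0] [(z2,[z0,z1,z1])] []),
    .base (.leafM k0 [k3,k4,k0,k1,k2] [(z3,[y1,y1,y1,z0,z3])] []),
    .lp k0 [k90,k60,k80,k80,k48] [k0,k0,k15,k15,k5,k5,k5,k5,k21,k21] k0 [[k0,k0,k0,k0,k0,k20,k0,k0,k0,k0],[k0,k0,k0,
    k0,k0,k0,k0,k0,k0,k0],[k0,k0,k0,k0,k0,k0,k0,k0,k0,k0],[k0,k0,k0,k0,k0,k0,k0,k0,k0,k0],[k0,k20,k0,k0,k0,k0,k0,k0,
    k0,k0],[k0,k0,k0,k0,k0,k0,k0,k0,k0,k0],[k0,k0,k0,k0,k0,k0,k0,k0,k0,k0],[k0,k0,k0,k0,k0,k0,k0,k0,k0,k0],[k0,k0,k0,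
    k0,k0,k0,k0,k0,k0,k0],[k0,k0,k0,k0,k0,k0,k0,k0,k0,k0]] (nat_lit 240) k6
    [[(k8,k69),(k1,k90)],[(k4,k65),(k2,k75),(k3,k75),(k5,k85),(k7,k85),(k0,k90)],[(k2,k60),(k3,k60),(k4,k70),(k5,k70),
    (k0,k75),(k7,k90)],[(k2,k60),(k3,k60),(k4,k70),(k5,k70),(k7,k70),(k0,k75)],[(k2,k70),(k3,k70),(k4,k80),(k5,k80),
    (k7,k80),(k0,k85)],[(k0,k65),(k2,k70),(k3,k70),(k4,k80),(k5,k80),(k7,k80)],[(k2,k70),(k4,k80),(k5,k80),(k7,k80),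
    (k0,k85),(k3,k90)],[(k9,k64),(k6,k80)],[(k9,k48),(k6,k64)],[(k8,k48),(k1,k69)]]
    [[k1,k0,k0,k1,k1],[k0,k3,k0,k0,k0],[k0,k2,k1,k0,k0],[k0,k1,k2,k0,k0],[k0,k0,k0,k0,k4]]
    [.ref k0 k0 [(z1,[z1,z2,z1,z1,y1]),(z1,[y1,z0,z1,y1,z1]),(z1,[y1,z0,y1,z1,z1]),(z1,[z1,y2,y3,y3,z3])],
    .ref k1 k0 [(z2,[y1,z3,z3]),(z1,[z1]),(z1,[z1,z0,y3,z3]),(z2,[y1,y3,y3,y6,z6])],.ref k1 k0 [(z2,[y1,z3,z2,z1]),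
    (z1,[z1,z0,z1,y1]),(z1,[z1,z0,y2,z2]),(z2,[y1,y3,y4,y5,z6])],.ref k1 k0 [(z2,[y1,z3,z1,z2]),(z1,[z1,z0,z2,y2]),
    (z1,[z1,z0,y1,z1]),(z2,[y1,y3,y5,y4,z6])],.ref k0 k0 [(z2,[z1,z4]),(z2,[y1,z0,z4]),(z2,[y1,z0,z0,z4]),(z2,[z1,y4,
    y8,y8,z8])]],
    .base (.leafM k0 [k1,k2,k3,k4,k0] [(z2,[z0,z1,z1])] []),
    .base (.leafM k0 [k3,k4,k0,k1,k2] [(z3,[y1,y1,y1,z3])] []),
    .lp k0 [k166,(nat_lit 244),(nat_lit 240),(nat_lit 238),k180] [k46,k32,k0,k0,k2,k2,k3,k3,k32,k32] k0 [[k0,k0,k16,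
    k0,k0,k0,k0,k0,k0,k0],[k28,k0,k0,k0,k0,k0,k0,k0,k0,k0],[k0,k0,k0,k0,k0,k4,k0,k0,k0,k0],[k0,k16,k0,k0,k0,k0,k0,k0,
    k0,k0],[k0,k0,k0,k4,k0,k0,k0,k0,k0,k0],[k0,k0,k0,k0,k0,k0,k0,k0,k0,k0],[k0,k0,k0,k0,k0,k0,k0,k0,k0,k0],[k0,k0,k0,
    k0,k0,k0,k0,k0,k0,k0],[k0,k0,k0,k0,k0,k0,k0,k0,k0,k0],[k0,k0,k0,k0,k0,k0,k0,k0,k0,k0]] (nat_lit 720) k5
    [[(k1,k180),(k8,k180)],[(k0,k180),(k5,k180),(k7,k195),(k4,k196),(k2,k198),(k3,k198)],[(k0,k198),(k3,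
    (nat_lit 216)),(k7,(nat_lit 241)),(k4,(nat_lit 242)),(k5,(nat_lit 242)),(k2,(nat_lit 260))],[(k0,k198),(k4,
    (nat_lit 238)),(k7,(nat_lit 241)),(k5,(nat_lit 242)),(k2,(nat_lit 244)),(k3,(nat_lit 260))],[(k0,k180),(k4,
    (nat_lit 240)),(k5,(nat_lit 240)),(k2,(nat_lit 242)),(k3,(nat_lit 242)),(k7,(nat_lit 243))],[(k0,k196),(k2,
    (nat_lit 238)),(k7,(nat_lit 239)),(k4,(nat_lit 240)),(k5,(nat_lit 240)),(k3,(nat_lit 242))],[(k0,k195),(k7,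
    (nat_lit 238)),(k4,(nat_lit 239)),(k2,(nat_lit 241)),(k3,(nat_lit 241)),(k5,(nat_lit 243))],[(k9,(nat_lit 209)),
    (k6,(nat_lit 238))],[(k9,k180),(k6,(nat_lit 209))],[(k1,k180),(k8,k180)]]
    [[k2,k1,k0,k0,k0],[k2,k0,k1,k0,k0],[k1,k0,k0,k1,k1],[k0,k2,k1,k0,k0]]
    [.ref k2 k0 [(z2,[z3,y2,y3]),(z2,[y1,z2,z3]),(z2,[y1,z0,y1,z2])],.ref k2 k0 [(z2,[z3,z1,z3,y3]),(z2,[y1,z1,z1,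
    z1]),(z2,[y1,y1,y3,z3])],.ref k3 k1 [(z1,[z1,y1]),(z1,[y1,y1,y2,z2]),(z1,[y1,z1,z2])],.ref k4 k1 [(z2,[y1,y1,z1,
    z1]),(z1,[z1,y2,y4,z2]),(z1,[z1,z1,z2,y1])]],
    .base (.leafM k0 [k1,k2,k3,k4,k0] [(z1,[y1,z0,z1])] []),
    .base (.leafM k0 [k4,k0,k1,k2,k3] [(z1,[z1])] []),
    .base (.leafM k0 [k1,k2,k3,k4,k0] [(z1,[z0,z1,z1])] []),
    .base (.leafM k0 [k0,k1,k2,k3,k4] [(z3,[z1,z1])] []),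
    .lp k0 [k126,k160,k192,k144,k96] [k33,k33,k16,k16,k0,k0,k24,k24,k48,k48] k0 [[k0,k0,k0,k4,k4,k0,k0,k0,k0,k0],[k0,
    k0,k0,k0,k36,k0,k0,k0,k0,k0],[k0,k4,k0,k0,k0,k0,k0,k0,k0,k0],[k0,k0,k0,k0,k0,k68,k0,k0,k0,k0],[k0,k0,k68,k0,k0,k0,
    k0,k0,k0,k0],[k36,k4,k0,k0,k0,k0,k0,k0,k0,k0],[k0,k0,k0,k0,k0,k0,k0,k0,k0,k0],[k0,k0,k0,k0,k0,k0,k0,k0,k0,k0],[k0,
    k0,k0,k0,k0,k0,k0,k0,k0,k0],[k0,k0,k0,k0,k0,k0,k0,k0,k0,k0]] (nat_lit 480) k6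
    [[(k8,k111),(k1,k126)],[(k0,k126),(k7,k131),(k2,k139),(k3,k143),(k5,k159),(k4,k195)],[(k7,k116),(k0,k143),(k2,
    k160),(k3,k160),(k4,k180),(k5,k180)],[(k0,k139),(k2,k160),(k3,k160),(k4,k176),(k5,k176),(k7,(nat_lit 220))],[(k4,
    k124),(k0,k159),(k7,k168),(k2,k176),(k3,k180),(k5,k192)],[(k5,k124),(k7,k168),(k2,k176),(k3,k180),(k4,k192),(k0,
    k195)],[(k3,k116),(k0,k131),(k7,k144),(k4,k168),(k5,k168),(k2,(nat_lit 220))],[(k9,k120),(k6,k144)],[(k9,k96),(k6,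
    k120)],[(k8,k96),(k1,k111)]]
    [[k2,k1,k0,k0,k0],[k1,k0,k0,k1,k1],[k2,k0,k0,k0,k2],[k0,k0,k3,k0,k0],[k0,k0,k0,k0,k4]]
    [.ref k1 k0 [(z2,[z3,z0,y1]),(z1,[z0,z0,z1]),(z1,[y3,z2,z1,z1]),(z1,[z0,y1,y1,y1,z3])],.ref k9 k1 [(z1,[z0,y1,y1,
    y1,z3]),(z1,[y3,z0,y1,z0,z3]),(z1,[z0,z0,z1]),(z1,[z3,z2,z1,z1,y3])],.ref k1 k0 [(z4,[z3,z2]),(z1,[z0,z0,z1]),(z2,
    [y3,z2,z0,z2]),(z1,[z0,y1,y1,y1,z3])],.ref k1 k0 [(z2,[y1,z2,z0,z1]),(z1,[z0,z0,z1]),(z1,[z1]),(z1,[z0,y1,y1,y1,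
    z3])],.ref k9 k1 [(z1,[z0,y1,y1,y1,z3]),(z2,[y3,z0,z0,z2]),(z1,[z0,z0,z1]),(z2,[z3,z4])]],
    .base (.leafM k0 [k3,k4,k0,k1,k2] [(z1,[y1,y1,y1,z1])] [])]

theorem hB5_4_0 : blkB [0, 0, 0, 1, 2] [] sp5 hS5_4 (pcls (n := 5) [0, 0, 0, 1, 2]) hD5_4 28 0 hN5_4_0 = true := by
  decide +kernel

/-- nodes 12 to 23 -/
noncomputable def hN5_4_1 : List HM :=
  [.lp k0 [k90,k60,k80,k80,k48] [k0,k0,k15,k15,k5,k5,k5,k5,k21,k21] k0 [[k0,k0,k0,k0,k0,k20,k0,k0,k0,k0],[k0,k0,k0,k0,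
    k0,k0,k0,k0,k0,k0],[k0,k0,k0,k0,k0,k0,k0,k0,k0,k0],[k0,k0,k0,k0,k0,k0,k0,k0,k0,k0],[k0,k20,k0,k0,k0,k0,k0,k0,k0,
    k0],[k0,k0,k0,k0,k0,k0,k0,k0,k0,k0],[k0,k0,k0,k0,k0,k0,k0,k0,k0,k0],[k0,k0,k0,k0,k0,k0,k0,k0,k0,k0],[k0,k0,k0,k0,
    k0,k0,k0,k0,k0,k0],[k0,k0,k0,k0,k0,k0,k0,k0,k0,k0]] (nat_lit 240) k6
    [[(k8,k69),(k1,k90)],[(k4,k65),(k2,k75),(k3,k75),(k5,k85),(k7,k85),(k0,k90)],[(k2,k60),(k3,k60),(k4,k70),(k5,k70),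
    (k0,k75),(k7,k90)],[(k2,k60),(k3,k60),(k4,k70),(k5,k70),(k7,k70),(k0,k75)],[(k2,k70),(k3,k70),(k4,k80),(k5,k80),
    (k7,k80),(k0,k85)],[(k0,k65),(k2,k70),(k3,k70),(k4,k80),(k5,k80),(k7,k80)],[(k2,k70),(k4,k80),(k5,k80),(k7,k80),
    (k0,k85),(k3,k90)],[(k9,k64),(k6,k80)],[(k9,k48),(k6,k64)],[(k8,k48),(k1,k69)]]
    [[k1,k0,k0,k1,k1],[k0,k3,k0,k0,k0],[k0,k2,k1,k0,k0],[k0,k1,k2,k0,k0],[k0,k0,k0,k0,k4]]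
    [.ref k8 k0 [(z1,[z1,z1]),(z1,[z0,z0,z1]),(z1,[y1,z0,y1,z1])],.ref k10 k0 [(z2,[z1,z6,y3]),(z1,[z1]),(z1,[y1,y3,
    z0,z3])],.ref k11 k0 [(z2,[z1,z3,y1,y1]),(z1,[z1,z1,z0,y1]),(z1,[y1,y2,z0,z2])],.ref k11 k1 [(z2,[z1,z2,z1,y2]),
    (z1,[z1,z1,z0,y1]),(z1,[y1,y2,z0,z2])],.ref k8 k0 [(z2,[z1,z4]),(z1,[z0,z0,z1]),(z2,[y1,y2,y2,z2])]],
    .lp k0 [(nat_lit 10608696),(nat_lit 13118280),(nat_lit 15304660),(nat_lit 9838710),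
    (nat_lit 9838710)] [(nat_lit 3552722),(nat_lit 3552722),(nat_lit 3502670),(nat_lit 1093190),k0,(nat_lit 2409480),
    (nat_lit 3937715),(nat_lit 3937715),(nat_lit 3937715),(nat_lit 3937715)] k0 [[k0,k0,k0,k0,k0,k0,k0,k0,k0,k0],[k0,
    k0,k0,k0,(nat_lit 2840040),k0,k0,k0,k0,k0],[k0,k0,k0,k0,k0,(nat_lit 4372760),k0,k0,k0,k0],[k0,k0,k0,k0,k0,k0,k0,
    k0,k0,k0],[k0,k0,k0,(nat_lit 4372760),k0,k0,k0,k0,k0,k0],[(nat_lit 2840040),k0,k0,k0,k0,k0,k0,k0,k0,k0],[k0,k0,k0,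
    k0,k0,k0,k0,k0,k0,k0],[k0,k0,k0,k0,k0,k0,k0,k0,k0,k0],[k0,k0,k0,k0,k0,k0,k0,k0,k0,k0],[k0,k0,k0,k0,k0,k0,k0,k0,k0,
    k0]] (nat_lit 39354840) k5
    [[(k8,(nat_lit 10223703)),(k1,(nat_lit 10608696))],[(k7,(nat_lit 10223703)),(k0,(nat_lit 10608696)),(k2,
    (nat_lit 10658748)),(k5,(nat_lit 11751938)),(k3,(nat_lit 13068228)),(k4,(nat_lit 17001458))],[(k7,
    (nat_lit 9843195)),(k0,(nat_lit 13068228)),(k2,(nat_lit 13118280)),(k5,(nat_lit 14211470)),(k3,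
    (nat_lit 15527760)),(k4,(nat_lit 16620950))],[(k4,(nat_lit 9838710)),(k7,(nat_lit 10273755)),(k0,
    (nat_lit 10658748)),(k2,(nat_lit 10708800)),(k5,(nat_lit 11801990)),(k3,(nat_lit 13118280))],[(k0,
    (nat_lit 11751938)),(k2,(nat_lit 11801990)),(k5,(nat_lit 12895180)),(k3,(nat_lit 14211470)),(k4,
    (nat_lit 15304660)),(k7,(nat_lit 15739705))],[(k2,(nat_lit 9838710)),(k7,(nat_lit 13776425)),(k5,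
    (nat_lit 15304660)),(k3,(nat_lit 16620950)),(k0,(nat_lit 17001458)),(k4,(nat_lit 17714140))],[(k7,
    (nat_lit 9838710)),(k3,(nat_lit 9843195)),(k0,(nat_lit 10223703)),(k2,(nat_lit 10273755)),(k4,(nat_lit 13776425)),
    (k5,(nat_lit 15739705))],[(k6,(nat_lit 9838710)),(k9,(nat_lit 9838710))],[(k6,(nat_lit 9838710)),(k9,
    (nat_lit 9838710))],[(k8,(nat_lit 9838710)),(k1,(nat_lit 10223703))]]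
    [[k2,k1,k0,k0,k0],[k1,k0,k0,k1,k1],[k0,k2,k1,k0,k0],[k0,k1,k0,k2,k0]]
    [.ref k5 k1 [(z1,[y1,y1,z1]),(z1,[z0,z1])],.ref k6 k1 [(z1,[z1]),(z1,[z0,z1])],.ref k7 k1 [(z2,[y1,y1,z2]),(z1,
    [z0,z1])],.ref k12 k0 [(z1,[z1,z1,y1]),(z1,[z1])]],
    .base (.leafM k0 [k1,k2,k3,k4,k0] [(z1,[y1,z1])] []),
    .base (.leafM k0 [k4,k0,k1,k2,k3] [(z1,[z1])] []),
    .base (.leafM k0 [k4,k0,k1,k2,k3] [(z1,[z0,y1,z1])] []),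
    .base (.leafM k0 [k1,k2,k3,k4,k0] [(z1,[z0,z1,z1])] []),
    .base (.leafM k0 [k3,k4,k0,k1,k2] [(z1,[y1,y1,z0,z1])] []),
    .lp k0 [(nat_lit 10608696),(nat_lit 13118280),(nat_lit 15304660),(nat_lit 9838710),
    (nat_lit 9838710)] [(nat_lit 3552722),(nat_lit 3552722),(nat_lit 3502670),(nat_lit 1093190),k0,(nat_lit 2409480),
    (nat_lit 3937715),(nat_lit 3937715),(nat_lit 3937715),(nat_lit 3937715)] k0 [[k0,k0,k0,k0,k0,k0,k0,k0,k0,k0],[k0,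
    k0,k0,k0,(nat_lit 2840040),k0,k0,k0,k0,k0],[k0,k0,k0,k0,k0,(nat_lit 4372760),k0,k0,k0,k0],[k0,k0,k0,k0,k0,k0,k0,
    k0,k0,k0],[k0,k0,k0,(nat_lit 4372760),k0,k0,k0,k0,k0,k0],[(nat_lit 2840040),k0,k0,k0,k0,k0,k0,k0,k0,k0],[k0,k0,k0,
    k0,k0,k0,k0,k0,k0,k0],[k0,k0,k0,k0,k0,k0,k0,k0,k0,k0],[k0,k0,k0,k0,k0,k0,k0,k0,k0,k0],[k0,k0,k0,k0,k0,k0,k0,k0,k0,
    k0]] (nat_lit 39354840) k5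
    [[(k8,(nat_lit 10223703)),(k1,(nat_lit 10608696))],[(k7,(nat_lit 10223703)),(k0,(nat_lit 10608696)),(k2,
    (nat_lit 10658748)),(k5,(nat_lit 11751938)),(k3,(nat_lit 13068228)),(k4,(nat_lit 17001458))],[(k7,
    (nat_lit 9843195)),(k0,(nat_lit 13068228)),(k2,(nat_lit 13118280)),(k5,(nat_lit 14211470)),(k3,
    (nat_lit 15527760)),(k4,(nat_lit 16620950))],[(k4,(nat_lit 9838710)),(k7,(nat_lit 10273755)),(k0,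
    (nat_lit 10658748)),(k2,(nat_lit 10708800)),(k5,(nat_lit 11801990)),(k3,(nat_lit 13118280))],[(k0,
    (nat_lit 11751938)),(k2,(nat_lit 11801990)),(k5,(nat_lit 12895180)),(k3,(nat_lit 14211470)),(k4,
    (nat_lit 15304660)),(k7,(nat_lit 15739705))],[(k2,(nat_lit 9838710)),(k7,(nat_lit 13776425)),(k5,
    (nat_lit 15304660)),(k3,(nat_lit 16620950)),(k0,(nat_lit 17001458)),(k4,(nat_lit 17714140))],[(k7,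
    (nat_lit 9838710)),(k3,(nat_lit 9843195)),(k0,(nat_lit 10223703)),(k2,(nat_lit 10273755)),(k4,(nat_lit 13776425)),
    (k5,(nat_lit 15739705))],[(k6,(nat_lit 9838710)),(k9,(nat_lit 9838710))],[(k6,(nat_lit 9838710)),(k9,
    (nat_lit 9838710))],[(k8,(nat_lit 9838710)),(k1,(nat_lit 10223703))]]
    [[k2,k1,k0,k0,k0],[k1,k0,k0,k1,k1],[k0,k2,k1,k0,k0],[k0,k1,k0,k2,k0]]
    [.ref k0 k0 [(z1,[z2,z0,y1]),(z1,[z0,z0,z1]),(z1,[y2,z4,z1,z2]),(z1,[z2,y4,y1])],.ref k0 k0 [(z1,[z2,z4,z1,z2,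
    y2]),(z1,[z0,z0,z1]),(z1,[y2,z0,y1,z0,z2]),(z1,[z2,z0,z1,z2,y2])],.contra [z1,z0,y1],.ref k0 k0 [(z1,[z2,z4,y1]),
    (z1,[z0,z0,z1]),(z1,[y2,z0,z1,z2]),(z1,[z2,z0,y1])]],
    .lp k0 [(nat_lit 238),(nat_lit 240),(nat_lit 244),k166,k180] [k3,k3,k2,k2,k0,k0,k32,k46,k32,k32] k0 [[k0,k0,k0,k0,
    k0,k0,k0,k0,k0,k0],[k0,k0,k4,k0,k0,k0,k0,k0,k0,k0],[k0,k0,k0,k0,k16,k0,k0,k0,k0,k0],[k4,k0,k0,k0,k0,k0,k0,k0,k0,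
    k0],[k0,k0,k0,k0,k0,k28,k0,k0,k0,k0],[k0,k0,k0,k16,k0,k0,k0,k0,k0,k0],[k0,k0,k0,k0,k0,k0,k0,k0,k0,k0],[k0,k0,k0,
    k0,k0,k0,k0,k0,k0,k0],[k0,k0,k0,k0,k0,k0,k0,k0,k0,k0],[k0,k0,k0,k0,k0,k0,k0,k0,k0,k0]] (nat_lit 720) k5
    [[(k8,(nat_lit 209)),(k1,(nat_lit 238))],[(k7,k195),(k0,(nat_lit 238)),(k3,(nat_lit 239)),(k4,(nat_lit 241)),(k5,
    (nat_lit 241)),(k2,(nat_lit 243))],[(k7,k196),(k5,(nat_lit 238)),(k0,(nat_lit 239)),(k2,(nat_lit 240)),(k3,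
    (nat_lit 240)),(k4,(nat_lit 242))],[(k7,k180),(k2,(nat_lit 240)),(k3,(nat_lit 240)),(k4,(nat_lit 242)),(k5,
    (nat_lit 242)),(k0,(nat_lit 243))],[(k7,k198),(k3,(nat_lit 238)),(k0,(nat_lit 241)),(k2,(nat_lit 242)),(k5,
    (nat_lit 244)),(k4,(nat_lit 260))],[(k7,k198),(k4,(nat_lit 216)),(k0,(nat_lit 241)),(k2,(nat_lit 242)),(k3,
    (nat_lit 242)),(k5,(nat_lit 260))],[(k2,k180),(k7,k180),(k0,k195),(k3,k196),(k4,k198),(k5,k198)],[(k6,k180),(k9,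
    k180)],[(k6,k180),(k9,k180)],[(k8,k180),(k1,(nat_lit 209))]]
    [[k1,k0,k0,k1,k1],[k0,k1,k2,k0,k0],[k0,k1,k0,k2,k0],[k0,k0,k1,k2,k0]]
    [.ref k17 k0 [(z1,[z2,z1,z2,y2]),(z1,[y2,z0,y1,z2]),(z1,[z1,z0,z1,y1])],.ref k18 k0 [(z2,[y1,z1,z1]),(z1,[z1]),
    (z1,[y1,z0,z1])],.ref k19 k1 [(z2,[z1,y1,y1]),(z1,[y1,z0,z1]),(z1,[z0,z1,z1])],.ref k17 k0 [(z1,[z2,z1]),(z1,[y2,
    z0,z1]),(z1,[z1])]],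
    .base (.leafM k0 [k4,k0,k1,k2,k3] [(z3,[z0,y1,y1,y1,z3])] []),
    .lp k0 [k166,(nat_lit 244),(nat_lit 240),(nat_lit 238),k180] [k46,k32,k0,k0,k2,k2,k3,k3,k32,k32] k0 [[k0,k0,k16,
    k0,k0,k0,k0,k0,k0,k0],[k28,k0,k0,k0,k0,k0,k0,k0,k0,k0],[k0,k0,k0,k0,k0,k4,k0,k0,k0,k0],[k0,k16,k0,k0,k0,k0,k0,k0,
    k0,k0],[k0,k0,k0,k4,k0,k0,k0,k0,k0,k0],[k0,k0,k0,k0,k0,k0,k0,k0,k0,k0],[k0,k0,k0,k0,k0,k0,k0,k0,k0,k0],[k0,k0,k0,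
    k0,k0,k0,k0,k0,k0,k0],[k0,k0,k0,k0,k0,k0,k0,k0,k0,k0],[k0,k0,k0,k0,k0,k0,k0,k0,k0,k0]] (nat_lit 720) k5
    [[(k1,k180),(k8,k180)],[(k0,k180),(k5,k180),(k7,k195),(k4,k196),(k2,k198),(k3,k198)],[(k0,k198),(k3,
    (nat_lit 216)),(k7,(nat_lit 241)),(k4,(nat_lit 242)),(k5,(nat_lit 242)),(k2,(nat_lit 260))],[(k0,k198),(k4,
    (nat_lit 238)),(k7,(nat_lit 241)),(k5,(nat_lit 242)),(k2,(nat_lit 244)),(k3,(nat_lit 260))],[(k0,k180),(k4,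
    (nat_lit 240)),(k5,(nat_lit 240)),(k2,(nat_lit 242)),(k3,(nat_lit 242)),(k7,(nat_lit 243))],[(k0,k196),(k2,
    (nat_lit 238)),(k7,(nat_lit 239)),(k4,(nat_lit 240)),(k5,(nat_lit 240)),(k3,(nat_lit 242))],[(k0,k195),(k7,
    (nat_lit 238)),(k4,(nat_lit 239)),(k2,(nat_lit 241)),(k3,(nat_lit 241)),(k5,(nat_lit 243))],[(k9,(nat_lit 209)),
    (k6,(nat_lit 238))],[(k9,k180),(k6,(nat_lit 209))],[(k1,k180),(k8,k180)]]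
    [[k2,k1,k0,k0,k0],[k2,k0,k1,k0,k0],[k1,k0,k0,k1,k1],[k0,k2,k1,k0,k0]]
    [.ref k0 k0 [(z1,[z3,y1,y3]),(z1,[y1,z1,z3]),(z1,[y1,z1,z1,z2]),(z1,[z1,y1,y1])],.ref k0 k0 [(z1,[z3,y1,z0,y3]),
    (z1,[y1,z1,z2,z1]),(z1,[y1,z1,z0,z3]),(z1,[z1,y1,z0,y1])],.ref k0 k0 [(z1,[z3,z2,z3,z3,y3]),(z1,[y1,z0,z1,y1,z1]),
    (z1,[y1,z0,y1,z1,z1]),(z1,[z1,z0,z1,z1,y1])],.ref k21 k0 [(z1,[y1,z1,z2,z1]),(z1,[z1,z0,z1,y1]),(z1,[z1,z0,y2,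
    z2]),(z2,[y1,z0,z2,z1])]],
    .base (.leafM k0 [k4,k0,k1,k2,k3] [(z1,[z0,y1,y1,z1])] [])]

theorem hB5_4_1 : blkB [0, 0, 0, 1, 2] [] sp5 hS5_4 (pcls (n := 5) [0, 0, 0, 1, 2]) hD5_4 28 1 hN5_4_1 = true := by
  decide +kernel

/-- nodes 24 to 27 -/
noncomputable def hN5_4_2 : List HM :=
  [.lp k0 [(nat_lit 10608696),(nat_lit 13118280),(nat_lit 15304660),(nat_lit 9838710),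
    (nat_lit 9838710)] [(nat_lit 3552722),(nat_lit 3552722),(nat_lit 3502670),(nat_lit 1093190),k0,(nat_lit 2409480),
    (nat_lit 3937715),(nat_lit 3937715),(nat_lit 3937715),(nat_lit 3937715)] k0 [[k0,k0,k0,k0,k0,k0,k0,k0,k0,k0],[k0,
    k0,k0,k0,(nat_lit 2840040),k0,k0,k0,k0,k0],[k0,k0,k0,k0,k0,(nat_lit 4372760),k0,k0,k0,k0],[k0,k0,k0,k0,k0,k0,k0,
    k0,k0,k0],[k0,k0,k0,(nat_lit 4372760),k0,k0,k0,k0,k0,k0],[(nat_lit 2840040),k0,k0,k0,k0,k0,k0,k0,k0,k0],[k0,k0,k0,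
    k0,k0,k0,k0,k0,k0,k0],[k0,k0,k0,k0,k0,k0,k0,k0,k0,k0],[k0,k0,k0,k0,k0,k0,k0,k0,k0,k0],[k0,k0,k0,k0,k0,k0,k0,k0,k0,
    k0]] (nat_lit 39354840) k5
    [[(k8,(nat_lit 10223703)),(k1,(nat_lit 10608696))],[(k7,(nat_lit 10223703)),(k0,(nat_lit 10608696)),(k2,
    (nat_lit 10658748)),(k5,(nat_lit 11751938)),(k3,(nat_lit 13068228)),(k4,(nat_lit 17001458))],[(k7,
    (nat_lit 9843195)),(k0,(nat_lit 13068228)),(k2,(nat_lit 13118280)),(k5,(nat_lit 14211470)),(k3,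
    (nat_lit 15527760)),(k4,(nat_lit 16620950))],[(k4,(nat_lit 9838710)),(k7,(nat_lit 10273755)),(k0,
    (nat_lit 10658748)),(k2,(nat_lit 10708800)),(k5,(nat_lit 11801990)),(k3,(nat_lit 13118280))],[(k0,
    (nat_lit 11751938)),(k2,(nat_lit 11801990)),(k5,(nat_lit 12895180)),(k3,(nat_lit 14211470)),(k4,
    (nat_lit 15304660)),(k7,(nat_lit 15739705))],[(k2,(nat_lit 9838710)),(k7,(nat_lit 13776425)),(k5,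
    (nat_lit 15304660)),(k3,(nat_lit 16620950)),(k0,(nat_lit 17001458)),(k4,(nat_lit 17714140))],[(k7,
    (nat_lit 9838710)),(k3,(nat_lit 9843195)),(k0,(nat_lit 10223703)),(k2,(nat_lit 10273755)),(k4,(nat_lit 13776425)),
    (k5,(nat_lit 15739705))],[(k6,(nat_lit 9838710)),(k9,(nat_lit 9838710))],[(k6,(nat_lit 9838710)),(k9,
    (nat_lit 9838710))],[(k8,(nat_lit 9838710)),(k1,(nat_lit 10223703))]]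
    [[k2,k1,k0,k0,k0],[k1,k0,k0,k1,k1],[k0,k2,k1,k0,k0],[k0,k1,k0,k2,k0]]
    [.ref k22 k1 [(z1,[y2,y1,z1]),(z1,[z0,z1]),(z1,[z1])],.ref k8 k0 [(z1,[z2,z1,z1,y2]),(z1,[z1,z0,z1,y1]),(z1,[y2,
    z0,y1,z2])],.ref k23 k1 [(z1,[y1,z0,z1]),(z1,[z0,z1]),(z2,[z1,y1])],.ref k8 k0 [(z1,[z2,z1,y1]),(z1,[z1]),(z1,[y2,
    z0,z1])]],
    .base (.leafM k0 [k1,k2,k3,k4,k0] [(z1,[z0,z1])] []),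
    .lp k0 [k24,k40,k40,k40,k30] [k8,k8,k0,k0,k0,k0,k0,k0,k5,k5] k0 [[k0,k0,k0,k0,k0,k0,k0,k0,k0,k0],[k0,k0,k0,k0,k0,
    k0,k0,k0,k0,k0],[k0,k0,k0,k0,k0,k0,k0,k0,k0,k0],[k0,k0,k0,k0,k0,k0,k0,k0,k0,k0],[k0,k0,k0,k0,k0,k0,k0,k0,k0,k0],
    [k0,k0,k0,k0,k0,k0,k0,k0,k0,k0],[k0,k0,k0,k0,k0,k0,k0,k0,k0,k0],[k0,k0,k0,k0,k0,k0,k0,k0,k0,k0],[k0,k0,k0,k0,k0,
    k0,k0,k0,k0,k0],[k0,k0,k0,k0,k0,k0,k0,k0,k0,k0]] k120 k6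
    [[(k1,k24),(k8,k27)],[(k0,k24),(k2,k32),(k3,k32),(k4,k32),(k5,k32),(k7,k32)],[(k0,k32),(k2,k40),(k3,k40),(k4,k40),
    (k5,k40),(k7,k40)],[(k0,k32),(k2,k40),(k3,k40),(k4,k40),(k5,k40),(k7,k40)],[(k0,k32),(k2,k40),(k3,k40),(k4,k40),
    (k5,k40),(k7,k40)],[(k0,k32),(k2,k40),(k3,k40),(k4,k40),(k5,k40),(k7,k40)],[(k0,k32),(k2,k40),(k3,k40),(k4,k40),
    (k5,k40),(k7,k40)],[(k9,k35),(k6,k40)],[(k9,k30),(k6,k35)],[(k1,k27),(k8,k30)]]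
    [[k4,k0,k0,k0,k0],[k2,k1,k0,k0,k0],[k2,k0,k1,k0,k0],[k1,k0,k0,k1,k1],[k2,k0,k0,k0,k2]]
    [.ref k16 k0 [(z2,[z1]),(z4,[y1,z2])],.ref k20 k0 [(z1,[z2,y1]),(z1,[y1,z1])],.ref k24 k0 [(z1,[z1]),(z1,[y1,
    z1])],.ref k25 k0 [(z1,[z2,z1,y2]),(z1,[y1,z0,z1])],.ref k16 k0 [(z1,[z1,z1,y2]),(z2,[y1,z0,z2])]],
    .lp k0 [k60,k90,k90,k68,k48] [k17,k17,k2,k2,k0,k4,k13,k13,k23,k23] k0 [[k0,k0,k14,k0,k0,k28,k0,k0,k0,k0],[k0,k0,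
    k30,k0,k0,k0,k0,k0,k0,k0],[k0,k0,k0,k0,k14,k14,k0,k0,k0,k0],[k30,k14,k0,k0,k0,k0,k0,k0,k0,k0],[k0,k28,k0,k14,k0,
    k0,k0,k0,k0,k0],[k0,k0,k0,k14,k0,k0,k0,k0,k0,k0],[k0,k0,k0,k0,k0,k0,k0,k0,k0,k0],[k0,k0,k0,k0,k0,k0,k0,k0,k0,k0],
    [k0,k0,k0,k0,k0,k0,k0,k0,k0,k0],[k0,k0,k0,k0,k0,k0,k0,k0,k0,k0]] (nat_lit 240) k6
    [[(k8,k54),(k1,k60)],[(k4,k49),(k5,k59),(k0,k60),(k7,k64),(k3,k75),(k2,k105)],[(k5,k58),(k0,k75),(k3,k90),(k4,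
    k92),(k2,k104),(k7,k107)],[(k7,k65),(k4,k78),(k5,k88),(k2,k90),(k3,k104),(k0,k105)],[(k3,k58),(k0,k59),(k5,k86),
    (k2,k88),(k7,k91),(k4,k104)],[(k0,k49),(k2,k78),(k7,k81),(k3,k92),(k4,k94),(k5,k104)],[(k0,k64),(k2,k65),(k7,k68),
    (k4,k81),(k5,k91),(k3,k107)],[(k9,k58),(k6,k68)],[(k9,k48),(k6,k58)],[(k8,k48),(k1,k54)]]
    [[k2,k0,k1,k0,k0],[k1,k0,k0,k1,k1],[k2,k0,k0,k0,k2],[k0,k0,k0,k2,k2],[k0,k0,k0,k0,k4]]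
    [.ref k13 k0 [(z1,[z1])],.ref k14 k0 [(z1,[z1])],.ref k15 k0 [(z2,[z1])],.ref k15 k1 [(z2,[z1])],.ref k26 k0 [(z2,
    [y1,z4])]]]

theorem hB5_4_2 : blkB [0, 0, 0, 1, 2] [] sp5 hS5_4 (pcls (n := 5) [0, 0, 0, 1, 2]) hD5_4 28 2 hN5_4_2 = true := by
  decide +kernel

/-- equations of the nodes for the classes `0 0 1 1 2`, active pairs `` -/
noncomputable def hD5_8 : List (List (List Eqn)) :=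
  [[[([z3,z0,z0,z0,z0],z2),([z0,z3,z0,z0,z0],z2),([z0,z0,z3,z0,z3],z4)],[([z4,z0,z0,z0,z0],z3),([z0,z2,z0,z0,z0],z1),
    ([z0,z0,z4,z0,z4],z5)],[([z2,z0,z0,z0,z1],z2),([z0,z1,z0,z0,y1],z0),([z0,z0,z2,z0,z1],z2)],[([z2,z0,z0,z0,z2],z3),
    ([z0,z1,z0,z0,y2],y1),([z0,z0,z2,z0,z0],z1)],[([z2,z0,z0,z0,z0],z1),([z0,z3,z0,z0,z0],z1),([z0,z0,z6,z0,z0],z5),
    ([z0,z0,z0,z3,z0],z2)],[([z2,z0,z0,z0,z0],z1),([z0,z2,z0,z0,z0],z1),([z0,z0,z4,z0,z0],z3),([z0,z0,z0,z2,z0],z1)],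
    [([z2,z0,z0,z0,z0],z1),([z0,z3,z0,z0,z0],z2),([z0,z0,z3,z0,z0],z2),([z0,z0,z0,z3,z0],z1)],[([z2,z0,z0,y1,z0],z1),
    ([z0,z1,z0,z1,z0],z1),([z0,z0,z2,z1,z0],z2)],[([z1,z0,z0,z0,y1],z0),([z0,z1,z0,z0,y2],y1),([z0,z0,z1,z0,z2],z2)],
    [([z6,z0,z0,z0,z0],z5),([z0,z3,z0,z0,z0],z1),([z0,z0,z6,z0,z6],z7)],[([z2,z0,z0,y1,z0],z1),([z0,z1,z0,z1,z0],z1)],
    [([z1,z0,y1,z0,z0],z0),([z0,z1,z2,z0,z0],z2)]],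
    [[([z1,z0,y1,z0,z1],z1),([z0,z1,z2,z0,y2],z0)],[([z1,z0,y1,y1,y1],y1)],[([z1,z0,z0,y1,z0],z0),([z0,z1,z0,z1,z0],
    z1)],[([z1,z0,z1,z0,z1],z2),([z0,z3,z0,z0,z0],z1)],[([z1,z0,z1,z0,z1],z2),([z0,z2,z0,z0,z0],z1)],[([z1,z0,z1,z0,
    z1],z2)],[]]]

/-- symmetries -/
noncomputable def hS5_8 : List (Bool × ℕ × List ℕ) :=
  [(true,k4,[k4,k3,k2,k1,k0]),(false,k0,[k0,k1,k2,k3,k4])]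

/-- nodes 0 to 11 -/
noncomputable def hN5_8_0 : List HM :=
  [.base (.leafM k4 [k0,k1,k2,k3,k4] [(z1,[z0,z1]),(z1,[y1,y1,y1,z3])] []),
    .base (.leafM k5 [k0,k1,k2,k3,k4] [(z1,[z0,z1]),(z2,[y1,y2,y1,z4])] []),
    .base (.leafM k0 [k3,k4,k0,k1,k2] [(z2,[y1,y2,y1,z2])] []),
    .base (.spec k16 false k0 [(z1,[z1,z1]),(z2,[y1,y2,y1,z2])]),
    .base (.leafM k6 [k0,k1,k2,k3,k4] [(z1,[z0,z1]),(z1,[z0,z0,z0,z1])] []),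
    .base (.leafM k0 [k0,k1,k2,k3,k4] [(z2,[z1,z1])] []),
    .base (.leafM k0 [k2,k3,k4,k0,k1] [(z3,[z0,z0,z1,z1])] []),
    .lp k0 [(nat_lit 1200),(nat_lit 624),(nat_lit 1170),(nat_lit 780),(nat_lit 780)] [k0,k0,(nat_lit 288),
    (nat_lit 288),k15,k15,(nat_lit 210),(nat_lit 210),(nat_lit 210),(nat_lit 210)] k0 [[k0,k0,k0,k0,k0,k0,k0,k0,k0,
    k0],[k0,k0,k130,k0,k0,k0,k0,k0,k0,k0],[k0,k0,k0,k0,k0,k0,k0,k0,k0,k0],[k130,k0,k0,k0,k0,k0,k0,k0,k0,k0],[k0,k0,k0,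
    k0,k0,k0,k0,k0,k0,k0],[k0,k0,k0,k0,k0,k0,k0,k0,k0,k0],[k0,k0,k0,k0,k0,k0,k0,k0,k0,k0],[k0,k0,k0,k0,k0,k0,k0,k0,k0,
    k0],[k0,k0,k0,k0,k0,k0,k0,k0,k0,k0],[k0,k0,k0,k0,k0,k0,k0,k0,k0,k0]] (nat_lit 3120) k6
    [[(k8,(nat_lit 990)),(k1,(nat_lit 1200))],[(k3,(nat_lit 912)),(k2,(nat_lit 1042)),(k5,(nat_lit 1185)),(k0,
    (nat_lit 1200))],[(k2,(nat_lit 624)),(k3,(nat_lit 624)),(k5,(nat_lit 767)),(k0,(nat_lit 912))],[(k2,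
    (nat_lit 624)),(k3,(nat_lit 624)),(k5,(nat_lit 897)),(k0,(nat_lit 1042))],[(k3,(nat_lit 767)),(k2,(nat_lit 897)),
    (k5,(nat_lit 1170)),(k0,(nat_lit 1185))],[(k6,(nat_lit 975)),(k7,(nat_lit 975)),(k9,(nat_lit 975)),(k4,
    (nat_lit 1170))],[(k6,(nat_lit 780)),(k7,(nat_lit 780)),(k9,(nat_lit 780)),(k4,(nat_lit 975))],[(k6,
    (nat_lit 780)),(k7,(nat_lit 780)),(k9,(nat_lit 780)),(k4,(nat_lit 975))],[(k6,(nat_lit 780)),(k7,(nat_lit 780)),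
    (k9,(nat_lit 780)),(k4,(nat_lit 975))],[(k8,(nat_lit 780)),(k1,(nat_lit 990))]]
    [[k0,k3,k0,k0,k0],[k0,k4,k0,k0,k0],[k0,k1,k2,k0,k0],[k0,k0,k0,k3,k0],[k0,k0,k0,k1,k2]]
    [.ref k4 k0 [(z1,[z0,y1,y2,y1,z2]),(z1,[y1,z0,z3]),(z1,[z1,z0,y3,z3]),(z1,[z1])],.ref k5 k0 [(z1,[z0,y1,y2,y1,
    z2]),(z2,[y1,z0,z4]),(z2,[z1,z0,y4,z4]),(z2,[z1])],.ref k5 k0 [(z1,[z0,y1,y2,y1,z2]),(z1,[y1,z0,z1,z1]),(z1,[z1,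
    z0,y1,z1]),(z1,[z1,z0,z1,y1])],.ref k6 k0 [(z1,[z0,y1,y2,y1,z2]),(z1,[z1]),(z2,[y1,z0,z0,z3]),(z1,[y1,z0,z3])],
    .contra [z1,z2,z2,z1,y2]],
    .base (.leafM k0 [k1,k2,k3,k4,k0] [(z1,[z0,z1,z1])] []),
    .base (.leafM k6 [k0,k1,k2,k3,k4] [(z1,[z0,z1]),(z2,[y1,y2,y1,z6])] []),
    .lp k0 [(nat_lit 3230),(nat_lit 1700),(nat_lit 2380),(nat_lit 2040),(nat_lit 2550)] [k0,k0,(nat_lit 765),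
    (nat_lit 765),k185,(nat_lit 665),(nat_lit 391),(nat_lit 799),(nat_lit 340),(nat_lit 340)] k0 [[k0,k0,k0,k0,k0,k0,
    k0,k0,k0,k0],[k0,k0,k0,k0,k0,k0,k0,k0,k0,k0],[k0,k0,k0,k0,k0,k0,k0,k0,k0,k0],[k0,k0,k0,k0,k0,k0,k0,k0,k0,k0],[k0,
    k0,k0,k0,k0,k0,k0,(nat_lit 1020),k0,k0],[k0,k0,k0,k0,k0,k0,k0,k0,k0,k0],[k0,k0,k0,k0,k0,(nat_lit 1020),k0,k0,k0,
    k0],[k0,k0,k0,k0,k0,k0,k0,k0,k0,k0],[k0,k0,k0,k0,k0,k0,k0,k0,k0,k0],[k0,k0,k0,k0,k0,k0,k0,k0,k0,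
    k0]] (nat_lit 8160) k6
    [[(k8,(nat_lit 2890)),(k1,(nat_lit 3230))],[(k2,(nat_lit 2465)),(k3,(nat_lit 2465)),(k5,(nat_lit 2565)),(k0,
    (nat_lit 3230))],[(k2,(nat_lit 1700)),(k3,(nat_lit 1700)),(k5,(nat_lit 1800)),(k0,(nat_lit 2465))],[(k2,
    (nat_lit 1700)),(k3,(nat_lit 1700)),(k5,(nat_lit 1800)),(k0,(nat_lit 2465))],[(k2,(nat_lit 1800)),(k3,
    (nat_lit 1800)),(k5,(nat_lit 1900)),(k0,(nat_lit 2565))],[(k6,(nat_lit 1634)),(k7,(nat_lit 2246)),(k9,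
    (nat_lit 2705)),(k4,(nat_lit 2860))],[(k7,(nat_lit 1632)),(k6,(nat_lit 2040)),(k4,(nat_lit 2246)),(k9,
    (nat_lit 3111))],[(k4,(nat_lit 1634)),(k7,(nat_lit 2040)),(k6,(nat_lit 2448)),(k9,(nat_lit 2499))],[(k6,
    (nat_lit 2499)),(k9,(nat_lit 2550)),(k4,(nat_lit 2705)),(k7,(nat_lit 3111))],[(k8,(nat_lit 2550)),(k1,
    (nat_lit 2890))]]
    [[k0,k3,k0,k0,k0],[k0,k4,k0,k0,k0],[k0,k1,k2,k0,k0],[k0,k1,k2,k1,k0],[k0,k0,k2,k1,k0],[k0,k0,k2,k2,k0],[k0,k0,k0,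
    k3,k0]]
    [.ref k0 k1 [(z2,[y1,z3,z3]),(z1,[z1]),(z2,[z1,y3,y9,z6])],.ref k1 k1 [(z2,[y1,z4,z4]),(z2,[z1]),(z2,[z1,y4,y12,
    z8])],.ref k2 k1 [(z2,[y1,z1,y1,z2]),(z2,[z1,z1,z3,y2]),(z2,[z1,y1,y3,z2])],.ref k3 k1 [(z1,[y1,z0,y1,z2]),(z1,
    [z1,z1,z2,y2]),(z1,[z1,z0,y1])],.ref k7 k1 [(z1,[z0,z1]),(z1,[z0,z0,z1]),(z1,[z1])],.ref k8 k0 [(z2,[y1,y2,y2,
    z2]),(z1,[z0,y1]),(z2,[z1,z2])],.ref k9 k1 [(z1,[z1,z3]),(z1,[y1,z0,z3]),(z1,[y1,y3,y6,z6])]],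
    .base (.leafM k0 [k3,k4,k0,k1,k2] [(z1,[y1,y1,z1])] [])]

theorem hB5_8_0 : blkB [0, 0, 1, 1, 2] [] sp5 hS5_8 (pcls (n := 5) [0, 0, 1, 1, 2]) hD5_8 19 0 hN5_8_0 = true := by
  decide +kernel

/-- nodes 12 to 18 -/
noncomputable def hN5_8_1 : List HM :=
  [.base (.spec k16 false k0 [(z1,[z2,z1]),(z1,[y1,y1,z1])]),
    .lp k0 [k34,k44,k30,k40,k30] [k6,k6,k2,k0,k8,k8,k6,k0,k8,k8] k0 [[k0,k0,k0,k0,k0,k0,k0,k0,k0,k0],[k0,k0,k8,k0,k0,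
    k0,k0,k0,k0,k0],[k0,k0,k0,k12,k0,k0,k0,k0,k0,k0],[k8,k0,k0,k0,k0,k0,k0,k0,k0,k0],[k0,k0,k0,k0,k0,k0,k0,k0,k0,k0],
    [k0,k0,k0,k0,k0,k0,k8,k0,k0,k0],[k0,k0,k0,k0,k0,k0,k0,k0,k0,k0],[k0,k0,k0,k0,k8,k0,k0,k0,k0,k0],[k0,k0,k0,k0,k0,
    k0,k0,k0,k0,k0],[k0,k0,k0,k0,k0,k0,k0,k0,k0,k0]] k120 k5
    [[(k8,k32),(k1,k34)],[(k5,k32),(k0,k34),(k3,k40),(k2,k46)],[(k5,k30),(k0,k40),(k2,k44),(k3,k46)],[(k2,k30),(k5,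
    k36),(k3,k44),(k0,k46)],[(k3,k30),(k0,k32),(k2,k36),(k5,k42)],[(k4,k30),(k9,k30),(k7,k38),(k6,k40)],[(k9,k30),(k4,
    k38),(k6,k40),(k7,k46)],[(k9,k32),(k6,k34),(k4,k40),(k7,k40)],[(k4,k30),(k7,k30),(k9,k30),(k6,k32)],[(k8,k30),(k1,
    k32)]]
    [[k1,k0,k1,k0,k1],[k0,k1,k2,k0,k0],[k0,k0,k0,k1,k2]]
    [.ref k10 k1 [(z1,[z1,z1]),(z1,[y1,z0,z1])],.ref k11 k1 [(z2,[y1,z1,z1]),(z1,[z1])],.ref k12 k1 [(z1,[z1,z1]),(z1,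
    [y2,y1,z1])]],
    .base (.leafM k0 [k0,k1,k2,k3,k4] [(z1,[z1,z1])] []),
    .base (.leafM k6 [k0,k1,k2,k3,k4] [(z1,[z0,z1]),(z1,[y3,y1,z3])] []),
    .base (.leafM k5 [k0,k1,k2,k3,k4] [(z1,[z0,z1]),(z1,[y2,y1,z2])] []),
    .lp k0 [(nat_lit 210),k168,(nat_lit 336),(nat_lit 210),(nat_lit 300)] [k63,k63,k84,k84,k0,k0,k63,k63,k18,
    k18] k0 [[k0,k0,k0,k0,k0,k0,k0,k0,k0,k0],[k0,k0,k0,k0,k0,k0,k0,k0,k0,k0],[k0,k0,k0,k0,k0,k0,k0,k0,k0,k0],[k0,k0,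
    k0,k0,k0,k0,k0,k0,k0,k0],[k0,k0,k0,k0,k0,k0,k0,k35,k0,k0],[k0,k0,k0,k0,k0,k0,k0,k0,k0,k0],[k0,k0,k0,k0,k0,k35,k0,
    k0,k0,k0],[k0,k0,k0,k0,k0,k0,k0,k0,k0,k0],[k0,k0,k0,k0,k0,k0,k0,k0,k0,k0],[k0,k0,k0,k0,k0,k0,k0,k0,k0,
    k0]] (nat_lit 840) k6
    [[(k1,(nat_lit 210)),(k8,(nat_lit 255))],[(k2,k189),(k3,k189),(k0,(nat_lit 210)),(k5,(nat_lit 273))],[(k2,k168),
    (k3,k168),(k0,k189),(k5,(nat_lit 252))],[(k2,k168),(k3,k168),(k0,k189),(k5,(nat_lit 252))],[(k2,(nat_lit 252)),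
    (k3,(nat_lit 252)),(k0,(nat_lit 273)),(k5,(nat_lit 336))],[(k6,(nat_lit 238)),(k7,(nat_lit 273)),(k9,
    (nat_lit 318)),(k4,(nat_lit 336))],[(k6,(nat_lit 210)),(k7,(nat_lit 210)),(k4,(nat_lit 273)),(k9,(nat_lit 290))],
    [(k6,(nat_lit 210)),(k7,(nat_lit 210)),(k4,(nat_lit 238)),(k9,(nat_lit 255))],[(k6,(nat_lit 255)),(k7,
    (nat_lit 290)),(k9,(nat_lit 300)),(k4,(nat_lit 318))],[(k1,(nat_lit 255)),(k8,(nat_lit 300))]]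
    [[k2,k1,k0,k0,k0],[k2,k2,k0,k0,k0],[k0,k3,k0,k0,k0],[k0,k4,k0,k0,k0],[k0,k0,k0,k3,k0]]
    [.ref k10 k1 [(z1,[z1,z1,y1]),(z1,[z0,y1,z1])],.ref k14 k1 [(z2,[z1,z2,y2]),(z1,[z0,y1,z1])],.ref k15 k0 [(z1,[z0,
    z1]),(z1,[y1,y3,z3])],.ref k16 k1 [(z1,[z0,z1]),(z2,[z1])],.ref k15 k1 [(z1,[z0,z1]),(z1,[y1,y3,z3])]],
    .lp k0 [k24,k31,k30,k34,k21] [k5,k5,k0,k3,k2,k2,k0,k0,k5,k8] k0 [[k0,k0,k3,k5,k0,k0,k0,k0,k0,k0],[k0,k0,k0,k0,k0,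
    k0,k0,k0,k0,k0],[k0,k5,k0,k0,k0,k0,k0,k0,k0,k0],[k0,k3,k0,k0,k0,k0,k0,k0,k0,k0],[k0,k0,k0,k0,k0,k0,k0,k0,k0,k0],
    [k0,k0,k0,k0,k0,k0,k2,k0,k0,k0],[k0,k0,k0,k0,k0,k0,k0,k6,k0,k0],[k0,k0,k0,k0,k2,k0,k0,k0,k0,k0],[k0,k0,k0,k0,k0,
    k0,k0,k0,k0,k0],[k0,k0,k0,k0,k0,k0,k0,k0,k0,k0]] k96 k5
    [[(k1,k24),(k8,k24)],[(k0,k24),(k2,k24),(k5,k24),(k3,k26)],[(k0,k26),(k3,k28),(k2,k34),(k5,k34)],[(k0,k24),(k5,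
    k32),(k2,k34),(k3,k34)],[(k0,k24),(k5,k30),(k2,k32),(k3,k34)],[(k9,k24),(k4,k30),(k7,k32),(k6,k34)],[(k9,k24),(k4,
    k32),(k6,k34),(k7,k34)],[(k9,k26),(k6,k28),(k4,k34),(k7,k34)],[(k4,k24),(k7,k24),(k9,k24),(k6,k26)],[(k1,k24),(k8,
    k24)]]
    [[k2,k1,k0,k0,k0],[k1,k0,k1,k0,k1],[k0,k0,k0,k1,k2]]
    [.ref k13 k1 [(z1,[z1,y1])],.ref k17 k1 [(z1,[z1])],.ref k13 k0 [(z1,[z1,y1])]]]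

theorem hB5_8_1 : blkB [0, 0, 1, 1, 2] [] sp5 hS5_8 (pcls (n := 5) [0, 0, 1, 1, 2]) hD5_8 19 1 hN5_8_1 = true := by
  decide +kernel

/-- equations of the nodes for the classes `0 0 1 0 1`, active pairs `0-2` -/
noncomputable def hD5_27 : List (List (List Eqn)) :=
  [[[([z1,z0,z0,z0,y1],z1)],[([z1,z0,z0,y1,y2],z0)],[([z1,z0,z0,y1,z0],z1)],[([z0,z3,z0,z0,z0],z2)],[([z0,z2,z0,z0,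
    z0],z1)],[([z5,z0,z0,z0,y5],z2),([z0,z5,z0,z0,z0],z2)],[([z5,z0,z0,z0,y5],z3),([z0,z5,z0,z0,z0],z2)],[([z1,z0,z0,
    z0,z1],z1),([z0,z5,z0,z0,z0],z2)],[([z5,z0,z0,z0,z5],z6),([z0,z5,z0,z0,z0],z2)],[([z2,z0,z0,z0,z0],z1),([z0,z5,z0,
    z0,z0],z2),([z0,z0,z0,z2,z0],z1)],[([z10,z0,z0,z0,z0],z3),([z0,z5,z0,z0,z0],z2),([z0,z0,z0,z2,z0],z1)],[([z10,z0,
    z0,z0,z0],z7),([z0,z5,z0,z0,z0],z2),([z0,z0,z0,z2,z0],z1)]],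
    [[([z10,z0,z0,z0,z0],z9),([z0,z5,z0,z0,z0],z2),([z0,z0,z0,z10,z0],z1)],[([z5,z0,z0,z0,z0],z4),([z0,z5,z0,z0,z0],
    z2),([z0,z0,z0,z2,z0],z1)],[([z2,z0,z0,z0,z0],z1),([z0,z5,z0,z0,z0],z2),([z0,z0,z0,z10,z0],z1)],[([z30,z0,z0,z0,
    z0],z19),([z0,z5,z0,z0,z0],z2),([z0,z0,z0,z2,z0],z1)],[([z10,z0,z0,z0,z0],z9),([z0,z5,z0,z0,z0],z2),([z0,z0,z0,z2,
    z0],z1)],[([z10,z0,z0,z0,z0],z3),([z0,z5,z0,z0,z0],z2),([z0,z0,z0,z10,z0],z1)],[([z10,z0,z0,z0,z0],z7),([z0,z5,z0,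
    z0,z0],z2),([z0,z0,z0,z10,z0],z1)],[([z5,z0,z0,z0,z0],z2),([z0,z5,z0,z0,z0],z2),([z0,z0,z0,z2,z0],z1)],[([z0,z5,
    z0,z0,z0],z2),([z0,z0,z0,z10,z0],z1)],[([z0,z5,z0,z0,z0],z2)],[([z0,z3,z0,z0,z0],z1)],[([z1,z0,z0,y1,y1],z0)]],
    [[([z1,z0,z0,y2,y1],z0)],[([z3,z0,z0,z0,y1],z3),([z0,z3,z0,z0,y2],z0)],[([z3,z0,z0,z0,z0],z2),([z0,z3,z0,z0,z0],
    z2)],[([z4,z0,z0,z0,z0],z3),([z0,z2,z0,z0,z0],z1)],[([z5,z0,z0,z0,z1],z6),([z0,z5,z0,z0,z2],z2)],[([z3,z0,z0,z0,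
    z1],z4),([z0,z3,z0,z0,z2],z2)],[([z1,z0,z0,z0,y1],z1),([z0,z1,z0,z0,y2],z0)],[([z6,z0,z0,z0,z0],z5),([z0,z3,z0,z0,
    z0],z1)],[([z2,z0,z0,y1,y1],z1)],[([z1,z0,z0,z0,y1],z1),([z0,z1,z0,z0,y2],y1)],[([z1,z0,z0,z0,y5],y2),([z0,z1,z0,
    z0,y2],y1)],[([z1,z0,z0,z0,y2],z0),([z0,z1,z0,z0,y2],y1)]],
    [[([z1,z0,z0,z0,y1],z0),([z0,z1,z0,z0,y2],y1)],[([z8,z0,z0,z0,z0],z7),([z0,z4,z0,z0,z0],z1),([z0,z0,z0,z8,z0],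
    z5)],[([z12,z0,z0,z0,z0],z11),([z0,z6,z0,z0,z0],z1),([z0,z0,z0,z12,z0],z7)],[([z2,z0,z0,z0,y2],z1),([z0,z1,z0,z0,
    y2],y1)],[([z3,z0,z0,z0,z1],z5),([z0,z3,z0,z0,z2],z1)],[([z1,z0,z0,z0,z1],z1),([z0,z3,z0,z0,z2],z1)],[([z3,z0,z0,
    z0,z1],z2),([z0,z3,z0,z0,z2],z1)],[([z3,z0,z0,z0,z5],z4),([z0,z3,z0,z0,z2],z1)],[([z0,z1,z0,z0,y2],y1)],[]]]

/-- symmetries -/
noncomputable def hS5_27 : List (Bool × ℕ × List ℕ) :=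
  [(true,k2,[k2,k1,k0,k4,k3]),(false,k0,[k0,k1,k2,k3,k4])]

/-- nodes 0 to 11 -/
noncomputable def hN5_27_0 : List HM :=
  [.base (.leafM k2 [k1,k2,k3,k4,k0] [(z1,[y1,z1])] []),
    .base (.spec k4 false k0 [(z1,[z0,z1]),(z1,[y1,z1])]),
    .base (.leafM k0 [k2,k3,k4,k0,k1] [(z1,[y1,z1])] []),
    .base (.leafM k2 [k4,k1,k3] [(z1,[z1]),(z1,[y1,y3,z3])] [(k0,k2,z1,[z0,z1]),(k2,k0,z1,[z0,z1])]),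
    .base (.leafM k3 [k4,k1,k3] [(z1,[z1]),(z1,[y1,y2,z2])] [(k0,k2,z1,[z0,z1]),(k2,k0,z1,[z0,z1])]),
    .base (.leafM k2 [k2,k3,k4,k0,k1] [(z5,[z1,y1,y5,z5])] []),
    .base (.spec k4 false k0 [(z1,[z0,z0,z1]),(z5,[y1,y1,z0,z5])]),
    .base (.leafM k0 [k4,k0,k1,k2,k3] [(z1,[z1])] []),
    .base (.spec k8 false k0 [(z1,[z0,z0,z1]),(z5,[y1,y2,y5,z10])]),
    .base (.leafM k2 [k2,k3,k4,k0,k1] [(z2,[z1,z0,z1])] []),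
    .base (.geo z10 k0 [(z3,z0),(z4,z0),(z17,z0),(z5,z0),(z1,z0)] [(z1,[z1]),(z1,[z0,z2]),(z1,[y1,z0,z0,z10]),(z1,[z0,
    z0,z5]),(z1,[z0,y2,y5,y10,z10])] k1),
    .base (.spec k4 false k0 [(z1,[z0,z0,z0,z1]),(z10,[y1,y4,y5,y10,z20])])]

theorem hB5_27_0 : blkB [0, 0, 1, 0, 1] [(0, 2)] sp5 hS5_27 (pcls (n := 5) [0, 0, 1, 0, 1]) hD5_27 46 0 hN5_27_0 = true := by
  decide +kernel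

/-- nodes 12 to 23 -/
noncomputable def hN5_27_1 : List HM :=
  [.base (.leafM k2 [k2,k3,k4,k0,k1] [(z10,[z1,z0,z1])] []),
    .base (.geo z10 k0 [(z8,z0),(z4,z0),(z12,z0),(z5,z0),(z1,z0)] [(z1,[z2]),(z1,[z0,z2]),(z1,[y2,z0,z0,z10]),(z1,[z0,
    z0,z5]),(z1,[z0,y2,y5,y10,z10])] k1),
    .base (.leafM k0 [k4,k0,k1,k2,k3] [(z10,[z5,y2,y1,y10,z10])] []),
    .base (.geo z30 k0 [(z19,z0),(z12,z0),(z41,z0),(z15,z0),(z3,z0)] [(z1,[z1]),(z1,[z0,z6]),(z1,[y1,z0,z0,z30]),(z1,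
    [z0,z0,z15]),(z1,[z0,y6,y15,y30,z30])] k1),
    .base (.leafM k0 [k4,k0,k1,k2,k3] [(z10,[z1,y2,y5,y10,z10])] []),
    .base (.geo z10 k0 [(z3,z0),(z4,z0),(z17,z0),(z1,z0),(z5,z0)] [(z1,[z1]),(z1,[z0,z2]),(z1,[y1,z0,z0,z10]),(z1,[z0,
    z0,z1]),(z1,[z0,y2,y1,y10,z10])] k1),
    .base (.spec k8 false k0 [(z1,[z0,z0,z0,z1]),(z10,[y1,y2,z1,z0,z10])]),
    .base (.geo z10 k0 [(z4,z0),(z4,z0),(z16,z0),(z5,z0),(z1,z0)] [(z1,[z2]),(z1,[z0,z2]),(z1,[y2,z0,z0,z10]),(z1,[z0,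
    z0,z5]),(z1,[z0,y2,y5,y10,z10])] k1),
    .lp (nat_lit 257) [(nat_lit 3026114),(nat_lit 2936584),(nat_lit 2632182),(nat_lit 1271326),
    (nat_lit 3026114)] [(nat_lit 819840),(nat_lit 819840),(nat_lit 864605),(nat_lit 864605),(nat_lit 1016806),
    (nat_lit 1016806),(nat_lit 1716419),(nat_lit 1678049),k0,(nat_lit 1639680)] k0 [[k0,k0,k0,k0,k0,k0,k0,k0,k0,k0],
    [k0,k0,k0,(nat_lit 1217608),k0,k0,k0,k0,k0,k0],[(nat_lit 1217608),k0,k0,k0,k0,k0,k0,k0,k0,k0],[k0,k0,k0,k0,k0,k0,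
    (nat_lit 572992),(nat_lit 572992),k0,k0],[k0,k0,k0,k0,k0,(nat_lit 966924),k0,k0,k0,k0],[k0,k0,k0,k0,k0,k0,k0,k0,
    k0,(nat_lit 1754788)],[k0,k0,(nat_lit 572992),k0,k0,k0,k0,k0,k0,k0],[k0,k0,(nat_lit 572992),k0,k0,k0,k0,k0,k0,k0],
    [k0,k0,k0,k0,(nat_lit 1754788),k0,k0,k0,k0,k0],[k0,k0,k0,k0,k0,k0,k0,k0,k0,k0]] (nat_lit 8594880) k8
    [[(k7,(nat_lit 2167905)),(k1,(nat_lit 3026114)),(k8,(nat_lit 3845954)),(k4,(nat_lit 4583936))],[(k6,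
    (nat_lit 2129535)),(k9,(nat_lit 2206274)),(k2,(nat_lit 2981349)),(k3,(nat_lit 2981349)),(k0,(nat_lit 3026114)),
    (k5,(nat_lit 4046756))],[(k2,(nat_lit 1718976)),(k6,(nat_lit 2084770)),(k9,(nat_lit 2161509)),(k5,
    (nat_lit 2784383)),(k3,(nat_lit 2936584)),(k0,(nat_lit 2981349))],[(k3,(nat_lit 1718976)),(k6,(nat_lit 2657762)),
    (k9,(nat_lit 2734501)),(k5,(nat_lit 2784383)),(k2,(nat_lit 2936584)),(k0,(nat_lit 2981349))],[(k6,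
    (nat_lit 1359577)),(k9,(nat_lit 1436316)),(k5,(nat_lit 2632182)),(k2,(nat_lit 2784383)),(k3,(nat_lit 2784383)),
    (k0,(nat_lit 4046756))],[(k4,(nat_lit 1665258)),(k7,(nat_lit 1970939)),(k8,(nat_lit 3648988)),(k1,
    (nat_lit 4583936))],[(k8,(nat_lit 1232957)),(k4,(nat_lit 1970939)),(k1,(nat_lit 2167905)),(k7,(nat_lit 2276620))],
    [(k6,(nat_lit 1232956)),(k9,(nat_lit 1309695)),(k5,(nat_lit 1359577)),(k3,(nat_lit 2084770)),(k0,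
    (nat_lit 2129535)),(k2,(nat_lit 2657762))],[(k6,(nat_lit 1309695)),(k9,(nat_lit 1386434)),(k5,(nat_lit 1436316)),
    (k3,(nat_lit 2161509)),(k0,(nat_lit 2206274)),(k2,(nat_lit 2734501))],[(k7,(nat_lit 1232957)),(k4,
    (nat_lit 3648988)),(k1,(nat_lit 3845954)),(k8,(nat_lit 4665794))]]
    [[k1,k1,k0,k1,k0],[k1,k0,k1,k2,k0],[k1,k0,k0,k3,k0],[k1,k0,k0,k2,k1],[k0,k3,k0,k0,k0],[k0,k4,k0,k0,k0],[k0,k2,k1,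
    k1,k0],[k0,k2,k0,k1,k1],[k0,k1,k2,k0,k0],[k0,k1,k1,k1,k0],[k0,k1,k0,k2,k0],[k0,k1,k0,k1,k1],[k0,k0,k3,k1,k0],[k0,
    k0,k2,k2,k0],[k0,k0,k2,k1,k1],[k0,k0,k1,k3,k0],[k0,k0,k1,k2,k1],[k0,k0,k2,k2,k2],[k0,k0,k1,k3,k2],[k0,k0,k1,k1,
    k2],[k0,k0,k0,k4,k0],[k0,k0,k0,k3,k1],[k0,k0,k0,k2,k2],[k0,k0,k0,k3,k3]]
    [.ref k9 k0 [(z5,[y10,z2,z1,z10]),(z1,[z0,z1]),(z5,[z0,y2,y1,y10,z10])],.contra [y15,z1,z3,z15],.ref k10 k0 [(z1,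
    [y10,z0,z3,z10]),(z1,[z0,z1]),(z5,[z0,y2,y1,y10,z10])],.ref k11 k0 [(z1,[y10,y2,z1,z0,z10]),(z1,[z0,z1]),(z5,[z0,
    y2,y1,y10,z10])],.contra [z3,y1],.contra [z3,y2],.ref k12 k1 [(z1,[y10,z4,z1,z10]),(z1,[z0,z1]),(z1,[z0,z0,z1])],
    .contra [z1,z0,z0,z1,y1],.ref k13 k0 [(z2,[z5,y1]),(z1,[z0,z1]),(z5,[z0,y2,y1,y10,z10])],.ref k14 k1 [(z5,[y10,z2,
    z1,z10]),(z1,[z0,z1]),(z1,[z0,z0,z1])],.contra [z15,z4,y3],.contra [z3,z1,z0,z3,y3],.ref k15 k0 [(z1,[z10,z0,y1]),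
    (z1,[z0,z1]),(z5,[z0,y2,y1,y10,z10])],.ref k16 k0 [(z1,[z5,z0,y1]),(z1,[z0,z1]),(z5,[z0,y2,y1,y10,z10])],
    .ref k11 k0 [(z1,[z5,z1,z0,z5,y5]),(z1,[z0,z1]),(z5,[z0,y2,y1,y10,z10])],.ref k17 k1 [(z1,[y10,z0,z3,z10]),(z1,
    [z0,z1]),(z1,[z0,z0,z1])],.ref k18 k1 [(z1,[y10,y2,z1,z0,z10]),(z1,[z0,z1]),(z1,[z0,z0,z1])],.ref k19 k0 [(z2,[z5,
    z2,z0,z10,y10]),(z1,[z0,z1]),(z5,[z0,y2,y1,y10,z10])],.ref k11 k0 [(z1,[z10,z4,y1,z20,y20]),(z1,[z0,z1]),(z5,[z0,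
    y2,y1,y10,z10])],.ref k16 k0 [(z1,[z10,z4,z1,z20,y20]),(z1,[z0,z1]),(z5,[z0,y2,y1,y10,z10])],.contra [z15,z8,y6],
    .contra [z5,z3,y1,z5,y5],.contra [z3,z2,z0,z6,y6],.contra [z3,z2,z0,z9,y9]],
    .lp k0 [(nat_lit 35098),(nat_lit 16100),(nat_lit 28980),(nat_lit 16100),(nat_lit 19320)] [k0,k0,(nat_lit 9499),
    (nat_lit 9499),(nat_lit 3059),(nat_lit 3059),(nat_lit 12029),(nat_lit 6969),(nat_lit 4529),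
    (nat_lit 11249)] k0 [[k0,k0,k0,(nat_lit 3220),k0,k0,k0,k0,k0,k0],[k0,k0,k0,(nat_lit 644),k0,k0,k0,k0,k0,k0],
    [(nat_lit 644),(nat_lit 3220),k0,k0,k0,k0,k0,k0,k0,k0],[k0,k0,k0,k0,k0,k0,k0,k0,k0,k0],[k0,k0,k0,k0,k0,k0,k0,k0,
    k0,k0],[k0,k0,k0,k0,k0,k0,k0,k0,k0,(nat_lit 12558)],[k0,k0,k0,k0,k0,k0,k0,k0,k0,k0],[k0,k0,k0,k0,k0,k0,k0,k0,k0,
    k0],[k0,k0,k0,k0,(nat_lit 12558),k0,k0,k0,k0,k0],[k0,k0,k0,k0,k0,k0,k0,k0,k0,k0]] (nat_lit 77280) k8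
    [[(k7,(nat_lit 28129)),(k8,(nat_lit 30569)),(k1,(nat_lit 35098)),(k4,(nat_lit 44597))],[(k2,(nat_lit 22379)),(k6,
    (nat_lit 23069)),(k9,(nat_lit 23849)),(k3,(nat_lit 25599)),(k5,(nat_lit 32683)),(k0,(nat_lit 35098))],[(k6,
    (nat_lit 13570)),(k9,(nat_lit 14350)),(k2,(nat_lit 15456)),(k3,(nat_lit 16100)),(k0,(nat_lit 25599)),(k5,
    (nat_lit 25760))],[(k6,(nat_lit 13570)),(k9,(nat_lit 14350)),(k3,(nat_lit 15456)),(k2,(nat_lit 16100)),(k0,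
    (nat_lit 22379)),(k5,(nat_lit 22540))],[(k6,(nat_lit 20010)),(k9,(nat_lit 20790)),(k2,(nat_lit 22540)),(k3,
    (nat_lit 25760)),(k5,(nat_lit 28980)),(k0,(nat_lit 32683))],[(k7,(nat_lit 25070)),(k8,(nat_lit 27510)),(k4,
    (nat_lit 28980)),(k1,(nat_lit 44597))],[(k8,(nat_lit 11042)),(k7,(nat_lit 21160)),(k4,(nat_lit 25070)),(k1,
    (nat_lit 28129))],[(k6,(nat_lit 11040)),(k9,(nat_lit 11820)),(k2,(nat_lit 13570)),(k3,(nat_lit 13570)),(k5,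
    (nat_lit 20010)),(k0,(nat_lit 23069))],[(k6,(nat_lit 11820)),(k9,(nat_lit 12600)),(k2,(nat_lit 14350)),(k3,
    (nat_lit 14350)),(k5,(nat_lit 20790)),(k0,(nat_lit 23849))],[(k7,(nat_lit 11042)),(k8,(nat_lit 26040)),(k4,
    (nat_lit 27510)),(k1,(nat_lit 30569))]]
    [[k1,k1,k0,k1,k0],[k1,k0,k0,k2,k1],[k1,k1,k0,k0,k1],[k0,k3,k0,k0,k0],[k0,k4,k0,k0,k0],[k0,k3,k0,k1,k1],[k0,k2,k1,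
    k1,k0],[k0,k2,k0,k2,k0],[k0,k2,k0,k1,k1],[k0,k2,k0,k0,k2],[k0,k1,k1,k1,k0],[k0,k1,k1,k0,k1],[k0,k1,k0,k2,k0],[k0,
    k1,k0,k3,k1],[k0,k1,k0,k1,k1],[k0,k1,k0,k2,k2],[k0,k1,k0,k0,k2],[k0,k0,k1,k2,k1],[k0,k0,k1,k1,k2],[k0,k0,k0,k4,
    k0],[k0,k0,k0,k3,k1],[k0,k0,k0,k2,k2],[k0,k0,k0,k3,k3],[k0,k0,k0,k1,k3]]
    [.ref k5 k0 [(z1,[y5,z1,z5]),(z1,[z0,z1])],.ref k6 k0 [(z1,[y5,y1,z0,z5]),(z1,[z0,z1])],.ref k7 k0 [(z1,[y1,z0,z0,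
    z1]),(z1,[z0,z1])],.contra [z3,y1],.contra [z3,y2],.contra [z3,y1,z3,y3],.ref k8 k0 [(z1,[z5,y2]),(z1,[z0,z1])],
    .contra [y1,z0,y2,z2],.contra [z1,z0,z1,y1],.contra [y1,z0,y2,z2],.ref k7 k1 [(z1,[y1,z0,z0,z1]),(z1,[z0,z1])],
    .ref k5 k1 [(z1,[y5,z1,z5]),(z1,[z0,z1])],.contra [y1,z0,y2,z2],.ref k20 k0 [(z1,[z0,z1]),(z1,[y5,y2,y15,z15])],
    .contra [z3,z1,z3,y3],.contra [z3,z1,z6,y6],.contra [y1,z0,y2,z2],.ref k8 k1 [(z1,[y5,y2,y5,z10]),(z1,[z0,z1])],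
    .ref k6 k1 [(z1,[y5,y1,z0,z5]),(z1,[z0,z1])],.ref k20 k0 [(z1,[z0,z1]),(z2,[y5,y4,y20,z20])],.contra [y2,y1,y6,
    z6],.contra [z3,z2,z6,y6],.contra [z3,z2,z9,y9],.contra [y2,y1,y6,z6]],
    .base (.leafM k4 [k4,k1,k3] [(z1,[z1]),(z1,[y1,y3,z3])] [(k0,k2,z1,[z0,z1]),(k2,k0,z1,[z0,z1])]),
    .base (.leafM k0 [k0,k1,k2,k3,k4] [(z1,[z1,y1,z1])] [])]

theorem hB5_27_1 : blkB [0, 0, 1, 0, 1] [(0, 2)] sp5 hS5_27 (pcls (n := 5) [0, 0, 1, 0, 1]) hD5_27 46 1 hN5_27_1 = true := by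
  decide +kernel

/-- nodes 24 to 35 -/
noncomputable def hN5_27_2 : List HM :=
  [.base (.spec k8 false k0 [(z1,[z0,z1]),(z1,[y1,z1])]),
    .base (.spec k4 false k0 [(z1,[z0,z0,z1]),(z3,[y1,y1,z0,z3])]),
    .base (.leafM k2 [k4,k1,k3] [(z1,[z0,z1]),(z1,[z0,y1,y3,z3])] [(k0,k2,z1,[z0,z0,z1]),(k2,k0,z1,[z0,z0,z1])]),
    .base (.leafM k3 [k4,k1,k3] [(z1,[z0,z1]),(z1,[z0,y1,y2,z2])] [(k0,k2,z1,[z0,z0,z1]),(k2,k0,z1,[z0,z0,z1])]),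
    .base (.spec k8 false k0 [(z1,[z0,z0,z1]),(z5,[y1,y2,y5,z10])]),
    .base (.leafM k0 [k2,k3,k4,k0,k1] [(z3,[y1,y1,z0,z3])] []),
    .base (.leafM k2 [k1,k2,k3,k4,k0] [(z1,[y1,z0,z1])] []),
    .base (.leafM k4 [k4,k1,k3] [(z1,[z0,z1]),(z1,[z0,y1,y3,z3])] [(k0,k2,z1,[z0,z0,z1]),(k2,k0,z1,[z0,z0,z1])]),
    .lp (nat_lit 257) [(nat_lit 2520),(nat_lit 1694),(nat_lit 2427),(nat_lit 1052),(nat_lit 2387)] [(nat_lit 613),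
    (nat_lit 613),(nat_lit 1026),(nat_lit 1026),k85,(nat_lit 1234),(nat_lit 1347),(nat_lit 1347),k0,
    (nat_lit 1359)] k0 [[k0,k0,k0,k0,k0,k0,k133,k189,k0,k0],[k0,k0,k0,(nat_lit 350),k0,k0,k0,k0,k0,k0],[(nat_lit 350),
    k0,k0,k0,k0,k0,k0,k0,k0,k0],[k0,k0,k0,k0,k0,k0,k147,(nat_lit 203),k0,k0],[k0,k0,k0,k0,k0,(nat_lit 2614),k0,k0,k0,
    k0],[k0,k0,k0,k0,k0,k0,k0,k0,k23,(nat_lit 1437)],[k0,k189,(nat_lit 203),k0,k0,k0,k0,k0,k0,k0],[k0,k133,k147,k0,k0,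
    k0,k0,k0,k0,k0],[k0,k0,k0,k0,(nat_lit 1437),k0,k0,k0,k0,k0],[k0,k0,k0,k0,k23,k0,k0,k0,k0,k0]] (nat_lit 6720) k8
    [[(k7,(nat_lit 1763)),(k1,(nat_lit 2520)),(k8,(nat_lit 3133)),(k4,(nat_lit 4485))],[(k6,(nat_lit 1597)),(k9,
    (nat_lit 1641)),(k2,(nat_lit 2107)),(k3,(nat_lit 2107)),(k5,(nat_lit 2249)),(k0,(nat_lit 2520))],[(k2,
    (nat_lit 1344)),(k5,(nat_lit 1486)),(k6,(nat_lit 1506)),(k9,(nat_lit 1550)),(k3,(nat_lit 1694)),(k0,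
    (nat_lit 2107))],[(k3,(nat_lit 1344)),(k5,(nat_lit 1486)),(k6,(nat_lit 1520)),(k9,(nat_lit 1564)),(k2,
    (nat_lit 1694)),(k0,(nat_lit 2107))],[(k6,(nat_lit 962)),(k9,(nat_lit 1006)),(k5,(nat_lit 1278)),(k2,
    (nat_lit 1486)),(k3,(nat_lit 1486)),(k0,(nat_lit 2249))],[(k4,(nat_lit 962)),(k7,(nat_lit 2314)),(k8,
    (nat_lit 3684)),(k1,(nat_lit 4485))],[(k8,(nat_lit 962)),(k1,(nat_lit 1763)),(k4,(nat_lit 2314)),(k7,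
    (nat_lit 3666))],[(k5,(nat_lit 962)),(k9,(nat_lit 1040)),(k6,(nat_lit 1052)),(k3,(nat_lit 1506)),(k2,
    (nat_lit 1520)),(k0,(nat_lit 1597))],[(k5,(nat_lit 1006)),(k9,(nat_lit 1028)),(k6,(nat_lit 1040)),(k3,
    (nat_lit 1550)),(k2,(nat_lit 1564)),(k0,(nat_lit 1641))],[(k7,(nat_lit 962)),(k1,(nat_lit 3133)),(k4,
    (nat_lit 3684)),(k8,(nat_lit 3746))]]
    [[k1,k1,k0,k1,k0],[k1,k0,k2,k1,k0],[k1,k0,k1,k2,k0],[k1,k0,k0,k2,k1],[k0,k3,k0,k0,k0],[k0,k4,k0,k0,k0],[k0,k3,k2,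
    k0,k0],[k0,k2,k2,k0,k0],[k0,k2,k1,k1,k0],[k0,k2,k0,k1,k1],[k0,k1,k2,k0,k0],[k0,k1,k4,k0,k0],[k0,k1,k2,k1,k1],[k0,
    k1,k1,k1,k0],[k0,k1,k0,k2,k0],[k0,k1,k0,k1,k1],[k0,k1,k0,k2,k2],[k0,k0,k4,k0,k0],[k0,k0,k3,k1,k0],[k0,k0,k4,k1,
    k1],[k0,k0,k2,k2,k0],[k0,k0,k2,k1,k1],[k0,k0,k1,k2,k1],[k0,k0,k2,k2,k2],[k0,k0,k1,k1,k2],[k0,k0,k0,k2,k2],[k0,k0,
    k0,k3,k3]]
    [.contra [y2,z1,y3,z3],.contra [z1,z1,y3,z1],.contra [z1,z0,y1],.ref k25 k0 [(z1,[y1,y1,z3]),(z1,[y2,z1,y3,z3])],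
    .ref k26 k1 [(z2,[y1,z3,y3,z3]),(z1,[z1])],.ref k27 k1 [(z2,[y1,z4,y4,z4]),(z2,[z1])],.contra [y1,z3,y1,z3],
    .contra [y1,z2,z0,z2],.ref k28 k0 [(z1,[z1,y2,z6,y2]),(z1,[z2,z1,y3,z1])],.contra [z1,z0,z1,y1],.contra [y1,z1,z1,
    z1],.contra [z1,z3,y7,z3],.contra [z2,z3,y5,z1],.ref k29 k0 [(z1,[z1,y1,z3,y1]),(z1,[z2,z1,y3,z1])],.contra [y1,
    z0,y2,z2],.contra [y2,z1,y3,z3],.contra [z1,z1,z1,y1],.contra [z1,z3,y7,z3],.contra [z1,z2,y5,z2],.contra [z2,z7,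
    y13,z5],.contra [z1,z1,y3,z1],.contra [z2,z3,y5,z1],.ref k30 k0 [(z1,[y1,y1,z2]),(z1,[y2,y1,z1,z1])],.contra [z1,
    z2,y2],.ref k29 k0 [(z1,[y1,y2,z4]),(z1,[y2,y1,y1,z3])],.contra [z1,z2],.ref k31 k1 [(z1,[z1,z3]),(z1,[y1,z0,y3,
    z3])]],
    .base (.leafM k2 [k1,k2,k3,k4,k0] [(z1,[y1,z0,z1])] []),
    .base (.spec k4 true k2 [(z1,[z0,z0,z1]),(z1,[z1,y2,y2,z2])]),
    .base (.leafM k0 [k1,k2,k3,k4,k0] [(z1,[y1,z1,z1])] [])]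

theorem hB5_27_2 : blkB [0, 0, 1, 0, 1] [(0, 2)] sp5 hS5_27 (pcls (n := 5) [0, 0, 1, 0, 1]) hD5_27 46 2 hN5_27_2 = true := by
  decide +kernel

/-- nodes 36 to 45 -/
noncomputable def hN5_27_3 : List HM :=
  [.base (.leafM k1 [k0,k1,k3] [] [(k2,k4,z1,[y1,z0,z1]),(k4,k2,z1,[y1,z0,z1])]),
    .base (.leafM k0 [k4,k0,k1,k2,k3] [(z8,[z1,y2,y1,y8,z8])] []),
    .base (.spec k8 true k2 [(z1,[z0,z0,z0,z1]),(z12,[z1,y4,y1,y24,z24])]),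
    .lp (nat_lit 257) [(nat_lit 278),(nat_lit 352),(nat_lit 210),(nat_lit 210),(nat_lit 210)] [k37,k37,k0,k0,k71,k71,
    k115,k27,k67,k75] k0 [[k0,k0,k0,k68,k0,k0,k68,k68,k0,k0],[k0,k0,k0,(nat_lit 230),k0,k0,k0,k0,k0,k0],
    [(nat_lit 230),k68,k0,k0,k0,k0,k0,k0,k0,k0],[k0,k0,k0,k0,k0,k0,k0,k0,k0,k0],[k0,k0,k0,k0,k0,k0,k0,k0,k0,k0],[k0,
    k0,k0,k0,k0,k0,k0,k0,k0,k136],[k0,k68,k0,k0,k0,k0,k0,k0,k0,k0],[k0,k68,k0,k0,k0,k0,k0,k0,k0,k0],[k0,k0,k0,k0,k136,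
    k0,k0,k0,k0,k0],[k0,k0,k0,k0,k0,k0,k0,k0,k136,k0]] (nat_lit 840) k8
    [[(k1,k142),(k8,(nat_lit 248)),(k7,(nat_lit 288)),(k4,(nat_lit 380))],[(k6,k132),(k9,k172),(k2,(nat_lit 247)),(k0,
    (nat_lit 278)),(k3,(nat_lit 315)),(k5,(nat_lit 474))],[(k2,k122),(k6,(nat_lit 305)),(k0,(nat_lit 315)),(k9,
    (nat_lit 345)),(k5,(nat_lit 349)),(k3,(nat_lit 352))],[(k3,k122),(k6,(nat_lit 237)),(k0,(nat_lit 247)),(k9,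
    (nat_lit 277)),(k5,(nat_lit 281)),(k2,(nat_lit 352))],[(k6,k166),(k9,(nat_lit 206)),(k5,(nat_lit 210)),(k2,
    (nat_lit 281)),(k3,(nat_lit 349)),(k0,(nat_lit 474))],[(k4,(nat_lit 210)),(k8,(nat_lit 214)),(k7,(nat_lit 254)),
    (k1,(nat_lit 380))],[(k8,k122),(k4,(nat_lit 254)),(k1,(nat_lit 288)),(k7,(nat_lit 298))],[(k6,k122),(k0,k132),(k9,
    k162),(k5,k166),(k2,(nat_lit 237)),(k3,(nat_lit 305))],[(k6,k162),(k0,k172),(k9,(nat_lit 202)),(k5,(nat_lit 206)),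
    (k2,(nat_lit 277)),(k3,(nat_lit 345))],[(k7,k122),(k4,(nat_lit 214)),(k1,(nat_lit 248)),(k8,(nat_lit 354))]]
    [[k2,k1,k0,k0,k0],[k2,k2,k0,k0,k0],[k2,k0,k0,k2,k0],[k2,k0,k0,k1,k1],[k1,k0,k0,k2,k1],[k1,k0,k0,k1,k2],[k0,k3,k0,
    k0,k0],[k0,k4,k0,k0,k0],[k0,k5,k0,k0,k0],[k0,k6,k0,k0,k0],[k0,k2,k0,k1,k1],[k0,k1,k0,k1,k1],[k0,k0,k2,k1,k1],[k0,
    k0,k1,k2,k1],[k0,k0,k1,k1,k2],[k0,k0,k0,k3,k1],[k0,k0,k0,k2,k2]]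
    [.contra [z1,z1,y1],.contra [z1,z2,y2],.contra [z1,y1,z1],.contra [z2,y2,z2,z3,y2],.ref k37 k0 [(z1,[z2,y5,z4,z12,
    y4]),(z1,[y2,z1,z0,y4,z4]),(z1,[y2,z1,y4,y4,z4])],.contra [z4,y2,z4,z5,y4],.contra [y1,z0,z2,y4,z4],.contra [y1,
    z0,z2,y4,z4],.contra [y1,z0,z2,y4,z4],.contra [y1,z0,z2,y4,z4],.contra [z1,z0,z0,z1,y1],.contra [y2,z0,z0,y1,z2],
    .contra [z1,z1,z0,y3,z1],.ref k38 k0 [(z1,[z2,y5,z4,z14,y4]),(z1,[y2,y1,z2,y2,z4]),(z1,[y2,y1,y4,y2,z4])],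
    .contra [z2,z1,z1,y2],.contra [y1,z4,y3,y3,z3],.contra [y1,z2,y2,y2,z2]],
    .base (.leafM k0 [k2,k3,k4,k0,k1] [(z3,[y1,y1,z0,z3])] []),
    .base (.leafM k0 [k4,k0,k1,k2,k3] [(z1,[z1])] []),
    .base (.leafM k0 [k0,k1,k4] [] [(k2,k3,z3,[y1,y1,z0,z3]),(k3,k2,z3,[y1,y1,z0,z3])]),
    .base (.spec k8 true k2 [(z1,[z0,z0,z1]),(z3,[z1,y1,y3,z3])]),
    .lp (nat_lit 257) [(nat_lit 1246),(nat_lit 896),(nat_lit 1218),(nat_lit 546),(nat_lit 1134)] [k145,k145,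
    (nat_lit 320),(nat_lit 320),k159,k159,(nat_lit 526),(nat_lit 464),k0,(nat_lit 402)] k0 [[k0,k0,k0,k0,k0,k0,k112,
    k112,k0,k0],[k0,k0,k0,(nat_lit 336),k0,k0,k0,k0,k0,k0],[(nat_lit 336),k0,k0,k0,k0,k0,k0,k0,k0,k0],[k0,k0,k0,k0,k0,
    k0,k168,k168,k0,k0],[k0,k0,k0,k0,k0,(nat_lit 672),k0,k0,k0,k0],[k0,k0,k0,k0,k0,k0,k0,k0,k0,(nat_lit 588)],[k0,
    k112,k168,k0,k0,k0,k0,k0,k0,k0],[k0,k112,k168,k0,k0,k0,k0,k0,k0,k0],[k0,k0,k0,k0,(nat_lit 588),k0,k0,k0,k0,k0],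
    [k0,k0,k0,k0,k0,k0,k0,k0,k0,k0]] (nat_lit 3360) k8
    [[(k7,(nat_lit 927)),(k1,(nat_lit 1246)),(k8,(nat_lit 1391)),(k4,(nat_lit 1820))],[(k6,(nat_lit 753)),(k9,
    (nat_lit 877)),(k2,(nat_lit 1071)),(k3,(nat_lit 1071)),(k0,(nat_lit 1246)),(k5,(nat_lit 1568))],[(k2,
    (nat_lit 560)),(k6,(nat_lit 802)),(k3,(nat_lit 896)),(k9,(nat_lit 926)),(k5,(nat_lit 1057)),(k0,(nat_lit 1071))],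
    [(k3,(nat_lit 560)),(k6,(nat_lit 858)),(k2,(nat_lit 896)),(k9,(nat_lit 982)),(k5,(nat_lit 1057)),(k0,
    (nat_lit 1071))],[(k6,(nat_lit 683)),(k9,(nat_lit 807)),(k2,(nat_lit 1057)),(k3,(nat_lit 1057)),(k5,
    (nat_lit 1218)),(k0,(nat_lit 1568))],[(k4,(nat_lit 546)),(k7,(nat_lit 913)),(k8,(nat_lit 1377)),(k1,
    (nat_lit 1820))],[(k8,(nat_lit 484)),(k4,(nat_lit 913)),(k1,(nat_lit 927)),(k7,(nat_lit 1280))],[(k6,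
    (nat_lit 484)),(k9,(nat_lit 608)),(k5,(nat_lit 683)),(k0,(nat_lit 753)),(k3,(nat_lit 802)),(k2,(nat_lit 858))],
    [(k6,(nat_lit 608)),(k9,(nat_lit 732)),(k5,(nat_lit 807)),(k0,(nat_lit 877)),(k3,(nat_lit 926)),(k2,
    (nat_lit 982))],[(k7,(nat_lit 484)),(k4,(nat_lit 1377)),(k1,(nat_lit 1391)),(k8,(nat_lit 1536))]]
    [[k1,k1,k0,k1,k0],[k1,k0,k1,k2,k0],[k1,k0,k0,k2,k1],[k0,k3,k0,k0,k0],[k0,k4,k0,k0,k0],[k0,k5,k0,k0,k0],[k0,k2,k2,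
    k0,k0],[k0,k2,k1,k1,k0],[k0,k2,k0,k1,k1],[k0,k1,k2,k0,k0],[k0,k1,k1,k1,k0],[k0,k1,k0,k2,k0],[k0,k1,k0,k1,k1],[k0,
    k0,k2,k2,k0],[k0,k0,k2,k1,k1],[k0,k0,k1,k2,k1],[k0,k0,k1,k1,k2],[k0,k0,k0,k3,k1],[k0,k0,k0,k2,k2],[k0,k0,k0,k3,
    k3]]
    [.ref k33 k1 [(z1,[z1,z0,z1,y1]),(z1,[z0,z1])],.contra [z1,z0,y1],.ref k34 k1 [(z1,[z1,z2,z2,y2]),(z1,[z0,z1])],
    .contra [y1,z2,y4,z4],.contra [y1,z2,y4,z4],.contra [y1,z2,y4,z4],.ref k35 k1 [(z2,[y1,z2,z2]),(z1,[z0,z1])],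
    .ref k36 k1 [(z1,[y1,z1,z0,z1]),(z1,[z0,z1])],.contra [z1,z0,z1,y1],.ref k39 k1 [(z1,[y1,z1,z2]),(z1,[z0,z1])],
    .ref k40 k0 [(z1,[z3,y1,z2,y2]),(z1,[z0,z1,y2,z2])],.contra [y2,z2,y3,z4],.contra [y2,z0,y1,z2],.ref k41 k0 [(z2,
    [z1]),(z1,[z0,z1,y2,z2])],.ref k42 k0 [(z2,[z3,z1,z1,y1]),(z1,[z0,z1,y2,z2])],.ref k43 k0 [(z1,[z3,z1,z1,y1]),(z1,
    [z0,z1,y2,z2])],.ref k42 k0 [(z1,[z3,z2,z2,y2]),(z1,[z0,z1,y2,z2])],.contra [y1,z1,y3,z3],.contra [y1,z0,y2,z2],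
    .contra [z1,z1,z1,y1]],
    .lp k0 [(nat_lit 1406),(nat_lit 548),(nat_lit 1406),(nat_lit 798),(nat_lit 854)] [k0,k0,(nat_lit 429),
    (nat_lit 429),k0,k0,(nat_lit 438),k170,(nat_lit 276),(nat_lit 276)] k0 [[k0,k0,k0,k0,k0,k0,k28,k72,k0,k0],[k0,k0,
    k0,k68,k0,k0,k0,k0,k0,k0],[k68,k0,k0,k0,k0,k0,k0,k40,k0,k0],[k0,k0,k0,k0,k0,k0,k0,k72,k0,k0],[k0,k0,k0,k0,k0,
    (nat_lit 592),k0,k0,k0,k0],[k0,k0,k0,k0,k0,k0,k0,k0,k0,(nat_lit 480)],[k0,k72,k72,k40,k0,k0,k0,k0,k0,k0],[k0,k28,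
    k0,k0,k0,k0,k0,k0,k0,k0],[k0,k0,k0,k0,(nat_lit 480),k0,k0,k0,k0,k0],[k0,k0,k0,k0,k0,k0,k0,k0,k0,
    k0]] (nat_lit 3360) k8
    [[(k8,(nat_lit 1130)),(k7,(nat_lit 1236)),(k1,(nat_lit 1406)),(k4,(nat_lit 1886))],[(k6,(nat_lit 896)),(k2,
    (nat_lit 977)),(k3,(nat_lit 977)),(k9,(nat_lit 1102)),(k0,(nat_lit 1406)),(k5,(nat_lit 1474))],[(k2,
    (nat_lit 480)),(k3,(nat_lit 548)),(k6,(nat_lit 567)),(k9,(nat_lit 773)),(k0,(nat_lit 977)),(k5,(nat_lit 977))],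
    [(k3,(nat_lit 480)),(k6,(nat_lit 499)),(k2,(nat_lit 548)),(k9,(nat_lit 773)),(k0,(nat_lit 977)),(k5,
    (nat_lit 977))],[(k6,(nat_lit 896)),(k2,(nat_lit 977)),(k3,(nat_lit 977)),(k9,(nat_lit 1170)),(k5,(nat_lit 1406)),
    (k0,(nat_lit 1474))],[(k4,(nat_lit 814)),(k8,(nat_lit 1130)),(k7,(nat_lit 1236)),(k1,(nat_lit 1886))],[(k8,
    (nat_lit 480)),(k1,(nat_lit 1236)),(k4,(nat_lit 1236)),(k7,(nat_lit 1658))],[(k2,(nat_lit 499)),(k6,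
    (nat_lit 530)),(k3,(nat_lit 567)),(k9,(nat_lit 692)),(k0,(nat_lit 896)),(k5,(nat_lit 896))],[(k6,(nat_lit 692)),
    (k2,(nat_lit 773)),(k3,(nat_lit 773)),(k9,(nat_lit 854)),(k0,(nat_lit 1102)),(k5,(nat_lit 1170))],[(k7,
    (nat_lit 480)),(k8,(nat_lit 854)),(k1,(nat_lit 1130)),(k4,(nat_lit 1130))]]
    [[k1,k1,k0,k1,k0],[k1,k2,k0,k1,k0],[k1,k0,k0,k2,k1],[k1,k1,k0,k0,k1],[k0,k3,k0,k0,k0],[k0,k4,k0,k0,k0],[k0,k5,k0,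
    k0,k0],[k0,k6,k0,k0,k0],[k0,k4,k0,k1,k1],[k0,k3,k0,k1,k1],[k0,k2,k2,k0,k0],[k0,k2,k1,k1,k0],[k0,k2,k0,k2,k0],[k0,
    k2,k0,k1,k1],[k0,k2,k0,k0,k2],[k0,k1,k2,k0,k0],[k0,k1,k1,k1,k0],[k0,k1,k1,k0,k1],[k0,k1,k0,k2,k0],[k0,k1,k0,k1,
    k1],[k0,k1,k0,k2,k2],[k0,k1,k0,k0,k2],[k0,k0,k1,k2,k1],[k0,k0,k0,k2,k2],[k0,k0,k0,k1,k3]]
    [.ref k0 k1 [(z1,[z1,z1,y1])],.ref k1 k1 [(z1,[z1,z2,y2])],.ref k1 k0 [(z1,[y1,z1])],.ref k2 k1 [(z1,[z1,z1,y1])],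
    .ref k3 k1 [(z1,[z1])],.ref k4 k1 [(z2,[z1])],.ref k21 k1 [(z1,[z1])],.ref k22 k1 [(z2,[z1])],.ref k22 k1 [(z1,
    [z1,z1,y1])],.ref k4 k1 [(z1,[z1,z1,y1])],.ref k23 k0 [(z2,[z1,z2,y2])],.ref k24 k0 [(z1,[z1,z2,y2])],.contra [y1,
    y2,z2],.contra [z1,z1,y1],.contra [y1,y2,z2],.ref k32 k0 [(z1,[z1,z1,y1])],.ref k2 k0 [(z1,[z1,z1,y1])],
    .ref k0 k0 [(z1,[z1,z1,y1])],.contra [y1,y2,z2],.contra [y2,y1,z2],.contra [y1,y2,z2],.contra [y1,y2,z2],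
    .ref k24 k1 [(z1,[y1,z1])],.contra [y1,y2,z2],.ref k44 k1 [(z1,[y1,y1,z1])]]]

theorem hB5_27_3 : blkB [0, 0, 1, 0, 1] [(0, 2)] sp5 hS5_27 (pcls (n := 5) [0, 0, 1, 0, 1]) hD5_27 46 3 hN5_27_3 = true := by
  decide +kernel

/-- equations of the nodes for the classes `0 0 1 0 2 2`, active pairs `0-4` -/
noncomputable def hD6_61 : List (List (List Eqn)) :=
  [[[([z1,z0,z0,z0,z0,z1],z1),([z0,z1,z0,z0,z0,y2],z0),([z0,z0,z1,z0,z0,z1],z1)],[([z0,z1,z0,z0,z0,y2],z0),([z0,z0,z1,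
    z0,z0,z1],z1)],[([z0,z1,z0,z2,z0,z2],z2)],[([z0,z1,z0,z1,z0,z0],z1),([z0,z0,z2,z0,z0,z0],z1)],[([z0,z1,z0,z1,z0,
    z0],z1),([z0,z0,z3,z0,z0,z0],z1)],[([z0,z1,z0,z1,z0,z0],z1)],[([z1,z0,z0,z0,z0,z1],z2),([z0,z1,z0,z0,z0,y2],z0),
    ([z0,z0,z1,z0,z0,z1],z1)],[([z0,z1,z0,z0,y2,z0],z0),([z0,z0,z1,z0,z1,z0],z1),([z0,z0,z0,z3,z3,z0],z1)],[([z0,z1,
    z0,z0,y2,z0],z0),([z0,z0,z1,z0,z1,z0],z1)],[([z2,z0,z0,z0,z0,z0],z3),([z0,z1,z0,z1,z0,z0],z1),([z0,z0,z2,z0,z0,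
    z0],z1)],[([z3,z0,z0,z0,z0,z0],z4),([z0,z1,z0,z1,z0,z0],z1),([z0,z0,z3,z0,z0,z0],z1)],[([z1,z0,z0,z0,z0,z1],z2),
    ([z0,z1,z0,z1,z0,z0],z1)]],
    [[([z0,z1,z0,z1,y1,z1],z1)],[]]]

/-- symmetries -/
noncomputable def hS6_61 : List (Bool × ℕ × List ℕ) :=
  [(false,k0,[k0,k1,k2,k3,k4,k5])]

/-- nodes 0 to 11 -/
noncomputable def hN6_61_0 : List HM :=
  [.lp k0 [k90,k100,k50,k80,k90,k60] [k18,k18,k20,k6,k38,k38,k12,k34,k36,k0,k33,k33] k0 [[k0,k0,k0,k40,k0,k0,k0,k0,k0,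
    k0,k0,k0],[k0,k0,k0,k0,k0,k0,k0,k60,k0,k0,k0,k0],[k0,k40,k0,k0,k0,k0,k10,k0,k0,k0,k0,k0],[k0,k0,k0,k0,k0,k0,k40,
    k0,k0,k0,k0,k0],[k0,k0,k0,k0,k0,k0,k0,k0,k0,k0,k0,k0],[k0,k0,k0,k0,k0,k0,k0,k0,k0,k0,k0,k0],[k60,k0,k0,k0,k0,k0,
    k0,k0,k0,k0,k0,k0],[k0,k0,k40,k10,k0,k0,k0,k0,k0,k0,k0,k0],[k0,k0,k0,k0,k0,k0,k0,k0,k0,k0,k0,k0],[k0,k0,k0,k0,k0,
    k0,k0,k0,k0,k0,k0,k0],[k0,k0,k0,k0,k0,k0,k0,k0,k0,k0,k0,k0],[k0,k0,k0,k0,k0,k0,k0,k0,k0,k0,k0,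
    k0]] (nat_lit 240) k6
    [[(k8,k72),(k10,k75),(k11,k75),(k1,k90)],[(k2,k48),(k5,k70),(k0,k90),(k6,k96),(k3,k102),(k9,k168)],[(k6,k48),(k2,
    k100),(k0,k102),(k3,k114),(k9,k120),(k5,k122)],[(k0,k48),(k5,k68),(k2,k86),(k9,k96),(k3,k100),(k6,k134)],[(k9,
    k48),(k5,k50),(k2,k68),(k0,k70),(k6,k86),(k3,k122)],[(k4,k50),(k7,k54)],[(k4,k54),(k7,k58)],[(k3,k48),(k5,k86),
    (k0,k96),(k6,k102),(k9,k114),(k2,k134)],[(k5,k48),(k2,k96),(k6,k114),(k3,k120),(k9,k126),(k0,k168)],[(k8,k54),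
    (k10,k57),(k11,k57),(k1,k72)],[(k8,k57),(k10,k60),(k11,k60),(k1,k75)],[(k8,k57),(k10,k60),(k11,k60),(k1,k75)]]
    [[k0,k1,k1,k1,k0,k0],[k0,k0,k4,k0,k0,k0],[k0,k0,k2,k0,k2,k0],[k0,k0,k0,k0,k0,k3]]
    [.contra [z1,z1,z0,z0,z1,y1],.contra [y1,z0,z2,z4],.contra [z1,z4,z1,y2,y2],.contra [y1,z1,y1,y1,y1,z1]],
    .lp k0 [k48,k54,k30,k42,k72,k36] [k12,k28,k17,k17,k29,k29,k17,k29,k16,k0,k26,k26] k0 [[k0,k0,k0,k30,k0,k0,k0,k0,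
    k0,k0,k0,k0],[k0,k0,k0,k0,k0,k0,k0,k24,k0,k0,k0,k0],[k0,k30,k0,k0,k0,k0,k12,k0,k0,k0,k0,k0],[k0,k0,k0,k0,k0,k0,
    k30,k0,k0,k0,k0,k0],[k0,k0,k0,k0,k0,k0,k0,k0,k0,k0,k0,k0],[k0,k0,k0,k0,k0,k0,k0,k0,k0,k0,k0,k0],[k24,k0,k0,k0,k0,
    k0,k0,k0,k0,k0,k0,k0],[k0,k0,k30,k12,k0,k0,k0,k0,k0,k0,k0,k0],[k0,k0,k0,k0,k0,k0,k0,k0,k0,k0,k0,k12],[k0,k0,k0,k0,
    k0,k0,k0,k0,k0,k0,k0,k0],[k0,k0,k0,k0,k0,k0,k0,k0,k0,k12,k0,k0],[k0,k0,k0,k0,k0,k0,k0,k0,k0,k0,k0,k0]] k144 k6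
    [[(k1,k32),(k10,k34),(k8,k44),(k11,k46)],[(k2,k29),(k5,k47),(k3,k59),(k6,k59),(k0,k64),(k9,k100)],[(k6,k30),(k2,
    k54),(k3,k54),(k0,k59),(k9,k71),(k5,k72)],[(k0,k29),(k5,k42),(k2,k54),(k3,k54),(k9,k59),(k6,k84)],[(k9,k29),(k5,
    k30),(k2,k42),(k0,k47),(k6,k54),(k3,k72)],[(k4,k30),(k7,k30)],[(k4,k30),(k7,k30)],[(k3,k30),(k5,k54),(k6,k54),(k0,
    k59),(k9,k71),(k2,k84)],[(k5,k29),(k2,k59),(k3,k71),(k6,k71),(k9,k88),(k0,k100)],[(k10,k34),(k1,k44),(k11,k46),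
    (k8,k56)],[(k10,k36),(k11,k36),(k1,k46),(k8,k46)],[(k1,k34),(k8,k34),(k10,k36),(k11,k36)]]
    [[k2,k1,k0,k0,k0,k0],[k0,k1,k1,k1,k0,k0],[k0,k0,k4,k0,k0,k0],[k0,k0,k0,k0,k0,k3]]
    [.ref k0 k0 [(z2,[z1,y1]),(z1,[z0,z1]),(z1,[z0,z0,z1])],.contra [z1,z0,z1,z1,y1],.contra [y1,z2,z4],.contra [y1,
    y1,z0,y1,z1]],
    .lp k0 [k114,k82,k62,k60,k80,k80] [k0,k2,k34,k0,k27,k27,k22,k34,k18,k18,k18,k18] k0 [[k0,k0,k0,k34,k0,k0,k0,k0,k0,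
    k0,k0,k0],[k0,k0,k0,k0,k0,k0,k0,k46,k0,k0,k0,k0],[k0,k34,k0,k0,k0,k0,k0,k0,k0,k0,k0,k0],[k0,k0,k0,k0,k0,k0,k0,k0,
    k0,k0,k0,k0],[k0,k0,k0,k0,k0,k0,k0,k0,k0,k0,k0,k0],[k0,k0,k0,k0,k0,k0,k0,k0,k0,k0,k0,k0],[k46,k0,k0,k0,k0,k0,k0,
    k0,k0,k0,k0,k0],[k0,k0,k0,k0,k0,k0,k0,k0,k0,k0,k0,k0],[k0,k0,k0,k0,k0,k0,k0,k0,k0,k0,k0,k0],[k0,k0,k0,k0,k0,k0,k0,
    k0,k0,k0,k0,k0],[k0,k0,k0,k0,k0,k0,k0,k0,k0,k0,k0,k0],[k0,k0,k0,k0,k0,k0,k0,k0,k0,k0,k0,k0]] (nat_lit 240) k6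
    [[(k8,k96),(k10,k96),(k11,k96),(k1,k112)],[(k2,k48),(k5,k89),(k6,k94),(k0,k116),(k3,k116),(k9,k144)],[(k6,k48),
    (k2,k82),(k9,k98),(k0,k116),(k3,k116),(k5,k123)],[(k0,k48),(k2,k48),(k5,k55),(k6,k60),(k9,k64),(k3,k82)],[(k2,
    k55),(k5,k62),(k6,k67),(k9,k71),(k0,k89),(k3,k123)],[(k7,k55),(k4,k62)],[(k7,k48),(k4,k55)],[(k3,k48),(k2,k60),
    (k5,k67),(k6,k72),(k9,k76),(k0,k94)],[(k2,k64),(k5,k71),(k6,k76),(k9,k80),(k3,k98),(k0,k144)],[(k8,k80),(k10,k80),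
    (k11,k80),(k1,k96)],[(k8,k80),(k10,k80),(k11,k80),(k1,k96)],[(k8,k80),(k10,k80),(k11,k80),(k1,k96)]]
    [[k0,k2,k0,k2,k0,k0],[k0,k1,k1,k1,k0,k0],[k0,k1,k0,k2,k0,k0]]
    [.ref k1 k0 [(z1,[z1,y1]),(z2,[y1,z0,y2,z2])],.contra [y1,z0,y1,z1],.contra [y1,z1]],
    .base (.leafM k9 [k3,k5,k1,k2] [(z1,[y2,y1,y2,z2]),(z1,[z0,z1]),(z1,[z1])] [(k4,k0,z1,[z0,z0,z1]),(k0,k4,z1,[z0,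
    z0,z1])]),
    .base (.leafM k8 [k3,k5,k1,k2] [(z1,[y3,y1,y3,z3]),(z1,[z0,z1]),(z1,[z1])] [(k4,k0,z1,[z0,z0,z1]),(k0,k4,z1,[z0,
    z0,z1])]),
    .lp k0 [k22,k18,k10,k14,k18,k12] [k0,k0,k2,k2,k6,k6,k2,k6,k2,k2,k5,k5] k0 [[k0,k0,k0,k10,k0,k0,k0,k0,k0,k0,k0,k0],
    [k0,k0,k0,k0,k0,k0,k0,k8,k0,k0,k0,k0],[k0,k10,k0,k0,k0,k0,k4,k0,k0,k0,k0,k0],[k0,k0,k0,k0,k0,k0,k0,k0,k0,k0,k0,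
    k0],[k0,k0,k0,k0,k0,k0,k0,k0,k0,k0,k0,k0],[k0,k0,k0,k0,k0,k0,k0,k0,k0,k0,k0,k0],[k8,k0,k0,k0,k0,k0,k0,k0,k0,k0,k0,
    k0],[k0,k0,k0,k4,k0,k0,k0,k0,k0,k0,k0,k0],[k0,k0,k0,k0,k0,k0,k0,k0,k0,k0,k0,k0],[k0,k0,k0,k0,k0,k0,k0,k0,k0,k0,k0,
    k0],[k0,k0,k0,k0,k0,k0,k0,k0,k0,k0,k0,k0],[k0,k0,k0,k0,k0,k0,k0,k0,k0,k0,k0,k0]] k48 k6
    [[(k10,k17),(k11,k17),(k8,k20),(k1,k22)],[(k2,k10),(k5,k16),(k3,k20),(k6,k20),(k0,k22),(k9,k28)],[(k6,k10),(k2,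
    k18),(k3,k18),(k9,k18),(k0,k20),(k5,k24)],[(k0,k10),(k5,k14),(k9,k14),(k2,k18),(k3,k18),(k6,k18)],[(k5,k10),(k2,
    k14),(k9,k14),(k0,k16),(k6,k18),(k3,k24)],[(k4,k10),(k7,k10)],[(k4,k10),(k7,k10)],[(k3,k10),(k2,k18),(k5,k18),(k6,
    k18),(k9,k18),(k0,k20)],[(k2,k14),(k5,k14),(k3,k18),(k6,k18),(k9,k18),(k0,k28)],[(k10,k15),(k11,k15),(k8,k18),(k1,
    k20)],[(k10,k12),(k11,k12),(k8,k15),(k1,k17)],[(k10,k12),(k11,k12),(k8,k15),(k1,k17)]]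
    [[k0,k1,k1,k1,k0,k0],[k0,k1,k0,k2,k0,k0],[k0,k0,k4,k0,k0,k0],[k0,k0,k0,k0,k0,k3]]
    [.contra [z1,y1],.contra [z1,y1],.ref k3 k0 [(z1,[z0,z1]),(z2,[z1])],.ref k4 k0 [(z1,[z0,z1]),(z1,[y1,y3,y3,
    z3])]],
    .lp k0 [k48,k54,k30,k42,k72,k36] [k12,k28,k17,k17,k29,k29,k17,k29,k16,k0,k26,k26] k0 [[k0,k0,k0,k30,k0,k0,k0,k0,
    k0,k0,k0,k0],[k0,k0,k0,k0,k0,k0,k0,k24,k0,k0,k0,k0],[k0,k30,k0,k0,k0,k0,k12,k0,k0,k0,k0,k0],[k0,k0,k0,k0,k0,k0,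
    k30,k0,k0,k0,k0,k0],[k0,k0,k0,k0,k0,k0,k0,k0,k0,k0,k0,k0],[k0,k0,k0,k0,k0,k0,k0,k0,k0,k0,k0,k0],[k24,k0,k0,k0,k0,
    k0,k0,k0,k0,k0,k0,k0],[k0,k0,k30,k12,k0,k0,k0,k0,k0,k0,k0,k0],[k0,k0,k0,k0,k0,k0,k0,k0,k0,k0,k0,k12],[k0,k0,k0,k0,
    k0,k0,k0,k0,k0,k0,k0,k0],[k0,k0,k0,k0,k0,k0,k0,k0,k0,k12,k0,k0],[k0,k0,k0,k0,k0,k0,k0,k0,k0,k0,k0,k0]] k144 k6
    [[(k1,k32),(k10,k34),(k8,k44),(k11,k46)],[(k2,k29),(k5,k47),(k3,k59),(k6,k59),(k0,k64),(k9,k100)],[(k6,k30),(k2,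
    k54),(k3,k54),(k0,k59),(k9,k71),(k5,k72)],[(k0,k29),(k5,k42),(k2,k54),(k3,k54),(k9,k59),(k6,k84)],[(k9,k29),(k5,
    k30),(k2,k42),(k0,k47),(k6,k54),(k3,k72)],[(k4,k30),(k7,k30)],[(k4,k30),(k7,k30)],[(k3,k30),(k5,k54),(k6,k54),(k0,
    k59),(k9,k71),(k2,k84)],[(k5,k29),(k2,k59),(k3,k71),(k6,k71),(k9,k88),(k0,k100)],[(k10,k34),(k1,k44),(k11,k46),
    (k8,k56)],[(k10,k36),(k11,k36),(k1,k46),(k8,k46)],[(k1,k34),(k8,k34),(k10,k36),(k11,k36)]]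
    [[k2,k1,k0,k0,k0,k0],[k0,k1,k1,k1,k0,k0],[k0,k0,k4,k0,k0,k0],[k0,k0,k0,k0,k0,k3]]
    [.contra [z2,y2,y1],.contra [z1,z0,z0,z1,z1,y1],.contra [y1,z0,z2,z4],.contra [y1,z0,y1,z0,y1,z1]],
    .lp k0 [k114,k82,k62,k60,k80,k80] [k0,k2,k34,k0,k27,k27,k22,k34,k18,k18,k18,k18] k0 [[k0,k0,k0,k34,k0,k0,k0,k0,k0,
    k0,k0,k0],[k0,k0,k0,k0,k0,k0,k0,k46,k0,k0,k0,k0],[k0,k34,k0,k0,k0,k0,k0,k0,k0,k0,k0,k0],[k0,k0,k0,k0,k0,k0,k0,k0,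
    k0,k0,k0,k0],[k0,k0,k0,k0,k0,k0,k0,k0,k0,k0,k0,k0],[k0,k0,k0,k0,k0,k0,k0,k0,k0,k0,k0,k0],[k46,k0,k0,k0,k0,k0,k0,
    k0,k0,k0,k0,k0],[k0,k0,k0,k0,k0,k0,k0,k0,k0,k0,k0,k0],[k0,k0,k0,k0,k0,k0,k0,k0,k0,k0,k0,k0],[k0,k0,k0,k0,k0,k0,k0,
    k0,k0,k0,k0,k0],[k0,k0,k0,k0,k0,k0,k0,k0,k0,k0,k0,k0],[k0,k0,k0,k0,k0,k0,k0,k0,k0,k0,k0,k0]] (nat_lit 240) k6
    [[(k8,k96),(k10,k96),(k11,k96),(k1,k112)],[(k2,k48),(k5,k89),(k6,k94),(k0,k116),(k3,k116),(k9,k144)],[(k6,k48),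
    (k2,k82),(k9,k98),(k0,k116),(k3,k116),(k5,k123)],[(k0,k48),(k2,k48),(k5,k55),(k6,k60),(k9,k64),(k3,k82)],[(k2,
    k55),(k5,k62),(k6,k67),(k9,k71),(k0,k89),(k3,k123)],[(k7,k55),(k4,k62)],[(k7,k48),(k4,k55)],[(k3,k48),(k2,k60),
    (k5,k67),(k6,k72),(k9,k76),(k0,k94)],[(k2,k64),(k5,k71),(k6,k76),(k9,k80),(k3,k98),(k0,k144)],[(k8,k80),(k10,k80),
    (k11,k80),(k1,k96)],[(k8,k80),(k10,k80),(k11,k80),(k1,k96)],[(k8,k80),(k10,k80),(k11,k80),(k1,k96)]]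
    [[k0,k2,k0,k2,k0,k0],[k0,k1,k1,k1,k0,k0],[k0,k1,k0,k2,k0,k0]]
    [.contra [y1,z2,z1,z1],.contra [z1,y3,y3,y1,y2,z2],.contra [z1,y5,y4,y2,y4,z4]],
    .lp k0 [k40,k40,k30,k35,k60,k30] [k14,k24,k20,k18,k24,k24,k16,k27,k18,k0,k24,k24] k0 [[k0,k0,k0,k20,k0,k0,k0,k0,
    k0,k0,k0,k0],[k0,k0,k0,k0,k0,k0,k0,k20,k0,k0,k0,k0],[k0,k20,k0,k0,k0,k0,k0,k0,k0,k0,k0,k0],[k0,k0,k0,k0,k0,k0,k30,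
    k0,k0,k0,k0,k0],[k0,k0,k0,k0,k0,k0,k0,k0,k0,k0,k0,k0],[k0,k0,k0,k0,k0,k0,k0,k0,k0,k0,k0,k0],[k20,k0,k0,k0,k0,k0,
    k0,k0,k0,k0,k0,k0],[k0,k0,k30,k0,k0,k0,k0,k0,k0,k0,k0,k0],[k0,k0,k0,k0,k0,k0,k0,k0,k0,k0,k0,k10],[k0,k0,k0,k0,k0,
    k0,k0,k0,k0,k0,k0,k0],[k0,k0,k0,k0,k0,k0,k0,k0,k0,k10,k0,k0],[k0,k0,k0,k0,k0,k0,k0,k0,k0,k0,k0,k0]] k120 k6
    [[(k1,k30),(k10,k30),(k8,k36),(k11,k40)],[(k2,k24),(k5,k40),(k3,k46),(k6,k48),(k0,k50),(k9,k84)],[(k6,k24),(k2,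
    k40),(k3,k42),(k0,k46),(k5,k56),(k9,k60)],[(k0,k24),(k5,k34),(k2,k38),(k3,k40),(k9,k58),(k6,k72)],[(k9,k24),(k5,
    k30),(k2,k34),(k6,k38),(k0,k40),(k3,k56)],[(k7,k27),(k4,k30)],[(k7,k24),(k4,k27)],[(k3,k24),(k5,k38),(k6,k46),(k0,
    k48),(k9,k62),(k2,k72)],[(k5,k24),(k2,k58),(k3,k60),(k6,k62),(k9,k78),(k0,k84)],[(k10,k26),(k1,k36),(k11,k36),(k8,
    k42)],[(k10,k30),(k11,k30),(k8,k36),(k1,k40)],[(k8,k26),(k1,k30),(k10,k30),(k11,k30)]]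
    [[k2,k1,k0,k0,k0,k0],[k0,k1,k1,k1,k0,k0],[k0,k2,k0,k2,k0,k0],[k0,k0,k0,k0,k0,k3]]
    [.contra [z2,y1,z0,y2],.contra [y1,z0,z0,y1,z1],.ref k6 k0 [(z2,[y1,z0,y2,z0,z2]),(z1,[z1,z1,z2,z2,y2]),(z2,[y1,
    z0,z0,y2,z2])],.ref k7 k0 [(z1,[z0,z1]),(z1,[z0,z0,z1]),(z1,[y1,y3,y3,y3,z3])]],
    .base (.leafM k9 [k3,k5,k1,k2] [(z1,[z0,y2,y1,y2,z2]),(z1,[z0,z0,z1]),(z1,[z0,z1])] [(k4,k0,z1,[z0,z0,z0,z1]),(k0,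
    k4,z1,[z0,z0,z0,z1])]),
    .base (.leafM k8 [k3,k5,k1,k2] [(z1,[z0,y3,y1,y3,z3]),(z1,[z0,z0,z1]),(z1,[z0,z1])] [(k4,k0,z1,[z0,z0,z0,z1]),(k0,
    k4,z1,[z0,z0,z0,z1])]),
    .lp k0 [k48,k54,k30,k42,k72,k36] [k12,k28,k17,k17,k29,k29,k17,k29,k16,k0,k26,k26] k0 [[k0,k0,k0,k30,k0,k0,k0,k0,
    k0,k0,k0,k0],[k0,k0,k0,k0,k0,k0,k0,k24,k0,k0,k0,k0],[k0,k30,k0,k0,k0,k0,k12,k0,k0,k0,k0,k0],[k0,k0,k0,k0,k0,k0,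
    k30,k0,k0,k0,k0,k0],[k0,k0,k0,k0,k0,k0,k0,k0,k0,k0,k0,k0],[k0,k0,k0,k0,k0,k0,k0,k0,k0,k0,k0,k0],[k24,k0,k0,k0,k0,
    k0,k0,k0,k0,k0,k0,k0],[k0,k0,k30,k12,k0,k0,k0,k0,k0,k0,k0,k0],[k0,k0,k0,k0,k0,k0,k0,k0,k0,k0,k0,k12],[k0,k0,k0,k0,
    k0,k0,k0,k0,k0,k0,k0,k0],[k0,k0,k0,k0,k0,k0,k0,k0,k0,k12,k0,k0],[k0,k0,k0,k0,k0,k0,k0,k0,k0,k0,k0,k0]] k144 k6
    [[(k1,k32),(k10,k34),(k8,k44),(k11,k46)],[(k2,k29),(k5,k47),(k3,k59),(k6,k59),(k0,k64),(k9,k100)],[(k6,k30),(k2,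
    k54),(k3,k54),(k0,k59),(k9,k71),(k5,k72)],[(k0,k29),(k5,k42),(k2,k54),(k3,k54),(k9,k59),(k6,k84)],[(k9,k29),(k5,
    k30),(k2,k42),(k0,k47),(k6,k54),(k3,k72)],[(k4,k30),(k7,k30)],[(k4,k30),(k7,k30)],[(k3,k30),(k5,k54),(k6,k54),(k0,
    k59),(k9,k71),(k2,k84)],[(k5,k29),(k2,k59),(k3,k71),(k6,k71),(k9,k88),(k0,k100)],[(k10,k34),(k1,k44),(k11,k46),
    (k8,k56)],[(k10,k36),(k11,k36),(k1,k46),(k8,k46)],[(k1,k34),(k8,k34),(k10,k36),(k11,k36)]]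
    [[k2,k1,k0,k0,k0,k0],[k0,k1,k1,k1,k0,k0],[k0,k0,k4,k0,k0,k0],[k0,k0,k0,k0,k0,k3]]
    [.contra [z1,y2,y2,y2,z2],.contra [z1,z0,y1],.ref k9 k0 [(z2,[z1,z4,z4,z4,y4]),(z1,[z0,z0,z1]),(z2,[z1])],
    .ref k10 k0 [(z1,[y1,z3]),(z1,[z0,z0,z1]),(z1,[y1,z0,y3,y3,z3])]]]

theorem hB6_61_0 : blkB [0, 0, 1, 0, 2, 2] [(0, 4)] sp6 hS6_61 (pcls (n := 6) [0, 0, 1, 0, 2, 2]) hD6_61 14 0 hN6_61_0 = true := by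
  decide +kernel

/-- nodes 12 to 13 -/
noncomputable def hN6_61_1 : List HM :=
  [.lp k0 [k30,k44,k24,k46,k55,k40] [k18,k18,k15,k7,k21,k21,k0,k20,k9,k2,k13,k13] k0 [[k0,k0,k0,k9,k0,k0,k0,k0,k0,k0,
    k0,k0],[k0,k0,k0,k0,k0,k0,k0,k35,k0,k0,k0,k0],[k0,k9,k0,k12,k0,k0,k0,k0,k0,k0,k0,k0],[k0,k0,k0,k0,k0,k0,k19,k0,k0,
    k0,k0,k0],[k0,k0,k0,k0,k0,k0,k0,k0,k0,k0,k0,k0],[k0,k0,k0,k0,k0,k0,k0,k0,k0,k0,k0,k0],[k35,k0,k0,k0,k0,k0,k0,k0,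
    k0,k0,k0,k0],[k0,k0,k19,k0,k0,k0,k0,k0,k0,k0,k0,k0],[k0,k0,k0,k0,k0,k0,k0,k0,k0,k0,k0,k20],[k0,k0,k0,k0,k0,k0,k0,
    k0,k0,k0,k0,k0],[k0,k0,k0,k0,k0,k0,k0,k0,k0,k20,k0,k0],[k0,k0,k0,k0,k0,k0,k0,k0,k0,k0,k0,k0]] k120 k6
    [[(k1,k30),(k10,k35),(k8,k39),(k11,k55)],[(k2,k24),(k5,k27),(k0,k30),(k3,k41),(k6,k48),(k9,k81)],[(k6,k24),(k0,
    k41),(k2,k44),(k5,k47),(k3,k52),(k9,k57)],[(k0,k24),(k2,k24),(k5,k30),(k3,k44),(k9,k49),(k6,k70)],[(k9,k24),(k0,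
    k27),(k2,k30),(k5,k36),(k6,k45),(k3,k47)],[(k4,k24),(k7,k25)],[(k4,k25),(k7,k26)],[(k3,k24),(k5,k45),(k0,k48),(k9,
    k64),(k6,k66),(k2,k70)],[(k5,k24),(k2,k49),(k3,k57),(k9,k62),(k6,k64),(k0,k81)],[(k10,k24),(k1,k39),(k11,k44),(k8,
    k48)],[(k10,k40),(k11,k40),(k8,k44),(k1,k55)],[(k8,k24),(k1,k35),(k10,k40),(k11,k40)]]
    [[k2,k1,k0,k0,k0,k0],[k2,k0,k2,k0,k0,k0],[k1,k0,k2,k0,k1,k0],[k0,k1,k2,k0,k0,k0],[k0,k1,k1,k1,k0,k0],[k0,k2,k0,k2,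
    k0,k0]]
    [.contra [z1,y2,y4,z2],.contra [z1,z2,z4,y2],.contra [z1,z2,z3,y2],.ref k8 k0 [(z1,[z1,z2,z2,y2]),(z1,[z0,y1,y1,
    z1])],.contra [y1,z0,y1,z1],.ref k11 k0 [(z2,[y1,z2,z2]),(z2,[z1])]],
    .lp k0 [(nat_lit 1932840),(nat_lit 1965600),(nat_lit 1449630),(nat_lit 2378880),(nat_lit 1932840),
    (nat_lit 1932840)] [(nat_lit 759920),(nat_lit 759920),(nat_lit 1130108),(nat_lit 356972),(nat_lit 1105070),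
    (nat_lit 897980),k0,(nat_lit 1073800),(nat_lit 1146488),(nat_lit 373352),(nat_lit 759920),
    (nat_lit 759920)] k0 [[k0,k0,k0,k0,k0,k0,k0,k0,k0,k0,k0,k0],[k0,k0,k0,k0,k0,k0,k0,(nat_lit 1932840),k0,k0,k0,k0],
    [k0,k0,k0,k0,k0,k0,k0,k0,k0,k0,k0,k0],[k0,k0,k0,k0,k0,k0,(nat_lit 1014741),k0,k0,k0,k0,k0],[k0,k0,k0,k0,k0,k0,k0,
    k0,k0,k0,k0,k0],[k0,k0,k0,k0,k0,k0,k0,k0,k0,k0,k0,k0],[(nat_lit 1932840),k0,k0,k0,k0,k0,k0,k0,k0,k0,k0,k0],[k0,k0,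
    (nat_lit 1014741),k0,k0,k0,k0,k0,k0,k0,k0,k0],[k0,k0,k0,k0,k0,k0,k0,k0,k0,k0,k0,k0],[k0,k0,k0,k0,k0,k0,k0,k0,k0,
    k0,k0,k0],[k0,k0,k0,k0,k0,k0,k0,k0,k0,k0,k0,k0],[k0,k0,k0,k0,k0,k0,k0,k0,k0,k0,k0,k0]] (nat_lit 5798520) k6
    [[(k8,(nat_lit 1546272)),(k1,(nat_lit 1932840)),(k10,(nat_lit 1932840)),(k11,(nat_lit 1932840))],[(k2,
    (nat_lit 1562652)),(k5,(nat_lit 1794780)),(k0,(nat_lit 1932840)),(k3,(nat_lit 2335788)),(k6,(nat_lit 2692760)),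
    (k9,(nat_lit 4252248))],[(k6,(nat_lit 1162868)),(k2,(nat_lit 1965600)),(k5,(nat_lit 2197728)),(k0,
    (nat_lit 2335788)),(k9,(nat_lit 2722356)),(k3,(nat_lit 2738736))],[(k2,(nat_lit 1192464)),(k5,(nat_lit 1424592)),
    (k0,(nat_lit 1562652)),(k9,(nat_lit 1949220)),(k3,(nat_lit 1965600)),(k6,(nat_lit 3337313))],[(k9,
    (nat_lit 1166607)),(k2,(nat_lit 1424592)),(k5,(nat_lit 1656720)),(k0,(nat_lit 1794780)),(k3,(nat_lit 2197728)),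
    (k6,(nat_lit 2554700))],[(k4,(nat_lit 1242540)),(k7,(nat_lit 1273810))],[(k4,(nat_lit 1273810)),(k7,
    (nat_lit 1305080))],[(k3,(nat_lit 1162868)),(k5,(nat_lit 2554700)),(k0,(nat_lit 2692760)),(k9,(nat_lit 3079328)),
    (k2,(nat_lit 3337313)),(k6,(nat_lit 3452680))],[(k5,(nat_lit 1166607)),(k2,(nat_lit 1949220)),(k9,
    (nat_lit 2705976)),(k3,(nat_lit 2722356)),(k6,(nat_lit 3079328)),(k0,(nat_lit 4252248))],[(k8,(nat_lit 1159704)),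
    (k1,(nat_lit 1546272)),(k10,(nat_lit 1546272)),(k11,(nat_lit 1546272))],[(k8,(nat_lit 1546272)),(k1,
    (nat_lit 1932840)),(k10,(nat_lit 1932840)),(k11,(nat_lit 1932840))],[(k8,(nat_lit 1546272)),(k1,
    (nat_lit 1932840)),(k10,(nat_lit 1932840)),(k11,(nat_lit 1932840))]]
    [[k1,k0,k2,k0,k1,k0],[k0,k1,k2,k0,k0,k0],[k0,k1,k1,k1,k0,k0],[k0,k2,k0,k2,k0,k0],[k0,k0,k2,k0,k2,k0]]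
    [.contra [z1,y1],.ref k2 k0 [(z1,[y1,y2,z2])],.contra [y1,y1,z1],.ref k5 k0 [(z2,[z1])],.ref k12 k0 [(z2,[y1,y2,
    z2])]]]

theorem hB6_61_1 : blkB [0, 0, 1, 0, 2, 2] [(0, 4)] sp6 hS6_61 (pcls (n := 6) [0, 0, 1, 0, 2, 2]) hD6_61 14 1 hN6_61_1 = true := by
  decide +kernel

/-- equations of the nodes for the classes `0 0 1 0 0 1`, active pairs `` -/
noncomputable def hD6_127 : List (List (List Eqn)) :=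
  [[[([z1,z0,z1,z0,z1,z0],z2)],[([z1,z0,z0,z0,z1,z1],z2)],[([z1,z0,z0,z1,z1,z0],z2)],[([z2,z0,z0,z0,z1,z0],z2),([z0,
    z1,z0,z1,z0,z1],z2)],[([z1,z0,z0,z0,z0,y1],z0),([z0,z1,z0,z0,z0,z2],z2)],[([z1,z0,z0,y1,z0,z0],z0),([z0,z1,z0,z2,
    z0,z0],z2)],[([z1,z0,z0,y2,z0,z1],z0),([z0,z1,z0,z2,z0,z0],z2)],[([z2,z0,z0,z0,z1,z0],z2),([z0,z2,z0,z2,y1,z0],
    z2)],[([z2,z0,z0,z0,z1,z0],z2),([z0,z2,z2,z0,y1,z0],z2)],[([z2,z0,z0,z0,z1,z0],z2)],[([z1,z0,y1,z0,z0,z0],z0),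
    ([z0,z1,z2,z0,z0,z0],z2)],[([z1,z0,z0,z0,z1,z1],z2),([z0,z1,z0,z0,y2,y2],y2)]],
    [[([z1,z0,z0,z1,z0,y2],z0),([z0,z1,z1,z0,z0,z1],z2)],[([z2,z0,z0,y1,z0,y1],z0),([z0,z1,z0,z1,z0,z1],z2)],[([z1,z0,
    y1,y1,y1,y1],y2)],[([z1,z1,z1,z0,z0,z0],z2)],[]]]

/-- symmetries -/
noncomputable def hS6_127 : List (Bool × ℕ × List ℕ) :=
  [(false,k0,[k0,k1,k2,k3,k4,k5]),(true,k5,[k5,k4,k3,k2,k1,k0]),(false,k3,[k3,k4,k5,k0,k1,k2]),(true,k2,[k2,k1,k0,k5,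
    k4,k3])]

/-- nodes 0 to 11 -/
noncomputable def hN6_127_0 : List HM :=
  [.base (.leafM k1 [k0,k1,k2,k3,k4,k5] [(z1,[y1,z1]),(z1,[z1])] []),
    .base (.leafM k0 [k0,k1,k2,k3,k4,k5] [(z1,[y1,z1])] []),
    .base (.leafM k3 [k4,k5,k0,k1,k2,k3] [(z1,[y1,z1])] []),
    .base (.leafM k1 [k0,k1,k2,k3,k4,k5] [(z1,[z0,z1]),(z1,[z0,y1,z1])] []),
    .base (.leafM k0 [k1,k2,k3,k4,k5,k0] [(z1,[y1,y1,z1])] []),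
    .base (.leafM k3 [k1,k2,k3,k4,k5,k0] [(z1,[y1,y1,z1])] []),
    .base (.leafM k0 [k1,k2,k3,k4,k5,k0] [(z1,[y1,y1,z1])] []),
    .base (.leafM k3 [k1,k2,k3,k4,k5,k0] [(z2,[y1,y1,z2])] []),
    .base (.leafM k0 [k2,k3,k4,k5,k0,k1] [(z2,[y1,y1,z2])] []),
    .lp k0 [k16,k20,k12,k14,k16,k16] [k2,k2,k0,k0,k4,k4,k3,k3,k2,k2,k2,k2] k0 [[k0,k0,k0,k4,k0,k0,k0,k0,k0,k0,k0,k0],
    [k0,k0,k0,k0,k0,k0,k0,k0,k0,k0,k0,k0],[k0,k4,k0,k0,k0,k0,k0,k0,k0,k0,k0,k0],[k0,k0,k0,k0,k0,k0,k0,k0,k0,k0,k0,k0],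
    [k0,k0,k0,k0,k0,k0,k0,k0,k0,k0,k0,k2],[k0,k0,k0,k0,k0,k0,k0,k0,k0,k0,k0,k0],[k0,k0,k0,k0,k0,k0,k0,k0,k0,k0,k0,k0],
    [k0,k0,k0,k0,k0,k0,k0,k0,k0,k0,k0,k0],[k0,k0,k0,k0,k0,k0,k0,k0,k0,k0,k0,k0],[k0,k0,k0,k0,k0,k0,k0,k0,k0,k0,k0,k0],
    [k0,k0,k0,k0,k0,k2,k0,k0,k0,k0,k0,k0],[k0,k0,k0,k0,k0,k0,k0,k0,k0,k0,k0,k0]] k48 k5
    [[(k4,k14),(k1,k16),(k10,k16),(k7,k17)],[(k2,k14),(k5,k14),(k6,k15),(k0,k16),(k8,k16),(k9,k16),(k11,k16),(k3,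
    k18)],[(k6,k17),(k0,k18),(k8,k18),(k9,k18),(k11,k18),(k2,k20),(k3,k20),(k5,k20)],[(k0,k14),(k5,k16),(k6,k17),(k8,
    k18),(k9,k18),(k11,k18),(k2,k20),(k3,k20)],[(k5,k12),(k6,k13),(k0,k14),(k8,k14),(k9,k14),(k11,k14),(k2,k16),(k3,
    k20)],[(k4,k12),(k10,k12),(k7,k13),(k1,k14)],[(k4,k13),(k7,k14),(k10,k15),(k1,k17)],[(k5,k13),(k6,k14),(k0,k15),
    (k8,k15),(k9,k15),(k11,k15),(k2,k17),(k3,k17)],[(k5,k14),(k6,k15),(k0,k16),(k8,k16),(k9,k16),(k11,k16),(k2,k18),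
    (k3,k18)],[(k5,k14),(k6,k15),(k0,k16),(k8,k16),(k9,k16),(k11,k16),(k2,k18),(k3,k18)],[(k5,k14),(k6,k15),(k0,k16),
    (k8,k16),(k9,k16),(k11,k16),(k2,k18),(k3,k18)],[(k4,k12),(k7,k15),(k1,k16),(k10,k16)]]
    [[k1,k0,k1,k0,k1,k0],[k0,k1,k1,k1,k0,k0],[k0,k1,k1,k0,k0,k1],[k0,k0,k2,k0,k1,k0],[k0,k0,k1,k1,k1,k0],[k0,k0,k1,k0,
    k1,k1],[k0,k0,k0,k2,k1,k0],[k0,k0,k0,k1,k1,k1]]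
    [.ref k3 k0 [(z1,[z0,z1]),(z1,[y1,z0,z1])],.ref k4 k1 [(z1,[y1,y1,z1]),(z1,[z0,z1])],.ref k5 k2 [(z1,[y1,y1,z1]),
    (z1,[z0,z1])],.ref k3 k0 [(z1,[z0,z1]),(z2,[y1,y1,z2])],.ref k6 k2 [(z1,[z1,y1]),(z1,[z0,z1])],.ref k7 k0 [(z1,
    [z0,z1]),(z1,[y2,y1,z2])],.ref k5 k2 [(z2,[z1,y1]),(z1,[z0,z1])],.ref k8 k0 [(z1,[z0,z1]),(z1,[y2,y1,z2])]],
    .base (.leafM k0 [k2,k3,k4,k5,k0,k1] [(z1,[y1,y1,z1])] []),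
    .base (.leafM k0 [k0,k1,k2,k3,k4,k5] [(z1,[y1,z0,z1])] [])]

theorem hB6_127_0 : blkB [0, 0, 1, 0, 0, 1] [] sp6 hS6_127 (pcls (n := 6) [0, 0, 1, 0, 0, 1]) hD6_127 17 0 hN6_127_0 = true := by
  decide +kernel

/-- nodes 12 to 16 -/
noncomputable def hN6_127_1 : List HM :=
  [.base (.leafM k3 [k4,k5,k0,k1,k2,k3] [(z1,[z0,z1])] []),
    .base (.leafM k1 [k0,k1,k2,k3,k4,k5] [(z1,[z0,z1]),(z1,[z0,y1,z1])] []),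
    .lp k0 [k16,k16,k14,k12,k20,k16] [k2,k2,k2,k2,k3,k3,k4,k4,k0,k0,k2,k2] k0 [[k0,k0,k0,k0,k0,k0,k0,k0,k0,k0,k0,k0],
    [k0,k0,k0,k0,k0,k0,k0,k0,k0,k0,k0,k0],[k0,k0,k0,k0,k0,k0,k0,k2,k0,k0,k0,k0],[k0,k0,k0,k0,k0,k0,k0,k0,k0,k0,k0,k0],
    [k0,k0,k0,k0,k0,k2,k0,k0,k0,k0,k0,k0],[k0,k0,k0,k0,k0,k0,k0,k0,k0,k0,k0,k2],[k0,k0,k0,k2,k0,k0,k0,k0,k0,k0,k0,k0],
    [k0,k0,k0,k0,k0,k0,k0,k0,k2,k0,k0,k0],[k0,k0,k0,k0,k0,k0,k0,k0,k0,k0,k0,k0],[k0,k0,k0,k0,k0,k0,k2,k0,k0,k0,k0,k0],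
    [k0,k0,k0,k0,k2,k0,k0,k0,k0,k0,k0,k0],[k0,k0,k0,k0,k0,k0,k0,k0,k0,k0,k0,k0]] k48 k5
    [[(k7,k14),(k1,k16),(k10,k16),(k4,k17)],[(k6,k14),(k5,k15),(k0,k16),(k2,k16),(k3,k16),(k11,k16),(k8,k18),(k9,
    k18)],[(k6,k14),(k5,k15),(k0,k16),(k2,k16),(k3,k16),(k11,k16),(k8,k18),(k9,k18)],[(k6,k12),(k5,k15),(k0,k16),(k2,
    k16),(k3,k16),(k11,k16),(k8,k18),(k9,k18)],[(k6,k13),(k5,k14),(k0,k15),(k2,k15),(k3,k15),(k11,k15),(k8,k17),(k9,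
    k19)],[(k4,k12),(k7,k13),(k10,k15),(k1,k17)],[(k10,k12),(k4,k13),(k1,k14),(k7,k14)],[(k2,k12),(k6,k12),(k5,k13),
    (k0,k14),(k3,k14),(k11,k14),(k9,k16),(k8,k18)],[(k6,k16),(k11,k16),(k0,k18),(k2,k18),(k3,k18),(k5,k19),(k8,k20),
    (k9,k20)],[(k5,k17),(k0,k18),(k2,k18),(k3,k18),(k6,k18),(k11,k18),(k8,k20),(k9,k20)],[(k6,k14),(k5,k15),(k0,k16),
    (k2,k16),(k3,k16),(k9,k16),(k11,k16),(k8,k18)],[(k7,k12),(k4,k15),(k1,k16),(k10,k16)]]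
    [[k1,k1,k0,k1,k0,k0],[k0,k1,k2,k0,k0,k0],[k0,k1,k1,k1,k0,k0],[k0,k1,k1,k0,k0,k1],[k0,k1,k0,k2,k0,k0],[k0,k1,k0,k1,
    k0,k1],[k0,k0,k1,k1,k1,k0],[k0,k0,k0,k1,k1,k1]]
    [.ref k5 k0 [(z1,[y1,z1,z1]),(z1,[z2,y1,y1])],.ref k10 k0 [(z2,[y1,z1,z1]),(z1,[z1])],.ref k11 k0 [(z1,[y1,z0,
    z1]),(z1,[z2,z1,y1])],.ref k12 k1 [(z1,[z1,y1,y1]),(z1,[y1,z0,z1])],.ref k5 k0 [(z2,[y1,z1,z1]),(z1,[z1])],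
    .ref k13 k0 [(z1,[y1,z1,z1]),(z1,[z1])],.ref k4 k0 [(z1,[z1,z1]),(z1,[y2,y1,z1])],.ref k10 k0 [(z1,[z1,z1]),(z1,
    [y2,y1,z1])]],
    .base (.leafM k0 [k2,k3,k4,k5,k0,k1] [(z1,[y1,z1])] []),
    .lp k0 [k16,k18,k16,k12,k16,k16] [k1,k1,k0,k0,k1,k1,k3,k3,k1,k1,k1,k1] k0 [[k0,k0,k0,k0,k0,k0,k0,k0,k0,k0,k0,k0],
    [k0,k0,k0,k0,k0,k0,k0,k0,k0,k0,k0,k0],[k0,k0,k0,k0,k0,k0,k0,k0,k0,k0,k0,k0],[k0,k0,k0,k0,k0,k0,k0,k0,k0,k0,k0,k0],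
    [k0,k0,k0,k0,k0,k0,k0,k0,k0,k0,k2,k4],[k0,k0,k0,k0,k0,k0,k0,k0,k0,k0,k0,k0],[k0,k0,k0,k0,k0,k0,k0,k0,k0,k0,k0,k0],
    [k0,k0,k0,k0,k0,k0,k0,k0,k0,k0,k0,k0],[k0,k0,k0,k0,k0,k0,k0,k0,k0,k0,k0,k0],[k0,k0,k0,k0,k0,k0,k0,k0,k0,k0,k0,k0],
    [k0,k0,k0,k0,k0,k4,k0,k0,k0,k0,k0,k0],[k0,k0,k0,k0,k0,k2,k0,k0,k0,k0,k0,k0]] k48 k5
    [[(k4,k14),(k1,k16),(k10,k16),(k7,k18)],[(k6,k14),(k0,k16),(k5,k16),(k8,k16),(k9,k16),(k11,k16),(k2,k17),(k3,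
    k17)],[(k6,k15),(k0,k17),(k5,k17),(k8,k17),(k9,k17),(k11,k17),(k2,k18),(k3,k18)],[(k6,k15),(k0,k17),(k5,k17),(k8,
    k17),(k9,k17),(k11,k17),(k2,k18),(k3,k18)],[(k6,k14),(k0,k16),(k5,k16),(k8,k16),(k9,k16),(k11,k16),(k2,k17),(k3,
    k17)],[(k10,k12),(k1,k14),(k7,k14),(k4,k16)],[(k7,k12),(k4,k14),(k10,k16),(k1,k18)],[(k6,k12),(k0,k14),(k5,k14),
    (k8,k14),(k9,k14),(k11,k14),(k2,k15),(k3,k15)],[(k6,k14),(k0,k16),(k5,k16),(k8,k16),(k9,k16),(k11,k16),(k2,k17),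
    (k3,k17)],[(k6,k14),(k0,k16),(k5,k16),(k8,k16),(k9,k16),(k11,k16),(k2,k17),(k3,k17)],[(k6,k14),(k0,k16),(k5,k16),
    (k8,k16),(k9,k16),(k11,k16),(k2,k17),(k3,k17)],[(k4,k12),(k1,k16),(k7,k16),(k10,k16)]]
    [[k1,k0,k1,k0,k1,k0],[k0,k1,k1,k1,k0,k0],[k0,k1,k1,k0,k0,k1],[k0,k1,k0,k2,k0,k0],[k0,k0,k1,k1,k1,k0],[k0,k0,k1,k0,
    k1,k1],[k0,k0,k0,k2,k1,k0],[k0,k0,k0,k1,k1,k1]]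
    [.ref k0 k0 [(z1,[z1])],.ref k1 k0 [(z1,[y1,z1])],.ref k2 k0 [(z1,[y1,z1])],.ref k9 k2 [(z1,[z1])],
    .ref k1 k3 [(z1,[z1])],.ref k2 k2 [(z1,[y1,z1])],.ref k14 k2 [(z1,[z1,y1])],.ref k15 k0 [(z1,[y1,z1])]]]

theorem hB6_127_1 : blkB [0, 0, 1, 0, 0, 1] [] sp6 hS6_127 (pcls (n := 6) [0, 0, 1, 0, 0, 1]) hD6_127 17 1 hN6_127_1 = true := by
  decide +kernel

end Pool.Agent.Lib_MP_fa6e45
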