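import Pool.Agent.Lib_MP_fa6e45.HK

/-!
MP_fa6e45_co, stage 4: certificates (captain, generated by a program).
-/

namespace Pool.Agent.Lib_MP_fa6e45

/-- equations of the nodes for the classes `0 0 1 2 3`, active pairs `` -/
noncomputable def hD5_1 : List (List (List Eqn)) :=
  [[[([z1,z0,y1,z0,z0],z0),([z0,z1,z2,z0,z0],z2)],[([z1,z0,y1,y1,y1],y1)],[]]]

/-- symmetries -/
noncomputable def hS5_1 : List (Bool × ℕ × List ℕ) :=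
  [(false,k0,[k0,k1,k2,k3,k4])]

/-- nodes 0 to 2 -/
noncomputable def hN5_1_0 : List HM :=
  [.base (.leafM k0 [k3,k4,k0,k1,k2] [(z1,[y1,y1,z1])] []),
    .lp k0 [k8,k8,k6,k6,k6] [k0,k0,k0,k0,k1,k1,k1,k1,k1,k1] k0 [[k0,k0,k0,k0,k0,k0,k0,k0,k0,k0],[k0,k0,k0,k0,k0,k0,k0,
    k0,k0,k0],[k0,k0,k0,k0,k0,k0,k0,k0,k0,k0],[k0,k0,k0,k0,k0,k0,k0,k0,k0,k0],[k0,k0,k0,k0,k0,k0,k0,k0,k0,k0],[k0,k0,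
    k0,k0,k0,k0,k0,k0,k0,k0],[k0,k0,k0,k0,k0,k0,k0,k0,k0,k0],[k0,k0,k0,k0,k0,k0,k0,k0,k0,k0],[k0,k0,k0,k0,k0,k0,k0,k0,
    k0,k0],[k0,k0,k0,k0,k0,k0,k0,k0,k0,k0]] k24 k5
    [[(k8,k7),(k1,k8)],[(k5,k7),(k0,k8),(k2,k8),(k3,k8)],[(k5,k7),(k0,k8),(k2,k8),(k3,k8)],[(k5,k7),(k0,k8),(k2,k8),
    (k3,k8)],[(k5,k6),(k0,k7),(k2,k7),(k3,k7)],[(k4,k6),(k7,k6)],[(k4,k6),(k7,k6)],[(k6,k6),(k9,k6)],[(k6,k6),(k9,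
    k6)],[(k8,k6),(k1,k7)]]
    [[k0,k1,k2,k0,k0]]
    [.ref k0 k0 [(z2,[y1,z1,z1]),(z1,[z1])]],
    .lp k0 [k6,k8,k8,k6,k6] [k1,k1,k0,k0,k0,k0,k1,k1,k1,k1] k0 [[k0,k0,k0,k0,k0,k0,k0,k0,k0,k0],[k0,k0,k0,k0,k0,k0,k0,
    k0,k0,k0],[k0,k0,k0,k0,k0,k0,k0,k0,k0,k0],[k0,k0,k0,k0,k0,k0,k0,k0,k0,k0],[k0,k0,k0,k0,k0,k0,k0,k0,k0,k0],[k0,k0,
    k0,k0,k0,k0,k0,k0,k0,k0],[k0,k0,k0,k0,k0,k0,k0,k0,k0,k0],[k0,k0,k0,k0,k0,k0,k0,k0,k0,k0],[k0,k0,k0,k0,k0,k0,k0,k0,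
    k0,k0],[k0,k0,k0,k0,k0,k0,k0,k0,k0,k0]] k24 k5
    [[(k1,k6),(k8,k6)],[(k0,k6),(k2,k7),(k3,k7),(k5,k7)],[(k0,k7),(k2,k8),(k3,k8),(k5,k8)],[(k0,k7),(k2,k8),(k3,k8),
    (k5,k8)],[(k0,k7),(k2,k8),(k3,k8),(k5,k8)],[(k7,k7),(k4,k8)],[(k7,k6),(k4,k7)],[(k6,k6),(k9,k6)],[(k6,k6),(k9,
    k6)],[(k1,k6),(k8,k6)]]
    [[k2,k1,k0,k0,k0]]
    [.ref k1 k0 [(z1,[z1,y1])]]]

theorem hB5_1_0 : blkB [0, 0, 1, 2, 3] [] sp5 hS5_1 (pcls (n := 5) [0, 0, 1, 2, 3]) hD5_1 3 0 hN5_1_0 = true := by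
  decide +kernel

/-- equations of the nodes for the classes `0 0 1 0 2`, active pairs `` -/
noncomputable def hD5_6 : List (List (List Eqn)) :=
  [[[([z1,z0,z0,z0,y1],z0),([z0,z1,z0,z0,z2],z2)],[([z1,z0,y1,z0,z0],z0),([z0,z1,z2,z0,z0],z2)],[([z1,z0,z0,z0,z1],
    z1),([z0,z1,z0,z0,y2],z0)],[([z1,z0,y1,y1,y1],y1)],[([z1,z0,z0,z0,z1],z1)],[]]]

/-- symmetries -/
noncomputable def hS5_6 : List (Bool × ℕ × List ℕ) :=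
  [(false,k0,[k0,k1,k2,k3,k4]),(true,k2,[k2,k1,k0,k4,k3])]

/-- nodes 0 to 5 -/
noncomputable def hN5_6_0 : List HM :=
  [.base (.leafM k0 [k2,k3,k4,k0,k1] [(z1,[y1,y1,z1])] []),
    .base (.leafM k0 [k3,k4,k0,k1,k2] [(z1,[y1,y1,z1])] []),
    .base (.leafM k0 [k4,k0,k1,k2,k3] [(z1,[z1])] []),
    .lp k0 [k6,k10,k6,k6,k7] [k2,k2,k0,k0,k2,k2,k2,k2,k2,k1] k0 [[k0,k0,k0,k0,k0,k0,k1,k0,k0,k0],[k0,k0,k2,k0,k0,k0,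
    k0,k0,k0,k0],[k0,k0,k0,k0,k0,k0,k0,k0,k0,k0],[k2,k0,k0,k0,k0,k0,k1,k0,k0,k0],[k0,k0,k0,k0,k0,k0,k0,k0,k0,k0],[k0,
    k0,k0,k0,k0,k0,k0,k0,k0,k0],[k0,k0,k0,k0,k0,k0,k0,k0,k0,k0],[k0,k1,k1,k0,k0,k0,k0,k0,k0,k0],[k0,k0,k0,k0,k0,k0,k0,
    k0,k0,k0],[k0,k0,k0,k0,k0,k0,k0,k0,k0,k0]] k24 k5
    [[(k1,k6),(k8,k6)],[(k0,k6),(k5,k6),(k6,k6),(k9,k6),(k3,k8),(k2,k10)],[(k5,k6),(k0,k8),(k6,k9),(k9,k9),(k2,k10),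
    (k3,k10)],[(k5,k8),(k6,k9),(k9,k9),(k0,k10),(k2,k10),(k3,k10)],[(k0,k6),(k3,k6),(k5,k6),(k6,k6),(k9,k6),(k2,k8)],
    [(k4,k6),(k7,k6)],[(k4,k6),(k7,k6)],[(k0,k6),(k5,k6),(k6,k6),(k9,k7),(k2,k9),(k3,k9)],[(k0,k6),(k5,k6),(k6,k7),
    (k9,k8),(k2,k9),(k3,k9)],[(k1,k6),(k8,k6)]]
    [[k1,k1,k0,k0,k1],[k0,k1,k2,k0,k0],[k0,k1,k1,k1,k0]]
    [.ref k0 k0 [(z1,[y1,z1,z1]),(z1,[z2,y1,y1])],.ref k1 k0 [(z2,[y1,z1,z1]),(z1,[z1])],.ref k2 k0 [(z1,[y1,z0,z1]),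
    (z1,[z2,z1,y1])]],
    .base (.leafM k0 [k4,k0,k1,k2,k3] [(z1,[z1])] []),
    .lp k0 [k6,k10,k6,k6,k7] [k2,k2,k0,k0,k2,k2,k2,k2,k2,k1] k0 [[k0,k0,k0,k2,k0,k0,k1,k0,k0,k0],[k0,k0,k0,k0,k0,k0,
    k0,k0,k0,k0],[k0,k2,k0,k0,k0,k0,k0,k0,k0,k0],[k0,k0,k0,k0,k0,k0,k1,k0,k0,k0],[k0,k0,k0,k0,k0,k0,k0,k0,k0,k0],[k0,
    k0,k0,k0,k0,k0,k0,k0,k0,k0],[k0,k0,k0,k0,k0,k0,k0,k0,k0,k0],[k0,k1,k1,k0,k0,k0,k0,k0,k0,k0],[k0,k0,k0,k0,k0,k0,k0,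
    k0,k0,k0],[k0,k0,k0,k0,k0,k0,k0,k0,k0,k0]] k24 k5
    [[(k1,k6),(k8,k6)],[(k0,k6),(k2,k6),(k5,k6),(k6,k6),(k9,k6),(k3,k8)],[(k0,k8),(k6,k9),(k9,k9),(k2,k10),(k3,k10),
    (k5,k10)],[(k0,k6),(k5,k8),(k6,k9),(k9,k9),(k2,k10),(k3,k10)],[(k0,k6),(k5,k6),(k6,k6),(k9,k6),(k2,k8),(k3,k10)],
    [(k4,k6),(k7,k6)],[(k4,k6),(k7,k6)],[(k0,k6),(k5,k6),(k6,k6),(k9,k7),(k2,k9),(k3,k9)],[(k0,k6),(k5,k6),(k6,k7),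
    (k9,k8),(k2,k9),(k3,k9)],[(k1,k6),(k8,k6)]]
    [[k2,k1,k0,k0,k0],[k1,k1,k0,k0,k1],[k0,k1,k1,k1,k0]]
    [.ref k3 k0 [(z1,[z1,y1])],.ref k4 k1 [(z1,[y1,z1])],.ref k4 k0 [(z1,[y1,z1])]]]

theorem hB5_6_0 : blkB [0, 0, 1, 0, 2] [] sp5 hS5_6 (pcls (n := 5) [0, 0, 1, 0, 2]) hD5_6 6 0 hN5_6_0 = true := by
  decide +kernel

/-- equations of the nodes for the classes `0 0 1 2 1`, active pairs `` -/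
noncomputable def hD5_9 : List (List (List Eqn)) :=
  [[[([z1,z0,y1,z0,z0],z0),([z0,z1,z2,z0,z0],z2)],[([z1,z0,y1,y1,y1],y1)],[([z1,z1,z1,z0,z0],z2)],[]]]

/-- symmetries -/
noncomputable def hS5_9 : List (Bool × ℕ × List ℕ) :=
  [(false,k0,[k0,k1,k2,k3,k4])]

/-- nodes 0 to 3 -/
noncomputable def hN5_9_0 : List HM :=
  [.base (.leafM k0 [k3,k4,k0,k1,k2] [(z1,[y1,y1,z1])] []),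
    .lp k0 [k8,k8,k6,k6,k6] [k0,k0,k0,k0,k1,k1,k1,k1,k1,k1] k0 [[k0,k0,k0,k0,k0,k0,k0,k0,k0,k0],[k0,k0,k0,k0,k0,k0,k0,
    k0,k0,k0],[k0,k0,k0,k0,k0,k0,k0,k0,k0,k0],[k0,k0,k0,k0,k0,k0,k0,k0,k0,k0],[k0,k0,k0,k0,k0,k0,k0,k0,k0,k0],[k0,k0,
    k0,k0,k0,k0,k0,k0,k0,k0],[k0,k0,k0,k0,k0,k0,k0,k0,k0,k0],[k0,k0,k0,k0,k0,k0,k0,k0,k0,k0],[k0,k0,k0,k0,k0,k0,k0,k0,
    k0,k0],[k0,k0,k0,k0,k0,k0,k0,k0,k0,k0]] k24 k5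
    [[(k4,k7),(k7,k7),(k8,k7),(k1,k8)],[(k5,k7),(k0,k8),(k2,k8),(k3,k8)],[(k5,k7),(k0,k8),(k2,k8),(k3,k8)],[(k5,k7),
    (k0,k8),(k2,k8),(k3,k8)],[(k5,k6),(k0,k7),(k2,k7),(k3,k7)],[(k4,k6),(k7,k6),(k8,k6),(k1,k7)],[(k4,k6),(k7,k6),(k8,
    k6),(k1,k7)],[(k6,k6),(k9,k6)],[(k6,k6),(k9,k6)],[(k4,k6),(k7,k6),(k8,k6),(k1,k7)]]
    [[k1,k1,k1,k0,k0],[k0,k1,k2,k0,k0]]
    [.ref k0 k0 [(z1,[y1,z1,z1]),(z1,[z2,y1,y1])],.ref k0 k0 [(z2,[y1,z1,z1]),(z1,[z1])]],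
    .base (.leafM k0 [k3,k4,k0,k1,k2] [(z1,[y1,z1])] []),
    .lp k0 [k6,k8,k8,k6,k6] [k1,k1,k0,k0,k0,k0,k1,k1,k1,k1] k0 [[k0,k0,k0,k0,k0,k0,k0,k0,k0,k0],[k0,k0,k0,k0,k0,k0,k0,
    k0,k0,k0],[k0,k0,k0,k0,k0,k0,k0,k0,k0,k0],[k0,k0,k0,k0,k0,k0,k0,k0,k0,k0],[k0,k0,k0,k0,k0,k0,k0,k0,k0,k0],[k0,k0,
    k0,k0,k0,k0,k0,k0,k0,k0],[k0,k0,k0,k0,k0,k0,k0,k0,k0,k0],[k0,k0,k0,k0,k0,k0,k0,k0,k0,k0],[k0,k0,k0,k0,k0,k0,k0,k0,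
    k0,k0],[k0,k0,k0,k0,k0,k0,k0,k0,k0,k0]] k24 k5
    [[(k1,k6),(k7,k6),(k8,k6),(k4,k7)],[(k0,k6),(k2,k7),(k3,k7),(k5,k7)],[(k0,k7),(k2,k8),(k3,k8),(k5,k8)],[(k0,k7),
    (k2,k8),(k3,k8),(k5,k8)],[(k0,k7),(k2,k8),(k3,k8),(k5,k8)],[(k1,k7),(k7,k7),(k8,k7),(k4,k8)],[(k1,k6),(k7,k6),(k8,
    k6),(k4,k7)],[(k6,k6),(k9,k6)],[(k6,k6),(k9,k6)],[(k1,k6),(k7,k6),(k8,k6),(k4,k7)]]
    [[k2,k1,k0,k0,k0],[k1,k1,k1,k0,k0]]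
    [.ref k1 k0 [(z1,[z1,y1])],.ref k2 k0 [(z1,[z1])]]]

theorem hB5_9_0 : blkB [0, 0, 1, 2, 1] [] sp5 hS5_9 (pcls (n := 5) [0, 0, 1, 2, 1]) hD5_9 4 0 hN5_9_0 = true := by
  decide +kernel

/-- equations of the nodes for the classes `0 0 1 2 1`, active pairs `0-2` -/
noncomputable def hD5_10 : List (List (List Eqn)) :=
  [[[([z3,z0,z0,z0,z0],z2),([z0,z3,z0,z0,z0],z2)],[([z4,z0,z0,z0,z0],z3),([z0,z2,z0,z0,z0],z1)],[([z6,z0,z0,z0,z0],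
    z5),([z0,z3,z0,z0,z0],z1)],[([z2,z0,z0,y1,y1],z1)],[([z1,z0,z0,y1,y1],z0)],[([z0,z3,z0,z0,z0],z2)],[([z0,z2,z0,z0,
    z0],z1)],[([z0,z3,z0,z0,z0],z1)],[([z0,z1,z0,z0,y2],y1)],[]]]

/-- symmetries -/
noncomputable def hS5_10 : List (Bool × ℕ × List ℕ) :=
  [(false,k0,[k0,k1,k2,k3,k4])]

/-- nodes 0 to 9 -/
noncomputable def hN5_10_0 : List HM :=
  [.base (.leafM k2 [k4,k1,k3] [(z1,[z0,z1]),(z1,[z0,y1,y3,z3])] [(k0,k2,z1,[z0,z0,z1]),(k2,k0,z1,[z0,z0,z1])]),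
    .base (.leafM k3 [k4,k1,k3] [(z1,[z0,z1]),(z1,[z0,y1,y2,z2])] [(k0,k2,z1,[z0,z0,z1]),(k2,k0,z1,[z0,z0,z1])]),
    .base (.leafM k4 [k4,k1,k3] [(z1,[z0,z1]),(z1,[z0,y1,y3,z3])] [(k0,k2,z1,[z0,z0,z1]),(k2,k0,z1,[z0,z0,z1])]),
    .lp k0 [(nat_lit 560),(nat_lit 336),(nat_lit 592),(nat_lit 423),(nat_lit 595)] [k185,k185,(nat_lit 297),
    (nat_lit 297),k169,k169,(nat_lit 345),k162,k0,(nat_lit 335)] k0 [[k0,k0,k0,k0,k0,k0,k0,k0,k0,k0],[k0,k0,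
    (nat_lit 224),k0,k0,k0,k0,k0,k0,k0],[k0,k0,k0,k0,k0,k0,k0,k0,k0,k0],[(nat_lit 224),k0,k0,k0,k0,k0,k0,k0,k0,k0],
    [k0,k0,k0,k0,k0,(nat_lit 344),k0,k0,k0,k0],[k0,k0,k0,k0,k0,k0,k0,k0,k0,(nat_lit 528)],[k0,k0,k0,k0,k0,k0,k0,k0,k0,
    k0],[k0,k0,k0,k0,k0,k0,k0,k0,k0,k0],[k0,k0,k0,k0,(nat_lit 528),k0,k0,k0,k0,k0],[k0,k0,k0,k0,k0,k0,k0,k0,k0,
    k0]] (nat_lit 1680) k8
    [[(k1,(nat_lit 560)),(k7,(nat_lit 583)),(k8,(nat_lit 745)),(k4,(nat_lit 1104))],[(k3,(nat_lit 448)),(k0,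
    (nat_lit 560)),(k5,(nat_lit 576)),(k2,(nat_lit 672))],[(k5,(nat_lit 240)),(k2,(nat_lit 336)),(k3,(nat_lit 336)),
    (k0,(nat_lit 448))],[(k2,(nat_lit 336)),(k3,(nat_lit 336)),(k5,(nat_lit 464)),(k0,(nat_lit 672))],[(k3,
    (nat_lit 240)),(k2,(nat_lit 464)),(k0,(nat_lit 576)),(k5,(nat_lit 592))],[(k4,(nat_lit 248)),(k7,(nat_lit 599)),
    (k8,(nat_lit 761)),(k1,(nat_lit 1104))],[(k8,(nat_lit 240)),(k1,(nat_lit 583)),(k4,(nat_lit 599)),(k7,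
    (nat_lit 950))],[(k6,(nat_lit 240)),(k9,(nat_lit 250))],[(k6,(nat_lit 250)),(k9,(nat_lit 260))],[(k7,
    (nat_lit 240)),(k1,(nat_lit 745)),(k4,(nat_lit 761)),(k8,(nat_lit 930))]]
    [[k0,k3,k0,k0,k0],[k0,k4,k0,k0,k0],[k0,k3,k2,k0,k0],[k0,k2,k2,k0,k0],[k0,k1,k2,k0,k0],[k0,k0,k0,k2,k2],[k0,k0,k0,
    k3,k3]]
    [.ref k0 k0 [(z2,[y1,z3,y3,z3]),(z1,[z1])],.ref k1 k0 [(z2,[y1,z4,y4,z4]),(z2,[z1])],.contra [y1,z3,y1,z3],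
    .contra [y1,z2,z0,z2],.contra [y1,z1,z1,z1],.contra [z1,z2],.ref k2 k0 [(z1,[z1,z3]),(z1,[y1,z0,y3,z3])]],
    .base (.leafM k0 [k0,k1,k2,k3,k4] [(z1,[z1,y1,z1])] []),
    .base (.leafM k2 [k4,k1,k3] [(z1,[z1]),(z1,[y1,y3,z3])] [(k0,k2,z1,[z0,z1]),(k2,k0,z1,[z0,z1])]),
    .base (.leafM k3 [k4,k1,k3] [(z1,[z1]),(z1,[y1,y2,z2])] [(k0,k2,z1,[z0,z1]),(k2,k0,z1,[z0,z1])]),
    .base (.leafM k4 [k4,k1,k3] [(z1,[z1]),(z1,[y1,y3,z3])] [(k0,k2,z1,[z0,z1]),(k2,k0,z1,[z0,z1])]),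
    .lp k0 [(nat_lit 14407759284),(nat_lit 4740012012),(nat_lit 14220036036),(nat_lit 5530014014),
    (nat_lit 10734733086)] [k0,k0,(nat_lit 4833873636),(nat_lit 4833873636),(nat_lit 93861624),(nat_lit 93861624),
    (nat_lit 4833873636),(nat_lit 4043871634),(nat_lit 1071239331),(nat_lit 2601786867)] k0 [[k0,k0,k0,k0,k0,k0,k0,k0,
    k0,k0],[k0,k0,k0,k0,k0,k0,k0,k0,k0,k0],[k0,k0,k0,k0,k0,k0,k0,k0,k0,k0],[k0,k0,k0,k0,k0,k0,k0,k0,k0,k0],[k0,k0,k0,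
    k0,k0,k0,k0,k0,k0,k0],[k0,k0,k0,k0,k0,k0,k0,k0,k0,(nat_lit 4552412592)],[k0,k0,k0,k0,k0,k0,k0,k0,k0,k0],[k0,k0,k0,
    k0,k0,k0,k0,k0,k0,k0],[k0,k0,k0,k0,(nat_lit 4552412592),k0,k0,k0,k0,k0],[k0,k0,k0,k0,k0,k0,k0,k0,k0,
    k0]] (nat_lit 33180084084) k8
    [[(k7,(nat_lit 10363887650)),(k8,(nat_lit 13336519953)),(k1,(nat_lit 14407759284)),(k4,(nat_lit 18866310252))],
    [(k2,(nat_lit 9573885648)),(k3,(nat_lit 9573885648)),(k5,(nat_lit 14313897660)),(k0,(nat_lit 14407759284))],[(k2,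
    (nat_lit 4740012012)),(k3,(nat_lit 4740012012)),(k5,(nat_lit 9480024024)),(k0,(nat_lit 9573885648))],[(k2,
    (nat_lit 4740012012)),(k3,(nat_lit 4740012012)),(k5,(nat_lit 9480024024)),(k0,(nat_lit 9573885648))],[(k2,
    (nat_lit 9480024024)),(k3,(nat_lit 9480024024)),(k5,(nat_lit 14220036036)),(k0,(nat_lit 14313897660))],[(k7,
    (nat_lit 10270026026)),(k8,(nat_lit 13242658329)),(k4,(nat_lit 14220036036)),(k1,(nat_lit 18866310252))],[(k8,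
    (nat_lit 4740235727)),(k7,(nat_lit 6320016016)),(k4,(nat_lit 10270026026)),(k1,(nat_lit 10363887650))],[(k6,
    (nat_lit 4740012012)),(k9,(nat_lit 6972098781))],[(k6,(nat_lit 6972098781)),(k9,(nat_lit 9204185550))],[(k7,
    (nat_lit 4740235727)),(k8,(nat_lit 12265280622)),(k4,(nat_lit 13242658329)),(k1,(nat_lit 13336519953))]]
    [[k0,k3,k0,k0,k0],[k0,k4,k0,k0,k0],[k0,k5,k0,k0,k0],[k0,k6,k0,k0,k0],[k0,k0,k0,k4,k0],[k0,k0,k0,k3,k1],[k0,k0,k0,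
    k2,k2]]
    [.contra [y1,z2,y4,z4],.contra [y1,z2,y4,z4],.contra [y1,z2,y4,z4],.contra [y1,z2,y4,z4],.contra [y1,z2,y4,z4],
    .contra [y1,z1,y3,z3],.contra [y1,z0,y2,z2]],
    .lp k0 [(nat_lit 966),(nat_lit 672),(nat_lit 1344),(nat_lit 1190),(nat_lit 840)] [(nat_lit 467),(nat_lit 467),
    (nat_lit 614),(nat_lit 614),(nat_lit 278),(nat_lit 278),(nat_lit 710),k0,(nat_lit 370),(nat_lit 690)] k0 [[k0,k0,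
    k0,k0,k0,k0,k0,k0,k0,k0],[k0,k0,k0,k0,k0,k0,k0,k0,k0,k0],[k0,k0,k0,k0,k0,k0,k0,k0,k0,k0],[k0,k0,k0,k0,k0,k0,k0,k0,
    k0,k0],[k0,k0,k0,k0,k0,k0,k0,k0,k0,k0],[k0,k0,k0,k0,k0,k0,k0,k0,k0,(nat_lit 1050)],[k0,k0,k0,k0,k0,k0,k0,k0,k0,
    k0],[k0,k0,k0,k0,k0,k0,k0,k0,k0,k0],[k0,k0,k0,k0,(nat_lit 1050),k0,k0,k0,k0,k0],[k0,k0,k0,k0,k0,k0,k0,k0,k0,
    k0]] (nat_lit 3360) k8
    [[(k1,(nat_lit 966)),(k8,(nat_lit 1063)),(k7,(nat_lit 1433)),(k4,(nat_lit 2205))],[(k2,(nat_lit 819)),(k3,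
    (nat_lit 819)),(k0,(nat_lit 966)),(k5,(nat_lit 1155))],[(k2,(nat_lit 672)),(k3,(nat_lit 672)),(k0,(nat_lit 819)),
    (k5,(nat_lit 1008))],[(k2,(nat_lit 672)),(k3,(nat_lit 672)),(k0,(nat_lit 819)),(k5,(nat_lit 1008))],[(k2,
    (nat_lit 1008)),(k3,(nat_lit 1008)),(k0,(nat_lit 1155)),(k5,(nat_lit 1344))],[(k8,(nat_lit 1252)),(k4,
    (nat_lit 1344)),(k7,(nat_lit 1622)),(k1,(nat_lit 2205))],[(k8,(nat_lit 480)),(k1,(nat_lit 1433)),(k4,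
    (nat_lit 1622)),(k7,(nat_lit 1900))],[(k6,(nat_lit 480)),(k9,(nat_lit 500))],[(k6,(nat_lit 500)),(k9,
    (nat_lit 520))],[(k7,(nat_lit 480)),(k1,(nat_lit 1063)),(k8,(nat_lit 1160)),(k4,(nat_lit 1252))]]
    [[k2,k1,k0,k0,k0],[k2,k2,k0,k0,k0],[k0,k3,k0,k0,k0],[k0,k4,k0,k0,k0],[k0,k0,k0,k2,k2],[k0,k0,k0,k3,k3],[k0,k0,k0,
    k1,k3]]
    [.ref k3 k0 [(z1,[z1,z1,y1])],.ref k4 k0 [(z2,[z1,z2,y2])],.ref k5 k0 [(z1,[z1])],.ref k6 k0 [(z2,[z1])],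
    .contra [y1,y2,z2],.ref k7 k0 [(z1,[y1,y3,z3])],.ref k8 k0 [(z1,[y1,y1,z1])]]]

theorem hB5_10_0 : blkB [0, 0, 1, 2, 1] [(0, 2)] sp5 hS5_10 (pcls (n := 5) [0, 0, 1, 2, 1]) hD5_10 10 0 hN5_10_0 = true := by
  decide +kernel

/-- equations of the nodes for the classes `0 0 1 2 1`, active pairs `3-4` -/
noncomputable def hD5_11 : List (List (List Eqn)) :=
  [[[]]]

/-- symmetries -/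
noncomputable def hS5_11 : List (Bool × ℕ × List ℕ) :=
  []

/-- nodes 0 to 0 -/
noncomputable def hN5_11_0 : List HM :=
  [.base (.leafM k0 [k0,k1,k2] [] [(k3,k4,z1,[z1]),(k4,k3,z1,[z1])])]

theorem hB5_11_0 : blkB [0, 0, 1, 2, 1] [(3, 4)] sp5 hS5_11 (pcls (n := 5) [0, 0, 1, 2, 1]) hD5_11 1 0 hN5_11_0 = true := by
  decide +kernel

/-- equations of the nodes for the classes `0 1 0 1 2`, active pairs `1-2` -/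
noncomputable def hD5_13 : List (List (List Eqn)) :=
  [[[]]]

/-- symmetries -/
noncomputable def hS5_13 : List (Bool × ℕ × List ℕ) :=
  []

/-- nodes 0 to 0 -/
noncomputable def hN5_13_0 : List HM :=
  [.base (.leafM k0 [k0,k3,k4] [] [(k1,k2,z1,[z1]),(k2,k1,z1,[z1])])]

theorem hB5_13_0 : blkB [0, 1, 0, 1, 2] [(1, 2)] sp5 hS5_13 (pcls (n := 5) [0, 1, 0, 1, 2]) hD5_13 1 0 hN5_13_0 = true := by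
  decide +kernel

/-- equations of the nodes for the classes `0 0 0 1 1`, active pairs `0-3` -/
noncomputable def hD5_24 : List (List (List Eqn)) :=
  [[[([z6,z0,z0,z0,z0],z5),([z0,z3,z3,z0,z0],z2)],[([z3,z0,z0,z0,z0],z2),([z0,z3,z3,z0,z0],z1)],[([z4,z0,z0,z0,z0],
    z3),([z0,z2,z2,z0,z0],z1)],[([z2,z0,z0,z0,y1],z2)],[([z1,z0,z0,z0,y1],z1)],[([z0,z3,z3,z0,z0],z1)],[([z0,z2,z2,z0,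
    z0],z1)],[([z0,z5,z5,z0,z0],z3)],[([z0,z3,z3,z0,z0],z2)],[]]]

/-- symmetries -/
noncomputable def hS5_24 : List (Bool × ℕ × List ℕ) :=
  [(true,k3,[k3,k2,k1,k0,k4]),(false,k0,[k0,k1,k2,k3,k4])]

/-- nodes 0 to 9 -/
noncomputable def hN5_24_0 : List HM :=
  [.base (.leafM k4 [k2,k4,k1] [(z1,[z0,y1,y3,z3]),(z1,[z0,z1])] [(k3,k0,z1,[z0,z0,z1]),(k0,k3,z1,[z0,z0,z1])]),
    .base (.leafM k2 [k2,k4,k1] [(z1,[z0,y1,y3,z3]),(z1,[z0,z1])] [(k3,k0,z1,[z0,z0,z1]),(k0,k3,z1,[z0,z0,z1])]),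
    .base (.leafM k3 [k2,k4,k1] [(z1,[z0,y1,y2,z2]),(z1,[z0,z1])] [(k3,k0,z1,[z0,z0,z1]),(k0,k3,z1,[z0,z0,z1])]),
    .lp k0 [(nat_lit 1120),(nat_lit 2527),(nat_lit 2429),(nat_lit 2646),(nat_lit 1344)] [(nat_lit 1378),
    (nat_lit 1514),(nat_lit 1485),k0,k98,(nat_lit 1485),(nat_lit 683),(nat_lit 683),(nat_lit 1334),
    (nat_lit 1334)] k0 [[k0,k0,k189,k189,k0,k0,k0,k0,k0,k0],[k0,k0,k0,k0,k0,(nat_lit 2954),k0,k0,k0,k0],[k0,k189,k0,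
    k0,(nat_lit 287),k0,k0,k0,k0,k0],[k0,k189,k0,k0,(nat_lit 287),k0,k0,k0,k0,k0],[(nat_lit 2954),k0,k0,k0,k0,k0,k0,
    k0,k0,k0],[k0,k0,(nat_lit 287),(nat_lit 287),k0,k0,k0,k0,k0,k0],[k0,k0,k0,k0,k0,k0,k0,k0,k0,k0],[k0,k0,k0,k0,k0,
    k0,k0,k0,k84,k0],[k0,k0,k0,k0,k0,k0,k0,k0,k0,k0],[k0,k0,k0,k0,k0,k0,k84,k0,k0,k0]] (nat_lit 6720) k8
    [[(k1,(nat_lit 984)),(k9,(nat_lit 1080)),(k8,(nat_lit 1164)),(k6,(nat_lit 1815))],[(k2,(nat_lit 960)),(k5,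
    (nat_lit 960)),(k0,(nat_lit 1256)),(k4,(nat_lit 2536)),(k3,(nat_lit 2634)),(k7,(nat_lit 4905))],[(k4,
    (nat_lit 960)),(k0,(nat_lit 2634)),(k2,(nat_lit 2716)),(k5,(nat_lit 2716)),(k7,(nat_lit 3329)),(k3,
    (nat_lit 4012))],[(k0,(nat_lit 960)),(k2,(nat_lit 1042)),(k5,(nat_lit 1042)),(k7,(nat_lit 1557)),(k3,
    (nat_lit 2716)),(k4,(nat_lit 2716))],[(k0,(nat_lit 960)),(k2,(nat_lit 1042)),(k5,(nat_lit 1042)),(k7,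
    (nat_lit 1557)),(k3,(nat_lit 2716)),(k4,(nat_lit 2716))],[(k3,(nat_lit 960)),(k0,(nat_lit 2536)),(k2,
    (nat_lit 2716)),(k5,(nat_lit 2716)),(k7,(nat_lit 3231)),(k4,(nat_lit 3816))],[(k2,(nat_lit 1557)),(k5,
    (nat_lit 1557)),(k7,(nat_lit 2646)),(k4,(nat_lit 3231)),(k3,(nat_lit 3329)),(k0,(nat_lit 4905))],[(k1,
    (nat_lit 1815)),(k9,(nat_lit 1995)),(k8,(nat_lit 2079)),(k6,(nat_lit 2646))],[(k1,(nat_lit 1080)),(k8,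
    (nat_lit 1344)),(k9,(nat_lit 1344)),(k6,(nat_lit 1995))],[(k1,(nat_lit 1164)),(k8,(nat_lit 1344)),(k9,
    (nat_lit 1344)),(k6,(nat_lit 2079))]]
    [[k4,k0,k0,k0,k0],[k4,k1,k1,k0,k0],[k4,k0,k0,k0,k1],[k2,k1,k0,k0,k0],[k2,k2,k1,k0,k0],[k2,k1,k1,k0,k0],[k2,k2,k2,
    k0,k0],[k2,k1,k2,k0,k0],[k2,k0,k1,k0,k0],[k1,k1,k0,k1,k0],[k1,k1,k1,k1,k0],[k1,k0,k1,k1,k0],[k2,k0,k0,k0,k1],[k2,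
    k1,k0,k0,k1],[k2,k1,k1,k0,k1],[k2,k0,k1,k0,k1],[k1,k1,k1,k1,k1],[k2,k0,k0,k0,k2],[k2,k1,k1,k0,k2],[k2,k0,k0,k0,
    k3],[k0,k2,k1,k0,k0],[k0,k2,k2,k0,k0],[k0,k3,k3,k0,k0],[k0,k1,k2,k0,k0],[k0,k0,k0,k0,k3],[k0,k0,k0,k0,k4]]
    [.contra [z1,y1],.contra [z3,y2,z2,y2],.contra [z1,y1],.contra [y1,z1,y1,z1],.contra [z3,y2,z2,y2],.contra [z3,y2,
    z2,y2],.contra [z3,y2,z2,y2],.contra [z3,y2,z2,y2],.contra [y1,z1,y1,z1],.contra [z1,z0,y1],.contra [y1,z0,z0,z1],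
    .contra [z1,z0,y1],.contra [z1,z1],.contra [z1,y1],.contra [z2,y1,z2,y2],.contra [z1,y1],.contra [z3,z1,y1,y2],
    .contra [z1,z2],.contra [z2,y1,z2,y2],.contra [z1,z3],.contra [y1,z0,y2,z2],.contra [y1,z2,y2,z2],.ref k0 k0 [(z1,
    [z1,y3,z9,y3]),(z1,[z1])],.contra [y1,z0,y2,z2],.ref k1 k0 [(z2,[y1,y3,z6]),(z1,[y1,z0,y3,z3])],.ref k2 k0 [(z2,
    [y1,y4,z8]),(z2,[y1,z0,y4,z4])]],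
    .base (.leafM k0 [k3,k4,k0,k1,k2] [(z1,[y1,z1])] []),
    .base (.leafM k2 [k2,k4,k1] [(z1,[y1,y3,z3]),(z1,[z1])] [(k3,k0,z1,[z0,z1]),(k0,k3,z1,[z0,z1])]),
    .base (.leafM k3 [k2,k4,k1] [(z1,[y1,y2,z2]),(z1,[z1])] [(k3,k0,z1,[z0,z1]),(k0,k3,z1,[z0,z1])]),
    .lp (nat_lit 4097) [(nat_lit 672),(nat_lit 420),(nat_lit 420),(nat_lit 672),(nat_lit 336)] [k0,k0,(nat_lit 215),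
    k37,k43,(nat_lit 209),k0,k0,k168,k168] k0 [[k0,k0,k0,k0,k0,k0,k0,k0,k0,k0],[k0,k0,k0,k0,k0,(nat_lit 350),k0,k0,k0,
    k0],[k0,k0,k0,k0,k0,k0,k0,k0,k0,k0],[k0,k0,k0,k0,k0,k0,k0,k0,k0,k0],[(nat_lit 350),k0,k0,k0,k0,k0,k0,k0,k0,k0],
    [k0,k0,k0,k0,k0,k0,k0,k0,k0,k0],[k0,k0,k0,k0,k0,k0,k0,k0,k0,k0],[k0,k0,k0,k0,k0,k0,k0,k0,k0,k0],[k0,k0,k0,k0,k0,
    k0,k0,k0,k0,k0],[k0,k0,k0,k0,k0,k0,k0,k0,k0,k0]] (nat_lit 1680) k8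
    [[(k8,(nat_lit 504)),(k9,(nat_lit 504)),(k1,(nat_lit 672)),(k6,(nat_lit 672))],[(k2,(nat_lit 457)),(k5,
    (nat_lit 463)),(k4,(nat_lit 629)),(k3,(nat_lit 635)),(k0,(nat_lit 672)),(k7,(nat_lit 1022))],[(k4,(nat_lit 242)),
    (k2,(nat_lit 420)),(k5,(nat_lit 426)),(k3,(nat_lit 598)),(k0,(nat_lit 635)),(k7,(nat_lit 635))],[(k2,
    (nat_lit 242)),(k5,(nat_lit 248)),(k4,(nat_lit 414)),(k3,(nat_lit 420)),(k0,(nat_lit 457)),(k7,(nat_lit 457))],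
    [(k2,(nat_lit 248)),(k5,(nat_lit 254)),(k4,(nat_lit 420)),(k3,(nat_lit 426)),(k0,(nat_lit 463)),(k7,
    (nat_lit 463))],[(k3,(nat_lit 242)),(k2,(nat_lit 414)),(k5,(nat_lit 420)),(k4,(nat_lit 586)),(k0,(nat_lit 629)),
    (k7,(nat_lit 629))],[(k2,(nat_lit 457)),(k5,(nat_lit 463)),(k4,(nat_lit 629)),(k3,(nat_lit 635)),(k7,
    (nat_lit 672)),(k0,(nat_lit 1022))],[(k8,(nat_lit 504)),(k9,(nat_lit 504)),(k1,(nat_lit 672)),(k6,(nat_lit 672))],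
    [(k8,(nat_lit 336)),(k9,(nat_lit 336)),(k1,(nat_lit 504)),(k6,(nat_lit 504))],[(k8,(nat_lit 336)),(k9,
    (nat_lit 336)),(k1,(nat_lit 504)),(k6,(nat_lit 504))]]
    [[k0,k3,k0,k0,k0],[k0,k3,k1,k0,k0],[k0,k2,k1,k0,k0],[k0,k3,k2,k0,k0],[k0,k2,k2,k0,k0],[k0,k3,k3,k0,k0],[k0,k2,k3,
    k0,k0],[k0,k1,k2,k0,k0],[k0,k1,k3,k0,k0],[k0,k0,k3,k0,k0],[k0,k0,k0,k0,k3],[k0,k0,k0,k0,k4]]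
    [.contra [y3,z2],.contra [y3,z2],.contra [y3,z2],.contra [y3,z2],.contra [z3,y2,y4,z4],.contra [z3,y2,y1,z1],
    .contra [y3,z2],.contra [y3,z2],.contra [y3,z2],.contra [y3,z2],.contra [z3,z1,z5,y5],.contra [z3,z2,z10,y10]],
    .base (.leafM k4 [k2,k4,k1] [(z1,[y1,y3,z3]),(z1,[z1])] [(k3,k0,z1,[z0,z1]),(k0,k3,z1,[z0,z1])]),
    .lp k0 [(nat_lit 1122),(nat_lit 1116),(nat_lit 1094),(nat_lit 1200),(nat_lit 480)] [(nat_lit 315),(nat_lit 315),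
    (nat_lit 636),k0,(nat_lit 234),(nat_lit 424),(nat_lit 276),(nat_lit 276),(nat_lit 636),(nat_lit 636)] k0 [[k0,k8,
    k4,k0,k0,k0,k0,k0,k0,k0],[k0,k0,k0,k0,k26,(nat_lit 1038),k0,k0,k0,k0],[k0,k0,k0,k0,k78,k0,k0,k0,k0,k0],[k0,k4,k0,
    k0,k0,k0,k0,k0,k0,k0],[(nat_lit 1038),k0,k0,k0,k0,k0,k0,k0,k0,k0],[k26,k0,k0,k78,k0,k0,k0,k0,k0,k0],[k0,k0,k0,k0,
    k0,k0,k0,k0,k0,k0],[k0,k0,k0,k0,k0,k0,k0,k0,k0,k0],[k0,k0,k0,k0,k0,k0,k0,k0,k0,k0],[k0,k0,k0,k0,k0,k0,k0,k0,k0,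
    k0]] (nat_lit 3360) k8
    [[(k8,(nat_lit 801)),(k9,(nat_lit 801)),(k1,(nat_lit 1122)),(k6,(nat_lit 1161))],[(k2,(nat_lit 801)),(k5,
    (nat_lit 1009)),(k0,(nat_lit 1114)),(k4,(nat_lit 1229)),(k3,(nat_lit 1437)),(k7,(nat_lit 2199))],[(k4,
    (nat_lit 480)),(k2,(nat_lit 1120)),(k5,(nat_lit 1328)),(k0,(nat_lit 1437)),(k7,(nat_lit 1450)),(k3,
    (nat_lit 1760))],[(k2,(nat_lit 480)),(k5,(nat_lit 692)),(k7,(nat_lit 762)),(k0,(nat_lit 801)),(k4,(nat_lit 882)),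
    (k3,(nat_lit 1120))],[(k2,(nat_lit 692)),(k5,(nat_lit 904)),(k0,(nat_lit 1009)),(k7,(nat_lit 1052)),(k4,
    (nat_lit 1172)),(k3,(nat_lit 1328))],[(k3,(nat_lit 480)),(k2,(nat_lit 882)),(k5,(nat_lit 1172)),(k0,
    (nat_lit 1229)),(k7,(nat_lit 1242)),(k4,(nat_lit 1284))],[(k2,(nat_lit 762)),(k5,(nat_lit 1052)),(k7,
    (nat_lit 1200)),(k4,(nat_lit 1242)),(k3,(nat_lit 1450)),(k0,(nat_lit 2199))],[(k8,(nat_lit 840)),(k9,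
    (nat_lit 840)),(k1,(nat_lit 1161)),(k6,(nat_lit 1200))],[(k8,(nat_lit 480)),(k9,(nat_lit 480)),(k1,(nat_lit 801)),
    (k6,(nat_lit 840))],[(k8,(nat_lit 480)),(k9,(nat_lit 480)),(k1,(nat_lit 801)),(k6,(nat_lit 840))]]
    [[k2,k0,k0,k0,k1],[k2,k0,k0,k0,k2],[k0,k2,k1,k0,k0],[k0,k2,k2,k0,k0],[k0,k1,k2,k0,k0],[k0,k0,k0,k2,k1],[k0,k0,k0,
    k0,k3],[k0,k0,k0,k0,k4],[k0,k0,k0,k0,k5],[k0,k0,k0,k0,k6]]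
    [.ref k3 k0 [(z1,[y1,z2])],.ref k4 k0 [(z2,[y1,z2])],.contra [y1,y2,z2],.contra [y1,y2,z2],.contra [y1,y2,z2],
    .ref k3 k1 [(z1,[y1,z2])],.ref k5 k1 [(z1,[y1,y3,z3])],.ref k6 k1 [(z2,[y1,y4,z4])],.ref k7 k1 [(z1,[y1,y5,z5])],
    .ref k8 k1 [(z2,[y1,y6,z6])]]]

theorem hB5_24_0 : blkB [0, 0, 0, 1, 1] [(0, 3)] sp5 hS5_24 (pcls (n := 5) [0, 0, 0, 1, 1]) hD5_24 10 0 hN5_24_0 = true := by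
  decide +kernel

/-- equations of the nodes for the classes `0 0 1 0 1`, active pairs `` -/
noncomputable def hD5_26 : List (List (List Eqn)) :=
  [[[([z1,z1,z1,z0,z0],z2)],[([z1,z0,z0,z1,z0],z1)],[([z1,z0,z0,z0,z1],z1)],[([z1,z0,y1,z0,z0],z0),([z0,z1,z2,z0,z0],
    z2)],[([z1,z0,z0,y1,z0],z0),([z0,z1,z0,z2,z0],z2)],[([z1,z0,z0,z0,y1],z0),([z0,z1,z0,z0,z2],z2)],[([z1,z0,z0,z0,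
    z1],z1),([z0,z1,z0,z0,y2],z0)],[([z1,z0,z0,z1,z0],z1),([z0,z1,z0,y2,z0],z0)],[([z1,z0,y1,y1,y1],y1)],[]]]

/-- symmetries -/
noncomputable def hS5_26 : List (Bool × ℕ × List ℕ) :=
  [(false,k0,[k0,k1,k2,k3,k4]),(true,k2,[k2,k1,k0,k4,k3])]

/-- nodes 0 to 9 -/
noncomputable def hN5_26_0 : List HM :=
  [.base (.leafM k0 [k3,k4,k0,k1,k2] [(z1,[y1,z1])] []),
    .base (.leafM k2 [k2,k3,k4,k0,k1] [(z1,[z1])] []),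
    .base (.leafM k0 [k4,k0,k1,k2,k3] [(z1,[z1])] []),
    .base (.leafM k0 [k3,k4,k0,k1,k2] [(z1,[y1,y1,z1])] []),
    .base (.leafM k2 [k1,k2,k3,k4,k0] [(z1,[y1,y1,z1])] []),
    .base (.leafM k0 [k2,k3,k4,k0,k1] [(z1,[y1,y1,z1])] []),
    .base (.leafM k0 [k4,k0,k1,k2,k3] [(z1,[z1])] []),
    .base (.leafM k2 [k2,k3,k4,k0,k1] [(z1,[z1])] []),
    .lp k0 [k6,k10,k6,k6,k7] [k2,k2,k0,k0,k2,k2,k2,k2,k2,k1] k0 [[k0,k0,k0,k0,k0,k0,k1,k0,k0,k0],[k0,k0,k2,k0,k0,k0,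
    k0,k0,k0,k0],[k0,k0,k0,k0,k0,k0,k0,k0,k0,k0],[k2,k0,k0,k0,k0,k0,k1,k0,k0,k0],[k0,k0,k0,k0,k0,k0,k0,k0,k0,k0],[k0,
    k0,k0,k0,k0,k0,k0,k0,k0,k0],[k0,k0,k0,k0,k0,k0,k0,k0,k0,k0],[k0,k1,k1,k0,k0,k0,k0,k0,k0,k0],[k0,k0,k0,k0,k0,k0,k0,
    k0,k0,k0],[k0,k0,k0,k0,k0,k0,k0,k0,k0,k0]] k24 k5
    [[(k1,k6),(k4,k6),(k7,k6),(k8,k6)],[(k0,k6),(k5,k6),(k6,k6),(k9,k6),(k3,k8),(k2,k10)],[(k5,k6),(k0,k8),(k6,k9),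
    (k9,k9),(k2,k10),(k3,k10)],[(k5,k8),(k6,k9),(k9,k9),(k0,k10),(k2,k10),(k3,k10)],[(k0,k6),(k3,k6),(k5,k6),(k6,k6),
    (k9,k6),(k2,k8)],[(k1,k6),(k4,k6),(k7,k6),(k8,k6)],[(k1,k6),(k4,k6),(k7,k6),(k8,k6)],[(k0,k6),(k5,k6),(k6,k6),(k9,
    k7),(k2,k9),(k3,k9)],[(k0,k6),(k5,k6),(k6,k7),(k9,k8),(k2,k9),(k3,k9)],[(k1,k6),(k4,k6),(k7,k6),(k8,k6)]]
    [[k1,k1,k1,k0,k0],[k1,k1,k0,k1,k0],[k1,k1,k0,k0,k1],[k0,k1,k2,k0,k0],[k0,k1,k1,k1,k0],[k0,k1,k1,k0,k1]]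
    [.ref k3 k0 [(z1,[y1,z1,z1]),(z1,[z2,y1,y1])],.ref k4 k0 [(z1,[y1,z1,z1]),(z1,[z2,y1,y1])],.ref k5 k0 [(z1,[y1,z1,
    z1]),(z1,[z2,y1,y1])],.ref k3 k0 [(z2,[y1,z1,z1]),(z1,[z1])],.ref k6 k0 [(z1,[y1,z0,z1]),(z1,[z2,z1,y1])],
    .ref k7 k0 [(z1,[y1,z0,z1]),(z1,[z2,z1,y1])]],
    .lp k0 [k6,k10,k6,k6,k7] [k2,k2,k0,k0,k2,k2,k2,k2,k2,k1] k0 [[k0,k0,k0,k0,k0,k0,k1,k0,k0,k0],[k0,k0,k2,k0,k0,k0,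
    k0,k0,k0,k0],[k0,k0,k0,k0,k0,k0,k0,k0,k0,k0],[k2,k0,k0,k0,k0,k0,k1,k0,k0,k0],[k0,k0,k0,k0,k0,k0,k0,k0,k0,k0],[k0,
    k0,k0,k0,k0,k0,k0,k0,k0,k0],[k0,k0,k0,k0,k0,k0,k0,k0,k0,k0],[k0,k1,k1,k0,k0,k0,k0,k0,k0,k0],[k0,k0,k0,k0,k0,k0,k0,
    k0,k0,k0],[k0,k0,k0,k0,k0,k0,k0,k0,k0,k0]] k24 k5
    [[(k1,k6),(k4,k6),(k7,k6),(k8,k6)],[(k0,k6),(k5,k6),(k6,k6),(k9,k6),(k3,k8),(k2,k10)],[(k5,k6),(k0,k8),(k6,k9),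
    (k9,k9),(k2,k10),(k3,k10)],[(k5,k8),(k6,k9),(k9,k9),(k0,k10),(k2,k10),(k3,k10)],[(k0,k6),(k3,k6),(k5,k6),(k6,k6),
    (k9,k6),(k2,k8)],[(k1,k6),(k4,k6),(k7,k6),(k8,k6)],[(k1,k6),(k4,k6),(k7,k6),(k8,k6)],[(k0,k6),(k5,k6),(k6,k6),(k9,
    k7),(k2,k9),(k3,k9)],[(k0,k6),(k5,k6),(k6,k7),(k9,k8),(k2,k9),(k3,k9)],[(k1,k6),(k4,k6),(k7,k6),(k8,k6)]]
    [[k1,k1,k1,k0,k0],[k1,k1,k0,k1,k0],[k1,k1,k0,k0,k1],[k0,k1,k2,k0,k0],[k0,k1,k1,k1,k0],[k0,k1,k1,k0,k1]]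
    [.ref k0 k0 [(z1,[z1])],.ref k1 k1 [(z1,[y1,z1])],.ref k2 k1 [(z1,[y1,z1])],.ref k8 k1 [(z1,[z1,y1])],
    .ref k2 k0 [(z1,[y1,z1])],.ref k1 k0 [(z1,[y1,z1])]]]

theorem hB5_26_0 : blkB [0, 0, 1, 0, 1] [] sp5 hS5_26 (pcls (n := 5) [0, 0, 1, 0, 1]) hD5_26 10 0 hN5_26_0 = true := by
  decide +kernel

/-- equations of the nodes for the classes `0 0 1 2 2 3`, active pairs `` -/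
noncomputable def hD6_12 : List (List (List Eqn)) :=
  [[[([z1,z0,y1,z0,z0,z0],z0),([z0,z1,z2,z0,z0,z0],z2),([z0,z0,z0,z1,z0,y1],z0)],[([z1,z0,y1,z0,z0,z0],z0),([z0,z1,z2,
    z0,z0,z0],z2)],[([z1,z0,y1,y1,y1,y1],y2)],[]]]

/-- symmetries -/
noncomputable def hS6_12 : List (Bool × ℕ × List ℕ) :=
  [(false,k0,[k0,k1,k2,k3,k4,k5]),(true,k2,[k2,k1,k0,k5,k4,k3])]

/-- nodes 0 to 3 -/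
noncomputable def hN6_12_0 : List HM :=
  [.base (.spec k11 false k0 [(z1,[z2,z1]),(z1,[y1]),(z1,[y1,y1,z1,z1]),(z1,[z0,z0,y1])]),
    .lp k0 [k6,k12,k6,k8,k8,k6] [k3,k3,k0,k0,k3,k3,k2,k2,k2,k2,k3,k3] k0 [[k0,k0,k0,k0,k0,k0,k0,k0,k0,k0,k0,k0],[k0,
    k0,k0,k0,k0,k0,k0,k0,k0,k0,k0,k0],[k0,k0,k0,k0,k0,k0,k0,k0,k0,k0,k0,k0],[k0,k0,k0,k0,k0,k0,k0,k0,k0,k0,k0,k0],[k0,
    k0,k0,k0,k0,k0,k0,k0,k0,k0,k0,k0],[k0,k0,k0,k0,k0,k0,k0,k0,k0,k0,k0,k0],[k0,k0,k0,k0,k0,k0,k0,k0,k0,k0,k0,k0],[k0,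
    k0,k0,k0,k0,k0,k0,k0,k0,k0,k0,k0],[k0,k0,k0,k0,k0,k0,k0,k0,k0,k0,k0,k0],[k0,k0,k0,k0,k0,k0,k0,k0,k0,k0,k0,k0],[k0,
    k0,k0,k0,k0,k0,k0,k0,k0,k0,k0,k0],[k0,k0,k0,k0,k0,k0,k0,k0,k0,k0,k0,k0]] k24 k5
    [[(k1,k6),(k10,k6)],[(k0,k6),(k5,k6),(k2,k9),(k3,k9)],[(k0,k9),(k5,k9),(k2,k12),(k3,k12)],[(k0,k9),(k5,k9),(k2,
    k12),(k3,k12)],[(k0,k6),(k5,k6),(k2,k9),(k3,k9)],[(k4,k6),(k7,k7)],[(k4,k7),(k7,k8)],[(k11,k7),(k6,k8),(k8,k8),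
    (k9,k8)],[(k11,k7),(k6,k8),(k8,k8),(k9,k8)],[(k11,k7),(k6,k8),(k8,k8),(k9,k8)],[(k11,k6),(k6,k7),(k8,k7),(k9,k7)],
    [(k1,k6),(k10,k6)]]
    [[k0,k0,k0,k0,k1,k2]]
    [.ref k0 k0 [(z1,[z0,z1]),(z1,[z0,z0,z1]),(z1,[y1,y1,y1,z1])]],
    .lp k0 [k8,k8,k6,k8,k8,k8] [k0,k0,k0,k0,k1,k1,k0,k0,k0,k0,k0,k0] k0 [[k0,k0,k0,k0,k0,k0,k0,k0,k0,k0,k0,k0],[k0,k0,
    k0,k0,k0,k0,k0,k0,k0,k0,k0,k0],[k0,k0,k0,k0,k0,k0,k0,k0,k0,k0,k0,k0],[k0,k0,k0,k0,k0,k0,k0,k0,k0,k0,k0,k0],[k0,k0,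
    k0,k0,k0,k0,k0,k0,k0,k0,k0,k0],[k0,k0,k0,k0,k0,k0,k0,k0,k0,k0,k0,k0],[k0,k0,k0,k0,k0,k0,k0,k0,k0,k0,k0,k0],[k0,k0,
    k0,k0,k0,k0,k0,k0,k0,k0,k0,k0],[k0,k0,k0,k0,k0,k0,k0,k0,k0,k0,k0,k0],[k0,k0,k0,k0,k0,k0,k0,k0,k0,k0,k0,k0],[k0,k0,
    k0,k0,k0,k0,k0,k0,k0,k0,k0,k0],[k0,k0,k0,k0,k0,k0,k0,k0,k0,k0,k0,k0]] k24 k5
    [[(k1,k8),(k10,k8)],[(k5,k7),(k0,k8),(k2,k8),(k3,k8)],[(k5,k7),(k0,k8),(k2,k8),(k3,k8)],[(k5,k7),(k0,k8),(k2,k8),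
    (k3,k8)],[(k5,k6),(k0,k7),(k2,k7),(k3,k7)],[(k4,k6),(k7,k7)],[(k4,k7),(k7,k8)],[(k6,k8),(k8,k8),(k9,k8),(k11,k8)],
    [(k6,k8),(k8,k8),(k9,k8),(k11,k8)],[(k6,k8),(k8,k8),(k9,k8),(k11,k8)],[(k6,k8),(k8,k8),(k9,k8),(k11,k8)],[(k1,k8),
    (k10,k8)]]
    [[k0,k1,k2,k0,k0,k0]]
    [.ref k1 k0 [(z2,[y1,z1,z1]),(z1,[z1])]],
    .lp k0 [k8,k8,k6,k8,k8,k8] [k0,k0,k0,k0,k1,k1,k0,k0,k0,k0,k0,k0] k0 [[k0,k0,k0,k0,k0,k0,k0,k0,k0,k0,k0,k0],[k0,k0,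
    k0,k0,k0,k0,k0,k0,k0,k0,k0,k0],[k0,k0,k0,k0,k0,k0,k0,k0,k0,k0,k0,k0],[k0,k0,k0,k0,k0,k0,k0,k0,k0,k0,k0,k0],[k0,k0,
    k0,k0,k0,k0,k0,k0,k0,k0,k0,k0],[k0,k0,k0,k0,k0,k0,k0,k0,k0,k0,k0,k0],[k0,k0,k0,k0,k0,k0,k0,k0,k0,k0,k0,k0],[k0,k0,
    k0,k0,k0,k0,k0,k0,k0,k0,k0,k0],[k0,k0,k0,k0,k0,k0,k0,k0,k0,k0,k0,k0],[k0,k0,k0,k0,k0,k0,k0,k0,k0,k0,k0,k0],[k0,k0,
    k0,k0,k0,k0,k0,k0,k0,k0,k0,k0],[k0,k0,k0,k0,k0,k0,k0,k0,k0,k0,k0,k0]] k24 k5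
    [[(k1,k8),(k10,k8)],[(k5,k7),(k0,k8),(k2,k8),(k3,k8)],[(k5,k7),(k0,k8),(k2,k8),(k3,k8)],[(k5,k7),(k0,k8),(k2,k8),
    (k3,k8)],[(k5,k6),(k0,k7),(k2,k7),(k3,k7)],[(k4,k6),(k7,k7)],[(k4,k7),(k7,k8)],[(k6,k8),(k8,k8),(k9,k8),(k11,k8)],
    [(k6,k8),(k8,k8),(k9,k8),(k11,k8)],[(k6,k8),(k8,k8),(k9,k8),(k11,k8)],[(k6,k8),(k8,k8),(k9,k8),(k11,k8)],[(k1,k8),
    (k10,k8)]]
    [[k0,k1,k2,k0,k0,k0]]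
    [.ref k2 k1 [(z1,[z1,y1])]]]

theorem hB6_12_0 : blkB [0, 0, 1, 2, 2, 3] [] sp6 hS6_12 (pcls (n := 6) [0, 0, 1, 2, 2, 3]) hD6_12 4 0 hN6_12_0 = true := by
  decide +kernel

/-- equations of the nodes for the classes `0 0 0 1 1 2`, active pairs `` -/
noncomputable def hD6_37 : List (List (List Eqn)) :=
  [[[([z1,z0,y1,z0,z0,z0],z0),([z0,z1,z2,z0,z0,z0],z2),([z0,z0,z0,z1,z0,y1],z0)],[([z1,z0,y1,y1,z0,z1],z0),([z0,z1,z2,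
    z2,z0,y2],z2)],[([z1,z1,z1,z1,z0,y1],z2)],[]]]

/-- symmetries -/
noncomputable def hS6_37 : List (Bool × ℕ × List ℕ) :=
  [(false,k0,[k0,k1,k2,k3,k4,k5])]

/-- nodes 0 to 3 -/
noncomputable def hN6_37_0 : List HM :=
  [.base (.spec k11 false k0 [(z1,[z2,z1]),(z1,[y1]),(z1,[y1,y1,z1,z1]),(z1,[z0,z0,y1])]),
    .lp k0 [k158,k166,k148,k184,k160,k136] [k13,k13,k9,k9,k18,k18,k0,k0,k12,k12,k24,k24] k0 [[k0,k0,k2,k2,k0,k0,k0,k0,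
    k0,k0,k0,k0],[k0,k0,k0,k0,k18,k2,k0,k0,k0,k0,k0,k0],[k0,k2,k0,k0,k36,k0,k0,k0,k0,k0,k0,k0],[k0,k2,k0,k0,k0,k0,k0,
    k0,k0,k0,k0,k0],[k2,k0,k0,k0,k0,k0,k0,k0,k0,k0,k0,k0],[k18,k0,k0,k36,k0,k0,k0,k0,k0,k0,k0,k0],[k0,k0,k0,k0,k0,k0,
    k0,k0,k0,k48,k0,k0],[k0,k0,k0,k0,k0,k0,k0,k0,k0,k0,k0,k0],[k0,k0,k0,k0,k0,k0,k0,k48,k0,k0,k0,k0],[k0,k0,k0,k0,k0,
    k0,k0,k0,k0,k0,k0,k0],[k0,k0,k0,k0,k0,k0,k0,k0,k0,k0,k0,k0],[k0,k0,k0,k0,k0,k0,k0,k0,k0,k0,k0,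
    k0]] (nat_lit 480) k5
    [[(k10,k147),(k1,k158)],[(k5,k151),(k0,k158),(k2,k160),(k3,k162),(k4,k171),(k7,k173)],[(k4,k155),(k7,k157),(k5,
    k159),(k0,k162),(k3,k166),(k2,k168)],[(k7,k139),(k4,k157),(k5,k157),(k0,k160),(k2,k166),(k3,k168)],[(k5,k148),(k0,
    k151),(k2,k157),(k3,k159),(k7,k166),(k4,k184)],[(k4,k148),(k3,k155),(k2,k157),(k7,k166),(k0,k171),(k5,k184)],[(k2,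
    k139),(k3,k157),(k4,k166),(k5,k166),(k0,k173),(k7,k184)],[(k8,k124),(k11,k160),(k9,k172),(k6,k184)],[(k8,k160),
    (k9,k160),(k6,k172),(k11,k196)],[(k6,k124),(k11,k148),(k8,k160),(k9,k160)],[(k11,k136),(k8,k148),(k6,k160),(k9,
    k196)],[(k10,k136),(k1,k147)]]
    [[k0,k1,k2,k0,k0,k0]]
    [.ref k0 k0 [(z2,[y1,z2,z1]),(z1,[z1]),(z2,[y1,z0,z1])]],
    .lp k0 [k80,k78,k84,k82,k80,k72] [k2,k2,k3,k3,k0,k0,k1,k1,k2,k2,k6,k6] k0 [[k0,k0,k6,k6,k0,k0,k0,k0,k0,k0,k0,k0],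
    [k0,k0,k0,k0,k2,k6,k0,k0,k0,k0,k0,k0],[k0,k6,k0,k0,k0,k0,k0,k0,k0,k0,k0,k0],[k0,k6,k0,k0,k0,k0,k0,k0,k0,k0,k0,k0],
    [k6,k0,k0,k0,k0,k12,k0,k0,k0,k0,k0,k0],[k2,k0,k0,k0,k0,k0,k0,k0,k0,k0,k0,k0],[k0,k0,k0,k0,k0,k0,k0,k0,k0,k16,k0,
    k0],[k0,k0,k0,k0,k0,k0,k0,k0,k0,k0,k0,k0],[k0,k0,k0,k0,k0,k0,k0,k16,k0,k0,k0,k0],[k0,k0,k0,k0,k0,k0,k0,k0,k0,k0,
    k0,k0],[k0,k0,k0,k0,k0,k0,k0,k0,k0,k0,k0,k0],[k0,k0,k0,k0,k0,k0,k0,k0,k0,k0,k0,k0]] (nat_lit 240) k5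
    [[(k10,k76),(k1,k80)],[(k2,k73),(k5,k76),(k3,k79),(k0,k80),(k4,k84),(k7,k87)],[(k4,k75),(k3,k78),(k7,k78),(k0,
    k79),(k2,k84),(k5,k87)],[(k0,k73),(k2,k78),(k7,k80),(k4,k81),(k5,k81),(k3,k84)],[(k0,k76),(k2,k81),(k7,k83),(k4,
    k84),(k5,k84),(k3,k87)],[(k4,k72),(k3,k75),(k2,k81),(k7,k83),(k0,k84),(k5,k84)],[(k3,k78),(k2,k80),(k4,k83),(k5,
    k83),(k0,k87),(k7,k94)],[(k8,k65),(k11,k77),(k9,k81),(k6,k82)],[(k8,k80),(k9,k80),(k6,k81),(k11,k92)],[(k6,k65),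
    (k11,k76),(k8,k80),(k9,k80)],[(k11,k72),(k8,k76),(k6,k77),(k9,k92)],[(k10,k72),(k1,k76)]]
    [[k2,k1,k0,k0,k0,k0]]
    [.ref k1 k0 [(z1,[z1,y1]),(z1,[y1,z2])]],
    .lp k0 [(nat_lit 840),(nat_lit 798),(nat_lit 798),(nat_lit 760),(nat_lit 760),(nat_lit 570)] [k0,k0,k21,k21,k21,
    k21,k40,k40,k40,k40,k135,k135] k0 [[k0,k0,k0,k0,k0,k0,k0,k0,k0,k0,k0,k0],[k0,k0,k0,k0,k0,k114,k0,k0,k0,k0,k0,k0],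
    [k0,k0,k0,k0,k0,k0,k0,k0,k0,k0,k0,k0],[k0,k0,k0,k0,k0,k0,k0,k0,k0,k0,k0,k0],[k114,k0,k0,k0,k0,k0,k0,k0,k0,k0,k0,
    k0],[k0,k0,k0,k0,k0,k0,k0,k0,k0,k0,k0,k0],[k0,k0,k0,k0,k0,k0,k0,k0,k0,k0,k0,k0],[k0,k0,k0,k0,k0,k0,k0,k0,k0,k0,k0,
    k0],[k0,k0,k0,k0,k0,k0,k0,k0,k0,k0,k0,k0],[k0,k0,k0,k0,k0,k0,k0,k0,k0,k0,k0,k0],[k0,k0,k0,k0,k0,k0,k0,k0,k0,k0,k0,
    k0],[k0,k0,k0,k0,k0,k0,k0,k0,k0,k0,k0,k0]] (nat_lit 2280) k5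
    [[(k10,(nat_lit 705)),(k1,(nat_lit 840))],[(k2,(nat_lit 819)),(k3,(nat_lit 819)),(k4,(nat_lit 819)),(k5,
    (nat_lit 819)),(k0,(nat_lit 840)),(k7,(nat_lit 914))],[(k4,(nat_lit 684)),(k7,(nat_lit 779)),(k2,(nat_lit 798)),
    (k3,(nat_lit 798)),(k5,(nat_lit 798)),(k0,(nat_lit 819))],[(k7,(nat_lit 779)),(k2,(nat_lit 798)),(k3,
    (nat_lit 798)),(k4,(nat_lit 798)),(k5,(nat_lit 798)),(k0,(nat_lit 819))],[(k7,(nat_lit 779)),(k2,(nat_lit 798)),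
    (k3,(nat_lit 798)),(k4,(nat_lit 798)),(k5,(nat_lit 798)),(k0,(nat_lit 819))],[(k3,(nat_lit 684)),(k7,
    (nat_lit 779)),(k2,(nat_lit 798)),(k4,(nat_lit 798)),(k5,(nat_lit 798)),(k0,(nat_lit 819))],[(k7,(nat_lit 760)),
    (k2,(nat_lit 779)),(k3,(nat_lit 779)),(k4,(nat_lit 779)),(k5,(nat_lit 779)),(k0,(nat_lit 914))],[(k11,
    (nat_lit 665)),(k6,(nat_lit 760)),(k8,(nat_lit 760)),(k9,(nat_lit 760))],[(k11,(nat_lit 665)),(k6,(nat_lit 760)),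
    (k8,(nat_lit 760)),(k9,(nat_lit 760))],[(k11,(nat_lit 665)),(k6,(nat_lit 760)),(k8,(nat_lit 760)),(k9,
    (nat_lit 760))],[(k11,(nat_lit 570)),(k6,(nat_lit 665)),(k8,(nat_lit 665)),(k9,(nat_lit 665))],[(k10,
    (nat_lit 570)),(k1,(nat_lit 705))]]
    [[k0,k0,k0,k0,k1,k2]]
    [.ref k2 k0 [(z1,[y1,z1])]]]

theorem hB6_37_0 : blkB [0, 0, 0, 1, 1, 2] [] sp6 hS6_37 (pcls (n := 6) [0, 0, 0, 1, 1, 2]) hD6_37 4 0 hN6_37_0 = true := by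
  decide +kernel

/-- equations of the nodes for the classes `0 0 0 1 2 1`, active pairs `0-3` -/
noncomputable def hD6_40 : List (List (List Eqn)) :=
  [[[([z0,z1,z1,z0,z0,z0],z1)],[([z0,z1,z1,z0,z0,z0],z1),([z0,z0,z0,z0,z2,z0],z1)],[([z0,z1,z1,z0,z0,y2],z0)],[]]]

/-- symmetries -/
noncomputable def hS6_40 : List (Bool × ℕ × List ℕ) :=
  [(false,k0,[k0,k1,k2,k3,k4,k5])]

/-- nodes 0 to 3 -/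
noncomputable def hN6_40_0 : List HM :=
  [.base (.leafM k4 [k2,k4,k5,k1] [(z1,[y1,y1,z1])] [(k3,k0,z1,[z0,z1]),(k0,k3,z1,[z0,z1])]),
    .base (.leafM k4 [k2,k4,k5,k1] [(z1,[y1,z0,y1,z1])] [(k3,k0,z1,[z0,z0,z1]),(k0,k3,z1,[z0,z0,z1])]),
    .lp k0 [k74,k100,k100,k70,k60,k72] [k21,k21,k16,k0,k8,k8,k23,k23,k34,k22,k10,k34] k0 [[k0,k0,k0,k0,k0,k0,k0,k0,k0,
    k0,k0,k0],[k0,k0,k0,k0,k0,k60,k0,k0,k0,k0,k0,k0],[k0,k0,k0,k0,k0,k0,k0,k0,k0,k0,k0,k0],[k0,k0,k0,k0,k0,k0,k0,k0,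
    k0,k0,k0,k0],[k60,k0,k0,k0,k0,k0,k0,k0,k0,k0,k0,k0],[k0,k0,k0,k0,k0,k0,k0,k0,k0,k0,k0,k0],[k0,k0,k0,k0,k0,k0,k0,
    k0,k0,k0,k0,k0],[k0,k0,k0,k0,k0,k0,k0,k0,k0,k0,k0,k36],[k0,k0,k0,k0,k0,k0,k0,k0,k0,k0,k0,k0],[k0,k0,k0,k0,k0,k0,
    k0,k0,k0,k0,k0,k0],[k0,k0,k0,k0,k0,k0,k36,k0,k0,k0,k0,k0],[k0,k0,k0,k0,k0,k0,k0,k0,k0,k0,k0,k0]] (nat_lit 240) k6
    [[(k9,k73),(k1,k74),(k10,k85),(k6,k108)],[(k0,k74),(k2,k79),(k4,k87),(k5,k87),(k3,k95),(k7,k132)],[(k4,k48),(k7,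
    k93),(k0,k95),(k2,k100),(k5,k108),(k3,k116)],[(k7,k77),(k0,k79),(k2,k84),(k4,k92),(k5,k92),(k3,k100)],[(k7,k85),
    (k0,k87),(k2,k92),(k4,k100),(k5,k100),(k3,k108)],[(k3,k48),(k7,k85),(k0,k87),(k2,k92),(k4,k100),(k5,k100)],[(k7,
    k70),(k2,k77),(k4,k85),(k5,k85),(k3,k93),(k0,k132)],[(k6,k70),(k9,k71),(k10,k83),(k1,k108)],[(k10,k48),(k6,k71),
    (k9,k72),(k1,k73)],[(k8,k48),(k11,k48)],[(k8,k48),(k11,k48)],[(k9,k48),(k6,k83),(k1,k85),(k10,k96)]]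
    [[k0,k0,k0,k0,k3,k1],[k0,k0,k0,k0,k2,k2]]
    [.ref k1 k0 [(z4,[y1,z1,y3,z3]),(z4,[z3,z1,z1,y1])],.ref k1 k0 [(z2,[y1,z0,y2,z2]),(z2,[z3,z2,z2,y2])]],
    .lp k0 [k74,k100,k100,k70,k72,k60] [k21,k21,k16,k0,k8,k8,k23,k23,k34,k10,k22,k34] k0 [[k0,k0,k0,k0,k0,k0,k0,k0,k0,
    k0,k0,k0],[k0,k0,k0,k0,k0,k60,k0,k0,k0,k0,k0,k0],[k0,k0,k0,k0,k0,k0,k0,k0,k0,k0,k0,k0],[k0,k0,k0,k0,k0,k0,k0,k0,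
    k0,k0,k0,k0],[k60,k0,k0,k0,k0,k0,k0,k0,k0,k0,k0,k0],[k0,k0,k0,k0,k0,k0,k0,k0,k0,k0,k0,k0],[k0,k0,k0,k0,k0,k0,k0,
    k0,k0,k0,k0,k0],[k0,k0,k0,k0,k0,k0,k0,k0,k0,k0,k0,k36],[k0,k0,k0,k0,k0,k0,k0,k0,k0,k0,k0,k0],[k0,k0,k0,k0,k0,k0,
    k0,k0,k0,k0,k0,k0],[k0,k0,k0,k0,k0,k0,k36,k0,k0,k0,k0,k0],[k0,k0,k0,k0,k0,k0,k0,k0,k0,k0,k0,k0]] (nat_lit 240) k6
    [[(k10,k73),(k1,k74),(k9,k85),(k6,k108)],[(k0,k74),(k2,k79),(k4,k87),(k5,k87),(k3,k95),(k7,k132)],[(k4,k48),(k7,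
    k93),(k0,k95),(k2,k100),(k5,k108),(k3,k116)],[(k7,k77),(k0,k79),(k2,k84),(k4,k92),(k5,k92),(k3,k100)],[(k7,k85),
    (k0,k87),(k2,k92),(k4,k100),(k5,k100),(k3,k108)],[(k3,k48),(k7,k85),(k0,k87),(k2,k92),(k4,k100),(k5,k100)],[(k7,
    k70),(k2,k77),(k4,k85),(k5,k85),(k3,k93),(k0,k132)],[(k6,k70),(k10,k71),(k9,k83),(k1,k108)],[(k10,k48),(k6,k83),
    (k1,k85),(k9,k96)],[(k8,k48),(k11,k48)],[(k8,k48),(k11,k48)],[(k9,k48),(k6,k71),(k10,k72),(k1,k73)]]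
    [[k0,k0,k0,k0,k2,k2],[k0,k0,k0,k0,k1,k3]]
    [.ref k0 k0 [(z2,[y1,y2,z2])],.ref k2 k0 [(z1,[y1,y1,z1])]]]

theorem hB6_40_0 : blkB [0, 0, 0, 1, 2, 1] [(0, 3)] sp6 hS6_40 (pcls (n := 6) [0, 0, 0, 1, 2, 1]) hD6_40 4 0 hN6_40_0 = true := by
  decide +kernel

/-- equations of the nodes for the classes `0 0 1 0 0 2`, active pairs `` -/
noncomputable def hD6_43 : List (List (List Eqn)) :=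
  [[[([z1,z0,z0,z0,z1,z1],z2)],[([z1,z0,z0,y2,z0,z1],z0),([z0,z1,z0,z2,z0,z0],z2)],[([z1,z0,z0,z0,z0,y1],z0),([z0,z1,
    z0,z0,z0,z2],z2)],[([z1,z0,z0,z0,z0,y1],z0),([z0,z1,z0,z0,z0,z2],z2),([z0,z0,z1,z1,z0,y2],z0)],[([z2,z0,z0,z0,z1,
    z0],z2),([z0,z1,z0,z0,z0,z2],z2),([z0,z0,z2,z0,z1,z0],z2)],[([z2,z0,z0,y2,z1,z2],z2),([z0,z1,z0,z2,z0,z0],z2)],
    [([z2,z0,z0,z0,z1,z0],z2)],[([z1,z0,z0,z0,z1,z1],z2),([z0,z1,z0,z0,y2,y2],y2)],[([z1,z0,y1,z0,z0,z0],z0),([z0,z1,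
    z2,z0,z0,z0],z2),([z0,z0,z0,z1,z0,y1],z0)],[([z1,z0,y1,y1,z0,z1],z0),([z0,z1,z2,z2,z0,y2],z2)],[([z1,z0,y1,y1,y1,
    y1],y2)],[]]]

/-- symmetries -/
noncomputable def hS6_43 : List (Bool × ℕ × List ℕ) :=
  [(false,k3,[k3,k4,k5,k0,k1,k2]),(false,k0,[k0,k1,k2,k3,k4,k5]),(true,k5,[k5,k4,k3,k2,k1,k0]),(true,k2,[k2,k1,k0,k5,
    k4,k3])]

/-- nodes 0 to 11 -/
noncomputable def hN6_43_0 : List HM :=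
  [.base (.leafM k0 [k0,k1,k2,k3,k4,k5] [(z1,[y1,z1])] []),
    .base (.leafM k0 [k1,k2,k3,k4,k5,k0] [(z1,[y1,y1,z1])] []),
    .base (.leafM k0 [k1,k2,k3,k4,k5,k0] [(z1,[y1,y1,z1])] []),
    .base (.leafM k0 [k0,k1,k2,k3,k4,k5] [(z1,[z0,z1,z1])] []),
    .base (.spec k1 false k0 [(z1,[z1]),(z1,[z0,z0,z1]),(z1,[y1,y1,y1,z2]),(z1,[z0,z1])]),
    .lp k0 [k16,k16,k12,k16,k22,k12] [k3,k3,k3,k3,k5,k5,k3,k3,k0,k0,k5,k5] k0 [[k0,k0,k0,k0,k0,k0,k0,k0,k0,k0,k0,k0],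
    [k0,k0,k0,k0,k0,k0,k0,k0,k0,k0,k0,k0],[k0,k0,k0,k0,k0,k0,k0,k0,k2,k0,k0,k0],[k0,k0,k0,k0,k0,k0,k0,k0,k0,k0,k0,k0],
    [k0,k0,k0,k0,k0,k0,k0,k0,k0,k0,k0,k0],[k0,k0,k0,k0,k0,k0,k0,k0,k0,k0,k0,k0],[k0,k0,k0,k0,k0,k0,k0,k0,k0,k2,k0,k0],
    [k0,k0,k0,k0,k0,k0,k0,k0,k0,k0,k0,k0],[k0,k0,k0,k0,k0,k0,k0,k2,k0,k0,k0,k0],[k0,k0,k0,k2,k0,k0,k0,k0,k0,k0,k0,k0],
    [k0,k0,k0,k0,k0,k0,k0,k0,k0,k0,k0,k0],[k0,k0,k0,k0,k0,k0,k0,k0,k0,k0,k0,k0]] k48 k5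
    [[(k10,k14),(k1,k16)],[(k5,k14),(k11,k14),(k0,k16),(k2,k16),(k3,k16),(k6,k16),(k8,k19),(k9,k19)],[(k5,k14),(k11,
    k14),(k0,k16),(k2,k16),(k3,k16),(k6,k16),(k8,k19),(k9,k19)],[(k11,k12),(k5,k14),(k0,k16),(k2,k16),(k3,k16),(k6,
    k16),(k8,k19),(k9,k19)],[(k5,k12),(k11,k12),(k0,k14),(k2,k14),(k3,k14),(k6,k14),(k9,k17),(k8,k19)],[(k4,k12),(k7,
    k14)],[(k4,k14),(k7,k16)],[(k5,k14),(k11,k14),(k0,k16),(k2,k16),(k3,k16),(k6,k16),(k8,k17),(k9,k19)],[(k5,k17),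
    (k0,k19),(k2,k19),(k3,k19),(k6,k19),(k11,k19),(k8,k22),(k9,k22)],[(k6,k17),(k11,k17),(k0,k19),(k2,k19),(k3,k19),
    (k5,k19),(k8,k22),(k9,k22)],[(k2,k12),(k5,k12),(k11,k12),(k0,k14),(k3,k14),(k6,k14),(k8,k17),(k9,k19)],[(k10,k12),
    (k1,k14)]]
    [[k1,k1,k0,k0,k0,k1],[k0,k1,k2,k0,k0,k0],[k0,k1,k1,k1,k0,k0],[k0,k1,k0,k0,k0,k2]]
    [.ref k3 k0 [(z1,[y1,z1,z2,y1]),(z1,[z0,y1,y2,z2]),(z1,[y1,z2,z3,y2])],.ref k3 k0 [(z2,[y1,z0,z1]),(z1,[z0,y1,y2,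
    z2]),(z2,[y1,z2,z3,y2])],.ref k3 k0 [(z1,[y1,z0,z1]),(z1,[z0,y1,y2,z2]),(z1,[y1,z1,z2,y1])],.ref k4 k1 [(z1,[y1,
    z1,z1]),(z1,[z1]),(z1,[z0,y1,y2,z2])]],
    .lp k0 [k18,k16,k14,k16,k18,k12] [k0,k0,k1,k1,k2,k2,k1,k1,k0,k0,k3,k3] k0 [[k0,k0,k0,k4,k0,k0,k0,k0,k0,k0,k0,k0],
    [k0,k0,k0,k0,k0,k0,k0,k0,k0,k0,k0,k0],[k0,k4,k0,k0,k0,k0,k0,k0,k2,k0,k0,k0],[k0,k0,k0,k0,k0,k0,k0,k0,k0,k0,k0,k0],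
    [k0,k0,k0,k0,k0,k0,k0,k0,k0,k0,k0,k0],[k0,k0,k0,k0,k0,k0,k0,k0,k0,k0,k0,k0],[k0,k0,k0,k0,k0,k0,k0,k0,k0,k0,k0,k0],
    [k0,k0,k0,k0,k0,k0,k0,k0,k0,k0,k0,k0],[k0,k0,k0,k0,k0,k0,k0,k0,k0,k0,k0,k0],[k0,k0,k0,k2,k0,k0,k0,k0,k0,k0,k0,k0],
    [k0,k0,k0,k0,k0,k0,k0,k0,k0,k0,k0,k0],[k0,k0,k0,k0,k0,k0,k0,k0,k0,k0,k0,k0]] k48 k5
    [[(k10,k15),(k1,k18)],[(k2,k13),(k11,k15),(k5,k16),(k3,k17),(k6,k17),(k0,k18),(k8,k18),(k9,k18)],[(k11,k14),(k2,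
    k16),(k3,k16),(k6,k16),(k0,k17),(k8,k17),(k9,k17),(k5,k19)],[(k11,k12),(k0,k13),(k5,k15),(k2,k16),(k3,k16),(k6,
    k16),(k8,k17),(k9,k17)],[(k11,k13),(k5,k14),(k2,k15),(k6,k15),(k0,k16),(k9,k16),(k8,k18),(k3,k19)],[(k4,k14),(k7,
    k15)],[(k4,k15),(k7,k16)],[(k11,k14),(k5,k15),(k2,k16),(k3,k16),(k6,k16),(k0,k17),(k8,k17),(k9,k17)],[(k11,k15),
    (k5,k16),(k2,k17),(k3,k17),(k6,k17),(k0,k18),(k8,k18),(k9,k18)],[(k11,k15),(k2,k17),(k3,k17),(k6,k17),(k0,k18),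
    (k5,k18),(k8,k18),(k9,k18)],[(k2,k12),(k11,k12),(k5,k13),(k3,k14),(k6,k14),(k0,k15),(k8,k15),(k9,k15)],[(k10,k12),
    (k1,k15)]]
    [[k1,k1,k0,k0,k0,k1],[k0,k1,k1,k1,k0,k0],[k0,k1,k0,k0,k0,k2],[k0,k0,k0,k0,k1,k2]]
    [.ref k1 k0 [(z1,[y1,y1,z1]),(z1,[z0,z1])],.ref k2 k2 [(z1,[y1,y1,z1]),(z1,[z0,z1])],.ref k5 k0 [(z1,[y1,y2,z2]),
    (z1,[z0,z1])],.ref k2 k2 [(z2,[z1,y1]),(z1,[z0,z1])]],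
    .base (.leafM k0 [k0,k1,k2,k3,k4,k5] [(z1,[y1,z0,z1])] []),
    .base (.spec k11 false k0 [(z1,[z2,z1]),(z1,[y1]),(z1,[y1,y1,z1,z1]),(z1,[z0,z0,y1])]),
    .lp k0 [k16,k16,k12,k16,k22,k12] [k3,k3,k3,k3,k5,k5,k3,k3,k0,k0,k5,k5] k0 [[k0,k0,k0,k0,k0,k0,k0,k0,k0,k0,k0,k0],
    [k0,k0,k0,k0,k0,k0,k0,k0,k0,k0,k0,k0],[k0,k0,k0,k0,k0,k0,k0,k0,k2,k0,k0,k0],[k0,k0,k0,k0,k0,k0,k0,k0,k0,k0,k0,k0],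
    [k0,k0,k0,k0,k0,k0,k0,k0,k0,k0,k0,k0],[k0,k0,k0,k0,k0,k0,k0,k0,k0,k0,k0,k0],[k0,k0,k0,k0,k0,k0,k0,k0,k0,k2,k0,k0],
    [k0,k0,k0,k0,k0,k0,k0,k0,k0,k0,k0,k0],[k0,k0,k0,k0,k0,k0,k0,k2,k0,k0,k0,k0],[k0,k0,k0,k2,k0,k0,k0,k0,k0,k0,k0,k0],
    [k0,k0,k0,k0,k0,k0,k0,k0,k0,k0,k0,k0],[k0,k0,k0,k0,k0,k0,k0,k0,k0,k0,k0,k0]] k48 k5
    [[(k10,k14),(k1,k16)],[(k5,k14),(k11,k14),(k0,k16),(k2,k16),(k3,k16),(k6,k16),(k8,k19),(k9,k19)],[(k5,k14),(k11,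
    k14),(k0,k16),(k2,k16),(k3,k16),(k6,k16),(k8,k19),(k9,k19)],[(k11,k12),(k5,k14),(k0,k16),(k2,k16),(k3,k16),(k6,
    k16),(k8,k19),(k9,k19)],[(k5,k12),(k11,k12),(k0,k14),(k2,k14),(k3,k14),(k6,k14),(k9,k17),(k8,k19)],[(k4,k12),(k7,
    k14)],[(k4,k14),(k7,k16)],[(k5,k14),(k11,k14),(k0,k16),(k2,k16),(k3,k16),(k6,k16),(k8,k17),(k9,k19)],[(k5,k17),
    (k0,k19),(k2,k19),(k3,k19),(k6,k19),(k11,k19),(k8,k22),(k9,k22)],[(k6,k17),(k11,k17),(k0,k19),(k2,k19),(k3,k19),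
    (k5,k19),(k8,k22),(k9,k22)],[(k2,k12),(k5,k12),(k11,k12),(k0,k14),(k3,k14),(k6,k14),(k8,k17),(k9,k19)],[(k10,k12),
    (k1,k14)]]
    [[k1,k1,k0,k0,k0,k1],[k0,k1,k2,k0,k0,k0],[k0,k1,k1,k1,k0,k0],[k0,k1,k0,k0,k0,k2]]
    [.ref k3 k1 [(z1,[y1,z2,z1]),(z1,[z2,y2,y1]),(z1,[y1,z1,z1])],.ref k8 k1 [(z2,[y1,z2,z1]),(z1,[z1]),(z2,[y1,z0,
    z1])],.ref k3 k1 [(z1,[y1,z1,z1]),(z1,[z2,z0,y1]),(z1,[y1,z0,z1])],.ref k3 k1 [(z2,[y1,z2,z1]),(z1,[z1]),(z2,[y1,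
    z0,z1])]],
    .lp k0 [k18,k16,k14,k16,k18,k12] [k0,k0,k1,k1,k2,k2,k1,k1,k0,k0,k3,k3] k0 [[k0,k0,k0,k4,k0,k0,k0,k0,k0,k0,k0,k0],
    [k0,k0,k0,k0,k0,k0,k0,k0,k0,k0,k0,k0],[k0,k4,k0,k0,k0,k0,k0,k0,k2,k0,k0,k0],[k0,k0,k0,k0,k0,k0,k0,k0,k0,k0,k0,k0],
    [k0,k0,k0,k0,k0,k0,k0,k0,k0,k0,k0,k0],[k0,k0,k0,k0,k0,k0,k0,k0,k0,k0,k0,k0],[k0,k0,k0,k0,k0,k0,k0,k0,k0,k0,k0,k0],
    [k0,k0,k0,k0,k0,k0,k0,k0,k0,k0,k0,k0],[k0,k0,k0,k0,k0,k0,k0,k0,k0,k0,k0,k0],[k0,k0,k0,k2,k0,k0,k0,k0,k0,k0,k0,k0],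
    [k0,k0,k0,k0,k0,k0,k0,k0,k0,k0,k0,k0],[k0,k0,k0,k0,k0,k0,k0,k0,k0,k0,k0,k0]] k48 k5
    [[(k10,k15),(k1,k18)],[(k2,k13),(k11,k15),(k5,k16),(k3,k17),(k6,k17),(k0,k18),(k8,k18),(k9,k18)],[(k11,k14),(k2,
    k16),(k3,k16),(k6,k16),(k0,k17),(k8,k17),(k9,k17),(k5,k19)],[(k11,k12),(k0,k13),(k5,k15),(k2,k16),(k3,k16),(k6,
    k16),(k8,k17),(k9,k17)],[(k11,k13),(k5,k14),(k2,k15),(k6,k15),(k0,k16),(k9,k16),(k8,k18),(k3,k19)],[(k4,k14),(k7,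
    k15)],[(k4,k15),(k7,k16)],[(k11,k14),(k5,k15),(k2,k16),(k3,k16),(k6,k16),(k0,k17),(k8,k17),(k9,k17)],[(k11,k15),
    (k5,k16),(k2,k17),(k3,k17),(k6,k17),(k0,k18),(k8,k18),(k9,k18)],[(k11,k15),(k2,k17),(k3,k17),(k6,k17),(k0,k18),
    (k5,k18),(k8,k18),(k9,k18)],[(k2,k12),(k11,k12),(k5,k13),(k3,k14),(k6,k14),(k0,k15),(k8,k15),(k9,k15)],[(k10,k12),
    (k1,k15)]]
    [[k1,k1,k0,k0,k0,k1],[k0,k1,k1,k1,k0,k0],[k0,k1,k0,k0,k0,k2],[k0,k0,k0,k0,k1,k2]]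
    [.ref k2 k1 [(z1,[y1,z1,z1]),(z1,[z2,y1,y1])],.ref k7 k1 [(z1,[y1,z0,z1]),(z1,[z2,z1,y1])],.ref k2 k1 [(z2,[y1,z1,
    z1]),(z1,[z1])],.ref k9 k1 [(z1,[z1,z1]),(z1,[y2,y1,z1])]],
    .lp k0 [k18,k16,k14,k16,k18,k12] [k0,k0,k1,k1,k2,k2,k1,k1,k0,k0,k3,k3] k0 [[k0,k0,k0,k4,k0,k0,k0,k0,k0,k0,k0,k0],
    [k0,k0,k0,k0,k0,k0,k0,k0,k0,k0,k0,k0],[k0,k4,k0,k0,k0,k0,k0,k0,k2,k0,k0,k0],[k0,k0,k0,k0,k0,k0,k0,k0,k0,k0,k0,k0],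
    [k0,k0,k0,k0,k0,k0,k0,k0,k0,k0,k0,k0],[k0,k0,k0,k0,k0,k0,k0,k0,k0,k0,k0,k0],[k0,k0,k0,k0,k0,k0,k0,k0,k0,k0,k0,k0],
    [k0,k0,k0,k0,k0,k0,k0,k0,k0,k0,k0,k0],[k0,k0,k0,k0,k0,k0,k0,k0,k0,k0,k0,k0],[k0,k0,k0,k2,k0,k0,k0,k0,k0,k0,k0,k0],
    [k0,k0,k0,k0,k0,k0,k0,k0,k0,k0,k0,k0],[k0,k0,k0,k0,k0,k0,k0,k0,k0,k0,k0,k0]] k48 k5
    [[(k10,k15),(k1,k18)],[(k2,k13),(k11,k15),(k5,k16),(k3,k17),(k6,k17),(k0,k18),(k8,k18),(k9,k18)],[(k11,k14),(k2,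
    k16),(k3,k16),(k6,k16),(k0,k17),(k8,k17),(k9,k17),(k5,k19)],[(k11,k12),(k0,k13),(k5,k15),(k2,k16),(k3,k16),(k6,
    k16),(k8,k17),(k9,k17)],[(k11,k13),(k5,k14),(k2,k15),(k6,k15),(k0,k16),(k9,k16),(k8,k18),(k3,k19)],[(k4,k14),(k7,
    k15)],[(k4,k15),(k7,k16)],[(k11,k14),(k5,k15),(k2,k16),(k3,k16),(k6,k16),(k0,k17),(k8,k17),(k9,k17)],[(k11,k15),
    (k5,k16),(k2,k17),(k3,k17),(k6,k17),(k0,k18),(k8,k18),(k9,k18)],[(k11,k15),(k2,k17),(k3,k17),(k6,k17),(k0,k18),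
    (k5,k18),(k8,k18),(k9,k18)],[(k2,k12),(k11,k12),(k5,k13),(k3,k14),(k6,k14),(k0,k15),(k8,k15),(k9,k15)],[(k10,k12),
    (k1,k15)]]
    [[k1,k1,k0,k0,k0,k1],[k0,k1,k1,k1,k0,k0],[k0,k1,k0,k0,k0,k2],[k0,k0,k0,k0,k1,k2]]
    [.ref k0 k3 [(z1,[y1,z1])],.ref k0 k1 [(z1,[y1,z1])],.ref k6 k2 [(z1,[z1])],.ref k10 k2 [(z1,[z1,y1])]]]

theorem hB6_43_0 : blkB [0, 0, 1, 0, 0, 2] [] sp6 hS6_43 (pcls (n := 6) [0, 0, 1, 0, 0, 2]) hD6_43 12 0 hN6_43_0 = true := by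
  decide +kernel

/-- equations of the nodes for the classes `0 0 1 0 2 1`, active pairs `0-2` -/
noncomputable def hD6_54 : List (List (List Eqn)) :=
  [[[([z0,z3,z0,z0,z0,z0],z2),([z0,z0,z0,z1,z0,z1],z1)],[([z0,z2,z0,z0,z0,z0],z1),([z0,z0,z0,z1,z0,z1],z1)],[([z0,z1,
    z0,z0,z1,z0],z1)],[]]]

/-- symmetries -/
noncomputable def hS6_54 : List (Bool × ℕ × List ℕ) :=
  [(false,k0,[k0,k1,k2,k3,k4,k5])]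

/-- nodes 0 to 3 -/
noncomputable def hN6_54_0 : List HM :=
  [.base (.leafM k8 [k5,k1,k3,k4] [(z1,[z1]),(z1,[y1,y3,y3,z3]),(z1,[z0,z1])] [(k0,k2,z1,[z0,z0,z1]),(k2,k0,z1,[z0,z0,
    z1])]),
    .base (.leafM k9 [k5,k1,k3,k4] [(z1,[z1]),(z1,[y1,y2,y2,z2]),(z1,[z0,z1])] [(k0,k2,z1,[z0,z0,z1]),(k2,k0,z1,[z0,
    z0,z1])]),
    .lp (nat_lit 257) [(nat_lit 42630),(nat_lit 22736),(nat_lit 42630),(nat_lit 19894),(nat_lit 19894),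
    (nat_lit 22736)] [k0,k0,(nat_lit 9947),(nat_lit 9947),k0,k0,(nat_lit 11368),(nat_lit 11368),(nat_lit 11368),
    (nat_lit 11368),(nat_lit 9947),(nat_lit 9947)] k0 [[k0,k0,k0,k0,k0,k0,k0,(nat_lit 13920),k0,k0,k0,k0],[k0,k0,k0,
    (nat_lit 1421),k0,k0,k0,k0,k0,k0,k0,k0],[(nat_lit 1421),k0,k0,k0,k0,k0,k0,k0,k0,k0,k0,k0],[k0,k0,k0,k0,k0,k0,k0,
    (nat_lit 8820),k0,k0,k0,k0],[k0,k0,k0,k0,k0,(nat_lit 22736),k0,k0,k0,k0,k0,k0],[k0,k0,k0,k0,k0,k0,k0,k0,k0,k0,k0,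
    k0],[k0,(nat_lit 13920),(nat_lit 8820),k0,k0,k0,k0,k0,k0,k0,k0,k0],[k0,k0,k0,k0,k0,k0,k0,k0,k0,k0,k0,k0],[k0,k0,
    k0,k0,k0,k0,k0,k0,k0,k0,k0,k0],[k0,k0,k0,k0,k0,k0,k0,k0,k0,k0,k0,k0],[k0,k0,k0,k0,k0,k0,k0,k0,k0,k0,k0,k0],[k0,k0,
    k0,k0,k0,k0,k0,k0,k0,k0,k0,k0]] (nat_lit 85260) k6
    [[(k7,(nat_lit 31262)),(k10,(nat_lit 32683)),(k1,(nat_lit 42630)),(k4,(nat_lit 42630))],[(k6,(nat_lit 17342)),(k9,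
    (nat_lit 31262)),(k2,(nat_lit 32683)),(k3,(nat_lit 32683)),(k0,(nat_lit 42630)),(k5,(nat_lit 44051))],[(k2,
    (nat_lit 21315)),(k6,(nat_lit 21315)),(k3,(nat_lit 22736)),(k0,(nat_lit 32683)),(k5,(nat_lit 32683)),(k9,
    (nat_lit 35235))],[(k3,(nat_lit 21315)),(k6,(nat_lit 21315)),(k2,(nat_lit 22736)),(k9,(nat_lit 30135)),(k0,
    (nat_lit 32683)),(k5,(nat_lit 32683))],[(k6,(nat_lit 22442)),(k9,(nat_lit 31262)),(k2,(nat_lit 32683)),(k3,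
    (nat_lit 32683)),(k5,(nat_lit 42630)),(k0,(nat_lit 44051))],[(k4,(nat_lit 19894)),(k7,(nat_lit 31262)),(k10,
    (nat_lit 32683)),(k1,(nat_lit 42630))],[(k10,(nat_lit 21315)),(k1,(nat_lit 31262)),(k4,(nat_lit 31262)),(k7,
    (nat_lit 42630))],[(k0,(nat_lit 17342)),(k6,(nat_lit 19894)),(k9,(nat_lit 19894)),(k2,(nat_lit 21315)),(k3,
    (nat_lit 21315)),(k5,(nat_lit 22442))],[(k6,(nat_lit 19894)),(k9,(nat_lit 19894)),(k2,(nat_lit 30135)),(k0,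
    (nat_lit 31262)),(k5,(nat_lit 31262)),(k3,(nat_lit 35235))],[(k8,(nat_lit 19894)),(k11,(nat_lit 21315))],[(k8,
    (nat_lit 21315)),(k11,(nat_lit 22736))],[(k7,(nat_lit 21315)),(k10,(nat_lit 22736)),(k1,(nat_lit 32683)),(k4,
    (nat_lit 32683))]]
    [[k0,k3,k0,k0,k0,k0],[k0,k0,k0,k1,k1,k1],[k0,k0,k0,k0,k4,k0]]
    [.ref k0 k0 [(z1,[z1]),(z1,[z0,y1,y1,z1])],.contra [z1,z1,z1,y1],.ref k1 k0 [(z2,[y1,z4]),(z1,[z0,y1,y1,z1])]],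
    .lp (nat_lit 257) [(nat_lit 594),(nat_lit 400),(nat_lit 558),(nat_lit 242),(nat_lit 306),(nat_lit 300)] [k0,k0,
    k97,k97,k18,k18,k176,k176,k144,k144,k118,k176] k0 [[k0,k0,k0,k0,k0,k0,k0,k176,k0,k0,k0,k0],[k0,k0,k0,k0,k0,k0,k0,
    k0,k0,k0,k0,k0],[k0,k0,k0,k0,k0,k0,k0,k0,k0,k0,k0,k0],[k0,k0,k0,k0,k0,k0,k0,k12,k0,k0,k0,k0],[k0,k0,k0,k0,k0,
    (nat_lit 316),k0,k0,k0,k0,k0,k0],[k0,k0,k0,k0,k0,k0,k0,k0,k0,k0,k36,k58],[k0,k176,k12,k0,k0,k0,k0,k0,k0,k0,k0,k0],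
    [k0,k0,k0,k0,k0,k0,k0,k0,k0,k0,k0,k0],[k0,k0,k0,k0,k0,k0,k0,k0,k0,k0,k0,k0],[k0,k0,k0,k0,k0,k0,k0,k0,k0,k0,k0,k0],
    [k0,k0,k0,k0,k58,k0,k0,k0,k0,k0,k0,k0],[k0,k0,k0,k0,k36,k0,k0,k0,k0,k0,k0,k0]] (nat_lit 1200) k6
    [[(k7,(nat_lit 382)),(k10,(nat_lit 476)),(k1,(nat_lit 594)),(k4,(nat_lit 634))],[(k6,(nat_lit 242)),(k9,
    (nat_lit 450)),(k2,(nat_lit 497)),(k3,(nat_lit 497)),(k5,(nat_lit 576)),(k0,(nat_lit 594))],[(k6,(nat_lit 321)),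
    (k2,(nat_lit 400)),(k3,(nat_lit 400)),(k5,(nat_lit 479)),(k0,(nat_lit 497)),(k9,(nat_lit 529))],[(k6,
    (nat_lit 321)),(k9,(nat_lit 365)),(k2,(nat_lit 400)),(k3,(nat_lit 400)),(k5,(nat_lit 479)),(k0,(nat_lit 497))],
    [(k6,(nat_lit 388)),(k9,(nat_lit 432)),(k2,(nat_lit 479)),(k3,(nat_lit 479)),(k5,(nat_lit 558)),(k0,
    (nat_lit 576))],[(k4,(nat_lit 242)),(k7,(nat_lit 400)),(k10,(nat_lit 494)),(k1,(nat_lit 634))],[(k10,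
    (nat_lit 242)),(k1,(nat_lit 382)),(k4,(nat_lit 400)),(k7,(nat_lit 558))],[(k0,(nat_lit 242)),(k6,(nat_lit 242)),
    (k9,(nat_lit 274)),(k2,(nat_lit 321)),(k3,(nat_lit 321)),(k5,(nat_lit 388))],[(k6,(nat_lit 274)),(k9,
    (nat_lit 306)),(k2,(nat_lit 365)),(k5,(nat_lit 432)),(k0,(nat_lit 450)),(k3,(nat_lit 529))],[(k11,(nat_lit 274)),
    (k8,(nat_lit 306))],[(k11,(nat_lit 242)),(k8,(nat_lit 274))],[(k7,(nat_lit 242)),(k10,(nat_lit 358)),(k1,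
    (nat_lit 476)),(k4,(nat_lit 494))]]
    [[k0,k0,k0,k1,k1,k1],[k0,k0,k0,k2,k0,k2]]
    [.contra [y1,y1,z1],.ref k2 k0 [(z2,[y1,y2,z2])]]]

theorem hB6_54_0 : blkB [0, 0, 1, 0, 2, 1] [(0, 2)] sp6 hS6_54 (pcls (n := 6) [0, 0, 1, 0, 2, 1]) hD6_54 4 0 hN6_54_0 = true := by
  decide +kernel

/-- equations of the nodes for the classes `0 0 1 1 2 2`, active pairs `` -/
noncomputable def hD6_63 : List (List (List Eqn)) :=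
  [[[([z1,z0,z1,z0,z1,z0],z2),([z0,z3,z0,z0,z0,z0],z2),([z0,z0,z0,z3,z0,z0],z2)],[([z3,z0,z3,z0,z3,z3],z8),([z0,z3,z0,
    z0,z0,z0],z2)],[([z3,z0,z3,z3,z3,z3],z10)],[]]]

/-- symmetries -/
noncomputable def hS6_63 : List (Bool × ℕ × List ℕ) :=
  [(false,k0,[k0,k1,k2,k3,k4,k5]),(false,k4,[k4,k5,k0,k1,k2,k3])]

/-- nodes 0 to 3 -/
noncomputable def hN6_63_0 : List HM :=
  [.base (.leafM k2 [k0,k1,k2,k3,k4,k5] [(z1,[z0,z1]),(z1,[z0,z0,z1]),(z1,[y3,y1,y1,z3])] []),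
    .lp k0 [k36,k32,k30,k36,k30,k24] [k0,k0,k2,k2,k3,k3,k0,k0,k3,k3,k6,k6] k0 [[k0,k0,k0,k4,k0,k0,k0,k0,k0,k0,k0,k0],
    [k0,k0,k0,k0,k0,k0,k0,k0,k0,k0,k0,k0],[k0,k4,k0,k0,k0,k0,k0,k0,k0,k0,k0,k0],[k0,k0,k0,k0,k0,k0,k0,k0,k0,k0,k0,k0],
    [k0,k0,k0,k0,k0,k0,k0,k0,k0,k0,k0,k0],[k0,k0,k0,k0,k0,k0,k0,k0,k0,k0,k0,k0],[k0,k0,k0,k0,k0,k0,k0,k12,k0,k0,k0,
    k0],[k0,k0,k0,k0,k0,k0,k0,k0,k0,k0,k0,k0],[k0,k0,k0,k0,k0,k0,k0,k0,k0,k0,k0,k0],[k0,k0,k0,k0,k0,k0,k0,k0,k0,k0,k0,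
    k0],[k0,k0,k0,k0,k0,k0,k0,k0,k0,k0,k0,k0],[k0,k0,k0,k0,k0,k0,k0,k0,k0,k0,k0,k0]] k96 k5
    [[(k10,k30),(k11,k30),(k8,k33),(k1,k36)],[(k2,k30),(k5,k33),(k3,k34),(k0,k36)],[(k2,k32),(k3,k32),(k0,k34),(k5,
    k35)],[(k0,k30),(k5,k31),(k2,k32),(k3,k32)],[(k5,k30),(k2,k31),(k0,k33),(k3,k35)],[(k4,k30),(k9,k30),(k6,k33),(k7,
    k33)],[(k4,k33),(k9,k33),(k6,k36),(k7,k36)],[(k6,k24),(k4,k33),(k9,k33),(k7,k36)],[(k4,k30),(k6,k33),(k7,k33),(k9,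
    k42)],[(k10,k27),(k11,k27),(k8,k30),(k1,k33)],[(k10,k24),(k11,k24),(k8,k27),(k1,k30)],[(k10,k24),(k11,k24),(k8,
    k27),(k1,k30)]]
    [[k0,k0,k0,k0,k0,k3]]
    [.ref k0 k0 [(z3,[y1,z1]),(z1,[z0,z0,z1]),(z1,[z0,y1,y1,z3])]],
    .lp k0 [k30,k36,k30,k24,k36,k32] [k3,k3,k0,k0,k3,k3,k6,k6,k0,k0,k2,k2] k0 [[k0,k0,k0,k0,k0,k0,k0,k0,k0,k0,k0,k0],
    [k0,k0,k0,k0,k0,k0,k0,k0,k0,k0,k0,k0],[k0,k0,k0,k12,k0,k0,k0,k0,k0,k0,k0,k0],[k0,k0,k0,k0,k0,k0,k0,k0,k0,k0,k0,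
    k0],[k0,k0,k0,k0,k0,k0,k0,k0,k0,k0,k0,k0],[k0,k0,k0,k0,k0,k0,k0,k0,k0,k0,k0,k0],[k0,k0,k0,k0,k0,k0,k0,k0,k0,k0,k0,
    k0],[k0,k0,k0,k0,k0,k0,k0,k0,k0,k0,k0,k0],[k0,k0,k0,k0,k0,k0,k0,k0,k0,k0,k0,k4],[k0,k0,k0,k0,k0,k0,k0,k0,k0,k0,k0,
    k0],[k0,k0,k0,k0,k0,k0,k0,k0,k0,k4,k0,k0],[k0,k0,k0,k0,k0,k0,k0,k0,k0,k0,k0,k0]] k96 k5
    [[(k1,k30),(k10,k31),(k8,k33),(k11,k35)],[(k0,k30),(k5,k30),(k2,k33),(k3,k33)],[(k0,k33),(k5,k33),(k2,k36),(k3,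
    k36)],[(k2,k24),(k0,k33),(k5,k33),(k3,k36)],[(k0,k30),(k2,k33),(k3,k33),(k5,k42)],[(k6,k27),(k7,k27),(k4,k30),(k9,
    k33)],[(k6,k24),(k7,k24),(k4,k27),(k9,k30)],[(k6,k24),(k7,k24),(k4,k27),(k9,k30)],[(k6,k30),(k7,k30),(k4,k33),(k9,
    k36)],[(k10,k30),(k1,k33),(k11,k34),(k8,k36)],[(k10,k32),(k11,k32),(k8,k34),(k1,k35)],[(k8,k30),(k1,k31),(k10,
    k32),(k11,k32)]]
    [[k0,k0,k0,k3,k0,k0]]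
    [.ref k1 k0 [(z1,[y1,z1]),(z1,[z0,y1,z3])]],
    .lp k0 [k30,k36,k30,k24,k36,k32] [k3,k3,k0,k0,k3,k3,k6,k6,k0,k0,k2,k2] k0 [[k0,k0,k0,k0,k0,k0,k0,k0,k0,k0,k0,k0],
    [k0,k0,k0,k0,k0,k0,k0,k0,k0,k0,k0,k0],[k0,k0,k0,k12,k0,k0,k0,k0,k0,k0,k0,k0],[k0,k0,k0,k0,k0,k0,k0,k0,k0,k0,k0,
    k0],[k0,k0,k0,k0,k0,k0,k0,k0,k0,k0,k0,k0],[k0,k0,k0,k0,k0,k0,k0,k0,k0,k0,k0,k0],[k0,k0,k0,k0,k0,k0,k0,k0,k0,k0,k0,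
    k0],[k0,k0,k0,k0,k0,k0,k0,k0,k0,k0,k0,k0],[k0,k0,k0,k0,k0,k0,k0,k0,k0,k0,k0,k4],[k0,k0,k0,k0,k0,k0,k0,k0,k0,k0,k0,
    k0],[k0,k0,k0,k0,k0,k0,k0,k0,k0,k4,k0,k0],[k0,k0,k0,k0,k0,k0,k0,k0,k0,k0,k0,k0]] k96 k5
    [[(k1,k30),(k10,k31),(k8,k33),(k11,k35)],[(k0,k30),(k5,k30),(k2,k33),(k3,k33)],[(k0,k33),(k5,k33),(k2,k36),(k3,
    k36)],[(k2,k24),(k0,k33),(k5,k33),(k3,k36)],[(k0,k30),(k2,k33),(k3,k33),(k5,k42)],[(k6,k27),(k7,k27),(k4,k30),(k9,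
    k33)],[(k6,k24),(k7,k24),(k4,k27),(k9,k30)],[(k6,k24),(k7,k24),(k4,k27),(k9,k30)],[(k6,k30),(k7,k30),(k4,k33),(k9,
    k36)],[(k10,k30),(k1,k33),(k11,k34),(k8,k36)],[(k10,k32),(k11,k32),(k8,k34),(k1,k35)],[(k8,k30),(k1,k31),(k10,
    k32),(k11,k32)]]
    [[k0,k0,k0,k3,k0,k0]]
    [.ref k2 k1 [(z1,[y1,z3])]]]

theorem hB6_63_0 : blkB [0, 0, 1, 1, 2, 2] [] sp6 hS6_63 (pcls (n := 6) [0, 0, 1, 1, 2, 2]) hD6_63 4 0 hN6_63_0 = true := by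
  decide +kernel

/-- equations of the nodes for the classes `0 0 1 2 2 1`, active pairs `` -/
noncomputable def hD6_69 : List (List (List Eqn)) :=
  [[[([z1,z1,z1,z0,z0,z0],z2)],[([z1,z0,y1,z0,z0,z0],z0),([z0,z1,z2,z0,z0,z0],z2)],[([z1,z0,y1,y1,y1,y1],y2)],[]]]

/-- symmetries -/
noncomputable def hS6_69 : List (Bool × ℕ × List ℕ) :=
  [(false,k0,[k0,k1,k2,k3,k4,k5]),(true,k5,[k5,k4,k3,k2,k1,k0])]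

/-- nodes 0 to 3 -/
noncomputable def hN6_69_0 : List HM :=
  [.base (.leafM k0 [k2,k3,k4,k5,k0,k1] [(z1,[y1,z1])] []),
    .base (.leafM k0 [k2,k3,k4,k5,k0,k1] [(z1,[y1,y1,z1])] []),
    .lp k0 [k8,k8,k6,k8,k8,k8] [k0,k0,k0,k0,k1,k1,k0,k0,k0,k0,k0,k0] k0 [[k0,k0,k0,k0,k0,k0,k0,k0,k0,k0,k0,k0],[k0,k0,
    k0,k0,k0,k0,k0,k0,k0,k0,k0,k0],[k0,k0,k0,k0,k0,k0,k0,k0,k0,k0,k0,k0],[k0,k0,k0,k0,k0,k0,k0,k0,k0,k0,k0,k0],[k0,k0,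
    k0,k0,k0,k0,k0,k0,k0,k0,k0,k0],[k0,k0,k0,k0,k0,k0,k0,k0,k0,k0,k0,k0],[k0,k0,k0,k0,k0,k0,k0,k0,k0,k0,k0,k0],[k0,k0,
    k0,k0,k0,k0,k0,k0,k0,k0,k0,k0],[k0,k0,k0,k0,k0,k0,k0,k0,k0,k0,k0,k0],[k0,k0,k0,k0,k0,k0,k0,k0,k0,k0,k0,k0],[k0,k0,
    k0,k0,k0,k0,k0,k0,k0,k0,k0,k0],[k0,k0,k0,k0,k0,k0,k0,k0,k0,k0,k0,k0]] k24 k5
    [[(k4,k7),(k1,k8),(k7,k8),(k10,k8)],[(k5,k7),(k0,k8),(k2,k8),(k3,k8)],[(k5,k7),(k0,k8),(k2,k8),(k3,k8)],[(k5,k7),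
    (k0,k8),(k2,k8),(k3,k8)],[(k5,k6),(k0,k7),(k2,k7),(k3,k7)],[(k4,k6),(k1,k7),(k7,k7),(k10,k7)],[(k4,k7),(k1,k8),
    (k7,k8),(k10,k8)],[(k6,k8),(k8,k8),(k9,k8),(k11,k8)],[(k6,k8),(k8,k8),(k9,k8),(k11,k8)],[(k6,k8),(k8,k8),(k9,k8),
    (k11,k8)],[(k6,k8),(k8,k8),(k9,k8),(k11,k8)],[(k4,k7),(k1,k8),(k7,k8),(k10,k8)]]
    [[k1,k1,k1,k0,k0,k0],[k0,k1,k2,k0,k0,k0]]
    [.ref k1 k0 [(z1,[y1,z1,z1]),(z1,[z2,y1,y1])],.ref k1 k0 [(z2,[y1,z1,z1]),(z1,[z1])]],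
    .lp k0 [k8,k8,k8,k8,k8,k6] [k0,k0,k0,k0,k0,k0,k0,k0,k0,k0,k1,k1] k0 [[k0,k0,k0,k0,k0,k0,k0,k0,k0,k0,k0,k0],[k0,k0,
    k0,k0,k0,k0,k0,k0,k0,k0,k0,k0],[k0,k0,k0,k0,k0,k0,k0,k0,k0,k0,k0,k0],[k0,k0,k0,k0,k0,k0,k0,k0,k0,k0,k0,k0],[k0,k0,
    k0,k0,k0,k0,k0,k0,k0,k0,k2,k0],[k0,k0,k0,k0,k0,k0,k0,k0,k0,k0,k0,k0],[k0,k0,k0,k0,k0,k0,k0,k0,k0,k0,k0,k0],[k0,k0,
    k0,k0,k0,k0,k0,k0,k0,k0,k0,k0],[k0,k0,k0,k0,k0,k0,k0,k0,k0,k0,k0,k0],[k0,k0,k0,k0,k0,k0,k0,k0,k0,k0,k0,k0],[k0,k0,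
    k0,k0,k0,k0,k0,k0,k0,k0,k0,k0],[k0,k0,k0,k0,k0,k2,k0,k0,k0,k0,k0,k0]] k24 k5
    [[(k4,k6),(k10,k7),(k1,k8),(k7,k8)],[(k0,k8),(k2,k8),(k3,k8),(k5,k8)],[(k0,k8),(k2,k8),(k3,k8),(k5,k8)],[(k0,k8),
    (k2,k8),(k3,k8),(k5,k8)],[(k0,k8),(k2,k8),(k3,k8),(k5,k8)],[(k1,k6),(k10,k7),(k4,k8),(k7,k8)],[(k1,k8),(k4,k8),
    (k7,k8),(k10,k9)],[(k11,k7),(k6,k8),(k8,k8),(k9,k8)],[(k11,k7),(k6,k8),(k8,k8),(k9,k8)],[(k11,k7),(k6,k8),(k8,k8),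
    (k9,k8)],[(k11,k6),(k6,k7),(k8,k7),(k9,k7)],[(k10,k6),(k1,k7),(k4,k7),(k7,k9)]]
    [[k1,k1,k1,k0,k0,k0],[k0,k0,k0,k0,k1,k2]]
    [.ref k0 k0 [(z1,[z1])],.ref k2 k1 [(z1,[z1,y1])]]]

theorem hB6_69_0 : blkB [0, 0, 1, 2, 2, 1] [] sp6 hS6_69 (pcls (n := 6) [0, 0, 1, 2, 2, 1]) hD6_69 4 0 hN6_69_0 = true := by
  decide +kernel

/-- equations of the nodes for the classes `0 0 1 2 2 1`, active pairs `0-2` -/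
noncomputable def hD6_70 : List (List (List Eqn)) :=
  [[[([z0,z3,z0,z0,z0,z0],z2),([z0,z0,z0,z1,z0,z1],z1)],[([z0,z3,z0,z0,z0,z0],z2),([z0,z0,z0,z3,z0,z3],z2)],[([z0,z3,
    z0,z0,z0,z0],z2)],[([z0,z2,z0,z0,z0,z0],z1),([z0,z0,z0,z1,z0,z1],z1)],[([z0,z2,z0,z0,z0,z0],z1)],[([z0,z3,z0,z0,
    z0,z0],z1),([z0,z0,z0,z1,z0,z1],z1)],[([z0,z3,z0,z3,z0,z3],z4)],[]]]

/-- symmetries -/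
noncomputable def hS6_70 : List (Bool × ℕ × List ℕ) :=
  [(false,k0,[k0,k1,k2,k3,k4,k5])]

/-- nodes 0 to 7 -/
noncomputable def hN6_70_0 : List HM :=
  [.base (.leafM k8 [k5,k1,k3,k4] [(z1,[z1]),(z1,[y1,y3,y3,z3]),(z1,[z0,z1])] [(k0,k2,z1,[z0,z0,z1]),(k2,k0,z1,[z0,z0,
    z1])]),
    .base (.leafM k10 [k3,k4,k5,k1] [(z1,[y1,y1,y3,z3]),(z1,[z1]),(z1,[z0,z1])] [(k0,k2,z1,[z0,z0,z1]),(k2,k0,z1,[z0,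
    z0,z1])]),
    .lp (nat_lit 257) [(nat_lit 28400),(nat_lit 28400),(nat_lit 28400),(nat_lit 31950),(nat_lit 21300),
    (nat_lit 31950)] [(nat_lit 9159),(nat_lit 9159),(nat_lit 9159),(nat_lit 9159),(nat_lit 9159),(nat_lit 9159),
    (nat_lit 14768),k0,(nat_lit 12709),(nat_lit 12709),(nat_lit 424),(nat_lit 14344)] k0 [[k0,k0,k0,k0,k0,k0,k0,k0,k0,
    k0,k0,k0],[k0,k0,k0,k0,k0,k0,k0,k0,k0,k0,k0,k0],[k0,k0,k0,k0,k0,k0,k0,k0,k0,k0,k0,k0],[k0,k0,k0,k0,k0,k0,k0,k0,k0,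
    k0,k0,k0],[k0,k0,k0,k0,k0,k0,k0,k0,k0,k0,k0,k0],[k0,k0,k0,k0,k0,k0,k0,k0,k0,k0,k0,(nat_lit 29110)],[k0,k0,k0,k0,
    k0,k0,k0,k0,k0,k0,k0,k0],[k0,k0,k0,k0,k0,k0,k0,k0,k0,k0,k0,k0],[k0,k0,k0,k0,k0,k0,k0,k0,k0,k0,k0,k0],[k0,k0,k0,k0,
    k0,k0,k0,k0,k0,k0,k0,k0],[k0,k0,k0,k0,(nat_lit 29110),k0,k0,k0,k0,k0,k0,k0],[k0,k0,k0,k0,k0,k0,k0,k0,k0,k0,k0,
    k0]] (nat_lit 85200) k6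
    [[(k1,(nat_lit 28400)),(k10,(nat_lit 37135)),(k7,(nat_lit 37559)),(k4,(nat_lit 57510))],[(k0,(nat_lit 28400)),(k2,
    (nat_lit 28400)),(k3,(nat_lit 28400)),(k5,(nat_lit 28400))],[(k0,(nat_lit 28400)),(k2,(nat_lit 28400)),(k3,
    (nat_lit 28400)),(k5,(nat_lit 28400))],[(k0,(nat_lit 28400)),(k2,(nat_lit 28400)),(k3,(nat_lit 28400)),(k5,
    (nat_lit 28400))],[(k0,(nat_lit 28400)),(k2,(nat_lit 28400)),(k3,(nat_lit 28400)),(k5,(nat_lit 28400))],[(k4,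
    (nat_lit 28400)),(k10,(nat_lit 37135)),(k7,(nat_lit 37559)),(k1,(nat_lit 57510))],[(k10,(nat_lit 17184)),(k1,
    (nat_lit 37559)),(k4,(nat_lit 37559)),(k7,(nat_lit 46718))],[(k6,(nat_lit 17182)),(k11,(nat_lit 17606)),(k8,
    (nat_lit 19241)),(k9,(nat_lit 19241))],[(k6,(nat_lit 19241)),(k11,(nat_lit 19665)),(k8,(nat_lit 21300)),(k9,
    (nat_lit 21300))],[(k6,(nat_lit 19241)),(k11,(nat_lit 19665)),(k8,(nat_lit 21300)),(k9,(nat_lit 21300))],[(k6,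
    (nat_lit 17606)),(k11,(nat_lit 18030)),(k8,(nat_lit 19665)),(k9,(nat_lit 19665))],[(k7,(nat_lit 17184)),(k1,
    (nat_lit 37135)),(k4,(nat_lit 37135)),(k10,(nat_lit 45870))]]
    [[k0,k0,k0,k2,k0,k2],[k0,k0,k0,k1,k1,k1],[k0,k0,k0,k1,k2,k1],[k0,k0,k0,k0,k3,k0]]
    [.ref k0 k0 [(z1,[z0,z1]),(z2,[z1])],.contra [z1,z1,z1,y1],.ref k1 k0 [(z1,[z0,z1]),(z1,[y3,y2,y6,z6])],
    .ref k1 k0 [(z1,[z0,z1]),(z1,[y1,y1,y3,z3])]],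
    .base (.leafM k9 [k5,k1,k3,k4] [(z1,[z1]),(z1,[y1,y2,y2,z2]),(z1,[z0,z1])] [(k0,k2,z1,[z0,z0,z1]),(k2,k0,z1,[z0,
    z0,z1])]),
    .lp (nat_lit 257) [(nat_lit 7550730),(nat_lit 5033820),(nat_lit 7550730),(nat_lit 6711760),(nat_lit 6711760),
    (nat_lit 6711760)] [(nat_lit 906035),(nat_lit 906035),(nat_lit 2164490),(nat_lit 2164490),(nat_lit 906035),
    (nat_lit 906035),(nat_lit 2651040),k0,(nat_lit 1325520),(nat_lit 1325520),(nat_lit 100560),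
    (nat_lit 2550480)] k0 [[k0,k0,k0,k0,k0,k0,k0,k0,k0,k0,k0,k0],[k0,k0,k0,k0,k0,k0,k0,k0,k0,k0,k0,k0],[k0,k0,k0,k0,
    k0,k0,k0,k0,k0,k0,k0,k0],[k0,k0,k0,k0,k0,k0,k0,k0,k0,k0,k0,k0],[k0,k0,k0,k0,k0,k0,k0,k0,k0,k0,k0,k0],[k0,k0,k0,k0,
    k0,k0,k0,k0,k0,k0,k0,(nat_lit 5201614)],[k0,k0,k0,k0,k0,k0,k0,k0,k0,k0,k0,k0],[k0,k0,k0,k0,k0,k0,k0,k0,k0,k0,k0,
    k0],[k0,k0,k0,k0,k0,k0,k0,k0,k0,k0,k0,k0],[k0,k0,k0,k0,k0,k0,k0,k0,k0,k0,k0,k0],[k0,k0,k0,k0,(nat_lit 5201614),k0,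
    k0,k0,k0,k0,k0,k0],[k0,k0,k0,k0,k0,k0,k0,k0,k0,k0,k0,k0]] (nat_lit 20135280) k6
    [[(k1,(nat_lit 7550730)),(k10,(nat_lit 8356205)),(k7,(nat_lit 8456765)),(k4,(nat_lit 12752344))],[(k2,
    (nat_lit 6292275)),(k3,(nat_lit 6292275)),(k0,(nat_lit 7550730)),(k5,(nat_lit 7550730))],[(k2,(nat_lit 5033820)),
    (k3,(nat_lit 5033820)),(k0,(nat_lit 6292275)),(k5,(nat_lit 6292275))],[(k2,(nat_lit 5033820)),(k3,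
    (nat_lit 5033820)),(k0,(nat_lit 6292275)),(k5,(nat_lit 6292275))],[(k2,(nat_lit 6292275)),(k3,(nat_lit 6292275)),
    (k0,(nat_lit 7550730)),(k5,(nat_lit 7550730))],[(k4,(nat_lit 7550730)),(k10,(nat_lit 8356205)),(k7,
    (nat_lit 8456765)),(k1,(nat_lit 12752344))],[(k10,(nat_lit 4060626)),(k1,(nat_lit 8456765)),(k4,
    (nat_lit 8456765)),(k7,(nat_lit 9362800))],[(k6,(nat_lit 4060720)),(k11,(nat_lit 4161280)),(k8,(nat_lit 5386240)),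
    (k9,(nat_lit 5386240))],[(k6,(nat_lit 5386240)),(k11,(nat_lit 5486800)),(k8,(nat_lit 6711760)),(k9,
    (nat_lit 6711760))],[(k6,(nat_lit 5386240)),(k11,(nat_lit 5486800)),(k8,(nat_lit 6711760)),(k9,
    (nat_lit 6711760))],[(k6,(nat_lit 4161280)),(k11,(nat_lit 4261840)),(k8,(nat_lit 5486800)),(k9,
    (nat_lit 5486800))],[(k7,(nat_lit 4060626)),(k1,(nat_lit 8356205)),(k4,(nat_lit 8356205)),(k10,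
    (nat_lit 9161680))]]
    [[k0,k3,k0,k0,k0,k0],[k0,k0,k0,k2,k0,k2],[k0,k0,k0,k1,k1,k1]]
    [.contra [z1,y1],.ref k3 k0 [(z1,[z0,z1]),(z2,[z1])],.contra [z1,z1,z1,y1]],
    .base (.leafM k11 [k3,k4,k5,k1] [(z1,[y1,y3,y3,z3]),(z1,[z1]),(z1,[z0,z1])] [(k0,k2,z1,[z0,z0,z1]),(k2,k0,z1,[z0,
    z0,z1])]),
    .lp (nat_lit 257) [(nat_lit 7550730),(nat_lit 5033820),(nat_lit 7550730),(nat_lit 6711760),(nat_lit 6711760),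
    (nat_lit 6711760)] [(nat_lit 906035),(nat_lit 906035),(nat_lit 2164490),(nat_lit 2164490),(nat_lit 906035),
    (nat_lit 906035),(nat_lit 2651040),k0,(nat_lit 1325520),(nat_lit 1325520),(nat_lit 100560),
    (nat_lit 2550480)] k0 [[k0,k0,k0,k0,k0,k0,k0,k0,k0,k0,k0,k0],[k0,k0,k0,k0,k0,k0,k0,k0,k0,k0,k0,k0],[k0,k0,k0,k0,
    k0,k0,k0,k0,k0,k0,k0,k0],[k0,k0,k0,k0,k0,k0,k0,k0,k0,k0,k0,k0],[k0,k0,k0,k0,k0,k0,k0,k0,k0,k0,k0,k0],[k0,k0,k0,k0,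
    k0,k0,k0,k0,k0,k0,k0,(nat_lit 5201614)],[k0,k0,k0,k0,k0,k0,k0,k0,k0,k0,k0,k0],[k0,k0,k0,k0,k0,k0,k0,k0,k0,k0,k0,
    k0],[k0,k0,k0,k0,k0,k0,k0,k0,k0,k0,k0,k0],[k0,k0,k0,k0,k0,k0,k0,k0,k0,k0,k0,k0],[k0,k0,k0,k0,(nat_lit 5201614),k0,
    k0,k0,k0,k0,k0,k0],[k0,k0,k0,k0,k0,k0,k0,k0,k0,k0,k0,k0]] (nat_lit 20135280) k6
    [[(k1,(nat_lit 7550730)),(k10,(nat_lit 8356205)),(k7,(nat_lit 8456765)),(k4,(nat_lit 12752344))],[(k2,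
    (nat_lit 6292275)),(k3,(nat_lit 6292275)),(k0,(nat_lit 7550730)),(k5,(nat_lit 7550730))],[(k2,(nat_lit 5033820)),
    (k3,(nat_lit 5033820)),(k0,(nat_lit 6292275)),(k5,(nat_lit 6292275))],[(k2,(nat_lit 5033820)),(k3,
    (nat_lit 5033820)),(k0,(nat_lit 6292275)),(k5,(nat_lit 6292275))],[(k2,(nat_lit 6292275)),(k3,(nat_lit 6292275)),
    (k0,(nat_lit 7550730)),(k5,(nat_lit 7550730))],[(k4,(nat_lit 7550730)),(k10,(nat_lit 8356205)),(k7,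
    (nat_lit 8456765)),(k1,(nat_lit 12752344))],[(k10,(nat_lit 4060626)),(k1,(nat_lit 8456765)),(k4,
    (nat_lit 8456765)),(k7,(nat_lit 9362800))],[(k6,(nat_lit 4060720)),(k11,(nat_lit 4161280)),(k8,(nat_lit 5386240)),
    (k9,(nat_lit 5386240))],[(k6,(nat_lit 5386240)),(k11,(nat_lit 5486800)),(k8,(nat_lit 6711760)),(k9,
    (nat_lit 6711760))],[(k6,(nat_lit 5386240)),(k11,(nat_lit 5486800)),(k8,(nat_lit 6711760)),(k9,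
    (nat_lit 6711760))],[(k6,(nat_lit 4161280)),(k11,(nat_lit 4261840)),(k8,(nat_lit 5486800)),(k9,
    (nat_lit 5486800))],[(k7,(nat_lit 4060626)),(k1,(nat_lit 8356205)),(k4,(nat_lit 8356205)),(k10,
    (nat_lit 9161680))]]
    [[k0,k3,k0,k0,k0,k0],[k0,k0,k0,k2,k0,k2],[k0,k0,k0,k1,k1,k1]]
    [.ref k1 k0 [(z1,[z1]),(z1,[y1,z1])],.ref k5 k0 [(z2,[y3,z2]),(z2,[z1])],.contra [y1,z0,y1,z1]],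
    .lp (nat_lit 257) [(nat_lit 478),(nat_lit 244),(nat_lit 478),(nat_lit 450),(nat_lit 300),(nat_lit 450)] [k44,k44,
    k161,k161,k44,k44,k116,k0,k133,k133,k58,k58] k0 [[k0,k0,k0,k0,k0,k0,k0,k0,k0,k0,k0,k0],[k0,k0,k0,k0,k0,k0,k0,k0,
    k0,k0,k0,k0],[k0,k0,k0,k0,k0,k0,k0,k0,k0,k0,k0,k0],[k0,k0,k0,k0,k0,k0,k0,k0,k0,k0,k0,k0],[k0,k0,k0,k0,k0,k0,k0,k0,
    k0,k0,k0,k0],[k0,k0,k0,k0,k0,k0,k0,k0,k0,k0,k0,(nat_lit 264)],[k0,k0,k0,k0,k0,k0,k0,k0,k0,k0,k0,k0],[k0,k0,k0,k0,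
    k0,k0,k0,k0,k0,k0,k0,k0],[k0,k0,k0,k0,k0,k0,k0,k0,k0,k0,k0,k0],[k0,k0,k0,k0,k0,k0,k0,k0,k0,k0,k0,k0],[k0,k0,k0,k0,
    (nat_lit 264),k0,k0,k0,k0,k0,k0,k0],[k0,k0,k0,k0,k0,k0,k0,k0,k0,k0,k0,k0]] (nat_lit 1200) k6
    [[(k10,(nat_lit 464)),(k1,(nat_lit 478)),(k7,(nat_lit 522)),(k4,(nat_lit 742))],[(k2,(nat_lit 361)),(k3,
    (nat_lit 361)),(k0,(nat_lit 478)),(k5,(nat_lit 478))],[(k2,(nat_lit 244)),(k3,(nat_lit 244)),(k0,(nat_lit 361)),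
    (k5,(nat_lit 361))],[(k2,(nat_lit 244)),(k3,(nat_lit 244)),(k0,(nat_lit 361)),(k5,(nat_lit 361))],[(k2,
    (nat_lit 361)),(k3,(nat_lit 361)),(k0,(nat_lit 478)),(k5,(nat_lit 478))],[(k10,(nat_lit 464)),(k4,(nat_lit 478)),
    (k7,(nat_lit 522)),(k1,(nat_lit 742))],[(k10,(nat_lit 244)),(k1,(nat_lit 522)),(k4,(nat_lit 522)),(k7,
    (nat_lit 566))],[(k8,(nat_lit 317)),(k9,(nat_lit 317)),(k6,(nat_lit 334)),(k11,(nat_lit 392))],[(k8,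
    (nat_lit 300)),(k9,(nat_lit 300)),(k6,(nat_lit 317)),(k11,(nat_lit 375))],[(k8,(nat_lit 300)),(k9,(nat_lit 300)),
    (k6,(nat_lit 317)),(k11,(nat_lit 375))],[(k8,(nat_lit 375)),(k9,(nat_lit 375)),(k6,(nat_lit 392)),(k11,
    (nat_lit 450))],[(k7,(nat_lit 244)),(k10,(nat_lit 450)),(k1,(nat_lit 464)),(k4,(nat_lit 464))]]
    [[k0,k3,k0,k0,k0,k0],[k0,k4,k0,k0,k0,k0],[k0,k0,k0,k1,k1,k1],[k0,k0,k0,k0,k3,k0]]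
    [.ref k2 k0 [(z1,[z1])],.ref k4 k0 [(z2,[z1])],.contra [y1,y1,z1],.ref k6 k0 [(z1,[y1,y3,z3])]]]

theorem hB6_70_0 : blkB [0, 0, 1, 2, 2, 1] [(0, 2)] sp6 hS6_70 (pcls (n := 6) [0, 0, 1, 2, 2, 1]) hD6_70 8 0 hN6_70_0 = true := by
  decide +kernel

/-- equations of the nodes for the classes `0 1 0 2 1 2`, active pairs `` -/
noncomputable def hD6_85 : List (List (List Eqn)) :=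
  [[[([z1,z1,z0,z0,z0,z1],z2)],[([z1,z0,z1,z0,z0,z1],z2)],[([z1,z0,z1,z0,z1,z0],z2)],[]]]

/-- symmetries -/
noncomputable def hS6_85 : List (Bool × ℕ × List ℕ) :=
  [(false,k0,[k0,k1,k2,k3,k4,k5]),(false,k3,[k3,k4,k5,k0,k1,k2])]

/-- nodes 0 to 3 -/
noncomputable def hN6_85_0 : List HM :=
  [.base (.leafM k0 [k1,k2,k3,k4,k5,k0] [(z1,[y1,z1])] []),
    .base (.leafM k3 [k0,k1,k2,k3,k4,k5] [(z1,[y1,z1])] []),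
    .base (.leafM k5 [k0,k1,k2,k3,k4,k5] [(z1,[y1,z1]),(z1,[z1])] []),
    .lp k0 [k6,k4,k6,k4,k6,k4] [k0,k0,k1,k1,k0,k0,k1,k1,k0,k0,k1,k1] k0 [[k0,k0,k0,k0,k0,k0,k0,k0,k0,k0,k0,k0],[k0,k0,
    k0,k0,k0,k0,k0,k0,k0,k0,k0,k0],[k0,k0,k0,k0,k0,k0,k0,k0,k0,k0,k0,k0],[k0,k0,k0,k0,k0,k0,k0,k0,k0,k0,k0,k0],[k0,k0,
    k0,k0,k0,k0,k0,k0,k0,k0,k0,k0],[k0,k0,k0,k0,k0,k0,k0,k0,k0,k0,k0,k0],[k0,k0,k0,k0,k0,k0,k0,k0,k0,k0,k0,k0],[k0,k0,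
    k0,k0,k0,k0,k0,k0,k0,k0,k0,k0],[k0,k0,k0,k0,k0,k0,k0,k0,k0,k0,k0,k0],[k0,k0,k0,k0,k0,k0,k0,k0,k0,k0,k0,k0],[k0,k0,
    k0,k0,k0,k0,k0,k0,k0,k0,k0,k0],[k0,k0,k0,k0,k0,k0,k0,k0,k0,k0,k0,k0]] k16 k5
    [[(k6,k5),(k10,k5),(k1,k6),(k9,k6)],[(k3,k5),(k7,k5),(k0,k6),(k4,k6)],[(k3,k4),(k7,k4),(k0,k5),(k4,k5)],[(k2,k4),
    (k11,k4),(k5,k5),(k8,k5)],[(k2,k5),(k11,k5),(k5,k6),(k8,k6)],[(k3,k5),(k7,k5),(k0,k6),(k4,k6)],[(k3,k4),(k7,k4),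
    (k0,k5),(k4,k5)],[(k6,k4),(k10,k4),(k1,k5),(k9,k5)],[(k6,k5),(k10,k5),(k1,k6),(k9,k6)],[(k2,k5),(k11,k5),(k5,k6),
    (k8,k6)],[(k2,k4),(k11,k4),(k5,k5),(k8,k5)],[(k6,k4),(k10,k4),(k1,k5),(k9,k5)]]
    [[k1,k1,k0,k0,k0,k1],[k0,k1,k0,k1,k1,k0],[k0,k1,k0,k1,k0,k1],[k0,k0,k1,k1,k0,k1]]
    [.ref k0 k0 [(z1,[z1])],.ref k1 k0 [(z1,[y1,z1])],.ref k2 k0 [(z1,[y1,z1])],.ref k1 k1 [(z1,[z1])]]]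

theorem hB6_85_0 : blkB [0, 1, 0, 2, 1, 2] [] sp6 hS6_85 (pcls (n := 6) [0, 1, 0, 2, 1, 2]) hD6_85 4 0 hN6_85_0 = true := by
  decide +kernel

/-- equations of the nodes for the classes `0 0 0 1 0 1`, active pairs `` -/
noncomputable def hD6_110 : List (List (List Eqn)) :=
  [[[([z1,z0,z1,z0,z1,z0],z2)],[([z1,z0,z1,z0,z0,z1],z2)],[([z1,z1,z0,z0,z0,z1],z2)],[([z1,z1,z0,z0,z1,z0],z2)],[]]]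

/-- symmetries -/
noncomputable def hS6_110 : List (Bool × ℕ × List ℕ) :=
  [(false,k0,[k0,k1,k2,k3,k4,k5])]

/-- nodes 0 to 4 -/
noncomputable def hN6_110_0 : List HM :=
  [.base (.leafM k5 [k0,k1,k2,k3,k4,k5] [(z1,[y1,z1]),(z1,[z1])] []),
    .base (.leafM k3 [k0,k1,k2,k3,k4,k5] [(z1,[y1,z1])] []),
    .base (.leafM k0 [k1,k2,k3,k4,k5,k0] [(z1,[y1,z1])] []),
    .base (.leafM k3 [k3,k4,k5,k0,k1,k2] [(z1,[z1])] []),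
    .lp k0 [k14,k20,k18,k14,k14,k14] [k3,k3,k0,k0,k1,k1,k3,k3,k3,k3,k3,k3] k0 [[k0,k0,k0,k0,k0,k0,k0,k0,k0,k0,k0,k0],
    [k0,k0,k0,k2,k0,k0,k0,k0,k0,k0,k0,k0],[k2,k0,k0,k0,k0,k2,k0,k0,k0,k0,k0,k0],[k0,k0,k0,k0,k0,k0,k0,k0,k0,k0,k0,k0],
    [k0,k0,k0,k2,k0,k0,k0,k0,k0,k0,k0,k0],[k0,k0,k0,k0,k0,k0,k0,k0,k2,k2,k0,k0],[k0,k0,k0,k0,k0,k0,k0,k0,k0,k0,k0,k0],
    [k0,k0,k0,k0,k0,k0,k0,k0,k0,k0,k0,k0],[k0,k0,k0,k0,k2,k0,k0,k0,k0,k0,k0,k0],[k0,k0,k0,k0,k2,k0,k0,k0,k0,k0,k0,k0],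
    [k0,k0,k0,k0,k0,k0,k0,k0,k0,k0,k0,k0],[k0,k0,k0,k0,k0,k0,k0,k0,k0,k0,k0,k0]] k48 k5
    [[(k1,k14),(k6,k14),(k9,k14),(k10,k14)],[(k0,k14),(k7,k14),(k8,k14),(k11,k14),(k4,k16),(k2,k17),(k3,k17),(k5,
    k18)],[(k0,k17),(k7,k17),(k8,k17),(k11,k17),(k2,k18),(k4,k19),(k5,k19),(k3,k20)],[(k0,k17),(k4,k17),(k7,k17),(k8,
    k17),(k11,k17),(k3,k18),(k5,k19),(k2,k20)],[(k8,k16),(k11,k16),(k0,k18),(k4,k18),(k5,k18),(k7,k18),(k2,k19),(k3,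
    k19)],[(k0,k16),(k7,k16),(k2,k17),(k4,k18),(k5,k18),(k8,k18),(k11,k18),(k3,k19)],[(k8,k12),(k11,k12),(k0,k14),(k7,
    k14),(k4,k16),(k2,k17),(k3,k17),(k5,k18)],[(k1,k14),(k6,k14),(k9,k14),(k10,k14)],[(k1,k14),(k6,k14),(k9,k14),(k10,
    k14)],[(k7,k12),(k0,k14),(k8,k14),(k11,k14),(k5,k16),(k2,k17),(k3,k17),(k4,k18)],[(k7,k12),(k0,k14),(k8,k14),(k11,
    k14),(k5,k16),(k2,k17),(k3,k17),(k4,k18)],[(k1,k14),(k6,k14),(k9,k14),(k10,k14)]]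
    [[k1,k0,k1,k0,k1,k0],[k1,k0,k1,k0,k0,k1],[k0,k0,k1,k1,k1,k0],[k0,k0,k1,k1,k0,k1]]
    [.ref k0 k0 [(z1,[z1])],.ref k1 k0 [(z1,[z1])],.ref k2 k0 [(z1,[y1,z1])],.ref k3 k0 [(z1,[y1,z1])]]]

theorem hB6_110_0 : blkB [0, 0, 0, 1, 0, 1] [] sp6 hS6_110 (pcls (n := 6) [0, 0, 0, 1, 0, 1]) hD6_110 5 0 hN6_110_0 = true := by
  decide +kernel

end Pool.Agent.Lib_MP_fa6e45
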