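import Pool.Agent.Lib_MP_fa6e45.HK

/-!
MP_fa6e45_co, stage 4: certificates (captain, generated by a program).
-/

namespace Pool.Agent.Lib_MP_fa6e45

/-- equations of the nodes for the classes `0 1 2 3 4`, active pairs `` -/
noncomputable def hD5_0 : List (List (List Eqn)) :=
  [[[]]]

/-- symmetries -/
noncomputable def hS5_0 : List (Bool × ℕ × List ℕ) :=
  []

/-- nodes 0 to 0 -/
noncomputable def hN5_0_0 : List HM :=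
  [.lp k0 [k2,k2,k2,k2,k2] [k0,k0,k0,k0,k0,k0,k0,k0,k0,k0] k0 [[k0,k0,k0,k0,k0,k0,k0,k0,k0,k0],[k0,k0,k0,k0,k0,k0,k0,
    k0,k0,k0],[k0,k0,k0,k0,k0,k0,k0,k0,k0,k0],[k0,k0,k0,k0,k0,k0,k0,k0,k0,k0],[k0,k0,k0,k0,k0,k0,k0,k0,k0,k0],[k0,k0,
    k0,k0,k0,k0,k0,k0,k0,k0],[k0,k0,k0,k0,k0,k0,k0,k0,k0,k0],[k0,k0,k0,k0,k0,k0,k0,k0,k0,k0],[k0,k0,k0,k0,k0,k0,k0,k0,
    k0,k0],[k0,k0,k0,k0,k0,k0,k0,k0,k0,k0]] k8 k5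
    [[(k1,k2),(k8,k2)],[(k0,k2),(k3,k2)],[(k0,k2),(k3,k2)],[(k2,k2),(k5,k2)],[(k2,k2),(k5,k2)],[(k4,k2),(k7,k2)],[(k4,
    k2),(k7,k2)],[(k6,k2),(k9,k2)],[(k6,k2),(k9,k2)],[(k1,k2),(k8,k2)]]
    []
    []]

theorem hB5_0_0 : blkB [0, 1, 2, 3, 4] [] sp5 hS5_0 (pcls (n := 5) [0, 1, 2, 3, 4]) hD5_0 1 0 hN5_0_0 = true := by
  decide +kernel

/-- equations of the nodes for the classes `0 1 0 2 3`, active pairs `` -/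
noncomputable def hD5_2 : List (List (List Eqn)) :=
  [[[([z1,z0,z0,z1,z1],z2)],[]]]

/-- symmetries -/
noncomputable def hS5_2 : List (Bool × ℕ × List ℕ) :=
  [(false,k0,[k0,k1,k2,k3,k4])]

/-- nodes 0 to 1 -/
noncomputable def hN5_2_0 : List HM :=
  [.base (.leafM k0 [k1,k2,k3,k4,k0] [(z1,[y1,z1])] []),
    .lp k0 [k2,k2,k2,k2,k2] [k0,k0,k0,k0,k0,k0,k0,k0,k0,k0] k0 [[k0,k0,k0,k0,k0,k0,k0,k0,k0,k0],[k0,k0,k0,k0,k0,k0,k0,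
    k0,k0,k0],[k0,k0,k0,k0,k0,k0,k0,k0,k0,k0],[k0,k0,k0,k0,k0,k0,k0,k0,k0,k0],[k0,k0,k0,k0,k0,k0,k0,k0,k0,k0],[k0,k0,
    k0,k0,k0,k0,k0,k0,k0,k0],[k0,k0,k0,k0,k0,k0,k0,k0,k0,k0],[k0,k0,k0,k0,k0,k0,k0,k0,k0,k0],[k0,k0,k0,k0,k0,k0,k0,k0,
    k0,k0],[k0,k0,k0,k0,k0,k0,k0,k0,k0,k0]] k8 k5
    [[(k1,k2),(k8,k2)],[(k0,k2),(k3,k2),(k4,k2),(k7,k2)],[(k0,k2),(k3,k2),(k4,k2),(k7,k2)],[(k2,k2),(k5,k2)],[(k2,k2),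
    (k5,k2)],[(k0,k2),(k3,k2),(k4,k2),(k7,k2)],[(k0,k2),(k3,k2),(k4,k2),(k7,k2)],[(k6,k2),(k9,k2)],[(k6,k2),(k9,k2)],
    [(k1,k2),(k8,k2)]]
    [[k1,k0,k0,k1,k1]]
    [.ref k0 k0 [(z1,[z1])]]]

theorem hB5_2_0 : blkB [0, 1, 0, 2, 3] [] sp5 hS5_2 (pcls (n := 5) [0, 1, 0, 2, 3]) hD5_2 2 0 hN5_2_0 = true := by
  decide +kernel

/-- equations of the nodes for the classes `0 1 0 1 2`, active pairs `` -/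
noncomputable def hD5_12 : List (List (List Eqn)) :=
  [[[([z1,z0,z0,z1,z1],z2)],[([z1,z0,z1,z0,z1],z2)],[]]]

/-- symmetries -/
noncomputable def hS5_12 : List (Bool × ℕ × List ℕ) :=
  [(true,k4,[k4,k3,k2,k1,k0]),(false,k0,[k0,k1,k2,k3,k4])]

/-- nodes 0 to 2 -/
noncomputable def hN5_12_0 : List HM :=
  [.base (.leafM k0 [k1,k2,k3,k4,k0] [(z1,[y1,z1])] []),
    .base (.leafM k2 [k0,k1,k2,k3,k4] [(z1,[y1,z1])] []),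
    .lp k0 [k2,k2,k2,k2,k2] [k0,k0,k0,k0,k0,k0,k0,k0,k0,k0] k0 [[k0,k0,k0,k0,k0,k0,k0,k0,k0,k0],[k0,k0,k0,k0,k0,k0,k0,
    k0,k0,k0],[k0,k0,k0,k0,k0,k0,k0,k0,k0,k0],[k0,k0,k0,k0,k0,k0,k0,k0,k0,k0],[k0,k0,k0,k0,k0,k0,k0,k0,k0,k0],[k0,k0,
    k0,k0,k0,k0,k0,k0,k0,k0],[k0,k0,k0,k0,k0,k0,k0,k0,k0,k0],[k0,k0,k0,k0,k0,k0,k0,k0,k0,k0],[k0,k0,k0,k0,k0,k0,k0,k0,
    k0,k0],[k0,k0,k0,k0,k0,k0,k0,k0,k0,k0]] k8 k5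
    [[(k1,k2),(k8,k2)],[(k0,k2),(k3,k2),(k4,k2),(k7,k2)],[(k0,k2),(k3,k2),(k4,k2),(k7,k2)],[(k2,k2),(k5,k2),(k6,k2),
    (k9,k2)],[(k2,k2),(k5,k2),(k6,k2),(k9,k2)],[(k0,k2),(k3,k2),(k4,k2),(k7,k2)],[(k0,k2),(k3,k2),(k4,k2),(k7,k2)],
    [(k2,k2),(k5,k2),(k6,k2),(k9,k2)],[(k2,k2),(k5,k2),(k6,k2),(k9,k2)],[(k1,k2),(k8,k2)]]
    [[k1,k1,k0,k0,k1],[k1,k0,k1,k0,k1],[k1,k0,k0,k1,k1]]
    [.ref k0 k0 [(z1,[z1])],.ref k1 k1 [(z1,[z1])],.ref k0 k1 [(z1,[z1])]]]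

theorem hB5_12_0 : blkB [0, 1, 0, 1, 2] [] sp5 hS5_12 (pcls (n := 5) [0, 1, 0, 1, 2]) hD5_12 3 0 hN5_12_0 = true := by
  decide +kernel

/-- equations of the nodes for the classes `0 1 0 1 2`, active pairs `1-2 1-3` -/
noncomputable def hD5_14 : List (List (List Eqn)) :=
  [[[]]]

/-- symmetries -/
noncomputable def hS5_14 : List (Bool × ℕ × List ℕ) :=
  []

/-- nodes 0 to 0 -/
noncomputable def hN5_14_0 : List HM :=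
  [.base (.leafM k0 [k0,k3,k4] [] [(k1,k2,z1,[z1]),(k2,k1,z1,[z1])])]

theorem hB5_14_0 : blkB [0, 1, 0, 1, 2] [(1, 2), (1, 3)] sp5 hS5_14 (pcls (n := 5) [0, 1, 0, 1, 2]) hD5_14 1 0 hN5_14_0 = true := by
  decide +kernel

/-- equations of the nodes for the classes `0 1 0 1 2`, active pairs `1-2 2-3` -/
noncomputable def hD5_15 : List (List (List Eqn)) :=
  [[[]]]

/-- symmetries -/
noncomputable def hS5_15 : List (Bool × ℕ × List ℕ) :=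
  []

/-- nodes 0 to 0 -/
noncomputable def hN5_15_0 : List HM :=
  [.base (.leafM k0 [k0,k3,k4] [] [(k1,k2,z1,[z1]),(k2,k1,z1,[z1])])]

theorem hB5_15_0 : blkB [0, 1, 0, 1, 2] [(1, 2), (2, 3)] sp5 hS5_15 (pcls (n := 5) [0, 1, 0, 1, 2]) hD5_15 1 0 hN5_15_0 = true := by
  decide +kernel

/-- equations of the nodes for the classes `0 1 0 1 2`, active pairs `1-3` -/
noncomputable def hD5_16 : List (List (List Eqn)) :=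
  [[[]]]

/-- symmetries -/
noncomputable def hS5_16 : List (Bool × ℕ × List ℕ) :=
  []

/-- nodes 0 to 0 -/
noncomputable def hN5_16_0 : List HM :=
  [.base (.leafM k1 [k4,k0,k2] [] [(k1,k3,z1,[z1]),(k3,k1,z1,[z1])])]

theorem hB5_16_0 : blkB [0, 1, 0, 1, 2] [(1, 3)] sp5 hS5_16 (pcls (n := 5) [0, 1, 0, 1, 2]) hD5_16 1 0 hN5_16_0 = true := by
  decide +kernel

/-- equations of the nodes for the classes `0 0 0 0 1`, active pairs `0-4` -/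
noncomputable def hD5_18 : List (List (List Eqn)) :=
  [[[]]]

/-- symmetries -/
noncomputable def hS5_18 : List (Bool × ℕ × List ℕ) :=
  []

/-- nodes 0 to 0 -/
noncomputable def hN5_18_0 : List HM :=
  [.base (.leafM k0 [k1,k2,k3] [] [(k4,k0,z1,[z1]),(k0,k4,z1,[z1])])]

theorem hB5_18_0 : blkB [0, 0, 0, 0, 1] [(0, 4)] sp5 hS5_18 (pcls (n := 5) [0, 0, 0, 0, 1]) hD5_18 1 0 hN5_18_0 = true := by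
  decide +kernel

/-- equations of the nodes for the classes `0 0 0 0 1`, active pairs `1-2` -/
noncomputable def hD5_19 : List (List (List Eqn)) :=
  [[[]]]

/-- symmetries -/
noncomputable def hS5_19 : List (Bool × ℕ × List ℕ) :=
  []

/-- nodes 0 to 0 -/
noncomputable def hN5_19_0 : List HM :=
  [.base (.leafM k0 [k0,k3,k4] [] [(k1,k2,z1,[z1]),(k2,k1,z1,[z1])])]

theorem hB5_19_0 : blkB [0, 0, 0, 0, 1] [(1, 2)] sp5 hS5_19 (pcls (n := 5) [0, 0, 0, 0, 1]) hD5_19 1 0 hN5_19_0 = true := by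
  decide +kernel

/-- equations of the nodes for the classes `0 0 0 0 1`, active pairs `1-2 1-3` -/
noncomputable def hD5_20 : List (List (List Eqn)) :=
  [[[]]]

/-- symmetries -/
noncomputable def hS5_20 : List (Bool × ℕ × List ℕ) :=
  []

/-- nodes 0 to 0 -/
noncomputable def hN5_20_0 : List HM :=
  [.base (.leafM k0 [k0,k3,k4] [] [(k1,k2,z1,[z1]),(k2,k1,z1,[z1])])]

theorem hB5_20_0 : blkB [0, 0, 0, 0, 1] [(1, 2), (1, 3)] sp5 hS5_20 (pcls (n := 5) [0, 0, 0, 0, 1]) hD5_20 1 0 hN5_20_0 = true := by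
  decide +kernel

/-- equations of the nodes for the classes `0 0 0 0 1`, active pairs `1-2 2-3` -/
noncomputable def hD5_21 : List (List (List Eqn)) :=
  [[[]]]

/-- symmetries -/
noncomputable def hS5_21 : List (Bool × ℕ × List ℕ) :=
  []

/-- nodes 0 to 0 -/
noncomputable def hN5_21_0 : List HM :=
  [.base (.leafM k0 [k0,k3,k4] [] [(k1,k2,z1,[z1]),(k2,k1,z1,[z1])])]

theorem hB5_21_0 : blkB [0, 0, 0, 0, 1] [(1, 2), (2, 3)] sp5 hS5_21 (pcls (n := 5) [0, 0, 0, 0, 1]) hD5_21 1 0 hN5_21_0 = true := by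
  decide +kernel

/-- equations of the nodes for the classes `0 0 0 0 1`, active pairs `1-3` -/
noncomputable def hD5_22 : List (List (List Eqn)) :=
  [[[]]]

/-- symmetries -/
noncomputable def hS5_22 : List (Bool × ℕ × List ℕ) :=
  []

/-- nodes 0 to 0 -/
noncomputable def hN5_22_0 : List HM :=
  [.base (.leafM k1 [k4,k0,k2] [] [(k1,k3,z1,[z1]),(k3,k1,z1,[z1])])]

theorem hB5_22_0 : blkB [0, 0, 0, 0, 1] [(1, 3)] sp5 hS5_22 (pcls (n := 5) [0, 0, 0, 0, 1]) hD5_22 1 0 hN5_22_0 = true := by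
  decide +kernel

/-- equations of the nodes for the classes `0 0 0 1 1`, active pairs `1-2` -/
noncomputable def hD5_25 : List (List (List Eqn)) :=
  [[[]]]

/-- symmetries -/
noncomputable def hS5_25 : List (Bool × ℕ × List ℕ) :=
  []

/-- nodes 0 to 0 -/
noncomputable def hN5_25_0 : List HM :=
  [.base (.leafM k0 [k0,k3,k4] [] [(k1,k2,z1,[z1]),(k2,k1,z1,[z1])])]

theorem hB5_25_0 : blkB [0, 0, 0, 1, 1] [(1, 2)] sp5 hS5_25 (pcls (n := 5) [0, 0, 0, 1, 1]) hD5_25 1 0 hN5_25_0 = true := by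
  decide +kernel

/-- equations of the nodes for the classes `0 0 1 0 1`, active pairs `0-2 0-3` -/
noncomputable def hD5_28 : List (List (List Eqn)) :=
  [[[]]]

/-- symmetries -/
noncomputable def hS5_28 : List (Bool × ℕ × List ℕ) :=
  []

/-- nodes 0 to 0 -/
noncomputable def hN5_28_0 : List HM :=
  [.base (.leafM k1 [k1,k2,k4] [] [(k3,k0,z1,[z0,z1]),(k0,k3,z1,[z0,z1])])]

theorem hB5_28_0 : blkB [0, 0, 1, 0, 1] [(0, 2), (0, 3)] sp5 hS5_28 (pcls (n := 5) [0, 0, 1, 0, 1]) hD5_28 1 0 hN5_28_0 = true := by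
  decide +kernel

/-- equations of the nodes for the classes `0 0 1 0 1`, active pairs `0-2 0-3 0-4` -/
noncomputable def hD5_29 : List (List (List Eqn)) :=
  [[[]]]

/-- symmetries -/
noncomputable def hS5_29 : List (Bool × ℕ × List ℕ) :=
  []

/-- nodes 0 to 0 -/
noncomputable def hN5_29_0 : List HM :=
  [.base (.leafM k1 [k1,k2,k4] [] [(k3,k0,z1,[z0,z1]),(k0,k3,z1,[z0,z1])])]

theorem hB5_29_0 : blkB [0, 0, 1, 0, 1] [(0, 2), (0, 3), (0, 4)] sp5 hS5_29 (pcls (n := 5) [0, 0, 1, 0, 1]) hD5_29 1 0 hN5_29_0 = true := by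
  decide +kernel

/-- equations of the nodes for the classes `0 0 1 0 1`, active pairs `0-2 0-4` -/
noncomputable def hD5_30 : List (List (List Eqn)) :=
  [[[]]]

/-- symmetries -/
noncomputable def hS5_30 : List (Bool × ℕ × List ℕ) :=
  []

/-- nodes 0 to 0 -/
noncomputable def hN5_30_0 : List HM :=
  [.base (.leafM k0 [k1,k2,k3] [] [(k4,k0,z1,[z0,z1]),(k0,k4,z1,[z0,z1])])]

theorem hB5_30_0 : blkB [0, 0, 1, 0, 1] [(0, 2), (0, 4)] sp5 hS5_30 (pcls (n := 5) [0, 0, 1, 0, 1]) hD5_30 1 0 hN5_30_0 = true := by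
  decide +kernel

/-- equations of the nodes for the classes `0 0 1 0 1`, active pairs `0-3` -/
noncomputable def hD5_31 : List (List (List Eqn)) :=
  [[[]]]

/-- symmetries -/
noncomputable def hS5_31 : List (Bool × ℕ × List ℕ) :=
  []

/-- nodes 0 to 0 -/
noncomputable def hN5_31_0 : List HM :=
  [.base (.leafM k1 [k1,k2,k4] [] [(k3,k0,z1,[z1]),(k0,k3,z1,[z1])])]

theorem hB5_31_0 : blkB [0, 0, 1, 0, 1] [(0, 3)] sp5 hS5_31 (pcls (n := 5) [0, 0, 1, 0, 1]) hD5_31 1 0 hN5_31_0 = true := by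
  decide +kernel

/-- equations of the nodes for the classes `0 0 1 0 1`, active pairs `0-3 0-4` -/
noncomputable def hD5_32 : List (List (List Eqn)) :=
  [[[]]]

/-- symmetries -/
noncomputable def hS5_32 : List (Bool × ℕ × List ℕ) :=
  []

/-- nodes 0 to 0 -/
noncomputable def hN5_32_0 : List HM :=
  [.base (.leafM k1 [k1,k2,k4] [] [(k3,k0,z1,[z1]),(k0,k3,z1,[z1])])]

theorem hB5_32_0 : blkB [0, 0, 1, 0, 1] [(0, 3), (0, 4)] sp5 hS5_32 (pcls (n := 5) [0, 0, 1, 0, 1]) hD5_32 1 0 hN5_32_0 = true := by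
  decide +kernel

/-- equations of the nodes for the classes `0 0 1 0 1`, active pairs `0-3 2-3` -/
noncomputable def hD5_33 : List (List (List Eqn)) :=
  [[[]]]

/-- symmetries -/
noncomputable def hS5_33 : List (Bool × ℕ × List ℕ) :=
  []

/-- nodes 0 to 0 -/
noncomputable def hN5_33_0 : List HM :=
  [.base (.leafM k1 [k1,k2,k4] [] [(k3,k0,z1,[z1]),(k0,k3,z1,[z1])])]

theorem hB5_33_0 : blkB [0, 0, 1, 0, 1] [(0, 3), (2, 3)] sp5 hS5_33 (pcls (n := 5) [0, 0, 1, 0, 1]) hD5_33 1 0 hN5_33_0 = true := by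
  decide +kernel

/-- equations of the nodes for the classes `0 0 1 0 1`, active pairs `0-3 2-3 3-4` -/
noncomputable def hD5_34 : List (List (List Eqn)) :=
  [[[]]]

/-- symmetries -/
noncomputable def hS5_34 : List (Bool × ℕ × List ℕ) :=
  []

/-- nodes 0 to 0 -/
noncomputable def hN5_34_0 : List HM :=
  [.base (.leafM k1 [k1,k2,k4] [] [(k3,k0,z1,[z1]),(k0,k3,z1,[z1])])]

theorem hB5_34_0 : blkB [0, 0, 1, 0, 1] [(0, 3), (2, 3), (3, 4)] sp5 hS5_34 (pcls (n := 5) [0, 0, 1, 0, 1]) hD5_34 1 0 hN5_34_0 = true := by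
  decide +kernel

/-- equations of the nodes for the classes `0 0 1 0 1`, active pairs `0-3 3-4` -/
noncomputable def hD5_35 : List (List (List Eqn)) :=
  [[[]]]

/-- symmetries -/
noncomputable def hS5_35 : List (Bool × ℕ × List ℕ) :=
  []

/-- nodes 0 to 0 -/
noncomputable def hN5_35_0 : List HM :=
  [.base (.leafM k1 [k1,k2,k4] [] [(k3,k0,z1,[z1]),(k0,k3,z1,[z1])])]

theorem hB5_35_0 : blkB [0, 0, 1, 0, 1] [(0, 3), (3, 4)] sp5 hS5_35 (pcls (n := 5) [0, 0, 1, 0, 1]) hD5_35 1 0 hN5_35_0 = true := by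
  decide +kernel

/-- equations of the nodes for the classes `0 0 1 0 1`, active pairs `0-4` -/
noncomputable def hD5_36 : List (List (List Eqn)) :=
  [[[]]]

/-- symmetries -/
noncomputable def hS5_36 : List (Bool × ℕ × List ℕ) :=
  []

/-- nodes 0 to 0 -/
noncomputable def hN5_36_0 : List HM :=
  [.base (.leafM k0 [k1,k2,k3] [] [(k4,k0,z1,[z1]),(k0,k4,z1,[z1])])]

theorem hB5_36_0 : blkB [0, 0, 1, 0, 1] [(0, 4)] sp5 hS5_36 (pcls (n := 5) [0, 0, 1, 0, 1]) hD5_36 1 0 hN5_36_0 = true := by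
  decide +kernel

/-- equations of the nodes for the classes `0 0 1 0 1`, active pairs `0-4 3-4` -/
noncomputable def hD5_37 : List (List (List Eqn)) :=
  [[[]]]

/-- symmetries -/
noncomputable def hS5_37 : List (Bool × ℕ × List ℕ) :=
  []

/-- nodes 0 to 0 -/
noncomputable def hN5_37_0 : List HM :=
  [.base (.leafM k0 [k1,k2,k3] [] [(k4,k0,z1,[z1]),(k0,k4,z1,[z1])])]

theorem hB5_37_0 : blkB [0, 0, 1, 0, 1] [(0, 4), (3, 4)] sp5 hS5_37 (pcls (n := 5) [0, 0, 1, 0, 1]) hD5_37 1 0 hN5_37_0 = true := by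
  decide +kernel

/-- equations of the nodes for the classes `0 0 1 0 1`, active pairs `3-4` -/
noncomputable def hD5_38 : List (List (List Eqn)) :=
  [[[]]]

/-- symmetries -/
noncomputable def hS5_38 : List (Bool × ℕ × List ℕ) :=
  []

/-- nodes 0 to 0 -/
noncomputable def hN5_38_0 : List HM :=
  [.base (.leafM k0 [k0,k1,k2] [] [(k3,k4,z1,[z1]),(k4,k3,z1,[z1])])]

theorem hB5_38_0 : blkB [0, 0, 1, 0, 1] [(3, 4)] sp5 hS5_38 (pcls (n := 5) [0, 0, 1, 0, 1]) hD5_38 1 0 hN5_38_0 = true := by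
  decide +kernel

/-- equations of the nodes for the classes `0 0 0 0 0`, active pairs `0-1` -/
noncomputable def hD5_40 : List (List (List Eqn)) :=
  [[[]]]

/-- symmetries -/
noncomputable def hS5_40 : List (Bool × ℕ × List ℕ) :=
  []

/-- nodes 0 to 0 -/
noncomputable def hN5_40_0 : List HM :=
  [.base (.leafM k0 [k2,k3,k4] [] [(k0,k1,z1,[z1]),(k1,k0,z1,[z1])])]

theorem hB5_40_0 : blkB [0, 0, 0, 0, 0] [(0, 1)] sp5 hS5_40 (pcls (n := 5) [0, 0, 0, 0, 0]) hD5_40 1 0 hN5_40_0 = true := by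
  decide +kernel

/-- equations of the nodes for the classes `0 0 0 0 0`, active pairs `0-1 0-2` -/
noncomputable def hD5_41 : List (List (List Eqn)) :=
  [[[]]]

/-- symmetries -/
noncomputable def hS5_41 : List (Bool × ℕ × List ℕ) :=
  []

/-- nodes 0 to 0 -/
noncomputable def hN5_41_0 : List HM :=
  [.base (.leafM k0 [k2,k3,k4] [] [(k0,k1,z1,[z1]),(k1,k0,z1,[z1])])]

theorem hB5_41_0 : blkB [0, 0, 0, 0, 0] [(0, 1), (0, 2)] sp5 hS5_41 (pcls (n := 5) [0, 0, 0, 0, 0]) hD5_41 1 0 hN5_41_0 = true := by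
  decide +kernel

/-- equations of the nodes for the classes `0 0 0 0 0`, active pairs `0-1 0-2 0-3` -/
noncomputable def hD5_42 : List (List (List Eqn)) :=
  [[[]]]

/-- symmetries -/
noncomputable def hS5_42 : List (Bool × ℕ × List ℕ) :=
  []

/-- nodes 0 to 0 -/
noncomputable def hN5_42_0 : List HM :=
  [.base (.leafM k0 [k2,k3,k4] [] [(k0,k1,z1,[z1]),(k1,k0,z1,[z1])])]

theorem hB5_42_0 : blkB [0, 0, 0, 0, 0] [(0, 1), (0, 2), (0, 3)] sp5 hS5_42 (pcls (n := 5) [0, 0, 0, 0, 0]) hD5_42 1 0 hN5_42_0 = true := by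
  decide +kernel

/-- equations of the nodes for the classes `0 0 0 0 0`, active pairs `0-1 0-2 0-3 0-4` -/
noncomputable def hD5_43 : List (List (List Eqn)) :=
  [[[]]]

/-- symmetries -/
noncomputable def hS5_43 : List (Bool × ℕ × List ℕ) :=
  []

/-- nodes 0 to 0 -/
noncomputable def hN5_43_0 : List HM :=
  [.base (.leafM k0 [k2,k3,k4] [] [(k0,k1,z1,[z1]),(k1,k0,z1,[z1])])]

theorem hB5_43_0 : blkB [0, 0, 0, 0, 0] [(0, 1), (0, 2), (0, 3), (0, 4)] sp5 hS5_43 (pcls (n := 5) [0, 0, 0, 0, 0]) hD5_43 1 0 hN5_43_0 = true := by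
  decide +kernel

/-- equations of the nodes for the classes `0 0 0 0 0`, active pairs `0-1 0-2 0-4` -/
noncomputable def hD5_44 : List (List (List Eqn)) :=
  [[[]]]

/-- symmetries -/
noncomputable def hS5_44 : List (Bool × ℕ × List ℕ) :=
  []

/-- nodes 0 to 0 -/
noncomputable def hN5_44_0 : List HM :=
  [.base (.leafM k0 [k2,k3,k4] [] [(k0,k1,z1,[z1]),(k1,k0,z1,[z1])])]

theorem hB5_44_0 : blkB [0, 0, 0, 0, 0] [(0, 1), (0, 2), (0, 4)] sp5 hS5_44 (pcls (n := 5) [0, 0, 0, 0, 0]) hD5_44 1 0 hN5_44_0 = true := by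
  decide +kernel

/-- equations of the nodes for the classes `0 0 0 0 0`, active pairs `0-1 0-3` -/
noncomputable def hD5_45 : List (List (List Eqn)) :=
  [[[]]]

/-- symmetries -/
noncomputable def hS5_45 : List (Bool × ℕ × List ℕ) :=
  []

/-- nodes 0 to 0 -/
noncomputable def hN5_45_0 : List HM :=
  [.base (.leafM k0 [k2,k3,k4] [] [(k0,k1,z1,[z1]),(k1,k0,z1,[z1])])]

theorem hB5_45_0 : blkB [0, 0, 0, 0, 0] [(0, 1), (0, 3)] sp5 hS5_45 (pcls (n := 5) [0, 0, 0, 0, 0]) hD5_45 1 0 hN5_45_0 = true := by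
  decide +kernel

/-- equations of the nodes for the classes `0 0 0 0 0`, active pairs `0-1 0-4` -/
noncomputable def hD5_46 : List (List (List Eqn)) :=
  [[[]]]

/-- symmetries -/
noncomputable def hS5_46 : List (Bool × ℕ × List ℕ) :=
  []

/-- nodes 0 to 0 -/
noncomputable def hN5_46_0 : List HM :=
  [.base (.leafM k0 [k2,k3,k4] [] [(k0,k1,z1,[z1]),(k1,k0,z1,[z1])])]

theorem hB5_46_0 : blkB [0, 0, 0, 0, 0] [(0, 1), (0, 4)] sp5 hS5_46 (pcls (n := 5) [0, 0, 0, 0, 0]) hD5_46 1 0 hN5_46_0 = true := by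
  decide +kernel

/-- equations of the nodes for the classes `0 0 0 0 0`, active pairs `0-2` -/
noncomputable def hD5_47 : List (List (List Eqn)) :=
  [[[]]]

/-- symmetries -/
noncomputable def hS5_47 : List (Bool × ℕ × List ℕ) :=
  []

/-- nodes 0 to 0 -/
noncomputable def hN5_47_0 : List HM :=
  [.base (.leafM k1 [k3,k4,k1] [] [(k0,k2,z1,[z1]),(k2,k0,z1,[z1])])]

theorem hB5_47_0 : blkB [0, 0, 0, 0, 0] [(0, 2)] sp5 hS5_47 (pcls (n := 5) [0, 0, 0, 0, 0]) hD5_47 1 0 hN5_47_0 = true := by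
  decide +kernel

/-- equations of the nodes for the classes `0 0 0 0 0`, active pairs `0-2 0-3` -/
noncomputable def hD5_48 : List (List (List Eqn)) :=
  [[[]]]

/-- symmetries -/
noncomputable def hS5_48 : List (Bool × ℕ × List ℕ) :=
  []

/-- nodes 0 to 0 -/
noncomputable def hN5_48_0 : List HM :=
  [.base (.leafM k1 [k3,k4,k1] [] [(k0,k2,z1,[z1]),(k2,k0,z1,[z1])])]

theorem hB5_48_0 : blkB [0, 0, 0, 0, 0] [(0, 2), (0, 3)] sp5 hS5_48 (pcls (n := 5) [0, 0, 0, 0, 0]) hD5_48 1 0 hN5_48_0 = true := by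
  decide +kernel

/-- equations of the nodes for the classes `0 1 2 3 4 5`, active pairs `` -/
noncomputable def hD6_0 : List (List (List Eqn)) :=
  [[[]]]

/-- symmetries -/
noncomputable def hS6_0 : List (Bool × ℕ × List ℕ) :=
  []

/-- nodes 0 to 0 -/
noncomputable def hN6_0_0 : List HM :=
  [.lp k0 [k2,k2,k2,k2,k2,k2] [k0,k0,k0,k0,k0,k0,k0,k0,k0,k0,k0,k0] k0 [[k0,k0,k0,k0,k0,k0,k0,k0,k0,k0,k0,k0],[k0,k0,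
    k0,k0,k0,k0,k0,k0,k0,k0,k0,k0],[k0,k0,k0,k0,k0,k0,k0,k0,k0,k0,k0,k0],[k0,k0,k0,k0,k0,k0,k0,k0,k0,k0,k0,k0],[k0,k0,
    k0,k0,k0,k0,k0,k0,k0,k0,k0,k0],[k0,k0,k0,k0,k0,k0,k0,k0,k0,k0,k0,k0],[k0,k0,k0,k0,k0,k0,k0,k0,k0,k0,k0,k0],[k0,k0,
    k0,k0,k0,k0,k0,k0,k0,k0,k0,k0],[k0,k0,k0,k0,k0,k0,k0,k0,k0,k0,k0,k0],[k0,k0,k0,k0,k0,k0,k0,k0,k0,k0,k0,k0],[k0,k0,
    k0,k0,k0,k0,k0,k0,k0,k0,k0,k0],[k0,k0,k0,k0,k0,k0,k0,k0,k0,k0,k0,k0]] k8 k5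
    [[(k1,k2),(k10,k2)],[(k0,k2),(k3,k2)],[(k0,k2),(k3,k2)],[(k2,k2),(k5,k2)],[(k2,k2),(k5,k2)],[(k4,k2),(k7,k2)],
    [(k4,k2),(k7,k2)],[(k6,k2),(k9,k2)],[(k6,k2),(k9,k2)],[(k8,k2),(k11,k2)],[(k8,k2),(k11,k2)],[(k1,k2),(k10,k2)]]
    []
    []]

theorem hB6_0_0 : blkB [0, 1, 2, 3, 4, 5] [] sp6 hS6_0 (pcls (n := 6) [0, 1, 2, 3, 4, 5]) hD6_0 1 0 hN6_0_0 = true := by
  decide +kernel

/-- equations of the nodes for the classes `0 0 1 2 3 4`, active pairs `` -/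
noncomputable def hD6_1 : List (List (List Eqn)) :=
  [[[]]]

/-- symmetries -/
noncomputable def hS6_1 : List (Bool × ℕ × List ℕ) :=
  []

/-- nodes 0 to 0 -/
noncomputable def hN6_1_0 : List HM :=
  [.lp k0 [k8,k8,k8,k6,k6,k6] [k0,k0,k0,k0,k0,k0,k1,k1,k1,k1,k1,k1] k0 [[k0,k0,k0,k0,k0,k0,k0,k0,k0,k0,k0,k0],[k0,k0,
    k0,k0,k0,k0,k0,k0,k0,k0,k0,k0],[k0,k0,k0,k0,k0,k0,k0,k0,k0,k0,k0,k0],[k0,k0,k0,k0,k0,k0,k0,k0,k0,k0,k0,k0],[k0,k0,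
    k0,k0,k0,k0,k0,k0,k0,k0,k0,k0],[k0,k0,k0,k0,k0,k0,k0,k0,k0,k0,k0,k0],[k0,k0,k0,k0,k0,k0,k0,k0,k0,k0,k0,k0],[k0,k0,
    k0,k0,k0,k0,k0,k0,k0,k0,k0,k0],[k0,k0,k0,k0,k0,k0,k0,k0,k0,k0,k0,k0],[k0,k0,k0,k0,k0,k0,k0,k0,k0,k0,k0,k0],[k0,k0,
    k0,k0,k0,k0,k0,k0,k0,k0,k0,k0],[k0,k0,k0,k0,k0,k0,k0,k0,k0,k0,k0,k0]] k24 k5
    [[(k10,k7),(k1,k8)],[(k0,k8),(k2,k8),(k3,k8),(k5,k8)],[(k0,k8),(k2,k8),(k3,k8),(k5,k8)],[(k0,k8),(k2,k8),(k3,k8),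
    (k5,k8)],[(k0,k8),(k2,k8),(k3,k8),(k5,k8)],[(k7,k7),(k4,k8)],[(k7,k6),(k4,k7)],[(k6,k6),(k9,k6)],[(k6,k6),(k9,
    k6)],[(k8,k6),(k11,k6)],[(k8,k6),(k11,k6)],[(k10,k6),(k1,k7)]]
    []
    []]

theorem hB6_1_0 : blkB [0, 0, 1, 2, 3, 4] [] sp6 hS6_1 (pcls (n := 6) [0, 0, 1, 2, 3, 4]) hD6_1 1 0 hN6_1_0 = true := by
  decide +kernel

/-- equations of the nodes for the classes `0 1 0 2 3 4`, active pairs `` -/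
noncomputable def hD6_2 : List (List (List Eqn)) :=
  [[[]]]

/-- symmetries -/
noncomputable def hS6_2 : List (Bool × ℕ × List ℕ) :=
  []

/-- nodes 0 to 0 -/
noncomputable def hN6_2_0 : List HM :=
  [.lp k0 [k2,k2,k2,k2,k2,k2] [k0,k0,k0,k0,k0,k0,k0,k0,k0,k0,k0,k0] k0 [[k0,k0,k0,k0,k0,k0,k0,k0,k0,k0,k0,k0],[k0,k0,
    k0,k0,k0,k0,k0,k0,k0,k0,k0,k0],[k0,k0,k0,k0,k0,k0,k0,k0,k0,k0,k0,k0],[k0,k0,k0,k0,k0,k0,k0,k0,k0,k0,k0,k0],[k0,k0,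
    k0,k0,k0,k0,k0,k0,k0,k0,k0,k0],[k0,k0,k0,k0,k0,k0,k0,k0,k0,k0,k0,k0],[k0,k0,k0,k0,k0,k0,k0,k0,k0,k0,k0,k0],[k0,k0,
    k0,k0,k0,k0,k0,k0,k0,k0,k0,k0],[k0,k0,k0,k0,k0,k0,k0,k0,k0,k0,k0,k0],[k0,k0,k0,k0,k0,k0,k0,k0,k0,k0,k0,k0],[k0,k0,
    k0,k0,k0,k0,k0,k0,k0,k0,k0,k0],[k0,k0,k0,k0,k0,k0,k0,k0,k0,k0,k0,k0]] k8 k5
    [[(k1,k2),(k10,k2)],[(k0,k2),(k3,k2),(k4,k2),(k7,k2)],[(k0,k2),(k3,k2),(k4,k2),(k7,k2)],[(k2,k2),(k5,k2)],[(k2,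
    k2),(k5,k2)],[(k0,k2),(k3,k2),(k4,k2),(k7,k2)],[(k0,k2),(k3,k2),(k4,k2),(k7,k2)],[(k6,k2),(k9,k2)],[(k6,k2),(k9,
    k2)],[(k8,k2),(k11,k2)],[(k8,k2),(k11,k2)],[(k1,k2),(k10,k2)]]
    []
    []]

theorem hB6_2_0 : blkB [0, 1, 0, 2, 3, 4] [] sp6 hS6_2 (pcls (n := 6) [0, 1, 0, 2, 3, 4]) hD6_2 1 0 hN6_2_0 = true := by
  decide +kernel

/-- equations of the nodes for the classes `0 1 2 0 3 4`, active pairs `` -/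
noncomputable def hD6_4 : List (List (List Eqn)) :=
  [[[([z1,z0,z0,z0,z1,z1],z2)],[]]]

/-- symmetries -/
noncomputable def hS6_4 : List (Bool × ℕ × List ℕ) :=
  [(false,k0,[k0,k1,k2,k3,k4,k5])]

/-- nodes 0 to 1 -/
noncomputable def hN6_4_0 : List HM :=
  [.base (.leafM k0 [k0,k1,k2,k3,k4,k5] [(z1,[y1,z1])] []),
    .lp k0 [k2,k2,k2,k2,k2,k4] [k1,k1,k1,k1,k1,k1,k1,k1,k1,k1,k0,k0] k0 [[k0,k0,k0,k0,k0,k0,k0,k0,k0,k0,k0,k0],[k0,k0,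
    k0,k0,k0,k0,k0,k0,k0,k0,k0,k0],[k0,k0,k0,k0,k0,k0,k0,k0,k0,k0,k0,k0],[k0,k0,k0,k0,k0,k0,k0,k0,k0,k0,k0,k0],[k0,k0,
    k0,k0,k0,k0,k0,k0,k0,k0,k0,k0],[k0,k0,k0,k0,k0,k0,k0,k0,k0,k0,k0,k0],[k0,k0,k0,k0,k0,k0,k0,k0,k0,k0,k0,k0],[k0,k0,
    k0,k0,k0,k0,k0,k0,k0,k0,k0,k0],[k0,k0,k0,k0,k0,k0,k0,k0,k0,k0,k0,k0],[k0,k0,k0,k0,k0,k0,k0,k0,k0,k0,k0,k0],[k0,k0,
    k0,k0,k0,k0,k0,k0,k0,k0,k0,k0],[k0,k0,k0,k0,k0,k0,k0,k0,k0,k0,k0,k0]] k8 k5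
    [[(k1,k2),(k10,k3)],[(k0,k2),(k3,k2),(k6,k2),(k9,k2)],[(k0,k2),(k3,k2),(k6,k2),(k9,k2)],[(k2,k2),(k5,k2)],[(k2,
    k2),(k5,k2)],[(k4,k2),(k7,k2)],[(k4,k2),(k7,k2)],[(k0,k2),(k3,k2),(k6,k2),(k9,k2)],[(k0,k2),(k3,k2),(k6,k2),(k9,
    k2)],[(k8,k2),(k11,k3)],[(k8,k3),(k11,k4)],[(k1,k3),(k10,k4)]]
    [[k0,k1,k1,k1,k0,k0]]
    [.ref k0 k0 [(z1,[y1,z1])]]]

theorem hB6_4_0 : blkB [0, 1, 2, 0, 3, 4] [] sp6 hS6_4 (pcls (n := 6) [0, 1, 2, 0, 3, 4]) hD6_4 2 0 hN6_4_0 = true := by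
  decide +kernel

/-- equations of the nodes for the classes `0 0 0 1 2 3`, active pairs `` -/
noncomputable def hD6_5 : List (List (List Eqn)) :=
  [[[]]]

/-- symmetries -/
noncomputable def hS6_5 : List (Bool × ℕ × List ℕ) :=
  []

/-- nodes 0 to 0 -/
noncomputable def hN6_5_0 : List HM :=
  [.lp k0 [k8,k8,k8,k8,k6,k6] [k0,k0,k0,k0,k0,k0,k0,k0,k1,k1,k1,k1] k0 [[k0,k0,k0,k0,k0,k0,k0,k0,k0,k0,k0,k0],[k0,k0,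
    k0,k0,k0,k0,k0,k0,k0,k0,k0,k0],[k0,k0,k0,k0,k0,k0,k0,k0,k0,k0,k0,k0],[k0,k0,k0,k0,k0,k0,k0,k0,k0,k0,k0,k0],[k0,k0,
    k0,k0,k0,k0,k0,k0,k0,k0,k0,k0],[k0,k0,k0,k0,k0,k0,k0,k0,k0,k0,k0,k0],[k0,k0,k0,k0,k0,k0,k0,k0,k0,k0,k0,k0],[k0,k0,
    k0,k0,k0,k0,k0,k0,k0,k0,k0,k0],[k0,k0,k0,k0,k0,k0,k0,k0,k0,k0,k0,k0],[k0,k0,k0,k0,k0,k0,k0,k0,k0,k0,k0,k0],[k0,k0,
    k0,k0,k0,k0,k0,k0,k0,k0,k0,k0],[k0,k0,k0,k0,k0,k0,k0,k0,k0,k0,k0,k0]] k24 k5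
    [[(k10,k7),(k1,k8)],[(k0,k8),(k2,k8),(k3,k8),(k4,k8),(k5,k8),(k7,k8)],[(k0,k8),(k2,k8),(k3,k8),(k4,k8),(k5,k8),
    (k7,k8)],[(k0,k8),(k2,k8),(k3,k8),(k4,k8),(k5,k8),(k7,k8)],[(k0,k8),(k2,k8),(k3,k8),(k4,k8),(k5,k8),(k7,k8)],[(k0,
    k8),(k2,k8),(k3,k8),(k4,k8),(k5,k8),(k7,k8)],[(k0,k8),(k2,k8),(k3,k8),(k4,k8),(k5,k8),(k7,k8)],[(k9,k7),(k6,k8)],
    [(k9,k6),(k6,k7)],[(k8,k6),(k11,k6)],[(k8,k6),(k11,k6)],[(k10,k6),(k1,k7)]]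
    []
    []]

theorem hB6_5_0 : blkB [0, 0, 0, 1, 2, 3] [] sp6 hS6_5 (pcls (n := 6) [0, 0, 0, 1, 2, 3]) hD6_5 1 0 hN6_5_0 = true := by
  decide +kernel

/-- equations of the nodes for the classes `0 0 1 0 2 3`, active pairs `` -/
noncomputable def hD6_7 : List (List (List Eqn)) :=
  [[[([z1,z0,z0,z0,z1,z1],z2)],[]]]

/-- symmetries -/
noncomputable def hS6_7 : List (Bool × ℕ × List ℕ) :=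
  [(false,k0,[k0,k1,k2,k3,k4,k5])]

/-- nodes 0 to 1 -/
noncomputable def hN6_7_0 : List HM :=
  [.base (.leafM k0 [k0,k1,k2,k3,k4,k5] [(z1,[y1,z1])] []),
    .lp k0 [k2,k4,k2,k2,k2,k2] [k1,k1,k0,k0,k1,k1,k1,k1,k1,k1,k1,k1] k0 [[k0,k0,k0,k0,k0,k0,k0,k0,k0,k0,k0,k0],[k0,k0,
    k0,k0,k0,k0,k0,k0,k0,k0,k0,k0],[k0,k0,k0,k0,k0,k0,k0,k0,k0,k0,k0,k0],[k0,k0,k0,k0,k0,k0,k0,k0,k0,k0,k0,k0],[k0,k0,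
    k0,k0,k0,k0,k0,k0,k0,k0,k0,k0],[k0,k0,k0,k0,k0,k0,k0,k0,k0,k0,k0,k0],[k0,k0,k0,k0,k0,k0,k0,k0,k0,k0,k0,k0],[k0,k0,
    k0,k0,k0,k0,k0,k0,k0,k0,k0,k0],[k0,k0,k0,k0,k0,k0,k0,k0,k0,k0,k0,k0],[k0,k0,k0,k0,k0,k0,k0,k0,k0,k0,k0,k0],[k0,k0,
    k0,k0,k0,k0,k0,k0,k0,k0,k0,k0],[k0,k0,k0,k0,k0,k0,k0,k0,k0,k0,k0,k0]] k8 k5
    [[(k1,k2),(k10,k2)],[(k0,k2),(k5,k2),(k6,k2),(k9,k2),(k2,k3),(k3,k3)],[(k0,k3),(k5,k3),(k6,k3),(k9,k3),(k2,k4),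
    (k3,k4)],[(k0,k3),(k5,k3),(k6,k3),(k9,k3),(k2,k4),(k3,k4)],[(k0,k2),(k5,k2),(k6,k2),(k9,k2),(k2,k3),(k3,k3)],[(k4,
    k2),(k7,k2)],[(k4,k2),(k7,k2)],[(k0,k2),(k5,k2),(k6,k2),(k9,k2),(k2,k3),(k3,k3)],[(k0,k2),(k5,k2),(k6,k2),(k9,k2),
    (k2,k3),(k3,k3)],[(k8,k2),(k11,k2)],[(k8,k2),(k11,k2)],[(k1,k2),(k10,k2)]]
    [[k1,k0,k0,k0,k1,k1]]
    [.ref k0 k0 [(z1,[z1])]]]

theorem hB6_7_0 : blkB [0, 0, 1, 0, 2, 3] [] sp6 hS6_7 (pcls (n := 6) [0, 0, 1, 0, 2, 3]) hD6_7 2 0 hN6_7_0 = true := by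
  decide +kernel

/-- equations of the nodes for the classes `0 0 1 1 2 3`, active pairs `` -/
noncomputable def hD6_9 : List (List (List Eqn)) :=
  [[[]]]

/-- symmetries -/
noncomputable def hS6_9 : List (Bool × ℕ × List ℕ) :=
  []

/-- nodes 0 to 0 -/
noncomputable def hN6_9_0 : List HM :=
  [.lp k0 [k8,k8,k8,k8,k8,k6] [k0,k0,k0,k0,k0,k0,k0,k0,k0,k0,k1,k1] k0 [[k0,k0,k0,k0,k0,k0,k0,k0,k0,k0,k0,k0],[k0,k0,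
    k0,k0,k0,k0,k0,k0,k0,k0,k0,k0],[k0,k0,k0,k0,k0,k0,k0,k0,k0,k0,k0,k0],[k0,k0,k0,k0,k0,k0,k0,k0,k0,k0,k0,k0],[k0,k0,
    k0,k0,k0,k0,k0,k0,k0,k0,k0,k0],[k0,k0,k0,k0,k0,k0,k0,k0,k0,k0,k0,k0],[k0,k0,k0,k0,k0,k0,k0,k0,k0,k0,k0,k0],[k0,k0,
    k0,k0,k0,k0,k0,k0,k0,k0,k0,k0],[k0,k0,k0,k0,k0,k0,k0,k0,k0,k0,k0,k0],[k0,k0,k0,k0,k0,k0,k0,k0,k0,k0,k0,k0],[k0,k0,
    k0,k0,k0,k0,k0,k0,k0,k0,k0,k0],[k0,k0,k0,k0,k0,k0,k0,k0,k0,k0,k0,k0]] k24 k5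
    [[(k10,k7),(k1,k8)],[(k0,k8),(k2,k8),(k3,k8),(k5,k8)],[(k0,k8),(k2,k8),(k3,k8),(k5,k8)],[(k0,k8),(k2,k8),(k3,k8),
    (k5,k8)],[(k0,k8),(k2,k8),(k3,k8),(k5,k8)],[(k4,k8),(k6,k8),(k7,k8),(k9,k8)],[(k4,k8),(k6,k8),(k7,k8),(k9,k8)],
    [(k4,k8),(k6,k8),(k7,k8),(k9,k8)],[(k4,k8),(k6,k8),(k7,k8),(k9,k8)],[(k11,k7),(k8,k8)],[(k11,k6),(k8,k7)],[(k10,
    k6),(k1,k7)]]
    []
    []]

theorem hB6_9_0 : blkB [0, 0, 1, 1, 2, 3] [] sp6 hS6_9 (pcls (n := 6) [0, 0, 1, 1, 2, 3]) hD6_9 1 0 hN6_9_0 = true := by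
  decide +kernel

/-- equations of the nodes for the classes `0 0 1 2 1 3`, active pairs `` -/
noncomputable def hD6_10 : List (List (List Eqn)) :=
  [[[]]]

/-- symmetries -/
noncomputable def hS6_10 : List (Bool × ℕ × List ℕ) :=
  []

/-- nodes 0 to 0 -/
noncomputable def hN6_10_0 : List HM :=
  [.lp k0 [k10,k8,k8,k6,k6,k6] [k0,k0,k1,k1,k1,k1,k2,k2,k2,k2,k2,k2] k0 [[k0,k0,k0,k0,k0,k0,k0,k0,k0,k0,k0,k0],[k0,k0,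
    k0,k0,k0,k0,k0,k0,k0,k0,k0,k0],[k0,k0,k0,k0,k0,k0,k0,k0,k0,k0,k0,k0],[k0,k0,k0,k0,k0,k0,k0,k0,k0,k0,k0,k0],[k0,k0,
    k0,k0,k0,k0,k0,k0,k0,k0,k0,k0],[k0,k0,k0,k0,k0,k0,k0,k0,k0,k0,k0,k0],[k0,k0,k0,k0,k0,k0,k0,k0,k0,k0,k0,k0],[k0,k0,
    k0,k0,k0,k0,k0,k0,k0,k0,k0,k0],[k0,k0,k0,k0,k0,k0,k0,k0,k0,k0,k0,k0],[k0,k0,k0,k0,k0,k0,k0,k0,k0,k0,k0,k0],[k0,k0,
    k0,k0,k0,k0,k0,k0,k0,k0,k0,k0],[k0,k0,k0,k0,k0,k0,k0,k0,k0,k0,k0,k0]] k24 k5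
    [[(k10,k8),(k1,k10)],[(k2,k9),(k3,k9),(k5,k9),(k0,k10)],[(k2,k8),(k3,k8),(k5,k8),(k0,k9)],[(k2,k8),(k3,k8),(k5,
    k8),(k0,k9)],[(k2,k8),(k3,k8),(k5,k8),(k0,k9)],[(k7,k7),(k8,k7),(k11,k7),(k4,k8)],[(k7,k6),(k8,k6),(k11,k6),(k4,
    k7)],[(k6,k6),(k9,k6)],[(k6,k6),(k9,k6)],[(k7,k6),(k8,k6),(k11,k6),(k4,k7)],[(k7,k6),(k8,k6),(k11,k6),(k4,k7)],
    [(k10,k6),(k1,k8)]]
    []
    []]

theorem hB6_10_0 : blkB [0, 0, 1, 2, 1, 3] [] sp6 hS6_10 (pcls (n := 6) [0, 0, 1, 2, 1, 3]) hD6_10 1 0 hN6_10_0 = true := by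
  decide +kernel

/-- equations of the nodes for the classes `0 0 1 2 3 1`, active pairs `` -/
noncomputable def hD6_13 : List (List (List Eqn)) :=
  [[[([z1,z1,z1,z0,z0,z0],z2)],[]]]

/-- symmetries -/
noncomputable def hS6_13 : List (Bool × ℕ × List ℕ) :=
  [(false,k0,[k0,k1,k2,k3,k4,k5])]

/-- nodes 0 to 1 -/
noncomputable def hN6_13_0 : List HM :=
  [.base (.leafM k0 [k2,k3,k4,k5,k0,k1] [(z1,[y1,z1])] []),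
    .lp k0 [k2,k4,k2,k2,k2,k2] [k1,k1,k0,k0,k1,k1,k1,k1,k1,k1,k1,k1] k0 [[k0,k0,k0,k0,k0,k0,k0,k0,k0,k0,k0,k0],[k0,k0,
    k0,k0,k0,k0,k0,k0,k0,k0,k0,k0],[k0,k0,k0,k0,k0,k0,k0,k0,k0,k0,k0,k0],[k0,k0,k0,k0,k0,k0,k0,k0,k0,k0,k0,k0],[k0,k0,
    k0,k0,k0,k0,k0,k0,k0,k0,k0,k0],[k0,k0,k0,k0,k0,k0,k0,k0,k0,k0,k0,k0],[k0,k0,k0,k0,k0,k0,k0,k0,k0,k0,k0,k0],[k0,k0,
    k0,k0,k0,k0,k0,k0,k0,k0,k0,k0],[k0,k0,k0,k0,k0,k0,k0,k0,k0,k0,k0,k0],[k0,k0,k0,k0,k0,k0,k0,k0,k0,k0,k0,k0],[k0,k0,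
    k0,k0,k0,k0,k0,k0,k0,k0,k0,k0],[k0,k0,k0,k0,k0,k0,k0,k0,k0,k0,k0,k0]] k8 k5
    [[(k1,k2),(k4,k2),(k7,k2),(k10,k2)],[(k0,k2),(k5,k2),(k2,k3),(k3,k3)],[(k0,k3),(k5,k3),(k2,k4),(k3,k4)],[(k0,k3),
    (k5,k3),(k2,k4),(k3,k4)],[(k0,k2),(k5,k2),(k2,k3),(k3,k3)],[(k1,k2),(k4,k2),(k7,k2),(k10,k2)],[(k1,k2),(k4,k2),
    (k7,k2),(k10,k2)],[(k6,k2),(k9,k2)],[(k6,k2),(k9,k2)],[(k8,k2),(k11,k2)],[(k8,k2),(k11,k2)],[(k1,k2),(k4,k2),(k7,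
    k2),(k10,k2)]]
    [[k0,k0,k0,k1,k1,k1]]
    [.ref k0 k0 [(z1,[y1,z1])]]]

theorem hB6_13_0 : blkB [0, 0, 1, 2, 3, 1] [] sp6 hS6_13 (pcls (n := 6) [0, 0, 1, 2, 3, 1]) hD6_13 2 0 hN6_13_0 = true := by
  decide +kernel

/-- equations of the nodes for the classes `0 1 0 1 2 3`, active pairs `` -/
noncomputable def hD6_15 : List (List (List Eqn)) :=
  [[[]]]

/-- symmetries -/
noncomputable def hS6_15 : List (Bool × ℕ × List ℕ) :=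
  []

/-- nodes 0 to 0 -/
noncomputable def hN6_15_0 : List HM :=
  [.lp k0 [k2,k2,k2,k2,k2,k2] [k0,k0,k0,k0,k0,k0,k0,k0,k0,k0,k0,k0] k0 [[k0,k0,k0,k0,k0,k0,k0,k0,k0,k0,k0,k0],[k0,k0,
    k0,k0,k0,k0,k0,k0,k0,k0,k0,k0],[k0,k0,k0,k0,k0,k0,k0,k0,k0,k0,k0,k0],[k0,k0,k0,k0,k0,k0,k0,k0,k0,k0,k0,k0],[k0,k0,
    k0,k0,k0,k0,k0,k0,k0,k0,k0,k0],[k0,k0,k0,k0,k0,k0,k0,k0,k0,k0,k0,k0],[k0,k0,k0,k0,k0,k0,k0,k0,k0,k0,k0,k0],[k0,k0,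
    k0,k0,k0,k0,k0,k0,k0,k0,k0,k0],[k0,k0,k0,k0,k0,k0,k0,k0,k0,k0,k0,k0],[k0,k0,k0,k0,k0,k0,k0,k0,k0,k0,k0,k0],[k0,k0,
    k0,k0,k0,k0,k0,k0,k0,k0,k0,k0],[k0,k0,k0,k0,k0,k0,k0,k0,k0,k0,k0,k0]] k8 k5
    [[(k1,k2),(k10,k2)],[(k0,k2),(k3,k2),(k4,k2),(k7,k2)],[(k0,k2),(k3,k2),(k4,k2),(k7,k2)],[(k2,k2),(k5,k2),(k6,k2),
    (k9,k2)],[(k2,k2),(k5,k2),(k6,k2),(k9,k2)],[(k0,k2),(k3,k2),(k4,k2),(k7,k2)],[(k0,k2),(k3,k2),(k4,k2),(k7,k2)],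
    [(k2,k2),(k5,k2),(k6,k2),(k9,k2)],[(k2,k2),(k5,k2),(k6,k2),(k9,k2)],[(k8,k2),(k11,k2)],[(k8,k2),(k11,k2)],[(k1,
    k2),(k10,k2)]]
    []
    []]

theorem hB6_15_0 : blkB [0, 1, 0, 1, 2, 3] [] sp6 hS6_15 (pcls (n := 6) [0, 1, 0, 1, 2, 3]) hD6_15 1 0 hN6_15_0 = true := by
  decide +kernel

/-- equations of the nodes for the classes `0 1 0 2 0 3`, active pairs `` -/
noncomputable def hD6_20 : List (List (List Eqn)) :=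
  [[[]]]

/-- symmetries -/
noncomputable def hS6_20 : List (Bool × ℕ × List ℕ) :=
  []

/-- nodes 0 to 0 -/
noncomputable def hN6_20_0 : List HM :=
  [.lp k0 [k2,k2,k2,k2,k2,k2] [k0,k0,k0,k0,k0,k0,k0,k0,k0,k0,k0,k0] k0 [[k0,k0,k0,k0,k0,k0,k0,k0,k0,k0,k0,k0],[k0,k0,
    k0,k0,k0,k0,k0,k0,k0,k0,k0,k0],[k0,k0,k0,k0,k0,k0,k0,k0,k0,k0,k0,k0],[k0,k0,k0,k0,k0,k0,k0,k0,k0,k0,k0,k0],[k0,k0,
    k0,k0,k0,k0,k0,k0,k0,k0,k0,k0],[k0,k0,k0,k0,k0,k0,k0,k0,k0,k0,k0,k0],[k0,k0,k0,k0,k0,k0,k0,k0,k0,k0,k0,k0],[k0,k0,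
    k0,k0,k0,k0,k0,k0,k0,k0,k0,k0],[k0,k0,k0,k0,k0,k0,k0,k0,k0,k0,k0,k0],[k0,k0,k0,k0,k0,k0,k0,k0,k0,k0,k0,k0],[k0,k0,
    k0,k0,k0,k0,k0,k0,k0,k0,k0,k0],[k0,k0,k0,k0,k0,k0,k0,k0,k0,k0,k0,k0]] k8 k5
    [[(k1,k2),(k10,k2)],[(k0,k2),(k3,k2),(k4,k2),(k7,k2),(k8,k2),(k11,k2)],[(k0,k2),(k3,k2),(k4,k2),(k7,k2),(k8,k2),
    (k11,k2)],[(k2,k2),(k5,k2)],[(k2,k2),(k5,k2)],[(k0,k2),(k3,k2),(k4,k2),(k7,k2),(k8,k2),(k11,k2)],[(k0,k2),(k3,k2),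
    (k4,k2),(k7,k2),(k8,k2),(k11,k2)],[(k6,k2),(k9,k2)],[(k6,k2),(k9,k2)],[(k0,k2),(k3,k2),(k4,k2),(k7,k2),(k8,k2),
    (k11,k2)],[(k0,k2),(k3,k2),(k4,k2),(k7,k2),(k8,k2),(k11,k2)],[(k1,k2),(k10,k2)]]
    []
    []]

theorem hB6_20_0 : blkB [0, 1, 0, 2, 0, 3] [] sp6 hS6_20 (pcls (n := 6) [0, 1, 0, 2, 0, 3]) hD6_20 1 0 hN6_20_0 = true := by
  decide +kernel

/-- equations of the nodes for the classes `0 1 0 2 1 3`, active pairs `` -/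
noncomputable def hD6_22 : List (List (List Eqn)) :=
  [[[([z1,z0,z1,z0,z0,z1],z2)],[([z1,z1,z0,z0,z0,z1],z2)],[]]]

/-- symmetries -/
noncomputable def hS6_22 : List (Bool × ℕ × List ℕ) :=
  [(false,k0,[k0,k1,k2,k3,k4,k5])]

/-- nodes 0 to 2 -/
noncomputable def hN6_22_0 : List HM :=
  [.base (.leafM k3 [k0,k1,k2,k3,k4,k5] [(z1,[y1,z1])] []),
    .base (.leafM k0 [k1,k2,k3,k4,k5,k0] [(z1,[y1,z1])] []),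
    .lp k0 [k2,k4,k2,k2,k2,k2] [k1,k1,k0,k0,k1,k1,k1,k1,k1,k1,k1,k1] k0 [[k0,k0,k0,k0,k0,k0,k0,k0,k0,k0,k0,k0],[k0,k0,
    k0,k0,k0,k0,k0,k0,k0,k0,k0,k0],[k0,k0,k0,k0,k0,k0,k0,k0,k0,k0,k0,k0],[k0,k0,k0,k0,k0,k0,k0,k0,k0,k0,k0,k0],[k0,k0,
    k0,k0,k0,k0,k0,k0,k0,k0,k0,k0],[k0,k0,k0,k0,k0,k0,k0,k0,k0,k0,k0,k0],[k0,k0,k0,k0,k0,k0,k0,k0,k0,k0,k0,k0],[k0,k0,
    k0,k0,k0,k0,k0,k0,k0,k0,k0,k0],[k0,k0,k0,k0,k0,k0,k0,k0,k0,k0,k0,k0],[k0,k0,k0,k0,k0,k0,k0,k0,k0,k0,k0,k0],[k0,k0,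
    k0,k0,k0,k0,k0,k0,k0,k0,k0,k0],[k0,k0,k0,k0,k0,k0,k0,k0,k0,k0,k0,k0]] k8 k5
    [[(k1,k2),(k10,k2)],[(k0,k2),(k4,k2),(k7,k2),(k3,k3)],[(k0,k3),(k4,k3),(k7,k3),(k3,k4)],[(k5,k3),(k8,k3),(k11,k3),
    (k2,k4)],[(k5,k2),(k8,k2),(k11,k2),(k2,k3)],[(k0,k2),(k4,k2),(k7,k2),(k3,k3)],[(k0,k2),(k4,k2),(k7,k2),(k3,k3)],
    [(k6,k2),(k9,k2)],[(k6,k2),(k9,k2)],[(k5,k2),(k8,k2),(k11,k2),(k2,k3)],[(k5,k2),(k8,k2),(k11,k2),(k2,k3)],[(k1,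
    k2),(k10,k2)]]
    [[k1,k0,k1,k0,k0,k1],[k0,k0,k1,k1,k1,k0]]
    [.ref k0 k0 [(z1,[z1])],.ref k1 k0 [(z1,[y1,z1])]]]

theorem hB6_22_0 : blkB [0, 1, 0, 2, 1, 3] [] sp6 hS6_22 (pcls (n := 6) [0, 1, 0, 2, 1, 3]) hD6_22 3 0 hN6_22_0 = true := by
  decide +kernel

/-- equations of the nodes for the classes `0 1 0 2 3 2`, active pairs `` -/
noncomputable def hD6_24 : List (List (List Eqn)) :=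
  [[[]]]

/-- symmetries -/
noncomputable def hS6_24 : List (Bool × ℕ × List ℕ) :=
  []

/-- nodes 0 to 0 -/
noncomputable def hN6_24_0 : List HM :=
  [.lp k0 [k2,k2,k2,k2,k2,k2] [k0,k0,k0,k0,k0,k0,k0,k0,k0,k0,k0,k0] k0 [[k0,k0,k0,k0,k0,k0,k0,k0,k0,k0,k0,k0],[k0,k0,
    k0,k0,k0,k0,k0,k0,k0,k0,k0,k0],[k0,k0,k0,k0,k0,k0,k0,k0,k0,k0,k0,k0],[k0,k0,k0,k0,k0,k0,k0,k0,k0,k0,k0,k0],[k0,k0,
    k0,k0,k0,k0,k0,k0,k0,k0,k0,k0],[k0,k0,k0,k0,k0,k0,k0,k0,k0,k0,k0,k0],[k0,k0,k0,k0,k0,k0,k0,k0,k0,k0,k0,k0],[k0,k0,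
    k0,k0,k0,k0,k0,k0,k0,k0,k0,k0],[k0,k0,k0,k0,k0,k0,k0,k0,k0,k0,k0,k0],[k0,k0,k0,k0,k0,k0,k0,k0,k0,k0,k0,k0],[k0,k0,
    k0,k0,k0,k0,k0,k0,k0,k0,k0,k0],[k0,k0,k0,k0,k0,k0,k0,k0,k0,k0,k0,k0]] k8 k5
    [[(k1,k2),(k6,k2),(k9,k2),(k10,k2)],[(k0,k2),(k3,k2),(k4,k2),(k7,k2)],[(k0,k2),(k3,k2),(k4,k2),(k7,k2)],[(k2,k2),
    (k5,k2)],[(k2,k2),(k5,k2)],[(k0,k2),(k3,k2),(k4,k2),(k7,k2)],[(k0,k2),(k3,k2),(k4,k2),(k7,k2)],[(k1,k2),(k6,k2),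
    (k9,k2),(k10,k2)],[(k1,k2),(k6,k2),(k9,k2),(k10,k2)],[(k8,k2),(k11,k2)],[(k8,k2),(k11,k2)],[(k1,k2),(k6,k2),(k9,
    k2),(k10,k2)]]
    []
    []]

theorem hB6_24_0 : blkB [0, 1, 0, 2, 3, 2] [] sp6 hS6_24 (pcls (n := 6) [0, 1, 0, 2, 3, 2]) hD6_24 1 0 hN6_24_0 = true := by
  decide +kernel

/-- equations of the nodes for the classes `0 1 0 2 3 2`, active pairs `0-3` -/
noncomputable def hD6_25 : List (List (List Eqn)) :=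
  [[[([z0,z1,z1,z0,z0,z0],z1)],[]]]

/-- symmetries -/
noncomputable def hS6_25 : List (Bool × ℕ × List ℕ) :=
  [(false,k0,[k0,k1,k2,k3,k4,k5])]

/-- nodes 0 to 1 -/
noncomputable def hN6_25_0 : List HM :=
  [.base (.leafM k4 [k2,k4,k5,k1] [(z1,[y1,y1,z1])] [(k3,k0,z1,[z0,z1]),(k0,k3,z1,[z0,z1])]),
    .lp k0 [k132,k132,k132,(nat_lit 308),k154,k154] [k88,k88,k88,k88,k88,k88,k0,k0,k101,k53,k55,k99] k0 [[k0,k0,k0,k0,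
    k0,k0,k0,k0,k0,k0,k0,k0],[k0,k0,k0,k0,k0,k0,k0,k0,k0,k0,k0,k0],[k0,k0,k0,k0,k0,k0,k0,k0,k0,k0,k0,k0],[k0,k0,k0,k0,
    k0,k0,k0,k0,k0,k0,k0,k0],[k0,k0,k0,k0,k0,k0,k0,k0,k0,k0,k0,k0],[k0,k0,k0,k0,k0,k0,k0,k0,k0,k0,k0,k0],[k0,k0,k0,k0,
    k0,k0,k0,k0,k0,k0,k0,k0],[k0,k0,k0,k0,k0,k0,k0,k0,k0,k0,k0,k88],[k0,k0,k0,k0,k0,k0,k0,k0,k0,k0,k0,k0],[k0,k0,k0,
    k0,k0,k0,k0,k0,k0,k0,k0,k0],[k0,k0,k0,k0,k0,k0,k88,k0,k0,k0,k0,k0],[k0,k0,k0,k0,k0,k0,k0,k0,k0,k0,k0,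
    k0]] (nat_lit 528) k6
    [[(k1,k132),(k10,k165),(k9,k167),(k6,(nat_lit 308))],[(k0,k132),(k3,k132),(k4,k132),(k7,(nat_lit 220))],[(k0,
    k132),(k3,k132),(k4,k132),(k7,(nat_lit 220))],[(k2,k132),(k5,k132)],[(k2,k132),(k5,k132)],[(k0,k132),(k3,k132),
    (k4,k132),(k7,(nat_lit 220))],[(k0,(nat_lit 220)),(k3,(nat_lit 220)),(k4,(nat_lit 220)),(k7,(nat_lit 308))],[(k10,
    (nat_lit 253)),(k9,(nat_lit 255)),(k1,(nat_lit 308)),(k6,(nat_lit 308))],[(k10,k112),(k1,k167),(k9,(nat_lit 202)),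
    (k6,(nat_lit 255))],[(k8,k106),(k11,k108)],[(k8,k108),(k11,k110)],[(k9,k112),(k1,k165),(k10,k198),(k6,
    (nat_lit 253))]]
    [[k0,k0,k0,k0,k2,k2]]
    [.ref k0 k0 [(z2,[y1,y2,z2])]]]

theorem hB6_25_0 : blkB [0, 1, 0, 2, 3, 2] [(0, 3)] sp6 hS6_25 (pcls (n := 6) [0, 1, 0, 2, 3, 2]) hD6_25 2 0 hN6_25_0 = true := by
  decide +kernel

/-- equations of the nodes for the classes `0 1 2 0 1 3`, active pairs `` -/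
noncomputable def hD6_27 : List (List (List Eqn)) :=
  [[[([z1,z0,z0,z0,z1,z1],z2)],[]]]

/-- symmetries -/
noncomputable def hS6_27 : List (Bool × ℕ × List ℕ) :=
  [(false,k0,[k0,k1,k2,k3,k4,k5]),(true,k2,[k2,k1,k0,k5,k4,k3])]

/-- nodes 0 to 1 -/
noncomputable def hN6_27_0 : List HM :=
  [.base (.leafM k0 [k0,k1,k2,k3,k4,k5] [(z1,[y1,z1])] []),
    .lp k0 [k2,k4,k2,k2,k2,k2] [k1,k1,k0,k0,k1,k1,k1,k1,k1,k1,k1,k1] k0 [[k0,k0,k0,k0,k0,k0,k0,k0,k0,k0,k0,k0],[k0,k0,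
    k0,k0,k0,k0,k0,k0,k0,k0,k0,k0],[k0,k0,k0,k0,k0,k0,k0,k0,k0,k0,k0,k0],[k0,k0,k0,k0,k0,k0,k0,k0,k0,k0,k0,k0],[k0,k0,
    k0,k0,k0,k0,k0,k0,k0,k0,k0,k0],[k0,k0,k0,k0,k0,k0,k0,k0,k0,k0,k0,k0],[k0,k0,k0,k0,k0,k0,k0,k0,k0,k0,k0,k0],[k0,k0,
    k0,k0,k0,k0,k0,k0,k0,k0,k0,k0],[k0,k0,k0,k0,k0,k0,k0,k0,k0,k0,k0,k0],[k0,k0,k0,k0,k0,k0,k0,k0,k0,k0,k0,k0],[k0,k0,
    k0,k0,k0,k0,k0,k0,k0,k0,k0,k0],[k0,k0,k0,k0,k0,k0,k0,k0,k0,k0,k0,k0]] k8 k5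
    [[(k1,k2),(k10,k2)],[(k0,k2),(k6,k2),(k9,k2),(k3,k3)],[(k0,k3),(k6,k3),(k9,k3),(k3,k4)],[(k5,k3),(k8,k3),(k11,k3),
    (k2,k4)],[(k5,k2),(k8,k2),(k11,k2),(k2,k3)],[(k4,k2),(k7,k2)],[(k4,k2),(k7,k2)],[(k0,k2),(k6,k2),(k9,k2),(k3,k3)],
    [(k0,k2),(k6,k2),(k9,k2),(k3,k3)],[(k5,k2),(k8,k2),(k11,k2),(k2,k3)],[(k5,k2),(k8,k2),(k11,k2),(k2,k3)],[(k1,k2),
    (k10,k2)]]
    [[k1,k0,k0,k0,k1,k1],[k0,k0,k1,k1,k1,k0]]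
    [.ref k0 k0 [(z1,[z1])],.ref k0 k1 [(z1,[z1])]]]

theorem hB6_27_0 : blkB [0, 1, 2, 0, 1, 3] [] sp6 hS6_27 (pcls (n := 6) [0, 1, 2, 0, 1, 3]) hD6_27 2 0 hN6_27_0 = true := by
  decide +kernel

/-- equations of the nodes for the classes `0 0 0 0 1 2`, active pairs `` -/
noncomputable def hD6_29 : List (List (List Eqn)) :=
  [[[([z1,z0,z0,z0,z1,z1],z2)],[]]]

/-- symmetries -/
noncomputable def hS6_29 : List (Bool × ℕ × List ℕ) :=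
  [(false,k0,[k0,k1,k2,k3,k4,k5])]

/-- nodes 0 to 1 -/
noncomputable def hN6_29_0 : List HM :=
  [.base (.leafM k0 [k0,k1,k2,k3,k4,k5] [(z1,[y1,z1])] []),
    .lp k0 [k8,k8,k8,k8,k8,k6] [k0,k0,k0,k0,k0,k0,k0,k0,k0,k0,k1,k1] k0 [[k0,k0,k0,k0,k0,k0,k0,k0,k0,k0,k0,k0],[k0,k0,
    k0,k0,k0,k0,k0,k0,k0,k0,k0,k0],[k0,k0,k0,k0,k0,k0,k0,k0,k0,k0,k0,k0],[k0,k0,k0,k0,k0,k0,k0,k0,k0,k0,k0,k0],[k0,k0,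
    k0,k0,k0,k0,k0,k0,k0,k0,k0,k0],[k0,k0,k0,k0,k0,k0,k0,k0,k0,k0,k0,k0],[k0,k0,k0,k0,k0,k0,k0,k0,k0,k0,k0,k0],[k0,k0,
    k0,k0,k0,k0,k0,k0,k0,k0,k0,k0],[k0,k0,k0,k0,k0,k0,k0,k0,k0,k0,k0,k0],[k0,k0,k0,k0,k0,k0,k0,k0,k0,k0,k0,k0],[k0,k0,
    k0,k0,k0,k0,k0,k0,k0,k0,k0,k0],[k0,k0,k0,k0,k0,k0,k0,k0,k0,k0,k0,k0]] k24 k5
    [[(k10,k7),(k1,k8)],[(k0,k8),(k2,k8),(k3,k8),(k4,k8),(k5,k8),(k6,k8),(k7,k8),(k9,k8)],[(k0,k8),(k2,k8),(k3,k8),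
    (k4,k8),(k5,k8),(k6,k8),(k7,k8),(k9,k8)],[(k0,k8),(k2,k8),(k3,k8),(k4,k8),(k5,k8),(k6,k8),(k7,k8),(k9,k8)],[(k0,
    k8),(k2,k8),(k3,k8),(k4,k8),(k5,k8),(k6,k8),(k7,k8),(k9,k8)],[(k0,k8),(k2,k8),(k3,k8),(k4,k8),(k5,k8),(k6,k8),(k7,
    k8),(k9,k8)],[(k0,k8),(k2,k8),(k3,k8),(k4,k8),(k5,k8),(k6,k8),(k7,k8),(k9,k8)],[(k0,k8),(k2,k8),(k3,k8),(k4,k8),
    (k5,k8),(k6,k8),(k7,k8),(k9,k8)],[(k0,k8),(k2,k8),(k3,k8),(k4,k8),(k5,k8),(k6,k8),(k7,k8),(k9,k8)],[(k11,k7),(k8,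
    k8)],[(k11,k6),(k8,k7)],[(k10,k6),(k1,k7)]]
    [[k1,k0,k0,k0,k1,k1]]
    [.ref k0 k0 [(z1,[z1])]]]

theorem hB6_29_0 : blkB [0, 0, 0, 0, 1, 2] [] sp6 hS6_29 (pcls (n := 6) [0, 0, 0, 0, 1, 2]) hD6_29 2 0 hN6_29_0 = true := by
  decide +kernel

/-- equations of the nodes for the classes `0 0 0 1 0 2`, active pairs `` -/
noncomputable def hD6_34 : List (List (List Eqn)) :=
  [[[([z1,z1,z0,z0,z0,z1],z2)],[([z1,z0,z1,z0,z0,z1],z2)],[]]]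

/-- symmetries -/
noncomputable def hS6_34 : List (Bool × ℕ × List ℕ) :=
  [(false,k0,[k0,k1,k2,k3,k4,k5])]

/-- nodes 0 to 2 -/
noncomputable def hN6_34_0 : List HM :=
  [.base (.leafM k0 [k1,k2,k3,k4,k5,k0] [(z1,[y1,z1])] []),
    .base (.leafM k3 [k0,k1,k2,k3,k4,k5] [(z1,[y1,z1])] []),
    .lp k0 [k30,k32,k36,k30,k30,k30] [k3,k3,k2,k2,k0,k0,k3,k3,k3,k3,k3,k3] k0 [[k0,k0,k0,k0,k0,k0,k0,k0,k4,k4,k0,k0],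
    [k0,k0,k4,k0,k0,k0,k0,k0,k0,k0,k0,k0],[k0,k0,k0,k0,k0,k0,k0,k0,k0,k0,k0,k0],[k4,k0,k0,k0,k0,k4,k0,k0,k0,k0,k0,k0],
    [k0,k0,k4,k0,k0,k0,k0,k0,k0,k0,k0,k0],[k0,k0,k0,k0,k0,k0,k0,k0,k0,k0,k0,k0],[k0,k0,k0,k0,k0,k0,k0,k0,k0,k0,k0,k0],
    [k0,k0,k0,k0,k0,k0,k0,k0,k0,k0,k0,k0],[k0,k4,k0,k0,k0,k0,k0,k0,k0,k0,k0,k0],[k0,k4,k0,k0,k0,k0,k0,k0,k0,k0,k0,k0],
    [k0,k0,k0,k0,k0,k0,k0,k0,k0,k0,k0,k0],[k0,k0,k0,k0,k0,k0,k0,k0,k0,k0,k0,k0]] k96 k5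
    [[(k1,k30),(k10,k30)],[(k8,k26),(k11,k26),(k0,k30),(k7,k30),(k3,k31),(k4,k33),(k5,k33),(k2,k35)],[(k5,k30),(k0,
    k31),(k7,k31),(k2,k32),(k3,k32),(k4,k34),(k8,k35),(k11,k35)],[(k8,k31),(k11,k31),(k2,k32),(k3,k32),(k4,k34),(k5,
    k34),(k0,k35),(k7,k35)],[(k3,k30),(k4,k32),(k0,k33),(k7,k33),(k8,k33),(k11,k33),(k2,k34),(k5,k36)],[(k5,k32),(k0,
    k33),(k7,k33),(k8,k33),(k11,k33),(k2,k34),(k3,k34),(k4,k36)],[(k0,k30),(k7,k30),(k8,k30),(k11,k30),(k3,k31),(k4,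
    k33),(k5,k33),(k2,k35)],[(k6,k30),(k9,k30)],[(k6,k30),(k9,k30)],[(k0,k26),(k7,k30),(k8,k30),(k11,k30),(k2,k31),
    (k4,k33),(k5,k33),(k3,k35)],[(k0,k26),(k7,k30),(k8,k30),(k11,k30),(k2,k31),(k4,k33),(k5,k33),(k3,k35)],[(k1,k30),
    (k10,k30)]]
    [[k1,k1,k0,k0,k0,k1],[k0,k1,k0,k1,k1,k0]]
    [.ref k0 k0 [(z1,[z1])],.ref k1 k0 [(z1,[y1,z1])]]]

theorem hB6_34_0 : blkB [0, 0, 0, 1, 0, 2] [] sp6 hS6_34 (pcls (n := 6) [0, 0, 0, 1, 0, 2]) hD6_34 3 0 hN6_34_0 = true := by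
  decide +kernel

/-- equations of the nodes for the classes `0 0 0 1 2 1`, active pairs `` -/
noncomputable def hD6_39 : List (List (List Eqn)) :=
  [[[]]]

/-- symmetries -/
noncomputable def hS6_39 : List (Bool × ℕ × List ℕ) :=
  []

/-- nodes 0 to 0 -/
noncomputable def hN6_39_0 : List HM :=
  [.lp k0 [k8,k8,k8,k8,k6,k6] [k0,k0,k0,k0,k0,k0,k0,k0,k1,k1,k1,k1] k0 [[k0,k0,k0,k0,k0,k0,k0,k0,k0,k0,k0,k0],[k0,k0,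
    k0,k0,k0,k0,k0,k0,k0,k0,k0,k0],[k0,k0,k0,k0,k0,k0,k0,k0,k0,k0,k0,k0],[k0,k0,k0,k0,k0,k0,k0,k0,k0,k0,k0,k0],[k0,k0,
    k0,k0,k0,k0,k0,k0,k0,k0,k0,k0],[k0,k0,k0,k0,k0,k0,k0,k0,k0,k0,k0,k0],[k0,k0,k0,k0,k0,k0,k0,k0,k0,k0,k0,k0],[k0,k0,
    k0,k0,k0,k0,k0,k0,k0,k0,k0,k0],[k0,k0,k0,k0,k0,k0,k0,k0,k0,k0,k0,k0],[k0,k0,k0,k0,k0,k0,k0,k0,k0,k0,k0,k0],[k0,k0,
    k0,k0,k0,k0,k0,k0,k0,k0,k0,k0],[k0,k0,k0,k0,k0,k0,k0,k0,k0,k0,k0,k0]] k24 k5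
    [[(k9,k7),(k10,k7),(k1,k8),(k6,k8)],[(k0,k8),(k2,k8),(k3,k8),(k4,k8),(k5,k8),(k7,k8)],[(k0,k8),(k2,k8),(k3,k8),
    (k4,k8),(k5,k8),(k7,k8)],[(k0,k8),(k2,k8),(k3,k8),(k4,k8),(k5,k8),(k7,k8)],[(k0,k8),(k2,k8),(k3,k8),(k4,k8),(k5,
    k8),(k7,k8)],[(k0,k8),(k2,k8),(k3,k8),(k4,k8),(k5,k8),(k7,k8)],[(k0,k8),(k2,k8),(k3,k8),(k4,k8),(k5,k8),(k7,k8)],
    [(k9,k7),(k10,k7),(k1,k8),(k6,k8)],[(k9,k6),(k10,k6),(k1,k7),(k6,k7)],[(k8,k6),(k11,k6)],[(k8,k6),(k11,k6)],[(k9,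
    k6),(k10,k6),(k1,k7),(k6,k7)]]
    []
    []]

theorem hB6_39_0 : blkB [0, 0, 0, 1, 2, 1] [] sp6 hS6_39 (pcls (n := 6) [0, 0, 0, 1, 2, 1]) hD6_39 1 0 hN6_39_0 = true := by
  decide +kernel

/-- equations of the nodes for the classes `0 0 1 0 1 2`, active pairs `` -/
noncomputable def hD6_46 : List (List (List Eqn)) :=
  [[[([z1,z0,z0,z1,z0,z1],z2)],[([z1,z0,z0,z0,z1,z1],z2)],[]]]

/-- symmetries -/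
noncomputable def hS6_46 : List (Bool × ℕ × List ℕ) :=
  [(false,k0,[k0,k1,k2,k3,k4,k5])]

/-- nodes 0 to 2 -/
noncomputable def hN6_46_0 : List HM :=
  [.base (.leafM k3 [k2,k3,k4,k5,k0,k1] [(z1,[z1])] []),
    .base (.leafM k0 [k0,k1,k2,k3,k4,k5] [(z1,[y1,z1])] []),
    .lp k0 [k10,k12,k6,k6,k6,k6] [k1,k1,k0,k0,k3,k3,k3,k3,k3,k3,k3,k3] k0 [[k0,k0,k0,k0,k0,k0,k0,k0,k0,k0,k0,k0],[k0,
    k0,k0,k2,k0,k0,k0,k0,k0,k0,k0,k0],[k2,k0,k0,k0,k0,k0,k0,k0,k0,k0,k0,k0],[k0,k0,k0,k0,k0,k0,k0,k0,k0,k0,k0,k0],[k0,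
    k0,k0,k0,k0,k0,k0,k0,k0,k0,k0,k0],[k0,k0,k0,k0,k0,k0,k0,k0,k0,k0,k0,k0],[k0,k0,k0,k0,k0,k0,k0,k0,k0,k0,k0,k0],[k0,
    k0,k0,k0,k0,k0,k0,k0,k0,k0,k0,k0],[k0,k0,k0,k0,k0,k0,k0,k0,k0,k0,k0,k0],[k0,k0,k0,k0,k0,k0,k0,k0,k0,k0,k0,k0],[k0,
    k0,k0,k0,k0,k0,k0,k0,k0,k0,k0,k0],[k0,k0,k0,k0,k0,k0,k0,k0,k0,k0,k0,k0]] k24 k5
    [[(k10,k8),(k1,k10)],[(k6,k8),(k9,k8),(k0,k10),(k5,k10),(k2,k11),(k3,k11)],[(k5,k9),(k6,k9),(k9,k9),(k2,k10),(k0,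
    k11),(k3,k12)],[(k5,k9),(k6,k9),(k9,k9),(k3,k10),(k0,k11),(k2,k12)],[(k5,k6),(k6,k6),(k9,k6),(k2,k9),(k3,k9),(k0,
    k10)],[(k4,k6),(k7,k6),(k8,k6),(k11,k6)],[(k4,k6),(k7,k6),(k8,k6),(k11,k6)],[(k5,k6),(k6,k6),(k9,k6),(k0,k8),(k2,
    k9),(k3,k9)],[(k5,k6),(k6,k6),(k9,k6),(k0,k8),(k2,k9),(k3,k9)],[(k4,k6),(k7,k6),(k8,k6),(k11,k6)],[(k4,k6),(k7,
    k6),(k8,k6),(k11,k6)],[(k10,k6),(k1,k8)]]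
    [[k1,k0,k0,k1,k0,k1],[k1,k0,k0,k0,k1,k1]]
    [.ref k0 k0 [(z1,[z1])],.ref k1 k0 [(z1,[z1])]]]

theorem hB6_46_0 : blkB [0, 0, 1, 0, 1, 2] [] sp6 hS6_46 (pcls (n := 6) [0, 0, 1, 0, 1, 2]) hD6_46 3 0 hN6_46_0 = true := by
  decide +kernel

/-- equations of the nodes for the classes `0 0 1 0 2 1`, active pairs `` -/
noncomputable def hD6_53 : List (List (List Eqn)) :=
  [[[([z1,z0,z0,z0,z1,z1],z2)],[([z1,z1,z0,z1,z0,z0],z2)],[([z1,z1,z1,z0,z0,z0],z2)],[]]]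

/-- symmetries -/
noncomputable def hS6_53 : List (Bool × ℕ × List ℕ) :=
  [(false,k0,[k0,k1,k2,k3,k4,k5])]

/-- nodes 0 to 3 -/
noncomputable def hN6_53_0 : List HM :=
  [.base (.leafM k0 [k0,k1,k2,k3,k4,k5] [(z1,[y1,z1])] []),
    .base (.leafM k3 [k1,k2,k3,k4,k5,k0] [(z1,[y1,z1])] []),
    .base (.leafM k0 [k2,k3,k4,k5,k0,k1] [(z1,[y1,z1])] []),
    .lp k0 [k2,k4,k2,k2,k2,k2] [k1,k1,k0,k0,k1,k1,k1,k1,k1,k1,k1,k1] k0 [[k0,k0,k0,k0,k0,k0,k0,k0,k0,k0,k0,k0],[k0,k0,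
    k0,k0,k0,k0,k0,k0,k0,k0,k0,k0],[k0,k0,k0,k0,k0,k0,k0,k0,k0,k0,k0,k0],[k0,k0,k0,k0,k0,k0,k0,k0,k0,k0,k0,k0],[k0,k0,
    k0,k0,k0,k0,k0,k0,k0,k0,k0,k0],[k0,k0,k0,k0,k0,k0,k0,k0,k0,k0,k0,k0],[k0,k0,k0,k0,k0,k0,k0,k0,k0,k0,k0,k0],[k0,k0,
    k0,k0,k0,k0,k0,k0,k0,k0,k0,k0],[k0,k0,k0,k0,k0,k0,k0,k0,k0,k0,k0,k0],[k0,k0,k0,k0,k0,k0,k0,k0,k0,k0,k0,k0],[k0,k0,
    k0,k0,k0,k0,k0,k0,k0,k0,k0,k0],[k0,k0,k0,k0,k0,k0,k0,k0,k0,k0,k0,k0]] k8 k5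
    [[(k1,k2),(k4,k2),(k7,k2),(k10,k2)],[(k0,k2),(k5,k2),(k6,k2),(k9,k2),(k2,k3),(k3,k3)],[(k0,k3),(k5,k3),(k6,k3),
    (k9,k3),(k2,k4),(k3,k4)],[(k0,k3),(k5,k3),(k6,k3),(k9,k3),(k2,k4),(k3,k4)],[(k0,k2),(k5,k2),(k6,k2),(k9,k2),(k2,
    k3),(k3,k3)],[(k1,k2),(k4,k2),(k7,k2),(k10,k2)],[(k1,k2),(k4,k2),(k7,k2),(k10,k2)],[(k0,k2),(k5,k2),(k6,k2),(k9,
    k2),(k2,k3),(k3,k3)],[(k0,k2),(k5,k2),(k6,k2),(k9,k2),(k2,k3),(k3,k3)],[(k8,k2),(k11,k2)],[(k8,k2),(k11,k2)],[(k1,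
    k2),(k4,k2),(k7,k2),(k10,k2)]]
    [[k1,k0,k0,k0,k1,k1],[k0,k0,k1,k0,k1,k1],[k0,k0,k0,k1,k1,k1]]
    [.ref k0 k0 [(z1,[z1])],.ref k1 k0 [(z1,[y1,z1])],.ref k2 k0 [(z1,[y1,z1])]]]

theorem hB6_53_0 : blkB [0, 0, 1, 0, 2, 1] [] sp6 hS6_53 (pcls (n := 6) [0, 0, 1, 0, 2, 1]) hD6_53 4 0 hN6_53_0 = true := by
  decide +kernel

/-- equations of the nodes for the classes `0 0 1 0 2 2`, active pairs `` -/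
noncomputable def hD6_60 : List (List (List Eqn)) :=
  [[[([z1,z0,z0,z0,z1,z1],z2)],[]]]

/-- symmetries -/
noncomputable def hS6_60 : List (Bool × ℕ × List ℕ) :=
  [(false,k0,[k0,k1,k2,k3,k4,k5])]

/-- nodes 0 to 1 -/
noncomputable def hN6_60_0 : List HM :=
  [.base (.leafM k0 [k0,k1,k2,k3,k4,k5] [(z1,[y1,z1])] []),
    .lp k0 [k8,k10,k6,k6,k8,k8] [k1,k1,k0,k0,k2,k2,k2,k2,k1,k1,k1,k1] k0 [[k0,k0,k0,k2,k0,k0,k2,k0,k0,k0,k0,k0],[k0,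
    k0,k0,k0,k0,k0,k0,k0,k0,k0,k0,k0],[k0,k2,k0,k0,k0,k0,k0,k0,k0,k0,k0,k0],[k0,k0,k0,k0,k0,k0,k0,k0,k0,k0,k0,k0],[k0,
    k0,k0,k0,k0,k0,k0,k0,k0,k0,k0,k0],[k0,k0,k0,k0,k0,k0,k0,k0,k0,k0,k0,k0],[k0,k0,k0,k0,k0,k0,k0,k0,k0,k0,k0,k0],[k0,
    k2,k0,k0,k0,k0,k0,k0,k0,k0,k0,k0],[k0,k0,k0,k0,k0,k0,k0,k0,k0,k0,k0,k0],[k0,k0,k0,k0,k0,k0,k0,k0,k0,k0,k0,k0],[k0,
    k0,k0,k0,k0,k0,k0,k0,k0,k0,k0,k0],[k0,k0,k0,k0,k0,k0,k0,k0,k0,k0,k0,k0]] k24 k5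
    [[(k1,k8),(k8,k8),(k10,k8),(k11,k8)],[(k9,k6),(k2,k7),(k5,k7),(k6,k7),(k0,k8),(k3,k9)],[(k0,k9),(k9,k9),(k2,k10),
    (k3,k10),(k5,k10),(k6,k10)],[(k0,k7),(k5,k8),(k6,k8),(k9,k9),(k2,k10),(k3,k10)],[(k5,k6),(k6,k6),(k0,k7),(k9,k7),
    (k2,k8),(k3,k10)],[(k4,k6),(k7,k6)],[(k4,k6),(k7,k6)],[(k5,k6),(k6,k6),(k0,k7),(k9,k7),(k2,k8),(k3,k10)],[(k0,k6),
    (k5,k7),(k6,k7),(k9,k8),(k2,k9),(k3,k9)],[(k1,k8),(k8,k8),(k10,k8),(k11,k8)],[(k1,k8),(k8,k8),(k10,k8),(k11,k8)],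
    [(k1,k8),(k8,k8),(k10,k8),(k11,k8)]]
    [[k1,k0,k0,k0,k1,k1]]
    [.ref k0 k0 [(z1,[z1])]]]

theorem hB6_60_0 : blkB [0, 0, 1, 0, 2, 2] [] sp6 hS6_60 (pcls (n := 6) [0, 0, 1, 0, 2, 2]) hD6_60 2 0 hN6_60_0 = true := by
  decide +kernel

/-- equations of the nodes for the classes `0 0 1 2 1 2`, active pairs `` -/
noncomputable def hD6_64 : List (List (List Eqn)) :=
  [[[]]]

/-- symmetries -/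
noncomputable def hS6_64 : List (Bool × ℕ × List ℕ) :=
  []

/-- nodes 0 to 0 -/
noncomputable def hN6_64_0 : List HM :=
  [.lp k0 [k10,k8,k8,k6,k6,k6] [k0,k0,k1,k1,k1,k1,k2,k2,k2,k2,k2,k2] k0 [[k0,k0,k0,k0,k0,k0,k0,k0,k0,k0,k0,k0],[k0,k0,
    k0,k0,k0,k0,k0,k0,k0,k0,k0,k0],[k0,k0,k0,k0,k0,k0,k0,k0,k0,k0,k0,k0],[k0,k0,k0,k0,k0,k0,k0,k0,k0,k0,k0,k0],[k0,k0,
    k0,k0,k0,k0,k0,k0,k0,k0,k0,k0],[k0,k0,k0,k0,k0,k0,k0,k0,k0,k0,k0,k0],[k0,k0,k0,k0,k0,k0,k0,k0,k0,k0,k0,k0],[k0,k0,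
    k0,k0,k0,k0,k0,k0,k0,k0,k0,k0],[k0,k0,k0,k0,k0,k0,k0,k0,k0,k0,k0,k0],[k0,k0,k0,k0,k0,k0,k0,k0,k0,k0,k0,k0],[k0,k0,
    k0,k0,k0,k0,k0,k0,k0,k0,k0,k0],[k0,k0,k0,k0,k0,k0,k0,k0,k0,k0,k0,k0]] k24 k5
    [[(k6,k8),(k9,k8),(k10,k8),(k1,k10)],[(k2,k9),(k3,k9),(k5,k9),(k0,k10)],[(k2,k8),(k3,k8),(k5,k8),(k0,k9)],[(k2,
    k8),(k3,k8),(k5,k8),(k0,k9)],[(k2,k8),(k3,k8),(k5,k8),(k0,k9)],[(k7,k7),(k8,k7),(k11,k7),(k4,k8)],[(k7,k6),(k8,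
    k6),(k11,k6),(k4,k7)],[(k6,k6),(k9,k6),(k10,k6),(k1,k8)],[(k6,k6),(k9,k6),(k10,k6),(k1,k8)],[(k7,k6),(k8,k6),(k11,
    k6),(k4,k7)],[(k7,k6),(k8,k6),(k11,k6),(k4,k7)],[(k6,k6),(k9,k6),(k10,k6),(k1,k8)]]
    []
    []]

theorem hB6_64_0 : blkB [0, 0, 1, 2, 1, 2] [] sp6 hS6_64 (pcls (n := 6) [0, 0, 1, 2, 1, 2]) hD6_64 1 0 hN6_64_0 = true := by
  decide +kernel

/-- equations of the nodes for the classes `0 1 0 1 0 2`, active pairs `` -/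
noncomputable def hD6_71 : List (List (List Eqn)) :=
  [[[]]]

/-- symmetries -/
noncomputable def hS6_71 : List (Bool × ℕ × List ℕ) :=
  []

/-- nodes 0 to 0 -/
noncomputable def hN6_71_0 : List HM :=
  [.lp k0 [k2,k2,k2,k2,k2,k2] [k0,k0,k0,k0,k0,k0,k0,k0,k0,k0,k0,k0] k0 [[k0,k0,k0,k0,k0,k0,k0,k0,k0,k0,k0,k0],[k0,k0,
    k0,k0,k0,k0,k0,k0,k0,k0,k0,k0],[k0,k0,k0,k0,k0,k0,k0,k0,k0,k0,k0,k0],[k0,k0,k0,k0,k0,k0,k0,k0,k0,k0,k0,k0],[k0,k0,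
    k0,k0,k0,k0,k0,k0,k0,k0,k0,k0],[k0,k0,k0,k0,k0,k0,k0,k0,k0,k0,k0,k0],[k0,k0,k0,k0,k0,k0,k0,k0,k0,k0,k0,k0],[k0,k0,
    k0,k0,k0,k0,k0,k0,k0,k0,k0,k0],[k0,k0,k0,k0,k0,k0,k0,k0,k0,k0,k0,k0],[k0,k0,k0,k0,k0,k0,k0,k0,k0,k0,k0,k0],[k0,k0,
    k0,k0,k0,k0,k0,k0,k0,k0,k0,k0],[k0,k0,k0,k0,k0,k0,k0,k0,k0,k0,k0,k0]] k8 k5
    [[(k1,k2),(k10,k2)],[(k0,k2),(k3,k2),(k4,k2),(k7,k2),(k8,k2),(k11,k2)],[(k0,k2),(k3,k2),(k4,k2),(k7,k2),(k8,k2),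
    (k11,k2)],[(k2,k2),(k5,k2),(k6,k2),(k9,k2)],[(k2,k2),(k5,k2),(k6,k2),(k9,k2)],[(k0,k2),(k3,k2),(k4,k2),(k7,k2),
    (k8,k2),(k11,k2)],[(k0,k2),(k3,k2),(k4,k2),(k7,k2),(k8,k2),(k11,k2)],[(k2,k2),(k5,k2),(k6,k2),(k9,k2)],[(k2,k2),
    (k5,k2),(k6,k2),(k9,k2)],[(k0,k2),(k3,k2),(k4,k2),(k7,k2),(k8,k2),(k11,k2)],[(k0,k2),(k3,k2),(k4,k2),(k7,k2),(k8,
    k2),(k11,k2)],[(k1,k2),(k10,k2)]]
    []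
    []]

theorem hB6_71_0 : blkB [0, 1, 0, 1, 0, 2] [] sp6 hS6_71 (pcls (n := 6) [0, 1, 0, 1, 0, 2]) hD6_71 1 0 hN6_71_0 = true := by
  decide +kernel

/-- equations of the nodes for the classes `0 1 0 1 0 2`, active pairs `1-4` -/
noncomputable def hD6_83 : List (List (List Eqn)) :=
  [[[([z1,z0,z0,z0,z0,z1],z1)],[]]]

/-- symmetries -/
noncomputable def hS6_83 : List (Bool × ℕ × List ℕ) :=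
  [(false,k0,[k0,k1,k2,k3,k4,k5])]

/-- nodes 0 to 1 -/
noncomputable def hN6_83_0 : List HM :=
  [.base (.leafM k4 [k0,k2,k3,k5] [(z1,[y1,y1,z1])] [(k1,k4,z1,[z0,z1]),(k4,k1,z1,[z0,z1])]),
    .lp k0 [k154,(nat_lit 308),k132,k132,k132,k154] [k55,k99,k0,k0,k88,k88,k88,k88,k88,k88,k101,k53] k0 [[k0,k0,k0,k0,
    k0,k0,k0,k0,k88,k0,k0,k0],[k0,k0,k0,k0,k0,k0,k0,k0,k0,k0,k0,k0],[k0,k0,k0,k0,k0,k0,k0,k0,k0,k0,k0,k0],[k0,k0,k0,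
    k0,k0,k0,k0,k0,k0,k0,k0,k0],[k0,k0,k0,k0,k0,k0,k0,k0,k0,k0,k0,k0],[k0,k0,k0,k0,k0,k0,k0,k0,k0,k0,k0,k0],[k0,k0,k0,
    k0,k0,k0,k0,k0,k0,k0,k0,k0],[k0,k0,k0,k0,k0,k0,k0,k0,k0,k0,k0,k0],[k0,k0,k0,k0,k0,k0,k0,k0,k0,k0,k0,k0],[k0,k88,
    k0,k0,k0,k0,k0,k0,k0,k0,k0,k0],[k0,k0,k0,k0,k0,k0,k0,k0,k0,k0,k0,k0],[k0,k0,k0,k0,k0,k0,k0,k0,k0,k0,k0,
    k0]] (nat_lit 528) k6
    [[(k10,k108),(k1,k110)],[(k11,k112),(k4,k165),(k7,k165),(k8,k165),(k0,k198),(k3,(nat_lit 253))],[(k4,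
    (nat_lit 220)),(k7,(nat_lit 220)),(k0,(nat_lit 253)),(k11,(nat_lit 255)),(k3,(nat_lit 308)),(k8,(nat_lit 308))],
    [(k5,(nat_lit 220)),(k6,(nat_lit 220)),(k9,(nat_lit 220)),(k2,(nat_lit 308))],[(k5,k132),(k6,k132),(k9,k132),(k2,
    (nat_lit 220))],[(k4,k132),(k7,k132),(k8,k132),(k0,k165),(k11,k167),(k3,(nat_lit 220))],[(k4,k132),(k7,k132),(k8,
    k132),(k0,k165),(k11,k167),(k3,(nat_lit 220))],[(k5,k132),(k6,k132),(k9,k132),(k2,(nat_lit 220))],[(k5,k132),(k6,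
    k132),(k9,k132),(k2,(nat_lit 220))],[(k4,k132),(k7,k132),(k8,k132),(k0,k165),(k11,k167),(k3,(nat_lit 308))],[(k0,
    k112),(k4,k167),(k7,k167),(k8,k167),(k11,(nat_lit 202)),(k3,(nat_lit 255))],[(k10,k106),(k1,k108)]]
    [[k2,k0,k0,k0,k0,k2]]
    [.ref k0 k0 [(z2,[z1])]]]

theorem hB6_83_0 : blkB [0, 1, 0, 1, 0, 2] [(1, 4)] sp6 hS6_83 (pcls (n := 6) [0, 1, 0, 1, 0, 2]) hD6_83 2 0 hN6_83_0 = true := by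
  decide +kernel

/-- equations of the nodes for the classes `0 1 2 0 1 2`, active pairs `` -/
noncomputable def hD6_88 : List (List (List Eqn)) :=
  [[[([z1,z0,z1,z0,z1,z0],z2)],[([z1,z0,z0,z0,z1,z1],z2)],[]]]

/-- symmetries -/
noncomputable def hS6_88 : List (Bool × ℕ × List ℕ) :=
  [(false,k0,[k0,k1,k2,k3,k4,k5]),(false,k2,[k2,k3,k4,k5,k0,k1]),(false,k1,[k1,k2,k3,k4,k5,k0])]

/-- nodes 0 to 2 -/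
noncomputable def hN6_88_0 : List HM :=
  [.base (.leafM k1 [k0,k1,k2,k3,k4,k5] [(z1,[y1,z1]),(z1,[z1])] []),
    .base (.leafM k0 [k0,k1,k2,k3,k4,k5] [(z1,[y1,z1])] []),
    .lp k0 [k4,k6,k6,k6,k4,k4] [k1,k1,k0,k0,k0,k0,k0,k0,k1,k1,k1,k1] k0 [[k0,k0,k0,k0,k0,k0,k0,k0,k0,k0,k0,k0],[k0,k0,
    k0,k0,k0,k0,k0,k0,k0,k0,k0,k0],[k0,k0,k0,k0,k0,k0,k0,k0,k0,k0,k0,k0],[k0,k0,k0,k0,k0,k0,k0,k0,k0,k0,k0,k0],[k0,k0,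
    k0,k0,k0,k0,k0,k0,k0,k0,k0,k0],[k0,k0,k0,k0,k0,k0,k0,k0,k0,k0,k0,k0],[k0,k0,k0,k0,k0,k0,k0,k0,k0,k0,k0,k0],[k0,k0,
    k0,k0,k0,k0,k0,k0,k0,k0,k0,k0],[k0,k0,k0,k0,k0,k0,k0,k0,k0,k0,k0,k0],[k0,k0,k0,k0,k0,k0,k0,k0,k0,k0,k0,k0],[k0,k0,
    k0,k0,k0,k0,k0,k0,k0,k0,k0,k0],[k0,k0,k0,k0,k0,k0,k0,k0,k0,k0,k0,k0]] k16 k5
    [[(k1,k4),(k10,k4),(k4,k5),(k7,k5)],[(k0,k4),(k9,k4),(k3,k5),(k6,k5)],[(k0,k5),(k9,k5),(k3,k6),(k6,k6)],[(k8,k5),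
    (k11,k5),(k2,k6),(k5,k6)],[(k8,k5),(k11,k5),(k2,k6),(k5,k6)],[(k1,k5),(k10,k5),(k4,k6),(k7,k6)],[(k1,k5),(k10,k5),
    (k4,k6),(k7,k6)],[(k0,k5),(k9,k5),(k3,k6),(k6,k6)],[(k0,k4),(k9,k4),(k3,k5),(k6,k5)],[(k8,k4),(k11,k4),(k2,k5),
    (k5,k5)],[(k8,k4),(k11,k4),(k2,k5),(k5,k5)],[(k1,k4),(k10,k4),(k4,k5),(k7,k5)]]
    [[k1,k0,k1,k0,k1,k0],[k1,k1,k0,k0,k0,k1],[k1,k0,k0,k0,k1,k1],[k0,k0,k0,k1,k1,k1]]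
    [.ref k0 k0 [(z1,[z1])],.ref k1 k1 [(z1,[y1,z1])],.ref k1 k0 [(z1,[z1])],.ref k1 k2 [(z1,[z1])]]]

theorem hB6_88_0 : blkB [0, 1, 2, 0, 1, 2] [] sp6 hS6_88 (pcls (n := 6) [0, 1, 2, 0, 1, 2]) hD6_88 3 0 hN6_88_0 = true := by
  decide +kernel

/-- equations of the nodes for the classes `0 0 1 0 1 1`, active pairs `` -/
noncomputable def hD6_136 : List (List (List Eqn)) :=
  [[[([z1,z0,z0,z0,z1,z1],z2)],[([z1,z0,z0,z1,z0,z1],z2)],[]]]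

/-- symmetries -/
noncomputable def hS6_136 : List (Bool × ℕ × List ℕ) :=
  [(true,k0,[k0,k5,k4,k3,k2,k1]),(false,k0,[k0,k1,k2,k3,k4,k5])]

/-- nodes 0 to 2 -/
noncomputable def hN6_136_0 : List HM :=
  [.base (.leafM k0 [k0,k1,k2,k3,k4,k5] [(z1,[y1,z1])] []),
    .base (.leafM k3 [k2,k3,k4,k5,k0,k1] [(z1,[z1])] []),
    .lp k0 [k16,k16,k16,k14,k16,k16] [k0,k0,k0,k0,k0,k0,k1,k1,k0,k0,k0,k0] k0 [[k0,k0,k0,k0,k0,k0,k2,k0,k0,k0,k0,k0],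
    [k0,k0,k0,k0,k0,k0,k0,k0,k0,k0,k0,k0],[k0,k0,k0,k0,k0,k0,k0,k0,k0,k0,k0,k0],[k0,k0,k0,k0,k0,k0,k2,k0,k0,k0,k0,k0],
    [k0,k0,k0,k0,k0,k0,k0,k0,k0,k2,k2,k0],[k0,k0,k0,k0,k0,k0,k0,k0,k0,k0,k0,k0],[k0,k0,k0,k0,k0,k0,k0,k0,k0,k0,k0,k0],
    [k0,k2,k2,k0,k0,k0,k0,k0,k0,k0,k0,k0],[k0,k0,k0,k0,k0,k2,k0,k0,k0,k0,k0,k0],[k0,k0,k0,k0,k0,k0,k0,k0,k0,k0,k0,k0],
    [k0,k0,k0,k0,k0,k0,k0,k0,k0,k0,k0,k0],[k0,k0,k0,k0,k0,k2,k0,k0,k0,k0,k0,k0]] k48 k5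
    [[(k4,k14),(k7,k15),(k1,k16),(k8,k16),(k10,k16),(k11,k16)],[(k9,k14),(k6,k15),(k0,k16),(k2,k16),(k3,k16),(k5,
    k16)],[(k0,k16),(k2,k16),(k3,k16),(k5,k16),(k9,k16),(k6,k17)],[(k0,k16),(k2,k16),(k3,k16),(k5,k16),(k9,k16),(k6,
    k17)],[(k9,k14),(k6,k15),(k0,k16),(k2,k16),(k3,k16),(k5,k16)],[(k1,k14),(k8,k14),(k7,k15),(k4,k16),(k10,k16),(k11,
    k16)],[(k7,k14),(k1,k15),(k4,k15),(k8,k15),(k10,k17),(k11,k17)],[(k6,k14),(k0,k15),(k5,k15),(k9,k15),(k2,k17),(k3,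
    k17)],[(k0,k14),(k5,k14),(k6,k15),(k2,k16),(k3,k16),(k9,k16)],[(k4,k14),(k7,k15),(k1,k16),(k8,k16),(k10,k16),(k11,
    k16)],[(k1,k16),(k4,k16),(k8,k16),(k10,k16),(k11,k16),(k7,k17)],[(k1,k16),(k4,k16),(k8,k16),(k10,k16),(k11,k16),
    (k7,k17)]]
    [[k1,k1,k1,k0,k0,k0],[k1,k0,k0,k0,k1,k1],[k0,k1,k1,k0,k1,k0],[k0,k0,k1,k0,k1,k1]]
    [.ref k0 k0 [(z1,[z1])],.ref k0 k1 [(z1,[z1])],.ref k1 k1 [(z1,[y1,z1])],.ref k1 k0 [(z1,[y1,z1])]]]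

theorem hB6_136_0 : blkB [0, 0, 1, 0, 1, 1] [] sp6 hS6_136 (pcls (n := 6) [0, 0, 1, 0, 1, 1]) hD6_136 3 0 hN6_136_0 = true := by
  decide +kernel

/-- equations of the nodes for the classes `0 1 0 1 0 1`, active pairs `` -/
noncomputable def hD6_151 : List (List (List Eqn)) :=
  [[[]]]

/-- symmetries -/
noncomputable def hS6_151 : List (Bool × ℕ × List ℕ) :=
  []

/-- nodes 0 to 0 -/
noncomputable def hN6_151_0 : List HM :=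
  [.lp k0 [k2,k2,k2,k2,k2,k2] [k0,k0,k0,k0,k0,k0,k0,k0,k0,k0,k0,k0] k0 [[k0,k0,k0,k0,k0,k0,k0,k0,k0,k0,k0,k0],[k0,k0,
    k0,k0,k0,k0,k0,k0,k0,k0,k0,k0],[k0,k0,k0,k0,k0,k0,k0,k0,k0,k0,k0,k0],[k0,k0,k0,k0,k0,k0,k0,k0,k0,k0,k0,k0],[k0,k0,
    k0,k0,k0,k0,k0,k0,k0,k0,k0,k0],[k0,k0,k0,k0,k0,k0,k0,k0,k0,k0,k0,k0],[k0,k0,k0,k0,k0,k0,k0,k0,k0,k0,k0,k0],[k0,k0,
    k0,k0,k0,k0,k0,k0,k0,k0,k0,k0],[k0,k0,k0,k0,k0,k0,k0,k0,k0,k0,k0,k0],[k0,k0,k0,k0,k0,k0,k0,k0,k0,k0,k0,k0],[k0,k0,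
    k0,k0,k0,k0,k0,k0,k0,k0,k0,k0],[k0,k0,k0,k0,k0,k0,k0,k0,k0,k0,k0,k0]] k8 k5
    [[(k1,k2),(k2,k2),(k5,k2),(k6,k2),(k9,k2),(k10,k2)],[(k0,k2),(k3,k2),(k4,k2),(k7,k2),(k8,k2),(k11,k2)],[(k0,k2),
    (k3,k2),(k4,k2),(k7,k2),(k8,k2),(k11,k2)],[(k1,k2),(k2,k2),(k5,k2),(k6,k2),(k9,k2),(k10,k2)],[(k1,k2),(k2,k2),(k5,
    k2),(k6,k2),(k9,k2),(k10,k2)],[(k0,k2),(k3,k2),(k4,k2),(k7,k2),(k8,k2),(k11,k2)],[(k0,k2),(k3,k2),(k4,k2),(k7,k2),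
    (k8,k2),(k11,k2)],[(k1,k2),(k2,k2),(k5,k2),(k6,k2),(k9,k2),(k10,k2)],[(k1,k2),(k2,k2),(k5,k2),(k6,k2),(k9,k2),
    (k10,k2)],[(k0,k2),(k3,k2),(k4,k2),(k7,k2),(k8,k2),(k11,k2)],[(k0,k2),(k3,k2),(k4,k2),(k7,k2),(k8,k2),(k11,k2)],
    [(k1,k2),(k2,k2),(k5,k2),(k6,k2),(k9,k2),(k10,k2)]]
    []
    []]

theorem hB6_151_0 : blkB [0, 1, 0, 1, 0, 1] [] sp6 hS6_151 (pcls (n := 6) [0, 1, 0, 1, 0, 1]) hD6_151 1 0 hN6_151_0 = true := by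
  decide +kernel

/-- equations of the nodes for the classes `0 1 0 1 0 1`, active pairs `0-3` -/
noncomputable def hD6_170 : List (List (List Eqn)) :=
  [[[([z0,z1,z1,z0,z0,z0],z1)],[]]]

/-- symmetries -/
noncomputable def hS6_170 : List (Bool × ℕ × List ℕ) :=
  [(false,k0,[k0,k1,k2,k3,k4,k5])]

/-- nodes 0 to 1 -/
noncomputable def hN6_170_0 : List HM :=
  [.base (.leafM k4 [k2,k4,k5,k1] [(z1,[y1,y1,z1])] [(k3,k0,z1,[z0,z1]),(k0,k3,z1,[z0,z1])]),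
    .lp k0 [(nat_lit 242),k154,k154,k154,k154,k154] [k0,k0,k44,k44,k44,k44,k44,k44,k68,k20,k22,k66] k0 [[k0,k0,k0,k0,
    k0,k0,k0,k0,k0,k0,k0,k0],[k0,k0,k0,k0,k0,k44,k0,k0,k0,k0,k0,k0],[k0,k0,k0,k0,k0,k0,k0,k0,k0,k0,k0,k0],[k0,k0,k0,
    k0,k0,k0,k0,k0,k0,k0,k0,k0],[k44,k0,k0,k0,k0,k0,k0,k0,k0,k0,k0,k0],[k0,k0,k0,k0,k0,k0,k0,k0,k0,k0,k0,k0],[k0,k0,
    k0,k0,k0,k0,k0,k0,k0,k0,k0,k0],[k0,k0,k0,k0,k0,k0,k0,k0,k0,k0,k0,k88],[k0,k0,k0,k0,k0,k0,k0,k0,k0,k0,k0,k0],[k0,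
    k0,k0,k0,k0,k0,k0,k0,k0,k0,k0,k0],[k0,k0,k0,k0,k0,k0,k88,k0,k0,k0,k0,k0],[k0,k0,k0,k0,k0,k0,k0,k0,k0,k0,k0,
    k0]] (nat_lit 528) k6
    [[(k2,k198),(k5,k198),(k10,(nat_lit 220)),(k9,(nat_lit 222)),(k1,(nat_lit 242)),(k6,(nat_lit 286))],[(k8,k174),
    (k11,k176),(k3,k198),(k4,k198),(k0,(nat_lit 242)),(k7,(nat_lit 242))],[(k4,k110),(k8,k130),(k11,k132),(k3,k154),
    (k7,k154),(k0,k198)],[(k2,k154),(k5,k154),(k6,k154),(k10,k176),(k9,k178),(k1,k198)],[(k2,k154),(k5,k154),(k6,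
    k154),(k10,k176),(k9,k178),(k1,k198)],[(k3,k110),(k8,k130),(k11,k132),(k4,k154),(k7,k154),(k0,k198)],[(k8,k130),
    (k11,k132),(k3,k154),(k4,k154),(k7,k154),(k0,(nat_lit 242))],[(k2,k154),(k5,k154),(k6,k154),(k10,k176),(k9,k178),
    (k1,(nat_lit 286))],[(k10,k112),(k2,k178),(k5,k178),(k6,k178),(k9,(nat_lit 202)),(k1,(nat_lit 222))],[(k8,k106),
    (k11,k108),(k3,k130),(k4,k130),(k7,k130),(k0,k174)],[(k8,k108),(k11,k110),(k3,k132),(k4,k132),(k7,k132),(k0,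
    k176)],[(k9,k112),(k2,k176),(k5,k176),(k6,k176),(k10,k198),(k1,(nat_lit 220))]]
    [[k0,k0,k0,k0,k2,k2]]
    [.ref k0 k0 [(z2,[y1,y2,z2])]]]

theorem hB6_170_0 : blkB [0, 1, 0, 1, 0, 1] [(0, 3)] sp6 hS6_170 (pcls (n := 6) [0, 1, 0, 1, 0, 1]) hD6_170 2 0 hN6_170_0 = true := by
  decide +kernel

end Pool.Agent.Lib_MP_fa6e45
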