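import Pool.Agent.Lib_MP_fa6e45.HK

/-!
MP_fa6e45_co, stage 4: certificates (captain, generated by a program).
-/

namespace Pool.Agent.Lib_MP_fa6e45

/-- equations of the nodes for the classes `0 1 0 2 3 4`, active pairs `1-2` -/
noncomputable def hD6_3 : List (List (List Eqn)) :=
  [[[]]]

/-- symmetries -/
noncomputable def hS6_3 : List (Bool × ℕ × List ℕ) :=
  []

/-- nodes 0 to 0 -/
noncomputable def hN6_3_0 : List HM :=
  [.base (.leafM k0 [k0,k3,k4,k5] [] [(k1,k2,z1,[z1]),(k2,k1,z1,[z1])])]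

theorem hB6_3_0 : blkB [0, 1, 0, 2, 3, 4] [(1, 2)] sp6 hS6_3 (pcls (n := 6) [0, 1, 0, 2, 3, 4]) hD6_3 1 0 hN6_3_0 = true := by
  decide +kernel

/-- equations of the nodes for the classes `0 0 0 1 2 3`, active pairs `1-2` -/
noncomputable def hD6_6 : List (List (List Eqn)) :=
  [[[]]]

/-- symmetries -/
noncomputable def hS6_6 : List (Bool × ℕ × List ℕ) :=
  []

/-- nodes 0 to 0 -/
noncomputable def hN6_6_0 : List HM :=
  [.base (.leafM k0 [k0,k3,k4,k5] [] [(k1,k2,z1,[z1]),(k2,k1,z1,[z1])])]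

theorem hB6_6_0 : blkB [0, 0, 0, 1, 2, 3] [(1, 2)] sp6 hS6_6 (pcls (n := 6) [0, 0, 0, 1, 2, 3]) hD6_6 1 0 hN6_6_0 = true := by
  decide +kernel

/-- equations of the nodes for the classes `0 0 1 0 2 3`, active pairs `2-3` -/
noncomputable def hD6_8 : List (List (List Eqn)) :=
  [[[]]]

/-- symmetries -/
noncomputable def hS6_8 : List (Bool × ℕ × List ℕ) :=
  []

/-- nodes 0 to 0 -/
noncomputable def hN6_8_0 : List HM :=
  [.base (.leafM k0 [k0,k1,k4,k5] [] [(k2,k3,z1,[z1]),(k3,k2,z1,[z1])])]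

theorem hB6_8_0 : blkB [0, 0, 1, 0, 2, 3] [(2, 3)] sp6 hS6_8 (pcls (n := 6) [0, 0, 1, 0, 2, 3]) hD6_8 1 0 hN6_8_0 = true := by
  decide +kernel

/-- equations of the nodes for the classes `0 0 1 2 1 3`, active pairs `3-4` -/
noncomputable def hD6_11 : List (List (List Eqn)) :=
  [[[]]]

/-- symmetries -/
noncomputable def hS6_11 : List (Bool × ℕ × List ℕ) :=
  []

/-- nodes 0 to 0 -/
noncomputable def hN6_11_0 : List HM :=
  [.base (.leafM k0 [k0,k1,k2,k5] [] [(k3,k4,z1,[z1]),(k4,k3,z1,[z1])])]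

theorem hB6_11_0 : blkB [0, 0, 1, 2, 1, 3] [(3, 4)] sp6 hS6_11 (pcls (n := 6) [0, 0, 1, 2, 1, 3]) hD6_11 1 0 hN6_11_0 = true := by
  decide +kernel

/-- equations of the nodes for the classes `0 1 0 1 2 3`, active pairs `1-2` -/
noncomputable def hD6_16 : List (List (List Eqn)) :=
  [[[]]]

/-- symmetries -/
noncomputable def hS6_16 : List (Bool × ℕ × List ℕ) :=
  []

/-- nodes 0 to 0 -/
noncomputable def hN6_16_0 : List HM :=
  [.base (.leafM k0 [k0,k3,k4,k5] [] [(k1,k2,z1,[z1]),(k2,k1,z1,[z1])])]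

theorem hB6_16_0 : blkB [0, 1, 0, 1, 2, 3] [(1, 2)] sp6 hS6_16 (pcls (n := 6) [0, 1, 0, 1, 2, 3]) hD6_16 1 0 hN6_16_0 = true := by
  decide +kernel

/-- equations of the nodes for the classes `0 1 0 1 2 3`, active pairs `1-2 1-3` -/
noncomputable def hD6_17 : List (List (List Eqn)) :=
  [[[]]]

/-- symmetries -/
noncomputable def hS6_17 : List (Bool × ℕ × List ℕ) :=
  []

/-- nodes 0 to 0 -/
noncomputable def hN6_17_0 : List HM :=
  [.base (.leafM k0 [k0,k3,k4,k5] [] [(k1,k2,z1,[z1]),(k2,k1,z1,[z1])])]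

theorem hB6_17_0 : blkB [0, 1, 0, 1, 2, 3] [(1, 2), (1, 3)] sp6 hS6_17 (pcls (n := 6) [0, 1, 0, 1, 2, 3]) hD6_17 1 0 hN6_17_0 = true := by
  decide +kernel

/-- equations of the nodes for the classes `0 1 0 1 2 3`, active pairs `1-2 2-3` -/
noncomputable def hD6_18 : List (List (List Eqn)) :=
  [[[]]]

/-- symmetries -/
noncomputable def hS6_18 : List (Bool × ℕ × List ℕ) :=
  []

/-- nodes 0 to 0 -/
noncomputable def hN6_18_0 : List HM :=
  [.base (.leafM k0 [k0,k3,k4,k5] [] [(k1,k2,z1,[z1]),(k2,k1,z1,[z1])])]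

theorem hB6_18_0 : blkB [0, 1, 0, 1, 2, 3] [(1, 2), (2, 3)] sp6 hS6_18 (pcls (n := 6) [0, 1, 0, 1, 2, 3]) hD6_18 1 0 hN6_18_0 = true := by
  decide +kernel

/-- equations of the nodes for the classes `0 1 0 1 2 3`, active pairs `1-3` -/
noncomputable def hD6_19 : List (List (List Eqn)) :=
  [[[]]]

/-- symmetries -/
noncomputable def hS6_19 : List (Bool × ℕ × List ℕ) :=
  []

/-- nodes 0 to 0 -/
noncomputable def hN6_19_0 : List HM :=
  [.base (.leafM k1 [k4,k5,k0,k2] [] [(k1,k3,z1,[z1]),(k3,k1,z1,[z1])])]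

theorem hB6_19_0 : blkB [0, 1, 0, 1, 2, 3] [(1, 3)] sp6 hS6_19 (pcls (n := 6) [0, 1, 0, 1, 2, 3]) hD6_19 1 0 hN6_19_0 = true := by
  decide +kernel

/-- equations of the nodes for the classes `0 1 0 2 0 3`, active pairs `0-5` -/
noncomputable def hD6_21 : List (List (List Eqn)) :=
  [[[]]]

/-- symmetries -/
noncomputable def hS6_21 : List (Bool × ℕ × List ℕ) :=
  []

/-- nodes 0 to 0 -/
noncomputable def hN6_21_0 : List HM :=
  [.base (.leafM k0 [k1,k2,k3,k4] [] [(k5,k0,z1,[z1]),(k0,k5,z1,[z1])])]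

theorem hB6_21_0 : blkB [0, 1, 0, 2, 0, 3] [(0, 5)] sp6 hS6_21 (pcls (n := 6) [0, 1, 0, 2, 0, 3]) hD6_21 1 0 hN6_21_0 = true := by
  decide +kernel

/-- equations of the nodes for the classes `0 1 0 2 1 3`, active pairs `1-2` -/
noncomputable def hD6_23 : List (List (List Eqn)) :=
  [[[]]]

/-- symmetries -/
noncomputable def hS6_23 : List (Bool × ℕ × List ℕ) :=
  []

/-- nodes 0 to 0 -/
noncomputable def hN6_23_0 : List HM :=
  [.base (.leafM k0 [k0,k3,k4,k5] [] [(k1,k2,z1,[z1]),(k2,k1,z1,[z1])])]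

theorem hB6_23_0 : blkB [0, 1, 0, 2, 1, 3] [(1, 2)] sp6 hS6_23 (pcls (n := 6) [0, 1, 0, 2, 1, 3]) hD6_23 1 0 hN6_23_0 = true := by
  decide +kernel

/-- equations of the nodes for the classes `0 1 0 2 3 2`, active pairs `1-2` -/
noncomputable def hD6_26 : List (List (List Eqn)) :=
  [[[]]]

/-- symmetries -/
noncomputable def hS6_26 : List (Bool × ℕ × List ℕ) :=
  []

/-- nodes 0 to 0 -/
noncomputable def hN6_26_0 : List HM :=
  [.base (.leafM k0 [k0,k3,k4,k5] [] [(k1,k2,z1,[z1]),(k2,k1,z1,[z1])])]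

theorem hB6_26_0 : blkB [0, 1, 0, 2, 3, 2] [(1, 2)] sp6 hS6_26 (pcls (n := 6) [0, 1, 0, 2, 3, 2]) hD6_26 1 0 hN6_26_0 = true := by
  decide +kernel

/-- equations of the nodes for the classes `0 1 2 0 1 3`, active pairs `1-4` -/
noncomputable def hD6_28 : List (List (List Eqn)) :=
  [[[]]]

/-- symmetries -/
noncomputable def hS6_28 : List (Bool × ℕ × List ℕ) :=
  []

/-- nodes 0 to 0 -/
noncomputable def hN6_28_0 : List HM :=
  [.base (.leafM k2 [k2,k3,k5,k0] [] [(k4,k1,z1,[z1]),(k1,k4,z1,[z1])])]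

theorem hB6_28_0 : blkB [0, 1, 2, 0, 1, 3] [(1, 4)] sp6 hS6_28 (pcls (n := 6) [0, 1, 2, 0, 1, 3]) hD6_28 1 0 hN6_28_0 = true := by
  decide +kernel

/-- equations of the nodes for the classes `0 0 0 0 1 2`, active pairs `1-2` -/
noncomputable def hD6_30 : List (List (List Eqn)) :=
  [[[]]]

/-- symmetries -/
noncomputable def hS6_30 : List (Bool × ℕ × List ℕ) :=
  []

/-- nodes 0 to 0 -/
noncomputable def hN6_30_0 : List HM :=
  [.base (.leafM k0 [k0,k3,k4,k5] [] [(k1,k2,z1,[z1]),(k2,k1,z1,[z1])])]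

theorem hB6_30_0 : blkB [0, 0, 0, 0, 1, 2] [(1, 2)] sp6 hS6_30 (pcls (n := 6) [0, 0, 0, 0, 1, 2]) hD6_30 1 0 hN6_30_0 = true := by
  decide +kernel

/-- equations of the nodes for the classes `0 0 0 0 1 2`, active pairs `1-2 1-3` -/
noncomputable def hD6_31 : List (List (List Eqn)) :=
  [[[]]]

/-- symmetries -/
noncomputable def hS6_31 : List (Bool × ℕ × List ℕ) :=
  []

/-- nodes 0 to 0 -/
noncomputable def hN6_31_0 : List HM :=
  [.base (.leafM k0 [k0,k3,k4,k5] [] [(k1,k2,z1,[z1]),(k2,k1,z1,[z1])])]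

theorem hB6_31_0 : blkB [0, 0, 0, 0, 1, 2] [(1, 2), (1, 3)] sp6 hS6_31 (pcls (n := 6) [0, 0, 0, 0, 1, 2]) hD6_31 1 0 hN6_31_0 = true := by
  decide +kernel

/-- equations of the nodes for the classes `0 0 0 0 1 2`, active pairs `1-2 2-3` -/
noncomputable def hD6_32 : List (List (List Eqn)) :=
  [[[]]]

/-- symmetries -/
noncomputable def hS6_32 : List (Bool × ℕ × List ℕ) :=
  []

/-- nodes 0 to 0 -/
noncomputable def hN6_32_0 : List HM :=
  [.base (.leafM k0 [k0,k3,k4,k5] [] [(k1,k2,z1,[z1]),(k2,k1,z1,[z1])])]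

theorem hB6_32_0 : blkB [0, 0, 0, 0, 1, 2] [(1, 2), (2, 3)] sp6 hS6_32 (pcls (n := 6) [0, 0, 0, 0, 1, 2]) hD6_32 1 0 hN6_32_0 = true := by
  decide +kernel

/-- equations of the nodes for the classes `0 0 0 0 1 2`, active pairs `1-3` -/
noncomputable def hD6_33 : List (List (List Eqn)) :=
  [[[]]]

/-- symmetries -/
noncomputable def hS6_33 : List (Bool × ℕ × List ℕ) :=
  []

/-- nodes 0 to 0 -/
noncomputable def hN6_33_0 : List HM :=
  [.base (.leafM k1 [k4,k5,k0,k2] [] [(k1,k3,z1,[z1]),(k3,k1,z1,[z1])])]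

theorem hB6_33_0 : blkB [0, 0, 0, 0, 1, 2] [(1, 3)] sp6 hS6_33 (pcls (n := 6) [0, 0, 0, 0, 1, 2]) hD6_33 1 0 hN6_33_0 = true := by
  decide +kernel

/-- equations of the nodes for the classes `0 0 0 1 0 2`, active pairs `0-5` -/
noncomputable def hD6_35 : List (List (List Eqn)) :=
  [[[]]]

/-- symmetries -/
noncomputable def hS6_35 : List (Bool × ℕ × List ℕ) :=
  []

/-- nodes 0 to 0 -/
noncomputable def hN6_35_0 : List HM :=
  [.base (.leafM k0 [k1,k2,k3,k4] [] [(k5,k0,z1,[z1]),(k0,k5,z1,[z1])])]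

theorem hB6_35_0 : blkB [0, 0, 0, 1, 0, 2] [(0, 5)] sp6 hS6_35 (pcls (n := 6) [0, 0, 0, 1, 0, 2]) hD6_35 1 0 hN6_35_0 = true := by
  decide +kernel

/-- equations of the nodes for the classes `0 0 0 1 0 2`, active pairs `1-2` -/
noncomputable def hD6_36 : List (List (List Eqn)) :=
  [[[]]]

/-- symmetries -/
noncomputable def hS6_36 : List (Bool × ℕ × List ℕ) :=
  []

/-- nodes 0 to 0 -/
noncomputable def hN6_36_0 : List HM :=
  [.base (.leafM k0 [k0,k3,k4,k5] [] [(k1,k2,z1,[z1]),(k2,k1,z1,[z1])])]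

theorem hB6_36_0 : blkB [0, 0, 0, 1, 0, 2] [(1, 2)] sp6 hS6_36 (pcls (n := 6) [0, 0, 0, 1, 0, 2]) hD6_36 1 0 hN6_36_0 = true := by
  decide +kernel

/-- equations of the nodes for the classes `0 0 0 1 1 2`, active pairs `1-2` -/
noncomputable def hD6_38 : List (List (List Eqn)) :=
  [[[]]]

/-- symmetries -/
noncomputable def hS6_38 : List (Bool × ℕ × List ℕ) :=
  []

/-- nodes 0 to 0 -/
noncomputable def hN6_38_0 : List HM :=
  [.base (.leafM k0 [k0,k3,k4,k5] [] [(k1,k2,z1,[z1]),(k2,k1,z1,[z1])])]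

theorem hB6_38_0 : blkB [0, 0, 0, 1, 1, 2] [(1, 2)] sp6 hS6_38 (pcls (n := 6) [0, 0, 0, 1, 1, 2]) hD6_38 1 0 hN6_38_0 = true := by
  decide +kernel

/-- equations of the nodes for the classes `0 0 0 1 2 1`, active pairs `1-2` -/
noncomputable def hD6_41 : List (List (List Eqn)) :=
  [[[]]]

/-- symmetries -/
noncomputable def hS6_41 : List (Bool × ℕ × List ℕ) :=
  []

/-- nodes 0 to 0 -/
noncomputable def hN6_41_0 : List HM :=
  [.base (.leafM k0 [k0,k3,k4,k5] [] [(k1,k2,z1,[z1]),(k2,k1,z1,[z1])])]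

theorem hB6_41_0 : blkB [0, 0, 0, 1, 2, 1] [(1, 2)] sp6 hS6_41 (pcls (n := 6) [0, 0, 0, 1, 2, 1]) hD6_41 1 0 hN6_41_0 = true := by
  decide +kernel

/-- equations of the nodes for the classes `0 0 0 1 2 1`, active pairs `4-5` -/
noncomputable def hD6_42 : List (List (List Eqn)) :=
  [[[]]]

/-- symmetries -/
noncomputable def hS6_42 : List (Bool × ℕ × List ℕ) :=
  []

/-- nodes 0 to 0 -/
noncomputable def hN6_42_0 : List HM :=
  [.base (.leafM k0 [k0,k1,k2,k3] [] [(k4,k5,z1,[z1]),(k5,k4,z1,[z1])])]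

theorem hB6_42_0 : blkB [0, 0, 0, 1, 2, 1] [(4, 5)] sp6 hS6_42 (pcls (n := 6) [0, 0, 0, 1, 2, 1]) hD6_42 1 0 hN6_42_0 = true := by
  decide +kernel

/-- equations of the nodes for the classes `0 0 1 0 0 2`, active pairs `0-5` -/
noncomputable def hD6_44 : List (List (List Eqn)) :=
  [[[]]]

/-- symmetries -/
noncomputable def hS6_44 : List (Bool × ℕ × List ℕ) :=
  []

/-- nodes 0 to 0 -/
noncomputable def hN6_44_0 : List HM :=
  [.base (.leafM k0 [k1,k2,k3,k4] [] [(k5,k0,z1,[z1]),(k0,k5,z1,[z1])])]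

theorem hB6_44_0 : blkB [0, 0, 1, 0, 0, 2] [(0, 5)] sp6 hS6_44 (pcls (n := 6) [0, 0, 1, 0, 0, 2]) hD6_44 1 0 hN6_44_0 = true := by
  decide +kernel

/-- equations of the nodes for the classes `0 0 1 0 0 2`, active pairs `1-4` -/
noncomputable def hD6_45 : List (List (List Eqn)) :=
  [[[]]]

/-- symmetries -/
noncomputable def hS6_45 : List (Bool × ℕ × List ℕ) :=
  []

/-- nodes 0 to 0 -/
noncomputable def hN6_45_0 : List HM :=
  [.base (.leafM k2 [k2,k3,k5,k0] [] [(k4,k1,z1,[z1]),(k1,k4,z1,[z1])])]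

theorem hB6_45_0 : blkB [0, 0, 1, 0, 0, 2] [(1, 4)] sp6 hS6_45 (pcls (n := 6) [0, 0, 1, 0, 0, 2]) hD6_45 1 0 hN6_45_0 = true := by
  decide +kernel

/-- equations of the nodes for the classes `0 0 1 0 1 2`, active pairs `2-3` -/
noncomputable def hD6_47 : List (List (List Eqn)) :=
  [[[]]]

/-- symmetries -/
noncomputable def hS6_47 : List (Bool × ℕ × List ℕ) :=
  []

/-- nodes 0 to 0 -/
noncomputable def hN6_47_0 : List HM :=
  [.base (.leafM k0 [k0,k1,k4,k5] [] [(k2,k3,z1,[z1]),(k3,k2,z1,[z1])])]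

theorem hB6_47_0 : blkB [0, 0, 1, 0, 1, 2] [(2, 3)] sp6 hS6_47 (pcls (n := 6) [0, 0, 1, 0, 1, 2]) hD6_47 1 0 hN6_47_0 = true := by
  decide +kernel

/-- equations of the nodes for the classes `0 0 1 0 1 2`, active pairs `2-3 2-4` -/
noncomputable def hD6_48 : List (List (List Eqn)) :=
  [[[]]]

/-- symmetries -/
noncomputable def hS6_48 : List (Bool × ℕ × List ℕ) :=
  []

/-- nodes 0 to 0 -/
noncomputable def hN6_48_0 : List HM :=
  [.base (.leafM k0 [k0,k1,k4,k5] [] [(k2,k3,z1,[z1]),(k3,k2,z1,[z1])])]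

theorem hB6_48_0 : blkB [0, 0, 1, 0, 1, 2] [(2, 3), (2, 4)] sp6 hS6_48 (pcls (n := 6) [0, 0, 1, 0, 1, 2]) hD6_48 1 0 hN6_48_0 = true := by
  decide +kernel

/-- equations of the nodes for the classes `0 0 1 0 1 2`, active pairs `2-3 3-4` -/
noncomputable def hD6_49 : List (List (List Eqn)) :=
  [[[]]]

/-- symmetries -/
noncomputable def hS6_49 : List (Bool × ℕ × List ℕ) :=
  []

/-- nodes 0 to 0 -/
noncomputable def hN6_49_0 : List HM :=
  [.base (.leafM k0 [k0,k1,k4,k5] [] [(k2,k3,z1,[z1]),(k3,k2,z1,[z1])])]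

theorem hB6_49_0 : blkB [0, 0, 1, 0, 1, 2] [(2, 3), (3, 4)] sp6 hS6_49 (pcls (n := 6) [0, 0, 1, 0, 1, 2]) hD6_49 1 0 hN6_49_0 = true := by
  decide +kernel

/-- equations of the nodes for the classes `0 0 1 0 1 2`, active pairs `2-4` -/
noncomputable def hD6_50 : List (List (List Eqn)) :=
  [[[]]]

/-- symmetries -/
noncomputable def hS6_50 : List (Bool × ℕ × List ℕ) :=
  []

/-- nodes 0 to 0 -/
noncomputable def hN6_50_0 : List HM :=
  [.base (.leafM k1 [k5,k0,k1,k3] [] [(k2,k4,z1,[z1]),(k4,k2,z1,[z1])])]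

theorem hB6_50_0 : blkB [0, 0, 1, 0, 1, 2] [(2, 4)] sp6 hS6_50 (pcls (n := 6) [0, 0, 1, 0, 1, 2]) hD6_50 1 0 hN6_50_0 = true := by
  decide +kernel

/-- equations of the nodes for the classes `0 0 1 0 1 2`, active pairs `2-4 3-4` -/
noncomputable def hD6_51 : List (List (List Eqn)) :=
  [[[]]]

/-- symmetries -/
noncomputable def hS6_51 : List (Bool × ℕ × List ℕ) :=
  []

/-- nodes 0 to 0 -/
noncomputable def hN6_51_0 : List HM :=
  [.base (.leafM k1 [k5,k0,k1,k3] [] [(k2,k4,z1,[z1]),(k4,k2,z1,[z1])])]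

theorem hB6_51_0 : blkB [0, 0, 1, 0, 1, 2] [(2, 4), (3, 4)] sp6 hS6_51 (pcls (n := 6) [0, 0, 1, 0, 1, 2]) hD6_51 1 0 hN6_51_0 = true := by
  decide +kernel

/-- equations of the nodes for the classes `0 0 1 0 1 2`, active pairs `3-4` -/
noncomputable def hD6_52 : List (List (List Eqn)) :=
  [[[]]]

/-- symmetries -/
noncomputable def hS6_52 : List (Bool × ℕ × List ℕ) :=
  []

/-- nodes 0 to 0 -/
noncomputable def hN6_52_0 : List HM :=
  [.base (.leafM k0 [k0,k1,k2,k5] [] [(k3,k4,z1,[z1]),(k4,k3,z1,[z1])])]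

theorem hB6_52_0 : blkB [0, 0, 1, 0, 1, 2] [(3, 4)] sp6 hS6_52 (pcls (n := 6) [0, 0, 1, 0, 1, 2]) hD6_52 1 0 hN6_52_0 = true := by
  decide +kernel

/-- equations of the nodes for the classes `0 0 1 0 2 1`, active pairs `0-2 0-3` -/
noncomputable def hD6_55 : List (List (List Eqn)) :=
  [[[]]]

/-- symmetries -/
noncomputable def hS6_55 : List (Bool × ℕ × List ℕ) :=
  []

/-- nodes 0 to 0 -/
noncomputable def hN6_55_0 : List HM :=
  [.base (.leafM k2 [k1,k2,k4,k5] [] [(k3,k0,z1,[z0,z1]),(k0,k3,z1,[z0,z1])])]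

theorem hB6_55_0 : blkB [0, 0, 1, 0, 2, 1] [(0, 2), (0, 3)] sp6 hS6_55 (pcls (n := 6) [0, 0, 1, 0, 2, 1]) hD6_55 1 0 hN6_55_0 = true := by
  decide +kernel

/-- equations of the nodes for the classes `0 0 1 0 2 1`, active pairs `0-2 2-3` -/
noncomputable def hD6_56 : List (List (List Eqn)) :=
  [[[]]]

/-- symmetries -/
noncomputable def hS6_56 : List (Bool × ℕ × List ℕ) :=
  []

/-- nodes 0 to 0 -/
noncomputable def hN6_56_0 : List HM :=
  [.base (.leafM k0 [k0,k1,k4,k5] [] [(k2,k3,z1,[z0,z1]),(k3,k2,z1,[z0,z1])])]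

theorem hB6_56_0 : blkB [0, 0, 1, 0, 2, 1] [(0, 2), (2, 3)] sp6 hS6_56 (pcls (n := 6) [0, 0, 1, 0, 2, 1]) hD6_56 1 0 hN6_56_0 = true := by
  decide +kernel

/-- equations of the nodes for the classes `0 0 1 0 2 1`, active pairs `0-3` -/
noncomputable def hD6_57 : List (List (List Eqn)) :=
  [[[]]]

/-- symmetries -/
noncomputable def hS6_57 : List (Bool × ℕ × List ℕ) :=
  []

/-- nodes 0 to 0 -/
noncomputable def hN6_57_0 : List HM :=
  [.base (.leafM k2 [k1,k2,k4,k5] [] [(k3,k0,z1,[z1]),(k0,k3,z1,[z1])])]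

theorem hB6_57_0 : blkB [0, 0, 1, 0, 2, 1] [(0, 3)] sp6 hS6_57 (pcls (n := 6) [0, 0, 1, 0, 2, 1]) hD6_57 1 0 hN6_57_0 = true := by
  decide +kernel

/-- equations of the nodes for the classes `0 0 1 0 2 1`, active pairs `0-3 2-3` -/
noncomputable def hD6_58 : List (List (List Eqn)) :=
  [[[]]]

/-- symmetries -/
noncomputable def hS6_58 : List (Bool × ℕ × List ℕ) :=
  []

/-- nodes 0 to 0 -/
noncomputable def hN6_58_0 : List HM :=
  [.base (.leafM k2 [k1,k2,k4,k5] [] [(k3,k0,z1,[z1]),(k0,k3,z1,[z1])])]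

theorem hB6_58_0 : blkB [0, 0, 1, 0, 2, 1] [(0, 3), (2, 3)] sp6 hS6_58 (pcls (n := 6) [0, 0, 1, 0, 2, 1]) hD6_58 1 0 hN6_58_0 = true := by
  decide +kernel

/-- equations of the nodes for the classes `0 0 1 0 2 1`, active pairs `2-3` -/
noncomputable def hD6_59 : List (List (List Eqn)) :=
  [[[]]]

/-- symmetries -/
noncomputable def hS6_59 : List (Bool × ℕ × List ℕ) :=
  []

/-- nodes 0 to 0 -/
noncomputable def hN6_59_0 : List HM :=
  [.base (.leafM k0 [k0,k1,k4,k5] [] [(k2,k3,z1,[z1]),(k3,k2,z1,[z1])])]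

theorem hB6_59_0 : blkB [0, 0, 1, 0, 2, 1] [(2, 3)] sp6 hS6_59 (pcls (n := 6) [0, 0, 1, 0, 2, 1]) hD6_59 1 0 hN6_59_0 = true := by
  decide +kernel

/-- equations of the nodes for the classes `0 0 1 0 2 2`, active pairs `2-3` -/
noncomputable def hD6_62 : List (List (List Eqn)) :=
  [[[]]]

/-- symmetries -/
noncomputable def hS6_62 : List (Bool × ℕ × List ℕ) :=
  []

/-- nodes 0 to 0 -/
noncomputable def hN6_62_0 : List HM :=
  [.base (.leafM k0 [k0,k1,k4,k5] [] [(k2,k3,z1,[z1]),(k3,k2,z1,[z1])])]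

theorem hB6_62_0 : blkB [0, 0, 1, 0, 2, 2] [(2, 3)] sp6 hS6_62 (pcls (n := 6) [0, 0, 1, 0, 2, 2]) hD6_62 1 0 hN6_62_0 = true := by
  decide +kernel

/-- equations of the nodes for the classes `0 0 1 2 1 2`, active pairs `3-4` -/
noncomputable def hD6_65 : List (List (List Eqn)) :=
  [[[]]]

/-- symmetries -/
noncomputable def hS6_65 : List (Bool × ℕ × List ℕ) :=
  []

/-- nodes 0 to 0 -/
noncomputable def hN6_65_0 : List HM :=
  [.base (.leafM k0 [k0,k1,k2,k5] [] [(k3,k4,z1,[z1]),(k4,k3,z1,[z1])])]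

theorem hB6_65_0 : blkB [0, 0, 1, 2, 1, 2] [(3, 4)] sp6 hS6_65 (pcls (n := 6) [0, 0, 1, 2, 1, 2]) hD6_65 1 0 hN6_65_0 = true := by
  decide +kernel

/-- equations of the nodes for the classes `0 0 1 2 1 2`, active pairs `3-4 3-5` -/
noncomputable def hD6_66 : List (List (List Eqn)) :=
  [[[]]]

/-- symmetries -/
noncomputable def hS6_66 : List (Bool × ℕ × List ℕ) :=
  []

/-- nodes 0 to 0 -/
noncomputable def hN6_66_0 : List HM :=
  [.base (.leafM k0 [k0,k1,k2,k5] [] [(k3,k4,z1,[z1]),(k4,k3,z1,[z1])])]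

theorem hB6_66_0 : blkB [0, 0, 1, 2, 1, 2] [(3, 4), (3, 5)] sp6 hS6_66 (pcls (n := 6) [0, 0, 1, 2, 1, 2]) hD6_66 1 0 hN6_66_0 = true := by
  decide +kernel

/-- equations of the nodes for the classes `0 0 1 2 1 2`, active pairs `3-4 4-5` -/
noncomputable def hD6_67 : List (List (List Eqn)) :=
  [[[]]]

/-- symmetries -/
noncomputable def hS6_67 : List (Bool × ℕ × List ℕ) :=
  []

/-- nodes 0 to 0 -/
noncomputable def hN6_67_0 : List HM :=
  [.base (.leafM k0 [k0,k1,k2,k5] [] [(k3,k4,z1,[z1]),(k4,k3,z1,[z1])])]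

theorem hB6_67_0 : blkB [0, 0, 1, 2, 1, 2] [(3, 4), (4, 5)] sp6 hS6_67 (pcls (n := 6) [0, 0, 1, 2, 1, 2]) hD6_67 1 0 hN6_67_0 = true := by
  decide +kernel

/-- equations of the nodes for the classes `0 0 1 2 1 2`, active pairs `3-5` -/
noncomputable def hD6_68 : List (List (List Eqn)) :=
  [[[]]]

/-- symmetries -/
noncomputable def hS6_68 : List (Bool × ℕ × List ℕ) :=
  []

/-- nodes 0 to 0 -/
noncomputable def hN6_68_0 : List HM :=
  [.base (.leafM k1 [k0,k1,k2,k4] [] [(k3,k5,z1,[z1]),(k5,k3,z1,[z1])])]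

theorem hB6_68_0 : blkB [0, 0, 1, 2, 1, 2] [(3, 5)] sp6 hS6_68 (pcls (n := 6) [0, 0, 1, 2, 1, 2]) hD6_68 1 0 hN6_68_0 = true := by
  decide +kernel

/-- equations of the nodes for the classes `0 1 0 1 0 2`, active pairs `0-5` -/
noncomputable def hD6_72 : List (List (List Eqn)) :=
  [[[]]]

/-- symmetries -/
noncomputable def hS6_72 : List (Bool × ℕ × List ℕ) :=
  []

/-- nodes 0 to 0 -/
noncomputable def hN6_72_0 : List HM :=
  [.base (.leafM k0 [k1,k2,k3,k4] [] [(k5,k0,z1,[z1]),(k0,k5,z1,[z1])])]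

theorem hB6_72_0 : blkB [0, 1, 0, 1, 0, 2] [(0, 5)] sp6 hS6_72 (pcls (n := 6) [0, 1, 0, 1, 0, 2]) hD6_72 1 0 hN6_72_0 = true := by
  decide +kernel

/-- equations of the nodes for the classes `0 1 0 1 0 2`, active pairs `1-2` -/
noncomputable def hD6_73 : List (List (List Eqn)) :=
  [[[]]]

/-- symmetries -/
noncomputable def hS6_73 : List (Bool × ℕ × List ℕ) :=
  []

/-- nodes 0 to 0 -/
noncomputable def hN6_73_0 : List HM :=
  [.base (.leafM k0 [k0,k3,k4,k5] [] [(k1,k2,z1,[z1]),(k2,k1,z1,[z1])])]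

theorem hB6_73_0 : blkB [0, 1, 0, 1, 0, 2] [(1, 2)] sp6 hS6_73 (pcls (n := 6) [0, 1, 0, 1, 0, 2]) hD6_73 1 0 hN6_73_0 = true := by
  decide +kernel

/-- equations of the nodes for the classes `0 1 0 1 0 2`, active pairs `1-2 1-3` -/
noncomputable def hD6_74 : List (List (List Eqn)) :=
  [[[]]]

/-- symmetries -/
noncomputable def hS6_74 : List (Bool × ℕ × List ℕ) :=
  []

/-- nodes 0 to 0 -/
noncomputable def hN6_74_0 : List HM :=
  [.base (.leafM k0 [k0,k3,k4,k5] [] [(k1,k2,z1,[z1]),(k2,k1,z1,[z1])])]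

theorem hB6_74_0 : blkB [0, 1, 0, 1, 0, 2] [(1, 2), (1, 3)] sp6 hS6_74 (pcls (n := 6) [0, 1, 0, 1, 0, 2]) hD6_74 1 0 hN6_74_0 = true := by
  decide +kernel

/-- equations of the nodes for the classes `0 1 0 1 0 2`, active pairs `1-2 1-3 1-4` -/
noncomputable def hD6_75 : List (List (List Eqn)) :=
  [[[]]]

/-- symmetries -/
noncomputable def hS6_75 : List (Bool × ℕ × List ℕ) :=
  []

/-- nodes 0 to 0 -/
noncomputable def hN6_75_0 : List HM :=
  [.base (.leafM k0 [k0,k3,k4,k5] [] [(k1,k2,z1,[z1]),(k2,k1,z1,[z1])])]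

theorem hB6_75_0 : blkB [0, 1, 0, 1, 0, 2] [(1, 2), (1, 3), (1, 4)] sp6 hS6_75 (pcls (n := 6) [0, 1, 0, 1, 0, 2]) hD6_75 1 0 hN6_75_0 = true := by
  decide +kernel

/-- equations of the nodes for the classes `0 1 0 1 0 2`, active pairs `1-2 1-4` -/
noncomputable def hD6_76 : List (List (List Eqn)) :=
  [[[]]]

/-- symmetries -/
noncomputable def hS6_76 : List (Bool × ℕ × List ℕ) :=
  []

/-- nodes 0 to 0 -/
noncomputable def hN6_76_0 : List HM :=
  [.base (.leafM k0 [k0,k3,k4,k5] [] [(k1,k2,z1,[z1]),(k2,k1,z1,[z1])])]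

theorem hB6_76_0 : blkB [0, 1, 0, 1, 0, 2] [(1, 2), (1, 4)] sp6 hS6_76 (pcls (n := 6) [0, 1, 0, 1, 0, 2]) hD6_76 1 0 hN6_76_0 = true := by
  decide +kernel

/-- equations of the nodes for the classes `0 1 0 1 0 2`, active pairs `1-2 2-3` -/
noncomputable def hD6_77 : List (List (List Eqn)) :=
  [[[]]]

/-- symmetries -/
noncomputable def hS6_77 : List (Bool × ℕ × List ℕ) :=
  []

/-- nodes 0 to 0 -/
noncomputable def hN6_77_0 : List HM :=
  [.base (.leafM k0 [k0,k3,k4,k5] [] [(k1,k2,z1,[z1]),(k2,k1,z1,[z1])])]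

theorem hB6_77_0 : blkB [0, 1, 0, 1, 0, 2] [(1, 2), (2, 3)] sp6 hS6_77 (pcls (n := 6) [0, 1, 0, 1, 0, 2]) hD6_77 1 0 hN6_77_0 = true := by
  decide +kernel

/-- equations of the nodes for the classes `0 1 0 1 0 2`, active pairs `1-2 2-3 2-4` -/
noncomputable def hD6_78 : List (List (List Eqn)) :=
  [[[]]]

/-- symmetries -/
noncomputable def hS6_78 : List (Bool × ℕ × List ℕ) :=
  []

/-- nodes 0 to 0 -/
noncomputable def hN6_78_0 : List HM :=
  [.base (.leafM k0 [k0,k3,k4,k5] [] [(k1,k2,z1,[z1]),(k2,k1,z1,[z1])])]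

theorem hB6_78_0 : blkB [0, 1, 0, 1, 0, 2] [(1, 2), (2, 3), (2, 4)] sp6 hS6_78 (pcls (n := 6) [0, 1, 0, 1, 0, 2]) hD6_78 1 0 hN6_78_0 = true := by
  decide +kernel

/-- equations of the nodes for the classes `0 1 0 1 0 2`, active pairs `1-2 2-4` -/
noncomputable def hD6_79 : List (List (List Eqn)) :=
  [[[]]]

/-- symmetries -/
noncomputable def hS6_79 : List (Bool × ℕ × List ℕ) :=
  []

/-- nodes 0 to 0 -/
noncomputable def hN6_79_0 : List HM :=
  [.base (.leafM k0 [k0,k3,k4,k5] [] [(k1,k2,z1,[z1]),(k2,k1,z1,[z1])])]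

theorem hB6_79_0 : blkB [0, 1, 0, 1, 0, 2] [(1, 2), (2, 4)] sp6 hS6_79 (pcls (n := 6) [0, 1, 0, 1, 0, 2]) hD6_79 1 0 hN6_79_0 = true := by
  decide +kernel

/-- equations of the nodes for the classes `0 1 0 1 0 2`, active pairs `1-3` -/
noncomputable def hD6_80 : List (List (List Eqn)) :=
  [[[]]]

/-- symmetries -/
noncomputable def hS6_80 : List (Bool × ℕ × List ℕ) :=
  []

/-- nodes 0 to 0 -/
noncomputable def hN6_80_0 : List HM :=
  [.base (.leafM k1 [k4,k5,k0,k2] [] [(k1,k3,z1,[z1]),(k3,k1,z1,[z1])])]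

theorem hB6_80_0 : blkB [0, 1, 0, 1, 0, 2] [(1, 3)] sp6 hS6_80 (pcls (n := 6) [0, 1, 0, 1, 0, 2]) hD6_80 1 0 hN6_80_0 = true := by
  decide +kernel

/-- equations of the nodes for the classes `0 1 0 1 0 2`, active pairs `1-3 1-4` -/
noncomputable def hD6_81 : List (List (List Eqn)) :=
  [[[]]]

/-- symmetries -/
noncomputable def hS6_81 : List (Bool × ℕ × List ℕ) :=
  []

/-- nodes 0 to 0 -/
noncomputable def hN6_81_0 : List HM :=
  [.base (.leafM k1 [k4,k5,k0,k2] [] [(k1,k3,z1,[z1]),(k3,k1,z1,[z1])])]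

theorem hB6_81_0 : blkB [0, 1, 0, 1, 0, 2] [(1, 3), (1, 4)] sp6 hS6_81 (pcls (n := 6) [0, 1, 0, 1, 0, 2]) hD6_81 1 0 hN6_81_0 = true := by
  decide +kernel

/-- equations of the nodes for the classes `0 1 0 1 0 2`, active pairs `1-3 2-3` -/
noncomputable def hD6_82 : List (List (List Eqn)) :=
  [[[]]]

/-- symmetries -/
noncomputable def hS6_82 : List (Bool × ℕ × List ℕ) :=
  []

/-- nodes 0 to 0 -/
noncomputable def hN6_82_0 : List HM :=
  [.base (.leafM k1 [k4,k5,k0,k2] [] [(k1,k3,z1,[z1]),(k3,k1,z1,[z1])])]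

theorem hB6_82_0 : blkB [0, 1, 0, 1, 0, 2] [(1, 3), (2, 3)] sp6 hS6_82 (pcls (n := 6) [0, 1, 0, 1, 0, 2]) hD6_82 1 0 hN6_82_0 = true := by
  decide +kernel

/-- equations of the nodes for the classes `0 1 0 1 0 2`, active pairs `2-3` -/
noncomputable def hD6_84 : List (List (List Eqn)) :=
  [[[]]]

/-- symmetries -/
noncomputable def hS6_84 : List (Bool × ℕ × List ℕ) :=
  []

/-- nodes 0 to 0 -/
noncomputable def hN6_84_0 : List HM :=
  [.base (.leafM k0 [k0,k1,k4,k5] [] [(k2,k3,z1,[z1]),(k3,k2,z1,[z1])])]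

theorem hB6_84_0 : blkB [0, 1, 0, 1, 0, 2] [(2, 3)] sp6 hS6_84 (pcls (n := 6) [0, 1, 0, 1, 0, 2]) hD6_84 1 0 hN6_84_0 = true := by
  decide +kernel

/-- equations of the nodes for the classes `0 1 0 2 1 2`, active pairs `0-3` -/
noncomputable def hD6_86 : List (List (List Eqn)) :=
  [[[]]]

/-- symmetries -/
noncomputable def hS6_86 : List (Bool × ℕ × List ℕ) :=
  []

/-- nodes 0 to 0 -/
noncomputable def hN6_86_0 : List HM :=
  [.base (.leafM k5 [k1,k2,k4,k5] [] [(k3,k0,z1,[z1]),(k0,k3,z1,[z1])])]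

theorem hB6_86_0 : blkB [0, 1, 0, 2, 1, 2] [(0, 3)] sp6 hS6_86 (pcls (n := 6) [0, 1, 0, 2, 1, 2]) hD6_86 1 0 hN6_86_0 = true := by
  decide +kernel

/-- equations of the nodes for the classes `0 1 0 2 1 2`, active pairs `1-2` -/
noncomputable def hD6_87 : List (List (List Eqn)) :=
  [[[]]]

/-- symmetries -/
noncomputable def hS6_87 : List (Bool × ℕ × List ℕ) :=
  []

/-- nodes 0 to 0 -/
noncomputable def hN6_87_0 : List HM :=
  [.base (.leafM k0 [k0,k3,k4,k5] [] [(k1,k2,z1,[z1]),(k2,k1,z1,[z1])])]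

theorem hB6_87_0 : blkB [0, 1, 0, 2, 1, 2] [(1, 2)] sp6 hS6_87 (pcls (n := 6) [0, 1, 0, 2, 1, 2]) hD6_87 1 0 hN6_87_0 = true := by
  decide +kernel

/-- equations of the nodes for the classes `0 1 2 0 1 2`, active pairs `0-3` -/
noncomputable def hD6_89 : List (List (List Eqn)) :=
  [[[]]]

/-- symmetries -/
noncomputable def hS6_89 : List (Bool × ℕ × List ℕ) :=
  []

/-- nodes 0 to 0 -/
noncomputable def hN6_89_0 : List HM :=
  [.base (.leafM k2 [k1,k2,k4,k5] [] [(k3,k0,z1,[z1]),(k0,k3,z1,[z1])])]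

theorem hB6_89_0 : blkB [0, 1, 2, 0, 1, 2] [(0, 3)] sp6 hS6_89 (pcls (n := 6) [0, 1, 2, 0, 1, 2]) hD6_89 1 0 hN6_89_0 = true := by
  decide +kernel

/-- equations of the nodes for the classes `0 0 0 0 0 1`, active pairs `0-5` -/
noncomputable def hD6_91 : List (List (List Eqn)) :=
  [[[]]]

/-- symmetries -/
noncomputable def hS6_91 : List (Bool × ℕ × List ℕ) :=
  []

/-- nodes 0 to 0 -/
noncomputable def hN6_91_0 : List HM :=
  [.base (.leafM k0 [k1,k2,k3,k4] [] [(k5,k0,z1,[z1]),(k0,k5,z1,[z1])])]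

theorem hB6_91_0 : blkB [0, 0, 0, 0, 0, 1] [(0, 5)] sp6 hS6_91 (pcls (n := 6) [0, 0, 0, 0, 0, 1]) hD6_91 1 0 hN6_91_0 = true := by
  decide +kernel

/-- equations of the nodes for the classes `0 0 0 0 0 1`, active pairs `1-2` -/
noncomputable def hD6_92 : List (List (List Eqn)) :=
  [[[]]]

/-- symmetries -/
noncomputable def hS6_92 : List (Bool × ℕ × List ℕ) :=
  []

/-- nodes 0 to 0 -/
noncomputable def hN6_92_0 : List HM :=
  [.base (.leafM k0 [k0,k3,k4,k5] [] [(k1,k2,z1,[z1]),(k2,k1,z1,[z1])])]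

theorem hB6_92_0 : blkB [0, 0, 0, 0, 0, 1] [(1, 2)] sp6 hS6_92 (pcls (n := 6) [0, 0, 0, 0, 0, 1]) hD6_92 1 0 hN6_92_0 = true := by
  decide +kernel

/-- equations of the nodes for the classes `0 0 0 0 0 1`, active pairs `1-2 1-3` -/
noncomputable def hD6_93 : List (List (List Eqn)) :=
  [[[]]]

/-- symmetries -/
noncomputable def hS6_93 : List (Bool × ℕ × List ℕ) :=
  []

/-- nodes 0 to 0 -/
noncomputable def hN6_93_0 : List HM :=
  [.base (.leafM k0 [k0,k3,k4,k5] [] [(k1,k2,z1,[z1]),(k2,k1,z1,[z1])])]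

theorem hB6_93_0 : blkB [0, 0, 0, 0, 0, 1] [(1, 2), (1, 3)] sp6 hS6_93 (pcls (n := 6) [0, 0, 0, 0, 0, 1]) hD6_93 1 0 hN6_93_0 = true := by
  decide +kernel

/-- equations of the nodes for the classes `0 0 0 0 0 1`, active pairs `1-2 1-3 1-4` -/
noncomputable def hD6_94 : List (List (List Eqn)) :=
  [[[]]]

/-- symmetries -/
noncomputable def hS6_94 : List (Bool × ℕ × List ℕ) :=
  []

/-- nodes 0 to 0 -/
noncomputable def hN6_94_0 : List HM :=
  [.base (.leafM k0 [k0,k3,k4,k5] [] [(k1,k2,z1,[z1]),(k2,k1,z1,[z1])])]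

theorem hB6_94_0 : blkB [0, 0, 0, 0, 0, 1] [(1, 2), (1, 3), (1, 4)] sp6 hS6_94 (pcls (n := 6) [0, 0, 0, 0, 0, 1]) hD6_94 1 0 hN6_94_0 = true := by
  decide +kernel

/-- equations of the nodes for the classes `0 0 0 0 0 1`, active pairs `1-2 1-4` -/
noncomputable def hD6_95 : List (List (List Eqn)) :=
  [[[]]]

/-- symmetries -/
noncomputable def hS6_95 : List (Bool × ℕ × List ℕ) :=
  []

/-- nodes 0 to 0 -/
noncomputable def hN6_95_0 : List HM :=
  [.base (.leafM k0 [k0,k3,k4,k5] [] [(k1,k2,z1,[z1]),(k2,k1,z1,[z1])])]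

theorem hB6_95_0 : blkB [0, 0, 0, 0, 0, 1] [(1, 2), (1, 4)] sp6 hS6_95 (pcls (n := 6) [0, 0, 0, 0, 0, 1]) hD6_95 1 0 hN6_95_0 = true := by
  decide +kernel

/-- equations of the nodes for the classes `0 0 0 0 0 1`, active pairs `1-2 2-3` -/
noncomputable def hD6_96 : List (List (List Eqn)) :=
  [[[]]]

/-- symmetries -/
noncomputable def hS6_96 : List (Bool × ℕ × List ℕ) :=
  []

/-- nodes 0 to 0 -/
noncomputable def hN6_96_0 : List HM :=
  [.base (.leafM k0 [k0,k3,k4,k5] [] [(k1,k2,z1,[z1]),(k2,k1,z1,[z1])])]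

theorem hB6_96_0 : blkB [0, 0, 0, 0, 0, 1] [(1, 2), (2, 3)] sp6 hS6_96 (pcls (n := 6) [0, 0, 0, 0, 0, 1]) hD6_96 1 0 hN6_96_0 = true := by
  decide +kernel

/-- equations of the nodes for the classes `0 0 0 0 0 1`, active pairs `1-2 2-3 2-4` -/
noncomputable def hD6_97 : List (List (List Eqn)) :=
  [[[]]]

/-- symmetries -/
noncomputable def hS6_97 : List (Bool × ℕ × List ℕ) :=
  []

/-- nodes 0 to 0 -/
noncomputable def hN6_97_0 : List HM :=
  [.base (.leafM k0 [k0,k3,k4,k5] [] [(k1,k2,z1,[z1]),(k2,k1,z1,[z1])])]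

theorem hB6_97_0 : blkB [0, 0, 0, 0, 0, 1] [(1, 2), (2, 3), (2, 4)] sp6 hS6_97 (pcls (n := 6) [0, 0, 0, 0, 0, 1]) hD6_97 1 0 hN6_97_0 = true := by
  decide +kernel

/-- equations of the nodes for the classes `0 0 0 0 0 1`, active pairs `1-2 2-4` -/
noncomputable def hD6_98 : List (List (List Eqn)) :=
  [[[]]]

/-- symmetries -/
noncomputable def hS6_98 : List (Bool × ℕ × List ℕ) :=
  []

/-- nodes 0 to 0 -/
noncomputable def hN6_98_0 : List HM :=
  [.base (.leafM k0 [k0,k3,k4,k5] [] [(k1,k2,z1,[z1]),(k2,k1,z1,[z1])])]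

theorem hB6_98_0 : blkB [0, 0, 0, 0, 0, 1] [(1, 2), (2, 4)] sp6 hS6_98 (pcls (n := 6) [0, 0, 0, 0, 0, 1]) hD6_98 1 0 hN6_98_0 = true := by
  decide +kernel

/-- equations of the nodes for the classes `0 0 0 0 0 1`, active pairs `1-3` -/
noncomputable def hD6_99 : List (List (List Eqn)) :=
  [[[]]]

/-- symmetries -/
noncomputable def hS6_99 : List (Bool × ℕ × List ℕ) :=
  []

/-- nodes 0 to 0 -/
noncomputable def hN6_99_0 : List HM :=
  [.base (.leafM k1 [k4,k5,k0,k2] [] [(k1,k3,z1,[z1]),(k3,k1,z1,[z1])])]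

theorem hB6_99_0 : blkB [0, 0, 0, 0, 0, 1] [(1, 3)] sp6 hS6_99 (pcls (n := 6) [0, 0, 0, 0, 0, 1]) hD6_99 1 0 hN6_99_0 = true := by
  decide +kernel

/-- equations of the nodes for the classes `0 0 0 0 0 1`, active pairs `1-3 1-4` -/
noncomputable def hD6_100 : List (List (List Eqn)) :=
  [[[]]]

/-- symmetries -/
noncomputable def hS6_100 : List (Bool × ℕ × List ℕ) :=
  []

/-- nodes 0 to 0 -/
noncomputable def hN6_100_0 : List HM :=
  [.base (.leafM k1 [k4,k5,k0,k2] [] [(k1,k3,z1,[z1]),(k3,k1,z1,[z1])])]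

theorem hB6_100_0 : blkB [0, 0, 0, 0, 0, 1] [(1, 3), (1, 4)] sp6 hS6_100 (pcls (n := 6) [0, 0, 0, 0, 0, 1]) hD6_100 1 0 hN6_100_0 = true := by
  decide +kernel

/-- equations of the nodes for the classes `0 0 0 0 0 1`, active pairs `1-3 2-3` -/
noncomputable def hD6_101 : List (List (List Eqn)) :=
  [[[]]]

/-- symmetries -/
noncomputable def hS6_101 : List (Bool × ℕ × List ℕ) :=
  []

/-- nodes 0 to 0 -/
noncomputable def hN6_101_0 : List HM :=
  [.base (.leafM k1 [k4,k5,k0,k2] [] [(k1,k3,z1,[z1]),(k3,k1,z1,[z1])])]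

theorem hB6_101_0 : blkB [0, 0, 0, 0, 0, 1] [(1, 3), (2, 3)] sp6 hS6_101 (pcls (n := 6) [0, 0, 0, 0, 0, 1]) hD6_101 1 0 hN6_101_0 = true := by
  decide +kernel

/-- equations of the nodes for the classes `0 0 0 0 0 1`, active pairs `1-4` -/
noncomputable def hD6_102 : List (List (List Eqn)) :=
  [[[]]]

/-- symmetries -/
noncomputable def hS6_102 : List (Bool × ℕ × List ℕ) :=
  []

/-- nodes 0 to 0 -/
noncomputable def hN6_102_0 : List HM :=
  [.base (.leafM k2 [k2,k3,k5,k0] [] [(k4,k1,z1,[z1]),(k1,k4,z1,[z1])])]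

theorem hB6_102_0 : blkB [0, 0, 0, 0, 0, 1] [(1, 4)] sp6 hS6_102 (pcls (n := 6) [0, 0, 0, 0, 0, 1]) hD6_102 1 0 hN6_102_0 = true := by
  decide +kernel

/-- equations of the nodes for the classes `0 0 0 0 0 1`, active pairs `2-3` -/
noncomputable def hD6_103 : List (List (List Eqn)) :=
  [[[]]]

/-- symmetries -/
noncomputable def hS6_103 : List (Bool × ℕ × List ℕ) :=
  []

/-- nodes 0 to 0 -/
noncomputable def hN6_103_0 : List HM :=
  [.base (.leafM k0 [k0,k1,k4,k5] [] [(k2,k3,z1,[z1]),(k3,k2,z1,[z1])])]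

theorem hB6_103_0 : blkB [0, 0, 0, 0, 0, 1] [(2, 3)] sp6 hS6_103 (pcls (n := 6) [0, 0, 0, 0, 0, 1]) hD6_103 1 0 hN6_103_0 = true := by
  decide +kernel

/-- equations of the nodes for the classes `0 0 0 0 1 1`, active pairs `1-2` -/
noncomputable def hD6_106 : List (List (List Eqn)) :=
  [[[]]]

/-- symmetries -/
noncomputable def hS6_106 : List (Bool × ℕ × List ℕ) :=
  []

/-- nodes 0 to 0 -/
noncomputable def hN6_106_0 : List HM :=
  [.base (.leafM k0 [k0,k3,k4,k5] [] [(k1,k2,z1,[z1]),(k2,k1,z1,[z1])])]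

theorem hB6_106_0 : blkB [0, 0, 0, 0, 1, 1] [(1, 2)] sp6 hS6_106 (pcls (n := 6) [0, 0, 0, 0, 1, 1]) hD6_106 1 0 hN6_106_0 = true := by
  decide +kernel

/-- equations of the nodes for the classes `0 0 0 0 1 1`, active pairs `1-2 1-3` -/
noncomputable def hD6_107 : List (List (List Eqn)) :=
  [[[]]]

/-- symmetries -/
noncomputable def hS6_107 : List (Bool × ℕ × List ℕ) :=
  []

/-- nodes 0 to 0 -/
noncomputable def hN6_107_0 : List HM :=
  [.base (.leafM k0 [k0,k3,k4,k5] [] [(k1,k2,z1,[z1]),(k2,k1,z1,[z1])])]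

theorem hB6_107_0 : blkB [0, 0, 0, 0, 1, 1] [(1, 2), (1, 3)] sp6 hS6_107 (pcls (n := 6) [0, 0, 0, 0, 1, 1]) hD6_107 1 0 hN6_107_0 = true := by
  decide +kernel

/-- equations of the nodes for the classes `0 0 0 0 1 1`, active pairs `1-2 2-3` -/
noncomputable def hD6_108 : List (List (List Eqn)) :=
  [[[]]]

/-- symmetries -/
noncomputable def hS6_108 : List (Bool × ℕ × List ℕ) :=
  []

/-- nodes 0 to 0 -/
noncomputable def hN6_108_0 : List HM :=
  [.base (.leafM k0 [k0,k3,k4,k5] [] [(k1,k2,z1,[z1]),(k2,k1,z1,[z1])])]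

theorem hB6_108_0 : blkB [0, 0, 0, 0, 1, 1] [(1, 2), (2, 3)] sp6 hS6_108 (pcls (n := 6) [0, 0, 0, 0, 1, 1]) hD6_108 1 0 hN6_108_0 = true := by
  decide +kernel

/-- equations of the nodes for the classes `0 0 0 0 1 1`, active pairs `1-3` -/
noncomputable def hD6_109 : List (List (List Eqn)) :=
  [[[]]]

/-- symmetries -/
noncomputable def hS6_109 : List (Bool × ℕ × List ℕ) :=
  []

/-- nodes 0 to 0 -/
noncomputable def hN6_109_0 : List HM :=
  [.base (.leafM k1 [k4,k5,k0,k2] [] [(k1,k3,z1,[z1]),(k3,k1,z1,[z1])])]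

theorem hB6_109_0 : blkB [0, 0, 0, 0, 1, 1] [(1, 3)] sp6 hS6_109 (pcls (n := 6) [0, 0, 0, 0, 1, 1]) hD6_109 1 0 hN6_109_0 = true := by
  decide +kernel

/-- equations of the nodes for the classes `0 0 0 1 0 1`, active pairs `0-3` -/
noncomputable def hD6_111 : List (List (List Eqn)) :=
  [[[]]]

/-- symmetries -/
noncomputable def hS6_111 : List (Bool × ℕ × List ℕ) :=
  []

/-- nodes 0 to 0 -/
noncomputable def hN6_111_0 : List HM :=
  [.base (.leafM k5 [k1,k2,k4,k5] [] [(k3,k0,z1,[z1]),(k0,k3,z1,[z1])])]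

theorem hB6_111_0 : blkB [0, 0, 0, 1, 0, 1] [(0, 3)] sp6 hS6_111 (pcls (n := 6) [0, 0, 0, 1, 0, 1]) hD6_111 1 0 hN6_111_0 = true := by
  decide +kernel

/-- equations of the nodes for the classes `0 0 0 1 0 1`, active pairs `0-3 0-4` -/
noncomputable def hD6_112 : List (List (List Eqn)) :=
  [[[]]]

/-- symmetries -/
noncomputable def hS6_112 : List (Bool × ℕ × List ℕ) :=
  []

/-- nodes 0 to 0 -/
noncomputable def hN6_112_0 : List HM :=
  [.base (.leafM k5 [k1,k2,k4,k5] [] [(k3,k0,z1,[z1]),(k0,k3,z1,[z1])])]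

theorem hB6_112_0 : blkB [0, 0, 0, 1, 0, 1] [(0, 3), (0, 4)] sp6 hS6_112 (pcls (n := 6) [0, 0, 0, 1, 0, 1]) hD6_112 1 0 hN6_112_0 = true := by
  decide +kernel

/-- equations of the nodes for the classes `0 0 0 1 0 1`, active pairs `0-3 0-4 0-5` -/
noncomputable def hD6_113 : List (List (List Eqn)) :=
  [[[]]]

/-- symmetries -/
noncomputable def hS6_113 : List (Bool × ℕ × List ℕ) :=
  []

/-- nodes 0 to 0 -/
noncomputable def hN6_113_0 : List HM :=
  [.base (.leafM k5 [k1,k2,k4,k5] [] [(k3,k0,z1,[z1]),(k0,k3,z1,[z1])])]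

theorem hB6_113_0 : blkB [0, 0, 0, 1, 0, 1] [(0, 3), (0, 4), (0, 5)] sp6 hS6_113 (pcls (n := 6) [0, 0, 0, 1, 0, 1]) hD6_113 1 0 hN6_113_0 = true := by
  decide +kernel

/-- equations of the nodes for the classes `0 0 0 1 0 1`, active pairs `0-3 0-5` -/
noncomputable def hD6_114 : List (List (List Eqn)) :=
  [[[]]]

/-- symmetries -/
noncomputable def hS6_114 : List (Bool × ℕ × List ℕ) :=
  []

/-- nodes 0 to 0 -/
noncomputable def hN6_114_0 : List HM :=
  [.base (.leafM k5 [k1,k2,k4,k5] [] [(k3,k0,z1,[z1]),(k0,k3,z1,[z1])])]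

theorem hB6_114_0 : blkB [0, 0, 0, 1, 0, 1] [(0, 3), (0, 5)] sp6 hS6_114 (pcls (n := 6) [0, 0, 0, 1, 0, 1]) hD6_114 1 0 hN6_114_0 = true := by
  decide +kernel

/-- equations of the nodes for the classes `0 0 0 1 0 1`, active pairs `0-4` -/
noncomputable def hD6_115 : List (List (List Eqn)) :=
  [[[]]]

/-- symmetries -/
noncomputable def hS6_115 : List (Bool × ℕ × List ℕ) :=
  []

/-- nodes 0 to 0 -/
noncomputable def hN6_115_0 : List HM :=
  [.base (.leafM k1 [k1,k2,k3,k5] [] [(k4,k0,z1,[z1]),(k0,k4,z1,[z1])])]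

theorem hB6_115_0 : blkB [0, 0, 0, 1, 0, 1] [(0, 4)] sp6 hS6_115 (pcls (n := 6) [0, 0, 0, 1, 0, 1]) hD6_115 1 0 hN6_115_0 = true := by
  decide +kernel

/-- equations of the nodes for the classes `0 0 0 1 0 1`, active pairs `0-4 0-5` -/
noncomputable def hD6_116 : List (List (List Eqn)) :=
  [[[]]]

/-- symmetries -/
noncomputable def hS6_116 : List (Bool × ℕ × List ℕ) :=
  []

/-- nodes 0 to 0 -/
noncomputable def hN6_116_0 : List HM :=
  [.base (.leafM k1 [k1,k2,k3,k5] [] [(k4,k0,z1,[z1]),(k0,k4,z1,[z1])])]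

theorem hB6_116_0 : blkB [0, 0, 0, 1, 0, 1] [(0, 4), (0, 5)] sp6 hS6_116 (pcls (n := 6) [0, 0, 0, 1, 0, 1]) hD6_116 1 0 hN6_116_0 = true := by
  decide +kernel

/-- equations of the nodes for the classes `0 0 0 1 0 1`, active pairs `0-4 3-4` -/
noncomputable def hD6_117 : List (List (List Eqn)) :=
  [[[]]]

/-- symmetries -/
noncomputable def hS6_117 : List (Bool × ℕ × List ℕ) :=
  []

/-- nodes 0 to 0 -/
noncomputable def hN6_117_0 : List HM :=
  [.base (.leafM k1 [k1,k2,k3,k5] [] [(k4,k0,z1,[z1]),(k0,k4,z1,[z1])])]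

theorem hB6_117_0 : blkB [0, 0, 0, 1, 0, 1] [(0, 4), (3, 4)] sp6 hS6_117 (pcls (n := 6) [0, 0, 0, 1, 0, 1]) hD6_117 1 0 hN6_117_0 = true := by
  decide +kernel

/-- equations of the nodes for the classes `0 0 0 1 0 1`, active pairs `0-4 3-4 4-5` -/
noncomputable def hD6_118 : List (List (List Eqn)) :=
  [[[]]]

/-- symmetries -/
noncomputable def hS6_118 : List (Bool × ℕ × List ℕ) :=
  []

/-- nodes 0 to 0 -/
noncomputable def hN6_118_0 : List HM :=
  [.base (.leafM k1 [k1,k2,k3,k5] [] [(k4,k0,z1,[z1]),(k0,k4,z1,[z1])])]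

theorem hB6_118_0 : blkB [0, 0, 0, 1, 0, 1] [(0, 4), (3, 4), (4, 5)] sp6 hS6_118 (pcls (n := 6) [0, 0, 0, 1, 0, 1]) hD6_118 1 0 hN6_118_0 = true := by
  decide +kernel

/-- equations of the nodes for the classes `0 0 0 1 0 1`, active pairs `0-4 4-5` -/
noncomputable def hD6_119 : List (List (List Eqn)) :=
  [[[]]]

/-- symmetries -/
noncomputable def hS6_119 : List (Bool × ℕ × List ℕ) :=
  []

/-- nodes 0 to 0 -/
noncomputable def hN6_119_0 : List HM :=
  [.base (.leafM k1 [k1,k2,k3,k5] [] [(k4,k0,z1,[z1]),(k0,k4,z1,[z1])])]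

theorem hB6_119_0 : blkB [0, 0, 0, 1, 0, 1] [(0, 4), (4, 5)] sp6 hS6_119 (pcls (n := 6) [0, 0, 0, 1, 0, 1]) hD6_119 1 0 hN6_119_0 = true := by
  decide +kernel

/-- equations of the nodes for the classes `0 0 0 1 0 1`, active pairs `0-5` -/
noncomputable def hD6_120 : List (List (List Eqn)) :=
  [[[]]]

/-- symmetries -/
noncomputable def hS6_120 : List (Bool × ℕ × List ℕ) :=
  []

/-- nodes 0 to 0 -/
noncomputable def hN6_120_0 : List HM :=
  [.base (.leafM k0 [k1,k2,k3,k4] [] [(k5,k0,z1,[z1]),(k0,k5,z1,[z1])])]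

theorem hB6_120_0 : blkB [0, 0, 0, 1, 0, 1] [(0, 5)] sp6 hS6_120 (pcls (n := 6) [0, 0, 0, 1, 0, 1]) hD6_120 1 0 hN6_120_0 = true := by
  decide +kernel

/-- equations of the nodes for the classes `0 0 0 1 0 1`, active pairs `0-5 4-5` -/
noncomputable def hD6_121 : List (List (List Eqn)) :=
  [[[]]]

/-- symmetries -/
noncomputable def hS6_121 : List (Bool × ℕ × List ℕ) :=
  []

/-- nodes 0 to 0 -/
noncomputable def hN6_121_0 : List HM :=
  [.base (.leafM k0 [k1,k2,k3,k4] [] [(k5,k0,z1,[z1]),(k0,k5,z1,[z1])])]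

theorem hB6_121_0 : blkB [0, 0, 0, 1, 0, 1] [(0, 5), (4, 5)] sp6 hS6_121 (pcls (n := 6) [0, 0, 0, 1, 0, 1]) hD6_121 1 0 hN6_121_0 = true := by
  decide +kernel

/-- equations of the nodes for the classes `0 0 0 1 0 1`, active pairs `1-2` -/
noncomputable def hD6_122 : List (List (List Eqn)) :=
  [[[]]]

/-- symmetries -/
noncomputable def hS6_122 : List (Bool × ℕ × List ℕ) :=
  []

/-- nodes 0 to 0 -/
noncomputable def hN6_122_0 : List HM :=
  [.base (.leafM k0 [k0,k3,k4,k5] [] [(k1,k2,z1,[z1]),(k2,k1,z1,[z1])])]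

theorem hB6_122_0 : blkB [0, 0, 0, 1, 0, 1] [(1, 2)] sp6 hS6_122 (pcls (n := 6) [0, 0, 0, 1, 0, 1]) hD6_122 1 0 hN6_122_0 = true := by
  decide +kernel

/-- equations of the nodes for the classes `0 0 0 1 0 1`, active pairs `4-5` -/
noncomputable def hD6_123 : List (List (List Eqn)) :=
  [[[]]]

/-- symmetries -/
noncomputable def hS6_123 : List (Bool × ℕ × List ℕ) :=
  []

/-- nodes 0 to 0 -/
noncomputable def hN6_123_0 : List HM :=
  [.base (.leafM k0 [k0,k1,k2,k3] [] [(k4,k5,z1,[z1]),(k5,k4,z1,[z1])])]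

theorem hB6_123_0 : blkB [0, 0, 0, 1, 0, 1] [(4, 5)] sp6 hS6_123 (pcls (n := 6) [0, 0, 0, 1, 0, 1]) hD6_123 1 0 hN6_123_0 = true := by
  decide +kernel

/-- equations of the nodes for the classes `0 0 0 1 1 1`, active pairs `1-2` -/
noncomputable def hD6_126 : List (List (List Eqn)) :=
  [[[]]]

/-- symmetries -/
noncomputable def hS6_126 : List (Bool × ℕ × List ℕ) :=
  []

/-- nodes 0 to 0 -/
noncomputable def hN6_126_0 : List HM :=
  [.base (.leafM k0 [k0,k3,k4,k5] [] [(k1,k2,z1,[z1]),(k2,k1,z1,[z1])])]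

theorem hB6_126_0 : blkB [0, 0, 0, 1, 1, 1] [(1, 2)] sp6 hS6_126 (pcls (n := 6) [0, 0, 0, 1, 1, 1]) hD6_126 1 0 hN6_126_0 = true := by
  decide +kernel

/-- equations of the nodes for the classes `0 0 1 0 0 1`, active pairs `0-2 0-3` -/
noncomputable def hD6_129 : List (List (List Eqn)) :=
  [[[]]]

/-- symmetries -/
noncomputable def hS6_129 : List (Bool × ℕ × List ℕ) :=
  []

/-- nodes 0 to 0 -/
noncomputable def hN6_129_0 : List HM :=
  [.base (.leafM k2 [k1,k2,k4,k5] [] [(k3,k0,z1,[z0,z1]),(k0,k3,z1,[z0,z1])])]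

theorem hB6_129_0 : blkB [0, 0, 1, 0, 0, 1] [(0, 2), (0, 3)] sp6 hS6_129 (pcls (n := 6) [0, 0, 1, 0, 0, 1]) hD6_129 1 0 hN6_129_0 = true := by
  decide +kernel

/-- equations of the nodes for the classes `0 0 1 0 0 1`, active pairs `0-2 0-3 0-5` -/
noncomputable def hD6_130 : List (List (List Eqn)) :=
  [[[]]]

/-- symmetries -/
noncomputable def hS6_130 : List (Bool × ℕ × List ℕ) :=
  []

/-- nodes 0 to 0 -/
noncomputable def hN6_130_0 : List HM :=
  [.base (.leafM k2 [k1,k2,k4,k5] [] [(k3,k0,z1,[z0,z1]),(k0,k3,z1,[z0,z1])])]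

theorem hB6_130_0 : blkB [0, 0, 1, 0, 0, 1] [(0, 2), (0, 3), (0, 5)] sp6 hS6_130 (pcls (n := 6) [0, 0, 1, 0, 0, 1]) hD6_130 1 0 hN6_130_0 = true := by
  decide +kernel

/-- equations of the nodes for the classes `0 0 1 0 0 1`, active pairs `0-2 0-5` -/
noncomputable def hD6_131 : List (List (List Eqn)) :=
  [[[]]]

/-- symmetries -/
noncomputable def hS6_131 : List (Bool × ℕ × List ℕ) :=
  []

/-- nodes 0 to 0 -/
noncomputable def hN6_131_0 : List HM :=
  [.base (.leafM k0 [k1,k2,k3,k4] [] [(k5,k0,z1,[z0,z1]),(k0,k5,z1,[z0,z1])])]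

theorem hB6_131_0 : blkB [0, 0, 1, 0, 0, 1] [(0, 2), (0, 5)] sp6 hS6_131 (pcls (n := 6) [0, 0, 1, 0, 0, 1]) hD6_131 1 0 hN6_131_0 = true := by
  decide +kernel

/-- equations of the nodes for the classes `0 0 1 0 0 1`, active pairs `0-3` -/
noncomputable def hD6_132 : List (List (List Eqn)) :=
  [[[]]]

/-- symmetries -/
noncomputable def hS6_132 : List (Bool × ℕ × List ℕ) :=
  []

/-- nodes 0 to 0 -/
noncomputable def hN6_132_0 : List HM :=
  [.base (.leafM k2 [k1,k2,k4,k5] [] [(k3,k0,z1,[z1]),(k0,k3,z1,[z1])])]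

theorem hB6_132_0 : blkB [0, 0, 1, 0, 0, 1] [(0, 3)] sp6 hS6_132 (pcls (n := 6) [0, 0, 1, 0, 0, 1]) hD6_132 1 0 hN6_132_0 = true := by
  decide +kernel

/-- equations of the nodes for the classes `0 0 1 0 0 1`, active pairs `0-3 0-5` -/
noncomputable def hD6_133 : List (List (List Eqn)) :=
  [[[]]]

/-- symmetries -/
noncomputable def hS6_133 : List (Bool × ℕ × List ℕ) :=
  []

/-- nodes 0 to 0 -/
noncomputable def hN6_133_0 : List HM :=
  [.base (.leafM k2 [k1,k2,k4,k5] [] [(k3,k0,z1,[z1]),(k0,k3,z1,[z1])])]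

theorem hB6_133_0 : blkB [0, 0, 1, 0, 0, 1] [(0, 3), (0, 5)] sp6 hS6_133 (pcls (n := 6) [0, 0, 1, 0, 0, 1]) hD6_133 1 0 hN6_133_0 = true := by
  decide +kernel

/-- equations of the nodes for the classes `0 0 1 0 0 1`, active pairs `0-5` -/
noncomputable def hD6_134 : List (List (List Eqn)) :=
  [[[]]]

/-- symmetries -/
noncomputable def hS6_134 : List (Bool × ℕ × List ℕ) :=
  []

/-- nodes 0 to 0 -/
noncomputable def hN6_134_0 : List HM :=
  [.base (.leafM k0 [k1,k2,k3,k4] [] [(k5,k0,z1,[z1]),(k0,k5,z1,[z1])])]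

theorem hB6_134_0 : blkB [0, 0, 1, 0, 0, 1] [(0, 5)] sp6 hS6_134 (pcls (n := 6) [0, 0, 1, 0, 0, 1]) hD6_134 1 0 hN6_134_0 = true := by
  decide +kernel

/-- equations of the nodes for the classes `0 0 1 0 0 1`, active pairs `1-4` -/
noncomputable def hD6_135 : List (List (List Eqn)) :=
  [[[]]]

/-- symmetries -/
noncomputable def hS6_135 : List (Bool × ℕ × List ℕ) :=
  []

/-- nodes 0 to 0 -/
noncomputable def hN6_135_0 : List HM :=
  [.base (.leafM k2 [k2,k3,k5,k0] [] [(k4,k1,z1,[z1]),(k1,k4,z1,[z1])])]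

theorem hB6_135_0 : blkB [0, 0, 1, 0, 0, 1] [(1, 4)] sp6 hS6_135 (pcls (n := 6) [0, 0, 1, 0, 0, 1]) hD6_135 1 0 hN6_135_0 = true := by
  decide +kernel

/-- equations of the nodes for the classes `0 0 1 0 1 1`, active pairs `0-2 0-3` -/
noncomputable def hD6_138 : List (List (List Eqn)) :=
  [[[]]]

/-- symmetries -/
noncomputable def hS6_138 : List (Bool × ℕ × List ℕ) :=
  []

/-- nodes 0 to 0 -/
noncomputable def hN6_138_0 : List HM :=
  [.base (.leafM k2 [k1,k2,k4,k5] [] [(k3,k0,z1,[z0,z1]),(k0,k3,z1,[z0,z1])])]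

theorem hB6_138_0 : blkB [0, 0, 1, 0, 1, 1] [(0, 2), (0, 3)] sp6 hS6_138 (pcls (n := 6) [0, 0, 1, 0, 1, 1]) hD6_138 1 0 hN6_138_0 = true := by
  decide +kernel

/-- equations of the nodes for the classes `0 0 1 0 1 1`, active pairs `0-2 0-3 0-4` -/
noncomputable def hD6_139 : List (List (List Eqn)) :=
  [[[]]]

/-- symmetries -/
noncomputable def hS6_139 : List (Bool × ℕ × List ℕ) :=
  []

/-- nodes 0 to 0 -/
noncomputable def hN6_139_0 : List HM :=
  [.base (.leafM k2 [k1,k2,k4,k5] [] [(k3,k0,z1,[z0,z1]),(k0,k3,z1,[z0,z1])])]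

theorem hB6_139_0 : blkB [0, 0, 1, 0, 1, 1] [(0, 2), (0, 3), (0, 4)] sp6 hS6_139 (pcls (n := 6) [0, 0, 1, 0, 1, 1]) hD6_139 1 0 hN6_139_0 = true := by
  decide +kernel

/-- equations of the nodes for the classes `0 0 1 0 1 1`, active pairs `0-2 2-3` -/
noncomputable def hD6_141 : List (List (List Eqn)) :=
  [[[]]]

/-- symmetries -/
noncomputable def hS6_141 : List (Bool × ℕ × List ℕ) :=
  []

/-- nodes 0 to 0 -/
noncomputable def hN6_141_0 : List HM :=
  [.base (.leafM k0 [k0,k1,k4,k5] [] [(k2,k3,z1,[z0,z1]),(k3,k2,z1,[z0,z1])])]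

theorem hB6_141_0 : blkB [0, 0, 1, 0, 1, 1] [(0, 2), (2, 3)] sp6 hS6_141 (pcls (n := 6) [0, 0, 1, 0, 1, 1]) hD6_141 1 0 hN6_141_0 = true := by
  decide +kernel

/-- equations of the nodes for the classes `0 0 1 0 1 1`, active pairs `0-2 2-3 2-4` -/
noncomputable def hD6_142 : List (List (List Eqn)) :=
  [[[]]]

/-- symmetries -/
noncomputable def hS6_142 : List (Bool × ℕ × List ℕ) :=
  []

/-- nodes 0 to 0 -/
noncomputable def hN6_142_0 : List HM :=
  [.base (.leafM k0 [k0,k1,k4,k5] [] [(k2,k3,z1,[z0,z1]),(k3,k2,z1,[z0,z1])])]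

theorem hB6_142_0 : blkB [0, 0, 1, 0, 1, 1] [(0, 2), (2, 3), (2, 4)] sp6 hS6_142 (pcls (n := 6) [0, 0, 1, 0, 1, 1]) hD6_142 1 0 hN6_142_0 = true := by
  decide +kernel

/-- equations of the nodes for the classes `0 0 1 0 1 1`, active pairs `0-2 2-4` -/
noncomputable def hD6_143 : List (List (List Eqn)) :=
  [[[]]]

/-- symmetries -/
noncomputable def hS6_143 : List (Bool × ℕ × List ℕ) :=
  []

/-- nodes 0 to 0 -/
noncomputable def hN6_143_0 : List HM :=
  [.base (.leafM k1 [k5,k0,k1,k3] [] [(k2,k4,z1,[z0,z1]),(k4,k2,z1,[z0,z1])])]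

theorem hB6_143_0 : blkB [0, 0, 1, 0, 1, 1] [(0, 2), (2, 4)] sp6 hS6_143 (pcls (n := 6) [0, 0, 1, 0, 1, 1]) hD6_143 1 0 hN6_143_0 = true := by
  decide +kernel

/-- equations of the nodes for the classes `0 0 1 0 1 1`, active pairs `0-3` -/
noncomputable def hD6_144 : List (List (List Eqn)) :=
  [[[]]]

/-- symmetries -/
noncomputable def hS6_144 : List (Bool × ℕ × List ℕ) :=
  []

/-- nodes 0 to 0 -/
noncomputable def hN6_144_0 : List HM :=
  [.base (.leafM k2 [k1,k2,k4,k5] [] [(k3,k0,z1,[z1]),(k0,k3,z1,[z1])])]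

theorem hB6_144_0 : blkB [0, 0, 1, 0, 1, 1] [(0, 3)] sp6 hS6_144 (pcls (n := 6) [0, 0, 1, 0, 1, 1]) hD6_144 1 0 hN6_144_0 = true := by
  decide +kernel

/-- equations of the nodes for the classes `0 0 1 0 1 1`, active pairs `0-3 2-3` -/
noncomputable def hD6_145 : List (List (List Eqn)) :=
  [[[]]]

/-- symmetries -/
noncomputable def hS6_145 : List (Bool × ℕ × List ℕ) :=
  []

/-- nodes 0 to 0 -/
noncomputable def hN6_145_0 : List HM :=
  [.base (.leafM k2 [k1,k2,k4,k5] [] [(k3,k0,z1,[z1]),(k0,k3,z1,[z1])])]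

theorem hB6_145_0 : blkB [0, 0, 1, 0, 1, 1] [(0, 3), (2, 3)] sp6 hS6_145 (pcls (n := 6) [0, 0, 1, 0, 1, 1]) hD6_145 1 0 hN6_145_0 = true := by
  decide +kernel

/-- equations of the nodes for the classes `0 0 1 0 1 1`, active pairs `0-3 2-3 3-4` -/
noncomputable def hD6_146 : List (List (List Eqn)) :=
  [[[]]]

/-- symmetries -/
noncomputable def hS6_146 : List (Bool × ℕ × List ℕ) :=
  []

/-- nodes 0 to 0 -/
noncomputable def hN6_146_0 : List HM :=
  [.base (.leafM k2 [k1,k2,k4,k5] [] [(k3,k0,z1,[z1]),(k0,k3,z1,[z1])])]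

theorem hB6_146_0 : blkB [0, 0, 1, 0, 1, 1] [(0, 3), (2, 3), (3, 4)] sp6 hS6_146 (pcls (n := 6) [0, 0, 1, 0, 1, 1]) hD6_146 1 0 hN6_146_0 = true := by
  decide +kernel

/-- equations of the nodes for the classes `0 0 1 0 1 1`, active pairs `2-3` -/
noncomputable def hD6_147 : List (List (List Eqn)) :=
  [[[]]]

/-- symmetries -/
noncomputable def hS6_147 : List (Bool × ℕ × List ℕ) :=
  []

/-- nodes 0 to 0 -/
noncomputable def hN6_147_0 : List HM :=
  [.base (.leafM k0 [k0,k1,k4,k5] [] [(k2,k3,z1,[z1]),(k3,k2,z1,[z1])])]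

theorem hB6_147_0 : blkB [0, 0, 1, 0, 1, 1] [(2, 3)] sp6 hS6_147 (pcls (n := 6) [0, 0, 1, 0, 1, 1]) hD6_147 1 0 hN6_147_0 = true := by
  decide +kernel

/-- equations of the nodes for the classes `0 0 1 0 1 1`, active pairs `2-3 2-4` -/
noncomputable def hD6_148 : List (List (List Eqn)) :=
  [[[]]]

/-- symmetries -/
noncomputable def hS6_148 : List (Bool × ℕ × List ℕ) :=
  []

/-- nodes 0 to 0 -/
noncomputable def hN6_148_0 : List HM :=
  [.base (.leafM k0 [k0,k1,k4,k5] [] [(k2,k3,z1,[z1]),(k3,k2,z1,[z1])])]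

theorem hB6_148_0 : blkB [0, 0, 1, 0, 1, 1] [(2, 3), (2, 4)] sp6 hS6_148 (pcls (n := 6) [0, 0, 1, 0, 1, 1]) hD6_148 1 0 hN6_148_0 = true := by
  decide +kernel

/-- equations of the nodes for the classes `0 0 1 0 1 1`, active pairs `2-3 3-4` -/
noncomputable def hD6_149 : List (List (List Eqn)) :=
  [[[]]]

/-- symmetries -/
noncomputable def hS6_149 : List (Bool × ℕ × List ℕ) :=
  []

/-- nodes 0 to 0 -/
noncomputable def hN6_149_0 : List HM :=
  [.base (.leafM k0 [k0,k1,k4,k5] [] [(k2,k3,z1,[z1]),(k3,k2,z1,[z1])])]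

theorem hB6_149_0 : blkB [0, 0, 1, 0, 1, 1] [(2, 3), (3, 4)] sp6 hS6_149 (pcls (n := 6) [0, 0, 1, 0, 1, 1]) hD6_149 1 0 hN6_149_0 = true := by
  decide +kernel

/-- equations of the nodes for the classes `0 0 1 0 1 1`, active pairs `2-4` -/
noncomputable def hD6_150 : List (List (List Eqn)) :=
  [[[]]]

/-- symmetries -/
noncomputable def hS6_150 : List (Bool × ℕ × List ℕ) :=
  []

/-- nodes 0 to 0 -/
noncomputable def hN6_150_0 : List HM :=
  [.base (.leafM k1 [k5,k0,k1,k3] [] [(k2,k4,z1,[z1]),(k4,k2,z1,[z1])])]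

theorem hB6_150_0 : blkB [0, 0, 1, 0, 1, 1] [(2, 4)] sp6 hS6_150 (pcls (n := 6) [0, 0, 1, 0, 1, 1]) hD6_150 1 0 hN6_150_0 = true := by
  decide +kernel

/-- equations of the nodes for the classes `0 1 0 1 0 1`, active pairs `0-1` -/
noncomputable def hD6_152 : List (List (List Eqn)) :=
  [[[]]]

/-- symmetries -/
noncomputable def hS6_152 : List (Bool × ℕ × List ℕ) :=
  []

/-- nodes 0 to 0 -/
noncomputable def hN6_152_0 : List HM :=
  [.base (.leafM k0 [k2,k3,k4,k5] [] [(k0,k1,z1,[z1]),(k1,k0,z1,[z1])])]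

theorem hB6_152_0 : blkB [0, 1, 0, 1, 0, 1] [(0, 1)] sp6 hS6_152 (pcls (n := 6) [0, 1, 0, 1, 0, 1]) hD6_152 1 0 hN6_152_0 = true := by
  decide +kernel

/-- equations of the nodes for the classes `0 1 0 1 0 1`, active pairs `0-1 0-2` -/
noncomputable def hD6_153 : List (List (List Eqn)) :=
  [[[]]]

/-- symmetries -/
noncomputable def hS6_153 : List (Bool × ℕ × List ℕ) :=
  []

/-- nodes 0 to 0 -/
noncomputable def hN6_153_0 : List HM :=
  [.base (.leafM k0 [k2,k3,k4,k5] [] [(k0,k1,z1,[z1]),(k1,k0,z1,[z1])])]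

theorem hB6_153_0 : blkB [0, 1, 0, 1, 0, 1] [(0, 1), (0, 2)] sp6 hS6_153 (pcls (n := 6) [0, 1, 0, 1, 0, 1]) hD6_153 1 0 hN6_153_0 = true := by
  decide +kernel

/-- equations of the nodes for the classes `0 1 0 1 0 1`, active pairs `0-1 0-2 0-3` -/
noncomputable def hD6_154 : List (List (List Eqn)) :=
  [[[]]]

/-- symmetries -/
noncomputable def hS6_154 : List (Bool × ℕ × List ℕ) :=
  []

/-- nodes 0 to 0 -/
noncomputable def hN6_154_0 : List HM :=
  [.base (.leafM k0 [k2,k3,k4,k5] [] [(k0,k1,z1,[z1]),(k1,k0,z1,[z1])])]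

theorem hB6_154_0 : blkB [0, 1, 0, 1, 0, 1] [(0, 1), (0, 2), (0, 3)] sp6 hS6_154 (pcls (n := 6) [0, 1, 0, 1, 0, 1]) hD6_154 1 0 hN6_154_0 = true := by
  decide +kernel

/-- equations of the nodes for the classes `0 1 0 1 0 1`, active pairs `0-1 0-2 0-3 0-4` -/
noncomputable def hD6_155 : List (List (List Eqn)) :=
  [[[]]]

/-- symmetries -/
noncomputable def hS6_155 : List (Bool × ℕ × List ℕ) :=
  []

/-- nodes 0 to 0 -/
noncomputable def hN6_155_0 : List HM :=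
  [.base (.leafM k0 [k2,k3,k4,k5] [] [(k0,k1,z1,[z1]),(k1,k0,z1,[z1])])]

theorem hB6_155_0 : blkB [0, 1, 0, 1, 0, 1] [(0, 1), (0, 2), (0, 3), (0, 4)] sp6 hS6_155 (pcls (n := 6) [0, 1, 0, 1, 0, 1]) hD6_155 1 0 hN6_155_0 = true := by
  decide +kernel

/-- equations of the nodes for the classes `0 1 0 1 0 1`, active pairs `0-1 0-2 0-3 0-4 0-5` -/
noncomputable def hD6_156 : List (List (List Eqn)) :=
  [[[]]]

/-- symmetries -/
noncomputable def hS6_156 : List (Bool × ℕ × List ℕ) :=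
  []

/-- nodes 0 to 0 -/
noncomputable def hN6_156_0 : List HM :=
  [.base (.leafM k0 [k2,k3,k4,k5] [] [(k0,k1,z1,[z1]),(k1,k0,z1,[z1])])]

theorem hB6_156_0 : blkB [0, 1, 0, 1, 0, 1] [(0, 1), (0, 2), (0, 3), (0, 4), (0, 5)] sp6 hS6_156 (pcls (n := 6) [0, 1, 0, 1, 0, 1]) hD6_156 1 0 hN6_156_0 = true := by
  decide +kernel

/-- equations of the nodes for the classes `0 1 0 1 0 1`, active pairs `0-1 0-2 0-3 0-5` -/
noncomputable def hD6_157 : List (List (List Eqn)) :=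
  [[[]]]

/-- symmetries -/
noncomputable def hS6_157 : List (Bool × ℕ × List ℕ) :=
  []

/-- nodes 0 to 0 -/
noncomputable def hN6_157_0 : List HM :=
  [.base (.leafM k0 [k2,k3,k4,k5] [] [(k0,k1,z1,[z1]),(k1,k0,z1,[z1])])]

theorem hB6_157_0 : blkB [0, 1, 0, 1, 0, 1] [(0, 1), (0, 2), (0, 3), (0, 5)] sp6 hS6_157 (pcls (n := 6) [0, 1, 0, 1, 0, 1]) hD6_157 1 0 hN6_157_0 = true := by
  decide +kernel

/-- equations of the nodes for the classes `0 1 0 1 0 1`, active pairs `0-1 0-2 0-4` -/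
noncomputable def hD6_158 : List (List (List Eqn)) :=
  [[[]]]

/-- symmetries -/
noncomputable def hS6_158 : List (Bool × ℕ × List ℕ) :=
  []

/-- nodes 0 to 0 -/
noncomputable def hN6_158_0 : List HM :=
  [.base (.leafM k0 [k2,k3,k4,k5] [] [(k0,k1,z1,[z1]),(k1,k0,z1,[z1])])]

theorem hB6_158_0 : blkB [0, 1, 0, 1, 0, 1] [(0, 1), (0, 2), (0, 4)] sp6 hS6_158 (pcls (n := 6) [0, 1, 0, 1, 0, 1]) hD6_158 1 0 hN6_158_0 = true := by
  decide +kernel

/-- equations of the nodes for the classes `0 1 0 1 0 1`, active pairs `0-1 0-2 0-4 0-5` -/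
noncomputable def hD6_159 : List (List (List Eqn)) :=
  [[[]]]

/-- symmetries -/
noncomputable def hS6_159 : List (Bool × ℕ × List ℕ) :=
  []

/-- nodes 0 to 0 -/
noncomputable def hN6_159_0 : List HM :=
  [.base (.leafM k0 [k2,k3,k4,k5] [] [(k0,k1,z1,[z1]),(k1,k0,z1,[z1])])]

theorem hB6_159_0 : blkB [0, 1, 0, 1, 0, 1] [(0, 1), (0, 2), (0, 4), (0, 5)] sp6 hS6_159 (pcls (n := 6) [0, 1, 0, 1, 0, 1]) hD6_159 1 0 hN6_159_0 = true := by
  decide +kernel

/-- equations of the nodes for the classes `0 1 0 1 0 1`, active pairs `0-1 0-2 0-5` -/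
noncomputable def hD6_160 : List (List (List Eqn)) :=
  [[[]]]

/-- symmetries -/
noncomputable def hS6_160 : List (Bool × ℕ × List ℕ) :=
  []

/-- nodes 0 to 0 -/
noncomputable def hN6_160_0 : List HM :=
  [.base (.leafM k0 [k2,k3,k4,k5] [] [(k0,k1,z1,[z1]),(k1,k0,z1,[z1])])]

theorem hB6_160_0 : blkB [0, 1, 0, 1, 0, 1] [(0, 1), (0, 2), (0, 5)] sp6 hS6_160 (pcls (n := 6) [0, 1, 0, 1, 0, 1]) hD6_160 1 0 hN6_160_0 = true := by
  decide +kernel

/-- equations of the nodes for the classes `0 1 0 1 0 1`, active pairs `0-1 0-3` -/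
noncomputable def hD6_161 : List (List (List Eqn)) :=
  [[[]]]

/-- symmetries -/
noncomputable def hS6_161 : List (Bool × ℕ × List ℕ) :=
  []

/-- nodes 0 to 0 -/
noncomputable def hN6_161_0 : List HM :=
  [.base (.leafM k0 [k2,k3,k4,k5] [] [(k0,k1,z1,[z1]),(k1,k0,z1,[z1])])]

theorem hB6_161_0 : blkB [0, 1, 0, 1, 0, 1] [(0, 1), (0, 3)] sp6 hS6_161 (pcls (n := 6) [0, 1, 0, 1, 0, 1]) hD6_161 1 0 hN6_161_0 = true := by
  decide +kernel

/-- equations of the nodes for the classes `0 1 0 1 0 1`, active pairs `0-1 0-3 0-4` -/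
noncomputable def hD6_162 : List (List (List Eqn)) :=
  [[[]]]

/-- symmetries -/
noncomputable def hS6_162 : List (Bool × ℕ × List ℕ) :=
  []

/-- nodes 0 to 0 -/
noncomputable def hN6_162_0 : List HM :=
  [.base (.leafM k0 [k2,k3,k4,k5] [] [(k0,k1,z1,[z1]),(k1,k0,z1,[z1])])]

theorem hB6_162_0 : blkB [0, 1, 0, 1, 0, 1] [(0, 1), (0, 3), (0, 4)] sp6 hS6_162 (pcls (n := 6) [0, 1, 0, 1, 0, 1]) hD6_162 1 0 hN6_162_0 = true := by
  decide +kernel

/-- equations of the nodes for the classes `0 1 0 1 0 1`, active pairs `0-1 0-3 0-5` -/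
noncomputable def hD6_163 : List (List (List Eqn)) :=
  [[[]]]

/-- symmetries -/
noncomputable def hS6_163 : List (Bool × ℕ × List ℕ) :=
  []

/-- nodes 0 to 0 -/
noncomputable def hN6_163_0 : List HM :=
  [.base (.leafM k0 [k2,k3,k4,k5] [] [(k0,k1,z1,[z1]),(k1,k0,z1,[z1])])]

theorem hB6_163_0 : blkB [0, 1, 0, 1, 0, 1] [(0, 1), (0, 3), (0, 5)] sp6 hS6_163 (pcls (n := 6) [0, 1, 0, 1, 0, 1]) hD6_163 1 0 hN6_163_0 = true := by
  decide +kernel

/-- equations of the nodes for the classes `0 1 0 1 0 1`, active pairs `0-1 0-4` -/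
noncomputable def hD6_164 : List (List (List Eqn)) :=
  [[[]]]

/-- symmetries -/
noncomputable def hS6_164 : List (Bool × ℕ × List ℕ) :=
  []

/-- nodes 0 to 0 -/
noncomputable def hN6_164_0 : List HM :=
  [.base (.leafM k0 [k2,k3,k4,k5] [] [(k0,k1,z1,[z1]),(k1,k0,z1,[z1])])]

theorem hB6_164_0 : blkB [0, 1, 0, 1, 0, 1] [(0, 1), (0, 4)] sp6 hS6_164 (pcls (n := 6) [0, 1, 0, 1, 0, 1]) hD6_164 1 0 hN6_164_0 = true := by
  decide +kernel

/-- equations of the nodes for the classes `0 1 0 1 0 1`, active pairs `0-1 0-5` -/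
noncomputable def hD6_165 : List (List (List Eqn)) :=
  [[[]]]

/-- symmetries -/
noncomputable def hS6_165 : List (Bool × ℕ × List ℕ) :=
  []

/-- nodes 0 to 0 -/
noncomputable def hN6_165_0 : List HM :=
  [.base (.leafM k0 [k2,k3,k4,k5] [] [(k0,k1,z1,[z1]),(k1,k0,z1,[z1])])]

theorem hB6_165_0 : blkB [0, 1, 0, 1, 0, 1] [(0, 1), (0, 5)] sp6 hS6_165 (pcls (n := 6) [0, 1, 0, 1, 0, 1]) hD6_165 1 0 hN6_165_0 = true := by
  decide +kernel

/-- equations of the nodes for the classes `0 1 0 1 0 1`, active pairs `0-2` -/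
noncomputable def hD6_166 : List (List (List Eqn)) :=
  [[[]]]

/-- symmetries -/
noncomputable def hS6_166 : List (Bool × ℕ × List ℕ) :=
  []

/-- nodes 0 to 0 -/
noncomputable def hN6_166_0 : List HM :=
  [.base (.leafM k1 [k3,k4,k5,k1] [] [(k0,k2,z1,[z1]),(k2,k0,z1,[z1])])]

theorem hB6_166_0 : blkB [0, 1, 0, 1, 0, 1] [(0, 2)] sp6 hS6_166 (pcls (n := 6) [0, 1, 0, 1, 0, 1]) hD6_166 1 0 hN6_166_0 = true := by
  decide +kernel

/-- equations of the nodes for the classes `0 1 0 1 0 1`, active pairs `0-2 0-3` -/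
noncomputable def hD6_167 : List (List (List Eqn)) :=
  [[[]]]

/-- symmetries -/
noncomputable def hS6_167 : List (Bool × ℕ × List ℕ) :=
  []

/-- nodes 0 to 0 -/
noncomputable def hN6_167_0 : List HM :=
  [.base (.leafM k1 [k3,k4,k5,k1] [] [(k0,k2,z1,[z1]),(k2,k0,z1,[z1])])]

theorem hB6_167_0 : blkB [0, 1, 0, 1, 0, 1] [(0, 2), (0, 3)] sp6 hS6_167 (pcls (n := 6) [0, 1, 0, 1, 0, 1]) hD6_167 1 0 hN6_167_0 = true := by
  decide +kernel

/-- equations of the nodes for the classes `0 1 0 1 0 1`, active pairs `0-2 0-3 0-4` -/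
noncomputable def hD6_168 : List (List (List Eqn)) :=
  [[[]]]

/-- symmetries -/
noncomputable def hS6_168 : List (Bool × ℕ × List ℕ) :=
  []

/-- nodes 0 to 0 -/
noncomputable def hN6_168_0 : List HM :=
  [.base (.leafM k1 [k3,k4,k5,k1] [] [(k0,k2,z1,[z1]),(k2,k0,z1,[z1])])]

theorem hB6_168_0 : blkB [0, 1, 0, 1, 0, 1] [(0, 2), (0, 3), (0, 4)] sp6 hS6_168 (pcls (n := 6) [0, 1, 0, 1, 0, 1]) hD6_168 1 0 hN6_168_0 = true := by
  decide +kernel

/-- equations of the nodes for the classes `0 1 0 1 0 1`, active pairs `0-2 0-4` -/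
noncomputable def hD6_169 : List (List (List Eqn)) :=
  [[[]]]

/-- symmetries -/
noncomputable def hS6_169 : List (Bool × ℕ × List ℕ) :=
  []

/-- nodes 0 to 0 -/
noncomputable def hN6_169_0 : List HM :=
  [.base (.leafM k1 [k3,k4,k5,k1] [] [(k0,k2,z1,[z1]),(k2,k0,z1,[z1])])]

theorem hB6_169_0 : blkB [0, 1, 0, 1, 0, 1] [(0, 2), (0, 4)] sp6 hS6_169 (pcls (n := 6) [0, 1, 0, 1, 0, 1]) hD6_169 1 0 hN6_169_0 = true := by
  decide +kernel

/-- equations of the nodes for the classes `0 0 0 0 0 0`, active pairs `0-1` -/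
noncomputable def hD6_172 : List (List (List Eqn)) :=
  [[[]]]

/-- symmetries -/
noncomputable def hS6_172 : List (Bool × ℕ × List ℕ) :=
  []

/-- nodes 0 to 0 -/
noncomputable def hN6_172_0 : List HM :=
  [.base (.leafM k0 [k2,k3,k4,k5] [] [(k0,k1,z1,[z1]),(k1,k0,z1,[z1])])]

theorem hB6_172_0 : blkB [0, 0, 0, 0, 0, 0] [(0, 1)] sp6 hS6_172 (pcls (n := 6) [0, 0, 0, 0, 0, 0]) hD6_172 1 0 hN6_172_0 = true := by
  decide +kernel

/-- equations of the nodes for the classes `0 0 0 0 0 0`, active pairs `0-1 0-2` -/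
noncomputable def hD6_173 : List (List (List Eqn)) :=
  [[[]]]

/-- symmetries -/
noncomputable def hS6_173 : List (Bool × ℕ × List ℕ) :=
  []

/-- nodes 0 to 0 -/
noncomputable def hN6_173_0 : List HM :=
  [.base (.leafM k0 [k2,k3,k4,k5] [] [(k0,k1,z1,[z1]),(k1,k0,z1,[z1])])]

theorem hB6_173_0 : blkB [0, 0, 0, 0, 0, 0] [(0, 1), (0, 2)] sp6 hS6_173 (pcls (n := 6) [0, 0, 0, 0, 0, 0]) hD6_173 1 0 hN6_173_0 = true := by
  decide +kernel

/-- equations of the nodes for the classes `0 0 0 0 0 0`, active pairs `0-1 0-2 0-3` -/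
noncomputable def hD6_174 : List (List (List Eqn)) :=
  [[[]]]

/-- symmetries -/
noncomputable def hS6_174 : List (Bool × ℕ × List ℕ) :=
  []

/-- nodes 0 to 0 -/
noncomputable def hN6_174_0 : List HM :=
  [.base (.leafM k0 [k2,k3,k4,k5] [] [(k0,k1,z1,[z1]),(k1,k0,z1,[z1])])]

theorem hB6_174_0 : blkB [0, 0, 0, 0, 0, 0] [(0, 1), (0, 2), (0, 3)] sp6 hS6_174 (pcls (n := 6) [0, 0, 0, 0, 0, 0]) hD6_174 1 0 hN6_174_0 = true := by
  decide +kernel

/-- equations of the nodes for the classes `0 0 0 0 0 0`, active pairs `0-1 0-2 0-3 0-4` -/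
noncomputable def hD6_175 : List (List (List Eqn)) :=
  [[[]]]

/-- symmetries -/
noncomputable def hS6_175 : List (Bool × ℕ × List ℕ) :=
  []

/-- nodes 0 to 0 -/
noncomputable def hN6_175_0 : List HM :=
  [.base (.leafM k0 [k2,k3,k4,k5] [] [(k0,k1,z1,[z1]),(k1,k0,z1,[z1])])]

theorem hB6_175_0 : blkB [0, 0, 0, 0, 0, 0] [(0, 1), (0, 2), (0, 3), (0, 4)] sp6 hS6_175 (pcls (n := 6) [0, 0, 0, 0, 0, 0]) hD6_175 1 0 hN6_175_0 = true := by
  decide +kernel

/-- equations of the nodes for the classes `0 0 0 0 0 0`, active pairs `0-1 0-2 0-3 0-4 0-5` -/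
noncomputable def hD6_176 : List (List (List Eqn)) :=
  [[[]]]

/-- symmetries -/
noncomputable def hS6_176 : List (Bool × ℕ × List ℕ) :=
  []

/-- nodes 0 to 0 -/
noncomputable def hN6_176_0 : List HM :=
  [.base (.leafM k0 [k2,k3,k4,k5] [] [(k0,k1,z1,[z1]),(k1,k0,z1,[z1])])]

theorem hB6_176_0 : blkB [0, 0, 0, 0, 0, 0] [(0, 1), (0, 2), (0, 3), (0, 4), (0, 5)] sp6 hS6_176 (pcls (n := 6) [0, 0, 0, 0, 0, 0]) hD6_176 1 0 hN6_176_0 = true := by
  decide +kernel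

/-- equations of the nodes for the classes `0 0 0 0 0 0`, active pairs `0-1 0-2 0-3 0-5` -/
noncomputable def hD6_177 : List (List (List Eqn)) :=
  [[[]]]

/-- symmetries -/
noncomputable def hS6_177 : List (Bool × ℕ × List ℕ) :=
  []

/-- nodes 0 to 0 -/
noncomputable def hN6_177_0 : List HM :=
  [.base (.leafM k0 [k2,k3,k4,k5] [] [(k0,k1,z1,[z1]),(k1,k0,z1,[z1])])]

theorem hB6_177_0 : blkB [0, 0, 0, 0, 0, 0] [(0, 1), (0, 2), (0, 3), (0, 5)] sp6 hS6_177 (pcls (n := 6) [0, 0, 0, 0, 0, 0]) hD6_177 1 0 hN6_177_0 = true := by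
  decide +kernel

end Pool.Agent.Lib_MP_fa6e45
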