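import Pool.Agent.Lib_MP_fa6e45.HK

/-!
MP_fa6e45_co, stage 4: certificates (captain, generated by a program).
-/

namespace Pool.Agent.Lib_MP_fa6e45

/-- equations of the nodes for the classes `0 0 0 0 0 0`, active pairs `0-1 0-2 0-4` -/
noncomputable def hD6_178 : List (List (List Eqn)) :=
  [[[]]]

/-- symmetries -/
noncomputable def hS6_178 : List (Bool × ℕ × List ℕ) :=
  []

/-- nodes 0 to 0 -/
noncomputable def hN6_178_0 : List HM :=
  [.base (.leafM k0 [k2,k3,k4,k5] [] [(k0,k1,z1,[z1]),(k1,k0,z1,[z1])])]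

theorem hB6_178_0 : blkB [0, 0, 0, 0, 0, 0] [(0, 1), (0, 2), (0, 4)] sp6 hS6_178 (pcls (n := 6) [0, 0, 0, 0, 0, 0]) hD6_178 1 0 hN6_178_0 = true := by
  decide +kernel

/-- equations of the nodes for the classes `0 0 0 0 0 0`, active pairs `0-1 0-2 0-4 0-5` -/
noncomputable def hD6_179 : List (List (List Eqn)) :=
  [[[]]]

/-- symmetries -/
noncomputable def hS6_179 : List (Bool × ℕ × List ℕ) :=
  []

/-- nodes 0 to 0 -/
noncomputable def hN6_179_0 : List HM :=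
  [.base (.leafM k0 [k2,k3,k4,k5] [] [(k0,k1,z1,[z1]),(k1,k0,z1,[z1])])]

theorem hB6_179_0 : blkB [0, 0, 0, 0, 0, 0] [(0, 1), (0, 2), (0, 4), (0, 5)] sp6 hS6_179 (pcls (n := 6) [0, 0, 0, 0, 0, 0]) hD6_179 1 0 hN6_179_0 = true := by
  decide +kernel

/-- equations of the nodes for the classes `0 0 0 0 0 0`, active pairs `0-1 0-2 0-5` -/
noncomputable def hD6_180 : List (List (List Eqn)) :=
  [[[]]]

/-- symmetries -/
noncomputable def hS6_180 : List (Bool × ℕ × List ℕ) :=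
  []

/-- nodes 0 to 0 -/
noncomputable def hN6_180_0 : List HM :=
  [.base (.leafM k0 [k2,k3,k4,k5] [] [(k0,k1,z1,[z1]),(k1,k0,z1,[z1])])]

theorem hB6_180_0 : blkB [0, 0, 0, 0, 0, 0] [(0, 1), (0, 2), (0, 5)] sp6 hS6_180 (pcls (n := 6) [0, 0, 0, 0, 0, 0]) hD6_180 1 0 hN6_180_0 = true := by
  decide +kernel

/-- equations of the nodes for the classes `0 0 0 0 0 0`, active pairs `0-1 0-3` -/
noncomputable def hD6_181 : List (List (List Eqn)) :=
  [[[]]]

/-- symmetries -/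
noncomputable def hS6_181 : List (Bool × ℕ × List ℕ) :=
  []

/-- nodes 0 to 0 -/
noncomputable def hN6_181_0 : List HM :=
  [.base (.leafM k0 [k2,k3,k4,k5] [] [(k0,k1,z1,[z1]),(k1,k0,z1,[z1])])]

theorem hB6_181_0 : blkB [0, 0, 0, 0, 0, 0] [(0, 1), (0, 3)] sp6 hS6_181 (pcls (n := 6) [0, 0, 0, 0, 0, 0]) hD6_181 1 0 hN6_181_0 = true := by
  decide +kernel

/-- equations of the nodes for the classes `0 0 0 0 0 0`, active pairs `0-1 0-3 0-4` -/
noncomputable def hD6_182 : List (List (List Eqn)) :=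
  [[[]]]

/-- symmetries -/
noncomputable def hS6_182 : List (Bool × ℕ × List ℕ) :=
  []

/-- nodes 0 to 0 -/
noncomputable def hN6_182_0 : List HM :=
  [.base (.leafM k0 [k2,k3,k4,k5] [] [(k0,k1,z1,[z1]),(k1,k0,z1,[z1])])]

theorem hB6_182_0 : blkB [0, 0, 0, 0, 0, 0] [(0, 1), (0, 3), (0, 4)] sp6 hS6_182 (pcls (n := 6) [0, 0, 0, 0, 0, 0]) hD6_182 1 0 hN6_182_0 = true := by
  decide +kernel

/-- equations of the nodes for the classes `0 0 0 0 0 0`, active pairs `0-1 0-3 0-5` -/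
noncomputable def hD6_183 : List (List (List Eqn)) :=
  [[[]]]

/-- symmetries -/
noncomputable def hS6_183 : List (Bool × ℕ × List ℕ) :=
  []

/-- nodes 0 to 0 -/
noncomputable def hN6_183_0 : List HM :=
  [.base (.leafM k0 [k2,k3,k4,k5] [] [(k0,k1,z1,[z1]),(k1,k0,z1,[z1])])]

theorem hB6_183_0 : blkB [0, 0, 0, 0, 0, 0] [(0, 1), (0, 3), (0, 5)] sp6 hS6_183 (pcls (n := 6) [0, 0, 0, 0, 0, 0]) hD6_183 1 0 hN6_183_0 = true := by
  decide +kernel

/-- equations of the nodes for the classes `0 0 0 0 0 0`, active pairs `0-1 0-4` -/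
noncomputable def hD6_184 : List (List (List Eqn)) :=
  [[[]]]

/-- symmetries -/
noncomputable def hS6_184 : List (Bool × ℕ × List ℕ) :=
  []

/-- nodes 0 to 0 -/
noncomputable def hN6_184_0 : List HM :=
  [.base (.leafM k0 [k2,k3,k4,k5] [] [(k0,k1,z1,[z1]),(k1,k0,z1,[z1])])]

theorem hB6_184_0 : blkB [0, 0, 0, 0, 0, 0] [(0, 1), (0, 4)] sp6 hS6_184 (pcls (n := 6) [0, 0, 0, 0, 0, 0]) hD6_184 1 0 hN6_184_0 = true := by
  decide +kernel

/-- equations of the nodes for the classes `0 0 0 0 0 0`, active pairs `0-1 0-5` -/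
noncomputable def hD6_185 : List (List (List Eqn)) :=
  [[[]]]

/-- symmetries -/
noncomputable def hS6_185 : List (Bool × ℕ × List ℕ) :=
  []

/-- nodes 0 to 0 -/
noncomputable def hN6_185_0 : List HM :=
  [.base (.leafM k0 [k2,k3,k4,k5] [] [(k0,k1,z1,[z1]),(k1,k0,z1,[z1])])]

theorem hB6_185_0 : blkB [0, 0, 0, 0, 0, 0] [(0, 1), (0, 5)] sp6 hS6_185 (pcls (n := 6) [0, 0, 0, 0, 0, 0]) hD6_185 1 0 hN6_185_0 = true := by
  decide +kernel

/-- equations of the nodes for the classes `0 0 0 0 0 0`, active pairs `0-2` -/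
noncomputable def hD6_186 : List (List (List Eqn)) :=
  [[[]]]

/-- symmetries -/
noncomputable def hS6_186 : List (Bool × ℕ × List ℕ) :=
  []

/-- nodes 0 to 0 -/
noncomputable def hN6_186_0 : List HM :=
  [.base (.leafM k1 [k3,k4,k5,k1] [] [(k0,k2,z1,[z1]),(k2,k0,z1,[z1])])]

theorem hB6_186_0 : blkB [0, 0, 0, 0, 0, 0] [(0, 2)] sp6 hS6_186 (pcls (n := 6) [0, 0, 0, 0, 0, 0]) hD6_186 1 0 hN6_186_0 = true := by
  decide +kernel

/-- equations of the nodes for the classes `0 0 0 0 0 0`, active pairs `0-2 0-3` -/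
noncomputable def hD6_187 : List (List (List Eqn)) :=
  [[[]]]

/-- symmetries -/
noncomputable def hS6_187 : List (Bool × ℕ × List ℕ) :=
  []

/-- nodes 0 to 0 -/
noncomputable def hN6_187_0 : List HM :=
  [.base (.leafM k1 [k3,k4,k5,k1] [] [(k0,k2,z1,[z1]),(k2,k0,z1,[z1])])]

theorem hB6_187_0 : blkB [0, 0, 0, 0, 0, 0] [(0, 2), (0, 3)] sp6 hS6_187 (pcls (n := 6) [0, 0, 0, 0, 0, 0]) hD6_187 1 0 hN6_187_0 = true := by
  decide +kernel

/-- equations of the nodes for the classes `0 0 0 0 0 0`, active pairs `0-2 0-3 0-4` -/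
noncomputable def hD6_188 : List (List (List Eqn)) :=
  [[[]]]

/-- symmetries -/
noncomputable def hS6_188 : List (Bool × ℕ × List ℕ) :=
  []

/-- nodes 0 to 0 -/
noncomputable def hN6_188_0 : List HM :=
  [.base (.leafM k1 [k3,k4,k5,k1] [] [(k0,k2,z1,[z1]),(k2,k0,z1,[z1])])]

theorem hB6_188_0 : blkB [0, 0, 0, 0, 0, 0] [(0, 2), (0, 3), (0, 4)] sp6 hS6_188 (pcls (n := 6) [0, 0, 0, 0, 0, 0]) hD6_188 1 0 hN6_188_0 = true := by
  decide +kernel

/-- equations of the nodes for the classes `0 0 0 0 0 0`, active pairs `0-2 0-4` -/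
noncomputable def hD6_189 : List (List (List Eqn)) :=
  [[[]]]

/-- symmetries -/
noncomputable def hS6_189 : List (Bool × ℕ × List ℕ) :=
  []

/-- nodes 0 to 0 -/
noncomputable def hN6_189_0 : List HM :=
  [.base (.leafM k1 [k3,k4,k5,k1] [] [(k0,k2,z1,[z1]),(k2,k0,z1,[z1])])]

theorem hB6_189_0 : blkB [0, 0, 0, 0, 0, 0] [(0, 2), (0, 4)] sp6 hS6_189 (pcls (n := 6) [0, 0, 0, 0, 0, 0]) hD6_189 1 0 hN6_189_0 = true := by
  decide +kernel

/-- equations of the nodes for the classes `0 0 0 0 0 0`, active pairs `0-3` -/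
noncomputable def hD6_190 : List (List (List Eqn)) :=
  [[[]]]

/-- symmetries -/
noncomputable def hS6_190 : List (Bool × ℕ × List ℕ) :=
  []

/-- nodes 0 to 0 -/
noncomputable def hN6_190_0 : List HM :=
  [.base (.leafM k2 [k1,k2,k4,k5] [] [(k3,k0,z1,[z1]),(k0,k3,z1,[z1])])]

theorem hB6_190_0 : blkB [0, 0, 0, 0, 0, 0] [(0, 3)] sp6 hS6_190 (pcls (n := 6) [0, 0, 0, 0, 0, 0]) hD6_190 1 0 hN6_190_0 = true := by
  decide +kernel

end Pool.Agent.Lib_MP_fa6e45
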