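import Pool.Agent.Lib_MP_fa6e45.HF1
import Pool.Agent.Lib_MP_fa6e45.HG00
import Pool.Agent.Lib_MP_fa6e45.HG01
import Pool.Agent.Lib_MP_fa6e45.HG02
import Pool.Agent.Lib_MP_fa6e45.HG03
import Pool.Agent.Lib_MP_fa6e45.HG04
import Pool.Agent.Lib_MP_fa6e45.HG05
import Pool.Agent.Lib_MP_fa6e45.HG06
import Pool.Agent.Lib_MP_fa6e45.HG07
import Pool.Agent.Lib_MP_fa6e45.HG08
import Pool.Agent.Lib_MP_fa6e45.HG09
import Pool.Agent.Lib_MP_fa6e45.HG10
import Pool.Agent.Lib_MP_fa6e45.HG11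
import Pool.Agent.Lib_MP_fa6e45.HG12
import Pool.Agent.Lib_MP_fa6e45.HG13
import Pool.Agent.Lib_MP_fa6e45.HG14
import Pool.Agent.Lib_MP_fa6e45.HG15
import Pool.Agent.Lib_MP_fa6e45.HG16
import Pool.Agent.Lib_MP_fa6e45.HG17
import Pool.Agent.Lib_MP_fa6e45.HG18
import Pool.Agent.Lib_MP_fa6e45.HG19
import Pool.Agent.Lib_MP_fa6e45.HG20
import Pool.Agent.Lib_MP_fa6e45.HG21
import Pool.Agent.Lib_MP_fa6e45.HG22
import Pool.Agent.Lib_MP_fa6e45.HG23
import Pool.Agent.Lib_MP_fa6e45.HG24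
import Pool.Agent.Lib_MP_fa6e45.HG25
import Pool.Agent.Lib_MP_fa6e45.HG26
import Pool.Agent.Lib_MP_fa6e45.HG27
import Pool.Agent.Lib_MP_fa6e45.HG28
import Pool.Agent.Lib_MP_fa6e45.HG29
import Pool.Agent.Lib_MP_fa6e45.HG30
import Pool.Agent.Lib_MP_fa6e45.HG31
import Pool.Agent.Lib_MP_fa6e45.HG32
import Pool.Agent.Lib_MP_fa6e45.HG33
import Pool.Agent.Lib_MP_fa6e45.HG34

/-!
MP_fa6e45_co, stage 4: all certificates (captain, generated by a program).
-/

namespace Pool.Agent.Lib_MP_fa6e45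

/-- the certificate for the classes `0 1 2 3 4`, active pairs `` -/
theorem hC5_0 (hsp : ∀ T ∈ sp5, T.OK 5) : ∀ P : Polygon 5, Sit (pcls [0, 1, 2, 3, 4]) [] P → HasPeriodic P := by
  refine cert_blk (sp := sp5) (sy := hS5_0) (D := hD5_0) (N := 1)
    (Ns := [hN5_0_0]) hsp (by decide) (by decide +kernel) ?_ (by norm_num) (by decide) (by decide +kernel)
  intro b hb
  change b < 1 at hb
  obtain rfl : b = 0 := by omega
  exact hB5_0_0

/-- the certificate for the classes `0 0 1 2 3`, active pairs `` -/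
theorem hC5_1 (hsp : ∀ T ∈ sp5, T.OK 5) : ∀ P : Polygon 5, Sit (pcls [0, 0, 1, 2, 3]) [] P → HasPeriodic P := by
  refine cert_blk (sp := sp5) (sy := hS5_1) (D := hD5_1) (N := 3)
    (Ns := [hN5_1_0]) hsp (by decide) (by decide +kernel) ?_ (by norm_num) (by decide) (by decide +kernel)
  intro b hb
  change b < 1 at hb
  obtain rfl : b = 0 := by omega
  exact hB5_1_0

/-- the certificate for the classes `0 1 0 2 3`, active pairs `` -/
theorem hC5_2 (hsp : ∀ T ∈ sp5, T.OK 5) : ∀ P : Polygon 5, Sit (pcls [0, 1, 0, 2, 3]) [] P → HasPeriodic P := by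
  refine cert_blk (sp := sp5) (sy := hS5_2) (D := hD5_2) (N := 2)
    (Ns := [hN5_2_0]) hsp (by decide) (by decide +kernel) ?_ (by norm_num) (by decide) (by decide +kernel)
  intro b hb
  change b < 1 at hb
  obtain rfl : b = 0 := by omega
  exact hB5_2_0

/-- the certificate for the classes `0 1 0 2 3`, active pairs `1-2` -/
theorem hC5_3 (hsp : ∀ T ∈ sp5, T.OK 5) : ∀ P : Polygon 5, Sit (pcls [0, 1, 0, 2, 3]) [(1, 2)] P → HasPeriodic P := by
  refine cert_blk (sp := sp5) (sy := hS5_3) (D := hD5_3) (N := 1)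
    (Ns := [hN5_3_0]) hsp (by decide) (by decide +kernel) ?_ (by norm_num) (by decide) (by decide +kernel)
  intro b hb
  change b < 1 at hb
  obtain rfl : b = 0 := by omega
  exact hB5_3_0

/-- the certificate for the classes `0 0 0 1 2`, active pairs `` -/
theorem hC5_4 (hsp : ∀ T ∈ sp5, T.OK 5) : ∀ P : Polygon 5, Sit (pcls [0, 0, 0, 1, 2]) [] P → HasPeriodic P := by
  refine cert_blk (sp := sp5) (sy := hS5_4) (D := hD5_4) (N := 28)
    (Ns := [hN5_4_0, hN5_4_1, hN5_4_2]) hsp (by decide) (by decide +kernel) ?_ (by norm_num) (by decide) (by decide +kernel)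
  intro b hb
  change b < 3 at hb
  interval_cases b
  · exact hB5_4_0
  · exact hB5_4_1
  · exact hB5_4_2

/-- the certificate for the classes `0 0 0 1 2`, active pairs `1-2` -/
theorem hC5_5 (hsp : ∀ T ∈ sp5, T.OK 5) : ∀ P : Polygon 5, Sit (pcls [0, 0, 0, 1, 2]) [(1, 2)] P → HasPeriodic P := by
  refine cert_blk (sp := sp5) (sy := hS5_5) (D := hD5_5) (N := 1)
    (Ns := [hN5_5_0]) hsp (by decide) (by decide +kernel) ?_ (by norm_num) (by decide) (by decide +kernel)
  intro b hb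
  change b < 1 at hb
  obtain rfl : b = 0 := by omega
  exact hB5_5_0

/-- the certificate for the classes `0 0 1 0 2`, active pairs `` -/
theorem hC5_6 (hsp : ∀ T ∈ sp5, T.OK 5) : ∀ P : Polygon 5, Sit (pcls [0, 0, 1, 0, 2]) [] P → HasPeriodic P := by
  refine cert_blk (sp := sp5) (sy := hS5_6) (D := hD5_6) (N := 6)
    (Ns := [hN5_6_0]) hsp (by decide) (by decide +kernel) ?_ (by norm_num) (by decide) (by decide +kernel)
  intro b hb
  change b < 1 at hb
  obtain rfl : b = 0 := by omega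
  exact hB5_6_0

/-- the certificate for the classes `0 0 1 0 2`, active pairs `0-4` -/
theorem hC5_7 (hsp : ∀ T ∈ sp5, T.OK 5) : ∀ P : Polygon 5, Sit (pcls [0, 0, 1, 0, 2]) [(0, 4)] P → HasPeriodic P := by
  refine cert_blk (sp := sp5) (sy := hS5_7) (D := hD5_7) (N := 1)
    (Ns := [hN5_7_0]) hsp (by decide) (by decide +kernel) ?_ (by norm_num) (by decide) (by decide +kernel)
  intro b hb
  change b < 1 at hb
  obtain rfl : b = 0 := by omega
  exact hB5_7_0

/-- the certificate for the classes `0 0 1 1 2`, active pairs `` -/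
theorem hC5_8 (hsp : ∀ T ∈ sp5, T.OK 5) : ∀ P : Polygon 5, Sit (pcls [0, 0, 1, 1, 2]) [] P → HasPeriodic P := by
  refine cert_blk (sp := sp5) (sy := hS5_8) (D := hD5_8) (N := 19)
    (Ns := [hN5_8_0, hN5_8_1]) hsp (by decide) (by decide +kernel) ?_ (by norm_num) (by decide) (by decide +kernel)
  intro b hb
  change b < 2 at hb
  interval_cases b
  · exact hB5_8_0
  · exact hB5_8_1

/-- the certificate for the classes `0 0 1 2 1`, active pairs `` -/
theorem hC5_9 (hsp : ∀ T ∈ sp5, T.OK 5) : ∀ P : Polygon 5, Sit (pcls [0, 0, 1, 2, 1]) [] P → HasPeriodic P := by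
  refine cert_blk (sp := sp5) (sy := hS5_9) (D := hD5_9) (N := 4)
    (Ns := [hN5_9_0]) hsp (by decide) (by decide +kernel) ?_ (by norm_num) (by decide) (by decide +kernel)
  intro b hb
  change b < 1 at hb
  obtain rfl : b = 0 := by omega
  exact hB5_9_0

/-- the certificate for the classes `0 0 1 2 1`, active pairs `0-2` -/
theorem hC5_10 (hsp : ∀ T ∈ sp5, T.OK 5) : ∀ P : Polygon 5, Sit (pcls [0, 0, 1, 2, 1]) [(0, 2)] P → HasPeriodic P := by
  refine cert_blk (sp := sp5) (sy := hS5_10) (D := hD5_10) (N := 10)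
    (Ns := [hN5_10_0]) hsp (by decide) (by decide +kernel) ?_ (by norm_num) (by decide) (by decide +kernel)
  intro b hb
  change b < 1 at hb
  obtain rfl : b = 0 := by omega
  exact hB5_10_0

/-- the certificate for the classes `0 0 1 2 1`, active pairs `3-4` -/
theorem hC5_11 (hsp : ∀ T ∈ sp5, T.OK 5) : ∀ P : Polygon 5, Sit (pcls [0, 0, 1, 2, 1]) [(3, 4)] P → HasPeriodic P := by
  refine cert_blk (sp := sp5) (sy := hS5_11) (D := hD5_11) (N := 1)
    (Ns := [hN5_11_0]) hsp (by decide) (by decide +kernel) ?_ (by norm_num) (by decide) (by decide +kernel)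
  intro b hb
  change b < 1 at hb
  obtain rfl : b = 0 := by omega
  exact hB5_11_0

/-- the certificate for the classes `0 1 0 1 2`, active pairs `` -/
theorem hC5_12 (hsp : ∀ T ∈ sp5, T.OK 5) : ∀ P : Polygon 5, Sit (pcls [0, 1, 0, 1, 2]) [] P → HasPeriodic P := by
  refine cert_blk (sp := sp5) (sy := hS5_12) (D := hD5_12) (N := 3)
    (Ns := [hN5_12_0]) hsp (by decide) (by decide +kernel) ?_ (by norm_num) (by decide) (by decide +kernel)
  intro b hb
  change b < 1 at hb
  obtain rfl : b = 0 := by omega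
  exact hB5_12_0

/-- the certificate for the classes `0 1 0 1 2`, active pairs `1-2` -/
theorem hC5_13 (hsp : ∀ T ∈ sp5, T.OK 5) : ∀ P : Polygon 5, Sit (pcls [0, 1, 0, 1, 2]) [(1, 2)] P → HasPeriodic P := by
  refine cert_blk (sp := sp5) (sy := hS5_13) (D := hD5_13) (N := 1)
    (Ns := [hN5_13_0]) hsp (by decide) (by decide +kernel) ?_ (by norm_num) (by decide) (by decide +kernel)
  intro b hb
  change b < 1 at hb
  obtain rfl : b = 0 := by omega
  exact hB5_13_0

/-- the certificate for the classes `0 1 0 1 2`, active pairs `1-2 1-3` -/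
theorem hC5_14 (hsp : ∀ T ∈ sp5, T.OK 5) : ∀ P : Polygon 5, Sit (pcls [0, 1, 0, 1, 2]) [(1, 2), (1, 3)] P → HasPeriodic P := by
  refine cert_blk (sp := sp5) (sy := hS5_14) (D := hD5_14) (N := 1)
    (Ns := [hN5_14_0]) hsp (by decide) (by decide +kernel) ?_ (by norm_num) (by decide) (by decide +kernel)
  intro b hb
  change b < 1 at hb
  obtain rfl : b = 0 := by omega
  exact hB5_14_0

/-- the certificate for the classes `0 1 0 1 2`, active pairs `1-2 2-3` -/
theorem hC5_15 (hsp : ∀ T ∈ sp5, T.OK 5) : ∀ P : Polygon 5, Sit (pcls [0, 1, 0, 1, 2]) [(1, 2), (2, 3)] P → HasPeriodic P := by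
  refine cert_blk (sp := sp5) (sy := hS5_15) (D := hD5_15) (N := 1)
    (Ns := [hN5_15_0]) hsp (by decide) (by decide +kernel) ?_ (by norm_num) (by decide) (by decide +kernel)
  intro b hb
  change b < 1 at hb
  obtain rfl : b = 0 := by omega
  exact hB5_15_0

/-- the certificate for the classes `0 1 0 1 2`, active pairs `1-3` -/
theorem hC5_16 (hsp : ∀ T ∈ sp5, T.OK 5) : ∀ P : Polygon 5, Sit (pcls [0, 1, 0, 1, 2]) [(1, 3)] P → HasPeriodic P := by
  refine cert_blk (sp := sp5) (sy := hS5_16) (D := hD5_16) (N := 1)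
    (Ns := [hN5_16_0]) hsp (by decide) (by decide +kernel) ?_ (by norm_num) (by decide) (by decide +kernel)
  intro b hb
  change b < 1 at hb
  obtain rfl : b = 0 := by omega
  exact hB5_16_0

/-- the certificate for the classes `0 0 0 0 1`, active pairs `` -/
theorem hC5_17 (hsp : ∀ T ∈ sp5, T.OK 5) : ∀ P : Polygon 5, Sit (pcls [0, 0, 0, 0, 1]) [] P → HasPeriodic P := by
  refine cert_blk (sp := sp5) (sy := hS5_17) (D := hD5_17) (N := 162)
    (Ns := [hN5_17_0, hN5_17_1, hN5_17_2, hN5_17_3, hN5_17_4, hN5_17_5, hN5_17_6, hN5_17_7, hN5_17_8, hN5_17_9, hN5_17_10, hN5_17_11, hN5_17_12, hN5_17_13]) hsp (by decide) (by decide +kernel) ?_ (by norm_num) (by decide) (by decide +kernel)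
  intro b hb
  change b < 14 at hb
  interval_cases b
  · exact hB5_17_0
  · exact hB5_17_1
  · exact hB5_17_2
  · exact hB5_17_3
  · exact hB5_17_4
  · exact hB5_17_5
  · exact hB5_17_6
  · exact hB5_17_7
  · exact hB5_17_8
  · exact hB5_17_9
  · exact hB5_17_10
  · exact hB5_17_11
  · exact hB5_17_12
  · exact hB5_17_13

/-- the certificate for the classes `0 0 0 0 1`, active pairs `0-4` -/
theorem hC5_18 (hsp : ∀ T ∈ sp5, T.OK 5) : ∀ P : Polygon 5, Sit (pcls [0, 0, 0, 0, 1]) [(0, 4)] P → HasPeriodic P := by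
  refine cert_blk (sp := sp5) (sy := hS5_18) (D := hD5_18) (N := 1)
    (Ns := [hN5_18_0]) hsp (by decide) (by decide +kernel) ?_ (by norm_num) (by decide) (by decide +kernel)
  intro b hb
  change b < 1 at hb
  obtain rfl : b = 0 := by omega
  exact hB5_18_0

/-- the certificate for the classes `0 0 0 0 1`, active pairs `1-2` -/
theorem hC5_19 (hsp : ∀ T ∈ sp5, T.OK 5) : ∀ P : Polygon 5, Sit (pcls [0, 0, 0, 0, 1]) [(1, 2)] P → HasPeriodic P := by
  refine cert_blk (sp := sp5) (sy := hS5_19) (D := hD5_19) (N := 1)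
    (Ns := [hN5_19_0]) hsp (by decide) (by decide +kernel) ?_ (by norm_num) (by decide) (by decide +kernel)
  intro b hb
  change b < 1 at hb
  obtain rfl : b = 0 := by omega
  exact hB5_19_0

/-- the certificate for the classes `0 0 0 0 1`, active pairs `1-2 1-3` -/
theorem hC5_20 (hsp : ∀ T ∈ sp5, T.OK 5) : ∀ P : Polygon 5, Sit (pcls [0, 0, 0, 0, 1]) [(1, 2), (1, 3)] P → HasPeriodic P := by
  refine cert_blk (sp := sp5) (sy := hS5_20) (D := hD5_20) (N := 1)
    (Ns := [hN5_20_0]) hsp (by decide) (by decide +kernel) ?_ (by norm_num) (by decide) (by decide +kernel)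
  intro b hb
  change b < 1 at hb
  obtain rfl : b = 0 := by omega
  exact hB5_20_0

/-- the certificate for the classes `0 0 0 0 1`, active pairs `1-2 2-3` -/
theorem hC5_21 (hsp : ∀ T ∈ sp5, T.OK 5) : ∀ P : Polygon 5, Sit (pcls [0, 0, 0, 0, 1]) [(1, 2), (2, 3)] P → HasPeriodic P := by
  refine cert_blk (sp := sp5) (sy := hS5_21) (D := hD5_21) (N := 1)
    (Ns := [hN5_21_0]) hsp (by decide) (by decide +kernel) ?_ (by norm_num) (by decide) (by decide +kernel)
  intro b hb
  change b < 1 at hb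
  obtain rfl : b = 0 := by omega
  exact hB5_21_0

/-- the certificate for the classes `0 0 0 0 1`, active pairs `1-3` -/
theorem hC5_22 (hsp : ∀ T ∈ sp5, T.OK 5) : ∀ P : Polygon 5, Sit (pcls [0, 0, 0, 0, 1]) [(1, 3)] P → HasPeriodic P := by
  refine cert_blk (sp := sp5) (sy := hS5_22) (D := hD5_22) (N := 1)
    (Ns := [hN5_22_0]) hsp (by decide) (by decide +kernel) ?_ (by norm_num) (by decide) (by decide +kernel)
  intro b hb
  change b < 1 at hb
  obtain rfl : b = 0 := by omega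
  exact hB5_22_0

/-- the certificate for the classes `0 0 0 1 1`, active pairs `` -/
theorem hC5_23 (hsp : ∀ T ∈ sp5, T.OK 5) : ∀ P : Polygon 5, Sit (pcls [0, 0, 0, 1, 1]) [] P → HasPeriodic P := by
  refine cert_blk (sp := sp5) (sy := hS5_23) (D := hD5_23) (N := 141)
    (Ns := [hN5_23_0, hN5_23_1, hN5_23_2, hN5_23_3, hN5_23_4, hN5_23_5, hN5_23_6, hN5_23_7, hN5_23_8, hN5_23_9, hN5_23_10, hN5_23_11]) hsp (by decide) (by decide +kernel) ?_ (by norm_num) (by decide) (by decide +kernel)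
  intro b hb
  change b < 12 at hb
  interval_cases b
  · exact hB5_23_0
  · exact hB5_23_1
  · exact hB5_23_2
  · exact hB5_23_3
  · exact hB5_23_4
  · exact hB5_23_5
  · exact hB5_23_6
  · exact hB5_23_7
  · exact hB5_23_8
  · exact hB5_23_9
  · exact hB5_23_10
  · exact hB5_23_11

/-- the certificate for the classes `0 0 0 1 1`, active pairs `0-3` -/
theorem hC5_24 (hsp : ∀ T ∈ sp5, T.OK 5) : ∀ P : Polygon 5, Sit (pcls [0, 0, 0, 1, 1]) [(0, 3)] P → HasPeriodic P := by
  refine cert_blk (sp := sp5) (sy := hS5_24) (D := hD5_24) (N := 10)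
    (Ns := [hN5_24_0]) hsp (by decide) (by decide +kernel) ?_ (by norm_num) (by decide) (by decide +kernel)
  intro b hb
  change b < 1 at hb
  obtain rfl : b = 0 := by omega
  exact hB5_24_0

/-- the certificate for the classes `0 0 0 1 1`, active pairs `1-2` -/
theorem hC5_25 (hsp : ∀ T ∈ sp5, T.OK 5) : ∀ P : Polygon 5, Sit (pcls [0, 0, 0, 1, 1]) [(1, 2)] P → HasPeriodic P := by
  refine cert_blk (sp := sp5) (sy := hS5_25) (D := hD5_25) (N := 1)
    (Ns := [hN5_25_0]) hsp (by decide) (by decide +kernel) ?_ (by norm_num) (by decide) (by decide +kernel)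
  intro b hb
  change b < 1 at hb
  obtain rfl : b = 0 := by omega
  exact hB5_25_0

/-- the certificate for the classes `0 0 1 0 1`, active pairs `` -/
theorem hC5_26 (hsp : ∀ T ∈ sp5, T.OK 5) : ∀ P : Polygon 5, Sit (pcls [0, 0, 1, 0, 1]) [] P → HasPeriodic P := by
  refine cert_blk (sp := sp5) (sy := hS5_26) (D := hD5_26) (N := 10)
    (Ns := [hN5_26_0]) hsp (by decide) (by decide +kernel) ?_ (by norm_num) (by decide) (by decide +kernel)
  intro b hb
  change b < 1 at hb
  obtain rfl : b = 0 := by omega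
  exact hB5_26_0

/-- the certificate for the classes `0 0 1 0 1`, active pairs `0-2` -/
theorem hC5_27 (hsp : ∀ T ∈ sp5, T.OK 5) : ∀ P : Polygon 5, Sit (pcls [0, 0, 1, 0, 1]) [(0, 2)] P → HasPeriodic P := by
  refine cert_blk (sp := sp5) (sy := hS5_27) (D := hD5_27) (N := 46)
    (Ns := [hN5_27_0, hN5_27_1, hN5_27_2, hN5_27_3]) hsp (by decide) (by decide +kernel) ?_ (by norm_num) (by decide) (by decide +kernel)
  intro b hb
  change b < 4 at hb
  interval_cases b
  · exact hB5_27_0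
  · exact hB5_27_1
  · exact hB5_27_2
  · exact hB5_27_3

/-- the certificate for the classes `0 0 1 0 1`, active pairs `0-2 0-3` -/
theorem hC5_28 (hsp : ∀ T ∈ sp5, T.OK 5) : ∀ P : Polygon 5, Sit (pcls [0, 0, 1, 0, 1]) [(0, 2), (0, 3)] P → HasPeriodic P := by
  refine cert_blk (sp := sp5) (sy := hS5_28) (D := hD5_28) (N := 1)
    (Ns := [hN5_28_0]) hsp (by decide) (by decide +kernel) ?_ (by norm_num) (by decide) (by decide +kernel)
  intro b hb
  change b < 1 at hb
  obtain rfl : b = 0 := by omega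
  exact hB5_28_0

/-- the certificate for the classes `0 0 1 0 1`, active pairs `0-2 0-3 0-4` -/
theorem hC5_29 (hsp : ∀ T ∈ sp5, T.OK 5) : ∀ P : Polygon 5, Sit (pcls [0, 0, 1, 0, 1]) [(0, 2), (0, 3), (0, 4)] P → HasPeriodic P := by
  refine cert_blk (sp := sp5) (sy := hS5_29) (D := hD5_29) (N := 1)
    (Ns := [hN5_29_0]) hsp (by decide) (by decide +kernel) ?_ (by norm_num) (by decide) (by decide +kernel)
  intro b hb
  change b < 1 at hb
  obtain rfl : b = 0 := by omega
  exact hB5_29_0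

/-- the certificate for the classes `0 0 1 0 1`, active pairs `0-2 0-4` -/
theorem hC5_30 (hsp : ∀ T ∈ sp5, T.OK 5) : ∀ P : Polygon 5, Sit (pcls [0, 0, 1, 0, 1]) [(0, 2), (0, 4)] P → HasPeriodic P := by
  refine cert_blk (sp := sp5) (sy := hS5_30) (D := hD5_30) (N := 1)
    (Ns := [hN5_30_0]) hsp (by decide) (by decide +kernel) ?_ (by norm_num) (by decide) (by decide +kernel)
  intro b hb
  change b < 1 at hb
  obtain rfl : b = 0 := by omega
  exact hB5_30_0

/-- the certificate for the classes `0 0 1 0 1`, active pairs `0-3` -/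
theorem hC5_31 (hsp : ∀ T ∈ sp5, T.OK 5) : ∀ P : Polygon 5, Sit (pcls [0, 0, 1, 0, 1]) [(0, 3)] P → HasPeriodic P := by
  refine cert_blk (sp := sp5) (sy := hS5_31) (D := hD5_31) (N := 1)
    (Ns := [hN5_31_0]) hsp (by decide) (by decide +kernel) ?_ (by norm_num) (by decide) (by decide +kernel)
  intro b hb
  change b < 1 at hb
  obtain rfl : b = 0 := by omega
  exact hB5_31_0

/-- the certificate for the classes `0 0 1 0 1`, active pairs `0-3 0-4` -/
theorem hC5_32 (hsp : ∀ T ∈ sp5, T.OK 5) : ∀ P : Polygon 5, Sit (pcls [0, 0, 1, 0, 1]) [(0, 3), (0, 4)] P → HasPeriodic P := by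
  refine cert_blk (sp := sp5) (sy := hS5_32) (D := hD5_32) (N := 1)
    (Ns := [hN5_32_0]) hsp (by decide) (by decide +kernel) ?_ (by norm_num) (by decide) (by decide +kernel)
  intro b hb
  change b < 1 at hb
  obtain rfl : b = 0 := by omega
  exact hB5_32_0

/-- the certificate for the classes `0 0 1 0 1`, active pairs `0-3 2-3` -/
theorem hC5_33 (hsp : ∀ T ∈ sp5, T.OK 5) : ∀ P : Polygon 5, Sit (pcls [0, 0, 1, 0, 1]) [(0, 3), (2, 3)] P → HasPeriodic P := by
  refine cert_blk (sp := sp5) (sy := hS5_33) (D := hD5_33) (N := 1)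
    (Ns := [hN5_33_0]) hsp (by decide) (by decide +kernel) ?_ (by norm_num) (by decide) (by decide +kernel)
  intro b hb
  change b < 1 at hb
  obtain rfl : b = 0 := by omega
  exact hB5_33_0

/-- the certificate for the classes `0 0 1 0 1`, active pairs `0-3 2-3 3-4` -/
theorem hC5_34 (hsp : ∀ T ∈ sp5, T.OK 5) : ∀ P : Polygon 5, Sit (pcls [0, 0, 1, 0, 1]) [(0, 3), (2, 3), (3, 4)] P → HasPeriodic P := by
  refine cert_blk (sp := sp5) (sy := hS5_34) (D := hD5_34) (N := 1)
    (Ns := [hN5_34_0]) hsp (by decide) (by decide +kernel) ?_ (by norm_num) (by decide) (by decide +kernel)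
  intro b hb
  change b < 1 at hb
  obtain rfl : b = 0 := by omega
  exact hB5_34_0

/-- the certificate for the classes `0 0 1 0 1`, active pairs `0-3 3-4` -/
theorem hC5_35 (hsp : ∀ T ∈ sp5, T.OK 5) : ∀ P : Polygon 5, Sit (pcls [0, 0, 1, 0, 1]) [(0, 3), (3, 4)] P → HasPeriodic P := by
  refine cert_blk (sp := sp5) (sy := hS5_35) (D := hD5_35) (N := 1)
    (Ns := [hN5_35_0]) hsp (by decide) (by decide +kernel) ?_ (by norm_num) (by decide) (by decide +kernel)
  intro b hb
  change b < 1 at hb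
  obtain rfl : b = 0 := by omega
  exact hB5_35_0

/-- the certificate for the classes `0 0 1 0 1`, active pairs `0-4` -/
theorem hC5_36 (hsp : ∀ T ∈ sp5, T.OK 5) : ∀ P : Polygon 5, Sit (pcls [0, 0, 1, 0, 1]) [(0, 4)] P → HasPeriodic P := by
  refine cert_blk (sp := sp5) (sy := hS5_36) (D := hD5_36) (N := 1)
    (Ns := [hN5_36_0]) hsp (by decide) (by decide +kernel) ?_ (by norm_num) (by decide) (by decide +kernel)
  intro b hb
  change b < 1 at hb
  obtain rfl : b = 0 := by omega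
  exact hB5_36_0

/-- the certificate for the classes `0 0 1 0 1`, active pairs `0-4 3-4` -/
theorem hC5_37 (hsp : ∀ T ∈ sp5, T.OK 5) : ∀ P : Polygon 5, Sit (pcls [0, 0, 1, 0, 1]) [(0, 4), (3, 4)] P → HasPeriodic P := by
  refine cert_blk (sp := sp5) (sy := hS5_37) (D := hD5_37) (N := 1)
    (Ns := [hN5_37_0]) hsp (by decide) (by decide +kernel) ?_ (by norm_num) (by decide) (by decide +kernel)
  intro b hb
  change b < 1 at hb
  obtain rfl : b = 0 := by omega
  exact hB5_37_0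

/-- the certificate for the classes `0 0 1 0 1`, active pairs `3-4` -/
theorem hC5_38 (hsp : ∀ T ∈ sp5, T.OK 5) : ∀ P : Polygon 5, Sit (pcls [0, 0, 1, 0, 1]) [(3, 4)] P → HasPeriodic P := by
  refine cert_blk (sp := sp5) (sy := hS5_38) (D := hD5_38) (N := 1)
    (Ns := [hN5_38_0]) hsp (by decide) (by decide +kernel) ?_ (by norm_num) (by decide) (by decide +kernel)
  intro b hb
  change b < 1 at hb
  obtain rfl : b = 0 := by omega
  exact hB5_38_0

/-- the certificate for the classes `0 0 0 0 0`, active pairs `` -/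
theorem hC5_39 (hsp : ∀ T ∈ sp5, T.OK 5) : ∀ P : Polygon 5, Sit (pcls [0, 0, 0, 0, 0]) [] P → HasPeriodic P := by
  refine cert_blk (sp := sp5) (sy := hS5_39) (D := hD5_39) (N := 186)
    (Ns := [hN5_39_0, hN5_39_1, hN5_39_2, hN5_39_3, hN5_39_4, hN5_39_5, hN5_39_6, hN5_39_7, hN5_39_8, hN5_39_9, hN5_39_10, hN5_39_11, hN5_39_12, hN5_39_13, hN5_39_14, hN5_39_15]) hsp (by decide) (by decide +kernel) ?_ (by norm_num) (by decide) (by decide +kernel)
  intro b hb
  change b < 16 at hb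
  interval_cases b
  · exact hB5_39_0
  · exact hB5_39_1
  · exact hB5_39_2
  · exact hB5_39_3
  · exact hB5_39_4
  · exact hB5_39_5
  · exact hB5_39_6
  · exact hB5_39_7
  · exact hB5_39_8
  · exact hB5_39_9
  · exact hB5_39_10
  · exact hB5_39_11
  · exact hB5_39_12
  · exact hB5_39_13
  · exact hB5_39_14
  · exact hB5_39_15

/-- the certificate for the classes `0 0 0 0 0`, active pairs `0-1` -/
theorem hC5_40 (hsp : ∀ T ∈ sp5, T.OK 5) : ∀ P : Polygon 5, Sit (pcls [0, 0, 0, 0, 0]) [(0, 1)] P → HasPeriodic P := by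
  refine cert_blk (sp := sp5) (sy := hS5_40) (D := hD5_40) (N := 1)
    (Ns := [hN5_40_0]) hsp (by decide) (by decide +kernel) ?_ (by norm_num) (by decide) (by decide +kernel)
  intro b hb
  change b < 1 at hb
  obtain rfl : b = 0 := by omega
  exact hB5_40_0

/-- the certificate for the classes `0 0 0 0 0`, active pairs `0-1 0-2` -/
theorem hC5_41 (hsp : ∀ T ∈ sp5, T.OK 5) : ∀ P : Polygon 5, Sit (pcls [0, 0, 0, 0, 0]) [(0, 1), (0, 2)] P → HasPeriodic P := by
  refine cert_blk (sp := sp5) (sy := hS5_41) (D := hD5_41) (N := 1)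
    (Ns := [hN5_41_0]) hsp (by decide) (by decide +kernel) ?_ (by norm_num) (by decide) (by decide +kernel)
  intro b hb
  change b < 1 at hb
  obtain rfl : b = 0 := by omega
  exact hB5_41_0

/-- the certificate for the classes `0 0 0 0 0`, active pairs `0-1 0-2 0-3` -/
theorem hC5_42 (hsp : ∀ T ∈ sp5, T.OK 5) : ∀ P : Polygon 5, Sit (pcls [0, 0, 0, 0, 0]) [(0, 1), (0, 2), (0, 3)] P → HasPeriodic P := by
  refine cert_blk (sp := sp5) (sy := hS5_42) (D := hD5_42) (N := 1)
    (Ns := [hN5_42_0]) hsp (by decide) (by decide +kernel) ?_ (by norm_num) (by decide) (by decide +kernel)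
  intro b hb
  change b < 1 at hb
  obtain rfl : b = 0 := by omega
  exact hB5_42_0

/-- the certificate for the classes `0 0 0 0 0`, active pairs `0-1 0-2 0-3 0-4` -/
theorem hC5_43 (hsp : ∀ T ∈ sp5, T.OK 5) : ∀ P : Polygon 5, Sit (pcls [0, 0, 0, 0, 0]) [(0, 1), (0, 2), (0, 3), (0, 4)] P → HasPeriodic P := by
  refine cert_blk (sp := sp5) (sy := hS5_43) (D := hD5_43) (N := 1)
    (Ns := [hN5_43_0]) hsp (by decide) (by decide +kernel) ?_ (by norm_num) (by decide) (by decide +kernel)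
  intro b hb
  change b < 1 at hb
  obtain rfl : b = 0 := by omega
  exact hB5_43_0

/-- the certificate for the classes `0 0 0 0 0`, active pairs `0-1 0-2 0-4` -/
theorem hC5_44 (hsp : ∀ T ∈ sp5, T.OK 5) : ∀ P : Polygon 5, Sit (pcls [0, 0, 0, 0, 0]) [(0, 1), (0, 2), (0, 4)] P → HasPeriodic P := by
  refine cert_blk (sp := sp5) (sy := hS5_44) (D := hD5_44) (N := 1)
    (Ns := [hN5_44_0]) hsp (by decide) (by decide +kernel) ?_ (by norm_num) (by decide) (by decide +kernel)
  intro b hb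
  change b < 1 at hb
  obtain rfl : b = 0 := by omega
  exact hB5_44_0

/-- the certificate for the classes `0 0 0 0 0`, active pairs `0-1 0-3` -/
theorem hC5_45 (hsp : ∀ T ∈ sp5, T.OK 5) : ∀ P : Polygon 5, Sit (pcls [0, 0, 0, 0, 0]) [(0, 1), (0, 3)] P → HasPeriodic P := by
  refine cert_blk (sp := sp5) (sy := hS5_45) (D := hD5_45) (N := 1)
    (Ns := [hN5_45_0]) hsp (by decide) (by decide +kernel) ?_ (by norm_num) (by decide) (by decide +kernel)
  intro b hb
  change b < 1 at hb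
  obtain rfl : b = 0 := by omega
  exact hB5_45_0

/-- the certificate for the classes `0 0 0 0 0`, active pairs `0-1 0-4` -/
theorem hC5_46 (hsp : ∀ T ∈ sp5, T.OK 5) : ∀ P : Polygon 5, Sit (pcls [0, 0, 0, 0, 0]) [(0, 1), (0, 4)] P → HasPeriodic P := by
  refine cert_blk (sp := sp5) (sy := hS5_46) (D := hD5_46) (N := 1)
    (Ns := [hN5_46_0]) hsp (by decide) (by decide +kernel) ?_ (by norm_num) (by decide) (by decide +kernel)
  intro b hb
  change b < 1 at hb
  obtain rfl : b = 0 := by omega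
  exact hB5_46_0

/-- the certificate for the classes `0 0 0 0 0`, active pairs `0-2` -/
theorem hC5_47 (hsp : ∀ T ∈ sp5, T.OK 5) : ∀ P : Polygon 5, Sit (pcls [0, 0, 0, 0, 0]) [(0, 2)] P → HasPeriodic P := by
  refine cert_blk (sp := sp5) (sy := hS5_47) (D := hD5_47) (N := 1)
    (Ns := [hN5_47_0]) hsp (by decide) (by decide +kernel) ?_ (by norm_num) (by decide) (by decide +kernel)
  intro b hb
  change b < 1 at hb
  obtain rfl : b = 0 := by omega
  exact hB5_47_0

/-- the certificate for the classes `0 0 0 0 0`, active pairs `0-2 0-3` -/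
theorem hC5_48 (hsp : ∀ T ∈ sp5, T.OK 5) : ∀ P : Polygon 5, Sit (pcls [0, 0, 0, 0, 0]) [(0, 2), (0, 3)] P → HasPeriodic P := by
  refine cert_blk (sp := sp5) (sy := hS5_48) (D := hD5_48) (N := 1)
    (Ns := [hN5_48_0]) hsp (by decide) (by decide +kernel) ?_ (by norm_num) (by decide) (by decide +kernel)
  intro b hb
  change b < 1 at hb
  obtain rfl : b = 0 := by omega
  exact hB5_48_0

/-- the certificate for the classes `0 1 2 3 4 5`, active pairs `` -/
theorem hC6_0 (hsp : ∀ T ∈ sp6, T.OK 6) : ∀ P : Polygon 6, Sit (pcls [0, 1, 2, 3, 4, 5]) [] P → HasPeriodic P := by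
  refine cert_blk (sp := sp6) (sy := hS6_0) (D := hD6_0) (N := 1)
    (Ns := [hN6_0_0]) hsp (by decide) (by decide +kernel) ?_ (by norm_num) (by decide) (by decide +kernel)
  intro b hb
  change b < 1 at hb
  obtain rfl : b = 0 := by omega
  exact hB6_0_0

/-- the certificate for the classes `0 0 1 2 3 4`, active pairs `` -/
theorem hC6_1 (hsp : ∀ T ∈ sp6, T.OK 6) : ∀ P : Polygon 6, Sit (pcls [0, 0, 1, 2, 3, 4]) [] P → HasPeriodic P := by
  refine cert_blk (sp := sp6) (sy := hS6_1) (D := hD6_1) (N := 1)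
    (Ns := [hN6_1_0]) hsp (by decide) (by decide +kernel) ?_ (by norm_num) (by decide) (by decide +kernel)
  intro b hb
  change b < 1 at hb
  obtain rfl : b = 0 := by omega
  exact hB6_1_0

/-- the certificate for the classes `0 1 0 2 3 4`, active pairs `` -/
theorem hC6_2 (hsp : ∀ T ∈ sp6, T.OK 6) : ∀ P : Polygon 6, Sit (pcls [0, 1, 0, 2, 3, 4]) [] P → HasPeriodic P := by
  refine cert_blk (sp := sp6) (sy := hS6_2) (D := hD6_2) (N := 1)
    (Ns := [hN6_2_0]) hsp (by decide) (by decide +kernel) ?_ (by norm_num) (by decide) (by decide +kernel)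
  intro b hb
  change b < 1 at hb
  obtain rfl : b = 0 := by omega
  exact hB6_2_0

/-- the certificate for the classes `0 1 0 2 3 4`, active pairs `1-2` -/
theorem hC6_3 (hsp : ∀ T ∈ sp6, T.OK 6) : ∀ P : Polygon 6, Sit (pcls [0, 1, 0, 2, 3, 4]) [(1, 2)] P → HasPeriodic P := by
  refine cert_blk (sp := sp6) (sy := hS6_3) (D := hD6_3) (N := 1)
    (Ns := [hN6_3_0]) hsp (by decide) (by decide +kernel) ?_ (by norm_num) (by decide) (by decide +kernel)
  intro b hb
  change b < 1 at hb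
  obtain rfl : b = 0 := by omega
  exact hB6_3_0

/-- the certificate for the classes `0 1 2 0 3 4`, active pairs `` -/
theorem hC6_4 (hsp : ∀ T ∈ sp6, T.OK 6) : ∀ P : Polygon 6, Sit (pcls [0, 1, 2, 0, 3, 4]) [] P → HasPeriodic P := by
  refine cert_blk (sp := sp6) (sy := hS6_4) (D := hD6_4) (N := 2)
    (Ns := [hN6_4_0]) hsp (by decide) (by decide +kernel) ?_ (by norm_num) (by decide) (by decide +kernel)
  intro b hb
  change b < 1 at hb
  obtain rfl : b = 0 := by omega
  exact hB6_4_0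

/-- the certificate for the classes `0 0 0 1 2 3`, active pairs `` -/
theorem hC6_5 (hsp : ∀ T ∈ sp6, T.OK 6) : ∀ P : Polygon 6, Sit (pcls [0, 0, 0, 1, 2, 3]) [] P → HasPeriodic P := by
  refine cert_blk (sp := sp6) (sy := hS6_5) (D := hD6_5) (N := 1)
    (Ns := [hN6_5_0]) hsp (by decide) (by decide +kernel) ?_ (by norm_num) (by decide) (by decide +kernel)
  intro b hb
  change b < 1 at hb
  obtain rfl : b = 0 := by omega
  exact hB6_5_0

/-- the certificate for the classes `0 0 0 1 2 3`, active pairs `1-2` -/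
theorem hC6_6 (hsp : ∀ T ∈ sp6, T.OK 6) : ∀ P : Polygon 6, Sit (pcls [0, 0, 0, 1, 2, 3]) [(1, 2)] P → HasPeriodic P := by
  refine cert_blk (sp := sp6) (sy := hS6_6) (D := hD6_6) (N := 1)
    (Ns := [hN6_6_0]) hsp (by decide) (by decide +kernel) ?_ (by norm_num) (by decide) (by decide +kernel)
  intro b hb
  change b < 1 at hb
  obtain rfl : b = 0 := by omega
  exact hB6_6_0

/-- the certificate for the classes `0 0 1 0 2 3`, active pairs `` -/
theorem hC6_7 (hsp : ∀ T ∈ sp6, T.OK 6) : ∀ P : Polygon 6, Sit (pcls [0, 0, 1, 0, 2, 3]) [] P → HasPeriodic P := by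
  refine cert_blk (sp := sp6) (sy := hS6_7) (D := hD6_7) (N := 2)
    (Ns := [hN6_7_0]) hsp (by decide) (by decide +kernel) ?_ (by norm_num) (by decide) (by decide +kernel)
  intro b hb
  change b < 1 at hb
  obtain rfl : b = 0 := by omega
  exact hB6_7_0

/-- the certificate for the classes `0 0 1 0 2 3`, active pairs `2-3` -/
theorem hC6_8 (hsp : ∀ T ∈ sp6, T.OK 6) : ∀ P : Polygon 6, Sit (pcls [0, 0, 1, 0, 2, 3]) [(2, 3)] P → HasPeriodic P := by
  refine cert_blk (sp := sp6) (sy := hS6_8) (D := hD6_8) (N := 1)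
    (Ns := [hN6_8_0]) hsp (by decide) (by decide +kernel) ?_ (by norm_num) (by decide) (by decide +kernel)
  intro b hb
  change b < 1 at hb
  obtain rfl : b = 0 := by omega
  exact hB6_8_0

/-- the certificate for the classes `0 0 1 1 2 3`, active pairs `` -/
theorem hC6_9 (hsp : ∀ T ∈ sp6, T.OK 6) : ∀ P : Polygon 6, Sit (pcls [0, 0, 1, 1, 2, 3]) [] P → HasPeriodic P := by
  refine cert_blk (sp := sp6) (sy := hS6_9) (D := hD6_9) (N := 1)
    (Ns := [hN6_9_0]) hsp (by decide) (by decide +kernel) ?_ (by norm_num) (by decide) (by decide +kernel)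
  intro b hb
  change b < 1 at hb
  obtain rfl : b = 0 := by omega
  exact hB6_9_0

/-- the certificate for the classes `0 0 1 2 1 3`, active pairs `` -/
theorem hC6_10 (hsp : ∀ T ∈ sp6, T.OK 6) : ∀ P : Polygon 6, Sit (pcls [0, 0, 1, 2, 1, 3]) [] P → HasPeriodic P := by
  refine cert_blk (sp := sp6) (sy := hS6_10) (D := hD6_10) (N := 1)
    (Ns := [hN6_10_0]) hsp (by decide) (by decide +kernel) ?_ (by norm_num) (by decide) (by decide +kernel)
  intro b hb
  change b < 1 at hb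
  obtain rfl : b = 0 := by omega
  exact hB6_10_0

/-- the certificate for the classes `0 0 1 2 1 3`, active pairs `3-4` -/
theorem hC6_11 (hsp : ∀ T ∈ sp6, T.OK 6) : ∀ P : Polygon 6, Sit (pcls [0, 0, 1, 2, 1, 3]) [(3, 4)] P → HasPeriodic P := by
  refine cert_blk (sp := sp6) (sy := hS6_11) (D := hD6_11) (N := 1)
    (Ns := [hN6_11_0]) hsp (by decide) (by decide +kernel) ?_ (by norm_num) (by decide) (by decide +kernel)
  intro b hb
  change b < 1 at hb
  obtain rfl : b = 0 := by omega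
  exact hB6_11_0

/-- the certificate for the classes `0 0 1 2 2 3`, active pairs `` -/
theorem hC6_12 (hsp : ∀ T ∈ sp6, T.OK 6) : ∀ P : Polygon 6, Sit (pcls [0, 0, 1, 2, 2, 3]) [] P → HasPeriodic P := by
  refine cert_blk (sp := sp6) (sy := hS6_12) (D := hD6_12) (N := 4)
    (Ns := [hN6_12_0]) hsp (by decide) (by decide +kernel) ?_ (by norm_num) (by decide) (by decide +kernel)
  intro b hb
  change b < 1 at hb
  obtain rfl : b = 0 := by omega
  exact hB6_12_0

/-- the certificate for the classes `0 0 1 2 3 1`, active pairs `` -/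
theorem hC6_13 (hsp : ∀ T ∈ sp6, T.OK 6) : ∀ P : Polygon 6, Sit (pcls [0, 0, 1, 2, 3, 1]) [] P → HasPeriodic P := by
  refine cert_blk (sp := sp6) (sy := hS6_13) (D := hD6_13) (N := 2)
    (Ns := [hN6_13_0]) hsp (by decide) (by decide +kernel) ?_ (by norm_num) (by decide) (by decide +kernel)
  intro b hb
  change b < 1 at hb
  obtain rfl : b = 0 := by omega
  exact hB6_13_0

/-- the certificate for the classes `0 0 1 2 3 1`, active pairs `0-2` -/
theorem hC6_14 (hsp : ∀ T ∈ sp6, T.OK 6) : ∀ P : Polygon 6, Sit (pcls [0, 0, 1, 2, 3, 1]) [(0, 2)] P → HasPeriodic P := by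
  refine cert_blk (sp := sp6) (sy := hS6_14) (D := hD6_14) (N := 5)
    (Ns := [hN6_14_0]) hsp (by decide) (by decide +kernel) ?_ (by norm_num) (by decide) (by decide +kernel)
  intro b hb
  change b < 1 at hb
  obtain rfl : b = 0 := by omega
  exact hB6_14_0

/-- the certificate for the classes `0 1 0 1 2 3`, active pairs `` -/
theorem hC6_15 (hsp : ∀ T ∈ sp6, T.OK 6) : ∀ P : Polygon 6, Sit (pcls [0, 1, 0, 1, 2, 3]) [] P → HasPeriodic P := by
  refine cert_blk (sp := sp6) (sy := hS6_15) (D := hD6_15) (N := 1)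
    (Ns := [hN6_15_0]) hsp (by decide) (by decide +kernel) ?_ (by norm_num) (by decide) (by decide +kernel)
  intro b hb
  change b < 1 at hb
  obtain rfl : b = 0 := by omega
  exact hB6_15_0

/-- the certificate for the classes `0 1 0 1 2 3`, active pairs `1-2` -/
theorem hC6_16 (hsp : ∀ T ∈ sp6, T.OK 6) : ∀ P : Polygon 6, Sit (pcls [0, 1, 0, 1, 2, 3]) [(1, 2)] P → HasPeriodic P := by
  refine cert_blk (sp := sp6) (sy := hS6_16) (D := hD6_16) (N := 1)
    (Ns := [hN6_16_0]) hsp (by decide) (by decide +kernel) ?_ (by norm_num) (by decide) (by decide +kernel)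
  intro b hb
  change b < 1 at hb
  obtain rfl : b = 0 := by omega
  exact hB6_16_0

/-- the certificate for the classes `0 1 0 1 2 3`, active pairs `1-2 1-3` -/
theorem hC6_17 (hsp : ∀ T ∈ sp6, T.OK 6) : ∀ P : Polygon 6, Sit (pcls [0, 1, 0, 1, 2, 3]) [(1, 2), (1, 3)] P → HasPeriodic P := by
  refine cert_blk (sp := sp6) (sy := hS6_17) (D := hD6_17) (N := 1)
    (Ns := [hN6_17_0]) hsp (by decide) (by decide +kernel) ?_ (by norm_num) (by decide) (by decide +kernel)
  intro b hb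
  change b < 1 at hb
  obtain rfl : b = 0 := by omega
  exact hB6_17_0

/-- the certificate for the classes `0 1 0 1 2 3`, active pairs `1-2 2-3` -/
theorem hC6_18 (hsp : ∀ T ∈ sp6, T.OK 6) : ∀ P : Polygon 6, Sit (pcls [0, 1, 0, 1, 2, 3]) [(1, 2), (2, 3)] P → HasPeriodic P := by
  refine cert_blk (sp := sp6) (sy := hS6_18) (D := hD6_18) (N := 1)
    (Ns := [hN6_18_0]) hsp (by decide) (by decide +kernel) ?_ (by norm_num) (by decide) (by decide +kernel)
  intro b hb
  change b < 1 at hb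
  obtain rfl : b = 0 := by omega
  exact hB6_18_0

/-- the certificate for the classes `0 1 0 1 2 3`, active pairs `1-3` -/
theorem hC6_19 (hsp : ∀ T ∈ sp6, T.OK 6) : ∀ P : Polygon 6, Sit (pcls [0, 1, 0, 1, 2, 3]) [(1, 3)] P → HasPeriodic P := by
  refine cert_blk (sp := sp6) (sy := hS6_19) (D := hD6_19) (N := 1)
    (Ns := [hN6_19_0]) hsp (by decide) (by decide +kernel) ?_ (by norm_num) (by decide) (by decide +kernel)
  intro b hb
  change b < 1 at hb
  obtain rfl : b = 0 := by omega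
  exact hB6_19_0

/-- the certificate for the classes `0 1 0 2 0 3`, active pairs `` -/
theorem hC6_20 (hsp : ∀ T ∈ sp6, T.OK 6) : ∀ P : Polygon 6, Sit (pcls [0, 1, 0, 2, 0, 3]) [] P → HasPeriodic P := by
  refine cert_blk (sp := sp6) (sy := hS6_20) (D := hD6_20) (N := 1)
    (Ns := [hN6_20_0]) hsp (by decide) (by decide +kernel) ?_ (by norm_num) (by decide) (by decide +kernel)
  intro b hb
  change b < 1 at hb
  obtain rfl : b = 0 := by omega
  exact hB6_20_0

/-- the certificate for the classes `0 1 0 2 0 3`, active pairs `0-5` -/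
theorem hC6_21 (hsp : ∀ T ∈ sp6, T.OK 6) : ∀ P : Polygon 6, Sit (pcls [0, 1, 0, 2, 0, 3]) [(0, 5)] P → HasPeriodic P := by
  refine cert_blk (sp := sp6) (sy := hS6_21) (D := hD6_21) (N := 1)
    (Ns := [hN6_21_0]) hsp (by decide) (by decide +kernel) ?_ (by norm_num) (by decide) (by decide +kernel)
  intro b hb
  change b < 1 at hb
  obtain rfl : b = 0 := by omega
  exact hB6_21_0

/-- the certificate for the classes `0 1 0 2 1 3`, active pairs `` -/
theorem hC6_22 (hsp : ∀ T ∈ sp6, T.OK 6) : ∀ P : Polygon 6, Sit (pcls [0, 1, 0, 2, 1, 3]) [] P → HasPeriodic P := by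
  refine cert_blk (sp := sp6) (sy := hS6_22) (D := hD6_22) (N := 3)
    (Ns := [hN6_22_0]) hsp (by decide) (by decide +kernel) ?_ (by norm_num) (by decide) (by decide +kernel)
  intro b hb
  change b < 1 at hb
  obtain rfl : b = 0 := by omega
  exact hB6_22_0

/-- the certificate for the classes `0 1 0 2 1 3`, active pairs `1-2` -/
theorem hC6_23 (hsp : ∀ T ∈ sp6, T.OK 6) : ∀ P : Polygon 6, Sit (pcls [0, 1, 0, 2, 1, 3]) [(1, 2)] P → HasPeriodic P := by
  refine cert_blk (sp := sp6) (sy := hS6_23) (D := hD6_23) (N := 1)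
    (Ns := [hN6_23_0]) hsp (by decide) (by decide +kernel) ?_ (by norm_num) (by decide) (by decide +kernel)
  intro b hb
  change b < 1 at hb
  obtain rfl : b = 0 := by omega
  exact hB6_23_0

/-- the certificate for the classes `0 1 0 2 3 2`, active pairs `` -/
theorem hC6_24 (hsp : ∀ T ∈ sp6, T.OK 6) : ∀ P : Polygon 6, Sit (pcls [0, 1, 0, 2, 3, 2]) [] P → HasPeriodic P := by
  refine cert_blk (sp := sp6) (sy := hS6_24) (D := hD6_24) (N := 1)
    (Ns := [hN6_24_0]) hsp (by decide) (by decide +kernel) ?_ (by norm_num) (by decide) (by decide +kernel)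
  intro b hb
  change b < 1 at hb
  obtain rfl : b = 0 := by omega
  exact hB6_24_0

/-- the certificate for the classes `0 1 0 2 3 2`, active pairs `0-3` -/
theorem hC6_25 (hsp : ∀ T ∈ sp6, T.OK 6) : ∀ P : Polygon 6, Sit (pcls [0, 1, 0, 2, 3, 2]) [(0, 3)] P → HasPeriodic P := by
  refine cert_blk (sp := sp6) (sy := hS6_25) (D := hD6_25) (N := 2)
    (Ns := [hN6_25_0]) hsp (by decide) (by decide +kernel) ?_ (by norm_num) (by decide) (by decide +kernel)
  intro b hb
  change b < 1 at hb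
  obtain rfl : b = 0 := by omega
  exact hB6_25_0

/-- the certificate for the classes `0 1 0 2 3 2`, active pairs `1-2` -/
theorem hC6_26 (hsp : ∀ T ∈ sp6, T.OK 6) : ∀ P : Polygon 6, Sit (pcls [0, 1, 0, 2, 3, 2]) [(1, 2)] P → HasPeriodic P := by
  refine cert_blk (sp := sp6) (sy := hS6_26) (D := hD6_26) (N := 1)
    (Ns := [hN6_26_0]) hsp (by decide) (by decide +kernel) ?_ (by norm_num) (by decide) (by decide +kernel)
  intro b hb
  change b < 1 at hb
  obtain rfl : b = 0 := by omega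
  exact hB6_26_0

/-- the certificate for the classes `0 1 2 0 1 3`, active pairs `` -/
theorem hC6_27 (hsp : ∀ T ∈ sp6, T.OK 6) : ∀ P : Polygon 6, Sit (pcls [0, 1, 2, 0, 1, 3]) [] P → HasPeriodic P := by
  refine cert_blk (sp := sp6) (sy := hS6_27) (D := hD6_27) (N := 2)
    (Ns := [hN6_27_0]) hsp (by decide) (by decide +kernel) ?_ (by norm_num) (by decide) (by decide +kernel)
  intro b hb
  change b < 1 at hb
  obtain rfl : b = 0 := by omega
  exact hB6_27_0

/-- the certificate for the classes `0 1 2 0 1 3`, active pairs `1-4` -/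
theorem hC6_28 (hsp : ∀ T ∈ sp6, T.OK 6) : ∀ P : Polygon 6, Sit (pcls [0, 1, 2, 0, 1, 3]) [(1, 4)] P → HasPeriodic P := by
  refine cert_blk (sp := sp6) (sy := hS6_28) (D := hD6_28) (N := 1)
    (Ns := [hN6_28_0]) hsp (by decide) (by decide +kernel) ?_ (by norm_num) (by decide) (by decide +kernel)
  intro b hb
  change b < 1 at hb
  obtain rfl : b = 0 := by omega
  exact hB6_28_0

/-- the certificate for the classes `0 0 0 0 1 2`, active pairs `` -/
theorem hC6_29 (hsp : ∀ T ∈ sp6, T.OK 6) : ∀ P : Polygon 6, Sit (pcls [0, 0, 0, 0, 1, 2]) [] P → HasPeriodic P := by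
  refine cert_blk (sp := sp6) (sy := hS6_29) (D := hD6_29) (N := 2)
    (Ns := [hN6_29_0]) hsp (by decide) (by decide +kernel) ?_ (by norm_num) (by decide) (by decide +kernel)
  intro b hb
  change b < 1 at hb
  obtain rfl : b = 0 := by omega
  exact hB6_29_0

/-- the certificate for the classes `0 0 0 0 1 2`, active pairs `1-2` -/
theorem hC6_30 (hsp : ∀ T ∈ sp6, T.OK 6) : ∀ P : Polygon 6, Sit (pcls [0, 0, 0, 0, 1, 2]) [(1, 2)] P → HasPeriodic P := by
  refine cert_blk (sp := sp6) (sy := hS6_30) (D := hD6_30) (N := 1)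
    (Ns := [hN6_30_0]) hsp (by decide) (by decide +kernel) ?_ (by norm_num) (by decide) (by decide +kernel)
  intro b hb
  change b < 1 at hb
  obtain rfl : b = 0 := by omega
  exact hB6_30_0

/-- the certificate for the classes `0 0 0 0 1 2`, active pairs `1-2 1-3` -/
theorem hC6_31 (hsp : ∀ T ∈ sp6, T.OK 6) : ∀ P : Polygon 6, Sit (pcls [0, 0, 0, 0, 1, 2]) [(1, 2), (1, 3)] P → HasPeriodic P := by
  refine cert_blk (sp := sp6) (sy := hS6_31) (D := hD6_31) (N := 1)
    (Ns := [hN6_31_0]) hsp (by decide) (by decide +kernel) ?_ (by norm_num) (by decide) (by decide +kernel)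
  intro b hb
  change b < 1 at hb
  obtain rfl : b = 0 := by omega
  exact hB6_31_0

/-- the certificate for the classes `0 0 0 0 1 2`, active pairs `1-2 2-3` -/
theorem hC6_32 (hsp : ∀ T ∈ sp6, T.OK 6) : ∀ P : Polygon 6, Sit (pcls [0, 0, 0, 0, 1, 2]) [(1, 2), (2, 3)] P → HasPeriodic P := by
  refine cert_blk (sp := sp6) (sy := hS6_32) (D := hD6_32) (N := 1)
    (Ns := [hN6_32_0]) hsp (by decide) (by decide +kernel) ?_ (by norm_num) (by decide) (by decide +kernel)
  intro b hb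
  change b < 1 at hb
  obtain rfl : b = 0 := by omega
  exact hB6_32_0

/-- the certificate for the classes `0 0 0 0 1 2`, active pairs `1-3` -/
theorem hC6_33 (hsp : ∀ T ∈ sp6, T.OK 6) : ∀ P : Polygon 6, Sit (pcls [0, 0, 0, 0, 1, 2]) [(1, 3)] P → HasPeriodic P := by
  refine cert_blk (sp := sp6) (sy := hS6_33) (D := hD6_33) (N := 1)
    (Ns := [hN6_33_0]) hsp (by decide) (by decide +kernel) ?_ (by norm_num) (by decide) (by decide +kernel)
  intro b hb
  change b < 1 at hb
  obtain rfl : b = 0 := by omega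
  exact hB6_33_0

/-- the certificate for the classes `0 0 0 1 0 2`, active pairs `` -/
theorem hC6_34 (hsp : ∀ T ∈ sp6, T.OK 6) : ∀ P : Polygon 6, Sit (pcls [0, 0, 0, 1, 0, 2]) [] P → HasPeriodic P := by
  refine cert_blk (sp := sp6) (sy := hS6_34) (D := hD6_34) (N := 3)
    (Ns := [hN6_34_0]) hsp (by decide) (by decide +kernel) ?_ (by norm_num) (by decide) (by decide +kernel)
  intro b hb
  change b < 1 at hb
  obtain rfl : b = 0 := by omega
  exact hB6_34_0

/-- the certificate for the classes `0 0 0 1 0 2`, active pairs `0-5` -/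
theorem hC6_35 (hsp : ∀ T ∈ sp6, T.OK 6) : ∀ P : Polygon 6, Sit (pcls [0, 0, 0, 1, 0, 2]) [(0, 5)] P → HasPeriodic P := by
  refine cert_blk (sp := sp6) (sy := hS6_35) (D := hD6_35) (N := 1)
    (Ns := [hN6_35_0]) hsp (by decide) (by decide +kernel) ?_ (by norm_num) (by decide) (by decide +kernel)
  intro b hb
  change b < 1 at hb
  obtain rfl : b = 0 := by omega
  exact hB6_35_0

/-- the certificate for the classes `0 0 0 1 0 2`, active pairs `1-2` -/
theorem hC6_36 (hsp : ∀ T ∈ sp6, T.OK 6) : ∀ P : Polygon 6, Sit (pcls [0, 0, 0, 1, 0, 2]) [(1, 2)] P → HasPeriodic P := by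
  refine cert_blk (sp := sp6) (sy := hS6_36) (D := hD6_36) (N := 1)
    (Ns := [hN6_36_0]) hsp (by decide) (by decide +kernel) ?_ (by norm_num) (by decide) (by decide +kernel)
  intro b hb
  change b < 1 at hb
  obtain rfl : b = 0 := by omega
  exact hB6_36_0

/-- the certificate for the classes `0 0 0 1 1 2`, active pairs `` -/
theorem hC6_37 (hsp : ∀ T ∈ sp6, T.OK 6) : ∀ P : Polygon 6, Sit (pcls [0, 0, 0, 1, 1, 2]) [] P → HasPeriodic P := by
  refine cert_blk (sp := sp6) (sy := hS6_37) (D := hD6_37) (N := 4)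
    (Ns := [hN6_37_0]) hsp (by decide) (by decide +kernel) ?_ (by norm_num) (by decide) (by decide +kernel)
  intro b hb
  change b < 1 at hb
  obtain rfl : b = 0 := by omega
  exact hB6_37_0

/-- the certificate for the classes `0 0 0 1 1 2`, active pairs `1-2` -/
theorem hC6_38 (hsp : ∀ T ∈ sp6, T.OK 6) : ∀ P : Polygon 6, Sit (pcls [0, 0, 0, 1, 1, 2]) [(1, 2)] P → HasPeriodic P := by
  refine cert_blk (sp := sp6) (sy := hS6_38) (D := hD6_38) (N := 1)
    (Ns := [hN6_38_0]) hsp (by decide) (by decide +kernel) ?_ (by norm_num) (by decide) (by decide +kernel)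
  intro b hb
  change b < 1 at hb
  obtain rfl : b = 0 := by omega
  exact hB6_38_0

/-- the certificate for the classes `0 0 0 1 2 1`, active pairs `` -/
theorem hC6_39 (hsp : ∀ T ∈ sp6, T.OK 6) : ∀ P : Polygon 6, Sit (pcls [0, 0, 0, 1, 2, 1]) [] P → HasPeriodic P := by
  refine cert_blk (sp := sp6) (sy := hS6_39) (D := hD6_39) (N := 1)
    (Ns := [hN6_39_0]) hsp (by decide) (by decide +kernel) ?_ (by norm_num) (by decide) (by decide +kernel)
  intro b hb
  change b < 1 at hb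
  obtain rfl : b = 0 := by omega
  exact hB6_39_0

/-- the certificate for the classes `0 0 0 1 2 1`, active pairs `0-3` -/
theorem hC6_40 (hsp : ∀ T ∈ sp6, T.OK 6) : ∀ P : Polygon 6, Sit (pcls [0, 0, 0, 1, 2, 1]) [(0, 3)] P → HasPeriodic P := by
  refine cert_blk (sp := sp6) (sy := hS6_40) (D := hD6_40) (N := 4)
    (Ns := [hN6_40_0]) hsp (by decide) (by decide +kernel) ?_ (by norm_num) (by decide) (by decide +kernel)
  intro b hb
  change b < 1 at hb
  obtain rfl : b = 0 := by omega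
  exact hB6_40_0

/-- the certificate for the classes `0 0 0 1 2 1`, active pairs `1-2` -/
theorem hC6_41 (hsp : ∀ T ∈ sp6, T.OK 6) : ∀ P : Polygon 6, Sit (pcls [0, 0, 0, 1, 2, 1]) [(1, 2)] P → HasPeriodic P := by
  refine cert_blk (sp := sp6) (sy := hS6_41) (D := hD6_41) (N := 1)
    (Ns := [hN6_41_0]) hsp (by decide) (by decide +kernel) ?_ (by norm_num) (by decide) (by decide +kernel)
  intro b hb
  change b < 1 at hb
  obtain rfl : b = 0 := by omega
  exact hB6_41_0

/-- the certificate for the classes `0 0 0 1 2 1`, active pairs `4-5` -/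
theorem hC6_42 (hsp : ∀ T ∈ sp6, T.OK 6) : ∀ P : Polygon 6, Sit (pcls [0, 0, 0, 1, 2, 1]) [(4, 5)] P → HasPeriodic P := by
  refine cert_blk (sp := sp6) (sy := hS6_42) (D := hD6_42) (N := 1)
    (Ns := [hN6_42_0]) hsp (by decide) (by decide +kernel) ?_ (by norm_num) (by decide) (by decide +kernel)
  intro b hb
  change b < 1 at hb
  obtain rfl : b = 0 := by omega
  exact hB6_42_0

/-- the certificate for the classes `0 0 1 0 0 2`, active pairs `` -/
theorem hC6_43 (hsp : ∀ T ∈ sp6, T.OK 6) : ∀ P : Polygon 6, Sit (pcls [0, 0, 1, 0, 0, 2]) [] P → HasPeriodic P := by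
  refine cert_blk (sp := sp6) (sy := hS6_43) (D := hD6_43) (N := 12)
    (Ns := [hN6_43_0]) hsp (by decide) (by decide +kernel) ?_ (by norm_num) (by decide) (by decide +kernel)
  intro b hb
  change b < 1 at hb
  obtain rfl : b = 0 := by omega
  exact hB6_43_0

/-- the certificate for the classes `0 0 1 0 0 2`, active pairs `0-5` -/
theorem hC6_44 (hsp : ∀ T ∈ sp6, T.OK 6) : ∀ P : Polygon 6, Sit (pcls [0, 0, 1, 0, 0, 2]) [(0, 5)] P → HasPeriodic P := by
  refine cert_blk (sp := sp6) (sy := hS6_44) (D := hD6_44) (N := 1)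
    (Ns := [hN6_44_0]) hsp (by decide) (by decide +kernel) ?_ (by norm_num) (by decide) (by decide +kernel)
  intro b hb
  change b < 1 at hb
  obtain rfl : b = 0 := by omega
  exact hB6_44_0

/-- the certificate for the classes `0 0 1 0 0 2`, active pairs `1-4` -/
theorem hC6_45 (hsp : ∀ T ∈ sp6, T.OK 6) : ∀ P : Polygon 6, Sit (pcls [0, 0, 1, 0, 0, 2]) [(1, 4)] P → HasPeriodic P := by
  refine cert_blk (sp := sp6) (sy := hS6_45) (D := hD6_45) (N := 1)
    (Ns := [hN6_45_0]) hsp (by decide) (by decide +kernel) ?_ (by norm_num) (by decide) (by decide +kernel)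
  intro b hb
  change b < 1 at hb
  obtain rfl : b = 0 := by omega
  exact hB6_45_0

/-- the certificate for the classes `0 0 1 0 1 2`, active pairs `` -/
theorem hC6_46 (hsp : ∀ T ∈ sp6, T.OK 6) : ∀ P : Polygon 6, Sit (pcls [0, 0, 1, 0, 1, 2]) [] P → HasPeriodic P := by
  refine cert_blk (sp := sp6) (sy := hS6_46) (D := hD6_46) (N := 3)
    (Ns := [hN6_46_0]) hsp (by decide) (by decide +kernel) ?_ (by norm_num) (by decide) (by decide +kernel)
  intro b hb
  change b < 1 at hb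
  obtain rfl : b = 0 := by omega
  exact hB6_46_0

/-- the certificate for the classes `0 0 1 0 1 2`, active pairs `2-3` -/
theorem hC6_47 (hsp : ∀ T ∈ sp6, T.OK 6) : ∀ P : Polygon 6, Sit (pcls [0, 0, 1, 0, 1, 2]) [(2, 3)] P → HasPeriodic P := by
  refine cert_blk (sp := sp6) (sy := hS6_47) (D := hD6_47) (N := 1)
    (Ns := [hN6_47_0]) hsp (by decide) (by decide +kernel) ?_ (by norm_num) (by decide) (by decide +kernel)
  intro b hb
  change b < 1 at hb
  obtain rfl : b = 0 := by omega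
  exact hB6_47_0

/-- the certificate for the classes `0 0 1 0 1 2`, active pairs `2-3 2-4` -/
theorem hC6_48 (hsp : ∀ T ∈ sp6, T.OK 6) : ∀ P : Polygon 6, Sit (pcls [0, 0, 1, 0, 1, 2]) [(2, 3), (2, 4)] P → HasPeriodic P := by
  refine cert_blk (sp := sp6) (sy := hS6_48) (D := hD6_48) (N := 1)
    (Ns := [hN6_48_0]) hsp (by decide) (by decide +kernel) ?_ (by norm_num) (by decide) (by decide +kernel)
  intro b hb
  change b < 1 at hb
  obtain rfl : b = 0 := by omega
  exact hB6_48_0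

/-- the certificate for the classes `0 0 1 0 1 2`, active pairs `2-3 3-4` -/
theorem hC6_49 (hsp : ∀ T ∈ sp6, T.OK 6) : ∀ P : Polygon 6, Sit (pcls [0, 0, 1, 0, 1, 2]) [(2, 3), (3, 4)] P → HasPeriodic P := by
  refine cert_blk (sp := sp6) (sy := hS6_49) (D := hD6_49) (N := 1)
    (Ns := [hN6_49_0]) hsp (by decide) (by decide +kernel) ?_ (by norm_num) (by decide) (by decide +kernel)
  intro b hb
  change b < 1 at hb
  obtain rfl : b = 0 := by omega
  exact hB6_49_0

/-- the certificate for the classes `0 0 1 0 1 2`, active pairs `2-4` -/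
theorem hC6_50 (hsp : ∀ T ∈ sp6, T.OK 6) : ∀ P : Polygon 6, Sit (pcls [0, 0, 1, 0, 1, 2]) [(2, 4)] P → HasPeriodic P := by
  refine cert_blk (sp := sp6) (sy := hS6_50) (D := hD6_50) (N := 1)
    (Ns := [hN6_50_0]) hsp (by decide) (by decide +kernel) ?_ (by norm_num) (by decide) (by decide +kernel)
  intro b hb
  change b < 1 at hb
  obtain rfl : b = 0 := by omega
  exact hB6_50_0

/-- the certificate for the classes `0 0 1 0 1 2`, active pairs `2-4 3-4` -/
theorem hC6_51 (hsp : ∀ T ∈ sp6, T.OK 6) : ∀ P : Polygon 6, Sit (pcls [0, 0, 1, 0, 1, 2]) [(2, 4), (3, 4)] P → HasPeriodic P := by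
  refine cert_blk (sp := sp6) (sy := hS6_51) (D := hD6_51) (N := 1)
    (Ns := [hN6_51_0]) hsp (by decide) (by decide +kernel) ?_ (by norm_num) (by decide) (by decide +kernel)
  intro b hb
  change b < 1 at hb
  obtain rfl : b = 0 := by omega
  exact hB6_51_0

/-- the certificate for the classes `0 0 1 0 1 2`, active pairs `3-4` -/
theorem hC6_52 (hsp : ∀ T ∈ sp6, T.OK 6) : ∀ P : Polygon 6, Sit (pcls [0, 0, 1, 0, 1, 2]) [(3, 4)] P → HasPeriodic P := by
  refine cert_blk (sp := sp6) (sy := hS6_52) (D := hD6_52) (N := 1)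
    (Ns := [hN6_52_0]) hsp (by decide) (by decide +kernel) ?_ (by norm_num) (by decide) (by decide +kernel)
  intro b hb
  change b < 1 at hb
  obtain rfl : b = 0 := by omega
  exact hB6_52_0

/-- the certificate for the classes `0 0 1 0 2 1`, active pairs `` -/
theorem hC6_53 (hsp : ∀ T ∈ sp6, T.OK 6) : ∀ P : Polygon 6, Sit (pcls [0, 0, 1, 0, 2, 1]) [] P → HasPeriodic P := by
  refine cert_blk (sp := sp6) (sy := hS6_53) (D := hD6_53) (N := 4)
    (Ns := [hN6_53_0]) hsp (by decide) (by decide +kernel) ?_ (by norm_num) (by decide) (by decide +kernel)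
  intro b hb
  change b < 1 at hb
  obtain rfl : b = 0 := by omega
  exact hB6_53_0

/-- the certificate for the classes `0 0 1 0 2 1`, active pairs `0-2` -/
theorem hC6_54 (hsp : ∀ T ∈ sp6, T.OK 6) : ∀ P : Polygon 6, Sit (pcls [0, 0, 1, 0, 2, 1]) [(0, 2)] P → HasPeriodic P := by
  refine cert_blk (sp := sp6) (sy := hS6_54) (D := hD6_54) (N := 4)
    (Ns := [hN6_54_0]) hsp (by decide) (by decide +kernel) ?_ (by norm_num) (by decide) (by decide +kernel)
  intro b hb
  change b < 1 at hb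
  obtain rfl : b = 0 := by omega
  exact hB6_54_0

/-- the certificate for the classes `0 0 1 0 2 1`, active pairs `0-2 0-3` -/
theorem hC6_55 (hsp : ∀ T ∈ sp6, T.OK 6) : ∀ P : Polygon 6, Sit (pcls [0, 0, 1, 0, 2, 1]) [(0, 2), (0, 3)] P → HasPeriodic P := by
  refine cert_blk (sp := sp6) (sy := hS6_55) (D := hD6_55) (N := 1)
    (Ns := [hN6_55_0]) hsp (by decide) (by decide +kernel) ?_ (by norm_num) (by decide) (by decide +kernel)
  intro b hb
  change b < 1 at hb
  obtain rfl : b = 0 := by omega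
  exact hB6_55_0

/-- the certificate for the classes `0 0 1 0 2 1`, active pairs `0-2 2-3` -/
theorem hC6_56 (hsp : ∀ T ∈ sp6, T.OK 6) : ∀ P : Polygon 6, Sit (pcls [0, 0, 1, 0, 2, 1]) [(0, 2), (2, 3)] P → HasPeriodic P := by
  refine cert_blk (sp := sp6) (sy := hS6_56) (D := hD6_56) (N := 1)
    (Ns := [hN6_56_0]) hsp (by decide) (by decide +kernel) ?_ (by norm_num) (by decide) (by decide +kernel)
  intro b hb
  change b < 1 at hb
  obtain rfl : b = 0 := by omega
  exact hB6_56_0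

/-- the certificate for the classes `0 0 1 0 2 1`, active pairs `0-3` -/
theorem hC6_57 (hsp : ∀ T ∈ sp6, T.OK 6) : ∀ P : Polygon 6, Sit (pcls [0, 0, 1, 0, 2, 1]) [(0, 3)] P → HasPeriodic P := by
  refine cert_blk (sp := sp6) (sy := hS6_57) (D := hD6_57) (N := 1)
    (Ns := [hN6_57_0]) hsp (by decide) (by decide +kernel) ?_ (by norm_num) (by decide) (by decide +kernel)
  intro b hb
  change b < 1 at hb
  obtain rfl : b = 0 := by omega
  exact hB6_57_0

/-- the certificate for the classes `0 0 1 0 2 1`, active pairs `0-3 2-3` -/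
theorem hC6_58 (hsp : ∀ T ∈ sp6, T.OK 6) : ∀ P : Polygon 6, Sit (pcls [0, 0, 1, 0, 2, 1]) [(0, 3), (2, 3)] P → HasPeriodic P := by
  refine cert_blk (sp := sp6) (sy := hS6_58) (D := hD6_58) (N := 1)
    (Ns := [hN6_58_0]) hsp (by decide) (by decide +kernel) ?_ (by norm_num) (by decide) (by decide +kernel)
  intro b hb
  change b < 1 at hb
  obtain rfl : b = 0 := by omega
  exact hB6_58_0

/-- the certificate for the classes `0 0 1 0 2 1`, active pairs `2-3` -/
theorem hC6_59 (hsp : ∀ T ∈ sp6, T.OK 6) : ∀ P : Polygon 6, Sit (pcls [0, 0, 1, 0, 2, 1]) [(2, 3)] P → HasPeriodic P := by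
  refine cert_blk (sp := sp6) (sy := hS6_59) (D := hD6_59) (N := 1)
    (Ns := [hN6_59_0]) hsp (by decide) (by decide +kernel) ?_ (by norm_num) (by decide) (by decide +kernel)
  intro b hb
  change b < 1 at hb
  obtain rfl : b = 0 := by omega
  exact hB6_59_0

/-- the certificate for the classes `0 0 1 0 2 2`, active pairs `` -/
theorem hC6_60 (hsp : ∀ T ∈ sp6, T.OK 6) : ∀ P : Polygon 6, Sit (pcls [0, 0, 1, 0, 2, 2]) [] P → HasPeriodic P := by
  refine cert_blk (sp := sp6) (sy := hS6_60) (D := hD6_60) (N := 2)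
    (Ns := [hN6_60_0]) hsp (by decide) (by decide +kernel) ?_ (by norm_num) (by decide) (by decide +kernel)
  intro b hb
  change b < 1 at hb
  obtain rfl : b = 0 := by omega
  exact hB6_60_0

/-- the certificate for the classes `0 0 1 0 2 2`, active pairs `0-4` -/
theorem hC6_61 (hsp : ∀ T ∈ sp6, T.OK 6) : ∀ P : Polygon 6, Sit (pcls [0, 0, 1, 0, 2, 2]) [(0, 4)] P → HasPeriodic P := by
  refine cert_blk (sp := sp6) (sy := hS6_61) (D := hD6_61) (N := 14)
    (Ns := [hN6_61_0, hN6_61_1]) hsp (by decide) (by decide +kernel) ?_ (by norm_num) (by decide) (by decide +kernel)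
  intro b hb
  change b < 2 at hb
  interval_cases b
  · exact hB6_61_0
  · exact hB6_61_1

/-- the certificate for the classes `0 0 1 0 2 2`, active pairs `2-3` -/
theorem hC6_62 (hsp : ∀ T ∈ sp6, T.OK 6) : ∀ P : Polygon 6, Sit (pcls [0, 0, 1, 0, 2, 2]) [(2, 3)] P → HasPeriodic P := by
  refine cert_blk (sp := sp6) (sy := hS6_62) (D := hD6_62) (N := 1)
    (Ns := [hN6_62_0]) hsp (by decide) (by decide +kernel) ?_ (by norm_num) (by decide) (by decide +kernel)
  intro b hb
  change b < 1 at hb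
  obtain rfl : b = 0 := by omega
  exact hB6_62_0

/-- the certificate for the classes `0 0 1 1 2 2`, active pairs `` -/
theorem hC6_63 (hsp : ∀ T ∈ sp6, T.OK 6) : ∀ P : Polygon 6, Sit (pcls [0, 0, 1, 1, 2, 2]) [] P → HasPeriodic P := by
  refine cert_blk (sp := sp6) (sy := hS6_63) (D := hD6_63) (N := 4)
    (Ns := [hN6_63_0]) hsp (by decide) (by decide +kernel) ?_ (by norm_num) (by decide) (by decide +kernel)
  intro b hb
  change b < 1 at hb
  obtain rfl : b = 0 := by omega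
  exact hB6_63_0

/-- the certificate for the classes `0 0 1 2 1 2`, active pairs `` -/
theorem hC6_64 (hsp : ∀ T ∈ sp6, T.OK 6) : ∀ P : Polygon 6, Sit (pcls [0, 0, 1, 2, 1, 2]) [] P → HasPeriodic P := by
  refine cert_blk (sp := sp6) (sy := hS6_64) (D := hD6_64) (N := 1)
    (Ns := [hN6_64_0]) hsp (by decide) (by decide +kernel) ?_ (by norm_num) (by decide) (by decide +kernel)
  intro b hb
  change b < 1 at hb
  obtain rfl : b = 0 := by omega
  exact hB6_64_0

/-- the certificate for the classes `0 0 1 2 1 2`, active pairs `3-4` -/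
theorem hC6_65 (hsp : ∀ T ∈ sp6, T.OK 6) : ∀ P : Polygon 6, Sit (pcls [0, 0, 1, 2, 1, 2]) [(3, 4)] P → HasPeriodic P := by
  refine cert_blk (sp := sp6) (sy := hS6_65) (D := hD6_65) (N := 1)
    (Ns := [hN6_65_0]) hsp (by decide) (by decide +kernel) ?_ (by norm_num) (by decide) (by decide +kernel)
  intro b hb
  change b < 1 at hb
  obtain rfl : b = 0 := by omega
  exact hB6_65_0

/-- the certificate for the classes `0 0 1 2 1 2`, active pairs `3-4 3-5` -/
theorem hC6_66 (hsp : ∀ T ∈ sp6, T.OK 6) : ∀ P : Polygon 6, Sit (pcls [0, 0, 1, 2, 1, 2]) [(3, 4), (3, 5)] P → HasPeriodic P := by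
  refine cert_blk (sp := sp6) (sy := hS6_66) (D := hD6_66) (N := 1)
    (Ns := [hN6_66_0]) hsp (by decide) (by decide +kernel) ?_ (by norm_num) (by decide) (by decide +kernel)
  intro b hb
  change b < 1 at hb
  obtain rfl : b = 0 := by omega
  exact hB6_66_0

/-- the certificate for the classes `0 0 1 2 1 2`, active pairs `3-4 4-5` -/
theorem hC6_67 (hsp : ∀ T ∈ sp6, T.OK 6) : ∀ P : Polygon 6, Sit (pcls [0, 0, 1, 2, 1, 2]) [(3, 4), (4, 5)] P → HasPeriodic P := by
  refine cert_blk (sp := sp6) (sy := hS6_67) (D := hD6_67) (N := 1)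
    (Ns := [hN6_67_0]) hsp (by decide) (by decide +kernel) ?_ (by norm_num) (by decide) (by decide +kernel)
  intro b hb
  change b < 1 at hb
  obtain rfl : b = 0 := by omega
  exact hB6_67_0

/-- the certificate for the classes `0 0 1 2 1 2`, active pairs `3-5` -/
theorem hC6_68 (hsp : ∀ T ∈ sp6, T.OK 6) : ∀ P : Polygon 6, Sit (pcls [0, 0, 1, 2, 1, 2]) [(3, 5)] P → HasPeriodic P := by
  refine cert_blk (sp := sp6) (sy := hS6_68) (D := hD6_68) (N := 1)
    (Ns := [hN6_68_0]) hsp (by decide) (by decide +kernel) ?_ (by norm_num) (by decide) (by decide +kernel)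
  intro b hb
  change b < 1 at hb
  obtain rfl : b = 0 := by omega
  exact hB6_68_0

/-- the certificate for the classes `0 0 1 2 2 1`, active pairs `` -/
theorem hC6_69 (hsp : ∀ T ∈ sp6, T.OK 6) : ∀ P : Polygon 6, Sit (pcls [0, 0, 1, 2, 2, 1]) [] P → HasPeriodic P := by
  refine cert_blk (sp := sp6) (sy := hS6_69) (D := hD6_69) (N := 4)
    (Ns := [hN6_69_0]) hsp (by decide) (by decide +kernel) ?_ (by norm_num) (by decide) (by decide +kernel)
  intro b hb
  change b < 1 at hb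
  obtain rfl : b = 0 := by omega
  exact hB6_69_0

/-- the certificate for the classes `0 0 1 2 2 1`, active pairs `0-2` -/
theorem hC6_70 (hsp : ∀ T ∈ sp6, T.OK 6) : ∀ P : Polygon 6, Sit (pcls [0, 0, 1, 2, 2, 1]) [(0, 2)] P → HasPeriodic P := by
  refine cert_blk (sp := sp6) (sy := hS6_70) (D := hD6_70) (N := 8)
    (Ns := [hN6_70_0]) hsp (by decide) (by decide +kernel) ?_ (by norm_num) (by decide) (by decide +kernel)
  intro b hb
  change b < 1 at hb
  obtain rfl : b = 0 := by omega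
  exact hB6_70_0

/-- the certificate for the classes `0 1 0 1 0 2`, active pairs `` -/
theorem hC6_71 (hsp : ∀ T ∈ sp6, T.OK 6) : ∀ P : Polygon 6, Sit (pcls [0, 1, 0, 1, 0, 2]) [] P → HasPeriodic P := by
  refine cert_blk (sp := sp6) (sy := hS6_71) (D := hD6_71) (N := 1)
    (Ns := [hN6_71_0]) hsp (by decide) (by decide +kernel) ?_ (by norm_num) (by decide) (by decide +kernel)
  intro b hb
  change b < 1 at hb
  obtain rfl : b = 0 := by omega
  exact hB6_71_0

/-- the certificate for the classes `0 1 0 1 0 2`, active pairs `0-5` -/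
theorem hC6_72 (hsp : ∀ T ∈ sp6, T.OK 6) : ∀ P : Polygon 6, Sit (pcls [0, 1, 0, 1, 0, 2]) [(0, 5)] P → HasPeriodic P := by
  refine cert_blk (sp := sp6) (sy := hS6_72) (D := hD6_72) (N := 1)
    (Ns := [hN6_72_0]) hsp (by decide) (by decide +kernel) ?_ (by norm_num) (by decide) (by decide +kernel)
  intro b hb
  change b < 1 at hb
  obtain rfl : b = 0 := by omega
  exact hB6_72_0

/-- the certificate for the classes `0 1 0 1 0 2`, active pairs `1-2` -/
theorem hC6_73 (hsp : ∀ T ∈ sp6, T.OK 6) : ∀ P : Polygon 6, Sit (pcls [0, 1, 0, 1, 0, 2]) [(1, 2)] P → HasPeriodic P := by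
  refine cert_blk (sp := sp6) (sy := hS6_73) (D := hD6_73) (N := 1)
    (Ns := [hN6_73_0]) hsp (by decide) (by decide +kernel) ?_ (by norm_num) (by decide) (by decide +kernel)
  intro b hb
  change b < 1 at hb
  obtain rfl : b = 0 := by omega
  exact hB6_73_0

/-- the certificate for the classes `0 1 0 1 0 2`, active pairs `1-2 1-3` -/
theorem hC6_74 (hsp : ∀ T ∈ sp6, T.OK 6) : ∀ P : Polygon 6, Sit (pcls [0, 1, 0, 1, 0, 2]) [(1, 2), (1, 3)] P → HasPeriodic P := by
  refine cert_blk (sp := sp6) (sy := hS6_74) (D := hD6_74) (N := 1)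
    (Ns := [hN6_74_0]) hsp (by decide) (by decide +kernel) ?_ (by norm_num) (by decide) (by decide +kernel)
  intro b hb
  change b < 1 at hb
  obtain rfl : b = 0 := by omega
  exact hB6_74_0

/-- the certificate for the classes `0 1 0 1 0 2`, active pairs `1-2 1-3 1-4` -/
theorem hC6_75 (hsp : ∀ T ∈ sp6, T.OK 6) : ∀ P : Polygon 6, Sit (pcls [0, 1, 0, 1, 0, 2]) [(1, 2), (1, 3), (1, 4)] P → HasPeriodic P := by
  refine cert_blk (sp := sp6) (sy := hS6_75) (D := hD6_75) (N := 1)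
    (Ns := [hN6_75_0]) hsp (by decide) (by decide +kernel) ?_ (by norm_num) (by decide) (by decide +kernel)
  intro b hb
  change b < 1 at hb
  obtain rfl : b = 0 := by omega
  exact hB6_75_0

/-- the certificate for the classes `0 1 0 1 0 2`, active pairs `1-2 1-4` -/
theorem hC6_76 (hsp : ∀ T ∈ sp6, T.OK 6) : ∀ P : Polygon 6, Sit (pcls [0, 1, 0, 1, 0, 2]) [(1, 2), (1, 4)] P → HasPeriodic P := by
  refine cert_blk (sp := sp6) (sy := hS6_76) (D := hD6_76) (N := 1)
    (Ns := [hN6_76_0]) hsp (by decide) (by decide +kernel) ?_ (by norm_num) (by decide) (by decide +kernel)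
  intro b hb
  change b < 1 at hb
  obtain rfl : b = 0 := by omega
  exact hB6_76_0

/-- the certificate for the classes `0 1 0 1 0 2`, active pairs `1-2 2-3` -/
theorem hC6_77 (hsp : ∀ T ∈ sp6, T.OK 6) : ∀ P : Polygon 6, Sit (pcls [0, 1, 0, 1, 0, 2]) [(1, 2), (2, 3)] P → HasPeriodic P := by
  refine cert_blk (sp := sp6) (sy := hS6_77) (D := hD6_77) (N := 1)
    (Ns := [hN6_77_0]) hsp (by decide) (by decide +kernel) ?_ (by norm_num) (by decide) (by decide +kernel)
  intro b hb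
  change b < 1 at hb
  obtain rfl : b = 0 := by omega
  exact hB6_77_0

/-- the certificate for the classes `0 1 0 1 0 2`, active pairs `1-2 2-3 2-4` -/
theorem hC6_78 (hsp : ∀ T ∈ sp6, T.OK 6) : ∀ P : Polygon 6, Sit (pcls [0, 1, 0, 1, 0, 2]) [(1, 2), (2, 3), (2, 4)] P → HasPeriodic P := by
  refine cert_blk (sp := sp6) (sy := hS6_78) (D := hD6_78) (N := 1)
    (Ns := [hN6_78_0]) hsp (by decide) (by decide +kernel) ?_ (by norm_num) (by decide) (by decide +kernel)
  intro b hb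
  change b < 1 at hb
  obtain rfl : b = 0 := by omega
  exact hB6_78_0

/-- the certificate for the classes `0 1 0 1 0 2`, active pairs `1-2 2-4` -/
theorem hC6_79 (hsp : ∀ T ∈ sp6, T.OK 6) : ∀ P : Polygon 6, Sit (pcls [0, 1, 0, 1, 0, 2]) [(1, 2), (2, 4)] P → HasPeriodic P := by
  refine cert_blk (sp := sp6) (sy := hS6_79) (D := hD6_79) (N := 1)
    (Ns := [hN6_79_0]) hsp (by decide) (by decide +kernel) ?_ (by norm_num) (by decide) (by decide +kernel)
  intro b hb
  change b < 1 at hb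
  obtain rfl : b = 0 := by omega
  exact hB6_79_0

/-- the certificate for the classes `0 1 0 1 0 2`, active pairs `1-3` -/
theorem hC6_80 (hsp : ∀ T ∈ sp6, T.OK 6) : ∀ P : Polygon 6, Sit (pcls [0, 1, 0, 1, 0, 2]) [(1, 3)] P → HasPeriodic P := by
  refine cert_blk (sp := sp6) (sy := hS6_80) (D := hD6_80) (N := 1)
    (Ns := [hN6_80_0]) hsp (by decide) (by decide +kernel) ?_ (by norm_num) (by decide) (by decide +kernel)
  intro b hb
  change b < 1 at hb
  obtain rfl : b = 0 := by omega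
  exact hB6_80_0

/-- the certificate for the classes `0 1 0 1 0 2`, active pairs `1-3 1-4` -/
theorem hC6_81 (hsp : ∀ T ∈ sp6, T.OK 6) : ∀ P : Polygon 6, Sit (pcls [0, 1, 0, 1, 0, 2]) [(1, 3), (1, 4)] P → HasPeriodic P := by
  refine cert_blk (sp := sp6) (sy := hS6_81) (D := hD6_81) (N := 1)
    (Ns := [hN6_81_0]) hsp (by decide) (by decide +kernel) ?_ (by norm_num) (by decide) (by decide +kernel)
  intro b hb
  change b < 1 at hb
  obtain rfl : b = 0 := by omega
  exact hB6_81_0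

/-- the certificate for the classes `0 1 0 1 0 2`, active pairs `1-3 2-3` -/
theorem hC6_82 (hsp : ∀ T ∈ sp6, T.OK 6) : ∀ P : Polygon 6, Sit (pcls [0, 1, 0, 1, 0, 2]) [(1, 3), (2, 3)] P → HasPeriodic P := by
  refine cert_blk (sp := sp6) (sy := hS6_82) (D := hD6_82) (N := 1)
    (Ns := [hN6_82_0]) hsp (by decide) (by decide +kernel) ?_ (by norm_num) (by decide) (by decide +kernel)
  intro b hb
  change b < 1 at hb
  obtain rfl : b = 0 := by omega
  exact hB6_82_0

/-- the certificate for the classes `0 1 0 1 0 2`, active pairs `1-4` -/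
theorem hC6_83 (hsp : ∀ T ∈ sp6, T.OK 6) : ∀ P : Polygon 6, Sit (pcls [0, 1, 0, 1, 0, 2]) [(1, 4)] P → HasPeriodic P := by
  refine cert_blk (sp := sp6) (sy := hS6_83) (D := hD6_83) (N := 2)
    (Ns := [hN6_83_0]) hsp (by decide) (by decide +kernel) ?_ (by norm_num) (by decide) (by decide +kernel)
  intro b hb
  change b < 1 at hb
  obtain rfl : b = 0 := by omega
  exact hB6_83_0

/-- the certificate for the classes `0 1 0 1 0 2`, active pairs `2-3` -/
theorem hC6_84 (hsp : ∀ T ∈ sp6, T.OK 6) : ∀ P : Polygon 6, Sit (pcls [0, 1, 0, 1, 0, 2]) [(2, 3)] P → HasPeriodic P := by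
  refine cert_blk (sp := sp6) (sy := hS6_84) (D := hD6_84) (N := 1)
    (Ns := [hN6_84_0]) hsp (by decide) (by decide +kernel) ?_ (by norm_num) (by decide) (by decide +kernel)
  intro b hb
  change b < 1 at hb
  obtain rfl : b = 0 := by omega
  exact hB6_84_0

/-- the certificate for the classes `0 1 0 2 1 2`, active pairs `` -/
theorem hC6_85 (hsp : ∀ T ∈ sp6, T.OK 6) : ∀ P : Polygon 6, Sit (pcls [0, 1, 0, 2, 1, 2]) [] P → HasPeriodic P := by
  refine cert_blk (sp := sp6) (sy := hS6_85) (D := hD6_85) (N := 4)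
    (Ns := [hN6_85_0]) hsp (by decide) (by decide +kernel) ?_ (by norm_num) (by decide) (by decide +kernel)
  intro b hb
  change b < 1 at hb
  obtain rfl : b = 0 := by omega
  exact hB6_85_0

/-- the certificate for the classes `0 1 0 2 1 2`, active pairs `0-3` -/
theorem hC6_86 (hsp : ∀ T ∈ sp6, T.OK 6) : ∀ P : Polygon 6, Sit (pcls [0, 1, 0, 2, 1, 2]) [(0, 3)] P → HasPeriodic P := by
  refine cert_blk (sp := sp6) (sy := hS6_86) (D := hD6_86) (N := 1)
    (Ns := [hN6_86_0]) hsp (by decide) (by decide +kernel) ?_ (by norm_num) (by decide) (by decide +kernel)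
  intro b hb
  change b < 1 at hb
  obtain rfl : b = 0 := by omega
  exact hB6_86_0

/-- the certificate for the classes `0 1 0 2 1 2`, active pairs `1-2` -/
theorem hC6_87 (hsp : ∀ T ∈ sp6, T.OK 6) : ∀ P : Polygon 6, Sit (pcls [0, 1, 0, 2, 1, 2]) [(1, 2)] P → HasPeriodic P := by
  refine cert_blk (sp := sp6) (sy := hS6_87) (D := hD6_87) (N := 1)
    (Ns := [hN6_87_0]) hsp (by decide) (by decide +kernel) ?_ (by norm_num) (by decide) (by decide +kernel)
  intro b hb
  change b < 1 at hb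
  obtain rfl : b = 0 := by omega
  exact hB6_87_0

/-- the certificate for the classes `0 1 2 0 1 2`, active pairs `` -/
theorem hC6_88 (hsp : ∀ T ∈ sp6, T.OK 6) : ∀ P : Polygon 6, Sit (pcls [0, 1, 2, 0, 1, 2]) [] P → HasPeriodic P := by
  refine cert_blk (sp := sp6) (sy := hS6_88) (D := hD6_88) (N := 3)
    (Ns := [hN6_88_0]) hsp (by decide) (by decide +kernel) ?_ (by norm_num) (by decide) (by decide +kernel)
  intro b hb
  change b < 1 at hb
  obtain rfl : b = 0 := by omega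
  exact hB6_88_0

/-- the certificate for the classes `0 1 2 0 1 2`, active pairs `0-3` -/
theorem hC6_89 (hsp : ∀ T ∈ sp6, T.OK 6) : ∀ P : Polygon 6, Sit (pcls [0, 1, 2, 0, 1, 2]) [(0, 3)] P → HasPeriodic P := by
  refine cert_blk (sp := sp6) (sy := hS6_89) (D := hD6_89) (N := 1)
    (Ns := [hN6_89_0]) hsp (by decide) (by decide +kernel) ?_ (by norm_num) (by decide) (by decide +kernel)
  intro b hb
  change b < 1 at hb
  obtain rfl : b = 0 := by omega
  exact hB6_89_0

/-- the certificate for the classes `0 0 0 0 0 1`, active pairs `` -/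
theorem hC6_90 (hsp : ∀ T ∈ sp6, T.OK 6) : ∀ P : Polygon 6, Sit (pcls [0, 0, 0, 0, 0, 1]) [] P → HasPeriodic P := by
  refine cert_blk (sp := sp6) (sy := hS6_90) (D := hD6_90) (N := 143)
    (Ns := [hN6_90_0, hN6_90_1, hN6_90_2, hN6_90_3, hN6_90_4, hN6_90_5, hN6_90_6, hN6_90_7, hN6_90_8, hN6_90_9, hN6_90_10, hN6_90_11]) hsp (by decide) (by decide +kernel) ?_ (by norm_num) (by decide) (by decide +kernel)
  intro b hb
  change b < 12 at hb
  interval_cases b
  · exact hB6_90_0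
  · exact hB6_90_1
  · exact hB6_90_2
  · exact hB6_90_3
  · exact hB6_90_4
  · exact hB6_90_5
  · exact hB6_90_6
  · exact hB6_90_7
  · exact hB6_90_8
  · exact hB6_90_9
  · exact hB6_90_10
  · exact hB6_90_11

/-- the certificate for the classes `0 0 0 0 0 1`, active pairs `0-5` -/
theorem hC6_91 (hsp : ∀ T ∈ sp6, T.OK 6) : ∀ P : Polygon 6, Sit (pcls [0, 0, 0, 0, 0, 1]) [(0, 5)] P → HasPeriodic P := by
  refine cert_blk (sp := sp6) (sy := hS6_91) (D := hD6_91) (N := 1)
    (Ns := [hN6_91_0]) hsp (by decide) (by decide +kernel) ?_ (by norm_num) (by decide) (by decide +kernel)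
  intro b hb
  change b < 1 at hb
  obtain rfl : b = 0 := by omega
  exact hB6_91_0

/-- the certificate for the classes `0 0 0 0 0 1`, active pairs `1-2` -/
theorem hC6_92 (hsp : ∀ T ∈ sp6, T.OK 6) : ∀ P : Polygon 6, Sit (pcls [0, 0, 0, 0, 0, 1]) [(1, 2)] P → HasPeriodic P := by
  refine cert_blk (sp := sp6) (sy := hS6_92) (D := hD6_92) (N := 1)
    (Ns := [hN6_92_0]) hsp (by decide) (by decide +kernel) ?_ (by norm_num) (by decide) (by decide +kernel)
  intro b hb
  change b < 1 at hb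
  obtain rfl : b = 0 := by omega
  exact hB6_92_0

/-- the certificate for the classes `0 0 0 0 0 1`, active pairs `1-2 1-3` -/
theorem hC6_93 (hsp : ∀ T ∈ sp6, T.OK 6) : ∀ P : Polygon 6, Sit (pcls [0, 0, 0, 0, 0, 1]) [(1, 2), (1, 3)] P → HasPeriodic P := by
  refine cert_blk (sp := sp6) (sy := hS6_93) (D := hD6_93) (N := 1)
    (Ns := [hN6_93_0]) hsp (by decide) (by decide +kernel) ?_ (by norm_num) (by decide) (by decide +kernel)
  intro b hb
  change b < 1 at hb
  obtain rfl : b = 0 := by omega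
  exact hB6_93_0

/-- the certificate for the classes `0 0 0 0 0 1`, active pairs `1-2 1-3 1-4` -/
theorem hC6_94 (hsp : ∀ T ∈ sp6, T.OK 6) : ∀ P : Polygon 6, Sit (pcls [0, 0, 0, 0, 0, 1]) [(1, 2), (1, 3), (1, 4)] P → HasPeriodic P := by
  refine cert_blk (sp := sp6) (sy := hS6_94) (D := hD6_94) (N := 1)
    (Ns := [hN6_94_0]) hsp (by decide) (by decide +kernel) ?_ (by norm_num) (by decide) (by decide +kernel)
  intro b hb
  change b < 1 at hb
  obtain rfl : b = 0 := by omega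
  exact hB6_94_0

/-- the certificate for the classes `0 0 0 0 0 1`, active pairs `1-2 1-4` -/
theorem hC6_95 (hsp : ∀ T ∈ sp6, T.OK 6) : ∀ P : Polygon 6, Sit (pcls [0, 0, 0, 0, 0, 1]) [(1, 2), (1, 4)] P → HasPeriodic P := by
  refine cert_blk (sp := sp6) (sy := hS6_95) (D := hD6_95) (N := 1)
    (Ns := [hN6_95_0]) hsp (by decide) (by decide +kernel) ?_ (by norm_num) (by decide) (by decide +kernel)
  intro b hb
  change b < 1 at hb
  obtain rfl : b = 0 := by omega
  exact hB6_95_0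

/-- the certificate for the classes `0 0 0 0 0 1`, active pairs `1-2 2-3` -/
theorem hC6_96 (hsp : ∀ T ∈ sp6, T.OK 6) : ∀ P : Polygon 6, Sit (pcls [0, 0, 0, 0, 0, 1]) [(1, 2), (2, 3)] P → HasPeriodic P := by
  refine cert_blk (sp := sp6) (sy := hS6_96) (D := hD6_96) (N := 1)
    (Ns := [hN6_96_0]) hsp (by decide) (by decide +kernel) ?_ (by norm_num) (by decide) (by decide +kernel)
  intro b hb
  change b < 1 at hb
  obtain rfl : b = 0 := by omega
  exact hB6_96_0

/-- the certificate for the classes `0 0 0 0 0 1`, active pairs `1-2 2-3 2-4` -/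
theorem hC6_97 (hsp : ∀ T ∈ sp6, T.OK 6) : ∀ P : Polygon 6, Sit (pcls [0, 0, 0, 0, 0, 1]) [(1, 2), (2, 3), (2, 4)] P → HasPeriodic P := by
  refine cert_blk (sp := sp6) (sy := hS6_97) (D := hD6_97) (N := 1)
    (Ns := [hN6_97_0]) hsp (by decide) (by decide +kernel) ?_ (by norm_num) (by decide) (by decide +kernel)
  intro b hb
  change b < 1 at hb
  obtain rfl : b = 0 := by omega
  exact hB6_97_0

/-- the certificate for the classes `0 0 0 0 0 1`, active pairs `1-2 2-4` -/
theorem hC6_98 (hsp : ∀ T ∈ sp6, T.OK 6) : ∀ P : Polygon 6, Sit (pcls [0, 0, 0, 0, 0, 1]) [(1, 2), (2, 4)] P → HasPeriodic P := by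
  refine cert_blk (sp := sp6) (sy := hS6_98) (D := hD6_98) (N := 1)
    (Ns := [hN6_98_0]) hsp (by decide) (by decide +kernel) ?_ (by norm_num) (by decide) (by decide +kernel)
  intro b hb
  change b < 1 at hb
  obtain rfl : b = 0 := by omega
  exact hB6_98_0

/-- the certificate for the classes `0 0 0 0 0 1`, active pairs `1-3` -/
theorem hC6_99 (hsp : ∀ T ∈ sp6, T.OK 6) : ∀ P : Polygon 6, Sit (pcls [0, 0, 0, 0, 0, 1]) [(1, 3)] P → HasPeriodic P := by
  refine cert_blk (sp := sp6) (sy := hS6_99) (D := hD6_99) (N := 1)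
    (Ns := [hN6_99_0]) hsp (by decide) (by decide +kernel) ?_ (by norm_num) (by decide) (by decide +kernel)
  intro b hb
  change b < 1 at hb
  obtain rfl : b = 0 := by omega
  exact hB6_99_0

/-- the certificate for the classes `0 0 0 0 0 1`, active pairs `1-3 1-4` -/
theorem hC6_100 (hsp : ∀ T ∈ sp6, T.OK 6) : ∀ P : Polygon 6, Sit (pcls [0, 0, 0, 0, 0, 1]) [(1, 3), (1, 4)] P → HasPeriodic P := by
  refine cert_blk (sp := sp6) (sy := hS6_100) (D := hD6_100) (N := 1)
    (Ns := [hN6_100_0]) hsp (by decide) (by decide +kernel) ?_ (by norm_num) (by decide) (by decide +kernel)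
  intro b hb
  change b < 1 at hb
  obtain rfl : b = 0 := by omega
  exact hB6_100_0

/-- the certificate for the classes `0 0 0 0 0 1`, active pairs `1-3 2-3` -/
theorem hC6_101 (hsp : ∀ T ∈ sp6, T.OK 6) : ∀ P : Polygon 6, Sit (pcls [0, 0, 0, 0, 0, 1]) [(1, 3), (2, 3)] P → HasPeriodic P := by
  refine cert_blk (sp := sp6) (sy := hS6_101) (D := hD6_101) (N := 1)
    (Ns := [hN6_101_0]) hsp (by decide) (by decide +kernel) ?_ (by norm_num) (by decide) (by decide +kernel)
  intro b hb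
  change b < 1 at hb
  obtain rfl : b = 0 := by omega
  exact hB6_101_0

/-- the certificate for the classes `0 0 0 0 0 1`, active pairs `1-4` -/
theorem hC6_102 (hsp : ∀ T ∈ sp6, T.OK 6) : ∀ P : Polygon 6, Sit (pcls [0, 0, 0, 0, 0, 1]) [(1, 4)] P → HasPeriodic P := by
  refine cert_blk (sp := sp6) (sy := hS6_102) (D := hD6_102) (N := 1)
    (Ns := [hN6_102_0]) hsp (by decide) (by decide +kernel) ?_ (by norm_num) (by decide) (by decide +kernel)
  intro b hb
  change b < 1 at hb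
  obtain rfl : b = 0 := by omega
  exact hB6_102_0

/-- the certificate for the classes `0 0 0 0 0 1`, active pairs `2-3` -/
theorem hC6_103 (hsp : ∀ T ∈ sp6, T.OK 6) : ∀ P : Polygon 6, Sit (pcls [0, 0, 0, 0, 0, 1]) [(2, 3)] P → HasPeriodic P := by
  refine cert_blk (sp := sp6) (sy := hS6_103) (D := hD6_103) (N := 1)
    (Ns := [hN6_103_0]) hsp (by decide) (by decide +kernel) ?_ (by norm_num) (by decide) (by decide +kernel)
  intro b hb
  change b < 1 at hb
  obtain rfl : b = 0 := by omega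
  exact hB6_103_0

/-- the certificate for the classes `0 0 0 0 1 1`, active pairs `` -/
theorem hC6_104 (hsp : ∀ T ∈ sp6, T.OK 6) : ∀ P : Polygon 6, Sit (pcls [0, 0, 0, 0, 1, 1]) [] P → HasPeriodic P := by
  refine cert_blk (sp := sp6) (sy := hS6_104) (D := hD6_104) (N := 181)
    (Ns := [hN6_104_0, hN6_104_1, hN6_104_2, hN6_104_3, hN6_104_4, hN6_104_5, hN6_104_6, hN6_104_7, hN6_104_8, hN6_104_9, hN6_104_10, hN6_104_11, hN6_104_12, hN6_104_13, hN6_104_14, hN6_104_15]) hsp (by decide) (by decide +kernel) ?_ (by norm_num) (by decide) (by decide +kernel)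
  intro b hb
  change b < 16 at hb
  interval_cases b
  · exact hB6_104_0
  · exact hB6_104_1
  · exact hB6_104_2
  · exact hB6_104_3
  · exact hB6_104_4
  · exact hB6_104_5
  · exact hB6_104_6
  · exact hB6_104_7
  · exact hB6_104_8
  · exact hB6_104_9
  · exact hB6_104_10
  · exact hB6_104_11
  · exact hB6_104_12
  · exact hB6_104_13
  · exact hB6_104_14
  · exact hB6_104_15

/-- the certificate for the classes `0 0 0 0 1 1`, active pairs `0-4` -/
theorem hC6_105 (hsp : ∀ T ∈ sp6, T.OK 6) : ∀ P : Polygon 6, Sit (pcls [0, 0, 0, 0, 1, 1]) [(0, 4)] P → HasPeriodic P := by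
  refine cert_blk (sp := sp6) (sy := hS6_105) (D := hD6_105) (N := 111)
    (Ns := [hN6_105_0, hN6_105_1, hN6_105_2, hN6_105_3, hN6_105_4, hN6_105_5, hN6_105_6, hN6_105_7, hN6_105_8, hN6_105_9]) hsp (by decide) (by decide +kernel) ?_ (by norm_num) (by decide) (by decide +kernel)
  intro b hb
  change b < 10 at hb
  interval_cases b
  · exact hB6_105_0
  · exact hB6_105_1
  · exact hB6_105_2
  · exact hB6_105_3
  · exact hB6_105_4
  · exact hB6_105_5
  · exact hB6_105_6
  · exact hB6_105_7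
  · exact hB6_105_8
  · exact hB6_105_9

/-- the certificate for the classes `0 0 0 0 1 1`, active pairs `1-2` -/
theorem hC6_106 (hsp : ∀ T ∈ sp6, T.OK 6) : ∀ P : Polygon 6, Sit (pcls [0, 0, 0, 0, 1, 1]) [(1, 2)] P → HasPeriodic P := by
  refine cert_blk (sp := sp6) (sy := hS6_106) (D := hD6_106) (N := 1)
    (Ns := [hN6_106_0]) hsp (by decide) (by decide +kernel) ?_ (by norm_num) (by decide) (by decide +kernel)
  intro b hb
  change b < 1 at hb
  obtain rfl : b = 0 := by omega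
  exact hB6_106_0

/-- the certificate for the classes `0 0 0 0 1 1`, active pairs `1-2 1-3` -/
theorem hC6_107 (hsp : ∀ T ∈ sp6, T.OK 6) : ∀ P : Polygon 6, Sit (pcls [0, 0, 0, 0, 1, 1]) [(1, 2), (1, 3)] P → HasPeriodic P := by
  refine cert_blk (sp := sp6) (sy := hS6_107) (D := hD6_107) (N := 1)
    (Ns := [hN6_107_0]) hsp (by decide) (by decide +kernel) ?_ (by norm_num) (by decide) (by decide +kernel)
  intro b hb
  change b < 1 at hb
  obtain rfl : b = 0 := by omega
  exact hB6_107_0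

/-- the certificate for the classes `0 0 0 0 1 1`, active pairs `1-2 2-3` -/
theorem hC6_108 (hsp : ∀ T ∈ sp6, T.OK 6) : ∀ P : Polygon 6, Sit (pcls [0, 0, 0, 0, 1, 1]) [(1, 2), (2, 3)] P → HasPeriodic P := by
  refine cert_blk (sp := sp6) (sy := hS6_108) (D := hD6_108) (N := 1)
    (Ns := [hN6_108_0]) hsp (by decide) (by decide +kernel) ?_ (by norm_num) (by decide) (by decide +kernel)
  intro b hb
  change b < 1 at hb
  obtain rfl : b = 0 := by omega
  exact hB6_108_0

/-- the certificate for the classes `0 0 0 0 1 1`, active pairs `1-3` -/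
theorem hC6_109 (hsp : ∀ T ∈ sp6, T.OK 6) : ∀ P : Polygon 6, Sit (pcls [0, 0, 0, 0, 1, 1]) [(1, 3)] P → HasPeriodic P := by
  refine cert_blk (sp := sp6) (sy := hS6_109) (D := hD6_109) (N := 1)
    (Ns := [hN6_109_0]) hsp (by decide) (by decide +kernel) ?_ (by norm_num) (by decide) (by decide +kernel)
  intro b hb
  change b < 1 at hb
  obtain rfl : b = 0 := by omega
  exact hB6_109_0

/-- the certificate for the classes `0 0 0 1 0 1`, active pairs `` -/
theorem hC6_110 (hsp : ∀ T ∈ sp6, T.OK 6) : ∀ P : Polygon 6, Sit (pcls [0, 0, 0, 1, 0, 1]) [] P → HasPeriodic P := by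
  refine cert_blk (sp := sp6) (sy := hS6_110) (D := hD6_110) (N := 5)
    (Ns := [hN6_110_0]) hsp (by decide) (by decide +kernel) ?_ (by norm_num) (by decide) (by decide +kernel)
  intro b hb
  change b < 1 at hb
  obtain rfl : b = 0 := by omega
  exact hB6_110_0

/-- the certificate for the classes `0 0 0 1 0 1`, active pairs `0-3` -/
theorem hC6_111 (hsp : ∀ T ∈ sp6, T.OK 6) : ∀ P : Polygon 6, Sit (pcls [0, 0, 0, 1, 0, 1]) [(0, 3)] P → HasPeriodic P := by
  refine cert_blk (sp := sp6) (sy := hS6_111) (D := hD6_111) (N := 1)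
    (Ns := [hN6_111_0]) hsp (by decide) (by decide +kernel) ?_ (by norm_num) (by decide) (by decide +kernel)
  intro b hb
  change b < 1 at hb
  obtain rfl : b = 0 := by omega
  exact hB6_111_0

/-- the certificate for the classes `0 0 0 1 0 1`, active pairs `0-3 0-4` -/
theorem hC6_112 (hsp : ∀ T ∈ sp6, T.OK 6) : ∀ P : Polygon 6, Sit (pcls [0, 0, 0, 1, 0, 1]) [(0, 3), (0, 4)] P → HasPeriodic P := by
  refine cert_blk (sp := sp6) (sy := hS6_112) (D := hD6_112) (N := 1)
    (Ns := [hN6_112_0]) hsp (by decide) (by decide +kernel) ?_ (by norm_num) (by decide) (by decide +kernel)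
  intro b hb
  change b < 1 at hb
  obtain rfl : b = 0 := by omega
  exact hB6_112_0

/-- the certificate for the classes `0 0 0 1 0 1`, active pairs `0-3 0-4 0-5` -/
theorem hC6_113 (hsp : ∀ T ∈ sp6, T.OK 6) : ∀ P : Polygon 6, Sit (pcls [0, 0, 0, 1, 0, 1]) [(0, 3), (0, 4), (0, 5)] P → HasPeriodic P := by
  refine cert_blk (sp := sp6) (sy := hS6_113) (D := hD6_113) (N := 1)
    (Ns := [hN6_113_0]) hsp (by decide) (by decide +kernel) ?_ (by norm_num) (by decide) (by decide +kernel)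
  intro b hb
  change b < 1 at hb
  obtain rfl : b = 0 := by omega
  exact hB6_113_0

/-- the certificate for the classes `0 0 0 1 0 1`, active pairs `0-3 0-5` -/
theorem hC6_114 (hsp : ∀ T ∈ sp6, T.OK 6) : ∀ P : Polygon 6, Sit (pcls [0, 0, 0, 1, 0, 1]) [(0, 3), (0, 5)] P → HasPeriodic P := by
  refine cert_blk (sp := sp6) (sy := hS6_114) (D := hD6_114) (N := 1)
    (Ns := [hN6_114_0]) hsp (by decide) (by decide +kernel) ?_ (by norm_num) (by decide) (by decide +kernel)
  intro b hb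
  change b < 1 at hb
  obtain rfl : b = 0 := by omega
  exact hB6_114_0

/-- the certificate for the classes `0 0 0 1 0 1`, active pairs `0-4` -/
theorem hC6_115 (hsp : ∀ T ∈ sp6, T.OK 6) : ∀ P : Polygon 6, Sit (pcls [0, 0, 0, 1, 0, 1]) [(0, 4)] P → HasPeriodic P := by
  refine cert_blk (sp := sp6) (sy := hS6_115) (D := hD6_115) (N := 1)
    (Ns := [hN6_115_0]) hsp (by decide) (by decide +kernel) ?_ (by norm_num) (by decide) (by decide +kernel)
  intro b hb
  change b < 1 at hb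
  obtain rfl : b = 0 := by omega
  exact hB6_115_0

/-- the certificate for the classes `0 0 0 1 0 1`, active pairs `0-4 0-5` -/
theorem hC6_116 (hsp : ∀ T ∈ sp6, T.OK 6) : ∀ P : Polygon 6, Sit (pcls [0, 0, 0, 1, 0, 1]) [(0, 4), (0, 5)] P → HasPeriodic P := by
  refine cert_blk (sp := sp6) (sy := hS6_116) (D := hD6_116) (N := 1)
    (Ns := [hN6_116_0]) hsp (by decide) (by decide +kernel) ?_ (by norm_num) (by decide) (by decide +kernel)
  intro b hb
  change b < 1 at hb
  obtain rfl : b = 0 := by omega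
  exact hB6_116_0

/-- the certificate for the classes `0 0 0 1 0 1`, active pairs `0-4 3-4` -/
theorem hC6_117 (hsp : ∀ T ∈ sp6, T.OK 6) : ∀ P : Polygon 6, Sit (pcls [0, 0, 0, 1, 0, 1]) [(0, 4), (3, 4)] P → HasPeriodic P := by
  refine cert_blk (sp := sp6) (sy := hS6_117) (D := hD6_117) (N := 1)
    (Ns := [hN6_117_0]) hsp (by decide) (by decide +kernel) ?_ (by norm_num) (by decide) (by decide +kernel)
  intro b hb
  change b < 1 at hb
  obtain rfl : b = 0 := by omega
  exact hB6_117_0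

/-- the certificate for the classes `0 0 0 1 0 1`, active pairs `0-4 3-4 4-5` -/
theorem hC6_118 (hsp : ∀ T ∈ sp6, T.OK 6) : ∀ P : Polygon 6, Sit (pcls [0, 0, 0, 1, 0, 1]) [(0, 4), (3, 4), (4, 5)] P → HasPeriodic P := by
  refine cert_blk (sp := sp6) (sy := hS6_118) (D := hD6_118) (N := 1)
    (Ns := [hN6_118_0]) hsp (by decide) (by decide +kernel) ?_ (by norm_num) (by decide) (by decide +kernel)
  intro b hb
  change b < 1 at hb
  obtain rfl : b = 0 := by omega
  exact hB6_118_0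

/-- the certificate for the classes `0 0 0 1 0 1`, active pairs `0-4 4-5` -/
theorem hC6_119 (hsp : ∀ T ∈ sp6, T.OK 6) : ∀ P : Polygon 6, Sit (pcls [0, 0, 0, 1, 0, 1]) [(0, 4), (4, 5)] P → HasPeriodic P := by
  refine cert_blk (sp := sp6) (sy := hS6_119) (D := hD6_119) (N := 1)
    (Ns := [hN6_119_0]) hsp (by decide) (by decide +kernel) ?_ (by norm_num) (by decide) (by decide +kernel)
  intro b hb
  change b < 1 at hb
  obtain rfl : b = 0 := by omega
  exact hB6_119_0

/-- the certificate for the classes `0 0 0 1 0 1`, active pairs `0-5` -/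
theorem hC6_120 (hsp : ∀ T ∈ sp6, T.OK 6) : ∀ P : Polygon 6, Sit (pcls [0, 0, 0, 1, 0, 1]) [(0, 5)] P → HasPeriodic P := by
  refine cert_blk (sp := sp6) (sy := hS6_120) (D := hD6_120) (N := 1)
    (Ns := [hN6_120_0]) hsp (by decide) (by decide +kernel) ?_ (by norm_num) (by decide) (by decide +kernel)
  intro b hb
  change b < 1 at hb
  obtain rfl : b = 0 := by omega
  exact hB6_120_0

/-- the certificate for the classes `0 0 0 1 0 1`, active pairs `0-5 4-5` -/
theorem hC6_121 (hsp : ∀ T ∈ sp6, T.OK 6) : ∀ P : Polygon 6, Sit (pcls [0, 0, 0, 1, 0, 1]) [(0, 5), (4, 5)] P → HasPeriodic P := by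
  refine cert_blk (sp := sp6) (sy := hS6_121) (D := hD6_121) (N := 1)
    (Ns := [hN6_121_0]) hsp (by decide) (by decide +kernel) ?_ (by norm_num) (by decide) (by decide +kernel)
  intro b hb
  change b < 1 at hb
  obtain rfl : b = 0 := by omega
  exact hB6_121_0

/-- the certificate for the classes `0 0 0 1 0 1`, active pairs `1-2` -/
theorem hC6_122 (hsp : ∀ T ∈ sp6, T.OK 6) : ∀ P : Polygon 6, Sit (pcls [0, 0, 0, 1, 0, 1]) [(1, 2)] P → HasPeriodic P := by
  refine cert_blk (sp := sp6) (sy := hS6_122) (D := hD6_122) (N := 1)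
    (Ns := [hN6_122_0]) hsp (by decide) (by decide +kernel) ?_ (by norm_num) (by decide) (by decide +kernel)
  intro b hb
  change b < 1 at hb
  obtain rfl : b = 0 := by omega
  exact hB6_122_0

/-- the certificate for the classes `0 0 0 1 0 1`, active pairs `4-5` -/
theorem hC6_123 (hsp : ∀ T ∈ sp6, T.OK 6) : ∀ P : Polygon 6, Sit (pcls [0, 0, 0, 1, 0, 1]) [(4, 5)] P → HasPeriodic P := by
  refine cert_blk (sp := sp6) (sy := hS6_123) (D := hD6_123) (N := 1)
    (Ns := [hN6_123_0]) hsp (by decide) (by decide +kernel) ?_ (by norm_num) (by decide) (by decide +kernel)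
  intro b hb
  change b < 1 at hb
  obtain rfl : b = 0 := by omega
  exact hB6_123_0

/-- the certificate for the classes `0 0 0 1 1 1`, active pairs `` -/
theorem hC6_124 (hsp : ∀ T ∈ sp6, T.OK 6) : ∀ P : Polygon 6, Sit (pcls [0, 0, 0, 1, 1, 1]) [] P → HasPeriodic P := by
  refine cert_blk (sp := sp6) (sy := hS6_124) (D := hD6_124) (N := 117)
    (Ns := [hN6_124_0, hN6_124_1, hN6_124_2, hN6_124_3, hN6_124_4, hN6_124_5, hN6_124_6, hN6_124_7, hN6_124_8, hN6_124_9]) hsp (by decide) (by decide +kernel) ?_ (by norm_num) (by decide) (by decide +kernel)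
  intro b hb
  change b < 10 at hb
  interval_cases b
  · exact hB6_124_0
  · exact hB6_124_1
  · exact hB6_124_2
  · exact hB6_124_3
  · exact hB6_124_4
  · exact hB6_124_5
  · exact hB6_124_6
  · exact hB6_124_7
  · exact hB6_124_8
  · exact hB6_124_9

/-- the certificate for the classes `0 0 0 1 1 1`, active pairs `0-3` -/
theorem hC6_125 (hsp : ∀ T ∈ sp6, T.OK 6) : ∀ P : Polygon 6, Sit (pcls [0, 0, 0, 1, 1, 1]) [(0, 3)] P → HasPeriodic P := by
  refine cert_blk (sp := sp6) (sy := hS6_125) (D := hD6_125) (N := 107)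
    (Ns := [hN6_125_0, hN6_125_1, hN6_125_2, hN6_125_3, hN6_125_4, hN6_125_5, hN6_125_6, hN6_125_7, hN6_125_8]) hsp (by decide) (by decide +kernel) ?_ (by norm_num) (by decide) (by decide +kernel)
  intro b hb
  change b < 9 at hb
  interval_cases b
  · exact hB6_125_0
  · exact hB6_125_1
  · exact hB6_125_2
  · exact hB6_125_3
  · exact hB6_125_4
  · exact hB6_125_5
  · exact hB6_125_6
  · exact hB6_125_7
  · exact hB6_125_8

/-- the certificate for the classes `0 0 0 1 1 1`, active pairs `1-2` -/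
theorem hC6_126 (hsp : ∀ T ∈ sp6, T.OK 6) : ∀ P : Polygon 6, Sit (pcls [0, 0, 0, 1, 1, 1]) [(1, 2)] P → HasPeriodic P := by
  refine cert_blk (sp := sp6) (sy := hS6_126) (D := hD6_126) (N := 1)
    (Ns := [hN6_126_0]) hsp (by decide) (by decide +kernel) ?_ (by norm_num) (by decide) (by decide +kernel)
  intro b hb
  change b < 1 at hb
  obtain rfl : b = 0 := by omega
  exact hB6_126_0

/-- the certificate for the classes `0 0 1 0 0 1`, active pairs `` -/
theorem hC6_127 (hsp : ∀ T ∈ sp6, T.OK 6) : ∀ P : Polygon 6, Sit (pcls [0, 0, 1, 0, 0, 1]) [] P → HasPeriodic P := by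
  refine cert_blk (sp := sp6) (sy := hS6_127) (D := hD6_127) (N := 17)
    (Ns := [hN6_127_0, hN6_127_1]) hsp (by decide) (by decide +kernel) ?_ (by norm_num) (by decide) (by decide +kernel)
  intro b hb
  change b < 2 at hb
  interval_cases b
  · exact hB6_127_0
  · exact hB6_127_1

/-- the certificate for the classes `0 0 1 0 0 1`, active pairs `0-2` -/
theorem hC6_128 (hsp : ∀ T ∈ sp6, T.OK 6) : ∀ P : Polygon 6, Sit (pcls [0, 0, 1, 0, 0, 1]) [(0, 2)] P → HasPeriodic P := by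
  refine cert_blk (sp := sp6) (sy := hS6_128) (D := hD6_128) (N := 45)
    (Ns := [hN6_128_0, hN6_128_1, hN6_128_2, hN6_128_3]) hsp (by decide) (by decide +kernel) ?_ (by norm_num) (by decide) (by decide +kernel)
  intro b hb
  change b < 4 at hb
  interval_cases b
  · exact hB6_128_0
  · exact hB6_128_1
  · exact hB6_128_2
  · exact hB6_128_3

/-- the certificate for the classes `0 0 1 0 0 1`, active pairs `0-2 0-3` -/
theorem hC6_129 (hsp : ∀ T ∈ sp6, T.OK 6) : ∀ P : Polygon 6, Sit (pcls [0, 0, 1, 0, 0, 1]) [(0, 2), (0, 3)] P → HasPeriodic P := by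
  refine cert_blk (sp := sp6) (sy := hS6_129) (D := hD6_129) (N := 1)
    (Ns := [hN6_129_0]) hsp (by decide) (by decide +kernel) ?_ (by norm_num) (by decide) (by decide +kernel)
  intro b hb
  change b < 1 at hb
  obtain rfl : b = 0 := by omega
  exact hB6_129_0

/-- the certificate for the classes `0 0 1 0 0 1`, active pairs `0-2 0-3 0-5` -/
theorem hC6_130 (hsp : ∀ T ∈ sp6, T.OK 6) : ∀ P : Polygon 6, Sit (pcls [0, 0, 1, 0, 0, 1]) [(0, 2), (0, 3), (0, 5)] P → HasPeriodic P := by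
  refine cert_blk (sp := sp6) (sy := hS6_130) (D := hD6_130) (N := 1)
    (Ns := [hN6_130_0]) hsp (by decide) (by decide +kernel) ?_ (by norm_num) (by decide) (by decide +kernel)
  intro b hb
  change b < 1 at hb
  obtain rfl : b = 0 := by omega
  exact hB6_130_0

/-- the certificate for the classes `0 0 1 0 0 1`, active pairs `0-2 0-5` -/
theorem hC6_131 (hsp : ∀ T ∈ sp6, T.OK 6) : ∀ P : Polygon 6, Sit (pcls [0, 0, 1, 0, 0, 1]) [(0, 2), (0, 5)] P → HasPeriodic P := by
  refine cert_blk (sp := sp6) (sy := hS6_131) (D := hD6_131) (N := 1)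
    (Ns := [hN6_131_0]) hsp (by decide) (by decide +kernel) ?_ (by norm_num) (by decide) (by decide +kernel)
  intro b hb
  change b < 1 at hb
  obtain rfl : b = 0 := by omega
  exact hB6_131_0

/-- the certificate for the classes `0 0 1 0 0 1`, active pairs `0-3` -/
theorem hC6_132 (hsp : ∀ T ∈ sp6, T.OK 6) : ∀ P : Polygon 6, Sit (pcls [0, 0, 1, 0, 0, 1]) [(0, 3)] P → HasPeriodic P := by
  refine cert_blk (sp := sp6) (sy := hS6_132) (D := hD6_132) (N := 1)
    (Ns := [hN6_132_0]) hsp (by decide) (by decide +kernel) ?_ (by norm_num) (by decide) (by decide +kernel)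
  intro b hb
  change b < 1 at hb
  obtain rfl : b = 0 := by omega
  exact hB6_132_0

/-- the certificate for the classes `0 0 1 0 0 1`, active pairs `0-3 0-5` -/
theorem hC6_133 (hsp : ∀ T ∈ sp6, T.OK 6) : ∀ P : Polygon 6, Sit (pcls [0, 0, 1, 0, 0, 1]) [(0, 3), (0, 5)] P → HasPeriodic P := by
  refine cert_blk (sp := sp6) (sy := hS6_133) (D := hD6_133) (N := 1)
    (Ns := [hN6_133_0]) hsp (by decide) (by decide +kernel) ?_ (by norm_num) (by decide) (by decide +kernel)
  intro b hb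
  change b < 1 at hb
  obtain rfl : b = 0 := by omega
  exact hB6_133_0

/-- the certificate for the classes `0 0 1 0 0 1`, active pairs `0-5` -/
theorem hC6_134 (hsp : ∀ T ∈ sp6, T.OK 6) : ∀ P : Polygon 6, Sit (pcls [0, 0, 1, 0, 0, 1]) [(0, 5)] P → HasPeriodic P := by
  refine cert_blk (sp := sp6) (sy := hS6_134) (D := hD6_134) (N := 1)
    (Ns := [hN6_134_0]) hsp (by decide) (by decide +kernel) ?_ (by norm_num) (by decide) (by decide +kernel)
  intro b hb
  change b < 1 at hb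
  obtain rfl : b = 0 := by omega
  exact hB6_134_0

/-- the certificate for the classes `0 0 1 0 0 1`, active pairs `1-4` -/
theorem hC6_135 (hsp : ∀ T ∈ sp6, T.OK 6) : ∀ P : Polygon 6, Sit (pcls [0, 0, 1, 0, 0, 1]) [(1, 4)] P → HasPeriodic P := by
  refine cert_blk (sp := sp6) (sy := hS6_135) (D := hD6_135) (N := 1)
    (Ns := [hN6_135_0]) hsp (by decide) (by decide +kernel) ?_ (by norm_num) (by decide) (by decide +kernel)
  intro b hb
  change b < 1 at hb
  obtain rfl : b = 0 := by omega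
  exact hB6_135_0

/-- the certificate for the classes `0 0 1 0 1 1`, active pairs `` -/
theorem hC6_136 (hsp : ∀ T ∈ sp6, T.OK 6) : ∀ P : Polygon 6, Sit (pcls [0, 0, 1, 0, 1, 1]) [] P → HasPeriodic P := by
  refine cert_blk (sp := sp6) (sy := hS6_136) (D := hD6_136) (N := 3)
    (Ns := [hN6_136_0]) hsp (by decide) (by decide +kernel) ?_ (by norm_num) (by decide) (by decide +kernel)
  intro b hb
  change b < 1 at hb
  obtain rfl : b = 0 := by omega
  exact hB6_136_0

/-- the certificate for the classes `0 0 1 0 1 1`, active pairs `0-2` -/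
theorem hC6_137 (hsp : ∀ T ∈ sp6, T.OK 6) : ∀ P : Polygon 6, Sit (pcls [0, 0, 1, 0, 1, 1]) [(0, 2)] P → HasPeriodic P := by
  refine cert_blk (sp := sp6) (sy := hS6_137) (D := hD6_137) (N := 87)
    (Ns := [hN6_137_0, hN6_137_1, hN6_137_2, hN6_137_3, hN6_137_4, hN6_137_5, hN6_137_6, hN6_137_7]) hsp (by decide) (by decide +kernel) ?_ (by norm_num) (by decide) (by decide +kernel)
  intro b hb
  change b < 8 at hb
  interval_cases b
  · exact hB6_137_0
  · exact hB6_137_1
  · exact hB6_137_2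
  · exact hB6_137_3
  · exact hB6_137_4
  · exact hB6_137_5
  · exact hB6_137_6
  · exact hB6_137_7

/-- the certificate for the classes `0 0 1 0 1 1`, active pairs `0-2 0-3` -/
theorem hC6_138 (hsp : ∀ T ∈ sp6, T.OK 6) : ∀ P : Polygon 6, Sit (pcls [0, 0, 1, 0, 1, 1]) [(0, 2), (0, 3)] P → HasPeriodic P := by
  refine cert_blk (sp := sp6) (sy := hS6_138) (D := hD6_138) (N := 1)
    (Ns := [hN6_138_0]) hsp (by decide) (by decide +kernel) ?_ (by norm_num) (by decide) (by decide +kernel)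
  intro b hb
  change b < 1 at hb
  obtain rfl : b = 0 := by omega
  exact hB6_138_0

/-- the certificate for the classes `0 0 1 0 1 1`, active pairs `0-2 0-3 0-4` -/
theorem hC6_139 (hsp : ∀ T ∈ sp6, T.OK 6) : ∀ P : Polygon 6, Sit (pcls [0, 0, 1, 0, 1, 1]) [(0, 2), (0, 3), (0, 4)] P → HasPeriodic P := by
  refine cert_blk (sp := sp6) (sy := hS6_139) (D := hD6_139) (N := 1)
    (Ns := [hN6_139_0]) hsp (by decide) (by decide +kernel) ?_ (by norm_num) (by decide) (by decide +kernel)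
  intro b hb
  change b < 1 at hb
  obtain rfl : b = 0 := by omega
  exact hB6_139_0

/-- the certificate for the classes `0 0 1 0 1 1`, active pairs `0-2 0-4` -/
theorem hC6_140 (hsp : ∀ T ∈ sp6, T.OK 6) : ∀ P : Polygon 6, Sit (pcls [0, 0, 1, 0, 1, 1]) [(0, 2), (0, 4)] P → HasPeriodic P := by
  refine cert_blk (sp := sp6) (sy := hS6_140) (D := hD6_140) (N := 40)
    (Ns := [hN6_140_0, hN6_140_1, hN6_140_2, hN6_140_3]) hsp (by decide) (by decide +kernel) ?_ (by norm_num) (by decide) (by decide +kernel)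
  intro b hb
  change b < 4 at hb
  interval_cases b
  · exact hB6_140_0
  · exact hB6_140_1
  · exact hB6_140_2
  · exact hB6_140_3

/-- the certificate for the classes `0 0 1 0 1 1`, active pairs `0-2 2-3` -/
theorem hC6_141 (hsp : ∀ T ∈ sp6, T.OK 6) : ∀ P : Polygon 6, Sit (pcls [0, 0, 1, 0, 1, 1]) [(0, 2), (2, 3)] P → HasPeriodic P := by
  refine cert_blk (sp := sp6) (sy := hS6_141) (D := hD6_141) (N := 1)
    (Ns := [hN6_141_0]) hsp (by decide) (by decide +kernel) ?_ (by norm_num) (by decide) (by decide +kernel)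
  intro b hb
  change b < 1 at hb
  obtain rfl : b = 0 := by omega
  exact hB6_141_0

/-- the certificate for the classes `0 0 1 0 1 1`, active pairs `0-2 2-3 2-4` -/
theorem hC6_142 (hsp : ∀ T ∈ sp6, T.OK 6) : ∀ P : Polygon 6, Sit (pcls [0, 0, 1, 0, 1, 1]) [(0, 2), (2, 3), (2, 4)] P → HasPeriodic P := by
  refine cert_blk (sp := sp6) (sy := hS6_142) (D := hD6_142) (N := 1)
    (Ns := [hN6_142_0]) hsp (by decide) (by decide +kernel) ?_ (by norm_num) (by decide) (by decide +kernel)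
  intro b hb
  change b < 1 at hb
  obtain rfl : b = 0 := by omega
  exact hB6_142_0

/-- the certificate for the classes `0 0 1 0 1 1`, active pairs `0-2 2-4` -/
theorem hC6_143 (hsp : ∀ T ∈ sp6, T.OK 6) : ∀ P : Polygon 6, Sit (pcls [0, 0, 1, 0, 1, 1]) [(0, 2), (2, 4)] P → HasPeriodic P := by
  refine cert_blk (sp := sp6) (sy := hS6_143) (D := hD6_143) (N := 1)
    (Ns := [hN6_143_0]) hsp (by decide) (by decide +kernel) ?_ (by norm_num) (by decide) (by decide +kernel)
  intro b hb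
  change b < 1 at hb
  obtain rfl : b = 0 := by omega
  exact hB6_143_0

/-- the certificate for the classes `0 0 1 0 1 1`, active pairs `0-3` -/
theorem hC6_144 (hsp : ∀ T ∈ sp6, T.OK 6) : ∀ P : Polygon 6, Sit (pcls [0, 0, 1, 0, 1, 1]) [(0, 3)] P → HasPeriodic P := by
  refine cert_blk (sp := sp6) (sy := hS6_144) (D := hD6_144) (N := 1)
    (Ns := [hN6_144_0]) hsp (by decide) (by decide +kernel) ?_ (by norm_num) (by decide) (by decide +kernel)
  intro b hb
  change b < 1 at hb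
  obtain rfl : b = 0 := by omega
  exact hB6_144_0

/-- the certificate for the classes `0 0 1 0 1 1`, active pairs `0-3 2-3` -/
theorem hC6_145 (hsp : ∀ T ∈ sp6, T.OK 6) : ∀ P : Polygon 6, Sit (pcls [0, 0, 1, 0, 1, 1]) [(0, 3), (2, 3)] P → HasPeriodic P := by
  refine cert_blk (sp := sp6) (sy := hS6_145) (D := hD6_145) (N := 1)
    (Ns := [hN6_145_0]) hsp (by decide) (by decide +kernel) ?_ (by norm_num) (by decide) (by decide +kernel)
  intro b hb
  change b < 1 at hb
  obtain rfl : b = 0 := by omega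
  exact hB6_145_0

/-- the certificate for the classes `0 0 1 0 1 1`, active pairs `0-3 2-3 3-4` -/
theorem hC6_146 (hsp : ∀ T ∈ sp6, T.OK 6) : ∀ P : Polygon 6, Sit (pcls [0, 0, 1, 0, 1, 1]) [(0, 3), (2, 3), (3, 4)] P → HasPeriodic P := by
  refine cert_blk (sp := sp6) (sy := hS6_146) (D := hD6_146) (N := 1)
    (Ns := [hN6_146_0]) hsp (by decide) (by decide +kernel) ?_ (by norm_num) (by decide) (by decide +kernel)
  intro b hb
  change b < 1 at hb
  obtain rfl : b = 0 := by omega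
  exact hB6_146_0

/-- the certificate for the classes `0 0 1 0 1 1`, active pairs `2-3` -/
theorem hC6_147 (hsp : ∀ T ∈ sp6, T.OK 6) : ∀ P : Polygon 6, Sit (pcls [0, 0, 1, 0, 1, 1]) [(2, 3)] P → HasPeriodic P := by
  refine cert_blk (sp := sp6) (sy := hS6_147) (D := hD6_147) (N := 1)
    (Ns := [hN6_147_0]) hsp (by decide) (by decide +kernel) ?_ (by norm_num) (by decide) (by decide +kernel)
  intro b hb
  change b < 1 at hb
  obtain rfl : b = 0 := by omega
  exact hB6_147_0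

/-- the certificate for the classes `0 0 1 0 1 1`, active pairs `2-3 2-4` -/
theorem hC6_148 (hsp : ∀ T ∈ sp6, T.OK 6) : ∀ P : Polygon 6, Sit (pcls [0, 0, 1, 0, 1, 1]) [(2, 3), (2, 4)] P → HasPeriodic P := by
  refine cert_blk (sp := sp6) (sy := hS6_148) (D := hD6_148) (N := 1)
    (Ns := [hN6_148_0]) hsp (by decide) (by decide +kernel) ?_ (by norm_num) (by decide) (by decide +kernel)
  intro b hb
  change b < 1 at hb
  obtain rfl : b = 0 := by omega
  exact hB6_148_0

/-- the certificate for the classes `0 0 1 0 1 1`, active pairs `2-3 3-4` -/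
theorem hC6_149 (hsp : ∀ T ∈ sp6, T.OK 6) : ∀ P : Polygon 6, Sit (pcls [0, 0, 1, 0, 1, 1]) [(2, 3), (3, 4)] P → HasPeriodic P := by
  refine cert_blk (sp := sp6) (sy := hS6_149) (D := hD6_149) (N := 1)
    (Ns := [hN6_149_0]) hsp (by decide) (by decide +kernel) ?_ (by norm_num) (by decide) (by decide +kernel)
  intro b hb
  change b < 1 at hb
  obtain rfl : b = 0 := by omega
  exact hB6_149_0

/-- the certificate for the classes `0 0 1 0 1 1`, active pairs `2-4` -/
theorem hC6_150 (hsp : ∀ T ∈ sp6, T.OK 6) : ∀ P : Polygon 6, Sit (pcls [0, 0, 1, 0, 1, 1]) [(2, 4)] P → HasPeriodic P := by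
  refine cert_blk (sp := sp6) (sy := hS6_150) (D := hD6_150) (N := 1)
    (Ns := [hN6_150_0]) hsp (by decide) (by decide +kernel) ?_ (by norm_num) (by decide) (by decide +kernel)
  intro b hb
  change b < 1 at hb
  obtain rfl : b = 0 := by omega
  exact hB6_150_0

/-- the certificate for the classes `0 1 0 1 0 1`, active pairs `` -/
theorem hC6_151 (hsp : ∀ T ∈ sp6, T.OK 6) : ∀ P : Polygon 6, Sit (pcls [0, 1, 0, 1, 0, 1]) [] P → HasPeriodic P := by
  refine cert_blk (sp := sp6) (sy := hS6_151) (D := hD6_151) (N := 1)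
    (Ns := [hN6_151_0]) hsp (by decide) (by decide +kernel) ?_ (by norm_num) (by decide) (by decide +kernel)
  intro b hb
  change b < 1 at hb
  obtain rfl : b = 0 := by omega
  exact hB6_151_0

/-- the certificate for the classes `0 1 0 1 0 1`, active pairs `0-1` -/
theorem hC6_152 (hsp : ∀ T ∈ sp6, T.OK 6) : ∀ P : Polygon 6, Sit (pcls [0, 1, 0, 1, 0, 1]) [(0, 1)] P → HasPeriodic P := by
  refine cert_blk (sp := sp6) (sy := hS6_152) (D := hD6_152) (N := 1)
    (Ns := [hN6_152_0]) hsp (by decide) (by decide +kernel) ?_ (by norm_num) (by decide) (by decide +kernel)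
  intro b hb
  change b < 1 at hb
  obtain rfl : b = 0 := by omega
  exact hB6_152_0

/-- the certificate for the classes `0 1 0 1 0 1`, active pairs `0-1 0-2` -/
theorem hC6_153 (hsp : ∀ T ∈ sp6, T.OK 6) : ∀ P : Polygon 6, Sit (pcls [0, 1, 0, 1, 0, 1]) [(0, 1), (0, 2)] P → HasPeriodic P := by
  refine cert_blk (sp := sp6) (sy := hS6_153) (D := hD6_153) (N := 1)
    (Ns := [hN6_153_0]) hsp (by decide) (by decide +kernel) ?_ (by norm_num) (by decide) (by decide +kernel)
  intro b hb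
  change b < 1 at hb
  obtain rfl : b = 0 := by omega
  exact hB6_153_0

/-- the certificate for the classes `0 1 0 1 0 1`, active pairs `0-1 0-2 0-3` -/
theorem hC6_154 (hsp : ∀ T ∈ sp6, T.OK 6) : ∀ P : Polygon 6, Sit (pcls [0, 1, 0, 1, 0, 1]) [(0, 1), (0, 2), (0, 3)] P → HasPeriodic P := by
  refine cert_blk (sp := sp6) (sy := hS6_154) (D := hD6_154) (N := 1)
    (Ns := [hN6_154_0]) hsp (by decide) (by decide +kernel) ?_ (by norm_num) (by decide) (by decide +kernel)
  intro b hb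
  change b < 1 at hb
  obtain rfl : b = 0 := by omega
  exact hB6_154_0

/-- the certificate for the classes `0 1 0 1 0 1`, active pairs `0-1 0-2 0-3 0-4` -/
theorem hC6_155 (hsp : ∀ T ∈ sp6, T.OK 6) : ∀ P : Polygon 6, Sit (pcls [0, 1, 0, 1, 0, 1]) [(0, 1), (0, 2), (0, 3), (0, 4)] P → HasPeriodic P := by
  refine cert_blk (sp := sp6) (sy := hS6_155) (D := hD6_155) (N := 1)
    (Ns := [hN6_155_0]) hsp (by decide) (by decide +kernel) ?_ (by norm_num) (by decide) (by decide +kernel)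
  intro b hb
  change b < 1 at hb
  obtain rfl : b = 0 := by omega
  exact hB6_155_0

/-- the certificate for the classes `0 1 0 1 0 1`, active pairs `0-1 0-2 0-3 0-4 0-5` -/
theorem hC6_156 (hsp : ∀ T ∈ sp6, T.OK 6) : ∀ P : Polygon 6, Sit (pcls [0, 1, 0, 1, 0, 1]) [(0, 1), (0, 2), (0, 3), (0, 4), (0, 5)] P → HasPeriodic P := by
  refine cert_blk (sp := sp6) (sy := hS6_156) (D := hD6_156) (N := 1)
    (Ns := [hN6_156_0]) hsp (by decide) (by decide +kernel) ?_ (by norm_num) (by decide) (by decide +kernel)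
  intro b hb
  change b < 1 at hb
  obtain rfl : b = 0 := by omega
  exact hB6_156_0

/-- the certificate for the classes `0 1 0 1 0 1`, active pairs `0-1 0-2 0-3 0-5` -/
theorem hC6_157 (hsp : ∀ T ∈ sp6, T.OK 6) : ∀ P : Polygon 6, Sit (pcls [0, 1, 0, 1, 0, 1]) [(0, 1), (0, 2), (0, 3), (0, 5)] P → HasPeriodic P := by
  refine cert_blk (sp := sp6) (sy := hS6_157) (D := hD6_157) (N := 1)
    (Ns := [hN6_157_0]) hsp (by decide) (by decide +kernel) ?_ (by norm_num) (by decide) (by decide +kernel)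
  intro b hb
  change b < 1 at hb
  obtain rfl : b = 0 := by omega
  exact hB6_157_0

/-- the certificate for the classes `0 1 0 1 0 1`, active pairs `0-1 0-2 0-4` -/
theorem hC6_158 (hsp : ∀ T ∈ sp6, T.OK 6) : ∀ P : Polygon 6, Sit (pcls [0, 1, 0, 1, 0, 1]) [(0, 1), (0, 2), (0, 4)] P → HasPeriodic P := by
  refine cert_blk (sp := sp6) (sy := hS6_158) (D := hD6_158) (N := 1)
    (Ns := [hN6_158_0]) hsp (by decide) (by decide +kernel) ?_ (by norm_num) (by decide) (by decide +kernel)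
  intro b hb
  change b < 1 at hb
  obtain rfl : b = 0 := by omega
  exact hB6_158_0

/-- the certificate for the classes `0 1 0 1 0 1`, active pairs `0-1 0-2 0-4 0-5` -/
theorem hC6_159 (hsp : ∀ T ∈ sp6, T.OK 6) : ∀ P : Polygon 6, Sit (pcls [0, 1, 0, 1, 0, 1]) [(0, 1), (0, 2), (0, 4), (0, 5)] P → HasPeriodic P := by
  refine cert_blk (sp := sp6) (sy := hS6_159) (D := hD6_159) (N := 1)
    (Ns := [hN6_159_0]) hsp (by decide) (by decide +kernel) ?_ (by norm_num) (by decide) (by decide +kernel)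
  intro b hb
  change b < 1 at hb
  obtain rfl : b = 0 := by omega
  exact hB6_159_0

/-- the certificate for the classes `0 1 0 1 0 1`, active pairs `0-1 0-2 0-5` -/
theorem hC6_160 (hsp : ∀ T ∈ sp6, T.OK 6) : ∀ P : Polygon 6, Sit (pcls [0, 1, 0, 1, 0, 1]) [(0, 1), (0, 2), (0, 5)] P → HasPeriodic P := by
  refine cert_blk (sp := sp6) (sy := hS6_160) (D := hD6_160) (N := 1)
    (Ns := [hN6_160_0]) hsp (by decide) (by decide +kernel) ?_ (by norm_num) (by decide) (by decide +kernel)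
  intro b hb
  change b < 1 at hb
  obtain rfl : b = 0 := by omega
  exact hB6_160_0

/-- the certificate for the classes `0 1 0 1 0 1`, active pairs `0-1 0-3` -/
theorem hC6_161 (hsp : ∀ T ∈ sp6, T.OK 6) : ∀ P : Polygon 6, Sit (pcls [0, 1, 0, 1, 0, 1]) [(0, 1), (0, 3)] P → HasPeriodic P := by
  refine cert_blk (sp := sp6) (sy := hS6_161) (D := hD6_161) (N := 1)
    (Ns := [hN6_161_0]) hsp (by decide) (by decide +kernel) ?_ (by norm_num) (by decide) (by decide +kernel)
  intro b hb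
  change b < 1 at hb
  obtain rfl : b = 0 := by omega
  exact hB6_161_0

/-- the certificate for the classes `0 1 0 1 0 1`, active pairs `0-1 0-3 0-4` -/
theorem hC6_162 (hsp : ∀ T ∈ sp6, T.OK 6) : ∀ P : Polygon 6, Sit (pcls [0, 1, 0, 1, 0, 1]) [(0, 1), (0, 3), (0, 4)] P → HasPeriodic P := by
  refine cert_blk (sp := sp6) (sy := hS6_162) (D := hD6_162) (N := 1)
    (Ns := [hN6_162_0]) hsp (by decide) (by decide +kernel) ?_ (by norm_num) (by decide) (by decide +kernel)
  intro b hb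
  change b < 1 at hb
  obtain rfl : b = 0 := by omega
  exact hB6_162_0

/-- the certificate for the classes `0 1 0 1 0 1`, active pairs `0-1 0-3 0-5` -/
theorem hC6_163 (hsp : ∀ T ∈ sp6, T.OK 6) : ∀ P : Polygon 6, Sit (pcls [0, 1, 0, 1, 0, 1]) [(0, 1), (0, 3), (0, 5)] P → HasPeriodic P := by
  refine cert_blk (sp := sp6) (sy := hS6_163) (D := hD6_163) (N := 1)
    (Ns := [hN6_163_0]) hsp (by decide) (by decide +kernel) ?_ (by norm_num) (by decide) (by decide +kernel)
  intro b hb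
  change b < 1 at hb
  obtain rfl : b = 0 := by omega
  exact hB6_163_0

/-- the certificate for the classes `0 1 0 1 0 1`, active pairs `0-1 0-4` -/
theorem hC6_164 (hsp : ∀ T ∈ sp6, T.OK 6) : ∀ P : Polygon 6, Sit (pcls [0, 1, 0, 1, 0, 1]) [(0, 1), (0, 4)] P → HasPeriodic P := by
  refine cert_blk (sp := sp6) (sy := hS6_164) (D := hD6_164) (N := 1)
    (Ns := [hN6_164_0]) hsp (by decide) (by decide +kernel) ?_ (by norm_num) (by decide) (by decide +kernel)
  intro b hb
  change b < 1 at hb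
  obtain rfl : b = 0 := by omega
  exact hB6_164_0

/-- the certificate for the classes `0 1 0 1 0 1`, active pairs `0-1 0-5` -/
theorem hC6_165 (hsp : ∀ T ∈ sp6, T.OK 6) : ∀ P : Polygon 6, Sit (pcls [0, 1, 0, 1, 0, 1]) [(0, 1), (0, 5)] P → HasPeriodic P := by
  refine cert_blk (sp := sp6) (sy := hS6_165) (D := hD6_165) (N := 1)
    (Ns := [hN6_165_0]) hsp (by decide) (by decide +kernel) ?_ (by norm_num) (by decide) (by decide +kernel)
  intro b hb
  change b < 1 at hb
  obtain rfl : b = 0 := by omega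
  exact hB6_165_0

/-- the certificate for the classes `0 1 0 1 0 1`, active pairs `0-2` -/
theorem hC6_166 (hsp : ∀ T ∈ sp6, T.OK 6) : ∀ P : Polygon 6, Sit (pcls [0, 1, 0, 1, 0, 1]) [(0, 2)] P → HasPeriodic P := by
  refine cert_blk (sp := sp6) (sy := hS6_166) (D := hD6_166) (N := 1)
    (Ns := [hN6_166_0]) hsp (by decide) (by decide +kernel) ?_ (by norm_num) (by decide) (by decide +kernel)
  intro b hb
  change b < 1 at hb
  obtain rfl : b = 0 := by omega
  exact hB6_166_0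

/-- the certificate for the classes `0 1 0 1 0 1`, active pairs `0-2 0-3` -/
theorem hC6_167 (hsp : ∀ T ∈ sp6, T.OK 6) : ∀ P : Polygon 6, Sit (pcls [0, 1, 0, 1, 0, 1]) [(0, 2), (0, 3)] P → HasPeriodic P := by
  refine cert_blk (sp := sp6) (sy := hS6_167) (D := hD6_167) (N := 1)
    (Ns := [hN6_167_0]) hsp (by decide) (by decide +kernel) ?_ (by norm_num) (by decide) (by decide +kernel)
  intro b hb
  change b < 1 at hb
  obtain rfl : b = 0 := by omega
  exact hB6_167_0

/-- the certificate for the classes `0 1 0 1 0 1`, active pairs `0-2 0-3 0-4` -/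
theorem hC6_168 (hsp : ∀ T ∈ sp6, T.OK 6) : ∀ P : Polygon 6, Sit (pcls [0, 1, 0, 1, 0, 1]) [(0, 2), (0, 3), (0, 4)] P → HasPeriodic P := by
  refine cert_blk (sp := sp6) (sy := hS6_168) (D := hD6_168) (N := 1)
    (Ns := [hN6_168_0]) hsp (by decide) (by decide +kernel) ?_ (by norm_num) (by decide) (by decide +kernel)
  intro b hb
  change b < 1 at hb
  obtain rfl : b = 0 := by omega
  exact hB6_168_0

/-- the certificate for the classes `0 1 0 1 0 1`, active pairs `0-2 0-4` -/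
theorem hC6_169 (hsp : ∀ T ∈ sp6, T.OK 6) : ∀ P : Polygon 6, Sit (pcls [0, 1, 0, 1, 0, 1]) [(0, 2), (0, 4)] P → HasPeriodic P := by
  refine cert_blk (sp := sp6) (sy := hS6_169) (D := hD6_169) (N := 1)
    (Ns := [hN6_169_0]) hsp (by decide) (by decide +kernel) ?_ (by norm_num) (by decide) (by decide +kernel)
  intro b hb
  change b < 1 at hb
  obtain rfl : b = 0 := by omega
  exact hB6_169_0

/-- the certificate for the classes `0 1 0 1 0 1`, active pairs `0-3` -/
theorem hC6_170 (hsp : ∀ T ∈ sp6, T.OK 6) : ∀ P : Polygon 6, Sit (pcls [0, 1, 0, 1, 0, 1]) [(0, 3)] P → HasPeriodic P := by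
  refine cert_blk (sp := sp6) (sy := hS6_170) (D := hD6_170) (N := 2)
    (Ns := [hN6_170_0]) hsp (by decide) (by decide +kernel) ?_ (by norm_num) (by decide) (by decide +kernel)
  intro b hb
  change b < 1 at hb
  obtain rfl : b = 0 := by omega
  exact hB6_170_0

/-- the certificate for the classes `0 0 0 0 0 0`, active pairs `` -/
theorem hC6_171 (hsp : ∀ T ∈ sp6, T.OK 6) : ∀ P : Polygon 6, Sit (pcls [0, 0, 0, 0, 0, 0]) [] P → HasPeriodic P := by
  refine cert_blk (sp := sp6) (sy := hS6_171) (D := hD6_171) (N := 560)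
    (Ns := [hN6_171_0, hN6_171_1, hN6_171_2, hN6_171_3, hN6_171_4, hN6_171_5, hN6_171_6, hN6_171_7, hN6_171_8, hN6_171_9, hN6_171_10, hN6_171_11, hN6_171_12, hN6_171_13, hN6_171_14, hN6_171_15, hN6_171_16, hN6_171_17, hN6_171_18, hN6_171_19, hN6_171_20, hN6_171_21, hN6_171_22, hN6_171_23, hN6_171_24, hN6_171_25, hN6_171_26, hN6_171_27, hN6_171_28, hN6_171_29, hN6_171_30, hN6_171_31, hN6_171_32, hN6_171_33, hN6_171_34, hN6_171_35, hN6_171_36, hN6_171_37, hN6_171_38, hN6_171_39, hN6_171_40, hN6_171_41, hN6_171_42, hN6_171_43, hN6_171_44, hN6_171_45, hN6_171_46]) hsp (by decide) (by decide +kernel) ?_ (by norm_num) (by decide) (by decide +kernel)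
  intro b hb
  change b < 47 at hb
  interval_cases b
  · exact hB6_171_0
  · exact hB6_171_1
  · exact hB6_171_2
  · exact hB6_171_3
  · exact hB6_171_4
  · exact hB6_171_5
  · exact hB6_171_6
  · exact hB6_171_7
  · exact hB6_171_8
  · exact hB6_171_9
  · exact hB6_171_10
  · exact hB6_171_11
  · exact hB6_171_12
  · exact hB6_171_13
  · exact hB6_171_14
  · exact hB6_171_15
  · exact hB6_171_16
  · exact hB6_171_17
  · exact hB6_171_18
  · exact hB6_171_19
  · exact hB6_171_20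
  · exact hB6_171_21
  · exact hB6_171_22
  · exact hB6_171_23
  · exact hB6_171_24
  · exact hB6_171_25
  · exact hB6_171_26
  · exact hB6_171_27
  · exact hB6_171_28
  · exact hB6_171_29
  · exact hB6_171_30
  · exact hB6_171_31
  · exact hB6_171_32
  · exact hB6_171_33
  · exact hB6_171_34
  · exact hB6_171_35
  · exact hB6_171_36
  · exact hB6_171_37
  · exact hB6_171_38
  · exact hB6_171_39
  · exact hB6_171_40
  · exact hB6_171_41
  · exact hB6_171_42
  · exact hB6_171_43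
  · exact hB6_171_44
  · exact hB6_171_45
  · exact hB6_171_46

/-- the certificate for the classes `0 0 0 0 0 0`, active pairs `0-1` -/
theorem hC6_172 (hsp : ∀ T ∈ sp6, T.OK 6) : ∀ P : Polygon 6, Sit (pcls [0, 0, 0, 0, 0, 0]) [(0, 1)] P → HasPeriodic P := by
  refine cert_blk (sp := sp6) (sy := hS6_172) (D := hD6_172) (N := 1)
    (Ns := [hN6_172_0]) hsp (by decide) (by decide +kernel) ?_ (by norm_num) (by decide) (by decide +kernel)
  intro b hb
  change b < 1 at hb
  obtain rfl : b = 0 := by omega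
  exact hB6_172_0

/-- the certificate for the classes `0 0 0 0 0 0`, active pairs `0-1 0-2` -/
theorem hC6_173 (hsp : ∀ T ∈ sp6, T.OK 6) : ∀ P : Polygon 6, Sit (pcls [0, 0, 0, 0, 0, 0]) [(0, 1), (0, 2)] P → HasPeriodic P := by
  refine cert_blk (sp := sp6) (sy := hS6_173) (D := hD6_173) (N := 1)
    (Ns := [hN6_173_0]) hsp (by decide) (by decide +kernel) ?_ (by norm_num) (by decide) (by decide +kernel)
  intro b hb
  change b < 1 at hb
  obtain rfl : b = 0 := by omega
  exact hB6_173_0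

/-- the certificate for the classes `0 0 0 0 0 0`, active pairs `0-1 0-2 0-3` -/
theorem hC6_174 (hsp : ∀ T ∈ sp6, T.OK 6) : ∀ P : Polygon 6, Sit (pcls [0, 0, 0, 0, 0, 0]) [(0, 1), (0, 2), (0, 3)] P → HasPeriodic P := by
  refine cert_blk (sp := sp6) (sy := hS6_174) (D := hD6_174) (N := 1)
    (Ns := [hN6_174_0]) hsp (by decide) (by decide +kernel) ?_ (by norm_num) (by decide) (by decide +kernel)
  intro b hb
  change b < 1 at hb
  obtain rfl : b = 0 := by omega
  exact hB6_174_0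

/-- the certificate for the classes `0 0 0 0 0 0`, active pairs `0-1 0-2 0-3 0-4` -/
theorem hC6_175 (hsp : ∀ T ∈ sp6, T.OK 6) : ∀ P : Polygon 6, Sit (pcls [0, 0, 0, 0, 0, 0]) [(0, 1), (0, 2), (0, 3), (0, 4)] P → HasPeriodic P := by
  refine cert_blk (sp := sp6) (sy := hS6_175) (D := hD6_175) (N := 1)
    (Ns := [hN6_175_0]) hsp (by decide) (by decide +kernel) ?_ (by norm_num) (by decide) (by decide +kernel)
  intro b hb
  change b < 1 at hb
  obtain rfl : b = 0 := by omega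
  exact hB6_175_0

/-- the certificate for the classes `0 0 0 0 0 0`, active pairs `0-1 0-2 0-3 0-4 0-5` -/
theorem hC6_176 (hsp : ∀ T ∈ sp6, T.OK 6) : ∀ P : Polygon 6, Sit (pcls [0, 0, 0, 0, 0, 0]) [(0, 1), (0, 2), (0, 3), (0, 4), (0, 5)] P → HasPeriodic P := by
  refine cert_blk (sp := sp6) (sy := hS6_176) (D := hD6_176) (N := 1)
    (Ns := [hN6_176_0]) hsp (by decide) (by decide +kernel) ?_ (by norm_num) (by decide) (by decide +kernel)
  intro b hb
  change b < 1 at hb
  obtain rfl : b = 0 := by omega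
  exact hB6_176_0

/-- the certificate for the classes `0 0 0 0 0 0`, active pairs `0-1 0-2 0-3 0-5` -/
theorem hC6_177 (hsp : ∀ T ∈ sp6, T.OK 6) : ∀ P : Polygon 6, Sit (pcls [0, 0, 0, 0, 0, 0]) [(0, 1), (0, 2), (0, 3), (0, 5)] P → HasPeriodic P := by
  refine cert_blk (sp := sp6) (sy := hS6_177) (D := hD6_177) (N := 1)
    (Ns := [hN6_177_0]) hsp (by decide) (by decide +kernel) ?_ (by norm_num) (by decide) (by decide +kernel)
  intro b hb
  change b < 1 at hb
  obtain rfl : b = 0 := by omega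
  exact hB6_177_0

/-- the certificate for the classes `0 0 0 0 0 0`, active pairs `0-1 0-2 0-4` -/
theorem hC6_178 (hsp : ∀ T ∈ sp6, T.OK 6) : ∀ P : Polygon 6, Sit (pcls [0, 0, 0, 0, 0, 0]) [(0, 1), (0, 2), (0, 4)] P → HasPeriodic P := by
  refine cert_blk (sp := sp6) (sy := hS6_178) (D := hD6_178) (N := 1)
    (Ns := [hN6_178_0]) hsp (by decide) (by decide +kernel) ?_ (by norm_num) (by decide) (by decide +kernel)
  intro b hb
  change b < 1 at hb
  obtain rfl : b = 0 := by omega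
  exact hB6_178_0

/-- the certificate for the classes `0 0 0 0 0 0`, active pairs `0-1 0-2 0-4 0-5` -/
theorem hC6_179 (hsp : ∀ T ∈ sp6, T.OK 6) : ∀ P : Polygon 6, Sit (pcls [0, 0, 0, 0, 0, 0]) [(0, 1), (0, 2), (0, 4), (0, 5)] P → HasPeriodic P := by
  refine cert_blk (sp := sp6) (sy := hS6_179) (D := hD6_179) (N := 1)
    (Ns := [hN6_179_0]) hsp (by decide) (by decide +kernel) ?_ (by norm_num) (by decide) (by decide +kernel)
  intro b hb
  change b < 1 at hb
  obtain rfl : b = 0 := by omega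
  exact hB6_179_0

/-- the certificate for the classes `0 0 0 0 0 0`, active pairs `0-1 0-2 0-5` -/
theorem hC6_180 (hsp : ∀ T ∈ sp6, T.OK 6) : ∀ P : Polygon 6, Sit (pcls [0, 0, 0, 0, 0, 0]) [(0, 1), (0, 2), (0, 5)] P → HasPeriodic P := by
  refine cert_blk (sp := sp6) (sy := hS6_180) (D := hD6_180) (N := 1)
    (Ns := [hN6_180_0]) hsp (by decide) (by decide +kernel) ?_ (by norm_num) (by decide) (by decide +kernel)
  intro b hb
  change b < 1 at hb
  obtain rfl : b = 0 := by omega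
  exact hB6_180_0

/-- the certificate for the classes `0 0 0 0 0 0`, active pairs `0-1 0-3` -/
theorem hC6_181 (hsp : ∀ T ∈ sp6, T.OK 6) : ∀ P : Polygon 6, Sit (pcls [0, 0, 0, 0, 0, 0]) [(0, 1), (0, 3)] P → HasPeriodic P := by
  refine cert_blk (sp := sp6) (sy := hS6_181) (D := hD6_181) (N := 1)
    (Ns := [hN6_181_0]) hsp (by decide) (by decide +kernel) ?_ (by norm_num) (by decide) (by decide +kernel)
  intro b hb
  change b < 1 at hb
  obtain rfl : b = 0 := by omega
  exact hB6_181_0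

/-- the certificate for the classes `0 0 0 0 0 0`, active pairs `0-1 0-3 0-4` -/
theorem hC6_182 (hsp : ∀ T ∈ sp6, T.OK 6) : ∀ P : Polygon 6, Sit (pcls [0, 0, 0, 0, 0, 0]) [(0, 1), (0, 3), (0, 4)] P → HasPeriodic P := by
  refine cert_blk (sp := sp6) (sy := hS6_182) (D := hD6_182) (N := 1)
    (Ns := [hN6_182_0]) hsp (by decide) (by decide +kernel) ?_ (by norm_num) (by decide) (by decide +kernel)
  intro b hb
  change b < 1 at hb
  obtain rfl : b = 0 := by omega
  exact hB6_182_0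

/-- the certificate for the classes `0 0 0 0 0 0`, active pairs `0-1 0-3 0-5` -/
theorem hC6_183 (hsp : ∀ T ∈ sp6, T.OK 6) : ∀ P : Polygon 6, Sit (pcls [0, 0, 0, 0, 0, 0]) [(0, 1), (0, 3), (0, 5)] P → HasPeriodic P := by
  refine cert_blk (sp := sp6) (sy := hS6_183) (D := hD6_183) (N := 1)
    (Ns := [hN6_183_0]) hsp (by decide) (by decide +kernel) ?_ (by norm_num) (by decide) (by decide +kernel)
  intro b hb
  change b < 1 at hb
  obtain rfl : b = 0 := by omega
  exact hB6_183_0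

/-- the certificate for the classes `0 0 0 0 0 0`, active pairs `0-1 0-4` -/
theorem hC6_184 (hsp : ∀ T ∈ sp6, T.OK 6) : ∀ P : Polygon 6, Sit (pcls [0, 0, 0, 0, 0, 0]) [(0, 1), (0, 4)] P → HasPeriodic P := by
  refine cert_blk (sp := sp6) (sy := hS6_184) (D := hD6_184) (N := 1)
    (Ns := [hN6_184_0]) hsp (by decide) (by decide +kernel) ?_ (by norm_num) (by decide) (by decide +kernel)
  intro b hb
  change b < 1 at hb
  obtain rfl : b = 0 := by omega
  exact hB6_184_0

/-- the certificate for the classes `0 0 0 0 0 0`, active pairs `0-1 0-5` -/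
theorem hC6_185 (hsp : ∀ T ∈ sp6, T.OK 6) : ∀ P : Polygon 6, Sit (pcls [0, 0, 0, 0, 0, 0]) [(0, 1), (0, 5)] P → HasPeriodic P := by
  refine cert_blk (sp := sp6) (sy := hS6_185) (D := hD6_185) (N := 1)
    (Ns := [hN6_185_0]) hsp (by decide) (by decide +kernel) ?_ (by norm_num) (by decide) (by decide +kernel)
  intro b hb
  change b < 1 at hb
  obtain rfl : b = 0 := by omega
  exact hB6_185_0

/-- the certificate for the classes `0 0 0 0 0 0`, active pairs `0-2` -/
theorem hC6_186 (hsp : ∀ T ∈ sp6, T.OK 6) : ∀ P : Polygon 6, Sit (pcls [0, 0, 0, 0, 0, 0]) [(0, 2)] P → HasPeriodic P := by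
  refine cert_blk (sp := sp6) (sy := hS6_186) (D := hD6_186) (N := 1)
    (Ns := [hN6_186_0]) hsp (by decide) (by decide +kernel) ?_ (by norm_num) (by decide) (by decide +kernel)
  intro b hb
  change b < 1 at hb
  obtain rfl : b = 0 := by omega
  exact hB6_186_0

/-- the certificate for the classes `0 0 0 0 0 0`, active pairs `0-2 0-3` -/
theorem hC6_187 (hsp : ∀ T ∈ sp6, T.OK 6) : ∀ P : Polygon 6, Sit (pcls [0, 0, 0, 0, 0, 0]) [(0, 2), (0, 3)] P → HasPeriodic P := by
  refine cert_blk (sp := sp6) (sy := hS6_187) (D := hD6_187) (N := 1)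
    (Ns := [hN6_187_0]) hsp (by decide) (by decide +kernel) ?_ (by norm_num) (by decide) (by decide +kernel)
  intro b hb
  change b < 1 at hb
  obtain rfl : b = 0 := by omega
  exact hB6_187_0

/-- the certificate for the classes `0 0 0 0 0 0`, active pairs `0-2 0-3 0-4` -/
theorem hC6_188 (hsp : ∀ T ∈ sp6, T.OK 6) : ∀ P : Polygon 6, Sit (pcls [0, 0, 0, 0, 0, 0]) [(0, 2), (0, 3), (0, 4)] P → HasPeriodic P := by
  refine cert_blk (sp := sp6) (sy := hS6_188) (D := hD6_188) (N := 1)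
    (Ns := [hN6_188_0]) hsp (by decide) (by decide +kernel) ?_ (by norm_num) (by decide) (by decide +kernel)
  intro b hb
  change b < 1 at hb
  obtain rfl : b = 0 := by omega
  exact hB6_188_0

/-- the certificate for the classes `0 0 0 0 0 0`, active pairs `0-2 0-4` -/
theorem hC6_189 (hsp : ∀ T ∈ sp6, T.OK 6) : ∀ P : Polygon 6, Sit (pcls [0, 0, 0, 0, 0, 0]) [(0, 2), (0, 4)] P → HasPeriodic P := by
  refine cert_blk (sp := sp6) (sy := hS6_189) (D := hD6_189) (N := 1)
    (Ns := [hN6_189_0]) hsp (by decide) (by decide +kernel) ?_ (by norm_num) (by decide) (by decide +kernel)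
  intro b hb
  change b < 1 at hb
  obtain rfl : b = 0 := by omega
  exact hB6_189_0

/-- the certificate for the classes `0 0 0 0 0 0`, active pairs `0-3` -/
theorem hC6_190 (hsp : ∀ T ∈ sp6, T.OK 6) : ∀ P : Polygon 6, Sit (pcls [0, 0, 0, 0, 0, 0]) [(0, 3)] P → HasPeriodic P := by
  refine cert_blk (sp := sp6) (sy := hS6_190) (D := hD6_190) (N := 1)
    (Ns := [hN6_190_0]) hsp (by decide) (by decide +kernel) ?_ (by norm_num) (by decide) (by decide +kernel)
  intro b hb
  change b < 1 at hb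
  obtain rfl : b = 0 := by omega
  exact hB6_190_0

theorem cert5 (hsp : ∀ T ∈ sp5, T.OK 5) : ∀ q ∈ pat5, ∀ P : Polygon 5, Sit (pcls q.1) q.2 P →
    HasPeriodic P := by
  refine List.forall_mem_cons.2 ⟨hC5_0 hsp, ?_⟩
  refine List.forall_mem_cons.2 ⟨hC5_1 hsp, ?_⟩
  refine List.forall_mem_cons.2 ⟨hC5_2 hsp, ?_⟩
  refine List.forall_mem_cons.2 ⟨hC5_3 hsp, ?_⟩
  refine List.forall_mem_cons.2 ⟨hC5_4 hsp, ?_⟩
  refine List.forall_mem_cons.2 ⟨hC5_5 hsp, ?_⟩
  refine List.forall_mem_cons.2 ⟨hC5_6 hsp, ?_⟩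
  refine List.forall_mem_cons.2 ⟨hC5_7 hsp, ?_⟩
  refine List.forall_mem_cons.2 ⟨hC5_8 hsp, ?_⟩
  refine List.forall_mem_cons.2 ⟨hC5_9 hsp, ?_⟩
  refine List.forall_mem_cons.2 ⟨hC5_10 hsp, ?_⟩
  refine List.forall_mem_cons.2 ⟨hC5_11 hsp, ?_⟩
  refine List.forall_mem_cons.2 ⟨hC5_12 hsp, ?_⟩
  refine List.forall_mem_cons.2 ⟨hC5_13 hsp, ?_⟩
  refine List.forall_mem_cons.2 ⟨hC5_14 hsp, ?_⟩
  refine List.forall_mem_cons.2 ⟨hC5_15 hsp, ?_⟩
  refine List.forall_mem_cons.2 ⟨hC5_16 hsp, ?_⟩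
  refine List.forall_mem_cons.2 ⟨hC5_17 hsp, ?_⟩
  refine List.forall_mem_cons.2 ⟨hC5_18 hsp, ?_⟩
  refine List.forall_mem_cons.2 ⟨hC5_19 hsp, ?_⟩
  refine List.forall_mem_cons.2 ⟨hC5_20 hsp, ?_⟩
  refine List.forall_mem_cons.2 ⟨hC5_21 hsp, ?_⟩
  refine List.forall_mem_cons.2 ⟨hC5_22 hsp, ?_⟩
  refine List.forall_mem_cons.2 ⟨hC5_23 hsp, ?_⟩
  refine List.forall_mem_cons.2 ⟨hC5_24 hsp, ?_⟩
  refine List.forall_mem_cons.2 ⟨hC5_25 hsp, ?_⟩
  refine List.forall_mem_cons.2 ⟨hC5_26 hsp, ?_⟩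
  refine List.forall_mem_cons.2 ⟨hC5_27 hsp, ?_⟩
  refine List.forall_mem_cons.2 ⟨hC5_28 hsp, ?_⟩
  refine List.forall_mem_cons.2 ⟨hC5_29 hsp, ?_⟩
  refine List.forall_mem_cons.2 ⟨hC5_30 hsp, ?_⟩
  refine List.forall_mem_cons.2 ⟨hC5_31 hsp, ?_⟩
  refine List.forall_mem_cons.2 ⟨hC5_32 hsp, ?_⟩
  refine List.forall_mem_cons.2 ⟨hC5_33 hsp, ?_⟩
  refine List.forall_mem_cons.2 ⟨hC5_34 hsp, ?_⟩
  refine List.forall_mem_cons.2 ⟨hC5_35 hsp, ?_⟩
  refine List.forall_mem_cons.2 ⟨hC5_36 hsp, ?_⟩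
  refine List.forall_mem_cons.2 ⟨hC5_37 hsp, ?_⟩
  refine List.forall_mem_cons.2 ⟨hC5_38 hsp, ?_⟩
  refine List.forall_mem_cons.2 ⟨hC5_39 hsp, ?_⟩
  refine List.forall_mem_cons.2 ⟨hC5_40 hsp, ?_⟩
  refine List.forall_mem_cons.2 ⟨hC5_41 hsp, ?_⟩
  refine List.forall_mem_cons.2 ⟨hC5_42 hsp, ?_⟩
  refine List.forall_mem_cons.2 ⟨hC5_43 hsp, ?_⟩
  refine List.forall_mem_cons.2 ⟨hC5_44 hsp, ?_⟩
  refine List.forall_mem_cons.2 ⟨hC5_45 hsp, ?_⟩
  refine List.forall_mem_cons.2 ⟨hC5_46 hsp, ?_⟩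
  refine List.forall_mem_cons.2 ⟨hC5_47 hsp, ?_⟩
  refine List.forall_mem_cons.2 ⟨hC5_48 hsp, ?_⟩
  intro q hq
  exact absurd hq List.not_mem_nil

theorem cert6 (hsp : ∀ T ∈ sp6, T.OK 6) : ∀ q ∈ pat6, ∀ P : Polygon 6, Sit (pcls q.1) q.2 P →
    HasPeriodic P := by
  refine List.forall_mem_cons.2 ⟨hC6_0 hsp, ?_⟩
  refine List.forall_mem_cons.2 ⟨hC6_1 hsp, ?_⟩
  refine List.forall_mem_cons.2 ⟨hC6_2 hsp, ?_⟩
  refine List.forall_mem_cons.2 ⟨hC6_3 hsp, ?_⟩
  refine List.forall_mem_cons.2 ⟨hC6_4 hsp, ?_⟩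
  refine List.forall_mem_cons.2 ⟨hC6_5 hsp, ?_⟩
  refine List.forall_mem_cons.2 ⟨hC6_6 hsp, ?_⟩
  refine List.forall_mem_cons.2 ⟨hC6_7 hsp, ?_⟩
  refine List.forall_mem_cons.2 ⟨hC6_8 hsp, ?_⟩
  refine List.forall_mem_cons.2 ⟨hC6_9 hsp, ?_⟩
  refine List.forall_mem_cons.2 ⟨hC6_10 hsp, ?_⟩
  refine List.forall_mem_cons.2 ⟨hC6_11 hsp, ?_⟩
  refine List.forall_mem_cons.2 ⟨hC6_12 hsp, ?_⟩
  refine List.forall_mem_cons.2 ⟨hC6_13 hsp, ?_⟩
  refine List.forall_mem_cons.2 ⟨hC6_14 hsp, ?_⟩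
  refine List.forall_mem_cons.2 ⟨hC6_15 hsp, ?_⟩
  refine List.forall_mem_cons.2 ⟨hC6_16 hsp, ?_⟩
  refine List.forall_mem_cons.2 ⟨hC6_17 hsp, ?_⟩
  refine List.forall_mem_cons.2 ⟨hC6_18 hsp, ?_⟩
  refine List.forall_mem_cons.2 ⟨hC6_19 hsp, ?_⟩
  refine List.forall_mem_cons.2 ⟨hC6_20 hsp, ?_⟩
  refine List.forall_mem_cons.2 ⟨hC6_21 hsp, ?_⟩
  refine List.forall_mem_cons.2 ⟨hC6_22 hsp, ?_⟩
  refine List.forall_mem_cons.2 ⟨hC6_23 hsp, ?_⟩
  refine List.forall_mem_cons.2 ⟨hC6_24 hsp, ?_⟩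
  refine List.forall_mem_cons.2 ⟨hC6_25 hsp, ?_⟩
  refine List.forall_mem_cons.2 ⟨hC6_26 hsp, ?_⟩
  refine List.forall_mem_cons.2 ⟨hC6_27 hsp, ?_⟩
  refine List.forall_mem_cons.2 ⟨hC6_28 hsp, ?_⟩
  refine List.forall_mem_cons.2 ⟨hC6_29 hsp, ?_⟩
  refine List.forall_mem_cons.2 ⟨hC6_30 hsp, ?_⟩
  refine List.forall_mem_cons.2 ⟨hC6_31 hsp, ?_⟩
  refine List.forall_mem_cons.2 ⟨hC6_32 hsp, ?_⟩
  refine List.forall_mem_cons.2 ⟨hC6_33 hsp, ?_⟩
  refine List.forall_mem_cons.2 ⟨hC6_34 hsp, ?_⟩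
  refine List.forall_mem_cons.2 ⟨hC6_35 hsp, ?_⟩
  refine List.forall_mem_cons.2 ⟨hC6_36 hsp, ?_⟩
  refine List.forall_mem_cons.2 ⟨hC6_37 hsp, ?_⟩
  refine List.forall_mem_cons.2 ⟨hC6_38 hsp, ?_⟩
  refine List.forall_mem_cons.2 ⟨hC6_39 hsp, ?_⟩
  refine List.forall_mem_cons.2 ⟨hC6_40 hsp, ?_⟩
  refine List.forall_mem_cons.2 ⟨hC6_41 hsp, ?_⟩
  refine List.forall_mem_cons.2 ⟨hC6_42 hsp, ?_⟩
  refine List.forall_mem_cons.2 ⟨hC6_43 hsp, ?_⟩
  refine List.forall_mem_cons.2 ⟨hC6_44 hsp, ?_⟩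
  refine List.forall_mem_cons.2 ⟨hC6_45 hsp, ?_⟩
  refine List.forall_mem_cons.2 ⟨hC6_46 hsp, ?_⟩
  refine List.forall_mem_cons.2 ⟨hC6_47 hsp, ?_⟩
  refine List.forall_mem_cons.2 ⟨hC6_48 hsp, ?_⟩
  refine List.forall_mem_cons.2 ⟨hC6_49 hsp, ?_⟩
  refine List.forall_mem_cons.2 ⟨hC6_50 hsp, ?_⟩
  refine List.forall_mem_cons.2 ⟨hC6_51 hsp, ?_⟩
  refine List.forall_mem_cons.2 ⟨hC6_52 hsp, ?_⟩
  refine List.forall_mem_cons.2 ⟨hC6_53 hsp, ?_⟩
  refine List.forall_mem_cons.2 ⟨hC6_54 hsp, ?_⟩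
  refine List.forall_mem_cons.2 ⟨hC6_55 hsp, ?_⟩
  refine List.forall_mem_cons.2 ⟨hC6_56 hsp, ?_⟩
  refine List.forall_mem_cons.2 ⟨hC6_57 hsp, ?_⟩
  refine List.forall_mem_cons.2 ⟨hC6_58 hsp, ?_⟩
  refine List.forall_mem_cons.2 ⟨hC6_59 hsp, ?_⟩
  refine List.forall_mem_cons.2 ⟨hC6_60 hsp, ?_⟩
  refine List.forall_mem_cons.2 ⟨hC6_61 hsp, ?_⟩
  refine List.forall_mem_cons.2 ⟨hC6_62 hsp, ?_⟩
  refine List.forall_mem_cons.2 ⟨hC6_63 hsp, ?_⟩
  refine List.forall_mem_cons.2 ⟨hC6_64 hsp, ?_⟩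
  refine List.forall_mem_cons.2 ⟨hC6_65 hsp, ?_⟩
  refine List.forall_mem_cons.2 ⟨hC6_66 hsp, ?_⟩
  refine List.forall_mem_cons.2 ⟨hC6_67 hsp, ?_⟩
  refine List.forall_mem_cons.2 ⟨hC6_68 hsp, ?_⟩
  refine List.forall_mem_cons.2 ⟨hC6_69 hsp, ?_⟩
  refine List.forall_mem_cons.2 ⟨hC6_70 hsp, ?_⟩
  refine List.forall_mem_cons.2 ⟨hC6_71 hsp, ?_⟩
  refine List.forall_mem_cons.2 ⟨hC6_72 hsp, ?_⟩
  refine List.forall_mem_cons.2 ⟨hC6_73 hsp, ?_⟩
  refine List.forall_mem_cons.2 ⟨hC6_74 hsp, ?_⟩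
  refine List.forall_mem_cons.2 ⟨hC6_75 hsp, ?_⟩
  refine List.forall_mem_cons.2 ⟨hC6_76 hsp, ?_⟩
  refine List.forall_mem_cons.2 ⟨hC6_77 hsp, ?_⟩
  refine List.forall_mem_cons.2 ⟨hC6_78 hsp, ?_⟩
  refine List.forall_mem_cons.2 ⟨hC6_79 hsp, ?_⟩
  refine List.forall_mem_cons.2 ⟨hC6_80 hsp, ?_⟩
  refine List.forall_mem_cons.2 ⟨hC6_81 hsp, ?_⟩
  refine List.forall_mem_cons.2 ⟨hC6_82 hsp, ?_⟩
  refine List.forall_mem_cons.2 ⟨hC6_83 hsp, ?_⟩
  refine List.forall_mem_cons.2 ⟨hC6_84 hsp, ?_⟩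
  refine List.forall_mem_cons.2 ⟨hC6_85 hsp, ?_⟩
  refine List.forall_mem_cons.2 ⟨hC6_86 hsp, ?_⟩
  refine List.forall_mem_cons.2 ⟨hC6_87 hsp, ?_⟩
  refine List.forall_mem_cons.2 ⟨hC6_88 hsp, ?_⟩
  refine List.forall_mem_cons.2 ⟨hC6_89 hsp, ?_⟩
  refine List.forall_mem_cons.2 ⟨hC6_90 hsp, ?_⟩
  refine List.forall_mem_cons.2 ⟨hC6_91 hsp, ?_⟩
  refine List.forall_mem_cons.2 ⟨hC6_92 hsp, ?_⟩
  refine List.forall_mem_cons.2 ⟨hC6_93 hsp, ?_⟩
  refine List.forall_mem_cons.2 ⟨hC6_94 hsp, ?_⟩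
  refine List.forall_mem_cons.2 ⟨hC6_95 hsp, ?_⟩
  refine List.forall_mem_cons.2 ⟨hC6_96 hsp, ?_⟩
  refine List.forall_mem_cons.2 ⟨hC6_97 hsp, ?_⟩
  refine List.forall_mem_cons.2 ⟨hC6_98 hsp, ?_⟩
  refine List.forall_mem_cons.2 ⟨hC6_99 hsp, ?_⟩
  refine List.forall_mem_cons.2 ⟨hC6_100 hsp, ?_⟩
  refine List.forall_mem_cons.2 ⟨hC6_101 hsp, ?_⟩
  refine List.forall_mem_cons.2 ⟨hC6_102 hsp, ?_⟩
  refine List.forall_mem_cons.2 ⟨hC6_103 hsp, ?_⟩
  refine List.forall_mem_cons.2 ⟨hC6_104 hsp, ?_⟩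
  refine List.forall_mem_cons.2 ⟨hC6_105 hsp, ?_⟩
  refine List.forall_mem_cons.2 ⟨hC6_106 hsp, ?_⟩
  refine List.forall_mem_cons.2 ⟨hC6_107 hsp, ?_⟩
  refine List.forall_mem_cons.2 ⟨hC6_108 hsp, ?_⟩
  refine List.forall_mem_cons.2 ⟨hC6_109 hsp, ?_⟩
  refine List.forall_mem_cons.2 ⟨hC6_110 hsp, ?_⟩
  refine List.forall_mem_cons.2 ⟨hC6_111 hsp, ?_⟩
  refine List.forall_mem_cons.2 ⟨hC6_112 hsp, ?_⟩
  refine List.forall_mem_cons.2 ⟨hC6_113 hsp, ?_⟩
  refine List.forall_mem_cons.2 ⟨hC6_114 hsp, ?_⟩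
  refine List.forall_mem_cons.2 ⟨hC6_115 hsp, ?_⟩
  refine List.forall_mem_cons.2 ⟨hC6_116 hsp, ?_⟩
  refine List.forall_mem_cons.2 ⟨hC6_117 hsp, ?_⟩
  refine List.forall_mem_cons.2 ⟨hC6_118 hsp, ?_⟩
  refine List.forall_mem_cons.2 ⟨hC6_119 hsp, ?_⟩
  refine List.forall_mem_cons.2 ⟨hC6_120 hsp, ?_⟩
  refine List.forall_mem_cons.2 ⟨hC6_121 hsp, ?_⟩
  refine List.forall_mem_cons.2 ⟨hC6_122 hsp, ?_⟩
  refine List.forall_mem_cons.2 ⟨hC6_123 hsp, ?_⟩
  refine List.forall_mem_cons.2 ⟨hC6_124 hsp, ?_⟩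
  refine List.forall_mem_cons.2 ⟨hC6_125 hsp, ?_⟩
  refine List.forall_mem_cons.2 ⟨hC6_126 hsp, ?_⟩
  refine List.forall_mem_cons.2 ⟨hC6_127 hsp, ?_⟩
  refine List.forall_mem_cons.2 ⟨hC6_128 hsp, ?_⟩
  refine List.forall_mem_cons.2 ⟨hC6_129 hsp, ?_⟩
  refine List.forall_mem_cons.2 ⟨hC6_130 hsp, ?_⟩
  refine List.forall_mem_cons.2 ⟨hC6_131 hsp, ?_⟩
  refine List.forall_mem_cons.2 ⟨hC6_132 hsp, ?_⟩
  refine List.forall_mem_cons.2 ⟨hC6_133 hsp, ?_⟩
  refine List.forall_mem_cons.2 ⟨hC6_134 hsp, ?_⟩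
  refine List.forall_mem_cons.2 ⟨hC6_135 hsp, ?_⟩
  refine List.forall_mem_cons.2 ⟨hC6_136 hsp, ?_⟩
  refine List.forall_mem_cons.2 ⟨hC6_137 hsp, ?_⟩
  refine List.forall_mem_cons.2 ⟨hC6_138 hsp, ?_⟩
  refine List.forall_mem_cons.2 ⟨hC6_139 hsp, ?_⟩
  refine List.forall_mem_cons.2 ⟨hC6_140 hsp, ?_⟩
  refine List.forall_mem_cons.2 ⟨hC6_141 hsp, ?_⟩
  refine List.forall_mem_cons.2 ⟨hC6_142 hsp, ?_⟩
  refine List.forall_mem_cons.2 ⟨hC6_143 hsp, ?_⟩
  refine List.forall_mem_cons.2 ⟨hC6_144 hsp, ?_⟩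
  refine List.forall_mem_cons.2 ⟨hC6_145 hsp, ?_⟩
  refine List.forall_mem_cons.2 ⟨hC6_146 hsp, ?_⟩
  refine List.forall_mem_cons.2 ⟨hC6_147 hsp, ?_⟩
  refine List.forall_mem_cons.2 ⟨hC6_148 hsp, ?_⟩
  refine List.forall_mem_cons.2 ⟨hC6_149 hsp, ?_⟩
  refine List.forall_mem_cons.2 ⟨hC6_150 hsp, ?_⟩
  refine List.forall_mem_cons.2 ⟨hC6_151 hsp, ?_⟩
  refine List.forall_mem_cons.2 ⟨hC6_152 hsp, ?_⟩
  refine List.forall_mem_cons.2 ⟨hC6_153 hsp, ?_⟩
  refine List.forall_mem_cons.2 ⟨hC6_154 hsp, ?_⟩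
  refine List.forall_mem_cons.2 ⟨hC6_155 hsp, ?_⟩
  refine List.forall_mem_cons.2 ⟨hC6_156 hsp, ?_⟩
  refine List.forall_mem_cons.2 ⟨hC6_157 hsp, ?_⟩
  refine List.forall_mem_cons.2 ⟨hC6_158 hsp, ?_⟩
  refine List.forall_mem_cons.2 ⟨hC6_159 hsp, ?_⟩
  refine List.forall_mem_cons.2 ⟨hC6_160 hsp, ?_⟩
  refine List.forall_mem_cons.2 ⟨hC6_161 hsp, ?_⟩
  refine List.forall_mem_cons.2 ⟨hC6_162 hsp, ?_⟩
  refine List.forall_mem_cons.2 ⟨hC6_163 hsp, ?_⟩
  refine List.forall_mem_cons.2 ⟨hC6_164 hsp, ?_⟩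
  refine List.forall_mem_cons.2 ⟨hC6_165 hsp, ?_⟩
  refine List.forall_mem_cons.2 ⟨hC6_166 hsp, ?_⟩
  refine List.forall_mem_cons.2 ⟨hC6_167 hsp, ?_⟩
  refine List.forall_mem_cons.2 ⟨hC6_168 hsp, ?_⟩
  refine List.forall_mem_cons.2 ⟨hC6_169 hsp, ?_⟩
  refine List.forall_mem_cons.2 ⟨hC6_170 hsp, ?_⟩
  refine List.forall_mem_cons.2 ⟨hC6_171 hsp, ?_⟩
  refine List.forall_mem_cons.2 ⟨hC6_172 hsp, ?_⟩
  refine List.forall_mem_cons.2 ⟨hC6_173 hsp, ?_⟩
  refine List.forall_mem_cons.2 ⟨hC6_174 hsp, ?_⟩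
  refine List.forall_mem_cons.2 ⟨hC6_175 hsp, ?_⟩
  refine List.forall_mem_cons.2 ⟨hC6_176 hsp, ?_⟩
  refine List.forall_mem_cons.2 ⟨hC6_177 hsp, ?_⟩
  refine List.forall_mem_cons.2 ⟨hC6_178 hsp, ?_⟩
  refine List.forall_mem_cons.2 ⟨hC6_179 hsp, ?_⟩
  refine List.forall_mem_cons.2 ⟨hC6_180 hsp, ?_⟩
  refine List.forall_mem_cons.2 ⟨hC6_181 hsp, ?_⟩
  refine List.forall_mem_cons.2 ⟨hC6_182 hsp, ?_⟩
  refine List.forall_mem_cons.2 ⟨hC6_183 hsp, ?_⟩
  refine List.forall_mem_cons.2 ⟨hC6_184 hsp, ?_⟩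
  refine List.forall_mem_cons.2 ⟨hC6_185 hsp, ?_⟩
  refine List.forall_mem_cons.2 ⟨hC6_186 hsp, ?_⟩
  refine List.forall_mem_cons.2 ⟨hC6_187 hsp, ?_⟩
  refine List.forall_mem_cons.2 ⟨hC6_188 hsp, ?_⟩
  refine List.forall_mem_cons.2 ⟨hC6_189 hsp, ?_⟩
  refine List.forall_mem_cons.2 ⟨hC6_190 hsp, ?_⟩
  intro q hq
  exact absurd hq List.not_mem_nil

end Pool.Agent.Lib_MP_fa6e45
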