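import Pool.Agent.Lib_MP_fa6e45.HS

/-!
MP_fa6e45_co, stage 4, [HX-E0]: hexagons of type `Ex6`, norms of the two sides of the factored closing relation.
-/

open Set MeasureTheory Complex
open scoped Topology

namespace Pool.Agent.Lib_MP_fa6e45

private theorem hpe0_norm (x y θ : ℝ) :
    ‖(x : ℂ) - (y : ℂ) * exp ((θ : ℂ) * Complex.I)‖ ^ 2 = x ^ 2 + y ^ 2 - 2 * x * y * Real.cos θ := by
  rw [← Complex.normSq_eq_norm_sq, Complex.normSq_apply]
  simp only [Complex.sub_re, Complex.sub_im, Complex.ofReal_re, Complex.ofReal_im,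
    Complex.re_ofReal_mul, Complex.im_ofReal_mul, Complex.exp_ofReal_mul_I_re,
    Complex.exp_ofReal_mul_I_im]
  have h := Real.sin_sq_add_cos_sq θ
  linear_combination (y ^ 2) * h

theorem specE0 : SpecE0 := by
  rintro P ⟨-, h01, h13, h24, h45, hne, ha⟩
  obtain ⟨x, hx⟩ : ∃ x : ℝ, x = P.len 0 := ⟨_, rfl⟩
  obtain ⟨y, hy⟩ : ∃ y : ℝ, y = P.len 2 := ⟨_, rfl⟩
  have hx0 : 0 < x := by rw [hx]; exact P.len_pos 0
  have hy0 : 0 < y := by rw [hy]; exact P.len_pos 2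
  have hxy : x ≠ y := by rw [hx, hy]; exact hne
  refine ⟨(x ^ 2 + y ^ 2) / (2 * x * y), ?_, ?_⟩
  · rw [lt_div_iff₀ (by positivity)]
    have h1 : 0 < (x - y) ^ 2 := by
      have : x - y ≠ 0 := sub_ne_zero.2 hxy
      positivity
    nlinarith
  · -- the closing relation
    have hs := P.dr_sum
    have h6 : ∑ j : ZMod 6, (P.len j : ℂ) * P.dr j =
        (P.len 0 : ℂ) * P.dr 0 + (P.len 1 : ℂ) * P.dr 1 + (P.len 2 : ℂ) * P.dr 2 +
          (P.len 3 : ℂ) * P.dr 3 + (P.len 4 : ℂ) * P.dr 4 + (P.len 5 : ℂ) * P.dr 5 :=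
      Fin.sum_univ_six (fun j : ZMod 6 => (P.len j : ℂ) * P.dr j)
    have l1 : P.len 1 = x := by rw [hx, h01]
    have l3 : P.len 3 = x := by rw [← h13, l1]
    have l4 : P.len 4 = y := by rw [hy, h24]
    have l5 : P.len 5 = y := by rw [← h45, l4]
    rw [h6, l1, l3, l4, l5, ← hx, ← hy] at hs
    have t1 := P.dr_turn 1
    have t2 := P.dr_turn 2
    have t4 := P.dr_turn 4
    have t0 := P.dr_turn 0
    have i1 : (1 : ZMod 6) - 1 = 0 := by decide
    have i2 : (2 : ZMod 6) - 1 = 1 := by decide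
    have i4 : (4 : ZMod 6) - 1 = 3 := by decide
    have i0 : (0 : ZMod 6) - 1 = 5 := by decide
    rw [i1] at t1
    rw [i2] at t2
    rw [i4] at t4
    rw [i0] at t0
    have hE : exp ((P.ang 0 : ℂ) * Complex.I) * exp ((P.ang 2 : ℂ) * Complex.I) = 1 := by
      rw [← Complex.exp_add, ← add_mul, ← Complex.ofReal_add, ha]
      push_cast
      exact Complex.exp_two_pi_mul_I
    have key : (((1 : ℝ) : ℂ) - ((1 : ℝ) : ℂ) * exp ((P.ang 1 : ℂ) * Complex.I)) *
        ((x : ℂ) - (y : ℂ) * exp ((P.ang 0 : ℂ) * Complex.I)) * P.dr 1 =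
        -(((y : ℂ) - (x : ℂ) * exp ((P.ang 4 : ℂ) * Complex.I)) * P.dr 4) := by
      push_cast
      linear_combination hs +
        (-(x : ℂ) + (y : ℂ) * exp ((P.ang 0 : ℂ) * Complex.I)) * t1 - (y : ℂ) * t0 -
        (y : ℂ) * exp ((P.ang 0 : ℂ) * Complex.I) * t2 + (y : ℂ) * P.dr 2 * hE - (x : ℂ) * t4
    have hn := congrArg (fun z : ℂ => ‖z‖ ^ 2) key
    simp only [norm_mul, norm_neg, P.dr_norm, mul_one, mul_pow] at hn
    rw [hpe0_norm, hpe0_norm, hpe0_norm] at hn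
    have hcos : Real.cos (P.ang 0) = Real.cos (P.ang 2) := by
      have h1 : P.ang 0 = 2 * Real.pi - P.ang 2 := by linarith
      rw [h1, Real.cos_two_pi_sub]
    have hsin : 4 * Real.sin (P.ang 1 / 2) ^ 2 = 2 - 2 * Real.cos (P.ang 1) := by
      rw [Real.sin_sq_eq_half_sub]
      have h1 : 2 * (P.ang 1 / 2) = P.ang 1 := by ring
      rw [h1]
      ring
    rw [hcos] at hn
    rw [hsin]
    have h2 : (x ^ 2 + y ^ 2) / (2 * x * y) - Real.cos (P.ang 2) =
        (x ^ 2 + y ^ 2 - 2 * x * y * Real.cos (P.ang 2)) / (2 * x * y) := by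
      field_simp
    have h4 : (x ^ 2 + y ^ 2) / (2 * x * y) - Real.cos (P.ang 4) =
        (y ^ 2 + x ^ 2 - 2 * y * x * Real.cos (P.ang 4)) / (2 * x * y) := by
      field_simp
      ring
    rw [h2, h4, ← hn]
    ring

end Pool.Agent.Lib_MP_fa6e45
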