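import Pool.Agent.Lib_MP_fa6e45.HS

/-!
MP_fa6e45_co, stage 4: the hexagon `SpecF3`.
-/

open Set MeasureTheory Complex
open scoped Topology

namespace Pool.Agent.Lib_MP_fa6e45

theorem specF3_exp_third : exp (((Real.pi / 3 : ℝ) : ℂ) * Complex.I) ^ 2 =
    exp (((Real.pi / 3 : ℝ) : ℂ) * Complex.I) - 1 := by
  apply Complex.ext
  · rw [pow_two, Complex.mul_re, Complex.sub_re, Complex.exp_ofReal_mul_I_re,
      Complex.exp_ofReal_mul_I_im, Real.cos_pi_div_three, Real.sin_pi_div_three, Complex.one_re]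
    have h : Real.sqrt 3 * Real.sqrt 3 = 3 := Real.mul_self_sqrt (by norm_num)
    nlinarith
  · rw [pow_two, Complex.mul_im, Complex.sub_im, Complex.exp_ofReal_mul_I_re,
      Complex.exp_ofReal_mul_I_im, Real.cos_pi_div_three, Real.sin_pi_div_three, Complex.one_im]
    ring

theorem specF3 : SpecF3 := by
  intro P hE h0 h1 h3 h4
  obtain ⟨hc, l01, l13, l24, l45, -, h02⟩ := hE
  have p5 := P.ang_pos 5
  have p4 := P.ang_pos 4
  set s : ℝ := P.ang 5 / 2 with hs
  set w : ℂ := exp (((Real.pi / 3 : ℝ) : ℂ) * Complex.I) with hw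
  set E : ℂ := exp ((s : ℂ) * Complex.I) with hEE
  have hw2 : w ^ 2 = w - 1 := specF3_exp_third
  have hw3 : w ^ 3 = -1 := by
    linear_combination (w + 1) * hw2
  have hE0 : E ≠ 0 := Complex.exp_ne_zero _
  have a1 : Real.pi - P.ang 1 = Real.pi / 3 := by linarith
  have a2 : Real.pi - P.ang 2 = Real.pi / 3 + Real.pi / 3 + s := by rw [hs]; linarith
  have a3 : Real.pi - P.ang 3 = s := by rw [hs]; linarith
  have a4 : Real.pi - P.ang 4 = Real.pi / 3 + Real.pi / 3 + s := by rw [hs]; linarith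
  have a5 : Real.pi - P.ang 5 = Real.pi + -s + -s := by rw [hs]; ring
  have e22 : exp (((Real.pi / 3 + Real.pi / 3 + s : ℝ) : ℂ) * Complex.I) = w ^ 2 * E := by
    rw [hw, hEE, pow_two, ← Complex.exp_add, ← Complex.exp_add]
    congr 1
    push_cast
    ring
  have e5 : exp (((Real.pi + -s + -s : ℝ) : ℂ) * Complex.I) = -(E⁻¹ * E⁻¹) := by
    have h : (((Real.pi + -s + -s : ℝ) : ℂ) * Complex.I) =
        (Real.pi : ℂ) * Complex.I + (-((s : ℂ) * Complex.I) + -((s : ℂ) * Complex.I)) := by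
      push_cast
      ring
    rw [h, Complex.exp_add, Complex.exp_add, Complex.exp_pi_mul_I, Complex.exp_neg]
    ring
  have d1 : P.dr 1 = P.dr 0 * w := by
    have h := P.dr_step 1
    rwa [a1, show (1 : ZMod 6) - 1 = 0 by decide] at h
  have d2 : P.dr 2 = -(P.dr 0 * E) := by
    have h := P.dr_step 2
    rw [a2, e22, show (2 : ZMod 6) - 1 = 1 by decide, d1] at h
    rw [h]
    calc P.dr 0 * w * (w ^ 2 * E) = P.dr 0 * E * w ^ 3 := by ring
      _ = _ := by rw [hw3]; ring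
  have d3 : P.dr 3 = -(P.dr 0 * E ^ 2) := by
    have h := P.dr_step 3
    rw [a3, show (3 : ZMod 6) - 1 = 2 by decide, d2, ← hEE] at h
    rw [h]
    ring
  have d4 : P.dr 4 = -(P.dr 0 * E ^ 3 * w ^ 2) := by
    have h := P.dr_step 4
    rw [a4, e22, show (4 : ZMod 6) - 1 = 3 by decide, d3] at h
    rw [h]
    ring
  have d5 : P.dr 5 = P.dr 0 * E * w ^ 2 := by
    have h := P.dr_step 5
    rw [a5, e5, show (5 : ZMod 6) - 1 = 4 by decide, d4] at h
    rw [h]
    field_simp
  have hsum := P.dr_sum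
  have hexp : ∑ j : ZMod 6, (P.len j : ℂ) * P.dr j = (P.len 0 : ℂ) * P.dr 0 +
      (P.len 1 : ℂ) * P.dr 1 + (P.len 2 : ℂ) * P.dr 2 + (P.len 3 : ℂ) * P.dr 3 +
      (P.len 4 : ℂ) * P.dr 4 + (P.len 5 : ℂ) * P.dr 5 := by
    exact Fin.sum_univ_six (fun j : Fin 6 => (P.len j : ℂ) * P.dr j)
  rw [hexp, ← l45, ← l24, ← l13, ← l01, d1, d2, d3, d4, d5] at hsum
  have hfac : P.dr 0 * ((1 + w - E ^ 2) * ((P.len 0 : ℂ) + (P.len 2 : ℂ) * (w ^ 2 * E))) = 0 := by
    rw [← hsum]
    have hw4 : w ^ 2 * (1 + w) = w ^ 2 - 1 := by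
      calc w ^ 2 * (1 + w) = w ^ 2 + w ^ 3 := by ring
        _ = _ := by rw [hw3]; ring
    linear_combination (P.dr 0 * (P.len 2 : ℂ) * E) * hw4
  rw [mul_eq_zero, or_iff_right (P.dr_ne 0), mul_eq_zero] at hfac
  rcases hfac with h | h
  · -- `|1 + w|^2 = 3`
    have hE2 : E ^ 2 = 1 + w := by linear_combination -h
    have hn : Complex.normSq (E ^ 2) = Complex.normSq (1 + w) := by rw [hE2]
    have hnE : Complex.normSq E = 1 := by
      rw [Complex.normSq_eq_norm_sq, hEE, Complex.norm_exp_ofReal_mul_I]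
      norm_num
    rw [map_pow, hnE, Complex.normSq_apply, Complex.add_re, Complex.add_im, hw,
      Complex.exp_ofReal_mul_I_re, Complex.exp_ofReal_mul_I_im, Real.cos_pi_div_three,
      Real.sin_pi_div_three, Complex.one_re, Complex.one_im] at hn
    have h3 : Real.sqrt 3 * Real.sqrt 3 = 3 := Real.mul_self_sqrt (by norm_num)
    nlinarith
  · have him := congrArg Complex.im h
    rw [← e22, Complex.add_im, Complex.im_ofReal_mul, Complex.exp_ofReal_mul_I_im,
      Complex.ofReal_im, Complex.zero_im, zero_add, mul_eq_zero,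
      or_iff_right (P.len_pos 2).ne'] at him
    have hpos : 0 < Real.sin (Real.pi / 3 + Real.pi / 3 + s) := by
      apply Real.sin_pos_of_pos_of_lt_pi
      · have := Real.pi_pos
        rw [hs]
        linarith
      · rw [hs]
        linarith
    exact hpos.ne' him

end Pool.Agent.Lib_MP_fa6e45
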