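import Pool.Agent.Lib_MP_fa6e45.HS

/-!
MP_fa6e45_co, stage 4, piece HX-N7: with `x = ang 4` the angles are `((4π - 5x)/3, (π - 2x)/3, (2π + 5x)/3, (2π - x)/3, x)`, so
the sides `1` and `3` have opposite imaginary parts and the imaginary part of the closing relation is
`len 2 * (sin (π - x) + sin ((π - 5x)/3)) = 2 len 2 sin ((2π - 4x)/3) cos ((π + x)/3) = 0`, impossible for `0 < x < π/2`.
-/

open Set MeasureTheory Complex
open scoped Topology

namespace Pool.Agent.Lib_MP_fa6e45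

theorem specN7 : SpecN7 := by
  intro P ⟨_, _, hb, hc, h02⟩ h0 h1 h3
  have h := (P.close5 0).2
  simp only [zero_add] at h
  have hx := P.ang_pos 4
  have h1p := P.ang_pos 1
  set x := P.ang 4 with hxdef
  have e1 : P.ang 1 = (Real.pi - 2 * x) / 3 := by linarith
  have e3 : P.ang 3 = (2 * Real.pi - x) / 3 := by linarith
  have e2 : P.ang 2 = (2 * Real.pi + 5 * x) / 3 := by linarith
  rw [e1, e2, e3, ← hb, ← hc] at h
  have s1 : Real.pi - (Real.pi - 2 * x) / 3 = (2 * Real.pi + 2 * x) / 3 := by ring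
  have s2 : 2 * Real.pi - (Real.pi - 2 * x) / 3 - (2 * Real.pi + 5 * x) / 3 =
      (2 * Real.pi - 4 * x) / 3 + (Real.pi + x) / 3 := by ring
  have s3 : 3 * Real.pi - (Real.pi - 2 * x) / 3 - (2 * Real.pi + 5 * x) / 3 - (2 * Real.pi - x) / 3 =
      2 * Real.pi - (2 * Real.pi + 2 * x) / 3 := by ring
  have s4 : 4 * Real.pi - (Real.pi - 2 * x) / 3 - (2 * Real.pi + 5 * x) / 3 - (2 * Real.pi - x) / 3 - x =
      (2 * Real.pi - 4 * x) / 3 - (Real.pi + x) / 3 + 2 * Real.pi := by ring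
  rw [s1, s2, s3, s4, Real.sin_two_pi_sub, Real.sin_add_two_pi, Real.sin_add, Real.sin_sub] at h
  have hpi := Real.pi_pos
  rw [e1] at h1p
  have hs : 0 < Real.sin ((2 * Real.pi - 4 * x) / 3) :=
    Real.sin_pos_of_pos_of_lt_pi (by linarith) (by linarith)
  have hcs : 0 < Real.cos ((Real.pi + x) / 3) :=
    Real.cos_pos_of_mem_Ioo ⟨by linarith, by linarith⟩
  have l2 := P.len_pos 2
  have h5 : 0 < P.len 2 * (Real.sin ((2 * Real.pi - 4 * x) / 3) * Real.cos ((Real.pi + x) / 3)) := by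
    positivity
  linarith

end Pool.Agent.Lib_MP_fa6e45
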