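import Pool.Agent.Lib_MP_fa6e45.HC0

/-!
MP_fa6e45_co, stage 4: the tables of the special theorems (captain, generated).
-/

namespace Pool.Agent.Lib_MP_fa6e45

/-- the special theorems for `n = 5`: L1, L2, L5, T6, N1, L8, L6, Q, F2, B1, B3, B4, N4, N5, N7, N8, X57 -/
def sp5 : List SpT :=
  [⟨[(0, 1), (1, 2), (2, 3)], [], [([2, 1, 0, 0, 0], 2), ([0, 0, 1, 2, 0], 2)]⟩,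
    ⟨[(0, 1), (1, 2), (2, 3)], [], [([2, 1, 0, 0, 0], 2), ([0, 0, 1, 0, 2], 2)]⟩,
    ⟨[(0, 1), (1, 2), (2, 3)], [], [([2, 0, 0, 1, 0], 2), ([0, 1, 2, 0, 0], 2)]⟩,
    ⟨[(0, 1), (1, 2), (3, 4)], [], [([0, 1, 0, 0, -2], 0), ([0, 0, 1, 0, 1], 1)]⟩,
    ⟨[(0, 1), (1, 3), (2, 4)], [], [([1, 0, 1, 0, 0], 2), ([0, 0, 1, 1, 2], 2)]⟩,
    ⟨[(0, 1), (1, 2), (2, 3)], [], [([0, 1, 0, 2, 0], 2), ([0, 0, 1, 0, 2], 2)]⟩,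
    ⟨[(0, 1), (1, 2), (2, 3)], [], [([2, 0, 0, 1, 0], 2), ([0, 1, 0, 0, 2], 2)]⟩,
    ⟨[(0, 1), (1, 2), (2, 3), (3, 4)], [], [([2, 0, 1, 0, 0], 2), ([0, 1, 0, 2, 0], 2)]⟩,
    ⟨[(0, 1), (1, 3), (2, 4)], [], [([1, 0, 1, 0, 0], 2), ([0, 0, 1, 2, 1], 2)]⟩,
    ⟨[(0, 1), (1, 2), (2, 3)], [], [([3, 0, 0, 0, 1], 3), ([0, 1, 0, 0, 2], 2), ([0, 0, 3, 0, -2], 0), ([0, 0, 0, 3, -2], 0)]⟩,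
    ⟨[(0, 1), (1, 2), (2, 3)], [], [([3, 0, 0, 0, 3], 5), ([0, 1, 0, 0, 2], 2), ([0, 0, 3, 0, 0], 2), ([0, 0, 0, 3, -6], -4)]⟩,
    ⟨[(0, 1), (1, 2), (2, 3)], [], [([1, 0, 0, 0, -3], -1), ([0, 1, 0, 0, 2], 2), ([0, 0, 1, 0, -4], -2), ([0, 0, 0, 1, 6], 4)]⟩,
    ⟨[(0, 1), (1, 3), (2, 4)], [], [([1, 0, 1, 0, 0], 2), ([5, 0, 0, 0, 1], 6), ([0, 5, 0, 0, 2], 2), ([0, 0, 0, 5, 3], 3)]⟩,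
    ⟨[(0, 1), (1, 3), (2, 4)], [], [([1, 0, 1, 0, 0], 2), ([1, 0, 0, 0, -5], -2), ([0, 1, 0, 0, -2], -1), ([0, 0, 0, 1, 3], 2)]⟩,
    ⟨[(0, 1), (1, 3), (2, 4)], [], [([1, 0, 1, 0, 0], 2), ([3, 0, 0, 0, 5], 4), ([0, 3, 0, 0, 2], 1), ([0, 0, 0, 3, 1], 2)]⟩,
    ⟨[(0, 1), (1, 3), (2, 4)], [], [([1, 0, 1, 0, 0], 2), ([3, 0, 0, 0, 1], 2), ([0, 3, 0, 0, 2], 1), ([0, 0, 0, 3, 1], 2)]⟩,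
    ⟨[(0, 1), (2, 3)], [], [([2, 1, 0, 0, 0], 2), ([0, 0, 0, 1, 2], 2)]⟩]

/-- the special theorems for `n = 6`: HF, M8, G4, D1, D2, E1, E3, E5, F1, G2, F3, X67 -/
def sp6 : List SpT :=
  [⟨[(0, 1), (1, 3), (2, 4), (4, 5)], [(0, 2)], [([1, 0, 1, 0, 0, 0], 2), ([1, 0, 0, 0, 1, 0], 2), ([0, 1, 0, 0, 0, -1], 0)]⟩,
    ⟨[(0, 1), (1, 3), (3, 4)], [(2, 5)], [([2, 0, 0, 0, 1, 0], 2), ([0, 0, 2, 0, 1, 0], 2), ([0, 1, 0, 2, 0, 0], 2), ([0, 1, 0, 0, 0, 2], 2)]⟩,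
    ⟨[(0, 1), (1, 2), (2, 3), (3, 4)], [(4, 5)], [([1, 0, 0, 0, -1, 0], 0), ([0, 1, 0, 0, 0, -1], 0), ([0, 0, 1, 0, 2, 0], 2), ([0, 0, 0, 1, 0, 2], 2)]⟩,
    ⟨[(0, 1), (1, 2), (3, 4), (4, 5)], [(0, 3)], [([0, 1, 0, 0, 0, -1], 0), ([0, 0, 1, 0, -1, 0], 0)]⟩,
    ⟨[(0, 1), (1, 2), (3, 4), (4, 5)], [(0, 3)], [([0, 1, 0, 0, -1, 0], 0), ([0, 0, 1, 0, 0, -1], 0)]⟩,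
    ⟨[(0, 1), (1, 3), (2, 4), (4, 5)], [(0, 2)], [([1, 0, 1, 0, 0, 0], 2), ([0, 3, 0, 0, 0, 0], 2), ([0, 0, 3, 0, -3, 0], 2), ([0, 0, 0, 1, 1, 0], 1), ([0, 0, 0, 0, 0, 3], 1)]⟩,
    ⟨[(0, 1), (1, 3), (2, 4), (4, 5)], [(0, 2)], [([1, 0, 1, 0, 0, 0], 2), ([0, 3, 0, 0, 0, 0], 1), ([0, 0, 3, 0, -3, 0], 1), ([0, 0, 0, 1, 1, 0], 1), ([0, 0, 0, 0, 0, 3], 2)]⟩,
    ⟨[(0, 1), (1, 3), (2, 4), (4, 5)], [(0, 2)], [([1, 0, 1, 0, 0, 0], 2), ([2, 0, 0, 0, 0, 3], 2), ([0, 3, 0, 0, 0, 0], 2), ([0, 0, 0, 2, 0, 1], 2), ([0, 0, 0, 0, 6, 3], 2)]⟩,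
    ⟨[(0, 1), (1, 3), (2, 4), (4, 5)], [(0, 2)], [([1, 0, 1, 0, 0, 0], 2), ([3, 0, 0, 0, 0, -3], 4), ([0, 3, 0, 0, 0, 0], 2), ([0, 0, 0, 3, 0, 0], 2), ([0, 0, 0, 0, 3, 3], 2)]⟩,
    ⟨[(0, 1), (1, 3), (2, 4), (4, 5)], [(0, 2)], [([1, 0, 1, 0, 0, 0], 2), ([0, 3, 0, 0, 0, 0], 1), ([0, 0, 1, 0, -1, 0], 0), ([0, 0, 1, 1, 0, 0], 1), ([0, 0, 0, 0, 0, 3], 2)]⟩,
    ⟨[(0, 1), (1, 3), (2, 4), (4, 5)], [(0, 2)], [([1, 0, 1, 0, 0, 0], 2), ([6, 0, 0, 0, 0, -3], 10), ([0, 3, 0, 0, 0, 0], 2), ([0, 0, 0, 2, 0, 1], 2), ([0, 0, 0, 0, 6, 3], 2)]⟩,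
    ⟨[(0, 1), (3, 4)], [], [([2, 1, 0, 0, 0, 0], 2), ([-1, 0, 1, 0, 0, 0], 0), ([0, 0, 0, 2, 1, 0], 2), ([0, 0, 0, -1, 0, 1], 0)]⟩]

end Pool.Agent.Lib_MP_fa6e45
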