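import Pool.Agent.Lib_MP_fa6e45.HB

/-!
MP_fa6e45_co, stage 4: statements of the special lemmas about pentagons and hexagons (each is proved in its own
file).
-/

open Set MeasureTheory Complex
open scoped Topology

namespace Pool.Agent.Lib_MP_fa6e45

/-- the four sides `0, 1, 2, 3` of a pentagon are equal -/
def Four5 (P : Polygon 5) : Prop :=
  P.CCW ∧ P.len 0 = P.len 1 ∧ P.len 1 = P.len 2 ∧ P.len 2 = P.len 3

/-- sides `0, 1, 3` and sides `2, 4` of a pentagon are equal, two tiles may meet at the corners `0`, `2` -/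
def Nine5 (P : Polygon 5) : Prop :=
  P.CCW ∧ P.len 0 = P.len 1 ∧ P.len 1 = P.len 3 ∧ P.len 2 = P.len 4 ∧
    P.ang 0 + P.ang 2 = 2 * Real.pi

/-- sides `0, 1, 3` and sides `2, 4, 5` of a hexagon are equal, but not all sides; two tiles may meet at the
corners `0`, `2` -/
def Ex6 (P : Polygon 6) : Prop :=
  P.CCW ∧ P.len 0 = P.len 1 ∧ P.len 1 = P.len 3 ∧ P.len 2 = P.len 4 ∧ P.len 4 = P.len 5 ∧
    P.len 0 ≠ P.len 2 ∧ P.ang 0 + P.ang 2 = 2 * Real.pi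

/-! ### pentagons, periodic -/

def SpecL1 : Prop := ∀ P : Polygon 5, Four5 P → 2 * P.ang 0 + P.ang 1 = 2 * Real.pi →
  P.ang 2 + 2 * P.ang 3 = 2 * Real.pi → HasPeriodic P

def SpecL2 : Prop := ∀ P : Polygon 5, Four5 P → 2 * P.ang 0 + P.ang 1 = 2 * Real.pi →
  P.ang 2 + 2 * P.ang 4 = 2 * Real.pi → HasPeriodic P

def SpecL5 : Prop := ∀ P : Polygon 5, Four5 P → 2 * P.ang 0 + P.ang 3 = 2 * Real.pi →
  P.ang 1 + 2 * P.ang 2 = 2 * Real.pi → HasPeriodic P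

def SpecT6 : Prop := ∀ P : Polygon 5, P.CCW → P.len 0 = P.len 1 → P.len 1 = P.len 2 →
  P.len 3 = P.len 4 → P.ang 1 = 2 * P.ang 4 → P.ang 2 + P.ang 4 = Real.pi → HasPeriodic P

def SpecN1 : Prop := ∀ P : Polygon 5, Nine5 P → P.ang 2 + P.ang 3 + 2 * P.ang 4 = 2 * Real.pi →
  HasPeriodic P

/-! ### pentagons, consequences of the closing relation -/

def SpecL8 : Prop := ∀ P : Polygon 5, Four5 P → P.ang 1 + 2 * P.ang 3 = 2 * Real.pi →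
  P.ang 2 + 2 * P.ang 4 = 2 * Real.pi → P.ang 2 + P.ang 3 = Real.pi

def SpecL6 : Prop := ∀ P : Polygon 5, Four5 P → 2 * P.ang 0 + P.ang 3 = 2 * Real.pi →
  P.ang 1 + 2 * P.ang 4 = 2 * Real.pi → False

def SpecQ : Prop := ∀ P : Polygon 5, Four5 P → P.len 3 = P.len 4 →
  2 * P.ang 0 + P.ang 2 = 2 * Real.pi → P.ang 1 + 2 * P.ang 3 = 2 * Real.pi → P.ang 1 = P.ang 2

def SpecF2 : Prop := ∀ P : Polygon 5, Nine5 P → P.ang 2 + 2 * P.ang 3 + P.ang 4 = 2 * Real.pi →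
  P.ang 2 = P.ang 3

def SpecB1 : Prop := ∀ P : Polygon 5, Four5 P → 3 * P.ang 0 + P.ang 4 = 3 * Real.pi →
  P.ang 1 + 2 * P.ang 4 = 2 * Real.pi → 3 * P.ang 2 = 2 * P.ang 4 → 3 * P.ang 3 = 2 * P.ang 4 → False

def SpecB3 : Prop := ∀ P : Polygon 5, Four5 P → 3 * P.ang 0 + 3 * P.ang 4 = 5 * Real.pi →
  P.ang 1 + 2 * P.ang 4 = 2 * Real.pi → 3 * P.ang 2 = 2 * Real.pi →
  3 * P.ang 3 + 4 * Real.pi = 6 * P.ang 4 → False

def SpecB4 : Prop := ∀ P : Polygon 5, Four5 P → P.ang 0 + Real.pi = 3 * P.ang 4 →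
  P.ang 1 + 2 * P.ang 4 = 2 * Real.pi → P.ang 2 + 2 * Real.pi = 4 * P.ang 4 →
  P.ang 3 + 6 * P.ang 4 = 4 * Real.pi → False

def SpecN4 : Prop := ∀ P : Polygon 5, Nine5 P → 5 * P.ang 0 + P.ang 4 = 6 * Real.pi →
  5 * P.ang 1 + 2 * P.ang 4 = 2 * Real.pi → 5 * P.ang 3 + 3 * P.ang 4 = 3 * Real.pi → False

def SpecN5 : Prop := ∀ P : Polygon 5, Nine5 P → P.ang 0 + 2 * Real.pi = 5 * P.ang 4 →
  P.ang 1 + Real.pi = 2 * P.ang 4 → P.ang 3 + 3 * P.ang 4 = 2 * Real.pi → False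

def SpecN7 : Prop := ∀ P : Polygon 5, Nine5 P → 3 * P.ang 0 + 5 * P.ang 4 = 4 * Real.pi →
  3 * P.ang 1 + 2 * P.ang 4 = Real.pi → 3 * P.ang 3 + P.ang 4 = 2 * Real.pi → False

def SpecN8 : Prop := ∀ P : Polygon 5, Nine5 P → 3 * P.ang 0 + P.ang 4 = 2 * Real.pi →
  3 * P.ang 1 + 2 * P.ang 4 = Real.pi → 3 * P.ang 3 + P.ang 4 = 2 * Real.pi → False

/-! ### hexagons -/

def SpecHF : Prop := ∀ P : Polygon 6, Ex6 P → P.ang 0 + P.ang 4 = 2 * Real.pi →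
  P.ang 1 = P.ang 5 → HasPeriodic P

def SpecM8 : Prop := ∀ P : Polygon 6, P.CCW → P.len 0 = P.len 1 → P.len 1 = P.len 3 →
  P.len 3 = P.len 4 → P.len 2 ≠ P.len 5 → 2 * P.ang 0 + P.ang 4 = 2 * Real.pi →
  2 * P.ang 2 + P.ang 4 = 2 * Real.pi → P.ang 1 + 2 * P.ang 3 = 2 * Real.pi →
  P.ang 1 + 2 * P.ang 5 = 2 * Real.pi → HasPeriodic P

def SpecG4 : Prop := ∀ P : Polygon 6, P.CCW → P.len 0 = P.len 1 → P.len 1 = P.len 2 →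
  P.len 2 = P.len 3 → P.len 3 = P.len 4 → P.len 4 ≠ P.len 5 → P.ang 0 = P.ang 4 →
  P.ang 1 = P.ang 5 → P.ang 2 + 2 * P.ang 4 = 2 * Real.pi → P.ang 3 + 2 * P.ang 5 = 2 * Real.pi →
  P.ang 4 = P.ang 5

def SpecD1 : Prop := ∀ P : Polygon 6, P.CCW → P.len 0 = P.len 1 → P.len 1 = P.len 2 →
  P.len 3 = P.len 4 → P.len 4 = P.len 5 → P.len 0 ≠ P.len 3 → P.ang 1 = P.ang 5 →
  P.ang 2 = P.ang 4 → False

def SpecD2 : Prop := ∀ P : Polygon 6, P.CCW → P.len 0 = P.len 1 → P.len 1 = P.len 2 →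
  P.len 3 = P.len 4 → P.len 4 = P.len 5 → P.len 0 ≠ P.len 3 → P.ang 1 = P.ang 4 →
  P.ang 2 = P.ang 5 → False

def SpecE0 : Prop := ∀ P : Polygon 6, Ex6 P → ∃ r : ℝ, 1 < r ∧
  4 * Real.sin (P.ang 1 / 2) ^ 2 * (r - Real.cos (P.ang 2)) = r - Real.cos (P.ang 4)

def SpecE1 : Prop := ∀ P : Polygon 6, Ex6 P → 3 * P.ang 1 = 2 * Real.pi →
  3 * P.ang 2 = 3 * P.ang 4 + 2 * Real.pi → P.ang 3 + P.ang 4 = Real.pi → 3 * P.ang 5 = Real.pi →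
  False

def SpecE3 : Prop := ∀ P : Polygon 6, Ex6 P → 3 * P.ang 1 = Real.pi →
  3 * P.ang 2 = 3 * P.ang 4 + Real.pi → P.ang 3 + P.ang 4 = Real.pi → 3 * P.ang 5 = 2 * Real.pi →
  False

def SpecE5 : Prop := ∀ P : Polygon 6, Ex6 P → 2 * P.ang 0 + 3 * P.ang 5 = 2 * Real.pi →
  3 * P.ang 1 = 2 * Real.pi → 2 * P.ang 3 + P.ang 5 = 2 * Real.pi →
  6 * P.ang 4 + 3 * P.ang 5 = 2 * Real.pi → False

def SpecF1 : Prop := ∀ P : Polygon 6, Ex6 P → 3 * P.ang 0 = 3 * P.ang 5 + 4 * Real.pi →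
  3 * P.ang 1 = 2 * Real.pi → 3 * P.ang 3 = 2 * Real.pi → 3 * P.ang 4 + 3 * P.ang 5 = 2 * Real.pi →
  False

def SpecG2 : Prop := ∀ P : Polygon 6, Ex6 P → 3 * P.ang 1 = Real.pi → P.ang 2 = P.ang 4 →
  P.ang 2 + P.ang 3 = Real.pi → 3 * P.ang 5 = 2 * Real.pi → False

def SpecF3 : Prop := ∀ P : Polygon 6, Ex6 P → 6 * P.ang 0 = 3 * P.ang 5 + 10 * Real.pi →
  3 * P.ang 1 = 2 * Real.pi → 2 * P.ang 3 + P.ang 5 = 2 * Real.pi →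
  6 * P.ang 4 + 3 * P.ang 5 = 2 * Real.pi → False

end Pool.Agent.Lib_MP_fa6e45
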