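import Pool.Agent.Lib_MP_fa6e45.K1

/-!
PIECE K2a: at most one pair of equal sides and no corner of degree 2. Then `n ≤ 6`
(`count` with `D = 3`). The closed 3-walks for the equal pair `{p, p + k}`, corners given as `i - p`:
 n = 5: k = 1: {0,0,1}, {1,1,1}, {1,2,2}; k = 2: {0,3,4}; (k = 3, 4 by exchanging the two sides)
 n = 6: k = 1: {0,0,1}, {1,1,1}, {1,2,2}; k = 2: none; k = 3: {0,4,5}, {1,2,3};
 no equal pair: none for n = 5, 6.
Conclusions by `count` (a corner in no closed 3-walk has degree at least 4) and `attained`: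
 no equal pair: all degrees ≥ 4, so n ≤ 4. n = 6: k = 1, 2 impossible; k = 3: equality for D = 3, the corner
 `p + 2` has degree 3 somewhere, so `a (p+1) + a (p+2) + a (p+3) = 2 π`. n = 5, k = 1: D = 3 at `p, p+1, p+2`
 and 4 at `p+3, p+4`, equality: degree 3 is attained at `p` and at `p + 2`, so `2 a p + a (p+1) = 2 π =
 a (p+1) + 2 a (p+2)`, and with `a_sum`: `a (p+3) + a (p+4) = π`. n = 5, k = 2: D = 4 at `p+1, p+2` and 3 at
 `p, p+3, p+4`, equality: `a p + a (p+3) + a (p+4) = 2 π`, so `a (p+1) + a (p+2) = π`.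
-/

open Set

namespace Pool.Agent.Lib_MP_fa6e45

variable {n : ℕ} [NeZero n] {a l : ZMod n → ℝ} {ι : Type}

/-- the relation `l x = l y` if the only equal pair is `{p, q}` -/
private def RR (p q x y : ZMod n) : Prop := x = y ∨ (x = p ∧ y = q) ∨ (x = q ∧ y = p)

private instance (p q x y : ZMod n) : Decidable (RR p q x y) := by
  unfold RR
  infer_instance

private def enF (x : ZMod n × Bool) : ZMod n := if x.2 then x.1 - 1 else x.1

private def exF (x : ZMod n × Bool) : ZMod n := if x.2 then x.1 else x.1 - 1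

private theorem enum6_0 : ∀ p : ZMod 6, ∀ x y : ZMod 6 × Bool, RR p p (exF x) (enF y) →
    ∀ z : ZMod 6 × Bool, RR p p (exF y) (enF z) → ¬ RR p p (exF z) (enF x) := by
  decide +kernel

private theorem enum6_1 : ∀ p : ZMod 6, ∀ x y : ZMod 6 × Bool, RR p (p + 1) (exF x) (enF y) →
    ∀ z : ZMod 6 × Bool, RR p (p + 1) (exF y) (enF z) → RR p (p + 1) (exF z) (enF x) →
      (x.1 = p ∨ x.1 = p + 1 ∨ x.1 = p + 2) := by
  decide +kernel

private theorem enum6_2 : ∀ p : ZMod 6, ∀ x y : ZMod 6 × Bool, RR p (p + 2) (exF x) (enF y) →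
    ∀ z : ZMod 6 × Bool, RR p (p + 2) (exF y) (enF z) → ¬ RR p (p + 2) (exF z) (enF x) := by
  decide +kernel

private theorem enum6_3 : ∀ p : ZMod 6, ∀ x y : ZMod 6 × Bool, RR p (p + 3) (exF x) (enF y) →
    ∀ z : ZMod 6 × Bool, RR p (p + 3) (exF y) (enF z) → RR p (p + 3) (exF z) (enF x) →
      (x.1 = p + 2 → (y.1 = p + 1 ∧ z.1 = p + 3) ∨ (y.1 = p + 3 ∧ z.1 = p + 1)) := by
  decide +kernel

private theorem enum5_0 : ∀ p : ZMod 5, ∀ x y : ZMod 5 × Bool, RR p p (exF x) (enF y) →
    ∀ z : ZMod 5 × Bool, RR p p (exF y) (enF z) → ¬ RR p p (exF z) (enF x) := by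
  decide +kernel

private theorem enum5_1 : ∀ p : ZMod 5, ∀ x y : ZMod 5 × Bool, RR p (p + 1) (exF x) (enF y) →
    ∀ z : ZMod 5 × Bool, RR p (p + 1) (exF y) (enF z) → RR p (p + 1) (exF z) (enF x) →
      ((x.1 = p ∨ x.1 = p + 1 ∨ x.1 = p + 2) ∧
      (x.1 = p → (y.1 = p ∧ z.1 = p + 1) ∨ (y.1 = p + 1 ∧ z.1 = p)) ∧
      (x.1 = p + 2 → (y.1 = p + 1 ∧ z.1 = p + 2) ∨ (y.1 = p + 2 ∧ z.1 = p + 1))) := by
  decide +kernel

private theorem enum5_2 : ∀ p : ZMod 5, ∀ x y : ZMod 5 × Bool, RR p (p + 2) (exF x) (enF y) →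
    ∀ z : ZMod 5 × Bool, RR p (p + 2) (exF y) (enF z) → RR p (p + 2) (exF z) (enF x) →
      (x.1 = p ∨ x.1 = p + 3 ∨ x.1 = p + 4) := by
  decide +kernel

private theorem enum5_2b : ∀ p : ZMod 5, ∀ x y : ZMod 5 × Bool, RR p (p + 2) (exF x) (enF y) →
    ∀ z : ZMod 5 × Bool, RR p (p + 2) (exF y) (enF z) → RR p (p + 2) (exF z) (enF x) →
      (x.1 = p → (y.1 = p + 3 ∧ z.1 = p + 4) ∨ (y.1 = p + 4 ∧ z.1 = p + 3)) := by
  decide +kernel

private theorem orient6 : ∀ p q : ZMod 6, (q = p ∨ q = p + 1 ∨ q = p + 2 ∨ q = p + 3) ∨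
    (p = q + 1 ∨ p = q + 2) := by
  decide +kernel

private theorem orient5 : ∀ p q : ZMod 5, (q = p ∨ q = p + 1 ∨ q = p + 2) ∨
    (p = q + 1 ∨ p = q + 2) := by
  decide +kernel

private theorem cA1 : ∀ p : ZMod 5, (Finset.univ.filter (fun i : ZMod 5 =>
    i = p ∨ i = p + 1 ∨ i = p + 2)).card = 3 := by decide +kernel

private theorem cA2 : ∀ p : ZMod 5, (Finset.univ.filter (fun i : ZMod 5 =>
    ¬ (i = p ∨ i = p + 1 ∨ i = p + 2))).card = 2 := by decide +kernel

private theorem cB1 : ∀ p : ZMod 5, (Finset.univ.filter (fun i : ZMod 5 =>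
    i = p ∨ i = p + 3 ∨ i = p + 4)).card = 3 := by decide +kernel

private theorem cB2 : ∀ p : ZMod 5, (Finset.univ.filter (fun i : ZMod 5 =>
    ¬ (i = p ∨ i = p + 3 ∨ i = p + 4))).card = 2 := by decide +kernel

private theorem cC1 : ∀ p : ZMod 6, (Finset.univ.filter (fun i : ZMod 6 =>
    i = p ∨ i = p + 1 ∨ i = p + 2)).card = 3 := by decide +kernel

private theorem cC2 : ∀ p : ZMod 6, (Finset.univ.filter (fun i : ZMod 6 =>
    ¬ (i = p ∨ i = p + 1 ∨ i = p + 2))).card = 3 := by decide +kernel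

/-- the pair of equal sides (or `p = q`) -/
private theorem pair_of (h : OnePair l) : ∃ p q : ZMod n, l p = l q ∧
    ∀ x y, l x = l y → RR p q x y := by
  by_cases hp : ∃ i j, i ≠ j ∧ l i = l j
  · obtain ⟨i, j, hij, hl⟩ := hp
    refine ⟨i, j, hl, fun x y hxy => ?_⟩
    by_cases he : x = y
    · exact Or.inl he
    · have hs := h x y i j he hij hxy hl
      right
      have hx : x ∈ ({i, j} : Set (ZMod n)) := by
        rw [← hs]
        simp
      have hy : y ∈ ({i, j} : Set (ZMod n)) := by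
        rw [← hs]
        simp
      simp only [mem_insert_iff, mem_singleton_iff] at hx hy
      rcases hx with hx | hx <;> rcases hy with hy | hy
      · exact absurd (hx.trans hy.symm) he
      · exact Or.inl ⟨hx, hy⟩
      · exact Or.inr ⟨hx, hy⟩
      · exact absurd (hx.trans hy.symm) he
  · refine ⟨0, 0, rfl, fun x y hxy => ?_⟩
    left
    by_contra hne
    exact hp ⟨x, y, hne, hxy⟩

omit [NeZero n] in
private theorem RR_symm {p q x y : ZMod n} (h : RR p q x y) : RR q p x y := by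
  unfold RR at h ⊢
  tauto

omit [NeZero n] in
private theorem walk_of {p q : ZMod n} (hR : ∀ x y, l x = l y → RR p q x y)
    {x y z : ZMod n × Bool} (h : Walk3 l x y z) :
    RR p q (exF x) (enF y) ∧ RR p q (exF y) (enF z) ∧ RR p q (exF z) (enF x) :=
  ⟨hR _ _ h.1, hR _ _ h.2.1, hR _ _ h.2.2⟩

private theorem lowD (K : Comb n a l ι) (h3 : ∀ c, 3 ≤ Function.minimalPeriod K.nx c)
    (S : ZMod n → Prop) [DecidablePred S]
    (hS : ∀ x y z : ZMod n × Bool, Walk3 l x y z → S x.1) (c : ι × ZMod n) :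
    (fun i => if S i then 3 else 4 : ZMod n → ℕ) c.2 ≤ Function.minimalPeriod K.nx c := by
  by_cases hm : Function.minimalPeriod K.nx c = 3
  · have h1 := hS _ _ _ (K.deg_three c hm).1
    simp only at h1
    simp only [h1, if_true]
    omega
  · have h2 := h3 c
    show (if S c.2 then 3 else 4) ≤ _
    split_ifs <;> omega

private theorem lowD4 (K : Comb n a l ι) (h3 : ∀ c, 3 ≤ Function.minimalPeriod K.nx c)
    (hS : ∀ x y z : ZMod n × Bool, Walk3 l x y z → False) (c : ι × ZMod n) :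
    (fun _ => 4 : ZMod n → ℕ) c.2 ≤ Function.minimalPeriod K.nx c := by
  by_cases hm : Function.minimalPeriod K.nx c = 3
  · exact (hS _ _ _ (K.deg_three c hm).1).elim
  · have h2 := h3 c
    show 4 ≤ _
    omega

private theorem sumD (S : ZMod n → Prop) [DecidablePred S] :
    ∑ i, (1 : ℝ) / (((fun i => if S i then 3 else 4 : ZMod n → ℕ) i : ℕ) : ℝ) =
      (Finset.univ.filter S).card * (1 / 3) + (Finset.univ.filter (fun i => ¬ S i)).card * (1 / 4) := by
  have h1 : ∀ i : ZMod n, (1 : ℝ) / (((fun i => if S i then 3 else 4 : ZMod n → ℕ) i : ℕ) : ℝ) =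
      if S i then (1 / 3 : ℝ) else 1 / 4 := by
    intro i
    by_cases hi : S i <;> simp [hi]
  rw [Finset.sum_congr rfl (fun i _ => h1 i), Finset.sum_ite, Finset.sum_const, Finset.sum_const]
  simp

private theorem sum5 (a : ZMod 5 → ℝ) (p : ZMod 5) :
    ∑ i, a i = a p + a (p + 1) + a (p + 2) + a (p + 3) + a (p + 4) := by
  have h1 : ∑ i, a i = ∑ i, a (p + i) := (Equiv.sum_comp (Equiv.addLeft p) a).symm
  have h3 : ∀ f : ZMod 5 → ℝ, ∑ i, f i = f 0 + f 1 + f 2 + f 3 + f 4 :=
    fun f => Fin.sum_univ_five f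
  rw [h1, h3 (fun i => a (p + i)), add_zero]

theorem Comb.cases_no2 (K : Comb n a l ι) (h : OnePair l)
    (h3 : ∀ c, 3 ≤ Function.minimalPeriod K.nx c) :
    n = 3 ∨ n = 4 ∨
    (n = 6 ∧ ∃ p, l p = l (p + 3) ∧ a (p + 1) + a (p + 2) + a (p + 3) = 2 * Real.pi) ∨
    (n = 5 ∧ ∃ p, a p + a (p + 1) = Real.pi) := by
  have hn3 := K.three_le
  have hn6 : n ≤ 6 := by
    have h1 := K.count (fun _ => 3) (fun _ => by norm_num) (fun c => h3 c)
    simp only [Finset.sum_const, Finset.card_univ, ZMod.card, nsmul_eq_mul] at h1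
    have h2 : (n : ℝ) ≤ 6 := by
      push_cast at h1
      linarith
    exact_mod_cast h2
  have hn : n = 3 ∨ n = 4 ∨ n = 5 ∨ n = 6 := by omega
  rcases hn with hn | hn | hn | hn
  · exact Or.inl hn
  · exact Or.inr (Or.inl hn)
  · subst hn
    right; right; right
    refine ⟨rfl, ?_⟩
    have hpq : ∃ p q : ZMod 5, (q = p ∨ q = p + 1 ∨ q = p + 2) ∧
        ∀ x y, l x = l y → RR p q x y := by
      obtain ⟨p, q, -, hR⟩ := pair_of h
      rcases orient5 p q with ho | ho
      · exact ⟨p, q, ho, hR⟩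
      · exact ⟨q, p, Or.inr ho, fun x y hxy => RR_symm (hR x y hxy)⟩
    obtain ⟨p, q, hq, hR⟩ := hpq
    rcases hq with hq | hq | hq
    · exfalso
      subst hq
      have hD := lowD4 K h3 (fun x y z hw => by
        obtain ⟨w1, w2, w3⟩ := walk_of hR hw
        exact enum5_0 _ x y w1 z w2 w3)
      have h1 := K.count (fun _ => 4) (fun _ => by norm_num) hD
      simp only [Finset.sum_const, Finset.card_univ, ZMod.card, nsmul_eq_mul] at h1
      norm_num at h1
    · subst hq
      have hD := lowD K h3 (fun i => i = p ∨ i = p + 1 ∨ i = p + 2) (fun x y z hw => by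
        obtain ⟨w1, w2, w3⟩ := walk_of hR hw
        exact (enum5_1 _ x y w1 z w2 w3).1)
      have he : ∑ i, (1 : ℝ) / (((fun i => if (i = p ∨ i = p + 1 ∨ i = p + 2) then 3 else 4 :
          ZMod 5 → ℕ) i : ℕ) : ℝ) ≤ (((5 : ℕ) : ℝ) - 2) / 2 := by
        rw [sumD]
        rw [cA1 p, cA2 p]
        norm_num
      have hpos : ∀ i, 0 < (fun i => if (i = p ∨ i = p + 1 ∨ i = p + 2) then 3 else 4 :
          ZMod 5 → ℕ) i := by
        intro i
        show 0 < (if _ then 3 else 4)
        split_ifs <;> norm_num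
      obtain ⟨t, ht⟩ := K.attained _ hpos hD he p
      obtain ⟨s, hs⟩ := K.attained _ hpos hD he (p + 2)
      have ht' : Function.minimalPeriod K.nx (t, p) = 3 := by
        rw [ht]
        simp
      have hs' : Function.minimalPeriod K.nx (s, p + 2) = 3 := by
        rw [hs]
        simp
      obtain ⟨hw, hsum⟩ := K.deg_three _ ht'
      obtain ⟨hw2, hsum2⟩ := K.deg_three _ hs'
      obtain ⟨w1, w2, w3⟩ := walk_of hR hw
      obtain ⟨v1, v2, v3⟩ := walk_of hR hw2
      have e1 := (enum5_1 _ _ _ w1 _ w2 w3).2.1 rfl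
      have e2 := (enum5_1 _ _ _ v1 _ v2 v3).2.2 rfl
      have s1 : 2 * a p + a (p + 1) = 2 * Real.pi := by
        rcases e1 with ⟨f1, f2⟩ | ⟨f1, f2⟩
        · simp only at f1 f2 hsum
          rw [f1, f2] at hsum
          linarith
        · simp only at f1 f2 hsum
          rw [f1, f2] at hsum
          linarith
      have s2 : 2 * a (p + 2) + a (p + 1) = 2 * Real.pi := by
        rcases e2 with ⟨f1, f2⟩ | ⟨f1, f2⟩
        · simp only at f1 f2 hsum2
          rw [f1, f2] at hsum2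
          linarith
        · simp only at f1 f2 hsum2
          rw [f1, f2] at hsum2
          linarith
      have s3 := K.a_sum
      rw [sum5 a p] at s3
      refine ⟨p + 3, ?_⟩
      have h4 : p + 3 + 1 = p + 4 := by ring
      rw [h4]
      push_cast at s3
      linarith
    · subst hq
      have hD := lowD K h3 (fun i => i = p ∨ i = p + 3 ∨ i = p + 4) (fun x y z hw => by
        obtain ⟨w1, w2, w3⟩ := walk_of hR hw
        exact enum5_2 _ x y w1 z w2 w3)
      have he : ∑ i, (1 : ℝ) / (((fun i => if (i = p ∨ i = p + 3 ∨ i = p + 4) then 3 else 4 :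
          ZMod 5 → ℕ) i : ℕ) : ℝ) ≤ (((5 : ℕ) : ℝ) - 2) / 2 := by
        rw [sumD]
        rw [cB1 p, cB2 p]
        norm_num
      have hpos : ∀ i, 0 < (fun i => if (i = p ∨ i = p + 3 ∨ i = p + 4) then 3 else 4 :
          ZMod 5 → ℕ) i := by
        intro i
        show 0 < (if _ then 3 else 4)
        split_ifs <;> norm_num
      obtain ⟨t, ht⟩ := K.attained _ hpos hD he p
      have ht' : Function.minimalPeriod K.nx (t, p) = 3 := by
        rw [ht]
        simp
      obtain ⟨hw, hsum⟩ := K.deg_three _ ht'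
      obtain ⟨w1, w2, w3⟩ := walk_of hR hw
      have e1 := enum5_2b _ _ _ w1 _ w2 w3 rfl
      have s1 : a p + a (p + 3) + a (p + 4) = 2 * Real.pi := by
        rcases e1 with ⟨f1, f2⟩ | ⟨f1, f2⟩
        · simp only at f1 f2 hsum
          rw [f1, f2] at hsum
          linarith
        · simp only at f1 f2 hsum
          rw [f1, f2] at hsum
          linarith
      have s3 := K.a_sum
      rw [sum5 a p] at s3
      refine ⟨p + 1, ?_⟩
      have h4 : p + 1 + 1 = p + 2 := by ring
      rw [h4]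
      push_cast at s3
      linarith
  · subst hn
    right; right; left
    refine ⟨rfl, ?_⟩
    have hpq : ∃ p q : ZMod 6, (q = p ∨ q = p + 1 ∨ q = p + 2 ∨ q = p + 3) ∧ l p = l q ∧
        ∀ x y, l x = l y → RR p q x y := by
      obtain ⟨p, q, hl, hR⟩ := pair_of h
      rcases orient6 p q with ho | ho
      · exact ⟨p, q, ho, hl, hR⟩
      · exact ⟨q, p, Or.inr (ho.imp_right Or.inl), hl.symm,
          fun x y hxy => RR_symm (hR x y hxy)⟩
    obtain ⟨p, q, hq, hl, hR⟩ := hpq
    rcases hq with hq | hq | hq | hq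
    · exfalso
      subst hq
      have hD := lowD4 K h3 (fun x y z hw => by
        obtain ⟨w1, w2, w3⟩ := walk_of hR hw
        exact enum6_0 _ x y w1 z w2 w3)
      have h1 := K.count (fun _ => 4) (fun _ => by norm_num) hD
      simp only [Finset.sum_const, Finset.card_univ, ZMod.card, nsmul_eq_mul] at h1
      norm_num at h1
    · exfalso
      subst hq
      have hD := lowD K h3 (fun i => i = p ∨ i = p + 1 ∨ i = p + 2) (fun x y z hw => by
        obtain ⟨w1, w2, w3⟩ := walk_of hR hw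
        exact enum6_1 _ x y w1 z w2 w3)
      have hpos : ∀ i, 0 < (fun i => if (i = p ∨ i = p + 1 ∨ i = p + 2) then 3 else 4 :
          ZMod 6 → ℕ) i := by
        intro i
        show 0 < (if _ then 3 else 4)
        split_ifs <;> norm_num
      have h1 := K.count _ hpos hD
      rw [sumD] at h1
      rw [cC1 p, cC2 p] at h1
      norm_num at h1
    · exfalso
      subst hq
      have hD := lowD4 K h3 (fun x y z hw => by
        obtain ⟨w1, w2, w3⟩ := walk_of hR hw
        exact enum6_2 _ x y w1 z w2 w3)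
      have h1 := K.count (fun _ => 4) (fun _ => by norm_num) hD
      simp only [Finset.sum_const, Finset.card_univ, ZMod.card, nsmul_eq_mul] at h1
      norm_num at h1
    · subst hq
      have he : ∑ i : ZMod 6, (1 : ℝ) / (((fun _ => 3 : ZMod 6 → ℕ) i : ℕ) : ℝ) ≤
          (((6 : ℕ) : ℝ) - 2) / 2 := by
        simp only [Finset.sum_const, Finset.card_univ, ZMod.card, nsmul_eq_mul]
        norm_num
      obtain ⟨t, ht⟩ := K.attained (fun _ => 3) (fun _ => by norm_num) (fun c => h3 c) he (p + 2)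
      obtain ⟨hw, hsum⟩ := K.deg_three _ ht
      obtain ⟨w1, w2, w3⟩ := walk_of hR hw
      have e1 := enum6_3 _ _ _ w1 _ w2 w3 rfl
      refine ⟨p, hl, ?_⟩
      rcases e1 with ⟨f1, f2⟩ | ⟨f1, f2⟩
      · simp only at f1 f2 hsum
        rw [f1, f2] at hsum
        linarith
      · simp only at f1 f2 hsum
        rw [f1, f2] at hsum
        linarith

end Pool.Agent.Lib_MP_fa6e45
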