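import Pool.Agent.Lib_MP_fa6e45.L1o
import Pool.Agent.Lib_MP_fa6e45.A3a

/-!
PIECE L1a (about 250 lines): the multiplicity is constant off the boundaries.
For a ball `B = ball 0 r` take the box `F` of all `(a, b)` with `|a|, |b| ≤ N`, `N` large (`locFin`): for `z ∈ B \ Bd`
`2 π mult z = ∑_{j, λ ∈ F} ∑_y (± th ...) z = ∑_x ∑_{λ ∈ F} th (src x + λ) (tgt x + λ) z` (`K.sum_in`,
`K.sum_out`; `th` is invariant under translations, rotations, changes sign under reflections except on
the segment: this is why the segments of reflected tiles are reversed). By `τ`: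
`∑_{λ ∈ F} th (src x + λ) (tgt x + λ) z = - ∑_{λ ∈ F + c x} th (src (τ x) + λ) (tgt (τ x) + λ) z` (`th_swap`), so
`2 ∑_x ∑_F = ∑_x (∑_{F \ (F + c x)} - ∑_{(F + c x) \ F}) th (src (τ x) + λ) (tgt (τ x) + λ) z`, and these segments do not
meet `B` for large `N`. So `2 π mult` agrees on `B \ Bd` with a function which is continuous on `B`
(`Lib_PL.slit_iff`), and `B \ Bd` is dense in `B` (`volume_Bd`): an integer valued function which
is locally constant in this sense is constant (`B` is connected: the continuous function divided by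
`2 π` has integer values on a dense set, hence everywhere, hence it is constant).
-/

open Set MeasureTheory Complex
open scoped Topology

namespace Pool.Agent.Lib_MP_fa6e45

open Pool.Agent.Lib_PL (cr InSector Poly)

variable {n : ℕ} {P : Polygon n} {Y : Type} [Fintype Y] {k : ℕ} (D : LData P Y k)

/-- behaviour of `th` under a motion followed by a translation -/
private theorem L1a_th (g : Mo) (p q z l : ℂ) (h : z ∉ segment ℝ p q) :
    th (g.app (if g.rf then q else p) + l) (g.app (if g.rf then p else q) + l) (g.app z + l) =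
      th p q z := by
  have hs := Pool.Agent.Lib_PL.slit_iff p q z h
  have hpz : p - z ≠ 0 := by
    intro h0
    exact h (by rw [← sub_eq_zero.1 h0]; exact left_mem_segment ℝ p q)
  have ha0 : g.a ≠ 0 := by
    intro h0
    have := g.ha
    rw [h0, norm_zero] at this
    exact zero_ne_one this
  have e : ∀ a : ℂ, g.app a + l - (g.app z + l) = g.lin (a - z) := by
    intro a
    rw [← g.app_sub]
    ring
  unfold th
  rw [e, e]
  by_cases hr : g.rf = true
  · simp only [Mo.lin, hr, if_true]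
    rw [mul_div_mul_left _ _ ha0, ← map_div₀, Complex.arg_conj]
    have h1 : (p - z) / (q - z) = ((q - z) / (p - z))⁻¹ := by rw [inv_div]
    rw [h1, Complex.arg_inv]
    have h2 := (Complex.mem_slitPlane_iff_arg.1 hs).1
    rw [if_neg h2]
    have h3 : -((q - z) / (p - z)).arg ≠ Real.pi := by
      intro h4
      have := Complex.neg_pi_lt_arg ((q - z) / (p - z))
      linarith
    rw [if_neg h3, neg_neg]
  · simp only [Bool.not_eq_true] at hr
    simp only [Mo.lin, hr]
    simp only [Bool.false_eq_true, if_false]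
    rw [mul_div_mul_left _ _ ha0]

private theorem L1a_bdry_sub (P : Polygon n) : P.bdry ⊆ P.region := by
  intro z hz
  have h := Pool.Agent.Lib_PL.SimplePolygon.toPoly_R P.toSimplePolygon
  unfold Polygon.region
  rw [← h]
  exact Or.inl hz

namespace LData

/-- the angle of the translated segment -/
noncomputable def L1a_S (x : Fin k × Y) (l : ℤ × ℤ) (z : ℂ) : ℝ :=
  th (D.src x + lv D.u D.w l) (D.tgt x + lv D.u D.w l) z

private theorem L1a_seg (x : Fin k × Y) (l : ℤ × ℤ) :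
    segment ℝ (D.src x + lv D.u D.w l) (D.tgt x + lv D.u D.w l) ⊆
      (fun z => z + lv D.u D.w l) '' ((D.g x.1).app '' P.bdry) := by
  intro z hz
  have key : ∀ p q : ℂ, segment ℝ p q ⊆ P.bdry →
      ∀ z ∈ segment ℝ ((D.g x.1).app p + lv D.u D.w l) ((D.g x.1).app q + lv D.u D.w l),
        z ∈ (fun z => z + lv D.u D.w l) '' ((D.g x.1).app '' P.bdry) := by
    intro p q hpq z hz
    obtain ⟨s, t, hs, ht, hst, rfl⟩ := hz
    refine ⟨(D.g x.1).app (s • p + t • q), ⟨s • p + t • q, hpq ⟨s, t, hs, ht, hst, rfl⟩, rfl⟩, ?_⟩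
    simp only [Complex.real_smul]
    have h1 : (s : ℂ) + (t : ℂ) = 1 := by exact_mod_cast hst
    unfold Mo.app
    rw [Mo.lin_add, Mo.lin_mul, Mo.lin_mul]
    linear_combination (-(lv D.u D.w l) - (D.g x.1).b) * h1
  unfold src tgt at hz
  by_cases hr : (D.g x.1).rf = true
  · simp only [hr, if_true] at hz
    refine key _ _ ?_ z hz
    rw [segment_symm]
    exact D.K.sub x.2
  · simp only [Bool.not_eq_true] at hr
    simp only [hr, Bool.false_eq_true, if_false] at hz
    exact key _ _ (D.K.sub x.2) z hz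

private theorem L1a_seg_Bd (x : Fin k × Y) (l : ℤ × ℤ) :
    segment ℝ (D.src x + lv D.u D.w l) (D.tgt x + lv D.u D.w l) ⊆ D.Bd :=
  fun z hz => mem_iUnion.2 ⟨(x.1, l), D.L1a_seg x l hz⟩

private theorem L1a_seg_R (x : Fin k × Y) (l : ℤ × ℤ) :
    segment ℝ (D.src x + lv D.u D.w l) (D.tgt x + lv D.u D.w l) ⊆ D.R (x.1, l) := by
  intro z hz
  obtain ⟨z1, ⟨z2, hz2, rfl⟩, rfl⟩ := D.L1a_seg x l hz
  exact ⟨_, ⟨z2, L1a_bdry_sub P hz2, rfl⟩, rfl⟩

/-- the sum of the angles of one translated tile -/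
private theorem L1a_tile (j : Fin k) (l : ℤ × ℤ) {z : ℂ} (hz : z ∉ D.Bd) :
    ∑ y : Y, D.L1a_S (j, y) l z = (D.I (j, l)).indicator (fun _ => 2 * Real.pi) z := by
  classical
  set z' := (D.g j).inv.app (z - lv D.u D.w l) with hz'
  have hzz : (D.g j).app z' + lv D.u D.w l = z := by
    rw [hz', Mo.app_inv]
    ring
  have hb : z' ∉ P.bdry := by
    intro h
    exact hz (mem_iUnion.2 ⟨(j, l), _, ⟨z', h, rfl⟩, hzz⟩)
  have h1 : ∀ y : Y, D.L1a_S (j, y) l z = th (D.K.p y) (D.K.q y) z' := by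
    intro y
    have h2 := L1a_th (D.g j) (D.K.p y) (D.K.q y) z' (lv D.u D.w l)
      (fun h => hb (D.K.sub y h))
    rw [hzz] at h2
    rw [← h2]
    rfl
  rw [Finset.sum_congr rfl fun y _ => h1 y]
  by_cases hI : z ∈ D.I (j, l)
  · rw [indicator_of_mem hI]
    apply D.K.sum_in
    obtain ⟨z1, ⟨z2, hz2, rfl⟩, h3⟩ := hI
    have h4 : (D.g j).app z2 = (D.g j).app z' := by
      have h5 : (D.g j).app z2 + lv D.u D.w l = (D.g j).app z' + lv D.u D.w l := by
        rw [hzz]
        exact h3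
      exact add_right_cancel h5
    rw [← (D.g j).app_injective h4]
    exact hz2
  · rw [indicator_of_notMem hI]
    apply D.K.sum_out
    intro h
    have h2 : z ∈ D.R (j, l) := ⟨_, ⟨z', h, rfl⟩, hzz⟩
    rcases D.R_eq (j, l) h2 with h3 | h3
    · exact hI h3
    · exact hz h3

/-- the multiplicity as a finite sum -/
private theorem L1a_mult {z : ℂ} (hz : z ∉ D.Bd) (F : Finset (ℤ × ℤ))
    (hF : ∀ x : Fin k × (ℤ × ℤ), z ∈ D.I x → x.2 ∈ F) :
    ∑ x : Fin k × Y, ∑ l ∈ F, D.L1a_S x l z = 2 * Real.pi * D.mult z := by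
  classical
  have h1 : D.mult z = ((Finset.univ ×ˢ F).filter fun x : Fin k × (ℤ × ℤ) => z ∈ D.I x).card := by
    unfold mult
    rw [← Set.ncard_coe_finset]
    congr 1
    ext x
    simp only [mem_setOf_eq, Finset.coe_filter, Finset.mem_product, Finset.mem_univ, true_and]
    exact ⟨fun h => ⟨hF x h, h⟩, fun h => h.2⟩
  rw [h1, Finset.card_filter, Finset.sum_product, Fintype.sum_prod_type]
  push_cast
  rw [Finset.mul_sum]
  refine Finset.sum_congr rfl fun j _ => ?_
  rw [Finset.sum_comm, Finset.mul_sum]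
  refine Finset.sum_congr rfl fun l _ => ?_
  rw [D.L1a_tile j l hz, Set.indicator_apply]
  split_ifs <;> simp

/-- the involution -/
private theorem L1a_tau (hm : D.Matched) {z : ℂ} (hz : z ∉ D.Bd) (F : Finset (ℤ × ℤ)) :
    ∑ x : Fin k × Y, ∑ l ∈ F, D.L1a_S x l z =
      -∑ x : Fin k × Y, ∑ l ∈ F.image (fun l => l - D.c x), D.L1a_S x l z := by
  classical
  have h1 : ∀ x l, D.L1a_S x l z = -D.L1a_S (D.τ x) (l + D.c x) z := by
    intro x l
    have e : lv D.u D.w (l + D.c x) = lv D.u D.w (D.c x) + lv D.u D.w l := by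
      unfold lv
      push_cast [Prod.fst_add, Prod.snd_add]
      ring
    have h2 : D.src (D.τ x) + lv D.u D.w (l + D.c x) = D.tgt x + lv D.u D.w l := by
      rw [e, ← (hm x).1]
      ring
    have h3 : D.tgt (D.τ x) + lv D.u D.w (l + D.c x) = D.src x + lv D.u D.w l := by
      rw [e, ← (hm x).2]
      ring
    unfold L1a_S
    rw [h2, h3]
    rw [th_swap (p := D.src x + lv D.u D.w l) (q := D.tgt x + lv D.u D.w l)
      (fun h => hz (D.L1a_seg_Bd x l h)), neg_neg]
  rw [← Finset.sum_neg_distrib]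
  have h4 : ∑ x : Fin k × Y, ∑ l ∈ F, D.L1a_S x l z =
      ∑ x : Fin k × Y, ∑ l ∈ F, -D.L1a_S (D.τ x) (l + D.c x) z :=
    Finset.sum_congr rfl fun x _ => Finset.sum_congr rfl fun l _ => h1 x l
  rw [h4]
  have hinv : Function.Involutive D.τ := D.ττ
  rw [← Equiv.sum_comp (hinv.toPerm) (fun x => -∑ l ∈ F.image (fun l => l - D.c x), D.L1a_S x l z)]
  refine Finset.sum_congr rfl fun x _ => ?_
  rw [Finset.sum_neg_distrib]
  congr 1
  simp only [Function.Involutive.coe_toPerm]
  rw [Finset.sum_image]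
  · refine Finset.sum_congr rfl fun l _ => ?_
    rw [D.cτ, sub_neg_eq_add]
  · intro a _ b _ hab
    simpa using hab

private theorem L1a_cont (x : Fin k × Y) (l : ℤ × ℤ) {r : ℝ}
    (h : ¬ (D.R (x.1, l) ∩ Metric.closedBall 0 r).Nonempty) :
    ContinuousOn (D.L1a_S x l) (Metric.ball 0 r) := by
  intro z hz
  apply ContinuousAt.continuousWithinAt
  have hs : z ∉ segment ℝ (D.src x + lv D.u D.w l) (D.tgt x + lv D.u D.w l) := by
    intro h1
    exact h ⟨z, D.L1a_seg_R x l h1, Metric.ball_subset_closedBall hz⟩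
  have haz : (D.src x + lv D.u D.w l) - z ≠ 0 := by
    intro h0
    exact hs (by rw [← sub_eq_zero.1 h0]; exact left_mem_segment ℝ _ _)
  have h1 : ContinuousAt (fun z : ℂ => ((D.tgt x + lv D.u D.w l) - z) /
      ((D.src x + lv D.u D.w l) - z)) z :=
    ContinuousAt.div (by fun_prop) (by fun_prop) haz
  exact ContinuousAt.comp (g := Complex.arg)
    (Complex.continuousAt_arg (Pool.Agent.Lib_PL.slit_iff _ _ z hs)) h1

/-- on a ball the multiplicity agrees with a continuous function off the boundaries -/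
private theorem L1a_G (hm : D.Matched) (r : ℝ) : ∃ G : ℂ → ℝ, ContinuousOn G (Metric.ball 0 r) ∧
    ∀ z ∈ Metric.ball (0 : ℂ) r, z ∉ D.Bd → G z = D.mult z := by
  classical
  set F0 : Finset (ℤ × ℤ) := (D.locFin r).toFinset.image Prod.snd with hF0
  have hmem : ∀ (j : Fin k) (l : ℤ × ℤ), (D.R (j, l) ∩ Metric.closedBall 0 r).Nonempty →
      l ∈ F0 := by
    intro j l h
    rw [hF0, Finset.mem_image]
    exact ⟨(j, l), by simpa using h, rfl⟩
  set F : Finset (ℤ × ℤ) := F0 ∪ Finset.univ.biUnion fun x => F0.image (fun l => l + D.c x)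
    with hF
  have hsub1 : F0 ⊆ F := Finset.subset_union_left
  have hsub2 : ∀ x, F0 ⊆ F.image (fun l => l - D.c x) := by
    intro x l hl
    rw [Finset.mem_image]
    refine ⟨l + D.c x, ?_, by simp⟩
    rw [hF, Finset.mem_union, Finset.mem_biUnion]
    exact Or.inr ⟨x, Finset.mem_univ _, Finset.mem_image.2 ⟨l, hl, rfl⟩⟩
  refine ⟨fun z => (∑ x : Fin k × Y, (∑ l ∈ F \ F0, D.L1a_S x l z -
    ∑ l ∈ F.image (fun l => l - D.c x) \ F0, D.L1a_S x l z)) / (4 * Real.pi), ?_, ?_⟩
  · refine ContinuousOn.div_const ?_ _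
    refine continuousOn_finsetSum _ fun x _ => ?_
    refine ContinuousOn.sub ?_ ?_
    · refine continuousOn_finsetSum _ fun l hl => ?_
      exact D.L1a_cont x l fun h => (Finset.mem_sdiff.1 hl).2 (hmem _ _ h)
    · refine continuousOn_finsetSum _ fun l hl => ?_
      exact D.L1a_cont x l fun h => (Finset.mem_sdiff.1 hl).2 (hmem _ _ h)
  · intro z hzB hz
    have hIR : ∀ x : Fin k × (ℤ × ℤ), z ∈ D.I x → x.2 ∈ F := by
      intro x hx
      apply hsub1
      apply hmem x.1 x.2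
      refine ⟨z, ?_, Metric.ball_subset_closedBall hzB⟩
      obtain ⟨z1, ⟨z2, hz2, rfl⟩, rfl⟩ := hx
      refine ⟨_, ⟨z2, ?_, rfl⟩, rfl⟩
      have h := Pool.Agent.Lib_PL.SimplePolygon.toPoly_R P.toSimplePolygon
      unfold Polygon.region
      rw [← h]
      exact Or.inr hz2
    have h1 := D.L1a_mult hz F hIR
    have h2 := D.L1a_tau hm hz F
    have h3 : ∀ x : Fin k × Y, ∑ l ∈ F \ F0, D.L1a_S x l z -
        ∑ l ∈ F.image (fun l => l - D.c x) \ F0, D.L1a_S x l z =
        ∑ l ∈ F, D.L1a_S x l z - ∑ l ∈ F.image (fun l => l - D.c x), D.L1a_S x l z := by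
      intro x
      rw [← Finset.sum_sdiff hsub1, ← Finset.sum_sdiff (hsub2 x)]
      ring
    have h4 : ∑ x : Fin k × Y, (∑ l ∈ F \ F0, D.L1a_S x l z -
        ∑ l ∈ F.image (fun l => l - D.c x) \ F0, D.L1a_S x l z) = 4 * Real.pi * D.mult z := by
      rw [Finset.sum_congr rfl fun x _ => h3 x, Finset.sum_sub_distrib]
      linarith
    show _ / _ = _
    rw [h4]
    have := Real.pi_ne_zero
    field_simp

theorem mult_const (hm : D.Matched) {z z' : ℂ} (hz : z ∉ D.Bd) (hz' : z' ∉ D.Bd) :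
    D.mult z = D.mult z' := by
  classical
  obtain ⟨r, hr, hr'⟩ : ∃ r : ℝ, ‖z‖ < r ∧ ‖z'‖ < r :=
    ⟨max ‖z‖ ‖z'‖ + 1, by linarith [le_max_left ‖z‖ ‖z'‖], by linarith [le_max_right ‖z‖ ‖z'‖]⟩
  obtain ⟨G, hG, hGm⟩ := D.L1a_G hm r
  have hzB : z ∈ Metric.ball (0 : ℂ) r := by simpa using hr
  have hzB' : z' ∈ Metric.ball (0 : ℂ) r := by simpa using hr'
  have hdense : Dense D.Bdᶜ :=
    interior_eq_empty_iff_dense_compl.1 (Measure.interior_eq_empty_of_null D.volume_Bd)
  have hmaps : MapsTo G (Metric.ball 0 r) (range ((↑) : ℤ → ℝ)) := by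
    intro ζ hζ
    have hcl : IsClosed (range ((↑) : ℤ → ℝ)) := Int.isClosedEmbedding_coe_real.isClosed_range
    by_contra hne
    have h1 : ∀ᶠ ξ in 𝓝 ζ, G ξ ∈ (range ((↑) : ℤ → ℝ))ᶜ := by
      have hc : ContinuousAt G ζ := hG.continuousAt (Metric.isOpen_ball.mem_nhds hζ)
      exact hc (hcl.isOpen_compl.mem_nhds hne)
    have h2 : ∀ᶠ ξ in 𝓝 ζ, ξ ∈ Metric.ball (0 : ℂ) r := Metric.isOpen_ball.mem_nhds hζ
    obtain ⟨U, hU, hUo, hζU⟩ := mem_nhds_iff.1 (h1.and h2)
    obtain ⟨ξ, hξU, hξ⟩ := hdense.exists_mem_open hUo ⟨ζ, hζU⟩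
    have h3 := hU hξ
    apply h3.1
    rw [hGm ξ h3.2 hξU]
    exact ⟨(D.mult ξ : ℤ), by simp⟩
  have hdis : IsDiscrete (range ((↑) : ℤ → ℝ)) := by
    rw [← image_univ]
    exact IsDiscrete.univ.image Int.isClosedEmbedding_coe_real.isInducing
  have h1 := (convex_ball (0 : ℂ) r).isPreconnected.constant_of_mapsTo hdis hG hmaps hzB hzB'
  rw [hGm z hzB hz, hGm z' hzB' hz'] at h1
  exact_mod_cast h1

end LData

end Pool.Agent.Lib_MP_fa6e45
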