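import Pool.Agent.Lib_MP_fa6e45.L1Defs
import Pool.Agent.Lib_MP_fa6e45.A1c

/-!
PIECE L1o (about 130 lines): basic facts for the translated tiles.
Local finiteness: `‖a u + b w‖ ≥ δ max(|a|, |b|)` for some `δ > 0` as `cr u w ≠ 0` (`cr (lv a) w = a.1 cr u w`,
`|cr z w| ≤ ‖z‖ ‖w‖`), and the region is bounded.
-/

open Set MeasureTheory Complex
open scoped Topology

namespace Pool.Agent.Lib_MP_fa6e45

open Pool.Agent.Lib_PL (cr InSector Poly)

variable {n : ℕ} {P : Polygon n} {Y : Type} [Fintype Y] {k : ℕ} (D : LData P Y k)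

private theorem L1o_image (g : Mo) (v : ℂ) (S : Set ℂ) :
    (fun z => z + v) '' (g.app '' S) = (fun z => g.app z + v) '' S := by
  rw [Set.image_image]

private theorem L1o_closed (g : Mo) (v : ℂ) {S : Set ℂ} (hS : IsClosed S) :
    IsClosed ((fun z => z + v) '' (g.app '' S)) := by
  have h1 : IsClosed (g.app '' S) := g.iso.toHomeomorph.isClosedMap S hS
  exact (Homeomorph.addRight v).isClosedMap _ h1

private theorem L1o_open (g : Mo) (v : ℂ) {S : Set ℂ} (hS : IsOpen S) :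
    IsOpen ((fun z => z + v) '' (g.app '' S)) := by
  have h1 : IsOpen (g.app '' S) := g.iso.toHomeomorph.isOpenMap S hS
  exact (Homeomorph.addRight v).isOpenMap _ h1

private theorem L1o_diff (g : Mo) (v : ℂ) : Differentiable ℝ (fun z => g.app z + v) := by
  have h1 : Differentiable ℝ (fun z : ℂ => (starRingEnd ℂ) z) := Complex.conjCLE.differentiable
  unfold Mo.app Mo.lin
  split_ifs
  · exact (((differentiable_const _).mul h1).add (differentiable_const _)).add
      (differentiable_const _)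
  · exact (((differentiable_const _).mul differentiable_id).add (differentiable_const _)).add
      (differentiable_const _)

private theorem L1o_null (g : Mo) (v : ℂ) {S : Set ℂ} (hS : volume S = 0) :
    volume ((fun z => z + v) '' (g.app '' S)) = 0 := by
  rw [L1o_image]
  exact MeasureTheory.addHaar_image_eq_zero_of_differentiableOn_of_addHaar_eq_zero volume
    (L1o_diff g v).differentiableOn hS

private theorem L1o_cr_le (z w : ℂ) : |cr z w| ≤ ‖z‖ * ‖w‖ := by
  have h1 : cr z w = ((starRingEnd ℂ) z * w).im := by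
    unfold cr
    simp only [mul_im, conj_re, conj_im]
    ring
  rw [h1]
  refine (Complex.abs_im_le_norm _).trans ?_
  rw [norm_mul, RCLike.norm_conj]

private theorem L1o_lv1 (u w : ℂ) (a : ℤ × ℤ) : cr (lv u w a) w = (a.1 : ℝ) * cr u w := by
  unfold cr lv
  simp only [add_re, add_im, mul_re, mul_im, intCast_re, intCast_im]
  ring

private theorem L1o_lv2 (u w : ℂ) (a : ℤ × ℤ) : cr u (lv u w a) = (a.2 : ℝ) * cr u w := by
  unfold cr lv
  simp only [add_re, add_im, mul_re, mul_im, intCast_re, intCast_im]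
  ring

private theorem L1o_fin {u w : ℂ} (h : cr u w ≠ 0) (s : ℝ) :
    {a : ℤ × ℤ | ‖lv u w a‖ ≤ s}.Finite := by
  have h0 : 0 < |cr u w| := abs_pos.2 h
  obtain ⟨N, hN⟩ := exists_nat_ge (s * (‖u‖ + ‖w‖) / |cr u w|)
  refine ((Set.finite_Icc (-(N : ℤ)) N).prod (Set.finite_Icc (-(N : ℤ)) N)).subset ?_
  rintro ⟨a, b⟩ hab
  have hs : ‖lv u w (a, b)‖ ≤ s := hab
  have hs0 : 0 ≤ s := (norm_nonneg _).trans hs
  have h1 := L1o_cr_le (lv u w (a, b)) w
  have h2 := L1o_cr_le u (lv u w (a, b))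
  rw [L1o_lv1, abs_mul] at h1
  rw [L1o_lv2, abs_mul] at h2
  rw [div_le_iff₀ h0] at hN
  have e1 : |(a : ℝ)| * |cr u w| ≤ N * |cr u w| := by
    refine h1.trans (le_trans ?_ hN)
    refine (mul_le_mul_of_nonneg_right hs (norm_nonneg _)).trans ?_
    exact mul_le_mul_of_nonneg_left (le_add_of_nonneg_left (norm_nonneg _)) hs0
  have e2 : |(b : ℝ)| * |cr u w| ≤ N * |cr u w| := by
    refine h2.trans (le_trans ?_ hN)
    rw [mul_comm]
    refine (mul_le_mul_of_nonneg_right hs (norm_nonneg _)).trans ?_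
    exact mul_le_mul_of_nonneg_left (le_add_of_nonneg_right (norm_nonneg _)) hs0
  have f1 := le_of_mul_le_mul_right e1 h0
  have f2 := le_of_mul_le_mul_right e2 h0
  rw [abs_le] at f1 f2
  refine ⟨⟨?_, ?_⟩, ⟨?_, ?_⟩⟩
  · exact_mod_cast f1.1
  · exact_mod_cast f1.2
  · exact_mod_cast f2.1
  · exact_mod_cast f2.2

private theorem L1o_norm_app (g : Mo) (z : ℂ) : ‖g.app z‖ ≤ ‖z‖ + ‖g.b‖ := by
  unfold Mo.app
  refine (norm_add_le _ _).trans ?_
  rw [g.norm_lin]

namespace LData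

theorem R_closed (x : Fin k × (ℤ × ℤ)) : IsClosed (D.R x) :=
  L1o_closed _ _ P.region_closed

theorem I_open (x : Fin k × (ℤ × ℤ)) : IsOpen (D.I x) :=
  L1o_open _ _ P.inner_open

/-- local finiteness -/
theorem locFin (r : ℝ) : {x : Fin k × (ℤ × ℤ) | (D.R x ∩ Metric.closedBall 0 r).Nonempty}.Finite := by
  obtain ⟨M, hM⟩ := (Metric.isBounded_iff_subset_closedBall (0 : ℂ)).1 P.region_bounded
  refine ((Set.finite_univ : (univ : Set (Fin k)).Finite).prod
    (L1o_fin D.ne (r + (M + ∑ j, ‖(D.g j).b‖)))).subset ?_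
  rintro ⟨j, a⟩ ⟨z, ⟨y, ⟨p, hp, rfl⟩, rfl⟩, hz⟩
  refine ⟨mem_univ _, ?_⟩
  have h1 : ‖p‖ ≤ M := by
    have := hM hp
    rwa [Metric.mem_closedBall, dist_zero_right] at this
  have h2 : ‖(D.g j).b‖ ≤ ∑ j, ‖(D.g j).b‖ :=
    Finset.single_le_sum (f := fun j => ‖(D.g j).b‖) (fun _ _ => norm_nonneg _) (Finset.mem_univ j)
  have h3 := L1o_norm_app (D.g j) p
  have h4 : ‖(D.g j).app p + lv D.u D.w a‖ ≤ r := by
    rwa [Metric.mem_closedBall, dist_zero_right] at hz
  have h5 : ‖lv D.u D.w a‖ ≤ ‖(D.g j).app p + lv D.u D.w a‖ + ‖(D.g j).app p‖ := by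
    have h6 : lv D.u D.w a = ((D.g j).app p + lv D.u D.w a) - (D.g j).app p := by ring
    calc ‖lv D.u D.w a‖ = ‖((D.g j).app p + lv D.u D.w a) - (D.g j).app p‖ := by rw [← h6]
      _ ≤ _ := norm_sub_le _ _
  change ‖lv D.u D.w a‖ ≤ _
  linarith

private theorem bd_sub (x : Fin k × (ℤ × ℤ)) :
    (fun z => z + lv D.u D.w x.2) '' ((D.g x.1).app '' P.bdry) ⊆ D.R x := by
  unfold R
  refine Set.image_mono (Set.image_mono ?_)
  rw [P.region_union]
  exact subset_union_left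

theorem volume_Bd : volume D.Bd = 0 := by
  unfold Bd
  rw [measure_iUnion_null_iff]
  intro x
  exact L1o_null _ _ P.volume_bdry

private theorem bdry_closed : IsClosed P.bdry := by
  unfold Polygon.bdry
  exact P.toPoly.C_closed

theorem Bd_closed : IsClosed D.Bd := by
  unfold Bd
  refine LocallyFinite.isClosed_iUnion ?_ fun x => L1o_closed _ _ bdry_closed
  intro z
  refine ⟨Metric.ball z 1, Metric.ball_mem_nhds z one_pos, ?_⟩
  refine (D.locFin (‖z‖ + 1)).subset ?_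
  rintro x ⟨y, hy, hyz⟩
  refine ⟨y, D.bd_sub x hy, ?_⟩
  rw [Metric.mem_closedBall, dist_zero_right]
  rw [Metric.mem_ball, dist_eq_norm] at hyz
  have h1 : ‖y‖ ≤ ‖y - z‖ + ‖z‖ := by
    have h2 := norm_add_le (y - z) z
    rwa [sub_add_cancel] at h2
  linarith

theorem R_eq (x : Fin k × (ℤ × ℤ)) : D.R x ⊆ D.I x ∪ D.Bd := by
  rintro z ⟨y, ⟨p, hp, rfl⟩, rfl⟩
  rw [P.region_union] at hp
  rcases hp with hp | hp
  · refine Or.inr ?_
    unfold Bd
    rw [mem_iUnion]
    exact ⟨x, _, ⟨p, hp, rfl⟩, rfl⟩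
  · exact Or.inl ⟨_, ⟨p, hp, rfl⟩, rfl⟩

/-- only finitely many translated tiles contain a point -/
theorem mult_finite (z : ℂ) : {x : Fin k × (ℤ × ℤ) | z ∈ D.I x}.Finite := by
  refine (D.locFin ‖z‖).subset ?_
  rintro x hx
  refine ⟨z, ?_, ?_⟩
  · obtain ⟨y, ⟨p, hp, rfl⟩, rfl⟩ := hx
    refine ⟨_, ⟨p, ?_, rfl⟩, rfl⟩
    rw [P.region_union]
    exact Or.inr hp
  · rw [Metric.mem_closedBall, dist_zero_right]

end LData

end Pool.Agent.Lib_MP_fa6e45
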