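import Pool.Agent.Lib_MP_fa6e45.RW0

/-!
MP_fa6e45_co, stage 9: raw data of certificates with all kinds of nodes (see RW0). No imports besides RW0.
-/

namespace Pool.Agent.Lib_MP_fa6e45

/-- nodes: number `i` of a table; linear programming; numerical checks with one or two free angles; linear programming
with good stars -/
inductive RJ
  | t (i : Nat)
  | l (u L fuel al be W H q p : Nat) (cvg : List (List Nat)) (ch : List RH)
  | g (D f al be ro bb : Nat) (cs : List Nat)
  | h (D f g al be ga ro si bb X : Nat)
  | s (u L fuel al be W H q p : Nat) (GS : List (List Nat)) (Gn : List Nat) (ws : List (List (List Nat)))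
      (lt rt : List (List Nat)) (nx : List (List (List Nat))) (n : Nat) (Ix : List Nat)
      (Bk row0 : List (List (List Nat))) (lv : List (List (List (List Nat)))) (r om rho : Nat)
      (cvg : List (List Nat)) (ch : List RH)

end Pool.Agent.Lib_MP_fa6e45
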