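import Pool.Agent.Lib_MP_fa6e45.RJ0
import Pool.Agent.Lib_MP_fa6e45.RW1
import Pool.Agent.Lib_MP_fa6e45.CJ2
import Pool.Agent.Lib_MP_fa6e45.HK

/-!
MP_fa6e45_co, stage 9: the nodes of a certificate from the raw data (see RJ0, RW1).
-/

namespace Pool.Agent.Lib_MP_fa6e45

/-- the node with the raw data `N`; `tab` is the table of the other nodes, `d` is not used -/
noncomputable def rjN {α : Type} (d : QJ α) (tab : List (QJ α)) (N : RJ) : QJ α :=
  RJ.rec (motive := fun _ => QJ α) (fun i => nthF d tab i)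
    (fun u L f al be W H q p cvg ch => QJ.i (QI.l u L f al be W H q p cvg (rwH ch)))
    (fun D f al be ro bb cs => QJ.i (QI.h (QH.n (QG.g D f al be ro bb cs))))
    (fun D f g al be ga ro si bb X => QJ.i (QI.h (QH.g2 D f g al be ga ro si bb X)))
    (fun u L f al be W H q p GS Gn ws lt rt nx n Ix Bk row0 lv r om rho cvg ch =>
      QJ.s u L f al be W H q p GS Gn ⟨ws, lt, rt, nx, n⟩ Ix Bk row0 lv r om rho cvg (rwH ch)) N

/-- the nodes with the raw data `l` -/
noncomputable def rjL {α : Type} (d : QJ α) (tab : List (QJ α)) : List RJ → List (QJ α) :=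
  List.rec (motive := fun _ => List (QJ α)) [] (fun N _ ih => rjN d tab N :: ih)

/-- a node which is not used -/
noncomputable def dJ : QJ PN := QJ.i (QI.l 0 0 0 0 0 0 0 0 0 [] [])

end Pool.Agent.Lib_MP_fa6e45
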