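/-!
MP_fa6e45_co, stage 9: raw data of certificates. This file and the files with raw data import nothing.
-/

namespace Pool.Agent.Lib_MP_fa6e45

/-- children: contradiction, or reference to an earlier node -/
inductive RH
  | c (j l : Nat)
  | r (idx g : Nat) (ls : List Nat)

/-- nodes: number `i` of a table; linear programming; numerical checks with one or two free angles -/
inductive RN
  | t (i : Nat)
  | l (u L fuel al be W H q : Nat) (cvg : List (List Nat)) (ch : List RH)
  | g (D f al be ro bb : Nat) (cs : List Nat)
  | h (D f g al be ga ro si bb X : Nat)

end Pool.Agent.Lib_MP_fa6e45
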