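import Pool.Agent.Lib_MP_fa6e45.R
import Pool.Agent.Lib_MP_fa6e45.V1b
import Pool.Agent.Lib_MP_fa6e45.V2

/-!
MP_fa6e45_co: a polygon with an edge-to-edge tiling which has `r` reflex corners has at most `6 + 2 r` corners: with the
weights 2 (reflex corners) and 1 (other corners) every star has weight at least 3, because two tiles can only meet at a
reflex corner; on average the weight of a tile is half of `n - 2` times the weight of a star.
-/

open Set MeasureTheory Complex
open scoped Topology

namespace Pool.Agent.Lib_MP_fa6e45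

section

variable {n : ℕ} [NeZero n] {a l : ZMod n → ℝ} {ι : Type}

theorem CombA.le_reflex (K : CombA n a l ι) (R : Finset (ZMod n)) (hR : ∀ i, i ∉ R → a i < Real.pi) :
    n ≤ 6 + 2 * R.card := by
  classical
  by_contra hn
  have hn0 : 7 + 2 * R.card ≤ n := by omega
  have hn' : (7 : ℝ) + 2 * (R.card : ℝ) ≤ (n : ℝ) := by exact_mod_cast hn0
  obtain ⟨v, hv⟩ : ∃ v : ZMod n → ℝ, ∀ i, v i = 1 + (if i ∈ R then (1 : ℝ) else 0) := ⟨_, fun _ => rfl⟩
  have hv1 : ∀ i, i ∈ R → v i = 2 := by
    intro i hi
    rw [hv, if_pos hi]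
    norm_num
  have hv2 : ∀ i, 1 ≤ v i := by
    intro i
    rw [hv]
    split_ifs <;> norm_num
  obtain ⟨c, hc⟩ := K.lp v (fun _ _ => 0) (by simp) 3 (by
    rw [Finset.sum_congr rfl fun i _ => hv i, Finset.sum_add_distrib, Finset.sum_const, Finset.card_univ,
      ZMod.card, ← Finset.sum_filter, Finset.sum_const, Finset.filter_mem_eq_inter, Finset.univ_inter]
    simp only [nsmul_eq_mul, mul_one]
    linarith)
  have h1 : ∀ k, K.toComb.cross (fun _ _ => 0) (K.nx^[k] c) = 0 := fun k => rfl
  simp only [h1, add_zero] at hc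
  have h2 : 2 ≤ K.toComb.deg c := K.toComb.two_le c
  have h4 := Finset.card_nsmul_le_sum (Finset.range (K.toComb.deg c))
    (fun k => v (K.nx^[k] c).2) 1 (fun k _ => hv2 _)
  rw [Finset.card_range, nsmul_eq_mul, mul_one] at h4
  have h5 : (K.toComb.deg c : ℝ) < 3 := lt_of_le_of_lt h4 hc
  have h6 : K.toComb.deg c < 3 := by exact_mod_cast h5
  have h7 : K.toComb.deg c = 2 := by omega
  have hs : ∑ k ∈ Finset.range (K.toComb.deg c), a ((K.nx^[k] c).2) = 2 * Real.pi := K.sum c
  rw [h7] at hs hc
  simp only [Finset.sum_range_succ, Finset.sum_range_zero, Function.iterate_succ_apply',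
    Function.iterate_zero_apply, zero_add] at hs hc
  by_cases ha : c.2 ∈ R
  · have h8 := hv1 _ ha
    have h9 := hv2 (K.nx c).2
    linarith
  · by_cases hb : (K.nx c).2 ∈ R
    · have h8 := hv1 _ hb
      have h9 := hv2 c.2
      linarith
    · have h8 := hR _ ha
      have h9 := hR _ hb
      linarith

end

variable {n : ℕ}

/-- a polygon with an edge-to-edge tiling has at most six corners more than twice the number of its reflex corners -/
theorem le_reflex (P : Polygon n) {𝒮 : Set (Set ℂ)} (h : P.IsTiling 𝒮) (he : P.EdgeToEdge 𝒮) :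
    n ≤ 6 + 2 * {i : ZMod n | Real.pi < P.angle i}.ncard := by
  classical
  have key : ∀ Q : Polygon n, Q.CCW → Q.IsTiling 𝒮 → Q.EdgeToEdge 𝒮 →
      n ≤ 6 + 2 * {i : ZMod n | Real.pi < Q.angle i}.ncard := by
    intro Q hc h he
    have : NeZero n := ⟨by have := Q.three_le; omega⟩
    obtain ⟨T⟩ := exists_til Q h he
    obtain ⟨K, -⟩ := T.combA hc
    have h1 := K.le_reflex (Finset.univ.filter fun i => Real.pi < Q.ang i) (by
      intro i hi
      rw [Finset.mem_filter] at hi
      push Not at hi
      exact lt_of_le_of_ne (hi (Finset.mem_univ i)) (K.a_ne i))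
    have h2 : {i : ZMod n | Real.pi < Q.angle i} =
        ((Finset.univ.filter fun i => Real.pi < Q.ang i : Finset (ZMod n)) : Set (ZMod n)) := by
      ext i
      simp only [Finset.coe_filter, Finset.mem_univ, true_and, mem_ofPred_eq, Polygon.angle_eq hc]
    rw [h2, Set.ncard_coe_finset]
    exact h1
  rcases P.ccw_or with hc | hc
  · exact key P hc h he
  have hT : P.rev.IsTiling 𝒮 := by
    obtain ⟨h1, h2, h3⟩ := h
    exact ⟨fun t ht => by simpa only [P.rev_region] using h1 t ht, h2, h3⟩
  have hE : P.rev.EdgeToEdge 𝒮 := by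
    intro g k hg hk i j
    rw [P.rev_region] at hg hk
    have h1 := he g k hg hk (-i) (-j - 1)
    rw [openSegment_symm] at h1
    have e1 : -j - 1 + 1 = -j := by ring
    have e2 : -(j + 1) = -j - 1 := by ring
    rw [e1] at h1
    change g (P.vertex (-i)) ∉ openSegment ℝ (k (P.vertex (-j))) (k (P.vertex (-(j + 1))))
    rw [e2]
    exact h1
  have h1 := key P.rev hc hT hE
  have h4 : {i : ZMod n | Real.pi < P.rev.angle i} = (fun i => -i) '' {i : ZMod n | Real.pi < P.angle i} := by
    ext i
    simp only [mem_ofPred_eq, mem_image, P.rev_angle]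
    constructor
    · intro h
      exact ⟨-i, h, neg_neg i⟩
    · rintro ⟨j, hj, rfl⟩
      rwa [neg_neg]
  rw [h4, ncard_image_of_injective _ neg_injective] at h1
  exact h1

/-- at most one reflex corner: at most eight corners -/
theorem le_eight_of_reflex (P : Polygon n) {𝒮 : Set (Set ℂ)} (h : P.IsTiling 𝒮) (he : P.EdgeToEdge 𝒮)
    (h1 : {i : ZMod n | Real.pi < P.angle i}.ncard ≤ 1) : n ≤ 8 := by
  have h2 := le_reflex P h he
  omega

/-- at most two complementary corners: at most eight corners -/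
theorem le_eight_of_compl (P : Polygon n) {𝒮 : Set (Set ℂ)} (h : P.IsTiling 𝒮) (he : P.EdgeToEdge 𝒮)
    (h1 : {i : ZMod n | P.Complementary i}.ncard ≤ 2) : n ≤ 8 := by
  have : NeZero n := ⟨by have := P.three_le; omega⟩
  have h2 := (main_thm P h he).1
  have h3 := Set.ncard_add_ncard_compl {i : ZMod n | P.Complementary i}
  rw [Nat.card_zmod] at h3
  have h4 : {i : ZMod n | P.Complementary i}ᶜ = {i : ZMod n | ¬ P.Complementary i} := rfl
  rw [h4] at h3
  omega

end Pool.Agent.Lib_MP_fa6e45
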