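import Pool.Agent.Lib_MP_fa6e45.RX

/-!
MP_fa6e45_co: if a polygon with an edge-to-edge tiling has a set of `r` corners which meets every pair of complementary
corners, then the polygon has at most `6 + 2 r` corners. For `r = 1`: all pairs of complementary corners have a common
corner.
-/

open Set MeasureTheory Complex
open scoped Topology

namespace Pool.Agent.Lib_MP_fa6e45

namespace Polygon

variable {n : ℕ} (P : Polygon n)

/-- The corners `i` and `j` are complementary: they are different, the two interior angles sum to `2 π`, and the two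
sides at the one corner have the same two lengths as the two sides at the other corner. -/
def ComplPair (i j : ZMod n) : Prop :=
  j ≠ i ∧ P.angle i + P.angle j = 2 * Real.pi ∧
    ((P.len (i - 1) = P.len (j - 1) ∧ P.len i = P.len j) ∨
      (P.len (i - 1) = P.len j ∧ P.len i = P.len (j - 1)))

end Polygon

section

variable {n : ℕ} [NeZero n] {a l : ZMod n → ℝ} {ι : Type}

theorem CombA.le_cover (K : CombA n a l ι) (R : Finset (ZMod n))
    (hR : ∀ i j, Compl a l i j → i ∈ R ∨ j ∈ R) : n ≤ 6 + 2 * R.card := by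
  classical
  by_contra hn
  have hn0 : 7 + 2 * R.card ≤ n := by omega
  have hn' : (7 : ℝ) + 2 * (R.card : ℝ) ≤ (n : ℝ) := by exact_mod_cast hn0
  obtain ⟨v, hv⟩ : ∃ v : ZMod n → ℝ, ∀ i, v i = 1 + (if i ∈ R then (1 : ℝ) else 0) := ⟨_, fun _ => rfl⟩
  have hv1 : ∀ i, i ∈ R → v i = 2 := by
    intro i hi
    rw [hv, if_pos hi]
    norm_num
  have hv2 : ∀ i, 1 ≤ v i := by
    intro i
    rw [hv]
    split_ifs <;> norm_num
  obtain ⟨c, hc⟩ := K.lp v (fun _ _ => 0) (by simp) 3 (by
    rw [Finset.sum_congr rfl fun i _ => hv i, Finset.sum_add_distrib, Finset.sum_const, Finset.card_univ,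
      ZMod.card, ← Finset.sum_filter, Finset.sum_const, Finset.filter_mem_eq_inter, Finset.univ_inter]
    simp only [nsmul_eq_mul, mul_one]
    linarith)
  have h1 : ∀ k, K.toComb.cross (fun _ _ => 0) (K.nx^[k] c) = 0 := fun k => rfl
  simp only [h1, add_zero] at hc
  have h2 : 2 ≤ K.toComb.deg c := K.toComb.two_le c
  have h4 := Finset.card_nsmul_le_sum (Finset.range (K.toComb.deg c))
    (fun k => v (K.nx^[k] c).2) 1 (fun k _ => hv2 _)
  rw [Finset.card_range, nsmul_eq_mul, mul_one] at h4
  have h5 : (K.toComb.deg c : ℝ) < 3 := lt_of_le_of_lt h4 hc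
  have h6 : K.toComb.deg c < 3 := by exact_mod_cast h5
  have h7 : K.toComb.deg c = 2 := by omega
  have h8 := hR _ _ (K.toComb.deg_two c h7)
  rw [h7] at hc
  simp only [Finset.sum_range_succ, Finset.sum_range_zero, Function.iterate_succ_apply',
    Function.iterate_zero_apply, zero_add] at hc
  rcases h8 with ha | hb
  · have h9 := hv1 _ ha
    have h10 := hv2 (K.nx c).2
    linarith
  · have h9 := hv1 _ hb
    have h10 := hv2 c.2
    linarith

end

variable {n : ℕ}

/-- a set of corners which meets every pair of complementary corners: a polygon with an edge-to-edge tiling has at most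
six corners more than twice the size of the set -/
theorem le_cover (P : Polygon n) {𝒮 : Set (Set ℂ)} (h : P.IsTiling 𝒮) (he : P.EdgeToEdge 𝒮) (R : Finset (ZMod n))
    (hR : ∀ i j, P.ComplPair i j → i ∈ R ∨ j ∈ R) : n ≤ 6 + 2 * R.card := by
  classical
  have key : ∀ (Q : Polygon n) (R : Finset (ZMod n)), Q.CCW → Q.IsTiling 𝒮 → Q.EdgeToEdge 𝒮 →
      (∀ i j, Q.ComplPair i j → i ∈ R ∨ j ∈ R) → n ≤ 6 + 2 * R.card := by
    intro Q R hc h he hR
    have : NeZero n := ⟨by have := Q.three_le; omega⟩
    obtain ⟨T⟩ := exists_til Q h he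
    obtain ⟨K, -⟩ := T.combA hc
    refine K.le_cover R fun i j hij => hR i j ?_
    unfold Polygon.ComplPair
    simp only [Polygon.angle_eq hc]
    exact hij
  rcases P.ccw_or with hc | hc
  · exact key P R hc h he hR
  have hT : P.rev.IsTiling 𝒮 := by
    obtain ⟨h1, h2, h3⟩ := h
    exact ⟨fun t ht => by simpa only [P.rev_region] using h1 t ht, h2, h3⟩
  have hE : P.rev.EdgeToEdge 𝒮 := by
    intro g k hg hk i j
    rw [P.rev_region] at hg hk
    have h1 := he g k hg hk (-i) (-j - 1)
    rw [openSegment_symm] at h1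
    have e1 : -j - 1 + 1 = -j := by ring
    have e2 : -(j + 1) = -j - 1 := by ring
    rw [e1] at h1
    change g (P.vertex (-i)) ∉ openSegment ℝ (k (P.vertex (-j))) (k (P.vertex (-(j + 1))))
    rw [e2]
    exact h1
  have h1 := key P.rev (R.image fun i => -i) hc hT hE (by
    intro i j hij
    have e1 : ∀ k : ZMod n, -(k - 1) - 1 = -k := fun k => by ring
    have h2 : P.ComplPair (-i) (-j) := by
      unfold Polygon.ComplPair at hij ⊢
      simp only [P.rev_angle, P.rev_len, e1] at hij
      obtain ⟨hj, h4, h5⟩ := hij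
      refine ⟨fun h => hj (neg_injective h), h4, ?_⟩
      rcases h5 with ⟨h5, h6⟩ | ⟨h5, h6⟩
      · exact Or.inl ⟨h6, h5⟩
      · exact Or.inr ⟨h6, h5⟩
    rcases hR _ _ h2 with h3 | h3
    · exact Or.inl (Finset.mem_image.2 ⟨-i, h3, neg_neg i⟩)
    · exact Or.inr (Finset.mem_image.2 ⟨-j, h3, neg_neg j⟩))
  rwa [Finset.card_image_of_injective _ neg_injective] at h1

/-- all pairs of complementary corners have a common corner: at most eight corners -/
theorem le_eight_of_pairs (P : Polygon n) {𝒮 : Set (Set ℂ)} (h : P.IsTiling 𝒮) (he : P.EdgeToEdge 𝒮) (k : ZMod n)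
    (hk : ∀ i j, P.ComplPair i j → i = k ∨ j = k) : n ≤ 8 := by
  have h2 := le_cover P h he {k} (by simpa only [Finset.mem_singleton] using hk)
  rwa [Finset.card_singleton] at h2

end Pool.Agent.Lib_MP_fa6e45
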