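import Mathlib
import Pool.Agent.Lib_PL.Stmt

/-!
MP_fa6e45_co: the definitions used by the statement of the main theorem (polygons, edge-to-edge
monohedral tilings, periodic tilings).
-/

open Set MeasureTheory Filter
open scoped Topology

namespace Pool.Agent.Lib_MP_fa6e45

/-- A polygon with `n` corners in the plane `ℂ`: the corners are `vertex i` (`i : ZMod n`), the sides
are the segments from `vertex i` to `vertex (i + 1)`; two different sides have at most a common corner
in common (`Pool.Agent.Lib_PL.SimplePolygon`), and the boundary changes direction at every corner. -/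
structure Polygon (n : ℕ) extends Pool.Agent.Lib_PL.SimplePolygon n where
  corner : ∀ i : ZMod n, ¬ Collinear ℝ {vertex (i - 1), vertex i, vertex (i + 1)}

namespace Polygon

variable {n : ℕ} (P : Polygon n)

/-- The polygon as a compact subset of the plane: its boundary (the union of the sides) together with
the bounded components of the complement of the boundary. -/
def region : Set ℂ := P.toSimplePolygon.region

/-- The length of side `i`, the side from corner `i` to corner `i + 1`. -/
noncomputable def len (i : ZMod n) : ℝ := dist (P.vertex i) (P.vertex (i + 1))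

/-- The interior angle of the polygon at corner `i` (in radians): the limit of
`2 area (P ∩ B(v, r)) / r ^ 2` for `r → 0`. -/
noncomputable def angle (i : ZMod n) : ℝ :=
  limUnder (𝓝[>] (0 : ℝ)) fun r =>
    2 * (volume (P.region ∩ Metric.ball (P.vertex i) r)).toReal / r ^ 2

/-- Corner `i` is complementary: there is another corner such that the two interior angles sum to
`2 π` and the two sides at the one corner have the same two lengths as the two sides at the other
corner. -/
def Complementary (i : ZMod n) : Prop :=
  ∃ j : ZMod n, j ≠ i ∧ P.angle i + P.angle j = 2 * Real.pi ∧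
    ((P.len (i - 1) = P.len (j - 1) ∧ P.len i = P.len j) ∨
      (P.len (i - 1) = P.len j ∧ P.len i = P.len (j - 1)))

/-- `𝒮` is a (monohedral) tiling of the plane by congruent copies of `P`. -/
structure IsTiling (𝒮 : Set (Set ℂ)) : Prop where
  congruent : ∀ t ∈ 𝒮, ∃ g : ℂ ≃ᵢ ℂ, t = g '' P.region
  cover : ⋃₀ 𝒮 = univ
  disj : ∀ s ∈ 𝒮, ∀ t ∈ 𝒮, s ≠ t → Disjoint (interior s) (interior t)

/-- The tiling `𝒮` is edge-to-edge: no corner of a tile lies in the relative interior of a side of a
tile. (Then a segment of positive length shared by two tiles is a part of a common full side.) -/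
def EdgeToEdge (𝒮 : Set (Set ℂ)) : Prop :=
  ∀ g h : ℂ ≃ᵢ ℂ, g '' P.region ∈ 𝒮 → h '' P.region ∈ 𝒮 → ∀ i j : ZMod n,
    g (P.vertex i) ∉ openSegment ℝ (h (P.vertex j)) (h (P.vertex (j + 1)))

end Polygon

/-- The family `𝒮` of sets is invariant under translations in two linearly independent directions. -/
def Periodic (𝒮 : Set (Set ℂ)) : Prop :=
  ∃ u w : ℂ, LinearIndependent ℝ ![u, w] ∧
    (∀ t : Set ℂ, t ∈ 𝒮 ↔ (fun z => z + u) '' t ∈ 𝒮) ∧
    (∀ t : Set ℂ, t ∈ 𝒮 ↔ (fun z => z + w) '' t ∈ 𝒮)

end Pool.Agent.Lib_MP_fa6e45
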