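import Pool.Agent.Lib_MP_fa6e45.Base

/-!
PIECE T2a (about 120 lines): two elementary lemmas on segments and half discs.
(`T2_collinear`: everything lies on the line through `a`, `b`; parametrise. The cross product lemmas are
in `Lib_PL` Alg.lean, `cr_eq_zero`.)
-/

open Set MeasureTheory Complex
open scoped Topology

namespace Pool.Agent.Lib_MP_fa6e45

open Pool.Agent.Lib_PL (cr InSector Poly cr_eq_zero)

theorem T2_aux {e : ℂ} (he : e ≠ 0) {x y : ℝ} {a : ℂ} {s : ℝ} :
    (a + (s : ℂ) * e ∈ openSegment ℝ (a + (x : ℂ) * e) (a + (y : ℂ) * e)) ↔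
      (∃ θ : ℝ, 0 < θ ∧ θ < 1 ∧ s = x + θ * (y - x)) := by
  rw [openSegment_eq_image']
  constructor
  · rintro ⟨θ, ⟨h0, h1⟩, h2⟩
    refine ⟨θ, h0, h1, ?_⟩
    have h3 : ((s : ℂ) - (x + θ * (y - x))) * e = 0 := by
      simp only [real_smul] at h2
      linear_combination -h2
    rcases mul_eq_zero.1 h3 with h4 | h4
    · have h5 : (((s - (x + θ * (y - x)) : ℝ)) : ℂ) = 0 := by
        push_cast
        exact h4
      have h6 := Complex.ofReal_eq_zero.1 h5
      linarith
    · exact absurd h4 he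
  · rintro ⟨θ, h0, h1, h2⟩
    refine ⟨θ, ⟨h0, h1⟩, ?_⟩
    simp only [real_smul]
    rw [h2]
    push_cast
    ring

theorem T2_mem {e : ℂ} (he : e ≠ 0) {x y : ℝ} {a : ℂ} {s : ℝ} :
    (a + (s : ℂ) * e ∈ openSegment ℝ (a + (x : ℂ) * e) (a + (y : ℂ) * e)) ↔
      ((x < s ∧ s < y) ∨ (y < s ∧ s < x) ∨ (x = y ∧ s = x)) := by
  rw [T2_aux he]
  constructor
  · rintro ⟨θ, h0, h1, h2⟩
    rcases lt_trichotomy x y with h | h | h
    · left
      have h3 : 0 < θ * (y - x) := mul_pos h0 (by linarith)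
      have h4 : 0 < (1 - θ) * (y - x) := mul_pos (by linarith) (by linarith)
      constructor
      · linarith
      · linarith
    · right; right
      refine ⟨h, ?_⟩
      rw [h2, h]
      ring
    · right; left
      have h3 : 0 < θ * (x - y) := mul_pos h0 (by linarith)
      have h4 : 0 < (1 - θ) * (x - y) := mul_pos (by linarith) (by linarith)
      constructor
      · linarith
      · linarith
  · rintro (⟨h1, h2⟩ | ⟨h1, h2⟩ | ⟨h1, h2⟩)
    · have h3 : 0 < y - x := by linarith
      refine ⟨(s - x) / (y - x), div_pos (by linarith) h3, ?_, ?_⟩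
      · rw [div_lt_one h3]; linarith
      · field_simp
        ring
    · have h3 : 0 < x - y := by linarith
      refine ⟨(x - s) / (x - y), div_pos (by linarith) h3, ?_, ?_⟩
      · rw [div_lt_one h3]; linarith
      · have h4 : (x - s) / (x - y) * (x - y) = x - s := div_mul_cancel₀ _ h3.ne'
        linarith
    · exact ⟨1 / 2, by norm_num, by norm_num, by rw [h2, h1]; ring⟩

theorem T2_collinear {a b c d z : ℂ} (hab : a ≠ b) (hcd : c ≠ d) (h0 : cr (b - a) (d - c) = 0)
    (hz1 : z ∈ openSegment ℝ a b) (hz2 : z ∈ openSegment ℝ c d) (ha : a ∉ openSegment ℝ c d)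
    (hb : b ∉ openSegment ℝ c d) (hc : c ∉ openSegment ℝ a b) (hd : d ∉ openSegment ℝ a b) :
    (a = c ∧ b = d) ∨ (a = d ∧ b = c) := by
  obtain ⟨e, he⟩ : ∃ e, e = b - a := ⟨_, rfl⟩
  have he0 : e ≠ 0 := by
    rw [he]
    exact sub_ne_zero.2 hab.symm
  rw [← he] at h0
  obtain ⟨s, hs⟩ := cr_eq_zero he0 h0
  have hs0 : s ≠ 0 := by
    rintro rfl
    apply hcd
    have : d - c = 0 := by rw [hs]; simp
    exact (sub_eq_zero.1 this).symm
  have hz1' := hz1
  rw [openSegment_eq_image'] at hz1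
  obtain ⟨p, ⟨hp0, hp1⟩, hp⟩ := hz1
  have hz2' := hz2
  rw [openSegment_eq_image'] at hz2
  obtain ⟨q, ⟨hq0, hq1⟩, hq⟩ := hz2
  simp only [real_smul] at hp hq
  rw [← he] at hp
  rw [hs] at hq
  have ea : a = a + ((0 : ℝ) : ℂ) * e := by simp
  have eb : b = a + ((1 : ℝ) : ℂ) * e := by rw [he]; simp
  have ec : c = a + ((p - q * s : ℝ) : ℂ) * e := by
    push_cast
    linear_combination hq - hp
  have ed : d = a + ((p - q * s + s : ℝ) : ℂ) * e := by
    push_cast
    linear_combination hq - hp + hs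
  have ez : z = a + ((p : ℝ) : ℂ) * e := hp.symm
  obtain ⟨γ, hγ⟩ : ∃ γ, γ = p - q * s := ⟨_, rfl⟩
  rw [← hγ] at ec ed
  have key : ∀ {x y w : ℝ} {X Y W : ℂ}, X = a + (x : ℂ) * e → Y = a + (y : ℂ) * e →
      W = a + (w : ℂ) * e → (W ∈ openSegment ℝ X Y ↔
        ((x < w ∧ w < y) ∨ (y < w ∧ w < x) ∨ (x = y ∧ w = x))) := by
    intro x y w X Y W hX hY hW
    rw [hX, hY, hW]
    exact T2_mem he0
  rw [key ec ed ea] at ha
  rw [key ec ed eb] at hb
  rw [key ea eb ec] at hc
  rw [key ea eb ed] at hd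
  rw [key ec ed ez] at hz2'
  push Not at ha hb hc hd
  have hfin : (γ = 0 ∧ γ + s = 1) ∨ (γ = 1 ∧ γ + s = 0) := by
    rcases hz2' with ⟨h1, h2⟩ | ⟨h1, h2⟩ | ⟨h1, h2⟩
    · left
      have g1 : γ ≤ 0 := by
        by_contra hcon
        have := hc.1 (by linarith)
        linarith
      have g2 : 1 ≤ γ + s := by
        by_contra hcon
        have := hd.1 (by linarith)
        linarith
      constructor
      · by_contra hcon
        have h3 : γ < 0 := lt_of_le_of_ne g1 hcon
        have := ha.1 h3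
        linarith
      · by_contra hcon
        have h3 : 1 < γ + s := lt_of_le_of_ne g2 (fun h => hcon h.symm)
        have := hb.1 (by linarith)
        linarith
    · right
      have g1 : γ + s ≤ 0 := by
        by_contra hcon
        have := hd.1 (by linarith)
        linarith
      have g2 : 1 ≤ γ := by
        by_contra hcon
        have := hc.1 (by linarith)
        linarith
      constructor
      · by_contra hcon
        have h3 : 1 < γ := lt_of_le_of_ne g2 (fun h => hcon h.symm)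
        have := hb.2.1 (by linarith)
        linarith
      · by_contra hcon
        have h3 : γ + s < 0 := lt_of_le_of_ne g1 hcon
        have := ha.2.1 h3
        linarith
    · exfalso
      apply hs0
      linarith
  rcases hfin with ⟨h1, h2⟩ | ⟨h1, h2⟩
  · left
    constructor
    · rw [ec, h1]; simp
    · rw [ed, h2, eb]
  · right
    constructor
    · rw [ed, h2]; simp
    · rw [ec, h1, eb]

theorem T2_small (w : ℂ) {ρ : ℝ} (hρ : 0 < ρ) : ∃ ε : ℝ, 0 < ε ∧ ‖(ε : ℂ) * w‖ < ρ := by
  refine ⟨ρ / (2 * (‖w‖ + 1)), by positivity, ?_⟩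
  have hw : 0 ≤ ‖w‖ := norm_nonneg w
  have hpos : 0 < ρ / (2 * (‖w‖ + 1)) := by positivity
  rw [norm_mul, Complex.norm_real, Real.norm_eq_abs, abs_of_pos hpos]
  rw [div_mul_eq_mul_div, div_lt_iff₀ (by positivity)]
  have h1 : 0 ≤ ρ * ‖w‖ := by positivity
  linarith

/-- two open half discs given by `0 < cr u d` and `0 < cr v d` are disjoint only if they are opposite -/
theorem T2_halfdisc {u v : ℂ} (hu : u ≠ 0) (hv : v ≠ 0) {ρ : ℝ} (hρ : 0 < ρ)
    (h : ∀ d : ℂ, ‖d‖ < ρ → 0 < cr u d → 0 < cr v d → False) : ∃ t : ℝ, 0 < t ∧ v = -((t : ℂ) * u) := by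
  obtain ⟨κ, hκ⟩ : ∃ κ, κ = cr u v := ⟨_, rfl⟩
  by_cases hk : κ = 0
  · rw [hk] at hκ
    obtain ⟨t, ht⟩ := cr_eq_zero hu hκ.symm
    have ht0 : t ≠ 0 := by
      rintro rfl
      apply hv
      rw [ht]
      simp
    rcases lt_or_gt_of_ne ht0 with h1 | h1
    · exact ⟨-t, by linarith, by rw [ht]; push_cast; ring⟩
    · exfalso
      obtain ⟨ε, he, hn⟩ := T2_small (Complex.I * u) hρ
      have hu2 : 0 < u.re * u.re + u.im * u.im := by
        have := Complex.normSq_pos.2 hu
        rwa [Complex.normSq_apply] at this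
      refine h _ hn ?_ ?_
      · have : cr u ((ε : ℂ) * (Complex.I * u)) = ε * (u.re * u.re + u.im * u.im) := by
          simp [cr]
          ring
        rw [this]
        positivity
      · have : cr v ((ε : ℂ) * (Complex.I * u)) = t * (ε * (u.re * u.re + u.im * u.im)) := by
          rw [ht]
          simp [cr]
          ring
        rw [this]
        positivity
  · exfalso
    obtain ⟨ε, he, hn⟩ := T2_small ((κ : ℂ) * (v - u)) hρ
    have hk2 : 0 < κ * κ := mul_self_pos.2 hk
    refine h _ hn ?_ ?_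
    · have : cr u ((ε : ℂ) * ((κ : ℂ) * (v - u))) = ε * (κ * κ) := by
        conv_rhs => rw [hκ]
        rw [hκ]
        simp [cr]
        ring
      rw [this]
      positivity
    · have : cr v ((ε : ℂ) * ((κ : ℂ) * (v - u))) = ε * (κ * κ) := by
        conv_rhs => rw [hκ]
        rw [hκ]
        simp [cr]
        ring
      rw [this]
      positivity

end Pool.Agent.Lib_MP_fa6e45
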