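import Pool.Agent.Lib_MP_fa6e45.A1
import Pool.Agent.Lib_MP_fa6e45.T1b
import Pool.Agent.Lib_MP_fa6e45.T2a

/-!
PIECE T2b: every side of a tile is a side of another tile, on the other side of it.
Let `z` be the midpoint of side `e` of the tile `t`. Near `z` the tile `t` is a half disc
(`local_side`); a point `z + ε d` on the other side is covered by a tile `s ≠ t` which contains `z`
(`near`). `z` is in the boundary of `s` (`I_disj_R`), it is not a corner of `s` (`e2e`), so it
lies in an open side `f` of `s` (`mem_C`). Near `z` the tile `s` is the half disc of the side `f`, and its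
interior is disjoint from `I t` (`disj`), so the two sides lie on the same line, opposite half planes
(`T2_halfdisc`). By `e2e` both ways and `T2_collinear` the sides are equal. The orientation rule:
interior on the left of `V e → V (e+1)` for direct tiles, on the right for reflected ones.
-/

open Set MeasureTheory Complex
open scoped Topology

namespace Pool.Agent.Lib_MP_fa6e45

open Pool.Agent.Lib_PL (cr InSector Poly cr_mul_left cr_mul_right cr_self cr_zero_right)

variable {n : ℕ} {P : Polygon n} {ι : Type}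

private theorem T2b_side_ne (T : Til P ι) (t : ι) (e : ZMod n) : T.vx (t, e) ≠ T.vx (t, e + 1) := by
  intro h
  have h1 : e = e + 1 := T.vx_inj h
  have h2 : (1 : ZMod n) = 0 := by
    have h3 : e + 1 - e = 0 := by rw [← h1]; ring
    simpa using h3
  have h3 := P.three_le
  have h4 : n = 1 := by
    have := (ZMod.one_eq_zero_iff (n := n)).1 h2
    exact this
  omega

theorem Til.exists_glued (hc : P.CCW) (T : Til P ι) (x : ι × ZMod n) : ∃ y, T.Glued x y := by
  obtain ⟨t, e⟩ := x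
  set a := T.vx (t, e) with ha
  set b := T.vx (t, e + 1) with hb
  have hab : a ≠ b := T2b_side_ne T t e
  set z : ℂ := ((1 / 2 : ℝ) : ℂ) * a + ((1 / 2 : ℝ) : ℂ) * b with hz
  have hzm : z ∈ openSegment ℝ a b := by
    refine ⟨1 / 2, 1 / 2, by norm_num, by norm_num, by norm_num, ?_⟩
    rw [hz, Complex.real_smul, Complex.real_smul]
  set u := b - a with hu
  have hu0 : u ≠ 0 := sub_ne_zero.2 hab.symm
  set σ : ℝ := if T.rf t then (-1 : ℝ) else 1 with hσ
  have hσσ : σ * σ = 1 := by rw [hσ]; split_ifs <;> norm_num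
  obtain ⟨ρ₁, hρ₁, h₁⟩ := T.local_side hc t e z hzm
  obtain ⟨ρ₂, hρ₂, h₂⟩ := T.near z
  -- a point on the other side
  have hcu : cr u (Complex.I * u) = ‖u‖ ^ 2 := by
    rw [Complex.sq_norm, Complex.normSq_apply]
    simp [cr]
  have hun : 0 < ‖u‖ := norm_pos_iff.2 hu0
  set ε : ℝ := min ρ₁ ρ₂ / (2 * ‖u‖) with hε
  have hρ : 0 < min ρ₁ ρ₂ := lt_min hρ₁ hρ₂
  have hε0 : 0 < ε := by positivity
  set d₀ : ℂ := ((-(σ * ε) : ℝ) : ℂ) * (Complex.I * u) with hd₀
  have hσn : |σ| = 1 := by rw [hσ]; split_ifs <;> norm_num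
  have hd₀n : ‖d₀‖ < min ρ₁ ρ₂ := by
    rw [hd₀, norm_mul, norm_mul, Complex.norm_real, Complex.norm_I, Real.norm_eq_abs, abs_neg, abs_mul,
      hσn, abs_of_pos hε0, hε]
    have : 1 * (min ρ₁ ρ₂ / (2 * ‖u‖)) * (1 * ‖u‖) = min ρ₁ ρ₂ / 2 := by
      field_simp
    rw [this]
    linarith
  have hw : z + d₀ ∉ T.R t := by
    rw [(h₁ d₀ (lt_of_lt_of_le hd₀n (min_le_left _ _))).2]
    show σ * cr u d₀ < 0
    rw [hd₀, cr_mul_right, hcu]
    have : σ * (-(σ * ε) * ‖u‖ ^ 2) = -(ε * ‖u‖ ^ 2) := by linear_combination (-(ε * ‖u‖ ^ 2)) * hσσ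
    rw [this]
    have : 0 < ε * ‖u‖ ^ 2 := by positivity
    linarith
  obtain ⟨s, hs⟩ := T.cover (z + d₀)
  have hs' : z + d₀ ∈ T.R s := hs
  have hst : s ≠ t := by
    rintro rfl
    exact hw hs'
  have hzs : z ∈ T.R s := by
    refine h₂ (z + d₀) ?_ s hs'
    rw [add_sub_cancel_left]
    exact lt_of_lt_of_le hd₀n (min_le_right _ _)
  have hzt : z ∈ T.R t := by
    by_contra hcon
    have h3 := (h₁ 0 (by rw [norm_zero]; exact hρ₁)).2
    rw [add_zero] at h3
    have h4 := h3.1 hcon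
    rw [cr_zero_right, mul_zero] at h4
    exact lt_irrefl _ h4
  have hzC : z ∈ T.C s := by
    rw [T.R_eq s] at hzs
    rcases hzs with h | h
    · exact h
    · exact absurd hzt (Set.disjoint_left.1 (T.I_disj_R hst) h)
  obtain ⟨f, hf⟩ : ∃ f : ZMod n, z ∈ openSegment ℝ (T.vx (s, f)) (T.vx (s, f + 1)) := by
    rcases T.mem_C hzC with ⟨i, hi⟩ | h
    · exfalso
      refine T.e2e s t i e ?_
      have h5 : (T.g s).app (P.vertex i) = z := hi.symm
      rw [h5]
      exact hzm
    · exact h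
  set c := T.vx (s, f) with hcdef
  set d := T.vx (s, f + 1) with hddef
  have hcd : c ≠ d := T2b_side_ne T s f
  set v := d - c with hv
  have hv0 : v ≠ 0 := sub_ne_zero.2 hcd.symm
  set τ : ℝ := if T.rf s then (-1 : ℝ) else 1 with hτ
  have hττ : τ * τ = 1 := by rw [hτ]; split_ifs <;> norm_num
  obtain ⟨ρ₃, hρ₃, h₃⟩ := T.local_side hc s f z hf
  have hσu : ((σ : ℝ) : ℂ) * u ≠ 0 := by
    refine mul_ne_zero ?_ hu0
    intro h
    rw [Complex.ofReal_eq_zero] at h
    rw [h] at hσσ
    norm_num at hσσ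
  have hτv : ((τ : ℝ) : ℂ) * v ≠ 0 := by
    refine mul_ne_zero ?_ hv0
    intro h
    rw [Complex.ofReal_eq_zero] at h
    rw [h] at hττ
    norm_num at hττ
  obtain ⟨q, hq, hq2⟩ := T2_halfdisc hσu hτv (lt_min hρ₁ hρ₃) (by
    intro δ hδ h6 h7
    rw [cr_mul_left] at h6 h7
    have h8 : z + δ ∈ T.I t := (h₁ δ (lt_of_lt_of_le hδ (min_le_left _ _))).1.2 h6
    have h9 : z + δ ∈ T.I s := (h₃ δ (lt_of_lt_of_le hδ (min_le_right _ _))).1.2 h7
    exact Set.disjoint_left.1 (T.disj s t hst) h9 h8)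
  -- `τ v = - q σ u`
  have hvu : v = ((-(τ * q * σ) : ℝ) : ℂ) * u := by
    have h10 : ((τ * τ : ℝ) : ℂ) = 1 := by rw [hττ]; simp
    push_cast at h10 ⊢
    linear_combination (-v) * h10 + (τ : ℂ) * hq2
  have hcr : cr (b - a) (d - c) = 0 := by
    show cr u v = 0
    rw [hvu, cr_mul_right, cr_self, mul_zero]
  have hcol := T2_collinear hab hcd hcr hzm hf (T.e2e t s e f) (T.e2e t s (e + 1) f)
    (T.e2e s t f e) (T.e2e s t (f + 1) e)
  refine ⟨(s, f), hst.symm, ?_⟩
  show if T.rf t = T.rf s then c = b ∧ d = a else c = a ∧ d = b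
  have key : ∀ r : ℝ, v = (r : ℂ) * u → r = -(τ * q * σ) := by
    intro r hr
    have h11 : ((r : ℂ) - ((-(τ * q * σ) : ℝ) : ℂ)) * u = 0 := by
      rw [sub_mul, ← hr, ← hvu, sub_self]
    rcases mul_eq_zero.1 h11 with h12 | h12
    · have := sub_eq_zero.1 h12
      exact_mod_cast this
    · exact absurd h12 hu0
  split_ifs with hrf
  · have hστ : τ = σ := by rw [hτ, hσ, hrf]
    rcases hcol with ⟨h1', h2'⟩ | ⟨h1', h2'⟩
    · exfalso
      have h13 : v = ((1 : ℝ) : ℂ) * u := by rw [hv, hu, h1', h2']; simp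
      have h14 := key 1 h13
      rw [hστ] at h14
      have : σ * q * σ = q := by linear_combination q * hσσ
      rw [this] at h14
      linarith
    · exact ⟨h2'.symm, h1'.symm⟩
  · have hστ : τ = -σ := by
      rw [hτ, hσ]
      cases h15 : T.rf t <;> cases h16 : T.rf s
      · exact absurd (h15.trans h16.symm) hrf
      · simp
      · simp
      · exact absurd (h15.trans h16.symm) hrf
    rcases hcol with ⟨h1', h2'⟩ | ⟨h1', h2'⟩
    · exact ⟨h1'.symm, h2'.symm⟩
    · exfalso
      have h13 : v = ((-1 : ℝ) : ℂ) * u := by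
        rw [hv, hu, h1', h2']; simp
      have h14 := key (-1) h13
      rw [hστ] at h14
      have : -σ * q * σ = -q := by linear_combination (-q) * hσσ
      rw [this] at h14
      linarith

end Pool.Agent.Lib_MP_fa6e45
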