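import Pool.Agent.Lib_MP_fa6e45.A1
import Pool.Agent.Lib_MP_fa6e45.T1b
import Pool.Agent.Lib_MP_fa6e45.T2a

/-!
PIECE T2c (about 80 lines): uniqueness. Two tiles glued to `x` along the same side are half discs on
the same side of it (`local_side` at the midpoint), so their interiors meet, so they are the same
tile (`disj`); then `side_inj`.
-/

open Set MeasureTheory Complex
open scoped Topology

namespace Pool.Agent.Lib_MP_fa6e45

open Pool.Agent.Lib_PL (cr InSector Poly)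

variable {n : ℕ} {P : Polygon n} {ι : Type}

private theorem T2c_half (hc : P.CCW) (T : Til P ι) {x y : ι × ZMod n} (h : T.Glued x y) :
    ∃ ρ > 0, ∀ d : ℂ, ‖d‖ < ρ → ((T.vx x + T.vx (x.1, x.2 + 1)) / 2 + d ∈ T.I y.1 ↔
      0 < (if T.rf x.1 then (1 : ℝ) else -1) * cr (T.vx (x.1, x.2 + 1) - T.vx x) d) := by
  obtain ⟨h1, h2⟩ := h
  have hmid : ∀ a b : ℂ, (a + b) / 2 ∈ openSegment ℝ a b := by
    intro a b
    refine ⟨1 / 2, 1 / 2, by norm_num, by norm_num, by norm_num, ?_⟩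
    simp only [real_smul]
    push_cast
    ring
  by_cases hr : T.rf x.1 = T.rf y.1
  · rw [if_pos hr] at h2
    obtain ⟨h3, h4⟩ := h2
    obtain ⟨ρ, hρ, h5⟩ := T.local_side hc y.1 y.2 ((T.vx x + T.vx (x.1, x.2 + 1)) / 2) (by
      rw [h3, h4, add_comm (T.vx x)]
      exact hmid _ _)
    refine ⟨ρ, hρ, fun d hd => ?_⟩
    rw [(h5 d hd).1, h3, h4, ← hr]
    have h6 : cr (T.vx (x.1, x.2) - T.vx (x.1, x.2 + 1)) d =
        -cr (T.vx (x.1, x.2 + 1) - T.vx x) d := by
      simp only [cr, sub_re, sub_im]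
      ring
    rw [h6]
    split_ifs <;> constructor <;> intro h <;> linarith
  · rw [if_neg hr] at h2
    obtain ⟨h3, h4⟩ := h2
    obtain ⟨ρ, hρ, h5⟩ := T.local_side hc y.1 y.2 ((T.vx x + T.vx (x.1, x.2 + 1)) / 2) (by
      rw [h3, h4]
      exact hmid _ _)
    refine ⟨ρ, hρ, fun d hd => ?_⟩
    rw [(h5 d hd).1, h3, h4]
    have h6 : cr (T.vx (x.1, x.2 + 1) - T.vx (x.1, x.2)) d =
        cr (T.vx (x.1, x.2 + 1) - T.vx x) d := rfl
    rw [h6]
    cases hx : T.rf x.1 <;> cases hy : T.rf y.1 <;> simp_all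

theorem Til.glued_symm (T : Til P ι) {x y : ι × ZMod n} (h : T.Glued x y) : T.Glued y x := by
  obtain ⟨h1, h2⟩ := h
  refine ⟨h1.symm, ?_⟩
  by_cases hr : T.rf x.1 = T.rf y.1
  · rw [if_pos hr] at h2
    rw [if_pos hr.symm]
    exact ⟨h2.2.symm, h2.1.symm⟩
  · rw [if_neg hr] at h2
    rw [if_neg (Ne.symm hr)]
    exact ⟨h2.1.symm, h2.2.symm⟩

theorem Til.glued_unique (hc : P.CCW) (T : Til P ι) {x y z : ι × ZMod n} (h : T.Glued x y)
    (h' : T.Glued x z) : y = z := by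
  have hD : T.vx (x.1, x.2 + 1) - T.vx x ≠ 0 := by
    intro h0
    have h1 := T.vx_inj (sub_eq_zero.1 h0 : T.vx (x.1, x.2 + 1) = T.vx (x.1, x.2))
    have h3 := P.three_le
    have : Fact (1 < n) := ⟨by omega⟩
    have h2 : (1 : ZMod n) = 0 := by
      have := congrArg (fun a => a - x.2) h1
      simp at this
    exact one_ne_zero h2
  have htu : y.1 = z.1 := by
    by_contra hne
    obtain ⟨ρ, hρ, h1⟩ := T2c_half hc T h
    obtain ⟨ρ', hρ', h1'⟩ := T2c_half hc T h'
    set D : ℂ := T.vx (x.1, x.2 + 1) - T.vx x with hDdef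
    have hDn : 0 < ‖D‖ := norm_pos_iff.2 hD
    set σ : ℝ := if T.rf x.1 then (1 : ℝ) else -1 with hσ
    have hσ2 : σ * σ = 1 := by
      rw [hσ]
      split_ifs <;> norm_num
    have hσn : ‖(σ : ℂ)‖ = 1 := by
      rw [hσ]
      split_ifs <;> simp
    let ε : ℝ := min ρ ρ' / (2 * ‖D‖)
    have hε : 0 < ε := div_pos (lt_min hρ hρ') (by positivity)
    let d : ℂ := ((σ * ε : ℝ) : ℂ) * (Complex.I * D)
    have hdn : ‖d‖ = min ρ ρ' / 2 := by
      simp only [d, norm_mul, ofReal_mul, hσn, Complex.norm_I, Complex.norm_real, Real.norm_eq_abs,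
        abs_of_pos hε, one_mul, ε]
      field_simp
    have hcr : cr D d = σ * ε * ‖D‖ ^ 2 := by
      rw [Complex.sq_norm, Complex.normSq_apply]
      simp only [cr, d, mul_re, mul_im, ofReal_re, ofReal_im, I_re, I_im]
      ring
    have hpos : 0 < σ * cr D d := by
      rw [hcr]
      have : σ * (σ * ε * ‖D‖ ^ 2) = ε * ‖D‖ ^ 2 := by
        linear_combination (ε * ‖D‖ ^ 2) * hσ2
      rw [this]
      positivity
    have hm1 : min ρ ρ' / 2 < ρ := by
      have := min_le_left ρ ρ'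
      have := lt_min hρ hρ'
      linarith
    have hm2 : min ρ ρ' / 2 < ρ' := by
      have := min_le_right ρ ρ'
      have := lt_min hρ hρ'
      linarith
    have h3 := (h1 d (by rw [hdn]; exact hm1)).2 hpos
    have h4 := (h1' d (by rw [hdn]; exact hm2)).2 hpos
    exact Set.disjoint_left.1 (T.disj y.1 z.1 hne) h3 h4
  obtain ⟨t, f⟩ := y
  obtain ⟨u, g⟩ := z
  simp only at htu
  subst htu
  have hfg : f = g := by
    have h1 := h.2
    have h1' := h'.2
    simp only at h1 h1'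
    by_cases hr : T.rf x.1 = T.rf t
    · rw [if_pos hr] at h1 h1'
      exact T.vx_inj (h1.1.trans h1'.1.symm)
    · rw [if_neg hr] at h1 h1'
      exact T.vx_inj (h1.1.trans h1'.1.symm)
  rw [hfg]

end Pool.Agent.Lib_MP_fa6e45
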