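import Pool.Agent.Lib_MP_fa6e45.T2b
import Pool.Agent.Lib_MP_fa6e45.T2c

/-!
PIECE T3a (about 200 lines): the next corner at the same point.
`step_exists`: `exists_glued` for the side `exS c` of the tile `c.1`; the corner of the other tile with
entry side `f` is `f` if it is direct and `f + 1` if it is reflected; the four orientation cases are
identities in the indices. `step_unique` (both ways) from `glued_unique`, `glued_symm`. So `nx` is a
permutation (`Equiv.ofBijective`). `uu_step`: same segment, same starting point. `step_flip`: `Glued` is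
symmetric, the roles of the two ends are exchanged.
-/

open Set MeasureTheory Complex
open scoped Topology

set_option linter.unusedSimpArgs false

namespace Pool.Agent.Lib_MP_fa6e45

open Pool.Agent.Lib_PL (cr InSector Poly)

variable {n : ℕ} {P : Polygon n} {ι : Type}

/-- `c'` is the next corner after `c` at the same point -/
def Til.Step (T : Til P ι) (c c' : ι × ZMod n) : Prop :=
  T.Glued (c.1, exS T.rf c) (c'.1, enS T.rf c') ∧ T.vx c' = T.vx c

private theorem T3a_fwd_bwd (rf : ι → Bool) (c : ι × ZMod n) : fwd rf (bwd rf c) = c := by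
  obtain ⟨t, i⟩ := c
  unfold fwd bwd
  cases h : rf t <;> simp [h]

private theorem T3a_bwd_fwd (rf : ι → Bool) (c : ι × ZMod n) : bwd rf (fwd rf c) = c := by
  obtain ⟨t, i⟩ := c
  unfold fwd bwd
  cases h : rf t <;> simp [h]

private theorem T3a_iff (T : Til P ι) (c c' : ι × ZMod n) :
    T.Glued (c.1, exS T.rf c) (c'.1, enS T.rf c') ↔
      c.1 ≠ c'.1 ∧ T.vx c' = T.vx c ∧ T.vx (fwd T.rf c') = T.vx (bwd T.rf c) := by
  obtain ⟨t, i⟩ := c
  obtain ⟨s, j⟩ := c'
  unfold Til.Glued exS enS fwd bwd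
  cases h : T.rf t <;> cases h' : T.rf s <;> simp [h, h', sub_add_cancel]
  · intro _
    exact and_comm
  · intro _
    exact and_comm

private theorem T3a_en (rf : ι → Bool) (t : ι) (e : ZMod n) :
    enS rf (t, if rf t then e + 1 else e) = e := by
  unfold enS
  cases h : rf t <;> simp [h]

private theorem T3a_ex (rf : ι → Bool) (t : ι) (e : ZMod n) :
    exS rf (t, if rf t then e else e + 1) = e := by
  unfold exS
  cases h : rf t <;> simp [h]

private theorem T3a_of_glued (T : Til P ι) (c c' : ι × ZMod n)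
    (h : T.Glued (c.1, exS T.rf c) (c'.1, enS T.rf c')) : T.Step c c' :=
  ⟨h, ((T3a_iff T c c').1 h).2.1⟩

theorem Til.step_exists (hc : P.CCW) (T : Til P ι) (c : ι × ZMod n) : ∃ c', T.Step c c' := by
  obtain ⟨y, hy⟩ := T.exists_glued hc (c.1, exS T.rf c)
  exact ⟨(y.1, if T.rf y.1 then y.2 + 1 else y.2), T3a_of_glued T c _ (by
    rw [T3a_en]
    exact hy)⟩

theorem Til.step_exists' (hc : P.CCW) (T : Til P ι) (c' : ι × ZMod n) : ∃ c, T.Step c c' := by
  obtain ⟨y, hy⟩ := T.exists_glued hc (c'.1, enS T.rf c')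
  exact ⟨(y.1, if T.rf y.1 then y.2 else y.2 + 1), T3a_of_glued T _ c' (by
    rw [T3a_ex]
    exact T.glued_symm hy)⟩

theorem Til.step_unique (hc : P.CCW) (T : Til P ι) {c c₁ c₂ : ι × ZMod n} (h₁ : T.Step c c₁)
    (h₂ : T.Step c c₂) : c₁ = c₂ := by
  have h := T.glued_unique hc h₁.1 h₂.1
  rw [Prod.mk.injEq] at h
  obtain ⟨h3, h4⟩ := h
  obtain ⟨t, i⟩ := c₁
  obtain ⟨s, j⟩ := c₂
  simp only at h3
  subst h3
  unfold enS at h4
  simp only at h4
  split_ifs at h4
  · rw [sub_left_inj] at h4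
    rw [h4]
  · rw [h4]

theorem Til.step_unique' (hc : P.CCW) (T : Til P ι) {c c₁ c₂ : ι × ZMod n} (h₁ : T.Step c₁ c)
    (h₂ : T.Step c₂ c) : c₁ = c₂ := by
  have h := T.glued_unique hc (T.glued_symm h₁.1) (T.glued_symm h₂.1)
  rw [Prod.mk.injEq] at h
  obtain ⟨h3, h4⟩ := h
  obtain ⟨t, i⟩ := c₁
  obtain ⟨s, j⟩ := c₂
  simp only at h3
  subst h3
  unfold exS at h4
  simp only at h4
  split_ifs at h4
  · rw [h4]
  · rw [sub_left_inj] at h4
    rw [h4]

theorem Til.uu_step (T : Til P ι) {c c' : ι × ZMod n} (h : T.Step c c') : T.uu c' = T.ww c := by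
  obtain ⟨-, h2, h3⟩ := (T3a_iff T c c').1 h.1
  unfold Til.uu Til.ww
  rw [h2, h3]

/-- the other end of the common side -/
theorem Til.step_flip (T : Til P ι) {c c' : ι × ZMod n} (h : T.Step c c') :
    T.Step (fwd T.rf c') (bwd T.rf c) := by
  obtain ⟨h1, h2, h3⟩ := (T3a_iff T c c').1 h.1
  refine ⟨(T3a_iff T _ _).2 ⟨fun h4 => h1 h4.symm, h3.symm, ?_⟩, h3.symm⟩
  rw [T3a_fwd_bwd, T3a_bwd_fwd, h2]

theorem Til.exists_nx (hc : P.CCW) (T : Til P ι) :
    ∃ nx : Equiv.Perm (ι × ZMod n), ∀ c, T.Step c (nx c) := by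
  choose f hf using T.step_exists hc
  have hinj : Function.Injective f := by
    intro c₁ c₂ h
    have h1 := hf c₁
    have h2 := hf c₂
    rw [h] at h1
    exact T.step_unique' hc h1 h2
  have hsurj : Function.Surjective f := by
    intro c'
    obtain ⟨c, h⟩ := T.step_exists' hc c'
    exact ⟨c, T.step_unique hc (hf c) h⟩
  exact ⟨Equiv.ofBijective f ⟨hinj, hsurj⟩, hf⟩

end Pool.Agent.Lib_MP_fa6e45
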