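import Pool.Agent.Lib_MP_fa6e45.T1c
import Pool.Agent.Lib_MP_fa6e45.T3a

/-!
PIECE T3b (about 150 lines): the orbit of a corner is the whole star.
The star of the point is finite (`star_finite`) and `nx` maps it to itself, so every `c` is periodic.
`ww (nx^k c) = uu (nx^{k+1} c)` (`uu_step`) and `ww_eq` give: `exp (I ∑ ang) ` is a positive real over a full
orbit, so it is 1 and the sum of the angles over the orbit is a positive multiple of `2 π`; it is at most
the sum over the whole star, which is `2 π` (`star_sum`, all angles are positive); hence the orbit is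
the whole star.
-/

open Set MeasureTheory Complex
open scoped Topology

namespace Pool.Agent.Lib_MP_fa6e45

open Pool.Agent.Lib_PL (cr InSector Poly)

variable {n : ℕ} {P : Polygon n} {ι : Type}

private theorem T3b_vx (T : Til P ι) (nx : Equiv.Perm (ι × ZMod n))
    (h : ∀ c, T.Step c (nx c)) (c : ι × ZMod n) (k : ℕ) : T.vx (nx^[k] c) = T.vx c := by
  induction k with
  | zero => rfl
  | succ k ih =>
    rw [Function.iterate_succ_apply', (h _).2, ih]

private theorem T3b_uu (T : Til P ι) (nx : Equiv.Perm (ι × ZMod n))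
    (h : ∀ c, T.Step c (nx c)) (c : ι × ZMod n) (k : ℕ) :
    ∃ r : ℝ, 0 < r ∧ T.uu (nx^[k] c) = T.uu c * (r : ℂ) *
      exp (((∑ j ∈ Finset.range k, P.ang ((nx^[j] c).2) : ℝ) : ℂ) * Complex.I) := by
  induction k with
  | zero => exact ⟨1, one_pos, by simp⟩
  | succ k ih =>
    obtain ⟨r, hr, hk⟩ := ih
    have hu : 0 < ‖T.uu (nx^[k] c)‖ := norm_pos_iff.2 (T.uu_ne _)
    have hw : 0 < ‖T.ww (nx^[k] c)‖ := norm_pos_iff.2 (T.ww_ne _)
    refine ⟨r * (‖T.ww (nx^[k] c)‖ / ‖T.uu (nx^[k] c)‖), mul_pos hr (div_pos hw hu), ?_⟩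
    rw [Function.iterate_succ_apply', T.uu_step (h _)]
    refine (T.ww_eq (nx^[k] c)).trans ?_
    generalize ‖T.ww (nx^[k] c)‖ / ‖T.uu (nx^[k] c)‖ = q
    rw [hk, Finset.sum_range_succ]
    have h1 : exp (((∑ j ∈ Finset.range k, P.ang ((nx^[j] c).2) + P.ang ((nx^[k] c).2) : ℝ) : ℂ) *
        Complex.I) = exp (((∑ j ∈ Finset.range k, P.ang ((nx^[j] c).2) : ℝ) : ℂ) * Complex.I) *
        exp ((P.ang ((nx^[k] c).2) : ℂ) * Complex.I) := by
      rw [← Complex.exp_add]
      congr 1
      rw [Complex.ofReal_add]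
      ring
    rw [h1, Complex.ofReal_mul]
    ring

theorem Til.nx_orbit (hc : P.CCW) (T : Til P ι) (nx : Equiv.Perm (ι × ZMod n))
    (h : ∀ c, T.Step c (nx c)) (c : ι × ZMod n) :
    0 < Function.minimalPeriod nx c ∧
    ∑ k ∈ Finset.range (Function.minimalPeriod nx c), P.ang ((nx^[k] c).2) = 2 * Real.pi ∧
    (T.star (T.vx c)).ncard = Function.minimalPeriod nx c := by
  classical
  have hfin := T.star_finite (T.vx c)
  have hmem : ∀ k : ℕ, nx^[k] c ∈ T.star (T.vx c) := fun k => T3b_vx T nx h c k
  have hpos : 0 < Function.minimalPeriod nx c := by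
    obtain ⟨m, k, hmk, he⟩ := hfin.exists_lt_map_eq_of_forall_mem (f := fun k : ℕ => nx^[k] c) hmem
    have h1 : nx^[m] (nx^[k - m] c) = nx^[m] c := by
      rw [← Function.iterate_add_apply]
      have h2 : m + (k - m) = k := by omega
      rw [h2]
      exact he.symm
    have h2 : nx^[k - m] c = c := (nx.injective.iterate m) h1
    have h3 : Function.IsPeriodicPt nx (k - m) c := h2
    exact h3.minimalPeriod_pos (by omega)
  set N : ℕ := Function.minimalPeriod nx c with hN
  set S : ℝ := ∑ k ∈ Finset.range N, P.ang ((nx^[k] c).2) with hS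
  have hSpos : 0 < S := by
    apply Finset.sum_pos
    · intro k _
      exact P.ang_pos _
    · exact ⟨0, Finset.mem_range.2 hpos⟩
  have hinj : Set.InjOn (fun k : ℕ => nx^[k] c) (Finset.range N : Set ℕ) := by
    intro a ha b hb hab
    rw [Finset.coe_range] at ha hb
    exact Function.iterate_injOn_Iio_minimalPeriod ha hb hab
  have hsum : ∑ x ∈ (Finset.range N).image (fun k : ℕ => nx^[k] c), P.ang x.2 = S :=
    Finset.sum_image hinj
  have hsub : (Finset.range N).image (fun k : ℕ => nx^[k] c) ⊆ hfin.toFinset := by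
    intro x hx
    obtain ⟨k, -, rfl⟩ := Finset.mem_image.1 hx
    exact hfin.mem_toFinset.2 (hmem k)
  have hstar := T.star_sum hc c
  have hle : S ≤ 2 * Real.pi := by
    rw [← hsum, ← hstar]
    exact Finset.sum_le_sum_of_subset_of_nonneg hsub fun x _ _ => (P.ang_pos _).le
  have hS2 : S = 2 * Real.pi := by
    obtain ⟨r, hr, hu⟩ := T3b_uu T nx h c N
    have h1 : nx^[N] c = c := Function.isPeriodicPt_minimalPeriod nx c
    rw [h1, ← hS] at hu
    have h2 : (r : ℂ) * exp ((S : ℂ) * Complex.I) = 1 := by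
      have h3 : T.uu c * ((r : ℂ) * exp ((S : ℂ) * Complex.I)) = T.uu c * 1 := by
        rw [mul_one, ← mul_assoc]
        exact hu.symm
      exact mul_left_cancel₀ (T.uu_ne c) h3
    have h3 : r = 1 := by
      have h4 := congrArg norm h2
      rw [norm_mul, Complex.norm_exp_ofReal_mul_I, Complex.norm_real, Real.norm_eq_abs,
        abs_of_pos hr, mul_one, norm_one] at h4
      exact h4
    rw [h3, Complex.ofReal_one, one_mul] at h2
    obtain ⟨m, hm⟩ := Complex.exp_eq_one_iff.1 h2
    have h5 : (S : ℂ) = ((m * (2 * Real.pi) : ℝ) : ℂ) := by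
      have h6 : (S : ℂ) * Complex.I = ((m * (2 * Real.pi) : ℝ) : ℂ) * Complex.I := by
        rw [hm]
        push_cast
        ring
      exact mul_right_cancel₀ Complex.I_ne_zero h6
    have h7 : S = m * (2 * Real.pi) := by exact_mod_cast h5
    have hpi := Real.pi_pos
    have h8 : 0 < m := by
      by_contra h9
      push Not at h9
      have h10 : (m : ℝ) ≤ 0 := by exact_mod_cast h9
      nlinarith
    have h9 : m < 2 := by
      by_contra h10
      push Not at h10
      have h11 : (2 : ℝ) ≤ m := by exact_mod_cast h10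
      nlinarith
    have h10 : m = 1 := by omega
    rw [h7, h10]
    simp
  have heq : (Finset.range N).image (fun k : ℕ => nx^[k] c) = hfin.toFinset := by
    apply Finset.Subset.antisymm hsub
    intro x hx
    by_contra hx2
    have h1 := Finset.sum_lt_sum_of_subset (f := fun x : ι × ZMod n => P.ang x.2) hsub hx hx2
      (P.ang_pos _) (fun y _ _ => (P.ang_pos _).le)
    rw [hsum, hstar, hS2] at h1
    exact lt_irrefl _ h1
  refine ⟨hpos, hS2, ?_⟩
  rw [Set.ncard_eq_toFinset_card _ hfin, ← heq, Finset.card_image_of_injOn hinj,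
    Finset.card_range]

end Pool.Agent.Lib_MP_fa6e45
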