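import Pool.Agent.Lib_MP_fa6e45.T4a
import Pool.Agent.Lib_MP_fa6e45.VDefs

/-!
PIECE V1a (about 150 lines): the averaging principle. As in T4a: let `W` be the finite set of the points in
the closed disc of radius `r` where a corner lies. `0 ≥ ∑_{z ∈ W} ∑_{c at z} f c`, and this sum contains all
corners of the tiles in `meets (r - d)` and some corners of the other tiles of `meets r` (`d = P.dm`), so
`0 ≥ δ N(r-d) - n B (N(r) - N(r-d))`. By `count_le`, `count_ge`: `N(r-d) A ≥ π (r-d)^2`, `N(r) A ≤ π (r+d)^2`: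
contradiction for large `r`.
-/

open Set MeasureTheory Complex
open scoped Topology

namespace Pool.Agent.Lib_MP_fa6e45

open Pool.Agent.Lib_PL (cr InSector Poly)

variable {n : ℕ} {P : Polygon n} {ι : Type}


private theorem V1a_vx_mem (T : Til P ι) (c : ι × ZMod n) : T.vx c ∈ T.R c.1 := by
  refine ⟨P.vertex c.2, ?_, rfl⟩
  rw [P.region_union, P.bdry_eq]
  exact Or.inl (Set.mem_iUnion.2 ⟨c.2, left_mem_segment ℝ _ _⟩)

private theorem V1a_meets (T : Til P ι) {r : ℝ} {c : ι × ZMod n} (h : ‖T.vx c‖ ≤ r) :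
    c.1 ∈ T.meets r := by
  refine ⟨T.vx c, V1a_vx_mem T c, ?_⟩
  rwa [Metric.mem_closedBall, dist_zero_right]

private theorem V1a_in (T : Til P ι) {r : ℝ} {c : ι × ZMod n} (h : c.1 ∈ T.meets (r - P.dm)) :
    ‖T.vx c‖ ≤ r := by
  obtain ⟨w, hw, hw2⟩ := h
  have h1 := T.dist_le (V1a_vx_mem T c) hw
  rw [Metric.mem_closedBall] at hw2
  have h2 := dist_triangle (T.vx c) w 0
  rw [← dist_zero_right]
  linarith

theorem Til.avg_finite [NeZero n] (T : Til P ι) (f : ι × ZMod n → ℝ) (B : ℝ)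
    (hB : ∀ c, |f c| ≤ B) (hs : ∀ c, ∑ x ∈ (T.star_finite (T.vx c)).toFinset, f x ≤ 0) (δ : ℝ)
    (hδ : 0 ≤ δ) (ht : ∀ t, δ ≤ ∑ i, f (t, i)) (r : ℝ) (hr : P.dm ≤ r) :
    δ * ((T.meets (r - P.dm)).ncard : ℝ) ≤
      (n : ℝ) * B * (((T.meets r).ncard : ℝ) - ((T.meets (r - P.dm)).ncard : ℝ)) := by
  classical
  have _ := hr
  have _ := hδ
  set A : Finset (ι × ZMod n) := (T.meets_finite r).toFinset ×ˢ Finset.univ with hA
  set C : Finset (ι × ZMod n) := A.filter (fun c => ‖T.vx c‖ ≤ r) with hC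
  set A' : Finset (ι × ZMod n) := (T.meets_finite (r - P.dm)).toFinset ×ˢ Finset.univ with hA'
  set W : Finset ℂ := C.image T.vx with hW
  have hfib : ∀ z ∈ W, (T.star_finite z).toFinset = C.filter (fun c => T.vx c = z) := by
    intro z hz
    obtain ⟨c, hcB, rfl⟩ := Finset.mem_image.1 hz
    have hcr : ‖T.vx c‖ ≤ r := (Finset.mem_filter.1 hcB).2
    ext x
    rw [Set.Finite.mem_toFinset, Finset.mem_filter]
    constructor
    · intro hx
      have hx' : T.vx x = T.vx c := hx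
      have hxr : ‖T.vx x‖ ≤ r := by rw [hx']; exact hcr
      refine ⟨Finset.mem_filter.2 ⟨?_, hxr⟩, hx'⟩
      rw [hA, Finset.mem_product]
      exact ⟨(T.meets_finite r).mem_toFinset.2 (V1a_meets T hxr), Finset.mem_univ _⟩
    · intro hx
      exact hx.2
  have hmaps : ∀ c ∈ C, T.vx c ∈ W := fun c hcB => Finset.mem_image_of_mem _ hcB
  -- the sum over all corners in the disc
  have h1 : ∑ c ∈ C, f c ≤ 0 := by
    rw [← Finset.sum_fiberwise_of_maps_to hmaps f]
    apply Finset.sum_nonpos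
    intro z hz
    obtain ⟨c, hcB, rfl⟩ := Finset.mem_image.1 hz
    rw [← hfib _ hz]
    exact hs c
  have hsub : A' ⊆ C := by
    intro c hcA
    have h4 : c.1 ∈ T.meets (r - P.dm) :=
      (T.meets_finite (r - P.dm)).mem_toFinset.1 (Finset.mem_product.1 hcA).1
    have h5 := V1a_in T h4
    refine Finset.mem_filter.2 ⟨?_, h5⟩
    rw [hA, Finset.mem_product]
    exact ⟨(T.meets_finite r).mem_toFinset.2 (V1a_meets T h5), Finset.mem_univ _⟩
  have h2 : δ * ((T.meets (r - P.dm)).ncard : ℝ) ≤ ∑ c ∈ A', f c := by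
    rw [hA', Finset.sum_product, Set.ncard_eq_toFinset_card _ (T.meets_finite (r - P.dm))]
    have h3 : ∑ _t ∈ (T.meets_finite (r - P.dm)).toFinset, δ ≤
        ∑ t ∈ (T.meets_finite (r - P.dm)).toFinset, ∑ i, f (t, i) :=
      Finset.sum_le_sum fun t _ => ht t
    rw [Finset.sum_const, nsmul_eq_mul] at h3
    linarith
  have hB0 : 0 ≤ B := by
    obtain ⟨t, -⟩ := T.cover 0
    exact (abs_nonneg _).trans (hB (t, 0))
  have h3 : -(B * ((C \ A').card : ℝ)) ≤ ∑ c ∈ C \ A', f c := by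
    have h4 : ∑ _c ∈ C \ A', (-B) ≤ ∑ c ∈ C \ A', f c :=
      Finset.sum_le_sum fun c _ => (abs_le.1 (hB c)).1
    rw [Finset.sum_const, nsmul_eq_mul] at h4
    linarith
  have h4 : ∑ c ∈ C \ A', f c + ∑ c ∈ A', f c = ∑ c ∈ C, f c := Finset.sum_sdiff hsub
  have h5 : (((C \ A').card : ℕ) : ℝ) ≤
      (n : ℝ) * (((T.meets r).ncard : ℝ) - ((T.meets (r - P.dm)).ncard : ℝ)) := by
    have h6 : (C \ A').card ≤ (A \ A').card :=
      Finset.card_le_card (Finset.sdiff_subset_sdiff (Finset.filter_subset _ _) le_rfl)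
    have h7 : (A \ A').card + A'.card = A.card :=
      Finset.card_sdiff_add_card_eq_card (hsub.trans (Finset.filter_subset _ _))
    have h8 : A.card = (T.meets r).ncard * n := by
      rw [hA, Finset.card_product, Finset.card_univ, ZMod.card,
        Set.ncard_eq_toFinset_card _ (T.meets_finite r)]
    have h9 : A'.card = (T.meets (r - P.dm)).ncard * n := by
      rw [hA', Finset.card_product, Finset.card_univ, ZMod.card,
        Set.ncard_eq_toFinset_card _ (T.meets_finite (r - P.dm))]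
    rw [h8, h9] at h7
    have h6' : (((C \ A').card : ℕ) : ℝ) ≤ (((A \ A').card : ℕ) : ℝ) := by exact_mod_cast h6
    have h7' : (((A \ A').card : ℕ) : ℝ) + ((T.meets (r - P.dm)).ncard : ℝ) * n =
        ((T.meets r).ncard : ℝ) * n := by exact_mod_cast h7
    linarith
  have h6 : B * (((C \ A').card : ℕ) : ℝ) ≤
      B * ((n : ℝ) * (((T.meets r).ncard : ℝ) - ((T.meets (r - P.dm)).ncard : ℝ))) :=
    mul_le_mul_of_nonneg_left h5 hB0
  calc δ * ((T.meets (r - P.dm)).ncard : ℝ)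
      ≤ B * ((n : ℝ) * (((T.meets r).ncard : ℝ) - ((T.meets (r - P.dm)).ncard : ℝ))) := by linarith
    _ = _ := by ring

theorem Til.avg [NeZero n] (T : Til P ι) (f : ι × ZMod n → ℝ) (B : ℝ)
    (hB : ∀ c, |f c| ≤ B) (hs : ∀ c, ∑ x ∈ (T.star_finite (T.vx c)).toFinset, f x ≤ 0) (δ : ℝ)
    (hδ : 0 < δ) (ht : ∀ t, δ ≤ ∑ i, f (t, i)) : False := by
  have hA := P.volume_pos
  have hd : 0 ≤ P.dm := Metric.diam_nonneg
  have hπ := Real.pi_pos
  have hB0 : 0 ≤ B := by
    obtain ⟨t, -⟩ := T.cover 0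
    exact (abs_nonneg _).trans (hB (t, 0))
  have hnB : 0 ≤ (n : ℝ) * B := by positivity
  have key : ∀ r : ℝ, P.dm ≤ r → δ * (r - P.dm) ^ 2 ≤ (n : ℝ) * B * (4 * r * P.dm) := by
    intro r hr
    have h1 := T.avg_finite f B hB hs δ hδ.le ht r hr
    have h2 := T.count_ge (r := r - P.dm) (by linarith)
    have h3 := T.count_le (r := r) (by linarith)
    have h4 : Real.pi * (δ * (r - P.dm) ^ 2) ≤
        Real.pi * ((n : ℝ) * B * (4 * r * P.dm)) := by
      calc Real.pi * (δ * (r - P.dm) ^ 2) = δ * (Real.pi * (r - P.dm) ^ 2) := by ring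
        _ ≤ δ * (((T.meets (r - P.dm)).ncard : ℝ) * (volume P.region).toReal) :=
            mul_le_mul_of_nonneg_left h2 hδ.le
        _ = (δ * ((T.meets (r - P.dm)).ncard : ℝ)) * (volume P.region).toReal := by ring
        _ ≤ ((n : ℝ) * B * (((T.meets r).ncard : ℝ) - ((T.meets (r - P.dm)).ncard : ℝ))) *
              (volume P.region).toReal := mul_le_mul_of_nonneg_right h1 hA.le
        _ = (n : ℝ) * B * (((T.meets r).ncard : ℝ) * (volume P.region).toReal -
              ((T.meets (r - P.dm)).ncard : ℝ) * (volume P.region).toReal) := by ring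
        _ ≤ (n : ℝ) * B * (Real.pi * (r + P.dm) ^ 2 - Real.pi * (r - P.dm) ^ 2) :=
            mul_le_mul_of_nonneg_left (by linarith) hnB
        _ = Real.pi * ((n : ℝ) * B * (4 * r * P.dm)) := by ring
    exact le_of_mul_le_mul_left h4 hπ
  set M : ℝ := (n : ℝ) * B * (4 * P.dm) with hM
  have hM0 : 0 ≤ M := by positivity
  set s : ℝ := P.dm + 2 * M / δ + 1 with hs'
  have hq : 0 ≤ 2 * M / δ := by positivity
  have hs1 : 0 < s := by linarith
  have hsd : P.dm ≤ s := by linarith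
  have h1 := key (P.dm + s) (by linarith)
  have h2 : (P.dm + s - P.dm) = s := by ring
  rw [h2] at h1
  have h3 : (n : ℝ) * B * (4 * (P.dm + s) * P.dm) = M * (P.dm + s) := by
    rw [hM]
    ring
  rw [h3] at h1
  have h4 : M * (P.dm + s) ≤ M * (2 * s) := mul_le_mul_of_nonneg_left (by linarith) hM0
  have h5 : 2 * M < δ * s := by
    have h6 : δ * (2 * M / δ) = 2 * M := by field_simp
    have h7 : δ * s = δ * P.dm + δ * (2 * M / δ) + δ := by
      rw [hs']
      ring
    have h8 : 0 ≤ δ * P.dm := by positivity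
    rw [h7, h6]
    linarith
  have h6 : 2 * M * s < δ * s * s := mul_lt_mul_of_pos_right h5 hs1
  nlinarith

end Pool.Agent.Lib_MP_fa6e45
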