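import Pool.Agent.Lib_MP_fa6e45.A1b
import Pool.Agent.Lib_MP_fa6e45.VDefs

/-!
PIECE V3 (about 150 lines): relabel the corners `i ↦ i + k` (rotation of the labels): same region, same
interior, still counterclockwise (the sum over one period of a periodic function), tilings are
transported.
-/

open Set MeasureTheory Complex
open scoped Topology

namespace Pool.Agent.Lib_MP_fa6e45

open Pool.Agent.Lib_PL (cr InSector Poly)

variable {n : ℕ} {ι : Type}

/-- the polygon with the corners relabelled: `vertex i` becomes `vertex (i + k)` -/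
def Polygon.shift (P : Polygon n) (k : ZMod n) : Polygon n where
  vertex := fun i => P.vertex (i + k)
  three_le := P.three_le
  injective := fun i j h => add_left_injective k (P.injective h)
  simple := by
    intro i j hij
    have h := P.simple (i + k) (j + k) (fun h => hij (add_left_injective k h))
    rw [add_right_comm i k 1, add_right_comm j k 1] at h
    exact h
  corner := by
    intro i
    have h := P.corner (i + k)
    rw [add_right_comm i k 1, show i + k - 1 = i - 1 + k by ring] at h
    exact h

private theorem V3_bdry (P : Polygon n) (k : ZMod n) :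
    (P.shift k).toSimplePolygon.boundary = P.toSimplePolygon.boundary := by
  ext z
  unfold Pool.Agent.Lib_PL.SimplePolygon.boundary
  rw [mem_iUnion, mem_iUnion]
  constructor
  · rintro ⟨i, hi⟩
    refine ⟨i + k, ?_⟩
    rw [add_right_comm i k 1]
    exact hi
  · rintro ⟨i, hi⟩
    refine ⟨i - k, ?_⟩
    show z ∈ segment ℝ (P.vertex (i - k + k)) (P.vertex (i - k + 1 + k))
    rw [show i - k + 1 + k = i + 1 by ring, sub_add_cancel]
    exact hi

theorem Polygon.shift_region (P : Polygon n) (k : ZMod n) : (P.shift k).region = P.region := by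
  unfold Polygon.region Pool.Agent.Lib_PL.SimplePolygon.region
    Pool.Agent.Lib_PL.SimplePolygon.inner
  rw [V3_bdry]

theorem Polygon.shift_inner (P : Polygon n) (k : ZMod n) : (P.shift k).inner = P.inner := by
  rw [← (P.shift k).interior_region, ← P.interior_region, P.shift_region]

private theorem V3_sum [NeZero n] (F : ZMod n → ℝ) :
    ∑ i ∈ Finset.range n, F (i : ZMod n) = ∑ j : ZMod n, F j := by
  refine Finset.sum_nbij (fun i => (i : ZMod n)) (fun _ _ => Finset.mem_univ _) ?_ ?_
    (fun _ _ => rfl)
  · intro a ha b hb hab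
    rw [Finset.coe_range] at ha hb
    have h := (ZMod.natCast_eq_natCast_iff' a b n).1 hab
    rwa [Nat.mod_eq_of_lt ha, Nat.mod_eq_of_lt hb] at h
  · intro j _
    exact ⟨j.val, by rw [Finset.coe_range]; exact ZMod.val_lt j, ZMod.natCast_zmod_val j⟩

private theorem V3_wind (P : Polygon n) (z : ℂ) : P.toPoly.wind z =
    (∑ i ∈ Finset.range n, Complex.arg ((P.vertex ((i : ZMod n) + 1) - z) /
      (P.vertex (i : ZMod n) - z))) / (2 * Real.pi) := by
  unfold Poly.wind
  congr 1
  refine Finset.sum_congr rfl fun i _ => ?_
  have e1 : P.toPoly.V ((i : ℤ) + 1) = P.vertex ((i : ZMod n) + 1) := by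
    show P.vertex (((i : ℤ) + 1 : ℤ) : ZMod n) = _
    push_cast
    rfl
  have e2 : P.toPoly.V (i : ℤ) = P.vertex (i : ZMod n) := by
    show P.vertex ((i : ℤ) : ZMod n) = _
    push_cast
    rfl
  rw [e1, e2]

theorem Polygon.shift_ccw {P : Polygon n} (hc : P.CCW) (k : ZMod n) : (P.shift k).CCW := by
  have : NeZero n := ⟨by have := P.three_le; omega⟩
  intro z hz
  have hz' : z ∈ P.inner := by
    rw [← P.shift_inner k]
    exact hz
  rw [← hc z hz', V3_wind, V3_wind]
  congr 1
  rw [V3_sum (fun j => Complex.arg (((P.shift k).vertex (j + 1) - z) /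
    ((P.shift k).vertex j - z))), V3_sum (fun j => Complex.arg ((P.vertex (j + 1) - z) /
    (P.vertex j - z))), ← Equiv.sum_comp (Equiv.addRight k)
      (fun j => Complex.arg ((P.vertex (j + 1) - z) / (P.vertex j - z)))]
  refine Finset.sum_congr rfl fun j _ => ?_
  show Complex.arg ((P.vertex (j + 1 + k) - z) / (P.vertex (j + k) - z)) =
    Complex.arg ((P.vertex (j + k + 1) - z) / (P.vertex (j + k) - z))
  rw [add_right_comm]

theorem Polygon.shift_len (P : Polygon n) (k i : ZMod n) : (P.shift k).len i = P.len (i + k) := by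
  show dist (P.vertex (i + k)) (P.vertex (i + 1 + k)) =
    dist (P.vertex (i + k)) (P.vertex (i + k + 1))
  rw [add_right_comm]

theorem Polygon.shift_ang (P : Polygon n) (k i : ZMod n) : (P.shift k).ang i = P.ang (i + k) := by
  have e1 : (P.shift k).vertex (i - 1) = P.vertex (i + k - 1) := by
    show P.vertex (i - 1 + k) = _
    congr 1
    ring
  have e2 : (P.shift k).vertex (i + 1) = P.vertex (i + k + 1) := by
    show P.vertex (i + 1 + k) = _
    congr 1
    ring
  have e3 : (P.shift k).vertex i = P.vertex (i + k) := rfl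
  unfold Polygon.ang
  rw [e1, e2, e3]

theorem Polygon.shift_periodic {P : Polygon n} {k : ZMod n} (h : HasPeriodic (P.shift k)) :
    HasPeriodic P := by
  obtain ⟨𝒯, h1, h2⟩ := h
  refine ⟨𝒯, ⟨?_, h1.cover, h1.disj⟩, h2⟩
  intro t ht
  rw [← P.shift_region k]
  exact h1.congruent t ht

/-- the tiling, for the relabelled polygon -/
def Til.shift {P : Polygon n} (T : Til P ι) (k : ZMod n) : Til (P.shift k) ι where
  g := T.g
  cover := by
    intro z
    rw [P.shift_region k]
    exact T.cover z
  disj := by
    intro s t hst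
    rw [P.shift_inner k]
    exact T.disj s t hst
  e2e := by
    intro s t i j
    have h := T.e2e s t (i + k) (j + k)
    rw [add_right_comm j k 1] at h
    exact h

theorem Til.shift_vx {P : Polygon n} (T : Til P ι) (k : ZMod n) (c : ι × ZMod n) :
    (T.shift k).vx c = T.vx (c.1, c.2 + k) := by
  rfl

end Pool.Agent.Lib_MP_fa6e45
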