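import Pool.Agent.Lib_MP_fa6e45.A1
import Pool.Agent.Lib_MP_fa6e45.A3b
import Pool.Agent.Lib_MP_fa6e45.VDefs

/-!
PIECE V4a (about 120 lines): two elementary geometric lemmas. `ends_perp`: `e`: the isosceles triangle
`V0 V1 V2` (apex `V1`) has base angle `(π - ang 1)/2`, `ang 0 = π - ang 1 / 2`, so `V2 - V0` is orthogonal to the
side from `V4` to `V0`; likewise `V2 - V4` is orthogonal to it; so `V4 - V0 = (V2 - V0) - (V2 - V4)` is orthogonal
to itself. Use `side_turn`. `sym_hex`: the hexagon is symmetric: put `D = V0 - V5` direction (unit `d`),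
then side 2 is antiparallel to side 5 (turning `(π - ang 0) + (π - ang 1) + (π - ang 2) = π`), and by the angle
conditions the roofs `V0 V1 V2` and `V3 V4 V5` have bases orthogonal to `d`; closing `∑ sides = 0` and
projecting to the direction `d` gives `|side 5| = |side 2|` (the roof contributions to this direction
cancel: `V2 - V0` and `V5 - V3` are orthogonal to `d`).
-/

open Set MeasureTheory Complex
open scoped Topology

namespace Pool.Agent.Lib_MP_fa6e45

open Pool.Agent.Lib_PL (cr InSector Poly)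

private theorem V4a_fwd {n : ℕ} (P : Polygon n) (j i k : ZMod n) (hj : i - 1 = j) (hk : i + 1 = k)
    (c : ℂ) (θ : ℝ)
    (h : P.vertex i - P.vertex j = c * (P.len j : ℂ) * exp ((θ : ℂ) * Complex.I)) :
    P.vertex k - P.vertex i =
      c * (P.len i : ℂ) * exp (((θ + (Real.pi - P.ang i) : ℝ) : ℂ) * Complex.I) := by
  subst hj
  subst hk
  have h0 : (P.len (i - 1) : ℂ) ≠ 0 := by
    exact_mod_cast (P.len_pos (i - 1)).ne'
  have h1 : exp (((θ + (Real.pi - P.ang i) : ℝ) : ℂ) * Complex.I) =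
      exp ((θ : ℂ) * Complex.I) * exp (((Real.pi - P.ang i : ℝ) : ℂ) * Complex.I) := by
    rw [← Complex.exp_add, Complex.ofReal_add, add_mul]
  rw [P.side_turn i, h, h1, Complex.ofReal_div]
  field_simp

private theorem V4a_bwd {n : ℕ} (P : Polygon n) (j i k : ZMod n) (hj : i - 1 = j) (hk : i + 1 = k)
    (c : ℂ) (θ : ℝ)
    (h : P.vertex k - P.vertex i = c * (P.len i : ℂ) * exp ((θ : ℂ) * Complex.I)) :
    P.vertex i - P.vertex j =
      c * (P.len j : ℂ) * exp (((θ - (Real.pi - P.ang i) : ℝ) : ℂ) * Complex.I) := by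
  subst hj
  subst hk
  have h0 : (P.len (i - 1) : ℂ) ≠ 0 := by
    exact_mod_cast (P.len_pos (i - 1)).ne'
  have h0' : (P.len i : ℂ) ≠ 0 := by
    exact_mod_cast (P.len_pos i).ne'
  have h1 : exp (((Real.pi - P.ang i : ℝ) : ℂ) * Complex.I) *
      exp (((θ - (Real.pi - P.ang i) : ℝ) : ℂ) * Complex.I) = exp ((θ : ℂ) * Complex.I) := by
    rw [← Complex.exp_add, ← add_mul, ← Complex.ofReal_add]
    congr 3
    ring
  have h2 : exp (((Real.pi - P.ang i : ℝ) : ℂ) * Complex.I) ≠ 0 := Complex.exp_ne_zero _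
  rw [P.side_turn i, ← h1, Complex.ofReal_div] at h
  have h3 : ((P.len i : ℂ) * exp (((Real.pi - P.ang i : ℝ) : ℂ) * Complex.I)) *
      (P.vertex i - P.vertex (i - 1)) =
      ((P.len i : ℂ) * exp (((Real.pi - P.ang i : ℝ) : ℂ) * Complex.I)) *
      (c * (P.len (i - 1) : ℂ) *
        exp (((θ - (Real.pi - P.ang i) : ℝ) : ℂ) * Complex.I)) := by
    have h4 : (P.vertex i - P.vertex (i - 1)) * ((P.len i : ℂ) / (P.len (i - 1) : ℂ)) *
        exp (((Real.pi - P.ang i : ℝ) : ℂ) * Complex.I) * (P.len (i - 1) : ℂ) =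
        (P.len i : ℂ) * exp (((Real.pi - P.ang i : ℝ) : ℂ) * Complex.I) *
          (P.vertex i - P.vertex (i - 1)) := by
      field_simp
    rw [← h4, h]
    ring
  exact mul_left_cancel₀ (mul_ne_zero h0' h2) h3

private theorem V4a_start {n : ℕ} (P : Polygon n) (j i : ZMod n) (hk : j + 1 = i) :
    ∃ c : ℂ, c ≠ 0 ∧
      P.vertex i - P.vertex j = c * (P.len j : ℂ) * exp (((0 : ℝ) : ℂ) * Complex.I) := by
  subst hk
  have h0 : (P.len j : ℂ) ≠ 0 := by
    exact_mod_cast (P.len_pos j).ne'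
  have h1 : P.vertex (j + 1) - P.vertex j ≠ 0 := by
    intro h
    have h2 := P.len_pos j
    rw [Polygon.len, dist_comm, dist_eq_norm, h, norm_zero] at h2
    exact lt_irrefl _ h2
  refine ⟨(P.vertex (j + 1) - P.vertex j) / (P.len j : ℂ), div_ne_zero h1 h0, ?_⟩
  rw [Complex.ofReal_zero, zero_mul, Complex.exp_zero, mul_one, div_mul_cancel₀ _ h0]

private theorem V4a_re (l θ : ℝ) : ((l : ℂ) * exp ((θ : ℂ) * Complex.I)).re = l * Real.cos θ := by
  rw [Complex.re_ofReal_mul, Complex.exp_ofReal_mul_I_re]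

theorem ends_perp (P : Polygon 5) (h01 : P.len 0 = P.len 1) (h23 : P.len 2 = P.len 3)
    (he : P.ang 1 + 2 * P.ang 0 = 2 * Real.pi) (hf : P.ang 3 + 2 * P.ang 4 = 2 * Real.pi) :
    False := by
  obtain ⟨c, hc, k4⟩ := V4a_start P 4 0 (by decide)
  have k0 := V4a_fwd P 4 0 1 (by decide) (by decide) c _ k4
  have k1 := V4a_fwd P 0 1 2 (by decide) (by decide) c _ k0
  have k3 := V4a_bwd P 3 4 0 (by decide) (by decide) c _ k4
  have k2 := V4a_bwd P 2 3 4 (by decide) (by decide) c _ k3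
  have hs : c * ((P.len 4 : ℂ) * exp (((0 : ℝ) : ℂ) * Complex.I) +
      (P.len 0 : ℂ) * exp (((0 + (Real.pi - P.ang 0) : ℝ) : ℂ) * Complex.I) +
      (P.len 1 : ℂ) * exp (((0 + (Real.pi - P.ang 0) + (Real.pi - P.ang 1) : ℝ) : ℂ) * Complex.I) +
      (P.len 3 : ℂ) * exp (((0 - (Real.pi - P.ang 4) : ℝ) : ℂ) * Complex.I) +
      (P.len 2 : ℂ) *
        exp (((0 - (Real.pi - P.ang 4) - (Real.pi - P.ang 3) : ℝ) : ℂ) * Complex.I)) = 0 := by
    linear_combination -k4 - k0 - k1 - k3 - k2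
  have hs2 := (mul_eq_zero.mp hs).resolve_left hc
  have hs3 := congrArg Complex.re hs2
  simp only [Complex.add_re, V4a_re, Complex.zero_re] at hs3
  have e1 : Real.cos (0 + (Real.pi - P.ang 0)) = -Real.cos (P.ang 0) := by
    rw [zero_add, Real.cos_pi_sub]
  have e2 : Real.cos (0 + (Real.pi - P.ang 0) + (Real.pi - P.ang 1)) = Real.cos (P.ang 0) := by
    congr 1
    linarith
  have e3 : Real.cos (0 - (Real.pi - P.ang 4)) = -Real.cos (P.ang 4) := by
    rw [zero_sub, Real.cos_neg, Real.cos_pi_sub]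
  have e4 : Real.cos (0 - (Real.pi - P.ang 4) - (Real.pi - P.ang 3)) = Real.cos (P.ang 4) := by
    rw [← Real.cos_neg (P.ang 4)]
    congr 1
    linarith
  rw [e1, e2, e3, e4, h01, h23, Real.cos_zero] at hs3
  have := P.len_pos 4
  linarith

theorem sym_hex (P : Polygon 6) (h01 : P.len 0 = P.len 1) (h34 : P.len 3 = P.len 4)
    (h1 : P.ang 1 + 2 * P.ang 0 = 2 * Real.pi) (h2 : P.ang 2 = P.ang 0)
    (h3 : P.ang 4 + 2 * P.ang 3 = 2 * Real.pi) (h4 : P.ang 5 = P.ang 3) : P.len 2 = P.len 5 := by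
  obtain ⟨c, hc, k5⟩ := V4a_start P 5 0 (by decide)
  have k0 := V4a_fwd P 5 0 1 (by decide) (by decide) c _ k5
  have k1 := V4a_fwd P 0 1 2 (by decide) (by decide) c _ k0
  have k2 := V4a_fwd P 1 2 3 (by decide) (by decide) c _ k1
  have k4 := V4a_bwd P 4 5 0 (by decide) (by decide) c _ k5
  have k3 := V4a_bwd P 3 4 5 (by decide) (by decide) c _ k4
  have hs : c * ((P.len 5 : ℂ) * exp (((0 : ℝ) : ℂ) * Complex.I) +
      (P.len 0 : ℂ) * exp (((0 + (Real.pi - P.ang 0) : ℝ) : ℂ) * Complex.I) +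
      (P.len 1 : ℂ) * exp (((0 + (Real.pi - P.ang 0) + (Real.pi - P.ang 1) : ℝ) : ℂ) * Complex.I) +
      (P.len 2 : ℂ) * exp (((0 + (Real.pi - P.ang 0) + (Real.pi - P.ang 1) +
        (Real.pi - P.ang 2) : ℝ) : ℂ) * Complex.I) +
      (P.len 4 : ℂ) * exp (((0 - (Real.pi - P.ang 5) : ℝ) : ℂ) * Complex.I) +
      (P.len 3 : ℂ) *
        exp (((0 - (Real.pi - P.ang 5) - (Real.pi - P.ang 4) : ℝ) : ℂ) * Complex.I)) = 0 := by
    linear_combination -k5 - k0 - k1 - k2 - k4 - k3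
  have hs2 := (mul_eq_zero.mp hs).resolve_left hc
  have hs3 := congrArg Complex.re hs2
  simp only [Complex.add_re, V4a_re, Complex.zero_re] at hs3
  have e1 : Real.cos (0 + (Real.pi - P.ang 0)) = -Real.cos (P.ang 0) := by
    rw [zero_add, Real.cos_pi_sub]
  have e2 : Real.cos (0 + (Real.pi - P.ang 0) + (Real.pi - P.ang 1)) = Real.cos (P.ang 0) := by
    congr 1
    linarith
  have e5 : Real.cos (0 + (Real.pi - P.ang 0) + (Real.pi - P.ang 1) + (Real.pi - P.ang 2)) =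
      -1 := by
    rw [← Real.cos_pi]
    congr 1
    linarith
  have e3 : Real.cos (0 - (Real.pi - P.ang 5)) = -Real.cos (P.ang 3) := by
    rw [zero_sub, Real.cos_neg, Real.cos_pi_sub, h4]
  have e4 : Real.cos (0 - (Real.pi - P.ang 5) - (Real.pi - P.ang 4)) = Real.cos (P.ang 3) := by
    rw [← Real.cos_neg (P.ang 3)]
    congr 1
    linarith
  rw [e1, e2, e3, e4, e5, h01, h34, Real.cos_zero] at hs3
  linarith

end Pool.Agent.Lib_MP_fa6e45
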