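import Pool.Agent.Lib_MP_fa6e45.A1
import Pool.Agent.Lib_MP_fa6e45.A3b
import Pool.Agent.Lib_MP_fa6e45.VDefs

/-!
PIECE V4b (about 150 lines): opposite sides of equal length and `ang 1 + ang 3 + ang 5 = 2 π`: then they are
parallel. Let `τ j` (`j = 0, 1, 2`) be the direct motion `z ↦ ρ j z + t j` which maps side `j + 3` reversed to side
`j`: `τ0 V3 = V1, τ0 V4 = V0, τ1 V4 = V2, τ1 V5 = V1, τ2 V5 = V3, τ2 V0 = V2`. By the angle condition
`ρ0 ρ2 = ρ1` (directions by `side_turn`), so `τ0 τ2 = τ1` (they agree at `V5`) and `τ2 τ0 = τ1` (they agree at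
`V4`). So `τ0`, `τ2` commute: `t0 (1 - ρ2) = t2 (1 - ρ0)`. If `ρ0 = ρ2 = 1` then also `ρ1 = 1`: all are
translations, this is the claim. Otherwise all have a common fixed point `c`, and then
`cr (V0 - c) (V1 - c) = cr (V4 - c) (V3 - c)` etc.: the shoelace sum is 0, contradiction to
`area_eq`, `volume_pos` (the sum is positive for a counterclockwise polygon; it does not depend on the
origin).
-/

open Set MeasureTheory Complex
open scoped Topology

namespace Pool.Agent.Lib_MP_fa6e45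

open Pool.Agent.Lib_PL (cr InSector Poly)

/-- rotations preserve the cross product -/
private theorem V4b_cr {ρ : ℂ} (h : ‖ρ‖ = 1) (u v : ℂ) : cr (ρ * u) (ρ * v) = cr u v := by
  have h1 : ρ.re * ρ.re + ρ.im * ρ.im = 1 := by
    have h2 := Complex.sq_norm ρ
    rw [h, Complex.normSq_apply] at h2
    linarith
  unfold cr
  simp only [mul_re, mul_im]
  linear_combination (u.re * v.im - u.im * v.re) * h1

/-- one pair of opposite sides contributes 0 to the shoelace sum about `c` -/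
private theorem V4b_pair {ρ c p q r s : ℂ} (h : ‖ρ‖ = 1) (h1 : q - c = ρ * (r - c))
    (h2 : p - c = ρ * (s - c)) : cr (p - c) (q - c) + cr (r - c) (s - c) = 0 := by
  rw [h1, h2, V4b_cr h, Pool.Agent.Lib_PL.cr_swap (s - c) (r - c)]
  ring

/-- the common fixed point -/
private theorem V4b_fix {V0 V1 V2 V3 V4 V5 ρ0 ρ1 ρ2 : ℂ} (h0 : V0 - V1 = ρ0 * (V4 - V3))
    (h1 : V1 - V2 = ρ1 * (V5 - V4)) (h2 : V2 - V3 = ρ2 * (V0 - V5)) (hρ : ρ1 = ρ0 * ρ2)
    (hne : ρ0 ≠ 1) :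
    ∃ c, V1 - c = ρ0 * (V3 - c) ∧ V0 - c = ρ0 * (V4 - c) ∧ V2 - c = ρ1 * (V4 - c) ∧
      V1 - c = ρ1 * (V5 - c) ∧ V3 - c = ρ2 * (V5 - c) ∧ V2 - c = ρ2 * (V0 - c) := by
  have hd : (1 : ℂ) - ρ0 ≠ 0 := fun h => hne (sub_eq_zero.1 h).symm
  obtain ⟨c, hc⟩ : ∃ c : ℂ, c * (1 - ρ0) = V1 - ρ0 * V3 :=
    ⟨(V1 - ρ0 * V3) / (1 - ρ0), div_mul_cancel₀ _ hd⟩
  have a1 : V1 - c = ρ0 * (V3 - c) := by linear_combination -hc
  have a2 : V0 - c = ρ0 * (V4 - c) := by linear_combination h0 + a1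
  have a3 : V3 - c = ρ2 * (V5 - c) := by
    have e : (V3 + ρ2 * (c - V5) - c) * (1 - ρ0) = 0 := by
      subst hρ
      linear_combination (ρ2 - 1) * hc - h1 - h2 - ρ2 * h0
    have e2 := (mul_eq_zero.1 e).resolve_right hd
    linear_combination e2
  have a4 : V2 - c = ρ2 * (V0 - c) := by linear_combination h2 + a3
  have a5 : V1 - c = ρ1 * (V5 - c) := by
    rw [hρ]
    linear_combination a1 + ρ0 * a3
  have a6 : V2 - c = ρ1 * (V4 - c) := by linear_combination a5 - h1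
  exact ⟨c, a1, a2, a6, a5, a3, a4⟩

/-- the shoelace sum does not depend on the origin -/
private theorem V4b_shoe (V0 V1 V2 V3 V4 V5 c : ℂ) :
    cr V0 V1 + cr V1 V2 + cr V2 V3 + cr V3 V4 + cr V4 V5 + cr V5 V0 =
      (cr (V0 - c) (V1 - c) + cr (V3 - c) (V4 - c)) + (cr (V1 - c) (V2 - c) +
        cr (V4 - c) (V5 - c)) + (cr (V2 - c) (V3 - c) + cr (V5 - c) (V0 - c)) := by
  unfold cr
  simp only [sub_re, sub_im]
  ring

/-- the algebraic core -/
private theorem V4b_core {V0 V1 V2 V3 V4 V5 : ℂ} (n0 : ‖V1 - V0‖ = ‖V4 - V3‖)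
    (n1 : ‖V2 - V1‖ = ‖V5 - V4‖) (n2 : ‖V3 - V2‖ = ‖V0 - V5‖) (z3 : V4 - V3 ≠ 0)
    (z4 : V5 - V4 ≠ 0) (z5 : V0 - V5 ≠ 0)
    (hp : (V2 - V1) * (V4 - V3) * (V0 - V5) = -((V1 - V0) * (V3 - V2) * (V5 - V4)))
    (hA : cr V0 V1 + cr V1 V2 + cr V2 V3 + cr V3 V4 + cr V4 V5 + cr V5 V0 ≠ 0) :
    V4 - V3 = -(V1 - V0) := by
  by_contra hcon
  have h0 : V0 - V1 = (V0 - V1) / (V4 - V3) * (V4 - V3) := by field_simp
  have h1 : V1 - V2 = (V1 - V2) / (V5 - V4) * (V5 - V4) := by field_simp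
  have h2 : V2 - V3 = (V2 - V3) / (V0 - V5) * (V0 - V5) := by field_simp
  have hρ : (V1 - V2) / (V5 - V4) = (V0 - V1) / (V4 - V3) * ((V2 - V3) / (V0 - V5)) := by
    field_simp
    linear_combination -hp
  have hne : (V0 - V1) / (V4 - V3) ≠ 1 := by
    intro h
    rw [div_eq_one_iff_eq z3] at h
    apply hcon
    linear_combination -h
  have m0 : ‖(V0 - V1) / (V4 - V3)‖ = 1 := by
    rw [norm_div, norm_sub_rev, n0, div_self (norm_ne_zero_iff.2 z3)]
  have m1 : ‖(V1 - V2) / (V5 - V4)‖ = 1 := by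
    rw [norm_div, norm_sub_rev, n1, div_self (norm_ne_zero_iff.2 z4)]
  have m2 : ‖(V2 - V3) / (V0 - V5)‖ = 1 := by
    rw [norm_div, norm_sub_rev, n2, div_self (norm_ne_zero_iff.2 z5)]
  obtain ⟨c, a1, a2, a3, a4, a5, a6⟩ := V4b_fix h0 h1 h2 hρ hne
  apply hA
  rw [V4b_shoe V0 V1 V2 V3 V4 V5 c, V4b_pair m0 a1 a2, V4b_pair m1 a3 a4, V4b_pair m2 a5 a6]
  ring

private theorem V4b_area (P : Polygon 6) (hc : P.CCW) :
    cr (P.vertex 0) (P.vertex 1) + cr (P.vertex 1) (P.vertex 2) + cr (P.vertex 2) (P.vertex 3) +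
      cr (P.vertex 3) (P.vertex 4) + cr (P.vertex 4) (P.vertex 5) +
      cr (P.vertex 5) (P.vertex 0) ≠ 0 := by
  have h1 : (0 : ENNReal) < volume P.region := by
    have h2 : (0 : ENNReal) < volume P.inner := P.inner_open.measure_pos volume P.inner_nonempty
    refine lt_of_lt_of_le h2 (measure_mono ?_)
    rw [P.region_union]
    exact subset_union_right
  have h3 : volume P.region ≠ ⊤ := P.region_bounded.measure_lt_top.ne
  have h4 : 0 < (volume P.region).toReal := ENNReal.toReal_pos h1.ne' h3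
  rw [P.area_eq hc] at h4
  have h5 : ∑ i : ZMod 6, cr (P.vertex i) (P.vertex (i + 1)) =
      cr (P.vertex 0) (P.vertex 1) + cr (P.vertex 1) (P.vertex 2) + cr (P.vertex 2) (P.vertex 3) +
      cr (P.vertex 3) (P.vertex 4) + cr (P.vertex 4) (P.vertex 5) +
      cr (P.vertex 5) (P.vertex 0) := Fin.sum_univ_six _
  rw [h5] at h4
  intro h6
  rw [h6] at h4
  simp at h4

private theorem V4b_len (P : Polygon 6) (i j : ZMod 6) (h : i + 1 = j) :
    P.len i = ‖P.vertex j - P.vertex i‖ := by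
  subst h
  unfold Polygon.len
  rw [dist_comm, dist_eq_norm]

private theorem V4b_turn (P : Polygon 6) (i j k : ZMod 6) (h : k + 1 = i) (h' : i + 1 = j) :
    P.vertex j - P.vertex i = (P.vertex i - P.vertex k) *
      ((P.len i / P.len k : ℝ) : ℂ) * exp ((((Real.pi - P.ang i : ℝ)) : ℂ) * Complex.I) := by
  subst h'
  have h2 : k = i - 1 := by rw [← h]; ring
  rw [h2]
  exact P.side_turn i

theorem opp_par (P : Polygon 6) (hc : P.CCW) (h03 : P.len 0 = P.len 3) (h14 : P.len 1 = P.len 4)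
    (h25 : P.len 2 = P.len 5) (ha : P.ang 1 + P.ang 3 + P.ang 5 = 2 * Real.pi) :
    P.vertex 4 - P.vertex 3 = -(P.vertex 1 - P.vertex 0) := by
  have t1 := V4b_turn P 1 2 0 (by decide) (by decide)
  have t3 := V4b_turn P 3 4 2 (by decide) (by decide)
  have t5 := V4b_turn P 5 0 4 (by decide) (by decide)
  have p3 := P.len_pos 3
  have p4 := P.len_pos 4
  have p5 := P.len_pos 5
  have l0 := V4b_len P 0 1 (by decide)
  have l1 := V4b_len P 1 2 (by decide)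
  have l2 := V4b_len P 2 3 (by decide)
  have l3 := V4b_len P 3 4 (by decide)
  have l4 := V4b_len P 4 5 (by decide)
  have l5 := V4b_len P 5 0 (by decide)
  have z3 : P.vertex 4 - P.vertex 3 ≠ 0 := by
    rw [← norm_pos_iff, ← l3]
    exact p3
  have z4 : P.vertex 5 - P.vertex 4 ≠ 0 := by
    rw [← norm_pos_iff, ← l4]
    exact p4
  have z5 : P.vertex 0 - P.vertex 5 ≠ 0 := by
    rw [← norm_pos_iff, ← l5]
    exact p5
  refine V4b_core (by rw [← l0, ← l3, h03]) (by rw [← l1, ← l4, h14]) (by rw [← l2, ← l5, h25])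
    z3 z4 z5 ?_ (V4b_area P hc)
  have he : exp ((((Real.pi - P.ang 1 : ℝ)) : ℂ) * Complex.I) *
      exp ((((Real.pi - P.ang 3 : ℝ)) : ℂ) * Complex.I) *
      exp ((((Real.pi - P.ang 5 : ℝ)) : ℂ) * Complex.I) = -1 := by
    rw [← Complex.exp_add, ← Complex.exp_add]
    have : (((Real.pi - P.ang 1 : ℝ)) : ℂ) * Complex.I + (((Real.pi - P.ang 3 : ℝ)) : ℂ) * Complex.I +
        (((Real.pi - P.ang 5 : ℝ)) : ℂ) * Complex.I = (Real.pi : ℂ) * Complex.I := by
      have h1 : ((P.ang 1 : ℝ) : ℂ) + ((P.ang 3 : ℝ) : ℂ) + ((P.ang 5 : ℝ) : ℂ) =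
          2 * (Real.pi : ℂ) := by
        exact_mod_cast congrArg (fun x : ℝ => (x : ℂ)) ha
      push_cast
      linear_combination -Complex.I * h1
    rw [this, Complex.exp_pi_mul_I]
  have hl : ((P.len 1 / P.len 0 : ℝ) : ℂ) * ((P.len 3 / P.len 2 : ℝ) : ℂ) *
      ((P.len 5 / P.len 4 : ℝ) : ℂ) = 1 := by
    rw [h03, h14, h25]
    have q3 : ((P.len 3 : ℝ) : ℂ) ≠ 0 := by exact_mod_cast p3.ne'
    have q4 : ((P.len 4 : ℝ) : ℂ) ≠ 0 := by exact_mod_cast p4.ne'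
    have q5 : ((P.len 5 : ℝ) : ℂ) ≠ 0 := by exact_mod_cast p5.ne'
    push_cast
    field_simp
  rw [t1, t3, t5]
  set E1 := exp ((((Real.pi - P.ang 1 : ℝ)) : ℂ) * Complex.I)
  set E3 := exp ((((Real.pi - P.ang 3 : ℝ)) : ℂ) * Complex.I)
  set E5 := exp ((((Real.pi - P.ang 5 : ℝ)) : ℂ) * Complex.I)
  set r1 := ((P.len 1 / P.len 0 : ℝ) : ℂ)
  set r3 := ((P.len 3 / P.len 2 : ℝ) : ℂ)
  set r5 := ((P.len 5 / P.len 4 : ℝ) : ℂ)
  linear_combination (P.vertex 1 - P.vertex 0) * (P.vertex 3 - P.vertex 2) *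
    (P.vertex 5 - P.vertex 4) * (r1 * r3 * r5) * he - (P.vertex 1 - P.vertex 0) *
    (P.vertex 3 - P.vertex 2) * (P.vertex 5 - P.vertex 4) * hl

end Pool.Agent.Lib_MP_fa6e45
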