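import Pool.Agent.Lib_MP_fa6e45.A1
import Pool.Agent.Lib_MP_fa6e45.A3b
import Pool.Agent.Lib_MP_fa6e45.T1a
import Pool.Agent.Lib_MP_fa6e45.VDefs

/-!
PIECE V4c (about 180 lines): sides X Y X Z Y Z and `ang 1 + ang 3 + ang 5 = 2 π`: then the two sides Y are
antiparallel. Motions: `α z = A conj z + s` with `α V2 = V0, α V3 = V1`; `β z = B conj z + t` with `β V5 = V3,
β V0 = V4`; `τ z = ρ z + r` with `τ V4 = V2, τ V5 = V1`. The angle condition gives `A conj B = ρ`
(`side_turn`), so `α β = τ` (they agree at `V5`) and `α τ β = 1` (it fixes `V0` and its linear part is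
`A conj ρ conj... = 1`). If `A = B` then `ρ = 1`, `τ` is a translation: the claim. Otherwise `β β = (α α)⁻¹`,
`α α` = translation by `s + A conj s` (in the direction of the axis of `α`), `β β` = translation by
`t + B conj t`; the two directions are independent, so both vanish, `α`, `β` are reflections whose axes
meet in a point `c`; then `cr (V0 - c) (V1 - c) = - cr (V2 - c) (V3 - c)`, `cr (V3 - c) (V4 - c) = - cr (V5 - c) (V0 - c)`,
`cr (V1 - c) (V2 - c) = - cr (V4 - c) (V5 - c)`: the area is 0, contradiction.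
-/

open Set MeasureTheory Complex
open scoped Topology

namespace Pool.Agent.Lib_MP_fa6e45

open Pool.Agent.Lib_PL (cr InSector Poly)

private theorem V4c_cr_conj {A : ℂ} (hA : A * (starRingEnd ℂ) A = 1) (u v : ℂ) :
    cr (A * (starRingEnd ℂ) u) (A * (starRingEnd ℂ) v) = -cr u v := by
  have h : A.re * A.re + A.im * A.im = 1 := by
    have h1 := congrArg Complex.re hA
    simp only [mul_re, conj_re, conj_im, one_re] at h1
    linarith
  unfold cr
  simp only [mul_re, mul_im, conj_re, conj_im]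
  linear_combination (-(u.re * v.im - u.im * v.re)) * h

private theorem V4c_cr_rot {A : ℂ} (hA : A * (starRingEnd ℂ) A = 1) (u v : ℂ) :
    cr (A * u) (A * v) = cr u v := by
  have h : A.re * A.re + A.im * A.im = 1 := by
    have h1 := congrArg Complex.re hA
    simp only [mul_re, conj_re, conj_im, one_re] at h1
    linarith
  unfold cr
  simp only [mul_re, mul_im]
  linear_combination (u.re * v.im - u.im * v.re) * h

private theorem V4c_cr_sum (v0 v1 v2 v3 v4 v5 c : ℂ) :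
    cr v0 v1 + cr v1 v2 + cr v2 v3 + cr v3 v4 + cr v4 v5 + cr v5 v0 =
      cr (v0 - c) (v1 - c) + cr (v1 - c) (v2 - c) + cr (v2 - c) (v3 - c) + cr (v3 - c) (v4 - c) +
        cr (v4 - c) (v5 - c) + cr (v5 - c) (v0 - c) := by
  unfold cr
  simp only [sub_re, sub_im]
  ring

private theorem V4c_fix {A B s t : ℂ} (hA : A * (starRingEnd ℂ) A = 1)
    (hB : B * (starRingEnd ℂ) B = 1) (hne : A ≠ B) (hs : s + A * (starRingEnd ℂ) s = 0)
    (ht : t + B * (starRingEnd ℂ) t = 0) :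
    ∃ c : ℂ, A * (starRingEnd ℂ) c + s = c ∧ B * (starRingEnd ℂ) c + t = c := by
  have hA0 : A ≠ 0 := by
    rintro rfl
    simp at hA
  have hB0 : B ≠ 0 := by
    rintro rfl
    simp at hB
  have hAB : A - B ≠ 0 := sub_ne_zero.2 hne
  have hcA : (starRingEnd ℂ) A = A⁻¹ := eq_inv_of_mul_eq_one_right hA
  have hcB : (starRingEnd ℂ) B = B⁻¹ := eq_inv_of_mul_eq_one_right hB
  have hcs : (starRingEnd ℂ) s = -(s / A) := by
    field_simp
    linear_combination hs
  have hct : (starRingEnd ℂ) t = -(t / B) := by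
    field_simp
    linear_combination ht
  have hBA : B - A ≠ 0 := sub_ne_zero.2 hne.symm
  have hc : (starRingEnd ℂ) ((A * t - B * s) / (A - B)) = (t - s) / (A - B) := by
    simp only [map_div₀, map_sub, map_mul, hcA, hcB, hcs, hct]
    have h1 : A⁻¹ - B⁻¹ = (B - A) / (A * B) := by field_simp
    rw [h1]
    field_simp
    ring
  refine ⟨(A * t - B * s) / (A - B), ?_, ?_⟩
  · rw [hc]
    field_simp
    ring
  · rw [hc]
    field_simp
    ring

private theorem V4c_alg {v0 v1 v2 v3 v4 v5 A B : ℂ} (hA : A * (starRingEnd ℂ) A = 1)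
    (hB : B * (starRingEnd ℂ) B = 1) (h0 : v1 - v0 = A * (starRingEnd ℂ) (v3 - v2))
    (h3 : v4 - v3 = B * (starRingEnd ℂ) (v0 - v5))
    (h1 : v2 - v1 = -(A * (starRingEnd ℂ) B * (v5 - v4))) (hne : A ≠ B) :
    cr v0 v1 + cr v1 v2 + cr v2 v3 + cr v3 v4 + cr v4 v5 + cr v5 v0 = 0 := by
  obtain ⟨s, hs⟩ : ∃ s : ℂ, A * (starRingEnd ℂ) v2 + s = v0 := ⟨v0 - A * (starRingEnd ℂ) v2, by ring⟩
  obtain ⟨t, ht⟩ : ∃ t : ℂ, B * (starRingEnd ℂ) v5 + t = v3 := ⟨v3 - B * (starRingEnd ℂ) v5, by ring⟩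
  rw [map_sub] at h0 h3
  have hs3 : A * (starRingEnd ℂ) v3 + s = v1 := by linear_combination hs - h0
  have ht0 : B * (starRingEnd ℂ) v0 + t = v4 := by linear_combination ht - h3
  have hst5 : A * (starRingEnd ℂ) (B * (starRingEnd ℂ) v5 + t) + s = v1 := by rw [ht, hs3]
  have hst4 : A * (starRingEnd ℂ) (B * (starRingEnd ℂ) v4 + t) + s = v2 := by
    simp only [map_add, map_mul, conj_conj] at hst5 ⊢
    linear_combination hst5 - h1
  have hw : (t + B * (starRingEnd ℂ) t) + (s + A * (starRingEnd ℂ) s) = 0 := by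
    have e1 := congrArg (starRingEnd ℂ) hst4
    have e2 := congrArg (starRingEnd ℂ) ht0
    simp only [map_add, map_mul, conj_conj] at e1 e2
    linear_combination A * e1 - (B * (starRingEnd ℂ) v4 + t) * hA + hs + B * e2 - v0 * hB
  have hcA : A * (starRingEnd ℂ) (s + A * (starRingEnd ℂ) s) = s + A * (starRingEnd ℂ) s := by
    simp only [map_add, map_mul, conj_conj]
    linear_combination s * hA
  have hcB : B * (starRingEnd ℂ) (t + B * (starRingEnd ℂ) t) = t + B * (starRingEnd ℂ) t := by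
    simp only [map_add, map_mul, conj_conj]
    linear_combination t * hB
  have hs0 : s + A * (starRingEnd ℂ) s = 0 := by
    have h2 : (A - B) * (starRingEnd ℂ) (s + A * (starRingEnd ℂ) s) = 0 := by
      have h3 : t + B * (starRingEnd ℂ) t = -(s + A * (starRingEnd ℂ) s) := by
        linear_combination hw
      rw [h3, map_neg] at hcB
      linear_combination hcA + hcB
    rcases mul_eq_zero.1 h2 with h | h
    · exact absurd (sub_eq_zero.1 h) hne
    · exact (map_eq_zero (starRingEnd ℂ)).1 h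
  have ht0' : t + B * (starRingEnd ℂ) t = 0 := by
    rw [hs0, add_zero] at hw
    exact hw
  obtain ⟨c, hc1, hc2⟩ := V4c_fix hA hB hne hs0 ht0'
  have k0 : v0 - c = A * (starRingEnd ℂ) (v2 - c) := by
    rw [map_sub]
    linear_combination hc1 - hs
  have k1 : v1 - c = A * (starRingEnd ℂ) (v3 - c) := by
    rw [map_sub]
    linear_combination hc1 - hs3
  have k3 : v3 - c = B * (starRingEnd ℂ) (v5 - c) := by
    rw [map_sub]
    linear_combination hc2 - ht
  have k4 : v4 - c = B * (starRingEnd ℂ) (v0 - c) := by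
    rw [map_sub]
    linear_combination hc2 - ht0
  have k1' : v1 - c = A * (starRingEnd ℂ) B * (v5 - c) := by
    rw [k1, k3, map_mul, conj_conj]
    ring
  have k2 : v2 - c = A * (starRingEnd ℂ) B * (v4 - c) := by
    linear_combination h1 + k1'
  have hAB : A * (starRingEnd ℂ) B * (starRingEnd ℂ) (A * (starRingEnd ℂ) B) = 1 := by
    rw [map_mul, conj_conj]
    linear_combination (starRingEnd ℂ) B * B * hA + hB
  have r1 : cr (v0 - c) (v1 - c) = -cr (v2 - c) (v3 - c) := by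
    rw [k0, k1]
    exact V4c_cr_conj hA _ _
  have r2 : cr (v3 - c) (v4 - c) = -cr (v5 - c) (v0 - c) := by
    rw [k3, k4]
    exact V4c_cr_conj hB _ _
  have r3 : cr (v1 - c) (v2 - c) = cr (v5 - c) (v4 - c) := by
    rw [k1', k2]
    exact V4c_cr_rot hAB _ _
  rw [V4c_cr_sum v0 v1 v2 v3 v4 v5 c, r1, r2, r3, Pool.Agent.Lib_PL.cr_swap (v5 - c) (v4 - c)]
  ring

private theorem V4c_unit {x y : ℂ} (hy : y ≠ 0) (h : ‖x‖ = ‖y‖) :
    ∃ A : ℂ, A * (starRingEnd ℂ) A = 1 ∧ x = A * (starRingEnd ℂ) y := by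
  have hy' : (starRingEnd ℂ) y ≠ 0 := by simpa using hy
  refine ⟨x / (starRingEnd ℂ) y, ?_, by field_simp⟩
  rw [map_div₀, conj_conj, div_mul_div_comm, Complex.mul_conj, mul_comm ((starRingEnd ℂ) y) y,
    Complex.mul_conj, Complex.normSq_eq_norm_sq, Complex.normSq_eq_norm_sq, h]
  have : ‖y‖ ≠ 0 := norm_ne_zero_iff.2 hy
  have h2 : ((‖y‖ ^ 2 : ℝ) : ℂ) ≠ 0 := by exact_mod_cast pow_ne_zero 2 this
  exact div_self h2

private theorem V4c_ne (P : Polygon 6) (i : ZMod 6) : P.vertex (i + 1) - P.vertex i ≠ 0 := by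
  have h := P.len_pos i
  unfold Polygon.len at h
  rw [dist_comm, dist_eq_norm] at h
  exact norm_pos_iff.1 h

private theorem V4c_len (P : Polygon 6) (i : ZMod 6) : P.len i = ‖P.vertex (i + 1) - P.vertex i‖ := by
  unfold Polygon.len
  rw [dist_comm, dist_eq_norm]

theorem mid_par (P : Polygon 6) (hc : P.CCW) (h02 : P.len 0 = P.len 2) (h14 : P.len 1 = P.len 4)
    (h35 : P.len 3 = P.len 5) (ha : P.ang 1 + P.ang 3 + P.ang 5 = 2 * Real.pi) :
    P.vertex 5 - P.vertex 4 = -(P.vertex 2 - P.vertex 1) := by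
  have i01 : (0 : ZMod 6) + 1 = 1 := by decide
  have i12 : (1 : ZMod 6) + 1 = 2 := by decide
  have i23 : (2 : ZMod 6) + 1 = 3 := by decide
  have i34 : (3 : ZMod 6) + 1 = 4 := by decide
  have i45 : (4 : ZMod 6) + 1 = 5 := by decide
  have i50 : (5 : ZMod 6) + 1 = 0 := by decide
  have n0 := V4c_ne P 0
  have n1 := V4c_ne P 1
  have n2 := V4c_ne P 2
  have n3 := V4c_ne P 3
  have n4 := V4c_ne P 4
  have n5 := V4c_ne P 5
  rw [i01] at n0
  rw [i12] at n1
  rw [i23] at n2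
  rw [i34] at n3
  rw [i45] at n4
  rw [i50] at n5
  have l0 := V4c_len P 0
  have l1 := V4c_len P 1
  have l2 := V4c_len P 2
  have l3 := V4c_len P 3
  have l4 := V4c_len P 4
  have l5 := V4c_len P 5
  rw [i01] at l0
  rw [i12] at l1
  rw [i23] at l2
  rw [i34] at l3
  rw [i45] at l4
  rw [i50] at l5
  obtain ⟨A, hA, hA2⟩ := V4c_unit n2 (show ‖P.vertex 1 - P.vertex 0‖ = _ by rw [← l0, h02, l2])
  obtain ⟨B, hB, hB2⟩ := V4c_unit n5 (show ‖P.vertex 4 - P.vertex 3‖ = _ by rw [← l3, h35, l5])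
  have t1 := P.side_turn 1
  have t3 := P.side_turn 3
  have t5 := P.side_turn 5
  have j1 : (1 : ZMod 6) - 1 = 0 := by decide
  have j3 : (3 : ZMod 6) - 1 = 2 := by decide
  have j5 : (5 : ZMod 6) - 1 = 4 := by decide
  rw [i12, j1] at t1
  rw [i34, j3] at t3
  rw [i50, j5] at t5
  have p0 := (P.len_pos 0).ne'
  have p1 := (P.len_pos 1).ne'
  have p2 := (P.len_pos 2).ne'
  have p3 := (P.len_pos 3).ne'
  have p4 := (P.len_pos 4).ne'
  have p5 := (P.len_pos 5).ne'
  have hE : exp ((((Real.pi - P.ang 1 : ℝ)) : ℂ) * Complex.I) *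
      exp ((((Real.pi - P.ang 3 : ℝ)) : ℂ) * Complex.I) *
      exp ((((Real.pi - P.ang 5 : ℝ)) : ℂ) * Complex.I) = -1 := by
    rw [← Complex.exp_add, ← Complex.exp_add, ← Complex.exp_pi_mul_I]
    congr 1
    have h1 : P.ang 1 = 2 * Real.pi - P.ang 3 - P.ang 5 := by linarith
    rw [h1]
    push_cast
    ring
  have hk : (((P.len 1 / P.len 0 : ℝ)) : ℂ) * (((P.len 3 / P.len 2 : ℝ)) : ℂ) *
      (((P.len 5 / P.len 4 : ℝ)) : ℂ) = ((P.len 3 ^ 2 / P.len 2 ^ 2 : ℝ) : ℂ) := by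
    rw [← Complex.ofReal_mul, ← Complex.ofReal_mul]
    congr 1
    rw [h02, h14, ← h35]
    field_simp
  have c2 : (P.vertex 3 - P.vertex 2) * (starRingEnd ℂ) (P.vertex 3 - P.vertex 2) =
      ((P.len 2 ^ 2 : ℝ) : ℂ) := by
    rw [Complex.mul_conj, Complex.normSq_eq_norm_sq, l2]
  have c5 : (P.vertex 0 - P.vertex 5) * (starRingEnd ℂ) (P.vertex 0 - P.vertex 5) =
      ((P.len 3 ^ 2 : ℝ) : ℂ) := by
    rw [Complex.mul_conj, Complex.normSq_eq_norm_sq, ← l5, h35]
  set e0 := P.vertex 1 - P.vertex 0 with he0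
  set e1 := P.vertex 2 - P.vertex 1 with he1
  set e2 := P.vertex 3 - P.vertex 2 with he2
  set e3 := P.vertex 4 - P.vertex 3 with he3
  set e4 := P.vertex 5 - P.vertex 4 with he4
  set e5 := P.vertex 0 - P.vertex 5 with he5
  have hprod : e1 * e3 * e5 = -(e0 * e2 * e4 * ((P.len 3 ^ 2 / P.len 2 ^ 2 : ℝ) : ℂ)) := by
    rw [t1, t3, t5, ← hk]
    linear_combination (e0 * e2 * e4 * ((((P.len 1 / P.len 0 : ℝ)) : ℂ) *
      (((P.len 3 / P.len 2 : ℝ)) : ℂ) * (((P.len 5 / P.len 4 : ℝ)) : ℂ))) * hE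
  have p2' : ((P.len 2 : ℝ) : ℂ) ≠ 0 := by exact_mod_cast p2
  have hprod2 : e1 * e3 * e5 * (e2 * (starRingEnd ℂ) e2) =
      -(e0 * e2 * e4 * (e5 * (starRingEnd ℂ) e5)) := by
    rw [c2, c5, hprod]
    push_cast
    field_simp
  have he1' : e1 = -(A * (starRingEnd ℂ) B * e4) := by
    have c2' : (starRingEnd ℂ) e2 ≠ 0 := by simpa using n2
    have c5' : (starRingEnd ℂ) e5 ≠ 0 := by simpa using n5
    have h2 : (e5 * e2 * (starRingEnd ℂ) e2 * (starRingEnd ℂ) e5) * (e1 * B) =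
        (e5 * e2 * (starRingEnd ℂ) e2 * (starRingEnd ℂ) e5) * (-(A * e4)) := by
      rw [hA2, hB2] at hprod2
      linear_combination hprod2
    have h3 : e1 * B = -(A * e4) := by
      refine mul_left_cancel₀ ?_ h2
      exact mul_ne_zero (mul_ne_zero (mul_ne_zero n5 n2) c2') c5'
    linear_combination (starRingEnd ℂ) B * h3 - e1 * hB
  by_cases hne : A = B
  · subst hne
    rw [he1', hA]
    ring
  · exfalso
    have h := V4c_alg hA hB hA2 hB2 he1' hne
    have h2 := P.area_eq hc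
    have h3 := P.volume_pos
    have h4 : ∑ i : ZMod 6, cr (P.vertex i) (P.vertex (i + 1)) =
        cr (P.vertex 0) (P.vertex 1) + cr (P.vertex 1) (P.vertex 2) + cr (P.vertex 2) (P.vertex 3) +
          cr (P.vertex 3) (P.vertex 4) + cr (P.vertex 4) (P.vertex 5) +
          cr (P.vertex 5) (P.vertex 0) := by
      have h5 : ∀ f : ZMod 6 → ℝ, ∑ i : ZMod 6, f i = f 0 + f 1 + f 2 + f 3 + f 4 + f 5 :=
        fun f => Fin.sum_univ_six f
      rw [h5, i01, i12, i23, i34, i45, i50]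
    rw [h2, h4, h] at h3
    norm_num at h3

end Pool.Agent.Lib_MP_fa6e45
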