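import Pool.Agent.Lib_MP_fa6e45.A1
import Pool.Agent.Lib_MP_fa6e45.VDefs

/-!
PIECE V4d (about 200 lines): from angles to vectors (`side_turn`), for the five new criteria.
Write `e i = V (i+1) - V i = len i * exp (I φ i)`, `φ i - φ (i-1) = π - ang i`.
`vecA`: `A = e 0 / conj (e 2)`. `vecC` the same. `vec_rot`: two equal sides with the angle `θ` between them.
`hex_vec0`: turning by `π` over three corners.
-/

open Set MeasureTheory Complex
open scoped Topology

namespace Pool.Agent.Lib_MP_fa6e45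

open Pool.Agent.Lib_PL (cr InSector Poly)

private noncomputable def V4dE (x : ℝ) : ℂ := exp ((x : ℂ) * Complex.I)

private theorem V4dE_add (x y : ℝ) : V4dE (x + y) = V4dE x * V4dE y := by
  unfold V4dE
  rw [← Complex.exp_add]
  congr 1
  push_cast
  ring

private theorem V4dE_pi : V4dE Real.pi = -1 := by
  unfold V4dE
  exact Complex.exp_pi_mul_I

private theorem V4dE_two_pi : V4dE (2 * Real.pi) = 1 := by
  rw [two_mul, V4dE_add, V4dE_pi]
  norm_num

private theorem V4dE_conj (x : ℝ) : (starRingEnd ℂ) (V4dE x) = V4dE (-x) := by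
  unfold V4dE
  rw [← Complex.exp_conj]
  congr 1
  simp

private theorem V4d_norm {n : ℕ} (P : Polygon n) (i : ZMod n) :
    ‖P.vertex (i + 1) - P.vertex i‖ = P.len i := by
  unfold Polygon.len
  rw [dist_comm, dist_eq_norm]

private theorem V4d_turn {n : ℕ} (P : Polygon n) (i j k : ZMod n) (h1 : j = i + 1) (h2 : k = j + 1) :
    P.vertex k - P.vertex j = (P.vertex j - P.vertex i) *
      ((P.len j / P.len i : ℝ) : ℂ) * V4dE (Real.pi - P.ang j) := by
  have h := P.side_turn j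
  have e : j - 1 = i := by rw [h1]; ring
  rw [e, ← h2] at h
  exact h

private theorem V4d_ne {n : ℕ} (P : Polygon n) (i : ZMod n) : (P.len i : ℂ) ≠ 0 := by
  exact_mod_cast (P.len_pos i).ne'

private theorem V4d_side_ne {n : ℕ} (P : Polygon n) (i : ZMod n) :
    P.vertex (i + 1) - P.vertex i ≠ 0 := by
  rw [← norm_ne_zero_iff, V4d_norm]
  exact (P.len_pos i).ne'

theorem vecA (P : Polygon 5) (h02 : P.len 0 = P.len 2) (h13 : P.len 1 = P.len 3)
    (ha : P.ang 0 + P.ang 2 + P.ang 4 = 2 * Real.pi) (hs : ∑ i, P.ang i = 3 * Real.pi) :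
    ∃ A : ℂ, ‖A‖ = 1 ∧ P.vertex 1 - P.vertex 0 = A * (starRingEnd ℂ) (P.vertex 3 - P.vertex 2) ∧
      P.vertex 2 - P.vertex 1 = -(A * (starRingEnd ℂ) (P.vertex 4 - P.vertex 3)) := by
  have hsum : P.ang 1 + P.ang 3 = Real.pi := by
    have h : ∑ i, P.ang i = P.ang 0 + P.ang 1 + P.ang 2 + P.ang 3 + P.ang 4 :=
      Fin.sum_univ_five (fun i : Fin 5 => P.ang i)
    rw [h] at hs
    linarith
  have n0 : ‖P.vertex 1 - P.vertex 0‖ = P.len 0 := V4d_norm P 0
  have n2 : ‖P.vertex 3 - P.vertex 2‖ = P.len 2 := V4d_norm P 2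
  have hne : (starRingEnd ℂ) (P.vertex 3 - P.vertex 2) ≠ 0 := by
    rw [Ne, map_eq_zero]
    exact V4d_side_ne P 2
  have t1 := V4d_turn P 0 1 2 (by decide) (by decide)
  have t3 := V4d_turn P 2 3 4 (by decide) (by decide)
  refine ⟨(P.vertex 1 - P.vertex 0) / (starRingEnd ℂ) (P.vertex 3 - P.vertex 2), ?_, ?_, ?_⟩
  · rw [norm_div, RCLike.norm_conj, n0, n2, h02]
    exact div_self (P.len_pos 2).ne'
  · rw [div_mul_cancel₀ _ hne]
  · rw [t1, t3, map_mul, map_mul, V4dE_conj, Complex.conj_ofReal, h13, ← h02]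
    have e1 : V4dE (Real.pi - P.ang 1) = -V4dE (-(Real.pi - P.ang 3)) := by
      have : Real.pi - P.ang 1 = -(Real.pi - P.ang 3) + Real.pi := by linarith
      rw [this, V4dE_add, V4dE_pi]
      ring
    rw [e1]
    field_simp

theorem vecC (P : Polygon 6) (h02 : P.len 0 = P.len 2) (h14 : P.len 1 = P.len 4)
    (ha : P.ang 1 + P.ang 3 + P.ang 4 = 2 * Real.pi) :
    ∃ A : ℂ, ‖A‖ = 1 ∧ P.vertex 1 - P.vertex 0 = A * (starRingEnd ℂ) (P.vertex 3 - P.vertex 2) ∧
      P.vertex 2 - P.vertex 1 = -(A * (starRingEnd ℂ) (P.vertex 5 - P.vertex 4)) := by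
  have n0 : ‖P.vertex 1 - P.vertex 0‖ = P.len 0 := V4d_norm P 0
  have n2 : ‖P.vertex 3 - P.vertex 2‖ = P.len 2 := V4d_norm P 2
  have hne : (starRingEnd ℂ) (P.vertex 3 - P.vertex 2) ≠ 0 := by
    rw [Ne, map_eq_zero]
    exact V4d_side_ne P 2
  have t1 := V4d_turn P 0 1 2 (by decide) (by decide)
  have t3 := V4d_turn P 2 3 4 (by decide) (by decide)
  have t4 := V4d_turn P 3 4 5 (by decide) (by decide)
  refine ⟨(P.vertex 1 - P.vertex 0) / (starRingEnd ℂ) (P.vertex 3 - P.vertex 2), ?_, ?_, ?_⟩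
  · rw [norm_div, RCLike.norm_conj, n0, n2, h02]
    exact div_self (P.len_pos 2).ne'
  · rw [div_mul_cancel₀ _ hne]
  · rw [t1, t4, t3]
    simp only [map_mul, V4dE_conj, Complex.conj_ofReal]
    have e1 : V4dE (Real.pi - P.ang 1) =
        -(V4dE (-(Real.pi - P.ang 3)) * V4dE (-(Real.pi - P.ang 4))) := by
      have : Real.pi - P.ang 1 =
          (-(Real.pi - P.ang 3) + -(Real.pi - P.ang 4)) + Real.pi := by linarith
      rw [this, V4dE_add, V4dE_add, V4dE_pi]
      ring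
    rw [e1, h14, ← h02]
    have l0 := V4d_ne P 0
    have l3 := V4d_ne P 3
    push_cast
    field_simp

theorem vec_rot {n : ℕ} (P : Polygon n) (i : ZMod n) (h : P.len (i - 1) = P.len i) :
    P.vertex (i - 1) - P.vertex i =
      exp ((P.ang i : ℂ) * Complex.I) * (P.vertex (i + 1) - P.vertex i) := by
  have t := P.side_turn i
  rw [h, div_self (P.len_pos i).ne'] at t
  have h1 : exp ((((Real.pi - P.ang i : ℝ)) : ℂ) * Complex.I) = -V4dE (-P.ang i) := by
    have h2 : V4dE (Real.pi - P.ang i) = -V4dE (-P.ang i) := by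
      rw [sub_eq_add_neg, V4dE_add, V4dE_pi]
      ring
    exact h2
  rw [t, h1]
  have h3 : V4dE (P.ang i) * V4dE (-P.ang i) = 1 := by
    rw [← V4dE_add, add_neg_cancel]
    simp [V4dE]
  have h4 : exp ((P.ang i : ℂ) * Complex.I) = V4dE (P.ang i) := rfl
  rw [h4]
  push_cast
  linear_combination (P.vertex i - P.vertex (i - 1)) * h3

/-- turning by `π` over the corners `p + 1, p + 2, p + 3` -/
theorem hex_vec0 (P : Polygon 6) (p : ZMod 6) (hl : P.len p = P.len (p + 3))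
    (ha : P.ang (p + 1) + P.ang (p + 2) + P.ang (p + 3) = 2 * Real.pi) :
    P.vertex (p + 4) - P.vertex (p + 3) = -(P.vertex (p + 1) - P.vertex p) := by
  have t1 := V4d_turn P p (p + 1) (p + 2) (by ring) (by ring)
  have t2 := V4d_turn P (p + 1) (p + 2) (p + 3) (by ring) (by ring)
  have t3 := V4d_turn P (p + 2) (p + 3) (p + 4) (by ring) (by ring)
  have e1 : V4dE (Real.pi - P.ang (p + 1)) * V4dE (Real.pi - P.ang (p + 2)) *
      V4dE (Real.pi - P.ang (p + 3)) = -1 := by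
    rw [← V4dE_add, ← V4dE_add]
    have : Real.pi - P.ang (p + 1) + (Real.pi - P.ang (p + 2)) + (Real.pi - P.ang (p + 3)) =
        Real.pi := by linarith
    rw [this, V4dE_pi]
  have l0 := V4d_ne P p
  have l1 := V4d_ne P (p + 1)
  have l2 := V4d_ne P (p + 2)
  have l3 := V4d_ne P (p + 3)
  rw [t3, t2, t1, ← hl]
  push_cast
  have e2 : ((P.len (p + 1) : ℂ) / (P.len p : ℂ)) * ((P.len (p + 2) : ℂ) / (P.len (p + 1) : ℂ)) *
      ((P.len p : ℂ) / (P.len (p + 2) : ℂ)) = 1 := by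
    field_simp
  linear_combination ((P.vertex (p + 1) - P.vertex p) *
    (((P.len (p + 1) : ℂ) / (P.len p : ℂ)) * ((P.len (p + 2) : ℂ) / (P.len (p + 1) : ℂ)) *
      ((P.len p : ℂ) / (P.len (p + 2) : ℂ)))) * e1 - (P.vertex (p + 1) - P.vertex p) * e2

end Pool.Agent.Lib_MP_fa6e45
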