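import Pool.Agent.Lib_MP_fa6e45.VDefs

/-!
PIECE V5a (about 250 lines, pure arithmetic): pentagons of type XXYYE. `H` = for every integer weight `v` of small total
there is a star (given by its numbers `m i` of corners `i`) of small weight. Use `omega` to list the possible
`m` (small numbers) and `linarith` for the angles. Corners 0: EX, 1: XX, 2: XY, 3: YY, 4: YE; angle sum `3 π`.
Equations: [a] a1 = 2π/3, [b] a3 = 2π/3, [c] a1 + 2 a2 = 2π, [d] a3 + 2 a2 = 2π, [e] a1 + 2 a0 = 2π,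
[f] a3 + 2 a4 = 2π (false by `hf`), [g] a0 + a2 + a4 = 2π (iff a1 + a3 = π).
Weights are given as (v0, v1, v2, v3, v4) with L:
1. [g]: [a] or [b] => second alternative. [c] and [e] => a3 + a4 = π. Otherwise: not [e]: v = (12,9,16,10,12),
   L = 40 gives only m = (0,4,0,0,0), so a1 = π/2; not [c], [e]: v = (61,38,60,40,40), L = 160 gives only
   (0,4,0,0,0), so a1 = π/2, and a3 = π/2.
2. not [g], not [e]: v = (6,8,8,8,5), L = 24 gives (0,0,0,0,4) or (2,0,0,0,2); v = (5,8,8,8,6), L = 24 gives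
   (4,0,0,0,0) or (2,0,0,0,2); in any case a0 + a4 = π.
3. not [g], [e]: [c] => a3 + a4 = π. not [c]:
   [d], [a] or [b]: v = (14,14,14,14,6), L = 42 gives (0,0,0,2,2), (0,0,0,0,4), (2,0,0,0,2), (0,0,2,0,2),
     (0,0,0,1,4), (0,0,0,0,6); each gives a3 + a4 = π or a0 + a4 = π or contradicts not [g].
   [d], not [a], not [b]: v = (24,16,24,16,15), L = 64 gives (0,0,0,2,2) (a3 + a4 = π) or (0,0,0,0,4) (then
     a1 + a3 = π, contradicts not [g]).
   not [d]: not [a]: v = (9,6,6,8,6), L = 24 gives nothing; not [b]: v = (8,8,6,6,6), L = 24 nothing;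
     [a], [b] (and [e], so a0 = 2π/3): `H2` (a2 = 2π/3 is [d]).
The excluded 3-stars are (0,3,0,0,0) [a], (0,0,0,3,0) [b], (0,1,2,0,0) [c], (0,0,2,1,0) [d], (2,1,0,0,0) [e],
(0,0,0,1,2) [f], (1,0,1,0,1) [g]. (If a list above is not complete tell helper3.)
-/

open Set

namespace Pool.Agent.Lib_MP_fa6e45

private lemma V5a_c1 (m : ZMod 5 → ℕ) (hm : Good5 m)
    (h : (12 : ℤ) * m 0 + 9 * m 1 + 16 * m 2 + 10 * m 3 + 12 * m 4 < 40) :
      (m 0 = 0 ∧ m 1 = 0 ∧ m 2 = 0 ∧ m 3 = 1 ∧ m 4 = 2) ∨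
      (m 0 = 0 ∧ m 1 = 0 ∧ m 2 = 0 ∧ m 3 = 3 ∧ m 4 = 0) ∨
      (m 0 = 0 ∧ m 1 = 3 ∧ m 2 = 0 ∧ m 3 = 0 ∧ m 4 = 0) ∨
      (m 0 = 0 ∧ m 1 = 4 ∧ m 2 = 0 ∧ m 3 = 0 ∧ m 4 = 0) ∨
      (m 0 = 2 ∧ m 1 = 1 ∧ m 2 = 0 ∧ m 3 = 0 ∧ m 4 = 0) := by
  obtain ⟨h1, h2, h3, h4, h5⟩ := hm
  generalize m 0 = m0 at *
  generalize m 1 = m1 at *
  generalize m 2 = m2 at *
  generalize m 3 = m3 at *
  generalize m 4 = m4 at *
  have b0 : m0 ≤ 3 := by omega
  have b1 : m1 ≤ 4 := by omega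
  have b2 : m2 ≤ 2 := by omega
  have b3 : m3 ≤ 3 := by omega
  have b4 : m4 ≤ 3 := by omega
  interval_cases m0 <;> interval_cases m2 <;> interval_cases m4 <;>
    first
    | (exfalso; omega)
    | (interval_cases m1 <;> interval_cases m3 <;>
        first
        | (exfalso; omega)
        | simp)

private lemma V5a_c2 (m : ZMod 5 → ℕ) (hm : Good5 m)
    (h : (61 : ℤ) * m 0 + 38 * m 1 + 60 * m 2 + 40 * m 3 + 40 * m 4 < 160) :
      (m 0 = 0 ∧ m 1 = 0 ∧ m 2 = 0 ∧ m 3 = 1 ∧ m 4 = 2) ∨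
      (m 0 = 0 ∧ m 1 = 0 ∧ m 2 = 0 ∧ m 3 = 3 ∧ m 4 = 0) ∨
      (m 0 = 0 ∧ m 1 = 1 ∧ m 2 = 2 ∧ m 3 = 0 ∧ m 4 = 0) ∨
      (m 0 = 0 ∧ m 1 = 3 ∧ m 2 = 0 ∧ m 3 = 0 ∧ m 4 = 0) ∨
      (m 0 = 0 ∧ m 1 = 4 ∧ m 2 = 0 ∧ m 3 = 0 ∧ m 4 = 0) := by
  obtain ⟨h1, h2, h3, h4, h5⟩ := hm
  generalize m 0 = m0 at *
  generalize m 1 = m1 at *
  generalize m 2 = m2 at *
  generalize m 3 = m3 at *
  generalize m 4 = m4 at *
  have b0 : m0 ≤ 2 := by omega
  have b1 : m1 ≤ 4 := by omega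
  have b2 : m2 ≤ 2 := by omega
  have b3 : m3 ≤ 3 := by omega
  have b4 : m4 ≤ 3 := by omega
  interval_cases m0 <;> interval_cases m2 <;> interval_cases m4 <;>
    first
    | (exfalso; omega)
    | (interval_cases m1 <;> interval_cases m3 <;>
        first
        | (exfalso; omega)
        | simp)

private lemma V5a_c3 (m : ZMod 5 → ℕ) (hm : Good5 m)
    (h : (6 : ℤ) * m 0 + 8 * m 1 + 8 * m 2 + 8 * m 3 + 5 * m 4 < 24) :
      (m 0 = 0 ∧ m 1 = 0 ∧ m 2 = 0 ∧ m 3 = 0 ∧ m 4 = 4) ∨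
      (m 0 = 0 ∧ m 1 = 0 ∧ m 2 = 0 ∧ m 3 = 1 ∧ m 4 = 2) ∨
      (m 0 = 1 ∧ m 1 = 0 ∧ m 2 = 1 ∧ m 3 = 0 ∧ m 4 = 1) ∨
      (m 0 = 2 ∧ m 1 = 0 ∧ m 2 = 0 ∧ m 3 = 0 ∧ m 4 = 2) ∨
      (m 0 = 2 ∧ m 1 = 1 ∧ m 2 = 0 ∧ m 3 = 0 ∧ m 4 = 0) := by
  obtain ⟨h1, h2, h3, h4, h5⟩ := hm
  generalize m 0 = m0 at *
  generalize m 1 = m1 at *
  generalize m 2 = m2 at *
  generalize m 3 = m3 at *
  generalize m 4 = m4 at *
  have b0 : m0 ≤ 3 := by omega
  have b1 : m1 ≤ 2 := by omega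
  have b2 : m2 ≤ 2 := by omega
  have b3 : m3 ≤ 2 := by omega
  have b4 : m4 ≤ 4 := by omega
  interval_cases m0 <;> interval_cases m2 <;> interval_cases m4 <;>
    first
    | (exfalso; omega)
    | (interval_cases m1 <;> interval_cases m3 <;>
        first
        | (exfalso; omega)
        | simp)

private lemma V5a_c4 (m : ZMod 5 → ℕ) (hm : Good5 m)
    (h : (5 : ℤ) * m 0 + 8 * m 1 + 8 * m 2 + 8 * m 3 + 6 * m 4 < 24) :
      (m 0 = 0 ∧ m 1 = 0 ∧ m 2 = 0 ∧ m 3 = 1 ∧ m 4 = 2) ∨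
      (m 0 = 1 ∧ m 1 = 0 ∧ m 2 = 1 ∧ m 3 = 0 ∧ m 4 = 1) ∨
      (m 0 = 2 ∧ m 1 = 0 ∧ m 2 = 0 ∧ m 3 = 0 ∧ m 4 = 2) ∨
      (m 0 = 2 ∧ m 1 = 1 ∧ m 2 = 0 ∧ m 3 = 0 ∧ m 4 = 0) ∨
      (m 0 = 4 ∧ m 1 = 0 ∧ m 2 = 0 ∧ m 3 = 0 ∧ m 4 = 0) := by
  obtain ⟨h1, h2, h3, h4, h5⟩ := hm
  generalize m 0 = m0 at *
  generalize m 1 = m1 at *
  generalize m 2 = m2 at *
  generalize m 3 = m3 at *
  generalize m 4 = m4 at *
  have b0 : m0 ≤ 4 := by omega
  have b1 : m1 ≤ 2 := by omega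
  have b2 : m2 ≤ 2 := by omega
  have b3 : m3 ≤ 2 := by omega
  have b4 : m4 ≤ 3 := by omega
  interval_cases m0 <;> interval_cases m2 <;> interval_cases m4 <;>
    first
    | (exfalso; omega)
    | (interval_cases m1 <;> interval_cases m3 <;>
        first
        | (exfalso; omega)
        | simp)

private lemma V5a_c5 (m : ZMod 5 → ℕ) (hm : Good5 m)
    (h : (14 : ℤ) * m 0 + 14 * m 1 + 14 * m 2 + 14 * m 3 + 6 * m 4 < 42) :
      (m 0 = 0 ∧ m 1 = 0 ∧ m 2 = 0 ∧ m 3 = 0 ∧ m 4 = 4) ∨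
      (m 0 = 0 ∧ m 1 = 0 ∧ m 2 = 0 ∧ m 3 = 0 ∧ m 4 = 6) ∨
      (m 0 = 0 ∧ m 1 = 0 ∧ m 2 = 0 ∧ m 3 = 1 ∧ m 4 = 2) ∨
      (m 0 = 0 ∧ m 1 = 0 ∧ m 2 = 0 ∧ m 3 = 1 ∧ m 4 = 4) ∨
      (m 0 = 0 ∧ m 1 = 0 ∧ m 2 = 0 ∧ m 3 = 2 ∧ m 4 = 2) ∨
      (m 0 = 0 ∧ m 1 = 0 ∧ m 2 = 2 ∧ m 3 = 0 ∧ m 4 = 2) ∨
      (m 0 = 1 ∧ m 1 = 0 ∧ m 2 = 1 ∧ m 3 = 0 ∧ m 4 = 1) ∨
      (m 0 = 2 ∧ m 1 = 0 ∧ m 2 = 0 ∧ m 3 = 0 ∧ m 4 = 2) := by
  obtain ⟨h1, h2, h3, h4, h5⟩ := hm
  generalize m 0 = m0 at *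
  generalize m 1 = m1 at *
  generalize m 2 = m2 at *
  generalize m 3 = m3 at *
  generalize m 4 = m4 at *
  have b0 : m0 ≤ 2 := by omega
  have b1 : m1 ≤ 2 := by omega
  have b2 : m2 ≤ 2 := by omega
  have b3 : m3 ≤ 2 := by omega
  have b4 : m4 ≤ 6 := by omega
  interval_cases m0 <;> interval_cases m2 <;> interval_cases m4 <;>
    first
    | (exfalso; omega)
    | (interval_cases m1 <;> interval_cases m3 <;>
        first
        | (exfalso; omega)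
        | simp)

private lemma V5a_c6 (m : ZMod 5 → ℕ) (hm : Good5 m)
    (h : (24 : ℤ) * m 0 + 16 * m 1 + 24 * m 2 + 16 * m 3 + 15 * m 4 < 64) :
      (m 0 = 0 ∧ m 1 = 0 ∧ m 2 = 0 ∧ m 3 = 0 ∧ m 4 = 4) ∨
      (m 0 = 0 ∧ m 1 = 0 ∧ m 2 = 0 ∧ m 3 = 1 ∧ m 4 = 2) ∨
      (m 0 = 0 ∧ m 1 = 0 ∧ m 2 = 0 ∧ m 3 = 2 ∧ m 4 = 2) ∨
      (m 0 = 0 ∧ m 1 = 0 ∧ m 2 = 0 ∧ m 3 = 3 ∧ m 4 = 0) ∨
      (m 0 = 0 ∧ m 1 = 3 ∧ m 2 = 0 ∧ m 3 = 0 ∧ m 4 = 0) ∨
      (m 0 = 1 ∧ m 1 = 0 ∧ m 2 = 1 ∧ m 3 = 0 ∧ m 4 = 1) := by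
  obtain ⟨h1, h2, h3, h4, h5⟩ := hm
  generalize m 0 = m0 at *
  generalize m 1 = m1 at *
  generalize m 2 = m2 at *
  generalize m 3 = m3 at *
  generalize m 4 = m4 at *
  have b0 : m0 ≤ 2 := by omega
  have b1 : m1 ≤ 3 := by omega
  have b2 : m2 ≤ 2 := by omega
  have b3 : m3 ≤ 3 := by omega
  have b4 : m4 ≤ 4 := by omega
  interval_cases m0 <;> interval_cases m2 <;> interval_cases m4 <;>
    first
    | (exfalso; omega)
    | (interval_cases m1 <;> interval_cases m3 <;>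
        first
        | (exfalso; omega)
        | simp)

private lemma V5a_c7 (m : ZMod 5 → ℕ) (hm : Good5 m)
    (h : (9 : ℤ) * m 0 + 6 * m 1 + 6 * m 2 + 8 * m 3 + 6 * m 4 < 24) :
      (m 0 = 0 ∧ m 1 = 0 ∧ m 2 = 0 ∧ m 3 = 1 ∧ m 4 = 2) ∨
      (m 0 = 0 ∧ m 1 = 0 ∧ m 2 = 2 ∧ m 3 = 1 ∧ m 4 = 0) ∨
      (m 0 = 0 ∧ m 1 = 1 ∧ m 2 = 2 ∧ m 3 = 0 ∧ m 4 = 0) ∨
      (m 0 = 0 ∧ m 1 = 3 ∧ m 2 = 0 ∧ m 3 = 0 ∧ m 4 = 0) ∨
      (m 0 = 1 ∧ m 1 = 0 ∧ m 2 = 1 ∧ m 3 = 0 ∧ m 4 = 1) := by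
  obtain ⟨h1, h2, h3, h4, h5⟩ := hm
  generalize m 0 = m0 at *
  generalize m 1 = m1 at *
  generalize m 2 = m2 at *
  generalize m 3 = m3 at *
  generalize m 4 = m4 at *
  have b0 : m0 ≤ 2 := by omega
  have b1 : m1 ≤ 3 := by omega
  have b2 : m2 ≤ 3 := by omega
  have b3 : m3 ≤ 2 := by omega
  have b4 : m4 ≤ 3 := by omega
  interval_cases m0 <;> interval_cases m2 <;> interval_cases m4 <;>
    first
    | (exfalso; omega)
    | (interval_cases m1 <;> interval_cases m3 <;>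
        first
        | (exfalso; omega)
        | simp)

private lemma V5a_c8 (m : ZMod 5 → ℕ) (hm : Good5 m)
    (h : (8 : ℤ) * m 0 + 8 * m 1 + 6 * m 2 + 6 * m 3 + 6 * m 4 < 24) :
      (m 0 = 0 ∧ m 1 = 0 ∧ m 2 = 0 ∧ m 3 = 1 ∧ m 4 = 2) ∨
      (m 0 = 0 ∧ m 1 = 0 ∧ m 2 = 0 ∧ m 3 = 3 ∧ m 4 = 0) ∨
      (m 0 = 0 ∧ m 1 = 0 ∧ m 2 = 2 ∧ m 3 = 1 ∧ m 4 = 0) ∨
      (m 0 = 0 ∧ m 1 = 1 ∧ m 2 = 2 ∧ m 3 = 0 ∧ m 4 = 0) ∨
      (m 0 = 1 ∧ m 1 = 0 ∧ m 2 = 1 ∧ m 3 = 0 ∧ m 4 = 1) := by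
  obtain ⟨h1, h2, h3, h4, h5⟩ := hm
  generalize m 0 = m0 at *
  generalize m 1 = m1 at *
  generalize m 2 = m2 at *
  generalize m 3 = m3 at *
  generalize m 4 = m4 at *
  have b0 : m0 ≤ 2 := by omega
  have b1 : m1 ≤ 2 := by omega
  have b2 : m2 ≤ 3 := by omega
  have b3 : m3 ≤ 3 := by omega
  have b4 : m4 ≤ 3 := by omega
  interval_cases m0 <;> interval_cases m2 <;> interval_cases m4 <;>
    first
    | (exfalso; omega)
    | (interval_cases m1 <;> interval_cases m3 <;>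
        first
        | (exfalso; omega)
        | simp)

theorem V5_arith (a : ZMod 5 → ℝ) (hs : a 0 + a 1 + a 2 + a 3 + a 4 = 3 * Real.pi)
    (H : ∀ (v : ZMod 5 → ℤ) (L : ℤ), 2 * (v 0 + v 1 + v 2 + v 3 + v 4) < 3 * L →
      ∃ m : ZMod 5 → ℕ, Good5 m ∧
        (m 0 : ℝ) * a 0 + m 1 * a 1 + m 2 * a 2 + m 3 * a 3 + m 4 * a 4 = 2 * Real.pi ∧
        v 0 * m 0 + v 1 * m 1 + v 2 * m 2 + v 3 * m 3 + v 4 * m 4 < L)
    (H2 : a 1 = 2 * Real.pi / 3 → a 3 = 2 * Real.pi / 3 → a 0 = 2 * Real.pi / 3 →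
      a 2 = 2 * Real.pi / 3 ∨ ∃ i, a i + a (i + 1) = Real.pi)
    (hf : a 3 + 2 * a 4 ≠ 2 * Real.pi) :
    (∃ i, a i + a (i + 1) = Real.pi) ∨ (a 1 = 2 * Real.pi / 3 ∧ a 3 = Real.pi / 3) ∨
      (a 1 = Real.pi / 2 ∧ a 3 = Real.pi / 2) ∨ (a 1 = Real.pi / 3 ∧ a 3 = 2 * Real.pi / 3) := by
  have e34 : a 3 + a 4 = Real.pi → ∃ i, a i + a (i + 1) = Real.pi := fun h => ⟨3, h⟩
  have e40 : a 0 + a 4 = Real.pi → ∃ i, a i + a (i + 1) = Real.pi := fun h => ⟨4, by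
    rw [add_comm]
    exact h⟩
  have key : ∀ (v0 v1 v2 v3 v4 L : ℤ), 2 * (v0 + v1 + v2 + v3 + v4) < 3 * L →
      ∃ m : ZMod 5 → ℕ, Good5 m ∧
        (m 0 : ℝ) * a 0 + m 1 * a 1 + m 2 * a 2 + m 3 * a 3 + m 4 * a 4 = 2 * Real.pi ∧
        v0 * m 0 + v1 * m 1 + v2 * m 2 + v3 * m 3 + v4 * m 4 < L :=
    fun v0 v1 v2 v3 v4 L h => H (![v0, v1, v2, v3, v4] : Fin 5 → ℤ) L h
  by_cases hg : a 0 + a 2 + a 4 = 2 * Real.pi
  · by_cases ha : a 1 = 2 * Real.pi / 3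
    · right
      left
      exact ⟨ha, by linarith⟩
    by_cases hb : a 3 = 2 * Real.pi / 3
    · right
      right
      right
      exact ⟨by linarith, hb⟩
    by_cases he : a 1 + 2 * a 0 = 2 * Real.pi
    · by_cases hc : a 1 + 2 * a 2 = 2 * Real.pi
      · left
        exact e34 (by linarith)
      · right
        right
        left
        obtain ⟨m, hm, hw, hl⟩ := key 61 38 60 40 40 160 (by norm_num)
        rcases V5a_c2 m hm hl with ⟨h0, h1, h2, h3, h4⟩ | ⟨h0, h1, h2, h3, h4⟩ | ⟨h0, h1, h2, h3, h4⟩ | ⟨h0, h1, h2, h3, h4⟩ | ⟨h0, h1, h2, h3, h4⟩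
        · rw [h0, h1, h2, h3, h4] at hw
          push_cast at hw
          exact absurd (by linarith) hf
        · rw [h0, h1, h2, h3, h4] at hw
          push_cast at hw
          exact absurd (by linarith) hb
        · rw [h0, h1, h2, h3, h4] at hw
          push_cast at hw
          exact absurd (by linarith) hc
        · rw [h0, h1, h2, h3, h4] at hw
          push_cast at hw
          exact absurd (by linarith) ha
        · rw [h0, h1, h2, h3, h4] at hw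
          push_cast at hw
          exact ⟨by linarith, by linarith⟩
    · right
      right
      left
      obtain ⟨m, hm, hw, hl⟩ := key 12 9 16 10 12 40 (by norm_num)
      rcases V5a_c1 m hm hl with ⟨h0, h1, h2, h3, h4⟩ | ⟨h0, h1, h2, h3, h4⟩ | ⟨h0, h1, h2, h3, h4⟩ | ⟨h0, h1, h2, h3, h4⟩ | ⟨h0, h1, h2, h3, h4⟩
      · rw [h0, h1, h2, h3, h4] at hw
        push_cast at hw
        exact absurd (by linarith) hf
      · rw [h0, h1, h2, h3, h4] at hw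
        push_cast at hw
        exact absurd (by linarith) hb
      · rw [h0, h1, h2, h3, h4] at hw
        push_cast at hw
        exact absurd (by linarith) ha
      · rw [h0, h1, h2, h3, h4] at hw
        push_cast at hw
        exact ⟨by linarith, by linarith⟩
      · rw [h0, h1, h2, h3, h4] at hw
        push_cast at hw
        exact absurd (by linarith) he
  left
  by_cases he : a 1 + 2 * a 0 = 2 * Real.pi
  · by_cases hc : a 1 + 2 * a 2 = 2 * Real.pi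
    · exact e34 (by linarith)
    by_cases hd : a 3 + 2 * a 2 = 2 * Real.pi
    · by_cases hab : a 1 = 2 * Real.pi / 3 ∨ a 3 = 2 * Real.pi / 3
      · obtain ⟨m, hm, hw, hl⟩ := key 14 14 14 14 6 42 (by norm_num)
        rcases V5a_c5 m hm hl with ⟨h0, h1, h2, h3, h4⟩ | ⟨h0, h1, h2, h3, h4⟩ | ⟨h0, h1, h2, h3, h4⟩ | ⟨h0, h1, h2, h3, h4⟩ | ⟨h0, h1, h2, h3, h4⟩ | ⟨h0, h1, h2, h3, h4⟩ | ⟨h0, h1, h2, h3, h4⟩ | ⟨h0, h1, h2, h3, h4⟩
        · rw [h0, h1, h2, h3, h4] at hw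
          push_cast at hw
          rcases hab with hab | hab
          · exact absurd (by linarith) hg
          · exact absurd (by linarith) hg
        · rw [h0, h1, h2, h3, h4] at hw
          push_cast at hw
          rcases hab with hab | hab
          · exact e34 (by linarith)
          · exact e34 (by linarith)
        · rw [h0, h1, h2, h3, h4] at hw
          push_cast at hw
          exact absurd (by linarith) hf
        · rw [h0, h1, h2, h3, h4] at hw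
          push_cast at hw
          rcases hab with hab | hab
          · exact e34 (by linarith)
          · exact e34 (by linarith)
        · rw [h0, h1, h2, h3, h4] at hw
          push_cast at hw
          exact e34 (by linarith)
        · rw [h0, h1, h2, h3, h4] at hw
          push_cast at hw
          rcases hab with hab | hab
          · exact e34 (by linarith)
          · exact e34 (by linarith)
        · rw [h0, h1, h2, h3, h4] at hw
          push_cast at hw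
          exact absurd (by linarith) hg
        · rw [h0, h1, h2, h3, h4] at hw
          push_cast at hw
          exact e40 (by linarith)
      · have ha : a 1 ≠ 2 * Real.pi / 3 := fun h => hab (Or.inl h)
        have hb : a 3 ≠ 2 * Real.pi / 3 := fun h => hab (Or.inr h)
        obtain ⟨m, hm, hw, hl⟩ := key 24 16 24 16 15 64 (by norm_num)
        rcases V5a_c6 m hm hl with ⟨h0, h1, h2, h3, h4⟩ | ⟨h0, h1, h2, h3, h4⟩ | ⟨h0, h1, h2, h3, h4⟩ | ⟨h0, h1, h2, h3, h4⟩ | ⟨h0, h1, h2, h3, h4⟩ | ⟨h0, h1, h2, h3, h4⟩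
        · rw [h0, h1, h2, h3, h4] at hw
          push_cast at hw
          exact absurd (by linarith) hg
        · rw [h0, h1, h2, h3, h4] at hw
          push_cast at hw
          exact absurd (by linarith) hf
        · rw [h0, h1, h2, h3, h4] at hw
          push_cast at hw
          exact e34 (by linarith)
        · rw [h0, h1, h2, h3, h4] at hw
          push_cast at hw
          exact absurd (by linarith) hb
        · rw [h0, h1, h2, h3, h4] at hw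
          push_cast at hw
          exact absurd (by linarith) ha
        · rw [h0, h1, h2, h3, h4] at hw
          push_cast at hw
          exact absurd (by linarith) hg
    · by_cases ha : a 1 = 2 * Real.pi / 3
      · by_cases hb : a 3 = 2 * Real.pi / 3
        · rcases H2 ha hb (by linarith) with h | h
          · exact absurd (by linarith) hd
          · exact h
        · obtain ⟨m, hm, hw, hl⟩ := key 8 8 6 6 6 24 (by norm_num)
          rcases V5a_c8 m hm hl with ⟨h0, h1, h2, h3, h4⟩ | ⟨h0, h1, h2, h3, h4⟩ | ⟨h0, h1, h2, h3, h4⟩ | ⟨h0, h1, h2, h3, h4⟩ | ⟨h0, h1, h2, h3, h4⟩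
          · rw [h0, h1, h2, h3, h4] at hw
            push_cast at hw
            exact absurd (by linarith) hf
          · rw [h0, h1, h2, h3, h4] at hw
            push_cast at hw
            exact absurd (by linarith) hb
          · rw [h0, h1, h2, h3, h4] at hw
            push_cast at hw
            exact absurd (by linarith) hd
          · rw [h0, h1, h2, h3, h4] at hw
            push_cast at hw
            exact absurd (by linarith) hc
          · rw [h0, h1, h2, h3, h4] at hw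
            push_cast at hw
            exact absurd (by linarith) hg
      · obtain ⟨m, hm, hw, hl⟩ := key 9 6 6 8 6 24 (by norm_num)
        rcases V5a_c7 m hm hl with ⟨h0, h1, h2, h3, h4⟩ | ⟨h0, h1, h2, h3, h4⟩ | ⟨h0, h1, h2, h3, h4⟩ | ⟨h0, h1, h2, h3, h4⟩ | ⟨h0, h1, h2, h3, h4⟩
        · rw [h0, h1, h2, h3, h4] at hw
          push_cast at hw
          exact absurd (by linarith) hf
        · rw [h0, h1, h2, h3, h4] at hw
          push_cast at hw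
          exact absurd (by linarith) hd
        · rw [h0, h1, h2, h3, h4] at hw
          push_cast at hw
          exact absurd (by linarith) hc
        · rw [h0, h1, h2, h3, h4] at hw
          push_cast at hw
          exact absurd (by linarith) ha
        · rw [h0, h1, h2, h3, h4] at hw
          push_cast at hw
          exact absurd (by linarith) hg
  · have h40 : a 4 = Real.pi / 2 ∨ a 0 + a 4 = Real.pi := by
      obtain ⟨m, hm, hw, hl⟩ := key 6 8 8 8 5 24 (by norm_num)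
      rcases V5a_c3 m hm hl with ⟨h0, h1, h2, h3, h4⟩ | ⟨h0, h1, h2, h3, h4⟩ | ⟨h0, h1, h2, h3, h4⟩ | ⟨h0, h1, h2, h3, h4⟩ | ⟨h0, h1, h2, h3, h4⟩
      · rw [h0, h1, h2, h3, h4] at hw
        push_cast at hw
        exact Or.inl (by linarith)
      · rw [h0, h1, h2, h3, h4] at hw
        push_cast at hw
        exact absurd (by linarith) hf
      · rw [h0, h1, h2, h3, h4] at hw
        push_cast at hw
        exact absurd (by linarith) hg
      · rw [h0, h1, h2, h3, h4] at hw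
        push_cast at hw
        exact Or.inr (by linarith)
      · rw [h0, h1, h2, h3, h4] at hw
        push_cast at hw
        exact absurd (by linarith) he
    rcases h40 with h40 | h40
    · obtain ⟨m, hm, hw, hl⟩ := key 5 8 8 8 6 24 (by norm_num)
      rcases V5a_c4 m hm hl with ⟨h0, h1, h2, h3, h4⟩ | ⟨h0, h1, h2, h3, h4⟩ | ⟨h0, h1, h2, h3, h4⟩ | ⟨h0, h1, h2, h3, h4⟩ | ⟨h0, h1, h2, h3, h4⟩
      · rw [h0, h1, h2, h3, h4] at hw
        push_cast at hw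
        exact absurd (by linarith) hf
      · rw [h0, h1, h2, h3, h4] at hw
        push_cast at hw
        exact absurd (by linarith) hg
      · rw [h0, h1, h2, h3, h4] at hw
        push_cast at hw
        exact e40 (by linarith)
      · rw [h0, h1, h2, h3, h4] at hw
        push_cast at hw
        exact absurd (by linarith) he
      · rw [h0, h1, h2, h3, h4] at hw
        push_cast at hw
        exact e40 (by linarith)
    · exact e40 h40

end Pool.Agent.Lib_MP_fa6e45
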