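import Pool.Agent.Lib_MP_fa6e45.V2

/-!
PIECE V5b (about 200 lines): the numbers of corners in a star for the pattern XXYYE satisfy `Good5`.
Let `en k`, `ex k` be the entry and exit sides of the k-th corner of the star; `l (en (k+1)) = l (ex k)` (cyclically,
`len`), so for every class the number of `k` with `ex k` in the class equals the number of `k` with `en k` in the
class; so the number of ends in the class (`2 *` this number) is even: class E: `m 0 + m 4`, class X:
`m 0 + 2 m 1 + m 2`. Connectivity: if a corner 1 (both sides in X) and a corner which is not 1 occur then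
somewhere a corner 1 is followed by a corner different from 1 with a side in X: 0 or 2.
-/

open Set

namespace Pool.Agent.Lib_MP_fa6e45

variable {ι : Type}

private theorem V5b_shift {n : ℕ} [NeZero n] {a l : ZMod n → ℝ} (K : Comb n a l ι)
    (c : ι × ZMod n) (g : ι × ZMod n → ℕ) :
    ∑ k ∈ Finset.range (K.deg c), g (K.nx^[k + 1] c) =
      ∑ k ∈ Finset.range (K.deg c), g (K.nx^[k] c) := by
  have h1 := Finset.sum_range_succ (fun k => g (K.nx^[k] c)) (K.deg c)
  have h2 := Finset.sum_range_succ' (fun k => g (K.nx^[k] c)) (K.deg c)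
  have h3 : K.nx^[K.deg c] c = c := Function.iterate_minimalPeriod
  simp only [h3, Function.iterate_zero, id_eq] at h1 h2
  omega

private theorem V5b_cnt {n : ℕ} [NeZero n] {a l : ZMod n → ℝ} (K : Comb n a l ι)
    (c : ι × ZMod n) (i : ZMod n) :
    K.cnt c i = ∑ k ∈ Finset.range (K.deg c), (if (K.nx^[k] c).2 = i then 1 else 0) := by
  unfold Comb.cnt
  rw [Finset.card_filter]

/-- the number of ends in a class is even -/
private theorem V5b_even {a l : ZMod 5 → ℝ} (K : Comb 5 a l ι)
    (hl : ∀ i j, l i = l j → canon5 0 i = canon5 0 j) (c : ι × ZMod 5) (C : ℕ)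
    (h : ZMod 5 → ℕ)
    (hh : ∀ (b : Bool) (i : ZMod 5), (if canon5 0 (if b then i - 1 else i) = C then 1 else 0) +
      (if canon5 0 (if b then i else i - 1) = C then 1 else 0) = h i) :
    Even (∑ k ∈ Finset.range (K.deg c), h (K.nx^[k] c).2) := by
  set E : ι × ZMod 5 → ℕ := fun y => if canon5 0 (enS K.rf y) = C then 1 else 0 with hE
  set X : ι × ZMod 5 → ℕ := fun y => if canon5 0 (exS K.rf y) = C then 1 else 0 with hX
  have h1 : ∀ y : ι × ZMod 5, E (K.nx y) = X y := by
    intro y
    simp only [hE, hX]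
    rw [hl _ _ (K.len y)]
  have h2 : ∀ y : ι × ZMod 5, h y.2 = E y + X y := by
    intro y
    rw [← hh (K.rf y.1) y.2]
    rfl
  refine ⟨∑ k ∈ Finset.range (K.deg c), E (K.nx^[k] c), ?_⟩
  simp only [h2]
  rw [Finset.sum_add_distrib]
  congr 1
  rw [← V5b_shift K c E]
  refine Finset.sum_congr rfl fun k _ => ?_
  rw [Function.iterate_succ_apply', h1]

/-- if all neighbours of a corner `i` are corners `i` then the star consists of corners `i` -/
private theorem V5b_conn {a l : ZMod 5 → ℝ} (K : Comb 5 a l ι)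
    (c : ι × ZMod 5) (i : ZMod 5)
    (hi : 0 < K.cnt c i)
    (hs : ∀ k, (K.nx^[k] c).2 = i → (K.nx^[k + 1] c).2 = i) (j : ZMod 5) (hj : j ≠ i) :
    K.cnt c j = 0 := by
  have hd : 0 < K.deg c := K.deg_pos c
  have hp : K.nx^[K.deg c] c = c := Function.iterate_minimalPeriod
  obtain ⟨k0, hk0⟩ := Finset.card_pos.mp hi
  rw [Finset.mem_filter, Finset.mem_range] at hk0
  have h1 : ∀ k, (K.nx^[k0 + k] c).2 = i := by
    intro k
    induction k with
    | zero => exact hk0.2
    | succ k ih => exact hs _ ih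
  unfold Comb.cnt
  rw [Finset.card_eq_zero, Finset.filter_eq_empty_iff]
  intro k hk
  rw [Finset.mem_range] at hk
  have h2 := h1 (k + K.deg c - k0)
  have h3 : k0 + (k + K.deg c - k0) = k + K.deg c := by omega
  rw [h3, Function.iterate_add_apply, hp] at h2
  rw [h2]
  exact hj.symm

private theorem V5b_next {a l : ZMod 5 → ℝ} (K : Comb 5 a l ι)
    (hl : ∀ i j, l i = l j → canon5 0 i = canon5 0 j) (y : ι × ZMod 5) (i : ZMod 5)
    (hy : y.2 = i) (C : ℕ) (hi : ∀ b : Bool, canon5 0 (if b then i else i - 1) = C)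
    (S : ZMod 5 → Prop)
    (hS : ∀ (b : Bool) (j : ZMod 5), canon5 0 (if b then j - 1 else j) = C → S j) :
    S (K.nx y).2 := by
  apply hS (K.rf (K.nx y).1)
  have h1 := hl _ _ (K.len y)
  have h2 := hi (K.rf y.1)
  rw [← hy] at h2
  have h3 : canon5 0 (exS K.rf y) = C := h2
  rw [← h3, ← h1]
  rfl

theorem V5_good {a l : ZMod 5 → ℝ} (K : CombA 5 a l ι) (h3 : ∀ c, 3 ≤ K.toComb.deg c)
    (hl : ∀ i j, l i = l j → canon5 0 i = canon5 0 j) (c : ι × ZMod 5) :
    Good5 (K.toComb.cnt c) := by
  have hsum : K.toComb.cnt c 0 + K.toComb.cnt c 1 + K.toComb.cnt c 2 + K.toComb.cnt c 3 +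
      K.toComb.cnt c 4 = K.toComb.deg c := by
    simp only [V5b_cnt]
    rw [← Finset.sum_add_distrib, ← Finset.sum_add_distrib, ← Finset.sum_add_distrib,
      ← Finset.sum_add_distrib]
    have h1 : ∀ i : ZMod 5, (if i = 0 then 1 else 0) + (if i = 1 then 1 else 0) +
        (if i = 2 then 1 else 0) + (if i = 3 then 1 else 0) + (if i = 4 then 1 else 0) = 1 := by
      decide
    simp only [h1]
    simp
  have hE : Even (K.toComb.cnt c 0 + K.toComb.cnt c 4) := by
    have := V5b_even K.toComb hl c 2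
      (fun i => (if i = 0 then 1 else 0) + (if i = 4 then 1 else 0)) (by decide)
    simp only [V5b_cnt]
    rwa [← Finset.sum_add_distrib]
  have hX : Even (K.toComb.cnt c 0 + 2 * K.toComb.cnt c 1 + K.toComb.cnt c 2) := by
    have := V5b_even K.toComb hl c 0
      (fun i => (if i = 0 then 1 else 0) + 2 * (if i = 1 then 1 else 0) +
        (if i = 2 then 1 else 0)) (by decide)
    simp only [V5b_cnt]
    rwa [Finset.mul_sum, ← Finset.sum_add_distrib, ← Finset.sum_add_distrib]
  have hzero : ∀ i : ZMod 5, K.toComb.cnt c i = 0 →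
      ∀ k, (K.nx^[k] c).2 ≠ i := by
    intro i hi k hk
    have hd : 0 < K.toComb.deg c := K.deg_pos c
    have hmod : K.nx^[k % K.toComb.deg c] c = K.nx^[k] c :=
      Function.iterate_mod_minimalPeriod_eq
    unfold Comb.cnt at hi
    rw [Finset.card_eq_zero, Finset.filter_eq_empty_iff] at hi
    refine hi (x := k % K.toComb.deg c) (Finset.mem_range.mpr (Nat.mod_lt _ hd)) ?_
    rw [hmod]
    exact hk
  rw [Nat.even_iff] at hE hX
  refine ⟨by omega, by omega, ?_, ?_, ?_⟩
  · intro h1
    by_cases h02 : 0 < K.toComb.cnt c 0 + K.toComb.cnt c 2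
    · exact Or.inl h02
    right
    have z0 := hzero 0 (by omega)
    have z2 := hzero 2 (by omega)
    have hs : ∀ k, (K.nx^[k] c).2 = 1 → (K.nx^[k + 1] c).2 = 1 := by
      intro k hk
      have h4 := V5b_next K.toComb hl (K.nx^[k] c) 1 hk 0 (by decide)
        (fun j => j = 0 ∨ j = 1 ∨ j = 2) (by decide)
      rw [show K.nx (K.nx^[k] c) = K.nx^[k + 1] c from
        (Function.iterate_succ_apply' _ _ _).symm] at h4
      rcases h4 with h4 | h4 | h4
      · exact absurd h4 (z0 _)
      · exact h4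
      · exact absurd h4 (z2 _)
    exact ⟨V5b_conn K.toComb c 1 h1 hs 3 (by decide), V5b_conn K.toComb c 1 h1 hs 4 (by decide)⟩
  · intro h1
    by_cases h24 : 0 < K.toComb.cnt c 2 + K.toComb.cnt c 4
    · exact Or.inl h24
    right
    have z2 := hzero 2 (by omega)
    have z4 := hzero 4 (by omega)
    have hs : ∀ k, (K.nx^[k] c).2 = 3 → (K.nx^[k + 1] c).2 = 3 := by
      intro k hk
      have h4 := V5b_next K.toComb hl (K.nx^[k] c) 3 hk 1 (by decide)
        (fun j => j = 2 ∨ j = 3 ∨ j = 4) (by decide)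
      rw [show K.nx (K.nx^[k] c) = K.nx^[k + 1] c from
        (Function.iterate_succ_apply' _ _ _).symm] at h4
      rcases h4 with h4 | h4 | h4
      · exact absurd h4 (z2 _)
      · exact h4
      · exact absurd h4 (z4 _)
    exact ⟨V5b_conn K.toComb c 3 h1 hs 0 (by decide), V5b_conn K.toComb c 3 h1 hs 1 (by decide)⟩
  · have := h3 c
    omega

theorem V5_sum {a l : ZMod 5 → ℝ} (K : CombA 5 a l ι) (c : ι × ZMod 5) :
    (K.toComb.cnt c 0 : ℝ) * a 0 + K.toComb.cnt c 1 * a 1 + K.toComb.cnt c 2 * a 2 +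
      K.toComb.cnt c 3 * a 3 + K.toComb.cnt c 4 * a 4 = 2 * Real.pi := by
  rw [← K.sum c]
  simp only [V5b_cnt]
  push_cast
  rw [Finset.sum_mul, Finset.sum_mul, Finset.sum_mul, Finset.sum_mul, Finset.sum_mul,
    ← Finset.sum_add_distrib, ← Finset.sum_add_distrib, ← Finset.sum_add_distrib,
    ← Finset.sum_add_distrib]
  refine Finset.sum_congr rfl fun k _ => ?_
  generalize (K.nx^[k] c).2 = i
  have h5 : ∀ i : ZMod 5, i = 0 ∨ i = 1 ∨ i = 2 ∨ i = 3 ∨ i = 4 := by decide
  rcases h5 i with h | h | h | h | h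
  · subst h
    rw [if_pos rfl, if_neg (by decide), if_neg (by decide), if_neg (by decide),
      if_neg (by decide)]
    ring
  · subst h
    rw [if_neg (by decide), if_pos rfl, if_neg (by decide), if_neg (by decide),
      if_neg (by decide)]
    ring
  · subst h
    rw [if_neg (by decide), if_neg (by decide), if_pos rfl, if_neg (by decide),
      if_neg (by decide)]
    ring
  · subst h
    rw [if_neg (by decide), if_neg (by decide), if_neg (by decide), if_pos rfl,
      if_neg (by decide)]
    ring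
  · subst h
    rw [if_neg (by decide), if_neg (by decide), if_neg (by decide), if_neg (by decide),
      if_pos rfl]
    ring

end Pool.Agent.Lib_MP_fa6e45
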