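import Pool.Agent.Lib_MP_fa6e45.V5b

/-!
PIECE V5c (about 250 lines): the two certificates with crossing terms (pattern XXYYE).
`H2`: assume a1 = a3 = a0 = 2π/3 (so a2 + a4 = π). Use `CombA.lp` with v = (15,16,12,16,12), L = 48 (2 * 71 < 3 * 48) and
`A (0, true) (1, false) = 2, A (1, false) (0, true) = -2, A (0, false) (1, true) = -2, A (1, true) (0, false) = 2`, all
other values 0. (Checked by a program for degree ≤ 6:) the only closed walks with value `< 48` and at least three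
corners have the corners {0,2,4} (39), {1,2,2} (38), {2,2,3} (40), {3,4,4} (40). Degree 3 and 4: `decide +kernel` over
flagged closed walks; degree ≥ 5: give one half of every crossing value to each of the two corners, then every
corner has value ≥ 10 (a crossing ±2 needs a corner 0, 1 or 2), so the sum is ≥ 50. The four stars: {0,2,4}
contradicts a2 + a4 = π; {1,2,2}, {2,2,3} give a2 = 2π/3; {3,4,4} gives a4 = 2π/3, so a2 = π/3, a1 + a2 = π.
`H2'`: the mirror image: v = (12,16,12,16,15), `A (3, false) (2, true) = 2, A (3, true) (2, false) = -2` (and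
antisymmetric); the stars < 48 are {0,0,1}, {0,2,4}, {1,2,2}, {2,2,3}.
-/

open Set

namespace Pool.Agent.Lib_MP_fa6e45

variable {ι : Type}

/-- entry side with flag -/
private def V5cEn (x : ZMod 5 × Bool) : ZMod 5 × Bool := (if x.2 then x.1 - 1 else x.1, x.2)

/-- exit side with flag -/
private def V5cEx (x : ZMod 5 × Bool) : ZMod 5 × Bool := (if x.2 then x.1 else x.1 - 1, x.2)

/-- possible successor -/
private def V5cSt (x y : ZMod 5 × Bool) : Prop := canon5 0 (V5cEx x).1 = canon5 0 (V5cEn y).1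

private instance (x y : ZMod 5 × Bool) : Decidable (V5cSt x y) := by
  unfold V5cSt
  infer_instance

private def V5cVal3 (V : ZMod 5 → ℤ) (A : ZMod 5 × Bool → ZMod 5 × Bool → ℤ)
    (x y z : ZMod 5 × Bool) : ℤ :=
  V x.1 + A (V5cEx x) (V5cEn y) + (V y.1 + A (V5cEx y) (V5cEn z)) +
    (V z.1 + A (V5cEx z) (V5cEn x))

private def V5cVal4 (V : ZMod 5 → ℤ) (A : ZMod 5 × Bool → ZMod 5 × Bool → ℤ)
    (x y z w : ZMod 5 × Bool) : ℤ :=
  V x.1 + A (V5cEx x) (V5cEn y) + (V y.1 + A (V5cEx y) (V5cEn z)) +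
    (V z.1 + A (V5cEx z) (V5cEn w)) + (V w.1 + A (V5cEx w) (V5cEn x))

private theorem V5c_core {a l : ZMod 5 → ℝ} (K : CombA 5 a l ι) (h3 : ∀ c, 3 ≤ K.toComb.deg c)
    (hl : ∀ i j, l i = l j → canon5 0 i = canon5 0 j) (V : ZMod 5 → ℤ)
    (A : ZMod 5 × Bool → ZMod 5 × Bool → ℤ) (hA : ∀ x y, A y x = -A x y)
    (hV : 2 * ∑ i, V i < 144) (hmin : ∀ i, 12 ≤ V i) (hA2 : ∀ x y, -2 ≤ A x y)
    (h4 : ∀ x y, V5cSt x y → ∀ z, V5cSt y z → ∀ w, V5cSt z w → V5cSt w x →
      48 ≤ V5cVal4 V A x y z w) :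
    ∃ x y z : ZMod 5 × Bool, V5cSt x y ∧ V5cSt y z ∧ V5cSt z x ∧ V5cVal3 V A x y z < 48 ∧
      a x.1 + a y.1 + a z.1 = 2 * Real.pi := by
  classical
  have hlp := K.lp (fun i => (V i : ℝ)) (fun x y => (A x y : ℝ))
    (by intro x y; rw [hA]; push_cast; ring) 48 (by
      have h : ((2 * ∑ i, V i : ℤ) : ℝ) < ((144 : ℤ) : ℝ) := by exact_mod_cast hV
      push_cast at h ⊢
      linarith)
  obtain ⟨c, hc⟩ := hlp
  set fl : ι × ZMod 5 → ZMod 5 × Bool := fun c => (c.2, K.rf c.1) with hfl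
  have hst : ∀ c, V5cSt (fl c) (fl (K.nx c)) := by
    intro c
    have h := hl _ _ (K.len c)
    show canon5 0 _ = canon5 0 _
    exact h.symm
  have hterm : ∀ c, ((V c.2 : ℝ) + K.toComb.cross (fun x y => (A x y : ℝ)) c) =
      ((V (fl c).1 + A (V5cEx (fl c)) (V5cEn (fl (K.nx c))) : ℤ) : ℝ) := by
    intro c
    push_cast
    rfl
  have hc' : ∑ k ∈ Finset.range (K.toComb.deg c), (V (fl (K.nx^[k] c)).1 +
      A (V5cEx (fl (K.nx^[k] c))) (V5cEn (fl (K.nx (K.nx^[k] c))))) < 48 := by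
    have h : ((∑ k ∈ Finset.range (K.toComb.deg c), (V (fl (K.nx^[k] c)).1 +
        A (V5cEx (fl (K.nx^[k] c))) (V5cEn (fl (K.nx (K.nx^[k] c))))) : ℤ) : ℝ) < 48 := by
      rw [Int.cast_sum]
      refine lt_of_le_of_lt (le_of_eq ?_) hc
      exact Finset.sum_congr rfl fun k _ => (hterm _).symm
    exact_mod_cast h
  have hper : K.nx^[K.toComb.deg c] c = c := Function.iterate_minimalPeriod
  have hsum := K.sum c
  have hd : K.toComb.deg c = Function.minimalPeriod K.nx c := rfl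
  rw [← hd] at hsum
  rcases Nat.lt_or_ge (K.toComb.deg c) 5 with h5 | h5
  · have h3' := h3 c
    have h34 : K.toComb.deg c = 3 ∨ K.toComb.deg c = 4 := by omega
    rcases h34 with h | h
    · rw [h] at hc' hper hsum
      simp only [Finset.sum_range_succ, Finset.sum_range_zero, zero_add,
        Function.iterate_succ_apply', Function.iterate_zero_apply] at hc' hper hsum
      rw [hper] at hc'
      refine ⟨fl c, fl (K.nx c), fl (K.nx (K.nx c)), hst _, hst _, ?_, hc', hsum⟩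
      have := hst (K.nx (K.nx c))
      rw [hper] at this
      exact this
    · rw [h] at hc' hper
      simp only [Finset.sum_range_succ, Finset.sum_range_zero, zero_add,
        Function.iterate_succ_apply', Function.iterate_zero_apply] at hc' hper
      rw [hper] at hc'
      have h6 := hst (K.nx (K.nx (K.nx c)))
      rw [hper] at h6
      have h7 := h4 (fl c) (fl (K.nx c)) (hst _) (fl (K.nx (K.nx c))) (hst _)
        (fl (K.nx (K.nx (K.nx c)))) (hst _) h6
      exact absurd h7 (not_le.2 hc')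
  · exfalso
    have h6 : ∑ k ∈ Finset.range (K.toComb.deg c), (10 : ℤ) ≤
        ∑ k ∈ Finset.range (K.toComb.deg c), (V (fl (K.nx^[k] c)).1 +
          A (V5cEx (fl (K.nx^[k] c))) (V5cEn (fl (K.nx (K.nx^[k] c))))) := by
      refine Finset.sum_le_sum fun k _ => ?_
      have h7 := hmin (fl (K.nx^[k] c)).1
      have h8 := hA2 (V5cEx (fl (K.nx^[k] c))) (V5cEn (fl (K.nx (K.nx^[k] c))))
      linarith
    rw [Finset.sum_const, Finset.card_range, nsmul_eq_mul] at h6
    have h7 : (5 : ℤ) ≤ (K.toComb.deg c : ℤ) := by exact_mod_cast h5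
    linarith

private def V5cIs (x y z p q r : ZMod 5) : Prop :=
  ({x, y, z} : Multiset (ZMod 5)) = {p, q, r}

private instance (x y z p q r : ZMod 5) : Decidable (V5cIs x y z p q r) := by
  unfold V5cIs
  infer_instance

private theorem V5c_ms {a : ZMod 5 → ℝ} {x y z p q r : ZMod 5}
    (h : V5cIs x y z p q r) : a x + a y + a z = a p + a q + a r := by
  unfold V5cIs at h
  have h1 := congrArg (fun s => (s.map a).sum) h
  simp only [Multiset.insert_eq_cons, Multiset.map_cons, Multiset.map_singleton,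
    Multiset.sum_cons, Multiset.sum_singleton] at h1
  linarith

private theorem V5c_tot {a l : ZMod 5 → ℝ} (K : CombA 5 a l ι) :
    a 0 + a 1 + a 2 + a 3 + a 4 = 3 * Real.pi := by
  have h := K.a_sum
  have h1 : ∑ i, a i = a 0 + a 1 + a 2 + a 3 + a 4 := Fin.sum_univ_five (fun i : Fin 5 => a i)
  rw [h1] at h
  push_cast at h
  linarith

private def V5cV1 : ZMod 5 → ℤ := ![15, 16, 12, 16, 12]

private def V5cA1 (x y : ZMod 5 × Bool) : ℤ :=
  if x = (0, true) ∧ y = (1, false) then 2 else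
  if x = (1, false) ∧ y = (0, true) then -2 else
  if x = (0, false) ∧ y = (1, true) then -2 else
  if x = (1, true) ∧ y = (0, false) then 2 else 0

private def V5cV2 : ZMod 5 → ℤ := ![12, 16, 12, 16, 15]

private def V5cA2 (x y : ZMod 5 × Bool) : ℤ :=
  if x = (3, false) ∧ y = (2, true) then 2 else
  if x = (2, true) ∧ y = (3, false) then -2 else
  if x = (3, true) ∧ y = (2, false) then -2 else
  if x = (2, false) ∧ y = (3, true) then 2 else 0

private theorem V5c_chk41 : ∀ x y, V5cSt x y → ∀ z, V5cSt y z → ∀ w, V5cSt z w → V5cSt w x →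
    48 ≤ V5cVal4 V5cV1 V5cA1 x y z w := by
  decide +kernel

private theorem V5c_chk31 : ∀ x y, V5cSt x y → ∀ z, V5cSt y z → V5cSt z x →
    V5cVal3 V5cV1 V5cA1 x y z < 48 →
    V5cIs x.1 y.1 z.1 0 2 4 ∨
    V5cIs x.1 y.1 z.1 1 2 2 ∨
    V5cIs x.1 y.1 z.1 2 2 3 ∨
    V5cIs x.1 y.1 z.1 3 4 4 := by
  decide +kernel

private theorem V5c_chk42 : ∀ x y, V5cSt x y → ∀ z, V5cSt y z → ∀ w, V5cSt z w → V5cSt w x →
    48 ≤ V5cVal4 V5cV2 V5cA2 x y z w := by
  decide +kernel

private theorem V5c_chk32 : ∀ x y, V5cSt x y → ∀ z, V5cSt y z → V5cSt z x →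
    V5cVal3 V5cV2 V5cA2 x y z < 48 →
    V5cIs x.1 y.1 z.1 0 2 4 ∨
    V5cIs x.1 y.1 z.1 1 2 2 ∨
    V5cIs x.1 y.1 z.1 2 2 3 ∨
    V5cIs x.1 y.1 z.1 0 0 1 := by
  decide +kernel

theorem V5_H2 {a l : ZMod 5 → ℝ} (K : CombA 5 a l ι) (h3 : ∀ c, 3 ≤ K.toComb.deg c)
    (hl : ∀ i j, l i = l j → canon5 0 i = canon5 0 j) (h1 : a 1 = 2 * Real.pi / 3)
    (h2 : a 3 = 2 * Real.pi / 3) (h0 : a 0 = 2 * Real.pi / 3) :
    a 2 = 2 * Real.pi / 3 ∨ ∃ i, a i + a (i + 1) = Real.pi := by
  obtain ⟨x, y, z, hxy, hyz, hzx, hv, ha⟩ := V5c_core K h3 hl V5cV1 V5cA1 (by decide +kernel)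
    (by decide +kernel) (by decide +kernel) (by decide +kernel) V5c_chk41
  have ht := V5c_tot K
  have hpi := Real.pi_pos
  rcases V5c_chk31 x y hxy z hyz hzx hv with h | h | h | h
  · have h4 := V5c_ms (a := a) h
    exfalso
    linarith
  · have h4 := V5c_ms (a := a) h
    left
    linarith
  · have h4 := V5c_ms (a := a) h
    left
    linarith
  · have h4 := V5c_ms (a := a) h
    right
    refine ⟨1, ?_⟩
    have e : (1 + 1 : ZMod 5) = 2 := by decide
    rw [e]
    linarith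

theorem V5_H2' {a l : ZMod 5 → ℝ} (K : CombA 5 a l ι) (h3 : ∀ c, 3 ≤ K.toComb.deg c)
    (hl : ∀ i j, l i = l j → canon5 0 i = canon5 0 j) (h1 : a 1 = 2 * Real.pi / 3)
    (h2 : a 3 = 2 * Real.pi / 3) (h0 : a 4 = 2 * Real.pi / 3) :
    a 2 = 2 * Real.pi / 3 ∨ ∃ i, a i + a (i + 1) = Real.pi := by
  obtain ⟨x, y, z, hxy, hyz, hzx, hv, ha⟩ := V5c_core K h3 hl V5cV2 V5cA2 (by decide +kernel)
    (by decide +kernel) (by decide +kernel) (by decide +kernel) V5c_chk42
  have ht := V5c_tot K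
  have hpi := Real.pi_pos
  rcases V5c_chk32 x y hxy z hyz hzx hv with h | h | h | h
  · have h4 := V5c_ms (a := a) h
    exfalso
    linarith
  · have h4 := V5c_ms (a := a) h
    left
    linarith
  · have h4 := V5c_ms (a := a) h
    left
    linarith
  · have h4 := V5c_ms (a := a) h
    right
    refine ⟨2, ?_⟩
    have e : (2 + 1 : ZMod 5) = 3 := by decide
    rw [e]
    linarith

end Pool.Agent.Lib_MP_fa6e45
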