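import Pool.Agent.Lib_MP_fa6e45.V5a
import Pool.Agent.Lib_MP_fa6e45.V5b
import Pool.Agent.Lib_MP_fa6e45.V5c

/-!
PIECE V5d (about 100 lines): pattern XXYYE: `V5_arith` for `a` (if `a 3 + 2 a 4 ≠ 2 π`) or for the reversed
sequence `i ↦ a (4 - i)` (if `a 1 + 2 a 0 ≠ 2 π`; `Good5` is symmetric under `i ↦ 4 - i`; `H` from `star_le`,
`V5_good`, `V5_sum`). Patterns XYXYE, XYYXE: `three5`, `walk3`, `decide +kernel` for the lists of closed 3-walks:
XYXYE: {0,1,4}, {0,2,4}, {0,3,4}; the first gives `a 2 + a 3 = π`, the third `a 1 + a 2 = π` (angle sum 3 π).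
XYYXE: {1,1,2}, {1,2,3}, {2,2,2}, {2,3,3}: `star_le` (or `lp` with A = 0) with v = (3,3,4,4,3), L = 12 (2 * 17 < 36) gives
a star of degree 3, {1,1,2} or {1,2,3}; with v = (3,4,4,3,3) a star {2,3,3} or {1,2,3}; in any case
`a 1 + a 2 + a 3 = 2 π` (add the two equations), so `a 4 + a 0 = π`.
-/

open Set

namespace Pool.Agent.Lib_MP_fa6e45

variable {ι : Type}

private theorem V5d_sum5 {M : Type} [AddCommMonoid M] (f : ZMod 5 → M) :
    ∑ i : ZMod 5, f i = f 0 + f 1 + f 2 + f 3 + f 4 := Fin.sum_univ_five f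

private theorem V5d_total {a l : ZMod 5 → ℝ} (K : CombA 5 a l ι) :
    a 0 + a 1 + a 2 + a 3 + a 4 = 3 * Real.pi := by
  have h := K.a_sum
  rw [V5d_sum5] at h
  rw [h]
  push_cast
  ring

private theorem V5d_good {m : ZMod 5 → ℕ} (h : Good5 m) : Good5 fun i => m (4 - i) := by
  have e0 : (4 : ZMod 5) - 0 = 4 := by decide
  have e1 : (4 : ZMod 5) - 1 = 3 := by decide
  have e2 : (4 : ZMod 5) - 2 = 2 := by decide
  have e3 : (4 : ZMod 5) - 3 = 1 := by decide
  have e4 : (4 : ZMod 5) - 4 = 0 := by decide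
  unfold Good5 at h ⊢
  simp only [e0, e1, e2, e3, e4]
  obtain ⟨h1, h2, h3, h4, h5⟩ := h
  refine ⟨?_, ?_, ?_, ?_, ?_⟩
  · omega
  · omega
  · intro h
    have := h4 h
    omega
  · intro h
    have := h3 h
    omega
  · omega

private theorem V5d_star {a l : ZMod 5 → ℝ} (K : CombA 5 a l ι) (h3 : ∀ c, 3 ≤ K.toComb.deg c)
    {cls : ZMod 5 → ℕ} (hl : ∀ i j, l i = l j → cls i = cls j) (v : ZMod 5 → ℕ)
    (hv : ∀ i, 3 ≤ v i) (hs : 2 * (v 0 + v 1 + v 2 + v 3 + v 4) < 36) :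
    ∃ x y z : ZMod 5 × Bool, W3 cls x y z ∧ a x.1 + a y.1 + a z.1 = 2 * Real.pi ∧
      v x.1 + v y.1 + v z.1 < 12 := by
  obtain ⟨c, hc⟩ := K.lp (fun i => (v i : ℝ)) (fun _ _ => 0) (fun _ _ => by norm_num) 12 (by
    rw [V5d_sum5]
    have h : ((2 * (v 0 + v 1 + v 2 + v 3 + v 4) : ℕ) : ℝ) < ((36 : ℕ) : ℝ) := by exact_mod_cast hs
    push_cast at h ⊢
    linarith)
  have h0 : ∀ k, K.toComb.cross (fun _ _ => (0 : ℝ)) (K.nx^[k] c) = 0 := fun k => rfl
  simp only [h0, add_zero] at hc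
  have hd : K.toComb.deg c = 3 := by
    by_contra hne
    have h4 : 4 ≤ K.toComb.deg c := by
      have := h3 c
      omega
    have h5 : (K.toComb.deg c : ℝ) * 3 ≤
        ∑ k ∈ Finset.range (K.toComb.deg c), (v ((K.nx^[k] c).2) : ℝ) := by
      have h6 : ∑ k ∈ Finset.range (K.toComb.deg c), (3 : ℝ) ≤
          ∑ k ∈ Finset.range (K.toComb.deg c), (v ((K.nx^[k] c).2) : ℝ) :=
        Finset.sum_le_sum fun k _ => by exact_mod_cast hv _
      rw [Finset.sum_const, Finset.card_range, nsmul_eq_mul] at h6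
      exact h6
    have h7 : (4 : ℝ) ≤ (K.toComb.deg c : ℝ) := by exact_mod_cast h4
    linarith
  obtain ⟨hw, ha⟩ := K.walk3 hl c hd
  refine ⟨_, _, _, hw, ha, ?_⟩
  rw [hd, Finset.sum_range_succ, Finset.sum_range_succ, Finset.sum_range_one] at hc
  simp only [Function.iterate_zero, id_eq, Function.iterate_succ, Function.comp_apply] at hc
  exact_mod_cast hc

private theorem V5d_list1 : ∀ x y z : ZMod 5 × Bool, W3 (canon5 1) x y z →
    ({x.1, y.1, z.1} : Multiset (ZMod 5)) = {0, 1, 4} ∨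
    ({x.1, y.1, z.1} : Multiset (ZMod 5)) = {0, 2, 4} ∨
    ({x.1, y.1, z.1} : Multiset (ZMod 5)) = {0, 3, 4} := by
  decide +kernel

private theorem V5d_list2 : ∀ x y z : ZMod 5 × Bool, W3 (canon5 2) x y z →
    ({x.1, y.1, z.1} : Multiset (ZMod 5)) = {1, 1, 2} ∨
    ({x.1, y.1, z.1} : Multiset (ZMod 5)) = {1, 2, 3} ∨
    ({x.1, y.1, z.1} : Multiset (ZMod 5)) = {2, 2, 2} ∨
    ({x.1, y.1, z.1} : Multiset (ZMod 5)) = {2, 3, 3} := by
  decide +kernel

private theorem V5d_map {M : Type} [AddCommMonoid M] (f : ZMod 5 → M) {x y z i j k : ZMod 5}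
    (h : ({x, y, z} : Multiset (ZMod 5)) = {i, j, k}) : f x + f y + f z = f i + f j + f k := by
  have h2 := congrArg (fun s : Multiset (ZMod 5) => (s.map f).sum) h
  simp only [Multiset.insert_eq_cons, Multiset.map_cons, Multiset.map_singleton, Multiset.sum_cons,
    Multiset.sum_singleton] at h2
  rw [add_assoc, h2, add_assoc]

theorem V5_XXYYE {a l : ZMod 5 → ℝ} (K : CombA 5 a l ι) (h3 : ∀ c, 3 ≤ K.toComb.deg c)
    (hl : ∀ i j, l i = l j → canon5 0 i = canon5 0 j)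
    (hef : ¬ (a 1 + 2 * a 0 = 2 * Real.pi ∧ a 3 + 2 * a 4 = 2 * Real.pi)) :
    (∃ i, a i + a (i + 1) = Real.pi) ∨ (a 1 = 2 * Real.pi / 3 ∧ a 3 = Real.pi / 3) ∨
      (a 1 = Real.pi / 2 ∧ a 3 = Real.pi / 2) ∨ (a 1 = Real.pi / 3 ∧ a 3 = 2 * Real.pi / 3) := by
  by_cases hf : a 3 + 2 * a 4 = 2 * Real.pi
  · have he : a 1 + 2 * a 0 ≠ 2 * Real.pi := fun h => hef ⟨h, hf⟩
    have e0 : (4 : ZMod 5) - 0 = 4 := by decide
    have e1 : (4 : ZMod 5) - 1 = 3 := by decide
    have e2 : (4 : ZMod 5) - 2 = 2 := by decide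
    have e3 : (4 : ZMod 5) - 3 = 1 := by decide
    have e4 : (4 : ZMod 5) - 4 = 0 := by decide
    have hi : ∀ i : ZMod 5, (4 : ZMod 5) - (i + 1) = 3 - i ∧ (4 : ZMod 5) - i = (3 - i) + 1 ∧
        (4 : ZMod 5) - (3 - i) = i + 1 ∧ (4 : ZMod 5) - (3 - i + 1) = i := by decide
    have key := V5_arith (fun i => a (4 - i)) (by
      simp only [e0, e1, e2, e3, e4]
      have := V5d_total K
      linarith) (by
      intro v L hv
      obtain ⟨c, hc⟩ := K.star_le (fun i => v (4 - i)) L (by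
        rw [V5d_sum5]
        simp only [e0, e1, e2, e3, e4]
        push_cast
        linarith)
      refine ⟨fun i => K.toComb.cnt c (4 - i), V5d_good (V5_good K h3 hl c), ?_, ?_⟩
      · have h := V5_sum K c
        simp only [e0, e1, e2, e3, e4]
        linarith
      · rw [V5d_sum5] at hc
        simp only [e0, e1, e2, e3, e4] at hc ⊢
        linarith) (by
      simp only [e0, e1, e2, e3, e4]
      intro h1 h2 h0
      rcases V5_H2' K h3 hl h2 h1 h0 with h | ⟨i, h⟩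
      · exact Or.inl h
      · refine Or.inr ⟨3 - i, ?_⟩
        rw [(hi i).2.2.1, (hi i).2.2.2]
        linarith) (by
      simp only [e3, e4]
      exact he)
    simp only [e0, e1, e2, e3, e4] at key
    rcases key with ⟨i, h⟩ | ⟨h1, h2⟩ | ⟨h1, h2⟩ | ⟨h1, h2⟩
    · refine Or.inl ⟨3 - i, ?_⟩
      rw [(hi i).1, (hi i).2.1] at h
      linarith
    · exact Or.inr (Or.inr (Or.inr ⟨h2, h1⟩))
    · exact Or.inr (Or.inr (Or.inl ⟨h2, h1⟩))
    · exact Or.inr (Or.inl ⟨h2, h1⟩)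
  · refine V5_arith a (V5d_total K) ?_ (V5_H2 K h3 hl) hf
    intro v L hv
    obtain ⟨c, hc⟩ := K.star_le v L (by
      rw [V5d_sum5]
      push_cast
      linarith)
    refine ⟨K.toComb.cnt c, V5_good K h3 hl c, V5_sum K c, ?_⟩
    rw [V5d_sum5] at hc
    exact hc

theorem V5_XYXYE {a l : ZMod 5 → ℝ} (K : CombA 5 a l ι) (h3 : ∀ c, 3 ≤ K.toComb.deg c)
    (hl : ∀ i j, l i = l j → canon5 1 i = canon5 1 j) :
    (∃ i, a i + a (i + 1) = Real.pi) ∨ a 0 + a 2 + a 4 = 2 * Real.pi := by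
  obtain ⟨c, hc⟩ := K.three5 h3
  obtain ⟨hw, ha⟩ := K.walk3 hl c hc
  have ht := V5d_total K
  rcases V5d_list1 _ _ _ hw with h | h | h
  · have h2 := V5d_map a h
    refine Or.inl ⟨2, ?_⟩
    have e : (2 : ZMod 5) + 1 = 3 := by decide
    rw [e]
    linarith
  · have h2 := V5d_map a h
    exact Or.inr (by linarith)
  · have h2 := V5d_map a h
    refine Or.inl ⟨1, ?_⟩
    have e : (1 : ZMod 5) + 1 = 2 := by decide
    rw [e]
    linarith

theorem V5_XYYXE {a l : ZMod 5 → ℝ} (K : CombA 5 a l ι) (h3 : ∀ c, 3 ≤ K.toComb.deg c)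
    (hl : ∀ i j, l i = l j → canon5 2 i = canon5 2 j) :
    ∃ i, a i + a (i + 1) = Real.pi := by
  have ht := V5d_total K
  have hs : a 1 + a 2 + a 3 = 2 * Real.pi := by
    obtain ⟨x, y, z, hw, ha, hlt⟩ := V5d_star K h3 hl ![3, 3, 4, 4, 3] (by decide) (by decide)
    obtain ⟨x', y', z', hw', ha', hlt'⟩ := V5d_star K h3 hl ![3, 4, 4, 3, 3] (by decide) (by decide)
    have A1 : a 1 + a 1 + a 2 = 2 * Real.pi ∨ a 1 + a 2 + a 3 = 2 * Real.pi := by
      rcases V5d_list2 _ _ _ hw with h | h | h | h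
      · have h2 := V5d_map a h
        exact Or.inl (by linarith)
      · have h2 := V5d_map a h
        exact Or.inr (by linarith)
      · have h2 := V5d_map (![3, 3, 4, 4, 3] : ZMod 5 → ℕ) h
        rw [h2] at hlt
        exact absurd hlt (by decide)
      · have h2 := V5d_map (![3, 3, 4, 4, 3] : ZMod 5 → ℕ) h
        rw [h2] at hlt
        exact absurd hlt (by decide)
    have A2 : a 2 + a 3 + a 3 = 2 * Real.pi ∨ a 1 + a 2 + a 3 = 2 * Real.pi := by
      rcases V5d_list2 _ _ _ hw' with h | h | h | h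
      · have h2 := V5d_map (![3, 4, 4, 3, 3] : ZMod 5 → ℕ) h
        rw [h2] at hlt'
        exact absurd hlt' (by decide)
      · have h2 := V5d_map a h
        exact Or.inr (by linarith)
      · have h2 := V5d_map (![3, 4, 4, 3, 3] : ZMod 5 → ℕ) h
        rw [h2] at hlt'
        exact absurd hlt' (by decide)
      · have h2 := V5d_map a h
        exact Or.inl (by linarith)
    rcases A1 with h1 | h1
    · rcases A2 with h2 | h2
      · linarith
      · exact h2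
    · exact h1
  refine ⟨4, ?_⟩
  have e : (4 : ZMod 5) + 1 = 0 := by decide
  rw [e]
  linarith

end Pool.Agent.Lib_MP_fa6e45
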