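import Pool.Agent.Lib_MP_fa6e45.V2

/-!
PIECE V6a (about 200 lines): n = 6, all patterns except XXYYZZ. `attained6` (every corner `i` is in a star of
degree 3), `walk3`, and the lists of closed 3-walks by `decide +kernel` over `ZMod 6 × Bool` (1728 cases each);
angle sum `4 π` (`K.a_sum`). Lists (multisets of corners):
canon6 0: 5 missing; 1: 3, 4 missing; 2: 4, 5 missing; 3, 4: none;
canon6 5: {0,0,1}, {0,2,3}, {0,2,4}, {0,2,5}, {1,1,1}, {1,2,2}: contradiction by `lp6` with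
 v = (3,2,3,0,0,0), A = 0, L = 6 (total 8 < 12);
canon6 6: {0,0,1}, {0,1,2}, {1,1,1}, {1,2,2}, {3,4,5}: corner 4;
canon6 7: {0,0,1}, {0,1,2}, {1,1,1}, {1,2,2}, {3,3,4}, {3,4,5}, {4,4,4}, {4,5,5}: corners 3 and 5;
canon6 8: {0,0,1}, {1,1,1}, {1,2,2}, {3,3,4}, {4,4,4}, {4,5,5}: corners 0, 2, 3, 5;
canon6 9: {0,1,5}, {0,2,5}, {1,3,4}, {2,3,4}: corner 3;
canon6 10: {1,2} x {0,3} x {4,5}; canon6 11: {0,1,5}, {0,4,5}, {1,2,3}, {2,3,4}: corner 2;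
canon6 12: {1,4} x {2,5} x {0,3}.
-/

open Set

namespace Pool.Agent.Lib_MP_fa6e45

variable {ι : Type} {a l : ZMod 6 → ℝ}

/-- a star of degree 3 at corner `i`, as a closed 3-walk -/
private theorem star3 (K : CombA 6 a l ι) (h3 : ∀ c, 3 ≤ K.toComb.deg c) {cls : ZMod 6 → ℕ}
    (hl : ∀ i j, l i = l j → cls i = cls j) (i : ZMod 6) :
    ∃ x y z : ZMod 6 × Bool, x.1 = i ∧ W3 cls x y z ∧ a x.1 + a y.1 + a z.1 = 2 * Real.pi := by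
  obtain ⟨c, hc, hd⟩ := K.attained6 h3 i
  obtain ⟨h1, h2⟩ := K.walk3 hl c hd
  exact ⟨_, _, _, hc, h1, h2⟩

private theorem w6_0 : ∀ x y z : ZMod 6 × Bool, x.1 = 5 → ¬ W3 (canon6 0) x y z := by
  decide +kernel

private theorem w6_1 : ∀ x y z : ZMod 6 × Bool, x.1 = 3 → ¬ W3 (canon6 1) x y z := by
  decide +kernel

private theorem w6_2 : ∀ x y z : ZMod 6 × Bool, x.1 = 4 → ¬ W3 (canon6 2) x y z := by
  decide +kernel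

private theorem w6_3 : ∀ x y z : ZMod 6 × Bool, x.1 = 0 → ¬ W3 (canon6 3) x y z := by
  decide +kernel

private theorem w6_4 : ∀ x y z : ZMod 6 × Bool, x.1 = 0 → ¬ W3 (canon6 4) x y z := by
  decide +kernel

/-- weights for the pattern 5 -/
private def v5 : ZMod 6 → ℕ := ![3, 2, 3, 0, 0, 0]

private theorem w6_5 : ∀ x y z : ZMod 6 × Bool, W3 (canon6 5) x y z →
    6 ≤ v5 x.1 + v5 y.1 + v5 z.1 := by
  decide +kernel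

private theorem w6_6 : ∀ x y z : ZMod 6 × Bool, x.1 = 4 → W3 (canon6 6) x y z →
    (y.1 = 3 ∧ z.1 = 5) ∨ (y.1 = 5 ∧ z.1 = 3) := by
  decide +kernel

private theorem w6_7a : ∀ x y z : ZMod 6 × Bool, x.1 = 3 → W3 (canon6 7) x y z →
    (y.1 = 3 ∧ z.1 = 4) ∨ (y.1 = 4 ∧ z.1 = 3) ∨ (y.1 = 4 ∧ z.1 = 5) ∨ (y.1 = 5 ∧ z.1 = 4) := by
  decide +kernel

private theorem w6_7b : ∀ x y z : ZMod 6 × Bool, x.1 = 5 → W3 (canon6 7) x y z →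
    (y.1 = 5 ∧ z.1 = 4) ∨ (y.1 = 4 ∧ z.1 = 5) ∨ (y.1 = 4 ∧ z.1 = 3) ∨ (y.1 = 3 ∧ z.1 = 4) := by
  decide +kernel

private theorem w6_8a : ∀ x y z : ZMod 6 × Bool, x.1 = 0 → W3 (canon6 8) x y z →
    (y.1 = 0 ∧ z.1 = 1) ∨ (y.1 = 1 ∧ z.1 = 0) := by
  decide +kernel

private theorem w6_8b : ∀ x y z : ZMod 6 × Bool, x.1 = 2 → W3 (canon6 8) x y z →
    (y.1 = 2 ∧ z.1 = 1) ∨ (y.1 = 1 ∧ z.1 = 2) := by
  decide +kernel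

private theorem w6_8c : ∀ x y z : ZMod 6 × Bool, x.1 = 3 → W3 (canon6 8) x y z →
    (y.1 = 3 ∧ z.1 = 4) ∨ (y.1 = 4 ∧ z.1 = 3) := by
  decide +kernel

private theorem w6_8d : ∀ x y z : ZMod 6 × Bool, x.1 = 5 → W3 (canon6 8) x y z →
    (y.1 = 5 ∧ z.1 = 4) ∨ (y.1 = 4 ∧ z.1 = 5) := by
  decide +kernel

private theorem w6_9 : ∀ x y z : ZMod 6 × Bool, x.1 = 3 → W3 (canon6 9) x y z →
    (y.1 = 1 ∧ z.1 = 4) ∨ (y.1 = 4 ∧ z.1 = 1) ∨ (y.1 = 2 ∧ z.1 = 4) ∨ (y.1 = 4 ∧ z.1 = 2) := by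
  decide +kernel

private theorem w6_10 : ∀ x y z : ZMod 6 × Bool, x.1 = 3 → W3 (canon6 10) x y z →
    (y.1 = 1 ∧ z.1 = 4) ∨ (y.1 = 4 ∧ z.1 = 1) ∨ (y.1 = 2 ∧ z.1 = 4) ∨ (y.1 = 4 ∧ z.1 = 2) ∨
    (y.1 = 1 ∧ z.1 = 5) ∨ (y.1 = 5 ∧ z.1 = 1) ∨ (y.1 = 2 ∧ z.1 = 5) ∨ (y.1 = 5 ∧ z.1 = 2) := by
  decide +kernel

private theorem w6_11 : ∀ x y z : ZMod 6 × Bool, x.1 = 2 → W3 (canon6 11) x y z →
    (y.1 = 1 ∧ z.1 = 3) ∨ (y.1 = 3 ∧ z.1 = 1) ∨ (y.1 = 3 ∧ z.1 = 4) ∨ (y.1 = 4 ∧ z.1 = 3) := by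
  decide +kernel

private theorem w6_12 : ∀ x y z : ZMod 6 × Bool, x.1 = 3 → W3 (canon6 12) x y z →
    (y.1 = 1 ∧ z.1 = 2) ∨ (y.1 = 2 ∧ z.1 = 1) ∨ (y.1 = 2 ∧ z.1 = 4) ∨ (y.1 = 4 ∧ z.1 = 2) ∨
    (y.1 = 4 ∧ z.1 = 5) ∨ (y.1 = 5 ∧ z.1 = 4) ∨ (y.1 = 1 ∧ z.1 = 5) ∨ (y.1 = 5 ∧ z.1 = 1) := by
  decide +kernel

private theorem sum6 (K : CombA 6 a l ι) : a 0 + a 1 + a 2 + a 3 + a 4 + a 5 = 4 * Real.pi := by
  have h := K.a_sum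
  have h1 : ∑ i : ZMod 6, a i = a 0 + a 1 + a 2 + a 3 + a 4 + a 5 := Fin.sum_univ_six a
  rw [h1] at h
  rw [h]
  push_cast
  ring

theorem V6_bad (K : CombA 6 a l ι) (h3 : ∀ c, 3 ≤ K.toComb.deg c) (m : Fin 14) (hm : m.val ≤ 5)
    (hl : ∀ i j, l i = l j → canon6 m i = canon6 m j) : False := by
  have hm' : m = 0 ∨ m = 1 ∨ m = 2 ∨ m = 3 ∨ m = 4 ∨ m = 5 := by
    omega
  rcases hm' with rfl | rfl | rfl | rfl | rfl | rfl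
  · obtain ⟨x, y, z, hx, hw, -⟩ := star3 K h3 hl 5
    exact w6_0 x y z hx hw
  · obtain ⟨x, y, z, hx, hw, -⟩ := star3 K h3 hl 3
    exact w6_1 x y z hx hw
  · obtain ⟨x, y, z, hx, hw, -⟩ := star3 K h3 hl 4
    exact w6_2 x y z hx hw
  · obtain ⟨x, y, z, hx, hw, -⟩ := star3 K h3 hl 0
    exact w6_3 x y z hx hw
  · obtain ⟨x, y, z, hx, hw, -⟩ := star3 K h3 hl 0
    exact w6_4 x y z hx hw
  · obtain ⟨c, hd, hlt⟩ := K.lp6 h3 (fun i => (v5 i : ℝ)) (fun _ _ => 0) (by simp) 6 (by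
      have h1 : ∑ i : ZMod 6, (v5 i : ℝ) = (v5 0 : ℝ) + v5 1 + v5 2 + v5 3 + v5 4 + v5 5 :=
        Fin.sum_univ_six _
      rw [h1]
      have e0 : v5 0 = 3 := rfl
      have e1 : v5 1 = 2 := rfl
      have e2 : v5 2 = 3 := rfl
      have e3 : v5 3 = 0 := rfl
      have e4 : v5 4 = 0 := rfl
      have e5 : v5 5 = 0 := rfl
      rw [e0, e1, e2, e3, e4, e5]
      norm_num)
    obtain ⟨hw, -⟩ := K.walk3 hl c hd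
    have h1 := w6_5 _ _ _ hw
    simp only [Comb.cross, add_zero] at hlt
    have h2 : ((6 : ℕ) : ℝ) ≤ ((v5 c.2 + v5 (K.nx c).2 + v5 (K.nx (K.nx c)).2 : ℕ) : ℝ) :=
      Nat.cast_le.2 h1
    push_cast at h2
    linarith

theorem V6_67 (K : CombA 6 a l ι) (h3 : ∀ c, 3 ≤ K.toComb.deg c) (m : Fin 14)
    (hm : m = 6 ∨ m = 7) (hl : ∀ i j, l i = l j → canon6 m i = canon6 m j) :
    a 3 + a 4 + a 5 = 2 * Real.pi := by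
  rcases hm with rfl | rfl
  · obtain ⟨x, y, z, hx, hw, hs⟩ := star3 K h3 hl 4
    rcases w6_6 x y z hx hw with ⟨hy, hz⟩ | ⟨hy, hz⟩ <;> rw [hx, hy, hz] at hs <;> linarith
  · obtain ⟨x, y, z, hx, hw, hs⟩ := star3 K h3 hl 3
    obtain ⟨x', y', z', hx', hw', hs'⟩ := star3 K h3 hl 5
    rcases w6_7a x y z hx hw with ⟨hy, hz⟩ | ⟨hy, hz⟩ | ⟨hy, hz⟩ | ⟨hy, hz⟩ <;>
    rcases w6_7b x' y' z' hx' hw' with ⟨hy', hz'⟩ | ⟨hy', hz'⟩ | ⟨hy', hz'⟩ | ⟨hy', hz'⟩ <;>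
    rw [hx, hy, hz] at hs <;> rw [hx', hy', hz'] at hs' <;> linarith

theorem V6_8 (K : CombA 6 a l ι) (h3 : ∀ c, 3 ≤ K.toComb.deg c)
    (hl : ∀ i j, l i = l j → canon6 8 i = canon6 8 j) :
    a 1 + 2 * a 0 = 2 * Real.pi ∧ a 2 = a 0 ∧ a 4 + 2 * a 3 = 2 * Real.pi ∧ a 5 = a 3 := by
  have h0 : a 1 + 2 * a 0 = 2 * Real.pi := by
    obtain ⟨x, y, z, hx, hw, hs⟩ := star3 K h3 hl 0
    rcases w6_8a x y z hx hw with ⟨hy, hz⟩ | ⟨hy, hz⟩ <;> rw [hx, hy, hz] at hs <;> linarith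
  have h2 : a 1 + 2 * a 2 = 2 * Real.pi := by
    obtain ⟨x, y, z, hx, hw, hs⟩ := star3 K h3 hl 2
    rcases w6_8b x y z hx hw with ⟨hy, hz⟩ | ⟨hy, hz⟩ <;> rw [hx, hy, hz] at hs <;> linarith
  have h3' : a 4 + 2 * a 3 = 2 * Real.pi := by
    obtain ⟨x, y, z, hx, hw, hs⟩ := star3 K h3 hl 3
    rcases w6_8c x y z hx hw with ⟨hy, hz⟩ | ⟨hy, hz⟩ <;> rw [hx, hy, hz] at hs <;> linarith
  have h5 : a 4 + 2 * a 5 = 2 * Real.pi := by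
    obtain ⟨x, y, z, hx, hw, hs⟩ := star3 K h3 hl 5
    rcases w6_8d x y z hx hw with ⟨hy, hz⟩ | ⟨hy, hz⟩ <;> rw [hx, hy, hz] at hs <;> linarith
  exact ⟨h0, by linarith, h3', by linarith⟩

theorem V6_9 (K : CombA 6 a l ι) (h3 : ∀ c, 3 ≤ K.toComb.deg c)
    (hl : ∀ i j, l i = l j → canon6 9 i = canon6 9 j) :
    a 2 + a 3 + a 4 = 2 * Real.pi ∨ a 1 + a 3 + a 4 = 2 * Real.pi := by
  obtain ⟨x, y, z, hx, hw, hs⟩ := star3 K h3 hl 3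
  rcases w6_9 x y z hx hw with ⟨hy, hz⟩ | ⟨hy, hz⟩ | ⟨hy, hz⟩ | ⟨hy, hz⟩ <;>
    rw [hx, hy, hz] at hs
  · exact Or.inr (by linarith)
  · exact Or.inr (by linarith)
  · exact Or.inl (by linarith)
  · exact Or.inl (by linarith)

theorem V6_10 (K : CombA 6 a l ι) (h3 : ∀ c, 3 ≤ K.toComb.deg c)
    (hl : ∀ i j, l i = l j → canon6 10 i = canon6 10 j) :
    a 2 + a 3 + a 4 = 2 * Real.pi ∨ a 1 + a 3 + a 4 = 2 * Real.pi ∨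
      a 1 + a 3 + a 5 = 2 * Real.pi ∨ a 0 + a 1 + a 4 = 2 * Real.pi := by
  have h6 := sum6 K
  obtain ⟨x, y, z, hx, hw, hs⟩ := star3 K h3 hl 3
  rcases w6_10 x y z hx hw with ⟨hy, hz⟩ | ⟨hy, hz⟩ | ⟨hy, hz⟩ | ⟨hy, hz⟩ | ⟨hy, hz⟩ | ⟨hy, hz⟩ |
    ⟨hy, hz⟩ | ⟨hy, hz⟩ <;> rw [hx, hy, hz] at hs
  · exact Or.inr (Or.inl (by linarith))
  · exact Or.inr (Or.inl (by linarith))
  · exact Or.inl (by linarith)
  · exact Or.inl (by linarith)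
  · exact Or.inr (Or.inr (Or.inl (by linarith)))
  · exact Or.inr (Or.inr (Or.inl (by linarith)))
  · exact Or.inr (Or.inr (Or.inr (by linarith)))
  · exact Or.inr (Or.inr (Or.inr (by linarith)))

theorem V6_11 (K : CombA 6 a l ι) (h3 : ∀ c, 3 ≤ K.toComb.deg c)
    (hl : ∀ i j, l i = l j → canon6 11 i = canon6 11 j) :
    a 1 + a 2 + a 3 = 2 * Real.pi ∨ a 2 + a 3 + a 4 = 2 * Real.pi := by
  obtain ⟨x, y, z, hx, hw, hs⟩ := star3 K h3 hl 2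
  rcases w6_11 x y z hx hw with ⟨hy, hz⟩ | ⟨hy, hz⟩ | ⟨hy, hz⟩ | ⟨hy, hz⟩ <;>
    rw [hx, hy, hz] at hs
  · exact Or.inl (by linarith)
  · exact Or.inl (by linarith)
  · exact Or.inr (by linarith)
  · exact Or.inr (by linarith)

theorem V6_12 (K : CombA 6 a l ι) (h3 : ∀ c, 3 ≤ K.toComb.deg c)
    (hl : ∀ i j, l i = l j → canon6 12 i = canon6 12 j) :
    a 1 + a 2 + a 3 = 2 * Real.pi ∨ a 2 + a 3 + a 4 = 2 * Real.pi ∨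
      a 3 + a 4 + a 5 = 2 * Real.pi ∨ a 1 + a 3 + a 5 = 2 * Real.pi := by
  obtain ⟨x, y, z, hx, hw, hs⟩ := star3 K h3 hl 3
  rcases w6_12 x y z hx hw with ⟨hy, hz⟩ | ⟨hy, hz⟩ | ⟨hy, hz⟩ | ⟨hy, hz⟩ | ⟨hy, hz⟩ | ⟨hy, hz⟩ |
    ⟨hy, hz⟩ | ⟨hy, hz⟩ <;> rw [hx, hy, hz] at hs
  · exact Or.inl (by linarith)
  · exact Or.inl (by linarith)
  · exact Or.inr (Or.inl (by linarith))
  · exact Or.inr (Or.inl (by linarith))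
  · exact Or.inr (Or.inr (Or.inl (by linarith)))
  · exact Or.inr (Or.inr (Or.inl (by linarith)))
  · exact Or.inr (Or.inr (Or.inr (by linarith)))
  · exact Or.inr (Or.inr (Or.inr (by linarith)))

end Pool.Agent.Lib_MP_fa6e45
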