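import Pool.Agent.Lib_MP_fa6e45.V2

/-!
PIECE V6b: n = 6, pattern XXYYZZ (canon6 13): `a 1 = 2 π / 3` (then the same for 3 and 5 by the
symmetry `i ↦ i + 2`: the certificate is stated for a general shift). 3-stars (corners
0: ZX, 1: XX, 2: XY, 3: YY, 4: YZ, 5: ZZ): {1,1,1}, {3,3,3}, {5,5,5}, {1,0,0}, {1,2,2}, {3,2,2}, {3,4,4}, {5,4,4},
{5,0,0}, {0,2,4}. CERTIFICATE for `lp6` (checked by a program): v = (0,0,0,0,-1,0), L = 0 and the antisymmetric
`A` with `A (0,T) (0,F) = 4, A (1,F) (1,T) = 4, A (0,T) (1,T) = 4, A (1,F) (0,F) = 4, A (2,F) (3,T) = 2,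
A (3,F) (2,T) = 2, A (4,T) (5,F) = 2, A (5,T) (4,F) = 2` (T = true, F = false; `A y x = - A x y`; the rest 0): every closed
flagged 3-walk (`W3`) except {1,1,1} has `v + A ≥ 0`, so a star {1,1,1} occurs. The same
certificate shifted by 2 and by 4 (corners and sides `i ↦ i + 2`) gives corners 3 and 5.
-/

open Set

namespace Pool.Agent.Lib_MP_fa6e45

variable {ι : Type} {a l : ZMod 6 → ℝ}

/-- one half of the antisymmetric function of the certificate -/
private def halfB (x y : ZMod 6 × Bool) : ℤ :=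
  if x = (0, true) ∧ y = (0, false) then 4
  else if x = (1, false) ∧ y = (1, true) then 4
  else if x = (0, true) ∧ y = (1, true) then 4
  else if x = (1, false) ∧ y = (0, false) then 4
  else if x = (2, false) ∧ y = (3, true) then 2
  else if x = (3, false) ∧ y = (2, true) then 2
  else if x = (4, true) ∧ y = (5, false) then 2
  else if x = (5, true) ∧ y = (4, false) then 2
  else 0

/-- the antisymmetric function of the certificate, shifted by `s` -/
private def certA (s : ZMod 6) (x y : ZMod 6 × Bool) : ℤ :=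
  halfB (x.1 - s, x.2) (y.1 - s, y.2) - halfB (y.1 - s, y.2) (x.1 - s, x.2)

/-- the function of the corners of the certificate, shifted by `s` -/
private def certV (s : ZMod 6) (i : ZMod 6) : ℤ := if i = s + 4 then -1 else 0

/-- exit side and flag -/
private def exF (x : ZMod 6 × Bool) : ZMod 6 × Bool := (if x.2 then x.1 else x.1 - 1, x.2)

/-- entry side and flag -/
private def enF (x : ZMod 6 × Bool) : ZMod 6 × Bool := (if x.2 then x.1 - 1 else x.1, x.2)

private theorem cert (s : ZMod 6) (hs : s = 0 ∨ s = 2 ∨ s = 4) (x y z : ZMod 6 × Bool)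
    (h : W3 (canon6 13) x y z)
    (hneg : certV s x.1 + certV s y.1 + certV s z.1 + (certA s (exF x) (enF y) +
      certA s (exF y) (enF z) + certA s (exF z) (enF x)) < 0) :
    x.1 = s + 1 ∧ y.1 = s + 1 ∧ z.1 = s + 1 := by
  have key : ∀ s : ZMod 6, (s = 0 ∨ s = 2 ∨ s = 4) → ∀ x y z : ZMod 6 × Bool,
      W3 (canon6 13) x y z →
      certV s x.1 + certV s y.1 + certV s z.1 + (certA s (exF x) (enF y) +
        certA s (exF y) (enF z) + certA s (exF z) (enF x)) < 0 →
      x.1 = s + 1 ∧ y.1 = s + 1 ∧ z.1 = s + 1 := by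
    decide +kernel
  exact key s hs x y z h hneg

private theorem certV_sum (s : ZMod 6) : ∑ i, certV s i = -1 := by
  revert s
  decide +kernel

private theorem V6_13_aux (K : CombA 6 a l ι) (h3 : ∀ c, 3 ≤ K.toComb.deg c)
    (hl : ∀ i j, l i = l j → canon6 13 i = canon6 13 j) (s : ZMod 6)
    (hs : s = 0 ∨ s = 2 ∨ s = 4) : a (s + 1) = 2 * Real.pi / 3 := by
  have hsum : ∑ i, ((certV s i : ℤ) : ℝ) < 2 * 0 := by
    have h := certV_sum s
    have h2 : ∑ i, ((certV s i : ℤ) : ℝ) = -1 := by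
      rw [← Int.cast_sum, h]
      norm_num
    rw [h2]
    norm_num
  obtain ⟨c, hc, hneg⟩ := K.lp6 h3 (fun i => ((certV s i : ℤ) : ℝ))
    (fun x y => ((certA s x y : ℤ) : ℝ)) (by
      intro x y
      unfold certA
      push_cast
      ring) 0 hsum
  obtain ⟨hw, ha⟩ := K.walk3 hl c hc
  have hper : K.nx (K.nx (K.nx c)) = c := by
    have h := Function.iterate_minimalPeriod (f := K.nx) (x := c)
    have hc' : Function.minimalPeriod K.nx c = 3 := hc
    rw [hc'] at h
    exact h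
  have hneg' : certV s c.2 + certV s (K.nx c).2 + certV s (K.nx (K.nx c)).2 +
      (certA s (exF (c.2, K.rf c.1)) (enF ((K.nx c).2, K.rf (K.nx c).1)) +
        certA s (exF ((K.nx c).2, K.rf (K.nx c).1)) (enF ((K.nx (K.nx c)).2, K.rf (K.nx (K.nx c)).1)) +
        certA s (exF ((K.nx (K.nx c)).2, K.rf (K.nx (K.nx c)).1)) (enF (c.2, K.rf c.1))) < 0 := by
    simp only [Comb.cross] at hneg
    rw [hper] at hneg
    have h2 : ((certV s c.2 + certV s (K.nx c).2 + certV s (K.nx (K.nx c)).2 +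
      (certA s (exF (c.2, K.rf c.1)) (enF ((K.nx c).2, K.rf (K.nx c).1)) +
        certA s (exF ((K.nx c).2, K.rf (K.nx c).1)) (enF ((K.nx (K.nx c)).2, K.rf (K.nx (K.nx c)).1)) +
        certA s (exF ((K.nx (K.nx c)).2, K.rf (K.nx (K.nx c)).1)) (enF (c.2, K.rf c.1))) : ℤ) : ℝ) < 0 := by
      push_cast
      exact hneg
    exact_mod_cast h2
  obtain ⟨h1, h2, h3'⟩ := cert s hs _ _ _ hw hneg'
  simp only at h1 h2 h3'
  rw [h1, h2, h3'] at ha
  linarith

theorem V6_13 (K : CombA 6 a l ι) (h3 : ∀ c, 3 ≤ K.toComb.deg c)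
    (hl : ∀ i j, l i = l j → canon6 13 i = canon6 13 j) :
    a 1 = 2 * Real.pi / 3 ∧ a 3 = 2 * Real.pi / 3 ∧ a 5 = 2 * Real.pi / 3 := by
  refine ⟨?_, ?_, ?_⟩
  · exact V6_13_aux K h3 hl 0 (Or.inl rfl)
  · exact V6_13_aux K h3 hl 2 (Or.inr (Or.inl rfl))
  · exact V6_13_aux K h3 hl 4 (Or.inr (Or.inr rfl))

end Pool.Agent.Lib_MP_fa6e45
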