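import Pool.Agent.Lib_MP_fa6e45.V8b

/-!
PIECE V7a (about 200 lines): pentagons and hexagons of type pgg, from `pgg_criterion`.
`critC`: chain = sides (`sideChain P hc 0`), `s = V0 - A conj V2`, `t = V1 + A conj V4` (so `α V2 = V0`,
`α V3 = V1`, `β V4 = V1`, `β V5 = V2`), `h = s + A conj t = V5 + V0`. Partners: side 0: neighbour `α P` with side 2;
side 2: `α⁻¹ P = T(-1,0) α P` with side 0; side 1: `β P` with side 4; side 4: `T(0,-1) β P` with side 1; side 5:
`H P` with side 5; side 3: `z ↦ -z + V3 + V4 = T(x) H`: `V3 + V4 - h` is a lattice vector: from `β = α H3` one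
gets `H3 = α⁻¹ β = T(-1,0) α β = T(-1,0) H`. Area: `4 area = |cr u w|`, `u = s + A conj s`, `w = t - A conj t` (shoelace
`area_eq`; use real coordinates, `A = x + i y`, `x² + y² = 1`; the sum of `cr` is `± cr u w / 2`).
`critA`: the same with the chain of six segments with `W = (V0, V1, V2, V3, V3, V4)`: the fourth segment is the
point `V3` (a degenerate segment `[V3, V3]` is allowed in a `Chain`: build the chain with index `Fin 6`, or use
`Option (Fin 5)`), or directly with five sides: side 0: `α`, 2; side 1: `β`, 3; side 4: `H` (`t = V1 + A conj V3`).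
-/

open Set MeasureTheory Complex
open scoped Topology

namespace Pool.Agent.Lib_MP_fa6e45

open Pool.Agent.Lib_PL (cr InSector Poly)

private theorem V7a_conj (A x y : ℂ) (hAA : A * (starRingEnd ℂ) A = 1)
    (h : x = A * (starRingEnd ℂ) y) : y = A * (starRingEnd ℂ) x := by
  rw [h, map_mul, Complex.conj_conj]
  linear_combination (-y) * hAA

private theorem V7a_area6 (A a b c e : ℂ) (hN : A.re ^ 2 + A.im ^ 2 = 1) :
    2 * (cr a b + cr b c + cr c (c + A * (starRingEnd ℂ) (b - a)) +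
      cr (c + A * (starRingEnd ℂ) (b - a)) e + cr e (e - A * (starRingEnd ℂ) (c - b)) +
      cr (e - A * (starRingEnd ℂ) (c - b)) a) =
    cr ((a - A * (starRingEnd ℂ) c) + A * (starRingEnd ℂ) (a - A * (starRingEnd ℂ) c))
      ((b + A * (starRingEnd ℂ) e) - A * (starRingEnd ℂ) (b + A * (starRingEnd ℂ) e)) := by
  unfold cr
  simp only [add_re, add_im, sub_re, sub_im, mul_re, mul_im, conj_re, conj_im]
  linear_combination (a.im * b.re + a.im * e.im * A.im - 2 * a.im * e.re + a.im * e.re * A.re - a.re * b.im + 2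
      * a.re * e.im + a.re * e.im * A.re - a.re * e.re * A.im + b.im * c.im * A.im + 2 * b.im *
      c.re + b.im * c.re * A.re - 2 * b.re * c.im + b.re * c.im * A.re - b.re * c.re * A.im - 2
      * c.im * e.im * A.im + 2 * c.im * e.re - 2 * c.im * e.re * A.re + c.im * e.re * A.re ^ 2 +
      c.im * e.re * A.im ^ 2 - 2 * c.re * e.im - 2 * c.re * e.im * A.re - c.re * e.im * A.re ^ 2
      - c.re * e.im * A.im ^ 2 + 2 * c.re * e.re * A.im) * hN

private theorem V7a_area5 (A a b c : ℂ) (hN : A.re ^ 2 + A.im ^ 2 = 1) :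
    2 * (cr a b + cr b c + cr c (c + A * (starRingEnd ℂ) (b - a)) +
      cr (c + A * (starRingEnd ℂ) (b - a))
        (c + A * (starRingEnd ℂ) (b - a) - A * (starRingEnd ℂ) (c - b)) +
      cr (c + A * (starRingEnd ℂ) (b - a) - A * (starRingEnd ℂ) (c - b)) a) =
    cr ((a - A * (starRingEnd ℂ) c) + A * (starRingEnd ℂ) (a - A * (starRingEnd ℂ) c))
      ((b + A * (starRingEnd ℂ) (c + A * (starRingEnd ℂ) (b - a))) -
        A * (starRingEnd ℂ) (b + A * (starRingEnd ℂ) (c + A * (starRingEnd ℂ) (b - a)))) := by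
  unfold cr
  simp only [add_re, add_im, sub_re, sub_im, mul_re, mul_im, conj_re, conj_im]
  linear_combination (4 * a.im * a.re * A.re - 2 * a.im * b.im * A.im + a.im * b.re - 2 * a.im * b.re * A.re +
      a.im * b.re * A.re ^ 2 + a.im * b.re * A.im ^ 2 - a.im * c.im * A.re ^ 2 * A.im - a.im *
      c.im * A.im - a.im * c.im * A.im ^ 3 - 2 * a.im * c.re - a.im * c.re * A.re - a.im * c.re
      * A.re * A.im ^ 2 - 2 * a.im * c.re * A.re ^ 2 - a.im * c.re * A.re ^ 3 - 2 * a.im * c.re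
      * A.im ^ 2 + 2 * a.im ^ 2 * A.im - a.re * b.im - 2 * a.re * b.im * A.re - a.re * b.im *
      A.re ^ 2 - a.re * b.im * A.im ^ 2 + 2 * a.re * b.re * A.im + 2 * a.re * c.im - a.re * c.im
      * A.re - a.re * c.im * A.re * A.im ^ 2 + 2 * a.re * c.im * A.re ^ 2 - a.re * c.im * A.re ^
      3 + 2 * a.re * c.im * A.im ^ 2 + a.re * c.re * A.re ^ 2 * A.im + a.re * c.re * A.im + a.re
      * c.re * A.im ^ 3 - 2 * a.re ^ 2 * A.im + b.im * c.im * A.re ^ 2 * A.im + 3 * b.im * c.im
      * A.im + b.im * c.im * A.im ^ 3 + 2 * b.im * c.re + 3 * b.im * c.re * A.re + b.im * c.re *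
      A.re * A.im ^ 2 + 2 * b.im * c.re * A.re ^ 2 + b.im * c.re * A.re ^ 3 + 2 * b.im * c.re *
      A.im ^ 2 - 2 * b.re * c.im + 3 * b.re * c.im * A.re + b.re * c.im * A.re * A.im ^ 2 - 2 *
      b.re * c.im * A.re ^ 2 + b.re * c.im * A.re ^ 3 - 2 * b.re * c.im * A.im ^ 2 - b.re * c.re
      * A.re ^ 2 * A.im - 3 * b.re * c.re * A.im - b.re * c.re * A.im ^ 3 - 4 * c.im * c.re *
      A.re - 2 * c.im ^ 2 * A.im + 2 * c.re ^ 2 * A.im) * hN

private theorem V7a_sum5 (f : ZMod 5 → ℝ) : ∑ i, f i = f 0 + f 1 + f 2 + f 3 + f 4 :=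
  Fin.sum_univ_five f

private theorem V7a_sum6 (f : ZMod 6 → ℝ) : ∑ i, f i = f 0 + f 1 + f 2 + f 3 + f 4 + f 5 :=
  Fin.sum_univ_six f

private theorem V7a_norm (A : ℂ) (hA : ‖A‖ = 1) :
    A * (starRingEnd ℂ) A = 1 ∧ A.re ^ 2 + A.im ^ 2 = 1 := by
  constructor
  · rw [Complex.mul_conj, Complex.normSq_eq_norm_sq, hA]
    simp
  · have h1 := Complex.sq_norm A
    rw [hA, Complex.normSq_apply] at h1
    nlinarith

theorem critC (P : Polygon 6) (hc : P.CCW) (A : ℂ) (hA : ‖A‖ = 1)
    (h0 : P.vertex 1 - P.vertex 0 = A * (starRingEnd ℂ) (P.vertex 3 - P.vertex 2))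
    (h1 : P.vertex 2 - P.vertex 1 = -(A * (starRingEnd ℂ) (P.vertex 5 - P.vertex 4))) :
    HasPeriodic P := by
  obtain ⟨hAA, hN⟩ := V7a_norm A hA
  have e1 : (0 : ZMod 6) + 1 = 1 := rfl
  have e2 : (1 : ZMod 6) + 1 = 2 := rfl
  have e3 : (2 : ZMod 6) + 1 = 3 := rfl
  have e4 : (3 : ZMod 6) + 1 = 4 := rfl
  have e5 : (4 : ZMod 6) + 1 = 5 := rfl
  have e6 : (5 : ZMod 6) + 1 = 0 := rfl
  have h3 : P.vertex 3 = P.vertex 2 + A * (starRingEnd ℂ) (P.vertex 1 - P.vertex 0) := by
    have := V7a_conj A _ _ hAA h0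
    linear_combination this
  have h5 : P.vertex 5 = P.vertex 4 - A * (starRingEnd ℂ) (P.vertex 2 - P.vertex 1) := by
    have := V7a_conj A (P.vertex 2 - P.vertex 1) (-(P.vertex 5 - P.vertex 4)) hAA (by
      rw [h1, map_neg]
      ring)
    linear_combination -this
  have hAr := P.area_eq hc
  rw [V7a_sum6, e1, e2, e3, e4, e5, e6] at hAr
  have hcr : 4 * (volume P.region).toReal =
      cr ((P.vertex 0 - A * (starRingEnd ℂ) (P.vertex 2)) +
          A * (starRingEnd ℂ) (P.vertex 0 - A * (starRingEnd ℂ) (P.vertex 2)))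
        ((P.vertex 1 + A * (starRingEnd ℂ) (P.vertex 4)) -
          A * (starRingEnd ℂ) (P.vertex 1 + A * (starRingEnd ℂ) (P.vertex 4))) := by
    rw [← V7a_area6 A _ _ _ _ hN, hAr, h3, h5]
    ring
  have hA2 : 4 * (volume P.region).toReal =
      |cr ((P.vertex 0 - A * (starRingEnd ℂ) (P.vertex 2)) +
          A * (starRingEnd ℂ) (P.vertex 0 - A * (starRingEnd ℂ) (P.vertex 2)))
        ((P.vertex 1 + A * (starRingEnd ℂ) (P.vertex 4)) -
          A * (starRingEnd ℂ) (P.vertex 1 + A * (starRingEnd ℂ) (P.vertex 4)))| := by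
    rw [abs_of_nonneg, hcr]
    rw [← hcr]
    positivity
  refine pgg_criterion hc (sideChain P hc 0) A (P.vertex 0 - A * (starRingEnd ℂ) (P.vertex 2))
    (P.vertex 1 + A * (starRingEnd ℂ) (P.vertex 4)) hA ![2, 4, 0, 3, 1, 5] (by decide)
    ![2, 3, 2, 1, 3, 1] (by decide) ![(0, 0), (0, 0), (-1, 0), (-1, 0), (0, -1), (0, 0)]
    (by decide) ?_ hA2
  have k0 := h0
  have k1 := h1
  have k3 := h3
  have k5 := h5
  simp only [map_sub] at k0 k1 k3 k5
  intro y
  fin_cases y
  · simp [sideChain, lv, pgg, e3]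
    linear_combination -k0
  · simp [sideChain, lv, pgg, e2, e5]
    linear_combination -k1
  · simp [sideChain, lv, pgg, e3]
    constructor
    · linear_combination P.vertex 2 * hAA
    · linear_combination P.vertex 2 * hAA - k3
  · simp [sideChain, lv, pgg, e4]
    constructor <;> linear_combination (P.vertex 4 + P.vertex 2) * hAA - k3
  · simp [sideChain, lv, pgg, e5, e2]
    constructor
    · linear_combination P.vertex 4 * hAA
    · linear_combination P.vertex 4 * hAA - k5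
  · simp [sideChain, lv, pgg, e6]
    constructor <;> linear_combination P.vertex 4 * hAA - k5

theorem critA (P : Polygon 5) (hc : P.CCW) (A : ℂ) (hA : ‖A‖ = 1)
    (h0 : P.vertex 1 - P.vertex 0 = A * (starRingEnd ℂ) (P.vertex 3 - P.vertex 2))
    (h1 : P.vertex 2 - P.vertex 1 = -(A * (starRingEnd ℂ) (P.vertex 4 - P.vertex 3))) :
    HasPeriodic P := by
  obtain ⟨hAA, hN⟩ := V7a_norm A hA
  have e1 : (0 : ZMod 5) + 1 = 1 := rfl
  have e2 : (1 : ZMod 5) + 1 = 2 := rfl
  have e3 : (2 : ZMod 5) + 1 = 3 := rfl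
  have e4 : (3 : ZMod 5) + 1 = 4 := rfl
  have e5 : (4 : ZMod 5) + 1 = 0 := rfl
  have h3 : P.vertex 3 = P.vertex 2 + A * (starRingEnd ℂ) (P.vertex 1 - P.vertex 0) := by
    have := V7a_conj A _ _ hAA h0
    linear_combination this
  have h4 : P.vertex 4 = P.vertex 3 - A * (starRingEnd ℂ) (P.vertex 2 - P.vertex 1) := by
    have := V7a_conj A (P.vertex 2 - P.vertex 1) (-(P.vertex 4 - P.vertex 3)) hAA (by
      rw [h1, map_neg]
      ring)
    linear_combination -this
  have hAr := P.area_eq hc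
  rw [V7a_sum5, e1, e2, e3, e4, e5] at hAr
  have hcr : 4 * (volume P.region).toReal =
      cr ((P.vertex 0 - A * (starRingEnd ℂ) (P.vertex 2)) +
          A * (starRingEnd ℂ) (P.vertex 0 - A * (starRingEnd ℂ) (P.vertex 2)))
        ((P.vertex 1 + A * (starRingEnd ℂ) (P.vertex 3)) -
          A * (starRingEnd ℂ) (P.vertex 1 + A * (starRingEnd ℂ) (P.vertex 3))) := by
    rw [hAr, h4, h3, ← V7a_area5 A _ _ _ hN]
    ring
  have hA2 : 4 * (volume P.region).toReal =
      |cr ((P.vertex 0 - A * (starRingEnd ℂ) (P.vertex 2)) +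
          A * (starRingEnd ℂ) (P.vertex 0 - A * (starRingEnd ℂ) (P.vertex 2)))
        ((P.vertex 1 + A * (starRingEnd ℂ) (P.vertex 3)) -
          A * (starRingEnd ℂ) (P.vertex 1 + A * (starRingEnd ℂ) (P.vertex 3)))| := by
    rw [abs_of_nonneg, hcr]
    rw [← hcr]
    positivity
  refine pgg_criterion hc (sideChain P hc 0) A (P.vertex 0 - A * (starRingEnd ℂ) (P.vertex 2))
    (P.vertex 1 + A * (starRingEnd ℂ) (P.vertex 3)) hA ![2, 3, 0, 1, 4] (by decide)
    ![2, 3, 2, 3, 1] (by decide) ![(0, 0), (0, 0), (-1, 0), (0, -1), (0, 0)]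
    (by decide) ?_ hA2
  have k0 := h0
  have k1 := h1
  have k3 := h3
  have k4 := h4
  simp only [map_sub] at k0 k1 k3 k4
  intro y
  fin_cases y
  · simp [sideChain, lv, pgg, e3]
    linear_combination -k0
  · simp [sideChain, lv, pgg, e2, e4]
    linear_combination -k1
  · simp [sideChain, lv, pgg, e3]
    constructor
    · linear_combination P.vertex 2 * hAA
    · linear_combination P.vertex 2 * hAA - k3
  · simp [sideChain, lv, pgg, e4, e2]
    constructor
    · linear_combination P.vertex 3 * hAA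
    · linear_combination P.vertex 3 * hAA - k4
  · simp [sideChain, lv, pgg, e5]
    constructor <;> linear_combination P.vertex 3 * hAA - k4

end Pool.Agent.Lib_MP_fa6e45
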