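import Pool.Agent.Lib_MP_fa6e45.V8a

/-!
PIECE V7b (about 200 lines): hexagons of type p3 and pentagons of type p4, p6, from `rot_criterion` applied to
the polygon translated such that the rotation centre is the origin: either translate the polygon (then
`HasPeriodic` is transported) or, simpler, note that `rot_criterion` needs the centre at 0: FIRST generalise: piece
owner may add to V7b a version of `rot_criterion` with centre `o` (conjugate by the translation; the chain
for the translated polygon), or prove `translate`: the polygon `P + o`. Statements with `ω = exp (2πi/3)`, `ζ = exp (πi/3)`.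
`critD`: centre `V1`; `R1 z = ω z`, `V0 = ω V2`, `V3 = - ω V5` follows, `u = (1 - ω) V3`. side 1: neighbour `ω² P` with
side 0, side 0: `ω P` with side 1; side 2: `ω P + u` with side 3 (`V2 - V3 = ω (V4 - V3)`); side 4: `ω P + (1 - ω) V5`
with side 5, `(1 - ω) V5` is a lattice vector; area: `3 area = |cr u (ω u)|`.
`crit36`: centre `V3` (order 6), `V2 = ζ V4`, `V0 + V4 = (1 - ω) V1 =: u`: side 2: `ζ P` with side 3; side 0:
`ω P + u` with side 1 (`V0 - V1 = ω (V2 - V1)`); side 4: `- P + u` with itself; `6 area = |cr u (ζ u)|`.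
`crit44`: centre `V3`, `V2 = i V4`, `u = (1 - i) V1`, `4 area = |cr u (i u)|`. `crit63`: centre `V1` (order 6),
`V0 = ζ V2`, `V2 - V3 = ω (V4 - V3)`, `V0 + V4 = (1 - ω⁻¹) V3`.
-/

open Set MeasureTheory Complex
open scoped Topology

namespace Pool.Agent.Lib_MP_fa6e45

open Pool.Agent.Lib_PL (cr InSector Poly)

private theorem V7b_seg (a b o z : ℂ) : z ∈ segment ℝ (a - o) (b - o) ↔ z + o ∈ segment ℝ a b := by
  have h := mem_segment_translate ℝ (-o) (x := z + o) (b := a) (c := b)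
  have e1 : -o + (z + o) = z := by ring
  have e2 : -o + a = a - o := by ring
  have e3 : -o + b = b - o := by ring
  rwa [e1, e2, e3] at h

/-- the translated polygon -/
def Polygon.translate {n : ℕ} (P : Polygon n) (o : ℂ) : Polygon n where
  vertex := fun i => P.vertex i - o
  three_le := P.three_le
  injective := fun i j h => P.injective (sub_left_injective h)
  simple := by
    intro i j hij z hz
    have h1 := P.simple i j hij ⟨(V7b_seg _ _ _ _).1 hz.1, (V7b_seg _ _ _ _).1 hz.2⟩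
    simp only [mem_inter_iff, mem_insert_iff, mem_singleton_iff] at h1 ⊢
    refine ⟨h1.1.imp (fun h => ?_) (fun h => ?_), h1.2.imp (fun h => ?_) (fun h => ?_)⟩ <;>
      linear_combination h
  corner := by
    intro i h
    apply P.corner i
    rw [collinear_iff_exists_forall_eq_smul_vadd] at h ⊢
    obtain ⟨p₀, v, hv⟩ := h
    refine ⟨p₀ + o, v, ?_⟩
    intro p hp
    obtain ⟨r, hr⟩ := hv (p - o) (by
      simp only [mem_insert_iff, mem_singleton_iff] at hp ⊢
      rcases hp with h | h | h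
      · exact Or.inl (by rw [h])
      · exact Or.inr (Or.inl (by rw [h]))
      · exact Or.inr (Or.inr (by rw [h])))
    refine ⟨r, ?_⟩
    simp only [vadd_eq_add] at hr ⊢
    linear_combination hr

private theorem V7b_boundary {n : ℕ} (P : Polygon n) (o : ℂ) :
    (P.translate o).toSimplePolygon.boundary = (fun z => z - o) '' P.toSimplePolygon.boundary := by
  ext z
  simp only [Pool.Agent.Lib_PL.SimplePolygon.boundary, mem_iUnion, mem_image]
  constructor
  · rintro ⟨i, hi⟩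
    exact ⟨z + o, ⟨i, (V7b_seg _ _ _ _).1 hi⟩, by ring⟩
  · rintro ⟨w, ⟨i, hi⟩, rfl⟩
    refine ⟨i, (V7b_seg _ _ _ _).2 ?_⟩
    rw [sub_add_cancel]
    exact hi

private theorem V7b_sinner {n : ℕ} (P : Polygon n) (o : ℂ) :
    (P.translate o).toSimplePolygon.inner = (fun z => z - o) '' P.toSimplePolygon.inner := by
  have hc : (P.translate o).toSimplePolygon.boundaryᶜ =
      (Homeomorph.subRight o) '' P.toSimplePolygon.boundaryᶜ := by
    rw [V7b_boundary]
    exact (image_compl_eq (Homeomorph.subRight o).bijective).symm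
  have hb : ∀ w ∈ P.toSimplePolygon.boundaryᶜ,
      (Bornology.IsBounded (connectedComponentIn (P.translate o).toSimplePolygon.boundaryᶜ (w - o)) ↔
        Bornology.IsBounded (connectedComponentIn P.toSimplePolygon.boundaryᶜ w)) := by
    intro w hw
    have h1 := (Homeomorph.subRight o).image_connectedComponentIn hw
    rw [← hc] at h1
    have h2 : (Homeomorph.subRight o) w = w - o := rfl
    rw [h2] at h1
    rw [← h1]
    constructor
    · intro h
      have h3 := h.add (Bornology.isBounded_singleton (x := o))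
      refine h3.subset ?_
      intro z hz
      exact ⟨z - o, ⟨z, hz, rfl⟩, o, rfl, by simp⟩
    · intro h
      have h3 := h.add (Bornology.isBounded_singleton (x := -o))
      refine h3.subset ?_
      rintro _ ⟨z, hz, rfl⟩
      exact ⟨z, hz, -o, rfl, (sub_eq_add_neg z o).symm⟩
  ext z
  simp only [mem_image]
  constructor
  · rintro ⟨h1, h2⟩
    have hw : z + o ∈ P.toSimplePolygon.boundaryᶜ := by
      intro h
      apply h1
      rw [V7b_boundary]
      exact ⟨z + o, h, by simp⟩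
    refine ⟨z + o, ⟨hw, (hb _ hw).1 ?_⟩, by simp⟩
    rw [add_sub_cancel_right]
    exact h2
  · rintro ⟨w, ⟨h1, h2⟩, rfl⟩
    refine ⟨?_, (hb w h1).2 h2⟩
    rw [V7b_boundary]
    rintro ⟨w', hw', he⟩
    have : w' = w := by
      have h3 : w' - o = w - o := he
      linear_combination h3
    rw [this] at hw'
    exact h1 hw'

private theorem V7b_region {n : ℕ} (P : Polygon n) (o : ℂ) :
    (P.translate o).region = (fun z => z - o) '' P.region := by
  show (P.translate o).toSimplePolygon.region = (fun z => z - o) '' P.toSimplePolygon.region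
  unfold Pool.Agent.Lib_PL.SimplePolygon.region
  rw [V7b_boundary, V7b_sinner, image_union]

private theorem V7b_inner {n : ℕ} (P : Polygon n) : P.inner = P.toSimplePolygon.inner := by
  have h1 : P.toPoly.C = P.toSimplePolygon.boundary := P.bdry_eq
  show P.toPoly.I = _
  unfold Pool.Agent.Lib_PL.Poly.I Pool.Agent.Lib_PL.SimplePolygon.inner
  rw [h1]

theorem Polygon.translate_ccw {n : ℕ} {P : Polygon n} (hc : P.CCW) (o : ℂ) :
    (P.translate o).CCW := by
  intro z hz
  have h1 : z ∈ (P.translate o).toSimplePolygon.inner := by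
    rw [← V7b_inner]
    exact hz
  rw [V7b_sinner, ← V7b_inner] at h1
  obtain ⟨w, hw, rfl⟩ := h1
  have h2 := hc w hw
  rw [← h2]
  unfold Pool.Agent.Lib_PL.Poly.wind
  congr 1
  refine Finset.sum_congr rfl fun i _ => ?_
  have h3 : ∀ m : ℤ, (P.translate o).toPoly.V m - (w - o) = P.toPoly.V m - w := by
    intro m
    show P.vertex (m : ZMod n) - o - (w - o) = P.vertex (m : ZMod n) - w
    ring
  rw [h3, h3]

theorem Polygon.translate_periodic {n : ℕ} {P : Polygon n} {o : ℂ}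
    (h : HasPeriodic (P.translate o)) : HasPeriodic P := by
  obtain ⟨𝒯, hT, hP⟩ := h
  refine ⟨𝒯, ⟨?_, hT.cover, hT.disj⟩, hP⟩
  intro t ht
  obtain ⟨g, hg⟩ := hT.congruent t ht
  refine ⟨(IsometryEquiv.subRight o).trans g, ?_⟩
  rw [hg, V7b_region, image_image]
  rfl

private theorem V7b_w {θ : ℝ} : exp ((θ : ℂ) * Complex.I) = ⟨Real.cos θ, Real.sin θ⟩ := by
  apply Complex.ext
  · rw [Complex.exp_ofReal_mul_I_re]
  · rw [Complex.exp_ofReal_mul_I_im]

private theorem V7b_s3 : Real.sin (2 * Real.pi / 3) = Real.sqrt 3 / 2 := by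
  have : 2 * Real.pi / 3 = Real.pi - Real.pi / 3 := by ring
  rw [this, Real.sin_pi_sub, Real.sin_pi_div_three]

private theorem V7b_c3 : Real.cos (2 * Real.pi / 3) = -(1 / 2) := by
  have : 2 * Real.pi / 3 = Real.pi - Real.pi / 3 := by ring
  rw [this, Real.cos_pi_sub, Real.cos_pi_div_three]

/-- the primitive sixth root of unity -/
private theorem V7b_zeta : ∃ s : ℝ, 0 < s ∧ s * s = 3 / 4 ∧
    exp (((Real.pi / 3 : ℝ) : ℂ) * Complex.I) = ⟨1 / 2, s⟩ ∧
    exp (((2 * Real.pi / 3 : ℝ) : ℂ) * Complex.I) = ⟨-(1 / 2), s⟩ := by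
  refine ⟨Real.sqrt 3 / 2, by positivity, ?_, ?_, ?_⟩
  · have := Real.mul_self_sqrt (show (0 : ℝ) ≤ 3 by norm_num)
    linarith
  · rw [V7b_w, Real.cos_pi_div_three, Real.sin_pi_div_three]
  · rw [V7b_w, V7b_c3, V7b_s3]

private theorem V7b_i : exp (((Real.pi / 2 : ℝ) : ℂ) * Complex.I) = Complex.I := by
  rw [V7b_w, Real.cos_pi_div_two, Real.sin_pi_div_two]
  rfl

private theorem k5p (Q : Polygon 5) (hc : Q.CCW) (i : Fin 5) :
    (sideChain Q hc 0).p i =
      (![Q.vertex 0, Q.vertex 1, Q.vertex 2, Q.vertex 3, Q.vertex 4] : Fin 5 → ℂ) i := by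
  show Q.vertex (0 + ((i : ℕ) : ZMod 5)) = _
  fin_cases i <;> rfl

private theorem k5q (Q : Polygon 5) (hc : Q.CCW) (i : Fin 5) :
    (sideChain Q hc 0).q i =
      (![Q.vertex 1, Q.vertex 2, Q.vertex 3, Q.vertex 4, Q.vertex 0] : Fin 5 → ℂ) i := by
  show Q.vertex (0 + ((i : ℕ) : ZMod 5) + 1) = _
  fin_cases i <;> rfl

private theorem k6p (Q : Polygon 6) (hc : Q.CCW) (i : Fin 6) :
    (sideChain Q hc 0).p i =
      (![Q.vertex 0, Q.vertex 1, Q.vertex 2, Q.vertex 3, Q.vertex 4, Q.vertex 5] : Fin 6 → ℂ) i := by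
  show Q.vertex (0 + ((i : ℕ) : ZMod 6)) = _
  fin_cases i <;> rfl

private theorem k6q (Q : Polygon 6) (hc : Q.CCW) (i : Fin 6) :
    (sideChain Q hc 0).q i =
      (![Q.vertex 1, Q.vertex 2, Q.vertex 3, Q.vertex 4, Q.vertex 5, Q.vertex 0] : Fin 6 → ℂ) i := by
  show Q.vertex (0 + ((i : ℕ) : ZMod 6) + 1) = _
  fin_cases i <;> rfl

private theorem shoe5 (Q : Polygon 5) (hc : Q.CCW) :
    2 * (volume Q.region).toReal = cr (Q.vertex 0) (Q.vertex 1) +
      cr (Q.vertex 1) (Q.vertex 2) + cr (Q.vertex 2) (Q.vertex 3) +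
      cr (Q.vertex 3) (Q.vertex 4) + cr (Q.vertex 4) (Q.vertex 0) := by
  have h := Fin.sum_univ_five (fun i : ZMod 5 => cr (Q.vertex i) (Q.vertex (i + 1)))
  rw [Q.area_eq hc]
  have h2 : ∑ i : ZMod 5, cr (Q.vertex i) (Q.vertex (i + 1)) = cr (Q.vertex 0) (Q.vertex 1) +
      cr (Q.vertex 1) (Q.vertex 2) + cr (Q.vertex 2) (Q.vertex 3) +
      cr (Q.vertex 3) (Q.vertex 4) + cr (Q.vertex 4) (Q.vertex 0) := h
  rw [h2]
  ring

private theorem shoe6 (Q : Polygon 6) (hc : Q.CCW) :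
    2 * (volume Q.region).toReal = cr (Q.vertex 0) (Q.vertex 1) +
      cr (Q.vertex 1) (Q.vertex 2) + cr (Q.vertex 2) (Q.vertex 3) +
      cr (Q.vertex 3) (Q.vertex 4) + cr (Q.vertex 4) (Q.vertex 5) +
      cr (Q.vertex 5) (Q.vertex 0) := by
  have h := Fin.sum_univ_six (fun i : ZMod 6 => cr (Q.vertex i) (Q.vertex (i + 1)))
  rw [Q.area_eq hc]
  have h2 : ∑ i : ZMod 6, cr (Q.vertex i) (Q.vertex (i + 1)) = cr (Q.vertex 0) (Q.vertex 1) +
      cr (Q.vertex 1) (Q.vertex 2) + cr (Q.vertex 2) (Q.vertex 3) +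
      cr (Q.vertex 3) (Q.vertex 4) + cr (Q.vertex 4) (Q.vertex 5) +
      cr (Q.vertex 5) (Q.vertex 0) := h
  rw [h2]
  ring

private theorem V7b_six {ζ : ℂ} {s : ℝ} (hss : s * s = 3 / 4) (hz : ζ = ⟨1 / 2, s⟩) :
    ζ ^ 2 = ζ - 1 ∧ ζ ^ 3 = -1 ∧ ζ ^ 6 = 1 ∧ ‖ζ‖ = 1 := by
  have h2 : ζ ^ 2 = ζ - 1 := by
    rw [hz]
    apply Complex.ext
    · simp [pow_two]
      linarith
    · simp [pow_two]
      ring
  have h3 : ζ ^ 3 = -1 := by
    linear_combination (ζ + 1) * h2
  have h6 : ζ ^ 6 = 1 := by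
    linear_combination (ζ ^ 3 - 1) * h3
  have h1 : ‖ζ‖ ^ 6 = 1 := by
    rw [← norm_pow, h6, norm_one]
  exact ⟨h2, h3, h6, (pow_eq_one_iff_of_nonneg (norm_nonneg _) (by norm_num)).1 h1⟩

private theorem core36 (Q : Polygon 5) (hc : Q.CCW) (ζ : ℂ) (s : ℝ)
    (hss : s * s = 3 / 4) (hz : ζ = ⟨1 / 2, s⟩) (h3 : Q.vertex 3 = 0)
    (h2 : Q.vertex 2 = ζ * Q.vertex 4)
    (h0 : Q.vertex 0 = -Q.vertex 4 + (2 - ζ) * Q.vertex 1) : HasPeriodic Q := by
  obtain ⟨hζ2, hζ3, hζ6, hζ1⟩ := V7b_six hss hz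
  have hζ2' : ζ ^ 2 = ((-1 : ℤ) : ℂ) + ((1 : ℤ) : ℂ) * ζ := by
    rw [hζ2]
    push_cast
    ring
  refine rot_criterion hc (sideChain Q hc 0) 6 (by norm_num) ζ ((2 - ζ) * Q.vertex 1) hζ1 hζ6
    (-1) 1 hζ2' ?_ ![1, 0, 3, 2, 4] (by decide) ![2, 4, 1, 5, 3] (by decide)
    ![(1, 0), (0, 1), (0, 0), (0, 0), (1, 0)] (by decide) ?_ ?_
  · rintro ⟨a, b⟩
    simp only [Function.iterate_succ, Function.iterate_zero, Function.comp, id, rmul]
    ext <;> simp
  · intro y
    rw [k5p, k5q, k5p, k5q]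
    fin_cases y
    · show ζ ^ 2 * Q.vertex 1 + lv _ _ (1, 0) = Q.vertex 1 ∧
        ζ ^ 2 * Q.vertex 2 + lv _ _ (1, 0) = Q.vertex 0
      simp only [lv]
      push_cast
      rw [h0, h2]
      constructor
      · linear_combination Q.vertex 1 * hζ2
      · linear_combination Q.vertex 4 * hζ3
    · show ζ ^ 4 * Q.vertex 0 + lv _ _ (0, 1) = Q.vertex 2 ∧
        ζ ^ 4 * Q.vertex 1 + lv _ _ (0, 1) = Q.vertex 1
      simp only [lv]
      push_cast
      rw [h0, h2]
      constructor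
      · linear_combination (ζ * (-Q.vertex 4 + (2 - ζ) * Q.vertex 1)) * hζ3
      · linear_combination ζ * Q.vertex 1 * hζ3 - Q.vertex 1 * hζ2
    · show ζ ^ 1 * Q.vertex 3 + lv _ _ (0, 0) = Q.vertex 3 ∧
        ζ ^ 1 * Q.vertex 4 + lv _ _ (0, 0) = Q.vertex 2
      simp only [lv]
      push_cast
      rw [h3, h2]
      constructor <;> ring
    · show ζ ^ 5 * Q.vertex 2 + lv _ _ (0, 0) = Q.vertex 4 ∧
        ζ ^ 5 * Q.vertex 3 + lv _ _ (0, 0) = Q.vertex 3
      simp only [lv]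
      push_cast
      rw [h3, h2]
      constructor
      · linear_combination Q.vertex 4 * hζ6
      · ring
    · show ζ ^ 3 * Q.vertex 4 + lv _ _ (1, 0) = Q.vertex 0 ∧
        ζ ^ 3 * Q.vertex 0 + lv _ _ (1, 0) = Q.vertex 4
      simp only [lv]
      push_cast
      rw [h0]
      constructor
      · linear_combination Q.vertex 4 * hζ3
      · linear_combination (-Q.vertex 4 + (2 - ζ) * Q.vertex 1) * hζ3
  · have h4 : 0 ≤ (volume Q.region).toReal := ENNReal.toReal_nonneg
    have hsh := shoe5 Q hc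
    rw [h0, h2, h3, hz] at hsh
    generalize (volume Q.region).toReal = A at *
    generalize Q.vertex 1 = b at *
    generalize Q.vertex 4 = a at *
    rw [hz]
    have h5 : cr ((2 - (⟨1 / 2, s⟩ : ℂ)) * b) ((⟨1 / 2, s⟩ : ℂ) * ((2 - (⟨1 / 2, s⟩ : ℂ)) * b)) =
        6 * A := by
      simp only [cr, mul_re, mul_im, add_re, add_im, sub_re, sub_im, neg_re, neg_im, re_ofNat,
        im_ofNat, zero_re, zero_im] at hsh ⊢
      linear_combination (-3) * hsh + (s * b.im * b.im + s * b.re * b.re) * hss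
    rw [h5, abs_of_nonneg (by linarith)]
    norm_num

private theorem core63 (Q : Polygon 5) (hc : Q.CCW) (ζ : ℂ) (s : ℝ)
    (hss : s * s = 3 / 4) (hz : ζ = ⟨1 / 2, s⟩) (h1 : Q.vertex 1 = 0)
    (h0 : Q.vertex 0 = ζ * Q.vertex 2)
    (h2 : Q.vertex 2 = (ζ - 1) * Q.vertex 4 + (2 - ζ) * Q.vertex 3) : HasPeriodic Q := by
  obtain ⟨hζ2, hζ3, hζ6, hζ1⟩ := V7b_six hss hz
  have hζ2' : ζ ^ 2 = ((-1 : ℤ) : ℂ) + ((1 : ℤ) : ℂ) * ζ := by
    rw [hζ2]
    push_cast
    ring
  have h0' : Q.vertex 0 = -Q.vertex 4 + (1 + ζ) * Q.vertex 3 := by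
    rw [h0, h2]
    linear_combination (Q.vertex 4 - Q.vertex 3) * hζ2
  refine rot_criterion hc (sideChain Q hc 0) 6 (by norm_num) ζ ((1 + ζ) * Q.vertex 3) hζ1 hζ6
    (-1) 1 hζ2' ?_ ![1, 0, 3, 2, 4] (by decide) ![1, 5, 2, 4, 3] (by decide)
    ![(0, 0), (0, 0), (1, -1), (1, 0), (1, 0)] (by decide) ?_ ?_
  · rintro ⟨a, b⟩
    simp only [Function.iterate_succ, Function.iterate_zero, Function.comp, id, rmul]
    ext <;> simp
  · intro y
    rw [k5p, k5q, k5p, k5q]
    fin_cases y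
    · show ζ ^ 1 * Q.vertex 1 + lv _ _ (0, 0) = Q.vertex 1 ∧
        ζ ^ 1 * Q.vertex 2 + lv _ _ (0, 0) = Q.vertex 0
      simp only [lv]
      push_cast
      rw [h0, h1]
      constructor <;> ring
    · show ζ ^ 5 * Q.vertex 0 + lv _ _ (0, 0) = Q.vertex 2 ∧
        ζ ^ 5 * Q.vertex 1 + lv _ _ (0, 0) = Q.vertex 1
      simp only [lv]
      push_cast
      rw [h0, h1]
      constructor
      · linear_combination Q.vertex 2 * hζ6
      · ring
    · show ζ ^ 2 * Q.vertex 3 + lv _ _ (1, -1) = Q.vertex 3 ∧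
        ζ ^ 2 * Q.vertex 4 + lv _ _ (1, -1) = Q.vertex 2
      simp only [lv]
      push_cast
      rw [h2]
      constructor
      · ring
      · linear_combination (Q.vertex 4 - Q.vertex 3) * hζ2
    · show ζ ^ 4 * Q.vertex 2 + lv _ _ (1, 0) = Q.vertex 4 ∧
        ζ ^ 4 * Q.vertex 3 + lv _ _ (1, 0) = Q.vertex 3
      simp only [lv]
      push_cast
      rw [h2]
      constructor
      · linear_combination (ζ * ((ζ - 1) * Q.vertex 4 + (2 - ζ) * Q.vertex 3)) * hζ3 +
          (Q.vertex 3 - Q.vertex 4) * hζ2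
      · linear_combination ζ * Q.vertex 3 * hζ3
    · show ζ ^ 3 * Q.vertex 4 + lv _ _ (1, 0) = Q.vertex 0 ∧
        ζ ^ 3 * Q.vertex 0 + lv _ _ (1, 0) = Q.vertex 4
      simp only [lv]
      push_cast
      rw [h0']
      constructor
      · linear_combination Q.vertex 4 * hζ3
      · linear_combination (-Q.vertex 4 + (1 + ζ) * Q.vertex 3) * hζ3
  · have h4 : 0 ≤ (volume Q.region).toReal := ENNReal.toReal_nonneg
    have hsh := shoe5 Q hc
    have h2' : Q.vertex 2 = ⟨-(1 / 2), s⟩ * Q.vertex 4 + (1 - ⟨-(1 / 2), s⟩) * Q.vertex 3 := by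
      rw [h2, hz]
      have e1 : (⟨1 / 2, s⟩ : ℂ) = ⟨-(1 / 2), s⟩ + 1 := by
        apply Complex.ext
        · simp
          norm_num
        · simp
      rw [e1]
      ring
    rw [h0', h2', h1, hz] at hsh
    generalize (volume Q.region).toReal = A at *
    generalize Q.vertex 3 = b at *
    generalize Q.vertex 4 = a at *
    rw [hz]
    have h5 : cr ((1 + (⟨1 / 2, s⟩ : ℂ)) * b) ((⟨1 / 2, s⟩ : ℂ) * ((1 + (⟨1 / 2, s⟩ : ℂ)) * b)) =
        6 * A := by
      simp only [cr, mul_re, mul_im, add_re, add_im, sub_re, sub_im, neg_re, neg_im,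
        zero_re, zero_im, one_re, one_im] at hsh ⊢
      linear_combination (-3) * hsh + (s * b.im * b.im + s * b.re * b.re) * hss
    rw [h5, abs_of_nonneg (by linarith)]
    norm_num

private theorem core44 (Q : Polygon 5) (hc : Q.CCW) (h3 : Q.vertex 3 = 0)
    (h2 : Q.vertex 2 = Complex.I * Q.vertex 4)
    (h0 : Q.vertex 0 = -Q.vertex 4 + (1 - Complex.I) * Q.vertex 1) : HasPeriodic Q := by
  have hI2 : Complex.I ^ 2 = -1 := Complex.I_sq
  have hI4 : Complex.I ^ 4 = 1 := by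
    linear_combination (Complex.I ^ 2 - 1) * hI2
  have hI2' : Complex.I ^ 2 = ((-1 : ℤ) : ℂ) + ((0 : ℤ) : ℂ) * Complex.I := by
    rw [hI2]
    push_cast
    ring
  refine rot_criterion hc (sideChain Q hc 0) 4 (by norm_num) Complex.I
    ((1 - Complex.I) * Q.vertex 1) Complex.norm_I hI4
    (-1) 0 hI2' ?_ ![1, 0, 3, 2, 4] (by decide) ![1, 3, 1, 3, 2] (by decide)
    ![(1, 0), (0, 1), (0, 0), (0, 0), (1, 0)] (by decide) ?_ ?_
  · rintro ⟨a, b⟩
    simp only [Function.iterate_succ, Function.iterate_zero, Function.comp, id, rmul]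
    ext <;> simp
  · intro y
    rw [k5p, k5q, k5p, k5q]
    fin_cases y
    · show Complex.I ^ 1 * Q.vertex 1 + lv _ _ (1, 0) = Q.vertex 1 ∧
        Complex.I ^ 1 * Q.vertex 2 + lv _ _ (1, 0) = Q.vertex 0
      simp only [lv]
      push_cast
      rw [h0, h2]
      constructor
      · ring
      · linear_combination Q.vertex 4 * hI2
    · show Complex.I ^ 3 * Q.vertex 0 + lv _ _ (0, 1) = Q.vertex 2 ∧
        Complex.I ^ 3 * Q.vertex 1 + lv _ _ (0, 1) = Q.vertex 1
      simp only [lv]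
      push_cast
      rw [h0, h2]
      constructor
      · linear_combination (Complex.I * (-Q.vertex 4 + (1 - Complex.I) * Q.vertex 1)) * hI2
      · linear_combination (Complex.I * Q.vertex 1 - Q.vertex 1) * hI2
    · show Complex.I ^ 1 * Q.vertex 3 + lv _ _ (0, 0) = Q.vertex 3 ∧
        Complex.I ^ 1 * Q.vertex 4 + lv _ _ (0, 0) = Q.vertex 2
      simp only [lv]
      push_cast
      rw [h3, h2]
      constructor <;> ring
    · show Complex.I ^ 3 * Q.vertex 2 + lv _ _ (0, 0) = Q.vertex 4 ∧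
        Complex.I ^ 3 * Q.vertex 3 + lv _ _ (0, 0) = Q.vertex 3
      simp only [lv]
      push_cast
      rw [h3, h2]
      constructor
      · linear_combination Q.vertex 4 * hI4
      · ring
    · show Complex.I ^ 2 * Q.vertex 4 + lv _ _ (1, 0) = Q.vertex 0 ∧
        Complex.I ^ 2 * Q.vertex 0 + lv _ _ (1, 0) = Q.vertex 4
      simp only [lv]
      push_cast
      rw [h0]
      constructor
      · linear_combination Q.vertex 4 * hI2
      · linear_combination (-Q.vertex 4 + (1 - Complex.I) * Q.vertex 1) * hI2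
  · have h4 : 0 ≤ (volume Q.region).toReal := ENNReal.toReal_nonneg
    have hsh := shoe5 Q hc
    rw [h0, h2, h3] at hsh
    generalize (volume Q.region).toReal = A at *
    generalize Q.vertex 1 = b at *
    generalize Q.vertex 4 = a at *
    have h5 : cr ((1 - Complex.I) * b) (Complex.I * ((1 - Complex.I) * b)) = 4 * A := by
      simp only [cr, mul_re, mul_im, add_re, add_im, sub_re, sub_im, neg_re, neg_im,
        zero_re, zero_im, one_re, one_im, I_re, I_im] at hsh ⊢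
      linear_combination (-2) * hsh
    rw [h5, abs_of_nonneg (by linarith)]
    norm_num

private theorem coreD (Q : Polygon 6) (hc : Q.CCW) (ω : ℂ) (s : ℝ)
    (hss : s * s = 3 / 4) (hz : ω = ⟨-(1 / 2), s⟩) (h1 : Q.vertex 1 = 0)
    (h0 : Q.vertex 0 = ω * Q.vertex 2)
    (h2 : Q.vertex 2 = ω * Q.vertex 4 + (1 - ω) * Q.vertex 3)
    (h5 : Q.vertex 4 = ω * Q.vertex 0 + (1 - ω) * Q.vertex 5) : HasPeriodic Q := by
  have hω2 : ω ^ 2 = -1 - ω := by
    rw [hz]
    apply Complex.ext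
    · simp [pow_two]
      linarith
    · simp [pow_two]
      ring
  have hω3 : ω ^ 3 = 1 := by
    linear_combination (ω - 1) * hω2
  have hω1 : ‖ω‖ = 1 := by
    have h1 : ‖ω‖ ^ 3 = 1 := by
      rw [← norm_pow, hω3, norm_one]
    exact (pow_eq_one_iff_of_nonneg (norm_nonneg _) (by norm_num)).1 h1
  have hω2' : ω ^ 2 = ((-1 : ℤ) : ℂ) + ((-1 : ℤ) : ℂ) * ω := by
    rw [hω2]
    push_cast
    ring
  have hne : 1 - ω ≠ 0 := by
    intro h
    have h6 := congrArg Complex.re h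
    rw [hz] at h6
    simp at h6
    norm_num at h6
  have h53 : Q.vertex 5 = (1 + ω) * Q.vertex 3 := by
    apply mul_left_cancel₀ hne
    linear_combination -h5 - ω * h0 - ω ^ 2 * h2 - Q.vertex 4 * hω3 -
      (1 - ω) * Q.vertex 3 * hω2
  have h4 : Q.vertex 4 = (-1 - ω) * Q.vertex 2 + (2 + ω) * Q.vertex 3 := by
    linear_combination (-ω ^ 2) * h2 - Q.vertex 4 * hω3 + Q.vertex 2 * hω2 +
      Q.vertex 3 * hω3 - Q.vertex 3 * hω2
  refine rot_criterion hc (sideChain Q hc 0) 3 (by norm_num) ω ((1 - ω) * Q.vertex 3) hω1 hω3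
    (-1) (-1) hω2' ?_ ![1, 0, 3, 2, 5, 4] (by decide) ![1, 2, 1, 2, 1, 2] (by decide)
    ![(0, 0), (0, 0), (1, 0), (1, 1), (1, 1), (0, 1)] (by decide) ?_ ?_
  · rintro ⟨a, b⟩
    simp only [Function.iterate_succ, Function.iterate_zero, Function.comp, id, rmul]
    ext <;> simp
  · intro y
    rw [k6p, k6q, k6p, k6q]
    fin_cases y
    · show ω ^ 1 * Q.vertex 1 + lv _ _ (0, 0) = Q.vertex 1 ∧
        ω ^ 1 * Q.vertex 2 + lv _ _ (0, 0) = Q.vertex 0
      simp only [lv]
      push_cast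
      rw [h0, h1]
      constructor <;> ring
    · show ω ^ 2 * Q.vertex 0 + lv _ _ (0, 0) = Q.vertex 2 ∧
        ω ^ 2 * Q.vertex 1 + lv _ _ (0, 0) = Q.vertex 1
      simp only [lv]
      push_cast
      rw [h0, h1]
      constructor
      · linear_combination Q.vertex 2 * hω3
      · ring
    · show ω ^ 1 * Q.vertex 3 + lv _ _ (1, 0) = Q.vertex 3 ∧
        ω ^ 1 * Q.vertex 4 + lv _ _ (1, 0) = Q.vertex 2
      simp only [lv]
      push_cast
      constructor
      · ring
      · linear_combination -h2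
    · show ω ^ 2 * Q.vertex 2 + lv _ _ (1, 1) = Q.vertex 4 ∧
        ω ^ 2 * Q.vertex 3 + lv _ _ (1, 1) = Q.vertex 3
      simp only [lv]
      push_cast
      rw [h4]
      constructor
      · linear_combination (Q.vertex 2 - Q.vertex 3) * hω2
      · ring
    · show ω ^ 1 * Q.vertex 5 + lv _ _ (1, 1) = Q.vertex 5 ∧
        ω ^ 1 * Q.vertex 0 + lv _ _ (1, 1) = Q.vertex 4
      simp only [lv]
      push_cast
      rw [h0, h4, h53]
      constructor
      · ring
      · linear_combination (Q.vertex 2 - Q.vertex 3) * hω2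
    · show ω ^ 2 * Q.vertex 4 + lv _ _ (0, 1) = Q.vertex 0 ∧
        ω ^ 2 * Q.vertex 5 + lv _ _ (0, 1) = Q.vertex 5
      simp only [lv]
      push_cast
      rw [h0, h4, h53]
      constructor
      · linear_combination (ω * Q.vertex 3 - ω * Q.vertex 2) * hω2
      · linear_combination Q.vertex 3 * hω3
  · have h6 : 0 ≤ (volume Q.region).toReal := ENNReal.toReal_nonneg
    have hsh := shoe6 Q hc
    rw [h4, h53, h0, h1, hz] at hsh
    generalize (volume Q.region).toReal = A at *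
    generalize Q.vertex 3 = b at *
    generalize Q.vertex 2 = a at *
    rw [hz]
    have h7 : cr ((1 - (⟨-(1 / 2), s⟩ : ℂ)) * b)
        ((⟨-(1 / 2), s⟩ : ℂ) * ((1 - (⟨-(1 / 2), s⟩ : ℂ)) * b)) = 3 * A := by
      simp only [cr, mul_re, mul_im, add_re, add_im, sub_re, sub_im, neg_re, neg_im, re_ofNat,
        im_ofNat, zero_re, zero_im, one_re, one_im] at hsh ⊢
      linear_combination (-3 / 2) * hsh + (-3 * a.im * b.re + 3 * a.re * b.im + s * b.im * b.im +
        s * b.re * b.re) * hss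
    rw [h7, abs_of_nonneg (by linarith)]
    norm_num

theorem critD (P : Polygon 6) (hc : P.CCW)
    (h1 : P.vertex 0 - P.vertex 1 =
      exp (((2 * Real.pi / 3 : ℝ) : ℂ) * Complex.I) * (P.vertex 2 - P.vertex 1))
    (h3 : P.vertex 2 - P.vertex 3 =
      exp (((2 * Real.pi / 3 : ℝ) : ℂ) * Complex.I) * (P.vertex 4 - P.vertex 3))
    (h5 : P.vertex 4 - P.vertex 5 =
      exp (((2 * Real.pi / 3 : ℝ) : ℂ) * Complex.I) * (P.vertex 0 - P.vertex 5)) :
    HasPeriodic P := by
  obtain ⟨s, _, hss, _, hω⟩ := V7b_zeta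
  refine Polygon.translate_periodic (o := P.vertex 1) ?_
  refine coreD (P.translate (P.vertex 1)) (Polygon.translate_ccw hc _) _ s hss hω ?_ ?_ ?_ ?_
  · show P.vertex 1 - P.vertex 1 = 0
    ring
  · show P.vertex 0 - P.vertex 1 = _ * (P.vertex 2 - P.vertex 1)
    exact h1
  · show P.vertex 2 - P.vertex 1 = _ * (P.vertex 4 - P.vertex 1) + (1 - _) * (P.vertex 3 - P.vertex 1)
    linear_combination h3
  · show P.vertex 4 - P.vertex 1 = _ * (P.vertex 0 - P.vertex 1) + (1 - _) * (P.vertex 5 - P.vertex 1)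
    linear_combination h5

theorem crit36 (P : Polygon 5) (hc : P.CCW)
    (h1 : P.vertex 0 - P.vertex 1 =
      exp (((2 * Real.pi / 3 : ℝ) : ℂ) * Complex.I) * (P.vertex 2 - P.vertex 1))
    (h3 : P.vertex 2 - P.vertex 3 =
      exp (((Real.pi / 3 : ℝ) : ℂ) * Complex.I) * (P.vertex 4 - P.vertex 3)) :
    HasPeriodic P := by
  obtain ⟨s, _, hss, hζ, hω⟩ := V7b_zeta
  have hz := hζ
  obtain ⟨hζ2, hζ3, hζ6, hζ1⟩ := V7b_six hss hζ
  have hωζ : exp (((2 * Real.pi / 3 : ℝ) : ℂ) * Complex.I) =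
      exp (((Real.pi / 3 : ℝ) : ℂ) * Complex.I) - 1 := by
    rw [hω, hζ]
    apply Complex.ext
    · simp
      norm_num
    · simp
  rw [hωζ] at h1
  refine Polygon.translate_periodic (o := P.vertex 3) ?_
  refine core36 (P.translate (P.vertex 3)) (Polygon.translate_ccw hc _) _ s hss hζ ?_ ?_ ?_
  · show P.vertex 3 - P.vertex 3 = 0
    ring
  · show P.vertex 2 - P.vertex 3 = _ * (P.vertex 4 - P.vertex 3)
    exact h3
  · show P.vertex 0 - P.vertex 3 = -(P.vertex 4 - P.vertex 3) + (2 - _) * (P.vertex 1 - P.vertex 3)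
    linear_combination h1 + (exp (((Real.pi / 3 : ℝ) : ℂ) * Complex.I) - 1) * h3 +
      (P.vertex 4 - P.vertex 3) * hζ2

theorem crit44 (P : Polygon 5) (hc : P.CCW)
    (h1 : P.vertex 0 - P.vertex 1 =
      exp (((Real.pi / 2 : ℝ) : ℂ) * Complex.I) * (P.vertex 2 - P.vertex 1))
    (h3 : P.vertex 2 - P.vertex 3 =
      exp (((Real.pi / 2 : ℝ) : ℂ) * Complex.I) * (P.vertex 4 - P.vertex 3)) :
    HasPeriodic P := by
  rw [V7b_i] at h1 h3
  refine Polygon.translate_periodic (o := P.vertex 3) ?_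
  refine core44 (P.translate (P.vertex 3)) (Polygon.translate_ccw hc _) ?_ ?_ ?_
  · show P.vertex 3 - P.vertex 3 = 0
    ring
  · show P.vertex 2 - P.vertex 3 = _ * (P.vertex 4 - P.vertex 3)
    exact h3
  · show P.vertex 0 - P.vertex 3 =
      -(P.vertex 4 - P.vertex 3) + (1 - Complex.I) * (P.vertex 1 - P.vertex 3)
    have hI2 : Complex.I ^ 2 = -1 := Complex.I_sq
    linear_combination h1 + Complex.I * h3 + (P.vertex 4 - P.vertex 3) * hI2

theorem crit63 (P : Polygon 5) (hc : P.CCW)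
    (h1 : P.vertex 0 - P.vertex 1 =
      exp (((Real.pi / 3 : ℝ) : ℂ) * Complex.I) * (P.vertex 2 - P.vertex 1))
    (h3 : P.vertex 2 - P.vertex 3 =
      exp (((2 * Real.pi / 3 : ℝ) : ℂ) * Complex.I) * (P.vertex 4 - P.vertex 3)) :
    HasPeriodic P := by
  obtain ⟨s, _, hss, hζ, hω⟩ := V7b_zeta
  have hωζ : exp (((2 * Real.pi / 3 : ℝ) : ℂ) * Complex.I) =
      exp (((Real.pi / 3 : ℝ) : ℂ) * Complex.I) - 1 := by
    rw [hω, hζ]
    apply Complex.ext
    · simp
      norm_num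
    · simp
  rw [hωζ] at h3
  refine Polygon.translate_periodic (o := P.vertex 1) ?_
  refine core63 (P.translate (P.vertex 1)) (Polygon.translate_ccw hc _) _ s hss hζ ?_ ?_ ?_
  · show P.vertex 1 - P.vertex 1 = 0
    ring
  · show P.vertex 0 - P.vertex 1 = _ * (P.vertex 2 - P.vertex 1)
    exact h1
  · show P.vertex 2 - P.vertex 1 = (_ - 1) * (P.vertex 4 - P.vertex 1) +
      (2 - _) * (P.vertex 3 - P.vertex 1)
    linear_combination h3

end Pool.Agent.Lib_MP_fa6e45
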