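import Pool.Agent.Lib_MP_fa6e45.L1
import Pool.Agent.Lib_MP_fa6e45.L2a

/-!
PIECE V8b (about 200 lines): the criterion for the group pgg. `‖A‖ = 1`, `α z = A conj z + s`,
`β z = - A conj z + t`, `H z = - z + h` with `h = s + A conj t`, lattice `u = s + A conj s`, `w = t - A conj t`.
Cosets `g 0 = 1, g 1 = H, g 2 = α, g 3 = β`. Every directed segment `y` of the chain has a partner `η y`; the
neighbour of `P` at `y` is `g (κ y) P + lv u w (c y)`, against `y` it has its segment `η y`, reversed if
`κ y = 0, 1`, in the same direction if `κ y = 2, 3`. Build `LData` with `k = 4`. Products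
(T_x = translation by `lv u w x`): `α α = T(1,0)`, `β β = T(0,1)`, `H H = 1`, `α β = H`, `β α = T(-1,1) H`,
`α H = T(1,0) β`, `H α = T(0,-1) β`, `β H = T(-1,0) α`, `H β = T(0,-1) α`; linear parts on the lattice: `H: -1`,
`α: (a, b) ↦ (a, -b)`, `β: (a, b) ↦ (-a, b)`. So for `g j (T(c y) g (κ y)) = T(n j y) g (j * κ y)` everything is
explicit (`j * κ` in the Klein four group). The involution property for `j = 0` (hypothesis `hcη` in
terms of the inverse motion) gives the other `j`.
-/

open Set MeasureTheory Complex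
open scoped Topology

namespace Pool.Agent.Lib_MP_fa6e45

open Pool.Agent.Lib_PL (cr InSector Poly)

variable {n : ℕ}

/-- the motion `g κ` as a map: `1, H, α, β` -/
noncomputable def pgg (A s t : ℂ) (κ : Fin 4) (z : ℂ) : ℂ :=
  ![z, -z + (s + A * (starRingEnd ℂ) t), A * (starRingEnd ℂ) z + s,
    -(A * (starRingEnd ℂ) z) + t] κ

/-- the lattice vector of the inverse: `(T(x) g κ)⁻¹ = T(pinv κ x) g κ` -/
def pinv (κ : Fin 4) (x : ℤ × ℤ) : ℤ × ℤ :=
  ![(-x.1, -x.2), (x.1, x.2), (-x.1 - 1, x.2), (x.1, -x.2 - 1)] κ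

private theorem V8b_vol_pos (P : Polygon n) : 0 < (volume P.region).toReal := by
  apply ENNReal.toReal_pos
  · intro h
    have h1 : volume P.inner = 0 := by
      apply measure_mono_null _ h
      rw [P.region_union]
      exact subset_union_right
    exact (P.inner_open.measure_pos volume P.inner_nonempty).ne' h1
  · exact (P.region_bounded.measure_lt_top).ne

/-- the product in the Klein four group -/
private def V8b_kl (j κ : Fin 4) : Fin 4 :=
  ![![0, 1, 2, 3] κ, ![1, 0, 3, 2] κ, ![2, 3, 0, 1] κ, ![3, 2, 1, 0] κ] j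

/-- the lattice vector of `g j (T(x) g κ)` -/
private def V8b_nn (j κ : Fin 4) (x : ℤ × ℤ) : ℤ × ℤ :=
  ![(x.1, x.2),
    (-x.1, -x.2 + ![0, 0, -1, -1] κ),
    (x.1 + ![0, 1, 1, 0] κ, -x.2),
    (-x.1 + ![0, -1, -1, 0] κ, x.2 + ![0, 0, 1, 1] κ)] j

/-- the motions as elements of `Mo` -/
private noncomputable def V8b_mo (A s t : ℂ) (hA1 : ‖A‖ = 1) (j : Fin 4) : Mo where
  a := ![1, -1, A, -A] j
  b := ![0, s + A * (starRingEnd ℂ) t, s, t] j
  rf := ![false, false, true, true] j
  ha := by fin_cases j <;> simp [hA1]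

private theorem V8b_app (A s t : ℂ) (hA1 : ‖A‖ = 1) (j : Fin 4) (z : ℂ) :
    (V8b_mo A s t hA1 j).app z = pgg A s t j z := by
  fin_cases j <;> simp [V8b_mo, Mo.app, Mo.lin, pgg]

private theorem V8b_rf (A s t : ℂ) (hA1 : ‖A‖ = 1) (j : Fin 4) :
    (V8b_mo A s t hA1 j).rf = ![false, false, true, true] j := rfl

private theorem V8b_kl_invol (j κ : Fin 4) : V8b_kl (V8b_kl j κ) κ = j := by
  revert j κ
  decide

private theorem V8b_kl_zero (κ : Fin 4) : V8b_kl 0 κ = κ := by
  revert κ
  decide

private theorem V8b_conj {A : ℂ} (hA1 : ‖A‖ = 1) : A * (starRingEnd ℂ) A = 1 := by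
  rw [Complex.mul_conj, Complex.normSq_eq_norm_sq, hA1]
  simp

/-- the products of the motions -/
private theorem V8b_mul (A s t : ℂ) (hA1 : ‖A‖ = 1) (j κ : Fin 4) (x : ℤ × ℤ) (z : ℂ) :
    pgg A s t j (pgg A s t κ z + lv (s + A * (starRingEnd ℂ) s) (t - A * (starRingEnd ℂ) t) x) =
      pgg A s t (V8b_kl j κ) z +
        lv (s + A * (starRingEnd ℂ) s) (t - A * (starRingEnd ℂ) t) (V8b_nn j κ x) := by
  have h := V8b_conj hA1
  fin_cases j <;> fin_cases κ <;>
    simp [pgg, V8b_kl, V8b_nn, lv, map_add, map_sub, map_mul, map_neg] <;>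
    first
      | ring1
      | linear_combination ((x.1 : ℂ) * s - x.2 * t) * h
      | linear_combination ((x.1 : ℂ) * s - x.2 * t + t) * h
      | linear_combination ((x.1 : ℂ) * s - x.2 * t + z) * h
      | linear_combination ((x.1 : ℂ) * s - x.2 * t - z) * h
      | linear_combination -((x.1 : ℂ) * s - x.2 * t) * h
      | linear_combination -((x.1 : ℂ) * s - x.2 * t + t) * h
      | linear_combination -((x.1 : ℂ) * s - x.2 * t + z) * h
      | linear_combination -((x.1 : ℂ) * s - x.2 * t - z) * h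

private theorem V8b_inv (j κ : Fin 4) (x : ℤ × ℤ) :
    V8b_nn (V8b_kl j κ) κ (pinv κ x) = -V8b_nn j κ x := by
  fin_cases j <;> fin_cases κ <;>
    simp [V8b_kl, V8b_nn, pinv, Prod.ext_iff] <;> omega

theorem pgg_criterion {P : Polygon n} (hc : P.CCW) {Y : Type} [Fintype Y] (K : Chain P Y)
    (A s t : ℂ) (hA1 : ‖A‖ = 1) (η : Y → Y) (hη : ∀ y, η (η y) = y) (κ : Y → Fin 4)
    (hκ : ∀ y, κ (η y) = κ y) (c : Y → ℤ × ℤ) (hcη : ∀ y, c (η y) = pinv (κ y) (c y))
    (h : ∀ y, if (κ y).val ≤ 1 then
        pgg A s t (κ y) (K.p (η y)) + lv (s + A * (starRingEnd ℂ) s) (t - A * (starRingEnd ℂ) t) (c y)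
          = K.q y ∧
        pgg A s t (κ y) (K.q (η y)) + lv (s + A * (starRingEnd ℂ) s) (t - A * (starRingEnd ℂ) t) (c y)
          = K.p y
      else
        pgg A s t (κ y) (K.p (η y)) + lv (s + A * (starRingEnd ℂ) s) (t - A * (starRingEnd ℂ) t) (c y)
          = K.p y ∧
        pgg A s t (κ y) (K.q (η y)) + lv (s + A * (starRingEnd ℂ) s) (t - A * (starRingEnd ℂ) t) (c y)
          = K.q y)
    (hA : 4 * (volume P.region).toReal =
      |cr (s + A * (starRingEnd ℂ) s) (t - A * (starRingEnd ℂ) t)|) : HasPeriodic P := by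
  set u := s + A * (starRingEnd ℂ) s with hu
  set w := t - A * (starRingEnd ℂ) t with hw
  have hne : cr u w ≠ 0 := by
    intro h
    have h3 := V8b_vol_pos P
    rw [h, abs_zero] at hA
    linarith
  let D : LData P Y 4 :=
    { K := K
      g := V8b_mo A s t hA1
      u := u
      w := w
      ne := hne
      τ := fun x => (V8b_kl x.1 (κ x.2), η x.2)
      ττ := by
        rintro ⟨j, y⟩
        simp only [hκ, hη, V8b_kl_invol]
      c := fun x => V8b_nn x.1 (κ x.2) (c x.2)
      cτ := by
        rintro ⟨j, y⟩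
        simp only [hcη, hκ]
        exact V8b_inv j (κ y) (c y) }
  have hsrc : ∀ j y, D.src (j, y) = pgg A s t j
      (if (![false, false, true, true] j : Bool) then K.q y else K.p y) :=
    fun j y => V8b_app A s t hA1 j _
  have htgt : ∀ j y, D.tgt (j, y) = pgg A s t j
      (if (![false, false, true, true] j : Bool) then K.p y else K.q y) :=
    fun j y => V8b_app A s t hA1 j _
  have hτ : ∀ j y, D.τ (j, y) = (V8b_kl j (κ y), η y) := fun j y => rfl
  have hcc : ∀ j y, D.c (j, y) = V8b_nn j (κ y) (c y) := fun j y => rfl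
  have huu : D.u = u := rfl
  have hww : D.w = w := rfl
  refine D.criterion ?_ ?_
  · rintro ⟨j, y⟩
    have hm := V8b_mul A s t hA1 j (κ y) (c y)
    have hy := h y
    rw [huu, hww, hτ, hcc]
    simp only [hsrc, htgt]
    rw [← hu, ← hw] at hm
    rw [← hm, ← hm]
    generalize κ y = k at hy ⊢
    have hy1 : (k.val ≤ 1 → pgg A s t k (K.p (η y)) + lv u w (c y) = K.q y ∧
        pgg A s t k (K.q (η y)) + lv u w (c y) = K.p y) ∧
        (¬ k.val ≤ 1 → pgg A s t k (K.p (η y)) + lv u w (c y) = K.p y ∧
          pgg A s t k (K.q (η y)) + lv u w (c y) = K.q y) := by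
      constructor
      · intro h1
        rwa [if_pos h1] at hy
      · intro h1
        rwa [if_neg h1] at hy
    clear hy hm
    obtain ⟨h1, h2⟩ := hy1
    by_cases hk : k.val ≤ 1
    · obtain ⟨h3, h4⟩ := h1 hk
      clear h1 h2
      have e : (![false, false, true, true] (V8b_kl j k) : Bool) =
          (![false, false, true, true] j : Bool) := by
        clear h3 h4
        revert j k
        decide
      rw [e]
      cases (![false, false, true, true] j : Bool)
      · simp only [Bool.false_eq_true, if_false, h3, h4, and_self]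
      · simp only [if_true, h3, h4, and_self]
    · obtain ⟨h3, h4⟩ := h2 hk
      clear h1 h2
      have e : (![false, false, true, true] (V8b_kl j k) : Bool) =
          !(![false, false, true, true] j : Bool) := by
        clear h3 h4
        revert j k
        decide
      rw [e]
      cases (![false, false, true, true] j : Bool)
      · simp only [Bool.not_false, Bool.false_eq_true, if_false, if_true, h3, h4, and_self]
      · simp only [Bool.not_true, Bool.false_eq_true, if_false, if_true, h3, h4, and_self]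
  · rw [huu, hww]
    exact_mod_cast hA

end Pool.Agent.Lib_MP_fa6e45
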