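import Pool.Agent.Lib_MP_fa6e45.VDefs
import Pool.Agent.Lib_MP_fa6e45.K1

/-!
PIECE V9a (about 120 lines): up to rotation the length classes are one of the canonical patterns (or there
is at most one pair of equal sides). Encode the classes by the involution `τ` (twin or itself) and use
`decide +kernel` over all `t0 ... t5 : Fin 6` (46656 tuples, reject non-involutions first), or organise it as a
case distinction over the two pairs.
-/

open Set

namespace Pool.Agent.Lib_MP_fa6e45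

private def V9a_A {n : ℕ} [NeZero n] (c : ZMod n → ℕ) : Prop := ∀ i, c ((c i : ℕ) : ZMod n) = c i

private def V9a_B {n : ℕ} [NeZero n] (c : ZMod n → ℕ) : Prop :=
  ∀ i j k : ZMod n, i ≠ j → j ≠ k → i ≠ k → ¬ (c i = c j ∧ c j = c k)

private def V9a_C {n : ℕ} [NeZero n] (c : ZMod n → ℕ) : Prop :=
  ∀ i j i' j' : ZMod n, i ≠ j → i' ≠ j' → c i = c j → c i' = c j' →
    (i = i' ∧ j = j') ∨ (i = j' ∧ j = i')

private def V9a_D {n : ℕ} [NeZero n] {M : ℕ} (canon : Fin M → ZMod n → ℕ) (c : ZMod n → ℕ) : Prop :=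
  ∃ k : ZMod n, ∃ m : Fin M, ∀ i j, c (i + k) = c (j + k) ↔ canon m i = canon m j

/-- the class function `c` (least index of the class) is fine -/
private def V9a_P {n : ℕ} [NeZero n] {M : ℕ} (canon : Fin M → ZMod n → ℕ) (c : ZMod n → ℕ) : Prop :=
  V9a_A c → V9a_B c → V9a_C c ∨ V9a_D canon c

private instance (c : ZMod 5 → ℕ) : Decidable (V9a_A c) := by unfold V9a_A; infer_instance
private instance (c : ZMod 5 → ℕ) : Decidable (V9a_B c) := by unfold V9a_B; infer_instance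
private instance (c : ZMod 5 → ℕ) : Decidable (V9a_C c) := by unfold V9a_C; infer_instance
private instance {M : ℕ} (canon : Fin M → ZMod 5 → ℕ) (c : ZMod 5 → ℕ) : Decidable (V9a_D canon c) := by
  unfold V9a_D; infer_instance
private instance {M : ℕ} (canon : Fin M → ZMod 5 → ℕ) (c : ZMod 5 → ℕ) : Decidable (V9a_P canon c) := by
  unfold V9a_P; infer_instance
private instance (c : ZMod 6 → ℕ) : Decidable (V9a_A c) := by unfold V9a_A; infer_instance
private instance (c : ZMod 6 → ℕ) : Decidable (V9a_B c) := by unfold V9a_B; infer_instance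
private instance (c : ZMod 6 → ℕ) : Decidable (V9a_C c) := by unfold V9a_C; infer_instance
private instance {M : ℕ} (canon : Fin M → ZMod 6 → ℕ) (c : ZMod 6 → ℕ) : Decidable (V9a_D canon c) := by
  unfold V9a_D; infer_instance
private instance {M : ℕ} (canon : Fin M → ZMod 6 → ℕ) (c : ZMod 6 → ℕ) : Decidable (V9a_P canon c) := by
  unfold V9a_P; infer_instance

private theorem V9a_check5 : ∀ (c0 : Fin 1) (c1 : Fin 2) (c2 : Fin 3) (c3 : Fin 4) (c4 : Fin 5),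
    V9a_P (n := 5) canon5 ![c0, c1, c2, c3, c4] := by
  decide +kernel

private theorem V9a_check6 : ∀ (c0 : Fin 1) (c1 : Fin 2) (c2 : Fin 3) (c3 : Fin 4) (c4 : Fin 5)
    (c5 : Fin 6), V9a_P (n := 6) canon6 ![c0, c1, c2, c3, c4, c5] := by
  decide +kernel

private theorem V9a_exists {n : ℕ} [NeZero n] (l : ZMod n → ℝ) :
    ∃ c : ZMod n → ℕ, (∀ i j, l i = l j ↔ c i = c j) ∧ (∀ i, c i ≤ i.val) ∧
      ∀ i, c ((c i : ℕ) : ZMod n) = c i := by
  classical
  have hex : ∀ i : ZMod n, ∃ k : ℕ, l (k : ZMod n) = l i := fun i =>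
    ⟨i.val, by rw [ZMod.natCast_zmod_val]⟩
  have hspec : ∀ i, l ((Nat.find (hex i) : ℕ) : ZMod n) = l i := fun i => Nat.find_spec (hex i)
  have hle : ∀ i j, l i = l j → Nat.find (hex i) ≤ Nat.find (hex j) := fun i j h =>
    Nat.find_min' (hex i) ((hspec j).trans h.symm)
  have heq : ∀ i j, l i = l j → Nat.find (hex i) = Nat.find (hex j) := fun i j h =>
    le_antisymm (hle i j h) (hle j i h.symm)
  refine ⟨fun i => Nat.find (hex i), fun i j => ⟨heq i j, fun h => ?_⟩, fun i => ?_, fun i => ?_⟩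
  · have h' : Nat.find (hex i) = Nat.find (hex j) := h
    rw [← hspec i, ← hspec j, h']
  · exact Nat.find_min' (hex i) (by rw [ZMod.natCast_zmod_val])
  · exact heq _ _ (hspec i)

private theorem V9a_concl {n : ℕ} [NeZero n] {M : ℕ} (canon : Fin M → ZMod n → ℕ) (l : ZMod n → ℝ)
    (h : ∀ i j k : ZMod n, i ≠ j → j ≠ k → i ≠ k → ¬ (l i = l j ∧ l j = l k)) (c : ZMod n → ℕ)
    (hc : ∀ i j, l i = l j ↔ c i = c j) (hcc : ∀ i, c ((c i : ℕ) : ZMod n) = c i)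
    (hP : V9a_P canon c) : OnePair l ∨ ∃ k : ZMod n, ∃ m : Fin M,
      HasCls (fun i => l (i + k)) (canon m) := by
  rcases hP hcc (fun i j k h1 h2 h3 h4 => h i j k h1 h2 h3
    ⟨(hc i j).2 h4.1, (hc j k).2 h4.2⟩) with h1 | ⟨k, m, h1⟩
  · left
    intro i j i' j' hij hij' e e'
    rcases h1 i j i' j' hij hij' ((hc i j).1 e) ((hc i' j').1 e') with ⟨rfl, rfl⟩ | ⟨rfl, rfl⟩
    · rfl
    · exact Set.pair_comm _ _
  · right
    exact ⟨k, m, fun i j => (hc (i + k) (j + k)).trans (h1 i j)⟩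

theorem wlog6 (l : ZMod 6 → ℝ)
    (h : ∀ i j k : ZMod 6, i ≠ j → j ≠ k → i ≠ k → ¬ (l i = l j ∧ l j = l k)) :
    OnePair l ∨ ∃ k : ZMod 6, ∃ m : Fin 14, HasCls (fun i => l (i + k)) (canon6 m) := by
  obtain ⟨c, hc, hle, hcc⟩ := V9a_exists l
  refine V9a_concl canon6 l h c hc hcc ?_
  have h0 : c 0 < 1 := Nat.lt_succ_of_le (hle 0)
  have h1 : c 1 < 2 := Nat.lt_succ_of_le (hle 1)
  have h2 : c 2 < 3 := Nat.lt_succ_of_le (hle 2)
  have h3 : c 3 < 4 := Nat.lt_succ_of_le (hle 3)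
  have h4 : c 4 < 5 := Nat.lt_succ_of_le (hle 4)
  have h5 : c 5 < 6 := Nat.lt_succ_of_le (hle 5)
  have e : c = ![c 0, c 1, c 2, c 3, c 4, c 5] := by
    funext i
    fin_cases i <;> rfl
  rw [e]
  exact V9a_check6 ⟨c 0, h0⟩ ⟨c 1, h1⟩ ⟨c 2, h2⟩ ⟨c 3, h3⟩ ⟨c 4, h4⟩ ⟨c 5, h5⟩

theorem wlog5 (l : ZMod 5 → ℝ)
    (h : ∀ i j k : ZMod 5, i ≠ j → j ≠ k → i ≠ k → ¬ (l i = l j ∧ l j = l k)) :
    OnePair l ∨ ∃ k : ZMod 5, ∃ m : Fin 3, HasCls (fun i => l (i + k)) (canon5 m) := by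
  obtain ⟨c, hc, hle, hcc⟩ := V9a_exists l
  refine V9a_concl canon5 l h c hc hcc ?_
  have h0 : c 0 < 1 := Nat.lt_succ_of_le (hle 0)
  have h1 : c 1 < 2 := Nat.lt_succ_of_le (hle 1)
  have h2 : c 2 < 3 := Nat.lt_succ_of_le (hle 2)
  have h3 : c 3 < 4 := Nat.lt_succ_of_le (hle 3)
  have h4 : c 4 < 5 := Nat.lt_succ_of_le (hle 4)
  have e : c = ![c 0, c 1, c 2, c 3, c 4] := by
    funext i
    fin_cases i <;> rfl
  rw [e]
  exact V9a_check5 ⟨c 0, h0⟩ ⟨c 1, h1⟩ ⟨c 2, h2⟩ ⟨c 3, h3⟩ ⟨c 4, h4⟩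

end Pool.Agent.Lib_MP_fa6e45
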