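import Pool.Agent.Lib_MP_fa6e45.V1b
import Pool.Agent.Lib_MP_fa6e45.V2
import Pool.Agent.Lib_MP_fa6e45.V3
import Pool.Agent.Lib_MP_fa6e45.V4a
import Pool.Agent.Lib_MP_fa6e45.V4b
import Pool.Agent.Lib_MP_fa6e45.V4c
import Pool.Agent.Lib_MP_fa6e45.V4d
import Pool.Agent.Lib_MP_fa6e45.V5d
import Pool.Agent.Lib_MP_fa6e45.V6a
import Pool.Agent.Lib_MP_fa6e45.V6b
import Pool.Agent.Lib_MP_fa6e45.V7a
import Pool.Agent.Lib_MP_fa6e45.V7b
import Pool.Agent.Lib_MP_fa6e45.V9a
import Pool.Agent.Lib_MP_fa6e45.K2
import Pool.Agent.Lib_MP_fa6e45.L3a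
import Pool.Agent.Lib_MP_fa6e45.L3b
import Pool.Agent.Lib_MP_fa6e45.L3c
import Pool.Agent.Lib_MP_fa6e45.L3d

/-!
PIECE V9b (about 200 lines): assembly for n = 5 and n = 6 (captain).
-/

open Set MeasureTheory Complex
open scoped Topology

namespace Pool.Agent.Lib_MP_fa6e45

open Pool.Agent.Lib_PL (cr InSector Poly)

variable {ι : Type}

/-- length classes of the relabelled polygon -/
private theorem V9b_cls {n : ℕ} {P : Polygon n} {k : ZMod n} {cls : ZMod n → ℕ}
    (h : HasCls (fun i => P.len (i + k)) cls) : HasCls (P.shift k).len cls := by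
  intro i j
  rw [P.shift_len, P.shift_len]
  exact h i j

theorem main5 (P : Polygon 5) (hc : P.CCW) (T : Til P ι)
    (h3 : ∀ c, 3 ≤ (T.star (T.vx c)).ncard) (hl : P.NoThreeEqual) : HasPeriodic P := by
  rcases wlog5 P.len hl with h1 | ⟨k, m, h1⟩
  · obtain ⟨K⟩ := T.comb hc
    rcases K.cases h1 with h2 | h2 | ⟨h2, -⟩ | ⟨-, p, h2⟩ | ⟨-, p, h2, h4⟩
    · omega
    · omega
    · omega
    · obtain ⟨q, r, hr, h4⟩ := house_vec P p h2
      exact house P hc q r hr h4
    · exact zig5 P hc p (zig_vec P p h2 h4)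
  · -- relabel
    apply Polygon.shift_periodic (k := k)
    have hc' := Polygon.shift_ccw hc k
    have h1' := V9b_cls h1
    set Q := P.shift k with hQ
    have h3' : ∀ c, 3 ≤ ((T.shift k).star ((T.shift k).vx c)).ncard := by
      intro c
      have h4 := h3 (c.1, c.2 + k)
      have e : (T.shift k).star ((T.shift k).vx c) =
          (fun x : ι × ZMod 5 => (x.1, x.2 - k)) '' (T.star (T.vx (c.1, c.2 + k))) := by
        ext x
        simp only [Til.star, mem_ofPred_eq, mem_image, Til.shift_vx]
        constructor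
        · intro h
          exact ⟨(x.1, x.2 + k), h, by simp⟩
        · rintro ⟨y, hy, rfl⟩
          simpa using hy
      rw [e, ncard_image_of_injective]
      · exact h4
      · intro x y h
        simp only [Prod.mk.injEq, sub_left_inj] at h
        exact Prod.ext h.1 h.2
    obtain ⟨K, hK⟩ := (T.shift k).combA hc'
    have hd : ∀ c, 3 ≤ K.toComb.deg c := fun c => by
      rw [hK]
      exact h3' c
    have hs : ∑ i, Q.ang i = 3 * Real.pi := by
      have := K.a_sum
      rw [this]
      norm_num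
    have hhouse : (∃ i, Q.ang i + Q.ang (i + 1) = Real.pi) → HasPeriodic Q := by
      rintro ⟨i, hi⟩
      obtain ⟨q, r, hr, h4⟩ := house_vec Q i hi
      exact house Q hc' q r hr h4
    have hl' : ∀ i j, Q.len i = Q.len j → canon5 m i = canon5 m j := fun i j => (h1' i j).1
    have hl2 : ∀ i j, canon5 m i = canon5 m j → Q.len i = Q.len j := fun i j => (h1' i j).2
    fin_cases m
    · -- XXYYE
      have e01 : Q.len 0 = Q.len 1 := hl2 0 1 (by decide)
      have e23 : Q.len 2 = Q.len 3 := hl2 2 3 (by decide)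
      have hrot1 := vec_rot Q 1 (by rw [show (1 : ZMod 5) - 1 = 0 by decide]; exact e01)
      have hrot3 := vec_rot Q 3 (by rw [show (3 : ZMod 5) - 1 = 2 by decide]; exact e23)
      rw [show (1 : ZMod 5) - 1 = 0 by decide, show (1 : ZMod 5) + 1 = 2 by decide] at hrot1
      rw [show (3 : ZMod 5) - 1 = 2 by decide, show (3 : ZMod 5) + 1 = 4 by decide] at hrot3
      rcases V5_XXYYE K hd hl' (fun h => ends_perp Q e01 e23 h.1 h.2) with h4 | ⟨h4, h5⟩ | ⟨h4, h5⟩ |
        ⟨h4, h5⟩
      · exact hhouse h4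
      · rw [h4] at hrot1
        rw [h5] at hrot3
        exact crit36 Q hc' hrot1 hrot3
      · rw [h4] at hrot1
        rw [h5] at hrot3
        exact crit44 Q hc' hrot1 hrot3
      · rw [h4] at hrot1
        rw [h5] at hrot3
        exact crit63 Q hc' hrot1 hrot3
    · -- XYXYE
      rcases V5_XYXYE K hd hl' with h4 | h4
      · exact hhouse h4
      · have e02 : Q.len 0 = Q.len 2 := hl2 0 2 (by decide)
        have e13 : Q.len 1 = Q.len 3 := hl2 1 3 (by decide)
        obtain ⟨A, hA, h5, h6⟩ := vecA Q e02 e13 h4 hs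
        exact critA Q hc' A hA h5 h6
    · -- XYYXE
      exact hhouse (V5_XYYXE K hd hl')

theorem main6 (P : Polygon 6) (hc : P.CCW) (T : Til P ι)
    (h3 : ∀ c, 3 ≤ (T.star (T.vx c)).ncard) (hl : P.NoThreeEqual) : HasPeriodic P := by
  rcases wlog6 P.len hl with h1 | ⟨k, m, h1⟩
  · obtain ⟨K⟩ := T.comb hc
    rcases K.cases h1 with h2 | h2 | ⟨-, p, h2, h4⟩ | ⟨h2, -⟩ | ⟨-, p, h2, h4⟩
    · omega
    · omega
    · exact hex P hc p (hex_vec P p h2 h4)
    · omega
    · exact zig6 P hc p (zig_vec P p h2 h4)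
  · -- relabel
    apply Polygon.shift_periodic (k := k)
    have hc' := Polygon.shift_ccw hc k
    have h1' := V9b_cls h1
    set Q := P.shift k with hQ
    have h3' : ∀ c, 3 ≤ ((T.shift k).star ((T.shift k).vx c)).ncard := by
      intro c
      have h4 := h3 (c.1, c.2 + k)
      have e : (T.shift k).star ((T.shift k).vx c) =
          (fun x : ι × ZMod 6 => (x.1, x.2 - k)) '' (T.star (T.vx (c.1, c.2 + k))) := by
        ext x
        simp only [Til.star, mem_ofPred_eq, mem_image, Til.shift_vx]
        constructor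
        · intro h
          exact ⟨(x.1, x.2 + k), h, by simp⟩
        · rintro ⟨y, hy, rfl⟩
          simpa using hy
      rw [e, ncard_image_of_injective]
      · exact h4
      · intro x y h
        simp only [Prod.mk.injEq, sub_left_inj] at h
        exact Prod.ext h.1 h.2
    obtain ⟨K, hK⟩ := (T.shift k).combA hc'
    have hd : ∀ c, 3 ≤ K.toComb.deg c := fun c => by
      rw [hK]
      exact h3' c
    have hs : Q.ang 0 + Q.ang 1 + Q.ang 2 + Q.ang 3 + Q.ang 4 + Q.ang 5 = 4 * Real.pi := by
      have h4 := K.a_sum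
      have h5 : ∀ g : ZMod 6 → ℝ, ∑ i, g i = g 0 + g 1 + g 2 + g 3 + g 4 + g 5 :=
        fun g => Fin.sum_univ_six g
      rw [h5] at h4
      rw [h4]
      norm_num
    have hl' : ∀ i j, Q.len i = Q.len j → canon6 m i = canon6 m j := fun i j => (h1' i j).1
    have hl2 : ∀ i j, canon6 m i = canon6 m j → Q.len i = Q.len j := fun i j => (h1' i j).2
    -- Conway hexagons
    have hex0 : Q.len 0 = Q.len 3 → Q.ang 1 + Q.ang 2 + Q.ang 3 = 2 * Real.pi → HasPeriodic Q := by
      intro h5 h6
      exact hex Q hc' 0 (hex_vec Q 0 h5 h6)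
    have hex1 : Q.len 1 = Q.len 4 → Q.ang 2 + Q.ang 3 + Q.ang 4 = 2 * Real.pi → HasPeriodic Q := by
      intro h5 h6
      exact hex Q hc' 1 (hex_vec Q 1 h5 h6)
    have hex2 : Q.len 2 = Q.len 5 → Q.ang 3 + Q.ang 4 + Q.ang 5 = 2 * Real.pi → HasPeriodic Q := by
      intro h5 h6
      exact hex Q hc' 2 (hex_vec Q 2 h5 h6)
    by_cases hm : m.val ≤ 5
    · exact (V6_bad K hd m hm hl').elim
    · fin_cases m
      · exact absurd (by decide) hm
      · exact absurd (by decide) hm
      · exact absurd (by decide) hm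
      · exact absurd (by decide) hm
      · exact absurd (by decide) hm
      · exact absurd (by decide) hm
      · exact hex2 (hl2 2 5 (by decide)) (V6_67 K hd 6 (Or.inl rfl) hl')
      · exact hex2 (hl2 2 5 (by decide)) (V6_67 K hd 7 (Or.inr rfl) hl')
      · obtain ⟨h5, h6, h7, h8⟩ := V6_8 K hd hl'
        have h9 := sym_hex Q (hl2 0 1 (by decide)) (hl2 3 4 (by decide)) h5 h6 h7 h8
        exact absurd (hl' 2 5 h9) (by decide)
      · rcases V6_9 K hd hl' with h5 | h5
        · exact hex1 (hl2 1 4 (by decide)) h5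
        · obtain ⟨A, hA, h6, h7⟩ := vecC Q (hl2 0 2 (by decide)) (hl2 1 4 (by decide)) h5
          exact critC Q hc' A hA h6 h7
      · rcases V6_10 K hd hl' with h5 | h5 | h5 | h5
        · exact hex1 (hl2 1 4 (by decide)) h5
        · obtain ⟨A, hA, h6, h7⟩ := vecC Q (hl2 0 2 (by decide)) (hl2 1 4 (by decide)) h5
          exact critC Q hc' A hA h6 h7
        · have h6 := mid_par Q hc' (hl2 0 2 (by decide)) (hl2 1 4 (by decide))
            (hl2 3 5 (by decide)) h5
          exact hex Q hc' 1 h6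
        · -- relabel by 3
          apply Polygon.shift_periodic (k := 3)
          have hc3 := Polygon.shift_ccw hc' 3
          have e02 : (Q.shift 3).len 0 = (Q.shift 3).len 2 := by
            rw [Q.shift_len, Q.shift_len]
            exact hl2 _ _ (by decide)
          have e14 : (Q.shift 3).len 1 = (Q.shift 3).len 4 := by
            rw [Q.shift_len, Q.shift_len]
            exact hl2 _ _ (by decide)
          have ea : (Q.shift 3).ang 1 + (Q.shift 3).ang 3 + (Q.shift 3).ang 4 = 2 * Real.pi := by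
            rw [Q.shift_ang, Q.shift_ang, Q.shift_ang, show (1 : ZMod 6) + 3 = 4 by decide,
              show (3 : ZMod 6) + 3 = 0 by decide, show (4 : ZMod 6) + 3 = 1 by decide]
            linarith
          obtain ⟨A, hA, h6, h7⟩ := vecC (Q.shift 3) e02 e14 ea
          exact critC (Q.shift 3) hc3 A hA h6 h7
      · rcases V6_11 K hd hl' with h5 | h5
        · exact hex0 (hl2 0 3 (by decide)) h5
        · exact hex1 (hl2 1 4 (by decide)) h5
      · rcases V6_12 K hd hl' with h5 | h5 | h5 | h5
        · exact hex0 (hl2 0 3 (by decide)) h5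
        · exact hex1 (hl2 1 4 (by decide)) h5
        · exact hex2 (hl2 2 5 (by decide)) h5
        · have h6 := opp_par Q hc' (hl2 0 3 (by decide)) (hl2 1 4 (by decide))
            (hl2 2 5 (by decide)) h5
          exact hex Q hc' 0 h6
      · obtain ⟨h5, h6, h7⟩ := V6_13 K hd hl'
        have r1 := vec_rot Q 1 (by
          rw [show (1 : ZMod 6) - 1 = 0 by decide]
          exact hl2 0 1 (by decide))
        have r3 := vec_rot Q 3 (by
          rw [show (3 : ZMod 6) - 1 = 2 by decide]
          exact hl2 2 3 (by decide))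
        have r5 := vec_rot Q 5 (by
          rw [show (5 : ZMod 6) - 1 = 4 by decide]
          exact hl2 4 5 (by decide))
        rw [show (1 : ZMod 6) - 1 = 0 by decide, show (1 : ZMod 6) + 1 = 2 by decide, h5] at r1
        rw [show (3 : ZMod 6) - 1 = 2 by decide, show (3 : ZMod 6) + 1 = 4 by decide, h6] at r3
        rw [show (5 : ZMod 6) - 1 = 4 by decide, show (5 : ZMod 6) + 1 = 0 by decide, h7] at r5
        exact critD Q hc' r1 r3 r5

end Pool.Agent.Lib_MP_fa6e45
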