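import Pool.Agent.Lib_MP_fa6e45.Z0
import Pool.Agent.Lib_MP_fa6e45.Y5
import Pool.Agent.Lib_MP_fa6e45.Y6
import Pool.Agent.Lib_MP_fa6e45.Y7

/-!
PIECE W3 (about 150 lines): the model `Mdl` of a `CombG` over arcs. `σ`, `ε`: `Arcs.chord_angles`;
`a j = ang / π`; `wp`, `b_sum`: `CombG.wp`, `CombG.b_sum` (`hs`: `rel_symm`; `hu`: `rel_unique`); `single`: `j` is glued
to some `k` (`CombG.glued`), so `k = j`: if `S.w j = 1` type `S` (`rel_one`), otherwise `Plus j j` (`minus_self`) and type
`C` (`rel_type`); `twins`: if `S.w j = 1`: `S` (`rel_one`), otherwise the relation between `j` and `k` is unique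
(`rel_type`), type `R` or `G`.
-/

open Set MeasureTheory Complex
open scoped Topology

namespace Pool.Agent.Lib_MP_fa6e45

open Pool.Agent.Lib_PL (cr InSector Poly)

variable {n m : ℕ} [NeZero m] {P : Polygon n} {ι : Type}

/-- a straight arc which is related to some arc is of type `S` -/
private theorem W3_S (S : Arcs P m) (cls : ZMod m → ℕ)
    (hcls : ∀ i j, (i = j ∨ ∃ b, S.Rel i j b) ↔ cls i = cls j) {j k : ZMod m} {b : Bool}
    (h : S.Rel j k b) (hw : S.w j = 1) : IsTy S.Rel cls j Ty.S := by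
  intro l b' hlj
  rcases (hcls l j).2 hlj with rfl | ⟨b'', h2⟩
  · exact (S.rel_one h hw b').2.2
  · exact (S.rel_one (S.rel_symm h2) hw b').2.1

/-- the relations of an arc with at least two sides and a twin -/
private theorem W3_T (hl : P.NoThreeEqual) (S : Arcs P m) (cls : ZMod m → ℕ)
    (hcls : ∀ i j, (i = j ∨ ∃ b, S.Rel i j b) ↔ cls i = cls j) {j k : ZMod m} {b : Bool}
    (h : S.Rel j k b) (hk : k ≠ j) (hw : S.w j ≠ 1) :
    (∀ l, l ≠ j → cls l = cls j → S.Rel j l b) ∧ ∀ l b', S.Rel j l b' → l ≠ j ∧ b' = b := by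
  constructor
  · intro l hlj hc
    rcases (hcls l j).2 hc with h1 | ⟨b'', h2⟩
    · exact absurd h1 hlj
    · obtain ⟨h3, h4⟩ := S.rel_type hl hw h (S.rel_symm h2)
      rw [← h3]
      exact h
  · intro l b' h2
    obtain ⟨h3, h4⟩ := S.rel_type hl hw h h2
    exact ⟨h3 ▸ hk, h4.symm⟩

theorem mdl_of (hl : P.NoThreeEqual) (S : Arcs P m)
    (K : CombG m (fun j => P.ang (S.κ j)) S.Rel ι) (cls : ZMod m → ℕ)
    (hcls : ∀ i j, (i = j ∨ ∃ b, S.Rel i j b) ↔ cls i = cls j) :
    ∃ b : ZMod m → ℝ, S.ChordAng b ∧ Mdl cls (fun j => P.ang (S.κ j) / Real.pi) b S.Rel := by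
  have hm : 2 ≤ m := by
    have := K.three_le
    omega
  have hpi := Real.pi_pos
  obtain ⟨σ, ε, hp, hmm, hch⟩ := S.chord_angles hm hl
  refine ⟨_, hch, ?_⟩
  exact
    { a_pos := fun i => div_pos (K.a_pos i) hpi
      a_lt := fun i => (div_lt_iff₀ hpi).2 (K.a_lt i)
      a_ne := fun i h => K.a_ne i ((div_eq_one_iff_eq hpi.ne').1 h)
      a_sum := by
        rw [← Finset.sum_div, K.a_sum, mul_div_cancel_right₀ _ hpi.ne']
      b_sum := K.b_sum σ ε (fun j k h => hp j k h) (fun j k h => hmm j k h)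
        (fun j k b h => S.rel_symm h)
        (fun j k k' b b' h h' hk hk' => S.rel_unique hl h h' hk hk')
      wp := K.wp σ ε (fun j k h => hp j k h) (fun j k h => hmm j k h)
      cls_eq := fun j k b h => (hcls j k).1 (Or.inr ⟨b, h⟩)
      single := by
        intro j hj
        obtain ⟨k, b, hkb⟩ := K.glued j
        have hkj : k = j := hj k ((hcls j k).1 (Or.inr ⟨b, hkb⟩)).symm
        subst hkj
        by_cases hw : S.w k = 1
        · exact Or.inl (W3_S S cls hcls hkb hw)
        · right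
          cases b
          · exact absurd (S.minus_self k hkb) hw
          · refine ⟨hkb, fun l b' h2 => ?_⟩
            obtain ⟨h3, h4⟩ := S.rel_type hl hw hkb h2
            exact ⟨h3.symm, h4.symm⟩
      twins := by
        intro j k hjk hc
        rcases (hcls j k).2 hc with h1 | ⟨b, h1⟩
        · exact absurd h1 hjk
        · have h2 := S.rel_symm h1
          by_cases hw : S.w j = 1
          · have hwk : S.w k = 1 := (S.rel_one h1 hw b).1
            exact ⟨Ty.S, Or.inl rfl, W3_S S cls hcls h1 hw, W3_S S cls hcls h2 hwk⟩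
          · have hwk : S.w k ≠ 1 := fun hk => hw (S.rel_one h2 hk b).1
            have h3 := W3_T hl S cls hcls h1 hjk.symm hw
            have h4 := W3_T hl S cls hcls h2 hjk hwk
            cases b
            · exact ⟨Ty.G, Or.inr (Or.inr rfl), h3, h4⟩
            · exact ⟨Ty.R, Or.inr (Or.inl rfl), h3, h4⟩
      two := by
        rintro i j k hij hjk hik ⟨h1, h2⟩
        rcases (hcls i j).2 h1 with h3 | ⟨b, h3⟩
        · exact hij h3
        rcases (hcls j k).2 h2 with h4 | ⟨b', h4⟩
        · exact hjk h4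
        exact hik (S.rel_unique hl (S.rel_symm h3) h4 hij hjk.symm) }

end Pool.Agent.Lib_MP_fa6e45
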