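import Pool.Agent.Lib_MP_fa6e45.V8a
import Pool.Agent.Lib_MP_fa6e45.V8b

/-!
MP_fa6e45_co, stage 2b: arcs (definitions only). The boundary of `P` is divided into `m` arcs between
marked corners; arc `j` consists of `w j` sides, from corner `κ j` to corner `κ (j + 1)`.
-/

open Set MeasureTheory Complex
open scoped Topology

namespace Pool.Agent.Lib_MP_fa6e45

open Pool.Agent.Lib_PL (cr InSector Poly)

variable {n : ℕ}

/-- arcs of the boundary of `P` -/
structure Arcs (P : Polygon n) (m : ℕ) [NeZero m] where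
  κ : ZMod m → ZMod n
  w : ZMod m → ℕ
  w_pos : ∀ j, 0 < w j
  step : ∀ j, κ (j + 1) = κ j + (w j : ZMod n)
  total : ∑ j, w j = n

namespace Arcs

variable {P : Polygon n} {m : ℕ} [NeZero m] (S : Arcs P m)

/-- the marked corner where arc `j` starts -/
def V (j : ZMod m) : ℂ := P.vertex (S.κ j)

/-- the chord of arc `j` -/
noncomputable def ch (j : ZMod m) : ℂ := S.V (j + 1) - S.V j

/-- arc `k` traversed backwards is congruent to arc `j` (by a direct motion). For `w j = 1` this
means that the two sides have the same length. -/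
def Plus (j k : ZMod m) : Prop :=
  S.w j = S.w k ∧
  (∀ t s : ℕ, t + s + 1 = S.w j → P.len (S.κ j + (t : ZMod n)) = P.len (S.κ k + (s : ZMod n))) ∧
  ∀ t s : ℕ, 0 < t → 0 < s → t + s = S.w j →
    P.ang (S.κ j + (t : ZMod n)) + P.ang (S.κ k + (s : ZMod n)) = 2 * Real.pi

/-- arc `k` (in the same direction) is the mirror image of arc `j` -/
def Minus (j k : ZMod m) : Prop :=
  S.w j = S.w k ∧
  (∀ t : ℕ, t < S.w j → P.len (S.κ j + (t : ZMod n)) = P.len (S.κ k + (t : ZMod n))) ∧
  ∀ t : ℕ, 0 < t → t < S.w j →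
    P.ang (S.κ j + (t : ZMod n)) + P.ang (S.κ k + (t : ZMod n)) = 2 * Real.pi

/-- the relation of the arcs of two neighbours: `b = true` if the tiles have the same orientation -/
def Rel (j k : ZMod m) (b : Bool) : Prop := if b then S.Plus j k else S.Minus j k

/-- a piece of a divided system of arcs (`none`: a segment) is a segment -/
def StrO (y : Option (ZMod m)) : Prop := y.elim True fun j => S.w j = 1

/-- `b` (in units of `π`) are chord angles: chord `j` has the direction of chord `j - 1` turned by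
`π (1 - b j)` -/
def ChordAng (b : ZMod m → ℝ) : Prop :=
  ∀ j, S.ch j = S.ch (j - 1) * ((‖S.ch j‖ / ‖S.ch (j - 1)‖ : ℝ) : ℂ) *
    exp (((Real.pi * (1 - b j) : ℝ) : ℂ) * Complex.I)

/-- the arcs numbered from arc `p` on -/
def shift (p : ZMod m) : Arcs P m where
  κ := fun j => S.κ (j + p)
  w := fun j => S.w (j + p)
  w_pos := fun j => S.w_pos (j + p)
  step := fun j => by
    rw [add_right_comm]
    exact S.step (j + p)
  total := (Equiv.sum_comp (Equiv.addRight p) S.w).trans S.total

end Arcs

/-- data for the lattice criterion with arcs (compare `LData`) -/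
structure AData (P : Polygon n) {m : ℕ} [NeZero m] (S : Arcs P m) (k : ℕ) where
  g : Fin k → Mo
  u : ℂ
  w : ℂ
  τ : Fin k × ZMod m → Fin k × ZMod m
  ττ : ∀ x, τ (τ x) = x
  c : Fin k × ZMod m → ℤ × ℤ
  cτ : ∀ x, c (τ x) = -c x
  rel : ∀ x, S.Rel x.2 (τ x).2 ((g x.1).rf == (g (τ x).1).rf)

namespace AData

variable {P : Polygon n} {m : ℕ} [NeZero m] {S : Arcs P m} {k : ℕ} (D : AData P S k)

/-- start of the directed arc `x` (interior on the left) -/
noncomputable def src (x : Fin k × ZMod m) : ℂ :=
  (D.g x.1).app (if (D.g x.1).rf then S.V (x.2 + 1) else S.V x.2)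

/-- end of the directed arc `x` -/
noncomputable def tgt (x : Fin k × ZMod m) : ℂ :=
  (D.g x.1).app (if (D.g x.1).rf then S.V x.2 else S.V (x.2 + 1))

/-- the arcs are matched -/
def Matched : Prop := ∀ x, D.src (D.τ x) + lv D.u D.w (D.c x) = D.tgt x ∧
  D.tgt (D.τ x) + lv D.u D.w (D.c x) = D.src x

end AData

/-- Arcs with one division point `X` on the straight arc `e` (`w e = 1`): the pieces are indexed by
`Option (ZMod m)`: `some j` is arc `j` for `j ≠ e`, `some e` is the segment from `V e` to `X`, and `none` is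
the segment from `X` to `V (e + 1)`. -/
structure DivArcs (P : Polygon n) {m : ℕ} [NeZero m] (S : Arcs P m) where
  e : ZMod m
  he : S.w e = 1
  X : ℂ
  hX : X ∈ openSegment ℝ (S.V e) (S.V (e + 1))

namespace DivArcs

variable {P : Polygon n} {m : ℕ} [NeZero m] {S : Arcs P m} (E : DivArcs P S)

/-- start of a piece -/
noncomputable def p (y : Option (ZMod m)) : ℂ := y.elim E.X S.V

/-- end of a piece -/
noncomputable def q (y : Option (ZMod m)) : ℂ :=
  y.elim (S.V (E.e + 1)) fun j => if j = E.e then E.X else S.V (j + 1)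


/-- gluing of pieces: two segments, or two arcs different from `e` -/
def Rel (y z : Option (ZMod m)) (b : Bool) : Prop :=
  (S.StrO y ∧ S.StrO z) ∨ ∃ j k, y = some j ∧ z = some k ∧ j ≠ E.e ∧ k ≠ E.e ∧ S.Rel j k b

end DivArcs

end Pool.Agent.Lib_MP_fa6e45
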