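import Pool.Agent.Lib_MP_fa6e45.X1b
import Pool.Agent.Lib_MP_fa6e45.X1c

/-!
PIECE X1d (about 150 lines): the criteria with arcs for the groups p1 and p2 from `AData.criterion` and
`Arcs.area` (`τ = η`). Compare `conway` (L2b): two tiles `z` and `s - z`; every arc `j` has the partner `η j`;
`hf j = true`: the neighbour behind arc `j` is `s - P` translated by `lv u w (c j)`, `hf j = false`: it is `P`
translated by `lv u w (c j)`.
-/

open Set MeasureTheory Complex
open scoped Topology

namespace Pool.Agent.Lib_MP_fa6e45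

open Pool.Agent.Lib_PL (cr InSector Poly)
variable {n : ℕ} {P : Polygon n} {m : ℕ} [NeZero m] (S : Arcs P m)

private theorem X1d_lv_neg (u w : ℂ) (a : ℤ × ℤ) : lv u w (-a) = -lv u w a := by
  unfold lv
  simp only [Prod.fst_neg, Prod.snd_neg, Int.cast_neg]
  ring

/-- the identity as a motion -/
private def X1d_id : Mo where
  a := 1
  b := 0
  rf := false
  ha := by simp

private theorem X1d_id_app (z : ℂ) : X1d_id.app z = z := by
  simp [X1d_id, Mo.app, Mo.lin]

/-- the motions `z ↦ z` and `z ↦ s - z` -/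
private def X1d_mo (s : ℂ) (j : Fin 2) : Mo where
  a := if j = 0 then 1 else -1
  b := if j = 0 then 0 else s
  rf := false
  ha := by split_ifs <;> simp

private theorem X1d_mo_zero (s z : ℂ) : (X1d_mo s 0).app z = z := by
  simp [X1d_mo, Mo.app, Mo.lin]

private theorem X1d_mo_one (s z : ℂ) : (X1d_mo s 1).app z = s - z := by
  simp [X1d_mo, Mo.app, Mo.lin]
  ring

private theorem X1d_area (hc : P.CCW) (hm : 2 ≤ m) (η : ZMod m → ZMod m) (hη : ∀ j, η (η j) = j)
    (rel : ∀ j, S.Plus j (η j)) :
    2 * (volume P.region).toReal = |∑ j, cr (S.V j) (S.V (j + 1))| := by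
  have h := S.area hc hm η hη fun j => Or.inr ⟨true, rel j⟩
  rw [← h, abs_of_nonneg]
  have h1 : 0 ≤ (volume P.region).toReal := ENNReal.toReal_nonneg
  linarith

theorem p1_arc (hc : P.CCW) (hm : 2 ≤ m) (u w : ℂ) (η : ZMod m → ZMod m) (hη : ∀ j, η (η j) = j)
    (c : ZMod m → ℤ × ℤ) (hcη : ∀ j, c (η j) = -c j) (rel : ∀ j, S.Plus j (η j))
    (h : ∀ j, S.V (η j) + lv u w (c j) = S.V (j + 1) ∧ S.V (η j + 1) + lv u w (c j) = S.V j)
    (hA : |∑ j, cr (S.V j) (S.V (j + 1))| = 2 * |cr u w|) : HasPeriodic P := by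
  let D : AData P S 1 :=
    { g := fun _ => X1d_id
      u := u
      w := w
      τ := fun x => (x.1, η x.2)
      ττ := by
        rintro ⟨j, y⟩
        simp only [hη]
      c := fun x => c x.2
      cτ := by
        rintro ⟨j, y⟩
        simp only [hcη]
      rel := fun x => rel x.2 }
  have hs : ∀ x, D.src x = S.V x.2 := fun x => X1d_id_app _
  have ht : ∀ x, D.tgt x = S.V (x.2 + 1) := fun x => X1d_id_app _
  refine AData.criterion hc hm one_pos D ?_ ?_
  · rintro ⟨j, y⟩
    have hu : D.u = u := rfl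
    have hw : D.w = w := rfl
    have hτ : D.τ (j, y) = (j, η y) := rfl
    have hcc : D.c (j, y) = c y := rfl
    rw [hu, hw, hτ, hcc, hs, hs, ht, ht]
    exact h y
  · have h1 := X1d_area S hc hm η hη rel
    change ((1 : ℕ) : ℝ) * (volume P.region).toReal = |cr u w|
    rw [Nat.cast_one]
    linarith

theorem p2_arc (hc : P.CCW) (hm : 2 ≤ m) (s u w : ℂ) (η : ZMod m → ZMod m) (hη : ∀ j, η (η j) = j)
    (hf : ZMod m → Bool) (hfη : ∀ j, hf (η j) = hf j)
    (c : ZMod m → ℤ × ℤ) (hcη : ∀ j, c (η j) = if hf j then c j else -c j)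
    (rel : ∀ j, S.Plus j (η j))
    (h1 : ∀ j, hf j = true → s + lv u w (c j) - S.V (η j) = S.V (j + 1) ∧
      s + lv u w (c j) - S.V (η j + 1) = S.V j)
    (h2 : ∀ j, hf j = false → S.V (η j) + lv u w (c j) = S.V (j + 1) ∧
      S.V (η j + 1) + lv u w (c j) = S.V j)
    (hA : |∑ j, cr (S.V j) (S.V (j + 1))| = |cr u w|) : HasPeriodic P := by
  let D : AData P S 2 :=
    { g := X1d_mo s
      u := u
      w := w
      τ := fun x => (if hf x.2 then 1 - x.1 else x.1, η x.2)
      ττ := by
        rintro ⟨j, y⟩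
        simp only [hfη, hη]
        cases hf y <;> fin_cases j <;> simp
      c := fun x => if x.1 = 0 then c x.2 else -c x.2
      cτ := by
        rintro ⟨j, y⟩
        simp only [hcη]
        cases hf y <;> fin_cases j <;> simp
      rel := fun x => rel x.2 }
  have hτ : ∀ x, D.τ x = (if hf x.2 then 1 - x.1 else x.1, η x.2) := fun x => rfl
  have hcc : ∀ x, D.c x = if x.1 = 0 then c x.2 else -c x.2 := fun x => rfl
  have hs0 : ∀ y, D.src (0, y) = S.V y := fun y => X1d_mo_zero s (S.V y)
  have hs1 : ∀ y, D.src (1, y) = s - S.V y := fun y => X1d_mo_one s (S.V y)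
  have ht0 : ∀ y, D.tgt (0, y) = S.V (y + 1) := fun y => X1d_mo_zero s (S.V (y + 1))
  have ht1 : ∀ y, D.tgt (1, y) = s - S.V (y + 1) := fun y => X1d_mo_one s (S.V (y + 1))
  have hu : D.u = u := rfl
  have hw : D.w = w := rfl
  refine AData.criterion hc hm two_pos D ?_ ?_
  · rintro ⟨j, y⟩
    rw [hu, hw, hτ, hcc]
    rcases Bool.eq_false_or_eq_true (hf y) with hy | hy
    · obtain ⟨h3, h4⟩ := h1 y hy
      fin_cases j
      · have e : (1 : Fin 2) - 0 = 1 := rfl
        simp only [hy, if_true, Fin.zero_eta, e, hs1, ht1, hs0, ht0]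
        exact ⟨by linear_combination h3, by linear_combination h4⟩
      · have e : (1 : Fin 2) - 1 = 0 := rfl
        simp only [hy, if_true, Fin.mk_one, e, hs1, ht1, hs0, ht0, one_ne_zero, if_false,
          X1d_lv_neg]
        exact ⟨by linear_combination -h3, by linear_combination -h4⟩
    · obtain ⟨h3, h4⟩ := h2 y hy
      fin_cases j
      · simp only [hy, Bool.false_eq_true, if_false, Fin.zero_eta, if_true, hs0, ht0]
        exact ⟨by linear_combination h3, by linear_combination h4⟩
      · simp only [hy, Bool.false_eq_true, if_false, Fin.mk_one, one_ne_zero, hs1, ht1,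
          X1d_lv_neg]
        exact ⟨by linear_combination -h3, by linear_combination -h4⟩
  · have h3 := X1d_area S hc hm η hη rel
    change ((2 : ℕ) : ℝ) * (volume P.region).toReal = |cr u w|
    rw [← hA, ← h3]
    norm_num

end Pool.Agent.Lib_MP_fa6e45
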