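import Pool.Agent.Lib_MP_fa6e45.X1b
import Pool.Agent.Lib_MP_fa6e45.X1c

/-!
PIECE X1e (about 120 lines): the criterion with arcs for the group pg. `‖A‖ = 1`, `α z = A conj z + s`,
`u = s + A conj s` (`α α` is the translation by `u`; `A conj u = u`), `A conj w = - w`. Two tiles `P`, `α P`
(`AData` with `k = 2`). `κ j = false`: the neighbour behind arc `j` is `P` translated by `lv u w (c j)`;
`κ j = true`: it is `α P` translated by `lv u w (c j)`. With T_x = translation by `lv u w x`:
`α T(x1, x2) = T(x1, -x2) α`, `(T(x1, x2) α)⁻¹ = T(-x1 - 1, x2) α`.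
-/

open Set MeasureTheory Complex
open scoped Topology

namespace Pool.Agent.Lib_MP_fa6e45

open Pool.Agent.Lib_PL (cr InSector Poly)
variable {n : ℕ} {P : Polygon n} {m : ℕ} [NeZero m] (S : Arcs P m)

/-- the motions `z ↦ z` and `z ↦ A conj z + s` -/
private def X1e_mo (A s : ℂ) (hA1 : ‖A‖ = 1) (j : Fin 2) : Mo where
  a := if j = 0 then 1 else A
  b := if j = 0 then 0 else s
  rf := if j = 0 then false else true
  ha := by split_ifs <;> simp [hA1]

private theorem X1e_mo_zero (A s : ℂ) (hA1 : ‖A‖ = 1) (z : ℂ) : (X1e_mo A s hA1 0).app z = z := by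
  simp [X1e_mo, Mo.app, Mo.lin]

private theorem X1e_mo_one (A s : ℂ) (hA1 : ‖A‖ = 1) (z : ℂ) :
    (X1e_mo A s hA1 1).app z = A * (starRingEnd ℂ) z + s := by
  simp [X1e_mo, Mo.app, Mo.lin]

private theorem X1e_rf_zero (A s : ℂ) (hA1 : ‖A‖ = 1) : (X1e_mo A s hA1 0).rf = false := by
  simp [X1e_mo]

private theorem X1e_rf_one (A s : ℂ) (hA1 : ‖A‖ = 1) : (X1e_mo A s hA1 1).rf = true := by
  simp [X1e_mo]

/-- `A conj u = u` for `u = s + A conj s` -/
private theorem X1e_conj_u (A s : ℂ) (hA1 : ‖A‖ = 1) :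
    A * (starRingEnd ℂ) (s + A * (starRingEnd ℂ) s) = s + A * (starRingEnd ℂ) s := by
  have h : A * (starRingEnd ℂ) A = 1 := by
    rw [Complex.mul_conj, Complex.normSq_eq_norm_sq, hA1]
    simp
  simp only [map_add, map_mul, conj_conj]
  linear_combination s * h

/-- the reflection of the lattice vectors -/
private theorem X1e_conj_lv (A s w : ℂ) (hA1 : ‖A‖ = 1) (hw : A * (starRingEnd ℂ) w = -w) (x : ℤ × ℤ) :
    A * (starRingEnd ℂ) (lv (s + A * (starRingEnd ℂ) s) w x) =
      lv (s + A * (starRingEnd ℂ) s) w (x.1, -x.2) := by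
  have h := X1e_conj_u A s hA1
  have h1 : (starRingEnd ℂ) (lv (s + A * (starRingEnd ℂ) s) w x) =
      (x.1 : ℂ) * (starRingEnd ℂ) (s + A * (starRingEnd ℂ) s) + (x.2 : ℂ) * (starRingEnd ℂ) w := by
    unfold lv
    rw [map_add, map_mul, map_mul, map_intCast, map_intCast]
  rw [h1]
  unfold lv
  simp only [Int.cast_neg]
  linear_combination (x.1 : ℂ) * h + (x.2 : ℂ) * hw

theorem pg_arc (hc : P.CCW) (hm : 2 ≤ m) (A s w : ℂ) (hA1 : ‖A‖ = 1)
    (hw : A * (starRingEnd ℂ) w = -w) (η : ZMod m → ZMod m) (hη : ∀ j, η (η j) = j)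
    (κ : ZMod m → Bool) (hκ : ∀ j, κ (η j) = κ j) (c : ZMod m → ℤ × ℤ)
    (hcη : ∀ j, c (η j) = if κ j then (-(c j).1 - 1, (c j).2) else -c j)
    (rel : ∀ j, S.Rel j (η j) (!κ j))
    (h1 : ∀ j, κ j = false → S.V (η j) + lv (s + A * (starRingEnd ℂ) s) w (c j) = S.V (j + 1) ∧
      S.V (η j + 1) + lv (s + A * (starRingEnd ℂ) s) w (c j) = S.V j)
    (h2 : ∀ j, κ j = true →
      A * (starRingEnd ℂ) (S.V (η j)) + s + lv (s + A * (starRingEnd ℂ) s) w (c j) = S.V j ∧
      A * (starRingEnd ℂ) (S.V (η j + 1)) + s + lv (s + A * (starRingEnd ℂ) s) w (c j) = S.V (j + 1))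
    (hA : |∑ j, cr (S.V j) (S.V (j + 1))| = |cr (s + A * (starRingEnd ℂ) s) w|) :
    HasPeriodic P := by
  have hAA : A * (starRingEnd ℂ) A = 1 := by
    rw [Complex.mul_conj, Complex.normSq_eq_norm_sq, hA1]
    simp
  set u : ℂ := s + A * (starRingEnd ℂ) s with hu
  have hlv : ∀ x : ℤ × ℤ, A * (starRingEnd ℂ) (lv u w x) = lv u w (x.1, -x.2) :=
    X1e_conj_lv A s w hA1 hw
  have hlv1 : ∀ x : ℤ × ℤ, lv u w (x.1 + 1, x.2) = lv u w x + u := by
    intro x
    unfold lv
    push_cast
    ring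
  let D : AData P S 2 :=
    { g := X1e_mo A s hA1
      u := u
      w := w
      τ := fun x => (if κ x.2 then 1 - x.1 else x.1, η x.2)
      ττ := by
        rintro ⟨j, y⟩
        simp only [hκ, hη]
        cases κ y <;> fin_cases j <;> simp
      c := fun x => if x.1 = 0 then c x.2
        else if κ x.2 then ((c x.2).1 + 1, -(c x.2).2) else ((c x.2).1, -(c x.2).2)
      cτ := by
        rintro ⟨j, y⟩
        simp only [hcη, hκ]
        cases κ y <;> fin_cases j <;> simp [Prod.ext_iff] <;> ring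
      rel := by
        rintro ⟨j, y⟩
        have h := rel y
        rcases Bool.eq_false_or_eq_true (κ y) with hy | hy
        · rw [hy] at h
          fin_cases j
          · have e : ((X1e_mo A s hA1 0).rf == (X1e_mo A s hA1 1).rf) = !true := by
              rw [X1e_rf_zero, X1e_rf_one]
              rfl
            simp only [hy, if_true]
            exact e ▸ h
          · have e : ((X1e_mo A s hA1 1).rf == (X1e_mo A s hA1 0).rf) = !true := by
              rw [X1e_rf_zero, X1e_rf_one]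
              rfl
            simp only [hy, if_true]
            exact e ▸ h
        · rw [hy] at h
          have e : ((X1e_mo A s hA1 j).rf == (X1e_mo A s hA1 j).rf) = !false := by
            simp
          simp only [hy, Bool.false_eq_true, if_false]
          exact e ▸ h }
  have hτ : ∀ x, D.τ x = (if κ x.2 then 1 - x.1 else x.1, η x.2) := fun x => rfl
  have hcc : ∀ x, D.c x = if x.1 = 0 then c x.2
      else if κ x.2 then ((c x.2).1 + 1, -(c x.2).2) else ((c x.2).1, -(c x.2).2) := fun x => rfl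
  have hs0 : ∀ y, D.src (0, y) = S.V y := fun y => X1e_mo_zero A s hA1 (S.V y)
  have ht0 : ∀ y, D.tgt (0, y) = S.V (y + 1) := fun y => X1e_mo_zero A s hA1 (S.V (y + 1))
  have hs1 : ∀ y, D.src (1, y) = A * (starRingEnd ℂ) (S.V (y + 1)) + s :=
    fun y => X1e_mo_one A s hA1 (S.V (y + 1))
  have ht1 : ∀ y, D.tgt (1, y) = A * (starRingEnd ℂ) (S.V y) + s :=
    fun y => X1e_mo_one A s hA1 (S.V y)
  have hDu : D.u = u := rfl
  have hDw : D.w = w := rfl
  refine AData.criterion hc hm (by norm_num) D ?_ ?_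
  · rintro ⟨j, y⟩
    rw [hDu, hDw, hτ, hcc]
    rcases Bool.eq_false_or_eq_true (κ y) with hy | hy
    · obtain ⟨h3, h4⟩ := h2 y hy
      have h5 := congrArg (fun z => A * (starRingEnd ℂ) z) h3
      have h6 := congrArg (fun z => A * (starRingEnd ℂ) z) h4
      simp only [map_add, map_mul, conj_conj, mul_add] at h5 h6
      rw [hlv] at h5 h6
      fin_cases j
      · have e : (1 : Fin 2) - 0 = 1 := rfl
        simp only [hy, if_true, Fin.zero_eta, e, hs1, ht1, hs0, ht0]
        exact ⟨h4, h3⟩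
      · have e : (1 : Fin 2) - 1 = 0 := rfl
        have h7 := hlv1 ((c y).1, -(c y).2)
        simp only at h7
        simp only [hy, if_true, Fin.mk_one, e, hs1, ht1, hs0, ht0, one_ne_zero, if_false]
        rw [h7, hu]
        rw [hu] at h5 h6
        exact ⟨by linear_combination h5 - S.V (η y) * hAA,
          by linear_combination h6 - S.V (η y + 1) * hAA⟩
    · obtain ⟨h3, h4⟩ := h1 y hy
      have h5 := congrArg (fun z => A * (starRingEnd ℂ) z) h3
      have h6 := congrArg (fun z => A * (starRingEnd ℂ) z) h4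
      simp only [map_add, mul_add] at h5 h6
      rw [hlv] at h5 h6
      fin_cases j
      · simp only [hy, Bool.false_eq_true, if_false, Fin.zero_eta, if_true, hs0, ht0]
        exact ⟨h3, h4⟩
      · simp only [hy, Bool.false_eq_true, if_false, Fin.mk_one, one_ne_zero, hs1, ht1]
        exact ⟨by linear_combination h6, by linear_combination h5⟩
  · rw [hDu, hDw]
    have h3 := S.area hc hm η hη (fun j => Or.inr ⟨!κ j, rel j⟩)
    rw [← hA, ← h3]
    have h4 : 0 ≤ (volume P.region).toReal := ENNReal.toReal_nonneg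
    rw [abs_of_nonneg (by linarith)]
    norm_num

end Pool.Agent.Lib_MP_fa6e45
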