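import Pool.Agent.Lib_MP_fa6e45.X1b
import Pool.Agent.Lib_MP_fa6e45.X1c

/-!
PIECE X1f (about 150 lines): the criterion with arcs for a rotation of order `k` around `o` and the lattice
`ℤ u + ℤ ζ u` (compare `rot_criterion`, V8a). Tiles `ζ ^ i (z - o) + o`, `i : Fin k`. The neighbour behind arc
`j` is `ζ ^ r j (z - o) + o + lv u (ζ u) (c j)`. Use `AData.criterion` (as V8a uses `LData.criterion`) and
`Arcs.area`.
-/

open Set MeasureTheory Complex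
open scoped Topology

namespace Pool.Agent.Lib_MP_fa6e45

open Pool.Agent.Lib_PL (cr InSector Poly)
variable {n : ℕ} {P : Polygon n} {m : ℕ} [NeZero m] (S : Arcs P m)

private theorem X1f_neg (α β : ℤ) (x : ℤ × ℤ) : rmul α β (-x) = -rmul α β x := by
  unfold rmul
  ext
  · simp
  · simp
    ring

private theorem X1f_iter_neg (α β : ℤ) (m : ℕ) (x : ℤ × ℤ) :
    (rmul α β)^[m] (-x) = -((rmul α β)^[m] x) := by
  induction m with
  | zero => rfl
  | succ m ih => rw [Function.iterate_succ_apply', Function.iterate_succ_apply', ih, X1f_neg]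

private theorem X1f_lv (ζ u : ℂ) (α β : ℤ) (hζ2 : ζ ^ 2 = (α : ℂ) + (β : ℂ) * ζ) (x : ℤ × ℤ) :
    lv u (ζ * u) (rmul α β x) = ζ * lv u (ζ * u) x := by
  unfold lv rmul
  push_cast
  linear_combination -((x.2 : ℂ) * u) * hζ2

private theorem X1f_lv_iter (ζ u : ℂ) (α β : ℤ) (hζ2 : ζ ^ 2 = (α : ℂ) + (β : ℂ) * ζ) (m : ℕ)
    (x : ℤ × ℤ) : lv u (ζ * u) ((rmul α β)^[m] x) = ζ ^ m * lv u (ζ * u) x := by
  induction m with
  | zero => simp
  | succ m ih =>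
    rw [Function.iterate_succ_apply', X1f_lv ζ u α β hζ2, ih, pow_succ]
    ring

private theorem X1f_mod (α β : ℤ) {k : ℕ} (hM : ∀ x : ℤ × ℤ, (rmul α β)^[k] x = x) (m : ℕ)
    (x : ℤ × ℤ) : (rmul α β)^[m % k] x = (rmul α β)^[m] x :=
  Function.IsPeriodicPt.iterate_mod_apply (hM x) m

/-- the rotation `z ↦ ζ ^ j (z - o) + o` -/
private noncomputable def X1f_mo (ζ o : ℂ) (hζ1 : ‖ζ‖ = 1) (j : ℕ) : Mo where
  a := ζ ^ j
  b := o - ζ ^ j * o
  rf := false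
  ha := by rw [norm_pow, hζ1, one_pow]

private theorem X1f_mo_app (ζ o : ℂ) (hζ1 : ‖ζ‖ = 1) (j : ℕ) (z : ℂ) :
    (X1f_mo ζ o hζ1 j).app z = ζ ^ j * (z - o) + o := by
  simp only [X1f_mo, Mo.app, Mo.lin]
  simp only [Bool.false_eq_true, if_false]
  ring

theorem rot_arc (hc : P.CCW) (hm : 2 ≤ m) (k : ℕ) (hk : 0 < k) (ζ u o : ℂ) (hζ1 : ‖ζ‖ = 1)
    (hζk : ζ ^ k = 1) (α β : ℤ) (hζ2 : ζ ^ 2 = (α : ℂ) + (β : ℂ) * ζ)
    (hM : ∀ x : ℤ × ℤ, (rmul α β)^[k] x = x)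
    (η : ZMod m → ZMod m) (hη : ∀ j, η (η j) = j) (r : ZMod m → ℕ) (hr : ∀ j, k ∣ r j + r (η j))
    (c : ZMod m → ℤ × ℤ) (hcη : ∀ j, c (η j) = -((rmul α β)^[r (η j)] (c j)))
    (rel : ∀ j, S.Plus j (η j))
    (h : ∀ j, ζ ^ r j * (S.V (η j) - o) + o + lv u (ζ * u) (c j) = S.V (j + 1) ∧
      ζ ^ r j * (S.V (η j + 1) - o) + o + lv u (ζ * u) (c j) = S.V j)
    (hA : (k : ℝ) * |∑ j, cr (S.V j) (S.V (j + 1))| = 2 * |cr u (ζ * u)|) : HasPeriodic P := by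
  let D : AData P S k :=
    { g := fun j => X1f_mo ζ o hζ1 (j : ℕ)
      u := u
      w := ζ * u
      τ := fun x => (⟨((x.1 : ℕ) + r x.2) % k, Nat.mod_lt _ hk⟩, η x.2)
      ττ := by
        rintro ⟨j, y⟩
        refine Prod.ext (Fin.ext ?_) (hη y)
        have e : (((j : ℕ) + r y) % k + r (η y)) % k = (j : ℕ) := by
          rw [Nat.mod_add_mod, add_assoc]
          obtain ⟨m, hm⟩ := hr y
          rw [hm, Nat.add_mul_mod_self_left, Nat.mod_eq_of_lt j.2]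
        exact e
      c := fun x => (rmul α β)^[(x.1 : ℕ)] (c x.2)
      cτ := by
        rintro ⟨j, y⟩
        show (rmul α β)^[((j : ℕ) + r y) % k] (c (η y)) = -((rmul α β)^[(j : ℕ)] (c y))
        rw [X1f_mod α β hM, hcη, X1f_iter_neg, ← Function.iterate_add_apply]
        obtain ⟨m, hm⟩ := hr y
        have e : (rmul α β)^[(j : ℕ) + r y + r (η y)] (c y) = (rmul α β)^[(j : ℕ)] (c y) := by
          rw [add_assoc, hm, ← X1f_mod α β hM, Nat.add_mul_mod_self_left, X1f_mod α β hM]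
        rw [e]
      rel := fun x => rel x.2 }
  have hs : ∀ (j : Fin k) (y : ZMod m), D.src (j, y) = ζ ^ (j : ℕ) * (S.V y - o) + o :=
    fun j y => X1f_mo_app ζ o hζ1 (j : ℕ) (S.V y)
  have ht : ∀ (j : Fin k) (y : ZMod m), D.tgt (j, y) = ζ ^ (j : ℕ) * (S.V (y + 1) - o) + o :=
    fun j y => X1f_mo_app ζ o hζ1 (j : ℕ) (S.V (y + 1))
  have hpow : ∀ m : ℕ, ζ ^ (m % k) = ζ ^ m := fun m => (pow_eq_pow_mod m hζk).symm
  have harea := S.area hc hm η hη fun j => Or.inr ⟨true, rel j⟩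
  refine AData.criterion hc hm hk D ?_ ?_
  · rintro ⟨j, y⟩
    obtain ⟨h1, h2⟩ := h y
    have hu : D.u = u := rfl
    have hw : D.w = ζ * u := rfl
    have hτ : D.τ (j, y) = (⟨((j : ℕ) + r y) % k, Nat.mod_lt _ hk⟩, η y) := rfl
    have hcc : D.c (j, y) = (rmul α β)^[(j : ℕ)] (c y) := rfl
    rw [hu, hw, hτ, hcc, hs, ht, hs, ht, X1f_lv_iter ζ u α β hζ2]
    simp only [hpow, pow_add]
    exact ⟨by linear_combination (ζ ^ (j : ℕ)) * h1, by linear_combination (ζ ^ (j : ℕ)) * h2⟩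
  · show (k : ℝ) * (volume P.region).toReal = |cr u (ζ * u)|
    rw [← harea, abs_of_nonneg (by positivity)] at hA
    linarith

end Pool.Agent.Lib_MP_fa6e45
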