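import Pool.Agent.Lib_MP_fa6e45.X2a
import Pool.Agent.Lib_MP_fa6e45.X1d

/-!
PIECE X5e (about 150 lines): `x5_7` is `ends_perp` (V4a) for chords: impossible. `x6_7` is `sym_hex` (V4a) for
chords: `‖ch 2‖ = ‖ch 5‖`, and `ch 5 = - ch 2` by `par3`, so `S.Plus 2 5` (both straight) and `p2_arc` applies with the
translation 2, 5 and half turns on 0, 1, 3, 4 (all straight; compare `hex`, L3a). The proofs in V4a use only
`side_turn`, the lengths and the closing `∑ ch = 0`.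
-/

open Set MeasureTheory Complex
open scoped Topology

namespace Pool.Agent.Lib_MP_fa6e45

open Pool.Agent.Lib_PL (cr InSector Poly)

variable {n : ℕ} {P : Polygon n}

section chords

variable {m : ℕ} [NeZero m] {S : Arcs P m} {b : ZMod m → ℝ}

private theorem X5e_fwd (hm : 2 ≤ m) (hb : S.ChordAng b) (j i : ZMod m) (hj : i - 1 = j)
    (c : ℂ) (θ : ℝ) (h : S.ch j = c * (‖S.ch j‖ : ℂ) * exp ((θ : ℂ) * Complex.I)) :
    S.ch i = c * (‖S.ch i‖ : ℂ) *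
      exp (((θ + Real.pi * (1 - b i) : ℝ) : ℂ) * Complex.I) := by
  subst hj
  have h0 : (‖S.ch (i - 1)‖ : ℂ) ≠ 0 := by
    exact_mod_cast norm_ne_zero_iff.2 (S.ch_ne hm (i - 1))
  have h1 : exp (((θ + Real.pi * (1 - b i) : ℝ) : ℂ) * Complex.I) =
      exp ((θ : ℂ) * Complex.I) * exp (((Real.pi * (1 - b i) : ℝ) : ℂ) * Complex.I) := by
    rw [← Complex.exp_add, Complex.ofReal_add, add_mul]
  have h2 : S.ch i = c * (‖S.ch (i - 1)‖ : ℂ) * exp ((θ : ℂ) * Complex.I) *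
      ((‖S.ch i‖ / ‖S.ch (i - 1)‖ : ℝ) : ℂ) *
      exp (((Real.pi * (1 - b i) : ℝ) : ℂ) * Complex.I) := by
    rw [← h]
    exact hb i
  rw [h1]
  refine h2.trans ?_
  rw [Complex.ofReal_div]
  field_simp

private theorem X5e_bwd (hm : 2 ≤ m) (hb : S.ChordAng b) (j i : ZMod m) (hj : i - 1 = j)
    (c : ℂ) (θ : ℝ) (h : S.ch i = c * (‖S.ch i‖ : ℂ) * exp ((θ : ℂ) * Complex.I)) :
    S.ch j = c * (‖S.ch j‖ : ℂ) *
      exp (((θ - Real.pi * (1 - b i) : ℝ) : ℂ) * Complex.I) := by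
  subst hj
  have h0 : (‖S.ch (i - 1)‖ : ℂ) ≠ 0 := by
    exact_mod_cast norm_ne_zero_iff.2 (S.ch_ne hm (i - 1))
  have h0' : (‖S.ch i‖ : ℂ) ≠ 0 := by
    exact_mod_cast norm_ne_zero_iff.2 (S.ch_ne hm i)
  have h1 : exp (((Real.pi * (1 - b i) : ℝ) : ℂ) * Complex.I) *
      exp (((θ - Real.pi * (1 - b i) : ℝ) : ℂ) * Complex.I) = exp ((θ : ℂ) * Complex.I) := by
    rw [← Complex.exp_add, ← add_mul, ← Complex.ofReal_add]
    congr 3
    ring
  have h2 : exp (((Real.pi * (1 - b i) : ℝ) : ℂ) * Complex.I) ≠ 0 := Complex.exp_ne_zero _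
  have h3 : S.ch (i - 1) * ((‖S.ch i‖ : ℂ) / (‖S.ch (i - 1)‖ : ℂ)) *
      exp (((Real.pi * (1 - b i) : ℝ) : ℂ) * Complex.I) =
      c * (‖S.ch i‖ : ℂ) * (exp (((Real.pi * (1 - b i) : ℝ) : ℂ) * Complex.I) *
      exp (((θ - Real.pi * (1 - b i) : ℝ) : ℂ) * Complex.I)) := by
    rw [h1, ← h, ← Complex.ofReal_div]
    exact (hb i).symm
  have h4 : ((‖S.ch i‖ : ℂ) * exp (((Real.pi * (1 - b i) : ℝ) : ℂ) * Complex.I)) *
      S.ch (i - 1) =
      ((‖S.ch i‖ : ℂ) * exp (((Real.pi * (1 - b i) : ℝ) : ℂ) * Complex.I)) *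
      (c * (‖S.ch (i - 1)‖ : ℂ) *
        exp (((θ - Real.pi * (1 - b i) : ℝ) : ℂ) * Complex.I)) := by
    have h5 : S.ch (i - 1) * ((‖S.ch i‖ : ℂ) / (‖S.ch (i - 1)‖ : ℂ)) *
        exp (((Real.pi * (1 - b i) : ℝ) : ℂ) * Complex.I) * (‖S.ch (i - 1)‖ : ℂ) =
        (‖S.ch i‖ : ℂ) * exp (((Real.pi * (1 - b i) : ℝ) : ℂ) * Complex.I) * S.ch (i - 1) := by
      field_simp
    rw [← h5, h3]
    ring
  exact mul_left_cancel₀ (mul_ne_zero h0' h2) h4

private theorem X5e_start (hm : 2 ≤ m) (S : Arcs P m) (j : ZMod m) :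
    ∃ c : ℂ, c ≠ 0 ∧ S.ch j = c * (‖S.ch j‖ : ℂ) * exp (((0 : ℝ) : ℂ) * Complex.I) := by
  have h0 : (‖S.ch j‖ : ℂ) ≠ 0 := by
    exact_mod_cast norm_ne_zero_iff.2 (S.ch_ne hm j)
  refine ⟨S.ch j / (‖S.ch j‖ : ℂ), div_ne_zero (S.ch_ne hm j) h0, ?_⟩
  rw [Complex.ofReal_zero, zero_mul, Complex.exp_zero, mul_one, div_mul_cancel₀ _ h0]

private theorem X5e_re (l θ : ℝ) : ((l : ℂ) * exp ((θ : ℂ) * Complex.I)).re = l * Real.cos θ := by
  rw [Complex.re_ofReal_mul, Complex.exp_ofReal_mul_I_re]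

private theorem X5e_plus (S : Arcs P m) {j k : ZMod m} (hj : S.w j = 1) (hk : S.w k = 1)
    (h : ‖S.ch j‖ = ‖S.ch k‖) : S.Plus j k := by
  have h1 : ∀ i, S.w i = 1 → ‖S.ch i‖ = P.len (S.κ i) := by
    intro i hi
    unfold Arcs.ch Arcs.V Polygon.len
    rw [S.step, hi, Nat.cast_one, dist_comm, dist_eq_norm]
  refine ⟨hj.trans hk.symm, ?_, ?_⟩
  · intro t s hts
    have ht : t = 0 := by omega
    have hs : s = 0 := by omega
    subst ht
    subst hs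
    rw [Nat.cast_zero, add_zero, add_zero, ← h1 j hj, ← h1 k hk, h]
  · intro t s ht hs hts
    omega

end chords

theorem x5_7 (hc : P.CCW) (S : Arcs P 5) (b : ZMod 5 → ℝ) (hb : S.ChordAng b) (h0 : S.Plus 0 1)
    (h2 : S.Plus 2 3) (e0 : b 1 + 2 * b 0 = 2) (e1 : b 3 + 2 * b 4 = 2) : False := by
  have hm : 2 ≤ 5 := by norm_num
  have h01 := S.norm_plus h0
  have h23 := S.norm_plus h2
  obtain ⟨c, hcne, k4⟩ := X5e_start hm S 4
  have k0 := X5e_fwd hm hb 4 0 (by decide) c _ k4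
  have k1 := X5e_fwd hm hb 0 1 (by decide) c _ k0
  have k3 := X5e_bwd hm hb 3 4 (by decide) c _ k4
  have k2 := X5e_bwd hm hb 2 3 (by decide) c _ k3
  have hsum : S.ch 0 + S.ch 1 + S.ch 2 + S.ch 3 + S.ch 4 = 0 := by
    unfold Arcs.ch
    rw [show (0 : ZMod 5) + 1 = 1 from rfl, show (1 : ZMod 5) + 1 = 2 from rfl,
      show (2 : ZMod 5) + 1 = 3 from rfl, show (3 : ZMod 5) + 1 = 4 from rfl,
      show (4 : ZMod 5) + 1 = 0 from rfl]
    ring
  have hs : c * ((‖S.ch 4‖ : ℂ) * exp (((0 : ℝ) : ℂ) * Complex.I) +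
      (‖S.ch 0‖ : ℂ) * exp (((0 + Real.pi * (1 - b 0) : ℝ) : ℂ) * Complex.I) +
      (‖S.ch 1‖ : ℂ) *
        exp (((0 + Real.pi * (1 - b 0) + Real.pi * (1 - b 1) : ℝ) : ℂ) * Complex.I) +
      (‖S.ch 3‖ : ℂ) * exp (((0 - Real.pi * (1 - b 4) : ℝ) : ℂ) * Complex.I) +
      (‖S.ch 2‖ : ℂ) *
        exp (((0 - Real.pi * (1 - b 4) - Real.pi * (1 - b 3) : ℝ) : ℂ) * Complex.I)) = 0 := by
    linear_combination hsum - k4 - k0 - k1 - k3 - k2
  have hs2 := (mul_eq_zero.mp hs).resolve_left hcne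
  have hs3 := congrArg Complex.re hs2
  simp only [Complex.add_re, X5e_re, Complex.zero_re] at hs3
  have a1 : Real.cos (0 + Real.pi * (1 - b 0)) = -Real.cos (Real.pi * b 0) := by
    rw [← Real.cos_pi_sub]
    congr 1
    ring
  have a2 : Real.cos (0 + Real.pi * (1 - b 0) + Real.pi * (1 - b 1)) =
      Real.cos (Real.pi * b 0) := by
    congr 1
    linear_combination -Real.pi * e0
  have a3 : Real.cos (0 - Real.pi * (1 - b 4)) = -Real.cos (Real.pi * b 4) := by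
    rw [← Real.cos_pi_sub, ← Real.cos_neg]
    congr 1
    ring
  have a4 : Real.cos (0 - Real.pi * (1 - b 4) - Real.pi * (1 - b 3)) =
      Real.cos (Real.pi * b 4) := by
    rw [← Real.cos_neg (Real.pi * b 4)]
    congr 1
    linear_combination Real.pi * e1
  rw [a1, a2, a3, a4, h01, h23, Real.cos_zero] at hs3
  have h5 := norm_pos_iff.2 (S.ch_ne hm 4)
  linarith

private theorem X5e_sym (S : Arcs P 6) (b : ZMod 6 → ℝ) (hb : S.ChordAng b)
    (h0 : S.Plus 0 1) (h3 : S.Plus 3 4) (e1 : b 1 + 2 * b 0 = 2) (e2 : b 2 = b 0)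
    (e3 : b 4 + 2 * b 3 = 2) (e4 : b 5 = b 3) : ‖S.ch 2‖ = ‖S.ch 5‖ := by
  have hm : 2 ≤ 6 := by norm_num
  have h01 := S.norm_plus h0
  have h34 := S.norm_plus h3
  obtain ⟨c, hcne, k5⟩ := X5e_start hm S 5
  have k0 := X5e_fwd hm hb 5 0 (by decide) c _ k5
  have k1 := X5e_fwd hm hb 0 1 (by decide) c _ k0
  have k2 := X5e_fwd hm hb 1 2 (by decide) c _ k1
  have k4 := X5e_bwd hm hb 4 5 (by decide) c _ k5
  have k3 := X5e_bwd hm hb 3 4 (by decide) c _ k4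
  have hsum : S.ch 0 + S.ch 1 + S.ch 2 + S.ch 3 + S.ch 4 + S.ch 5 = 0 := by
    unfold Arcs.ch
    rw [show (0 : ZMod 6) + 1 = 1 from rfl, show (1 : ZMod 6) + 1 = 2 from rfl,
      show (2 : ZMod 6) + 1 = 3 from rfl, show (3 : ZMod 6) + 1 = 4 from rfl,
      show (4 : ZMod 6) + 1 = 5 from rfl, show (5 : ZMod 6) + 1 = 0 from rfl]
    ring
  have hs : c * ((‖S.ch 5‖ : ℂ) * exp (((0 : ℝ) : ℂ) * Complex.I) +
      (‖S.ch 0‖ : ℂ) * exp (((0 + Real.pi * (1 - b 0) : ℝ) : ℂ) * Complex.I) +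
      (‖S.ch 1‖ : ℂ) *
        exp (((0 + Real.pi * (1 - b 0) + Real.pi * (1 - b 1) : ℝ) : ℂ) * Complex.I) +
      (‖S.ch 2‖ : ℂ) *
        exp (((0 + Real.pi * (1 - b 0) + Real.pi * (1 - b 1) + Real.pi * (1 - b 2) : ℝ) : ℂ) *
          Complex.I) +
      (‖S.ch 4‖ : ℂ) * exp (((0 - Real.pi * (1 - b 5) : ℝ) : ℂ) * Complex.I) +
      (‖S.ch 3‖ : ℂ) *
        exp (((0 - Real.pi * (1 - b 5) - Real.pi * (1 - b 4) : ℝ) : ℂ) * Complex.I)) = 0 := by
    linear_combination hsum - k5 - k0 - k1 - k2 - k4 - k3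
  have hs2 := (mul_eq_zero.mp hs).resolve_left hcne
  have hs3 := congrArg Complex.re hs2
  simp only [Complex.add_re, X5e_re, Complex.zero_re] at hs3
  have a1 : Real.cos (0 + Real.pi * (1 - b 0)) = -Real.cos (Real.pi * b 0) := by
    rw [← Real.cos_pi_sub]
    congr 1
    ring
  have a2 : Real.cos (0 + Real.pi * (1 - b 0) + Real.pi * (1 - b 1)) =
      Real.cos (Real.pi * b 0) := by
    congr 1
    linear_combination -Real.pi * e1
  have a5 : Real.cos (0 + Real.pi * (1 - b 0) + Real.pi * (1 - b 1) + Real.pi * (1 - b 2)) =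
      -1 := by
    rw [← Real.cos_pi]
    congr 1
    rw [e2]
    linear_combination -Real.pi * e1
  have a3 : Real.cos (0 - Real.pi * (1 - b 5)) = -Real.cos (Real.pi * b 3) := by
    rw [← Real.cos_pi_sub, ← Real.cos_neg, e4]
    congr 1
    ring
  have a4 : Real.cos (0 - Real.pi * (1 - b 5) - Real.pi * (1 - b 4)) =
      Real.cos (Real.pi * b 3) := by
    rw [← Real.cos_neg (Real.pi * b 3), e4]
    congr 1
    linear_combination Real.pi * e3
  rw [a1, a2, a3, a4, a5, h01, h34, Real.cos_zero] at hs3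
  linarith

theorem x6_7 (hc : P.CCW) (S : Arcs P 6) (b : ZMod 6 → ℝ) (hb : S.ChordAng b) (hw : ∀ j, S.w j = 1)
    (h0 : S.Plus 0 1) (h3 : S.Plus 3 4) (e1 : b 1 + 2 * b 0 = 2) (e2 : b 2 = b 0)
    (e3 : b 4 + 2 * b 3 = 2) (e4 : b 5 = b 3) : HasPeriodic P := by
  have hm : 2 ≤ 6 := by norm_num
  have hl := X5e_sym S b hb h0 h3 e1 e2 e3 e4
  have h5 : S.ch 5 = -S.ch 2 := by
    have h6 := hb.par3 hm 2 (show ‖S.ch 2‖ = ‖S.ch (2 + 3)‖ from hl)
      (show b 3 + b 4 + b 5 = 2 by rw [e4]; linarith)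
    exact h6
  have q0 : (0 : ZMod 6) + 1 = 1 := rfl
  have q1 : (1 : ZMod 6) + 1 = 2 := rfl
  have q2 : (2 : ZMod 6) + 1 = 3 := rfl
  have q3 : (3 : ZMod 6) + 1 = 4 := rfl
  have q4 : (4 : ZMod 6) + 1 = 5 := rfl
  have q5 : (5 : ZMod 6) + 1 = 0 := rfl
  have hV : S.V 0 = S.V 5 + S.V 2 - S.V 3 := by
    unfold Arcs.ch at h5
    rw [q5, q2] at h5
    linear_combination h5
  have H : ∀ j : ZMod 6, j = 0 ∨ j = 1 ∨ j = 2 ∨ j = 3 ∨ j = 4 ∨ j = 5 := by decide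
  refine p2_arc S hc hm (S.V 3 + S.V 4) (S.V 5 - S.V 3) (S.V 0 + S.V 1 - S.V 3 - S.V 4)
    ![0, 1, 5, 3, 4, 2] ?_ ![true, true, false, true, true, false] ?_
    ![(0, 1), (-1, 1), (-1, 0), (0, 0), (1, 0), (1, 0)] ?_ ?_ ?_ ?_ ?_
  · intro j
    rcases H j with rfl | rfl | rfl | rfl | rfl | rfl <;> rfl
  · intro j
    rcases H j with rfl | rfl | rfl | rfl | rfl | rfl <;> rfl
  · intro j
    rcases H j with rfl | rfl | rfl | rfl | rfl | rfl <;> rfl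
  · intro j
    refine X5e_plus S (hw _) (hw _) ?_
    rcases H j with rfl | rfl | rfl | rfl | rfl | rfl
    · rfl
    · rfl
    · exact hl
    · rfl
    · rfl
    · exact hl.symm
  · intro j hj
    rcases H j with rfl | rfl | rfl | rfl | rfl | rfl
    · change S.V 3 + S.V 4 + lv _ _ (0, 1) - S.V 0 = S.V 1 ∧
        S.V 3 + S.V 4 + lv _ _ (0, 1) - S.V 1 = S.V 0
      simp [lv]
    · change S.V 3 + S.V 4 + lv _ _ (-1, 1) - S.V 1 = S.V 2 ∧
        S.V 3 + S.V 4 + lv _ _ (-1, 1) - S.V 2 = S.V 1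
      simp only [lv, hV]
      push_cast
      constructor <;> ring
    · exact absurd hj (by decide)
    · change S.V 3 + S.V 4 + lv _ _ (0, 0) - S.V 3 = S.V 4 ∧
        S.V 3 + S.V 4 + lv _ _ (0, 0) - S.V 4 = S.V 3
      simp [lv]
    · change S.V 3 + S.V 4 + lv _ _ (1, 0) - S.V 4 = S.V 5 ∧
        S.V 3 + S.V 4 + lv _ _ (1, 0) - S.V 5 = S.V 4
      simp only [lv]
      push_cast
      constructor <;> ring
    · exact absurd hj (by decide)
  · intro j hj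
    rcases H j with rfl | rfl | rfl | rfl | rfl | rfl
    · exact absurd hj (by decide)
    · exact absurd hj (by decide)
    · change S.V 5 + lv _ _ (-1, 0) = S.V 3 ∧ S.V 0 + lv _ _ (-1, 0) = S.V 2
      simp only [lv, hV]
      push_cast
      constructor <;> ring
    · exact absurd hj (by decide)
    · exact absurd hj (by decide)
    · change S.V 2 + lv _ _ (1, 0) = S.V 0 ∧ S.V 3 + lv _ _ (1, 0) = S.V 5
      simp only [lv, hV]
      push_cast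
      constructor <;> ring
  · have h1 : ∑ j : ZMod 6, cr (S.V j) (S.V (j + 1)) =
      cr (S.V 0) (S.V 1) + cr (S.V 1) (S.V 2) + cr (S.V 2) (S.V 3) + cr (S.V 3) (S.V 4) +
        cr (S.V 4) (S.V 5) + cr (S.V 5) (S.V 0) :=
      Fin.sum_univ_six (fun j : ZMod 6 => cr (S.V j) (S.V (j + 1)))
    rw [h1, hV]
    congr 1
    unfold cr
    simp only [sub_re, sub_im, add_re, add_im]
    ring

end Pool.Agent.Lib_MP_fa6e45
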