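import Pool.Agent.Lib_MP_fa6e45.Y0
import Pool.Agent.Lib_MP_fa6e45.V2

/-!
PIECE Y1 (about 200 lines): partners of the corners of degree two.
`Comb.deg_two` (K1) for `c` with `i = c.2`, `j = (nx c).2`: `j ≠ i`, `a i + a j = 2 π`, and by `K.len`: same
orientation: `l i = l (j - 1)`, `l (i - 1) = l j`; different: `l i = l j`, `l (i - 1) = l (j - 1)`. Put `x = l (i - 1)`,
`y = l i`; `x ≠ y` (otherwise the at least three sides `i - 1, i, j - 1, j` are equal); so the orientation is
determined by `i, j`. `partner`: suppose `i` has two partners `j ≠ k` (in different tiles). Then `a j = a k = 2 π - a i`,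
and all corners with the two lengths `{x, y}` : if there is a fourth one that is ever a partner of `j` or `k`, then
these four corners are all corners between the (at most two) sides of length `x` and the (at most two) sides of
length `y`, so `n = 4`, all corners have degree two, contradiction to `not_all`. Otherwise the partner of `j` and of `k` is
always `i`, and `f c = [c.2 = j] + [c.2 = k] - [c.2 = i]` contradicts `K.avg` (`Hom`: `i, j, k` have always degree 2).
`not_all`: `f c = 1 - a c.2 / π` has star sums 0 and tile sums 2. `pass_sum`: `f c = 1 - a c.2 / π` on the corners of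
degree 2, `0` on the others: star sums 0, so the constant tile sum is 0 (apply `avg` to `f` and `-f`).
-/

open Set MeasureTheory Complex
open scoped Topology

set_option linter.unusedSimpArgs false

namespace Pool.Agent.Lib_MP_fa6e45

open Pool.Agent.Lib_PL (cr InSector Poly)
variable {n : ℕ} [NeZero n] {a l : ZMod n → ℝ} {ι : Type}

private theorem Y1_per (K : Comb n a l ι) (c : ι × ZMod n) : c ∈ Function.periodicPts K.nx :=
  Function.minimalPeriod_pos_iff_mem_periodicPts.1 (K.deg_pos c)

private theorem Y1_deg_iter (K : Comb n a l ι) (c : ι × ZMod n) (k : ℕ) :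
    K.deg (K.nx^[k] c) = K.deg c :=
  Function.minimalPeriod_apply_iterate (Y1_per K c) k

private theorem Y1_deg_nx (K : Comb n a l ι) (c : ι × ZMod n) : K.deg (K.nx c) = K.deg c :=
  Y1_deg_iter K c 1

private theorem Y1_nx_nx (K : Comb n a l ι) (c : ι × ZMod n) (hc : K.deg c = 2) :
    K.nx (K.nx c) = c := by
  have h1 := Function.isPeriodicPt_minimalPeriod K.nx c
  change K.nx^[K.deg c] c = c at h1
  rw [hc] at h1
  exact h1

/-- functions of the index with all star sums `0` have sum `0` -/
private theorem Y1_avg (K : CombA n a l ι) (f : ZMod n → ℝ)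
    (h : ∀ c, ∑ k ∈ Finset.range (K.toComb.deg c), f ((K.nx^[k] c).2) = 0) : ∑ i, f i = 0 := by
  have hb : ∀ i, |f i| ≤ ∑ j, |f j| := fun i =>
    Finset.single_le_sum (f := fun j => |f j|) (fun j _ => abs_nonneg (f j)) (Finset.mem_univ i)
  rcases lt_trichotomy (∑ i, f i) 0 with hlt | heq | hgt
  · exfalso
    refine K.avg (fun c => -f c.2) ⟨∑ j, |f j|, fun c => ?_⟩ (fun c => ?_) (-∑ i, f i)
      (by linarith) (fun t => ?_)
    · rw [abs_neg]
      exact hb c.2
    · have h1 := h c
      change ∑ k ∈ Finset.range (K.toComb.deg c), -f ((K.nx^[k] c).2) ≤ 0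
      rw [Finset.sum_neg_distrib, h1, neg_zero]
    · change -∑ i, f i ≤ ∑ i, -f i
      rw [Finset.sum_neg_distrib]
  · exact heq
  · exfalso
    exact K.avg (fun c => f c.2) ⟨_, fun c => hb c.2⟩ (fun c => (h c).le) (∑ i, f i) hgt
      (fun t => le_refl _)

private theorem Y1_two (K : CombA n a l ι) (f : ZMod n → ℝ) (c : ι × ZMod n)
    (hc : K.toComb.deg c = 2) :
    ∑ k ∈ Finset.range (K.toComb.deg c), f ((K.nx^[k] c).2) = f c.2 + f (K.nx c).2 := by
  rw [hc, Finset.sum_range_succ, Finset.sum_range_one]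
  rfl

private theorem Y1_ang (K : CombA n a l ι) (c : ι × ZMod n) (hc : K.toComb.deg c = 2) :
    a c.2 + a (K.nx c).2 = 2 * Real.pi :=
  (Y1_two K a c hc).symm.trans (K.sum c)

/-- lengths and orientation at a corner of degree two -/
private theorem Y1_len (K : CombA n a l ι) (c : ι × ZMod n) (hc : K.toComb.deg c = 2) :
    if (K.rf c.1 == K.rf (K.nx c).1) = true then
      l c.2 = l ((K.nx c).2 - 1) ∧ l (c.2 - 1) = l (K.nx c).2
    else l c.2 = l (K.nx c).2 ∧ l (c.2 - 1) = l ((K.nx c).2 - 1) := by
  have hp := Y1_nx_nx K.toComb c hc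
  have l1 := K.len c
  have l2 := K.len (K.nx c)
  rw [hp] at l2
  unfold enS exS at l1 l2
  rcases Bool.eq_false_or_eq_true (K.rf c.1) with h1 | h1 <;>
    rcases Bool.eq_false_or_eq_true (K.rf (K.nx c).1) with h2 | h2 <;>
    simp only [h1, h2, if_true, if_false, Bool.false_eq_true] at l1 l2 ⊢ <;> simp
  · exact ⟨l1.symm, l2⟩
  · exact ⟨l1.symm, l2⟩
  · exact ⟨l2, l1.symm⟩
  · exact ⟨l2, l1.symm⟩

omit [NeZero n] in
private theorem Y1_two_ne (hn : 3 ≤ n) : (2 : ZMod n) ≠ 0 := by
  intro h
  have h1 : ((2 : ℕ) : ZMod n) = 0 := by exact_mod_cast h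
  have h2 := (ZMod.natCast_eq_zero_iff 2 n).1 h1
  have h3 := Nat.le_of_dvd (by norm_num) h2
  omega

private theorem Y1_one_ne (hn : 3 ≤ n) : (1 : ZMod n) ≠ 0 := by
  intro h
  apply Y1_two_ne hn
  have : (2 : ZMod n) = 1 + 1 := by norm_num
  rw [this, h, add_zero]

/-- the two lengths at a corner of degree two are different -/
private theorem Y1_ne (hn : 3 ≤ n) (hl : NoThree l) {i j : ZMod n} (h : Compl a l i j) :
    l (i - 1) ≠ l i := by
  intro hxy
  obtain ⟨hji, -, h⟩ := h
  have h1 : (1 : ZMod n) ≠ 0 := Y1_one_ne hn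
  have h2 : l (j - 1) = l i ∧ l j = l i := by
    rcases h with ⟨h3, h4⟩ | ⟨h3, h4⟩
    · exact ⟨by rw [← h3, hxy], h4.symm⟩
    · exact ⟨h4.symm, by rw [← h3, hxy]⟩
  have hi : i - 1 ≠ i := by
    intro h3
    apply h1
    exact sub_eq_self.1 h3
  by_cases hj : j - 1 = i
  · refine hl (i - 1) i j hi hji.symm ?_ ⟨hxy, h2.2.symm⟩
    intro h3
    apply Y1_two_ne hn
    have h4 : j - 1 = i := hj
    rw [← h3] at h4
    have h5 : i - 1 - 1 = i - 2 := by ring
    rw [h5] at h4
    exact sub_eq_self.1 h4
  · refine hl (i - 1) i (j - 1) hi (Ne.symm hj) ?_ ⟨hxy, h2.1.symm⟩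
    intro h3
    exact hji (sub_left_injective h3).symm

private theorem Y1_card (hl : NoThree l) (x : ℝ) :
    (Finset.univ.filter fun e : ZMod n => l e = x).card ≤ 2 := by
  by_contra hcon
  push Not at hcon
  obtain ⟨i, j, k, hi, hj, hk, h1, h2, h3⟩ := Finset.two_lt_card_iff.1 hcon
  rw [Finset.mem_filter] at hi hj hk
  exact hl i j k h1 h3 h2 ⟨hi.2.trans hj.2.symm, hj.2.trans hk.2.symm⟩

/-- four corners between sides of two lengths are all corners -/
private theorem Y1_four (hl : NoThree l) (x y : ℝ) (hxy : x ≠ y) (S : Finset (ZMod n))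
    (hS : 4 ≤ S.card)
    (hT : ∀ m ∈ S, (l (m - 1) = x ∧ l m = y) ∨ (l (m - 1) = y ∧ l m = x)) :
    S = Finset.univ := by
  classical
  set X := Finset.univ.filter fun e : ZMod n => l e = x with hX
  set Y := Finset.univ.filter fun e : ZMod n => l e = y with hY
  have hXc : X.card ≤ 2 := Y1_card hl x
  have hYc : Y.card ≤ 2 := Y1_card hl y
  set S1 := S.filter fun m => l m = y with hS1
  set S2 := S.filter fun m => l m = x with hS2
  have hsub : S ⊆ S1 ∪ S2 := by
    intro m hm
    rw [Finset.mem_union, hS1, hS2, Finset.mem_filter, Finset.mem_filter]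
    rcases hT m hm with h | h
    · exact Or.inl ⟨hm, h.2⟩
    · exact Or.inr ⟨hm, h.2⟩
  have h1Y : S1 ⊆ Y := by
    intro m hm
    rw [hS1, Finset.mem_filter] at hm
    rw [hY, Finset.mem_filter]
    exact ⟨Finset.mem_univ m, hm.2⟩
  have h2X : S2 ⊆ X := by
    intro m hm
    rw [hS2, Finset.mem_filter] at hm
    rw [hX, Finset.mem_filter]
    exact ⟨Finset.mem_univ m, hm.2⟩
  have hc1 := Finset.card_le_card h1Y
  have hc2 := Finset.card_le_card h2X
  have hc3 := (Finset.card_le_card hsub).trans (Finset.card_union_le S1 S2)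
  have hinj : Function.Injective fun m : ZMod n => m - 1 := sub_left_injective
  have i1 : S1.image (fun m => m - 1) = X := by
    refine Finset.eq_of_subset_of_card_le ?_ ?_
    · intro e he
      obtain ⟨m, hm, rfl⟩ := Finset.mem_image.1 he
      rw [hS1, Finset.mem_filter] at hm
      rw [hX, Finset.mem_filter]
      refine ⟨Finset.mem_univ _, ?_⟩
      rcases hT m hm.1 with h | h
      · exact h.1
      · exact absurd (h.2.symm.trans hm.2) hxy
    · rw [Finset.card_image_of_injective _ hinj]
      omega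
  have i2 : S2.image (fun m => m - 1) = Y := by
    refine Finset.eq_of_subset_of_card_le ?_ ?_
    · intro e he
      obtain ⟨m, hm, rfl⟩ := Finset.mem_image.1 he
      rw [hS2, Finset.mem_filter] at hm
      rw [hY, Finset.mem_filter]
      refine ⟨Finset.mem_univ _, ?_⟩
      rcases hT m hm.1 with h | h
      · exact absurd (hm.2.symm.trans h.2) hxy
      · exact h.1
    · rw [Finset.card_image_of_injective _ hinj]
      omega
  have hstep : ∀ m ∈ S, m + 1 ∈ S := by
    intro m hm
    rcases hT m hm with h | h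
    · have h1 : m ∈ Y := by
        rw [hY, Finset.mem_filter]
        exact ⟨Finset.mem_univ m, h.2⟩
      rw [← i2, Finset.mem_image] at h1
      obtain ⟨m', hm', h2⟩ := h1
      rw [hS2, Finset.mem_filter] at hm'
      have h3 : m + 1 = m' := by
        rw [← h2]
        ring
      rw [h3]
      exact hm'.1
    · have h1 : m ∈ X := by
        rw [hX, Finset.mem_filter]
        exact ⟨Finset.mem_univ m, h.2⟩
      rw [← i1, Finset.mem_image] at h1
      obtain ⟨m', hm', h2⟩ := h1
      rw [hS1, Finset.mem_filter] at hm'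
      have h3 : m + 1 = m' := by
        rw [← h2]
        ring
      rw [h3]
      exact hm'.1
  obtain ⟨m0, hm0⟩ : S.Nonempty := Finset.card_pos.1 (by omega)
  have hall : ∀ k : ℕ, m0 + (k : ZMod n) ∈ S := by
    intro k
    induction k with
    | zero =>
      rw [Nat.cast_zero, add_zero]
      exact hm0
    | succ k ih =>
      rw [Nat.cast_succ, ← add_assoc]
      exact hstep _ ih
  rw [Finset.eq_univ_iff_forall]
  intro z
  have h := hall (z - m0).val
  rw [ZMod.natCast_zmod_val, add_sub_cancel] at h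
  exact h

theorem CombA.nonempty (K : CombA n a l ι) : Nonempty ι := by
  by_contra h
  rw [not_nonempty_iff] at h
  exact K.avg (fun _ => 0) ⟨0, fun c => (h.false c.1).elim⟩ (fun c => (h.false c.1).elim) 1
    one_pos (fun t => (h.false t).elim)

theorem CombA.not_all (K : CombA n a l ι) : ¬ ∀ c, K.toComb.deg c = 2 := by
  intro h
  have hpi := Real.pi_pos
  have h1 := Y1_avg K (fun i => 1 - a i / Real.pi) (fun c => by
    refine (Y1_two K (fun i => 1 - a i / Real.pi) c (h c)).trans ?_
    have h2 := Y1_ang K c (h c)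
    have h3 : a c.2 / Real.pi + a (K.nx c).2 / Real.pi = 2 := by
      rw [← add_div, h2]
      field_simp
    linarith)
  have h2 : ∑ i : ZMod n, (1 - a i / Real.pi) = 2 := by
    rw [Finset.sum_sub_distrib, Finset.sum_const, Finset.card_univ, ZMod.card, ← Finset.sum_div,
      K.a_sum, nsmul_eq_mul]
    field_simp
    ring
  rw [h2] at h1
  norm_num at h1

/-- the partner of a corner of degree two is unique -/
private theorem Y1_uniq (K : CombA n a l ι) (hl : NoThree l) (hH : K.toComb.Hom)
    (c c' : ι × ZMod n) (hcc : c.2 = c'.2) (hc : K.toComb.deg c = 2)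
    (hc' : K.toComb.deg c' = 2) : (K.nx c).2 = (K.nx c').2 := by
  classical
  by_contra hjk
  have hn := K.three_le
  set i := c.2 with hi
  set j := (K.nx c).2 with hj
  set k := (K.nx c').2 with hk
  have hC1 : Compl a l i j := K.toComb.deg_two c hc
  have hC2 : Compl a l i k := by
    rw [hcc]
    exact K.toComb.deg_two c' hc'
  have hne := Y1_ne hn hl hC1
  set x := l (i - 1) with hx
  set y := l i with hy
  let Ty : ZMod n → Prop := fun m => (l (m - 1) = x ∧ l m = y) ∨ (l (m - 1) = y ∧ l m = x)
  have hTi : Ty i := Or.inl ⟨rfl, rfl⟩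
  have hTC : ∀ u v, Compl a l u v → Ty u → Ty v := by
    intro u v h hu
    rcases h.2.2 with ⟨h1, h2⟩ | ⟨h1, h2⟩
    · rcases hu with ⟨h3, h4⟩ | ⟨h3, h4⟩
      · exact Or.inl ⟨h1 ▸ h3, h2 ▸ h4⟩
      · exact Or.inr ⟨h1 ▸ h3, h2 ▸ h4⟩
    · rcases hu with ⟨h3, h4⟩ | ⟨h3, h4⟩
      · exact Or.inr ⟨h2 ▸ h4, h1 ▸ h3⟩
      · exact Or.inl ⟨h2 ▸ h4, h1 ▸ h3⟩
  have hTj : Ty j := hTC i j hC1 hTi
  have hTk : Ty k := hTC i k hC2 hTi
  have hA : ∀ d : ι × ZMod n, K.toComb.deg d = 2 → ∀ t, K.toComb.deg (t, d.2) = 2 :=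
    fun d hd => hH d.2 ⟨d.1, hd⟩
  have hAi : ∀ t, K.toComb.deg (t, i) = 2 := hA c hc
  have hAj : ∀ t, K.toComb.deg (t, j) = 2 := hA (K.nx c) ((Y1_deg_nx K.toComb c).trans hc)
  have hAk : ∀ t, K.toComb.deg (t, k) = 2 := hA (K.nx c') ((Y1_deg_nx K.toComb c').trans hc')
  have hfour : ∀ m, Ty m → (∀ t, K.toComb.deg (t, m) = 2) → m = i ∨ m = j ∨ m = k := by
    intro m hm hAm
    by_contra hcon
    push Not at hcon
    obtain ⟨m1, m2, m3⟩ := hcon
    have hS := Y1_four hl x y hne {m, i, j, k} (by
      rw [Finset.card_insert_of_notMem, Finset.card_insert_of_notMem,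
        Finset.card_insert_of_notMem, Finset.card_singleton]
      · simpa using hjk
      · simp only [Finset.mem_insert, Finset.mem_singleton, not_or]
        exact ⟨hC1.1.symm, hC2.1.symm⟩
      · simp only [Finset.mem_insert, Finset.mem_singleton, not_or]
        exact ⟨m1, m2, m3⟩) (by
      intro u hu
      simp only [Finset.mem_insert, Finset.mem_singleton] at hu
      rcases hu with rfl | rfl | rfl | rfl
      · exact hm
      · exact hTi
      · exact hTj
      · exact hTk)
    refine K.not_all fun d => ?_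
    have hd : d.2 ∈ ({m, i, j, k} : Finset (ZMod n)) := by
      rw [hS]
      exact Finset.mem_univ _
    simp only [Finset.mem_insert, Finset.mem_singleton] at hd
    obtain ⟨t, u⟩ := d
    simp only at hd
    rcases hd with rfl | rfl | rfl | rfl
    · exact hAm t
    · exact hAi t
    · exact hAj t
    · exact hAk t
  have hjk2 : a j + a k ≠ 2 * Real.pi := by
    intro h
    have h1 := hC1.2.1
    have h2 := hC2.2.1
    exact K.a_ne j (by linarith)
  have hsum := Y1_avg K (fun m => (if m = j then (1 : ℝ) else 0) + (if m = k then (1 : ℝ) else 0)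
    - if m = i then (1 : ℝ) else 0) (fun d => by
    by_cases hd : K.toComb.deg d = 2
    · refine (Y1_two K (fun m => (if m = j then (1 : ℝ) else 0) +
        (if m = k then (1 : ℝ) else 0) - if m = i then (1 : ℝ) else 0) d hd).trans ?_
      have hCd : Compl a l d.2 (K.nx d).2 := K.toComb.deg_two d hd
      have hCd' : Compl a l (K.nx d).2 d.2 := by
        have h1 := K.toComb.deg_two (K.nx d) ((Y1_deg_nx K.toComb d).trans hd)
        rwa [Y1_nx_nx K.toComb d hd] at h1
      have hAd := hA d hd
      have hAd' := hA (K.nx d) ((Y1_deg_nx K.toComb d).trans hd)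
      generalize hu : d.2 = u at *
      generalize hv : (K.nx d).2 = v at *
      by_cases hT : Ty u
      · have hu' := hfour u hT hAd
        have hv' := hfour v (hTC u v hCd hT) hAd'
        have huv : v ≠ u := hCd.1
        have hsumuv := hCd.2.1
        have hij : i ≠ j := hC1.1.symm
        have hik : i ≠ k := hC2.1.symm
        rcases hu' with hu' | hu' | hu' <;> rcases hv' with hv' | hv' | hv'
        · exact absurd (hv'.trans hu'.symm) huv
        · rw [hu', hv']
          simp [hij, hik, hij.symm, hik.symm, hjk, Ne.symm hjk]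
        · rw [hu', hv']
          simp [hij, hik, hij.symm, hik.symm, hjk, Ne.symm hjk]
        · rw [hu', hv']
          simp [hij, hik, hij.symm, hik.symm, hjk, Ne.symm hjk]
        · exact absurd (hv'.trans hu'.symm) huv
        · rw [hu', hv'] at hsumuv
          exact absurd hsumuv hjk2
        · rw [hu', hv']
          simp [hij, hik, hij.symm, hik.symm, hjk, Ne.symm hjk]
        · rw [hu', hv', add_comm] at hsumuv
          exact absurd hsumuv hjk2
        · exact absurd (hv'.trans hu'.symm) huv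
      · have hT' : ¬ Ty v := fun h => hT (hTC v u hCd' h)
        have z1 : ∀ m, ¬ Ty m → m ≠ i ∧ m ≠ j ∧ m ≠ k := by
          intro m hm
          refine ⟨?_, ?_, ?_⟩ <;> rintro rfl
          · exact hm hTi
          · exact hm hTj
          · exact hm hTk
        obtain ⟨u1, u2, u3⟩ := z1 u hT
        obtain ⟨v1, v2, v3⟩ := z1 v hT'
        simp [u1, u2, u3, v1, v2, v3]
    · refine Finset.sum_eq_zero fun r _ => ?_
      have hr : K.toComb.deg (K.nx^[r] d) ≠ 2 := by
        rw [Y1_deg_iter K.toComb d r]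
        exact hd
      have z2 : ∀ m, (∀ t, K.toComb.deg (t, m) = 2) → (K.nx^[r] d).2 ≠ m := by
        intro m hm h
        apply hr
        have h1 := hm (K.nx^[r] d).1
        rw [← h] at h1
        exact h1
      rw [if_neg (z2 j hAj), if_neg (z2 k hAk), if_neg (z2 i hAi)]
      norm_num)
  rw [Finset.sum_sub_distrib, Finset.sum_add_distrib, Finset.sum_ite_eq', Finset.sum_ite_eq',
    Finset.sum_ite_eq'] at hsum
  simp at hsum

theorem CombA.partner (K : CombA n a l ι) (hl : NoThree l) (hH : K.toComb.Hom) :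
    ∃ (p : ZMod n → ZMod n) (s : ZMod n → Bool), ∀ c, K.toComb.deg c = 2 →
      (K.nx c).2 = p c.2 ∧ (K.rf c.1 == K.rf (K.nx c).1) = s c.2 := by
  classical
  have key : ∀ i : ZMod n, ∃ (p : ZMod n) (s : Bool), ∀ c : ι × ZMod n, c.2 = i →
      K.toComb.deg c = 2 → (K.nx c).2 = p ∧ (K.rf c.1 == K.rf (K.nx c).1) = s := by
    intro i
    by_cases h : ∃ c : ι × ZMod n, c.2 = i ∧ K.toComb.deg c = 2
    · obtain ⟨c0, h0, h1⟩ := h
      refine ⟨(K.nx c0).2, (K.rf c0.1 == K.rf (K.nx c0).1), fun c hc hd => ?_⟩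
      have hu := Y1_uniq K hl hH c c0 (hc.trans h0.symm) hd h1
      refine ⟨hu, ?_⟩
      have hne := Y1_ne K.three_le hl (K.toComb.deg_two c hd)
      have e1 := Y1_len K c hd
      have e2 := Y1_len K c0 h1
      rw [hu, hc] at e1
      rw [h0] at e2
      rw [hc] at hne
      generalize (K.rf c.1 == K.rf (K.nx c).1) = b1 at *
      generalize (K.rf c0.1 == K.rf (K.nx c0).1) = b2 at *
      cases b1 <;> cases b2
      · rfl
      · simp only [Bool.false_eq_true, if_false, if_true] at e1 e2
        exact absurd (e2.2.trans e1.1.symm) hne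
      · simp only [Bool.false_eq_true, if_false, if_true] at e1 e2
        exact absurd (e1.2.trans e2.1.symm) hne
      · rfl
    · exact ⟨0, true, fun c hc hd => absurd ⟨c, hc, hd⟩ h⟩
  choose p s hps using key
  exact ⟨p, s, fun c hc => hps c.2 c rfl hc⟩

/-- `F` is the set of corners of degree at least three -/
theorem CombA.pass_sum (K : CombA n a l ι) (hH : K.toComb.Hom) (F : Finset (ZMod n))
    (hF : ∀ c, c.2 ∈ F ↔ K.toComb.deg c ≠ 2) :
    3 ≤ F.card ∧ ∑ i ∈ F, a i = ((F.card : ℝ) - 2) * Real.pi := by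
  classical
  have hpi := Real.pi_pos
  have h1 := Y1_avg K (fun i => if i ∈ F then 0 else 1 - a i / Real.pi) (fun c => by
    by_cases hc : K.toComb.deg c = 2
    · refine (Y1_two K (fun i => if i ∈ F then 0 else 1 - a i / Real.pi) c hc).trans ?_
      have m1 : c.2 ∉ F := fun h => (hF c).1 h hc
      have m2 : (K.nx c).2 ∉ F := fun h =>
        (hF (K.nx c)).1 h ((Y1_deg_nx K.toComb c).trans hc)
      simp only [if_neg m1, if_neg m2]
      have h2 := Y1_ang K c hc
      have h3 : a c.2 / Real.pi + a (K.nx c).2 / Real.pi = 2 := by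
        rw [← add_div, h2]
        field_simp
      linarith
    · refine Finset.sum_eq_zero fun r _ => ?_
      have hr : (K.nx^[r] c).2 ∈ F := by
        rw [hF, Y1_deg_iter K.toComb c r]
        exact hc
      rw [if_pos hr])
  have h2 : ∀ i : ZMod n, (if i ∈ F then (0 : ℝ) else 1 - a i / Real.pi) =
      (1 - a i / Real.pi) - if i ∈ F then (1 - a i / Real.pi) else 0 := by
    intro i
    split_ifs <;> ring
  rw [Finset.sum_congr rfl fun i _ => h2 i, Finset.sum_sub_distrib, Finset.sum_ite_mem,
    Finset.univ_inter, Finset.sum_sub_distrib, Finset.sum_sub_distrib, ← Finset.sum_div,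
    ← Finset.sum_div, K.a_sum] at h1
  simp only [Finset.sum_const, Finset.card_univ, ZMod.card, nsmul_eq_mul, mul_one] at h1
  have h3 : ∑ i ∈ F, a i = ((F.card : ℝ) - 2) * Real.pi := by
    field_simp at h1
    linarith
  refine ⟨?_, h3⟩
  have hne : F.Nonempty := by
    by_contra hcon
    rw [Finset.not_nonempty_iff_eq_empty] at hcon
    rw [hcon, Finset.sum_empty, Finset.card_empty, Nat.cast_zero] at h3
    linarith
  have h4 : 0 < ∑ i ∈ F, a i := Finset.sum_pos (fun i _ => K.a_pos i) hne
  rw [h3] at h4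
  have h5 : (0 : ℝ) < (F.card : ℝ) - 2 := by
    by_contra hcon
    push Not at hcon
    nlinarith
  have h6 : (2 : ℝ) < (F.card : ℝ) := by linarith
  have h7 : 2 < F.card := by exact_mod_cast h6
  omega

end Pool.Agent.Lib_MP_fa6e45
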