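import Pool.Agent.Lib_MP_fa6e45.Y0

/-!
MP_fa6e45_co, stage 2b: a checker for certificate trees (definitions only).

A tree proves: for every system of angles `a`, `b` with the principle `WP`, one of the schemes in its leaves
applies. State of a node: a list `eqs` of equations `∑ co i * a i = rhs` (in units of `π`, valid for `a` and `b`), and
what is known about the types `ty` of the arcs.
-/

namespace Pool.Agent.Lib_MP_fa6e45

/-- types of arcs: `U` unknown, `S` straight, `C` (only itself, half turn), `R` (only the twin, same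
orientation), `G` (only the twin, different orientation) -/
inductive Ty
  | U | S | C | R | G
deriving DecidableEq

/-- may arcs `e`, `g` be glued with orientation relation `b`, as far as `ty` knows -/
def okB {m : ℕ} (cls : ZMod m → ℕ) (ty : ZMod m → Ty) (e g : ZMod m) (b : Bool) : Bool :=
  cls e == cls g && (match ty e with
    | Ty.U => true
    | Ty.S => true
    | Ty.C => e == g && b
    | Ty.R => e != g && b
    | Ty.G => e != g && !b)

/-- arc `j` is alone in its class -/
def alone {m : ℕ} (cls : ZMod m → ℕ) (j : ZMod m) : Bool :=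
  (List.range m).all fun k => cls (k : ZMod m) != cls j || (k : ZMod m) == j

/-- is the relation of `e`, `g` with `b` known to hold -/
def factB {m : ℕ} (cls : ZMod m → ℕ) (ty : ZMod m → Ty) (e g : ZMod m) (b : Bool) : Bool :=
  match ty e with
    | Ty.U => e == g && b && alone cls e
    | Ty.S => cls e == cls g
    | Ty.C => e == g && b
    | Ty.R => e != g && cls e == cls g && b
    | Ty.G => e != g && cls e == cls g && !b

/-- equation `∑ co i * a i = rhs`: coefficients and right hand side -/
abbrev Eqn := List ℤ × ℤ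

/-- the equation holds -/
def Eqn.Holds {m : ℕ} [NeZero m] (E : Eqn) (a : ZMod m → ℝ) : Prop :=
  ∑ i : ZMod m, ((E.1.getD i.val 0 : ℤ) : ℝ) * a i = (E.2 : ℝ)

/-- coefficient of a linear combination -/
def lcCo (ls : List ℤ) (eqs : List Eqn) (i : ℕ) : ℤ :=
  ((ls.zip eqs).map fun x => x.1 * x.2.1.getD i 0).sum

/-- right hand side of a linear combination -/
def lcRhs (ls : List ℤ) (eqs : List Eqn) : ℤ := ((ls.zip eqs).map fun x => x.1 * x.2.2).sum

/-- scheme: gluing facts `(j, k, b)` and equations for `b` -/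
structure Sch where
  glue : List (ℕ × ℕ × Bool)
  eqs : List Eqn

/-- the linear combination `ls` of `eqs` contradicts `0 < a i < 2`, `a i ≠ 1` -/
def contraB (m : ℕ) (eqs : List Eqn) (ls : List ℤ) : Bool :=
  let co := fun i => lcCo ls eqs i
  let r := lcRhs ls eqs
  -- all coefficients zero, right hand side not zero
  ((List.range m).all fun i => co i == 0) && r != 0 ||
  -- some coefficient not zero, and too small
  ((List.range m).any fun i => co i != 0) &&
    decide (r ≤ ((List.range m).map fun i => if co i < 0 then 2 * co i else 0).sum) ||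
  -- some angle is `π`
  (List.range m).any fun j => co j != 0 && r == co j && (List.range m).all fun i => i == j || co i == 0

/-- `cs` derives the equations of the scheme (rotated by `p`) from `eqs` -/
def derB (m : ℕ) (eqs : List Eqn) (p : ℕ) : List Eqn → List (ℤ × List ℤ) → Bool
  | [], [] => true
  | E :: Es, c :: cs =>
      c.1 != 0 && ((List.range m).all fun i => lcCo c.2 eqs ((i + p) % m) == c.1 * E.1.getD i 0) &&
        lcRhs c.2 eqs == c.1 * E.2 && derB m eqs p Es cs
  | _, _ => false

/-- numbers of the corners of a list of corner codes -/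
def cntv (m : ℕ) (path : List ℕ) : List ℕ :=
  (List.range m).map fun i => path.countP fun x => x / 2 == i

/-- all closed walks from `c0` (through corners with codes `≥ c0`) with cost `< L` and length at least three
have their numbers of corners in `cvs`; `tab` lists for every corner the next corners with their costs -/
def dfs (tab : List (List (ℕ × ℕ))) (L : ℕ) (cvs : List (List ℕ)) (m c0 : ℕ) :
    ℕ → ℕ → ℕ → List ℕ → Bool
  | 0, _, _, _ => false
  | fuel + 1, cur, s, path =>
      (tab.getD cur []).all fun x =>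
        decide (L ≤ s + x.2) ||
          ((x.1 != c0 || decide (path.length < 3) || cvs.contains (cntv m path)) &&
            (decide (x.1 < c0) || dfs tab L cvs m c0 fuel x.1 (s + x.2) (x.1 :: path)))

/-- all corners -/
def allC (m : ℕ) : List (ZMod m × Bool) :=
  (List.range m).flatMap fun i => [((i : ZMod m), false), ((i : ZMod m), true)]

/-- the weights of a node -/
def vF {m : ℕ} (v : List ℤ) (i : ZMod m) : ℤ := v.getD i.val 0

/-- the crossing function of a node: entries `(x, y, t)`: `A x y = t`, `A y x = - t` (codes of side and flag) -/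
def aF {m : ℕ} (A : List (ℕ × ℕ × ℤ)) (x y : ZMod m × Bool) : ℤ :=
  (A.map fun t => if t.1 = code x ∧ t.2.1 = code y then t.2.2 else 0).sum -
    (A.map fun t => if t.1 = code y ∧ t.2.1 = code x then t.2.2 else 0).sum

/-- cost of a step, changed by the potential `φ` (a list indexed by the codes of corners) -/
def cost {m : ℕ} (v : List ℤ) (A : List (ℕ × ℕ × ℤ)) (φ : List ℤ) (c d : ZMod m × Bool) : ℤ :=
  stepCost (vF v) (aF A) c d + φ.getD (code c) 0 - φ.getD (code d) 0

/-- one step is correctly described by the table -/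
def stepB {m : ℕ} (cls : ZMod m → ℕ) (ty : ZMod m → Ty) (v : List ℤ) (A : List (ℕ × ℕ × ℤ)) (φ : List ℤ)
    (L : ℕ) (tab : List (List (ℕ × ℕ))) (c d : ZMod m × Bool) : Bool :=
  !okB cls ty (exW c).1 (enW d).1 (c.2 == d.2) ||
    (decide (0 ≤ cost v A φ c d) &&
      (decide ((L : ℤ) ≤ cost v A φ c d) ||
        (tab.getD (code c) []).any fun x =>
          x.1 == code d && decide ((x.2 : ℤ) ≤ cost v A φ c d)))

/-- the node is correct: every star with cost `< L` has its numbers of corners in `cvs` -/
def lpB {m : ℕ} (cls : ZMod m → ℕ) (ty : ZMod m → Ty) (v : List ℤ) (A : List (ℕ × ℕ × ℤ)) (φ : List ℤ)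
    (L fuel : ℕ) (tab : List (List (ℕ × ℕ))) (cvs : List (List ℕ)) : Bool :=
  decide (2 * ((List.range m).map fun i => v.getD i 0).sum < ((m : ℤ) - 2) * L) &&
    ((allC m).all fun c => (allC m).all fun d => stepB cls ty v A φ L tab c d) &&
    (List.range (2 * m)).all fun c => dfs tab L cvs m c fuel c 0 [c]

/-- certificate trees; the children of a node `lp` form a chain of `cons` -/
inductive Tr
  | leaf (k p : ℕ) (cs : List (ℤ × List ℤ))
  | contra (ls : List ℤ)
  | splitT (j : ℕ) (tS tR tG : Tr)
  | splitU (j : ℕ) (tS tC : Tr)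
  | lp (v : List ℤ) (A : List (ℕ × ℕ × ℤ)) (φ : List ℤ) (L fuel : ℕ) (tab : List (List (ℕ × ℕ)))
      (cvs : List (List ℕ)) (ch : Tr)
  | cons (t rest : Tr)
  | nil

/-- the types after the type of the class of arc `j` has been found out -/
def setTy {m : ℕ} (cls : ZMod m → ℕ) (ty : ZMod m → Ty) (j : ℕ) (t : Ty) (i : ZMod m) : Ty :=
  if cls i = cls (j : ZMod m) then t else ty i

/-- the checker; the last argument is `none` for a proper node, and `some cvs` for a chain of children of an
`lp` node (`cvs` are the numbers of corners for the children) -/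
def chk {m : ℕ} (cls : ZMod m → ℕ) (tab : ℕ → Sch) :
    Tr → (ZMod m → Ty) → List Eqn → Option (List (List ℕ)) → Bool
  | Tr.leaf k p cs, ty, eqs, _ =>
      ((tab k).glue.all fun g =>
        factB cls ty ((g.1 : ZMod m) + (p : ZMod m)) ((g.2.1 : ZMod m) + (p : ZMod m)) g.2.2) &&
        derB m eqs p (tab k).eqs cs
  | Tr.contra ls, _, eqs, _ => contraB m eqs ls
  | Tr.splitT j tS tR tG, ty, eqs, _ =>
      !alone cls (j : ZMod m) && chk cls tab tS (setTy cls ty j Ty.S) eqs none &&
        chk cls tab tR (setTy cls ty j Ty.R) eqs none && chk cls tab tG (setTy cls ty j Ty.G) eqs none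
  | Tr.splitU j tS tC, ty, eqs, _ =>
      alone cls (j : ZMod m) && chk cls tab tS (setTy cls ty j Ty.S) eqs none &&
        chk cls tab tC (setTy cls ty j Ty.C) eqs none
  | Tr.lp v A φ L fuel t cvs ch, ty, eqs, _ =>
      lpB cls ty v A φ L fuel t cvs && chk cls tab ch ty eqs (some cvs)
  | Tr.cons t rest, ty, eqs, some (cv :: cvs) =>
      chk cls tab t ty ((cv.map fun x => (x : ℤ), 2) :: eqs) none && chk cls tab rest ty eqs (some cvs)
  | Tr.cons _ _, _, _, _ => false
  | Tr.nil, _, _, some [] => true
  | Tr.nil, _, _, _ => false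

/-- the meaning of a type -/
def IsTy {m : ℕ} (G : ZMod m → ZMod m → Bool → Prop) (cls : ZMod m → ℕ) (j : ZMod m) : Ty → Prop
  | Ty.U => True
  | Ty.S => ∀ k b, cls k = cls j → G j k b
  | Ty.C => G j j true ∧ ∀ k b, G j k b → k = j ∧ b = true
  | Ty.R => (∀ k, k ≠ j → cls k = cls j → G j k true) ∧ ∀ k b, G j k b → k ≠ j ∧ b = true
  | Ty.G => (∀ k, k ≠ j → cls k = cls j → G j k false) ∧ ∀ k b, G j k b → k ≠ j ∧ b = false

/-- the systems to which certificate trees apply -/
structure Mdl {m : ℕ} [NeZero m] (cls : ZMod m → ℕ) (a b : ZMod m → ℝ)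
    (G : ZMod m → ZMod m → Bool → Prop) : Prop where
  a_pos : ∀ i, 0 < a i
  a_lt : ∀ i, a i < 2
  a_ne : ∀ i, a i ≠ 1
  a_sum : ∑ i, a i = (m : ℝ) - 2
  b_sum : ∑ i, b i = (m : ℝ) - 2
  wp : WP a b G
  cls_eq : ∀ j k b, G j k b → cls j = cls k
  single : ∀ j, (∀ k, cls k = cls j → k = j) → IsTy G cls j Ty.S ∨ IsTy G cls j Ty.C
  twins : ∀ j k, j ≠ k → cls j = cls k → ∃ t : Ty, (t = Ty.S ∨ t = Ty.R ∨ t = Ty.G) ∧
    IsTy G cls j t ∧ IsTy G cls k t
  two : ∀ i j k, i ≠ j → j ≠ k → i ≠ k → ¬ (cls i = cls j ∧ cls j = cls k)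

/-- what a certificate tree proves: the scheme `tab k`, rotated by `p`, applies -/
def Applies {m : ℕ} [NeZero m] (tab : ℕ → Sch) (b : ZMod m → ℝ)
    (G : ZMod m → ZMod m → Bool → Prop) : Prop :=
  ∃ k p : ℕ, (∀ g ∈ (tab k).glue, G ((g.1 : ZMod m) + (p : ZMod m)) ((g.2.1 : ZMod m) + (p : ZMod m)) g.2.2) ∧
    ∀ E ∈ (tab k).eqs, Eqn.Holds E fun i => b (i + (p : ZMod m))

end Pool.Agent.Lib_MP_fa6e45
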