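import Pool.Agent.Lib_MP_fa6e45.Z1

/-!
PIECE Z2 (about 300 lines): soundness of an `lp` node. Apply `M.wp` to `v = vF v`, `A = aF A` (antisymmetric by
definition), `L`: a star `c, l` with cost `< L`. The costs `cost v A φ` have the same sum around the star (the
potential `φ` telescopes). Every step of it is allowed (`okB_sound`), has cost `≥ 0` and
(as all costs are `≥ 0` and the sum is `< L`) cost `< L`, so it is in the table with a cost at most the true one
(`stepB`; `allC m` contains all corners); so the codes form a `TPath` with total `< L`, all codes are `≥ code c`;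
`dfs_sound` with `path = [code c]`, `fuel`, gives `cntv m (codes) ∈ cvs`; and `∑ i, cntv i * a i = ∑ a over the star = 2`
(`code x / 2 = x.1.val`; `countP` over a list; the order of the list does not matter).
-/

open scoped Topology

namespace Pool.Agent.Lib_MP_fa6e45

variable {m : ℕ} [NeZero m] {cls : ZMod m → ℕ} {a b : ZMod m → ℝ} {G : ZMod m → ZMod m → Bool → Prop}

theorem okB_sound (M : Mdl cls a b G) {ty : ZMod m → Ty} (hty : ∀ j, IsTy G cls j (ty j))
    {e g : ZMod m} {b' : Bool} (h : G e g b') : okB cls ty e g b' = true := by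
  have h1 : cls e = cls g := M.cls_eq e g b' h
  have h2 := hty e
  unfold okB
  rw [Bool.and_eq_true]
  refine ⟨by rw [h1]; exact beq_self_eq_true _, ?_⟩
  cases hte : ty e with
  | U => rfl
  | S => rfl
  | C =>
    rw [hte] at h2
    obtain ⟨h3, h4⟩ := h2.2 g b' h
    simp [h3, h4]
  | R =>
    rw [hte] at h2
    obtain ⟨h3, h4⟩ := h2.2 g b' h
    have h5 : e ≠ g := fun h6 => h3 h6.symm
    simp [h5, h4]
  | G =>
    rw [hte] at h2
    obtain ⟨h3, h4⟩ := h2.2 g b' h
    have h5 : e ≠ g := fun h6 => h3 h6.symm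
    simp [h5, h4]

private theorem Z2_sum_zmod (f : ℕ → ℤ) :
    ∑ i : ZMod m, f i.val = ((List.range m).map f).sum := by
  have h1 : ∀ n : ℕ, ∑ i ∈ Finset.range n, f i = ((List.range n).map f).sum := by
    intro n
    induction n with
    | zero => simp
    | succ n ih =>
      rw [Finset.sum_range_succ, ih, List.range_succ, List.map_append, List.sum_append]
      simp
  rw [← h1]
  obtain ⟨k, rfl⟩ := Nat.exists_eq_succ_of_ne_zero (NeZero.ne m)
  exact Fin.sum_univ_eq_sum_range f (k + 1)

private theorem Z2_mem_allC (c : ZMod m × Bool) : c ∈ allC m := by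
  unfold allC
  rw [List.mem_flatMap]
  refine ⟨c.1, ?_, ?_⟩
  · refine List.mem_flatMap.2 ⟨c.1.val, List.mem_range.2 (ZMod.val_lt c.1), ?_⟩
    rw [ZMod.natCast_zmod_val]
    exact List.mem_singleton.2 rfl
  · obtain ⟨x, _ | _⟩ := c
    · simp
    · simp

private theorem Z2_code_lt (c : ZMod m × Bool) : code c < 2 * m := by
  unfold code
  have h1 := ZMod.val_lt c.1
  have h2 : c.2.toNat ≤ 1 := Bool.toNat_le c.2
  omega

omit [NeZero m] in
private theorem Z2_code_div (c : ZMod m × Bool) : code c / 2 = c.1.val := by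
  unfold code
  have h2 : c.2.toNat ≤ 1 := Bool.toNat_le c.2
  omega

omit [NeZero m] in
private theorem Z2_aF (A : List (ℕ × ℕ × ℤ)) (x y : ZMod m × Bool) : aF A y x = -aF A x y := by
  unfold aF
  ring

omit [NeZero m] in
private theorem Z2_telescope (v : List ℤ) (A : List (ℕ × ℕ × ℤ)) (φ : List ℤ)
    (l : List (ZMod m × Bool)) (c d : ZMod m × Bool) :
    pcost (cost v A φ) c l d =
      pcost (stepCost (vF v) (aF A)) c l d + φ.getD (code c) 0 - φ.getD (code d) 0 := by
  induction l generalizing c with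
  | nil => rfl
  | cons x l ih =>
    change cost v A φ c x + pcost (cost v A φ) x l d =
      stepCost (vF v) (aF A) c x + pcost (stepCost (vF v) (aF A)) x l d + φ.getD (code c) 0 -
        φ.getD (code d) 0
    rw [ih x, cost]
    ring

private theorem Z2_step (M : Mdl cls a b G) {ty : ZMod m → Ty} (hty : ∀ j, IsTy G cls j (ty j))
    {v : List ℤ} {A : List (ℕ × ℕ × ℤ)} {φ : List ℤ} {L : ℕ} {tab : List (List (ℕ × ℕ))}
    (hs : ∀ c d : ZMod m × Bool, stepB cls ty v A φ L tab c d = true) {c d : ZMod m × Bool}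
    (hG : StepG G c d) : 0 ≤ cost v A φ c d ∧ (cost v A φ c d < L →
      ∃ t : ℕ, (code d, t) ∈ tab.getD (code c) [] ∧ (t : ℤ) ≤ cost v A φ c d) := by
  have h1 := hs c d
  have h2 : okB cls ty (exW c).1 (enW d).1 (c.2 == d.2) = true := okB_sound M hty hG
  unfold stepB at h1
  rw [h2, Bool.not_true, Bool.false_or, Bool.and_eq_true, Bool.or_eq_true, decide_eq_true_iff,
    decide_eq_true_iff, List.any_eq_true] at h1
  refine ⟨h1.1, fun h3 => ?_⟩
  rcases h1.2 with h4 | ⟨x, hx, h4⟩
  · exact absurd h3 (not_lt.2 h4)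
  · rw [Bool.and_eq_true, decide_eq_true_iff, beq_iff_eq] at h4
    refine ⟨x.2, ?_, h4.2⟩
    rw [← h4.1]
    exact hx

private theorem Z2_nonneg (M : Mdl cls a b G) {ty : ZMod m → Ty} (hty : ∀ j, IsTy G cls j (ty j))
    {v : List ℤ} {A : List (ℕ × ℕ × ℤ)} {φ : List ℤ} {L : ℕ} {tab : List (List (ℕ × ℕ))}
    (hs : ∀ c d : ZMod m × Bool, stepB cls ty v A φ L tab c d = true)
    (l : List (ZMod m × Bool)) (c d : ZMod m × Bool) (hP : Pth (StepG G) c l d) :
    0 ≤ pcost (cost v A φ) c l d := by
  induction l generalizing c with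
  | nil => exact (Z2_step M hty hs hP).1
  | cons x l ih =>
    have h1 := (Z2_step M hty hs hP.1).1
    have h2 := ih x hP.2
    change 0 ≤ cost v A φ c x + pcost (cost v A φ) x l d
    linarith

private theorem Z2_tpath (M : Mdl cls a b G) {ty : ZMod m → Ty} (hty : ∀ j, IsTy G cls j (ty j))
    {v : List ℤ} {A : List (ℕ × ℕ × ℤ)} {φ : List ℤ} {L : ℕ} {tab : List (List (ℕ × ℕ))}
    (hs : ∀ c d : ZMod m × Bool, stepB cls ty v A φ L tab c d = true)
    (l : List (ZMod m × Bool)) (c d : ZMod m × Bool) (hP : Pth (StepG G) c l d)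
    (hL : pcost (cost v A φ) c l d < L) :
    ∃ t : ℕ, TPath tab (code c) (l.map code) (code d) t ∧ (t : ℤ) ≤ pcost (cost v A φ) c l d := by
  induction l generalizing c with
  | nil =>
    obtain ⟨t, h1, h2⟩ := (Z2_step M hty hs hP).2 hL
    exact ⟨t, h1, h2⟩
  | cons x l ih =>
    have h1 := Z2_step M hty hs hP.1
    have h2 := Z2_nonneg M hty hs l x d hP.2
    have h3 : cost v A φ c x + pcost (cost v A φ) x l d < L := hL
    obtain ⟨t1, h4, h5⟩ := h1.2 (by linarith)
    obtain ⟨t2, h6, h7⟩ := ih x hP.2 (by linarith [h1.1])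
    refine ⟨t1 + t2, ⟨t1, t2, h4, h6, rfl⟩, ?_⟩
    change ((t1 + t2 : ℕ) : ℤ) ≤ cost v A φ c x + pcost (cost v A φ) x l d
    push_cast
    linarith

private theorem Z2_count (p : List (ZMod m × Bool)) (f : ZMod m → ℝ) :
    ∑ i : ZMod m, (((p.map code).countP fun x => x / 2 == i.val : ℕ) : ℝ) * f i =
      (p.map fun x => f x.1).sum := by
  induction p with
  | nil => simp
  | cons x p ih =>
    rw [List.map_cons, List.map_cons, List.sum_cons, ← ih]
    have h1 : ∀ i : ZMod m, (((code x :: p.map code).countP fun x => x / 2 == i.val : ℕ) : ℝ) * f i =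
        (if i = x.1 then f i else 0) +
          (((p.map code).countP fun x => x / 2 == i.val : ℕ) : ℝ) * f i := by
      intro i
      rw [List.countP_cons, Z2_code_div]
      by_cases h : i = x.1
      · rw [if_pos h, if_pos (by rw [h]; exact beq_self_eq_true _)]
        push_cast
        ring
      · rw [if_neg h, if_neg]
        · simp
        · rw [beq_iff_eq]
          intro h2
          exact h (ZMod.val_injective m h2).symm
    rw [Finset.sum_congr rfl fun i _ => h1 i, Finset.sum_add_distrib]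
    rw [Finset.sum_ite_eq' Finset.univ x.1 f, if_pos (Finset.mem_univ _)]

private theorem Z2_holds (p : List (ZMod m × Bool)) (f : ZMod m → ℝ)
    (h : (p.map fun x => f x.1).sum = 2) :
    Eqn.Holds ((cntv m (p.map code)).map fun x => (x : ℤ), 2) f := by
  unfold Eqn.Holds
  have h1 : ∀ i : ZMod m,
      (((((cntv m (p.map code)).map fun x => (x : ℤ)).getD i.val 0 : ℤ) : ℝ) * f i) =
        (((p.map code).countP fun x => x / 2 == i.val : ℕ) : ℝ) * f i := by
    intro i
    congr 1
    have h2 : i.val < m := ZMod.val_lt i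
    have h3 : ((cntv m (p.map code)).map fun x => (x : ℤ)).getD i.val 0 =
        (((p.map code).countP fun x => x / 2 == i.val : ℕ) : ℤ) := by
      have h5 : ((cntv m (p.map code)).map fun x => (x : ℤ)) =
          List.map (fun x : ℕ => (x : ℤ)) (cntv m (p.map code)) := by
        rw [List.map_eq_flatMap (f := fun x : ℕ => (x : ℤ))]
        exact List.map_id _
      rw [h5]
      unfold cntv
      rw [List.getD_eq_getElem?_getD, List.map_map, List.getElem?_map,
        List.getElem?_range h2]
      rfl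
    rw [h3]
    push_cast
    rfl
  rw [Finset.sum_congr rfl fun i _ => h1 i, Z2_count, h]
  push_cast
  rfl

theorem lp_sound (M : Mdl cls a b G) {ty : ZMod m → Ty} (hty : ∀ j, IsTy G cls j (ty j))
    {v : List ℤ} {A : List (ℕ × ℕ × ℤ)} {φ : List ℤ} {L fuel : ℕ} {tab : List (List (ℕ × ℕ))}
    {cvs : List (List ℕ)} (h : lpB cls ty v A φ L fuel tab cvs = true) :
    ∃ cv ∈ cvs, Eqn.Holds (cv.map fun x => (x : ℤ), 2) a ∧ Eqn.Holds (cv.map fun x => (x : ℤ), 2) b := by
  unfold lpB at h
  rw [Bool.and_eq_true, Bool.and_eq_true, decide_eq_true_iff, List.all_eq_true,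
    List.all_eq_true] at h
  obtain ⟨⟨h1, h2⟩, h3⟩ := h
  have hs : ∀ c d : ZMod m × Bool, stepB cls ty v A φ L tab c d = true := fun c d =>
    List.all_eq_true.1 (h2 c (Z2_mem_allC c)) d (Z2_mem_allC d)
  have h4 : 2 * ∑ i : ZMod m, vF v i < ((m : ℤ) - 2) * (L : ℤ) := by
    have h5 : ∑ i : ZMod m, vF v i = ((List.range m).map fun i => v.getD i 0).sum :=
      Z2_sum_zmod fun i => v.getD i 0
    rw [h5]
    exact h1
  obtain ⟨c, l, hcode, hP, hlen, ha, hb, hcost⟩ :=
    M.wp (vF v) (aF A) (Z2_aF A) (L : ℤ) h4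
  have h5 : pcost (cost v A φ) c l c < L := by
    rw [Z2_telescope]
    linarith
  obtain ⟨t, h6, h7⟩ := Z2_tpath M hty hs l c c hP h5
  have h8 := h3 (code c) (List.mem_range.2 (Z2_code_lt c))
  have h9 := dfs_sound fuel (code c) 0 [code c] h8 (l.map code) t h6
    (fun x hx => by
      obtain ⟨y, hy, rfl⟩ := List.mem_map.1 hx
      exact hcode y hy)
    (by
      have : (t : ℤ) < L := lt_of_le_of_lt h7 h5
      omega)
    (by
      rw [List.length_map, List.length_singleton]
      omega)
  have h10 : (l.map code).reverse ++ [code c] = (l.reverse ++ [c]).map code := by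
    rw [List.map_append, List.map_reverse]
    rfl
  rw [h10] at h9
  have hsum : ∀ f : ZMod m → ℝ, f c.1 + (l.map fun x => f x.1).sum = 2 →
      ((l.reverse ++ [c]).map fun x => f x.1).sum = 2 := by
    intro f hf
    rw [List.map_append, List.sum_append, List.map_reverse, List.sum_reverse, ← hf]
    simp [add_comm]
  exact ⟨_, h9, Z2_holds _ a (hsum a ha), Z2_holds _ b (hsum b hb)⟩

end Pool.Agent.Lib_MP_fa6e45
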