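import Pool.Agent.Lib_MP_fa6e45.ZA
import Pool.Agent.Lib_MP_fa6e45.ZW
import Pool.Agent.Lib_MP_fa6e45.ZC3
import Pool.Agent.Lib_MP_fa6e45.ZC4
import Pool.Agent.Lib_MP_fa6e45.ZC5
import Pool.Agent.Lib_MP_fa6e45.ZC6
import Pool.Agent.Lib_MP_fa6e45.Z4
import Pool.Agent.Lib_MP_fa6e45.W1
import Pool.Agent.Lib_MP_fa6e45.W2
import Pool.Agent.Lib_MP_fa6e45.W3
import Pool.Agent.Lib_MP_fa6e45.Y4
import Pool.Agent.Lib_MP_fa6e45.V9

/-!
The main theorem of stage 2b-H (assembly, captain).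
-/

open Set MeasureTheory Complex
open scoped Topology

namespace Pool.Agent.Lib_MP_fa6e45

open Pool.Agent.Lib_PL (cr InSector Poly)

variable {n : ℕ} {P : Polygon n} {ι : Type}

/-- the classes of arcs: equal or related -/
private theorem ZF_rel (hl : P.NoThreeEqual) {m : ℕ} [NeZero m] (S : Arcs P m) :
    (∀ i : ZMod m, i = i ∨ ∃ b, S.Rel i i b) ∧
    (∀ i j : ZMod m, (i = j ∨ ∃ b, S.Rel i j b) → (j = i ∨ ∃ b, S.Rel j i b)) ∧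
    (∀ i j k : ZMod m, (i = j ∨ ∃ b, S.Rel i j b) → (j = k ∨ ∃ b, S.Rel j k b) →
      (i = k ∨ ∃ b, S.Rel i k b)) ∧
    (∀ i j k : ZMod m, i ≠ j → j ≠ k → i ≠ k →
      ¬ ((i = j ∨ ∃ b, S.Rel i j b) ∧ (j = k ∨ ∃ b, S.Rel j k b))) := by
  have h4 : ∀ i j k : ZMod m, i ≠ j → j ≠ k → i ≠ k →
      ¬ ((i = j ∨ ∃ b, S.Rel i j b) ∧ (j = k ∨ ∃ b, S.Rel j k b)) := by
    rintro i j k hij hjk hik ⟨h1 | ⟨b, h1⟩, h2 | ⟨b', h2⟩⟩
    · exact hij h1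
    · exact hij h1
    · exact hjk h2
    · exact hik (S.rel_unique hl (S.rel_symm h1) h2 hij hjk.symm)
  refine ⟨fun i => Or.inl rfl, ?_, ?_, h4⟩
  · rintro i j (h | ⟨b, h⟩)
    · exact Or.inl h.symm
    · exact Or.inr ⟨b, S.rel_symm h⟩
  · intro i j k h1 h2
    by_cases hij : i = j
    · subst hij
      exact h2
    by_cases hjk : j = k
    · subst hjk
      exact h1
    by_cases hik : i = k
    · exact Or.inl hik
    · exact (h4 i j k hij hjk hik ⟨h1, h2⟩).elim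

private theorem ZF_shift {m : ℕ} [NeZero m] (S : Arcs P m)
    (K : CombG m (fun j => P.ang (S.κ j)) S.Rel ι) (p : ZMod m) :
    Nonempty (CombG m (fun j => P.ang ((S.shift p).κ j)) (S.shift p).Rel ι) :=
  K.shift p

theorem fin3 (hc : P.CCW) (hl : P.NoThreeEqual) (S : Arcs P 3)
    (K : CombG 3 (fun j => P.ang (S.κ j)) S.Rel ι) : HasPeriodic P := by
  obtain ⟨h1, h2, h3, h4⟩ := ZF_rel hl S
  obtain ⟨k, q, hq⟩ := wlogC3 _ h1 h2 h3 h4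
  obtain ⟨K'⟩ := ZF_shift S K k
  have hcls : ∀ i j, (i = j ∨ ∃ b, (S.shift k).Rel i j b) ↔ canC3 q i = canC3 q j := by
    intro i j
    rw [← hq i j]
    exact or_congr (add_left_inj k).symm Iff.rfl
  obtain ⟨b, hb, M⟩ := mdl_of hl (S.shift k) K' (canC3 q) hcls
  exact app3 hc (S.shift k) b hb (check M sch3 (tr3 q) (ok3 q))

theorem fin4 (hc : P.CCW) (hl : P.NoThreeEqual) (S : Arcs P 4)
    (K : CombG 4 (fun j => P.ang (S.κ j)) S.Rel ι) : HasPeriodic P := by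
  obtain ⟨h1, h2, h3, h4⟩ := ZF_rel hl S
  obtain ⟨k, q, hq⟩ := wlogC4 _ h1 h2 h3 h4
  obtain ⟨K'⟩ := ZF_shift S K k
  have hcls : ∀ i j, (i = j ∨ ∃ b, (S.shift k).Rel i j b) ↔ canC4 q i = canC4 q j := by
    intro i j
    rw [← hq i j]
    exact or_congr (add_left_inj k).symm Iff.rfl
  obtain ⟨b, hb, M⟩ := mdl_of hl (S.shift k) K' (canC4 q) hcls
  exact app4 hc (S.shift k) b hb (check M sch4 (tr4 q) (ok4 q))

theorem fin5 (hc : P.CCW) (hl : P.NoThreeEqual) (S : Arcs P 5)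
    (K : CombG 5 (fun j => P.ang (S.κ j)) S.Rel ι) : HasPeriodic P := by
  obtain ⟨h1, h2, h3, h4⟩ := ZF_rel hl S
  obtain ⟨k, q, hq⟩ := wlogC5 _ h1 h2 h3 h4
  obtain ⟨K'⟩ := ZF_shift S K k
  have hcls : ∀ i j, (i = j ∨ ∃ b, (S.shift k).Rel i j b) ↔ canC5 q i = canC5 q j := by
    intro i j
    rw [← hq i j]
    exact or_congr (add_left_inj k).symm Iff.rfl
  obtain ⟨b, hb, M⟩ := mdl_of hl (S.shift k) K' (canC5 q) hcls
  exact app5 hc (S.shift k) b hb (check M sch5 (tr5 q) (ok5 q))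

theorem fin6 (hc : P.CCW) (hl : P.NoThreeEqual) (S : Arcs P 6)
    (K : CombG 6 (fun j => P.ang (S.κ j)) S.Rel ι) : HasPeriodic P := by
  obtain ⟨h1, h2, h3, h4⟩ := ZF_rel hl S
  obtain ⟨k, q, hq⟩ := wlogC6 _ h1 h2 h3 h4
  obtain ⟨K'⟩ := ZF_shift S K k
  have hcls : ∀ i j, (i = j ∨ ∃ b, (S.shift k).Rel i j b) ↔ canC6 q i = canC6 q j := by
    intro i j
    rw [← hq i j]
    exact or_congr (add_left_inj k).symm Iff.rfl
  obtain ⟨b, hb, M⟩ := mdl_of hl (S.shift k) K' (canC6 q) hcls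
  exact app6 hc (S.shift k) b hb (check M sch6 (tr6 q) (ok6 q))

/-- corners of degree two in all tiles or in none -/
theorem hom_periodic [NeZero n] (hc : P.CCW) (hl : P.NoThreeEqual) (K : CombA n P.ang P.len ι)
    (hH : K.toComb.Hom) : HasPeriodic P := by
  obtain ⟨m, hm, S, hm3, ⟨K'⟩⟩ := reduce K hH
  have h6 := K'.le_six
  have h7 : m = 3 ∨ m = 4 ∨ m = 5 ∨ m = 6 := by omega
  rcases h7 with rfl | rfl | rfl | rfl
  · exact fin3 hc hl S K'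
  · exact fin4 hc hl S K'
  · exact fin5 hc hl S K'
  · exact fin6 hc hl S K'

theorem main4_ccw (P : Polygon n) (hc : P.CCW) {𝒮 : Set (Set ℂ)} (h : P.IsTiling 𝒮)
    (he : P.EdgeToEdge 𝒮) (g : Set ℂ → ℂ ≃ᵢ ℂ) (hg : ∀ t ∈ 𝒮, t = g t '' P.region)
    (hu : ∀ i : ZMod n, ∀ s ∈ 𝒮, ∀ t ∈ 𝒮, ThreeAt 𝒮 (g s (P.vertex i)) →
      ThreeAt 𝒮 (g t (P.vertex i))) (hl : P.NoThreeEqual) :
    ∃ 𝒯 : Set (Set ℂ), P.IsTiling 𝒯 ∧ Periodic 𝒯 := by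
  haveI : NeZero n := ⟨by have := P.three_le; omega⟩
  obtain ⟨T, hT⟩ := uniform_til P hc h he g hg hu
  obtain ⟨K, hK⟩ := T.combA hc
  refine hom_periodic hc hl K ?_
  rintro i ⟨s, hs⟩ t
  rw [hK] at hs ⊢
  exact hT s t i hs

theorem main4 (P : Polygon n) {𝒮 : Set (Set ℂ)} (h : P.IsTiling 𝒮)
    (he : P.EdgeToEdge 𝒮) (g : Set ℂ → ℂ ≃ᵢ ℂ) (hg : ∀ t ∈ 𝒮, t = g t '' P.region)
    (hu : ∀ i : ZMod n, ∀ s ∈ 𝒮, ∀ t ∈ 𝒮, ThreeAt 𝒮 (g s (P.vertex i)) →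
      ThreeAt 𝒮 (g t (P.vertex i))) (hl : P.NoThreeEqual) :
    ∃ 𝒯 : Set (Set ℂ), P.IsTiling 𝒯 ∧ Periodic 𝒯 := by
  rcases P.ccw_or with hc | hc
  · exact main4_ccw P hc h he g hg hu hl
  have hT : ∀ 𝒯 : Set (Set ℂ), P.rev.IsTiling 𝒯 ↔ P.IsTiling 𝒯 := by
    intro 𝒯
    constructor
    · rintro ⟨h1, h2, h3⟩
      exact ⟨fun t ht => by simpa only [P.rev_region] using h1 t ht, h2, h3⟩
    · rintro ⟨h1, h2, h3⟩
      exact ⟨fun t ht => by simpa only [P.rev_region] using h1 t ht, h2, h3⟩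
  have hE : P.rev.EdgeToEdge 𝒮 := by
    intro g k hg hk i j
    rw [P.rev_region] at hg hk
    have h1 := he g k hg hk (-i) (-j - 1)
    rw [openSegment_symm] at h1
    have e1 : -j - 1 + 1 = -j := by ring
    have e2 : -(j + 1) = -j - 1 := by ring
    rw [e1] at h1
    change g (P.vertex (-i)) ∉ openSegment ℝ (k (P.vertex (-j))) (k (P.vertex (-(j + 1))))
    rw [e2]
    exact h1
  have hg' : ∀ t ∈ 𝒮, t = g t '' P.rev.region := by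
    intro t ht
    rw [P.rev_region]
    exact hg t ht
  have hu' : ∀ i : ZMod n, ∀ s ∈ 𝒮, ∀ t ∈ 𝒮, ThreeAt 𝒮 (g s (P.rev.vertex i)) →
      ThreeAt 𝒮 (g t (P.rev.vertex i)) := fun i s hs t ht => hu (-i) s hs t ht
  obtain ⟨𝒯, h1, h2⟩ := main4_ccw P.rev hc ((hT 𝒮).2 h) hE g hg' hu' (P.rev_noThree hl)
  exact ⟨𝒯, (hT 𝒯).1 h1, h2⟩

end Pool.Agent.Lib_MP_fa6e45
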