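import Pool.Agent.Lib_MP_fa6e45.G0

/-!
MP_fa6e45_co, stage 3: the tables of the canonical patterns of classes and active pairs (captain, generated).
-/

namespace Pool.Agent.Lib_MP_fa6e45

/-- no schemes -/
def schN (_ : ℕ) : Sch := ⟨[], [([], 1)]⟩

/-- the patterns for `5` marks: classes of the arcs and active pairs -/
def patS5 : List (List ℕ × List (ℕ × ℕ)) :=
  [([0, 0, 1, 2, 1], [(0, 2)]),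
    ([0, 1, 0, 1, 2], [(1, 2)]),
    ([0, 1, 0, 1, 2], [(1, 2), (1, 3)]),
    ([0, 1, 0, 1, 2], [(1, 2), (2, 3)]),
    ([0, 1, 0, 1, 2], [(1, 3)]),
    ([0, 1, 0, 1, 2], [(1, 3), (2, 3)]),
    ([0, 1, 0, 1, 2], [(2, 3)])]

/-- classes of pattern `q` -/
def canS5 (q : Fin 7) (i : ZMod 5) : ℕ := (patS5.getD q.val ([], [])).1.getD i.val 0

/-- active pairs of pattern `q` -/
def actS5 (q : Fin 7) : List (ℕ × ℕ) := (patS5.getD q.val ([], [])).2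

/-- the patterns for `6` marks: classes of the arcs and active pairs -/
def patS6 : List (List ℕ × List (ℕ × ℕ)) :=
  [([0, 0, 1, 2, 1, 2], [(3, 4)]),
    ([0, 0, 1, 2, 1, 2], [(3, 4), (3, 5)]),
    ([0, 0, 1, 2, 1, 2], [(3, 4), (4, 5)]),
    ([0, 0, 1, 2, 1, 2], [(3, 5)]),
    ([0, 0, 1, 2, 1, 2], [(3, 5), (4, 5)]),
    ([0, 0, 1, 2, 1, 2], [(4, 5)]),
    ([0, 0, 1, 2, 2, 1], [(0, 2)]),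
    ([0, 0, 1, 2, 3, 1], [(0, 2)]),
    ([0, 1, 0, 1, 2, 3], [(1, 2)]),
    ([0, 1, 0, 1, 2, 3], [(1, 2), (1, 3)]),
    ([0, 1, 0, 1, 2, 3], [(1, 2), (2, 3)]),
    ([0, 1, 0, 1, 2, 3], [(1, 3)]),
    ([0, 1, 0, 1, 2, 3], [(1, 3), (2, 3)]),
    ([0, 1, 0, 1, 2, 3], [(2, 3)]),
    ([0, 1, 0, 2, 1, 2], [(0, 3)]),
    ([0, 1, 0, 2, 1, 2], [(1, 2)]),
    ([0, 1, 0, 2, 1, 3], [(1, 2)]),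
    ([0, 1, 0, 2, 3, 2], [(0, 3)]),
    ([0, 1, 2, 0, 1, 2], [(0, 3)]),
    ([0, 1, 2, 0, 1, 3], [(1, 4)])]

/-- classes of pattern `q` -/
def canS6 (q : Fin 20) (i : ZMod 6) : ℕ := (patS6.getD q.val ([], [])).1.getD i.val 0

/-- active pairs of pattern `q` -/
def actS6 (q : Fin 20) : List (ℕ × ℕ) := (patS6.getD q.val ([], [])).2

/-- the patterns for `7` marks: classes of the arcs and active pairs -/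
def patS7 : List (List ℕ × List (ℕ × ℕ)) :=
  [([0, 0, 1, 2, 1, 2, 3], [(3, 4)]),
    ([0, 0, 1, 2, 1, 2, 3], [(3, 4), (3, 5)]),
    ([0, 0, 1, 2, 1, 2, 3], [(3, 4), (4, 5)]),
    ([0, 0, 1, 2, 1, 2, 3], [(3, 5)]),
    ([0, 0, 1, 2, 1, 2, 3], [(3, 5), (4, 5)]),
    ([0, 0, 1, 2, 1, 2, 3], [(4, 5)]),
    ([0, 0, 1, 2, 1, 3, 2], [(3, 4)]),
    ([0, 0, 1, 2, 2, 1, 3], [(3, 5)]),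
    ([0, 0, 1, 2, 2, 3, 1], [(0, 2)]),
    ([0, 0, 1, 2, 3, 1, 2], [(3, 6)]),
    ([0, 0, 1, 2, 3, 1, 3], [(5, 6)]),
    ([0, 0, 1, 2, 3, 2, 1], [(0, 2)]),
    ([0, 0, 1, 2, 3, 2, 1], [(3, 6)]),
    ([0, 0, 1, 2, 3, 2, 3], [(4, 5)]),
    ([0, 0, 1, 2, 3, 2, 3], [(4, 5), (4, 6)]),
    ([0, 0, 1, 2, 3, 2, 3], [(4, 5), (5, 6)]),
    ([0, 0, 1, 2, 3, 2, 3], [(4, 6)]),
    ([0, 0, 1, 2, 3, 2, 3], [(4, 6), (5, 6)]),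
    ([0, 0, 1, 2, 3, 2, 3], [(5, 6)]),
    ([0, 0, 1, 2, 3, 4, 1], [(0, 2)]),
    ([0, 1, 0, 1, 2, 3, 2], [(1, 2)]),
    ([0, 1, 0, 1, 2, 3, 2], [(1, 2), (1, 3)]),
    ([0, 1, 0, 1, 2, 3, 2], [(1, 2), (2, 3)]),
    ([0, 1, 0, 1, 2, 3, 2], [(1, 3)]),
    ([0, 1, 0, 1, 2, 3, 2], [(1, 3), (2, 3)]),
    ([0, 1, 0, 1, 2, 3, 2], [(2, 3)]),
    ([0, 1, 0, 1, 2, 3, 4], [(1, 2)]),
    ([0, 1, 0, 1, 2, 3, 4], [(1, 2), (1, 3)]),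
    ([0, 1, 0, 1, 2, 3, 4], [(1, 2), (2, 3)]),
    ([0, 1, 0, 1, 2, 3, 4], [(1, 3)]),
    ([0, 1, 0, 1, 2, 3, 4], [(1, 3), (2, 3)]),
    ([0, 1, 0, 1, 2, 3, 4], [(2, 3)]),
    ([0, 1, 0, 2, 1, 2, 3], [(1, 2)]),
    ([0, 1, 0, 2, 1, 2, 3], [(4, 5)]),
    ([0, 1, 0, 2, 1, 3, 2], [(0, 3)]),
    ([0, 1, 0, 2, 1, 3, 2], [(1, 2)]),
    ([0, 1, 0, 2, 1, 3, 4], [(1, 2)]),
    ([0, 1, 0, 2, 3, 1, 2], [(0, 3)]),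
    ([0, 1, 0, 2, 3, 1, 2], [(1, 2)]),
    ([0, 1, 0, 2, 3, 1, 4], [(1, 2)]),
    ([0, 1, 0, 2, 3, 4, 2], [(0, 3)]),
    ([0, 1, 2, 0, 1, 2, 3], [(1, 4)]),
    ([0, 1, 2, 0, 1, 2, 3], [(2, 5)]),
    ([0, 1, 2, 0, 1, 3, 4], [(1, 4)])]

/-- classes of pattern `q` -/
def canS7 (q : Fin 44) (i : ZMod 7) : ℕ := (patS7.getD q.val ([], [])).1.getD i.val 0

/-- active pairs of pattern `q` -/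
def actS7 (q : Fin 44) : List (ℕ × ℕ) := (patS7.getD q.val ([], [])).2

/-- the patterns for `8` marks: classes of the arcs and active pairs -/
def patS8 : List (List ℕ × List (ℕ × ℕ)) :=
  [([0, 0, 1, 1, 2, 3, 2, 3], [(5, 6), (5, 7)]),
    ([0, 0, 1, 1, 2, 3, 2, 3], [(5, 6), (6, 7)]),
    ([0, 0, 1, 1, 2, 3, 2, 3], [(5, 7), (6, 7)]),
    ([0, 0, 1, 2, 1, 2, 3, 4], [(3, 4), (3, 5)]),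
    ([0, 0, 1, 2, 1, 2, 3, 4], [(3, 4), (4, 5)]),
    ([0, 0, 1, 2, 1, 2, 3, 4], [(3, 5), (4, 5)]),
    ([0, 0, 1, 2, 3, 2, 3, 1], [(0, 2), (4, 5)]),
    ([0, 0, 1, 2, 3, 2, 3, 1], [(0, 2), (4, 5), (4, 6)]),
    ([0, 0, 1, 2, 3, 2, 3, 1], [(0, 2), (4, 5), (5, 6)]),
    ([0, 0, 1, 2, 3, 2, 3, 1], [(0, 2), (4, 6)]),
    ([0, 0, 1, 2, 3, 2, 3, 1], [(0, 2), (4, 6), (5, 6)]),
    ([0, 0, 1, 2, 3, 2, 3, 1], [(0, 2), (5, 6)]),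
    ([0, 0, 1, 2, 3, 2, 3, 1], [(4, 5), (4, 6)]),
    ([0, 0, 1, 2, 3, 2, 3, 1], [(4, 5), (5, 6)]),
    ([0, 0, 1, 2, 3, 2, 3, 1], [(4, 6), (5, 6)]),
    ([0, 0, 1, 2, 3, 2, 3, 4], [(4, 5), (4, 6)]),
    ([0, 0, 1, 2, 3, 2, 3, 4], [(4, 5), (5, 6)]),
    ([0, 0, 1, 2, 3, 2, 3, 4], [(4, 6), (5, 6)]),
    ([0, 0, 1, 2, 3, 3, 2, 1], [(0, 2), (4, 6)]),
    ([0, 0, 1, 2, 3, 4, 3, 4], [(5, 6), (5, 7)]),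
    ([0, 0, 1, 2, 3, 4, 3, 4], [(5, 6), (6, 7)]),
    ([0, 0, 1, 2, 3, 4, 3, 4], [(5, 7), (6, 7)]),
    ([0, 1, 0, 1, 2, 3, 2, 3], [(1, 2), (1, 3)]),
    ([0, 1, 0, 1, 2, 3, 2, 3], [(1, 2), (1, 3), (5, 6)]),
    ([0, 1, 0, 1, 2, 3, 2, 3], [(1, 2), (1, 3), (5, 6), (5, 7)]),
    ([0, 1, 0, 1, 2, 3, 2, 3], [(1, 2), (1, 3), (5, 6), (6, 7)]),
    ([0, 1, 0, 1, 2, 3, 2, 3], [(1, 2), (1, 3), (5, 7)]),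
    ([0, 1, 0, 1, 2, 3, 2, 3], [(1, 2), (1, 3), (5, 7), (6, 7)]),
    ([0, 1, 0, 1, 2, 3, 2, 3], [(1, 2), (1, 3), (6, 7)]),
    ([0, 1, 0, 1, 2, 3, 2, 3], [(1, 2), (2, 3)]),
    ([0, 1, 0, 1, 2, 3, 2, 3], [(1, 2), (2, 3), (5, 6)]),
    ([0, 1, 0, 1, 2, 3, 2, 3], [(1, 2), (2, 3), (5, 6), (6, 7)]),
    ([0, 1, 0, 1, 2, 3, 2, 3], [(1, 2), (2, 3), (5, 7)]),
    ([0, 1, 0, 1, 2, 3, 2, 3], [(1, 2), (2, 3), (5, 7), (6, 7)]),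
    ([0, 1, 0, 1, 2, 3, 2, 3], [(1, 2), (2, 3), (6, 7)]),
    ([0, 1, 0, 1, 2, 3, 2, 3], [(1, 2), (5, 6)]),
    ([0, 1, 0, 1, 2, 3, 2, 3], [(1, 2), (5, 7)]),
    ([0, 1, 0, 1, 2, 3, 2, 3], [(1, 2), (5, 7), (6, 7)]),
    ([0, 1, 0, 1, 2, 3, 2, 3], [(1, 2), (6, 7)]),
    ([0, 1, 0, 1, 2, 3, 2, 3], [(1, 3), (2, 3)]),
    ([0, 1, 0, 1, 2, 3, 2, 3], [(1, 3), (2, 3), (5, 7)]),
    ([0, 1, 0, 1, 2, 3, 2, 3], [(1, 3), (2, 3), (5, 7), (6, 7)]),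
    ([0, 1, 0, 1, 2, 3, 2, 3], [(1, 3), (2, 3), (6, 7)]),
    ([0, 1, 0, 1, 2, 3, 2, 3], [(1, 3), (5, 7)]),
    ([0, 1, 0, 1, 2, 3, 2, 3], [(1, 3), (6, 7)]),
    ([0, 1, 0, 1, 2, 3, 2, 3], [(2, 3), (6, 7)]),
    ([0, 1, 0, 1, 2, 3, 2, 4], [(1, 2), (1, 3)]),
    ([0, 1, 0, 1, 2, 3, 2, 4], [(1, 2), (2, 3)]),
    ([0, 1, 0, 1, 2, 3, 2, 4], [(1, 3), (2, 3)]),
    ([0, 1, 0, 1, 2, 3, 4, 2], [(1, 2), (1, 3)]),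
    ([0, 1, 0, 1, 2, 3, 4, 2], [(1, 2), (2, 3)]),
    ([0, 1, 0, 1, 2, 3, 4, 2], [(1, 3), (2, 3)]),
    ([0, 1, 0, 1, 2, 3, 4, 3], [(1, 2), (1, 3)]),
    ([0, 1, 0, 1, 2, 3, 4, 3], [(1, 2), (2, 3)]),
    ([0, 1, 0, 1, 2, 3, 4, 3], [(1, 3), (2, 3)]),
    ([0, 1, 0, 1, 2, 3, 4, 5], [(1, 2), (1, 3)]),
    ([0, 1, 0, 1, 2, 3, 4, 5], [(1, 2), (2, 3)]),
    ([0, 1, 0, 1, 2, 3, 4, 5], [(1, 3), (2, 3)]),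
    ([0, 1, 0, 2, 1, 3, 2, 3], [(1, 2), (6, 7)]),
    ([0, 1, 0, 2, 3, 1, 2, 3], [(1, 2), (4, 7)]),
    ([0, 1, 0, 2, 3, 1, 3, 2], [(0, 3), (5, 6)]),
    ([0, 1, 2, 0, 3, 1, 2, 3], [(0, 4), (2, 6)]),
    ([0, 1, 2, 0, 3, 2, 1, 3], [(0, 4), (2, 6)]),
    ([0, 1, 2, 3, 0, 1, 2, 3], [(0, 4), (2, 6)])]

/-- classes of pattern `q` -/
def canS8 (q : Fin 64) (i : ZMod 8) : ℕ := (patS8.getD q.val ([], [])).1.getD i.val 0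

/-- active pairs of pattern `q` -/
def actS8 (q : Fin 64) : List (ℕ × ℕ) := (patS8.getD q.val ([], [])).2

/-- the patterns for `9` marks: classes of the arcs and active pairs -/
def patS9 : List (List ℕ × List (ℕ × ℕ)) :=
  [([0, 0, 1, 2, 3, 2, 3, 4, 1], [(0, 2), (4, 5)]),
    ([0, 0, 1, 2, 3, 2, 3, 4, 1], [(0, 2), (4, 5), (4, 6)]),
    ([0, 0, 1, 2, 3, 2, 3, 4, 1], [(0, 2), (4, 5), (5, 6)]),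
    ([0, 0, 1, 2, 3, 2, 3, 4, 1], [(0, 2), (4, 6)]),
    ([0, 0, 1, 2, 3, 2, 3, 4, 1], [(0, 2), (4, 6), (5, 6)]),
    ([0, 0, 1, 2, 3, 2, 3, 4, 1], [(0, 2), (5, 6)]),
    ([0, 0, 1, 2, 3, 2, 4, 3, 1], [(0, 2), (4, 5)]),
    ([0, 0, 1, 2, 3, 3, 2, 4, 1], [(0, 2), (4, 6)]),
    ([0, 0, 1, 2, 3, 4, 2, 3, 1], [(0, 2), (4, 7)]),
    ([0, 0, 1, 2, 3, 4, 2, 4, 1], [(0, 2), (6, 7)]),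
    ([0, 0, 1, 2, 3, 4, 3, 2, 1], [(0, 2), (4, 7)]),
    ([0, 0, 1, 2, 3, 4, 3, 4, 1], [(0, 2), (5, 6)]),
    ([0, 0, 1, 2, 3, 4, 3, 4, 1], [(0, 2), (5, 6), (5, 7)]),
    ([0, 0, 1, 2, 3, 4, 3, 4, 1], [(0, 2), (5, 6), (6, 7)]),
    ([0, 0, 1, 2, 3, 4, 3, 4, 1], [(0, 2), (5, 7)]),
    ([0, 0, 1, 2, 3, 4, 3, 4, 1], [(0, 2), (5, 7), (6, 7)]),
    ([0, 0, 1, 2, 3, 4, 3, 4, 1], [(0, 2), (6, 7)]),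
    ([0, 1, 0, 1, 2, 3, 2, 3, 4], [(1, 2), (1, 3), (5, 6)]),
    ([0, 1, 0, 1, 2, 3, 2, 3, 4], [(1, 2), (1, 3), (5, 6), (5, 7)]),
    ([0, 1, 0, 1, 2, 3, 2, 3, 4], [(1, 2), (1, 3), (5, 6), (6, 7)]),
    ([0, 1, 0, 1, 2, 3, 2, 3, 4], [(1, 2), (1, 3), (5, 7)]),
    ([0, 1, 0, 1, 2, 3, 2, 3, 4], [(1, 2), (1, 3), (5, 7), (6, 7)]),
    ([0, 1, 0, 1, 2, 3, 2, 3, 4], [(1, 2), (1, 3), (6, 7)]),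
    ([0, 1, 0, 1, 2, 3, 2, 3, 4], [(1, 2), (2, 3), (5, 6)]),
    ([0, 1, 0, 1, 2, 3, 2, 3, 4], [(1, 2), (2, 3), (5, 6), (5, 7)]),
    ([0, 1, 0, 1, 2, 3, 2, 3, 4], [(1, 2), (2, 3), (5, 6), (6, 7)]),
    ([0, 1, 0, 1, 2, 3, 2, 3, 4], [(1, 2), (2, 3), (5, 7)]),
    ([0, 1, 0, 1, 2, 3, 2, 3, 4], [(1, 2), (2, 3), (5, 7), (6, 7)]),
    ([0, 1, 0, 1, 2, 3, 2, 3, 4], [(1, 2), (2, 3), (6, 7)]),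
    ([0, 1, 0, 1, 2, 3, 2, 3, 4], [(1, 2), (5, 6)]),
    ([0, 1, 0, 1, 2, 3, 2, 3, 4], [(1, 2), (5, 6), (5, 7)]),
    ([0, 1, 0, 1, 2, 3, 2, 3, 4], [(1, 2), (5, 6), (6, 7)]),
    ([0, 1, 0, 1, 2, 3, 2, 3, 4], [(1, 2), (5, 7)]),
    ([0, 1, 0, 1, 2, 3, 2, 3, 4], [(1, 2), (5, 7), (6, 7)]),
    ([0, 1, 0, 1, 2, 3, 2, 3, 4], [(1, 2), (6, 7)]),
    ([0, 1, 0, 1, 2, 3, 2, 3, 4], [(1, 3), (2, 3), (5, 6)]),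
    ([0, 1, 0, 1, 2, 3, 2, 3, 4], [(1, 3), (2, 3), (5, 6), (5, 7)]),
    ([0, 1, 0, 1, 2, 3, 2, 3, 4], [(1, 3), (2, 3), (5, 6), (6, 7)]),
    ([0, 1, 0, 1, 2, 3, 2, 3, 4], [(1, 3), (2, 3), (5, 7)]),
    ([0, 1, 0, 1, 2, 3, 2, 3, 4], [(1, 3), (2, 3), (5, 7), (6, 7)]),
    ([0, 1, 0, 1, 2, 3, 2, 3, 4], [(1, 3), (2, 3), (6, 7)]),
    ([0, 1, 0, 1, 2, 3, 2, 3, 4], [(1, 3), (5, 6)]),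
    ([0, 1, 0, 1, 2, 3, 2, 3, 4], [(1, 3), (5, 6), (5, 7)]),
    ([0, 1, 0, 1, 2, 3, 2, 3, 4], [(1, 3), (5, 6), (6, 7)]),
    ([0, 1, 0, 1, 2, 3, 2, 3, 4], [(1, 3), (5, 7)]),
    ([0, 1, 0, 1, 2, 3, 2, 3, 4], [(1, 3), (5, 7), (6, 7)]),
    ([0, 1, 0, 1, 2, 3, 2, 3, 4], [(1, 3), (6, 7)]),
    ([0, 1, 0, 1, 2, 3, 2, 3, 4], [(2, 3), (5, 6)]),
    ([0, 1, 0, 1, 2, 3, 2, 3, 4], [(2, 3), (5, 6), (5, 7)]),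
    ([0, 1, 0, 1, 2, 3, 2, 3, 4], [(2, 3), (5, 6), (6, 7)]),
    ([0, 1, 0, 1, 2, 3, 2, 3, 4], [(2, 3), (5, 7)]),
    ([0, 1, 0, 1, 2, 3, 2, 3, 4], [(2, 3), (5, 7), (6, 7)]),
    ([0, 1, 0, 1, 2, 3, 2, 3, 4], [(2, 3), (6, 7)]),
    ([0, 1, 0, 1, 2, 3, 2, 4, 3], [(1, 2), (1, 3), (5, 6)]),
    ([0, 1, 0, 1, 2, 3, 2, 4, 3], [(1, 2), (2, 3), (5, 6)]),
    ([0, 1, 0, 1, 2, 3, 2, 4, 3], [(1, 2), (5, 6)]),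
    ([0, 1, 0, 1, 2, 3, 2, 4, 3], [(1, 3), (2, 3), (5, 6)]),
    ([0, 1, 0, 1, 2, 3, 2, 4, 3], [(1, 3), (5, 6)]),
    ([0, 1, 0, 1, 2, 3, 2, 4, 3], [(2, 3), (5, 6)]),
    ([0, 1, 0, 1, 2, 3, 4, 2, 3], [(1, 2), (1, 3), (5, 8)]),
    ([0, 1, 0, 1, 2, 3, 4, 2, 3], [(1, 2), (2, 3), (5, 8)]),
    ([0, 1, 0, 1, 2, 3, 4, 2, 3], [(1, 2), (5, 8)]),
    ([0, 1, 0, 1, 2, 3, 4, 2, 3], [(1, 3), (2, 3), (5, 8)]),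
    ([0, 1, 0, 1, 2, 3, 4, 2, 3], [(1, 3), (5, 8)]),
    ([0, 1, 0, 1, 2, 3, 4, 2, 3], [(2, 3), (5, 8)]),
    ([0, 1, 0, 1, 2, 3, 4, 2, 4], [(1, 2), (1, 3), (7, 8)]),
    ([0, 1, 0, 1, 2, 3, 4, 2, 4], [(1, 2), (2, 3), (7, 8)]),
    ([0, 1, 0, 1, 2, 3, 4, 2, 4], [(1, 2), (7, 8)]),
    ([0, 1, 0, 1, 2, 3, 4, 2, 4], [(1, 3), (2, 3), (7, 8)]),
    ([0, 1, 0, 1, 2, 3, 4, 2, 4], [(1, 3), (7, 8)]),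
    ([0, 1, 0, 1, 2, 3, 4, 2, 4], [(2, 3), (7, 8)]),
    ([0, 1, 0, 1, 2, 3, 4, 3, 2], [(1, 2), (1, 3), (5, 8)]),
    ([0, 1, 0, 1, 2, 3, 4, 3, 2], [(1, 2), (2, 3), (5, 8)]),
    ([0, 1, 0, 1, 2, 3, 4, 3, 2], [(1, 2), (5, 8)]),
    ([0, 1, 0, 1, 2, 3, 4, 3, 2], [(1, 3), (2, 3), (5, 8)]),
    ([0, 1, 0, 1, 2, 3, 4, 3, 2], [(1, 3), (5, 8)]),
    ([0, 1, 0, 1, 2, 3, 4, 3, 2], [(2, 3), (5, 8)]),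
    ([0, 1, 0, 2, 1, 3, 2, 3, 4], [(1, 2), (6, 7)]),
    ([0, 1, 0, 2, 1, 3, 4, 2, 4], [(1, 2), (7, 8)]),
    ([0, 1, 0, 2, 3, 1, 2, 3, 4], [(1, 2), (4, 7)]),
    ([0, 1, 0, 2, 3, 1, 3, 2, 4], [(1, 2), (4, 7)]),
    ([0, 1, 0, 2, 3, 1, 3, 4, 2], [(0, 3), (5, 6)]),
    ([0, 1, 0, 2, 3, 1, 4, 2, 3], [(1, 2), (4, 8)]),
    ([0, 1, 0, 2, 3, 1, 4, 2, 4], [(1, 2), (7, 8)]),
    ([0, 1, 0, 2, 3, 1, 4, 3, 2], [(1, 2), (4, 8)]),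
    ([0, 1, 0, 2, 3, 1, 4, 3, 4], [(1, 2), (7, 8)]),
    ([0, 1, 0, 2, 3, 4, 1, 2, 3], [(1, 2), (4, 8)]),
    ([0, 1, 0, 2, 3, 4, 1, 3, 2], [(1, 2), (4, 8)]),
    ([0, 1, 0, 2, 3, 4, 1, 3, 4], [(1, 2), (5, 8)]),
    ([0, 1, 2, 0, 3, 1, 2, 4, 3], [(0, 4), (2, 6)]),
    ([0, 1, 2, 0, 3, 2, 1, 4, 3], [(0, 4), (2, 6)]),
    ([0, 1, 2, 0, 3, 4, 1, 2, 3], [(0, 4), (2, 7)]),
    ([0, 1, 2, 3, 0, 1, 2, 3, 4], [(1, 5), (3, 7)])]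

/-- classes of pattern `q` -/
def canS9 (q : Fin 93) (i : ZMod 9) : ℕ := (patS9.getD q.val ([], [])).1.getD i.val 0

/-- active pairs of pattern `q` -/
def actS9 (q : Fin 93) : List (ℕ × ℕ) := (patS9.getD q.val ([], [])).2

/-- the patterns for `10` marks: classes of the arcs and active pairs -/
def patS10 : List (List ℕ × List (ℕ × ℕ)) :=
  [([0, 0, 1, 2, 1, 2, 3, 4, 3, 4], [(3, 4), (3, 5), (7, 8), (7, 9)]),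
    ([0, 0, 1, 2, 1, 2, 3, 4, 3, 4], [(3, 4), (3, 5), (7, 8), (8, 9)]),
    ([0, 0, 1, 2, 1, 2, 3, 4, 3, 4], [(3, 4), (3, 5), (7, 9), (8, 9)]),
    ([0, 0, 1, 2, 1, 2, 3, 4, 3, 4], [(3, 4), (4, 5), (7, 8), (7, 9)]),
    ([0, 0, 1, 2, 1, 2, 3, 4, 3, 4], [(3, 4), (4, 5), (7, 8), (8, 9)]),
    ([0, 0, 1, 2, 1, 2, 3, 4, 3, 4], [(3, 4), (4, 5), (7, 9), (8, 9)]),
    ([0, 0, 1, 2, 1, 2, 3, 4, 3, 4], [(3, 5), (4, 5), (7, 8), (7, 9)]),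
    ([0, 0, 1, 2, 1, 2, 3, 4, 3, 4], [(3, 5), (4, 5), (7, 8), (8, 9)]),
    ([0, 0, 1, 2, 1, 2, 3, 4, 3, 4], [(3, 5), (4, 5), (7, 9), (8, 9)]),
    ([0, 1, 0, 1, 2, 3, 2, 3, 4, 5], [(1, 2), (1, 3), (5, 6), (5, 7)]),
    ([0, 1, 0, 1, 2, 3, 2, 3, 4, 5], [(1, 2), (1, 3), (5, 6), (6, 7)]),
    ([0, 1, 0, 1, 2, 3, 2, 3, 4, 5], [(1, 2), (1, 3), (5, 7), (6, 7)]),
    ([0, 1, 0, 1, 2, 3, 2, 3, 4, 5], [(1, 2), (2, 3), (5, 6), (5, 7)]),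
    ([0, 1, 0, 1, 2, 3, 2, 3, 4, 5], [(1, 2), (2, 3), (5, 6), (6, 7)]),
    ([0, 1, 0, 1, 2, 3, 2, 3, 4, 5], [(1, 2), (2, 3), (5, 7), (6, 7)]),
    ([0, 1, 0, 1, 2, 3, 2, 3, 4, 5], [(1, 3), (2, 3), (5, 6), (5, 7)]),
    ([0, 1, 0, 1, 2, 3, 2, 3, 4, 5], [(1, 3), (2, 3), (5, 6), (6, 7)]),
    ([0, 1, 0, 1, 2, 3, 2, 3, 4, 5], [(1, 3), (2, 3), (5, 7), (6, 7)]),
    ([0, 1, 0, 1, 2, 3, 4, 3, 4, 2], [(1, 2), (1, 3), (6, 7), (6, 8)]),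
    ([0, 1, 0, 1, 2, 3, 4, 3, 4, 2], [(1, 2), (1, 3), (6, 7), (7, 8)]),
    ([0, 1, 0, 1, 2, 3, 4, 3, 4, 2], [(1, 2), (1, 3), (6, 8), (7, 8)]),
    ([0, 1, 0, 1, 2, 3, 4, 3, 4, 2], [(1, 2), (2, 3), (6, 7), (7, 8)]),
    ([0, 1, 0, 1, 2, 3, 4, 3, 4, 2], [(1, 2), (2, 3), (6, 8), (7, 8)]),
    ([0, 1, 0, 1, 2, 3, 4, 3, 4, 2], [(1, 3), (2, 3), (6, 8), (7, 8)]),
    ([0, 1, 0, 1, 2, 3, 4, 3, 4, 5], [(1, 2), (1, 3), (6, 7), (6, 8)]),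
    ([0, 1, 0, 1, 2, 3, 4, 3, 4, 5], [(1, 2), (1, 3), (6, 7), (7, 8)]),
    ([0, 1, 0, 1, 2, 3, 4, 3, 4, 5], [(1, 2), (1, 3), (6, 8), (7, 8)]),
    ([0, 1, 0, 1, 2, 3, 4, 3, 4, 5], [(1, 2), (2, 3), (6, 7), (7, 8)]),
    ([0, 1, 0, 1, 2, 3, 4, 3, 4, 5], [(1, 2), (2, 3), (6, 8), (7, 8)]),
    ([0, 1, 0, 1, 2, 3, 4, 3, 4, 5], [(1, 3), (2, 3), (6, 8), (7, 8)])]

/-- classes of pattern `q` -/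
def canS10 (q : Fin 30) (i : ZMod 10) : ℕ := (patS10.getD q.val ([], [])).1.getD i.val 0

/-- active pairs of pattern `q` -/
def actS10 (q : Fin 30) : List (ℕ × ℕ) := (patS10.getD q.val ([], [])).2

/-- the patterns for `12` marks: classes of the arcs and active pairs -/
def patS12 : List (List ℕ × List (ℕ × ℕ)) :=
  [([0, 1, 0, 1, 2, 3, 2, 3, 4, 5, 4, 5], [(1, 2), (1, 3), (5, 6), (5, 7), (9, 10), (9, 11)]),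
    ([0, 1, 0, 1, 2, 3, 2, 3, 4, 5, 4, 5], [(1, 2), (1, 3), (5, 6), (5, 7), (9, 10), (10, 11)]),
    ([0, 1, 0, 1, 2, 3, 2, 3, 4, 5, 4, 5], [(1, 2), (1, 3), (5, 6), (5, 7), (9, 11), (10, 11)]),
    ([0, 1, 0, 1, 2, 3, 2, 3, 4, 5, 4, 5], [(1, 2), (1, 3), (5, 6), (6, 7), (9, 10), (10, 11)]),
    ([0, 1, 0, 1, 2, 3, 2, 3, 4, 5, 4, 5], [(1, 2), (1, 3), (5, 6), (6, 7), (9, 11), (10, 11)]),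
    ([0, 1, 0, 1, 2, 3, 2, 3, 4, 5, 4, 5], [(1, 2), (1, 3), (5, 7), (6, 7), (9, 10), (10, 11)]),
    ([0, 1, 0, 1, 2, 3, 2, 3, 4, 5, 4, 5], [(1, 2), (1, 3), (5, 7), (6, 7), (9, 11), (10, 11)]),
    ([0, 1, 0, 1, 2, 3, 2, 3, 4, 5, 4, 5], [(1, 2), (2, 3), (5, 6), (6, 7), (9, 10), (10, 11)]),
    ([0, 1, 0, 1, 2, 3, 2, 3, 4, 5, 4, 5], [(1, 2), (2, 3), (5, 6), (6, 7), (9, 11), (10, 11)]),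
    ([0, 1, 0, 1, 2, 3, 2, 3, 4, 5, 4, 5], [(1, 2), (2, 3), (5, 7), (6, 7), (9, 11), (10, 11)]),
    ([0, 1, 0, 1, 2, 3, 2, 3, 4, 5, 4, 5], [(1, 3), (2, 3), (5, 7), (6, 7), (9, 11), (10, 11)])]

/-- classes of pattern `q` -/
def canS12 (q : Fin 11) (i : ZMod 12) : ℕ := (patS12.getD q.val ([], [])).1.getD i.val 0

/-- active pairs of pattern `q` -/
def actS12 (q : Fin 11) : List (ℕ × ℕ) := (patS12.getD q.val ([], [])).2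

end Pool.Agent.Lib_MP_fa6e45
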