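import Pool.Agent.Lib_MP_fa6e45.ZT0

/-!
MP_fa6e45_co, stage 3: certificate trees for the patterns with 12 marked corners (generated).
-/

namespace Pool.Agent.Lib_MP_fa6e45

/-- classes `0 1 0 1 2 3 2 3 4 5 4 5`, active pairs `1-2 1-3 5-6 5-7 9-10 9-11` -/
def trS12_0 : Tr2 :=
  .lp .none [2, 6, 2, 2, 2, 6, 2, 2, 2, 6, 2, 2] [] [-1, -1, -3, -3, -1, -1, -1, -1, -1, -1, -3, -3,
      -1, -1, -1, -1, -1, -1, -3, -3, -1, -1, -1, -1] 8 5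
 [[(1, 2), (18, 4), (21, 2), (22, 2)], [(0, 2), (3, 4), (4, 2), (7, 2)], [(0, 4), (3, 6), (4, 4),
      (7, 4)], [(2, 6), (5, 4), (6, 4), (9, 4)], [(2, 4), (5, 2), (6, 2), (9, 2)], [(0, 2), (3, 4),
      (4, 2), (7, 2)], [(0, 2), (3, 4), (4, 2), (7, 2)], [(2, 4), (5, 2), (6, 2), (9, 2)], [(2, 4),
      (5, 2), (6, 2), (9, 2)], [(8, 2), (11, 4), (12, 2), (15, 2)], [(8, 4), (11, 6), (12, 4), (15,
      4)], [(10, 6), (13, 4), (14, 4), (17, 4)], [(10, 4), (13, 2), (14, 2), (17, 2)], [(8, 2),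
      (11, 4), (12, 2), (15, 2)], [(8, 2), (11, 4), (12, 2), (15, 2)], [(10, 4), (13, 2), (14, 2),
      (17, 2)], [(10, 4), (13, 2), (14, 2), (17, 2)], [(16, 2), (19, 4), (20, 2), (23, 2)], [(16,
      4), (19, 6), (20, 4), (23, 4)], [(1, 4), (18, 6), (21, 4), (22, 4)], [(1, 2), (18, 4), (21,
      2), (22, 2)], [(16, 2), (19, 4), (20, 2), (23, 2)], [(16, 2), (19, 4), (20, 2), (23, 2)],
      [(1, 2), (18, 4), (21, 2), (22, 2)]]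
 []
 .nil

/-- classes `0 1 0 1 2 3 2 3 4 5 4 5`, active pairs `1-2 1-3 5-6 5-7 9-10 10-11` -/
def trS12_1 : Tr2 :=
  .lp .none [2, 6, 2, 2, 2, 6, 2, 2, 2, 2, 6, 2] [] [-1, -1, -3, -3, -1, -1, -1, -1, -1, -1, -3, -3,
      -1, -1, -1, -1, -1, -1, -1, -1, -3, -3, -1, -1] 8 5
 [[(1, 2), (18, 2), (21, 4), (22, 2)], [(0, 2), (3, 4), (4, 2), (7, 2)], [(0, 4), (3, 6), (4, 4),
      (7, 4)], [(2, 6), (5, 4), (6, 4), (9, 4)], [(2, 4), (5, 2), (6, 2), (9, 2)], [(0, 2), (3, 4),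
      (4, 2), (7, 2)], [(0, 2), (3, 4), (4, 2), (7, 2)], [(2, 4), (5, 2), (6, 2), (9, 2)], [(2, 4),
      (5, 2), (6, 2), (9, 2)], [(8, 2), (11, 4), (12, 2), (15, 2)], [(8, 4), (11, 6), (12, 4), (15,
      4)], [(10, 6), (13, 4), (14, 4), (17, 4)], [(10, 4), (13, 2), (14, 2), (17, 2)], [(8, 2),
      (11, 4), (12, 2), (15, 2)], [(8, 2), (11, 4), (12, 2), (15, 2)], [(10, 4), (13, 2), (14, 2),
      (17, 2)], [(10, 4), (13, 2), (14, 2), (17, 2)], [(16, 2), (19, 2), (20, 4), (23, 2)], [(16,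
      2), (19, 2), (20, 4), (23, 2)], [(1, 2), (18, 2), (21, 4), (22, 2)], [(1, 4), (18, 4), (21,
      6), (22, 4)], [(16, 4), (19, 4), (20, 6), (23, 4)], [(16, 2), (19, 2), (20, 4), (23, 2)],
      [(1, 2), (18, 2), (21, 4), (22, 2)]]
 []
 .nil

/-- classes `0 1 0 1 2 3 2 3 4 5 4 5`, active pairs `1-2 1-3 5-6 5-7 9-11 10-11` -/
def trS12_2 : Tr2 :=
  .lp .none [2, 6, 2, 2, 2, 6, 2, 2, 2, 2, 2, 6] [] [-1, -1, -3, -3, -1, -1, -1, -1, -1, -1, -3, -3,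
      -1, -1, -1, -1, -1, -1, -1, -1, -1, -1, -3, -3] 8 5
 [[(1, 2), (18, 2), (21, 2), (22, 4)], [(0, 2), (3, 4), (4, 2), (7, 2)], [(0, 4), (3, 6), (4, 4),
      (7, 4)], [(2, 6), (5, 4), (6, 4), (9, 4)], [(2, 4), (5, 2), (6, 2), (9, 2)], [(0, 2), (3, 4),
      (4, 2), (7, 2)], [(0, 2), (3, 4), (4, 2), (7, 2)], [(2, 4), (5, 2), (6, 2), (9, 2)], [(2, 4),
      (5, 2), (6, 2), (9, 2)], [(8, 2), (11, 4), (12, 2), (15, 2)], [(8, 4), (11, 6), (12, 4), (15,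
      4)], [(10, 6), (13, 4), (14, 4), (17, 4)], [(10, 4), (13, 2), (14, 2), (17, 2)], [(8, 2),
      (11, 4), (12, 2), (15, 2)], [(8, 2), (11, 4), (12, 2), (15, 2)], [(10, 4), (13, 2), (14, 2),
      (17, 2)], [(10, 4), (13, 2), (14, 2), (17, 2)], [(16, 2), (19, 2), (20, 2), (23, 4)], [(16,
      2), (19, 2), (20, 2), (23, 4)], [(1, 2), (18, 2), (21, 2), (22, 4)], [(1, 2), (18, 2), (21,
      2), (22, 4)], [(16, 2), (19, 2), (20, 2), (23, 4)], [(16, 4), (19, 4), (20, 4), (23, 6)],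
      [(1, 4), (18, 4), (21, 4), (22, 6)]]
 []
 .nil

/-- classes `0 1 0 1 2 3 2 3 4 5 4 5`, active pairs `1-2 1-3 5-6 6-7 9-10 10-11` -/
def trS12_3 : Tr2 :=
  .lp .none [2, 6, 2, 2, 2, 2, 6, 2, 2, 2, 6, 2] [] [-1, -1, -3, -3, -1, -1, -1, -1, -1, -1, -1, -1,
      -3, -3, -1, -1, -1, -1, -1, -1, -3, -3, -1, -1] 8 5
 [[(1, 2), (18, 2), (21, 4), (22, 2)], [(0, 2), (3, 4), (4, 2), (7, 2)], [(0, 4), (3, 6), (4, 4),
      (7, 4)], [(2, 6), (5, 4), (6, 4), (9, 4)], [(2, 4), (5, 2), (6, 2), (9, 2)], [(0, 2), (3, 4),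
      (4, 2), (7, 2)], [(0, 2), (3, 4), (4, 2), (7, 2)], [(2, 4), (5, 2), (6, 2), (9, 2)], [(2, 4),
      (5, 2), (6, 2), (9, 2)], [(8, 2), (11, 2), (12, 4), (15, 2)], [(8, 2), (11, 2), (12, 4), (15,
      2)], [(10, 2), (13, 4), (14, 2), (17, 2)], [(10, 4), (13, 6), (14, 4), (17, 4)], [(8, 4),
      (11, 4), (12, 6), (15, 4)], [(8, 2), (11, 2), (12, 4), (15, 2)], [(10, 2), (13, 4), (14, 2),
      (17, 2)], [(10, 2), (13, 4), (14, 2), (17, 2)], [(16, 2), (19, 2), (20, 4), (23, 2)], [(16,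
      2), (19, 2), (20, 4), (23, 2)], [(1, 2), (18, 2), (21, 4), (22, 2)], [(1, 4), (18, 4), (21,
      6), (22, 4)], [(16, 4), (19, 4), (20, 6), (23, 4)], [(16, 2), (19, 2), (20, 4), (23, 2)],
      [(1, 2), (18, 2), (21, 4), (22, 2)]]
 []
 .nil

/-- classes `0 1 0 1 2 3 2 3 4 5 4 5`, active pairs `1-2 1-3 5-6 6-7 9-11 10-11` -/
def trS12_4 : Tr2 :=
  .lp .none [2, 6, 2, 2, 2, 2, 6, 2, 2, 2, 2, 6] [] [-1, -1, -3, -3, -1, -1, -1, -1, -1, -1, -1, -1,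
      -3, -3, -1, -1, -1, -1, -1, -1, -1, -1, -3, -3] 8 5
 [[(1, 2), (18, 2), (21, 2), (22, 4)], [(0, 2), (3, 4), (4, 2), (7, 2)], [(0, 4), (3, 6), (4, 4),
      (7, 4)], [(2, 6), (5, 4), (6, 4), (9, 4)], [(2, 4), (5, 2), (6, 2), (9, 2)], [(0, 2), (3, 4),
      (4, 2), (7, 2)], [(0, 2), (3, 4), (4, 2), (7, 2)], [(2, 4), (5, 2), (6, 2), (9, 2)], [(2, 4),
      (5, 2), (6, 2), (9, 2)], [(8, 2), (11, 2), (12, 4), (15, 2)], [(8, 2), (11, 2), (12, 4), (15,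
      2)], [(10, 2), (13, 4), (14, 2), (17, 2)], [(10, 4), (13, 6), (14, 4), (17, 4)], [(8, 4),
      (11, 4), (12, 6), (15, 4)], [(8, 2), (11, 2), (12, 4), (15, 2)], [(10, 2), (13, 4), (14, 2),
      (17, 2)], [(10, 2), (13, 4), (14, 2), (17, 2)], [(16, 2), (19, 2), (20, 2), (23, 4)], [(16,
      2), (19, 2), (20, 2), (23, 4)], [(1, 2), (18, 2), (21, 2), (22, 4)], [(1, 2), (18, 2), (21,
      2), (22, 4)], [(16, 2), (19, 2), (20, 2), (23, 4)], [(16, 4), (19, 4), (20, 4), (23, 6)],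
      [(1, 4), (18, 4), (21, 4), (22, 6)]]
 []
 .nil

/-- classes `0 1 0 1 2 3 2 3 4 5 4 5`, active pairs `1-2 1-3 5-7 6-7 9-10 10-11` -/
def trS12_5 : Tr2 :=
  .lp .none [2, 6, 2, 2, 2, 2, 2, 6, 2, 2, 6, 2] [] [-1, -1, -3, -3, -1, -1, -1, -1, -1, -1, -1, -1,
      -1, -1, -3, -3, -1, -1, -1, -1, -3, -3, -1, -1] 8 5
 [[(1, 2), (18, 2), (21, 4), (22, 2)], [(0, 2), (3, 4), (4, 2), (7, 2)], [(0, 4), (3, 6), (4, 4),
      (7, 4)], [(2, 6), (5, 4), (6, 4), (9, 4)], [(2, 4), (5, 2), (6, 2), (9, 2)], [(0, 2), (3, 4),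
      (4, 2), (7, 2)], [(0, 2), (3, 4), (4, 2), (7, 2)], [(2, 4), (5, 2), (6, 2), (9, 2)], [(2, 4),
      (5, 2), (6, 2), (9, 2)], [(8, 2), (11, 2), (12, 2), (15, 4)], [(8, 2), (11, 2), (12, 2), (15,
      4)], [(10, 2), (13, 2), (14, 4), (17, 2)], [(10, 2), (13, 2), (14, 4), (17, 2)], [(8, 2),
      (11, 2), (12, 2), (15, 4)], [(8, 4), (11, 4), (12, 4), (15, 6)], [(10, 4), (13, 4), (14, 6),
      (17, 4)], [(10, 2), (13, 2), (14, 4), (17, 2)], [(16, 2), (19, 2), (20, 4), (23, 2)], [(16,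
      2), (19, 2), (20, 4), (23, 2)], [(1, 2), (18, 2), (21, 4), (22, 2)], [(1, 4), (18, 4), (21,
      6), (22, 4)], [(16, 4), (19, 4), (20, 6), (23, 4)], [(16, 2), (19, 2), (20, 4), (23, 2)],
      [(1, 2), (18, 2), (21, 4), (22, 2)]]
 []
 .nil

/-- classes `0 1 0 1 2 3 2 3 4 5 4 5`, active pairs `1-2 1-3 5-7 6-7 9-11 10-11` -/
def trS12_6 : Tr2 :=
  .lp .none [2, 6, 2, 2, 2, 2, 2, 6, 2, 2, 2, 6] [] [-1, -1, -3, -3, -1, -1, -1, -1, -1, -1, -1, -1,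
      -1, -1, -3, -3, -1, -1, -1, -1, -1, -1, -3, -3] 8 5
 [[(1, 2), (18, 2), (21, 2), (22, 4)], [(0, 2), (3, 4), (4, 2), (7, 2)], [(0, 4), (3, 6), (4, 4),
      (7, 4)], [(2, 6), (5, 4), (6, 4), (9, 4)], [(2, 4), (5, 2), (6, 2), (9, 2)], [(0, 2), (3, 4),
      (4, 2), (7, 2)], [(0, 2), (3, 4), (4, 2), (7, 2)], [(2, 4), (5, 2), (6, 2), (9, 2)], [(2, 4),
      (5, 2), (6, 2), (9, 2)], [(8, 2), (11, 2), (12, 2), (15, 4)], [(8, 2), (11, 2), (12, 2), (15,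
      4)], [(10, 2), (13, 2), (14, 4), (17, 2)], [(10, 2), (13, 2), (14, 4), (17, 2)], [(8, 2),
      (11, 2), (12, 2), (15, 4)], [(8, 4), (11, 4), (12, 4), (15, 6)], [(10, 4), (13, 4), (14, 6),
      (17, 4)], [(10, 2), (13, 2), (14, 4), (17, 2)], [(16, 2), (19, 2), (20, 2), (23, 4)], [(16,
      2), (19, 2), (20, 2), (23, 4)], [(1, 2), (18, 2), (21, 2), (22, 4)], [(1, 2), (18, 2), (21,
      2), (22, 4)], [(16, 2), (19, 2), (20, 2), (23, 4)], [(16, 4), (19, 4), (20, 4), (23, 6)],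
      [(1, 4), (18, 4), (21, 4), (22, 6)]]
 []
 .nil

/-- classes `0 1 0 1 2 3 2 3 4 5 4 5`, active pairs `1-2 2-3 5-6 6-7 9-10 10-11` -/
def trS12_7 : Tr2 :=
  .lp .none [2, 2, 6, 2, 2, 2, 6, 2, 2, 2, 6, 2] [] [-1, -1, -1, -1, -3, -3, -1, -1, -1, -1, -1, -1,
      -3, -3, -1, -1, -1, -1, -1, -1, -3, -3, -1, -1] 8 5
 [[(1, 2), (18, 2), (21, 4), (22, 2)], [(0, 2), (3, 2), (4, 4), (7, 2)], [(0, 2), (3, 2), (4, 4),
      (7, 2)], [(2, 2), (5, 4), (6, 2), (9, 2)], [(2, 4), (5, 6), (6, 4), (9, 4)], [(0, 4), (3, 4),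
      (4, 6), (7, 4)], [(0, 2), (3, 2), (4, 4), (7, 2)], [(2, 2), (5, 4), (6, 2), (9, 2)], [(2, 2),
      (5, 4), (6, 2), (9, 2)], [(8, 2), (11, 2), (12, 4), (15, 2)], [(8, 2), (11, 2), (12, 4), (15,
      2)], [(10, 2), (13, 4), (14, 2), (17, 2)], [(10, 4), (13, 6), (14, 4), (17, 4)], [(8, 4),
      (11, 4), (12, 6), (15, 4)], [(8, 2), (11, 2), (12, 4), (15, 2)], [(10, 2), (13, 4), (14, 2),
      (17, 2)], [(10, 2), (13, 4), (14, 2), (17, 2)], [(16, 2), (19, 2), (20, 4), (23, 2)], [(16,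
      2), (19, 2), (20, 4), (23, 2)], [(1, 2), (18, 2), (21, 4), (22, 2)], [(1, 4), (18, 4), (21,
      6), (22, 4)], [(16, 4), (19, 4), (20, 6), (23, 4)], [(16, 2), (19, 2), (20, 4), (23, 2)],
      [(1, 2), (18, 2), (21, 4), (22, 2)]]
 []
 .nil

/-- classes `0 1 0 1 2 3 2 3 4 5 4 5`, active pairs `1-2 2-3 5-6 6-7 9-11 10-11` -/
def trS12_8 : Tr2 :=
  .lp .none [2, 2, 6, 2, 2, 2, 6, 2, 2, 2, 2, 6] [] [-1, -1, -1, -1, -3, -3, -1, -1, -1, -1, -1, -1,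
      -3, -3, -1, -1, -1, -1, -1, -1, -1, -1, -3, -3] 8 5
 [[(1, 2), (18, 2), (21, 2), (22, 4)], [(0, 2), (3, 2), (4, 4), (7, 2)], [(0, 2), (3, 2), (4, 4),
      (7, 2)], [(2, 2), (5, 4), (6, 2), (9, 2)], [(2, 4), (5, 6), (6, 4), (9, 4)], [(0, 4), (3, 4),
      (4, 6), (7, 4)], [(0, 2), (3, 2), (4, 4), (7, 2)], [(2, 2), (5, 4), (6, 2), (9, 2)], [(2, 2),
      (5, 4), (6, 2), (9, 2)], [(8, 2), (11, 2), (12, 4), (15, 2)], [(8, 2), (11, 2), (12, 4), (15,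
      2)], [(10, 2), (13, 4), (14, 2), (17, 2)], [(10, 4), (13, 6), (14, 4), (17, 4)], [(8, 4),
      (11, 4), (12, 6), (15, 4)], [(8, 2), (11, 2), (12, 4), (15, 2)], [(10, 2), (13, 4), (14, 2),
      (17, 2)], [(10, 2), (13, 4), (14, 2), (17, 2)], [(16, 2), (19, 2), (20, 2), (23, 4)], [(16,
      2), (19, 2), (20, 2), (23, 4)], [(1, 2), (18, 2), (21, 2), (22, 4)], [(1, 2), (18, 2), (21,
      2), (22, 4)], [(16, 2), (19, 2), (20, 2), (23, 4)], [(16, 4), (19, 4), (20, 4), (23, 6)],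
      [(1, 4), (18, 4), (21, 4), (22, 6)]]
 []
 .nil

/-- classes `0 1 0 1 2 3 2 3 4 5 4 5`, active pairs `1-2 2-3 5-7 6-7 9-11 10-11` -/
def trS12_9 : Tr2 :=
  .lp .none [2, 2, 6, 2, 2, 2, 2, 6, 2, 2, 2, 6] [] [-1, -1, -1, -1, -3, -3, -1, -1, -1, -1, -1, -1,
      -1, -1, -3, -3, -1, -1, -1, -1, -1, -1, -3, -3] 8 5
 [[(1, 2), (18, 2), (21, 2), (22, 4)], [(0, 2), (3, 2), (4, 4), (7, 2)], [(0, 2), (3, 2), (4, 4),
      (7, 2)], [(2, 2), (5, 4), (6, 2), (9, 2)], [(2, 4), (5, 6), (6, 4), (9, 4)], [(0, 4), (3, 4),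
      (4, 6), (7, 4)], [(0, 2), (3, 2), (4, 4), (7, 2)], [(2, 2), (5, 4), (6, 2), (9, 2)], [(2, 2),
      (5, 4), (6, 2), (9, 2)], [(8, 2), (11, 2), (12, 2), (15, 4)], [(8, 2), (11, 2), (12, 2), (15,
      4)], [(10, 2), (13, 2), (14, 4), (17, 2)], [(10, 2), (13, 2), (14, 4), (17, 2)], [(8, 2),
      (11, 2), (12, 2), (15, 4)], [(8, 4), (11, 4), (12, 4), (15, 6)], [(10, 4), (13, 4), (14, 6),
      (17, 4)], [(10, 2), (13, 2), (14, 4), (17, 2)], [(16, 2), (19, 2), (20, 2), (23, 4)], [(16,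
      2), (19, 2), (20, 2), (23, 4)], [(1, 2), (18, 2), (21, 2), (22, 4)], [(1, 2), (18, 2), (21,
      2), (22, 4)], [(16, 2), (19, 2), (20, 2), (23, 4)], [(16, 4), (19, 4), (20, 4), (23, 6)],
      [(1, 4), (18, 4), (21, 4), (22, 6)]]
 []
 .nil

/-- classes `0 1 0 1 2 3 2 3 4 5 4 5`, active pairs `1-3 2-3 5-7 6-7 9-11 10-11` -/
def trS12_10 : Tr2 :=
  .lp .none [2, 2, 2, 6, 2, 2, 2, 6, 2, 2, 2, 6] [] [-1, -1, -1, -1, -1, -1, -3, -3, -1, -1, -1, -1,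
      -1, -1, -3, -3, -1, -1, -1, -1, -1, -1, -3, -3] 8 5
 [[(1, 2), (18, 2), (21, 2), (22, 4)], [(0, 2), (3, 2), (4, 2), (7, 4)], [(0, 2), (3, 2), (4, 2),
      (7, 4)], [(2, 2), (5, 2), (6, 4), (9, 2)], [(2, 2), (5, 2), (6, 4), (9, 2)], [(0, 2), (3, 2),
      (4, 2), (7, 4)], [(0, 4), (3, 4), (4, 4), (7, 6)], [(2, 4), (5, 4), (6, 6), (9, 4)], [(2, 2),
      (5, 2), (6, 4), (9, 2)], [(8, 2), (11, 2), (12, 2), (15, 4)], [(8, 2), (11, 2), (12, 2), (15,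
      4)], [(10, 2), (13, 2), (14, 4), (17, 2)], [(10, 2), (13, 2), (14, 4), (17, 2)], [(8, 2),
      (11, 2), (12, 2), (15, 4)], [(8, 4), (11, 4), (12, 4), (15, 6)], [(10, 4), (13, 4), (14, 6),
      (17, 4)], [(10, 2), (13, 2), (14, 4), (17, 2)], [(16, 2), (19, 2), (20, 2), (23, 4)], [(16,
      2), (19, 2), (20, 2), (23, 4)], [(1, 2), (18, 2), (21, 2), (22, 4)], [(1, 2), (18, 2), (21,
      2), (22, 4)], [(16, 2), (19, 2), (20, 2), (23, 4)], [(16, 4), (19, 4), (20, 4), (23, 6)],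
      [(1, 4), (18, 4), (21, 4), (22, 6)]]
 []
 .nil

/-- the trees for `12` marks -/
def trS12 (q : Fin 11) : Tr2 :=
  ([trS12_0, trS12_1, trS12_2, trS12_3, trS12_4, trS12_5, trS12_6, trS12_7, trS12_8, trS12_9,
      trS12_10] : List Tr2).getD q.val Tr2.nil

theorem okS12 : ∀ q : Fin 11, chkR (canS12 q) (actS12 q) schN (trS12 q) = true := by
  decide +kernel

end Pool.Agent.Lib_MP_fa6e45
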